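import Pool.Agent.Strip051.G.IE1.Tab

/-! # Certificates N63 (generated) -/

set_option linter.all false
set_option maxRecDepth 100000

namespace Pool.Agent.Strip051.G.IE1.Tab.C.NB15

open Pool.Agent.Strip051.PB Pool.Agent.Strip051.PB.T
open Pool.Agent.Strip051.G.IE1.Tab

noncomputable def f_pm_202_a : ℕ → ℕ → ℕ → ℕ → Bool := onCell 0 420477299 0 536870912 1046898278 26843546
    (rowNX 3 1 false true false .pp 2 0 2 (qsf 0 420477299 1073741824 536870912 0) ndN1q2a ndN5q2 pcN0 Cut.none Ext.none)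

def k0_pm_202_a : ∃ t, chk3 f_pm_202_a t 2 8 1 = true :=
  ⟨(l 3), by decide +kernel⟩

def k1_pm_202_a : ∃ t, chk3 f_pm_202_a t 6 16 1 = true :=
  ⟨(l 3), by decide +kernel⟩

def k2_pm_202_a : ∃ t, chk3 f_pm_202_a t 14 16 2 = true :=
  ⟨(a (l 3) (c (b (b (a (b (l 16116248) (l 16181936)) (b (l 16140408) (l 16197216))) (a (b (l 16206408) (l 16322056)) (b (b (l 16245664) (a (l 16277648) (l 16256544))) (a (l 16333976) (l 16300000))))) (b (b (a (l 16393328) (l 16332880)) (a (l 169281281623) (c (l 16386488) (l 16412936)))) (c (a (l 16417560) (b (l 16514440) (l 16443616))) (l 164986233287)))) (b (b (b (a (l 16107704) (l 16133768)) (a (l 16174968) (b (l 16176904) (c (l 16205328) (l 16205544))))) (b (a (l 16248528) (c (l 16138528) (l 16247816))) (c (l 163375396167) (b (l 163912265831) (l 164449209719))))) (b (c (b (l 164449288247) (l 16451312)) (b (l 16398024) (l 16376536))) (c (c (l 166059939111) (l 166596772119)) (b (l 16412608) (c (l 16371712) (b (c (l 16404456) (l 167670556791))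 (c (l 167670484503) (l 16382232)))))))))), by decide +kernel⟩

def k3_pm_202_a : ∃ t, chk3 f_pm_202_a t 30 16 2 = true :=
  ⟨(b (a (b (c (l 16152392) (b (a (l 16166648) (l 16195680)) (c (l 16247232) (b (l 16237640) (l 16264816))))) (b (c (b (l 16277616) (c (l 16298320) (l 16304256))) (c (b (l 16282872) (l 16316624)) (l 16267888))) (c (c (l 16274328) (l 16347992)) (c (l 16338392) (l 16284608))))) (b (b (c (l 16230568) (c (l 16230944) (a (l 16218184) (l 16252112)))) (c (l 16309336) (c (l 16305064) (b (l 16310440) (c (l 16310984) (b (l 16347808) (l 16359432))))))) (c (b (c (l 16366704) (l 16247096)) (c (l 16394360) (l 16425632))) (b (b (c (l 16347400) (l 16371032)) (l 16306512)) (c (l 16433416) (b (l 16416720) (l 16458240))))))) (b (b (c (a (b (l 16409384) (l 16443704)) (l 16370960)) (c (a (b (l 16386712) (l 16490120)) (l 16513744)) (l 16488664))) (a (c (a (l 16525768) (l 16444008)) (l 16464312)) (c (l 16414968) (l 16528480)))) (c (c (b (l 16377840) (l 16385160)) (l 16333960)) (c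 (c (l 16307992) (l 16302928)) (c (l 16297000) (b (l 16458384) (b (l 16353560) (a (l 16372048) (l 16357736))))))))), by decide +kernel⟩

def k4_pm_202_a : ∃ t, chk3 f_pm_202_a t 31 16 2 = true :=
  ⟨(b (b (b (c (a (l 16218672) (c (l 16348816) (l 16361256))) (a (l 16141088) (l 16378968))) (c (a (l 16277304) (c (l 16423016) (l 16436104))) (a (c (l 16328640) (b (l 16383864) (c (l 16299008) (l 16426832)))) (b (l 16453680) (l 16497872))))) (c (b (c (a (l 16452808) (b (l 16518904) (l 16459888))) (b (a (l 16411952) (l 16507328)) (a (l 16456904) (c (l 16523944) (l 16558840))))) (a (c (l 16498872) (l 16497312)) (c (c (l 16592456) (l 16589480)) (l 16554616)))) (b (c (b (a (a (l 16311976) (b (l 16406616) (l 16481576))) (l 16534552)) (a (l 16470496) (l 16541824))) (a (b (l 16332688) (l 16384080)) (l 16520848))) (c (a (l 16491352) (l 16446456)) (b (c (l 16425352) (l 16415088)) (c (l 16497720) (l 16522072))))))) (b (c (b (a (l 16509536) (c (l 16573800) (l 16581800))) (c (l 16383424) (b (l 16540784)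 (l 16505176)))) (b (c (b (c (l 16556320) (l 16552816)) (l 16576376)) (l 16584152)) (l 16490688))) (c (b (c (l 16447592) (l 16440880)) (l 16361376)) (b (a (l 16438792) (l 16406360)) (c (l 16348400) (l 16278016)))))), by decide +kernel⟩

def k5_pm_202_a : ∃ t, chk3 f_pm_202_a t 28 16 3 = true :=
  ⟨(l 3), by decide +kernel⟩

def k6_pm_202_a : ∃ t, chk3 f_pm_202_a t 29 32 3 = true :=
  ⟨(c (b (a (b (b (l 16041048) (b (l 167669991719) (l 16123304))) (l 168206922535)) (b (b (l 16124056) (a (c (l 16133584) (l 16131968)) (c (l 16159816) (b (l 16163304) (l 16171392))))) (c (b (a (l 16162320) (l 16185808)) (l 16211768)) (b (a (l 16167056) (c (l 16189560) (l 16191976))) (a (l 16213200) (l 16231752)))))) (b (b (a (l 16212464) (a (l 16185864) (a (l 16262424) (l 16276000)))) (c (l 163912193703) (l 16289496))) (c (l 164449145719) (c (l 16290512) (b (l 16337696) (c (l 16384624) (l 163912357655))))))) (b (b (b (b (c (l 16056912) (c (l 159079938903) (c (a (l 16061992) (l 16108920)) (c (l 158006170519)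 (b (l 16007832) (l 16079560)))))) (c (a (l 166059307527) (l 16086728)) (c (a (a (l 3) (l 162301195447)) (l 16019400)) (c (l 16094808) (c (l 158543081863) (l 16094376)))))) (c (a (b (c (c (l 16083408) (l 166596213687)) (l 166059331751)) (l 16122144)) (c (b (a (l 16121960) (l 16158440)) (a (l 16140320) (l 16176424))) (b (c (l 16029344) (l 16134248)) (l 16128048)))) (c (a (l 165522460199) (l 16142112)) (b (c (c (l 16115600) (l 16115464)) (l 16113864)) (l 159080041511))))) (c (c (a (l 16174584) (b (b (l 16126984) (l 16190400)) (l 16223680))) (c (l 16146768) (c (l 16190824) (l 160690694359)))) (c (b (c (l 16147000) (b (b (l 16111560) (l 16100592)) (l 160153880311))) (c (a (b (l 166596363319) (l 16146024)) (l 16119688)) (l 16205736))) (l 16184456)))) (c (b (c (c (l 16274392) (b (l 16253568) (l 16193248))) (b (c (l 16214184) (b (a (l 167133319031) (l 16257640)) (l 16259624))) (c (b (a (l 16167080) (l 16251800)) (l 16298544)) (l 16285936)))) (c (b (c (l 163375407671) (b (a (l 16228504)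 (l 16272376)) (l 16318016))) (c (b (a (l 16289200) (l 16313328)) (l 16354200)) (l 16366816))) (l 16346176))) (l 161227747943)))), by decide +kernel⟩

def k7_pm_202_a : ∃ t, chk3 f_pm_202_a t 29 33 3 = true :=
  ⟨(c (b (c (c (l 165523025303) (b (l 211694207959) (b (l 16423440) (c (l 16474288) (l 16461088))))) (b (c (b (l 16422232) (c (l 16468768) (l 195588056711))) (b (c (l 164449312551) (l 164449278039)) (c (b (l 16398592) (l 16453232)) (l 16441112)))) (c (b (c (l 16398072) (b (l 16479160) (l 16491760))) (c (b (l 16496480) (l 16508992)) (l 16518168))) (l 16498824)))) (c (c (b (b (l 166596959783) (c (l 174650090727) (l 16451976))) (b (c (l 16416824) (b (l 176797612183) (l 16363528))) (c (a (l 3) (l 16341344)) (l 16401800)))) (b (b (c (l 16487696) (b (l 16488456) (l 16496768))) (c (b (l 16474008) (l 16461440)) (l 16471768))) (l 16418752))) (l 16411176))) (b (l 16354448) (l 16409336))), by decide +kernel⟩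

def k8_pm_202_a : ∃ t, chk3 f_pm_202_a t 15 32 3 = true :=
  ⟨(a (c (c (b (a (b (b (l 16155048) (l 16142800)) (b (a (l 16224920) (c (l 16266416) (l 16206032))) (a (l 16250928) (l 16289168)))) (b (l 16150816) (b (a (c (l 16301184) (b (l 16296040) (l 16310976))) (l 16337344)) (c (c (l 16327672) (l 16343224)) (l 16217296))))) (b (a (a (l 16245552) (l 16246368)) (b (c (l 16358432) (l 16322824)) (c (l 16378640) (l 16375824)))) (l 16282336))) (b (b (a (b (l 16158928) (b (l 16193200) (c (l 16215776) (a (l 16189888) (l 16245912))))) (l 16258040)) (b (a (c (a (l 16230008) (b (l 16260496) (l 16268968))) (l 16193688)) (l 16311192)) (c (l 16189768) (l 16184208)))) (a (b (l 16217064) (b (l 16386800) (c (l 16419784) (l 16381432)))) (b (l 16304080) (l 16454296))))) (b (b (c (b (l 16210104) (c (b (l 16148176) (l 16181648)) (l 16244264))) (b (c (l 16213848) (l 16047752)) (l 16243808))) (c (a (b (c (l 16186824) (l 16231336)) (l 16268096)) (l 16318080)) (l 16291856))) (a (c (b (c (l 16324200)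 (l 16178368)) (b (l 16262816) (c (c (l 16314480) (l 16414192)) (l 16412640)))) (l 16289736)) (b (l 16281600) (l 16397552))))) (b (c (b (l 16258496) (c (b (l 16387608) (l 16452160)) (b (l 16421640) (l 16412496)))) (b (b (c (l 16356096) (b (l 16207432) (l 16204824))) (c (l 16265560) (l 16327568))) (c (b (l 16391624) (l 16442296)) (l 16441336)))) (c (b (c (b (l 16458112) (a (c (l 16367096) (l 16431784)) (l 16510032))) (l 16431976)) (a (l 16379496) (l 16570592))) (l 16387848)))), by decide +kernel⟩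

def k9_pm_202_a : ∃ t, chk3 f_pm_202_a t 15 33 3 = true :=
  ⟨(c (b (c (a (a (b (l 16482088) (c (l 16539072) (b (l 16547816) (l 16453176)))) (l 16352312)) (a (l 16372464) (l 16520072))) (a (b (c (b (l 16479592) (l 16375736)) (c (b (l 16479584) (l 16452152)) (b (l 16423296) (l 16511392)))) (c (b (c (l 16550728) (l 16472816)) (a (l 16462712) (l 16499128))) (l 16540048))) (b (l 16490688) (b (l 16494080) (l 16474560))))) (c (a (b (c (b (l 16474096) (c (l 16433584) (l 16439640))) (c (b (l 16478120) (l 16447768)) (b (l 16486112) (l 16450304)))) (c (b (c (l 16401592) (l 16346816)) (a (l 16391304) (l 16348504))) (l 16392664))) (b (c (l 16416088) (b (l 16435408) (l 16354072))) (c (b (l 16317928) (l 16319968)) (l 16335112)))) (a (l 16429760) (a (l 16390816) (l 16305368))))) (a (b (c (b (l 16387536) (l 16541024)) (l 16363336)) (l 16406472)) (b (l 16312336) (a (l 16324160) (l 16322504))))), by decide +kernel⟩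

def k10_pm_202_a : ∃ t, chk3 f_pm_202_a t 6 17 1 = true :=
  ⟨(l 3), by decide +kernel⟩

def k11_pm_202_a : ∃ t, chk3 f_pm_202_a t 14 17 1 = true :=
  ⟨(a (l 3) (a (l 3) (c (b (b (c (a (l 16206008) (b (l 16280584) (l 16286624))) (c (b (l 16246200) (c (b (l 16272488) (l 16166912)) (a (l 16242688) (b (l 16266296) (l 16245736))))) (b (a (c (l 16226440) (l 16271640)) (c (b (c (l 16332504) (l 16335928)) (l 16311600)) (b (l 16297656) (l 16338784)))) (c (a (l 16270384) (b (l 16295768) (l 16274768))) (l 16296496))))) (c (c (l 16177104) (a (b (l 16193256) (c (l 16117424) (l 16134512))) (b (l 16145968) (c (l 16112200) (l 16127912))))) (c (b (a (c (l 16198080) (l 16228560)) (c (l 16171112) (b (l 16232064) (l 16211816)))) (c (a (l 16167104) (l 16095120)) (l 16173072))) (l 16197336)))) (c (b (c (b (c (l 16059920) (b (l 16062608) (a (l 16035424) (l 16027776)))) (a (c (b (l 16030856) (l 16068152)) (l 15976024)) (c (b (l 15993688) (c (l 15977608) (l 15987960))) (l 15956464)))) (b (c (b (l 16073280)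 (l 16065744)) (a (l 16024424) (l 16076640))) (c (a (b (l 16048976) (l 16139000)) (b (l 16049872) (l 15988192))) (l 16039544)))) (c (b (c (l 16034024) (a (l 16188440) (b (l 16066296) (l 16128872)))) (c (b (l 16058712) (l 16100560)) (l 16266552))) (l 16171224))) (b (b (l 16110072) (l 16033624)) (l 16207560)))) (b (b (c (l 16321288) (l 16316232)) (l 16187832)) (b (b (l 16096040) (a (l 16107216) (l 16039808))) (l 16133240)))))), by decide +kernel⟩

def k12_pm_202_a : ∃ t, chk3 f_pm_202_a t 30 17 4 = true :=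
  ⟨(a (b (b (c (a (l 16225880) (l 16314920)) (l 16201712)) (c (l 16166224) (b (c (l 16185864) (b (l 16191784) (c (l 16151752) (l 16150248)))) (a (c (b (l 16121672) (l 16043616)) (b (l 16083936) (l 16110696))) (l 16107584))))) (b (b (c (c (l 16043568) (b (l 16049104) (c (l 16011520) (l 16016880)))) (a (c (l 16056360) (b (l 16097400) (l 16077416))) (a (c (l 16049336) (b (l 16088728) (l 16067376))) (l 16050136)))) (c (c (b (c (l 15983856) (l 15936432)) (c (b (l 15952584) (l 15936928)) (l 15954784))) (b (l 15994984) (l 15984016))) (c (a (a (l 16029168) (l 15938648)) (a (b (l 16027664) (l 16006824)) (l 16008464))) (l 16026288)))) (c (b (b (c (l 15898944) (c (l 15970808) (a (l 15997336) (l 15972688)))) (c (l 15917392) (a (l 15887384) (c (l 15946096) (l 15949816))))) (c (b (c (l 15990320) (a (l 16058648) (b (l 15938256) (l 15953872)))) (c (l 15880528) (l 16052496))) (l 16032176))) (b (l 15992488) (l 16028056))))) (b (b (b (l 16325512) (l 16250000)) (c (l 16141896) (b (l 16160256) (c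 (l 16084512) (l 16094488))))) (c (b (b (l 16021128) (l 15897488)) (b (c (l 15904608) (l 15929024)) (b (l 15885824) (b (l 15872008) (a (a (l 15905952) (l 15863376)) (l 15844912)))))) (b (b (c (l 16029176) (l 16051080)) (l 15990848)) (l 15910184))))), by decide +kernel⟩

def k13_pm_202_a : ∃ t, chk3 f_pm_202_a t 30 17 5 = true :=
  ⟨(b (b (c (b (a (l 16281696) (l 16304624)) (c (a (l 16160120) (l 16226424)) (b (a (c (l 16255184) (l 16261616)) (l 16243248)) (l 16191344)))) (b (c (b (a (l 16329312) (l 16316328)) (a (l 16262840) (l 16285048))) (b (a (l 16348920) (l 16328704)) (a (c (l 16306240) (l 16331672)) (l 16299376)))) (c (a (b (c (l 16279712) (l 16273648)) (c (l 16241248) (l 16266744))) (l 16202624)) (l 16225992)))) (c (b (c (b (c (l 16137984) (l 16189488)) (l 16163416)) (a (b (c (l 16214784) (l 16188080)) (c (l 16114144) (l 16202520))) (l 16179168))) (c (a (a (b (l 16095952) (l 16137656)) (l 16134680)) (l 16114352)) (l 16141536))) (l 16173392))) (b (l 16042000) (a (b (l 15983712)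 (l 16019736)) (l 15900128)))), by decide +kernel⟩

def k14_pm_202_a : ∃ t, chk3 f_pm_202_a t 30 17 3 = true :=
  ⟨(b (c (b (a (l 16311912) (l 16272288)) (l 16167280)) (a (l 16087168) (l 16028136))) (b (l 15983912) (a (b (a (l 15986216) (l 15932456)) (l 15960824)) (b (l 15904056) (l 15849536))))), by decide +kernel⟩

def k15_pm_202_a : ∃ t, chk3 f_pm_202_a t 31 17 1 = true :=
  ⟨(c (b (b (c (a (b (l 16298544) (l 16204936)) (l 16231976)) (c (b (l 16262096) (c (l 16174992) (a (a (l 16174128) (l 16203832)) (l 16181840)))) (b (c (l 16257280) (a (l 16287952) (l 16254664))) (a (b (c (l 16234968) (l 16238896)) (l 16141376)) (l 16181984))))) (c (c (l 15981248) (a (b (l 16034136) (c (l 16062432) (l 16068776))) (l 16077224))) (c (a (b (c (b (l 16152760) (l 16123768)) (b (l 16166264) (l 16136256))) (c (b (l 16097712) (l 16069136)) (l 16085616))) (b (l 16111752) (l 16046880))) (l 16107504)))) (c (b (b (a (c (l 15975760) (c (l 16001536) (l 16017208))) (a (c (c (l 15979232) (l 15973048)) (c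 (l 15979544) (l 15991240))) (l 15963512))) (c (c (a (l 15924768) (b (l 15911728) (l 15877104))) (l 15876704)) (c (a (l 15954840) (b (l 15931336) (l 15902144))) (l 15935808)))) (c (b (c (l 15853896) (a (l 15892952) (b (l 15865776) (l 15837768)))) (c (b (l 15823360) (l 15757784)) (l 15812568))) (l 15837608))) (b (a (l 15982488) (l 15944144)) (l 15826432)))) (b (c (a (b (l 16263672) (l 16109872)) (l 15876920)) (a (l 15952536) (l 15974616))) (b (a (l 15964600) (l 15925128)) (l 15803680)))), by decide +kernel⟩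

def k16_pm_202_a : ∃ t, chk3 f_pm_202_a t 2 9 1 = true :=
  ⟨(l 3), by decide +kernel⟩

def k17_pm_202_a : ∃ t, chk3 f_pm_202_a t 6 9 1 = true :=
  ⟨(l 3), by decide +kernel⟩

def k18_pm_202_a : ∃ t, chk3 f_pm_202_a t 14 9 1 = true :=
  ⟨(a (l 3) (a (l 3) (b (b (c (b (c (l 16202800) (l 16261952)) (l 193977183031)) (b (l 16214336) (l 16300920))) (c (a (l 3) (l 16310632)) (l 16202832))) (b (c (l 183776077447) (l 16113256)) (l 3))))), by decide +kernel⟩

def k19_pm_202_a : ∃ t, chk3 f_pm_202_a t 15 9 1 = true :=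
  ⟨(b (b (a (c (b (a (c (l 16044008) (l 16139880)) (a (c (b (l 15910104) (l 15963728)) (l 15923672)) (b (l 15775096) (l 15803056)))) (a (b (l 16156488) (l 16283528)) (c (a (l 16010208) (l 15745512)) (a (l 16041024) (l 15878096))))) (b (a (l 16063256) (b (a (l 15875888) (l 15764456)) (l 15708512))) (a (l 16133864) (a (l 15856232) (b (l 15824112) (l 15885496)))))) (b (c (a (b (l 15721296) (a (l 15661864) (l 15566640))) (c (l 15584240) (l 15564408))) (a (b (l 15686792) (l 15395888)) (l 15534024))) (c (a (c (l 15526032) (l 15611696)) (b (c (l 15364440) (l 15340312)) (c (a (l 15371896) (l 15212152)) (l 15273104)))) (a (l 15498472) (b (l 15303416) (l 15171264)))))) (a (c (a (b (l 16249072) (l 16389288)) (a (l 16087464) (b (c (l 16008416) (l 15996176)) (l 16056760)))) (a (b (l 16282704) (l 16406368)) (b (a (l 16155656) (l 15956496)) (l 16016296)))) (c (a (b (l 15568296) (c (a (l 15946560) (l 15733344)) (l 15829064))) (c (b (l 15323424) (l 15408496)) (l 15108040))) (a (b (l 15679152)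 (a (l 15911984) (l 15688456))) (b (l 15259728) (l 15348216)))))) (a (b (b (c (a (l 16366032) (l 16182368)) (a (l 16404320) (l 16253392))) (a (c (l 16322520) (l 16314248)) (c (l 16352808) (l 16324704)))) (b (a (c (l 16282768) (l 16270112)) (c (l 16491600) (l 16468944))) (c (l 16115768) (l 16102968)))) (b (b (a (c (a (c (l 15944504) (l 16058832)) (l 15849320)) (a (b (l 16010024) (l 16074904)) (l 15817632))) (c (c (l 15430624) (l 15492440)) (l 15437728))) (a (c (a (l 16235280) (l 16052800)) (a (l 16218352) (l 16028728))) (l 15689888))) (a (b (a (c (l 16418704) (l 16408936)) (c (l 16195752) (l 16158624))) (c (l 16385040) (l 16336952))) (b (l 15929312) (c (l 16022000) (l 16002176))))))), by decide +kernel⟩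

def k20_pm_202_a : ∃ t, chk3 f_pm_202_a t 1 5 1 = true :=
  ⟨(a (l 3) (a (l 3) (a (l 3) (b (b (a (b (c (a (b (l 16091112) (b (l 15999824) (l 15977992))) (l 16127800)) (a (b (l 16068248) (b (l 15973416) (l 15950696))) (l 16111256))) (a (c (l 16065552) (l 16041344)) (b (c (l 16115696) (l 16072720)) (l 16158264)))) (b (a (c (l 16285608) (l 16257832)) (c (a (l 16319320) (l 16166648)) (a (b (l 16353120) (l 16566640)) (l 16134056)))) (a (c (b (l 16279520) (l 16244824)) (b (l 16243080) (l 16227904))) (b (c (l 16334536) (l 16287088)) (c (l 16184400) (a (l 16321768) (l 16383576))))))) (a (c (l 16222736) (l 16166968)) (c (a (l 16384792) (l 16334872)) (c (l 16270608) (l 16224808))))) (b (a (c (l 149417149335) (l 16428088)) (c (l 16251288) (b (l 16524536) (l 16426112)))) (b (a (c (l 149953921223) (l 16437696)) (c (b (l 16349824) (l 16313480)) (l 16190688))) (c (a (l 16494840) (l 16306984)) (l 89823992519)))))))), by decide +kernel⟩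

def k21_pm_202_a : ∃ t, chk3 f_pm_202_a t 1 3 1 = true :=
  ⟨(a (l 3) (a (l 3) (a (l 3) (a (b (b (c (l 95730048871) (l 16442952)) (l 3)) (l 3)) (b (b (c (b (l 16286008) (l 16306984)) (b (l 16290416) (l 16290416))) (c (b (l 16306984) (l 16306984)) (l 16290416))) (b (c (l 16306984) (l 16290416)) (c (l 16306984) (l 16290416)))))))), by decide +kernel⟩

theorem s22_pm_202_a : ∃ t, chk3 f_pm_202_a t 7 9 1 = true := ex3_a k18_pm_202_a k19_pm_202_a

theorem s23_pm_202_a : ∃ t, chk3 f_pm_202_a t 3 9 1 = true := ex3_a k17_pm_202_a s22_pm_202_a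

theorem s24_pm_202_a : ∃ t, chk3 f_pm_202_a t 1 9 1 = true := ex3_a k16_pm_202_a s23_pm_202_a

theorem s25_pm_202_a : ∃ t, chk3 f_pm_202_a t 30 17 2 = true := ex3_c k12_pm_202_a k13_pm_202_a

theorem s26_pm_202_a : ∃ t, chk3 f_pm_202_a t 30 17 1 = true := ex3_c s25_pm_202_a k14_pm_202_a

theorem s27_pm_202_a : ∃ t, chk3 f_pm_202_a t 15 17 1 = true := ex3_a s26_pm_202_a k15_pm_202_a

theorem s28_pm_202_a : ∃ t, chk3 f_pm_202_a t 7 17 1 = true := ex3_a k11_pm_202_a s27_pm_202_a

theorem s29_pm_202_a : ∃ t, chk3 f_pm_202_a t 3 17 1 = true := ex3_a k10_pm_202_a s28_pm_202_a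

theorem s30_pm_202_a : ∃ t, chk3 f_pm_202_a t 15 16 3 = true := ex3_b k8_pm_202_a k9_pm_202_a

theorem s31_pm_202_a : ∃ t, chk3 f_pm_202_a t 29 16 3 = true := ex3_b k6_pm_202_a k7_pm_202_a

theorem s32_pm_202_a : ∃ t, chk3 f_pm_202_a t 14 16 3 = true := ex3_a k5_pm_202_a s31_pm_202_a

theorem s33_pm_202_a : ∃ t, chk3 f_pm_202_a t 7 16 3 = true := ex3_a s32_pm_202_a s30_pm_202_a

theorem s34_pm_202_a : ∃ t, chk3 f_pm_202_a t 15 16 2 = true := ex3_a k3_pm_202_a k4_pm_202_a

theorem s35_pm_202_a : ∃ t, chk3 f_pm_202_a t 7 16 2 = true := ex3_a k2_pm_202_a s34_pm_202_a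

theorem s36_pm_202_a : ∃ t, chk3 f_pm_202_a t 7 16 1 = true := ex3_c s35_pm_202_a s33_pm_202_a

theorem s37_pm_202_a : ∃ t, chk3 f_pm_202_a t 3 16 1 = true := ex3_a k1_pm_202_a s36_pm_202_a

theorem s38_pm_202_a : ∃ t, chk3 f_pm_202_a t 3 8 1 = true := ex3_b s37_pm_202_a s29_pm_202_a

theorem s39_pm_202_a : ∃ t, chk3 f_pm_202_a t 1 8 1 = true := ex3_a k0_pm_202_a s38_pm_202_a

theorem s40_pm_202_a : ∃ t, chk3 f_pm_202_a t 1 4 1 = true := ex3_b s39_pm_202_a s24_pm_202_a

theorem s41_pm_202_a : ∃ t, chk3 f_pm_202_a t 1 2 1 = true := ex3_b s40_pm_202_a k20_pm_202_a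

theorem s42_pm_202_a : ∃ t, chk3 f_pm_202_a t 1 1 1 = true := ex3_b s41_pm_202_a k21_pm_202_a

theorem c_pm_202_a : CertNX 0 420477299 1073741824 536870912 1046898278 26843546 3 false true false .pp 2 0 2
    ndN1q2a ndN5q2 pcN0 Cut.none Ext.none :=
  certNX1 (fam := false) (s1 := true) (s2 := false) (a := 2) (b := 0) (c := 2) (cn := .pp) (n1 := ndN1q2a) (n2 := ndN5q2) (pc := pcN0) (cut := Cut.none) (xt := Ext.none) (P1 := 0) (W1 := 420477299) (P2 := 1073741824) (W2 := 536870912) (P3 := 1046898278) (W3 := 26843546) (N0 := 3)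
    rfl (fun _ => rfl) s42_pm_202_a

noncomputable def f_pm_202_b : ℕ → ℕ → ℕ → ℕ → Bool := onCell 1239849684 370763052 1073741824 536870912 1046898278 26843546
    (rowNX 3 0 false true false .pp 2 0 2 (qsf 1239849684 370763052 1073741824 536870912 0) ndN1q2b ndN5q2 pcN0 Cut.none Ext.none)

def k0_pm_202_b : ∃ t, chk3 f_pm_202_b t 1 1 1 = true :=
  ⟨(l 3), by decide +kernel⟩

theorem c_pm_202_b : CertNX 1239849684 370763052 1073741824 536870912 1046898278 26843546 3 false true false .pp 2 0 2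
    ndN1q2b ndN5q2 pcN0 Cut.none Ext.none :=
  certNX0 (fam := false) (s1 := true) (s2 := false) (a := 2) (b := 0) (c := 2) (cn := .pp) (n1 := ndN1q2b) (n2 := ndN5q2) (pc := pcN0) (cut := Cut.none) (xt := Ext.none) (P1 := 1239849684) (W1 := 370763052) (P2 := 1073741824) (W2 := 536870912) (P3 := 1046898278) (W3 := 26843546) (N0 := 3)
    rfl k0_pm_202_b

noncomputable def f_pm_203_a : ℕ → ℕ → ℕ → ℕ → Bool := onCell 0 420477299 0 1230186008 1046898278 26843546
    (rowNX 3 0 false true false .up 2 0 3 (qsf 0 420477299 0 1230186008 0) ndN1q2a ndN5q3 pcN0 Cut.none Ext.none)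

def k0_pm_203_a : ∃ t, chk3 f_pm_203_a t 1 1 1 = true :=
  ⟨(b (l 2) (b (l 2) (a (l 3) (a (l 3) (a (l 3) (a (l 3) (b (l 2) (b (l 3) (c (l 162838508311) (l 16269448)))))))))), by decide +kernel⟩

theorem c_pm_203_a : CertNX 0 420477299 0 1230186008 1046898278 26843546 3 false true false .up 2 0 3
    ndN1q2a ndN5q3 pcN0 Cut.none Ext.none :=
  certNX0 (fam := false) (s1 := true) (s2 := false) (a := 2) (b := 0) (c := 3) (cn := .up) (n1 := ndN1q2a) (n2 := ndN5q3) (pc := pcN0) (cut := Cut.none) (xt := Ext.none) (P1 := 0) (W1 := 420477299) (P2 := 0) (W2 := 1230186008) (P3 := 1046898278) (W3 := 26843546) (N0 := 3)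
    rfl k0_pm_203_a

noncomputable def f_pm_203_b : ℕ → ℕ → ℕ → ℕ → Bool := onCell 1239849684 370763052 0 1230186008 1046898278 26843546
    (rowNX 3 0 false true false .up 2 0 3 (qsf 1239849684 370763052 0 1230186008 0) ndN1q2b ndN5q3 pcN0 Cut.none Ext.none)

def k0_pm_203_b : ∃ t, chk3 f_pm_203_b t 1 1 1 = true :=
  ⟨(b (l 3) (l 3)), by decide +kernel⟩

theorem c_pm_203_b : CertNX 1239849684 370763052 0 1230186008 1046898278 26843546 3 false true false .up 2 0 3
    ndN1q2b ndN5q3 pcN0 Cut.none Ext.none :=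
  certNX0 (fam := false) (s1 := true) (s2 := false) (a := 2) (b := 0) (c := 3) (cn := .up) (n1 := ndN1q2b) (n2 := ndN5q3) (pc := pcN0) (cut := Cut.none) (xt := Ext.none) (P1 := 1239849684) (W1 := 370763052) (P2 := 0) (W2 := 1230186008) (P3 := 1046898278) (W3 := 26843546) (N0 := 3)
    rfl k0_pm_203_b

noncomputable def f_pm_213_a : ℕ → ℕ → ℕ → ℕ → Bool := onCell 0 420477299 0 1230186008 1046898278 26843546
    (rowNX 3 0 false true false .pnn 2 1 3 (qsf 0 420477299 0 1230186008 1) ndN1q2a ndN5q3 pcN1 Cut.none Ext.none)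

def k0_pm_213_a : ∃ t, chk3 f_pm_213_a t 1 1 1 = true :=
  ⟨(b (b (l 3) (l 3)) (b (l 3) (a (l 3) (b (l 3) (b (l 3) (b (l 3) (l 1))))))), by decide +kernel⟩

theorem c_pm_213_a : CertNX 0 420477299 0 1230186008 1046898278 26843546 3 false true false .pnn 2 1 3
    ndN1q2a ndN5q3 pcN1 Cut.none Ext.none :=
  certNX0 (fam := false) (s1 := true) (s2 := false) (a := 2) (b := 1) (c := 3) (cn := .pnn) (n1 := ndN1q2a) (n2 := ndN5q3) (pc := pcN1) (cut := Cut.none) (xt := Ext.none) (P1 := 0) (W1 := 420477299) (P2 := 0) (W2 := 1230186008) (P3 := 1046898278) (W3 := 26843546) (N0 := 3)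
    rfl k0_pm_213_a

noncomputable def f_pm_213_b : ℕ → ℕ → ℕ → ℕ → Bool := onCell 1239849684 370763052 0 1230186008 1046898278 26843546
    (rowNX 3 0 false true false .pnn 2 1 3 (qsf 1239849684 370763052 0 1230186008 1) ndN1q2b ndN5q3 pcN1 Cut.none Ext.none)

def k0_pm_213_b : ∃ t, chk3 f_pm_213_b t 1 1 1 = true :=
  ⟨(b (l 3) (l 3)), by decide +kernel⟩

theorem c_pm_213_b : CertNX 1239849684 370763052 0 1230186008 1046898278 26843546 3 false true false .pnn 2 1 3
    ndN1q2b ndN5q3 pcN1 Cut.none Ext.none :=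
  certNX0 (fam := false) (s1 := true) (s2 := false) (a := 2) (b := 1) (c := 3) (cn := .pnn) (n1 := ndN1q2b) (n2 := ndN5q3) (pc := pcN1) (cut := Cut.none) (xt := Ext.none) (P1 := 1239849684) (W1 := 370763052) (P2 := 0) (W2 := 1230186008) (P3 := 1046898278) (W3 := 26843546) (N0 := 3)
    rfl k0_pm_213_b

noncomputable def f_pm_303 : ℕ → ℕ → ℕ → ℕ → Bool := onCell 1610612736 469762048 0 1230186008 1046898278 26843546
    (rowNX 3 0 false true false .npn 3 0 3 (qsf 1610612736 469762048 0 1230186008 0) ndN1q3 ndN5q3 pcN0 Cut.none Ext.none)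

def k0_pm_303 : ∃ t, chk3 f_pm_303 t 1 1 1 = true :=
  ⟨(b (l 3) (l 3)), by decide +kernel⟩

theorem c_pm_303 : CertNX 1610612736 469762048 0 1230186008 1046898278 26843546 3 false true false .npn 3 0 3
    ndN1q3 ndN5q3 pcN0 Cut.none Ext.none :=
  certNX0 (fam := false) (s1 := true) (s2 := false) (a := 3) (b := 0) (c := 3) (cn := .npn) (n1 := ndN1q3) (n2 := ndN5q3) (pc := pcN0) (cut := Cut.none) (xt := Ext.none) (P1 := 1610612736) (W1 := 469762048) (P2 := 0) (W2 := 1230186008) (P3 := 1046898278) (W3 := 26843546) (N0 := 3)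
    rfl k0_pm_303

noncomputable def f_pm_313 : ℕ → ℕ → ℕ → ℕ → Bool := onCell 1610612736 469762048 0 1230186008 1046898278 26843546
    (rowNX 3 0 false true false .dn 3 1 3 (qsf 1610612736 469762048 0 1230186008 1) ndN1q3 ndN5q3 pcN1 Cut.none Ext.none)

def k0_pm_313 : ∃ t, chk3 f_pm_313 t 1 1 1 = true :=
  ⟨(b (l 3) (l 1)), by decide +kernel⟩

theorem c_pm_313 : CertNX 1610612736 469762048 0 1230186008 1046898278 26843546 3 false true false .dn 3 1 3
    ndN1q3 ndN5q3 pcN1 Cut.none Ext.none :=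
  certNX0 (fam := false) (s1 := true) (s2 := false) (a := 3) (b := 1) (c := 3) (cn := .dn) (n1 := ndN1q3) (n2 := ndN5q3) (pc := pcN1) (cut := Cut.none) (xt := Ext.none) (P1 := 1610612736) (W1 := 469762048) (P2 := 0) (W2 := 1230186008) (P3 := 1046898278) (W3 := 26843546) (N0 := 3)
    rfl k0_pm_313

noncomputable def f_mm_001 : ℕ → ℕ → ℕ → ℕ → Bool := onCell 67108864 469762048 536870912 469762048 1046898278 26843546
    (rowNX 3 0 false false false .up 0 0 1 (qsf 67108864 469762048 536870912 469762048 0) ndN1q0 ndN5q1 pcN0 Cut.none Ext.none)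

def k0_mm_001 : ∃ t, chk3 f_mm_001 t 1 1 1 = true :=
  ⟨(l 3), by decide +kernel⟩

theorem c_mm_001 : CertNX 67108864 469762048 536870912 469762048 1046898278 26843546 3 false false false .up 0 0 1
    ndN1q0 ndN5q1 pcN0 Cut.none Ext.none :=
  certNX0 (fam := false) (s1 := false) (s2 := false) (a := 0) (b := 0) (c := 1) (cn := .up) (n1 := ndN1q0) (n2 := ndN5q1) (pc := pcN0) (cut := Cut.none) (xt := Ext.none) (P1 := 67108864) (W1 := 469762048) (P2 := 536870912) (W2 := 469762048) (P3 := 1046898278) (W3 := 26843546) (N0 := 3)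
    rfl k0_mm_001

noncomputable def f_mm_011 : ℕ → ℕ → ℕ → ℕ → Bool := onCell 67108864 469762048 536870912 469762048 1046898278 26843546
    (rowNX 3 0 false false false .pnn 0 1 1 (qsf 67108864 469762048 536870912 469762048 1) ndN1q0 ndN5q1 pcN1 Cut.none Ext.none)

def k0_mm_011 : ∃ t, chk3 f_mm_011 t 1 1 1 = true :=
  ⟨(l 3), by decide +kernel⟩

theorem c_mm_011 : CertNX 67108864 469762048 536870912 469762048 1046898278 26843546 3 false false false .pnn 0 1 1
    ndN1q0 ndN5q1 pcN1 Cut.none Ext.none :=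
  certNX0 (fam := false) (s1 := false) (s2 := false) (a := 0) (b := 1) (c := 1) (cn := .pnn) (n1 := ndN1q0) (n2 := ndN5q1) (pc := pcN1) (cut := Cut.none) (xt := Ext.none) (P1 := 67108864) (W1 := 469762048) (P2 := 536870912) (W2 := 469762048) (P3 := 1046898278) (W3 := 26843546) (N0 := 3)
    rfl k0_mm_011

noncomputable def f_mm_012 : ℕ → ℕ → ℕ → ℕ → Bool := onCell 67108864 469762048 1073741824 536870912 1046898278 26843546
    (rowNX 3 0 false false false .pnp 0 1 2 (qsf 67108864 469762048 1073741824 536870912 1) ndN1q0 ndN5q2 pcN1 Cut.none Ext.none)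

def k0_mm_012 : ∃ t, chk3 f_mm_012 t 1 1 1 = true :=
  ⟨(l 5), by decide +kernel⟩

theorem c_mm_012 : CertNX 67108864 469762048 1073741824 536870912 1046898278 26843546 3 false false false .pnp 0 1 2
    ndN1q0 ndN5q2 pcN1 Cut.none Ext.none :=
  certNX0 (fam := false) (s1 := false) (s2 := false) (a := 0) (b := 1) (c := 2) (cn := .pnp) (n1 := ndN1q0) (n2 := ndN5q2) (pc := pcN1) (cut := Cut.none) (xt := Ext.none) (P1 := 67108864) (W1 := 469762048) (P2 := 1073741824) (W2 := 536870912) (P3 := 1046898278) (W3 := 26843546) (N0 := 3)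
    rfl k0_mm_012

noncomputable def f_mm_022 : ℕ → ℕ → ℕ → ℕ → Bool := onCell 67108864 469762048 1073741824 536870912 1046898278 26843546
    (rowNX 3 0 false false false .pp 0 2 2 (qsf 67108864 469762048 1073741824 536870912 2) ndN1q0 ndN5q2 pcN2 Cut.none Ext.none)

def k0_mm_022 : ∃ t, chk3 f_mm_022 t 1 1 1 = true :=
  ⟨(l 5), by decide +kernel⟩

theorem c_mm_022 : CertNX 67108864 469762048 1073741824 536870912 1046898278 26843546 3 false false false .pp 0 2 2
    ndN1q0 ndN5q2 pcN2 Cut.none Ext.none :=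
  certNX0 (fam := false) (s1 := false) (s2 := false) (a := 0) (b := 2) (c := 2) (cn := .pp) (n1 := ndN1q0) (n2 := ndN5q2) (pc := pcN2) (cut := Cut.none) (xt := Ext.none) (P1 := 67108864) (W1 := 469762048) (P2 := 1073741824) (W2 := 536870912) (P3 := 1046898278) (W3 := 26843546) (N0 := 3)
    rfl k0_mm_022

noncomputable def f_mm_023 : ℕ → ℕ → ℕ → ℕ → Bool := onCell 67108864 469762048 0 1230186008 1046898278 26843546
    (rowNX 3 0 false false false .up 0 2 3 (qsf 67108864 469762048 0 1230186008 2) ndN1q0 ndN5q3 pcN2 Cut.none Ext.none)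

def k0_mm_023 : ∃ t, chk3 f_mm_023 t 1 1 1 = true :=
  ⟨(l 5), by decide +kernel⟩

theorem c_mm_023 : CertNX 67108864 469762048 0 1230186008 1046898278 26843546 3 false false false .up 0 2 3
    ndN1q0 ndN5q3 pcN2 Cut.none Ext.none :=
  certNX0 (fam := false) (s1 := false) (s2 := false) (a := 0) (b := 2) (c := 3) (cn := .up) (n1 := ndN1q0) (n2 := ndN5q3) (pc := pcN2) (cut := Cut.none) (xt := Ext.none) (P1 := 67108864) (W1 := 469762048) (P2 := 0) (W2 := 1230186008) (P3 := 1046898278) (W3 := 26843546) (N0 := 3)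
    rfl k0_mm_023

noncomputable def f_mm_033 : ℕ → ℕ → ℕ → ℕ → Bool := onCell 67108864 469762048 0 1230186008 1046898278 26843546
    (rowNX 3 0 false false false .pnn 0 3 3 (qsf 67108864 469762048 0 1230186008 3) ndN1q0 ndN5q3 pcN3 Cut.none Ext.none)

def k0_mm_033 : ∃ t, chk3 f_mm_033 t 1 1 1 = true :=
  ⟨(l 5), by decide +kernel⟩

theorem c_mm_033 : CertNX 67108864 469762048 0 1230186008 1046898278 26843546 3 false false false .pnn 0 3 3
    ndN1q0 ndN5q3 pcN3 Cut.none Ext.none :=
  certNX0 (fam := false) (s1 := false) (s2 := false) (a := 0) (b := 3) (c := 3) (cn := .pnn) (n1 := ndN1q0) (n2 := ndN5q3) (pc := pcN3) (cut := Cut.none) (xt := Ext.none) (P1 := 67108864) (W1 := 469762048) (P2 := 0) (W2 := 1230186008) (P3 := 1046898278) (W3 := 26843546) (N0 := 3)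
    rfl k0_mm_033

noncomputable def f_mm_101 : ℕ → ℕ → ℕ → ℕ → Bool := onCell 536870912 536870912 536870912 469762048 1046898278 26843546
    (rowNX 3 0 false false false .npn 1 0 1 (qsf 536870912 536870912 536870912 469762048 0) ndN1q1 ndN5q1 pcN0 Cut.none Ext.none)

def k0_mm_101 : ∃ t, chk3 f_mm_101 t 1 1 1 = true :=
  ⟨(l 3), by decide +kernel⟩

theorem c_mm_101 : CertNX 536870912 536870912 536870912 469762048 1046898278 26843546 3 false false false .npn 1 0 1
    ndN1q1 ndN5q1 pcN0 Cut.none Ext.none :=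
  certNX0 (fam := false) (s1 := false) (s2 := false) (a := 1) (b := 0) (c := 1) (cn := .npn) (n1 := ndN1q1) (n2 := ndN5q1) (pc := pcN0) (cut := Cut.none) (xt := Ext.none) (P1 := 536870912) (W1 := 536870912) (P2 := 536870912) (W2 := 469762048) (P3 := 1046898278) (W3 := 26843546) (N0 := 3)
    rfl k0_mm_101

noncomputable def f_mm_102 : ℕ → ℕ → ℕ → ℕ → Bool := onCell 536870912 536870912 0 536870912 1046898278 26843546
    (rowNX 3 1 false false false .npp 1 0 2 (qsf 536870912 536870912 1073741824 536870912 0) ndN1q1 ndN5q2 pcN0 Cut.none Ext.none)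

def k0_mm_102 : ∃ t, chk3 f_mm_102 t 1 1 1 = true :=
  ⟨(l 3), by decide +kernel⟩

theorem c_mm_102 : CertNX 536870912 536870912 1073741824 536870912 1046898278 26843546 3 false false false .npp 1 0 2
    ndN1q1 ndN5q2 pcN0 Cut.none Ext.none :=
  certNX1 (fam := false) (s1 := false) (s2 := false) (a := 1) (b := 0) (c := 2) (cn := .npp) (n1 := ndN1q1) (n2 := ndN5q2) (pc := pcN0) (cut := Cut.none) (xt := Ext.none) (P1 := 536870912) (W1 := 536870912) (P2 := 1073741824) (W2 := 536870912) (P3 := 1046898278) (W3 := 26843546) (N0 := 3)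
    rfl (fun _ => rfl) k0_mm_102

noncomputable def f_mm_112 : ℕ → ℕ → ℕ → ℕ → Bool := onCell 536870912 536870912 536870912 536870912 1046898278 26843546
    (rowNX 3 1 false false false .dn 1 1 2 (qsf 536870912 536870912 1073741824 536870912 1) ndN1q1 ndN5q2 pcN1 Cut.none Ext.none)

def k0_mm_112 : ∃ t, chk3 f_mm_112 t 1 1 1 = true :=
  ⟨(l 5), by decide +kernel⟩

theorem c_mm_112 : CertNX 536870912 536870912 1073741824 536870912 1046898278 26843546 3 false false false .dn 1 1 2
    ndN1q1 ndN5q2 pcN1 Cut.none Ext.none :=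
  certNX1 (fam := false) (s1 := false) (s2 := false) (a := 1) (b := 1) (c := 2) (cn := .dn) (n1 := ndN1q1) (n2 := ndN5q2) (pc := pcN1) (cut := Cut.none) (xt := Ext.none) (P1 := 536870912) (W1 := 536870912) (P2 := 1073741824) (W2 := 536870912) (P3 := 1046898278) (W3 := 26843546) (N0 := 3)
    rfl (fun _ => rfl) k0_mm_112

noncomputable def f_mm_113 : ℕ → ℕ → ℕ → ℕ → Bool := onCell 536870912 536870912 0 1230186008 1046898278 26843546
    (rowNX 3 0 false false false .nn 1 1 3 (qsf 536870912 536870912 0 1230186008 1) ndN1q1 ndN5q3 pcN1 Cut.none Ext.none)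

def k0_mm_113 : ∃ t, chk3 f_mm_113 t 1 1 1 = true :=
  ⟨(l 5), by decide +kernel⟩

theorem c_mm_113 : CertNX 536870912 536870912 0 1230186008 1046898278 26843546 3 false false false .nn 1 1 3
    ndN1q1 ndN5q3 pcN1 Cut.none Ext.none :=
  certNX0 (fam := false) (s1 := false) (s2 := false) (a := 1) (b := 1) (c := 3) (cn := .nn) (n1 := ndN1q1) (n2 := ndN5q3) (pc := pcN1) (cut := Cut.none) (xt := Ext.none) (P1 := 536870912) (W1 := 536870912) (P2 := 0) (W2 := 1230186008) (P3 := 1046898278) (W3 := 26843546) (N0 := 3)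
    rfl k0_mm_113

noncomputable def f_mm_123 : ℕ → ℕ → ℕ → ℕ → Bool := onCell 536870912 536870912 0 1230186008 1046898278 26843546
    (rowNX 3 0 false false false .npn 1 2 3 (qsf 536870912 536870912 0 1230186008 2) ndN1q1 ndN5q3 pcN2 Cut.none Ext.none)

def k0_mm_123 : ∃ t, chk3 f_mm_123 t 1 1 1 = true :=
  ⟨(l 5), by decide +kernel⟩

theorem c_mm_123 : CertNX 536870912 536870912 0 1230186008 1046898278 26843546 3 false false false .npn 1 2 3
    ndN1q1 ndN5q3 pcN2 Cut.none Ext.none :=
  certNX0 (fam := false) (s1 := false) (s2 := false) (a := 1) (b := 2) (c := 3) (cn := .npn) (n1 := ndN1q1) (n2 := ndN5q3) (pc := pcN2) (cut := Cut.none) (xt := Ext.none) (P1 := 536870912) (W1 := 536870912) (P2 := 0) (W2 := 1230186008) (P3 := 1046898278) (W3 := 26843546) (N0 := 3)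
    rfl k0_mm_123

noncomputable def f_mm_133 : ℕ → ℕ → ℕ → ℕ → Bool := onCell 536870912 536870912 0 1230186008 1046898278 26843546
    (rowNX 3 0 false false false .dn 1 3 3 (qsf 536870912 536870912 0 1230186008 3) ndN1q1 ndN5q3 pcN3 Cut.none Ext.none)

def k0_mm_133 : ∃ t, chk3 f_mm_133 t 1 1 1 = true :=
  ⟨(l 5), by decide +kernel⟩

theorem c_mm_133 : CertNX 536870912 536870912 0 1230186008 1046898278 26843546 3 false false false .dn 1 3 3
    ndN1q1 ndN5q3 pcN3 Cut.none Ext.none :=
  certNX0 (fam := false) (s1 := false) (s2 := false) (a := 1) (b := 3) (c := 3) (cn := .dn) (n1 := ndN1q1) (n2 := ndN5q3) (pc := pcN3) (cut := Cut.none) (xt := Ext.none) (P1 := 536870912) (W1 := 536870912) (P2 := 0) (W2 := 1230186008) (P3 := 1046898278) (W3 := 26843546) (N0 := 3)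
    rfl k0_mm_133

noncomputable def f_mm_202_a : ℕ → ℕ → ℕ → ℕ → Bool := onCell 0 420477299 1073741824 536870912 1046898278 26843546
    (rowNX 3 0 false false false .pp 2 0 2 (qsf 0 420477299 1073741824 536870912 0) ndN1q2a ndN5q2 pcN0 Cut.none Ext.none)

def k0_mm_202_a : ∃ t, chk3 f_mm_202_a t 1 1 1 = true :=
  ⟨(l 3), by decide +kernel⟩

theorem c_mm_202_a : CertNX 0 420477299 1073741824 536870912 1046898278 26843546 3 false false false .pp 2 0 2
    ndN1q2a ndN5q2 pcN0 Cut.none Ext.none :=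
  certNX0 (fam := false) (s1 := false) (s2 := false) (a := 2) (b := 0) (c := 2) (cn := .pp) (n1 := ndN1q2a) (n2 := ndN5q2) (pc := pcN0) (cut := Cut.none) (xt := Ext.none) (P1 := 0) (W1 := 420477299) (P2 := 1073741824) (W2 := 536870912) (P3 := 1046898278) (W3 := 26843546) (N0 := 3)
    rfl k0_mm_202_a

noncomputable def f_mm_202_b : ℕ → ℕ → ℕ → ℕ → Bool := onCell 1239849684 370763052 1073741824 536870912 1046898278 26843546
    (rowNX 3 0 false false false .pp 2 0 2 (qsf 1239849684 370763052 1073741824 536870912 0) ndN1q2b ndN5q2 pcN0 Cut.none Ext.none)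

def k0_mm_202_b : ∃ t, chk3 f_mm_202_b t 1 1 1 = true :=
  ⟨(l 3), by decide +kernel⟩

theorem c_mm_202_b : CertNX 1239849684 370763052 1073741824 536870912 1046898278 26843546 3 false false false .pp 2 0 2
    ndN1q2b ndN5q2 pcN0 Cut.none Ext.none :=
  certNX0 (fam := false) (s1 := false) (s2 := false) (a := 2) (b := 0) (c := 2) (cn := .pp) (n1 := ndN1q2b) (n2 := ndN5q2) (pc := pcN0) (cut := Cut.none) (xt := Ext.none) (P1 := 1239849684) (W1 := 370763052) (P2 := 1073741824) (W2 := 536870912) (P3 := 1046898278) (W3 := 26843546) (N0 := 3)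
    rfl k0_mm_202_b

noncomputable def f_mm_203_a : ℕ → ℕ → ℕ → ℕ → Bool := onCell 0 420477299 0 1230186008 1046898278 26843546
    (rowNX 3 0 false false false .up 2 0 3 (qsf 0 420477299 0 1230186008 0) ndN1q2a ndN5q3 pcN0 Cut.none Ext.none)

def k0_mm_203_a : ∃ t, chk3 f_mm_203_a t 1 1 1 = true :=
  ⟨(b (l 2) (l 3)), by decide +kernel⟩

theorem c_mm_203_a : CertNX 0 420477299 0 1230186008 1046898278 26843546 3 false false false .up 2 0 3
    ndN1q2a ndN5q3 pcN0 Cut.none Ext.none :=
  certNX0 (fam := false) (s1 := false) (s2 := false) (a := 2) (b := 0) (c := 3) (cn := .up) (n1 := ndN1q2a) (n2 := ndN5q3) (pc := pcN0) (cut := Cut.none) (xt := Ext.none) (P1 := 0) (W1 := 420477299) (P2 := 0) (W2 := 1230186008) (P3 := 1046898278) (W3 := 26843546) (N0 := 3)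
    rfl k0_mm_203_a

noncomputable def f_mm_203_b : ℕ → ℕ → ℕ → ℕ → Bool := onCell 1239849684 370763052 0 1230186008 1046898278 26843546
    (rowNX 3 0 false false false .up 2 0 3 (qsf 1239849684 370763052 0 1230186008 0) ndN1q2b ndN5q3 pcN0 Cut.none Ext.none)

def k0_mm_203_b : ∃ t, chk3 f_mm_203_b t 1 1 1 = true :=
  ⟨(b (l 3) (l 3)), by decide +kernel⟩

theorem c_mm_203_b : CertNX 1239849684 370763052 0 1230186008 1046898278 26843546 3 false false false .up 2 0 3
    ndN1q2b ndN5q3 pcN0 Cut.none Ext.none :=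
  certNX0 (fam := false) (s1 := false) (s2 := false) (a := 2) (b := 0) (c := 3) (cn := .up) (n1 := ndN1q2b) (n2 := ndN5q3) (pc := pcN0) (cut := Cut.none) (xt := Ext.none) (P1 := 1239849684) (W1 := 370763052) (P2 := 0) (W2 := 1230186008) (P3 := 1046898278) (W3 := 26843546) (N0 := 3)
    rfl k0_mm_203_b

noncomputable def f_mm_213_a : ℕ → ℕ → ℕ → ℕ → Bool := onCell 0 420477299 0 1230186008 1046898278 26843546
    (rowNX 3 0 false false false .pnn 2 1 3 (qsf 0 420477299 0 1230186008 1) ndN1q2a ndN5q3 pcN1 Cut.none Ext.none)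

def k0_mm_213_a : ∃ t, chk3 f_mm_213_a t 1 1 1 = true :=
  ⟨(b (l 3) (l 3)), by decide +kernel⟩

theorem c_mm_213_a : CertNX 0 420477299 0 1230186008 1046898278 26843546 3 false false false .pnn 2 1 3
    ndN1q2a ndN5q3 pcN1 Cut.none Ext.none :=
  certNX0 (fam := false) (s1 := false) (s2 := false) (a := 2) (b := 1) (c := 3) (cn := .pnn) (n1 := ndN1q2a) (n2 := ndN5q3) (pc := pcN1) (cut := Cut.none) (xt := Ext.none) (P1 := 0) (W1 := 420477299) (P2 := 0) (W2 := 1230186008) (P3 := 1046898278) (W3 := 26843546) (N0 := 3)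
    rfl k0_mm_213_a

noncomputable def f_mm_213_b : ℕ → ℕ → ℕ → ℕ → Bool := onCell 1239849684 370763052 0 1230186008 1046898278 26843546
    (rowNX 3 0 false false false .pnn 2 1 3 (qsf 1239849684 370763052 0 1230186008 1) ndN1q2b ndN5q3 pcN1 Cut.none Ext.none)

def k0_mm_213_b : ∃ t, chk3 f_mm_213_b t 1 1 1 = true :=
  ⟨(b (l 3) (l 3)), by decide +kernel⟩

theorem c_mm_213_b : CertNX 1239849684 370763052 0 1230186008 1046898278 26843546 3 false false false .pnn 2 1 3
    ndN1q2b ndN5q3 pcN1 Cut.none Ext.none :=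
  certNX0 (fam := false) (s1 := false) (s2 := false) (a := 2) (b := 1) (c := 3) (cn := .pnn) (n1 := ndN1q2b) (n2 := ndN5q3) (pc := pcN1) (cut := Cut.none) (xt := Ext.none) (P1 := 1239849684) (W1 := 370763052) (P2 := 0) (W2 := 1230186008) (P3 := 1046898278) (W3 := 26843546) (N0 := 3)
    rfl k0_mm_213_b

noncomputable def f_mm_303 : ℕ → ℕ → ℕ → ℕ → Bool := onCell 1610612736 469762048 0 1230186008 1046898278 26843546
    (rowNX 3 0 false false false .npn 3 0 3 (qsf 1610612736 469762048 0 1230186008 0) ndN1q3 ndN5q3 pcN0 Cut.none Ext.none)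

def k0_mm_303 : ∃ t, chk3 f_mm_303 t 1 1 1 = true :=
  ⟨(b (l 3) (l 3)), by decide +kernel⟩

theorem c_mm_303 : CertNX 1610612736 469762048 0 1230186008 1046898278 26843546 3 false false false .npn 3 0 3
    ndN1q3 ndN5q3 pcN0 Cut.none Ext.none :=
  certNX0 (fam := false) (s1 := false) (s2 := false) (a := 3) (b := 0) (c := 3) (cn := .npn) (n1 := ndN1q3) (n2 := ndN5q3) (pc := pcN0) (cut := Cut.none) (xt := Ext.none) (P1 := 1610612736) (W1 := 469762048) (P2 := 0) (W2 := 1230186008) (P3 := 1046898278) (W3 := 26843546) (N0 := 3)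
    rfl k0_mm_303

noncomputable def f_mm_313 : ℕ → ℕ → ℕ → ℕ → Bool := onCell 1610612736 469762048 0 1230186008 1046898278 26843546
    (rowNX 3 0 false false false .dn 3 1 3 (qsf 1610612736 469762048 0 1230186008 1) ndN1q3 ndN5q3 pcN1 Cut.none Ext.none)

def k0_mm_313 : ∃ t, chk3 f_mm_313 t 1 1 1 = true :=
  ⟨(b (l 3) (l 1)), by decide +kernel⟩

theorem c_mm_313 : CertNX 1610612736 469762048 0 1230186008 1046898278 26843546 3 false false false .dn 3 1 3
    ndN1q3 ndN5q3 pcN1 Cut.none Ext.none :=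
  certNX0 (fam := false) (s1 := false) (s2 := false) (a := 3) (b := 1) (c := 3) (cn := .dn) (n1 := ndN1q3) (n2 := ndN5q3) (pc := pcN1) (cut := Cut.none) (xt := Ext.none) (P1 := 1610612736) (W1 := 469762048) (P2 := 0) (W2 := 1230186008) (P3 := 1046898278) (W3 := 26843546) (N0 := 3)
    rfl k0_mm_313

end Pool.Agent.Strip051.G.IE1.Tab.C.NB15

namespace Pool.Agent.Strip051.G.IE1.Tab.C.NB16

open Pool.Agent.Strip051.PB Pool.Agent.Strip051.PB.T
open Pool.Agent.Strip051.G.IE1.Tab

noncomputable def f_pp_001 : ℕ → ℕ → ℕ → ℕ → Bool := onCell 67108864 469762048 536870912 469762048 1046898278 26843546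
    (rowNX 3 0 false true true .up 0 0 1 (qsf 67108864 469762048 536870912 469762048 0) ndN1q0 ndN6q1 pcN0 Cut.none Ext.none)

def k0_pp_001 : ∃ t, chk3 f_pp_001 t 1 1 1 = true :=
  ⟨(l 3), by decide +kernel⟩

theorem c_pp_001 : CertNX 67108864 469762048 536870912 469762048 1046898278 26843546 3 false true true .up 0 0 1
    ndN1q0 ndN6q1 pcN0 Cut.none Ext.none :=
  certNX0 (fam := false) (s1 := true) (s2 := true) (a := 0) (b := 0) (c := 1) (cn := .up) (n1 := ndN1q0) (n2 := ndN6q1) (pc := pcN0) (cut := Cut.none) (xt := Ext.none) (P1 := 67108864) (W1 := 469762048) (P2 := 536870912) (W2 := 469762048) (P3 := 1046898278) (W3 := 26843546) (N0 := 3)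
    rfl k0_pp_001

noncomputable def f_pp_011 : ℕ → ℕ → ℕ → ℕ → Bool := onCell 67108864 469762048 536870912 469762048 1046898278 26843546
    (rowNX 3 0 false true true .pnn 0 1 1 (qsf 67108864 469762048 536870912 469762048 1) ndN1q0 ndN6q1 pcN1 Cut.none Ext.none)

def k0_pp_011 : ∃ t, chk3 f_pp_011 t 1 1 1 = true :=
  ⟨(l 3), by decide +kernel⟩

theorem c_pp_011 : CertNX 67108864 469762048 536870912 469762048 1046898278 26843546 3 false true true .pnn 0 1 1
    ndN1q0 ndN6q1 pcN1 Cut.none Ext.none :=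
  certNX0 (fam := false) (s1 := true) (s2 := true) (a := 0) (b := 1) (c := 1) (cn := .pnn) (n1 := ndN1q0) (n2 := ndN6q1) (pc := pcN1) (cut := Cut.none) (xt := Ext.none) (P1 := 67108864) (W1 := 469762048) (P2 := 536870912) (W2 := 469762048) (P3 := 1046898278) (W3 := 26843546) (N0 := 3)
    rfl k0_pp_011

noncomputable def f_pp_012 : ℕ → ℕ → ℕ → ℕ → Bool := onCell 67108864 469762048 536870912 536870912 1046898278 26843546
    (rowNX 3 1 false true true .pnp 0 1 2 (qsf 67108864 469762048 1073741824 536870912 1) ndN1q0 ndN6q2 pcN1 Cut.none Ext.none)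

def k0_pp_012 : ∃ t, chk3 f_pp_012 t 1 1 1 = true :=
  ⟨(l 3), by decide +kernel⟩

theorem c_pp_012 : CertNX 67108864 469762048 1073741824 536870912 1046898278 26843546 3 false true true .pnp 0 1 2
    ndN1q0 ndN6q2 pcN1 Cut.none Ext.none :=
  certNX1 (fam := false) (s1 := true) (s2 := true) (a := 0) (b := 1) (c := 2) (cn := .pnp) (n1 := ndN1q0) (n2 := ndN6q2) (pc := pcN1) (cut := Cut.none) (xt := Ext.none) (P1 := 67108864) (W1 := 469762048) (P2 := 1073741824) (W2 := 536870912) (P3 := 1046898278) (W3 := 26843546) (N0 := 3)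
    rfl (fun _ => rfl) k0_pp_012

noncomputable def f_pp_022 : ℕ → ℕ → ℕ → ℕ → Bool := onCell 67108864 469762048 1073741824 536870912 1046898278 26843546
    (rowNX 3 1 false true true .pp 0 2 2 (qsf 67108864 469762048 1073741824 536870912 2) ndN1q0 ndN6q2 pcN2 Cut.none Ext.none)

def k0_pp_022 : ∃ t, chk3 f_pp_022 t 1 4 1 = true :=
  ⟨(b (l 3) (a (l 3) (a (l 3) (a (l 3) (l 2))))), by decide +kernel⟩

def k1_pp_022 : ∃ t, chk3 f_pp_022 t 2 40 1 = true :=
  ⟨(l 3), by decide +kernel⟩

def k2_pp_022 : ∃ t, chk3 f_pp_022 t 4 41 1 = true :=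
  ⟨(b (l 3) (b (a (l 3) (a (l 3) (c (l 3353998526023) (l 15928968)))) (b (a (a (l 3) (a (l 3) (c (l 7538906607639) (l 6822720722839)))) (b (a (l 15744944) (l 16025840)) (c (a (l 15762712) (l 16038768)) (l 1117393721223)))) (b (b (b (a (a (l 3) (c (a (l 15399104) (l 15576856)) (l 15443280))) (c (l 15902600) (l 15871904))) (b (a (a (a (l 3) (c (l 15089272) (l 15029984))) (c (l 15341720) (l 15443280))) (c (l 15902600) (l 15871904))) (a (a (c (a (a (a (l 14671152) (l 14725544)) (l 14847736)) (l 15089272)) (a (a (l 14625592) (l 14779960)) (l 15029984))) (c (a (l 15399104) (l 15576856)) (l 15338424))) (c (a (l 15762712) (l 16038768)) (a (l 15727104) (l 16012856)))))) (a (a (a (c (a (l 14696816) (l 14847736)) (l 14694464)) (c (l 15089272) (l 15029984))) (c (l 15488520) (l 15443280))) (l 15887280))) (a (a (c (a (l 14640936) (l 15089272)) (l 14681144)) (c (l 15488520) (l 15443280))) (l 15887280)))))), by decide +kernel⟩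

def k3_pp_022 : ∃ t, chk3 f_pp_022 t 5 41 1 = true :=
  ⟨(b (a (l 3) (b (l 3) (c (l 16777152) (l 16777152)))) (b (a (a (b (l 3) (l 977271671143)) (c (l 684140827079) (l 740512261367))) (b (c (l 16777120) (l 16777112)) (c (l 16777120) (l 16777120)))) (a (b (a (b (l 16369800) (c (l 16376816) (l 16362760))) (b (l 16581992) (c (l 16688416) (l 16685296)))) (a (b (b (b (l 16369808) (b (l 16369808) (c (l 16376816) (l 16362768)))) (l 16369808)) (l 16369808)) (b (b (b (l 16582008) (b (l 16582008) (c (a (l 16619072) (l 16755520)) (a (l 16613520) (l 16712800))))) (l 16685712)) (l 16685592)))) (b (a (b (l 16777168) (c (l 16775656) (l 16775600))) (b (l 16776552) (c (l 16767232) (l 16766880)))) (a (b (b (b (l 16772952) (a (b (l 16773488) (c (l 16765880) (l 16765480))) (l 16755736))) (l 16752056)) (l 16751536)) (l 16738208)))))), by decide +kernel⟩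

def k4_pp_022 : ∃ t, chk3 f_pp_022 t 2 21 1 = true :=
  ⟨(a (a (a (c (a (a (l 14685160) (l 14847736)) (l 15089272)) (a (l 14688400) (l 15029984))) (c (l 15425608) (l 15443280))) (l 15761456)) (a (a (l 16368584) (l 16640624)) (l 16733120))), by decide +kernel⟩

def k5_pp_022 : ∃ t, chk3 f_pp_022 t 2 11 1 = true :=
  ⟨(a (a (a (c (a (l 14762712) (l 15089272)) (l 14846768)) (c (l 15488520) (l 15443280))) (b (l 15697864) (l 15866312))) (a (a (l 16202280) (l 16641168)) (l 16762728))), by decide +kernel⟩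

def k6_pp_022 : ∃ t, chk3 f_pp_022 t 3 5 1 = true :=
  ⟨(a (b (b (b (a (b (l 3) (b (l 3) (l 1172156972375))) (b (l 3) (b (l 16777080) (l 388325440759)))) (b (a (b (c (l 16777064) (l 16777064)) (c (l 16776952) (l 16776944))) (a (b (l 16776768) (c (l 16772376) (l 16772200))) (l 2))) (b (b (c (a (l 16773992) (l 16741536)) (a (l 16773880) (l 16740288))) (a (c (a (l 16773760) (l 16761816)) (l 16763400)) (l 16702816))) (b (a (a (b (c (l 16766368) (l 16765992)) (b (l 16750112) (l 16733096))) (l 16715200)) (l 16659056)) (l 16657992))))) (l 16663632)) (b (l 16728008) (l 16777136))) (l 2)), by decide +kernel⟩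

def k7_pp_022 : ∃ t, chk3 f_pp_022 t 1 3 1 = true :=
  ⟨(a (a (a (b (a (b (c (l 14668912) (l 14846768)) (c (l 14920576) (l 14846768))) (c (b (l 15488520) (l 15488520)) (l 15443280))) (a (a (l 14727736) (l 15059712)) (a (l 15374968) (l 15555832)))) (b (b (l 15887280) (l 15887280)) (l 15887280))) (b (a (a (l 16369808) (l 16686864)) (b (l 16777216) (l 2))) (l 2))) (l 2)), by decide +kernel⟩

theorem s8_pp_022 : ∃ t, chk3 f_pp_022 t 2 41 1 = true := ex3_a k2_pp_022 k3_pp_022

theorem s9_pp_022 : ∃ t, chk3 f_pp_022 t 2 20 1 = true := ex3_b k1_pp_022 s8_pp_022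

theorem s10_pp_022 : ∃ t, chk3 f_pp_022 t 2 10 1 = true := ex3_b s9_pp_022 k4_pp_022

theorem s11_pp_022 : ∃ t, chk3 f_pp_022 t 2 5 1 = true := ex3_b s10_pp_022 k5_pp_022

theorem s12_pp_022 : ∃ t, chk3 f_pp_022 t 1 5 1 = true := ex3_a s11_pp_022 k6_pp_022

theorem s13_pp_022 : ∃ t, chk3 f_pp_022 t 1 2 1 = true := ex3_b k0_pp_022 s12_pp_022

theorem s14_pp_022 : ∃ t, chk3 f_pp_022 t 1 1 1 = true := ex3_b s13_pp_022 k7_pp_022

theorem c_pp_022 : CertNX 67108864 469762048 1073741824 536870912 1046898278 26843546 3 false true true .pp 0 2 2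
    ndN1q0 ndN6q2 pcN2 Cut.none Ext.none :=
  certNX1 (fam := false) (s1 := true) (s2 := true) (a := 0) (b := 2) (c := 2) (cn := .pp) (n1 := ndN1q0) (n2 := ndN6q2) (pc := pcN2) (cut := Cut.none) (xt := Ext.none) (P1 := 67108864) (W1 := 469762048) (P2 := 1073741824) (W2 := 536870912) (P3 := 1046898278) (W3 := 26843546) (N0 := 3)
    rfl (fun _ => rfl) s14_pp_022

noncomputable def f_pp_023 : ℕ → ℕ → ℕ → ℕ → Bool := onCell 1073741824 536870912 0 1230186008 1046898278 26843546
    (rowNX 3 2 false true true .up 0 2 3 (qsf 67108864 469762048 0 1230186008 2) ndN1q0 ndN6q3 pcN2 Cut.none Ext.none)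

def k0_pp_023 : ∃ t, chk3 f_pp_023 t 2 1 1 = true :=
  ⟨(b (l 2) (a (b (l 2) (b (l 2) (a (l 3) (a (l 3) (a (l 3) (c (a (l 913385195927) (l 903721519287)) (a (l 934323145079) (l 925733213591)))))))) (b (a (l 2) (a (l 2) (b (l 2) (l 16777144)))) (a (a (b (b (l 2) (a (a (c (l 647029980903) (l 16725432)) (l 16642136)) (a (l 16541872) (a (l 16466952) (b (l 2) (a (l 16472088) (l 16470592))))))) (a (c (a (b (a (l 16775616) (l 16767504)) (l 961703567751)) (b (a (l 16757152) (l 16734776)) (c (l 769503798983) (l 768430057287)))) (a (b (a (l 16775560) (l 16767168)) (l 999284531335)) (b (a (l 16756448) (l 16733288)) (a (l 16776160) (l 16773384))))) (a (a (b (l 16686760) (b (c (l 16762112) (l 16761576)) (l 16776512))) (b (l 16631576) (c (b (l 16723840) (l 16762536)) (b (l 16721968) (l 16762016))))) (a (a (b (l 16587016) (c (l 16706272) (l 16703776))) (l 16617280)) (a (l 16587072) (b (l 16524416) (l 16605984))))))) (b (b (l 16674848) (l 16521856)) (l 16592424))) (b (a (b (l 16755592) (l 16710552))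 (l 16777168)) (a (l 16719824) (l 16777136))))))), by decide +kernel⟩

def k1_pp_023 : ∃ t, chk3 f_pp_023 t 3 1 1 = true :=
  ⟨(a (b (l 2) (b (a (c (l 16777176) (l 16777168)) (b (l 16777152) (l 16777200))) (b (l 16777216) (b (a (l 16777216) (l 16748064)) (a (l 16691880) (b (l 16565320) (a (l 16419576) (l 16047256)))))))) (b (b (b (l 16721712) (l 16702872)) (l 16740592)) (b (b (l 16777152) (l 16777200)) (b (a (l 16755600) (b (l 16722960) (b (l 16541776) (l 16199872)))) (b (a (b (l 16578544) (l 16280392)) (b (l 15937856) (a (l 15761088) (c (l 15385760) (l 15336904))))) (a (a (c (l 15704640) (l 15758232)) (b (l 15595672) (b (l 15450928) (a (l 15311912) (l 14962288))))) (b (a (c (l 15359528) (l 15309752)) (c (b (a (l 15116832) (l 14794536)) (a (l 14771936) (l 130488015095))) (l 14683568))) (b (a (a (l 15021288) (c (l 14741168) (l 14645304))) (a (a (l 14436808) (l 1)) (l 1))) (a (c (a (l 14661136) (c (l 14496112) (l 14470392))) (l 14510288)) (l 1)))))))))), by decide +kernel⟩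

theorem s2_pp_023 : ∃ t, chk3 f_pp_023 t 1 1 1 = true := ex3_a k0_pp_023 k1_pp_023

theorem c_pp_023 : CertNX 67108864 469762048 0 1230186008 1046898278 26843546 3 false true true .up 0 2 3
    ndN1q0 ndN6q3 pcN2 Cut.none Ext.none :=
  certNX2 (fam := false) (s1 := true) (s2 := true) (a := 0) (b := 2) (c := 3) (cn := .up) (n1 := ndN1q0) (n2 := ndN6q3) (pc := pcN2) (cut := Cut.none) (xt := Ext.none) (P1 := 67108864) (W1 := 469762048) (P2 := 0) (W2 := 1230186008) (P3 := 1046898278) (W3 := 26843546) (N0 := 3)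
    rfl (fun _ => rfl) s2_pp_023

noncomputable def f_pp_033 : ℕ → ℕ → ℕ → ℕ → Bool := onCell 67108864 469762048 0 1230186008 1046898278 26843546
    (rowNX 3 0 false true true .pnn 0 3 3 (qsf 67108864 469762048 0 1230186008 3) ndN1q0 ndN6q3 pcN3 Cut.none Ext.none)

def k0_pp_033 : ∃ t, chk3 f_pp_033 t 1 1 1 = true :=
  ⟨(b (a (b (a (l 4) (b (l 4) (a (l 154852595591) (l 16702872)))) (a (a (b (l 4) (c (a (a (l 14748864) (l 15075160)) (l 15474016)) (a (b (l 14815888) (l 14841056)) (l 15423416)))) (b (c (l 15881336) (l 15825592)) (b (l 15859808) (l 15882088)))) (a (b (c (l 16504016) (l 16476192)) (b (l 16501136) (l 16525520))) (b (b (l 16738240) (l 16738680)) (l 16755512))))) (b (a (c (b (l 16725144) (l 16707792)) (b (l 16722840) (l 16694888))) (b (l 16721712) (l 16702872))) (b (a (a (l 16728152) (l 16728152)) (l 16728152)) (a (b (l 16742256) (l 16771008)) (l 16755512))))) (a (b (a (b (a (b (a (l 14888376) (l 15465904)) (a (l 14888344) (l 15465880))) (b (l 15887240) (l 15887208)))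 (a (a (l 14699664) (l 15382048)) (l 15887264))) (a (b (l 16530824) (l 16530872)) (b (l 16777152) (l 16777200)))) (a (a (b (a (b (l 14888424) (l 14888424)) (c (l 15488520) (l 15443280))) (a (b (l 14888424) (l 14888424)) (b (l 15465952) (l 1)))) (b (b (l 15887280) (l 15887280)) (l 15887280))) (b (a (l 16509920) (l 16777216)) (l 1)))) (b (b (a (l 16777152) (l 1)) (a (l 16777200) (l 1))) (l 1)))), by decide +kernel⟩

theorem c_pp_033 : CertNX 67108864 469762048 0 1230186008 1046898278 26843546 3 false true true .pnn 0 3 3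
    ndN1q0 ndN6q3 pcN3 Cut.none Ext.none :=
  certNX0 (fam := false) (s1 := true) (s2 := true) (a := 0) (b := 3) (c := 3) (cn := .pnn) (n1 := ndN1q0) (n2 := ndN6q3) (pc := pcN3) (cut := Cut.none) (xt := Ext.none) (P1 := 67108864) (W1 := 469762048) (P2 := 0) (W2 := 1230186008) (P3 := 1046898278) (W3 := 26843546) (N0 := 3)
    rfl k0_pp_033

noncomputable def f_pp_101 : ℕ → ℕ → ℕ → ℕ → Bool := onCell 536870912 536870912 0 536870912 1046898278 26843546
    (rowNX 3 1 false true true .npn 1 0 1 (qsf 536870912 536870912 536870912 469762048 0) ndN1q1 ndN6q1 pcN0 Cut.none Ext.none)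

def k0_pp_101 : ∃ t, chk3 f_pp_101 t 1 1 1 = true :=
  ⟨(l 3), by decide +kernel⟩

theorem c_pp_101 : CertNX 536870912 536870912 536870912 469762048 1046898278 26843546 3 false true true .npn 1 0 1
    ndN1q1 ndN6q1 pcN0 Cut.none Ext.none :=
  certNX1 (fam := false) (s1 := true) (s2 := true) (a := 1) (b := 0) (c := 1) (cn := .npn) (n1 := ndN1q1) (n2 := ndN6q1) (pc := pcN0) (cut := Cut.none) (xt := Ext.none) (P1 := 536870912) (W1 := 536870912) (P2 := 536870912) (W2 := 469762048) (P3 := 1046898278) (W3 := 26843546) (N0 := 3)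
    rfl (fun _ => rfl) k0_pp_101

noncomputable def f_pp_102 : ℕ → ℕ → ℕ → ℕ → Bool := onCell 536870912 536870912 1073741824 536870912 1046898278 26843546
    (rowNX 3 0 false true true .npp 1 0 2 (qsf 536870912 536870912 1073741824 536870912 0) ndN1q1 ndN6q2 pcN0 Cut.none Ext.none)

def k0_pp_102 : ∃ t, chk3 f_pp_102 t 1 1 1 = true :=
  ⟨(l 3), by decide +kernel⟩

theorem c_pp_102 : CertNX 536870912 536870912 1073741824 536870912 1046898278 26843546 3 false true true .npp 1 0 2
    ndN1q1 ndN6q2 pcN0 Cut.none Ext.none :=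
  certNX0 (fam := false) (s1 := true) (s2 := true) (a := 1) (b := 0) (c := 2) (cn := .npp) (n1 := ndN1q1) (n2 := ndN6q2) (pc := pcN0) (cut := Cut.none) (xt := Ext.none) (P1 := 536870912) (W1 := 536870912) (P2 := 1073741824) (W2 := 536870912) (P3 := 1046898278) (W3 := 26843546) (N0 := 3)
    rfl k0_pp_102

noncomputable def f_pp_112 : ℕ → ℕ → ℕ → ℕ → Bool := onCell 536870912 536870912 1073741824 536870912 1046898278 26843546
    (rowNX 3 0 false true true .dn 1 1 2 (qsf 536870912 536870912 1073741824 536870912 1) ndN1q1 ndN6q2 pcN1 Cut.none Ext.none)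

def k0_pp_112 : ∃ t, chk3 f_pp_112 t 1 1 1 = true :=
  ⟨(l 3), by decide +kernel⟩

theorem c_pp_112 : CertNX 536870912 536870912 1073741824 536870912 1046898278 26843546 3 false true true .dn 1 1 2
    ndN1q1 ndN6q2 pcN1 Cut.none Ext.none :=
  certNX0 (fam := false) (s1 := true) (s2 := true) (a := 1) (b := 1) (c := 2) (cn := .dn) (n1 := ndN1q1) (n2 := ndN6q2) (pc := pcN1) (cut := Cut.none) (xt := Ext.none) (P1 := 536870912) (W1 := 536870912) (P2 := 1073741824) (W2 := 536870912) (P3 := 1046898278) (W3 := 26843546) (N0 := 3)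
    rfl k0_pp_112

noncomputable def f_pp_113 : ℕ → ℕ → ℕ → ℕ → Bool := onCell 536870912 536870912 0 1230186008 1046898278 26843546
    (rowNX 3 2 false true true .nn 1 1 3 (qsf 536870912 536870912 0 1230186008 1) ndN1q1 ndN6q3 pcN1 Cut.none Ext.none)

def k0_pp_113 : ∃ t, chk3 f_pp_113 t 1 1 1 = true :=
  ⟨(b (a (l 2) (a (l 2) (a (b (l 2) (l 3)) (b (a (l 2) (b (a (l 2) (a (l 2) (c (l 16774856) (c (l 16773000) (a (l 16704208) (a (l 16668784) (l 16743856))))))) (a (b (l 2) (c (a (l 351816806471) (c (l 16681960) (l 15974456))) (l 14710504))) (c (b (l 16785080) (l 16461872)) (a (c (a (l 15543320) (b (l 16352504) (l 15209288))) (l 14437464)) (c (l 15541552) (b (a (l 14674840) (l 14697808)) (a (l 14381720) (l 14403984))))))))) (a (l 3) (b (a (c (a (l 3) (c (l 369532893927) (b (l 15295048) (l 3)))) (l 290073011623)) (c (b (l 240683954487) (l 361479137767)) (a (c (b (a (l 14820104) (l 14820056)) (l 3)) (l 14365648)) (c (l 320139277399) (b (a (l 14345176) (l 14363040)) (a (l 3) (l 14450776)))))))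 (l 3))))))) (b (a (l 3) (l 3)) (a (a (l 3) (l 3)) (l 3)))), by decide +kernel⟩

theorem c_pp_113 : CertNX 536870912 536870912 0 1230186008 1046898278 26843546 3 false true true .nn 1 1 3
    ndN1q1 ndN6q3 pcN1 Cut.none Ext.none :=
  certNX2 (fam := false) (s1 := true) (s2 := true) (a := 1) (b := 1) (c := 3) (cn := .nn) (n1 := ndN1q1) (n2 := ndN6q3) (pc := pcN1) (cut := Cut.none) (xt := Ext.none) (P1 := 536870912) (W1 := 536870912) (P2 := 0) (W2 := 1230186008) (P3 := 1046898278) (W3 := 26843546) (N0 := 3)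
    rfl (fun _ => rfl) k0_pp_113

noncomputable def f_pp_123 : ℕ → ℕ → ℕ → ℕ → Bool := onCell 1073741824 536870912 0 1230186008 1046898278 26843546
    (rowNX 3 2 false true true .npn 1 2 3 (qsf 536870912 536870912 0 1230186008 2) ndN1q1 ndN6q3 pcN2 Cut.none Ext.none)

def k0_pp_123 : ∃ t, chk3 f_pp_123 t 8 4 1 = true :=
  ⟨(b (a (b (l 16391384) (a (c (a (l 16156424) (a (l 16460144) (l 16546416))) (a (c (l 16272632) (l 16135880)) (l 16423288))) (b (l 16702960) (c (l 16670384) (l 16531040))))) (l 16126680)) (a (a (c (c (b (l 16549768) (a (l 16582064) (a (l 16345720) (l 16295424)))) (a (l 16605336) (l 16330816))) (a (b (c (l 16463912) (l 16021184)) (c (l 15577184) (l 15055712))) (b (l 16068432) (l 15601632)))) (c (b (l 16486128) (l 16164144)) (b (l 16229896) (l 15842416)))) (a (c (b (a (l 16400208) (l 16291888)) (l 16109184)) (b (l 16162160) (l 15907168))) (c (b (b (l 16059528) (l 15785408)) (c (l 15969320) (l 15890648))) (b (l 15896752) (l 15783832)))))), by decide +kernel⟩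

def k1_pp_123 : ∃ t, chk3 f_pp_123 t 16 10 1 = true :=
  ⟨(a (c (b (a (c (b (l 15986816) (l 15669712)) (a (l 15426216) (l 15509320))) (a (c (l 15855320) (l 15589232)) (c (l 15880768) (l 15656816)))) (a (b (c (l 15425320) (l 15173976)) (l 15195936)) (a (c (l 15469384) (b (l 15364064) (l 15260880))) (c (l 15564112) (b (l 15461456) (c (l 15409440) (l 15331912))))))) (a (c (b (a (l 15023112) (b (l 15283472) (l 15113936))) (a (l 336244544055) (c (l 337318694679) (l 330339165399)))) (b (c (a (l 14725160) (l 14936376)) (l 14669192)) (a (c (l 326043629159) (a (c (l 14488008) (l 316379523975)) (a (l 316916612343) (l 14581840)))) (a (c (c (l 14798144) (l 14739824)) (l 14650240)) (l 318527757943))))) (b (c (l 15368464) (l 15120640)) (c (a (c (l 219207233415) (b (l 15084816) (a (l 15022920) (l 15082264)))) (b (l 15262216) (l 15205336))) (l 14961160))))) (c (b (a (l 15825936) (l 15878528)) (a (a (c (l 15633176) (c (l 15526640) (l 15444056))) (c (l 15701128) (l 15550432))) (c (l 15760288)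 (l 15620440)))) (b (c (l 15607032) (l 15453080)) (c (a (l 15357400) (l 15491368)) (l 15316536))))), by decide +kernel⟩

def k2_pp_123 : ∃ t, chk3 f_pp_123 t 16 11 1 = true :=
  ⟨(a (b (b (a (l 3) (c (c (l 15390840) (a (l 15220008) (c (l 15349288) (a (l 15270672) (l 15321624))))) (c (a (c (l 15123072) (a (l 3) (l 15082288))) (c (a (l 15206720) (l 15246576)) (l 15154864))) (l 15000280)))) (l 3)) (l 3)) (c (b (a (c (a (l 15495664) (c (l 15596280) (b (l 15573824) (l 170352865383)))) (a (c (b (l 15443952) (l 15418840)) (b (l 188069290679) (l 198806679623))) (c (b (l 15509008) (l 157467856615)) (l 15431496)))) (c (a (c (a (l 15648872) (l 15668648)) (l 15595864)) (l 15663616)) (l 15550088))) (a (b (l 3) (l 3)) (c (a (c (b (l 142972612359) (l 3)) (l 15570640)) (c (l 15563400) (l 15614712))) (l 15546192)))) (b (a (l 15269368) (c (l 15465816) (l 15391480))) (l 193438045879)))), by decide +kernel⟩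

def k3_pp_123 : ∃ t, chk3 f_pp_123 t 17 5 1 = true :=
  ⟨(b (a (c (b (c (l 15961304) (l 15849040)) (c (l 15789400) (a (l 15675136) (l 15719632)))) (b (l 15690120) (l 15583208))) (c (b (a (b (l 15876248) (l 15814848)) (l 15778584)) (c (c (b (l 15818440) (l 15804992)) (a (l 15786168) (l 15785808))) (a (l 15748200) (l 15756472)))) (b (l 15678072) (c (l 15702696) (l 15628208))))) (a (b (c (a (b (l 15689400) (l 15679560)) (c (l 15760920) (l 15693360))) (a (l 15544328) (l 15619104))) (c (a (a (l 15650256) (b (l 15690360) (l 15728112))) (b (a (l 15759400) (l 15803208)) (b (l 15817232) (l 15845296)))) (a (a (l 15561616) (l 15465912)) (b (l 15701152) (l 15776936))))) (a (b (c (c (b (l 15799272) (l 15810088)) (l 15767536)) (b (l 15687104) (l 15702424))) (c (b (a (l 15835856) (l 15852352)) (l 15897048)) (b (l 15789184) (l 15844664)))) (b (c (b (c (l 15799600) (l 15730392)) (l 15814128)) (b (l 15720208) (l 15751696))) (b (l 15846752) (c (l 15942512) (l 15898448))))))), by decide +kernel⟩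

def k4_pp_123 : ∃ t, chk3 f_pp_123 t 9 4 1 = true :=
  ⟨(b (a (l 15628264) (l 15026976)) (a (a (b (a (c (l 15808064) (l 15725432)) (l 15611496)) (c (b (l 15476152) (l 15663896)) (b (l 15551344) (l 15555344)))) (b (l 15373488) (c (b (a (l 15421680) (l 15254880)) (a (l 15411976) (l 15233848))) (b (l 15162568) (l 15099832))))) (b (l 14920696) (b (l 14852736) (a (b (l 14945440) (a (c (l 15050312) (l 14982496)) (l 14858456))) (l 14675480)))))), by decide +kernel⟩

def k5_pp_123 : ∃ t, chk3 f_pp_123 t 9 10 1 = true :=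
  ⟨(a (a (c (b (l 15688176) (b (c (c (l 15784664) (l 15753624)) (l 15724088)) (c (c (l 15820280) (l 15817176)) (b (l 15769744) (c (l 15811152) (l 15798528)))))) (b (l 15589120) (l 15698000))) (b (c (c (l 15504032) (l 15466360)) (l 15410040)) (c (b (l 15670808) (c (b (l 15793224) (c (l 15882272) (l 15862176))) (l 15815256))) (a (l 15707952) (l 15680368))))) (b (a (a (c (b (l 15161360) (l 15342480)) (l 15190872)) (b (c (l 14939040) (l 14880688)) (l 15133952))) (c (b (c (l 14743072) (l 14710544)) (l 14898928)) (b (l 14671824) (l 14836328)))) (c (a (a (c (l 15678792) (l 15659376)) (l 15532544)) (l 15279768)) (a (a (l 15628008) (l 15490256)) (l 15232336))))), by decide +kernel⟩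

def k6_pp_123 : ∃ t, chk3 f_pp_123 t 18 11 1 = true :=
  ⟨(b (b (a (c (a (c (l 15843472) (c (l 15814968) (l 15810560))) (c (l 15907272) (c (l 15898256) (b (l 15880184) (l 15917768))))) (c (a (l 15806272) (l 15919296)) (l 15828528))) (c (b (c (c (l 15943672) (l 15953688)) (c (l 15948384) (l 15937752))) (c (l 15814856) (c (l 16022824) (a (l 16005168) (l 16055688))))) (c (a (l 15994456) (l 15983800)) (l 15951632)))) (c (a (c (l 15979384) (b (a (l 15866032) (l 15983792)) (l 15970784))) (c (l 16166152) (c (a (l 16115696) (l 16171336)) (b (a (l 16060184) (l 16138264)) (l 16156160))))) (a (a (a (l 15815232) (l 15899288)) (c (l 15957624) (l 15977080))) (c (a (l 15904240) (c (l 15979384) (l 16216344))) (l 16147800))))) (a (b (b (c (l 16008008) (c (l 15936048) (l 15958056))) (l 16030784)) (l 16077248)) (a (b (c (l 16244752) (c (l 16217224) (l 16209248))) (l 16305592)) (b (c (b (l 16324320) (l 16410408)) (c (b (l 16220096) (l 16313848)) (b (l 16330456) (l 16389096)))) (b (c (l 16438320)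 (c (l 16343920) (l 16412184))) (l 16471784)))))), by decide +kernel⟩

def k7_pp_123 : ∃ t, chk3 f_pp_123 t 19 11 1 = true :=
  ⟨(a (b (c (b (a (a (c (l 15805008) (c (l 16030688) (l 16006344))) (c (c (l 16029200) (l 16036224)) (l 16003248))) (c (b (l 15850728) (l 15994504)) (l 15895736))) (a (c (c (l 16244400) (l 16219128)) (c (b (l 16178480) (l 16280184)) (b (a (l 16183400) (l 16189936)) (l 16254000)))) (c (l 16056568) (c (l 16143472) (b (l 16072616) (l 16203928)))))) (c (b (l 15938784) (a (b (l 16164064) (c (c (l 16287400) (l 16250664)) (a (l 16320344) (l 16281696)))) (c (l 16063272) (l 16120992)))) (l 15980432))) (b (c (c (a (l 16468312) (l 16379896)) (a (b (l 16397432) (l 16513632)) (b (l 16295320) (l 16430840)))) (a (a (c (b (l 16380472) (l 16498272)) (l 16461912)) (c (c (b (l 16390264) (l 16518360)) (l 16438328)) (l 16462720))) (c (c (c (l 16294832) (l 16336536)) (l 16355144)) (l 16380952)))) (a (b (c (l 16580112) (c (c (l 16579304) (l 16521728)) (l 16330424))) (l 16619808))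 (c (l 16565072) (c (l 16540304) (l 16546792)))))) (c (b (c (c (b (l 15698920) (l 15907728)) (b (l 15666392) (l 15925128))) (b (l 15653544) (b (l 15839216) (c (l 15983184) (c (l 15974960) (l 15957192)))))) (b (c (l 16130576) (c (b (l 16071512) (l 16208576)) (b (c (l 16083976) (l 16092320)) (l 16181976)))) (c (l 16405152) (b (l 16326616) (l 16447144))))) (b (l 15753520) (b (c (c (a (l 16074696) (l 15982224)) (l 16103320)) (l 16153488)) (c (b (c (l 16175848) (l 16284336)) (l 16426760)) (b (l 16347944) (l 16441568))))))), by decide +kernel⟩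

def k8_pp_123 : ∃ t, chk3 f_pp_123 t 4 3 1 = true :=
  ⟨(a (b (b (a (l 3) (b (a (a (c (l 15709208) (l 15653632)) (c (a (l 15808608) (l 15885904)) (l 15798144))) (a (c (c (a (l 15974264) (l 16045584)) (l 15988408)) (a (l 15921688) (l 15999840))) (b (l 15989152) (a (l 16073192) (l 16088520))))) (a (l 3) (a (c (l 16045608) (l 16038720)) (b (c (l 16158928) (l 16135048)) (c (l 16197920) (l 16177192))))))) (l 3)) (l 3)) (b (a (a (b (b (a (b (l 16076448) (l 16150512)) (c (l 16263864) (l 16242520))) (a (b (a (l 16223744) (l 16248840)) (l 16280720)) (a (l 16346584) (l 16384200)))) (a (c (l 621326227783) (l 590187687655)) (b (c (l 16393320) (l 16379800)) (l 607367864151)))) (a (b (b (b (l 16366816) (l 16430728)) (l 16474288)) (b (c (l 16537448) (l 16529000)) (c (l 16560784) (l 16553160)))) (b (b (l 16539392) (l 16614416)) (c (l 16530344) (l 394767358759))))) (b (a (a (b (l 16678040) (c (l 16759112) (l 16758480))) (b (l 16696464) (l 16730712))) (b (b (b (c (l 16494176) (c (l 16446880)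 (l 16482064))) (l 16574848)) (l 16647800)) (l 16761144))) (a (a (b (l 16768448) (c (l 16762480) (l 16761960))) (b (l 16701936) (a (l 16753568) (l 16729712)))) (b (b (l 16637104) (l 16609688)) (l 16648824))))) (a (a (l 3) (b (a (l 3) (c (l 739438768759) (l 733533186615))) (l 3))) (a (b (a (b (c (l 727090796471) (l 16722128)) (l 3)) (c (b (l 16767144) (l 16773664)) (b (l 16766792) (l 16773536)))) (l 3)) (b (c (a (b (l 16751808) (l 16771176)) (b (l 16701712) (l 16760096))) (a (b (l 16750920) (l 16770968)) (b (l 16699056) (l 16759488)))) (c (a (l 935396903319) (l 267395270839)) (a (l 1000358267255) (l 286185739671)))))))), by decide +kernel⟩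

def k9_pp_123 : ∃ t, chk3 f_pp_123 t 5 4 1 = true :=
  ⟨(a (a (b (a (l 14605624) (l 14756672)) (a (l 14521736) (l 14712576))) (b (l 15457392) (l 15421488))) (a (b (l 16303352) (l 16276344)) (b (l 16721288) (l 16702264)))), by decide +kernel⟩

def k10_pp_123 : ∃ t, chk3 f_pp_123 t 10 5 1 = true :=
  ⟨(a (b (a (b (c (b (l 14528792) (c (l 14593456) (l 14559752))) (b (l 14468984) (l 14509504))) (c (l 14945624) (l 14890288))) (b (b (l 14685376) (b (l 14666056) (a (l 14551544) (a (l 14726344) (l 14843048))))) (a (c (l 14859264) (l 14802072)) (c (b (l 14884456) (l 15095200)) (l 14930880))))) (b (a (c (c (b (l 15353448) (c (l 15640264) (a (l 15703944) (l 15527144)))) (l 15461760)) (l 15431968)) (c (a (l 15342880) (l 15407280)) (a (l 15300400) (l 15367544)))) (c (c (a (b (c (l 15838392) (l 15843360)) (l 16119512)) (a (b (c (l 15705600) (l 15718672)) (l 15948344)) (b (c (l 15733480) (l 15631608)) (l 15899736)))) (b (b (a (c (l 15808688) (c (l 15788704) (l 15776840))) (l 15640176)) (c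 (a (l 15904328) (a (l 15771432) (l 15764320))) (a (c (l 15916416) (l 15922400)) (l 15745392)))) (a (b (a (l 16098960) (l 15954896)) (l 16110512)) (a (c (l 15916184) (b (l 15875032) (l 15979848))) (c (l 15900696) (b (l 15865856) (l 15950208))))))) (a (c (b (a (l 15793496) (l 15757408)) (c (l 15961888) (l 16099320))) (l 15816416)) (b (l 15668544) (c (a (l 15836440) (b (l 15838352) (l 15933144))) (l 15888504))))))) (b (b (l 15411632) (a (c (b (l 15201608) (l 15329496)) (b (l 15159984) (l 15292296))) (c (b (l 15653400) (l 15694944)) (l 15514576)))) (a (c (b (l 15591168) (b (c (b (l 15807496) (l 15911576)) (l 15833088)) (c (c (l 16000624) (l 16004768)) (c (l 15909248) (l 16058328))))) (b (l 15557968) (l 15741784))) (c (b (l 15878192) (b (l 16053792) (c (b (l 16161752) (l 16209016)) (l 16218464)))) (b (l 15854936) (l 16090656)))))), by decide +kernel⟩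

def k11_pp_123 : ∃ t, chk3 f_pp_123 t 11 5 1 = true :=
  ⟨(a (b (b (l 16309800) (a (c (l 15975592) (l 16115120)) (l 16521456))) (a (b (c (l 16201232) (l 16190000)) (c (l 16381968) (l 16328704))) (b (c (l 16554616) (l 16549536)) (l 16608320)))) (b (l 16727576) (a (l 16943376) (l 16755512)))), by decide +kernel⟩

def k12_pp_123 : ∃ t, chk3 f_pp_123 t 5 3 1 = true :=
  ⟨(b (b (a (a (b (b (c (a (b (l 16243800) (l 16366368)) (a (b (l 16120264) (l 16239632)) (a (b (l 16066528) (l 16180984)) (l 16038464)))) (a (c (a (l 16304168) (b (l 16100336) (l 16272824))) (l 16309424)) (a (c (b (l 16074440) (l 16198712)) (l 16177744)) (a (c (b (l 16048592) (l 16162728)) (l 16127072)) (l 16099064))))) (a (l 16483792) (a (l 16341488) (b (a (c (l 16242328) (l 15963976)) (c (l 16080992) (a (l 16205056) (l 16220872)))) (a (l 16306864) (l 16323672)))))) (a (l 16664616) (a (l 16527696) (a (l 16453024) (l 16431120))))) (a (b (c (b (c (l 16185856) (l 15961640)) (b (l 16305416) (l 16346232))) (b (l 16180784)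 (c (l 16278400) (l 16298368)))) (l 16451712)) (c (b (b (a (l 16160200) (l 16334776)) (c (l 16427480) (l 16421976))) (a (l 16509592) (l 16496200))) (b (b (l 16325560) (l 16418008)) (l 16481096))))) (c (a (b (a (l 16461248) (l 16660376)) (b (l 16634488) (l 16674432))) (l 16776984)) (a (b (a (l 16485384) (l 16663360)) (l 16640816)) (l 16776992)))) (a (a (a (b (a (l 16613904) (l 16682736)) (a (l 16537176) (l 16496856))) (a (b (l 16776744) (l 16446952)) (a (l 16749008) (l 16508376)))) (l 16682296)) (a (l 16729760) (l 16777144)))) (a (a (a (b (a (b (l 16621160) (c (b (l 16701064) (l 16747792)) (l 16725432))) (l 16586464)) (b (a (c (l 276522097143) (l 293165095623)) (l 1)) (l 1))) (b (a (b (l 16436912) (l 16541872)) (b (a (l 16401744) (a (l 16470688) (l 16584976))) (a (l 16466952) (a (l 16461008) (b (b (l 16306600) (l 16410960)) (l 16470592)))))) (l 1))) (b (b (l 16674848) (l 16521856)) (l 1))) (b (a (l 279205877335) (l 16777168)) (l 1)))), by decide +kernel⟩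

def k13_pp_123 : ∃ t, chk3 f_pp_123 t 3 1 1 = true :=
  ⟨(b (b (a (b (l 16718560) (l 16702872)) (b (l 16721712) (l 16702872))) (a (b (l 16728152) (a (l 16755512) (l 16755512))) (l 16740592))) (b (a (c (a (l 16777176) (l 16777176)) (b (l 16777144) (l 16777200))) (l 16777168)) (l 1))), by decide +kernel⟩

theorem s14_pp_123 : ∃ t, chk3 f_pp_123 t 5 5 1 = true := ex3_a k10_pp_123 k11_pp_123

theorem s15_pp_123 : ∃ t, chk3 f_pp_123 t 5 2 1 = true := ex3_b k9_pp_123 s14_pp_123

theorem s16_pp_123 : ∃ t, chk3 f_pp_123 t 5 1 1 = true := ex3_b s15_pp_123 k12_pp_123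

theorem s17_pp_123 : ∃ t, chk3 f_pp_123 t 9 11 1 = true := ex3_a k6_pp_123 k7_pp_123

theorem s18_pp_123 : ∃ t, chk3 f_pp_123 t 9 5 1 = true := ex3_b k5_pp_123 s17_pp_123

theorem s19_pp_123 : ∃ t, chk3 f_pp_123 t 9 2 1 = true := ex3_b k4_pp_123 s18_pp_123

theorem s20_pp_123 : ∃ t, chk3 f_pp_123 t 16 5 1 = true := ex3_b k1_pp_123 k2_pp_123

theorem s21_pp_123 : ∃ t, chk3 f_pp_123 t 8 5 1 = true := ex3_a s20_pp_123 k3_pp_123

theorem s22_pp_123 : ∃ t, chk3 f_pp_123 t 8 2 1 = true := ex3_b k0_pp_123 s21_pp_123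

theorem s23_pp_123 : ∃ t, chk3 f_pp_123 t 4 2 1 = true := ex3_a s22_pp_123 s19_pp_123

theorem s24_pp_123 : ∃ t, chk3 f_pp_123 t 4 1 1 = true := ex3_b s23_pp_123 k8_pp_123

theorem s25_pp_123 : ∃ t, chk3 f_pp_123 t 2 1 1 = true := ex3_a s24_pp_123 s16_pp_123

theorem s26_pp_123 : ∃ t, chk3 f_pp_123 t 1 1 1 = true := ex3_a s25_pp_123 k13_pp_123

theorem c_pp_123 : CertNX 536870912 536870912 0 1230186008 1046898278 26843546 3 false true true .npn 1 2 3
    ndN1q1 ndN6q3 pcN2 Cut.none Ext.none :=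
  certNX2 (fam := false) (s1 := true) (s2 := true) (a := 1) (b := 2) (c := 3) (cn := .npn) (n1 := ndN1q1) (n2 := ndN6q3) (pc := pcN2) (cut := Cut.none) (xt := Ext.none) (P1 := 536870912) (W1 := 536870912) (P2 := 0) (W2 := 1230186008) (P3 := 1046898278) (W3 := 26843546) (N0 := 3)
    rfl (fun _ => rfl) s26_pp_123

noncomputable def f_pp_133 : ℕ → ℕ → ℕ → ℕ → Bool := onCell 536870912 536870912 0 1230186008 1046898278 26843546
    (rowNX 3 0 false true true .dn 1 3 3 (qsf 536870912 536870912 0 1230186008 3) ndN1q1 ndN6q3 pcN3 Cut.none Ext.none)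

def k0_pp_133 : ∃ t, chk3 f_pp_133 t 1 1 1 = true :=
  ⟨(b (a (b (a (b (l 16721432) (l 1)) (l 1)) (l 1)) (l 1)) (l 1)), by decide +kernel⟩

theorem c_pp_133 : CertNX 536870912 536870912 0 1230186008 1046898278 26843546 3 false true true .dn 1 3 3
    ndN1q1 ndN6q3 pcN3 Cut.none Ext.none :=
  certNX0 (fam := false) (s1 := true) (s2 := true) (a := 1) (b := 3) (c := 3) (cn := .dn) (n1 := ndN1q1) (n2 := ndN6q3) (pc := pcN3) (cut := Cut.none) (xt := Ext.none) (P1 := 536870912) (W1 := 536870912) (P2 := 0) (W2 := 1230186008) (P3 := 1046898278) (W3 := 26843546) (N0 := 3)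
    rfl k0_pp_133

noncomputable def f_pp_202_a : ℕ → ℕ → ℕ → ℕ → Bool := onCell 0 420477299 1073741824 536870912 1046898278 26843546
    (rowNX 3 0 false true true .pp 2 0 2 (qsf 0 420477299 1073741824 536870912 0) ndN1q2a ndN6q2 pcN0 Cut.none Ext.none)

def k0_pp_202_a : ∃ t, chk3 f_pp_202_a t 1 1 1 = true :=
  ⟨(l 5), by decide +kernel⟩

theorem c_pp_202_a : CertNX 0 420477299 1073741824 536870912 1046898278 26843546 3 false true true .pp 2 0 2
    ndN1q2a ndN6q2 pcN0 Cut.none Ext.none :=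
  certNX0 (fam := false) (s1 := true) (s2 := true) (a := 2) (b := 0) (c := 2) (cn := .pp) (n1 := ndN1q2a) (n2 := ndN6q2) (pc := pcN0) (cut := Cut.none) (xt := Ext.none) (P1 := 0) (W1 := 420477299) (P2 := 1073741824) (W2 := 536870912) (P3 := 1046898278) (W3 := 26843546) (N0 := 3)
    rfl k0_pp_202_a

noncomputable def f_pp_202_b : ℕ → ℕ → ℕ → ℕ → Bool := onCell 1239849684 370763052 1073741824 536870912 1046898278 26843546
    (rowNX 3 0 false true true .pp 2 0 2 (qsf 1239849684 370763052 1073741824 536870912 0) ndN1q2b ndN6q2 pcN0 Cut.none Ext.none)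

def k0_pp_202_b : ∃ t, chk3 f_pp_202_b t 1 1 1 = true :=
  ⟨(l 5), by decide +kernel⟩

theorem c_pp_202_b : CertNX 1239849684 370763052 1073741824 536870912 1046898278 26843546 3 false true true .pp 2 0 2
    ndN1q2b ndN6q2 pcN0 Cut.none Ext.none :=
  certNX0 (fam := false) (s1 := true) (s2 := true) (a := 2) (b := 0) (c := 2) (cn := .pp) (n1 := ndN1q2b) (n2 := ndN6q2) (pc := pcN0) (cut := Cut.none) (xt := Ext.none) (P1 := 1239849684) (W1 := 370763052) (P2 := 1073741824) (W2 := 536870912) (P3 := 1046898278) (W3 := 26843546) (N0 := 3)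
    rfl k0_pp_202_b

noncomputable def f_pp_203_a : ℕ → ℕ → ℕ → ℕ → Bool := onCell 0 420477299 0 1230186008 1046898278 26843546
    (rowNX 3 0 false true true .up 2 0 3 (qsf 0 420477299 0 1230186008 0) ndN1q2a ndN6q3 pcN0 Cut.none Ext.none)

def k0_pp_203_a : ∃ t, chk3 f_pp_203_a t 1 1 1 = true :=
  ⟨(b (l 2) (l 3)), by decide +kernel⟩

theorem c_pp_203_a : CertNX 0 420477299 0 1230186008 1046898278 26843546 3 false true true .up 2 0 3
    ndN1q2a ndN6q3 pcN0 Cut.none Ext.none :=
  certNX0 (fam := false) (s1 := true) (s2 := true) (a := 2) (b := 0) (c := 3) (cn := .up) (n1 := ndN1q2a) (n2 := ndN6q3) (pc := pcN0) (cut := Cut.none) (xt := Ext.none) (P1 := 0) (W1 := 420477299) (P2 := 0) (W2 := 1230186008) (P3 := 1046898278) (W3 := 26843546) (N0 := 3)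
    rfl k0_pp_203_a

noncomputable def f_pp_203_b : ℕ → ℕ → ℕ → ℕ → Bool := onCell 1239849684 370763052 0 1230186008 1046898278 26843546
    (rowNX 3 0 false true true .up 2 0 3 (qsf 1239849684 370763052 0 1230186008 0) ndN1q2b ndN6q3 pcN0 Cut.none Ext.none)

def k0_pp_203_b : ∃ t, chk3 f_pp_203_b t 1 1 1 = true :=
  ⟨(b (l 3) (l 3)), by decide +kernel⟩

theorem c_pp_203_b : CertNX 1239849684 370763052 0 1230186008 1046898278 26843546 3 false true true .up 2 0 3
    ndN1q2b ndN6q3 pcN0 Cut.none Ext.none :=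
  certNX0 (fam := false) (s1 := true) (s2 := true) (a := 2) (b := 0) (c := 3) (cn := .up) (n1 := ndN1q2b) (n2 := ndN6q3) (pc := pcN0) (cut := Cut.none) (xt := Ext.none) (P1 := 1239849684) (W1 := 370763052) (P2 := 0) (W2 := 1230186008) (P3 := 1046898278) (W3 := 26843546) (N0 := 3)
    rfl k0_pp_203_b

noncomputable def f_pp_213_a : ℕ → ℕ → ℕ → ℕ → Bool := onCell 0 420477299 0 1230186008 1046898278 26843546
    (rowNX 3 0 false true true .pnn 2 1 3 (qsf 0 420477299 0 1230186008 1) ndN1q2a ndN6q3 pcN1 Cut.none Ext.none)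

def k0_pp_213_a : ∃ t, chk3 f_pp_213_a t 1 1 1 = true :=
  ⟨(b (l 3) (l 3)), by decide +kernel⟩

theorem c_pp_213_a : CertNX 0 420477299 0 1230186008 1046898278 26843546 3 false true true .pnn 2 1 3
    ndN1q2a ndN6q3 pcN1 Cut.none Ext.none :=
  certNX0 (fam := false) (s1 := true) (s2 := true) (a := 2) (b := 1) (c := 3) (cn := .pnn) (n1 := ndN1q2a) (n2 := ndN6q3) (pc := pcN1) (cut := Cut.none) (xt := Ext.none) (P1 := 0) (W1 := 420477299) (P2 := 0) (W2 := 1230186008) (P3 := 1046898278) (W3 := 26843546) (N0 := 3)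
    rfl k0_pp_213_a

noncomputable def f_pp_213_b : ℕ → ℕ → ℕ → ℕ → Bool := onCell 1239849684 370763052 0 1230186008 1046898278 26843546
    (rowNX 3 0 false true true .pnn 2 1 3 (qsf 1239849684 370763052 0 1230186008 1) ndN1q2b ndN6q3 pcN1 Cut.none Ext.none)

def k0_pp_213_b : ∃ t, chk3 f_pp_213_b t 1 1 1 = true :=
  ⟨(b (l 3) (l 3)), by decide +kernel⟩

theorem c_pp_213_b : CertNX 1239849684 370763052 0 1230186008 1046898278 26843546 3 false true true .pnn 2 1 3
    ndN1q2b ndN6q3 pcN1 Cut.none Ext.none :=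
  certNX0 (fam := false) (s1 := true) (s2 := true) (a := 2) (b := 1) (c := 3) (cn := .pnn) (n1 := ndN1q2b) (n2 := ndN6q3) (pc := pcN1) (cut := Cut.none) (xt := Ext.none) (P1 := 1239849684) (W1 := 370763052) (P2 := 0) (W2 := 1230186008) (P3 := 1046898278) (W3 := 26843546) (N0 := 3)
    rfl k0_pp_213_b

noncomputable def f_pp_303 : ℕ → ℕ → ℕ → ℕ → Bool := onCell 1610612736 469762048 0 1230186008 1046898278 26843546
    (rowNX 3 0 false true true .npn 3 0 3 (qsf 1610612736 469762048 0 1230186008 0) ndN1q3 ndN6q3 pcN0 Cut.none Ext.none)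

def k0_pp_303 : ∃ t, chk3 f_pp_303 t 1 1 1 = true :=
  ⟨(b (l 3) (l 3)), by decide +kernel⟩

theorem c_pp_303 : CertNX 1610612736 469762048 0 1230186008 1046898278 26843546 3 false true true .npn 3 0 3
    ndN1q3 ndN6q3 pcN0 Cut.none Ext.none :=
  certNX0 (fam := false) (s1 := true) (s2 := true) (a := 3) (b := 0) (c := 3) (cn := .npn) (n1 := ndN1q3) (n2 := ndN6q3) (pc := pcN0) (cut := Cut.none) (xt := Ext.none) (P1 := 1610612736) (W1 := 469762048) (P2 := 0) (W2 := 1230186008) (P3 := 1046898278) (W3 := 26843546) (N0 := 3)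
    rfl k0_pp_303

noncomputable def f_pp_313 : ℕ → ℕ → ℕ → ℕ → Bool := onCell 1610612736 469762048 0 1230186008 1046898278 26843546
    (rowNX 3 0 false true true .dn 3 1 3 (qsf 1610612736 469762048 0 1230186008 1) ndN1q3 ndN6q3 pcN1 Cut.none Ext.none)

def k0_pp_313 : ∃ t, chk3 f_pp_313 t 1 1 1 = true :=
  ⟨(b (l 3) (l 1)), by decide +kernel⟩

theorem c_pp_313 : CertNX 1610612736 469762048 0 1230186008 1046898278 26843546 3 false true true .dn 3 1 3
    ndN1q3 ndN6q3 pcN1 Cut.none Ext.none :=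
  certNX0 (fam := false) (s1 := true) (s2 := true) (a := 3) (b := 1) (c := 3) (cn := .dn) (n1 := ndN1q3) (n2 := ndN6q3) (pc := pcN1) (cut := Cut.none) (xt := Ext.none) (P1 := 1610612736) (W1 := 469762048) (P2 := 0) (W2 := 1230186008) (P3 := 1046898278) (W3 := 26843546) (N0 := 3)
    rfl k0_pp_313

noncomputable def f_pm_001 : ℕ → ℕ → ℕ → ℕ → Bool := onCell 67108864 469762048 536870912 469762048 1046898278 26843546
    (rowNX 3 0 false true false .up 0 0 1 (qsf 67108864 469762048 536870912 469762048 0) ndN1q0 ndN6q1 pcN0 Cut.none Ext.none)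

def k0_pm_001 : ∃ t, chk3 f_pm_001 t 1 1 1 = true :=
  ⟨(l 4), by decide +kernel⟩

theorem c_pm_001 : CertNX 67108864 469762048 536870912 469762048 1046898278 26843546 3 false true false .up 0 0 1
    ndN1q0 ndN6q1 pcN0 Cut.none Ext.none :=
  certNX0 (fam := false) (s1 := true) (s2 := false) (a := 0) (b := 0) (c := 1) (cn := .up) (n1 := ndN1q0) (n2 := ndN6q1) (pc := pcN0) (cut := Cut.none) (xt := Ext.none) (P1 := 67108864) (W1 := 469762048) (P2 := 536870912) (W2 := 469762048) (P3 := 1046898278) (W3 := 26843546) (N0 := 3)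
    rfl k0_pm_001

noncomputable def f_pm_011 : ℕ → ℕ → ℕ → ℕ → Bool := onCell 67108864 469762048 536870912 469762048 1046898278 26843546
    (rowNX 3 0 false true false .pnn 0 1 1 (qsf 67108864 469762048 536870912 469762048 1) ndN1q0 ndN6q1 pcN1 Cut.none Ext.none)

def k0_pm_011 : ∃ t, chk3 f_pm_011 t 1 1 1 = true :=
  ⟨(l 4), by decide +kernel⟩

theorem c_pm_011 : CertNX 67108864 469762048 536870912 469762048 1046898278 26843546 3 false true false .pnn 0 1 1
    ndN1q0 ndN6q1 pcN1 Cut.none Ext.none :=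
  certNX0 (fam := false) (s1 := true) (s2 := false) (a := 0) (b := 1) (c := 1) (cn := .pnn) (n1 := ndN1q0) (n2 := ndN6q1) (pc := pcN1) (cut := Cut.none) (xt := Ext.none) (P1 := 67108864) (W1 := 469762048) (P2 := 536870912) (W2 := 469762048) (P3 := 1046898278) (W3 := 26843546) (N0 := 3)
    rfl k0_pm_011

noncomputable def f_pm_012 : ℕ → ℕ → ℕ → ℕ → Bool := onCell 67108864 469762048 1073741824 536870912 1046898278 26843546
    (rowNX 3 0 false true false .pnp 0 1 2 (qsf 67108864 469762048 1073741824 536870912 1) ndN1q0 ndN6q2 pcN1 Cut.none Ext.none)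

def k0_pm_012 : ∃ t, chk3 f_pm_012 t 1 1 1 = true :=
  ⟨(l 4), by decide +kernel⟩

theorem c_pm_012 : CertNX 67108864 469762048 1073741824 536870912 1046898278 26843546 3 false true false .pnp 0 1 2
    ndN1q0 ndN6q2 pcN1 Cut.none Ext.none :=
  certNX0 (fam := false) (s1 := true) (s2 := false) (a := 0) (b := 1) (c := 2) (cn := .pnp) (n1 := ndN1q0) (n2 := ndN6q2) (pc := pcN1) (cut := Cut.none) (xt := Ext.none) (P1 := 67108864) (W1 := 469762048) (P2 := 1073741824) (W2 := 536870912) (P3 := 1046898278) (W3 := 26843546) (N0 := 3)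
    rfl k0_pm_012

noncomputable def f_pm_022 : ℕ → ℕ → ℕ → ℕ → Bool := onCell 67108864 469762048 1073741824 536870912 1046898278 26843546
    (rowNX 3 0 false true false .pp 0 2 2 (qsf 67108864 469762048 1073741824 536870912 2) ndN1q0 ndN6q2 pcN2 Cut.none Ext.none)

def k0_pm_022 : ∃ t, chk3 f_pm_022 t 1 1 1 = true :=
  ⟨(l 4), by decide +kernel⟩

theorem c_pm_022 : CertNX 67108864 469762048 1073741824 536870912 1046898278 26843546 3 false true false .pp 0 2 2
    ndN1q0 ndN6q2 pcN2 Cut.none Ext.none :=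
  certNX0 (fam := false) (s1 := true) (s2 := false) (a := 0) (b := 2) (c := 2) (cn := .pp) (n1 := ndN1q0) (n2 := ndN6q2) (pc := pcN2) (cut := Cut.none) (xt := Ext.none) (P1 := 67108864) (W1 := 469762048) (P2 := 1073741824) (W2 := 536870912) (P3 := 1046898278) (W3 := 26843546) (N0 := 3)
    rfl k0_pm_022

noncomputable def f_pm_023 : ℕ → ℕ → ℕ → ℕ → Bool := onCell 67108864 469762048 0 1230186008 1046898278 26843546
    (rowNX 3 0 false true false .up 0 2 3 (qsf 67108864 469762048 0 1230186008 2) ndN1q0 ndN6q3 pcN2 Cut.none Ext.none)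

def k0_pm_023 : ∃ t, chk3 f_pm_023 t 1 1 1 = true :=
  ⟨(b (a (l 2) (b (a (l 2) (c (l 16692064) (l 16691120))) (a (l 4) (l 4)))) (l 4)), by decide +kernel⟩

theorem c_pm_023 : CertNX 67108864 469762048 0 1230186008 1046898278 26843546 3 false true false .up 0 2 3
    ndN1q0 ndN6q3 pcN2 Cut.none Ext.none :=
  certNX0 (fam := false) (s1 := true) (s2 := false) (a := 0) (b := 2) (c := 3) (cn := .up) (n1 := ndN1q0) (n2 := ndN6q3) (pc := pcN2) (cut := Cut.none) (xt := Ext.none) (P1 := 67108864) (W1 := 469762048) (P2 := 0) (W2 := 1230186008) (P3 := 1046898278) (W3 := 26843546) (N0 := 3)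
    rfl k0_pm_023

noncomputable def f_pm_033 : ℕ → ℕ → ℕ → ℕ → Bool := onCell 67108864 469762048 0 1230186008 1046898278 26843546
    (rowNX 3 0 false true false .pnn 0 3 3 (qsf 67108864 469762048 0 1230186008 3) ndN1q0 ndN6q3 pcN3 Cut.none Ext.none)

def k0_pm_033 : ∃ t, chk3 f_pm_033 t 1 1 1 = true :=
  ⟨(b (a (l 4) (b (a (c (l 109756942999) (l 125326134647)) (c (l 16692064) (l 16691120))) (a (l 4) (l 4)))) (l 4)), by decide +kernel⟩

theorem c_pm_033 : CertNX 67108864 469762048 0 1230186008 1046898278 26843546 3 false true false .pnn 0 3 3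
    ndN1q0 ndN6q3 pcN3 Cut.none Ext.none :=
  certNX0 (fam := false) (s1 := true) (s2 := false) (a := 0) (b := 3) (c := 3) (cn := .pnn) (n1 := ndN1q0) (n2 := ndN6q3) (pc := pcN3) (cut := Cut.none) (xt := Ext.none) (P1 := 67108864) (W1 := 469762048) (P2 := 0) (W2 := 1230186008) (P3 := 1046898278) (W3 := 26843546) (N0 := 3)
    rfl k0_pm_033

noncomputable def f_pm_101 : ℕ → ℕ → ℕ → ℕ → Bool := onCell 536870912 536870912 536870912 469762048 1046898278 26843546
    (rowNX 3 0 false true false .npn 1 0 1 (qsf 536870912 536870912 536870912 469762048 0) ndN1q1 ndN6q1 pcN0 Cut.none Ext.none)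

def k0_pm_101 : ∃ t, chk3 f_pm_101 t 1 1 1 = true :=
  ⟨(l 4), by decide +kernel⟩

theorem c_pm_101 : CertNX 536870912 536870912 536870912 469762048 1046898278 26843546 3 false true false .npn 1 0 1
    ndN1q1 ndN6q1 pcN0 Cut.none Ext.none :=
  certNX0 (fam := false) (s1 := true) (s2 := false) (a := 1) (b := 0) (c := 1) (cn := .npn) (n1 := ndN1q1) (n2 := ndN6q1) (pc := pcN0) (cut := Cut.none) (xt := Ext.none) (P1 := 536870912) (W1 := 536870912) (P2 := 536870912) (W2 := 469762048) (P3 := 1046898278) (W3 := 26843546) (N0 := 3)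
    rfl k0_pm_101

noncomputable def f_pm_102 : ℕ → ℕ → ℕ → ℕ → Bool := onCell 536870912 536870912 1073741824 536870912 1046898278 26843546
    (rowNX 3 0 false true false .npp 1 0 2 (qsf 536870912 536870912 1073741824 536870912 0) ndN1q1 ndN6q2 pcN0 Cut.none Ext.none)

def k0_pm_102 : ∃ t, chk3 f_pm_102 t 1 1 1 = true :=
  ⟨(a (l 4) (b (a (l 4) (b (l 4) (b (l 4) (a (l 4) (b (a (l 4) (l 15006424)) (l 15560704)))))) (a (l 4) (b (a (l 4) (c (l 15582184) (l 15540240))) (a (l 16169936) (l 15561248)))))), by decide +kernel⟩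

theorem c_pm_102 : CertNX 536870912 536870912 1073741824 536870912 1046898278 26843546 3 false true false .npp 1 0 2
    ndN1q1 ndN6q2 pcN0 Cut.none Ext.none :=
  certNX0 (fam := false) (s1 := true) (s2 := false) (a := 1) (b := 0) (c := 2) (cn := .npp) (n1 := ndN1q1) (n2 := ndN6q2) (pc := pcN0) (cut := Cut.none) (xt := Ext.none) (P1 := 536870912) (W1 := 536870912) (P2 := 1073741824) (W2 := 536870912) (P3 := 1046898278) (W3 := 26843546) (N0 := 3)
    rfl k0_pm_102

noncomputable def f_pm_112 : ℕ → ℕ → ℕ → ℕ → Bool := onCell 536870912 536870912 1073741824 536870912 1046898278 26843546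
    (rowNX 3 2 false true false .dn 1 1 2 (qsf 536870912 536870912 1073741824 536870912 1) ndN1q1 ndN6q2 pcN1 Cut.none Ext.none)

def k0_pm_112 : ∃ t, chk3 f_pm_112 t 1 1 1 = true :=
  ⟨(a (b (l 4) (a (b (l 4) (a (b (l 16410152) (l 15864176)) (b (l 4) (l 16410152)))) (l 4))) (l 4)), by decide +kernel⟩

theorem c_pm_112 : CertNX 536870912 536870912 1073741824 536870912 1046898278 26843546 3 false true false .dn 1 1 2
    ndN1q1 ndN6q2 pcN1 Cut.none Ext.none :=
  certNX2 (fam := false) (s1 := true) (s2 := false) (a := 1) (b := 1) (c := 2) (cn := .dn) (n1 := ndN1q1) (n2 := ndN6q2) (pc := pcN1) (cut := Cut.none) (xt := Ext.none) (P1 := 536870912) (W1 := 536870912) (P2 := 1073741824) (W2 := 536870912) (P3 := 1046898278) (W3 := 26843546) (N0 := 3)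
    rfl (fun _ => rfl) k0_pm_112

noncomputable def f_pm_113 : ℕ → ℕ → ℕ → ℕ → Bool := onCell 536870912 536870912 0 1230186008 1046898278 26843546
    (rowNX 3 2 false true false .nn 1 1 3 (qsf 536870912 536870912 0 1230186008 1) ndN1q1 ndN6q3 pcN1 Cut.none Ext.none)

def k0_pm_113 : ∃ t, chk3 f_pm_113 t 1 2 1 = true :=
  ⟨(a (l 2) (a (l 2) (a (b (l 2) (b (a (l 2) (b (l 2) (l 14510488))) (a (l 750641390551) (b (l 14585896) (l 14627336))))) (b (a (l 2) (b (a (l 2) (a (l 2) (b (a (l 2) (a (l 2) (l 845671830567))) (l 16776392)))) (l 16062240))) (b (a (l 14668000) (l 14573488)) (a (b (l 14528312) (b (l 14481192) (l 14447560))) (b (b (l 14289352) (l 14219096)) (a (l 14200816) (l 13962328))))))))), by decide +kernel⟩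

def k1_pm_113 : ∃ t, chk3 f_pm_113 t 2 3 1 = true :=
  ⟨(b (a (l 2) (b (l 2) (a (l 2) (b (l 2) (l 14961448))))) (a (b (l 2) (b (a (l 2) (l 15237808)) (a (l 419393316311) (l 15829200)))) (b (a (b (l 1341736812727) (l 15266424)) (b (l 15347416) (a (l 15683008) (b (l 15847984) (l 16122872))))) (a (b (b (l 15648168) (a (l 15778056) (l 16026744))) (a (l 16263784) (l 16360520))) (b (a (a (b (l 15902664) (l 16211064)) (b (l 16023568) (l 16162232))) (b (a (b (l 16228912) (l 16203336)) (b (l 16297240) (l 16024616))) (l 16180776))) (a (l 16374368) (l 4))))))), by decide +kernel⟩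

def k2_pm_113 : ∃ t, chk3 f_pm_113 t 6 6 1 = true :=
  ⟨(a (b (l 2) (a (l 866606605255) (l 718967812071))) (b (a (l 1037867853639) (b (l 14863920) (l 14798016))) (a (l 15386880) (b (l 15198288) (l 15390656))))), by decide +kernel⟩

def k3_pm_113 : ∃ t, chk3 f_pm_113 t 12 7 1 = true :=
  ⟨(b (a (b (l 15775944) (b (l 16156776) (a (b (l 16285184) (l 16361608)) (b (l 16416888) (l 16336192))))) (b (b (l 15807592) (b (l 15976640) (a (l 16079096) (a (l 16041200) (l 15988672))))) (b (a (l 16264760) (b (l 16012864) (a (l 15928256) (l 15656688)))) (a (b (l 16182024) (l 15770096)) (b (a (l 15766360) (l 15415104)) (l 15428680)))))) (b (a (a (b (b (l 16165912) (l 15725960)) (l 16132336)) (b (b (l 15768656) (l 15428184)) (l 4))) (a (a (l 15873992) (l 15748104)) (l 15486184))) (l 4))), by decide +kernel⟩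

def k4_pm_113 : ∃ t, chk3 f_pm_113 t 26 14 1 = true :=
  ⟨(b (b (l 15786616) (b (b (l 15900920) (a (a (l 15979752) (l 15848576)) (c (a (l 15811328) (c (l 15755584) (l 15750248))) (a (l 15792944) (c (a (l 15761704) (l 15730952)) (a (l 15756296) (l 15706712))))))) (a (b (c (l 15935696) (l 15912640)) (a (l 15847720) (l 15513840))) (a (b (b (l 15708592) (l 15363608)) (l 15237872)) (b (c (l 15177192) (l 14898280)) (l 14827016)))))) (b (a (b (l 15387224) (l 15166856)) (l 14758072)) (l 14857592))), by decide +kernel⟩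

def k5_pm_113 : ∃ t, chk3 f_pm_113 t 27 28 1 = true :=
  ⟨(b (b (l 15515392) (b (l 15541512) (a (l 15725048) (b (a (l 15478304) (a (l 15319600) (a (l 15238744) (b (l 15187160) (c (l 15138432) (l 15086840)))))) (b (a (l 15471624) (c (a (l 15267672) (c (a (l 15193288) (l 15072752)) (l 15087096))) (a (l 15211504) (l 15045216)))) (a (a (l 15519760) (c (c (l 15372040) (l 15328088)) (l 15310728))) (c (a (c (a (l 15242304) (l 15026160)) (l 15180616)) (l 14814152)) (a (l 15132432) (l 14733576))))))))) (b (a (b (b (a (l 15812240) (b (l 15670808) (c (c (l 15621240) (a (l 15669616) (l 15522016))) (a (l 15640576) (l 15504624))))) (a (c (a (l 15799072) (b (l 15757648) (a (l 15725600) (l 15676248)))) (a (b (l 15816184) (l 15767144)) (b (l 15725920) (l 15679944)))) (c (a (b (b (l 15668752) (l 15607952)) (l 15330896)) (l 15230136)) (a (b (l 15598128) (l 15377632)) (l 15118672))))) (a (a (b (c (c (l 15689984) (l 15687016)) (b (l 15720368) (l 15476952))) (c (l 15070344) (l 15050128))) (b (a (c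 (l 15447304) (l 15385896)) (c (l 15408104) (l 15183184))) (c (l 14960240) (l 14799376)))) (c (a (a (b (l 15359072) (l 14868656)) (l 14819656)) (l 14725296)) (c (l 14757392) (l 14553464))))) (b (c (a (a (b (c (b (l 15472200) (l 15379720)) (b (l 15425480) (l 15354064))) (b (l 15128408) (l 14674992))) (b (a (b (l 15323928) (l 15077512)) (l 14997928)) (l 14548216))) (a (b (b (l 14919840) (l 14448888)) (l 14429968)) (l 14319504))) (a (a (b (b (l 15408624) (l 15287968)) (l 14625936)) (b (b (l 15213696) (l 14836912)) (l 14384944))) (c (l 14341520) (l 14173816)))) (a (c (l 14529832) (c (l 14501680) (l 14483184))) (l 14027192)))) (a (a (a (a (c (l 14927760) (l 14897584)) (l 14618120)) (l 14486792)) (l 14317544)) (l 14009232)))), by decide +kernel⟩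

def k6_pm_113 : ∃ t, chk3 f_pm_113 t 27 29 1 = true :=
  ⟨(a (a (l 14432408) (l 14265720)) (l 14058400)), by decide +kernel⟩

def k7_pm_113 : ∃ t, chk3 f_pm_113 t 13 15 1 = true :=
  ⟨(l 4), by decide +kernel⟩

def k8_pm_113 : ∃ t, chk3 f_pm_113 t 7 6 1 = true :=
  ⟨(a (b (a (b (l 14809184) (l 14842168)) (b (l 14656928) (l 14555768))) (a (b (l 14842616) (l 14839848)) (a (l 14507128) (b (l 14424072) (b (l 14308968) (l 14170792)))))) (b (a (b (l 14315840) (l 14188296)) (b (a (l 13967448) (l 13752496)) (a (l 13775968) (l 13501496)))) (b (a (l 14020688) (a (l 13466912) (l 13145144))) (b (a (l 13817272) (a (l 13199744) (l 12864952))) (c (a (a (c (l 13885664) (a (l 13945232) (l 13779592))) (a (a (l 13514536) (l 13527288)) (b (l 13437688) (l 13241472)))) (a (a (l 13151984) (l 12939656)) (l 12737896))) (a (b (l 13687528) (a (l 13752216) (c (a (a (l 13570224) (c (l 13489632) (l 13458312))) (c (l 13366344) (l 13334376))) (l 13375672)))) (c (a (a (c (l 13202088) (a (l 13166536) (l 13142152)))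 (l 12985704)) (a (l 12763184) (l 12600416))) (a (a (l 13138120) (c (l 12871456) (l 12942896))) (c (a (l 12590192) (l 12576696)) (a (l 12759536) (c (l 12569712) (l 12563504)))))))))))), by decide +kernel⟩

def k9_pm_113 : ∃ t, chk3 f_pm_113 t 14 112 1 = true :=
  ⟨(a (a (l 14995416) (a (l 14660160) (b (l 14484976) (b (l 14458496) (c (a (l 14436624) (b (l 14387936) (c (a (l 14403224) (l 14258368)) (a (l 14337784) (l 14290232))))) (b (a (l 14431768) (b (l 14372792) (l 14318968))) (a (a (l 14442064) (l 14341144)) (a (l 14294320) (l 14226160))))))))) (a (a (b (l 14370416) (a (b (l 14372288) (c (c (l 14240456) (l 14214336)) (b (a (l 14261536) (l 14207408)) (l 14031584)))) (c (a (l 14209048) (b (l 14194000) (l 13965824))) (b (l 14144400) (b (l 14140728) (l 13607808)))))) (c (a (b (l 14331768) (b (l 14172064) (l 13966560))) (b (l 14156624) (c (l 14131336) (l 14092264)))) (b (l 14107576) (b (a (l 14108512) (b (l 14073320) (l 13675568))) (l 13652808))))) (c (a (c (l 14099080) (l 14056784))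 (a (b (l 14043632) (l 13714040)) (b (l 14007424) (b (l 13744136) (l 13620752))))) (a (b (a (l 14047248) (l 13985664)) (l 13682008)) (b (l 13923840) (l 13433992)))))), by decide +kernel⟩

def k10_pm_113 : ∃ t, chk3 f_pm_113 t 28 113 1 = true :=
  ⟨(a (b (b (l 14961176) (b (a (l 15062104) (a (l 14894544) (c (c (l 14749904) (a (l 14763512) (l 14662544))) (c (l 14674760) (l 14657320))))) (a (a (l 15110944) (a (l 15027968) (c (l 14931256) (l 14884776)))) (a (c (a (l 14875928) (c (l 14776400) (l 14764424))) (c (l 14776544) (l 14757568))) (c (a (c (l 14699624) (l 14673720)) (l 14355184)) (l 14515464)))))) (b (b (c (a (a (l 15062448) (b (l 14954720) (a (l 14953064) (l 14764560)))) (l 14437600)) (a (a (a (l 15098616) (l 14985944)) (l 14856672)) (a (l 14521520) (l 14047016)))) (a (c (a (c (a (l 15090256) (l 14976264)) (l 14990320)) (l 14599976)) (a (l 14953016) (l 14597080))) (a (c (l 14493768) (l 14123544)) (c (l 13898928) (l 13713688))))) (c (a (b (l 14654464) (l 14173488)) (l 13951096))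 (c (a (a (l 14725344) (l 14081616)) (l 13910872)) (c (l 14003592) (l 13844136)))))) (a (b (b (a (b (l 14681000) (c (c (l 14643544) (c (l 14632088) (l 14588592))) (c (l 14571752) (l 14555000)))) (b (a (l 14593848) (c (l 14499296) (l 14421584))) (c (b (a (l 14552136) (l 14438240)) (l 14160928)) (b (l 14409912) (l 14232696))))) (a (c (a (b (b (l 14627336) (l 14474112)) (l 14301160)) (l 14245776)) (b (a (l 14522968) (l 14289416)) (l 13972664))) (c (b (l 14162840) (l 13548208)) (b (l 13900360) (l 13517344))))) (c (l 13745544) (c (l 13701296) (l 13587976)))) (b (b (b (a (c (a (b (l 14443888) (l 14377848)) (b (l 14352424) (l 14173760))) (a (l 14334848) (l 14233048))) (c (l 14053608) (l 13986312))) (a (c (a (l 14079312) (l 14059864)) (a (l 13995368) (l 13747784))) (c (l 13611248) (l 13497208)))) (c (a (a (l 13592936) (l 13444560)) (l 13625560)) (a (b (l 13449304) (l 13318920)) (l 13556952)))) (l 13400480)))), by decide +kernel⟩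

def k11_pm_113 : ∃ t, chk3 f_pm_113 t 29 113 1 = true :=
  ⟨(c (a (c (l 13714296) (l 13666080)) (c (a (l 13608648) (l 13549064)) (c (l 13567344) (l 13508952)))) (a (a (l 13593520) (l 13401704)) (l 13436688))), by decide +kernel⟩

def k12_pm_113 : ∃ t, chk3 f_pm_113 t 15 56 1 = true :=
  ⟨(a (c (a (c (a (a (l 13966432) (l 13703616)) (l 13579856)) (b (a (b (l 13891888) (c (l 13522040) (l 13475888))) (c (l 13586096) (l 13553488))) (c (l 13179376) (l 13149032)))) (c (l 13213808) (l 13209368))) (a (b (a (l 13797792) (l 13467520)) (l 13189456)) (c (c (a (l 13246696) (l 13040760)) (l 13140840)) (l 13090368)))) (l 4)), by decide +kernel⟩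

def k13_pm_113 : ∃ t, chk3 f_pm_113 t 7 57 1 = true :=
  ⟨(a (a (a (a (b (b (c (l 14144384) (c (l 14108376) (l 14084536))) (l 13814048)) (l 13802776)) (l 13652224)) (c (l 13546696) (l 13429520))) (c (a (c (l 13587312) (l 13510680)) (c (a (l 13536952) (l 4)) (l 13442472))) (l 13431792))) (l 4)), by decide +kernel⟩

def k14_pm_113 : ∃ t, chk3 f_pm_113 t 7 29 1 = true :=
  ⟨(a (a (a (l 13729856) (l 4)) (l 4)) (l 4)), by decide +kernel⟩

def k15_pm_113 : ∃ t, chk3 f_pm_113 t 7 15 1 = true :=
  ⟨(l 4), by decide +kernel⟩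

theorem s16_pm_113 : ∃ t, chk3 f_pm_113 t 14 113 1 = true := ex3_a k10_pm_113 k11_pm_113

theorem s17_pm_113 : ∃ t, chk3 f_pm_113 t 14 56 1 = true := ex3_b k9_pm_113 s16_pm_113

theorem s18_pm_113 : ∃ t, chk3 f_pm_113 t 7 56 1 = true := ex3_a s17_pm_113 k12_pm_113

theorem s19_pm_113 : ∃ t, chk3 f_pm_113 t 7 28 1 = true := ex3_b s18_pm_113 k13_pm_113

theorem s20_pm_113 : ∃ t, chk3 f_pm_113 t 7 14 1 = true := ex3_b s19_pm_113 k14_pm_113

theorem s21_pm_113 : ∃ t, chk3 f_pm_113 t 7 7 1 = true := ex3_b s20_pm_113 k15_pm_113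

theorem s22_pm_113 : ∃ t, chk3 f_pm_113 t 7 3 1 = true := ex3_b k8_pm_113 s21_pm_113

theorem s23_pm_113 : ∃ t, chk3 f_pm_113 t 27 14 1 = true := ex3_b k5_pm_113 k6_pm_113

theorem s24_pm_113 : ∃ t, chk3 f_pm_113 t 13 14 1 = true := ex3_a k4_pm_113 s23_pm_113

theorem s25_pm_113 : ∃ t, chk3 f_pm_113 t 13 7 1 = true := ex3_b s24_pm_113 k7_pm_113

theorem s26_pm_113 : ∃ t, chk3 f_pm_113 t 6 7 1 = true := ex3_a k3_pm_113 s25_pm_113

theorem s27_pm_113 : ∃ t, chk3 f_pm_113 t 6 3 1 = true := ex3_b k2_pm_113 s26_pm_113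

theorem s28_pm_113 : ∃ t, chk3 f_pm_113 t 3 3 1 = true := ex3_a s27_pm_113 s22_pm_113

theorem s29_pm_113 : ∃ t, chk3 f_pm_113 t 1 3 1 = true := ex3_a k1_pm_113 s28_pm_113

theorem s30_pm_113 : ∃ t, chk3 f_pm_113 t 1 1 1 = true := ex3_b k0_pm_113 s29_pm_113

theorem c_pm_113 : CertNX 536870912 536870912 0 1230186008 1046898278 26843546 3 false true false .nn 1 1 3
    ndN1q1 ndN6q3 pcN1 Cut.none Ext.none :=
  certNX2 (fam := false) (s1 := true) (s2 := false) (a := 1) (b := 1) (c := 3) (cn := .nn) (n1 := ndN1q1) (n2 := ndN6q3) (pc := pcN1) (cut := Cut.none) (xt := Ext.none) (P1 := 536870912) (W1 := 536870912) (P2 := 0) (W2 := 1230186008) (P3 := 1046898278) (W3 := 26843546) (N0 := 3)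
    rfl (fun _ => rfl) s30_pm_113

noncomputable def f_pm_123 : ℕ → ℕ → ℕ → ℕ → Bool := onCell 1073741824 536870912 0 1230186008 1046898278 26843546
    (rowNX 3 2 false true false .npn 1 2 3 (qsf 536870912 536870912 0 1230186008 2) ndN1q1 ndN6q3 pcN2 Cut.none Ext.none)

def k0_pm_123 : ∃ t, chk3 f_pm_123 t 1 2 1 = true :=
  ⟨(a (a (b (a (b (a (l 16159392) (l 16220672)) (a (l 15691512) (l 15595504))) (b (a (l 15714224) (l 15140568)) (a (l 15389160) (l 14952808)))) (a (b (a (b (l 14907120) (l 14500160)) (a (l 14942296) (b (l 15128320) (l 14858712)))) (a (b (c (l 14336464) (b (l 14122264) (l 14014472))) (c (l 14023184) (a (l 13717088) (l 13933496)))) (c (b (l 14581968) (a (l 14211192) (l 14281648))) (b (l 14434424) (l 14135752))))) (b (a (b (l 15112296) (a (l 14920488) (l 14870616))) (b (l 14796112) (l 14632280))) (a (c (b (l 14635392) (l 14357280)) (l 14379544)) (l 14343104))))) (a (b (a (a (b (l 14728840) (l 14649528)) (b (l 14877384) (l 14835672))) (b (l 15565064) (l 15492080)))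 (a (a (b (l 14548552) (l 14415080)) (b (l 14755992) (l 14674704))) (b (l 15363760) (l 15206872)))) (b (a (b (l 16343824) (l 16264328)) (b (l 16721320) (l 16615696))) (a (b (l 16023000) (l 15721624)) (b (l 16340992) (l 16022624)))))) (a (b (a (b (l 16705232) (l 16609640)) (b (l 16720032) (l 16697352))) (a (b (l 16490120) (a (l 16242160) (l 16500336))) (b (l 16718296) (a (l 16729792) (l 16755512))))) (b (a (l 16688536) (l 16688536)) (a (l 16740592) (l 16740592))))), by decide +kernel⟩

def k1_pm_123 : ∃ t, chk3 f_pm_123 t 1 3 1 = true :=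
  ⟨(b (b (a (a (a (a (c (l 13571648) (b (c (l 13650976) (l 13576592)) (c (l 13360248) (l 13288200)))) (c (c (l 13818944) (a (l 13720448) (l 13820632))) (l 13676040))) (a (c (a (c (l 13966320) (l 13870808)) (l 13973976)) (l 13809648)) (l 13990392))) (a (a (a (l 14315992) (l 14623744)) (l 15076008)) (a (l 15487432) (l 15837728)))) (a (b (l 4) (l 4)) (l 4))) (a (a (a (a (c (l 13006528) (a (c (l 12844168) (b (l 12919152) (l 12625336))) (c (b (l 13086720) (l 12838832)) (l 12907984)))) (c (c (l 13302400) (a (l 13165208) (b (l 13373824) (l 4)))) (b (l 13205296) (l 13045672)))) (b (a (c (a (l 13278008) (l 13628632)) (l 13412840)) (l 13793160)) (l 4))) (l 4)) (l 4))) (a (a (l 4) (l 4)) (l 1))), by decide +kernel⟩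

theorem s2_pm_123 : ∃ t, chk3 f_pm_123 t 1 1 1 = true := ex3_b k0_pm_123 k1_pm_123

theorem c_pm_123 : CertNX 536870912 536870912 0 1230186008 1046898278 26843546 3 false true false .npn 1 2 3
    ndN1q1 ndN6q3 pcN2 Cut.none Ext.none :=
  certNX2 (fam := false) (s1 := true) (s2 := false) (a := 1) (b := 2) (c := 3) (cn := .npn) (n1 := ndN1q1) (n2 := ndN6q3) (pc := pcN2) (cut := Cut.none) (xt := Ext.none) (P1 := 536870912) (W1 := 536870912) (P2 := 0) (W2 := 1230186008) (P3 := 1046898278) (W3 := 26843546) (N0 := 3)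
    rfl (fun _ => rfl) s2_pm_123

noncomputable def f_pm_133 : ℕ → ℕ → ℕ → ℕ → Bool := onCell 536870912 536870912 0 1230186008 1046898278 26843546
    (rowNX 3 0 false true false .dn 1 3 3 (qsf 536870912 536870912 0 1230186008 3) ndN1q1 ndN6q3 pcN3 Cut.none Ext.none)

def k0_pm_133 : ∃ t, chk3 f_pm_133 t 1 1 1 = true :=
  ⟨(b (a (b (a (b (l 16721432) (l 1)) (l 1)) (l 1)) (l 1)) (l 1)), by decide +kernel⟩

theorem c_pm_133 : CertNX 536870912 536870912 0 1230186008 1046898278 26843546 3 false true false .dn 1 3 3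
    ndN1q1 ndN6q3 pcN3 Cut.none Ext.none :=
  certNX0 (fam := false) (s1 := true) (s2 := false) (a := 1) (b := 3) (c := 3) (cn := .dn) (n1 := ndN1q1) (n2 := ndN6q3) (pc := pcN3) (cut := Cut.none) (xt := Ext.none) (P1 := 536870912) (W1 := 536870912) (P2 := 0) (W2 := 1230186008) (P3 := 1046898278) (W3 := 26843546) (N0 := 3)
    rfl k0_pm_133

noncomputable def f_pm_202_a : ℕ → ℕ → ℕ → ℕ → Bool := onCell 0 420477299 0 536870912 1046898278 26843546
    (rowNX 3 1 false true false .pp 2 0 2 (qsf 0 420477299 1073741824 536870912 0) ndN1q2a ndN6q2 pcN0 Cut.none Ext.none)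

def k0_pm_202_a : ∃ t, chk3 f_pm_202_a t 2 8 2 = true :=
  ⟨(a (a (b (b (b (l 16108200) (b (c (l 16117464) (l 16140792)) (c (l 16046264) (l 16007120)))) (b (b (l 15673048) (c (a (a (c (l 15708648) (l 15704792)) (l 15753992)) (l 15826328)) (l 15795992))) (a (c (c (b (l 15539144) (l 15551888)) (l 15608848)) (l 15640312)) (l 15706512)))) (b (c (b (l 15500968) (l 15371440)) (b (c (l 15531256) (l 15375512)) (c (l 15392168) (l 15388256)))) (c (b (l 15106648) (b (l 15136200) (a (b (l 15022528) (l 14841464)) (l 15107776)))) (l 15150360)))) (b (b (b (l 16285360) (b (c (l 16386096) (l 16372392)) (c (l 16271768) (l 16238816)))) (b (c (l 15883848) (l 15974536)) (l 15864000))) (b (b (l 15730952) (c (l 15565032) (a (l 15417232) (l 15650656)))) (c (b (a (c (l 15366688) (l 15376976)) (l 15492336)) (c (b (l 15330920) (a (l 15211584) (l 15319488))) (l 15292920))) (b (l 15421368) (l 15273480)))))) (c (b (b (b (a (l 16168552) (l 15891952)) (b (a (l 16303880) (l 15933096)) (l 16062880))) (b (a (b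 (l 16443376) (l 16275440)) (l 16031864)) (a (l 16151168) (l 16500104)))) (b (a (l 15932368) (l 16287136)) (a (l 15571664) (l 15757832)))) (b (b (b (a (l 16106112) (b (l 15834320) (l 15809624))) (b (a (l 16305696) (l 15969664)) (a (l 16432400) (l 16057368)))) (b (a (l 16247304) (l 16163128)) (l 16207448))) (b (a (l 15896800) (l 16108336)) (l 15665712))))), by decide +kernel⟩

def k1_pm_202_a : ∃ t, chk3 f_pm_202_a t 3 8 2 = true :=
  ⟨(b (a (a (b (b (l 15570032) (b (c (b (l 15718448) (l 15694984)) (l 15692056)) (c (l 15754272) (a (l 15797992) (l 15683184))))) (b (c (b (l 15832088) (l 15808728)) (b (l 15607776) (l 15901736))) (b (l 16004520) (l 16125808)))) (b (b (l 15771032) (c (b (l 15715384) (l 15690528)) (b (l 15703496) (l 15686992)))) (a (b (c (l 15466192) (l 15649328)) (l 15667832)) (b (c (l 15674176) (l 15647720)) (l 15609992))))) (b (b (a (b (l 15747120) (c (l 15716088) (l 15668568))) (a (b (l 15564288) (l 15429176)) (l 15296216))) (a (c (b (b (l 15684040) (l 15664688))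 (l 15648960)) (b (l 15661888) (l 15643080))) (a (b (c (l 15465952) (l 15490896)) (c (l 15479584) (l 15469528))) (b (l 15303960) (l 15299032))))) (a (b (c (b (l 15635544) (l 15532456)) (l 15387792)) (l 15335520)) (a (b (c (b (l 15461616) (l 15437832)) (l 15397656)) (l 15361872)) (b (l 15275992) (l 15211048)))))) (a (b (a (c (l 16385176) (l 16146560)) (b (a (l 15912696) (l 15662152)) (l 15748392))) (a (b (l 16313352) (l 16179048)) (b (c (l 16189336) (l 16170096)) (l 16209968)))) (a (a (b (c (l 15583768) (b (l 15499712) (l 15544056))) (c (l 15620424) (l 15828608))) (b (c (l 15402496) (l 15358616)) (b (c (l 15376592) (l 15343208)) (l 15505096)))) (b (c (l 15188744) (a (l 15223776) (l 15073024))) (b (c (l 15067448) (l 15029232)) (a (c (l 15134360) (l 15103568)) (l 14902472))))))), by decide +kernel⟩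

def k2_pm_202_a : ∃ t, chk3 f_pm_202_a t 2 8 3 = true :=
  ⟨(b (b (b (a (c (b (l 16341424) (a (l 16096096) (l 16235200))) (b (c (a (l 16350440) (l 16330280)) (a (l 16207752) (l 16240704))) (a (l 16239728) (l 16441736)))) (c (b (a (l 16078496) (l 15807048)) (a (l 15977176) (b (l 15830616) (l 15852440)))) (b (a (c (l 16023296) (b (l 16027960) (l 16086896))) (c (b (l 15773664) (l 15789224)) (b (l 15615712) (l 15781056)))) (a (l 16178296) (c (l 15849056) (l 15835552)))))) (a (c (a (l 15946432) (l 16097856)) (l 16065672)) (c (b (a (l 16307880) (l 15964528)) (l 16203224)) (l 15997376)))) (a (a (a (c (b (l 15703424) (l 15662256)) (l 15740576)) (l 15836200)) (c (l 15936032) (l 16023304))) (a (c (l 16165432) (l 16341280)) (c (l 16193896) (l 16327416))))) (a (b (a (b (l 15400880) (l 15359056)) (b (l 15744856) (l 15557304))) (a (l 15107616) (b (l 15385336) (l 15234032)))) (b (a (l 15956272) (l 16303024)) (l 15663192)))), by decide +kernel⟩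

def k3_pm_202_a : ∃ t, chk3 f_pm_202_a t 3 8 3 = true :=
  ⟨(b (a (b (b (b (c (l 15749152) (c (a (l 15722424) (l 15736080)) (c (l 15471296) (l 15696272)))) (c (b (l 15718488) (a (l 15695368) (l 15707904))) (a (l 15685800) (l 15698408)))) (c (a (b (l 15534504) (l 15727040)) (l 15632040)) (a (l 15696720) (l 15643944)))) (a (b (c (l 15827608) (l 15802784)) (l 15995816)) (b (l 15450856) (a (l 15659152) (l 15535112))))) (b (b (a (c (b (l 15706000) (b (l 15678240) (l 15518048))) (b (c (b (l 15697248) (l 15679400)) (b (c (l 15688256) (l 15682512)) (l 15669800))) (c (l 15657976) (l 15643600)))) (b (c (l 15375632) (c (l 15353624) (l 15171504))) (c (a (b (l 15502680) (l 15490320)) (l 15257848)) (c (l 15228776) (l 15337944))))) (a (c (b (l 15564592) (l 15615496)) (l 15600312)) (c (a (b (l 15473856) (l 15439288)) (l 15260936)) (l 15220080)))) (a (c (l 15520472) (l 15492624)) (a (c (l 15336504) (l 15305768)) (l 15165208))))) (a (b (a (l 16318120) (l 15674464)) (a (l 16430896) (l 16261688)))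 (a (b (a (l 15502576) (l 15314200)) (a (l 15804384) (l 15398024))) (b (l 15092864) (a (l 15078360) (l 14870256)))))), by decide +kernel⟩

def k4_pm_202_a : ∃ t, chk3 f_pm_202_a t 1 9 1 = true :=
  ⟨(a (b (b (a (c (b (a (c (a (b (l 14981376) (l 15063496)) (l 15100368)) (l 14982808)) (c (a (l 15174880) (l 15267904)) (l 15205904))) (a (a (l 15223152) (l 15242984)) (l 15321408))) (a (b (l 14996568) (l 15177064)) (b (a (l 15103984) (l 15201072)) (l 15270032)))) (b (a (l 15429112) (l 15767464)) (a (a (a (l 15346800) (l 15384784)) (l 15463456)) (l 15687624)))) (a (c (a (b (a (b (l 15387304) (l 15521552)) (l 15468208)) (a (b (l 15660600) (l 15819360)) (l 15706728))) (a (l 15513552) (l 15615672))) (a (a (b (l 15408760) (l 15706760)) (l 15556424)) (l 15566872))) (a (c (b (l 15557008) (l 15733112)) (l 15562680)) (l 15726384)))) (b (b (a (a (a (c (b (l 16007680) (l 16207160)) (l 15975872)) (c (b (l 15904520) (b (l 16009848) (l 16069648))) (b (l 15874992) (l 16018208)))) (c (b (l 15884840)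 (l 15994248)) (l 15911744))) (a (b (l 15857392) (l 15763576)) (l 15912008))) (a (a (c (l 16186896) (l 16077928)) (b (l 16033784) (l 16093224))) (l 16017112))) (a (b (a (l 16413624) (c (l 16178040) (l 16164320))) (a (l 16496640) (c (l 16146456) (l 16196736)))) (a (l 16155720) (l 16110432))))) (b (a (b (c (a (l 16102800) (l 16491320)) (a (l 16124104) (l 16595208))) (a (l 15962792) (l 16379720))) (a (b (b (a (l 16002760) (l 15694664)) (l 15978648)) (a (l 16564264) (l 16171232))) (b (a (c (l 15330192) (l 15279472)) (c (l 14852136) (l 14849360))) (l 15290904)))) (b (a (a (l 15994144) (l 16003176)) (a (a (l 16510848) (l 16504888)) (a (l 16071496) (l 15571384)))) (a (l 16111680) (a (a (l 16249320) (l 16542560)) (l 15931280)))))), by decide +kernel⟩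

def k5_pm_202_a : ∃ t, chk3 f_pm_202_a t 1 5 1 = true :=
  ⟨(b (a (b (b (a (a (a (b (l 16679728) (l 16688176)) (l 16660144)) (a (l 16533312) (c (l 16400144) (l 16387576)))) (a (b (l 16260168) (c (l 16372056) (l 16362648))) (l 16235240))) (a (a (a (l 16611112) (a (l 16769736) (l 16642528))) (l 16701992)) (c (a (b (l 16350088) (l 16530800)) (l 16405608)) (a (a (l 16521744) (l 16388768)) (l 16407536))))) (a (a (b (l 16383768) (l 16572680)) (b (a (l 16749880) (l 16766568)) (a (l 16760336) (l 16754632)))) (a (b (c (l 16636056) (l 16620864)) (l 16734600)) (b (c (l 16486464) (l 16547296)) (l 16606464))))) (a (b (b (l 16170928) (b (l 16323040) (l 16337992))) (b (l 16368016) (a (l 16567056) (l 16543936)))) (a (b (l 16166064) (l 16515224)) (b (a (l 16522232) (l 16172840)) (l 16646216))))) (a (a (b (a (b (l 16608336) (c (l 16595240) (l 16633736))) (a (l 16718808) (l 16770256))) (b (a (a (c (l 16774552) (l 16774464)) (l 16776792)) (l 16776904)) (c (l 16777120) (l 16777112)))) (b (a (b (l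 16773952) (l 16774784)) (b (l 16704480) (l 16763840))) (l 16776112))) (a (b (b (a (l 16675464) (l 16635184)) (l 16747824)) (l 16772672)) (b (a (b (l 16664472) (l 16745600)) (l 16477816)) (a (l 16707608) (l 16393192)))))), by decide +kernel⟩

def k6_pm_202_a : ∃ t, chk3 f_pm_202_a t 1 3 1 = true :=
  ⟨(b (a (a (b (c (b (l 16777120) (l 16777120)) (b (l 16777112) (l 16777112))) (c (b (l 16777120) (a (l 16777208) (l 16777048))) (b (l 16777112) (l 122037468167)))) (b (l 16776040) (b (l 16776040) (c (l 16776064) (l 16776024))))) (a (b (l 16772600) (b (l 16772600) (l 16772600))) (a (b (l 16707520) (l 16707520)) (b (l 16393072) (l 16393072))))) (a (l 2) (a (b (l 16772600) (l 2)) (a (b (l 16707520) (l 2)) (b (l 16393072) (l 16393072)))))), by decide +kernel⟩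

theorem s7_pm_202_a : ∃ t, chk3 f_pm_202_a t 1 8 3 = true := ex3_a k2_pm_202_a k3_pm_202_a

theorem s8_pm_202_a : ∃ t, chk3 f_pm_202_a t 1 8 2 = true := ex3_a k0_pm_202_a k1_pm_202_a

theorem s9_pm_202_a : ∃ t, chk3 f_pm_202_a t 1 8 1 = true := ex3_c s8_pm_202_a s7_pm_202_a

theorem s10_pm_202_a : ∃ t, chk3 f_pm_202_a t 1 4 1 = true := ex3_b s9_pm_202_a k4_pm_202_a

theorem s11_pm_202_a : ∃ t, chk3 f_pm_202_a t 1 2 1 = true := ex3_b s10_pm_202_a k5_pm_202_a

theorem s12_pm_202_a : ∃ t, chk3 f_pm_202_a t 1 1 1 = true := ex3_b s11_pm_202_a k6_pm_202_a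

theorem c_pm_202_a : CertNX 0 420477299 1073741824 536870912 1046898278 26843546 3 false true false .pp 2 0 2
    ndN1q2a ndN6q2 pcN0 Cut.none Ext.none :=
  certNX1 (fam := false) (s1 := true) (s2 := false) (a := 2) (b := 0) (c := 2) (cn := .pp) (n1 := ndN1q2a) (n2 := ndN6q2) (pc := pcN0) (cut := Cut.none) (xt := Ext.none) (P1 := 0) (W1 := 420477299) (P2 := 1073741824) (W2 := 536870912) (P3 := 1046898278) (W3 := 26843546) (N0 := 3)
    rfl (fun _ => rfl) s12_pm_202_a

noncomputable def f_pm_202_b : ℕ → ℕ → ℕ → ℕ → Bool := onCell 0 536870912 1073741824 536870912 1046898278 26843546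
    (rowNX 3 2 false true false .pp 2 0 2 (qsf 1239849684 370763052 1073741824 536870912 0) ndN1q2b ndN6q2 pcN0 Cut.none Ext.none)

def k0_pm_202_b : ∃ t, chk3 f_pm_202_b t 4 4 1 = true :=
  ⟨(l 1), by decide +kernel⟩

def k1_pm_202_b : ∃ t, chk3 f_pm_202_b t 4 10 1 = true :=
  ⟨(a (a (b (b (l 1) (a (a (a (a (c (l 16395520) (l 592200823655)) (l 1)) (l 1)) (l 1)) (l 1))) (a (a (c (b (l 15891704) (l 15549616)) (c (a (l 15729248) (b (l 15915112) (l 15559960))) (a (c (l 15603880) (l 312489803943)) (l 15576528)))) (c (a (b (l 15817984) (l 15581408)) (a (c (l 15714872) (l 15748568)) (b (l 16002344) (c (l 15619232) (l 15341416))))) (c (a (l 15610968) (l 268466500391)) (b (l 16071896) (l 15580896))))) (a (b (a (c (l 15874960) (l 16080328)) (l 1)) (c (c (a (l 15600480) (c (l 15592616) (l 15545744))) (a (c (l 15428120) (l 15585560)) (l 15614912))) (c (l 15631504) (l 15633624)))) (b (l 1) (c (c (l 15437592) (l 15669448)) (l 15603104)))))) (b (l 1) (b (l 1) (a (c (c (l 15745024) (l 244844186375))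 (l 15771792)) (l 1))))) (l 1)), by decide +kernel⟩

def k2_pm_202_b : ∃ t, chk3 f_pm_202_b t 8 11 1 = true :=
  ⟨(a (a (c (a (b (b (l 15102184) (c (l 14679736) (a (l 14641880) (l 14695792)))) (c (l 14423736) (a (l 14379888) (l 14428520)))) (b (c (a (a (l 14958952) (c (l 14989448) (l 14908688))) (c (l 14886784) (l 14956728))) (a (c (a (l 14859912) (l 14939640)) (l 14909768)) (c (l 14921408) (l 14688112)))) (c (a (l 14327864) (l 14500264)) (a (l 14443208) (l 14428056))))) (c (a (b (a (l 14846904) (b (l 15099720) (a (l 14658760) (l 14667304)))) (a (l 14363488) (c (l 14401784) (l 14375608)))) (b (a (c (l 14838976) (l 14872856)) (l 14901264)) (a (l 14389480) (l 14408248)))) (b (a (a (a (l 14828464) (c (l 14821992) (l 14828168))) (c (l 14849480) (l 14845864))) (l 14889616)) (a (a (c (l 14343536) (a (l 14323320) (l 14330288))) (l 14348184)) (l 14388328))))) (c (b (a (c (a (l 14944656) (c (l 14936544) (l 14925288))) (c (a (l 14888216) (l 14935656)) (l 14932408))) (c (c (l 14709568) (l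 14977240)) (l 15001328))) (a (c (a (l 14474064) (l 14463392)) (l 14450472)) (c (l 14499520) (l 14523224)))) (b (c (a (l 14948704) (l 15012240)) (l 14963264)) (c (l 14490632) (l 14466920))))) (c (a (b (c (l 15027768) (a (l 14994376) (l 15043984))) (c (a (l 14581088) (l 14651552)) (l 14635440))) (b (c (a (l 267928517911) (b (l 1) (c (a (l 15073480) (l 15111264)) (l 15085120)))) (l 15075320)) (c (a (c (l 14751224) (b (l 14771824) (l 14742216))) (c (a (l 14823776) (l 14864432)) (l 14820776))) (a (l 14720568) (l 14790344))))) (b (a (l 14981952) (l 15098968)) (a (l 14597896) (l 14711776))))), by decide +kernel⟩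

def k3_pm_202_b : ∃ t, chk3 f_pm_202_b t 9 11 1 = true :=
  ⟨(a (a (a (b (b (l 1) (c (c (l 14978064) (l 15181720)) (l 15162480))) (c (c (b (l 14994152) (l 14968464)) (l 14951048)) (l 14887088))) (b (l 1) (c (b (l 15210864) (l 15192992)) (l 15133648)))) (b (l 1) (c (a (b (l 15453504) (l 15469720)) (l 346849627927)) (a (l 15411200) (l 15724152))))) (a (b (l 1) (a (c (l 310879986087) (l 15903688)) (l 1))) (l 1))), by decide +kernel⟩

def k4_pm_202_b : ∃ t, chk3 f_pm_202_b t 8 6 1 = true :=
  ⟨(a (c (a (a (b (c (l 14322672) (l 14304528)) (a (l 14140752) (l 14172752))) (b (c (a (l 14402480) (l 14407376)) (a (l 14347912) (l 14332232))) (c (a (l 14116168) (l 14289048)) (a (l 14200256) (l 14212552))))) (a (b (c (b (l 14410680) (a (l 14328704) (l 14335816))) (l 14355680)) (c (a (l 14261832) (l 14298872)) (l 14251832))) (b (c (l 14415440) (l 14421456)) (c (l 14342904) (l 14317144))))) (c (a (a (a (l 14172784) (b (l 14184768) (l 14129784))) (b (l 14305800) (l 14166152))) (b (l 14388352)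 (a (l 14182504) (a (l 14288680) (l 14303480))))) (a (a (a (c (l 14124072) (b (l 14224536) (l 14078216))) (b (l 14248912) (l 14104104))) (l 14210216)) (b (l 14372832) (l 14202024))))) (c (b (a (c (b (l 14561184) (l 14500336)) (a (l 14507720) (a (l 14574080) (l 14573720)))) (a (c (b (l 14721368) (c (l 14665648) (l 14654256))) (l 14637480)) (c (c (a (b (l 14774384) (l 14732736)) (b (l 14808576) (l 14767384))) (l 14743784)) (l 14724544)))) (a (c (c (l 14492304) (a (l 14431904) (l 14530856))) (a (c (l 14420600) (b (l 14432456) (l 14395096))) (c (b (l 14539632) (l 14488840)) (l 14470584)))) (c (a (c (l 14624704) (a (l 14534120) (l 14601896))) (a (c (a (l 14669880) (l 14679144)) (l 14639032)) (a (l 14682048) (l 14700496)))) (l 14589280)))) (a (b (l 14388072) (c (l 14401696) (l 14356144))) (b (b (l 14624632) (l 14607968)) (l 14531728))))), by decide +kernel⟩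

def k5_pm_202_b : ∃ t, chk3 f_pm_202_b t 9 6 1 = true :=
  ⟨(b (a (a (a (c (b (c (l 14948056) (l 14909744)) (l 14904368)) (l 14858024)) (b (c (l 15206120) (l 15144192)) (l 15215592))) (b (c (l 15492416) (l 15664328)) (a (c (l 15429336) (l 15577312)) (b (l 15976696) (c (l 16035224) (l 16009136)))))) (a (a (b (c (l 16169424) (l 16256616)) (c (b (a (l 16300464) (l 16454784)) (l 16157416)) (a (l 16283504) (l 16357232)))) (b (l 16474176) (l 16469648))) (b (b (l 16588784) (l 16629208)) (l 16451056)))) (a (a (c (a (b (l 14882320) (l 14801728)) (b (l 15241544) (l 15068656))) (b (a (l 14815360) (l 15187536)) (l 14867120))) (b (c (a (l 15578016) (l 15868904)) (a (l 15535856) (l 15836984))) (c (l 15422456) (l 15374872)))) (a (a (c (b (l 16124656) (l 15733600)) (l 15771872)) (l 15992184)) (l 16022536)))), by decide +kernel⟩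

def k6_pm_202_b : ∃ t, chk3 f_pm_202_b t 4 7 1 = true :=
  ⟨(b (a (a (c (a (a (c (l 14092856) (l 176792342855)) (a (c (l 14136224) (l 14095064)) (c (l 14171464) (l 14136032)))) (c (a (b (l 14231616) (l 14213864)) (l 14312840)) (a (l 14201968) (c (l 14295472) (l 14070488))))) (a (c (a (a (l 13986528) (b (l 14020416) (l 14012656))) (l 13998816)) (a (c (a (l 13951936) (l 13991112)) (a (c (l 13936272) (l 204709380567)) (b (l 13967232) (l 13953184)))) (a (c (c (l 14039632) (l 14028872)) (l 14007016)) (l 14061240)))) (c (a (c (l 14179464) (a (l 188603690151) (l 14176904))) (c (a (l 181624574215) (l 14175120)) (l 14224088))) (l 14156656)))) (c (c (a (c (l 14447776) (a (l 14392512) (l 14490440))) (a (c (l 14527600) (a (l 160687147463) (l 14542776))) (c (a (b (l 14619800) (l 14607344)) (l 14632208)) (l 14587768)))) (a (c (a (l 14387288) (a (l 167129449479) (l 14451656))) (a (a (l 14132632) (l 14358888)) (l 14405128))) (l 14522944))) (a (l 14317416) (l 14463752)))) (b (a (a (c (a (l 14682968)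 (l 14853696)) (a (l 14609352) (l 14786088))) (b (c (l 15181184) (l 15125128)) (l 15032648))) (a (c (l 15454264) (l 15407784)) (l 15610704))) (b (a (a (c (l 14646144) (l 14577656)) (l 14923328)) (a (l 15253360) (l 15525416))) (a (l 3) (l 15126552))))) (l 3)), by decide +kernel⟩

def k7_pm_202_b : ∃ t, chk3 f_pm_202_b t 5 1 1 = true :=
  ⟨(b (l 1) (b (b (a (a (b (a (l 237330229383) (l 1)) (l 343629910039)) (b (l 1) (l 16412104))) (l 1)) (a (a (a (l 16086120) (l 15937920)) (b (l 16398384) (c (l 16087392) (l 16132712)))) (a (b (l 16643944) (b (l 16611824) (a (l 16500096) (l 16676208)))) (a (a (b (l 1) (l 16775136)) (l 1)) (l 1))))) (b (a (a (b (a (l 15759376) (l 15909432)) (l 15802208)) (b (l 16192592) (l 16167928))) (a (a (l 16453032) (c (l 16632424) (l 16627328))) (a (a (l 16741304) (l 248604680951)) (l 230351172951)))) (b (a (a (l 3) (l 16158400)) (a (l 16498912) (a (l 16732648) (l 16777216)))) (l 3))))), by decide +kernel⟩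

def k8_pm_202_b : ∃ t, chk3 f_pm_202_b t 3 1 1 = true :=
  ⟨(b (l 1) (a (b (l 1) (a (b (a (c (l 16776944) (l 16776928)) (b (l 1) (c (l 16777056) (l 16777048)))) (a (c (l 16777216) (l 16777216)) (c (l 16777040) (l 16777032)))) (b (l 1) (a (c (l 189548939287) (l 16776928)) (b (l 1) (c (l 16777056) (l 16777048))))))) (l 1))), by decide +kernel⟩

theorem s9_pm_202_b : ∃ t, chk3 f_pm_202_b t 4 6 1 = true := ex3_a k4_pm_202_b k5_pm_202_b

theorem s10_pm_202_b : ∃ t, chk3 f_pm_202_b t 4 3 1 = true := ex3_b s9_pm_202_b k6_pm_202_b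

theorem s11_pm_202_b : ∃ t, chk3 f_pm_202_b t 4 11 1 = true := ex3_a k2_pm_202_b k3_pm_202_b

theorem s12_pm_202_b : ∃ t, chk3 f_pm_202_b t 4 5 1 = true := ex3_b k1_pm_202_b s11_pm_202_b

theorem s13_pm_202_b : ∃ t, chk3 f_pm_202_b t 4 2 1 = true := ex3_b k0_pm_202_b s12_pm_202_b

theorem s14_pm_202_b : ∃ t, chk3 f_pm_202_b t 4 1 1 = true := ex3_b s13_pm_202_b s10_pm_202_b

theorem s15_pm_202_b : ∃ t, chk3 f_pm_202_b t 2 1 1 = true := ex3_a s14_pm_202_b k7_pm_202_b

theorem s16_pm_202_b : ∃ t, chk3 f_pm_202_b t 1 1 1 = true := ex3_a s15_pm_202_b k8_pm_202_b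

theorem c_pm_202_b : CertNX 1239849684 370763052 1073741824 536870912 1046898278 26843546 3 false true false .pp 2 0 2
    ndN1q2b ndN6q2 pcN0 Cut.none Ext.none :=
  certNX2 (fam := false) (s1 := true) (s2 := false) (a := 2) (b := 0) (c := 2) (cn := .pp) (n1 := ndN1q2b) (n2 := ndN6q2) (pc := pcN0) (cut := Cut.none) (xt := Ext.none) (P1 := 1239849684) (W1 := 370763052) (P2 := 1073741824) (W2 := 536870912) (P3 := 1046898278) (W3 := 26843546) (N0 := 3)
    rfl (fun _ => rfl) s16_pm_202_b

noncomputable def f_pm_203_a : ℕ → ℕ → ℕ → ℕ → Bool := onCell 0 420477299 0 1230186008 1046898278 26843546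
    (rowNX 3 0 false true false .up 2 0 3 (qsf 0 420477299 0 1230186008 0) ndN1q2a ndN6q3 pcN0 Cut.none Ext.none)

def k0_pm_203_a : ∃ t, chk3 f_pm_203_a t 1 1 1 = true :=
  ⟨(b (l 2) (b (l 2) (b (b (l 2) (a (a (a (l 3) (c (l 185925107623) (l 192367558551))) (a (b (l 2) (c (l 16776536) (l 16776512))) (c (l 191226703159) (l 195521670503)))) (b (l 2) (a (a (c (l 16773896) (l 16773776)) (l 2)) (l 2))))) (a (b (a (a (l 3) (c (b (l 16777048) (l 16777048)) (b (l 16777040) (l 16777040)))) (c (c (a (l 16776544) (l 16775560)) (a (l 16776528) (l 16775536))) (c (a (l 16776520) (l 16775504)) (a (l 16776504) (l 16775472))))) (c (a (b (a (l 16777208) (l 16777048)) (a (l 16777208) (l 16777048))) (c (b (l 16776072) (l 16776072)) (b (l 16776056) (l 16776056)))) (a (b (a (l 16777208) (l 16777040)) (l 123648080903)) (c (b (l 16776032) (l 16776032)) (l 16776016))))) (a (b (a (b (c (l 16773896) (l 16773776)) (l 16773840)) (l 16771280)) (l 16772600)) (a (b (l 16707520) (l 16707520)) (b (l 16393072)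 (l 16393072)))))))), by decide +kernel⟩

theorem c_pm_203_a : CertNX 0 420477299 0 1230186008 1046898278 26843546 3 false true false .up 2 0 3
    ndN1q2a ndN6q3 pcN0 Cut.none Ext.none :=
  certNX0 (fam := false) (s1 := true) (s2 := false) (a := 2) (b := 0) (c := 3) (cn := .up) (n1 := ndN1q2a) (n2 := ndN6q3) (pc := pcN0) (cut := Cut.none) (xt := Ext.none) (P1 := 0) (W1 := 420477299) (P2 := 0) (W2 := 1230186008) (P3 := 1046898278) (W3 := 26843546) (N0 := 3)
    rfl k0_pm_203_a

noncomputable def f_pm_203_b : ℕ → ℕ → ℕ → ℕ → Bool := onCell 1239849684 370763052 0 1230186008 1046898278 26843546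
    (rowNX 3 0 false true false .up 2 0 3 (qsf 1239849684 370763052 0 1230186008 0) ndN1q2b ndN6q3 pcN0 Cut.none Ext.none)

def k0_pm_203_b : ∃ t, chk3 f_pm_203_b t 1 1 1 = true :=
  ⟨(b (l 3) (b (l 3) (a (b (l 3) (b (l 3) (l 3))) (l 3)))), by decide +kernel⟩

theorem c_pm_203_b : CertNX 1239849684 370763052 0 1230186008 1046898278 26843546 3 false true false .up 2 0 3
    ndN1q2b ndN6q3 pcN0 Cut.none Ext.none :=
  certNX0 (fam := false) (s1 := true) (s2 := false) (a := 2) (b := 0) (c := 3) (cn := .up) (n1 := ndN1q2b) (n2 := ndN6q3) (pc := pcN0) (cut := Cut.none) (xt := Ext.none) (P1 := 1239849684) (W1 := 370763052) (P2 := 0) (W2 := 1230186008) (P3 := 1046898278) (W3 := 26843546) (N0 := 3)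
    rfl k0_pm_203_b

noncomputable def f_pm_213_a : ℕ → ℕ → ℕ → ℕ → Bool := onCell 0 420477299 0 1230186008 1046898278 26843546
    (rowNX 3 0 false true false .pnn 2 1 3 (qsf 0 420477299 0 1230186008 1) ndN1q2a ndN6q3 pcN1 Cut.none Ext.none)

def k0_pm_213_a : ∃ t, chk3 f_pm_213_a t 2 1 1 = true :=
  ⟨(b (l 3) (b (b (l 3) (a (l 3) (b (l 3) (a (l 3) (c (l 199883746615) (l 220284840999)))))) (b (a (b (l 3) (a (l 3) (c (l 185925107623) (l 192367558551)))) (b (a (c (l 165524010727) (l 195051910839)) (c (b (l 16775544) (l 16775544)) (b (l 16775488) (l 16775488)))) (c (a (b (l 16776536) (l 16776536)) (b (l 16775544) (l 16775544))) (a (b (l 16776512) (l 16776512)) (b (l 16775488) (l 16775488)))))) (b (l 1) (l 1))))), by decide +kernel⟩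

def k1_pm_213_a : ∃ t, chk3 f_pm_213_a t 3 2 1 = true :=
  ⟨(b (a (l 3) (l 3)) (a (b (l 3) (a (l 3) (b (l 3) (l 554218550103)))) (b (a (l 3) (b (a (l 3) (b (a (l 3) (c (l 371144989575) (l 392082884695))) (a (c (l 366313167399) (l 388324819623)) (c (b (l 212768162631) (l 16398664)) (l 236390006951))))) (a (b (a (l 3) (c (l 367386879367) (l 382956141879))) (a (c (l 350743824343) (l 363091857495)) (c (b (l 16483752) (l 16461368)) (b (l 16478880) (l 16454200))))) (b (c (a (l 198809386391) (l 16364624)) (a (l 16421392) (l 16325952))) (c (a (l 16410392) (l 16328176)) (l 16349360)))))) (a (b (a (l 3) (b (a (l 3) (l 467781878775)) (c (l 249275455559) (l 16600504)))) (a (c (b (l 313163359303) (l 16766504)) (b (l 317995195447) (l 16766008))) (c (l 16613400) (l 16630272)))) (c (b (a (b (l 194514298327) (l 16516016)) (b (a (l 16391056) (l 16298344)) (l 16331352))) (a (l 16500840) (l 16311512))) (b (a (b (l 190756175751) (l 16511624)) (b (a (l 16383784) (l 16279272)) (l 16315680))) (a (l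 16489296) (l 16290016)))))))), by decide +kernel⟩

def k2_pm_213_a : ∃ t, chk3 f_pm_213_a t 3 3 1 = true :=
  ⟨(b (b (a (a (b (l 3) (l 364703114775)) (b (a (l 365239982039) (l 244444010279)) (c (l 16771440) (l 16771240)))) (a (b (a (c (l 16766280) (l 16765840)) (c (l 16649824) (l 16644944))) (a (l 16766120) (l 16647768))) (b (a (c (l 16493752) (l 16482448)) (l 16271512)) (a (l 16489904) (b (l 16297088) (l 16298752)))))) (a (b (a (c (l 189146324295) (l 191293807719)) (c (l 16771400) (l 16771200))) (a (c (l 16773896) (l 16773776)) (c (l 16771384) (l 16771176)))) (a (c (b (l 16708760) (a (l 16766240) (l 16649936))) (b (l 16706352) (a (l 16765848) (l 16645456)))) (b (c (l 16399768) (l 16386472)) (l 16393072))))) (b (a (b (b (a (l 16773840) (l 16771280)) (c (a (l 16773896) (l 16771384)) (a (l 16773776) (l 16771176)))) (b (c (a (l 16773896) (l 16771384)) (a (l 16773776) (l 16771176))) (a (c (l 16773896) (l 16773776)) (l 16771280)))) (a (b (c (l 16708728) (l 16706320)) (l 16707520))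 (l 16372104))) (a (a (b (b (c (l 16773896) (l 16773776)) (l 1)) (l 1)) (l 16771280)) (a (b (l 16707520) (l 1)) (b (l 16393072) (l 16393072)))))), by decide +kernel⟩

theorem s3_pm_213_a : ∃ t, chk3 f_pm_213_a t 3 1 1 = true := ex3_b k1_pm_213_a k2_pm_213_a

theorem s4_pm_213_a : ∃ t, chk3 f_pm_213_a t 1 1 1 = true := ex3_a k0_pm_213_a s3_pm_213_a

theorem c_pm_213_a : CertNX 0 420477299 0 1230186008 1046898278 26843546 3 false true false .pnn 2 1 3
    ndN1q2a ndN6q3 pcN1 Cut.none Ext.none :=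
  certNX0 (fam := false) (s1 := true) (s2 := false) (a := 2) (b := 1) (c := 3) (cn := .pnn) (n1 := ndN1q2a) (n2 := ndN6q3) (pc := pcN1) (cut := Cut.none) (xt := Ext.none) (P1 := 0) (W1 := 420477299) (P2 := 0) (W2 := 1230186008) (P3 := 1046898278) (W3 := 26843546) (N0 := 3)
    rfl s4_pm_213_a

noncomputable def f_pm_213_b : ℕ → ℕ → ℕ → ℕ → Bool := onCell 1239849684 370763052 0 1230186008 1046898278 26843546
    (rowNX 3 0 false true false .pnn 2 1 3 (qsf 1239849684 370763052 0 1230186008 1) ndN1q2b ndN6q3 pcN1 Cut.none Ext.none)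

def k0_pm_213_b : ∃ t, chk3 f_pm_213_b t 1 1 1 = true :=
  ⟨(b (l 3) (b (l 3) (b (l 3) (l 1)))), by decide +kernel⟩

theorem c_pm_213_b : CertNX 1239849684 370763052 0 1230186008 1046898278 26843546 3 false true false .pnn 2 1 3
    ndN1q2b ndN6q3 pcN1 Cut.none Ext.none :=
  certNX0 (fam := false) (s1 := true) (s2 := false) (a := 2) (b := 1) (c := 3) (cn := .pnn) (n1 := ndN1q2b) (n2 := ndN6q3) (pc := pcN1) (cut := Cut.none) (xt := Ext.none) (P1 := 1239849684) (W1 := 370763052) (P2 := 0) (W2 := 1230186008) (P3 := 1046898278) (W3 := 26843546) (N0 := 3)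
    rfl k0_pm_213_b

noncomputable def f_pm_303 : ℕ → ℕ → ℕ → ℕ → Bool := onCell 1610612736 469762048 0 1230186008 1046898278 26843546
    (rowNX 3 0 false true false .npn 3 0 3 (qsf 1610612736 469762048 0 1230186008 0) ndN1q3 ndN6q3 pcN0 Cut.none Ext.none)

def k0_pm_303 : ∃ t, chk3 f_pm_303 t 1 1 1 = true :=
  ⟨(b (l 3) (b (l 3) (a (l 3) (l 3)))), by decide +kernel⟩

theorem c_pm_303 : CertNX 1610612736 469762048 0 1230186008 1046898278 26843546 3 false true false .npn 3 0 3
    ndN1q3 ndN6q3 pcN0 Cut.none Ext.none :=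
  certNX0 (fam := false) (s1 := true) (s2 := false) (a := 3) (b := 0) (c := 3) (cn := .npn) (n1 := ndN1q3) (n2 := ndN6q3) (pc := pcN0) (cut := Cut.none) (xt := Ext.none) (P1 := 1610612736) (W1 := 469762048) (P2 := 0) (W2 := 1230186008) (P3 := 1046898278) (W3 := 26843546) (N0 := 3)
    rfl k0_pm_303

noncomputable def f_pm_313 : ℕ → ℕ → ℕ → ℕ → Bool := onCell 1610612736 469762048 0 1230186008 1046898278 26843546
    (rowNX 3 0 false true false .dn 3 1 3 (qsf 1610612736 469762048 0 1230186008 1) ndN1q3 ndN6q3 pcN1 Cut.none Ext.none)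

def k0_pm_313 : ∃ t, chk3 f_pm_313 t 1 1 1 = true :=
  ⟨(b (l 3) (l 1)), by decide +kernel⟩

theorem c_pm_313 : CertNX 1610612736 469762048 0 1230186008 1046898278 26843546 3 false true false .dn 3 1 3
    ndN1q3 ndN6q3 pcN1 Cut.none Ext.none :=
  certNX0 (fam := false) (s1 := true) (s2 := false) (a := 3) (b := 1) (c := 3) (cn := .dn) (n1 := ndN1q3) (n2 := ndN6q3) (pc := pcN1) (cut := Cut.none) (xt := Ext.none) (P1 := 1610612736) (W1 := 469762048) (P2 := 0) (W2 := 1230186008) (P3 := 1046898278) (W3 := 26843546) (N0 := 3)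
    rfl k0_pm_313

noncomputable def f_mm_001 : ℕ → ℕ → ℕ → ℕ → Bool := onCell 67108864 469762048 536870912 469762048 1046898278 26843546
    (rowNX 3 0 false false false .up 0 0 1 (qsf 67108864 469762048 536870912 469762048 0) ndN1q0 ndN6q1 pcN0 Cut.none Ext.none)

def k0_mm_001 : ∃ t, chk3 f_mm_001 t 1 1 1 = true :=
  ⟨(l 3), by decide +kernel⟩

theorem c_mm_001 : CertNX 67108864 469762048 536870912 469762048 1046898278 26843546 3 false false false .up 0 0 1
    ndN1q0 ndN6q1 pcN0 Cut.none Ext.none :=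
  certNX0 (fam := false) (s1 := false) (s2 := false) (a := 0) (b := 0) (c := 1) (cn := .up) (n1 := ndN1q0) (n2 := ndN6q1) (pc := pcN0) (cut := Cut.none) (xt := Ext.none) (P1 := 67108864) (W1 := 469762048) (P2 := 536870912) (W2 := 469762048) (P3 := 1046898278) (W3 := 26843546) (N0 := 3)
    rfl k0_mm_001

noncomputable def f_mm_011 : ℕ → ℕ → ℕ → ℕ → Bool := onCell 67108864 469762048 536870912 469762048 1046898278 26843546
    (rowNX 3 0 false false false .pnn 0 1 1 (qsf 67108864 469762048 536870912 469762048 1) ndN1q0 ndN6q1 pcN1 Cut.none Ext.none)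

def k0_mm_011 : ∃ t, chk3 f_mm_011 t 1 1 1 = true :=
  ⟨(l 3), by decide +kernel⟩

theorem c_mm_011 : CertNX 67108864 469762048 536870912 469762048 1046898278 26843546 3 false false false .pnn 0 1 1
    ndN1q0 ndN6q1 pcN1 Cut.none Ext.none :=
  certNX0 (fam := false) (s1 := false) (s2 := false) (a := 0) (b := 1) (c := 1) (cn := .pnn) (n1 := ndN1q0) (n2 := ndN6q1) (pc := pcN1) (cut := Cut.none) (xt := Ext.none) (P1 := 67108864) (W1 := 469762048) (P2 := 536870912) (W2 := 469762048) (P3 := 1046898278) (W3 := 26843546) (N0 := 3)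
    rfl k0_mm_011

noncomputable def f_mm_012 : ℕ → ℕ → ℕ → ℕ → Bool := onCell 67108864 469762048 1073741824 536870912 1046898278 26843546
    (rowNX 3 0 false false false .pnp 0 1 2 (qsf 67108864 469762048 1073741824 536870912 1) ndN1q0 ndN6q2 pcN1 Cut.none Ext.none)

def k0_mm_012 : ∃ t, chk3 f_mm_012 t 1 1 1 = true :=
  ⟨(l 5), by decide +kernel⟩

theorem c_mm_012 : CertNX 67108864 469762048 1073741824 536870912 1046898278 26843546 3 false false false .pnp 0 1 2
    ndN1q0 ndN6q2 pcN1 Cut.none Ext.none :=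
  certNX0 (fam := false) (s1 := false) (s2 := false) (a := 0) (b := 1) (c := 2) (cn := .pnp) (n1 := ndN1q0) (n2 := ndN6q2) (pc := pcN1) (cut := Cut.none) (xt := Ext.none) (P1 := 67108864) (W1 := 469762048) (P2 := 1073741824) (W2 := 536870912) (P3 := 1046898278) (W3 := 26843546) (N0 := 3)
    rfl k0_mm_012

noncomputable def f_mm_022 : ℕ → ℕ → ℕ → ℕ → Bool := onCell 67108864 469762048 1073741824 536870912 1046898278 26843546
    (rowNX 3 0 false false false .pp 0 2 2 (qsf 67108864 469762048 1073741824 536870912 2) ndN1q0 ndN6q2 pcN2 Cut.none Ext.none)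

def k0_mm_022 : ∃ t, chk3 f_mm_022 t 1 1 1 = true :=
  ⟨(l 5), by decide +kernel⟩

theorem c_mm_022 : CertNX 67108864 469762048 1073741824 536870912 1046898278 26843546 3 false false false .pp 0 2 2
    ndN1q0 ndN6q2 pcN2 Cut.none Ext.none :=
  certNX0 (fam := false) (s1 := false) (s2 := false) (a := 0) (b := 2) (c := 2) (cn := .pp) (n1 := ndN1q0) (n2 := ndN6q2) (pc := pcN2) (cut := Cut.none) (xt := Ext.none) (P1 := 67108864) (W1 := 469762048) (P2 := 1073741824) (W2 := 536870912) (P3 := 1046898278) (W3 := 26843546) (N0 := 3)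
    rfl k0_mm_022

noncomputable def f_mm_023 : ℕ → ℕ → ℕ → ℕ → Bool := onCell 67108864 469762048 0 1230186008 1046898278 26843546
    (rowNX 3 0 false false false .up 0 2 3 (qsf 67108864 469762048 0 1230186008 2) ndN1q0 ndN6q3 pcN2 Cut.none Ext.none)

def k0_mm_023 : ∃ t, chk3 f_mm_023 t 1 1 1 = true :=
  ⟨(l 5), by decide +kernel⟩

theorem c_mm_023 : CertNX 67108864 469762048 0 1230186008 1046898278 26843546 3 false false false .up 0 2 3
    ndN1q0 ndN6q3 pcN2 Cut.none Ext.none :=
  certNX0 (fam := false) (s1 := false) (s2 := false) (a := 0) (b := 2) (c := 3) (cn := .up) (n1 := ndN1q0) (n2 := ndN6q3) (pc := pcN2) (cut := Cut.none) (xt := Ext.none) (P1 := 67108864) (W1 := 469762048) (P2 := 0) (W2 := 1230186008) (P3 := 1046898278) (W3 := 26843546) (N0 := 3)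
    rfl k0_mm_023

noncomputable def f_mm_033 : ℕ → ℕ → ℕ → ℕ → Bool := onCell 67108864 469762048 0 1230186008 1046898278 26843546
    (rowNX 3 0 false false false .pnn 0 3 3 (qsf 67108864 469762048 0 1230186008 3) ndN1q0 ndN6q3 pcN3 Cut.none Ext.none)

def k0_mm_033 : ∃ t, chk3 f_mm_033 t 1 1 1 = true :=
  ⟨(l 5), by decide +kernel⟩

theorem c_mm_033 : CertNX 67108864 469762048 0 1230186008 1046898278 26843546 3 false false false .pnn 0 3 3
    ndN1q0 ndN6q3 pcN3 Cut.none Ext.none :=
  certNX0 (fam := false) (s1 := false) (s2 := false) (a := 0) (b := 3) (c := 3) (cn := .pnn) (n1 := ndN1q0) (n2 := ndN6q3) (pc := pcN3) (cut := Cut.none) (xt := Ext.none) (P1 := 67108864) (W1 := 469762048) (P2 := 0) (W2 := 1230186008) (P3 := 1046898278) (W3 := 26843546) (N0 := 3)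
    rfl k0_mm_033

noncomputable def f_mm_101 : ℕ → ℕ → ℕ → ℕ → Bool := onCell 536870912 536870912 0 536870912 1046898278 26843546
    (rowNX 3 1 false false false .npn 1 0 1 (qsf 536870912 536870912 536870912 469762048 0) ndN1q1 ndN6q1 pcN0 Cut.none Ext.none)

def k0_mm_101 : ∃ t, chk3 f_mm_101 t 1 1 1 = true :=
  ⟨(l 3), by decide +kernel⟩

theorem c_mm_101 : CertNX 536870912 536870912 536870912 469762048 1046898278 26843546 3 false false false .npn 1 0 1
    ndN1q1 ndN6q1 pcN0 Cut.none Ext.none :=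
  certNX1 (fam := false) (s1 := false) (s2 := false) (a := 1) (b := 0) (c := 1) (cn := .npn) (n1 := ndN1q1) (n2 := ndN6q1) (pc := pcN0) (cut := Cut.none) (xt := Ext.none) (P1 := 536870912) (W1 := 536870912) (P2 := 536870912) (W2 := 469762048) (P3 := 1046898278) (W3 := 26843546) (N0 := 3)
    rfl (fun _ => rfl) k0_mm_101

noncomputable def f_mm_102 : ℕ → ℕ → ℕ → ℕ → Bool := onCell 536870912 536870912 1073741824 536870912 1046898278 26843546
    (rowNX 3 0 false false false .npp 1 0 2 (qsf 536870912 536870912 1073741824 536870912 0) ndN1q1 ndN6q2 pcN0 Cut.none Ext.none)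

def k0_mm_102 : ∃ t, chk3 f_mm_102 t 1 1 1 = true :=
  ⟨(l 3), by decide +kernel⟩

theorem c_mm_102 : CertNX 536870912 536870912 1073741824 536870912 1046898278 26843546 3 false false false .npp 1 0 2
    ndN1q1 ndN6q2 pcN0 Cut.none Ext.none :=
  certNX0 (fam := false) (s1 := false) (s2 := false) (a := 1) (b := 0) (c := 2) (cn := .npp) (n1 := ndN1q1) (n2 := ndN6q2) (pc := pcN0) (cut := Cut.none) (xt := Ext.none) (P1 := 536870912) (W1 := 536870912) (P2 := 1073741824) (W2 := 536870912) (P3 := 1046898278) (W3 := 26843546) (N0 := 3)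
    rfl k0_mm_102

noncomputable def f_mm_112 : ℕ → ℕ → ℕ → ℕ → Bool := onCell 536870912 536870912 1073741824 536870912 1046898278 26843546
    (rowNX 3 0 false false false .dn 1 1 2 (qsf 536870912 536870912 1073741824 536870912 1) ndN1q1 ndN6q2 pcN1 Cut.none Ext.none)

def k0_mm_112 : ∃ t, chk3 f_mm_112 t 1 1 1 = true :=
  ⟨(l 3), by decide +kernel⟩

theorem c_mm_112 : CertNX 536870912 536870912 1073741824 536870912 1046898278 26843546 3 false false false .dn 1 1 2
    ndN1q1 ndN6q2 pcN1 Cut.none Ext.none :=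
  certNX0 (fam := false) (s1 := false) (s2 := false) (a := 1) (b := 1) (c := 2) (cn := .dn) (n1 := ndN1q1) (n2 := ndN6q2) (pc := pcN1) (cut := Cut.none) (xt := Ext.none) (P1 := 536870912) (W1 := 536870912) (P2 := 1073741824) (W2 := 536870912) (P3 := 1046898278) (W3 := 26843546) (N0 := 3)
    rfl k0_mm_112

noncomputable def f_mm_113 : ℕ → ℕ → ℕ → ℕ → Bool := onCell 536870912 536870912 0 1230186008 1046898278 26843546
    (rowNX 3 0 false false false .nn 1 1 3 (qsf 536870912 536870912 0 1230186008 1) ndN1q1 ndN6q3 pcN1 Cut.none Ext.none)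

def k0_mm_113 : ∃ t, chk3 f_mm_113 t 1 1 1 = true :=
  ⟨(b (l 5) (l 5)), by decide +kernel⟩

theorem c_mm_113 : CertNX 536870912 536870912 0 1230186008 1046898278 26843546 3 false false false .nn 1 1 3
    ndN1q1 ndN6q3 pcN1 Cut.none Ext.none :=
  certNX0 (fam := false) (s1 := false) (s2 := false) (a := 1) (b := 1) (c := 3) (cn := .nn) (n1 := ndN1q1) (n2 := ndN6q3) (pc := pcN1) (cut := Cut.none) (xt := Ext.none) (P1 := 536870912) (W1 := 536870912) (P2 := 0) (W2 := 1230186008) (P3 := 1046898278) (W3 := 26843546) (N0 := 3)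
    rfl k0_mm_113

noncomputable def f_mm_123 : ℕ → ℕ → ℕ → ℕ → Bool := onCell 536870912 536870912 0 1230186008 1046898278 26843546
    (rowNX 3 0 false false false .npn 1 2 3 (qsf 536870912 536870912 0 1230186008 2) ndN1q1 ndN6q3 pcN2 Cut.none Ext.none)

def k0_mm_123 : ∃ t, chk3 f_mm_123 t 1 1 1 = true :=
  ⟨(b (l 5) (l 5)), by decide +kernel⟩

theorem c_mm_123 : CertNX 536870912 536870912 0 1230186008 1046898278 26843546 3 false false false .npn 1 2 3
    ndN1q1 ndN6q3 pcN2 Cut.none Ext.none :=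
  certNX0 (fam := false) (s1 := false) (s2 := false) (a := 1) (b := 2) (c := 3) (cn := .npn) (n1 := ndN1q1) (n2 := ndN6q3) (pc := pcN2) (cut := Cut.none) (xt := Ext.none) (P1 := 536870912) (W1 := 536870912) (P2 := 0) (W2 := 1230186008) (P3 := 1046898278) (W3 := 26843546) (N0 := 3)
    rfl k0_mm_123

noncomputable def f_mm_133 : ℕ → ℕ → ℕ → ℕ → Bool := onCell 536870912 536870912 0 1230186008 1046898278 26843546
    (rowNX 3 0 false false false .dn 1 3 3 (qsf 536870912 536870912 0 1230186008 3) ndN1q1 ndN6q3 pcN3 Cut.none Ext.none)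

def k0_mm_133 : ∃ t, chk3 f_mm_133 t 1 1 1 = true :=
  ⟨(b (l 5) (l 1)), by decide +kernel⟩

theorem c_mm_133 : CertNX 536870912 536870912 0 1230186008 1046898278 26843546 3 false false false .dn 1 3 3
    ndN1q1 ndN6q3 pcN3 Cut.none Ext.none :=
  certNX0 (fam := false) (s1 := false) (s2 := false) (a := 1) (b := 3) (c := 3) (cn := .dn) (n1 := ndN1q1) (n2 := ndN6q3) (pc := pcN3) (cut := Cut.none) (xt := Ext.none) (P1 := 536870912) (W1 := 536870912) (P2 := 0) (W2 := 1230186008) (P3 := 1046898278) (W3 := 26843546) (N0 := 3)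
    rfl k0_mm_133

noncomputable def f_mm_202_a : ℕ → ℕ → ℕ → ℕ → Bool := onCell 0 420477299 0 536870912 1046898278 26843546
    (rowNX 3 1 false false false .pp 2 0 2 (qsf 0 420477299 1073741824 536870912 0) ndN1q2a ndN6q2 pcN0 Cut.none Ext.none)

def k0_mm_202_a : ∃ t, chk3 f_mm_202_a t 1 1 1 = true :=
  ⟨(l 3), by decide +kernel⟩

theorem c_mm_202_a : CertNX 0 420477299 1073741824 536870912 1046898278 26843546 3 false false false .pp 2 0 2
    ndN1q2a ndN6q2 pcN0 Cut.none Ext.none :=
  certNX1 (fam := false) (s1 := false) (s2 := false) (a := 2) (b := 0) (c := 2) (cn := .pp) (n1 := ndN1q2a) (n2 := ndN6q2) (pc := pcN0) (cut := Cut.none) (xt := Ext.none) (P1 := 0) (W1 := 420477299) (P2 := 1073741824) (W2 := 536870912) (P3 := 1046898278) (W3 := 26843546) (N0 := 3)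
    rfl (fun _ => rfl) k0_mm_202_a

noncomputable def f_mm_202_b : ℕ → ℕ → ℕ → ℕ → Bool := onCell 1239849684 370763052 1073741824 536870912 1046898278 26843546
    (rowNX 3 0 false false false .pp 2 0 2 (qsf 1239849684 370763052 1073741824 536870912 0) ndN1q2b ndN6q2 pcN0 Cut.none Ext.none)

def k0_mm_202_b : ∃ t, chk3 f_mm_202_b t 1 1 1 = true :=
  ⟨(b (a (b (l 1) (l 3)) (l 1)) (l 3)), by decide +kernel⟩

theorem c_mm_202_b : CertNX 1239849684 370763052 1073741824 536870912 1046898278 26843546 3 false false false .pp 2 0 2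
    ndN1q2b ndN6q2 pcN0 Cut.none Ext.none :=
  certNX0 (fam := false) (s1 := false) (s2 := false) (a := 2) (b := 0) (c := 2) (cn := .pp) (n1 := ndN1q2b) (n2 := ndN6q2) (pc := pcN0) (cut := Cut.none) (xt := Ext.none) (P1 := 1239849684) (W1 := 370763052) (P2 := 1073741824) (W2 := 536870912) (P3 := 1046898278) (W3 := 26843546) (N0 := 3)
    rfl k0_mm_202_b

noncomputable def f_mm_203_a : ℕ → ℕ → ℕ → ℕ → Bool := onCell 0 420477299 0 1230186008 1046898278 26843546
    (rowNX 3 0 false false false .up 2 0 3 (qsf 0 420477299 0 1230186008 0) ndN1q2a ndN6q3 pcN0 Cut.none Ext.none)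

def k0_mm_203_a : ∃ t, chk3 f_mm_203_a t 1 1 1 = true :=
  ⟨(b (l 2) (l 3)), by decide +kernel⟩

theorem c_mm_203_a : CertNX 0 420477299 0 1230186008 1046898278 26843546 3 false false false .up 2 0 3
    ndN1q2a ndN6q3 pcN0 Cut.none Ext.none :=
  certNX0 (fam := false) (s1 := false) (s2 := false) (a := 2) (b := 0) (c := 3) (cn := .up) (n1 := ndN1q2a) (n2 := ndN6q3) (pc := pcN0) (cut := Cut.none) (xt := Ext.none) (P1 := 0) (W1 := 420477299) (P2 := 0) (W2 := 1230186008) (P3 := 1046898278) (W3 := 26843546) (N0 := 3)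
    rfl k0_mm_203_a

noncomputable def f_mm_203_b : ℕ → ℕ → ℕ → ℕ → Bool := onCell 1239849684 370763052 0 1230186008 1046898278 26843546
    (rowNX 3 0 false false false .up 2 0 3 (qsf 1239849684 370763052 0 1230186008 0) ndN1q2b ndN6q3 pcN0 Cut.none Ext.none)

def k0_mm_203_b : ∃ t, chk3 f_mm_203_b t 1 1 1 = true :=
  ⟨(b (l 3) (l 3)), by decide +kernel⟩

theorem c_mm_203_b : CertNX 1239849684 370763052 0 1230186008 1046898278 26843546 3 false false false .up 2 0 3
    ndN1q2b ndN6q3 pcN0 Cut.none Ext.none :=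
  certNX0 (fam := false) (s1 := false) (s2 := false) (a := 2) (b := 0) (c := 3) (cn := .up) (n1 := ndN1q2b) (n2 := ndN6q3) (pc := pcN0) (cut := Cut.none) (xt := Ext.none) (P1 := 1239849684) (W1 := 370763052) (P2 := 0) (W2 := 1230186008) (P3 := 1046898278) (W3 := 26843546) (N0 := 3)
    rfl k0_mm_203_b

noncomputable def f_mm_213_a : ℕ → ℕ → ℕ → ℕ → Bool := onCell 0 420477299 0 1230186008 1046898278 26843546
    (rowNX 3 0 false false false .pnn 2 1 3 (qsf 0 420477299 0 1230186008 1) ndN1q2a ndN6q3 pcN1 Cut.none Ext.none)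

def k0_mm_213_a : ∃ t, chk3 f_mm_213_a t 1 1 1 = true :=
  ⟨(b (l 3) (l 3)), by decide +kernel⟩

theorem c_mm_213_a : CertNX 0 420477299 0 1230186008 1046898278 26843546 3 false false false .pnn 2 1 3
    ndN1q2a ndN6q3 pcN1 Cut.none Ext.none :=
  certNX0 (fam := false) (s1 := false) (s2 := false) (a := 2) (b := 1) (c := 3) (cn := .pnn) (n1 := ndN1q2a) (n2 := ndN6q3) (pc := pcN1) (cut := Cut.none) (xt := Ext.none) (P1 := 0) (W1 := 420477299) (P2 := 0) (W2 := 1230186008) (P3 := 1046898278) (W3 := 26843546) (N0 := 3)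
    rfl k0_mm_213_a

noncomputable def f_mm_213_b : ℕ → ℕ → ℕ → ℕ → Bool := onCell 1239849684 370763052 0 1230186008 1046898278 26843546
    (rowNX 3 0 false false false .pnn 2 1 3 (qsf 1239849684 370763052 0 1230186008 1) ndN1q2b ndN6q3 pcN1 Cut.none Ext.none)

def k0_mm_213_b : ∃ t, chk3 f_mm_213_b t 1 1 1 = true :=
  ⟨(b (l 3) (l 3)), by decide +kernel⟩

theorem c_mm_213_b : CertNX 1239849684 370763052 0 1230186008 1046898278 26843546 3 false false false .pnn 2 1 3
    ndN1q2b ndN6q3 pcN1 Cut.none Ext.none :=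
  certNX0 (fam := false) (s1 := false) (s2 := false) (a := 2) (b := 1) (c := 3) (cn := .pnn) (n1 := ndN1q2b) (n2 := ndN6q3) (pc := pcN1) (cut := Cut.none) (xt := Ext.none) (P1 := 1239849684) (W1 := 370763052) (P2 := 0) (W2 := 1230186008) (P3 := 1046898278) (W3 := 26843546) (N0 := 3)
    rfl k0_mm_213_b

noncomputable def f_mm_303 : ℕ → ℕ → ℕ → ℕ → Bool := onCell 1610612736 469762048 0 1230186008 1046898278 26843546
    (rowNX 3 0 false false false .npn 3 0 3 (qsf 1610612736 469762048 0 1230186008 0) ndN1q3 ndN6q3 pcN0 Cut.none Ext.none)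

def k0_mm_303 : ∃ t, chk3 f_mm_303 t 1 1 1 = true :=
  ⟨(b (l 3) (l 3)), by decide +kernel⟩

theorem c_mm_303 : CertNX 1610612736 469762048 0 1230186008 1046898278 26843546 3 false false false .npn 3 0 3
    ndN1q3 ndN6q3 pcN0 Cut.none Ext.none :=
  certNX0 (fam := false) (s1 := false) (s2 := false) (a := 3) (b := 0) (c := 3) (cn := .npn) (n1 := ndN1q3) (n2 := ndN6q3) (pc := pcN0) (cut := Cut.none) (xt := Ext.none) (P1 := 1610612736) (W1 := 469762048) (P2 := 0) (W2 := 1230186008) (P3 := 1046898278) (W3 := 26843546) (N0 := 3)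
    rfl k0_mm_303

noncomputable def f_mm_313 : ℕ → ℕ → ℕ → ℕ → Bool := onCell 1610612736 469762048 0 1230186008 1046898278 26843546
    (rowNX 3 0 false false false .dn 3 1 3 (qsf 1610612736 469762048 0 1230186008 1) ndN1q3 ndN6q3 pcN1 Cut.none Ext.none)

def k0_mm_313 : ∃ t, chk3 f_mm_313 t 1 1 1 = true :=
  ⟨(b (l 3) (l 1)), by decide +kernel⟩

theorem c_mm_313 : CertNX 1610612736 469762048 0 1230186008 1046898278 26843546 3 false false false .dn 3 1 3
    ndN1q3 ndN6q3 pcN1 Cut.none Ext.none :=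
  certNX0 (fam := false) (s1 := false) (s2 := false) (a := 3) (b := 1) (c := 3) (cn := .dn) (n1 := ndN1q3) (n2 := ndN6q3) (pc := pcN1) (cut := Cut.none) (xt := Ext.none) (P1 := 1610612736) (W1 := 469762048) (P2 := 0) (W2 := 1230186008) (P3 := 1046898278) (W3 := 26843546) (N0 := 3)
    rfl k0_mm_313

end Pool.Agent.Strip051.G.IE1.Tab.C.NB16

namespace Pool.Agent.Strip051.G.IE1.Tab.C.NB17

open Pool.Agent.Strip051.PB Pool.Agent.Strip051.PB.T
open Pool.Agent.Strip051.G.IE1.Tab

noncomputable def f_pp_001 : ℕ → ℕ → ℕ → ℕ → Bool := onCell 67108864 469762048 536870912 536870912 1046898278 26843546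
    (rowNX 3 0 false true true .up 0 0 1 (qsf 67108864 469762048 536870912 536870912 0) ndN1q0 ndN7q1 pcN0 Cut.none Ext.none)

def k0_pp_001 : ∃ t, chk3 f_pp_001 t 1 1 1 = true :=
  ⟨(l 3), by decide +kernel⟩

theorem c_pp_001 : CertNX 67108864 469762048 536870912 536870912 1046898278 26843546 3 false true true .up 0 0 1
    ndN1q0 ndN7q1 pcN0 Cut.none Ext.none :=
  certNX0 (fam := false) (s1 := true) (s2 := true) (a := 0) (b := 0) (c := 1) (cn := .up) (n1 := ndN1q0) (n2 := ndN7q1) (pc := pcN0) (cut := Cut.none) (xt := Ext.none) (P1 := 67108864) (W1 := 469762048) (P2 := 536870912) (W2 := 536870912) (P3 := 1046898278) (W3 := 26843546) (N0 := 3)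
    rfl k0_pp_001

noncomputable def f_pp_011 : ℕ → ℕ → ℕ → ℕ → Bool := onCell 67108864 469762048 536870912 536870912 1046898278 26843546
    (rowNX 3 0 false true true .pnn 0 1 1 (qsf 67108864 469762048 536870912 536870912 1) ndN1q0 ndN7q1 pcN1 Cut.none Ext.none)

def k0_pp_011 : ∃ t, chk3 f_pp_011 t 1 1 1 = true :=
  ⟨(l 3), by decide +kernel⟩

theorem c_pp_011 : CertNX 67108864 469762048 536870912 536870912 1046898278 26843546 3 false true true .pnn 0 1 1
    ndN1q0 ndN7q1 pcN1 Cut.none Ext.none :=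
  certNX0 (fam := false) (s1 := true) (s2 := true) (a := 0) (b := 1) (c := 1) (cn := .pnn) (n1 := ndN1q0) (n2 := ndN7q1) (pc := pcN1) (cut := Cut.none) (xt := Ext.none) (P1 := 67108864) (W1 := 469762048) (P2 := 536870912) (W2 := 536870912) (P3 := 1046898278) (W3 := 26843546) (N0 := 3)
    rfl k0_pp_011

noncomputable def f_pp_012 : ℕ → ℕ → ℕ → ℕ → Bool := onCell 67108864 469762048 536870912 536870912 1046898278 26843546
    (rowNX 3 1 false true true .pnp 0 1 2 (qsf 67108864 469762048 1073741824 536870912 1) ndN1q0 ndN7q2 pcN1 Cut.none Ext.none)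

def k0_pp_012 : ∃ t, chk3 f_pp_012 t 1 1 1 = true :=
  ⟨(a (b (l 3) (l 3)) (l 3)), by decide +kernel⟩

theorem c_pp_012 : CertNX 67108864 469762048 1073741824 536870912 1046898278 26843546 3 false true true .pnp 0 1 2
    ndN1q0 ndN7q2 pcN1 Cut.none Ext.none :=
  certNX1 (fam := false) (s1 := true) (s2 := true) (a := 0) (b := 1) (c := 2) (cn := .pnp) (n1 := ndN1q0) (n2 := ndN7q2) (pc := pcN1) (cut := Cut.none) (xt := Ext.none) (P1 := 67108864) (W1 := 469762048) (P2 := 1073741824) (W2 := 536870912) (P3 := 1046898278) (W3 := 26843546) (N0 := 3)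
    rfl (fun _ => rfl) k0_pp_012

noncomputable def f_pp_022 : ℕ → ℕ → ℕ → ℕ → Bool := onCell 67108864 469762048 1073741824 536870912 1046898278 26843546
    (rowNX 3 1 false true true .pp 0 2 2 (qsf 67108864 469762048 1073741824 536870912 2) ndN1q0 ndN7q2 pcN2 Cut.none Ext.none)

def k0_pp_022 : ∃ t, chk3 f_pp_022 t 1 8 1 = true :=
  ⟨(a (b (l 3) (a (a (b (b (l 3) (b (l 3) (a (a (a (c (c (l 16534224) (l 16530592)) (c (l 16526648) (l 16522624))) (l 3)) (l 3)) (l 3)))) (b (a (a (c (b (a (c (l 16523376) (l 16520352)) (c (l 16513664) (l 16509472))) (a (c (l 16528528) (l 16525968)) (c (l 16508200) (l 16504384)))) (b (a (c (l 16516384) (l 16512360)) (l 218136771031)) (a (b (l 16515544) (l 16525424)) (b (l 16493528) (l 16501752))))) (b (l 3) (c (c (l 315847242103) (l 16493104)) (b (l 16485576) (l 16484376))))) (l 3)) (a (c (c (a (a (b (l 16558168) (l 16592824)) (l 16489744)) (b (l 16511744) (l 16537448))) (a (a (b (l 16555944) (l 16590920)) (l 16549928)) (b (l 16507520) (l 16533792))))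 (a (a (b (l 16551472) (c (l 16588776) (l 16586592))) (c (l 16546720) (l 16543472))) (b (c (l 16503136) (l 16498712)) (c (l 16530048) (l 16526264))))) (a (a (b (l 3) (c (a (l 169818381735) (l 16511000)) (l 16504104))) (l 3)) (l 3))))) (l 3)) (l 3))) (l 3)), by decide +kernel⟩

def k1_pp_022 : ∃ t, chk3 f_pp_022 t 8 18 1 = true :=
  ⟨(b (b (a (c (a (a (b (c (l 16611440) (l 16609832)) (l 16619648)) (b (c (l 16596064) (l 16593928)) (c (l 16603664) (l 16601856)))) (b (c (l 16564936) (l 16561880)) (c (l 16584360) (l 16581840)))) (a (a (b (b (l 16605168) (l 16611664)) (l 16617128)) (b (c (l 16591792) (l 16589632)) (c (l 16600056) (l 16598240)))) (b (c (l 16558816) (l 16555720)) (c (l 16579320) (l 16576776))))) (a (c (a (c (l 16549072) (l 16545472)) (c (b (l 16535096) (l 16544960)) (b (l 16530976) (l 16541168)))) (a (c (l 16541856) (l 16538208)) (b (a (l 16515368) (l 16532712)) (a (l 16536384) (l 16537184))))) (b (l 3) (c (l 16580520) (l 16574008))))) (a (c (a (a (l 16624072) (l 16614040))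 (c (b (l 16596032) (l 16602456)) (b (l 16593912) (l 16600648)))) (a (a (l 16622328) (l 16611392)) (c (b (l 16591800) (l 16598856)) (b (l 16589672) (l 16597048))))) (c (a (c (a (l 16574288) (l 16543416)) (a (l 16571488) (l 16539800))) (b (l 16568808) (l 16559536))) (a (c (a (l 16568680) (l 16536168)) (a (l 16565856) (l 16532512))) (c (l 16560528) (l 16557192)))))) (a (c (a (b (a (l 16592128) (l 16617400)) (a (l 16524784) (l 16576584))) (a (b (l 16613272) (l 16576680)) (b (c (l 16594192) (l 16592384)) (l 16562488)))) (a (b (a (l 16590096) (l 16615688)) (a (l 16542744) (l 16574392))) (b (b (a (l 16609288) (l 16577160)) (l 16599248)) (l 16491464)))) (c (b (a (c (a (l 16558248) (l 16520720)) (a (l 16555480) (l 16516976))) (l 16544352)) (a (a (l 16519640) (c (l 16486696) (l 16482624))) (c (l 16521488) (l 16517928)))) (b (a (c (a (l 16552696) (l 16513216)) (a (l 16549904) (l 16509424))) (c (l 16539248) (l 16535800))) (a (a (l 16513296) (c (l 16478512) (l 16474376))) (c (l 16514344)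 (l 16510736))))))), by decide +kernel⟩

def k2_pp_022 : ∃ t, chk3 f_pp_022 t 9 18 1 = true :=
  ⟨(a (b (a (b (l 3) (c (l 16575328) (l 16570336))) (l 3)) (c (b (a (l 16568856) (l 16640632)) (a (l 16546672) (l 16612296))) (b (a (c (l 16585800) (l 16583088)) (l 16636912)) (b (l 16549072) (l 16559232))))) (b (l 3) (b (l 3) (c (a (l 16609784) (l 16662184)) (a (c (l 16649576) (l 16648128)) (l 16659128)))))), by decide +kernel⟩

def k3_pp_022 : ∃ t, chk3 f_pp_022 t 5 18 1 = true :=
  ⟨(l 3), by decide +kernel⟩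

def k4_pp_022 : ∃ t, chk3 f_pp_022 t 2 38 1 = true :=
  ⟨(b (a (a (a (c (a (a (b (l 16513568) (l 16481864)) (b (l 16550992) (l 16544080))) (c (l 16533640) (l 16531552))) (a (a (b (l 16509928) (l 16467312)) (b (l 16548416) (l 16541656))) (b (l 16540552) (l 16515872)))) (c (a (c (l 16422312) (l 16439240)) (b (b (l 16501704) (l 16493264)) (l 16482696))) (a (b (l 16463600) (l 16423136)) (b (b (l 16494240) (l 16485640)) (l 16474896))))) (c (a (b (b (l 16578480) (l 16557808)) (a (l 16506808) (l 16609008))) (b (a (l 16638568) (l 16644000)) (l 16602320))) (a (b (b (l 16552592) (l 16532088)) (b (l 16509856) (l 16486608))) (b (a (l 16614712) (l 16640752)) (a (l 16655944) (l 16670512)))))) (b (l 3) (a (a (c (l 16689320) (l 16687152)) (l 3)) (l 3)))) (a (a (a (c (a (a (l 16419560) (l 16505272)) (l 16532352)) (a (a (l 16434896) (l 16501776)) (l 16528792))) (c (a (l 16431128) (l 16510160)) (a (l 16465912) (l 16503832)))) (b (c (a (a (l 16570776) (l 16635448)) (l 16668800)) (a (a (l 16566368)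 (l 16633328)) (l 16667440))) (a (a (l 16592992) (c (l 16637560) (l 16635920))) (c (l 16607560) (l 16604560))))) (a (a (c (c (l 16706640) (l 16706064)) (c (l 16705464) (l 16704840))) (a (c (l 16752352) (l 16752032)) (l 3))) (l 3)))), by decide +kernel⟩

def k5_pp_022 : ∃ t, chk3 f_pp_022 t 2 39 1 = true :=
  ⟨(a (a (a (c (a (a (l 16282976) (l 16347840)) (b (l 16547192) (l 16506216))) (a (a (l 16338296) (l 16384280)) (b (l 16544904) (l 16503184)))) (c (a (b (l 16497680) (l 16509568)) (l 16530848)) (a (b (l 16492080) (l 16505064)) (l 16485112)))) (a (a (b (l 16557888) (l 16531104)) (b (a (l 16594912) (l 16573240)) (l 16504776))) (b (c (b (a (l 16576144) (l 16601808)) (a (l 16539744) (l 16563472))) (c (a (l 16554672) (l 16579400)) (b (l 16583968) (l 16544512)))) (a (c (l 16496880) (l 16489272)) (b (c (l 16527440) (l 16520112)) (l 16494616)))))) (b (a (a (c (c (l 16632528) (l 16630432)) (c (l 16628296) (l 16626112))) (c (a (l 16642432) (l 16696984)) (a (l 16618368) (l 16696384))))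 (l 3)) (a (a (c (c (l 16520416) (l 16495992)) (c (l 16513456) (l 16530856))) (c (a (c (l 16641160) (l 16638816)) (l 16715200)) (a (c (l 16636432) (l 16634016)) (l 16714496)))) (a (c (l 16776864) (l 16776856)) (l 3))))), by decide +kernel⟩

def k6_pp_022 : ∃ t, chk3 f_pp_022 t 3 9 1 = true :=
  ⟨(a (l 3) (l 3)), by decide +kernel⟩

def k7_pp_022 : ∃ t, chk3 f_pp_022 t 2 40 1 = true :=
  ⟨(b (a (a (a (c (a (l 16274200) (l 16466544)) (a (l 16304192) (l 16462544))) (a (c (l 16511312) (l 16507544)) (l 16500536))) (a (c (l 16505064) (l 16499416)) (c (l 16456120) (l 16446800)))) (a (c (c (a (b (l 16512792) (l 16491408)) (a (l 16624720) (l 16757680))) (a (b (l 16508408) (l 16486656)) (a (l 16622072) (l 16757344)))) (a (b (c (l 16503952) (l 16499424)) (a (l 16464032) (l 16453472))) (c (a (l 16619392) (l 16757000)) (a (l 16616664) (l 16756656))))) (c (a (l 16776200) (l 16776952)) (a (l 16776168) (l 16776944))))) (a (a (a (a (c (a (l 16252568) (l 16332320)) (a (l 16241984) (l 16324456)))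 (c (l 16431936) (l 16427192))) (a (c (l 16504944) (l 16501624)) (l 16501576))) (a (c (l 16468048) (l 16461440)) (c (l 16418416) (l 16408032)))) (a (a (c (l 16355624) (l 16387880)) (a (b (c (l 16608016) (l 16623880)) (l 16643552)) (c (b (l 16759472) (l 16703696)) (b (l 16758888) (l 16703552))))) (c (b (l 16776272) (c (l 16770120) (l 16769992))) (b (l 16776240) (c (l 16769864) (l 16769744))))))), by decide +kernel⟩

def k8_pp_022 : ∃ t, chk3 f_pp_022 t 4 41 1 = true :=
  ⟨(a (b (a (c (a (a (l 16133192) (l 16113920)) (b (l 16400648) (l 16337496))) (a (a (l 16118088) (l 16165584)) (b (l 16395088) (l 16351352)))) (c (a (b (l 16496528) (l 16492968)) (l 16514904)) (a (l 16410424) (l 16512096)))) (a (b (a (c (l 15991888) (l 16032384)) (c (b (l 16302768) (l 16242984)) (l 16259744))) (a (c (b (l 15953760) (a (l 15837064) (l 15941376))) (b (l 15927096) (l 15835144))) (c (b (l 16165928) (l 16095224)) (b (l 16150544) (l 16076768))))) (a (b (c (b (l 16487344) (l 16440536)) (b (l 16484600)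 (l 16435704))) (c (b (l 16361920) (l 16226224)) (b (l 16353464) (l 16277376)))) (b (b (l 16495928) (l 16472688)) (b (b (l 16443304) (l 16383632)) (l 16347568)))))) (b (a (c (l 16439144) (l 16431976)) (c (l 16390576) (l 16379616))) (b (a (c (l 16416600) (l 16408968)) (c (l 16371760) (l 16360488))) (b (a (b (l 16390088) (a (l 16374192) (l 16360712))) (c (l 16353000) (l 16341064))) (a (b (b (b (c (l 16369928) (l 16360344)) (b (c (l 16363088) (l 16353168)) (a (l 16351808) (c (l 16354328) (l 16343776))))) (c (l 16349968) (l 16339424))) (c (l 16340736) (l 16329800))) (c (b (b (b (l 16346040) (a (l 16334744) (l 16357448))) (l 16343224)) (l 16334024)) (b (b (b (l 16333864) (a (l 16322616) (l 16345280))) (l 16330976)) (l 16321360)))))))), by decide +kernel⟩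

def k9_pp_022 : ∃ t, chk3 f_pp_022 t 5 41 1 = true :=
  ⟨(b (a (a (c (a (l 16432368) (l 16536624)) (l 16307080)) (c (l 16607560) (l 16628088))) (a (b (c (c (l 16757896) (l 16757560)) (c (l 16757216) (l 16756872))) (l 16675984)) (c (b (l 16774952) (b (l 16770488) (l 16761560))) (b (l 16774872) (b (l 16770256) (l 16761016)))))) (b (a (a (c (a (l 16437696) (l 16571272)) (l 16455792)) (c (l 16662448) (l 16659336))) (a (a (l 16648696) (l 16677304)) (b (c (l 16740072) (l 16738768)) (l 16707168)))) (c (a (b (a (l 16450560) (l 16629672)) (b (b (a (b (l 16518048) (l 16437376)) (b (l 16615208) (l 16544200))) (l 16409384)) (l 16407280))) (b (l 16647720) (a (l 16580840) (l 16643088)))) (a (b (a (l 16495832) (l 16625368)) (a (a (l 16351384) (l 16501904)) (a (l 16641416) (l 16534592)))) (b (l 16643168) (a (l 16595656) (l 16638376))))))), by decide +kernel⟩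

def k10_pp_022 : ∃ t, chk3 f_pp_022 t 2 21 1 = true :=
  ⟨(a (a (a (c (a (b (l 15773136) (l 15596888)) (l 15701232)) (a (l 15418104) (l 15842552))) (a (c (b (l 16170584) (l 15986968)) (l 15933448)) (b (l 16224336) (c (l 16045200) (l 16022776))))) (a (c (b (l 16125472) (l 16032472)) (b (l 16109824) (l 16008456))) (c (b (a (l 16214304) (l 16287560)) (l 16148016)) (b (l 16095448) (l 16127168))))) (a (c (a (a (l 16395920) (l 16547264)) (l 16573664)) (a (a (l 16383984) (l 16540704)) (l 16592160))) (c (b (l 16646304) (l 16698344)) (l 16628544)))), by decide +kernel⟩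

def k11_pp_022 : ∃ t, chk3 f_pp_022 t 2 11 1 = true :=
  ⟨(a (a (a (b (c (a (b (l 15412496) (l 15220848)) (b (l 15611224) (l 15416920))) (a (l 15265680) (l 15315656))) (c (a (l 14716128) (b (l 15240168) (l 15126296))) (a (l 14901792) (l 15068648)))) (b (c (a (b (l 15796768) (l 15598512)) (l 15671680)) (a (b (l 15765064) (l 15558512)) (l 15658096))) (c (a (b (l 15446280) (l 15399712)) (l 15578472)) (a (l 15382568) (l 15536408))))) (b (a (c (b (l 15881184) (l 15789800)) (b (l 15850768) (l 15755432))) (c (l 16073976) (l 16049736))) (c (a (l 15762768) (l 16038808)) (l 15620296)))) (a (a (b (c (l 16402576) (l 16389808)) (c (l 16376848) (l 16362792))) (b (c (l 16706008) (l 16703904)) (c (l 16688432) (l 16685320)))) (b (c (l 16753808) (l 16752992)) (c (l 16777200) (l 16777200))))), by decide +kernel⟩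

def k12_pp_022 : ∃ t, chk3 f_pp_022 t 3 5 1 = true :=
  ⟨(a (b (b (b (a (b (l 3) (a (c (l 16776976) (l 16776968)) (c (l 16777192) (l 16777184)))) (l 3)) (a (b (c (b (l 16776936) (b (l 16776904) (l 16776912))) (b (l 16776928) (b (l 16776888) (l 16776904)))) (b (c (b (c (l 16770656) (l 16770544)) (c (l 16741376) (l 16741120))) (b (c (l 16770424) (l 16770304)) (c (l 16761824) (l 16761560)))) (b (a (l 16676328) (b (c (l 16770272) (l 16770024)) (b (c (l 16764184) (l 16763728)) (c (l 16751592) (l 16750696))))) (c (a (l 16684720) (l 16726832)) (l 16703272))))) (a (b (b (c (l 16777216) (l 16777216)) (c (l 16777152) (l 16777144))) (b (c (b (l 16777112) (l 16777128)) (b (l 16777112) (l 16777128))) (b (b (c (l 16777168) (l 16777168)) (c (l 16773488) (l 16773352))) (b (a (b (b (c (l 16768296) (l 16767984)) (l 16750456)) (l 16740448)) (l 2)) (l 16752504))))) (l 2)))) (b (a (a (l 16696376) (l 16710936)) (c (l 16768136) (l 16767816))) (a (c (l 16749144) (l 16748160)) (l 2)))) (a (c (b (l 16771912)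 (l 16777216)) (b (l 16771728) (l 16777216))) (l 2))) (l 2)), by decide +kernel⟩

def k13_pp_022 : ∃ t, chk3 f_pp_022 t 1 3 1 = true :=
  ⟨(a (a (b (a (a (b (c (a (b (l 14739040) (l 14762712)) (l 15089280)) (b (a (l 14707056) (l 15029992)) (l 14846768))) (c (a (l 14762712) (l 15089272)) (l 14846768))) (c (b (a (l 15399104) (l 15576856)) (l 15488520)) (b (l 15443280) (l 15443280)))) (b (c (a (l 15762712) (l 16038768)) (a (l 15727104) (l 16012856))) (c (a (l 15762712) (l 16038768)) (l 15788016)))) (a (a (c (b (l 14920576) (l 14920576)) (b (l 14846768) (l 14846768))) (b (c (l 15488520) (l 15443280)) (l 2))) (b (c (l 15713856) (l 15850928)) (l 2)))) (b (a (b (a (c (l 16376816) (l 16362768)) (c (l 16688416) (l 16685296))) (a (b (l 16369808) (l 2)) (l 2))) (b (c (l 16777216) (l 16777216)) (l 2))) (l 2))) (l 2)), by decide +kernel⟩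

theorem s14_pp_022 : ∃ t, chk3 f_pp_022 t 2 41 1 = true := ex3_a k8_pp_022 k9_pp_022

theorem s15_pp_022 : ∃ t, chk3 f_pp_022 t 2 20 1 = true := ex3_b k7_pp_022 s14_pp_022

theorem s16_pp_022 : ∃ t, chk3 f_pp_022 t 2 10 1 = true := ex3_b s15_pp_022 k10_pp_022

theorem s17_pp_022 : ∃ t, chk3 f_pp_022 t 2 5 1 = true := ex3_b s16_pp_022 k11_pp_022

theorem s18_pp_022 : ∃ t, chk3 f_pp_022 t 1 5 1 = true := ex3_a s17_pp_022 k12_pp_022

theorem s19_pp_022 : ∃ t, chk3 f_pp_022 t 2 19 1 = true := ex3_b k4_pp_022 k5_pp_022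

theorem s20_pp_022 : ∃ t, chk3 f_pp_022 t 4 18 1 = true := ex3_a k1_pp_022 k2_pp_022

theorem s21_pp_022 : ∃ t, chk3 f_pp_022 t 2 18 1 = true := ex3_a s20_pp_022 k3_pp_022

theorem s22_pp_022 : ∃ t, chk3 f_pp_022 t 2 9 1 = true := ex3_b s21_pp_022 s19_pp_022

theorem s23_pp_022 : ∃ t, chk3 f_pp_022 t 1 9 1 = true := ex3_a s22_pp_022 k6_pp_022

theorem s24_pp_022 : ∃ t, chk3 f_pp_022 t 1 4 1 = true := ex3_b k0_pp_022 s23_pp_022

theorem s25_pp_022 : ∃ t, chk3 f_pp_022 t 1 2 1 = true := ex3_b s24_pp_022 s18_pp_022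

theorem s26_pp_022 : ∃ t, chk3 f_pp_022 t 1 1 1 = true := ex3_b s25_pp_022 k13_pp_022

theorem c_pp_022 : CertNX 67108864 469762048 1073741824 536870912 1046898278 26843546 3 false true true .pp 0 2 2
    ndN1q0 ndN7q2 pcN2 Cut.none Ext.none :=
  certNX1 (fam := false) (s1 := true) (s2 := true) (a := 0) (b := 2) (c := 2) (cn := .pp) (n1 := ndN1q0) (n2 := ndN7q2) (pc := pcN2) (cut := Cut.none) (xt := Ext.none) (P1 := 67108864) (W1 := 469762048) (P2 := 1073741824) (W2 := 536870912) (P3 := 1046898278) (W3 := 26843546) (N0 := 3)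
    rfl (fun _ => rfl) s26_pp_022

noncomputable def f_pp_023 : ℕ → ℕ → ℕ → ℕ → Bool := onCell 1073741824 536870912 0 1230186008 1046898278 26843546
    (rowNX 3 2 false true true .up 0 2 3 (qsf 67108864 469762048 0 1230186008 2) ndN1q0 ndN7q3 pcN2 Cut.none Ext.none)

def k0_pp_023 : ∃ t, chk3 f_pp_023 t 1 2 1 = true :=
  ⟨(a (l 2) (a (l 2) (b (b (l 362487983815) (l 16657680)) (b (l 16758880) (l 16777216))))), by decide +kernel⟩

def k1_pp_023 : ∃ t, chk3 f_pp_023 t 2 3 1 = true :=
  ⟨(a (b (l 2) (l 3)) (a (b (l 2) (a (a (l 3) (b (b (l 2) (a (l 3) (a (l 3) (b (l 2) (a (c (l 7259736244247) (l 7493275090951)) (a (a (a (c (l 16777216) (l 16777216)) (c (b (l 16777216) (l 16777216)) (b (l 16777216) (l 16777216)))) (l 16777216)) (l 16777216))))))) (a (a (l 3) (b (l 3) (b (l 3) (c (l 16777200) (l 16777200))))) (b (a (l 3) (a (b (l 3) (c (b (l 16777216) (l 16777208)) (b (l 16777216) (l 16777208)))) (a (a (a (c (b (l 16777216) (l 16777216)) (b (l 16777216) (l 16777216))) (a (c (l 16777216)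 (l 16777216)) (c (b (l 16777216) (l 16777216)) (b (l 16777216) (l 16777216))))) (c (l 16777216) (l 16777216))) (c (l 16777216) (l 16777216))))) (a (c (c (b (l 16777088) (l 16777152)) (b (l 16777088) (l 16777152))) (c (b (l 16777088) (l 16777152)) (b (l 16777088) (l 16777152)))) (a (a (c (l 16777192) (l 16777192)) (c (b (l 16777208) (l 16777208)) (b (l 16777208) (l 16777208)))) (a (a (a (c (l 16774112) (l 16774000)) (b (a (c (l 16777216) (l 16777216)) (c (l 16777216) (l 16777216))) (a (c (l 16771840) (l 16771656)) (a (a (c (l 16770048) (l 16769800)) (c (l 16768264) (l 16767952))) (l 16767664))))) (c (l 16769848) (l 16769592))) (c (l 16769944) (l 16769688))))))))) (c (b (b (l 16767840) (l 16777216)) (b (l 16777216) (l 16771576))) (b (b (l 16767512) (l 16777216)) (b (l 16777216) (l 16771384)))))) (b (b (l 2) (b (l 2) (l 483284271495))) (b (b (c (l 16774184) (l 16774080)) (c (l 16777216) (l 16777216))) (b (c (l 16777216) (l 16777216)) (c (l 16776304) (l 16776272))))))), by decide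 +kernel⟩

def k2_pp_023 : ∃ t, chk3 f_pp_023 t 3 3 1 = true :=
  ⟨(b (a (b (b (l 16777216) (l 16777216)) (b (l 16777216) (l 16777216))) (b (l 16777216) (l 16777216))) (b (a (b (l 16777216) (l 16777216)) (b (a (l 16777216) (l 16722960)) (a (l 16745040) (b (l 16541776) (l 16157928))))) (a (b (b (l 16777216) (a (l 16777216) (l 16737776))) (a (b (l 16777216) (a (l 16777080) (l 16656128))) (b (a (l 16707632) (l 16457456)) (a (l 16419576) (l 16047256))))) (b (a (b (l 16578544) (l 16280392)) (b (l 15937856) (a (l 15761088) (c (l 15385760) (l 15336904))))) (a (b (c (l 15896392) (l 15908888)) (a (c (l 15716936) (l 15679720)) (c (b (l 15473752) (l 14984168)) (l 15041672)))) (b (c (a (l 15359528) (b (a (l 15116832) (l 14794536)) (a (l 14771936) (l 14359504)))) (a (l 15309752) (l 14725512))) (b (a (c (a (l 15051504) (l 14741168)) (l 14828480)) (c (a (l 246989095351) (l 1)) (l 14336096))) (a (c (a (l 14661136) (c (l 14496112) (l 14470392))) (l 14510288)) (l 1))))))))), by decide +kernel⟩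

theorem s3_pp_023 : ∃ t, chk3 f_pp_023 t 1 3 1 = true := ex3_a k1_pp_023 k2_pp_023

theorem s4_pp_023 : ∃ t, chk3 f_pp_023 t 1 1 1 = true := ex3_b k0_pp_023 s3_pp_023

theorem c_pp_023 : CertNX 67108864 469762048 0 1230186008 1046898278 26843546 3 false true true .up 0 2 3
    ndN1q0 ndN7q3 pcN2 Cut.none Ext.none :=
  certNX2 (fam := false) (s1 := true) (s2 := true) (a := 0) (b := 2) (c := 3) (cn := .up) (n1 := ndN1q0) (n2 := ndN7q3) (pc := pcN2) (cut := Cut.none) (xt := Ext.none) (P1 := 67108864) (W1 := 469762048) (P2 := 0) (W2 := 1230186008) (P3 := 1046898278) (W3 := 26843546) (N0 := 3)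
    rfl (fun _ => rfl) s4_pp_023

noncomputable def f_pp_033 : ℕ → ℕ → ℕ → ℕ → Bool := onCell 67108864 469762048 0 1230186008 1046898278 26843546
    (rowNX 3 0 false true true .pnn 0 3 3 (qsf 67108864 469762048 0 1230186008 3) ndN1q0 ndN7q3 pcN3 Cut.none Ext.none)

def k0_pp_033 : ∃ t, chk3 f_pp_033 t 1 1 1 = true :=
  ⟨(b (a (b (a (a (l 4) (b (l 4) (c (l 15883840) (l 15783512)))) (b (a (l 4) (l 146263087687)) (a (c (l 16447808) (l 16415168)) (c (l 16659752) (l 16655616))))) (a (a (a (b (b (l 4) (a (l 14727736) (l 15059720))) (b (c (l 14920584) (l 14846768)) (l 14888424))) (b (c (l 15482256) (l 15428592)) (b (l 15465968) (l 15465952)))) (b (c (l 15894936) (l 15667992)) (b (l 15887288) (l 15887288)))) (b (a (b (l 16506656) (l 16530888)) (b (l 16743968) (l 16777216))) (a (b (l 16530888) (l 16530888)) (l 16777216))))) (b (a (b (c (l 16689552) (l 16687512)) (a (l 16657680) (l 16657680))) (b (a (l 16688176) (l 16688176)) (b (l 16648912) (l 16677568)))) (b (a (b (l 16743968) (l 16777216))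 (l 16758880)) (a (l 16777216) (l 16777216))))) (b (a (a (a (b (a (b (l 14888416) (l 14888424)) (c (l 15488520) (l 15443280))) (a (c (l 14920576) (l 14846768)) (c (l 15488520) (l 15443280)))) (b (l 15887280) (b (l 15887280) (l 15887280)))) (b (a (l 16426032) (l 16777216)) (b (l 16427536) (l 16469480)))) (b (a (c (l 16777216) (l 16777216)) (l 1)) (b (l 150357409799) (l 306049974279)))) (a (a (a (b (c (a (l 14920576) (l 15488520)) (a (l 14846768) (l 15443280))) (a (b (c (l 14920576) (l 14846768)) (l 491803028935)) (b (l 111162707383) (l 1)))) (b (b (l 15887280) (l 15887280)) (b (l 15887280) (l 1)))) (b (a (b (l 16530888) (l 16530888)) (l 336651616263)) (l 1))) (l 1)))), by decide +kernel⟩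

theorem c_pp_033 : CertNX 67108864 469762048 0 1230186008 1046898278 26843546 3 false true true .pnn 0 3 3
    ndN1q0 ndN7q3 pcN3 Cut.none Ext.none :=
  certNX0 (fam := false) (s1 := true) (s2 := true) (a := 0) (b := 3) (c := 3) (cn := .pnn) (n1 := ndN1q0) (n2 := ndN7q3) (pc := pcN3) (cut := Cut.none) (xt := Ext.none) (P1 := 67108864) (W1 := 469762048) (P2 := 0) (W2 := 1230186008) (P3 := 1046898278) (W3 := 26843546) (N0 := 3)
    rfl k0_pp_033

noncomputable def f_pp_101 : ℕ → ℕ → ℕ → ℕ → Bool := onCell 536870912 536870912 0 536870912 1046898278 26843546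
    (rowNX 3 1 false true true .npn 1 0 1 (qsf 536870912 536870912 536870912 536870912 0) ndN1q1 ndN7q1 pcN0 Cut.none Ext.none)

def k0_pp_101 : ∃ t, chk3 f_pp_101 t 1 1 1 = true :=
  ⟨(l 3), by decide +kernel⟩

theorem c_pp_101 : CertNX 536870912 536870912 536870912 536870912 1046898278 26843546 3 false true true .npn 1 0 1
    ndN1q1 ndN7q1 pcN0 Cut.none Ext.none :=
  certNX1 (fam := false) (s1 := true) (s2 := true) (a := 1) (b := 0) (c := 1) (cn := .npn) (n1 := ndN1q1) (n2 := ndN7q1) (pc := pcN0) (cut := Cut.none) (xt := Ext.none) (P1 := 536870912) (W1 := 536870912) (P2 := 536870912) (W2 := 536870912) (P3 := 1046898278) (W3 := 26843546) (N0 := 3)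
    rfl (fun _ => rfl) k0_pp_101

noncomputable def f_pp_102 : ℕ → ℕ → ℕ → ℕ → Bool := onCell 536870912 536870912 1073741824 536870912 1046898278 26843546
    (rowNX 3 0 false true true .npp 1 0 2 (qsf 536870912 536870912 1073741824 536870912 0) ndN1q1 ndN7q2 pcN0 Cut.none Ext.none)

def k0_pp_102 : ∃ t, chk3 f_pp_102 t 1 1 1 = true :=
  ⟨(l 3), by decide +kernel⟩

theorem c_pp_102 : CertNX 536870912 536870912 1073741824 536870912 1046898278 26843546 3 false true true .npp 1 0 2
    ndN1q1 ndN7q2 pcN0 Cut.none Ext.none :=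
  certNX0 (fam := false) (s1 := true) (s2 := true) (a := 1) (b := 0) (c := 2) (cn := .npp) (n1 := ndN1q1) (n2 := ndN7q2) (pc := pcN0) (cut := Cut.none) (xt := Ext.none) (P1 := 536870912) (W1 := 536870912) (P2 := 1073741824) (W2 := 536870912) (P3 := 1046898278) (W3 := 26843546) (N0 := 3)
    rfl k0_pp_102

noncomputable def f_pp_112 : ℕ → ℕ → ℕ → ℕ → Bool := onCell 536870912 536870912 1073741824 536870912 1046898278 26843546
    (rowNX 3 0 false true true .dn 1 1 2 (qsf 536870912 536870912 1073741824 536870912 1) ndN1q1 ndN7q2 pcN1 Cut.none Ext.none)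

def k0_pp_112 : ∃ t, chk3 f_pp_112 t 1 1 1 = true :=
  ⟨(l 3), by decide +kernel⟩

theorem c_pp_112 : CertNX 536870912 536870912 1073741824 536870912 1046898278 26843546 3 false true true .dn 1 1 2
    ndN1q1 ndN7q2 pcN1 Cut.none Ext.none :=
  certNX0 (fam := false) (s1 := true) (s2 := true) (a := 1) (b := 1) (c := 2) (cn := .dn) (n1 := ndN1q1) (n2 := ndN7q2) (pc := pcN1) (cut := Cut.none) (xt := Ext.none) (P1 := 536870912) (W1 := 536870912) (P2 := 1073741824) (W2 := 536870912) (P3 := 1046898278) (W3 := 26843546) (N0 := 3)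
    rfl k0_pp_112

noncomputable def f_pp_113 : ℕ → ℕ → ℕ → ℕ → Bool := onCell 536870912 536870912 0 1230186008 1046898278 26843546
    (rowNX 3 2 false true true .nn 1 1 3 (qsf 536870912 536870912 0 1230186008 1) ndN1q1 ndN7q3 pcN1 Cut.none Ext.none)

def k0_pp_113 : ∃ t, chk3 f_pp_113 t 1 1 1 = true :=
  ⟨(a (b (l 2) (b (l 3) (a (b (l 2) (l 3)) (l 3)))) (b (a (l 2) (b (a (l 2) (a (l 2) (a (b (l 2) (b (l 2) (l 3))) (a (b (l 2) (b (c (l 16645800) (c (a (l 16304872) (l 324973369831)) (l 14679200))) (l 3))) (b (c (b (l 16755304) (l 16743728)) (c (b (l 16754144) (l 16740184)) (b (a (l 2) (l 16773032)) (a (l 16116584) (l 16083544))))) (c (l 356112836631) (c (l 314772170487) (b (a (l 14693496) (c (l 15139048) (l 14336600))) (l 298126971143))))))))) (l 3))) (b (l 3) (l 3)))), by decide +kernel⟩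

theorem c_pp_113 : CertNX 536870912 536870912 0 1230186008 1046898278 26843546 3 false true true .nn 1 1 3
    ndN1q1 ndN7q3 pcN1 Cut.none Ext.none :=
  certNX2 (fam := false) (s1 := true) (s2 := true) (a := 1) (b := 1) (c := 3) (cn := .nn) (n1 := ndN1q1) (n2 := ndN7q3) (pc := pcN1) (cut := Cut.none) (xt := Ext.none) (P1 := 536870912) (W1 := 536870912) (P2 := 0) (W2 := 1230186008) (P3 := 1046898278) (W3 := 26843546) (N0 := 3)
    rfl (fun _ => rfl) k0_pp_113

end Pool.Agent.Strip051.G.IE1.Tab.C.NB17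

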