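import Pool.Agent.Strip051.G.IE1.Tab

/-! # Certificates N64 (generated) -/

set_option linter.all false
set_option maxRecDepth 100000

namespace Pool.Agent.Strip051.G.IE1.Tab.C.NB17

open Pool.Agent.Strip051.PB Pool.Agent.Strip051.PB.T
open Pool.Agent.Strip051.G.IE1.Tab

noncomputable def f_pp_123 : ℕ → ℕ → ℕ → ℕ → Bool := onCell 1073741824 536870912 0 1230186008 1046898278 26843546
    (rowNX 3 2 false true true .npn 1 2 3 (qsf 536870912 536870912 0 1230186008 2) ndN1q1 ndN7q3 pcN2 Cut.none Ext.none)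

def k0_pp_123 : ∃ t, chk3 f_pp_123 t 16 4 1 = true :=
  ⟨(b (b (b (l 16406752) (a (c (a (l 16249216) (l 16409344)) (a (c (l 16299080) (l 16191976)) (l 16483336))) (c (a (l 16681048) (l 16688024)) (l 16710728)))) (a (c (a (l 16492464) (c (l 16586328) (l 16590312))) (a (c (l 16491464) (l 16173320)) (l 16406152))) (c (b (l 16614296) (l 16707368)) (b (l 16733704) (l 16576864))))) (b (c (a (a (c (b (l 16716432) (l 16772352)) (b (l 16718896) (a (l 16787672) (l 16504560)))) (a (c (l 16688816) (l 16504616)) (c (l 16686064) (l 16449800)))) (c (l 16578680) (l 16450072))) (a (a (c (b (l 16402160) (a (l 15941448) (l 15933608))) (a (c (l 15343688) (l 14956288)) (l 15509840))) (c (l 16164568) (l 15852384))) (c (l 16310680) (l 16178224)))) (a (a (b (c (b (l 16532600) (l 16290312)) (c (a (l 15464552) (c (l 15705664) (l 15458040))) (a (c (l 14923600) (a (c (l 14533080) (l 262155376439)) (l 261619171671))) (c (a (c (l 15210704) (l 15072328)) (l 15266824)) (l 14948072))))) (l 3)) (c (c (b (l 16380272)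 (l 16121432)) (a (b (l 16065384) (l 15808032)) (a (l 15966296) (c (l 16054888) (l 15934760))))) (c (a (c (l 280411683175) (a (l 268063107847) (l 15539632))) (a (c (l 15588440) (l 15602176)) (l 15731832))) (l 258936168215)))) (c (b (a (b (l 16312480) (c (l 16308528) (l 16109208))) (l 16292488)) (a (c (a (l 16144256) (c (l 16218384) (l 16134600))) (c (a (l 15996464) (l 16124608)) (a (l 315309716711) (l 15942896)))) (c (a (c (l 16242216) (l 16158528)) (l 16220464)) (l 16064320)))) (c (a (l 240146714983) (l 16006656)) (b (l 15863776) (l 15682512))))))), by decide +kernel⟩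

def k1_pp_123 : ∃ t, chk3 f_pp_123 t 16 5 1 = true :=
  ⟨(b (b (b (a (l 3) (c (a (a (l 3) (c (c (l 16041176) (l 337321577047)) (c (l 326047104823) (l 15775336)))) (c (a (c (l 347522364583) (l 15995584)) (l 16067296)) (l 15907768))) (l 15586280))) (l 3)) (l 3)) (l 3)), by decide +kernel⟩

def k2_pp_123 : ∃ t, chk3 f_pp_123 t 17 2 1 = true :=
  ⟨(b (b (b (l 16248528) (a (c (b (l 16308504) (l 16435016)) (b (l 16419376) (l 16417960))) (b (l 16067200) (c (a (l 16176848) (l 16000432)) (l 16067112))))) (a (c (b (c (l 16504008) (l 16416824)) (b (c (l 16346520) (l 16251720)) (a (b (l 16220416) (l 16168280)) (c (l 16274984) (l 16173344))))) (b (l 16293488) (b (l 16123496) (a (l 15984040) (l 16055072))))) (c (b (c (a (b (l 16250608) (l 16248592)) (l 16133160)) (l 16195024)) (b (c (a (l 16200080) (c (l 16246960) (l 16250528))) (l 16234528)) (c (b (l 16259744) (a (l 16251304) (l 16236920))) (b (l 16160016) (l 16183128))))) (b (l 16148952) (b (l 16147144) (a (l 16128872) (l 16124784))))))) (b (a (a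 (b (a (c (l 278801653095) (l 15742360)) (c (b (b (l 16117688) (l 16077832)) (l 15977112)) (l 236925462967))) (l 3)) (b (c (b (c (l 16201488) (l 16110480)) (c (l 16133320) (l 16033104))) (b (l 15994696) (l 15922320))) (c (l 15995488) (l 15863752)))) (b (b (a (b (l 16133856) (c (l 16195176) (l 16068640))) (b (c (l 16196704) (l 16082232)) (l 16152632))) (a (b (c (l 16175944) (l 16052456)) (a (c (l 16176680) (l 16057512)) (l 16138360))) (a (c (l 16198576) (l 16095256)) (c (l 16211696) (l 16117536))))) (b (a (a (c (b (l 16160656) (l 16146320)) (l 16002360)) (c (a (l 16198528) (l 16226264)) (a (l 16099144) (l 16133552)))) (b (l 16187688) (c (l 16267344) (l 16189304)))) (a (c (l 16123456) (l 16051936)) (a (c (l 16246544) (l 16172600)) (c (l 16272864) (l 16206456))))))) (b (l 3) (l 3)))), by decide +kernel⟩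

def k3_pp_123 : ∃ t, chk3 f_pp_123 t 9 4 1 = true :=
  ⟨(b (b (l 15134008) (a (a (b (l 15740512) (b (l 15713968) (c (l 15703944) (l 15709840)))) (l 15403176)) (l 14935520))) (a (b (c (a (b (a (l 15926192) (l 15746112)) (l 16005600)) (b (a (l 15557624) (b (l 15327856) (l 15403040))) (l 15713200))) (a (b (l 15597448) (l 15981888)) (b (a (l 15517648) (l 15324288)) (l 15705256)))) (c (b (a (c (a (c (l 16201816) (l 16064400)) (b (l 16094416) (l 16197976))) (a (l 16154440) (l 16116976))) (b (l 15937728) (c (c (l 16091960) (l 16072992)) (l 16066168)))) (c (a (b (a (l 16224024) (l 16239568)) (l 16288536)) (c (b (l 16152528) (l 16312640)) (b (l 16034328) (l 16283320)))) (a (a (l 16039488) (c (b (l 16236376) (l 16278128)) (l 16121528))) (c (a (b (l 16231032) (l 16303200)) (b (l 16166288) (l 16311328))) (b (l 16188088) (a (c (l 16306144) (l 16307960)) (b (l 16261968) (l 16341288)))))))) (a (b (l 16093296) (c (a (l 16174040) (l 16211800)) (l 16178208))) (a (b (l 16029712) (c (l 16059592) (l 16215632)))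 (l 15888744))))) (b (b (a (b (l 15046000) (a (c (l 15194456) (l 15143272)) (b (l 14958944) (l 14980072)))) (l 14732464)) (a (c (a (l 15455384) (l 15204528)) (a (l 15416160) (l 15159328))) (c (b (l 14798816) (l 14947400)) (b (l 14737160) (l 14892672))))) (c (b (a (a (l 15821144) (l 15607688)) (l 15249920)) (b (a (a (a (c (l 16133304) (l 16105248)) (l 16057400)) (l 15891688)) (l 15552880)) (a (a (c (c (l 16080144) (a (l 16280240) (l 16208656))) (c (b (l 16210048) (l 16142792)) (l 16249040))) (c (c (l 16092760) (l 16099040)) (l 16072064))) (c (c (l 15789848) (l 15759424)) (l 15751784))))) (a (a (b (l 15797328) (l 16159848)) (l 15771448)) (b (l 15208616) (l 15632752))))))), by decide +kernel⟩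

def k4_pp_123 : ∃ t, chk3 f_pp_123 t 18 5 1 = true :=
  ⟨(b (b (a (b (a (b (c (l 16256760) (c (l 16179264) (l 16154744))) (l 16223592)) (c (c (l 16378008) (b (l 16338632) (l 16355200))) (c (b (b (l 16282536) (l 16313696)) (l 16303336)) (l 16288928)))) (a (c (l 16276376) (l 16198168)) (l 16353528))) (b (c (c (b (l 16431872) (l 16525600)) (b (a (c (l 16400256) (l 16380824)) (b (l 16299416) (l 16443600))) (a (l 16467064) (l 16545336)))) (c (b (c (a (l 16336792) (a (l 16343304) (l 16460568))) (l 16408576)) (a (l 16437232) (b (l 16371648) (l 16451464)))) (b (l 16375448) (a (l 16420720) (l 16537056))))) (a (l 16473920) (b (c (l 16582144) (b (c (l 16328288) (l 16553496)) (l 16579400))) (l 16589992))))) (b (a (a (a (l 16237776) (l 16285856)) (c (l 16402856) (l 16352888))) (a (c (l 16521864) (l 16488800)) (l 16616432))) (a (a (c (a (l 16323496) (l 16376072)) (a (l 16265952) (l 16326856))) (c (l 16442152) (l 16403520))) (a (l 16516856) (c (l 16657448) (l 16643400)))))) (a (b (a (c (l 235316169031)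 (l 236389901047)) (b (c (l 16448464) (l 16418016)) (c (l 16457640) (l 16432016)))) (l 3)) (c (b (a (l 16531072) (l 16676008)) (a (l 16564576) (l 409262874855))) (b (a (l 91972139623) (l 16665392)) (a (l 16529000) (l 436643273415)))))), by decide +kernel⟩

def k5_pp_123 : ∃ t, chk3 f_pp_123 t 19 10 1 = true :=
  ⟨(b (a (a (b (c (b (c (l 16401832) (c (l 16398864) (a (l 16417968) (l 16411864)))) (c (l 16573632) (c (l 16566632) (l 16557464)))) (a (c (c (b (l 16481464) (l 16503736)) (l 16502448)) (l 16496408)) (c (c (b (b (l 16354600) (l 16453512)) (b (l 16511552) (l 16595088))) (a (l 16522368) (l 16513456))) (l 16350424)))) (b (c (c (l 16684864) (l 16677208)) (c (a (c (l 16658584) (l 16631104)) (c (l 16694744) (l 16684096))) (a (l 16630752) (b (l 16657696) (l 16694152))))) (l 16700584))) (c (b (b (c (l 16103520) (c (l 16258624) (b (l 16206032) (l 16309128)))) (c (l 16433688) (b (l 16367312) (l 16469696)))) (c (l 16642464) (b (l 16605960) (l 16672464)))) (b (b (l 16245144) (c (c (b (c (l 16384520)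 (l 16391152)) (l 16451592)) (l 16466608)) (l 16441656))) (c (c (b (l 16617440) (l 16612008)) (b (b (l 16512824) (l 16626984)) (l 16629808))) (c (b (l 16611136) (l 16648320)) (l 16627952)))))) (c (b (c (b (c (l 15958752) (l 15959248)) (l 15901320)) (c (b (a (l 16069992) (l 15870384)) (a (l 16225016) (l 16074544))) (b (l 15956168) (a (c (l 16235040) (l 16245288)) (b (l 16032952) (l 16130216)))))) (b (c (l 16359600) (c (l 16353040) (b (l 16279536) (l 16394216)))) (a (l 16575176) (l 16351176)))) (b (c (b (l 15952288) (c (a (c (l 16059048) (l 16165200)) (l 15961888)) (l 16043440))) (l 16049512)) (c (b (c (a (l 16361152) (l 16010944)) (l 16337592)) (c (a (l 16527032) (l 16443480)) (c (l 16502928) (l 16480696)))) (b (l 16348128) (c (l 16489256) (l 16499824))))))) (a (a (c (l 16713320) (l 16606408)) (l 16694728)) (a (l 16737640) (a (l 16688776) (b (b (c (l 16520376) (c (l 16462768) (l 16483408))) (l 16611392)) (l 16722360)))))), by decide +kernel⟩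

def k6_pp_123 : ∃ t, chk3 f_pp_123 t 19 11 1 = true :=
  ⟨(a (b (a (b (c (l 16686920) (l 16683768)) (l 16713992)) (l 16636952)) (a (c (a (l 16743312) (l 16736912)) (a (l 16740584) (l 16735488))) (c (l 16728376) (l 16726632)))) (b (a (b (l 16589664) (l 16590600)) (b (l 16629048) (l 16545280))) (a (c (l 16699112) (l 16696352)) (l 16628776)))), by decide +kernel⟩

def k7_pp_123 : ∃ t, chk3 f_pp_123 t 4 3 1 = true :=
  ⟨(a (l 3) (b (b (a (l 3) (b (a (a (a (l 3) (c (l 16732968) (l 16774832))) (c (l 16772776) (l 16772616))) (c (a (l 555292239271) (b (l 16735272) (l 16764624))) (a (l 563345290279) (b (l 16733800) (l 16764176))))) (a (l 3) (c (a (l 829096446535) (l 814600934951)) (c (l 784536159799) (l 650855302615)))))) (l 3)) (l 3))), by decide +kernel⟩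

def k8_pp_123 : ∃ t, chk3 f_pp_123 t 10 4 1 = true :=
  ⟨(b (a (a (l 14499944) (l 14713520)) (l 15374832)) (a (a (b (b (l 14465376) (c (b (l 14507496) (l 14449320)) (b (l 14434784) (l 14489112)))) (c (c (l 15081336) (l 15061360)) (c (l 15041160) (l 15020664)))) (a (b (b (l 14523576) (b (l 14523448) (b (l 14523264) (l 14539336)))) (c (b (l 14742312) (l 15160400)) (b (l 14690048) (l 15128592)))) (b (l 14768672) (b (c (b (l 14836440) (l 14980648)) (l 14852040)) (c (l 15241512) (l 15208640)))))) (b (l 15355928) (a (b (c (b (l 15172296) (l 15222216)) (l 15138608)) (c (l 15431328) (l 15398152))) (c (b (l 15624648) (l 15720272)) (b (l 15584680) (l 15689616))))))), by decide +kernel⟩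

def k9_pp_123 : ∃ t, chk3 f_pp_123 t 20 10 1 = true :=
  ⟨(b (c (b (a (c (c (b (l 15647576) (l 15820584)) (b (l 15616016) (l 15839760))) (b (l 15612072) (c (a (l 15927680) (l 15757536)) (a (c (l 15916696) (l 15900568)) (l 15733848))))) (c (b (l 15475768) (a (c (l 15676528) (l 15668496)) (c (l 15678712) (l 15661176)))) (l 15558776))) (b (a (c (l 16002624) (b (c (l 15966448) (a (l 16055824) (l 15902968))) (a (l 16132736) (l 15980392)))) (a (c (l 15823368) (c (l 15843728) (b (l 15778544) (l 15884336)))) (c (a (l 15703264) (l 15839984)) (c (l 15661536) (l 15803544))))) (a (c (l 16223632) (c (l 16215384) (a (l 16288784) (l 16113440)))) (a (c (l 16020496) (b (l 15949320) (l 16040096))) (c (l 15957816) (c (l 15946544) (a (l 15944560) (l 15966592)))))))) (a (b (l 15705336) (c (c (b (a (l 15898552) (l 15884952)) (c (l 16026192) (l 16109864))) (b (l 16003664) (l 16089544))) (l 15880056))) (c (b (l 15550456) (b (l 15799176) (a (c (l 15942320) (l 16034128)) (b (l 15900664) (a (l 15955760) (l 16058520))))))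 (a (l 15710720) (l 15705216))))) (a (b (b (c (a (l 16404040) (l 16218784)) (c (c (a (l 16379144) (l 16206592)) (a (l 16396352) (l 16307400))) (c (l 16344560) (l 16358040)))) (l 16486776)) (l 16612120)) (b (c (b (a (c (l 16211256) (l 16198544)) (c (l 16123680) (a (l 16108616) (l 16112168)))) (a (l 16303400) (a (l 16243728) (a (l 16252120) (l 16262592))))) (a (c (c (l 16111856) (b (l 16005280) (l 16261576))) (c (l 16165072) (l 16236000))) (a (c (b (l 15842976) (l 16052480)) (b (l 16091712) (l 16182840))) (b (l 16110552) (a (l 16019216) (l 15972144)))))) (a (l 16453216) (a (l 16374136) (a (l 16361056) (l 16358536))))))), by decide +kernel⟩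

def k10_pp_123 : ∃ t, chk3 f_pp_123 t 20 11 1 = true :=
  ⟨(a (b (a (b (l 16704176) (l 16553088)) (l 16719616)) (a (l 16433464) (b (l 16494456) (l 16489248)))) (a (b (l 16716848) (b (l 16568512) (l 16429128))) (b (a (l 16623160) (b (l 16452736) (l 16634560))) (a (l 16384600) (b (l 16773624) (l 16643152)))))), by decide +kernel⟩

def k11_pp_123 : ∃ t, chk3 f_pp_123 t 21 5 1 = true :=
  ⟨(b (b (c (b (a (l 15711392) (l 15934312)) (a (c (a (b (l 15895736) (l 15991752)) (c (l 16013920) (l 15844232))) (b (l 15900712) (a (l 15796024) (l 16113920)))) (b (l 16078352) (c (c (l 16178408) (l 16180456)) (l 16211256))))) (a (c (l 15644408) (l 15819952)) (l 16025808))) (c (b (a (a (b (c (l 16142792) (l 15955512)) (l 16268672)) (c (l 16205648) (l 16096128))) (a (c (l 16060680) (l 16245416)) (l 16101312))) (a (b (b (l 16340584) (l 16381784)) (l 16421520)) (c (b (l 16443392) (l 16490744)) (l 16434872)))) (a (c (b (a (b (l 16128152) (l 16130800)) (l 16199712)) (l 16278576)) (b (l 16145616) (l 16345296)))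 (b (l 16172480) (c (l 16427952) (l 16441088)))))) (b (l 16569168) (l 16754768))), by decide +kernel⟩

def k12_pp_123 : ∃ t, chk3 f_pp_123 t 11 2 1 = true :=
  ⟨(b (a (b (l 16183216) (b (l 16215344) (b (l 16228528) (a (c (l 16077096) (l 16052888)) (b (l 16449688) (l 16470088)))))) (b (l 16687744) (b (l 16648288) (l 16677040)))) (a (b (b (a (b (l 15969056) (c (l 16377248) (l 16330432))) (c (l 16579584) (l 16560248))) (c (a (b (l 16454400) (c (l 16558936) (l 16549072))) (b (l 16654632) (l 16689128))) (a (b (l 16455672) (l 16554928)) (l 16674760)))) (a (l 16696088) (b (c (l 16713440) (l 16714512)) (l 16759552)))) (c (b (b (l 16744040) (l 16776856)) (l 16923808)) (b (l 16632392) (l 16818968))))), by decide +kernel⟩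

def k13_pp_123 : ∃ t, chk3 f_pp_123 t 10 6 1 = true :=
  ⟨(a (a (a (b (c (b (l 16695952) (c (l 666961375655) (l 16741080))) (b (l 16693104) (b (l 16761992) (l 16775720)))) (c (c (l 1135649743191) (l 1119543615863)) (c (l 1100753133719) (l 1080352039175)))) (b (b (l 16598784) (c (b (l 16715288) (a (l 16769920) (l 16755520))) (a (b (l 16736976) (l 16769664)) (l 16724048)))) (b (c (c (l 16776344) (l 16776328)) (c (l 16776312) (l 16776296))) (a (l 3) (b (l 944523705463) (l 3)))))) (b (a (b (l 16436336) (a (c (l 16677384) (l 16673880)) (l 16616672))) (b (a (b (l 16420512) (l 16453896)) (b (a (l 16477280) (l 16552064)) (a (l 16447008) (a (c (l 16344320) (l 16438400)) (l 16468528))))) (a (l 16557008) (a (l 16524416) (b (l 16486928) (l 16535200)))))) (a (c (b (a (b (l 16763320) (l 16776648)) (b (l 16729984) (l 16765984))) (a (b (l 16777016) (l 16777200)) (b (l 16776904) (l 16777104)))) (b (a (b (l 16762832) (l 16776624)) (b (l 16728328) (l 16765584))) (a (l 1241950188743) (b (l 16776888) (l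 16777096))))) (b (a (b (l 16659584) (a (c (l 16748752) (l 16747752)) (l 16711344))) (a (l 16618360) (b (l 16585056) (l 16634880)))) (a (c (b (a (l 16773744) (l 16763032)) (l 16777072)) (b (a (l 16773624) (l 16762536)) (l 16777072))) (b (a (a (c (l 16744856) (l 16743720)) (l 16714992)) (l 16684760)) (a (a (c (l 16773016) (l 16772872)) (c (b (l 16757960) (l 16771112)) (l 16762120))) (a (a (a (c (l 16747432) (l 16746384)) (l 16728432)) (l 16718320)) (l 16718576))))))))) (b (b (b (l 16662816) (l 16554200)) (l 16509688)) (b (l 16638784) (l 16709376)))), by decide +kernel⟩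

def k14_pp_123 : ∃ t, chk3 f_pp_123 t 10 7 1 = true :=
  ⟨(c (a (a (l 3) (b (a (a (l 3) (a (l 3) (b (l 16777208) (l 3)))) (b (a (b (l 16777152) (l 1652656438935)) (a (a (l 16777192) (l 16777208)) (a (a (a (l 16773904) (a (l 16771448) (b (b (l 16760584) (l 16774792)) (l 16777216)))) (l 16769336)) (l 16769288)))) (a (l 3) (a (a (l 16777216) (l 3213340180439)) (a (a (a (l 16777216) (a (l 16777216) (l 16777216))) (l 16777216)) (l 16777216)))))) (l 1))) (b (b (l 16767840) (l 16777216)) (l 1))) (a (a (l 3) (b (a (a (l 3) (a (l 3) (b (l 16777208) (l 3)))) (b (a (b (l 16777152) (l 16777200)) (a (a (l 16777192) (l 16777208)) (a (a (a (l 16773784) (a (l 16771240) (b (b (l 16760000) (l 16774712)) (l 16777216)))) (l 16769064)) (l 16769008)))) (a (l 3) (a (a (l 16777216) (l 3505397956567)) (a (a (a (l 16777216) (a (l 16777216) (l 16777216))) (l 16777216)) (l 16777216)))))) (l 1))) (b (b (l 16767512) (l 16777216)) (l 1)))), by decide +kernel⟩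

def k15_pp_123 : ∃ t, chk3 f_pp_123 t 11 3 1 = true :=
  ⟨(b (b (b (a (l 16742456) (l 16777192)) (a (l 16707312) (l 16777120))) (b (c (l 16750960) (l 16750040)) (c (l 16762912) (l 16762408)))) (b (b (c (l 16774184) (l 16774080)) (l 1)) (l 1))), by decide +kernel⟩

def k16_pp_123 : ∃ t, chk3 f_pp_123 t 3 1 1 = true :=
  ⟨(b (b (a (b (a (l 16688176) (l 16687880)) (l 16657680)) (b (a (l 16688176) (l 16688176)) (l 16657680))) (a (c (b (a (l 16759192) (l 16759192)) (a (l 16777216) (l 16777216))) (b (l 16758560) (l 16777216))) (b (l 16758880) (l 16777216)))) (b (a (b (b (l 16777216) (l 16777216)) (b (l 16777216) (l 16777216))) (b (l 16777216) (l 1))) (l 1))), by decide +kernel⟩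

theorem s17_pp_123 : ∃ t, chk3 f_pp_123 t 10 3 1 = true := ex3_b k13_pp_123 k14_pp_123

theorem s18_pp_123 : ∃ t, chk3 f_pp_123 t 5 3 1 = true := ex3_a s17_pp_123 k15_pp_123

theorem s19_pp_123 : ∃ t, chk3 f_pp_123 t 20 5 1 = true := ex3_b k9_pp_123 k10_pp_123

theorem s20_pp_123 : ∃ t, chk3 f_pp_123 t 10 5 1 = true := ex3_a s19_pp_123 k11_pp_123

theorem s21_pp_123 : ∃ t, chk3 f_pp_123 t 10 2 1 = true := ex3_b k8_pp_123 s20_pp_123

theorem s22_pp_123 : ∃ t, chk3 f_pp_123 t 5 2 1 = true := ex3_a s21_pp_123 k12_pp_123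

theorem s23_pp_123 : ∃ t, chk3 f_pp_123 t 5 1 1 = true := ex3_b s22_pp_123 s18_pp_123

theorem s24_pp_123 : ∃ t, chk3 f_pp_123 t 19 5 1 = true := ex3_b k5_pp_123 k6_pp_123

theorem s25_pp_123 : ∃ t, chk3 f_pp_123 t 9 5 1 = true := ex3_a k4_pp_123 s24_pp_123

theorem s26_pp_123 : ∃ t, chk3 f_pp_123 t 9 2 1 = true := ex3_b k3_pp_123 s25_pp_123

theorem s27_pp_123 : ∃ t, chk3 f_pp_123 t 16 2 1 = true := ex3_b k0_pp_123 k1_pp_123

theorem s28_pp_123 : ∃ t, chk3 f_pp_123 t 8 2 1 = true := ex3_a s27_pp_123 k2_pp_123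

theorem s29_pp_123 : ∃ t, chk3 f_pp_123 t 4 2 1 = true := ex3_a s28_pp_123 s26_pp_123

theorem s30_pp_123 : ∃ t, chk3 f_pp_123 t 4 1 1 = true := ex3_b s29_pp_123 k7_pp_123

theorem s31_pp_123 : ∃ t, chk3 f_pp_123 t 2 1 1 = true := ex3_a s30_pp_123 s23_pp_123

theorem s32_pp_123 : ∃ t, chk3 f_pp_123 t 1 1 1 = true := ex3_a s31_pp_123 k16_pp_123

theorem c_pp_123 : CertNX 536870912 536870912 0 1230186008 1046898278 26843546 3 false true true .npn 1 2 3
    ndN1q1 ndN7q3 pcN2 Cut.none Ext.none :=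
  certNX2 (fam := false) (s1 := true) (s2 := true) (a := 1) (b := 2) (c := 3) (cn := .npn) (n1 := ndN1q1) (n2 := ndN7q3) (pc := pcN2) (cut := Cut.none) (xt := Ext.none) (P1 := 536870912) (W1 := 536870912) (P2 := 0) (W2 := 1230186008) (P3 := 1046898278) (W3 := 26843546) (N0 := 3)
    rfl (fun _ => rfl) s32_pp_123

noncomputable def f_pp_133 : ℕ → ℕ → ℕ → ℕ → Bool := onCell 536870912 536870912 0 1230186008 1046898278 26843546
    (rowNX 3 0 false true true .dn 1 3 3 (qsf 536870912 536870912 0 1230186008 3) ndN1q1 ndN7q3 pcN3 Cut.none Ext.none)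

def k0_pp_133 : ∃ t, chk3 f_pp_133 t 1 1 1 = true :=
  ⟨(b (a (b (a (b (l 5640398799415) (l 1)) (l 1)) (l 1)) (l 1)) (l 1)), by decide +kernel⟩

theorem c_pp_133 : CertNX 536870912 536870912 0 1230186008 1046898278 26843546 3 false true true .dn 1 3 3
    ndN1q1 ndN7q3 pcN3 Cut.none Ext.none :=
  certNX0 (fam := false) (s1 := true) (s2 := true) (a := 1) (b := 3) (c := 3) (cn := .dn) (n1 := ndN1q1) (n2 := ndN7q3) (pc := pcN3) (cut := Cut.none) (xt := Ext.none) (P1 := 536870912) (W1 := 536870912) (P2 := 0) (W2 := 1230186008) (P3 := 1046898278) (W3 := 26843546) (N0 := 3)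
    rfl k0_pp_133

noncomputable def f_pp_202_a : ℕ → ℕ → ℕ → ℕ → Bool := onCell 0 420477299 1073741824 536870912 1046898278 26843546
    (rowNX 3 0 false true true .pp 2 0 2 (qsf 0 420477299 1073741824 536870912 0) ndN1q2a ndN7q2 pcN0 Cut.none Ext.none)

def k0_pp_202_a : ∃ t, chk3 f_pp_202_a t 1 1 1 = true :=
  ⟨(l 5), by decide +kernel⟩

theorem c_pp_202_a : CertNX 0 420477299 1073741824 536870912 1046898278 26843546 3 false true true .pp 2 0 2
    ndN1q2a ndN7q2 pcN0 Cut.none Ext.none :=
  certNX0 (fam := false) (s1 := true) (s2 := true) (a := 2) (b := 0) (c := 2) (cn := .pp) (n1 := ndN1q2a) (n2 := ndN7q2) (pc := pcN0) (cut := Cut.none) (xt := Ext.none) (P1 := 0) (W1 := 420477299) (P2 := 1073741824) (W2 := 536870912) (P3 := 1046898278) (W3 := 26843546) (N0 := 3)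
    rfl k0_pp_202_a

noncomputable def f_pp_202_b : ℕ → ℕ → ℕ → ℕ → Bool := onCell 1239849684 370763052 1073741824 536870912 1046898278 26843546
    (rowNX 3 0 false true true .pp 2 0 2 (qsf 1239849684 370763052 1073741824 536870912 0) ndN1q2b ndN7q2 pcN0 Cut.none Ext.none)

def k0_pp_202_b : ∃ t, chk3 f_pp_202_b t 1 1 1 = true :=
  ⟨(l 5), by decide +kernel⟩

theorem c_pp_202_b : CertNX 1239849684 370763052 1073741824 536870912 1046898278 26843546 3 false true true .pp 2 0 2
    ndN1q2b ndN7q2 pcN0 Cut.none Ext.none :=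
  certNX0 (fam := false) (s1 := true) (s2 := true) (a := 2) (b := 0) (c := 2) (cn := .pp) (n1 := ndN1q2b) (n2 := ndN7q2) (pc := pcN0) (cut := Cut.none) (xt := Ext.none) (P1 := 1239849684) (W1 := 370763052) (P2 := 1073741824) (W2 := 536870912) (P3 := 1046898278) (W3 := 26843546) (N0 := 3)
    rfl k0_pp_202_b

noncomputable def f_pp_203_a : ℕ → ℕ → ℕ → ℕ → Bool := onCell 0 420477299 0 1230186008 1046898278 26843546
    (rowNX 3 0 false true true .up 2 0 3 (qsf 0 420477299 0 1230186008 0) ndN1q2a ndN7q3 pcN0 Cut.none Ext.none)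

def k0_pp_203_a : ∃ t, chk3 f_pp_203_a t 1 1 1 = true :=
  ⟨(b (l 2) (b (l 2) (l 5))), by decide +kernel⟩

theorem c_pp_203_a : CertNX 0 420477299 0 1230186008 1046898278 26843546 3 false true true .up 2 0 3
    ndN1q2a ndN7q3 pcN0 Cut.none Ext.none :=
  certNX0 (fam := false) (s1 := true) (s2 := true) (a := 2) (b := 0) (c := 3) (cn := .up) (n1 := ndN1q2a) (n2 := ndN7q3) (pc := pcN0) (cut := Cut.none) (xt := Ext.none) (P1 := 0) (W1 := 420477299) (P2 := 0) (W2 := 1230186008) (P3 := 1046898278) (W3 := 26843546) (N0 := 3)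
    rfl k0_pp_203_a

noncomputable def f_pp_203_b : ℕ → ℕ → ℕ → ℕ → Bool := onCell 1239849684 370763052 0 1230186008 1046898278 26843546
    (rowNX 3 0 false true true .up 2 0 3 (qsf 1239849684 370763052 0 1230186008 0) ndN1q2b ndN7q3 pcN0 Cut.none Ext.none)

def k0_pp_203_b : ∃ t, chk3 f_pp_203_b t 1 1 1 = true :=
  ⟨(b (l 3) (l 5)), by decide +kernel⟩

theorem c_pp_203_b : CertNX 1239849684 370763052 0 1230186008 1046898278 26843546 3 false true true .up 2 0 3
    ndN1q2b ndN7q3 pcN0 Cut.none Ext.none :=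
  certNX0 (fam := false) (s1 := true) (s2 := true) (a := 2) (b := 0) (c := 3) (cn := .up) (n1 := ndN1q2b) (n2 := ndN7q3) (pc := pcN0) (cut := Cut.none) (xt := Ext.none) (P1 := 1239849684) (W1 := 370763052) (P2 := 0) (W2 := 1230186008) (P3 := 1046898278) (W3 := 26843546) (N0 := 3)
    rfl k0_pp_203_b

noncomputable def f_pp_213_a : ℕ → ℕ → ℕ → ℕ → Bool := onCell 0 420477299 0 1230186008 1046898278 26843546
    (rowNX 3 0 false true true .pnn 2 1 3 (qsf 0 420477299 0 1230186008 1) ndN1q2a ndN7q3 pcN1 Cut.none Ext.none)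

def k0_pp_213_a : ∃ t, chk3 f_pp_213_a t 1 1 1 = true :=
  ⟨(b (l 3) (b (l 3) (l 5))), by decide +kernel⟩

theorem c_pp_213_a : CertNX 0 420477299 0 1230186008 1046898278 26843546 3 false true true .pnn 2 1 3
    ndN1q2a ndN7q3 pcN1 Cut.none Ext.none :=
  certNX0 (fam := false) (s1 := true) (s2 := true) (a := 2) (b := 1) (c := 3) (cn := .pnn) (n1 := ndN1q2a) (n2 := ndN7q3) (pc := pcN1) (cut := Cut.none) (xt := Ext.none) (P1 := 0) (W1 := 420477299) (P2 := 0) (W2 := 1230186008) (P3 := 1046898278) (W3 := 26843546) (N0 := 3)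
    rfl k0_pp_213_a

noncomputable def f_pp_213_b : ℕ → ℕ → ℕ → ℕ → Bool := onCell 1239849684 370763052 0 1230186008 1046898278 26843546
    (rowNX 3 0 false true true .pnn 2 1 3 (qsf 1239849684 370763052 0 1230186008 1) ndN1q2b ndN7q3 pcN1 Cut.none Ext.none)

def k0_pp_213_b : ∃ t, chk3 f_pp_213_b t 1 1 1 = true :=
  ⟨(b (l 3) (l 5)), by decide +kernel⟩

theorem c_pp_213_b : CertNX 1239849684 370763052 0 1230186008 1046898278 26843546 3 false true true .pnn 2 1 3
    ndN1q2b ndN7q3 pcN1 Cut.none Ext.none :=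
  certNX0 (fam := false) (s1 := true) (s2 := true) (a := 2) (b := 1) (c := 3) (cn := .pnn) (n1 := ndN1q2b) (n2 := ndN7q3) (pc := pcN1) (cut := Cut.none) (xt := Ext.none) (P1 := 1239849684) (W1 := 370763052) (P2 := 0) (W2 := 1230186008) (P3 := 1046898278) (W3 := 26843546) (N0 := 3)
    rfl k0_pp_213_b

noncomputable def f_pp_303 : ℕ → ℕ → ℕ → ℕ → Bool := onCell 1610612736 469762048 0 1230186008 1046898278 26843546
    (rowNX 3 0 false true true .npn 3 0 3 (qsf 1610612736 469762048 0 1230186008 0) ndN1q3 ndN7q3 pcN0 Cut.none Ext.none)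

def k0_pp_303 : ∃ t, chk3 f_pp_303 t 1 1 1 = true :=
  ⟨(b (l 3) (l 5)), by decide +kernel⟩

theorem c_pp_303 : CertNX 1610612736 469762048 0 1230186008 1046898278 26843546 3 false true true .npn 3 0 3
    ndN1q3 ndN7q3 pcN0 Cut.none Ext.none :=
  certNX0 (fam := false) (s1 := true) (s2 := true) (a := 3) (b := 0) (c := 3) (cn := .npn) (n1 := ndN1q3) (n2 := ndN7q3) (pc := pcN0) (cut := Cut.none) (xt := Ext.none) (P1 := 1610612736) (W1 := 469762048) (P2 := 0) (W2 := 1230186008) (P3 := 1046898278) (W3 := 26843546) (N0 := 3)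
    rfl k0_pp_303

noncomputable def f_pp_313 : ℕ → ℕ → ℕ → ℕ → Bool := onCell 1610612736 469762048 0 1230186008 1046898278 26843546
    (rowNX 3 0 false true true .dn 3 1 3 (qsf 1610612736 469762048 0 1230186008 1) ndN1q3 ndN7q3 pcN1 Cut.none Ext.none)

def k0_pp_313 : ∃ t, chk3 f_pp_313 t 1 1 1 = true :=
  ⟨(b (l 3) (l 1)), by decide +kernel⟩

theorem c_pp_313 : CertNX 1610612736 469762048 0 1230186008 1046898278 26843546 3 false true true .dn 3 1 3
    ndN1q3 ndN7q3 pcN1 Cut.none Ext.none :=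
  certNX0 (fam := false) (s1 := true) (s2 := true) (a := 3) (b := 1) (c := 3) (cn := .dn) (n1 := ndN1q3) (n2 := ndN7q3) (pc := pcN1) (cut := Cut.none) (xt := Ext.none) (P1 := 1610612736) (W1 := 469762048) (P2 := 0) (W2 := 1230186008) (P3 := 1046898278) (W3 := 26843546) (N0 := 3)
    rfl k0_pp_313

noncomputable def f_pm_001 : ℕ → ℕ → ℕ → ℕ → Bool := onCell 67108864 469762048 536870912 536870912 1046898278 26843546
    (rowNX 3 0 false true false .up 0 0 1 (qsf 67108864 469762048 536870912 536870912 0) ndN1q0 ndN7q1 pcN0 Cut.none Ext.none)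

def k0_pm_001 : ∃ t, chk3 f_pm_001 t 1 1 1 = true :=
  ⟨(l 4), by decide +kernel⟩

theorem c_pm_001 : CertNX 67108864 469762048 536870912 536870912 1046898278 26843546 3 false true false .up 0 0 1
    ndN1q0 ndN7q1 pcN0 Cut.none Ext.none :=
  certNX0 (fam := false) (s1 := true) (s2 := false) (a := 0) (b := 0) (c := 1) (cn := .up) (n1 := ndN1q0) (n2 := ndN7q1) (pc := pcN0) (cut := Cut.none) (xt := Ext.none) (P1 := 67108864) (W1 := 469762048) (P2 := 536870912) (W2 := 536870912) (P3 := 1046898278) (W3 := 26843546) (N0 := 3)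
    rfl k0_pm_001

noncomputable def f_pm_011 : ℕ → ℕ → ℕ → ℕ → Bool := onCell 67108864 469762048 536870912 536870912 1046898278 26843546
    (rowNX 3 0 false true false .pnn 0 1 1 (qsf 67108864 469762048 536870912 536870912 1) ndN1q0 ndN7q1 pcN1 Cut.none Ext.none)

def k0_pm_011 : ∃ t, chk3 f_pm_011 t 1 1 1 = true :=
  ⟨(l 4), by decide +kernel⟩

theorem c_pm_011 : CertNX 67108864 469762048 536870912 536870912 1046898278 26843546 3 false true false .pnn 0 1 1
    ndN1q0 ndN7q1 pcN1 Cut.none Ext.none :=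
  certNX0 (fam := false) (s1 := true) (s2 := false) (a := 0) (b := 1) (c := 1) (cn := .pnn) (n1 := ndN1q0) (n2 := ndN7q1) (pc := pcN1) (cut := Cut.none) (xt := Ext.none) (P1 := 67108864) (W1 := 469762048) (P2 := 536870912) (W2 := 536870912) (P3 := 1046898278) (W3 := 26843546) (N0 := 3)
    rfl k0_pm_011

noncomputable def f_pm_012 : ℕ → ℕ → ℕ → ℕ → Bool := onCell 67108864 469762048 1073741824 536870912 1046898278 26843546
    (rowNX 3 0 false true false .pnp 0 1 2 (qsf 67108864 469762048 1073741824 536870912 1) ndN1q0 ndN7q2 pcN1 Cut.none Ext.none)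

def k0_pm_012 : ∃ t, chk3 f_pm_012 t 1 1 1 = true :=
  ⟨(l 4), by decide +kernel⟩

theorem c_pm_012 : CertNX 67108864 469762048 1073741824 536870912 1046898278 26843546 3 false true false .pnp 0 1 2
    ndN1q0 ndN7q2 pcN1 Cut.none Ext.none :=
  certNX0 (fam := false) (s1 := true) (s2 := false) (a := 0) (b := 1) (c := 2) (cn := .pnp) (n1 := ndN1q0) (n2 := ndN7q2) (pc := pcN1) (cut := Cut.none) (xt := Ext.none) (P1 := 67108864) (W1 := 469762048) (P2 := 1073741824) (W2 := 536870912) (P3 := 1046898278) (W3 := 26843546) (N0 := 3)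
    rfl k0_pm_012

noncomputable def f_pm_022 : ℕ → ℕ → ℕ → ℕ → Bool := onCell 67108864 469762048 1073741824 536870912 1046898278 26843546
    (rowNX 3 0 false true false .pp 0 2 2 (qsf 67108864 469762048 1073741824 536870912 2) ndN1q0 ndN7q2 pcN2 Cut.none Ext.none)

def k0_pm_022 : ∃ t, chk3 f_pm_022 t 1 1 1 = true :=
  ⟨(l 4), by decide +kernel⟩

theorem c_pm_022 : CertNX 67108864 469762048 1073741824 536870912 1046898278 26843546 3 false true false .pp 0 2 2
    ndN1q0 ndN7q2 pcN2 Cut.none Ext.none :=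
  certNX0 (fam := false) (s1 := true) (s2 := false) (a := 0) (b := 2) (c := 2) (cn := .pp) (n1 := ndN1q0) (n2 := ndN7q2) (pc := pcN2) (cut := Cut.none) (xt := Ext.none) (P1 := 67108864) (W1 := 469762048) (P2 := 1073741824) (W2 := 536870912) (P3 := 1046898278) (W3 := 26843546) (N0 := 3)
    rfl k0_pm_022

noncomputable def f_pm_023 : ℕ → ℕ → ℕ → ℕ → Bool := onCell 67108864 469762048 0 1230186008 1046898278 26843546
    (rowNX 3 0 false true false .up 0 2 3 (qsf 67108864 469762048 0 1230186008 2) ndN1q0 ndN7q3 pcN2 Cut.none Ext.none)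

def k0_pm_023 : ∃ t, chk3 f_pm_023 t 1 1 1 = true :=
  ⟨(b (a (l 2) (b (a (l 2) (b (c (l 16689552) (l 16687512)) (l 16657680))) (l 4))) (l 4)), by decide +kernel⟩

theorem c_pm_023 : CertNX 67108864 469762048 0 1230186008 1046898278 26843546 3 false true false .up 0 2 3
    ndN1q0 ndN7q3 pcN2 Cut.none Ext.none :=
  certNX0 (fam := false) (s1 := true) (s2 := false) (a := 0) (b := 2) (c := 3) (cn := .up) (n1 := ndN1q0) (n2 := ndN7q3) (pc := pcN2) (cut := Cut.none) (xt := Ext.none) (P1 := 67108864) (W1 := 469762048) (P2 := 0) (W2 := 1230186008) (P3 := 1046898278) (W3 := 26843546) (N0 := 3)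
    rfl k0_pm_023

noncomputable def f_pm_033 : ℕ → ℕ → ℕ → ℕ → Bool := onCell 67108864 469762048 0 1230186008 1046898278 26843546
    (rowNX 3 0 false true false .pnn 0 3 3 (qsf 67108864 469762048 0 1230186008 3) ndN1q0 ndN7q3 pcN3 Cut.none Ext.none)

def k0_pm_033 : ∃ t, chk3 f_pm_033 t 1 1 1 = true :=
  ⟨(b (a (l 4) (b (b (a (c (l 16689552) (l 16687512)) (c (l 16689552) (l 16687512))) (a (l 4) (l 16657680))) (l 4))) (l 4)), by decide +kernel⟩

theorem c_pm_033 : CertNX 67108864 469762048 0 1230186008 1046898278 26843546 3 false true false .pnn 0 3 3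
    ndN1q0 ndN7q3 pcN3 Cut.none Ext.none :=
  certNX0 (fam := false) (s1 := true) (s2 := false) (a := 0) (b := 3) (c := 3) (cn := .pnn) (n1 := ndN1q0) (n2 := ndN7q3) (pc := pcN3) (cut := Cut.none) (xt := Ext.none) (P1 := 67108864) (W1 := 469762048) (P2 := 0) (W2 := 1230186008) (P3 := 1046898278) (W3 := 26843546) (N0 := 3)
    rfl k0_pm_033

noncomputable def f_pm_101 : ℕ → ℕ → ℕ → ℕ → Bool := onCell 536870912 536870912 536870912 536870912 1046898278 26843546
    (rowNX 3 0 false true false .npn 1 0 1 (qsf 536870912 536870912 536870912 536870912 0) ndN1q1 ndN7q1 pcN0 Cut.none Ext.none)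

def k0_pm_101 : ∃ t, chk3 f_pm_101 t 1 1 1 = true :=
  ⟨(l 4), by decide +kernel⟩

theorem c_pm_101 : CertNX 536870912 536870912 536870912 536870912 1046898278 26843546 3 false true false .npn 1 0 1
    ndN1q1 ndN7q1 pcN0 Cut.none Ext.none :=
  certNX0 (fam := false) (s1 := true) (s2 := false) (a := 1) (b := 0) (c := 1) (cn := .npn) (n1 := ndN1q1) (n2 := ndN7q1) (pc := pcN0) (cut := Cut.none) (xt := Ext.none) (P1 := 536870912) (W1 := 536870912) (P2 := 536870912) (W2 := 536870912) (P3 := 1046898278) (W3 := 26843546) (N0 := 3)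
    rfl k0_pm_101

noncomputable def f_pm_102 : ℕ → ℕ → ℕ → ℕ → Bool := onCell 536870912 536870912 1073741824 536870912 1046898278 26843546
    (rowNX 3 0 false true false .npp 1 0 2 (qsf 536870912 536870912 1073741824 536870912 0) ndN1q1 ndN7q2 pcN0 Cut.none Ext.none)

def k0_pm_102 : ∃ t, chk3 f_pm_102 t 1 1 1 = true :=
  ⟨(l 4), by decide +kernel⟩

theorem c_pm_102 : CertNX 536870912 536870912 1073741824 536870912 1046898278 26843546 3 false true false .npp 1 0 2
    ndN1q1 ndN7q2 pcN0 Cut.none Ext.none :=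
  certNX0 (fam := false) (s1 := true) (s2 := false) (a := 1) (b := 0) (c := 2) (cn := .npp) (n1 := ndN1q1) (n2 := ndN7q2) (pc := pcN0) (cut := Cut.none) (xt := Ext.none) (P1 := 536870912) (W1 := 536870912) (P2 := 1073741824) (W2 := 536870912) (P3 := 1046898278) (W3 := 26843546) (N0 := 3)
    rfl k0_pm_102

noncomputable def f_pm_112 : ℕ → ℕ → ℕ → ℕ → Bool := onCell 536870912 536870912 1073741824 536870912 1046898278 26843546
    (rowNX 3 0 false true false .dn 1 1 2 (qsf 536870912 536870912 1073741824 536870912 1) ndN1q1 ndN7q2 pcN1 Cut.none Ext.none)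

def k0_pm_112 : ∃ t, chk3 f_pm_112 t 1 1 1 = true :=
  ⟨(l 4), by decide +kernel⟩

theorem c_pm_112 : CertNX 536870912 536870912 1073741824 536870912 1046898278 26843546 3 false true false .dn 1 1 2
    ndN1q1 ndN7q2 pcN1 Cut.none Ext.none :=
  certNX0 (fam := false) (s1 := true) (s2 := false) (a := 1) (b := 1) (c := 2) (cn := .dn) (n1 := ndN1q1) (n2 := ndN7q2) (pc := pcN1) (cut := Cut.none) (xt := Ext.none) (P1 := 536870912) (W1 := 536870912) (P2 := 1073741824) (W2 := 536870912) (P3 := 1046898278) (W3 := 26843546) (N0 := 3)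
    rfl k0_pm_112

noncomputable def f_pm_113 : ℕ → ℕ → ℕ → ℕ → Bool := onCell 536870912 536870912 0 1230186008 1046898278 26843546
    (rowNX 3 0 false true false .nn 1 1 3 (qsf 536870912 536870912 0 1230186008 1) ndN1q1 ndN7q3 pcN1 Cut.none Ext.none)

def k0_pm_113 : ∃ t, chk3 f_pm_113 t 1 2 1 = true :=
  ⟨(a (l 2) (a (l 2) (b (a (l 2) (a (l 2) (b (b (a (l 2) (b (c (l 16634280) (l 16629248)) (l 16632464))) (l 16484704)) (l 15776880)))) (b (a (a (l 2) (b (l 2) (l 13447568))) (b (a (a (l 2) (l 14276000)) (l 14728856)) (a (a (l 13816696) (b (l 14182808) (l 14074944))) (b (l 14506624) (a (l 14347256) (l 14472344)))))) (a (b (a (l 2) (b (l 13375536) (a (l 13228944) (l 13427608)))) (a (b (l 13022568) (a (l 12913968) (l 13014176))) (b (a (l 13197144) (l 13435384)) (c (l 13510224) (l 13255696))))) (b (a (b (l 13873184) (l 13852432)) (b (l 14339920) (l 14283160))) (a (b (l 13870616) (l 13915480)) (l 14256736)))))))), by decide +kernel⟩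

def k1_pm_113 : ∃ t, chk3 f_pm_113 t 2 6 1 = true :=
  ⟨(l 4), by decide +kernel⟩

def k2_pm_113 : ∃ t, chk3 f_pm_113 t 6 6 1 = true :=
  ⟨(b (a (l 2) (b (a (l 2) (b (l 12791848) (a (l 12656080) (l 12749728)))) (b (b (a (l 2) (a (c (l 12622296) (b (l 12496440) (c (l 12508448) (a (l 12390296) (c (l 12502672) (l 12485296)))))) (l 12767360))) (a (l 4) (c (a (b (l 12619848) (l 12668184)) (a (c (l 12793136) (l 12791128)) (l 12957264))) (c (a (a (l 12491552) (b (l 12576352) (l 12650464))) (c (a (l 12800056) (l 12976960)) (a (b (l 12768208) (c (l 12856200) (l 12843832))) (l 12952584)))) (a (c (a (l 12440392) (c (l 12604224) (a (l 12539192) (l 12656280)))) (a (b (c (l 12398672) (l 12382432)) (l 4)) (a (l 12523488) (l 12632104)))) (b (l 12810432) (a (l 12796752) (l 12925928)))))))) (a (l 4) (a (l 4) (a (b (c (l 12863776) (c (c (l 12833872) (c (l 12806120) (l 12791192))) (l 12746792))) (l 4)) (c (c (l 13110248) (b (l 13045096) (b (l 12950728) (l 4)))) (c (b (c (b (c (l 13003216) (l 12985464))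 (l 12982768)) (l 12966808)) (l 12904176)) (l 12955536))))))))) (l 4)), by decide +kernel⟩

def k3_pm_113 : ∃ t, chk3 f_pm_113 t 28 12 1 = true :=
  ⟨(a (b (b (l 12867904) (l 12918680)) (b (b (l 13022440) (c (l 13244760) (l 13141200))) (c (c (b (a (l 13316680) (l 13502352)) (a (l 13224224) (b (l 13286720) (a (l 13179896) (l 13281208))))) (b (a (b (l 13276096) (c (l 13106912) (l 13077160))) (c (l 13472424) (l 13427808))) (a (c (a (l 13046424) (l 13212928)) (b (l 13148472) (l 13037720))) (c (b (a (l 13220744) (l 13262392)) (l 13257512)) (l 13165304))))) (b (a (b (l 13160488) (c (l 12994560) (l 12881352))) (l 13310696)) (a (l 12998368) (l 12933104)))))) (b (b (l 13052288) (l 13165408)) (b (l 13439448) (b (b (l 13583360) (c (a (a (c (l 13668208) (l 13579856)) (b (l 13693776) (l 13684416))) (l 13693336)) (a (a (l 13434720) (l 13482416)) (l 13499792)))) (c (a (b (a (l 13452560) (l 13551328)) (a (l 13259688) (l 13280864))) (b (c (l 13723080) (b (l 13691216) (l 13599888))) (l 13309640))) (a (b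 (l 13282472) (l 12969096)) (b (b (l 13544512) (a (l 13237632) (l 13380592))) (l 13143784)))))))), by decide +kernel⟩

def k4_pm_113 : ∃ t, chk3 f_pm_113 t 29 12 1 = true :=
  ⟨(b (b (l 13496432) (l 13636360)) (b (l 13761912) (b (l 13849744) (a (a (c (b (b (l 13841008) (c (l 13828648) (l 13731984))) (b (a (c (l 13585824) (l 13493440)) (c (l 13802232) (l 13708576))) (l 13284040))) (b (b (l 13585280) (c (l 13634712) (a (l 13499568) (l 13445944)))) (a (l 13090312) (b (c (l 13425496) (b (l 13395544) (l 13200344))) (l 12879448))))) (b (l 13836832) (b (a (b (a (a (c (l 13872968) (l 13659904)) (l 13829440)) (l 13842152)) (c (c (l 13838512) (a (l 13772752) (l 13814216))) (a (l 13606080) (l 13666848)))) (l 13870144)) (a (b (c (a (l 13595944) (b (l 13843224) (l 13683808))) (a (l 13278432) (l 13564536))) (c (a (l 13201816) (l 13463560)) (a (l 12944920) (l 13173952)))) (a (c (b (b (l 13914904) (l 13864856)) (b (l 13710120) (l 13639616))) (b (l 13668224) (l 13437912))) (c (b (l 13926416) (c (a (l 13913184)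 (l 13984352)) (l 13823896))) (b (l 13710992) (l 13659696)))))))) (b (l 13988800) (a (b (l 13949776) (a (b (l 13930520) (a (c (l 13966472) (l 13739040)) (l 13973968))) (l 14031064))) (l 14141112))))))), by decide +kernel⟩

def k5_pm_113 : ∃ t, chk3 f_pm_113 t 15 12 1 = true :=
  ⟨(b (a (l 14011376) (l 14355392)) (a (l 14296592) (b (l 14595112) (l 14785264)))), by decide +kernel⟩

def k6_pm_113 : ∃ t, chk3 f_pm_113 t 28 26 1 = true :=
  ⟨(a (a (l 4) (b (c (c (b (c (l 13257224) (l 13214440)) (l 4)) (c (l 13155800) (l 13073544))) (l 12951352)) (l 4))) (b (c (c (b (c (l 13230760) (l 13180728)) (l 13225168)) (b (l 13070288) (l 13085704))) (b (l 12896296) (l 12919824))) (a (l 4) (a (l 4) (l 13178176))))), by decide +kernel⟩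

def k7_pm_113 : ∃ t, chk3 f_pm_113 t 29 104 1 = true :=
  ⟨(a (a (b (l 12960680) (c (l 13082664) (l 12833312))) (b (b (a (c (c (l 13213656) (l 13108384)) (c (l 12960408) (b (l 12766080) (l 12674792)))) (b (a (c (l 13319344) (l 13062032)) (c (c (l 13691048) (l 13578584)) (l 13359640))) (a (c (l 13029856) (l 12757408)) (l 13269600)))) (a (l 12845400) (b (c (a (l 12966024) (l 13053952)) (l 12764712)) (l 12860704)))) (l 12935552))) (b (b (a (b (a (a (c (b (l 13923064) (l 13769080)) (l 13673704)) (c (c (l 14083568) (l 13948008)) (l 13798472))) (a (c (l 14083312) (l 13872680)) (l 14089288))) (c (a (c (l 13729720) (l 13657016)) (a (b (l 14101992) (l 14051120)) (l 14152464))) (a (a (l 13303176) (l 13619136)) (a (l 13851944) (l 13933536))))) (l 14211088)) (b (a (a (c (a (l 13256216) (l 13644288)) (l 13124728)) (c (a (l 13643288) (c (l 14160560) (l 14064032))) (a (l 13620472) (l 13892752)))) (a (a (c (b (l 14214464) (l 14179992)) (l 13993992)) (l 14225496)) (l 14289280))) (a (a (c (l 13280184)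 (l 12936256)) (c (l 13633320) (l 13434880))) (c (a (c (a (l 14213760) (l 14333880)) (a (l 14105912) (l 14199360))) (l 14350832)) (c (a (l 14040648) (l 14219536)) (a (l 13927040) (l 14108472))))))) (a (c (c (l 13451480) (l 13345464)) (c (l 13092424) (c (l 13075496) (c (l 13056480) (l 12924936))))) (b (a (c (l 13742832) (b (l 13739184) (l 13444568))) (b (c (a (c (l 14346600) (l 14256896)) (l 14395544)) (c (l 14185384) (l 14088576))) (c (a (l 14112160) (c (l 14402608) (l 14306832))) (l 14033792)))) (c (a (l 13564960) (a (l 13634048) (l 14092392))) (c (l 13444984) (c (l 13363480) (l 13183256)))))))), by decide +kernel⟩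

def k8_pm_113 : ∃ t, chk3 f_pm_113 t 29 105 1 = true :=
  ⟨(a (a (c (b (l 13116664) (l 13151720)) (l 12877400)) (l 13055512)) (a (l 13166744) (a (l 13305288) (c (l 13540616) (c (l 13530776) (c (l 13494408) (l 13211504))))))), by decide +kernel⟩

def k9_pm_113 : ∃ t, chk3 f_pm_113 t 29 53 1 = true :=
  ⟨(a (l 13256152) (b (l 13399448) (l 13476432))), by decide +kernel⟩

def k10_pm_113 : ∃ t, chk3 f_pm_113 t 14 27 1 = true :=
  ⟨(a (l 4) (b (a (l 4) (l 13657904)) (l 4))), by decide +kernel⟩

def k11_pm_113 : ∃ t, chk3 f_pm_113 t 60 52 1 = true :=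
  ⟨(b (b (l 14477160) (a (a (b (b (l 14419480) (c (c (l 14521632) (c (l 14458360) (l 14381064))) (c (l 14312408) (l 14225744)))) (c (a (l 14130240) (b (c (l 14565392) (l 14437000)) (l 14316688))) (b (l 14222808) (l 13995912)))) (b (l 14509816) (c (a (b (l 14559936) (b (l 14548512) (l 14442120))) (l 14608824)) (b (a (l 14364744) (l 14463464)) (l 14370672))))) (l 14644624))) (b (b (a (a (c (a (l 13778248) (l 14270296)) (b (l 13729776) (l 13511992))) (c (a (l 14306200) (b (l 14572840) (l 14388984))) (b (l 14275480) (l 13979928)))) (a (c (c (b (l 14735424) (a (l 14549040) (l 14733280))) (b (l 14620392) (l 14610320))) (b (l 14496736) (l 14461768))) (b (l 14739960) (c (l 14787272) (l 14612624))))) (a (c (l 13886040) (c (l 13728832) (a (l 13367656) (l 13610352)))) (c (a (l 14409888) (b (a (l 14737976) (l 14827488)) (l 14530984))) (a (b (l 14251344) (l 14012552)) (b (l 14605232) (l 14459112)))))) (c (a (l 13901704) (a (l 14074432) (b (l 14553584) (a (l 14048048) (l 14154664))))) (a (a (l 13387360)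 (c (l 13809976) (l 13582672))) (a (b (l 13766096) (a (l 13602824) (l 13696160))) (b (l 14197696) (l 13864592))))))), by decide +kernel⟩

def k12_pm_113 : ∃ t, chk3 f_pm_113 t 61 52 1 = true :=
  ⟨(b (l 14783840) (a (b (a (b (l 14818840) (c (c (l 14917392) (b (l 14841296) (l 14828760))) (c (a (l 14736736) (l 14809008)) (l 14687664)))) (l 14894104)) (b (a (c (a (b (l 14718072) (l 14646144)) (b (l 14884920) (l 14752152))) (a (l 14497488) (l 14702520))) (c (a (b (l 14944864) (l 14906312)) (l 14958688)) (b (l 14798992) (l 14781056)))) (a (c (b (a (l 14406448) (l 14654464)) (l 14314064)) (l 14177600)) (c (l 14715064) (b (l 14643832) (l 14467848)))))) (b (l 14928416) (c (a (b (l 14970976) (c (b (l 15011992) (l 14975080)) (a (l 14909216) (l 14935960)))) (l 14996160)) (c (b (l 14890816) (a (l 14853256) (l 14642296))) (a (b (l 14820232) (l 14786544)) (b (l 14860968) (l 14854736)))))))), by decide +kernel⟩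

def k13_pm_113 : ∃ t, chk3 f_pm_113 t 30 53 1 = true :=
  ⟨(a (b (a (l 13529648) (l 13817048)) (a (l 13628792) (l 13887456))) (b (a (b (c (l 14192216) (c (l 14120144) (a (b (l 13912880) (l 13848664)) (l 14185560)))) (l 14113944)) (c (b (a (b (l 14784776) (l 14502872)) (l 14905552)) (l 14585648)) (b (b (a (l 14691664) (b (l 14868800) (l 14769824))) (l 14342824)) (l 14427352)))) (l 14324240))), by decide +kernel⟩

def k14_pm_113 : ∃ t, chk3 f_pm_113 t 31 26 1 = true :=
  ⟨(b (l 14961616) (a (b (a (a (b (c (l 14982360) (l 14875392)) (c (l 14890544) (l 14542232))) (c (l 15034200) (l 14935848))) (b (l 15056672) (l 15037704))) (b (a (l 14733192) (l 15006808)) (l 14836152))) (a (b (l 15050104) (l 15169472)) (l 15149384)))), by decide +kernel⟩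

def k15_pm_113 : ∃ t, chk3 f_pm_113 t 15 27 1 = true :=
  ⟨(a (b (a (b (l 14103544) (l 14257088)) (b (a (l 14370152) (l 14627056)) (l 14679864))) (a (b (l 14219600) (l 4)) (b (l 14566600) (a (l 14365432) (l 14531016))))) (b (a (b (l 14952968) (l 15150536)) (b (a (l 15230992) (l 15299904)) (l 15326632))) (a (a (l 14907176) (l 15167512)) (b (l 15300536) (l 15202640))))), by decide +kernel⟩

def k16_pm_113 : ∃ t, chk3 f_pm_113 t 1 7 1 = true :=
  ⟨(a (l 4) (b (a (l 4) (a (l 4) (b (b (b (a (a (l 4) (l 14468736)) (a (l 14682416) (l 14995888))) (a (l 4) (l 15002728))) (a (l 4) (a (l 14757184) (l 14814016)))) (l 4)))) (l 4))), by decide +kernel⟩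

theorem s17_pm_113 : ∃ t, chk3 f_pm_113 t 30 52 1 = true := ex3_a k11_pm_113 k12_pm_113

theorem s18_pm_113 : ∃ t, chk3 f_pm_113 t 30 26 1 = true := ex3_b s17_pm_113 k13_pm_113

theorem s19_pm_113 : ∃ t, chk3 f_pm_113 t 15 26 1 = true := ex3_a s18_pm_113 k14_pm_113

theorem s20_pm_113 : ∃ t, chk3 f_pm_113 t 15 13 1 = true := ex3_b s19_pm_113 k15_pm_113

theorem s21_pm_113 : ∃ t, chk3 f_pm_113 t 29 52 1 = true := ex3_b k7_pm_113 k8_pm_113

theorem s22_pm_113 : ∃ t, chk3 f_pm_113 t 29 26 1 = true := ex3_b s21_pm_113 k9_pm_113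

theorem s23_pm_113 : ∃ t, chk3 f_pm_113 t 14 26 1 = true := ex3_a k6_pm_113 s22_pm_113

theorem s24_pm_113 : ∃ t, chk3 f_pm_113 t 14 13 1 = true := ex3_b s23_pm_113 k10_pm_113

theorem s25_pm_113 : ∃ t, chk3 f_pm_113 t 7 13 1 = true := ex3_a s24_pm_113 s20_pm_113

theorem s26_pm_113 : ∃ t, chk3 f_pm_113 t 14 12 1 = true := ex3_a k3_pm_113 k4_pm_113

theorem s27_pm_113 : ∃ t, chk3 f_pm_113 t 7 12 1 = true := ex3_a s26_pm_113 k5_pm_113

theorem s28_pm_113 : ∃ t, chk3 f_pm_113 t 7 6 1 = true := ex3_b s27_pm_113 s25_pm_113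

theorem s29_pm_113 : ∃ t, chk3 f_pm_113 t 3 6 1 = true := ex3_a k2_pm_113 s28_pm_113

theorem s30_pm_113 : ∃ t, chk3 f_pm_113 t 1 6 1 = true := ex3_a k1_pm_113 s29_pm_113

theorem s31_pm_113 : ∃ t, chk3 f_pm_113 t 1 3 1 = true := ex3_b s30_pm_113 k16_pm_113

theorem s32_pm_113 : ∃ t, chk3 f_pm_113 t 1 1 1 = true := ex3_b k0_pm_113 s31_pm_113

theorem c_pm_113 : CertNX 536870912 536870912 0 1230186008 1046898278 26843546 3 false true false .nn 1 1 3
    ndN1q1 ndN7q3 pcN1 Cut.none Ext.none :=
  certNX0 (fam := false) (s1 := true) (s2 := false) (a := 1) (b := 1) (c := 3) (cn := .nn) (n1 := ndN1q1) (n2 := ndN7q3) (pc := pcN1) (cut := Cut.none) (xt := Ext.none) (P1 := 536870912) (W1 := 536870912) (P2 := 0) (W2 := 1230186008) (P3 := 1046898278) (W3 := 26843546) (N0 := 3)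
    rfl s32_pm_113

noncomputable def f_pm_123 : ℕ → ℕ → ℕ → ℕ → Bool := onCell 1073741824 536870912 0 1230186008 1046898278 26843546
    (rowNX 3 2 false true false .npn 1 2 3 (qsf 536870912 536870912 0 1230186008 2) ndN1q1 ndN7q3 pcN2 Cut.none Ext.none)

def k0_pm_123 : ∃ t, chk3 f_pm_123 t 1 2 1 = true :=
  ⟨(a (a (b (b (a (b (a (l 16395168) (l 16244968)) (a (l 16192056) (l 16082888))) (b (l 15201208) (a (l 15699960) (l 15180680)))) (a (a (b (l 15778448) (l 15304040)) (l 15481064)) (b (l 15064848) (a (a (l 15298912) (l 15197216)) (l 14849152))))) (a (b (b (a (b (l 14742256) (c (l 14717408) (l 14241480))) (c (b (l 15158368) (l 14899240)) (l 14783720))) (a (c (l 14243904) (c (l 13965264) (l 13773648))) (c (l 14477240) (l 14280616)))) (c (a (l 13496512) (c (l 13811576) (a (l 13680112) (l 13801792)))) (a (b (c (l 13503392) (l 13358248)) (c (l 13147584) (l 13036344))) (b (l 13825912) (l 13432792))))) (b (a (a (b (l 14936560) (l 14454048)) (b (l 14841872) (l 14433456))) (b (l 14588136) (l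 14335096))) (a (c (a (c (l 13958144) (l 13853056)) (l 13956912)) (l 13781600)) (b (l 14089328) (l 13868080)))))) (b (a (a (b (a (l 14766616) (l 14914088)) (a (l 14638408) (l 14819536))) (b (l 15566576) (l 15404920))) (a (b (l 16179488) (l 16030904)) (b (l 16660840) (l 16383824)))) (a (b (a (a (l 14475560) (l 14717304)) (l 15239496)) (a (a (l 14314080) (l 14621808)) (l 14964792))) (b (a (l 15751080) (l 16049216)) (a (l 15479200) (l 15833872)))))) (b (a (b (a (b (l 16719096) (l 16603720)) (l 16685544)) (a (l 16470488) (l 16649192))) (b (a (l 16688176) (l 16688176)) (a (l 16657680) (l 16657680)))) (a (a (b (a (l 16259792) (l 16510064)) (l 4)) (c (l 16760312) (l 16906280))) (c (l 16766592) (l 16766216))))), by decide +kernel⟩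

def k1_pm_123 : ∃ t, chk3 f_pm_123 t 1 3 1 = true :=
  ⟨(b (b (a (a (a (a (a (c (l 12782936) (c (l 12662616) (b (l 12655760) (l 12497304)))) (c (l 12945976) (c (b (l 12917448) (l 12774576)) (l 12783376)))) (b (c (c (l 13278344) (a (l 13132568) (l 13294736))) (l 13103920)) (l 4))) (b (a (c (a (c (l 13517608) (l 13392544)) (l 13601688)) (l 13368520)) (l 13786184)) (l 4))) (l 4)) (l 4)) (l 4)) (l 4)), by decide +kernel⟩

theorem s2_pm_123 : ∃ t, chk3 f_pm_123 t 1 1 1 = true := ex3_b k0_pm_123 k1_pm_123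

theorem c_pm_123 : CertNX 536870912 536870912 0 1230186008 1046898278 26843546 3 false true false .npn 1 2 3
    ndN1q1 ndN7q3 pcN2 Cut.none Ext.none :=
  certNX2 (fam := false) (s1 := true) (s2 := false) (a := 1) (b := 2) (c := 3) (cn := .npn) (n1 := ndN1q1) (n2 := ndN7q3) (pc := pcN2) (cut := Cut.none) (xt := Ext.none) (P1 := 536870912) (W1 := 536870912) (P2 := 0) (W2 := 1230186008) (P3 := 1046898278) (W3 := 26843546) (N0 := 3)
    rfl (fun _ => rfl) s2_pm_123

noncomputable def f_pm_133 : ℕ → ℕ → ℕ → ℕ → Bool := onCell 536870912 536870912 0 1230186008 1046898278 26843546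
    (rowNX 3 0 false true false .dn 1 3 3 (qsf 536870912 536870912 0 1230186008 3) ndN1q1 ndN7q3 pcN3 Cut.none Ext.none)

def k0_pm_133 : ∃ t, chk3 f_pm_133 t 1 1 1 = true :=
  ⟨(b (a (b (a (b (l 555157531447) (l 1)) (l 1)) (l 1)) (l 1)) (l 1)), by decide +kernel⟩

theorem c_pm_133 : CertNX 536870912 536870912 0 1230186008 1046898278 26843546 3 false true false .dn 1 3 3
    ndN1q1 ndN7q3 pcN3 Cut.none Ext.none :=
  certNX0 (fam := false) (s1 := true) (s2 := false) (a := 1) (b := 3) (c := 3) (cn := .dn) (n1 := ndN1q1) (n2 := ndN7q3) (pc := pcN3) (cut := Cut.none) (xt := Ext.none) (P1 := 536870912) (W1 := 536870912) (P2 := 0) (W2 := 1230186008) (P3 := 1046898278) (W3 := 26843546) (N0 := 3)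
    rfl k0_pm_133

noncomputable def f_pm_202_a : ℕ → ℕ → ℕ → ℕ → Bool := onCell 0 420477299 0 536870912 1046898278 26843546
    (rowNX 3 1 false true false .pp 2 0 2 (qsf 0 420477299 1073741824 536870912 0) ndN1q2a ndN7q2 pcN0 Cut.none Ext.none)

def k0_pm_202_a : ∃ t, chk3 f_pm_202_a t 1 1 1 = true :=
  ⟨(a (b (a (b (b (b (b (c (b (l 15279232) (b (l 15394008) (l 15470440))) (b (c (l 15235888) (b (l 15164736) (l 15249448))) (l 15385264))) (c (l 15474800) (l 15568984))) (b (l 15666488) (a (l 16036632) (l 15917240)))) (b (b (b (l 15929088) (l 16215016)) (l 16347000)) (b (l 16500432) (l 16626784)))) (b (b (l 16575864) (l 16512400)) (b (l 16671000) (l 16777024)))) (b (b (b (b (c (b (l 14837840) (c (l 15018304) (l 14988936))) (b (c (l 14784512) (b (l 14704192) (l 14792856))) (l 14773248))) (c (b (l 15168552) (l 15311080)) (l 15173456))) (c (b (l 15481520) (l 15679888)) (l 15536304))) (b (b (l 15859096) (l 16058424)) (l 16330928))) (b (b (l 16639296) (l 16613224)) (b (l 16675608) (l 16776184)))))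 (b (c (b (l 16776592) (l 16776592)) (b (l 16776568) (l 16776568))) (l 2))) (a (b (b (b (b (b (c (b (l 14146320) (c (l 14277424) (b (l 14252824) (l 14340880)))) (b (c (b (l 14030744) (l 14119304)) (b (c (l 13994832) (l 13844864)) (l 14073048))) (c (l 14254608) (l 14210176)))) (c (b (c (l 14512288) (l 14472136)) (l 14661856)) (l 14500144))) (c (b (l 14816592) (l 14987504)) (b (l 14832680) (l 15119240)))) (b (b (l 15198192) (l 15600928)) (l 15904440))) (b (b (l 16265184) (l 16561800)) (b (l 16741184) (l 16772424)))) (b (c (l 16772680) (l 16772528)) (c (l 16772680) (l 16772528)))) (a (b (b (b (l 4) (b (b (l 4) (l 15097208)) (l 15408696))) (b (b (l 15798696) (l 16154088)) (b (l 16459320) (l 16661928)))) (b (b (l 16707520) (l 16707520)) (b (l 16707520) (l 2)))) (b (b (l 4) (b (b (l 4) (l 15578920)) (b (l 15918984) (l 16219776)))) (b (b (l 16383232) (l 16393072)) (b (l 16393072) (l 16393072))))))), by decide +kernel⟩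

theorem c_pm_202_a : CertNX 0 420477299 1073741824 536870912 1046898278 26843546 3 false true false .pp 2 0 2
    ndN1q2a ndN7q2 pcN0 Cut.none Ext.none :=
  certNX1 (fam := false) (s1 := true) (s2 := false) (a := 2) (b := 0) (c := 2) (cn := .pp) (n1 := ndN1q2a) (n2 := ndN7q2) (pc := pcN0) (cut := Cut.none) (xt := Ext.none) (P1 := 0) (W1 := 420477299) (P2 := 1073741824) (W2 := 536870912) (P3 := 1046898278) (W3 := 26843546) (N0 := 3)
    rfl (fun _ => rfl) k0_pm_202_a

noncomputable def f_pm_202_b : ℕ → ℕ → ℕ → ℕ → Bool := onCell 0 536870912 1073741824 536870912 1046898278 26843546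
    (rowNX 3 2 false true false .pp 2 0 2 (qsf 1239849684 370763052 1073741824 536870912 0) ndN1q2b ndN7q2 pcN0 Cut.none Ext.none)

def k0_pm_202_b : ∃ t, chk3 f_pm_202_b t 4 1 1 = true :=
  ⟨(b (b (l 1) (b (a (a (a (a (c (l 15357856) (a (b (l 14924584) (l 15557304)) (b (l 1) (l 15492680)))) (b (l 1) (c (l 15622592) (l 15603864)))) (c (b (l 1) (l 15652640)) (l 15047536))) (b (l 1) (c (l 15591024) (l 15584624)))) (l 1)) (a (a (a (a (c (l 16224128) (c (l 16207248) (l 16007480))) (c (a (l 16220240) (c (l 16226848) (l 16226776))) (c (l 16065424) (l 16197696)))) (c (b (l 16052536) (a (l 16406136) (l 16408520))) (b (l 16014280) (l 16382728)))) (c (a (b (l 16042568) (l 16394520)) (b (l 15837160) (l 16376392))) (a (l 16200160) (l 16187992)))) (a (a (c (l 16136232) (l 16180272)) (l 16060520)) (b (l 1) (l 16320016)))))) (a (a (b (a (c (a (b (l 16043456) (l 15436352)) (b (c (l 16077880) (l 16061856)) (c (l 15484968) (l 15455504)))) (b (a (c (a (l 16032640) (l 16045696)) (c (l 15993712) (l 16033600)))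 (c (l 16052576) (l 16055216))) (a (c (l 15414296) (a (l 15391920) (l 15402168))) (l 15236856)))) (c (b (a (l 16065904) (l 16085440)) (a (l 15471864) (l 15495552))) (b (l 16090184) (l 15477664)))) (c (a (a (l 15099776) (c (l 15160344) (l 15123448))) (b (l 15276128) (l 15056768))) (a (a (c (l 15071904) (a (l 15043768) (l 15056528))) (l 14938960)) (l 15150336)))) (b (c (b (a (l 16145544) (l 16221656)) (a (l 15565088) (l 15653016))) (b (l 16178352) (l 15581872))) (c (b (l 15410168) (l 15210120)) (l 15278928)))) (a (b (b (c (l 16334704) (l 16321728)) (c (l 15826056) (l 15792336))) (c (l 15581896) (l 15604504))) (b (b (l 62846425207) (l 16080880)) (a (l 15980832) (l 16121784)))))), by decide +kernel⟩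

def k1_pm_202_b : ∃ t, chk3 f_pm_202_b t 5 1 1 = true :=
  ⟨(b (l 1) (b (a (b (b (a (l 16546112) (l 1)) (l 16638256)) (b (l 16390776) (l 16366184))) (b (l 1) (a (l 16685552) (b (l 1) (l 16776992))))) (a (b (l 16370104) (a (l 16212816) (l 16540560))) (a (c (l 16695680) (l 16695344)) (c (l 16777096) (l 16777096)))))), by decide +kernel⟩

def k2_pm_202_b : ∃ t, chk3 f_pm_202_b t 3 1 1 = true :=
  ⟨(b (l 1) (b (l 1) (a (a (b (b (l 352757357719) (l 16776936)) (l 16777080)) (b (l 1) (b (l 304976436375) (l 16776936)))) (l 1)))), by decide +kernel⟩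

theorem s3_pm_202_b : ∃ t, chk3 f_pm_202_b t 2 1 1 = true := ex3_a k0_pm_202_b k1_pm_202_b

theorem s4_pm_202_b : ∃ t, chk3 f_pm_202_b t 1 1 1 = true := ex3_a s3_pm_202_b k2_pm_202_b

theorem c_pm_202_b : CertNX 1239849684 370763052 1073741824 536870912 1046898278 26843546 3 false true false .pp 2 0 2
    ndN1q2b ndN7q2 pcN0 Cut.none Ext.none :=
  certNX2 (fam := false) (s1 := true) (s2 := false) (a := 2) (b := 0) (c := 2) (cn := .pp) (n1 := ndN1q2b) (n2 := ndN7q2) (pc := pcN0) (cut := Cut.none) (xt := Ext.none) (P1 := 1239849684) (W1 := 370763052) (P2 := 1073741824) (W2 := 536870912) (P3 := 1046898278) (W3 := 26843546) (N0 := 3)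
    rfl (fun _ => rfl) s4_pm_202_b

noncomputable def f_pm_203_a : ℕ → ℕ → ℕ → ℕ → Bool := onCell 0 420477299 0 1230186008 1046898278 26843546
    (rowNX 3 0 false true false .up 2 0 3 (qsf 0 420477299 0 1230186008 0) ndN1q2a ndN7q3 pcN0 Cut.none Ext.none)

def k0_pm_203_a : ∃ t, chk3 f_pm_203_a t 1 1 1 = true :=
  ⟨(b (l 2) (b (l 2) (b (b (l 2) (a (a (l 271220472839) (l 16776040)) (a (l 16772600) (l 2)))) (c (a (b (a (l 16777120) (l 16776064)) (a (l 16777120) (l 16776064))) (a (l 16772680) (b (l 16556120) (l 16556120)))) (a (b (a (l 16777112) (l 16776024)) (a (l 16777112) (l 16776024))) (a (l 16772528) (b (l 16548336) (l 16548336)))))))), by decide +kernel⟩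

theorem c_pm_203_a : CertNX 0 420477299 0 1230186008 1046898278 26843546 3 false true false .up 2 0 3
    ndN1q2a ndN7q3 pcN0 Cut.none Ext.none :=
  certNX0 (fam := false) (s1 := true) (s2 := false) (a := 2) (b := 0) (c := 3) (cn := .up) (n1 := ndN1q2a) (n2 := ndN7q3) (pc := pcN0) (cut := Cut.none) (xt := Ext.none) (P1 := 0) (W1 := 420477299) (P2 := 0) (W2 := 1230186008) (P3 := 1046898278) (W3 := 26843546) (N0 := 3)
    rfl k0_pm_203_a

noncomputable def f_pm_203_b : ℕ → ℕ → ℕ → ℕ → Bool := onCell 0 536870912 0 1230186008 1046898278 26843546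
    (rowNX 3 2 false true false .up 2 0 3 (qsf 1239849684 370763052 0 1230186008 0) ndN1q2b ndN7q3 pcN0 Cut.none Ext.none)

def k0_pm_203_b : ∃ t, chk3 f_pm_203_b t 1 1 1 = true :=
  ⟨(b (l 3) (a (b (l 3) (b (a (l 2) (a (b (c (l 855333995175) (l 849965232327)) (b (a (l 2) (l 16098480)) (a (l 16313344) (l 16485000)))) (c (a (b (l 16543368) (l 16607616)) (b (l 275582728967) (l 16771408))) (a (b (l 16535144) (l 16601656)) (b (l 272898376215) (l 16771208)))))) (b (a (a (l 2) (a (c (a (l 14952088) (l 15428768)) (a (l 14985928) (l 15365176))) (a (a (c (l 441943776471) (l 636291120871)) (b (l 16397816) (l 16105040))) (b (l 16521944) (l 16249496))))) (a (a (b (a (l 16663192) (l 16763192)) (l 16539888)) (b (l 16753728) (l 16758000))) (a (l 16764272) (l 16777192)))) (a (a (b (a (l 2) (c (a (l 14836104) (l 14776080)) (l 14864176))) (a (a (c (l 14811544) (l 14638976)) (l 14845640)) (l 15019312))) (a (a (c (l 15260360) (l 15195848)) (l 15614880)) (a (a (l 15924832) (l 16043880)) (l 16146048)))) (a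 (a (b (l 16489632) (l 16362144)) (b (l 16622944) (l 16581296))) (a (l 16728616) (l 16777168))))))) (b (b (l 3) (b (l 3) (a (a (l 3) (b (l 3) (l 16777216))) (c (a (l 280414388231) (b (l 16777216) (l 16777216))) (a (l 270750711815) (b (l 16777216) (l 16777216))))))) (b (b (a (c (a (l 16777216) (l 16777216)) (a (l 16777216) (l 16777216))) (c (a (l 16777216) (b (l 16777216) (l 16777216))) (a (l 16777216) (b (l 16777216) (l 16777216))))) (a (a (a (l 16777216) (l 16777216)) (c (l 16777216) (l 16777216))) (a (c (l 16777216) (l 16777216)) (l 16777128)))) (b (a (a (l 16777216) (l 16777216)) (c (l 16769640) (l 16769376))) (a (a (l 16777216) (l 16777088)) (a (b (l 16776376) (a (l 16777048) (l 1))) (l 1)))))))), by decide +kernel⟩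

theorem c_pm_203_b : CertNX 1239849684 370763052 0 1230186008 1046898278 26843546 3 false true false .up 2 0 3
    ndN1q2b ndN7q3 pcN0 Cut.none Ext.none :=
  certNX2 (fam := false) (s1 := true) (s2 := false) (a := 2) (b := 0) (c := 3) (cn := .up) (n1 := ndN1q2b) (n2 := ndN7q3) (pc := pcN0) (cut := Cut.none) (xt := Ext.none) (P1 := 1239849684) (W1 := 370763052) (P2 := 0) (W2 := 1230186008) (P3 := 1046898278) (W3 := 26843546) (N0 := 3)
    rfl (fun _ => rfl) k0_pm_203_b

noncomputable def f_pm_213_a : ℕ → ℕ → ℕ → ℕ → Bool := onCell 0 420477299 0 1230186008 1046898278 26843546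
    (rowNX 3 0 false true false .pnn 2 1 3 (qsf 0 420477299 0 1230186008 1) ndN1q2a ndN7q3 pcN1 Cut.none Ext.none)

def k0_pm_213_a : ∃ t, chk3 f_pm_213_a t 1 4 1 = true :=
  ⟨(a (l 3) (a (l 3) (b (l 3) (a (b (l 3) (a (l 3) (b (l 3) (c (a (l 392620365927) (b (l 350744458919) (l 273971907927))) (b (l 446307456583) (a (l 425906380839) (l 16747536))))))) (b (a (l 3) (b (l 3) (a (b (l 3) (c (b (l 298667924903) (l 282561755927)) (b (l 259476346663) (l 284709236839)))) (b (c (c (l 319068972903) (l 322290196599)) (a (l 354502487847) (l 320142669527))) (c (a (l 243907030727) (l 16710048)) (a (l 241759542583) (l 16707880))))))) (b (b (a (a (l 3) (c (l 291688626615) (l 350744391911))) (c (a (l 239612075223) (l 16707064)) (a (l 236390842327) (l 16696392)))) (a (c (a (l 329269610583) (l 283635526663)) (a (l 371145562551) (l 238538368151))) (c (l 16704368) (l 16690664)))) (a (c (a (b (l 236927824391) (l 16761552)) (l 16735584)) (c (l 165523968887) (l 158544646727))) (c (l 16628776) (l 16624240))))))))),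 by decide +kernel⟩

def k1_pm_213_a : ∃ t, chk3 f_pm_213_a t 2 5 1 = true :=
  ⟨(b (l 3) (a (l 3) (b (a (l 3) (b (l 3) (a (l 3) (c (l 349133860375) (l 349670720471))))) (a (b (l 3) (c (a (l 445770628119) (l 350207604567)) (l 382956731015))) (c (b (a (l 352891958071) (l 16775184)) (l 16775544)) (b (l 250886473927) (l 16775488))))))), by decide +kernel⟩

def k2_pm_213_a : ∃ t, chk3 f_pm_213_a t 6 5 1 = true :=
  ⟨(b (b (a (l 3) (b (l 3) (a (l 3) (b (c (l 466171695607) (l 485499047495)) (c (l 306721005015) (l 304036649703)))))) (a (b (l 3) (a (l 3) (c (l 332490856007) (l 334101468359)))) (b (a (c (l 322827176151) (l 323364046567)) (c (l 186461969847) (l 16756552))) (c (a (l 204715582647) (l 16743392)) (a (l 16761720) (l 16742200)))))) (b (a (b (a (c (l 341617664599) (l 341080793751)) (c (l 16766992) (l 16766632))) (c (l 227801023479) (l 16768192))) (c (b (l 16745224) (l 16744192)) (b (l 16744096) (l 16743024)))) (a (c (b (l 16771032) (l 16773824)) (b (l 16770808) (l 16773704))) (b (l 16750800)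 (c (l 16762680) (l 16762160)))))), by decide +kernel⟩

def k3_pm_213_a : ∃ t, chk3 f_pm_213_a t 7 5 1 = true :=
  ⟨(b (a (a (a (b (b (b (l 3) (c (a (l 3) (l 298131058551)) (l 392083435943))) (c (b (a (l 16745768) (l 16751952)) (l 16755616)) (b (l 256791975191) (l 16754856)))) (c (l 16732288) (l 16730704))) (b (b (c (b (l 342154522103) (l 277730010311)) (b (l 386714765527) (l 16767904))) (c (b (l 16770416) (l 16764432)) (b (l 16770176) (l 16763168)))) (c (l 16734048) (l 16733424)))) (b (b (c (b (a (l 280414358023) (l 16767456)) (l 16763928)) (b (l 219747920471) (l 16762240))) (c (b (l 16731560) (l 16702296)) (b (l 16725104) (l 16692144)))) (b (c (a (l 16713424) (l 16659968)) (b (l 16679736) (l 16672656))) (c (l 16678552) (l 16667576))))) (b (a (c (b (l 16691600) (l 16617768)) (b (l 16677512) (l 16593928))) (c (b (l 16567144) (l 16480432)) (b (l 16528928) (l 16431736)))) (a (b (c (l 16572576) (l 16545480)) (c (l 16543568) (l 16518104))) (b (l 16397120) (c (l 16380240) (l 16331800))))))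 (a (b (c (a (l 16729832) (l 16668768)) (a (l 16728192) (l 16636800))) (c (a (l 16750352) (l 16654608)) (a (l 16749480) (l 16645000)))) (b (b (a (c (l 16525584) (l 16502080)) (a (b (l 16382000) (l 16371368)) (l 16272184))) (a (l 16502392) (l 16306304))) (l 16325616)))), by decide +kernel⟩

def k4_pm_213_a : ∃ t, chk3 f_pm_213_a t 1 3 1 = true :=
  ⟨(b (a (b (a (a (b (l 3) (b (a (l 3) (c (l 396915376119) (l 403894697975))) (c (a (b (l 418390212615) (l 233169747975)) (l 234780360599)) (b (l 373293055831) (l 246054649687))))) (c (b (b (l 444696886967) (a (l 414095245127) (l 230485392743))) (b (a (l 232632876711) (l 16776960)) (l 16777048))) (b (b (l 445770628775) (l 373829926567)) (b (l 240149069719) (l 16777040))))) (b (a (c (b (l 229411649255) (l 16776536)) (b (l 243907163831) (l 16776512))) (c (l 16775544) (l 16775488))) (b (c (l 16776064) (l 16776024)) (c (a (l 16776536) (l 16775544)) (a (l 16776512) (l 16775488)))))) (a (b (b (c (c (l 16777120) (l 16777120)) (a (l 16777208) (l 16777040)))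 (c (a (l 16777208) (l 16777048)) (l 16777112))) (c (b (a (l 16777208) (l 16777048)) (l 16777120)) (b (a (l 16777208) (l 16777040)) (l 16777112)))) (b (c (b (l 16776064) (l 16776064)) (b (l 16776024) (l 16776024))) (l 16776040)))) (b (a (b (a (c (l 16773896) (l 16773776)) (c (l 16771280) (l 16771072))) (b (a (l 16773840) (l 16771280)) (l 16772600))) (a (b (a (l 16765760) (l 16646264)) (l 16707520)) (b (l 16383680) (l 16391392)))) (a (b (l 16772600) (l 16772600)) (a (b (l 16707520) (l 16707520)) (b (l 16393072) (l 16393072)))))) (a (b (b (a (a (b (c (l 16777208) (l 16777208)) (l 16777208)) (l 16777040)) (l 16776040)) (a (l 16777120) (l 16776040))) (b (l 1) (l 1))) (b (a (b (l 16772600) (l 16772600)) (b (a (l 16707520) (l 16393072)) (a (l 16707520) (l 16393072)))) (a (c (l 16772680) (l 16772528)) (c (b (l 16556120) (l 16556120)) (b (l 16548336) (l 16548336))))))), by decide +kernel⟩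

theorem s5_pm_213_a : ∃ t, chk3 f_pm_213_a t 3 5 1 = true := ex3_a k2_pm_213_a k3_pm_213_a

theorem s6_pm_213_a : ∃ t, chk3 f_pm_213_a t 1 5 1 = true := ex3_a k1_pm_213_a s5_pm_213_a

theorem s7_pm_213_a : ∃ t, chk3 f_pm_213_a t 1 2 1 = true := ex3_b k0_pm_213_a s6_pm_213_a

theorem s8_pm_213_a : ∃ t, chk3 f_pm_213_a t 1 1 1 = true := ex3_b s7_pm_213_a k4_pm_213_a

theorem c_pm_213_a : CertNX 0 420477299 0 1230186008 1046898278 26843546 3 false true false .pnn 2 1 3
    ndN1q2a ndN7q3 pcN1 Cut.none Ext.none :=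
  certNX0 (fam := false) (s1 := true) (s2 := false) (a := 2) (b := 1) (c := 3) (cn := .pnn) (n1 := ndN1q2a) (n2 := ndN7q3) (pc := pcN1) (cut := Cut.none) (xt := Ext.none) (P1 := 0) (W1 := 420477299) (P2 := 0) (W2 := 1230186008) (P3 := 1046898278) (W3 := 26843546) (N0 := 3)
    rfl s8_pm_213_a

noncomputable def f_pm_213_b : ℕ → ℕ → ℕ → ℕ → Bool := onCell 1239849684 370763052 0 1230186008 1046898278 26843546
    (rowNX 3 0 false true false .pnn 2 1 3 (qsf 1239849684 370763052 0 1230186008 1) ndN1q2b ndN7q3 pcN1 Cut.none Ext.none)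

def k0_pm_213_b : ∃ t, chk3 f_pm_213_b t 1 1 1 = true :=
  ⟨(b (l 3) (b (a (a (b (b (l 3) (b (l 3) (l 3))) (b (c (c (a (b (b (l 16777216) (l 16777216)) (l 16777216)) (l 377588023303)) (a (b (l 16777216) (l 16777216)) (l 372219314183))) (a (b (c (l 16777216) (l 16777216)) (l 16777216)) (b (l 3) (l 16777216)))) (c (a (c (b (l 16777216) (l 16777216)) (l 16777216)) (b (l 16777216) (l 16777216))) (a (c (l 16777216) (l 16777216)) (b (l 16777216) (l 16777216)))))) (b (l 3) (a (b (c (l 407652794375) (l 384567345159)) (c (b (l 16777216) (l 16777216)) (b (l 16777216) (l 16777216)))) (b (l 3) (l 1))))) (b (l 3) (l 1))) (b (a (a (a (b (a (b (c (l 16777216) (l 16777216)) (l 16777216)) (c (b (l 16777216) (l 16777216)) (b (l 16777216) (l 16777216)))) (l 16777216)) (b (c (b (l 16777216) (l 16777216)) (b (l 16777216) (l 16777216))) (l 1))) (l 1)) (l 1)) (l 1)))), by decide +kernel⟩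

theorem c_pm_213_b : CertNX 1239849684 370763052 0 1230186008 1046898278 26843546 3 false true false .pnn 2 1 3
    ndN1q2b ndN7q3 pcN1 Cut.none Ext.none :=
  certNX0 (fam := false) (s1 := true) (s2 := false) (a := 2) (b := 1) (c := 3) (cn := .pnn) (n1 := ndN1q2b) (n2 := ndN7q3) (pc := pcN1) (cut := Cut.none) (xt := Ext.none) (P1 := 1239849684) (W1 := 370763052) (P2 := 0) (W2 := 1230186008) (P3 := 1046898278) (W3 := 26843546) (N0 := 3)
    rfl k0_pm_213_b

noncomputable def f_pm_303 : ℕ → ℕ → ℕ → ℕ → Bool := onCell 0 536870912 0 1230186008 1046898278 26843546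
    (rowNX 3 2 false true false .npn 3 0 3 (qsf 1610612736 469762048 0 1230186008 0) ndN1q3 ndN7q3 pcN0 Cut.none Ext.none)

def k0_pm_303 : ∃ t, chk3 f_pm_303 t 1 2 1 = true :=
  ⟨(l 3), by decide +kernel⟩

def k1_pm_303 : ∃ t, chk3 f_pm_303 t 2 6 1 = true :=
  ⟨(l 3), by decide +kernel⟩

def k2_pm_303 : ∃ t, chk3 f_pm_303 t 2 14 1 = true :=
  ⟨(b (a (b (l 3) (b (l 3) (b (a (l 3) (a (l 3) (l 15356672))) (a (a (l 3) (a (l 3) (a (l 3) (l 14524616)))) (a (a (l 14594536) (l 14903216)) (l 15236224)))))) (a (c (l 288465420967) (l 288465367239)) (a (c (l 16543368) (l 16535144)) (c (l 275045858055) (l 275045859863))))) (a (a (a (c (a (a (b (b (l 14069352) (l 14128448)) (l 14186152)) (c (b (l 14154440) (l 14284256)) (b (l 14076376) (l 14227488)))) (b (c (l 14273896) (l 14247392)) (b (l 14326200) (l 14356680)))) (b (a (c (a (l 14007376) (l 14083960)) (a (c (l 13977752) (a (l 13939344) (l 13969272))) (c (a (l 14031544) (l 14076416)) (l 14029376)))) (c (a (c (l 14179464) (l 14159920)) (l 14166528))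 (l 14157736))) (a (a (c (l 14160880) (l 14129376)) (l 14175816)) (l 14031064)))) (c (a (c (c (l 14462496) (l 14348680)) (c (a (l 14409032) (l 14469904)) (b (l 14269096) (l 14442320)))) (c (c (a (l 14607512) (a (l 14652392) (l 14652360))) (a (l 14569064) (l 14619096))) (l 14551304))) (b (l 14405112) (a (l 14387656) (l 14565592))))) (b (a (a (b (c (a (l 14673984) (l 14838816)) (l 14680728)) (l 14742688)) (b (l 15031176) (l 15239112))) (a (b (l 15167104) (c (l 15660920) (l 15621728))) (b (l 15577712) (l 15769144)))) (a (a (c (a (l 14848320) (l 15158632)) (a (l 14780120) (l 15101712))) (b (c (l 15633088) (l 15592880)) (c (l 15677608) (l 15748224)))) (a (a (c (l 16189976) (l 16169352)) (l 16280792)) (l 16286680))))) (a (b (a (b (l 15822936) (l 15944336)) (l 16098480)) (a (l 16313344) (l 16485000))) (l 1)))), by decide +kernel⟩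

def k3_pm_303 : ∃ t, chk3 f_pm_303 t 2 15 1 = true :=
  ⟨(b (a (a (a (a (c (a (l 14404800) (c (l 14309544) (b (l 14385704) (l 14525184)))) (a (c (a (l 14376384) (l 14220384)) (a (b (l 14270104) (l 14351320)) (l 14370488))) (c (l 14369040) (l 14417128)))) (c (a (b (l 14415360) (l 14560192)) (l 14451472)) (b (l 14424752) (l 14572688)))) (c (a (b (l 14594784) (l 14724520)) (c (l 14681784) (l 14704232))) (a (l 14563384) (l 14638376)))) (a (c (a (l 14952088) (l 15428768)) (a (l 14985928) (l 15365176))) (a (a (b (l 16192112) (c (l 15971808) (l 15947032))) (b (l 16397816) (l 1))) (b (l 16521944) (l 1))))) (a (a (b (l 158946673319) (l 1)) (l 1)) (l 1))) (a (a (a (a (c (l 14738664) (a (l 14670920) (l 14702376))) (c (l 14799440) (l 14781720))) (c (b (a (l 14836104) (l 14776080)) (l 15039944)) (l 14677024))) (a (a (c (l 15260360) (l 15195848)) (l 1)) (l 1))) (l 1))), by decide +kernel⟩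

def k4_pm_303 : ∃ t, chk3 f_pm_303 t 3 3 1 = true :=
  ⟨(b (b (l 3) (a (a (l 3) (a (l 3) (l 1))) (l 1))) (l 1)), by decide +kernel⟩

theorem s5_pm_303 : ∃ t, chk3 f_pm_303 t 2 7 1 = true := ex3_b k2_pm_303 k3_pm_303

theorem s6_pm_303 : ∃ t, chk3 f_pm_303 t 2 3 1 = true := ex3_b k1_pm_303 s5_pm_303

theorem s7_pm_303 : ∃ t, chk3 f_pm_303 t 1 3 1 = true := ex3_a s6_pm_303 k4_pm_303

theorem s8_pm_303 : ∃ t, chk3 f_pm_303 t 1 1 1 = true := ex3_b k0_pm_303 s7_pm_303

theorem c_pm_303 : CertNX 1610612736 469762048 0 1230186008 1046898278 26843546 3 false true false .npn 3 0 3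
    ndN1q3 ndN7q3 pcN0 Cut.none Ext.none :=
  certNX2 (fam := false) (s1 := true) (s2 := false) (a := 3) (b := 0) (c := 3) (cn := .npn) (n1 := ndN1q3) (n2 := ndN7q3) (pc := pcN0) (cut := Cut.none) (xt := Ext.none) (P1 := 1610612736) (W1 := 469762048) (P2 := 0) (W2 := 1230186008) (P3 := 1046898278) (W3 := 26843546) (N0 := 3)
    rfl (fun _ => rfl) s8_pm_303

noncomputable def f_pm_313 : ℕ → ℕ → ℕ → ℕ → Bool := onCell 1610612736 469762048 0 1230186008 1046898278 26843546
    (rowNX 3 0 false true false .dn 3 1 3 (qsf 1610612736 469762048 0 1230186008 1) ndN1q3 ndN7q3 pcN1 Cut.none Ext.none)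

def k0_pm_313 : ∃ t, chk3 f_pm_313 t 1 1 1 = true :=
  ⟨(b (l 3) (l 1)), by decide +kernel⟩

theorem c_pm_313 : CertNX 1610612736 469762048 0 1230186008 1046898278 26843546 3 false true false .dn 3 1 3
    ndN1q3 ndN7q3 pcN1 Cut.none Ext.none :=
  certNX0 (fam := false) (s1 := true) (s2 := false) (a := 3) (b := 1) (c := 3) (cn := .dn) (n1 := ndN1q3) (n2 := ndN7q3) (pc := pcN1) (cut := Cut.none) (xt := Ext.none) (P1 := 1610612736) (W1 := 469762048) (P2 := 0) (W2 := 1230186008) (P3 := 1046898278) (W3 := 26843546) (N0 := 3)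
    rfl k0_pm_313

noncomputable def f_mm_001 : ℕ → ℕ → ℕ → ℕ → Bool := onCell 67108864 469762048 536870912 536870912 1046898278 26843546
    (rowNX 3 0 false false false .up 0 0 1 (qsf 67108864 469762048 536870912 536870912 0) ndN1q0 ndN7q1 pcN0 Cut.none Ext.none)

def k0_mm_001 : ∃ t, chk3 f_mm_001 t 1 1 1 = true :=
  ⟨(l 3), by decide +kernel⟩

theorem c_mm_001 : CertNX 67108864 469762048 536870912 536870912 1046898278 26843546 3 false false false .up 0 0 1
    ndN1q0 ndN7q1 pcN0 Cut.none Ext.none :=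
  certNX0 (fam := false) (s1 := false) (s2 := false) (a := 0) (b := 0) (c := 1) (cn := .up) (n1 := ndN1q0) (n2 := ndN7q1) (pc := pcN0) (cut := Cut.none) (xt := Ext.none) (P1 := 67108864) (W1 := 469762048) (P2 := 536870912) (W2 := 536870912) (P3 := 1046898278) (W3 := 26843546) (N0 := 3)
    rfl k0_mm_001

noncomputable def f_mm_011 : ℕ → ℕ → ℕ → ℕ → Bool := onCell 67108864 469762048 536870912 536870912 1046898278 26843546
    (rowNX 3 0 false false false .pnn 0 1 1 (qsf 67108864 469762048 536870912 536870912 1) ndN1q0 ndN7q1 pcN1 Cut.none Ext.none)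

def k0_mm_011 : ∃ t, chk3 f_mm_011 t 1 1 1 = true :=
  ⟨(l 3), by decide +kernel⟩

theorem c_mm_011 : CertNX 67108864 469762048 536870912 536870912 1046898278 26843546 3 false false false .pnn 0 1 1
    ndN1q0 ndN7q1 pcN1 Cut.none Ext.none :=
  certNX0 (fam := false) (s1 := false) (s2 := false) (a := 0) (b := 1) (c := 1) (cn := .pnn) (n1 := ndN1q0) (n2 := ndN7q1) (pc := pcN1) (cut := Cut.none) (xt := Ext.none) (P1 := 67108864) (W1 := 469762048) (P2 := 536870912) (W2 := 536870912) (P3 := 1046898278) (W3 := 26843546) (N0 := 3)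
    rfl k0_mm_011

noncomputable def f_mm_012 : ℕ → ℕ → ℕ → ℕ → Bool := onCell 67108864 469762048 1073741824 536870912 1046898278 26843546
    (rowNX 3 0 false false false .pnp 0 1 2 (qsf 67108864 469762048 1073741824 536870912 1) ndN1q0 ndN7q2 pcN1 Cut.none Ext.none)

def k0_mm_012 : ∃ t, chk3 f_mm_012 t 1 1 1 = true :=
  ⟨(l 5), by decide +kernel⟩

theorem c_mm_012 : CertNX 67108864 469762048 1073741824 536870912 1046898278 26843546 3 false false false .pnp 0 1 2
    ndN1q0 ndN7q2 pcN1 Cut.none Ext.none :=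
  certNX0 (fam := false) (s1 := false) (s2 := false) (a := 0) (b := 1) (c := 2) (cn := .pnp) (n1 := ndN1q0) (n2 := ndN7q2) (pc := pcN1) (cut := Cut.none) (xt := Ext.none) (P1 := 67108864) (W1 := 469762048) (P2 := 1073741824) (W2 := 536870912) (P3 := 1046898278) (W3 := 26843546) (N0 := 3)
    rfl k0_mm_012

noncomputable def f_mm_022 : ℕ → ℕ → ℕ → ℕ → Bool := onCell 67108864 469762048 1073741824 536870912 1046898278 26843546
    (rowNX 3 0 false false false .pp 0 2 2 (qsf 67108864 469762048 1073741824 536870912 2) ndN1q0 ndN7q2 pcN2 Cut.none Ext.none)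

def k0_mm_022 : ∃ t, chk3 f_mm_022 t 1 1 1 = true :=
  ⟨(l 5), by decide +kernel⟩

theorem c_mm_022 : CertNX 67108864 469762048 1073741824 536870912 1046898278 26843546 3 false false false .pp 0 2 2
    ndN1q0 ndN7q2 pcN2 Cut.none Ext.none :=
  certNX0 (fam := false) (s1 := false) (s2 := false) (a := 0) (b := 2) (c := 2) (cn := .pp) (n1 := ndN1q0) (n2 := ndN7q2) (pc := pcN2) (cut := Cut.none) (xt := Ext.none) (P1 := 67108864) (W1 := 469762048) (P2 := 1073741824) (W2 := 536870912) (P3 := 1046898278) (W3 := 26843546) (N0 := 3)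
    rfl k0_mm_022

noncomputable def f_mm_023 : ℕ → ℕ → ℕ → ℕ → Bool := onCell 67108864 469762048 0 1230186008 1046898278 26843546
    (rowNX 3 0 false false false .up 0 2 3 (qsf 67108864 469762048 0 1230186008 2) ndN1q0 ndN7q3 pcN2 Cut.none Ext.none)

def k0_mm_023 : ∃ t, chk3 f_mm_023 t 1 1 1 = true :=
  ⟨(l 5), by decide +kernel⟩

theorem c_mm_023 : CertNX 67108864 469762048 0 1230186008 1046898278 26843546 3 false false false .up 0 2 3
    ndN1q0 ndN7q3 pcN2 Cut.none Ext.none :=
  certNX0 (fam := false) (s1 := false) (s2 := false) (a := 0) (b := 2) (c := 3) (cn := .up) (n1 := ndN1q0) (n2 := ndN7q3) (pc := pcN2) (cut := Cut.none) (xt := Ext.none) (P1 := 67108864) (W1 := 469762048) (P2 := 0) (W2 := 1230186008) (P3 := 1046898278) (W3 := 26843546) (N0 := 3)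
    rfl k0_mm_023

noncomputable def f_mm_033 : ℕ → ℕ → ℕ → ℕ → Bool := onCell 67108864 469762048 0 1230186008 1046898278 26843546
    (rowNX 3 0 false false false .pnn 0 3 3 (qsf 67108864 469762048 0 1230186008 3) ndN1q0 ndN7q3 pcN3 Cut.none Ext.none)

def k0_mm_033 : ∃ t, chk3 f_mm_033 t 1 1 1 = true :=
  ⟨(l 5), by decide +kernel⟩

theorem c_mm_033 : CertNX 67108864 469762048 0 1230186008 1046898278 26843546 3 false false false .pnn 0 3 3
    ndN1q0 ndN7q3 pcN3 Cut.none Ext.none :=
  certNX0 (fam := false) (s1 := false) (s2 := false) (a := 0) (b := 3) (c := 3) (cn := .pnn) (n1 := ndN1q0) (n2 := ndN7q3) (pc := pcN3) (cut := Cut.none) (xt := Ext.none) (P1 := 67108864) (W1 := 469762048) (P2 := 0) (W2 := 1230186008) (P3 := 1046898278) (W3 := 26843546) (N0 := 3)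
    rfl k0_mm_033

noncomputable def f_mm_101 : ℕ → ℕ → ℕ → ℕ → Bool := onCell 536870912 536870912 0 536870912 1046898278 26843546
    (rowNX 3 1 false false false .npn 1 0 1 (qsf 536870912 536870912 536870912 536870912 0) ndN1q1 ndN7q1 pcN0 Cut.none Ext.none)

def k0_mm_101 : ∃ t, chk3 f_mm_101 t 1 1 1 = true :=
  ⟨(l 3), by decide +kernel⟩

theorem c_mm_101 : CertNX 536870912 536870912 536870912 536870912 1046898278 26843546 3 false false false .npn 1 0 1
    ndN1q1 ndN7q1 pcN0 Cut.none Ext.none :=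
  certNX1 (fam := false) (s1 := false) (s2 := false) (a := 1) (b := 0) (c := 1) (cn := .npn) (n1 := ndN1q1) (n2 := ndN7q1) (pc := pcN0) (cut := Cut.none) (xt := Ext.none) (P1 := 536870912) (W1 := 536870912) (P2 := 536870912) (W2 := 536870912) (P3 := 1046898278) (W3 := 26843546) (N0 := 3)
    rfl (fun _ => rfl) k0_mm_101

noncomputable def f_mm_102 : ℕ → ℕ → ℕ → ℕ → Bool := onCell 536870912 536870912 1073741824 536870912 1046898278 26843546
    (rowNX 3 0 false false false .npp 1 0 2 (qsf 536870912 536870912 1073741824 536870912 0) ndN1q1 ndN7q2 pcN0 Cut.none Ext.none)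

def k0_mm_102 : ∃ t, chk3 f_mm_102 t 1 1 1 = true :=
  ⟨(l 3), by decide +kernel⟩

theorem c_mm_102 : CertNX 536870912 536870912 1073741824 536870912 1046898278 26843546 3 false false false .npp 1 0 2
    ndN1q1 ndN7q2 pcN0 Cut.none Ext.none :=
  certNX0 (fam := false) (s1 := false) (s2 := false) (a := 1) (b := 0) (c := 2) (cn := .npp) (n1 := ndN1q1) (n2 := ndN7q2) (pc := pcN0) (cut := Cut.none) (xt := Ext.none) (P1 := 536870912) (W1 := 536870912) (P2 := 1073741824) (W2 := 536870912) (P3 := 1046898278) (W3 := 26843546) (N0 := 3)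
    rfl k0_mm_102

noncomputable def f_mm_112 : ℕ → ℕ → ℕ → ℕ → Bool := onCell 536870912 536870912 1073741824 536870912 1046898278 26843546
    (rowNX 3 0 false false false .dn 1 1 2 (qsf 536870912 536870912 1073741824 536870912 1) ndN1q1 ndN7q2 pcN1 Cut.none Ext.none)

def k0_mm_112 : ∃ t, chk3 f_mm_112 t 1 1 1 = true :=
  ⟨(l 3), by decide +kernel⟩

theorem c_mm_112 : CertNX 536870912 536870912 1073741824 536870912 1046898278 26843546 3 false false false .dn 1 1 2
    ndN1q1 ndN7q2 pcN1 Cut.none Ext.none :=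
  certNX0 (fam := false) (s1 := false) (s2 := false) (a := 1) (b := 1) (c := 2) (cn := .dn) (n1 := ndN1q1) (n2 := ndN7q2) (pc := pcN1) (cut := Cut.none) (xt := Ext.none) (P1 := 536870912) (W1 := 536870912) (P2 := 1073741824) (W2 := 536870912) (P3 := 1046898278) (W3 := 26843546) (N0 := 3)
    rfl k0_mm_112

noncomputable def f_mm_113 : ℕ → ℕ → ℕ → ℕ → Bool := onCell 536870912 536870912 0 1230186008 1046898278 26843546
    (rowNX 3 0 false false false .nn 1 1 3 (qsf 536870912 536870912 0 1230186008 1) ndN1q1 ndN7q3 pcN1 Cut.none Ext.none)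

def k0_mm_113 : ∃ t, chk3 f_mm_113 t 1 1 1 = true :=
  ⟨(b (l 5) (a (l 5) (b (l 5) (l 3)))), by decide +kernel⟩

theorem c_mm_113 : CertNX 536870912 536870912 0 1230186008 1046898278 26843546 3 false false false .nn 1 1 3
    ndN1q1 ndN7q3 pcN1 Cut.none Ext.none :=
  certNX0 (fam := false) (s1 := false) (s2 := false) (a := 1) (b := 1) (c := 3) (cn := .nn) (n1 := ndN1q1) (n2 := ndN7q3) (pc := pcN1) (cut := Cut.none) (xt := Ext.none) (P1 := 536870912) (W1 := 536870912) (P2 := 0) (W2 := 1230186008) (P3 := 1046898278) (W3 := 26843546) (N0 := 3)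
    rfl k0_mm_113

noncomputable def f_mm_123 : ℕ → ℕ → ℕ → ℕ → Bool := onCell 1073741824 536870912 0 1230186008 1046898278 26843546
    (rowNX 3 2 false false false .npn 1 2 3 (qsf 536870912 536870912 0 1230186008 2) ndN1q1 ndN7q3 pcN2 Cut.none Ext.none)

def k0_mm_123 : ∃ t, chk3 f_mm_123 t 1 1 1 = true :=
  ⟨(b (l 5) (l 5)), by decide +kernel⟩

theorem c_mm_123 : CertNX 536870912 536870912 0 1230186008 1046898278 26843546 3 false false false .npn 1 2 3
    ndN1q1 ndN7q3 pcN2 Cut.none Ext.none :=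
  certNX2 (fam := false) (s1 := false) (s2 := false) (a := 1) (b := 2) (c := 3) (cn := .npn) (n1 := ndN1q1) (n2 := ndN7q3) (pc := pcN2) (cut := Cut.none) (xt := Ext.none) (P1 := 536870912) (W1 := 536870912) (P2 := 0) (W2 := 1230186008) (P3 := 1046898278) (W3 := 26843546) (N0 := 3)
    rfl (fun _ => rfl) k0_mm_123

noncomputable def f_mm_133 : ℕ → ℕ → ℕ → ℕ → Bool := onCell 536870912 536870912 0 1230186008 1046898278 26843546
    (rowNX 3 0 false false false .dn 1 3 3 (qsf 536870912 536870912 0 1230186008 3) ndN1q1 ndN7q3 pcN3 Cut.none Ext.none)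

def k0_mm_133 : ∃ t, chk3 f_mm_133 t 1 1 1 = true :=
  ⟨(b (l 5) (l 1)), by decide +kernel⟩

theorem c_mm_133 : CertNX 536870912 536870912 0 1230186008 1046898278 26843546 3 false false false .dn 1 3 3
    ndN1q1 ndN7q3 pcN3 Cut.none Ext.none :=
  certNX0 (fam := false) (s1 := false) (s2 := false) (a := 1) (b := 3) (c := 3) (cn := .dn) (n1 := ndN1q1) (n2 := ndN7q3) (pc := pcN3) (cut := Cut.none) (xt := Ext.none) (P1 := 536870912) (W1 := 536870912) (P2 := 0) (W2 := 1230186008) (P3 := 1046898278) (W3 := 26843546) (N0 := 3)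
    rfl k0_mm_133

noncomputable def f_mm_202_a : ℕ → ℕ → ℕ → ℕ → Bool := onCell 0 420477299 0 536870912 1046898278 26843546
    (rowNX 3 1 false false false .pp 2 0 2 (qsf 0 420477299 1073741824 536870912 0) ndN1q2a ndN7q2 pcN0 Cut.none Ext.none)

def k0_mm_202_a : ∃ t, chk3 f_mm_202_a t 2 8 1 = true :=
  ⟨(b (b (c (b (a (l 15992760) (l 15995704)) (a (b (l 15963208) (c (l 16162896) (l 16171200))) (b (l 15837672) (c (l 16167064) (l 16178936))))) (b (c (a (b (l 15927216) (l 15977688)) (b (l 15928568) (l 15915296))) (a (b (c (l 15912248) (l 15797976)) (l 15986456)) (b (b (l 15803936) (l 15797544)) (l 15987072)))) (c (a (l 16114752) (l 16014664)) (a (l 16092312) (l 16094856))))) (c (a (b (c (l 16272296) (l 16257016)) (l 16351816)) (b (c (l 16302288) (l 16286104)) (l 16409184))) (a (l 16260808) (a (l 16319360) (l 16288568))))) (c (a (b (l 16449664) (l 16265184)) (b (a (l 16460096) (c (l 16404216) (b (a (l 16475576) (l 16470888)) (l 16448208)))) (c (b (a (l 16379192) (l 16385056)) (a (a (l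 16347152) (l 16250096)) (l 16338504))) (a (l 16357800) (l 16375264))))) (a (b (l 16420832) (l 16457376)) (b (a (l 16487728) (b (l 16459720) (l 16448920))) (a (a (l 16369328) (l 16349608)) (l 16243560)))))), by decide +kernel⟩

def k1_mm_202_a : ∃ t, chk3 f_mm_202_a t 6 16 1 = true :=
  ⟨(a (b (c (b (l 15874416) (b (l 15967608) (l 15960640))) (b (c (b (l 15801416) (l 15872520)) (b (c (l 15782840) (l 15771248)) (l 15857832))) (c (l 15995816) (l 15966496)))) (c (b (a (l 16210488) (c (b (l 16124784) (c (l 16218824) (l 16170552))) (b (c (l 16085248) (l 16108464)) (l 16177440)))) (c (a (l 16270296) (l 16309768)) (l 16292312))) (c (b (a (l 16164512) (l 16081648)) (c (l 16240080) (l 16252768))) (b (l 16115992) (l 16248672))))) (c (b (b (a (l 15765000) (b (l 15653032) (c (l 15710416) (b (l 15663368) (l 15689584))))) (b (c (b (l 15792744) (c (l 15822064) (l 15712288))) (a (c (l 15747440) (l 15857288)) (l 15735952))) (c (a (l 15940048) (l 15849992)) (c (l 15903120) (a (l 15953552) (l 15862808))))))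 (b (c (b (l 15998424) (c (l 16103528) (l 16095808))) (b (c (l 15895504) (l 15979408)) (l 16056656))) (c (b (l 16129088) (l 16226856)) (l 16143176)))) (b (b (a (c (l 15683536) (b (l 15618840) (l 15742016))) (c (b (l 15596624) (b (c (l 15638840) (l 15634304)) (c (l 15681136) (l 15684696)))) (c (b (b (l 15554864) (l 15481976)) (l 15648104)) (b (b (b (l 15465832) (l 15335176)) (l 15576720)) (l 15629752))))) (c (b (c (b (l 15785720) (l 15769656)) (l 15627048)) (l 15872704)) (c (l 15740880) (l 15791080)))) (c (b (l 15865056) (l 16103016)) (l 15992544))))), by decide +kernel⟩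

def k2_mm_202_a : ∃ t, chk3 f_mm_202_a t 7 32 2 = true :=
  ⟨(a (b (c (a (l 15648656) (l 15745776)) (b (l 15658896) (a (b (l 15607208) (l 15619840)) (l 15719008)))) (c (b (a (b (l 15666144) (l 15670360)) (b (l 15749520) (l 15755856))) (a (l 15762424) (l 15800408))) (b (a (b (l 15649288) (l 15696064)) (l 15728416)) (a (l 15710064) (c (l 15814896) (l 15814584)))))) (b (c (a (c (a (c (l 15957376) (l 15891768)) (c (l 16067144) (l 15941984))) (l 15888968)) (c (b (l 16086696) (a (l 16124784) (l 16206968))) (a (c (b (l 16117040) (l 16067840)) (l 16043376)) (c (l 16116992) (b (l 16181488) (l 16157368)))))) (a (b (l 15872952) (l 15702728)) (c (a (l 16011000) (l 16040112)) (b (l 16045680) (l 15959080))))) (c (a (b (c (a (l 15875224) (l 15799112)) (l 15896680)) (c (b (l 15702208) (a (l 15911592) (l 16004440))) (l 15947328))) (b (c (c (a (l 16152744) (l 16264280)) (a (l 15867928) (b (l 16248224) (b (l 16238048) (l 16167568))))) (b (a (l 16027856) (c (l 16191336) (l 16124736))) (a (l 16032488) (c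 (b (l 16104192) (l 16167032)) (l 16091152))))) (c (a (c (b (l 15990568) (l 16140240)) (l 15901952)) (c (b (l 16197520) (l 16305712)) (a (l 16193600) (l 16288432)))) (a (l 16059904) (c (a (l 16153176) (l 16220864)) (l 16176496)))))) (b (a (l 15754280) (c (l 16012376) (l 16084896))) (a (l 15811032) (c (a (l 16091296) (l 16063048)) (b (l 16134592) (l 16073448)))))))), by decide +kernel⟩

def k3_mm_202_a : ∃ t, chk3 f_mm_202_a t 7 32 3 = true :=
  ⟨(b (a (c (b (a (l 15563312) (l 15682472)) (b (a (c (l 15581392) (l 15576480)) (l 15692064)) (c (l 15661376) (a (l 15614032) (l 15716072))))) (b (c (b (l 15591264) (a (l 15545688) (l 15664104))) (b (c (a (l 15521000) (l 15642264)) (a (l 15471672) (l 15635264))) (a (l 15535112) (l 15654456)))) (c (a (l 15585952) (l 15690968)) (l 15620152)))) (c (b (a (l 15836808) (l 16020200)) (c (b (a (l 15845008) (l 16026928)) (l 15956464)) (b (l 15725672) (a (l 15871256) (l 16055664))))) (b (c (b (l 15902896) (a (l 15819776) (b (l 15999144) (l 16007784)))) (b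 (c (a (l 15798824) (l 15984920)) (a (l 15687496) (b (l 15975568) (l 15983312)))) (c (l 15908576) (l 15899760)))) (c (a (l 15846960) (l 16011400)) (l 15922768))))) (a (c (b (a (c (l 15679208) (l 15664400)) (c (l 15754568) (l 15740056))) (a (l 15740608) (l 15780072))) (a (l 15665624) (l 15722984))) (c (c (b (a (l 15908968) (l 16092432)) (l 15929776)) (a (l 15902496) (l 16023944))) (a (l 15872608) (l 16016360))))), by decide +kernel⟩

def k4_mm_202_a : ∃ t, chk3 f_mm_202_a t 7 33 1 = true :=
  ⟨(c (a (b (c (b (a (l 15873456) (l 15885952)) (a (l 15845512) (c (a (l 15974920) (l 15964440)) (l 15970320)))) (b (a (l 15797520) (c (l 15886736) (l 15862544))) (l 15924624))) (c (a (l 15972768) (b (l 16041336) (l 16087248))) (a (l 16013216) (l 16021840)))) (b (c (c (a (b (a (l 15964472) (l 16042256)) (b (l 16042080) (l 16061864))) (b (a (c (l 16160624) (l 16125768)) (c (l 16252896) (l 16256728))) (a (l 16041592) (c (l 16274136) (l 16186744))))) (b (a (a (l 15973128) (l 15992808)) (a (l 16071208) (a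 (l 16194424) (l 16249752)))) (a (b (c (l 16052640) (l 16048840)) (l 16054696)) (l 16196056)))) (b (c (a (b (l 16003936) (l 16019560)) (b (c (l 16181112) (l 16099072)) (l 16166528))) (l 15931880)) (a (l 16014752) (l 16170280)))) (c (a (b (c (l 16077776) (l 16060384)) (l 16088584)) (c (a (l 16165920) (b (c (l 16173544) (l 16232400)) (l 16234064))) (l 16196880))) (a (a (l 15964416) (c (l 16069272) (l 16050168))) (b (l 16141176) (c (l 16181840) (c (l 16173800) (b (l 16168728) (l 16172360))))))))) (a (c (a (b (l 15837624) (l 15968104)) (b (l 15844848) (l 15963696))) (a (l 15879528) (l 15882784))) (b (c (a (l 15947208) (c (l 15978200) (b (l 16106200) (c (l 16068936) (l 16127000))))) (a (l 15916448) (l 16104736))) (a (c (a (b (l 15948952) (l 16020336)) (c (b (l 16024688) (l 15997048)) (l 16025568))) (l 15997696)) (c (b (c (c (l 16143952) (l 15970280)) (l 16136240)) (c (c (b (a (l 16112928) (l 16208760)) (a (l 16121504) (l 16213520))) (l 16168072)) (a (l 16114240) (l 16202264)))) (b (l 16133856)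 (a (l 16110632) (l 16198600)))))))), by decide +kernel⟩

def k5_mm_202_a : ∃ t, chk3 f_mm_202_a t 6 17 1 = true :=
  ⟨(c (b (a (b (c (l 16441592) (l 16230400)) (c (l 16464936) (l 16498208))) (b (c (l 16313392) (l 16213560)) (c (l 16221848) (b (l 16186520) (l 16243776))))) (c (b (a (l 16290928) (c (l 16302152) (a (l 16473040) (l 16350984)))) (a (c (b (l 16365328) (l 16355432)) (l 16362944)) (a (b (l 16464368) (l 16432384)) (c (b (a (l 16508520) (l 16508280)) (l 16417768)) (l 16526216))))) (a (b (l 16436696) (l 16361552)) (b (l 16228320) (a (l 16449792) (l 16519912)))))) (b (a (b (l 16356048) (l 16492624)) (b (l 16228400) (l 16324008))) (a (l 16402584) (b (l 16229664) (a (l 16426128) (c (l 16500240) (l 16514632))))))), by decide +kernel⟩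

def k6_mm_202_a : ∃ t, chk3 f_mm_202_a t 7 17 4 = true :=
  ⟨(b (a (a (b (l 16178480) (l 16148008)) (b (l 16151144) (c (l 16256680) (b (l 16223696) (l 16269824))))) (a (b (a (l 16156360) (l 16152856)) (b (l 16221728) (l 16274536))) (b (a (b (l 16154016) (l 16184880)) (l 16151880)) (c (a (l 16262400) (l 16240488)) (b (a (l 16224648) (b (l 16239592) (c (l 16253768) (l 16183808)))) (c (b (l 16265616) (a (l 16286008) (l 16293928))) (b (a (l 16262544) (l 16270992)) (l 16302920)))))))) (b (a (c (a (b (l 16342744) (l 16390480)) (b (l 16321968) (l 16374040))) (b (a (a (l 16344200) (l 16242248)) (c (l 16321256) (l 16323160))) (a (c (l 16389464) (l 16388608)) (l 16381568)))) (a (b (a (l 16241064) (b (l 16314832) (c (l 16230648) (c (l 16346536) (l 16358568))))) (c (c (b (l 16356672) (l 16319472)) (l 16338416)) (c (b (a (l 16373832) (l 16382080)) (c (l 16410224) (l 16412288))) (l 16397824)))) (c (b (b (l 16320976) (a (l 16340568) (l 16350144))) (c (b (l 16367656) (l 16374792)) (l 16398512))) (b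 (c (b (l 16237264) (l 16361584)) (b (c (l 16337672) (l 16283608)) (l 16315824))) (c (b (l 16339496) (l 16397192)) (l 16425856)))))) (c (a (b (a (l 16334416) (l 16407720)) (a (l 16496808) (c (a (l 16488496) (b (l 16479192) (l 16510160))) (l 16496120)))) (b (a (c (l 16432656) (b (l 16349416) (l 16424408))) (c (l 16454888) (a (l 16427416) (l 16403224)))) (a (c (b (l 16468824) (l 16524576)) (l 16511400)) (c (b (l 16456632) (c (l 16492800) (l 16559904))) (l 16545008))))) (a (a (l 16347576) (l 16468856)) (a (l 16480376) (l 16514912)))))), by decide +kernel⟩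

def k7_mm_202_a : ∃ t, chk3 f_mm_202_a t 7 17 5 = true :=
  ⟨(b (a (b (a (c (l 16150000) (a (l 16122984) (l 16119088))) (c (l 16125248) (b (l 16085624) (l 16132960)))) (a (c (a (l 16192128) (l 16202048)) (l 16232632)) (b (c (c (l 16217408) (l 16174400)) (l 16220176)) (a (l 16181280) (l 16266008))))) (a (b (a (c (l 16078184) (b (l 16090032) (l 16027744))) (b (c (l 16110648) (c (l 16103992) (l 16036360))) (c (l 16163120) (l 16160032)))) (b (c (c (l 16214736) (l 16215960)) (l 16202816)) (l 16276616))) (b (c (b (l 16056672) (a (l 16173904) (l 16226536))) (b (a (c (l 16140032) (b (l 16131688) (l 16142768))) (c (l 16219424) (l 16222344))) (a (l 16175936) (l 16233664)))) (b (c (a (l 16226232) (b (a (l 16222096) (c (l 16247192) (l 16262080))) (c (l 16256712) (c (l 16248696) (l 16271632))))) (l 16251616)) (c (c (a (b (l 16255624) (l 16310592)) (b (l 16268400) (l 16325936))) (l 16303352)) (l 16300840)))))) (a (a (b (a (l 16372376) (l 16340080)) (l 16391552)) (b (b (l 16307976) (l 16379816)) (l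 16466584))) (b (a (l 16324912) (l 16306216)) (a (l 16477920) (l 16512584))))), by decide +kernel⟩

def k8_mm_202_a : ∃ t, chk3 f_mm_202_a t 7 17 3 = true :=
  ⟨(b (a (b (c (a (l 16108656) (l 16100184)) (l 15967624)) (a (l 16090040) (c (a (l 16198680) (l 16223944)) (l 16231888)))) (a (c (b (c (a (l 16065056) (l 16130008)) (a (l 16125848) (l 16123104))) (l 16142704)) (b (a (l 16118496) (l 16119256)) (l 16179544))) (b (b (a (c (l 16063408) (l 16121864)) (l 16214144)) (l 16200544)) (a (l 16256176) (b (l 16253664) (l 16299640)))))) (a (a (b (a (c (l 16366312) (l 16364616)) (l 16274560)) (a (l 16446624) (l 16454456))) (b (a (l 16292368) (l 16346168)) (l 16461968))) (a (b (l 16338312) (l 16431016)) (b (a (l 16374304) (l 16393736)) (l 16403032))))), by decide +kernel⟩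

def k9_mm_202_a : ∃ t, chk3 f_mm_202_a t 2 9 1 = true :=
  ⟨(a (b (b (b (l 16415680) (a (l 16477672) (a (l 16432152) (l 16408992)))) (a (l 16549184) (c (l 16527328) (l 16529840)))) (b (b (c (l 16580840) (l 16575944)) (l 16532896)) (c (l 16635280) (l 16628216)))) (b (b (c (b (a (b (l 16288952) (l 16365024)) (l 16296272)) (a (l 16422112) (a (l 16436968) (l 16447472)))) (a (b (l 16317184) (l 16414984)) (l 16393128))) (b (c (l 16381736) (a (l 16505872) (l 16563728))) (a (l 16535640) (a (l 16502200) (c (l 16476664) (l 16470200)))))) (b (c (b (a (l 16447280) (b (a (l 16467496) (l 16393904)) (a (l 16356736) (l 16317224)))) (a (l 16498240) (l 16256904))) (b (a (l 16502816) (b (l 16410848) (a (l 16406952) (l 16300104)))) (a (l 16489784) (l 16241592)))) (a (b (c (l 16518344) (l 16504968)) (c (l 16426920) (l 16515152))) (l 16281424))))), by decide +kernel⟩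

def k10_mm_202_a : ∃ t, chk3 f_mm_202_a t 6 18 1 = true :=
  ⟨(b (c (b (a (c (l 16416136) (l 16403296)) (b (b (c (l 16475288) (l 16433832)) (l 16490160)) (l 16405384))) (a (a (l 16503768) (l 16469256)) (a (l 16413664) (l 16380128)))) (a (b (l 16395264) (a (l 16487368) (l 16555504))) (b (a (l 16432304) (l 16342416)) (a (l 16475904) (l 16369848))))) (c (a (b (a (l 16515592) (l 16389240)) (a (l 16285384) (l 16242304))) (b (a (l 16305296) (b (a (l 16256880) (l 16193432)) (a (l 16143344) (l 15995992)))) (a (b (l 16140792) (a (l 16063176) (l 15923832))) (a (b (c (l 16046848) (l 16034248)) (l 15972512)) (l 16036560))))) (a (b (a (l 16514040) (l 16425488)) (a (l 16379816) (l 16224736))) (b (a (l 16291144) (b (l 16210432) (a (l 16122232) (l 16078040)))) (a (b (l 16119232) (l 16002640)) (a (b (l 16015024) (l 15944128)) (l 16010840))))))), by decide +kernel⟩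

def k11_mm_202_a : ∃ t, chk3 f_mm_202_a t 7 36 1 = true :=
  ⟨(a (c (b (a (b (l 16498320) (a (l 16443768) (l 16379584))) (b (c (l 16490216) (l 16487456)) (a (l 16399200) (l 16444520)))) (a (b (a (l 16349216) (l 16236872)) (a (l 16165320) (l 16271968))) (c (l 16320032) (l 16335488)))) (b (a (a (l 16472280) (b (l 16482040) (l 16413144))) (b (l 16399280) (l 16359120))) (a (b (a (l 16337664) (l 16329584)) (a (l 16233096) (l 16256592))) (b (l 16384968) (l 16359904))))) (a (c (b (c (b (l 16519488) (l 16492864)) (l 16437952)) (c (l 16399272) (l 16416416))) (b (b (l 16512792) (l 16484320)) (a (l 16447216) (l 16501128)))) (c (b (b (c (l 16547144) (l 16565904)) (a (l 16546576) (a (l 16577696) (c (l 16601824) (l 16599920))))) (b (a (l 16555152) (b (c (l 16584096) (l 16582232)) (c (l 16595216) (l 16614488)))) (a (c (l 16539344) (l 16537104)) (c (l 16637880) (l 16615560))))) (b (a (l 16521528) (b (l 16576720) (a (l 16573168) (c (l 16598016) (l 16596088))))) (b (a (l 16549848) (b (a (l 16587904) (l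 16614256)) (a (l 16598272) (l 16631472)))) (a (a (l 16555288) (l 16547456)) (c (l 16614224) (l 16612864)))))))), by decide +kernel⟩

def k12_mm_202_a : ∃ t, chk3 f_mm_202_a t 7 37 1 = true :=
  ⟨(a (b (c (a (a (b (l 16166656) (l 16123560)) (l 16210064)) (c (l 16244288) (l 16279720))) (a (a (b (l 16146832) (l 16101736)) (l 16191752)) (a (l 16287984) (l 16382104)))) (c (a (c (l 16133424) (l 16122544)) (c (l 16298472) (l 16333496))) (a (a (l 16062368) (l 16150352)) (a (l 16264128) (l 16383312))))) (c (a (b (a (c (l 16477856) (l 16473728)) (b (l 16535928) (c (l 16509824) (l 16528360)))) (a (b (l 16464552) (c (l 16466848) (l 16463512))) (b (c (a (l 16587224) (l 16616368)) (a (l 16585016) (l 16614656))) (c (l 16619752) (l 16618056))))) (b (a (b (c (l 16540256) (l 16559304)) (c (l 16631656) (l 16609240))) (c (l 16662128) (l 16682512))) (c (a (l 16677816) (c (l 16625072) (l 16624576))) (a (l 16677152) (l 16613328))))) (a (b (a (l 16446488) (b (l 16529792) (c (l 16504960) (l 16523472)))) (a (b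 (l 16499048) (c (l 16460160) (l 16477752))) (a (b (b (l 16573344) (l 16589840)) (l 16577200)) (b (l 16612080) (l 16642264))))) (c (b (a (b (l 16536424) (l 16607792)) (l 16660960)) (a (l 16676504) (l 16622768))) (b (a (b (l 16555464) (l 16606344)) (l 16681352)) (a (l 16675864) (l 16621688))))))), by decide +kernel⟩

def k13_mm_202_a : ∃ t, chk3 f_mm_202_a t 3 76 1 = true :=
  ⟨(a (a (c (b (l 16158608) (l 16029624)) (b (l 16137120) (l 16024712))) (c (a (b (a (l 15940304) (c (l 15908664) (l 15893232))) (a (b (l 15853656) (l 15830552)) (l 15877568))) (b (l 15980448) (l 15875304))) (a (b (a (l 15910480) (l 15869680)) (b (l 15831200) (l 15822328))) (b (l 15952248) (l 15951816))))) (a (c (a (c (b (l 16125144) (l 16136472)) (b (l 16113944) (l 16125408))) (b (c (l 16354144) (l 16347360)) (a (l 16308808) (a (l 16407264) (c (l 16478736) (l 16474304)))))) (a (a (l 16051040) (l 16132616)) (b (l 16337016) (a (l 16293328) (a (l 16395616) (b (l 16456112) (l 16475920))))))) (c (a (a (b (c (a (l 16515936)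 (l 16562160)) (a (l 16512272) (l 16559352))) (c (l 16502800) (l 16520560))) (c (l 16636624) (l 16635144))) (b (a (c (l 16656336) (l 16676632)) (c (l 16620560) (l 16618896))) (a (c (l 16631544) (l 16630688)) (c (a (l 16633088) (b (l 16620792) (l 16591304))) (a (l 16631232) (b (l 16618592) (l 16609864))))))) (a (a (b (a (c (l 16508584) (l 16504872)) (l 16555080)) (c (l 16517320) (l 16514064))) (c (l 16633672) (l 16632192))) (b (a (c (l 16675920) (l 16675168)) (c (l 16638176) (l 16636448))) (a (c (l 16629800) (l 16649848)) (c (a (l 16629344) (l 275582174439)) (a (l 16627408) (l 16609648))))))))), by decide +kernel⟩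

def k14_mm_202_a : ∃ t, chk3 f_mm_202_a t 3 77 1 = true :=
  ⟨(a (a (a (l 16084584) (a (l 15957096) (b (l 15876488) (l 15913776)))) (a (c (l 15967984) (l 15938992)) (l 16085392))) (a (a (c (l 16238904) (l 16220664)) (c (a (b (l 16373920) (l 16448152)) (b (a (l 16472560) (l 16516600)) (l 16512144))) (a (b (l 16360992) (l 16375304)) (b (a (l 16463512) (l 16509208)) (a (l 16511416) (l 16550192)))))) (a (c (a (l 16551656) (c (l 16670088) (l 16669176))) (a (c (l 16590216) (l 16587928)) (c (l 16668256) (l 16667336)))) (c (a (c (b (l 16647640) (l 16649400)) (b (l 16646592) (l 16648288))) (a (b (c (l 16625464) (l 16623368)) (c (l 277729701239) (l 271287246023))) (b (c (a (b (l 16606712) (l 16608272)) (b (l 16605248) (l 3))) (a (b (l 16604176) (l 16605720)) (l 323363691319))) (c (l 340006719655) (l 327121812151))))) (a (c (b (l 16645512) (l 16647152)) (b (l 16644400) (l 16645992))) (b (a (c (l 16621232) (l 16619056)) (b (c (l 317994975943) (l 16577976)) (c (l 315847491703) (l 317994970039))))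 (c (a (l 267529145639) (l 315847517655)) (a (l 16631368) (l 313163157655))))))))), by decide +kernel⟩

def k15_mm_202_a : ∃ t, chk3 f_mm_202_a t 3 39 1 = true :=
  ⟨(a (a (a (b (l 16050520) (a (l 16110608) (l 16098808))) (b (c (l 16036408) (l 16009848)) (l 16177816))) (c (l 16021792) (a (l 16202024) (l 16312928)))) (a (a (b (a (c (l 16337920) (l 16323560)) (b (l 16345936) (c (l 16461656) (l 16452376)))) (c (a (l 16468736) (b (l 16471752) (l 16547968))) (a (l 16459728) (c (l 16439120) (l 16456760))))) (b (c (a (b (a (l 16482592) (l 16522016)) (l 16536488)) (l 16537416)) (a (b (a (l 16474088) (l 16515008)) (l 16509088)) (c (l 16575664) (l 16573176)))) (c (a (l 16579856) (l 16620648)) (c (l 16596744) (l 16594664))))) (b (a (b (c (a (l 16625640) (l 16688720)) (c (l 16654888) (l 16653704))) (c (a (l 16618464) (a (l 16659624) (l 16688824))) (a (l 16594520) (b (l 16691616) (l 16698512))))) (b (c (a (c (l 270750449463) (l 265381738951)) (c (l 346986102855) (l 329806230199))) (a (c (l 264307995047)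 (l 16656016)) (c (l 315847568519) (l 314773823111)))) (a (c (c (a (l 16700088) (l 336248749527)) (a (l 16678464) (l 320142620167))) (c (a (l 16698768) (l 312089554103)) (a (l 16698080) (l 313163293847)))) (l 3)))) (a (c (a (c (l 16666856) (l 16665848)) (c (l 238538278103) (l 16668384))) (c (a (l 16664824) (l 16668040)) (a (l 16663800) (l 16688648)))) (a (c (c (l 342154366631) (l 321753262359)) (c (l 312089584807) (l 311015841175))) (l 3)))))), by decide +kernel⟩

def k16_mm_202_a : ∃ t, chk3 f_mm_202_a t 2 5 1 = true :=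
  ⟨(a (b (b (b (a (l 16586808) (b (c (l 16647184) (l 16641000)) (c (l 16667744) (l 16656304)))) (a (b (l 16658080) (c (l 16678384) (l 16683856))) (a (c (b (l 16713104) (l 16712472)) (l 16705160)) (l 16624752)))) (b (a (c (l 16648368) (l 16650048)) (l 16715288)) (a (c (l 16693376) (l 16683168)) (b (l 16766360) (l 16764952))))) (b (b (a (l 16762584) (c (l 16776592) (l 16776584))) (a (l 16775520) (l 16766328))) (b (c (l 16777160) (l 16777160)) (l 16777120)))) (a (b (b (b (b (c (l 16517048) (l 16506864)) (l 16489112)) (b (l 16484416) (a (l 16545040) (l 16463168)))) (b (b (a (l 16588720) (l 16523696)) (a (l 16651776) (l 16654368))) (b (a (l 16731592) (l 16758280)) (l 16655632)))) (b (b (c (l 16689400) (l 16686320)) (l 16725408)) (b (l 16776760) (c (l 16776536) (l 16776512))))) (b (b (b (b (c (l 16205480) (l 16208920)) (a (l 16326688) (a (l 16268680) (l 16289408)))) (b (a (l 16320824) (l 16403720)) (a (b (l 16414216) (l 16485864)) (l 16534344)))) (b (a (l 16590128) (l 16582600)) (c (l 16543120)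 (l 16548256)))) (b (b (c (l 16541784) (l 16555984)) (b (c (l 16631272) (l 16647864)) (c (l 16720752) (l 16718776)))) (c (b (b (a (l 16776008) (l 16767176)) (b (l 16775392) (l 16775568))) (l 16775544)) (b (b (a (l 16775976) (l 16766832)) (a (l 16776104) (l 16775208))) (l 16775488))))))), by decide +kernel⟩

def k17_mm_202_a : ∃ t, chk3 f_mm_202_a t 6 10 1 = true :=
  ⟨(b (a (b (b (a (l 16222440) (l 16327216)) (l 16369976)) (b (l 16514368) (a (l 16612040) (l 16640400)))) (b (b (a (l 16424040) (l 16471880)) (a (l 16545776) (a (l 16606264) (c (l 16591472) (b (l 16615984) (l 16650840)))))) (a (b (l 16633544) (a (l 16618568) (c (l 16556984) (l 16531216)))) (c (b (a (l 16621680) (l 16637104)) (l 16612296)) (b (a (l 16577072) (l 16635096)) (l 16608920)))))) (a (a (a (b (l 16597632) (l 16550480)) (b (l 16555064) (c (l 16543632) (l 16535976)))) (b (b (l 16572312) (c (l 16555824) (l 16549240))) (c (b (l 16513056) (l 16535440)) (b (l 16505352) (l 16527496))))) (a (b (c (b (a (l 16558368) (l 16567456))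 (l 16565680)) (b (a (l 16552384) (l 16561896)) (l 16559656))) (c (l 16574480) (l 16568272))) (c (b (l 16580600) (c (l 16616192) (l 16635344))) (b (l 16577064) (c (l 16633488) (l 16631600))))))), by decide +kernel⟩

def k18_mm_202_a : ∃ t, chk3 f_mm_202_a t 7 10 1 = true :=
  ⟨(b (a (b (a (c (a (b (a (l 16546120) (l 16566000)) (l 16619184)) (b (l 16588384) (l 16624600))) (a (b (a (l 16541216) (l 16540080)) (l 16616360)) (b (l 16584184) (l 16621704)))) (c (c (b (l 16617488) (l 16668448)) (b (l 16616112) (l 16667584))) (b (c (l 16614728) (l 16613336)) (c (l 16666712) (l 16665832))))) (a (c (a (b (l 16653776) (l 16671192)) (c (l 16664872) (l 16664088))) (a (c (l 16664480) (l 16663880)) (c (l 16663304) (l 16662504)))) (c (c (a (b (l 16678280) (l 16697000)) (b (l 16706672) (l 191293702439))) (b (l 16691568) (a (l 16696584) (l 16710112)))) (c (b (l 16691064) (a (l 16696160) (l 16709696))) (b (l 16690544) (l 110226183431)))))) (a (b (c (a (b (c (l 16697632) (l 16697136)) (c (l 251960075607) (l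 16708360))) (b (c (l 330343216007) (l 315847700183)) (c (l 342154407591) (l 317458344247)))) (b (a (c (l 16696632) (l 16696128)) (c (l 307794635943) (l 308331506263))) (a (c (l 16707952) (l 16707536)) (c (l 309405264071) (l 306720908711))))) (a (b (c (c (l 267529370759) (l 238538341127)) (c (l 232095889623) (l 231022147383))) (l 3)) (l 3))) (l 3))) (a (b (c (c (a (a (l 16682248) (l 100025645783)) (a (b (l 16707920) (l 217600381799)) (l 302962849559))) (a (a (l 16681720) (l 16696264)) (a (b (l 16707584) (l 222969090407)) (l 311015912247)))) (c (a (a (l 16681168) (l 16695848)) (c (l 298667822871) (l 298667804407))) (a (a (l 16680608) (l 16695416)) (l 309405214119)))) (a (a (c (c (b (l 16688088) (l 145122778823)) (l 236390790071)) (c (l 240148840727) (l 16687624))) (b (c (c (l 215452889175) (l 16707280)) (l 298667834295)) (l 3))) (l 3))) (l 3))), by decide +kernel⟩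

def k19_mm_202_a : ∃ t, chk3 f_mm_202_a t 3 11 1 = true :=
  ⟨(a (b (a (b (c (a (b (l 16514032) (l 16546632)) (l 16504512)) (a (b (l 16504936) (l 16538560)) (l 16538544))) (c (a (l 16612616) (b (l 16592608) (l 16661728))) (c (b (l 16601832) (l 16673432)) (l 16511216)))) (b (c (a (c (l 16589592) (l 16586504)) (c (a (l 16628072) (l 302962668903)) (a (l 16625736) (l 311552600103)))) (a (c (l 16583360) (l 16580176)) (c (l 263234143463) (l 298667619527)))) (a (c (b (a (l 16589656) (l 16603944)) (c (l 247664883639) (l 251422974551))) (b (c (l 16594136) (l 16591000)) (c (l 16613360) (l 16631856)))) (b (a (c (c (l 16631248) (l 16628800)) (l 294372683127)) (l 3)) (b (c (l 366313400487) (l 381882640519)) (l 3)))))) (a (b (c (b (a (l 16744216) (l 16701344)) (b (l 16742904) (l 16774016))) (b (a (l 16743064) (l 16699424)) (b (l 16763424) (l 16773912)))) (c (c (l 233169739095) (l 235317222631)) (c (l 238001577079) (l 16773752)))) (a (b (c (b (c (l 311015776631) (l 311015774119)) (b (l 327122070759)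 (l 375440521319))) (b (c (l 303499578135) (l 16659048)) (b (l 364703032727) (l 375440520983)))) (c (l 386714818615) (l 389399172823))) (l 3)))) (b (a (a (a (b (a (b (c (l 379198417863) (l 328195676391)) (l 3)) (l 3)) (l 3)) (l 3)) (l 3)) (l 3)) (l 3))), by decide +kernel⟩

def k20_mm_202_a : ∃ t, chk3 f_mm_202_a t 1 3 1 = true :=
  ⟨(b (a (a (c (b (b (l 16777120) (b (l 16777120) (l 16777120))) (b (a (l 16777208) (b (l 16777048) (l 16777048))) (a (l 492411289431) (c (l 16777048) (l 16777040))))) (b (b (l 16777112) (b (l 16777112) (l 16777112))) (b (a (l 16777208) (c (l 16777040) (l 16777040))) (a (l 239008218967) (l 402753846615))))) (a (b (c (b (b (l 16776536) (l 16776536)) (c (l 16776544) (l 16776528))) (b (c (l 16776520) (l 16776504)) (c (l 16776520) (l 16776504)))) (b (c (c (b (l 16776544) (l 200420620023)) (l 198273136343)) (c (l 200957490887) (l 206863070567))) (b (c (a (l 199883750103) (l 386714827079)) (c (l 340007057095) (l 331953993063))) (l 2)))) (b (b (c (c (b (l 16775560)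 (l 16775560)) (l 16775536)) (c (l 16775504) (l 16775472))) (c (a (b (l 16775864) (l 215453004599)) (c (l 326048411783) (l 330343379015))) (c (b (l 16775504) (l 327122152519)) (l 307257929031)))) (b (b (c (l 380272374519) (l 384030470791)) (l 3)) (l 3))))) (a (a (b (b (c (c (b (l 330880247383) (l 355039438423)) (a (l 235317224951) (l 378124886471))) (a (c (l 317995345303) (l 301352346935)) (b (l 375977401463) (l 3)))) (a (b (c (l 392083532295) (l 399062853943)) (l 3)) (l 3))) (l 3)) (l 3)) (l 3))) (a (l 2) (l 3))), by decide +kernel⟩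

theorem s21_mm_202_a : ∃ t, chk3 f_mm_202_a t 3 10 1 = true := ex3_a k17_mm_202_a k18_mm_202_a

theorem s22_mm_202_a : ∃ t, chk3 f_mm_202_a t 3 5 1 = true := ex3_b s21_mm_202_a k19_mm_202_a

theorem s23_mm_202_a : ∃ t, chk3 f_mm_202_a t 1 5 1 = true := ex3_a k16_mm_202_a s22_mm_202_a

theorem s24_mm_202_a : ∃ t, chk3 f_mm_202_a t 3 38 1 = true := ex3_b k13_mm_202_a k14_mm_202_a

theorem s25_mm_202_a : ∃ t, chk3 f_mm_202_a t 3 19 1 = true := ex3_b s24_mm_202_a k15_mm_202_a

theorem s26_mm_202_a : ∃ t, chk3 f_mm_202_a t 7 18 1 = true := ex3_b k11_mm_202_a k12_mm_202_a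

theorem s27_mm_202_a : ∃ t, chk3 f_mm_202_a t 3 18 1 = true := ex3_a k10_mm_202_a s26_mm_202_a

theorem s28_mm_202_a : ∃ t, chk3 f_mm_202_a t 3 9 1 = true := ex3_b s27_mm_202_a s25_mm_202_a

theorem s29_mm_202_a : ∃ t, chk3 f_mm_202_a t 1 9 1 = true := ex3_a k9_mm_202_a s28_mm_202_a

theorem s30_mm_202_a : ∃ t, chk3 f_mm_202_a t 7 17 2 = true := ex3_c k6_mm_202_a k7_mm_202_a

theorem s31_mm_202_a : ∃ t, chk3 f_mm_202_a t 7 17 1 = true := ex3_c s30_mm_202_a k8_mm_202_a

theorem s32_mm_202_a : ∃ t, chk3 f_mm_202_a t 3 17 1 = true := ex3_a k5_mm_202_a s31_mm_202_a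

theorem s33_mm_202_a : ∃ t, chk3 f_mm_202_a t 7 32 1 = true := ex3_c k2_mm_202_a k3_mm_202_a

theorem s34_mm_202_a : ∃ t, chk3 f_mm_202_a t 7 16 1 = true := ex3_b s33_mm_202_a k4_mm_202_a

theorem s35_mm_202_a : ∃ t, chk3 f_mm_202_a t 3 16 1 = true := ex3_a k1_mm_202_a s34_mm_202_a

theorem s36_mm_202_a : ∃ t, chk3 f_mm_202_a t 3 8 1 = true := ex3_b s35_mm_202_a s32_mm_202_a

theorem s37_mm_202_a : ∃ t, chk3 f_mm_202_a t 1 8 1 = true := ex3_a k0_mm_202_a s36_mm_202_a

theorem s38_mm_202_a : ∃ t, chk3 f_mm_202_a t 1 4 1 = true := ex3_b s37_mm_202_a s29_mm_202_a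

theorem s39_mm_202_a : ∃ t, chk3 f_mm_202_a t 1 2 1 = true := ex3_b s38_mm_202_a s23_mm_202_a

theorem s40_mm_202_a : ∃ t, chk3 f_mm_202_a t 1 1 1 = true := ex3_b s39_mm_202_a k20_mm_202_a

theorem c_mm_202_a : CertNX 0 420477299 1073741824 536870912 1046898278 26843546 3 false false false .pp 2 0 2
    ndN1q2a ndN7q2 pcN0 Cut.none Ext.none :=
  certNX1 (fam := false) (s1 := false) (s2 := false) (a := 2) (b := 0) (c := 2) (cn := .pp) (n1 := ndN1q2a) (n2 := ndN7q2) (pc := pcN0) (cut := Cut.none) (xt := Ext.none) (P1 := 0) (W1 := 420477299) (P2 := 1073741824) (W2 := 536870912) (P3 := 1046898278) (W3 := 26843546) (N0 := 3)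
    rfl (fun _ => rfl) s40_mm_202_a

noncomputable def f_mm_202_b : ℕ → ℕ → ℕ → ℕ → Bool := onCell 0 536870912 1073741824 536870912 1046898278 26843546
    (rowNX 3 2 false false false .pp 2 0 2 (qsf 1239849684 370763052 1073741824 536870912 0) ndN1q2b ndN7q2 pcN0 Cut.none Ext.none)

def k0_mm_202_b : ∃ t, chk3 f_mm_202_b t 4 2 1 = true :=
  ⟨(b (l 1) (b (a (b (b (l 1) (a (a (a (a (a (c (l 15750192) (l 15650960)) (l 1)) (l 1)) (l 1)) (l 1)) (l 1))) (a (a (c (a (l 16129824) (c (l 16064864) (l 517038433927))) (a (c (a (l 16106120) (l 16104928)) (a (c (l 16094368) (l 16066072)) (l 16094840))) (c (l 16114696) (l 16093408)))) (c (a (c (l 16159544) (l 16142504)) (l 16151312)) (l 16099600))) (c (a (l 16000640) (l 1)) (l 964789112007)))) (l 1)) (a (a (a (c (a (l 16155944) (c (a (l 16205936) (l 16208816)) (a (l 16190904) (l 16179296)))) (a (c (a (l 16154912) (l 16027536)) (a (c (l 16158272) (l 15991768)) (l 16169664))) (c (l 16142576) (l 16197680)))) (c (a (b (l 16419984) (l 15981128)) (l 16161392))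 (l 16017384))) (c (a (b (l 16478712) (l 16097096)) (b (l 16450088) (l 16208024))) (b (l 16448864) (l 16153944)))) (a (a (b (l 481605444855) (l 16276768)) (l 462278138967)) (b (l 1) (l 16134368)))))), by decide +kernel⟩

def k1_mm_202_b : ∃ t, chk3 f_mm_202_b t 4 6 1 = true :=
  ⟨(a (a (a (c (b (a (l 15322864) (c (l 15382760) (l 15266968))) (a (l 14747960) (c (l 14817656) (l 14772960)))) (b (a (c (l 15054472) (c (l 15129016) (l 15227480))) (c (l 15329824) (l 15328064))) (a (c (l 14714552) (a (l 14681616) (l 14695032))) (l 14727432)))) (c (b (a (l 15114304) (l 15395960)) (c (l 14813552) (l 14809576))) (b (l 15390560) (l 14800528)))) (b (c (a (l 15488816) (l 15396792)) (l 15379520)) (a (c (l 14926376) (l 14901536)) (c (b (l 15104176) (c (a (l 14976752) (l 15050144)) (l 14992736))) (l 14842080))))) (a (a (b (c (l 15803656) (l 15771840)) (c (a (b (l 15240544) (l 15156640)) (l 15366752)) (b (l 15264592) (l 15189896)))) (b (b (l 16271832) (a (l 15837696) (l 16003456))) (c (b (l 15663400) (l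 15616552)) (l 15582120)))) (b (b (a (l 16555000) (l 16543272)) (a (a (b (l 16257720) (l 16099984)) (l 16279640)) (l 16379280))) (a (a (c (l 15773512) (l 15909400)) (b (l 16046040) (l 16050192))) (b (l 16136824) (l 16155920)))))), by decide +kernel⟩

def k2_mm_202_b : ∃ t, chk3 f_mm_202_b t 4 7 1 = true :=
  ⟨(b (a (a (b (a (c (l 14620136) (a (l 14550720) (l 14579344))) (c (a (l 14650608) (l 14676256)) (l 14647000))) (c (a (a (l 14502368) (b (l 14581752) (c (l 14562056) (l 14511560)))) (a (c (l 14564880) (l 14544240)) (l 14600656))) (a (a (a (l 14450288) (c (l 14483008) (l 14445600))) (c (l 14492488) (l 14478712))) (l 14571040)))) (c (a (c (l 14749816) (l 14765736)) (c (b (l 14941944) (l 14834312)) (l 14923600))) (a (l 14729888) (l 14837816)))) (a (a (a (c (l 14804568) (l 14991952)) (b (l 15254656) (l 15210744))) (b (c (l 15593880) (l 15556904)) (a (l 15450752) (c (l 15715856) (l 15677592))))) (a (a (b (l 15759280) (c (l 15817544) (l 15963440))) (b (l 16051216) (l 16139784))) (b (l 16056760)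 (l 16225728))))) (a (a (c (a (a (b (l 14416944) (l 14309352)) (c (a (l 14444768) (l 14448440)) (l 14388424))) (a (b (l 14463480) (l 14351040)) (l 14389528))) (a (a (c (a (l 14320792) (l 14344936)) (c (l 14310496) (l 14295976))) (c (l 14349096) (l 14334440))) (c (l 14425344) (l 14410552)))) (c (a (c (l 14548032) (l 14352968)) (c (b (l 14784352) (l 14707584)) (l 14704232))) (a (l 14455272) (l 14638376)))) (a (a (a (c (l 14706736) (l 14881344)) (a (l 15135360) (c (l 14981960) (l 15175392)))) (b (a (l 15453520) (l 15804960)) (b (l 15763072) (c (l 15638864) (l 15772512))))) (a (a (b (l 16017816) (c (l 16327896) (l 16312120))) (b (l 16402312) (l 16446312))) (b (l 16549704) (l 16439568)))))), by decide +kernel⟩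

def k3_mm_202_b : ∃ t, chk3 f_mm_202_b t 5 1 1 = true :=
  ⟨(b (l 1) (a (b (b (a (b (a (l 16393968) (l 1)) (c (a (l 16528408) (l 16687752)) (l 16596640))) (b (l 1) (c (a (l 16677152) (l 1)) (l 451004357063)))) (a (b (c (a (l 16325832) (l 16391368)) (l 16390184)) (a (c (l 16333688) (l 16327176)) (c (l 16433536) (l 16494888)))) (c (b (a (b (l 16599120) (l 16563032)) (l 16664512)) (l 16629200)) (a (b (l 16581224) (l 16610448)) (b (l 16661392) (l 16696984)))))) (a (b (b (a (c (l 16408200) (l 16396768)) (l 16617496)) (l 16668000)) (b (a (l 16686264) (l 16761120)) (l 16389552))) (b (b (l 16740784) (b (l 16754112) (l 16744064))) (b (l 16712320) (l 16494912))))) (b (b (l 1) (a (b (l 440267301207) (l 16760648)) (b (l 1) (l 16777056)))) (a (a (b (b (l 16773600) (l 16764624)) (l 16661008)) (b (b (l 16771976) (l 16776472)) (l 16730016))) (b (c (l 16777040) (l 16777032)) (l 16777072)))))), by decide +kernel⟩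

def k4_mm_202_b : ∃ t, chk3 f_mm_202_b t 3 1 1 = true :=
  ⟨(b (l 1) (b (l 1) (a (b (a (b (a (l 16777048) (l 1)) (l 16776936)) (l 1)) (a (l 16777080) (b (a (l 16756080) (l 1)) (l 353294566791)))) (l 1)))), by decide +kernel⟩

theorem s5_mm_202_b : ∃ t, chk3 f_mm_202_b t 4 3 1 = true := ex3_b k1_mm_202_b k2_mm_202_b

theorem s6_mm_202_b : ∃ t, chk3 f_mm_202_b t 4 1 1 = true := ex3_b k0_mm_202_b s5_mm_202_b

theorem s7_mm_202_b : ∃ t, chk3 f_mm_202_b t 2 1 1 = true := ex3_a s6_mm_202_b k3_mm_202_b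

theorem s8_mm_202_b : ∃ t, chk3 f_mm_202_b t 1 1 1 = true := ex3_a s7_mm_202_b k4_mm_202_b

theorem c_mm_202_b : CertNX 1239849684 370763052 1073741824 536870912 1046898278 26843546 3 false false false .pp 2 0 2
    ndN1q2b ndN7q2 pcN0 Cut.none Ext.none :=
  certNX2 (fam := false) (s1 := false) (s2 := false) (a := 2) (b := 0) (c := 2) (cn := .pp) (n1 := ndN1q2b) (n2 := ndN7q2) (pc := pcN0) (cut := Cut.none) (xt := Ext.none) (P1 := 1239849684) (W1 := 370763052) (P2 := 1073741824) (W2 := 536870912) (P3 := 1046898278) (W3 := 26843546) (N0 := 3)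
    rfl (fun _ => rfl) s8_mm_202_b

noncomputable def f_mm_203_a : ℕ → ℕ → ℕ → ℕ → Bool := onCell 0 420477299 0 1230186008 1046898278 26843546
    (rowNX 3 0 false false false .up 2 0 3 (qsf 0 420477299 0 1230186008 0) ndN1q2a ndN7q3 pcN0 Cut.none Ext.none)

def k0_mm_203_a : ∃ t, chk3 f_mm_203_a t 1 1 1 = true :=
  ⟨(b (l 2) (b (l 2) (a (b (l 3) (b (a (b (a (a (c (b (l 387251699719) (c (l 334638350343) (l 16777216))) (b (l 385641086983) (l 338396446727))) (l 3)) (l 3)) (b (a (c (a (l 16777216) (l 367924346871)) (a (l 16777216) (l 367387475783))) (l 3)) (a (c (c (l 16777208) (l 16777208)) (l 196125654871)) (c (l 414632115895) (l 405505310375))))) (l 3)) (b (a (b (a (c (l 16777208) (l 16777208)) (c (b (l 385641086647) (l 366850604727)) (l 368998088359))) (a (c (l 16777208) (l 16777208)) (c (a (l 199346880167) (l 372219313671)) (c (l 339470187543) (l 333564607511))))) (l 3)) (a (a (c (b (l 16777208) (l 16777208)) (b (l 16777208) (l 16777208))) (c (b (c (l 16777048) (l 16777040)) (l 16777048))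 (c (l 189146332183) (l 196662524951)))) (a (a (c (c (l 361481894951) (l 361481894935)) (b (l 394231020535) (l 335712090807))) (l 3)) (l 3)))))) (l 3)))), by decide +kernel⟩

theorem c_mm_203_a : CertNX 0 420477299 0 1230186008 1046898278 26843546 3 false false false .up 2 0 3
    ndN1q2a ndN7q3 pcN0 Cut.none Ext.none :=
  certNX0 (fam := false) (s1 := false) (s2 := false) (a := 2) (b := 0) (c := 3) (cn := .up) (n1 := ndN1q2a) (n2 := ndN7q3) (pc := pcN0) (cut := Cut.none) (xt := Ext.none) (P1 := 0) (W1 := 420477299) (P2 := 0) (W2 := 1230186008) (P3 := 1046898278) (W3 := 26843546) (N0 := 3)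
    rfl k0_mm_203_a

noncomputable def f_mm_203_b : ℕ → ℕ → ℕ → ℕ → Bool := onCell 0 536870912 0 1230186008 1046898278 26843546
    (rowNX 3 2 false false false .up 2 0 3 (qsf 1239849684 370763052 0 1230186008 0) ndN1q2b ndN7q3 pcN0 Cut.none Ext.none)

def k0_mm_203_b : ∃ t, chk3 f_mm_203_b t 1 2 1 = true :=
  ⟨(l 3), by decide +kernel⟩

def k1_mm_203_b : ∃ t, chk3 f_mm_203_b t 1 6 1 = true :=
  ⟨(l 3), by decide +kernel⟩

def k2_mm_203_b : ∃ t, chk3 f_mm_203_b t 1 14 1 = true :=
  ⟨(b (l 3) (b (l 3) (a (l 3) (a (l 3) (a (l 3) (a (l 3) (a (l 3) (a (l 3) (b (l 3) (l 1)))))))))), by decide +kernel⟩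

def k3_mm_203_b : ∃ t, chk3 f_mm_203_b t 1 30 1 = true :=
  ⟨(b (a (l 3) (a (l 3) (a (c (c (l 16777216) (l 16777216)) (c (l 16777216) (l 16777216))) (a (c (c (b (l 16777200) (l 16777008)) (b (l 16777200) (l 16777000))) (c (l 16777056) (l 16777048))) (b (c (c (l 217466270535) (l 192233337655)) (c (l 346315289367) (l 16776536))) (l 1)))))) (a (a (a (l 2) (l 3)) (a (l 3) (a (l 16497064) (l 219747785495)))) (a (a (c (l 16777216) (l 16777216)) (c (l 16777216) (l 16777216))) (a (c (a (l 16777216) (l 16777056)) (a (l 16777216) (l 16777048))) (a (a (c (l 16776576) (l 16776552)) (l 1)) (l 1)))))), by decide +kernel⟩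

def k4_mm_203_b : ∃ t, chk3 f_mm_203_b t 1 31 1 = true :=
  ⟨(a (a (a (a (b (l 2) (a (b (l 2) (a (c (l 14190336) (l 13914480)) (c (l 14170896) (l 14199336)))) (c (b (l 14327624) (l 14361696)) (l 14124832)))) (c (a (c (c (l 14462496) (l 14318432)) (a (c (l 14398984) (l 14368424)) (c (l 14469904) (l 14427232)))) (c (c (a (l 14600288) (a (l 14642920) (l 14652360))) (a (l 14560344) (l 14608272))) (l 14541960))) (a (b (l 14330560) (l 14382432)) (l 14483216)))) (a (a (c (a (b (l 14718288) (l 14848320)) (b (l 14855760) (l 15116800))) (a (b (l 14645864) (l 14780120)) (b (l 14788232) (l 15058416)))) (b (c (l 15132400) (l 15074600)) (c (l 15513136) (l 15468720)))) (b (c (b (l 15408144) (l 15431208)) (b (l 15359952) (l 15450512))) (a (c (l 15709672) (l 15740264)) (b (l 15737304) (l 16044472)))))) (b (a (a (c (l 15831896) (l 15798656)) (l 16172576)) (a (l 16464192) (c (l 16763144) (l 16762648)))) (a (a (a (l 15847568) (l 15823248)) (b (l 16212680) (l 16317104))) (a (b (l 16533064) (l 16608768))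 (b (c (l 16773896) (l 16773776)) (l 16776968)))))) (a (c (a (c (l 16777216) (l 16777216)) (b (l 16777216) (a (l 16777216) (l 16776960)))) (a (c (l 16777216) (l 16777216)) (c (b (l 16777216) (l 16777040)) (l 83248542919)))) (a (a (c (b (l 16777024) (l 389801789687)) (b (l 16777016) (l 390338659927))) (b (c (l 363495144151) (l 368326981975)) (l 1))) (l 1)))), by decide +kernel⟩

theorem s5_mm_203_b : ∃ t, chk3 f_mm_203_b t 1 15 1 = true := ex3_b k3_mm_203_b k4_mm_203_b

theorem s6_mm_203_b : ∃ t, chk3 f_mm_203_b t 1 7 1 = true := ex3_b k2_mm_203_b s5_mm_203_b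

theorem s7_mm_203_b : ∃ t, chk3 f_mm_203_b t 1 3 1 = true := ex3_b k1_mm_203_b s6_mm_203_b

theorem s8_mm_203_b : ∃ t, chk3 f_mm_203_b t 1 1 1 = true := ex3_b k0_mm_203_b s7_mm_203_b

theorem c_mm_203_b : CertNX 1239849684 370763052 0 1230186008 1046898278 26843546 3 false false false .up 2 0 3
    ndN1q2b ndN7q3 pcN0 Cut.none Ext.none :=
  certNX2 (fam := false) (s1 := false) (s2 := false) (a := 2) (b := 0) (c := 3) (cn := .up) (n1 := ndN1q2b) (n2 := ndN7q3) (pc := pcN0) (cut := Cut.none) (xt := Ext.none) (P1 := 1239849684) (W1 := 370763052) (P2 := 0) (W2 := 1230186008) (P3 := 1046898278) (W3 := 26843546) (N0 := 3)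
    rfl (fun _ => rfl) s8_mm_203_b

noncomputable def f_mm_213_a : ℕ → ℕ → ℕ → ℕ → Bool := onCell 0 420477299 0 1230186008 1046898278 26843546
    (rowNX 3 0 false false false .pnn 2 1 3 (qsf 0 420477299 0 1230186008 1) ndN1q2a ndN7q3 pcN1 Cut.none Ext.none)

def k0_mm_213_a : ∃ t, chk3 f_mm_213_a t 1 1 1 = true :=
  ⟨(b (l 3) (b (l 3) (a (b (l 3) (b (l 1) (l 1))) (l 3)))), by decide +kernel⟩

theorem c_mm_213_a : CertNX 0 420477299 0 1230186008 1046898278 26843546 3 false false false .pnn 2 1 3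
    ndN1q2a ndN7q3 pcN1 Cut.none Ext.none :=
  certNX0 (fam := false) (s1 := false) (s2 := false) (a := 2) (b := 1) (c := 3) (cn := .pnn) (n1 := ndN1q2a) (n2 := ndN7q3) (pc := pcN1) (cut := Cut.none) (xt := Ext.none) (P1 := 0) (W1 := 420477299) (P2 := 0) (W2 := 1230186008) (P3 := 1046898278) (W3 := 26843546) (N0 := 3)
    rfl k0_mm_213_a

noncomputable def f_mm_213_b : ℕ → ℕ → ℕ → ℕ → Bool := onCell 1239849684 370763052 0 1230186008 1046898278 26843546
    (rowNX 3 0 false false false .pnn 2 1 3 (qsf 1239849684 370763052 0 1230186008 1) ndN1q2b ndN7q3 pcN1 Cut.none Ext.none)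

def k0_mm_213_b : ∃ t, chk3 f_mm_213_b t 1 1 1 = true :=
  ⟨(b (l 3) (b (l 3) (a (b (b (l 3) (l 3)) (l 1)) (l 1)))), by decide +kernel⟩

theorem c_mm_213_b : CertNX 1239849684 370763052 0 1230186008 1046898278 26843546 3 false false false .pnn 2 1 3
    ndN1q2b ndN7q3 pcN1 Cut.none Ext.none :=
  certNX0 (fam := false) (s1 := false) (s2 := false) (a := 2) (b := 1) (c := 3) (cn := .pnn) (n1 := ndN1q2b) (n2 := ndN7q3) (pc := pcN1) (cut := Cut.none) (xt := Ext.none) (P1 := 1239849684) (W1 := 370763052) (P2 := 0) (W2 := 1230186008) (P3 := 1046898278) (W3 := 26843546) (N0 := 3)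
    rfl k0_mm_213_b

noncomputable def f_mm_303 : ℕ → ℕ → ℕ → ℕ → Bool := onCell 0 536870912 0 1230186008 1046898278 26843546
    (rowNX 3 2 false false false .npn 3 0 3 (qsf 1610612736 469762048 0 1230186008 0) ndN1q3 ndN7q3 pcN0 Cut.none Ext.none)

def k0_mm_303 : ∃ t, chk3 f_mm_303 t 1 1 1 = true :=
  ⟨(b (l 3) (b (l 3) (a (b (l 3) (b (b (l 3) (a (a (a (a (a (a (a (c (l 14047792) (l 13888728)) (l 3)) (l 3)) (l 3)) (l 3)) (l 3)) (l 3)) (l 1))) (a (b (a (a (c (c (a (a (l 14096792) (l 14154440)) (l 14273896)) (a (a (l 14051872) (l 14118312)) (l 14247392))) (a (c (a (l 14010352) (l 14084120)) (a (c (l 13983088) (a (l 13953096) (l 13974520))) (c (l 13862144) (l 14030152)))) (c (a (c (l 14179464) (l 14158560)) (l 14245888)) (l 14157528)))) (c (c (a (l 14444392) (a (c (l 14590512) (l 14547224)) (c (l 14636432) (l 14587768)))) (a (a (c (l 14393896) (l 14362328)) (l 14250184)) (l 14522944))) (l 14405112))) (a (a (a (c (l 14718288) (l 14645864)) (l 1)) (l 1)) (l 1))) (a (a (c (a (a (l 14179296)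 (c (l 14277608) (l 14218088))) (b (l 14327624) (l 14361696))) (a (a (c (l 14152632) (l 14121040)) (l 14162816)) (l 14124832))) (a (a (c (c (l 14437080) (l 14407216)) (l 14338664)) (l 1)) (l 1))) (l 1))) (l 1)))) (l 1)))), by decide +kernel⟩

theorem c_mm_303 : CertNX 1610612736 469762048 0 1230186008 1046898278 26843546 3 false false false .npn 3 0 3
    ndN1q3 ndN7q3 pcN0 Cut.none Ext.none :=
  certNX2 (fam := false) (s1 := false) (s2 := false) (a := 3) (b := 0) (c := 3) (cn := .npn) (n1 := ndN1q3) (n2 := ndN7q3) (pc := pcN0) (cut := Cut.none) (xt := Ext.none) (P1 := 1610612736) (W1 := 469762048) (P2 := 0) (W2 := 1230186008) (P3 := 1046898278) (W3 := 26843546) (N0 := 3)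
    rfl (fun _ => rfl) k0_mm_303

noncomputable def f_mm_313 : ℕ → ℕ → ℕ → ℕ → Bool := onCell 1610612736 469762048 0 1230186008 1046898278 26843546
    (rowNX 3 0 false false false .dn 3 1 3 (qsf 1610612736 469762048 0 1230186008 1) ndN1q3 ndN7q3 pcN1 Cut.none Ext.none)

def k0_mm_313 : ∃ t, chk3 f_mm_313 t 1 1 1 = true :=
  ⟨(b (l 3) (l 1)), by decide +kernel⟩

theorem c_mm_313 : CertNX 1610612736 469762048 0 1230186008 1046898278 26843546 3 false false false .dn 3 1 3
    ndN1q3 ndN7q3 pcN1 Cut.none Ext.none :=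
  certNX0 (fam := false) (s1 := false) (s2 := false) (a := 3) (b := 1) (c := 3) (cn := .dn) (n1 := ndN1q3) (n2 := ndN7q3) (pc := pcN1) (cut := Cut.none) (xt := Ext.none) (P1 := 1610612736) (W1 := 469762048) (P2 := 0) (W2 := 1230186008) (P3 := 1046898278) (W3 := 26843546) (N0 := 3)
    rfl k0_mm_313

end Pool.Agent.Strip051.G.IE1.Tab.C.NB17

namespace Pool.Agent.Strip051.G.IE1.Tab.C.NB20

open Pool.Agent.Strip051.PB Pool.Agent.Strip051.PB.T
open Pool.Agent.Strip051.G.IE1.Tab

noncomputable def f_pp_001 : ℕ → ℕ → ℕ → ℕ → Bool := onCell 67108864 469762048 0 536870912 1046898278 26843546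
    (rowNX 3 1 false true true .up 0 0 1 (qsf 67108864 469762048 536870912 536870912 0) ndN2q0 ndN0q1 pcN0 Cut.none Ext.none)

def k0_pp_001 : ∃ t, chk3 f_pp_001 t 1 1 1 = true :=
  ⟨(l 3), by decide +kernel⟩

theorem c_pp_001 : CertNX 67108864 469762048 536870912 536870912 1046898278 26843546 3 false true true .up 0 0 1
    ndN2q0 ndN0q1 pcN0 Cut.none Ext.none :=
  certNX1 (fam := false) (s1 := true) (s2 := true) (a := 0) (b := 0) (c := 1) (cn := .up) (n1 := ndN2q0) (n2 := ndN0q1) (pc := pcN0) (cut := Cut.none) (xt := Ext.none) (P1 := 67108864) (W1 := 469762048) (P2 := 536870912) (W2 := 536870912) (P3 := 1046898278) (W3 := 26843546) (N0 := 3)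
    rfl (fun _ => rfl) k0_pp_001

noncomputable def f_pp_011 : ℕ → ℕ → ℕ → ℕ → Bool := onCell 67108864 469762048 536870912 536870912 1046898278 26843546
    (rowNX 3 0 false true true .pnn 0 1 1 (qsf 67108864 469762048 536870912 536870912 1) ndN2q0 ndN0q1 pcN1 Cut.none Ext.none)

def k0_pp_011 : ∃ t, chk3 f_pp_011 t 1 1 1 = true :=
  ⟨(b (l 3) (a (b (l 3) (a (l 3) (l 3))) (l 3))), by decide +kernel⟩

theorem c_pp_011 : CertNX 67108864 469762048 536870912 536870912 1046898278 26843546 3 false true true .pnn 0 1 1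
    ndN2q0 ndN0q1 pcN1 Cut.none Ext.none :=
  certNX0 (fam := false) (s1 := true) (s2 := true) (a := 0) (b := 1) (c := 1) (cn := .pnn) (n1 := ndN2q0) (n2 := ndN0q1) (pc := pcN1) (cut := Cut.none) (xt := Ext.none) (P1 := 67108864) (W1 := 469762048) (P2 := 536870912) (W2 := 536870912) (P3 := 1046898278) (W3 := 26843546) (N0 := 3)
    rfl k0_pp_011

end Pool.Agent.Strip051.G.IE1.Tab.C.NB20

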