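import Pool.Agent.Strip051.G.IE1.Tab

/-! # Certificates N65 (generated) -/

set_option linter.all false
set_option maxRecDepth 100000

namespace Pool.Agent.Strip051.G.IE1.Tab.C.NB20

open Pool.Agent.Strip051.PB Pool.Agent.Strip051.PB.T
open Pool.Agent.Strip051.G.IE1.Tab

noncomputable def f_pp_012 : ℕ → ℕ → ℕ → ℕ → Bool := onCell 536870912 536870912 0 536870912 1046898278 26843546
    (rowNX 3 2 false true true .pnp 0 1 2 (qsf 67108864 469762048 0 536870912 1) ndN2q0 ndN0q2 pcN1 Cut.none Ext.none)

def k0_pp_012 : ∃ t, chk3 f_pp_012 t 2 1 1 = true :=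
  ⟨(b (a (a (l 2) (a (l 2) (b (l 2) (b (l 2) (c (l 16777216) (l 16777216)))))) (b (b (l 16777216) (l 16777216)) (b (l 16777216) (a (b (l 16777216) (c (l 16777216) (l 16777216))) (l 16777216))))) (b (a (a (l 2) (a (b (l 2) (b (a (l 2) (b (l 16732472) (l 173576758951))) (l 3))) (b (c (l 16777216) (l 16777216)) (b (c (l 16710760) (l 16708424)) (c (l 246053929799) (l 16470432)))))) (b (a (c (c (l 16777216) (l 16777216)) (c (l 16777216) (l 16777216))) (c (b (l 16777216) (l 16777216)) (b (l 16777216) (l 16777216)))) (a (c (b (a (l 16710760) (l 16710760)) (a (l 16521384) (l 16521384))) (b (c (l 16709016) (l 16707832)) (a (l 16512376) (l 16512376)))) (c (b (l 16710760) (l 16521384)) (b (l 16708424) (l 16512376)))))) (a (l 3) (b (a (b (c (l 263233344055) (l 243369087223)) (l 3)) (b (c (l 119888805303) (l 127941835911)) (l 3))) (l 3))))), by decide +kernel⟩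

def k1_pp_012 : ∃ t, chk3 f_pp_012 t 12 1 1 = true :=
  ⟨(b (b (b (a (l 16777120) (l 16707920)) (a (l 16777128) (l 16717160))) (b (a (l 16777144) (l 16726568)) (a (l 16777160) (l 16736176)))) (b (b (a (c (l 16777176) (l 16777176)) (b (l 16743512) (c (l 16749208) (l 16748232)))) (c (a (b (l 16710784) (l 16521400)) (l 16465624)) (a (b (l 16708448) (l 16512392)) (b (l 16716832) (l 16526560))))) (b (b (c (a (l 16307688) (l 16314056)) (a (l 16291152) (l 16298408))) (c (a (l 15935832) (b (l 16116664) (l 15922920))) (a (l 15951104) (l 15994424)))) (l 3)))), by decide +kernel⟩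

def k2_pp_012 : ∃ t, chk3 f_pp_012 t 13 1 1 = true :=
  ⟨(b (b (a (b (l 16572808) (l 16599288)) (b (a (l 16465912) (l 16344240)) (a (l 16505400) (l 16390160)))) (a (b (l 16626328) (l 16654008)) (b (a (l 16545800) (l 16437208)) (a (l 16587224) (l 16485512))))) (b (b (b (a (l 16675184) (l 16445240)) (a (c (l 16692080) (l 16689088)) (a (l 16642264) (b (l 16541520) (l 16471488))))) (a (c (l 16449784) (b (l 16664424) (l 16558392))) (a (b (l 16621400) (c (l 16476032) (l 16427648))) (b (a (b (l 16594096) (l 16529440)) (b (l 16511968) (l 16465048))) (a (b (l 16433248) (l 16432088)) (l 16374848)))))) (b (a (a (b (l 16319824) (b (c (l 16123032) (l 16101064)) (c (a (l 15923920) (b (l 15977216) (l 15875640))) (l 15833488)))) (b (b (l 16393392) (c (l 16275880) (l 16262080))) (b (c (b (l 16178472) (l 16086552)) (l 16113248)) (c (l 15936224) (l 15909424))))) (c (b (a (l 16225808) (l 16221832)) (a (b (l 16147440) (l 15949832)) (b (l 16147432) (l 15822856)))) (b (a (l 16177600) (l 16209592)) (a (l 16030880)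 (b (l 16137312) (l 15982128)))))) (b (a (a (l 3) (c (b (b (l 15783272) (l 3)) (l 3)) (l 188070069463))) (b (c (a (b (l 15794136) (l 15727024)) (b (l 15727352) (a (l 208471459255) (l 15784648)))) (a (l 15732384) (b (l 15817136) (l 15743896)))) (l 3))) (l 3))))), by decide +kernel⟩

def k3_pp_012 : ∃ t, chk3 f_pp_012 t 7 2 1 = true :=
  ⟨(a (b (b (a (l 16068560) (c (l 15706968) (l 15669400))) (a (l 16123184) (c (a (l 15864488) (l 15676680)) (l 15609432)))) (a (b (l 16177024) (c (l 15989192) (l 16033272))) (b (a (b (l 15894632) (l 15924232)) (b (l 15702616) (l 15729400))) (b (a (l 15950960) (l 15754392)) (l 15876192))))) (b (b (a (c (l 15167072) (l 15240872)) (c (b (a (l 14942512) (l 14715592)) (l 14878544)) (b (l 14760000) (l 14811560)))) (a (c (l 15367128) (l 15317496)) (c (b (l 14920360) (l 14963120)) (b (l 14854832) (l 14899088))))) (b (a (c (l 15431056) (l 15383640)) (c (a (l 15123336) (b (l 14912184) (l 14979080))) (a (l 15064952) (l 14885616)))) (a (c (b (l 15476152) (l 15504680)) (l 15445080))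 (c (a (b (l 15186544) (l 15252160)) (b (l 15063848) (l 15163856))) (a (b (l 15130392) (l 15198400)) (l 15055968))))))), by decide +kernel⟩

def k4_pp_012 : ∃ t, chk3 f_pp_012 t 28 3 1 = true :=
  ⟨(b (b (b (a (l 16357856) (l 16098384)) (a (b (l 16376616) (l 16386424)) (l 16198920))) (b (b (a (l 16293392) (l 16191928)) (c (l 16237624) (l 16218456))) (c (l 16100264) (l 16077880)))) (b (c (b (a (l 16095800) (l 15896160)) (b (a (l 15960072) (l 15768504)) (a (l 15776816) (l 15573552)))) (b (a (l 16073440) (l 15865728)) (a (l 15676304) (b (l 15734888) (l 15621880))))) (b (a (b (c (b (a (l 15752944) (l 15663856)) (a (c (l 15688496) (l 15698536)) (l 15634872))) (b (l 15683608) (l 15646464))) (b (c (c (c (b (a (a (l 160689928327) (l 15687968)) (l 15654848)) (b (c (l 15701024) (l 15654336)) (l 3))) (b (l 15664800) (l 158542265863))) (l 15653672)) (l 15635640)) (l 3))) (c (b (b (l 15580664) (l 15560072)) (b (c (c (b (c (l 15589664) (l 15573968)) (c (l 15612720) (l 15593760))) (l 15568288)) (l 15553952))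 (b (c (c (c (l 15608088) (l 15606440)) (c (l 15591512) (l 15570288))) (l 15553048)) (l 3)))) (b (l 15535112) (l 15527376)))) (l 3)))), by decide +kernel⟩

def k5_pp_012 : ∃ t, chk3 f_pp_012 t 29 6 1 = true :=
  ⟨(b (c (l 15921688) (l 15891560)) (b (c (a (l 15986872) (l 15782696)) (a (l 15958880) (l 15769192))) (a (c (l 15851608) (l 15818728)) (c (l 15693216) (l 15654664))))), by decide +kernel⟩

def k6_pp_012 : ∃ t, chk3 f_pp_012 t 58 7 1 = true :=
  ⟨(b (b (c (b (l 15747784) (l 15694392)) (b (l 15711472) (l 15656536))) (c (b (l 15642296) (l 15552920)) (l 15558656))) (b (c (b (b (l 15478864) (l 15457160)) (c (b (c (b (l 15483432) (c (l 15514176) (l 15493960))) (l 15466488)) (b (c (c (l 15511992) (l 15509496)) (c (l 15493376) (l 15470768))) (a (c (l 15520560) (l 168205789367)) (b (c (l 15455816) (c (l 15459560) (l 15464224))) (a (l 15460544) (a (l 15441368) (c (l 15471216) (c (l 15477496) (a (l 15463272) (l 15483560)))))))))) (b (l 15449376) (b (l 15450944) (a (c (c (l 15499288) (l 15480336))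 (l 15472248)) (a (c (c (l 15461512) (l 15442072)) (l 15433464)) (c (b (l 15421832) (a (l 15439200) (c (l 15455760) (l 15433640)))) (l 15418712)))))))) (b (l 15426352) (b (l 15418680) (a (l 15448752) (b (l 15392952) (a (l 15408280) (a (l 15387216) (l 15391400)))))))) (a (l 3) (b (b (b (b (c (c (a (l 15473144) (a (b (l 15438912) (l 3)) (l 15506064))) (c (a (l 15462520) (a (c (l 159615715239) (l 15439448)) (l 179479889575))) (a (l 15432160) (a (l 15421928) (l 15465504))))) (a (l 15407232) (a (l 15396448) (l 15441208)))) (l 3)) (l 3)) (l 3)) (l 3))))), by decide +kernel⟩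

def k7_pp_012 : ∃ t, chk3 f_pp_012 t 59 14 1 = true :=
  ⟨(b (c (l 15614560) (l 15573400)) (c (b (l 15548528) (l 15453344)) (b (l 15505512) (l 15407768)))), by decide +kernel⟩

def k8_pp_012 : ∃ t, chk3 f_pp_012 t 59 30 1 = true :=
  ⟨(b (b (a (l 15378144) (a (l 15338064) (c (b (l 15335272) (a (l 15342992) (l 15382968))) (b (l 15307576) (l 15320232))))) (c (a (c (l 15368968) (l 15367120)) (a (b (c (l 15363304) (l 15339704)) (c (a (l 15383704) (l 15434992)) (l 15390216))) (c (l 15492424) (l 15471056)))) (a (l 15332336) (a (b (l 15303640) (l 15355784)) (l 15438496))))) (c (b (a (c (b (a (l 15409976) (c (a (c (l 15387872) (l 15370128)) (b (l 15395672) (l 15436520))) (l 15395960))) (a (c (b (l 15435696) (c (l 15439720) (l 15418624))) (b (l 15399224) (b (l 15380944) (l 15408920)))) (b (c (b (l 15452856) (l 15479968)) (l 15433648)) (c (l 15521080) (l 15480480))))) (a (l 15385208) (b (l 15379136) (l 15441584)))) (c (c (b (l 15499408) (c (l 15691392) (l 15671208))) (l 15490048)) (l 15600072))) (c (a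 (b (c (a (b (c (a (l 15459424) (l 15479696)) (a (b (l 15452704) (l 15456592)) (l 15474008))) (a (l 15445208) (l 15516880))) (l 15596360)) (a (b (a (l 15418264) (c (l 15448128) (l 15426528))) (a (c (l 15456864) (l 15429344)) (l 15495976))) (c (l 15580536) (l 15557624)))) (c (l 15508128) (b (b (l 15386576) (l 15581728)) (l 15597184)))) (c (b (l 15719856) (l 15869664)) (b (c (l 15789496) (l 15767352)) (l 15748536)))) (b (a (a (a (l 15401192) (l 15435536)) (l 15538216)) (l 15750864)) (c (b (a (l 15426432) (l 15826608)) (c (l 15526432) (l 15526656))) (a (l 15565712) (l 15838464)))))) (a (b (a (l 15351632) (b (l 15344920) (l 15409552))) (a (b (a (l 15368664) (l 15403936)) (l 15471048)) (l 15563296))) (l 15447784)))), by decide +kernel⟩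

def k9_pp_012 : ∃ t, chk3 f_pp_012 t 59 31 1 = true :=
  ⟨(b (b (c (c (a (b (l 15528192) (l 15578448)) (b (l 15809688) (l 160689632407))) (c (b (b (c (l 170353350887) (l 15536256)) (a (l 15615984) (l 15783392))) (a (l 15698224) (l 15711728))) (b (a (l 15584504) (l 15765032)) (c (b (l 15542248) (l 15524352)) (a (l 15698304) (l 15666304)))))) (a (l 159615775111) (c (l 15687176) (l 15649544)))) (l 3)) (l 3)), by decide +kernel⟩

def k10_pp_012 : ∃ t, chk3 f_pp_012 t 15 12 1 = true :=
  ⟨(a (b (c (l 15395136) (l 15498376)) (c (a (l 15656480) (l 15529968)) (l 15369040))) (b (c (l 15308920) (l 15257440)) (a (l 15434344) (a (l 15383904) (b (l 15319376) (c (l 15422536) (l 15375536))))))), by decide +kernel⟩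

def k11_pp_012 : ∃ t, chk3 f_pp_012 t 30 13 1 = true :=
  ⟨(a (b (b (l 15654344) (c (l 15641512) (l 15601280))) (c (l 15589608) (l 15547408))) (a (b (c (l 15599136) (l 15557584)) (c (l 15528192) (l 15483888))) (b (l 15543992) (a (l 15479000) (c (l 15383104) (l 15442264)))))), by decide +kernel⟩

def k12_pp_012 : ∃ t, chk3 f_pp_012 t 31 13 1 = true :=
  ⟨(b (a (c (l 15517040) (l 15472864)) (c (b (a (l 15482256) (a (l 15412784) (l 15625624))) (a (a (l 15500920) (l 15582040)) (l 15801376))) (b (a (l 15437152) (b (l 15483144) (l 15576520))) (a (l 15406928) (l 15768432))))) (a (c (a (c (b (c (a (l 15475280) (l 15503440)) (a (l 15505488) (c (l 15494920) (l 15488952)))) (a (c (a (l 15472160) (l 15374928)) (l 15465224)) (c (b (l 15489328) (l 15553856)) (a (b (l 15461600) (l 15502080)) (b (l 15480504) (l 15575248)))))) (b (l 15481416) (a (l 15447784) (b (l 15457360) (l 15521240))))) (c (b (a (a (l 15489552) (l 15500880)) (l 15478528)) (a (a (l 15596632) (l 15670792)) (l 15786488))) (a (b (c (a (l 15472368)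 (b (l 15472248) (l 15488280))) (l 15472200)) (c (a (l 15579040) (l 15657024)) (l 15606960))) (b (b (l 15489216) (c (l 15581224) (l 15528816))) (c (l 15775504) (l 15556528)))))) (a (b (l 15447248) (b (l 15422424) (l 15455992))) (b (a (l 15443640) (b (l 15455448) (l 15544248))) (l 15557784)))) (c (a (c (b (l 15762976) (l 16021048)) (a (b (l 15667208) (l 15929280)) (l 15830840))) (b (l 16067792) (l 16208624))) (a (c (a (c (b (b (l 15584328) (l 15698536)) (a (l 15878648) (l 15960088))) (l 15776704)) (c (b (l 15812784) (l 16081440)) (b (b (l 15734176) (l 15726016)) (a (l 16034864) (l 16096304))))) (b (l 15710280) (l 15983352))) (c (a (b (l 15969760) (l 16158648)) (l 16102288)) (a (c (a (b (l 15918976) (l 16194904)) (c (l 16057208) (b (l 15999104) (l 16277408)))) (l 16071712)) (a (c (l 16034112) (b (l 16034936) (l 16211832))) (c (l 16201304) (b (b (l 16087000) (l 16063176)) (c (l 16443784) (a (l 16421568) (l 16442920)))))))))))), by decide +kernel⟩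

def k13_pp_012 : ∃ t, chk3 f_pp_012 t 30 28 1 = true :=
  ⟨(a (c (l 15489112) (l 15465064)) (a (b (l 15427760) (c (b (l 15416408) (a (l 15407056) (l 15459392))) (b (l 15368056) (a (l 15358392) (l 15412600))))) (c (b (a (l 15424504) (c (b (l 15443736) (l 15497352)) (l 15458040))) (a (b (l 15465040) (l 15592976)) (c (l 15692768) (l 15673224)))) (b (a (l 15376464) (l 15360176)) (a (l 15298496) (l 15644064)))))), by decide +kernel⟩

def k14_pp_012 : ∃ t, chk3 f_pp_012 t 62 28 1 = true :=
  ⟨(c (a (c (a (c (b (a (b (l 15491656) (l 15613656)) (l 15630176)) (a (l 15820688) (l 15906600))) (b (l 15578536) (l 15847536))) (c (b (l 15748296) (l 15963864)) (a (b (l 15693704) (l 15971176)) (c (l 15776184) (l 15807856))))) (b (a (l 15562480) (l 15716888)) (l 15853192))) (c (a (c (l 15935552) (b (l 15895536) (l 16093720))) (b (l 16051744) (l 16331568))) (a (c (a (b (l 15843432) (l 16125232)) (c (l 15906288) (l 15918968))) (l 15870072)) (c (b (l 16046328) (l 16227056)) (b (c (l 15957368) (l 15994568)) (c (l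 16118784) (l 16135408))))))) (a (b (l 15611072) (l 15893520)) (b (l 15874064) (l 15976432)))), by decide +kernel⟩

def k15_pp_012 : ∃ t, chk3 f_pp_012 t 63 28 1 = true :=
  ⟨(c (a (a (c (l 16098024) (b (l 16075440) (b (l 16330224) (l 16414376)))) (b (l 16281152) (l 16461192))) (b (l 16398120) (a (b (l 16600672) (a (b (l 16585616) (l 16488784)) (b (l 16511768) (l 16493136)))) (b (b (l 16450944) (a (l 16492648) (l 16454640))) (c (l 520797537303) (l 16471424)))))) (a (c (a (b (c (c (l 16050712) (l 16131072)) (l 16188672)) (c (b (c (l 16308744) (l 16347632)) (c (l 16395120) (l 16413360))) (l 16397464))) (c (b (l 16275104) (l 16483600)) (a (b (l 16251904) (l 16441960)) (b (l 16230440) (l 16442424))))) (b (l 16223776) (l 16353512))) (c (b (a (l 16291728) (l 16602584)) (a (a (c (l 16497120) (l 16410880)) (b (l 16595968) (l 16477960))) (b (l 16412008) (l 16466944)))) (a (b (a (b (l 16403912) (l 16487176)) (c (c (l 16542128) (l 16478688)) (l 16561080))) (a (c (c (c (l 16388024) (l 16409536)) (l 16494216))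 (l 16514536)) (c (c (b (l 16593544) (l 16453168)) (b (l 16529936) (b (l 16458184) (l 16479568)))) (l 16381912)))) (b (c (l 16517928) (a (l 16436048) (c (l 16577968) (l 16388944)))) (c (b (a (l 16451544) (l 16457120)) (l 16463112)) (c (a (b (a (l 16527584) (l 16428872)) (l 16423608)) (l 543882902807)) (a (l 554620309079) (b (a (l 16419384) (l 16376688)) (l 1)))))))))), by decide +kernel⟩

def k16_pp_012 : ∃ t, chk3 f_pp_012 t 15 58 1 = true :=
  ⟨(a (a (a (c (l 15464152) (l 15417816)) (c (b (a (l 15434256) (l 15411448)) (a (c (l 15390112) (l 15387072)) (b (l 15424312) (l 15473128)))) (b (l 15376752) (a (l 15350376) (l 15404992))))) (a (b (c (c (l 15517816) (l 15516920)) (l 15462544)) (c (l 15644112) (l 15603944))) (c (c (a (l 15803544) (l 15712240)) (l 15846680)) (l 15738792)))) (a (c (a (c (a (c (c (a (l 16098632) (l 16189568)) (l 15964048)) (l 16100928)) (c (a (l 16183104) (l 16345240)) (a (l 16143368) (c (l 16342656) (l 16330312))))) (l 15943352)) (c (c (l 16280488) (a (a (l 16316064) (l 16478328))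 (l 16486104))) (a (c (a (l 16280528) (c (l 16415232) (l 16405520))) (l 16356464)) (c (l 16406864) (a (b (l 16401576) (l 16487568)) (b (l 16465264) (l 16593808))))))) (a (l 16074976) (c (l 16268464) (l 16306424)))) (b (a (c (a (c (l 16683952) (l 16520568)) (a (c (l 16498688) (l 16535096)) (b (l 16486368) (l 16475528)))) (c (a (c (a (l 16544272) (l 16498952)) (l 16686264)) (c (a (a (l 16572600) (l 16550240)) (l 16518000)) (a (b (l 16570976) (c (l 16498800) (l 16564344))) (c (l 16450888) (b (l 16495840) (l 16525200)))))) (b (l 16478632) (a (l 16682248) (l 16526784))))) (a (a (c (b (l 16492024) (l 1)) (c (l 16491016) (l 486437874055))) (l 1)) (l 1))) (a (a (c (a (c (l 16539376) (c (l 16616376) (l 16504968))) (c (b (l 16567672) (l 16615880)) (l 16564200))) (c (c (a (c (a (l 16649696) (l 16548960)) (l 16617104)) (c (l 16514888) (b (l 16533648) (l 16600464)))) (l 140156297335)) (l 16511720))) (a (c (c (l 16491088) (l 16585424)) (c (c (l 16558784) (l 16514672)) (l 16578728))) (l 1))) (l 1))))), by decide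 +kernel⟩

def k17_pp_012 : ∃ t, chk3 f_pp_012 t 15 59 1 = true :=
  ⟨(a (a (a (a (b (l 15384264) (c (b (l 15350072) (a (l 15337392) (l 15379688))) (l 15330936))) (c (b (c (l 15377640) (l 15374544)) (b (l 15408656) (l 15468800))) (b (l 15337768) (l 15393664)))) (b (c (c (l 15516576) (l 15494472)) (l 15460704)) (c (l 15628608) (l 15588368)))) (a (c (l 15576312) (l 15794400)) (c (c (a (l 16042680) (l 15995040)) (l 16048888)) (l 15947464)))) (a (a (c (c (a (c (a (l 16210352) (l 16218600)) (l 16281504)) (c (a (l 16388488) (b (l 16529728) (l 16598704))) (a (l 16347256) (b (l 16438376) (c (l 16567200) (a (l 16615448) (l 16660160))))))) (b (l 16295440) (b (l 16388824) (l 16344136)))) (b (l 16368984) (l 16328216))) (a (c (c (b (c (l 16595416) (l 16497104)) (b (a (l 16569448) (c (l 16716624) (l 16731568))) (a (c (l 16722568) (l 16668288)) (l 1)))) (b (c (c (l 16430472) (l 16484600)) (l 16562920)) (c (a (b (l 16620776) (l 412886957223)) (c (l 411276422327) (l 16651544))) (a (l 16645624) (l 16727448)))))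 (b (l 16560032) (a (l 16581264) (l 16726696)))) (b (a (c (c (b (l 16723888) (l 16603192)) (c (b (l 16727416) (l 16633656)) (c (b (l 16706992) (l 16618384)) (l 16667096)))) (l 16646016)) (b (c (c (l 16592640) (c (l 16665216) (a (l 16590192) (l 16647880)))) (l 16609040)) (l 1))) (l 1)))) (b (a (a (a (a (c (c (l 16650976) (l 16638464)) (l 16660984)) (l 1)) (l 1)) (l 1)) (l 1)) (l 1)))), by decide +kernel⟩

def k18_pp_012 : ∃ t, chk3 f_pp_012 t 60 30 1 = true :=
  ⟨(b (c (b (a (a (l 15445712) (l 15569184)) (l 15759256)) (c (a (l 15683960) (l 15931920)) (l 15602120))) (b (a (l 15464016) (l 15724056)) (a (l 15638216) (l 15896384)))) (c (b (c (c (b (a (l 15822208) (l 16066272)) (a (c (l 15968480) (l 15949144)) (l 16072832))) (a (l 15834768) (l 16056536))) (l 15777552)) (c (c (b (a (l 16013856) (l 16154400)) (l 16016272)) (b (c (l 15829480) (l 15824328)) (a (l 15947040) (l 16068168)))) (c (b (l 15996448) (c (b (l 15976704) (l 15954152)) (l 15941992))) (l 15925224)))) (a (l 15737664) (l 15891568)))),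 by decide +kernel⟩

def k19_pp_012 : ∃ t, chk3 f_pp_012 t 61 30 1 = true :=
  ⟨(a (b (c (b (l 16016776) (l 15948800)) (b (l 15990136) (l 16159144))) (c (b (c (c (b (l 16273624) (l 16272600)) (l 16224800)) (l 16344440)) (b (b (c (c (l 16360848) (l 16311304)) (l 16267832)) (c (b (c (l 16340064) (l 16298776)) (a (l 16252504) (c (l 16373432) (l 16337736)))) (l 16268200))) (a (c (l 16329504) (c (c (l 16152080) (l 16118256)) (l 16090240))) (a (c (c (b (l 16315216) (a (l 16256888) (l 16281696))) (b (l 16285864) (a (l 16232144) (l 16257192)))) (c (b (l 16224416) (c (l 16202248) (l 16164392))) (l 16160408))) (b (a (c (c (l 16353672) (l 16324512)) (l 16245520)) (l 1)) (l 1)))))) (b (l 16294736) (a (l 16067896) (b (l 16226592) (a (l 16067048) (l 16126176))))))) (b (c (b (a (l 16221992) (c (l 16327224) (l 16382464))) (a (l 16278448) (a (l 16485848) (b (l 16458536) (c (a (l 16528456) (b (l 16589096) (a (l 16628880) (l 1)))) (l 16619048)))))) (b (l 16245240) (a (l 16369584) (b (l 16490584) (l 16471232)))))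 (b (b (c (a (c (c (l 16390360) (l 16524984)) (l 16522344)) (c (c (a (b (l 16561192) (c (l 16633896) (l 16635728))) (c (b (l 16616120) (l 1)) (l 16654280))) (l 16595568)) (l 16572920))) (a (l 16516936) (l 355441606727))) (a (c (c (c (a (b (l 16533216) (l 16524552)) (c (b (l 16606984) (l 16587768)) (l 500933629863))) (a (l 16488096) (b (l 16556216) (l 16529152)))) (a (l 16466960) (l 16522824))) (a (l 16430768) (l 16487008))) (l 1))) (a (a (b (c (c (c (b (c (l 16506208) (l 16496008)) (l 16461600)) (b (a (l 16439392) (l 16465624)) (l 16426208))) (l 16386376)) (l 16316272)) (l 1)) (l 1)) (l 1))))), by decide +kernel⟩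

def k20_pp_012 : ∃ t, chk3 f_pp_012 t 30 124 1 = true :=
  ⟨(b (a (c (c (a (l 15873680) (l 15992312)) (c (a (c (l 15854384) (l 15828952)) (c (l 15956400) (l 15924920))) (a (l 15788800) (l 15875560)))) (a (l 15712864) (l 15766928))) (a (a (c (c (a (l 16089936) (b (l 16159448) (c (a (b (l 16125352) (l 16102000)) (l 16138104)) (l 16089552)))) (c (b (c (l 16093896) (l 16050888)) (a (l 16002264) (c (l 16064160) (l 16031248)))) (a (l 15957832) (b (l 16026568) (a (l 15957600) (l 15982872)))))) (a (l 15833024) (b (l 15909272) (l 15834176)))) (b (b (c (c (c (a (l 16233360) (l 1)) (l 16234520)) (c (l 540124713607) (l 16120184))) (l 16011552)) (l 1)) (l 1))) (l 1))) (a (c (c (a (l 15780936) (a (l 15859456) (c (l 15992464) (l 15901088)))) (c (a (l 15739968) (b (l 15861560) (l 15795384))) (a (c (l 15708144) (l 15672936)) (c (b (l 15814824) (l 15759352)) (b (l 15770760) (l 15713056)))))) (a (l 15570280) (c (l 15665856) (l 15551888)))) (a (a (a (c (c (b (a (l 16000064) (c (b (l 16056112) (l 16033824)) (l 15997040)))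 (a (c (b (l 15988784) (l 15966576)) (l 15918368)) (l 1))) (c (b (a (l 15934504) (l 15955120)) (l 15881216)) (b (c (b (l 15903608) (l 15880872)) (l 15847424)) (c (l 15840552) (l 15792000))))) (b (l 15711560) (l 525091436151))) (b (l 1) (l 1))) (l 1)) (l 1)))), by decide +kernel⟩

def k21_pp_012 : ∃ t, chk3 f_pp_012 t 30 125 1 = true :=
  ⟨(a (b (c (a (c (l 15681736) (c (l 15611152) (c (l 15582888) (l 15557024)))) (a (c (l 15754328) (c (l 15664240) (l 15608056))) (c (a (a (l 15792744) (b (l 15836472) (b (l 15796040) (a (l 15764456) (l 15774984))))) (b (a (b (l 15867520) (a (l 15836224) (l 15846336))) (b (c (l 690984867447) (l 15854400)) (l 1))) (a (a (b (l 15810672) (l 1)) (l 1)) (l 1)))) (b (c (a (l 15737000) (a (l 15760112) (l 15780424))) (a (l 15679560) (c (l 15731328) (a (l 15682896) (l 15702552))))) (a (a (l 15625752) (b (l 15658032) (l 15622920))) (l 15715280)))))) (a (c (c (c (b (l 15548696) (l 15489080)) (l 15481496)) (l 15438456)) (l 15353904)) (c (a (c (c (l 96265324519) (l 15505936))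 (l 15453248)) (c (b (a (l 15591792) (a (l 15610272) (l 15629664))) (a (c (b (l 15560952) (l 15526288)) (l 15489784)) (c (l 15582352) (l 15527584)))) (a (l 15475168) (l 477309445655)))) (a (l 15349264) (a (l 15362608) (l 15391544)))))) (b (a (l 3) (a (b (c (c (l 15685928) (l 15541664)) (c (c (l 15433816) (l 15339136)) (l 15218888))) (l 3)) (a (a (b (c (c (a (l 15719384) (a (l 15725848) (l 15772768))) (l 15568840)) (c (c (c (l 15480984) (l 15422696)) (l 15352856)) (l 15224408))) (l 3)) (l 1)) (l 1)))) (l 3))) (l 1)), by decide +kernel⟩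

def k22_pp_012 : ∃ t, chk3 f_pp_012 t 30 63 1 = true :=
  ⟨(a (l 3) (l 1)), by decide +kernel⟩

def k23_pp_012 : ∃ t, chk3 f_pp_012 t 31 15 1 = true :=
  ⟨(b (b (a (a (a (c (c (b (a (c (l 16459880) (l 16510840)) (c (a (l 16509288) (b (l 16607856) (c (l 16607632) (l 16653480)))) (l 16482208))) (c (a (b (c (l 16503184) (l 16553160)) (c (l 16601328) (l 16654976))) (c (b (a (l 16656232) (l 1)) (l 1)) (l 16603528))) (a (l 16544560) (l 16633544)))) (b (l 16479760) (b (l 16540968) (l 16652672)))) (b (l 16452760) (b (l 175589794199) (l 16649472)))) (b (c (c (c (c (b (a (l 16648184) (l 16703944)) (c (l 16638024) (l 573411487191))) (a (b (l 16634024) (l 16646224)) (l 16703776))) (a (b (a (l 16626696) (c (l 16672128) (l 16657864))) (l 16577520)) (c (l 16638496) (l 413960786567)))) (a (l 16557160) (l 16611544))) (a (b (l 16631976) (l 16654288)) (l 16650824))) (l 1))) (l 1)) (l 1)) (l 1)) (l 1)), by decide +kernel⟩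

theorem s24_pp_012 : ∃ t, chk3 f_pp_012 t 30 62 1 = true := ex3_b k20_pp_012 k21_pp_012

theorem s25_pp_012 : ∃ t, chk3 f_pp_012 t 30 31 1 = true := ex3_b s24_pp_012 k22_pp_012

theorem s26_pp_012 : ∃ t, chk3 f_pp_012 t 30 30 1 = true := ex3_a k18_pp_012 k19_pp_012

theorem s27_pp_012 : ∃ t, chk3 f_pp_012 t 30 15 1 = true := ex3_b s26_pp_012 s25_pp_012

theorem s28_pp_012 : ∃ t, chk3 f_pp_012 t 15 15 1 = true := ex3_a s27_pp_012 k23_pp_012

theorem s29_pp_012 : ∃ t, chk3 f_pp_012 t 15 29 1 = true := ex3_b k16_pp_012 k17_pp_012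

theorem s30_pp_012 : ∃ t, chk3 f_pp_012 t 31 28 1 = true := ex3_a k14_pp_012 k15_pp_012

theorem s31_pp_012 : ∃ t, chk3 f_pp_012 t 15 28 1 = true := ex3_a k13_pp_012 s30_pp_012

theorem s32_pp_012 : ∃ t, chk3 f_pp_012 t 15 14 1 = true := ex3_b s31_pp_012 s29_pp_012

theorem s33_pp_012 : ∃ t, chk3 f_pp_012 t 15 7 1 = true := ex3_b s32_pp_012 s28_pp_012

theorem s34_pp_012 : ∃ t, chk3 f_pp_012 t 15 13 1 = true := ex3_a k11_pp_012 k12_pp_012

theorem s35_pp_012 : ∃ t, chk3 f_pp_012 t 15 6 1 = true := ex3_b k10_pp_012 s34_pp_012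

theorem s36_pp_012 : ∃ t, chk3 f_pp_012 t 15 3 1 = true := ex3_b s35_pp_012 s33_pp_012

theorem s37_pp_012 : ∃ t, chk3 f_pp_012 t 59 15 1 = true := ex3_b k8_pp_012 k9_pp_012

theorem s38_pp_012 : ∃ t, chk3 f_pp_012 t 59 7 1 = true := ex3_b k7_pp_012 s37_pp_012

theorem s39_pp_012 : ∃ t, chk3 f_pp_012 t 29 7 1 = true := ex3_a k6_pp_012 s38_pp_012

theorem s40_pp_012 : ∃ t, chk3 f_pp_012 t 29 3 1 = true := ex3_b k5_pp_012 s39_pp_012

theorem s41_pp_012 : ∃ t, chk3 f_pp_012 t 14 3 1 = true := ex3_a k4_pp_012 s40_pp_012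

theorem s42_pp_012 : ∃ t, chk3 f_pp_012 t 7 3 1 = true := ex3_a s41_pp_012 s36_pp_012

theorem s43_pp_012 : ∃ t, chk3 f_pp_012 t 7 1 1 = true := ex3_b k3_pp_012 s42_pp_012

theorem s44_pp_012 : ∃ t, chk3 f_pp_012 t 6 1 1 = true := ex3_a k1_pp_012 k2_pp_012

theorem s45_pp_012 : ∃ t, chk3 f_pp_012 t 3 1 1 = true := ex3_a s44_pp_012 s43_pp_012

theorem s46_pp_012 : ∃ t, chk3 f_pp_012 t 1 1 1 = true := ex3_a k0_pp_012 s45_pp_012

theorem c_pp_012 : CertNX 67108864 469762048 0 536870912 1046898278 26843546 3 false true true .pnp 0 1 2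
    ndN2q0 ndN0q2 pcN1 Cut.none Ext.none :=
  certNX2 (fam := false) (s1 := true) (s2 := true) (a := 0) (b := 1) (c := 2) (cn := .pnp) (n1 := ndN2q0) (n2 := ndN0q2) (pc := pcN1) (cut := Cut.none) (xt := Ext.none) (P1 := 67108864) (W1 := 469762048) (P2 := 0) (W2 := 536870912) (P3 := 1046898278) (W3 := 26843546) (N0 := 3)
    rfl (fun _ => rfl) s46_pp_012

noncomputable def f_pp_022 : ℕ → ℕ → ℕ → ℕ → Bool := onCell 67108864 469762048 0 536870912 1046898278 26843546
    (rowNX 3 0 false true true .pp 0 2 2 (qsf 67108864 469762048 0 536870912 2) ndN2q0 ndN0q2 pcN2 Cut.none Ext.none)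

def k0_pp_022 : ∃ t, chk3 f_pp_022 t 8 2 1 = true :=
  ⟨(c (b (a (a (b (b (l 16144128) (l 16108720)) (a (b (l 16428544) (l 16349696)) (b (l 16264144) (l 16278160)))) (b (b (l 15824440) (l 15831144)) (b (l 15840856) (l 15858064)))) (a (a (b (l 15361120) (l 15402992)) (b (c (l 15087776) (l 15058680)) (b (l 15114328) (l 15147232)))) (b (l 14939664) (l 15021552)))) (a (b (a (a (b (l 16336976) (l 16346816)) (l 16192344)) (b (l 15887480) (l 15934072))) (a (a (b (l 16280928) (l 16256912)) (b (l 16382080) (l 16453784))) (b (l 15898312) (l 15932720)))) (b (a (a (l 15395856) (b (l 15190512) (l 15249208))) (b (l 15101288) (l 15172368))) (a (b (a (l 15583176) (a (l 15365872) (l 15291152))) (a (l 15685248) (a (l 15470352) (l 15398664)))) (b (l 15264184) (l 15382504)))))) (b (a (a (b (a (l 16354304) (l 16154088)) (b (l 16161912) (l 16144464))) (b (l 15713984) (l 15609936))) (a (b (a (l 15313200) (l 15014168)) (b (l 15180456) (l 15127240))) (b (l 14875624) (l 14960384)))) (a (b (a (b (l 16197384) (l 16280696))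 (l 15672632)) (a (a (l 16125224) (l 16210600)) (b (l 15979568) (l 15996312)))) (b (a (a (l 15435936) (b (l 15135552) (l 15196304))) (l 15077744)) (a (b (a (l 15542976) (l 15278560)) (a (l 15648592) (l 15388264))) (b (l 15211520) (l 15333992))))))), by decide +kernel⟩

def k1_pp_022 : ∃ t, chk3 f_pp_022 t 9 2 1 = true :=
  ⟨(b (b (a (c (b (l 14682376) (l 14752960)) (b (l 14608832) (l 14681936))) (a (c (b (l 14444752) (l 14545264)) (b (l 14362400) (l 14466464))) (l 1))) (a (c (b (l 14819472) (l 14891208)) (b (l 14750784) (l 14825040))) (c (b (l 14616072) (l 43515763159)) (b (l 14539768) (l 14651816))))) (b (b (a (c (l 14973096) (l 14909800)) (c (l 488582021351) (l 14774344))) (a (c (l 15070304) (l 15010416)) (l 1))) (a (c (b (l 15188288) (b (l 15293648) (l 15373600))) (b (l 15132544) (l 15282208))) (l 1)))), by decide +kernel⟩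

def k2_pp_022 : ∃ t, chk3 f_pp_022 t 4 3 1 = true :=
  ⟨(b (a (a (b (a (b (c (a (l 16185504) (l 16415568)) (b (l 16153624) (l 16148624))) (c (a (l 16081680) (l 16305656)) (a (l 16125640) (l 16318168)))) (c (b (c (l 16047376) (l 16060592)) (b (l 16147424) (l 16203464))) (b (l 16006744) (b (l 16177808) (l 16216216))))) (a (a (c (b (l 15942232) (l 16068032)) (b (l 16024440) (l 16044456))) (b (c (l 16265280) (l 16273800)) (c (l 16343744) (l 16330104)))) (b (c (a (l 16463144) (l 16259136)) (a (l 16481856) (l 16290984))) (c (b (l 16372168) (l 740377840183)) (b (l 16389800) (l 16424360)))))) (b (a (c (b (a (l 15820672) (a (l 15607624) (l 15538816))) (a (l 15912280) (a (l 15784392) (l 15718296)))) (b (a (l 15788728) (a (l 15567416) (l 15495920))) (a (l 15970328) (a (l 15750376) (l 15681696))))) (b (c (l 15533528) (l 15490312)) (c (l 15723952) (l 15687424)))) (b (a (a (c (b (l 16134536) (l 16172408)) (l 16048368)) (a (c (l 155187273063) (l 15913056)) (l 1))) (l 1)) (l 1)))) (b (a (b (c (b (l 15462160)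 (l 1)) (l 15465848)) (l 1)) (l 1)) (l 1))) (b (a (a (a (b (b (c (l 15974240) (l 16035864)) (b (c (l 16040384) (l 16100992)) (l 1))) (l 1)) (l 1)) (l 1)) (l 1)) (l 1))), by decide +kernel⟩

def k3_pp_022 : ∃ t, chk3 f_pp_022 t 5 1 1 = true :=
  ⟨(b (l 1) (l 1)), by decide +kernel⟩

def k4_pp_022 : ∃ t, chk3 f_pp_022 t 3 1 1 = true :=
  ⟨(l 1), by decide +kernel⟩

theorem s5_pp_022 : ∃ t, chk3 f_pp_022 t 4 2 1 = true := ex3_a k0_pp_022 k1_pp_022

theorem s6_pp_022 : ∃ t, chk3 f_pp_022 t 4 1 1 = true := ex3_b s5_pp_022 k2_pp_022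

theorem s7_pp_022 : ∃ t, chk3 f_pp_022 t 2 1 1 = true := ex3_a s6_pp_022 k3_pp_022

theorem s8_pp_022 : ∃ t, chk3 f_pp_022 t 1 1 1 = true := ex3_a s7_pp_022 k4_pp_022

theorem c_pp_022 : CertNX 67108864 469762048 0 536870912 1046898278 26843546 3 false true true .pp 0 2 2
    ndN2q0 ndN0q2 pcN2 Cut.none Ext.none :=
  certNX0 (fam := false) (s1 := true) (s2 := true) (a := 0) (b := 2) (c := 2) (cn := .pp) (n1 := ndN2q0) (n2 := ndN0q2) (pc := pcN2) (cut := Cut.none) (xt := Ext.none) (P1 := 67108864) (W1 := 469762048) (P2 := 0) (W2 := 536870912) (P3 := 1046898278) (W3 := 26843546) (N0 := 3)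
    rfl s8_pp_022

noncomputable def f_pp_101 : ℕ → ℕ → ℕ → ℕ → Bool := onCell 536870912 536870912 536870912 536870912 1046898278 26843546
    (rowNX 3 0 false true true .npn 1 0 1 (qsf 536870912 536870912 536870912 536870912 0) ndN2q1 ndN0q1 pcN0 Cut.none Ext.none)

def k0_pp_101 : ∃ t, chk3 f_pp_101 t 1 1 1 = true :=
  ⟨(l 3), by decide +kernel⟩

theorem c_pp_101 : CertNX 536870912 536870912 536870912 536870912 1046898278 26843546 3 false true true .npn 1 0 1
    ndN2q1 ndN0q1 pcN0 Cut.none Ext.none :=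
  certNX0 (fam := false) (s1 := true) (s2 := true) (a := 1) (b := 0) (c := 1) (cn := .npn) (n1 := ndN2q1) (n2 := ndN0q1) (pc := pcN0) (cut := Cut.none) (xt := Ext.none) (P1 := 536870912) (W1 := 536870912) (P2 := 536870912) (W2 := 536870912) (P3 := 1046898278) (W3 := 26843546) (N0 := 3)
    rfl k0_pp_101

noncomputable def f_pp_102 : ℕ → ℕ → ℕ → ℕ → Bool := onCell 0 536870912 0 536870912 1046898278 26843546
    (rowNX 3 2 false true true .npp 1 0 2 (qsf 536870912 536870912 0 536870912 0) ndN2q1 ndN0q2 pcN0 Cut.none Ext.none)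

def k0_pp_102 : ∃ t, chk3 f_pp_102 t 2 1 1 = true :=
  ⟨(b (b (a (l 2) (a (a (a (l 2) (a (b (l 2) (b (l 2) (c (l 15560096) (l 15521840)))) (b (c (b (l 14815264) (l 15200104)) (b (l 14747168) (l 15147352))) (b (c (b (b (l 15445248) (l 15503192)) (l 15529952)) (b (l 15368104) (l 15490144))) (c (l 15571536) (l 15533160)))))) (a (b (b (c (l 14916712) (l 14851896)) (c (l 15216168) (l 15163224))) (b (b (b (l 15384416) (c (l 15485904) (l 15443576))) (c (l 15525960) (l 15485144))) (c (b (l 15567096) (l 15601848)) (l 15539400)))) (b (c (b (l 15071496) (l 15273216)) (l 15012600)) (b (b (l 15408312) (c (l 15524280) (l 15482328))) (c (l 15598080) (l 15558872)))))) (a (a (b (c (l 15301480) (l 15250008)) (c (b (b (l 15457640) (l 15528592)) (l 15603960)) (b (l 15451784) (l 15564016)))) (b (c (l 15445120) (l 15398456)) (b (l 15510760) (c (l 15614040) (l 15573656))))) (b (c (l 15710752) (l 15673320)) (b (l 15726400) (a (c (a (l 15652440) (l 15739000)) (a (l 15613000) (l 15702560))) (c (l 15880024) (l 15848536))))))))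 (a (l 3) (b (b (a (a (l 3) (b (c (l 286317593447) (l 15609808)) (l 3))) (a (a (c (l 15704048) (l 15667760)) (c (l 15726152) (l 15689888))) (a (c (a (l 15750112) (l 15800024)) (a (l 15714240) (l 15765744))) (c (l 15934576) (l 15905000))))) (a (l 3) (a (b (c (l 353426724967) (l 340004871207)) (l 3)) (a (b (c (l 312087708903) (l 295981512055)) (l 3)) (c (l 306182380663) (l 15975424)))))) (l 3)))) (l 3)), by decide +kernel⟩

def k1_pp_102 : ∃ t, chk3 f_pp_102 t 3 1 1 = true :=
  ⟨(b (a (b (a (b (a (l 16073536) (l 16400600)) (a (c (l 15991896) (l 16032392)) (c (l 16436080) (l 16424104)))) (b (l 16643136) (c (l 16663232) (l 16659232)))) (a (b (a (c (b (l 16126536) (c (l 207935352151) (l 16162832))) (b (l 16190528) (a (l 16165312) (l 16343448)))) (c (b (l 16475416) (l 16504480)) (b (l 16464816) (l 16494912)))) (b (a (a (l 3) (c (l 328194961111) (l 333026771223))) (c (l 294372357687) (l 285245535319))) (l 3))) (b (c (a (b (l 16623344) (l 16649176)) (b (l 16748944) (l 16761184))) (a (b (l 16617944) (l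 16644680)) (b (l 16747952) (l 16760616)))) (b (c (a (l 16617040) (l 16771136)) (a (l 16655576) (l 16770920))) (c (a (l 315310680679) (l 269676936199)) (a (l 315847545831) (l 273971902807))))))) (b (b (l 16777216) (c (l 16777216) (l 16777216))) (a (a (c (b (l 16777216) (b (l 16777216) (l 16777216))) (b (l 16777216) (a (l 16777216) (l 16777216)))) (c (b (l 16777216) (c (l 16777216) (l 16777216))) (b (l 16777216) (l 16777216)))) (b (a (c (l 16777216) (l 16777216)) (l 16777216)) (c (c (b (l 16777216) (l 16777216)) (b (l 16777216) (l 16777216))) (c (b (l 16777216) (l 16777216)) (l 16777216))))))) (b (a (l 3) (b (a (b (c (a (l 301352353799) (l 259476422663)) (c (l 286319968263) (l 289004322823))) (l 3)) (b (c (c (l 16777216) (l 16777216)) (c (l 16777216) (l 16777216))) (c (a (l 277730033671) (l 230485393415)) (c (l 265918873607) (l 278803775495))))) (l 3))) (l 3))), by decide +kernel⟩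

theorem s2_pp_102 : ∃ t, chk3 f_pp_102 t 1 1 1 = true := ex3_a k0_pp_102 k1_pp_102

theorem c_pp_102 : CertNX 536870912 536870912 0 536870912 1046898278 26843546 3 false true true .npp 1 0 2
    ndN2q1 ndN0q2 pcN0 Cut.none Ext.none :=
  certNX2 (fam := false) (s1 := true) (s2 := true) (a := 1) (b := 0) (c := 2) (cn := .npp) (n1 := ndN2q1) (n2 := ndN0q2) (pc := pcN0) (cut := Cut.none) (xt := Ext.none) (P1 := 536870912) (W1 := 536870912) (P2 := 0) (W2 := 536870912) (P3 := 1046898278) (W3 := 26843546) (N0 := 3)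
    rfl (fun _ => rfl) s2_pp_102

noncomputable def f_pp_112 : ℕ → ℕ → ℕ → ℕ → Bool := onCell 536870912 536870912 0 536870912 1046898278 26843546
    (rowNX 3 2 false true true .dn 1 1 2 (qsf 536870912 536870912 0 536870912 1) ndN2q1 ndN0q2 pcN1 Cut.none Ext.none)

def k0_pp_112 : ∃ t, chk3 f_pp_112 t 1 1 1 = true :=
  ⟨(a (b (b (a (b (l 16777216) (l 16777216)) (b (l 16777216) (l 16777216))) (a (b (l 16777216) (a (c (c (b (l 16777216) (l 16777216)) (b (l 16777216) (l 16777216))) (c (l 16777216) (l 16777216))) (c (c (l 16777216) (l 16777216)) (a (l 16777216) (l 16777216))))) (a (b (l 16777216) (c (l 1300334903303) (l 1256848359431))) (l 1)))) (b (a (b (a (c (c (b (l 16777216) (l 16777216)) (b (l 16777216) (l 16777216))) (c (b (l 16777216) (l 16777216)) (l 16777216))) (c (c (l 16777216) (l 16777216)) (c (l 16777216) (l 16777216)))) (a (b (c (c (l 296520345175) (l 317995180647)) (a (l 388325277415) (l 341617514295))) (l 3)) (a (b (c (b (l 16753856) (l 16666800)) (b (l 16753032) (l 16662912))) (l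 3)) (b (c (l 16710760) (l 16708424)) (l 1))))) (l 1)) (a (l 3) (l 1)))) (l 1)), by decide +kernel⟩

theorem c_pp_112 : CertNX 536870912 536870912 0 536870912 1046898278 26843546 3 false true true .dn 1 1 2
    ndN2q1 ndN0q2 pcN1 Cut.none Ext.none :=
  certNX2 (fam := false) (s1 := true) (s2 := true) (a := 1) (b := 1) (c := 2) (cn := .dn) (n1 := ndN2q1) (n2 := ndN0q2) (pc := pcN1) (cut := Cut.none) (xt := Ext.none) (P1 := 536870912) (W1 := 536870912) (P2 := 0) (W2 := 536870912) (P3 := 1046898278) (W3 := 26843546) (N0 := 3)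
    rfl (fun _ => rfl) k0_pp_112

noncomputable def f_pp_202_a : ℕ → ℕ → ℕ → ℕ → Bool := onCell 0 420477299 0 536870912 1046898278 26843546
    (rowNX 3 0 false true true .pp 2 0 2 (qsf 0 420477299 0 536870912 0) ndN2q2a ndN0q2 pcN0 Cut.none Ext.none)

def k0_pp_202_a : ∃ t, chk3 f_pp_202_a t 1 1 1 = true :=
  ⟨(l 3), by decide +kernel⟩

theorem c_pp_202_a : CertNX 0 420477299 0 536870912 1046898278 26843546 3 false true true .pp 2 0 2
    ndN2q2a ndN0q2 pcN0 Cut.none Ext.none :=
  certNX0 (fam := false) (s1 := true) (s2 := true) (a := 2) (b := 0) (c := 2) (cn := .pp) (n1 := ndN2q2a) (n2 := ndN0q2) (pc := pcN0) (cut := Cut.none) (xt := Ext.none) (P1 := 0) (W1 := 420477299) (P2 := 0) (W2 := 536870912) (P3 := 1046898278) (W3 := 26843546) (N0 := 3)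
    rfl k0_pp_202_a

noncomputable def f_pp_202_b : ℕ → ℕ → ℕ → ℕ → Bool := onCell 1239849684 370763052 0 536870912 1046898278 26843546
    (rowNX 3 0 false true true .pp 2 0 2 (qsf 1239849684 370763052 0 536870912 0) ndN2q2b ndN0q2 pcN0 Cut.none Ext.none)

def k0_pp_202_b : ∃ t, chk3 f_pp_202_b t 1 1 1 = true :=
  ⟨(l 3), by decide +kernel⟩

theorem c_pp_202_b : CertNX 1239849684 370763052 0 536870912 1046898278 26843546 3 false true true .pp 2 0 2
    ndN2q2b ndN0q2 pcN0 Cut.none Ext.none :=
  certNX0 (fam := false) (s1 := true) (s2 := true) (a := 2) (b := 0) (c := 2) (cn := .pp) (n1 := ndN2q2b) (n2 := ndN0q2) (pc := pcN0) (cut := Cut.none) (xt := Ext.none) (P1 := 1239849684) (W1 := 370763052) (P2 := 0) (W2 := 536870912) (P3 := 1046898278) (W3 := 26843546) (N0 := 3)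
    rfl k0_pp_202_b

noncomputable def f_pm_001 : ℕ → ℕ → ℕ → ℕ → Bool := onCell 67108864 469762048 536870912 536870912 1046898278 26843546
    (rowNX 3 0 false true false .up 0 0 1 (qsf 67108864 469762048 536870912 536870912 0) ndN2q0 ndN0q1 pcN0 Cut.none Ext.none)

def k0_pm_001 : ∃ t, chk3 f_pm_001 t 1 1 1 = true :=
  ⟨(b (l 4) (a (b (l 4) (l 2)) (l 4))), by decide +kernel⟩

theorem c_pm_001 : CertNX 67108864 469762048 536870912 536870912 1046898278 26843546 3 false true false .up 0 0 1
    ndN2q0 ndN0q1 pcN0 Cut.none Ext.none :=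
  certNX0 (fam := false) (s1 := true) (s2 := false) (a := 0) (b := 0) (c := 1) (cn := .up) (n1 := ndN2q0) (n2 := ndN0q1) (pc := pcN0) (cut := Cut.none) (xt := Ext.none) (P1 := 67108864) (W1 := 469762048) (P2 := 536870912) (W2 := 536870912) (P3 := 1046898278) (W3 := 26843546) (N0 := 3)
    rfl k0_pm_001

noncomputable def f_pm_011 : ℕ → ℕ → ℕ → ℕ → Bool := onCell 67108864 469762048 536870912 536870912 1046898278 26843546
    (rowNX 3 0 false true false .pnn 0 1 1 (qsf 67108864 469762048 536870912 536870912 1) ndN2q0 ndN0q1 pcN1 Cut.none Ext.none)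

def k0_pm_011 : ∃ t, chk3 f_pm_011 t 1 1 1 = true :=
  ⟨(b (l 4) (a (b (l 4) (l 4)) (l 4))), by decide +kernel⟩

theorem c_pm_011 : CertNX 67108864 469762048 536870912 536870912 1046898278 26843546 3 false true false .pnn 0 1 1
    ndN2q0 ndN0q1 pcN1 Cut.none Ext.none :=
  certNX0 (fam := false) (s1 := true) (s2 := false) (a := 0) (b := 1) (c := 1) (cn := .pnn) (n1 := ndN2q0) (n2 := ndN0q1) (pc := pcN1) (cut := Cut.none) (xt := Ext.none) (P1 := 67108864) (W1 := 469762048) (P2 := 536870912) (W2 := 536870912) (P3 := 1046898278) (W3 := 26843546) (N0 := 3)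
    rfl k0_pm_011

noncomputable def f_pm_012 : ℕ → ℕ → ℕ → ℕ → Bool := onCell 536870912 536870912 0 536870912 1046898278 26843546
    (rowNX 3 2 false true false .pnp 0 1 2 (qsf 67108864 469762048 0 536870912 1) ndN2q0 ndN0q2 pcN1 Cut.none Ext.none)

def k0_pm_012 : ∃ t, chk3 f_pm_012 t 2 1 1 = true :=
  ⟨(b (b (a (l 2) (b (l 16777216) (l 16777216))) (a (c (l 16777216) (l 16777216)) (c (l 16777216) (l 16777216)))) (b (a (a (l 2) (b (l 16777216) (l 16615176))) (a (b (l 16777216) (b (l 16709592) (l 16520320))) (b (l 16777216) (b (l 16709592) (l 16516872))))) (b (a (c (l 16061608) (l 16123984)) (b (a (l 16162848) (b (l 16267208) (l 16398144))) (a (a (l 16039080) (l 16166968)) (a (l 16312608) (l 16463632))))) (b (a (c (b (l 15727072) (l 15544984)) (l 15647568)) (a (b (a (l 15758792) (l 15958192)) (b (a (l 15709528) (l 15932784)) (l 4))) (b (a (l 16194392) (l 16374160)) (l 4)))) (a (a (c (l 15480040) (l 310543106167)) (l 4)) (l 4)))))), by decide +kernel⟩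

def k1_pm_012 : ∃ t, chk3 f_pm_012 t 6 2 1 = true :=
  ⟨(a (b (b (a (l 16777096) (l 16692136)) (l 16639576)) (a (l 16777008) (l 16592520))) (b (a (b (l 16527368) (l 16459656)) (b (a (l 16393992) (l 16244440)) (l 16040712))) (a (l 16278688) (b (l 15912656) (a (l 16081000) (l 15788152)))))), by decide +kernel⟩

def k2_pm_012 : ∃ t, chk3 f_pm_012 t 12 3 1 = true :=
  ⟨(b (a (b (l 16776904) (b (l 16709864) (l 16517448))) (b (l 16601440) (b (a (b (c (l 16540352) (l 16479688)) (a (l 16717936) (c (l 16602984) (l 16541360)))) (b (b (l 16504208) (c (a (c (l 16511816) (l 16514128)) (l 16454344)) (a (b (l 16543568) (l 16545536)) (b (l 16467088) (l 16458024))))) (b (a (c (l 16479944) (l 16462112)) (c (a (b (l 16450416) (l 16407632)) (b (l 16384568) (l 16367696))) (b (l 16455208) (l 16395280)))) (a (c (l 16353896) (l 16347664)) (c (b (l 16358184) (l 16208208)) (l 16228576)))))) (a (l 16652768) (a (l 16324728) (b (b (b (c (l 16158480) (l 16136904)) (l 16123320)) (l 16115616)) (l 16102384))))))) (b (a (b (b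 (l 16379248) (l 16405720)) (b (l 16557520) (l 16362808))) (b (b (l 16249576) (a (l 16365312) (l 15992224))) (a (b (l 16385072) (l 16159248)) (b (l 16034576) (l 15908536))))) (b (b (b (a (l 16206408) (l 15913824)) (b (a (l 16133248) (l 15855112)) (l 4))) (l 4)) (l 4)))), by decide +kernel⟩

def k3_pm_012 : ∃ t, chk3 f_pm_012 t 13 12 1 = true :=
  ⟨(a (l 16268736) (a (l 15983184) (l 15646048))), by decide +kernel⟩

def k4_pm_012 : ∃ t, chk3 f_pm_012 t 26 13 1 = true :=
  ⟨(b (b (l 16245768) (b (a (c (a (b (l 16379824) (c (a (l 16341280) (l 16359064)) (l 16368752))) (l 16241152)) (a (b (l 16372128) (l 16323096)) (b (l 16306936) (l 16286240)))) (l 16184320)) (b (a (a (c (c (l 16280240) (l 16287976)) (l 16283264)) (c (a (b (l 16246200) (l 16238552)) (l 16275704)) (l 16128640))) (a (a (c (l 16205296) (l 16223880)) (l 16223304)) (l 16154872))) (a (a (c (l 16226456) (l 16132488)) (c (c (l 16125400) (l 16178328)) (l 16174168))) (a (c (a (b (l 16216392) (l 16118920)) (l 16104800)) (c (l 16191960) (l 16192280)))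 (a (c (l 15992376) (l 16140000)) (l 16143016))))))) (a (b (b (a (c (b (l 16034880) (l 15969584)) (l 15894392)) (b (a (l 16002432) (c (l 16030536) (l 15994192))) (c (l 15861240) (l 15830040)))) (a (l 15914344) (b (c (l 15673688) (l 15743272)) (l 15712832)))) (l 15775976)) (b (b (b (a (c (c (c (l 15950416) (l 16043568)) (l 16070384)) (l 16027376)) (c (c (l 15916568) (a (b (l 16154264) (l 15896712)) (l 16106040))) (c (l 16020456) (l 16065520)))) (a (a (l 15856456) (c (c (l 15803368) (l 15940120)) (l 15868536))) (c (a (c (c (l 15759448) (l 15935488)) (l 15976720)) (b (a (l 15820112) (c (l 16110760) (l 16103408))) (c (a (l 15769808) (l 15977344)) (l 15971120)))) (a (l 15948144) (c (l 15967416) (l 16029592)))))) (c (a (b (l 15647720) (a (l 15612096) (l 15542928))) (a (b (l 15735936) (l 15515712)) (b (c (c (b (a (l 15855016) (l 15874624)) (l 15646928)) (l 15716448)) (l 15840728)) (l 15555728)))) (a (b (l 15652488) (l 15441336)) (b (l 15724384) (l 15495680))))) (a (l 15466912) (b (b (c (a (l 15413888)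 (l 15290072)) (a (l 15365368) (l 15302968))) (l 15290120)) (l 15242824)))))), by decide +kernel⟩

def k5_pm_012 : ∃ t, chk3 f_pm_012 t 54 26 1 = true :=
  ⟨(l 15957632), by decide +kernel⟩

def k6_pm_012 : ∃ t, chk3 f_pm_012 t 54 54 1 = true :=
  ⟨(a (b (b (l 16083288) (a (c (c (c (l 15909064) (l 16061064)) (c (l 16066424) (l 15933640))) (c (l 15957664) (l 16046832))) (a (c (b (l 16094008) (b (l 16098248) (l 16079632))) (l 15832696)) (l 16053880)))) (a (c (b (c (c (b (l 15681376) (a (l 15806728) (l 15830112))) (b (l 15865568) (l 15702616))) (l 15648784)) (c (c (a (l 15610216) (b (l 15722016) (l 15580016))) (l 15616776)) (l 15601920))) (b (l 15863280) (l 15571672))) (c (b (b (a (c (l 16025704) (b (l 16045288) (l 15942736))) (c (l 16046616) (l 15965872))) (a (c (c (l 15877448) (l 15866240)) (l 15844800)) (c (l 15935272) (l 15683440)))) (b (a (c (b (l 15790336) (l 15735504)) (l 15794768)) (c (c (l 15785760) (l 15788488)) (c (l 15665856) (l 15830464)))) (a (l 15603376) (c (b (l 15710800) (l 15619680))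 (l 15635528))))) (b (a (c (l 15831032) (l 15952080)) (c (b (l 15932384) (l 15904760)) (l 15972296))) (a (l 15633664) (l 15707744)))))) (b (l 15926656) (a (c (b (c (c (c (b (l 16003112) (l 15970704)) (l 15821296)) (l 15887936)) (l 15937600)) (b (a (c (c (l 15838336) (l 15815088)) (l 15752552)) (c (l 15883144) (b (l 15921200) (l 15810464)))) (a (c (b (l 15727496) (l 15676144)) (l 15718288)) (c (c (l 15720112) (l 15717448)) (l 15623840))))) (b (c (l 15809104) (l 15922424)) (c (b (l 15734976) (l 15721088)) (l 15781776)))) (b (l 15893592) (c (b (c (a (l 15902936) (l 15880968)) (l 15847672)) (a (c (c (l 15778832) (l 15760872)) (l 15665960)) (c (l 15823000) (b (l 15827152) (l 15728408))))) (c (c (b (l 15829840) (l 15682424)) (l 15811128)) (l 15677728))))))), by decide +kernel⟩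

def k7_pm_012 : ∃ t, chk3 f_pm_012 t 54 55 1 = true :=
  ⟨(b (a (c (a (b (l 15345672) (b (l 15220400) (l 15176104))) (b (l 15415880) (a (l 15165480) (b (l 15222968) (l 15102672))))) (a (b (l 15296624) (l 15160256)) (b (l 15368912) (a (l 15108976) (l 15099808))))) (b (b (c (c (a (a (l 15549624) (c (l 15607520) (l 15476640))) (a (b (l 15656656) (l 15605192)) (b (l 15707368) (l 15621200)))) (a (l 15547424) (c (l 15433776) (l 15667448)))) (l 15389512)) (a (l 15348176) (c (c (c (a (l 15499088) (l 15534912)) (a (l 15475232) (b (l 15563560) (l 15476816)))) (l 15422016)) (l 15444616)))) (c (a (l 15184176) (l 15264880)) (a (l 15130000) (l 15212656))))) (a (l 15056520) (a (b (b (c (l 15029392) (l 14968096)) (l 14946352)) (l 14915648)) (c (b (b (l 15033368) (l 14933016)) (b (l 14889088) (l 14859984))) (b (l 14881128) (l 14817936)))))), by decide +kernel⟩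

def k8_pm_012 : ∃ t, chk3 f_pm_012 t 110 13 1 = true :=
  ⟨(b (l 15687408) (b (a (b (l 15779480) (b (l 15792976) (b (l 15799224) (c (c (a (l 15822424) (b (l 15801184) (l 15793664))) (l 15749416)) (c (l 15732088) (l 15739936)))))) (l 15684984)) (b (c (b (b (a (c (a (l 15688728) (l 15750568)) (a (l 15594456) (l 15728424))) (a (c (l 15732840) (l 15674728)) (l 15694392))) (a (c (a (b (l 15586472) (l 15528440)) (a (l 15577632) (l 15619088))) (c (l 15407832) (l 15583264))) (a (c (b (l 15698176) (l 15616856)) (a (l 15556088) (l 15667496))) (c (l 15671032) (l 15626936))))) (a (b (c (c (a (l 15433352) (l 15459088)) (a (l 15296736) (b (l 15489088) (l 15421000)))) (a (l 15386256) (l 15328720))) (l 15264984)) (c (a (b (b (l 15524800) (l 15451416)) (c (l 15364144) (b (l 15389896) (l 15296768)))) (c (b (l 15554360) (l 15386240)) (b (l 15275024) (b (l 15416528) (l 15356984))))) (c (b (l 15295200) (a (l 15323816) (l 15305632))) (l 15314864))))) (c (c (b (a (b (l 15654792) (l 15583712)) (l 15556304)) (l 15406368))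 (b (a (l 15627328) (l 15621232)) (l 15391672))) (b (a (l 15624856) (l 15616752)) (l 15360464)))) (c (b (a (l 15039552) (c (c (b (a (l 15192608) (l 15253096)) (l 15057984)) (l 15122320)) (l 15101056))) (a (c (l 14843952) (l 14810256)) (b (l 14879448) (l 14597112)))) (b (l 15021248) (a (c (l 14776144) (l 14741568)) (b (l 14812832) (l 14672688)))))))), by decide +kernel⟩

def k9_pm_012 : ∃ t, chk3 f_pm_012 t 111 13 1 = true :=
  ⟨(b (l 15489768) (b (l 15527928) (a (b (b (a (a (b (l 15636280) (b (l 15639200) (c (l 15645016) (l 15588864)))) (l 15611824)) (l 15572192)) (c (b (c (c (a (l 15601640) (l 15591232)) (l 15297552)) (l 15552472)) (a (c (b (l 15481464) (l 15384128)) (c (l 15356016) (l 15429576))) (c (b (l 15541768) (l 15455072)) (b (l 15529736) (l 15264360))))) (c (c (b (l 15525264) (a (l 15432408) (l 15492184))) (l 15307352)) (b (l 15521656) (l 15446632))))) (c (b (c (a (b (c (l 15293144) (b (l 15322768) (l 15239712))) (l 15117944)) (b (b (l 15355776) (l 15287984)) (b (c (l 15227112) (l 15215616))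 (l 15126648)))) (b (c (a (l 15291728) (b (l 15348752) (l 15296880))) (l 15331072)) (l 15114336))) (l 14885128)) (b (l 15109040) (l 14818480)))) (b (b (l 15492832) (b (l 15498424) (c (c (a (l 15519648) (b (l 15507568) (l 15496192))) (l 15408136)) (c (l 15213792) (l 15425392))))) (b (c (c (a (b (b (l 15430048) (l 15332864)) (c (l 15223320) (b (l 15253664) (l 15188264)))) (b (b (l 15475488) (l 15404944)) (b (l 15321736) (l 15222024)))) (b (a (c (l 15304712) (l 15340160)) (b (l 15426872) (l 15211560))) (c (c (a (l 15124752) (l 15179592)) (l 15113408)) (l 15235488)))) (c (b (a (l 15345712) (b (l 15405256) (l 15327432))) (l 15238968)) (l 15058216))) (c (b (c (c (a (c (l 15073984) (l 15058544)) (l 15129248)) (a (l 15047520) (b (l 15158288) (l 15060264)))) (c (l 14886368) (l 15045504))) (l 14898464)) (l 14920968))))))), by decide +kernel⟩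

def k10_pm_012 : ∃ t, chk3 f_pm_012 t 13 7 1 = true :=
  ⟨(b (a (b (b (l 15302800) (a (l 15676136) (a (l 15287304) (l 15030160)))) (a (b (l 15637352) (a (l 15703512) (l 15542752))) (b (a (l 15285624) (l 15025488)) (l 15244856)))) (a (b (a (b (l 14936984) (l 14780608)) (l 14708088)) (a (b (b (l 14711984) (l 14784224)) (l 14919808)) (b (l 14586280) (l 14755944)))) (b (b (b (a (a (l 14704024) (b (b (c (l 14695752) (l 14621792)) (l 14627096)) (l 14607832))) (a (b (c (c (b (l 14669752) (l 14613088)) (l 14617632)) (c (l 14580240) (l 14542312))) (l 14521144)) (b (c (c (l 14657184) (l 14620688)) (b (l 14659088) (l 14489800))) (b (c (c (l 14516984) (l 14477640)) (l 14420648)) (l 14424272))))) (l 14531904)) (l 14468080)) (b (b (l 14409904) (l 14399248)) (l 14559920))))) (b (a (b (a (b (l 15619808) (c (l 15629760) (l 15592984))) (c (l 15361112) (l 15309256))) (l 4)) (b (a (a (c (l 15125184) (l 15064504)) (l 119416192663)) (c (l 14760952) (l 14686744))) (l 4))) (l 4))), by decide +kernel⟩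

def k11_pm_012 : ∃ t, chk3 f_pm_012 t 7 2 1 = true :=
  ⟨(a (b (a (b (l 15894232) (l 15717208)) (b (b (l 15596984) (l 15473984)) (b (l 15352336) (l 15231720)))) (a (b (l 15505808) (c (l 15095016) (l 15274752))) (b (c (l 15080952) (l 15021304)) (c (l 14677088) (l 14776864))))) (b (a (b (c (l 14890896) (l 15068776)) (c (a (l 14986768) (l 14721792)) (l 14800168))) (b (c (a (l 14757656) (l 14268328)) (b (l 14652960) (l 14497776))) (c (a (l 14445760) (b (l 14277208) (l 14120608))) (a (l 14401656) (c (l 14148360) (l 14116656)))))) (a (c (b (l 14376016) (a (l 14483872) (l 14169464))) (b (l 14533616) (l 14269800))) (b (a (c (l 14138368) (l 14106784)) (c (b (l 13974176) (l 13842776)) (a (l 13888632) (l 13793104)))) (a (c (b (l 13920032) (l 13801584)) (l 13847936)) (c (b (l 13731872) (l 13639064)) (a (l 13659488) (l 13585464)))))))), by decide +kernel⟩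

def k12_pm_012 : ∃ t, chk3 f_pm_012 t 28 6 1 = true :=
  ⟨(a (b (b (l 15324320) (l 15231640)) (b (l 15183432) (b (l 15211984) (b (l 15230720) (b (a (a (c (a (b (c (b (l 15450336) (l 15436008)) (l 15353064)) (c (b (l 15389520) (l 15298536)) (b (l 15378856) (c (l 15268912) (l 15249912))))) (b (l 15396632) (c (b (l 15392536) (l 15360776)) (l 15283552)))) (c (c (c (l 15123272) (l 15311800)) (l 15308368)) (b (l 15327488) (l 15295072)))) (a (a (b (l 15332824) (b (l 15335608) (c (l 15344544) (l 15278768)))) (l 15307944)) (l 15267816))) (l 15133856)) (c (a (c (b (b (a (a (l 15194376) (l 15276888)) (a (l 15326720) (l 15310432))) (a (a (c (l 15126920) (l 15126640)) (l 15172696)) (a (l 15263936) (l 15287368)))) (b (a (c (a (l 15062152) (l 15097040)) (a (l 15044280) (l 15094648))) (a (l 15159416) (l 15242784))) (a (a (l 14954296) (c (l 15032280) (l 15022984))) (a (c (l 15072240) (l 15064176)) (l 15148848))))) (b (a (c (a (b (l 14987648) (l 14966176)) (l 14919264)) (l 15049976)) (c (l 15228912) (c (l 15249816)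 (a (l 15141864) (l 15221664))))) (a (a (l 14966680) (b (c (c (l 15093032) (l 15089840)) (l 15127960)) (l 14984080))) (a (c (c (b (l 15139648) (l 15062952)) (l 15070704)) (l 15112776)) (b (l 15100848) (c (l 14996920) (l 15094824))))))) (a (b (l 15219672) (c (a (b (l 15243792) (l 15214736)) (b (l 15209360) (l 15198592))) (c (l 15062336) (l 15145328)))) (l 15115728))) (a (c (a (l 14924624) (c (b (l 14985144) (a (l 15110256) (b (l 15197640) (l 15105312)))) (b (l 15214848) (l 15157592)))) (a (l 15050808) (b (l 15205176) (l 15123504)))) (a (c (c (l 15030904) (l 15114176)) (l 15106352)) (l 15058280))))))))) (b (b (l 14969600) (l 14851496)) (b (l 14784800) (l 14816712)))), by decide +kernel⟩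

def k13_pm_012 : ∃ t, chk3 f_pm_012 t 29 6 1 = true :=
  ⟨(b (c (l 14606536) (l 14530112)) (b (c (l 14484048) (l 14403464)) (c (a (l 14619376) (l 14460920)) (l 14468752)))), by decide +kernel⟩

def k14_pm_012 : ∃ t, chk3 f_pm_012 t 112 112 2 = true :=
  ⟨(a (b (c (c (c (b (a (l 14838240) (l 14898936)) (l 14695048)) (l 14772312)) (l 14759424)) (l 14733448)) (c (b (l 14505976) (l 14421680)) (b (l 14466856) (l 14380736)))) (b (b (c (a (c (b (l 15001256) (l 14923888)) (b (l 14997584) (l 14893440))) (b (l 15039872) (c (l 14970872) (l 14969392)))) (c (a (c (l 14856952) (l 14918360)) (c (b (l 15033800) (l 14962400)) (l 14826992))) (l 14834288))) (c (a (l 14768568) (b (c (l 14901608) (l 14880096)) (l 14787416))) (l 14766040))) (c (l 14519344) (l 14480928)))), by decide +kernel⟩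

def k15_pm_012 : ∃ t, chk3 f_pm_012 t 113 112 2 = true :=
  ⟨(a (a (b (b (c (b (l 15130824) (l 15021488)) (c (c (l 14807080) (l 15023304)) (l 15028272))) (c (c (b (l 14943424) (l 14875624)) (b (l 14940280) (l 14864264))) (b (c (a (l 14917768) (l 14948256)) (l 14970816)) (l 14822512)))) (l 14608216)) (b (b (b (a (l 15169472) (l 15166032)) (c (l 15122952) (a (l 14991552) (l 15112200)))) (c (b (l 15013440) (c (l 14921912) (l 14912792))) (c (c (b (l 14992008) (l 14910640)) (b (l 14983264) (l 14848192))) (l 14810616)))) (b (c (c (b (l 14847736) (l 14765984)) (b (l 14842880) (l 14733480))) (c (b (a (l 14791824) (l 14842336)) (l 14715976)) (l 14746056))) (l 14583808)))) (b (a (b (b (l 15146592) (c (l 15139696) (a (l 15124792) (l 15110256)))) (c (b (l 15101496) (l 15007896)) (b (a (l 15022104) (l 15086928)) (c (a (l 14954352) (l 15006120)) (l 14940472))))) (b (l 15094472) (c (b (l 15095528) (l 15072120)) (c (l 14873272) (l 15018192))))) (c (b (a (c (b (l 14910200) (l 14820440)) (b (l 14890176) (l 14817880)))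 (b (l 15003104) (c (l 14906704) (l 14876712)))) (a (b (a (l 14703624) (l 14762712)) (l 14627736)) (a (b (l 14785256) (l 14707216)) (b (l 14809952) (l 14738784))))) (b (c (a (c (b (l 14884984) (l 14810928)) (b (l 14788736) (l 14818064))) (b (l 14899576) (a (l 14847912) (l 14886992)))) (a (c (l 14816584) (l 14873504)) (b (a (l 14910032) (l 14983568)) (l 14853264)))) (a (l 14639016) (c (b (a (l 14769520) (l 14800616)) (c (l 14688368) (l 14674016))) (l 14669296))))))), by decide +kernel⟩

def k16_pm_012 : ∃ t, chk3 f_pm_012 t 56 112 3 = true :=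
  ⟨(b (a (a (l 14680560) (c (l 14873008) (l 14790792))) (a (b (c (a (l 15029688) (c (b (l 15120552) (l 14943736)) (l 15086712))) (l 14871984)) (c (l 14895184) (l 14865104))) (c (b (l 15038448) (c (a (b (l 15001352) (l 14950936)) (l 15016432)) (l 14871544))) (c (l 14802272) (l 14942928))))) (a (a (b (l 14407136) (l 14320888)) (l 14356200)) (a (l 14568584) (c (a (l 14749624) (a (l 14653600) (b (b (l 14874672) (l 14896360)) (l 14745152)))) (l 14764680))))), by decide +kernel⟩

def k17_pm_012 : ∃ t, chk3 f_pm_012 t 56 113 1 = true :=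
  ⟨(b (a (a (l 14319376) (c (c (b (l 14328600) (l 14288720)) (b (l 14286104) (l 14244992))) (c (l 14242768) (l 14198864)))) (c (a (b (l 14368408) (c (l 14240424) (l 14196416))) (a (l 14372176) (c (c (c (b (l 14579392) (l 14383416)) (l 14469248)) (l 14454400)) (l 14424456)))) (a (c (l 13971728) (l 14179360)) (l 14326384)))) (a (l 14265232) (a (b (a (l 14138040) (c (l 14147576) (l 14054744))) (l 14114048)) (c (c (b (a (l 14141880) (l 14169264)) (l 14099880)) (b (l 14114744) (l 14053144))) (c (b (l 14068760) (l 14005824)) (b (l 14022088) (l 13957848))))))), by decide +kernel⟩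

def k18_pm_012 : ∃ t, chk3 f_pm_012 t 56 57 1 = true :=
  ⟨(l 14174432), by decide +kernel⟩

def k19_pm_012 : ∃ t, chk3 f_pm_012 t 56 29 1 = true :=
  ⟨(a (b (l 14262576) (l 14371000)) (b (l 14142480) (c (l 14296704) (l 14211288)))), by decide +kernel⟩

def k20_pm_012 : ∃ t, chk3 f_pm_012 t 114 112 1 = true :=
  ⟨(a (b (l 14986200) (c (a (b (c (b (l 15035152) (l 14988408)) (c (c (l 14887784) (l 14970512)) (l 14968824))) (b (c (l 14887176) (c (a (l 14828480) (l 14885448)) (l 14831960))) (c (c (l 14781560) (l 14768808)) (c (a (l 14752232) (l 14777296)) (l 14648800))))) (b (a (b (l 15007680) (l 14987368)) (l 14981936)) (c (b (l 14963960) (l 14876552)) (c (c (l 14734152) (b (l 14919280) (l 14781920))) (b (l 14917288) (l 14787112)))))) (c (b (c (c (l 14657592) (l 14908000)) (l 14903224)) (a (l 14773432) (b (c (l 14742264) (l 14886336)) (l 14794472)))) (b (l 14744520) (a (l 14756584) (l 14845584)))))) (a (b (l 14905016) (b (l 14910288) (c (c (b (l 14948056) (l 14930672)) (c (c (b (l 14934720) (l 14913376))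 (l 14865088)) (l 14862776))) (c (c (l 14859792) (l 14836368)) (l 14826544))))) (l 14854296))), by decide +kernel⟩

def k21_pm_012 : ∃ t, chk3 f_pm_012 t 114 113 1 = true :=
  ⟨(c (b (a (b (b (a (c (a (l 14689680) (l 14710992)) (c (a (l 14641976) (l 14699224)) (l 14645136))) (c (c (l 14779576) (l 14753072)) (c (a (l 14729672) (l 14762816)) (c (l 14765512) (l 14765720))))) (c (c (a (l 14618352) (l 14677456)) (a (l 14582440) (l 14673552))) (a (l 14554168) (c (a (l 14638248) (l 14682096)) (l 14696792))))) (c (a (l 14444672) (b (c (l 14603016) (a (l 14546328) (l 14603408))) (l 14477424))) (l 14445944))) (c (a (b (b (l 14876976) (c (l 14778368) (l 14750904))) (c (b (l 14660624) (l 14582768)) (b (l 14651760) (a (l 14538792) (l 14590136))))) (b (b (l 14889576) (l 14857104)) (b (c (l 14773304) (l 14756080)) (c (l 14656208) (l 14635800))))) (b (a (a (c (b (l 14823088) (l 14709576)) (l 14526392)) (b (c (l 14873416) (l 14857064)) (c (l 14768400) (l 14726696)))) (c (c (b (l 14873360) (l 14838376)) (l 14815528))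 (l 14812928))) (b (c (a (a (l 14631224) (l 14661088)) (a (l 14702320) (l 14764520))) (a (c (l 14579488) (l 14676008)) (l 14595992))) (c (a (a (l 14514120) (l 14573912)) (a (l 14614016) (l 14645848))) (a (l 14517944) (a (l 14545008) (l 14472968)))))))) (a (a (c (l 14063416) (l 14101944)) (l 14209096)) (b (a (c (c (a (l 14401208) (l 14459232)) (l 14402840)) (l 14372224)) (a (c (b (l 14547360) (l 14429448)) (l 14441568)) (c (c (l 14538280) (b (l 14570712) (l 14477352))) (b (c (l 14565224) (l 14596608)) (l 14436936))))) (l 14231296)))) (b (b (a (c (l 14472912) (l 14573976)) (c (c (a (b (a (l 14769592) (l 14850288)) (l 14726952)) (c (l 14810384) (l 14782912))) (a (l 14709264) (l 14777824))) (a (l 14758432) (l 14764688)))) (a (l 14385560) (c (c (a (l 14603256) (l 14657048)) (l 14614552)) (l 14578936)))) (a (c (l 14089632) (l 14043560)) (l 14250176)))), by decide +kernel⟩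

def k22_pm_012 : ∃ t, chk3 f_pm_012 t 115 112 1 = true :=
  ⟨(l 14758536), by decide +kernel⟩

def k23_pm_012 : ∃ t, chk3 f_pm_012 t 230 113 1 = true :=
  ⟨(b (a (c (b (a (a (b (l 14861360) (l 14847544)) (l 14848872)) (l 14830040)) (c (b (l 14827464) (l 14769008)) (a (b (l 14799920) (b (l 14728280) (l 14663536))) (c (b (l 14811272) (l 14767104)) (l 14749984))))) (c (b (l 14752320) (b (c (l 14757696) (l 14732416)) (a (l 14658104) (b (l 14744432) (l 14671456))))) (b (l 14732040) (l 14531000)))) (a (b (l 14782128) (b (l 14784880) (c (c (l 14817336) (l 14782232)) (c (l 14730640) (l 14704152))))) (l 14772512))) (b (c (a (a (c (b (l 14614376) (l 14527048)) (c (b (l 14595560) (l 14511760)) (b (b (l 14610432) (l 14569792)) (l 14476912)))) (c (b (l 14684296) (l 14560880)) (c (b (l 14650944) (l 14550088)) (c (b (l 14632728) (l 14544944)) (l 14347264))))) (c (b (l 14775440) (c (l 14691912) (l 14674040))) (b (a (b (l 14748008) (l 14690768)) (l 14765360)) (c (a (l 14606824) (l 14691800)) (c (l 14559168)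 (l 14605960)))))) (a (c (c (a (l 14562992) (l 14593216)) (l 14556744)) (l 14510152)) (c (b (c (a (a (l 14638872) (l 14733616)) (l 14724672)) (l 14695832)) (c (l 14607392) (l 14608064))) (l 14501576)))) (b (c (c (a (c (l 14467792) (a (l 14410096) (l 14475544))) (a (l 14530032) (l 14602568))) (a (c (a (l 14389800) (c (l 14454688) (l 14437096))) (l 14395560)) (c (a (l 14521856) (l 14575560)) (c (a (l 14511048) (l 14569480)) (l 14568688))))) (c (a (l 14364928) (l 14498536)) (l 14393936))) (c (c (a (c (l 14359712) (l 14329880)) (c (l 14482800) (a (l 14441104) (l 14504368)))) (a (l 14298312) (a (l 14396768) (c (l 14496224) (l 14522392))))) (l 14304576))))), by decide +kernel⟩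

def k24_pm_012 : ∃ t, chk3 f_pm_012 t 231 113 1 = true :=
  ⟨(b (l 14743792) (a (c (b (b (a (b (l 14799480) (l 14786184)) (l 14788704)) (c (l 14779712) (c (b (l 14768664) (l 14752776)) (l 14715040)))) (a (c (b (l 14685512) (l 14567024)) (c (b (l 14658568) (l 14550192)) (c (l 14457864) (l 14585664)))) (b (b (l 14756680) (l 14705280)) (c (l 14654024) (c (l 14618200) (l 14594256)))))) (c (b (c (l 14709648) (l 14683456)) (a (l 14489288) (b (b (l 14693232) (l 14637392)) (l 14591856)))) (b (l 14670160) (l 14599064)))) (b (l 14738112) (c (b (a (b (l 14767112) (l 14760224)) (l 14770088)) (c (l 14742024) (c (a (l 14699768) (l 14739784)) (l 14699800)))) (c (c (c (l 14628688) (l 14667648)) (l 14660728)) (l 14644240)))))), by decide +kernel⟩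

def k25_pm_012 : ∃ t, chk3 f_pm_012 t 57 114 1 = true :=
  ⟨(a (b (a (b (c (c (a (l 14007280) (l 13978712)) (l 13957984)) (c (l 13909104) (l 13859520))) (l 13903368)) (b (c (c (l 14041000) (l 13994096)) (l 13920472)) (c (c (a (l 13910904) (l 13900216)) (a (l 13861048) (l 13850392))) (c (l 13817600) (l 13766512))))) (a (l 13920400) (a (l 13832784) (b (c (b (l 13821520) (l 13817872)) (l 13725200)) (l 13779208))))) (b (c (b (a (a (l 14160048) (c (a (l 14280104) (b (c (l 14431896) (l 14404760)) (l 14305288))) (l 14276312))) (b (c (a (a (l 14466144) (l 14539056)) (a (l 14623840) (l 14690576))) (c (a (a (a (l 14434040) (l 14483144)) (l 14527832)) (a (l 14583752) (l 14664368))) (a (a (l 14432464) (l 14389376)) (l 14430200)))) (a (c (c (l 14440480) (a (l 14370728) (l 14458200))) (c (c (a (l 14355192) (l 14434224)) (l 14382040)) (l 14366624))) (a (c (l 14516352) (c (c (l 14507224) (l 14501720)) (l 14532720))) (c (l 14582152) (c (l 14556768) (l 14571008))))))) (a (a (l 13949864) (l 14088544)) (a (l 14245712)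 (c (c (b (l 14473880) (l 14392000)) (b (a (l 14430208) (l 14493104)) (l 14356744))) (a (l 14337480) (b (c (c (l 14484656) (l 14475032)) (l 14503232)) (l 14361600))))))) (a (a (l 13961768) (l 14103264)) (b (c (a (l 14429016) (c (l 14551896) (l 14543016))) (l 14435976)) (l 14235784)))) (a (a (b (c (c (a (l 13815136) (l 13811568)) (l 13769832)) (c (l 13717832) (l 13665072))) (l 13716896)) (c (b (c (l 13899648) (l 13849952)) (c (l 13811384) (l 13759632))) (b (l 13773336) (b (l 13677168) (l 13660248))))) (c (b (c (l 14145768) (l 14100080)) (a (c (l 13882848) (l 13832384)) (l 14006576))) (a (c (l 13826576) (l 13818496)) (l 14010544)))))), by decide +kernel⟩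

def k26_pm_012 : ∃ t, chk3 f_pm_012 t 57 115 1 = true :=
  ⟨(a (l 13903568) (a (l 13760096) (b (b (c (c (a (l 13834632) (b (l 13893088) (l 13863864))) (a (l 13782824) (l 13836456))) (a (l 13707888) (c (l 13784640) (l 13733056)))) (l 13771960)) (l 13797880)))), by decide +kernel⟩

def k27_pm_012 : ∃ t, chk3 f_pm_012 t 57 29 1 = true :=
  ⟨(a (b (l 14000648) (b (l 14127848) (l 14212744))) (c (b (a (a (l 13947840) (l 13944144)) (l 13972416)) (a (b (a (l 14128752) (l 14133960)) (l 14238296)) (c (l 14231064) (l 14185824)))) (b (l 13862344) (b (l 14049472) (l 14161104))))), by decide +kernel⟩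

def k28_pm_012 : ∃ t, chk3 f_pm_012 t 28 15 1 = true :=
  ⟨(b (c (b (a (b (l 14459000) (l 14515248)) (a (l 14389952) (c (b (l 14368488) (l 14439792)) (a (l 14356968) (l 14369352))))) (b (a (a (l 14597256) (l 14391600)) (a (l 14457992) (c (c (a (l 14479992) (l 14461080)) (l 14480248)) (a (l 14451976) (l 14453312))))) (l 4))) (a (b (l 14411824) (l 14515968)) (a (l 14379696) (b (l 14300128) (l 14425152))))) (l 4)), by decide +kernel⟩

def k29_pm_012 : ∃ t, chk3 f_pm_012 t 58 56 2 = true :=
  ⟨(a (a (a (b (l 14733240) (a (b (l 14750000) (b (l 14755816) (b (l 14758808) (b (l 14760320) (l 14748208))))) (l 14742536))) (l 14717744)) (l 14683672)) (l 14632880)), by decide +kernel⟩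

def k30_pm_012 : ∃ t, chk3 f_pm_012 t 58 228 2 = true :=
  ⟨(a (a (b (a (c (b (l 14744744) (a (l 14661912) (l 14725312))) (c (c (l 14546152) (l 14689416)) (a (b (l 14687472) (l 14581400)) (l 14678288)))) (a (b (l 14740320) (b (l 14729448) (l 14725096))) (l 14730072))) (b (a (c (a (l 14551800) (l 14633784)) (c (a (l 14534552) (l 14597992)) (c (l 14558504) (l 14558488)))) (c (b (l 14727680) (l 14704400)) (c (l 14547280) (l 14665760)))) (c (a (c (l 14505200) (a (l 14473456) (l 14523256))) (a (l 14606976) (l 14668520))) (c (a (a (a (l 14425720) (l 14472016)) (c (l 14516360) (l 14511824))) (a (l 14567504) (l 14642336))) (a (l 14317064) (l 14555760)))))) (a (b (l 14713096) (c (a (b (l 14732976) (l 14715584)) (b (l 14729168) (l 14724128))) (c (l 14614552) (l 14648080)))) (l 14701256))) (l 14679608)), by decide +kernel⟩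

def k31_pm_012 : ∃ t, chk3 f_pm_012 t 58 229 2 = true :=
  ⟨(b (a (a (b (a (c (c (l 14436576) (a (l 14369184) (l 14452120))) (c (c (a (l 14353520) (l 14428224)) (l 14378032)) (l 14362520))) (c (a (l 14508080) (l 14569808)) (c (a (c (l 14497400) (l 14491128)) (l 14543448)) (l 14318616)))) (a (l 14299944) (c (c (l 14470240) (a (l 14427640) (l 14486960))) (a (l 14385232) (c (c (l 14477928) (l 14468248)) (l 14491840)))))) (a (b (c (a (l 14644560) (l 14704080)) (a (c (l 14617240) (l 14560808)) (l 14551688))) (c (a (l 14545856) (l 14628640)) (c (a (c (l 14529488) (l 14523608)) (l 14594928)) (l 14542976)))) (a (c (b (l 14722888) (l 14695352)) (l 14614712)) (b (l 14713000) (c (l 14721752) (l 14656184)))))) (l 14697376)) (a (a (c (a (l 14182096) (a (l 14290976) (c (b (l 14427136) (l 14329264)) (l 14352984)))) (l 14212304)) (a (c (c (b (l 14510632) (a (l 14413096) (l 14480416))) (a (b (l 14476184) (l 14384632)) (b (l 14529896) (l 14469120)))) (c (c (b (a (l 14462328) (l 14521800)) (l 14375088)) (a (l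 14453984) (l 14390968))) (l 14364064))) (c (b (a (l 14615760) (l 14684744)) (a (l 14528280) (l 14595312))) (a (c (b (l 14577680) (c (l 14516336) (l 14509872))) (l 14542104)) (b (l 14664144) (c (l 14566752) (l 14565424))))))) (a (a (b (c (a (l 14719928) (l 14728120)) (l 14656848)) (c (a (l 14667256) (l 14716656)) (a (l 14531752) (l 14663704)))) (a (b (l 14712536) (c (l 14727944) (l 14660176))) (l 14711448))) (l 14701144)))), by decide +kernel⟩

def k32_pm_012 : ∃ t, chk3 f_pm_012 t 116 115 2 = true :=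
  ⟨(b (a (a (c (b (l 13991016) (l 13906912)) (b (l 13942384) (l 13856200))) (b (l 14130584) (c (l 13990656) (l 13941504)))) (a (b (l 14287152) (l 14081776)) (b (a (c (b (c (l 14476392) (l 14460016)) (l 14379960)) (l 14377968)) (c (c (b (l 14529064) (l 14471336)) (b (l 14519904) (l 14448088))) (b (c (c (l 14511128) (l 14502312)) (l 14521696)) (l 14410584)))) (l 14278472)))) (b (a (a (l 13874880) (c (l 13948432) (l 13898016))) (c (a (l 14018440) (l 14140280)) (a (l 13969472) (l 14093880)))) (a (l 13912760) (a (l 13967752) (c (l 14058688) (l 14010080)))))), by decide +kernel⟩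

def k33_pm_012 : ∃ t, chk3 f_pm_012 t 117 115 2 = true :=
  ⟨(b (a (c (a (a (b (b (l 14581544) (c (l 14525568) (l 14516864))) (c (b (l 14464352) (l 14380872)) (l 14399344))) (b (b (l 14657248) (l 14572872)) (c (b (l 14523952) (l 14454792)) (b (l 14513680) (l 14432224))))) (a (b (b (l 14712160) (l 14647696)) (c (b (l 14577376) (l 14523088)) (b (l 14563016) (l 14509592)))) (b (b (l 14728016) (l 14706616)) (b (l 14639240) (c (l 14572160) (l 14561176)))))) (b (a (c (a (b (l 14570456) (l 14476288)) (l 14569936)) (l 14546928)) (a (b (l 14667632) (l 14540304)) (l 14667896))) (a (c (a (l 14377632) (l 14496680)) (l 14391016)) (c (c (a (l 14556384) (l 14581856)) (l 14557920)) (l 14547416))))) (a (a (b (b (l 14716472) (c (l 14728048) (l 14667616))) (b (c (l 14700072) (l 14675752)) (c (l 14622976) (l 14590936)))) (b (l 14715464) (c (b (l 14727808) (l 14692672)) (c (l 14681392) (l 14651360))))) (b (l 14709328) (b (l 14718672) (c (a (l 14727032) (l 14734544)) (l 14672640)))))) (a (a (b (l 14275896) (c (l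 14152536) (l 14105760))) (b (c (a (l 14403848) (b (c (l 14522104) (l 14504056)) (l 14437192))) (l 14396544)) (l 14258544))) (c (a (a (b (c (b (l 14570320) (l 14520352)) (b (l 14560792) (l 14496728))) (l 14405040)) (b (b (l 14615312) (c (l 14570744) (l 14561096))) (c (b (l 14517384) (l 14447568)) (l 14461472)))) (b (a (b (l 14681448) (c (l 14623864) (l 14605712))) (b (l 14725400) (l 14676296))) (c (a (b (l 14572552) (l 14512968)) (b (l 14619272) (l 14575056))) (a (b (l 14561488) (l 14493296)) (b (l 14605128) (l 14561592)))))) (a (b (c (a (l 14547944) (l 14584744)) (l 14546536)) (l 14396616)) (b (a (l 14595848) (b (l 14679808) (l 14612472))) (c (l 14566416) (l 14544968))))))), by decide +kernel⟩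

def k34_pm_012 : ∃ t, chk3 f_pm_012 t 58 29 2 = true :=
  ⟨(b (a (c (l 14075040) (l 14026120)) (b (a (b (a (b (c (l 14105376) (l 14057176)) (l 14080568)) (c (b (l 14180984) (l 14153928)) (b (l 14134320) (l 14106088)))) (l 14127272)) (b (c (b (a (l 14311632) (l 14444200)) (a (l 14220536) (l 14322512))) (b (l 14337440) (a (l 14174256) (l 14278416)))) (a (l 14189368) (b (c (l 14268720) (l 14222896)) (l 14242696))))) (c (l 14250688) (l 14203168)))) (b (c (l 14278352) (a (l 14187216) (l 14285008))) (c (a (l 14336288) (c (l 14418680) (l 14410824))) (c (a (l 14300920) (l 14378288)) (l 14303072))))), by decide +kernel⟩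

def k35_pm_012 : ∃ t, chk3 f_pm_012 t 118 14 2 = true :=
  ⟨(b (b (l 14586976) (a (b (l 14666152) (b (l 14703272) (c (c (a (a (b (l 14625232) (b (l 14680480) (l 14618232))) (l 14714720)) (l 14710816)) (a (b (l 14696704) (b (l 14706240) (l 14580880))) (l 14698984))) (b (l 14672568) (a (a (l 14605592) (b (l 14688424) (l 14623752))) (c (l 14693416) (l 14666408))))))) (l 14674264))) (b (b (b (a (c (a (b (a (b (c (l 14577768) (l 14595520)) (l 14507248)) (c (b (l 14619816) (l 14580360)) (l 14612800))) (l 14456312)) (b (a (c (b (l 14675256) (l 14623304)) (l 14634600)) (b (l 14715936) (b (l 14677936) (l 14647008)))) (c (b (a (l 14582680) (l 14628128)) (l 14462440)) (l 14577952)))) (b (a (l 14536760) (a (l 14615256) (b (l 14597176) (l 14634944)))) (l 14491544))) (a (c (b (l 14721840) (c (a (l 14593832) (l 14667680)) (l 14650784))) (b (a (l 14660096) (l 14693832)) (l 14630528))) (c (l 14724520) (b (l 14689696) (l 14688800))))) (b (a (a (c (l 14351792) (l 14307712)) (c (l 14475728) (l 14434224))) (c (a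 (b (a (l 14579160) (l 14552208)) (l 14564200)) (c (l 14677176) (l 14668584))) (a (l 14569832) (l 14645408)))) (c (a (a (l 14325176) (l 14396792)) (a (l 14506312) (a (l 14584736) (l 14661480)))) (a (a (l 14279928) (l 14353128)) (c (l 14530248) (l 14506696)))))) (b (a (a (l 14312264) (b (c (l 14382936) (l 14338224)) (l 14366624))) (a (b (c (l 14449584) (l 14406520)) (l 14417464)) (c (b (l 14539264) (l 14507312)) (b (l 14498360) (l 14464896))))) (c (l 14431544) (l 14386464)))) (c (l 14489872) (c (a (l 14423088) (l 14499064)) (l 14417152))))), by decide +kernel⟩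

def k36_pm_012 : ∃ t, chk3 f_pm_012 t 119 14 2 = true :=
  ⟨(b (l 14599224) (b (b (c (a (b (l 14718144) (a (b (c (l 14750592) (l 14723840)) (l 14695672)) (a (b (l 14739216) (l 14727672)) (l 14748280)))) (l 14726904)) (a (b (l 14689008) (a (b (l 14700360) (l 14667056)) (b (l 14708856) (l 14717888)))) (l 14695368))) (b (b (a (c (a (l 14665328) (l 14723008)) (a (l 14600632) (l 14691368))) (a (c (b (l 14771072) (l 14745384)) (l 14736840)) (l 14757728))) (a (a (c (l 14583544) (l 14542928)) (c (l 14675432) (l 14637072))) (c (a (l 14752208) (a (l 14769512) (l 14790328))) (a (l 14718352) (l 14756936))))) (b (a (a (c (l 14567448) (l 14525704)) (c (l 14635528) (l 14595432))) (c (a (l 14716864) (l 14783640)) (a (l 14678952) (l 14748600)))) (a (a (l 14542640) (c (l 14628504) (l 14566432))) (c (a (l 14692920) (l 14763552)) (a (l 14653480) (l 14726384))))))) (a (c (l 14617016) (c (l 14584848) (l 14547736))) (c (b (b (b (a (l 14689552) (l 14753936)) (l 14717472)) (l 14717136)) (l 14718784)) (b (b (b (a (l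 14586136) (l 14715560)) (l 14677624)) (l 14675968)) (c (l 14689160) (l 14647024))))))), by decide +kernel⟩

def k37_pm_012 : ∃ t, chk3 f_pm_012 t 58 14 3 = true :=
  ⟨(b (b (a (c (l 14621840) (a (a (b (l 14644288) (b (l 14655960) (l 14640336))) (l 14628160)) (l 14592544))) (l 14558360)) (b (b (a (a (a (b (c (c (b (l 14674376) (a (l 14586888) (l 14652464))) (l 14637200)) (l 14616144)) (c (l 14420608) (l 14454272))) (c (b (l 14650904) (b (c (l 14592544) (l 14626928)) (l 14551112))) (b (l 14620344) (l 14584200)))) (a (c (c (l 14636960) (l 14611672)) (l 14594528)) (l 14629312))) (l 14606888)) (a (a (c (a (l 14186952) (l 14227384)) (l 14218640)) (a (b (c (a (l 14531792) (b (l 14619120) (l 14555224))) (l 14552464)) (l 14395992)) (c (b (a (l 14490408) (l 14634896)) (a (l 14521400) (b (l 14620328) (l 14548864)))) (b (l 14594224) (l 14530488))))) (a (b (l 14633896) (c (c (l 14553960) (l 14607640)) (l 14546480))) (l 14622952)))) (b (a (a (b (a (l 13866960) (l 14037088)) (a (c (l 13804192) (l 13752864))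 (l 13867088))) (a (l 14115032) (l 14270968))) (a (a (c (l 14441904) (l 14413080)) (b (c (c (l 14628656) (l 14616592)) (l 14592592)) (l 14496208))) (c (b (l 14635720) (a (c (l 14631808) (l 14617480)) (l 14633784))) (a (l 14486112) (l 14603248))))) (a (a (a (l 13782632) (b (l 13824232) (l 13828608))) (a (b (l 13706936) (l 13866936)) (b (l 14020840) (l 13937312)))) (a (a (b (l 14186664) (l 14034208)) (l 14261704)) (b (a (l 14488104) (c (l 14623736) (l 14586496))) (l 14402320))))))) (a (b (l 13950640) (l 14163208)) (b (b (b (a (a (b (l 13985648) (l 13982096)) (b (l 14063608) (l 14035920))) (a (b (l 14200336) (l 14104184)) (l 14267320))) (a (l 14029160) (a (l 14093352) (b (l 14153912) (l 14148160))))) (l 14129376)) (l 14245048)))), by decide +kernel⟩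

def k38_pm_012 : ∃ t, chk3 f_pm_012 t 59 14 3 = true :=
  ⟨(b (a (b (l 14510816) (a (b (l 14592968) (b (l 14631480) (a (c (b (l 14639352) (l 14624440)) (l 14533288)) (b (l 14647064) (l 14607360))))) (l 14601400))) (l 14523600)) (b (a (b (a (b (a (l 14407320) (c (l 14521784) (l 14529976))) (a (b (l 14240144) (l 14212160)) (b (l 14370256) (l 14286536)))) (a (b (b (l 14634936) (l 14581240)) (l 14444176)) (b (b (l 14639696) (l 14642184)) (c (l 14580928) (l 14534320))))) (b (a (a (l 14218544) (b (l 14271648) (l 14274424))) (a (b (l 14340776) (l 14327544)) (b (l 14434248) (l 14400264)))) (l 14316240))) (a (a (b (b (b (l 14649232) (l 14646728)) (b (l 14651632) (l 14609312))) (b (l 14505384) (l 14362408))) (b (b (l 14647904) (b (l 14656048) (l 14667464))) (b (a (l 14580104) (l 14627720)) (l 14533264)))) (a (b (b (l 14639496) (b (l 14662480) (l 14671616))) (b (b (l 14685168) (l 14657544)) (b (l 14620320) (l 14592648)))) (b (l 14647968) (b (b (l 14688616) (l 14704464)) (a (l 14660840) (l 14693712)))))))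 (a (l 14366584) (a (l 14499992) (b (b (b (a (l 14587200) (l 14655352)) (l 14613160)) (l 14608424)) (l 14601472)))))), by decide +kernel⟩

def k39_pm_012 : ∃ t, chk3 f_pm_012 t 29 60 1 = true :=
  ⟨(c (a (c (c (a (b (l 14432536) (l 14494824)) (b (l 14506816) (c (l 14588400) (l 14551720)))) (a (l 14431080) (b (l 14476992) (l 14504608)))) (c (a (l 14407584) (l 14459432)) (l 14404384))) (a (c (b (c (l 14584168) (b (l 14567880) (l 14590208))) (c (l 14622880) (c (l 14605808) (l 14575016)))) (c (b (c (l 14553392) (l 14515336)) (c (l 14546512) (l 14518616))) (b (l 14497616) (l 14502112)))) (b (c (a (l 14656440) (a (l 14710944) (b (l 14753560) (l 14808720)))) (c (a (c (l 14637496) (l 14590248)) (c (a (l 14695952) (l 14769416)) (b (l 14668984) (l 14516624)))) (a (l 14571984) (l 14668472)))) (c (a (c (l 14705616) (b (l 14686224) (l 14725464))) (a (l 14823352) (l 14931368))) (c (a (c (l 14666104) (l 14623744)) (c (l 14859200) (l 14801832))) (l 14702080)))))) (a (l 14353688) (a (b (l 14448912) (l 14453496))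 (b (a (l 14524872) (l 14581520)) (l 14657864))))), by decide +kernel⟩

def k40_pm_012 : ∃ t, chk3 f_pm_012 t 29 61 1 = true :=
  ⟨(b (c (a (c (c (a (c (b (l 14530040) (l 14533424)) (b (l 14495136) (l 14476208))) (c (b (l 14612960) (l 14574384)) (c (l 14577216) (l 14548080)))) (a (l 14486544) (a (l 14475744) (c (l 14528200) (l 14505296))))) (c (a (l 14468480) (l 14483136)) (l 14455208))) (c (a (c (a (c (l 14631520) (c (l 14644408) (l 14635672))) (b (l 14662128) (l 14712016))) (a (c (l 14581360) (l 14530352)) (c (b (l 14661112) (l 14721720)) (l 14635912)))) (c (b (l 14878824) (l 14947728)) (a (c (l 14866120) (l 14837360)) (a (l 15003584) (l 14976608))))) (a (c (a (l 14506040) (c (l 14595224) (l 14577016))) (l 14532224)) (c (c (a (l 14773752) (l 15010304)) (a (l 14740192) (l 14948160))) (l 14827280))))) (a (l 14405560) (a (l 14484232) (l 14785840)))) (c (b (a (a (l 4) (a (l 4) (a (l 4) (b (c (c (l 14631232) (l 14523256)) (l 14491144)) (l 4))))) (c (a (a (b (c (c (l 14663336) (l 14653040)) (c (l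 14592920) (l 14543256))) (l 4)) (c (l 14815304) (c (l 14806512) (l 14739888)))) (c (l 15036032) (a (c (l 14995536) (l 14968752)) (c (l 15155776) (a (l 15134608) (l 15231928)))))) (a (c (c (a (l 14555400) (l 14702208)) (a (l 14545928) (l 14692288))) (l 14609496)) (c (c (a (l 14899328) (l 15130536)) (a (l 14872200) (l 15065064))) (l 14955320))))) (b (a (l 4) (a (l 4) (a (l 4) (c (a (l 4) (a (l 15236624) (l 15210424))) (c (c (l 15076216) (l 15035912)) (l 15124712)))))) (l 4))) (a (l 193503474487) (a (l 180618707959) (l 14979880))))), by decide +kernel⟩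

def k41_pm_012 : ∃ t, chk3 f_pm_012 t 29 31 1 = true :=
  ⟨(l 4), by decide +kernel⟩

def k42_pm_012 : ∃ t, chk3 f_pm_012 t 15 6 1 = true :=
  ⟨(a (b (b (c (a (l 14297704) (l 13982456)) (l 14084072)) (c (a (l 14054536) (l 13898544)) (l 13987624))) (c (a (a (b (l 14219672) (l 14349088)) (b (l 14097048) (l 14242448))) (b (c (l 13906520) (l 13928392)) (c (l 14047152) (l 14077480)))) (b (a (l 14082384) (l 13878296)) (l 14128784)))) (b (c (a (c (a (l 13724424) (l 13610296)) (l 13688800)) (b (a (l 13562064) (l 13540816)) (a (l 13449576) (b (l 13489536) (l 13475592))))) (a (l 13677616) (a (c (l 13518896) (l 13515048)) (b (l 13461408) (c (l 13416176) (a (l 13395272) (l 13371520))))))) (a (c (b (c (a (l 13698624) (l 13579200)) (l 13670752)) (a (b (l 13821016) (a (l 13946904) (b (l 13863624) (l 13996048)))) (b (c (a (a (l 13715920) (l 13706464)) (l 13742864)) (a (l 13755560) (l 13764800))) (c (a (l 13974552) (l 14090264)) (l 14072016))))) (b (l 13669368) (a (b (l 13841880) (a (l 13967944) (l 13982336)))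 (b (c (l 13813928) (l 13797648)) (l 14111984))))) (c (b (a (b (a (l 13483064) (l 13453864)) (c (a (l 13569016) (l 13646400)) (a (l 13571568) (l 13623184)))) (b (a (b (l 13450848) (l 13547224)) (l 13649696)) (l 13891232))) (a (c (b (l 13916632) (l 14297832)) (a (l 14041552) (l 14169192))) (b (l 14256576) (l 14648640)))) (b (a (b (c (l 13471960) (l 13473672)) (c (a (l 13598432) (l 13632088)) (l 13637088))) (b (c (a (l 13449680) (l 13569232)) (a (l 13443872) (l 13534232))) (c (l 13834768) (l 13823520)))) (a (c (b (l 13938048) (l 14337760)) (l 14158344)) (c (a (l 14321096) (l 14496392)) (a (l 14336568) (l 14228896))))))))), by decide +kernel⟩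

def k43_pm_012 : ∃ t, chk3 f_pm_012 t 30 28 2 = true :=
  ⟨(a (a (l 14531208) (l 14425432)) (b (a (l 14258248) (c (b (l 14089216) (l 14190544)) (a (l 14199936) (l 14192784)))) (a (c (b (l 14327136) (l 14434592)) (a (l 14415968) (l 14418608))) (c (l 14458496) (l 14521744))))), by decide +kernel⟩

def k44_pm_012 : ∃ t, chk3 f_pm_012 t 30 58 2 = true :=
  ⟨(a (b (c (a (l 14679816) (l 14572088)) (l 14614072)) (a (c (c (a (c (a (b (l 14780648) (b (l 14809544) (l 14807912))) (c (l 14757816) (l 14764736))) (l 14775384)) (l 14728736)) (l 14742504)) (a (c (c (l 14753320) (l 14743376)) (l 14730512)) (c (l 14716288) (l 14685128)))) (a (l 14688040) (l 14576048)))) (a (c (l 14734696) (l 14630600)) (c (l 14924656) (l 14999440)))), by decide +kernel⟩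

def k45_pm_012 : ∃ t, chk3 f_pm_012 t 30 59 2 = true :=
  ⟨(a (c (a (a (b (a (a (a (l 14798232) (l 14795952)) (b (l 14781264) (l 14778184))) (c (c (b (b (l 14800744) (l 14782664)) (l 14795192)) (l 14819360)) (l 14812480))) (a (l 14774032) (l 14801136))) (b (c (b (c (l 14782632) (a (l 14728232) (b (l 14780328) (l 14799736)))) (a (c (l 14778184) (l 14790240)) (b (c (l 14794720) (l 14812024)) (l 14817728)))) (b (l 14793328) (a (l 14787256) (l 14839320)))) (c (a (l 14850152) (a (l 14905728) (l 14964976))) (l 14921912)))) (b (c (a (b (l 14799160) (l 14918648)) (l 14955464)) (a (c (b (l 14823928) (a (l 14877824) (l 14804416))) (l 14671912)) (l 14994696))) (c (a (b (a (l 14968480) (l 15058152)) (l 15105896)) (b (l 15156944) (l 15204872))) (a (c (a (l 15000008) (b (b (l 15054016) (l 15085864)) (l 15172376))) (b (l 15056320) (l 15135760))) (b (c (l 15190400) (a (l 15182304) (l 15235480))) (c (l 15300624) (a (l 15259152) (b (l 15329872) (l 15355104))))))))) (a (b (a (c (a (b (l 14761680) (l 14753272))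 (b (b (l 14775360) (l 14761808)) (l 14779920))) (b (l 14748096) (l 14750016))) (b (c (l 14757416) (l 14760504)) (a (c (l 14774488) (l 14747112)) (b (l 14784672) (l 14804680))))) (a (c (a (l 14749552) (l 14786864)) (l 14733504)) (b (c (l 14721120) (l 14713024)) (l 14897064)))) (b (c (a (a (l 14612064) (l 14894848)) (l 14989584)) (a (a (c (l 14704096) (l 14821152)) (l 14711328)) (b (l 14921304) (l 14982384)))) (a (c (b (l 15008240) (l 15134784)) (c (l 15040168) (l 15045040))) (c (b (l 15207336) (l 15322472)) (b (l 15089120) (l 15280768))))))) (a (b (l 15132456) (c (a (l 15098680) (l 15457352)) (c (a (c (a (l 15271200) (l 15284264)) (l 15405872)) (l 15526584)) (a (l 15398776) (l 15528184))))) (c (l 15472064) (l 15559680)))), by decide +kernel⟩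

def k46_pm_012 : ∃ t, chk3 f_pm_012 t 60 30 4 = true :=
  ⟨(a (b (b (a (a (l 14865488) (l 14947160)) (l 15071224)) (a (b (a (l 14995368) (l 15074408)) (l 15102848)) (c (b (l 15179672) (l 15256216)) (l 15248504)))) (b (c (a (c (l 15157464) (l 15185664)) (b (l 15313496) (l 15367016))) (l 15311880)) (c (a (b (l 15271032) (l 15379232)) (b (l 15436768) (l 15535408))) (b (l 15410992) (l 15499632))))) (b (b (a (l 15238000) (a (l 15363048) (a (l 15424848) (l 15439520)))) (a (c (l 15379576) (b (l 15377888) (l 15448824))) (c (l 15548112) (l 15576040)))) (b (b (a (l 15502248) (c (l 15661744) (l 15591528))) (c (l 15627816) (l 15679960))) (c (a (l 15659576) (l 15839752)) (a (b (l 15653104) (l 15727408)) (c (l 15849000) (l 15871192))))))), by decide +kernel⟩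

def k47_pm_012 : ∃ t, chk3 f_pm_012 t 60 30 5 = true :=
  ⟨(a (c (a (c (b (b (l 14907584) (a (l 15036904) (l 15137992))) (b (a (l 15184952) (l 15288400)) (b (a (l 15305792) (l 15411672)) (c (a (l 15411272) (l 15501160)) (l 15335128))))) (b (b (l 14864736) (b (l 14994688) (l 15061008))) (b (l 15003136) (c (l 15351384) (a (l 15256640) (l 15365584)))))) (b (b (l 15079944) (c (l 15267088) (b (l 15202320) (l 15284896)))) (c (b (l 15422344) (b (l 15546104) (l 15601128))) (b (l 15398136) (c (a (l 15533800) (l 15641720)) (l 15550248)))))) (b (a (b (l 14836344) (l 15001800)) (b (l 15032192) (b (l 15151408) (l 15229248)))) (a (l 168271847991) (c (b (l 15341712) (c (a (l 15446768) (l 15563232)) (l 15485496))) (l 15402208))))) (c (b (b (l 15326952) (a (b (l 15398128) (l 15474480)) (l 15603440))) (b (a (l 15593008) (l 15772120)) (a (c (l 15739472) (c (l 15771704) (l 15668136))) (l 15916456)))) (a (b (b (l 15236568) (c (b (l 15377096) (l 15451736)) (l 15307448))) (a (c (l 15377480) (l 15546448)) (c (l 15685056)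 (l 15397424)))) (b (b (a (l 15381584) (l 15496056)) (c (l 15609984) (l 15579016))) (b (c (b (l 15740064) (l 15818456)) (b (l 15703016) (l 15776344))) (c (c (l 15957416) (l 15946336)) (c (l 15912400) (l 15880248)))))))), by decide +kernel⟩

def k48_pm_012 : ∃ t, chk3 f_pm_012 t 122 30 2 = true :=
  ⟨(b (c (b (a (b (a (l 15486336) (l 15552128)) (l 15629864)) (b (l 15669008) (a (l 15742840) (l 15826136)))) (a (l 15737064) (l 15893728))) (c (b (a (a (l 15379384) (b (b (l 15564840) (l 15516832)) (l 15558536))) (b (c (l 15732568) (a (l 15726224) (l 15781040))) (a (c (l 15799776) (l 15816784)) (b (l 15871536) (l 15911416))))) (a (l 15783912) (a (l 15915600) (l 15934088)))) (b (a (a (l 15588848) (l 15487552)) (b (l 15755504) (l 15859352))) (a (l 15795224) (l 15998928))))) (c (b (a (b (l 15736816) (c (l 15893544) (l 15942720))) (b (l 16016232) (c (l 16062904) (l 16116656)))) (a (c (l 16020336) (l 15956880)) (b (c (l 16138896) (l 16175688)) (c (l 16147176) (l 16222464))))) (b (a (c (b (l 15891904) (l 15977432))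 (c (l 15964880) (b (l 15909392) (l 15978200)))) (c (b (l 16070992) (l 15918832)) (l 15905944))) (c (a (l 15958224) (b (l 16224560) (c (l 16228304) (l 16260880)))) (a (c (l 16133120) (a (l 16074216) (l 16183400))) (a (l 16177640) (l 16321648))))))), by decide +kernel⟩

def k49_pm_012 : ∃ t, chk3 f_pm_012 t 123 30 2 = true :=
  ⟨(a (b (b (c (l 15719464) (c (l 15902896) (a (l 15719536) (c (l 15860584) (l 15994480))))) (c (b (l 15863560) (l 16110480)) (c (b (l 16003296) (l 16178792)) (a (l 15966488) (c (b (l 16014584) (l 16258536)) (l 16138616)))))) (b (c (b (l 16181432) (c (a (l 16182536) (l 16176192)) (l 16179144))) (c (l 425770651671) (a (l 16269392) (l 16260800)))) (a (b (c (c (l 16108624) (l 16255880)) (c (l 16325896) (l 16341832))) (l 1)) (l 1)))) (b (b (c (l 15953488) (c (l 16034464) (l 15959168))) (b (c (l 16134608) (c (l 16238736) (c (l 16281432) (a (l 16234664) (l 16270848))))) (c (a (l 16222056) (b (l 16250480) (c (l 16234440) (l 16330656)))) (a (c (l 16296776) (c (l 16335328) (l 16291912)))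 (b (a (l 16262056) (l 16270880)) (c (l 16366808) (l 395169483399))))))) (b (b (c (a (l 16111352) (c (l 16233280) (l 16336688))) (a (l 16350344) (l 617434033575))) (l 1)) (l 1)))), by decide +kernel⟩

def k50_pm_012 : ∃ t, chk3 f_pm_012 t 30 31 2 = true :=
  ⟨(b (a (b (b (a (l 4) (a (a (l 4) (c (l 167736347383) (c (l 15937792) (c (l 15939520) (l 15854296))))) (c (c (l 16003640) (l 16002312)) (c (l 16050088) (a (b (c (l 16016432) (l 15945936)) (l 4)) (c (l 16017096) (l 16094376))))))) (l 4)) (l 4)) (b (a (a (b (c (a (l 16129696) (l 16201208)) (c (a (l 16163408) (c (l 16206144) (l 16243000))) (c (l 16254424) (a (l 16170384) (c (l 16313368) (l 16278464)))))) (l 4)) (b (c (l 16203656) (c (l 637834880615) (l 623876386823))) (l 1))) (l 1)) (l 1))) (l 4)), by decide +kernel⟩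

def k51_pm_012 : ∃ t, chk3 f_pm_012 t 30 14 3 = true :=
  ⟨(b (a (l 14413064) (b (a (l 14221200) (l 14176976)) (a (l 14376152) (l 14502144)))) (a (b (a (b (l 14598560) (c (l 14683632) (l 14650744))) (l 14604624)) (a (b (a (c (l 14709936) (l 14677656)) (b (l 14720408) (c (l 14734312) (l 14702304)))) (a (l 14689624) (a (l 14766280) (l 14885272)))) (b (a (c (l 14580000) (l 14675376)) (a (l 14905400) (l 14987232))) (a (c (l 15027536) (l 15000648)) (b (l 15120496) (l 15180648)))))) (a (b (l 14736080) (b (l 15153400) (c (a (l 15150952) (c (l 15350656) (l 15508200))) (l 15257952)))) (b (l 14994000) (l 15570520))))), by decide +kernel⟩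

def k52_pm_012 : ∃ t, chk3 f_pm_012 t 30 30 3 = true :=
  ⟨(a (a (b (b (l 14887288) (a (l 14963904) (l 15153616))) (b (l 15196608) (l 15361416))) (a (b (b (l 15186184) (l 15341224)) (b (l 15494448) (l 15651800))) (b (b (l 15218848) (l 15539880)) (b (c (l 15712072) (l 15694800)) (l 15727520))))) (a (b (c (a (b (b (l 15502360) (l 15661192)) (l 15758120)) (b (b (c (l 15641960) (l 15739096)) (c (a (l 15810152) (b (l 15886040) (l 15926640))) (l 15777288))) (c (c (l 15930928) (l 15977664)) (l 15972552)))) (b (a (l 15522048) (b (l 15728160) (l 15822296))) (a (l 15739464) (l 15964712)))) (c (c (b (b (a (l 15702312) (l 15920104)) (a (c (l 15939616) (l 15946976)) (c (a (l 16127832) (l 16230336)) (l 16105680)))) (a (c (c (l 16043264) (l 16067176)) (l 16063424)) (c (a (c (l 16257696) (l 16221880)) (b (l 16312344) (l 16352888))) (a (l 16206208) (b (l 16272272) (l 16306808)))))) (b (a (l 15903696) (l 16095200)) (l 419864825687))) (b (a (l 15893392) (l 16087456)) (l 441876476647)))) (a (b (b (c (c (l 15706920)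 (l 15952000)) (l 15901848)) (b (c (c (a (l 16090152) (l 16065608)) (l 16014328)) (a (l 16072200) (l 16117024))) (c (c (l 16032104) (l 16207992)) (l 16203104)))) (b (c (c (a (c (l 16285320) (l 16195864)) (c (l 16365888) (l 16228920))) (l 16154016)) (l 16148720)) (a (b (c (c (c (l 16343024) (l 16224824)) (l 16336152)) (l 16331560)) (l 1)) (l 1)))) (b (b (c (l 16098928) (l 16060448)) (b (c (c (l 16268048) (l 16201504)) (l 16260960)) (a (c (c (l 16360504) (l 16330584)) (l 16348112)) (c (c (b (l 16416520) (l 16445528)) (b (l 16371856) (l 16376544))) (b (l 16390920) (l 16415384)))))) (b (a (c (c (l 16331944) (l 16375608)) (l 16391776)) (c (c (l 16458448) (l 16364424)) (l 16443664))) (l 1)))))), by decide +kernel⟩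

def k53_pm_012 : ∃ t, chk3 f_pm_012 t 30 31 3 = true :=
  ⟨(b (a (a (l 4) (b (c (a (l 15888672) (l 233234937575)) (l 15822672)) (l 4))) (a (b (b (c (a (c (c (a (l 16108976) (c (l 16255000) (l 16226840))) (l 16179264)) (l 16175896)) (c (c (c (l 16283488) (l 16313416)) (l 16201304)) (l 16278496))) (a (l 16169080) (l 16273032))) (a (l 4) (l 1))) (l 1)) (l 1))) (l 4)), by decide +kernel⟩

def k54_pm_012 : ∃ t, chk3 f_pm_012 t 62 7 1 = true :=
  ⟨(b (a (b (c (b (c (l 14055480) (l 14287064)) (l 14560504)) (b (l 14300656) (l 14752208))) (c (b (c (l 15123848) (l 15210704)) (b (l 15579976) (a (l 15816960) (l 15770120)))) (b (l 15254328) (a (l 15772144) (l 15692560))))) (b (c (c (b (l 14437472) (a (l 14808200) (l 14929280))) (b (l 14485296) (l 14928824))) (c (l 14604424) (l 14776432))) (b (c (c (a (l 15243128) (l 15408000)) (l 15208200)) (c (l 15499880) (l 15518848))) (a (c (b (c (l 15694016) (l 15782408)) (c (c (a (l 15798600) (l 15922784)) (l 15843712)) (l 16024832))) (b (l 15878984) (c (l 16038144)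 (l 16140096)))) (b (c (c (b (l 15732616) (l 15663744)) (l 390873215895)) (c (l 15945104) (l 15980792))) (l 1)))))) (b (a (b (b (c (a (l 15981528) (c (a (l 15998304) (l 420401629975)) (l 16210608))) (a (l 16204632) (l 489121496871))) (a (b (c (l 16094528) (l 16409624)) (a (c (c (l 678636967335) (l 16361728)) (c (c (l 16342984) (l 16385224)) (l 16445944))) (l 1))) (l 1))) (l 1)) (l 1)) (l 1))), by decide +kernel⟩

def k55_pm_012 : ∃ t, chk3 f_pm_012 t 63 7 1 = true :=
  ⟨(b (a (b (c (c (b (l 14706480) (l 15143552)) (a (b (l 14652272) (l 15097752)) (l 15006656))) (c (b (l 14765624) (l 15222624)) (l 14908640))) (a (c (b (c (b (l 15406776) (a (l 15624952) (l 385504167063))) (b (l 15452936) (a (l 15678608) (l 15707032)))) (c (c (l 477309422647) (l 15857304)) (l 15907760))) (b (c (b (l 15528160) (l 15767792)) (l 407515859575)) (c (l 15994200) (l 16054848)))) (b (b (c (c (a (l 15507752) (l 405905150727)) (l 15552336)) (c (a (l 15599192) (l 15626032)) (l 15670696))) (a (a (c (l 15523168) (l 15762872))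 (l 1)) (l 1))) (l 1)))) (b (c (b (l 15068352) (a (b (l 15296704) (c (b (l 15466592) (l 15550584)) (l 15486528))) (c (b (b (l 15447192) (l 15529480)) (l 15599696)) (l 474087529527)))) (b (c (l 15046368) (a (l 14981392) (l 15128392))) (a (c (b (l 15292184) (l 348996583047)) (b (l 15329456) (l 382282663143))) (c (l 503615413063) (b (c (l 15437368) (l 15281288)) (l 15429800)))))) (b (a (a (a (b (c (l 486972824407) (l 554081640871)) (l 1)) (l 1)) (l 1)) (l 1)) (l 1)))) (l 1)), by decide +kernel⟩

theorem s56_pm_012 : ∃ t, chk3 f_pm_012 t 31 7 1 = true := ex3_a k54_pm_012 k55_pm_012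

theorem s57_pm_012 : ∃ t, chk3 f_pm_012 t 30 15 3 = true := ex3_b k52_pm_012 k53_pm_012

theorem s58_pm_012 : ∃ t, chk3 f_pm_012 t 30 7 3 = true := ex3_b k51_pm_012 s57_pm_012

theorem s59_pm_012 : ∃ t, chk3 f_pm_012 t 61 30 2 = true := ex3_a k48_pm_012 k49_pm_012

theorem s60_pm_012 : ∃ t, chk3 f_pm_012 t 60 30 2 = true := ex3_c k46_pm_012 k47_pm_012

theorem s61_pm_012 : ∃ t, chk3 f_pm_012 t 30 30 2 = true := ex3_a s60_pm_012 s59_pm_012

theorem s62_pm_012 : ∃ t, chk3 f_pm_012 t 30 15 2 = true := ex3_b s61_pm_012 k50_pm_012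

theorem s63_pm_012 : ∃ t, chk3 f_pm_012 t 30 29 2 = true := ex3_b k44_pm_012 k45_pm_012

theorem s64_pm_012 : ∃ t, chk3 f_pm_012 t 30 14 2 = true := ex3_b k43_pm_012 s63_pm_012

theorem s65_pm_012 : ∃ t, chk3 f_pm_012 t 30 7 2 = true := ex3_b s64_pm_012 s62_pm_012

theorem s66_pm_012 : ∃ t, chk3 f_pm_012 t 30 7 1 = true := ex3_c s65_pm_012 s58_pm_012

theorem s67_pm_012 : ∃ t, chk3 f_pm_012 t 15 7 1 = true := ex3_a s66_pm_012 s56_pm_012

theorem s68_pm_012 : ∃ t, chk3 f_pm_012 t 15 3 1 = true := ex3_b k42_pm_012 s67_pm_012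

theorem s69_pm_012 : ∃ t, chk3 f_pm_012 t 29 30 1 = true := ex3_b k39_pm_012 k40_pm_012

theorem s70_pm_012 : ∃ t, chk3 f_pm_012 t 29 15 1 = true := ex3_b s69_pm_012 k41_pm_012

theorem s71_pm_012 : ∃ t, chk3 f_pm_012 t 29 14 3 = true := ex3_a k37_pm_012 k38_pm_012

theorem s72_pm_012 : ∃ t, chk3 f_pm_012 t 59 14 2 = true := ex3_a k35_pm_012 k36_pm_012

theorem s73_pm_012 : ∃ t, chk3 f_pm_012 t 58 115 2 = true := ex3_a k32_pm_012 k33_pm_012

theorem s74_pm_012 : ∃ t, chk3 f_pm_012 t 58 114 2 = true := ex3_b k30_pm_012 k31_pm_012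

theorem s75_pm_012 : ∃ t, chk3 f_pm_012 t 58 57 2 = true := ex3_b s74_pm_012 s73_pm_012

theorem s76_pm_012 : ∃ t, chk3 f_pm_012 t 58 28 2 = true := ex3_b k29_pm_012 s75_pm_012

theorem s77_pm_012 : ∃ t, chk3 f_pm_012 t 58 14 2 = true := ex3_b s76_pm_012 k34_pm_012

theorem s78_pm_012 : ∃ t, chk3 f_pm_012 t 29 14 2 = true := ex3_a s77_pm_012 s72_pm_012

theorem s79_pm_012 : ∃ t, chk3 f_pm_012 t 29 14 1 = true := ex3_c s78_pm_012 s71_pm_012

theorem s80_pm_012 : ∃ t, chk3 f_pm_012 t 29 7 1 = true := ex3_b s79_pm_012 s70_pm_012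

theorem s81_pm_012 : ∃ t, chk3 f_pm_012 t 57 57 1 = true := ex3_b k25_pm_012 k26_pm_012

theorem s82_pm_012 : ∃ t, chk3 f_pm_012 t 115 113 1 = true := ex3_a k23_pm_012 k24_pm_012

theorem s83_pm_012 : ∃ t, chk3 f_pm_012 t 115 56 1 = true := ex3_b k22_pm_012 s82_pm_012

theorem s84_pm_012 : ∃ t, chk3 f_pm_012 t 114 56 1 = true := ex3_b k20_pm_012 k21_pm_012

theorem s85_pm_012 : ∃ t, chk3 f_pm_012 t 57 56 1 = true := ex3_a s84_pm_012 s83_pm_012

theorem s86_pm_012 : ∃ t, chk3 f_pm_012 t 57 28 1 = true := ex3_b s85_pm_012 s81_pm_012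

theorem s87_pm_012 : ∃ t, chk3 f_pm_012 t 57 14 1 = true := ex3_b s86_pm_012 k27_pm_012

theorem s88_pm_012 : ∃ t, chk3 f_pm_012 t 56 112 2 = true := ex3_a k14_pm_012 k15_pm_012

theorem s89_pm_012 : ∃ t, chk3 f_pm_012 t 56 112 1 = true := ex3_c s88_pm_012 k16_pm_012

theorem s90_pm_012 : ∃ t, chk3 f_pm_012 t 56 56 1 = true := ex3_b s89_pm_012 k17_pm_012

theorem s91_pm_012 : ∃ t, chk3 f_pm_012 t 56 28 1 = true := ex3_b s90_pm_012 k18_pm_012

theorem s92_pm_012 : ∃ t, chk3 f_pm_012 t 56 14 1 = true := ex3_b s91_pm_012 k19_pm_012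

theorem s93_pm_012 : ∃ t, chk3 f_pm_012 t 28 14 1 = true := ex3_a s92_pm_012 s87_pm_012

theorem s94_pm_012 : ∃ t, chk3 f_pm_012 t 28 7 1 = true := ex3_b s93_pm_012 k28_pm_012

theorem s95_pm_012 : ∃ t, chk3 f_pm_012 t 14 7 1 = true := ex3_a s94_pm_012 s80_pm_012

theorem s96_pm_012 : ∃ t, chk3 f_pm_012 t 14 6 1 = true := ex3_a k12_pm_012 k13_pm_012

theorem s97_pm_012 : ∃ t, chk3 f_pm_012 t 14 3 1 = true := ex3_b s96_pm_012 s95_pm_012

theorem s98_pm_012 : ∃ t, chk3 f_pm_012 t 7 3 1 = true := ex3_a s97_pm_012 s68_pm_012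

theorem s99_pm_012 : ∃ t, chk3 f_pm_012 t 7 1 1 = true := ex3_b k11_pm_012 s98_pm_012

theorem s100_pm_012 : ∃ t, chk3 f_pm_012 t 55 13 1 = true := ex3_a k8_pm_012 k9_pm_012

theorem s101_pm_012 : ∃ t, chk3 f_pm_012 t 54 27 1 = true := ex3_b k6_pm_012 k7_pm_012

theorem s102_pm_012 : ∃ t, chk3 f_pm_012 t 54 13 1 = true := ex3_b k5_pm_012 s101_pm_012

theorem s103_pm_012 : ∃ t, chk3 f_pm_012 t 27 13 1 = true := ex3_a s102_pm_012 s100_pm_012

theorem s104_pm_012 : ∃ t, chk3 f_pm_012 t 13 13 1 = true := ex3_a k4_pm_012 s103_pm_012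

theorem s105_pm_012 : ∃ t, chk3 f_pm_012 t 13 6 1 = true := ex3_b k3_pm_012 s104_pm_012

theorem s106_pm_012 : ∃ t, chk3 f_pm_012 t 13 3 1 = true := ex3_b s105_pm_012 k10_pm_012

theorem s107_pm_012 : ∃ t, chk3 f_pm_012 t 6 3 1 = true := ex3_a k2_pm_012 s106_pm_012

theorem s108_pm_012 : ∃ t, chk3 f_pm_012 t 6 1 1 = true := ex3_b k1_pm_012 s107_pm_012

theorem s109_pm_012 : ∃ t, chk3 f_pm_012 t 3 1 1 = true := ex3_a s108_pm_012 s99_pm_012

theorem s110_pm_012 : ∃ t, chk3 f_pm_012 t 1 1 1 = true := ex3_a k0_pm_012 s109_pm_012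

theorem c_pm_012 : CertNX 67108864 469762048 0 536870912 1046898278 26843546 3 false true false .pnp 0 1 2
    ndN2q0 ndN0q2 pcN1 Cut.none Ext.none :=
  certNX2 (fam := false) (s1 := true) (s2 := false) (a := 0) (b := 1) (c := 2) (cn := .pnp) (n1 := ndN2q0) (n2 := ndN0q2) (pc := pcN1) (cut := Cut.none) (xt := Ext.none) (P1 := 67108864) (W1 := 469762048) (P2 := 0) (W2 := 536870912) (P3 := 1046898278) (W3 := 26843546) (N0 := 3)
    rfl (fun _ => rfl) s110_pm_012

noncomputable def f_pm_022 : ℕ → ℕ → ℕ → ℕ → Bool := onCell 67108864 469762048 0 536870912 1046898278 26843546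
    (rowNX 3 0 false true false .pp 0 2 2 (qsf 67108864 469762048 0 536870912 2) ndN2q0 ndN0q2 pcN2 Cut.none Ext.none)

def k0_pm_022 : ∃ t, chk3 f_pm_022 t 8 4 1 = true :=
  ⟨(a (b (a (c (b (a (l 16258856) (b (l 16250248) (l 16207016))) (a (l 16374096) (l 15977616))) (b (a (l 16381952) (l 16182344)) (l 16040064))) (c (b (b (l 15815032) (l 15756104)) (c (l 15673968) (l 15672144))) (b (l 15702832) (l 15645096)))) (a (c (c (a (b (l 16297480) (l 16110240)) (b (l 16023096) (l 15929504))) (a (l 16175328) (l 15916560))) (a (l 16020312) (l 15815688))) (c (c (b (l 15528440) (a (l 15607528) (l 15266840))) (c (l 15232888) (l 15465528))) (l 15438888)))) (c (b (a (b (c (a (l 15322536) (l 15022856)) (a (l 15298040) (l 14993192))) (c (l 14962448) (a (l 15172576) (l 14862504)))) (b (b (l 14880120) (l 14815416)) (l 14711896))) (b (a (c (l 14911208) (a (l 15038896) (l 14725344))) (l 14568536)) (a (c (l 14767320) (a (l 14899272) (l 14569368))) (l 14417552)))) (b (a (b (a (l 15259736) (l 14945816)) (l 14968248))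 (b (l 14784784) (l 14641664))) (a (b (l 14825248) (l 14676064)) (c (b (l 14515136) (l 14348832)) (l 14393360)))))), by decide +kernel⟩

def k1_pm_022 : ∃ t, chk3 f_pm_022 t 8 5 1 = true :=
  ⟨(a (b (c (a (a (c (b (a (l 16193872) (l 16044440)) (l 15872592)) (l 15770712)) (c (b (l 15804184) (l 15650768)) (b (l 15766376) (l 15642272)))) (c (b (l 15290832) (l 15146264)) (b (l 15189216) (c (l 14956208) (l 15116704))))) (a (b (l 15827344) (l 15773944)) (l 15103960))) (c (a (a (c (b (l 15611400) (l 15707048)) (b (l 15839496) (c (l 15711864) (l 15692176)))) (c (l 15288072) (b (l 15500464) (c (l 15349104) (l 15344712))))) (c (l 14778128) (b (c (l 14972160) (a (l 15145104) (l 14773224))) (c (l 14802944) (l 14534808))))) (a (b (l 15627800) (l 15413376)) (c (b (l 14934944) (c (a (l 14963048) (l 14579304)) (l 14751032))) (l 14806088))))) (c (b (a (c (a (l 14691992) (l 14364976)) (b (a (l 14734112) (l 14415792)) (a (l 14580376) (l 14250224)))) (b (l 14259088) (l 14087808))) (a (b (a (l 14428176) (l 14090488))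 (a (l 14245392) (l 13898672))) (l 13811448))) (b (a (c (a (l 14629744) (b (l 14379520) (l 14211736))) (l 14414560)) (c (b (l 14019256) (c (l 14036016) (l 14007848))) (l 14066048))) (a (c (b (a (l 14377360) (c (l 14042600) (l 14022208))) (c (a (l 14202312) (l 13850296)) (a (l 14172984) (l 13823832)))) (a (l 14234592) (b (l 13977304) (l 13768840)))) (c (b (c (l 13852312) (l 13824976)) (l 13640280)) (b (l 13687896) (c (a (l 13652408) (l 13546920)) (l 13567096)))))))), by decide +kernel⟩

def k2_pm_022 : ∃ t, chk3 f_pm_022 t 9 2 1 = true :=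
  ⟨(a (b (c (b (b (l 14588128) (l 14440912)) (l 14211888)) (b (b (c (l 14530960) (l 14491216)) (c (l 14380280) (l 14336248))) (c (a (b (l 14321040) (l 14162480)) (l 14047104)) (a (l 14192824) (b (l 14080184) (l 13913464)))))) (c (b (l 13877528) (l 13508128)) (b (c (b (l 13894616) (l 13714944)) (b (a (l 13937552) (l 13590912)) (a (c (l 13777400) (l 13747304)) (l 13552416)))) (c (l 13425248) (c (b (l 13481544) (l 13280280)) (a (b (l 13556608) (l 13206984)) (l 13240608))))))) (a (b (c (b (l 14251344) (l 13940680)) (b (c (l 14184808) (l 14055408)) (b (l 13924120) (l 13755592)))) (b (c (l 13597704) (l 13275448)) (l 1))) (b (l 1) (l 1)))), by decide +kernel⟩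

def k3_pm_022 : ∃ t, chk3 f_pm_022 t 8 12 1 = true :=
  ⟨(a (c (a (b (c (l 15262720) (c (l 15260216) (a (l 15397984) (l 15169616)))) (c (l 15103976) (a (b (l 15408560) (l 15332304)) (l 14991176)))) (b (c (l 14630720) (l 14612352)) (c (l 14447256) (l 14413744)))) (a (b (c (c (a (l 15526752) (l 15163056)) (l 15320008)) (l 15301480)) (c (c (a (b (l 15408520) (c (l 15320496) (l 15322176))) (b (l 15017784) (l 14930376))) (a (l 15340440) (b (l 15014440) (c (l 14919600) (l 14917424))))) (l 15129792))) (c (b (c (b (l 14445768) (l 14542488)) (a (l 14767496) (l 14120592))) (c (l 14394928) (a (b (l 14611760) (l 14521528)) (l 14174984)))) (b (l 14547312) (c (a (l 14415704) (b (l 14192792) (l 13949480))) (l 14322848)))))) (c (a (b (a (l 14050112) (l 13702888)) (a (l 13852496) (l 13498312))) (l 13412192)) (c (a (b (a (c (l 14002384) (l 13980872)) (l 13630320)) (l 13600816)) (l 13325072)) (a (b (a (c (l 13952032) (l 13932104)) (c (a (l 13650960) (l 13527672)) (l 13558432))) (c (a (b (l 13796920) (l 13689992))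 (l 13372368)) (a (b (l 13763768) (l 13658512)) (b (a (l 13457144) (l 13331384)) (l 13157160))))) (b (c (l 13391208) (a (l 13330256) (l 13304632))) (b (l 13209592) (l 1))))))), by decide +kernel⟩

def k4_pm_022 : ∃ t, chk3 f_pm_022 t 8 13 1 = true :=
  ⟨(b (a (c (a (c (l 14952728) (a (l 15247000) (l 14862800))) (c (l 14323520) (l 14282152))) (c (a (c (a (l 15179112) (l 14849064)) (a (b (c (l 15233600) (l 15234280)) (c (l 15234520) (l 15225656))) (b (c (l 14850336) (l 14840360)) (l 14833416)))) (l 14059584)) (a (c (a (b (l 15214656) (l 15218944)) (b (l 14766816) (c (l 14821496) (l 14809008)))) (l 14876248)) (c (b (a (c (l 14431896) (l 14417888)) (l 14016944)) (a (l 14410032) (l 13998880))) (b (a (l 14409216) (c (l 13998704) (l 13983712))) (a (c (l 14394064) (l 14380928)) (c (l 13982096) (l 13968136)))))))) (a (c (a (l 13711736) (a (l 13409528) (l 1))) (c (l 13446344) (a (c (l 13592520) (b (c (l 13584056) (l 13568328)) (l 13554888))) (l 13197432)))) (l 1))) (a (c (a (a (l 15263960) (l 14880408))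 (l 14289696)) (c (a (a (l 14984848) (l 14835080)) (l 14226752)) (a (c (b (a (c (l 15031624) (l 15062736)) (c (l 14819400) (l 14810384))) (a (c (l 15227632) (l 14968576)) (l 14815072))) (a (b (l 15209080) (c (b (l 15207760) (l 15088952)) (l 15200928))) (b (c (b (l 14798528) (l 14800736)) (l 14787544)) (c (l 14803272) (b (l 14791816) (l 14794808)))))) (c (l 14196232) (b (a (c (l 14389336) (b (l 14378416) (l 14376744))) (l 13965056)) (l 14171632)))))) (l 1))), by decide +kernel⟩

def k5_pm_022 : ∃ t, chk3 f_pm_022 t 9 6 1 = true :=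
  ⟨(a (b (b (c (l 13205384) (l 13079576)) (l 1)) (l 1)) (l 1)), by decide +kernel⟩

def k6_pm_022 : ∃ t, chk3 f_pm_022 t 4 7 1 = true :=
  ⟨(b (a (a (a (b (c (a (l 15295024) (l 14898784)) (c (l 15060760) (b (c (l 15033376) (a (c (l 15224640) (b (a (l 15312728) (l 15109176)) (l 15136648))) (l 14806672))) (l 15041632)))) (l 1)) (l 1)) (l 1)) (l 1)) (l 1)), by decide +kernel⟩

def k7_pm_022 : ∃ t, chk3 f_pm_022 t 5 1 1 = true :=
  ⟨(b (l 1) (l 1)), by decide +kernel⟩

def k8_pm_022 : ∃ t, chk3 f_pm_022 t 3 1 1 = true :=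
  ⟨(l 1), by decide +kernel⟩

theorem s9_pm_022 : ∃ t, chk3 f_pm_022 t 8 6 1 = true := ex3_b k3_pm_022 k4_pm_022

theorem s10_pm_022 : ∃ t, chk3 f_pm_022 t 4 6 1 = true := ex3_a s9_pm_022 k5_pm_022

theorem s11_pm_022 : ∃ t, chk3 f_pm_022 t 4 3 1 = true := ex3_b s10_pm_022 k6_pm_022

theorem s12_pm_022 : ∃ t, chk3 f_pm_022 t 8 2 1 = true := ex3_b k0_pm_022 k1_pm_022

theorem s13_pm_022 : ∃ t, chk3 f_pm_022 t 4 2 1 = true := ex3_a s12_pm_022 k2_pm_022

theorem s14_pm_022 : ∃ t, chk3 f_pm_022 t 4 1 1 = true := ex3_b s13_pm_022 s11_pm_022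

theorem s15_pm_022 : ∃ t, chk3 f_pm_022 t 2 1 1 = true := ex3_a s14_pm_022 k7_pm_022

theorem s16_pm_022 : ∃ t, chk3 f_pm_022 t 1 1 1 = true := ex3_a s15_pm_022 k8_pm_022

theorem c_pm_022 : CertNX 67108864 469762048 0 536870912 1046898278 26843546 3 false true false .pp 0 2 2
    ndN2q0 ndN0q2 pcN2 Cut.none Ext.none :=
  certNX0 (fam := false) (s1 := true) (s2 := false) (a := 0) (b := 2) (c := 2) (cn := .pp) (n1 := ndN2q0) (n2 := ndN0q2) (pc := pcN2) (cut := Cut.none) (xt := Ext.none) (P1 := 67108864) (W1 := 469762048) (P2 := 0) (W2 := 536870912) (P3 := 1046898278) (W3 := 26843546) (N0 := 3)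
    rfl s16_pm_022

noncomputable def f_pm_101 : ℕ → ℕ → ℕ → ℕ → Bool := onCell 0 536870912 536870912 536870912 1046898278 26843546
    (rowNX 3 2 false true false .npn 1 0 1 (qsf 536870912 536870912 536870912 536870912 0) ndN2q1 ndN0q1 pcN0 Cut.none Ext.none)

def k0_pm_101 : ∃ t, chk3 f_pm_101 t 1 2 1 = true :=
  ⟨(l 4), by decide +kernel⟩

def k1_pm_101 : ∃ t, chk3 f_pm_101 t 1 6 1 = true :=
  ⟨(l 4), by decide +kernel⟩

def k2_pm_101 : ∃ t, chk3 f_pm_101 t 1 14 1 = true :=
  ⟨(a (b (l 4) (b (l 4) (a (a (a (a (c (a (l 14998032) (c (l 15113952) (l 15023344))) (a (c (a (l 14925176) (l 14979376)) (a (c (l 14903608) (l 14889224)) (l 14949672))) (c (l 15058104) (l 15029432)))) (c (a (l 15054704) (l 15303208)) (l 15202704))) (c (a (l 15456776) (l 4)) (l 15519680))) (l 4)) (l 4)))) (l 4)), by decide +kernel⟩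

def k3_pm_101 : ∃ t, chk3 f_pm_101 t 4 15 1 = true :=
  ⟨(a (a (a (b (c (a (b (l 14657160) (l 14283000)) (c (a (l 14396256) (l 14660176)) (a (l 14540800) (l 14595984)))) (a (c (a (l 14394872) (l 14183944)) (a (c (l 14363208) (a (l 14198712) (l 14269128))) (l 14410112))) (c (l 14534088) (l 14497360)))) (c (b (a (c (l 14126328) (l 14079200)) (c (b (l 14063032) (l 14199568)) (c (l 14211432) (l 14187152)))) (a (l 13889400) (c (l 13894200) (a (l 13997272) (l 14053872))))) (a (c (b (a (l 14004128) (l 14055424)) (a (b (l 13876416) (l 13807696)) (b (c (l 13952448) (l 13931144)) (l 13855616)))) (a (b (c (l 13966552) (l 13769080)) (c (b (l 13839888) (l 13766400)) (c (l 13573040) (l 13771336)))) (b (l 14019536) (c (l 13813544) (l 13827080))))) (c (b (l 14147568) (b (l 13974576) (l 13932968))) (b (l 14101096) (b (l 13968560) (l 13877504))))))) (b (c (c (a (b (l 14879344) (l 14558240)) (l 14836352)) (l 14638120)) (l 14627416)) (c (b (c (a (b (l 14401888) (l 14307536)) (l 14443040)) (c (l 14367152) (l 14340456)))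 (a (c (l 14172072) (l 14129952)) (l 14250336))) (b (l 14278896) (c (b (l 14165832) (l 14082016)) (l 14069064)))))) (b (b (c (a (l 15105304) (l 15300912)) (l 15154400)) (c (a (l 14747616) (l 14943080)) (l 14797416))) (c (b (c (a (l 14584680) (l 14648184)) (a (l 14545416) (l 14742136))) (a (l 14390352) (l 14537984))) (b (l 14585984) (c (b (l 14466288) (l 14379928)) (b (l 14430800) (l 14337128))))))) (a (b (c (b (l 15581328) (l 15238936)) (a (l 15283560) (l 15470784))) (c (b (c (l 15069344) (l 15045272)) (l 14880640)) (b (l 15000720) (c (l 14666496) (l 14798248))))) (b (b (l 15826000) (l 15352632)) (b (c (b (l 15471768) (l 15387760)) (l 15389752)) (c (l 15272264) (b (l 15263280) (l 15184384))))))), by decide +kernel⟩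

def k4_pm_101 : ∃ t, chk3 f_pm_101 t 5 15 1 = true :=
  ⟨(a (b (b (l 4) (a (l 15679368) (l 15632576))) (b (c (a (l 15609648) (l 15571472)) (l 15575768)) (c (l 15559920) (a (b (l 15558616) (l 15521640)) (l 15493584))))) (b (l 4) (b (c (a (l 15530288) (l 15525072)) (l 15491376)) (c (l 15464120) (a (l 15423152) (l 15395432)))))), by decide +kernel⟩

def k5_pm_101 : ∃ t, chk3 f_pm_101 t 3 15 1 = true :=
  ⟨(a (b (l 4) (c (b (c (l 15524008) (l 15525640)) (l 15447504)) (b (l 15487024) (c (l 15411424) (l 15381672))))) (l 4)), by decide +kernel⟩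

theorem s6_pm_101 : ∃ t, chk3 f_pm_101 t 2 15 1 = true := ex3_a k3_pm_101 k4_pm_101

theorem s7_pm_101 : ∃ t, chk3 f_pm_101 t 1 15 1 = true := ex3_a s6_pm_101 k5_pm_101

theorem s8_pm_101 : ∃ t, chk3 f_pm_101 t 1 7 1 = true := ex3_b k2_pm_101 s7_pm_101

theorem s9_pm_101 : ∃ t, chk3 f_pm_101 t 1 3 1 = true := ex3_b k1_pm_101 s8_pm_101

theorem s10_pm_101 : ∃ t, chk3 f_pm_101 t 1 1 1 = true := ex3_b k0_pm_101 s9_pm_101

theorem c_pm_101 : CertNX 536870912 536870912 536870912 536870912 1046898278 26843546 3 false true false .npn 1 0 1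
    ndN2q1 ndN0q1 pcN0 Cut.none Ext.none :=
  certNX2 (fam := false) (s1 := true) (s2 := false) (a := 1) (b := 0) (c := 1) (cn := .npn) (n1 := ndN2q1) (n2 := ndN0q1) (pc := pcN0) (cut := Cut.none) (xt := Ext.none) (P1 := 536870912) (W1 := 536870912) (P2 := 536870912) (W2 := 536870912) (P3 := 1046898278) (W3 := 26843546) (N0 := 3)
    rfl (fun _ => rfl) s10_pm_101

end Pool.Agent.Strip051.G.IE1.Tab.C.NB20

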