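import Pool.Agent.Strip051.G.IE1.Tab

/-! # Certificates N66 (generated) -/

set_option linter.all false
set_option maxRecDepth 100000

namespace Pool.Agent.Strip051.G.IE1.Tab.C.NB20

open Pool.Agent.Strip051.PB Pool.Agent.Strip051.PB.T
open Pool.Agent.Strip051.G.IE1.Tab

noncomputable def f_pm_102 : ℕ → ℕ → ℕ → ℕ → Bool := onCell 0 536870912 0 536870912 1046898278 26843546
    (rowNX 3 2 false true false .npp 1 0 2 (qsf 536870912 536870912 0 536870912 0) ndN2q1 ndN0q2 pcN0 Cut.none Ext.none)

def k0_pm_102 : ∃ t, chk3 f_pm_102 t 8 1 1 = true :=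
  ⟨(b (l 2) (b (l 2) (a (b (l 2) (a (b (l 2) (b (a (l 2) (c (c (l 14018800) (a (l 13943072) (l 13999000))) (c (l 13730672) (l 13861808)))) (c (a (l 13877464) (c (l 13990968) (l 233096475239))) (c (a (a (l 13775144) (c (l 13836592) (l 13810688))) (c (l 13917112) (l 13887328))) (a (a (c (l 528375045607) (a (l 13688136) (l 13713656))) (c (l 13782192) (l 13750720))) (l 13840176)))))) (c (b (b (a (l 2) (l 14232816)) (c (a (c (l 14178776) (l 14149272)) (l 14254176)) (l 14141600))) (c (a (l 14116504) (l 14213944)) (b (c (l 14134360) (l 14100624)) (l 14096728)))) (b (l 471467400903) (b (l 332954641287) (c (l 14044248) (l 13989544))))))) (b (b (a (l 2) (a (l 2) (b (l 2) (l 14854704)))) (c (a (l 445161708855) (c (l 14724136) (l 14682944))) (a (l 14464872) (l 14627744)))) (c (b (a (c (b (l 14403904) (l 14374640)) (l 14241808)) (c (b (l 14559416) (l 14538232)) (l 14518224))) (c (a (l 14343504) (l 14518600)) (b (a (l 14292312) (l 14475032)) (l 14377312)))) (b (a (l 14245416) (l 14427752)) (b (l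 14069608) (c (l 14336096) (l 14290448))))))))), by decide +kernel⟩

def k1_pm_102 : ∃ t, chk3 f_pm_102 t 9 1 1 = true :=
  ⟨(b (a (l 2) (b (l 2) (b (l 2) (a (l 2) (l 516030160279))))) (b (a (b (l 2) (a (a (l 2) (a (l 398455457287) (l 429057179991))) (b (l 15358904) (l 15287208)))) (b (a (c (l 360874563895) (l 15137496)) (c (l 15456744) (l 15412440))) (a (b (a (l 15434288) (l 15492288)) (l 15436104)) (b (l 15584456) (l 15571360))))) (a (b (b (a (c (l 14902104) (l 14988784)) (l 15193416)) (c (l 14967400) (l 14903608))) (b (c (b (l 14794280) (c (l 14820896) (l 14778568))) (l 14725488)) (c (c (l 14810576) (b (l 14773232) (l 14773664))) (b (l 14723088) (c (l 14743088) (l 14705816)))))) (b (b (l 15438376) (l 15294040)) (b (c (b (l 15168544) (l 15178824)) (l 15117584)) (c (b (l 15175632) (l 15181832)) (b (l 15126392) (l 15071448)))))))), by decide +kernel⟩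

def k2_pm_102 : ∃ t, chk3 f_pm_102 t 5 1 1 = true :=
  ⟨(b (a (b (a (a (l 2) (b (a (l 2) (b (b (b (l 14546024) (l 14553248)) (l 14614536)) (l 439793619367))) (b (a (l 2) (c (c (l 14971960) (l 14943128)) (l 14892088))) (c (a (l 15021784) (l 15063240)) (l 14988480))))) (b (b (b (a (b (l 14709768) (l 14721784)) (l 14939688)) (l 14747960)) (c (l 14992712) (l 14930360))) (b (b (c (l 15086552) (l 15027816)) (c (a (l 15088072) (l 15218496)) (l 15091576))) (c (c (a (l 15170184) (l 15295512)) (l 15204528)) (l 15163888))))) (a (b (b (c (a (l 15093168) (l 15173024)) (a (l 15036664) (l 15118544))) (l 15203640)) (c (l 15376480) (l 15329192))) (b (c (a (b (l 15272440) (l 15371368)) (l 15423952)) (b (l 15275832) (l 15375360))) (c (l 15572024) (l 15530696))))) (a (b (b (b (b (c (l 15294960) (l 15242864)) (l 15285720)) (l 15195056)) (c (b (l 15406984) (a (l 15403440) (l 15533928))) (a (l 15299392) (l 15464120)))) (b (c (a (l 15532336) (l 15633176)) (l 15543160)) (l 15748160))) (b (b (b (l 15684056)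 (l 15698152)) (c (l 15766016) (l 15730520))) (b (c (l 15876240) (l 15844624)) (l 16027888))))) (b (a (b (a (c (l 15621800) (l 15582688)) (l 15652184)) (a (b (l 15766880) (l 15769144)) (l 15970848))) (a (b (l 15981792) (l 16145616)) (b (l 16238656) (l 16327648)))) (b (a (b (l 15673448) (a (l 15612424) (l 15879440))) (a (b (l 16126728) (l 16028744)) (l 16202560))) (a (c (b (a (l 15527784) (l 15777944)) (a (l 15288064) (l 15635496))) (b (l 15521640) (b (l 15419152) (a (l 15369208) (l 15550488))))) (b (a (l 15817928) (l 15729720)) (b (c (l 15438296) (l 15574400)) (c (l 15487328) (a (l 15473504) (l 15412824))))))))), by decide +kernel⟩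

def k3_pm_102 : ∃ t, chk3 f_pm_102 t 3 1 1 = true :=
  ⟨(b (a (b (a (b (a (l 16073536) (l 16400600)) (a (l 16127496) (l 16430096))) (b (l 16643136) (l 16661240))) (a (b (a (l 16231232) (l 16484392)) (a (l 16358672) (l 16552544))) (b (a (l 16634168) (l 16752032)) (c (l 16729264) (l 16727576))))) (b (b (l 16777216) (l 16777216)) (c (l 16777216) (l 16777216)))) (b (a (b (a (l 16564216) (l 16760032)) (a (l 16529960) (l 16615728))) (b (l 16777216) (l 16594208))) (b (a (b (l 16322216) (a (l 16022168) (l 16006360))) (b (l 16299392) (l 16006360))) (a (a (b (l 15668440) (c (l 15501008) (l 15447880))) (b (l 15519904) (c (l 15501008) (l 15280104)))) (a (b (l 15519904) (c (l 15501008) (l 15322048))) (b (l 15498936) (c (l 15501008) (l 15363992)))))))), by decide +kernel⟩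

theorem s4_pm_102 : ∃ t, chk3 f_pm_102 t 4 1 1 = true := ex3_a k0_pm_102 k1_pm_102

theorem s5_pm_102 : ∃ t, chk3 f_pm_102 t 2 1 1 = true := ex3_a s4_pm_102 k2_pm_102

theorem s6_pm_102 : ∃ t, chk3 f_pm_102 t 1 1 1 = true := ex3_a s5_pm_102 k3_pm_102

theorem c_pm_102 : CertNX 536870912 536870912 0 536870912 1046898278 26843546 3 false true false .npp 1 0 2
    ndN2q1 ndN0q2 pcN0 Cut.none Ext.none :=
  certNX2 (fam := false) (s1 := true) (s2 := false) (a := 1) (b := 0) (c := 2) (cn := .npp) (n1 := ndN2q1) (n2 := ndN0q2) (pc := pcN0) (cut := Cut.none) (xt := Ext.none) (P1 := 536870912) (W1 := 536870912) (P2 := 0) (W2 := 536870912) (P3 := 1046898278) (W3 := 26843546) (N0 := 3)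
    rfl (fun _ => rfl) s6_pm_102

noncomputable def f_pm_112 : ℕ → ℕ → ℕ → ℕ → Bool := onCell 536870912 536870912 0 536870912 1046898278 26843546
    (rowNX 3 2 false true false .dn 1 1 2 (qsf 536870912 536870912 0 536870912 1) ndN2q1 ndN0q2 pcN1 Cut.none Ext.none)

def k0_pm_112 : ∃ t, chk3 f_pm_112 t 1 1 1 = true :=
  ⟨(a (b (b (a (b (l 16777216) (l 16777216)) (b (l 16777216) (l 16777216))) (a (c (l 16777216) (l 16777216)) (c (l 16777216) (l 16777216)))) (b (a (b (c (l 16777216) (l 16777216)) (b (l 16709592) (l 16516872))) (l 1)) (a (a (b (l 16050832) (b (c (l 15703248) (l 15647568)) (c (l 15501008) (l 15217192)))) (b (l 15966944) (l 1))) (l 1)))) (l 1)), by decide +kernel⟩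

theorem c_pm_112 : CertNX 536870912 536870912 0 536870912 1046898278 26843546 3 false true false .dn 1 1 2
    ndN2q1 ndN0q2 pcN1 Cut.none Ext.none :=
  certNX2 (fam := false) (s1 := true) (s2 := false) (a := 1) (b := 1) (c := 2) (cn := .dn) (n1 := ndN2q1) (n2 := ndN0q2) (pc := pcN1) (cut := Cut.none) (xt := Ext.none) (P1 := 536870912) (W1 := 536870912) (P2 := 0) (W2 := 536870912) (P3 := 1046898278) (W3 := 26843546) (N0 := 3)
    rfl (fun _ => rfl) k0_pm_112

noncomputable def f_pm_202_a : ℕ → ℕ → ℕ → ℕ → Bool := onCell 0 420477299 0 536870912 1046898278 26843546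
    (rowNX 3 0 false true false .pp 2 0 2 (qsf 0 420477299 0 536870912 0) ndN2q2a ndN0q2 pcN0 Cut.none Ext.none)

def k0_pm_202_a : ∃ t, chk3 f_pm_202_a t 1 1 1 = true :=
  ⟨(l 3), by decide +kernel⟩

theorem c_pm_202_a : CertNX 0 420477299 0 536870912 1046898278 26843546 3 false true false .pp 2 0 2
    ndN2q2a ndN0q2 pcN0 Cut.none Ext.none :=
  certNX0 (fam := false) (s1 := true) (s2 := false) (a := 2) (b := 0) (c := 2) (cn := .pp) (n1 := ndN2q2a) (n2 := ndN0q2) (pc := pcN0) (cut := Cut.none) (xt := Ext.none) (P1 := 0) (W1 := 420477299) (P2 := 0) (W2 := 536870912) (P3 := 1046898278) (W3 := 26843546) (N0 := 3)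
    rfl k0_pm_202_a

noncomputable def f_pm_202_b : ℕ → ℕ → ℕ → ℕ → Bool := onCell 1239849684 370763052 0 536870912 1046898278 26843546
    (rowNX 3 0 false true false .pp 2 0 2 (qsf 1239849684 370763052 0 536870912 0) ndN2q2b ndN0q2 pcN0 Cut.none Ext.none)

def k0_pm_202_b : ∃ t, chk3 f_pm_202_b t 1 1 1 = true :=
  ⟨(l 3), by decide +kernel⟩

theorem c_pm_202_b : CertNX 1239849684 370763052 0 536870912 1046898278 26843546 3 false true false .pp 2 0 2
    ndN2q2b ndN0q2 pcN0 Cut.none Ext.none :=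
  certNX0 (fam := false) (s1 := true) (s2 := false) (a := 2) (b := 0) (c := 2) (cn := .pp) (n1 := ndN2q2b) (n2 := ndN0q2) (pc := pcN0) (cut := Cut.none) (xt := Ext.none) (P1 := 1239849684) (W1 := 370763052) (P2 := 0) (W2 := 536870912) (P3 := 1046898278) (W3 := 26843546) (N0 := 3)
    rfl k0_pm_202_b

noncomputable def f_mm_001 : ℕ → ℕ → ℕ → ℕ → Bool := onCell 67108864 469762048 536870912 536870912 1046898278 26843546
    (rowNX 3 0 false false false .up 0 0 1 (qsf 67108864 469762048 536870912 536870912 0) ndN2q0 ndN0q1 pcN0 Cut.none Ext.none)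

def k0_mm_001 : ∃ t, chk3 f_mm_001 t 1 1 1 = true :=
  ⟨(l 5), by decide +kernel⟩

theorem c_mm_001 : CertNX 67108864 469762048 536870912 536870912 1046898278 26843546 3 false false false .up 0 0 1
    ndN2q0 ndN0q1 pcN0 Cut.none Ext.none :=
  certNX0 (fam := false) (s1 := false) (s2 := false) (a := 0) (b := 0) (c := 1) (cn := .up) (n1 := ndN2q0) (n2 := ndN0q1) (pc := pcN0) (cut := Cut.none) (xt := Ext.none) (P1 := 67108864) (W1 := 469762048) (P2 := 536870912) (W2 := 536870912) (P3 := 1046898278) (W3 := 26843546) (N0 := 3)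
    rfl k0_mm_001

noncomputable def f_mm_011 : ℕ → ℕ → ℕ → ℕ → Bool := onCell 67108864 469762048 536870912 536870912 1046898278 26843546
    (rowNX 3 0 false false false .pnn 0 1 1 (qsf 67108864 469762048 536870912 536870912 1) ndN2q0 ndN0q1 pcN1 Cut.none Ext.none)

def k0_mm_011 : ∃ t, chk3 f_mm_011 t 1 1 1 = true :=
  ⟨(l 5), by decide +kernel⟩

theorem c_mm_011 : CertNX 67108864 469762048 536870912 536870912 1046898278 26843546 3 false false false .pnn 0 1 1
    ndN2q0 ndN0q1 pcN1 Cut.none Ext.none :=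
  certNX0 (fam := false) (s1 := false) (s2 := false) (a := 0) (b := 1) (c := 1) (cn := .pnn) (n1 := ndN2q0) (n2 := ndN0q1) (pc := pcN1) (cut := Cut.none) (xt := Ext.none) (P1 := 67108864) (W1 := 469762048) (P2 := 536870912) (W2 := 536870912) (P3 := 1046898278) (W3 := 26843546) (N0 := 3)
    rfl k0_mm_011

noncomputable def f_mm_012 : ℕ → ℕ → ℕ → ℕ → Bool := onCell 67108864 469762048 0 536870912 1046898278 26843546
    (rowNX 3 0 false false false .pnp 0 1 2 (qsf 67108864 469762048 0 536870912 1) ndN2q0 ndN0q2 pcN1 Cut.none Ext.none)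

def k0_mm_012 : ∃ t, chk3 f_mm_012 t 1 1 1 = true :=
  ⟨(l 5), by decide +kernel⟩

theorem c_mm_012 : CertNX 67108864 469762048 0 536870912 1046898278 26843546 3 false false false .pnp 0 1 2
    ndN2q0 ndN0q2 pcN1 Cut.none Ext.none :=
  certNX0 (fam := false) (s1 := false) (s2 := false) (a := 0) (b := 1) (c := 2) (cn := .pnp) (n1 := ndN2q0) (n2 := ndN0q2) (pc := pcN1) (cut := Cut.none) (xt := Ext.none) (P1 := 67108864) (W1 := 469762048) (P2 := 0) (W2 := 536870912) (P3 := 1046898278) (W3 := 26843546) (N0 := 3)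
    rfl k0_mm_012

noncomputable def f_mm_022 : ℕ → ℕ → ℕ → ℕ → Bool := onCell 67108864 469762048 0 536870912 1046898278 26843546
    (rowNX 3 0 false false false .pp 0 2 2 (qsf 67108864 469762048 0 536870912 2) ndN2q0 ndN0q2 pcN2 Cut.none Ext.none)

def k0_mm_022 : ∃ t, chk3 f_mm_022 t 1 1 1 = true :=
  ⟨(l 5), by decide +kernel⟩

theorem c_mm_022 : CertNX 67108864 469762048 0 536870912 1046898278 26843546 3 false false false .pp 0 2 2
    ndN2q0 ndN0q2 pcN2 Cut.none Ext.none :=
  certNX0 (fam := false) (s1 := false) (s2 := false) (a := 0) (b := 2) (c := 2) (cn := .pp) (n1 := ndN2q0) (n2 := ndN0q2) (pc := pcN2) (cut := Cut.none) (xt := Ext.none) (P1 := 67108864) (W1 := 469762048) (P2 := 0) (W2 := 536870912) (P3 := 1046898278) (W3 := 26843546) (N0 := 3)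
    rfl k0_mm_022

noncomputable def f_mm_101 : ℕ → ℕ → ℕ → ℕ → Bool := onCell 536870912 536870912 536870912 536870912 1046898278 26843546
    (rowNX 3 0 false false false .npn 1 0 1 (qsf 536870912 536870912 536870912 536870912 0) ndN2q1 ndN0q1 pcN0 Cut.none Ext.none)

def k0_mm_101 : ∃ t, chk3 f_mm_101 t 1 1 1 = true :=
  ⟨(l 3), by decide +kernel⟩

theorem c_mm_101 : CertNX 536870912 536870912 536870912 536870912 1046898278 26843546 3 false false false .npn 1 0 1
    ndN2q1 ndN0q1 pcN0 Cut.none Ext.none :=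
  certNX0 (fam := false) (s1 := false) (s2 := false) (a := 1) (b := 0) (c := 1) (cn := .npn) (n1 := ndN2q1) (n2 := ndN0q1) (pc := pcN0) (cut := Cut.none) (xt := Ext.none) (P1 := 536870912) (W1 := 536870912) (P2 := 536870912) (W2 := 536870912) (P3 := 1046898278) (W3 := 26843546) (N0 := 3)
    rfl k0_mm_101

noncomputable def f_mm_102 : ℕ → ℕ → ℕ → ℕ → Bool := onCell 536870912 536870912 0 536870912 1046898278 26843546
    (rowNX 3 0 false false false .npp 1 0 2 (qsf 536870912 536870912 0 536870912 0) ndN2q1 ndN0q2 pcN0 Cut.none Ext.none)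

def k0_mm_102 : ∃ t, chk3 f_mm_102 t 1 1 1 = true :=
  ⟨(l 5), by decide +kernel⟩

theorem c_mm_102 : CertNX 536870912 536870912 0 536870912 1046898278 26843546 3 false false false .npp 1 0 2
    ndN2q1 ndN0q2 pcN0 Cut.none Ext.none :=
  certNX0 (fam := false) (s1 := false) (s2 := false) (a := 1) (b := 0) (c := 2) (cn := .npp) (n1 := ndN2q1) (n2 := ndN0q2) (pc := pcN0) (cut := Cut.none) (xt := Ext.none) (P1 := 536870912) (W1 := 536870912) (P2 := 0) (W2 := 536870912) (P3 := 1046898278) (W3 := 26843546) (N0 := 3)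
    rfl k0_mm_102

noncomputable def f_mm_112 : ℕ → ℕ → ℕ → ℕ → Bool := onCell 536870912 536870912 0 536870912 1046898278 26843546
    (rowNX 3 0 false false false .dn 1 1 2 (qsf 536870912 536870912 0 536870912 1) ndN2q1 ndN0q2 pcN1 Cut.none Ext.none)

def k0_mm_112 : ∃ t, chk3 f_mm_112 t 1 1 1 = true :=
  ⟨(l 5), by decide +kernel⟩

theorem c_mm_112 : CertNX 536870912 536870912 0 536870912 1046898278 26843546 3 false false false .dn 1 1 2
    ndN2q1 ndN0q2 pcN1 Cut.none Ext.none :=
  certNX0 (fam := false) (s1 := false) (s2 := false) (a := 1) (b := 1) (c := 2) (cn := .dn) (n1 := ndN2q1) (n2 := ndN0q2) (pc := pcN1) (cut := Cut.none) (xt := Ext.none) (P1 := 536870912) (W1 := 536870912) (P2 := 0) (W2 := 536870912) (P3 := 1046898278) (W3 := 26843546) (N0 := 3)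
    rfl k0_mm_112

noncomputable def f_mm_202_a : ℕ → ℕ → ℕ → ℕ → Bool := onCell 0 420477299 0 536870912 1046898278 26843546
    (rowNX 3 0 false false false .pp 2 0 2 (qsf 0 420477299 0 536870912 0) ndN2q2a ndN0q2 pcN0 Cut.none Ext.none)

def k0_mm_202_a : ∃ t, chk3 f_mm_202_a t 1 1 1 = true :=
  ⟨(l 3), by decide +kernel⟩

theorem c_mm_202_a : CertNX 0 420477299 0 536870912 1046898278 26843546 3 false false false .pp 2 0 2
    ndN2q2a ndN0q2 pcN0 Cut.none Ext.none :=
  certNX0 (fam := false) (s1 := false) (s2 := false) (a := 2) (b := 0) (c := 2) (cn := .pp) (n1 := ndN2q2a) (n2 := ndN0q2) (pc := pcN0) (cut := Cut.none) (xt := Ext.none) (P1 := 0) (W1 := 420477299) (P2 := 0) (W2 := 536870912) (P3 := 1046898278) (W3 := 26843546) (N0 := 3)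
    rfl k0_mm_202_a

noncomputable def f_mm_202_b : ℕ → ℕ → ℕ → ℕ → Bool := onCell 1239849684 370763052 0 536870912 1046898278 26843546
    (rowNX 3 0 false false false .pp 2 0 2 (qsf 1239849684 370763052 0 536870912 0) ndN2q2b ndN0q2 pcN0 Cut.none Ext.none)

def k0_mm_202_b : ∃ t, chk3 f_mm_202_b t 1 1 1 = true :=
  ⟨(l 3), by decide +kernel⟩

theorem c_mm_202_b : CertNX 1239849684 370763052 0 536870912 1046898278 26843546 3 false false false .pp 2 0 2
    ndN2q2b ndN0q2 pcN0 Cut.none Ext.none :=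
  certNX0 (fam := false) (s1 := false) (s2 := false) (a := 2) (b := 0) (c := 2) (cn := .pp) (n1 := ndN2q2b) (n2 := ndN0q2) (pc := pcN0) (cut := Cut.none) (xt := Ext.none) (P1 := 1239849684) (W1 := 370763052) (P2 := 0) (W2 := 536870912) (P3 := 1046898278) (W3 := 26843546) (N0 := 3)
    rfl k0_mm_202_b

end Pool.Agent.Strip051.G.IE1.Tab.C.NB20

namespace Pool.Agent.Strip051.G.IE1.Tab.C.NB21

open Pool.Agent.Strip051.PB Pool.Agent.Strip051.PB.T
open Pool.Agent.Strip051.G.IE1.Tab

noncomputable def f_pp_001 : ℕ → ℕ → ℕ → ℕ → Bool := onCell 67108864 469762048 536870912 536870912 1046898278 26843546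
    (rowNX 3 0 false true true .up 0 0 1 (qsf 67108864 469762048 536870912 536870912 0) ndN2q0 ndN1q1 pcN0 Cut.none Ext.none)

def k0_pp_001 : ∃ t, chk3 f_pp_001 t 1 1 1 = true :=
  ⟨(l 3), by decide +kernel⟩

theorem c_pp_001 : CertNX 67108864 469762048 536870912 536870912 1046898278 26843546 3 false true true .up 0 0 1
    ndN2q0 ndN1q1 pcN0 Cut.none Ext.none :=
  certNX0 (fam := false) (s1 := true) (s2 := true) (a := 0) (b := 0) (c := 1) (cn := .up) (n1 := ndN2q0) (n2 := ndN1q1) (pc := pcN0) (cut := Cut.none) (xt := Ext.none) (P1 := 67108864) (W1 := 469762048) (P2 := 536870912) (W2 := 536870912) (P3 := 1046898278) (W3 := 26843546) (N0 := 3)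
    rfl k0_pp_001

noncomputable def f_pp_011 : ℕ → ℕ → ℕ → ℕ → Bool := onCell 67108864 469762048 536870912 536870912 1046898278 26843546
    (rowNX 3 0 false true true .pnn 0 1 1 (qsf 67108864 469762048 536870912 536870912 1) ndN2q0 ndN1q1 pcN1 Cut.none Ext.none)

def k0_pp_011 : ∃ t, chk3 f_pp_011 t 1 1 1 = true :=
  ⟨(l 3), by decide +kernel⟩

theorem c_pp_011 : CertNX 67108864 469762048 536870912 536870912 1046898278 26843546 3 false true true .pnn 0 1 1
    ndN2q0 ndN1q1 pcN1 Cut.none Ext.none :=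
  certNX0 (fam := false) (s1 := true) (s2 := true) (a := 0) (b := 1) (c := 1) (cn := .pnn) (n1 := ndN2q0) (n2 := ndN1q1) (pc := pcN1) (cut := Cut.none) (xt := Ext.none) (P1 := 67108864) (W1 := 469762048) (P2 := 536870912) (W2 := 536870912) (P3 := 1046898278) (W3 := 26843546) (N0 := 3)
    rfl k0_pp_011

noncomputable def f_pp_012_a : ℕ → ℕ → ℕ → ℕ → Bool := onCell 536870912 536870912 0 420477299 1046898278 26843546
    (rowNX 3 2 false true true .pnp 0 1 2 (qsf 67108864 469762048 0 420477299 1) ndN2q0 ndN1q2a pcN1 Cut.none Ext.none)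

def k0_pp_012_a : ∃ t, chk3 f_pp_012_a t 2 1 1 = true :=
  ⟨(b (a (l 2) (a (b (l 16777120) (c (l 16776064) (l 16776024))) (l 16776576))) (a (b (a (l 2) (a (l 2) (a (l 16772600) (l 16772600)))) (a (l 3) (b (a (b (l 2) (l 3)) (c (l 256254978951) (l 272361104759))) (l 3)))) (b (a (c (a (l 16772680) (l 16772680)) (a (l 16772528) (l 16772528))) (c (l 16772680) (l 16772528))) (b (a (c (b (l 16766240) (l 16628968)) (b (l 16765848) (l 16645456))) (c (l 16687760) (l 16706320))) (a (c (b (l 246053904231) (l 3)) (l 236389772471)) (c (b (l 16494840) (l 16306984)) (l 151564147399))))))), by decide +kernel⟩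

def k1_pp_012_a : ∃ t, chk3 f_pp_012_a t 6 1 1 = true :=
  ⟨(b (a (a (l 16776616) (l 16729672)) (a (l 16634536) (a (l 16557728) (l 16450928)))) (b (b (a (a (l 16773864) (l 16746568)) (a (l 16679440) (l 16555592))) (a (a (l 16771304) (l 16754616)) (a (l 16678928) (a (l 16654296) (b (l 16553448) (l 16572768)))))) (a (b (a (c (l 16708744) (l 16706336)) (b (l 16752176) (l 16660944))) (a (c (l 16378776) (l 16365480)) (c (l 16406304) (l 16393904)))) (b (a (b (l 16708600) (l 16646232)) (a (l 16597416) (b (l 16502512) (a (l 16566584) (l 16484960))))) (a (c (l 16256592) (l 16289424)) (a (b (l 16472504) (c (l 16322088) (l 16334528))) (b (a (l 16387600) (l 16384584)) (l 16087600)))))))), by decide +kernel⟩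

def k2_pp_012_a : ∃ t, chk3 f_pp_012_a t 7 2 1 = true :=
  ⟨(a (a (l 16171552) (a (b (l 15888304) (l 15755320)) (b (l 15703168) (a (l 15827384) (l 15730152))))) (b (a (l 15355296) (a (l 15079784) (l 14866504))) (a (c (l 15502736) (l 15457840)) (a (b (l 15154264) (l 15201720)) (b (l 14959016) (l 15047040)))))), by decide +kernel⟩

def k3_pp_012_a : ∃ t, chk3 f_pp_012_a t 14 3 1 = true :=
  ⟨(b (a (b (l 16259368) (b (l 16201304) (a (l 16410328) (l 16235000)))) (b (l 15775320) (a (l 16043776) (l 15854288)))) (b (a (b (a (a (l 16462672) (l 16372560)) (l 16231872)) (l 16038920)) (b (a (l 16042672) (l 15855360)) (a (l 15959168) (l 15766928)))) (a (b (c (l 16150592) (l 16128568)) (c (l 15973416) (l 15968584))) (a (b (l 15840768) (c (l 15723816) (l 15686760))) (b (c (l 15685192) (l 15646312)) (c (l 15592064) (l 15550040))))))), by decide +kernel⟩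

def k4_pp_012_a : ∃ t, chk3 f_pp_012_a t 15 6 1 = true :=
  ⟨(a (b (l 15536968) (a (l 15665848) (l 15503728))) (b (a (l 15274600) (l 15174184)) (a (l 15400696) (l 15334168)))), by decide +kernel⟩

def k5_pp_012_a : ∃ t, chk3 f_pp_012_a t 30 7 1 = true :=
  ⟨(a (b (b (c (l 15699608) (l 15661568)) (c (l 15636696) (l 15596224))) (b (l 15545656) (c (l 15482152) (l 15436072)))) (b (a (b (l 15590704) (l 15549944)) (c (b (l 15579336) (l 15540192)) (l 15516624))) (a (b (l 15470400) (l 15366192)) (c (b (l 15456304) (b (c (l 15390568) (l 15365880)) (a (l 15334712) (c (a (l 15377800) (l 15429792)) (l 15386224))))) (b (l 15409416) (b (l 15328392) (a (l 15283392) (l 15349296)))))))), by decide +kernel⟩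

def k6_pp_012_a : ∃ t, chk3 f_pp_012_a t 62 7 1 = true :=
  ⟨(b (b (l 15510328) (c (a (c (c (a (l 15538816) (l 15526160)) (a (l 15526392) (l 15514520))) (l 15503088)) (c (c (l 15505192) (l 15494312)) (c (a (l 15490160) (l 15477240)) (a (l 15478200) (l 15465736))))) (l 15455632))) (c (a (b (c (a (c (l 15378344) (l 15445208)) (c (b (l 15473776) (l 15444672)) (a (l 15439264) (b (l 15457912) (l 15431704))))) (l 15429000)) (c (a (b (c (a (l 15402400) (b (l 15410048) (l 15455416))) (l 15409248)) (c (a (l 15512288) (l 15598448)) (l 15535776))) (c (b (l 15508952) (l 15718272)) (a (b (l 15472680) (l 15659240)) (l 15480616)))) (b (a (l 15390800) (l 15490872)) (l 15599760)))) (c (c (b (b (l 15489800) (l 15577656)) (l 15806480)) (b (a (b (l 15451184) (l 15415416)) (b (l 15489200) (l 15631616))) (a (l 15684048) (l 15920496)))) (b (a (b (c (l 15438016) (l 15423528)) (c (a (l 15449472) (l 15508840)) (l 15470328))) (c (b (l 15479744) (l 15624392)) (b (a (l 15439784) (l 15480224)) (l 15613016))))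 (a (c (a (l 15712320) (l 15629600)) (l 15740496)) (c (l 15854416) (a (l 15636272) (l 15782088))))))) (b (a (l 15393272) (b (a (l 15393784) (l 15436864)) (a (l 15441600) (l 15584552)))) (a (b (a (l 15354040) (l 15456752)) (l 15568560)) (c (l 15788384) (l 15792672)))))), by decide +kernel⟩

def k7_pp_012_a : ∃ t, chk3 f_pp_012_a t 63 7 1 = true :=
  ⟨(b (a (b (l 15464744) (c (a (c (l 15499168) (b (l 15473944) (l 15368528))) (b (l 15484648) (l 15574704))) (c (a (c (b (l 15457056) (a (l 15437360) (l 15462208))) (l 15448872)) (c (b (l 15456664) (l 15549152)) (a (b (l 15435504) (l 15499856)) (b (l 15445536) (l 15573208))))) (b (l 15430856) (l 15486720))))) (b (c (b (l 15453952) (l 15512512)) (b (l 15408008) (l 15468712))) (b (c (l 15625688) (a (c (l 15521120) (a (l 15463648) (l 15524832))) (l 15655616))) (c (l 15804720) (c (l 15738264) (a (c (a (l 15644712) (l 15726856)) (l 15676312)) (c (l 15850744) (a (l 15801368) (l 15801208))))))))) (c (a (b (c (l 15735824) (a (a (l 15496160) (l 15722144))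 (l 15841472))) (a (c (l 16078504) (c (l 16072824) (l 15880432))) (l 16025296))) (b (l 15984456) (a (l 16229072) (l 16310480)))) (a (c (a (b (c (a (l 15586992) (l 15710120)) (l 15658168)) (c (a (l 15854832) (l 15875224)) (l 16054384))) (c (b (l 15830848) (l 16080192)) (b (a (l 15782200) (l 15843712)) (a (l 16035000) (c (l 16267288) (l 16180288)))))) (b (l 15727008) (l 16025040))) (c (b (a (l 15906544) (l 16155520)) (a (a (l 16180792) (l 16347264)) (l 16393360))) (a (b (c (a (l 15939720) (c (l 16024560) (l 16021600))) (l 15974400)) (c (a (l 16176848) (b (l 16177336) (c (l 16532448) (l 16489928)))) (l 16299000))) (b (c (l 16148392) (a (l 15974816) (c (l 16187000) (l 16058808)))) (c (l 16308032) (a (b (l 16321552) (l 16467544)) (c (l 16474704) (a (l 16448880) (l 16411096))))))))))), by decide +kernel⟩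

theorem s8_pp_012_a : ∃ t, chk3 f_pp_012_a t 31 7 1 = true := ex3_a k6_pp_012_a k7_pp_012_a

theorem s9_pp_012_a : ∃ t, chk3 f_pp_012_a t 15 7 1 = true := ex3_a k5_pp_012_a s8_pp_012_a

theorem s10_pp_012_a : ∃ t, chk3 f_pp_012_a t 15 3 1 = true := ex3_b k4_pp_012_a s9_pp_012_a

theorem s11_pp_012_a : ∃ t, chk3 f_pp_012_a t 7 3 1 = true := ex3_a k3_pp_012_a s10_pp_012_a

theorem s12_pp_012_a : ∃ t, chk3 f_pp_012_a t 7 1 1 = true := ex3_b k2_pp_012_a s11_pp_012_a

theorem s13_pp_012_a : ∃ t, chk3 f_pp_012_a t 3 1 1 = true := ex3_a k1_pp_012_a s12_pp_012_a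

theorem s14_pp_012_a : ∃ t, chk3 f_pp_012_a t 1 1 1 = true := ex3_a k0_pp_012_a s13_pp_012_a

theorem c_pp_012_a : CertNX 67108864 469762048 0 420477299 1046898278 26843546 3 false true true .pnp 0 1 2
    ndN2q0 ndN1q2a pcN1 Cut.none Ext.none :=
  certNX2 (fam := false) (s1 := true) (s2 := true) (a := 0) (b := 1) (c := 2) (cn := .pnp) (n1 := ndN2q0) (n2 := ndN1q2a) (pc := pcN1) (cut := Cut.none) (xt := Ext.none) (P1 := 67108864) (W1 := 469762048) (P2 := 0) (W2 := 420477299) (P3 := 1046898278) (W3 := 26843546) (N0 := 3)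
    rfl (fun _ => rfl) s14_pp_012_a

noncomputable def f_pp_012_b : ℕ → ℕ → ℕ → ℕ → Bool := onCell 536870912 536870912 1239849684 370763052 1046898278 26843546
    (rowNX 3 2 false true true .pnp 0 1 2 (qsf 67108864 469762048 1239849684 370763052 1) ndN2q0 ndN1q2b pcN1 Cut.none Ext.none)

def k0_pp_012_b : ∃ t, chk3 f_pp_012_b t 1 1 1 = true :=
  ⟨(a (a (l 2) (b (l 16777216) (l 2))) (a (a (b (a (l 16777128) (l 16715248)) (l 2)) (b (a (l 16592536) (a (l 16493648) (l 16375352))) (l 16501288))) (b (a (b (a (l 16113736) (l 15742288)) (l 15906984)) (b (b (a (b (a (l 15463184) (l 15254944)) (a (l 15459504) (l 15262848))) (a (b (l 15037752) (l 15054624)) (l 14827296))) (a (l 15348136) (b (a (l 15056360) (l 14848168)) (l 14944904)))) (a (l 15322456) (l 14917104)))) (a (l 15864704) (b (l 14831024) (a (l 15269176) (l 14830224))))))), by decide +kernel⟩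

theorem c_pp_012_b : CertNX 67108864 469762048 1239849684 370763052 1046898278 26843546 3 false true true .pnp 0 1 2
    ndN2q0 ndN1q2b pcN1 Cut.none Ext.none :=
  certNX2 (fam := false) (s1 := true) (s2 := true) (a := 0) (b := 1) (c := 2) (cn := .pnp) (n1 := ndN2q0) (n2 := ndN1q2b) (pc := pcN1) (cut := Cut.none) (xt := Ext.none) (P1 := 67108864) (W1 := 469762048) (P2 := 1239849684) (W2 := 370763052) (P3 := 1046898278) (W3 := 26843546) (N0 := 3)
    rfl (fun _ => rfl) k0_pp_012_b

noncomputable def f_pp_022_a : ℕ → ℕ → ℕ → ℕ → Bool := onCell 67108864 469762048 0 420477299 1046898278 26843546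
    (rowNX 3 0 false true true .pp 0 2 2 (qsf 67108864 469762048 0 420477299 2) ndN2q0 ndN1q2a pcN2 Cut.none Ext.none)

def k0_pp_022_a : ∃ t, chk3 f_pp_022_a t 2 2 1 = true :=
  ⟨(a (a (a (b (a (b (a (l 16316192) (l 16152456)) (a (l 16248696) (l 16108040))) (c (l 15692656) (l 15811176))) (a (b (c (a (l 16368080) (l 16300528)) (l 16204480)) (a (c (l 16331328) (l 16365600)) (l 16203320))) (c (b (l 15914192) (l 15975248)) (b (l 15887720) (l 15972512))))) (b (a (c (a (l 15436912) (a (l 15217736) (l 15137888))) (a (l 15391656) (l 15122592))) (b (l 15031360) (l 15090760))) (a (c (a (l 15403112) (a (l 15341288) (l 15270480))) (b (l 15316952) (l 15245064))) (b (l 15169040) (l 15282224))))) (b (a (b (l 14883592) (l 14977000)) (a (b (l 14736768) (l 14865176)) (l 1))) (a (b (l 15088976) (c (l 15262368) (l 15209232))) (b (c (l 15055600) (l 14994720)) (l 1))))) (l 1)), by decide +kernel⟩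

def k1_pp_022_a : ∃ t, chk3 f_pp_022_a t 2 3 1 = true :=
  ⟨(a (b (a (a (a (b (a (c (l 16243248) (l 16274032)) (l 16275816)) (a (c (l 16160472) (l 16164432)) (c (l 16337840) (l 16352136)))) (b (c (l 15966568) (l 16010480)) (a (b (l 16259864) (l 16349368)) (b (l 16042192) (l 16111056))))) (a (b (c (a (l 15740664) (l 15504296)) (a (l 15705992) (l 15460352))) (c (a (l 15956776) (a (l 15753912) (l 15692152))) (a (l 15929632) (l 15686920)))) (b (l 15448072) (l 15686488)))) (a (b (c (l 15458560) (l 15412320)) (b (l 15630528) (l 1))) (l 1))) (a (a (b (a (b (c (l 15965128) (l 16008376)) (c (l 16062184) (l 16104456))) (c (b (a (l 16550208) (l 16359192)) (l 16407472)) (b (l 16293896) (l 16425336)))) (b (a (c (l 16066936) (l 16108656)) (c (l 16446896) (l 16466184))) (a (b (a (b (l 15905976) (c (c (l 16074784) (l 15895104)) (c (a (l 15940784) (l 16117136)) (a (l 15948520) (a (l 16071200) (l 16140592)))))) (l 16242040)) (a (c (c (l 16009424) (l 16082048)) (c (b (l 15988240) (l 16109856)) (a (c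 (l 15911856) (b (l 15991840) (l 16030240))) (b (l 16019200) (l 1))))) (l 1))) (l 1)))) (b (b (a (c (a (l 16158976) (a (l 15956088) (l 15896520))) (a (l 16138800) (l 15897256))) (l 165924735767)) (a (a (c (l 16224600) (l 16206304)) (l 1)) (l 1))) (l 1))) (l 1))) (l 1)), by decide +kernel⟩

def k2_pp_022_a : ∃ t, chk3 f_pp_022_a t 3 1 1 = true :=
  ⟨(l 1), by decide +kernel⟩

theorem s3_pp_022_a : ∃ t, chk3 f_pp_022_a t 2 1 1 = true := ex3_b k0_pp_022_a k1_pp_022_a

theorem s4_pp_022_a : ∃ t, chk3 f_pp_022_a t 1 1 1 = true := ex3_a s3_pp_022_a k2_pp_022_a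

theorem c_pp_022_a : CertNX 67108864 469762048 0 420477299 1046898278 26843546 3 false true true .pp 0 2 2
    ndN2q0 ndN1q2a pcN2 Cut.none Ext.none :=
  certNX0 (fam := false) (s1 := true) (s2 := true) (a := 0) (b := 2) (c := 2) (cn := .pp) (n1 := ndN2q0) (n2 := ndN1q2a) (pc := pcN2) (cut := Cut.none) (xt := Ext.none) (P1 := 67108864) (W1 := 469762048) (P2 := 0) (W2 := 420477299) (P3 := 1046898278) (W3 := 26843546) (N0 := 3)
    rfl s4_pp_022_a

noncomputable def f_pp_022_b : ℕ → ℕ → ℕ → ℕ → Bool := onCell 67108864 469762048 1073741824 536870912 1046898278 26843546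
    (rowNX 3 1 false true true .pp 0 2 2 (qsf 67108864 469762048 1239849684 370763052 2) ndN2q0 ndN1q2b pcN2 Cut.none Ext.none)

def k0_pp_022_b : ∃ t, chk3 f_pp_022_b t 1 4 1 = true :=
  ⟨(a (a (a (b (b (l 1) (a (l 1) (a (c (a (l 15407680) (l 15133504)) (l 376376443319)) (l 15007448)))) (a (a (b (b (l 1) (c (l 16083432) (l 16161264))) (a (c (l 16144312) (l 16174912)) (l 15700512))) (b (c (b (l 15846848) (l 15772640)) (l 320006118071)) (c (l 15528568) (l 15489048)))) (a (b (c (b (l 15283960) (l 15236504)) (b (l 15232832) (l 15183744))) (c (l 15027896) (l 14967840))) (b (l 15024352) (l 14809600))))) (b (a (b (l 360270277607) (l 14879304)) (b (l 409661789303) (l 14773544))) (b (a (l 14919808) (l 14839496)) (a (l 14718696) (l 14651592))))) (b (a (a (l 14655536) (b (l 14698952) (l 14808024))) (l 14726808)) (a (b (l 14717696) (l 14701440)) (b (l 14907672) (l 14722608))))) (b (a (a (l 14693048) (b (l 14557696) (l 14722096))) (b (l 14483952) (l 14627136))) (a (b (a (l 14885712) (l 14825752))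 (l 14669440)) (b (l 14744064) (l 14591200))))), by decide +kernel⟩

def k1_pp_022_b : ∃ t, chk3 f_pp_022_b t 1 5 1 = true :=
  ⟨(a (b (a (a (b (b (a (a (c (l 15751944) (l 15769504)) (l 15049592)) (a (c (l 14838544) (l 14771856)) (l 14631400))) (a (a (a (l 15913216) (l 15820152)) (l 15464032)) (a (l 14907320) (l 14847000)))) (a (a (a (b (l 16064528) (l 15738376)) (l 16028968)) (b (l 15784160) (l 16290696))) (a (c (l 15556632) (l 15605208)) (l 15553472)))) (b (b (l 14519008) (l 14740776)) (l 15369720))) (b (b (a (l 14540224) (l 14563368)) (a (l 14761200) (l 14780000))) (a (l 15462024) (l 15457752)))) (a (a (b (a (a (c (l 15389032) (l 15341224)) (b (l 16201224) (l 15895232))) (a (b (l 16349896) (l 16562904)) (l 16415920))) (a (a (l 15010408) (l 15715520)) (a (l 16287040) (l 16644216)))) (b (b (l 16114592) (l 16522280)) (l 16739128))) (b (a (l 16296984) (l 16247536)) (a (l 16679648) (l 16622664))))) (b (b (b (l 14528560) (l 14757168)) (l 15400544)) (b (l 16129072) (l 16491992)))), by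 decide +kernel⟩

def k2_pp_022_b : ∃ t, chk3 f_pp_022_b t 1 3 1 = true :=
  ⟨(a (a (b (a (a (b (a (l 15010488) (l 15717144)) (a (l 15009312) (l 15715840))) (b (a (l 16311176) (l 16649512)) (l 16519200))) (b (l 16747424) (l 16738224))) (a (a (b (l 15320520) (l 15362456)) (b (l 16518088) (l 2))) (l 16735584))) (b (a (b (l 16693936) (l 16749960)) (l 16710240)) (l 2))) (l 2)), by decide +kernel⟩

theorem s3_pp_022_b : ∃ t, chk3 f_pp_022_b t 1 2 1 = true := ex3_b k0_pp_022_b k1_pp_022_b

theorem s4_pp_022_b : ∃ t, chk3 f_pp_022_b t 1 1 1 = true := ex3_b s3_pp_022_b k2_pp_022_b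

theorem c_pp_022_b : CertNX 67108864 469762048 1239849684 370763052 1046898278 26843546 3 false true true .pp 0 2 2
    ndN2q0 ndN1q2b pcN2 Cut.none Ext.none :=
  certNX1 (fam := false) (s1 := true) (s2 := true) (a := 0) (b := 2) (c := 2) (cn := .pp) (n1 := ndN2q0) (n2 := ndN1q2b) (pc := pcN2) (cut := Cut.none) (xt := Ext.none) (P1 := 67108864) (W1 := 469762048) (P2 := 1239849684) (W2 := 370763052) (P3 := 1046898278) (W3 := 26843546) (N0 := 3)
    rfl (fun _ => rfl) s4_pp_022_b

noncomputable def f_pp_023 : ℕ → ℕ → ℕ → ℕ → Bool := onCell 67108864 469762048 1073741824 536870912 1046898278 26843546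
    (rowNX 3 1 false true true .up 0 2 3 (qsf 67108864 469762048 1610612736 469762048 2) ndN2q0 ndN1q3 pcN2 Cut.none Ext.none)

def k0_pp_023 : ∃ t, chk3 f_pp_023 t 1 1 1 = true :=
  ⟨(b (b (a (l 1) (b (a (l 1) (l 409661131959)) (a (b (l 1) (l 14669440)) (l 382817772791)))) (a (a (l 1) (a (l 1) (b (l 1) (l 820371132599)))) (b (b (b (l 14528560) (l 14757168)) (l 15379576)) (b (l 16129072) (l 16491992))))) (a (a (b (a (l 1) (b (l 1) (l 16738224))) (a (a (b (l 15320520) (l 15362456)) (b (l 16518088) (l 16518088))) (l 16735584))) (b (a (l 432215028455) (l 16710240)) (a (l 16746064) (l 16777216)))) (b (b (l 16605456) (l 16769936)) (b (l 16766344) (l 16761416))))), by decide +kernel⟩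

theorem c_pp_023 : CertNX 67108864 469762048 1610612736 469762048 1046898278 26843546 3 false true true .up 0 2 3
    ndN2q0 ndN1q3 pcN2 Cut.none Ext.none :=
  certNX1 (fam := false) (s1 := true) (s2 := true) (a := 0) (b := 2) (c := 3) (cn := .up) (n1 := ndN2q0) (n2 := ndN1q3) (pc := pcN2) (cut := Cut.none) (xt := Ext.none) (P1 := 67108864) (W1 := 469762048) (P2 := 1610612736) (W2 := 469762048) (P3 := 1046898278) (W3 := 26843546) (N0 := 3)
    rfl (fun _ => rfl) k0_pp_023

noncomputable def f_pp_033 : ℕ → ℕ → ℕ → ℕ → Bool := onCell 67108864 469762048 1610612736 536870912 1046898278 26843546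
    (rowNX 3 1 false true true .pnn 0 3 3 (qsf 67108864 469762048 1610612736 469762048 3) ndN2q0 ndN1q3 pcN3 Cut.none Ext.none)

def k0_pp_033 : ∃ t, chk3 f_pp_033 t 1 1 1 = true :=
  ⟨(b (a (a (a (b (a (b (l 15362456) (l 15257600)) (b (l 16518088) (l 16518088))) (b (a (b (l 15362456) (l 4)) (l 4)) (l 4))) (b (b (l 16735584) (l 16735584)) (l 4))) (b (b (l 16762032) (a (l 16746064) (l 4))) (l 4))) (b (b (a (l 16767576) (l 4)) (l 4)) (a (l 4) (l 2)))) (a (b (a (l 4) (b (l 4) (l 2))) (a (b (l 4) (l 2)) (l 2))) (l 2))), by decide +kernel⟩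

theorem c_pp_033 : CertNX 67108864 469762048 1610612736 469762048 1046898278 26843546 3 false true true .pnn 0 3 3
    ndN2q0 ndN1q3 pcN3 Cut.none Ext.none :=
  certNX1 (fam := false) (s1 := true) (s2 := true) (a := 0) (b := 3) (c := 3) (cn := .pnn) (n1 := ndN2q0) (n2 := ndN1q3) (pc := pcN3) (cut := Cut.none) (xt := Ext.none) (P1 := 67108864) (W1 := 469762048) (P2 := 1610612736) (W2 := 469762048) (P3 := 1046898278) (W3 := 26843546) (N0 := 3)
    rfl (fun _ => rfl) k0_pp_033

noncomputable def f_pp_101 : ℕ → ℕ → ℕ → ℕ → Bool := onCell 536870912 536870912 536870912 536870912 1046898278 26843546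
    (rowNX 3 0 false true true .npn 1 0 1 (qsf 536870912 536870912 536870912 536870912 0) ndN2q1 ndN1q1 pcN0 Cut.none Ext.none)

def k0_pp_101 : ∃ t, chk3 f_pp_101 t 1 1 1 = true :=
  ⟨(l 3), by decide +kernel⟩

theorem c_pp_101 : CertNX 536870912 536870912 536870912 536870912 1046898278 26843546 3 false true true .npn 1 0 1
    ndN2q1 ndN1q1 pcN0 Cut.none Ext.none :=
  certNX0 (fam := false) (s1 := true) (s2 := true) (a := 1) (b := 0) (c := 1) (cn := .npn) (n1 := ndN2q1) (n2 := ndN1q1) (pc := pcN0) (cut := Cut.none) (xt := Ext.none) (P1 := 536870912) (W1 := 536870912) (P2 := 536870912) (W2 := 536870912) (P3 := 1046898278) (W3 := 26843546) (N0 := 3)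
    rfl k0_pp_101

noncomputable def f_pp_102_a : ℕ → ℕ → ℕ → ℕ → Bool := onCell 0 536870912 0 420477299 1046898278 26843546
    (rowNX 3 2 false true true .npp 1 0 2 (qsf 536870912 536870912 0 420477299 0) ndN2q1 ndN1q2a pcN0 Cut.none Ext.none)

def k0_pp_102_a : ∃ t, chk3 f_pp_102_a t 1 1 1 = true :=
  ⟨(a (b (a (l 2) (b (b (a (a (a (l 2) (b (l 247058679511) (l 3))) (c (a (l 15494320) (l 15513648)) (a (l 15452632) (l 15471624)))) (a (a (b (l 15502384) (l 15541264)) (c (l 15554160) (l 15511800))) (a (c (a (l 15585872) (l 15661296)) (a (l 15544152) (l 15622136))) (c (l 15801736) (l 15767496))))) (a (l 3) (a (b (a (l 15574056) (l 282559597895)) (l 3)) (a (c (b (l 15667976) (l 15680808)) (b (l 15629184) (l 15664200))) (c (l 15835184) (l 15802112)))))) (l 3))) (l 3)) (b (b (a (a (a (c (b (l 16081800) (l 16093256)) (b (l 16057392) (l 16090952))) (c (b (l 16405456) (l 16381600)) (b (l 16392408) (l 16411128)))) (c (a (l 16579864) (b (l 16713328) (l 16723464))) (a (l 16572936) (l 16716288))))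 (a (c (a (l 16777112) (l 16777120)) (l 16777136)) (l 16777120))) (b (a (a (a (c (l 353427635415) (l 364164550263)) (c (l 271823516855) (l 267528521911))) (a (c (l 16610696) (l 16604848)) (c (l 16740216) (l 16738912)))) (a (c (a (l 16776536) (l 16776536)) (l 16776512)) (c (a (l 16776536) (l 16776536)) (a (l 16776512) (l 16776512))))) (a (a (l 3) (a (c (l 303499380263) (l 309941822151)) (c (l 264308075159) (l 273434878023)))) (a (c (a (l 16775544) (l 16775544)) (l 182703877159)) (c (l 16775544) (l 16775488)))))) (a (l 3) (b (a (b (c (l 277730024743) (l 293836151863)) (l 3)) (a (b (c (l 16773896) (l 16773776)) (l 3)) (c (l 228874765719) (l 249812730967)))) (l 3))))), by decide +kernel⟩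

theorem c_pp_102_a : CertNX 536870912 536870912 0 420477299 1046898278 26843546 3 false true true .npp 1 0 2
    ndN2q1 ndN1q2a pcN0 Cut.none Ext.none :=
  certNX2 (fam := false) (s1 := true) (s2 := true) (a := 1) (b := 0) (c := 2) (cn := .npp) (n1 := ndN2q1) (n2 := ndN1q2a) (pc := pcN0) (cut := Cut.none) (xt := Ext.none) (P1 := 536870912) (W1 := 536870912) (P2 := 0) (W2 := 420477299) (P3 := 1046898278) (W3 := 26843546) (N0 := 3)
    rfl (fun _ => rfl) k0_pp_102_a

noncomputable def f_pp_102_b : ℕ → ℕ → ℕ → ℕ → Bool := onCell 536870912 536870912 0 536870912 1046898278 26843546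
    (rowNX 3 1 false true true .npp 1 0 2 (qsf 536870912 536870912 1239849684 370763052 0) ndN2q1 ndN1q2b pcN0 Cut.none Ext.none)

def k0_pp_102_b : ∃ t, chk3 f_pp_102_b t 1 1 1 = true :=
  ⟨(b (b (l 1) (a (l 1) (a (l 1) (b (a (l 1) (a (b (l 1) (c (a (l 1) (l 15764528)) (l 240549183799))) (b (a (l 1) (c (l 312489837591) (l 15660504))) (c (b (l 15568128) (l 15384464)) (l 15369744))))) (a (b (a (l 1) (l 15606936)) (l 287257145895)) (b (a (c (b (l 15579144) (l 15402560)) (l 15445360)) (c (l 15013976) (l 15062000))) (b (a (c (l 15296984) (l 15245056)) (c (l 14910888) (l 14845512))) (c (l 15094104) (l 15035024))))))))) (a (b (l 1) (a (l 1) (b (a (l 1) (a (l 373695981271) (l 16776936))) (a (b (l 361347882135) (l 16776936)) (l 16777080))))) (a (b (a (b (l 1) (a (l 402686171815) (l 16703040))) (b (a (b (l 1) (l 16559208)) (l 16383800)) (l 16430832))) (a (l 16740736) (l 16472856))) (b (a (b (l 15855520) (l 15855624)) (a (b (c (l 15292064) (l 15239936)) (c (l 15292064) (l 15239936))) (b (c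 (l 14892688) (l 14826536)) (c (l 14892688) (l 14826536))))) (a (l 15855624) (b (a (l 15266032) (c (l 14892688) (l 14826536))) (c (l 15094104) (l 15035024)))))))), by decide +kernel⟩

theorem c_pp_102_b : CertNX 536870912 536870912 1239849684 370763052 1046898278 26843546 3 false true true .npp 1 0 2
    ndN2q1 ndN1q2b pcN0 Cut.none Ext.none :=
  certNX1 (fam := false) (s1 := true) (s2 := true) (a := 1) (b := 0) (c := 2) (cn := .npp) (n1 := ndN2q1) (n2 := ndN1q2b) (pc := pcN0) (cut := Cut.none) (xt := Ext.none) (P1 := 536870912) (W1 := 536870912) (P2 := 1239849684) (W2 := 370763052) (P3 := 1046898278) (W3 := 26843546) (N0 := 3)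
    rfl (fun _ => rfl) k0_pp_102_b

noncomputable def f_pp_112_a : ℕ → ℕ → ℕ → ℕ → Bool := onCell 536870912 536870912 0 420477299 1046898278 26843546
    (rowNX 3 2 false true true .dn 1 1 2 (qsf 536870912 536870912 0 420477299 1) ndN2q1 ndN1q2a pcN1 Cut.none Ext.none)

def k0_pp_112_a : ∃ t, chk3 f_pp_112_a t 1 1 1 = true :=
  ⟨(a (a (b (b (l 16777120) (a (c (a (l 16776064) (l 16776064)) (a (l 16776024) (l 16776024))) (a (c (l 16776064) (l 16776024)) (a (l 16776040) (l 16776040))))) (a (b (a (c (l 204178703767) (l 224042927191)) (c (l 177335158167) (l 16772528))) (l 3)) (b (c (a (l 16772680) (l 16772680)) (a (l 16772528) (l 16772528))) (b (a (c (l 300278392423) (l 330343161943)) (c (l 258402462599) (l 286856619383))) (l 3))))) (a (a (b (c (l 16776592) (l 16776568)) (b (l 701186950391) (l 1))) (b (l 1811972875271) (l 1))) (l 1))) (l 1)), by decide +kernel⟩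

theorem c_pp_112_a : CertNX 536870912 536870912 0 420477299 1046898278 26843546 3 false true true .dn 1 1 2
    ndN2q1 ndN1q2a pcN1 Cut.none Ext.none :=
  certNX2 (fam := false) (s1 := true) (s2 := true) (a := 1) (b := 1) (c := 2) (cn := .dn) (n1 := ndN2q1) (n2 := ndN1q2a) (pc := pcN1) (cut := Cut.none) (xt := Ext.none) (P1 := 536870912) (W1 := 536870912) (P2 := 0) (W2 := 420477299) (P3 := 1046898278) (W3 := 26843546) (N0 := 3)
    rfl (fun _ => rfl) k0_pp_112_a

noncomputable def f_pp_112_b : ℕ → ℕ → ℕ → ℕ → Bool := onCell 536870912 536870912 1239849684 370763052 1046898278 26843546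
    (rowNX 3 2 false true true .dn 1 1 2 (qsf 536870912 536870912 1239849684 370763052 1) ndN2q1 ndN1q2b pcN1 Cut.none Ext.none)

def k0_pp_112_b : ∃ t, chk3 f_pp_112_b t 1 1 1 = true :=
  ⟨(b (a (a (b (l 16777216) (l 16755944)) (l 16777216)) (a (a (l 422550545143) (l 427381773959)) (l 1))) (a (a (b (a (b (l 16588872) (l 16312184)) (l 16704264)) (a (b (l 15881344) (l 15344352)) (l 16133160))) (b (l 16776536) (a (l 16612232) (l 16762672)))) (a (a (l 16745856) (l 16501288)) (a (l 15864704) (b (l 1) (l 405367129783)))))), by decide +kernel⟩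

theorem c_pp_112_b : CertNX 536870912 536870912 1239849684 370763052 1046898278 26843546 3 false true true .dn 1 1 2
    ndN2q1 ndN1q2b pcN1 Cut.none Ext.none :=
  certNX2 (fam := false) (s1 := true) (s2 := true) (a := 1) (b := 1) (c := 2) (cn := .dn) (n1 := ndN2q1) (n2 := ndN1q2b) (pc := pcN1) (cut := Cut.none) (xt := Ext.none) (P1 := 536870912) (W1 := 536870912) (P2 := 1239849684) (W2 := 370763052) (P3 := 1046898278) (W3 := 26843546) (N0 := 3)
    rfl (fun _ => rfl) k0_pp_112_b

noncomputable def f_pp_113 : ℕ → ℕ → ℕ → ℕ → Bool := onCell 536870912 536870912 536870912 536870912 1046898278 26843546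
    (rowNX 3 1 false true true .nn 1 1 3 (qsf 536870912 536870912 1610612736 469762048 1) ndN2q1 ndN1q3 pcN1 Cut.none Ext.none)

def k0_pp_113 : ∃ t, chk3 f_pp_113 t 1 1 1 = true :=
  ⟨(b (a (l 358126452743) (a (b (l 345240678231) (l 16592560)) (a (l 357050280519) (b (l 15064600) (l 15064600))))) (b (a (b (l 16745840) (l 342556242327)) (a (b (l 16563296) (l 16327064)) (b (l 15441720) (a (l 15615416) (l 14841624))))) (a (b (l 15866160) (b (l 15199296) (a (l 14764576) (l 14724800)))) (a (b (l 15702896) (b (l 15081560) (l 14584096))) (b (a (l 15061232) (l 14366264)) (a (l 14297040) (l 13988496))))))), by decide +kernel⟩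

theorem c_pp_113 : CertNX 536870912 536870912 1610612736 469762048 1046898278 26843546 3 false true true .nn 1 1 3
    ndN2q1 ndN1q3 pcN1 Cut.none Ext.none :=
  certNX1 (fam := false) (s1 := true) (s2 := true) (a := 1) (b := 1) (c := 3) (cn := .nn) (n1 := ndN2q1) (n2 := ndN1q3) (pc := pcN1) (cut := Cut.none) (xt := Ext.none) (P1 := 536870912) (W1 := 536870912) (P2 := 1610612736) (W2 := 469762048) (P3 := 1046898278) (W3 := 26843546) (N0 := 3)
    rfl (fun _ => rfl) k0_pp_113

noncomputable def f_pp_123 : ℕ → ℕ → ℕ → ℕ → Bool := onCell 1073741824 536870912 1610612736 469762048 1046898278 26843546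
    (rowNX 3 2 false true true .npn 1 2 3 (qsf 536870912 536870912 1610612736 469762048 2) ndN2q1 ndN1q3 pcN2 Cut.none Ext.none)

def k0_pp_123 : ∃ t, chk3 f_pp_123 t 1 1 1 = true :=
  ⟨(b (a (a (a (b (l 14498336) (l 14444456)) (a (l 385502194023) (l 14569424))) (a (a (l 406976909975) (l 15386080)) (a (l 16120720) (l 16509272)))) (l 1)) (a (a (a (b (a (l 14327472) (l 14488080)) (b (l 14329672) (a (l 14049872) (l 14450136)))) (b (l 14556856) (a (l 14613952) (l 14512880)))) (a (a (b (l 14612176) (l 14618416)) (l 15347472)) (a (l 16014920) (l 16374640)))) (a (a (l 16564752) (l 16763368)) (l 441878507511)))), by decide +kernel⟩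

theorem c_pp_123 : CertNX 536870912 536870912 1610612736 469762048 1046898278 26843546 3 false true true .npn 1 2 3
    ndN2q1 ndN1q3 pcN2 Cut.none Ext.none :=
  certNX2 (fam := false) (s1 := true) (s2 := true) (a := 1) (b := 2) (c := 3) (cn := .npn) (n1 := ndN2q1) (n2 := ndN1q3) (pc := pcN2) (cut := Cut.none) (xt := Ext.none) (P1 := 536870912) (W1 := 536870912) (P2 := 1610612736) (W2 := 469762048) (P3 := 1046898278) (W3 := 26843546) (N0 := 3)
    rfl (fun _ => rfl) k0_pp_123

noncomputable def f_pp_133 : ℕ → ℕ → ℕ → ℕ → Bool := onCell 536870912 536870912 1610612736 469762048 1046898278 26843546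
    (rowNX 3 0 false true true .dn 1 3 3 (qsf 536870912 536870912 1610612736 469762048 3) ndN2q1 ndN1q3 pcN3 Cut.none Ext.none)

def k0_pp_133 : ∃ t, chk3 f_pp_133 t 1 1 1 = true :=
  ⟨(l 1), by decide +kernel⟩

theorem c_pp_133 : CertNX 536870912 536870912 1610612736 469762048 1046898278 26843546 3 false true true .dn 1 3 3
    ndN2q1 ndN1q3 pcN3 Cut.none Ext.none :=
  certNX0 (fam := false) (s1 := true) (s2 := true) (a := 1) (b := 3) (c := 3) (cn := .dn) (n1 := ndN2q1) (n2 := ndN1q3) (pc := pcN3) (cut := Cut.none) (xt := Ext.none) (P1 := 536870912) (W1 := 536870912) (P2 := 1610612736) (W2 := 469762048) (P3 := 1046898278) (W3 := 26843546) (N0 := 3)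
    rfl k0_pp_133

noncomputable def f_pp_202_aa : ℕ → ℕ → ℕ → ℕ → Bool := onCell 0 420477299 0 420477299 1046898278 26843546
    (rowNX 3 0 false true true .pp 2 0 2 (qsf 0 420477299 0 420477299 0) ndN2q2a ndN1q2a pcN0 Cut.none Ext.none)

def k0_pp_202_aa : ∃ t, chk3 f_pp_202_aa t 1 1 1 = true :=
  ⟨(l 3), by decide +kernel⟩

theorem c_pp_202_aa : CertNX 0 420477299 0 420477299 1046898278 26843546 3 false true true .pp 2 0 2
    ndN2q2a ndN1q2a pcN0 Cut.none Ext.none :=
  certNX0 (fam := false) (s1 := true) (s2 := true) (a := 2) (b := 0) (c := 2) (cn := .pp) (n1 := ndN2q2a) (n2 := ndN1q2a) (pc := pcN0) (cut := Cut.none) (xt := Ext.none) (P1 := 0) (W1 := 420477299) (P2 := 0) (W2 := 420477299) (P3 := 1046898278) (W3 := 26843546) (N0 := 3)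
    rfl k0_pp_202_aa

noncomputable def f_pp_202_ab : ℕ → ℕ → ℕ → ℕ → Bool := onCell 0 420477299 1239849684 370763052 1046898278 26843546
    (rowNX 3 0 false true true .pp 2 0 2 (qsf 0 420477299 1239849684 370763052 0) ndN2q2a ndN1q2b pcN0 Cut.none Ext.none)

def k0_pp_202_ab : ∃ t, chk3 f_pp_202_ab t 1 1 1 = true :=
  ⟨(l 3), by decide +kernel⟩

theorem c_pp_202_ab : CertNX 0 420477299 1239849684 370763052 1046898278 26843546 3 false true true .pp 2 0 2
    ndN2q2a ndN1q2b pcN0 Cut.none Ext.none :=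
  certNX0 (fam := false) (s1 := true) (s2 := true) (a := 2) (b := 0) (c := 2) (cn := .pp) (n1 := ndN2q2a) (n2 := ndN1q2b) (pc := pcN0) (cut := Cut.none) (xt := Ext.none) (P1 := 0) (W1 := 420477299) (P2 := 1239849684) (W2 := 370763052) (P3 := 1046898278) (W3 := 26843546) (N0 := 3)
    rfl k0_pp_202_ab

noncomputable def f_pp_202_ba : ℕ → ℕ → ℕ → ℕ → Bool := onCell 1239849684 370763052 0 420477299 1046898278 26843546
    (rowNX 3 0 false true true .pp 2 0 2 (qsf 1239849684 370763052 0 420477299 0) ndN2q2b ndN1q2a pcN0 Cut.none Ext.none)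

def k0_pp_202_ba : ∃ t, chk3 f_pp_202_ba t 1 1 1 = true :=
  ⟨(l 3), by decide +kernel⟩

theorem c_pp_202_ba : CertNX 1239849684 370763052 0 420477299 1046898278 26843546 3 false true true .pp 2 0 2
    ndN2q2b ndN1q2a pcN0 Cut.none Ext.none :=
  certNX0 (fam := false) (s1 := true) (s2 := true) (a := 2) (b := 0) (c := 2) (cn := .pp) (n1 := ndN2q2b) (n2 := ndN1q2a) (pc := pcN0) (cut := Cut.none) (xt := Ext.none) (P1 := 1239849684) (W1 := 370763052) (P2 := 0) (W2 := 420477299) (P3 := 1046898278) (W3 := 26843546) (N0 := 3)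
    rfl k0_pp_202_ba

noncomputable def f_pp_202_bb : ℕ → ℕ → ℕ → ℕ → Bool := onCell 1239849684 370763052 1239849684 370763052 1046898278 26843546
    (rowNX 3 0 false true true .pp 2 0 2 (qsf 1239849684 370763052 1239849684 370763052 0) ndN2q2b ndN1q2b pcN0 Cut.none Ext.none)

def k0_pp_202_bb : ∃ t, chk3 f_pp_202_bb t 1 1 1 = true :=
  ⟨(l 3), by decide +kernel⟩

theorem c_pp_202_bb : CertNX 1239849684 370763052 1239849684 370763052 1046898278 26843546 3 false true true .pp 2 0 2
    ndN2q2b ndN1q2b pcN0 Cut.none Ext.none :=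
  certNX0 (fam := false) (s1 := true) (s2 := true) (a := 2) (b := 0) (c := 2) (cn := .pp) (n1 := ndN2q2b) (n2 := ndN1q2b) (pc := pcN0) (cut := Cut.none) (xt := Ext.none) (P1 := 1239849684) (W1 := 370763052) (P2 := 1239849684) (W2 := 370763052) (P3 := 1046898278) (W3 := 26843546) (N0 := 3)
    rfl k0_pp_202_bb

noncomputable def f_pp_203_a : ℕ → ℕ → ℕ → ℕ → Bool := onCell 0 420477299 1610612736 469762048 1046898278 26843546
    (rowNX 3 0 false true true .up 2 0 3 (qsf 0 420477299 1610612736 469762048 0) ndN2q2a ndN1q3 pcN0 Cut.none Ext.none)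

def k0_pp_203_a : ∃ t, chk3 f_pp_203_a t 1 1 1 = true :=
  ⟨(l 3), by decide +kernel⟩

theorem c_pp_203_a : CertNX 0 420477299 1610612736 469762048 1046898278 26843546 3 false true true .up 2 0 3
    ndN2q2a ndN1q3 pcN0 Cut.none Ext.none :=
  certNX0 (fam := false) (s1 := true) (s2 := true) (a := 2) (b := 0) (c := 3) (cn := .up) (n1 := ndN2q2a) (n2 := ndN1q3) (pc := pcN0) (cut := Cut.none) (xt := Ext.none) (P1 := 0) (W1 := 420477299) (P2 := 1610612736) (W2 := 469762048) (P3 := 1046898278) (W3 := 26843546) (N0 := 3)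
    rfl k0_pp_203_a

noncomputable def f_pp_203_b : ℕ → ℕ → ℕ → ℕ → Bool := onCell 1239849684 370763052 1610612736 469762048 1046898278 26843546
    (rowNX 3 0 false true true .up 2 0 3 (qsf 1239849684 370763052 1610612736 469762048 0) ndN2q2b ndN1q3 pcN0 Cut.none Ext.none)

def k0_pp_203_b : ∃ t, chk3 f_pp_203_b t 1 1 1 = true :=
  ⟨(l 3), by decide +kernel⟩

theorem c_pp_203_b : CertNX 1239849684 370763052 1610612736 469762048 1046898278 26843546 3 false true true .up 2 0 3
    ndN2q2b ndN1q3 pcN0 Cut.none Ext.none :=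
  certNX0 (fam := false) (s1 := true) (s2 := true) (a := 2) (b := 0) (c := 3) (cn := .up) (n1 := ndN2q2b) (n2 := ndN1q3) (pc := pcN0) (cut := Cut.none) (xt := Ext.none) (P1 := 1239849684) (W1 := 370763052) (P2 := 1610612736) (W2 := 469762048) (P3 := 1046898278) (W3 := 26843546) (N0 := 3)
    rfl k0_pp_203_b

noncomputable def f_pp_213_a : ℕ → ℕ → ℕ → ℕ → Bool := onCell 0 420477299 1610612736 469762048 1046898278 26843546
    (rowNX 3 0 false true true .pnn 2 1 3 (qsf 0 420477299 1610612736 469762048 1) ndN2q2a ndN1q3 pcN1 Cut.none Ext.none)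

def k0_pp_213_a : ∃ t, chk3 f_pp_213_a t 1 1 1 = true :=
  ⟨(l 3), by decide +kernel⟩

theorem c_pp_213_a : CertNX 0 420477299 1610612736 469762048 1046898278 26843546 3 false true true .pnn 2 1 3
    ndN2q2a ndN1q3 pcN1 Cut.none Ext.none :=
  certNX0 (fam := false) (s1 := true) (s2 := true) (a := 2) (b := 1) (c := 3) (cn := .pnn) (n1 := ndN2q2a) (n2 := ndN1q3) (pc := pcN1) (cut := Cut.none) (xt := Ext.none) (P1 := 0) (W1 := 420477299) (P2 := 1610612736) (W2 := 469762048) (P3 := 1046898278) (W3 := 26843546) (N0 := 3)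
    rfl k0_pp_213_a

noncomputable def f_pp_213_b : ℕ → ℕ → ℕ → ℕ → Bool := onCell 1239849684 370763052 1610612736 469762048 1046898278 26843546
    (rowNX 3 0 false true true .pnn 2 1 3 (qsf 1239849684 370763052 1610612736 469762048 1) ndN2q2b ndN1q3 pcN1 Cut.none Ext.none)

def k0_pp_213_b : ∃ t, chk3 f_pp_213_b t 1 1 1 = true :=
  ⟨(l 3), by decide +kernel⟩

theorem c_pp_213_b : CertNX 1239849684 370763052 1610612736 469762048 1046898278 26843546 3 false true true .pnn 2 1 3
    ndN2q2b ndN1q3 pcN1 Cut.none Ext.none :=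
  certNX0 (fam := false) (s1 := true) (s2 := true) (a := 2) (b := 1) (c := 3) (cn := .pnn) (n1 := ndN2q2b) (n2 := ndN1q3) (pc := pcN1) (cut := Cut.none) (xt := Ext.none) (P1 := 1239849684) (W1 := 370763052) (P2 := 1610612736) (W2 := 469762048) (P3 := 1046898278) (W3 := 26843546) (N0 := 3)
    rfl k0_pp_213_b

noncomputable def f_pp_303 : ℕ → ℕ → ℕ → ℕ → Bool := onCell 1610612736 469762048 1610612736 469762048 1046898278 26843546
    (rowNX 3 0 false true true .npn 3 0 3 (qsf 1610612736 469762048 1610612736 469762048 0) ndN2q3 ndN1q3 pcN0 Cut.none Ext.none)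

def k0_pp_303 : ∃ t, chk3 f_pp_303 t 1 1 1 = true :=
  ⟨(l 3), by decide +kernel⟩

theorem c_pp_303 : CertNX 1610612736 469762048 1610612736 469762048 1046898278 26843546 3 false true true .npn 3 0 3
    ndN2q3 ndN1q3 pcN0 Cut.none Ext.none :=
  certNX0 (fam := false) (s1 := true) (s2 := true) (a := 3) (b := 0) (c := 3) (cn := .npn) (n1 := ndN2q3) (n2 := ndN1q3) (pc := pcN0) (cut := Cut.none) (xt := Ext.none) (P1 := 1610612736) (W1 := 469762048) (P2 := 1610612736) (W2 := 469762048) (P3 := 1046898278) (W3 := 26843546) (N0 := 3)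
    rfl k0_pp_303

noncomputable def f_pp_313 : ℕ → ℕ → ℕ → ℕ → Bool := onCell 1610612736 469762048 1610612736 469762048 1046898278 26843546
    (rowNX 3 0 false true true .dn 3 1 3 (qsf 1610612736 469762048 1610612736 469762048 1) ndN2q3 ndN1q3 pcN1 Cut.none Ext.none)

def k0_pp_313 : ∃ t, chk3 f_pp_313 t 1 1 1 = true :=
  ⟨(l 1), by decide +kernel⟩

theorem c_pp_313 : CertNX 1610612736 469762048 1610612736 469762048 1046898278 26843546 3 false true true .dn 3 1 3
    ndN2q3 ndN1q3 pcN1 Cut.none Ext.none :=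
  certNX0 (fam := false) (s1 := true) (s2 := true) (a := 3) (b := 1) (c := 3) (cn := .dn) (n1 := ndN2q3) (n2 := ndN1q3) (pc := pcN1) (cut := Cut.none) (xt := Ext.none) (P1 := 1610612736) (W1 := 469762048) (P2 := 1610612736) (W2 := 469762048) (P3 := 1046898278) (W3 := 26843546) (N0 := 3)
    rfl k0_pp_313

noncomputable def f_pm_001 : ℕ → ℕ → ℕ → ℕ → Bool := onCell 67108864 469762048 536870912 536870912 1046898278 26843546
    (rowNX 3 0 false true false .up 0 0 1 (qsf 67108864 469762048 536870912 536870912 0) ndN2q0 ndN1q1 pcN0 Cut.none Ext.none)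

def k0_pm_001 : ∃ t, chk3 f_pm_001 t 1 1 1 = true :=
  ⟨(l 4), by decide +kernel⟩

theorem c_pm_001 : CertNX 67108864 469762048 536870912 536870912 1046898278 26843546 3 false true false .up 0 0 1
    ndN2q0 ndN1q1 pcN0 Cut.none Ext.none :=
  certNX0 (fam := false) (s1 := true) (s2 := false) (a := 0) (b := 0) (c := 1) (cn := .up) (n1 := ndN2q0) (n2 := ndN1q1) (pc := pcN0) (cut := Cut.none) (xt := Ext.none) (P1 := 67108864) (W1 := 469762048) (P2 := 536870912) (W2 := 536870912) (P3 := 1046898278) (W3 := 26843546) (N0 := 3)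
    rfl k0_pm_001

noncomputable def f_pm_011 : ℕ → ℕ → ℕ → ℕ → Bool := onCell 67108864 469762048 536870912 536870912 1046898278 26843546
    (rowNX 3 0 false true false .pnn 0 1 1 (qsf 67108864 469762048 536870912 536870912 1) ndN2q0 ndN1q1 pcN1 Cut.none Ext.none)

def k0_pm_011 : ∃ t, chk3 f_pm_011 t 1 1 1 = true :=
  ⟨(l 4), by decide +kernel⟩

theorem c_pm_011 : CertNX 67108864 469762048 536870912 536870912 1046898278 26843546 3 false true false .pnn 0 1 1
    ndN2q0 ndN1q1 pcN1 Cut.none Ext.none :=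
  certNX0 (fam := false) (s1 := true) (s2 := false) (a := 0) (b := 1) (c := 1) (cn := .pnn) (n1 := ndN2q0) (n2 := ndN1q1) (pc := pcN1) (cut := Cut.none) (xt := Ext.none) (P1 := 67108864) (W1 := 469762048) (P2 := 536870912) (W2 := 536870912) (P3 := 1046898278) (W3 := 26843546) (N0 := 3)
    rfl k0_pm_011

noncomputable def f_pm_012_a : ℕ → ℕ → ℕ → ℕ → Bool := onCell 536870912 536870912 0 420477299 1046898278 26843546
    (rowNX 3 2 false true false .pnp 0 1 2 (qsf 67108864 469762048 0 420477299 1) ndN2q0 ndN1q2a pcN1 Cut.none Ext.none)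

def k0_pm_012_a : ∃ t, chk3 f_pm_012_a t 2 1 1 = true :=
  ⟨(b (a (l 2) (l 16776576)) (b (a (l 16772600) (l 16772600)) (a (b (l 16707520) (l 16372104)) (a (b (l 16711192) (b (l 16511496) (l 16356928))) (b (l 16720328) (b (b (l 16557288) (l 16537984)) (l 16520272))))))), by decide +kernel⟩

def k1_pm_012_a : ∃ t, chk3 f_pm_012_a t 6 2 1 = true :=
  ⟨(a (a (l 16776712) (l 16636952)) (a (l 16369768) (a (l 16142960) (l 15877960)))), by decide +kernel⟩

def k2_pm_012_a : ∃ t, chk3 f_pm_012_a t 12 3 1 = true :=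
  ⟨(b (a (l 16772936) (b (l 16600040) (a (a (l 16700832) (c (l 16588632) (b (l 16601448) (l 16586664)))) (b (l 16501808) (a (c (l 16485792) (l 16447688)) (b (b (l 16450464) (c (c (l 16423472) (l 16411032)) (l 16411992))) (c (a (l 16221536) (b (l 16366584) (l 16252000))) (b (l 16365712) (l 16213624))))))))) (a (b (l 16708064) (b (l 16539488) (l 16615416))) (b (b (a (a (l 16640768) (l 16466224)) (b (a (b (l 16250992) (l 16217400)) (b (l 15992328) (a (l 16077848) (l 15985720)))) (l 16105584))) (l 16207184)) (b (a (l 16530464) (l 16092832)) (a (l 16408752) (l 16010512)))))), by decide +kernel⟩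

def k3_pm_012_a : ∃ t, chk3 f_pm_012_a t 26 3 1 = true :=
  ⟨(b (b (l 16267064) (b (l 16237128) (b (l 16222304) (b (a (c (a (c (l 16322560) (l 16302560)) (l 16225168)) (a (l 16301928) (a (l 16245840) (l 16228656)))) (l 16122136)) (a (a (c (a (l 16220776) (l 16180568)) (l 16192200)) (c (c (a (l 16171000) (l 16193784)) (l 16189400)) (l 16080552))) (a (a (c (l 16145768) (l 16136544)) (l 16139904)) (l 16069560))))))) (b (b (b (b (a (a (b (l 16118424) (l 15986552)) (c (b (l 16084016) (l 16038472)) (l 16025240))) (c (a (a (b (l 15992320) (l 16017792)) (c (l 16088312) (l 16060312))) (l 15888352)) (a (a (l 16077368) (l 16038304)) (a (l 16023880) (l 16027144))))) (a (a (c (l 15887344) (l 15855552)) (a (l 15822064) (l 15807688))) (a (c (b (l 15745440) (l 15717520)) (l 15838760)) (c (a (b (a (l 15933672) (c (l 16011840) (l 15996568))) (l 15665736)) (b (l 15921848) (a (l 15782344) (c (l 15968216) (l 15855248))))) (a (l 15828376) (c (l 15945512) (l 15941016))))))) (b (a (a (a (l 15853000) (l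 15584408)) (c (l 15651408) (l 15632824))) (a (a (c (l 15599176) (l 15558424)) (l 15469072)) (c (c (a (l 15637768) (c (l 15495392) (l 15745656))) (l 15706480)) (l 15644952)))) (a (l 15686808) (c (a (c (l 15467456) (l 15444288)) (a (l 15367568) (l 15390928))) (a (l 15411832) (l 15255072)))))) (a (l 15645160) (a (l 15320936) (b (b (b (c (a (l 15269128) (l 15199384)) (l 15192344)) (l 15164800)) (l 15135064)) (l 15078464))))) (b (l 15115592) (a (l 15548224) (b (l 15037416) (l 15068056)))))), by decide +kernel⟩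

def k4_pm_012_a : ∃ t, chk3 f_pm_012_a t 27 6 1 = true :=
  ⟨(a (l 15949912) (l 15598032)), by decide +kernel⟩

def k5_pm_012_a : ∃ t, chk3 f_pm_012_a t 54 14 1 = true :=
  ⟨(b (b (a (b (l 15966608) (a (c (l 15701824) (l 15740880)) (a (c (l 15641920) (l 15889520)) (l 15918552)))) (l 15798248)) (b (a (c (a (c (c (b (l 15758120) (l 15517520)) (l 15675856)) (l 15724104)) (b (a (b (l 15935928) (l 15830080)) (c (l 15915888) (l 15869464))) (a (c (l 15485832) (l 15744944)) (c (a (l 15775816) (l 15802288)) (l 15729392))))) (a (l 15734992) (c (a (l 15840624) (l 15684112)) (l 15567720)))) (c (c (c (l 15572104) (l 15743088)) (a (c (l 15796568) (l 15766912)) (l 15697728))) (c (a (l 15767640) (l 15704248)) (l 15697360)))) (a (c (b (a (c (l 15435696) (l 15500456)) (a (c (b (l 15635728) (l 15533528)) (l 15555496)) (c (c (l 15617888) (l 15458896)) (l 15636912)))) (l 15251328)) (l 15415336)) (a (c (c (c (b (l 15414568) (b (l 15537448) (l 15465344))) (b (l 15620080) (l 15491368))) (l 15385880)) (l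 15550720)) (c (b (c (l 15513656) (c (l 15706968) (l 15675256))) (c (c (a (l 15526592) (l 15582368)) (l 15479760)) (l 15532368))) (b (c (l 15674200) (l 15671792)) (l 15523144))))))) (b (b (a (a (c (b (l 15181064) (l 15087120)) (l 15079776)) (c (a (l 15126440) (l 15164336)) (l 14931072))) (c (a (l 15202200) (b (c (c (b (l 15430216) (a (l 15313768) (l 15362720))) (l 15339936)) (l 15415688)) (l 15172136))) (l 15179328))) (a (a (l 14993768) (b (b (a (l 14958248) (l 14926552)) (l 14911640)) (l 14892152))) (c (a (b (l 14936136) (l 14868328)) (b (l 14986440) (l 14821216))) (c (l 14864352) (l 14831024))))) (b (a (l 14900336) (b (a (l 14788976) (c (l 14763048) (l 14690608))) (l 14728312))) (l 14775880)))), by decide +kernel⟩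

def k6_pm_012_a : ∃ t, chk3 f_pm_012_a t 55 28 1 = true :=
  ⟨(a (b (l 15599176) (b (l 15600000) (c (c (c (c (l 15323776) (l 15492408)) (l 15556672)) (a (c (c (l 15608704) (l 15511368)) (l 15531480)) (l 15508352))) (a (c (l 15529280) (l 15571656)) (a (l 15426096) (l 15514096)))))) (l 15400584)), by decide +kernel⟩

def k7_pm_012_a : ∃ t, chk3 f_pm_012_a t 55 58 1 = true :=
  ⟨(b (c (a (a (b (c (c (b (l 15496768) (l 15393136)) (l 15297096)) (l 15367592)) (c (c (a (b (l 15306016) (l 15198144)) (b (l 15330864) (l 15249104))) (l 15167016)) (l 15300232))) (c (b (c (l 15327256) (l 15517504)) (c (b (l 15386024) (a (l 15278608) (l 15310440))) (c (l 15219944) (l 15330408)))) (b (a (b (l 15543112) (l 15404904)) (l 15493552)) (l 15181768)))) (c (c (a (c (c (l 15208864) (l 15334856)) (l 15398024)) (a (b (l 15432960) (l 15419920)) (l 15385160))) (l 15116544)) (a (a (b (l 15441720) (b (l 15448352) (l 15307040))) (l 15394576)) (l 15316720)))) (a (a (l 15324320) (b (c (l 15455576) (l 15468080))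 (l 15305744))) (c (a (l 15143344) (l 15317352)) (a (l 15328496) (l 15296264))))) (c (a (a (l 14961112) (b (c (c (a (c (l 15146552) (l 15128688)) (b (l 15226648) (l 15135152))) (a (l 15118008) (l 15075776))) (l 15185560)) (l 14934544))) (a (b (a (c (b (l 15248416) (c (l 15174992) (l 15171528))) (l 15219136)) (c (b (l 15315072) (l 15197504)) (l 15191392))) (c (c (a (c (l 15031000) (l 15016992)) (b (l 15123568) (l 15021672))) (a (l 15005592) (b (l 15118776) (l 15000640)))) (l 15072296))) (b (c (c (a (l 15329080) (l 15344304)) (l 15306728)) (a (b (l 15352784) (l 15208208)) (l 15299864))) (a (c (c (b (l 15152352) (l 15070048)) (b (l 15144504) (l 15063968))) (l 15029968)) (c (b (l 15212296) (c (l 15098400) (l 15091032))) (l 15003360)))))) (a (c (l 14948968) (l 14917152)) (a (l 14891848) (b (c (c (l 15283416) (l 15279464)) (l 15264072)) (l 15092128)))))), by decide +kernel⟩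

def k8_pm_012_a : ∃ t, chk3 f_pm_012_a t 55 59 1 = true :=
  ⟨(a (b (c (a (b (l 14710120) (l 14646040)) (b (l 14727384) (l 14602760))) (c (a (l 14644960) (l 14610848)) (l 14480248))) (l 14543384)) (c (a (b (c (l 14718912) (l 14683728)) (c (l 14509696) (l 14469680))) (b (b (a (l 14882960) (b (c (c (l 15015920) (l 15008656)) (l 15034560)) (l 14877848))) (l 14695816)) (b (l 14479608) (c (l 14401528) (l 14359936))))) (b (a (l 14626720) (l 14732464)) (c (a (l 14429216) (l 14378944)) (a (l 14388232) (l 14337312)))))), by decide +kernel⟩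

def k9_pm_012_a : ∃ t, chk3 f_pm_012_a t 27 15 1 = true :=
  ⟨(b (a (a (l 14745392) (l 14597248)) (l 14397304)) (a (a (b (l 14629752) (l 14662720)) (b (l 14488768) (l 14493600))) (b (l 14339368) (l 14334472)))), by decide +kernel⟩

def k10_pm_012_a : ∃ t, chk3 f_pm_012_a t 7 2 1 = true :=
  ⟨(a (a (b (l 15557008) (l 15290136)) (b (l 15113816) (a (l 14912080) (l 14709544)))) (a (a (b (l 14775392) (l 14452904)) (b (l 14494000) (l 13996752))) (b (a (c (l 14221960) (l 14188208)) (c (l 13964824) (a (l 13961320) (l 13830344)))) (a (c (l 13666992) (l 13816784)) (c (b (l 13672568) (l 13509816)) (a (l 13579328) (b (l 13543048) (l 13396016)))))))), by decide +kernel⟩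

def k11_pm_012_a : ∃ t, chk3 f_pm_012_a t 14 6 1 = true :=
  ⟨(a (a (l 15218936) (b (l 14918048) (l 14774960))) (b (l 14584288) (l 14429760))), by decide +kernel⟩

def k12_pm_012_a : ∃ t, chk3 f_pm_012_a t 112 7 1 = true :=
  ⟨(b (b (l 15194896) (b (b (l 15207544) (a (c (a (c (c (c (b (l 15325336) (l 15230200)) (l 15166280)) (l 15249752)) (b (l 15244608) (b (l 15250416) (l 15103440)))) (b (l 15267784) (c (b (l 15264432) (l 15220592)) (l 15196840)))) (c (c (l 15132968) (l 15172552)) (b (l 15195680) (l 15156824)))) (a (b (l 15187112) (b (l 15190760) (c (c (l 15214056) (l 15142800)) (l 15127608)))) (l 15135072)))) (b (c (c (a (a (b (c (b (l 15045248) (l 14962256)) (b (l 15038120) (l 14953968))) (l 14784320)) (b (b (l 15109976) (c (l 14992904) (l 14985792))) (b (c (l 14909128) (l 14900000)) (l 14782152)))) (a (b (b (l 15171344) (l 15060144)) (c (b (l 14941400) (l 14856592)) (b (l 14934096) (l 14847248)))) (b (b (l 15163768) (l 15122656)) (b (l 15011296) (c (l 14890776) (l 14883200))))))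 (a (b (c (l 14790696) (l 15020640)) (l 14847432)) (b (a (b (l 15147264) (l 14998960)) (l 15093464)) (c (c (l 14730088) (l 14919560)) (l 14914528))))) (a (c (l 14900400) (l 14841616)) (b (c (c (l 15031392) (l 15067864)) (l 15050312)) (l 14873160)))) (c (a (b (l 14575824) (c (l 14379384) (l 14337744))) (b (a (l 14653928) (b (c (c (l 14804792) (a (l 14761904) (l 14805816))) (l 14819232)) (l 14655016))) (l 14458448))) (a (l 14123296) (l 14493608)))))) (b (b (b (a (b (b (c (l 14272888) (l 14184464)) (l 14198064)) (l 14195792)) (c (c (b (l 14263384) (l 14186176)) (b (l 14219664) (l 14140712))) (b (l 14154080) (l 14075488)))) (l 14143896)) (l 14145376)) (l 14159680))), by decide +kernel⟩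

def k13_pm_012_a : ∃ t, chk3 f_pm_012_a t 113 7 1 = true :=
  ⟨(b (b (l 14983000) (b (l 14994320) (b (a (c (a (b (b (l 15115616) (c (l 15113584) (l 15039248))) (c (b (l 15074504) (l 14963504)) (b (l 15043760) (l 14831992)))) (b (l 15063112) (c (b (l 15063504) (l 15026824)) (l 14989776)))) (c (c (l 14712952) (l 14960752)) (b (l 14982928) (l 14944768)))) (a (b (l 14978464) (b (l 14982376) (c (c (l 15013520) (l 14935464)) (l 14917400)))) (l 14926184))) (c (c (a (a (b (c (b (l 14841552) (l 14753640)) (b (l 14832928) (a (l 14709632) (l 14754992)))) (l 14563240)) (b (b (l 14916848) (c (l 14792944) (l 14783480))) (b (c (l 14703264) (a (l 14658368) (l 14705112))) (l 14567952)))) (a (b (b (l 14979568) (l 14861456)) (c (b (l 14745504) (l 14653712)) (b (l 14734944) (c (l 14645160) (l 14636008))))) (b (b (l 14963656) (l 14932648)) (b (l 14810016) (c (l 14699392) (l 14687424)))))) (a (b (c (a (l 14594232) (l 14693208)) (l 14809536)) (c (l 14644808) (l 14546760))) (b (a (b (l 14939936) (l 14623640))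 (l 14885800)) (c (c (a (l 14497160) (l 14696992)) (l 14543648)) (l 14685392))))) (a (b (l 14620792) (l 14498440)) (b (c (c (l 14612912) (l 14858432)) (l 14735352)) (c (l 14688312) (l 14648448)))))))) (b (b (b (c (a (b (l 14344200) (c (l 14150696) (l 14104976))) (b (a (l 14438112) (b (c (c (l 14605024) (c (l 14596952) (l 14588424))) (l 14452520)) (l 14446976))) (l 14233864))) (a (b (l 14259360) (l 14036728)) (l 14269104))) (a (a (l 14015192) (b (c (l 14030192) (l 13932912)) (l 13963848))) (c (b (c (l 14040968) (l 13993312)) (c (l 13975856) (l 13926624))) (b (l 13859472) (l 13856616))))) (l 13959624)) (l 14027720))), by decide +kernel⟩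

def k14_pm_012_a : ∃ t, chk3 f_pm_012_a t 57 14 1 = true :=
  ⟨(b (l 14677232) (b (l 14685392) (b (l 14698384) (a (a (c (a (b (b (l 14910352) (c (l 14913936) (l 14831536))) (c (b (l 14885968) (l 14758496)) (b (l 14835824) (c (l 14690352) (l 14701504))))) (b (l 14857560) (c (b (b (l 14877464) (l 14867728)) (l 14839440)) (l 14781608)))) (c (c (c (l 14675928) (l 14757456)) (l 14750616)) (c (l 14723544) (l 14737056)))) (a (b (l 14768960) (b (l 14773192) (c (a (b (l 14823200) (l 14810728)) (l 14796760)) (l 14707392)))) (l 14716520))) (l 14618184))))), by decide +kernel⟩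

def k15_pm_012_a : ∃ t, chk3 f_pm_012_a t 57 120 1 = true :=
  ⟨(a (c (c (a (a (b (a (b (l 14632024) (c (l 14544360) (l 14521584))) (b (l 14664952) (l 14566248))) (c (b (l 14437352) (l 14307576)) (l 14347256))) (b (b (l 14706904) (a (l 14586120) (l 14623704))) (c (b (l 14510464) (l 14393136)) (b (c (l 14503608) (l 14496656)) (l 14360672))))) (a (b (b (l 14792920) (c (l 14719512) (l 14702152))) (b (a (l 14541632) (l 14585080)) (c (l 14464712) (a (l 14434544) (l 14470160))))) (b (b (l 14776224) (l 14745736)) (b (c (l 14682400) (l 14664544)) (a (l 14498856) (l 14549720)))))) (a (b (c (a (b (l 14413648) (l 14588328)) (c (l 14511104) (l 14620016))) (l 14437232)) (c (a (l 14326304) (b (l 14416776) (l 14339840))) (l 14343080))) (b (a (a (b (l 14745640) (c (l 14647464) (l 14615224))) (l 14719960)) (l 14677264)) (a (c (c (b (l 14484256) (l 14400080)) (l 14359008)) (l 14515552)) (b (a (c (l 14612976) (l 14564672)) (l 14670224)) (c (c (l 14371544) (l 14520904)) (l 14517728))))))) (a (b (c (l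 14588416) (l 14553008)) (l 14290360)) (b (c (c (a (l 14539872) (l 14670224)) (l 14651248)) (a (l 14656720) (l 14631056))) (c (a (l 14481496) (b (a (l 14567952) (l 14437936)) (l 14497544))) (l 14502368))))) (a (b (l 14653568) (c (c (a (b (l 14698880) (a (l 14606968) (l 14657344))) (b (l 14695800) (a (l 14680448) (l 14682912)))) (a (c (l 14486656) (a (b (l 14638600) (l 14514344)) (l 14614200))) (l 14387392))) (c (a (c (a (l 14536312) (l 14581904)) (l 14578264)) (l 14585608)) (a (l 14558192) (l 14551704))))) (l 14603728))), by decide +kernel⟩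

def k16_pm_012_a : ∃ t, chk3 f_pm_012_a t 114 121 1 = true :=
  ⟨(c (a (b (l 14128096) (c (a (l 13917984) (l 13935216)) (l 13884520))) (b (c (c (a (b (l 14350408) (l 14210712)) (b (l 14420104) (l 14309040))) (a (l 14251664) (b (a (l 14392720) (l 14426120)) (l 14270256)))) (a (l 14218928) (b (a (l 14346144) (b (c (l 14442880) (l 14475816)) (l 14357688))) (l 14237768)))) (l 14027504))) (a (c (l 13706888) (l 13888480)) (c (l 14086192) (l 14039792)))), by decide +kernel⟩

def k17_pm_012_a : ∃ t, chk3 f_pm_012_a t 115 121 1 = true :=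
  ⟨(a (c (c (b (b (a (a (l 14458200) (l 14525176)) (a (l 14588048) (l 14648504))) (a (c (l 14377544) (a (l 14351792) (l 14385136))) (a (l 14440272) (l 14526720)))) (a (c (b (l 14269416) (l 14121176)) (l 14163528)) (c (b (l 14367688) (l 14265064)) (b (a (l 14334064) (l 14386464)) (c (l 14235256) (l 14220216)))))) (b (a (c (b (a (c (l 14446752) (l 14443720)) (l 14481472)) (a (l 14388096) (c (l 14378544) (l 14371320)))) (b (l 14428272) (l 14382264))) (a (c (c (l 14303096) (l 14453704)) (l 14454472)) (b (l 14598520) (c (l 14484520) (l 14467528))))) (a (l 14129656) (b (c (a (l 14162448) (c (l 14380536) (l 14374912))) (l 14370664)) (l 14192456))))) (b (a (c (l 14394872) (l 14328520)) (c (b (a (l 14488056) (l 14517208)) (l 14435040)) (l 14479192))) (l 14126880))) (b (a (c (c (a (b (l 14665704) (l 14598064)) (b (l 14673272) (l 14640640))) (c (l 14587880) (c (l 14582936) (l 14551144)))) (c (c (l 14543944) (l 14536664)) (l 14518072))) (a (b (l 14606200) (b (l 14608880) (c (l 14630136) (l 14539576))))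 (l 14596008))) (c (c (b (a (a (l 14449216) (l 14532504)) (a (l 14599856) (l 14630680))) (a (c (l 14375336) (a (l 14343696) (l 14392896))) (a (l 14460640) (l 14538432)))) (a (c (a (b (l 14236024) (l 14192672)) (c (l 14282968) (l 14431024))) (l 14322584)) (b (l 14568176) (c (l 14306328) (l 14436992))))) (a (c (l 14384168) (l 14334488)) (c (b (c (l 14529944) (l 14522328)) (l 14428680)) (l 14468664)))))), by decide +kernel⟩

def k18_pm_012_a : ∃ t, chk3 f_pm_012_a t 57 61 1 = true :=
  ⟨(b (b (a (c (a (c (l 13872528) (l 13821456)) (c (a (l 13812184) (l 13830800)) (l 13778616))) (a (l 13686128) (c (l 13726568) (l 13673760)))) (a (c (a (l 13891080) (l 14021560)) (l 13858584)) (c (c (a (a (l 14154896) (b (c (l 14310464) (l 14288760)) (l 14164560))) (c (b (l 14383968) (a (l 14254208) (l 14322728))) (b (a (l 14352928) (l 14400472)) (a (l 14223776) (l 14306288))))) (a (l 14145648) (b (c (a (l 14263232) (l 14339192)) (l 14383744)) (l 14225000)))) (l 14124400)))) (a (a (l 13789936) (a (l 13699224)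 (b (c (l 13704096) (l 13595912)) (l 13641256)))) (a (c (a (c (b (l 13724224) (l 13677552)) (l 13656776)) (c (l 13786320) (l 13734472))) (a (l 13409240) (l 13654728))) (c (c (l 14019096) (l 13971032)) (l 13897568))))) (a (l 13760184) (a (a (l 13610544) (b (c (c (l 13691064) (l 13636936)) (l 13558008)) (l 13614648))) (a (b (c (c (l 13746584) (l 13693520)) (l 13614056)) (l 13631936)) (c (b (c (l 13849160) (l 13798088)) (c (l 13754688) (l 13701264))) (b (l 13719128) (l 13622904))))))), by decide +kernel⟩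

def k19_pm_012_a : ∃ t, chk3 f_pm_012_a t 57 31 1 = true :=
  ⟨(a (l 13867632) (c (a (l 13798704) (l 13808912)) (l 13698328))), by decide +kernel⟩

def k20_pm_012_a : ∃ t, chk3 f_pm_012_a t 29 14 1 = true :=
  ⟨(c (l 14383480) (l 14299368)), by decide +kernel⟩

def k21_pm_012_a : ∃ t, chk3 f_pm_012_a t 58 60 1 = true :=
  ⟨(a (b (l 14531128) (b (l 14541840) (a (c (c (c (a (b (l 14638744) (l 14612904)) (b (l 14625536) (l 14623680))) (a (c (l 14312504) (l 14560168)) (l 14437104))) (l 14451768)) (c (a (l 14505944) (l 14510856)) (l 14472912))) (l 14525384)))) (l 14440632)), by decide +kernel⟩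

def k22_pm_012_a : ∃ t, chk3 f_pm_012_a t 116 61 1 = true :=
  ⟨(a (a (b (c (b (c (a (b (l 14475080) (c (l 14370208) (l 14361848))) (b (l 14543328) (l 14415248))) (c (c (b (l 14427824) (l 14278496)) (l 14406776)) (l 14401904))) (b (c (c (a (l 14275640) (l 14334456)) (a (l 14242128) (l 14321952))) (l 14125544)) (l 14149184))) (c (l 14036416) (l 14236216))) (b (c (l 13977720) (l 13878904)) (c (c (l 13812360) (l 13760048)) (l 13681504)))) (b (c (b (c (c (b (l 14602960) (l 14535528)) (l 14300632)) (b (l 14533824) (a (l 14423520) (b (l 14541816) (l 14455280))))) (c (a (c (b (l 14381080) (l 14295000)) (b (l 14370720) (l 14266784))) (b (l 14427520) (c (l 14345864) (l 14335760)))) (c (b (l 14168000) (l 14327176)) (l 14347712)))) (b (c (c (l 14489304) (l 14477336)) (l 14451656)) (l 14280824))) (c (b (l 14117160) (c (l 13916968) (l 13866808))) (l 13727608)))) (b (b (a (b (l 14543544) (c (c (a (l 14585360) (l 14588288)) (l 14516776)) (l 14473968))) (l 14521568)) (c (c (a (b (a (l 14501496)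 (l 14556472)) (a (c (l 14393888) (l 14380016)) (l 14442728))) (c (b (l 14577904) (l 14542224)) (l 14520720))) (a (a (c (l 14400464) (l 14397296)) (b (l 14518768) (l 14406072))) (c (l 14510272) (l 14473680)))) (a (c (b (l 14464760) (l 14365832)) (l 14391280)) (c (l 14454136) (l 14428872))))) (c (c (a (b (c (b (a (l 14312224) (l 14357376)) (c (l 14238024) (l 14222624))) (b (a (l 14291472) (l 14347960)) (l 14207136))) (l 14062600)) (a (b (c (b (l 14409408) (l 14327520)) (b (l 14390424) (l 14312272))) (l 14160264)) (b (b (l 14465512) (c (l 14369632) (l 14359056))) (c (b (l 14292232) (l 14184040)) (l 14212128))))) (b (c (a (l 14211944) (l 14221936)) (l 14261600)) (l 14081856))) (b (a (l 14158168) (l 14303120)) (l 14010288))))), by decide +kernel⟩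

def k23_pm_012_a : ∃ t, chk3 f_pm_012_a t 117 61 1 = true :=
  ⟨(a (a (b (b (l 14497408) (c (a (b (l 14548832) (b (l 14552136) (l 14539616))) (l 14539208)) (l 14429056))) (c (b (c (b (b (l 14545064) (l 14520296)) (a (c (l 14428592) (l 14402864)) (l 14475552))) (b (c (l 14495272) (l 14461360)) (l 14383304))) (c (c (b (a (l 14341352) (l 14383488)) (a (l 14244488) (l 14313048))) (b (a (l 14203240) (l 14369848)) (l 14305096))) (b (l 14284568) (l 14219536)))) (b (c (l 14427000) (l 14389920)) (l 14222760)))) (b (l 14477616) (c (b (c (c (c (l 14378320) (l 14498448)) (l 14489856)) (l 14471904)) (c (a (c (b (l 14446016) (l 14354464)) (l 14315704)) (b (l 14489736) (c (l 14399984) (l 14381368)))) (a (l 14361208) (b (b (l 14472744) (l 14408248)) (l 14374296))))) (b (c (l 14427064) (l 14401976)) (c (l 14382272) (l 14325120)))))) (b (l 14441152) (b (l 14455304) (c (c (c (a (l 14472624) (l 14472760)) (l 14467184)) (a (a (b (l 14464024) (l 14382288)) (l 14456312)) (l 14439640))) (c (l 14391616)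 (l 14363824)))))), by decide +kernel⟩

def k24_pm_012_a : ∃ t, chk3 f_pm_012_a t 58 31 1 = true :=
  ⟨(b (b (b (a (a (a (l 13694456) (c (c (l 13820440) (l 13767792)) (l 13689992))) (c (c (a (l 13881384) (l 13989504)) (a (l 13829896) (l 13940416))) (a (l 13752328) (l 13862880)))) (c (c (b (a (a (l 14171200) (c (a (l 14275152) (l 14330472)) (l 14325352))) (a (c (a (l 14367856) (l 14420296)) (l 14375696)) (l 14473864))) (a (l 14140896) (c (a (b (l 14341024) (l 14307624)) (b (l 14433312) (l 14384768))) (a (l 14340984) (l 14374552))))) (a (l 14163008) (a (l 14330440) (b (a (l 14243664) (l 14443416)) (l 14357808))))) (a (l 14069504) (a (l 14262088) (c (l 14381168) (l 14338456)))))) (a (a (l 13725984) (a (l 13758464) (c (c (l 13888512) (l 13836688)) (l 13759504)))) (c (a (c (a (l 13953776) (l 14070848)) (a (l 13903216) (l 14022440))) (a (l 14164616) (c (c (b (b (l 14354920) (l 14327832)) (b (l 14288960) (l 14246656))) (l 14283336)) (l 14287104)))) (a (a (l 13826664) (l 13949328)) (l 14127992)))))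 (a (c (l 13830168) (l 13723464)) (a (b (c (c (a (l 13911224) (l 13959112)) (a (l 13859096) (l 13908192))) (a (l 13783248) (l 13831704))) (l 13850696)) (c (c (a (b (l 14029592) (l 13985072)) (b (l 14148488) (l 14045608))) (b (a (l 13980088) (l 14101352)) (a (l 13933960) (l 13995896)))) (b (a (l 13904544) (l 14028992)) (a (l 13858408) (l 13920584))))))) (c (c (l 13962616) (a (l 13866000) (l 13958824))) (l 13830408))), by decide +kernel⟩

def k25_pm_012_a : ∃ t, chk3 f_pm_012_a t 59 30 1 = true :=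
  ⟨(l 14335216), by decide +kernel⟩

def k26_pm_012_a : ∃ t, chk3 f_pm_012_a t 118 31 1 = true :=
  ⟨(b (b (b (a (c (c (c (l 14436048) (l 14443784)) (a (l 14370728) (l 14419344))) (a (l 14364752) (l 14363672))) (l 14412048)) (c (c (a (a (c (c (l 14275016) (l 14376560)) (l 14369008)) (c (l 14479368) (l 14256008))) (l 14457056)) (a (a (l 14347416) (l 14398752)) (l 14427440))) (a (a (l 14293008) (l 14366664)) (a (l 14373736) (l 14389320))))) (b (c (c (a (a (a (l 14236144) (b (l 14364360) (l 14261032))) (c (a (l 14384328) (l 14404624)) (l 14378128))) (a (b (l 14481696) (l 14413256)) (l 14483528))) (a (a (l 14219512) (l 14348128)) (a (l 14430560) (l 14437936)))) (a (l 14207824) (a (l 14369464) (l 14386064)))) (c (a (a (c (l 14135880) (l 14088080)) (l 14002816)) (c (a (l 14242080) (l 14430072)) (a (l 14342184) (l 14402080)))) (a (a (l 14014272) (l 14140952)) (a (l 14247840) (l 14344464)))))) (b (b (c (c (a (a (l 14093912) (l 14161488)) (a (l 14256032) (l 14391176))) (a (a (l 14044464) (l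 14113528)) (a (l 14210344) (l 14315872)))) (a (a (l 13970400) (l 14040504)) (l 14177200))) (a (c (l 14094464) (l 13993296)) (c (c (a (l 14208936) (l 14279848)) (a (l 14161288) (l 14233768))) (a (l 14089080) (l 14163128))))) (c (a (l 14118120) (a (l 14186672) (b (c (l 14263144) (l 14215752)) (l 14241504)))) (a (l 14015296) (b (a (l 14081296) (l 14144504)) (l 14116728)))))), by decide +kernel⟩

def k27_pm_012_a : ∃ t, chk3 f_pm_012_a t 119 31 1 = true :=
  ⟨(a (b (b (l 14403944) (c (a (b (l 14461456) (b (l 14477792) (c (l 14467904) (l 14456432)))) (l 14467480)) (a (b (c (l 14412024) (l 14375104)) (l 14398976)) (a (b (l 14395864) (l 14404312)) (l 14403152))))) (a (b (c (c (b (l 14450904) (l 14374192)) (b (l 14414856) (l 14330352))) (b (l 14346272) (l 14262936))) (c (b (c (l 14326200) (l 14280416)) (l 14294432)) (b (l 14210328) (l 14198144)))) (c (c (b (b (b (l 14513832) (l 14477256)) (l 14471080)) (b (l 14398240) (l 14382712))) (b (b (l 14471040) (l 14427104)) (b (l 14354224) (l 14337312))))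 (b (b (l 14411040) (l 14345472)) (b (l 14285984) (l 14268048)))))) (b (l 14407848) (c (c (a (b (b (l 14516152) (a (l 14498992) (l 14530336))) (b (l 14492888) (l 14444472))) (a (b (l 14506208) (l 14535224)) (l 14536968))) (a (b (b (l 14473704) (l 14486944)) (b (l 14433528) (l 14400616))) (c (c (l 14515816) (l 14504760)) (l 14491176)))) (a (b (b (l 14418592) (l 14422200)) (b (l 14368768) (l 14333080))) (c (l 14464448) (l 14260688)))))), by decide +kernel⟩

def k28_pm_012_a : ∃ t, chk3 f_pm_012_a t 30 3 1 = true :=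
  ⟨(b (b (a (l 14211952) (l 13883384)) (c (a (l 14093696) (l 13514864)) (l 13875936))) (b (c (a (c (a (l 14130176) (l 13981552)) (l 14035664)) (b (l 13718296) (l 13814472))) (a (l 13963608) (l 13732448))) (b (c (a (l 14178872) (l 13955040)) (l 14031632)) (a (b (a (l 14347968) (l 14243904)) (a (c (c (c (a (a (a (l 14496192) (l 14524512)) (c (l 14502824) (l 14504008))) (l 14468544)) (l 14481104)) (c (a (l 14485792) (l 14438808)) (l 14442272))) (l 14395112)) (l 14344984))) (c (a (l 14206032) (b (l 14023120) (c (l 14156032) (l 14217888)))) (a (l 14170448) (l 13889264))))))), by decide +kernel⟩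

def k29_pm_012_a : ∃ t, chk3 f_pm_012_a t 31 3 1 = true :=
  ⟨(b (a (c (b (a (l 13645320) (l 13493904)) (a (l 13534528) (l 13404080))) (b (l 13570528) (l 13475400))) (c (a (b (l 13393200) (l 13307456)) (l 13334464)) (a (c (l 13344504) (l 13341496)) (c (l 13260808) (l 13235856))))) (b (a (c (a (b (l 13512584) (l 13607912)) (c (b (l 13364464) (l 13456544)) (l 13436248))) (b (l 13460264) (l 13565040))) (c (b (a (c (l 13283432) (l 13268696)) (b (l 13258032) (a (l 13256192) (l 13366336)))) (a (a (c (l 13400784) (l 13405992)) (b (l 13338688) (l 13519216))) (b (l 13515976) (l 13785184)))) (a (b (l 13270376) (c (b (l 13362512) (l 13513032)) (l 13463680))) (b (c (b (l 13184592) (l 13262272)) (a (l 13193976) (b (l 13137080) (l 13240168)))) (c (a (l 13504128) (l 13665368)) (a (l 13506856) (l 13635240))))))) (a (c (b (c (a (l 13601856) (b (a (l 13582584) (l 13581808)) (a (l 13752624) (l 13847304)))) (a (l 13785176) (b (l 13627640) (l 13845312)))) (a (b (a (l 13957408) (l 13993000)) (l 14294128))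 (c (a (l 14237688) (l 14355304)) (l 14349152)))) (b (a (l 13787024) (b (l 13660976) (l 13886920))) (a (b (l 14029984) (l 14351272)) (l 14386856)))) (c (b (a (c (l 13855480) (a (l 13832064) (l 13957328))) (l 14245768)) (a (c (l 14481608) (a (l 14512368) (l 14641336))) (b (l 14748008) (l 15113608)))) (a (b (c (l 13930312) (l 13951728)) (c (l 14606920) (l 14664536))) (b (c (l 14201976) (a (l 14124920) (l 14267704))) (c (a (l 14810968) (l 14996968)) (a (l 14842128) (c (l 14986112) (l 14952808)))))))))), by decide +kernel⟩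

theorem s30_pm_012_a : ∃ t, chk3 f_pm_012_a t 15 3 1 = true := ex3_a k28_pm_012_a k29_pm_012_a

theorem s31_pm_012_a : ∃ t, chk3 f_pm_012_a t 59 31 1 = true := ex3_a k26_pm_012_a k27_pm_012_a

theorem s32_pm_012_a : ∃ t, chk3 f_pm_012_a t 59 15 1 = true := ex3_b k25_pm_012_a s31_pm_012_a

theorem s33_pm_012_a : ∃ t, chk3 f_pm_012_a t 58 61 1 = true := ex3_a k22_pm_012_a k23_pm_012_a

theorem s34_pm_012_a : ∃ t, chk3 f_pm_012_a t 58 30 1 = true := ex3_b k21_pm_012_a s33_pm_012_a

theorem s35_pm_012_a : ∃ t, chk3 f_pm_012_a t 58 15 1 = true := ex3_b s34_pm_012_a k24_pm_012_a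

theorem s36_pm_012_a : ∃ t, chk3 f_pm_012_a t 29 15 1 = true := ex3_a s35_pm_012_a s32_pm_012_a

theorem s37_pm_012_a : ∃ t, chk3 f_pm_012_a t 29 7 1 = true := ex3_b k20_pm_012_a s36_pm_012_a

theorem s38_pm_012_a : ∃ t, chk3 f_pm_012_a t 57 121 1 = true := ex3_a k16_pm_012_a k17_pm_012_a

theorem s39_pm_012_a : ∃ t, chk3 f_pm_012_a t 57 60 1 = true := ex3_b k15_pm_012_a s38_pm_012_a

theorem s40_pm_012_a : ∃ t, chk3 f_pm_012_a t 57 30 1 = true := ex3_b s39_pm_012_a k18_pm_012_a

theorem s41_pm_012_a : ∃ t, chk3 f_pm_012_a t 57 15 1 = true := ex3_b s40_pm_012_a k19_pm_012_a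

theorem s42_pm_012_a : ∃ t, chk3 f_pm_012_a t 57 7 1 = true := ex3_b k14_pm_012_a s41_pm_012_a

theorem s43_pm_012_a : ∃ t, chk3 f_pm_012_a t 56 7 1 = true := ex3_a k12_pm_012_a k13_pm_012_a

theorem s44_pm_012_a : ∃ t, chk3 f_pm_012_a t 28 7 1 = true := ex3_a s43_pm_012_a s42_pm_012_a

theorem s45_pm_012_a : ∃ t, chk3 f_pm_012_a t 14 7 1 = true := ex3_a s44_pm_012_a s37_pm_012_a

theorem s46_pm_012_a : ∃ t, chk3 f_pm_012_a t 14 3 1 = true := ex3_b k11_pm_012_a s45_pm_012_a

theorem s47_pm_012_a : ∃ t, chk3 f_pm_012_a t 7 3 1 = true := ex3_a s46_pm_012_a s30_pm_012_a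

theorem s48_pm_012_a : ∃ t, chk3 f_pm_012_a t 7 1 1 = true := ex3_b k10_pm_012_a s47_pm_012_a

theorem s49_pm_012_a : ∃ t, chk3 f_pm_012_a t 55 29 1 = true := ex3_b k7_pm_012_a k8_pm_012_a

theorem s50_pm_012_a : ∃ t, chk3 f_pm_012_a t 55 14 1 = true := ex3_b k6_pm_012_a s49_pm_012_a

theorem s51_pm_012_a : ∃ t, chk3 f_pm_012_a t 27 14 1 = true := ex3_a k5_pm_012_a s50_pm_012_a

theorem s52_pm_012_a : ∃ t, chk3 f_pm_012_a t 27 7 1 = true := ex3_b s51_pm_012_a k9_pm_012_a

theorem s53_pm_012_a : ∃ t, chk3 f_pm_012_a t 27 3 1 = true := ex3_b k4_pm_012_a s52_pm_012_a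

theorem s54_pm_012_a : ∃ t, chk3 f_pm_012_a t 13 3 1 = true := ex3_a k3_pm_012_a s53_pm_012_a

theorem s55_pm_012_a : ∃ t, chk3 f_pm_012_a t 6 3 1 = true := ex3_a k2_pm_012_a s54_pm_012_a

theorem s56_pm_012_a : ∃ t, chk3 f_pm_012_a t 6 1 1 = true := ex3_b k1_pm_012_a s55_pm_012_a

theorem s57_pm_012_a : ∃ t, chk3 f_pm_012_a t 3 1 1 = true := ex3_a s56_pm_012_a s48_pm_012_a

theorem s58_pm_012_a : ∃ t, chk3 f_pm_012_a t 1 1 1 = true := ex3_a k0_pm_012_a s57_pm_012_a

theorem c_pm_012_a : CertNX 67108864 469762048 0 420477299 1046898278 26843546 3 false true false .pnp 0 1 2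
    ndN2q0 ndN1q2a pcN1 Cut.none Ext.none :=
  certNX2 (fam := false) (s1 := true) (s2 := false) (a := 0) (b := 1) (c := 2) (cn := .pnp) (n1 := ndN2q0) (n2 := ndN1q2a) (pc := pcN1) (cut := Cut.none) (xt := Ext.none) (P1 := 67108864) (W1 := 469762048) (P2 := 0) (W2 := 420477299) (P3 := 1046898278) (W3 := 26843546) (N0 := 3)
    rfl (fun _ => rfl) s58_pm_012_a

noncomputable def f_pm_012_b : ℕ → ℕ → ℕ → ℕ → Bool := onCell 536870912 536870912 1239849684 370763052 1046898278 26843546
    (rowNX 3 2 false true false .pnp 0 1 2 (qsf 67108864 469762048 1239849684 370763052 1) ndN2q0 ndN1q2b pcN1 Cut.none Ext.none)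

def k0_pm_012_b : ∃ t, chk3 f_pm_012_b t 1 1 1 = true :=
  ⟨(a (a (l 2) (b (l 16777216) (l 2))) (a (a (b (l 16657896) (l 2)) (b (a (l 16438544) (b (l 16152744) (l 16120704))) (a (l 16432200) (l 16114296)))) (b (b (a (a (l 15652944) (l 15214960)) (a (b (a (l 14726704) (b (l 14666664) (l 14648344))) (l 14728392)) (b (a (b (l 14381408) (l 14367144)) (c (l 14151184) (l 14087304))) (a (l 14322920) (b (c (l 14123392) (l 14062208)) (l 14064632)))))) (a (l 15156376) (a (l 14656040) (a (l 14229976) (l 13982656))))) (a (a (l 15563040) (l 15084984)) (a (l 14586840) (b (l 13842776) (l 13991992))))))), by decide +kernel⟩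

theorem c_pm_012_b : CertNX 67108864 469762048 1239849684 370763052 1046898278 26843546 3 false true false .pnp 0 1 2
    ndN2q0 ndN1q2b pcN1 Cut.none Ext.none :=
  certNX2 (fam := false) (s1 := true) (s2 := false) (a := 0) (b := 1) (c := 2) (cn := .pnp) (n1 := ndN2q0) (n2 := ndN1q2b) (pc := pcN1) (cut := Cut.none) (xt := Ext.none) (P1 := 67108864) (W1 := 469762048) (P2 := 1239849684) (W2 := 370763052) (P3 := 1046898278) (W3 := 26843546) (N0 := 3)
    rfl (fun _ => rfl) k0_pm_012_b

noncomputable def f_pm_022_a : ℕ → ℕ → ℕ → ℕ → Bool := onCell 67108864 469762048 0 420477299 1046898278 26843546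
    (rowNX 3 0 false true false .pp 0 2 2 (qsf 67108864 469762048 0 420477299 2) ndN2q0 ndN1q2a pcN2 Cut.none Ext.none)

def k0_pm_022_a : ∃ t, chk3 f_pm_022_a t 8 2 1 = true :=
  ⟨(a (b (c (a (a (b (l 16093456) (l 15760688)) (c (b (l 15867728) (l 15604576)) (l 15760064))) (b (c (l 15284200) (l 15390288)) (c (c (l 15273384) (l 15266336)) (l 15237664)))) (a (a (l 16016320) (l 15717352)) (l 15268048))) (c (c (a (b (a (c (l 15770056) (l 15878880)) (l 15390936)) (a (c (l 15768976) (l 15708248)) (c (l 15425136) (l 15422744)))) (b (c (l 15099760) (l 15093312)) (l 14884736))) (a (b (l 15496344) (a (l 15704560) (l 15387704))) (b (l 14849928) (c (a (l 15060128) (l 14691224)) (l 14706568))))) (a (b (l 15639632) (l 15507400)) (b (l 14997040) (l 14796408))))) (b (c (a (c (a (l 14837216) (l 14522552)) (b (a (l 14893280) (l 14581136)) (a (l 14724152) (l 14406888)))) (c (l 14345056) (b (l 14399840) (l 14216728)))) (a (a (l 14741600) (l 14416416)) (b (l 14340800) (l 14151704)))) (c (a (c (b (l 14400632)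 (l 14178192)) (b (a (l 14537904) (c (l 14217920) (l 14202888))) (a (c (l 14331960) (l 14303144)) (l 13972776)))) (b (l 14034288) (l 13810928))) (a (c (b (l 14095808) (a (l 14275856) (c (a (l 14012328) (l 13882016)) (l 13924336)))) (l 14158312)) (c (b (c (l 13978888) (l 13957440)) (c (l 13751584) (b (l 13779728) (l 13661592)))) (b (l 13916224) (l 13686728))))))), by decide +kernel⟩

def k1_pm_022_a : ∃ t, chk3 f_pm_022_a t 9 2 1 = true :=
  ⟨(b (c (a (l 14039952) (l 13710360)) (a (c (b (a (l 14161272) (l 13967040)) (a (c (l 13989600) (l 13960696)) (l 13770392))) (a (l 14026896) (b (l 13912144) (l 13544432)))) (a (c (l 13682752) (b (l 13730944) (l 13526112))) (l 1)))) (c (a (l 13618776) (l 13274784)) (a (c (b (a (c (l 13777072) (l 13748040)) (l 13552840)) (l 13419304)) (b (a (l 13694376) (c (l 13510720) (l 13479040))) (a (c (b (l 13542272) (l 13418336)) (l 13446088)) (c (l 13267024) (b (l 13298344) (l 13169192)))))) (b (a (l 13330688) (l 1)) (l 1))))), by decide +kernel⟩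

def k2_pm_022_a : ∃ t, chk3 f_pm_022_a t 5 2 1 = true :=
  ⟨(l 1), by decide +kernel⟩

def k3_pm_022_a : ∃ t, chk3 f_pm_022_a t 8 6 1 = true :=
  ⟨(a (c (a (a (b (c (c (l 15563088) (l 15318760)) (b (l 15588624) (l 15242712))) (c (l 15335872) (c (l 15119104) (b (l 15388128) (c (l 15275816) (l 15279016)))))) (b (c (l 15204504) (c (b (l 15264008) (l 15135600)) (l 15096832))) (c (l 14963256) (b (c (l 15028408) (l 14967584)) (l 14902096))))) (b (c (l 14662680) (c (l 14646168) (a (b (l 14885704) (l 14747248)) (l 14235016)))) (c (l 14408448) (b (l 14453376) (l 14315808))))) (b (a (l 15288752) (c (c (b (l 14670856) (a (l 14748856) (l 14346304))) (l 14589536)) (l 14554144))) (a (c (b (c (l 15013272) (l 15153760)) (c (a (l 15258248) (c (l 14881032) (l 14882824))) (l 15047304))) (l 15076704)) (c (b (c (a (l 14467112) (l 14237488)) (a (l 14608128) (l 14205056))) (c (l 14295120) (a (c (l 14472992) (l 14470936)) (c (l 14086424) (l 14070800))))) (a (l 14501424) (b (l 14175360) (l 13997640)))))))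 (c (a (b (a (c (l 14099032) (l 14074768)) (l 13745792)) (a (l 13821496) (l 13470832))) (b (l 13553896) (l 13281616))) (b (a (c (c (a (b (l 14092248) (l 13977464)) (l 13691640)) (a (l 14018968) (b (l 13739712) (l 13591840)))) (a (l 13977240) (l 13625168))) (c (b (l 13397400) (l 13409152)) (c (b (l 13496328) (a (l 13413296) (l 13310176))) (l 13354496)))) (c (a (c (l 13592288) (a (b (l 13818480) (l 13674336)) (l 13379272))) (l 13192896)) (a (a (c (b (l 13796584) (c (l 13653984) (l 13636144))) (l 13682464)) (c (b (a (l 13486096) (l 13360632)) (l 13274344)) (b (l 13401960) (a (l 13304040) (l 13177048))))) (c (b (l 13221920) (l 13071792)) (b (a (l 13243624) (l 13132848)) (a (l 13092656) (l 12982104))))))))), by decide +kernel⟩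

def k4_pm_022_a : ∃ t, chk3 f_pm_022_a t 16 7 1 = true :=
  ⟨(a (c (b (b (c (l 14982288) (a (l 15172144) (l 14776880))) (a (l 15155944) (l 14775976))) (b (l 14831480) (l 14935168))) (b (c (b (c (a (b (l 15177560) (l 15135288)) (l 14768528)) (a (l 15120416) (b (l 14772816) (c (l 14744816) (l 14726632))))) (c (l 14950840) (a (c (l 15008280) (b (l 15131416) (l 15132464))) (l 14566320)))) (b (a (l 15106152) (l 14729176)) (c (a (l 15118976) (c (b (l 14716528) (l 14725264)) (l 14578832))) (l 14899384)))) (c (b (a (l 15160032) (l 14758752)) (l 15021664)) (b (b (c (a (c (l 15138232) (l 15124104)) (c (l 14736048) (l 14725936))) (a (l 15131248) (c (l 14712048) (l 14703208)))) (c (a (c (l 15159792) (l 14982992)) (l 14748400)) (a (l 14980752) (c (l 14734200) (l 14534072))))) (c (l 14835960) (a (b (c (a (l 15275008) (l 15071000)) (a (l 15264952) (l 15061432))) (c (l 15213056) (a (l 15139760) (l 15101320)))) (b (c (l 14762208) (l 14688104)) (l 1)))))))) (b (c (b (l 14216216) (l 14198808)) (c (b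 (c (l 14172232) (a (b (l 14366504) (l 14338688)) (l 13952512))) (l 14139856)) (b (c (a (b (l 14354728) (l 14221776)) (b (l 13937464) (l 13907992))) (a (l 14311360) (l 13898456))) (c (a (b (c (l 14319168) (l 14303272)) (l 14310520)) (l 13899720)) (a (b (l 14278704) (c (l 14294024) (l 14279872))) (b (c (l 13881752) (l 13865888)) (c (l 13880208) (l 13865672)))))))) (b (c (l 14215696) (c (l 14150864) (c (l 14120136) (a (b (c (l 14303392) (l 14290616)) (l 14311784)) (l 13884232))))) (l 1)))), by decide +kernel⟩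

def k5_pm_022_a : ∃ t, chk3 f_pm_022_a t 17 7 1 = true :=
  ⟨(b (a (a (c (l 246987394519) (c (l 13537320) (b (c (l 13515120) (b (l 13497792) (c (l 13474640) (l 13457888)))) (c (l 13481240) (l 13305104))))) (b (c (l 13274608) (c (l 13183184) (c (l 13137080) (b (a (l 13185576) (l 13058624)) (l 13084656))))) (l 1))) (c (l 13059504) (b (l 12950544) (l 1)))) (l 1)), by decide +kernel⟩

def k6_pm_022_a : ∃ t, chk3 f_pm_022_a t 9 3 1 = true :=
  ⟨(a (b (c (l 13104648) (c (l 13010856) (b (a (c (l 13216064) (b (l 13252064) (l 13112208))) (l 12980144)) (l 12753544)))) (l 1)) (l 1)), by decide +kernel⟩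

def k7_pm_022_a : ∃ t, chk3 f_pm_022_a t 5 3 1 = true :=
  ⟨(l 1), by decide +kernel⟩

def k8_pm_022_a : ∃ t, chk3 f_pm_022_a t 3 1 1 = true :=
  ⟨(l 1), by decide +kernel⟩

theorem s9_pm_022_a : ∃ t, chk3 f_pm_022_a t 8 7 1 = true := ex3_a k4_pm_022_a k5_pm_022_a

theorem s10_pm_022_a : ∃ t, chk3 f_pm_022_a t 8 3 1 = true := ex3_b k3_pm_022_a s9_pm_022_a

theorem s11_pm_022_a : ∃ t, chk3 f_pm_022_a t 4 3 1 = true := ex3_a s10_pm_022_a k6_pm_022_a

theorem s12_pm_022_a : ∃ t, chk3 f_pm_022_a t 2 3 1 = true := ex3_a s11_pm_022_a k7_pm_022_a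

theorem s13_pm_022_a : ∃ t, chk3 f_pm_022_a t 4 2 1 = true := ex3_a k0_pm_022_a k1_pm_022_a

theorem s14_pm_022_a : ∃ t, chk3 f_pm_022_a t 2 2 1 = true := ex3_a s13_pm_022_a k2_pm_022_a

theorem s15_pm_022_a : ∃ t, chk3 f_pm_022_a t 2 1 1 = true := ex3_b s14_pm_022_a s12_pm_022_a

theorem s16_pm_022_a : ∃ t, chk3 f_pm_022_a t 1 1 1 = true := ex3_a s15_pm_022_a k8_pm_022_a

theorem c_pm_022_a : CertNX 67108864 469762048 0 420477299 1046898278 26843546 3 false true false .pp 0 2 2
    ndN2q0 ndN1q2a pcN2 Cut.none Ext.none :=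
  certNX0 (fam := false) (s1 := true) (s2 := false) (a := 0) (b := 2) (c := 2) (cn := .pp) (n1 := ndN2q0) (n2 := ndN1q2a) (pc := pcN2) (cut := Cut.none) (xt := Ext.none) (P1 := 67108864) (W1 := 469762048) (P2 := 0) (W2 := 420477299) (P3 := 1046898278) (W3 := 26843546) (N0 := 3)
    rfl s16_pm_022_a

noncomputable def f_pm_022_b : ℕ → ℕ → ℕ → ℕ → Bool := onCell 67108864 469762048 1073741824 536870912 1046898278 26843546
    (rowNX 3 1 false true false .pp 0 2 2 (qsf 67108864 469762048 1239849684 370763052 2) ndN2q0 ndN1q2b pcN2 Cut.none Ext.none)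

def k0_pm_022_b : ∃ t, chk3 f_pm_022_b t 1 4 1 = true :=
  ⟨(a (a (a (b (b (l 1) (a (l 1) (a (b (l 1) (c (c (l 14832120) (l 461201214375)) (l 14740272))) (c (c (l 14539944) (l 220682437623)) (l 14439960))))) (a (b (a (b (l 1) (c (a (l 16077192) (l 15893320)) (a (l 16190560) (l 15878248)))) (c (b (l 449391315015) (l 15302120)) (l 15381200))) (a (c (l 15720040) (l 15802344)) (c (l 15316072) (l 15268864)))) (b (c (a (b (c (l 14768552) (l 14867304)) (a (l 15031664) (l 14774840))) (b (l 14652888) (l 14675064))) (a (b (l 14815528) (l 14824272)) (l 14575640))) (a (c (l 14792104) (l 14723680)) (l 14547256))))) (b (c (c (a (l 288864631607) (l 14146904)) (b (l 417176343223) (b (l 14160664) (a (l 14396920) (l 14258360))))) (b (c (a (l 422545119191) (l 13950712)) (b (a (l 14011312) (l 13848880)) (l 13823672))) (a (l 14277648) (l 14130920)))) (b (c (b (a (l 14506264) (l 14374520)) (a (l 14536936) (l 14413840))) (a (l 14426360) (l 14292168))) (a (l 14425224) (l 14319944))))) (b (a (c (b (l 13996240)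 (c (l 14223600) (b (l 14128176) (l 14237752)))) (b (c (b (l 13873848) (l 13978008)) (b (a (l 13829232) (l 13816784)) (l 13930864))) (a (l 14113056) (l 14101536)))) (c (b (l 13936832) (c (l 14169720) (l 14119088))) (b (c (l 13865936) (l 13810624)) (l 14051616)))) (a (b (c (b (c (l 14386432) (l 14319672)) (l 14398432)) (l 14271784)) (l 14320392)) (b (c (l 14093568) (l 14220736)) (l 14295248))))) (b (c (b (l 13817568) (a (c (l 14086864) (l 14034120)) (l 13997336))) (b (a (c (l 13772024) (l 13609552)) (l 13675064)) (a (l 13964704) (l 13904304)))) (b (a (c (b (l 14227384) (l 14285424)) (l 14142520)) (l 14142984)) (l 14234288)))), by decide +kernel⟩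

def k1_pm_022_b : ∃ t, chk3 f_pm_022_b t 1 5 1 = true :=
  ⟨(a (a (b (a (a (b (b (a (l 15683424) (l 15234784)) (a (a (l 15967496) (l 15807072)) (l 15444472))) (a (b (a (l 16142664) (l 16174216)) (l 15780912)) (b (l 15785296) (l 16161848)))) (b (b (a (c (l 14783240) (l 14714536)) (l 14564720)) (a (l 14984312) (l 14811232))) (a (c (l 15566336) (l 15547064)) (l 15401648)))) (b (b (l 14429064) (l 14687136)) (l 15169624))) (a (a (b (a (c (l 15547344) (l 15594592)) (a (l 16137696) (l 16419504))) (a (l 15310264) (l 15977624))) (b (a (b (l 16036936) (l 16349472)) (l 16049568)) (a (l 16544784) (l 16404368)))) (b (l 15913656) (l 16278088)))) (b (b (a (b (l 14417816) (l 14682912)) (l 14559040)) (a (l 15252872) (l 15247944))) (b (a (l 15862568) (l 15832824)) (a (l 16222600) (l 16187704))))) (b (b (b (l 14404288) (l 14681392)) (l 15220328)) (b (l 15779128) (l 16132392)))), by decide +kernel⟩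

def k2_pm_022_b : ∃ t, chk3 f_pm_022_b t 1 3 1 = true :=
  ⟨(a (b (a (a (a (b (a (l 15044496) (l 15770912)) (c (l 15140144) (l 15317608))) (b (a (l 16341224) (l 16593888)) (a (l 16397240) (l 16649424)))) (b (l 16510728) (l 16744592))) (b (a (l 16487384) (l 16474672)) (a (l 16755952) (l 2)))) (a (a (a (b (c (l 15386008) (l 15332472)) (l 15278576)) (b (l 16455176) (l 2))) (b (l 16735584) (l 2))) (l 2))) (l 2)), by decide +kernel⟩

theorem s3_pm_022_b : ∃ t, chk3 f_pm_022_b t 1 2 1 = true := ex3_b k0_pm_022_b k1_pm_022_b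

theorem s4_pm_022_b : ∃ t, chk3 f_pm_022_b t 1 1 1 = true := ex3_b s3_pm_022_b k2_pm_022_b

theorem c_pm_022_b : CertNX 67108864 469762048 1239849684 370763052 1046898278 26843546 3 false true false .pp 0 2 2
    ndN2q0 ndN1q2b pcN2 Cut.none Ext.none :=
  certNX1 (fam := false) (s1 := true) (s2 := false) (a := 0) (b := 2) (c := 2) (cn := .pp) (n1 := ndN2q0) (n2 := ndN1q2b) (pc := pcN2) (cut := Cut.none) (xt := Ext.none) (P1 := 67108864) (W1 := 469762048) (P2 := 1239849684) (W2 := 370763052) (P3 := 1046898278) (W3 := 26843546) (N0 := 3)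
    rfl (fun _ => rfl) s4_pm_022_b

noncomputable def f_pm_023 : ℕ → ℕ → ℕ → ℕ → Bool := onCell 67108864 469762048 1073741824 536870912 1046898278 26843546
    (rowNX 3 1 false true false .up 0 2 3 (qsf 67108864 469762048 1610612736 469762048 2) ndN2q0 ndN1q3 pcN2 Cut.none Ext.none)

def k0_pm_023 : ∃ t, chk3 f_pm_023 t 1 1 1 = true :=
  ⟨(b (b (a (l 1) (b (a (l 1) (c (l 406975427639) (b (l 13675064) (l 13904304)))) (b (a (l 1) (l 14142984)) (l 14234288)))) (a (a (l 1) (b (l 1) (b (l 658771762119) (l 511133264775)))) (b (b (b (l 14404288) (l 14681392)) (l 15220328)) (b (l 15779128) (l 16132392))))) (a (b (a (a (l 1) (b (l 1) (l 16744592))) (b (a (l 16487384) (l 16474672)) (a (l 16755952) (l 16766336)))) (b (a (a (a (l 723195340071) (l 16455176)) (l 16735584)) (l 16762032)) (a (a (a (l 15278576) (l 16518088)) (l 16735584)) (l 16762032)))) (b (b (l 16450976) (l 16765688)) (b (l 16766344) (l 4))))), by decide +kernel⟩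

theorem c_pm_023 : CertNX 67108864 469762048 1610612736 469762048 1046898278 26843546 3 false true false .up 0 2 3
    ndN2q0 ndN1q3 pcN2 Cut.none Ext.none :=
  certNX1 (fam := false) (s1 := true) (s2 := false) (a := 0) (b := 2) (c := 3) (cn := .up) (n1 := ndN2q0) (n2 := ndN1q3) (pc := pcN2) (cut := Cut.none) (xt := Ext.none) (P1 := 67108864) (W1 := 469762048) (P2 := 1610612736) (W2 := 469762048) (P3 := 1046898278) (W3 := 26843546) (N0 := 3)
    rfl (fun _ => rfl) k0_pm_023

noncomputable def f_pm_033 : ℕ → ℕ → ℕ → ℕ → Bool := onCell 67108864 469762048 1610612736 536870912 1046898278 26843546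
    (rowNX 3 1 false true false .pnn 0 3 3 (qsf 67108864 469762048 1610612736 469762048 3) ndN2q0 ndN1q3 pcN3 Cut.none Ext.none)

def k0_pm_033 : ∃ t, chk3 f_pm_033 t 1 1 1 = true :=
  ⟨(b (b (a (a (a (b (a (l 15152744) (l 16518088)) (l 4)) (l 4)) (l 4)) (l 4)) (a (l 4) (a (l 4) (l 2)))) (a (b (a (l 4) (b (l 4) (l 2))) (a (b (l 4) (l 2)) (l 2))) (l 2))), by decide +kernel⟩

theorem c_pm_033 : CertNX 67108864 469762048 1610612736 469762048 1046898278 26843546 3 false true false .pnn 0 3 3
    ndN2q0 ndN1q3 pcN3 Cut.none Ext.none :=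
  certNX1 (fam := false) (s1 := true) (s2 := false) (a := 0) (b := 3) (c := 3) (cn := .pnn) (n1 := ndN2q0) (n2 := ndN1q3) (pc := pcN3) (cut := Cut.none) (xt := Ext.none) (P1 := 67108864) (W1 := 469762048) (P2 := 1610612736) (W2 := 469762048) (P3 := 1046898278) (W3 := 26843546) (N0 := 3)
    rfl (fun _ => rfl) k0_pm_033

noncomputable def f_pm_101 : ℕ → ℕ → ℕ → ℕ → Bool := onCell 536870912 536870912 536870912 536870912 1046898278 26843546
    (rowNX 3 0 false true false .npn 1 0 1 (qsf 536870912 536870912 536870912 536870912 0) ndN2q1 ndN1q1 pcN0 Cut.none Ext.none)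

def k0_pm_101 : ∃ t, chk3 f_pm_101 t 1 1 1 = true :=
  ⟨(l 4), by decide +kernel⟩

theorem c_pm_101 : CertNX 536870912 536870912 536870912 536870912 1046898278 26843546 3 false true false .npn 1 0 1
    ndN2q1 ndN1q1 pcN0 Cut.none Ext.none :=
  certNX0 (fam := false) (s1 := true) (s2 := false) (a := 1) (b := 0) (c := 1) (cn := .npn) (n1 := ndN2q1) (n2 := ndN1q1) (pc := pcN0) (cut := Cut.none) (xt := Ext.none) (P1 := 536870912) (W1 := 536870912) (P2 := 536870912) (W2 := 536870912) (P3 := 1046898278) (W3 := 26843546) (N0 := 3)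
    rfl k0_pm_101

noncomputable def f_pm_102_a : ℕ → ℕ → ℕ → ℕ → Bool := onCell 536870912 536870912 0 420477299 1046898278 26843546
    (rowNX 3 0 false true false .npp 1 0 2 (qsf 536870912 536870912 0 420477299 0) ndN2q1 ndN1q2a pcN0 Cut.none Ext.none)

def k0_pm_102_a : ∃ t, chk3 f_pm_102_a t 1 1 1 = true :=
  ⟨(a (a (b (l 2) (b (l 16772600) (b (l 16707520) (l 16393072)))) (b (c (l 16776592) (l 16776568)) (b (l 16772600) (b (l 16707520) (l 16393072))))) (b (a (a (b (l 16740816) (l 16741336)) (b (l 16368064) (l 16347768))) (a (a (l 16045288) (a (b (l 15759160) (b (l 15759632) (l 15771088))) (b (b (a (l 15613160) (l 15518760)) (a (l 15613400) (l 15531080))) (l 15621864)))) (b (a (b (a (l 15412072) (c (l 15316232) (l 15259512))) (c (l 15370752) (l 15365184))) (b (c (b (l 14966408) (l 15093216)) (l 15067320)) (c (b (l 15180056) (b (l 15209880) (l 15223160))) (a (l 15199520) (l 15090576))))) (a (l 15463200) (l 15218344))))) (a (b (a (l 16743072) (l 16475816)) (b (a (l 16704224) (a (l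 16516152) (a (l 16399240) (l 16281456)))) (a (l 16426680) (a (l 16315728) (l 16169768))))) (a (b (a (b (l 16050392) (l 16082712)) (b (l 15766520) (l 15861264))) (b (a (l 16101608) (l 15920432)) (a (l 15965112) (l 15721208)))) (b (a (l 15497808) (b (l 15369952) (l 15457840))) (b (a (l 15694176) (a (l 15533384) (b (l 15442680) (a (l 15398024) (l 15327520))))) (b (a (l 15576400) (a (b (l 15414472) (l 15321072)) (l 15209512))) (a (l 15388080) (a (l 15151536) (c (l 15005304) (l 14943608))))))))))), by decide +kernel⟩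

theorem c_pm_102_a : CertNX 536870912 536870912 0 420477299 1046898278 26843546 3 false true false .npp 1 0 2
    ndN2q1 ndN1q2a pcN0 Cut.none Ext.none :=
  certNX0 (fam := false) (s1 := true) (s2 := false) (a := 1) (b := 0) (c := 2) (cn := .npp) (n1 := ndN2q1) (n2 := ndN1q2a) (pc := pcN0) (cut := Cut.none) (xt := Ext.none) (P1 := 536870912) (W1 := 536870912) (P2 := 0) (W2 := 420477299) (P3 := 1046898278) (W3 := 26843546) (N0 := 3)
    rfl k0_pm_102_a

noncomputable def f_pm_102_b : ℕ → ℕ → ℕ → ℕ → Bool := onCell 536870912 536870912 1239849684 370763052 1046898278 26843546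
    (rowNX 3 0 false true false .npp 1 0 2 (qsf 536870912 536870912 1239849684 370763052 0) ndN2q1 ndN1q2b pcN0 Cut.none Ext.none)

def k0_pm_102_b : ∃ t, chk3 f_pm_102_b t 1 1 1 = true :=
  ⟨(a (b (a (l 2) (l 16777216)) (l 2)) (b (a (a (l 16740768) (b (a (l 16559304) (l 16383992)) (l 16472856))) (b (a (b (a (l 16044816) (l 15662256)) (l 15855624)) (b (a (b (b (a (a (l 15426104) (l 15354720)) (c (l 15272464) (l 15218264))) (a (l 15369360) (l 15198544))) (a (l 15366032) (b (a (l 15217160) (l 15126392)) (l 15165240)))) (b (c (a (l 15110440) (b (l 15011176) (l 14949624))) (a (l 15051968) (l 14909184))) (a (b (l 15006712) (l 14976304)) (l 14831592)))) (a (l 15266032) (b (a (l 14962920) (b (l 14777736) (l 14761232))) (l 14859656))))) (a (l 15855624) (a (l 15266032) (l 14859648))))) (a (a (l 2) (l 16472856)) (a (l 15855624) (b (l 15064600) (l 15064600)))))), by decide +kernel⟩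

theorem c_pm_102_b : CertNX 536870912 536870912 1239849684 370763052 1046898278 26843546 3 false true false .npp 1 0 2
    ndN2q1 ndN1q2b pcN0 Cut.none Ext.none :=
  certNX0 (fam := false) (s1 := true) (s2 := false) (a := 1) (b := 0) (c := 2) (cn := .npp) (n1 := ndN2q1) (n2 := ndN1q2b) (pc := pcN0) (cut := Cut.none) (xt := Ext.none) (P1 := 536870912) (W1 := 536870912) (P2 := 1239849684) (W2 := 370763052) (P3 := 1046898278) (W3 := 26843546) (N0 := 3)
    rfl k0_pm_102_b

noncomputable def f_pm_112_a : ℕ → ℕ → ℕ → ℕ → Bool := onCell 536870912 536870912 0 420477299 1046898278 26843546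
    (rowNX 3 2 false true false .dn 1 1 2 (qsf 536870912 536870912 0 420477299 1) ndN2q1 ndN1q2a pcN1 Cut.none Ext.none)

def k0_pm_112_a : ∃ t, chk3 f_pm_112_a t 1 1 1 = true :=
  ⟨(a (b (a (b (l 16777120) (l 16776040)) (l 16776576)) (b (a (l 16772600) (l 16772600)) (a (b (l 16707520) (l 16372104)) (l 1)))) (l 1)), by decide +kernel⟩

theorem c_pm_112_a : CertNX 536870912 536870912 0 420477299 1046898278 26843546 3 false true false .dn 1 1 2
    ndN2q1 ndN1q2a pcN1 Cut.none Ext.none :=
  certNX2 (fam := false) (s1 := true) (s2 := false) (a := 1) (b := 1) (c := 2) (cn := .dn) (n1 := ndN2q1) (n2 := ndN1q2a) (pc := pcN1) (cut := Cut.none) (xt := Ext.none) (P1 := 536870912) (W1 := 536870912) (P2 := 0) (W2 := 420477299) (P3 := 1046898278) (W3 := 26843546) (N0 := 3)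
    rfl (fun _ => rfl) k0_pm_112_a

noncomputable def f_pm_112_b : ℕ → ℕ → ℕ → ℕ → Bool := onCell 536870912 536870912 1239849684 370763052 1046898278 26843546
    (rowNX 3 2 false true false .dn 1 1 2 (qsf 536870912 536870912 1239849684 370763052 1) ndN2q1 ndN1q2b pcN1 Cut.none Ext.none)

def k0_pm_112_b : ∃ t, chk3 f_pm_112_b t 1 1 1 = true :=
  ⟨(b (a (a (b (l 16777216) (l 16755944)) (l 16777216)) (a (a (l 16678872) (a (l 16438544) (l 1))) (l 1))) (a (a (b (a (l 16434160) (l 16704264)) (a (l 59690448103) (l 16258984))) (b (l 16776536) (l 16644248))) (a (a (l 16721328) (l 357588080455)) (a (l 399462164551) (a (l 14586840) (l 421471196711)))))), by decide +kernel⟩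

theorem c_pm_112_b : CertNX 536870912 536870912 1239849684 370763052 1046898278 26843546 3 false true false .dn 1 1 2
    ndN2q1 ndN1q2b pcN1 Cut.none Ext.none :=
  certNX2 (fam := false) (s1 := true) (s2 := false) (a := 1) (b := 1) (c := 2) (cn := .dn) (n1 := ndN2q1) (n2 := ndN1q2b) (pc := pcN1) (cut := Cut.none) (xt := Ext.none) (P1 := 536870912) (W1 := 536870912) (P2 := 1239849684) (W2 := 370763052) (P3 := 1046898278) (W3 := 26843546) (N0 := 3)
    rfl (fun _ => rfl) k0_pm_112_b

noncomputable def f_pm_113 : ℕ → ℕ → ℕ → ℕ → Bool := onCell 536870912 536870912 536870912 536870912 1046898278 26843546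
    (rowNX 3 1 false true false .nn 1 1 3 (qsf 536870912 536870912 1610612736 469762048 1) ndN2q1 ndN1q3 pcN1 Cut.none Ext.none)

def k0_pm_113 : ∃ t, chk3 f_pm_113 t 1 1 1 = true :=
  ⟨(b (a (l 397318029319) (a (l 356514967383) (b (a (l 15855624) (l 15064600)) (a (l 15855624) (l 15064600))))) (b (a (b (l 16721416) (b (l 16438656) (l 16131528))) (a (b (l 16546344) (l 16181896)) (b (l 15433000) (a (l 15533688) (l 14796856))))) (a (b (a (l 15350072) (l 15411408)) (b (l 14628152) (a (l 14002088) (l 14099088)))) (a (b (l 15379104) (a (l 14493344) (l 14379496))) (b (a (l 14882800) (l 14301728)) (a (l 14060296) (b (l 13971936) (l 13973664)))))))), by decide +kernel⟩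

theorem c_pm_113 : CertNX 536870912 536870912 1610612736 469762048 1046898278 26843546 3 false true false .nn 1 1 3
    ndN2q1 ndN1q3 pcN1 Cut.none Ext.none :=
  certNX1 (fam := false) (s1 := true) (s2 := false) (a := 1) (b := 1) (c := 3) (cn := .nn) (n1 := ndN2q1) (n2 := ndN1q3) (pc := pcN1) (cut := Cut.none) (xt := Ext.none) (P1 := 536870912) (W1 := 536870912) (P2 := 1610612736) (W2 := 469762048) (P3 := 1046898278) (W3 := 26843546) (N0 := 3)
    rfl (fun _ => rfl) k0_pm_113

noncomputable def f_pm_123 : ℕ → ℕ → ℕ → ℕ → Bool := onCell 1073741824 536870912 1610612736 469762048 1046898278 26843546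
    (rowNX 3 2 false true false .npn 1 2 3 (qsf 536870912 536870912 1610612736 469762048 2) ndN2q1 ndN1q3 pcN2 Cut.none Ext.none)

def k0_pm_123 : ∃ t, chk3 f_pm_123 t 1 1 1 = true :=
  ⟨(b (a (a (a (c (a (l 13815336) (l 355436082535)) (a (b (l 13674208) (l 13735304)) (l 13928720))) (a (c (l 368858245655) (l 14105840)) (l 14223688))) (a (a (l 406439859687) (l 15217176)) (a (l 15777888) (l 16138912)))) (l 1)) (a (a (a (b (a (c (l 13943576) (l 13841912)) (c (l 14139624) (l 14050472))) (a (b (l 13868232) (l 13824016)) (b (l 14136456) (l 14226992)))) (b (a (l 14249344) (l 14269032)) (a (b (l 14343792) (l 14452136)) (l 14353704)))) (a (a (b (l 14549592) (l 14564440)) (l 15236960)) (a (l 15809304) (l 16153864)))) (a (a (l 16450584) (l 16756048)) (l 445099735607)))), by decide +kernel⟩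

theorem c_pm_123 : CertNX 536870912 536870912 1610612736 469762048 1046898278 26843546 3 false true false .npn 1 2 3
    ndN2q1 ndN1q3 pcN2 Cut.none Ext.none :=
  certNX2 (fam := false) (s1 := true) (s2 := false) (a := 1) (b := 2) (c := 3) (cn := .npn) (n1 := ndN2q1) (n2 := ndN1q3) (pc := pcN2) (cut := Cut.none) (xt := Ext.none) (P1 := 536870912) (W1 := 536870912) (P2 := 1610612736) (W2 := 469762048) (P3 := 1046898278) (W3 := 26843546) (N0 := 3)
    rfl (fun _ => rfl) k0_pm_123

noncomputable def f_pm_133 : ℕ → ℕ → ℕ → ℕ → Bool := onCell 536870912 536870912 1610612736 469762048 1046898278 26843546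
    (rowNX 3 0 false true false .dn 1 3 3 (qsf 536870912 536870912 1610612736 469762048 3) ndN2q1 ndN1q3 pcN3 Cut.none Ext.none)

def k0_pm_133 : ∃ t, chk3 f_pm_133 t 1 1 1 = true :=
  ⟨(l 1), by decide +kernel⟩

theorem c_pm_133 : CertNX 536870912 536870912 1610612736 469762048 1046898278 26843546 3 false true false .dn 1 3 3
    ndN2q1 ndN1q3 pcN3 Cut.none Ext.none :=
  certNX0 (fam := false) (s1 := true) (s2 := false) (a := 1) (b := 3) (c := 3) (cn := .dn) (n1 := ndN2q1) (n2 := ndN1q3) (pc := pcN3) (cut := Cut.none) (xt := Ext.none) (P1 := 536870912) (W1 := 536870912) (P2 := 1610612736) (W2 := 469762048) (P3 := 1046898278) (W3 := 26843546) (N0 := 3)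
    rfl k0_pm_133

noncomputable def f_pm_202_aa : ℕ → ℕ → ℕ → ℕ → Bool := onCell 0 420477299 0 420477299 1046898278 26843546
    (rowNX 3 0 false true false .pp 2 0 2 (qsf 0 420477299 0 420477299 0) ndN2q2a ndN1q2a pcN0 Cut.none Ext.none)

def k0_pm_202_aa : ∃ t, chk3 f_pm_202_aa t 1 1 1 = true :=
  ⟨(l 3), by decide +kernel⟩

theorem c_pm_202_aa : CertNX 0 420477299 0 420477299 1046898278 26843546 3 false true false .pp 2 0 2
    ndN2q2a ndN1q2a pcN0 Cut.none Ext.none :=
  certNX0 (fam := false) (s1 := true) (s2 := false) (a := 2) (b := 0) (c := 2) (cn := .pp) (n1 := ndN2q2a) (n2 := ndN1q2a) (pc := pcN0) (cut := Cut.none) (xt := Ext.none) (P1 := 0) (W1 := 420477299) (P2 := 0) (W2 := 420477299) (P3 := 1046898278) (W3 := 26843546) (N0 := 3)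
    rfl k0_pm_202_aa

noncomputable def f_pm_202_ab : ℕ → ℕ → ℕ → ℕ → Bool := onCell 0 420477299 1239849684 370763052 1046898278 26843546
    (rowNX 3 0 false true false .pp 2 0 2 (qsf 0 420477299 1239849684 370763052 0) ndN2q2a ndN1q2b pcN0 Cut.none Ext.none)

def k0_pm_202_ab : ∃ t, chk3 f_pm_202_ab t 1 1 1 = true :=
  ⟨(l 3), by decide +kernel⟩

theorem c_pm_202_ab : CertNX 0 420477299 1239849684 370763052 1046898278 26843546 3 false true false .pp 2 0 2
    ndN2q2a ndN1q2b pcN0 Cut.none Ext.none :=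
  certNX0 (fam := false) (s1 := true) (s2 := false) (a := 2) (b := 0) (c := 2) (cn := .pp) (n1 := ndN2q2a) (n2 := ndN1q2b) (pc := pcN0) (cut := Cut.none) (xt := Ext.none) (P1 := 0) (W1 := 420477299) (P2 := 1239849684) (W2 := 370763052) (P3 := 1046898278) (W3 := 26843546) (N0 := 3)
    rfl k0_pm_202_ab

noncomputable def f_pm_202_ba : ℕ → ℕ → ℕ → ℕ → Bool := onCell 1239849684 370763052 0 420477299 1046898278 26843546
    (rowNX 3 0 false true false .pp 2 0 2 (qsf 1239849684 370763052 0 420477299 0) ndN2q2b ndN1q2a pcN0 Cut.none Ext.none)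

def k0_pm_202_ba : ∃ t, chk3 f_pm_202_ba t 1 1 1 = true :=
  ⟨(l 3), by decide +kernel⟩

theorem c_pm_202_ba : CertNX 1239849684 370763052 0 420477299 1046898278 26843546 3 false true false .pp 2 0 2
    ndN2q2b ndN1q2a pcN0 Cut.none Ext.none :=
  certNX0 (fam := false) (s1 := true) (s2 := false) (a := 2) (b := 0) (c := 2) (cn := .pp) (n1 := ndN2q2b) (n2 := ndN1q2a) (pc := pcN0) (cut := Cut.none) (xt := Ext.none) (P1 := 1239849684) (W1 := 370763052) (P2 := 0) (W2 := 420477299) (P3 := 1046898278) (W3 := 26843546) (N0 := 3)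
    rfl k0_pm_202_ba

noncomputable def f_pm_202_bb : ℕ → ℕ → ℕ → ℕ → Bool := onCell 1239849684 370763052 1239849684 370763052 1046898278 26843546
    (rowNX 3 0 false true false .pp 2 0 2 (qsf 1239849684 370763052 1239849684 370763052 0) ndN2q2b ndN1q2b pcN0 Cut.none Ext.none)

def k0_pm_202_bb : ∃ t, chk3 f_pm_202_bb t 1 1 1 = true :=
  ⟨(l 3), by decide +kernel⟩

theorem c_pm_202_bb : CertNX 1239849684 370763052 1239849684 370763052 1046898278 26843546 3 false true false .pp 2 0 2
    ndN2q2b ndN1q2b pcN0 Cut.none Ext.none :=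
  certNX0 (fam := false) (s1 := true) (s2 := false) (a := 2) (b := 0) (c := 2) (cn := .pp) (n1 := ndN2q2b) (n2 := ndN1q2b) (pc := pcN0) (cut := Cut.none) (xt := Ext.none) (P1 := 1239849684) (W1 := 370763052) (P2 := 1239849684) (W2 := 370763052) (P3 := 1046898278) (W3 := 26843546) (N0 := 3)
    rfl k0_pm_202_bb

noncomputable def f_pm_203_a : ℕ → ℕ → ℕ → ℕ → Bool := onCell 0 420477299 1610612736 469762048 1046898278 26843546
    (rowNX 3 0 false true false .up 2 0 3 (qsf 0 420477299 1610612736 469762048 0) ndN2q2a ndN1q3 pcN0 Cut.none Ext.none)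

def k0_pm_203_a : ∃ t, chk3 f_pm_203_a t 1 1 1 = true :=
  ⟨(l 3), by decide +kernel⟩

theorem c_pm_203_a : CertNX 0 420477299 1610612736 469762048 1046898278 26843546 3 false true false .up 2 0 3
    ndN2q2a ndN1q3 pcN0 Cut.none Ext.none :=
  certNX0 (fam := false) (s1 := true) (s2 := false) (a := 2) (b := 0) (c := 3) (cn := .up) (n1 := ndN2q2a) (n2 := ndN1q3) (pc := pcN0) (cut := Cut.none) (xt := Ext.none) (P1 := 0) (W1 := 420477299) (P2 := 1610612736) (W2 := 469762048) (P3 := 1046898278) (W3 := 26843546) (N0 := 3)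
    rfl k0_pm_203_a

noncomputable def f_pm_203_b : ℕ → ℕ → ℕ → ℕ → Bool := onCell 1239849684 370763052 1610612736 469762048 1046898278 26843546
    (rowNX 3 0 false true false .up 2 0 3 (qsf 1239849684 370763052 1610612736 469762048 0) ndN2q2b ndN1q3 pcN0 Cut.none Ext.none)

def k0_pm_203_b : ∃ t, chk3 f_pm_203_b t 1 1 1 = true :=
  ⟨(l 3), by decide +kernel⟩

theorem c_pm_203_b : CertNX 1239849684 370763052 1610612736 469762048 1046898278 26843546 3 false true false .up 2 0 3
    ndN2q2b ndN1q3 pcN0 Cut.none Ext.none :=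
  certNX0 (fam := false) (s1 := true) (s2 := false) (a := 2) (b := 0) (c := 3) (cn := .up) (n1 := ndN2q2b) (n2 := ndN1q3) (pc := pcN0) (cut := Cut.none) (xt := Ext.none) (P1 := 1239849684) (W1 := 370763052) (P2 := 1610612736) (W2 := 469762048) (P3 := 1046898278) (W3 := 26843546) (N0 := 3)
    rfl k0_pm_203_b

noncomputable def f_pm_213_a : ℕ → ℕ → ℕ → ℕ → Bool := onCell 0 420477299 1610612736 469762048 1046898278 26843546
    (rowNX 3 0 false true false .pnn 2 1 3 (qsf 0 420477299 1610612736 469762048 1) ndN2q2a ndN1q3 pcN1 Cut.none Ext.none)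

def k0_pm_213_a : ∃ t, chk3 f_pm_213_a t 1 1 1 = true :=
  ⟨(l 3), by decide +kernel⟩

theorem c_pm_213_a : CertNX 0 420477299 1610612736 469762048 1046898278 26843546 3 false true false .pnn 2 1 3
    ndN2q2a ndN1q3 pcN1 Cut.none Ext.none :=
  certNX0 (fam := false) (s1 := true) (s2 := false) (a := 2) (b := 1) (c := 3) (cn := .pnn) (n1 := ndN2q2a) (n2 := ndN1q3) (pc := pcN1) (cut := Cut.none) (xt := Ext.none) (P1 := 0) (W1 := 420477299) (P2 := 1610612736) (W2 := 469762048) (P3 := 1046898278) (W3 := 26843546) (N0 := 3)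
    rfl k0_pm_213_a

noncomputable def f_pm_213_b : ℕ → ℕ → ℕ → ℕ → Bool := onCell 1239849684 370763052 1610612736 469762048 1046898278 26843546
    (rowNX 3 0 false true false .pnn 2 1 3 (qsf 1239849684 370763052 1610612736 469762048 1) ndN2q2b ndN1q3 pcN1 Cut.none Ext.none)

def k0_pm_213_b : ∃ t, chk3 f_pm_213_b t 1 1 1 = true :=
  ⟨(l 3), by decide +kernel⟩

theorem c_pm_213_b : CertNX 1239849684 370763052 1610612736 469762048 1046898278 26843546 3 false true false .pnn 2 1 3
    ndN2q2b ndN1q3 pcN1 Cut.none Ext.none :=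
  certNX0 (fam := false) (s1 := true) (s2 := false) (a := 2) (b := 1) (c := 3) (cn := .pnn) (n1 := ndN2q2b) (n2 := ndN1q3) (pc := pcN1) (cut := Cut.none) (xt := Ext.none) (P1 := 1239849684) (W1 := 370763052) (P2 := 1610612736) (W2 := 469762048) (P3 := 1046898278) (W3 := 26843546) (N0 := 3)
    rfl k0_pm_213_b

noncomputable def f_pm_303 : ℕ → ℕ → ℕ → ℕ → Bool := onCell 1610612736 469762048 1610612736 469762048 1046898278 26843546
    (rowNX 3 0 false true false .npn 3 0 3 (qsf 1610612736 469762048 1610612736 469762048 0) ndN2q3 ndN1q3 pcN0 Cut.none Ext.none)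

def k0_pm_303 : ∃ t, chk3 f_pm_303 t 1 1 1 = true :=
  ⟨(l 3), by decide +kernel⟩

theorem c_pm_303 : CertNX 1610612736 469762048 1610612736 469762048 1046898278 26843546 3 false true false .npn 3 0 3
    ndN2q3 ndN1q3 pcN0 Cut.none Ext.none :=
  certNX0 (fam := false) (s1 := true) (s2 := false) (a := 3) (b := 0) (c := 3) (cn := .npn) (n1 := ndN2q3) (n2 := ndN1q3) (pc := pcN0) (cut := Cut.none) (xt := Ext.none) (P1 := 1610612736) (W1 := 469762048) (P2 := 1610612736) (W2 := 469762048) (P3 := 1046898278) (W3 := 26843546) (N0 := 3)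
    rfl k0_pm_303

noncomputable def f_pm_313 : ℕ → ℕ → ℕ → ℕ → Bool := onCell 1610612736 469762048 1610612736 469762048 1046898278 26843546
    (rowNX 3 0 false true false .dn 3 1 3 (qsf 1610612736 469762048 1610612736 469762048 1) ndN2q3 ndN1q3 pcN1 Cut.none Ext.none)

def k0_pm_313 : ∃ t, chk3 f_pm_313 t 1 1 1 = true :=
  ⟨(l 1), by decide +kernel⟩

theorem c_pm_313 : CertNX 1610612736 469762048 1610612736 469762048 1046898278 26843546 3 false true false .dn 3 1 3
    ndN2q3 ndN1q3 pcN1 Cut.none Ext.none :=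
  certNX0 (fam := false) (s1 := true) (s2 := false) (a := 3) (b := 1) (c := 3) (cn := .dn) (n1 := ndN2q3) (n2 := ndN1q3) (pc := pcN1) (cut := Cut.none) (xt := Ext.none) (P1 := 1610612736) (W1 := 469762048) (P2 := 1610612736) (W2 := 469762048) (P3 := 1046898278) (W3 := 26843546) (N0 := 3)
    rfl k0_pm_313

noncomputable def f_mm_001 : ℕ → ℕ → ℕ → ℕ → Bool := onCell 67108864 469762048 536870912 536870912 1046898278 26843546
    (rowNX 3 0 false false false .up 0 0 1 (qsf 67108864 469762048 536870912 536870912 0) ndN2q0 ndN1q1 pcN0 Cut.none Ext.none)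

def k0_mm_001 : ∃ t, chk3 f_mm_001 t 1 1 1 = true :=
  ⟨(l 3), by decide +kernel⟩

theorem c_mm_001 : CertNX 67108864 469762048 536870912 536870912 1046898278 26843546 3 false false false .up 0 0 1
    ndN2q0 ndN1q1 pcN0 Cut.none Ext.none :=
  certNX0 (fam := false) (s1 := false) (s2 := false) (a := 0) (b := 0) (c := 1) (cn := .up) (n1 := ndN2q0) (n2 := ndN1q1) (pc := pcN0) (cut := Cut.none) (xt := Ext.none) (P1 := 67108864) (W1 := 469762048) (P2 := 536870912) (W2 := 536870912) (P3 := 1046898278) (W3 := 26843546) (N0 := 3)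
    rfl k0_mm_001

noncomputable def f_mm_011 : ℕ → ℕ → ℕ → ℕ → Bool := onCell 67108864 469762048 536870912 536870912 1046898278 26843546
    (rowNX 3 0 false false false .pnn 0 1 1 (qsf 67108864 469762048 536870912 536870912 1) ndN2q0 ndN1q1 pcN1 Cut.none Ext.none)

def k0_mm_011 : ∃ t, chk3 f_mm_011 t 1 1 1 = true :=
  ⟨(l 3), by decide +kernel⟩

theorem c_mm_011 : CertNX 67108864 469762048 536870912 536870912 1046898278 26843546 3 false false false .pnn 0 1 1
    ndN2q0 ndN1q1 pcN1 Cut.none Ext.none :=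
  certNX0 (fam := false) (s1 := false) (s2 := false) (a := 0) (b := 1) (c := 1) (cn := .pnn) (n1 := ndN2q0) (n2 := ndN1q1) (pc := pcN1) (cut := Cut.none) (xt := Ext.none) (P1 := 67108864) (W1 := 469762048) (P2 := 536870912) (W2 := 536870912) (P3 := 1046898278) (W3 := 26843546) (N0 := 3)
    rfl k0_mm_011

noncomputable def f_mm_012_a : ℕ → ℕ → ℕ → ℕ → Bool := onCell 67108864 469762048 0 420477299 1046898278 26843546
    (rowNX 3 0 false false false .pnp 0 1 2 (qsf 67108864 469762048 0 420477299 1) ndN2q0 ndN1q2a pcN1 Cut.none Ext.none)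

def k0_mm_012_a : ∃ t, chk3 f_mm_012_a t 1 1 1 = true :=
  ⟨(l 5), by decide +kernel⟩

theorem c_mm_012_a : CertNX 67108864 469762048 0 420477299 1046898278 26843546 3 false false false .pnp 0 1 2
    ndN2q0 ndN1q2a pcN1 Cut.none Ext.none :=
  certNX0 (fam := false) (s1 := false) (s2 := false) (a := 0) (b := 1) (c := 2) (cn := .pnp) (n1 := ndN2q0) (n2 := ndN1q2a) (pc := pcN1) (cut := Cut.none) (xt := Ext.none) (P1 := 67108864) (W1 := 469762048) (P2 := 0) (W2 := 420477299) (P3 := 1046898278) (W3 := 26843546) (N0 := 3)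
    rfl k0_mm_012_a

noncomputable def f_mm_012_b : ℕ → ℕ → ℕ → ℕ → Bool := onCell 67108864 469762048 1239849684 370763052 1046898278 26843546
    (rowNX 3 0 false false false .pnp 0 1 2 (qsf 67108864 469762048 1239849684 370763052 1) ndN2q0 ndN1q2b pcN1 Cut.none Ext.none)

def k0_mm_012_b : ∃ t, chk3 f_mm_012_b t 1 1 1 = true :=
  ⟨(l 5), by decide +kernel⟩

theorem c_mm_012_b : CertNX 67108864 469762048 1239849684 370763052 1046898278 26843546 3 false false false .pnp 0 1 2
    ndN2q0 ndN1q2b pcN1 Cut.none Ext.none :=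
  certNX0 (fam := false) (s1 := false) (s2 := false) (a := 0) (b := 1) (c := 2) (cn := .pnp) (n1 := ndN2q0) (n2 := ndN1q2b) (pc := pcN1) (cut := Cut.none) (xt := Ext.none) (P1 := 67108864) (W1 := 469762048) (P2 := 1239849684) (W2 := 370763052) (P3 := 1046898278) (W3 := 26843546) (N0 := 3)
    rfl k0_mm_012_b

noncomputable def f_mm_022_a : ℕ → ℕ → ℕ → ℕ → Bool := onCell 67108864 469762048 0 420477299 1046898278 26843546
    (rowNX 3 0 false false false .pp 0 2 2 (qsf 67108864 469762048 0 420477299 2) ndN2q0 ndN1q2a pcN2 Cut.none Ext.none)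

def k0_mm_022_a : ∃ t, chk3 f_mm_022_a t 1 1 1 = true :=
  ⟨(l 5), by decide +kernel⟩

theorem c_mm_022_a : CertNX 67108864 469762048 0 420477299 1046898278 26843546 3 false false false .pp 0 2 2
    ndN2q0 ndN1q2a pcN2 Cut.none Ext.none :=
  certNX0 (fam := false) (s1 := false) (s2 := false) (a := 0) (b := 2) (c := 2) (cn := .pp) (n1 := ndN2q0) (n2 := ndN1q2a) (pc := pcN2) (cut := Cut.none) (xt := Ext.none) (P1 := 67108864) (W1 := 469762048) (P2 := 0) (W2 := 420477299) (P3 := 1046898278) (W3 := 26843546) (N0 := 3)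
    rfl k0_mm_022_a

noncomputable def f_mm_022_b : ℕ → ℕ → ℕ → ℕ → Bool := onCell 67108864 469762048 1239849684 370763052 1046898278 26843546
    (rowNX 3 0 false false false .pp 0 2 2 (qsf 67108864 469762048 1239849684 370763052 2) ndN2q0 ndN1q2b pcN2 Cut.none Ext.none)

def k0_mm_022_b : ∃ t, chk3 f_mm_022_b t 1 1 1 = true :=
  ⟨(l 5), by decide +kernel⟩

theorem c_mm_022_b : CertNX 67108864 469762048 1239849684 370763052 1046898278 26843546 3 false false false .pp 0 2 2
    ndN2q0 ndN1q2b pcN2 Cut.none Ext.none :=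
  certNX0 (fam := false) (s1 := false) (s2 := false) (a := 0) (b := 2) (c := 2) (cn := .pp) (n1 := ndN2q0) (n2 := ndN1q2b) (pc := pcN2) (cut := Cut.none) (xt := Ext.none) (P1 := 67108864) (W1 := 469762048) (P2 := 1239849684) (W2 := 370763052) (P3 := 1046898278) (W3 := 26843546) (N0 := 3)
    rfl k0_mm_022_b

noncomputable def f_mm_023 : ℕ → ℕ → ℕ → ℕ → Bool := onCell 67108864 469762048 1610612736 469762048 1046898278 26843546
    (rowNX 3 0 false false false .up 0 2 3 (qsf 67108864 469762048 1610612736 469762048 2) ndN2q0 ndN1q3 pcN2 Cut.none Ext.none)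

def k0_mm_023 : ∃ t, chk3 f_mm_023 t 1 1 1 = true :=
  ⟨(l 5), by decide +kernel⟩

theorem c_mm_023 : CertNX 67108864 469762048 1610612736 469762048 1046898278 26843546 3 false false false .up 0 2 3
    ndN2q0 ndN1q3 pcN2 Cut.none Ext.none :=
  certNX0 (fam := false) (s1 := false) (s2 := false) (a := 0) (b := 2) (c := 3) (cn := .up) (n1 := ndN2q0) (n2 := ndN1q3) (pc := pcN2) (cut := Cut.none) (xt := Ext.none) (P1 := 67108864) (W1 := 469762048) (P2 := 1610612736) (W2 := 469762048) (P3 := 1046898278) (W3 := 26843546) (N0 := 3)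
    rfl k0_mm_023

noncomputable def f_mm_033 : ℕ → ℕ → ℕ → ℕ → Bool := onCell 67108864 469762048 1610612736 469762048 1046898278 26843546
    (rowNX 3 0 false false false .pnn 0 3 3 (qsf 67108864 469762048 1610612736 469762048 3) ndN2q0 ndN1q3 pcN3 Cut.none Ext.none)

def k0_mm_033 : ∃ t, chk3 f_mm_033 t 1 1 1 = true :=
  ⟨(l 5), by decide +kernel⟩

theorem c_mm_033 : CertNX 67108864 469762048 1610612736 469762048 1046898278 26843546 3 false false false .pnn 0 3 3
    ndN2q0 ndN1q3 pcN3 Cut.none Ext.none :=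
  certNX0 (fam := false) (s1 := false) (s2 := false) (a := 0) (b := 3) (c := 3) (cn := .pnn) (n1 := ndN2q0) (n2 := ndN1q3) (pc := pcN3) (cut := Cut.none) (xt := Ext.none) (P1 := 67108864) (W1 := 469762048) (P2 := 1610612736) (W2 := 469762048) (P3 := 1046898278) (W3 := 26843546) (N0 := 3)
    rfl k0_mm_033

noncomputable def f_mm_101 : ℕ → ℕ → ℕ → ℕ → Bool := onCell 536870912 536870912 536870912 536870912 1046898278 26843546
    (rowNX 3 0 false false false .npn 1 0 1 (qsf 536870912 536870912 536870912 536870912 0) ndN2q1 ndN1q1 pcN0 Cut.none Ext.none)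

def k0_mm_101 : ∃ t, chk3 f_mm_101 t 1 1 1 = true :=
  ⟨(l 3), by decide +kernel⟩

theorem c_mm_101 : CertNX 536870912 536870912 536870912 536870912 1046898278 26843546 3 false false false .npn 1 0 1
    ndN2q1 ndN1q1 pcN0 Cut.none Ext.none :=
  certNX0 (fam := false) (s1 := false) (s2 := false) (a := 1) (b := 0) (c := 1) (cn := .npn) (n1 := ndN2q1) (n2 := ndN1q1) (pc := pcN0) (cut := Cut.none) (xt := Ext.none) (P1 := 536870912) (W1 := 536870912) (P2 := 536870912) (W2 := 536870912) (P3 := 1046898278) (W3 := 26843546) (N0 := 3)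
    rfl k0_mm_101

noncomputable def f_mm_102_a : ℕ → ℕ → ℕ → ℕ → Bool := onCell 536870912 536870912 0 420477299 1046898278 26843546
    (rowNX 3 0 false false false .npp 1 0 2 (qsf 536870912 536870912 0 420477299 0) ndN2q1 ndN1q2a pcN0 Cut.none Ext.none)

def k0_mm_102_a : ∃ t, chk3 f_mm_102_a t 1 1 1 = true :=
  ⟨(l 5), by decide +kernel⟩

theorem c_mm_102_a : CertNX 536870912 536870912 0 420477299 1046898278 26843546 3 false false false .npp 1 0 2
    ndN2q1 ndN1q2a pcN0 Cut.none Ext.none :=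
  certNX0 (fam := false) (s1 := false) (s2 := false) (a := 1) (b := 0) (c := 2) (cn := .npp) (n1 := ndN2q1) (n2 := ndN1q2a) (pc := pcN0) (cut := Cut.none) (xt := Ext.none) (P1 := 536870912) (W1 := 536870912) (P2 := 0) (W2 := 420477299) (P3 := 1046898278) (W3 := 26843546) (N0 := 3)
    rfl k0_mm_102_a

noncomputable def f_mm_102_b : ℕ → ℕ → ℕ → ℕ → Bool := onCell 536870912 536870912 1239849684 370763052 1046898278 26843546
    (rowNX 3 0 false false false .npp 1 0 2 (qsf 536870912 536870912 1239849684 370763052 0) ndN2q1 ndN1q2b pcN0 Cut.none Ext.none)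

def k0_mm_102_b : ∃ t, chk3 f_mm_102_b t 1 1 1 = true :=
  ⟨(l 5), by decide +kernel⟩

theorem c_mm_102_b : CertNX 536870912 536870912 1239849684 370763052 1046898278 26843546 3 false false false .npp 1 0 2
    ndN2q1 ndN1q2b pcN0 Cut.none Ext.none :=
  certNX0 (fam := false) (s1 := false) (s2 := false) (a := 1) (b := 0) (c := 2) (cn := .npp) (n1 := ndN2q1) (n2 := ndN1q2b) (pc := pcN0) (cut := Cut.none) (xt := Ext.none) (P1 := 536870912) (W1 := 536870912) (P2 := 1239849684) (W2 := 370763052) (P3 := 1046898278) (W3 := 26843546) (N0 := 3)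
    rfl k0_mm_102_b

noncomputable def f_mm_112_a : ℕ → ℕ → ℕ → ℕ → Bool := onCell 536870912 536870912 0 420477299 1046898278 26843546
    (rowNX 3 0 false false false .dn 1 1 2 (qsf 536870912 536870912 0 420477299 1) ndN2q1 ndN1q2a pcN1 Cut.none Ext.none)

def k0_mm_112_a : ∃ t, chk3 f_mm_112_a t 1 1 1 = true :=
  ⟨(l 5), by decide +kernel⟩

theorem c_mm_112_a : CertNX 536870912 536870912 0 420477299 1046898278 26843546 3 false false false .dn 1 1 2
    ndN2q1 ndN1q2a pcN1 Cut.none Ext.none :=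
  certNX0 (fam := false) (s1 := false) (s2 := false) (a := 1) (b := 1) (c := 2) (cn := .dn) (n1 := ndN2q1) (n2 := ndN1q2a) (pc := pcN1) (cut := Cut.none) (xt := Ext.none) (P1 := 536870912) (W1 := 536870912) (P2 := 0) (W2 := 420477299) (P3 := 1046898278) (W3 := 26843546) (N0 := 3)
    rfl k0_mm_112_a

noncomputable def f_mm_112_b : ℕ → ℕ → ℕ → ℕ → Bool := onCell 536870912 536870912 1239849684 370763052 1046898278 26843546
    (rowNX 3 0 false false false .dn 1 1 2 (qsf 536870912 536870912 1239849684 370763052 1) ndN2q1 ndN1q2b pcN1 Cut.none Ext.none)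

def k0_mm_112_b : ∃ t, chk3 f_mm_112_b t 1 1 1 = true :=
  ⟨(l 5), by decide +kernel⟩

theorem c_mm_112_b : CertNX 536870912 536870912 1239849684 370763052 1046898278 26843546 3 false false false .dn 1 1 2
    ndN2q1 ndN1q2b pcN1 Cut.none Ext.none :=
  certNX0 (fam := false) (s1 := false) (s2 := false) (a := 1) (b := 1) (c := 2) (cn := .dn) (n1 := ndN2q1) (n2 := ndN1q2b) (pc := pcN1) (cut := Cut.none) (xt := Ext.none) (P1 := 536870912) (W1 := 536870912) (P2 := 1239849684) (W2 := 370763052) (P3 := 1046898278) (W3 := 26843546) (N0 := 3)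
    rfl k0_mm_112_b

noncomputable def f_mm_113 : ℕ → ℕ → ℕ → ℕ → Bool := onCell 536870912 536870912 1610612736 469762048 1046898278 26843546
    (rowNX 3 0 false false false .nn 1 1 3 (qsf 536870912 536870912 1610612736 469762048 1) ndN2q1 ndN1q3 pcN1 Cut.none Ext.none)

def k0_mm_113 : ∃ t, chk3 f_mm_113 t 1 1 1 = true :=
  ⟨(l 5), by decide +kernel⟩

theorem c_mm_113 : CertNX 536870912 536870912 1610612736 469762048 1046898278 26843546 3 false false false .nn 1 1 3
    ndN2q1 ndN1q3 pcN1 Cut.none Ext.none :=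
  certNX0 (fam := false) (s1 := false) (s2 := false) (a := 1) (b := 1) (c := 3) (cn := .nn) (n1 := ndN2q1) (n2 := ndN1q3) (pc := pcN1) (cut := Cut.none) (xt := Ext.none) (P1 := 536870912) (W1 := 536870912) (P2 := 1610612736) (W2 := 469762048) (P3 := 1046898278) (W3 := 26843546) (N0 := 3)
    rfl k0_mm_113

noncomputable def f_mm_123 : ℕ → ℕ → ℕ → ℕ → Bool := onCell 536870912 536870912 1610612736 469762048 1046898278 26843546
    (rowNX 3 0 false false false .npn 1 2 3 (qsf 536870912 536870912 1610612736 469762048 2) ndN2q1 ndN1q3 pcN2 Cut.none Ext.none)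

def k0_mm_123 : ∃ t, chk3 f_mm_123 t 1 1 1 = true :=
  ⟨(l 5), by decide +kernel⟩

theorem c_mm_123 : CertNX 536870912 536870912 1610612736 469762048 1046898278 26843546 3 false false false .npn 1 2 3
    ndN2q1 ndN1q3 pcN2 Cut.none Ext.none :=
  certNX0 (fam := false) (s1 := false) (s2 := false) (a := 1) (b := 2) (c := 3) (cn := .npn) (n1 := ndN2q1) (n2 := ndN1q3) (pc := pcN2) (cut := Cut.none) (xt := Ext.none) (P1 := 536870912) (W1 := 536870912) (P2 := 1610612736) (W2 := 469762048) (P3 := 1046898278) (W3 := 26843546) (N0 := 3)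
    rfl k0_mm_123

noncomputable def f_mm_133 : ℕ → ℕ → ℕ → ℕ → Bool := onCell 536870912 536870912 1610612736 469762048 1046898278 26843546
    (rowNX 3 0 false false false .dn 1 3 3 (qsf 536870912 536870912 1610612736 469762048 3) ndN2q1 ndN1q3 pcN3 Cut.none Ext.none)

def k0_mm_133 : ∃ t, chk3 f_mm_133 t 1 1 1 = true :=
  ⟨(l 1), by decide +kernel⟩

theorem c_mm_133 : CertNX 536870912 536870912 1610612736 469762048 1046898278 26843546 3 false false false .dn 1 3 3
    ndN2q1 ndN1q3 pcN3 Cut.none Ext.none :=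
  certNX0 (fam := false) (s1 := false) (s2 := false) (a := 1) (b := 3) (c := 3) (cn := .dn) (n1 := ndN2q1) (n2 := ndN1q3) (pc := pcN3) (cut := Cut.none) (xt := Ext.none) (P1 := 536870912) (W1 := 536870912) (P2 := 1610612736) (W2 := 469762048) (P3 := 1046898278) (W3 := 26843546) (N0 := 3)
    rfl k0_mm_133

noncomputable def f_mm_202_aa : ℕ → ℕ → ℕ → ℕ → Bool := onCell 0 420477299 0 420477299 1046898278 26843546
    (rowNX 3 0 false false false .pp 2 0 2 (qsf 0 420477299 0 420477299 0) ndN2q2a ndN1q2a pcN0 Cut.none Ext.none)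

def k0_mm_202_aa : ∃ t, chk3 f_mm_202_aa t 1 1 1 = true :=
  ⟨(l 3), by decide +kernel⟩

theorem c_mm_202_aa : CertNX 0 420477299 0 420477299 1046898278 26843546 3 false false false .pp 2 0 2
    ndN2q2a ndN1q2a pcN0 Cut.none Ext.none :=
  certNX0 (fam := false) (s1 := false) (s2 := false) (a := 2) (b := 0) (c := 2) (cn := .pp) (n1 := ndN2q2a) (n2 := ndN1q2a) (pc := pcN0) (cut := Cut.none) (xt := Ext.none) (P1 := 0) (W1 := 420477299) (P2 := 0) (W2 := 420477299) (P3 := 1046898278) (W3 := 26843546) (N0 := 3)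
    rfl k0_mm_202_aa

noncomputable def f_mm_202_ab : ℕ → ℕ → ℕ → ℕ → Bool := onCell 0 420477299 1239849684 370763052 1046898278 26843546
    (rowNX 3 0 false false false .pp 2 0 2 (qsf 0 420477299 1239849684 370763052 0) ndN2q2a ndN1q2b pcN0 Cut.none Ext.none)

def k0_mm_202_ab : ∃ t, chk3 f_mm_202_ab t 1 1 1 = true :=
  ⟨(l 3), by decide +kernel⟩

theorem c_mm_202_ab : CertNX 0 420477299 1239849684 370763052 1046898278 26843546 3 false false false .pp 2 0 2
    ndN2q2a ndN1q2b pcN0 Cut.none Ext.none :=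
  certNX0 (fam := false) (s1 := false) (s2 := false) (a := 2) (b := 0) (c := 2) (cn := .pp) (n1 := ndN2q2a) (n2 := ndN1q2b) (pc := pcN0) (cut := Cut.none) (xt := Ext.none) (P1 := 0) (W1 := 420477299) (P2 := 1239849684) (W2 := 370763052) (P3 := 1046898278) (W3 := 26843546) (N0 := 3)
    rfl k0_mm_202_ab

noncomputable def f_mm_202_ba : ℕ → ℕ → ℕ → ℕ → Bool := onCell 1239849684 370763052 0 420477299 1046898278 26843546
    (rowNX 3 0 false false false .pp 2 0 2 (qsf 1239849684 370763052 0 420477299 0) ndN2q2b ndN1q2a pcN0 Cut.none Ext.none)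

def k0_mm_202_ba : ∃ t, chk3 f_mm_202_ba t 1 1 1 = true :=
  ⟨(l 3), by decide +kernel⟩

theorem c_mm_202_ba : CertNX 1239849684 370763052 0 420477299 1046898278 26843546 3 false false false .pp 2 0 2
    ndN2q2b ndN1q2a pcN0 Cut.none Ext.none :=
  certNX0 (fam := false) (s1 := false) (s2 := false) (a := 2) (b := 0) (c := 2) (cn := .pp) (n1 := ndN2q2b) (n2 := ndN1q2a) (pc := pcN0) (cut := Cut.none) (xt := Ext.none) (P1 := 1239849684) (W1 := 370763052) (P2 := 0) (W2 := 420477299) (P3 := 1046898278) (W3 := 26843546) (N0 := 3)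
    rfl k0_mm_202_ba

noncomputable def f_mm_202_bb : ℕ → ℕ → ℕ → ℕ → Bool := onCell 1239849684 370763052 1239849684 370763052 1046898278 26843546
    (rowNX 3 0 false false false .pp 2 0 2 (qsf 1239849684 370763052 1239849684 370763052 0) ndN2q2b ndN1q2b pcN0 Cut.none Ext.none)

def k0_mm_202_bb : ∃ t, chk3 f_mm_202_bb t 1 1 1 = true :=
  ⟨(l 3), by decide +kernel⟩

theorem c_mm_202_bb : CertNX 1239849684 370763052 1239849684 370763052 1046898278 26843546 3 false false false .pp 2 0 2
    ndN2q2b ndN1q2b pcN0 Cut.none Ext.none :=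
  certNX0 (fam := false) (s1 := false) (s2 := false) (a := 2) (b := 0) (c := 2) (cn := .pp) (n1 := ndN2q2b) (n2 := ndN1q2b) (pc := pcN0) (cut := Cut.none) (xt := Ext.none) (P1 := 1239849684) (W1 := 370763052) (P2 := 1239849684) (W2 := 370763052) (P3 := 1046898278) (W3 := 26843546) (N0 := 3)
    rfl k0_mm_202_bb

noncomputable def f_mm_203_a : ℕ → ℕ → ℕ → ℕ → Bool := onCell 0 420477299 1610612736 469762048 1046898278 26843546
    (rowNX 3 0 false false false .up 2 0 3 (qsf 0 420477299 1610612736 469762048 0) ndN2q2a ndN1q3 pcN0 Cut.none Ext.none)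

def k0_mm_203_a : ∃ t, chk3 f_mm_203_a t 1 1 1 = true :=
  ⟨(l 3), by decide +kernel⟩

theorem c_mm_203_a : CertNX 0 420477299 1610612736 469762048 1046898278 26843546 3 false false false .up 2 0 3
    ndN2q2a ndN1q3 pcN0 Cut.none Ext.none :=
  certNX0 (fam := false) (s1 := false) (s2 := false) (a := 2) (b := 0) (c := 3) (cn := .up) (n1 := ndN2q2a) (n2 := ndN1q3) (pc := pcN0) (cut := Cut.none) (xt := Ext.none) (P1 := 0) (W1 := 420477299) (P2 := 1610612736) (W2 := 469762048) (P3 := 1046898278) (W3 := 26843546) (N0 := 3)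
    rfl k0_mm_203_a

noncomputable def f_mm_203_b : ℕ → ℕ → ℕ → ℕ → Bool := onCell 1239849684 370763052 1610612736 469762048 1046898278 26843546
    (rowNX 3 0 false false false .up 2 0 3 (qsf 1239849684 370763052 1610612736 469762048 0) ndN2q2b ndN1q3 pcN0 Cut.none Ext.none)

def k0_mm_203_b : ∃ t, chk3 f_mm_203_b t 1 1 1 = true :=
  ⟨(l 3), by decide +kernel⟩

theorem c_mm_203_b : CertNX 1239849684 370763052 1610612736 469762048 1046898278 26843546 3 false false false .up 2 0 3
    ndN2q2b ndN1q3 pcN0 Cut.none Ext.none :=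
  certNX0 (fam := false) (s1 := false) (s2 := false) (a := 2) (b := 0) (c := 3) (cn := .up) (n1 := ndN2q2b) (n2 := ndN1q3) (pc := pcN0) (cut := Cut.none) (xt := Ext.none) (P1 := 1239849684) (W1 := 370763052) (P2 := 1610612736) (W2 := 469762048) (P3 := 1046898278) (W3 := 26843546) (N0 := 3)
    rfl k0_mm_203_b

noncomputable def f_mm_213_a : ℕ → ℕ → ℕ → ℕ → Bool := onCell 0 420477299 1610612736 469762048 1046898278 26843546
    (rowNX 3 0 false false false .pnn 2 1 3 (qsf 0 420477299 1610612736 469762048 1) ndN2q2a ndN1q3 pcN1 Cut.none Ext.none)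

def k0_mm_213_a : ∃ t, chk3 f_mm_213_a t 1 1 1 = true :=
  ⟨(l 3), by decide +kernel⟩

theorem c_mm_213_a : CertNX 0 420477299 1610612736 469762048 1046898278 26843546 3 false false false .pnn 2 1 3
    ndN2q2a ndN1q3 pcN1 Cut.none Ext.none :=
  certNX0 (fam := false) (s1 := false) (s2 := false) (a := 2) (b := 1) (c := 3) (cn := .pnn) (n1 := ndN2q2a) (n2 := ndN1q3) (pc := pcN1) (cut := Cut.none) (xt := Ext.none) (P1 := 0) (W1 := 420477299) (P2 := 1610612736) (W2 := 469762048) (P3 := 1046898278) (W3 := 26843546) (N0 := 3)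
    rfl k0_mm_213_a

noncomputable def f_mm_213_b : ℕ → ℕ → ℕ → ℕ → Bool := onCell 1239849684 370763052 1610612736 469762048 1046898278 26843546
    (rowNX 3 0 false false false .pnn 2 1 3 (qsf 1239849684 370763052 1610612736 469762048 1) ndN2q2b ndN1q3 pcN1 Cut.none Ext.none)

def k0_mm_213_b : ∃ t, chk3 f_mm_213_b t 1 1 1 = true :=
  ⟨(l 3), by decide +kernel⟩

theorem c_mm_213_b : CertNX 1239849684 370763052 1610612736 469762048 1046898278 26843546 3 false false false .pnn 2 1 3
    ndN2q2b ndN1q3 pcN1 Cut.none Ext.none :=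
  certNX0 (fam := false) (s1 := false) (s2 := false) (a := 2) (b := 1) (c := 3) (cn := .pnn) (n1 := ndN2q2b) (n2 := ndN1q3) (pc := pcN1) (cut := Cut.none) (xt := Ext.none) (P1 := 1239849684) (W1 := 370763052) (P2 := 1610612736) (W2 := 469762048) (P3 := 1046898278) (W3 := 26843546) (N0 := 3)
    rfl k0_mm_213_b

noncomputable def f_mm_303 : ℕ → ℕ → ℕ → ℕ → Bool := onCell 1610612736 469762048 1610612736 469762048 1046898278 26843546
    (rowNX 3 0 false false false .npn 3 0 3 (qsf 1610612736 469762048 1610612736 469762048 0) ndN2q3 ndN1q3 pcN0 Cut.none Ext.none)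

def k0_mm_303 : ∃ t, chk3 f_mm_303 t 1 1 1 = true :=
  ⟨(l 3), by decide +kernel⟩

theorem c_mm_303 : CertNX 1610612736 469762048 1610612736 469762048 1046898278 26843546 3 false false false .npn 3 0 3
    ndN2q3 ndN1q3 pcN0 Cut.none Ext.none :=
  certNX0 (fam := false) (s1 := false) (s2 := false) (a := 3) (b := 0) (c := 3) (cn := .npn) (n1 := ndN2q3) (n2 := ndN1q3) (pc := pcN0) (cut := Cut.none) (xt := Ext.none) (P1 := 1610612736) (W1 := 469762048) (P2 := 1610612736) (W2 := 469762048) (P3 := 1046898278) (W3 := 26843546) (N0 := 3)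
    rfl k0_mm_303

noncomputable def f_mm_313 : ℕ → ℕ → ℕ → ℕ → Bool := onCell 1610612736 469762048 1610612736 469762048 1046898278 26843546
    (rowNX 3 0 false false false .dn 3 1 3 (qsf 1610612736 469762048 1610612736 469762048 1) ndN2q3 ndN1q3 pcN1 Cut.none Ext.none)

def k0_mm_313 : ∃ t, chk3 f_mm_313 t 1 1 1 = true :=
  ⟨(l 1), by decide +kernel⟩

theorem c_mm_313 : CertNX 1610612736 469762048 1610612736 469762048 1046898278 26843546 3 false false false .dn 3 1 3
    ndN2q3 ndN1q3 pcN1 Cut.none Ext.none :=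
  certNX0 (fam := false) (s1 := false) (s2 := false) (a := 3) (b := 1) (c := 3) (cn := .dn) (n1 := ndN2q3) (n2 := ndN1q3) (pc := pcN1) (cut := Cut.none) (xt := Ext.none) (P1 := 1610612736) (W1 := 469762048) (P2 := 1610612736) (W2 := 469762048) (P3 := 1046898278) (W3 := 26843546) (N0 := 3)
    rfl k0_mm_313

end Pool.Agent.Strip051.G.IE1.Tab.C.NB21

namespace Pool.Agent.Strip051.G.IE1.Tab.C.NB22

open Pool.Agent.Strip051.PB Pool.Agent.Strip051.PB.T
open Pool.Agent.Strip051.G.IE1.Tab

noncomputable def f_pp_001 : ℕ → ℕ → ℕ → ℕ → Bool := onCell 67108864 469762048 536870912 536870912 1046898278 26843546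
    (rowNX 3 0 false true true .up 0 0 1 (qsf 67108864 469762048 536870912 536870912 0) ndN2q0 ndN2q1 pcN0 Cut.none Ext.none)

def k0_pp_001 : ∃ t, chk3 f_pp_001 t 1 1 1 = true :=
  ⟨(l 3), by decide +kernel⟩

theorem c_pp_001 : CertNX 67108864 469762048 536870912 536870912 1046898278 26843546 3 false true true .up 0 0 1
    ndN2q0 ndN2q1 pcN0 Cut.none Ext.none :=
  certNX0 (fam := false) (s1 := true) (s2 := true) (a := 0) (b := 0) (c := 1) (cn := .up) (n1 := ndN2q0) (n2 := ndN2q1) (pc := pcN0) (cut := Cut.none) (xt := Ext.none) (P1 := 67108864) (W1 := 469762048) (P2 := 536870912) (W2 := 536870912) (P3 := 1046898278) (W3 := 26843546) (N0 := 3)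
    rfl k0_pp_001

noncomputable def f_pp_011 : ℕ → ℕ → ℕ → ℕ → Bool := onCell 67108864 469762048 536870912 536870912 1046898278 26843546
    (rowNX 3 0 false true true .pnn 0 1 1 (qsf 67108864 469762048 536870912 536870912 1) ndN2q0 ndN2q1 pcN1 Cut.none Ext.none)

def k0_pp_011 : ∃ t, chk3 f_pp_011 t 1 1 1 = true :=
  ⟨(l 3), by decide +kernel⟩

theorem c_pp_011 : CertNX 67108864 469762048 536870912 536870912 1046898278 26843546 3 false true true .pnn 0 1 1
    ndN2q0 ndN2q1 pcN1 Cut.none Ext.none :=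
  certNX0 (fam := false) (s1 := true) (s2 := true) (a := 0) (b := 1) (c := 1) (cn := .pnn) (n1 := ndN2q0) (n2 := ndN2q1) (pc := pcN1) (cut := Cut.none) (xt := Ext.none) (P1 := 67108864) (W1 := 469762048) (P2 := 536870912) (W2 := 536870912) (P3 := 1046898278) (W3 := 26843546) (N0 := 3)
    rfl k0_pp_011

noncomputable def f_pp_012_a : ℕ → ℕ → ℕ → ℕ → Bool := onCell 536870912 536870912 0 420477299 1046898278 26843546
    (rowNX 3 2 false true true .pnp 0 1 2 (qsf 67108864 469762048 0 420477299 1) ndN2q0 ndN2q2a pcN1 Cut.none Ext.none)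

def k0_pp_012_a : ∃ t, chk3 f_pp_012_a t 2 1 1 = true :=
  ⟨(b (a (l 2) (a (b (c (l 16406712) (l 16393704)) (c (l 16405288) (l 16392232))) (b (l 16400216) (b (l 16376848) (l 16419808))))) (a (l 3) (b (a (a (l 268602500183) (l 202030507095)) (b (l 16496440) (l 16614008))) (b (a (l 3) (l 365239586951)) (l 3))))), by decide +kernel⟩

def k1_pp_012_a : ∃ t, chk3 f_pp_012_a t 6 1 1 = true :=
  ⟨(b (a (b (a (l 16400240) (l 16417200)) (a (l 16398776) (l 16410992))) (a (b (l 16453784) (l 16440072)) (b (a (l 16485496) (l 16525056)) (a (l 16467352) (l 16504088))))) (b (a (a (l 16554792) (l 16561768)) (a (l 16560328) (a (l 16601656) (l 16610448)))) (a (b (a (l 258939099191) (b (l 16750808) (l 16621592))) (c (l 249274360871) (l 214914586903))) (b (a (b (l 16763080) (l 16631672)) (a (l 16531896) (b (l 16614040) (a (l 16615568) (l 16519840))))) (a (b (l 16399304) (c (l 16124352) (l 16123192))) (a (b (l 16347008) (c (b (l 16221256) (l 16081184)) (l 16109696))) (b (a (l 16299616) (l 16378168)) (c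 (l 16167440) (l 16179112))))))))), by decide +kernel⟩

def k2_pp_012_a : ∃ t, chk3 f_pp_012_a t 7 2 1 = true :=
  ⟨(a (a (b (l 16558888) (b (l 16625128) (l 16620608))) (b (a (l 16352328) (l 16197336)) (a (b (l 16403520) (l 16390280)) (b (l 16245904) (l 16222600))))) (b (a (l 15939704) (l 15565544)) (b (a (l 15989464) (l 15651504)) (a (a (l 16050616) (a (l 15923680) (c (l 15854576) (l 15823544)))) (a (a (c (a (a (l 15801800) (l 15780808)) (l 15749392)) (l 15736344)) (l 15669024)) (l 15586480)))))), by decide +kernel⟩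

def k3_pp_012_a : ∃ t, chk3 f_pp_012_a t 14 3 1 = true :=
  ⟨(b (a (b (l 16361384) (a (l 16572576) (b (l 16468504) (l 16421008)))) (b (a (l 16346808) (l 16169232)) (l 15980072))) (b (a (b (a (b (l 16517840) (l 16508688)) (l 16348208)) (l 16155872)) (b (c (l 16010800) (l 16048952)) (a (l 16007792) (l 15809152)))) (a (b (c (l 16099440) (l 16119560)) (c (l 15752336) (l 15851480))) (b (a (l 15823720) (c (l 15660792) (l 15621016))) (a (c (l 15598264) (l 15600760)) (c (l 15499640) (l 15454584))))))), by decide +kernel⟩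

def k4_pp_012_a : ∃ t, chk3 f_pp_012_a t 15 6 1 = true :=
  ⟨(c (a (a (l 15902552) (a (l 15637344) (b (l 15779504) (b (l 15697720) (l 15660712))))) (a (a (c (b (a (c (l 15738488) (l 15727896)) (c (l 15708400) (l 15698528))) (a (c (l 15678528) (l 15663136)) (c (l 15671832) (l 15659280)))) (b (l 15700936) (l 15644344))) (c (b (l 15629328) (l 15648568)) (b (a (c (l 15664688) (l 15654408)) (c (l 15647048) (l 15637224))) (c (a (l 15640208) (l 15632088)) (l 15624504))))) (a (c (l 15635160) (b (l 15624672) (l 15611112))) (b (l 15614112) (l 15603760))))) (a (a (l 15915912) (b (l 15787776) (l 15598024))) (a (b (l 15652280) (l 15606464)) (a (c (a (b (l 15610768) (l 15596328)) (c (l 15597496) (b (l 15595384) (l 15582512)))) (l 15576544)) (c (b (l 15584544) (l 15574136)) (a (c (b (l 15553936) (l 15562832)) (l 15557240)) (c (l 15558056) (b (b (l 15548872) (l 15556984)) (a (l 15546008) (l 15542264)))))))))), by decide +kernel⟩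

def k5_pp_012_a : ∃ t, chk3 f_pp_012_a t 30 7 1 = true :=
  ⟨(b (a (b (c (l 15779280) (l 15744120)) (c (l 15650112) (l 15610016))) (a (b (l 15638160) (l 15526992)) (c (b (l 15620832) (l 15506912)) (l 15521432)))) (a (b (l 15493904) (c (l 15365200) (l 15314968))) (a (b (l 15385536) (l 15217528)) (c (b (l 15362416) (b (c (l 15251600) (l 15224216)) (a (b (l 15173360) (l 15142920)) (c (b (l 15213672) (l 15254640)) (l 15213600))))) (b (l 15311984) (b (l 15182840) (a (l 15104032) (l 15171960)))))))), by decide +kernel⟩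

def k6_pp_012_a : ∃ t, chk3 f_pp_012_a t 62 7 1 = true :=
  ⟨(b (c (c (a (b (c (a (c (l 15639032) (l 15626912)) (l 15630184)) (a (l 15615248) (l 15573472))) (c (a (l 15524408) (l 15521048)) (a (l 15501912) (l 15503960)))) (b (b (l 15624416) (l 15584640)) (l 15492296))) (a (b (l 15596168) (l 15481096)) (b (c (a (l 15596304) (l 15589376)) (a (l 15579984) (l 15577056))) (c (a (l 15483328) (l 15476472)) (l 15443656))))) (b (l 15557864) (l 15439392))) (c (a (b (c (a (c (l 15384008) (l 15357800)) (c (b (l 15419112) (l 15357048)) (a (l 15358032) (b (l 15400656) (l 15341280))))) (l 15300048)) (b (c (a (c (a (l 15271336) (b (l 15294040) (l 15322848))) (l 15274064)) (c (l 15408856) (a (l 15342528) (l 15426912)))) (a (l 15253408) (l 15356440))) (c (c (a (c (l 15404432) (l 15385040)) (l 15563392)) (a (l 15368080) (l 15480672))) (l 15430632)))) (c (b (b (a (a (l 15402504) (l 15396272)) (l 15435800)) (a (c (l 15416648) (l 15348752)) (l 15543784))) (a (c (l 15631000) (l 15628904)) (l 15779792)))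 (b (a (b (c (l 15380000) (l 15358664)) (c (a (l 15354064) (l 15419352)) (l 15371968))) (c (b (l 15426288) (l 15536560)) (b (a (l 15382432) (l 15426320)) (l 15522304)))) (a (c (a (l 15566088) (l 15656032)) (l 15590992)) (c (l 15777024) (b (l 15682368) (l 15845984))))))) (b (a (l 15303712) (b (a (l 15327264) (l 15374344)) (l 15271656))) (a (b (l 15214368) (l 15394680)) (l 15586328))))), by decide +kernel⟩

def k7_pp_012_a : ∃ t, chk3 f_pp_012_a t 63 7 1 = true :=
  ⟨(b (c (b (a (c (l 15584632) (a (l 15571312) (l 15561624))) (b (l 15581776) (a (l 15548416) (l 15608256)))) (a (a (c (l 15493056) (b (l 15489568) (l 15409792))) (b (l 15503256) (l 15554160))) (a (l 15437512) (l 15800256)))) (a (c (b (a (c (l 15557656) (l 15544040)) (c (l 15548256) (l 15538112))) (a (c (b (l 15475136) (a (l 15416800) (l 15444768))) (l 15445192)) (c (b (l 15479000) (l 15531488)) (b (l 15384384) (l 15395456))))) (b (l 15524360) (b (l 15448832) (l 15464896)))) (c (b (b (l 15551768) (a (l 15517992) (l 15578208)))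 (a (a (l 15580680) (l 15650968)) (l 15775568))) (b (a (c (a (l 15521168) (c (l 15523528) (l 15518368))) (l 15510856)) (c (b (l 15532776) (l 15563384)) (b (a (l 15522072) (l 15520496)) (a (l 15517904) (l 15573064))))) (a (c (a (l 15566512) (l 15553184)) (l 15595544)) (c (l 15763568) (a (l 15711120) (l 15755712)))))))) (c (a (b (c (l 15703632) (a (l 15525176) (l 15768912))) (c (l 15952456) (a (l 15801144) (l 16087624)))) (b (l 15979712) (b (l 16257568) (l 16253072)))) (a (c (a (a (b (l 15465936) (l 15726832)) (b (l 15443424) (b (l 15873608) (l 15934928)))) (c (b (l 15759768) (l 16083560)) (b (l 15542024) (a (l 16037384) (l 16017440))))) (b (l 15651168) (l 15980920))) (c (b (l 15752752) (a (l 16078152) (b (l 16330744) (l 16497448)))) (c (b (a (a (l 15869392) (l 15847272)) (l 16080368)) (a (a (l 16178744) (c (l 16285288) (l 16241784))) (b (l 16326544) (l 16464080)))) (a (l 15839872) (b (a (l 16030192) (l 15865864)) (a (l 16174880) (b (l 16240168) (c (l 16537328) (l 16462824))))))))))),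 by decide +kernel⟩

theorem s8_pp_012_a : ∃ t, chk3 f_pp_012_a t 31 7 1 = true := ex3_a k6_pp_012_a k7_pp_012_a

theorem s9_pp_012_a : ∃ t, chk3 f_pp_012_a t 15 7 1 = true := ex3_a k5_pp_012_a s8_pp_012_a

theorem s10_pp_012_a : ∃ t, chk3 f_pp_012_a t 15 3 1 = true := ex3_b k4_pp_012_a s9_pp_012_a

theorem s11_pp_012_a : ∃ t, chk3 f_pp_012_a t 7 3 1 = true := ex3_a k3_pp_012_a s10_pp_012_a

theorem s12_pp_012_a : ∃ t, chk3 f_pp_012_a t 7 1 1 = true := ex3_b k2_pp_012_a s11_pp_012_a

theorem s13_pp_012_a : ∃ t, chk3 f_pp_012_a t 3 1 1 = true := ex3_a k1_pp_012_a s12_pp_012_a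

theorem s14_pp_012_a : ∃ t, chk3 f_pp_012_a t 1 1 1 = true := ex3_a k0_pp_012_a s13_pp_012_a

theorem c_pp_012_a : CertNX 67108864 469762048 0 420477299 1046898278 26843546 3 false true true .pnp 0 1 2
    ndN2q0 ndN2q2a pcN1 Cut.none Ext.none :=
  certNX2 (fam := false) (s1 := true) (s2 := true) (a := 0) (b := 1) (c := 2) (cn := .pnp) (n1 := ndN2q0) (n2 := ndN2q2a) (pc := pcN1) (cut := Cut.none) (xt := Ext.none) (P1 := 67108864) (W1 := 469762048) (P2 := 0) (W2 := 420477299) (P3 := 1046898278) (W3 := 26843546) (N0 := 3)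
    rfl (fun _ => rfl) s14_pp_012_a

noncomputable def f_pp_012_b : ℕ → ℕ → ℕ → ℕ → Bool := onCell 536870912 536870912 1239849684 370763052 1046898278 26843546
    (rowNX 3 2 false true true .pnp 0 1 2 (qsf 67108864 469762048 1239849684 370763052 1) ndN2q0 ndN2q2b pcN1 Cut.none Ext.none)

def k0_pp_012_b : ∃ t, chk3 f_pp_012_b t 1 1 1 = true :=
  ⟨(a (a (l 2) (b (a (b (b (l 16513288) (l 2)) (l 2)) (b (b (l 16555232) (l 16750264)) (l 16777216))) (l 2))) (a (a (b (b (a (b (l 16555264) (l 16750312)) (l 16651200)) (l 16759968)) (l 2)) (b (b (b (l 16409744) (l 16595048)) (l 16610984)) (l 16594712))) (b (a (b (b (a (l 16440360) (l 16119816)) (l 16010992)) (l 16074896)) (b (b (a (b (a (l 15927032) (l 15750928)) (l 15735792)) (b (l 15476560) (l 15337656))) (a (l 15599456) (b (a (l 15370376) (l 15189688)) (l 15218136)))) (l 15176888))) (a (l 15998400) (a (l 15490456) (l 15112928)))))), by decide +kernel⟩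

theorem c_pp_012_b : CertNX 67108864 469762048 1239849684 370763052 1046898278 26843546 3 false true true .pnp 0 1 2
    ndN2q0 ndN2q2b pcN1 Cut.none Ext.none :=
  certNX2 (fam := false) (s1 := true) (s2 := true) (a := 0) (b := 1) (c := 2) (cn := .pnp) (n1 := ndN2q0) (n2 := ndN2q2b) (pc := pcN1) (cut := Cut.none) (xt := Ext.none) (P1 := 67108864) (W1 := 469762048) (P2 := 1239849684) (W2 := 370763052) (P3 := 1046898278) (W3 := 26843546) (N0 := 3)
    rfl (fun _ => rfl) k0_pp_012_b

noncomputable def f_pp_022_a : ℕ → ℕ → ℕ → ℕ → Bool := onCell 67108864 469762048 0 420477299 1046898278 26843546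
    (rowNX 3 0 false true true .pp 0 2 2 (qsf 67108864 469762048 0 420477299 2) ndN2q0 ndN2q2a pcN2 Cut.none Ext.none)

def k0_pp_022_a : ∃ t, chk3 f_pp_022_a t 4 2 1 = true :=
  ⟨(a (a (b (a (b (l 16002696) (a (l 16060768) (l 16289616))) (b (l 16096624) (l 16085592))) (a (b (a (l 16012872) (l 16266328)) (l 15892256)) (b (l 16201608) (l 16253336)))) (b (a (c (a (l 15937976) (l 15728888)) (l 15614856)) (l 15697728)) (a (b (c (l 15949272) (l 15922608)) (c (l 16000536) (l 15997248))) (l 15722840)))) (b (a (l 15723480) (b (l 15736744) (l 15868912))) (a (b (l 15881288) (l 15981064)) (b (l 15998680) (l 1))))), by decide +kernel⟩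

def k1_pp_022_a : ∃ t, chk3 f_pp_022_a t 4 6 1 = true :=
  ⟨(a (a (a (a (b (l 15956968) (c (b (a (c (l 15878320) (l 15864448)) (l 16004080)) (c (l 15898944) (l 15781416))) (b (l 15910616) (l 15886896)))) (b (l 16226464) (b (l 16193280) (c (c (l 16180560) (l 16046304)) (l 16011864))))) (a (b (l 16434816) (b (l 16420008) (c (b (l 16445208) (c (l 16391400) (l 16429000))) (a (l 16319072) (l 16370712))))) (b (l 16380704) (l 16357968)))) (a (b (c (l 16029552) (l 16071200)) (c (a (l 16333304) (l 16126608)) (l 16045616))) (b (l 16012544) (l 16138584)))) (a (b (l 16100112) (l 16244080)) (l 1))), by decide +kernel⟩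

def k2_pp_022_a : ∃ t, chk3 f_pp_022_a t 8 14 1 = true :=
  ⟨(b (a (c (a (a (c (l 15809392) (b (l 15891992) (l 15918344))) (c (b (l 16167248) (l 16193544)) (l 15984704))) (a (b (c (l 16364176) (l 16423136)) (c (a (l 16389928) (l 16519144)) (l 16410192))) (b (c (a (l 16617376) (l 16600568)) (l 16634536)) (c (l 16396152) (a (l 16646368) (l 16589152)))))) (a (c (b (l 15845264) (l 15811288)) (a (l 15878464) (l 16157576))) (c (a (b (l 16398336) (c (l 16450560) (l 16449528))) (b (l 16612528) (l 16539256))) (b (l 16317272) (a (l 16446792) (l 16641952)))))) (a (a (b (a (c (c (l 16379560) (l 16417424)) (c (l 16476144) (l 16429936))) (l 16354528)) (c (c (l 16420552) (l 16289272)) (c (a (l 16406504) (l 16351280)) (a (l 16401712) (l 16197624))))) (a (b (l 16228224) (c (l 16242544) (c (l 16229384) (l 16220264)))) (b (l 16179192) (l 1)))) (l 16237528))) (a (a (c (a (c (b (l 15976040) (l 16036616)) (l 15957704)) (c (b (l 16245488) (a (l 16241568) (l 16356032))) (b (l 16241280) (l 16180512)))) (c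 (a (l 15929984) (b (l 16237808) (l 16282904))) (a (l 15982352) (l 16223096)))) (c (a (c (b (a (l 16444120) (l 16512104)) (l 16347464)) (b (a (l 16441520) (l 16552736)) (b (l 16410952) (l 16469800)))) (b (c (l 16482192) (l 16417056)) (l 16322048))) (a (c (b (l 16444376) (a (l 16508376) (l 16559496))) (b (l 16506200) (l 16325184))) (c (b (a (l 16662792) (l 16543400)) (l 16380032)) (b (b (l 16548192) (l 16356168)) (a (l 16396608) (l 16376592))))))) (a (a (c (c (l 16264728) (l 16299704)) (b (c (l 16364120) (a (l 16313080) (l 16296824))) (l 16276944))) (l 1)) (l 1)))), by decide +kernel⟩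

def k3_pp_022_a : ∃ t, chk3 f_pp_022_a t 8 15 1 = true :=
  ⟨(a (b (b (a (c (a (c (a (l 16039816) (l 16179720)) (l 16105392)) (c (a (l 16256072) (l 16415032)) (a (l 16293472) (l 16390416)))) (a (c (l 16102336) (l 16096912)) (c (a (l 16312584) (l 16367816)) (l 16276640)))) (c (a (c (l 16618968) (l 16513232)) (l 1657353330647)) (a (c (a (l 16485488) (l 16668048)) (c (l 16408872) (a (l 16591064) (l 16581096)))) (c (l 16455760) (l 1646615892567))))) (a (c (a (c (a (l 16086536) (l 16208528)) (a (l 16122560) (l 16223544))) (a (c (l 16413288) (l 16366544)) (c (l 16553448) (l 16550408)))) (a (c (l 15961592) (l 16126216)) (c (a (l 16279608) (l 16485096)) (a (l 16257104) (c (l 16505312) (b (l 16521248) (l 16573416))))))) (a (a (c (l 16627864) (c (l 16689928) (l 16480496))) (l 1)) (l 1)))) (a (a (c (b (c (l 16099728) (a (l 16186736) (l 16375824))) (c (l 16332808) (l 16348440))) (c (b (a (l 16077456) (l 16266392)) (a (l 16309112) (l 16502512))) (b (c (a (l 16223016) (l 16327336)) (l 16086048))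 (a (b (l 16186656) (l 16297560)) (b (l 16400504) (l 1)))))) (b (c (c (l 16470320) (l 16488912)) (c (l 16423688) (b (a (l 16380464) (l 16631680)) (l 16453888)))) (l 1))) (l 1))) (l 1)), by decide +kernel⟩

def k4_pp_022_a : ∃ t, chk3 f_pp_022_a t 9 7 1 = true :=
  ⟨(l 1), by decide +kernel⟩

def k5_pp_022_a : ∃ t, chk3 f_pp_022_a t 5 1 1 = true :=
  ⟨(b (l 1) (l 1)), by decide +kernel⟩

def k6_pp_022_a : ∃ t, chk3 f_pp_022_a t 3 1 1 = true :=
  ⟨(l 1), by decide +kernel⟩

theorem s7_pp_022_a : ∃ t, chk3 f_pp_022_a t 8 7 1 = true := ex3_b k2_pp_022_a k3_pp_022_a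

theorem s8_pp_022_a : ∃ t, chk3 f_pp_022_a t 4 7 1 = true := ex3_a s7_pp_022_a k4_pp_022_a

theorem s9_pp_022_a : ∃ t, chk3 f_pp_022_a t 4 3 1 = true := ex3_b k1_pp_022_a s8_pp_022_a

theorem s10_pp_022_a : ∃ t, chk3 f_pp_022_a t 4 1 1 = true := ex3_b k0_pp_022_a s9_pp_022_a

theorem s11_pp_022_a : ∃ t, chk3 f_pp_022_a t 2 1 1 = true := ex3_a s10_pp_022_a k5_pp_022_a

theorem s12_pp_022_a : ∃ t, chk3 f_pp_022_a t 1 1 1 = true := ex3_a s11_pp_022_a k6_pp_022_a

theorem c_pp_022_a : CertNX 67108864 469762048 0 420477299 1046898278 26843546 3 false true true .pp 0 2 2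
    ndN2q0 ndN2q2a pcN2 Cut.none Ext.none :=
  certNX0 (fam := false) (s1 := true) (s2 := true) (a := 0) (b := 2) (c := 2) (cn := .pp) (n1 := ndN2q0) (n2 := ndN2q2a) (pc := pcN2) (cut := Cut.none) (xt := Ext.none) (P1 := 67108864) (W1 := 469762048) (P2 := 0) (W2 := 420477299) (P3 := 1046898278) (W3 := 26843546) (N0 := 3)
    rfl s12_pp_022_a

noncomputable def f_pp_022_b : ℕ → ℕ → ℕ → ℕ → Bool := onCell 67108864 469762048 1073741824 536870912 1046898278 26843546
    (rowNX 3 1 false true true .pp 0 2 2 (qsf 67108864 469762048 1239849684 370763052 2) ndN2q0 ndN2q2b pcN2 Cut.none Ext.none)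

def k0_pp_022_b : ∃ t, chk3 f_pp_022_b t 1 2 1 = true :=
  ⟨(b (a (a (a (b (a (l 1) (b (l 1) (a (b (l 1) (c (l 277056313399) (l 15491320))) (l 330206218919)))) (a (b (b (a (l 1) (a (l 16229912) (l 15984648))) (a (a (c (l 16066776) (l 16092600)) (l 16253296)) (c (l 15921320) (l 15962176)))) (a (c (a (l 16246752) (l 15988528)) (l 15941040)) (c (l 15606144) (l 15569760)))) (a (b (c (a (l 15644672) (l 15360408)) (l 409662837223)) (c (l 14958024) (l 14982504))) (b (l 15198976) (l 14780040))))) (b (a (b (b (l 15689360) (l 329669419943)) (l 15343224)) (b (a (l 15397976) (l 15403488)) (l 15102960))) (b (a (l 15004312) (l 14863664)) (a (l 14665536) (l 14595856))))) (a (b (b (a (l 15302176) (l 15222488)) (a (l 15047320) (l 15051696))) (b (l 14902736) (l 14646808))) (b (l 15092816) (l 14796952)))) (b (a (l 15018792) (l 14932184)) (a (l 14801144) (l 14806136)))) (a (a (b (a (b (a (b (a (a (l 15879248) (l 15635568)) (l 15220856)) (a (a (l 15940016) (l 15743584)) (l 15377920))) (b (a (c (l 14754272)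 (l 14684624)) (l 14543984)) (a (l 14925624) (l 14760920)))) (a (a (b (l 16043456) (l 15797592)) (b (l 15800560) (l 16284504))) (a (c (l 15604920) (l 15630520)) (l 15496240)))) (b (b (l 14432888) (l 14656056)) (l 15397376))) (a (b (a (a (l 15257568) (l 15903896)) (a (b (l 16320848) (l 16570744)) (l 16396312))) (a (a (l 15010432) (l 15715544)) (a (l 16391920) (l 16644232)))) (b (l 16221440) (l 16736176)))) (b (b (b (a (l 14456472) (l 14491384)) (a (l 14679400) (l 14713168))) (a (l 15415296) (l 15442744))) (b (a (l 16315712) (l 16334408)) (a (l 16746656) (l 16776600))))) (b (b (b (l 14522224) (l 14744320)) (l 15464384)) (b (l 16224976) (l 16746504))))), by decide +kernel⟩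

def k1_pp_022_b : ∃ t, chk3 f_pp_022_b t 1 3 1 = true :=
  ⟨(a (b (a (a (a (b (a (l 15009920) (l 15715048)) (l 15152744)) (b (l 16287400) (l 16518088))) (l 16735584)) (a (l 16746064) (l 16774336))) (a (a (a (a (l 15009920) (l 15715048)) (a (l 16391448) (l 16643792))) (l 16735584)) (l 2))) (l 2)), by decide +kernel⟩

theorem s2_pp_022_b : ∃ t, chk3 f_pp_022_b t 1 1 1 = true := ex3_b k0_pp_022_b k1_pp_022_b

theorem c_pp_022_b : CertNX 67108864 469762048 1239849684 370763052 1046898278 26843546 3 false true true .pp 0 2 2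
    ndN2q0 ndN2q2b pcN2 Cut.none Ext.none :=
  certNX1 (fam := false) (s1 := true) (s2 := true) (a := 0) (b := 2) (c := 2) (cn := .pp) (n1 := ndN2q0) (n2 := ndN2q2b) (pc := pcN2) (cut := Cut.none) (xt := Ext.none) (P1 := 67108864) (W1 := 469762048) (P2 := 1239849684) (W2 := 370763052) (P3 := 1046898278) (W3 := 26843546) (N0 := 3)
    rfl (fun _ => rfl) s2_pp_022_b

noncomputable def f_pp_023 : ℕ → ℕ → ℕ → ℕ → Bool := onCell 67108864 469762048 1073741824 536870912 1046898278 26843546
    (rowNX 3 1 false true true .up 0 2 3 (qsf 67108864 469762048 1610612736 469762048 2) ndN2q0 ndN2q3 pcN2 Cut.none Ext.none)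

def k0_pp_023 : ∃ t, chk3 f_pp_023 t 1 1 1 = true :=
  ⟨(b (b (a (l 1) (b (l 377986569719) (a (l 14801144) (l 14806136)))) (a (a (l 1) (b (l 1) (b (l 1288522336567) (l 438120692759)))) (b (b (b (l 14522224) (l 14744320)) (l 15464384)) (b (l 16162056) (l 16746504))))) (a (b (a (a (l 1) (l 16735584)) (a (l 16746064) (l 16774336))) (a (a (a (l 223368520999) (l 163778161031)) (l 16735584)) (a (l 16746064) (l 16777216)))) (b (b (l 16822352) (l 16774160)) (a (l 16777048) (b (l 16749384) (l 16723256)))))), by decide +kernel⟩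

theorem c_pp_023 : CertNX 67108864 469762048 1610612736 469762048 1046898278 26843546 3 false true true .up 0 2 3
    ndN2q0 ndN2q3 pcN2 Cut.none Ext.none :=
  certNX1 (fam := false) (s1 := true) (s2 := true) (a := 0) (b := 2) (c := 3) (cn := .up) (n1 := ndN2q0) (n2 := ndN2q3) (pc := pcN2) (cut := Cut.none) (xt := Ext.none) (P1 := 67108864) (W1 := 469762048) (P2 := 1610612736) (W2 := 469762048) (P3 := 1046898278) (W3 := 26843546) (N0 := 3)
    rfl (fun _ => rfl) k0_pp_023

noncomputable def f_pp_033 : ℕ → ℕ → ℕ → ℕ → Bool := onCell 67108864 469762048 1610612736 536870912 1046898278 26843546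
    (rowNX 3 1 false true true .pnn 0 3 3 (qsf 67108864 469762048 1610612736 469762048 3) ndN2q0 ndN2q3 pcN3 Cut.none Ext.none)

def k0_pp_033 : ∃ t, chk3 f_pp_033 t 1 1 1 = true :=
  ⟨(b (a (a (a (b (a (b (l 15362456) (l 15299544)) (b (l 16518088) (l 16518088))) (b (a (l 15173712) (l 16287416)) (b (a (l 15362496) (l 16518216)) (l 4)))) (b (b (l 16735584) (l 16735584)) (b (l 16735688) (l 4)))) (b (b (l 16762056) (a (l 16746136) (l 16774408))) (b (a (l 16742192) (l 4)) (l 4)))) (b (a (b (l 16748376) (b (l 16728544) (l 4))) (b (l 16675960) (l 2))) (a (l 4) (l 2)))) (a (b (a (l 4) (b (l 4) (l 2))) (a (b (l 4) (l 2)) (l 2))) (l 2))), by decide +kernel⟩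

theorem c_pp_033 : CertNX 67108864 469762048 1610612736 469762048 1046898278 26843546 3 false true true .pnn 0 3 3
    ndN2q0 ndN2q3 pcN3 Cut.none Ext.none :=
  certNX1 (fam := false) (s1 := true) (s2 := true) (a := 0) (b := 3) (c := 3) (cn := .pnn) (n1 := ndN2q0) (n2 := ndN2q3) (pc := pcN3) (cut := Cut.none) (xt := Ext.none) (P1 := 67108864) (W1 := 469762048) (P2 := 1610612736) (W2 := 469762048) (P3 := 1046898278) (W3 := 26843546) (N0 := 3)
    rfl (fun _ => rfl) k0_pp_033

noncomputable def f_pp_101 : ℕ → ℕ → ℕ → ℕ → Bool := onCell 536870912 536870912 536870912 536870912 1046898278 26843546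
    (rowNX 3 0 false true true .npn 1 0 1 (qsf 536870912 536870912 536870912 536870912 0) ndN2q1 ndN2q1 pcN0 Cut.none Ext.none)

def k0_pp_101 : ∃ t, chk3 f_pp_101 t 1 1 1 = true :=
  ⟨(l 3), by decide +kernel⟩

theorem c_pp_101 : CertNX 536870912 536870912 536870912 536870912 1046898278 26843546 3 false true true .npn 1 0 1
    ndN2q1 ndN2q1 pcN0 Cut.none Ext.none :=
  certNX0 (fam := false) (s1 := true) (s2 := true) (a := 1) (b := 0) (c := 1) (cn := .npn) (n1 := ndN2q1) (n2 := ndN2q1) (pc := pcN0) (cut := Cut.none) (xt := Ext.none) (P1 := 536870912) (W1 := 536870912) (P2 := 536870912) (W2 := 536870912) (P3 := 1046898278) (W3 := 26843546) (N0 := 3)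
    rfl k0_pp_101

noncomputable def f_pp_102_a : ℕ → ℕ → ℕ → ℕ → Bool := onCell 0 536870912 0 420477299 1046898278 26843546
    (rowNX 3 2 false true true .npp 1 0 2 (qsf 536870912 536870912 0 420477299 0) ndN2q1 ndN2q2a pcN0 Cut.none Ext.none)

def k0_pp_102_a : ∃ t, chk3 f_pp_102_a t 1 1 1 = true :=
  ⟨(a (l 3) (b (a (l 3) (a (l 3) (b (c (l 280413520727) (l 286855948295)) (l 3)))) (l 3))), by decide +kernel⟩

theorem c_pp_102_a : CertNX 536870912 536870912 0 420477299 1046898278 26843546 3 false true true .npp 1 0 2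
    ndN2q1 ndN2q2a pcN0 Cut.none Ext.none :=
  certNX2 (fam := false) (s1 := true) (s2 := true) (a := 1) (b := 0) (c := 2) (cn := .npp) (n1 := ndN2q1) (n2 := ndN2q2a) (pc := pcN0) (cut := Cut.none) (xt := Ext.none) (P1 := 536870912) (W1 := 536870912) (P2 := 0) (W2 := 420477299) (P3 := 1046898278) (W3 := 26843546) (N0 := 3)
    rfl (fun _ => rfl) k0_pp_102_a

noncomputable def f_pp_102_b : ℕ → ℕ → ℕ → ℕ → Bool := onCell 0 536870912 1239849684 370763052 1046898278 26843546
    (rowNX 3 2 false true true .npp 1 0 2 (qsf 536870912 536870912 1239849684 370763052 0) ndN2q1 ndN2q2b pcN0 Cut.none Ext.none)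

def k0_pp_102_b : ∃ t, chk3 f_pp_102_b t 1 1 1 = true :=
  ⟨(a (l 3) (b (a (l 3) (a (l 3) (a (l 3) (b (b (l 228337224631) (l 16750264)) (l 302962468135))))) (a (l 3) (a (l 3) (b (b (l 3) (l 3)) (l 3)))))), by decide +kernel⟩

theorem c_pp_102_b : CertNX 536870912 536870912 1239849684 370763052 1046898278 26843546 3 false true true .npp 1 0 2
    ndN2q1 ndN2q2b pcN0 Cut.none Ext.none :=
  certNX2 (fam := false) (s1 := true) (s2 := true) (a := 1) (b := 0) (c := 2) (cn := .npp) (n1 := ndN2q1) (n2 := ndN2q2b) (pc := pcN0) (cut := Cut.none) (xt := Ext.none) (P1 := 536870912) (W1 := 536870912) (P2 := 1239849684) (W2 := 370763052) (P3 := 1046898278) (W3 := 26843546) (N0 := 3)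
    rfl (fun _ => rfl) k0_pp_102_b

noncomputable def f_pp_112_a : ℕ → ℕ → ℕ → ℕ → Bool := onCell 536870912 536870912 0 420477299 1046898278 26843546
    (rowNX 3 2 false true true .dn 1 1 2 (qsf 536870912 536870912 0 420477299 1) ndN2q1 ndN2q2a pcN1 Cut.none Ext.none)

def k0_pp_112_a : ∃ t, chk3 f_pp_112_a t 1 1 1 = true :=
  ⟨(a (a (b (a (b (c (a (l 16406712) (l 16406712)) (l 225115791767)) (l 3)) (b (c (l 137605857815) (l 16393704)) (a (c (l 258401771831) (l 16392232)) (l 200419702903)))) (l 3)) (a (b (b (c (l 16406712) (l 16393704)) (c (l 16405288) (l 16392232))) (b (a (l 253033243735) (l 1)) (l 1))) (l 1))) (l 1)), by decide +kernel⟩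

theorem c_pp_112_a : CertNX 536870912 536870912 0 420477299 1046898278 26843546 3 false true true .dn 1 1 2
    ndN2q1 ndN2q2a pcN1 Cut.none Ext.none :=
  certNX2 (fam := false) (s1 := true) (s2 := true) (a := 1) (b := 1) (c := 2) (cn := .dn) (n1 := ndN2q1) (n2 := ndN2q2a) (pc := pcN1) (cut := Cut.none) (xt := Ext.none) (P1 := 536870912) (W1 := 536870912) (P2 := 0) (W2 := 420477299) (P3 := 1046898278) (W3 := 26843546) (N0 := 3)
    rfl (fun _ => rfl) k0_pp_112_a

noncomputable def f_pp_112_b : ℕ → ℕ → ℕ → ℕ → Bool := onCell 536870912 536870912 1239849684 370763052 1046898278 26843546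
    (rowNX 3 2 false true true .dn 1 1 2 (qsf 536870912 536870912 1239849684 370763052 1) ndN2q1 ndN2q2b pcN1 Cut.none Ext.none)

def k0_pp_112_b : ∃ t, chk3 f_pp_112_b t 1 1 1 = true :=
  ⟨(a (b (a (a (b (c (b (l 16559056) (l 16750728)) (b (l 16551400) (l 16749800))) (a (l 16694752) (l 16772696))) (b (c (b (l 16559056) (l 16750728)) (b (l 16551400) (l 16749800))) (l 16777216))) (a (b (b (l 16534264) (l 16750264)) (l 16777216)) (b (b (l 16555232) (l 16750264)) (l 16777216)))) (a (a (b (a (b (l 16509072) (l 16131376)) (b (l 16673160) (l 16413728))) (a (b (l 15690664) (l 15142248)) (b (l 16068552) (l 15541544)))) (b (a (l 16683240) (l 16748648)) (a (b (l 16346552) (l 15928424)) (l 16366480)))) (a (b (l 16776208) (a (l 16584936) (l 16702424))) (a (l 16766976) (l 16777200))))) (a (b (b (l 1) (a (l 16759968) (l 16610984))) (a (l 16758392) (l 16594712))) (b (l 1) (a (l 15998400) (l 312488975751))))), by decide +kernel⟩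

theorem c_pp_112_b : CertNX 536870912 536870912 1239849684 370763052 1046898278 26843546 3 false true true .dn 1 1 2
    ndN2q1 ndN2q2b pcN1 Cut.none Ext.none :=
  certNX2 (fam := false) (s1 := true) (s2 := true) (a := 1) (b := 1) (c := 2) (cn := .dn) (n1 := ndN2q1) (n2 := ndN2q2b) (pc := pcN1) (cut := Cut.none) (xt := Ext.none) (P1 := 536870912) (W1 := 536870912) (P2 := 1239849684) (W2 := 370763052) (P3 := 1046898278) (W3 := 26843546) (N0 := 3)
    rfl (fun _ => rfl) k0_pp_112_b

noncomputable def f_pp_113 : ℕ → ℕ → ℕ → ℕ → Bool := onCell 536870912 536870912 536870912 536870912 1046898278 26843546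
    (rowNX 3 1 false true true .nn 1 1 3 (qsf 536870912 536870912 1610612736 469762048 1) ndN2q1 ndN2q3 pcN1 Cut.none Ext.none)

def k0_pp_113 : ∃ t, chk3 f_pp_113 t 1 1 1 = true :=
  ⟨(b (a (b (l 1) (b (l 1) (l 364568903671))) (b (a (b (l 1) (a (l 1) (l 16326056))) (b (a (l 534754636279) (c (l 15094104) (l 15035024))) (a (l 279740932103) (b (l 15064600) (l 15064600))))) (a (b (a (l 16740768) (l 16472856)) (a (l 16740768) (l 16472856))) (b (a (l 15855624) (l 15064600)) (a (l 15855624) (l 15064600)))))) (b (a (b (l 16758328) (l 204580784311)) (a (b (l 16573168) (l 16185552)) (b (a (l 15836512) (l 15045968)) (a (l 15666848) (l 14881336))))) (a (b (l 16011776) (a (l 15252168) (l 15208288))) (a (b (l 15808616) (l 15003400)) (b (a (l 15131784) (l 14265664)) (a (l 14397296) (b (l 14081696) (l 14076600)))))))), by decide +kernel⟩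

theorem c_pp_113 : CertNX 536870912 536870912 1610612736 469762048 1046898278 26843546 3 false true true .nn 1 1 3
    ndN2q1 ndN2q3 pcN1 Cut.none Ext.none :=
  certNX1 (fam := false) (s1 := true) (s2 := true) (a := 1) (b := 1) (c := 3) (cn := .nn) (n1 := ndN2q1) (n2 := ndN2q3) (pc := pcN1) (cut := Cut.none) (xt := Ext.none) (P1 := 536870912) (W1 := 536870912) (P2 := 1610612736) (W2 := 469762048) (P3 := 1046898278) (W3 := 26843546) (N0 := 3)
    rfl (fun _ => rfl) k0_pp_113

noncomputable def f_pp_123 : ℕ → ℕ → ℕ → ℕ → Bool := onCell 1073741824 536870912 1610612736 469762048 1046898278 26843546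
    (rowNX 3 2 false true true .npn 1 2 3 (qsf 536870912 536870912 1610612736 469762048 2) ndN2q1 ndN2q3 pcN2 Cut.none Ext.none)

def k0_pp_123 : ∃ t, chk3 f_pp_123 t 1 1 1 = true :=
  ⟨(b (a (a (a (l 14848168) (l 14557040)) (a (a (a (l 14539640) (l 14758816)) (l 15468712)) (a (l 16331536) (l 16757416)))) (l 1)) (a (a (b (a (l 14727432) (l 14798656)) (a (b (l 14587496) (a (l 14247272) (l 14670768))) (b (l 14771360) (l 14749464)))) (a (b (a (a (l 14560240) (l 14778528)) (l 15461496)) (a (l 14672208) (l 15425616))) (a (b (l 16261816) (l 16152256)) (l 16595008)))) (a (a (l 348999952439) (l 16745024)) (l 413424600519)))), by decide +kernel⟩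

theorem c_pp_123 : CertNX 536870912 536870912 1610612736 469762048 1046898278 26843546 3 false true true .npn 1 2 3
    ndN2q1 ndN2q3 pcN2 Cut.none Ext.none :=
  certNX2 (fam := false) (s1 := true) (s2 := true) (a := 1) (b := 2) (c := 3) (cn := .npn) (n1 := ndN2q1) (n2 := ndN2q3) (pc := pcN2) (cut := Cut.none) (xt := Ext.none) (P1 := 536870912) (W1 := 536870912) (P2 := 1610612736) (W2 := 469762048) (P3 := 1046898278) (W3 := 26843546) (N0 := 3)
    rfl (fun _ => rfl) k0_pp_123

noncomputable def f_pp_133 : ℕ → ℕ → ℕ → ℕ → Bool := onCell 536870912 536870912 1610612736 469762048 1046898278 26843546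
    (rowNX 3 0 false true true .dn 1 3 3 (qsf 536870912 536870912 1610612736 469762048 3) ndN2q1 ndN2q3 pcN3 Cut.none Ext.none)

def k0_pp_133 : ∃ t, chk3 f_pp_133 t 1 1 1 = true :=
  ⟨(l 1), by decide +kernel⟩

theorem c_pp_133 : CertNX 536870912 536870912 1610612736 469762048 1046898278 26843546 3 false true true .dn 1 3 3
    ndN2q1 ndN2q3 pcN3 Cut.none Ext.none :=
  certNX0 (fam := false) (s1 := true) (s2 := true) (a := 1) (b := 3) (c := 3) (cn := .dn) (n1 := ndN2q1) (n2 := ndN2q3) (pc := pcN3) (cut := Cut.none) (xt := Ext.none) (P1 := 536870912) (W1 := 536870912) (P2 := 1610612736) (W2 := 469762048) (P3 := 1046898278) (W3 := 26843546) (N0 := 3)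
    rfl k0_pp_133

noncomputable def f_pp_202_aa : ℕ → ℕ → ℕ → ℕ → Bool := onCell 0 420477299 0 420477299 1046898278 26843546
    (rowNX 3 0 false true true .pp 2 0 2 (qsf 0 420477299 0 420477299 0) ndN2q2a ndN2q2a pcN0 Cut.none Ext.none)

def k0_pp_202_aa : ∃ t, chk3 f_pp_202_aa t 1 1 1 = true :=
  ⟨(l 3), by decide +kernel⟩

theorem c_pp_202_aa : CertNX 0 420477299 0 420477299 1046898278 26843546 3 false true true .pp 2 0 2
    ndN2q2a ndN2q2a pcN0 Cut.none Ext.none :=
  certNX0 (fam := false) (s1 := true) (s2 := true) (a := 2) (b := 0) (c := 2) (cn := .pp) (n1 := ndN2q2a) (n2 := ndN2q2a) (pc := pcN0) (cut := Cut.none) (xt := Ext.none) (P1 := 0) (W1 := 420477299) (P2 := 0) (W2 := 420477299) (P3 := 1046898278) (W3 := 26843546) (N0 := 3)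
    rfl k0_pp_202_aa

noncomputable def f_pp_202_ab : ℕ → ℕ → ℕ → ℕ → Bool := onCell 0 420477299 1239849684 370763052 1046898278 26843546
    (rowNX 3 0 false true true .pp 2 0 2 (qsf 0 420477299 1239849684 370763052 0) ndN2q2a ndN2q2b pcN0 Cut.none Ext.none)

def k0_pp_202_ab : ∃ t, chk3 f_pp_202_ab t 1 1 1 = true :=
  ⟨(l 3), by decide +kernel⟩

theorem c_pp_202_ab : CertNX 0 420477299 1239849684 370763052 1046898278 26843546 3 false true true .pp 2 0 2
    ndN2q2a ndN2q2b pcN0 Cut.none Ext.none :=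
  certNX0 (fam := false) (s1 := true) (s2 := true) (a := 2) (b := 0) (c := 2) (cn := .pp) (n1 := ndN2q2a) (n2 := ndN2q2b) (pc := pcN0) (cut := Cut.none) (xt := Ext.none) (P1 := 0) (W1 := 420477299) (P2 := 1239849684) (W2 := 370763052) (P3 := 1046898278) (W3 := 26843546) (N0 := 3)
    rfl k0_pp_202_ab

noncomputable def f_pp_202_ba : ℕ → ℕ → ℕ → ℕ → Bool := onCell 1239849684 370763052 0 420477299 1046898278 26843546
    (rowNX 3 0 false true true .pp 2 0 2 (qsf 1239849684 370763052 0 420477299 0) ndN2q2b ndN2q2a pcN0 Cut.none Ext.none)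

def k0_pp_202_ba : ∃ t, chk3 f_pp_202_ba t 1 1 1 = true :=
  ⟨(l 3), by decide +kernel⟩

theorem c_pp_202_ba : CertNX 1239849684 370763052 0 420477299 1046898278 26843546 3 false true true .pp 2 0 2
    ndN2q2b ndN2q2a pcN0 Cut.none Ext.none :=
  certNX0 (fam := false) (s1 := true) (s2 := true) (a := 2) (b := 0) (c := 2) (cn := .pp) (n1 := ndN2q2b) (n2 := ndN2q2a) (pc := pcN0) (cut := Cut.none) (xt := Ext.none) (P1 := 1239849684) (W1 := 370763052) (P2 := 0) (W2 := 420477299) (P3 := 1046898278) (W3 := 26843546) (N0 := 3)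
    rfl k0_pp_202_ba

noncomputable def f_pp_202_bb : ℕ → ℕ → ℕ → ℕ → Bool := onCell 1239849684 370763052 1239849684 370763052 1046898278 26843546
    (rowNX 3 0 false true true .pp 2 0 2 (qsf 1239849684 370763052 1239849684 370763052 0) ndN2q2b ndN2q2b pcN0 Cut.none Ext.none)

def k0_pp_202_bb : ∃ t, chk3 f_pp_202_bb t 1 1 1 = true :=
  ⟨(l 3), by decide +kernel⟩

theorem c_pp_202_bb : CertNX 1239849684 370763052 1239849684 370763052 1046898278 26843546 3 false true true .pp 2 0 2
    ndN2q2b ndN2q2b pcN0 Cut.none Ext.none :=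
  certNX0 (fam := false) (s1 := true) (s2 := true) (a := 2) (b := 0) (c := 2) (cn := .pp) (n1 := ndN2q2b) (n2 := ndN2q2b) (pc := pcN0) (cut := Cut.none) (xt := Ext.none) (P1 := 1239849684) (W1 := 370763052) (P2 := 1239849684) (W2 := 370763052) (P3 := 1046898278) (W3 := 26843546) (N0 := 3)
    rfl k0_pp_202_bb

noncomputable def f_pp_203_a : ℕ → ℕ → ℕ → ℕ → Bool := onCell 0 420477299 1610612736 469762048 1046898278 26843546
    (rowNX 3 0 false true true .up 2 0 3 (qsf 0 420477299 1610612736 469762048 0) ndN2q2a ndN2q3 pcN0 Cut.none Ext.none)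

def k0_pp_203_a : ∃ t, chk3 f_pp_203_a t 1 1 1 = true :=
  ⟨(l 3), by decide +kernel⟩

theorem c_pp_203_a : CertNX 0 420477299 1610612736 469762048 1046898278 26843546 3 false true true .up 2 0 3
    ndN2q2a ndN2q3 pcN0 Cut.none Ext.none :=
  certNX0 (fam := false) (s1 := true) (s2 := true) (a := 2) (b := 0) (c := 3) (cn := .up) (n1 := ndN2q2a) (n2 := ndN2q3) (pc := pcN0) (cut := Cut.none) (xt := Ext.none) (P1 := 0) (W1 := 420477299) (P2 := 1610612736) (W2 := 469762048) (P3 := 1046898278) (W3 := 26843546) (N0 := 3)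
    rfl k0_pp_203_a

noncomputable def f_pp_203_b : ℕ → ℕ → ℕ → ℕ → Bool := onCell 1239849684 370763052 1610612736 469762048 1046898278 26843546
    (rowNX 3 0 false true true .up 2 0 3 (qsf 1239849684 370763052 1610612736 469762048 0) ndN2q2b ndN2q3 pcN0 Cut.none Ext.none)

def k0_pp_203_b : ∃ t, chk3 f_pp_203_b t 1 1 1 = true :=
  ⟨(l 3), by decide +kernel⟩

theorem c_pp_203_b : CertNX 1239849684 370763052 1610612736 469762048 1046898278 26843546 3 false true true .up 2 0 3
    ndN2q2b ndN2q3 pcN0 Cut.none Ext.none :=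
  certNX0 (fam := false) (s1 := true) (s2 := true) (a := 2) (b := 0) (c := 3) (cn := .up) (n1 := ndN2q2b) (n2 := ndN2q3) (pc := pcN0) (cut := Cut.none) (xt := Ext.none) (P1 := 1239849684) (W1 := 370763052) (P2 := 1610612736) (W2 := 469762048) (P3 := 1046898278) (W3 := 26843546) (N0 := 3)
    rfl k0_pp_203_b

noncomputable def f_pp_213_a : ℕ → ℕ → ℕ → ℕ → Bool := onCell 0 420477299 1610612736 469762048 1046898278 26843546
    (rowNX 3 0 false true true .pnn 2 1 3 (qsf 0 420477299 1610612736 469762048 1) ndN2q2a ndN2q3 pcN1 Cut.none Ext.none)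

def k0_pp_213_a : ∃ t, chk3 f_pp_213_a t 1 1 1 = true :=
  ⟨(l 3), by decide +kernel⟩

theorem c_pp_213_a : CertNX 0 420477299 1610612736 469762048 1046898278 26843546 3 false true true .pnn 2 1 3
    ndN2q2a ndN2q3 pcN1 Cut.none Ext.none :=
  certNX0 (fam := false) (s1 := true) (s2 := true) (a := 2) (b := 1) (c := 3) (cn := .pnn) (n1 := ndN2q2a) (n2 := ndN2q3) (pc := pcN1) (cut := Cut.none) (xt := Ext.none) (P1 := 0) (W1 := 420477299) (P2 := 1610612736) (W2 := 469762048) (P3 := 1046898278) (W3 := 26843546) (N0 := 3)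
    rfl k0_pp_213_a

noncomputable def f_pp_213_b : ℕ → ℕ → ℕ → ℕ → Bool := onCell 1239849684 370763052 1610612736 469762048 1046898278 26843546
    (rowNX 3 0 false true true .pnn 2 1 3 (qsf 1239849684 370763052 1610612736 469762048 1) ndN2q2b ndN2q3 pcN1 Cut.none Ext.none)

def k0_pp_213_b : ∃ t, chk3 f_pp_213_b t 1 1 1 = true :=
  ⟨(l 3), by decide +kernel⟩

theorem c_pp_213_b : CertNX 1239849684 370763052 1610612736 469762048 1046898278 26843546 3 false true true .pnn 2 1 3
    ndN2q2b ndN2q3 pcN1 Cut.none Ext.none :=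
  certNX0 (fam := false) (s1 := true) (s2 := true) (a := 2) (b := 1) (c := 3) (cn := .pnn) (n1 := ndN2q2b) (n2 := ndN2q3) (pc := pcN1) (cut := Cut.none) (xt := Ext.none) (P1 := 1239849684) (W1 := 370763052) (P2 := 1610612736) (W2 := 469762048) (P3 := 1046898278) (W3 := 26843546) (N0 := 3)
    rfl k0_pp_213_b

noncomputable def f_pp_303 : ℕ → ℕ → ℕ → ℕ → Bool := onCell 1610612736 469762048 1610612736 469762048 1046898278 26843546
    (rowNX 3 0 false true true .npn 3 0 3 (qsf 1610612736 469762048 1610612736 469762048 0) ndN2q3 ndN2q3 pcN0 Cut.none Ext.none)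

def k0_pp_303 : ∃ t, chk3 f_pp_303 t 1 1 1 = true :=
  ⟨(l 3), by decide +kernel⟩

theorem c_pp_303 : CertNX 1610612736 469762048 1610612736 469762048 1046898278 26843546 3 false true true .npn 3 0 3
    ndN2q3 ndN2q3 pcN0 Cut.none Ext.none :=
  certNX0 (fam := false) (s1 := true) (s2 := true) (a := 3) (b := 0) (c := 3) (cn := .npn) (n1 := ndN2q3) (n2 := ndN2q3) (pc := pcN0) (cut := Cut.none) (xt := Ext.none) (P1 := 1610612736) (W1 := 469762048) (P2 := 1610612736) (W2 := 469762048) (P3 := 1046898278) (W3 := 26843546) (N0 := 3)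
    rfl k0_pp_303

noncomputable def f_pp_313 : ℕ → ℕ → ℕ → ℕ → Bool := onCell 1610612736 469762048 1610612736 469762048 1046898278 26843546
    (rowNX 3 0 false true true .dn 3 1 3 (qsf 1610612736 469762048 1610612736 469762048 1) ndN2q3 ndN2q3 pcN1 Cut.none Ext.none)

def k0_pp_313 : ∃ t, chk3 f_pp_313 t 1 1 1 = true :=
  ⟨(l 1), by decide +kernel⟩

theorem c_pp_313 : CertNX 1610612736 469762048 1610612736 469762048 1046898278 26843546 3 false true true .dn 3 1 3
    ndN2q3 ndN2q3 pcN1 Cut.none Ext.none :=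
  certNX0 (fam := false) (s1 := true) (s2 := true) (a := 3) (b := 1) (c := 3) (cn := .dn) (n1 := ndN2q3) (n2 := ndN2q3) (pc := pcN1) (cut := Cut.none) (xt := Ext.none) (P1 := 1610612736) (W1 := 469762048) (P2 := 1610612736) (W2 := 469762048) (P3 := 1046898278) (W3 := 26843546) (N0 := 3)
    rfl k0_pp_313

noncomputable def f_pm_001 : ℕ → ℕ → ℕ → ℕ → Bool := onCell 67108864 469762048 536870912 536870912 1046898278 26843546
    (rowNX 3 0 false true false .up 0 0 1 (qsf 67108864 469762048 536870912 536870912 0) ndN2q0 ndN2q1 pcN0 Cut.none Ext.none)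

def k0_pm_001 : ∃ t, chk3 f_pm_001 t 1 1 1 = true :=
  ⟨(l 4), by decide +kernel⟩

theorem c_pm_001 : CertNX 67108864 469762048 536870912 536870912 1046898278 26843546 3 false true false .up 0 0 1
    ndN2q0 ndN2q1 pcN0 Cut.none Ext.none :=
  certNX0 (fam := false) (s1 := true) (s2 := false) (a := 0) (b := 0) (c := 1) (cn := .up) (n1 := ndN2q0) (n2 := ndN2q1) (pc := pcN0) (cut := Cut.none) (xt := Ext.none) (P1 := 67108864) (W1 := 469762048) (P2 := 536870912) (W2 := 536870912) (P3 := 1046898278) (W3 := 26843546) (N0 := 3)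
    rfl k0_pm_001

noncomputable def f_pm_011 : ℕ → ℕ → ℕ → ℕ → Bool := onCell 67108864 469762048 536870912 536870912 1046898278 26843546
    (rowNX 3 0 false true false .pnn 0 1 1 (qsf 67108864 469762048 536870912 536870912 1) ndN2q0 ndN2q1 pcN1 Cut.none Ext.none)

def k0_pm_011 : ∃ t, chk3 f_pm_011 t 1 1 1 = true :=
  ⟨(l 4), by decide +kernel⟩

theorem c_pm_011 : CertNX 67108864 469762048 536870912 536870912 1046898278 26843546 3 false true false .pnn 0 1 1
    ndN2q0 ndN2q1 pcN1 Cut.none Ext.none :=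
  certNX0 (fam := false) (s1 := true) (s2 := false) (a := 0) (b := 1) (c := 1) (cn := .pnn) (n1 := ndN2q0) (n2 := ndN2q1) (pc := pcN1) (cut := Cut.none) (xt := Ext.none) (P1 := 67108864) (W1 := 469762048) (P2 := 536870912) (W2 := 536870912) (P3 := 1046898278) (W3 := 26843546) (N0 := 3)
    rfl k0_pm_011

end Pool.Agent.Strip051.G.IE1.Tab.C.NB22

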