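import Pool.Agent.Strip051.G.IE1.Tab

/-! # Certificates N67 (generated) -/

set_option linter.all false
set_option maxRecDepth 100000

namespace Pool.Agent.Strip051.G.IE1.Tab.C.NB22

open Pool.Agent.Strip051.PB Pool.Agent.Strip051.PB.T
open Pool.Agent.Strip051.G.IE1.Tab

noncomputable def f_pm_012_a : ℕ → ℕ → ℕ → ℕ → Bool := onCell 536870912 536870912 0 420477299 1046898278 26843546
    (rowNX 3 2 false true false .pnp 0 1 2 (qsf 67108864 469762048 0 420477299 1) ndN2q0 ndN2q2a pcN1 Cut.none Ext.none)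

def k0_pm_012_a : ∃ t, chk3 f_pm_012_a t 2 1 1 = true :=
  ⟨(b (a (l 2) (b (l 16400216) (a (l 16406368) (l 16411776)))) (a (b (l 16554784) (b (l 16713464) (a (l 16262632) (l 16262632)))) (b (a (l 16623960) (a (l 16460480) (l 16312376))) (a (b (l 16545640) (a (l 16308720) (l 16493808))) (b (a (l 16307824) (l 16025024)) (a (l 16375752) (l 16106280))))))), by decide +kernel⟩

def k1_pm_012_a : ∃ t, chk3 f_pm_012_a t 12 4 1 = true :=
  ⟨(a (l 16400560) (a (b (l 16471480) (l 16236512)) (b (b (l 16313360) (a (l 16108768) (c (l 15929760) (b (a (l 16252144) (l 16222064)) (l 16195144))))) (a (c (l 16057496) (l 16073672)) (b (c (l 16089416) (l 16020360)) (b (l 15825704) (l 15770680))))))), by decide +kernel⟩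

def k2_pm_012_a : ∃ t, chk3 f_pm_012_a t 13 4 1 = true :=
  ⟨(b (a (a (a (b (l 16171160) (b (l 16158808) (b (l 16152064) (c (l 16125848) (l 16106672))))) (l 16065608)) (l 15918720)) (l 15494216)) (a (b (b (a (a (c (b (l 16096920) (l 16005096)) (l 16040896)) (c (a (b (l 16038272) (l 15950680)) (l 15982528)) (l 15971800))) (a (a (c (l 15928640) (l 15911856)) (l 15915008)) (l 15839192))) (a (a (c (c (l 15905648) (l 15842560)) (l 15817528)) (c (b (l 15873232) (l 15821560)) (l 15804328))) (c (a (b (c (l 15897096) (l 15869840)) (c (l 15743528) (l 15758504))) (a (c (l 15807344) (l 15779768)) (l 15753432))) (a (l 15714680) (c (l 15752896) (l 15754560)))))) (b (a (a (l 15612272) (a (l 15584672) (l 15551864))) (a (c (b (l 15687008) (l 15488296)) (l 15535624)) (b (c (c (l 15479104) (l 15725800)) (l 15699776)) (c (l 15554480) (l 15528776))))) (a (c (a (l 15592960) (l 15410984)) (a (l 15548712) (l 15360832))) (a (b (l 15325672) (l 15111248)) (c (a (l 15258688) (l 15342704)) (l 15207952)))))) (b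 (l 15444808) (a (a (a (c (b (b (l 15688016) (b (l 15549368) (l 15534168))) (b (l 15441816) (l 15204912))) (b (l 15497944) (l 15248880))) (c (c (b (l 15476528) (a (l 15380976) (l 15299832))) (b (a (l 15609304) (l 15608856)) (l 15158752))) (b (a (l 15605640) (l 15578064)) (l 15332736)))) (c (b (l 15478648) (b (c (l 15466728) (l 15337864)) (a (l 15207840) (b (a (l 15311512) (l 15384584)) (l 15253184))))) (c (b (l 15481496) (b (l 15421776) (l 15344464))) (b (l 15461992) (l 15208776))))) (a (b (l 15321040) (b (l 15305952) (c (l 15252152) (l 15074224)))) (l 15100040)))))), by decide +kernel⟩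

def k3_pm_012_a : ∃ t, chk3 f_pm_012_a t 6 5 1 = true :=
  ⟨(a (a (l 16439936) (b (l 16064840) (l 15921152))) (b (a (a (l 15358016) (b (b (a (a (l 15149224) (b (l 15082680) (l 15032144))) (c (l 14925920) (l 14923408))) (l 14936176)) (l 14849208))) (a (b (b (a (a (c (l 14909904) (l 14842696)) (c (l 14940264) (l 14872880))) (c (b (c (l 15167672) (l 15145832)) (l 14870336)) (l 14946368))) (a (b (a (l 14720568) (a (l 14650656) (l 14616072))) (l 14609752)) (c (b (l 14643808) (l 14515008)) (l 14319840)))) (l 14426112)) (b (b (a (c (a (b (l 14970912) (l 14914520)) (b (c (l 15198248) (l 15152120)) (l 14715168))) (b (a (l 15109384) (l 15132504)) (l 14928528))) (c (a (b (l 15088928) (b (c (l 15090072) (l 15048744)) (l 14932920))) (l 14980624)) (b (a (l 15047664) (l 14996960)) (c (l 14966312) (l 14950120))))) (a (a (b (l 14661240) (l 14418224)) (b (c (l 14825688) (l 14668896)) (l 14467528))) (c (a (b (c (l 14843760) (l 14833360)) (l 14629440)) (b (b (a (l 14861744) (l 14950200)) (l 14800096))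 (c (l 14698304) (l 14663528)))) (b (a (l 14760664) (l 14849280)) (l 14502976))))) (b (a (c (b (l 14314752) (l 14242712)) (b (l 14225536) (l 14149128))) (b (a (l 14276360) (l 14319072)) (c (l 14018624) (l 14027504)))) (a (l 14130696) (b (c (l 13955336) (l 13938912)) (l 13933056))))))) (a (l 14954552) (a (l 14217448) (l 13923008))))), by decide +kernel⟩

def k4_pm_012_a : ∃ t, chk3 f_pm_012_a t 6 3 1 = true :=
  ⟨(b (a (a (b (l 16338528) (l 15969176)) (a (l 15630336) (b (l 15593912) (l 15334872)))) (a (b (a (l 15105592) (l 14570144)) (l 14791824)) (b (a (a (l 14147608) (l 13977504)) (l 13807248)) (a (l 14189920) (l 13900200))))) (b (b (a (a (l 15728328) (l 15304568)) (a (l 14735016) (a (l 14330648) (l 14023872)))) (a (a (l 15670024) (l 15143232)) (l 4))) (l 4))), by decide +kernel⟩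

def k5_pm_012_a : ∃ t, chk3 f_pm_012_a t 28 4 1 = true :=
  ⟨(l 14646856), by decide +kernel⟩

def k6_pm_012_a : ∃ t, chk3 f_pm_012_a t 28 20 1 = true :=
  ⟨(a (b (l 14755112) (b (a (c (c (l 14818712) (c (l 14811752) (l 14769688))) (c (l 14757088) (l 14745024))) (l 14637480)) (c (a (a (c (l 14651064) (l 14660632)) (c (l 14762224) (l 14514552))) (l 14571504)) (a (a (l 14627160) (l 14460664)) (a (l 14588280) (l 14538336)))))) (l 14331088)), by decide +kernel⟩

def k7_pm_012_a : ∃ t, chk3 f_pm_012_a t 28 21 1 = true :=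
  ⟨(b (b (a (a (c (c (a (l 14536320) (l 14456992)) (l 14496352)) (l 14427408)) (c (a (c (b (l 14651072) (l 14452192)) (b (l 14599256) (l 14468016))) (l 14533360)) (c (a (l 14556280) (l 14480840)) (l 14354936)))) (l 14315232)) (a (a (c (a (l 14167704) (l 14111128)) (l 14107968)) (c (a (c (c (l 14389800) (l 14383328)) (l 14356288)) (a (b (l 14410992) (l 14155672)) (b (l 14504072) (l 14343696)))) (a (l 14266448) (c (l 14412120) (l 14359792))))) (a (a (c (c (l 14427872) (l 14182160)) (c (l 14355936) (l 14336208))) (l 14345160)) (l 14218208)))) (a (a (c (b (a (l 13930848) (l 13973000)) (c (l 13854656) (l 13802280))) (b (l 13845296) (l 13727176))) (a (b (l 13994128) (c (l 13762464) (l 13655008))) (c (b (c (c (l 14136280) (l 14223840)) (l 14181432)) (l 13847472)) (l 13890296)))) (a (c (b (b (a (a (l 14150464) (c (l 14399256) (l 14256536))) (l 14305992)) (a (c (l 13985320) (l 14185160)) (a (l 14187688) (l 14276960)))) (a (b (c (l 13897080) (l 14066176)) (l 13869080)) (c (c (b (l 14104504) (l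 13961176)) (l 14069248)) (l 14052264)))) (b (a (c (l 14252992) (l 14179264)) (c (l 14228792) (l 14202480))) (a (l 13841720) (l 13989120)))) (c (c (a (a (b (l 14231560) (b (l 14252096) (l 13885720))) (l 14199000)) (l 14168752)) (a (b (l 14196776) (b (l 14193072) (a (l 14041624) (l 13929136)))) (l 14146336))) (a (b (a (l 14156688) (l 14177608)) (a (c (l 14121616) (l 14074880)) (l 13844008))) (b (l 14140344) (l 14075488))))))), by decide +kernel⟩

def k8_pm_012_a : ∃ t, chk3 f_pm_012_a t 28 11 1 = true :=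
  ⟨(b (b (a (a (l 13710256) (c (b (c (l 13657448) (l 13601784)) (a (l 13604384) (l 13515040))) (b (a (l 13530128) (l 13475968)) (l 13455664)))) (a (c (b (a (l 13652800) (c (a (l 13751288) (l 13674880)) (l 13725584))) (a (l 13438368) (l 13439736))) (b (l 13594736) (a (l 13318432) (l 13321224)))) (a (c (b (c (a (c (b (l 13956448) (l 13818688)) (l 13935744)) (c (l 13804688) (l 13970376))) (a (l 13890920) (l 13950592))) (l 13583344)) (a (l 13577720) (l 13723256))) (c (c (b (a (b (l 14176264) (l 13982264)) (l 14154976)) (c (a (l 13650400) (l 13933640)) (l 13883320))) (b (a (b (l 14009096) (l 13977312)) (l 13983976)) (l 13844792))) (b (c (l 13961896) (l 14001728)) (l 13739080)))))) (a (l 13592272) (b (a (a (l 13321016) (c (l 13303480) (l 13178088))) (c (a (a (l 13250008) (l 13320280)) (l 13519776)) (a (a (l 13123848) (l 13197480)) (l 13402360)))) (a (l 13270320) (a (a (l 13117840) (c (l 13198408) (l 13068928))) (c (c (l 13314184) (l 13252272)) (l 13159976))))))) (a (l 13576336) (a (l 13297176)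 (l 13167480)))), by decide +kernel⟩

def k9_pm_012_a : ∃ t, chk3 f_pm_012_a t 29 4 1 = true :=
  ⟨(l 14103264), by decide +kernel⟩

def k10_pm_012_a : ∃ t, chk3 f_pm_012_a t 58 5 1 = true :=
  ⟨(b (l 14077296) (b (b (a (a (c (b (l 14110168) (a (c (l 13944896) (l 13936360)) (b (l 14098192) (l 13969112)))) (b (b (l 14082048) (l 14020184)) (a (l 13883120) (l 13979424)))) (b (l 14078176) (c (c (l 14080096) (c (l 14058464) (l 14018320))) (c (l 13992504) (l 13961472))))) (l 14001448)) (a (a (b (c (c (a (l 13803904) (l 13859080)) (l 13783888)) (l 13640256)) (c (l 13235208) (l 13347688))) (c (c (a (b (l 13911944) (l 13743968)) (b (b (l 14069264) (l 13925224)) (l 13838216))) (b (a (l 13891376) (l 13991496)) (l 13727768))) (b (a (l 13821344) (l 13920888)) (l 13589656)))) (a (c (c (b (l 14037536) (a (l 13880024) (b (l 14027320) (l 13895584)))) (b (a (l 13987136) (l 13993600)) (l 13923656))) (b (c (l 13942448) (l 13907000)) (a (l 13764136) (l 13863776)))) (b (l 13970296) (c (a (c (l 13975640) (l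 13941312)) (l 13962160)) (c (l 13891384) (l 13851728))))))) (a (b (a (b (c (c (l 13339872) (l 13277856)) (l 13185920)) (l 13206944)) (c (b (c (l 13479704) (l 13420312)) (c (l 13376784) (l 13314776))) (b (l 13329384) (l 13223496)))) (l 13240464)) (b (a (c (b (a (l 13616264) (l 13766296)) (c (l 13485648) (l 13425696))) (b (l 13552672) (l 13335128))) (b (c (c (a (l 13847400) (l 13936904)) (a (l 13805192) (l 13890392))) (l 13777824)) (c (a (l 13594136) (l 13726728)) (l 13524512)))) (b (c (a (c (l 13416048) (l 13354024)) (c (l 13503520) (l 13443336))) (a (l 13263264) (l 13352528))) (a (l 13301856) (c (c (l 13451520) (l 13389296)) (l 13298776)))))))), by decide +kernel⟩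

def k11_pm_012_a : ∃ t, chk3 f_pm_012_a t 59 5 1 = true :=
  ⟨(b (l 13867120) (b (l 13833264) (a (b (b (c (a (a (b (l 13936152) (l 13909440)) (l 13911200)) (l 13875136)) (a (c (l 13837200) (l 13793664)) (a (l 13793776) (l 13785264)))) (b (c (a (c (l 13832320) (l 13799904)) (l 13869968)) (a (l 13726568) (l 13766648))) (a (c (a (l 13778176) (l 13813152)) (l 13634368)) (c (a (l 13821312) (l 13850880)) (l 13749856))))) (a (b (c (a (l 13585224) (l 13696376)) (l 13510344)) (c (c (a (l 13502280) (l 13548184)) (l 13471768)) (l 13380720))) (c (c (b (l 13665232) (l 13611344)) (b (a (l 13729072) (l 13759776)) (l 13586976))) (b (a (l 13617080) (l 13681512)) (l 13497416))))) (c (c (a (a (l 13612944) (l 13804608)) (l 13778784)) (a (c (l 13569472) (l 13754696)) (l 13728880))) (a (a (c (l 13667224) (a (l 13542880) (l 13678016))) (l 13663824)) (l 13652664)))))), by decide +kernel⟩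

def k12_pm_012_a : ∃ t, chk3 f_pm_012_a t 14 3 1 = true :=
  ⟨(b (b (a (a (l 13563960) (a (l 13368240) (c (a (l 13336872) (l 13335016)) (l 13210888)))) (b (a (c (c (l 13384256) (l 13320840)) (l 13222920)) (a (b (a (l 13384224) (b (c (c (l 13609856) (l 13507296)) (l 13416200)) (l 13432040))) (c (l 13448048) (l 13316560))) (c (c (a (l 13624048) (a (l 13720216) (l 13722920))) (a (b (l 13587584) (l 13494160)) (c (l 13473016) (l 13651576)))) (a (a (l 13355800) (l 13498528)) (a (l 13515224) (l 13589936)))))) (a (c (c (l 13399336) (l 13332448)) (l 13232224)) (c (a (c (l 13443832) (l 13376504)) (c (l 13509752) (l 13445168))) (l 13299208))))) (a (a (l 13619768) (a (l 13436808) (c (c (l 13446320) (l 13387088)) (l 13296696)))) (c (a (c (c (a (l 13434472) (l 13429104)) (l 13387032)) (a (l 13346232) (c (l 13334848) (l 13294328)))) (b (c (a (l 13407784) (a (l 13413320) (l 13421920))) (c (a (l 13347344) (c (l 13386128) (l 13329920))) (l 13296520))) (c (a (c (l 13400368) (l 13356568)) (c (l 13342952)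 (l 13342000))) (c (a (l 13277992) (c (l 13294952) (l 13232624))) (l 13218656))))) (a (l 13234592) (b (l 13219968) (l 13140552)))))) (b (b (a (a (l 13701400) (c (a (l 13557776) (a (l 13499232) (l 272421300343))) (l 13404712))) (c (c (a (c (a (l 13482544) (b (l 13450864) (l 13493680))) (l 13394120)) (a (c (l 13419696) (c (l 13370752) (l 13299064))) (c (l 13309624) (a (l 13324024) (a (l 13309992) (l 13289504)))))) (c (a (l 13357168) (a (l 13249680) (c (a (l 13223208) (l 13233440)) (l 13175808)))) (l 13257728))) (a (l 13250944) (l 13105424)))) (l 4)) (l 4))), by decide +kernel⟩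

def k13_pm_012_a : ∃ t, chk3 f_pm_012_a t 15 2 1 = true :=
  ⟨(a (a (b (l 13716136) (a (c (b (l 13718904) (c (a (l 13739136) (l 13656808)) (l 13648632))) (l 13575304)) (l 13465960))) (b (l 13351864) (c (l 13209112) (l 13158912)))) (b (a (c (l 12980008) (l 12972064)) (c (a (l 12707392) (l 12626960)) (a (l 12674112) (l 12522504)))) (a (c (b (l 12813488) (l 12759728)) (l 12786768)) (c (b (l 12514352) (a (l 12496200) (l 12466680))) (a (b (l 12503256) (l 12470688)) (b (l 12364824) (l 12362848))))))), by decide +kernel⟩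

def k14_pm_012_a : ∃ t, chk3 f_pm_012_a t 30 6 1 = true :=
  ⟨(b (b (a (a (c (c (a (a (l 13734104) (l 13692256)) (a (l 13646880) (l 13599112))) (b (l 13623344) (l 13607232))) (l 13535704)) (c (c (c (l 13466752) (l 13482368)) (l 13455920)) (l 13369688))) (l 13134816)) (c (a (a (c (a (l 13530768) (l 13495024)) (c (l 13496232) (l 13450624))) (c (a (l 13432224) (c (l 13398936) (l 13421184))) (b (l 13442904) (l 13349512)))) (a (b (c (l 13256120) (c (l 13286320) (l 13272304))) (c (l 13249696) (c (l 13280360) (l 13266256)))) (c (l 13034448) (l 13078504)))) (a (a (l 13377448) (l 13335504)) (a (b (l 13196288) (a (l 13177360) (l 13156056))) (l 13023264))))) (c (a (c (a (b (a (l 13396528) (l 13335200)) (l 13266848)) (b (l 13246728) (b (l 13181488) (l 13127200)))) (c (a (b (a (l 13360952) (l 13324344)) (a (l 13261408) (l 13232112))) (b (l 13252136) (l 13170816))) (a (b (l 13273096) (l 13162840)) (b (l 13213008) (c (l 13040768) (l 13099352)))))) (a (b (a (c (l 13168592) (l 13165416)) (c (l 13119416)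 (l 13137928))) (c (l 13059000) (c (b (l 13066640) (l 13036680)) (b (l 13062416) (l 13035104))))) (b (c (b (a (l 13078960) (l 12990528)) (l 12998496)) (b (a (l 13117424) (l 13040024)) (l 13008392))) (b (c (l 12981672) (l 12991696)) (c (l 12982584) (c (l 12977896) (l 12981464))))))) (b (b (a (l 13195504) (a (l 13099816) (a (l 13048496) (l 12781768)))) (a (l 13117088) (a (l 13019664) (c (c (l 13021128) (l 12979448)) (l 12931048))))) (a (a (l 13075848) (l 13009984)) (c (a (a (l 12990136) (b (l 12977888) (l 12766232))) (b (c (l 12981296) (l 12932688)) (c (a (l 12978848) (l 12962264)) (l 12915112)))) (a (l 12908416) (b (l 12878984) (l 12860056)))))))), by decide +kernel⟩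

def k15_pm_012_a : ∃ t, chk3 f_pm_012_a t 30 7 1 = true :=
  ⟨(b (b (c (c (a (a (b (l 13199440) (l 13198664)) (b (l 13089656) (l 13102616))) (b (l 13009216) (a (l 13056448) (l 13029248)))) (a (a (c (a (c (l 13232120) (l 13152304)) (c (l 13196264) (l 13158224))) (a (l 13095176) (l 13067288))) (c (b (l 13103216) (l 13118832)) (c (a (l 13090728) (l 13090592)) (b (l 13022432) (l 13033904))))) (a (c (l 13035160) (b (l 13020328) (l 13051304))) (b (l 12973408) (l 13004448))))) (a (a (l 12996904) (l 12937176)) (c (c (a (c (a (l 12979656) (l 12942144)) (l 12950296)) (a (c (l 13008360) (c (l 12980144) (l 12943048))) (l 12975232))) (a (l 12922632) (a (l 12911472) (l 12914040)))) (l 12906960)))) (b (a (l 4) (a (l 4) (b (c (c (l 13087856) (l 13058440)) (c (c (c (l 13064056) (a (l 13039864) (l 13043136))) (l 12980632)) (l 12923824))) (l 4)))) (l 4))) (l 4)), by decide +kernel⟩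

def k16_pm_012_a : ∃ t, chk3 f_pm_012_a t 62 6 1 = true :=
  ⟨(b (c (a (l 12850608) (l 12666176)) (l 12774936)) (a (b (a (c (b (l 12919600) (l 12956256)) (c (b (l 12953360) (c (l 13002928) (l 12975408))) (l 12774560))) (b (l 12819280) (c (a (l 12892792) (c (l 12826040) (l 12875728))) (c (a (l 12943456) (l 12909952)) (l 12860064))))) (c (a (b (l 12933288) (l 12932496)) (b (c (l 12882664) (l 12920808)) (l 12902736))) (c (c (a (b (l 12955528) (l 12936736)) (b (l 12950488) (l 12916064))) (a (b (l 12926416) (l 12906824)) (b (l 12939352) (l 12905752)))) (a (l 12789024) (l 12924920))))) (c (c (a (a (c (l 12807728) (l 12820640)) (c (l 12777824) (l 12781392))) (l 12736400)) (a (b (l 12796176) (l 12881504)) (c (a (l 12757784) (l 12721912)) (l 12758832)))) (c (b (l 12796432) (c (a (l 12919920) (l 12828672)) (a (c (l 12933328) (l 12925440)) (l 12850320)))) (c (b (l 12781936) (a (a (l 12914400) (b (l 12859472) (l 12867464))) (c (a (l 12860968) (l 12830376)) (l 12828264)))) (l 12786328)))))), by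 decide +kernel⟩

def k17_pm_012_a : ∃ t, chk3 f_pm_012_a t 62 7 1 = true :=
  ⟨(b (b (c (a (b (a (l 12950696) (c (l 12934200) (l 12917208))) (a (l 12992880) (l 12978688))) (a (b (c (c (l 12887120) (l 12895096)) (l 12885272)) (l 12963008)) (c (l 12914672) (c (a (l 12897608) (l 12890072)) (b (l 12860040) (l 12916592)))))) (b (c (a (c (a (l 12941600) (l 12915224)) (a (l 12911256) (c (l 12919312) (l 12896568)))) (a (c (l 12883024) (l 12858240)) (a (l 12868728) (l 12861400)))) (a (l 12842896) (a (l 12832184) (a (l 12827632) (l 12836808))))) (c (a (c (l 12958248) (a (c (l 12957136) (l 12909560)) (c (l 12950888) (l 12926312)))) (a (l 12917984) (b (l 12891632) (l 12923400)))) (a (l 12863456) (c (a (l 12887488) (a (l 12889152) (c (l 12899656) (l 12871720)))) (l 12882368)))))) (b (c (a (c (l 13098224) (l 13049120)) (c (l 13088944) (l 13004304))) (c (c (a (l 13035112) (l 13023224)) (a (b (c (a (l 13006352) (l 12998024)) (a (l 12955200) (l 12972384))) (l 4)) (a (c (l 12992440) (l 12994816)) (l 12972376))))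 (a (l 12938200) (c (c (a (c (l 12975184) (l 12948288)) (a (l 12968928) (l 12965184))) (l 12974760)) (l 12948144))))) (l 4))) (l 4)), by decide +kernel⟩

def k18_pm_012_a : ∃ t, chk3 f_pm_012_a t 126 3 1 = true :=
  ⟨(b (b (c (l 12544920) (l 12526792)) (c (a (c (l 12684928) (c (l 12680000) (b (l 12644128) (l 12726088)))) (l 12650920)) (a (b (l 12653936) (b (l 12717920) (c (l 12783512) (l 12789832)))) (l 12637512)))) (b (c (b (c (a (b (l 12809008) (l 12930200)) (b (l 12763432) (l 12879096))) (a (c (l 12855816) (b (a (l 12828096) (l 12791456)) (l 12885608))) (b (l 12752104) (l 12842528)))) (a (c (l 13143592) (l 405564552839)) (b (c (a (l 13034456) (l 13049360)) (l 12999240)) (l 13284424)))) (c (b (a (b (c (l 12828336) (l 12854280)) (l 12873360)) (c (b (l 12750536) (l 12836744)) (a (l 12811248) (l 12791160)))) (a (c (l 13063000) (l 13049280)) (b (c (l 12846856) (a (l 12959352) (l 12954312))) (l 13213768)))) (c (a (c (b (b (l 12867792) (l 12872544)) (l 13047144)) (b (b (c (l 12863328) (l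 12854552)) (b (a (l 12856320) (l 12857168)) (l 12886136))) (a (b (l 12939920) (l 4)) (c (l 13042896) (a (l 13022424) (l 13031720)))))) (a (b (b (l 12805416) (b (l 12851920) (l 12876272))) (b (l 12788864) (l 12926176))) (b (l 12814640) (a (l 12946680) (l 13107464))))) (b (b (a (l 12832984) (l 12624224)) (a (l 12828816) (a (b (l 12831432) (l 12853872)) (l 12853448)))) (a (l 13001944) (c (a (b (l 12943128) (l 13143456)) (c (b (l 12949352) (l 13219632)) (l 13048336))) (l 13071408))))))) (l 4))), by decide +kernel⟩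

def k19_pm_012_a : ∃ t, chk3 f_pm_012_a t 127 3 1 = true :=
  ⟨(b (c (l 12603200) (c (l 12515656) (b (l 12416176) (l 12561280)))) (b (c (b (b (l 12792120) (a (a (l 12856808) (l 12874472)) (l 12966360))) (a (b (c (l 13114968) (a (l 13005496) (l 13079208))) (l 13432528)) (l 13432208))) (b (c (a (a (a (l 12760984) (l 12747944)) (l 12742408)) (l 12797408)) (b (l 12691000) (a (c (a (l 12817736) (l 12787272)) (c (a (l 12828248) (l 12801744)) (l 12801944))) (l 12827752)))) (c (a (a (a (l 418986412887) (a (l 13154536) (l 13163544))) (l 13209648)) (l 13346744)) (c (a (b (a (l 13001384) (l 13028440)) (l 13342672)) (a (l 13267344) (l 13353832))) (c (a (a (c (l 13042216) (b (b (l 12931664) (l 13031288)) (l 13286744))) (a (l 13213376) (l 13236576))) (a (l 13272184) (l 13337560))) (a (a (l 13173352) (c (b (l 12894424) (l 13369440)) (l 13216304))) (c (a (a (l 460862597095) (l 13291776)) (l 13334432)) (a (l 13274888) (c (l 13334088) (l 13102760)))))))))) (a (l 4) (l 4)))), by decide +kernel⟩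

theorem s20_pm_012_a : ∃ t, chk3 f_pm_012_a t 63 3 1 = true := ex3_a k18_pm_012_a k19_pm_012_a

theorem s21_pm_012_a : ∃ t, chk3 f_pm_012_a t 62 3 1 = true := ex3_b k16_pm_012_a k17_pm_012_a

theorem s22_pm_012_a : ∃ t, chk3 f_pm_012_a t 31 3 1 = true := ex3_a s21_pm_012_a s20_pm_012_a

theorem s23_pm_012_a : ∃ t, chk3 f_pm_012_a t 30 3 1 = true := ex3_b k14_pm_012_a k15_pm_012_a

theorem s24_pm_012_a : ∃ t, chk3 f_pm_012_a t 15 3 1 = true := ex3_a s23_pm_012_a s22_pm_012_a

theorem s25_pm_012_a : ∃ t, chk3 f_pm_012_a t 15 1 1 = true := ex3_b k13_pm_012_a s24_pm_012_a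

theorem s26_pm_012_a : ∃ t, chk3 f_pm_012_a t 29 5 1 = true := ex3_a k10_pm_012_a k11_pm_012_a

theorem s27_pm_012_a : ∃ t, chk3 f_pm_012_a t 29 2 1 = true := ex3_b k9_pm_012_a s26_pm_012_a

theorem s28_pm_012_a : ∃ t, chk3 f_pm_012_a t 28 10 1 = true := ex3_b k6_pm_012_a k7_pm_012_a

theorem s29_pm_012_a : ∃ t, chk3 f_pm_012_a t 28 5 1 = true := ex3_b s28_pm_012_a k8_pm_012_a

theorem s30_pm_012_a : ∃ t, chk3 f_pm_012_a t 28 2 1 = true := ex3_b k5_pm_012_a s29_pm_012_a

theorem s31_pm_012_a : ∃ t, chk3 f_pm_012_a t 14 2 1 = true := ex3_a s30_pm_012_a s27_pm_012_a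

theorem s32_pm_012_a : ∃ t, chk3 f_pm_012_a t 14 1 1 = true := ex3_b s31_pm_012_a k12_pm_012_a

theorem s33_pm_012_a : ∃ t, chk3 f_pm_012_a t 7 1 1 = true := ex3_a s32_pm_012_a s25_pm_012_a

theorem s34_pm_012_a : ∃ t, chk3 f_pm_012_a t 6 4 1 = true := ex3_a k1_pm_012_a k2_pm_012_a

theorem s35_pm_012_a : ∃ t, chk3 f_pm_012_a t 6 2 1 = true := ex3_b s34_pm_012_a k3_pm_012_a

theorem s36_pm_012_a : ∃ t, chk3 f_pm_012_a t 6 1 1 = true := ex3_b s35_pm_012_a k4_pm_012_a

theorem s37_pm_012_a : ∃ t, chk3 f_pm_012_a t 3 1 1 = true := ex3_a s36_pm_012_a s33_pm_012_a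

theorem s38_pm_012_a : ∃ t, chk3 f_pm_012_a t 1 1 1 = true := ex3_a k0_pm_012_a s37_pm_012_a

theorem c_pm_012_a : CertNX 67108864 469762048 0 420477299 1046898278 26843546 3 false true false .pnp 0 1 2
    ndN2q0 ndN2q2a pcN1 Cut.none Ext.none :=
  certNX2 (fam := false) (s1 := true) (s2 := false) (a := 0) (b := 1) (c := 2) (cn := .pnp) (n1 := ndN2q0) (n2 := ndN2q2a) (pc := pcN1) (cut := Cut.none) (xt := Ext.none) (P1 := 67108864) (W1 := 469762048) (P2 := 0) (W2 := 420477299) (P3 := 1046898278) (W3 := 26843546) (N0 := 3)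
    rfl (fun _ => rfl) s38_pm_012_a

noncomputable def f_pm_012_b : ℕ → ℕ → ℕ → ℕ → Bool := onCell 536870912 536870912 1239849684 370763052 1046898278 26843546
    (rowNX 3 2 false true false .pnp 0 1 2 (qsf 67108864 469762048 1239849684 370763052 1) ndN2q0 ndN2q2b pcN1 Cut.none Ext.none)

def k0_pm_012_b : ∃ t, chk3 f_pm_012_b t 1 1 1 = true :=
  ⟨(b (a (a (l 2) (b (a (l 16655936) (l 16655936)) (l 16777216))) (a (a (a (b (l 16653352) (l 16773792)) (b (a (b (l 16328280) (l 16659224)) (l 16439864)) (a (l 16680576) (l 16499784)))) (a (b (l 16163408) (l 16226048)) (b (a (l 15844224) (l 15468656)) (l 15717384)))) (a (a (b (l 14704848) (l 14918760)) (b (b (l 14282760) (l 14398296)) (l 14383664))) (a (b (b (a (b (l 13874792) (l 13954920)) (b (l 13525608) (l 13618288))) (c (l 13897976) (l 13848720))) (c (l 13871280) (l 13823184))) (b (b (a (c (b (l 13161984) (l 13260600)) (l 13209272)) (c (l 12915080) (a (l 12918384) (l 12769024)))) (a (c (l 13352416) (l 13360520)) (a (c (l 13097480) (l 13081272))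 (b (l 12976856) (l 13008688))))) (a (l 13223040) (c (l 13025056) (l 12895344)))))))) (a (l 2) (a (a (l 2) (a (l 16243536) (l 15658912))) (a (a (l 14945888) (l 14396840)) (a (b (l 13813712) (l 13842072)) (a (b (l 13246696) (l 13268736)) (b (l 12962112) (l 12977344)))))))), by decide +kernel⟩

theorem c_pm_012_b : CertNX 67108864 469762048 1239849684 370763052 1046898278 26843546 3 false true false .pnp 0 1 2
    ndN2q0 ndN2q2b pcN1 Cut.none Ext.none :=
  certNX2 (fam := false) (s1 := true) (s2 := false) (a := 0) (b := 1) (c := 2) (cn := .pnp) (n1 := ndN2q0) (n2 := ndN2q2b) (pc := pcN1) (cut := Cut.none) (xt := Ext.none) (P1 := 67108864) (W1 := 469762048) (P2 := 1239849684) (W2 := 370763052) (P3 := 1046898278) (W3 := 26843546) (N0 := 3)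
    rfl (fun _ => rfl) k0_pm_012_b

noncomputable def f_pm_022_a : ℕ → ℕ → ℕ → ℕ → Bool := onCell 1073741824 536870912 0 420477299 1046898278 26843546
    (rowNX 3 2 false true false .pp 0 2 2 (qsf 67108864 469762048 0 420477299 2) ndN2q0 ndN2q2a pcN2 Cut.none Ext.none)

def k0_pm_022_a : ∃ t, chk3 f_pm_022_a t 8 2 1 = true :=
  ⟨(a (c (b (b (l 12847568) (l 12741984)) (b (l 12692864) (l 12714632))) (b (c (a (l 12571192) (c (l 12846840) (a (l 12747104) (l 12887456)))) (a (c (a (l 12456408) (l 12579416)) (a (l 12419048) (l 12544624))) (l 12757512))) (c (a (l 12473384) (c (l 12761480) (a (l 12659528) (l 12803880)))) (a (c (a (l 12353096) (l 12488312)) (a (b (l 12301920) (l 12323856)) (l 12453040))) (b (l 12655528) (l 12680576)))))) (c (c (b (a (l 13178192) (b (l 13420792) (a (l 13372784) (l 13739824)))) (a (b (l 13101520) (a (l 13089456) (l 13396776))) (b (a (l 13480848) (l 13910920)) (l 14045688)))) (b (a (l 13141064) (a (b (l 13403128) (c (l 13379032) (l 13331680))) (b (l 13678368) (l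 13688200)))) (a (b (a (l 12981328) (c (l 13158760) (l 13156296))) (a (l 13057096) (a (l 13274768) (l 13467256)))) (b (a (c (l 13491392) (l 13444248)) (l 13862752)) (c (a (l 13839776) (l 14248024)) (a (l 13795144) (l 14168000))))))) (b (a (c (c (l 13107584) (l 13055784)) (l 13003656)) (b (l 13422640) (l 13400176))) (a (b (c (a (l 12931168) (l 13085744)) (l 12924672)) (c (a (c (b (l 12977584) (l 13071552)) (l 12975712)) (a (l 13089656) (l 13394056))) (l 12870416))) (b (l 13539024) (l 13898552)))))), by decide +kernel⟩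

def k1_pm_022_a : ∃ t, chk3 f_pm_022_a t 9 2 1 = true :=
  ⟨(a (b (a (c (c (c (b (l 14365696) (l 14377704)) (b (l 14327936) (l 14192272))) (l 14093368)) (l 14188656)) (c (a (c (c (b (l 14915384) (l 14928576)) (l 14849216)) (l 14823248)) (a (b (l 15089264) (a (l 15054024) (l 15095312))) (b (l 15227432) (l 1101152140823)))) (a (l 14775480) (b (l 15100968) (l 15065648))))) (a (c (b (c (c (l 14548448) (a (l 14333024) (l 14695648))) (l 14429528)) (c (b (a (l 14572888) (c (l 14934488) (l 14813024))) (a (l 14766472) (c (a (l 15082816) (l 15173624)) (a (l 15023104) (l 15083736))))) (a (l 14589384) (l 14815008)))) (b (l 14361504) (a (l 14523184) (l 14643840)))) (c (a (b (c (c (a (l 15008448) (b (l 15076024) (l 15138224))) (l 14719200)) (l 14946576)) (a (c (c (b (l 15159528) (l 1)) (l 15094064)) (l 15074824)) (l 1))) (a (b (b (l 15007808) (l 1)) (l 1)) (l 1))) (b (a (l 14902656) (l 15093544)) (l 15116776))))) (b (l 1) (l 1))), by decide +kernel⟩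

def k2_pm_022_a : ∃ t, chk3 f_pm_022_a t 16 6 1 = true :=
  ⟨(c (b (a (l 12669104) (b (a (l 12820248) (l 12980120)) (a (l 12897176) (l 13190416)))) (a (b (l 12780856) (a (l 12821936) (l 13104440))) (b (a (l 13123496) (l 13544392)) (l 13747816)))) (a (c (b (l 12563488) (b (l 12678656) (a (l 12718232) (l 13012640)))) (b (c (l 12513176) (a (l 12406968) (l 12547064))) (a (c (l 12612000) (a (l 12525488) (c (l 12625248) (l 12608520)))) (c (b (a (l 12652656) (l 12742984)) (a (l 12862264) (l 13065896))) (b (l 12671752) (l 12943424)))))) (c (b (a (l 12717096) (c (l 12893448) (b (l 12906760) (l 13124872)))) (a (b (l 13048248) (l 13460032)) (c (l 13728344) (c (l 13724576) (l 13698464))))) (b (a (a (l 12666136) (l 12758640)) (l 12964752)) (a (b (c (l 12968880) (l 12967992)) (l 13407576)) (l 13647112)))))), by decide +kernel⟩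

def k3_pm_022_a : ∃ t, chk3 f_pm_022_a t 17 6 1 = true :=
  ⟨(c (a (b (a (b (l 13318304) (l 13630672)) (c (l 13909592) (c (l 13909560) (l 13916704)))) (a (c (l 14201168) (l 14192176)) (b (c (l 14420760) (l 14416024)) (c (b (l 14715248) (a (l 14824032) (l 14973968))) (a (l 14731096) (c (l 14911376) (l 721583859111))))))) (a (b (c (l 14345448) (c (l 14372832) (l 14332536))) (b (c (b (l 14752224) (a (l 14831000) (l 14993312))) (c (l 349532172439) (a (l 14753136) (c (l 14920312) (l 14864744))))) (a (b (c (l 14977432) (a (l 14988384) (l 15044336))) (l 1)) (l 1)))) (b (c (b (l 14626392) (a (l 14817728) (b (l 14946320) (l 15052312)))) (b (l 14403336) (c (a (l 14834208) (l 14914864)) (l 14816416)))) (b (c (a (b (l 15021144) (l 1)) (l 1)) (c (l 718899852375) (l 15026760))) (l 1))))) (a (c (b (a (c (a (l 13338136) (l 13557864)) (l 13385144)) (l 13687320)) (a (c (a (l 14085416) (l 14305424)) (l 14137656)) (b (l 14386736) (a (c (l 14716216) (l 14663816)) (l 14700304))))) (b (l 13559304) (b (l 14100424)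 (a (l 14314952) (l 14713704))))) (b (b (l 14282544) (a (l 14393176) (l 14772112))) (b (a (l 14731736) (l 14987224)) (l 15059280))))), by decide +kernel⟩

def k4_pm_022_a : ∃ t, chk3 f_pm_022_a t 16 7 1 = true :=
  ⟨(a (b (c (b (b (a (l 13008120) (l 13433800)) (l 13494712)) (l 13984016)) (c (b (b (l 13135648) (l 13412896)) (l 13915888)) (a (c (b (l 13004256) (l 13644096)) (b (a (b (l 12716536) (l 12978552)) (c (l 13084800) (l 13070240))) (c (l 13626856) (l 13484536)))) (c (b (c (l 13477288) (l 13397224)) (c (l 14131864) (l 14012816))) (b (l 13440336) (l 14102392)))))) (b (c (a (l 14485512) (b (l 14732952) (a (l 15005184) (b (l 15116040) (l 15270968))))) (c (a (l 14428352) (b (l 14686656) (l 15008224))) (a (c (l 14400784) (c (l 14199960) (a (l 14258608) (l 14499384)))) (a (c (l 14757360) (l 14743232)) (c (c (l 14803056) (b (l 14795520) (l 14924480))) (l 14944152)))))) (l 4))) (b (b (c (b (l 14098560) (l 14380320)) (c (c (l 13962296) (a (l 13962184) (c (l 14445248) (l 14422208)))) (a (b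 (l 13776256) (l 14072192)) (l 14378848)))) (c (c (a (l 14572104) (b (a (l 14810400) (l 14984816)) (a (l 15065160) (l 15171656)))) (a (l 14625960) (b (l 14873248) (l 15120536)))) (c (a (a (l 14497192) (l 14635840)) (c (b (l 14882760) (l 15133520)) (a (b (l 14795088) (c (l 15097456) (l 15080008))) (b (l 14749064) (l 15184648))))) (a (c (a (l 14483360) (l 14711264)) (l 14566808)) (b (l 14827752) (l 15084104)))))) (a (b (b (c (a (l 15041960) (c (l 14965968) (l 15178664))) (a (c (l 15020128) (a (l 14702408) (l 14845272))) (c (l 15026880) (l 645885529351)))) (a (a (c (l 15287368) (c (l 15267368) (c (l 15208600) (l 15244864)))) (l 1)) (l 1))) (l 1)) (l 1)))), by decide +kernel⟩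

def k5_pm_022_a : ∃ t, chk3 f_pm_022_a t 17 7 1 = true :=
  ⟨(a (b (a (b (c (b (c (l 14737600) (l 14740648)) (c (a (l 14897272) (l 15026432)) (l 14921088))) (c (c (b (a (l 14654048) (l 14858552)) (a (l 14918936) (l 15055328))) (b (l 14698856) (l 14779528))) (b (l 14667416) (l 14897952)))) (a (c (c (b (l 593808909735) (l 1)) (l 15178008)) (c (c (l 15206232) (l 15158880)) (l 15132008))) (l 1))) (a (b (b (c (c (l 14982776) (l 15005624)) (c (c (l 14973624) (l 14944424)) (l 14922432))) (l 1)) (l 1)) (l 1))) (l 1)) (l 1)), by decide +kernel⟩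

def k6_pm_022_a : ∃ t, chk3 f_pm_022_a t 9 3 1 = true :=
  ⟨(b (b (a (a (a (c (c (b (c (l 231957603639) (a (l 14952696) (l 15076672))) (c (l 15145456) (l 541195670359))) (b (a (l 14845696) (l 14974128)) (l 15060080))) (b (l 14845848) (l 15006704))) (l 1)) (l 1)) (l 1)) (l 1)) (l 1)), by decide +kernel⟩

def k7_pm_022_a : ∃ t, chk3 f_pm_022_a t 5 1 1 = true :=
  ⟨(l 1), by decide +kernel⟩

def k8_pm_022_a : ∃ t, chk3 f_pm_022_a t 3 1 1 = true :=
  ⟨(l 1), by decide +kernel⟩

theorem s9_pm_022_a : ∃ t, chk3 f_pm_022_a t 8 7 1 = true := ex3_a k4_pm_022_a k5_pm_022_a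

theorem s10_pm_022_a : ∃ t, chk3 f_pm_022_a t 8 6 1 = true := ex3_a k2_pm_022_a k3_pm_022_a

theorem s11_pm_022_a : ∃ t, chk3 f_pm_022_a t 8 3 1 = true := ex3_b s10_pm_022_a s9_pm_022_a

theorem s12_pm_022_a : ∃ t, chk3 f_pm_022_a t 4 3 1 = true := ex3_a s11_pm_022_a k6_pm_022_a

theorem s13_pm_022_a : ∃ t, chk3 f_pm_022_a t 4 2 1 = true := ex3_a k0_pm_022_a k1_pm_022_a

theorem s14_pm_022_a : ∃ t, chk3 f_pm_022_a t 4 1 1 = true := ex3_b s13_pm_022_a s12_pm_022_a

theorem s15_pm_022_a : ∃ t, chk3 f_pm_022_a t 2 1 1 = true := ex3_a s14_pm_022_a k7_pm_022_a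

theorem s16_pm_022_a : ∃ t, chk3 f_pm_022_a t 1 1 1 = true := ex3_a s15_pm_022_a k8_pm_022_a

theorem c_pm_022_a : CertNX 67108864 469762048 0 420477299 1046898278 26843546 3 false true false .pp 0 2 2
    ndN2q0 ndN2q2a pcN2 Cut.none Ext.none :=
  certNX2 (fam := false) (s1 := true) (s2 := false) (a := 0) (b := 2) (c := 2) (cn := .pp) (n1 := ndN2q0) (n2 := ndN2q2a) (pc := pcN2) (cut := Cut.none) (xt := Ext.none) (P1 := 67108864) (W1 := 469762048) (P2 := 0) (W2 := 420477299) (P3 := 1046898278) (W3 := 26843546) (N0 := 3)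
    rfl (fun _ => rfl) s16_pm_022_a

noncomputable def f_pm_022_b : ℕ → ℕ → ℕ → ℕ → Bool := onCell 67108864 469762048 1073741824 536870912 1046898278 26843546
    (rowNX 3 1 false true false .pp 0 2 2 (qsf 67108864 469762048 1239849684 370763052 2) ndN2q0 ndN2q2b pcN2 Cut.none Ext.none)

def k0_pm_022_b : ∃ t, chk3 f_pm_022_b t 4 4 1 = true :=
  ⟨(b (a (b (l 1) (a (l 1) (a (b (l 1) (c (c (l 13520488) (b (c (l 13684600) (l 13641824)) (a (l 13834136) (l 13582408)))) (l 13571888))) (c (c (l 368319836871) (b (l 13300456) (l 13480448))) (b (c (l 481599156119) (l 13169496)) (l 13357368)))))) (c (b (a (l 549244488759) (l 12923408)) (c (a (l 13377720) (l 13373408)) (b (a (l 13211960) (l 13215928)) (a (l 13441000) (l 13245752))))) (b (c (b (a (l 12863336) (l 12718472)) (a (c (l 12994408) (b (l 12914808) (l 13000296))) (c (l 12958040) (l 12919664)))) (b (a (c (l 490725141735) (b (l 1) (l 12793536))) (c (l 12668888) (b (l 12576952) (l 12687336)))) (a (l 12908592) (l 12871128)))) (b (c (a (l 13156664)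 (l 13160928)) (l 13080672)) (l 13311432))))) (a (b (a (c (b (a (l 1) (c (b (l 14420688) (l 14472080)) (l 14360160))) (c (a (b (c (l 14944808) (l 15020648)) (l 15047912)) (c (l 14565184) (l 14497344))) (l 169680195271))) (b (l 422546141975) (a (l 14968376) (l 14408352)))) (c (c (b (a (c (l 13939656) (l 13897880)) (l 13752032)) (a (c (b (l 14061936) (l 14073720)) (l 14006440)) (l 13910840))) (b (a (l 13813656) (l 13647696)) (l 13868744))) (a (b (l 13728264) (l 13895536)) (l 13645440)))) (a (a (c (l 15183888) (l 15135816)) (c (l 14704664) (l 14635248))) (a (c (l 14162400) (l 14158384)) (l 14038000)))) (b (c (b (c (a (l 13715152) (l 13673216)) (a (l 13608320) (l 13563472))) (a (c (l 13859408) (l 13756728)) (l 13511912))) (a (l 13592872) (l 13527336))) (a (l 13943688) (l 13846968))))), by decide +kernel⟩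

def k1_pm_022_b : ∃ t, chk3 f_pm_022_b t 5 4 1 = true :=
  ⟨(b (c (b (a (a (l 13043992) (l 13117064)) (l 13095632)) (a (c (l 13434592) (b (l 13306144) (a (l 13470984) (l 13469416)))) (c (l 13406928) (b (l 13278432) (l 13437896))))) (b (a (c (b (l 12900080) (c (l 13103768) (a (l 13043488) (l 13098352)))) (b (a (c (l 12801624) (l 12761904)) (c (l 12907496) (l 12617080))) (a (l 12996880) (l 13052720)))) (c (b (l 12936824) (l 13076136)) (b (c (l 12891120) (l 12852096)) (l 13015944)))) (a (b (a (l 13059176) (l 13218864)) (l 13343072)) (l 13251512)))) (b (a (c (b (c (l 13675608) (l 13563552)) (c (l 13774232) (l 13665720))) (l 13526840)) (c (b (l 13529552) (l 13714048)) (l 13496352))) (a (l 13856776) (l 13846080)))), by decide +kernel⟩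

def k2_pm_022_b : ∃ t, chk3 f_pm_022_b t 3 4 1 = true :=
  ⟨(b (c (b (l 13047000) (c (l 13371696) (a (b (l 13229568) (l 13394216)) (l 13296728)))) (b (a (c (b (l 12877624) (l 13021688)) (b (a (l 12821632) (l 12796400)) (l 12960696))) (c (l 12949040) (l 12871264))) (a (l 13203776) (l 13210472)))) (b (c (a (b (l 13448288) (l 13680776)) (l 13473248)) (l 13471824)) (l 13815840))), by decide +kernel⟩

def k3_pm_022_b : ∃ t, chk3 f_pm_022_b t 1 5 1 = true :=
  ⟨(a (a (b (a (b (a (b (a (l 15420576) (l 15051400)) (a (a (l 15820520) (l 15700792)) (l 15348200))) (b (a (l 14404120) (l 14411576)) (a (l 14889272) (l 14716704)))) (a (a (b (l 15905704) (l 16081304)) (b (l 15651736) (l 15875144))) (a (c (l 15360488) (l 15312104)) (l 15172064)))) (b (b (l 14278184) (l 14594096)) (l 14860176))) (a (b (a (a (a (l 15744072) (l 16167488)) (l 16031360)) (a (l 15598400) (l 15590784))) (a (a (c (l 15726768) (l 15696008)) (l 16168296)) (a (c (l 16066512) (l 16043528)) (l 15917648)))) (b (l 15465240) (l 15818912))))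 (b (b (a (b (l 14271096) (l 14592600)) (b (l 14281624) (l 14605968))) (a (l 15035120) (l 15042888))) (b (a (l 15444704) (l 4)) (l 4)))) (b (b (b (l 14280152) (l 14606312)) (l 15046952)) (b (l 15460496) (l 15830360)))), by decide +kernel⟩

def k4_pm_022_b : ∃ t, chk3 f_pm_022_b t 1 3 1 = true :=
  ⟨(a (b (b (a (a (a (a (b (l 15473160) (l 15229304)) (b (l 16164176) (l 15840368))) (b (a (l 16337856) (l 16231136)) (l 4))) (l 4)) (l 4)) (l 4)) (l 4)) (l 2)), by decide +kernel⟩

theorem s5_pm_022_b : ∃ t, chk3 f_pm_022_b t 2 4 1 = true := ex3_a k0_pm_022_b k1_pm_022_b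

theorem s6_pm_022_b : ∃ t, chk3 f_pm_022_b t 1 4 1 = true := ex3_a s5_pm_022_b k2_pm_022_b

theorem s7_pm_022_b : ∃ t, chk3 f_pm_022_b t 1 2 1 = true := ex3_b s6_pm_022_b k3_pm_022_b

theorem s8_pm_022_b : ∃ t, chk3 f_pm_022_b t 1 1 1 = true := ex3_b s7_pm_022_b k4_pm_022_b

theorem c_pm_022_b : CertNX 67108864 469762048 1239849684 370763052 1046898278 26843546 3 false true false .pp 0 2 2
    ndN2q0 ndN2q2b pcN2 Cut.none Ext.none :=
  certNX1 (fam := false) (s1 := true) (s2 := false) (a := 0) (b := 2) (c := 2) (cn := .pp) (n1 := ndN2q0) (n2 := ndN2q2b) (pc := pcN2) (cut := Cut.none) (xt := Ext.none) (P1 := 67108864) (W1 := 469762048) (P2 := 1239849684) (W2 := 370763052) (P3 := 1046898278) (W3 := 26843546) (N0 := 3)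
    rfl (fun _ => rfl) s8_pm_022_b

noncomputable def f_pm_023 : ℕ → ℕ → ℕ → ℕ → Bool := onCell 67108864 469762048 1073741824 536870912 1046898278 26843546
    (rowNX 3 1 false true false .up 0 2 3 (qsf 67108864 469762048 1610612736 469762048 2) ndN2q0 ndN2q3 pcN2 Cut.none Ext.none)

def k0_pm_023 : ∃ t, chk3 f_pm_023 t 1 1 1 = true :=
  ⟨(b (b (a (l 1) (b (a (l 1) (c (b (l 13038640) (l 415027358263)) (b (c (l 12949040) (l 12871264)) (l 13210472)))) (b (c (a (l 1) (l 13452280)) (l 13471824)) (l 13794872)))) (a (a (l 1) (a (l 1) (b (l 1) (l 4)))) (b (b (b (l 14280152) (l 14606312)) (l 15046952)) (b (l 15460496) (l 15830360))))) (a (a (b (b (l 1) (l 4)) (l 4)) (l 4)) (b (b (l 796950216503) (l 4)) (l 4)))), by decide +kernel⟩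

theorem c_pm_023 : CertNX 67108864 469762048 1610612736 469762048 1046898278 26843546 3 false true false .up 0 2 3
    ndN2q0 ndN2q3 pcN2 Cut.none Ext.none :=
  certNX1 (fam := false) (s1 := true) (s2 := false) (a := 0) (b := 2) (c := 3) (cn := .up) (n1 := ndN2q0) (n2 := ndN2q3) (pc := pcN2) (cut := Cut.none) (xt := Ext.none) (P1 := 67108864) (W1 := 469762048) (P2 := 1610612736) (W2 := 469762048) (P3 := 1046898278) (W3 := 26843546) (N0 := 3)
    rfl (fun _ => rfl) k0_pm_023

noncomputable def f_pm_033 : ℕ → ℕ → ℕ → ℕ → Bool := onCell 67108864 469762048 1610612736 469762048 1046898278 26843546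
    (rowNX 3 0 false true false .pnn 0 3 3 (qsf 67108864 469762048 1610612736 469762048 3) ndN2q0 ndN2q3 pcN3 Cut.none Ext.none)

def k0_pm_033 : ∃ t, chk3 f_pm_033 t 1 1 1 = true :=
  ⟨(a (b (l 4) (l 4)) (b (l 1) (a (l 4) (b (l 1) (l 4))))), by decide +kernel⟩

theorem c_pm_033 : CertNX 67108864 469762048 1610612736 469762048 1046898278 26843546 3 false true false .pnn 0 3 3
    ndN2q0 ndN2q3 pcN3 Cut.none Ext.none :=
  certNX0 (fam := false) (s1 := true) (s2 := false) (a := 0) (b := 3) (c := 3) (cn := .pnn) (n1 := ndN2q0) (n2 := ndN2q3) (pc := pcN3) (cut := Cut.none) (xt := Ext.none) (P1 := 67108864) (W1 := 469762048) (P2 := 1610612736) (W2 := 469762048) (P3 := 1046898278) (W3 := 26843546) (N0 := 3)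
    rfl k0_pm_033

noncomputable def f_pm_101 : ℕ → ℕ → ℕ → ℕ → Bool := onCell 536870912 536870912 536870912 536870912 1046898278 26843546
    (rowNX 3 0 false true false .npn 1 0 1 (qsf 536870912 536870912 536870912 536870912 0) ndN2q1 ndN2q1 pcN0 Cut.none Ext.none)

def k0_pm_101 : ∃ t, chk3 f_pm_101 t 1 1 1 = true :=
  ⟨(l 4), by decide +kernel⟩

theorem c_pm_101 : CertNX 536870912 536870912 536870912 536870912 1046898278 26843546 3 false true false .npn 1 0 1
    ndN2q1 ndN2q1 pcN0 Cut.none Ext.none :=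
  certNX0 (fam := false) (s1 := true) (s2 := false) (a := 1) (b := 0) (c := 1) (cn := .npn) (n1 := ndN2q1) (n2 := ndN2q1) (pc := pcN0) (cut := Cut.none) (xt := Ext.none) (P1 := 536870912) (W1 := 536870912) (P2 := 536870912) (W2 := 536870912) (P3 := 1046898278) (W3 := 26843546) (N0 := 3)
    rfl k0_pm_101

noncomputable def f_pm_102_a : ℕ → ℕ → ℕ → ℕ → Bool := onCell 536870912 536870912 0 420477299 1046898278 26843546
    (rowNX 3 0 false true false .npp 1 0 2 (qsf 536870912 536870912 0 420477299 0) ndN2q1 ndN2q2a pcN0 Cut.none Ext.none)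

def k0_pm_102_a : ∃ t, chk3 f_pm_102_a t 1 1 1 = true :=
  ⟨(a (b (b (l 16400216) (a (l 2) (l 16398760))) (b (a (l 16554784) (l 16554784)) (a (b (l 16713464) (l 16136800)) (b (l 16713464) (l 16262632))))) (b (a (a (l 16433248) (b (l 16591872) (l 16598544))) (a (a (l 16315152) (b (l 15973160) (l 15863504))) (b (l 15477056) (a (l 15808432) (l 15639064))))) (b (a (a (l 16579856) (l 16614928)) (a (b (a (l 16256904) (l 15994872)) (l 16087392)) (a (l 15681760) (b (l 15639280) (l 15565816))))) (a (a (b (l 16707392) (l 16296264)) (b (l 16308104) (a (l 16231648) (l 16061128)))) (a (b (a (l 16077880) (l 15853360)) (a (l 15803096) (l 15528256))) (b (a (l 15617112) (l 15345056)) (a (l 15225152) (a (l 14979552) (b (l 14942848) (l 14664992)))))))))), by decide +kernel⟩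

theorem c_pm_102_a : CertNX 536870912 536870912 0 420477299 1046898278 26843546 3 false true false .npp 1 0 2
    ndN2q1 ndN2q2a pcN0 Cut.none Ext.none :=
  certNX0 (fam := false) (s1 := true) (s2 := false) (a := 1) (b := 0) (c := 2) (cn := .npp) (n1 := ndN2q1) (n2 := ndN2q2a) (pc := pcN0) (cut := Cut.none) (xt := Ext.none) (P1 := 536870912) (W1 := 536870912) (P2 := 0) (W2 := 420477299) (P3 := 1046898278) (W3 := 26843546) (N0 := 3)
    rfl k0_pm_102_a

noncomputable def f_pm_102_b : ℕ → ℕ → ℕ → ℕ → Bool := onCell 536870912 536870912 1239849684 370763052 1046898278 26843546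
    (rowNX 3 0 false true false .npp 1 0 2 (qsf 536870912 536870912 1239849684 370763052 0) ndN2q1 ndN2q2b pcN0 Cut.none Ext.none)

def k0_pm_102_b : ∃ t, chk3 f_pm_102_b t 1 1 1 = true :=
  ⟨(a (a (l 2) (b (b (l 16655936) (l 16777216)) (l 2))) (b (b (a (a (l 16673584) (l 16545872)) (a (b (l 16025904) (l 15875904)) (b (a (b (l 15582376) (l 15419496)) (l 15231832)) (a (l 15289552) (l 14905088))))) (a (a (l 16740768) (l 16472856)) (a (l 15855624) (l 15064600)))) (a (a (l 2) (b (l 16472856) (l 2))) (a (b (l 15855624) (l 15855624)) (b (l 15064600) (l 15064600)))))), by decide +kernel⟩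

theorem c_pm_102_b : CertNX 536870912 536870912 1239849684 370763052 1046898278 26843546 3 false true false .npp 1 0 2
    ndN2q1 ndN2q2b pcN0 Cut.none Ext.none :=
  certNX0 (fam := false) (s1 := true) (s2 := false) (a := 1) (b := 0) (c := 2) (cn := .npp) (n1 := ndN2q1) (n2 := ndN2q2b) (pc := pcN0) (cut := Cut.none) (xt := Ext.none) (P1 := 536870912) (W1 := 536870912) (P2 := 1239849684) (W2 := 370763052) (P3 := 1046898278) (W3 := 26843546) (N0 := 3)
    rfl k0_pm_102_b

noncomputable def f_pm_112_a : ℕ → ℕ → ℕ → ℕ → Bool := onCell 536870912 536870912 0 420477299 1046898278 26843546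
    (rowNX 3 0 false true false .dn 1 1 2 (qsf 536870912 536870912 0 420477299 1) ndN2q1 ndN2q2a pcN1 Cut.none Ext.none)

def k0_pm_112_a : ∃ t, chk3 f_pm_112_a t 1 1 1 = true :=
  ⟨(a (b (b (l 16400216) (a (l 16399008) (l 16398760))) (b (a (l 16554784) (l 16554784)) (a (b (l 16713464) (a (l 16262632) (l 16262632))) (l 1)))) (l 1)), by decide +kernel⟩

theorem c_pm_112_a : CertNX 536870912 536870912 0 420477299 1046898278 26843546 3 false true false .dn 1 1 2
    ndN2q1 ndN2q2a pcN1 Cut.none Ext.none :=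
  certNX0 (fam := false) (s1 := true) (s2 := false) (a := 1) (b := 1) (c := 2) (cn := .dn) (n1 := ndN2q1) (n2 := ndN2q2a) (pc := pcN1) (cut := Cut.none) (xt := Ext.none) (P1 := 536870912) (W1 := 536870912) (P2 := 0) (W2 := 420477299) (P3 := 1046898278) (W3 := 26843546) (N0 := 3)
    rfl k0_pm_112_a

noncomputable def f_pm_112_b : ℕ → ℕ → ℕ → ℕ → Bool := onCell 536870912 536870912 1239849684 370763052 1046898278 26843546
    (rowNX 3 2 false true false .dn 1 1 2 (qsf 536870912 536870912 1239849684 370763052 1) ndN2q1 ndN2q2b pcN1 Cut.none Ext.none)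

def k0_pm_112_b : ∃ t, chk3 f_pm_112_b t 1 1 1 = true :=
  ⟨(b (a (a (b (l 16655936) (l 16755944)) (b (a (l 16655936) (l 16655936)) (l 16777216))) (a (a (a (l 356515218695) (b (l 1) (a (l 16680576) (l 16499784)))) (a (l 601864372487) (l 1))) (l 1))) (a (a (b (a (l 16434160) (l 16704264)) (a (l 15470312) (l 16258984))) (b (l 16776536) (l 16644248))) (a (a (a (l 16776896) (b (l 16592256) (l 16600016))) (a (l 16243536) (l 15658912))) (a (a (l 14945888) (l 14396840)) (a (l 419860216231) (a (l 426301526647) (l 432206531127))))))), by decide +kernel⟩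

theorem c_pm_112_b : CertNX 536870912 536870912 1239849684 370763052 1046898278 26843546 3 false true false .dn 1 1 2
    ndN2q1 ndN2q2b pcN1 Cut.none Ext.none :=
  certNX2 (fam := false) (s1 := true) (s2 := false) (a := 1) (b := 1) (c := 2) (cn := .dn) (n1 := ndN2q1) (n2 := ndN2q2b) (pc := pcN1) (cut := Cut.none) (xt := Ext.none) (P1 := 536870912) (W1 := 536870912) (P2 := 1239849684) (W2 := 370763052) (P3 := 1046898278) (W3 := 26843546) (N0 := 3)
    rfl (fun _ => rfl) k0_pm_112_b

noncomputable def f_pm_113 : ℕ → ℕ → ℕ → ℕ → Bool := onCell 536870912 536870912 536870912 536870912 1046898278 26843546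
    (rowNX 3 1 false true false .nn 1 1 3 (qsf 536870912 536870912 1610612736 469762048 1) ndN2q1 ndN2q3 pcN1 Cut.none Ext.none)

def k0_pm_113 : ∃ t, chk3 f_pm_113 t 1 1 1 = true :=
  ⟨(b (a (b (l 1) (l 16777216)) (a (b (l 423623831383) (l 16592560)) (b (a (l 15855624) (l 15064600)) (l 15405160)))) (b (b (a (a (l 1) (l 16691224)) (a (l 16520296) (l 15414400))) (b (a (a (l 1) (l 16273424)) (a (l 16164464) (l 15166568))) (a (l 351144643703) (a (l 15783520) (l 14926792))))) (a (b (b (l 14872280) (l 14526640)) (b (a (l 13894920) (l 14085264)) (a (b (l 13350712) (l 13075432)) (b (l 13580680) (l 13319800))))) (a (b (b (l 15168600) (l 14709160)) (b (l 14239568) (a (l 13704728) (l 13712000)))) (b (a (l 14594024) (l 14134360)) (a (b (l 13985640) (l 13538144)) (b (l 13829024) (l 13869328)))))))), by decide +kernel⟩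

theorem c_pm_113 : CertNX 536870912 536870912 1610612736 469762048 1046898278 26843546 3 false true false .nn 1 1 3
    ndN2q1 ndN2q3 pcN1 Cut.none Ext.none :=
  certNX1 (fam := false) (s1 := true) (s2 := false) (a := 1) (b := 1) (c := 3) (cn := .nn) (n1 := ndN2q1) (n2 := ndN2q3) (pc := pcN1) (cut := Cut.none) (xt := Ext.none) (P1 := 536870912) (W1 := 536870912) (P2 := 1610612736) (W2 := 469762048) (P3 := 1046898278) (W3 := 26843546) (N0 := 3)
    rfl (fun _ => rfl) k0_pm_113

noncomputable def f_pm_123 : ℕ → ℕ → ℕ → ℕ → Bool := onCell 1073741824 536870912 1610612736 469762048 1046898278 26843546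
    (rowNX 3 2 false true false .npn 1 2 3 (qsf 536870912 536870912 1610612736 469762048 2) ndN2q1 ndN2q3 pcN2 Cut.none Ext.none)

def k0_pm_123 : ∃ t, chk3 f_pm_123 t 1 1 1 = true :=
  ⟨(b (a (a (a (c (a (l 13199656) (b (l 13260440) (l 13504872))) (a (b (c (l 13019928) (l 12943888)) (c (l 13187936) (l 13116008))) (l 366708998423))) (a (c (b (l 13638392) (l 13749672)) (l 13558696)) (l 13878216))) (a (a (a (l 14290424) (l 14611424)) (l 15055016)) (a (l 15465416) (l 15829704)))) (l 1)) (a (a (a (c (b (a (l 13514016) (l 13736824)) (a (l 13664208) (b (l 13934936) (l 14127416)))) (b (a (b (l 13339704) (l 13458512)) (l 13635848)) (a (b (l 13488768) (l 13464176)) (l 13853824)))) (b (a (c (l 13944720) (l 13817128)) (l 14027840)) (a (b (l 14080240) (l 14258616)) (l 14194608)))) (a (b (a (l 14487064) (l 15108416)) (a (l 14510528) (l 15165552))) (a (b (l 15543688) (l 15676904)) (b (l 15878696) (l 16007216))))) (a (a (b (l 16349104) (l 16370016)) (b (l 4) (l 16735160))) (b (l 1) (l 279944758631))))),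 by decide +kernel⟩

theorem c_pm_123 : CertNX 536870912 536870912 1610612736 469762048 1046898278 26843546 3 false true false .npn 1 2 3
    ndN2q1 ndN2q3 pcN2 Cut.none Ext.none :=
  certNX2 (fam := false) (s1 := true) (s2 := false) (a := 1) (b := 2) (c := 3) (cn := .npn) (n1 := ndN2q1) (n2 := ndN2q3) (pc := pcN2) (cut := Cut.none) (xt := Ext.none) (P1 := 536870912) (W1 := 536870912) (P2 := 1610612736) (W2 := 469762048) (P3 := 1046898278) (W3 := 26843546) (N0 := 3)
    rfl (fun _ => rfl) k0_pm_123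

noncomputable def f_pm_133 : ℕ → ℕ → ℕ → ℕ → Bool := onCell 536870912 536870912 1610612736 469762048 1046898278 26843546
    (rowNX 3 0 false true false .dn 1 3 3 (qsf 536870912 536870912 1610612736 469762048 3) ndN2q1 ndN2q3 pcN3 Cut.none Ext.none)

def k0_pm_133 : ∃ t, chk3 f_pm_133 t 1 1 1 = true :=
  ⟨(l 1), by decide +kernel⟩

theorem c_pm_133 : CertNX 536870912 536870912 1610612736 469762048 1046898278 26843546 3 false true false .dn 1 3 3
    ndN2q1 ndN2q3 pcN3 Cut.none Ext.none :=
  certNX0 (fam := false) (s1 := true) (s2 := false) (a := 1) (b := 3) (c := 3) (cn := .dn) (n1 := ndN2q1) (n2 := ndN2q3) (pc := pcN3) (cut := Cut.none) (xt := Ext.none) (P1 := 536870912) (W1 := 536870912) (P2 := 1610612736) (W2 := 469762048) (P3 := 1046898278) (W3 := 26843546) (N0 := 3)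
    rfl k0_pm_133

noncomputable def f_pm_202_aa : ℕ → ℕ → ℕ → ℕ → Bool := onCell 0 420477299 0 420477299 1046898278 26843546
    (rowNX 3 0 false true false .pp 2 0 2 (qsf 0 420477299 0 420477299 0) ndN2q2a ndN2q2a pcN0 Cut.none Ext.none)

def k0_pm_202_aa : ∃ t, chk3 f_pm_202_aa t 1 1 1 = true :=
  ⟨(l 3), by decide +kernel⟩

theorem c_pm_202_aa : CertNX 0 420477299 0 420477299 1046898278 26843546 3 false true false .pp 2 0 2
    ndN2q2a ndN2q2a pcN0 Cut.none Ext.none :=
  certNX0 (fam := false) (s1 := true) (s2 := false) (a := 2) (b := 0) (c := 2) (cn := .pp) (n1 := ndN2q2a) (n2 := ndN2q2a) (pc := pcN0) (cut := Cut.none) (xt := Ext.none) (P1 := 0) (W1 := 420477299) (P2 := 0) (W2 := 420477299) (P3 := 1046898278) (W3 := 26843546) (N0 := 3)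
    rfl k0_pm_202_aa

noncomputable def f_pm_202_ab : ℕ → ℕ → ℕ → ℕ → Bool := onCell 0 420477299 1239849684 370763052 1046898278 26843546
    (rowNX 3 0 false true false .pp 2 0 2 (qsf 0 420477299 1239849684 370763052 0) ndN2q2a ndN2q2b pcN0 Cut.none Ext.none)

def k0_pm_202_ab : ∃ t, chk3 f_pm_202_ab t 1 1 1 = true :=
  ⟨(l 3), by decide +kernel⟩

theorem c_pm_202_ab : CertNX 0 420477299 1239849684 370763052 1046898278 26843546 3 false true false .pp 2 0 2
    ndN2q2a ndN2q2b pcN0 Cut.none Ext.none :=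
  certNX0 (fam := false) (s1 := true) (s2 := false) (a := 2) (b := 0) (c := 2) (cn := .pp) (n1 := ndN2q2a) (n2 := ndN2q2b) (pc := pcN0) (cut := Cut.none) (xt := Ext.none) (P1 := 0) (W1 := 420477299) (P2 := 1239849684) (W2 := 370763052) (P3 := 1046898278) (W3 := 26843546) (N0 := 3)
    rfl k0_pm_202_ab

noncomputable def f_pm_202_ba : ℕ → ℕ → ℕ → ℕ → Bool := onCell 1239849684 370763052 0 420477299 1046898278 26843546
    (rowNX 3 0 false true false .pp 2 0 2 (qsf 1239849684 370763052 0 420477299 0) ndN2q2b ndN2q2a pcN0 Cut.none Ext.none)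

def k0_pm_202_ba : ∃ t, chk3 f_pm_202_ba t 1 1 1 = true :=
  ⟨(l 3), by decide +kernel⟩

theorem c_pm_202_ba : CertNX 1239849684 370763052 0 420477299 1046898278 26843546 3 false true false .pp 2 0 2
    ndN2q2b ndN2q2a pcN0 Cut.none Ext.none :=
  certNX0 (fam := false) (s1 := true) (s2 := false) (a := 2) (b := 0) (c := 2) (cn := .pp) (n1 := ndN2q2b) (n2 := ndN2q2a) (pc := pcN0) (cut := Cut.none) (xt := Ext.none) (P1 := 1239849684) (W1 := 370763052) (P2 := 0) (W2 := 420477299) (P3 := 1046898278) (W3 := 26843546) (N0 := 3)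
    rfl k0_pm_202_ba

noncomputable def f_pm_202_bb : ℕ → ℕ → ℕ → ℕ → Bool := onCell 1239849684 370763052 1239849684 370763052 1046898278 26843546
    (rowNX 3 0 false true false .pp 2 0 2 (qsf 1239849684 370763052 1239849684 370763052 0) ndN2q2b ndN2q2b pcN0 Cut.none Ext.none)

def k0_pm_202_bb : ∃ t, chk3 f_pm_202_bb t 1 1 1 = true :=
  ⟨(l 3), by decide +kernel⟩

theorem c_pm_202_bb : CertNX 1239849684 370763052 1239849684 370763052 1046898278 26843546 3 false true false .pp 2 0 2
    ndN2q2b ndN2q2b pcN0 Cut.none Ext.none :=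
  certNX0 (fam := false) (s1 := true) (s2 := false) (a := 2) (b := 0) (c := 2) (cn := .pp) (n1 := ndN2q2b) (n2 := ndN2q2b) (pc := pcN0) (cut := Cut.none) (xt := Ext.none) (P1 := 1239849684) (W1 := 370763052) (P2 := 1239849684) (W2 := 370763052) (P3 := 1046898278) (W3 := 26843546) (N0 := 3)
    rfl k0_pm_202_bb

noncomputable def f_pm_203_a : ℕ → ℕ → ℕ → ℕ → Bool := onCell 0 420477299 1610612736 469762048 1046898278 26843546
    (rowNX 3 0 false true false .up 2 0 3 (qsf 0 420477299 1610612736 469762048 0) ndN2q2a ndN2q3 pcN0 Cut.none Ext.none)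

def k0_pm_203_a : ∃ t, chk3 f_pm_203_a t 1 1 1 = true :=
  ⟨(l 3), by decide +kernel⟩

theorem c_pm_203_a : CertNX 0 420477299 1610612736 469762048 1046898278 26843546 3 false true false .up 2 0 3
    ndN2q2a ndN2q3 pcN0 Cut.none Ext.none :=
  certNX0 (fam := false) (s1 := true) (s2 := false) (a := 2) (b := 0) (c := 3) (cn := .up) (n1 := ndN2q2a) (n2 := ndN2q3) (pc := pcN0) (cut := Cut.none) (xt := Ext.none) (P1 := 0) (W1 := 420477299) (P2 := 1610612736) (W2 := 469762048) (P3 := 1046898278) (W3 := 26843546) (N0 := 3)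
    rfl k0_pm_203_a

noncomputable def f_pm_203_b : ℕ → ℕ → ℕ → ℕ → Bool := onCell 1239849684 370763052 1610612736 469762048 1046898278 26843546
    (rowNX 3 0 false true false .up 2 0 3 (qsf 1239849684 370763052 1610612736 469762048 0) ndN2q2b ndN2q3 pcN0 Cut.none Ext.none)

def k0_pm_203_b : ∃ t, chk3 f_pm_203_b t 1 1 1 = true :=
  ⟨(l 3), by decide +kernel⟩

theorem c_pm_203_b : CertNX 1239849684 370763052 1610612736 469762048 1046898278 26843546 3 false true false .up 2 0 3
    ndN2q2b ndN2q3 pcN0 Cut.none Ext.none :=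
  certNX0 (fam := false) (s1 := true) (s2 := false) (a := 2) (b := 0) (c := 3) (cn := .up) (n1 := ndN2q2b) (n2 := ndN2q3) (pc := pcN0) (cut := Cut.none) (xt := Ext.none) (P1 := 1239849684) (W1 := 370763052) (P2 := 1610612736) (W2 := 469762048) (P3 := 1046898278) (W3 := 26843546) (N0 := 3)
    rfl k0_pm_203_b

noncomputable def f_pm_213_a : ℕ → ℕ → ℕ → ℕ → Bool := onCell 0 420477299 1610612736 469762048 1046898278 26843546
    (rowNX 3 0 false true false .pnn 2 1 3 (qsf 0 420477299 1610612736 469762048 1) ndN2q2a ndN2q3 pcN1 Cut.none Ext.none)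

def k0_pm_213_a : ∃ t, chk3 f_pm_213_a t 1 1 1 = true :=
  ⟨(l 3), by decide +kernel⟩

theorem c_pm_213_a : CertNX 0 420477299 1610612736 469762048 1046898278 26843546 3 false true false .pnn 2 1 3
    ndN2q2a ndN2q3 pcN1 Cut.none Ext.none :=
  certNX0 (fam := false) (s1 := true) (s2 := false) (a := 2) (b := 1) (c := 3) (cn := .pnn) (n1 := ndN2q2a) (n2 := ndN2q3) (pc := pcN1) (cut := Cut.none) (xt := Ext.none) (P1 := 0) (W1 := 420477299) (P2 := 1610612736) (W2 := 469762048) (P3 := 1046898278) (W3 := 26843546) (N0 := 3)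
    rfl k0_pm_213_a

noncomputable def f_pm_213_b : ℕ → ℕ → ℕ → ℕ → Bool := onCell 1239849684 370763052 1610612736 469762048 1046898278 26843546
    (rowNX 3 0 false true false .pnn 2 1 3 (qsf 1239849684 370763052 1610612736 469762048 1) ndN2q2b ndN2q3 pcN1 Cut.none Ext.none)

def k0_pm_213_b : ∃ t, chk3 f_pm_213_b t 1 1 1 = true :=
  ⟨(l 3), by decide +kernel⟩

theorem c_pm_213_b : CertNX 1239849684 370763052 1610612736 469762048 1046898278 26843546 3 false true false .pnn 2 1 3
    ndN2q2b ndN2q3 pcN1 Cut.none Ext.none :=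
  certNX0 (fam := false) (s1 := true) (s2 := false) (a := 2) (b := 1) (c := 3) (cn := .pnn) (n1 := ndN2q2b) (n2 := ndN2q3) (pc := pcN1) (cut := Cut.none) (xt := Ext.none) (P1 := 1239849684) (W1 := 370763052) (P2 := 1610612736) (W2 := 469762048) (P3 := 1046898278) (W3 := 26843546) (N0 := 3)
    rfl k0_pm_213_b

noncomputable def f_pm_303 : ℕ → ℕ → ℕ → ℕ → Bool := onCell 1610612736 469762048 1610612736 469762048 1046898278 26843546
    (rowNX 3 0 false true false .npn 3 0 3 (qsf 1610612736 469762048 1610612736 469762048 0) ndN2q3 ndN2q3 pcN0 Cut.none Ext.none)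

def k0_pm_303 : ∃ t, chk3 f_pm_303 t 1 1 1 = true :=
  ⟨(l 3), by decide +kernel⟩

theorem c_pm_303 : CertNX 1610612736 469762048 1610612736 469762048 1046898278 26843546 3 false true false .npn 3 0 3
    ndN2q3 ndN2q3 pcN0 Cut.none Ext.none :=
  certNX0 (fam := false) (s1 := true) (s2 := false) (a := 3) (b := 0) (c := 3) (cn := .npn) (n1 := ndN2q3) (n2 := ndN2q3) (pc := pcN0) (cut := Cut.none) (xt := Ext.none) (P1 := 1610612736) (W1 := 469762048) (P2 := 1610612736) (W2 := 469762048) (P3 := 1046898278) (W3 := 26843546) (N0 := 3)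
    rfl k0_pm_303

noncomputable def f_pm_313 : ℕ → ℕ → ℕ → ℕ → Bool := onCell 1610612736 469762048 1610612736 469762048 1046898278 26843546
    (rowNX 3 0 false true false .dn 3 1 3 (qsf 1610612736 469762048 1610612736 469762048 1) ndN2q3 ndN2q3 pcN1 Cut.none Ext.none)

def k0_pm_313 : ∃ t, chk3 f_pm_313 t 1 1 1 = true :=
  ⟨(l 1), by decide +kernel⟩

theorem c_pm_313 : CertNX 1610612736 469762048 1610612736 469762048 1046898278 26843546 3 false true false .dn 3 1 3
    ndN2q3 ndN2q3 pcN1 Cut.none Ext.none :=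
  certNX0 (fam := false) (s1 := true) (s2 := false) (a := 3) (b := 1) (c := 3) (cn := .dn) (n1 := ndN2q3) (n2 := ndN2q3) (pc := pcN1) (cut := Cut.none) (xt := Ext.none) (P1 := 1610612736) (W1 := 469762048) (P2 := 1610612736) (W2 := 469762048) (P3 := 1046898278) (W3 := 26843546) (N0 := 3)
    rfl k0_pm_313

noncomputable def f_mm_001 : ℕ → ℕ → ℕ → ℕ → Bool := onCell 67108864 469762048 536870912 536870912 1046898278 26843546
    (rowNX 3 0 false false false .up 0 0 1 (qsf 67108864 469762048 536870912 536870912 0) ndN2q0 ndN2q1 pcN0 Cut.none Ext.none)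

def k0_mm_001 : ∃ t, chk3 f_mm_001 t 1 1 1 = true :=
  ⟨(l 3), by decide +kernel⟩

theorem c_mm_001 : CertNX 67108864 469762048 536870912 536870912 1046898278 26843546 3 false false false .up 0 0 1
    ndN2q0 ndN2q1 pcN0 Cut.none Ext.none :=
  certNX0 (fam := false) (s1 := false) (s2 := false) (a := 0) (b := 0) (c := 1) (cn := .up) (n1 := ndN2q0) (n2 := ndN2q1) (pc := pcN0) (cut := Cut.none) (xt := Ext.none) (P1 := 67108864) (W1 := 469762048) (P2 := 536870912) (W2 := 536870912) (P3 := 1046898278) (W3 := 26843546) (N0 := 3)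
    rfl k0_mm_001

noncomputable def f_mm_011 : ℕ → ℕ → ℕ → ℕ → Bool := onCell 67108864 469762048 536870912 536870912 1046898278 26843546
    (rowNX 3 0 false false false .pnn 0 1 1 (qsf 67108864 469762048 536870912 536870912 1) ndN2q0 ndN2q1 pcN1 Cut.none Ext.none)

def k0_mm_011 : ∃ t, chk3 f_mm_011 t 1 1 1 = true :=
  ⟨(l 3), by decide +kernel⟩

theorem c_mm_011 : CertNX 67108864 469762048 536870912 536870912 1046898278 26843546 3 false false false .pnn 0 1 1
    ndN2q0 ndN2q1 pcN1 Cut.none Ext.none :=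
  certNX0 (fam := false) (s1 := false) (s2 := false) (a := 0) (b := 1) (c := 1) (cn := .pnn) (n1 := ndN2q0) (n2 := ndN2q1) (pc := pcN1) (cut := Cut.none) (xt := Ext.none) (P1 := 67108864) (W1 := 469762048) (P2 := 536870912) (W2 := 536870912) (P3 := 1046898278) (W3 := 26843546) (N0 := 3)
    rfl k0_mm_011

noncomputable def f_mm_012_a : ℕ → ℕ → ℕ → ℕ → Bool := onCell 67108864 469762048 0 420477299 1046898278 26843546
    (rowNX 3 0 false false false .pnp 0 1 2 (qsf 67108864 469762048 0 420477299 1) ndN2q0 ndN2q2a pcN1 Cut.none Ext.none)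

def k0_mm_012_a : ∃ t, chk3 f_mm_012_a t 1 1 1 = true :=
  ⟨(l 5), by decide +kernel⟩

theorem c_mm_012_a : CertNX 67108864 469762048 0 420477299 1046898278 26843546 3 false false false .pnp 0 1 2
    ndN2q0 ndN2q2a pcN1 Cut.none Ext.none :=
  certNX0 (fam := false) (s1 := false) (s2 := false) (a := 0) (b := 1) (c := 2) (cn := .pnp) (n1 := ndN2q0) (n2 := ndN2q2a) (pc := pcN1) (cut := Cut.none) (xt := Ext.none) (P1 := 67108864) (W1 := 469762048) (P2 := 0) (W2 := 420477299) (P3 := 1046898278) (W3 := 26843546) (N0 := 3)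
    rfl k0_mm_012_a

noncomputable def f_mm_012_b : ℕ → ℕ → ℕ → ℕ → Bool := onCell 67108864 469762048 1239849684 370763052 1046898278 26843546
    (rowNX 3 0 false false false .pnp 0 1 2 (qsf 67108864 469762048 1239849684 370763052 1) ndN2q0 ndN2q2b pcN1 Cut.none Ext.none)

def k0_mm_012_b : ∃ t, chk3 f_mm_012_b t 1 1 1 = true :=
  ⟨(l 5), by decide +kernel⟩

theorem c_mm_012_b : CertNX 67108864 469762048 1239849684 370763052 1046898278 26843546 3 false false false .pnp 0 1 2
    ndN2q0 ndN2q2b pcN1 Cut.none Ext.none :=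
  certNX0 (fam := false) (s1 := false) (s2 := false) (a := 0) (b := 1) (c := 2) (cn := .pnp) (n1 := ndN2q0) (n2 := ndN2q2b) (pc := pcN1) (cut := Cut.none) (xt := Ext.none) (P1 := 67108864) (W1 := 469762048) (P2 := 1239849684) (W2 := 370763052) (P3 := 1046898278) (W3 := 26843546) (N0 := 3)
    rfl k0_mm_012_b

noncomputable def f_mm_022_a : ℕ → ℕ → ℕ → ℕ → Bool := onCell 67108864 469762048 0 420477299 1046898278 26843546
    (rowNX 3 0 false false false .pp 0 2 2 (qsf 67108864 469762048 0 420477299 2) ndN2q0 ndN2q2a pcN2 Cut.none Ext.none)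

def k0_mm_022_a : ∃ t, chk3 f_mm_022_a t 1 1 1 = true :=
  ⟨(l 5), by decide +kernel⟩

theorem c_mm_022_a : CertNX 67108864 469762048 0 420477299 1046898278 26843546 3 false false false .pp 0 2 2
    ndN2q0 ndN2q2a pcN2 Cut.none Ext.none :=
  certNX0 (fam := false) (s1 := false) (s2 := false) (a := 0) (b := 2) (c := 2) (cn := .pp) (n1 := ndN2q0) (n2 := ndN2q2a) (pc := pcN2) (cut := Cut.none) (xt := Ext.none) (P1 := 67108864) (W1 := 469762048) (P2 := 0) (W2 := 420477299) (P3 := 1046898278) (W3 := 26843546) (N0 := 3)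
    rfl k0_mm_022_a

noncomputable def f_mm_022_b : ℕ → ℕ → ℕ → ℕ → Bool := onCell 67108864 469762048 1239849684 370763052 1046898278 26843546
    (rowNX 3 0 false false false .pp 0 2 2 (qsf 67108864 469762048 1239849684 370763052 2) ndN2q0 ndN2q2b pcN2 Cut.none Ext.none)

def k0_mm_022_b : ∃ t, chk3 f_mm_022_b t 1 1 1 = true :=
  ⟨(l 5), by decide +kernel⟩

theorem c_mm_022_b : CertNX 67108864 469762048 1239849684 370763052 1046898278 26843546 3 false false false .pp 0 2 2
    ndN2q0 ndN2q2b pcN2 Cut.none Ext.none :=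
  certNX0 (fam := false) (s1 := false) (s2 := false) (a := 0) (b := 2) (c := 2) (cn := .pp) (n1 := ndN2q0) (n2 := ndN2q2b) (pc := pcN2) (cut := Cut.none) (xt := Ext.none) (P1 := 67108864) (W1 := 469762048) (P2 := 1239849684) (W2 := 370763052) (P3 := 1046898278) (W3 := 26843546) (N0 := 3)
    rfl k0_mm_022_b

noncomputable def f_mm_023 : ℕ → ℕ → ℕ → ℕ → Bool := onCell 67108864 469762048 1610612736 469762048 1046898278 26843546
    (rowNX 3 0 false false false .up 0 2 3 (qsf 67108864 469762048 1610612736 469762048 2) ndN2q0 ndN2q3 pcN2 Cut.none Ext.none)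

def k0_mm_023 : ∃ t, chk3 f_mm_023 t 1 1 1 = true :=
  ⟨(l 5), by decide +kernel⟩

theorem c_mm_023 : CertNX 67108864 469762048 1610612736 469762048 1046898278 26843546 3 false false false .up 0 2 3
    ndN2q0 ndN2q3 pcN2 Cut.none Ext.none :=
  certNX0 (fam := false) (s1 := false) (s2 := false) (a := 0) (b := 2) (c := 3) (cn := .up) (n1 := ndN2q0) (n2 := ndN2q3) (pc := pcN2) (cut := Cut.none) (xt := Ext.none) (P1 := 67108864) (W1 := 469762048) (P2 := 1610612736) (W2 := 469762048) (P3 := 1046898278) (W3 := 26843546) (N0 := 3)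
    rfl k0_mm_023

noncomputable def f_mm_033 : ℕ → ℕ → ℕ → ℕ → Bool := onCell 67108864 469762048 1610612736 469762048 1046898278 26843546
    (rowNX 3 0 false false false .pnn 0 3 3 (qsf 67108864 469762048 1610612736 469762048 3) ndN2q0 ndN2q3 pcN3 Cut.none Ext.none)

def k0_mm_033 : ∃ t, chk3 f_mm_033 t 1 1 1 = true :=
  ⟨(l 5), by decide +kernel⟩

theorem c_mm_033 : CertNX 67108864 469762048 1610612736 469762048 1046898278 26843546 3 false false false .pnn 0 3 3
    ndN2q0 ndN2q3 pcN3 Cut.none Ext.none :=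
  certNX0 (fam := false) (s1 := false) (s2 := false) (a := 0) (b := 3) (c := 3) (cn := .pnn) (n1 := ndN2q0) (n2 := ndN2q3) (pc := pcN3) (cut := Cut.none) (xt := Ext.none) (P1 := 67108864) (W1 := 469762048) (P2 := 1610612736) (W2 := 469762048) (P3 := 1046898278) (W3 := 26843546) (N0 := 3)
    rfl k0_mm_033

noncomputable def f_mm_101 : ℕ → ℕ → ℕ → ℕ → Bool := onCell 536870912 536870912 536870912 536870912 1046898278 26843546
    (rowNX 3 0 false false false .npn 1 0 1 (qsf 536870912 536870912 536870912 536870912 0) ndN2q1 ndN2q1 pcN0 Cut.none Ext.none)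

def k0_mm_101 : ∃ t, chk3 f_mm_101 t 1 1 1 = true :=
  ⟨(l 3), by decide +kernel⟩

theorem c_mm_101 : CertNX 536870912 536870912 536870912 536870912 1046898278 26843546 3 false false false .npn 1 0 1
    ndN2q1 ndN2q1 pcN0 Cut.none Ext.none :=
  certNX0 (fam := false) (s1 := false) (s2 := false) (a := 1) (b := 0) (c := 1) (cn := .npn) (n1 := ndN2q1) (n2 := ndN2q1) (pc := pcN0) (cut := Cut.none) (xt := Ext.none) (P1 := 536870912) (W1 := 536870912) (P2 := 536870912) (W2 := 536870912) (P3 := 1046898278) (W3 := 26843546) (N0 := 3)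
    rfl k0_mm_101

noncomputable def f_mm_102_a : ℕ → ℕ → ℕ → ℕ → Bool := onCell 536870912 536870912 0 420477299 1046898278 26843546
    (rowNX 3 0 false false false .npp 1 0 2 (qsf 536870912 536870912 0 420477299 0) ndN2q1 ndN2q2a pcN0 Cut.none Ext.none)

def k0_mm_102_a : ∃ t, chk3 f_mm_102_a t 1 1 1 = true :=
  ⟨(l 5), by decide +kernel⟩

theorem c_mm_102_a : CertNX 536870912 536870912 0 420477299 1046898278 26843546 3 false false false .npp 1 0 2
    ndN2q1 ndN2q2a pcN0 Cut.none Ext.none :=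
  certNX0 (fam := false) (s1 := false) (s2 := false) (a := 1) (b := 0) (c := 2) (cn := .npp) (n1 := ndN2q1) (n2 := ndN2q2a) (pc := pcN0) (cut := Cut.none) (xt := Ext.none) (P1 := 536870912) (W1 := 536870912) (P2 := 0) (W2 := 420477299) (P3 := 1046898278) (W3 := 26843546) (N0 := 3)
    rfl k0_mm_102_a

noncomputable def f_mm_102_b : ℕ → ℕ → ℕ → ℕ → Bool := onCell 536870912 536870912 1239849684 370763052 1046898278 26843546
    (rowNX 3 0 false false false .npp 1 0 2 (qsf 536870912 536870912 1239849684 370763052 0) ndN2q1 ndN2q2b pcN0 Cut.none Ext.none)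

def k0_mm_102_b : ∃ t, chk3 f_mm_102_b t 1 1 1 = true :=
  ⟨(l 5), by decide +kernel⟩

theorem c_mm_102_b : CertNX 536870912 536870912 1239849684 370763052 1046898278 26843546 3 false false false .npp 1 0 2
    ndN2q1 ndN2q2b pcN0 Cut.none Ext.none :=
  certNX0 (fam := false) (s1 := false) (s2 := false) (a := 1) (b := 0) (c := 2) (cn := .npp) (n1 := ndN2q1) (n2 := ndN2q2b) (pc := pcN0) (cut := Cut.none) (xt := Ext.none) (P1 := 536870912) (W1 := 536870912) (P2 := 1239849684) (W2 := 370763052) (P3 := 1046898278) (W3 := 26843546) (N0 := 3)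
    rfl k0_mm_102_b

noncomputable def f_mm_112_a : ℕ → ℕ → ℕ → ℕ → Bool := onCell 536870912 536870912 0 420477299 1046898278 26843546
    (rowNX 3 0 false false false .dn 1 1 2 (qsf 536870912 536870912 0 420477299 1) ndN2q1 ndN2q2a pcN1 Cut.none Ext.none)

def k0_mm_112_a : ∃ t, chk3 f_mm_112_a t 1 1 1 = true :=
  ⟨(l 5), by decide +kernel⟩

theorem c_mm_112_a : CertNX 536870912 536870912 0 420477299 1046898278 26843546 3 false false false .dn 1 1 2
    ndN2q1 ndN2q2a pcN1 Cut.none Ext.none :=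
  certNX0 (fam := false) (s1 := false) (s2 := false) (a := 1) (b := 1) (c := 2) (cn := .dn) (n1 := ndN2q1) (n2 := ndN2q2a) (pc := pcN1) (cut := Cut.none) (xt := Ext.none) (P1 := 536870912) (W1 := 536870912) (P2 := 0) (W2 := 420477299) (P3 := 1046898278) (W3 := 26843546) (N0 := 3)
    rfl k0_mm_112_a

noncomputable def f_mm_112_b : ℕ → ℕ → ℕ → ℕ → Bool := onCell 536870912 536870912 1239849684 370763052 1046898278 26843546
    (rowNX 3 0 false false false .dn 1 1 2 (qsf 536870912 536870912 1239849684 370763052 1) ndN2q1 ndN2q2b pcN1 Cut.none Ext.none)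

def k0_mm_112_b : ∃ t, chk3 f_mm_112_b t 1 1 1 = true :=
  ⟨(l 5), by decide +kernel⟩

theorem c_mm_112_b : CertNX 536870912 536870912 1239849684 370763052 1046898278 26843546 3 false false false .dn 1 1 2
    ndN2q1 ndN2q2b pcN1 Cut.none Ext.none :=
  certNX0 (fam := false) (s1 := false) (s2 := false) (a := 1) (b := 1) (c := 2) (cn := .dn) (n1 := ndN2q1) (n2 := ndN2q2b) (pc := pcN1) (cut := Cut.none) (xt := Ext.none) (P1 := 536870912) (W1 := 536870912) (P2 := 1239849684) (W2 := 370763052) (P3 := 1046898278) (W3 := 26843546) (N0 := 3)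
    rfl k0_mm_112_b

noncomputable def f_mm_113 : ℕ → ℕ → ℕ → ℕ → Bool := onCell 536870912 536870912 1610612736 469762048 1046898278 26843546
    (rowNX 3 0 false false false .nn 1 1 3 (qsf 536870912 536870912 1610612736 469762048 1) ndN2q1 ndN2q3 pcN1 Cut.none Ext.none)

def k0_mm_113 : ∃ t, chk3 f_mm_113 t 1 1 1 = true :=
  ⟨(l 5), by decide +kernel⟩

theorem c_mm_113 : CertNX 536870912 536870912 1610612736 469762048 1046898278 26843546 3 false false false .nn 1 1 3
    ndN2q1 ndN2q3 pcN1 Cut.none Ext.none :=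
  certNX0 (fam := false) (s1 := false) (s2 := false) (a := 1) (b := 1) (c := 3) (cn := .nn) (n1 := ndN2q1) (n2 := ndN2q3) (pc := pcN1) (cut := Cut.none) (xt := Ext.none) (P1 := 536870912) (W1 := 536870912) (P2 := 1610612736) (W2 := 469762048) (P3 := 1046898278) (W3 := 26843546) (N0 := 3)
    rfl k0_mm_113

noncomputable def f_mm_123 : ℕ → ℕ → ℕ → ℕ → Bool := onCell 536870912 536870912 1610612736 469762048 1046898278 26843546
    (rowNX 3 0 false false false .npn 1 2 3 (qsf 536870912 536870912 1610612736 469762048 2) ndN2q1 ndN2q3 pcN2 Cut.none Ext.none)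

def k0_mm_123 : ∃ t, chk3 f_mm_123 t 1 1 1 = true :=
  ⟨(l 5), by decide +kernel⟩

theorem c_mm_123 : CertNX 536870912 536870912 1610612736 469762048 1046898278 26843546 3 false false false .npn 1 2 3
    ndN2q1 ndN2q3 pcN2 Cut.none Ext.none :=
  certNX0 (fam := false) (s1 := false) (s2 := false) (a := 1) (b := 2) (c := 3) (cn := .npn) (n1 := ndN2q1) (n2 := ndN2q3) (pc := pcN2) (cut := Cut.none) (xt := Ext.none) (P1 := 536870912) (W1 := 536870912) (P2 := 1610612736) (W2 := 469762048) (P3 := 1046898278) (W3 := 26843546) (N0 := 3)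
    rfl k0_mm_123

noncomputable def f_mm_133 : ℕ → ℕ → ℕ → ℕ → Bool := onCell 536870912 536870912 1610612736 469762048 1046898278 26843546
    (rowNX 3 0 false false false .dn 1 3 3 (qsf 536870912 536870912 1610612736 469762048 3) ndN2q1 ndN2q3 pcN3 Cut.none Ext.none)

def k0_mm_133 : ∃ t, chk3 f_mm_133 t 1 1 1 = true :=
  ⟨(l 1), by decide +kernel⟩

theorem c_mm_133 : CertNX 536870912 536870912 1610612736 469762048 1046898278 26843546 3 false false false .dn 1 3 3
    ndN2q1 ndN2q3 pcN3 Cut.none Ext.none :=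
  certNX0 (fam := false) (s1 := false) (s2 := false) (a := 1) (b := 3) (c := 3) (cn := .dn) (n1 := ndN2q1) (n2 := ndN2q3) (pc := pcN3) (cut := Cut.none) (xt := Ext.none) (P1 := 536870912) (W1 := 536870912) (P2 := 1610612736) (W2 := 469762048) (P3 := 1046898278) (W3 := 26843546) (N0 := 3)
    rfl k0_mm_133

noncomputable def f_mm_202_aa : ℕ → ℕ → ℕ → ℕ → Bool := onCell 0 420477299 0 420477299 1046898278 26843546
    (rowNX 3 0 false false false .pp 2 0 2 (qsf 0 420477299 0 420477299 0) ndN2q2a ndN2q2a pcN0 Cut.none Ext.none)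

def k0_mm_202_aa : ∃ t, chk3 f_mm_202_aa t 1 1 1 = true :=
  ⟨(l 3), by decide +kernel⟩

theorem c_mm_202_aa : CertNX 0 420477299 0 420477299 1046898278 26843546 3 false false false .pp 2 0 2
    ndN2q2a ndN2q2a pcN0 Cut.none Ext.none :=
  certNX0 (fam := false) (s1 := false) (s2 := false) (a := 2) (b := 0) (c := 2) (cn := .pp) (n1 := ndN2q2a) (n2 := ndN2q2a) (pc := pcN0) (cut := Cut.none) (xt := Ext.none) (P1 := 0) (W1 := 420477299) (P2 := 0) (W2 := 420477299) (P3 := 1046898278) (W3 := 26843546) (N0 := 3)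
    rfl k0_mm_202_aa

noncomputable def f_mm_202_ab : ℕ → ℕ → ℕ → ℕ → Bool := onCell 0 420477299 1239849684 370763052 1046898278 26843546
    (rowNX 3 0 false false false .pp 2 0 2 (qsf 0 420477299 1239849684 370763052 0) ndN2q2a ndN2q2b pcN0 Cut.none Ext.none)

def k0_mm_202_ab : ∃ t, chk3 f_mm_202_ab t 1 1 1 = true :=
  ⟨(l 3), by decide +kernel⟩

theorem c_mm_202_ab : CertNX 0 420477299 1239849684 370763052 1046898278 26843546 3 false false false .pp 2 0 2
    ndN2q2a ndN2q2b pcN0 Cut.none Ext.none :=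
  certNX0 (fam := false) (s1 := false) (s2 := false) (a := 2) (b := 0) (c := 2) (cn := .pp) (n1 := ndN2q2a) (n2 := ndN2q2b) (pc := pcN0) (cut := Cut.none) (xt := Ext.none) (P1 := 0) (W1 := 420477299) (P2 := 1239849684) (W2 := 370763052) (P3 := 1046898278) (W3 := 26843546) (N0 := 3)
    rfl k0_mm_202_ab

noncomputable def f_mm_202_ba : ℕ → ℕ → ℕ → ℕ → Bool := onCell 1239849684 370763052 0 420477299 1046898278 26843546
    (rowNX 3 0 false false false .pp 2 0 2 (qsf 1239849684 370763052 0 420477299 0) ndN2q2b ndN2q2a pcN0 Cut.none Ext.none)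

def k0_mm_202_ba : ∃ t, chk3 f_mm_202_ba t 1 1 1 = true :=
  ⟨(l 3), by decide +kernel⟩

theorem c_mm_202_ba : CertNX 1239849684 370763052 0 420477299 1046898278 26843546 3 false false false .pp 2 0 2
    ndN2q2b ndN2q2a pcN0 Cut.none Ext.none :=
  certNX0 (fam := false) (s1 := false) (s2 := false) (a := 2) (b := 0) (c := 2) (cn := .pp) (n1 := ndN2q2b) (n2 := ndN2q2a) (pc := pcN0) (cut := Cut.none) (xt := Ext.none) (P1 := 1239849684) (W1 := 370763052) (P2 := 0) (W2 := 420477299) (P3 := 1046898278) (W3 := 26843546) (N0 := 3)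
    rfl k0_mm_202_ba

noncomputable def f_mm_202_bb : ℕ → ℕ → ℕ → ℕ → Bool := onCell 1239849684 370763052 1239849684 370763052 1046898278 26843546
    (rowNX 3 0 false false false .pp 2 0 2 (qsf 1239849684 370763052 1239849684 370763052 0) ndN2q2b ndN2q2b pcN0 Cut.none Ext.none)

def k0_mm_202_bb : ∃ t, chk3 f_mm_202_bb t 1 1 1 = true :=
  ⟨(l 3), by decide +kernel⟩

theorem c_mm_202_bb : CertNX 1239849684 370763052 1239849684 370763052 1046898278 26843546 3 false false false .pp 2 0 2
    ndN2q2b ndN2q2b pcN0 Cut.none Ext.none :=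
  certNX0 (fam := false) (s1 := false) (s2 := false) (a := 2) (b := 0) (c := 2) (cn := .pp) (n1 := ndN2q2b) (n2 := ndN2q2b) (pc := pcN0) (cut := Cut.none) (xt := Ext.none) (P1 := 1239849684) (W1 := 370763052) (P2 := 1239849684) (W2 := 370763052) (P3 := 1046898278) (W3 := 26843546) (N0 := 3)
    rfl k0_mm_202_bb

noncomputable def f_mm_203_a : ℕ → ℕ → ℕ → ℕ → Bool := onCell 0 420477299 1610612736 469762048 1046898278 26843546
    (rowNX 3 0 false false false .up 2 0 3 (qsf 0 420477299 1610612736 469762048 0) ndN2q2a ndN2q3 pcN0 Cut.none Ext.none)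

def k0_mm_203_a : ∃ t, chk3 f_mm_203_a t 1 1 1 = true :=
  ⟨(l 3), by decide +kernel⟩

theorem c_mm_203_a : CertNX 0 420477299 1610612736 469762048 1046898278 26843546 3 false false false .up 2 0 3
    ndN2q2a ndN2q3 pcN0 Cut.none Ext.none :=
  certNX0 (fam := false) (s1 := false) (s2 := false) (a := 2) (b := 0) (c := 3) (cn := .up) (n1 := ndN2q2a) (n2 := ndN2q3) (pc := pcN0) (cut := Cut.none) (xt := Ext.none) (P1 := 0) (W1 := 420477299) (P2 := 1610612736) (W2 := 469762048) (P3 := 1046898278) (W3 := 26843546) (N0 := 3)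
    rfl k0_mm_203_a

noncomputable def f_mm_203_b : ℕ → ℕ → ℕ → ℕ → Bool := onCell 1239849684 370763052 1610612736 469762048 1046898278 26843546
    (rowNX 3 0 false false false .up 2 0 3 (qsf 1239849684 370763052 1610612736 469762048 0) ndN2q2b ndN2q3 pcN0 Cut.none Ext.none)

def k0_mm_203_b : ∃ t, chk3 f_mm_203_b t 1 1 1 = true :=
  ⟨(l 3), by decide +kernel⟩

theorem c_mm_203_b : CertNX 1239849684 370763052 1610612736 469762048 1046898278 26843546 3 false false false .up 2 0 3
    ndN2q2b ndN2q3 pcN0 Cut.none Ext.none :=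
  certNX0 (fam := false) (s1 := false) (s2 := false) (a := 2) (b := 0) (c := 3) (cn := .up) (n1 := ndN2q2b) (n2 := ndN2q3) (pc := pcN0) (cut := Cut.none) (xt := Ext.none) (P1 := 1239849684) (W1 := 370763052) (P2 := 1610612736) (W2 := 469762048) (P3 := 1046898278) (W3 := 26843546) (N0 := 3)
    rfl k0_mm_203_b

noncomputable def f_mm_213_a : ℕ → ℕ → ℕ → ℕ → Bool := onCell 0 420477299 1610612736 469762048 1046898278 26843546
    (rowNX 3 0 false false false .pnn 2 1 3 (qsf 0 420477299 1610612736 469762048 1) ndN2q2a ndN2q3 pcN1 Cut.none Ext.none)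

def k0_mm_213_a : ∃ t, chk3 f_mm_213_a t 1 1 1 = true :=
  ⟨(l 3), by decide +kernel⟩

theorem c_mm_213_a : CertNX 0 420477299 1610612736 469762048 1046898278 26843546 3 false false false .pnn 2 1 3
    ndN2q2a ndN2q3 pcN1 Cut.none Ext.none :=
  certNX0 (fam := false) (s1 := false) (s2 := false) (a := 2) (b := 1) (c := 3) (cn := .pnn) (n1 := ndN2q2a) (n2 := ndN2q3) (pc := pcN1) (cut := Cut.none) (xt := Ext.none) (P1 := 0) (W1 := 420477299) (P2 := 1610612736) (W2 := 469762048) (P3 := 1046898278) (W3 := 26843546) (N0 := 3)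
    rfl k0_mm_213_a

noncomputable def f_mm_213_b : ℕ → ℕ → ℕ → ℕ → Bool := onCell 1239849684 370763052 1610612736 469762048 1046898278 26843546
    (rowNX 3 0 false false false .pnn 2 1 3 (qsf 1239849684 370763052 1610612736 469762048 1) ndN2q2b ndN2q3 pcN1 Cut.none Ext.none)

def k0_mm_213_b : ∃ t, chk3 f_mm_213_b t 1 1 1 = true :=
  ⟨(l 3), by decide +kernel⟩

theorem c_mm_213_b : CertNX 1239849684 370763052 1610612736 469762048 1046898278 26843546 3 false false false .pnn 2 1 3
    ndN2q2b ndN2q3 pcN1 Cut.none Ext.none :=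
  certNX0 (fam := false) (s1 := false) (s2 := false) (a := 2) (b := 1) (c := 3) (cn := .pnn) (n1 := ndN2q2b) (n2 := ndN2q3) (pc := pcN1) (cut := Cut.none) (xt := Ext.none) (P1 := 1239849684) (W1 := 370763052) (P2 := 1610612736) (W2 := 469762048) (P3 := 1046898278) (W3 := 26843546) (N0 := 3)
    rfl k0_mm_213_b

noncomputable def f_mm_303 : ℕ → ℕ → ℕ → ℕ → Bool := onCell 1610612736 469762048 1610612736 469762048 1046898278 26843546
    (rowNX 3 0 false false false .npn 3 0 3 (qsf 1610612736 469762048 1610612736 469762048 0) ndN2q3 ndN2q3 pcN0 Cut.none Ext.none)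

def k0_mm_303 : ∃ t, chk3 f_mm_303 t 1 1 1 = true :=
  ⟨(l 3), by decide +kernel⟩

theorem c_mm_303 : CertNX 1610612736 469762048 1610612736 469762048 1046898278 26843546 3 false false false .npn 3 0 3
    ndN2q3 ndN2q3 pcN0 Cut.none Ext.none :=
  certNX0 (fam := false) (s1 := false) (s2 := false) (a := 3) (b := 0) (c := 3) (cn := .npn) (n1 := ndN2q3) (n2 := ndN2q3) (pc := pcN0) (cut := Cut.none) (xt := Ext.none) (P1 := 1610612736) (W1 := 469762048) (P2 := 1610612736) (W2 := 469762048) (P3 := 1046898278) (W3 := 26843546) (N0 := 3)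
    rfl k0_mm_303

noncomputable def f_mm_313 : ℕ → ℕ → ℕ → ℕ → Bool := onCell 1610612736 469762048 1610612736 469762048 1046898278 26843546
    (rowNX 3 0 false false false .dn 3 1 3 (qsf 1610612736 469762048 1610612736 469762048 1) ndN2q3 ndN2q3 pcN1 Cut.none Ext.none)

def k0_mm_313 : ∃ t, chk3 f_mm_313 t 1 1 1 = true :=
  ⟨(l 1), by decide +kernel⟩

theorem c_mm_313 : CertNX 1610612736 469762048 1610612736 469762048 1046898278 26843546 3 false false false .dn 3 1 3
    ndN2q3 ndN2q3 pcN1 Cut.none Ext.none :=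
  certNX0 (fam := false) (s1 := false) (s2 := false) (a := 3) (b := 1) (c := 3) (cn := .dn) (n1 := ndN2q3) (n2 := ndN2q3) (pc := pcN1) (cut := Cut.none) (xt := Ext.none) (P1 := 1610612736) (W1 := 469762048) (P2 := 1610612736) (W2 := 469762048) (P3 := 1046898278) (W3 := 26843546) (N0 := 3)
    rfl k0_mm_313

end Pool.Agent.Strip051.G.IE1.Tab.C.NB22

namespace Pool.Agent.Strip051.G.IE1.Tab.C.NB23

open Pool.Agent.Strip051.PB Pool.Agent.Strip051.PB.T
open Pool.Agent.Strip051.G.IE1.Tab

noncomputable def f_pp_001 : ℕ → ℕ → ℕ → ℕ → Bool := onCell 67108864 469762048 536870912 536870912 1046898278 26843546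
    (rowNX 3 0 false true true .up 0 0 1 (qsf 67108864 469762048 536870912 536870912 0) ndN2q0 ndN3q1 pcN0 Cut.none Ext.none)

def k0_pp_001 : ∃ t, chk3 f_pp_001 t 1 1 1 = true :=
  ⟨(l 3), by decide +kernel⟩

theorem c_pp_001 : CertNX 67108864 469762048 536870912 536870912 1046898278 26843546 3 false true true .up 0 0 1
    ndN2q0 ndN3q1 pcN0 Cut.none Ext.none :=
  certNX0 (fam := false) (s1 := true) (s2 := true) (a := 0) (b := 0) (c := 1) (cn := .up) (n1 := ndN2q0) (n2 := ndN3q1) (pc := pcN0) (cut := Cut.none) (xt := Ext.none) (P1 := 67108864) (W1 := 469762048) (P2 := 536870912) (W2 := 536870912) (P3 := 1046898278) (W3 := 26843546) (N0 := 3)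
    rfl k0_pp_001

noncomputable def f_pp_011 : ℕ → ℕ → ℕ → ℕ → Bool := onCell 67108864 469762048 536870912 536870912 1046898278 26843546
    (rowNX 3 0 false true true .pnn 0 1 1 (qsf 67108864 469762048 536870912 536870912 1) ndN2q0 ndN3q1 pcN1 Cut.none Ext.none)

def k0_pp_011 : ∃ t, chk3 f_pp_011 t 1 1 1 = true :=
  ⟨(l 3), by decide +kernel⟩

theorem c_pp_011 : CertNX 67108864 469762048 536870912 536870912 1046898278 26843546 3 false true true .pnn 0 1 1
    ndN2q0 ndN3q1 pcN1 Cut.none Ext.none :=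
  certNX0 (fam := false) (s1 := true) (s2 := true) (a := 0) (b := 1) (c := 1) (cn := .pnn) (n1 := ndN2q0) (n2 := ndN3q1) (pc := pcN1) (cut := Cut.none) (xt := Ext.none) (P1 := 67108864) (W1 := 469762048) (P2 := 536870912) (W2 := 536870912) (P3 := 1046898278) (W3 := 26843546) (N0 := 3)
    rfl k0_pp_011

noncomputable def f_pp_012 : ℕ → ℕ → ℕ → ℕ → Bool := onCell 67108864 469762048 536870912 536870912 1046898278 26843546
    (rowNX 3 1 false true true .pnp 0 1 2 (qsf 67108864 469762048 1073741824 536870912 1) ndN2q0 ndN3q2 pcN1 Cut.none Ext.none)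

def k0_pp_012 : ∃ t, chk3 f_pp_012 t 1 2 1 = true :=
  ⟨(a (l 3) (l 3)), by decide +kernel⟩

def k1_pp_012 : ∃ t, chk3 f_pp_012 t 1 6 1 = true :=
  ⟨(a (a (l 3) (b (l 3) (a (l 3) (b (l 3) (b (l 3) (a (a (l 3) (l 16545416)) (b (l 16374056) (l 16349904)))))))) (a (b (l 3) (a (b (a (l 3) (b (l 3) (l 504288389335))) (a (b (a (l 16299760) (l 16276544)) (a (l 16089072) (l 16417952))) (b (l 16420040) (l 16556792)))) (b (a (l 16449048) (b (l 16605504) (l 16629264))) (a (b (l 16647032) (l 16481544)) (b (l 16746624) (l 16692416)))))) (b (b (l 3) (a (a (l 566565888407) (b (l 3) (l 16775520))) (l 16775632))) (b (a (a (b (l 16755616) (l 16764080)) (l 16765072)) (l 16757224)) (b (l 16734736) (l 16663232)))))), by decide +kernel⟩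

def k2_pp_012 : ∃ t, chk3 f_pp_012 t 2 14 1 = true :=
  ⟨(b (a (l 3) (a (a (b (l 3) (a (l 679844123703) (b (l 16115928) (a (l 16100504) (l 16202232))))) (a (b (l 3) (b (a (l 16290568) (l 16325432)) (l 16205144))) (b (b (l 3) (a (l 16420416) (l 16392128))) (l 16197032)))) (a (b (l 16340624) (a (l 16101312) (b (l 16082304) (l 15965952)))) (b (a (l 16177664) (l 16220136)) (l 16082912))))) (a (a (a (l 3) (a (l 3) (b (l 3) (c (c (l 338393774199) (l 391007023799)) (l 15258360))))) (a (b (l 3) (a (b (c (l 373290279575) (l 15279424)) (a (c (l 15280496) (l 15221408)) (c (b (c (l 15281392) (l 15273320)) (a (l 15260240) (l 15284840))) (b (l 15234608) (l 15223144))))) (b (a (b (l 453820837015) (a (l 217060697319) (l 291685695207))) (b (a (l 257862867191) (l 15367168)) (l 15369600))) (c (a (l 15342016) (l 15431552)) (l 15338272))))) (b (a (b (l 3) (a (b (l 3) (l 15411064)) (l 15523712))) (l 306718520759)) (a (c (l 15432216) (l 15514752)) (b (c (l 15795272) (l 15760168)) (a (l 15755000) (l 15816184)))))))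 (a (a (b (a (b (l 15951608) (a (l 15931520) (l 16013944))) (b (a (l 16109360) (l 16121016)) (l 15992216))) (a (b (a (l 15916200) (l 15905088)) (l 15771984)) (l 15760752))) (b (a (l 15982344) (l 15898176)) (a (l 15675992) (a (l 15631784) (l 15633704))))) (a (b (a (b (l 15884760) (l 15775296)) (l 15862672)) (l 15728176)) (l 15943040))))), by decide +kernel⟩

def k3_pp_012 : ∃ t, chk3 f_pp_012 t 8 30 1 = true :=
  ⟨(a (b (a (l 3) (a (l 3) (c (c (l 255179007047) (l 270211303255)) (l 289001686375)))) (a (c (a (b (c (l 509119958343) (l 16069840)) (b (l 16291008) (c (l 16382184) (l 16435112)))) (b (c (l 16200840) (l 16168128)) (c (b (l 16179904) (l 16162192)) (l 16121496)))) (b (a (l 768965039495) (l 16105344)) (a (l 16325248) (l 16089936)))) (c (b (c (a (l 15942232) (l 15621088)) (a (l 15888592) (l 15572184))) (c (b (l 15468208) (a (l 15840224) (l 15525176))) (l 15461768))) (b (l 15545272) (l 15616664))))) (b (a (c (a (c (l 203638786215) (b (l 3) (l 15379928))) (a (c (b (l 15325944) (l 15195408))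 (l 207933214039)) (b (l 15219848) (l 15096456)))) (a (l 216523480679) (a (l 15159688) (l 15084816)))) (a (c (b (l 105391467815) (b (l 15117320) (l 15059232))) (l 15081192)) (b (c (l 131161221463) (l 15134744)) (b (c (a (l 15087880) (l 15120688)) (l 15057936)) (a (c (l 15072760) (l 15011952)) (l 15084072)))))) (b (a (c (a (c (l 15305872) (l 15262056)) (a (l 15075280) (b (l 15007288) (l 14955960)))) (a (l 15221264) (a (l 14987512) (l 14916056)))) (a (b (c (a (l 15005696) (l 15005104)) (l 14956216)) (c (l 15005544) (l 14942056))) (l 15070392))) (b (a (a (c (l 15212160) (l 15151496)) (a (c (c (l 15026992) (l 14973216)) (l 14925208)) (l 14915952))) (l 15046552)) (a (c (a (c (a (l 15292440) (b (l 15142680) (l 15150960))) (l 15191480)) (a (c (l 15034672) (l 15002336)) (l 15000440))) (a (l 15149264) (l 14945872))) (c (l 15130544) (l 15071016))))))), by decide +kernel⟩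

def k4_pp_012 : ∃ t, chk3 f_pp_012 t 16 62 1 = true :=
  ⟨(c (a (b (c (b (a (c (c (l 16416568) (l 16424664)) (l 16455656)) (c (c (l 16197328) (l 16162712)) (l 16129408))) (a (c (l 16393848) (b (l 16409776) (l 16353376))) (c (l 16173632) (c (l 16143984) (l 16115104))))) (a (l 16310784) (l 16097400))) (c (c (a (l 16439392) (l 16117096)) (b (a (l 16360480) (l 16123680)) (l 16022632))) (c (b (a (c (l 16297208) (l 16381136)) (l 15996928)) (a (l 16384128) (l 16094248))) (b (l 16111392) (a (l 16247688) (l 16082328)))))) (b (c (b (c (c (a (l 15874864) (l 15555880)) (a (l 15839560) (l 15525688))) (l 15449408)) (a (c (l 15852080) (c (l 15826280) (l 15802064))) (c (a (l 15615712) (b (l 15474296) (l 15482392))) (b (l 15507104) (a (l 15590376) (l 15461744)))))) (a (l 15785304) (b (l 15482104) (l 15381144)))) (c (a (b (c (l 15816480) (l 15813456)) (a (l 15864064) (l 15735392))) (b (b (a (l 15599744) (l 15490880)) (l 15557840)) (l 15585480))) (b (a (c (b (l 15787536) (l 15796480)) (l 15768840)) (c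 (b (l 15513744) (l 15546440)) (l 15506840))) (a (a (c (l 15865360) (l 15767648)) (b (c (l 15730176) (l 15709392)) (l 15736104))) (c (l 15584552) (l 15568432))))))) (a (b (l 16069648) (a (l 16377104) (l 16058520))) (b (a (l 15758544) (l 15305560)) (a (b (l 15746416) (l 15608712)) (b (l 15478536) (l 15529136)))))), by decide +kernel⟩

def k5_pp_012 : ∃ t, chk3 f_pp_012 t 16 63 1 = true :=
  ⟨(c (a (a (b (c (l 16358928) (b (l 16334608) (l 16359824))) (b (a (l 16430192) (l 16284152)) (l 16233736))) (b (b (c (l 16074840) (l 15838128)) (a (l 16138424) (l 16016640))) (l 16146928))) (b (b (c (l 15727984) (a (l 15733048) (l 15619896))) (l 15773608)) (l 15856896))) (b (a (b (c (c (a (l 16251568) (b (l 16065424) (l 16003488))) (l 16001320)) (l 16015144)) (c (a (c (l 16361824) (l 16233816)) (c (l 15948368) (b (l 15977056) (l 15928328)))) (a (l 16349488) (l 16055528)))) (c (b (a (b (l 15623600) (l 15815200)) (l 15581728)) (c (l 15759744) (l 15605296))) (l 15706816))) (a (c (a (b (a (l 16423984) (l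 16275504)) (l 16371024)) (l 16028952)) (a (b (c (b (l 16347472) (c (l 16349112) (l 16285080))) (l 16344216)) (c (l 16283880) (b (c (l 16227384) (l 16352240)) (c (l 16371456) (l 16285552))))) (b (c (b (l 16086672) (l 16110552)) (l 16092208)) (c (l 16154760) (b (l 16132384) (l 16163816)))))) (c (l 15752104) (b (c (b (l 15784704) (l 15809416)) (l 15787728)) (c (l 15853120) (b (l 15828336) (l 15817384)))))))), by decide +kernel⟩

def k6_pp_012 : ∃ t, chk3 f_pp_012 t 17 31 1 = true :=
  ⟨(b (c (b (a (c (a (b (c (b (a (l 15305984) (l 15187960)) (a (l 15332240) (l 15231432))) (a (l 15287168) (l 15175632))) (c (l 15322560) (l 15297056))) (c (b (a (l 15055656) (l 15101256)) (a (l 15180456) (l 15162760))) (b (l 15071944) (a (l 15153944) (l 15136272))))) (a (b (l 15212736) (l 15257112)) (l 15076064))) (c (c (b (c (l 15236792) (l 15212616)) (l 15288552)) (b (l 15192128) (l 15263664))) (l 15197480))) (c (a (a (c (l 15377480) (l 15369432)) (a (l 15229752) (l 15211976))) (b (l 15251800) (l 15358584)))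 (c (a (b (a (l 15334824) (a (l 15190176) (l 15172144))) (a (l 15391152) (l 15237040))) (b (l 15300144) (l 15353040))) (a (a (b (l 15306016) (l 15373456)) (a (l 15196376) (l 15178176))) (b (l 15272240) (l 15335448)))))) (a (a (b (l 15154496) (l 15301808)) (a (l 15096312) (l 15078072))) (b (l 15155064) (l 15264952)))) (c (a (b (c (a (l 15466672) (l 15314792)) (a (l 15451608) (a (l 15305864) (l 15287376)))) (a (l 15567088) (a (l 15422176) (l 15386792)))) (b (b (c (l 15379904) (a (l 15338720) (l 15397896))) (a (l 15389064) (l 15376040))) (l 15280376))) (a (b (c (b (a (l 15404848) (c (l 15088152) (l 15234480))) (c (a (l 15463864) (l 15306504)) (a (l 15453480) (l 15294640)))) (l 15322960)) (c (a (l 15538016) (a (l 15388984) (l 15352560))) (b (c (a (l 15493120) (a (l 15342216) (l 15322832))) (l 15402248)) (c (a (l 15550720) (l 15371376)) (a (l 15455504) (a (l 15386728) (b (l 15343984) (l 15344544)))))))) (b (c (b (a (l 15316136) (l 15355376)) (c (l 15349496) (a (l 15354224) (l 15340496))))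 (l 15301504)) (c (l 15139352) (b (c (b (l 15315264) (l 15291208)) (l 15285080)) (c (l 15246368) (l 15064528)))))))), by decide +kernel⟩

def k7_pp_012 : ∃ t, chk3 f_pp_012 t 9 30 1 = true :=
  ⟨(b (a (a (b (a (c (b (a (l 15216216) (l 15220048)) (a (l 15169800) (l 15202488))) (b (l 15163912) (l 15132680))) (l 15246512)) (l 15206144)) (c (l 15417192) (l 15368552))) (a (b (a (l 15527608) (l 15619128)) (a (c (l 15543056) (l 15498968)) (l 15544760))) (b (c (l 15692168) (l 15653320)) (l 15486376)))) (a (b (a (l 15222944) (a (l 15370536) (c (l 15460832) (l 15413904)))) (a (c (l 15221216) (l 15252440)) (c (a (b (l 15416312) (l 15421728)) (l 15376384)) (l 15332760)))) (b (a (c (l 15411160) (l 15362312)) (l 15293232)) (c (c (l 15220584) (l 15192328)) (l 15149688))))), by decide +kernel⟩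

def k8_pp_012 : ∃ t, chk3 f_pp_012 t 9 31 1 = true :=
  ⟨(a (b (c (b (a (c (b (c (b (l 15398112) (a (l 15393120) (l 15468624))) (l 15380896)) (a (c (l 15434472) (l 15411480)) (c (l 15457128) (l 15434712)))) (a (l 15348776) (l 15393000))) (c (c (b (l 15376952) (l 15324328)) (b (l 15344952) (l 15301160))) (l 15295184))) (c (a (a (b (c (l 15443128) (l 15441352)) (l 15412224)) (l 15353784)) (l 15206304)) (b (a (c (a (l 15421664) (l 15373056)) (l 15365312)) (l 15213848)) (c (l 15259256) (l 15073504))))) (a (b (l 15323416) (l 15308416)) (l 15193040))) (c (b (c (l 15168656) (l 15146552)) (l 15028120)) (b (c (b (l 15153888) (c (l 15093664) (l 15079624))) (l 15086904)) (c (l 14983120) (b (c (l 14992776) (l 14977976)) (c (l 14925336) (l 14845360))))))) (b (c (b (c (c (b (a (l 15204736) (l 15110848)) (l 15103216)) (b (l 15124976) (l 15078896))) (l 15071712)) (c (a (l 15033024) (a (l 14959784) (l 14938656))) (a (b (l 15037048) (l 14953584)) (b (l 14943048) (c (l 14906656) (l 14885968)))))) (a (l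 15012096) (l 14924560))) (c (b (a (c (l 14897696) (l 14869472)) (b (c (l 14881952) (l 14853768)) (l 14845456))) (a (a (l 14785096) (l 14760680)) (l 14837920))) (b (c (a (b (l 14871144) (c (l 14812064) (l 14795160))) (b (l 14820848) (c (l 14806480) (l 14789384)))) (a (l 14798944) (l 14775960))) (c (a (a (l 14732560) (l 14707232)) (l 14786504)) (a (b (c (l 14714512) (l 14696840)) (c (l 14670592) (a (l 14651720) (l 14639832)))) (b (l 14748216) (l 14748816)))))))), by decide +kernel⟩

def k9_pp_012 : ∃ t, chk3 f_pp_012 t 5 15 1 = true :=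
  ⟨(b (a (b (a (b (l 15549352) (l 15357368)) (a (b (l 15447096) (l 15324192)) (l 15467520))) (a (b (a (l 15208624) (l 15165016)) (a (c (l 15085672) (l 15023968)) (c (l 15115752) (l 15054936)))) (b (l 15309576) (c (l 15299248) (l 15245424))))) (b (a (l 15613336) (a (l 15746712) (l 15808312))) (a (b (l 15520368) (c (l 15506616) (l 15461160))) (b (l 15657360) (l 15585096))))) (a (b (c (b (a (c (a (b (a (l 15039824) (l 15046536)) (c (l 15037984) (l 15013912))) (c (l 15147992) (l 15126920))) (a (l 14995480) (l 15094728))) (c (c (b (l 15329336) (l 15330728)) (l 15247200)) (l 15281744))) (c (a (l 15063512) (l 15306040)) (a (b (l 15036624) (l 15034592)) (c (l 15122232) (l 15273568))))) (a (a (l 14937664) (l 15047528)) (l 15238688))) (c (a (b (l 14995504) (l 15031280)) (a (l 15156016) (b (l 15337440) (l 15320256)))) (b (c (a (b (l 14996080) (l 14988952)) (c (l 15017984) (l 15235648))) (l 15089264)) (c (a (l 14985280) (l 15227760)) (a (b (l 14951864) (l 14950944)) (b (l 15120504) (a (l 15142152)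 (l 15105184)))))))) (b (c (a (b (c (a (l 15473352) (b (l 15558816) (l 15542992))) (l 15477840)) (c (a (l 15455800) (l 15497136)) (a (l 15307672) (l 15475624)))) (b (l 15383520) (c (l 15496096) (l 15474416)))) (a (l 15422704) (l 15470616))) (c (b (c (l 15424416) (l 15361288)) (l 15350984)) (b (c (b (l 15397352) (c (l 15371768) (l 15359896))) (l 15354488)) (c (l 15314200) (b (l 15305120) (l 15270848)))))))), by decide +kernel⟩

def k10_pp_012 : ∃ t, chk3 f_pp_012 t 3 7 1 = true :=
  ⟨(b (a (a (b (a (l 16282264) (b (l 16470104) (l 16305432))) (a (b (l 16137472) (l 16008448)) (l 16103048))) (b (b (l 16528312) (l 16354192)) (l 16085136))) (b (l 16403984) (l 16044120))) (b (b (a (l 15814936) (l 15781256)) (a (b (l 15671648) (l 15591376)) (a (l 15539728) (l 15597864)))) (a (b (c (b (a (l 15464896) (l 15542320)) (c (l 15481176) (a (l 15468936) (l 15455152)))) (l 15459392)) (c (b (l 15268920) (l 15318008)) (b (c (a (l 15370928) (l 15349096)) (l 15334016)) (a (c (l 15295672) (b (l 15289688) (l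 15251264))) (l 15246856))))) (a (a (b (l 15462680) (l 15285672)) (l 15355328)) (l 15326776))))), by decide +kernel⟩

theorem s11_pp_012 : ∃ t, chk3 f_pp_012 t 9 15 1 = true := ex3_b k7_pp_012 k8_pp_012

theorem s12_pp_012 : ∃ t, chk3 f_pp_012 t 16 31 1 = true := ex3_b k4_pp_012 k5_pp_012

theorem s13_pp_012 : ∃ t, chk3 f_pp_012 t 8 31 1 = true := ex3_a s12_pp_012 k6_pp_012

theorem s14_pp_012 : ∃ t, chk3 f_pp_012 t 8 15 1 = true := ex3_b k3_pp_012 s13_pp_012

theorem s15_pp_012 : ∃ t, chk3 f_pp_012 t 4 15 1 = true := ex3_a s14_pp_012 s11_pp_012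

theorem s16_pp_012 : ∃ t, chk3 f_pp_012 t 2 15 1 = true := ex3_a s15_pp_012 k9_pp_012

theorem s17_pp_012 : ∃ t, chk3 f_pp_012 t 2 7 1 = true := ex3_b k2_pp_012 s16_pp_012

theorem s18_pp_012 : ∃ t, chk3 f_pp_012 t 1 7 1 = true := ex3_a s17_pp_012 k10_pp_012

theorem s19_pp_012 : ∃ t, chk3 f_pp_012 t 1 3 1 = true := ex3_b k1_pp_012 s18_pp_012

theorem s20_pp_012 : ∃ t, chk3 f_pp_012 t 1 1 1 = true := ex3_b k0_pp_012 s19_pp_012

theorem c_pp_012 : CertNX 67108864 469762048 1073741824 536870912 1046898278 26843546 3 false true true .pnp 0 1 2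
    ndN2q0 ndN3q2 pcN1 Cut.none Ext.none :=
  certNX1 (fam := false) (s1 := true) (s2 := true) (a := 0) (b := 1) (c := 2) (cn := .pnp) (n1 := ndN2q0) (n2 := ndN3q2) (pc := pcN1) (cut := Cut.none) (xt := Ext.none) (P1 := 67108864) (W1 := 469762048) (P2 := 1073741824) (W2 := 536870912) (P3 := 1046898278) (W3 := 26843546) (N0 := 3)
    rfl (fun _ => rfl) s20_pp_012

noncomputable def f_pp_022 : ℕ → ℕ → ℕ → ℕ → Bool := onCell 67108864 469762048 1073741824 536870912 1046898278 26843546
    (rowNX 3 1 false true true .pp 0 2 2 (qsf 67108864 469762048 1073741824 536870912 2) ndN2q0 ndN3q2 pcN2 Cut.none Ext.none)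

def k0_pp_022 : ∃ t, chk3 f_pp_022 t 8 16 1 = true :=
  ⟨(a (b (c (a (c (b (a (c (l 16560576) (l 16642376)) (l 16502424)) (a (b (c (l 16446720) (l 16508056)) (l 16309768)) (l 16484360))) (b (a (l 16558160) (l 16457096)) (b (l 16424320) (l 16355720)))) (b (c (l 16222104) (l 16151064)) (c (a (l 16409576) (b (l 16318192) (l 16311912))) (a (l 16460440) (b (l 16305936) (l 16336936)))))) (b (a (c (b (l 16458352) (l 16481984)) (b (b (l 16388104) (l 16429784)) (l 16487464))) (c (l 16055808) (b (l 16127288) (l 16287152)))) (a (c (l 16331624) (l 16346096)) (a (c (l 16502312) (l 16480640)) (c (l 16204168) (l 16158600)))))) (c (a (a (c (c (b (l 16278928) (l 16115864)) (l 16140600)) (l 16089752)) (b (c (l 16396016) (l 16452288)) (c (l 16194144) (l 16276896)))) (a (b (c (l 16402408) (l 16464672)) (l 16363704)) (c (b (l 16231648) (l 16205656)) (l 16082200)))) (a (a (c (l 16060144) (l 16185016)) (b (l 16327136) (b (l 16266088) (l 16289904)))) (a (b (c (l 16436960) (l 16466888)) (l 16387424)) (b (l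 16039376) (l 16136000)))))) (c (b (a (b (a (c (l 15898912) (l 15843592)) (a (c (l 15810280) (l 15793248)) (l 15702696))) (c (a (b (l 16046104) (l 16009856)) (a (l 15746096) (l 15632176))) (a (l 15942136) (l 15662552)))) (b (l 15466216) (c (l 15517024) (l 15487984)))) (a (c (a (l 15816824) (a (l 15596600) (l 15482072))) (a (l 15843768) (l 15498200))) (c (l 15361072) (l 15318672)))) (a (b (b (a (c (b (l 15955784) (l 16006920)) (b (l 15937520) (l 15981968))) (c (a (l 15773256) (l 15671536)) (a (b (l 15766120) (l 15738992)) (l 15644056)))) (a (c (l 15976352) (l 15946960)) (c (l 15628392) (l 15593472)))) (c (a (l 15809008) (l 15458160)) (l 15376368))) (b (b (b (l 15526240) (l 15475864)) (l 15436576)) (l 15262064))))), by decide +kernel⟩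

def k1_pp_022 : ∃ t, chk3 f_pp_022 t 8 17 1 = true :=
  ⟨(a (b (a (c (c (a (b (b (l 15888640) (l 15928128)) (l 16095216)) (l 16257760)) (a (b (l 15933096) (l 16102664)) (l 16230640))) (a (b (l 15904688) (l 16089624)) (l 16231560))) (c (a (c (l 16257648) (l 16189952)) (c (l 16025728) (l 15993984))) (b (l 16011752) (l 15962528)))) (c (a (c (a (l 15992616) (l 16312288)) (a (l 16159136) (l 16471392))) (c (a (l 15977184) (b (l 15848128) (l 15737384))) (a (l 16150272) (l 15771848)))) (a (a (l 16042752) (l 16342928)) (b (l 15933752) (l 15717712))))) (c (c (a (b (a (l 15650432) (l 15314112)) (a (b (l 15477960) (l 15412864)) (b (a (l 15217832) (l 15136008)) (l 15176096)))) (b (b (l 15204128) (l 15147416)) (l 15143840))) (a (b (a (l 15612808) (l 15271384)) (a (l 15173024) (b (l 15146392) (l 15146256)))) (b (b (l 15157496) (l 15105392)) (l 15110376)))) (a (b (a (l 15576512) (l 15225784)) (a (b (l 15413296) (l 15351416)) (b (l 15103296) (l 15103256)))) (b (b (l 15107376) (l 15059248)) (l 15066224))))),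 by decide +kernel⟩

def k2_pp_022 : ∃ t, chk3 f_pp_022 t 9 8 1 = true :=
  ⟨(a (b (b (c (c (b (l 15349408) (a (l 15337416) (b (l 15209344) (l 15185400)))) (b (l 15323432) (a (l 15305848) (b (l 15177968) (l 15150672))))) (b (c (l 15106440) (b (l 15291416) (l 15234664))) (a (l 15251616) (c (l 15131624) (l 15092472))))) (c (a (b (c (l 15238368) (l 15197872)) (a (l 15154664) (l 15127592))) (b (c (l 15173968) (l 15134376)) (l 15152008))) (a (b (l 15136240) (l 14963152)) (c (l 15093296) (l 15059344))))) (c (b (c (l 15157592) (l 15117408)) (c (l 15110128) (l 15119928))) (b (l 15069128) (l 15075912)))) (b (c (b (b (a (b (l 15205168) (l 15201792)) (l 15350448)) (c (l 15295352) (l 15265008))) (c (l 15245328) (l 15252248))) (b (b (a (a (b (l 15118960) (l 15104192)) (l 15167952)) (l 15189712)) (l 15089296)) (l 15055776))) (b (c (c (l 15255096) (l 15221448)) (l 15177568)) (c (a (c (l 15171224) (l 15140600)) (c (b (l 15256784) (l 15200064)) (l 15195800))) (a (l 15097072) (l 15153920)))))), by decide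 +kernel⟩

def k3_pp_022 : ∃ t, chk3 f_pp_022 t 5 8 1 = true :=
  ⟨(a (b (b (a (c (b (l 15584184) (c (l 15574304) (l 15551136))) (c (l 15412904) (l 15514344))) (a (c (b (l 15805680) (c (l 15758592) (l 15740424))) (b (l 15749528) (l 15712336))) (a (b (c (l 15884416) (l 15790088)) (l 15768224)) (l 15817920)))) (a (c (b (l 15386496) (a (l 15442072) (l 15539400))) (a (l 15402280) (l 15433896))) (a (c (b (l 15669952) (l 15570976)) (l 15577376)) (l 15601552)))) (b (a (c (a (c (l 15387992) (l 15360448)) (c (l 15423024) (l 15398424))) (a (l 15321856) (l 15361840))) (c (a (l 15418352) (l 15419240)) (l 15371976))) (a (c (c (b (l 15280000) (l 15186768)) (l 15206472)) (l 15165312)) (l 15200208)))) (l 15353968)), by decide +kernel⟩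

def k4_pp_022 : ∃ t, chk3 f_pp_022 t 8 9 1 = true :=
  ⟨(b (a (c (a (b (a (c (l 16192632) (l 16229064)) (b (l 16318776) (c (l 16329616) (l 16367112)))) (a (b (a (l 16148464) (l 16281792)) (c (l 16251848) (l 16266832))) (c (l 16282112) (l 16320976)))) (b (b (a (l 15882032) (l 15473832)) (a (l 15877952) (l 15770992))) (c (l 15867992) (l 15919272)))) (a (b (a (l 16073896) (b (l 16394568) (l 16234448))) (a (b (a (l 16218480) (l 16422384)) (l 16173864)) (b (l 16342280) (l 16454840)))) (b (b (a (l 16005816) (l 15668696)) (l 15672032)) (c (l 15970368) (l 15979312))))) (c (a (b (c (a (l 15480832) (l 15254664)) (l 15175376)) (c (a (l 15607128) (l 15369128)) (l 15339952))) (b (c (l 15208384) (l 15180888)) (c (l 15293264) (l 15267408)))) (a (b (c (l 15318376) (l 15293224)) (c (l 15443320) (l 15420504))) (b (l 15138848) (l 15227864))))) (a (c (a (b (b (c (a (l 16138168) (l 16510344)) (a (l 16172472) (l 16509024))) (a (l 16117752) (l 16492496))) (c (l 16127760) (l 16206336))) (b (b (c (l 15948856)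 (l 16001832)) (l 15918160)) (c (l 15978456) (l 15966808)))) (b (a (b (a (l 16056024) (l 16444072)) (l 16127144)) (b (a (l 16176712) (l 15922760)) (l 16044136))) (a (a (l 16175760) (l 16387184)) (l 15886048)))) (a (c (b (b (c (a (l 15676056) (l 15429272)) (l 15489680)) (c (l 15527744) (l 15506512))) (a (l 15556976) (c (l 15250392) (l 15288144)))) (b (b (a (l 15629392) (l 15370368)) (l 15474024)) (a (l 15516080) (l 15249656)))) (b (b (c (c (l 15331360) (l 15306280)) (l 15267920)) (c (l 15280488) (l 15228344))) (c (b (l 15198472) (l 15096072)) (l 15088136)))))), by decide +kernel⟩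

def k5_pp_022 : ∃ t, chk3 f_pp_022 t 9 9 1 = true :=
  ⟨(b (a (b (c (c (b (l 15160280) (l 15180992)) (l 15143056)) (b (l 15088344) (l 15110192))) (c (a (b (l 15207784) (l 15217424)) (b (l 14966176) (l 15090416))) (a (l 15136784) (b (l 15076056) (l 15031056))))) (b (c (a (b (a (l 15125024) (l 15127552)) (l 15083584)) (l 15072544)) (a (b (l 15064872) (l 15023664)) (l 15012272))) (c (a (l 14977584) (c (l 14906120) (l 14873408))) (a (l 14913968) (l 14822488))))) (a (c (b (b (a (b (l 15209880) (l 15169592)) (l 15020896)) (l 15017776)) (l 14849032)) (b (b (a (l 15142480) (l 14959104)) (l 14956048)) (l 14781384))) (b (b (c (a (l 14848544) (l 14593704)) (a (l 14780400) (l 14668336))) (c (a (l 14740912) (l 14645816)) (l 14615472))) (c (a (l 14567760) (l 14524736)) (a (l 14489688) (l 14444288)))))), by decide +kernel⟩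

def k6_pp_022 : ∃ t, chk3 f_pp_022 t 5 9 1 = true :=
  ⟨(a (a (b (b (c (c (l 15054280) (l 15023952)) (l 14852616)) (a (a (c (l 14850712) (l 14782504)) (l 14814184)) (l 14827432))) (l 14574648)) (l 14599056)) (l 14778248)), by decide +kernel⟩

def k7_pp_022 : ∃ t, chk3 f_pp_022 t 4 10 1 = true :=
  ⟨(b (a (a (b (c (a (a (l 16021384) (l 16130176)) (b (l 15646456) (a (l 15883344) (l 15653000)))) (a (a (l 16220928) (l 16246320)) (b (l 15850424) (l 15577968)))) (c (a (b (a (l 16050856) (l 16048640)) (a (b (a (l 15990304) (l 16156376)) (l 15952432)) (b (l 16298752) (l 16359808)))) (b (c (l 15783624) (l 15811600)) (b (l 15732112) (l 15950832)))) (a (b (a (l 16165144) (l 16249528)) (a (b (l 16058256) (l 15975440)) (l 16304992))) (b (l 15685344) (b (l 15874576) (l 15949248)))))) (b (c (a (a (c (l 15405432) (l 15382568)) (c (l 15125464) (l 15097056))) (l 14930392)) (a (a (l 15347576) (l 15053608)) (l 14866040))) (c (b (a (c (l 15240536) (l 15214456)) (l 14921632)) (a (c (l 15366360) (l 15363832))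 (l 15094568))) (b (a (l 15174560) (l 14856984)) (a (l 15327888) (l 15035992)))))) (b (a (c (c (l 14644696) (l 14607408)) (l 14551456)) (a (c (c (l 14402056) (l 14360240)) (l 14297512)) (l 14325960))) (a (b (c (a (l 14730832) (l 14542000)) (l 14555600)) (c (a (l 14925288) (l 14770392)) (l 14544664))) (a (b (c (l 14453944) (l 14371008)) (l 14670512)) (l 14552176))))) (a (a (c (a (b (a (l 15617664) (l 16050192)) (c (l 15630504) (l 15676672))) (b (c (l 16056656) (l 16133016)) (a (l 16291272) (l 16341792)))) (a (b (a (l 15801488) (l 16185392)) (l 15570120)) (b (l 15995624) (l 16271056)))) (c (a (b (a (l 15756520) (l 15517248)) (a (l 16101528) (l 15886776))) (b (l 15382512) (l 15775768))) (a (b (l 15577120) (l 15884304)) (l 15284032)))) (a (b (c (a (l 15231872) (l 15135416)) (a (l 15178040) (l 15077096))) (a (c (l 15671520) (l 15632664)) (l 15589128))) (l 15316336)))), by decide +kernel⟩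

def k8_pp_022 : ∃ t, chk3 f_pp_022 t 4 11 1 = true :=
  ⟨(b (a (a (a (c (b (l 15333400) (l 15203760)) (b (l 15436344) (l 15147712))) (c (b (l 16001048) (l 15861160)) (b (l 16111088) (l 15874088)))) (b (a (c (l 16235712) (l 16349264)) (c (l 16180664) (l 16160216))) (a (c (l 16383328) (l 16483184)) (l 16431488)))) (a (b (c (l 15975016) (l 16076512)) (l 16531752)) (l 16262800))) (a (a (c (a (l 14935272) (l 15628520)) (a (l 14976816) (l 15696672))) (a (c (b (l 16294176) (l 16398080)) (l 16280304)) (l 16644256))) (l 16736200))), by decide +kernel⟩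

def k9_pp_022 : ∃ t, chk3 f_pp_022 t 5 5 1 = true :=
  ⟨(b (b (a (b (l 14372728) (l 14597160)) (b (l 14410480) (l 14633880))) (a (l 15360872) (l 15390448))) (b (a (l 16255232) (l 16316680)) (a (l 16746680) (l 16776576)))), by decide +kernel⟩

def k10_pp_022 : ∃ t, chk3 f_pp_022 t 3 2 1 = true :=
  ⟨(b (b (a (a (l 15397800) (l 15338840)) (l 15251808)) (a (l 14783536) (l 14790352))) (b (b (b (l 14451288) (l 14675320)) (l 15335568)) (b (l 16327280) (l 16776592)))), by decide +kernel⟩

def k11_pp_022 : ∃ t, chk3 f_pp_022 t 1 3 1 = true :=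
  ⟨(a (a (a (b (a (b (c (a (l 15039672) (l 15733376)) (l 15164696)) (a (l 15009920) (l 15715048))) (a (b (l 16391448) (l 16391448)) (l 16643792))) (a (a (l 15009920) (l 15715048)) (l 16455176))) (b (l 16735584) (l 16735584))) (b (a (l 16746064) (l 16777216)) (l 2))) (l 2)), by decide +kernel⟩

theorem s12_pp_022 : ∃ t, chk3 f_pp_022 t 4 5 1 = true := ex3_b k7_pp_022 k8_pp_022

theorem s13_pp_022 : ∃ t, chk3 f_pp_022 t 2 5 1 = true := ex3_a s12_pp_022 k9_pp_022

theorem s14_pp_022 : ∃ t, chk3 f_pp_022 t 4 9 1 = true := ex3_a k4_pp_022 k5_pp_022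

theorem s15_pp_022 : ∃ t, chk3 f_pp_022 t 2 9 1 = true := ex3_a s14_pp_022 k6_pp_022

theorem s16_pp_022 : ∃ t, chk3 f_pp_022 t 8 8 1 = true := ex3_b k0_pp_022 k1_pp_022

theorem s17_pp_022 : ∃ t, chk3 f_pp_022 t 4 8 1 = true := ex3_a s16_pp_022 k2_pp_022

theorem s18_pp_022 : ∃ t, chk3 f_pp_022 t 2 8 1 = true := ex3_a s17_pp_022 k3_pp_022

theorem s19_pp_022 : ∃ t, chk3 f_pp_022 t 2 4 1 = true := ex3_b s18_pp_022 s15_pp_022

theorem s20_pp_022 : ∃ t, chk3 f_pp_022 t 2 2 1 = true := ex3_b s19_pp_022 s13_pp_022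

theorem s21_pp_022 : ∃ t, chk3 f_pp_022 t 1 2 1 = true := ex3_a s20_pp_022 k10_pp_022

theorem s22_pp_022 : ∃ t, chk3 f_pp_022 t 1 1 1 = true := ex3_b s21_pp_022 k11_pp_022

theorem c_pp_022 : CertNX 67108864 469762048 1073741824 536870912 1046898278 26843546 3 false true true .pp 0 2 2
    ndN2q0 ndN3q2 pcN2 Cut.none Ext.none :=
  certNX1 (fam := false) (s1 := true) (s2 := true) (a := 0) (b := 2) (c := 2) (cn := .pp) (n1 := ndN2q0) (n2 := ndN3q2) (pc := pcN2) (cut := Cut.none) (xt := Ext.none) (P1 := 67108864) (W1 := 469762048) (P2 := 1073741824) (W2 := 536870912) (P3 := 1046898278) (W3 := 26843546) (N0 := 3)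
    rfl (fun _ => rfl) s22_pp_022

noncomputable def f_pp_023 : ℕ → ℕ → ℕ → ℕ → Bool := onCell 67108864 469762048 1073741824 536870912 1046898278 26843546
    (rowNX 3 1 false true true .up 0 2 3 (qsf 67108864 469762048 1610612736 536870912 2) ndN2q0 ndN3q3 pcN2 Cut.none Ext.none)

def k0_pp_023 : ∃ t, chk3 f_pp_023 t 1 1 1 = true :=
  ⟨(b (a (b (l 1) (a (l 1) (b (l 1) (b (l 1328250747815) (l 531536231495))))) (b (b (a (l 1) (l 15251808)) (a (l 14783536) (l 14790352))) (b (b (b (l 14451288) (l 14675320)) (l 15314600)) (b (l 16327280) (l 16776592))))) (a (a (a (b (l 1) (a (l 224442157959) (l 16329344))) (b (l 16735584) (l 16735584))) (b (a (l 16746064) (l 16777216)) (a (l 16746064) (l 16777216)))) (b (b (l 16767592) (l 16776072)) (a (b (l 16777200) (l 16777184)) (b (l 16722864) (l 16877360)))))), by decide +kernel⟩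

theorem c_pp_023 : CertNX 67108864 469762048 1610612736 536870912 1046898278 26843546 3 false true true .up 0 2 3
    ndN2q0 ndN3q3 pcN2 Cut.none Ext.none :=
  certNX1 (fam := false) (s1 := true) (s2 := true) (a := 0) (b := 2) (c := 3) (cn := .up) (n1 := ndN2q0) (n2 := ndN3q3) (pc := pcN2) (cut := Cut.none) (xt := Ext.none) (P1 := 67108864) (W1 := 469762048) (P2 := 1610612736) (W2 := 536870912) (P3 := 1046898278) (W3 := 26843546) (N0 := 3)
    rfl (fun _ => rfl) k0_pp_023

noncomputable def f_pp_033 : ℕ → ℕ → ℕ → ℕ → Bool := onCell 67108864 469762048 1610612736 536870912 1046898278 26843546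
    (rowNX 3 0 false true true .pnn 0 3 3 (qsf 67108864 469762048 1610612736 536870912 3) ndN2q0 ndN3q3 pcN3 Cut.none Ext.none)

def k0_pp_033 : ∃ t, chk3 f_pp_033 t 1 1 1 = true :=
  ⟨(b (a (a (b (a (a (l 237327164711) (l 16518088)) (l 16735584)) (a (a (b (l 15362456) (l 15152744)) (b (l 16518088) (l 16518088))) (b (l 16735584) (l 16735584)))) (b (l 1) (a (l 16746064) (l 16777216)))) (l 1)) (a (a (b (b (a (a (c (l 15386000) (l 15332456)) (a (l 16391432) (l 16643776))) (l 16735576)) (a (a (c (l 15364984) (l 15332408)) (b (l 16287336) (l 4))) (c (l 16736272) (a (l 16769480) (l 16685776))))) (l 4)) (b (c (a (l 16746584) (l 16777168)) (a (b (l 16745520) (l 16745496)) (l 16777168))) (b (a (l 4) (b (l 16774248) (l 4))) (l 4)))) (b (a (b (l 16777200) (l 16777152)) (l 1)) (b (a (c (l 16730632) (l 16729000)) (l 16729592)) (a (c (l 16691672) (l 16686984)) (c (l 16691672) (l 16686984))))))), by decide +kernel⟩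

theorem c_pp_033 : CertNX 67108864 469762048 1610612736 536870912 1046898278 26843546 3 false true true .pnn 0 3 3
    ndN2q0 ndN3q3 pcN3 Cut.none Ext.none :=
  certNX0 (fam := false) (s1 := true) (s2 := true) (a := 0) (b := 3) (c := 3) (cn := .pnn) (n1 := ndN2q0) (n2 := ndN3q3) (pc := pcN3) (cut := Cut.none) (xt := Ext.none) (P1 := 67108864) (W1 := 469762048) (P2 := 1610612736) (W2 := 536870912) (P3 := 1046898278) (W3 := 26843546) (N0 := 3)
    rfl k0_pp_033

noncomputable def f_pp_101 : ℕ → ℕ → ℕ → ℕ → Bool := onCell 536870912 536870912 536870912 536870912 1046898278 26843546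
    (rowNX 3 0 false true true .npn 1 0 1 (qsf 536870912 536870912 536870912 536870912 0) ndN2q1 ndN3q1 pcN0 Cut.none Ext.none)

def k0_pp_101 : ∃ t, chk3 f_pp_101 t 1 1 1 = true :=
  ⟨(l 3), by decide +kernel⟩

theorem c_pp_101 : CertNX 536870912 536870912 536870912 536870912 1046898278 26843546 3 false true true .npn 1 0 1
    ndN2q1 ndN3q1 pcN0 Cut.none Ext.none :=
  certNX0 (fam := false) (s1 := true) (s2 := true) (a := 1) (b := 0) (c := 1) (cn := .npn) (n1 := ndN2q1) (n2 := ndN3q1) (pc := pcN0) (cut := Cut.none) (xt := Ext.none) (P1 := 536870912) (W1 := 536870912) (P2 := 536870912) (W2 := 536870912) (P3 := 1046898278) (W3 := 26843546) (N0 := 3)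
    rfl k0_pp_101

noncomputable def f_pp_102 : ℕ → ℕ → ℕ → ℕ → Bool := onCell 536870912 536870912 0 536870912 1046898278 26843546
    (rowNX 3 1 false true true .npp 1 0 2 (qsf 536870912 536870912 1073741824 536870912 0) ndN2q1 ndN3q2 pcN0 Cut.none Ext.none)

def k0_pp_102 : ∃ t, chk3 f_pp_102 t 1 1 1 = true :=
  ⟨(l 3), by decide +kernel⟩

theorem c_pp_102 : CertNX 536870912 536870912 1073741824 536870912 1046898278 26843546 3 false true true .npp 1 0 2
    ndN2q1 ndN3q2 pcN0 Cut.none Ext.none :=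
  certNX1 (fam := false) (s1 := true) (s2 := true) (a := 1) (b := 0) (c := 2) (cn := .npp) (n1 := ndN2q1) (n2 := ndN3q2) (pc := pcN0) (cut := Cut.none) (xt := Ext.none) (P1 := 536870912) (W1 := 536870912) (P2 := 1073741824) (W2 := 536870912) (P3 := 1046898278) (W3 := 26843546) (N0 := 3)
    rfl (fun _ => rfl) k0_pp_102

noncomputable def f_pp_112 : ℕ → ℕ → ℕ → ℕ → Bool := onCell 536870912 536870912 1073741824 536870912 1046898278 26843546
    (rowNX 3 2 false true true .dn 1 1 2 (qsf 536870912 536870912 1073741824 536870912 1) ndN2q1 ndN3q2 pcN1 Cut.none Ext.none)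

def k0_pp_112 : ∃ t, chk3 f_pp_112 t 1 1 1 = true :=
  ⟨(a (b (l 3) (a (l 3) (b (l 3) (a (l 3) (l 16765952))))) (a (b (a (a (l 3) (l 1)) (l 1)) (a (b (l 16775864) (l 16773288)) (a (l 202433753831) (a (l 16713224) (l 205117776007))))) (b (l 1) (b (a (a (l 16415960) (l 1)) (l 1)) (a (a (l 16356472) (l 16017848)) (a (a (l 15766688) (b (l 1) (l 15578104))) (l 15341640))))))), by decide +kernel⟩

theorem c_pp_112 : CertNX 536870912 536870912 1073741824 536870912 1046898278 26843546 3 false true true .dn 1 1 2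
    ndN2q1 ndN3q2 pcN1 Cut.none Ext.none :=
  certNX2 (fam := false) (s1 := true) (s2 := true) (a := 1) (b := 1) (c := 2) (cn := .dn) (n1 := ndN2q1) (n2 := ndN3q2) (pc := pcN1) (cut := Cut.none) (xt := Ext.none) (P1 := 536870912) (W1 := 536870912) (P2 := 1073741824) (W2 := 536870912) (P3 := 1046898278) (W3 := 26843546) (N0 := 3)
    rfl (fun _ => rfl) k0_pp_112

noncomputable def f_pp_113 : ℕ → ℕ → ℕ → ℕ → Bool := onCell 536870912 536870912 536870912 536870912 1046898278 26843546
    (rowNX 3 1 false true true .nn 1 1 3 (qsf 536870912 536870912 1610612736 536870912 1) ndN2q1 ndN3q3 pcN1 Cut.none Ext.none)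

def k0_pp_113 : ∃ t, chk3 f_pp_113 t 1 1 1 = true :=
  ⟨(b (b (l 3) (a (b (l 1) (l 402686738423)) (a (b (l 3) (a (l 16740768) (l 16472856))) (b (l 3) (a (l 15855624) (l 15064600)))))) (b (a (b (a (l 1) (l 16772192)) (b (l 16729280) (a (l 16659336) (l 16616104)))) (a (b (a (l 16733592) (l 16464280)) (b (l 16431648) (a (l 16558600) (l 16283968)))) (b (a (l 15694584) (b (l 15064568) (l 15037728))) (b (a (l 15770064) (l 14973600)) (l 15271336))))) (a (b (b (a (l 16348192) (l 16310152)) (a (l 16001912) (l 15945800))) (a (l 15452280) (l 15374232))) (a (b (a (l 16058080) (l 15789368)) (a (l 15280440) (l 15002584))) (b (a (l 15201976) (b (l 14594752) (l 14308568))) (a (b (l 14669344) (l 14306304)) (b (l 14121136) (l 14098792)))))))), by decide +kernel⟩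

theorem c_pp_113 : CertNX 536870912 536870912 1610612736 536870912 1046898278 26843546 3 false true true .nn 1 1 3
    ndN2q1 ndN3q3 pcN1 Cut.none Ext.none :=
  certNX1 (fam := false) (s1 := true) (s2 := true) (a := 1) (b := 1) (c := 3) (cn := .nn) (n1 := ndN2q1) (n2 := ndN3q3) (pc := pcN1) (cut := Cut.none) (xt := Ext.none) (P1 := 536870912) (W1 := 536870912) (P2 := 1610612736) (W2 := 536870912) (P3 := 1046898278) (W3 := 26843546) (N0 := 3)
    rfl (fun _ => rfl) k0_pp_113

noncomputable def f_pp_123 : ℕ → ℕ → ℕ → ℕ → Bool := onCell 1073741824 536870912 1610612736 536870912 1046898278 26843546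
    (rowNX 3 2 false true true .npn 1 2 3 (qsf 536870912 536870912 1610612736 536870912 2) ndN2q1 ndN3q3 pcN2 Cut.none Ext.none)

def k0_pp_123 : ∃ t, chk3 f_pp_123 t 1 1 1 = true :=
  ⟨(a (a (b (a (b (l 15166920) (l 15032952)) (b (l 14791536) (l 14799456))) (b (a (b (l 14913208) (l 14746320)) (l 14805120)) (a (b (a (l 14398360) (l 14765184)) (b (l 14964008) (a (l 15379312) (l 15076032)))) (b (a (l 14939592) (l 14763000)) (a (b (l 15116176) (l 15472024)) (l 14938864)))))) (b (a (a (a (l 14481216) (l 14701024)) (l 15327216)) (a (l 16329472) (l 16776592))) (a (b (a (a (l 14540600) (l 14761280)) (l 15469648)) (a (b (a (l 14602384) (l 14816176)) (l 14835088)) (b (l 15484440) (l 15456848)))) (b (a (l 16325800) (l 16745224)) (a (l 15948344) (l 16457752)))))) (a (b (l 16777216) (b (l 16965888) (a (l 16558336) (l 16692736)))) (b (l 1) (b (l 16777168) (a (l 16698304) (l 16698304)))))), by decide +kernel⟩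

theorem c_pp_123 : CertNX 536870912 536870912 1610612736 536870912 1046898278 26843546 3 false true true .npn 1 2 3
    ndN2q1 ndN3q3 pcN2 Cut.none Ext.none :=
  certNX2 (fam := false) (s1 := true) (s2 := true) (a := 1) (b := 2) (c := 3) (cn := .npn) (n1 := ndN2q1) (n2 := ndN3q3) (pc := pcN2) (cut := Cut.none) (xt := Ext.none) (P1 := 536870912) (W1 := 536870912) (P2 := 1610612736) (W2 := 536870912) (P3 := 1046898278) (W3 := 26843546) (N0 := 3)
    rfl (fun _ => rfl) k0_pp_123

noncomputable def f_pp_133 : ℕ → ℕ → ℕ → ℕ → Bool := onCell 1610612736 536870912 1610612736 536870912 1046898278 26843546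
    (rowNX 3 2 false true true .dn 1 3 3 (qsf 536870912 536870912 1610612736 536870912 3) ndN2q1 ndN3q3 pcN3 Cut.none Ext.none)

def k0_pp_133 : ∃ t, chk3 f_pp_133 t 1 1 1 = true :=
  ⟨(a (b (l 1) (b (l 1) (a (c (l 16736224) (l 16685120)) (l 1)))) (l 1)), by decide +kernel⟩

theorem c_pp_133 : CertNX 536870912 536870912 1610612736 536870912 1046898278 26843546 3 false true true .dn 1 3 3
    ndN2q1 ndN3q3 pcN3 Cut.none Ext.none :=
  certNX2 (fam := false) (s1 := true) (s2 := true) (a := 1) (b := 3) (c := 3) (cn := .dn) (n1 := ndN2q1) (n2 := ndN3q3) (pc := pcN3) (cut := Cut.none) (xt := Ext.none) (P1 := 536870912) (W1 := 536870912) (P2 := 1610612736) (W2 := 536870912) (P3 := 1046898278) (W3 := 26843546) (N0 := 3)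
    rfl (fun _ => rfl) k0_pp_133

noncomputable def f_pp_202_a : ℕ → ℕ → ℕ → ℕ → Bool := onCell 0 420477299 1073741824 536870912 1046898278 26843546
    (rowNX 3 0 false true true .pp 2 0 2 (qsf 0 420477299 1073741824 536870912 0) ndN2q2a ndN3q2 pcN0 Cut.none Ext.none)

def k0_pp_202_a : ∃ t, chk3 f_pp_202_a t 1 1 1 = true :=
  ⟨(l 3), by decide +kernel⟩

theorem c_pp_202_a : CertNX 0 420477299 1073741824 536870912 1046898278 26843546 3 false true true .pp 2 0 2
    ndN2q2a ndN3q2 pcN0 Cut.none Ext.none :=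
  certNX0 (fam := false) (s1 := true) (s2 := true) (a := 2) (b := 0) (c := 2) (cn := .pp) (n1 := ndN2q2a) (n2 := ndN3q2) (pc := pcN0) (cut := Cut.none) (xt := Ext.none) (P1 := 0) (W1 := 420477299) (P2 := 1073741824) (W2 := 536870912) (P3 := 1046898278) (W3 := 26843546) (N0 := 3)
    rfl k0_pp_202_a

noncomputable def f_pp_202_b : ℕ → ℕ → ℕ → ℕ → Bool := onCell 1239849684 370763052 1073741824 536870912 1046898278 26843546
    (rowNX 3 0 false true true .pp 2 0 2 (qsf 1239849684 370763052 1073741824 536870912 0) ndN2q2b ndN3q2 pcN0 Cut.none Ext.none)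

def k0_pp_202_b : ∃ t, chk3 f_pp_202_b t 1 1 1 = true :=
  ⟨(l 3), by decide +kernel⟩

theorem c_pp_202_b : CertNX 1239849684 370763052 1073741824 536870912 1046898278 26843546 3 false true true .pp 2 0 2
    ndN2q2b ndN3q2 pcN0 Cut.none Ext.none :=
  certNX0 (fam := false) (s1 := true) (s2 := true) (a := 2) (b := 0) (c := 2) (cn := .pp) (n1 := ndN2q2b) (n2 := ndN3q2) (pc := pcN0) (cut := Cut.none) (xt := Ext.none) (P1 := 1239849684) (W1 := 370763052) (P2 := 1073741824) (W2 := 536870912) (P3 := 1046898278) (W3 := 26843546) (N0 := 3)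
    rfl k0_pp_202_b

noncomputable def f_pp_203_a : ℕ → ℕ → ℕ → ℕ → Bool := onCell 0 420477299 1610612736 536870912 1046898278 26843546
    (rowNX 3 0 false true true .up 2 0 3 (qsf 0 420477299 1610612736 536870912 0) ndN2q2a ndN3q3 pcN0 Cut.none Ext.none)

def k0_pp_203_a : ∃ t, chk3 f_pp_203_a t 1 1 1 = true :=
  ⟨(l 3), by decide +kernel⟩

theorem c_pp_203_a : CertNX 0 420477299 1610612736 536870912 1046898278 26843546 3 false true true .up 2 0 3
    ndN2q2a ndN3q3 pcN0 Cut.none Ext.none :=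
  certNX0 (fam := false) (s1 := true) (s2 := true) (a := 2) (b := 0) (c := 3) (cn := .up) (n1 := ndN2q2a) (n2 := ndN3q3) (pc := pcN0) (cut := Cut.none) (xt := Ext.none) (P1 := 0) (W1 := 420477299) (P2 := 1610612736) (W2 := 536870912) (P3 := 1046898278) (W3 := 26843546) (N0 := 3)
    rfl k0_pp_203_a

noncomputable def f_pp_203_b : ℕ → ℕ → ℕ → ℕ → Bool := onCell 1239849684 370763052 1610612736 536870912 1046898278 26843546
    (rowNX 3 0 false true true .up 2 0 3 (qsf 1239849684 370763052 1610612736 536870912 0) ndN2q2b ndN3q3 pcN0 Cut.none Ext.none)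

def k0_pp_203_b : ∃ t, chk3 f_pp_203_b t 1 1 1 = true :=
  ⟨(l 3), by decide +kernel⟩

theorem c_pp_203_b : CertNX 1239849684 370763052 1610612736 536870912 1046898278 26843546 3 false true true .up 2 0 3
    ndN2q2b ndN3q3 pcN0 Cut.none Ext.none :=
  certNX0 (fam := false) (s1 := true) (s2 := true) (a := 2) (b := 0) (c := 3) (cn := .up) (n1 := ndN2q2b) (n2 := ndN3q3) (pc := pcN0) (cut := Cut.none) (xt := Ext.none) (P1 := 1239849684) (W1 := 370763052) (P2 := 1610612736) (W2 := 536870912) (P3 := 1046898278) (W3 := 26843546) (N0 := 3)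
    rfl k0_pp_203_b

noncomputable def f_pp_213_a : ℕ → ℕ → ℕ → ℕ → Bool := onCell 0 420477299 1610612736 536870912 1046898278 26843546
    (rowNX 3 0 false true true .pnn 2 1 3 (qsf 0 420477299 1610612736 536870912 1) ndN2q2a ndN3q3 pcN1 Cut.none Ext.none)

def k0_pp_213_a : ∃ t, chk3 f_pp_213_a t 1 1 1 = true :=
  ⟨(l 3), by decide +kernel⟩

theorem c_pp_213_a : CertNX 0 420477299 1610612736 536870912 1046898278 26843546 3 false true true .pnn 2 1 3
    ndN2q2a ndN3q3 pcN1 Cut.none Ext.none :=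
  certNX0 (fam := false) (s1 := true) (s2 := true) (a := 2) (b := 1) (c := 3) (cn := .pnn) (n1 := ndN2q2a) (n2 := ndN3q3) (pc := pcN1) (cut := Cut.none) (xt := Ext.none) (P1 := 0) (W1 := 420477299) (P2 := 1610612736) (W2 := 536870912) (P3 := 1046898278) (W3 := 26843546) (N0 := 3)
    rfl k0_pp_213_a

noncomputable def f_pp_213_b : ℕ → ℕ → ℕ → ℕ → Bool := onCell 1239849684 370763052 1610612736 536870912 1046898278 26843546
    (rowNX 3 0 false true true .pnn 2 1 3 (qsf 1239849684 370763052 1610612736 536870912 1) ndN2q2b ndN3q3 pcN1 Cut.none Ext.none)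

def k0_pp_213_b : ∃ t, chk3 f_pp_213_b t 1 1 1 = true :=
  ⟨(l 3), by decide +kernel⟩

theorem c_pp_213_b : CertNX 1239849684 370763052 1610612736 536870912 1046898278 26843546 3 false true true .pnn 2 1 3
    ndN2q2b ndN3q3 pcN1 Cut.none Ext.none :=
  certNX0 (fam := false) (s1 := true) (s2 := true) (a := 2) (b := 1) (c := 3) (cn := .pnn) (n1 := ndN2q2b) (n2 := ndN3q3) (pc := pcN1) (cut := Cut.none) (xt := Ext.none) (P1 := 1239849684) (W1 := 370763052) (P2 := 1610612736) (W2 := 536870912) (P3 := 1046898278) (W3 := 26843546) (N0 := 3)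
    rfl k0_pp_213_b

noncomputable def f_pp_303 : ℕ → ℕ → ℕ → ℕ → Bool := onCell 1610612736 469762048 1610612736 536870912 1046898278 26843546
    (rowNX 3 0 false true true .npn 3 0 3 (qsf 1610612736 469762048 1610612736 536870912 0) ndN2q3 ndN3q3 pcN0 Cut.none Ext.none)

def k0_pp_303 : ∃ t, chk3 f_pp_303 t 1 1 1 = true :=
  ⟨(l 3), by decide +kernel⟩

theorem c_pp_303 : CertNX 1610612736 469762048 1610612736 536870912 1046898278 26843546 3 false true true .npn 3 0 3
    ndN2q3 ndN3q3 pcN0 Cut.none Ext.none :=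
  certNX0 (fam := false) (s1 := true) (s2 := true) (a := 3) (b := 0) (c := 3) (cn := .npn) (n1 := ndN2q3) (n2 := ndN3q3) (pc := pcN0) (cut := Cut.none) (xt := Ext.none) (P1 := 1610612736) (W1 := 469762048) (P2 := 1610612736) (W2 := 536870912) (P3 := 1046898278) (W3 := 26843546) (N0 := 3)
    rfl k0_pp_303

noncomputable def f_pp_313 : ℕ → ℕ → ℕ → ℕ → Bool := onCell 1610612736 469762048 1610612736 536870912 1046898278 26843546
    (rowNX 3 0 false true true .dn 3 1 3 (qsf 1610612736 469762048 1610612736 536870912 1) ndN2q3 ndN3q3 pcN1 Cut.none Ext.none)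

def k0_pp_313 : ∃ t, chk3 f_pp_313 t 1 1 1 = true :=
  ⟨(l 3), by decide +kernel⟩

theorem c_pp_313 : CertNX 1610612736 469762048 1610612736 536870912 1046898278 26843546 3 false true true .dn 3 1 3
    ndN2q3 ndN3q3 pcN1 Cut.none Ext.none :=
  certNX0 (fam := false) (s1 := true) (s2 := true) (a := 3) (b := 1) (c := 3) (cn := .dn) (n1 := ndN2q3) (n2 := ndN3q3) (pc := pcN1) (cut := Cut.none) (xt := Ext.none) (P1 := 1610612736) (W1 := 469762048) (P2 := 1610612736) (W2 := 536870912) (P3 := 1046898278) (W3 := 26843546) (N0 := 3)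
    rfl k0_pp_313

noncomputable def f_pm_001 : ℕ → ℕ → ℕ → ℕ → Bool := onCell 67108864 469762048 536870912 536870912 1046898278 26843546
    (rowNX 3 0 false true false .up 0 0 1 (qsf 67108864 469762048 536870912 536870912 0) ndN2q0 ndN3q1 pcN0 Cut.none Ext.none)

def k0_pm_001 : ∃ t, chk3 f_pm_001 t 1 1 1 = true :=
  ⟨(l 4), by decide +kernel⟩

theorem c_pm_001 : CertNX 67108864 469762048 536870912 536870912 1046898278 26843546 3 false true false .up 0 0 1
    ndN2q0 ndN3q1 pcN0 Cut.none Ext.none :=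
  certNX0 (fam := false) (s1 := true) (s2 := false) (a := 0) (b := 0) (c := 1) (cn := .up) (n1 := ndN2q0) (n2 := ndN3q1) (pc := pcN0) (cut := Cut.none) (xt := Ext.none) (P1 := 67108864) (W1 := 469762048) (P2 := 536870912) (W2 := 536870912) (P3 := 1046898278) (W3 := 26843546) (N0 := 3)
    rfl k0_pm_001

noncomputable def f_pm_011 : ℕ → ℕ → ℕ → ℕ → Bool := onCell 67108864 469762048 536870912 536870912 1046898278 26843546
    (rowNX 3 0 false true false .pnn 0 1 1 (qsf 67108864 469762048 536870912 536870912 1) ndN2q0 ndN3q1 pcN1 Cut.none Ext.none)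

def k0_pm_011 : ∃ t, chk3 f_pm_011 t 1 1 1 = true :=
  ⟨(l 4), by decide +kernel⟩

theorem c_pm_011 : CertNX 67108864 469762048 536870912 536870912 1046898278 26843546 3 false true false .pnn 0 1 1
    ndN2q0 ndN3q1 pcN1 Cut.none Ext.none :=
  certNX0 (fam := false) (s1 := true) (s2 := false) (a := 0) (b := 1) (c := 1) (cn := .pnn) (n1 := ndN2q0) (n2 := ndN3q1) (pc := pcN1) (cut := Cut.none) (xt := Ext.none) (P1 := 67108864) (W1 := 469762048) (P2 := 536870912) (W2 := 536870912) (P3 := 1046898278) (W3 := 26843546) (N0 := 3)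
    rfl k0_pm_011

noncomputable def f_pm_012 : ℕ → ℕ → ℕ → ℕ → Bool := onCell 67108864 469762048 1073741824 536870912 1046898278 26843546
    (rowNX 3 0 false true false .pnp 0 1 2 (qsf 67108864 469762048 1073741824 536870912 1) ndN2q0 ndN3q2 pcN1 Cut.none Ext.none)

def k0_pm_012 : ∃ t, chk3 f_pm_012 t 1 1 1 = true :=
  ⟨(b (a (l 4) (l 4)) (l 4)), by decide +kernel⟩

theorem c_pm_012 : CertNX 67108864 469762048 1073741824 536870912 1046898278 26843546 3 false true false .pnp 0 1 2
    ndN2q0 ndN3q2 pcN1 Cut.none Ext.none :=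
  certNX0 (fam := false) (s1 := true) (s2 := false) (a := 0) (b := 1) (c := 2) (cn := .pnp) (n1 := ndN2q0) (n2 := ndN3q2) (pc := pcN1) (cut := Cut.none) (xt := Ext.none) (P1 := 67108864) (W1 := 469762048) (P2 := 1073741824) (W2 := 536870912) (P3 := 1046898278) (W3 := 26843546) (N0 := 3)
    rfl k0_pm_012

noncomputable def f_pm_022 : ℕ → ℕ → ℕ → ℕ → Bool := onCell 67108864 469762048 1073741824 536870912 1046898278 26843546
    (rowNX 3 1 false true false .pp 0 2 2 (qsf 67108864 469762048 1073741824 536870912 2) ndN2q0 ndN3q2 pcN2 Cut.none Ext.none)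

def k0_pm_022 : ∃ t, chk3 f_pm_022 t 1 1 1 = true :=
  ⟨(b (l 4) (a (l 4) (l 2))), by decide +kernel⟩

theorem c_pm_022 : CertNX 67108864 469762048 1073741824 536870912 1046898278 26843546 3 false true false .pp 0 2 2
    ndN2q0 ndN3q2 pcN2 Cut.none Ext.none :=
  certNX1 (fam := false) (s1 := true) (s2 := false) (a := 0) (b := 2) (c := 2) (cn := .pp) (n1 := ndN2q0) (n2 := ndN3q2) (pc := pcN2) (cut := Cut.none) (xt := Ext.none) (P1 := 67108864) (W1 := 469762048) (P2 := 1073741824) (W2 := 536870912) (P3 := 1046898278) (W3 := 26843546) (N0 := 3)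
    rfl (fun _ => rfl) k0_pm_022

noncomputable def f_pm_023 : ℕ → ℕ → ℕ → ℕ → Bool := onCell 67108864 469762048 1610612736 536870912 1046898278 26843546
    (rowNX 3 0 false true false .up 0 2 3 (qsf 67108864 469762048 1610612736 536870912 2) ndN2q0 ndN3q3 pcN2 Cut.none Ext.none)

def k0_pm_023 : ∃ t, chk3 f_pm_023 t 1 1 1 = true :=
  ⟨(b (l 4) (l 4)), by decide +kernel⟩

theorem c_pm_023 : CertNX 67108864 469762048 1610612736 536870912 1046898278 26843546 3 false true false .up 0 2 3
    ndN2q0 ndN3q3 pcN2 Cut.none Ext.none :=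
  certNX0 (fam := false) (s1 := true) (s2 := false) (a := 0) (b := 2) (c := 3) (cn := .up) (n1 := ndN2q0) (n2 := ndN3q3) (pc := pcN2) (cut := Cut.none) (xt := Ext.none) (P1 := 67108864) (W1 := 469762048) (P2 := 1610612736) (W2 := 536870912) (P3 := 1046898278) (W3 := 26843546) (N0 := 3)
    rfl k0_pm_023

noncomputable def f_pm_033 : ℕ → ℕ → ℕ → ℕ → Bool := onCell 67108864 469762048 1610612736 536870912 1046898278 26843546
    (rowNX 3 0 false true false .pnn 0 3 3 (qsf 67108864 469762048 1610612736 536870912 3) ndN2q0 ndN3q3 pcN3 Cut.none Ext.none)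

def k0_pm_033 : ∃ t, chk3 f_pm_033 t 1 1 1 = true :=
  ⟨(b (l 4) (l 4)), by decide +kernel⟩

theorem c_pm_033 : CertNX 67108864 469762048 1610612736 536870912 1046898278 26843546 3 false true false .pnn 0 3 3
    ndN2q0 ndN3q3 pcN3 Cut.none Ext.none :=
  certNX0 (fam := false) (s1 := true) (s2 := false) (a := 0) (b := 3) (c := 3) (cn := .pnn) (n1 := ndN2q0) (n2 := ndN3q3) (pc := pcN3) (cut := Cut.none) (xt := Ext.none) (P1 := 67108864) (W1 := 469762048) (P2 := 1610612736) (W2 := 536870912) (P3 := 1046898278) (W3 := 26843546) (N0 := 3)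
    rfl k0_pm_033

noncomputable def f_pm_101 : ℕ → ℕ → ℕ → ℕ → Bool := onCell 536870912 536870912 536870912 536870912 1046898278 26843546
    (rowNX 3 0 false true false .npn 1 0 1 (qsf 536870912 536870912 536870912 536870912 0) ndN2q1 ndN3q1 pcN0 Cut.none Ext.none)

def k0_pm_101 : ∃ t, chk3 f_pm_101 t 1 1 1 = true :=
  ⟨(l 4), by decide +kernel⟩

theorem c_pm_101 : CertNX 536870912 536870912 536870912 536870912 1046898278 26843546 3 false true false .npn 1 0 1
    ndN2q1 ndN3q1 pcN0 Cut.none Ext.none :=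
  certNX0 (fam := false) (s1 := true) (s2 := false) (a := 1) (b := 0) (c := 1) (cn := .npn) (n1 := ndN2q1) (n2 := ndN3q1) (pc := pcN0) (cut := Cut.none) (xt := Ext.none) (P1 := 536870912) (W1 := 536870912) (P2 := 536870912) (W2 := 536870912) (P3 := 1046898278) (W3 := 26843546) (N0 := 3)
    rfl k0_pm_101

noncomputable def f_pm_102 : ℕ → ℕ → ℕ → ℕ → Bool := onCell 0 536870912 1073741824 536870912 1046898278 26843546
    (rowNX 3 2 false true false .npp 1 0 2 (qsf 536870912 536870912 1073741824 536870912 0) ndN2q1 ndN3q2 pcN0 Cut.none Ext.none)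

def k0_pm_102 : ∃ t, chk3 f_pm_102 t 2 2 1 = true :=
  ⟨(a (a (b (a (b (b (a (a (b (c (l 13868888) (c (a (l 13740656) (l 13788080)) (a (c (l 13682696) (l 13644416)) (l 13714200)))) (l 2)) (c (c (a (l 13928264) (l 13978248)) (a (l 13855600) (l 13910848))) (c (a (l 13784560) (l 13833616)) (l 13731120)))) (c (a (c (l 13935216) (l 13984616)) (l 14112584)) (c (l 13951016) (l 13879056)))) (a (l 2) (c (a (l 2) (l 13882144)) (l 13690384)))) (l 2)) (b (c (b (a (b (l 14296664) (l 14207096)) (c (l 14464984) (l 14398800))) (a (l 14006992) (l 14179720))) (b (a (l 14108672) (l 14305848)) (l 13967816))) (b (c (a (l 2) (l 14222968)) (l 14009800)) (l 2)))) (l 2)) (b (a (b (b (c (l 14578440) (l 14618208)) (c (l 14469896) (l 14363776))) (b (a (l 14349992) (l 14538608)) (a (l 2) (l 14552760)))) (b (b (l 14818568) (l 14816896)) (b (l 14812232) (l 14800352)))) (a (l 2) (b (b (l 14176584) (l 2)) (l 2))))) (b (b (a (b (a (b (l 15485552) (l 15404248)) (l 15679136)) (a (l 15191480) (l 15530424))) (b (a (l 15627176)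 (l 15550640)) (a (l 15773120) (l 15839592)))) (a (b (a (l 15159608) (l 15488184)) (a (l 15115600) (l 15414152))) (b (a (l 15800664) (l 16058512)) (a (l 15714832) (l 16046752))))) (a (b (b (a (l 14494688) (l 14799736)) (l 14351464)) (b (l 14247128) (l 2))) (b (b (a (l 15111568) (l 15481344)) (l 14963960)) (b (l 14777648) (l 14494784)))))), by decide +kernel⟩

def k1_pm_102 : ∃ t, chk3 f_pm_102 t 3 2 1 = true :=
  ⟨(a (b (b (b (c (l 15563232) (l 15478648)) (a (l 15731728) (l 15709632))) (b (a (l 16242592) (l 16155936)) (a (l 16406184) (l 16562848)))) (b (a (b (l 15989528) (l 15758664)) (b (l 16384192) (l 16328992))) (a (b (l 15562136) (l 15267432)) (b (l 16252592) (l 16035952))))) (a (b (b (b (l 15517432) (l 15709632)) (b (l 16155904) (l 16540528))) (b (l 16365296) (b (l 16619824) (l 16551816)))) (b (l 4) (b (l 16348592) (l 16732048))))), by decide +kernel⟩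

def k2_pm_102 : ∃ t, chk3 f_pm_102 t 1 3 1 = true :=
  ⟨(a (a (l 2) (a (l 2) (b (b (a (l 2) (l 14044344)) (l 2)) (l 2)))) (a (b (a (b (l 14660960) (l 13862040)) (b (l 15468072) (l 14660960))) (a (l 2) (b (l 13862040) (l 2)))) (b (a (b (l 16172024) (l 15468072)) (b (l 16592560) (l 16172024))) (a (b (l 14660960) (l 13862040)) (b (l 15468072) (l 14660960)))))), by decide +kernel⟩

theorem s3_pm_102 : ∃ t, chk3 f_pm_102 t 1 2 1 = true := ex3_a k0_pm_102 k1_pm_102

theorem s4_pm_102 : ∃ t, chk3 f_pm_102 t 1 1 1 = true := ex3_b s3_pm_102 k2_pm_102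

theorem c_pm_102 : CertNX 536870912 536870912 1073741824 536870912 1046898278 26843546 3 false true false .npp 1 0 2
    ndN2q1 ndN3q2 pcN0 Cut.none Ext.none :=
  certNX2 (fam := false) (s1 := true) (s2 := false) (a := 1) (b := 0) (c := 2) (cn := .npp) (n1 := ndN2q1) (n2 := ndN3q2) (pc := pcN0) (cut := Cut.none) (xt := Ext.none) (P1 := 536870912) (W1 := 536870912) (P2 := 1073741824) (W2 := 536870912) (P3 := 1046898278) (W3 := 26843546) (N0 := 3)
    rfl (fun _ => rfl) s4_pm_102

noncomputable def f_pm_112 : ℕ → ℕ → ℕ → ℕ → Bool := onCell 536870912 536870912 1073741824 536870912 1046898278 26843546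
    (rowNX 3 2 false true false .dn 1 1 2 (qsf 536870912 536870912 1073741824 536870912 1) ndN2q1 ndN3q2 pcN1 Cut.none Ext.none)

def k0_pm_112 : ∃ t, chk3 f_pm_112 t 1 1 1 = true :=
  ⟨(a (b (b (l 4) (a (b (l 4) (a (l 16715384) (l 4))) (l 4))) (a (b (a (b (l 16759640) (l 16592560)) (l 16765952)) (a (b (l 16172024) (l 15468072)) (b (l 16592560) (l 16172024)))) (a (b (l 389466610727) (a (l 16601464) (l 16568248))) (b (l 4) (a (l 16469992) (l 16332984)))))) (a (b (l 4) (a (a (b (l 4) (b (l 4) (l 16170488))) (l 4)) (l 4))) (b (l 1) (l 4)))), by decide +kernel⟩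

theorem c_pm_112 : CertNX 536870912 536870912 1073741824 536870912 1046898278 26843546 3 false true false .dn 1 1 2
    ndN2q1 ndN3q2 pcN1 Cut.none Ext.none :=
  certNX2 (fam := false) (s1 := true) (s2 := false) (a := 1) (b := 1) (c := 2) (cn := .dn) (n1 := ndN2q1) (n2 := ndN3q2) (pc := pcN1) (cut := Cut.none) (xt := Ext.none) (P1 := 536870912) (W1 := 536870912) (P2 := 1073741824) (W2 := 536870912) (P3 := 1046898278) (W3 := 26843546) (N0 := 3)
    rfl (fun _ => rfl) k0_pm_112

noncomputable def f_pm_113 : ℕ → ℕ → ℕ → ℕ → Bool := onCell 536870912 536870912 1610612736 536870912 1046898278 26843546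
    (rowNX 3 2 false true false .nn 1 1 3 (qsf 536870912 536870912 1610612736 536870912 1) ndN2q1 ndN3q3 pcN1 Cut.none Ext.none)

def k0_pm_113 : ∃ t, chk3 f_pm_113 t 2 1 1 = true :=
  ⟨(b (a (b (a (b (l 14660960) (l 13862040)) (b (l 15468072) (l 14660960))) (a (l 2) (b (l 13862040) (l 2)))) (b (a (b (b (l 16315792) (l 16036072)) (l 15468072)) (b (b (l 16408872) (l 16479776)) (l 16172024))) (a (b (l 14660960) (l 13862040)) (l 279806500823)))) (b (a (l 2) (a (l 2) (b (l 13862056) (l 2)))) (l 2))), by decide +kernel⟩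

def k1_pm_113 : ∃ t, chk3 f_pm_113 t 6 1 1 = true :=
  ⟨(b (a (b (a (b (b (l 15962344) (l 16446040)) (b (l 16578288) (l 16472200))) (b (b (l 15320088) (l 15644448)) (b (l 16041232) (l 16122568)))) (a (l 15659432) (b (b (a (l 16303696) (l 16072728)) (l 16002976)) (l 15510376)))) (b (a (b (l 14793576) (a (l 15300992) (l 14845424))) (b (l 14145624) (a (l 14395360) (l 14084656)))) (b (b (a (b (l 15245104) (a (l 15825064) (l 15267120))) (b (l 14288480) (b (l 14412176) (a (a (c (l 15021952) (l 14850288)) (l 14814208)) (l 14505488))))) (a (a (l 15887568) (c (l 15747960) (l 15734200))) (b (a (a (c (l 15636392) (a (l 15656936) (l 15609592))) (c (l 15487344) (l 15483952))) (b (b (l 14531144) (l 15022952)) (c (l 15201776) (b (l 15038992) (l 14973648))))) (l 15527928)))) (a (l 15564880) (l 15368952))))) (b (a (a (l 633602425911) (l 606222588343)) (a (l 14541504) (l 14608480))) (a (l 2) (b (a (l 2) (l 769429971831)) (l 2))))), by decide +kernel⟩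

def k2_pm_113 : ∃ t, chk3 f_pm_113 t 14 1 1 = true :=
  ⟨(b (b (a (a (l 13782640) (a (l 13567968) (l 13309256))) (a (c (c (l 13572088) (l 13479192)) (l 13387176)) (l 4))) (b (a (b (a (l 13782568) (a (l 13565616) (l 13479080))) (b (a (b (l 14109104) (c (l 14822256) (b (l 14350888) (l 14736712)))) (a (b (l 13779048) (b (l 13771384) (l 14296840))) (c (c (l 14044824) (l 13656152)) (l 13612272)))) (b (c (a (l 14804376) (a (l 14504216) (a (l 14356024) (l 14317408)))) (a (l 14553392) (a (l 14477664) (c (l 14311064) (l 14147336))))) (l 14792968)))) (b (c (c (a (l 13599568) (a (l 13627248) (l 13641056))) (c (l 48009384375) (l 13513376))) (l 13442072)) (c (a (b (l 13662312) (b (l 14237624) (l 14404592))) (a (l 14113104) (b (b (l 13673024) (l 13795648)) (l 13883296)))) (a (b (l 13587456) (l 14192976)) (b (l 13668872) (l 13997560)))))) (l 14564440))) (b (a (l 14366624) (l 14120656)) (b (a (l 13738936) (l 13763640)) (b (l 938006886231) (l 2))))), by decide +kernel⟩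

def k3_pm_113 : ∃ t, chk3 f_pm_113 t 15 1 1 = true :=
  ⟨(b (b (l 4) (a (b (a (a (c (c (l 13934032) (b (l 13370064) (b (l 13379536) (l 13915208)))) (l 13755072)) (c (c (l 13745728) (c (l 13749248) (l 13722176))) (l 13652864))) (c (a (a (l 13596952) (l 13498704)) (l 13342424)) (c (c (b (l 13078384) (a (l 13382784) (l 13362728))) (l 13395120)) (l 13372952)))) (b (l 13705936) (l 13793656))) (a (c (b (l 12857048) (l 13033840)) (c (b (a (c (l 13176688) (l 13161080)) (l 12962928)) (l 13192168)) (b (a (l 13112592) (l 12936808)) (l 13158888)))) (c (l 73777718631) (c (a (l 12814856) (l 12656032)) (c (a (b (l 12723064) (l 12883992)) (l 12632144)) (a (l 12810032) (a (l 93104826791) (l 12574032))))))))) (b (a (l 13776160) (b (a (l 13346464) (l 13077248)) (l 13299872))) (b (a (l 13652336) (l 13278240)) (a (b (l 13833336) (l 14190576)) (b (l 13749728) (l 15873312)))))), by decide +kernel⟩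

theorem s4_pm_113 : ∃ t, chk3 f_pm_113 t 7 1 1 = true := ex3_a k2_pm_113 k3_pm_113

theorem s5_pm_113 : ∃ t, chk3 f_pm_113 t 3 1 1 = true := ex3_a k1_pm_113 s4_pm_113

theorem s6_pm_113 : ∃ t, chk3 f_pm_113 t 1 1 1 = true := ex3_a k0_pm_113 s5_pm_113

theorem c_pm_113 : CertNX 536870912 536870912 1610612736 536870912 1046898278 26843546 3 false true false .nn 1 1 3
    ndN2q1 ndN3q3 pcN1 Cut.none Ext.none :=
  certNX2 (fam := false) (s1 := true) (s2 := false) (a := 1) (b := 1) (c := 3) (cn := .nn) (n1 := ndN2q1) (n2 := ndN3q3) (pc := pcN1) (cut := Cut.none) (xt := Ext.none) (P1 := 536870912) (W1 := 536870912) (P2 := 1610612736) (W2 := 536870912) (P3 := 1046898278) (W3 := 26843546) (N0 := 3)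
    rfl (fun _ => rfl) s6_pm_113

noncomputable def f_pm_123 : ℕ → ℕ → ℕ → ℕ → Bool := onCell 1073741824 536870912 1610612736 536870912 1046898278 26843546
    (rowNX 3 2 false true false .npn 1 2 3 (qsf 536870912 536870912 1610612736 536870912 2) ndN2q1 ndN3q3 pcN2 Cut.none Ext.none)

def k0_pm_123 : ∃ t, chk3 f_pm_123 t 1 1 1 = true :=
  ⟨(a (a (b (b (l 4) (b (l 4) (a (c (a (l 12899952) (c (l 13231264) (l 13156704))) (a (c (l 12807464) (l 12726216)) (l 13067248))) (a (c (l 94180251447) (l 13354056)) (l 4))))) (b (a (c (a (l 13188824) (b (l 13359432) (l 13600504))) (a (b (l 12989240) (l 13154096)) (l 13365000))) (a (c (b (l 13610304) (l 13839136)) (l 13588056)) (l 13892680))) (a (b (a (c (l 13507272) (b (l 13224128) (l 13241944))) (c (l 13894024) (l 13719464))) (b (a (l 14351776) (l 14323192)) (a (l 15221376) (l 14882616)))) (b (a (c (l 14121464) (l 13968416)) (l 14121192)) (a (b (l 14508144) (l 15293864)) (l 14625192)))))) (b (l 4) (a (b (a (l 14455400) (l 15059064)) (b (a (l 14481216)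 (l 15113480)) (a (l 14687632) (l 15279360)))) (b (a (l 15472000) (l 15833312)) (a (b (l 15583624) (l 15795128)) (l 16000904)))))) (b (l 4) (a (b (l 4) (a (b (l 16324352) (l 16375936)) (l 79155226887))) (b (l 4) (a (l 16698304) (l 16698304)))))), by decide +kernel⟩

theorem c_pm_123 : CertNX 536870912 536870912 1610612736 536870912 1046898278 26843546 3 false true false .npn 1 2 3
    ndN2q1 ndN3q3 pcN2 Cut.none Ext.none :=
  certNX2 (fam := false) (s1 := true) (s2 := false) (a := 1) (b := 2) (c := 3) (cn := .npn) (n1 := ndN2q1) (n2 := ndN3q3) (pc := pcN2) (cut := Cut.none) (xt := Ext.none) (P1 := 536870912) (W1 := 536870912) (P2 := 1610612736) (W2 := 536870912) (P3 := 1046898278) (W3 := 26843546) (N0 := 3)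
    rfl (fun _ => rfl) k0_pm_123

noncomputable def f_pm_133 : ℕ → ℕ → ℕ → ℕ → Bool := onCell 1610612736 536870912 1610612736 536870912 1046898278 26843546
    (rowNX 3 2 false true false .dn 1 3 3 (qsf 536870912 536870912 1610612736 536870912 3) ndN2q1 ndN3q3 pcN3 Cut.none Ext.none)

def k0_pm_133 : ∃ t, chk3 f_pm_133 t 1 1 1 = true :=
  ⟨(a (b (l 1) (l 4)) (l 1)), by decide +kernel⟩

theorem c_pm_133 : CertNX 536870912 536870912 1610612736 536870912 1046898278 26843546 3 false true false .dn 1 3 3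
    ndN2q1 ndN3q3 pcN3 Cut.none Ext.none :=
  certNX2 (fam := false) (s1 := true) (s2 := false) (a := 1) (b := 3) (c := 3) (cn := .dn) (n1 := ndN2q1) (n2 := ndN3q3) (pc := pcN3) (cut := Cut.none) (xt := Ext.none) (P1 := 536870912) (W1 := 536870912) (P2 := 1610612736) (W2 := 536870912) (P3 := 1046898278) (W3 := 26843546) (N0 := 3)
    rfl (fun _ => rfl) k0_pm_133

noncomputable def f_pm_202_a : ℕ → ℕ → ℕ → ℕ → Bool := onCell 0 420477299 1073741824 536870912 1046898278 26843546
    (rowNX 3 0 false true false .pp 2 0 2 (qsf 0 420477299 1073741824 536870912 0) ndN2q2a ndN3q2 pcN0 Cut.none Ext.none)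

def k0_pm_202_a : ∃ t, chk3 f_pm_202_a t 1 1 1 = true :=
  ⟨(b (l 3) (l 3)), by decide +kernel⟩

theorem c_pm_202_a : CertNX 0 420477299 1073741824 536870912 1046898278 26843546 3 false true false .pp 2 0 2
    ndN2q2a ndN3q2 pcN0 Cut.none Ext.none :=
  certNX0 (fam := false) (s1 := true) (s2 := false) (a := 2) (b := 0) (c := 2) (cn := .pp) (n1 := ndN2q2a) (n2 := ndN3q2) (pc := pcN0) (cut := Cut.none) (xt := Ext.none) (P1 := 0) (W1 := 420477299) (P2 := 1073741824) (W2 := 536870912) (P3 := 1046898278) (W3 := 26843546) (N0 := 3)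
    rfl k0_pm_202_a

noncomputable def f_pm_202_b : ℕ → ℕ → ℕ → ℕ → Bool := onCell 1239849684 370763052 1073741824 536870912 1046898278 26843546
    (rowNX 3 0 false true false .pp 2 0 2 (qsf 1239849684 370763052 1073741824 536870912 0) ndN2q2b ndN3q2 pcN0 Cut.none Ext.none)

def k0_pm_202_b : ∃ t, chk3 f_pm_202_b t 1 1 1 = true :=
  ⟨(l 3), by decide +kernel⟩

theorem c_pm_202_b : CertNX 1239849684 370763052 1073741824 536870912 1046898278 26843546 3 false true false .pp 2 0 2
    ndN2q2b ndN3q2 pcN0 Cut.none Ext.none :=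
  certNX0 (fam := false) (s1 := true) (s2 := false) (a := 2) (b := 0) (c := 2) (cn := .pp) (n1 := ndN2q2b) (n2 := ndN3q2) (pc := pcN0) (cut := Cut.none) (xt := Ext.none) (P1 := 1239849684) (W1 := 370763052) (P2 := 1073741824) (W2 := 536870912) (P3 := 1046898278) (W3 := 26843546) (N0 := 3)
    rfl k0_pm_202_b

noncomputable def f_pm_203_a : ℕ → ℕ → ℕ → ℕ → Bool := onCell 0 420477299 1610612736 536870912 1046898278 26843546
    (rowNX 3 0 false true false .up 2 0 3 (qsf 0 420477299 1610612736 536870912 0) ndN2q2a ndN3q3 pcN0 Cut.none Ext.none)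

def k0_pm_203_a : ∃ t, chk3 f_pm_203_a t 1 1 1 = true :=
  ⟨(b (l 3) (l 2)), by decide +kernel⟩

theorem c_pm_203_a : CertNX 0 420477299 1610612736 536870912 1046898278 26843546 3 false true false .up 2 0 3
    ndN2q2a ndN3q3 pcN0 Cut.none Ext.none :=
  certNX0 (fam := false) (s1 := true) (s2 := false) (a := 2) (b := 0) (c := 3) (cn := .up) (n1 := ndN2q2a) (n2 := ndN3q3) (pc := pcN0) (cut := Cut.none) (xt := Ext.none) (P1 := 0) (W1 := 420477299) (P2 := 1610612736) (W2 := 536870912) (P3 := 1046898278) (W3 := 26843546) (N0 := 3)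
    rfl k0_pm_203_a

noncomputable def f_pm_203_b : ℕ → ℕ → ℕ → ℕ → Bool := onCell 1239849684 370763052 1610612736 536870912 1046898278 26843546
    (rowNX 3 0 false true false .up 2 0 3 (qsf 1239849684 370763052 1610612736 536870912 0) ndN2q2b ndN3q3 pcN0 Cut.none Ext.none)

def k0_pm_203_b : ∃ t, chk3 f_pm_203_b t 1 1 1 = true :=
  ⟨(l 3), by decide +kernel⟩

theorem c_pm_203_b : CertNX 1239849684 370763052 1610612736 536870912 1046898278 26843546 3 false true false .up 2 0 3
    ndN2q2b ndN3q3 pcN0 Cut.none Ext.none :=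
  certNX0 (fam := false) (s1 := true) (s2 := false) (a := 2) (b := 0) (c := 3) (cn := .up) (n1 := ndN2q2b) (n2 := ndN3q3) (pc := pcN0) (cut := Cut.none) (xt := Ext.none) (P1 := 1239849684) (W1 := 370763052) (P2 := 1610612736) (W2 := 536870912) (P3 := 1046898278) (W3 := 26843546) (N0 := 3)
    rfl k0_pm_203_b

noncomputable def f_pm_213_a : ℕ → ℕ → ℕ → ℕ → Bool := onCell 0 420477299 1610612736 536870912 1046898278 26843546
    (rowNX 3 0 false true false .pnn 2 1 3 (qsf 0 420477299 1610612736 536870912 1) ndN2q2a ndN3q3 pcN1 Cut.none Ext.none)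

def k0_pm_213_a : ∃ t, chk3 f_pm_213_a t 1 1 1 = true :=
  ⟨(b (l 3) (l 3)), by decide +kernel⟩

theorem c_pm_213_a : CertNX 0 420477299 1610612736 536870912 1046898278 26843546 3 false true false .pnn 2 1 3
    ndN2q2a ndN3q3 pcN1 Cut.none Ext.none :=
  certNX0 (fam := false) (s1 := true) (s2 := false) (a := 2) (b := 1) (c := 3) (cn := .pnn) (n1 := ndN2q2a) (n2 := ndN3q3) (pc := pcN1) (cut := Cut.none) (xt := Ext.none) (P1 := 0) (W1 := 420477299) (P2 := 1610612736) (W2 := 536870912) (P3 := 1046898278) (W3 := 26843546) (N0 := 3)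
    rfl k0_pm_213_a

noncomputable def f_pm_213_b : ℕ → ℕ → ℕ → ℕ → Bool := onCell 1239849684 370763052 1610612736 536870912 1046898278 26843546
    (rowNX 3 0 false true false .pnn 2 1 3 (qsf 1239849684 370763052 1610612736 536870912 1) ndN2q2b ndN3q3 pcN1 Cut.none Ext.none)

def k0_pm_213_b : ∃ t, chk3 f_pm_213_b t 1 1 1 = true :=
  ⟨(l 3), by decide +kernel⟩

theorem c_pm_213_b : CertNX 1239849684 370763052 1610612736 536870912 1046898278 26843546 3 false true false .pnn 2 1 3
    ndN2q2b ndN3q3 pcN1 Cut.none Ext.none :=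
  certNX0 (fam := false) (s1 := true) (s2 := false) (a := 2) (b := 1) (c := 3) (cn := .pnn) (n1 := ndN2q2b) (n2 := ndN3q3) (pc := pcN1) (cut := Cut.none) (xt := Ext.none) (P1 := 1239849684) (W1 := 370763052) (P2 := 1610612736) (W2 := 536870912) (P3 := 1046898278) (W3 := 26843546) (N0 := 3)
    rfl k0_pm_213_b

noncomputable def f_pm_303 : ℕ → ℕ → ℕ → ℕ → Bool := onCell 1610612736 469762048 1610612736 536870912 1046898278 26843546
    (rowNX 3 0 false true false .npn 3 0 3 (qsf 1610612736 469762048 1610612736 536870912 0) ndN2q3 ndN3q3 pcN0 Cut.none Ext.none)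

def k0_pm_303 : ∃ t, chk3 f_pm_303 t 1 1 1 = true :=
  ⟨(l 3), by decide +kernel⟩

theorem c_pm_303 : CertNX 1610612736 469762048 1610612736 536870912 1046898278 26843546 3 false true false .npn 3 0 3
    ndN2q3 ndN3q3 pcN0 Cut.none Ext.none :=
  certNX0 (fam := false) (s1 := true) (s2 := false) (a := 3) (b := 0) (c := 3) (cn := .npn) (n1 := ndN2q3) (n2 := ndN3q3) (pc := pcN0) (cut := Cut.none) (xt := Ext.none) (P1 := 1610612736) (W1 := 469762048) (P2 := 1610612736) (W2 := 536870912) (P3 := 1046898278) (W3 := 26843546) (N0 := 3)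
    rfl k0_pm_303

noncomputable def f_pm_313 : ℕ → ℕ → ℕ → ℕ → Bool := onCell 1610612736 469762048 1610612736 536870912 1046898278 26843546
    (rowNX 3 0 false true false .dn 3 1 3 (qsf 1610612736 469762048 1610612736 536870912 1) ndN2q3 ndN3q3 pcN1 Cut.none Ext.none)

def k0_pm_313 : ∃ t, chk3 f_pm_313 t 1 1 1 = true :=
  ⟨(l 3), by decide +kernel⟩

theorem c_pm_313 : CertNX 1610612736 469762048 1610612736 536870912 1046898278 26843546 3 false true false .dn 3 1 3
    ndN2q3 ndN3q3 pcN1 Cut.none Ext.none :=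
  certNX0 (fam := false) (s1 := true) (s2 := false) (a := 3) (b := 1) (c := 3) (cn := .dn) (n1 := ndN2q3) (n2 := ndN3q3) (pc := pcN1) (cut := Cut.none) (xt := Ext.none) (P1 := 1610612736) (W1 := 469762048) (P2 := 1610612736) (W2 := 536870912) (P3 := 1046898278) (W3 := 26843546) (N0 := 3)
    rfl k0_pm_313

noncomputable def f_mm_001 : ℕ → ℕ → ℕ → ℕ → Bool := onCell 67108864 469762048 536870912 536870912 1046898278 26843546
    (rowNX 3 0 false false false .up 0 0 1 (qsf 67108864 469762048 536870912 536870912 0) ndN2q0 ndN3q1 pcN0 Cut.none Ext.none)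

def k0_mm_001 : ∃ t, chk3 f_mm_001 t 1 1 1 = true :=
  ⟨(l 3), by decide +kernel⟩

theorem c_mm_001 : CertNX 67108864 469762048 536870912 536870912 1046898278 26843546 3 false false false .up 0 0 1
    ndN2q0 ndN3q1 pcN0 Cut.none Ext.none :=
  certNX0 (fam := false) (s1 := false) (s2 := false) (a := 0) (b := 0) (c := 1) (cn := .up) (n1 := ndN2q0) (n2 := ndN3q1) (pc := pcN0) (cut := Cut.none) (xt := Ext.none) (P1 := 67108864) (W1 := 469762048) (P2 := 536870912) (W2 := 536870912) (P3 := 1046898278) (W3 := 26843546) (N0 := 3)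
    rfl k0_mm_001

noncomputable def f_mm_011 : ℕ → ℕ → ℕ → ℕ → Bool := onCell 67108864 469762048 536870912 536870912 1046898278 26843546
    (rowNX 3 0 false false false .pnn 0 1 1 (qsf 67108864 469762048 536870912 536870912 1) ndN2q0 ndN3q1 pcN1 Cut.none Ext.none)

def k0_mm_011 : ∃ t, chk3 f_mm_011 t 1 1 1 = true :=
  ⟨(l 3), by decide +kernel⟩

theorem c_mm_011 : CertNX 67108864 469762048 536870912 536870912 1046898278 26843546 3 false false false .pnn 0 1 1
    ndN2q0 ndN3q1 pcN1 Cut.none Ext.none :=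
  certNX0 (fam := false) (s1 := false) (s2 := false) (a := 0) (b := 1) (c := 1) (cn := .pnn) (n1 := ndN2q0) (n2 := ndN3q1) (pc := pcN1) (cut := Cut.none) (xt := Ext.none) (P1 := 67108864) (W1 := 469762048) (P2 := 536870912) (W2 := 536870912) (P3 := 1046898278) (W3 := 26843546) (N0 := 3)
    rfl k0_mm_011

noncomputable def f_mm_012 : ℕ → ℕ → ℕ → ℕ → Bool := onCell 67108864 469762048 1073741824 536870912 1046898278 26843546
    (rowNX 3 0 false false false .pnp 0 1 2 (qsf 67108864 469762048 1073741824 536870912 1) ndN2q0 ndN3q2 pcN1 Cut.none Ext.none)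

def k0_mm_012 : ∃ t, chk3 f_mm_012 t 1 1 1 = true :=
  ⟨(l 5), by decide +kernel⟩

theorem c_mm_012 : CertNX 67108864 469762048 1073741824 536870912 1046898278 26843546 3 false false false .pnp 0 1 2
    ndN2q0 ndN3q2 pcN1 Cut.none Ext.none :=
  certNX0 (fam := false) (s1 := false) (s2 := false) (a := 0) (b := 1) (c := 2) (cn := .pnp) (n1 := ndN2q0) (n2 := ndN3q2) (pc := pcN1) (cut := Cut.none) (xt := Ext.none) (P1 := 67108864) (W1 := 469762048) (P2 := 1073741824) (W2 := 536870912) (P3 := 1046898278) (W3 := 26843546) (N0 := 3)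
    rfl k0_mm_012

noncomputable def f_mm_022 : ℕ → ℕ → ℕ → ℕ → Bool := onCell 67108864 469762048 1073741824 536870912 1046898278 26843546
    (rowNX 3 0 false false false .pp 0 2 2 (qsf 67108864 469762048 1073741824 536870912 2) ndN2q0 ndN3q2 pcN2 Cut.none Ext.none)

def k0_mm_022 : ∃ t, chk3 f_mm_022 t 1 1 1 = true :=
  ⟨(l 5), by decide +kernel⟩

theorem c_mm_022 : CertNX 67108864 469762048 1073741824 536870912 1046898278 26843546 3 false false false .pp 0 2 2
    ndN2q0 ndN3q2 pcN2 Cut.none Ext.none :=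
  certNX0 (fam := false) (s1 := false) (s2 := false) (a := 0) (b := 2) (c := 2) (cn := .pp) (n1 := ndN2q0) (n2 := ndN3q2) (pc := pcN2) (cut := Cut.none) (xt := Ext.none) (P1 := 67108864) (W1 := 469762048) (P2 := 1073741824) (W2 := 536870912) (P3 := 1046898278) (W3 := 26843546) (N0 := 3)
    rfl k0_mm_022

noncomputable def f_mm_023 : ℕ → ℕ → ℕ → ℕ → Bool := onCell 67108864 469762048 1610612736 536870912 1046898278 26843546
    (rowNX 3 0 false false false .up 0 2 3 (qsf 67108864 469762048 1610612736 536870912 2) ndN2q0 ndN3q3 pcN2 Cut.none Ext.none)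

def k0_mm_023 : ∃ t, chk3 f_mm_023 t 1 1 1 = true :=
  ⟨(l 5), by decide +kernel⟩

theorem c_mm_023 : CertNX 67108864 469762048 1610612736 536870912 1046898278 26843546 3 false false false .up 0 2 3
    ndN2q0 ndN3q3 pcN2 Cut.none Ext.none :=
  certNX0 (fam := false) (s1 := false) (s2 := false) (a := 0) (b := 2) (c := 3) (cn := .up) (n1 := ndN2q0) (n2 := ndN3q3) (pc := pcN2) (cut := Cut.none) (xt := Ext.none) (P1 := 67108864) (W1 := 469762048) (P2 := 1610612736) (W2 := 536870912) (P3 := 1046898278) (W3 := 26843546) (N0 := 3)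
    rfl k0_mm_023

noncomputable def f_mm_033 : ℕ → ℕ → ℕ → ℕ → Bool := onCell 67108864 469762048 1610612736 536870912 1046898278 26843546
    (rowNX 3 0 false false false .pnn 0 3 3 (qsf 67108864 469762048 1610612736 536870912 3) ndN2q0 ndN3q3 pcN3 Cut.none Ext.none)

def k0_mm_033 : ∃ t, chk3 f_mm_033 t 1 1 1 = true :=
  ⟨(l 5), by decide +kernel⟩

theorem c_mm_033 : CertNX 67108864 469762048 1610612736 536870912 1046898278 26843546 3 false false false .pnn 0 3 3
    ndN2q0 ndN3q3 pcN3 Cut.none Ext.none :=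
  certNX0 (fam := false) (s1 := false) (s2 := false) (a := 0) (b := 3) (c := 3) (cn := .pnn) (n1 := ndN2q0) (n2 := ndN3q3) (pc := pcN3) (cut := Cut.none) (xt := Ext.none) (P1 := 67108864) (W1 := 469762048) (P2 := 1610612736) (W2 := 536870912) (P3 := 1046898278) (W3 := 26843546) (N0 := 3)
    rfl k0_mm_033

noncomputable def f_mm_101 : ℕ → ℕ → ℕ → ℕ → Bool := onCell 536870912 536870912 536870912 536870912 1046898278 26843546
    (rowNX 3 0 false false false .npn 1 0 1 (qsf 536870912 536870912 536870912 536870912 0) ndN2q1 ndN3q1 pcN0 Cut.none Ext.none)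

def k0_mm_101 : ∃ t, chk3 f_mm_101 t 1 1 1 = true :=
  ⟨(l 3), by decide +kernel⟩

theorem c_mm_101 : CertNX 536870912 536870912 536870912 536870912 1046898278 26843546 3 false false false .npn 1 0 1
    ndN2q1 ndN3q1 pcN0 Cut.none Ext.none :=
  certNX0 (fam := false) (s1 := false) (s2 := false) (a := 1) (b := 0) (c := 1) (cn := .npn) (n1 := ndN2q1) (n2 := ndN3q1) (pc := pcN0) (cut := Cut.none) (xt := Ext.none) (P1 := 536870912) (W1 := 536870912) (P2 := 536870912) (W2 := 536870912) (P3 := 1046898278) (W3 := 26843546) (N0 := 3)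
    rfl k0_mm_101

noncomputable def f_mm_102 : ℕ → ℕ → ℕ → ℕ → Bool := onCell 536870912 536870912 1073741824 536870912 1046898278 26843546
    (rowNX 3 0 false false false .npp 1 0 2 (qsf 536870912 536870912 1073741824 536870912 0) ndN2q1 ndN3q2 pcN0 Cut.none Ext.none)

def k0_mm_102 : ∃ t, chk3 f_mm_102 t 1 1 1 = true :=
  ⟨(l 5), by decide +kernel⟩

theorem c_mm_102 : CertNX 536870912 536870912 1073741824 536870912 1046898278 26843546 3 false false false .npp 1 0 2
    ndN2q1 ndN3q2 pcN0 Cut.none Ext.none :=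
  certNX0 (fam := false) (s1 := false) (s2 := false) (a := 1) (b := 0) (c := 2) (cn := .npp) (n1 := ndN2q1) (n2 := ndN3q2) (pc := pcN0) (cut := Cut.none) (xt := Ext.none) (P1 := 536870912) (W1 := 536870912) (P2 := 1073741824) (W2 := 536870912) (P3 := 1046898278) (W3 := 26843546) (N0 := 3)
    rfl k0_mm_102

noncomputable def f_mm_112 : ℕ → ℕ → ℕ → ℕ → Bool := onCell 536870912 536870912 1073741824 536870912 1046898278 26843546
    (rowNX 3 0 false false false .dn 1 1 2 (qsf 536870912 536870912 1073741824 536870912 1) ndN2q1 ndN3q2 pcN1 Cut.none Ext.none)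

def k0_mm_112 : ∃ t, chk3 f_mm_112 t 1 1 1 = true :=
  ⟨(l 5), by decide +kernel⟩

theorem c_mm_112 : CertNX 536870912 536870912 1073741824 536870912 1046898278 26843546 3 false false false .dn 1 1 2
    ndN2q1 ndN3q2 pcN1 Cut.none Ext.none :=
  certNX0 (fam := false) (s1 := false) (s2 := false) (a := 1) (b := 1) (c := 2) (cn := .dn) (n1 := ndN2q1) (n2 := ndN3q2) (pc := pcN1) (cut := Cut.none) (xt := Ext.none) (P1 := 536870912) (W1 := 536870912) (P2 := 1073741824) (W2 := 536870912) (P3 := 1046898278) (W3 := 26843546) (N0 := 3)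
    rfl k0_mm_112

noncomputable def f_mm_113 : ℕ → ℕ → ℕ → ℕ → Bool := onCell 536870912 536870912 1610612736 536870912 1046898278 26843546
    (rowNX 3 0 false false false .nn 1 1 3 (qsf 536870912 536870912 1610612736 536870912 1) ndN2q1 ndN3q3 pcN1 Cut.none Ext.none)

def k0_mm_113 : ∃ t, chk3 f_mm_113 t 1 1 1 = true :=
  ⟨(l 5), by decide +kernel⟩

theorem c_mm_113 : CertNX 536870912 536870912 1610612736 536870912 1046898278 26843546 3 false false false .nn 1 1 3
    ndN2q1 ndN3q3 pcN1 Cut.none Ext.none :=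
  certNX0 (fam := false) (s1 := false) (s2 := false) (a := 1) (b := 1) (c := 3) (cn := .nn) (n1 := ndN2q1) (n2 := ndN3q3) (pc := pcN1) (cut := Cut.none) (xt := Ext.none) (P1 := 536870912) (W1 := 536870912) (P2 := 1610612736) (W2 := 536870912) (P3 := 1046898278) (W3 := 26843546) (N0 := 3)
    rfl k0_mm_113

noncomputable def f_mm_123 : ℕ → ℕ → ℕ → ℕ → Bool := onCell 536870912 536870912 1610612736 536870912 1046898278 26843546
    (rowNX 3 0 false false false .npn 1 2 3 (qsf 536870912 536870912 1610612736 536870912 2) ndN2q1 ndN3q3 pcN2 Cut.none Ext.none)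

def k0_mm_123 : ∃ t, chk3 f_mm_123 t 1 1 1 = true :=
  ⟨(l 5), by decide +kernel⟩

theorem c_mm_123 : CertNX 536870912 536870912 1610612736 536870912 1046898278 26843546 3 false false false .npn 1 2 3
    ndN2q1 ndN3q3 pcN2 Cut.none Ext.none :=
  certNX0 (fam := false) (s1 := false) (s2 := false) (a := 1) (b := 2) (c := 3) (cn := .npn) (n1 := ndN2q1) (n2 := ndN3q3) (pc := pcN2) (cut := Cut.none) (xt := Ext.none) (P1 := 536870912) (W1 := 536870912) (P2 := 1610612736) (W2 := 536870912) (P3 := 1046898278) (W3 := 26843546) (N0 := 3)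
    rfl k0_mm_123

noncomputable def f_mm_133 : ℕ → ℕ → ℕ → ℕ → Bool := onCell 536870912 536870912 1610612736 536870912 1046898278 26843546
    (rowNX 3 0 false false false .dn 1 3 3 (qsf 536870912 536870912 1610612736 536870912 3) ndN2q1 ndN3q3 pcN3 Cut.none Ext.none)

def k0_mm_133 : ∃ t, chk3 f_mm_133 t 1 1 1 = true :=
  ⟨(l 5), by decide +kernel⟩

theorem c_mm_133 : CertNX 536870912 536870912 1610612736 536870912 1046898278 26843546 3 false false false .dn 1 3 3
    ndN2q1 ndN3q3 pcN3 Cut.none Ext.none :=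
  certNX0 (fam := false) (s1 := false) (s2 := false) (a := 1) (b := 3) (c := 3) (cn := .dn) (n1 := ndN2q1) (n2 := ndN3q3) (pc := pcN3) (cut := Cut.none) (xt := Ext.none) (P1 := 536870912) (W1 := 536870912) (P2 := 1610612736) (W2 := 536870912) (P3 := 1046898278) (W3 := 26843546) (N0 := 3)
    rfl k0_mm_133

noncomputable def f_mm_202_a : ℕ → ℕ → ℕ → ℕ → Bool := onCell 0 420477299 1073741824 536870912 1046898278 26843546
    (rowNX 3 0 false false false .pp 2 0 2 (qsf 0 420477299 1073741824 536870912 0) ndN2q2a ndN3q2 pcN0 Cut.none Ext.none)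

def k0_mm_202_a : ∃ t, chk3 f_mm_202_a t 1 1 1 = true :=
  ⟨(l 3), by decide +kernel⟩

theorem c_mm_202_a : CertNX 0 420477299 1073741824 536870912 1046898278 26843546 3 false false false .pp 2 0 2
    ndN2q2a ndN3q2 pcN0 Cut.none Ext.none :=
  certNX0 (fam := false) (s1 := false) (s2 := false) (a := 2) (b := 0) (c := 2) (cn := .pp) (n1 := ndN2q2a) (n2 := ndN3q2) (pc := pcN0) (cut := Cut.none) (xt := Ext.none) (P1 := 0) (W1 := 420477299) (P2 := 1073741824) (W2 := 536870912) (P3 := 1046898278) (W3 := 26843546) (N0 := 3)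
    rfl k0_mm_202_a

noncomputable def f_mm_202_b : ℕ → ℕ → ℕ → ℕ → Bool := onCell 1239849684 370763052 1073741824 536870912 1046898278 26843546
    (rowNX 3 0 false false false .pp 2 0 2 (qsf 1239849684 370763052 1073741824 536870912 0) ndN2q2b ndN3q2 pcN0 Cut.none Ext.none)

def k0_mm_202_b : ∃ t, chk3 f_mm_202_b t 1 1 1 = true :=
  ⟨(l 3), by decide +kernel⟩

theorem c_mm_202_b : CertNX 1239849684 370763052 1073741824 536870912 1046898278 26843546 3 false false false .pp 2 0 2
    ndN2q2b ndN3q2 pcN0 Cut.none Ext.none :=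
  certNX0 (fam := false) (s1 := false) (s2 := false) (a := 2) (b := 0) (c := 2) (cn := .pp) (n1 := ndN2q2b) (n2 := ndN3q2) (pc := pcN0) (cut := Cut.none) (xt := Ext.none) (P1 := 1239849684) (W1 := 370763052) (P2 := 1073741824) (W2 := 536870912) (P3 := 1046898278) (W3 := 26843546) (N0 := 3)
    rfl k0_mm_202_b

noncomputable def f_mm_203_a : ℕ → ℕ → ℕ → ℕ → Bool := onCell 0 420477299 1610612736 536870912 1046898278 26843546
    (rowNX 3 0 false false false .up 2 0 3 (qsf 0 420477299 1610612736 536870912 0) ndN2q2a ndN3q3 pcN0 Cut.none Ext.none)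

def k0_mm_203_a : ∃ t, chk3 f_mm_203_a t 1 1 1 = true :=
  ⟨(l 3), by decide +kernel⟩

theorem c_mm_203_a : CertNX 0 420477299 1610612736 536870912 1046898278 26843546 3 false false false .up 2 0 3
    ndN2q2a ndN3q3 pcN0 Cut.none Ext.none :=
  certNX0 (fam := false) (s1 := false) (s2 := false) (a := 2) (b := 0) (c := 3) (cn := .up) (n1 := ndN2q2a) (n2 := ndN3q3) (pc := pcN0) (cut := Cut.none) (xt := Ext.none) (P1 := 0) (W1 := 420477299) (P2 := 1610612736) (W2 := 536870912) (P3 := 1046898278) (W3 := 26843546) (N0 := 3)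
    rfl k0_mm_203_a

noncomputable def f_mm_203_b : ℕ → ℕ → ℕ → ℕ → Bool := onCell 1239849684 370763052 1610612736 536870912 1046898278 26843546
    (rowNX 3 0 false false false .up 2 0 3 (qsf 1239849684 370763052 1610612736 536870912 0) ndN2q2b ndN3q3 pcN0 Cut.none Ext.none)

def k0_mm_203_b : ∃ t, chk3 f_mm_203_b t 1 1 1 = true :=
  ⟨(l 3), by decide +kernel⟩

theorem c_mm_203_b : CertNX 1239849684 370763052 1610612736 536870912 1046898278 26843546 3 false false false .up 2 0 3
    ndN2q2b ndN3q3 pcN0 Cut.none Ext.none :=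
  certNX0 (fam := false) (s1 := false) (s2 := false) (a := 2) (b := 0) (c := 3) (cn := .up) (n1 := ndN2q2b) (n2 := ndN3q3) (pc := pcN0) (cut := Cut.none) (xt := Ext.none) (P1 := 1239849684) (W1 := 370763052) (P2 := 1610612736) (W2 := 536870912) (P3 := 1046898278) (W3 := 26843546) (N0 := 3)
    rfl k0_mm_203_b

noncomputable def f_mm_213_a : ℕ → ℕ → ℕ → ℕ → Bool := onCell 0 420477299 1610612736 536870912 1046898278 26843546
    (rowNX 3 0 false false false .pnn 2 1 3 (qsf 0 420477299 1610612736 536870912 1) ndN2q2a ndN3q3 pcN1 Cut.none Ext.none)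

def k0_mm_213_a : ∃ t, chk3 f_mm_213_a t 1 1 1 = true :=
  ⟨(l 3), by decide +kernel⟩

theorem c_mm_213_a : CertNX 0 420477299 1610612736 536870912 1046898278 26843546 3 false false false .pnn 2 1 3
    ndN2q2a ndN3q3 pcN1 Cut.none Ext.none :=
  certNX0 (fam := false) (s1 := false) (s2 := false) (a := 2) (b := 1) (c := 3) (cn := .pnn) (n1 := ndN2q2a) (n2 := ndN3q3) (pc := pcN1) (cut := Cut.none) (xt := Ext.none) (P1 := 0) (W1 := 420477299) (P2 := 1610612736) (W2 := 536870912) (P3 := 1046898278) (W3 := 26843546) (N0 := 3)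
    rfl k0_mm_213_a

noncomputable def f_mm_213_b : ℕ → ℕ → ℕ → ℕ → Bool := onCell 1239849684 370763052 1610612736 536870912 1046898278 26843546
    (rowNX 3 0 false false false .pnn 2 1 3 (qsf 1239849684 370763052 1610612736 536870912 1) ndN2q2b ndN3q3 pcN1 Cut.none Ext.none)

def k0_mm_213_b : ∃ t, chk3 f_mm_213_b t 1 1 1 = true :=
  ⟨(l 3), by decide +kernel⟩

theorem c_mm_213_b : CertNX 1239849684 370763052 1610612736 536870912 1046898278 26843546 3 false false false .pnn 2 1 3
    ndN2q2b ndN3q3 pcN1 Cut.none Ext.none :=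
  certNX0 (fam := false) (s1 := false) (s2 := false) (a := 2) (b := 1) (c := 3) (cn := .pnn) (n1 := ndN2q2b) (n2 := ndN3q3) (pc := pcN1) (cut := Cut.none) (xt := Ext.none) (P1 := 1239849684) (W1 := 370763052) (P2 := 1610612736) (W2 := 536870912) (P3 := 1046898278) (W3 := 26843546) (N0 := 3)
    rfl k0_mm_213_b

noncomputable def f_mm_303 : ℕ → ℕ → ℕ → ℕ → Bool := onCell 1610612736 469762048 1610612736 536870912 1046898278 26843546
    (rowNX 3 0 false false false .npn 3 0 3 (qsf 1610612736 469762048 1610612736 536870912 0) ndN2q3 ndN3q3 pcN0 Cut.none Ext.none)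

def k0_mm_303 : ∃ t, chk3 f_mm_303 t 1 1 1 = true :=
  ⟨(l 3), by decide +kernel⟩

theorem c_mm_303 : CertNX 1610612736 469762048 1610612736 536870912 1046898278 26843546 3 false false false .npn 3 0 3
    ndN2q3 ndN3q3 pcN0 Cut.none Ext.none :=
  certNX0 (fam := false) (s1 := false) (s2 := false) (a := 3) (b := 0) (c := 3) (cn := .npn) (n1 := ndN2q3) (n2 := ndN3q3) (pc := pcN0) (cut := Cut.none) (xt := Ext.none) (P1 := 1610612736) (W1 := 469762048) (P2 := 1610612736) (W2 := 536870912) (P3 := 1046898278) (W3 := 26843546) (N0 := 3)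
    rfl k0_mm_303

noncomputable def f_mm_313 : ℕ → ℕ → ℕ → ℕ → Bool := onCell 1610612736 469762048 1610612736 536870912 1046898278 26843546
    (rowNX 3 0 false false false .dn 3 1 3 (qsf 1610612736 469762048 1610612736 536870912 1) ndN2q3 ndN3q3 pcN1 Cut.none Ext.none)

def k0_mm_313 : ∃ t, chk3 f_mm_313 t 1 1 1 = true :=
  ⟨(l 3), by decide +kernel⟩

theorem c_mm_313 : CertNX 1610612736 469762048 1610612736 536870912 1046898278 26843546 3 false false false .dn 3 1 3
    ndN2q3 ndN3q3 pcN1 Cut.none Ext.none :=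
  certNX0 (fam := false) (s1 := false) (s2 := false) (a := 3) (b := 1) (c := 3) (cn := .dn) (n1 := ndN2q3) (n2 := ndN3q3) (pc := pcN1) (cut := Cut.none) (xt := Ext.none) (P1 := 1610612736) (W1 := 469762048) (P2 := 1610612736) (W2 := 536870912) (P3 := 1046898278) (W3 := 26843546) (N0 := 3)
    rfl k0_mm_313

end Pool.Agent.Strip051.G.IE1.Tab.C.NB23

namespace Pool.Agent.Strip051.G.IE1.Tab.C.NB25

open Pool.Agent.Strip051.PB Pool.Agent.Strip051.PB.T
open Pool.Agent.Strip051.G.IE1.Tab

noncomputable def f_pp_001 : ℕ → ℕ → ℕ → ℕ → Bool := onCell 67108864 469762048 536870912 469762048 1046898278 26843546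
    (rowNX 3 0 false true true .up 0 0 1 (qsf 67108864 469762048 536870912 469762048 0) ndN2q0 ndN5q1 pcN0 Cut.none Ext.none)

def k0_pp_001 : ∃ t, chk3 f_pp_001 t 1 1 1 = true :=
  ⟨(l 3), by decide +kernel⟩

theorem c_pp_001 : CertNX 67108864 469762048 536870912 469762048 1046898278 26843546 3 false true true .up 0 0 1
    ndN2q0 ndN5q1 pcN0 Cut.none Ext.none :=
  certNX0 (fam := false) (s1 := true) (s2 := true) (a := 0) (b := 0) (c := 1) (cn := .up) (n1 := ndN2q0) (n2 := ndN5q1) (pc := pcN0) (cut := Cut.none) (xt := Ext.none) (P1 := 67108864) (W1 := 469762048) (P2 := 536870912) (W2 := 469762048) (P3 := 1046898278) (W3 := 26843546) (N0 := 3)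
    rfl k0_pp_001

noncomputable def f_pp_011 : ℕ → ℕ → ℕ → ℕ → Bool := onCell 67108864 469762048 536870912 469762048 1046898278 26843546
    (rowNX 3 0 false true true .pnn 0 1 1 (qsf 67108864 469762048 536870912 469762048 1) ndN2q0 ndN5q1 pcN1 Cut.none Ext.none)

def k0_pp_011 : ∃ t, chk3 f_pp_011 t 1 1 1 = true :=
  ⟨(l 3), by decide +kernel⟩

theorem c_pp_011 : CertNX 67108864 469762048 536870912 469762048 1046898278 26843546 3 false true true .pnn 0 1 1
    ndN2q0 ndN5q1 pcN1 Cut.none Ext.none :=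
  certNX0 (fam := false) (s1 := true) (s2 := true) (a := 0) (b := 1) (c := 1) (cn := .pnn) (n1 := ndN2q0) (n2 := ndN5q1) (pc := pcN1) (cut := Cut.none) (xt := Ext.none) (P1 := 67108864) (W1 := 469762048) (P2 := 536870912) (W2 := 469762048) (P3 := 1046898278) (W3 := 26843546) (N0 := 3)
    rfl k0_pp_011

noncomputable def f_pp_012 : ℕ → ℕ → ℕ → ℕ → Bool := onCell 536870912 536870912 1073741824 536870912 1046898278 26843546
    (rowNX 3 2 false true true .pnp 0 1 2 (qsf 67108864 469762048 1073741824 536870912 1) ndN2q0 ndN5q2 pcN1 Cut.none Ext.none)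

def k0_pp_012 : ∃ t, chk3 f_pp_012 t 1 1 1 = true :=
  ⟨(a (l 3) (b (a (l 3) (b (l 3) (a (l 3) (b (l 3) (a (b (l 3) (a (l 3) (l 662663675703))) (b (a (b (l 3) (c (c (a (l 3) (l 15302000)) (l 15294168)) (l 15248184))) (c (b (l 14566072) (c (l 15209616) (l 15040112))) (c (a (b (l 14731008) (a (l 15210048) (l 15172736))) (l 14795400)) (a (l 476904944487) (b (a (l 14636496) (l 14606824)) (a (l 15109376) (l 15062888))))))) (a (c (c (a (l 15583488) (l 15528416)) (l 15524064)) (l 15485608)) (c (l 15417896) (a (c (l 15426152) (l 15405688)) (c (l 15380064) (a (l 15361680) (l 15341656)))))))))))) (a (a (l 3) (b (l 3) (a (l 2) (l 16751208)))) (a (b (a (l 16497352) (l 558511878295)) (a (l 16488040) (l 16137936))) (a (a (b (l 15876312) (l 15840752)) (b (b (l 15525912) (l 15614440)) (l 15558512))) (b (a (c (c (a (l 15472760) (l 15518200)) (b (l 15521080) (l 15515936))) (l 15481248)) (c (b (l 15428248) (l 15413640)) (a (c (b (l 15417512) (l 15405496)) (l 15390064)) (c (l 15358216) (b (a (l 15350480)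 (l 15327616)) (l 15323000)))))) (a (c (a (l 15553584) (c (l 15501264) (l 15479992))) (l 15473024)) (c (l 15392464) (a (l 15183192) (c (l 15323464) (l 15297520))))))))))), by decide +kernel⟩

theorem c_pp_012 : CertNX 67108864 469762048 1073741824 536870912 1046898278 26843546 3 false true true .pnp 0 1 2
    ndN2q0 ndN5q2 pcN1 Cut.none Ext.none :=
  certNX2 (fam := false) (s1 := true) (s2 := true) (a := 0) (b := 1) (c := 2) (cn := .pnp) (n1 := ndN2q0) (n2 := ndN5q2) (pc := pcN1) (cut := Cut.none) (xt := Ext.none) (P1 := 67108864) (W1 := 469762048) (P2 := 1073741824) (W2 := 536870912) (P3 := 1046898278) (W3 := 26843546) (N0 := 3)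
    rfl (fun _ => rfl) k0_pp_012

noncomputable def f_pp_022 : ℕ → ℕ → ℕ → ℕ → Bool := onCell 67108864 469762048 1073741824 536870912 1046898278 26843546
    (rowNX 3 1 false true true .pp 0 2 2 (qsf 67108864 469762048 1073741824 536870912 2) ndN2q0 ndN5q2 pcN2 Cut.none Ext.none)

def k0_pp_022 : ∃ t, chk3 f_pp_022 t 2 32 1 = true :=
  ⟨(a (a (l 3) (a (l 3) (b (a (l 3) (b (l 3) (b (l 3) (c (l 14007936) (c (l 13914864) (l 460259850103)))))) (b (a (l 3) (c (c (l 14157592) (l 14111776)) (c (c (l 13908688) (c (b (l 14020816) (l 14096416)) (l 14039216))) (l 13998088)))) (c (c (a (l 424826374135) (l 14259056)) (c (l 13885336) (b (l 14008528) (c (l 14104400) (l 14064616))))) (c (c (b (c (l 13948576) (l 551528076743)) (l 13986136)) (l 13973440)) (l 13823072))))))) (a (c (a (b (a (c (l 14363984) (l 14317464)) (l 203637307367)) (c (b (a (l 14590136) (l 15037680)) (l 14759704)) (b (l 14661568) (c (l 14940368) (b (l 14882912) (l 14956600)))))) (b (a (c (l 15222976) (l 15194192)) (a (l 15237408)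 (l 15532128))) (a (c (l 15246104) (l 15439032)) (c (l 15610576) (l 15578472))))) (a (b (c (b (a (l 14185184) (l 14627360)) (c (l 14579032) (a (l 14336752) (l 14786640)))) (b (c (a (l 14149008) (l 14573616)) (b (c (l 14316888) (b (l 464018749287) (l 14322376))) (c (b (l 14208656) (l 14416264)) (l 14381456)))) (c (b (c (l 14502264) (l 14363056)) (l 14403968)) (l 14504096)))) (c (b (a (c (l 14519632) (b (l 14310888) (l 14529736))) (l 14901400)) (c (l 14635216) (l 14848584))) (a (l 14454640) (l 14947880)))) (a (b (b (c (l 15094008) (c (l 15055456) (l 15031280))) (c (l 15202032) (l 15137992))) (c (l 15222280) (c (l 15337096) (l 15322464)))) (c (b (a (b (l 15385616) (l 15475384)) (l 15289704)) (l 15520816)) (b (a (l 15388632) (l 15456688)) (l 15480032)))))) (c (b (c (a (l 15580688) (l 15623728)) (l 15519320)) (c (b (l 15635040) (l 15651552)) (l 15604376))) (c (b (a (l 15301224) (l 15582112)) (l 15563760)) (l 15527024))))), by decide +kernel⟩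

def k1_pp_022 : ∃ t, chk3 f_pp_022 t 2 33 1 = true :=
  ⟨(a (b (a (l 3) (a (a (l 3) (c (b (b (l 3) (c (l 13716736) (c (l 432342165367) (l 13631352)))) (c (c (l 13866312) (b (l 13800640) (c (l 13891704) (l 13862512)))) (c (b (c (l 13768176) (l 13735536)) (l 13822064)) (l 13747744)))) (l 13520232))) (c (c (b (a (c (l 14059520) (l 14042896)) (l 14494296)) (c (a (l 14233680) (l 14663248)) (b (a (l 14131592) (l 14601976)) (c (l 14222208) (b (l 14432512) (l 14462128)))))) (b (b (c (l 14098632) (c (l 14157608) (l 14150856))) (c (c (l 14292800) (l 14144056)) (l 14232520))) (c (b (c (l 14170840) (l 14331176)) (l 14369336)) (l 14342048)))) (a (l 13888288) (l 14299040))))) (a (b (l 3) (a (l 3) (a (l 3) (a (l 3) (c (b (a (l 3) (l 13475904)) (l 410330284055)) (l 13348544)))))) (c (a (c (b (c (b (c (l 379192230983) (b (l 13539128) (l 13822856))) (c (b (l 374897381335) (l 13914120)) (b (l 13848960) (l 13667640)))) (b (c (l 13520088) (l 13742848)) (l 13639056))) (c (b (c (a (l 174644305687) (l 14131984))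 (l 13866128)) (l 13865720)) (l 13942392))) (l 13753120)) (c (b (c (b (a (l 14358432) (l 14776560)) (c (l 14521872) (l 14536392))) (a (l 14259872) (l 14617936))) (a (a (l 14400184) (l 14599880)) (l 14913480))) (l 14484696))) (a (c (l 13648400) (l 13697240)) (a (l 14139640) (l 14700064)))))) (a (a (c (a (b (c (b (l 14924768) (l 15065464)) (l 14759904)) (c (b (l 15195128) (l 15315144)) (l 15178000))) (b (l 15255072) (l 15452312))) (a (c (l 14738088) (l 14943936)) (c (b (l 15264480) (l 15445744)) (l 15051704)))) (b (c (a (l 15484392) (l 15548176)) (c (a (l 15501784) (l 15539096)) (l 15459784))) (c (l 15593280) (l 15538456)))) (c (c (l 15661776) (l 15611608)) (l 15553552)))), by decide +kernel⟩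

def k2_pp_022 : ∃ t, chk3 f_pp_022 t 16 17 1 = true :=
  ⟨(b (b (l 3) (a (a (l 3) (b (l 3) (c (l 390469157479) (l 15086192)))) (c (c (b (l 14541736) (l 14536776)) (l 14539168)) (b (l 14458952) (l 14498960))))) (b (b (c (a (a (l 15585200) (l 15195456)) (a (l 14799792) (c (l 14426776) (l 14381408)))) (a (a (l 15544928) (l 15139744)) (a (l 14728472) (l 14317528)))) (c (a (a (l 15595304) (l 15195536)) (a (c (l 14815800) (l 14779136)) (a (a (l 14554512) (l 14459920)) (l 14368704)))) (a (a (l 15555152) (l 15139560)) (a (l 14726328) (b (l 14341312) (l 14368968)))))) (a (c (b (a (l 15563008) (l 15168704)) (a (l 15532600) (l 15137944))) (b (a (l 15521840) (l 15112096)) (a (l 15490632) (l 15080656)))) (c (a (b (c (l 14798616) (l 14762656)) (a (l 14858056) (l 14739688))) (b (l 14526936) (l 14657560))) (a (b (l 14709432) (l 14738752)) (l 14516904)))))), by decide +kernel⟩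

def k3_pp_022 : ∃ t, chk3 f_pp_022 t 17 17 1 = true :=
  ⟨(a (b (a (b (b (l 3) (b (l 3) (c (l 13957200) (l 13855488)))) (c (b (c (l 14004904) (l 13951392)) (c (a (l 14125528) (b (l 13941192) (l 13989560))) (l 14000248))) (b (l 13875048) (a (l 14001280) (l 13838416))))) (b (b (a (l 3) (a (l 3) (l 519852102359))) (c (a (l 13661760) (a (b (l 13547616) (l 13571488)) (l 13556080))) (a (l 13548352) (l 13445352)))) (c (b (a (c (l 13752344) (l 13693152)) (c (l 13725688) (l 13664128))) (a (c (l 13886152) (l 13827896)) (l 13878408))) (b (a (l 13609544) (l 13579424)) (l 13760112))))) (b (c (a (b (a (c (b (l 14154600) (l 14204488)) (l 14136728)) (l 14080976)) (l 14272096)) (a (l 14095264) (l 14135944))) (a (b (a (l 14066080) (l 13981112)) (l 14180240)) (l 14027208))) (c (a (l 14489744) (c (l 14446048) (l 14402480))) (l 14226272)))) (b (b (b (c (b (a (a (l 3) (a (l 13441736) (l 13470208))) (l 13587088)) (a (b (a (l 13464576) (l 13506720)) (l 13521288)) (l 13668208))) (a (b (l 13344336) (l 13388992))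 (l 13502464))) (c (a (b (l 13588648) (l 13682920)) (l 13814920)) (l 13609056))) (c (b (c (l 13867352) (l 13891640)) (l 14088784)) (b (l 13812480) (l 13985208)))) (b (c (c (l 14361360) (l 14310400)) (l 14243896)) (c (b (l 14554456) (l 14692176)) (l 14542744))))), by decide +kernel⟩

def k4_pp_022 : ∃ t, chk3 f_pp_022 t 9 17 1 = true :=
  ⟨(b (a (c (b (b (a (c (l 13932936) (l 13870560)) (l 14249864)) (a (l 14075296) (l 14409624))) (a (c (l 14361872) (l 14302392)) (c (l 14677568) (l 14618624)))) (b (b (l 13886776) (l 13860560)) (a (l 14233112) (l 14557016)))) (c (b (a (b (l 14496592) (l 14749456)) (l 15072160)) (a (l 14965864) (l 15333776))) (b (b (l 14583904) (l 14644672)) (l 15073224)))) (a (a (b (c (b (l 14566680) (l 14719336)) (l 14560320)) (c (b (l 14859912) (l 14990928)) (l 14860632))) (b (c (b (l 14870712) (l 15010352)) (l 14868976)) (l 15178832))) (a (c (b (l 15237936) (l 15492448)) (l 15224792)) (a (b (l 15469888) (l 15606912)) (c (b (l 15627496) (l 15721376)) (b (l 15545528) (l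 15668344))))))), by decide +kernel⟩

def k5_pp_022 : ∃ t, chk3 f_pp_022 t 5 17 1 = true :=
  ⟨(a (c (b (a (a (b (a (l 15362128) (l 15532672)) (a (l 15576168) (l 15644080))) (c (l 15661552) (l 15606248))) (c (l 15665800) (c (l 15620560) (l 15602840)))) (a (c (b (l 15690064) (l 15704872)) (a (l 15678800) (l 15659808))) (c (a (l 15672944) (l 15649456)) (l 15575832)))) (b (a (a (b (l 15352968) (l 15301000)) (l 15561360)) (l 15582544)) (a (b (l 15631232) (l 15648872)) (a (l 15637560) (l 15594120))))) (c (b (c (l 15640024) (l 15595080)) (a (c (c (l 15613040) (l 15601960)) (l 15608064)) (l 15526904))) (l 15319224))), by decide +kernel⟩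

def k6_pp_022 : ∃ t, chk3 f_pp_022 t 8 9 1 = true :=
  ⟨(b (b (a (a (b (c (a (l 15508976) (b (l 15136640) (l 15214776))) (a (l 15466416) (b (l 15079560) (l 15160576)))) (c (a (b (l 15541872) (l 15639256)) (l 15449784)) (a (b (l 15500624) (l 15601664)) (l 15404248)))) (c (b (b (l 14867120) (l 15047608)) (l 15328424)) (b (l 14892760) (l 15277528)))) (a (c (b (a (l 14817168) (l 14587912)) (a (l 15201200) (l 15147992))) (b (a (l 14747160) (l 14683224)) (l 14927864))) (b (c (l 14918904) (l 14895504)) (l 15317368)))) (a (b (c (a (l 15857448) (l 15706040)) (a (l 15829288) (l 15668896))) (c (a (l 16100896) (l 16080336)) (a (l 16107752) (l 16056976)))) (a (c (b (a (l 15585336) (l 15525880)) (l 15926568)) (b (l 15512272) (l 15896320))) (l 15661192)))) (a (b (b (a (a (c (l 16284496) (l 16301056)) (l 16338952)) (c (l 16371208) (l 16382216))) (a (a (l 16188760) (l 16352104)) (l 16399528))) (a (c (l 15720568) (l 15775944)) (b (c (l 16396672) (l 16385408)) (l 16132832)))) (b (b (a (c (l 16121000)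 (l 16166720)) (l 16259664)) (a (c (l 16542840) (l 16535080)) (l 16642920))) (a (a (c (l 16520936) (l 16556584)) (a (b (l 16684856) (l 16636592)) (l 16725288))) (l 16704712))))), by decide +kernel⟩

def k7_pp_022 : ∃ t, chk3 f_pp_022 t 9 9 1 = true :=
  ⟨(b (a (b (b (l 15198352) (a (l 15611288) (l 15885968))) (a (b (l 15992880) (l 16228344)) (c (l 16099792) (l 16125008)))) (a (b (b (c (l 15761144) (l 15724624)) (l 16003160)) (a (l 16283480) (c (l 16259880) (c (l 16245968) (l 15975640))))) (c (b (l 15827584) (c (l 16228944) (l 16218976))) (b (c (a (l 15895272) (l 15883056)) (l 15787888)) (b (c (l 15961360) (l 16110408)) (c (l 16006744) (l 16245280))))))) (b (a (b (a (b (l 16588440) (l 16700504)) (l 16594360)) (l 16651312)) (c (a (b (a (l 16521480) (l 16493072)) (l 16408328)) (b (c (l 16410104) (l 16403136)) (c (l 16373096) (l 16365864)))) (c (b (a (a (l 16514552) (l 16485368)) (c (l 16398512) (c (l 16394336) (a (l 16424960) (l 16357272))))) (a (a (l 16513176) (l 16450488)) (c (l 16360376)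 (l 16256904)))) (b (a (b (l 16215808) (c (l 16520120) (l 16523416))) (b (l 16319256) (c (l 16256072) (l 16428896)))) (c (a (l 16466096) (l 16372808)) (l 16235480)))))) (a (a (l 16607592) (c (l 16469800) (a (l 16514624) (c (l 16439104) (l 16421752))))) (c (c (a (l 16354136) (l 16209800)) (a (l 16346272) (l 16199712))) (c (a (c (l 16340832) (a (l 16371688) (l 16240616))) (c (a (l 16220376) (l 16152568)) (l 16040448))) (a (b (a (c (l 16416664) (l 16423464)) (l 16348760)) (l 16189432)) (l 16056440))))))), by decide +kernel⟩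

def k8_pp_022 : ∃ t, chk3 f_pp_022 t 5 9 1 = true :=
  ⟨(b (a (c (b (a (c (l 15853648) (a (l 15860944) (l 15806840))) (c (a (l 15784632) (l 15729656)) (c (l 15705032) (a (l 15765504) (l 15719680))))) (c (a (l 16094256) (c (l 15825856) (l 15685504))) (c (a (l 16075384) (a (l 15956928) (l 15878720))) (a (a (l 16123128) (l 16027592)) (a (l 15963696) (l 15860144)))))) (b (a (c (b (l 15731856) (l 15814464)) (l 15812432)) (c (a (l 15739536) (l 15700336)) (l 15706576))) (a (c (c (b (l 15930328) (a (l 16164456) (l 16034448))) (b (l 16030976) (l 16054768))) (l 15849728)) (l 15884992)))) (c (a (c (b (c (l 15661568) (l 15654712)) (c (l 15757664) (l 15729760))) (l 15678016)) (l 15278120)) (b (l 15535392) (l 15587024)))) (b (a (a (c (c (b (l 16235376) (l 16169056)) (b (a (l 16275224) (c (l 16156136) (l 16065048))) (c (l 16157096) (a (l 16221392) (l 16124992))))) (c (c (a (b (l 16018840) (l 16046336)) (b (c (l 16172320) (l 16157528)) (l 16103472))) (b (b (l 16142968) (b (l 16203736) (l 16148560)))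 (l 16098520))) (l 16180120))) (a (c (c (b (l 15798408) (l 15998136)) (c (b (l 16068560) (l 16005824)) (l 16015824))) (l 15999136)) (c (c (b (c (l 15957912) (l 15956504)) (l 15905936)) (l 15897784)) (l 15874712)))) (c (b (l 15625760) (l 15535400)) (b (l 15585336) (l 15491816)))) (a (c (a (c (a (l 16080240) (l 15933608)) (c (a (l 16053912) (l 15952248)) (a (l 16060896) (c (l 15950880) (l 15932040))))) (c (c (l 15784592) (l 15784824)) (l 15743360))) (a (c (a (c (c (l 16072680) (l 16027952)) (l 16089656)) (l 15922800)) (l 15975144)) (l 15716192))) (c (l 15343976) (l 15293672))))), by decide +kernel⟩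

def k9_pp_022 : ∃ t, chk3 f_pp_022 t 3 4 1 = true :=
  ⟨(a (b (b (c (b (a (l 15479720) (l 15766856)) (a (l 15639232) (l 15642480))) (b (a (c (l 15650240) (l 15620488)) (l 15617568)) (l 15580728))) (c (a (b (l 15543176) (l 15430272)) (b (l 15483872) (l 15300600))) (a (l 15435728) (l 15340440)))) (a (b (c (b (l 15340008) (l 15242768)) (b (l 15289536) (l 15188896))) (c (b (b (l 15130576) (l 15011800)) (a (l 14937176) (l 14674000))) (b (l 14822488) (l 14724056)))) (b (b (c (l 15081304) (l 15064608)) (c (a (l 14964160) (l 14905968)) (l 14841008))) (a (b (b (c (l 14807040) (l 14737240)) (l 14681640)) (c (l 14590632) (l 14511632))) (l 14614888))))) (b (a (b (b (c (l 15617192) (b (l 15843960) (l 15744952))) (c (l 15630520) (l 15588240))) (c (b (l 15431064) (l 15239168)) (l 15263440))) (l 15441480)) (l 14779192))), by decide +kernel⟩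

def k10_pp_022 : ∃ t, chk3 f_pp_022 t 4 20 1 = true :=
  ⟨(b (a (a (a (c (l 15432296) (l 15536664)) (b (c (l 16036904) (l 16012048)) (c (l 15860760) (l 15916440)))) (a (a (b (l 16302072) (l 16418160)) (l 16519168)) (l 16582952))) (a (a (l 16452640) (c (l 16077096) (c (c (l 16302896) (l 16112512)) (a (l 16105984) (l 16008968))))) (c (c (l 16061144) (a (l 16120760) (c (l 15980752) (l 15956992)))) (c (c (a (a (l 16154344) (l 16063296)) (c (l 15965848) (l 15935728))) (a (l 15913304) (l 15975880))) (a (l 15927960) (l 15948808)))))) (a (a (b (a (c (l 15300224) (l 15312696)) (c (l 15941528) (l 15913488))) (b (a (c (l 15095264) (l 15252472)) (l 15847880)) (a (b (c (l 15287648) (l 15234552)) (c (l 15055328) (l 15232912))) (b (l 15966432) (l 15804960))))) (b (a (a (l 16483088) (l 16580160)) (l 16455944)) (b (a (l 16383928) (l 16397312)) (b (a (l 16520640) (l 16398528)) (a (a (l 16540432) (l 16509592)) (l 16404256)))))) (c (a (b (a (l 16311632) (l 16115000)) (a (b (l 16264664) (b (l 16278640)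 (l 16294952))) (l 16014920))) (c (b (l 15930072) (l 15908032)) (b (a (l 15981520) (c (l 15838760) (l 15843384))) (a (l 15948544) (c (l 15843200) (l 15811376)))))) (c (b (a (a (a (l 16353704) (l 16275592)) (a (l 16209152) (l 16036656))) (c (a (l 15767592) (l 15823632)) (l 15748624))) (b (a (a (a (l 16298840) (l 16229024)) (l 15801088)) (b (c (l 15720200) (l 15912360)) (l 15748400))) (a (a (b (l 16209392) (l 16207560)) (l 16084648)) (l 15798024)))) (b (a (a (l 16160472) (l 16066264)) (l 15912368)) (a (b (a (l 16110208) (l 16098424)) (b (l 16063800) (l 16062592))) (l 15744496))))))), by decide +kernel⟩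

def k11_pp_022 : ∃ t, chk3 f_pp_022 t 4 21 1 = true :=
  ⟨(a (a (a (c (l 15232328) (l 15177152)) (l 15809992)) (a (a (l 16474840) (l 16591752)) (b (l 16453088) (c (l 16542136) (c (l 16521664) (l 16532712)))))) (c (c (a (b (l 16283648) (l 16391816)) (b (a (l 16068632) (l 15966664)) (a (l 16209800) (l 16159960)))) (a (b (a (l 16342040) (l 16194920)) (a (l 16444552) (l 16203984))) (b (a (c (l 16048560) (l 16046608)) (c (l 15973960) (l 15983792))) (a (l 16122496) (l 16153864))))) (a (a (b (c (l 16197248) (l 16308368)) (l 16445432)) (b (c (l 16113544) (l 16205880)) (l 16230216))) (b (c (a (l 15992616) (l 15950464)) (l 15983088)) (l 16057096))))), by decide +kernel⟩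

def k12_pp_022 : ∃ t, chk3 f_pp_022 t 5 10 1 = true :=
  ⟨(b (a (c (c (b (a (c (l 15768544) (l 15777392)) (c (l 15556360) (l 15517880))) (a (b (c (l 15673560) (l 15685760)) (c (l 15672952) (a (l 15759768) (l 15652176)))) (l 15466936))) (a (b (c (a (l 15840272) (l 15728168)) (a (l 15855416) (l 15699264))) (a (b (c (l 15740400) (l 15726896)) (c (l 15760520) (l 15737704))) (l 15615544))) (b (l 15501408) (l 15444040)))) (b (a (c (c (a (l 15762424) (l 15689864)) (l 15749696)) (l 15736232)) (l 15467904)) (b (l 15398480) (l 15512456)))) (b (c (l 15089184) (l 15029928)) (c (b (l 15032440) (l 15159928)) (b (l 14971192) (l 15103160))))) (a (c (a (c (b (a (l 15907976) (l 15828744)) (c (l 16085968) (l 16067280))) (l 15943136)) (b (l 15676672) (l 15947688))) (a (l 15900088) (l 15690008))) (b (c (l 15403960) (l 15354816)) (c (l 15535376) (l 15709008))))), by decide +kernel⟩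

def k13_pp_022 : ∃ t, chk3 f_pp_022 t 2 11 1 = true :=
  ⟨(a (b (a (a (a (l 15086048) (l 15799104)) (a (c (a (b (l 16372712) (l 16294528)) (l 16639096)) (a (l 16166584) (l 16382464))) (b (c (l 16649432) (l 16643384)) (l 16711904)))) (c (b (a (l 16472912) (a (l 16420928) (l 16406816))) (l 16489240)) (a (b (l 16522552) (l 16682328)) (l 16470776)))) (a (a (a (l 15010040) (c (l 15732832) (l 15696368))) (a (b (c (l 16398384) (l 16385064)) (l 16391448)) (l 16643984))) (c (a (l 16770008) (l 16689264)) (l 16735240)))) (b (a (a (c (l 16442696) (l 16430696)) (b (l 16089280) (l 16567104))) (b (c (l 15988496) (l 16112392)) (c (l 16541520) (l 16533072)))) (a (b (l 16935832) (l 16746064)) (a (l 16776576) (l 16776560))))), by decide +kernel⟩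

def k14_pp_022 : ∃ t, chk3 f_pp_022 t 3 5 1 = true :=
  ⟨(a (b (b (a (b (c (a (l 14668368) (l 14468392)) (l 14276240)) (b (c (a (l 14634720) (l 14526736)) (l 14512088)) (a (c (l 14832936) (l 14764296)) (l 14734568)))) (l 14505520)) (a (a (b (c (l 15175528) (l 15118608)) (b (l 15501616) (l 15729352))) (l 15370744)) (l 15380408))) (b (l 16311544) (l 16776568))) (l 2)), by decide +kernel⟩

def k15_pp_022 : ∃ t, chk3 f_pp_022 t 1 3 1 = true :=
  ⟨(a (a (a (b (a (b (c (a (l 15039672) (l 15733376)) (l 15164696)) (c (a (l 15039672) (l 15733376)) (l 15290528))) (b (c (a (l 16398080) (l 16646064)) (l 16387760)) (c (l 16438648) (l 16471640)))) (a (a (l 15009920) (l 15715048)) (a (l 16370472) (l 16643792)))) (b (b (c (l 16736320) (l 16734880)) (l 16672664)) (l 16735584))) (b (a (b (l 16746064) (l 16746064)) (l 16777216)) (l 2))) (l 2)), by decide +kernel⟩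

theorem s16_pp_022 : ∃ t, chk3 f_pp_022 t 4 10 1 = true := ex3_b k10_pp_022 k11_pp_022

theorem s17_pp_022 : ∃ t, chk3 f_pp_022 t 2 10 1 = true := ex3_a s16_pp_022 k12_pp_022

theorem s18_pp_022 : ∃ t, chk3 f_pp_022 t 2 5 1 = true := ex3_b s17_pp_022 k13_pp_022

theorem s19_pp_022 : ∃ t, chk3 f_pp_022 t 1 5 1 = true := ex3_a s18_pp_022 k14_pp_022

theorem s20_pp_022 : ∃ t, chk3 f_pp_022 t 4 9 1 = true := ex3_a k6_pp_022 k7_pp_022

theorem s21_pp_022 : ∃ t, chk3 f_pp_022 t 2 9 1 = true := ex3_a s20_pp_022 k8_pp_022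

theorem s22_pp_022 : ∃ t, chk3 f_pp_022 t 8 17 1 = true := ex3_a k2_pp_022 k3_pp_022

theorem s23_pp_022 : ∃ t, chk3 f_pp_022 t 4 17 1 = true := ex3_a s22_pp_022 k4_pp_022

theorem s24_pp_022 : ∃ t, chk3 f_pp_022 t 2 17 1 = true := ex3_a s23_pp_022 k5_pp_022

theorem s25_pp_022 : ∃ t, chk3 f_pp_022 t 2 16 1 = true := ex3_b k0_pp_022 k1_pp_022

theorem s26_pp_022 : ∃ t, chk3 f_pp_022 t 2 8 1 = true := ex3_b s25_pp_022 s24_pp_022

theorem s27_pp_022 : ∃ t, chk3 f_pp_022 t 2 4 1 = true := ex3_b s26_pp_022 s21_pp_022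

theorem s28_pp_022 : ∃ t, chk3 f_pp_022 t 1 4 1 = true := ex3_a s27_pp_022 k9_pp_022

theorem s29_pp_022 : ∃ t, chk3 f_pp_022 t 1 2 1 = true := ex3_b s28_pp_022 s19_pp_022

theorem s30_pp_022 : ∃ t, chk3 f_pp_022 t 1 1 1 = true := ex3_b s29_pp_022 k15_pp_022

theorem c_pp_022 : CertNX 67108864 469762048 1073741824 536870912 1046898278 26843546 3 false true true .pp 0 2 2
    ndN2q0 ndN5q2 pcN2 Cut.none Ext.none :=
  certNX1 (fam := false) (s1 := true) (s2 := true) (a := 0) (b := 2) (c := 2) (cn := .pp) (n1 := ndN2q0) (n2 := ndN5q2) (pc := pcN2) (cut := Cut.none) (xt := Ext.none) (P1 := 67108864) (W1 := 469762048) (P2 := 1073741824) (W2 := 536870912) (P3 := 1046898278) (W3 := 26843546) (N0 := 3)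
    rfl (fun _ => rfl) s30_pp_022

noncomputable def f_pp_023 : ℕ → ℕ → ℕ → ℕ → Bool := onCell 1073741824 536870912 0 1230186008 1046898278 26843546
    (rowNX 3 2 false true true .up 0 2 3 (qsf 67108864 469762048 0 1230186008 2) ndN2q0 ndN5q3 pcN2 Cut.none Ext.none)

def k0_pp_023 : ∃ t, chk3 f_pp_023 t 1 1 1 = true :=
  ⟨(b (a (l 2) (a (l 2) (b (l 16746096) (l 16717288)))) (a (a (b (l 2) (b (l 2) (a (l 15368608) (l 14780904)))) (b (a (l 2) (a (l 2) (l 16769688))) (a (a (a (b (l 14456024) (l 14415440)) (b (l 14676520) (l 14635432))) (b (l 15416176) (l 15387656))) (a (b (l 16324160) (l 16313816)) (l 16776576))))) (b (a (b (l 16766768) (l 16777200)) (l 16777184)) (b (a (l 16777216) (b (l 16772880) (a (l 16773072) (l 16733632)))) (a (b (l 16774792) (a (l 16771632) (b (l 16750336) (l 16731040)))) (b (a (l 16734816) (b (l 16763776) (a (l 16764944) (b (l 16529600) (a (l 16418464) (l 15790688)))))) (a (b (l 16772800) (a (l 16474528) (b (a (l 16647680) (l 16305072)) (a (l 16168016) (l 15397264)))))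 (b (a (b (l 16504688) (a (l 16358872) (l 15715728))) (b (a (l 15754416) (b (l 15191808) (l 14854152))) (a (b (l 15144552) (l 14809600)) (l 668432863831)))) (a (a (b (l 15632112) (b (l 14995736) (l 14688128))) (b (b (l 15078520) (l 14752928)) (l 518108900727))) (a (b (l 658769136055) (l 1)) (l 1))))))))))), by decide +kernel⟩

theorem c_pp_023 : CertNX 67108864 469762048 0 1230186008 1046898278 26843546 3 false true true .up 0 2 3
    ndN2q0 ndN5q3 pcN2 Cut.none Ext.none :=
  certNX2 (fam := false) (s1 := true) (s2 := true) (a := 0) (b := 2) (c := 3) (cn := .up) (n1 := ndN2q0) (n2 := ndN5q3) (pc := pcN2) (cut := Cut.none) (xt := Ext.none) (P1 := 67108864) (W1 := 469762048) (P2 := 0) (W2 := 1230186008) (P3 := 1046898278) (W3 := 26843546) (N0 := 3)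
    rfl (fun _ => rfl) k0_pp_023

noncomputable def f_pp_033 : ℕ → ℕ → ℕ → ℕ → Bool := onCell 67108864 469762048 0 1230186008 1046898278 26843546
    (rowNX 3 0 false true true .pnn 0 3 3 (qsf 67108864 469762048 0 1230186008 3) ndN2q0 ndN5q3 pcN3 Cut.none Ext.none)

def k0_pp_033 : ∃ t, chk3 f_pp_033 t 1 1 1 = true :=
  ⟨(b (a (b (l 4) (b (l 4) (a (l 4) (c (a (l 16720264) (l 16731112)) (a (l 16718328) (l 16729176)))))) (b (a (l 4) (c (l 16754832) (l 16743304))) (a (c (b (l 16713816) (l 16731112)) (b (l 16692592) (l 16729176))) (b (l 16705992) (l 16730136))))) (a (b (a (a (b (b (a (l 4) (a (l 16391432) (l 16643776))) (a (c (l 15385944) (l 15332392)) (l 16329272))) (a (b (l 15362432) (l 15299544)) (b (l 16518056) (l 16518088)))) (b (c (l 16736288) (l 16734848)) (b (l 16735560) (l 16735584)))) (b (a (b (l 16746056) (l 16746024)) (l 16777168)) (a (l 16746056) (l 16777200)))) (a (b (a (a (a (l 15009920) (l 15715048)) (l 16518088)) (l 16735584)) (a (a (b (l 15362456) (l 195451233575)) (b (l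 16518088) (l 1))) (l 16735584))) (b (l 16762032) (l 1)))) (b (b (a (l 16777168) (l 1)) (a (l 16777200) (l 1))) (l 1)))), by decide +kernel⟩

theorem c_pp_033 : CertNX 67108864 469762048 0 1230186008 1046898278 26843546 3 false true true .pnn 0 3 3
    ndN2q0 ndN5q3 pcN3 Cut.none Ext.none :=
  certNX0 (fam := false) (s1 := true) (s2 := true) (a := 0) (b := 3) (c := 3) (cn := .pnn) (n1 := ndN2q0) (n2 := ndN5q3) (pc := pcN3) (cut := Cut.none) (xt := Ext.none) (P1 := 67108864) (W1 := 469762048) (P2 := 0) (W2 := 1230186008) (P3 := 1046898278) (W3 := 26843546) (N0 := 3)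
    rfl k0_pp_033

noncomputable def f_pp_101 : ℕ → ℕ → ℕ → ℕ → Bool := onCell 536870912 536870912 536870912 469762048 1046898278 26843546
    (rowNX 3 0 false true true .npn 1 0 1 (qsf 536870912 536870912 536870912 469762048 0) ndN2q1 ndN5q1 pcN0 Cut.none Ext.none)

def k0_pp_101 : ∃ t, chk3 f_pp_101 t 1 1 1 = true :=
  ⟨(l 3), by decide +kernel⟩

theorem c_pp_101 : CertNX 536870912 536870912 536870912 469762048 1046898278 26843546 3 false true true .npn 1 0 1
    ndN2q1 ndN5q1 pcN0 Cut.none Ext.none :=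
  certNX0 (fam := false) (s1 := true) (s2 := true) (a := 1) (b := 0) (c := 1) (cn := .npn) (n1 := ndN2q1) (n2 := ndN5q1) (pc := pcN0) (cut := Cut.none) (xt := Ext.none) (P1 := 536870912) (W1 := 536870912) (P2 := 536870912) (W2 := 469762048) (P3 := 1046898278) (W3 := 26843546) (N0 := 3)
    rfl k0_pp_101

noncomputable def f_pp_102 : ℕ → ℕ → ℕ → ℕ → Bool := onCell 536870912 536870912 0 536870912 1046898278 26843546
    (rowNX 3 1 false true true .npp 1 0 2 (qsf 536870912 536870912 1073741824 536870912 0) ndN2q1 ndN5q2 pcN0 Cut.none Ext.none)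

def k0_pp_102 : ∃ t, chk3 f_pp_102 t 1 1 1 = true :=
  ⟨(l 3), by decide +kernel⟩

theorem c_pp_102 : CertNX 536870912 536870912 1073741824 536870912 1046898278 26843546 3 false true true .npp 1 0 2
    ndN2q1 ndN5q2 pcN0 Cut.none Ext.none :=
  certNX1 (fam := false) (s1 := true) (s2 := true) (a := 1) (b := 0) (c := 2) (cn := .npp) (n1 := ndN2q1) (n2 := ndN5q2) (pc := pcN0) (cut := Cut.none) (xt := Ext.none) (P1 := 536870912) (W1 := 536870912) (P2 := 1073741824) (W2 := 536870912) (P3 := 1046898278) (W3 := 26843546) (N0 := 3)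
    rfl (fun _ => rfl) k0_pp_102

noncomputable def f_pp_112 : ℕ → ℕ → ℕ → ℕ → Bool := onCell 536870912 536870912 1073741824 536870912 1046898278 26843546
    (rowNX 3 2 false true true .dn 1 1 2 (qsf 536870912 536870912 1073741824 536870912 1) ndN2q1 ndN5q2 pcN1 Cut.none Ext.none)

def k0_pp_112 : ∃ t, chk3 f_pp_112 t 1 1 1 = true :=
  ⟨(a (l 3) (a (b (l 3) (a (l 3) (b (l 3) (l 188609638055)))) (b (l 1) (b (a (a (l 16476384) (l 1)) (l 1)) (a (a (l 16488040) (l 16137936)) (a (a (l 15840752) (l 15621424)) (b (l 1) (a (c (c (l 15527152) (l 15505952)) (l 15470984)) (c (l 15385384) (a (l 15367288) (l 15301472))))))))))), by decide +kernel⟩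

theorem c_pp_112 : CertNX 536870912 536870912 1073741824 536870912 1046898278 26843546 3 false true true .dn 1 1 2
    ndN2q1 ndN5q2 pcN1 Cut.none Ext.none :=
  certNX2 (fam := false) (s1 := true) (s2 := true) (a := 1) (b := 1) (c := 2) (cn := .dn) (n1 := ndN2q1) (n2 := ndN5q2) (pc := pcN1) (cut := Cut.none) (xt := Ext.none) (P1 := 536870912) (W1 := 536870912) (P2 := 1073741824) (W2 := 536870912) (P3 := 1046898278) (W3 := 26843546) (N0 := 3)
    rfl (fun _ => rfl) k0_pp_112

noncomputable def f_pp_113 : ℕ → ℕ → ℕ → ℕ → Bool := onCell 536870912 536870912 0 1230186008 1046898278 26843546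
    (rowNX 3 2 false true true .nn 1 1 3 (qsf 536870912 536870912 0 1230186008 1) ndN2q1 ndN5q3 pcN1 Cut.none Ext.none)

def k0_pp_113 : ∃ t, chk3 f_pp_113 t 1 1 1 = true :=
  ⟨(b (a (l 2) (a (l 2) (b (a (l 2) (b (l 16056712) (l 14900856))) (a (b (l 876266980151) (b (l 13880104) (l 14182344))) (b (l 14181288) (a (l 14236472) (l 14214224))))))) (a (b (a (l 2) (b (l 2) (a (l 2) (a (l 2) (b (l 2) (l 14329176)))))) (b (a (l 2) (l 3)) (l 3))) (a (b (a (b (l 2) (a (b (l 14184056) (l 14740672)) (b (l 14582592) (l 15138312)))) (b (a (l 775336665479) (a (l 14490864) (l 14608408))) (a (b (l 14948584) (l 15499088)) (a (l 15481064) (l 15589984))))) (b (a (b (a (l 15354880) (l 15740792)) (a (l 16006512) (l 16310808))) (a (b (l 16076032) (l 16509304)) (b (l 16278816) (l 16574232)))) (a (a (l 3) (l 220284203415)) (a (l 16743536) (l 16709880))))) (b (a (b (l 14691792) (a (b (l 15376696) (l 15843672)) (l 15544768))) (b (l 14729888) (a (l 15373480) (l 15120144)))) (a (b (a (b (l 16166024) (l 16347192))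 (l 15969504)) (a (l 16422016) (l 16070768))) (a (b (a (l 15740800) (l 15568600)) (a (l 15797000) (a (l 15664496) (l 15584440)))) (b (l 15301912) (a (c (a (c (l 15376128) (l 15520848)) (b (l 15440264) (l 15241800))) (l 15448064)) (b (l 15288736) (c (l 15362424) (a (l 15351240) (c (l 15288488) (l 15262576))))))))))))), by decide +kernel⟩

theorem c_pp_113 : CertNX 536870912 536870912 0 1230186008 1046898278 26843546 3 false true true .nn 1 1 3
    ndN2q1 ndN5q3 pcN1 Cut.none Ext.none :=
  certNX2 (fam := false) (s1 := true) (s2 := true) (a := 1) (b := 1) (c := 3) (cn := .nn) (n1 := ndN2q1) (n2 := ndN5q3) (pc := pcN1) (cut := Cut.none) (xt := Ext.none) (P1 := 536870912) (W1 := 536870912) (P2 := 0) (W2 := 1230186008) (P3 := 1046898278) (W3 := 26843546) (N0 := 3)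
    rfl (fun _ => rfl) k0_pp_113

noncomputable def f_pp_123 : ℕ → ℕ → ℕ → ℕ → Bool := onCell 1073741824 536870912 0 1230186008 1046898278 26843546
    (rowNX 3 2 false true true .npn 1 2 3 (qsf 536870912 536870912 0 1230186008 2) ndN2q1 ndN5q3 pcN2 Cut.none Ext.none)

def k0_pp_123 : ∃ t, chk3 f_pp_123 t 1 1 1 = true :=
  ⟨(b (a (a (b (a (b (a (l 16230320) (l 16096032)) (a (l 15425872) (l 15630648))) (a (b (l 15772968) (l 15578104)) (l 15170040))) (a (b (l 15059096) (a (l 14522368) (l 14843104))) (b (a (l 15196472) (l 14932104)) (l 14878304)))) (b (a (a (l 14945512) (l 15510208)) (a (l 16076184) (l 16369560))) (a (a (a (b (l 14717784) (l 14600456)) (l 14806080)) (b (l 15510872) (l 15513120))) (a (b (l 16189064) (l 16355384)) (l 16609768))))) (a (b (a (l 16531256) (l 16737680)) (a (l 16640736) (l 16713648))) (b (l 16746096) (l 16717288)))) (a (a (b (b (a (l 14848968) (l 14799312)) (a (l 15070696) (l 14797200))) (b (a (l 15219264) (l 14789592)) (a (l 15368608) (l 14780904)))) (b (a (a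 (a (l 14507128) (l 14728136)) (l 15451800)) (a (l 16337032) (l 16769688))) (a (a (a (l 313024376135) (l 318930129239)) (l 335574619511)) (a (l 328060303463) (l 16776576))))) (b (a (b (l 16766768) (l 16777200)) (l 16777184)) (l 1)))), by decide +kernel⟩

theorem c_pp_123 : CertNX 536870912 536870912 0 1230186008 1046898278 26843546 3 false true true .npn 1 2 3
    ndN2q1 ndN5q3 pcN2 Cut.none Ext.none :=
  certNX2 (fam := false) (s1 := true) (s2 := true) (a := 1) (b := 2) (c := 3) (cn := .npn) (n1 := ndN2q1) (n2 := ndN5q3) (pc := pcN2) (cut := Cut.none) (xt := Ext.none) (P1 := 536870912) (W1 := 536870912) (P2 := 0) (W2 := 1230186008) (P3 := 1046898278) (W3 := 26843546) (N0 := 3)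
    rfl (fun _ => rfl) k0_pp_123

noncomputable def f_pp_133 : ℕ → ℕ → ℕ → ℕ → Bool := onCell 1610612736 536870912 0 1230186008 1046898278 26843546
    (rowNX 3 2 false true true .dn 1 3 3 (qsf 536870912 536870912 0 1230186008 3) ndN2q1 ndN5q3 pcN3 Cut.none Ext.none)

def k0_pp_133 : ∃ t, chk3 f_pp_133 t 1 1 1 = true :=
  ⟨(a (b (b (b (l 4) (l 1)) (l 1)) (l 1)) (l 1)), by decide +kernel⟩

theorem c_pp_133 : CertNX 536870912 536870912 0 1230186008 1046898278 26843546 3 false true true .dn 1 3 3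
    ndN2q1 ndN5q3 pcN3 Cut.none Ext.none :=
  certNX2 (fam := false) (s1 := true) (s2 := true) (a := 1) (b := 3) (c := 3) (cn := .dn) (n1 := ndN2q1) (n2 := ndN5q3) (pc := pcN3) (cut := Cut.none) (xt := Ext.none) (P1 := 536870912) (W1 := 536870912) (P2 := 0) (W2 := 1230186008) (P3 := 1046898278) (W3 := 26843546) (N0 := 3)
    rfl (fun _ => rfl) k0_pp_133

end Pool.Agent.Strip051.G.IE1.Tab.C.NB25

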