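import Pool.Agent.Strip051.G.IE1.Tab

/-! # Certificates N68 (generated) -/

set_option linter.all false
set_option maxRecDepth 100000

namespace Pool.Agent.Strip051.G.IE1.Tab.C.NB25

open Pool.Agent.Strip051.PB Pool.Agent.Strip051.PB.T
open Pool.Agent.Strip051.G.IE1.Tab

noncomputable def f_pp_202_a : ℕ → ℕ → ℕ → ℕ → Bool := onCell 0 420477299 1073741824 536870912 1046898278 26843546
    (rowNX 3 0 false true true .pp 2 0 2 (qsf 0 420477299 1073741824 536870912 0) ndN2q2a ndN5q2 pcN0 Cut.none Ext.none)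

def k0_pp_202_a : ∃ t, chk3 f_pp_202_a t 1 1 1 = true :=
  ⟨(l 3), by decide +kernel⟩

theorem c_pp_202_a : CertNX 0 420477299 1073741824 536870912 1046898278 26843546 3 false true true .pp 2 0 2
    ndN2q2a ndN5q2 pcN0 Cut.none Ext.none :=
  certNX0 (fam := false) (s1 := true) (s2 := true) (a := 2) (b := 0) (c := 2) (cn := .pp) (n1 := ndN2q2a) (n2 := ndN5q2) (pc := pcN0) (cut := Cut.none) (xt := Ext.none) (P1 := 0) (W1 := 420477299) (P2 := 1073741824) (W2 := 536870912) (P3 := 1046898278) (W3 := 26843546) (N0 := 3)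
    rfl k0_pp_202_a

noncomputable def f_pp_202_b : ℕ → ℕ → ℕ → ℕ → Bool := onCell 1239849684 370763052 1073741824 536870912 1046898278 26843546
    (rowNX 3 0 false true true .pp 2 0 2 (qsf 1239849684 370763052 1073741824 536870912 0) ndN2q2b ndN5q2 pcN0 Cut.none Ext.none)

def k0_pp_202_b : ∃ t, chk3 f_pp_202_b t 1 1 1 = true :=
  ⟨(l 3), by decide +kernel⟩

theorem c_pp_202_b : CertNX 1239849684 370763052 1073741824 536870912 1046898278 26843546 3 false true true .pp 2 0 2
    ndN2q2b ndN5q2 pcN0 Cut.none Ext.none :=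
  certNX0 (fam := false) (s1 := true) (s2 := true) (a := 2) (b := 0) (c := 2) (cn := .pp) (n1 := ndN2q2b) (n2 := ndN5q2) (pc := pcN0) (cut := Cut.none) (xt := Ext.none) (P1 := 1239849684) (W1 := 370763052) (P2 := 1073741824) (W2 := 536870912) (P3 := 1046898278) (W3 := 26843546) (N0 := 3)
    rfl k0_pp_202_b

noncomputable def f_pp_203_a : ℕ → ℕ → ℕ → ℕ → Bool := onCell 0 420477299 0 1230186008 1046898278 26843546
    (rowNX 3 0 false true true .up 2 0 3 (qsf 0 420477299 0 1230186008 0) ndN2q2a ndN5q3 pcN0 Cut.none Ext.none)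

def k0_pp_203_a : ∃ t, chk3 f_pp_203_a t 1 1 1 = true :=
  ⟨(b (l 2) (l 3)), by decide +kernel⟩

theorem c_pp_203_a : CertNX 0 420477299 0 1230186008 1046898278 26843546 3 false true true .up 2 0 3
    ndN2q2a ndN5q3 pcN0 Cut.none Ext.none :=
  certNX0 (fam := false) (s1 := true) (s2 := true) (a := 2) (b := 0) (c := 3) (cn := .up) (n1 := ndN2q2a) (n2 := ndN5q3) (pc := pcN0) (cut := Cut.none) (xt := Ext.none) (P1 := 0) (W1 := 420477299) (P2 := 0) (W2 := 1230186008) (P3 := 1046898278) (W3 := 26843546) (N0 := 3)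
    rfl k0_pp_203_a

noncomputable def f_pp_203_b : ℕ → ℕ → ℕ → ℕ → Bool := onCell 1239849684 370763052 0 1230186008 1046898278 26843546
    (rowNX 3 0 false true true .up 2 0 3 (qsf 1239849684 370763052 0 1230186008 0) ndN2q2b ndN5q3 pcN0 Cut.none Ext.none)

def k0_pp_203_b : ∃ t, chk3 f_pp_203_b t 1 1 1 = true :=
  ⟨(b (l 3) (l 3)), by decide +kernel⟩

theorem c_pp_203_b : CertNX 1239849684 370763052 0 1230186008 1046898278 26843546 3 false true true .up 2 0 3
    ndN2q2b ndN5q3 pcN0 Cut.none Ext.none :=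
  certNX0 (fam := false) (s1 := true) (s2 := true) (a := 2) (b := 0) (c := 3) (cn := .up) (n1 := ndN2q2b) (n2 := ndN5q3) (pc := pcN0) (cut := Cut.none) (xt := Ext.none) (P1 := 1239849684) (W1 := 370763052) (P2 := 0) (W2 := 1230186008) (P3 := 1046898278) (W3 := 26843546) (N0 := 3)
    rfl k0_pp_203_b

noncomputable def f_pp_213_a : ℕ → ℕ → ℕ → ℕ → Bool := onCell 0 420477299 0 1230186008 1046898278 26843546
    (rowNX 3 0 false true true .pnn 2 1 3 (qsf 0 420477299 0 1230186008 1) ndN2q2a ndN5q3 pcN1 Cut.none Ext.none)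

def k0_pp_213_a : ∃ t, chk3 f_pp_213_a t 1 1 1 = true :=
  ⟨(b (l 3) (l 3)), by decide +kernel⟩

theorem c_pp_213_a : CertNX 0 420477299 0 1230186008 1046898278 26843546 3 false true true .pnn 2 1 3
    ndN2q2a ndN5q3 pcN1 Cut.none Ext.none :=
  certNX0 (fam := false) (s1 := true) (s2 := true) (a := 2) (b := 1) (c := 3) (cn := .pnn) (n1 := ndN2q2a) (n2 := ndN5q3) (pc := pcN1) (cut := Cut.none) (xt := Ext.none) (P1 := 0) (W1 := 420477299) (P2 := 0) (W2 := 1230186008) (P3 := 1046898278) (W3 := 26843546) (N0 := 3)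
    rfl k0_pp_213_a

noncomputable def f_pp_213_b : ℕ → ℕ → ℕ → ℕ → Bool := onCell 1239849684 370763052 0 1230186008 1046898278 26843546
    (rowNX 3 0 false true true .pnn 2 1 3 (qsf 1239849684 370763052 0 1230186008 1) ndN2q2b ndN5q3 pcN1 Cut.none Ext.none)

def k0_pp_213_b : ∃ t, chk3 f_pp_213_b t 1 1 1 = true :=
  ⟨(b (l 3) (l 3)), by decide +kernel⟩

theorem c_pp_213_b : CertNX 1239849684 370763052 0 1230186008 1046898278 26843546 3 false true true .pnn 2 1 3
    ndN2q2b ndN5q3 pcN1 Cut.none Ext.none :=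
  certNX0 (fam := false) (s1 := true) (s2 := true) (a := 2) (b := 1) (c := 3) (cn := .pnn) (n1 := ndN2q2b) (n2 := ndN5q3) (pc := pcN1) (cut := Cut.none) (xt := Ext.none) (P1 := 1239849684) (W1 := 370763052) (P2 := 0) (W2 := 1230186008) (P3 := 1046898278) (W3 := 26843546) (N0 := 3)
    rfl k0_pp_213_b

noncomputable def f_pp_303 : ℕ → ℕ → ℕ → ℕ → Bool := onCell 1610612736 469762048 0 1230186008 1046898278 26843546
    (rowNX 3 0 false true true .npn 3 0 3 (qsf 1610612736 469762048 0 1230186008 0) ndN2q3 ndN5q3 pcN0 Cut.none Ext.none)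

def k0_pp_303 : ∃ t, chk3 f_pp_303 t 1 1 1 = true :=
  ⟨(b (l 3) (l 3)), by decide +kernel⟩

theorem c_pp_303 : CertNX 1610612736 469762048 0 1230186008 1046898278 26843546 3 false true true .npn 3 0 3
    ndN2q3 ndN5q3 pcN0 Cut.none Ext.none :=
  certNX0 (fam := false) (s1 := true) (s2 := true) (a := 3) (b := 0) (c := 3) (cn := .npn) (n1 := ndN2q3) (n2 := ndN5q3) (pc := pcN0) (cut := Cut.none) (xt := Ext.none) (P1 := 1610612736) (W1 := 469762048) (P2 := 0) (W2 := 1230186008) (P3 := 1046898278) (W3 := 26843546) (N0 := 3)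
    rfl k0_pp_303

noncomputable def f_pp_313 : ℕ → ℕ → ℕ → ℕ → Bool := onCell 1610612736 469762048 0 1230186008 1046898278 26843546
    (rowNX 3 0 false true true .dn 3 1 3 (qsf 1610612736 469762048 0 1230186008 1) ndN2q3 ndN5q3 pcN1 Cut.none Ext.none)

def k0_pp_313 : ∃ t, chk3 f_pp_313 t 1 1 1 = true :=
  ⟨(b (l 3) (l 1)), by decide +kernel⟩

theorem c_pp_313 : CertNX 1610612736 469762048 0 1230186008 1046898278 26843546 3 false true true .dn 3 1 3
    ndN2q3 ndN5q3 pcN1 Cut.none Ext.none :=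
  certNX0 (fam := false) (s1 := true) (s2 := true) (a := 3) (b := 1) (c := 3) (cn := .dn) (n1 := ndN2q3) (n2 := ndN5q3) (pc := pcN1) (cut := Cut.none) (xt := Ext.none) (P1 := 1610612736) (W1 := 469762048) (P2 := 0) (W2 := 1230186008) (P3 := 1046898278) (W3 := 26843546) (N0 := 3)
    rfl k0_pp_313

noncomputable def f_pm_001 : ℕ → ℕ → ℕ → ℕ → Bool := onCell 67108864 469762048 536870912 469762048 1046898278 26843546
    (rowNX 3 0 false true false .up 0 0 1 (qsf 67108864 469762048 536870912 469762048 0) ndN2q0 ndN5q1 pcN0 Cut.none Ext.none)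

def k0_pm_001 : ∃ t, chk3 f_pm_001 t 1 1 1 = true :=
  ⟨(l 4), by decide +kernel⟩

theorem c_pm_001 : CertNX 67108864 469762048 536870912 469762048 1046898278 26843546 3 false true false .up 0 0 1
    ndN2q0 ndN5q1 pcN0 Cut.none Ext.none :=
  certNX0 (fam := false) (s1 := true) (s2 := false) (a := 0) (b := 0) (c := 1) (cn := .up) (n1 := ndN2q0) (n2 := ndN5q1) (pc := pcN0) (cut := Cut.none) (xt := Ext.none) (P1 := 67108864) (W1 := 469762048) (P2 := 536870912) (W2 := 469762048) (P3 := 1046898278) (W3 := 26843546) (N0 := 3)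
    rfl k0_pm_001

noncomputable def f_pm_011 : ℕ → ℕ → ℕ → ℕ → Bool := onCell 67108864 469762048 536870912 469762048 1046898278 26843546
    (rowNX 3 0 false true false .pnn 0 1 1 (qsf 67108864 469762048 536870912 469762048 1) ndN2q0 ndN5q1 pcN1 Cut.none Ext.none)

def k0_pm_011 : ∃ t, chk3 f_pm_011 t 1 1 1 = true :=
  ⟨(l 4), by decide +kernel⟩

theorem c_pm_011 : CertNX 67108864 469762048 536870912 469762048 1046898278 26843546 3 false true false .pnn 0 1 1
    ndN2q0 ndN5q1 pcN1 Cut.none Ext.none :=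
  certNX0 (fam := false) (s1 := true) (s2 := false) (a := 0) (b := 1) (c := 1) (cn := .pnn) (n1 := ndN2q0) (n2 := ndN5q1) (pc := pcN1) (cut := Cut.none) (xt := Ext.none) (P1 := 67108864) (W1 := 469762048) (P2 := 536870912) (W2 := 469762048) (P3 := 1046898278) (W3 := 26843546) (N0 := 3)
    rfl k0_pm_011

noncomputable def f_pm_012 : ℕ → ℕ → ℕ → ℕ → Bool := onCell 67108864 469762048 1073741824 536870912 1046898278 26843546
    (rowNX 3 0 false true false .pnp 0 1 2 (qsf 67108864 469762048 1073741824 536870912 1) ndN2q0 ndN5q2 pcN1 Cut.none Ext.none)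

def k0_pm_012 : ∃ t, chk3 f_pm_012 t 1 1 1 = true :=
  ⟨(l 4), by decide +kernel⟩

theorem c_pm_012 : CertNX 67108864 469762048 1073741824 536870912 1046898278 26843546 3 false true false .pnp 0 1 2
    ndN2q0 ndN5q2 pcN1 Cut.none Ext.none :=
  certNX0 (fam := false) (s1 := true) (s2 := false) (a := 0) (b := 1) (c := 2) (cn := .pnp) (n1 := ndN2q0) (n2 := ndN5q2) (pc := pcN1) (cut := Cut.none) (xt := Ext.none) (P1 := 67108864) (W1 := 469762048) (P2 := 1073741824) (W2 := 536870912) (P3 := 1046898278) (W3 := 26843546) (N0 := 3)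
    rfl k0_pm_012

noncomputable def f_pm_022 : ℕ → ℕ → ℕ → ℕ → Bool := onCell 67108864 469762048 1073741824 536870912 1046898278 26843546
    (rowNX 3 0 false true false .pp 0 2 2 (qsf 67108864 469762048 1073741824 536870912 2) ndN2q0 ndN5q2 pcN2 Cut.none Ext.none)

def k0_pm_022 : ∃ t, chk3 f_pm_022 t 1 1 1 = true :=
  ⟨(l 4), by decide +kernel⟩

theorem c_pm_022 : CertNX 67108864 469762048 1073741824 536870912 1046898278 26843546 3 false true false .pp 0 2 2
    ndN2q0 ndN5q2 pcN2 Cut.none Ext.none :=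
  certNX0 (fam := false) (s1 := true) (s2 := false) (a := 0) (b := 2) (c := 2) (cn := .pp) (n1 := ndN2q0) (n2 := ndN5q2) (pc := pcN2) (cut := Cut.none) (xt := Ext.none) (P1 := 67108864) (W1 := 469762048) (P2 := 1073741824) (W2 := 536870912) (P3 := 1046898278) (W3 := 26843546) (N0 := 3)
    rfl k0_pm_022

noncomputable def f_pm_023 : ℕ → ℕ → ℕ → ℕ → Bool := onCell 67108864 469762048 0 1230186008 1046898278 26843546
    (rowNX 3 0 false true false .up 0 2 3 (qsf 67108864 469762048 0 1230186008 2) ndN2q0 ndN5q3 pcN2 Cut.none Ext.none)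

def k0_pm_023 : ∃ t, chk3 f_pm_023 t 1 1 1 = true :=
  ⟨(b (b (l 4) (l 4)) (l 4)), by decide +kernel⟩

theorem c_pm_023 : CertNX 67108864 469762048 0 1230186008 1046898278 26843546 3 false true false .up 0 2 3
    ndN2q0 ndN5q3 pcN2 Cut.none Ext.none :=
  certNX0 (fam := false) (s1 := true) (s2 := false) (a := 0) (b := 2) (c := 3) (cn := .up) (n1 := ndN2q0) (n2 := ndN5q3) (pc := pcN2) (cut := Cut.none) (xt := Ext.none) (P1 := 67108864) (W1 := 469762048) (P2 := 0) (W2 := 1230186008) (P3 := 1046898278) (W3 := 26843546) (N0 := 3)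
    rfl k0_pm_023

noncomputable def f_pm_033 : ℕ → ℕ → ℕ → ℕ → Bool := onCell 67108864 469762048 0 1230186008 1046898278 26843546
    (rowNX 3 0 false true false .pnn 0 3 3 (qsf 67108864 469762048 0 1230186008 3) ndN2q0 ndN5q3 pcN3 Cut.none Ext.none)

def k0_pm_033 : ∃ t, chk3 f_pm_033 t 1 1 1 = true :=
  ⟨(b (b (l 4) (l 4)) (l 4)), by decide +kernel⟩

theorem c_pm_033 : CertNX 67108864 469762048 0 1230186008 1046898278 26843546 3 false true false .pnn 0 3 3
    ndN2q0 ndN5q3 pcN3 Cut.none Ext.none :=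
  certNX0 (fam := false) (s1 := true) (s2 := false) (a := 0) (b := 3) (c := 3) (cn := .pnn) (n1 := ndN2q0) (n2 := ndN5q3) (pc := pcN3) (cut := Cut.none) (xt := Ext.none) (P1 := 67108864) (W1 := 469762048) (P2 := 0) (W2 := 1230186008) (P3 := 1046898278) (W3 := 26843546) (N0 := 3)
    rfl k0_pm_033

noncomputable def f_pm_101 : ℕ → ℕ → ℕ → ℕ → Bool := onCell 536870912 536870912 536870912 469762048 1046898278 26843546
    (rowNX 3 0 false true false .npn 1 0 1 (qsf 536870912 536870912 536870912 469762048 0) ndN2q1 ndN5q1 pcN0 Cut.none Ext.none)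

def k0_pm_101 : ∃ t, chk3 f_pm_101 t 1 1 1 = true :=
  ⟨(l 4), by decide +kernel⟩

theorem c_pm_101 : CertNX 536870912 536870912 536870912 469762048 1046898278 26843546 3 false true false .npn 1 0 1
    ndN2q1 ndN5q1 pcN0 Cut.none Ext.none :=
  certNX0 (fam := false) (s1 := true) (s2 := false) (a := 1) (b := 0) (c := 1) (cn := .npn) (n1 := ndN2q1) (n2 := ndN5q1) (pc := pcN0) (cut := Cut.none) (xt := Ext.none) (P1 := 536870912) (W1 := 536870912) (P2 := 536870912) (W2 := 469762048) (P3 := 1046898278) (W3 := 26843546) (N0 := 3)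
    rfl k0_pm_101

noncomputable def f_pm_102 : ℕ → ℕ → ℕ → ℕ → Bool := onCell 536870912 536870912 1073741824 536870912 1046898278 26843546
    (rowNX 3 0 false true false .npp 1 0 2 (qsf 536870912 536870912 1073741824 536870912 0) ndN2q1 ndN5q2 pcN0 Cut.none Ext.none)

def k0_pm_102 : ∃ t, chk3 f_pm_102 t 1 1 1 = true :=
  ⟨(a (l 4) (a (l 4) (a (b (l 4) (c (l 601527987719) (l 677226722727))) (a (b (l 4) (b (l 15266032) (l 15266032))) (b (b (l 4) (b (b (l 4) (l 13505112)) (b (l 14409176) (l 14859016)))) (b (l 14859648) (l 14859648))))))), by decide +kernel⟩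

theorem c_pm_102 : CertNX 536870912 536870912 1073741824 536870912 1046898278 26843546 3 false true false .npp 1 0 2
    ndN2q1 ndN5q2 pcN0 Cut.none Ext.none :=
  certNX0 (fam := false) (s1 := true) (s2 := false) (a := 1) (b := 0) (c := 2) (cn := .npp) (n1 := ndN2q1) (n2 := ndN5q2) (pc := pcN0) (cut := Cut.none) (xt := Ext.none) (P1 := 536870912) (W1 := 536870912) (P2 := 1073741824) (W2 := 536870912) (P3 := 1046898278) (W3 := 26843546) (N0 := 3)
    rfl k0_pm_102

noncomputable def f_pm_112 : ℕ → ℕ → ℕ → ℕ → Bool := onCell 536870912 536870912 1073741824 536870912 1046898278 26843546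
    (rowNX 3 2 false true false .dn 1 1 2 (qsf 536870912 536870912 1073741824 536870912 1) ndN2q1 ndN5q2 pcN1 Cut.none Ext.none)

def k0_pm_112 : ∃ t, chk3 f_pm_112 t 1 1 1 = true :=
  ⟨(a (b (l 4) (a (b (l 4) (a (b (l 16172024) (l 15468072)) (l 16360304))) (l 4))) (l 4)), by decide +kernel⟩

theorem c_pm_112 : CertNX 536870912 536870912 1073741824 536870912 1046898278 26843546 3 false true false .dn 1 1 2
    ndN2q1 ndN5q2 pcN1 Cut.none Ext.none :=
  certNX2 (fam := false) (s1 := true) (s2 := false) (a := 1) (b := 1) (c := 2) (cn := .dn) (n1 := ndN2q1) (n2 := ndN5q2) (pc := pcN1) (cut := Cut.none) (xt := Ext.none) (P1 := 536870912) (W1 := 536870912) (P2 := 1073741824) (W2 := 536870912) (P3 := 1046898278) (W3 := 26843546) (N0 := 3)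
    rfl (fun _ => rfl) k0_pm_112

noncomputable def f_pm_113 : ℕ → ℕ → ℕ → ℕ → Bool := onCell 536870912 536870912 0 1230186008 1046898278 26843546
    (rowNX 3 2 false true false .nn 1 1 3 (qsf 536870912 536870912 0 1230186008 1) ndN2q1 ndN5q3 pcN1 Cut.none Ext.none)

def k0_pm_113 : ∃ t, chk3 f_pm_113 t 1 2 1 = true :=
  ⟨(a (l 2) (a (l 2) (b (a (l 2) (a (l 2) (b (l 16478256) (l 15801840)))) (a (b (a (l 2) (l 13456648)) (a (l 13523496) (l 13560224))) (b (a (l 13771416) (l 13624688)) (a (l 13436200) (l 13006472))))))), by decide +kernel⟩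

def k1_pm_113 : ∃ t, chk3 f_pm_113 t 2 3 1 = true :=
  ⟨(b (a (l 2) (b (l 2) (a (l 2) (l 13899056)))) (a (b (l 2) (a (b (l 2) (l 14614032)) (b (l 14574248) (l 15421832)))) (b (b (l 396306059431) (a (a (l 14413176) (l 238466843831)) (a (l 15090928) (b (b (l 15363048) (l 15498888)) (l 15570016))))) (a (b (a (l 15166736) (l 15505848)) (l 16042336)) (b (a (l 15679576) (l 15846760)) (l 4)))))), by decide +kernel⟩

def k2_pm_113 : ∃ t, chk3 f_pm_113 t 6 3 1 = true :=
  ⟨(b (a (b (l 2) (a (l 14471816) (b (l 14455424) (l 14946264)))) (b (a (l 13971768) (l 14051080)) (b (l 14572344) (a (b (l 14922800) (b (a (l 15000912) (a (l 14980048) (l 14959960))) (a (a (l 15139552) (l 15093888)) (b (l 14926936) (l 14595264))))) (b (l 14813944) (a (b (a (a (l 14941344) (c (l 14966928) (l 14882792))) (c (l 14891064) (l 14803856))) (a (c (l 14433896) (l 14324424)) (l 14230672))) (b (b (c (l 14680592) (l 14376560)) (b (l 14485696) (l 14008112))) (l 14000616)))))))) (a (b (a (b (l 15354544) (b (b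 (l 15692552) (l 15686672)) (l 15585104))) (b (b (l 15213416) (b (l 15328176) (l 15375272))) (a (b (l 15487456) (l 15097416)) (l 15156360)))) (a (b (a (l 15918416) (l 15923840)) (l 4)) (l 4))) (b (a (b (a (b (l 14876864) (l 14724176)) (l 14329840)) (l 14696760)) (b (a (l 14005176) (l 13799920)) (l 14051008))) (l 4)))), by decide +kernel⟩

def k3_pm_113 : ∃ t, chk3 f_pm_113 t 7 3 1 = true :=
  ⟨(b (b (a (l 13830872) (a (l 13403496) (a (l 13022808) (l 12817272)))) (b (a (l 14072504) (a (l 13483272) (b (l 12895984) (a (l 12951984) (b (l 12700224) (c (l 12693496) (c (l 12641112) (a (l 12701208) (l 12537880))))))))) (a (b (a (b (l 14288216) (c (a (l 14345616) (a (l 14118432) (b (l 14130680) (a (l 14029208) (l 14016032))))) (a (b (l 14392224) (l 14156880)) (a (l 14020856) (a (a (l 13925792) (l 13913032)) (l 13908520)))))) (a (b (l 14025640) (a (b (c (l 13978224) (l 13878008)) (b (l 13786712) (l 13392712))) (c (l 13921176) (l 13808056)))) (c (c (l 13685336) (l 13833696)) (l 13738912))))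 (a (a (b (b (a (c (l 14476656) (l 14385280)) (b (l 14078856) (l 13587704))) (l 13694184)) (l 13477952)) (c (a (c (l 13917928) (l 13498864)) (l 13443904)) (a (l 13424704) (l 13344672)))) (c (a (c (l 13552848) (l 13490952)) (c (a (l 13473280) (l 13515848)) (l 13415928))) (a (l 13409408) (l 13285488))))) (a (c (c (a (l 13721112) (l 13366344)) (a (a (b (l 13730432) (l 13422480)) (c (l 13640696) (l 13609424))) (l 13389352))) (a (l 13596360) (c (c (a (l 13443944) (l 13303656)) (l 13339688)) (l 13292568)))) (c (a (l 12996024) (l 12712424)) (c (a (c (l 13035232) (a (l 13122232) (l 12949760))) (l 12665344)) (a (l 12991048) (c (l 12651768) (a (l 12731128) (l 12537648)))))))))) (b (b (a (a (a (l 13579360) (a (l 13412336) (l 13377464))) (c (c (a (l 13500152) (a (l 13500456) (l 4))) (l 13404616)) (l 13284472))) (l 4)) (l 4)) (l 4))), by decide +kernel⟩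

theorem s4_pm_113 : ∃ t, chk3 f_pm_113 t 3 3 1 = true := ex3_a k2_pm_113 k3_pm_113

theorem s5_pm_113 : ∃ t, chk3 f_pm_113 t 1 3 1 = true := ex3_a k1_pm_113 s4_pm_113

theorem s6_pm_113 : ∃ t, chk3 f_pm_113 t 1 1 1 = true := ex3_b k0_pm_113 s5_pm_113

theorem c_pm_113 : CertNX 536870912 536870912 0 1230186008 1046898278 26843546 3 false true false .nn 1 1 3
    ndN2q1 ndN5q3 pcN1 Cut.none Ext.none :=
  certNX2 (fam := false) (s1 := true) (s2 := false) (a := 1) (b := 1) (c := 3) (cn := .nn) (n1 := ndN2q1) (n2 := ndN5q3) (pc := pcN1) (cut := Cut.none) (xt := Ext.none) (P1 := 536870912) (W1 := 536870912) (P2 := 0) (W2 := 1230186008) (P3 := 1046898278) (W3 := 26843546) (N0 := 3)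
    rfl (fun _ => rfl) s6_pm_113

noncomputable def f_pm_123 : ℕ → ℕ → ℕ → ℕ → Bool := onCell 1073741824 536870912 0 1230186008 1046898278 26843546
    (rowNX 3 2 false true false .npn 1 2 3 (qsf 536870912 536870912 0 1230186008 2) ndN2q1 ndN5q3 pcN2 Cut.none Ext.none)

def k0_pm_123 : ∃ t, chk3 f_pm_123 t 1 1 1 = true :=
  ⟨(b (a (a (b (a (a (b (l 16213184) (l 15076240)) (c (l 15175072) (l 14626376))) (a (b (l 15695832) (l 15168032)) (l 15004456))) (a (b (a (c (l 14448736) (l 13970288)) (c (l 14396832) (l 14072512))) (a (c (l 13295248) (b (l 13006704) (l 12944800))) (c (l 13710440) (l 13517120)))) (b (a (l 14394872) (l 14343560)) (a (c (l 13956456) (l 13785360)) (l 14007664))))) (a (b (a (l 14815504) (l 15446000)) (a (b (l 14581536) (l 14453384)) (b (l 15163856) (l 15054616)))) (b (a (l 15918120) (l 16198528)) (a (b (l 15626400) (l 15474984)) (l 15822432))))) (a (b (a (l 16450528) (l 16735152)) (a (b (l 16319672) (l 16302392)) (l 27615655447))) (b (l 16892896) (l 4)))) (b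 (a (b (a (a (a (c (l 13014936) (c (l 12892800) (l 12794720))) (c (l 13352104) (l 13224616))) (a (a (l 13493384) (l 13637264)) (l 13834896))) (a (a (l 14442944) (l 15042304)) (l 4))) (a (b (a (c (a (l 12854320) (l 13173576)) (a (c (l 12756832) (l 12672120)) (l 13056080))) (b (l 4) (l 4))) (l 4)) (l 4))) (l 4)) (a (l 4) (l 1)))), by decide +kernel⟩

theorem c_pm_123 : CertNX 536870912 536870912 0 1230186008 1046898278 26843546 3 false true false .npn 1 2 3
    ndN2q1 ndN5q3 pcN2 Cut.none Ext.none :=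
  certNX2 (fam := false) (s1 := true) (s2 := false) (a := 1) (b := 2) (c := 3) (cn := .npn) (n1 := ndN2q1) (n2 := ndN5q3) (pc := pcN2) (cut := Cut.none) (xt := Ext.none) (P1 := 536870912) (W1 := 536870912) (P2 := 0) (W2 := 1230186008) (P3 := 1046898278) (W3 := 26843546) (N0 := 3)
    rfl (fun _ => rfl) k0_pm_123

noncomputable def f_pm_133 : ℕ → ℕ → ℕ → ℕ → Bool := onCell 1610612736 536870912 0 1230186008 1046898278 26843546
    (rowNX 3 2 false true false .dn 1 3 3 (qsf 536870912 536870912 0 1230186008 3) ndN2q1 ndN5q3 pcN3 Cut.none Ext.none)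

def k0_pm_133 : ∃ t, chk3 f_pm_133 t 1 1 1 = true :=
  ⟨(b (b (a (l 4) (l 1)) (l 1)) (l 1)), by decide +kernel⟩

theorem c_pm_133 : CertNX 536870912 536870912 0 1230186008 1046898278 26843546 3 false true false .dn 1 3 3
    ndN2q1 ndN5q3 pcN3 Cut.none Ext.none :=
  certNX2 (fam := false) (s1 := true) (s2 := false) (a := 1) (b := 3) (c := 3) (cn := .dn) (n1 := ndN2q1) (n2 := ndN5q3) (pc := pcN3) (cut := Cut.none) (xt := Ext.none) (P1 := 536870912) (W1 := 536870912) (P2 := 0) (W2 := 1230186008) (P3 := 1046898278) (W3 := 26843546) (N0 := 3)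
    rfl (fun _ => rfl) k0_pm_133

noncomputable def f_pm_202_a : ℕ → ℕ → ℕ → ℕ → Bool := onCell 0 420477299 0 536870912 1046898278 26843546
    (rowNX 3 1 false true false .pp 2 0 2 (qsf 0 420477299 1073741824 536870912 0) ndN2q2a ndN5q2 pcN0 Cut.none Ext.none)

def k0_pm_202_a : ∃ t, chk3 f_pm_202_a t 2 8 1 = true :=
  ⟨(a (l 3) (a (l 3) (a (l 3) (b (b (c (b (a (b (l 16097056) (l 16071400)) (b (l 16098408) (c (l 16136552) (l 16046928)))) (c (l 15861464) (l 184849278775))) (c (b (b (b (l 16075128) (a (l 16097832) (l 16103680))) (b (a (l 16086584) (b (l 16127416) (l 16141704))) (l 190218238135))) (b (l 15970952) (c (l 15944496) (c (l 15948704) (b (l 15975288) (l 15935152)))))) (b (c (b (b (l 16070056) (a (l 16096264) (c (l 16104072) (l 16083800)))) (b (a (l 16088968) (l 16035008)) (c (l 16095240) (l 15907712)))) (b (c (b (l 16005072) (l 16057736)) (b (c (l 16046968) (b (a (l 15954448) (l 16067160)) (l 16075744))) (c (b (a (l 15992544) (l 16096352)) (l 16108768)) (l 16097976))))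 (c (b (c (l 16047752) (b (a (l 16081232) (l 16138928)) (l 16029696))) (c (b (l 15982672) (l 16029632)) (l 16092120))) (l 16070712)))) (c (b (c (l 15890456) (c (b (l 16064392) (l 15931024)) (l 15782824))) (c (c (b (l 15978288) (l 15863096)) (b (l 15886392) (l 15915440))) (l 15936688))) (l 15980040))))) (a (l 3) (c (b (b (l 15841064) (c (l 15814112) (l 15816360))) (c (l 15691016) (b (l 15738248) (c (l 15656208) (l 15630080))))) (c (b (c (c (l 15875968) (b (l 15914824) (l 15669232))) (b (c (l 15857952) (b (c (l 15943616) (l 15927848)) (l 15876840))) (a (l 15682496) (c (l 15743624) (l 15828416))))) (c (b (c (l 15753688) (b (l 15760928) (l 15695240))) (c (l 15564696) (l 15621192))) (l 15666896))) (l 15750968))))) (a (l 3) (a (l 3) (b (c (c (b (l 15562048) (c (l 15427704) (l 15369544))) (b (c (b (l 15623880) (l 15544888)) (b (c (l 15619896) (l 15583256)) (l 15491464))) (c (b (l 15448304) (l 15330200)) (l 15350352)))) (l 15411208)) (l 3)))))))), by decide +kernel⟩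

def k1_pm_202_a : ∃ t, chk3 f_pm_202_a t 12 16 2 = true :=
  ⟨(b (b (b (a (l 16112672) (c (l 16115912) (l 16117712))) (c (a (l 16161816) (l 16185160)) (a (b (l 16143456) (l 16088136)) (c (l 16192232) (b (l 16187608) (l 16216392)))))) (c (a (b (a (b (l 16175496) (l 16157568)) (l 16161888)) (l 15964384)) (b (l 16129488) (a (l 16210856) (l 16298320)))) (b (a (a (l 16067168) (l 16094216)) (c (l 16221368) (l 16246200))) (a (a (l 16120016) (l 16104544)) (a (b (l 16294296) (l 16325760)) (l 16320352)))))) (b (a (c (b (l 15933992) (l 15887312)) (b (l 15940144) (l 15976272))) (a (c (b (b (l 16292984) (l 16263160)) (l 16180808)) (b (l 16235192) (l 16209568))) (b (c (l 16362432) (l 16384520)) (l 16164200)))) (c (a (b (l 15906312) (l 15822440)) (b (l 16086784) (l 16108896))) (c (a (l 15814032) (b (l 16152296) (l 16114872))) (c (a (l 15887624) (l 16077288)) (b (l 15961928) (a (b (l 15878064) (l 15804960)) (l 15973784)))))))), by decide +kernel⟩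

def k2_pm_202_a : ∃ t, chk3 f_pm_202_a t 12 32 3 = true :=
  ⟨(c (c (b (b (l 16075792) (a (a (l 16134816) (l 16149696)) (b (c (l 16193464) (l 16097520)) (a (l 16204280) (l 16223808))))) (b (a (a (l 16165800) (l 16218352)) (b (l 16220248) (l 16240608))) (a (l 16119232) (l 16318664)))) (a (b (b (l 15942688) (b (a (l 16142624) (l 16042424)) (l 16073976))) (b (b (l 16104328) (l 16197256)) (b (l 16162160) (c (l 16170624) (l 16152128))))) (b (b (l 16017536) (b (a (l 16042472) (l 16194160)) (l 16156288))) (b (l 16247376) (l 16302080))))) (b (c (b (b (l 16098776) (c (l 16030864) (l 15986264))) (a (b (l 16107656) (l 16162520)) (l 16125360))) (b (b (c (l 16084856) (l 16110944)) (l 16030808)) (a (b (l 16089056) (l 16057600)) (l 16203344)))) (c (a (b (c (a (l 16047144) (l 16243912)) (a (b (c (l 16209120) (l 16143688)) (l 16063432)) (l 16160376))) (c (b (c (l 16122344) (a (l 16148592) (l 16174272))) (c (l 16083664) (l 16161704))) (l 16175008))) (b (c (l 16252000) (l 16234352)) (b (l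 16311832) (a (l 16334000) (l 16350336))))) (a (b (l 16034912) (l 16172504)) (b (l 16257248) (l 16319120)))))), by decide +kernel⟩

def k3_pm_202_a : ∃ t, chk3 f_pm_202_a t 12 33 3 = true :=
  ⟨(b (c (c (a (b (l 16073920) (c (l 16011480) (b (l 16040712) (l 15910896)))) (a (b (l 16293952) (b (l 16237144) (l 16174192))) (b (l 16388824) (l 16357616)))) (b (c (a (l 15913080) (a (l 16234712) (l 16391352))) (a (b (c (l 16103616) (l 16070408)) (l 15959904)) (a (b (l 16320432) (l 16274920)) (l 16305848)))) (c (a (b (c (l 16034880) (l 16017528)) (l 15928136)) (b (c (l 16285888) (l 16213512)) (l 16159128))) (a (l 15986128) (l 16270760))))) (a (l 15990696) (b (a (l 16262712) (l 16386512)) (l 16246544)))) (c (c (b (b (c (a (l 15958968) (l 16228248)) (a (c (l 15947400) (l 15927216)) (c (l 16200656) (a (l 16135656) (l 16284528))))) (c (a (l 15846704) (l 16117696)) (a (l 15858256) (l 16100096)))) (c (a (c (b (l 15859976) (l 15794280)) (l 15750240)) (b (l 16003064) (l 16069984))) (l 15844600)))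 (l 15780408)) (l 15751344))), by decide +kernel⟩

def k4_pm_202_a : ∃ t, chk3 f_pm_202_a t 13 16 1 = true :=
  ⟨(b (c (b (b (a (c (l 16130560) (l 16127008)) (l 16040672)) (c (a (l 16223864) (l 16227608)) (b (l 16039312) (c (a (l 16256512) (l 16290560)) (a (c (l 16260640) (l 16194776)) (l 16297336)))))) (c (b (a (b (l 16271848) (l 16255776)) (b (l 16216264) (c (l 16357832) (l 16357944)))) (a (l 16287952) (c (l 16378720) (l 16352816)))) (b (b (c (a (l 16205392) (a (l 16233328) (l 16339944))) (a (l 16276504) (l 16313768))) (c (a (l 16301952) (l 16337352)) (l 16189464))) (c (a (l 16330080) (l 16352984)) (b (l 16317224) (l 16348616)))))) (b (c (b (l 16178728) (c (b (l 16244648) (c (l 16058432) (l 16260888))) (l 16139360))) (b (c (b (l 16170400) (l 16205104)) (b (c (l 16174080) (l 16133792)) (l 16203200))) (c (l 16242104) (l 16253136)))) (c (b (c (b (l 16198200) (l 16221432)) (l 16261776)) (l 16349736)) (c (l 16273528) (l 16346872))))) (c (b (c (a (b (l 16389224) (a (l 16280072)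 (l 16472296))) (b (l 16412000) (l 16479096))) (b (c (a (l 16398032) (l 16402936)) (l 16403784)) (a (l 16467024) (l 16495416)))) (c (a (a (l 16127744) (b (l 16436696) (l 16483992))) (b (l 16442816) (l 16388832))) (a (b (l 16227816) (c (l 16321624) (a (b (l 16363656) (l 16254720)) (l 16475304)))) (b (l 16430608) (c (l 16381408) (l 16376264)))))) (a (b (c (c (a (l 16198880) (l 16442168)) (b (l 16288808) (b (l 16305040) (l 16377016)))) (b (l 16414256) (a (l 16458960) (l 16467600)))) (c (b (c (a (l 16425432) (b (l 16421304) (l 16421744))) (l 16309912)) (b (l 16268344) (a (l 16255896) (l 16469144)))) (a (l 16329984) (b (l 16424544) (l 16479496))))) (b (c (l 16307728) (l 16489608)) (b (c (c (l 16314376) (l 16420192)) (l 16419104)) (a (c (b (l 16305136) (l 16361656)) (l 16370728)) (b (l 16358944) (l 16249568)))))))), by decide +kernel⟩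

def k5_pm_202_a : ∃ t, chk3 f_pm_202_a t 7 32 1 = true :=
  ⟨(c (a (b (c (a (l 16255624) (l 16381352)) (a (b (l 16228448) (b (l 16302256) (l 16262024))) (b (l 16356280) (l 16407672)))) (c (a (b (a (c (l 16366760) (b (l 16359856) (l 16389176))) (l 16416552)) (c (a (l 16423144) (l 16465624)) (l 16334192))) (b (l 16328536) (l 16532208))) (b (a (l 16313120) (l 16502384)) (a (c (a (l 16373504) (l 16423056)) (l 16388568)) (l 16522984))))) (b (b (l 16460312) (c (l 16507896) (a (l 16523200) (l 16345616)))) (c (b (b (l 16439504) (a (l 16461000) (l 16262824))) (l 16241504)) (b (c (l 16213608) (l 16435368)) (c (l 16400896) (l 16301200)))))) (b (a (c (b (a (l 16228160) (l 16378536)) (a (b (l 16203008) (c (l 16336848) (l 16317872))) (c (l 16451568) (l 16402288)))) (b (c (a (b (l 16241016) (l 16212848)) (b (l 16371872) (l 16406304))) (b (a (c (l 16244848) (l 16120792)) (c (l 16355392) (l 16357632))) (a (l 16253256) (l 16405784)))) (c (a (l 16250288) (l 16443520)) (a (l 16324288) (l 16455408)))))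 (c (b (l 16384792) (b (a (l 16554000) (l 16437168)) (c (l 16466856) (l 16478880)))) (b (c (b (l 16557512) (a (l 16564096) (l 16464192))) (b (c (l 16405120) (a (l 16475296) (l 16405992))) (l 16394760))) (c (l 16314744) (l 16470048))))) (a (c (b (a (c (l 16309416) (l 16357696)) (l 16423768)) (l 16248824)) (a (l 16395464) (l 16541424))) (c (b (c (l 16382576) (l 16394944)) (l 16336800)) (l 16188704))))), by decide +kernel⟩

def k6_pm_202_a : ∃ t, chk3 f_pm_202_a t 7 33 1 = true :=
  ⟨(c (b (b (a (c (a (c (l 16460792) (a (l 16422552) (l 16455528))) (c (l 16511232) (l 16504160))) (a (a (c (l 16407536) (l 16421632)) (l 16308712)) (l 16514704))) (c (l 16338520) (c (l 16262128) (l 16346600)))) (a (c (c (a (l 16494096) (l 16485184)) (a (l 16471384) (l 16402016))) (l 16296560)) (c (a (l 16387584) (l 16164864)) (l 16286832)))) (a (c (a (l 16383320) (l 16311192)) (a (l 16354640) (l 16340912))) (c (a (b (l 16334192) (l 16257544)) (l 16177360)) (l 16035464)))) (a (c (c (b (l 16259488) (a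 (l 16255760) (l 16314600))) (a (b (l 16501280) (l 16379264)) (l 16359456))) (a (l 16226680) (l 16350656))) (c (b (a (l 16331144) (l 16208248)) (l 16045664)) (l 16074696)))), by decide +kernel⟩

def k7_pm_202_a : ∃ t, chk3 f_pm_202_a t 6 34 2 = true :=
  ⟨(b (c (a (a (c (l 15641480) (l 15718112)) (l 15955632)) (a (a (l 16116824) (l 16149848)) (b (l 16220912) (l 16447400)))) (b (a (c (l 15670416) (c (a (b (l 15756632) (l 15743624)) (l 16030840)) (a (b (l 15679816) (l 15642568)) (l 16008584)))) (c (a (l 16270488) (l 16381328)) (a (a (c (l 16252208) (b (l 16262088) (l 16209216))) (l 16409128)) (c (l 16296048) (l 16192888))))) (c (a (a (c (l 15704328) (b (l 15594528) (l 15662584))) (l 15886688)) (a (a (l 16105056) (c (l 16331352) (l 16324704))) (l 16440568))) (a (c (a (c (l 15491344) (l 15517280)) (l 15920032)) (l 15770584)) (a (c (a (l 16146408) (l 16246192)) (l 16220024)) (l 16425752)))))) (c (a (c (a (l 15574960) (l 15819568)) (b (c (l 15749936) (a (l 15379896) (l 15773712)))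 (c (b (l 15703136) (a (l 15540056) (l 15659072))) (b (a (l 15563552) (l 15728360)) (l 15628216))))) (c (a (l 16118688) (l 16363136)) (a (b (l 16106144) (l 15912832)) (b (l 16267960) (c (l 16227896) (l 16197032)))))) (c (a (b (b (a (c (l 15475528) (l 15387848)) (l 15837808)) (c (l 15566208) (a (l 15373240) (l 15712616)))) (c (b (a (l 15510968) (l 15600048)) (a (l 15453024) (l 15564016))) (l 15588376))) (a (b (c (l 16056376) (l 15992816)) (l 15940592)) (a (b (c (l 16405696) (l 16327536)) (c (l 16279432) (l 16292432))) (l 16447456)))) (a (l 15497704) (a (l 16083160) (l 16427864)))))), by decide +kernel⟩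

def k8_pm_202_a : ∃ t, chk3 f_pm_202_a t 6 35 2 = true :=
  ⟨(c (a (c (b (b (b (l 142972588711) (c (l 15593504) (c (l 15474752) (l 15359120)))) (c (b (a (l 15439592) (l 15534576)) (a (l 15396096) (a (l 15573536) (l 15703064)))) (a (l 15376104) (l 15436152)))) (b (c (a (l 15301224) (l 15547968)) (a (a (l 15190616) (l 15308640)) (a (l 15310960) (b (l 15597288) (l 15542576))))) (c (a (a (l 15117248) (l 15233240)) (b (c (l 15462680) (l 15419704)) (c (l 15150968) (l 15393280)))) (l 15293448)))) (b (b (c (a (l 15452096) (l 15447744)) (a (b (l 15430512) (l 15373192)) (a (b (l 15620888) (l 15565368)) (l 15734840)))) (c (a (a (l 15265976) (l 15385832)) (a (b (l 15540992) (l 15485704)) (l 15652800))) (l 15443096))) (l 15198912))) (b (c (a (b (l 16010400) (l 15836584)) (b (l 16080880) (a (l 16135568) (c (l 16338000) (l 16322288))))) (a (b (c (l 15992880) (l 15963216)) (l 15852560)) (b (c (l 16195496) (a (l 16211976) (l 16347272))) (c (a (l 16123536) (l 16301432)) (l 16204992))))) (c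 (b (c (l 15865816) (a (l 15795736) (l 16062568))) (c (b (l 15735112) (l 15619736)) (l 15865056))) (l 15840336)))) (a (a (l 15192640) (l 15338912)) (a (l 15811304) (b (l 16183432) (l 16061448))))), by decide +kernel⟩

def k9_pm_202_a : ∃ t, chk3 f_pm_202_a t 6 17 3 = true :=
  ⟨(b (a (c (b (l 15637568) (l 15547208)) (l 12513042999)) (b (a (c (l 16136328) (l 16109016)) (b (a (l 16423816) (c (l 16290448) (l 16312000))) (l 16445704))) (a (l 16071032) (l 16298016)))) (a (a (l 15217112) (l 15475400)) (a (l 15788696) (b (l 16172872) (l 16045696))))), by decide +kernel⟩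

def k10_pm_202_a : ∃ t, chk3 f_pm_202_a t 7 34 1 = true :=
  ⟨(a (c (c (a (b (a (l 16133976) (l 16277248)) (a (b (l 16276632) (l 16386552)) (b (l 16177416) (l 16172184)))) (b (l 16218520) (b (l 16109232) (c (l 16047312) (l 15997944))))) (b (a (c (b (l 16305352) (a (l 16262168) (l 16224344))) (b (a (l 16220800) (l 16281184)) (a (l 16239536) (l 16219224)))) (l 15930136)) (a (a (c (b (l 16293144) (l 16391776)) (l 16344672)) (b (c (l 16065800) (l 16167840)) (l 16190416))) (c (b (b (l 16109752) (l 16078656)) (l 15908520)) (l 16068104))))) (a (b (a (b (l 16189888) (c (l 16249608) (l 16248272))) (c (l 16212072) (l 16251600))) (a (l 16339112) (b (l 16068264) (l 16179640)))) (b (l 16006792) (a (l 15838784) (l 16023136))))) (c (c (b (l 15827152) (a (l 15980952) (l 15866304))) (b (c (l 15942312) (a (l 16089416) (l 15949176))) (c (a (l 15944976) (l 15838864)) (l 15881440)))) (c (a (l 15961168) (l 15876432)) (l 15820952)))), by decide +kernel⟩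

def k11_pm_202_a : ∃ t, chk3 f_pm_202_a t 7 35 1 = true :=
  ⟨(a (a (c (c (a (b (a (b (l 16526008) (c (l 16398552) (l 16436768))) (l 16299904)) (c (b (c (l 16417768) (l 16335424)) (b (l 16305528) (l 16261568))) (l 16345528))) (b (c (l 16303616) (l 16201744)) (b (l 16452496) (b (l 16548048) (l 16352464))))) (b (l 16271080) (l 16327448))) (b (l 16204152) (l 16197112))) (c (b (c (b (c (l 15768104) (a (l 16064632) (l 15947616))) (c (l 15812536) (l 15814112))) (a (l 16104168) (b (l 15938424) (l 15924520)))) (c (c (b (l 15967112) (l 16092712)) (l 16125712)) (l 16119400))) (b (a (l 16090352) (b (l 15914648) (l 15904928))) (l 16064520)))) (c (b (c (c (a (b (l 15879952) (l 15811112)) (l 15723704)) (a (b (b (l 15883232) (l 15851512)) (l 15802856)) (l 15702976))) (a (l 15823472) (l 15680632))) (c (a (b (c (a (l 15798816) (l 15715760)) (l 15753568)) (a (l 15830144) (l 15656192))) (b (l 15611000) (c (l 15510720) (l 15542472)))) (a (a (l 15811320) (l 15656296)) (l 15562976)))) (a (b (l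 15803320) (a (l 15788352) (l 15488656))) (b (l 15672360) (l 15533824))))), by decide +kernel⟩

def k12_pm_202_a : ∃ t, chk3 f_pm_202_a t 2 9 1 = true :=
  ⟨(l 3), by decide +kernel⟩

def k13_pm_202_a : ∃ t, chk3 f_pm_202_a t 6 18 1 = true :=
  ⟨(b (a (c (b (a (c (l 15039824) (l 15009880)) (c (a (l 15248680) (l 15404904)) (l 15306048))) (a (a (l 14832752) (l 14968776)) (l 15163448))) (b (a (l 14963976) (l 15268448)) (a (l 14837008) (l 15172552)))) (c (b (a (b (l 15644024) (l 15547040)) (l 15959920)) (a (a (c (l 15509664) (l 15488136)) (l 15698064)) (l 16012488))) (b (a (l 15431352) (l 15977712)) (a (a (l 15455192) (l 15661856)) (l 15988064))))) (a (a (c (b (l 14844360) (a (l 3) (l 14859496))) (b (l 14775800) (l 14760000))) (c (c (l 15140304) (l 15111568)) (l 15067632))) (c (a (b (a (l 15438720) (l 15636384)) (a (l 15364392) (l 15502208))) (b (l 15965352) (l 15891144))) (a (b (l 15387704) (l 15429736)) (l 15767576))))), by decide +kernel⟩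

def k14_pm_202_a : ∃ t, chk3 f_pm_202_a t 7 18 1 = true :=
  ⟨(b (a (c (b (a (a (l 16278520) (b (l 16505576) (l 16560296))) (a (b (l 16383016) (l 16359560)) (l 16126136))) (a (a (l 16347688) (l 16600600)) (a (b (l 16334152) (l 16324920)) (b (l 16086224) (l 16053840))))) (b (a (a (l 16286640) (l 16421744)) (a (l 16318584) (l 16107104))) (a (l 16241104) (a (l 16278200) (l 16049512))))) (c (a (b (b (l 15616912) (l 15722784)) (l 15692032)) (a (b (b (l 15465104) (l 15354816)) (l 15285416)) (b (b (l 15397024) (l 15249000)) (b (l 15102392) (l 15003056))))) (a (b (l 15516912) (l 15655416)) (b (a (b (l 15417776) (l 15306360)) (l 15268088)) (a (l 15233904) (l 15007312)))))) (a (c (a (a (b (l 16352224) (l 16324512)) (b (l 16631136) (l 16600728))) (a (b (l 16337496) (l 16359352)) (b (l 15844224) (l 16052632)))) (a (a (l 16265960) (l 16503760)) (b (l 15933448) (l 16135488)))) (a (a (c (b (c (l 15757280) (l 15739840)) (c (l 15721576) (l 15703144))) (b (l 15713160) (l 15674952))) (b (l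 15341520) (c (c (l 15413592) (l 15389592)) (l 15352904)))) (c (b (l 15083104) (l 14994256)) (l 14939632))))), by decide +kernel⟩

def k15_pm_202_a : ∃ t, chk3 f_pm_202_a t 3 19 1 = true :=
  ⟨(a (a (a (b (c (l 14990344) (l 14948144)) (l 15276528)) (b (b (c (c (l 15041736) (l 15075016)) (l 15029720)) (l 15149152)) (c (l 15357432) (l 15306688)))) (b (b (c (a (a (l 15299784) (l 15498000)) (a (l 15591264) (l 15990632))) (a (l 15276112) (l 15585696))) (a (c (l 15288880) (l 15301168)) (a (c (l 15565824) (l 15523072)) (l 15801128)))) (b (a (l 15380048) (c (a (l 15502136) (l 15536032)) (a (l 15456960) (l 15600776)))) (c (l 15428784) (l 15511192))))) (a (b (b (c (a (a (l 16185112) (l 16411680)) (a (l 16282032) (l 16004504))) (a (a (l 16252256) (l 16532672)) (l 16011760))) (a (c (l 16033376) (l 16057360)) (a (l 16602248) (l 16302624)))) (a (a (b (l 15859488) (l 15739464)) (b (l 16154624) (l 15958264))) (a (l 16170128) (l 16444200)))) (b (b (c (a (a (l 15581344) (b (l 15358096) (l 15383616)))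 (a (b (l 15045488) (c (l 15029800) (l 14998688))) (l 14751512))) (a (b (l 15500984) (l 15532960)) (a (b (l 14983616) (l 14951120)) (l 14678992)))) (a (l 15687616) (a (l 15154624) (l 14714648)))) (a (b (l 15896512) (l 16044192)) (b (a (l 15446568) (l 15035088)) (l 15495872)))))), by decide +kernel⟩

def k16_pm_202_a : ∃ t, chk3 f_pm_202_a t 1 5 1 = true :=
  ⟨(a (l 3) (b (a (a (b (c (l 15607368) (l 15587160)) (c (l 16002816) (l 15975112))) (b (b (c (l 15659008) (l 15619256)) (l 15789336)) (c (l 16084888) (l 16060200)))) (a (b (a (b (a (c (l 15775256) (l 15739904)) (l 15902672)) (c (a (l 15886320) (l 15968048)) (a (l 15854864) (l 15939664)))) (b (b (c (l 16071544) (l 16095344)) (l 16159224)) (l 16177584))) (a (c (l 16024400) (l 16003776)) (b (c (l 16271968) (l 16254840)) (c (l 16414488) (l 16402440))))) (b (b (a (b (l 16259008) (a (l 16408336) (l 16541688))) (c (l 15681856) (l 15714224))) (a (a (l 16414120) (l 16366952)) (b (c (l 16016504) (l 16019936)) (a (l 16532568) (l 16196896)))))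 (a (l 16404504) (a (l 16503528) (l 16262848)))))) (a (a (l 3) (b (c (l 16285072) (l 16356816)) (b (b (l 16623472) (l 16623920)) (l 16614008)))) (b (a (b (c (l 16329096) (l 16320232)) (a (l 16509424) (l 16649888))) (a (b (l 16597328) (l 16285408)) (l 16234736))) (a (b (a (c (l 16738136) (l 16736880)) (c (l 16632728) (l 16627744))) (a (l 16747840) (l 16620104))) (b (a (c (l 16403208) (l 16390064)) (l 16133624)) (c (l 16271552) (l 16253744)))))))), by decide +kernel⟩

def k17_pm_202_a : ∃ t, chk3 f_pm_202_a t 1 3 1 = true :=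
  ⟨(a (l 3) (b (a (a (l 3) (b (c (l 16616824) (l 16611200)) (l 104320250631))) (b (a (c (a (l 16748360) (l 16622824)) (a (l 16747344) (l 16617384))) (c (b (l 16208640) (l 16271552)) (b (l 16211800) (l 16253744)))) (a (c (a (l 16748360) (l 16622824)) (a (l 16747344) (l 16617384))) (c (l 16208640) (l 16232768))))) (a (l 3) (a (b (a (l 16642984) (l 16536216)) (l 2)) (b (c (l 16271552) (l 16253744)) (c (l 16271552) (l 16253744))))))), by decide +kernel⟩

theorem s18_pm_202_a : ∃ t, chk3 f_pm_202_a t 3 18 1 = true := ex3_a k13_pm_202_a k14_pm_202_a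

theorem s19_pm_202_a : ∃ t, chk3 f_pm_202_a t 3 9 1 = true := ex3_b s18_pm_202_a k15_pm_202_a

theorem s20_pm_202_a : ∃ t, chk3 f_pm_202_a t 1 9 1 = true := ex3_a k12_pm_202_a s19_pm_202_a

theorem s21_pm_202_a : ∃ t, chk3 f_pm_202_a t 7 17 1 = true := ex3_b k10_pm_202_a k11_pm_202_a

theorem s22_pm_202_a : ∃ t, chk3 f_pm_202_a t 6 17 2 = true := ex3_b k7_pm_202_a k8_pm_202_a

theorem s23_pm_202_a : ∃ t, chk3 f_pm_202_a t 6 17 1 = true := ex3_c s22_pm_202_a k9_pm_202_a

theorem s24_pm_202_a : ∃ t, chk3 f_pm_202_a t 3 17 1 = true := ex3_a s23_pm_202_a s21_pm_202_a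

theorem s25_pm_202_a : ∃ t, chk3 f_pm_202_a t 7 16 1 = true := ex3_b k5_pm_202_a k6_pm_202_a

theorem s26_pm_202_a : ∃ t, chk3 f_pm_202_a t 12 16 3 = true := ex3_b k2_pm_202_a k3_pm_202_a

theorem s27_pm_202_a : ∃ t, chk3 f_pm_202_a t 12 16 1 = true := ex3_c k1_pm_202_a s26_pm_202_a

theorem s28_pm_202_a : ∃ t, chk3 f_pm_202_a t 6 16 1 = true := ex3_a s27_pm_202_a k4_pm_202_a

theorem s29_pm_202_a : ∃ t, chk3 f_pm_202_a t 3 16 1 = true := ex3_a s28_pm_202_a s25_pm_202_a

theorem s30_pm_202_a : ∃ t, chk3 f_pm_202_a t 3 8 1 = true := ex3_b s29_pm_202_a s24_pm_202_a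

theorem s31_pm_202_a : ∃ t, chk3 f_pm_202_a t 1 8 1 = true := ex3_a k0_pm_202_a s30_pm_202_a

theorem s32_pm_202_a : ∃ t, chk3 f_pm_202_a t 1 4 1 = true := ex3_b s31_pm_202_a s20_pm_202_a

theorem s33_pm_202_a : ∃ t, chk3 f_pm_202_a t 1 2 1 = true := ex3_b s32_pm_202_a k16_pm_202_a

theorem s34_pm_202_a : ∃ t, chk3 f_pm_202_a t 1 1 1 = true := ex3_b s33_pm_202_a k17_pm_202_a

theorem c_pm_202_a : CertNX 0 420477299 1073741824 536870912 1046898278 26843546 3 false true false .pp 2 0 2
    ndN2q2a ndN5q2 pcN0 Cut.none Ext.none :=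
  certNX1 (fam := false) (s1 := true) (s2 := false) (a := 2) (b := 0) (c := 2) (cn := .pp) (n1 := ndN2q2a) (n2 := ndN5q2) (pc := pcN0) (cut := Cut.none) (xt := Ext.none) (P1 := 0) (W1 := 420477299) (P2 := 1073741824) (W2 := 536870912) (P3 := 1046898278) (W3 := 26843546) (N0 := 3)
    rfl (fun _ => rfl) s34_pm_202_a

noncomputable def f_pm_202_b : ℕ → ℕ → ℕ → ℕ → Bool := onCell 1239849684 370763052 0 536870912 1046898278 26843546
    (rowNX 3 1 false true false .pp 2 0 2 (qsf 1239849684 370763052 1073741824 536870912 0) ndN2q2b ndN5q2 pcN0 Cut.none Ext.none)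

def k0_pm_202_b : ∃ t, chk3 f_pm_202_b t 1 1 1 = true :=
  ⟨(b (l 3) (l 3)), by decide +kernel⟩

theorem c_pm_202_b : CertNX 1239849684 370763052 1073741824 536870912 1046898278 26843546 3 false true false .pp 2 0 2
    ndN2q2b ndN5q2 pcN0 Cut.none Ext.none :=
  certNX1 (fam := false) (s1 := true) (s2 := false) (a := 2) (b := 0) (c := 2) (cn := .pp) (n1 := ndN2q2b) (n2 := ndN5q2) (pc := pcN0) (cut := Cut.none) (xt := Ext.none) (P1 := 1239849684) (W1 := 370763052) (P2 := 1073741824) (W2 := 536870912) (P3 := 1046898278) (W3 := 26843546) (N0 := 3)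
    rfl (fun _ => rfl) k0_pm_202_b

noncomputable def f_pm_203_a : ℕ → ℕ → ℕ → ℕ → Bool := onCell 0 420477299 0 1230186008 1046898278 26843546
    (rowNX 3 0 false true false .up 2 0 3 (qsf 0 420477299 0 1230186008 0) ndN2q2a ndN5q3 pcN0 Cut.none Ext.none)

def k0_pm_203_a : ∃ t, chk3 f_pm_203_a t 1 1 1 = true :=
  ⟨(b (l 2) (b (l 2) (a (l 3) (b (a (l 3) (l 2)) (a (l 3) (a (b (c (l 16651656) (l 16649440)) (c (a (l 16748360) (l 16622824)) (a (l 16747344) (l 16617384)))) (b (c (l 16124752) (l 16085968)) (c (a (l 16400872) (l 16144392)) (a (l 16387616) (l 16122104)))))))))), by decide +kernel⟩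

theorem c_pm_203_a : CertNX 0 420477299 0 1230186008 1046898278 26843546 3 false true false .up 2 0 3
    ndN2q2a ndN5q3 pcN0 Cut.none Ext.none :=
  certNX0 (fam := false) (s1 := true) (s2 := false) (a := 2) (b := 0) (c := 3) (cn := .up) (n1 := ndN2q2a) (n2 := ndN5q3) (pc := pcN0) (cut := Cut.none) (xt := Ext.none) (P1 := 0) (W1 := 420477299) (P2 := 0) (W2 := 1230186008) (P3 := 1046898278) (W3 := 26843546) (N0 := 3)
    rfl k0_pm_203_a

noncomputable def f_pm_203_b : ℕ → ℕ → ℕ → ℕ → Bool := onCell 1239849684 370763052 0 1230186008 1046898278 26843546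
    (rowNX 3 0 false true false .up 2 0 3 (qsf 1239849684 370763052 0 1230186008 0) ndN2q2b ndN5q3 pcN0 Cut.none Ext.none)

def k0_pm_203_b : ∃ t, chk3 f_pm_203_b t 1 1 1 = true :=
  ⟨(b (l 3) (b (l 3) (l 3))), by decide +kernel⟩

theorem c_pm_203_b : CertNX 1239849684 370763052 0 1230186008 1046898278 26843546 3 false true false .up 2 0 3
    ndN2q2b ndN5q3 pcN0 Cut.none Ext.none :=
  certNX0 (fam := false) (s1 := true) (s2 := false) (a := 2) (b := 0) (c := 3) (cn := .up) (n1 := ndN2q2b) (n2 := ndN5q3) (pc := pcN0) (cut := Cut.none) (xt := Ext.none) (P1 := 1239849684) (W1 := 370763052) (P2 := 0) (W2 := 1230186008) (P3 := 1046898278) (W3 := 26843546) (N0 := 3)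
    rfl k0_pm_203_b

noncomputable def f_pm_213_a : ℕ → ℕ → ℕ → ℕ → Bool := onCell 0 420477299 0 1230186008 1046898278 26843546
    (rowNX 3 0 false true false .pnn 2 1 3 (qsf 0 420477299 0 1230186008 1) ndN2q2a ndN5q3 pcN1 Cut.none Ext.none)

def k0_pm_213_a : ∃ t, chk3 f_pm_213_a t 1 1 1 = true :=
  ⟨(b (b (l 3) (l 3)) (b (a (l 3) (a (l 3) (b (l 3) (a (l 3) (b (l 3) (l 364164718023)))))) (a (l 3) (b (a (l 3) (a (l 3) (b (a (l 3) (l 16133224)) (c (l 16187664) (l 16148880))))) (a (l 3) (a (b (c (l 16651656) (l 16649440)) (l 1)) (b (c (l 16124752) (l 16085968)) (c (l 296921654135) (l 286721071175))))))))), by decide +kernel⟩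

theorem c_pm_213_a : CertNX 0 420477299 0 1230186008 1046898278 26843546 3 false true false .pnn 2 1 3
    ndN2q2a ndN5q3 pcN1 Cut.none Ext.none :=
  certNX0 (fam := false) (s1 := true) (s2 := false) (a := 2) (b := 1) (c := 3) (cn := .pnn) (n1 := ndN2q2a) (n2 := ndN5q3) (pc := pcN1) (cut := Cut.none) (xt := Ext.none) (P1 := 0) (W1 := 420477299) (P2 := 0) (W2 := 1230186008) (P3 := 1046898278) (W3 := 26843546) (N0 := 3)
    rfl k0_pm_213_a

noncomputable def f_pm_213_b : ℕ → ℕ → ℕ → ℕ → Bool := onCell 1239849684 370763052 0 1230186008 1046898278 26843546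
    (rowNX 3 0 false true false .pnn 2 1 3 (qsf 1239849684 370763052 0 1230186008 1) ndN2q2b ndN5q3 pcN1 Cut.none Ext.none)

def k0_pm_213_b : ∃ t, chk3 f_pm_213_b t 1 1 1 = true :=
  ⟨(b (l 3) (b (l 3) (l 3))), by decide +kernel⟩

theorem c_pm_213_b : CertNX 1239849684 370763052 0 1230186008 1046898278 26843546 3 false true false .pnn 2 1 3
    ndN2q2b ndN5q3 pcN1 Cut.none Ext.none :=
  certNX0 (fam := false) (s1 := true) (s2 := false) (a := 2) (b := 1) (c := 3) (cn := .pnn) (n1 := ndN2q2b) (n2 := ndN5q3) (pc := pcN1) (cut := Cut.none) (xt := Ext.none) (P1 := 1239849684) (W1 := 370763052) (P2 := 0) (W2 := 1230186008) (P3 := 1046898278) (W3 := 26843546) (N0 := 3)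
    rfl k0_pm_213_b

noncomputable def f_pm_303 : ℕ → ℕ → ℕ → ℕ → Bool := onCell 1610612736 469762048 0 1230186008 1046898278 26843546
    (rowNX 3 0 false true false .npn 3 0 3 (qsf 1610612736 469762048 0 1230186008 0) ndN2q3 ndN5q3 pcN0 Cut.none Ext.none)

def k0_pm_303 : ∃ t, chk3 f_pm_303 t 1 1 1 = true :=
  ⟨(b (l 3) (l 3)), by decide +kernel⟩

theorem c_pm_303 : CertNX 1610612736 469762048 0 1230186008 1046898278 26843546 3 false true false .npn 3 0 3
    ndN2q3 ndN5q3 pcN0 Cut.none Ext.none :=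
  certNX0 (fam := false) (s1 := true) (s2 := false) (a := 3) (b := 0) (c := 3) (cn := .npn) (n1 := ndN2q3) (n2 := ndN5q3) (pc := pcN0) (cut := Cut.none) (xt := Ext.none) (P1 := 1610612736) (W1 := 469762048) (P2 := 0) (W2 := 1230186008) (P3 := 1046898278) (W3 := 26843546) (N0 := 3)
    rfl k0_pm_303

noncomputable def f_pm_313 : ℕ → ℕ → ℕ → ℕ → Bool := onCell 1610612736 469762048 0 1230186008 1046898278 26843546
    (rowNX 3 0 false true false .dn 3 1 3 (qsf 1610612736 469762048 0 1230186008 1) ndN2q3 ndN5q3 pcN1 Cut.none Ext.none)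

def k0_pm_313 : ∃ t, chk3 f_pm_313 t 1 1 1 = true :=
  ⟨(b (l 3) (l 1)), by decide +kernel⟩

theorem c_pm_313 : CertNX 1610612736 469762048 0 1230186008 1046898278 26843546 3 false true false .dn 3 1 3
    ndN2q3 ndN5q3 pcN1 Cut.none Ext.none :=
  certNX0 (fam := false) (s1 := true) (s2 := false) (a := 3) (b := 1) (c := 3) (cn := .dn) (n1 := ndN2q3) (n2 := ndN5q3) (pc := pcN1) (cut := Cut.none) (xt := Ext.none) (P1 := 1610612736) (W1 := 469762048) (P2 := 0) (W2 := 1230186008) (P3 := 1046898278) (W3 := 26843546) (N0 := 3)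
    rfl k0_pm_313

noncomputable def f_mm_001 : ℕ → ℕ → ℕ → ℕ → Bool := onCell 67108864 469762048 536870912 469762048 1046898278 26843546
    (rowNX 3 0 false false false .up 0 0 1 (qsf 67108864 469762048 536870912 469762048 0) ndN2q0 ndN5q1 pcN0 Cut.none Ext.none)

def k0_mm_001 : ∃ t, chk3 f_mm_001 t 1 1 1 = true :=
  ⟨(l 3), by decide +kernel⟩

theorem c_mm_001 : CertNX 67108864 469762048 536870912 469762048 1046898278 26843546 3 false false false .up 0 0 1
    ndN2q0 ndN5q1 pcN0 Cut.none Ext.none :=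
  certNX0 (fam := false) (s1 := false) (s2 := false) (a := 0) (b := 0) (c := 1) (cn := .up) (n1 := ndN2q0) (n2 := ndN5q1) (pc := pcN0) (cut := Cut.none) (xt := Ext.none) (P1 := 67108864) (W1 := 469762048) (P2 := 536870912) (W2 := 469762048) (P3 := 1046898278) (W3 := 26843546) (N0 := 3)
    rfl k0_mm_001

noncomputable def f_mm_011 : ℕ → ℕ → ℕ → ℕ → Bool := onCell 67108864 469762048 536870912 469762048 1046898278 26843546
    (rowNX 3 0 false false false .pnn 0 1 1 (qsf 67108864 469762048 536870912 469762048 1) ndN2q0 ndN5q1 pcN1 Cut.none Ext.none)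

def k0_mm_011 : ∃ t, chk3 f_mm_011 t 1 1 1 = true :=
  ⟨(l 3), by decide +kernel⟩

theorem c_mm_011 : CertNX 67108864 469762048 536870912 469762048 1046898278 26843546 3 false false false .pnn 0 1 1
    ndN2q0 ndN5q1 pcN1 Cut.none Ext.none :=
  certNX0 (fam := false) (s1 := false) (s2 := false) (a := 0) (b := 1) (c := 1) (cn := .pnn) (n1 := ndN2q0) (n2 := ndN5q1) (pc := pcN1) (cut := Cut.none) (xt := Ext.none) (P1 := 67108864) (W1 := 469762048) (P2 := 536870912) (W2 := 469762048) (P3 := 1046898278) (W3 := 26843546) (N0 := 3)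
    rfl k0_mm_011

noncomputable def f_mm_012 : ℕ → ℕ → ℕ → ℕ → Bool := onCell 67108864 469762048 1073741824 536870912 1046898278 26843546
    (rowNX 3 0 false false false .pnp 0 1 2 (qsf 67108864 469762048 1073741824 536870912 1) ndN2q0 ndN5q2 pcN1 Cut.none Ext.none)

def k0_mm_012 : ∃ t, chk3 f_mm_012 t 1 1 1 = true :=
  ⟨(l 5), by decide +kernel⟩

theorem c_mm_012 : CertNX 67108864 469762048 1073741824 536870912 1046898278 26843546 3 false false false .pnp 0 1 2
    ndN2q0 ndN5q2 pcN1 Cut.none Ext.none :=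
  certNX0 (fam := false) (s1 := false) (s2 := false) (a := 0) (b := 1) (c := 2) (cn := .pnp) (n1 := ndN2q0) (n2 := ndN5q2) (pc := pcN1) (cut := Cut.none) (xt := Ext.none) (P1 := 67108864) (W1 := 469762048) (P2 := 1073741824) (W2 := 536870912) (P3 := 1046898278) (W3 := 26843546) (N0 := 3)
    rfl k0_mm_012

noncomputable def f_mm_022 : ℕ → ℕ → ℕ → ℕ → Bool := onCell 67108864 469762048 1073741824 536870912 1046898278 26843546
    (rowNX 3 0 false false false .pp 0 2 2 (qsf 67108864 469762048 1073741824 536870912 2) ndN2q0 ndN5q2 pcN2 Cut.none Ext.none)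

def k0_mm_022 : ∃ t, chk3 f_mm_022 t 1 1 1 = true :=
  ⟨(l 5), by decide +kernel⟩

theorem c_mm_022 : CertNX 67108864 469762048 1073741824 536870912 1046898278 26843546 3 false false false .pp 0 2 2
    ndN2q0 ndN5q2 pcN2 Cut.none Ext.none :=
  certNX0 (fam := false) (s1 := false) (s2 := false) (a := 0) (b := 2) (c := 2) (cn := .pp) (n1 := ndN2q0) (n2 := ndN5q2) (pc := pcN2) (cut := Cut.none) (xt := Ext.none) (P1 := 67108864) (W1 := 469762048) (P2 := 1073741824) (W2 := 536870912) (P3 := 1046898278) (W3 := 26843546) (N0 := 3)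
    rfl k0_mm_022

noncomputable def f_mm_023 : ℕ → ℕ → ℕ → ℕ → Bool := onCell 67108864 469762048 0 1230186008 1046898278 26843546
    (rowNX 3 0 false false false .up 0 2 3 (qsf 67108864 469762048 0 1230186008 2) ndN2q0 ndN5q3 pcN2 Cut.none Ext.none)

def k0_mm_023 : ∃ t, chk3 f_mm_023 t 1 1 1 = true :=
  ⟨(l 5), by decide +kernel⟩

theorem c_mm_023 : CertNX 67108864 469762048 0 1230186008 1046898278 26843546 3 false false false .up 0 2 3
    ndN2q0 ndN5q3 pcN2 Cut.none Ext.none :=
  certNX0 (fam := false) (s1 := false) (s2 := false) (a := 0) (b := 2) (c := 3) (cn := .up) (n1 := ndN2q0) (n2 := ndN5q3) (pc := pcN2) (cut := Cut.none) (xt := Ext.none) (P1 := 67108864) (W1 := 469762048) (P2 := 0) (W2 := 1230186008) (P3 := 1046898278) (W3 := 26843546) (N0 := 3)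
    rfl k0_mm_023

noncomputable def f_mm_033 : ℕ → ℕ → ℕ → ℕ → Bool := onCell 67108864 469762048 0 1230186008 1046898278 26843546
    (rowNX 3 0 false false false .pnn 0 3 3 (qsf 67108864 469762048 0 1230186008 3) ndN2q0 ndN5q3 pcN3 Cut.none Ext.none)

def k0_mm_033 : ∃ t, chk3 f_mm_033 t 1 1 1 = true :=
  ⟨(l 5), by decide +kernel⟩

theorem c_mm_033 : CertNX 67108864 469762048 0 1230186008 1046898278 26843546 3 false false false .pnn 0 3 3
    ndN2q0 ndN5q3 pcN3 Cut.none Ext.none :=
  certNX0 (fam := false) (s1 := false) (s2 := false) (a := 0) (b := 3) (c := 3) (cn := .pnn) (n1 := ndN2q0) (n2 := ndN5q3) (pc := pcN3) (cut := Cut.none) (xt := Ext.none) (P1 := 67108864) (W1 := 469762048) (P2 := 0) (W2 := 1230186008) (P3 := 1046898278) (W3 := 26843546) (N0 := 3)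
    rfl k0_mm_033

noncomputable def f_mm_101 : ℕ → ℕ → ℕ → ℕ → Bool := onCell 536870912 536870912 536870912 469762048 1046898278 26843546
    (rowNX 3 0 false false false .npn 1 0 1 (qsf 536870912 536870912 536870912 469762048 0) ndN2q1 ndN5q1 pcN0 Cut.none Ext.none)

def k0_mm_101 : ∃ t, chk3 f_mm_101 t 1 1 1 = true :=
  ⟨(l 3), by decide +kernel⟩

theorem c_mm_101 : CertNX 536870912 536870912 536870912 469762048 1046898278 26843546 3 false false false .npn 1 0 1
    ndN2q1 ndN5q1 pcN0 Cut.none Ext.none :=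
  certNX0 (fam := false) (s1 := false) (s2 := false) (a := 1) (b := 0) (c := 1) (cn := .npn) (n1 := ndN2q1) (n2 := ndN5q1) (pc := pcN0) (cut := Cut.none) (xt := Ext.none) (P1 := 536870912) (W1 := 536870912) (P2 := 536870912) (W2 := 469762048) (P3 := 1046898278) (W3 := 26843546) (N0 := 3)
    rfl k0_mm_101

noncomputable def f_mm_102 : ℕ → ℕ → ℕ → ℕ → Bool := onCell 536870912 536870912 1073741824 536870912 1046898278 26843546
    (rowNX 3 0 false false false .npp 1 0 2 (qsf 536870912 536870912 1073741824 536870912 0) ndN2q1 ndN5q2 pcN0 Cut.none Ext.none)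

def k0_mm_102 : ∃ t, chk3 f_mm_102 t 1 1 1 = true :=
  ⟨(l 5), by decide +kernel⟩

theorem c_mm_102 : CertNX 536870912 536870912 1073741824 536870912 1046898278 26843546 3 false false false .npp 1 0 2
    ndN2q1 ndN5q2 pcN0 Cut.none Ext.none :=
  certNX0 (fam := false) (s1 := false) (s2 := false) (a := 1) (b := 0) (c := 2) (cn := .npp) (n1 := ndN2q1) (n2 := ndN5q2) (pc := pcN0) (cut := Cut.none) (xt := Ext.none) (P1 := 536870912) (W1 := 536870912) (P2 := 1073741824) (W2 := 536870912) (P3 := 1046898278) (W3 := 26843546) (N0 := 3)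
    rfl k0_mm_102

noncomputable def f_mm_112 : ℕ → ℕ → ℕ → ℕ → Bool := onCell 536870912 536870912 1073741824 536870912 1046898278 26843546
    (rowNX 3 0 false false false .dn 1 1 2 (qsf 536870912 536870912 1073741824 536870912 1) ndN2q1 ndN5q2 pcN1 Cut.none Ext.none)

def k0_mm_112 : ∃ t, chk3 f_mm_112 t 1 1 1 = true :=
  ⟨(l 5), by decide +kernel⟩

theorem c_mm_112 : CertNX 536870912 536870912 1073741824 536870912 1046898278 26843546 3 false false false .dn 1 1 2
    ndN2q1 ndN5q2 pcN1 Cut.none Ext.none :=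
  certNX0 (fam := false) (s1 := false) (s2 := false) (a := 1) (b := 1) (c := 2) (cn := .dn) (n1 := ndN2q1) (n2 := ndN5q2) (pc := pcN1) (cut := Cut.none) (xt := Ext.none) (P1 := 536870912) (W1 := 536870912) (P2 := 1073741824) (W2 := 536870912) (P3 := 1046898278) (W3 := 26843546) (N0 := 3)
    rfl k0_mm_112

noncomputable def f_mm_113 : ℕ → ℕ → ℕ → ℕ → Bool := onCell 536870912 536870912 0 1230186008 1046898278 26843546
    (rowNX 3 0 false false false .nn 1 1 3 (qsf 536870912 536870912 0 1230186008 1) ndN2q1 ndN5q3 pcN1 Cut.none Ext.none)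

def k0_mm_113 : ∃ t, chk3 f_mm_113 t 1 1 1 = true :=
  ⟨(l 5), by decide +kernel⟩

theorem c_mm_113 : CertNX 536870912 536870912 0 1230186008 1046898278 26843546 3 false false false .nn 1 1 3
    ndN2q1 ndN5q3 pcN1 Cut.none Ext.none :=
  certNX0 (fam := false) (s1 := false) (s2 := false) (a := 1) (b := 1) (c := 3) (cn := .nn) (n1 := ndN2q1) (n2 := ndN5q3) (pc := pcN1) (cut := Cut.none) (xt := Ext.none) (P1 := 536870912) (W1 := 536870912) (P2 := 0) (W2 := 1230186008) (P3 := 1046898278) (W3 := 26843546) (N0 := 3)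
    rfl k0_mm_113

noncomputable def f_mm_123 : ℕ → ℕ → ℕ → ℕ → Bool := onCell 536870912 536870912 0 1230186008 1046898278 26843546
    (rowNX 3 0 false false false .npn 1 2 3 (qsf 536870912 536870912 0 1230186008 2) ndN2q1 ndN5q3 pcN2 Cut.none Ext.none)

def k0_mm_123 : ∃ t, chk3 f_mm_123 t 1 1 1 = true :=
  ⟨(l 5), by decide +kernel⟩

theorem c_mm_123 : CertNX 536870912 536870912 0 1230186008 1046898278 26843546 3 false false false .npn 1 2 3
    ndN2q1 ndN5q3 pcN2 Cut.none Ext.none :=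
  certNX0 (fam := false) (s1 := false) (s2 := false) (a := 1) (b := 2) (c := 3) (cn := .npn) (n1 := ndN2q1) (n2 := ndN5q3) (pc := pcN2) (cut := Cut.none) (xt := Ext.none) (P1 := 536870912) (W1 := 536870912) (P2 := 0) (W2 := 1230186008) (P3 := 1046898278) (W3 := 26843546) (N0 := 3)
    rfl k0_mm_123

noncomputable def f_mm_133 : ℕ → ℕ → ℕ → ℕ → Bool := onCell 536870912 536870912 0 1230186008 1046898278 26843546
    (rowNX 3 0 false false false .dn 1 3 3 (qsf 536870912 536870912 0 1230186008 3) ndN2q1 ndN5q3 pcN3 Cut.none Ext.none)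

def k0_mm_133 : ∃ t, chk3 f_mm_133 t 1 1 1 = true :=
  ⟨(l 5), by decide +kernel⟩

theorem c_mm_133 : CertNX 536870912 536870912 0 1230186008 1046898278 26843546 3 false false false .dn 1 3 3
    ndN2q1 ndN5q3 pcN3 Cut.none Ext.none :=
  certNX0 (fam := false) (s1 := false) (s2 := false) (a := 1) (b := 3) (c := 3) (cn := .dn) (n1 := ndN2q1) (n2 := ndN5q3) (pc := pcN3) (cut := Cut.none) (xt := Ext.none) (P1 := 536870912) (W1 := 536870912) (P2 := 0) (W2 := 1230186008) (P3 := 1046898278) (W3 := 26843546) (N0 := 3)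
    rfl k0_mm_133

noncomputable def f_mm_202_a : ℕ → ℕ → ℕ → ℕ → Bool := onCell 0 420477299 1073741824 536870912 1046898278 26843546
    (rowNX 3 0 false false false .pp 2 0 2 (qsf 0 420477299 1073741824 536870912 0) ndN2q2a ndN5q2 pcN0 Cut.none Ext.none)

def k0_mm_202_a : ∃ t, chk3 f_mm_202_a t 1 1 1 = true :=
  ⟨(l 3), by decide +kernel⟩

theorem c_mm_202_a : CertNX 0 420477299 1073741824 536870912 1046898278 26843546 3 false false false .pp 2 0 2
    ndN2q2a ndN5q2 pcN0 Cut.none Ext.none :=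
  certNX0 (fam := false) (s1 := false) (s2 := false) (a := 2) (b := 0) (c := 2) (cn := .pp) (n1 := ndN2q2a) (n2 := ndN5q2) (pc := pcN0) (cut := Cut.none) (xt := Ext.none) (P1 := 0) (W1 := 420477299) (P2 := 1073741824) (W2 := 536870912) (P3 := 1046898278) (W3 := 26843546) (N0 := 3)
    rfl k0_mm_202_a

noncomputable def f_mm_202_b : ℕ → ℕ → ℕ → ℕ → Bool := onCell 1239849684 370763052 1073741824 536870912 1046898278 26843546
    (rowNX 3 0 false false false .pp 2 0 2 (qsf 1239849684 370763052 1073741824 536870912 0) ndN2q2b ndN5q2 pcN0 Cut.none Ext.none)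

def k0_mm_202_b : ∃ t, chk3 f_mm_202_b t 1 1 1 = true :=
  ⟨(l 3), by decide +kernel⟩

theorem c_mm_202_b : CertNX 1239849684 370763052 1073741824 536870912 1046898278 26843546 3 false false false .pp 2 0 2
    ndN2q2b ndN5q2 pcN0 Cut.none Ext.none :=
  certNX0 (fam := false) (s1 := false) (s2 := false) (a := 2) (b := 0) (c := 2) (cn := .pp) (n1 := ndN2q2b) (n2 := ndN5q2) (pc := pcN0) (cut := Cut.none) (xt := Ext.none) (P1 := 1239849684) (W1 := 370763052) (P2 := 1073741824) (W2 := 536870912) (P3 := 1046898278) (W3 := 26843546) (N0 := 3)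
    rfl k0_mm_202_b

noncomputable def f_mm_203_a : ℕ → ℕ → ℕ → ℕ → Bool := onCell 0 420477299 0 1230186008 1046898278 26843546
    (rowNX 3 0 false false false .up 2 0 3 (qsf 0 420477299 0 1230186008 0) ndN2q2a ndN5q3 pcN0 Cut.none Ext.none)

def k0_mm_203_a : ∃ t, chk3 f_mm_203_a t 1 1 1 = true :=
  ⟨(b (l 2) (l 3)), by decide +kernel⟩

theorem c_mm_203_a : CertNX 0 420477299 0 1230186008 1046898278 26843546 3 false false false .up 2 0 3
    ndN2q2a ndN5q3 pcN0 Cut.none Ext.none :=
  certNX0 (fam := false) (s1 := false) (s2 := false) (a := 2) (b := 0) (c := 3) (cn := .up) (n1 := ndN2q2a) (n2 := ndN5q3) (pc := pcN0) (cut := Cut.none) (xt := Ext.none) (P1 := 0) (W1 := 420477299) (P2 := 0) (W2 := 1230186008) (P3 := 1046898278) (W3 := 26843546) (N0 := 3)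
    rfl k0_mm_203_a

noncomputable def f_mm_203_b : ℕ → ℕ → ℕ → ℕ → Bool := onCell 1239849684 370763052 0 1230186008 1046898278 26843546
    (rowNX 3 0 false false false .up 2 0 3 (qsf 1239849684 370763052 0 1230186008 0) ndN2q2b ndN5q3 pcN0 Cut.none Ext.none)

def k0_mm_203_b : ∃ t, chk3 f_mm_203_b t 1 1 1 = true :=
  ⟨(b (l 3) (l 3)), by decide +kernel⟩

theorem c_mm_203_b : CertNX 1239849684 370763052 0 1230186008 1046898278 26843546 3 false false false .up 2 0 3
    ndN2q2b ndN5q3 pcN0 Cut.none Ext.none :=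
  certNX0 (fam := false) (s1 := false) (s2 := false) (a := 2) (b := 0) (c := 3) (cn := .up) (n1 := ndN2q2b) (n2 := ndN5q3) (pc := pcN0) (cut := Cut.none) (xt := Ext.none) (P1 := 1239849684) (W1 := 370763052) (P2 := 0) (W2 := 1230186008) (P3 := 1046898278) (W3 := 26843546) (N0 := 3)
    rfl k0_mm_203_b

noncomputable def f_mm_213_a : ℕ → ℕ → ℕ → ℕ → Bool := onCell 0 420477299 0 1230186008 1046898278 26843546
    (rowNX 3 0 false false false .pnn 2 1 3 (qsf 0 420477299 0 1230186008 1) ndN2q2a ndN5q3 pcN1 Cut.none Ext.none)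

def k0_mm_213_a : ∃ t, chk3 f_mm_213_a t 1 1 1 = true :=
  ⟨(b (l 3) (l 3)), by decide +kernel⟩

theorem c_mm_213_a : CertNX 0 420477299 0 1230186008 1046898278 26843546 3 false false false .pnn 2 1 3
    ndN2q2a ndN5q3 pcN1 Cut.none Ext.none :=
  certNX0 (fam := false) (s1 := false) (s2 := false) (a := 2) (b := 1) (c := 3) (cn := .pnn) (n1 := ndN2q2a) (n2 := ndN5q3) (pc := pcN1) (cut := Cut.none) (xt := Ext.none) (P1 := 0) (W1 := 420477299) (P2 := 0) (W2 := 1230186008) (P3 := 1046898278) (W3 := 26843546) (N0 := 3)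
    rfl k0_mm_213_a

noncomputable def f_mm_213_b : ℕ → ℕ → ℕ → ℕ → Bool := onCell 1239849684 370763052 0 1230186008 1046898278 26843546
    (rowNX 3 0 false false false .pnn 2 1 3 (qsf 1239849684 370763052 0 1230186008 1) ndN2q2b ndN5q3 pcN1 Cut.none Ext.none)

def k0_mm_213_b : ∃ t, chk3 f_mm_213_b t 1 1 1 = true :=
  ⟨(b (l 3) (l 3)), by decide +kernel⟩

theorem c_mm_213_b : CertNX 1239849684 370763052 0 1230186008 1046898278 26843546 3 false false false .pnn 2 1 3
    ndN2q2b ndN5q3 pcN1 Cut.none Ext.none :=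
  certNX0 (fam := false) (s1 := false) (s2 := false) (a := 2) (b := 1) (c := 3) (cn := .pnn) (n1 := ndN2q2b) (n2 := ndN5q3) (pc := pcN1) (cut := Cut.none) (xt := Ext.none) (P1 := 1239849684) (W1 := 370763052) (P2 := 0) (W2 := 1230186008) (P3 := 1046898278) (W3 := 26843546) (N0 := 3)
    rfl k0_mm_213_b

noncomputable def f_mm_303 : ℕ → ℕ → ℕ → ℕ → Bool := onCell 1610612736 469762048 0 1230186008 1046898278 26843546
    (rowNX 3 0 false false false .npn 3 0 3 (qsf 1610612736 469762048 0 1230186008 0) ndN2q3 ndN5q3 pcN0 Cut.none Ext.none)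

def k0_mm_303 : ∃ t, chk3 f_mm_303 t 1 1 1 = true :=
  ⟨(b (l 3) (l 3)), by decide +kernel⟩

theorem c_mm_303 : CertNX 1610612736 469762048 0 1230186008 1046898278 26843546 3 false false false .npn 3 0 3
    ndN2q3 ndN5q3 pcN0 Cut.none Ext.none :=
  certNX0 (fam := false) (s1 := false) (s2 := false) (a := 3) (b := 0) (c := 3) (cn := .npn) (n1 := ndN2q3) (n2 := ndN5q3) (pc := pcN0) (cut := Cut.none) (xt := Ext.none) (P1 := 1610612736) (W1 := 469762048) (P2 := 0) (W2 := 1230186008) (P3 := 1046898278) (W3 := 26843546) (N0 := 3)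
    rfl k0_mm_303

noncomputable def f_mm_313 : ℕ → ℕ → ℕ → ℕ → Bool := onCell 1610612736 469762048 0 1230186008 1046898278 26843546
    (rowNX 3 0 false false false .dn 3 1 3 (qsf 1610612736 469762048 0 1230186008 1) ndN2q3 ndN5q3 pcN1 Cut.none Ext.none)

def k0_mm_313 : ∃ t, chk3 f_mm_313 t 1 1 1 = true :=
  ⟨(b (l 3) (l 1)), by decide +kernel⟩

theorem c_mm_313 : CertNX 1610612736 469762048 0 1230186008 1046898278 26843546 3 false false false .dn 3 1 3
    ndN2q3 ndN5q3 pcN1 Cut.none Ext.none :=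
  certNX0 (fam := false) (s1 := false) (s2 := false) (a := 3) (b := 1) (c := 3) (cn := .dn) (n1 := ndN2q3) (n2 := ndN5q3) (pc := pcN1) (cut := Cut.none) (xt := Ext.none) (P1 := 1610612736) (W1 := 469762048) (P2 := 0) (W2 := 1230186008) (P3 := 1046898278) (W3 := 26843546) (N0 := 3)
    rfl k0_mm_313

end Pool.Agent.Strip051.G.IE1.Tab.C.NB25

namespace Pool.Agent.Strip051.G.IE1.Tab.C.NB26

open Pool.Agent.Strip051.PB Pool.Agent.Strip051.PB.T
open Pool.Agent.Strip051.G.IE1.Tab

noncomputable def f_pp_001 : ℕ → ℕ → ℕ → ℕ → Bool := onCell 67108864 469762048 536870912 469762048 1046898278 26843546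
    (rowNX 3 0 false true true .up 0 0 1 (qsf 67108864 469762048 536870912 469762048 0) ndN2q0 ndN6q1 pcN0 Cut.none Ext.none)

def k0_pp_001 : ∃ t, chk3 f_pp_001 t 1 1 1 = true :=
  ⟨(l 3), by decide +kernel⟩

theorem c_pp_001 : CertNX 67108864 469762048 536870912 469762048 1046898278 26843546 3 false true true .up 0 0 1
    ndN2q0 ndN6q1 pcN0 Cut.none Ext.none :=
  certNX0 (fam := false) (s1 := true) (s2 := true) (a := 0) (b := 0) (c := 1) (cn := .up) (n1 := ndN2q0) (n2 := ndN6q1) (pc := pcN0) (cut := Cut.none) (xt := Ext.none) (P1 := 67108864) (W1 := 469762048) (P2 := 536870912) (W2 := 469762048) (P3 := 1046898278) (W3 := 26843546) (N0 := 3)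
    rfl k0_pp_001

noncomputable def f_pp_011 : ℕ → ℕ → ℕ → ℕ → Bool := onCell 67108864 469762048 536870912 469762048 1046898278 26843546
    (rowNX 3 0 false true true .pnn 0 1 1 (qsf 67108864 469762048 536870912 469762048 1) ndN2q0 ndN6q1 pcN1 Cut.none Ext.none)

def k0_pp_011 : ∃ t, chk3 f_pp_011 t 1 1 1 = true :=
  ⟨(l 3), by decide +kernel⟩

theorem c_pp_011 : CertNX 67108864 469762048 536870912 469762048 1046898278 26843546 3 false true true .pnn 0 1 1
    ndN2q0 ndN6q1 pcN1 Cut.none Ext.none :=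
  certNX0 (fam := false) (s1 := true) (s2 := true) (a := 0) (b := 1) (c := 1) (cn := .pnn) (n1 := ndN2q0) (n2 := ndN6q1) (pc := pcN1) (cut := Cut.none) (xt := Ext.none) (P1 := 67108864) (W1 := 469762048) (P2 := 536870912) (W2 := 469762048) (P3 := 1046898278) (W3 := 26843546) (N0 := 3)
    rfl k0_pp_011

noncomputable def f_pp_012 : ℕ → ℕ → ℕ → ℕ → Bool := onCell 67108864 469762048 536870912 536870912 1046898278 26843546
    (rowNX 3 1 false true true .pnp 0 1 2 (qsf 67108864 469762048 1073741824 536870912 1) ndN2q0 ndN6q2 pcN1 Cut.none Ext.none)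

def k0_pp_012 : ∃ t, chk3 f_pp_012 t 1 1 1 = true :=
  ⟨(l 3), by decide +kernel⟩

theorem c_pp_012 : CertNX 67108864 469762048 1073741824 536870912 1046898278 26843546 3 false true true .pnp 0 1 2
    ndN2q0 ndN6q2 pcN1 Cut.none Ext.none :=
  certNX1 (fam := false) (s1 := true) (s2 := true) (a := 0) (b := 1) (c := 2) (cn := .pnp) (n1 := ndN2q0) (n2 := ndN6q2) (pc := pcN1) (cut := Cut.none) (xt := Ext.none) (P1 := 67108864) (W1 := 469762048) (P2 := 1073741824) (W2 := 536870912) (P3 := 1046898278) (W3 := 26843546) (N0 := 3)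
    rfl (fun _ => rfl) k0_pp_012

noncomputable def f_pp_022 : ℕ → ℕ → ℕ → ℕ → Bool := onCell 67108864 469762048 1073741824 536870912 1046898278 26843546
    (rowNX 3 1 false true true .pp 0 2 2 (qsf 67108864 469762048 1073741824 536870912 2) ndN2q0 ndN6q2 pcN2 Cut.none Ext.none)

def k0_pp_022 : ∃ t, chk3 f_pp_022 t 2 4 1 = true :=
  ⟨(b (l 3) (a (l 3) (b (l 3) (b (l 3) (a (l 3) (c (l 954187368119) (l 1080352032263))))))), by decide +kernel⟩

def k1_pp_022 : ∃ t, chk3 f_pp_022 t 4 10 1 = true :=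
  ⟨(b (b (l 3) (a (b (l 3) (b (a (l 3) (a (b (l 3) (c (l 16167384) (l 16237952))) (b (l 16643784) (l 16643776)))) (a (b (b (a (l 3) (c (l 15733368) (l 15696664))) (c (a (a (c (l 14910144) (l 14877448)) (l 15214640)) (l 15733368)) (a (a (l 14827560) (l 15159680)) (l 15696664)))) (b (b (b (c (a (l 14838800) (l 15733376)) (a (l 14985528) (l 15696664))) (b (c (a (l 14837568) (l 15733376)) (a (l 14984240) (l 15696664))) (c (a (a (c (l 14897200) (l 14864248)) (l 15214640)) (l 15712400)) (a (a (l 14813984) (l 15159680)) (l 15696664))))) (a (c (l 15045912) (l 14982816)) (l 15715048))) (a (c (l 15043720) (l 14980544)) (l 15715048)))) (b (c (a (b (l 16272240) (l 16188360)) (l 16646048)) (a (b (l 16300856) (l 16237952)) (l 16641448))) (a (c (b (b (b (l 16272248) (b (l 16272248) (a (l 16247464) (l 16548152)))) (l 16314192)) (l 16314192)) (b (b (b (l 16321840) (b (l 16321840) (l 16154072))) (l 16363784)) (l 16363784))) (b (b (b (l 16643792) (b (l 16643792) (c (l 16646064) (l 16641464))))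 (l 16643792)) (l 16643792))))))) (a (b (b (l 3) (l 2024707785367)) (b (c (l 16727808) (l 16727544)) (b (b (l 16769664) (c (l 16767928) (l 16767592))) (b (b (b (c (l 16766312) (l 16765920)) (b (c (l 16763736) (l 16763264)) (a (c (l 16725616) (l 16723792)) (l 16719016)))) (l 16757216)) (l 16756920))))) (b (b (l 16687320) (c (l 16688792) (l 16685672))) (b (b (l 16687192) (c (l 16687200) (l 16683840))) (b (b (c (l 16682712) (l 16678736)) (c (l 16670584) (a (l 16669120) (l 16662632)))) (l 16637216))))))) (a (a (a (c (l 15019104) (l 14976752)) (l 15568248)) (a (a (l 16238184) (l 16481248)) (l 16641232))) (a (l 16752584) (l 16627672)))), by decide +kernel⟩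

def k2_pp_022 : ∃ t, chk3 f_pp_022 t 5 10 1 = true :=
  ⟨(b (b (a (c (b (l 1353082181271) (a (l 1452940305975) (l 834464997191))) (b (l 1370262042679) (a (l 1449182205175) (l 845202413127)))) (b (c (l 16775768) (l 16775720)) (c (b (l 16766992) (l 16755136)) (b (l 16766632) (l 16754360))))) (b (a (b (a (l 16725704) (l 16765136)) (b (c (l 16740032) (l 16738200)) (a (l 16725616) (a (l 16750944) (l 16749448))))) (b (c (l 16730760) (l 16729136)) (c (l 16678600) (l 16675144)))) (b (a (a (b (c (l 16720864) (l 16718336)) (c (l 16707904) (l 16704168))) (b (a (l 16711560) (l 16712384)) (l 16684688))) (l 16608920)) (b (a (b (l 16668992) (l 16644040)) (l 16566888)) (a (l 16617592) (l 16546376)))))) (a (l 16630240) (l 16588432))), by decide +kernel⟩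

def k3_pp_022 : ∃ t, chk3 f_pp_022 t 2 11 1 = true :=
  ⟨(a (a (a (a (c (l 15039576) (l 14976232)) (c (l 15733112) (l 15696392))) (a (a (l 16090992) (a (l 16476376) (l 16590192))) (l 16644896))) (a (l 16763000) (l 16671680))) (a (b (l 16698864) (l 16745984)) (b (l 16709328) (l 16777128)))), by decide +kernel⟩

def k4_pp_022 : ∃ t, chk3 f_pp_022 t 3 2 1 = true :=
  ⟨(a (b (b (l 3) (b (b (l 3) (c (l 918216623415) (l 931638391975))) (b (b (c (l 909090351511) (l 911237836887)) (a (l 923585733703) (a (l 16773600) (l 16766944)))) (c (b (a (l 16774432) (l 16751920)) (a (l 16763424) (l 16707072))) (b (a (l 16774328) (l 16751032)) (a (l 16762936) (l 16704608))))))) (b (b (b (a (b (c (l 16739664) (l 16738344)) (c (l 16670432) (l 16666688))) (b (l 16616952) (l 16526040))) (b (a (l 16555312) (l 16433448)) (b (a (l 16473264) (l 16443168)) (a (b (l 16470784) (a (l 16476424) (l 16415536))) (b (l 16571600) (l 16644360)))))) (a (l 16588456) (l 16744888))) (b (l 16765848) (l 16777184))))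 (b (a (b (l 3) (b (b (l 825873984247) (c (l 626158733495) (l 670719013463))) (b (b (b (l 16742176) (l 16769648)) (l 16736440)) (b (l 16667568) (l 2))))) (b (a (l 3) (b (l 3) (l 2))) (l 2))) (l 2))), by decide +kernel⟩

def k5_pp_022 : ∃ t, chk3 f_pp_022 t 1 3 1 = true :=
  ⟨(a (a (a (b (a (b (a (l 15009920) (l 15715048)) (l 15110800)) (a (b (l 16391448) (l 16391448)) (l 16643792))) (a (a (l 15009920) (l 15715048)) (a (l 16391448) (l 16643792)))) (b (b (l 16735584) (l 16735584)) (l 16735584))) (b (a (b (l 16746064) (l 16746064)) (b (l 16777216) (l 2))) (l 2))) (l 2)), by decide +kernel⟩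

theorem s6_pp_022 : ∃ t, chk3 f_pp_022 t 2 10 1 = true := ex3_a k1_pp_022 k2_pp_022

theorem s7_pp_022 : ∃ t, chk3 f_pp_022 t 2 5 1 = true := ex3_b s6_pp_022 k3_pp_022

theorem s8_pp_022 : ∃ t, chk3 f_pp_022 t 2 2 1 = true := ex3_b k0_pp_022 s7_pp_022

theorem s9_pp_022 : ∃ t, chk3 f_pp_022 t 1 2 1 = true := ex3_a s8_pp_022 k4_pp_022

theorem s10_pp_022 : ∃ t, chk3 f_pp_022 t 1 1 1 = true := ex3_b s9_pp_022 k5_pp_022

theorem c_pp_022 : CertNX 67108864 469762048 1073741824 536870912 1046898278 26843546 3 false true true .pp 0 2 2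
    ndN2q0 ndN6q2 pcN2 Cut.none Ext.none :=
  certNX1 (fam := false) (s1 := true) (s2 := true) (a := 0) (b := 2) (c := 2) (cn := .pp) (n1 := ndN2q0) (n2 := ndN6q2) (pc := pcN2) (cut := Cut.none) (xt := Ext.none) (P1 := 67108864) (W1 := 469762048) (P2 := 1073741824) (W2 := 536870912) (P3 := 1046898278) (W3 := 26843546) (N0 := 3)
    rfl (fun _ => rfl) s10_pp_022

noncomputable def f_pp_023 : ℕ → ℕ → ℕ → ℕ → Bool := onCell 1073741824 536870912 0 1230186008 1046898278 26843546
    (rowNX 3 2 false true true .up 0 2 3 (qsf 67108864 469762048 0 1230186008 2) ndN2q0 ndN6q3 pcN2 Cut.none Ext.none)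

def k0_pp_023 : ∃ t, chk3 f_pp_023 t 2 1 1 = true :=
  ⟨(b (l 2) (a (b (l 2) (b (l 2) (b (a (l 2) (a (a (b (l 2) (l 360876487351)) (l 16499920)) (a (a (l 16737312) (l 16754048)) (l 16757240)))) (a (a (l 3) (a (l 3) (a (l 15997456) (l 16187784)))) (a (a (c (l 16133744) (l 16075784)) (c (l 16593512) (l 16587048))) (a (a (c (l 16765904) (l 16765504)) (l 16747480)) (b (l 16615496) (l 16660592)))))))) (a (b (l 2) (a (b (b (l 2) (b (l 2) (a (b (l 2) (l 16483312)) (a (c (l 16219352) (l 16249424)) (b (a (l 16339872) (l 16192248)) (l 16367080)))))) (a (b (l 16726952) (b (l 16508232) (l 16527600))) (a (b (l 16636144) (l 16531432)) (b (a (l 16575104) (l 16539688)) (a (l 16582528) (l 16688952)))))) (b (b (c (b (l 2) (l 16101272)) (l 15909592)) (c (b (l 16168560) (l 16373304)) (b (l 16242608) (l 16386048)))) (l 16705664)))) (b (a (l 2) (l 16776704)) (a (b (b (c (l 16513072) (l 16477880)) (c (b (l 16572872) (l 16641848)) (l 16628048))) (l 16756608)) (b (l 16776968) (l 16777192))))))),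 by decide +kernel⟩

def k1_pp_023 : ∃ t, chk3 f_pp_023 t 3 1 1 = true :=
  ⟨(b (a (l 2) (b (a (l 2) (l 16688536)) (b (l 16728152) (l 16755512)))) (b (a (b (l 16777152) (l 16777200)) (l 16777168)) (b (a (c (l 16777216) (l 16777216)) (b (l 16772880) (a (l 16773072) (l 16733632)))) (a (b (l 16774792) (a (l 16771632) (b (l 16750336) (l 16731040)))) (b (a (l 16734816) (b (l 16763776) (a (l 16764944) (b (l 16529600) (a (l 16418464) (l 15811664)))))) (a (b (l 16772800) (a (l 16600360) (b (a (l 16647680) (l 16305072)) (a (l 16230928) (l 15481152))))) (b (a (b (l 16504688) (a (l 16358872) (l 15715728))) (b (a (l 15775384) (l 320004624135)) (a (b (l 15144552) (l 14809600)) (l 14415024)))) (a (a (b (l 15632112) (b (l 14995736) (l 14688128))) (b (b (l 15078520) (l 14752928)) (l 14445032))) (b (c (l 484822846135) (l 14386688)) (l 1)))))))))), by decide +kernel⟩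

theorem s2_pp_023 : ∃ t, chk3 f_pp_023 t 1 1 1 = true := ex3_a k0_pp_023 k1_pp_023

theorem c_pp_023 : CertNX 67108864 469762048 0 1230186008 1046898278 26843546 3 false true true .up 0 2 3
    ndN2q0 ndN6q3 pcN2 Cut.none Ext.none :=
  certNX2 (fam := false) (s1 := true) (s2 := true) (a := 0) (b := 2) (c := 3) (cn := .up) (n1 := ndN2q0) (n2 := ndN6q3) (pc := pcN2) (cut := Cut.none) (xt := Ext.none) (P1 := 67108864) (W1 := 469762048) (P2 := 0) (W2 := 1230186008) (P3 := 1046898278) (W3 := 26843546) (N0 := 3)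
    rfl (fun _ => rfl) s2_pp_023

noncomputable def f_pp_033 : ℕ → ℕ → ℕ → ℕ → Bool := onCell 67108864 469762048 0 1230186008 1046898278 26843546
    (rowNX 3 0 false true true .pnn 0 3 3 (qsf 67108864 469762048 0 1230186008 3) ndN2q0 ndN6q3 pcN3 Cut.none Ext.none)

def k0_pp_033 : ∃ t, chk3 f_pp_033 t 1 1 1 = true :=
  ⟨(b (a (b (l 4) (b (a (l 4) (a (c (l 16719920) (l 16712896)) (l 16728152))) (a (a (a (c (l 34591305655) (l 15103064)) (c (l 16339768) (l 24393001431))) (c (l 16721800) (l 16719744))) (a (b (l 16726032) (l 16742608)) (l 16755512))))) (b (a (c (l 16692064) (l 16691120)) (c (l 16692064) (l 16691120))) (a (b (a (l 16728152) (l 16728152)) (l 16755512)) (b (l 16728152) (l 16755512))))) (b (a (a (a (b (a (b (l 15362408) (l 15362384)) (b (l 16518040) (l 16518008))) (a (l 15362440) (l 16518072))) (b (b (l 16735544) (l 16735528)) (l 16735568))) (b (a (l 16746024) (l 16777152)) (a (l 16746056) (l 16777200)))) (b (a (l 16777152) (l 1)) (l 16777200))) (a (a (a (b (a (b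 (l 15362456) (l 15278576)) (a (l 16391448) (l 16643792))) (a (b (l 15362456) (l 15362456)) (a (l 16391448) (l 16643792)))) (b (l 16735584) (l 16735584))) (b (a (l 16746064) (l 16777216)) (l 1))) (l 1)))), by decide +kernel⟩

theorem c_pp_033 : CertNX 67108864 469762048 0 1230186008 1046898278 26843546 3 false true true .pnn 0 3 3
    ndN2q0 ndN6q3 pcN3 Cut.none Ext.none :=
  certNX0 (fam := false) (s1 := true) (s2 := true) (a := 0) (b := 3) (c := 3) (cn := .pnn) (n1 := ndN2q0) (n2 := ndN6q3) (pc := pcN3) (cut := Cut.none) (xt := Ext.none) (P1 := 67108864) (W1 := 469762048) (P2 := 0) (W2 := 1230186008) (P3 := 1046898278) (W3 := 26843546) (N0 := 3)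
    rfl k0_pp_033

noncomputable def f_pp_101 : ℕ → ℕ → ℕ → ℕ → Bool := onCell 536870912 536870912 536870912 469762048 1046898278 26843546
    (rowNX 3 0 false true true .npn 1 0 1 (qsf 536870912 536870912 536870912 469762048 0) ndN2q1 ndN6q1 pcN0 Cut.none Ext.none)

def k0_pp_101 : ∃ t, chk3 f_pp_101 t 1 1 1 = true :=
  ⟨(l 3), by decide +kernel⟩

theorem c_pp_101 : CertNX 536870912 536870912 536870912 469762048 1046898278 26843546 3 false true true .npn 1 0 1
    ndN2q1 ndN6q1 pcN0 Cut.none Ext.none :=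
  certNX0 (fam := false) (s1 := true) (s2 := true) (a := 1) (b := 0) (c := 1) (cn := .npn) (n1 := ndN2q1) (n2 := ndN6q1) (pc := pcN0) (cut := Cut.none) (xt := Ext.none) (P1 := 536870912) (W1 := 536870912) (P2 := 536870912) (W2 := 469762048) (P3 := 1046898278) (W3 := 26843546) (N0 := 3)
    rfl k0_pp_101

noncomputable def f_pp_102 : ℕ → ℕ → ℕ → ℕ → Bool := onCell 536870912 536870912 1073741824 536870912 1046898278 26843546
    (rowNX 3 0 false true true .npp 1 0 2 (qsf 536870912 536870912 1073741824 536870912 0) ndN2q1 ndN6q2 pcN0 Cut.none Ext.none)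

def k0_pp_102 : ∃ t, chk3 f_pp_102 t 1 1 1 = true :=
  ⟨(l 3), by decide +kernel⟩

theorem c_pp_102 : CertNX 536870912 536870912 1073741824 536870912 1046898278 26843546 3 false true true .npp 1 0 2
    ndN2q1 ndN6q2 pcN0 Cut.none Ext.none :=
  certNX0 (fam := false) (s1 := true) (s2 := true) (a := 1) (b := 0) (c := 2) (cn := .npp) (n1 := ndN2q1) (n2 := ndN6q2) (pc := pcN0) (cut := Cut.none) (xt := Ext.none) (P1 := 536870912) (W1 := 536870912) (P2 := 1073741824) (W2 := 536870912) (P3 := 1046898278) (W3 := 26843546) (N0 := 3)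
    rfl k0_pp_102

noncomputable def f_pp_112 : ℕ → ℕ → ℕ → ℕ → Bool := onCell 536870912 536870912 1073741824 536870912 1046898278 26843546
    (rowNX 3 0 false true true .dn 1 1 2 (qsf 536870912 536870912 1073741824 536870912 1) ndN2q1 ndN6q2 pcN1 Cut.none Ext.none)

def k0_pp_112 : ∃ t, chk3 f_pp_112 t 1 1 1 = true :=
  ⟨(l 3), by decide +kernel⟩

theorem c_pp_112 : CertNX 536870912 536870912 1073741824 536870912 1046898278 26843546 3 false true true .dn 1 1 2
    ndN2q1 ndN6q2 pcN1 Cut.none Ext.none :=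
  certNX0 (fam := false) (s1 := true) (s2 := true) (a := 1) (b := 1) (c := 2) (cn := .dn) (n1 := ndN2q1) (n2 := ndN6q2) (pc := pcN1) (cut := Cut.none) (xt := Ext.none) (P1 := 536870912) (W1 := 536870912) (P2 := 1073741824) (W2 := 536870912) (P3 := 1046898278) (W3 := 26843546) (N0 := 3)
    rfl k0_pp_112

noncomputable def f_pp_113 : ℕ → ℕ → ℕ → ℕ → Bool := onCell 536870912 536870912 0 1230186008 1046898278 26843546
    (rowNX 3 2 false true true .nn 1 1 3 (qsf 536870912 536870912 0 1230186008 1) ndN2q1 ndN6q3 pcN1 Cut.none Ext.none)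

def k0_pp_113 : ∃ t, chk3 f_pp_113 t 1 1 1 = true :=
  ⟨(b (a (l 2) (a (l 2) (a (b (l 2) (b (a (l 2) (b (l 2) (l 13817544))) (a (b (l 2) (l 14235448)) (b (l 14055536) (l 14393632))))) (b (b (l 2208785721575) (l 14860792)) (b (a (l 14087464) (l 14357376)) (a (a (l 14368640) (b (l 14325776) (a (l 14540904) (l 14555616)))) (l 14445968))))))) (a (b (a (l 2) (l 3)) (l 3)) (a (b (a (l 3) (b (a (l 3) (b (a (l 14380808) (l 14547552)) (l 14781728))) (l 3))) (l 3)) (b (a (b (a (b (l 14647704) (l 15098664)) (b (l 14764712) (l 15181480))) (b (a (l 15576576) (l 15620152)) (l 244978811287))) (a (b (a (l 14991272) (a (l 14974328) (l 14971568))) (a (l 15627992) (a (l 15493912) (l 15424160)))) (b (a (c (c (a (l 15103696) (l 15085160)) (b (l 14884048) (l 15151152))) (l 14884944)) (c (b (l 14909936) (l 15129856)) (a (b (l 14480728) (l 15043584)) (c (l 14900568) (b (l 14685032) (l 14990752)))))) (a (c (a (l 15449888) (c (l 15427624) (l 15400464))) (l 15361832)) (c (l 15345120) (a (c (l 15325632)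 (l 15298216)) (c (l 15284568) (l 15254608)))))))) (b (a (l 3) (a (a (l 3) (l 15586200)) (a (c (b (l 15524016) (l 3)) (l 15486056)) (c (l 15439904) (b (l 15383544) (l 15247608)))))) (l 3)))))), by decide +kernel⟩

theorem c_pp_113 : CertNX 536870912 536870912 0 1230186008 1046898278 26843546 3 false true true .nn 1 1 3
    ndN2q1 ndN6q3 pcN1 Cut.none Ext.none :=
  certNX2 (fam := false) (s1 := true) (s2 := true) (a := 1) (b := 1) (c := 3) (cn := .nn) (n1 := ndN2q1) (n2 := ndN6q3) (pc := pcN1) (cut := Cut.none) (xt := Ext.none) (P1 := 536870912) (W1 := 536870912) (P2 := 0) (W2 := 1230186008) (P3 := 1046898278) (W3 := 26843546) (N0 := 3)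
    rfl (fun _ => rfl) k0_pp_113

noncomputable def f_pp_123 : ℕ → ℕ → ℕ → ℕ → Bool := onCell 1073741824 536870912 0 1230186008 1046898278 26843546
    (rowNX 3 2 false true true .npn 1 2 3 (qsf 536870912 536870912 0 1230186008 2) ndN2q1 ndN6q3 pcN2 Cut.none Ext.none)

def k0_pp_123 : ∃ t, chk3 f_pp_123 t 4 2 1 = true :=
  ⟨(b (a (b (a (l 16251280) (l 16142736)) (l 15400912)) (b (a (l 15846784) (l 15280312)) (a (l 15675480) (l 15198840)))) (a (b (a (l 15424440) (l 15227056)) (a (l 14961808) (l 15047352))) (b (l 15066800) (l 14839888)))), by decide +kernel⟩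

def k1_pp_123 : ∃ t, chk3 f_pp_123 t 8 3 1 = true :=
  ⟨(b (b (b (l 15195888) (l 15355776)) (a (a (c (b (l 15767032) (l 15726624)) (b (a (l 15759704) (l 15692408)) (l 15676720))) (c (l 15619496) (l 15565520))) (c (b (a (l 15441144) (l 15261232)) (l 15467512)) (b (l 15299440) (l 15413368))))) (b (b (a (c (a (a (l 15591456) (l 15628344)) (l 15635464)) (a (c (l 15550816) (l 15530096)) (l 15550408))) (c (a (l 15619216) (l 15606064)) (l 15557288))) (a (a (c (a (l 15457056) (l 15409168)) (a (c (l 15421400) (a (l 652999486711) (l 15403648))) (c (a (l 15285144) (l 15510088)) (l 15454920)))) (c (a (c (l 15603120) (l 15423416)) (l 15666216)) (l 15564968))) (c (a (l 15592256) (a (l 15857512) (l 15791768))) (a (l 15680992) (l 15853952))))) (a (a (l 3) (c (a (c (l 690580943607) (b (l 679306597671) (l 3))) (c (l 688970470007) (l 15642184))) (l 15570632))) (a (b (c (l 657295294839) (l 15661184)) (l 3)) (b (c (b (l 15824800) (l 15883696)) (b (l 15894624) (l 16003520))) (a (l 15997456) (l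 16187784))))))), by decide +kernel⟩

def k2_pp_123 : ∃ t, chk3 f_pp_123 t 9 3 1 = true :=
  ⟨(b (b (l 14777328) (b (b (l 14775672) (a (c (l 15014184) (l 14951624)) (b (l 14611728) (a (l 14510472) (l 14551248))))) (a (c (l 15290968) (l 15238400)) (c (a (l 15152296) (l 14940088)) (a (l 15030776) (l 14878416)))))) (a (b (b (c (a (l 15691840) (b (l 15654344) (c (l 15959352) (l 15991728)))) (b (l 15573208) (l 15836176))) (b (c (b (c (l 16011768) (l 15987520)) (l 16123784)) (a (l 15900688) (l 16221832))) (l 16048904))) (a (b (b (l 16123784) (a (l 16220224) (l 16327096))) (c (l 16133744) (l 16054816))) (b (l 16499920) (l 1)))) (b (b (c (b (l 15470480) (a (a (c (l 16104688) (l 16144896)) (l 16085168)) (c (l 15967264) (l 15997272)))) (l 15749064)) (c (b (b (c (l 16255176) (a (l 16290392) (l 16158368))) (l 16453192)) (b (l 16549480) (l 16634056))) (a (a (b (l 16447528) (l 16549376)) (b (l 16442472) (l 16562424))) (b (l 16229312) (l 16471888))))) (b (a (a (l 16737312) (l 16754048))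 (l 16757240)) (l 1))))), by decide +kernel⟩

def k3_pp_123 : ∃ t, chk3 f_pp_123 t 5 1 1 = true :=
  ⟨(b (a (b (b (a (l 14973440) (l 15539608)) (a (a (l 14847688) (l 14995776)) (l 15576512))) (a (a (l 14569704) (l 14775736)) (b (l 15519624) (l 15446928)))) (b (a (b (l 16086176) (l 16262056)) (l 16470992)) (a (l 16362552) (l 16733264)))) (a (b (b (a (l 14537608) (l 15398080)) (a (a (b (c (l 14460072) (l 14373344)) (c (l 14645072) (l 14680176))) (b (l 14612200) (a (b (l 14580696) (l 14932744)) (b (l 14813352) (l 15105688))))) (b (l 15373864) (b (c (l 15431992) (l 15342248)) (l 15596008))))) (b (a (a (b (c (b (l 15341040) (c (l 15800016) (l 15839152))) (l 15495016)) (c (b (l 15919712) (l 16303912)) (b (l 16080912) (l 16342376)))) (b (c (b (l 15376664) (a (c (l 15770872) (l 15776736)) (c (l 15824984) (l 15824152)))) (l 15375776)) (a (c (b (l 15821552) (l 16219352)) (b (l 16001504) (l 16249424))) (b (c (l 15904760) (l 16015576)) (b (a (l 16318896) (l 16192248)) (l 1)))))) (b (c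 (b (l 15829096) (l 16101272)) (l 15909592)) (c (b (l 16168560) (l 16373304)) (b (l 16242608) (l 16386048))))) (a (a (b (l 16726952) (l 1)) (l 1)) (l 1)))) (b (a (b (l 16318488) (b (l 16309848) (a (l 16133160) (l 16544712)))) (l 16776704)) (b (a (b (b (l 16443992) (l 16553464)) (l 1)) (l 16776968)) (l 1))))), by decide +kernel⟩

def k4_pp_123 : ∃ t, chk3 f_pp_123 t 3 1 1 = true :=
  ⟨(b (a (b (a (l 16544640) (l 16682368)) (b (l 16716400) (l 16755512))) (b (a (l 16688536) (l 16688536)) (b (l 16728152) (l 16755512)))) (b (a (b (l 16777152) (l 16777200)) (l 16777168)) (l 1))), by decide +kernel⟩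

theorem s5_pp_123 : ∃ t, chk3 f_pp_123 t 4 3 1 = true := ex3_a k1_pp_123 k2_pp_123

theorem s6_pp_123 : ∃ t, chk3 f_pp_123 t 4 1 1 = true := ex3_b k0_pp_123 s5_pp_123

theorem s7_pp_123 : ∃ t, chk3 f_pp_123 t 2 1 1 = true := ex3_a s6_pp_123 k3_pp_123

theorem s8_pp_123 : ∃ t, chk3 f_pp_123 t 1 1 1 = true := ex3_a s7_pp_123 k4_pp_123

theorem c_pp_123 : CertNX 536870912 536870912 0 1230186008 1046898278 26843546 3 false true true .npn 1 2 3
    ndN2q1 ndN6q3 pcN2 Cut.none Ext.none :=
  certNX2 (fam := false) (s1 := true) (s2 := true) (a := 1) (b := 2) (c := 3) (cn := .npn) (n1 := ndN2q1) (n2 := ndN6q3) (pc := pcN2) (cut := Cut.none) (xt := Ext.none) (P1 := 536870912) (W1 := 536870912) (P2 := 0) (W2 := 1230186008) (P3 := 1046898278) (W3 := 26843546) (N0 := 3)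
    rfl (fun _ => rfl) s8_pp_123

noncomputable def f_pp_133 : ℕ → ℕ → ℕ → ℕ → Bool := onCell 1610612736 536870912 0 1230186008 1046898278 26843546
    (rowNX 3 2 false true true .dn 1 3 3 (qsf 536870912 536870912 0 1230186008 3) ndN2q1 ndN6q3 pcN3 Cut.none Ext.none)

def k0_pp_133 : ∃ t, chk3 f_pp_133 t 1 1 1 = true :=
  ⟨(b (b (a (a (l 1444753584775) (l 1)) (l 1)) (l 1)) (l 1)), by decide +kernel⟩

theorem c_pp_133 : CertNX 536870912 536870912 0 1230186008 1046898278 26843546 3 false true true .dn 1 3 3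
    ndN2q1 ndN6q3 pcN3 Cut.none Ext.none :=
  certNX2 (fam := false) (s1 := true) (s2 := true) (a := 1) (b := 3) (c := 3) (cn := .dn) (n1 := ndN2q1) (n2 := ndN6q3) (pc := pcN3) (cut := Cut.none) (xt := Ext.none) (P1 := 536870912) (W1 := 536870912) (P2 := 0) (W2 := 1230186008) (P3 := 1046898278) (W3 := 26843546) (N0 := 3)
    rfl (fun _ => rfl) k0_pp_133

noncomputable def f_pp_202_a : ℕ → ℕ → ℕ → ℕ → Bool := onCell 0 420477299 1073741824 536870912 1046898278 26843546
    (rowNX 3 0 false true true .pp 2 0 2 (qsf 0 420477299 1073741824 536870912 0) ndN2q2a ndN6q2 pcN0 Cut.none Ext.none)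

def k0_pp_202_a : ∃ t, chk3 f_pp_202_a t 1 1 1 = true :=
  ⟨(l 3), by decide +kernel⟩

theorem c_pp_202_a : CertNX 0 420477299 1073741824 536870912 1046898278 26843546 3 false true true .pp 2 0 2
    ndN2q2a ndN6q2 pcN0 Cut.none Ext.none :=
  certNX0 (fam := false) (s1 := true) (s2 := true) (a := 2) (b := 0) (c := 2) (cn := .pp) (n1 := ndN2q2a) (n2 := ndN6q2) (pc := pcN0) (cut := Cut.none) (xt := Ext.none) (P1 := 0) (W1 := 420477299) (P2 := 1073741824) (W2 := 536870912) (P3 := 1046898278) (W3 := 26843546) (N0 := 3)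
    rfl k0_pp_202_a

noncomputable def f_pp_202_b : ℕ → ℕ → ℕ → ℕ → Bool := onCell 1239849684 370763052 1073741824 536870912 1046898278 26843546
    (rowNX 3 0 false true true .pp 2 0 2 (qsf 1239849684 370763052 1073741824 536870912 0) ndN2q2b ndN6q2 pcN0 Cut.none Ext.none)

def k0_pp_202_b : ∃ t, chk3 f_pp_202_b t 1 1 1 = true :=
  ⟨(l 5), by decide +kernel⟩

theorem c_pp_202_b : CertNX 1239849684 370763052 1073741824 536870912 1046898278 26843546 3 false true true .pp 2 0 2
    ndN2q2b ndN6q2 pcN0 Cut.none Ext.none :=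
  certNX0 (fam := false) (s1 := true) (s2 := true) (a := 2) (b := 0) (c := 2) (cn := .pp) (n1 := ndN2q2b) (n2 := ndN6q2) (pc := pcN0) (cut := Cut.none) (xt := Ext.none) (P1 := 1239849684) (W1 := 370763052) (P2 := 1073741824) (W2 := 536870912) (P3 := 1046898278) (W3 := 26843546) (N0 := 3)
    rfl k0_pp_202_b

noncomputable def f_pp_203_a : ℕ → ℕ → ℕ → ℕ → Bool := onCell 0 420477299 0 1230186008 1046898278 26843546
    (rowNX 3 0 false true true .up 2 0 3 (qsf 0 420477299 0 1230186008 0) ndN2q2a ndN6q3 pcN0 Cut.none Ext.none)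

def k0_pp_203_a : ∃ t, chk3 f_pp_203_a t 1 1 1 = true :=
  ⟨(b (l 2) (l 3)), by decide +kernel⟩

theorem c_pp_203_a : CertNX 0 420477299 0 1230186008 1046898278 26843546 3 false true true .up 2 0 3
    ndN2q2a ndN6q3 pcN0 Cut.none Ext.none :=
  certNX0 (fam := false) (s1 := true) (s2 := true) (a := 2) (b := 0) (c := 3) (cn := .up) (n1 := ndN2q2a) (n2 := ndN6q3) (pc := pcN0) (cut := Cut.none) (xt := Ext.none) (P1 := 0) (W1 := 420477299) (P2 := 0) (W2 := 1230186008) (P3 := 1046898278) (W3 := 26843546) (N0 := 3)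
    rfl k0_pp_203_a

noncomputable def f_pp_203_b : ℕ → ℕ → ℕ → ℕ → Bool := onCell 1239849684 370763052 0 1230186008 1046898278 26843546
    (rowNX 3 0 false true true .up 2 0 3 (qsf 1239849684 370763052 0 1230186008 0) ndN2q2b ndN6q3 pcN0 Cut.none Ext.none)

def k0_pp_203_b : ∃ t, chk3 f_pp_203_b t 1 1 1 = true :=
  ⟨(b (l 3) (l 3)), by decide +kernel⟩

theorem c_pp_203_b : CertNX 1239849684 370763052 0 1230186008 1046898278 26843546 3 false true true .up 2 0 3
    ndN2q2b ndN6q3 pcN0 Cut.none Ext.none :=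
  certNX0 (fam := false) (s1 := true) (s2 := true) (a := 2) (b := 0) (c := 3) (cn := .up) (n1 := ndN2q2b) (n2 := ndN6q3) (pc := pcN0) (cut := Cut.none) (xt := Ext.none) (P1 := 1239849684) (W1 := 370763052) (P2 := 0) (W2 := 1230186008) (P3 := 1046898278) (W3 := 26843546) (N0 := 3)
    rfl k0_pp_203_b

noncomputable def f_pp_213_a : ℕ → ℕ → ℕ → ℕ → Bool := onCell 0 420477299 0 1230186008 1046898278 26843546
    (rowNX 3 0 false true true .pnn 2 1 3 (qsf 0 420477299 0 1230186008 1) ndN2q2a ndN6q3 pcN1 Cut.none Ext.none)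

def k0_pp_213_a : ∃ t, chk3 f_pp_213_a t 1 1 1 = true :=
  ⟨(b (l 3) (l 3)), by decide +kernel⟩

theorem c_pp_213_a : CertNX 0 420477299 0 1230186008 1046898278 26843546 3 false true true .pnn 2 1 3
    ndN2q2a ndN6q3 pcN1 Cut.none Ext.none :=
  certNX0 (fam := false) (s1 := true) (s2 := true) (a := 2) (b := 1) (c := 3) (cn := .pnn) (n1 := ndN2q2a) (n2 := ndN6q3) (pc := pcN1) (cut := Cut.none) (xt := Ext.none) (P1 := 0) (W1 := 420477299) (P2 := 0) (W2 := 1230186008) (P3 := 1046898278) (W3 := 26843546) (N0 := 3)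
    rfl k0_pp_213_a

noncomputable def f_pp_213_b : ℕ → ℕ → ℕ → ℕ → Bool := onCell 1239849684 370763052 0 1230186008 1046898278 26843546
    (rowNX 3 0 false true true .pnn 2 1 3 (qsf 1239849684 370763052 0 1230186008 1) ndN2q2b ndN6q3 pcN1 Cut.none Ext.none)

def k0_pp_213_b : ∃ t, chk3 f_pp_213_b t 1 1 1 = true :=
  ⟨(b (l 3) (l 3)), by decide +kernel⟩

theorem c_pp_213_b : CertNX 1239849684 370763052 0 1230186008 1046898278 26843546 3 false true true .pnn 2 1 3
    ndN2q2b ndN6q3 pcN1 Cut.none Ext.none :=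
  certNX0 (fam := false) (s1 := true) (s2 := true) (a := 2) (b := 1) (c := 3) (cn := .pnn) (n1 := ndN2q2b) (n2 := ndN6q3) (pc := pcN1) (cut := Cut.none) (xt := Ext.none) (P1 := 1239849684) (W1 := 370763052) (P2 := 0) (W2 := 1230186008) (P3 := 1046898278) (W3 := 26843546) (N0 := 3)
    rfl k0_pp_213_b

noncomputable def f_pp_303 : ℕ → ℕ → ℕ → ℕ → Bool := onCell 1610612736 469762048 0 1230186008 1046898278 26843546
    (rowNX 3 0 false true true .npn 3 0 3 (qsf 1610612736 469762048 0 1230186008 0) ndN2q3 ndN6q3 pcN0 Cut.none Ext.none)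

def k0_pp_303 : ∃ t, chk3 f_pp_303 t 1 1 1 = true :=
  ⟨(b (l 3) (l 3)), by decide +kernel⟩

theorem c_pp_303 : CertNX 1610612736 469762048 0 1230186008 1046898278 26843546 3 false true true .npn 3 0 3
    ndN2q3 ndN6q3 pcN0 Cut.none Ext.none :=
  certNX0 (fam := false) (s1 := true) (s2 := true) (a := 3) (b := 0) (c := 3) (cn := .npn) (n1 := ndN2q3) (n2 := ndN6q3) (pc := pcN0) (cut := Cut.none) (xt := Ext.none) (P1 := 1610612736) (W1 := 469762048) (P2 := 0) (W2 := 1230186008) (P3 := 1046898278) (W3 := 26843546) (N0 := 3)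
    rfl k0_pp_303

noncomputable def f_pp_313 : ℕ → ℕ → ℕ → ℕ → Bool := onCell 1610612736 469762048 0 1230186008 1046898278 26843546
    (rowNX 3 0 false true true .dn 3 1 3 (qsf 1610612736 469762048 0 1230186008 1) ndN2q3 ndN6q3 pcN1 Cut.none Ext.none)

def k0_pp_313 : ∃ t, chk3 f_pp_313 t 1 1 1 = true :=
  ⟨(b (l 3) (l 1)), by decide +kernel⟩

theorem c_pp_313 : CertNX 1610612736 469762048 0 1230186008 1046898278 26843546 3 false true true .dn 3 1 3
    ndN2q3 ndN6q3 pcN1 Cut.none Ext.none :=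
  certNX0 (fam := false) (s1 := true) (s2 := true) (a := 3) (b := 1) (c := 3) (cn := .dn) (n1 := ndN2q3) (n2 := ndN6q3) (pc := pcN1) (cut := Cut.none) (xt := Ext.none) (P1 := 1610612736) (W1 := 469762048) (P2 := 0) (W2 := 1230186008) (P3 := 1046898278) (W3 := 26843546) (N0 := 3)
    rfl k0_pp_313

noncomputable def f_pm_001 : ℕ → ℕ → ℕ → ℕ → Bool := onCell 67108864 469762048 536870912 469762048 1046898278 26843546
    (rowNX 3 0 false true false .up 0 0 1 (qsf 67108864 469762048 536870912 469762048 0) ndN2q0 ndN6q1 pcN0 Cut.none Ext.none)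

def k0_pm_001 : ∃ t, chk3 f_pm_001 t 1 1 1 = true :=
  ⟨(l 4), by decide +kernel⟩

theorem c_pm_001 : CertNX 67108864 469762048 536870912 469762048 1046898278 26843546 3 false true false .up 0 0 1
    ndN2q0 ndN6q1 pcN0 Cut.none Ext.none :=
  certNX0 (fam := false) (s1 := true) (s2 := false) (a := 0) (b := 0) (c := 1) (cn := .up) (n1 := ndN2q0) (n2 := ndN6q1) (pc := pcN0) (cut := Cut.none) (xt := Ext.none) (P1 := 67108864) (W1 := 469762048) (P2 := 536870912) (W2 := 469762048) (P3 := 1046898278) (W3 := 26843546) (N0 := 3)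
    rfl k0_pm_001

noncomputable def f_pm_011 : ℕ → ℕ → ℕ → ℕ → Bool := onCell 67108864 469762048 536870912 469762048 1046898278 26843546
    (rowNX 3 0 false true false .pnn 0 1 1 (qsf 67108864 469762048 536870912 469762048 1) ndN2q0 ndN6q1 pcN1 Cut.none Ext.none)

def k0_pm_011 : ∃ t, chk3 f_pm_011 t 1 1 1 = true :=
  ⟨(l 4), by decide +kernel⟩

theorem c_pm_011 : CertNX 67108864 469762048 536870912 469762048 1046898278 26843546 3 false true false .pnn 0 1 1
    ndN2q0 ndN6q1 pcN1 Cut.none Ext.none :=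
  certNX0 (fam := false) (s1 := true) (s2 := false) (a := 0) (b := 1) (c := 1) (cn := .pnn) (n1 := ndN2q0) (n2 := ndN6q1) (pc := pcN1) (cut := Cut.none) (xt := Ext.none) (P1 := 67108864) (W1 := 469762048) (P2 := 536870912) (W2 := 469762048) (P3 := 1046898278) (W3 := 26843546) (N0 := 3)
    rfl k0_pm_011

noncomputable def f_pm_012 : ℕ → ℕ → ℕ → ℕ → Bool := onCell 67108864 469762048 1073741824 536870912 1046898278 26843546
    (rowNX 3 0 false true false .pnp 0 1 2 (qsf 67108864 469762048 1073741824 536870912 1) ndN2q0 ndN6q2 pcN1 Cut.none Ext.none)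

def k0_pm_012 : ∃ t, chk3 f_pm_012 t 1 1 1 = true :=
  ⟨(l 4), by decide +kernel⟩

theorem c_pm_012 : CertNX 67108864 469762048 1073741824 536870912 1046898278 26843546 3 false true false .pnp 0 1 2
    ndN2q0 ndN6q2 pcN1 Cut.none Ext.none :=
  certNX0 (fam := false) (s1 := true) (s2 := false) (a := 0) (b := 1) (c := 2) (cn := .pnp) (n1 := ndN2q0) (n2 := ndN6q2) (pc := pcN1) (cut := Cut.none) (xt := Ext.none) (P1 := 67108864) (W1 := 469762048) (P2 := 1073741824) (W2 := 536870912) (P3 := 1046898278) (W3 := 26843546) (N0 := 3)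
    rfl k0_pm_012

noncomputable def f_pm_022 : ℕ → ℕ → ℕ → ℕ → Bool := onCell 67108864 469762048 1073741824 536870912 1046898278 26843546
    (rowNX 3 0 false true false .pp 0 2 2 (qsf 67108864 469762048 1073741824 536870912 2) ndN2q0 ndN6q2 pcN2 Cut.none Ext.none)

def k0_pm_022 : ∃ t, chk3 f_pm_022 t 1 1 1 = true :=
  ⟨(l 4), by decide +kernel⟩

theorem c_pm_022 : CertNX 67108864 469762048 1073741824 536870912 1046898278 26843546 3 false true false .pp 0 2 2
    ndN2q0 ndN6q2 pcN2 Cut.none Ext.none :=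
  certNX0 (fam := false) (s1 := true) (s2 := false) (a := 0) (b := 2) (c := 2) (cn := .pp) (n1 := ndN2q0) (n2 := ndN6q2) (pc := pcN2) (cut := Cut.none) (xt := Ext.none) (P1 := 67108864) (W1 := 469762048) (P2 := 1073741824) (W2 := 536870912) (P3 := 1046898278) (W3 := 26843546) (N0 := 3)
    rfl k0_pm_022

noncomputable def f_pm_023 : ℕ → ℕ → ℕ → ℕ → Bool := onCell 67108864 469762048 0 1230186008 1046898278 26843546
    (rowNX 3 0 false true false .up 0 2 3 (qsf 67108864 469762048 0 1230186008 2) ndN2q0 ndN6q3 pcN2 Cut.none Ext.none)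

def k0_pm_023 : ∃ t, chk3 f_pm_023 t 1 1 1 = true :=
  ⟨(b (b (l 4) (l 4)) (l 4)), by decide +kernel⟩

theorem c_pm_023 : CertNX 67108864 469762048 0 1230186008 1046898278 26843546 3 false true false .up 0 2 3
    ndN2q0 ndN6q3 pcN2 Cut.none Ext.none :=
  certNX0 (fam := false) (s1 := true) (s2 := false) (a := 0) (b := 2) (c := 3) (cn := .up) (n1 := ndN2q0) (n2 := ndN6q3) (pc := pcN2) (cut := Cut.none) (xt := Ext.none) (P1 := 67108864) (W1 := 469762048) (P2 := 0) (W2 := 1230186008) (P3 := 1046898278) (W3 := 26843546) (N0 := 3)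
    rfl k0_pm_023

noncomputable def f_pm_033 : ℕ → ℕ → ℕ → ℕ → Bool := onCell 67108864 469762048 0 1230186008 1046898278 26843546
    (rowNX 3 0 false true false .pnn 0 3 3 (qsf 67108864 469762048 0 1230186008 3) ndN2q0 ndN6q3 pcN3 Cut.none Ext.none)

def k0_pm_033 : ∃ t, chk3 f_pm_033 t 1 1 1 = true :=
  ⟨(b (b (l 4) (l 4)) (l 4)), by decide +kernel⟩

theorem c_pm_033 : CertNX 67108864 469762048 0 1230186008 1046898278 26843546 3 false true false .pnn 0 3 3
    ndN2q0 ndN6q3 pcN3 Cut.none Ext.none :=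
  certNX0 (fam := false) (s1 := true) (s2 := false) (a := 0) (b := 3) (c := 3) (cn := .pnn) (n1 := ndN2q0) (n2 := ndN6q3) (pc := pcN3) (cut := Cut.none) (xt := Ext.none) (P1 := 67108864) (W1 := 469762048) (P2 := 0) (W2 := 1230186008) (P3 := 1046898278) (W3 := 26843546) (N0 := 3)
    rfl k0_pm_033

noncomputable def f_pm_101 : ℕ → ℕ → ℕ → ℕ → Bool := onCell 536870912 536870912 536870912 469762048 1046898278 26843546
    (rowNX 3 0 false true false .npn 1 0 1 (qsf 536870912 536870912 536870912 469762048 0) ndN2q1 ndN6q1 pcN0 Cut.none Ext.none)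

def k0_pm_101 : ∃ t, chk3 f_pm_101 t 1 1 1 = true :=
  ⟨(l 4), by decide +kernel⟩

theorem c_pm_101 : CertNX 536870912 536870912 536870912 469762048 1046898278 26843546 3 false true false .npn 1 0 1
    ndN2q1 ndN6q1 pcN0 Cut.none Ext.none :=
  certNX0 (fam := false) (s1 := true) (s2 := false) (a := 1) (b := 0) (c := 1) (cn := .npn) (n1 := ndN2q1) (n2 := ndN6q1) (pc := pcN0) (cut := Cut.none) (xt := Ext.none) (P1 := 536870912) (W1 := 536870912) (P2 := 536870912) (W2 := 469762048) (P3 := 1046898278) (W3 := 26843546) (N0 := 3)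
    rfl k0_pm_101

noncomputable def f_pm_102 : ℕ → ℕ → ℕ → ℕ → Bool := onCell 536870912 536870912 1073741824 536870912 1046898278 26843546
    (rowNX 3 0 false true false .npp 1 0 2 (qsf 536870912 536870912 1073741824 536870912 0) ndN2q1 ndN6q2 pcN0 Cut.none Ext.none)

def k0_pm_102 : ∃ t, chk3 f_pm_102 t 1 1 1 = true :=
  ⟨(l 4), by decide +kernel⟩

theorem c_pm_102 : CertNX 536870912 536870912 1073741824 536870912 1046898278 26843546 3 false true false .npp 1 0 2
    ndN2q1 ndN6q2 pcN0 Cut.none Ext.none :=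
  certNX0 (fam := false) (s1 := true) (s2 := false) (a := 1) (b := 0) (c := 2) (cn := .npp) (n1 := ndN2q1) (n2 := ndN6q2) (pc := pcN0) (cut := Cut.none) (xt := Ext.none) (P1 := 536870912) (W1 := 536870912) (P2 := 1073741824) (W2 := 536870912) (P3 := 1046898278) (W3 := 26843546) (N0 := 3)
    rfl k0_pm_102

noncomputable def f_pm_112 : ℕ → ℕ → ℕ → ℕ → Bool := onCell 536870912 536870912 1073741824 536870912 1046898278 26843546
    (rowNX 3 0 false true false .dn 1 1 2 (qsf 536870912 536870912 1073741824 536870912 1) ndN2q1 ndN6q2 pcN1 Cut.none Ext.none)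

def k0_pm_112 : ∃ t, chk3 f_pm_112 t 1 1 1 = true :=
  ⟨(l 4), by decide +kernel⟩

theorem c_pm_112 : CertNX 536870912 536870912 1073741824 536870912 1046898278 26843546 3 false true false .dn 1 1 2
    ndN2q1 ndN6q2 pcN1 Cut.none Ext.none :=
  certNX0 (fam := false) (s1 := true) (s2 := false) (a := 1) (b := 1) (c := 2) (cn := .dn) (n1 := ndN2q1) (n2 := ndN6q2) (pc := pcN1) (cut := Cut.none) (xt := Ext.none) (P1 := 536870912) (W1 := 536870912) (P2 := 1073741824) (W2 := 536870912) (P3 := 1046898278) (W3 := 26843546) (N0 := 3)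
    rfl k0_pm_112

noncomputable def f_pm_113 : ℕ → ℕ → ℕ → ℕ → Bool := onCell 536870912 536870912 0 1230186008 1046898278 26843546
    (rowNX 3 2 false true false .nn 1 1 3 (qsf 536870912 536870912 0 1230186008 1) ndN2q1 ndN6q3 pcN1 Cut.none Ext.none)

def k0_pm_113 : ∃ t, chk3 f_pm_113 t 2 1 1 = true :=
  ⟨(b (l 2) (b (a (l 2) (a (l 2) (b (l 2) (b (l 2) (a (l 2) (l 4)))))) (b (a (l 2) (a (a (l 14060688) (l 4)) (l 4))) (b (l 4) (l 4))))), by decide +kernel⟩

def k1_pm_113 : ∃ t, chk3 f_pm_113 t 3 2 1 = true :=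
  ⟨(a (l 2) (b (a (l 2) (a (l 2) (b (l 1407775242567) (l 15971568)))) (a (b (l 622327236631) (b (l 13123888) (b (l 13117024) (b (a (l 13100104) (c (a (a (l 13301432) (l 13181528)) (c (a (l 13311240) (l 13297264)) (l 12992832))) (a (l 12367248) (l 12515368)))) (a (a (a (l 2) (c (l 13259136) (l 12728952))) (b (c (a (l 13286648) (a (a (l 13134328) (l 13130112)) (l 13137920))) (a (l 12604648) (a (a (l 12526224) (l 12518976)) (l 12526632)))) (b (a (c (l 13185872) (l 12615896)) (a (a (l 12670624) (l 12670272)) (l 12285656))) (a (a (l 12773584) (l 12286624)) (c (l 12626808) (l 11924384)))))) (a (c (a (b (b (l 13150744) (l 12955072)) (l 12715792)) (a (l 13130528) (l 13006904))) (b (a (a (l 12536608) (b (l 12538056) (l 12053096))) (l 12515856)) (l 12101456))) (c (c (a (l 12998360) (l 12896248)) (a (l 12678264) (l 12580440))) (l 12254128)))))))) (b (a (l 13541160) (a (l 13186184) (l 12779544))) (b (a (l 12885832) (l 12271224)) (a (c (c (a (a (l 13253640) (l 13107304)) (l 12838440))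 (a (b (l 12974400) (a (b (l 12936816) (l 12586248)) (c (l 12892504) (l 12756736)))) (l 12645904))) (a (l 12332352) (b (l 12237664) (c (a (l 12409792) (l 12131856)) (l 12022920))))) (c (a (l 12388704) (l 12151704)) (c (a (c (l 12210664) (a (l 12179352) (l 12060616))) (l 11905024)) (a (l 11949088) (c (l 11790504) (a (l 11756584) (l 11659696)))))))))))), by decide +kernel⟩

def k2_pm_113 : ∃ t, chk3 f_pm_113 t 3 3 1 = true :=
  ⟨(b (a (a (b (l 2) (b (a (l 691046636263) (a (l 13690512) (l 4))) (l 4))) (b (a (b (l 2) (l 12948968)) (b (b (a (l 2) (b (l 2) (a (l 2) (l 12398640)))) (a (l 12505984) (l 12431920))) (l 12609688))) (l 4))) (b (b (a (a (a (b (b (a (b (l 2) (l 12544448)) (c (c (l 13187184) (l 12908760)) (l 12117344))) (l 12267200)) (l 12334992)) (a (b (l 12259216) (l 12253176)) (l 12198560))) (c (c (a (l 12749040) (a (l 12835456) (l 12762480))) (a (l 12454520) (l 12611608))) (l 12123536))) (a (a (a (c (c (l 12721632) (l 12508864)) (l 12131568)) (l 4)) (l 4)) (l 4))) (l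 4)) (l 4))) (l 4)), by decide +kernel⟩

theorem s3_pm_113 : ∃ t, chk3 f_pm_113 t 3 1 1 = true := ex3_b k1_pm_113 k2_pm_113

theorem s4_pm_113 : ∃ t, chk3 f_pm_113 t 1 1 1 = true := ex3_a k0_pm_113 s3_pm_113

theorem c_pm_113 : CertNX 536870912 536870912 0 1230186008 1046898278 26843546 3 false true false .nn 1 1 3
    ndN2q1 ndN6q3 pcN1 Cut.none Ext.none :=
  certNX2 (fam := false) (s1 := true) (s2 := false) (a := 1) (b := 1) (c := 3) (cn := .nn) (n1 := ndN2q1) (n2 := ndN6q3) (pc := pcN1) (cut := Cut.none) (xt := Ext.none) (P1 := 536870912) (W1 := 536870912) (P2 := 0) (W2 := 1230186008) (P3 := 1046898278) (W3 := 26843546) (N0 := 3)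
    rfl (fun _ => rfl) s4_pm_113

noncomputable def f_pm_123 : ℕ → ℕ → ℕ → ℕ → Bool := onCell 1073741824 536870912 0 1230186008 1046898278 26843546
    (rowNX 3 2 false true false .npn 1 2 3 (qsf 536870912 536870912 0 1230186008 2) ndN2q1 ndN6q3 pcN2 Cut.none Ext.none)

def k0_pm_123 : ∃ t, chk3 f_pm_123 t 1 1 1 = true :=
  ⟨(b (b (a (a (a (a (b (l 15942576) (c (l 15271784) (l 14189912))) (c (b (l 15933456) (l 15096872)) (l 14359184))) (a (b (l 15610960) (c (l 14976376) (l 14673296))) (b (l 15142008) (l 14612672)))) (a (a (b (l 14997416) (l 14761488)) (l 15352176)) (a (l 15742712) (l 16009384)))) (a (a (b (l 16420200) (l 16307920)) (l 16676744)) (l 16688536))) (a (b (a (a (c (a (l 13872256) (l 13861048)) (a (a (l 12532528) (l 13022016)) (l 13526192))) (a (c (l 13818312) (l 13774664)) (l 14036552))) (a (a (l 14519176) (l 15050760)) (a (l 15428216) (l 4)))) (a (a (c (a (l 12624168) (b (l 13214184) (l 4))) (a (c (a (l 12130832) (l 12549632)) (a (l 11936312) (l 12404400))) (l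 12944696))) (a (c (b (l 13568816) (l 4)) (l 13340776)) (l 4))) (l 4))) (l 4))) (a (b (l 4) (l 4)) (l 4))), by decide +kernel⟩

theorem c_pm_123 : CertNX 536870912 536870912 0 1230186008 1046898278 26843546 3 false true false .npn 1 2 3
    ndN2q1 ndN6q3 pcN2 Cut.none Ext.none :=
  certNX2 (fam := false) (s1 := true) (s2 := false) (a := 1) (b := 2) (c := 3) (cn := .npn) (n1 := ndN2q1) (n2 := ndN6q3) (pc := pcN2) (cut := Cut.none) (xt := Ext.none) (P1 := 536870912) (W1 := 536870912) (P2 := 0) (W2 := 1230186008) (P3 := 1046898278) (W3 := 26843546) (N0 := 3)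
    rfl (fun _ => rfl) k0_pm_123

noncomputable def f_pm_133 : ℕ → ℕ → ℕ → ℕ → Bool := onCell 1610612736 536870912 0 1230186008 1046898278 26843546
    (rowNX 3 2 false true false .dn 1 3 3 (qsf 536870912 536870912 0 1230186008 3) ndN2q1 ndN6q3 pcN3 Cut.none Ext.none)

def k0_pm_133 : ∃ t, chk3 f_pm_133 t 1 1 1 = true :=
  ⟨(b (b (a (l 4) (l 1)) (l 1)) (l 1)), by decide +kernel⟩

theorem c_pm_133 : CertNX 536870912 536870912 0 1230186008 1046898278 26843546 3 false true false .dn 1 3 3
    ndN2q1 ndN6q3 pcN3 Cut.none Ext.none :=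
  certNX2 (fam := false) (s1 := true) (s2 := false) (a := 1) (b := 3) (c := 3) (cn := .dn) (n1 := ndN2q1) (n2 := ndN6q3) (pc := pcN3) (cut := Cut.none) (xt := Ext.none) (P1 := 536870912) (W1 := 536870912) (P2 := 0) (W2 := 1230186008) (P3 := 1046898278) (W3 := 26843546) (N0 := 3)
    rfl (fun _ => rfl) k0_pm_133

noncomputable def f_pm_202_a : ℕ → ℕ → ℕ → ℕ → Bool := onCell 0 420477299 0 536870912 1046898278 26843546
    (rowNX 3 1 false true false .pp 2 0 2 (qsf 0 420477299 1073741824 536870912 0) ndN2q2a ndN6q2 pcN0 Cut.none Ext.none)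

def k0_pm_202_a : ∃ t, chk3 f_pm_202_a t 2 8 1 = true :=
  ⟨(b (b (c (b (a (l 16384944) (a (l 16159848) (b (l 15844024) (l 15889936)))) (a (b (c (l 16555088) (l 16558328)) (c (l 16455232) (l 16432576))) (b (c (a (l 16317560) (l 15986128)) (l 15912152)) (c (l 16264512) (l 16059720))))) (b (a (b (c (l 16334240) (b (l 16167552) (l 16139744))) (c (l 16192768) (l 16440240))) (c (b (a (l 16079552) (l 15807448)) (a (l 16172240) (b (l 15835472) (l 15879472)))) (b (a (b (l 15907368) (l 16070064)) (c (l 15791592) (b (l 15763680) (l 15783720)))) (a (l 16183944) (l 15764672))))) (a (c (l 16309016) (l 16511696)) (c (a (l 16371064) (b (l 15970384) (l 16088184))) (l 16134496))))) (c (a (b (c (l 16080336) (l 16273592)) (l 15992784)) (c (b (a (l 16559040) (l 16271888)) (l 16304456)) (a (l 16326376) (l 16153768)))) (a (c (l 16200328) (l 16201792)) (a (l 16453800) (l 16190560))))) (a (c (b (l 15594744) (c (l 15513144) (l 15500832))) (b (l 15821864) (l 15466976))) (c (b (a (c (l 16091632) (l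 16108904)) (l 16260520)) (a (l 15637832) (c (l 16098608) (l 16095808)))) (b (l 16100568) (l 15890136))))), by decide +kernel⟩

def k1_pm_202_a : ∃ t, chk3 f_pm_202_a t 3 8 1 = true :=
  ⟨(b (a (b (c (b (a (l 15680872) (l 15662056)) (a (b (c (l 15611336) (l 15681560)) (c (l 15727424) (l 15721264))) (b (l 15609008) (c (l 15592304) (l 15583024))))) (b (a (c (b (l 15705072) (b (l 15676360) (l 15662176))) (b (c (l 15687880) (b (l 15685120) (l 15668944))) (l 15651216))) (c (l 15626448) (l 15435144))) (c (a (b (l 15667896) (l 15696360)) (l 15569384)) (a (l 15665968) (l 15540056))))) (c (a (b (c (b (l 15805312) (l 15906912)) (l 15673016)) (l 16057768)) (b (a (c (l 15599448) (l 15573152)) (l 15531736)) (a (l 15656240) (l 15490808)))) (a (b (l 15691528) (l 16005672)) (b (l 15440256) (l 15337896))))) (b (c (a (b (l 15518712) (c (l 15460256) (l 15441488))) (b (l 15115512) (c (l 15106216) (l 14934000)))) (a (b (c (l 15395552) (b (l 15302128) (l 15437976))) (c (l 15417976) (l 15386352)))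 (b (c (b (l 15072336) (l 15069128)) (b (c (l 15047080) (l 15030456)) (l 15038992))) (c (l 15050864) (l 15013256))))) (c (a (b (l 15402312) (l 15343296)) (b (l 15061128) (l 14999368))) (a (l 15302112) (l 14948424))))) (a (b (c (a (c (l 16380312) (l 16356728)) (b (l 15491784) (l 15750936))) (a (l 16340600) (l 15629816))) (c (a (b (l 16640456) (l 16456688)) (b (l 16091024) (l 16317840))) (a (l 16545944) (l 16194584)))) (a (a (b (c (b (l 15352240) (l 15299008)) (l 15336072)) (c (c (l 15509128) (l 15673960)) (l 15645184))) (b (l 15133952) (b (l 15127016) (c (l 15311688) (l 15259176))))) (b (c (l 14890528) (l 14810248)) (c (a (l 14894288) (l 14650880)) (l 14708232)))))), by decide +kernel⟩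

def k2_pm_202_a : ∃ t, chk3 f_pm_202_a t 1 9 1 = true :=
  ⟨(a (b (a (b (b (l 15223336) (l 15336768)) (l 15489432)) (b (a (l 15316528) (l 15658248)) (l 15585504))) (a (l 15766896) (l 15779016))) (b (a (b (b (a (l 16272656) (l 16495616)) (l 16295720)) (a (l 15900248) (l 16385216))) (a (b (b (c (l 15727960) (l 15734896)) (a (l 16215600) (l 15741008))) (l 16124632)) (b (b (a (l 14963368) (l 14538512)) (l 14892216)) (l 15129776)))) (a (a (l 15874496) (b (l 16069576) (l 16022880))) (a (b (a (l 16513632) (l 16453712)) (l 16373704)) (b (a (l 15955000) (l 15380448)) (l 15938104)))))), by decide +kernel⟩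

def k3_pm_202_a : ∃ t, chk3 f_pm_202_a t 1 5 1 = true :=
  ⟨(a (b (a (b (b (l 15952464) (l 16067576)) (l 16130336)) (l 16128944)) (b (a (b (l 16449872) (l 16434504)) (l 16476296)) (a (l 16400760) (l 16398856)))) (b (a (l 16221336) (a (b (l 16324728) (l 16502448)) (b (a (l 16646696) (l 16178024)) (l 16521368)))) (a (b (l 16551528) (l 16554912)) (a (l 16605504) (b (l 16349120) (l 16262752)))))), by decide +kernel⟩

def k4_pm_202_a : ∃ t, chk3 f_pm_202_a t 1 3 1 = true :=
  ⟨(a (b (b (a (l 16400216) (l 16398760)) (a (l 16400216) (l 16398760))) (l 2)) (a (b (b (l 16554784) (l 16554784)) (l 404363732055)) (b (a (b (l 16713464) (l 16713464)) (b (l 16262632) (l 16262632))) (a (b (l 16713464) (l 2)) (l 16262632))))), by decide +kernel⟩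

theorem s5_pm_202_a : ∃ t, chk3 f_pm_202_a t 1 8 1 = true := ex3_a k0_pm_202_a k1_pm_202_a

theorem s6_pm_202_a : ∃ t, chk3 f_pm_202_a t 1 4 1 = true := ex3_b s5_pm_202_a k2_pm_202_a

theorem s7_pm_202_a : ∃ t, chk3 f_pm_202_a t 1 2 1 = true := ex3_b s6_pm_202_a k3_pm_202_a

theorem s8_pm_202_a : ∃ t, chk3 f_pm_202_a t 1 1 1 = true := ex3_b s7_pm_202_a k4_pm_202_a

theorem c_pm_202_a : CertNX 0 420477299 1073741824 536870912 1046898278 26843546 3 false true false .pp 2 0 2
    ndN2q2a ndN6q2 pcN0 Cut.none Ext.none :=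
  certNX1 (fam := false) (s1 := true) (s2 := false) (a := 2) (b := 0) (c := 2) (cn := .pp) (n1 := ndN2q2a) (n2 := ndN6q2) (pc := pcN0) (cut := Cut.none) (xt := Ext.none) (P1 := 0) (W1 := 420477299) (P2 := 1073741824) (W2 := 536870912) (P3 := 1046898278) (W3 := 26843546) (N0 := 3)
    rfl (fun _ => rfl) s8_pm_202_a

noncomputable def f_pm_202_b : ℕ → ℕ → ℕ → ℕ → Bool := onCell 1239849684 370763052 0 536870912 1046898278 26843546
    (rowNX 3 1 false true false .pp 2 0 2 (qsf 1239849684 370763052 1073741824 536870912 0) ndN2q2b ndN6q2 pcN0 Cut.none Ext.none)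

def k0_pm_202_b : ∃ t, chk3 f_pm_202_b t 2 8 1 = true :=
  ⟨(b (a (b (c (a (b (a (l 16323776) (l 15801168)) (b (a (l 15936544) (l 15570656)) (c (l 15752192) (a (l 16060376) (l 15548376))))) (b (a (l 15331744) (l 15135040)) (b (a (l 15169168) (l 15162064)) (c (l 15204120) (l 15154208))))) (b (a (c (b (l 16108152) (a (l 16282480) (l 15748344))) (b (c (l 16003856) (b (l 16050840) (l 16080832))) (l 15833528))) (c (a (b (l 15338936) (l 15271848)) (l 15107752)) (b (a (c (l 15328440) (l 15320464)) (l 15084408)) (l 15026768)))) (a (c (a (l 16117504) (l 15592768)) (l 15853680)) (c (l 14951488) (l 15151736))))) (c (a (b (c (b (l 15712120) (l 15453120)) (b (l 15589416) (l 15607360))) (a (l 15721920) (l 15270808))) (b (c (l 15156880) (l 15141520)) (l 15158272))) (a (a (l 15725224) (l 15348696)) (l 15150640)))) (b (c (b (l 15005656) (c (l 15052400) (l 15013040))) (b (c (l 14976232) (b (l 14951216) (l 14955544))) (l 14972832))) (c (b (l 15017272) (l 15031432)) (l 15015064)))) (a (a (b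 (c (a (l 15383880) (l 15215752)) (a (l 15474384) (l 15191664))) (c (a (c (l 15203720) (l 15293176)) (l 15250312)) (l 15242792))) (c (b (l 15222072) (l 15304376)) (l 15225864))) (b (l 15064592) (l 15163904)))), by decide +kernel⟩

def k1_pm_202_b : ∃ t, chk3 f_pm_202_b t 3 8 1 = true :=
  ⟨(b (b (a (c (b (l 14770008) (l 14798056)) (b (c (l 14736696) (l 14712136)) (l 14732400))) (c (b (l 14226800) (c (b (l 14530752) (l 14543432)) (b (l 14469944) (l 14463416)))) (b (a (l 14514912) (c (l 427444616327) (b (l 14136280) (l 14356856)))) (c (a (l 14527632) (l 14394920)) (l 14404656))))) (a (c (l 14797360) (l 14779624)) (c (b (c (a (l 14580256) (l 14419296)) (l 14504128)) (a (l 14604896) (l 14431472))) (a (l 14579544) (l 14419976))))) (b (a (c (a (l 14936976) (l 14769496)) (l 14773896)) (c (a (l 14564504) (l 484353229895)) (l 434424126167))) (c (a (c (b (l 14937608) (l 15021352)) (l 14957168)) (a (a (l 14589160) (l 436035383431)) (l 2))) (a (l 14898168) (l 14355872))))), by decide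 +kernel⟩

def k2_pm_202_b : ∃ t, chk3 f_pm_202_b t 1 9 1 = true :=
  ⟨(b (a (a (b (a (l 15338368) (l 15430856)) (l 15626088)) (b (b (l 15271472) (l 15365656)) (l 15543808))) (b (a (b (c (l 15047584) (l 15068896)) (l 15231992)) (a (c (l 14994032) (l 15027872)) (l 2))) (a (a (l 15570648) (c (l 15512656) (l 15511976))) (a (a (a (l 15495104) (l 2)) (l 2)) (l 2))))) (a (b (a (l 15878720) (b (l 15910464) (l 16044576))) (a (a (l 15938848) (l 16093672)) (l 16146120))) (a (b (b (a (l 15927168) (a (l 15751512) (l 16030768))) (a (l 16094008) (l 16073040))) (a (l 16297408) (a (l 16432816) (l 2)))) (l 2)))), by decide +kernel⟩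

def k3_pm_202_b : ∃ t, chk3 f_pm_202_b t 1 5 1 = true :=
  ⟨(b (a (b (a (b (a (l 16087032) (l 16218824)) (a (l 16091200) (l 16412032))) (b (a (l 16295360) (l 16428000)) (a (l 16469096) (l 16540128)))) (b (a (a (l 16324376) (l 16524640)) (l 16612768)) (a (a (l 16464624) (l 16606448)) (a (l 16696936) (l 16774952))))) (a (a (b (b (l 16428000) (l 16729640)) (b (l 16757488) (l 16708440))) (b (a (l 419933979415) (l 2)) (l 2))) (l 2))) (a (b (a (b (a (l 16559744) (l 16687704)) (l 16553080)) (a (l 16770032) (l 16763368))) (a (a (l 16555272) (l 16750272)) (l 16777144))) (l 2))), by decide +kernel⟩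

def k4_pm_202_b : ∃ t, chk3 f_pm_202_b t 1 3 1 = true :=
  ⟨(b (a (a (b (l 16634960) (a (l 16555232) (l 2))) (b (l 137002745863) (l 2))) (l 2)) (l 2)), by decide +kernel⟩

theorem s5_pm_202_b : ∃ t, chk3 f_pm_202_b t 1 8 1 = true := ex3_a k0_pm_202_b k1_pm_202_b

theorem s6_pm_202_b : ∃ t, chk3 f_pm_202_b t 1 4 1 = true := ex3_b s5_pm_202_b k2_pm_202_b

theorem s7_pm_202_b : ∃ t, chk3 f_pm_202_b t 1 2 1 = true := ex3_b s6_pm_202_b k3_pm_202_b

theorem s8_pm_202_b : ∃ t, chk3 f_pm_202_b t 1 1 1 = true := ex3_b s7_pm_202_b k4_pm_202_b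

theorem c_pm_202_b : CertNX 1239849684 370763052 1073741824 536870912 1046898278 26843546 3 false true false .pp 2 0 2
    ndN2q2b ndN6q2 pcN0 Cut.none Ext.none :=
  certNX1 (fam := false) (s1 := true) (s2 := false) (a := 2) (b := 0) (c := 2) (cn := .pp) (n1 := ndN2q2b) (n2 := ndN6q2) (pc := pcN0) (cut := Cut.none) (xt := Ext.none) (P1 := 1239849684) (W1 := 370763052) (P2 := 1073741824) (W2 := 536870912) (P3 := 1046898278) (W3 := 26843546) (N0 := 3)
    rfl (fun _ => rfl) s8_pm_202_b

noncomputable def f_pm_203_a : ℕ → ℕ → ℕ → ℕ → Bool := onCell 0 420477299 0 1230186008 1046898278 26843546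
    (rowNX 3 0 false true false .up 2 0 3 (qsf 0 420477299 0 1230186008 0) ndN2q2a ndN6q3 pcN0 Cut.none Ext.none)

def k0_pm_203_a : ∃ t, chk3 f_pm_203_a t 1 1 1 = true :=
  ⟨(b (l 2) (b (l 2) (b (b (l 2) (a (a (b (l 2) (l 16400216)) (l 16398760)) (a (l 16554784) (l 2)))) (a (b (a (l 16400216) (l 16398760)) (a (l 16400216) (l 16398760))) (a (b (l 16554784) (l 16554784)) (a (b (l 16713464) (l 16713464)) (b (l 16262632) (l 16262632)))))))), by decide +kernel⟩

theorem c_pm_203_a : CertNX 0 420477299 0 1230186008 1046898278 26843546 3 false true false .up 2 0 3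
    ndN2q2a ndN6q3 pcN0 Cut.none Ext.none :=
  certNX0 (fam := false) (s1 := true) (s2 := false) (a := 2) (b := 0) (c := 3) (cn := .up) (n1 := ndN2q2a) (n2 := ndN6q3) (pc := pcN0) (cut := Cut.none) (xt := Ext.none) (P1 := 0) (W1 := 420477299) (P2 := 0) (W2 := 1230186008) (P3 := 1046898278) (W3 := 26843546) (N0 := 3)
    rfl k0_pm_203_a

noncomputable def f_pm_203_b : ℕ → ℕ → ℕ → ℕ → Bool := onCell 0 536870912 0 1230186008 1046898278 26843546
    (rowNX 3 2 false true false .up 2 0 3 (qsf 1239849684 370763052 0 1230186008 0) ndN2q2b ndN6q3 pcN0 Cut.none Ext.none)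

def k0_pm_203_b : ∃ t, chk3 f_pm_203_b t 2 1 1 = true :=
  ⟨(b (l 2) (b (l 3) (a (b (l 2) (b (a (l 2) (b (a (l 2) (a (c (l 15356792) (l 15306848)) (l 15558792))) (a (a (a (c (l 14718288) (l 14645864)) (l 568642585767)) (c (l 15026608) (l 15012184))) (c (b (l 15369272) (l 15754360)) (b (l 15409592) (l 15718456)))))) (a (a (b (l 2) (a (c (a (l 14281120) (l 485963406791)) (a (c (l 14239752) (l 14209200)) (l 14264768))) (c (a (l 14345336) (l 14409600)) (l 14358064)))) (c (a (c (l 14498832) (a (l 497237926103) (l 14512712))) (c (a (l 478447873975) (a (l 14703912) (l 14714160))) (l 14627736))) (a (l 508512151639) (l 14397816)))) (a (a (a (c (l 14687520) (l 14739888)) (c (l 15150632) (l 15101024))) (b (b (l 15409368) (c (l 15781680) (l 15768384))) (a (l 15525768) (l 15874776)))) (a (b (c (l 16097296) (l 16098080)) (a (l 16253208) (l 16438320))) (b (l 16284792) (l 16547744))))))) (a (b (a (l 3) (l 299740040599)) (b (b (a (l 15815272) (l 16178648)) (a (b (l 15854264) (l 16024344))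 (l 16099728))) (b (a (l 16368672) (l 16530672)) (a (l 16709520) (l 16768112))))) (b (a (a (l 293298324135) (l 289540854647)) (c (l 287393923111) (l 278803992951))) (a (b (a (l 16474376) (l 16658640)) (l 16725536)) (b (a (l 16765208) (l 16777216)) (l 16777128)))))))), by decide +kernel⟩

def k1_pm_203_b : ∃ t, chk3 f_pm_203_b t 3 1 1 = true :=
  ⟨(b (l 3) (b (a (l 3) (a (l 3) (a (l 3) (b (l 3) (b (l 3) (l 16777216)))))) (a (b (a (c (l 276656291847) (l 266455744519)) (c (l 148344143879) (l 253033971719))) (b (a (c (l 16777216) (l 16777216)) (c (l 16765408) (l 16765000))) (a (l 16759312) (b (l 16688240) (l 16577632))))) (b (a (c (b (l 16777216) (l 16764168)) (b (l 16777216) (l 16763704))) (a (b (l 16777088) (c (l 16686416) (l 16683224))) (b (l 16713848) (c (b (l 16624352) (l 16510984)) (l 318934431543))))) (b (a (a (b (l 16752528) (l 16649304)) (l 16583120)) (b (l 16485792) (a (l 16540872) (l 1)))) (a (b (l 16556648) (a (l 16573320) (l 1))) (l 1))))))), by decide +kernel⟩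

theorem s2_pm_203_b : ∃ t, chk3 f_pm_203_b t 1 1 1 = true := ex3_a k0_pm_203_b k1_pm_203_b

theorem c_pm_203_b : CertNX 1239849684 370763052 0 1230186008 1046898278 26843546 3 false true false .up 2 0 3
    ndN2q2b ndN6q3 pcN0 Cut.none Ext.none :=
  certNX2 (fam := false) (s1 := true) (s2 := false) (a := 2) (b := 0) (c := 3) (cn := .up) (n1 := ndN2q2b) (n2 := ndN6q3) (pc := pcN0) (cut := Cut.none) (xt := Ext.none) (P1 := 1239849684) (W1 := 370763052) (P2 := 0) (W2 := 1230186008) (P3 := 1046898278) (W3 := 26843546) (N0 := 3)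
    rfl (fun _ => rfl) s2_pm_203_b

noncomputable def f_pm_213_a : ℕ → ℕ → ℕ → ℕ → Bool := onCell 0 420477299 0 1230186008 1046898278 26843546
    (rowNX 3 0 false true false .pnn 2 1 3 (qsf 0 420477299 0 1230186008 1) ndN2q2a ndN6q3 pcN1 Cut.none Ext.none)

def k0_pm_213_a : ∃ t, chk3 f_pm_213_a t 1 2 1 = true :=
  ⟨(b (a (l 3) (a (l 3) (b (l 3) (a (l 3) (b (l 3) (c (a (l 260549894439) (b (l 342153905975) (l 16458200))) (a (l 299204519879) (b (l 351817498103) (l 16421720))))))))) (a (b (l 3) (a (l 3) (b (l 3) (a (l 3) (l 423758121799))))) (a (b (b (l 3) (a (l 3) (l 317994873527))) (b (a (l 426442616407) (b (l 16640944) (l 16628072))) (a (l 188608743255) (l 16549600)))) (b (a (b (a (l 3) (b (l 228874645159) (a (l 16695376) (l 16636800)))) (a (c (l 243906866647) (l 16644360)) (b (a (l 16663728) (l 16597168)) (l 16624432)))) (b (a (b (l 16502896) (l 16505672)) (c (l 16349280) (l 16303688))) (a (b (l 16465928) (a (l 16497656) (l 16388880))) (b (l 16241464) (l 16207288))))) (a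 (b (a (a (l 16719808) (l 16760800)) (l 16625120)) (a (l 16692240) (l 16627000))) (b (a (l 16430400) (b (a (l 16248720) (l 16112288)) (l 16160664))) (c (l 16277984) (l 16253752)))))))), by decide +kernel⟩

def k1_pm_213_a : ∃ t, chk3 f_pm_213_a t 1 3 1 = true :=
  ⟨(b (a (b (a (b (l 3) (a (l 421073877111) (l 16381216))) (b (a (l 16376880) (l 16419848)) (a (l 16376904) (l 16419864)))) (a (b (c (l 16406728) (l 16393728)) (c (l 16406712) (l 16393704))) (b (a (l 16376872) (l 16419832)) (c (l 16405288) (l 16392232))))) (b (a (b (a (l 16496480) (l 16613872)) (l 16429016)) (a (b (a (l 16745216) (l 16619360)) (a (l 16747904) (l 16620176))) (b (a (l 16391328) (l 16124816)) (b (l 16261312) (l 16262696))))) (a (c (b (l 16537672) (l 16558624)) (b (l 16550976) (l 16550952))) (a (l 16713480) (l 16262648))))) (b (a (a (a (b (c (l 16426720) (l 16414416)) (b (l 16420576) (l 16420576))) (b (c (l 16387984) (l 16374328)) (l 16381160))) (b (a (b (l 16376848) (l 16376848)) (l 16419808)) (l 16398760)))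 (a (l 16554784) (a (l 16713464) (l 16262632)))) (a (b (l 1) (l 1)) (a (b (l 16554784) (l 1)) (a (l 16713464) (l 16262632)))))), by decide +kernel⟩

theorem s2_pm_213_a : ∃ t, chk3 f_pm_213_a t 1 1 1 = true := ex3_b k0_pm_213_a k1_pm_213_a

theorem c_pm_213_a : CertNX 0 420477299 0 1230186008 1046898278 26843546 3 false true false .pnn 2 1 3
    ndN2q2a ndN6q3 pcN1 Cut.none Ext.none :=
  certNX0 (fam := false) (s1 := true) (s2 := false) (a := 2) (b := 1) (c := 3) (cn := .pnn) (n1 := ndN2q2a) (n2 := ndN6q3) (pc := pcN1) (cut := Cut.none) (xt := Ext.none) (P1 := 0) (W1 := 420477299) (P2 := 0) (W2 := 1230186008) (P3 := 1046898278) (W3 := 26843546) (N0 := 3)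
    rfl s2_pm_213_a

noncomputable def f_pm_213_b : ℕ → ℕ → ℕ → ℕ → Bool := onCell 1239849684 370763052 0 1230186008 1046898278 26843546
    (rowNX 3 0 false true false .pnn 2 1 3 (qsf 1239849684 370763052 0 1230186008 1) ndN2q2b ndN6q3 pcN1 Cut.none Ext.none)

def k0_pm_213_b : ∃ t, chk3 f_pm_213_b t 1 1 1 = true :=
  ⟨(b (b (l 3) (l 3)) (b (a (b (a (l 3) (l 3)) (b (a (a (c (l 16559080) (l 16551416)) (l 3)) (l 3)) (a (a (c (l 16517112) (l 16530432)) (c (l 16750728) (l 16749800))) (a (l 342154543095) (l 1))))) (l 3)) (a (b (a (a (b (c (l 16538088) (l 16530432)) (c (b (l 16559056) (l 16559056)) (b (l 16551400) (l 16551400)))) (b (c (l 16750728) (l 16749800)) (l 1))) (l 1)) (l 1)) (l 1)))), by decide +kernel⟩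

theorem c_pm_213_b : CertNX 1239849684 370763052 0 1230186008 1046898278 26843546 3 false true false .pnn 2 1 3
    ndN2q2b ndN6q3 pcN1 Cut.none Ext.none :=
  certNX0 (fam := false) (s1 := true) (s2 := false) (a := 2) (b := 1) (c := 3) (cn := .pnn) (n1 := ndN2q2b) (n2 := ndN6q3) (pc := pcN1) (cut := Cut.none) (xt := Ext.none) (P1 := 1239849684) (W1 := 370763052) (P2 := 0) (W2 := 1230186008) (P3 := 1046898278) (W3 := 26843546) (N0 := 3)
    rfl k0_pm_213_b

noncomputable def f_pm_303 : ℕ → ℕ → ℕ → ℕ → Bool := onCell 0 536870912 0 1230186008 1046898278 26843546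
    (rowNX 3 2 false true false .npn 3 0 3 (qsf 1610612736 469762048 0 1230186008 0) ndN2q3 ndN6q3 pcN0 Cut.none Ext.none)

def k0_pm_303 : ∃ t, chk3 f_pm_303 t 1 1 1 = true :=
  ⟨(b (l 3) (a (b (l 3) (b (b (l 3) (a (l 3) (a (a (l 3) (l 277191462295)) (l 1)))) (b (b (a (a (l 3) (a (a (c (l 264840485527) (l 14634408)) (c (l 15038672) (l 14977544))) (a (c (l 15356792) (l 15306848)) (l 15558792)))) (a (a (l 15815272) (l 1)) (l 1))) (a (a (a (c (a (a (l 14069352) (a (l 14116216) (l 261081285095))) (c (l 14269968) (l 13992648))) (a (c (a (l 13939960) (l 14081304)) (a (c (l 13970768) (a (l 283629410071) (l 13962088))) (c (a (l 13923592) (l 14073888)) (l 14025768)))) (c (a (c (l 14176544) (l 13966456)) (l 266986986551)) (l 14152536)))) (c (a (c (l 14203208) (c (a (l 14387288) (l 14451928)) (l 257860395095))) (c (c (a (l 14590512) (l 14447688)) (a (l 14547224) (l 14587768))) (l 14522944))) (l 14389096))) (a (a (a (c (l 14718288) (l 14645864)) (c (l 14875568) (l 14808720))) (c (l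 15026608) (l 15012184))) (b (c (l 15369272) (l 15409592)) (l 1)))) (l 1))) (a (a (a (b (c (a (a (l 14156048) (a (l 14225016) (l 14041576))) (b (l 14258968) (l 14313600))) (a (a (c (l 14088024) (l 13912656)) (c (l 14135200) (l 14106024))) (a (l 14197344) (l 14258000)))) (a (c (a (l 14281120) (c (l 14332848) (l 14320832))) (a (c (l 14239752) (l 14209200)) (l 14264768))) (c (a (l 14345336) (l 14409600)) (l 14358064)))) (c (a (c (l 14498832) (b (c (l 14313928) (l 14434824)) (l 14515240))) (c (a (b (l 14608352) (l 1)) (a (l 14703912) (l 14714160))) (l 14627736))) (a (b (l 14381528) (l 14468736)) (l 14397816)))) (a (a (a (c (l 14687520) (l 14739888)) (l 1)) (l 1)) (l 1))) (l 1))))) (b (a (l 3) (b (l 3) (l 1))) (l 1)))), by decide +kernel⟩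

theorem c_pm_303 : CertNX 1610612736 469762048 0 1230186008 1046898278 26843546 3 false true false .npn 3 0 3
    ndN2q3 ndN6q3 pcN0 Cut.none Ext.none :=
  certNX2 (fam := false) (s1 := true) (s2 := false) (a := 3) (b := 0) (c := 3) (cn := .npn) (n1 := ndN2q3) (n2 := ndN6q3) (pc := pcN0) (cut := Cut.none) (xt := Ext.none) (P1 := 1610612736) (W1 := 469762048) (P2 := 0) (W2 := 1230186008) (P3 := 1046898278) (W3 := 26843546) (N0 := 3)
    rfl (fun _ => rfl) k0_pm_303

noncomputable def f_pm_313 : ℕ → ℕ → ℕ → ℕ → Bool := onCell 1610612736 469762048 0 1230186008 1046898278 26843546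
    (rowNX 3 0 false true false .dn 3 1 3 (qsf 1610612736 469762048 0 1230186008 1) ndN2q3 ndN6q3 pcN1 Cut.none Ext.none)

def k0_pm_313 : ∃ t, chk3 f_pm_313 t 1 1 1 = true :=
  ⟨(b (l 3) (l 1)), by decide +kernel⟩

theorem c_pm_313 : CertNX 1610612736 469762048 0 1230186008 1046898278 26843546 3 false true false .dn 3 1 3
    ndN2q3 ndN6q3 pcN1 Cut.none Ext.none :=
  certNX0 (fam := false) (s1 := true) (s2 := false) (a := 3) (b := 1) (c := 3) (cn := .dn) (n1 := ndN2q3) (n2 := ndN6q3) (pc := pcN1) (cut := Cut.none) (xt := Ext.none) (P1 := 1610612736) (W1 := 469762048) (P2 := 0) (W2 := 1230186008) (P3 := 1046898278) (W3 := 26843546) (N0 := 3)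
    rfl k0_pm_313

noncomputable def f_mm_001 : ℕ → ℕ → ℕ → ℕ → Bool := onCell 67108864 469762048 536870912 469762048 1046898278 26843546
    (rowNX 3 0 false false false .up 0 0 1 (qsf 67108864 469762048 536870912 469762048 0) ndN2q0 ndN6q1 pcN0 Cut.none Ext.none)

def k0_mm_001 : ∃ t, chk3 f_mm_001 t 1 1 1 = true :=
  ⟨(l 3), by decide +kernel⟩

theorem c_mm_001 : CertNX 67108864 469762048 536870912 469762048 1046898278 26843546 3 false false false .up 0 0 1
    ndN2q0 ndN6q1 pcN0 Cut.none Ext.none :=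
  certNX0 (fam := false) (s1 := false) (s2 := false) (a := 0) (b := 0) (c := 1) (cn := .up) (n1 := ndN2q0) (n2 := ndN6q1) (pc := pcN0) (cut := Cut.none) (xt := Ext.none) (P1 := 67108864) (W1 := 469762048) (P2 := 536870912) (W2 := 469762048) (P3 := 1046898278) (W3 := 26843546) (N0 := 3)
    rfl k0_mm_001

noncomputable def f_mm_011 : ℕ → ℕ → ℕ → ℕ → Bool := onCell 67108864 469762048 536870912 469762048 1046898278 26843546
    (rowNX 3 0 false false false .pnn 0 1 1 (qsf 67108864 469762048 536870912 469762048 1) ndN2q0 ndN6q1 pcN1 Cut.none Ext.none)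

def k0_mm_011 : ∃ t, chk3 f_mm_011 t 1 1 1 = true :=
  ⟨(l 3), by decide +kernel⟩

theorem c_mm_011 : CertNX 67108864 469762048 536870912 469762048 1046898278 26843546 3 false false false .pnn 0 1 1
    ndN2q0 ndN6q1 pcN1 Cut.none Ext.none :=
  certNX0 (fam := false) (s1 := false) (s2 := false) (a := 0) (b := 1) (c := 1) (cn := .pnn) (n1 := ndN2q0) (n2 := ndN6q1) (pc := pcN1) (cut := Cut.none) (xt := Ext.none) (P1 := 67108864) (W1 := 469762048) (P2 := 536870912) (W2 := 469762048) (P3 := 1046898278) (W3 := 26843546) (N0 := 3)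
    rfl k0_mm_011

noncomputable def f_mm_012 : ℕ → ℕ → ℕ → ℕ → Bool := onCell 67108864 469762048 1073741824 536870912 1046898278 26843546
    (rowNX 3 0 false false false .pnp 0 1 2 (qsf 67108864 469762048 1073741824 536870912 1) ndN2q0 ndN6q2 pcN1 Cut.none Ext.none)

def k0_mm_012 : ∃ t, chk3 f_mm_012 t 1 1 1 = true :=
  ⟨(l 5), by decide +kernel⟩

theorem c_mm_012 : CertNX 67108864 469762048 1073741824 536870912 1046898278 26843546 3 false false false .pnp 0 1 2
    ndN2q0 ndN6q2 pcN1 Cut.none Ext.none :=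
  certNX0 (fam := false) (s1 := false) (s2 := false) (a := 0) (b := 1) (c := 2) (cn := .pnp) (n1 := ndN2q0) (n2 := ndN6q2) (pc := pcN1) (cut := Cut.none) (xt := Ext.none) (P1 := 67108864) (W1 := 469762048) (P2 := 1073741824) (W2 := 536870912) (P3 := 1046898278) (W3 := 26843546) (N0 := 3)
    rfl k0_mm_012

noncomputable def f_mm_022 : ℕ → ℕ → ℕ → ℕ → Bool := onCell 67108864 469762048 1073741824 536870912 1046898278 26843546
    (rowNX 3 0 false false false .pp 0 2 2 (qsf 67108864 469762048 1073741824 536870912 2) ndN2q0 ndN6q2 pcN2 Cut.none Ext.none)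

def k0_mm_022 : ∃ t, chk3 f_mm_022 t 1 1 1 = true :=
  ⟨(l 5), by decide +kernel⟩

theorem c_mm_022 : CertNX 67108864 469762048 1073741824 536870912 1046898278 26843546 3 false false false .pp 0 2 2
    ndN2q0 ndN6q2 pcN2 Cut.none Ext.none :=
  certNX0 (fam := false) (s1 := false) (s2 := false) (a := 0) (b := 2) (c := 2) (cn := .pp) (n1 := ndN2q0) (n2 := ndN6q2) (pc := pcN2) (cut := Cut.none) (xt := Ext.none) (P1 := 67108864) (W1 := 469762048) (P2 := 1073741824) (W2 := 536870912) (P3 := 1046898278) (W3 := 26843546) (N0 := 3)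
    rfl k0_mm_022

noncomputable def f_mm_023 : ℕ → ℕ → ℕ → ℕ → Bool := onCell 67108864 469762048 0 1230186008 1046898278 26843546
    (rowNX 3 0 false false false .up 0 2 3 (qsf 67108864 469762048 0 1230186008 2) ndN2q0 ndN6q3 pcN2 Cut.none Ext.none)

def k0_mm_023 : ∃ t, chk3 f_mm_023 t 1 1 1 = true :=
  ⟨(l 5), by decide +kernel⟩

theorem c_mm_023 : CertNX 67108864 469762048 0 1230186008 1046898278 26843546 3 false false false .up 0 2 3
    ndN2q0 ndN6q3 pcN2 Cut.none Ext.none :=
  certNX0 (fam := false) (s1 := false) (s2 := false) (a := 0) (b := 2) (c := 3) (cn := .up) (n1 := ndN2q0) (n2 := ndN6q3) (pc := pcN2) (cut := Cut.none) (xt := Ext.none) (P1 := 67108864) (W1 := 469762048) (P2 := 0) (W2 := 1230186008) (P3 := 1046898278) (W3 := 26843546) (N0 := 3)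
    rfl k0_mm_023

noncomputable def f_mm_033 : ℕ → ℕ → ℕ → ℕ → Bool := onCell 67108864 469762048 0 1230186008 1046898278 26843546
    (rowNX 3 0 false false false .pnn 0 3 3 (qsf 67108864 469762048 0 1230186008 3) ndN2q0 ndN6q3 pcN3 Cut.none Ext.none)

def k0_mm_033 : ∃ t, chk3 f_mm_033 t 1 1 1 = true :=
  ⟨(l 5), by decide +kernel⟩

theorem c_mm_033 : CertNX 67108864 469762048 0 1230186008 1046898278 26843546 3 false false false .pnn 0 3 3
    ndN2q0 ndN6q3 pcN3 Cut.none Ext.none :=
  certNX0 (fam := false) (s1 := false) (s2 := false) (a := 0) (b := 3) (c := 3) (cn := .pnn) (n1 := ndN2q0) (n2 := ndN6q3) (pc := pcN3) (cut := Cut.none) (xt := Ext.none) (P1 := 67108864) (W1 := 469762048) (P2 := 0) (W2 := 1230186008) (P3 := 1046898278) (W3 := 26843546) (N0 := 3)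
    rfl k0_mm_033

noncomputable def f_mm_101 : ℕ → ℕ → ℕ → ℕ → Bool := onCell 536870912 536870912 536870912 469762048 1046898278 26843546
    (rowNX 3 0 false false false .npn 1 0 1 (qsf 536870912 536870912 536870912 469762048 0) ndN2q1 ndN6q1 pcN0 Cut.none Ext.none)

def k0_mm_101 : ∃ t, chk3 f_mm_101 t 1 1 1 = true :=
  ⟨(l 3), by decide +kernel⟩

theorem c_mm_101 : CertNX 536870912 536870912 536870912 469762048 1046898278 26843546 3 false false false .npn 1 0 1
    ndN2q1 ndN6q1 pcN0 Cut.none Ext.none :=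
  certNX0 (fam := false) (s1 := false) (s2 := false) (a := 1) (b := 0) (c := 1) (cn := .npn) (n1 := ndN2q1) (n2 := ndN6q1) (pc := pcN0) (cut := Cut.none) (xt := Ext.none) (P1 := 536870912) (W1 := 536870912) (P2 := 536870912) (W2 := 469762048) (P3 := 1046898278) (W3 := 26843546) (N0 := 3)
    rfl k0_mm_101

noncomputable def f_mm_102 : ℕ → ℕ → ℕ → ℕ → Bool := onCell 536870912 536870912 1073741824 536870912 1046898278 26843546
    (rowNX 3 0 false false false .npp 1 0 2 (qsf 536870912 536870912 1073741824 536870912 0) ndN2q1 ndN6q2 pcN0 Cut.none Ext.none)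

def k0_mm_102 : ∃ t, chk3 f_mm_102 t 1 1 1 = true :=
  ⟨(l 3), by decide +kernel⟩

theorem c_mm_102 : CertNX 536870912 536870912 1073741824 536870912 1046898278 26843546 3 false false false .npp 1 0 2
    ndN2q1 ndN6q2 pcN0 Cut.none Ext.none :=
  certNX0 (fam := false) (s1 := false) (s2 := false) (a := 1) (b := 0) (c := 2) (cn := .npp) (n1 := ndN2q1) (n2 := ndN6q2) (pc := pcN0) (cut := Cut.none) (xt := Ext.none) (P1 := 536870912) (W1 := 536870912) (P2 := 1073741824) (W2 := 536870912) (P3 := 1046898278) (W3 := 26843546) (N0 := 3)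
    rfl k0_mm_102

noncomputable def f_mm_112 : ℕ → ℕ → ℕ → ℕ → Bool := onCell 536870912 536870912 1073741824 536870912 1046898278 26843546
    (rowNX 3 0 false false false .dn 1 1 2 (qsf 536870912 536870912 1073741824 536870912 1) ndN2q1 ndN6q2 pcN1 Cut.none Ext.none)

def k0_mm_112 : ∃ t, chk3 f_mm_112 t 1 1 1 = true :=
  ⟨(l 3), by decide +kernel⟩

theorem c_mm_112 : CertNX 536870912 536870912 1073741824 536870912 1046898278 26843546 3 false false false .dn 1 1 2
    ndN2q1 ndN6q2 pcN1 Cut.none Ext.none :=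
  certNX0 (fam := false) (s1 := false) (s2 := false) (a := 1) (b := 1) (c := 2) (cn := .dn) (n1 := ndN2q1) (n2 := ndN6q2) (pc := pcN1) (cut := Cut.none) (xt := Ext.none) (P1 := 536870912) (W1 := 536870912) (P2 := 1073741824) (W2 := 536870912) (P3 := 1046898278) (W3 := 26843546) (N0 := 3)
    rfl k0_mm_112

noncomputable def f_mm_113 : ℕ → ℕ → ℕ → ℕ → Bool := onCell 536870912 536870912 0 1230186008 1046898278 26843546
    (rowNX 3 0 false false false .nn 1 1 3 (qsf 536870912 536870912 0 1230186008 1) ndN2q1 ndN6q3 pcN1 Cut.none Ext.none)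

def k0_mm_113 : ∃ t, chk3 f_mm_113 t 1 1 1 = true :=
  ⟨(l 5), by decide +kernel⟩

theorem c_mm_113 : CertNX 536870912 536870912 0 1230186008 1046898278 26843546 3 false false false .nn 1 1 3
    ndN2q1 ndN6q3 pcN1 Cut.none Ext.none :=
  certNX0 (fam := false) (s1 := false) (s2 := false) (a := 1) (b := 1) (c := 3) (cn := .nn) (n1 := ndN2q1) (n2 := ndN6q3) (pc := pcN1) (cut := Cut.none) (xt := Ext.none) (P1 := 536870912) (W1 := 536870912) (P2 := 0) (W2 := 1230186008) (P3 := 1046898278) (W3 := 26843546) (N0 := 3)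
    rfl k0_mm_113

noncomputable def f_mm_123 : ℕ → ℕ → ℕ → ℕ → Bool := onCell 536870912 536870912 0 1230186008 1046898278 26843546
    (rowNX 3 0 false false false .npn 1 2 3 (qsf 536870912 536870912 0 1230186008 2) ndN2q1 ndN6q3 pcN2 Cut.none Ext.none)

def k0_mm_123 : ∃ t, chk3 f_mm_123 t 1 1 1 = true :=
  ⟨(l 5), by decide +kernel⟩

theorem c_mm_123 : CertNX 536870912 536870912 0 1230186008 1046898278 26843546 3 false false false .npn 1 2 3
    ndN2q1 ndN6q3 pcN2 Cut.none Ext.none :=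
  certNX0 (fam := false) (s1 := false) (s2 := false) (a := 1) (b := 2) (c := 3) (cn := .npn) (n1 := ndN2q1) (n2 := ndN6q3) (pc := pcN2) (cut := Cut.none) (xt := Ext.none) (P1 := 536870912) (W1 := 536870912) (P2 := 0) (W2 := 1230186008) (P3 := 1046898278) (W3 := 26843546) (N0 := 3)
    rfl k0_mm_123

noncomputable def f_mm_133 : ℕ → ℕ → ℕ → ℕ → Bool := onCell 536870912 536870912 0 1230186008 1046898278 26843546
    (rowNX 3 0 false false false .dn 1 3 3 (qsf 536870912 536870912 0 1230186008 3) ndN2q1 ndN6q3 pcN3 Cut.none Ext.none)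

def k0_mm_133 : ∃ t, chk3 f_mm_133 t 1 1 1 = true :=
  ⟨(l 5), by decide +kernel⟩

theorem c_mm_133 : CertNX 536870912 536870912 0 1230186008 1046898278 26843546 3 false false false .dn 1 3 3
    ndN2q1 ndN6q3 pcN3 Cut.none Ext.none :=
  certNX0 (fam := false) (s1 := false) (s2 := false) (a := 1) (b := 3) (c := 3) (cn := .dn) (n1 := ndN2q1) (n2 := ndN6q3) (pc := pcN3) (cut := Cut.none) (xt := Ext.none) (P1 := 536870912) (W1 := 536870912) (P2 := 0) (W2 := 1230186008) (P3 := 1046898278) (W3 := 26843546) (N0 := 3)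
    rfl k0_mm_133

noncomputable def f_mm_202_a : ℕ → ℕ → ℕ → ℕ → Bool := onCell 0 420477299 1073741824 536870912 1046898278 26843546
    (rowNX 3 0 false false false .pp 2 0 2 (qsf 0 420477299 1073741824 536870912 0) ndN2q2a ndN6q2 pcN0 Cut.none Ext.none)

def k0_mm_202_a : ∃ t, chk3 f_mm_202_a t 1 1 1 = true :=
  ⟨(l 3), by decide +kernel⟩

theorem c_mm_202_a : CertNX 0 420477299 1073741824 536870912 1046898278 26843546 3 false false false .pp 2 0 2
    ndN2q2a ndN6q2 pcN0 Cut.none Ext.none :=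
  certNX0 (fam := false) (s1 := false) (s2 := false) (a := 2) (b := 0) (c := 2) (cn := .pp) (n1 := ndN2q2a) (n2 := ndN6q2) (pc := pcN0) (cut := Cut.none) (xt := Ext.none) (P1 := 0) (W1 := 420477299) (P2 := 1073741824) (W2 := 536870912) (P3 := 1046898278) (W3 := 26843546) (N0 := 3)
    rfl k0_mm_202_a

noncomputable def f_mm_202_b : ℕ → ℕ → ℕ → ℕ → Bool := onCell 1239849684 370763052 1073741824 536870912 1046898278 26843546
    (rowNX 3 0 false false false .pp 2 0 2 (qsf 1239849684 370763052 1073741824 536870912 0) ndN2q2b ndN6q2 pcN0 Cut.none Ext.none)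

def k0_mm_202_b : ∃ t, chk3 f_mm_202_b t 1 1 1 = true :=
  ⟨(b (l 3) (l 3)), by decide +kernel⟩

theorem c_mm_202_b : CertNX 1239849684 370763052 1073741824 536870912 1046898278 26843546 3 false false false .pp 2 0 2
    ndN2q2b ndN6q2 pcN0 Cut.none Ext.none :=
  certNX0 (fam := false) (s1 := false) (s2 := false) (a := 2) (b := 0) (c := 2) (cn := .pp) (n1 := ndN2q2b) (n2 := ndN6q2) (pc := pcN0) (cut := Cut.none) (xt := Ext.none) (P1 := 1239849684) (W1 := 370763052) (P2 := 1073741824) (W2 := 536870912) (P3 := 1046898278) (W3 := 26843546) (N0 := 3)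
    rfl k0_mm_202_b

noncomputable def f_mm_203_a : ℕ → ℕ → ℕ → ℕ → Bool := onCell 0 420477299 0 1230186008 1046898278 26843546
    (rowNX 3 0 false false false .up 2 0 3 (qsf 0 420477299 0 1230186008 0) ndN2q2a ndN6q3 pcN0 Cut.none Ext.none)

def k0_mm_203_a : ∃ t, chk3 f_mm_203_a t 1 1 1 = true :=
  ⟨(b (l 2) (l 3)), by decide +kernel⟩

theorem c_mm_203_a : CertNX 0 420477299 0 1230186008 1046898278 26843546 3 false false false .up 2 0 3
    ndN2q2a ndN6q3 pcN0 Cut.none Ext.none :=
  certNX0 (fam := false) (s1 := false) (s2 := false) (a := 2) (b := 0) (c := 3) (cn := .up) (n1 := ndN2q2a) (n2 := ndN6q3) (pc := pcN0) (cut := Cut.none) (xt := Ext.none) (P1 := 0) (W1 := 420477299) (P2 := 0) (W2 := 1230186008) (P3 := 1046898278) (W3 := 26843546) (N0 := 3)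
    rfl k0_mm_203_a

noncomputable def f_mm_203_b : ℕ → ℕ → ℕ → ℕ → Bool := onCell 1239849684 370763052 0 1230186008 1046898278 26843546
    (rowNX 3 0 false false false .up 2 0 3 (qsf 1239849684 370763052 0 1230186008 0) ndN2q2b ndN6q3 pcN0 Cut.none Ext.none)

def k0_mm_203_b : ∃ t, chk3 f_mm_203_b t 1 1 1 = true :=
  ⟨(b (l 3) (l 3)), by decide +kernel⟩

theorem c_mm_203_b : CertNX 1239849684 370763052 0 1230186008 1046898278 26843546 3 false false false .up 2 0 3
    ndN2q2b ndN6q3 pcN0 Cut.none Ext.none :=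
  certNX0 (fam := false) (s1 := false) (s2 := false) (a := 2) (b := 0) (c := 3) (cn := .up) (n1 := ndN2q2b) (n2 := ndN6q3) (pc := pcN0) (cut := Cut.none) (xt := Ext.none) (P1 := 1239849684) (W1 := 370763052) (P2 := 0) (W2 := 1230186008) (P3 := 1046898278) (W3 := 26843546) (N0 := 3)
    rfl k0_mm_203_b

noncomputable def f_mm_213_a : ℕ → ℕ → ℕ → ℕ → Bool := onCell 0 420477299 0 1230186008 1046898278 26843546
    (rowNX 3 0 false false false .pnn 2 1 3 (qsf 0 420477299 0 1230186008 1) ndN2q2a ndN6q3 pcN1 Cut.none Ext.none)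

def k0_mm_213_a : ∃ t, chk3 f_mm_213_a t 1 1 1 = true :=
  ⟨(b (l 3) (l 3)), by decide +kernel⟩

theorem c_mm_213_a : CertNX 0 420477299 0 1230186008 1046898278 26843546 3 false false false .pnn 2 1 3
    ndN2q2a ndN6q3 pcN1 Cut.none Ext.none :=
  certNX0 (fam := false) (s1 := false) (s2 := false) (a := 2) (b := 1) (c := 3) (cn := .pnn) (n1 := ndN2q2a) (n2 := ndN6q3) (pc := pcN1) (cut := Cut.none) (xt := Ext.none) (P1 := 0) (W1 := 420477299) (P2 := 0) (W2 := 1230186008) (P3 := 1046898278) (W3 := 26843546) (N0 := 3)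
    rfl k0_mm_213_a

noncomputable def f_mm_213_b : ℕ → ℕ → ℕ → ℕ → Bool := onCell 1239849684 370763052 0 1230186008 1046898278 26843546
    (rowNX 3 0 false false false .pnn 2 1 3 (qsf 1239849684 370763052 0 1230186008 1) ndN2q2b ndN6q3 pcN1 Cut.none Ext.none)

def k0_mm_213_b : ∃ t, chk3 f_mm_213_b t 1 1 1 = true :=
  ⟨(b (l 3) (l 3)), by decide +kernel⟩

theorem c_mm_213_b : CertNX 1239849684 370763052 0 1230186008 1046898278 26843546 3 false false false .pnn 2 1 3
    ndN2q2b ndN6q3 pcN1 Cut.none Ext.none :=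
  certNX0 (fam := false) (s1 := false) (s2 := false) (a := 2) (b := 1) (c := 3) (cn := .pnn) (n1 := ndN2q2b) (n2 := ndN6q3) (pc := pcN1) (cut := Cut.none) (xt := Ext.none) (P1 := 1239849684) (W1 := 370763052) (P2 := 0) (W2 := 1230186008) (P3 := 1046898278) (W3 := 26843546) (N0 := 3)
    rfl k0_mm_213_b

noncomputable def f_mm_303 : ℕ → ℕ → ℕ → ℕ → Bool := onCell 1610612736 469762048 0 1230186008 1046898278 26843546
    (rowNX 3 0 false false false .npn 3 0 3 (qsf 1610612736 469762048 0 1230186008 0) ndN2q3 ndN6q3 pcN0 Cut.none Ext.none)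

def k0_mm_303 : ∃ t, chk3 f_mm_303 t 1 1 1 = true :=
  ⟨(b (l 3) (l 3)), by decide +kernel⟩

theorem c_mm_303 : CertNX 1610612736 469762048 0 1230186008 1046898278 26843546 3 false false false .npn 3 0 3
    ndN2q3 ndN6q3 pcN0 Cut.none Ext.none :=
  certNX0 (fam := false) (s1 := false) (s2 := false) (a := 3) (b := 0) (c := 3) (cn := .npn) (n1 := ndN2q3) (n2 := ndN6q3) (pc := pcN0) (cut := Cut.none) (xt := Ext.none) (P1 := 1610612736) (W1 := 469762048) (P2 := 0) (W2 := 1230186008) (P3 := 1046898278) (W3 := 26843546) (N0 := 3)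
    rfl k0_mm_303

noncomputable def f_mm_313 : ℕ → ℕ → ℕ → ℕ → Bool := onCell 1610612736 469762048 0 1230186008 1046898278 26843546
    (rowNX 3 0 false false false .dn 3 1 3 (qsf 1610612736 469762048 0 1230186008 1) ndN2q3 ndN6q3 pcN1 Cut.none Ext.none)

def k0_mm_313 : ∃ t, chk3 f_mm_313 t 1 1 1 = true :=
  ⟨(b (l 3) (l 1)), by decide +kernel⟩

theorem c_mm_313 : CertNX 1610612736 469762048 0 1230186008 1046898278 26843546 3 false false false .dn 3 1 3
    ndN2q3 ndN6q3 pcN1 Cut.none Ext.none :=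
  certNX0 (fam := false) (s1 := false) (s2 := false) (a := 3) (b := 1) (c := 3) (cn := .dn) (n1 := ndN2q3) (n2 := ndN6q3) (pc := pcN1) (cut := Cut.none) (xt := Ext.none) (P1 := 1610612736) (W1 := 469762048) (P2 := 0) (W2 := 1230186008) (P3 := 1046898278) (W3 := 26843546) (N0 := 3)
    rfl k0_mm_313

end Pool.Agent.Strip051.G.IE1.Tab.C.NB26

namespace Pool.Agent.Strip051.G.IE1.Tab.C.NB27

open Pool.Agent.Strip051.PB Pool.Agent.Strip051.PB.T
open Pool.Agent.Strip051.G.IE1.Tab

noncomputable def f_pp_001 : ℕ → ℕ → ℕ → ℕ → Bool := onCell 67108864 469762048 536870912 536870912 1046898278 26843546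
    (rowNX 3 0 false true true .up 0 0 1 (qsf 67108864 469762048 536870912 536870912 0) ndN2q0 ndN7q1 pcN0 Cut.none Ext.none)

def k0_pp_001 : ∃ t, chk3 f_pp_001 t 1 1 1 = true :=
  ⟨(l 3), by decide +kernel⟩

theorem c_pp_001 : CertNX 67108864 469762048 536870912 536870912 1046898278 26843546 3 false true true .up 0 0 1
    ndN2q0 ndN7q1 pcN0 Cut.none Ext.none :=
  certNX0 (fam := false) (s1 := true) (s2 := true) (a := 0) (b := 0) (c := 1) (cn := .up) (n1 := ndN2q0) (n2 := ndN7q1) (pc := pcN0) (cut := Cut.none) (xt := Ext.none) (P1 := 67108864) (W1 := 469762048) (P2 := 536870912) (W2 := 536870912) (P3 := 1046898278) (W3 := 26843546) (N0 := 3)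
    rfl k0_pp_001

noncomputable def f_pp_011 : ℕ → ℕ → ℕ → ℕ → Bool := onCell 67108864 469762048 536870912 536870912 1046898278 26843546
    (rowNX 3 0 false true true .pnn 0 1 1 (qsf 67108864 469762048 536870912 536870912 1) ndN2q0 ndN7q1 pcN1 Cut.none Ext.none)

def k0_pp_011 : ∃ t, chk3 f_pp_011 t 1 1 1 = true :=
  ⟨(l 3), by decide +kernel⟩

theorem c_pp_011 : CertNX 67108864 469762048 536870912 536870912 1046898278 26843546 3 false true true .pnn 0 1 1
    ndN2q0 ndN7q1 pcN1 Cut.none Ext.none :=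
  certNX0 (fam := false) (s1 := true) (s2 := true) (a := 0) (b := 1) (c := 1) (cn := .pnn) (n1 := ndN2q0) (n2 := ndN7q1) (pc := pcN1) (cut := Cut.none) (xt := Ext.none) (P1 := 67108864) (W1 := 469762048) (P2 := 536870912) (W2 := 536870912) (P3 := 1046898278) (W3 := 26843546) (N0 := 3)
    rfl k0_pp_011

noncomputable def f_pp_012 : ℕ → ℕ → ℕ → ℕ → Bool := onCell 67108864 469762048 536870912 536870912 1046898278 26843546
    (rowNX 3 1 false true true .pnp 0 1 2 (qsf 67108864 469762048 1073741824 536870912 1) ndN2q0 ndN7q2 pcN1 Cut.none Ext.none)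

def k0_pp_012 : ∃ t, chk3 f_pp_012 t 1 1 1 = true :=
  ⟨(b (l 3) (a (l 3) (l 3))), by decide +kernel⟩

theorem c_pp_012 : CertNX 67108864 469762048 1073741824 536870912 1046898278 26843546 3 false true true .pnp 0 1 2
    ndN2q0 ndN7q2 pcN1 Cut.none Ext.none :=
  certNX1 (fam := false) (s1 := true) (s2 := true) (a := 0) (b := 1) (c := 2) (cn := .pnp) (n1 := ndN2q0) (n2 := ndN7q2) (pc := pcN1) (cut := Cut.none) (xt := Ext.none) (P1 := 67108864) (W1 := 469762048) (P2 := 1073741824) (W2 := 536870912) (P3 := 1046898278) (W3 := 26843546) (N0 := 3)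
    rfl (fun _ => rfl) k0_pp_012

noncomputable def f_pp_022 : ℕ → ℕ → ℕ → ℕ → Bool := onCell 67108864 469762048 1073741824 536870912 1046898278 26843546
    (rowNX 3 1 false true true .pp 0 2 2 (qsf 67108864 469762048 1073741824 536870912 2) ndN2q0 ndN7q2 pcN2 Cut.none Ext.none)

def k0_pp_022 : ∃ t, chk3 f_pp_022 t 1 4 1 = true :=
  ⟨(a (a (b (l 3) (b (a (b (a (a (a (b (a (c (l 16397368) (l 16386320)) (l 3)) (c (l 16387728) (l 16376728))) (b (l 3) (c (l 16226800) (l 16208608)))) (l 3)) (l 3)) (b (a (c (a (a (l 16420248) (l 16258120)) (a (l 16100632) (l 15936032))) (a (a (l 16411120) (l 16241608)) (a (l 16077352) (l 15906112)))) (l 3)) (a (b (a (c (l 16260408) (l 16271680)) (c (l 16024624) (l 15998416))) (a (c (l 16190416) (l 16181552)) (c (l 16024528) (l 15998472)))) (a (a (c (l 15734744) (l 15697440)) (l 3)) (l 3))))) (l 3)) (a (b (a (c (a (b (b (a (l 16422280) (l 16311224)) (a (l 16472152) (l 16312200))) (l 16326032)) (b (b (l 16026320) (l 16039328)) (c (l 16094536) (l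 16083080)))) (b (a (b (c (l 16171416) (l 16166392)) (a (l 16466600) (l 16298960))) (b (l 16000472) (l 16014096))) (a (l 16320152) (c (l 16071480) (l 16059720))))) (c (b (a (a (l 15752560) (a (l 15612528) (l 15581456))) (l 15642856)) (a (a (l 15826864) (l 15680656)) (l 15729800))) (b (a (a (l 15715936) (b (l 15532432) (l 15574176))) (l 15602528)) (a (a (l 15792968) (l 15641536)) (l 15692528))))) (a (a (c (l 16226816) (l 16265576)) (c (b (b (l 16137656) (l 16159728)) (l 16185160)) (b (b (l 16116424) (l 16139456)) (l 16166080)))) (a (b (a (c (l 15906248) (l 15875264)) (c (l 15725488) (l 15731392))) (b (a (l 15936480) (c (l 15828088) (l 15794200))) (c (l 15912304) (l 15881448)))) (c (b (l 15817552) (l 15898528)) (b (l 15783384) (l 15867216)))))) (a (b (b (l 3) (c (l 15870056) (l 15838048))) (c (b (l 15958128) (l 16044552)) (b (l 15929232) (l 16018704)))) (b (l 3) (b (l 3) (c (l 16221416) (l 16203888)))))))) (b (l 3) (l 3))) (l 3)), by decide +kernel⟩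

def k1_pp_022 : ∃ t, chk3 f_pp_022 t 4 20 1 = true :=
  ⟨(b (a (a (a (c (a (l 16291352) (l 16418072)) (a (l 16306048) (l 16411200))) (c (l 16145296) (l 16148600))) (a (c (b (l 15936480) (l 15955032)) (b (l 15906544) (l 15925856))) (b (b (c (l 15951560) (l 15922112)) (l 15953472)) (l 15968616)))) (b (c (a (b (l 16105112) (l 16140992)) (a (l 16270976) (l 16417496))) (a (b (l 16081384) (l 16118512)) (a (l 16253760) (l 16405440)))) (c (a (b (l 16151664) (l 16150832)) (b (l 16403784) (l 16439128))) (a (b (l 16130264) (l 16130080)) (a (l 16332128) (l 16484816)))))) (a (b (a (c (a (l 16340072) (l 16207104)) (a (l 16355936) (l 16190008))) (a (c (l 15957848) (l 15928912)) (l 15972704))) (a (b (a (c (a (l 16290336) (l 16400920)) (l 16174808)) (c (l 16203664) (l 16186752))) (b (a (c (b (l 16268360) (l 16128112)) (b (l 16260816) (l 16140008))) (c (l 16224960) (l 16208984))) (a (b (c (l 16117592) (l 16127176)) (a (l 16117080) (l 16418952))) (b (b (b (l 16081520) (b (c (l 16242224) (l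 16226968)) (c (l 16229920) (l 16235960)))) (l 16079920)) (l 16069032))))) (b (a (c (l 15957008) (l 15928152)) (l 15969088)) (b (a (c (l 15972376) (l 15944120)) (l 15978240)) (a (c (a (c (l 15988648) (l 15997240)) (a (l 15943336) (l 15927936))) (a (c (l 16026640) (l 16013912)) (a (l 15913816) (l 15897720)))) (c (l 16004064) (l 15976480))))))) (b (a (l 16137304) (a (b (c (l 16394840) (l 16381896)) (l 16387248)) (b (c (l 16548360) (l 16541016)) (c (l 16566088) (b (l 16564592) (l 16568768)))))) (b (a (l 16168224) (c (l 16468368) (l 16457472))) (b (a (l 16166128) (l 16319912)) (a (c (l 16181072) (l 16159688)) (c (l 16340056) (l 16349088)))))))), by decide +kernel⟩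

def k2_pp_022 : ∃ t, chk3 f_pp_022 t 5 20 1 = true :=
  ⟨(a (a (b (a (b (c (l 16564064) (l 16557104)) (c (l 16637544) (l 16633304))) (b (l 3) (c (l 16733760) (l 16733120)))) (b (b (c (l 16715624) (l 16714584)) (c (l 16682696) (l 16660928))) (b (b (c (l 16727568) (l 16726544)) (a (l 16690352) (c (l 16740064) (l 16739264)))) (b (b (l 16693168) (l 16669360)) (l 16602072))))) (b (a (b (l 3) (l 16756832)) (l 3)) (b (b (c (l 16766008) (l 16765624)) (c (l 16766080) (l 16765704))) (b (c (b (l 16766088) (l 16767392)) (b (l 16765712) (l 16767232))) (b (c (b (l 16764104) (a (l 16741464) (l 16769488))) (b (l 16763680) (a (l 16740160) (l 16769200)))) (b (b (b (c (l 16741112) (l 16739784)) (l 16722096)) (l 16712712)) (l 16714424))))))) (b (l 3) (b (b (l 3) (c (l 16776912) (l 16776896))) (b (c (c (l 16777088) (l 16777088)) (c (l 16777088) (l 16777088))) (b (b (a (l 16777184) (l 16777208)) (c (l 16777208) (l 16777208))) (b (b (b (c (l 16775016) (l 16774936)) (b (c (l 16772512) (l 16772352))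 (c (a (l 16770264) (l 16777216)) (a (l 16770024) (l 16777216))))) (l 16770736)) (l 16770960))))))), by decide +kernel⟩

def k3_pp_022 : ∃ t, chk3 f_pp_022 t 2 21 1 = true :=
  ⟨(a (a (a (a (a (c (l 15893232) (l 15889920)) (b (c (l 16311800) (l 16302312)) (l 15854096))) (c (b (l 16320672) (l 16452600)) (b (l 16332264) (l 16448280)))) (a (c (l 16013240) (l 16015944)) (l 15992432))) (b (a (l 16209768) (a (l 16463872) (l 16578736))) (a (l 16362416) (c (l 16631552) (l 16626504))))) (a (a (l 16658792) (c (l 16747288) (l 16746184))) (c (l 16772584) (l 16772424)))), by decide +kernel⟩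

def k4_pp_022 : ∃ t, chk3 f_pp_022 t 2 11 1 = true :=
  ⟨(a (a (a (b (a (c (l 15384136) (l 15407872)) (c (a (l 16026616) (l 16298872)) (a (l 16003496) (l 16284952)))) (a (c (l 15244888) (l 15190296)) (c (l 15746904) (l 15756280)))) (b (a (c (a (l 16570208) (l 16609080)) (a (l 16565560) (l 16604784))) (b (l 16575320) (l 16722832))) (a (c (a (l 16283448) (l 16561576)) (a (l 16266344) (l 16554104))) (l 16645416)))) (b (a (c (l 16704136) (l 16680560)) (l 16680904)) (a (l 16769728) (l 16687376)))) (c (a (a (l 16733992) (l 16767704)) (b (l 16777216) (l 16777216))) (a (a (l 16732992) (l 16767488)) (l 16777216)))), by decide +kernel⟩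

def k5_pp_022 : ∃ t, chk3 f_pp_022 t 3 5 1 = true :=
  ⟨(a (b (b (b (l 3) (b (l 3) (a (b (l 3) (a (b (c (l 16777216) (l 16777216)) (b (b (b (l 16777216) (c (l 16777216) (l 16777216))) (l 16777216)) (l 16777216))) (b (l 3) (c (l 16777216) (a (l 16777216) (l 16777216)))))) (a (b (l 3) (a (b (l 7155583287303) (c (l 16777216) (l 16777216))) (l 2))) (l 2))))) (a (a (l 16777216) (l 16777216)) (a (l 16777216) (l 2)))) (a (c (b (l 16777216) (l 16777216)) (l 16776472)) (l 2))) (l 2)), by decide +kernel⟩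

def k6_pp_022 : ∃ t, chk3 f_pp_022 t 1 3 1 = true :=
  ⟨(a (a (a (b (a (b (a (c (b (l 15057944) (l 15039672)) (l 14735872)) (c (l 15733384) (l 15696672))) (c (a (l 15039672) (l 15733376)) (l 15185672))) (b (a (c (l 16293216) (l 16321840)) (l 16643792)) (a (c (l 16377104) (l 16384752)) (l 16643792)))) (a (a (b (l 15009920) (l 15009920)) (b (l 15715048) (l 2))) (b (c (l 16522528) (l 16513584)) (l 2)))) (b (b (a (c (l 16769800) (l 16769544)) (b (l 16687352) (l 16687352))) (a (l 16769696) (l 16687352))) (b (a (l 16769696) (l 2)) (l 2)))) (b (a (b (a (l 16725936) (b (l 16765736) (l 16765736))) (c (l 16746608) (l 16745528))) (b (c (l 16777216) (l 16777216)) (l 2))) (l 2))) (l 2)), by decide +kernel⟩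

theorem s7_pp_022 : ∃ t, chk3 f_pp_022 t 2 20 1 = true := ex3_a k1_pp_022 k2_pp_022

theorem s8_pp_022 : ∃ t, chk3 f_pp_022 t 2 10 1 = true := ex3_b s7_pp_022 k3_pp_022

theorem s9_pp_022 : ∃ t, chk3 f_pp_022 t 2 5 1 = true := ex3_b s8_pp_022 k4_pp_022

theorem s10_pp_022 : ∃ t, chk3 f_pp_022 t 1 5 1 = true := ex3_a s9_pp_022 k5_pp_022

theorem s11_pp_022 : ∃ t, chk3 f_pp_022 t 1 2 1 = true := ex3_b k0_pp_022 s10_pp_022

theorem s12_pp_022 : ∃ t, chk3 f_pp_022 t 1 1 1 = true := ex3_b s11_pp_022 k6_pp_022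

theorem c_pp_022 : CertNX 67108864 469762048 1073741824 536870912 1046898278 26843546 3 false true true .pp 0 2 2
    ndN2q0 ndN7q2 pcN2 Cut.none Ext.none :=
  certNX1 (fam := false) (s1 := true) (s2 := true) (a := 0) (b := 2) (c := 2) (cn := .pp) (n1 := ndN2q0) (n2 := ndN7q2) (pc := pcN2) (cut := Cut.none) (xt := Ext.none) (P1 := 67108864) (W1 := 469762048) (P2 := 1073741824) (W2 := 536870912) (P3 := 1046898278) (W3 := 26843546) (N0 := 3)
    rfl (fun _ => rfl) s12_pp_022

noncomputable def f_pp_023 : ℕ → ℕ → ℕ → ℕ → Bool := onCell 1073741824 536870912 0 1230186008 1046898278 26843546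
    (rowNX 3 2 false true true .up 0 2 3 (qsf 67108864 469762048 0 1230186008 2) ndN2q0 ndN7q3 pcN2 Cut.none Ext.none)

def k0_pp_023 : ∃ t, chk3 f_pp_023 t 2 1 1 = true :=
  ⟨(b (l 2) (b (a (l 2) (a (l 2) (b (l 2) (b (l 2) (l 16769376))))) (b (a (l 2) (b (a (a (l 2) (l 16591896)) (b (l 16755672) (l 16740504))) (a (a (b (l 2) (a (b (l 2) (a (l 16776896) (l 16776288))) (a (c (l 16730792) (l 16729168)) (a (l 16651616) (a (l 16607112) (l 16583840)))))) (l 16607008)) (l 16750000)))) (a (l 3) (b (a (a (a (c (a (l 16775768) (l 16776336)) (l 1434686840103)) (a (c (a (l 16776696) (l 16765128)) (a (l 16776680) (l 16764704))) (a (c (c (l 16747880) (l 16747368)) (c (l 16746848) (l 16746320))) (b (a (l 16688216) (l 16654248)) (a (c (l 16755496) (l 16754736)) (a (a (a (l 16738104) (l 16719864)) (l 16710360)) (l 16711344))))))) (l 16706584)) (b (l 16762624) (l 16771464))) (a (a (a (l 3) (a (a (l 3) (c (l 2936314788007) (l 2854710409319))) (a (c (c (l 16777088) (l 16777088)) (c (l 16777088)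 (l 16777088))) (a (c (c (l 16777200) (l 16777200)) (c (l 16777192) (l 16777192))) (a (a (a (b (l 16774712) (l 16777216)) (a (b (l 16772192) (l 16777216)) (b (c (l 16769776) (l 16769520)) (l 16777216)))) (l 16769952)) (l 16770056)))))) (l 16771704)) (b (l 16776552) (l 16777216)))))))), by decide +kernel⟩

def k1_pp_023 : ∃ t, chk3 f_pp_023 t 3 1 1 = true :=
  ⟨(a (b (l 2) (b (b (c (l 16777216) (l 16777216)) (b (l 16777216) (l 16777216))) (b (b (l 16777216) (l 16777216)) (b (b (l 16777216) (a (l 16777216) (l 16772160))) (a (b (l 16777216) (l 16853432)) (b (l 16750336) (l 16731040))))))) (b (b (b (l 16688176) (l 16657680)) (b (l 16758880) (l 16777216))) (b (b (l 16777216) (l 16777216)) (b (b (l 16877736) (a (l 16773072) (b (l 16747392) (l 16726216)))) (b (a (b (l 16752000) (l 16727160)) (b (l 16763776) (a (l 16764944) (b (l 16529600) (a (l 16418464) (l 15790688)))))) (a (b (a (l 16713672) (l 16741256)) (a (b (l 16761744) (l 16675584)) (b (a (l 16647680) (l 16305072)) (a (l 16188984)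 (l 15376296))))) (b (a (b (l 16504688) (a (l 16358872) (l 15715728))) (b (a (l 15775384) (b (l 15191808) (l 14854152))) (a (b (l 15144552) (l 14809600)) (l 14352112)))) (a (a (b (l 15632112) (c (l 184712846151) (l 14831904))) (b (c (l 14813728) (l 14905920)) (l 521866997111))) (b (c (l 608840026807) (l 14386688)) (l 1)))))))))), by decide +kernel⟩

theorem s2_pp_023 : ∃ t, chk3 f_pp_023 t 1 1 1 = true := ex3_a k0_pp_023 k1_pp_023

theorem c_pp_023 : CertNX 67108864 469762048 0 1230186008 1046898278 26843546 3 false true true .up 0 2 3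
    ndN2q0 ndN7q3 pcN2 Cut.none Ext.none :=
  certNX2 (fam := false) (s1 := true) (s2 := true) (a := 0) (b := 2) (c := 3) (cn := .up) (n1 := ndN2q0) (n2 := ndN7q3) (pc := pcN2) (cut := Cut.none) (xt := Ext.none) (P1 := 67108864) (W1 := 469762048) (P2 := 0) (W2 := 1230186008) (P3 := 1046898278) (W3 := 26843546) (N0 := 3)
    rfl (fun _ => rfl) s2_pp_023

noncomputable def f_pp_033 : ℕ → ℕ → ℕ → ℕ → Bool := onCell 67108864 469762048 0 1230186008 1046898278 26843546
    (rowNX 3 0 false true true .pnn 0 3 3 (qsf 67108864 469762048 0 1230186008 3) ndN2q0 ndN7q3 pcN3 Cut.none Ext.none)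

def k0_pp_033 : ∃ t, chk3 f_pp_033 t 1 1 1 = true :=
  ⟨(b (a (b (a (l 4) (b (l 4) (a (l 4) (l 16657680)))) (a (a (b (a (b (l 4) (l 438318212407)) (c (l 16368200) (l 16246808))) (a (b (c (l 15386016) (l 15332472)) (l 15362456)) (b (l 16518096) (l 16518088)))) (b (c (l 16723712) (l 16721840)) (b (l 16735576) (l 16735576)))) (b (a (c (l 16736056) (l 16734632)) (l 16758880)) (b (a (l 16746064) (l 16777216)) (l 16762032))))) (a (b (b (l 4) (c (l 16659752) (l 16655616))) (c (b (l 16759192) (l 16777216)) (b (l 16758560) (l 16777216)))) (b (b (l 16688176) (l 16657680)) (b (l 16758880) (l 16777216))))) (a (b (a (a (a (b (b (l 15362456) (l 15362456)) (c (l 15386008) (l 15332472))) (b (a (l 16391448) (l 16643792)) (a (l 16391448) (l 16643792)))) (b (l 16735584) (l 16735584))) (b (a (l 16746064) (l 16777216)) (a (l 16746064) (l 16777216)))) (a (a (b (a (b (l 15341488) (l 15257600)) (b (l 16518088) (l 16518088))) (a (b (l 15152744) (l 593272579367)) (b (a (l 16391448) (l 16643792))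 (l 1)))) (b (b (l 16735584) (l 16735584)) (b (l 16735584) (l 1)))) (b (a (l 76805868711) (l 16777216)) (l 1)))) (b (b (c (l 16777216) (l 16777216)) (b (l 16777216) (l 16777216))) (l 1)))), by decide +kernel⟩

theorem c_pp_033 : CertNX 67108864 469762048 0 1230186008 1046898278 26843546 3 false true true .pnn 0 3 3
    ndN2q0 ndN7q3 pcN3 Cut.none Ext.none :=
  certNX0 (fam := false) (s1 := true) (s2 := true) (a := 0) (b := 3) (c := 3) (cn := .pnn) (n1 := ndN2q0) (n2 := ndN7q3) (pc := pcN3) (cut := Cut.none) (xt := Ext.none) (P1 := 67108864) (W1 := 469762048) (P2 := 0) (W2 := 1230186008) (P3 := 1046898278) (W3 := 26843546) (N0 := 3)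
    rfl k0_pp_033

noncomputable def f_pp_101 : ℕ → ℕ → ℕ → ℕ → Bool := onCell 536870912 536870912 536870912 536870912 1046898278 26843546
    (rowNX 3 0 false true true .npn 1 0 1 (qsf 536870912 536870912 536870912 536870912 0) ndN2q1 ndN7q1 pcN0 Cut.none Ext.none)

def k0_pp_101 : ∃ t, chk3 f_pp_101 t 1 1 1 = true :=
  ⟨(l 3), by decide +kernel⟩

theorem c_pp_101 : CertNX 536870912 536870912 536870912 536870912 1046898278 26843546 3 false true true .npn 1 0 1
    ndN2q1 ndN7q1 pcN0 Cut.none Ext.none :=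
  certNX0 (fam := false) (s1 := true) (s2 := true) (a := 1) (b := 0) (c := 1) (cn := .npn) (n1 := ndN2q1) (n2 := ndN7q1) (pc := pcN0) (cut := Cut.none) (xt := Ext.none) (P1 := 536870912) (W1 := 536870912) (P2 := 536870912) (W2 := 536870912) (P3 := 1046898278) (W3 := 26843546) (N0 := 3)
    rfl k0_pp_101

noncomputable def f_pp_102 : ℕ → ℕ → ℕ → ℕ → Bool := onCell 536870912 536870912 1073741824 536870912 1046898278 26843546
    (rowNX 3 0 false true true .npp 1 0 2 (qsf 536870912 536870912 1073741824 536870912 0) ndN2q1 ndN7q2 pcN0 Cut.none Ext.none)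

def k0_pp_102 : ∃ t, chk3 f_pp_102 t 1 1 1 = true :=
  ⟨(l 3), by decide +kernel⟩

theorem c_pp_102 : CertNX 536870912 536870912 1073741824 536870912 1046898278 26843546 3 false true true .npp 1 0 2
    ndN2q1 ndN7q2 pcN0 Cut.none Ext.none :=
  certNX0 (fam := false) (s1 := true) (s2 := true) (a := 1) (b := 0) (c := 2) (cn := .npp) (n1 := ndN2q1) (n2 := ndN7q2) (pc := pcN0) (cut := Cut.none) (xt := Ext.none) (P1 := 536870912) (W1 := 536870912) (P2 := 1073741824) (W2 := 536870912) (P3 := 1046898278) (W3 := 26843546) (N0 := 3)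
    rfl k0_pp_102

noncomputable def f_pp_112 : ℕ → ℕ → ℕ → ℕ → Bool := onCell 536870912 536870912 1073741824 536870912 1046898278 26843546
    (rowNX 3 0 false true true .dn 1 1 2 (qsf 536870912 536870912 1073741824 536870912 1) ndN2q1 ndN7q2 pcN1 Cut.none Ext.none)

def k0_pp_112 : ∃ t, chk3 f_pp_112 t 1 1 1 = true :=
  ⟨(l 3), by decide +kernel⟩

theorem c_pp_112 : CertNX 536870912 536870912 1073741824 536870912 1046898278 26843546 3 false true true .dn 1 1 2
    ndN2q1 ndN7q2 pcN1 Cut.none Ext.none :=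
  certNX0 (fam := false) (s1 := true) (s2 := true) (a := 1) (b := 1) (c := 2) (cn := .dn) (n1 := ndN2q1) (n2 := ndN7q2) (pc := pcN1) (cut := Cut.none) (xt := Ext.none) (P1 := 536870912) (W1 := 536870912) (P2 := 1073741824) (W2 := 536870912) (P3 := 1046898278) (W3 := 26843546) (N0 := 3)
    rfl k0_pp_112

noncomputable def f_pp_113 : ℕ → ℕ → ℕ → ℕ → Bool := onCell 536870912 536870912 0 1230186008 1046898278 26843546
    (rowNX 3 2 false true true .nn 1 1 3 (qsf 536870912 536870912 0 1230186008 1) ndN2q1 ndN7q3 pcN1 Cut.none Ext.none)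

def k0_pp_113 : ∃ t, chk3 f_pp_113 t 1 1 1 = true :=
  ⟨(a (b (l 2) (b (l 3) (l 3))) (b (a (l 2) (a (b (l 2) (b (a (l 2) (b (l 2) (l 13885808))) (a (b (l 2) (l 3)) (b (l 823655506855) (l 393689765255))))) (a (b (l 2) (a (b (b (l 2) (l 14100360)) (b (l 14311456) (l 14577456))) (b (a (l 14181384) (b (l 14284552) (l 14307592))) (c (a (l 14665200) (l 14690208)) (l 14249968))))) (b (b (l 16436824) (l 15647968)) (b (b (l 14599712) (a (c (a (c (l 14952064) (l 14574848)) (c (l 15030776) (l 14639328))) (l 14024160)) (c (l 14866008) (b (l 14037368) (a (l 14107832) (c (l 14291824) (l 13941984))))))) (a (c (c (a (l 14909192) (l 14860784)) (a (l 14623576) (l 14655672))) (l 14319904)) (c (a (l 14760616) (l 14752816)) (a (c (l 14463176) (l 14263728)) (c (l 14476208) (b (l 14136344) (l 14440128))))))))))) (b (b (a (l 3) (a (l 3) (a (a (l 3) (b (l 14795360) (l 3))) (a (c (b (a (l 14966264) (l 14972312)) (l 3)) (l 14912376)) (c (b (l 14999360) (l 15199472)) (b (a (l 14795384) (l 14668384))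 (a (l 15086184) (l 15099064)))))))) (l 3)) (l 3)))), by decide +kernel⟩

theorem c_pp_113 : CertNX 536870912 536870912 0 1230186008 1046898278 26843546 3 false true true .nn 1 1 3
    ndN2q1 ndN7q3 pcN1 Cut.none Ext.none :=
  certNX2 (fam := false) (s1 := true) (s2 := true) (a := 1) (b := 1) (c := 3) (cn := .nn) (n1 := ndN2q1) (n2 := ndN7q3) (pc := pcN1) (cut := Cut.none) (xt := Ext.none) (P1 := 536870912) (W1 := 536870912) (P2 := 0) (W2 := 1230186008) (P3 := 1046898278) (W3 := 26843546) (N0 := 3)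
    rfl (fun _ => rfl) k0_pp_113

noncomputable def f_pp_123 : ℕ → ℕ → ℕ → ℕ → Bool := onCell 1073741824 536870912 0 1230186008 1046898278 26843546
    (rowNX 3 2 false true true .npn 1 2 3 (qsf 536870912 536870912 0 1230186008 2) ndN2q1 ndN7q3 pcN2 Cut.none Ext.none)

def k0_pp_123 : ∃ t, chk3 f_pp_123 t 4 2 1 = true :=
  ⟨(b (a (b (b (a (l 16444056) (l 16165680)) (l 15657144)) (a (l 15788328) (l 15894376))) (b (a (b (l 15859072) (l 15861984)) (l 15283264)) (a (l 15692696) (l 15173744)))) (a (b (b (l 15490544) (l 15500816)) (b (a (b (l 15199864) (b (l 15252208) (a (c (l 15391112) (l 15107016)) (c (l 15409096) (l 15213808))))) (l 15223192)) (a (c (a (a (l 15323104) (l 15393024)) (l 15430352)) (a (c (l 15199976) (l 15088416)) (l 15272056))) (c (a (l 15386120) (b (l 15247064) (l 15326464))) (a (l 15268104) (l 15182928)))))) (b (a (l 15195024) (l 14848944)) (b (l 14837768) (b (a (b (l 14957880) (a (l 15051344) (l 14890184))) (l 14629224)) (a (c (a (l 15218704) (l 15075672))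 (l 15075208)) (c (a (l 14891728) (l 14682584)) (a (l 14819624) (l 14607080))))))))), by decide +kernel⟩

def k1_pp_123 : ∃ t, chk3 f_pp_123 t 4 12 1 = true :=
  ⟨(b (a (a (c (a (a (l 15239232) (l 15396000)) (l 15480752)) (a (c (a (l 15167736) (l 15283664)) (l 15161712)) (l 15348520))) (c (a (l 15521120) (c (l 15547752) (l 15503848))) (l 15422232))) (a (b (c (l 15416136) (l 15358216)) (c (b (l 15614864) (a (l 15744864) (c (l 15840312) (l 15804088)))) (l 15639360))) (b (c (l 15190792) (l 15156032)) (c (c (b (l 15550232) (c (a (l 15801520) (l 15695296)) (l 15763696))) (l 15640192)) (l 15610384))))) (a (a (a (c (a (l 15270480) (l 28619789127)) (a (c (l 15204800) (a (c (l 15133920) (l 15106072)) (l 15159800))) (c (c (l 15337496) (l 15310968)) (l 15272008)))) (c (a (c (l 15523936) (l 15478736)) (c (l 15614912) (l 15556888))) (l 15453352))) (c (a (c (l 15719520) (l 15670896)) (c (l 15766880) (l 15727200))) (a (l 15628360) (l 15708400)))) (a (a (c (b (l 15765872) (l 15962312)) (b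 (l 15804464) (l 15954136))) (c (b (c (b (l 15963448) (l 16146232)) (l 16036088)) (b (l 16297688) (l 16382072))) (b (l 16059168) (l 16063864)))) (c (b (c (b (a (a (l 16077272) (l 16035232)) (l 15896648)) (l 16205000)) (a (a (l 16202176) (l 16178624)) (l 16048304))) (b (a (l 16502664) (l 16228976)) (b (l 16536024) (l 16593224)))) (a (a (b (l 16221376) (b (l 16506928) (l 16613088))) (b (l 16185456) (l 16502064))) (b (l 16034648) (b (l 16305984) (l 16453584)))))))), by decide +kernel⟩

def k2_pp_123 : ∃ t, chk3 f_pp_123 t 4 13 1 = true :=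
  ⟨(b (a (a (a (l 3) (c (a (c (l 15593096) (l 312087577575)) (c (l 15679112) (l 15632728))) (l 15550952))) (a (c (l 15768904) (l 15742448)) (c (a (l 15982176) (l 16083696)) (a (l 15950528) (l 16058368))))) (a (a (c (l 16278432) (l 16260864)) (l 16499920)) (a (a (l 16726328) (l 16769400)) (l 16732600)))) (a (a (l 3) (a (l 3) (c (l 16134400) (l 16110896)))) (a (a (c (l 16322488) (l 16306472)) (c (l 16593512) (l 16587048))) (a (a (c (l 16765904) (l 16765504)) (l 16768552)) (b (l 16622744) (l 16642944)))))), by decide +kernel⟩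

def k3_pp_123 : ∃ t, chk3 f_pp_123 t 4 7 1 = true :=
  ⟨(b (a (l 3) (a (a (l 3) (c (l 877414428871) (l 911774163319))) (a (a (c (l 874730659175) (l 907479786631)) (c (l 869898821863) (l 901574208855))) (c (b (b (l 16710640) (l 16754920)) (l 16774792)) (b (b (l 16708304) (l 16754144)) (l 16774712)))))) (l 3)), by decide +kernel⟩

def k4_pp_123 : ∃ t, chk3 f_pp_123 t 5 2 1 = true :=
  ⟨(a (b (a (b (a (l 14896832) (l 15006920)) (a (l 14804408) (l 14942504))) (b (l 15541336) (l 15535248))) (b (a (a (l 14591000) (l 14773056)) (l 15465632)) (a (b (l 14544576) (b (l 14505808) (a (c (l 14497752) (l 14416568)) (b (l 14603544) (a (l 14532248) (l 14768656)))))) (b (l 15391920) (b (l 15376496) (c (l 15203552) (l 15363864))))))) (b (b (a (l 16119448) (l 16406872)) (a (l 16258328) (l 16630744))) (a (b (l 16339304) (l 16312904)) (l 16765880)))), by decide +kernel⟩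

def k5_pp_123 : ∃ t, chk3 f_pp_123 t 5 3 1 = true :=
  ⟨(b (a (a (b (a (b (c (l 15118352) (l 15060120)) (c (b (c (b (l 15718272) (l 15907752)) (l 15880520)) (b (l 16092536) (l 16345304))) (b (l 15833704) (b (l 16146240) (l 16302456))))) (b (c (a (l 15091720) (l 15231304)) (l 15104256)) (c (b (a (c (l 15693824) (l 15806656)) (c (l 15680368) (l 15842080))) (a (b (l 15943872) (l 16239040)) (b (l 15944936) (a (l 16199872) (l 16240200))))) (b (a (l 15733392) (l 15732816)) (a (l 16138336) (a (l 16110728) (l 16161264))))))) (a (b (l 16630168) (b (l 16607264) (l 16524232))) (a (b (l 16521904) (l 16596496)) (a (l 16626608) (a (l 16624344) (l 16597424)))))) (b (b (b (c (l 15529896) (l 15486888)) (c (l 15789760) (l 15755104))) (c (b (a (l 15984200) (l 16204864)) (c (l 16331560) (l 16304560))) (b (l 16016560) (l 16306544)))) (a (l 16609384) (b (c (l 16504112) (l 16515472)) (l 16746560))))) (b (a (c (a (b (l 16194216) (l 16167136)) (l 16373528)) (b (l 16365536) (l 16573840))) (l 16881680))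 (b (a (b (c (l 16643864) (l 16646976)) (l 16703984)) (l 16776992)) (l 16769376)))) (b (b (a (a (a (a (a (l 16683696) (l 16642904)) (l 16579872)) (a (l 16503568) (a (l 16462744) (a (l 16466160) (b (l 16557616) (l 16470360)))))) (l 16591896)) (b (l 16755672) (l 16740504))) (a (a (a (c (a (l 16761264) (l 16740848)) (a (l 16760704) (l 16739568))) (a (b (l 16635888) (c (l 16730792) (l 16729168))) (a (l 16604752) (a (l 16567728) (l 16549656))))) (l 16607008)) (l 1))) (b (a (a (a (c (l 1393347780279) (l 612603256103)) (l 1)) (l 1)) (l 1)) (l 1)))), by decide +kernel⟩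

def k6_pp_123 : ∃ t, chk3 f_pp_123 t 3 1 1 = true :=
  ⟨(b (b (a (b (a (l 16516984) (l 16681056)) (a (l 16631672) (l 16656112))) (b (l 16688176) (l 16657680))) (a (b (l 16758880) (l 16777216)) (b (l 16758880) (l 16777216)))) (b (a (b (c (l 16777216) (l 16777216)) (b (l 16777216) (l 16777216))) (b (l 16777216) (l 1))) (l 1))), by decide +kernel⟩

theorem s7_pp_123 : ∃ t, chk3 f_pp_123 t 5 1 1 = true := ex3_b k4_pp_123 k5_pp_123

theorem s8_pp_123 : ∃ t, chk3 f_pp_123 t 4 6 1 = true := ex3_b k1_pp_123 k2_pp_123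

theorem s9_pp_123 : ∃ t, chk3 f_pp_123 t 4 3 1 = true := ex3_b s8_pp_123 k3_pp_123

theorem s10_pp_123 : ∃ t, chk3 f_pp_123 t 4 1 1 = true := ex3_b k0_pp_123 s9_pp_123

theorem s11_pp_123 : ∃ t, chk3 f_pp_123 t 2 1 1 = true := ex3_a s10_pp_123 s7_pp_123

theorem s12_pp_123 : ∃ t, chk3 f_pp_123 t 1 1 1 = true := ex3_a s11_pp_123 k6_pp_123

theorem c_pp_123 : CertNX 536870912 536870912 0 1230186008 1046898278 26843546 3 false true true .npn 1 2 3
    ndN2q1 ndN7q3 pcN2 Cut.none Ext.none :=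
  certNX2 (fam := false) (s1 := true) (s2 := true) (a := 1) (b := 2) (c := 3) (cn := .npn) (n1 := ndN2q1) (n2 := ndN7q3) (pc := pcN2) (cut := Cut.none) (xt := Ext.none) (P1 := 536870912) (W1 := 536870912) (P2 := 0) (W2 := 1230186008) (P3 := 1046898278) (W3 := 26843546) (N0 := 3)
    rfl (fun _ => rfl) s12_pp_123

noncomputable def f_pp_133 : ℕ → ℕ → ℕ → ℕ → Bool := onCell 536870912 536870912 0 1230186008 1046898278 26843546
    (rowNX 3 0 false true true .dn 1 3 3 (qsf 536870912 536870912 0 1230186008 3) ndN2q1 ndN7q3 pcN3 Cut.none Ext.none)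

def k0_pp_133 : ∃ t, chk3 f_pp_133 t 1 1 1 = true :=
  ⟨(b (a (b (a (b (l 16687712) (l 1)) (l 1)) (l 1)) (l 1)) (l 1)), by decide +kernel⟩

theorem c_pp_133 : CertNX 536870912 536870912 0 1230186008 1046898278 26843546 3 false true true .dn 1 3 3
    ndN2q1 ndN7q3 pcN3 Cut.none Ext.none :=
  certNX0 (fam := false) (s1 := true) (s2 := true) (a := 1) (b := 3) (c := 3) (cn := .dn) (n1 := ndN2q1) (n2 := ndN7q3) (pc := pcN3) (cut := Cut.none) (xt := Ext.none) (P1 := 536870912) (W1 := 536870912) (P2 := 0) (W2 := 1230186008) (P3 := 1046898278) (W3 := 26843546) (N0 := 3)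
    rfl k0_pp_133

noncomputable def f_pp_202_a : ℕ → ℕ → ℕ → ℕ → Bool := onCell 0 420477299 1073741824 536870912 1046898278 26843546
    (rowNX 3 0 false true true .pp 2 0 2 (qsf 0 420477299 1073741824 536870912 0) ndN2q2a ndN7q2 pcN0 Cut.none Ext.none)

def k0_pp_202_a : ∃ t, chk3 f_pp_202_a t 1 1 1 = true :=
  ⟨(l 5), by decide +kernel⟩

theorem c_pp_202_a : CertNX 0 420477299 1073741824 536870912 1046898278 26843546 3 false true true .pp 2 0 2
    ndN2q2a ndN7q2 pcN0 Cut.none Ext.none :=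
  certNX0 (fam := false) (s1 := true) (s2 := true) (a := 2) (b := 0) (c := 2) (cn := .pp) (n1 := ndN2q2a) (n2 := ndN7q2) (pc := pcN0) (cut := Cut.none) (xt := Ext.none) (P1 := 0) (W1 := 420477299) (P2 := 1073741824) (W2 := 536870912) (P3 := 1046898278) (W3 := 26843546) (N0 := 3)
    rfl k0_pp_202_a

noncomputable def f_pp_202_b : ℕ → ℕ → ℕ → ℕ → Bool := onCell 1239849684 370763052 1073741824 536870912 1046898278 26843546
    (rowNX 3 0 false true true .pp 2 0 2 (qsf 1239849684 370763052 1073741824 536870912 0) ndN2q2b ndN7q2 pcN0 Cut.none Ext.none)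

def k0_pp_202_b : ∃ t, chk3 f_pp_202_b t 1 1 1 = true :=
  ⟨(l 5), by decide +kernel⟩

theorem c_pp_202_b : CertNX 1239849684 370763052 1073741824 536870912 1046898278 26843546 3 false true true .pp 2 0 2
    ndN2q2b ndN7q2 pcN0 Cut.none Ext.none :=
  certNX0 (fam := false) (s1 := true) (s2 := true) (a := 2) (b := 0) (c := 2) (cn := .pp) (n1 := ndN2q2b) (n2 := ndN7q2) (pc := pcN0) (cut := Cut.none) (xt := Ext.none) (P1 := 1239849684) (W1 := 370763052) (P2 := 1073741824) (W2 := 536870912) (P3 := 1046898278) (W3 := 26843546) (N0 := 3)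
    rfl k0_pp_202_b

noncomputable def f_pp_203_a : ℕ → ℕ → ℕ → ℕ → Bool := onCell 0 420477299 0 1230186008 1046898278 26843546
    (rowNX 3 0 false true true .up 2 0 3 (qsf 0 420477299 0 1230186008 0) ndN2q2a ndN7q3 pcN0 Cut.none Ext.none)

def k0_pp_203_a : ∃ t, chk3 f_pp_203_a t 1 1 1 = true :=
  ⟨(b (l 2) (l 3)), by decide +kernel⟩

theorem c_pp_203_a : CertNX 0 420477299 0 1230186008 1046898278 26843546 3 false true true .up 2 0 3
    ndN2q2a ndN7q3 pcN0 Cut.none Ext.none :=
  certNX0 (fam := false) (s1 := true) (s2 := true) (a := 2) (b := 0) (c := 3) (cn := .up) (n1 := ndN2q2a) (n2 := ndN7q3) (pc := pcN0) (cut := Cut.none) (xt := Ext.none) (P1 := 0) (W1 := 420477299) (P2 := 0) (W2 := 1230186008) (P3 := 1046898278) (W3 := 26843546) (N0 := 3)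
    rfl k0_pp_203_a

noncomputable def f_pp_203_b : ℕ → ℕ → ℕ → ℕ → Bool := onCell 0 536870912 0 1230186008 1046898278 26843546
    (rowNX 3 2 false true true .up 2 0 3 (qsf 1239849684 370763052 0 1230186008 0) ndN2q2b ndN7q3 pcN0 Cut.none Ext.none)

def k0_pp_203_b : ∃ t, chk3 f_pp_203_b t 1 1 1 = true :=
  ⟨(b (l 3) (l 5)), by decide +kernel⟩

theorem c_pp_203_b : CertNX 1239849684 370763052 0 1230186008 1046898278 26843546 3 false true true .up 2 0 3
    ndN2q2b ndN7q3 pcN0 Cut.none Ext.none :=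
  certNX2 (fam := false) (s1 := true) (s2 := true) (a := 2) (b := 0) (c := 3) (cn := .up) (n1 := ndN2q2b) (n2 := ndN7q3) (pc := pcN0) (cut := Cut.none) (xt := Ext.none) (P1 := 1239849684) (W1 := 370763052) (P2 := 0) (W2 := 1230186008) (P3 := 1046898278) (W3 := 26843546) (N0 := 3)
    rfl (fun _ => rfl) k0_pp_203_b

noncomputable def f_pp_213_a : ℕ → ℕ → ℕ → ℕ → Bool := onCell 0 420477299 0 1230186008 1046898278 26843546
    (rowNX 3 0 false true true .pnn 2 1 3 (qsf 0 420477299 0 1230186008 1) ndN2q2a ndN7q3 pcN1 Cut.none Ext.none)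

def k0_pp_213_a : ∃ t, chk3 f_pp_213_a t 1 1 1 = true :=
  ⟨(b (l 3) (l 3)), by decide +kernel⟩

theorem c_pp_213_a : CertNX 0 420477299 0 1230186008 1046898278 26843546 3 false true true .pnn 2 1 3
    ndN2q2a ndN7q3 pcN1 Cut.none Ext.none :=
  certNX0 (fam := false) (s1 := true) (s2 := true) (a := 2) (b := 1) (c := 3) (cn := .pnn) (n1 := ndN2q2a) (n2 := ndN7q3) (pc := pcN1) (cut := Cut.none) (xt := Ext.none) (P1 := 0) (W1 := 420477299) (P2 := 0) (W2 := 1230186008) (P3 := 1046898278) (W3 := 26843546) (N0 := 3)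
    rfl k0_pp_213_a

noncomputable def f_pp_213_b : ℕ → ℕ → ℕ → ℕ → Bool := onCell 1239849684 370763052 0 1230186008 1046898278 26843546
    (rowNX 3 0 false true true .pnn 2 1 3 (qsf 1239849684 370763052 0 1230186008 1) ndN2q2b ndN7q3 pcN1 Cut.none Ext.none)

def k0_pp_213_b : ∃ t, chk3 f_pp_213_b t 1 1 1 = true :=
  ⟨(b (l 3) (b (l 3) (l 3))), by decide +kernel⟩

theorem c_pp_213_b : CertNX 1239849684 370763052 0 1230186008 1046898278 26843546 3 false true true .pnn 2 1 3
    ndN2q2b ndN7q3 pcN1 Cut.none Ext.none :=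
  certNX0 (fam := false) (s1 := true) (s2 := true) (a := 2) (b := 1) (c := 3) (cn := .pnn) (n1 := ndN2q2b) (n2 := ndN7q3) (pc := pcN1) (cut := Cut.none) (xt := Ext.none) (P1 := 1239849684) (W1 := 370763052) (P2 := 0) (W2 := 1230186008) (P3 := 1046898278) (W3 := 26843546) (N0 := 3)
    rfl k0_pp_213_b

noncomputable def f_pp_303 : ℕ → ℕ → ℕ → ℕ → Bool := onCell 1610612736 469762048 0 1230186008 1046898278 26843546
    (rowNX 3 0 false true true .npn 3 0 3 (qsf 1610612736 469762048 0 1230186008 0) ndN2q3 ndN7q3 pcN0 Cut.none Ext.none)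

def k0_pp_303 : ∃ t, chk3 f_pp_303 t 1 1 1 = true :=
  ⟨(b (l 3) (l 5)), by decide +kernel⟩

theorem c_pp_303 : CertNX 1610612736 469762048 0 1230186008 1046898278 26843546 3 false true true .npn 3 0 3
    ndN2q3 ndN7q3 pcN0 Cut.none Ext.none :=
  certNX0 (fam := false) (s1 := true) (s2 := true) (a := 3) (b := 0) (c := 3) (cn := .npn) (n1 := ndN2q3) (n2 := ndN7q3) (pc := pcN0) (cut := Cut.none) (xt := Ext.none) (P1 := 1610612736) (W1 := 469762048) (P2 := 0) (W2 := 1230186008) (P3 := 1046898278) (W3 := 26843546) (N0 := 3)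
    rfl k0_pp_303

noncomputable def f_pp_313 : ℕ → ℕ → ℕ → ℕ → Bool := onCell 1610612736 469762048 0 1230186008 1046898278 26843546
    (rowNX 3 0 false true true .dn 3 1 3 (qsf 1610612736 469762048 0 1230186008 1) ndN2q3 ndN7q3 pcN1 Cut.none Ext.none)

def k0_pp_313 : ∃ t, chk3 f_pp_313 t 1 1 1 = true :=
  ⟨(b (l 3) (l 1)), by decide +kernel⟩

theorem c_pp_313 : CertNX 1610612736 469762048 0 1230186008 1046898278 26843546 3 false true true .dn 3 1 3
    ndN2q3 ndN7q3 pcN1 Cut.none Ext.none :=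
  certNX0 (fam := false) (s1 := true) (s2 := true) (a := 3) (b := 1) (c := 3) (cn := .dn) (n1 := ndN2q3) (n2 := ndN7q3) (pc := pcN1) (cut := Cut.none) (xt := Ext.none) (P1 := 1610612736) (W1 := 469762048) (P2 := 0) (W2 := 1230186008) (P3 := 1046898278) (W3 := 26843546) (N0 := 3)
    rfl k0_pp_313

noncomputable def f_pm_001 : ℕ → ℕ → ℕ → ℕ → Bool := onCell 67108864 469762048 536870912 536870912 1046898278 26843546
    (rowNX 3 0 false true false .up 0 0 1 (qsf 67108864 469762048 536870912 536870912 0) ndN2q0 ndN7q1 pcN0 Cut.none Ext.none)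

def k0_pm_001 : ∃ t, chk3 f_pm_001 t 1 1 1 = true :=
  ⟨(l 4), by decide +kernel⟩

theorem c_pm_001 : CertNX 67108864 469762048 536870912 536870912 1046898278 26843546 3 false true false .up 0 0 1
    ndN2q0 ndN7q1 pcN0 Cut.none Ext.none :=
  certNX0 (fam := false) (s1 := true) (s2 := false) (a := 0) (b := 0) (c := 1) (cn := .up) (n1 := ndN2q0) (n2 := ndN7q1) (pc := pcN0) (cut := Cut.none) (xt := Ext.none) (P1 := 67108864) (W1 := 469762048) (P2 := 536870912) (W2 := 536870912) (P3 := 1046898278) (W3 := 26843546) (N0 := 3)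
    rfl k0_pm_001

noncomputable def f_pm_011 : ℕ → ℕ → ℕ → ℕ → Bool := onCell 67108864 469762048 536870912 536870912 1046898278 26843546
    (rowNX 3 0 false true false .pnn 0 1 1 (qsf 67108864 469762048 536870912 536870912 1) ndN2q0 ndN7q1 pcN1 Cut.none Ext.none)

def k0_pm_011 : ∃ t, chk3 f_pm_011 t 1 1 1 = true :=
  ⟨(l 4), by decide +kernel⟩

theorem c_pm_011 : CertNX 67108864 469762048 536870912 536870912 1046898278 26843546 3 false true false .pnn 0 1 1
    ndN2q0 ndN7q1 pcN1 Cut.none Ext.none :=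
  certNX0 (fam := false) (s1 := true) (s2 := false) (a := 0) (b := 1) (c := 1) (cn := .pnn) (n1 := ndN2q0) (n2 := ndN7q1) (pc := pcN1) (cut := Cut.none) (xt := Ext.none) (P1 := 67108864) (W1 := 469762048) (P2 := 536870912) (W2 := 536870912) (P3 := 1046898278) (W3 := 26843546) (N0 := 3)
    rfl k0_pm_011

noncomputable def f_pm_012 : ℕ → ℕ → ℕ → ℕ → Bool := onCell 67108864 469762048 1073741824 536870912 1046898278 26843546
    (rowNX 3 0 false true false .pnp 0 1 2 (qsf 67108864 469762048 1073741824 536870912 1) ndN2q0 ndN7q2 pcN1 Cut.none Ext.none)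

def k0_pm_012 : ∃ t, chk3 f_pm_012 t 1 1 1 = true :=
  ⟨(l 4), by decide +kernel⟩

theorem c_pm_012 : CertNX 67108864 469762048 1073741824 536870912 1046898278 26843546 3 false true false .pnp 0 1 2
    ndN2q0 ndN7q2 pcN1 Cut.none Ext.none :=
  certNX0 (fam := false) (s1 := true) (s2 := false) (a := 0) (b := 1) (c := 2) (cn := .pnp) (n1 := ndN2q0) (n2 := ndN7q2) (pc := pcN1) (cut := Cut.none) (xt := Ext.none) (P1 := 67108864) (W1 := 469762048) (P2 := 1073741824) (W2 := 536870912) (P3 := 1046898278) (W3 := 26843546) (N0 := 3)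
    rfl k0_pm_012

noncomputable def f_pm_022 : ℕ → ℕ → ℕ → ℕ → Bool := onCell 67108864 469762048 1073741824 536870912 1046898278 26843546
    (rowNX 3 0 false true false .pp 0 2 2 (qsf 67108864 469762048 1073741824 536870912 2) ndN2q0 ndN7q2 pcN2 Cut.none Ext.none)

def k0_pm_022 : ∃ t, chk3 f_pm_022 t 1 1 1 = true :=
  ⟨(l 4), by decide +kernel⟩

theorem c_pm_022 : CertNX 67108864 469762048 1073741824 536870912 1046898278 26843546 3 false true false .pp 0 2 2
    ndN2q0 ndN7q2 pcN2 Cut.none Ext.none :=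
  certNX0 (fam := false) (s1 := true) (s2 := false) (a := 0) (b := 2) (c := 2) (cn := .pp) (n1 := ndN2q0) (n2 := ndN7q2) (pc := pcN2) (cut := Cut.none) (xt := Ext.none) (P1 := 67108864) (W1 := 469762048) (P2 := 1073741824) (W2 := 536870912) (P3 := 1046898278) (W3 := 26843546) (N0 := 3)
    rfl k0_pm_022

noncomputable def f_pm_023 : ℕ → ℕ → ℕ → ℕ → Bool := onCell 67108864 469762048 0 1230186008 1046898278 26843546
    (rowNX 3 0 false true false .up 0 2 3 (qsf 67108864 469762048 0 1230186008 2) ndN2q0 ndN7q3 pcN2 Cut.none Ext.none)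

def k0_pm_023 : ∃ t, chk3 f_pm_023 t 1 1 1 = true :=
  ⟨(b (a (l 2) (l 4)) (l 4)), by decide +kernel⟩

theorem c_pm_023 : CertNX 67108864 469762048 0 1230186008 1046898278 26843546 3 false true false .up 0 2 3
    ndN2q0 ndN7q3 pcN2 Cut.none Ext.none :=
  certNX0 (fam := false) (s1 := true) (s2 := false) (a := 0) (b := 2) (c := 3) (cn := .up) (n1 := ndN2q0) (n2 := ndN7q3) (pc := pcN2) (cut := Cut.none) (xt := Ext.none) (P1 := 67108864) (W1 := 469762048) (P2 := 0) (W2 := 1230186008) (P3 := 1046898278) (W3 := 26843546) (N0 := 3)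
    rfl k0_pm_023

noncomputable def f_pm_033 : ℕ → ℕ → ℕ → ℕ → Bool := onCell 67108864 469762048 0 1230186008 1046898278 26843546
    (rowNX 3 0 false true false .pnn 0 3 3 (qsf 67108864 469762048 0 1230186008 3) ndN2q0 ndN7q3 pcN3 Cut.none Ext.none)

def k0_pm_033 : ∃ t, chk3 f_pm_033 t 1 1 1 = true :=
  ⟨(b (a (l 4) (l 4)) (l 4)), by decide +kernel⟩

theorem c_pm_033 : CertNX 67108864 469762048 0 1230186008 1046898278 26843546 3 false true false .pnn 0 3 3
    ndN2q0 ndN7q3 pcN3 Cut.none Ext.none :=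
  certNX0 (fam := false) (s1 := true) (s2 := false) (a := 0) (b := 3) (c := 3) (cn := .pnn) (n1 := ndN2q0) (n2 := ndN7q3) (pc := pcN3) (cut := Cut.none) (xt := Ext.none) (P1 := 67108864) (W1 := 469762048) (P2 := 0) (W2 := 1230186008) (P3 := 1046898278) (W3 := 26843546) (N0 := 3)
    rfl k0_pm_033

noncomputable def f_pm_101 : ℕ → ℕ → ℕ → ℕ → Bool := onCell 536870912 536870912 536870912 536870912 1046898278 26843546
    (rowNX 3 0 false true false .npn 1 0 1 (qsf 536870912 536870912 536870912 536870912 0) ndN2q1 ndN7q1 pcN0 Cut.none Ext.none)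

def k0_pm_101 : ∃ t, chk3 f_pm_101 t 1 1 1 = true :=
  ⟨(l 4), by decide +kernel⟩

theorem c_pm_101 : CertNX 536870912 536870912 536870912 536870912 1046898278 26843546 3 false true false .npn 1 0 1
    ndN2q1 ndN7q1 pcN0 Cut.none Ext.none :=
  certNX0 (fam := false) (s1 := true) (s2 := false) (a := 1) (b := 0) (c := 1) (cn := .npn) (n1 := ndN2q1) (n2 := ndN7q1) (pc := pcN0) (cut := Cut.none) (xt := Ext.none) (P1 := 536870912) (W1 := 536870912) (P2 := 536870912) (W2 := 536870912) (P3 := 1046898278) (W3 := 26843546) (N0 := 3)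
    rfl k0_pm_101

noncomputable def f_pm_102 : ℕ → ℕ → ℕ → ℕ → Bool := onCell 536870912 536870912 1073741824 536870912 1046898278 26843546
    (rowNX 3 0 false true false .npp 1 0 2 (qsf 536870912 536870912 1073741824 536870912 0) ndN2q1 ndN7q2 pcN0 Cut.none Ext.none)

def k0_pm_102 : ∃ t, chk3 f_pm_102 t 1 1 1 = true :=
  ⟨(l 4), by decide +kernel⟩

theorem c_pm_102 : CertNX 536870912 536870912 1073741824 536870912 1046898278 26843546 3 false true false .npp 1 0 2
    ndN2q1 ndN7q2 pcN0 Cut.none Ext.none :=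
  certNX0 (fam := false) (s1 := true) (s2 := false) (a := 1) (b := 0) (c := 2) (cn := .npp) (n1 := ndN2q1) (n2 := ndN7q2) (pc := pcN0) (cut := Cut.none) (xt := Ext.none) (P1 := 536870912) (W1 := 536870912) (P2 := 1073741824) (W2 := 536870912) (P3 := 1046898278) (W3 := 26843546) (N0 := 3)
    rfl k0_pm_102

noncomputable def f_pm_112 : ℕ → ℕ → ℕ → ℕ → Bool := onCell 536870912 536870912 1073741824 536870912 1046898278 26843546
    (rowNX 3 0 false true false .dn 1 1 2 (qsf 536870912 536870912 1073741824 536870912 1) ndN2q1 ndN7q2 pcN1 Cut.none Ext.none)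

def k0_pm_112 : ∃ t, chk3 f_pm_112 t 1 1 1 = true :=
  ⟨(l 4), by decide +kernel⟩

theorem c_pm_112 : CertNX 536870912 536870912 1073741824 536870912 1046898278 26843546 3 false true false .dn 1 1 2
    ndN2q1 ndN7q2 pcN1 Cut.none Ext.none :=
  certNX0 (fam := false) (s1 := true) (s2 := false) (a := 1) (b := 1) (c := 2) (cn := .dn) (n1 := ndN2q1) (n2 := ndN7q2) (pc := pcN1) (cut := Cut.none) (xt := Ext.none) (P1 := 536870912) (W1 := 536870912) (P2 := 1073741824) (W2 := 536870912) (P3 := 1046898278) (W3 := 26843546) (N0 := 3)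
    rfl k0_pm_112

noncomputable def f_pm_113 : ℕ → ℕ → ℕ → ℕ → Bool := onCell 536870912 536870912 0 1230186008 1046898278 26843546
    (rowNX 3 0 false true false .nn 1 1 3 (qsf 536870912 536870912 0 1230186008 1) ndN2q1 ndN7q3 pcN1 Cut.none Ext.none)

def k0_pm_113 : ∃ t, chk3 f_pm_113 t 1 1 1 = true :=
  ⟨(b (a (l 2) (a (l 2) (b (a (l 2) (a (l 2) (b (l 1602121719671) (b (l 15796672) (l 14127312))))) (b (a (b (l 2) (b (l 2) (l 4))) (a (b (l 12280328) (b (a (b (l 11889064) (l 4)) (c (a (l 12452576) (l 12665440)) (c (a (l 11716160) (l 11869728)) (c (a (l 11353184) (b (l 11480352) (l 11497536))) (a (b (l 11086448) (l 11108680)) (l 11196424)))))) (l 4))) (b (a (l 12840392) (l 13470712)) (b (b (l 12834432) (c (a (l 13332264) (a (l 13584128) (l 13840640))) (a (c (a (c (l 12245120) (l 11954048)) (l 12308552)) (l 11539264)) (l 12171272)))) (b (c (a (l 12941112) (c (l 13910864) (c (l 13399656) (a (l 12966112) (b (l 13149536) (l 12998536)))))) (c (a (c (l 12187952) (l 11860464))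 (a (l 12439528) (l 12564272))) (l 11746048))) (a (l 4) (c (c (l 13632480) (a (c (l 12969840) (l 12630336)) (c (l 13202096) (l 12830056)))) (l 11872608)))))))) (b (b (b (a (l 4) (a (l 4) (a (l 4) (c (c (l 13430472) (a (l 4) (l 12828608))) (l 11746040))))) (l 4)) (l 4)) (l 4)))))) (l 4)), by decide +kernel⟩

theorem c_pm_113 : CertNX 536870912 536870912 0 1230186008 1046898278 26843546 3 false true false .nn 1 1 3
    ndN2q1 ndN7q3 pcN1 Cut.none Ext.none :=
  certNX0 (fam := false) (s1 := true) (s2 := false) (a := 1) (b := 1) (c := 3) (cn := .nn) (n1 := ndN2q1) (n2 := ndN7q3) (pc := pcN1) (cut := Cut.none) (xt := Ext.none) (P1 := 536870912) (W1 := 536870912) (P2 := 0) (W2 := 1230186008) (P3 := 1046898278) (W3 := 26843546) (N0 := 3)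
    rfl k0_pm_113

noncomputable def f_pm_123 : ℕ → ℕ → ℕ → ℕ → Bool := onCell 1073741824 536870912 0 1230186008 1046898278 26843546
    (rowNX 3 2 false true false .npn 1 2 3 (qsf 536870912 536870912 0 1230186008 2) ndN2q1 ndN7q3 pcN2 Cut.none Ext.none)

def k0_pm_123 : ∃ t, chk3 f_pm_123 t 1 1 1 = true :=
  ⟨(b (b (a (a (a (b (c (a (l 16147632) (l 15853376)) (a (l 15085168) (l 15656008))) (c (a (l 15005984) (a (l 14838232) (l 14778488))) (a (c (l 14134808) (l 13536632)) (l 14307952)))) (b (a (c (l 15565920) (l 15407392)) (l 15101192)) (a (a (l 14487440) (l 14510880)) (l 14408504)))) (a (b (a (l 15004792) (l 15475600)) (a (l 14694832) (l 15153904))) (b (a (l 15834920) (l 16069256)) (a (l 15460024) (l 15770424))))) (a (a (b (l 16359184) (l 16245232)) (b (l 16676528) (l 4))) (a (l 16637376) (l 16637376)))) (b (a (a (a (c (a (l 13457784) (b (l 13509304) (l 4))) (a (b (c (l 12844248) (l 12446976)) (c (l 12380024) (l 12087040))) (l 13214528))) (a (b (c (l 13782696) (l 13674624))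 (l 4)) (l 13956144))) (l 4)) (l 4)) (l 4))) (l 4)), by decide +kernel⟩

theorem c_pm_123 : CertNX 536870912 536870912 0 1230186008 1046898278 26843546 3 false true false .npn 1 2 3
    ndN2q1 ndN7q3 pcN2 Cut.none Ext.none :=
  certNX2 (fam := false) (s1 := true) (s2 := false) (a := 1) (b := 2) (c := 3) (cn := .npn) (n1 := ndN2q1) (n2 := ndN7q3) (pc := pcN2) (cut := Cut.none) (xt := Ext.none) (P1 := 536870912) (W1 := 536870912) (P2 := 0) (W2 := 1230186008) (P3 := 1046898278) (W3 := 26843546) (N0 := 3)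
    rfl (fun _ => rfl) k0_pm_123

noncomputable def f_pm_133 : ℕ → ℕ → ℕ → ℕ → Bool := onCell 1610612736 536870912 0 1230186008 1046898278 26843546
    (rowNX 3 2 false true false .dn 1 3 3 (qsf 536870912 536870912 0 1230186008 3) ndN2q1 ndN7q3 pcN3 Cut.none Ext.none)

def k0_pm_133 : ∃ t, chk3 f_pm_133 t 1 1 1 = true :=
  ⟨(b (b (a (l 4) (l 1)) (l 1)) (l 1)), by decide +kernel⟩

theorem c_pm_133 : CertNX 536870912 536870912 0 1230186008 1046898278 26843546 3 false true false .dn 1 3 3
    ndN2q1 ndN7q3 pcN3 Cut.none Ext.none :=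
  certNX2 (fam := false) (s1 := true) (s2 := false) (a := 1) (b := 3) (c := 3) (cn := .dn) (n1 := ndN2q1) (n2 := ndN7q3) (pc := pcN3) (cut := Cut.none) (xt := Ext.none) (P1 := 536870912) (W1 := 536870912) (P2 := 0) (W2 := 1230186008) (P3 := 1046898278) (W3 := 26843546) (N0 := 3)
    rfl (fun _ => rfl) k0_pm_133

noncomputable def f_pm_202_a : ℕ → ℕ → ℕ → ℕ → Bool := onCell 0 420477299 0 536870912 1046898278 26843546
    (rowNX 3 1 false true false .pp 2 0 2 (qsf 0 420477299 1073741824 536870912 0) ndN2q2a ndN7q2 pcN0 Cut.none Ext.none)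

def k0_pm_202_a : ∃ t, chk3 f_pm_202_a t 1 1 1 = true :=
  ⟨(b (b (b (a (a (b (b (c (b (l 15197856) (b (l 15319976) (l 15397904))) (b (c (l 15156088) (b (l 15083760) (l 15169872))) (l 15308880))) (c (l 15426992) (l 15508472))) (c (l 15833808) (l 15842912))) (a (b (l 4) (c (l 15753936) (l 15717936))) (l 4))) (l 4)) (a (b (a (l 16269576) (b (l 15955432) (l 16152984))) (a (l 16647752) (l 16441040))) (b (l 4) (a (l 15938648) (l 4))))) (a (b (a (b (l 16619424) (l 16426832)) (b (l 16511440) (l 16485464))) (b (a (l 16469448) (l 16442824)) (l 16410840))) (b (a (b (l 16340080) (l 16521176)) (l 4)) (a (b (l 16550936) (l 16554528)) (a (b (l 16443736) (l 16667832)) (l 4)))))) (a (b (c (a (l 16406712) (l 16405288)) (a (l 16393704) (l 16392232))) (l 2)) (b (a (b (l 16554784) (l 16554784)) (b (a (l 16713464) (l 16252792)) (a (l 16713464) (l 16262632)))) (a (b (l 16554784) (l 2)) (c (a (l 16714568) (l 16271552)) (a (l 16712360) (l 16253744))))))), by decide +kernel⟩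

theorem c_pm_202_a : CertNX 0 420477299 1073741824 536870912 1046898278 26843546 3 false true false .pp 2 0 2
    ndN2q2a ndN7q2 pcN0 Cut.none Ext.none :=
  certNX1 (fam := false) (s1 := true) (s2 := false) (a := 2) (b := 0) (c := 2) (cn := .pp) (n1 := ndN2q2a) (n2 := ndN7q2) (pc := pcN0) (cut := Cut.none) (xt := Ext.none) (P1 := 0) (W1 := 420477299) (P2 := 1073741824) (W2 := 536870912) (P3 := 1046898278) (W3 := 26843546) (N0 := 3)
    rfl (fun _ => rfl) k0_pm_202_a

noncomputable def f_pm_202_b : ℕ → ℕ → ℕ → ℕ → Bool := onCell 1239849684 370763052 0 536870912 1046898278 26843546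
    (rowNX 3 1 false true false .pp 2 0 2 (qsf 1239849684 370763052 1073741824 536870912 0) ndN2q2b ndN7q2 pcN0 Cut.none Ext.none)

def k0_pm_202_b : ∃ t, chk3 f_pm_202_b t 1 1 1 = true :=
  ⟨(b (b (b (a (b (a (b (c (b (l 15517944) (a (l 15365176) (l 15996024))) (b (a (c (l 15464680) (b (l 15411488) (l 15475392))) (c (l 15875344) (l 15858976))) (c (l 15642064) (l 15770136)))) (c (a (l 15696016) (l 16140592)) (a (l 15741480) (l 16114064)))) (b (c (b (l 16615384) (a (l 16471520) (l 16323320))) (b (c (l 16611816) (a (l 16368856) (l 16379520))) (l 16451744))) (c (a (l 16598336) (l 16248080)) (l 16482784)))) (a (c (a (l 16017168) (l 16405096)) (a (l 16053280) (l 16389968))) (c (b (l 16378760) (l 16314120)) (l 16351744)))) (b (a (b (c (l 15991824) (b (l 15979056) (l 15965448))) (c (l 15966072) (l 15958800))) (b (c (b (l 15655584) (l 15663176)) (b (c (l 15490088) (l 15623160)) (c (l 15633224) (l 15626280)))) (c (b (l 15641600) (l 15631176)) (l 15634184)))) (a (a (l 16037672) (c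 (l 15893592) (l 15875776))) (c (l 15447520) (l 15634648))))) (b (a (a (a (l 16238016) (c (l 16648192) (l 16645464))) (c (l 16244424) (l 16225680))) (a (b (l 15767040) (l 16000584)) (l 15509760))) (a (a (a (l 16690992) (l 16415168)) (a (l 16251368) (l 16144072))) (a (l 16095144) (l 2))))) (a (b (a (a (b (l 16455808) (l 16424928)) (b (l 16363688) (l 16466816))) (b (l 16284672) (l 16464448))) (a (b (l 16511088) (l 16656080)) (l 16787664))) (b (a (l 16364536) (l 2)) (l 2)))) (b (a (a (b (l 16655936) (a (l 16555232) (l 2))) (b (l 16777216) (l 2))) (l 2)) (l 2))), by decide +kernel⟩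

theorem c_pm_202_b : CertNX 1239849684 370763052 1073741824 536870912 1046898278 26843546 3 false true false .pp 2 0 2
    ndN2q2b ndN7q2 pcN0 Cut.none Ext.none :=
  certNX1 (fam := false) (s1 := true) (s2 := false) (a := 2) (b := 0) (c := 2) (cn := .pp) (n1 := ndN2q2b) (n2 := ndN7q2) (pc := pcN0) (cut := Cut.none) (xt := Ext.none) (P1 := 1239849684) (W1 := 370763052) (P2 := 1073741824) (W2 := 536870912) (P3 := 1046898278) (W3 := 26843546) (N0 := 3)
    rfl (fun _ => rfl) k0_pm_202_b

noncomputable def f_pm_203_a : ℕ → ℕ → ℕ → ℕ → Bool := onCell 0 420477299 0 1230186008 1046898278 26843546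
    (rowNX 3 0 false true false .up 2 0 3 (qsf 0 420477299 0 1230186008 0) ndN2q2a ndN7q3 pcN0 Cut.none Ext.none)

def k0_pm_203_a : ∃ t, chk3 f_pm_203_a t 1 1 1 = true :=
  ⟨(b (l 2) (b (l 2) (b (b (l 2) (a (l 16347816) (a (l 16554784) (l 2)))) (a (b (a (l 16400216) (l 16398760)) (a (l 16400216) (l 16398760))) (a (b (l 16554784) (l 16554784)) (b (a (l 16713464) (l 16262632)) (a (l 16713464) (l 16262632)))))))), by decide +kernel⟩

theorem c_pm_203_a : CertNX 0 420477299 0 1230186008 1046898278 26843546 3 false true false .up 2 0 3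
    ndN2q2a ndN7q3 pcN0 Cut.none Ext.none :=
  certNX0 (fam := false) (s1 := true) (s2 := false) (a := 2) (b := 0) (c := 3) (cn := .up) (n1 := ndN2q2a) (n2 := ndN7q3) (pc := pcN0) (cut := Cut.none) (xt := Ext.none) (P1 := 0) (W1 := 420477299) (P2 := 0) (W2 := 1230186008) (P3 := 1046898278) (W3 := 26843546) (N0 := 3)
    rfl k0_pm_203_a

noncomputable def f_pm_203_b : ℕ → ℕ → ℕ → ℕ → Bool := onCell 0 536870912 0 1230186008 1046898278 26843546
    (rowNX 3 2 false true false .up 2 0 3 (qsf 1239849684 370763052 0 1230186008 0) ndN2q2b ndN7q3 pcN0 Cut.none Ext.none)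

def k0_pm_203_b : ∃ t, chk3 f_pm_203_b t 1 1 1 = true :=
  ⟨(a (b (l 2) (a (b (l 2) (b (l 2) (a (b (l 2) (b (a (l 2) (l 15427872)) (a (a (c (l 15364456) (l 15373800)) (c (l 15458352) (l 15446528))) (l 15577096)))) (a (b (l 15586208) (l 15763384)) (l 16049976))))) (b (a (l 2) (b (l 2) (a (l 2) (c (l 1151689083031) (l 1116255602423))))) (a (b (b (a (l 2) (b (l 2) (l 16746664))) (a (l 827954516631) (l 16636264))) (b (l 16230928) (l 16365328))) (b (a (b (l 925666471687) (l 16728616)) (l 16798088)) (a (l 16694080) (l 16777096))))))) (b (l 3) (b (b (a (a (l 2) (c (l 340007059463) (l 326585286663))) (c (c (l 317458481159) (l 311016030215)) (a (l 308331675655) (l 291688677383)))) (a (c (a (l 16777216) (l 16777216)) (a (l 16777216) (l 16777216))) (a (c (l 16777216) (l 16777216)) (c (l 16777216) (l 16777216))))) (b (a (b (l 16777216) (l 16777216)) (b (l 16763544) (a (l 16763936) (l 16611088)))) (a (b (a (l 16777216) (l 16765200)) (a (l 16759312) (b (l 16688240) (l 16577632)))) (b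 (a (b (l 16693824) (l 16583832)) (b (l 16548704) (l 16570848))) (a (b (l 16556648) (a (l 16573320) (l 1))) (l 1)))))))), by decide +kernel⟩

theorem c_pm_203_b : CertNX 1239849684 370763052 0 1230186008 1046898278 26843546 3 false true false .up 2 0 3
    ndN2q2b ndN7q3 pcN0 Cut.none Ext.none :=
  certNX2 (fam := false) (s1 := true) (s2 := false) (a := 2) (b := 0) (c := 3) (cn := .up) (n1 := ndN2q2b) (n2 := ndN7q3) (pc := pcN0) (cut := Cut.none) (xt := Ext.none) (P1 := 1239849684) (W1 := 370763052) (P2 := 0) (W2 := 1230186008) (P3 := 1046898278) (W3 := 26843546) (N0 := 3)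
    rfl (fun _ => rfl) k0_pm_203_b

noncomputable def f_pm_213_a : ℕ → ℕ → ℕ → ℕ → Bool := onCell 0 420477299 0 1230186008 1046898278 26843546
    (rowNX 3 0 false true false .pnn 2 1 3 (qsf 0 420477299 0 1230186008 1) ndN2q2a ndN7q3 pcN1 Cut.none Ext.none)

def k0_pm_213_a : ∃ t, chk3 f_pm_213_a t 1 4 1 = true :=
  ⟨(a (l 3) (a (b (l 3) (b (l 3) (a (b (l 3) (l 357723226455)) (b (a (l 3) (l 322826854439)) (a (b (l 16624704) (l 16630880)) (l 130627079783)))))) (b (b (l 3) (a (l 3) (a (l 3) (b (l 3) (c (l 322289979479) (l 335711763303)))))) (b (a (b (l 3) (a (c (l 347522765415) (l 357723300695)) (c (l 16643976) (l 16662608)))) (a (b (c (l 302962809015) (l 321753203863)) (c (l 16732904) (l 16731360))) (b (c (l 164986642247) (l 146196147799)) (c (l 16619744) (l 16614272))))) (a (a (c (b (l 16606952) (l 16658656)) (b (l 16602560) (l 16654568))) (c (l 16727704) (l 16726040))) (a (c (l 16728264) (l 16726760)) (c (l 16566832) (l 16531792)))))))), by decide +kernel⟩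

def k1_pm_213_a : ∃ t, chk3 f_pm_213_a t 1 5 1 = true :=
  ⟨(a (b (a (b (l 3) (b (a (l 3) (l 385640259319)) (a (l 463486682775) (l 294909058103)))) (b (a (b (l 3) (l 383492761271)) (b (l 348596258775) (l 256254381991))) (a (c (l 16378440) (l 16364440)) (c (l 16410600) (l 16397720))))) (a (b (b (c (l 263770498375) (l 16393112)) (c (l 16406712) (l 16393704))) (c (l 16406712) (l 16393704))) (b (c (a (l 16380368) (l 16414872)) (a (l 16366432) (l 16402144))) (a (b (l 16376848) (l 16376848)) (b (l 16419696) (l 16419808)))))) (b (a (b (a (b (l 213841741879) (l 16483920)) (b (a (l 16594776) (l 16574920)) (l 16570856))) (c (a (l 16466464) (l 16550224)) (l 16373504))) (a (b (a (b (a (l 16651800) (l 16674024)) (a (l 16634936) (l 16655552))) (b (l 16736720) (l 16711992))) (b (a (l 16648480) (l 16654848)) (a (l 16641752) (l 16658544)))) (b (a (c (l 16595096) (l 16566712)) (b (l 16416048) (l 16319024))) (b (a (l 16485896) (l 16250312)) (a (b (l 16456288) (l 16440896)) (l 16201432))))))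 (a (b (a (b (l 16461864) (l 16471952)) (b (l 16545024) (l 16558152))) (a (b (l 16487968) (l 16496288)) (l 16588624))) (a (b (a (b (l 16647664) (l 16658704)) (l 16640824)) (l 16714928)) (b (b (l 16296208) (l 16276352)) (l 16257520)))))), by decide +kernel⟩

def k2_pm_213_a : ∃ t, chk3 f_pm_213_a t 1 3 1 = true :=
  ⟨(b (a (b (b (a (c (l 16406712) (l 16393704)) (a (l 16376848) (l 16419808))) (a (l 16400216) (l 16398760))) (a (b (l 16400216) (l 16400216)) (b (l 16398760) (l 16398760)))) (b (a (b (l 16554416) (l 16554784)) (a (b (l 16712336) (l 16713464)) (b (l 16251816) (l 16260720)))) (a (b (l 16554784) (l 16554784)) (b (a (l 16713464) (l 16262632)) (l 16345104))))) (a (b (b (a (l 16400216) (l 16398760)) (l 16368792)) (b (l 1) (l 1))) (b (a (b (l 16554784) (l 16554784)) (b (l 16491904) (a (l 16713464) (l 16262632)))) (a (b (l 16554784) (l 1)) (b (a (l 16713464) (l 16262632)) (a (l 1) (l 16262632))))))), by decide +kernel⟩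

theorem s3_pm_213_a : ∃ t, chk3 f_pm_213_a t 1 2 1 = true := ex3_b k0_pm_213_a k1_pm_213_a

theorem s4_pm_213_a : ∃ t, chk3 f_pm_213_a t 1 1 1 = true := ex3_b s3_pm_213_a k2_pm_213_a

theorem c_pm_213_a : CertNX 0 420477299 0 1230186008 1046898278 26843546 3 false true false .pnn 2 1 3
    ndN2q2a ndN7q3 pcN1 Cut.none Ext.none :=
  certNX0 (fam := false) (s1 := true) (s2 := false) (a := 2) (b := 1) (c := 3) (cn := .pnn) (n1 := ndN2q2a) (n2 := ndN7q3) (pc := pcN1) (cut := Cut.none) (xt := Ext.none) (P1 := 0) (W1 := 420477299) (P2 := 0) (W2 := 1230186008) (P3 := 1046898278) (W3 := 26843546) (N0 := 3)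
    rfl s4_pm_213_a

noncomputable def f_pm_213_b : ℕ → ℕ → ℕ → ℕ → Bool := onCell 1239849684 370763052 0 1230186008 1046898278 26843546
    (rowNX 3 0 false true false .pnn 2 1 3 (qsf 1239849684 370763052 0 1230186008 1) ndN2q2b ndN7q3 pcN1 Cut.none Ext.none)

def k0_pm_213_b : ∃ t, chk3 f_pm_213_b t 1 1 1 = true :=
  ⟨(b (b (l 3) (a (b (l 3) (a (b (a (c (b (l 16454200) (l 16559056)) (b (l 16551400) (l 16551400))) (c (l 376514059431) (l 390472698647))) (a (c (l 16559056) (l 16551400)) (c (l 16687816) (l 16707856)))) (b (l 3) (a (c (l 16777216) (l 16777216)) (c (l 382419861511) (l 16777216)))))) (l 3))) (b (b (a (a (c (b (a (l 16559056) (l 16750728)) (a (l 16559056) (l 16750728))) (b (a (l 16551400) (l 16749800)) (a (l 16551400) (l 16749800)))) (c (b (a (l 16777216) (l 16777216)) (a (l 16777216) (l 16777216))) (b (a (l 16777216) (l 16777216)) (a (l 16777216) (l 16777216))))) (a (a (b (c (l 16777216) (l 16777216)) (c (l 16777216) (l 16777216))) (a (b (l 351818219527) (l 1))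 (l 1))) (l 1))) (a (a (b (l 16530104) (l 16655936)) (a (l 16777216) (b (c (l 16777216) (l 16777216)) (l 1)))) (l 1))) (b (a (a (b (a (l 16555232) (l 16750264)) (l 16655936)) (l 1)) (l 1)) (l 1)))), by decide +kernel⟩

theorem c_pm_213_b : CertNX 1239849684 370763052 0 1230186008 1046898278 26843546 3 false true false .pnn 2 1 3
    ndN2q2b ndN7q3 pcN1 Cut.none Ext.none :=
  certNX0 (fam := false) (s1 := true) (s2 := false) (a := 2) (b := 1) (c := 3) (cn := .pnn) (n1 := ndN2q2b) (n2 := ndN7q3) (pc := pcN1) (cut := Cut.none) (xt := Ext.none) (P1 := 1239849684) (W1 := 370763052) (P2 := 0) (W2 := 1230186008) (P3 := 1046898278) (W3 := 26843546) (N0 := 3)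
    rfl k0_pm_213_b

noncomputable def f_pm_303 : ℕ → ℕ → ℕ → ℕ → Bool := onCell 0 536870912 0 1230186008 1046898278 26843546
    (rowNX 3 2 false true false .npn 3 0 3 (qsf 1610612736 469762048 0 1230186008 0) ndN2q3 ndN7q3 pcN0 Cut.none Ext.none)

def k0_pm_303 : ∃ t, chk3 f_pm_303 t 1 2 1 = true :=
  ⟨(a (l 3) (l 3)), by decide +kernel⟩

def k1_pm_303 : ∃ t, chk3 f_pm_303 t 2 6 1 = true :=
  ⟨(b (l 3) (a (a (b (l 3) (a (b (l 3) (c (a (c (l 313694575271) (a (l 14049016) (l 14115192))) (c (l 14273896) (l 14121560))) (a (c (a (l 13982992) (l 14082872)) (a (c (l 13972240) (a (l 308862346983) (l 13963760))) (c (a (l 14029552) (l 14075376)) (l 14027088)))) (c (a (c (l 14179464) (l 14095648)) (l 305104884215)) (l 14157120))))) (c (a (b (l 3) (c (l 14276624) (c (a (l 14393896) (l 14462480)) (l 303494569543)))) (c (a (c (l 14600288) (l 314769189527)) (c (a (l 14628696) (l 14632208)) (l 14587768))) (l 14541960))) (l 309936998919)))) (b (l 3) (b (a (a (c (l 318527576727) (l 14634408))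 (c (l 15038672) (l 14977544))) (c (l 313160871879) (l 301349142391))) (a (a (a (c (l 14718288) (l 14645864)) (b (l 14597072) (l 15075152))) (b (c (l 15162120) (l 15105368)) (l 15264488))) (a (a (c (l 15656776) (l 15386712)) (l 15528152)) (l 15917064)))))) (a (b (a (l 332488439495) (l 323899231639)) (a (b (l 15669440) (a (l 16083216) (l 16241848))) (b (l 16215968) (l 16439968)))) (a (b (l 315310410839) (b (l 16572488) (l 16669288))) (a (b (l 307257540695) (l 16765296)) (l 283098742791)))))), by decide +kernel⟩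

def k2_pm_303 : ∃ t, chk3 f_pm_303 t 2 7 1 = true :=
  ⟨(a (a (a (b (b (a (c (a (b (l 14114536) (l 14366808)) (c (b (l 14283184) (l 14453856)) (b (l 14224288) (l 14400872)))) (a (b (c (l 14126616) (l 13963488)) (c (l 14325648) (a (l 14282336) (l 14300824)))) (b (l 14063184) (l 14346264)))) (c (a (b (c (l 14290232) (l 14264736)) (l 14438352)) (l 14236296)) (c (l 14122096) (l 14244712)))) (b (a (c (a (l 14520352) (c (l 14525184) (l 14371104))) (b (a (b (a (l 14404016) (l 14435312)) (l 14456448)) (l 14471872)) (l 14547464))) (c (b (l 14368624) (l 14674160)) (l 14610248))) (a (c (l 14727456) (l 14468992)) (l 14777440)))) (a (c (a (l 15133520) (b (l 15013216) (l 15346592))) (b (c (l 14868168) (l 14889136)) (c (l 64991449463) (l 15111904)))) (c (b (l 15049592) (l 15376728)) (l 15198472)))) (b (a (c (b (c (l 14548032) (l 14499768)) (l 14805040)) (b (l 14455272) (l 14761872))) (c (b (c (a (l 14496112) (a (l 14703912) (l 14732840))) (l 14627736)) (c (l 14992576) (l 14968520))) (b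 (l 14418784) (l 14909816)))) (c (b (l 15220624) (l 15516984)) (l 15339480)))) (b (a (b (a (a (c (l 14750432) (l 14739888)) (c (l 15099312) (l 15101024))) (b (b (c (l 15802080) (l 15704880)) (l 15706800)) (a (l 15494680) (l 15781416)))) (a (c (l 15253592) (l 15188840)) (l 15588192))) (a (a (b (c (b (l 16292192) (l 16074096)) (b (l 16275152) (l 16054728))) (l 15924688)) (b (b (l 16448872) (l 16147456)) (l 16043984))) (b (b (l 16532016) (l 16289784)) (l 16146160)))) (a (b (l 15586208) (l 15763384)) (l 16049976)))) (a (b (b (a (b (l 16574008) (l 16558752)) (b (l 16751568) (l 16746664))) (a (b (l 16489632) (l 16347680)) (l 16636264))) (b (l 16230928) (l 1))) (b (a (b (b (l 16765048) (l 16777016)) (l 1)) (l 16798088)) (l 1)))), by decide +kernel⟩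

def k3_pm_303 : ∃ t, chk3 f_pm_303 t 3 3 1 = true :=
  ⟨(b (b (a (a (l 3) (c (l 339470188551) (l 330343383047))) (a (b (l 3) (l 1)) (l 1))) (a (c (a (l 16777216) (l 16777216)) (a (l 16777216) (l 16777216))) (l 1))) (l 1)), by decide +kernel⟩

theorem s4_pm_303 : ∃ t, chk3 f_pm_303 t 2 3 1 = true := ex3_b k1_pm_303 k2_pm_303

theorem s5_pm_303 : ∃ t, chk3 f_pm_303 t 1 3 1 = true := ex3_a s4_pm_303 k3_pm_303

theorem s6_pm_303 : ∃ t, chk3 f_pm_303 t 1 1 1 = true := ex3_b k0_pm_303 s5_pm_303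

theorem c_pm_303 : CertNX 1610612736 469762048 0 1230186008 1046898278 26843546 3 false true false .npn 3 0 3
    ndN2q3 ndN7q3 pcN0 Cut.none Ext.none :=
  certNX2 (fam := false) (s1 := true) (s2 := false) (a := 3) (b := 0) (c := 3) (cn := .npn) (n1 := ndN2q3) (n2 := ndN7q3) (pc := pcN0) (cut := Cut.none) (xt := Ext.none) (P1 := 1610612736) (W1 := 469762048) (P2 := 0) (W2 := 1230186008) (P3 := 1046898278) (W3 := 26843546) (N0 := 3)
    rfl (fun _ => rfl) s6_pm_303

noncomputable def f_pm_313 : ℕ → ℕ → ℕ → ℕ → Bool := onCell 1610612736 469762048 0 1230186008 1046898278 26843546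
    (rowNX 3 0 false true false .dn 3 1 3 (qsf 1610612736 469762048 0 1230186008 1) ndN2q3 ndN7q3 pcN1 Cut.none Ext.none)

def k0_pm_313 : ∃ t, chk3 f_pm_313 t 1 1 1 = true :=
  ⟨(b (l 3) (l 1)), by decide +kernel⟩

theorem c_pm_313 : CertNX 1610612736 469762048 0 1230186008 1046898278 26843546 3 false true false .dn 3 1 3
    ndN2q3 ndN7q3 pcN1 Cut.none Ext.none :=
  certNX0 (fam := false) (s1 := true) (s2 := false) (a := 3) (b := 1) (c := 3) (cn := .dn) (n1 := ndN2q3) (n2 := ndN7q3) (pc := pcN1) (cut := Cut.none) (xt := Ext.none) (P1 := 1610612736) (W1 := 469762048) (P2 := 0) (W2 := 1230186008) (P3 := 1046898278) (W3 := 26843546) (N0 := 3)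
    rfl k0_pm_313

noncomputable def f_mm_001 : ℕ → ℕ → ℕ → ℕ → Bool := onCell 67108864 469762048 536870912 536870912 1046898278 26843546
    (rowNX 3 0 false false false .up 0 0 1 (qsf 67108864 469762048 536870912 536870912 0) ndN2q0 ndN7q1 pcN0 Cut.none Ext.none)

def k0_mm_001 : ∃ t, chk3 f_mm_001 t 1 1 1 = true :=
  ⟨(l 3), by decide +kernel⟩

theorem c_mm_001 : CertNX 67108864 469762048 536870912 536870912 1046898278 26843546 3 false false false .up 0 0 1
    ndN2q0 ndN7q1 pcN0 Cut.none Ext.none :=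
  certNX0 (fam := false) (s1 := false) (s2 := false) (a := 0) (b := 0) (c := 1) (cn := .up) (n1 := ndN2q0) (n2 := ndN7q1) (pc := pcN0) (cut := Cut.none) (xt := Ext.none) (P1 := 67108864) (W1 := 469762048) (P2 := 536870912) (W2 := 536870912) (P3 := 1046898278) (W3 := 26843546) (N0 := 3)
    rfl k0_mm_001

noncomputable def f_mm_011 : ℕ → ℕ → ℕ → ℕ → Bool := onCell 67108864 469762048 536870912 536870912 1046898278 26843546
    (rowNX 3 0 false false false .pnn 0 1 1 (qsf 67108864 469762048 536870912 536870912 1) ndN2q0 ndN7q1 pcN1 Cut.none Ext.none)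

def k0_mm_011 : ∃ t, chk3 f_mm_011 t 1 1 1 = true :=
  ⟨(l 3), by decide +kernel⟩

theorem c_mm_011 : CertNX 67108864 469762048 536870912 536870912 1046898278 26843546 3 false false false .pnn 0 1 1
    ndN2q0 ndN7q1 pcN1 Cut.none Ext.none :=
  certNX0 (fam := false) (s1 := false) (s2 := false) (a := 0) (b := 1) (c := 1) (cn := .pnn) (n1 := ndN2q0) (n2 := ndN7q1) (pc := pcN1) (cut := Cut.none) (xt := Ext.none) (P1 := 67108864) (W1 := 469762048) (P2 := 536870912) (W2 := 536870912) (P3 := 1046898278) (W3 := 26843546) (N0 := 3)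
    rfl k0_mm_011

noncomputable def f_mm_012 : ℕ → ℕ → ℕ → ℕ → Bool := onCell 67108864 469762048 1073741824 536870912 1046898278 26843546
    (rowNX 3 0 false false false .pnp 0 1 2 (qsf 67108864 469762048 1073741824 536870912 1) ndN2q0 ndN7q2 pcN1 Cut.none Ext.none)

def k0_mm_012 : ∃ t, chk3 f_mm_012 t 1 1 1 = true :=
  ⟨(l 5), by decide +kernel⟩

theorem c_mm_012 : CertNX 67108864 469762048 1073741824 536870912 1046898278 26843546 3 false false false .pnp 0 1 2
    ndN2q0 ndN7q2 pcN1 Cut.none Ext.none :=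
  certNX0 (fam := false) (s1 := false) (s2 := false) (a := 0) (b := 1) (c := 2) (cn := .pnp) (n1 := ndN2q0) (n2 := ndN7q2) (pc := pcN1) (cut := Cut.none) (xt := Ext.none) (P1 := 67108864) (W1 := 469762048) (P2 := 1073741824) (W2 := 536870912) (P3 := 1046898278) (W3 := 26843546) (N0 := 3)
    rfl k0_mm_012

noncomputable def f_mm_022 : ℕ → ℕ → ℕ → ℕ → Bool := onCell 67108864 469762048 1073741824 536870912 1046898278 26843546
    (rowNX 3 0 false false false .pp 0 2 2 (qsf 67108864 469762048 1073741824 536870912 2) ndN2q0 ndN7q2 pcN2 Cut.none Ext.none)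

def k0_mm_022 : ∃ t, chk3 f_mm_022 t 1 1 1 = true :=
  ⟨(l 5), by decide +kernel⟩

theorem c_mm_022 : CertNX 67108864 469762048 1073741824 536870912 1046898278 26843546 3 false false false .pp 0 2 2
    ndN2q0 ndN7q2 pcN2 Cut.none Ext.none :=
  certNX0 (fam := false) (s1 := false) (s2 := false) (a := 0) (b := 2) (c := 2) (cn := .pp) (n1 := ndN2q0) (n2 := ndN7q2) (pc := pcN2) (cut := Cut.none) (xt := Ext.none) (P1 := 67108864) (W1 := 469762048) (P2 := 1073741824) (W2 := 536870912) (P3 := 1046898278) (W3 := 26843546) (N0 := 3)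
    rfl k0_mm_022

noncomputable def f_mm_023 : ℕ → ℕ → ℕ → ℕ → Bool := onCell 67108864 469762048 0 1230186008 1046898278 26843546
    (rowNX 3 0 false false false .up 0 2 3 (qsf 67108864 469762048 0 1230186008 2) ndN2q0 ndN7q3 pcN2 Cut.none Ext.none)

def k0_mm_023 : ∃ t, chk3 f_mm_023 t 1 1 1 = true :=
  ⟨(l 5), by decide +kernel⟩

theorem c_mm_023 : CertNX 67108864 469762048 0 1230186008 1046898278 26843546 3 false false false .up 0 2 3
    ndN2q0 ndN7q3 pcN2 Cut.none Ext.none :=
  certNX0 (fam := false) (s1 := false) (s2 := false) (a := 0) (b := 2) (c := 3) (cn := .up) (n1 := ndN2q0) (n2 := ndN7q3) (pc := pcN2) (cut := Cut.none) (xt := Ext.none) (P1 := 67108864) (W1 := 469762048) (P2 := 0) (W2 := 1230186008) (P3 := 1046898278) (W3 := 26843546) (N0 := 3)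
    rfl k0_mm_023

noncomputable def f_mm_033 : ℕ → ℕ → ℕ → ℕ → Bool := onCell 67108864 469762048 0 1230186008 1046898278 26843546
    (rowNX 3 0 false false false .pnn 0 3 3 (qsf 67108864 469762048 0 1230186008 3) ndN2q0 ndN7q3 pcN3 Cut.none Ext.none)

def k0_mm_033 : ∃ t, chk3 f_mm_033 t 1 1 1 = true :=
  ⟨(l 5), by decide +kernel⟩

theorem c_mm_033 : CertNX 67108864 469762048 0 1230186008 1046898278 26843546 3 false false false .pnn 0 3 3
    ndN2q0 ndN7q3 pcN3 Cut.none Ext.none :=
  certNX0 (fam := false) (s1 := false) (s2 := false) (a := 0) (b := 3) (c := 3) (cn := .pnn) (n1 := ndN2q0) (n2 := ndN7q3) (pc := pcN3) (cut := Cut.none) (xt := Ext.none) (P1 := 67108864) (W1 := 469762048) (P2 := 0) (W2 := 1230186008) (P3 := 1046898278) (W3 := 26843546) (N0 := 3)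
    rfl k0_mm_033

noncomputable def f_mm_101 : ℕ → ℕ → ℕ → ℕ → Bool := onCell 536870912 536870912 536870912 536870912 1046898278 26843546
    (rowNX 3 0 false false false .npn 1 0 1 (qsf 536870912 536870912 536870912 536870912 0) ndN2q1 ndN7q1 pcN0 Cut.none Ext.none)

def k0_mm_101 : ∃ t, chk3 f_mm_101 t 1 1 1 = true :=
  ⟨(l 3), by decide +kernel⟩

theorem c_mm_101 : CertNX 536870912 536870912 536870912 536870912 1046898278 26843546 3 false false false .npn 1 0 1
    ndN2q1 ndN7q1 pcN0 Cut.none Ext.none :=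
  certNX0 (fam := false) (s1 := false) (s2 := false) (a := 1) (b := 0) (c := 1) (cn := .npn) (n1 := ndN2q1) (n2 := ndN7q1) (pc := pcN0) (cut := Cut.none) (xt := Ext.none) (P1 := 536870912) (W1 := 536870912) (P2 := 536870912) (W2 := 536870912) (P3 := 1046898278) (W3 := 26843546) (N0 := 3)
    rfl k0_mm_101

noncomputable def f_mm_102 : ℕ → ℕ → ℕ → ℕ → Bool := onCell 536870912 536870912 1073741824 536870912 1046898278 26843546
    (rowNX 3 0 false false false .npp 1 0 2 (qsf 536870912 536870912 1073741824 536870912 0) ndN2q1 ndN7q2 pcN0 Cut.none Ext.none)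

def k0_mm_102 : ∃ t, chk3 f_mm_102 t 1 1 1 = true :=
  ⟨(l 3), by decide +kernel⟩

theorem c_mm_102 : CertNX 536870912 536870912 1073741824 536870912 1046898278 26843546 3 false false false .npp 1 0 2
    ndN2q1 ndN7q2 pcN0 Cut.none Ext.none :=
  certNX0 (fam := false) (s1 := false) (s2 := false) (a := 1) (b := 0) (c := 2) (cn := .npp) (n1 := ndN2q1) (n2 := ndN7q2) (pc := pcN0) (cut := Cut.none) (xt := Ext.none) (P1 := 536870912) (W1 := 536870912) (P2 := 1073741824) (W2 := 536870912) (P3 := 1046898278) (W3 := 26843546) (N0 := 3)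
    rfl k0_mm_102

noncomputable def f_mm_112 : ℕ → ℕ → ℕ → ℕ → Bool := onCell 536870912 536870912 1073741824 536870912 1046898278 26843546
    (rowNX 3 0 false false false .dn 1 1 2 (qsf 536870912 536870912 1073741824 536870912 1) ndN2q1 ndN7q2 pcN1 Cut.none Ext.none)

def k0_mm_112 : ∃ t, chk3 f_mm_112 t 1 1 1 = true :=
  ⟨(l 3), by decide +kernel⟩

theorem c_mm_112 : CertNX 536870912 536870912 1073741824 536870912 1046898278 26843546 3 false false false .dn 1 1 2
    ndN2q1 ndN7q2 pcN1 Cut.none Ext.none :=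
  certNX0 (fam := false) (s1 := false) (s2 := false) (a := 1) (b := 1) (c := 2) (cn := .dn) (n1 := ndN2q1) (n2 := ndN7q2) (pc := pcN1) (cut := Cut.none) (xt := Ext.none) (P1 := 536870912) (W1 := 536870912) (P2 := 1073741824) (W2 := 536870912) (P3 := 1046898278) (W3 := 26843546) (N0 := 3)
    rfl k0_mm_112

noncomputable def f_mm_113 : ℕ → ℕ → ℕ → ℕ → Bool := onCell 536870912 536870912 0 1230186008 1046898278 26843546
    (rowNX 3 0 false false false .nn 1 1 3 (qsf 536870912 536870912 0 1230186008 1) ndN2q1 ndN7q3 pcN1 Cut.none Ext.none)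

def k0_mm_113 : ∃ t, chk3 f_mm_113 t 1 1 1 = true :=
  ⟨(l 5), by decide +kernel⟩

theorem c_mm_113 : CertNX 536870912 536870912 0 1230186008 1046898278 26843546 3 false false false .nn 1 1 3
    ndN2q1 ndN7q3 pcN1 Cut.none Ext.none :=
  certNX0 (fam := false) (s1 := false) (s2 := false) (a := 1) (b := 1) (c := 3) (cn := .nn) (n1 := ndN2q1) (n2 := ndN7q3) (pc := pcN1) (cut := Cut.none) (xt := Ext.none) (P1 := 536870912) (W1 := 536870912) (P2 := 0) (W2 := 1230186008) (P3 := 1046898278) (W3 := 26843546) (N0 := 3)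
    rfl k0_mm_113

noncomputable def f_mm_123 : ℕ → ℕ → ℕ → ℕ → Bool := onCell 536870912 536870912 0 1230186008 1046898278 26843546
    (rowNX 3 0 false false false .npn 1 2 3 (qsf 536870912 536870912 0 1230186008 2) ndN2q1 ndN7q3 pcN2 Cut.none Ext.none)

def k0_mm_123 : ∃ t, chk3 f_mm_123 t 1 1 1 = true :=
  ⟨(l 5), by decide +kernel⟩

theorem c_mm_123 : CertNX 536870912 536870912 0 1230186008 1046898278 26843546 3 false false false .npn 1 2 3
    ndN2q1 ndN7q3 pcN2 Cut.none Ext.none :=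
  certNX0 (fam := false) (s1 := false) (s2 := false) (a := 1) (b := 2) (c := 3) (cn := .npn) (n1 := ndN2q1) (n2 := ndN7q3) (pc := pcN2) (cut := Cut.none) (xt := Ext.none) (P1 := 536870912) (W1 := 536870912) (P2 := 0) (W2 := 1230186008) (P3 := 1046898278) (W3 := 26843546) (N0 := 3)
    rfl k0_mm_123

noncomputable def f_mm_133 : ℕ → ℕ → ℕ → ℕ → Bool := onCell 536870912 536870912 0 1230186008 1046898278 26843546
    (rowNX 3 0 false false false .dn 1 3 3 (qsf 536870912 536870912 0 1230186008 3) ndN2q1 ndN7q3 pcN3 Cut.none Ext.none)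

def k0_mm_133 : ∃ t, chk3 f_mm_133 t 1 1 1 = true :=
  ⟨(l 5), by decide +kernel⟩

theorem c_mm_133 : CertNX 536870912 536870912 0 1230186008 1046898278 26843546 3 false false false .dn 1 3 3
    ndN2q1 ndN7q3 pcN3 Cut.none Ext.none :=
  certNX0 (fam := false) (s1 := false) (s2 := false) (a := 1) (b := 3) (c := 3) (cn := .dn) (n1 := ndN2q1) (n2 := ndN7q3) (pc := pcN3) (cut := Cut.none) (xt := Ext.none) (P1 := 536870912) (W1 := 536870912) (P2 := 0) (W2 := 1230186008) (P3 := 1046898278) (W3 := 26843546) (N0 := 3)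
    rfl k0_mm_133

end Pool.Agent.Strip051.G.IE1.Tab.C.NB27

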