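import Pool.Agent.Strip051.G.IE1.Tab

/-! # Certificates N69 (generated) -/

set_option linter.all false
set_option maxRecDepth 100000

namespace Pool.Agent.Strip051.G.IE1.Tab.C.NB27

open Pool.Agent.Strip051.PB Pool.Agent.Strip051.PB.T
open Pool.Agent.Strip051.G.IE1.Tab

noncomputable def f_mm_202_a : ℕ → ℕ → ℕ → ℕ → Bool := onCell 0 420477299 0 536870912 1046898278 26843546
    (rowNX 3 1 false false false .pp 2 0 2 (qsf 0 420477299 1073741824 536870912 0) ndN2q2a ndN7q2 pcN0 Cut.none Ext.none)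

def k0_mm_202_a : ∃ t, chk3 f_mm_202_a t 2 32 1 = true :=
  ⟨(c (b (a (c (l 16086144) (b (l 16039152) (a (l 16088696) (l 16077320)))) (b (l 15931120) (a (l 15939040) (c (l 15948672) (l 15981672))))) (a (c (b (a (l 16181904) (l 16084232)) (l 16233880)) (b (a (l 16184368) (l 16107384)) (a (l 16272216) (l 16241208)))) (c (b (a (l 16101304) (c (l 15956072) (a (l 16064040) (b (l 16020512) (l 16054024))))) (a (c (a (l 16182296) (l 16126208)) (l 16184640)) (c (b (l 16084616) (l 16153280)) (l 16098424)))) (b (a (l 16102928) (b (l 16029912) (c (l 15948744) (l 16084744)))) (a (l 16196824) (c (a (l 16167544) (l 16136712)) (b (l 16135600) (l 16178376)))))))) (b (a (c (b (a (l 16038112) (l 16004464)) (a (b (l 16081856) (l 16100984)) (b (l 16048544) (l 16065192)))) (b (b (c (l 15980776) (a (c (l 15999472) (l 15994976)) (l 15815032))) (c (a (l 16038552) (l 16004896)) (l 15861992))) (c (l 15928080) (l 16062064)))) (c (b (a (l 15956296) (l 15905920)) (a (b (l 16000328) (l 16038288)) (b (l 15950208) (l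 15988760)))) (b (c (a (l 15898152) (l 15804608)) (a (b (l 15848904) (l 15949640)) (b (l 15733376) (l 15897552)))) (c (a (l 16015352) (l 15964848)) (l 15973160))))) (a (c (b (c (l 16172640) (l 16122152)) (l 16232160)) (l 16108208)) (c (a (b (l 16084120) (l 16175560)) (b (l 16035992) (l 16128416))) (a (l 16110824) (l 16061016)))))), by decide +kernel⟩

def k1_mm_202_a : ∃ t, chk3 f_mm_202_a t 2 33 1 = true :=
  ⟨(c (a (a (b (c (l 16191760) (l 16344440)) (l 16096704)) (b (c (b (l 16311880) (l 16160488)) (l 16325560)) (c (l 16332800) (l 16374456)))) (b (c (b (a (c (l 16273192) (l 16291928)) (c (l 16220920) (l 16226256))) (a (c (l 16348960) (l 16350320)) (l 16285080))) (a (b (l 16276824) (l 16326784)) (b (c (l 16208008) (l 16218464)) (l 16266304)))) (a (c (l 16384808) (l 16361144)) (c (l 16222088) (c (l 16339896) (b (l 16313376) (l 16350008))))))) (c (a (a (l 16341248) (l 16300600)) (b (a (l 16256688) (c (l 16226160) (l 16211480))) (a (l 16344728) (c (b (a (l 16314064) (l 16252880)) (c (l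 16286440) (l 16351216))) (l 16325048))))) (a (l 16313912) (a (l 16287440) (b (l 16198160) (l 16324528)))))), by decide +kernel⟩

def k2_mm_202_a : ∃ t, chk3 f_mm_202_a t 2 17 2 = true :=
  ⟨(b (c (a (a (l 16270568) (b (l 16325512) (c (l 16288928) (l 16293072)))) (b (a (l 16367096) (a (l 16408440) (l 16413824))) (c (a (l 16331488) (l 16388880)) (a (a (l 16334024) (l 16353280)) (b (l 16404088) (c (l 16395432) (l 16383752))))))) (a (b (a (l 16316288) (l 16351440)) (a (l 16285288) (c (b (l 16294408) (l 16286696)) (l 16294312)))) (a (c (b (l 16374920) (a (b (l 16340344) (l 16313928)) (l 16345800))) (b (b (l 16386992) (l 16369264)) (l 16313872))) (b (a (c (l 16400328) (b (l 16395472) (l 16391512))) (b (l 16385680) (b (c (l 16406352) (l 16228152)) (c (l 16419176) (l 16405544))))) (c (b (c (b (l 16408680) (l 16391728)) (b (l 16390048) (l 16373480))) (a (l 16263464) (l 16368928))) (l 16367816)))))) (c (a (a (b (c (l 16159120) (b (l 16221312) (l 16164528))) (b (c (l 16146848) (l 16204960)) (l 16082288)))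 (b (b (c (l 16277432) (l 16273680)) (l 16254496)) (c (a (l 16127536) (b (b (l 16257872) (l 16176080)) (c (l 16093984) (l 16212272)))) (l 16207048)))) (b (c (a (b (l 16325880) (c (l 16316904) (l 16302040))) (b (l 16378040) (l 16353728))) (a (c (b (l 16316904) (l 16282184)) (b (a (l 16295120) (l 16308760)) (l 16274672))) (b (c (l 16364872) (l 16339560)) (l 16312936)))) (c (b (a (c (l 16286504) (l 16263792)) (c (l 16326480) (l 16273328))) (a (c (l 16198536) (l 16230792)) (a (l 16236712) (a (l 16271416) (b (l 16289472) (l 16164544)))))) (a (l 16244088) (l 16258624))))) (a (b (a (l 16137088) (l 16275840)) (a (l 16199456) (l 16202792))) (a (b (l 16277904) (l 16240368)) (b (l 16333616) (l 16254984)))))), by decide +kernel⟩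

def k3_mm_202_a : ∃ t, chk3 f_mm_202_a t 2 17 3 = true :=
  ⟨(b (a (a (l 16248760) (b (l 16344440) (l 16280720))) (a (b (c (l 16377432) (l 16368968)) (a (l 16328648) (l 16331672))) (b (b (a (l 16388144) (l 16387944)) (l 16383096)) (l 16364328)))) (a (a (b (l 16143624) (l 16147280)) (b (l 16261168) (l 16194112))) (a (b (l 16229144) (l 16232720)) (b (l 16328104) (l 16247480))))), by decide +kernel⟩

def k4_mm_202_a : ∃ t, chk3 f_mm_202_a t 6 32 1 = true :=
  ⟨(c (b (a (b (l 15731432) (b (c (l 15934232) (l 15921696)) (c (l 15953920) (c (l 15934920) (c (l 15921736) (l 15917648)))))) (b (a (l 15726872) (c (l 15788176) (b (l 15764016) (l 15773864)))) (c (l 15858888) (c (l 15795072) (c (a (l 15746768) (l 15784976)) (b (l 15807496) (a (l 15859984) (l 15813984)))))))) (c (b (a (b (l 15914256) (c (l 16020296) (l 15985432))) (a (l 15910888) (l 15832512))) (a (l 15976064) (a (l 16031400) (l 15992656)))) (c (a (b (b (a (l 15940864) (l 15944496)) (l 16009152)) (l 16056088)) (b (b (l 15893112) (l 15937416))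 (l 15992080))) (b (a (a (l 15907080) (l 15953312)) (a (l 15925280) (l 15888984))) (a (b (l 15961248) (l 16097384)) (a (l 16006632) (l 15953096))))))) (b (c (b (a (l 15836176) (l 15730200)) (a (c (l 15902768) (l 15880528)) (c (b (a (l 15818120) (c (l 15775536) (b (l 15757648) (l 15776728)))) (a (c (l 15860680) (l 15863392)) (c (l 15813816) (l 15818800)))) (b (l 15791592) (b (l 15832304) (l 15755824)))))) (b (c (a (b (l 15798744) (l 15833032)) (b (l 15711528) (l 15744368))) (a (b (c (l 15788960) (l 15783000)) (l 15825560)) (b (c (l 15700752) (l 15547360)) (l 15735848)))) (c (a (l 15895080) (l 15808096)) (l 15747752)))) (a (c (b (c (b (l 15976136) (l 16005568)) (l 15987496)) (l 16019056)) (l 15871960)) (c (b (c (b (a (l 15880240) (l 15865200)) (c (l 15930968) (l 15929192))) (b (l 15866848) (l 15916320))) (c (l 15971720) (l 15918344))) (a (l 15767040) (b (l 15852488) (b (l 15900432) (l 15937208)))))))), by decide +kernel⟩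

def k5_mm_202_a : ∃ t, chk3 f_mm_202_a t 6 33 1 = true :=
  ⟨(a (c (b (c (b (l 16128744) (l 16095424)) (b (c (l 16140136) (l 16130728)) (l 16184016))) (c (b (l 16218688) (l 16303336)) (b (l 16225280) (c (l 16291600) (a (l 16301840) (c (l 16256008) (b (l 16240648) (l 16268648)))))))) (b (c (c (l 15965328) (b (l 16102848) (c (l 16040800) (l 16166928)))) (l 16030592)) (a (c (c (b (c (l 16250544) (l 16203512)) (l 16303392)) (l 16267864)) (l 16265360)) (c (c (b (l 16204784) (c (b (c (l 16244976) (l 16250992)) (l 16279096)) (l 16266088))) (l 16243576)) (l 16239664))))) (c (c (b (b (a (l 16087504) (l 16035024)) (a (l 16125336) (l 15958400))) (b (a (l 16182288) (l 16136616)) (a (l 16235544) (l 16192704)))) (b (b (c (l 16036168) (l 16026800)) (a (l 16105832) (l 16063720))) (c (b (l 16081240) (a (l 16220272) (l 16173368))) (b (l 16110976) (c (l 16175136) (a (l 16164520) (l 16155320))))))) (c (b (c (a (l 16031472) (c (l 16024784) (b (l 15989952) (b (l 16031464) (l 16058784))))) (b (c (l 16012216)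 (b (l 15997968) (l 16022880))) (c (a (l 16071552) (b (c (l 16031520) (l 16036168)) (l 16066144))) (l 16054200)))) (c (b (c (b (l 16090000) (a (l 16166784) (l 16114144))) (c (b (l 16113536) (l 16065560)) (a (l 16077928) (l 16112320)))) (b (c (a (l 16176736) (l 16147568)) (l 16181440)) (l 16147688))) (l 16118256))) (b (a (l 16059096) (b (l 15978080) (l 16045664))) (l 16133800))))), by decide +kernel⟩

def k6_mm_202_a : ∃ t, chk3 f_mm_202_a t 7 64 2 = true :=
  ⟨(a (a (c (a (l 15800008) (l 15845568)) (c (b (l 15778520) (l 15818320)) (b (a (l 15755712) (l 15814800)) (b (l 15788088) (a (l 15790896) (l 15829408)))))) (c (c (a (l 15932816) (b (c (l 16042248) (l 16010256)) (l 16035880))) (l 15965336)) (b (l 15941720) (b (l 15954352) (c (l 15976064) (l 15963768)))))) (c (a (a (c (b (c (l 16087704) (l 16106216)) (c (l 16127256) (l 16129728))) (l 16104688)) (c (c (b (l 16265016) (l 16203640)) (b (a (l 16235896) (l 16321640)) (l 16119528))) (b (c (l 16137720) (l 16194592)) (l 16226808)))) (c (a (b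 (c (l 16428912) (l 16297288)) (c (a (l 16402184) (l 16500568)) (a (l 16351600) (c (l 16494504) (l 16445536))))) (b (l 16511392) (c (l 16558664) (a (l 16484144) (l 16600440))))) (a (b (c (a (l 16282968) (l 16403016)) (a (l 16283632) (l 16317320))) (c (b (l 16285216) (l 16243728)) (l 16293848))) (b (c (a (l 16473128) (l 16564496)) (c (l 16380488) (b (l 16381368) (l 16385656)))) (c (b (l 16396144) (a (l 16460200) (l 16551240))) (a (l 16334672) (l 16401344))))))) (b (a (l 16135304) (a (l 16295256) (c (c (a (l 16395144) (c (b (l 16492088) (l 16477904)) (l 16437432))) (l 16413504)) (l 16409480)))) (b (a (l 16150744) (a (l 16315904) (c (l 16357496) (l 16434224)))) (a (c (l 16174224) (l 16165272)) (c (l 16312536) (l 16305808))))))), by decide +kernel⟩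

def k7_mm_202_a : ∃ t, chk3 f_mm_202_a t 7 65 2 = true :=
  ⟨(a (c (a (b (a (l 15887456) (b (l 15887568) (l 15921200))) (a (l 15958608) (l 15959000))) (a (b (l 15973280) (l 15954080)) (b (l 16061568) (l 16065056)))) (b (a (c (a (l 15867592) (l 15885088)) (a (l 15853784) (l 15868432))) (b (c (l 15994712) (l 15979008)) (l 15990056))) (a (a (l 15897896) (l 15917184)) (b (a (l 15946032) (l 16028776)) (a (l 15957320) (l 16028664)))))) (c (a (c (b (a (c (l 16111560) (l 16158864)) (c (b (l 16278144) (l 16239368)) (b (l 16245424) (l 16261488)))) (a (l 16099320) (b (c (l 16138624) (l 16254728)) (l 16177264)))) (b (b (l 16198888) (l 16199320)) (l 16196496))) (c (c (b (a (a (l 16372680) (l 16387152)) (b (l 16592112) (l 16559352))) (a (a (l 16324256) (l 16394560)) (a (l 16436904) (b (l 16581112) (l 16546432))))) (b (a (b (a (l 16372056) (l 16463032)) (a (l 16334488) (l 16396400))) (b (a (l 16530968) (l 16585912)) (l 16424552))) (a (a (l 16335544) (l 16302512)) (a (l 16388688) (l 16461560))))) (b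 (a (b (c (l 16215464) (l 16347888)) (l 16249920)) (b (c (c (l 16482712) (l 16401832)) (a (l 16434888) (c (l 16503896) (l 16493128)))) (c (b (l 16364992) (l 16353752)) (l 16401328)))) (a (l 16346776) (c (a (l 16379592) (a (l 16411880) (l 16433040))) (l 16459864)))))) (b (a (b (c (l 16189152) (l 16172064)) (l 16177256)) (b (c (l 16273240) (l 16387304)) (l 16304696))) (a (b (l 16002680) (l 16173408)) (a (l 16332008) (c (l 16454712) (l 16405448))))))), by decide +kernel⟩

def k8_mm_202_a : ∃ t, chk3 f_mm_202_a t 14 33 2 = true :=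
  ⟨(a (c (b (b (a (l 15999328) (l 15999320)) (a (l 16047064) (l 16050576))) (a (l 16130176) (b (l 16107064) (l 16163136)))) (b (b (a (b (l 15953944) (l 15983560)) (l 15971736)) (a (l 16025104) (l 16028752))) (b (a (l 16078176) (l 16080272)) (a (c (l 16136480) (l 16097376)) (c (l 16139240) (c (l 16117088) (b (c (l 16096272) (b (l 16085768) (l 16102312))) (c (l 16122792) (l 16137120))))))))) (b (b (a (c (l 16018416) (l 15991888)) (c (l 16064568) (l 16041064))) (b (a (l 16046368) (l 15989856)) (c (l 16101320) (c (l 16086168) (l 16072224))))) (c (b (l 16143440) (l 16196776)) (b (c (l 16105776) (l 16103632)) (c (l 16171408) (c (l 16147328) (b (c (l 16125528) (b (l 16114736) (l 16131912))) (c (l 16111008) (l 16169136))))))))), by decide +kernel⟩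

def k9_mm_202_a : ∃ t, chk3 f_mm_202_a t 15 33 2 = true :=
  ⟨(c (a (a (b (b (l 16149616) (b (l 16155144) (l 16162520))) (b (l 16189928) (l 16239056))) (b (b (c (l 16174600) (l 16248048)) (l 16214824)) (b (l 16266760) (l 16286512)))) (b (c (b (a (c (a (l 16246760) (l 16325672)) (l 16277512)) (c (a (l 16401880) (l 16511040)) (a (c (l 16403632) (l 16446176)) (l 16419232)))) (a (c (a (l 16343560) (l 16346456)) (l 16367152)) (c (c (l 16402904) (a (l 16428240) (l 16473936))) (a (l 16454136) (a (l 16461664) (a (l 16467672) (l 298130499255))))))) (a (b (l 16353192) (l 16361752)) (b (b (l 16362240) (l 16470104)) (l 16477416)))) (a (b (l 16373584) (l 16377720)) (c (c (a (b (l 532206034583) (l 3)) (l 3)) (l 16490728)) (l 16483504))))) (b (a (b (a (l 16128904) (l 16213136)) (c (l 16195224) (b (l 16161104) (a (l 16133456) (l 16231536))))) (b (c (b (l 16296368) (l 16319784)) (l 16372968)) (a (l 16303960) (l 16357480)))) (c (a (b (a (l 16172872) (l 16249920)) (a (l 16211728) (l 16258512))) (b (l 16288872)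 (l 16301880))) (b (a (a (l 16148232) (l 16224264)) (l 16262864)) (a (c (a (l 16185176) (l 16230912)) (b (a (l 16163408) (c (l 16212112) (l 16169376))) (a (l 16200376) (l 516099426567)))) (b (l 569249826215) (l 3))))))), by decide +kernel⟩

def k10_mm_202_a : ∃ t, chk3 f_mm_202_a t 7 64 6 = true :=
  ⟨(a (b (a (c (b (l 15767888) (l 15705680)) (l 15749064)) (b (l 15928512) (c (l 15925352) (c (l 15915328) (c (l 15908408) (l 15904056)))))) (a (c (b (a (b (l 15739408) (c (l 15748600) (l 15745616))) (b (l 15794296) (l 15799160))) (a (l 15782960) (l 15818776))) (b (c (b (a (l 15727200) (l 15785560)) (l 15754088)) (a (l 15741968) (l 15795000))) (c (a (l 15785624) (l 15816472)) (a (b (l 15776792) (l 15798880)) (l 15778424))))) (c (b (b (l 15925696) (l 15936288)) (l 15951272)) (b (c (b (l 15895896) (l 15928968)) (b (l 15919808) (l 15933416))) (c (l 15946832) (l 15881736)))))) (b (a (b (l 16077672) (c (l 16119560) (c (l 16110656) (b (l 16104976) (a (l 16053464) (l 16159704)))))) (c (b (l 16342152)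 (l 16349304)) (b (l 16169848) (b (l 16333304) (c (l 16345480) (l 16297736)))))) (c (a (b (l 16072360) (l 16151848)) (b (b (l 16362208) (l 16309184)) (l 16291808))) (b (a (c (l 16126744) (l 16122808)) (c (l 16232224) (l 16308024))) (a (c (l 16141240) (l 16136384)) (c (l 16361448) (l 16290744))))))), by decide +kernel⟩

def k11_mm_202_a : ∃ t, chk3 f_mm_202_a t 7 65 6 = true :=
  ⟨(a (a (b (c (a (l 15843736) (b (l 15842008) (l 15859008))) (a (l 15831680) (b (l 15835240) (l 15848880)))) (c (l 15896272) (a (l 15889528) (l 15886400)))) (b (c (b (l 15962736) (l 15960640)) (b (l 15805256) (l 15950920))) (c (a (l 15937872) (l 16011728)) (c (l 15924640) (b (l 15957096) (c (l 15963080) (a (l 15926032) (l 15996584)))))))) (b (a (b (c (l 16151144) (l 16137216)) (c (l 16133120) (l 16144840))) (c (b (l 16309184) (a (l 16311688) (l 16430456))) (b (l 16235128) (l 16234064)))) (c (a (l 16089624) (a (l 16318280) (l 16396840))) (b (a (l 16142408) (l 16343992)) (a (c (l 16149400) (l 16058024)) (c (l 16308128)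 (c (l 16359656) (b (c (l 16355456) (l 16229464)) (c (l 16230600) (l 16364760)))))))))), by decide +kernel⟩

def k12_mm_202_a : ∃ t, chk3 f_mm_202_a t 7 64 7 = true :=
  ⟨(a (b (c (a (b (l 15729752) (a (l 15708952) (l 15771048))) (b (l 15894496) (l 15903680))) (a (b (c (l 15718760) (l 15586224)) (l 15731512)) (b (c (l 15884360) (l 15878248)) (l 15896240)))) (c (b (a (l 15766712) (c (b (l 15927824) (l 15937424)) (l 15922968))) (a (l 15708568) (l 15933672))) (a (l 15760928) (l 15915048)))) (b (c (b (a (l 16093976) (c (b (l 16331904) (l 16269616)) (l 16319608))) (a (c (b (c (l 16098384) (l 16094944)) (c (l 16106256) (l 16114904))) (b (l 16096592) (l 16092600))) (c (b (c (l 16284784) (a (l 16264160) (l 16364856))) (a (l 16275464) (l 16401720))) (b (a (l 16264896) (c (l 16302808) (l 16388704))) (c (l 16278104) (l 16279344)))))) (c (b (a (l 16084912) (l 16231688)) (b (l 16024992) (l 15991448))) (b (a (l 15974680) (b (l 16223824) (l 16315160))) (l 16082816)))) (c (a (b (c (b (l 16081352) (l 16128928))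 (l 16122168)) (l 16087232)) (b (c (b (l 16325664) (l 16308832)) (l 16199624)) (c (l 16328792) (l 16285240)))) (a (b (l 16110216) (l 16038984)) (a (b (l 16277616) (l 16202688)) (c (b (c (l 16405680) (l 16361840)) (l 16321416)) (l 16402480))))))), by decide +kernel⟩

def k13_mm_202_a : ∃ t, chk3 f_mm_202_a t 7 65 7 = true :=
  ⟨(a (b (a (a (l 15728288) (c (l 15828216) (l 15818808))) (c (c (l 15946120) (b (l 15938608) (l 15941656))) (l 15935448))) (a (c (c (a (l 15800384) (l 15839144)) (l 15878000)) (l 15875360)) (c (c (b (a (l 15909824) (l 15993688)) (c (b (a (l 15920232) (l 15997424)) (l 15969328)) (l 15966968))) (l 15961488)) (l 15936976)))) (c (b (b (c (a (l 16131248) (l 16313584)) (a (c (l 16128760) (l 16128232)) (c (b (l 16351896) (l 16247128)) (b (c (l 16309656) (l 16291576)) (a (l 16295816) (l 16414528)))))) (c (a (c (l 16138384) (l 16094432)) (b (l 16229680) (l 16229496))) (c (a (a (l 16084632) (b (l 16185600) (l 16190480))) (b (c (l 16332264) (l 16294496)) (l 16319000))) (l 16040288))))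 (c (a (b (c (b (l 16135832) (l 16138168)) (b (a (l 16087752) (l 16189528)) (l 16144120))) (c (b (l 16142872) (l 16150736)) (l 16149544))) (b (c (l 16251800) (b (l 16232856) (l 16345952))) (c (a (l 16306344) (b (c (l 16419968) (l 16344568)) (c (l 16389192) (l 16433920)))) (l 16374408)))) (a (l 16143208) (l 16349800)))) (a (b (l 16113832) (l 16139992)) (a (l 16298752) (l 16361360))))), by decide +kernel⟩

def k14_mm_202_a : ∃ t, chk3 f_mm_202_a t 7 66 12 = true :=
  ⟨(a (a (b (a (l 15954672) (l 15955096)) (c (l 16007960) (a (b (l 15988272) (l 16016952)) (l 16003992)))) (b (a (l 15974152) (l 16022736)) (c (l 16043832) (b (l 16018512) (c (l 15958168) (b (l 16035600) (l 16058408))))))) (b (a (a (l 16110288) (l 16150680)) (c (b (l 16387208) (l 16281528)) (b (l 16274264) (l 16372344)))) (c (a (l 16143112) (l 16314760)) (a (b (b (l 16150432) (a (l 16056408) (l 16198224))) (c (b (l 16147536) (a (l 16101360) (l 16197000))) (b (a (l 16100696) (l 16199864)) (l 16163360)))) (a (b (l 16307800) (c (l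 16305352) (l 16314768))) (b (l 16423624) (c (l 16420568) (l 16430872)))))))), by decide +kernel⟩

def k15_mm_202_a : ∃ t, chk3 f_mm_202_a t 7 66 13 = true :=
  ⟨(c (a (b (a (b (l 15932496) (a (l 15960544) (l 15959320))) (b (l 15978784) (a (l 15977416) (l 16013128)))) (c (a (b (l 15988224) (l 16027032)) (b (l 16019496) (c (l 16039512) (l 16065216)))) (a (a (l 16011264) (l 16012768)) (b (l 16029616) (l 16066064))))) (b (a (b (l 16146144) (c (l 16124144) (b (c (l 16098528) (l 16080688)) (l 16129728)))) (b (c (l 16368216) (l 16255072)) (c (b (l 16361672) (l 16295880)) (b (a (l 16280264) (l 16417424)) (l 16326736))))) (a (b (b (a (l 16102416) (c (l 16196264) (l 16212768))) (c (l 16155536) (a (l 16118992) (l 16221384)))) (c (a (b (l 16117968) (l 16129216)) (l 16201456)) (l 16177736))) (b (a (c (l 16310600) (l 16263208)) (c (l 16385096) (l 16360232))) (c (a (l 16311296) (l 16386896)) (l 16397624)))))) (a (b (a (a (b (l 15931536) (l 15964928)) (b (c (l 15930328) (l 15934000)) (l 15964968))) (b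 (c (a (l 15948224) (l 16001224)) (a (l 15952960) (l 16007432))) (c (l 16003912) (l 16006640)))) (a (l 16011712) (l 16050416))) (b (a (b (c (l 16144096) (l 16152520)) (a (l 16108640) (c (b (l 16123160) (l 16194312)) (l 16214992)))) (b (c (b (c (l 16355720) (l 16210816)) (a (l 16305600) (l 16422488))) (a (b (c (l 16307568) (l 16315752)) (l 16235536)) (b (l 16365904) (l 16438048)))) (c (b (a (l 16295584) (l 16434632)) (a (l 16325592) (l 16444120))) (l 16383816)))) (a (l 16173896) (l 16391856))))), by decide +kernel⟩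

def k16_mm_202_a : ∃ t, chk3 f_mm_202_a t 7 67 6 = true :=
  ⟨(a (c (b (b (a (c (l 16042752) (a (l 16049600) (l 16050416))) (a (c (l 16061168) (l 16069984)) (c (b (l 16075736) (l 16066880)) (c (l 16088928) (b (l 16094104) (l 16114840)))))) (c (a (l 16010704) (c (b (l 16087768) (l 16082216)) (l 16107760))) (a (l 16069208) (c (b (a (l 16102200) (l 16125632)) (l 16134240)) (l 16127456))))) (c (a (a (l 16020544) (b (c (l 16107328) (b (l 16112264) (l 16132680))) (c (l 16152240) (l 16156624)))) (b (c (l 16138080) (b (l 16144808) (l 16166136))) (c (l 16144272) (l 16191288)))) (a (l 16141704) (l 16173744)))) (a (l 16046432) (l 16140352))) (c (b (b (a (c (a (c (l 16119264) (l 16051712)) (l 16203448)) (c (a (l 16124632) (l 16211216)) (a (b (l 16132424) (l 16148264)) (l 16228776)))) (c (a (l 16310624) (l 16425280)) (c (l 16251376) (a (l 16338448) (l 16433992))))) (a (c (a (c (l 16134608) (l 16147208)) (c (l 16203008) (l 16216704))) (c (a (l 16164576) (l 16235544)) (l 16207856))) (a (c (l 16214024)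 (l 16283336)) (l 3)))) (a (c (b (c (l 16161672) (a (l 16195024) (l 16205464))) (a (l 16228776) (l 528984404183))) (l 16241632)) (a (c (b (l 567102318247) (l 3)) (l 16357496)) (l 3)))) (a (a (l 16185952) (l 16251216)) (l 628305691015)))), by decide +kernel⟩

def k17_mm_202_a : ∃ t, chk3 f_mm_202_a t 7 33 7 = true :=
  ⟨(a (a (b (a (l 15974992) (l 15972592)) (l 16102800)) (b (b (a (l 15964120) (l 16013520)) (l 16044072)) (l 16133960))) (a (b (b (l 16157384) (l 16168728)) (a (l 16179952) (l 16245952))) (b (b (a (l 16320232) (l 16416920)) (l 16367936)) (l 686824624039)))), by decide +kernel⟩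

def k18_mm_202_a : ∃ t, chk3 f_mm_202_a t 12 17 1 = true :=
  ⟨(c (b (c (a (b (l 16302368) (b (l 16437304) (l 16289632))) (b (l 16320728) (b (l 16418344) (a (l 16452104) (l 16447784))))) (b (c (b (l 16308136) (a (a (l 16405264) (l 16389848)) (l 16357272))) (b (c (b (l 16207568) (l 16341408)) (b (a (l 16344792) (l 16301568)) (l 16291048))) (c (a (l 16407880) (l 16372776)) (l 16393744)))) (c (b (c (l 16354344) (l 16267136)) (a (l 16394192) (a (l 16417000) (l 16443864)))) (l 16419792)))) (c (b (c (b (b (l 16441576) (c (l 16435816) (c (l 16445824) (l 16437496)))) (c (b (l 16436440) (a (b (l 16415880) (l 16405840)) (l 16443448))) (b (l 16395256) (l 16384808)))) (b (a (l 16271664) (c (b (l 16372376) (l 16421872)) (b (a (l 16404992) (l 16421416)) (c (l 16389512) (l 16382768))))) (c (a (b (l 16360816) (c (l 16296280) (l 16331712))) (b (l 16313160) (l 16300776))) (l 16345968)))) (c (b (c (l 16296632) (a (b (c (l 16345312) (l 16284288)) (l 16228992)) (b (l 16322704) (l 16338376)))) (c (b (a (l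 16252344) (l 16340784)) (a (l 16268920) (l 16314072))) (l 16304768))) (l 16274960))) (b (a (l 16337384) (l 16375576)) (l 16292856)))) (b (b (c (l 16192144) (l 16315224)) (l 16270440)) (a (l 16245504) (b (l 16370888) (l 16316504))))), by decide +kernel⟩

def k19_mm_202_a : ∃ t, chk3 f_mm_202_a t 13 34 2 = true :=
  ⟨(b (c (a (l 16287888) (c (b (l 16255624) (l 16279192)) (b (l 16241160) (l 16276616)))) (c (b (a (l 16262424) (l 16152592)) (a (l 16248592) (c (b (l 16246216) (c (l 16266320) (l 16241232))) (b (c (l 16216376) (l 16201592)) (l 16258928))))) (b (c (b (l 16215024) (a (l 16274088) (a (l 16237480) (l 16170344)))) (b (l 16190312) (c (b (l 16179232) (l 16198448)) (l 16276112)))) (c (a (l 16330048) (b (a (l 16279040) (c (l 16248528) (l 16263288))) (c (b (l 16295192) (l 16314312)) (l 16308400)))) (l 16318816))))) (c (c (a (l 16401872) (l 16354656)) (b (b (l 16326112) (c (l 16348760) (a (a (l 16374808) (l 16309304)) (l 16293520)))) (b (c (l 16342896) (a (c (l 16364992) (l 16398984)) (l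 16304744))) (c (a (c (l 16407816) (l 16410432)) (l 16322016)) (l 16391296))))) (c (b (c (b (c (b (l 16304784) (l 16192392)) (l 16238648)) (l 16253824)) (c (b (l 16320936) (a (l 16321448) (l 16341048))) (b (a (b (l 16368320) (l 16387232)) (l 16290664)) (l 16388400)))) (c (a (b (c (l 16418176) (l 16390632)) (l 16335488)) (b (l 16297744) (l 16399888))) (l 16385392))) (l 16273576)))), by decide +kernel⟩

def k20_mm_202_a : ∃ t, chk3 f_mm_202_a t 13 35 2 = true :=
  ⟨(c (b (c (c (b (l 16385984) (a (b (l 16473584) (l 16482808)) (b (l 16434536) (l 16420808)))) (b (b (l 16326512) (a (l 16436272) (l 16382008))) (a (l 16437792) (l 16434488)))) (b (c (a (l 16360824) (l 16339632)) (a (b (l 16431392) (l 16435264)) (b (l 16396032) (l 16477336)))) (c (a (b (l 16407728) (l 16395584)) (b (l 16430544) (l 16466568))) (l 16439768)))) (b (c (c (a (l 16428704) (l 16426944)) (a (b (l 16394992) (l 16366592)) (b (l 16416032) (l 16419960)))) (l 161765137287)) (c (c (a (b (l 16348840) (l 16342216)) (b (l 1144775803271)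 (l 3))) (l 16304792)) (l 16303424)))) (b (a (l 16422672) (l 16472808)) (a (l 16351768) (l 16364808)))), by decide +kernel⟩

def k21_mm_202_a : ∃ t, chk3 f_mm_202_a t 13 17 3 = true :=
  ⟨(a (b (b (l 16240624) (l 16402480)) (b (l 16419048) (l 16345960))) (b (b (c (l 16264896) (l 16259392)) (l 16353944)) (b (l 16470776) (l 16339184)))), by decide +kernel⟩

def k22_mm_202_a : ∃ t, chk3 f_mm_202_a t 28 17 1 = true :=
  ⟨(c (b (c (b (a (b (c (l 16217824) (l 16202224)) (l 16253144)) (b (l 16213016) (l 16257080))) (c (a (l 16322392) (l 16325984)) (b (a (b (l 16265224) (l 16262888)) (l 16236376)) (a (c (b (l 16304688) (l 16327800)) (l 16251240)) (c (l 16320624) (l 16317344)))))) (b (c (b (a (b (l 16165944) (l 16183560)) (l 16176496)) (c (a (l 16218000) (l 16219832)) (a (b (c (l 16198072) (l 16204872)) (l 16243272)) (b (l 16205032) (l 16246088))))) (b (c (b (a (c (l 16147048) (l 16086840)) (l 16088016)) (a (l 16165296) (l 16188496))) (a (b (c (l 16165216) (b (l 16170904) (l 16190568))) (c (l 16209576)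 (l 16214080))) (b (l 16153200) (l 16215176)))) (c (a (b (l 16189144) (l 16271328)) (b (l 16234624) (l 16275960))) (l 16261312)))) (c (c (b (b (a (l 16235936) (l 16259232)) (l 16260104)) (a (b (l 16348408) (l 16389128)) (l 372218276775))) (b (a (b (l 16269096) (l 16330616)) (b (l 16294400) (l 16335976))) (l 16380152))) (l 261085965015)))) (b (c (a (c (b (c (l 16375680) (l 297593251831)) (l 523079104711)) (b (c (l 16326288) (b (l 16384808) (l 16445584))) (l 508046843175))) (b (b (c (l 16362904) (l 16300200)) (l 3)) (l 3))) (l 434495492919)) (l 3))) (b (b (c (a (l 16224648) (l 16229384)) (a (l 16218128) (l 16222736))) (a (l 16341840) (l 16346592))) (a (l 238000767335) (l 467244675159)))), by decide +kernel⟩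

def k23_mm_202_a : ∃ t, chk3 f_mm_202_a t 29 17 1 = true :=
  ⟨(b (c (b (c (b (c (l 16258080) (l 16240528)) (l 286318778231)) (b (c (b (l 16199952) (l 16217032)) (c (b (c (l 16177856) (l 16181240)) (l 16178760)) (b (c (l 16199832) (l 16217488)) (c (l 16248584) (l 16254120))))) (c (c (b (l 16241488) (l 16259672)) (b (c (l 16230152) (l 16238200)) (l 16278888))) (c (b (c (l 16260720) (l 16279288)) (l 430737117751)) (l 16299256))))) (b (c (b (l 16318360) (l 396377432103)) (c (c (b (l 414094081255) (l 16336240)) (b (l 16244552) (l 16369952))) (l 16358184))) (l 3))) (c (c (l 253032707735) (l 244979659575)) (l 232094744151))) (l 3)), by decide +kernel⟩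

def k24_mm_202_a : ∃ t, chk3 f_mm_202_a t 15 17 1 = true :=
  ⟨(a (b (b (c (b (c (a (l 16288960) (l 16319280)) (c (l 476371031351) (c (b (a (l 16219024) (l 16248552)) (l 16252360)) (b (c (l 16253992) (l 504288339191)) (l 505362168599))))) (a (c (l 16329872) (c (l 466707425607) (l 487108571607))) (l 3))) (c (l 540258753495) (l 16294320))) (l 3)) (l 3)) (l 3)), by decide +kernel⟩

def k25_mm_202_a : ∃ t, chk3 f_mm_202_a t 4 9 1 = true :=
  ⟨(b (b (c (b (a (l 16275440) (b (c (l 16251520) (l 16225488)) (l 16367696))) (a (b (l 16360952) (a (l 16394168) (l 16381320))) (l 16269016))) (b (a (l 16265344) (b (l 16196816) (l 16361736))) (a (b (l 16462984) (l 16385752)) (l 16432696)))) (a (c (b (a (b (l 16310856) (l 16245888)) (l 16323304)) (l 16249328)) (b (b (l 16272136) (l 16263456)) (l 16234144))) (c (b (l 16393512) (l 16390616)) (b (l 16386624) (l 16382992))))) (b (b (c (a (b (l 16243688) (l 16255128)) (a (l 16385712) (b (l 16449504) (l 16465936)))) (a (l 16232808) (a (l 16377072) (b (l 16444680)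 (l 16461696))))) (a (l 16346952) (c (a (l 16489056) (l 16497408)) (a (l 16443320) (l 16494720))))) (a (a (l 16475280) (b (c (l 16530184) (l 16464792)) (c (l 16441088) (l 16435000)))) (a (b (c (l 16467120) (l 16462648)) (l 16410936)) (c (l 16433016) (l 16427256)))))), by decide +kernel⟩

def k26_mm_202_a : ∃ t, chk3 f_mm_202_a t 5 9 1 = true :=
  ⟨(b (b (b (a (c (l 16277504) (l 16268992)) (c (b (a (l 16262952) (c (l 16272408) (l 16267600))) (a (l 16300600) (l 16294856))) (a (b (l 16253072) (l 16292032)) (b (l 16260168) (l 16285840))))) (c (a (b (l 16380624) (l 16344136)) (a (b (l 16261000) (l 16342608)) (l 16298512))) (a (b (l 16375040) (l 16402280)) (a (b (l 16316024) (l 16335232)) (l 16289336))))) (a (c (b (a (l 16467648) (c (l 16400472) (l 16397848))) (a (b (l 16466712) (l 16474240)) (l 16412624))) (b (a (l 16464752) (l 16393752)) (a (b (l 16463720) (l 16471344)) (l 16407376)))) (c (b (l 16332056) (l 278802730055)) (b (l 16323864) (l 16342264))))) (b (c (a (b (a (l 16483952) (l 16421256))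 (l 16431848)) (b (a (l 16377992) (l 16366800)) (l 346448622807))) (a (b (a (l 16481144) (l 16415936)) (l 16426592)) (b (l 269139134823) (l 353427929399)))) (b (a (c (l 16413952) (l 16429376)) (c (l 380808469079) (l 16395712))) (a (c (l 16436744) (l 16430880)) (l 3))))), by decide +kernel⟩

def k27_mm_202_a : ∃ t, chk3 f_mm_202_a t 3 9 1 = true :=
  ⟨(b (a (a (b (b (c (b (c (l 16291400) (l 16286728)) (l 16258752)) (a (l 16273864) (l 16278304))) (c (a (l 16271120) (l 384029313239)) (a (l 16260600) (l 16253376)))) (b (c (a (l 16293744) (l 16311416)) (l 322289196487)) (c (l 371681421223) (l 16284752)))) (a (b (b (c (b (l 16296304) (l 16294232)) (l 16298208)) (l 3)) (l 3)) (l 3))) (l 3)) (l 3)), by decide +kernel⟩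

def k28_mm_202_a : ∃ t, chk3 f_mm_202_a t 1 5 1 = true :=
  ⟨(a (b (b (a (b (a (c (b (a (l 16429944) (l 16390448)) (l 16379992)) (b (a (l 16380920) (l 16382016)) (l 16370672))) (c (l 16354696) (l 16388552))) (a (c (l 16352896) (l 16341928)) (c (l 338932423079) (l 344301114439)))) (b (a (c (l 355038667431) (l 374366006263)) (l 3)) (l 3))) (a (a (b (c (l 16370600) (l 16359480)) (c (l 186998006583) (l 324973813079))) (b (c (l 356112345639) (l 364702260823)) (l 3))) (l 3))) (b (a (a (b (c (l 338396027671) (l 343764649255)) (l 3)) (l 3)) (l 3)) (l 3))) (l 3)), by decide +kernel⟩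

def k29_mm_202_a : ∃ t, chk3 f_mm_202_a t 1 3 1 = true :=
  ⟨(l 3), by decide +kernel⟩

theorem s30_mm_202_a : ∃ t, chk3 f_mm_202_a t 2 9 1 = true := ex3_a k25_mm_202_a k26_mm_202_a

theorem s31_mm_202_a : ∃ t, chk3 f_mm_202_a t 1 9 1 = true := ex3_a s30_mm_202_a k27_mm_202_a

theorem s32_mm_202_a : ∃ t, chk3 f_mm_202_a t 14 17 1 = true := ex3_a k22_mm_202_a k23_mm_202_a

theorem s33_mm_202_a : ∃ t, chk3 f_mm_202_a t 7 17 1 = true := ex3_a s32_mm_202_a k24_mm_202_a

theorem s34_mm_202_a : ∃ t, chk3 f_mm_202_a t 13 17 2 = true := ex3_b k19_mm_202_a k20_mm_202_a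

theorem s35_mm_202_a : ∃ t, chk3 f_mm_202_a t 13 17 1 = true := ex3_c s34_mm_202_a k21_mm_202_a

theorem s36_mm_202_a : ∃ t, chk3 f_mm_202_a t 6 17 1 = true := ex3_a k18_mm_202_a s35_mm_202_a

theorem s37_mm_202_a : ∃ t, chk3 f_mm_202_a t 3 17 1 = true := ex3_a s36_mm_202_a s33_mm_202_a

theorem s38_mm_202_a : ∃ t, chk3 f_mm_202_a t 7 66 6 = true := ex3_c k14_mm_202_a k15_mm_202_a

theorem s39_mm_202_a : ∃ t, chk3 f_mm_202_a t 7 33 6 = true := ex3_b s38_mm_202_a k16_mm_202_a

theorem s40_mm_202_a : ∃ t, chk3 f_mm_202_a t 7 33 3 = true := ex3_c s39_mm_202_a k17_mm_202_a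

theorem s41_mm_202_a : ∃ t, chk3 f_mm_202_a t 7 32 7 = true := ex3_b k12_mm_202_a k13_mm_202_a

theorem s42_mm_202_a : ∃ t, chk3 f_mm_202_a t 7 32 6 = true := ex3_b k10_mm_202_a k11_mm_202_a

theorem s43_mm_202_a : ∃ t, chk3 f_mm_202_a t 7 32 3 = true := ex3_c s42_mm_202_a s41_mm_202_a

theorem s44_mm_202_a : ∃ t, chk3 f_mm_202_a t 7 16 3 = true := ex3_b s43_mm_202_a s40_mm_202_a

theorem s45_mm_202_a : ∃ t, chk3 f_mm_202_a t 7 33 2 = true := ex3_a k8_mm_202_a k9_mm_202_a

theorem s46_mm_202_a : ∃ t, chk3 f_mm_202_a t 7 32 2 = true := ex3_b k6_mm_202_a k7_mm_202_a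

theorem s47_mm_202_a : ∃ t, chk3 f_mm_202_a t 7 16 2 = true := ex3_b s46_mm_202_a s45_mm_202_a

theorem s48_mm_202_a : ∃ t, chk3 f_mm_202_a t 7 16 1 = true := ex3_c s47_mm_202_a s44_mm_202_a

theorem s49_mm_202_a : ∃ t, chk3 f_mm_202_a t 6 16 1 = true := ex3_b k4_mm_202_a k5_mm_202_a

theorem s50_mm_202_a : ∃ t, chk3 f_mm_202_a t 3 16 1 = true := ex3_a s49_mm_202_a s48_mm_202_a

theorem s51_mm_202_a : ∃ t, chk3 f_mm_202_a t 3 8 1 = true := ex3_b s50_mm_202_a s37_mm_202_a

theorem s52_mm_202_a : ∃ t, chk3 f_mm_202_a t 2 17 1 = true := ex3_c k2_mm_202_a k3_mm_202_a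

theorem s53_mm_202_a : ∃ t, chk3 f_mm_202_a t 2 16 1 = true := ex3_b k0_mm_202_a k1_mm_202_a

theorem s54_mm_202_a : ∃ t, chk3 f_mm_202_a t 2 8 1 = true := ex3_b s53_mm_202_a s52_mm_202_a

theorem s55_mm_202_a : ∃ t, chk3 f_mm_202_a t 1 8 1 = true := ex3_a s54_mm_202_a s51_mm_202_a

theorem s56_mm_202_a : ∃ t, chk3 f_mm_202_a t 1 4 1 = true := ex3_b s55_mm_202_a s31_mm_202_a

theorem s57_mm_202_a : ∃ t, chk3 f_mm_202_a t 1 2 1 = true := ex3_b s56_mm_202_a k28_mm_202_a

theorem s58_mm_202_a : ∃ t, chk3 f_mm_202_a t 1 1 1 = true := ex3_b s57_mm_202_a k29_mm_202_a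

theorem c_mm_202_a : CertNX 0 420477299 1073741824 536870912 1046898278 26843546 3 false false false .pp 2 0 2
    ndN2q2a ndN7q2 pcN0 Cut.none Ext.none :=
  certNX1 (fam := false) (s1 := false) (s2 := false) (a := 2) (b := 0) (c := 2) (cn := .pp) (n1 := ndN2q2a) (n2 := ndN7q2) (pc := pcN0) (cut := Cut.none) (xt := Ext.none) (P1 := 0) (W1 := 420477299) (P2 := 1073741824) (W2 := 536870912) (P3 := 1046898278) (W3 := 26843546) (N0 := 3)
    rfl (fun _ => rfl) s58_mm_202_a

noncomputable def f_mm_202_b : ℕ → ℕ → ℕ → ℕ → Bool := onCell 1239849684 370763052 0 536870912 1046898278 26843546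
    (rowNX 3 1 false false false .pp 2 0 2 (qsf 1239849684 370763052 1073741824 536870912 0) ndN2q2b ndN7q2 pcN0 Cut.none Ext.none)

def k0_mm_202_b : ∃ t, chk3 f_mm_202_b t 4 16 1 = true :=
  ⟨(b (c (b (a (b (a (l 16295104) (l 15984504)) (c (l 16026960) (a (l 16083272) (l 15986264)))) (c (l 15388232) (b (l 15394512) (l 15162288)))) (a (c (b (a (b (l 16352720) (l 16328288)) (l 15816480)) (a (l 16330192) (l 15909688))) (b (a (l 16158496) (l 15836368)) (a (l 16148416) (l 15824296)))) (c (b (a (l 15558984) (l 15218432)) (a (l 15508504) (c (l 15183816) (l 15154048)))) (b (l 15101008) (l 15050840))))) (b (a (c (b (a (l 16201440) (l 15989760)) (a (b (l 16086960) (l 16075152)) (b (l 15981912) (c (l 15972112) (l 15951888))))) (b (a (b (c (l 16242144) (b (l 16039632) (l 16031096))) (c (l 16098408) (l 16242392))) (c (b (l 16026312) (l 16009016)) (b (c (l 16029152) (l 16030312)) (l 15985144)))) (c (a (l 16267352) (l 15948808)) (a (l 16299384) (l 15978032))))) (c (b (l 15400992) (c (l 15151312) (b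 (l 15381368) (l 15345376)))) (b (c (b (l 15407112) (l 15266576)) (b (a (l 15486672) (l 15222400)) (l 15383768))) (c (l 15356616) (l 15359480))))) (a (c (b (a (c (l 16334400) (l 16362208)) (l 15771440)) (a (l 16313136) (l 15876608))) (a (l 16325168) (l 15918024))) (c (a (l 15251912) (l 15129688)) (l 15309736))))) (c (b (b (a (c (l 15779112) (a (l 16153768) (l 15812256))) (c (a (l 15426224) (c (l 15104392) (l 15069768))) (l 15043224))) (a (c (a (l 16066168) (l 15756288)) (l 15909248)) (c (a (l 15208680) (l 15000072)) (l 15206296)))) (a (c (a (l 16117136) (l 15705152)) (l 15796080)) (c (a (l 15335216) (l 15040872)) (l 15139232)))) (a (c (a (b (l 16270480) (l 16211544)) (l 15685248)) (a (l 16249504) (l 15815080))) (c (a (l 15200040) (l 14860688)) (l 15195424))))), by decide +kernel⟩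

def k1_mm_202_b : ∃ t, chk3 f_mm_202_b t 5 16 2 = true :=
  ⟨(b (b (a (c (l 14669360) (c (l 14772776) (l 14791720))) (c (a (l 14393064) (l 14184872)) (b (l 14264536) (a (l 14151088) (c (l 14161296) (l 14168344)))))) (a (c (b (b (a (l 14901184) (l 14675648)) (a (c (l 14944504) (l 14929944)) (l 14668424))) (a (c (l 14909688) (l 14872712)) (l 14628728))) (b (a (l 14898424) (c (b (l 14655944) (l 14627152)) (l 14589816))) (c (l 14701856) (l 14678656)))) (c (b (a (l 14396024) (l 14166496)) (a (l 14356912) (l 14179616))) (b (a (c (l 14181568) (l 14353160)) (a (l 14173552) (l 14101448))) (c (l 13991824) (a (l 14318736) (l 14154552))))))) (a (b (c (b (a (l 14833400) (l 14585048)) (a (l 14804912) (l 14577352))) (b (l 14676408) (l 14667448))) (c (l 14674168) (c (l 14659560) (b (l 14670680) (l 14657296))))) (c (b (a (b (l 14356184) (l 14358800)) (l 14230656)) (a (l 14387968) (l 14303320))) (b (a (l 14327288) (l 14203208)) (c (l 14325136) (b (l 14298032) (a (l 14363832) (l 14308656)))))))), by decide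 +kernel⟩

def k2_mm_202_b : ∃ t, chk3 f_mm_202_b t 5 16 3 = true :=
  ⟨(b (a (b (c (b (l 14787232) (c (l 14776696) (l 14754648))) (b (c (l 14775896) (b (l 14775088) (l 14756936))) (l 14734440))) (c (b (l 14713936) (l 14677704)) (l 14697512))) (c (b (b (l 14238088) (c (a (l 14352504) (l 14137200)) (a (l 14348136) (l 14105536)))) (a (b (l 14314792) (l 14299048)) (b (l 14113208) (l 14128960)))) (b (b (c (l 14231464) (l 14216992)) (c (l 14200776) (l 14193936))) (a (l 14057904) (b (l 14074056) (l 14087008)))))) (c (b (c (a (l 14657336) (a (l 14302088) (l 14180088))) (a (b (l 14670928) (l 14643416)) (a (b (l 14299200) (l 14288056)) (b (c (l 14153216) (l 14135968)) (l 14177064))))) (a (c (b (l 14659568) (c (l 14386616) (l 14620440))) (l 14610904)) (c (b (c (l 14290304) (a (l 14310824) (l 14229704))) (c (a (l 14340512) (l 14279176)) (l 14280112))) (l 14254784)))) (a (a (l 14742784) (l 14464872)) (a (l 14263176) (l 14147264))))), by decide +kernel⟩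

def k3_mm_202_b : ∃ t, chk3 f_mm_202_b t 4 17 2 = true :=
  ⟨(b (b (a (a (c (l 16070304) (l 16134624)) (c (l 15693032) (l 15630096))) (c (l 15103016) (a (l 15352456) (c (l 15027696) (l 14824872))))) (c (a (a (l 16001040) (l 15700432)) (c (l 15067664) (a (l 15329720) (c (l 15039800) (l 14799728))))) (a (a (a (l 16176456) (l 15961040)) (l 15666728)) (b (c (a (l 15221632) (l 15026328)) (l 15162760)) (a (l 15321976) (b (l 15002880) (l 14995656))))))) (a (c (b (c (a (l 15896408) (l 15666728)) (b (a (l 16055752) (l 15608456)) (a (l 15970112) (l 15658672)))) (c (a (b (l 15893800) (l 16003824)) (l 15415728)) (l 15610184))) (b (a (l 15849440) (l 15652792)) (l 15616056))) (c (b (a (b (l 15326712) (l 15315424)) (c (b (l 15051248) (l 15044688)) (b (c (l 15032432) (l 15008816)) (l 15003056)))) (c (b (c (l 15071464) (a (l 15294968) (l 15006720))) (a (c (l 15123144) (l 15278624)) (l 14994928))) (l 15030248))) (a (b (l 15319344) (l 15256152)) (l 14974168))))), by decide +kernel⟩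

def k4_mm_202_b : ∃ t, chk3 f_mm_202_b t 5 17 2 = true :=
  ⟨(a (b (b (c (l 14695088) (c (b (l 14680848) (l 14573704)) (b (c (l 14669632) (l 14649472)) (c (l 14649480) (l 14633784))))) (c (c (l 14693992) (b (l 14705472) (c (l 14707752) (a (l 14800848) (l 14579344))))) (c (b (c (l 14688104) (l 14662664)) (a (l 14766200) (c (l 14537824) (l 14516216)))) (l 14611544)))) (c (b (c (a (l 14808296) (b (l 14626752) (c (l 14654224) (l 14616456)))) (a (b (l 14793128) (l 14762408)) (b (c (l 14594816) (l 14549296)) (c (l 14484704) (l 14545840))))) (c (b (c (l 14685576) (a (l 14769128) (l 14489896))) (a (a (l 14817768) (b (l 14622728) (l 14694176))) (b (l 14605304) (l 14604728)))) (a (l 14728888) (l 14582440)))) (a (b (l 14752936) (l 14702520)) (b (l 14521608) (l 14553752))))) (c (b (b (l 14404648) (c (l 14499224) (b (l 14478856) (c (l 14531640) (l 14503512))))) (a (c (b (b (l 14570200) (l 14574072)) (a (b (l 14596824) (l 14583368)) (l 3))) (b (c (b (l 14535256) (l 14527152)) (l 14496016)) (l 14557056)))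 (l 3))) (b (b (c (b (l 14381296) (c (l 14431544) (l 14411056))) (b (c (l 14367536) (l 14332336)) (c (l 14372712) (l 14349792)))) (c (b (c (l 14456432) (l 14415576)) (c (l 14460768) (l 14438424))) (l 14405936))) (l 14494648)))), by decide +kernel⟩

def k5_mm_202_b : ∃ t, chk3 f_mm_202_b t 2 17 3 = true :=
  ⟨(a (b (a (a (b (l 16148048) (l 15975560)) (b (l 15659232) (l 15666296))) (a (b (l 15317336) (l 15274704)) (b (l 14982688) (l 14943360)))) (a (a (b (l 15868192) (l 15925792)) (b (l 15622432) (l 15591632))) (a (b (l 15274448) (l 15219288)) (l 14782240)))) (b (a (b (c (l 14621520) (l 14583464)) (a (l 14706640) (l 14448760))) (c (l 14346680) (l 14303992))) (a (a (b (l 14700680) (l 14648864)) (a (l 14500776) (l 14453000))) (l 14434704)))), by decide +kernel⟩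

def k6_mm_202_b : ∃ t, chk3 f_mm_202_b t 3 8 1 = true :=
  ⟨(a (a (b (c (b (b (c (l 14092856) (b (l 14033160) (l 14018232))) (b (a (a (l 14108560) (l 14107984)) (l 14110784)) (l 14146128))) (b (l 14167312) (b (l 14204888) (l 3)))) (b (c (b (b (l 13986272) (b (l 14009608) (l 14026136))) (c (l 14089168) (l 14074088))) (b (c (b (l 13952136) (l 13990096)) (b (c (l 13936968) (l 13904488)) (c (l 13972496) (l 13961416)))) (c (b (c (l 14038512) (l 14027256)) (l 14071600)) (l 14025432)))) (c (b (c (l 14171656) (c (b (l 14146288) (l 14172720)) (l 14143752))) (c (c (b (l 14247824) (l 3)) (l 14235376)) (l 14203224))) (l 14145376)))) (l 3)) (l 3)) (l 3)), by decide +kernel⟩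

def k7_mm_202_b : ∃ t, chk3 f_mm_202_b t 2 18 1 = true :=
  ⟨(b (b (a (c (a (a (l 16000616) (b (l 15671032) (l 15762248))) (a (b (l 15323112) (l 15429104)) (l 15047176))) (a (a (l 16066728) (b (l 15637376) (l 15775376))) (a (l 15335040) (l 14988240)))) (c (a (a (b (a (l 14812328) (l 14688864)) (l 14691360)) (a (l 14637776) (l 14602424))) (c (l 14661024) (l 14624056))) (a (a (a (l 14757416) (l 14636144)) (l 14567664)) (l 14567464)))) (a (a (b (a (l 16065336) (c (l 15829776) (l 15910224))) (c (a (l 16172160) (l 16013120)) (a (l 16313632) (l 16012992)))) (c (a (l 15545328) (b (l 15134072) (l 15158616))) (a (l 15505144) (b (l 15077912) (l 15103040))))) (a (a (c (a (l 14906072) (l 14781280)) (a (l 14840736) (l 14711136))) (a (c (l 14712416) (l 14639776)) (l 14729000))) (l 3)))) (a (a (b (c (a (b (a (l 16389736) (l 16472144)) (l 16191720)) (l 15980888)) (a (a (l 16161032) (l 16455928)) (l 16067616))) (c (a (l 16223784) (a (l 16332952) (l 16060928))) (a (l 16319088) (l 16116920)))) (a (c (b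 (l 15632496) (a (l 15792424) (l 15496720))) (b (l 15594864) (a (l 15760408) (l 15474992)))) (c (b (a (l 15277192) (l 15114432)) (a (l 15322960) (l 15156656))) (b (a (l 15225712) (l 15056560)) (a (l 15272568) (l 15099856)))))) (a (a (c (b (l 14927656) (l 15038304)) (b (l 14862672) (l 14977120))) (a (c (l 14925208) (l 14860024)) (l 3))) (l 3)))), by decide +kernel⟩

def k8_mm_202_b : ∃ t, chk3 f_mm_202_b t 2 19 1 = true :=
  ⟨(b (a (a (b (c (a (a (l 16225176) (l 16505248)) (a (l 16353664) (l 16064312))) (a (l 16167984) (a (l 16343184) (l 16042416)))) (a (l 16298656) (a (l 16227944) (c (l 15948408) (l 15921888))))) (c (a (b (a (b (l 15783400) (l 15770328)) (l 15550264)) (l 15616744)) (b (l 15295928) (l 15364344))) (a (b (a (b (l 15750696) (l 15736904)) (l 15508216)) (l 15556808)) (b (l 15244008) (l 15314648))))) (a (a (b (c (l 15169152) (l 15112544)) (l 15286760)) (l 3)) (l 3))) (a (a (a (a (l 16331088) (b (l 16315072) (c (l 16223344) (l 16207616)))) (c (b (a (l 16086288) (l 15880440)) (l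 15942888)) (b (a (l 16044176) (l 15851008)) (l 15915672)))) (a (c (b (l 15625408) (l 15661328)) (b (l 15585624) (l 15622560))) (c (l 15529008) (l 15485056)))) (l 3))), by decide +kernel⟩

def k9_mm_202_b : ∃ t, chk3 f_mm_202_b t 3 9 1 = true :=
  ⟨(l 3), by decide +kernel⟩

def k10_mm_202_b : ∃ t, chk3 f_mm_202_b t 1 5 1 = true :=
  ⟨(a (a (b (b (a (b (a (b (a (a (l 16422624) (c (l 16300080) (l 16287400))) (c (l 16161728) (l 16143304))) (c (l 16181192) (l 16144040))) (c (l 15803856) (l 15817552))) (a (c (l 16057808) (l 16082280)) (c (l 15934256) (l 15971664)))) (a (b (c (l 15762816) (l 15727504)) (c (l 15936776) (l 15907568))) (l 3))) (a (a (b (c (a (l 16314376) (l 16236792)) (a (l 16300672) (l 16219640))) (c (l 16412376) (l 16401848))) (b (c (l 16177656) (l 16157752)) (l 3))) (l 3))) (a (b (b (c (a (l 16480192) (l 3)) (l 343227457879)) (l 3)) (l 3)) (l 3))) (l 3)) (l 3)), by decide +kernel⟩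

def k11_mm_202_b : ∃ t, chk3 f_mm_202_b t 1 3 1 = true :=
  ⟨(a (b (l 3) (l 2)) (l 2)), by decide +kernel⟩

theorem s12_mm_202_b : ∃ t, chk3 f_mm_202_b t 2 9 1 = true := ex3_b k7_mm_202_b k8_mm_202_b

theorem s13_mm_202_b : ∃ t, chk3 f_mm_202_b t 1 9 1 = true := ex3_a s12_mm_202_b k9_mm_202_b

theorem s14_mm_202_b : ∃ t, chk3 f_mm_202_b t 2 17 2 = true := ex3_a k3_mm_202_b k4_mm_202_b

theorem s15_mm_202_b : ∃ t, chk3 f_mm_202_b t 2 17 1 = true := ex3_c s14_mm_202_b k5_mm_202_b

theorem s16_mm_202_b : ∃ t, chk3 f_mm_202_b t 5 16 1 = true := ex3_c k1_mm_202_b k2_mm_202_b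

theorem s17_mm_202_b : ∃ t, chk3 f_mm_202_b t 2 16 1 = true := ex3_a k0_mm_202_b s16_mm_202_b

theorem s18_mm_202_b : ∃ t, chk3 f_mm_202_b t 2 8 1 = true := ex3_b s17_mm_202_b s15_mm_202_b

theorem s19_mm_202_b : ∃ t, chk3 f_mm_202_b t 1 8 1 = true := ex3_a s18_mm_202_b k6_mm_202_b

theorem s20_mm_202_b : ∃ t, chk3 f_mm_202_b t 1 4 1 = true := ex3_b s19_mm_202_b s13_mm_202_b

theorem s21_mm_202_b : ∃ t, chk3 f_mm_202_b t 1 2 1 = true := ex3_b s20_mm_202_b k10_mm_202_b

theorem s22_mm_202_b : ∃ t, chk3 f_mm_202_b t 1 1 1 = true := ex3_b s21_mm_202_b k11_mm_202_b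

theorem c_mm_202_b : CertNX 1239849684 370763052 1073741824 536870912 1046898278 26843546 3 false false false .pp 2 0 2
    ndN2q2b ndN7q2 pcN0 Cut.none Ext.none :=
  certNX1 (fam := false) (s1 := false) (s2 := false) (a := 2) (b := 0) (c := 2) (cn := .pp) (n1 := ndN2q2b) (n2 := ndN7q2) (pc := pcN0) (cut := Cut.none) (xt := Ext.none) (P1 := 1239849684) (W1 := 370763052) (P2 := 1073741824) (W2 := 536870912) (P3 := 1046898278) (W3 := 26843546) (N0 := 3)
    rfl (fun _ => rfl) s22_mm_202_b

noncomputable def f_mm_203_a : ℕ → ℕ → ℕ → ℕ → Bool := onCell 0 420477299 0 1230186008 1046898278 26843546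
    (rowNX 3 0 false false false .up 2 0 3 (qsf 0 420477299 0 1230186008 0) ndN2q2a ndN7q3 pcN0 Cut.none Ext.none)

def k0_mm_203_a : ∃ t, chk3 f_mm_203_a t 1 1 1 = true :=
  ⟨(b (l 2) (l 3)), by decide +kernel⟩

theorem c_mm_203_a : CertNX 0 420477299 0 1230186008 1046898278 26843546 3 false false false .up 2 0 3
    ndN2q2a ndN7q3 pcN0 Cut.none Ext.none :=
  certNX0 (fam := false) (s1 := false) (s2 := false) (a := 2) (b := 0) (c := 3) (cn := .up) (n1 := ndN2q2a) (n2 := ndN7q3) (pc := pcN0) (cut := Cut.none) (xt := Ext.none) (P1 := 0) (W1 := 420477299) (P2 := 0) (W2 := 1230186008) (P3 := 1046898278) (W3 := 26843546) (N0 := 3)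
    rfl k0_mm_203_a

noncomputable def f_mm_203_b : ℕ → ℕ → ℕ → ℕ → Bool := onCell 1239849684 370763052 0 1230186008 1046898278 26843546
    (rowNX 3 0 false false false .up 2 0 3 (qsf 1239849684 370763052 0 1230186008 0) ndN2q2b ndN7q3 pcN0 Cut.none Ext.none)

def k0_mm_203_b : ∃ t, chk3 f_mm_203_b t 1 1 1 = true :=
  ⟨(b (l 3) (b (l 3) (l 3))), by decide +kernel⟩

theorem c_mm_203_b : CertNX 1239849684 370763052 0 1230186008 1046898278 26843546 3 false false false .up 2 0 3
    ndN2q2b ndN7q3 pcN0 Cut.none Ext.none :=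
  certNX0 (fam := false) (s1 := false) (s2 := false) (a := 2) (b := 0) (c := 3) (cn := .up) (n1 := ndN2q2b) (n2 := ndN7q3) (pc := pcN0) (cut := Cut.none) (xt := Ext.none) (P1 := 1239849684) (W1 := 370763052) (P2 := 0) (W2 := 1230186008) (P3 := 1046898278) (W3 := 26843546) (N0 := 3)
    rfl k0_mm_203_b

noncomputable def f_mm_213_a : ℕ → ℕ → ℕ → ℕ → Bool := onCell 0 420477299 0 1230186008 1046898278 26843546
    (rowNX 3 0 false false false .pnn 2 1 3 (qsf 0 420477299 0 1230186008 1) ndN2q2a ndN7q3 pcN1 Cut.none Ext.none)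

def k0_mm_213_a : ∃ t, chk3 f_mm_213_a t 1 1 1 = true :=
  ⟨(b (l 3) (l 3)), by decide +kernel⟩

theorem c_mm_213_a : CertNX 0 420477299 0 1230186008 1046898278 26843546 3 false false false .pnn 2 1 3
    ndN2q2a ndN7q3 pcN1 Cut.none Ext.none :=
  certNX0 (fam := false) (s1 := false) (s2 := false) (a := 2) (b := 1) (c := 3) (cn := .pnn) (n1 := ndN2q2a) (n2 := ndN7q3) (pc := pcN1) (cut := Cut.none) (xt := Ext.none) (P1 := 0) (W1 := 420477299) (P2 := 0) (W2 := 1230186008) (P3 := 1046898278) (W3 := 26843546) (N0 := 3)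
    rfl k0_mm_213_a

noncomputable def f_mm_213_b : ℕ → ℕ → ℕ → ℕ → Bool := onCell 1239849684 370763052 0 1230186008 1046898278 26843546
    (rowNX 3 0 false false false .pnn 2 1 3 (qsf 1239849684 370763052 0 1230186008 1) ndN2q2b ndN7q3 pcN1 Cut.none Ext.none)

def k0_mm_213_b : ∃ t, chk3 f_mm_213_b t 1 1 1 = true :=
  ⟨(b (l 3) (b (l 3) (l 3))), by decide +kernel⟩

theorem c_mm_213_b : CertNX 1239849684 370763052 0 1230186008 1046898278 26843546 3 false false false .pnn 2 1 3
    ndN2q2b ndN7q3 pcN1 Cut.none Ext.none :=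
  certNX0 (fam := false) (s1 := false) (s2 := false) (a := 2) (b := 1) (c := 3) (cn := .pnn) (n1 := ndN2q2b) (n2 := ndN7q3) (pc := pcN1) (cut := Cut.none) (xt := Ext.none) (P1 := 1239849684) (W1 := 370763052) (P2 := 0) (W2 := 1230186008) (P3 := 1046898278) (W3 := 26843546) (N0 := 3)
    rfl k0_mm_213_b

noncomputable def f_mm_303 : ℕ → ℕ → ℕ → ℕ → Bool := onCell 0 536870912 0 1230186008 1046898278 26843546
    (rowNX 3 2 false false false .npn 3 0 3 (qsf 1610612736 469762048 0 1230186008 0) ndN2q3 ndN7q3 pcN0 Cut.none Ext.none)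

def k0_mm_303 : ∃ t, chk3 f_mm_303 t 1 1 1 = true :=
  ⟨(b (l 3) (a (l 3) (l 3))), by decide +kernel⟩

theorem c_mm_303 : CertNX 1610612736 469762048 0 1230186008 1046898278 26843546 3 false false false .npn 3 0 3
    ndN2q3 ndN7q3 pcN0 Cut.none Ext.none :=
  certNX2 (fam := false) (s1 := false) (s2 := false) (a := 3) (b := 0) (c := 3) (cn := .npn) (n1 := ndN2q3) (n2 := ndN7q3) (pc := pcN0) (cut := Cut.none) (xt := Ext.none) (P1 := 1610612736) (W1 := 469762048) (P2 := 0) (W2 := 1230186008) (P3 := 1046898278) (W3 := 26843546) (N0 := 3)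
    rfl (fun _ => rfl) k0_mm_303

noncomputable def f_mm_313 : ℕ → ℕ → ℕ → ℕ → Bool := onCell 1610612736 469762048 0 1230186008 1046898278 26843546
    (rowNX 3 0 false false false .dn 3 1 3 (qsf 1610612736 469762048 0 1230186008 1) ndN2q3 ndN7q3 pcN1 Cut.none Ext.none)

def k0_mm_313 : ∃ t, chk3 f_mm_313 t 1 1 1 = true :=
  ⟨(b (l 3) (l 1)), by decide +kernel⟩

theorem c_mm_313 : CertNX 1610612736 469762048 0 1230186008 1046898278 26843546 3 false false false .dn 3 1 3
    ndN2q3 ndN7q3 pcN1 Cut.none Ext.none :=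
  certNX0 (fam := false) (s1 := false) (s2 := false) (a := 3) (b := 1) (c := 3) (cn := .dn) (n1 := ndN2q3) (n2 := ndN7q3) (pc := pcN1) (cut := Cut.none) (xt := Ext.none) (P1 := 1610612736) (W1 := 469762048) (P2 := 0) (W2 := 1230186008) (P3 := 1046898278) (W3 := 26843546) (N0 := 3)
    rfl k0_mm_313

end Pool.Agent.Strip051.G.IE1.Tab.C.NB27

namespace Pool.Agent.Strip051.G.IE1.Tab.C.NB30

open Pool.Agent.Strip051.PB Pool.Agent.Strip051.PB.T
open Pool.Agent.Strip051.G.IE1.Tab

noncomputable def f_pp_001 : ℕ → ℕ → ℕ → ℕ → Bool := onCell 0 536870912 536870912 536870912 1046898278 26843546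
    (rowNX 3 0 false true true .up 0 0 1 (qsf 0 536870912 536870912 536870912 0) ndN3q0 ndN0q1 pcN0 Cut.none Ext.none)

def k0_pp_001 : ∃ t, chk3 f_pp_001 t 1 1 1 = true :=
  ⟨(b (l 3) (b (l 3) (a (l 2) (b (l 3) (a (l 2) (b (l 3) (a (l 2) (b (l 3) (a (l 2) (b (l 3) (b (l 3) (c (l 15416104) (l 15324448))))))))))))), by decide +kernel⟩

theorem c_pp_001 : CertNX 0 536870912 536870912 536870912 1046898278 26843546 3 false true true .up 0 0 1
    ndN3q0 ndN0q1 pcN0 Cut.none Ext.none :=
  certNX0 (fam := false) (s1 := true) (s2 := true) (a := 0) (b := 0) (c := 1) (cn := .up) (n1 := ndN3q0) (n2 := ndN0q1) (pc := pcN0) (cut := Cut.none) (xt := Ext.none) (P1 := 0) (W1 := 536870912) (P2 := 536870912) (W2 := 536870912) (P3 := 1046898278) (W3 := 26843546) (N0 := 3)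
    rfl k0_pp_001

noncomputable def cut_pp_011 : Cut := Cut.of [[⟨0, 0, 0, 67108864⟩, ⟨1, 1, 0, 67108864⟩, ⟨2, 1, 0, 67108864⟩, ⟨3, 0, 0, 1233125376⟩]]

noncomputable def f_pp_011 : ℕ → ℕ → ℕ → ℕ → Bool := onCell 0 536870912 536870912 536870912 1046898278 26843546
    (rowNX 3 0 false true true .pnn 0 1 1 (qsf 0 536870912 536870912 536870912 1) ndN3q0 ndN0q1 pcN1 cut_pp_011 Ext.none)

def k0_pp_011 : ∃ t, chk3 f_pp_011 t 1 1 1 = true :=
  ⟨(b (l 3) (b (l 3) (b (l 3) (b (a (l 3) (l 3)) (b (a (a (l 3) (l 3)) (l 3)) (b (a (a (l 3) (l 3)) (l 3)) (b (a (a (a (l 3) (l 3)) (l 3)) (a (l 3) (l 3))) (b (a (a (a (l 3) (l 3)) (a (l 3) (l 3))) (a (l 3) (l 3))) (a (a (a (a (l 6) (a (l 6) (a (l 6) (a (l 6) (b (l 3) (a (l 6) (b (l 3) (c (l 14890840) (l 14302032))))))))) (b (l 3) (b (a (l 3) (l 3)) (a (c (a (a (l 14871792) (l 14892616)) (l 14982408)) (a (c (l 14536120) (l 14305216)) (l 14709552))) (c (a (a (l 15117256) (l 15141640)) (l 15124144)) (a (a (l 14923624) (l 14992096)) (l 14983320))))))) (b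 (a (l 3) (l 3)) (a (a (c (a (l 15113248) (l 15183744)) (a (c (l 15016800) (l 14951000)) (l 15081752))) (c (l 15260504) (l 15182512))) (a (c (l 15356296) (l 15299008)) (c (l 15410040) (l 15361408)))))) (a (c (a (l 15412120) (l 15412120)) (c (l 15376264) (l 15350992))) (c (a (l 15412120) (l 15412120)) (a (l 15363024) (l 15363024))))))))))))), by decide +kernel⟩

theorem c_pp_011 : CertNX 0 536870912 536870912 536870912 1046898278 26843546 3 false true true .pnn 0 1 1
    ndN3q0 ndN0q1 pcN1 cut_pp_011 Ext.none :=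
  certNX0 (fam := false) (s1 := true) (s2 := true) (a := 0) (b := 1) (c := 1) (cn := .pnn) (n1 := ndN3q0) (n2 := ndN0q1) (pc := pcN1) (cut := cut_pp_011) (xt := Ext.none) (P1 := 0) (W1 := 536870912) (P2 := 536870912) (W2 := 536870912) (P3 := 1046898278) (W3 := 26843546) (N0 := 3)
    rfl k0_pp_011

noncomputable def cut_pp_012 : Cut := Cut.of [[⟨0, 0, 0, 67108864⟩, ⟨1, 1, 0, 67108864⟩, ⟨2, 1, 0, 67108864⟩, ⟨3, 0, 0, 1233125376⟩]]

noncomputable def f_pp_012 : ℕ → ℕ → ℕ → ℕ → Bool := onCell 536870912 536870912 0 536870912 1046898278 26843546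
    (rowNX 3 2 false true true .pnp 0 1 2 (qsf 0 536870912 0 536870912 1) ndN3q0 ndN0q2 pcN1 cut_pp_012 Ext.none)

def k0_pp_012 : ∃ t, chk3 f_pp_012 t 2 1 1 = true :=
  ⟨(b (b (a (l 2) (c (l 16777216) (l 16777216))) (a (b (l 2) (l 16777216)) (b (l 16777216) (c (l 16777216) (l 16777216))))) (b (b (a (l 16777216) (l 16777216)) (a (b (l 16709592) (l 16516872)) (b (l 16709592) (l 16516872)))) (b (b (a (a (l 16299392) (l 16299392)) (a (c (l 16307688) (l 16291144)) (c (l 16307688) (l 16291144)))) (a (a (a (l 2) (c (l 16019712) (l 15993040))) (c (a (l 16019712) (l 16019712)) (a (l 15993040) (l 15993040)))) (a (c (l 16019712) (l 15993040)) (c (l 16019712) (l 15993040))))) (a (c (b (a (b (l 15727072) (c (l 15665608) (l 15636680))) (b (l 15727072) (c (l 15665608) (l 15636680)))) (c (a (l 15516256) (l 15516256)) (b (a (l 15539776) (l 15455896)) (l 15440800)))) (b (a (l 15647568) (l 15647568)) (c (b (a (l 15517432) (l 15517432)) (a (l 15420544) (l 15420544))) (b (l 15494456) (a (b (l 15424240) (l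 15371256)) (b (l 15424240) (l 15371256))))))) (b (c (b (a (l 15727072) (l 15727072)) (c (a (l 15665608) (l 15665608)) (l 15636680))) (a (l 15647568) (l 15647568))) (c (b (c (l 15564784) (a (l 15497840) (l 15434920))) (a (l 15451960) (l 15451960))) (b (a (l 15508592) (l 15508592)) (c (a (l 15420544) (l 15420544)) (b (l 15424240) (a (l 15371256) (l 15371256))))))))))), by decide +kernel⟩

def k1_pp_012 : ∃ t, chk3 f_pp_012 t 6 2 1 = true :=
  ⟨(b (a (a (l 16777056) (l 16607416)) (a (b (l 16440856) (l 16512240)) (b (l 16111048) (a (l 16386328) (l 16250144))))) (a (b (a (l 16777104) (l 16703296)) (a (l 16777128) (l 16715504))) (a (b (l 16565512) (l 16599504)) (b (a (l 16464152) (l 16349552)) (a (l 16511336) (l 16401504)))))), by decide +kernel⟩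

def k2_pp_012 : ∃ t, chk3 f_pp_012 t 6 6 1 = true :=
  ⟨(a (b (a (l 16777144) (l 16726304)) (b (l 16531248) (l 16512760))) (b (a (l 16630736) (a (l 16558232) (l 16456312))) (a (l 16457040) (a (b (l 16549552) (l 16448048)) (b (l 16459208) (l 16382352)))))), by decide +kernel⟩

def k3_pp_012 : ∃ t, chk3 f_pp_012 t 6 14 1 = true :=
  ⟨(a (b (a (l 16257496) (l 16201128)) (a (l 16006384) (l 16005832))) (a (c (b (l 16335112) (a (l 16061472) (l 16064488))) (b (l 16247112) (a (l 16020720) (l 16044736)))) (b (a (b (l 16370952) (l 16325256)) (b (l 16327976) (l 16290152))) (a (l 16007392) (c (l 16100336) (l 16083728)))))), by decide +kernel⟩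

def k4_pp_012 : ∃ t, chk3 f_pp_012 t 6 15 1 = true :=
  ⟨(a (b (c (b (a (l 15727088) (l 15740296)) (a (c (l 15665624) (l 15636696)) (c (b (l 15698120) (a (l 15655504) (l 15654176))) (l 15641888)))) (a (l 15647584) (l 15614696))) (c (b (a (c (l 15564792) (b (l 15576824) (l 15518824))) (c (a (l 15565552) (l 15548088)) (b (a (l 15580448) (l 15567256)) (l 15504096)))) (a (l 15451912) (a (b (l 15465184) (l 15408512)) (l 15396280)))) (b (a (l 15508600) (a (l 15467528) (l 15403944))) (a (c (b (l 15445872) (l 15394776)) (b (l 15424248) (l 15371184))) (c (b (c (l 15424328) (l 15367768)) (l 15345552)) (b (l 15391368) (c (l 15326584) (l 15310528)))))))) (b (a (c (b (l 15735368) (c (b (l 15674736) (l 15617688)) (l 15609360))) (l 15551808)) (c (b (a (l 15714576) (l 15742728)) (a (c (b (l 15648336) (l 15586280)) (l 15574936)) (c (b (l 15669720) (c (l 15614760) (l 15593896))) (l 15571168)))) (a (l 15600368) (l 15476496)))) (c (b (a (c (l 15500448) (b (l 15517224) (l 15434832))) (c (a (l 15460744) (a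 (l 15448696) (l 15469688))) (b (a (l 15473624) (c (l 15490320) (l 15463608))) (a (l 15384432) (l 15369840))))) (a (c (l 15348168) (l 15315272)) (a (b (l 15312744) (l 15225744)) (a (b (l 15277416) (l 15170640)) (l 15227600))))) (b (a (c (l 15291720) (l 15408152)) (a (c (l 15384264) (l 15346512)) (b (l 15404208) (c (c (l 15343808) (l 15313600)) (l 15278808))))) (a (c (b (c (l 15335352) (l 15316472)) (l 15240776)) (b (l 15291680) (c (l 15214432) (l 15193432)))) (c (b (a (c (l 15269080) (l 15245656)) (c (l 15225728) (b (l 15236144) (l 15168264)))) (a (l 15154872) (l 15081960))) (b (a (l 15214016) (l 15160208)) (a (c (l 15120200) (b (l 15126344) (l 15068560))) (c (b (l 15073336) (l 15002880)) (b (l 15044936) (c (l 14980096) (l 14963200)))))))))))), by decide +kernel⟩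

def k5_pp_012 : ∃ t, chk3 f_pp_012 t 7 2 1 = true :=
  ⟨(a (b (b (a (l 15734624) (l 15360896)) (a (b (l 15909184) (l 16021320)) (b (l 15558128) (a (l 15750704) (l 15578784))))) (b (a (l 16084240) (c (l 15762296) (l 15726744))) (a (b (l 16128480) (l 16162272)) (b (l 15820808) (l 15886008))))) (b (b (a (c (l 15081536) (l 15033040)) (c (a (l 14866280) (l 14742504)) (a (l 14822904) (l 14685368)))) (a (b (c (l 15309912) (l 15261272)) (c (l 15402112) (l 15354440))) (b (c (b (l 15025264) (l 15092464)) (a (l 15071152) (l 14940152))) (c (l 15151280) (l 15095176))))) (b (a (c (l 15499392) (l 15454992)) (c (a (l 15315232) (l 15217368)) (l 15029056))) (a (c (l 15639544) (l 15600184)) (c (a (l 15491784) (l 15442704)) (a (l 15447704) (l 15397448))))))), by decide +kernel⟩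

def k6_pp_012 : ∃ t, chk3 f_pp_012 t 7 6 1 = true :=
  ⟨(a (b (a (b (l 16163760) (l 16198720)) (c (l 16014896) (l 15988432))) (b (a (l 16282064) (l 16074784)) (a (l 16221040) (l 16026968)))) (b (a (c (b (l 15767104) (l 15879000)) (b (l 15732312) (l 15848216))) (b (c (l 15663744) (l 15626176)) (a (l 15811552) (c (l 15819592) (l 15787920))))) (a (b (c (l 15958104) (l 15929960)) (l 15943512)) (b (a (c (l 15933744) (l 15905392)) (a (b (l 15911176) (l 15968640)) (c (l 15837816) (l 15878192)))) (a (b (a (l 15926120) (l 15960264)) (a (l 15957208) (l 16080976))) (c (l 16097632) (l 16082592))))))), by decide +kernel⟩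

def k7_pp_012 : ∃ t, chk3 f_pp_012 t 14 14 1 = true :=
  ⟨(a (a (b (l 16181480) (l 15961192)) (b (l 16093392) (a (l 16013072) (l 15978896)))) (b (a (b (l 16015216) (l 15996304)) (c (l 15981520) (l 15953296))) (c (a (l 15962728) (l 15930776)) (a (l 15935768) (l 15901528))))), by decide +kernel⟩

def k8_pp_012 : ∃ t, chk3 f_pp_012 t 14 30 1 = true :=
  ⟨(a (c (b (b (l 15932112) (l 15829200)) (c (b (l 15779256) (c (l 15709008) (l 15691240))) (b (l 15739360) (l 15662560)))) (b (l 15865552) (l 15660448))) (b (a (c (l 15868456) (l 15852272)) (c (b (l 15849584) (a (l 15842720) (l 15886456))) (a (l 15820064) (l 15846672)))) (c (c (a (b (l 15892576) (b (l 15833512) (l 15782808))) (b (a (b (l 15872032) (l 15907992)) (l 16001768)) (b (a (l 15892192) (l 15939960)) (l 15851144)))) (a (l 15826184) (b (l 15930224) (b (l 15864696) (l 15807264))))) (a (l 15800544) (a (l 15866744) (l 15891224)))))), by decide +kernel⟩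

def k9_pp_012 : ∃ t, chk3 f_pp_012 t 14 31 1 = true :=
  ⟨(a (c (b (c (b (l 15587584) (l 15467176)) (b (c (l 15573376) (l 15548152)) (l 15435456))) (a (b (l 15308552) (l 15188600)) (b (l 15351736) (a (l 15211480) (a (l 15220488) (b (l 15255360) (l 15154496))))))) (b (b (l 15492504) (c (a (l 15369392) (l 15339456)) (l 15344072))) (c (b (c (l 15271176) (b (l 15285112) (l 15206944))) (a (l 15093576) (a (l 15111704) (a (l 15116760) (l 15089352))))) (a (b (l 15182784) (c (l 14983784) (b (l 15055096) (l 14973048)))) (b (l 15221792) (c (a (l 15062424) (b (b (l 15135688) (l 15082800)) (l 14987616))) (b (l 15072032) (a (l 14983288) (c (l 14958160) (b (l 14976184) (l 14905872))))))))))) (c (b (a (b (c (a (l 15670688) (l 15699336)) (a (l 15584968) (b (l 15714032) (c (l 15655352) (l 15632024))))) (a (b (l 15557272) (l 15488960)) (c (l 15537464) (l 15492776)))) (c (b (l 15729744) (l 15544008)) (b (c (l 15698184) (l 15661432)) (l 15315808)))) (a (b (a (a (l 15368224) (l 15348088)) (l 15311032)) (l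 15215488)) (b (a (l 15281712) (l 15280544)) (a (l 15034016) (c (l 15128128) (l 14911840)))))) (b (a (b (l 15428024) (c (a (c (b (l 15522320) (l 15445264)) (l 15449032)) (c (l 15351976) (l 15419992))) (l 15303392))) (b (l 15576648) (c (c (b (l 15462576) (l 15338168)) (l 15343664)) (l 15270904)))) (b (c (a (b (c (l 15306544) (a (l 15317144) (l 15237160))) (l 15159040)) (c (l 15115472) (b (l 15131880) (l 14962488)))) (a (b (l 15213464) (c (l 15098152) (l 15051112))) (b (l 15028400) (l 14848080)))) (c (a (l 14941000) (l 14735904)) (c (b (a (l 14939784) (c (l 14716720) (l 14670624))) (a (l 14769160) (l 14482392))) (b (a (l 14887776) (l 14603216)) (a (c (l 14722576) (l 14689760)) (c (l 14403368) (l 14348848)))))))))), by decide +kernel⟩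

def k10_pp_012 : ∃ t, chk3 f_pp_012 t 30 14 1 = true :=
  ⟨(a (b (b (l 15950856) (l 15938400)) (b (c (l 15940432) (l 15910784)) (a (c (l 15896552) (l 15865920)) (l 15970728)))) (b (a (b (l 15938040) (l 15941360)) (c (b (b (l 15950168) (l 15978040)) (l 15956584)) (b (l 15943608) (l 16036424)))) (a (b (l 15953840) (l 16122912)) (c (b (l 16114576) (l 16173216)) (l 16106096))))), by decide +kernel⟩

def k11_pp_012 : ∃ t, chk3 f_pp_012 t 62 14 1 = true :=
  ⟨(c (b (a (c (a (c (b (l 15923912) (l 16206112)) (l 16058544)) (c (l 16049400) (a (l 16146432) (l 15983304)))) (b (l 16079296) (l 16237696))) (c (b (l 16144984) (l 16283928)) (a (c (b (l 16155536) (l 16318248)) (l 16294608)) (c (l 16224552) (b (l 16223504) (l 16366752)))))) (a (c (a (c (b (l 16244872) (l 16306744)) (l 16350032)) (b (c (l 16443904) (l 16290968)) (c (l 16506720) (a (l 16514488) (l 16524672))))) (b (l 16381048) (l 16461328))) (c (b (b (l 16483552) (l 16538392)) (a (a (l 16502048) (l 16593488)) (l 16660352))) (a (b (c (a (l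 16501960) (l 16489280)) (l 16521200)) (c (a (l 16556192) (b (l 16631168) (l 16647264))) (l 16584944))) (b (c (l 16621944) (a (l 16595520) (l 16644016))) (c (l 16645136) (b (a (l 16665712) (l 16693248)) (l 16635160)))))))) (b (a (l 15996368) (b (l 16249968) (l 16416144))) (a (b (l 16371048) (l 16474784)) (b (l 16522744) (a (l 16602592) (l 16613336)))))), by decide +kernel⟩

def k12_pp_012 : ∃ t, chk3 f_pp_012 t 63 14 1 = true :=
  ⟨(c (b (a (c (l 16407072) (a (b (l 16381576) (l 16565456)) (l 16534888))) (b (l 16637760) (a (l 16645696) (l 16581184)))) (a (c (b (a (l 16695968) (l 16671880)) (l 16686912)) (b (a (b (l 16683392) (l 16717688)) (l 16669280)) (a (l 16642792) (l 16692248)))) (b (c (l 16623664) (l 16621448)) (l 16626112)))) (b (a (c (c (a (b (l 16230608) (l 16480136)) (l 16449592)) (a (l 16477976) (b (b (l 16444872) (l 16493200)) (l 16469656)))) (l 16418472)) (c (b (l 16447360) (a (l 16474720) (l 16576904))) (a (a (b (l 16561632) (l 16595808)) (c (c (l 16473288) (b (l 16610704)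 (l 16616680))) (l 16556968))) (c (b (l 16666584) (l 16574912)) (b (b (l 16636392) (a (l 16655360) (l 16434568))) (a (c (l 16519880) (l 16582136)) (c (l 16557408) (a (l 16560232) (l 16550096))))))))) (a (c (a (b (c (a (l 16622240) (b (l 16708784) (l 16695200))) (l 16696832)) (c (a (l 16662576) (l 16648408)) (l 16681904))) (c (b (l 16603800) (l 16695784)) (b (a (c (l 16673800) (l 16675536)) (c (l 16648856) (l 16649304))) (c (l 16592336) (l 16695552))))) (b (l 16580608) (l 16687688))) (a (c (b (l 16629728) (l 16621616)) (c (a (b (l 16632728) (l 16704064)) (c (l 16674224) (b (l 16622184) (l 16709792)))) (l 16678656))) (c (l 16660208) (c (b (l 16586336) (l 16712720)) (a (c (b (l 16611920) (l 16651552)) (l 16663320)) (c (l 16652888) (b (l 16600768) (a (l 16710272) (l 16704328))))))))))), by decide +kernel⟩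

def k13_pp_012 : ∃ t, chk3 f_pp_012 t 60 15 1 = true :=
  ⟨(b (b (c (b (l 15998656) (l 16090360)) (l 15875048)) (c (c (b (c (l 16079000) (l 16131760)) (c (l 16067528) (b (l 16069328) (l 16007312)))) (a (l 15983760) (a (l 16092744) (l 16164984)))) (l 16000776))) (b (c (b (c (l 15968232) (c (b (l 15879680) (l 15777912)) (b (l 15817776) (a (l 15674920) (l 15778160))))) (a (c (l 15630048) (l 15511464)) (c (a (l 15714536) (b (l 15835496) (l 15737568))) (b (c (l 15710216) (l 15655056)) (l 15548776))))) (b (l 15646336) (c (a (c (b (l 15491416) (l 15350704)) (l 15346064)) (c (b (a (l 15552272) (l 15612200)) (a (l 15404984) (l 15471680))) (b (l 15502384) (l 15346320)))) (a (l 15245160) (l 15314888))))) (b (a (c (a (l 15309072) (b (l 15411088) (c (l 15391208) (l 15178976)))) (c (b (c (l 15186480) (l 15102568)) (b (l 15005376) (l 14915304))) (b (l 14963072) (c (a (l 14807840) (l 14812448)) (l 14702280))))) (b (c (c (a (l 15560576) (l 6)) (l 15412552)) (c (c (l 15278688) (b (l 15226752) (l 15142024)))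 (l 15030368))) (l 6))) (a (b (c (a (a (l 15103400) (l 15120408)) (c (b (l 15311408) (l 6)) (l 15037360))) (c (a (l 14760712) (l 14787880)) (c (c (l 14628448) (b (l 14622248) (l 14508632))) (l 14474376)))) (a (c (c (a (b (l 15129104) (l 15072064)) (l 15171808)) (l 14843184)) (c (l 14567720) (c (l 14359872) (c (l 14255984) (b (l 14246456) (l 14119688)))))) (l 6))) (l 6))))), by decide +kernel⟩

def k14_pp_012 : ∃ t, chk3 f_pp_012 t 61 15 1 = true :=
  ⟨(a (b (b (c (l 16166360) (l 16239168)) (c (b (c (c (l 16373400) (l 16364568)) (l 16353152)) (c (b (c (l 16341872) (l 16304872)) (a (l 16204560) (l 16297304))) (b (l 16247896) (c (a (l 16145968) (l 16241480)) (l 16142944))))) (b (l 16334816) (l 16122256)))) (b (b (c (c (a (l 16111016) (l 16161480)) (b (c (a (l 16058176) (l 16154528)) (l 16041472)) (c (l 16002344) (c (l 15961056) (l 15920208))))) (a (l 15808736) (l 15915552))) (l 6)) (l 6))) (b (c (b (b (l 16331120) (a (l 16409648) (c (l 16438808) (l 16496392)))) (b (c (c (a (b (l 16505552)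 (l 16528344)) (b (l 16488112) (l 6))) (l 16387432)) (l 16508408)) (a (b (c (b (l 16481984) (l 16450296)) (l 16402432)) (l 6)) (l 6)))) (b (l 16231848) (b (l 16482168) (l 16349800)))) (l 6))), by decide +kernel⟩

def k15_pp_012 : ∃ t, chk3 f_pp_012 t 31 15 1 = true :=
  ⟨(b (b (a (a (c (c (b (a (c (a (l 16500360) (l 16553128)) (l 16512840)) (c (l 16531120) (a (l 16573048) (l 16601224)))) (a (c (c (l 16452432) (l 16544584)) (l 16557456)) (l 6))) (b (l 16493352) (l 16563192))) (b (l 16528992) (l 16557504))) (l 6)) (l 6)) (l 6)) (l 6)), by decide +kernel⟩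

theorem s16_pp_012 : ∃ t, chk3 f_pp_012 t 30 15 1 = true := ex3_a k13_pp_012 k14_pp_012

theorem s17_pp_012 : ∃ t, chk3 f_pp_012 t 15 15 1 = true := ex3_a s16_pp_012 k15_pp_012

theorem s18_pp_012 : ∃ t, chk3 f_pp_012 t 31 14 1 = true := ex3_a k11_pp_012 k12_pp_012

theorem s19_pp_012 : ∃ t, chk3 f_pp_012 t 15 14 1 = true := ex3_a k10_pp_012 s18_pp_012

theorem s20_pp_012 : ∃ t, chk3 f_pp_012 t 15 7 1 = true := ex3_b s19_pp_012 s17_pp_012

theorem s21_pp_012 : ∃ t, chk3 f_pp_012 t 14 15 1 = true := ex3_b k8_pp_012 k9_pp_012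

theorem s22_pp_012 : ∃ t, chk3 f_pp_012 t 14 7 1 = true := ex3_b k7_pp_012 s21_pp_012

theorem s23_pp_012 : ∃ t, chk3 f_pp_012 t 7 7 1 = true := ex3_a s22_pp_012 s20_pp_012

theorem s24_pp_012 : ∃ t, chk3 f_pp_012 t 7 3 1 = true := ex3_b k6_pp_012 s23_pp_012

theorem s25_pp_012 : ∃ t, chk3 f_pp_012 t 7 1 1 = true := ex3_b k5_pp_012 s24_pp_012

theorem s26_pp_012 : ∃ t, chk3 f_pp_012 t 6 7 1 = true := ex3_b k3_pp_012 k4_pp_012

theorem s27_pp_012 : ∃ t, chk3 f_pp_012 t 6 3 1 = true := ex3_b k2_pp_012 s26_pp_012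

theorem s28_pp_012 : ∃ t, chk3 f_pp_012 t 6 1 1 = true := ex3_b k1_pp_012 s27_pp_012

theorem s29_pp_012 : ∃ t, chk3 f_pp_012 t 3 1 1 = true := ex3_a s28_pp_012 s25_pp_012

theorem s30_pp_012 : ∃ t, chk3 f_pp_012 t 1 1 1 = true := ex3_a k0_pp_012 s29_pp_012

theorem c_pp_012 : CertNX 0 536870912 0 536870912 1046898278 26843546 3 false true true .pnp 0 1 2
    ndN3q0 ndN0q2 pcN1 cut_pp_012 Ext.none :=
  certNX2 (fam := false) (s1 := true) (s2 := true) (a := 0) (b := 1) (c := 2) (cn := .pnp) (n1 := ndN3q0) (n2 := ndN0q2) (pc := pcN1) (cut := cut_pp_012) (xt := Ext.none) (P1 := 0) (W1 := 536870912) (P2 := 0) (W2 := 536870912) (P3 := 1046898278) (W3 := 26843546) (N0 := 3)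
    rfl (fun _ => rfl) s30_pp_012

noncomputable def cut_pp_022 : Cut := Cut.of [[⟨0, 0, 0, 67108864⟩, ⟨1, 1, 0, 67108864⟩, ⟨2, 1, 0, 67108864⟩, ⟨3, 0, 0, 1233125376⟩]]

noncomputable def f_pp_022 : ℕ → ℕ → ℕ → ℕ → Bool := onCell 0 536870912 0 536870912 1046898278 26843546
    (rowNX 3 0 false true true .pp 0 2 2 (qsf 0 536870912 0 536870912 2) ndN3q0 ndN0q2 pcN2 cut_pp_022 Ext.none)

def k0_pp_022 : ∃ t, chk3 f_pp_022 t 8 4 1 = true :=
  ⟨(a (a (b (a (c (b (l 15940720) (l 15988552)) (c (l 15797464) (b (l 15941560) (l 15949752)))) (b (c (a (l 16131744) (a (l 16244024) (b (l 16309040) (l 16318008)))) (a (l 16144328) (c (l 16183928) (l 16220952)))) (c (a (l 16138632) (a (b (l 16275688) (l 16237256)) (l 16201816))) (a (l 16132128) (a (b (l 16312192) (l 16337584)) (l 16354144)))))) (a (b (c (l 16030088) (c (l 16031608) (l 15953336))) (c (a (l 16133184) (b (l 16214664) (a (l 16254816) (l 16250816)))) (a (l 15999096) (b (c (l 16229856) (l 16244624)) (a (l 16224712) (c (l 16316760) (l 16334736)))))))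 (b (c (a (b (l 16132984) (a (l 16250760) (l 16237928))) (b (l 16277344) (l 16319488))) (a (b (l 16170608) (a (l 16292408) (l 16282840))) (b (l 16353864) (l 16353944)))) (c (a (b (b (l 16152536) (l 16306560)) (l 16305072)) (l 16312048)) (a (b (c (l 16277264) (l 16342816)) (l 16344976)) (l 16345976)))))) (b (c (c (l 16339904) (l 16351736)) (c (l 16349416) (l 16346984))) (c (c (l 16335784) (l 16347336)) (b (l 16349760) (l 16338320))))) (b (c (a (c (l 16359320) (l 16357832)) (b (b (l 16386400) (l 16377288)) (l 16375448))) (a (l 16356416) (b (l 16379928) (l 16369360)))) (c (c (a (l 16347440) (l 16358472)) (a (l 16345520) (l 16355288))) (a (l 16301520) (l 16329032))))), by decide +kernel⟩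

def k1_pp_022 : ∃ t, chk3 f_pp_022 t 8 5 1 = true :=
  ⟨(a (b (a (b (a (a (b (c (l 16245880) (c (l 16240104) (l 16162416))) (c (a (l 16299176) (l 16318464)) (a (b (l 16276824) (l 16313504)) (b (l 16278832) (l 16324744))))) (c (b (a (l 16304384) (l 16302336)) (l 16299368)) (b (c (l 16192224) (l 16250504)) (l 16318616)))) (c (l 16295520) (l 16326440))) (c (a (b (l 16303864) (l 16287800)) (l 16245440)) (a (a (b (c (l 16316776) (l 16324248)) (l 16302792)) (l 16268928)) (l 16295696)))) (c (b (l 16311744) (l 16237728)) (b (l 16316408) (l 16282584)))) (c (a (b (a (l 16256024) (l 16182368)) (a (l 16201056) (l 16125376))) (b (l 16192656) (l 16090784))) (a (a (c (b (l 16261776) (l 16204728)) (b (l 16228336) (l 16190840))) (c (l 16204080) (l 16222760))) (b (l 16235184) (l 16172288))))) (b (c (a (b (l 16315744) (l 16279896)) (b (l 16300280) (a (l 16280184) (l 16301656)))) (a (l 16249344) (b (l 16312160) (l 16281816)))) (b (c (a (l 16231064) (a (l 16241744) (l 16283512))) (a (l 16221288) (l 16251096)))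 (c (a (c (l 16178288) (l 16171984)) (l 16125584)) (a (l 16163240) (l 16216256)))))), by decide +kernel⟩

def k2_pp_022 : ∃ t, chk3 f_pp_022 t 9 2 1 = true :=
  ⟨(c (b (a (b (a (b (b (l 16124536) (a (l 16424704) (l 16261056))) (l 16260120)) (b (a (l 15972840) (l 15739024)) (l 15730336))) (a (b (l 16231048) (l 16229648)) (l 15817448))) (b (a (b (c (l 15380912) (l 15359392)) (a (b (l 15547056) (l 15570144)) (l 15391296))) (b (l 15082488) (l 15212352))) (a (a (l 15599256) (l 15453528)) (l 15303208)))) (a (b (a (b (l 16297072) (l 16392744)) (l 15872120)) (a (b (l 16361032) (l 16290200)) (b (l 16104136) (l 16151056)))) (b (a (a (l 15674032) (l 15544496)) (l 15420664)) (a (b (l 15671680) (a (l 15867504) (l 15756088))) (b (l 15548576) (l 15663384)))))) (b (a (b (a (b (a (l 16404016) (l 16204000)) (l 16338032)) (b (l 15850528) (l 15915624))) (a (a (l 16290320) (l 16187080)) (l 15898472))) (b (a (b (l 15320768) (a (l 15513672) (l 15345192))) (b (l 15020632) (b (l 15123984) (l 15184496)))) (a (a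 (l 15560912) (l 15409616)) (l 15253728)))) (a (b (a (a (l 16272760) (l 16330728)) (l 15933904)) (a (b (l 16401160) (l 16327160)) (b (l 16084840) (l 16176664)))) (b (a (a (l 15638232) (l 15503720)) (l 15375264)) (a (a (l 15660288) (l 15666744)) (l 15543192)))))), by decide +kernel⟩

def k3_pp_022 : ∃ t, chk3 f_pp_022 t 5 2 1 = true :=
  ⟨(a (a (b (b (a (c (l 14837288) (c (l 14832568) (l 14798704))) (c (l 14604080) (c (l 14548320) (l 14510376)))) (b (c (a (l 15040192) (l 14792984)) (a (l 14980984) (b (l 14705624) (l 14750632)))) (c (l 15005360) (l 14944784)))) (a (b (c (l 15234896) (l 15182576)) (c (b (l 15388472) (l 15519648)) (l 15343512))) (b (c (l 510593799399) (l 14972840)) (l 1)))) (b (b (l 1) (l 1)) (l 1))) (l 1)), by decide +kernel⟩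

def k4_pp_022 : ∃ t, chk3 f_pp_022 t 16 12 1 = true :=
  ⟨(c (a (c (b (l 16107600) (l 16016040)) (a (l 15953624) (b (l 16100440) (l 16005800)))) (b (c (l 16099760) (l 16105280)) (a (l 15925792) (l 16016976)))) (a (c (a (b (l 16130056) (l 16035216)) (l 15944768)) (a (b (l 16093424) (l 15975440)) (l 16043704))) (b (c (l 16096576) (l 16087672)) (c (l 16007576) (l 15996632))))), by decide +kernel⟩

def k5_pp_022 : ∃ t, chk3 f_pp_022 t 32 26 1 = true :=
  ⟨(c (a (b (l 15978008) (l 16002000)) (c (l 15901120) (l 15960104))) (a (c (b (l 15973744) (l 15998104)) (a (l 15993176) (l 15981152))) (c (l 15974984) (l 15966704)))), by decide +kernel⟩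

def k6_pp_022 : ∃ t, chk3 f_pp_022 t 32 27 1 = true :=
  ⟨(b (a (c (b (l 16022032) (a (a (a (b (l 16066704) (c (l 16075104) (l 16065120))) (l 16059152)) (l 16043464)) (l 16013776))) (a (b (l 16003760) (a (a (c (l 16051264) (l 16041032)) (l 16039480)) (l 16030104))) (c (l 16013104) (l 16021296)))) (c (c (l 15982200) (l 15999672)) (l 16008632))) (a (c (c (b (a (b (a (c (l 16065848) (l 16060720)) (c (l 16055112) (l 16049880))) (l 16039720)) (b (a (l 16035600) (l 16016808)) (a (l 16034048) (l 16018936)))) (a (c (l 16015584) (l 16009920)) (b (c (l 16018840) (l 16013176)) (l 16002768)))) (b (a (b (a (l 16052976) (l 16041832)) (l 16028936)) (b (l 15975408) (a (l 16023104) (l 16011200)))) (a (l 16001352) (a (l 15999488) (l 16000840))))) (c (a (b (b (a (l 16042536) (l 16031848)) (l 16018696)) (l 15990496)) (b (a (b (l 16025520) (l 16023680)) (l 16024064)) (a (l 15999528) (l 16016240)))) (a (b (b (a (l 16034200) (l 16033792)) (l 15930384)) (c (l 15988360) (l 15988968))) (b (c (l 16034800) (l 16030376))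 (c (l 16022904) (l 16018288)))))) (b (c (c (l 15997264) (l 16014848)) (l 16023984)) (c (b (a (a (c (l 16002160) (l 16009056)) (a (b (l 16005152) (c (a (l 15995384) (l 15993552)) (l 16016304))) (l 16006624))) (l 16011520)) (a (a (c (a (b (l 15998800) (l 15993304)) (b (l 15994912) (l 15968384))) (a (l 15995944) (l 16002896))) (c (c (l 15989072) (l 15993168)) (l 16016792))) (c (c (l 15991704) (l 16008024)) (l 16032112)))) (a (c (b (a (l 16037104) (b (l 16041056) (l 16041968))) (a (l 15986368) (l 16039880))) (b (a (l 16033080) (l 16029496)) (a (l 16024064) (l 16028424)))) (c (l 16034880) (l 16021768))))))), by decide +kernel⟩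

def k7_pp_022 : ∃ t, chk3 f_pp_022 t 33 13 1 = true :=
  ⟨(c (b (b (a (l 15956176) (l 15968440)) (l 15986712)) (a (b (l 16009192) (l 16025576)) (l 16023648))) (b (b (l 15946968) (l 15974720)) (a (l 16009888) (l 16004384)))), by decide +kernel⟩

def k8_pp_022 : ∃ t, chk3 f_pp_022 t 17 6 1 = true :=
  ⟨(b (c (b (a (c (l 16119792) (l 16112040)) (c (l 16183696) (l 16175768))) (a (c (l 16047280) (l 16037792)) (c (l 16102984) (l 16093160)))) (b (a (l 16038160) (l 16163248)) (a (l 16024192) (l 16077760)))) (b (c (a (b (l 15989776) (l 16011480)) (c (l 16029488) (l 16039256))) (a (b (l 15968200) (l 15990304)) (l 16021744))) (c (a (l 15993312) (c (l 16074880) (l 16063688))) (a (l 16014296) (l 16046176))))), by decide +kernel⟩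

def k9_pp_022 : ∃ t, chk3 f_pp_022 t 9 6 1 = true :=
  ⟨(a (c (b (a (b (l 16206208) (l 16112944)) (b (l 16167496) (l 16223016))) (a (b (b (l 16189792) (l 16243312)) (l 16127552)) (b (l 67141570087) (l 16435752)))) (b (a (b (l 16219048) (l 16163376)) (b (l 16176184) (l 16258048))) (a (b (l 16012560) (l 16153344)) (b (l 165925833831) (l 16434800))))) (b (b (a (c (a (l 15994616) (l 15889744)) (a (l 15969792) (l 15860872))) (c (l 15808840) (l 15776904))) (a (c (a (l 16159704) (l 16060984)) (a (l 16140536) (l 16038008))) (l 1))) (a (a (b (c (l 16198912) (l 16247312)) (l 1)) (l 1)) (l 1)))), by decide +kernel⟩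

def k10_pp_022 : ∃ t, chk3 f_pp_022 t 5 6 1 = true :=
  ⟨(l 1), by decide +kernel⟩

def k11_pp_022 : ∃ t, chk3 f_pp_022 t 32 28 2 = true :=
  ⟨(b (a (a (b (c (c (l 15971352) (l 15986392)) (l 15977416)) (c (b (a (l 15958592) (a (b (l 15983160) (l 15981888)) (b (l 15983984) (l 15981608)))) (a (a (c (l 15959288) (l 15953216)) (b (l 15958760) (a (l 15957792) (l 15978544)))) (c (c (a (l 15962200) (l 15981600)) (l 15958776)) (l 15954192)))) (b (a (l 15967384) (a (l 15970216) (l 15970400))) (a (a (l 15964968) (b (l 15967520) (l 15966368))) (l 15965920))))) (b (c (a (b (l 15993976) (a (b (l 15988800) (l 15986016)) (b (l 15987976) (l 15984432)))) (b (a (b (l 15994048) (l 15989848)) (b (l 15991624) (l 15987016))) (c (l 15985016) (l 15979128)))) (a (b (l 15982112) (a (l 15975216) (l 15973944))) (b (a (l 15980312) (l 15981616)) (l 15973464)))) (c (c (b (a (c (l 15984480) (l 15981800)) (l 15956672)) (l 15953616)) (l 15971824)) (a (l 15964920) (l 15963304))))) (c (a (b (c (c (l 15979360) (l 15977520))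 (l 15979416)) (c (l 15964856) (l 15966368))) (c (b (c (l 15984144) (l 15991720)) (l 15974728)) (b (l 16004768) (l 15992200)))) (a (b (l 15994840) (l 15981672)) (b (l 16028944) (l 16016520))))) (a (c (b (a (c (a (a (b (b (l 15959104) (l 15978432)) (l 15955368)) (l 15955680)) (l 15953808)) (b (l 15972264) (l 15970256))) (c (l 15968800) (l 15964928))) (c (c (l 15949960) (a (l 15952648) (l 15967096))) (a (l 15949800) (l 15965416)))) (a (b (c (l 15964736) (l 15958480)) (l 15961720)) (c (l 15958552) (l 15955568)))) (c (c (a (l 15956112) (l 15967832)) (a (b (l 15939600) (l 15961832)) (l 15987512))) (c (a (b (l 15968496) (l 15971448)) (l 15986768)) (a (l 15983392) (l 16021808)))))), by decide +kernel⟩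

def k12_pp_022 : ∃ t, chk3 f_pp_022 t 32 28 3 = true :=
  ⟨(c (a (b (a (b (l 15966016) (a (b (l 15955040) (a (l 15952536) (l 15954216))) (b (a (l 15957912) (l 15959088)) (l 15954128)))) (b (a (b (l 15981752) (a (l 15968952) (l 15976192))) (b (a (l 15993584) (l 16005544)) (l 15988248))) (a (l 15964112) (l 15977816)))) (a (b (a (l 15949680) (l 15948696)) (l 15949704)) (c (l 15959696) (l 15968576)))) (b (b (a (l 16017536) (l 16033600)) (l 16011456)) (c (l 16010144) (l 16009704)))) (a (b (a (b (c (l 15963464) (l 15963792)) (a (b (l 15944768) (c (l 15944112) (l 15922120))) (b (c (l 15960400) (l 15963896)) (l 15954232)))) (b (a (c (l 15949104) (l 15987008)) (b (l 16006080) (l 15997136))) (l 15938064))) (a (b (c (l 15946752) (a (l 15939416) (l 15953704))) (c (l 15946680) (l 15946680))) (c (l 15975456) (l 15970224)))) (a (b (l 16003032) (l 15992000)) (b (l 16015824) (l 16004512))))), by decide +kernel⟩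

def k13_pp_022 : ∃ t, chk3 f_pp_022 t 33 28 1 = true :=
  ⟨(b (b (c (a (c (c (a (l 16012952) (l 16035816)) (a (l 16030952) (l 16044632))) (a (l 16040664) (l 16039848))) (l 16035024)) (a (c (l 16027096) (l 16014408)) (l 16015600))) (a (c (c (a (l 15954592) (l 16039256)) (a (l 16036336) (l 16041072))) (c (l 16026584) (l 16013744))) (c (a (c (l 16044072) (l 16035544)) (l 16038056)) (a (l 16015664) (l 16014648))))) (c (c (a (c (l 16018224) (l 16032744)) (b (a (l 16046472) (l 16043848)) (l 16049984))) (a (c (a (l 16015768) (l 16044568)) (b (l 16037104) (l 16043688))) (b (c (l 16038888) (l 16032176)) (l 16042464)))) (a (c (l 16007440) (l 16015416)) (c (b (l 16022184) (l 16031272)) (b (l 16009440) (l 16018808)))))), by decide +kernel⟩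

def k14_pp_022 : ∃ t, chk3 f_pp_022 t 17 28 1 = true :=
  ⟨(a (b (c (l 16041976) (l 16020544)) (a (c (a (c (b (l 16040680) (l 16044784)) (l 16031456)) (b (l 16036264) (c (l 16039248) (l 16026864)))) (c (b (l 15954520) (c (l 16021480) (l 16015176))) (b (l 16004328) (l 16005904)))) (b (l 16030984) (a (c (c (l 16038960) (l 16026144)) (c (l 16013304) (l 16000728))) (l 16026624))))) (c (b (l 16070040) (l 16059296)) (l 16040776))), by decide +kernel⟩

def k15_pp_022 : ∃ t, chk3 f_pp_022 t 16 58 1 = true :=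
  ⟨(c (a (c (a (c (b (a (l 15959576) (l 15953776)) (a (l 16019032) (l 16014360))) (b (a (b (l 15954856) (l 15986760)) (l 15975768)) (a (c (l 16022328) (l 16023592)) (l 16017720)))) (a (b (c (l 15965568) (l 15972608)) (c (l 16006320) (l 16015080))) (b (l 15990240) (l 16032968)))) (a (a (b (l 15973472) (c (l 16021912) (l 16016648))) (c (b (l 15973288) (l 16018696)) (b (l 15970792) (l 16018448)))) (c (b (a (c (l 15980464) (l 15987872)) (l 16024824)) (a (l 16030312) (l 16070624))) (a (b (l 16000872) (l 16049360)) (b (l 16041208) (l 16090024)))))) (c (a (b (c (l 16032344) (l 16048968)) (c (l 16076008) (l 16094240))) (b (c (l 16023872) (l 16065120)) (a (l 16069624) (l 16114312)))) (a (c (b (l 16059112) (l 16106128)) (b (l 16060600) (l 16110104))) (b (l 16060488) (l 16110856))))) (a (a (c (a (b (l 15961552) (l 16008392)) (c (b (l 15974960) (l 16022992)) (b (l 15983904) (l 16032304)))) (a (c (b (l 15958600) (l 16005992)) (b (l 15958656) (l 16006408))) (c (l 16013896) (l 16008888)))) (c (b (a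 (l 16016640) (l 16038248)) (a (l 16066216) (l 16089192))) (b (l 16017992) (l 16069040)))) (c (a (c (b (l 16054888) (l 16106640)) (l 16072952)) (c (b (l 16054544) (l 16107768)) (b (l 16049584) (l 16104728)))) (a (b (l 16038928) (l 16092752)) (l 16046528))))), by decide +kernel⟩

def k16_pp_022 : ∃ t, chk3 f_pp_022 t 17 58 1 = true :=
  ⟨(a (a (c (c (b (a (l 16060904) (l 16053296)) (a (l 16112384) (c (l 16108800) (l 16104576)))) (b (c (l 16049824) (l 16044360)) (c (a (l 16106536) (l 16099040)) (l 16098632)))) (c (c (b (l 16039528) (l 16094944)) (b (l 16034336) (l 16091168))) (b (l 16025832) (l 16084744)))) (a (c (c (b (b (l 16037264) (l 16049272)) (l 16097440)) (b (c (l 16035496) (l 16029160)) (c (l 16088568) (l 16082792)))) (c (b (l 16020080) (c (l 16077352) (l 16072472))) (b (l 16008000) (c (l 16067632) (l 16062552))))) (b (b (l 16019792) (c (c (l 16040824) (l 16028472)) (c (l 16015608) (l 16002944)))) (c (c (l 16084048) (l 16072360)) (c (b (l 16040728) (l 16077336)) (c (l 15967688) (l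 16003824))))))) (b (c (l 16047832) (l 16022024)) (a (a (c (a (l 16045696) (l 422549298343)) (c (l 16046712) (c (l 16037336) (b (l 15994640) (l 16042432))))) (b (l 16044296) (l 1))) (l 1)))), by decide +kernel⟩

def k17_pp_022 : ∃ t, chk3 f_pp_022 t 8 59 1 = true :=
  ⟨(b (a (c (a (c (a (c (a (l 16072096) (l 16068456)) (l 16076568)) (a (c (l 16061448) (l 16072064)) (l 16090056))) (a (c (a (c (l 16082208) (l 16082544)) (l 16078368)) (a (l 16079608) (l 16081864))) (c (l 16110920) (a (l 16112648) (l 16153280))))) (a (c (a (l 16088184) (c (l 16152944) (l 16167768))) (l 16169760)) (c (a (l 16133056) (l 16180456)) (a (l 16176792) (l 16176048))))) (a (a (c (a (l 16072120) (a (l 16083272) (l 16100664))) (a (c (l 16070480) (a (l 16062576) (l 16079688))) (c (l 16105352) (l 16101072)))) (c (a (l 16132424) (l 16156200)) (l 16074040))) (c (a (c (l 16173304) (l 16170016)) (c (l 16175336) (l 16174896))) (a (l 16163184) (l 16169800))))) (a (c (a (c (a (c (l 16182472) (l 16179584)) (l 16178600)) (a (c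 (l 16175696) (l 16171720)) (c (l 16171232) (l 16166040)))) (c (l 16165384) (c (l 16157856) (l 16152632)))) (a (c (a (l 16168648) (c (l 16161920) (l 16158856))) (c (l 16161136) (l 16157816))) (c (a (b (l 16130304) (l 16171440)) (l 16137256)) (a (c (l 16060152) (b (l 16119552) (l 16160872))) (c (l 16129336) (b (l 16103104) (l 16146096))))))) (a (a (c (l 636224020487) (l 16113560)) (l 1)) (l 1)))) (a (l 6) (a (l 6) (l 1)))), by decide +kernel⟩

def k18_pp_022 : ∃ t, chk3 f_pp_022 t 8 15 1 = true :=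
  ⟨(a (l 6) (a (l 6) (l 1))), by decide +kernel⟩

def k19_pp_022 : ∃ t, chk3 f_pp_022 t 9 7 1 = true :=
  ⟨(b (a (b (a (c (b (l 16269032) (l 16234072)) (b (l 16272872) (l 16257832))) (l 1)) (l 1)) (l 1)) (l 1)), by decide +kernel⟩

def k20_pp_022 : ∃ t, chk3 f_pp_022 t 5 7 1 = true :=
  ⟨(l 1), by decide +kernel⟩

def k21_pp_022 : ∃ t, chk3 f_pp_022 t 3 1 1 = true :=
  ⟨(l 1), by decide +kernel⟩

theorem s22_pp_022 : ∃ t, chk3 f_pp_022 t 8 58 1 = true := ex3_a k15_pp_022 k16_pp_022

theorem s23_pp_022 : ∃ t, chk3 f_pp_022 t 8 29 1 = true := ex3_b s22_pp_022 k17_pp_022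

theorem s24_pp_022 : ∃ t, chk3 f_pp_022 t 32 28 1 = true := ex3_c k11_pp_022 k12_pp_022

theorem s25_pp_022 : ∃ t, chk3 f_pp_022 t 16 28 1 = true := ex3_a s24_pp_022 k13_pp_022

theorem s26_pp_022 : ∃ t, chk3 f_pp_022 t 8 28 1 = true := ex3_a s25_pp_022 k14_pp_022

theorem s27_pp_022 : ∃ t, chk3 f_pp_022 t 8 14 1 = true := ex3_b s26_pp_022 s23_pp_022

theorem s28_pp_022 : ∃ t, chk3 f_pp_022 t 8 7 1 = true := ex3_b s27_pp_022 k18_pp_022

theorem s29_pp_022 : ∃ t, chk3 f_pp_022 t 4 7 1 = true := ex3_a s28_pp_022 k19_pp_022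

theorem s30_pp_022 : ∃ t, chk3 f_pp_022 t 2 7 1 = true := ex3_a s29_pp_022 k20_pp_022

theorem s31_pp_022 : ∃ t, chk3 f_pp_022 t 32 13 1 = true := ex3_b k5_pp_022 k6_pp_022

theorem s32_pp_022 : ∃ t, chk3 f_pp_022 t 16 13 1 = true := ex3_a s31_pp_022 k7_pp_022

theorem s33_pp_022 : ∃ t, chk3 f_pp_022 t 16 6 1 = true := ex3_b k4_pp_022 s32_pp_022

theorem s34_pp_022 : ∃ t, chk3 f_pp_022 t 8 6 1 = true := ex3_a s33_pp_022 k8_pp_022

theorem s35_pp_022 : ∃ t, chk3 f_pp_022 t 4 6 1 = true := ex3_a s34_pp_022 k9_pp_022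

theorem s36_pp_022 : ∃ t, chk3 f_pp_022 t 2 6 1 = true := ex3_a s35_pp_022 k10_pp_022

theorem s37_pp_022 : ∃ t, chk3 f_pp_022 t 2 3 1 = true := ex3_b s36_pp_022 s30_pp_022

theorem s38_pp_022 : ∃ t, chk3 f_pp_022 t 8 2 1 = true := ex3_b k0_pp_022 k1_pp_022

theorem s39_pp_022 : ∃ t, chk3 f_pp_022 t 4 2 1 = true := ex3_a s38_pp_022 k2_pp_022

theorem s40_pp_022 : ∃ t, chk3 f_pp_022 t 2 2 1 = true := ex3_a s39_pp_022 k3_pp_022

theorem s41_pp_022 : ∃ t, chk3 f_pp_022 t 2 1 1 = true := ex3_b s40_pp_022 s37_pp_022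

theorem s42_pp_022 : ∃ t, chk3 f_pp_022 t 1 1 1 = true := ex3_a s41_pp_022 k21_pp_022

theorem c_pp_022 : CertNX 0 536870912 0 536870912 1046898278 26843546 3 false true true .pp 0 2 2
    ndN3q0 ndN0q2 pcN2 cut_pp_022 Ext.none :=
  certNX0 (fam := false) (s1 := true) (s2 := true) (a := 0) (b := 2) (c := 2) (cn := .pp) (n1 := ndN3q0) (n2 := ndN0q2) (pc := pcN2) (cut := cut_pp_022) (xt := Ext.none) (P1 := 0) (W1 := 536870912) (P2 := 0) (W2 := 536870912) (P3 := 1046898278) (W3 := 26843546) (N0 := 3)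
    rfl s42_pp_022

noncomputable def cut_pp_101 : Cut := Cut.of [[⟨0, 1, 0, 67108864⟩, ⟨1, 0, 0, 67108864⟩, ⟨2, 1, 0, 67108864⟩]]

noncomputable def f_pp_101 : ℕ → ℕ → ℕ → ℕ → Bool := onCell 536870912 536870912 536870912 536870912 1046898278 26843546
    (rowNX 3 0 false true true .npn 1 0 1 (qsf 536870912 536870912 536870912 536870912 0) ndN3q1 ndN0q1 pcN0 cut_pp_101 Ext.none)

def k0_pp_101 : ∃ t, chk3 f_pp_101 t 1 2 1 = true :=
  ⟨(l 3), by decide +kernel⟩

def k1_pp_101 : ∃ t, chk3 f_pp_101 t 1 6 1 = true :=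
  ⟨(l 3), by decide +kernel⟩

def k2_pp_101 : ∃ t, chk3 f_pp_101 t 1 14 1 = true :=
  ⟨(l 3), by decide +kernel⟩

def k3_pp_101 : ∃ t, chk3 f_pp_101 t 1 30 1 = true :=
  ⟨(l 3), by decide +kernel⟩

def k4_pp_101 : ∃ t, chk3 f_pp_101 t 1 62 1 = true :=
  ⟨(a (l 3) (l 3)), by decide +kernel⟩

def k5_pp_101 : ∃ t, chk3 f_pp_101 t 1 63 1 = true :=
  ⟨(b (a (l 3) (l 3)) (a (b (a (l 3) (l 3)) (b (a (l 3) (l 3)) (a (c (a (l 15412120) (l 15412120)) (a (l 15363024) (c (l 15376264) (l 15350992)))) (c (a (l 15412120) (l 280411717015)) (a (c (l 15376264) (l 270210829847)) (c (l 15376264) (c (l 15358112) (l 15324704)))))))) (a (b (l 3) (b (l 3) (b (a (l 3) (l 3)) (b (a (l 3) (l 3)) (a (a (c (a (l 15409128) (l 15362240)) (a (l 15360752) (c (l 15324800) (l 15299096)))) (c (l 302960087799) (c (l 15279712) (c (l 15260000) (l 15246456))))) (b (a (l 3) (l 3)) (a (c (l 15353840) (c (l 15316168) (l 15290480))) (a (c (a (a (l 15375480) (l 15363584)) (l 15459904)) (a (a (l 15325784) (a (l 15329680) (l 315844977207)))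 (l 15413568))) (c (l 15632888) (c (l 15603424) (l 15583320))))))))))) (b (l 3) (b (l 3) (a (b (l 3) (b (l 3) (b (a (l 3) (l 3)) (b (a (l 3) (l 3)) (a (c (a (a (l 15811456) (l 15916528)) (a (l 15987776) (c (a (l 16015072) (l 16014688)) (l 16012992)))) (a (a (l 15778760) (l 15887768)) (a (l 15961608) (c (l 16000464) (l 15987736))))) (a (c (c (c (l 15951280) (l 15944368)) (l 15933912)) (c (l 15919832) (l 15905512))) (c (a (a (l 15871632) (a (l 15850536) (l 15848832))) (c (l 298666205143) (l 15870416))) (a (c (l 15837496) (l 284170507175)) (c (l 15855080) (l 15797520)))))))))) (a (b (l 3) (b (l 3) (b (l 3) (a (a (a (a (b (l 3) (c (c (c (a (a (a (a (l 15913344) (l 6)) (l 6)) (l 6)) (l 6)) (l 15918024)) (l 15907152)) (c (l 15892472) (l 15877504)))) (l 6)) (l 6)) (l 6)) (l 6))))) (l 6)))))))), by decide +kernel⟩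

theorem s6_pp_101 : ∃ t, chk3 f_pp_101 t 1 31 1 = true := ex3_b k4_pp_101 k5_pp_101

theorem s7_pp_101 : ∃ t, chk3 f_pp_101 t 1 15 1 = true := ex3_b k3_pp_101 s6_pp_101

theorem s8_pp_101 : ∃ t, chk3 f_pp_101 t 1 7 1 = true := ex3_b k2_pp_101 s7_pp_101

theorem s9_pp_101 : ∃ t, chk3 f_pp_101 t 1 3 1 = true := ex3_b k1_pp_101 s8_pp_101

theorem s10_pp_101 : ∃ t, chk3 f_pp_101 t 1 1 1 = true := ex3_b k0_pp_101 s9_pp_101

theorem c_pp_101 : CertNX 536870912 536870912 536870912 536870912 1046898278 26843546 3 false true true .npn 1 0 1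
    ndN3q1 ndN0q1 pcN0 cut_pp_101 Ext.none :=
  certNX0 (fam := false) (s1 := true) (s2 := true) (a := 1) (b := 0) (c := 1) (cn := .npn) (n1 := ndN3q1) (n2 := ndN0q1) (pc := pcN0) (cut := cut_pp_101) (xt := Ext.none) (P1 := 536870912) (W1 := 536870912) (P2 := 536870912) (W2 := 536870912) (P3 := 1046898278) (W3 := 26843546) (N0 := 3)
    rfl s10_pp_101

end Pool.Agent.Strip051.G.IE1.Tab.C.NB30

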