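import Pool.Agent.Strip051.G.IE1.Tab

/-! # Certificates N70 (generated) -/

set_option linter.all false
set_option maxRecDepth 100000

namespace Pool.Agent.Strip051.G.IE1.Tab.C.NB30

open Pool.Agent.Strip051.PB Pool.Agent.Strip051.PB.T
open Pool.Agent.Strip051.G.IE1.Tab

noncomputable def cut_pp_102 : Cut := Cut.of [[⟨0, 1, 0, 67108864⟩, ⟨1, 0, 0, 67108864⟩, ⟨2, 1, 0, 67108864⟩]]

noncomputable def f_pp_102 : ℕ → ℕ → ℕ → ℕ → Bool := onCell 0 536870912 0 536870912 1046898278 26843546
    (rowNX 3 2 false true true .npp 1 0 2 (qsf 536870912 536870912 0 536870912 0) ndN3q1 ndN0q2 pcN0 cut_pp_102 Ext.none)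

def k0_pp_102 : ∃ t, chk3 f_pp_102 t 4 2 1 = true :=
  ⟨(a (l 2) (a (l 2) (b (l 2) (b (l 2) (b (l 2) (a (l 2) (c (l 13337848) (l 13244216)))))))), by decide +kernel⟩

def k1_pp_102 : ∃ t, chk3 f_pp_102 t 8 3 1 = true :=
  ⟨(b (l 2) (a (b (l 2) (l 6)) (b (b (b (l 2) (a (l 2) (a (l 2) (c (c (c (l 15185400) (l 15167664)) (l 15157048)) (c (l 15128496) (b (l 15071640) (a (l 6) (l 15184776)))))))) (a (l 6) (a (l 6) (a (l 6) (a (l 6) (a (l 6) (c (b (b (l 15276680) (c (l 15418184) (l 15466272))) (c (l 15558584) (l 15810040))) (b (c (b (l 15316400) (l 15540576)) (l 15498192)) (l 15915472))))))))) (a (l 6) (a (l 6) (a (l 6) (a (l 6) (a (l 6) (a (l 6) (a (l 6) (a (l 6) (a (l 6) (b (c (b (b (l 16125344) (l 16191776)) (c (b (c (l 16393672) (l 16494744)) (l 16380864)) (c (l 16427936) (l 16562424)))) (b (b (l 16266448) (l 16455592)) (l 16573776))) (c (b (c (b (l 16441112) (c (l 16320848) (l 16272424))) (b (c (l 16319624) (l 16407888)) (l 16218576))) (c (b (c (l 16149704) (l 16116368)) (c (b (l 16005992)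 (c (b (l 15951016) (l 15912504)) (l 15946160))) (l 15976024))) (b (l 16109536) (l 15966000)))) (b (b (l 16388504) (c (c (b (l 16299104) (l 16229344)) (l 16248616)) (l 16240728))) (b (c (c (l 16110232) (b (c (l 16151208) (l 16144240)) (l 16066872))) (b (l 16131288) (c (c (b (l 16085408) (l 16049000)) (l 16058600)) (l 16053352)))) (c (l 15953408) (c (b (c (l 15986720) (b (l 16005344) (l 15963848))) (l 15905872)) (b (b (l 15996264) (c (l 15961368) (l 15956144))) (c (b (c (l 15922584) (b (l 15931920) (l 15910848))) (l 15881536)) (b (l 15917808) (c (b (l 15889080) (l 15869232)) (b (l 15887432) (c (l 15868024) (l 15866800))))))))))))))))))))))))), by decide +kernel⟩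

def k2_pp_102 : ∃ t, chk3 f_pp_102 t 9 6 1 = true :=
  ⟨(a (b (l 2) (b (a (l 2) (c (l 13858808) (a (l 13908752) (b (l 13650272) (c (l 13793360) (l 13782064)))))) (a (a (l 2) (c (l 14308952) (b (l 14299152) (c (l 14464416) (a (l 14483792) (l 14409544)))))) (c (a (b (l 14177376) (c (l 14320888) (l 14317832))) (b (c (l 13988976) (l 13980840)) (c (b (l 14115424) (l 14241504)) (l 14118632)))) (a (b (c (l 14117696) (l 13855512)) (c (a (l 14341312) (l 14305648)) (l 14350704))) (b (c (l 13995512) (l 14012632)) (c (l 14272048) (l 14293528)))))))) (b (a (a (b (l 2) (c (l 13526208) (b (l 2) (l 13426120)))) (b (l 13372496) (c (l 13434064) (b (l 13338480) (l 13394112))))) (c (b (l 13381408) (c (a (l 13436472) (l 13499592)) (l 13306880))) (b (a (b (l 13264576) (l 13306352)) (b (l 13285528) (l 13372800))) (c (a (l 13441176) (l 13562248)) (l 13505632))))) (a (b (a (c (b (l 13548672) (c (l 13634424) (l 13673168))) (b (c (l 13500824) (a (l 13498040) (l 13456200))) (c (l 13691496) (l 13707520)))) (c (b (l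 13511224) (c (l 13681664) (l 13716576))) (c (l 13648216) (l 13654928)))) (a (c (a (b (c (l 13874280) (l 13906336)) (l 14161496)) (b (a (l 13866024) (l 13869768)) (a (l 14137296) (l 14096752)))) (a (c (l 14093992) (l 14105768)) (a (l 14067864) (l 14061960)))) (c (b (l 13961656) (c (l 14174072) (l 14245816))) (b (l 14013912) (l 14243952))))) (b (c (b (c (a (l 13574768) (l 13704032)) (l 13685944)) (c (l 13888368) (l 13930872))) (l 13821232)) (c (b (c (l 14119528) (l 14170464)) (a (l 14312040) (l 14375304))) (b (l 14148776) (l 14332232))))))), by decide +kernel⟩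

def k3_pp_102 : ∃ t, chk3 f_pp_102 t 18 14 1 = true :=
  ⟨(a (c (b (a (c (b (l 14885216) (a (l 15085752) (l 14991888))) (b (l 14862808) (b (l 14970728) (l 14905288)))) (b (c (l 14664064) (a (l 14700680) (l 14621760))) (c (a (l 14916688) (b (l 14787128) (l 14927984))) (b (a (l 14867400) (l 14837048)) (l 15011768))))) (b (b (a (c (l 15144032) (a (l 15264672) (l 15227520))) (a (l 15009936) (l 15105432))) (a (a (c (l 15397824) (l 15459592)) (l 15305216)) (c (l 15261680) (l 15352560)))) (a (c (b (l 15406320) (l 15677560)) (l 15583984)) (c (l 15539944) (l 15632944))))) (b (a (b (c (l 14840936) (b (l 14762024) (a (l 14897328) (l 14829688)))) (c (a (b (l 15024280) (l 15148952)) (b (l 14956776) (l 15116360))) (b (a (l 15024528) (l 14991608)) (l 15183752)))) (b (c (b (l 14610592) (l 14668216)) (a (l 14685032) (l 14699248))) (c (b (l 14916904) (l 15081240)) (l 15036272)))) (b (a (c (a (b (l 15327616) (l 15531032)) (l 15315640)) (l 15293088)) (c (l 15325128) (l 15337696))) (a (c (l 15806088) (l 15865144))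 (l 15669392))))) (c (b (a (b (c (a (l 14547176) (l 14499120)) (a (l 14509992) (l 14549048))) (b (a (l 14675680) (l 14738960)) (l 14825112))) (b (c (b (l 14371840) (l 14502800)) (b (l 14434992) (l 14576648))) (c (l 14660984) (l 14740176)))) (b (c (a (l 15046600) (l 14889664)) (a (l 15132040) (l 14949504))) (a (b (l 15322328) (b (l 15441672) (c (l 15512392) (l 15551304)))) (a (b (l 15169952) (c (l 15299464) (l 15375088))) (b (c (l 15049008) (l 15079400)) (c (l 15278184) (l 15290816))))))) (b (a (b (c (l 14395424) (l 14654544)) (b (l 14857768) (l 14982120))) (b (c (l 14561120) (l 14557528)) (l 14756216))) (b (a (l 15157696) (l 14935760)) (a (b (l 15364264) (l 15413416)) (b (l 15108656) (l 15175952))))))), by decide +kernel⟩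

def k4_pp_102 : ∃ t, chk3 f_pp_102 t 18 30 1 = true :=
  ⟨(a (c (b (a (b (a (l 16068704) (c (l 15964200) (l 16069696))) (c (a (l 16243864) (l 16172432)) (a (l 16290320) (l 16249152)))) (b (c (a (l 15884688) (l 15807984)) (a (l 15979152) (l 15886600))) (c (l 16091768) (l 16139488)))) (a (c (b (c (l 16150440) (b (l 16389184) (l 16490552))) (b (c (l 16482712) (l 16492224)) (l 16459424))) (b (l 16333208) (c (b (l 16620032) (l 16411640)) (l 16548928)))) (c (b (c (l 16115336) (l 16226800)) (c (l 16373232) (b (b (l 16448384) (l 16513696)) (l 16550752)))) (b (l 16318608) (b (l 16545016) (l 16532872)))))) (a (b (b (a (l 16217000) (l 16111968)) (a (l 16357840) (l 16293664))) (b (l 16460200) (l 16483704))) (b (b (l 15714824) (l 16162200)) (b (l 16378512) (l 16533584))))) (c (b (a (b (c (a (l 15745352) (l 15699224)) (l 15662176)) (c (l 15921840) (l 16038632))) (c (b (l 15632144) (c (l 15846688) (l 15940240))) (l 15641792))) (c (b (a (c (b (l 16180784) (l 16270688)) (l 16214144)) (c (b (l 16060120) (l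 16166320)) (l 16192648))) (a (c (b (l 16310120) (l 16488648)) (b (l 16378904) (l 16552208))) (b (c (l 16344408) (l 16356392)) (l 16429800)))) (b (a (l 16280424) (l 16188200)) (a (b (l 16461512) (l 16460656)) (b (l 16373256) (c (l 16466736) (l 16490552))))))) (b (a (b (l 15749712) (l 16022432)) (b (l 15615928) (l 15913144))) (b (a (l 16269696) (l 16174960)) (a (l 16410312) (b (l 16365088) (l 16486400))))))), by decide +kernel⟩

def k5_pp_102 : ∃ t, chk3 f_pp_102 t 36 31 2 = true :=
  ⟨(b (a (b (c (c (l 16406528) (l 16332368)) (b (c (a (l 16441952) (l 16496768)) (l 16475224)) (c (l 16419096) (l 16368208)))) (c (b (c (l 16358720) (l 16324544)) (a (c (l 16267104) (l 16230512)) (c (l 16210920) (l 16232072)))) (b (l 16277440) (a (l 16228344) (l 16235960))))) (b (c (a (l 16364824) (c (l 16390896) (l 16473360))) (b (l 16407104) (c (l 16461912) (l 16412256)))) (c (a (b (l 16341680) (a (l 16218664) (l 16239248))) (b (l 16302112) (l 16253240))) (b (a (l 16339504) (b (l 16376840) (l 16327480))) (a (l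 16135832) (l 16256448)))))) (a (b (c (a (c (a (l 16058976) (l 16023712)) (l 16068712)) (c (b (l 16092560) (a (l 16025840) (l 16059816))) (l 16099440))) (b (l 16141184) (a (l 16063528) (l 16048152)))) (b (c (a (c (a (c (l 16022672) (l 16008600)) (b (l 16017368) (l 15977432))) (l 15996424)) (a (l 15962896) (l 15979616))) (a (l 15986720) (l 15968600))) (c (a (a (c (a (b (l 15962384) (b (l 15912936) (l 15896368))) (b (l 15951384) (l 15918288))) (l 15932472)) (b (l 15917648) (l 15906896))) (a (l 15914000) (l 15905424))) (a (b (l 15931952) (l 15898456)) (l 15895112))))) (b (c (a (a (b (l 16140048) (l 16055840)) (l 16105728)) (l 16126840)) (a (a (l 16090176) (l 16097672)) (l 16119432))) (a (a (c (b (l 15976640) (l 15896760)) (l 15922648)) (c (l 15899808) (l 15927776))) (c (b (l 16004120) (l 15921520)) (l 15949264)))))), by decide +kernel⟩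

def k6_pp_102 : ∃ t, chk3 f_pp_102 t 36 62 3 = true :=
  ⟨(b (a (l 16342976) (l 16356128)) (a (b (c (c (l 16277840) (l 16304560)) (l 16299272)) (c (c (b (a (l 16256144) (l 16264816)) (l 16219392)) (b (l 16240760) (l 16203768))) (a (l 16209656) (l 16217640)))) (c (b (a (l 16294296) (c (b (l 16367840) (l 16326752)) (l 16335088))) (c (a (b (a (l 16269768) (l 16272184)) (l 16219848)) (l 16220896)) (a (b (l 16251664) (l 16204256)) (l 16247584)))) (a (a (l 16223928) (l 16228912)) (b (l 16330296) (l 16239048)))))), by decide +kernel⟩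

def k7_pp_102 : ∃ t, chk3 f_pp_102 t 36 126 3 = true :=
  ⟨(c (c (a (b (l 16144808) (l 16008952)) (a (b (l 16141376) (l 16043328)) (l 16120352))) (a (b (b (l 16165248) (c (l 16126176) (l 16120360))) (b (c (l 16073976) (l 16077504)) (l 16028152))) (b (a (a (c (l 16138712) (l 16131704)) (c (l 16146112) (l 16139144))) (l 16059688)) (a (l 15959448) (l 16070200))))) (a (b (l 16126760) (c (b (c (l 16008264) (l 16062256)) (c (a (l 16038176) (l 16020072)) (l 16020888))) (l 15974256))) (b (a (l 16123312) (l 16148856)) (c (a (c (b (l 16064840) (l 16022248)) (l 16034848)) (c (l 16069248) (l 16062040))) (l 16043224))))), by decide +kernel⟩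

def k8_pp_102 : ∃ t, chk3 f_pp_102 t 36 127 3 = true :=
  ⟨(c (a (b (a (l 15974928) (l 15956504)) (a (a (l 15907464) (l 15893784)) (l 15880272))) (a (a (l 15888328) (l 15914528)) (l 15936432))) (a (c (b (b (c (l 15984216) (a (l 15948920) (b (l 15982176) (l 15962096)))) (a (b (l 15956920) (l 15937160)) (l 15929248))) (a (b (l 15907712) (l 15872392)) (l 15869488))) (b (b (l 15952280) (a (c (c (b (l 15956144) (l 15936704)) (l 15942136)) (l 15939120)) (c (l 15925904) (l 15920528)))) (c (b (b (c (l 15906360) (a (a (l 15921272) (l 15906120)) (l 15895816))) (a (l 15894024) (l 15874768))) (a (l 15866960) (l 15844560))) (b (a (a (a (l 15912040) (l 15901992)) (l 15892872)) (l 15881400)) (c (b (b (c (l 15868496) (l 15867928)) (l 15857824)) (l 15843616)) (b (a (l 15871432) (l 15850424)) (a (c (b (l 15858264) (l 15849544)) (b (l 15857408) (l 15848600))) (l 15830032)))))))) (c (b (b (c (l 15987136) (c (l 15924680) (l 15941720))) (a (l 15925480) (l 15950704))) (a (l 15857880) (l 15881960))) (b (a (a (l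 15917280) (l 15944968)) (l 15967488)) (c (b (a (a (l 15852352) (l 15878000)) (l 15900312)) (l 15842232)) (b (a (l 15872320) (l 15897080)) (b (c (l 15809288) (l 15849496)) (a (a (l 15813352) (l 15816360)) (l 15838648))))))))), by decide +kernel⟩

def k9_pp_102 : ∃ t, chk3 f_pp_102 t 37 31 1 = true :=
  ⟨(c (b (b (c (a (a (l 16367552) (l 16478848)) (l 16439592)) (a (c (b (l 16549848) (l 16486920)) (a (l 16364136) (l 16415792))) (b (l 16489480) (a (l 16422304) (l 16426776))))) (b (a (c (l 16361552) (b (l 16371984) (l 16371944))) (c (l 16443008) (b (l 16409832) (l 16427424)))) (c (l 16322472) (l 16327496)))) (b (c (a (l 16169344) (l 16225168)) (a (l 16162760) (l 16219664))) (c (b (a (l 16046048) (l 16101048)) (a (b (l 15983880) (l 15942216)) (l 15954608))) (a (l 15928912) (l 16047600))))) (b (b (a (l 16344616) (b (l 16607448) (l 16474816))) (b (a (c (b (l 16402848) (c (l 16350896) (l 16356040))) (l 16373080)) (c (c (l 16349472) (l 16440464)) (l 16437240))) (c (c (c (l 16338768) (l 16292056))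 (l 16320384)) (l 16312920)))) (c (b (c (l 16046496) (b (c (l 16221288) (l 16214792)) (l 16122552))) (a (l 15937872) (l 16036664))) (b (b (l 16223984) (c (a (l 15985032) (l 16148480)) (l 16131608))) (c (b (c (l 16049472) (b (l 16072064) (l 16023344))) (l 15954672)) (b (l 15936632) (c (b (l 15952624) (l 15927120)) (b (l 15970712) (c (l 15924936) (l 15901672)))))))))), by decide +kernel⟩

def k10_pp_102 : ∃ t, chk3 f_pp_102 t 38 14 1 = true :=
  ⟨(b (a (b (c (a (b (l 14362360) (l 14456296)) (a (l 14368552) (l 14343752))) (a (l 14470712) (l 14388712))) (c (c (l 14517320) (l 14487736)) (l 14548144))) (c (b (l 14381008) (l 14526512)) (l 14440720))) (a (c (b (c (a (l 14751640) (l 14659784)) (l 14478376)) (b (a (c (l 14784808) (l 14961200)) (c (a (l 14882800) (l 14869784)) (l 14868568))) (c (a (l 15233520) (l 15160864)) (l 15205904)))) (b (l 14686040) (b (a (l 14914800) (l 14819592)) (l 15166056)))) (b (c (b (l 14639888) (b (l 14711192) (l 14782248))) (l 14649328)) (c (b (c (l 14776312) (l 14963280))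 (l 15288912)) (l 15075512))))), by decide +kernel⟩

def k11_pp_102 : ∃ t, chk3 f_pp_102 t 38 30 1 = true :=
  ⟨(c (b (a (b (c (a (l 15576128) (l 15536392)) (l 15538376)) (c (a (l 15869776) (l 15820480)) (l 15829880))) (l 15611336)) (c (b (a (c (b (l 16027592) (l 16133600)) (l 16092368)) (l 16038104)) (a (c (l 16239704) (b (l 16262984) (l 16382672))) (l 16177592))) (a (b (l 16086552) (b (l 16278224) (l 16288352))) (l 15996624)))) (b (a (b (l 15507536) (l 15806944)) (l 15696656)) (a (b (l 16070592) (l 16291600)) (l 16202992)))), by decide +kernel⟩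

def k12_pp_102 : ∃ t, chk3 f_pp_102 t 38 31 1 = true :=
  ⟨(c (b (b (c (a (b (l 16524472) (l 16445544)) (b (l 16539768) (l 16578616))) (b (a (c (l 16493888) (l 16532216)) (l 16494408)) (a (c (l 16508216) (b (l 16618328) (l 16562752))) (c (l 16599200) (l 16551000))))) (c (a (l 16406984) (l 16451688)) (a (b (c (l 16501960) (l 16512992)) (l 16411432)) (l 16375376)))) (b (a (c (l 16257992) (l 16274536)) (a (l 16256024) (b (l 16334728) (l 16244120)))) (c (a (b (l 16154504) (a (l 16057648) (b (l 16104632) (a (l 16056352) (l 16063240))))) (a (b (l 16174208) (b (l 16099968) (l 16042296))) (l 16067848))) (a (b (l 16144648) (l 16057344)) (a (l 16004312) (l 16077760)))))) (b (b (a (b (l 16531520) (b (l 16619760) (l 16519216))) (b (l 16547624) (l 16531536))) (c (b (a (b (l 16515872) (l 16459080)) (l 16457648)) (c (a (l 16399160) (l 16428168)) (l 16346872))) (a (l 16444664) (l 16447824)))) (b (c (b (c (a (l 16324320) (l 16340320)) (a (l 16261200) (b (l 16362592) (l 16321640)))) (a (l 16207592) (c (l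 16241272) (l 16159352)))) (a (b (l 16310792) (c (l 16121264) (l 16218304))) (b (l 16327272) (c (a (l 16229800) (c (l 16176672) (l 16233248))) (l 16233384))))) (c (a (b (l 16136000) (l 16045672)) (b (l 16075960) (l 16028064))) (b (c (a (c (l 16134560) (b (l 16157696) (l 16108704))) (b (c (l 16168032) (a (l 16183472) (l 16154112))) (l 16109392))) (a (l 16127632) (b (l 16159392) (c (l 16044496) (l 16102944))))) (c (a (l 16037336) (l 16019528)) (a (c (b (l 16059032) (l 16010024)) (b (l 16056576) (c (l 15966208) (b (l 16020016) (l 15994672))))) (c (b (b (l 16062648) (l 16032432)) (l 15985088)) (b (l 16044800) (c (l 15983144) (l 15981008))))))))))), by decide +kernel⟩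

def k13_pp_102 : ∃ t, chk3 f_pp_102 t 39 7 1 = true :=
  ⟨(b (b (c (a (l 14330816) (b (l 14523496) (l 14658024))) (l 14501128)) (b (b (a (c (l 14710072) (l 14644296)) (l 14714728)) (a (c (b (l 14799344) (l 14911184)) (l 14794656)) (l 14944136))) (c (l 15325760) (l 15276856)))) (b (b (b (l 15725584) (l 15791824)) (c (b (c (l 16017712) (l 16216584)) (b (c (b (l 16300760) (l 16316472)) (l 16392504)) (c (l 16329608) (l 16273000)))) (b (l 16204560) (l 16305256)))) (b (c (c (a (b (b (l 16589304) (l 16495040)) (a (l 16410888) (l 16350016))) (b (b (l 16439840) (l 16436352)) (l 16289968))) (b (a (b (b (l 16555760) (l 16524208)) (c (l 16557024) (l 16466520))) (b (a (l 16390848) (l 16383160)) (c (l 16455000) (c (l 16452848) (l 16437272))))) (a (a (l 16334248) (l 16272648)) (l 16210688)))) (b (a (b (l 16557712) (l 16446144)) (b (l 16397552) (l 16424680))) (a (c (b (a (l 16461032) (l 16343168)) (c (b (l 16345544) (l 16361504)) (l 16326136))) (l 16275544)) (c (c (b (l 16345296) (l 16251744)) (l 16284104))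 (l 16277112))))) (c (b (a (a (l 16104552) (l 16134280)) (l 16035888)) (a (a (l 15978712) (l 15872704)) (l 15761000))) (b (c (b (c (l 16043776) (a (c (l 16238960) (l 16232704)) (l 16102816))) (a (l 16060744) (l 16039944))) (c (b (l 16071848) (a (c (l 16102200) (l 16158440)) (l 15993048))) (a (l 16165704) (l 16076024)))) (c (a (l 15855720) (l 15887200)) (b (c (c (l 15803960) (b (a (l 16080536) (l 15958096)) (l 15878712))) (a (l 15961536) (l 15923904))) (c (a (l 15939336) (l 15825912)) (c (b (a (l 15921288) (l 15847272)) (l 15829488)) (b (a (l 15960360) (l 15843872)) (a (c (l 15904744) (l 15881464)) (c (l 15791920) (l 15789352))))))))))))), by decide +kernel⟩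

def k14_pp_102 : ∃ t, chk3 f_pp_102 t 5 2 1 = true :=
  ⟨(a (b (a (b (l 13127888) (c (l 13183872) (a (l 2) (l 13018760)))) (a (b (c (l 13125040) (l 13113224)) (c (l 13206336) (l 13212648))) (c (b (l 13364928) (l 13480784)) (l 13447648)))) (a (b (a (b (l 13163976) (l 13179864)) (c (l 13218520) (b (l 13122040) (l 13223624)))) (a (b (c (l 13247792) (a (l 13152448) (l 13187008))) (c (a (l 13290576) (l 13341960)) (a (l 13253128) (l 13347216)))) (b (c (l 13358544) (l 13378456)) (c (b (l 13491976) (l 13600008)) (l 13571480))))) (b (c (a (l 13410272) (l 13725312)) (l 13563568)) (b (a (l 13397632) (l 13778696)) (c (a (l 13863864) (l 14150784)) (l 13955152)))))) (b (a (c (b (l 13834304) (l 13932224)) (l 13830680)) (b (l 14268144) (l 14334448))) (a (a (b (l 13983960) (b (l 14174624) (l 14273256))) (b (l 14179400) (l 14366176))) (b (a (l 14348128) (l 14631480)) (a (b (l 14499632) (l 14675216)) (l 14990912)))))), by decide +kernel⟩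

def k15_pp_102 : ∃ t, chk3 f_pp_102 t 5 6 1 = true :=
  ⟨(a (a (b (c (a (b (a (l 13424392) (l 13546552)) (c (l 13689240) (l 13728136))) (b (c (l 13745968) (l 13789432)) (b (l 13922944) (l 14054368)))) (a (b (l 13519512) (l 13738376)) (b (l 13763888) (l 13946544)))) (b (a (c (b (l 13953488) (c (l 14151224) (l 14173104))) (l 14014696)) (c (a (b (l 14133064) (l 14312192)) (b (l 14243264) (l 14362280))) (a (l 14149680) (l 14226200)))) (a (c (a (b (l 14310496) (l 14447760)) (l 14433968)) (b (l 14294808) (l 14405016))) (a (l 14435848) (l 14474472))))) (b (b (c (a (b (l 14012000) (l 14102336)) (l 14289656)) (a (l 14003752) (l 14204768))) (c (a (c (b (l 14226328) (l 14301424)) (l 14219608)) (l 14418112)) (a (l 14152040) (l 14331216)))) (b (a (c (l 14416064) (b (l 14281080) (l 14377136))) (l 14510040)) (a (l 14583928) (b (l 14723352) (l 14920912)))))) (a (b (c (b (l 14526152) (l 14628536)) (a (l 14421056) (l 14671304))) (b (a (l 14771184) (l 15172120)) (a (b (l 15097648) (l 15355640)) (l 15541104))))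 (b (b (l 15020904) (l 15314840)) (b (a (l 15601024) (l 15750888)) (a (b (l 15882208) (l 16026584)) (l 16289776)))))), by decide +kernel⟩

def k16_pp_102 : ∃ t, chk3 f_pp_102 t 10 14 1 = true :=
  ⟨(a (b (a (b (c (l 14590336) (l 14520352)) (b (l 14636128) (c (l 14752216) (l 14682224)))) (b (l 14609400) (a (b (l 14677944) (l 14816544)) (b (l 14754328) (l 14937392))))) (a (b (b (l 14865360) (l 15115536)) (b (l 15371096) (l 15630552))) (b (a (l 15146976) (l 15165368)) (a (l 15631688) (l 15855160))))) (b (a (b (a (l 14725048) (l 14870400)) (a (l 15023440) (l 15252328))) (b (l 15208088) (l 15599272))) (a (b (l 15529184) (l 15891120)) (b (l 15934944) (l 16291800))))), by decide +kernel⟩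

def k17_pp_102 : ∃ t, chk3 f_pp_102 t 10 30 1 = true :=
  ⟨(a (b (a (b (l 15779848) (c (l 16031464) (l 16098128))) (b (l 16045632) (c (l 16349256) (l 16365256)))) (b (a (c (c (b (a (l 16278760) (l 16437864)) (l 16226360)) (l 16283232)) (l 16235512)) (c (b (l 16289608) (c (l 16166752) (l 16304440))) (l 16235384))) (c (a (c (b (l 16367408) (l 16209096)) (b (l 16504072) (b (l 16382104) (l 16204256)))) (c (b (a (l 16288224) (l 16182576)) (l 16086696)) (b (l 16216960) (c (l 16048944) (l 16110288))))) (a (a (l 16412328) (l 16257952)) (a (l 16180000) (l 16080632)))))) (b (a (b (l 16441344) (l 16147368)) (b (a (l 16388656) (l 16262080)) (a (l 16159856) (l 15904144)))) (a (b (c (c (l 16022144) (l 16137168)) (l 16122640)) (c (c (b (l 15955432) (l 15932336)) (b (l 15976288) (l 15760320))) (b (l 15956944) (l 15869408)))) (c (b (a (c (b (l 16036424) (l 15817032)) (l 15973136)) (c (l 15970248) (l 15934480))) (c (b (a (l 15899584) (l 15893080)) (l 15840704)) (b (l 15852824) (l 15813640)))) (a (b (l 15953680)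 (l 15805288)) (l 15859248)))))), by decide +kernel⟩

def k18_pp_102 : ∃ t, chk3 f_pp_102 t 20 31 1 = true :=
  ⟨(b (c (b (a (c (l 16113040) (b (c (l 16227280) (l 16264736)) (l 16022872))) (c (l 16008864) (c (l 15926768) (l 15912280)))) (c (a (l 16085472) (l 15830760)) (a (l 15918440) (l 15700744)))) (a (b (l 16001216) (c (c (b (l 16110160) (l 16001368)) (l 16049856)) (l 16060840))) (b (l 15967632) (c (c (b (l 15864944) (l 15782736)) (l 15804936)) (l 15791144))))) (c (a (a (b (l 15967752) (l 15742560)) (b (l 15840328) (l 15663968))) (a (c (l 15535080) (l 15496656)) (b (c (l 15607616) (l 15590480)) (a (a (l 15474000) (b (l 15487536) (a (l 15414536) (l 15407248)))) (b (c (l 15471264) (l 15448448)) (l 15401632)))))) (b (c (b (c (l 15625896) (a (l 15793360) (l 15515024))) (a (l 15716248) (b (l 15612928) (l 15527696)))) (c (b (l 15688432) (a (c (l 15795896) (l 15829640)) (b (l 15603776) (a (l 15619648) (c (l 15504872) (l 15493536)))))) (a (l 15870544) (l 15548640)))) (c (a (l 15551256) (a (l 15515120)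 (a (b (l 15469576) (a (l 15397056) (l 15376120))) (b (l 15384728) (l 15365400))))) (a (c (b (c (l 15738760) (b (l 15761400) (l 15709792))) (l 15637048)) (b (l 15685376) (c (b (l 15634616) (l 15605808)) (b (l 15651288) (c (l 15602552) (l 15599544)))))) (a (c (b (c (l 15551176) (l 15502992)) (l 15453968)) (b (l 15537496) (c (l 15383424) (b (l 15464768) (l 15416976))))) (c (b (a (c (l 15460352) (l 15453672)) (b (c (l 15434040) (l 15387840)) (l 15393400))) (a (a (l 15379616) (l 15358368)) (l 15347488))) (b (a (l 15445568) (b (l 15416776) (a (l 15385184) (l 15377984)))) (a (c (b (b (l 15391088) (l 15369792)) (l 15340496)) (b (l 15375456) (a (c (l 15344144) (l 15340512)) (b (l 15329720) (l 15315096))))) (c (l 15339088) (b (l 15347760) (l 15318392)))))))))))), by decide +kernel⟩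

def k19_pp_102 : ∃ t, chk3 f_pp_102 t 21 31 1 = true :=
  ⟨(b (c (a (b (c (a (l 15846160) (l 15726416)) (a (c (l 15845544) (l 15829440)) (b (a (l 15802224) (l 15770160)) (c (l 15733312) (l 15676864))))) (b (a (c (l 15710440) (l 15705464)) (l 15654744)) (a (a (l 15649512) (l 15612112)) (l 15602008)))) (c (l 15690280) (b (c (l 15745008) (l 15727896)) (l 15616352)))) (a (b (a (l 15796816) (a (l 15723864) (l 15699400))) (a (c (b (l 15606560) (a (l 15546632) (c (l 15560264) (l 15580832)))) (a (l 15645456) (l 15602112))) (c (b (l 15636848) (l 15560624)) (l 15580448)))) (c (b (l 15701640) (c (l 15607936) (l 15589528))) (l 15628104)))) (c (a (b (a (a (b (l 15566136) (l 15500520)) (l 15522048)) (l 15517168)) (l 15415920)) (b (l 15507504) (l 15399248))) (c (b (b (a (c (a (l 15440448) (l 15529272)) (a (a (b (l 15563432) (l 15526488)) (l 15526264)) (l 15521600))) (c (l 15520072) (l 15512312))) (a (b (a (l 15484888) (l 15476408)) (l 15452496)) (l 15452472))) (a (l 15381056) (l 15363864))) (b (a (a (b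 (a (l 15521192) (l 15501704)) (b (l 15446424) (l 15435328))) (l 15386536)) (b (l 15487536) (l 15430952))) (c (b (c (l 15389752) (b (l 15401064) (l 15368760))) (l 15326016)) (b (l 15374096) (c (b (l 15332448) (l 15302368)) (b (l 15326600) (a (l 15305832) (l 15286648)))))))))), by decide +kernel⟩

def k20_pp_102 : ∃ t, chk3 f_pp_102 t 11 14 1 = true :=
  ⟨(a (b (a (b (l 15667848) (l 16011552)) (b (l 15946408) (a (l 16232680) (l 16382624)))) (a (b (a (l 16289296) (l 16313968)) (a (b (l 16595696) (l 16390992)) (l 16407336))) (b (l 16556200) (l 16378760)))) (b (a (l 16271768) (l 16597176)) (b (l 16344560) (l 16152016)))), by decide +kernel⟩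

def k21_pp_102 : ∃ t, chk3 f_pp_102 t 11 30 1 = true :=
  ⟨(a (b (b (l 16160408) (l 16025184)) (c (c (b (c (l 15968808) (l 15938160)) (c (l 15869432) (l 15856432))) (b (l 15925480) (l 15834952))) (a (l 15854248) (l 15848976)))) (b (b (l 15973408) (a (c (l 15953704) (l 15926664)) (c (l 15793424) (l 15759592)))) (c (a (c (b (a (l 15930840) (l 15855488)) (c (l 15809520) (l 15795888))) (b (l 15855208) (l 15605688))) (c (b (l 15744608) (c (l 15687400) (l 15672480))) (l 15619480))) (a (l 15634960) (l 15643504))))), by decide +kernel⟩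

def k22_pp_102 : ∃ t, chk3 f_pp_102 t 11 31 1 = true :=
  ⟨(a (c (b (c (l 15573864) (b (c (l 15735616) (l 15718416)) (l 15602232))) (a (b (l 15494968) (l 15383504)) (b (l 15482984) (l 15368776)))) (b (c (b (l 15692008) (c (b (l 15623832) (l 15568552)) (l 15575032))) (l 15615808)) (c (b (c (l 15470296) (b (l 15494216) (l 15428288))) (a (l 15347616) (l 15332400))) (b (a (l 15405112) (l 15434408)) (c (b (c (l 15358544) (l 15309408)) (l 15291352)) (b (l 15342480) (c (l 15240560) (b (l 15292328) (l 15260112))))))))) (c (b (a (c (a (l 15653992) (l 15506616)) (b (c (l 15682096) (l 15664336)) (a (l 15577928) (l 15542152)))) (c (l 15571096) (b (c (l 15594864) (l 15576176)) (l 15518968)))) (a (a (b (l 15467616) (l 15373480)) (b (l 15470016) (l 15418656))) (l 15451960))) (b (a (b (l 15627504) (c (a (l 15413816) (c (b (l 15553616) (l 15512632)) (l 15513360))) (l 15514448))) (c (b (l 15547520) (l 15500392)) (l 15501192))) (c (a (b (b (c (l 15474488) (a (l 15470768) (l 15458800))) (a (l 15410808) (l 15424688)))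 (a (l 15337232) (l 15383848))) (b (c (l 15454352) (l 15440872)) (l 15394848))) (b (a (a (l 15418192) (b (l 15433168) (l 15402544))) (l 15424240)) (a (c (b (a (l 15340840) (l 15380928)) (l 15324448)) (b (a (l 15329120) (l 15369624)) (a (c (l 15284912) (l 15277328)) (c (l 15345400) (l 15338128))))) (c (l 15378584) (b (l 15380408) (l 15353448))))))))), by decide +kernel⟩

def k23_pp_102 : ∃ t, chk3 f_pp_102 t 3 2 1 = true :=
  ⟨(a (b (a (a (b (l 14882840) (l 15008160)) (b (l 15727608) (l 15609704))) (a (l 16274480) (l 16632520))) (a (a (b (l 15263880) (a (l 15430264) (l 15671416))) (b (a (l 15864240) (l 16120184)) (l 16193752))) (b (a (l 16408904) (l 16712992)) (l 16631720)))) (b (c (l 16777080) (l 16777072)) (b (l 16777216) (a (l 16777216) (l 16777216))))), by decide +kernel⟩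

def k24_pp_102 : ∃ t, chk3 f_pp_102 t 3 6 1 = true :=
  ⟨(a (b (a (a (b (l 15703288) (l 16029048)) (l 16423312)) (b (l 16728032) (l 16759320))) (a (b (a (l 16292696) (l 16650760)) (a (l 16564664) (l 16568920))) (b (l 16710664) (l 16516872)))) (b (c (l 16777216) (l 16777216)) (b (l 16709592) (l 16516872)))), by decide +kernel⟩

def k25_pp_102 : ∃ t, chk3 f_pp_102 t 3 7 1 = true :=
  ⟨(b (b (a (a (a (l 16318264) (l 16307760)) (l 16299392)) (l 16299392)) (a (a (a (b (l 16179672) (l 15942488)) (l 16006360)) (b (l 16103128) (c (l 15922720) (l 15892640)))) (a (b (l 16103128) (c (l 15922720) (l 15892640))) (c (c (l 16026296) (l 16013144)) (a (l 15993040) (l 15993040)))))) (a (b (c (a (b (a (b (l 15778480) (l 15701472)) (l 15727072)) (c (b (l 15689752) (c (l 15661344) (l 15646144))) (l 15636680))) (b (a (l 15727072) (l 15727072)) (c (b (l 15689752) (l 15650936)) (l 15636680)))) (a (a (b (a (l 15712200) (l 15697816)) (l 15596320)) (l 15626592)) (a (l 15647568) (l 15647568)))) (c (b (c (a (l 15564784)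 (l 15564784)) (a (b (c (l 15587016) (l 15568248)) (l 15518816)) (b (l 15576816) (l 15518816)))) (a (a (l 15451960) (l 15451960)) (l 15451960))) (b (a (c (b (l 15539464) (c (l 15508840) (l 15489392))) (l 15494456)) (c (b (l 15539464) (l 15500240)) (l 15494456))) (c (a (b (c (l 15454352) (b (l 15460464) (l 15429768))) (l 15394848)) (b (c (l 15454352) (l 15440872)) (l 15394848))) (a (b (c (l 15428928) (l 15416736)) (c (b (l 15391608) (l 15365432)) (b (l 15380408) (a (l 15353448) (l 15353448))))) (b (l 15424240) (c (l 15378584) (l 15343376)))))))) (b (c (a (b (l 15727072) (c (l 15665608) (l 15636680))) (b (l 15727072) (c (l 15665608) (l 15636680)))) (a (l 15542712) (l 15584648))) (b (c (b (c (l 15591584) (a (l 15576816) (l 15576816))) (a (l 15525776) (l 15525776))) (a (c (l 15517432) (l 15494456)) (c (l 15517432) (l 15494456)))) (c (a (l 15451960) (l 15451960)) (b (c (a (l 15445872) (l 15445872)) (a (l 15424240) (l 15424240))) (c (l 15394848) (a (c (l 15378584) (l 15364344)) (l 15245432))))))))),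 by decide +kernel⟩

theorem s26_pp_102 : ∃ t, chk3 f_pp_102 t 3 3 1 = true := ex3_b k24_pp_102 k25_pp_102

theorem s27_pp_102 : ∃ t, chk3 f_pp_102 t 3 1 1 = true := ex3_b k23_pp_102 s26_pp_102

theorem s28_pp_102 : ∃ t, chk3 f_pp_102 t 11 15 1 = true := ex3_b k21_pp_102 k22_pp_102

theorem s29_pp_102 : ∃ t, chk3 f_pp_102 t 11 7 1 = true := ex3_b k20_pp_102 s28_pp_102

theorem s30_pp_102 : ∃ t, chk3 f_pp_102 t 10 31 1 = true := ex3_a k18_pp_102 k19_pp_102

theorem s31_pp_102 : ∃ t, chk3 f_pp_102 t 10 15 1 = true := ex3_b k17_pp_102 s30_pp_102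

theorem s32_pp_102 : ∃ t, chk3 f_pp_102 t 10 7 1 = true := ex3_b k16_pp_102 s31_pp_102

theorem s33_pp_102 : ∃ t, chk3 f_pp_102 t 5 7 1 = true := ex3_a s32_pp_102 s29_pp_102

theorem s34_pp_102 : ∃ t, chk3 f_pp_102 t 5 3 1 = true := ex3_b k15_pp_102 s33_pp_102

theorem s35_pp_102 : ∃ t, chk3 f_pp_102 t 5 1 1 = true := ex3_b k14_pp_102 s34_pp_102

theorem s36_pp_102 : ∃ t, chk3 f_pp_102 t 38 15 1 = true := ex3_b k11_pp_102 k12_pp_102

theorem s37_pp_102 : ∃ t, chk3 f_pp_102 t 38 7 1 = true := ex3_b k10_pp_102 s36_pp_102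

theorem s38_pp_102 : ∃ t, chk3 f_pp_102 t 19 7 1 = true := ex3_a s37_pp_102 k13_pp_102

theorem s39_pp_102 : ∃ t, chk3 f_pp_102 t 36 63 3 = true := ex3_b k7_pp_102 k8_pp_102

theorem s40_pp_102 : ∃ t, chk3 f_pp_102 t 36 31 3 = true := ex3_b k6_pp_102 s39_pp_102

theorem s41_pp_102 : ∃ t, chk3 f_pp_102 t 36 31 1 = true := ex3_c k5_pp_102 s40_pp_102

theorem s42_pp_102 : ∃ t, chk3 f_pp_102 t 18 31 1 = true := ex3_a s41_pp_102 k9_pp_102

theorem s43_pp_102 : ∃ t, chk3 f_pp_102 t 18 15 1 = true := ex3_b k4_pp_102 s42_pp_102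

theorem s44_pp_102 : ∃ t, chk3 f_pp_102 t 18 7 1 = true := ex3_b k3_pp_102 s43_pp_102

theorem s45_pp_102 : ∃ t, chk3 f_pp_102 t 9 7 1 = true := ex3_a s44_pp_102 s38_pp_102

theorem s46_pp_102 : ∃ t, chk3 f_pp_102 t 9 3 1 = true := ex3_b k2_pp_102 s45_pp_102

theorem s47_pp_102 : ∃ t, chk3 f_pp_102 t 4 3 1 = true := ex3_a k1_pp_102 s46_pp_102

theorem s48_pp_102 : ∃ t, chk3 f_pp_102 t 4 1 1 = true := ex3_b k0_pp_102 s47_pp_102

theorem s49_pp_102 : ∃ t, chk3 f_pp_102 t 2 1 1 = true := ex3_a s48_pp_102 s35_pp_102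

theorem s50_pp_102 : ∃ t, chk3 f_pp_102 t 1 1 1 = true := ex3_a s49_pp_102 s27_pp_102

theorem c_pp_102 : CertNX 536870912 536870912 0 536870912 1046898278 26843546 3 false true true .npp 1 0 2
    ndN3q1 ndN0q2 pcN0 cut_pp_102 Ext.none :=
  certNX2 (fam := false) (s1 := true) (s2 := true) (a := 1) (b := 0) (c := 2) (cn := .npp) (n1 := ndN3q1) (n2 := ndN0q2) (pc := pcN0) (cut := cut_pp_102) (xt := Ext.none) (P1 := 536870912) (W1 := 536870912) (P2 := 0) (W2 := 536870912) (P3 := 1046898278) (W3 := 26843546) (N0 := 3)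
    rfl (fun _ => rfl) s50_pp_102

noncomputable def f_pp_112 : ℕ → ℕ → ℕ → ℕ → Bool := onCell 536870912 536870912 0 536870912 1046898278 26843546
    (rowNX 3 2 false true true .dn 1 1 2 (qsf 536870912 536870912 0 536870912 1) ndN3q1 ndN0q2 pcN1 Cut.none Ext.none)

def k0_pp_112 : ∃ t, chk3 f_pp_112 t 1 1 1 = true :=
  ⟨(a (b (b (a (b (l 16777216) (l 16777216)) (l 253436624903)) (a (b (l 16777216) (c (l 16777216) (l 16777216))) (b (l 16777216) (l 1440995082231)))) (b (a (b (l 16777216) (b (l 16709592) (l 16516872))) (l 1)) (a (a (b (b (l 16299392) (c (c (l 16026296) (l 16013144)) (a (l 15993040) (l 15993040)))) (b (c (b (l 15727072) (c (l 15665608) (l 15636680))) (l 15647568)) (a (c (b (c (l 15564784) (l 15539776)) (l 15451960)) (b (l 15508592) (c (l 15420544) (l 15392720)))) (l 1)))) (b (b (l 16299392) (l 1)) (l 1))) (l 1)))) (l 1)), by decide +kernel⟩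

theorem c_pp_112 : CertNX 536870912 536870912 0 536870912 1046898278 26843546 3 false true true .dn 1 1 2
    ndN3q1 ndN0q2 pcN1 Cut.none Ext.none :=
  certNX2 (fam := false) (s1 := true) (s2 := true) (a := 1) (b := 1) (c := 2) (cn := .dn) (n1 := ndN3q1) (n2 := ndN0q2) (pc := pcN1) (cut := Cut.none) (xt := Ext.none) (P1 := 536870912) (W1 := 536870912) (P2 := 0) (W2 := 536870912) (P3 := 1046898278) (W3 := 26843546) (N0 := 3)
    rfl (fun _ => rfl) k0_pp_112

noncomputable def f_pp_202 : ℕ → ℕ → ℕ → ℕ → Bool := onCell 1073741824 536870912 0 536870912 1046898278 26843546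
    (rowNX 3 0 false true true .pp 2 0 2 (qsf 1073741824 536870912 0 536870912 0) ndN3q2 ndN0q2 pcN0 Cut.none Ext.none)

def k0_pp_202 : ∃ t, chk3 f_pp_202 t 1 1 1 = true :=
  ⟨(l 3), by decide +kernel⟩

theorem c_pp_202 : CertNX 1073741824 536870912 0 536870912 1046898278 26843546 3 false true true .pp 2 0 2
    ndN3q2 ndN0q2 pcN0 Cut.none Ext.none :=
  certNX0 (fam := false) (s1 := true) (s2 := true) (a := 2) (b := 0) (c := 2) (cn := .pp) (n1 := ndN3q2) (n2 := ndN0q2) (pc := pcN0) (cut := Cut.none) (xt := Ext.none) (P1 := 1073741824) (W1 := 536870912) (P2 := 0) (W2 := 536870912) (P3 := 1046898278) (W3 := 26843546) (N0 := 3)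
    rfl k0_pp_202

noncomputable def f_pm_001 : ℕ → ℕ → ℕ → ℕ → Bool := onCell 0 536870912 0 536870912 1046898278 26843546
    (rowNX 3 1 false true false .up 0 0 1 (qsf 0 536870912 536870912 536870912 0) ndN3q0 ndN0q1 pcN0 Cut.none Ext.none)

def k0_pm_001 : ∃ t, chk3 f_pm_001 t 1 1 1 = true :=
  ⟨(b (l 4) (l 4)), by decide +kernel⟩

theorem c_pm_001 : CertNX 0 536870912 536870912 536870912 1046898278 26843546 3 false true false .up 0 0 1
    ndN3q0 ndN0q1 pcN0 Cut.none Ext.none :=
  certNX1 (fam := false) (s1 := true) (s2 := false) (a := 0) (b := 0) (c := 1) (cn := .up) (n1 := ndN3q0) (n2 := ndN0q1) (pc := pcN0) (cut := Cut.none) (xt := Ext.none) (P1 := 0) (W1 := 536870912) (P2 := 536870912) (W2 := 536870912) (P3 := 1046898278) (W3 := 26843546) (N0 := 3)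
    rfl (fun _ => rfl) k0_pm_001

noncomputable def cut_pm_011 : Cut := Cut.of [[⟨0, 0, 0, 67108864⟩, ⟨1, 1, 0, 67108864⟩, ⟨2, 1, 0, 67108864⟩]]

noncomputable def f_pm_011 : ℕ → ℕ → ℕ → ℕ → Bool := onCell 0 536870912 536870912 536870912 1046898278 26843546
    (rowNX 3 0 false true false .pnn 0 1 1 (qsf 0 536870912 536870912 536870912 1) ndN3q0 ndN0q1 pcN1 cut_pm_011 Ext.none)

def k0_pm_011 : ∃ t, chk3 f_pm_011 t 1 1 1 = true :=
  ⟨(b (l 4) (a (b (l 4) (a (b (l 4) (a (a (a (b (l 4) (l 6)) (l 4)) (l 4)) (l 4))) (l 4))) (l 4))), by decide +kernel⟩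

theorem c_pm_011 : CertNX 0 536870912 536870912 536870912 1046898278 26843546 3 false true false .pnn 0 1 1
    ndN3q0 ndN0q1 pcN1 cut_pm_011 Ext.none :=
  certNX0 (fam := false) (s1 := true) (s2 := false) (a := 0) (b := 1) (c := 1) (cn := .pnn) (n1 := ndN3q0) (n2 := ndN0q1) (pc := pcN1) (cut := cut_pm_011) (xt := Ext.none) (P1 := 0) (W1 := 536870912) (P2 := 536870912) (W2 := 536870912) (P3 := 1046898278) (W3 := 26843546) (N0 := 3)
    rfl k0_pm_011

noncomputable def cut_pm_012 : Cut := Cut.of [[⟨0, 0, 0, 67108864⟩, ⟨1, 1, 0, 67108864⟩, ⟨2, 1, 0, 67108864⟩]]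

noncomputable def f_pm_012 : ℕ → ℕ → ℕ → ℕ → Bool := onCell 536870912 536870912 0 536870912 1046898278 26843546
    (rowNX 3 2 false true false .pnp 0 1 2 (qsf 0 536870912 0 536870912 1) ndN3q0 ndN0q2 pcN1 cut_pm_012 Ext.none)

def k0_pm_012 : ∃ t, chk3 f_pm_012 t 2 1 1 = true :=
  ⟨(b (b (a (l 2) (c (l 16777216) (l 16777216))) (b (a (l 2) (a (b (l 16777216) (l 16758224)) (a (b (l 16777216) (l 16763544)) (l 16777216)))) (a (l 16777216) (a (a (l 16735744) (l 16608240)) (b (a (l 16665016) (l 16695832)) (l 16366416)))))) (b (b (a (a (l 2) (l 4)) (b (a (a (l 16712912) (l 16470872)) (a (l 16214656) (l 15982704))) (l 4))) (l 4)) (l 4))), by decide +kernel⟩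

def k1_pm_012 : ∃ t, chk3 f_pm_012 t 12 2 1 = true :=
  ⟨(b (a (l 16776928) (l 16622816)) (a (b (l 16776856) (b (l 16726544) (b (l 16622120) (l 16284472)))) (b (a (b (l 16656928) (a (l 16683608) (l 16587128))) (b (l 16510864) (a (b (l 16492160) (b (l 16439096) (l 16315928))) (a (a (b (l 16424000) (l 16485592)) (l 16458136)) (c (l 16350992) (l 16356992)))))) (b (a (l 16504288) (a (l 16169544) (c (l 15989432) (l 15794824)))) (a (b (l 16432160) (l 16224512)) (l 15885152)))))), by decide +kernel⟩

def k2_pm_012 : ∃ t, chk3 f_pm_012 t 13 4 1 = true :=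
  ⟨(a (l 16340272) (b (l 15955664) (l 15743984))), by decide +kernel⟩

def k3_pm_012 : ∃ t, chk3 f_pm_012 t 26 10 1 = true :=
  ⟨(a (b (l 16343608) (b (l 16324560) (a (c (a (l 16291584) (c (l 16233024) (l 16236480))) (b (b (l 16353848) (c (l 16317744) (l 16319152))) (b (a (l 16254888) (l 16280688)) (l 16175776)))) (b (l 16270832) (c (a (b (l 16253840) (c (l 16220312) (l 16225480))) (l 16203904)) (a (b (l 16248192) (l 16222680)) (c (l 16212904) (l 16204440)))))))) (l 16160304)), by decide +kernel⟩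

def k4_pm_012 : ∃ t, chk3 f_pm_012 t 26 11 1 = true :=
  ⟨(b (a (a (b (a (c (l 15959664) (l 15786960)) (b (c (l 15998112) (l 15957520)) (b (l 15793920) (l 15735504)))) (l 15714880)) (a (b (b (c (l 15823128) (b (l 16099160) (l 15922992))) (b (l 15774200) (l 15679480))) (l 15570696)) (b (b (c (b (c (l 16163368) (l 16168184)) (c (l 16035632) (l 16039496))) (b (l 16162712) (l 16014416))) (c (b (l 15898856) (l 15672016)) (l 15715024))) (b (b (l 15563912) (l 15497968)) (l 15445384))))) (b (b (a (a (c (b (l 16150152) (c (l 16105376) (l 16109440))) (b (l 16138912) (l 16100664))) (b (l 16145928) (c (l 16097600) (l 16083104)))) (l 16076152)) (b (c (a (a (c (l 15959560) (l 15959184)) (b (l 15996536) (l 15946296))) (l 16024296)) (a (a (l 15925104) (l 16036552)) (a (l 16026552) (l 16034032)))) (a (a (c (l 15741336) (l 15704976)) (c (c (l 15880624) (l 15875256)) (l 15831432))) (c (a (a (l 15889720) (l 15814096)) (l 15991096)) (a (l 15970464) (l 15969312)))))) (b (b (a (c (a (l 15551272) (l 15630312))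 (l 15545344)) (a (c (c (l 15798864) (l 15787904)) (l 15733824)) (c (b (a (l 15876680) (l 15976072)) (l 15804560)) (l 15902672)))) (a (a (l 15404704) (l 15326488)) (a (c (l 15516080) (l 15471632)) (c (c (l 15714480) (l 15697512)) (l 15632920))))) (b (c (a (a (l 15400224) (l 15344176)) (a (l 15309360) (l 15400008))) (a (l 15340320) (l 15298024))) (a (l 15294000) (c (a (l 15222392) (l 15188128)) (l 15106408))))))) (a (l 15424288) (a (l 15113232) (b (a (l 15056400) (b (b (a (l 15068120) (l 15055984)) (l 14998408)) (l 14922072))) (l 14820888))))), by decide +kernel⟩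

def k5_pm_012 : ∃ t, chk3 f_pm_012 t 27 10 1 = true :=
  ⟨(l 15623024), by decide +kernel⟩

def k6_pm_012 : ∃ t, chk3 f_pm_012 t 27 22 1 = true :=
  ⟨(b (l 15718288) (a (b (a (a (c (b (l 15937144) (a (l 15745960) (b (l 15921984) (l 15774400)))) (b (l 15911448) (l 15749664))) (b (l 15941472) (c (c (l 15790904) (a (l 15864664) (l 15866624))) (a (l 15868464) (l 15852296))))) (l 15802400)) (b (a (a (c (c (l 15627816) (l 15604672)) (l 15506768)) (c (a (l 15672280) (b (l 15601248) (l 15699464))) (a (l 15680344) (l 15789272)))) (a (c (c (l 15781688) (l 15749400)) (l 15750144)) (l 15744096))) (a (a (c (l 15282784) (l 15228672)) (c (a (l 15482000) (l 15370376)) (l 15402576))) (a (c (a (l 15554096) (b (l 15622664) (l 15592184))) (l 15486176)) (a (c (c (l 15703928) (l 15671040)) (l 15669560)) (c (l 15657096) (l 15638448))))))) (l 15504696))), by decide +kernel⟩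

def k7_pm_012 : ∃ t, chk3 f_pm_012 t 27 46 1 = true :=
  ⟨(a (a (b (a (b (c (l 15066696) (l 15005488)) (l 14924344)) (c (b (l 15139792) (a (l 14937152) (l 14932880))) (b (l 15083600) (l 14859584)))) (l 14804296)) (a (b (c (b (a (l 15364152) (l 15443976)) (l 15010824)) (b (l 15280432) (l 14949432))) (b (c (l 14829888) (l 14759768)) (l 14684544))) (c (b (a (b (l 15423400) (l 15239272)) (b (b (l 15496976) (l 15484544)) (l 15308288))) (b (l 14884520) (l 14715416))) (b (b (l 15311008) (l 15155784)) (b (l 14818176) (l 14641016)))))) (a (b (a (a (c (b (c (l 15600808) (l 15565248)) (l 15292776)) (b (l 15560896) (l 15343200))) (c (b (l 15552880) (b (l 15349856) (l 15377112))) (b (l 15530440) (l 15457488)))) (b (l 15533440) (c (c (l 15472112) (c (l 15473848) (l 15438320))) (c (l 15434552) (l 15434096))))) (c (a (b (a (l 15116984) (l 15173904)) (a (l 14721864) (l 14821824))) (a (b (c (l 15255592) (l 15264944)) (l 14923640)) (b (b (l 15181728) (l 15270072)) (l 15020376)))) (a (b (l 15033552) (l 14690648))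 (b (a (l 15230224) (l 15348440)) (l 14914248))))) (b (l 15381688) (a (c (c (b (l 15367080) (a (l 15147760) (b (l 15337840) (l 15135600)))) (c (b (l 15367568) (l 15098032)) (b (l 15331112) (l 15255200)))) (b (c (l 15326008) (l 15324072)) (a (l 15119992) (l 15219528)))) (b (l 15319224) (c (c (l 15261216) (c (l 15260432) (l 15223648))) (c (l 15217240) (l 15213976)))))))), by decide +kernel⟩

def k8_pm_012 : ∃ t, chk3 f_pm_012 t 27 47 1 = true :=
  ⟨(a (l 14578744) (b (b (a (c (a (l 14601864) (a (l 14601128) (l 14701608))) (a (l 14523248) (l 14566472))) (c (a (a (l 14883936) (l 14869088)) (a (c (l 15040424) (l 15048256)) (b (c (l 15231464) (l 15191824)) (l 15057992)))) (a (l 14798448) (a (l 15012744) (l 15007720))))) (a (a (l 14464320) (c (c (l 14503376) (l 14463016)) (l 14406392))) (a (a (a (l 14364808) (l 14453136)) (l 14556168)) (c (c (a (l 14804104) (l 14909840)) (l 14820032)) (l 14686816))))) (a (l 14365040) (b (a (c (a (l 14364168) (l 14352736)) (l 14290432)) (a (c (l 14367320) (l 14281776))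 (l 14273888))) (a (l 14246856) (b (c (l 14267872) (l 14178000)) (l 14162320))))))), by decide +kernel⟩

def k9_pm_012 : ∃ t, chk3 f_pm_012 t 6 3 1 = true :=
  ⟨(b (b (b (a (a (b (l 15961632) (l 15680464)) (a (l 15712704) (l 15503704))) (a (a (l 15202944) (b (l 14776592) (l 14714080))) (a (a (l 14207200) (l 14233872)) (b (l 14183592) (l 14036520))))) (a (a (l 122101650647) (a (l 15318520) (l 139817575863))) (a (a (l 138206569559) (l 14675016)) (a (a (l 14394896) (l 14223392)) (b (l 13996176) (l 14021192)))))) (b (a (l 4) (a (l 4) (a (a (l 4) (l 14328160)) (l 183301929207)))) (l 4))) (l 4)), by decide +kernel⟩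

def k10_pm_012 : ∃ t, chk3 f_pm_012 t 7 2 1 = true :=
  ⟨(a (a (b (b (l 15511344) (l 15299848)) (b (l 15100560) (a (b (l 15139304) (b (l 15077376) (a (b (b (a (c (c (l 15154544) (c (l 15152488) (l 15116040))) (a (l 15124144) (l 15095416))) (l 15101864)) (a (c (a (c (l 14933640) (l 14942016)) (b (c (l 15124224) (l 15084352)) (l 14953344))) (a (l 14908528) (l 14775672))) (a (c (l 15069816) (l 15014688)) (l 15067104)))) (c (a (b (a (l 14671104) (c (l 14805824) (l 14773936))) (a (l 14253984) (l 14342568))) (b (c (a (b (a (l 14884704) (l 15055552)) (l 14821880)) (a (b (l 15060568) (l 14831656)) (l 15002416))) (a (l 14731376) (l 14804576))) (a (l 14573216) (c (l 14703968) (l 14676552))))) (a (b (l 14619544) (l 14212656)) (b (a (l 14868888) (c (l 14939504) (l 14918432))) (l 14523800))))) (b (l 14947416) (b (a (a (c (l 14960768) (l 14905192)) (l 14956808)) (l 14881608)) (a (a (c (b (a (l 14806080) (c (l 14946792) (l 14898552))) (l 14452168)) (l 14629952)) (c (c (c (l 14908728) (l 14750680)) (l 14697616))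 (a (l 14824704) (l 14822784)))) (a (c (l 14851048) (l 14795800)) (l 14845824)))))))) (l 14734392)))) (b (b (l 15111920) (l 14882528)) (b (l 14679200) (l 14513160)))) (a (b (c (b (l 14810280) (l 14572824)) (l 14395256)) (c (b (l 14370240) (a (l 14332600) (l 14092752))) (b (l 14325888) (l 14163304)))) (b (c (a (b (l 14550240) (l 14272168)) (b (l 14414800) (l 14129000))) (a (b (l 14520920) (l 14256648)) (b (l 14320144) (c (l 14089144) (l 14068576))))) (c (a (b (l 14033312) (l 13858088)) (b (l 13903584) (l 13760168))) (a (b (l 14031320) (l 13870096)) (b (a (l 13874328) (l 13824864)) (a (l 13732136) (l 13697904)))))))), by decide +kernel⟩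

def k11_pm_012 : ∃ t, chk3 f_pm_012 t 56 24 1 = true :=
  ⟨(b (a (b (b (a (a (l 14078160) (b (l 14089800) (l 14027944))) (c (a (l 14143144) (l 14237552)) (l 14102688))) (a (l 14031208) (a (l 13965824) (c (l 14017216) (l 13918416))))) (l 13955568)) (b (a (b (c (c (a (l 14511704) (l 14520008)) (a (l 14371856) (l 14582240))) (c (l 14463456) (l 14364256))) (c (a (l 14035200) (l 14158808)) (l 13995568))) (c (b (a (b (a (l 14705032) (b (l 14833216) (l 14706872))) (c (l 14616232) (l 14616384))) (b (l 14793672) (a (l 14655416) (l 14777608)))) (c (a (l 14424032) (c (l 14514032) (l 14510624))) (a (l 14282496) (l 14490072)))) (b (a (b (l 14751168) (l 14560120)) (c (l 14726552) (l 14709784))) (a (l 14217080) (l 14420120))))) (b (a (c (a (l 13923720) (l 13907080)) (l 13833496)) (c (a (l 13930832) (l 14066712)) (l 13809600))) (a (l 13815872) (c (a (l 13815376) (l 13798088)) (c (l 13742432) (l 13689176))))))) (l 13824920)), by decide +kernel⟩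

def k12_pm_012 : ∃ t, chk3 f_pm_012 t 57 48 1 = true :=
  ⟨(b (a (c (a (b (l 14716008) (c (a (b (l 14740608) (l 14513352)) (l 14686776)) (a (b (l 14662560) (l 14519992)) (l 14566976)))) (l 14613056)) (c (a (b (l 14702032) (a (l 14617192) (l 14619328))) (l 14596656)) (c (a (b (l 14674688) (l 14590864)) (l 14588744)) (a (b (l 14669776) (l 14575512)) (b (l 14595136) (l 14564680)))))) (l 14562584)) (b (a (c (a (c (a (l 14192896) (c (l 14414816) (l 14414424))) (a (l 14275256) (l 14398848))) (c (a (b (l 14630944) (l 14412888)) (l 14584584)) (a (b (l 14577904) (l 14425232)) (c (l 14575720) (l 14535512))))) (a (a (l 14133976) (l 14341384)) (a (b (l 14548640) (l 14398656)) (c (l 14521104) (l 14507008))))) (l 14551720)) (a (a (a (c (l 13831192) (l 13726824)) (b (l 14036600) (l 13835232))) (c (a (b (c (l 14284424) (l 14313552)) (l 14055032)) (b (c (a (l 14385264) (l 14572152)) (a (l 14394872) (l 14447128))) (c (l 14186464) (l 14287096)))) (a (l 14067336) (c (l 14378168) (l 14305400))))) (a (c (a (b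 (l 14468304) (c (a (l 14343408) (l 14526856)) (a (l 14356832) (l 14259672)))) (l 14509880)) (a (c (l 14380248) (l 14416600)) (b (l 14511304) (l 14440424)))) (l 14530336))))), by decide +kernel⟩

def k13_pm_012 : ∃ t, chk3 f_pm_012 t 57 49 1 = true :=
  ⟨(a (b (b (a (c (a (l 13707400) (l 13694592)) (a (l 13595984) (l 13584640))) (c (a (l 13748880) (b (l 13993728) (l 13820520))) (a (l 13641872) (l 13826256)))) (a (l 13603944) (c (a (l 13614480) (l 13357432)) (a (l 13500064) (l 13496360))))) (l 13570032)) (b (b (c (a (c (a (b (c (l 14180776) (l 14282360)) (l 14009728)) (a (l 14065152) (b (l 14512200) (l 14304632)))) (a (l 14165248) (b (a (l 14336872) (l 14459584)) (l 14259224)))) (a (a (c (c (l 14510896) (l 14354248)) (l 14295800)) (l 14493744)) (l 14486920))) (a (a (l 14066440) (b (c (l 14417176) (l 14380416)) (l 14188112))) (c (a (l 14421880) (l 14462480)) (a (l 14399688) (l 14427456))))) (c (c (a (a (l 13712048) (a (l 13890048) (l 14050448))) (a (b (l 14278688) (l 14158976)) (b (l 14490776)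 (l 14286128)))) (a (a (l 13658640) (l 13904880)) (a (l 14198408) (b (l 14431064) (l 14285912))))) (a (a (l 13576952) (l 13829464)) (a (l 14124088) (b (l 14309056) (l 14241568)))))) (b (c (a (a (b (l 13515104) (l 13491376)) (c (l 13609960) (l 13554208))) (a (a (l 13697256) (l 13836072)) (b (c (l 14207840) (l 14156576)) (l 13922656)))) (a (a (l 13410088) (l 13471832)) (a (l 13651704) (l 13924096)))) (a (l 13448344) (a (b (c (l 13566176) (l 13451392)) (l 13473872)) (c (b (l 13713824) (l 13606856)) (l 13561160))))))), by decide +kernel⟩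

def k14_pm_012 : ∃ t, chk3 f_pm_012 t 28 25 1 = true :=
  ⟨(a (b (l 13776000) (l 13762872)) (a (l 13611264) (b (c (l 13570408) (l 13456608)) (c (a (l 13639992) (l 13649832)) (l 13530448))))), by decide +kernel⟩

def k15_pm_012 : ∃ t, chk3 f_pm_012 t 28 13 1 = true :=
  ⟨(b (a (l 13838272) (c (a (l 13764072) (c (l 13753880) (l 13700496))) (l 13638816))) (l 4)), by decide +kernel⟩

def k16_pm_012 : ∃ t, chk3 f_pm_012 t 58 24 1 = true :=
  ⟨(b (l 14480848) (b (a (a (a (b (l 14505704) (c (c (l 14482304) (c (l 14468832) (l 14427752))) (c (l 14409144) (l 14388552)))) (l 14490480)) (l 14472480)) (l 14436040)) (c (a (a (b (a (a (c (l 14243224) (l 14219760)) (b (b (l 14356216) (l 14336512)) (l 14212344))) (b (l 14458648) (c (a (l 14304176) (l 14467368)) (l 14389720)))) (a (b (l 13972440) (l 13768848)) (b (c (l 14249840) (l 14222696)) (l 14080736)))) (b (l 14440512) (b (a (c (a (l 14208440) (l 14455896)) (l 14389336)) (l 14434760)) (c (a (l 14264464) (l 14343560)) (a (l 14245672) (l 14385712))))))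 (l 14404896)) (b (a (a (a (b (l 14315800) (l 14087928)) (c (l 14372096) (l 14341360))) (a (a (l 14379720) (l 14425984)) (l 14416840))) (l 14386080)) (a (a (a (l 13760240) (l 14050680)) (a (a (l 14253536) (l 14319864)) (a (l 14346456) (l 14357136)))) (a (a (c (l 14392264) (l 14357728)) (l 14386040)) (l 14367480))))))), by decide +kernel⟩

def k17_pm_012 : ∃ t, chk3 f_pm_012 t 58 50 1 = true :=
  ⟨(a (a (b (b (a (c (b (l 13649400) (l 13615808)) (l 13538592)) (c (b (l 13842912) (l 13694960)) (l 13657496))) (a (l 13551152) (b (c (l 13654184) (l 13540032)) (l 13581152)))) (l 13580728)) (a (b (b (c (b (l 14128992) (l 13897936)) (l 13885472)) (c (b (l 13742840) (l 13693320)) (l 13622736))) (l 13619072)) (b (c (b (b (c (l 14275496) (l 14262560)) (l 14169008)) (b (l 13953472) (l 13793320))) (b (b (l 14207608) (l 14024336)) (l 13761976))) (b (b (c (l 13670608) (l 13621976)) (l 13649376)) (l 13650784))))) (b (b (a (c (a (c (b (l 14434680) (a (l 14288576) (l 14398824))) (b (l 14380184) (l 14345160)))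 (l 14413824)) (a (c (l 14327568) (l 14290368)) (b (l 14381488) (l 14330808)))) (l 14402392)) (a (a (c (b (c (l 14227872) (l 14184344)) (l 14008576)) (l 14010672)) (c (c (b (l 14379536) (l 14249872)) (b (l 14350904) (l 14217528))) (b (l 14290768) (l 14135408)))) (c (a (b (l 14399072) (a (l 14132632) (l 14369744))) (l 14391440)) (a (b (l 14323520) (l 14296816)) (b (l 14350936) (l 14315656)))))) (a (b (a (c (b (l 13846632) (c (l 13799504) (l 13745608))) (l 13714280)) (c (b (l 14103600) (l 13902880)) (l 13875200))) (a (l 13684184) (c (c (a (l 13814320) (l 13851352)) (l 13789016)) (l 13709952)))) (a (c (b (c (b (l 14265664) (l 14184832)) (b (l 14241184) (l 14117896))) (b (l 13977832) (c (l 13890040) (l 13837536)))) (b (a (l 14041312) (l 14156712)) (l 13813944))) (b (a (c (b (l 14360552) (l 14259072)) (l 14257424)) (c (b (l 14385800) (l 14349008)) (l 14286240))) (c (b (c (l 14221432) (l 14170656)) (l 14033528)) (c (l 14024400) (l 13976704)))))))), by decide +kernel⟩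

def k18_pm_012 : ∃ t, chk3 f_pm_012 t 58 51 1 = true :=
  ⟨(a (c (l 13643840) (l 13569896)) (b (a (l 13696960) (b (a (c (b (c (l 13853904) (l 13800096)) (l 13810056)) (l 13721672)) (c (b (l 13768080) (c (l 13896272) (l 13843192))) (l 13798016))) (l 13765272))) (c (l 13777056) (l 13660768)))), by decide +kernel⟩

def k19_pm_012 : ∃ t, chk3 f_pm_012 t 59 24 1 = true :=
  ⟨(l 14368400), by decide +kernel⟩

def k20_pm_012 : ∃ t, chk3 f_pm_012 t 118 25 1 = true :=
  ⟨(b (b (l 14362776) (b (a (a (b (l 14374248) (c (c (l 14390160) (l 14339944)) (l 14290984))) (l 14360656)) (l 14342176)) (b (a (c (a (a (l 14271192) (l 14346576)) (l 14363688)) (a (l 14255464) (l 14283776))) (l 14338240)) (c (a (c (a (l 14247568) (a (l 14357632) (l 14378120))) (a (l 14208616) (l 14319688))) (l 14345872)) (a (a (l 14124632) (l 14262120)) (a (c (l 14304576) (l 14265272)) (l 14287424))))))) (a (b (c (c (b (a (b (l 14144144) (l 13991728)) (l 14229832)) (a (l 14002872) (l 14034616))) (a (c (l 13953648) (l 13888424)) (b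 (b (l 14234008) (l 14115528)) (b (l 13996920) (l 13932536))))) (a (b (b (l 13990112) (l 13863088)) (l 13807144)) (b (a (l 14059448) (l 14153920)) (l 13893560)))) (a (c (l 13863040) (l 13750240)) (a (l 13837320) (b (b (c (l 13941760) (l 13833864)) (l 13867376)) (l 13849104))))) (a (b (b (b (c (c (a (l 14353512) (l 14367088)) (l 14315288)) (l 14260672)) (c (a (l 14257704) (l 14324248)) (l 14216392))) (c (c (l 14238616) (l 14044872)) (l 14063576))) (b (c (c (l 14061680) (l 14000312)) (l 13895416)) (l 13886304))) (c (c (a (b (l 14128616) (l 14080264)) (b (l 14314672) (c (l 14156424) (l 14090872)))) (b (c (l 14122480) (l 14271728)) (l 14045728))) (b (b (b (l 14284872) (c (l 14275688) (l 14241368))) (b (l 14231048) (l 14139192))) (c (l 14001672) (l 13836688))))))), by decide +kernel⟩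

def k21_pm_012 : ∃ t, chk3 f_pm_012 t 119 25 1 = true :=
  ⟨(b (l 14307584) (a (c (b (c (l 14311344) (c (l 14283656) (l 14263984))) (c (b (a (l 14313600) (l 14307336)) (a (l 14121912) (l 14238464))) (b (c (l 14266784) (l 14247216)) (a (l 14079768) (l 13949648))))) (b (a (c (l 14238584) (l 13971544)) (l 14215808)) (b (a (b (l 14171072) (l 14091120)) (l 14211976)) (a (l 14015160) (a (l 14066088) (l 14132712)))))) (c (c (l 14305672) (l 14265896)) (l 14184168)))), by decide +kernel⟩

def k22_pm_012 : ∃ t, chk3 f_pm_012 t 29 13 1 = true :=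
  ⟨(b (a (c (a (c (b (l 13744864) (l 13790752)) (l 13617624)) (c (b (l 13803392) (c (l 13861848) (l 13798792))) (b (l 13738688) (l 13746584)))) (l 13659208)) (b (c (a (a (c (l 13874008) (l 13813744)) (c (l 13949720) (l 13892720))) (a (c (l 14094392) (b (l 14025680) (l 13967464))) (c (b (a (l 14242808) (l 14298448)) (l 14165040)) (a (l 14115280) (b (l 14256496) (l 14145936)))))) (a (l 13463600) (a (a (l 13909184) (l 13999096)) (a (l 14043872) (b (l 14108320) (l 14071560)))))) (c (c (a (b (l 13906304) (l 13896592)) (a (l 13975688) (a (l 14025288) (l 14072768)))) (c (a (b (l 13854464) (l 13821016)) (a (l 13925048) (c (l 14023672) (l 13973072)))) (a (l 13797928) (b (l 13948752) (l 13899968))))) (a (l 13733232) (a (l 13811424) (l 13887912)))))) (a (c (c (c (a (l 168269383895) (c (l 14038904) (l 14004336))) (c (l 179006756103) (l 13946384))) (c (b (l 192965213367) (l 4)) (l 13889872))) (l 13827384)) (b (c (c (a (c (l 13941440) (c (l 13901976) (l 13841544))) (a (l 13939784) (l 13991048))) (c (a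 (l 13796016) (a (l 13847680) (c (l 13957664) (l 13893056)))) (l 13846880))) (l 13783416)) (b (c (a (l 4) (c (c (l 13973704) (a (l 13965528) (l 13802936))) (c (c (a (l 13862632) (l 13931384)) (l 13850856)) (l 13827712)))) (l 13758168)) (l 4))))), by decide +kernel⟩

def k23_pm_012 : ∃ t, chk3 f_pm_012 t 14 7 1 = true :=
  ⟨(a (l 4) (l 4)), by decide +kernel⟩

def k24_pm_012 : ∃ t, chk3 f_pm_012 t 15 12 1 = true :=
  ⟨(a (a (b (l 14203248) (l 14055224)) (c (l 13995216) (l 13971512))) (a (c (c (l 13762880) (l 13802600)) (l 13813016)) (a (c (l 13679352) (l 13685368)) (c (l 13716408) (c (l 13656336) (a (l 13642208) (l 13629328))))))), by decide +kernel⟩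

def k25_pm_012 : ∃ t, chk3 f_pm_012 t 30 26 1 = true :=
  ⟨(a (a (c (c (b (a (a (b (l 14288864) (l 14223456)) (l 14265640)) (a (l 14174744) (l 14214352))) (b (a (l 14149664) (l 14195168)) (l 14107360))) (b (b (l 14204232) (a (l 14210640) (l 14211088))) (b (a (l 14103912) (l 14167152)) (a (l 14046728) (l 14104016))))) (b (b (l 14140216) (l 14051552)) (b (l 14069296) (l 13971632)))) (a (c (c (b (l 14173208) (b (c (l 14234784) (l 14252848)) (l 14187328))) (b (l 14157480) (b (l 14227504) (l 14177152)))) (b (l 14091112) (b (l 14160760) (l 14098992)))) (b (l 14106424) (c (b (c (l 14193104) (l 14198760)) (c (l 14009416) (l 14246360))) (b (l 14133544) (l 14179184)))))) (c (c (l 14029120) (a (a (l 14140568) (l 14117704)) (l 14044352))) (a (l 14062280) (l 14013184)))), by decide +kernel⟩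

def k26_pm_012 : ∃ t, chk3 f_pm_012 t 60 27 1 = true :=
  ⟨(b (b (c (a (c (a (l 14064848) (l 14081528)) (c (a (l 14039344) (l 14081880)) (l 13825328))) (a (c (l 14125048) (l 14116408)) (c (l 14176464) (l 14186184)))) (a (l 13926880) (a (l 14020104) (l 14106240)))) (c (c (a (a (l 14021648) (l 14058664)) (a (l 14087784) (l 14114368))) (a (c (a (l 13997280) (l 14064544)) (a (l 13915632) (l 13988224))) (a (c (l 14108520) (l 14062936)) (l 14082624)))) (a (l 13891072) (a (l 13974936) (l 14026216))))) (c (c (a (a (l 14011504) (l 14019992)) (b (a (l 14054096) (l 14101032)) (l 14053592))) (a (c (a (c (a (l 14011040) (l 14036576)) (c (l 13964376) (l 13924304))) (c (l 14057384) (l 14024064))) (a (l 13894760) (c (l 13953192) (l 13925856)))) (b (a (c (l 14082320) (l 14030304)) (c (l 14125104) (l 14020200))) (c (l 14080384) (a (c (l 14025720) (l 13962216)) (l 14073040)))))) (a (l 13959848) (b (a (l 13933576) (l 14006176)) (l 13936384))))), by decide +kernel⟩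

def k27_pm_012 : ∃ t, chk3 f_pm_012 t 61 27 1 = true :=
  ⟨(a (a (c (b (b (c (l 14233808) (c (l 14269720) (l 14256144))) (c (l 14157240) (l 14173632))) (c (b (l 14123568) (l 14116072)) (b (c (l 14145032) (l 14146696)) (c (l 14133296) (l 14140384))))) (b (b (l 14198216) (l 14100848)) (b (l 14054392) (c (l 14062592) (l 14012144))))) (c (b (b (c (l 14183344) (l 14106112)) (c (l 14228048) (c (l 14275536) (l 14277648)))) (b (c (l 14164384) (l 14196192)) (c (l 14149176) (c (l 14166392) (l 14183712))))) (b (b (l 14179952) (a (l 14172984) (l 14227240))) (b (l 14135200) (c (c (c (l 14164544) (l 14124872)) (l 14105384)) (l 14071264)))))) (b (a (b (l 14163864) (c (a (c (l 14199120) (l 14261296)) (c (l 14170104) (l 14238336))) (a (l 14219208) (l 14205936)))) (l 14149648)) (b (a (c (a (c (l 14195536) (l 14245704)) (c (l 14224760) (l 14268752))) (a (l 14200536) (c (l 14278320) (l 14233976)))) (c (a (c (l 14201936) (l 14273520)) (l 14209744)) (a (l 14147368) (l 14239544)))) (c (a (a (l 14190744) (l 14210488))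 (a (l 14131544) (c (l 14231744) (l 14301912)))) (a (a (c (l 14175928) (l 14117312)) (l 14184960)) (a (c (l 14261504) (l 14212680)) (c (c (l 14325696) (l 14302304)) (l 14270280)))))))), by decide +kernel⟩

def k28_pm_012 : ∃ t, chk3 f_pm_012 t 31 13 1 = true :=
  ⟨(c (a (a (b (l 13903472) (a (b (l 14087640) (b (l 14175736) (a (l 14245104) (l 14226784)))) (l 14115024))) (b (l 13805184) (b (l 13999280) (l 14237272)))) (b (a (b (l 13702448) (l 13848392)) (l 13932992)) (a (c (l 14217184) (l 14227160)) (l 14463592)))) (b (a (l 13900192) (a (c (l 13810480) (l 13830792)) (c (l 13880768) (a (l 13832000) (l 13896360))))) (a (b (l 14093048) (b (l 14230880) (a (a (a (c (c (l 14319304) (l 14300272)) (l 14268496)) (c (c (l 14312240) (l 14298408)) (l 14267256))) (l 14318424)) (l 14400216)))) (a (c (l 14270504) (l 14302648)) (c (l 14427056) (l 14225008)))))), by decide +kernel⟩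

def k29_pm_012 : ∃ t, chk3 f_pm_012 t 30 14 1 = true :=
  ⟨(b (a (b (b (a (l 4) (c (c (c (l 14065424) (l 14073752)) (c (a (l 14101048) (l 14096976)) (c (a (l 14059496) (l 14106256)) (a (l 13991976) (l 14044248))))) (c (l 13975176) (l 13927168)))) (l 4)) (l 4)) (a (b (c (c (c (l 14185488) (l 14185832)) (c (a (l 14209712) (l 14183208)) (c (l 14216824) (a (b (l 14118440) (l 14153872)) (l 14214376))))) (c (c (c (a (b (l 14059112) (l 14089776)) (c (l 14202904) (l 14169648))) (a (l 14139640) (l 14096136))) (l 14120352)) (l 14086456))) (l 4)) (b (b (a (c (c (l 14185032) (c (l 14197256) (l 14213656))) (c (c (c (l 14223112) (l 14195448)) (l 14154976)) (l 14121520))) (c (a (c (l 14199056) (l 14225888)) (l 14244600)) (c (a (c (l 14241432) (l 14195280)) (l 14185280)) (l 13904752)))) (c (a (c (l 14190344) (l 14196456)) (a (c (l 14248576) (l 14258600)) (c (l 14305808) (l 14322512)))) (c (c (a (c (l 14219136) (a (l 14146728) (l 14206832))) (a (l 14276832) (l 14346584))) (a (l 14137056) (a (l 14221872)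 (l 14304304)))) (a (l 14103384) (l 14232952))))) (c (c (a (l 224641728439) (l 14508344)) (c (l 238063522359) (a (l 14306728) (l 14518680)))) (c (a (b (c (a (c (l 14272000) (l 14210616)) (c (l 14318888) (l 14223136))) (l 14207560)) (l 4)) (c (c (l 14538576) (c (l 14548488) (l 14345712))) (c (c (l 260612228167) (l 14485896)) (l 14477368)))) (l 14409584)))))) (l 4)), by decide +kernel⟩

def k30_pm_012 : ∃ t, chk3 f_pm_012 t 124 14 1 = true :=
  ⟨(b (b (a (c (b (a (l 14291512) (l 14354128)) (a (l 14371864) (l 14433624))) (c (c (b (a (l 14350648) (l 14436832)) (a (l 14409032) (l 14482184))) (b (a (l 14330656) (l 14424024)) (a (l 14386944) (l 14471648)))) (b (a (l 14293760) (l 14392224)) (l 14349320)))) (c (a (b (b (l 14335736) (l 14415328)) (l 14499992)) (c (c (l 14377352) (l 14454448)) (c (l 14492488) (l 14427160)))) (a (c (b (b (l 14344432) (c (l 14511384) (l 14507104))) (c (l 14572040) (l 14571344))) (b (l 14428912) (l 14536272))) (b (c (l 14434384) (l 14473800)) (c (b (c (l 14617128) (l 14625144))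 (l 14494232)) (l 14617368)))))) (a (a (c (c (l 14569896) (l 14571280)) (c (c (l 14594840) (c (c (l 14600904) (l 14567520)) (l 14547040))) (l 14523656))) (c (b (l 14554952) (l 14675168)) (c (c (b (l 14584168) (l 14682872)) (c (b (l 14590480) (l 14694952)) (b (l 14554720) (l 14649816)))) (l 14614832)))) (c (c (c (a (l 14687152) (l 14721288)) (l 14711560)) (c (l 14490296) (l 14504208))) (c (c (c (l 14558792) (a (l 14492256) (l 14647560))) (a (b (a (l 14633264) (l 14670464)) (c (l 14772992) (l 14747920))) (a (b (l 14711576) (l 14825408)) (b (l 14756672) (l 14866736))))) (a (l 14697808) (l 14738856)))))) (b (b (c (c (a (l 14828200) (l 14960880)) (a (l 14812600) (l 14961160))) (c (c (a (l 14828664) (l 14976016)) (c (a (a (l 4) (l 14778144)) (l 14996336)) (a (l 294435657095) (c (a (l 14899520) (l 14979264)) (l 14799192))))) (l 14893664))) (l 4)) (l 4))), by decide +kernel⟩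

def k31_pm_012 : ∃ t, chk3 f_pm_012 t 125 28 1 = true :=
  ⟨(b (b (c (l 14464624) (l 14561552)) (a (c (c (c (l 14472808) (a (l 14551488) (l 14578712))) (a (l 14442648) (l 14638328))) (c (a (a (l 14620096) (l 14697464)) (l 14715168)) (a (a (l 14667088) (l 14686728)) (l 14713136)))) (c (l 14647048) (l 14760296)))) (c (c (a (b (c (l 14706208) (a (l 14720704) (l 14744776))) (c (l 14761368) (a (l 14855008) (l 14824368)))) (l 14868856)) (a (b (c (l 14768048) (l 14642728)) (a (l 14870784) (b (l 14901712) (l 14965216)))) (c (a (l 14890016) (l 14912800)) (l 14940968)))) (c (a (a (b (b (l 14711016) (l 14827488)) (b (l 14874312) (c (l 14930216) (l 14942608)))) (b (b (l 14840968) (l 14901992)) (b (l 14964400) (l 15007696)))) (c (l 14733536) (c (l 14851608) (a (l 14835648) (l 14984608))))) (a (a (b (b (l 14782096) (l 14809872)) (b (l 14853968) (l 14913704))) (b (b (l 14840896) (l 14923216)) (b (l 14961696) (l 15000424)))) (b (l 14939392) (a (b (l 15053160) (l 15101656)) (a (b (l 15083840) (l 15173936))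 (l 15147656)))))))), by decide +kernel⟩

def k32_pm_012 : ∃ t, chk3 f_pm_012 t 125 29 1 = true :=
  ⟨(b (a (c (a (c (l 15136736) (l 15135296)) (c (c (l 15190488) (l 257929250311)) (l 275645983639))) (c (c (b (l 15097912) (l 15279432)) (c (a (l 15161728) (b (l 15141328) (l 15311176))) (a (l 323964263335) (l 330943761591)))) (c (c (a (l 14889488) (b (b (l 15079048) (l 15142512)) (c (l 15301520) (l 15299848)))) (l 14989240)) (l 307858276791)))) (a (c (c (l 15231664) (c (l 15218992) (l 15252824))) (c (c (l 15270048) (b (l 14990072) (l 15356640))) (c (c (b (b (l 15161240) (l 15232496)) (c (l 15374512) (l 15150808))) (l 15281512)) (l 15272472)))) (c (c (l 15268088) (a (c (l 15176264) (l 15307296)) (c (l 15306168) (l 15132496)))) (b (a (c (a (l 15204976) (l 15249768)) (b (l 15224672) (l 15277928))) (c (b (l 15247496) (l 15303344)) (b (l 15280136) (l 15324040)))) (c (c (l 15416800) (l 15376720)) (c (c (b (l 15299320) (l 15483064)) (b (a (l 15359024) (l 15401496)) (l 15464232))) (l 15430784)))))))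 (a (l 4) (b (c (c (l 15570568) (l 15423176)) (c (c (l 15577528) (l 15552392)) (c (c (c (l 15527752) (a (a (l 4) (l 15309088)) (l 15625568))) (a (l 15576040) (l 369062349383))) (l 15577888)))) (l 4)))), by decide +kernel⟩

def k33_pm_012 : ∃ t, chk3 f_pm_012 t 63 14 1 = true :=
  ⟨(a (b (b (c (l 14681312) (l 14744672)) (c (l 14823416) (c (l 15081688) (l 15132008)))) (a (b (c (c (b (l 15200504) (a (l 15407344) (l 15406904))) (c (l 15331144) (a (b (l 15224184) (c (l 15438312) (l 15450872))) (b (l 15272632) (l 15464184))))) (b (c (a (c (l 15289152) (l 15337720)) (l 15334984)) (c (a (c (l 15365640) (c (l 15196664) (l 15360632))) (l 15397888)) (l 15367752))) (c (a (b (l 15450904) (a (l 15507520) (l 15529872))) (c (l 15501648) (l 15551392))) (c (c (a (b (l 15499544) (l 15539600)) (l 15462024)) (a (b (l 15495336) (a (l 15532664) (l 15565672))) (c (l 15595568) (c (l 15488944) (l 15487128))))) (a (b (l 15485576) (l 15519904)) (l 15586560)))))) (a (a (c (c (l 15672848) (l 15671144)) (c (l 15681864)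 (c (c (l 15707128) (c (l 15601600) (l 15689056))) (l 15683736)))) (l 6)) (l 6))) (b (b (c (l 15297608) (l 15383144)) (b (c (l 15412992) (l 15503104)) (l 6))) (l 6)))) (b (c (b (l 14922784) (l 15031320)) (c (b (l 14899344) (l 15205640)) (a (l 15035080) (b (l 14951896) (l 15252240))))) (b (c (l 15450272) (c (l 15463528) (a (l 15483560) (l 6)))) (l 6)))), by decide +kernel⟩

def k34_pm_012 : ∃ t, chk3 f_pm_012 t 15 15 1 = true :=
  ⟨(a (l 4) (a (l 4) (l 6))), by decide +kernel⟩

theorem s35_pm_012 : ∃ t, chk3 f_pm_012 t 125 14 1 = true := ex3_b k31_pm_012 k32_pm_012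

theorem s36_pm_012 : ∃ t, chk3 f_pm_012 t 62 14 1 = true := ex3_a k30_pm_012 s35_pm_012

theorem s37_pm_012 : ∃ t, chk3 f_pm_012 t 31 14 1 = true := ex3_a s36_pm_012 k33_pm_012

theorem s38_pm_012 : ∃ t, chk3 f_pm_012 t 15 14 1 = true := ex3_a k29_pm_012 s37_pm_012

theorem s39_pm_012 : ∃ t, chk3 f_pm_012 t 15 7 1 = true := ex3_b s38_pm_012 k34_pm_012

theorem s40_pm_012 : ∃ t, chk3 f_pm_012 t 30 27 1 = true := ex3_a k26_pm_012 k27_pm_012

theorem s41_pm_012 : ∃ t, chk3 f_pm_012 t 30 13 1 = true := ex3_b k25_pm_012 s40_pm_012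

theorem s42_pm_012 : ∃ t, chk3 f_pm_012 t 15 13 1 = true := ex3_a s41_pm_012 k28_pm_012

theorem s43_pm_012 : ∃ t, chk3 f_pm_012 t 15 6 1 = true := ex3_b k24_pm_012 s42_pm_012

theorem s44_pm_012 : ∃ t, chk3 f_pm_012 t 15 3 1 = true := ex3_b s43_pm_012 s39_pm_012

theorem s45_pm_012 : ∃ t, chk3 f_pm_012 t 59 25 1 = true := ex3_a k20_pm_012 k21_pm_012

theorem s46_pm_012 : ∃ t, chk3 f_pm_012 t 59 12 1 = true := ex3_b k19_pm_012 s45_pm_012

theorem s47_pm_012 : ∃ t, chk3 f_pm_012 t 58 25 1 = true := ex3_b k17_pm_012 k18_pm_012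

theorem s48_pm_012 : ∃ t, chk3 f_pm_012 t 58 12 1 = true := ex3_b k16_pm_012 s47_pm_012

theorem s49_pm_012 : ∃ t, chk3 f_pm_012 t 29 12 1 = true := ex3_a s48_pm_012 s46_pm_012

theorem s50_pm_012 : ∃ t, chk3 f_pm_012 t 29 6 1 = true := ex3_b s49_pm_012 k22_pm_012

theorem s51_pm_012 : ∃ t, chk3 f_pm_012 t 57 24 1 = true := ex3_b k12_pm_012 k13_pm_012

theorem s52_pm_012 : ∃ t, chk3 f_pm_012 t 28 24 1 = true := ex3_a k11_pm_012 s51_pm_012

theorem s53_pm_012 : ∃ t, chk3 f_pm_012 t 28 12 1 = true := ex3_b s52_pm_012 k14_pm_012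

theorem s54_pm_012 : ∃ t, chk3 f_pm_012 t 28 6 1 = true := ex3_b s53_pm_012 k15_pm_012

theorem s55_pm_012 : ∃ t, chk3 f_pm_012 t 14 6 1 = true := ex3_a s54_pm_012 s50_pm_012

theorem s56_pm_012 : ∃ t, chk3 f_pm_012 t 14 3 1 = true := ex3_b s55_pm_012 k23_pm_012

theorem s57_pm_012 : ∃ t, chk3 f_pm_012 t 7 3 1 = true := ex3_a s56_pm_012 s44_pm_012

theorem s58_pm_012 : ∃ t, chk3 f_pm_012 t 7 1 1 = true := ex3_b k10_pm_012 s57_pm_012

theorem s59_pm_012 : ∃ t, chk3 f_pm_012 t 27 23 1 = true := ex3_b k7_pm_012 k8_pm_012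

theorem s60_pm_012 : ∃ t, chk3 f_pm_012 t 27 11 1 = true := ex3_b k6_pm_012 s59_pm_012

theorem s61_pm_012 : ∃ t, chk3 f_pm_012 t 27 5 1 = true := ex3_b k5_pm_012 s60_pm_012

theorem s62_pm_012 : ∃ t, chk3 f_pm_012 t 26 5 1 = true := ex3_b k3_pm_012 k4_pm_012

theorem s63_pm_012 : ∃ t, chk3 f_pm_012 t 13 5 1 = true := ex3_a s62_pm_012 s61_pm_012

theorem s64_pm_012 : ∃ t, chk3 f_pm_012 t 13 2 1 = true := ex3_b k2_pm_012 s63_pm_012

theorem s65_pm_012 : ∃ t, chk3 f_pm_012 t 6 2 1 = true := ex3_a k1_pm_012 s64_pm_012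

theorem s66_pm_012 : ∃ t, chk3 f_pm_012 t 6 1 1 = true := ex3_b s65_pm_012 k9_pm_012

theorem s67_pm_012 : ∃ t, chk3 f_pm_012 t 3 1 1 = true := ex3_a s66_pm_012 s58_pm_012

theorem s68_pm_012 : ∃ t, chk3 f_pm_012 t 1 1 1 = true := ex3_a k0_pm_012 s67_pm_012

theorem c_pm_012 : CertNX 0 536870912 0 536870912 1046898278 26843546 3 false true false .pnp 0 1 2
    ndN3q0 ndN0q2 pcN1 cut_pm_012 Ext.none :=
  certNX2 (fam := false) (s1 := true) (s2 := false) (a := 0) (b := 1) (c := 2) (cn := .pnp) (n1 := ndN3q0) (n2 := ndN0q2) (pc := pcN1) (cut := cut_pm_012) (xt := Ext.none) (P1 := 0) (W1 := 536870912) (P2 := 0) (W2 := 536870912) (P3 := 1046898278) (W3 := 26843546) (N0 := 3)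
    rfl (fun _ => rfl) s68_pm_012

noncomputable def cut_pm_022 : Cut := Cut.of [[⟨0, 0, 0, 67108864⟩, ⟨1, 1, 0, 67108864⟩, ⟨2, 1, 0, 67108864⟩]]

noncomputable def f_pm_022 : ℕ → ℕ → ℕ → ℕ → Bool := onCell 1073741824 536870912 0 536870912 1046898278 26843546
    (rowNX 3 2 false true false .pp 0 2 2 (qsf 0 536870912 0 536870912 2) ndN3q0 ndN0q2 pcN2 cut_pm_022 Ext.none)

def k0_pm_022 : ∃ t, chk3 f_pm_022 t 8 2 1 = true :=
  ⟨(b (a (c (b (l 14505504) (l 14286032)) (c (a (l 14193368) (b (l 14593216) (l 14374824))) (a (b (c (l 14271400) (l 14248376)) (c (l 14039840) (l 14013896))) (b (l 14557400) (l 14335960))))) (c (a (b (l 14900640) (c (l 14725888) (l 14703320))) (b (c (a (l 15140176) (l 15367968)) (a (l 15122024) (l 15345232))) (c (l 14972320) (b (l 14870088) (l 14930016))))) (b (a (c (l 14879480) (l 14843008)) (l 14981648)) (a (c (l 14629896) (l 14628648)) (l 15060688))))) (a (c (b (l 14129464) (a (l 13886728) (b (l 14207000) (l 14250920)))) (a (c (l 13866440) (b (c (l 13875104) (l 13846920))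 (c (l 13779976) (l 13603448)))) (c (b (c (l 14234712) (l 14209856)) (a (l 14067144) (c (l 14309904) (b (l 14238352) (l 14320264))))) (b (l 14178696) (a (l 14024080) (l 14246960)))))) (c (a (b (a (l 14511344) (b (l 14698936) (l 14730800))) (a (l 14614680) (c (l 14924048) (l 14916096)))) (b (c (l 15180032) (a (l 15015144) (l 15309536))) (c (b (l 15320520) (l 15347864)) (a (c (l 15258456) (l 15233240)) (b (l 15453736) (l 15412968)))))) (a (b (c (a (l 14383760) (l 14690184)) (l 14542744)) (c (a (c (l 14596480) (l 14556392)) (l 14892112)) (l 14687184))) (b (l 15098928) (b (l 15243608) (l 15380808))))))), by decide +kernel⟩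

def k1_pm_022 : ∃ t, chk3 f_pm_022 t 9 2 1 = true :=
  ⟨(b (a (c (a (b (c (a (l 15654000) (l 15925560)) (l 15764464)) (c (a (l 15566048) (l 15839800)) (l 15665432))) (b (c (a (l 16011872) (l 16260776)) (l 16046928)) (a (c (b (l 16077016) (l 16024544)) (l 16044176)) (b (l 16159376) (l 16155416))))) (a (b (l 15739856) (l 15636896)) (b (a (l 16130560) (l 16249312)) (b (l 16069280) (l 16055544))))) (b (b (a (c (l 16407272) (l 16404560)) (c (b (l 16358208) (l 16375616)) (l 16342952))) (c (a (l 16330152) (l 16379072)) (l 16245856))) (c (a (b (l 16268976) (l 16223584)) (c (l 16340152) (l 16335576))) (a (l 16238440) (l 16288848))))) (a (c (a (b (c (a (l 15629368) (b (l 15865152) (l 15763448))) (a (l 15580704) (l 15835672))) (b (c (a (l 15750512) (l 15852056)) (l 15679576)) (c (a (l 15806840) (l 15944936)) (l 15821120)))) (b (a (c (b (l 15896024) (l 16012288)) (l 16018008)) (l 16020088)) (c (a (c (l 16062976) (l 16013080)) (l 16097864)) (l 16044984)))) (a (b (l 15531440) (b (l 15757488) (l 15795024)))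 (b (b (l 16055384) (l 16038368)) (l 15944904)))) (b (c (a (b (l 16194168) (l 16180312)) (b (l 16328576) (l 16224680))) (a (l 16174568) (b (l 16314608) (l 16324688)))) (a (c (b (l 16146368) (a (l 16176624) (l 16262720))) (b (l 16170760) (c (l 16174664) (l 16188768)))) (c (b (a (l 16330880) (l 16258512)) (a (b (l 16358120) (l 16373248)) (l 855267996135))) (b (a (l 16304704) (c (l 16402512) (l 16392800))) (a (c (l 16343736) (l 16332344)) (c (l 893922652855) (b (l 16359240) (l 16318600)))))))))), by decide +kernel⟩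

def k2_pm_022 : ∃ t, chk3 f_pm_022 t 5 2 1 = true :=
  ⟨(a (b (a (a (b (c (b (a (l 16339504) (a (l 16326968) (c (l 16292704) (l 16327136)))) (b (l 16239048) (l 16172584))) (b (a (l 16337720) (c (l 16333432) (l 16329064))) (l 16233648))) (c (b (a (l 16359288) (l 16169888)) (c (l 16140792) (l 16177288))) (c (b (l 16345176) (l 16229536)) (l 16236448)))) (b (c (a (b (a (l 16137000) (l 16055776)) (c (l 16070280) (l 16063280))) (b (l 15874960) (l 15869088))) (a (c (b (l 16089496) (a (l 16222280) (l 16062256))) (b (l 16159184) (l 16125432))) (b (c (l 15865112) (l 15862960)) (c (l 15856472) (l 15767728))))) (c (b (a (l 16040112) (l 15883096)) (l 15763264)) (a (c (b (l 16071416) (l 16107176)) (a (b (l 16215160) (l 16200080)) (l 15917424))) (b (l 15695656) (l 15878224)))))) (b (l 1) (l 1))) (a (a (b (c (c (a (l 16242680) (l 16277040)) (b (l 16126048) (l 355440783303))) (b (c (a (l 16365184) (l 16290064)) (l 16122432)) (a (c (l 16344176) (l 16352648)) (a (l 398927569367) (l 856341643991))))) (c (b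 (a (l 16311800) (l 16278688)) (l 1324493220055)) (b (a (c (l 16336960) (l 922376584695)) (l 1456026271079)) (a (l 1335767459143) (l 1))))) (a (b (c (l 16060928) (b (l 15960376) (l 16077624))) (l 1)) (l 1))) (l 1))) (l 1)), by decide +kernel⟩

def k3_pm_022 : ∃ t, chk3 f_pm_022 t 16 6 1 = true :=
  ⟨(c (b (a (b (l 13885952) (l 14022200)) (b (l 14398264) (l 14647240))) (b (a (l 14368728) (a (l 14849776) (b (l 15038472) (l 15233520)))) (a (a (l 14758016) (b (l 14932328) (l 15187912))) (a (b (l 15202616) (l 15381840)) (l 15298376))))) (b (c (a (b (l 13813968) (l 13954256)) (c (l 14249720) (a (l 14312520) (l 14656968)))) (b (a (a (l 13652512) (c (l 13873560) (l 13850848))) (l 14315320)) (a (a (c (l 13755496) (c (l 13738464) (l 13723032))) (c (l 14068600) (l 14047832))) (l 14577280)))) (a (a (c (l 14382752) (c (l 14396792) (b (c (l 14091360) (l 14077392)) (c (l 14673600) (l 14662120))))) (c (b (l 14479160) (l 15015832)) (c (b (l 14459120) (a (l 14937600) (c (l 15092792) (l 15089864)))) (b (l 14442024)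 (l 14844496))))) (c (b (a (l 14820912) (c (l 15126344) (b (l 15027624) (l 15229544)))) (a (b (l 15183544) (l 15368104)) (c (l 15474040) (c (l 15480320) (l 15463536))))) (b (a (c (l 14806408) (l 14781328)) (l 15079432)) (a (b (l 14952208) (l 15349744)) (l 15434080))))))), by decide +kernel⟩

def k4_pm_022 : ∃ t, chk3 f_pm_022 t 17 6 1 = true :=
  ⟨(c (b (b (c (a (l 15037208) (a (l 15463184) (l 15673760))) (a (l 15032688) (a (c (l 15491040) (l 15466256)) (l 15595304)))) (a (a (l 14994232) (c (l 15357144) (c (l 15370128) (l 15384448)))) (c (l 15636968) (c (a (l 15579192) (l 15723448)) (a (l 15554192) (l 15668864)))))) (a (b (c (b (l 15261472) (l 15494664)) (a (l 15350864) (c (l 15526376) (l 15543728)))) (c (a (l 15625864) (l 15785128)) (a (l 15637400) (c (l 15805848) (b (l 15750480) (l 15757352)))))) (c (b (a (l 15679592) (b (l 15788976) (l 15915136))) (a (b (l 15879608) (a (l 15988088) (l 16085272))) (b (a (l 16016280) (l 16009104)) (a (l 16026360) (c (l 16197424) (b (l 16266016) (l 16318984)))))))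 (b (c (a (l 15714424) (b (l 15689864) (c (l 15937824) (l 15907952)))) (a (c (l 15618096) (l 15663616)) (l 15738528))) (a (c (b (l 15918320) (l 15840896)) (c (a (l 15961136) (l 15906144)) (b (l 15868584) (l 16020424)))) (c (b (c (l 15954832) (a (l 16022768) (l 16058224))) (a (c (l 16176240) (l 16139944)) (c (b (l 16243520) (l 16301144)) (b (l 16180472) (l 16236584))))) (b (l 16003960) (a (l 16018632) (l 16200960))))))))) (b (a (a (c (c (b (l 14876264) (l 15120248)) (l 14958768)) (l 14932160)) (b (l 14968528) (b (l 15099768) (l 15369912)))) (b (l 15495840) (l 15569856))) (a (b (c (c (a (a (l 15322592) (l 15409648)) (l 15454720)) (l 15194008)) (l 15384128)) (c (c (a (a (l 15616352) (l 15613000)) (c (a (l 15778784) (l 15824272)) (l 15775184))) (l 15547224)) (l 15677976))) (b (b (l 15638376) (l 15769032)) (b (l 15808504) (c (a (l 16000080) (l 16002920)) (l 16023008))))))), by decide +kernel⟩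

def k5_pm_022 : ∃ t, chk3 f_pm_022 t 36 12 1 = true :=
  ⟨(c (c (a (b (l 15835456) (c (l 15887672) (l 15885624))) (b (c (l 15995688) (l 15956208)) (c (l 15944112) (c (l 16010872) (l 15966568))))) (b (l 15844728) (a (l 15799768) (l 15949296)))) (b (l 15814912) (l 15861464))), by decide +kernel⟩

def k6_pm_022 : ∃ t, chk3 f_pm_022 t 36 13 2 = true :=
  ⟨(c (b (a (c (b (l 15961856) (l 16103824)) (b (l 15809840) (a (l 16062488) (l 15920576)))) (b (c (a (l 16104008) (l 16102856)) (c (a (l 16067104) (l 16109584)) (l 15962224))) (c (a (l 16174752) (c (l 16263800) (l 16216848))) (c (a (l 16220336) (l 16132552)) (a (l 16158504) (l 16224168)))))) (b (a (c (l 16075872) (a (c (l 16235448) (l 16178936)) (c (b (l 16287080) (l 16286520)) (l 16231232)))) (c (a (b (l 16308184) (l 16387256)) (c (l 16459344) (l 16353984))) (c (a (l 16243640) (c (l 16390992) (l 16322096))) (a (b (l 16238016) (l 16262752)) (l 16329496))))) (a (a (c (l 16247984) (c (l 16278344) (b (l 16274728) (a (l 16390640) (l 16448920)))))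 (c (l 16387120) (b (c (l 16354736) (l 16390520)) (c (c (l 16461808) (l 16452824)) (l 16449080))))) (a (c (c (l 16484192) (c (l 16501064) (b (l 16451496) (l 700112656551)))) (c (b (l 16457312) (l 809097417351)) (c (l 824666405671) (l 820908265655)))) (b (c (c (l 311955023575) (l 736619801943)) (c (l 1084511992983) (l 16387992))) (l 1)))))) (b (a (c (b (l 15897872) (c (l 15972216) (l 16008408))) (l 15939672)) (b (l 16023000) (b (l 16124664) (l 16139568)))) (a (b (c (a (c (l 16159440) (l 16120368)) (c (l 16052960) (l 16206752))) (l 16076056)) (c (c (a (b (l 16275728) (c (l 16394168) (l 16298648))) (a (b (l 16331352) (l 16394000)) (l 16339040))) (a (b (l 16255024) (l 16299744)) (l 16257048))) (b (l 16174576) (a (l 16329288) (l 16393264))))) (b (b (a (l 16241936) (l 16312344)) (a (l 16317656) (l 16373048))) (b (l 826813833783) (l 761852747783)))))), by decide +kernel⟩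

def k7_pm_022 : ∃ t, chk3 f_pm_022 t 36 13 3 = true :=
  ⟨(b (b (l 15827600) (c (a (l 15995416) (l 15998280)) (l 16015384))) (b (a (c (l 16056960) (l 16129704)) (c (b (a (l 16212376) (l 16289976)) (a (l 16273352) (l 16297400))) (a (l 16196552) (b (l 16251144) (c (l 16308392) (l 16259416)))))) (a (c (b (a (l 16219864) (l 16258808)) (a (l 16246504) (b (l 16341280) (l 16400472)))) (b (l 16204400) (a (l 16270296) (c (l 16284184) (l 16256248))))) (c (b (c (l 854194202039) (l 874058373655)) (l 788159374327)) (b (a (c (l 16295232) (l 16267224)) (c (l 16398024) (b (l 924524340631) (l 16391664)))) (a (c (l 16347248) (b (l 920766257479) (l 958347323959))) (l 1))))))), by decide +kernel⟩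

def k8_pm_022 : ∃ t, chk3 f_pm_022 t 37 12 1 = true :=
  ⟨(c (c (c (a (b (l 15970576) (a (b (l 16117072) (l 16164744)) (b (l 16147528) (l 16203288)))) (b (l 16133056) (b (l 16108056) (a (l 16128872) (l 16257832))))) (b (l 15899416) (a (a (l 16066224) (l 16129800)) (b (l 16187912) (l 16223744))))) (b (l 15971000) (a (l 16038256) (b (l 16169856) (l 16120880))))) (b (l 15977064) (c (a (l 16064728) (b (l 16145264) (l 16121368))) (a (l 16056376) (l 16070312))))), by decide +kernel⟩

def k9_pm_022 : ∃ t, chk3 f_pm_022 t 37 13 1 = true :=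
  ⟨(b (c (c (c (a (a (b (a (l 16177704) (l 16113272)) (a (c (l 16371600) (l 16338064)) (l 16284712))) (b (b (l 16181840) (l 16249952)) (c (l 16384496) (l 811244425767)))) (b (c (a (l 16261464) (l 814465588391)) (l 16269744)) (a (c (l 1094175460455) (l 16346640)) (l 1134977666263)))) (a (a (b (a (l 16146296) (l 16180480)) (a (b (l 16254904) (l 16311432)) (l 16300568))) (b (l 16217584) (l 16320528))) (b (l 16182608) (l 1147862567847)))) (a (b (a (l 16054640) (l 16048408)) (a (b (l 16239696) (l 16285456)) (l 16250984))) (b (b (l 16234432) (l 16281088)) (l 1196717814407)))) (c (a (a (b (l 16111864) (a (l 16213488) (l 16181360))) (b (l 16151320) (b (l 16269624) (l 16332384)))) (b (b (a (l 16194488) (l 16239280)) (l 868152580343)) (l 1267047840487))) (a (b (l 16002408) (a (a (l 16216192) (l 16163704)) (b (l 16230736) (c (l 16323376) (l 16253752))))) (b (b (a (l 16175128) (l 16159920)) (a (l 16213152) (l 911102297863))) (b (a (c (l 16302216) (l 16254024)) (l 16331352)) (l 1345967938023)))))) (b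 (a (a (c (c (c (a (c (b (l 16445640) (l 656626079463)) (l 16417584)) (c (l 600791443879) (l 1085585651447))) (a (c (l 1076458766599) (l 16382096)) (l 16337008))) (l 1132830223911)) (c (b (l 853120391703) (l 16389720)) (b (a (l 16240968) (c (l 16357536) (l 16350896))) (a (l 1241815033559) (l 16395384))))) (b (c (c (c (c (l 16436952) (l 1104913008967)) (l 16393680)) (l 16390848)) (c (l 16387016) (l 1292280880855))) (l 1))) (l 1)) (l 1))), by decide +kernel⟩

def k10_pm_022 : ∃ t, chk3 f_pm_022 t 19 6 1 = true :=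
  ⟨(b (a (c (c (b (a (l 16153768) (b (l 16307664) (l 16320176))) (b (a (l 16276968) (l 16320896)) (l 835940479543))) (b (a (l 16174392) (b (l 16286944) (l 16307216))) (a (b (l 16237216) (l 16276904)) (l 1304628839431)))) (b (b (c (l 16039520) (l 16215976)) (a (l 16121408) (c (l 16187520) (a (l 16257400) (l 16239088))))) (a (b (c (l 16177024) (l 16182792)) (c (l 873521311175) (a (b (l 16228048) (l 16244184)) (l 1340062167543)))) (b (c (l 887480063447) (a (l 910565446135) (l 16256344))) (c (l 1320734985879) (l 1361537113399)))))) (b (c (b (l 661457652615) (l 1394286558151)) (a (b (c (l 16374080) (a (l 16338464) (l 16392376))) (c (l 16383552) (l 1177390625511))) (l 1431330511127))) (l 1))) (b (b (a (a (c (l 1214971352615) (c (l 1292817612007) (b (l 921839712039) (l 16314760)))) (l 1)) (l 1)) (l 1)) (l 1))), by decide +kernel⟩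

def k11_pm_022 : ∃ t, chk3 f_pm_022 t 16 7 1 = true :=
  ⟨(b (b (c (b (a (a (l 15186712) (l 15390488)) (c (l 15632992) (l 15622664))) (b (a (l 15443792) (c (l 15763576) (l 15754944))) (l 6))) (c (a (b (l 15249920) (l 15463648)) (c (a (l 15623392) (l 15706144)) (a (l 15630152) (c (a (l 15783640) (l 15822680)) (a (l 15770144) (l 15830320)))))) (a (a (c (l 15238640) (a (b (l 14972480) (l 15284488)) (c (l 15192856) (l 15292984)))) (c (c (l 15454384) (a (l 15403856) (l 15498088))) (l 15439616))) (a (a (c (l 15376024) (l 15564480)) (l 15538672)) (l 15777904))))) (l 6)) (l 6)), by decide +kernel⟩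

def k12_pm_022 : ∃ t, chk3 f_pm_022 t 34 7 1 = true :=
  ⟨(b (b (b (c (c (a (l 15862104) (l 15907416)) (a (l 15879120) (c (l 16046088) (a (l 16034736) (l 15967056))))) (c (c (a (c (l 15909800) (l 15708384)) (c (a (l 16022664) (l 16065984)) (l 16018824))) (a (l 15863656) (l 16013760))) (l 15927776))) (b (b (b (c (c (a (l 15958704) (l 16138048)) (a (l 15976736) (c (l 16145136) (a (l 16131624) (l 16169192))))) (c (c (a (c (l 16008720) (l 15975664)) (c (a (l 16120456) (l 16163072)) (l 16116752))) (l 15830208)) (l 16027192))) (l 6)) (l 6)) (l 6))) (l 6)) (l 6)), by decide +kernel⟩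

def k13_pm_022 : ∃ t, chk3 f_pm_022 t 35 56 1 = true :=
  ⟨(c (c (a (c (b (l 16172840) (l 16121816)) (a (l 16171200) (l 16135144))) (a (b (l 16204744) (c (l 16370584) (l 16389144))) (b (c (l 16397808) (l 16315088)) (c (l 16437432) (c (l 16494840) (l 16512504)))))) (a (c (a (l 16201016) (c (l 16224712) (b (l 16254856) (l 16276288)))) (c (a (l 16078864) (c (l 16276016) (l 16133664))) (a (l 16112432) (l 16132184)))) (b (c (a (c (l 16323968) (l 16283880)) (c (a (l 16364568) (l 16441984)) (a (l 16317872) (l 16275664)))) (a (c (l 16244896) (l 16248472)) (l 16340144))) (c (a (c (a (l 16443264) (l 16417752)) (a (l 16375880) (l 16409480))) (a (c (l 16457432) (l 16374384)) (c (l 16483840) (a (l 16399544) (l 16405600))))) (a (c (a (l 16287904) (l 16361112)) (l 16350408)) (l 16421512)))))) (a (c (b (l 16122304) (l 16190808)) (l 16158888)) (c (b (a (l 16237632) (l 16215576)) (a (b (l 16307152) (l 16315664)) (b (l 16324600) (l 16344936)))) (b (l 16202368) (a (l 16253128) (c (b (l 16372904) (l 16375992))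 (b (l 16365688) (l 16347760)))))))), by decide +kernel⟩

def k14_pm_022 : ∃ t, chk3 f_pm_022 t 35 57 1 = true :=
  ⟨(b (b (a (b (c (c (a (l 16291504) (l 16319608)) (c (a (l 16312112) (c (l 16425608) (l 16365992))) (c (a (l 16309368) (c (l 16395928) (l 16356408))) (a (l 16254832) (l 16329224))))) (c (l 16269752) (l 16259080))) (l 6)) (a (b (c (c (l 16432528) (c (c (l 16485368) (l 16412728)) (c (c (l 16407432) (l 16415864)) (l 16411968)))) (c (l 16372240) (l 16373288))) (l 6)) (c (c (c (l 16462984) (l 820908564263)) (c (c (c (a (l 16560472) (l 16570976)) (l 16535552)) (c (l 831109070279) (l 833256496983))) (l 16471592))) (c (l 16447096) (c (l 890701608519) (a (l 16417160) (l 933114459271))))))) (a (l 6) (a (l 6) (a (l 6) (a (l 6) (l 1)))))) (a (l 6) (a (l 6) (a (l 6) (l 1))))), by decide +kernel⟩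

def k15_pm_022 : ∃ t, chk3 f_pm_022 t 35 29 1 = true :=
  ⟨(a (l 6) (a (l 6) (l 1))), by decide +kernel⟩

def k16_pm_022 : ∃ t, chk3 f_pm_022 t 35 15 1 = true :=
  ⟨(l 1), by decide +kernel⟩

def k17_pm_022 : ∃ t, chk3 f_pm_022 t 9 7 1 = true :=
  ⟨(a (b (b (a (a (b (c (c (c (b (l 221223693063) (l 860100063959)) (c (a (l 343630318055) (a (c (l 958347575175) (l 956736961335)) (b (l 1074311675399) (l 1)))) (a (b (c (l 16448192) (l 16472152)) (a (c (l 16564600) (l 16534112)) (l 1068406093687))) (l 1085585834375)))) (c (c (c (a (l 16425536) (b (l 845067601879) (a (l 940093960839) (l 1)))) (a (a (l 16390024) (l 1048541622167)) (l 903049803335))) (a (b (l 16411032) (l 855268163831)) (l 912713499623))) (b (l 835940667479) (l 767221517959)))) (c (b (a (c (l 16377696) (l 16304968)) (l 16387648)) (a (l 888017274935) (l 1014719049799))) (b (a (c (b (l 16359312) (l 16381568)) (b (l 16352024) (l 16353264))) (c (l 917008226967) (b (a (l 16406832) (l 16419264)) (l 959957958183)))) (a (c (l 918081991447)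 (a (b (l 16421248) (l 933114443191)) (l 1162895173383))) (l 1027067034695))))) (a (a (b (a (c (c (c (l 1091491555655) (c (l 16559744) (l 1104913414327))) (c (c (l 16503176) (l 1116724417959)) (l 16516376))) (c (l 16493640) (l 1182222665735))) (l 1)) (l 1)) (l 1)) (l 1))) (a (a (b (b (c (c (a (c (l 16536048) (c (l 1116724500519) (l 920229671655))) (l 1)) (l 16445552)) (l 1206918658727)) (l 1)) (l 1)) (l 1)) (l 1))) (l 1)) (l 1)) (l 1)) (l 1)), by decide +kernel⟩

def k18_pm_022 : ∃ t, chk3 f_pm_022 t 5 3 1 = true :=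
  ⟨(b (l 1) (l 1)), by decide +kernel⟩

def k19_pm_022 : ∃ t, chk3 f_pm_022 t 3 1 1 = true :=
  ⟨(l 1), by decide +kernel⟩

theorem s20_pm_022 : ∃ t, chk3 f_pm_022 t 35 28 1 = true := ex3_b k13_pm_022 k14_pm_022

theorem s21_pm_022 : ∃ t, chk3 f_pm_022 t 35 14 1 = true := ex3_b s20_pm_022 k15_pm_022

theorem s22_pm_022 : ∃ t, chk3 f_pm_022 t 35 7 1 = true := ex3_b s21_pm_022 k16_pm_022

theorem s23_pm_022 : ∃ t, chk3 f_pm_022 t 17 7 1 = true := ex3_a k12_pm_022 s22_pm_022

theorem s24_pm_022 : ∃ t, chk3 f_pm_022 t 8 7 1 = true := ex3_a k11_pm_022 s23_pm_022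

theorem s25_pm_022 : ∃ t, chk3 f_pm_022 t 4 7 1 = true := ex3_a s24_pm_022 k17_pm_022

theorem s26_pm_022 : ∃ t, chk3 f_pm_022 t 37 6 1 = true := ex3_b k8_pm_022 k9_pm_022

theorem s27_pm_022 : ∃ t, chk3 f_pm_022 t 36 13 1 = true := ex3_c k6_pm_022 k7_pm_022

theorem s28_pm_022 : ∃ t, chk3 f_pm_022 t 36 6 1 = true := ex3_b k5_pm_022 s27_pm_022

theorem s29_pm_022 : ∃ t, chk3 f_pm_022 t 18 6 1 = true := ex3_a s28_pm_022 s26_pm_022

theorem s30_pm_022 : ∃ t, chk3 f_pm_022 t 9 6 1 = true := ex3_a s29_pm_022 k10_pm_022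

theorem s31_pm_022 : ∃ t, chk3 f_pm_022 t 8 6 1 = true := ex3_a k3_pm_022 k4_pm_022

theorem s32_pm_022 : ∃ t, chk3 f_pm_022 t 4 6 1 = true := ex3_a s31_pm_022 s30_pm_022

theorem s33_pm_022 : ∃ t, chk3 f_pm_022 t 4 3 1 = true := ex3_b s32_pm_022 s25_pm_022

theorem s34_pm_022 : ∃ t, chk3 f_pm_022 t 2 3 1 = true := ex3_a s33_pm_022 k18_pm_022

theorem s35_pm_022 : ∃ t, chk3 f_pm_022 t 4 2 1 = true := ex3_a k0_pm_022 k1_pm_022

theorem s36_pm_022 : ∃ t, chk3 f_pm_022 t 2 2 1 = true := ex3_a s35_pm_022 k2_pm_022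

theorem s37_pm_022 : ∃ t, chk3 f_pm_022 t 2 1 1 = true := ex3_b s36_pm_022 s34_pm_022

theorem s38_pm_022 : ∃ t, chk3 f_pm_022 t 1 1 1 = true := ex3_a s37_pm_022 k19_pm_022

theorem c_pm_022 : CertNX 0 536870912 0 536870912 1046898278 26843546 3 false true false .pp 0 2 2
    ndN3q0 ndN0q2 pcN2 cut_pm_022 Ext.none :=
  certNX2 (fam := false) (s1 := true) (s2 := false) (a := 0) (b := 2) (c := 2) (cn := .pp) (n1 := ndN3q0) (n2 := ndN0q2) (pc := pcN2) (cut := cut_pm_022) (xt := Ext.none) (P1 := 0) (W1 := 536870912) (P2 := 0) (W2 := 536870912) (P3 := 1046898278) (W3 := 26843546) (N0 := 3)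
    rfl (fun _ => rfl) s38_pm_022

noncomputable def f_pm_101 : ℕ → ℕ → ℕ → ℕ → Bool := onCell 536870912 536870912 536870912 536870912 1046898278 26843546
    (rowNX 3 0 false true false .npn 1 0 1 (qsf 536870912 536870912 536870912 536870912 0) ndN3q1 ndN0q1 pcN0 Cut.none Ext.none)

def k0_pm_101 : ∃ t, chk3 f_pm_101 t 1 1 1 = true :=
  ⟨(l 4), by decide +kernel⟩

theorem c_pm_101 : CertNX 536870912 536870912 536870912 536870912 1046898278 26843546 3 false true false .npn 1 0 1
    ndN3q1 ndN0q1 pcN0 Cut.none Ext.none :=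
  certNX0 (fam := false) (s1 := true) (s2 := false) (a := 1) (b := 0) (c := 1) (cn := .npn) (n1 := ndN3q1) (n2 := ndN0q1) (pc := pcN0) (cut := Cut.none) (xt := Ext.none) (P1 := 536870912) (W1 := 536870912) (P2 := 536870912) (W2 := 536870912) (P3 := 1046898278) (W3 := 26843546) (N0 := 3)
    rfl k0_pm_101

noncomputable def f_pm_102 : ℕ → ℕ → ℕ → ℕ → Bool := onCell 536870912 536870912 0 536870912 1046898278 26843546
    (rowNX 3 0 false true false .npp 1 0 2 (qsf 536870912 536870912 0 536870912 0) ndN3q1 ndN0q2 pcN0 Cut.none Ext.none)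

def k0_pm_102 : ∃ t, chk3 f_pm_102 t 1 1 1 = true :=
  ⟨(a (a (b (b (l 2) (c (l 16777216) (l 16777216))) (b (c (l 70027589095) (l 85596840119)) (l 4))) (b (b (c (l 16777216) (l 16777216)) (c (l 16777216) (l 16777216))) (l 4))) (b (a (a (b (b (l 16684248) (l 16684248)) (c (l 16685856) (l 16682648))) (b (a (l 16213288) (l 15422856)) (a (l 16213288) (c (l 15693512) (l 15655472))))) (a (b (a (l 14817032) (b (l 14237120) (l 14242720))) (a (b (l 14817032) (l 14817296)) (b (l 14248920) (l 14241160)))) (b (a (c (l 13779536) (l 13736328)) (c (a (l 13269480) (l 13026928)) (a (l 13302856) (b (l 13043448) (l 12944424))))) (a (b (l 13707928) (c (l 13687456) (l 13640632))) (a (c (l 13078168) (l 13147528)) (c (l 12815776) (b (l 12835416) (l 12710384)))))))) (l 4))), by decide +kernel⟩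

theorem c_pm_102 : CertNX 536870912 536870912 0 536870912 1046898278 26843546 3 false true false .npp 1 0 2
    ndN3q1 ndN0q2 pcN0 Cut.none Ext.none :=
  certNX0 (fam := false) (s1 := true) (s2 := false) (a := 1) (b := 0) (c := 2) (cn := .npp) (n1 := ndN3q1) (n2 := ndN0q2) (pc := pcN0) (cut := Cut.none) (xt := Ext.none) (P1 := 536870912) (W1 := 536870912) (P2 := 0) (W2 := 536870912) (P3 := 1046898278) (W3 := 26843546) (N0 := 3)
    rfl k0_pm_102

noncomputable def f_pm_112 : ℕ → ℕ → ℕ → ℕ → Bool := onCell 536870912 536870912 0 536870912 1046898278 26843546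
    (rowNX 3 2 false true false .dn 1 1 2 (qsf 536870912 536870912 0 536870912 1) ndN3q1 ndN0q2 pcN1 Cut.none Ext.none)

def k0_pm_112 : ∃ t, chk3 f_pm_112 t 1 1 1 = true :=
  ⟨(a (b (a (c (b (l 16777216) (l 16777216)) (b (l 16777216) (l 16777216))) (a (b (l 16777216) (a (a (l 16774032) (l 886944599095)) (l 1))) (l 1))) (b (a (c (l 88281361319) (l 96871291799)) (l 1)) (l 4))) (l 1)), by decide +kernel⟩

theorem c_pm_112 : CertNX 536870912 536870912 0 536870912 1046898278 26843546 3 false true false .dn 1 1 2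
    ndN3q1 ndN0q2 pcN1 Cut.none Ext.none :=
  certNX2 (fam := false) (s1 := true) (s2 := false) (a := 1) (b := 1) (c := 2) (cn := .dn) (n1 := ndN3q1) (n2 := ndN0q2) (pc := pcN1) (cut := Cut.none) (xt := Ext.none) (P1 := 536870912) (W1 := 536870912) (P2 := 0) (W2 := 536870912) (P3 := 1046898278) (W3 := 26843546) (N0 := 3)
    rfl (fun _ => rfl) k0_pm_112

noncomputable def cut_pm_202 : Cut := Cut.of [[⟨0, 1, 0, 67108864⟩, ⟨1, 0, 0, 67108864⟩, ⟨2, 1, 0, 67108864⟩, ⟨3, 0, 0, 1317011456⟩]]

noncomputable def f_pm_202 : ℕ → ℕ → ℕ → ℕ → Bool := onCell 1073741824 536870912 0 536870912 1046898278 26843546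
    (rowNX 3 0 false true false .pp 2 0 2 (qsf 1073741824 536870912 0 536870912 0) ndN3q2 ndN0q2 pcN0 cut_pm_202 Ext.none)

def k0_pm_202 : ∃ t, chk3 f_pm_202 t 1 1 1 = true :=
  ⟨(a (b (l 3) (b (l 3) (b (l 3) (a (a (a (l 6) (b (l 3) (l 1))) (l 1)) (l 1))))) (l 1)), by decide +kernel⟩

theorem c_pm_202 : CertNX 1073741824 536870912 0 536870912 1046898278 26843546 3 false true false .pp 2 0 2
    ndN3q2 ndN0q2 pcN0 cut_pm_202 Ext.none :=
  certNX0 (fam := false) (s1 := true) (s2 := false) (a := 2) (b := 0) (c := 2) (cn := .pp) (n1 := ndN3q2) (n2 := ndN0q2) (pc := pcN0) (cut := cut_pm_202) (xt := Ext.none) (P1 := 1073741824) (W1 := 536870912) (P2 := 0) (W2 := 536870912) (P3 := 1046898278) (W3 := 26843546) (N0 := 3)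
    rfl k0_pm_202

noncomputable def f_mm_001 : ℕ → ℕ → ℕ → ℕ → Bool := onCell 0 536870912 536870912 536870912 1046898278 26843546
    (rowNX 3 0 false false false .up 0 0 1 (qsf 0 536870912 536870912 536870912 0) ndN3q0 ndN0q1 pcN0 Cut.none Ext.none)

def k0_mm_001 : ∃ t, chk3 f_mm_001 t 1 1 1 = true :=
  ⟨(l 5), by decide +kernel⟩

theorem c_mm_001 : CertNX 0 536870912 536870912 536870912 1046898278 26843546 3 false false false .up 0 0 1
    ndN3q0 ndN0q1 pcN0 Cut.none Ext.none :=
  certNX0 (fam := false) (s1 := false) (s2 := false) (a := 0) (b := 0) (c := 1) (cn := .up) (n1 := ndN3q0) (n2 := ndN0q1) (pc := pcN0) (cut := Cut.none) (xt := Ext.none) (P1 := 0) (W1 := 536870912) (P2 := 536870912) (W2 := 536870912) (P3 := 1046898278) (W3 := 26843546) (N0 := 3)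
    rfl k0_mm_001

noncomputable def f_mm_011 : ℕ → ℕ → ℕ → ℕ → Bool := onCell 0 536870912 536870912 536870912 1046898278 26843546
    (rowNX 3 0 false false false .pnn 0 1 1 (qsf 0 536870912 536870912 536870912 1) ndN3q0 ndN0q1 pcN1 Cut.none Ext.none)

def k0_mm_011 : ∃ t, chk3 f_mm_011 t 1 1 1 = true :=
  ⟨(l 5), by decide +kernel⟩

theorem c_mm_011 : CertNX 0 536870912 536870912 536870912 1046898278 26843546 3 false false false .pnn 0 1 1
    ndN3q0 ndN0q1 pcN1 Cut.none Ext.none :=
  certNX0 (fam := false) (s1 := false) (s2 := false) (a := 0) (b := 1) (c := 1) (cn := .pnn) (n1 := ndN3q0) (n2 := ndN0q1) (pc := pcN1) (cut := Cut.none) (xt := Ext.none) (P1 := 0) (W1 := 536870912) (P2 := 536870912) (W2 := 536870912) (P3 := 1046898278) (W3 := 26843546) (N0 := 3)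
    rfl k0_mm_011

noncomputable def f_mm_012 : ℕ → ℕ → ℕ → ℕ → Bool := onCell 0 536870912 0 536870912 1046898278 26843546
    (rowNX 3 0 false false false .pnp 0 1 2 (qsf 0 536870912 0 536870912 1) ndN3q0 ndN0q2 pcN1 Cut.none Ext.none)

def k0_mm_012 : ∃ t, chk3 f_mm_012 t 1 1 1 = true :=
  ⟨(l 5), by decide +kernel⟩

theorem c_mm_012 : CertNX 0 536870912 0 536870912 1046898278 26843546 3 false false false .pnp 0 1 2
    ndN3q0 ndN0q2 pcN1 Cut.none Ext.none :=
  certNX0 (fam := false) (s1 := false) (s2 := false) (a := 0) (b := 1) (c := 2) (cn := .pnp) (n1 := ndN3q0) (n2 := ndN0q2) (pc := pcN1) (cut := Cut.none) (xt := Ext.none) (P1 := 0) (W1 := 536870912) (P2 := 0) (W2 := 536870912) (P3 := 1046898278) (W3 := 26843546) (N0 := 3)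
    rfl k0_mm_012

noncomputable def f_mm_022 : ℕ → ℕ → ℕ → ℕ → Bool := onCell 0 536870912 0 536870912 1046898278 26843546
    (rowNX 3 0 false false false .pp 0 2 2 (qsf 0 536870912 0 536870912 2) ndN3q0 ndN0q2 pcN2 Cut.none Ext.none)

def k0_mm_022 : ∃ t, chk3 f_mm_022 t 1 1 1 = true :=
  ⟨(l 5), by decide +kernel⟩

theorem c_mm_022 : CertNX 0 536870912 0 536870912 1046898278 26843546 3 false false false .pp 0 2 2
    ndN3q0 ndN0q2 pcN2 Cut.none Ext.none :=
  certNX0 (fam := false) (s1 := false) (s2 := false) (a := 0) (b := 2) (c := 2) (cn := .pp) (n1 := ndN3q0) (n2 := ndN0q2) (pc := pcN2) (cut := Cut.none) (xt := Ext.none) (P1 := 0) (W1 := 536870912) (P2 := 0) (W2 := 536870912) (P3 := 1046898278) (W3 := 26843546) (N0 := 3)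
    rfl k0_mm_022

noncomputable def f_mm_101 : ℕ → ℕ → ℕ → ℕ → Bool := onCell 536870912 536870912 536870912 536870912 1046898278 26843546
    (rowNX 3 0 false false false .npn 1 0 1 (qsf 536870912 536870912 536870912 536870912 0) ndN3q1 ndN0q1 pcN0 Cut.none Ext.none)

def k0_mm_101 : ∃ t, chk3 f_mm_101 t 1 1 1 = true :=
  ⟨(b (l 3) (l 5)), by decide +kernel⟩

theorem c_mm_101 : CertNX 536870912 536870912 536870912 536870912 1046898278 26843546 3 false false false .npn 1 0 1
    ndN3q1 ndN0q1 pcN0 Cut.none Ext.none :=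
  certNX0 (fam := false) (s1 := false) (s2 := false) (a := 1) (b := 0) (c := 1) (cn := .npn) (n1 := ndN3q1) (n2 := ndN0q1) (pc := pcN0) (cut := Cut.none) (xt := Ext.none) (P1 := 536870912) (W1 := 536870912) (P2 := 536870912) (W2 := 536870912) (P3 := 1046898278) (W3 := 26843546) (N0 := 3)
    rfl k0_mm_101

noncomputable def f_mm_102 : ℕ → ℕ → ℕ → ℕ → Bool := onCell 536870912 536870912 0 536870912 1046898278 26843546
    (rowNX 3 0 false false false .npp 1 0 2 (qsf 536870912 536870912 0 536870912 0) ndN3q1 ndN0q2 pcN0 Cut.none Ext.none)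

def k0_mm_102 : ∃ t, chk3 f_mm_102 t 1 1 1 = true :=
  ⟨(l 5), by decide +kernel⟩

theorem c_mm_102 : CertNX 536870912 536870912 0 536870912 1046898278 26843546 3 false false false .npp 1 0 2
    ndN3q1 ndN0q2 pcN0 Cut.none Ext.none :=
  certNX0 (fam := false) (s1 := false) (s2 := false) (a := 1) (b := 0) (c := 2) (cn := .npp) (n1 := ndN3q1) (n2 := ndN0q2) (pc := pcN0) (cut := Cut.none) (xt := Ext.none) (P1 := 536870912) (W1 := 536870912) (P2 := 0) (W2 := 536870912) (P3 := 1046898278) (W3 := 26843546) (N0 := 3)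
    rfl k0_mm_102

noncomputable def f_mm_112 : ℕ → ℕ → ℕ → ℕ → Bool := onCell 536870912 536870912 0 536870912 1046898278 26843546
    (rowNX 3 0 false false false .dn 1 1 2 (qsf 536870912 536870912 0 536870912 1) ndN3q1 ndN0q2 pcN1 Cut.none Ext.none)

def k0_mm_112 : ∃ t, chk3 f_mm_112 t 1 1 1 = true :=
  ⟨(l 5), by decide +kernel⟩

theorem c_mm_112 : CertNX 536870912 536870912 0 536870912 1046898278 26843546 3 false false false .dn 1 1 2
    ndN3q1 ndN0q2 pcN1 Cut.none Ext.none :=
  certNX0 (fam := false) (s1 := false) (s2 := false) (a := 1) (b := 1) (c := 2) (cn := .dn) (n1 := ndN3q1) (n2 := ndN0q2) (pc := pcN1) (cut := Cut.none) (xt := Ext.none) (P1 := 536870912) (W1 := 536870912) (P2 := 0) (W2 := 536870912) (P3 := 1046898278) (W3 := 26843546) (N0 := 3)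
    rfl k0_mm_112

noncomputable def f_mm_202 : ℕ → ℕ → ℕ → ℕ → Bool := onCell 1073741824 536870912 0 536870912 1046898278 26843546
    (rowNX 3 0 false false false .pp 2 0 2 (qsf 1073741824 536870912 0 536870912 0) ndN3q2 ndN0q2 pcN0 Cut.none Ext.none)

def k0_mm_202 : ∃ t, chk3 f_mm_202 t 1 1 1 = true :=
  ⟨(l 3), by decide +kernel⟩

theorem c_mm_202 : CertNX 1073741824 536870912 0 536870912 1046898278 26843546 3 false false false .pp 2 0 2
    ndN3q2 ndN0q2 pcN0 Cut.none Ext.none :=
  certNX0 (fam := false) (s1 := false) (s2 := false) (a := 2) (b := 0) (c := 2) (cn := .pp) (n1 := ndN3q2) (n2 := ndN0q2) (pc := pcN0) (cut := Cut.none) (xt := Ext.none) (P1 := 1073741824) (W1 := 536870912) (P2 := 0) (W2 := 536870912) (P3 := 1046898278) (W3 := 26843546) (N0 := 3)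
    rfl k0_mm_202

end Pool.Agent.Strip051.G.IE1.Tab.C.NB30

namespace Pool.Agent.Strip051.G.IE1.Tab.C.NB31

open Pool.Agent.Strip051.PB Pool.Agent.Strip051.PB.T
open Pool.Agent.Strip051.G.IE1.Tab

noncomputable def f_pp_001 : ℕ → ℕ → ℕ → ℕ → Bool := onCell 0 536870912 0 536870912 1046898278 26843546
    (rowNX 3 1 false true true .up 0 0 1 (qsf 0 536870912 536870912 536870912 0) ndN3q0 ndN1q1 pcN0 Cut.none Ext.none)

def k0_pp_001 : ∃ t, chk3 f_pp_001 t 1 1 1 = true :=
  ⟨(l 3), by decide +kernel⟩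

theorem c_pp_001 : CertNX 0 536870912 536870912 536870912 1046898278 26843546 3 false true true .up 0 0 1
    ndN3q0 ndN1q1 pcN0 Cut.none Ext.none :=
  certNX1 (fam := false) (s1 := true) (s2 := true) (a := 0) (b := 0) (c := 1) (cn := .up) (n1 := ndN3q0) (n2 := ndN1q1) (pc := pcN0) (cut := Cut.none) (xt := Ext.none) (P1 := 0) (W1 := 536870912) (P2 := 536870912) (W2 := 536870912) (P3 := 1046898278) (W3 := 26843546) (N0 := 3)
    rfl (fun _ => rfl) k0_pp_001

noncomputable def f_pp_011 : ℕ → ℕ → ℕ → ℕ → Bool := onCell 0 536870912 536870912 536870912 1046898278 26843546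
    (rowNX 3 0 false true true .pnn 0 1 1 (qsf 0 536870912 536870912 536870912 1) ndN3q0 ndN1q1 pcN1 Cut.none Ext.none)

def k0_pp_011 : ∃ t, chk3 f_pp_011 t 1 1 1 = true :=
  ⟨(b (l 3) (a (l 3) (l 3))), by decide +kernel⟩

theorem c_pp_011 : CertNX 0 536870912 536870912 536870912 1046898278 26843546 3 false true true .pnn 0 1 1
    ndN3q0 ndN1q1 pcN1 Cut.none Ext.none :=
  certNX0 (fam := false) (s1 := true) (s2 := true) (a := 0) (b := 1) (c := 1) (cn := .pnn) (n1 := ndN3q0) (n2 := ndN1q1) (pc := pcN1) (cut := Cut.none) (xt := Ext.none) (P1 := 0) (W1 := 536870912) (P2 := 536870912) (W2 := 536870912) (P3 := 1046898278) (W3 := 26843546) (N0 := 3)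
    rfl k0_pp_011

noncomputable def f_pp_012_a : ℕ → ℕ → ℕ → ℕ → Bool := onCell 536870912 536870912 0 420477299 1046898278 26843546
    (rowNX 3 2 false true true .pnp 0 1 2 (qsf 0 536870912 0 420477299 1) ndN3q0 ndN1q2a pcN1 Cut.none Ext.none)

def k0_pp_012_a : ∃ t, chk3 f_pp_012_a t 2 1 1 = true :=
  ⟨(b (a (l 2) (b (l 16777120) (l 16776040))) (b (a (l 16772600) (l 16772600)) (b (a (l 16707520) (l 16707520)) (a (a (l 16393072) (a (l 16393072) (l 16288216))) (a (c (l 16357792) (l 16344496)) (b (l 16489856) (l 16256736))))))), by decide +kernel⟩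

def k1_pp_012_a : ∃ t, chk3 f_pp_012_a t 6 1 1 = true :=
  ⟨(b (a (a (l 16776640) (l 16640712)) (a (b (l 16550480) (l 16594984)) (b (l 16123896) (l 16427608)))) (b (a (l 16754664) (a (l 16636040) (l 16430368))) (a (b (l 16489896) (b (l 16505224) (a (l 16298720) (l 16325368)))) (b (a (l 16621520) (a (l 16562416) (l 16409312))) (a (b (l 16498408) (l 16351936)) (b (a (l 16440264) (l 16371944)) (a (l 16339712) (l 16294848)))))))), by decide +kernel⟩

def k2_pp_012_a : ∃ t, chk3 f_pp_012_a t 7 1 1 = true :=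
  ⟨(b (a (a (b (l 16040792) (l 16133264)) (b (b (l 15660312) (l 15716680)) (a (l 15873480) (l 15725480)))) (b (a (a (l 15451392) (l 15327872)) (a (l 15200080) (l 15071600))) (a (l 15542832) (a (l 15366192) (b (l 15203464) (l 15333936)))))) (a (b (a (b (l 16194472) (l 16256024)) (b (l 15913248) (l 16019520))) (b (a (b (l 16302352) (l 16268104)) (l 16037840)) (a (b (l 16210880) (l 16090608)) (b (l 16012600) (a (l 15977672) (l 15922776)))))) (b (a (b (l 15690736) (l 15824560)) (b (a (l 15549168) (l 15510216)) (l 15734176))) (b (a (b (l 15934552) (l 15938088)) (a (l 15911112) (b (b (l 15880728) (l 15926104)) (a (l 15952384) (l 16072720))))) (b (a (l 15926240) (a (a (l 15915696) (l 15977544)) (l 16111336))) (a (a (l 15897208) (a (l 15877640) (c (a (l 15889344) (l 15912688)) (l 15877368)))) (a (c (a (c (a (c (b (l 15935360) (l 16000512)) (l 15963504)) (c (l 16042992) (a (l 16012304) (l 16057304)))) (l 15994720)) (c (l 16026688) (a (c (l 16057264) (l 16113408)) (c (l 16213432) (l 16124496))))) (a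 (l 15974464) (l 16147496))) (c (a (c (l 16356408) (a (l 16303792) (l 16397376))) (l 16538232)) (a (c (a (c (l 16109880) (l 16294152)) (c (l 16393672) (a (l 16366944) (l 16331360)))) (l 16337232)) (c (a (l 16488040) (l 16583712)) (a (c (a (l 16419120) (c (l 16510232) (l 16509400))) (l 16483200)) (c (l 16582256) (a (l 16536032) (c (l 16606328) (l 16584896))))))))))))))), by decide +kernel⟩

theorem s3_pp_012_a : ∃ t, chk3 f_pp_012_a t 3 1 1 = true := ex3_a k1_pp_012_a k2_pp_012_a

theorem s4_pp_012_a : ∃ t, chk3 f_pp_012_a t 1 1 1 = true := ex3_a k0_pp_012_a s3_pp_012_a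

theorem c_pp_012_a : CertNX 0 536870912 0 420477299 1046898278 26843546 3 false true true .pnp 0 1 2
    ndN3q0 ndN1q2a pcN1 Cut.none Ext.none :=
  certNX2 (fam := false) (s1 := true) (s2 := true) (a := 0) (b := 1) (c := 2) (cn := .pnp) (n1 := ndN3q0) (n2 := ndN1q2a) (pc := pcN1) (cut := Cut.none) (xt := Ext.none) (P1 := 0) (W1 := 536870912) (P2 := 0) (W2 := 420477299) (P3 := 1046898278) (W3 := 26843546) (N0 := 3)
    rfl (fun _ => rfl) s4_pp_012_a

noncomputable def f_pp_012_b : ℕ → ℕ → ℕ → ℕ → Bool := onCell 536870912 536870912 1239849684 370763052 1046898278 26843546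
    (rowNX 3 2 false true true .pnp 0 1 2 (qsf 0 536870912 1239849684 370763052 1) ndN3q0 ndN1q2b pcN1 Cut.none Ext.none)

def k0_pp_012_b : ∃ t, chk3 f_pp_012_b t 1 1 1 = true :=
  ⟨(a (a (l 2) (l 16777216)) (a (a (b (a (l 16777048) (l 16665888)) (l 2)) (b (a (l 16460400) (b (l 16257488) (l 16148080))) (a (l 16370872) (l 16016344)))) (b (a (b (a (l 15866392) (l 15498112)) (a (l 15672072) (l 15266312))) (b (b (a (b (a (l 15341656) (l 15200368)) (l 15160720)) (b (a (l 15069040) (l 14936072)) (a (l 14906704) (l 14776424)))) (a (l 15047456) (a (l 14736496) (b (l 14609936) (l 14494040))))) (a (l 14851984) (b (l 14475448) (l 14322160))))) (a (a (l 15437968) (l 14987408)) (a (l 14525872) (b (l 14116976) (l 13873192))))))), by decide +kernel⟩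

theorem c_pp_012_b : CertNX 0 536870912 1239849684 370763052 1046898278 26843546 3 false true true .pnp 0 1 2
    ndN3q0 ndN1q2b pcN1 Cut.none Ext.none :=
  certNX2 (fam := false) (s1 := true) (s2 := true) (a := 0) (b := 1) (c := 2) (cn := .pnp) (n1 := ndN3q0) (n2 := ndN1q2b) (pc := pcN1) (cut := Cut.none) (xt := Ext.none) (P1 := 0) (W1 := 536870912) (P2 := 1239849684) (W2 := 370763052) (P3 := 1046898278) (W3 := 26843546) (N0 := 3)
    rfl (fun _ => rfl) k0_pp_012_b

noncomputable def f_pp_022_a : ℕ → ℕ → ℕ → ℕ → Bool := onCell 0 536870912 0 420477299 1046898278 26843546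
    (rowNX 3 0 false true true .pp 0 2 2 (qsf 0 536870912 0 420477299 2) ndN3q0 ndN1q2a pcN2 Cut.none Ext.none)

def k0_pp_022_a : ∃ t, chk3 f_pp_022_a t 2 2 1 = true :=
  ⟨(a (a (a (b (a (a (b (c (l 15993704) (l 15786840)) (c (l 16055360) (a (l 15983632) (c (l 16168752) (l 16182424))))) (b (a (c (l 16187736) (l 16223528)) (c (b (l 16190288) (a (l 16314752) (l 16342752))) (a (l 16317408) (b (l 16323912) (l 16316088))))) (a (b (c (l 16253920) (l 16292248)) (c (a (l 16287336) (l 16313760)) (a (l 16330456) (l 16296472)))) (a (b (c (l 16346088) (l 16328040)) (l 16229864)) (l 16261400))))) (b (c (l 16361064) (l 16348640)) (c (l 16375888) (l 16367624)))) (a (b (a (b (a (c (l 16170152) (l 16121424)) (c (l 16133016) (c (l 16129128) (l 16166144)))) (a (c (l 16199888) (a (l 16253808) (b (l 16288240) (l 16279136)))) (c (b (l 16331336) (l 16336912)) (b (a (l 16283696) (l 16365136)) (l 16357768))))) (b (c (a (l 16295688) (l 16344992)) (c (l 16360344) (l 16355952))) (c (l 16330024) (l 16362408)))) (a (a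 (b (c (l 16344280) (b (a (l 16344592) (l 16356424)) (l 16349576))) (l 16260936)) (c (l 16303112) (l 16322128))) (c (l 16289544) (l 16319744)))) (c (b (l 16350048) (l 16297304)) (b (l 16356488) (l 16300936))))) (b (c (a (l 16381496) (l 16345208)) (a (l 16379520) (l 16381504))) (a (c (b (l 16348064) (l 16290544)) (l 16229384)) (b (c (l 16347136) (l 16339312)) (c (l 16191336) (l 16285672)))))) (a (b (a (b (a (l 16414168) (l 16282880)) (a (l 16444592) (l 16296504))) (l 15744112)) (a (b (a (l 16305864) (l 16328424)) (a (l 16297880) (l 16393648))) (b (l 16026488) (l 16081096)))) (b (a (a (l 15627504) (l 15494944)) (l 15365416)) (a (b (l 15496752) (a (l 15786720) (l 15680104))) (b (l 15481328) (l 15593144)))))) (a (b (a (b (l 15019056) (l 15102072)) (l 1)) (a (b (a (l 15323376) (l 15149248)) (a (l 15457064) (l 15305264))) (l 1))) (l 1))), by decide +kernel⟩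

def k1_pp_022_a : ∃ t, chk3 f_pp_022_a t 8 6 1 = true :=
  ⟨(a (a (c (b (a (l 16244008) (l 16207968)) (a (l 16125080) (l 16086512))) (b (a (c (l 16249144) (l 16242152)) (l 16213072)) (a (c (l 16125952) (l 16110160)) (l 16106792)))) (b (c (l 16191000) (l 16211336)) (c (a (l 16092488) (l 16088592)) (l 16040528)))) (b (a (c (l 16183216) (l 16193032)) (c (l 16105472) (l 16217384))) (a (c (l 15990072) (l 16078520)) (c (l 16111776) (l 16114032))))), by decide +kernel⟩

def k2_pp_022_a : ∃ t, chk3 f_pp_022_a t 16 14 1 = true :=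
  ⟨(a (a (b (c (l 15983248) (c (l 16022536) (a (l 16031528) (l 16018552)))) (b (c (a (b (l 16052480) (c (a (b (l 16070536) (l 16063336)) (l 16030096)) (a (l 16013464) (l 16041072)))) (l 16014552)) (a (b (l 16037112) (c (a (l 16045512) (l 16031592)) (c (l 16035384) (l 15952848)))) (l 16018992))) (b (c (a (c (a (l 16030144) (l 16038960)) (a (l 16019592) (l 16028536))) (c (a (b (l 16037328) (l 16032392)) (l 16018456)) (a (l 16022688) (l 16011200)))) (a (c (l 15974640) (a (l 16000328) (l 16020688))) (c (a (l 16023720) (l 16027416)) (c (l 16036816) (l 16032608))))) (c (a (c (l 15995776) (l 15984488)) (a (l 15979064) (c (l 16010328) (l 16002720)))) (c (a (l 15973752) (a (l 15994872) (l 16018608))) (a (l 15951792) (l 15998240))))))) (b (c (c (l 15972856) (l 15990744)) (l 15979376)) (b (c (l 15995872) (l 16011336)) (c (a (b (l 16007176) (c (a (l 16002568) (l 15995408)) (a (l 16009896) (l 16020264)))) (l 16009504)) (a (b (l 16031096) (c (l 15995656) (l 16032144))) (l 16027120)))))) (c (b (a (l 15991992)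 (l 15993392)) (a (l 16013440) (l 16014296))) (b (l 15979504) (l 16000128)))), by decide +kernel⟩

def k3_pp_022_a : ∃ t, chk3 f_pp_022_a t 32 30 1 = true :=
  ⟨(b (c (a (c (c (a (l 15955288) (l 15970056)) (a (l 15949216) (l 15964096))) (a (c (l 15943104) (l 15936960)) (c (l 15958104) (l 15955456)))) (c (a (b (a (l 15982240) (l 15990880)) (l 15968520)) (b (a (l 16000144) (l 16011744)) (l 16000848))) (a (b (l 16005088) (l 15982728)) (b (l 16037464) (l 16033432))))) (a (c (a (l 15886400) (c (l 15959928) (l 15969160))) (a (c (l 15925576) (l 15925760)) (l 15952384))) (c (a (b (l 16028408) (l 16005576)) (b (l 16042792) (l 16038528))) (a (l 15992800) (b (l 16030168) (l 16025680)))))) (a (c (c (c (a (l 15924944) (l 15943352)) (a (l 15918512) (l 15937064))) (a (c (l 15912040) (l 15905528)) (c (l 15930736) (l 15927760)))) (c (a (c (l 15898976) (l 15893272)) (c (l 15931888) (l 15940784))) (a (c (l 15893032) (l 15892832)) (l 15881544)))) (c (a (c (c (l 15952424) (l 15952664)) (c (l 15959808) (l 15974416)))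 (b (c (a (l 15976672) (b (l 16001552) (l 15935608))) (a (l 16011184) (l 15990336))) (c (a (b (l 15973992) (a (l 15967792) (l 15978632))) (b (l 15996520) (l 15995152))) (a (b (l 16008400) (l 16008032)) (l 16028104))))) (a (c (l 15948416) (l 15983688)) (a (b (l 16013080) (c (l 16017784) (l 16003264))) (b (c (l 16031400) (l 16017392)) (l 15957608))))))), by decide +kernel⟩

def k4_pp_022_a : ∃ t, chk3 f_pp_022_a t 32 31 2 = true :=
  ⟨(a (b (a (c (c (l 15928088) (l 15921608)) (c (l 15915088) (l 15908520))) (b (c (l 15941592) (l 15931448)) (a (c (l 15948808) (l 15936128)) (c (b (l 15953384) (a (l 15959088) (l 15960488))) (b (l 15944280) (a (l 15947016) (l 15952456))))))) (a (b (c (a (l 15942952) (a (l 15954080) (b (l 15954760) (c (l 15969176) (l 15963048))))) (a (l 15930144) (b (l 15938928) (l 15950648)))) (c (a (b (c (l 15966376) (l 15960208)) (a (b (l 15950536) (l 15978664)) (a (l 15978744) (l 15959096)))) (b (a (b (l 15970256) (l 15954360)) (l 15953920)) (l 15960840))) (a (b (l 15950816) (a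 (l 15962424) (l 15967144))) (b (l 15961240) (l 15970040))))) (c (b (a (b (a (l 15960408) (b (l 15962352) (l 15944904))) (a (l 15969144) (l 15969920))) (c (l 15969888) (l 15964480))) (c (l 15981944) (l 15977904))) (b (a (b (l 15949376) (l 15957256)) (l 15958600)) (l 15971272))))) (b (a (b (c (a (b (l 15948568) (a (l 15951848) (l 15953368))) (b (a (l 15953984) (l 15960008)) (c (l 15956496) (l 15960472)))) (a (b (l 15954456) (l 15958296)) (b (l 15981880) (l 15983696)))) (c (a (b (c (l 15959360) (l 15953576)) (l 15938416)) (l 15962912)) (c (l 15926176) (l 15982704)))) (c (c (l 15977176) (l 15994584)) (l 16018680))) (c (c (a (c (l 15973136) (l 15973216)) (l 15992944)) (a (l 15976360) (l 16012816))) (a (l 15992048) (l 16038224))))), by decide +kernel⟩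

def k5_pp_022_a : ∃ t, chk3 f_pp_022_a t 32 31 3 = true :=
  ⟨(a (b (a (c (c (l 15901920) (l 15896160)) (c (l 15895864) (l 15895608))) (c (b (l 15938992) (a (l 15934928) (b (l 15958608) (l 15964960)))) (b (l 15945552) (a (l 15945432) (b (l 15967040) (l 15973456)))))) (a (c (b (c (l 15927864) (l 15859368)) (a (b (l 15938152) (l 15951936)) (b (l 15949384) (l 15958304)))) (b (a (l 15906240) (c (l 15933872) (l 15937144))) (a (b (l 15927544) (c (l 15942848) (l 15941808))) (c (l 15955336) (l 15958760))))) (c (b (a (b (l 15927392) (l 15956352)) (l 15973096)) (l 15979304)) (b (a (b (l 15959048) (l 15967136)) (l 15981680)) (l 15986336))))) (b (a (c (b (a (l 15983072) (b (l 16004376) (l 16006184))) (a (l 15990744) (l 16009584))) (b (a (l 15978024) (l 15992776)) (l 15991856))) (c (l 16023224) (l 16009816))) (c (a (l 16014592) (l 16042952)) (l 16019704)))), by decide +kernel⟩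

def k6_pp_022_a : ∃ t, chk3 f_pp_022_a t 33 15 1 = true :=
  ⟨(b (a (c (b (a (b (l 16036120) (a (c (b (l 16028416) (l 16028320)) (l 16053704)) (b (l 16046272) (c (a (l 16040344) (l 16046376)) (l 16057824))))) (l 16044928)) (a (c (b (a (b (a (l 16018080) (l 16028224)) (l 16019816)) (l 16042160)) (l 16027368)) (b (a (l 16047000) (l 16056784)) (l 16045872))) (c (c (l 15969368) (l 16062584)) (l 16058400)))) (b (a (b (l 16032576) (a (c (l 16045304) (l 16032368)) (b (l 16036840) (l 16039480)))) (l 16028336)) (a (b (a (c (l 16038368) (l 16025200)) (l 16038536)) (l 16030288)) (c (l 16044744) (l 16032312))))) (c (b (l 16038440) (b (l 16050808) (c (c (l 16067560) (l 16064760)) (l 16055928)))) (b (l 16020016) (c (l 16038296) (l 16026384))))) (c (a (c (b (c (l 16036928) (a (l 16037928) (l 16065608))) (c (l 16054080) (a (l 16056944) (l 16085504)))) (b (l 16034008) (c (l 15994144) (l 16076840)))) (c (b (a (l 16073752) (l 16078592)) (l 16096952)) (b (a (l 16067096) (l 16068568)) (c (l 16094352) (l 16089240)))))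 (a (c (b (l 16044168) (l 16066320)) (b (l 16031832) (l 16054200))) (b (c (l 16057624) (l 16045848)) (c (l 16080488) (l 16068928)))))), by decide +kernel⟩

def k7_pp_022_a : ∃ t, chk3 f_pp_022_a t 17 7 1 = true :=
  ⟨(b (c (a (b (l 16002536) (l 16018848)) (b (l 16033560) (l 16044032))) (a (b (l 15981760) (l 15998048)) (b (l 16010224) (l 16020440)))) (a (b (c (l 16047424) (l 16027000)) (b (a (c (c (l 16074184) (c (l 16066136) (l 16060064))) (c (l 16051928) (l 16039744))) (l 16062080)) (c (c (a (l 16080104) (a (l 16094296) (l 16093024))) (a (c (l 16094208) (l 16089088)) (a (l 16083160) (l 16082112)))) (c (a (l 16081920) (c (l 16074672) (l 16069176))) (a (l 16070280) (l 16060752)))))) (c (b (l 16067640) (l 16095056)) (b (l 16044216) (l 16071872))))), by decide +kernel⟩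

def k8_pp_022_a : ∃ t, chk3 f_pp_022_a t 9 3 1 = true :=
  ⟨(b (a (a (b (a (l 16263736) (l 16513920)) (c (l 16154976) (l 16164824))) (b (l 16083368) (a (l 16442352) (l 16289456)))) (b (a (a (l 15922744) (l 15824672)) (l 15753008)) (a (a (l 16107216) (l 16037696)) (l 15980400)))) (a (b (a (b (c (l 16172024) (l 16218776)) (c (l 16260944) (l 16244280))) (b (l 16368120) (l 16469712))) (a (b (c (l 16279968) (l 16263256)) (c (l 16261824) (l 16287112))) (b (l 16463488) (l 1)))) (b (a (b (a (l 16256896) (l 16234376)) (a (l 16375048) (l 1))) (l 1)) (l 1)))), by decide +kernel⟩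

def k9_pp_022_a : ∃ t, chk3 f_pp_022_a t 5 3 1 = true :=
  ⟨(b (a (a (b (a (l 15637504) (l 1)) (l 1)) (l 1)) (l 1)) (l 1)), by decide +kernel⟩

def k10_pp_022_a : ∃ t, chk3 f_pp_022_a t 3 1 1 = true :=
  ⟨(l 1), by decide +kernel⟩

theorem s11_pp_022_a : ∃ t, chk3 f_pp_022_a t 32 31 1 = true := ex3_c k4_pp_022_a k5_pp_022_a

theorem s12_pp_022_a : ∃ t, chk3 f_pp_022_a t 32 15 1 = true := ex3_b k3_pp_022_a s11_pp_022_a

theorem s13_pp_022_a : ∃ t, chk3 f_pp_022_a t 16 15 1 = true := ex3_a s12_pp_022_a k6_pp_022_a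

theorem s14_pp_022_a : ∃ t, chk3 f_pp_022_a t 16 7 1 = true := ex3_b k2_pp_022_a s13_pp_022_a

theorem s15_pp_022_a : ∃ t, chk3 f_pp_022_a t 8 7 1 = true := ex3_a s14_pp_022_a k7_pp_022_a

theorem s16_pp_022_a : ∃ t, chk3 f_pp_022_a t 8 3 1 = true := ex3_b k1_pp_022_a s15_pp_022_a

theorem s17_pp_022_a : ∃ t, chk3 f_pp_022_a t 4 3 1 = true := ex3_a s16_pp_022_a k8_pp_022_a

theorem s18_pp_022_a : ∃ t, chk3 f_pp_022_a t 2 3 1 = true := ex3_a s17_pp_022_a k9_pp_022_a

theorem s19_pp_022_a : ∃ t, chk3 f_pp_022_a t 2 1 1 = true := ex3_b k0_pp_022_a s18_pp_022_a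

theorem s20_pp_022_a : ∃ t, chk3 f_pp_022_a t 1 1 1 = true := ex3_a s19_pp_022_a k10_pp_022_a

theorem c_pp_022_a : CertNX 0 536870912 0 420477299 1046898278 26843546 3 false true true .pp 0 2 2
    ndN3q0 ndN1q2a pcN2 Cut.none Ext.none :=
  certNX0 (fam := false) (s1 := true) (s2 := true) (a := 0) (b := 2) (c := 2) (cn := .pp) (n1 := ndN3q0) (n2 := ndN1q2a) (pc := pcN2) (cut := Cut.none) (xt := Ext.none) (P1 := 0) (W1 := 536870912) (P2 := 0) (W2 := 420477299) (P3 := 1046898278) (W3 := 26843546) (N0 := 3)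
    rfl s20_pp_022_a

noncomputable def f_pp_022_b : ℕ → ℕ → ℕ → ℕ → Bool := onCell 0 536870912 1073741824 536870912 1046898278 26843546
    (rowNX 3 1 false true true .pp 0 2 2 (qsf 0 536870912 1239849684 370763052 2) ndN3q0 ndN1q2b pcN2 Cut.none Ext.none)

def k0_pp_022_b : ∃ t, chk3 f_pp_022_b t 2 4 1 = true :=
  ⟨(a (a (b (l 1) (a (b (l 1) (a (l 1) (c (l 354903616007) (l 16076744)))) (b (b (l 1) (c (l 345776830647) (l 15990552))) (c (a (l 16174136) (l 16253664)) (l 122438785415))))) (b (a (a (l 1) (b (l 1) (l 15867616))) (b (a (l 1) (l 15248208)) (a (l 292625166439) (l 15327744)))) (a (b (a (b (l 16248024) (l 16077704)) (b (l 15959040) (l 15898248))) (a (a (l 16069680) (l 15952952)) (l 15649248))) (a (b (b (l 15559824) (l 15522360)) (l 15299696)) (b (l 15388872) (l 15166288)))))) (b (b (a (a (l 396777047751) (c (l 14746848) (a (l 14730632) (l 14617216)))) (c (l 14316992) (a (l 14430856) (l 14248160)))) (a (a (a (l 15173640) (l 15021472)) (c (l 14893016) (l 14828304))) (c (a (l 14666072)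 (l 14501416)) (l 14340624)))) (a (b (a (b (l 15198048) (l 15038128)) (b (l 14959664) (l 14949568))) (a (l 14977088) (l 14769416))) (b (a (l 14744936) (l 14592032)) (l 14551840))))), by decide +kernel⟩

def k1_pp_022_b : ∃ t, chk3 f_pp_022_b t 2 5 1 = true :=
  ⟨(a (b (a (a (b (b (a (a (l 1) (c (l 375304962135) (l 437045199287))) (c (a (l 16252704) (l 16306096)) (l 16269016))) (a (c (b (a (l 16164176) (l 16131208)) (l 15816976)) (b (c (l 655014626967) (l 16012232)) (a (l 15837784) (l 15975048)))) (c (l 15967440) (l 16094704)))) (a (c (a (l 15129512) (b (l 15609776) (l 15167576))) (a (c (l 15214912) (l 15080440)) (l 15130760))) (c (b (l 15726816) (l 15298704)) (l 15359128)))) (b (b (c (a (l 16201000) (l 16021304)) (l 16100480)) (a (l 16079848) (l 16035736))) (b (a (l 15765584) (l 15912160)) (c (l 15519432) (l 15482584))))) (b (b (a (a (l 15666792) (l 15419528)) (a (l 15096160) (l 14973208))) (a (a (l 15826792) (l 15597072)) (l 15228832))) (a (a (b (l 16176528) (l 15900576)) (l 16073136)) (b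 (l 15675736) (l 16094632))))) (a (b (a (a (c (a (l 14481416) (l 14546552)) (a (l 14340640) (l 14509096))) (c (l 14698272) (l 14639944))) (c (l 14707936) (l 14898944))) (a (c (a (b (l 14098600) (l 14097408)) (l 14297584)) (a (c (l 14047360) (l 14011192)) (l 14222136))) (c (l 14587216) (l 14510368)))) (b (a (a (l 15369448) (l 15843072)) (l 16191384)) (a (a (l 15021496) (l 15566664)) (l 16170008))))) (b (b (a (b (l 14729880) (l 14943528)) (b (l 14517112) (l 14756968))) (a (l 15480512) (l 15370688))) (a (b (l 16319904) (l 16632464)) (b (l 16050536) (l 16406624))))), by decide +kernel⟩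

def k2_pp_022_b : ∃ t, chk3 f_pp_022_b t 3 2 1 = true :=
  ⟨(b (b (a (c (b (l 14078696) (a (l 14350616) (l 14167800))) (b (a (l 14083000) (l 13882968)) (l 14175312))) (c (b (l 13730784) (l 13931352)) (b (a (l 13704176) (l 13543520)) (l 13836384)))) (b (a (c (a (l 14499512) (l 14335304)) (l 14321112)) (c (l 14122432) (l 14006112))) (a (l 14349280) (l 14148288)))) (b (b (a (l 14318728) (l 14517712)) (a (l 15263840) (l 2))) (b (l 15501568) (l 16002672)))), by decide +kernel⟩

def k3_pp_022_b : ∃ t, chk3 f_pp_022_b t 1 3 1 = true :=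
  ⟨(a (a (b (a (a (a (b (c (l 14097408) (l 14029928)) (c (l 14097432) (l 14029944))) (b (c (l 14297024) (l 14221552)) (l 14249976))) (b (b (l 14552200) (l 14553824)) (l 14508440))) (a (b (a (l 15026880) (l 15580320)) (l 15288408)) (b (l 16155432) (l 16104000)))) (a (a (b (c (l 14194240) (l 14127872)) (l 14121640)) (b (l 14549544) (l 14549544))) (a (b (l 15286440) (l 15286440)) (l 16038392)))) (b (b (a (l 16578472) (l 16570776)) (a (l 16503792) (l 16747880))) (a (b (l 16500672) (l 2)) (l 2)))) (b (b (a (l 16467032) (l 2)) (l 2)) (l 2))), by decide +kernel⟩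

theorem s4_pp_022_b : ∃ t, chk3 f_pp_022_b t 2 2 1 = true := ex3_b k0_pp_022_b k1_pp_022_b

theorem s5_pp_022_b : ∃ t, chk3 f_pp_022_b t 1 2 1 = true := ex3_a s4_pp_022_b k2_pp_022_b

theorem s6_pp_022_b : ∃ t, chk3 f_pp_022_b t 1 1 1 = true := ex3_b s5_pp_022_b k3_pp_022_b

theorem c_pp_022_b : CertNX 0 536870912 1239849684 370763052 1046898278 26843546 3 false true true .pp 0 2 2
    ndN3q0 ndN1q2b pcN2 Cut.none Ext.none :=
  certNX1 (fam := false) (s1 := true) (s2 := true) (a := 0) (b := 2) (c := 2) (cn := .pp) (n1 := ndN3q0) (n2 := ndN1q2b) (pc := pcN2) (cut := Cut.none) (xt := Ext.none) (P1 := 0) (W1 := 536870912) (P2 := 1239849684) (W2 := 370763052) (P3 := 1046898278) (W3 := 26843546) (N0 := 3)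
    rfl (fun _ => rfl) s6_pp_022_b

noncomputable def f_pp_023 : ℕ → ℕ → ℕ → ℕ → Bool := onCell 0 536870912 1073741824 536870912 1046898278 26843546
    (rowNX 3 1 false true true .up 0 2 3 (qsf 0 536870912 1610612736 469762048 2) ndN3q0 ndN1q3 pcN2 Cut.none Ext.none)

def k0_pp_023 : ∃ t, chk3 f_pp_023 t 1 1 1 = true :=
  ⟨(b (b (a (l 1) (b (a (l 1) (c (b (l 13730784) (l 13931352)) (b (l 593269104039) (l 13836384)))) (b (a (l 1) (l 614744814503)) (l 599175938551)))) (a (a (l 1) (b (l 1) (b (l 1) (l 767221155399)))) (b (b (a (l 14318728) (l 14517712)) (l 603472832295)) (b (l 606695133703) (l 15981704))))) (a (a (b (a (l 1) (a (l 1) (l 1315365773351))) (a (a (b (l 1) (l 14142608)) (l 387112523319)) (a (l 413420566951) (l 16038392)))) (b (b (a (l 16578472) (l 16570776)) (a (l 16503792) (l 16747880))) (a (b (l 16500672) (l 16500672)) (b (l 16745168) (l 16745168))))) (b (b (a (l 16467032) (l 16373296)) (a (l 16765712) (l 16763872))) (a (b (l 16777216) (l 16777208)) (l 4))))), by decide +kernel⟩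

theorem c_pp_023 : CertNX 0 536870912 1610612736 469762048 1046898278 26843546 3 false true true .up 0 2 3
    ndN3q0 ndN1q3 pcN2 Cut.none Ext.none :=
  certNX1 (fam := false) (s1 := true) (s2 := true) (a := 0) (b := 2) (c := 3) (cn := .up) (n1 := ndN3q0) (n2 := ndN1q3) (pc := pcN2) (cut := Cut.none) (xt := Ext.none) (P1 := 0) (W1 := 536870912) (P2 := 1610612736) (W2 := 469762048) (P3 := 1046898278) (W3 := 26843546) (N0 := 3)
    rfl (fun _ => rfl) k0_pp_023

end Pool.Agent.Strip051.G.IE1.Tab.C.NB31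

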