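import Pool.Agent.Strip051.G.IE1.Tab

/-! # Certificates N71 (generated) -/

set_option linter.all false
set_option maxRecDepth 100000

namespace Pool.Agent.Strip051.G.IE1.Tab.C.NB31

open Pool.Agent.Strip051.PB Pool.Agent.Strip051.PB.T
open Pool.Agent.Strip051.G.IE1.Tab

noncomputable def f_pp_033 : ℕ → ℕ → ℕ → ℕ → Bool := onCell 0 536870912 1610612736 536870912 1046898278 26843546
    (rowNX 3 1 false true true .pnn 0 3 3 (qsf 0 536870912 1610612736 469762048 3) ndN3q0 ndN1q3 pcN3 Cut.none Ext.none)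

def k0_pp_033 : ∃ t, chk3 f_pp_033 t 1 1 1 = true :=
  ⟨(a (b (a (b (a (b (a (l 13974840) (l 14549544)) (a (c (l 14194240) (l 14127872)) (l 14549544))) (b (a (l 15286440) (l 16101312)) (a (l 15286440) (l 16101312)))) (b (a (a (b (l 14163584) (l 13953864)) (b (l 14549544) (l 4))) (l 4)) (l 4))) (b (a (b (l 16500672) (l 4)) (l 4)) (l 4))) (a (l 4) (b (l 4) (l 2)))) (b (a (l 4) (b (l 4) (l 2))) (l 2))), by decide +kernel⟩

theorem c_pp_033 : CertNX 0 536870912 1610612736 469762048 1046898278 26843546 3 false true true .pnn 0 3 3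
    ndN3q0 ndN1q3 pcN3 Cut.none Ext.none :=
  certNX1 (fam := false) (s1 := true) (s2 := true) (a := 0) (b := 3) (c := 3) (cn := .pnn) (n1 := ndN3q0) (n2 := ndN1q3) (pc := pcN3) (cut := Cut.none) (xt := Ext.none) (P1 := 0) (W1 := 536870912) (P2 := 1610612736) (W2 := 469762048) (P3 := 1046898278) (W3 := 26843546) (N0 := 3)
    rfl (fun _ => rfl) k0_pp_033

noncomputable def f_pp_101 : ℕ → ℕ → ℕ → ℕ → Bool := onCell 536870912 536870912 536870912 536870912 1046898278 26843546
    (rowNX 3 0 false true true .npn 1 0 1 (qsf 536870912 536870912 536870912 536870912 0) ndN3q1 ndN1q1 pcN0 Cut.none Ext.none)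

def k0_pp_101 : ∃ t, chk3 f_pp_101 t 1 1 1 = true :=
  ⟨(l 3), by decide +kernel⟩

theorem c_pp_101 : CertNX 536870912 536870912 536870912 536870912 1046898278 26843546 3 false true true .npn 1 0 1
    ndN3q1 ndN1q1 pcN0 Cut.none Ext.none :=
  certNX0 (fam := false) (s1 := true) (s2 := true) (a := 1) (b := 0) (c := 1) (cn := .npn) (n1 := ndN3q1) (n2 := ndN1q1) (pc := pcN0) (cut := Cut.none) (xt := Ext.none) (P1 := 536870912) (W1 := 536870912) (P2 := 536870912) (W2 := 536870912) (P3 := 1046898278) (W3 := 26843546) (N0 := 3)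
    rfl k0_pp_101

noncomputable def f_pp_102_a : ℕ → ℕ → ℕ → ℕ → Bool := onCell 536870912 536870912 0 420477299 1046898278 26843546
    (rowNX 3 0 false true true .npp 1 0 2 (qsf 536870912 536870912 0 420477299 0) ndN3q1 ndN1q2a pcN0 Cut.none Ext.none)

def k0_pp_102_a : ∃ t, chk3 f_pp_102_a t 2 1 1 = true :=
  ⟨(b (a (l 2) (b (l 16777120) (l 16776040))) (a (b (l 16772600) (b (l 16707520) (l 16330160))) (b (a (l 16772600) (l 16772600)) (b (l 16707520) (b (l 16489856) (l 16298680)))))), by decide +kernel⟩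

def k1_pp_102_a : ∃ t, chk3 f_pp_102_a t 6 1 1 = true :=
  ⟨(b (a (b (l 16684200) (l 16683680)) (a (l 16212912) (l 15674088))) (b (a (a (l 16772856) (l 16585032)) (a (l 16210488) (l 15671392))) (a (b (a (l 16707720) (l 16625616)) (a (l 16393288) (l 16483208))) (b (a (l 16256296) (a (l 15922256) (b (l 15477504) (a (l 15667320) (l 15452488))))) (a (b (l 16392072) (l 16512752)) (a (b (a (l 16153520) (l 15985784)) (a (l 16186872) (l 16146576))) (b (l 15496032) (l 15878136)))))))), by decide +kernel⟩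

def k2_pp_102_a : ∃ t, chk3 f_pp_102_a t 7 2 1 = true :=
  ⟨(a (a (l 14816560) (b (a (l 14342256) (l 14135000)) (b (a (l 14341784) (a (l 14189576) (l 14114512))) (a (a (l 14394200) (l 14297112)) (l 14176080))))) (b (a (l 13760992) (a (l 13294088) (c (l 13093280) (l 13066552)))) (b (a (c (l 13818928) (l 13774072)) (a (l 13330720) (c (l 13128320) (l 13102880)))) (a (c (a (l 13999696) (l 13717696)) (l 13819312)) (a (c (l 13382616) (l 13420488)) (c (b (l 13163416) (l 13190000)) (a (l 13184184) (l 13086360)))))))), by decide +kernel⟩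

def k3_pp_102_a : ∃ t, chk3 f_pp_102_a t 14 3 1 = true :=
  ⟨(b (a (b (a (l 15029208) (l 14598184)) (a (l 15027768) (b (l 14601352) (l 14601424)))) (b (a (b (c (l 14401856) (l 14318328)) (l 14371768)) (c (l 14257992) (l 14167040))) (l 14293920))) (a (b (b (a (l 15037080) (l 14606160)) (a (l 15115720) (l 14673104))) (b (a (l 15255736) (b (l 14751360) (l 14852312))) (a (l 15483744) (a (l 15154976) (l 14957888))))) (b (b (l 14280824) (c (l 14383064) (l 14299208))) (b (a (b (l 14492120) (l 14552592)) (c (l 14390352) (l 14307048))) (a (b (l 14666784) (l 14860304)) (b (a (l 14489032) (l 14431240)) (l 14419176))))))), by decide +kernel⟩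

def k4_pp_102_a : ∃ t, chk3 f_pp_102_a t 15 6 1 = true :=
  ⟨(a (b (c (a (b (l 14033792) (l 14047248)) (l 13622080)) (a (l 13957400) (l 13702872))) (a (c (b (l 14058160) (l 14037768)) (l 13974272)) (c (b (a (l 13831920) (l 13675928)) (a (l 13849024) (l 13705792))) (b (l 13717272) (l 13746400))))) (a (c (b (a (l 13469488) (l 13325416)) (b (l 13440072) (l 13501648))) (b (l 13448256) (l 13514432))) (c (b (l 13227608) (c (l 13308416) (l 13284416))) (b (a (l 13232376) (l 13148376)) (a (l 13313624) (l 13233344)))))), by decide +kernel⟩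

def k5_pp_102_a : ∃ t, chk3 f_pp_102_a t 30 7 1 = true :=
  ⟨(b (a (a (b (l 14052176) (l 14127384)) (b (l 13910944) (l 14033432))) (c (b (b (l 13796016) (l 13822264)) (l 13917744)) (b (l 13793984) (l 13901304)))) (b (c (a (l 14248136) (l 14059408)) (l 14110968)) (b (c (a (l 14361216) (l 13965936)) (l 14229656)) (a (a (c (l 14508216) (l 14435688)) (l 14373472)) (c (a (l 14312008) (a (b (l 14222448) (l 14280656)) (b (l 14202704) (l 14323312)))) (a (l 14282624) (a (l 14252880) (l 14294544)))))))), by decide +kernel⟩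

def k6_pp_102_a : ∃ t, chk3 f_pp_102_a t 31 7 1 = true :=
  ⟨(b (a (c (b (a (l 13636560) (l 13511944)) (a (l 13776832) (c (l 13646032) (l 13696040)))) (b (l 13606136) (a (l 13819200) (l 13745384)))) (b (a (c (l 13404808) (l 13420552)) (c (b (l 13367304) (a (l 13426664) (b (l 13448904) (l 13533144)))) (c (l 13363480) (a (l 13351680) (l 13333512))))) (a (c (b (a (l 13551280) (c (l 13528152) (l 13513072))) (a (a (l 13669152) (l 13663864)) (l 13699424))) (c (b (l 13576024) (a (l 13733704) (l 13718744))) (b (l 13599016) (a (l 13758464) (l 13756480))))) (c (b (a (b (l 13526336) (l 13623768)) (l 13691216)) (l 13856160)) (a (b (c (l 13528384) (l 13545848)) (l 13769032)) (l 13723528)))))) (a (b (c (a (b (l 13877424) (c (l 13926568) (l 13999920))) (b (a (l 13813992) (c (l 13774016) (l 13836008))) (a (c (b (l 13868992) (l 13971408)) (l 13986808)) (l 14021424)))) (a (b (l 13928096) (l 14016624)) (b (a (l 13894472) (l 13861344)) (a (l 14042128) (l 14114848))))) (c (a (b (a (b (l 14045464) (l 14128392))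 (l 14127088)) (l 14376496)) (c (b (l 14215160) (l 14506520)) (l 14252280))) (a (b (a (l 14141136) (l 14202320)) (l 14445408)) (b (l 14339440) (l 14644168))))) (b (a (c (b (a (c (l 13850008) (l 13875392)) (l 13938088)) (a (l 14106680) (l 14194624))) (b (a (l 13924144) (l 13975328)) (c (l 14202088) (l 14239024)))) (c (c (l 14251328) (l 14209488)) (c (l 14185616) (a (l 14166840) (l 14220520))))) (b (c (a (c (l 14402048) (l 14419024)) (l 14642248)) (a (c (l 14467696) (l 14510968)) (c (l 14607832) (a (l 14594392) (l 14651032))))) (c (a (c (l 14696776) (l 14719320)) (a (l 14874080) (l 15006080))) (a (c (l 14777752) (l 14824360)) (c (a (l 14857048) (l 14962056)) (a (l 14901016) (l 14796160))))))))), by decide +kernel⟩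

theorem s7_pp_102_a : ∃ t, chk3 f_pp_102_a t 15 7 1 = true := ex3_a k5_pp_102_a k6_pp_102_a

theorem s8_pp_102_a : ∃ t, chk3 f_pp_102_a t 15 3 1 = true := ex3_b k4_pp_102_a s7_pp_102_a

theorem s9_pp_102_a : ∃ t, chk3 f_pp_102_a t 7 3 1 = true := ex3_a k3_pp_102_a s8_pp_102_a

theorem s10_pp_102_a : ∃ t, chk3 f_pp_102_a t 7 1 1 = true := ex3_b k2_pp_102_a s9_pp_102_a

theorem s11_pp_102_a : ∃ t, chk3 f_pp_102_a t 3 1 1 = true := ex3_a k1_pp_102_a s10_pp_102_a

theorem s12_pp_102_a : ∃ t, chk3 f_pp_102_a t 1 1 1 = true := ex3_a k0_pp_102_a s11_pp_102_a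

theorem c_pp_102_a : CertNX 536870912 536870912 0 420477299 1046898278 26843546 3 false true true .npp 1 0 2
    ndN3q1 ndN1q2a pcN0 Cut.none Ext.none :=
  certNX0 (fam := false) (s1 := true) (s2 := true) (a := 1) (b := 0) (c := 2) (cn := .npp) (n1 := ndN3q1) (n2 := ndN1q2a) (pc := pcN0) (cut := Cut.none) (xt := Ext.none) (P1 := 536870912) (W1 := 536870912) (P2 := 0) (W2 := 420477299) (P3 := 1046898278) (W3 := 26843546) (N0 := 3)
    rfl s12_pp_102_a

noncomputable def f_pp_102_b : ℕ → ℕ → ℕ → ℕ → Bool := onCell 536870912 536870912 1239849684 370763052 1046898278 26843546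
    (rowNX 3 0 false true true .npp 1 0 2 (qsf 536870912 536870912 1239849684 370763052 0) ndN3q1 ndN1q2b pcN0 Cut.none Ext.none)

def k0_pp_102_b : ∃ t, chk3 f_pp_102_b t 1 1 1 = true :=
  ⟨(a (b (a (l 2) (b (l 16777216) (l 16777216))) (l 2)) (a (a (b (b (l 16537448) (l 16684248)) (l 2)) (b (a (b (l 16213288) (l 16213288)) (b (b (l 15674520) (l 15674520)) (l 15674520))) (a (l 16213288) (l 15653544)))) (b (a (b (a (l 14817032) (l 14235064)) (a (l 14817032) (l 14234872))) (b (a (b (a (l 13851776) (l 13512944)) (l 13634512)) (b (a (l 13147728) (c (l 12942272) (l 12909728))) (a (l 13018456) (c (l 12743016) (l 12702384))))) (a (l 13634512) (a (l 13016312) (l 12707432))))) (a (a (l 14817032) (l 14234872)) (a (b (l 13634512) (l 13634512)) (b (c (l 12893992) (l 12872624)) (c (l 12893992) (l 12872624)))))))), by decide +kernel⟩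

theorem c_pp_102_b : CertNX 536870912 536870912 1239849684 370763052 1046898278 26843546 3 false true true .npp 1 0 2
    ndN3q1 ndN1q2b pcN0 Cut.none Ext.none :=
  certNX0 (fam := false) (s1 := true) (s2 := true) (a := 1) (b := 0) (c := 2) (cn := .npp) (n1 := ndN3q1) (n2 := ndN1q2b) (pc := pcN0) (cut := Cut.none) (xt := Ext.none) (P1 := 536870912) (W1 := 536870912) (P2 := 1239849684) (W2 := 370763052) (P3 := 1046898278) (W3 := 26843546) (N0 := 3)
    rfl k0_pp_102_b

noncomputable def f_pp_112_a : ℕ → ℕ → ℕ → ℕ → Bool := onCell 536870912 536870912 0 420477299 1046898278 26843546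
    (rowNX 3 0 false true true .dn 1 1 2 (qsf 536870912 536870912 0 420477299 1) ndN3q1 ndN1q2a pcN1 Cut.none Ext.none)

def k0_pp_112_a : ∃ t, chk3 f_pp_112_a t 1 1 1 = true :=
  ⟨(a (b (a (b (l 16777120) (l 16776040)) (b (l 16777120) (l 16776040))) (a (b (l 16772600) (b (l 16707520) (b (l 16489856) (l 16298680)))) (b (l 16772600) (l 1)))) (l 1)), by decide +kernel⟩

theorem c_pp_112_a : CertNX 536870912 536870912 0 420477299 1046898278 26843546 3 false true true .dn 1 1 2
    ndN3q1 ndN1q2a pcN1 Cut.none Ext.none :=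
  certNX0 (fam := false) (s1 := true) (s2 := true) (a := 1) (b := 1) (c := 2) (cn := .dn) (n1 := ndN3q1) (n2 := ndN1q2a) (pc := pcN1) (cut := Cut.none) (xt := Ext.none) (P1 := 536870912) (W1 := 536870912) (P2 := 0) (W2 := 420477299) (P3 := 1046898278) (W3 := 26843546) (N0 := 3)
    rfl k0_pp_112_a

noncomputable def f_pp_112_b : ℕ → ℕ → ℕ → ℕ → Bool := onCell 536870912 536870912 536870912 536870912 1046898278 26843546
    (rowNX 3 1 false true true .dn 1 1 2 (qsf 536870912 536870912 1239849684 370763052 1) ndN3q1 ndN1q2b pcN1 Cut.none Ext.none)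

def k0_pp_112_b : ∃ t, chk3 f_pp_112_b t 1 1 1 = true :=
  ⟨(b (a (b (a (a (b (l 1) (l 554621378135)) (b (l 16742424) (l 16777080))) (l 16777152)) (l 16777184)) (a (a (l 16684248) (b (a (l 16213288) (l 15674520)) (l 15948944))) (b (a (l 14592016) (a (l 13634512) (c (l 12893992) (l 12872624)))) (a (l 14592016) (l 2))))) (a (b (b (l 16708032) (b (l 16354768) (l 15955784))) (a (b (l 15147560) (b (l 14303112) (l 13653392))) (b (l 14972256) (l 2)))) (b (a (b (a (l 16607416) (l 2)) (l 2)) (l 2)) (l 2)))), by decide +kernel⟩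

theorem c_pp_112_b : CertNX 536870912 536870912 1239849684 370763052 1046898278 26843546 3 false true true .dn 1 1 2
    ndN3q1 ndN1q2b pcN1 Cut.none Ext.none :=
  certNX1 (fam := false) (s1 := true) (s2 := true) (a := 1) (b := 1) (c := 2) (cn := .dn) (n1 := ndN3q1) (n2 := ndN1q2b) (pc := pcN1) (cut := Cut.none) (xt := Ext.none) (P1 := 536870912) (W1 := 536870912) (P2 := 1239849684) (W2 := 370763052) (P3 := 1046898278) (W3 := 26843546) (N0 := 3)
    rfl (fun _ => rfl) k0_pp_112_b

noncomputable def f_pp_113 : ℕ → ℕ → ℕ → ℕ → Bool := onCell 536870912 536870912 536870912 536870912 1046898278 26843546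
    (rowNX 3 1 false true true .nn 1 1 3 (qsf 536870912 536870912 1610612736 469762048 1) ndN3q1 ndN1q3 pcN1 Cut.none Ext.none)

def k0_pp_113 : ∃ t, chk3 f_pp_113 t 1 1 1 = true :=
  ⟨(b (a (l 572874817543) (a (a (l 16684248) (b (l 457445474519) (l 15948944))) (a (b (l 14592016) (l 14592016)) (a (b (l 13634512) (l 13634512)) (b (l 508978907479) (l 12893112)))))) (a (b (b (l 16708032) (b (l 16354768) (l 15955784))) (b (b (l 15285320) (l 14754384)) (b (l 599175827239) (a (l 13653392) (l 13397144))))) (b (a (b (a (l 16607416) (l 15871616)) (a (l 15985384) (l 15254184))) (b (a (l 14513552) (a (l 13555408) (l 12813720))) (a (l 13905440) (a (l 12952352) (l 12214872))))) (b (a (a (l 14776176) (l 14042456)) (a (l 12766696) (a (l 11902680) (l 11245152)))) (a (a (b (l 13861312) (l 13148664)) (b (l 13130872) (l 12415696))) (a (b (l 11957880) (l 11338824)) (a (b (l 11323784) (l 11069000)) (b (l 11040040) (b (l 11523688) (l 2)))))))))), by decide +kernel⟩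

theorem c_pp_113 : CertNX 536870912 536870912 1610612736 469762048 1046898278 26843546 3 false true true .nn 1 1 3
    ndN3q1 ndN1q3 pcN1 Cut.none Ext.none :=
  certNX1 (fam := false) (s1 := true) (s2 := true) (a := 1) (b := 1) (c := 3) (cn := .nn) (n1 := ndN3q1) (n2 := ndN1q3) (pc := pcN1) (cut := Cut.none) (xt := Ext.none) (P1 := 536870912) (W1 := 536870912) (P2 := 1610612736) (W2 := 469762048) (P3 := 1046898278) (W3 := 26843546) (N0 := 3)
    rfl (fun _ => rfl) k0_pp_113

noncomputable def f_pp_123 : ℕ → ℕ → ℕ → ℕ → Bool := onCell 1073741824 536870912 1610612736 469762048 1046898278 26843546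
    (rowNX 3 2 false true true .npn 1 2 3 (qsf 536870912 536870912 1610612736 469762048 2) ndN3q1 ndN1q3 pcN2 Cut.none Ext.none)

def k0_pp_123 : ∃ t, chk3 f_pp_123 t 1 1 1 = true :=
  ⟨(b (a (a (a (c (a (l 13397792) (b (l 13776232) (l 13563808))) (a (b (l 13385856) (l 13166392)) (l 13571688))) (a (b (l 13980128) (l 13750432)) (l 14069024))) (b (l 1) (a (l 591661360151) (l 15805592)))) (l 1)) (a (a (a (b (c (a (l 13043104) (l 13376856)) (a (b (l 13021800) (l 12813304)) (l 13264840))) (b (a (c (l 12518352) (a (l 12012672) (l 12455056))) (c (l 13131712) (l 12971608))) (a (c (l 12233656) (b (l 11696896) (l 11551496))) (c (a (l 12897640) (l 13216520)) (l 12771904))))) (b (a (l 13592720) (l 13870384)) (a (b (l 13451392) (c (l 13587104) (l 13358136))) (l 13810352)))) (a (a (b (l 14453488) (l 14452968)) (l 15062464)) (a (l 15482608) (l 15851048)))) (a (a (l 664678292727) (l 16760928)) (b (l 1) (l 4))))), by decide +kernel⟩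

theorem c_pp_123 : CertNX 536870912 536870912 1610612736 469762048 1046898278 26843546 3 false true true .npn 1 2 3
    ndN3q1 ndN1q3 pcN2 Cut.none Ext.none :=
  certNX2 (fam := false) (s1 := true) (s2 := true) (a := 1) (b := 2) (c := 3) (cn := .npn) (n1 := ndN3q1) (n2 := ndN1q3) (pc := pcN2) (cut := Cut.none) (xt := Ext.none) (P1 := 536870912) (W1 := 536870912) (P2 := 1610612736) (W2 := 469762048) (P3 := 1046898278) (W3 := 26843546) (N0 := 3)
    rfl (fun _ => rfl) k0_pp_123

noncomputable def f_pp_133 : ℕ → ℕ → ℕ → ℕ → Bool := onCell 536870912 536870912 1610612736 469762048 1046898278 26843546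
    (rowNX 3 0 false true true .dn 1 3 3 (qsf 536870912 536870912 1610612736 469762048 3) ndN3q1 ndN1q3 pcN3 Cut.none Ext.none)

def k0_pp_133 : ∃ t, chk3 f_pp_133 t 1 1 1 = true :=
  ⟨(l 1), by decide +kernel⟩

theorem c_pp_133 : CertNX 536870912 536870912 1610612736 469762048 1046898278 26843546 3 false true true .dn 1 3 3
    ndN3q1 ndN1q3 pcN3 Cut.none Ext.none :=
  certNX0 (fam := false) (s1 := true) (s2 := true) (a := 1) (b := 3) (c := 3) (cn := .dn) (n1 := ndN3q1) (n2 := ndN1q3) (pc := pcN3) (cut := Cut.none) (xt := Ext.none) (P1 := 536870912) (W1 := 536870912) (P2 := 1610612736) (W2 := 469762048) (P3 := 1046898278) (W3 := 26843546) (N0 := 3)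
    rfl k0_pp_133

noncomputable def f_pp_202_a : ℕ → ℕ → ℕ → ℕ → Bool := onCell 1073741824 536870912 0 420477299 1046898278 26843546
    (rowNX 3 0 false true true .pp 2 0 2 (qsf 1073741824 536870912 0 420477299 0) ndN3q2 ndN1q2a pcN0 Cut.none Ext.none)

def k0_pp_202_a : ∃ t, chk3 f_pp_202_a t 1 1 1 = true :=
  ⟨(l 3), by decide +kernel⟩

theorem c_pp_202_a : CertNX 1073741824 536870912 0 420477299 1046898278 26843546 3 false true true .pp 2 0 2
    ndN3q2 ndN1q2a pcN0 Cut.none Ext.none :=
  certNX0 (fam := false) (s1 := true) (s2 := true) (a := 2) (b := 0) (c := 2) (cn := .pp) (n1 := ndN3q2) (n2 := ndN1q2a) (pc := pcN0) (cut := Cut.none) (xt := Ext.none) (P1 := 1073741824) (W1 := 536870912) (P2 := 0) (W2 := 420477299) (P3 := 1046898278) (W3 := 26843546) (N0 := 3)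
    rfl k0_pp_202_a

noncomputable def f_pp_202_b : ℕ → ℕ → ℕ → ℕ → Bool := onCell 1073741824 536870912 1239849684 370763052 1046898278 26843546
    (rowNX 3 0 false true true .pp 2 0 2 (qsf 1073741824 536870912 1239849684 370763052 0) ndN3q2 ndN1q2b pcN0 Cut.none Ext.none)

def k0_pp_202_b : ∃ t, chk3 f_pp_202_b t 1 1 1 = true :=
  ⟨(l 3), by decide +kernel⟩

theorem c_pp_202_b : CertNX 1073741824 536870912 1239849684 370763052 1046898278 26843546 3 false true true .pp 2 0 2
    ndN3q2 ndN1q2b pcN0 Cut.none Ext.none :=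
  certNX0 (fam := false) (s1 := true) (s2 := true) (a := 2) (b := 0) (c := 2) (cn := .pp) (n1 := ndN3q2) (n2 := ndN1q2b) (pc := pcN0) (cut := Cut.none) (xt := Ext.none) (P1 := 1073741824) (W1 := 536870912) (P2 := 1239849684) (W2 := 370763052) (P3 := 1046898278) (W3 := 26843546) (N0 := 3)
    rfl k0_pp_202_b

noncomputable def f_pp_203 : ℕ → ℕ → ℕ → ℕ → Bool := onCell 1073741824 536870912 1610612736 469762048 1046898278 26843546
    (rowNX 3 0 false true true .up 2 0 3 (qsf 1073741824 536870912 1610612736 469762048 0) ndN3q2 ndN1q3 pcN0 Cut.none Ext.none)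

def k0_pp_203 : ∃ t, chk3 f_pp_203 t 1 1 1 = true :=
  ⟨(l 3), by decide +kernel⟩

theorem c_pp_203 : CertNX 1073741824 536870912 1610612736 469762048 1046898278 26843546 3 false true true .up 2 0 3
    ndN3q2 ndN1q3 pcN0 Cut.none Ext.none :=
  certNX0 (fam := false) (s1 := true) (s2 := true) (a := 2) (b := 0) (c := 3) (cn := .up) (n1 := ndN3q2) (n2 := ndN1q3) (pc := pcN0) (cut := Cut.none) (xt := Ext.none) (P1 := 1073741824) (W1 := 536870912) (P2 := 1610612736) (W2 := 469762048) (P3 := 1046898278) (W3 := 26843546) (N0 := 3)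
    rfl k0_pp_203

noncomputable def f_pp_213 : ℕ → ℕ → ℕ → ℕ → Bool := onCell 1073741824 536870912 1610612736 469762048 1046898278 26843546
    (rowNX 3 0 false true true .pnn 2 1 3 (qsf 1073741824 536870912 1610612736 469762048 1) ndN3q2 ndN1q3 pcN1 Cut.none Ext.none)

def k0_pp_213 : ∃ t, chk3 f_pp_213 t 1 1 1 = true :=
  ⟨(l 3), by decide +kernel⟩

theorem c_pp_213 : CertNX 1073741824 536870912 1610612736 469762048 1046898278 26843546 3 false true true .pnn 2 1 3
    ndN3q2 ndN1q3 pcN1 Cut.none Ext.none :=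
  certNX0 (fam := false) (s1 := true) (s2 := true) (a := 2) (b := 1) (c := 3) (cn := .pnn) (n1 := ndN3q2) (n2 := ndN1q3) (pc := pcN1) (cut := Cut.none) (xt := Ext.none) (P1 := 1073741824) (W1 := 536870912) (P2 := 1610612736) (W2 := 469762048) (P3 := 1046898278) (W3 := 26843546) (N0 := 3)
    rfl k0_pp_213

noncomputable def f_pp_303 : ℕ → ℕ → ℕ → ℕ → Bool := onCell 1610612736 536870912 1610612736 469762048 1046898278 26843546
    (rowNX 3 0 false true true .npn 3 0 3 (qsf 1610612736 536870912 1610612736 469762048 0) ndN3q3 ndN1q3 pcN0 Cut.none Ext.none)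

def k0_pp_303 : ∃ t, chk3 f_pp_303 t 1 1 1 = true :=
  ⟨(l 3), by decide +kernel⟩

theorem c_pp_303 : CertNX 1610612736 536870912 1610612736 469762048 1046898278 26843546 3 false true true .npn 3 0 3
    ndN3q3 ndN1q3 pcN0 Cut.none Ext.none :=
  certNX0 (fam := false) (s1 := true) (s2 := true) (a := 3) (b := 0) (c := 3) (cn := .npn) (n1 := ndN3q3) (n2 := ndN1q3) (pc := pcN0) (cut := Cut.none) (xt := Ext.none) (P1 := 1610612736) (W1 := 536870912) (P2 := 1610612736) (W2 := 469762048) (P3 := 1046898278) (W3 := 26843546) (N0 := 3)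
    rfl k0_pp_303

noncomputable def f_pp_313 : ℕ → ℕ → ℕ → ℕ → Bool := onCell 1610612736 536870912 1610612736 469762048 1046898278 26843546
    (rowNX 3 0 false true true .dn 3 1 3 (qsf 1610612736 536870912 1610612736 469762048 1) ndN3q3 ndN1q3 pcN1 Cut.none Ext.none)

def k0_pp_313 : ∃ t, chk3 f_pp_313 t 1 1 1 = true :=
  ⟨(l 1), by decide +kernel⟩

theorem c_pp_313 : CertNX 1610612736 536870912 1610612736 469762048 1046898278 26843546 3 false true true .dn 3 1 3
    ndN3q3 ndN1q3 pcN1 Cut.none Ext.none :=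
  certNX0 (fam := false) (s1 := true) (s2 := true) (a := 3) (b := 1) (c := 3) (cn := .dn) (n1 := ndN3q3) (n2 := ndN1q3) (pc := pcN1) (cut := Cut.none) (xt := Ext.none) (P1 := 1610612736) (W1 := 536870912) (P2 := 1610612736) (W2 := 469762048) (P3 := 1046898278) (W3 := 26843546) (N0 := 3)
    rfl k0_pp_313

noncomputable def f_pm_001 : ℕ → ℕ → ℕ → ℕ → Bool := onCell 0 536870912 536870912 536870912 1046898278 26843546
    (rowNX 3 0 false true false .up 0 0 1 (qsf 0 536870912 536870912 536870912 0) ndN3q0 ndN1q1 pcN0 Cut.none Ext.none)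

def k0_pm_001 : ∃ t, chk3 f_pm_001 t 1 1 1 = true :=
  ⟨(l 4), by decide +kernel⟩

theorem c_pm_001 : CertNX 0 536870912 536870912 536870912 1046898278 26843546 3 false true false .up 0 0 1
    ndN3q0 ndN1q1 pcN0 Cut.none Ext.none :=
  certNX0 (fam := false) (s1 := true) (s2 := false) (a := 0) (b := 0) (c := 1) (cn := .up) (n1 := ndN3q0) (n2 := ndN1q1) (pc := pcN0) (cut := Cut.none) (xt := Ext.none) (P1 := 0) (W1 := 536870912) (P2 := 536870912) (W2 := 536870912) (P3 := 1046898278) (W3 := 26843546) (N0 := 3)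
    rfl k0_pm_001

noncomputable def f_pm_011 : ℕ → ℕ → ℕ → ℕ → Bool := onCell 0 536870912 536870912 536870912 1046898278 26843546
    (rowNX 3 0 false true false .pnn 0 1 1 (qsf 0 536870912 536870912 536870912 1) ndN3q0 ndN1q1 pcN1 Cut.none Ext.none)

def k0_pm_011 : ∃ t, chk3 f_pm_011 t 1 1 1 = true :=
  ⟨(l 4), by decide +kernel⟩

theorem c_pm_011 : CertNX 0 536870912 536870912 536870912 1046898278 26843546 3 false true false .pnn 0 1 1
    ndN3q0 ndN1q1 pcN1 Cut.none Ext.none :=
  certNX0 (fam := false) (s1 := true) (s2 := false) (a := 0) (b := 1) (c := 1) (cn := .pnn) (n1 := ndN3q0) (n2 := ndN1q1) (pc := pcN1) (cut := Cut.none) (xt := Ext.none) (P1 := 0) (W1 := 536870912) (P2 := 536870912) (W2 := 536870912) (P3 := 1046898278) (W3 := 26843546) (N0 := 3)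
    rfl k0_pm_011

noncomputable def f_pm_012_a : ℕ → ℕ → ℕ → ℕ → Bool := onCell 536870912 536870912 0 420477299 1046898278 26843546
    (rowNX 3 2 false true false .pnp 0 1 2 (qsf 0 536870912 0 420477299 1) ndN3q0 ndN1q2a pcN1 Cut.none Ext.none)

def k0_pm_012_a : ∃ t, chk3 f_pm_012_a t 2 1 1 = true :=
  ⟨(a (b (l 2) (l 4)) (b (b (b (l 16777208) (a (l 16762376) (a (l 16769296) (l 16777040)))) (b (a (l 16702120) (a (l 16655368) (l 16672176))) (a (l 16409568) (a (l 16330080) (l 16204424))))) (b (a (l 4) (b (a (l 16188616) (l 15895320)) (l 4))) (l 4)))), by decide +kernel⟩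

def k1_pm_012_a : ∃ t, chk3 f_pm_012_a t 6 4 1 = true :=
  ⟨(a (a (l 16776816) (b (l 16601136) (c (a (l 16643280) (a (l 16476448) (l 16381688))) (a (l 16433400) (a (l 16329648) (l 16387384)))))) (a (a (b (l 16358208) (b (l 16332248) (a (a (c (l 16293016) (l 16299776)) (c (l 16236840) (c (l 16242448) (l 16246568)))) (a (b (l 16297536) (b (l 16290960) (c (c (l 16250208) (l 16233664)) (l 16235840)))) (l 16248800))))) (l 16174008)) (l 15813032))), by decide +kernel⟩

def k2_pm_012_a : ∃ t, chk3 f_pm_012_a t 12 5 1 = true :=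
  ⟨(a (b (b (l 16776232) (l 16698880)) (l 16208504)) (b (a (l 16500248) (b (c (l 16170920) (l 16166456)) (l 16006264))) (b (a (l 16326104) (l 15883056)) (l 15771048)))), by decide +kernel⟩

def k3_pm_012_a : ∃ t, chk3 f_pm_012_a t 26 5 1 = true :=
  ⟨(b (a (b (c (a (b (b (l 16180320) (l 15914608)) (l 15851720)) (a (b (c (l 16172008) (l 16175792)) (l 15748480)) (b (b (b (l 16202736) (l 16165968)) (b (l 16057392) (l 16001672))) (l 15554096)))) (a (a (l 15843432) (a (l 15798352) (l 15690000))) (b (a (b (l 16162304) (l 15910832)) (b (l 16168144) (l 15996904))) (b (l 15722944) (l 15603952))))) (l 15571912)) (b (b (a (a (c (b (l 16150632) (b (c (l 16147424) (l 16124056)) (l 16002512))) (b (a (l 16153760) (l 16170016)) (l 16085464))) (b (l 16146432) (c (c (l 16093800) (c (l 16098744) (l 16077080))) (c (l 16078304) (l 16083440))))) (l 16075768)) (b (c (a (a (b (l 15953208) (l 15779784)) (b (l 16003440) (l 15904288))) (a (b (l 16045576) (a (l 15934184) (l 16006480))) (l 15992480))) (a (a (l 15809792)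 (l 15971304)) (a (l 15999888) (a (l 15993608) (l 16019496))))) (a (a (c (l 15584424) (l 15542424)) (b (l 15825272) (l 15578416))) (a (c (b (l 15854184) (l 15775032)) (l 15772880)) (c (c (b (l 15987792) (l 15803568)) (l 15925576)) (l 15867896)))))) (b (b (a (a (l 15298904) (l 15189032)) (a (b (l 15528496) (l 15369248)) (c (b (l 15736128) (l 15511304)) (l 15552984)))) (a (l 15315256) (a (c (l 15266136) (l 15211528)) (b (l 15328320) (l 15172312))))) (a (l 15234168) (a (l 15101976) (a (l 15040952) (b (l 14927776) (l 14967440)))))))) (a (b (l 15404968) (l 15264560)) (b (l 14968992) (l 14775560)))), by decide +kernel⟩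

def k4_pm_012_a : ∃ t, chk3 f_pm_012_a t 27 10 1 = true :=
  ⟨(a (a (a (b (b (l 16008056) (b (l 15998088) (c (c (l 15933176) (c (l 15939272) (l 15913032))) (c (l 15914456) (l 15921288))))) (b (b (c (b (a (l 15791744) (l 15640944)) (l 15694704)) (l 15702432)) (c (a (l 15356744) (l 15511544)) (l 15344712))) (b (c (l 15086488) (l 15025816)) (l 14910440)))) (b (l 15952008) (b (b (c (a (b (l 15894984) (b (l 15861368) (l 15742800))) (l 15860872)) (a (l 15843032) (l 15833296))) (c (c (a (l 15593224) (l 15610984)) (l 15549576)) (l 15555896))) (c (a (b (l 15120328) (l 14920880)) (b (l 15214016) (l 14907680))) (b (l 15098344) (l 14692416)))))) (b (l 15818120) (c (b (a (b (l 15788104) (c (b (l 15780248) (a (l 15595576) (l 15620744))) (c (l 15717944) (l 15717632)))) (l 15687232)) (b (a (b (l 15489832) (l 15321032)) (b (c (l 15367048) (l 15620920)) (a (l 15430416) (l 15440176)))) (a (b (l 15038400) (l 14862288)) (b (l 15293768) (l 14999480))))) (b (a (b (a (l 15800128) (l 15804664)) (c (l 15709400)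 (l 15697776))) (b (l 15730272) (b (l 15723432) (l 15650424)))) (b (a (l 15321240) (b (l 15601840) (l 15405040))) (a (l 14876680) (l 15045232))))))) (b (l 15532744) (b (l 15499336) (b (a (a (c (c (l 15575640) (a (l 15556752) (l 15554008))) (b (l 15555072) (l 15520528))) (l 15532216)) (l 15384232)) (b (a (c (c (a (a (l 15374200) (l 15345344)) (l 15470776)) (a (l 15474088) (l 15435320))) (a (l 15424584) (l 15429128))) (l 15375536)) (a (c (a (c (l 15267168) (l 15243616)) (a (l 15287568) (c (l 15442704) (l 15401736)))) (a (l 15162880) (l 15372056))) (a (c (l 15367632) (l 15333960)) (l 15320064)))))))), by decide +kernel⟩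

def k5_pm_012_a : ∃ t, chk3 f_pm_012_a t 27 11 1 = true :=
  ⟨(b (b (a (a (l 14760640) (b (a (b (a (l 14737912) (l 14738624)) (l 14685448)) (c (b (l 14796096) (l 14700920)) (l 14689680))) (l 14601896))) (a (b (a (c (b (l 14970840) (l 14746472)) (l 14777312)) (c (b (c (l 15203272) (l 15202432)) (l 15040208)) (c (l 15066704) (l 14999600)))) (a (c (b (l 14617016) (l 14550728)) (l 14528640)) (b (l 14709160) (c (l 14543496) (l 14463936))))) (b (a (c (c (b (c (l 15364248) (l 15317400)) (a (l 15150256) (l 15025248))) (b (l 15312248) (l 15246672))) (b (l 15295656) (l 15187200))) (b (l 15314136) (c (c (l 15259256) (l 15217896)) (l 15205784)))) (c (a (b (c (l 15031184) (l 14997400)) (l 14710800)) (a (b (l 15065384) (l 14954336)) (b (c (l 15230520) (l 15183736)) (l 14991880)))) (a (c (l 14773328) (l 14738536)) (b (l 15080952) (l 14912448))))))) (a (l 14553048) (b (a (a (l 14445688) (b (a (l 14411272) (l 14409520)) (l 14365088))) (a (c (b (l 14486672) (l 14380920)) (l 14365456)) (c (b (c (l 14819688)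 (l 14683088)) (l 14454768)) (l 14485976)))) (a (l 14353960) (a (l 14253768) (c (b (l 14301344) (l 14235728)) (l 14202920))))))) (a (a (l 14393328) (l 14278800)) (l 14159616))), by decide +kernel⟩

def k6_pm_012_a : ∃ t, chk3 f_pm_012_a t 6 3 1 = true :=
  ⟨(b (a (b (a (b (l 15649080) (l 4)) (a (l 15149048) (l 15148632))) (l 4)) (a (a (a (l 147333917111) (l 15030792)) (l 14698192)) (a (a (l 14359336) (b (b (l 14166848) (l 14237176)) (l 14197760))) (b (b (l 14010368) (l 14011136)) (l 14003048))))) (l 4)), by decide +kernel⟩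

def k7_pm_012_a : ∃ t, chk3 f_pm_012_a t 28 4 1 = true :=
  ⟨(l 15135304), by decide +kernel⟩

def k8_pm_012_a : ∃ t, chk3 f_pm_012_a t 28 10 1 = true :=
  ⟨(l 14942048), by decide +kernel⟩

def k9_pm_012_a : ∃ t, chk3 f_pm_012_a t 28 22 1 = true :=
  ⟨(a (b (a (a (b (l 15211392) (c (a (b (l 15177704) (b (l 15145416) (l 15017632))) (l 15125152)) (c (b (l 15149456) (l 15086152)) (l 15079776)))) (l 15105208)) (l 14955664)) (b (b (a (a (c (a (l 14911968) (b (l 14888992) (l 14943736))) (l 14958920)) (c (c (l 15044280) (c (l 15040904) (l 15004008))) (a (l 15010488) (l 14981800)))) (l 14937952)) (a (c (a (c (l 14799832) (l 14760880)) (c (a (l 14851184) (l 15014736)) (l 14854448))) (a (l 14628912) (a (l 14844632) (l 14941360)))) (a (a (c (l 14959896) (l 14917280)) (l 14956112)) (l 14880568)))) (a (a (c (b (l 14462496) (l 14240920)) (l 14255144)) (a (c (b (l 14726264) (l 14400960)) (l 14445432)) (c (b (l 14769952) (l 14616944)) (l 14620968)))) (b (a (c (a (b (l 14930416) (l 14801072)) (l 14903664))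 (c (l 14863248) (l 14847880))) (l 14873400)) (c (a (c (a (l 14706872) (a (l 14715128) (l 14890968))) (l 14575792)) (l 14821976)) (a (l 14490504) (a (l 14786808) (l 14807480)))))))) (l 14661352)), by decide +kernel⟩

def k10_pm_012_a : ∃ t, chk3 f_pm_012_a t 56 23 1 = true :=
  ⟨(b (a (b (a (b (a (l 14080800) (l 14082432)) (l 14041672)) (c (b (l 14207792) (l 14067632)) (l 13953048))) (a (l 14016496) (b (c (l 14008504) (l 13907488)) (l 13923872)))) (a (b (b (c (a (l 14494224) (l 14604752)) (l 14440752)) (a (l 14122400) (l 14250360))) (c (b (l 14006104) (l 13921776)) (b (l 13907480) (l 13818832)))) (b (c (b (a (a (l 14638520) (b (l 14797552) (l 14664560))) (c (l 14795488) (l 14744528))) (a (l 14510744) (l 14530560))) (b (a (l 14692736) (l 14719336)) (l 14468992))) (a (b (l 14130000) (c (l 13916848) (l 13815864))) (c (b (l 14407472) (l 14054976)) (l 14097888)))))) (a (l 13931136) (a (l 13806888) (b (c (b (l 13839576) (a (l 13788336) (l 13753640))) (b (l 13734616) (l 13676008))) (l 13704352))))),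 by decide +kernel⟩

def k11_pm_012_a : ∃ t, chk3 f_pm_012_a t 57 23 1 = true :=
  ⟨(a (b (b (a (c (c (l 14716336) (a (b (l 14734664) (l 14680712)) (l 14680368))) (c (a (l 14670544) (l 14670632)) (b (l 14672896) (l 14624904)))) (l 14652440)) (a (c (a (b (l 14370600) (l 14293768)) (b (c (c (l 14686136) (l 14629872)) (l 14614992)) (l 14205712))) (b (a (l 14431024) (l 14574096)) (l 14244336))) (a (c (b (l 14624416) (c (a (l 14431184) (l 14613224)) (l 14503992))) (b (l 14563072) (l 14493488))) (b (l 14615392) (c (l 14567024) (l 14496968)))))) (b (c (a (b (a (l 13937576) (l 14168528)) (a (l 13737528) (l 13803144))) (a (b (l 14056104) (l 13972760)) (b (a (l 14330440) (b (l 14415080) (l 14382384))) (l 13963040)))) (a (b (l 13917744) (l 13675416)) (b (a (l 14197952) (l 14405592)) (l 13960440)))) (b (a (a (l 13623520) (c (l 13663280) (l 13552336))) (a (c (l 13696104) (l 13587392)) (l 13809048))) (a (l 13595952) (c (a (l 13594376) (l 13600912)) (l 13504400)))))) (b (l 14532400) (b (b (a (a (c (c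 (l 14516816) (l 14461712)) (l 14430520)) (l 14519744)) (l 14490384)) (c (a (a (a (l 14171856) (b (c (l 14469664) (l 14444816)) (l 14310128))) (c (l 14483736) (l 14422800))) (l 14445376)) (a (a (l 14309808) (l 14386616)) (a (l 14400184) (l 14432872))))) (b (a (c (a (c (l 14147344) (l 14078424)) (c (l 14240048) (l 14236136))) (a (l 13933824) (l 14182304))) (c (a (c (c (l 14465968) (l 14413056)) (l 14395520)) (l 14435248)) (a (l 14353248) (l 14370264)))) (a (c (a (l 13741944) (l 13899760)) (l 13750224)) (c (a (c (l 14214664) (l 14200248)) (c (c (l 14291816) (l 14387824)) (l 14367752))) (a (l 14131024) (l 14318664)))))))), by decide +kernel⟩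

def k12_pm_012_a : ∃ t, chk3 f_pm_012_a t 29 2 1 = true :=
  ⟨(b (l 14694920) (a (a (a (b (l 14619752) (a (b (l 14529056) (b (l 14480616) (b (l 14456896) (b (l 14445168) (c (l 14412024) (l 14340944)))))) (l 14477264))) (l 14514232)) (l 14459776)) (l 14365024))), by decide +kernel⟩

def k13_pm_012_a : ∃ t, chk3 f_pm_012_a t 28 6 1 = true :=
  ⟨(a (b (l 13780176) (l 13740144)) (a (b (b (a (l 13604416) (b (a (l 13520024) (a (l 13476136) (b (b (l 13271368) (l 13440768)) (l 13455000)))) (l 13520088))) (l 13578104)) (l 13580432)) (a (b (b (b (b (a (b (c (l 13516928) (l 13401328)) (l 13393144)) (b (c (l 13660696) (l 13552208)) (c (l 13496560) (l 13379568)))) (l 13404616)) (l 13438448)) (l 13498280)) (l 13409448)) (b (b (b (b (b (c (a (l 13992360) (c (l 14188000) (l 14162784))) (c (l 13990808) (l 13905144))) (c (a (l 13630080) (l 13870544)) (l 13626184))) (a (b (c (l 13509032) (l 13391560)) (l 13418760)) (c (b (l 13613544) (l 13525096)) (l 13389472)))) (l 13447168)) (l 13498840)) (c (l 13588664)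 (l 13474512)))))), by decide +kernel⟩

def k14_pm_012_a : ∃ t, chk3 f_pm_012_a t 116 24 1 = true :=
  ⟨(b (b (b (a (c (a (b (a (l 14375648) (l 14403296)) (l 14222568)) (l 14388912)) (a (l 14282832) (l 14312112))) (l 14382536)) (c (a (a (c (l 14160256) (l 14124304)) (a (l 14207864) (b (l 14380552) (l 14253976)))) (l 14357608)) (a (a (l 14027248) (l 14245952)) (a (l 14284696) (l 14327760))))) (b (c (a (a (l 13834576) (c (l 14131856) (l 14085544))) (c (a (a (l 14204408) (l 14329816)) (l 14364272)) (a (l 14281904) (l 14309912)))) (a (c (l 13887184) (l 13818736)) (a (l 14211048) (l 14265352)))) (a (c (a (l 13608040) (l 13805992)) (l 13525568)) (c (a (c (l 14108208) (l 14052344)) (a (l 14174688) (l 14147208))) (a (l 13921768) (l 14183344)))))) (b (a (b (c (a (l 13542744) (l 13612384)) (a (l 13424368) (l 13498008))) (l 13479040)) (c (a (b (l 13775544) (l 13631368)) (b (a (l 13947696) (l 14105840)) (l 13768584))) (b (a (l 13669280) (l 13900112)) (l 13429528)))) (a (l 13487376) (a (l 13527384)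 (b (c (l 13656216) (l 13541856)) (l 13560000)))))), by decide +kernel⟩

def k15_pm_012_a : ∃ t, chk3 f_pm_012_a t 117 24 1 = true :=
  ⟨(b (a (a (b (l 14359232) (b (l 14351944) (c (c (l 14352040) (l 14295432)) (l 14247992)))) (l 14341792)) (l 14322728)) (b (b (c (a (a (a (l 14163144) (l 14278664)) (a (a (l 14292992) (l 14295288)) (l 14322968))) (l 14305824)) (a (a (l 14156704) (l 14231064)) (a (a (l 14248192) (l 14271664)) (l 14261976)))) (c (b (a (a (l 14086168) (l 14184008)) (l 14305184)) (a (a (l 13931176) (l 14146216)) (a (a (l 14224328) (l 14309560)) (l 14299056)))) (a (a (l 13883728) (l 14094672)) (a (l 14214648) (a (l 14231552) (l 14254168)))))) (a (b (c (a (l 13771392) (c (l 14059296) (l 13948624))) (a (l 13662352) (l 13872512))) (c (a (l 13683720) (l 13781968)) (l 13633416))) (c (c (a (l 14038272) (b (a (l 14287976) (l 14312264)) (l 14126592))) (a (b (l 14145920) (l 13942944)) (b (l 14254696) (l 14136544)))) (a (b (l 14078312) (l 13866344)) (b (l 14198848) (l 14064608))))))),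 by decide +kernel⟩

def k16_pm_012_a : ∃ t, chk3 f_pm_012_a t 58 25 1 = true :=
  ⟨(b (a (l 13525568) (a (a (l 13590624) (b (b (c (l 13712736) (l 13598672)) (l 13626240)) (l 13619456))) (b (b (c (a (l 13798616) (a (l 13922864) (l 14050760))) (a (l 13688968) (l 13865176))) (c (a (l 13742480) (l 13819920)) (a (l 13628552) (l 13710408)))) (a (l 13654784) (a (l 13684528) (b (c (l 13780344) (l 13667544)) (l 13700512))))))) (c (a (l 13602584) (l 13682328)) (l 13532888))), by decide +kernel⟩

def k17_pm_012_a : ∃ t, chk3 f_pm_012_a t 58 13 1 = true :=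
  ⟨(c (c (c (a (l 13658464) (c (l 13728224) (l 13706392))) (a (l 13628608) (c (l 13682480) (l 13670552)))) (c (a (l 13597056) (l 13640288)) (l 13583648))) (l 13514008)), by decide +kernel⟩

def k18_pm_012_a : ∃ t, chk3 f_pm_012_a t 59 12 1 = true :=
  ⟨(b (a (a (b (l 14297064) (b (l 14283216) (a (c (b (l 14289504) (c (a (l 14277000) (l 14300192)) (c (l 14253024) (l 14235864)))) (b (a (l 14215448) (l 14236728)) (l 14183784))) (c (l 14278504) (a (b (l 14230232) (l 14199840)) (l 14221544)))))) (l 14262232)) (l 14223048)) (b (a (c (c (a (b (a (l 14134000) (b (l 13981432) (l 14138544))) (l 13925512)) (a (b (l 14228592) (l 14026688)) (l 14225168))) (a (b (a (b (l 14129008) (l 13945880)) (b (c (l 14241096) (l 14222952)) (l 14123544))) (c (l 13895560) (l 13870976))) (a (b (c (l 14202216) (l 14183608)) (b (l 14120272) (l 13960360))) (l 13999680)))) (a (a (b (b (l 14053840) (l 13869384)) (b (l 13735528) (l 13688632))) (b (b (c (l 14193112) (l 14152880)) (l 14046216)) (b (l 13878552) (l 13763584))))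 (a (b (c (b (l 14212240) (l 14179920)) (b (l 14168376) (l 14138392))) (b (l 14041760) (l 13881464))) (c (l 14151136) (l 13925752))))) (a (c (c (l 14219760) (l 14159976)) (a (l 14124840) (l 14119312))) (l 14184616))) (a (c (a (l 13782816) (c (l 13965552) (l 13921800))) (a (l 13666392) (b (a (l 13646952) (l 13888936)) (l 13742160)))) (c (a (c (a (l 14123040) (l 14202464)) (b (a (l 13926760) (l 14174760)) (l 13987064))) (c (l 14200328) (a (l 14159152) (l 14162784)))) (a (b (a (b (l 14031472) (l 13918840)) (l 14114720)) (l 13917992)) (a (l 13968584) (l 14098288))))))), by decide +kernel⟩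

def k19_pm_012_a : ∃ t, chk3 f_pm_012_a t 59 13 1 = true :=
  ⟨(c (b (c (a (b (l 13793904) (l 13736024)) (b (l 14012232) (l 13851184))) (a (b (l 13733784) (l 13664168)) (b (a (l 13861992) (l 14012456)) (a (l 13750520) (l 13849304))))) (c (a (c (l 13699240) (b (l 13663448) (l 13601624))) (b (a (l 13738544) (l 13791952)) (a (l 13646616) (l 13674408)))) (c (a (l 13588176) (b (a (l 13675104) (l 13745584)) (c (l 13608416) (l 13546504)))) (a (l 13548008) (b (l 13652968) (l 13520192)))))) (a (l 13575424) (a (l 13439128) (b (b (l 13936440) (l 13751176)) (b (l 13613912) (l 13471400)))))), by decide +kernel⟩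

def k20_pm_012_a : ∃ t, chk3 f_pm_012_a t 14 7 1 = true :=
  ⟨(b (b (b (a (l 4) (a (l 4) (c (c (a (a (l 4) (c (l 13651696) (l 13586000))) (c (l 13594480) (a (l 13593752) (l 13597608)))) (c (a (l 13484832) (c (a (l 13489472) (l 13535192)) (l 13464640))) (l 13451264))) (l 13378760)))) (l 4)) (l 4)) (l 4)), by decide +kernel⟩

def k21_pm_012_a : ∃ t, chk3 f_pm_012_a t 15 2 1 = true :=
  ⟨(a (b (a (l 14439072) (l 14231328)) (c (l 14100984) (l 14057152))) (a (b (c (l 14023768) (l 14018232)) (c (l 13720280) (l 13731744))) (b (c (l 13869072) (a (l 13853104) (l 13777312))) (c (l 13579072) (a (l 13554736) (l 13497400)))))), by decide +kernel⟩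

def k22_pm_012_a : ∃ t, chk3 f_pm_012_a t 30 6 1 = true :=
  ⟨(b (a (c (a (c (a (l 14194568) (l 14157960)) (l 14128728)) (l 14044936)) (l 14008424)) (l 13814760)) (a (c (c (a (a (b (b (a (l 14138480) (l 14146544)) (l 13964768)) (b (l 13816648) (l 13693384))) (b (b (l 14097040) (l 14018520)) (b (l 13826536) (l 13705064)))) (b (b (l 13990264) (a (l 14016248) (l 13944968))) (b (a (l 13837968) (l 13882136)) (a (l 13697040) (l 13698432))))) (b (b (a (a (l 14113920) (l 14064496)) (l 13983664)) (a (a (l 13915576) (l 13955352)) (a (l 13997712) (l 13945728)))) (b (a (a (l 13594936) (l 13792808)) (a (l 13821800) (l 13883792))) (a (c (a (l 13663976) (l 13704216)) (l 13618872)) (a (c (l 13711224) (l 13662896)) (l 13700600)))))) (b (a (b (a (l 14043504) (l 13994304)) (a (l 13822264) (l 13873536))) (b (l 13913280) (a (l 13923832) (l 13872144)))) (a (b (l 13599104) (l 13542904)) (b (a (l 13722992) (l 13801376)) (a (l 13566840) (l 13591800)))))) (b (c (c (l 13770256) (l 13807736)) (l 13748280)) (b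 (a (c (c (a (b (l 13862296) (l 13845960)) (l 13780088)) (a (a (l 13892400) (l 13865928)) (l 13821848))) (a (b (l 13815472) (l 13794272)) (l 13759384))) (l 13709048)) (a (c (a (c (l 13732488) (l 13744432)) (a (c (l 13754848) (l 13788104)) (c (l 13763480) (l 13808816)))) (a (l 13664112) (b (l 13752872) (l 13678792)))) (c (a (a (c (l 13737000) (l 13790328)) (l 13734064)) (l 13691488)) (a (b (l 13724736) (l 13728360)) (l 13694920)))))))), by decide +kernel⟩

def k23_pm_012_a : ∃ t, chk3 f_pm_012_a t 30 28 1 = true :=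
  ⟨(c (a (b (c (a (l 13575072) (a (l 13572408) (l 13596456))) (a (c (a (c (l 13579008) (l 13502264)) (l 13573520)) (l 13471160)) (a (c (l 13595088) (l 13537744)) (c (l 13614104) (l 13588496))))) (a (a (l 4) (c (l 13529976) (c (l 231082398023) (l 13437384)))) (c (a (l 13513296) (l 13522368)) (c (l 13629160) (c (a (l 13498920) (l 13546936)) (a (l 13430632) (l 13485160))))))) (a (c (b (a (l 13608264) (l 13585888)) (b (l 13582304) (l 13561512))) (c (a (b (l 13621640) (l 13556840)) (b (l 13597080) (l 13609896))) (c (l 13653544) (a (b (l 13614368) (l 13557808)) (l 13638160))))) (a (b (a (l 13668376) (c (l 13681608) (l 13708336))) (c (l 13510416) (b (l 13627048) (l 13622960)))) (b (b (l 13699760) (l 13486840)) (b (l 13650656) (l 13634648)))))) (a (a (l 13493360) (a (l 13453136) (b (l 13476760) (l 13389768)))) (b (a (a (l 13512984) (b (l 13603752) (l 13458752))) (a (a (l 13615160) (l 13552296)) (b (l 13702864) (c (l 13722400) (l 13668168))))) (a (c (a (l 13469792) (b (l 13514936) (l 13530840)))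 (l 13537496)) (c (a (b (l 13573896) (c (l 13615328) (l 13558000))) (a (a (l 13620944) (l 13636872)) (l 13661664))) (l 13502456)))))), by decide +kernel⟩

def k24_pm_012_a : ∃ t, chk3 f_pm_012_a t 30 29 1 = true :=
  ⟨(a (a (l 4) (a (l 4) (c (c (l 13577656) (c (l 13767120) (c (l 13769536) (l 13693832)))) (l 13628032)))) (c (c (a (l 13714584) (a (l 13686808) (b (l 13683064) (l 13725864)))) (a (c (l 13720216) (c (l 13736152) (a (l 13735232) (l 13730224)))) (a (l 13687216) (b (b (l 13642080) (l 13629600)) (l 13718136))))) (c (c (a (c (a (l 13679560) (b (l 13571200) (l 4))) (l 13652432)) (a (c (l 13702880) (c (l 13678248) (l 13644920))) (b (a (l 13637512) (l 13664008)) (l 13728160)))) (a (l 13629888) (a (l 13618176) (b (b (l 13602304) (l 13584184)) (l 13570176))))) (a (l 13589376) (l 13679792))))), by decide +kernel⟩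

def k25_pm_012_a : ∃ t, chk3 f_pm_012_a t 30 15 1 = true :=
  ⟨(l 4), by decide +kernel⟩

def k26_pm_012_a : ∃ t, chk3 f_pm_012_a t 31 6 1 = true :=
  ⟨(a (c (b (l 13571040) (l 13553360)) (l 13599192)) (c (b (l 13465696) (l 13464824)) (a (l 13447184) (c (l 13410856) (l 13397336))))), by decide +kernel⟩

def k27_pm_012_a : ∃ t, chk3 f_pm_012_a t 62 14 1 = true :=
  ⟨(a (a (c (b (c (c (l 13627080) (l 13656672)) (c (l 13687632) (l 13677944))) (c (l 13706288) (l 13504296))) (c (c (b (a (l 13685504) (l 13512320)) (l 13728432)) (b (c (a (b (l 13609632) (l 13699048)) (l 13710264)) (a (l 13716168) (l 13569184))) (c (c (l 13729376) (a (l 13707888) (l 13712256))) (b (l 13627904) (l 13656144))))) (b (l 13674240) (l 13650112)))) (b (b (l 13585440) (c (c (a (l 13618432) (l 13591360)) (l 13663976)) (c (a (b (l 13706360) (l 13743744)) (l 13703752)) (l 13663544)))) (b (b (c (a (l 13675464) (l 13535592)) (c (a (l 13720512) (l 13759024)) (l 13728400))) (c (a (l 13677168) (l 13683856)) (c (a (a (l 13686744)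 (l 13704184)) (l 13721904)) (l 13590288)))) (c (c (l 13480752) (l 13734904)) (c (c (l 13746832) (c (l 13756144) (c (a (l 13747832) (l 13745872)) (l 13725232)))) (l 13689080)))))) (b (c (l 13542920) (l 13605032)) (c (c (a (c (l 13682520) (a (l 13711704) (l 13681136))) (l 13647416)) (a (b (l 13689248) (b (l 13742848) (l 13723008))) (c (l 13644384) (l 13691592)))) (c (c (a (b (l 13738800) (l 13775096)) (l 13724488)) (a (b (c (l 13757832) (l 13753752)) (c (l 13663416) (b (l 13783496) (l 13743656)))) (l 13754240))) (a (b (a (l 13730104) (c (l 13575624) (l 13695976))) (b (l 13747656) (a (l 13698576) (l 13729856)))) (c (c (l 13546536) (l 13742576)) (l 13723312))))))), by decide +kernel⟩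

def k28_pm_012_a : ∃ t, chk3 f_pm_012_a t 62 15 1 = true :=
  ⟨(b (c (a (c (l 283159583687) (l 326109227703)) (c (a (b (a (l 13814296) (l 13823408)) (l 13995080)) (l 13919312)) (a (b (l 13826000) (l 13971640)) (c (a (l 13933656) (l 13968456)) (l 327720019223))))) (c (a (c (l 13739096) (c (a (a (l 4) (l 13891120)) (l 13884704)) (a (l 13847808) (c (l 13685088) (l 13849160))))) (a (c (l 13850312) (c (l 245041742711) (a (l 13878800) (l 13947856)))) (b (a (l 13660616) (b (l 13841528) (l 13889696))) (l 14036704)))) (a (l 13814344) (c (a (c (a (l 13842704) (c (b (l 13830544) (l 13977592)) (l 13916624))) (l 13905888)) (c (a (c (l 13959504) (b (l 13781064) (l 14009328))) (a (l 13968576) (l 13909872))) (b (a (l 13802328) (b (l 13845384) (l 13877560))) (l 14010864)))) (b (a (l 13784992) (l 13861432)) (l 13953200)))))) (l 4)), by decide +kernel⟩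

def k29_pm_012_a : ∃ t, chk3 f_pm_012_a t 126 7 1 = true :=
  ⟨(c (b (b (l 13480672) (a (c (l 13627952) (c (l 13638064) (l 13651704))) (l 13667176))) (c (a (b (l 13833672) (l 14582848)) (b (l 13859040) (b (l 14484400) (l 14825664)))) (a (b (c (l 14014152) (a (l 13848392) (l 14037240))) (l 14561272)) (b (l 14080544) (l 14547160))))) (b (b (l 13498864) (a (a (c (l 13701432) (l 13718768)) (l 13682832)) (l 13691336))) (a (c (b (b (a (b (l 13866784) (l 13957032)) (l 13947112)) (c (l 14141640) (l 14164856))) (l 14549536)) (c (c (b (b (a (l 13882904) (l 13990928)) (l 14188464)) (l 14556736)) (b (b (a (b (l 13894120) (a (l 13943336) (l 13994536))) (l 13990216)) (c (a (l 14135768) (l 14216568)) (a (l 14119608) (a (l 14155488) (l 14218384))))) (c (l 370133998423) (l 366375881783)))) (b (b (l 13865112) (l 14162848)) (l 14528672)))) (a (b (c (c (l 14080024) (l 14109992)) (b (l 14013488) (c (a (b (l 14201728) (l 14261800)) (l 14280912)) (a (l 14215840) (l 14275976))))) (b (c (l 14370136) (c (l 14488480)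 (a (l 14466728) (l 14468728)))) (l 4))) (c (c (l 14370624) (b (l 14130312) (l 405567741991))) (c (b (l 14165792) (b (l 14575568) (l 14808336))) (b (l 13979968) (c (c (a (l 14675272) (l 14750504)) (l 385166640743)) (l 14732896))))))))), by decide +kernel⟩

def k30_pm_012_a : ∃ t, chk3 f_pm_012_a t 127 7 1 = true :=
  ⟨(b (c (b (l 13542200) (l 13833328)) (b (c (l 13480824) (l 13472408)) (c (l 13780680) (l 13779040)))) (c (b (l 14284968) (a (c (l 14758544) (l 14728840)) (l 14885632))) (a (b (l 14112720) (c (c (l 14719024) (a (l 14711016) (l 14740672))) (c (a (l 14618152) (c (l 14753536) (l 14769496))) (c (c (l 14588576) (a (b (a (l 14604760) (l 14621632)) (l 14871608)) (l 14792824))) (a (l 14761176) (b (l 14639528) (c (c (l 14922304) (l 14941168)) (l 14938360)))))))) (b (l 14299520) (c (l 14841152) (a (c (l 14774112) (c (l 14810104) (b (l 14676008) (c (a (l 14731592) (l 14976856)) (l 14968848))))) (l 14859712))))))), by decide +kernel⟩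

theorem s31_pm_012_a : ∃ t, chk3 f_pm_012_a t 63 7 1 = true := ex3_a k29_pm_012_a k30_pm_012_a

theorem s32_pm_012_a : ∃ t, chk3 f_pm_012_a t 62 7 1 = true := ex3_b k27_pm_012_a k28_pm_012_a

theorem s33_pm_012_a : ∃ t, chk3 f_pm_012_a t 31 7 1 = true := ex3_a s32_pm_012_a s31_pm_012_a

theorem s34_pm_012_a : ∃ t, chk3 f_pm_012_a t 31 3 1 = true := ex3_b k26_pm_012_a s33_pm_012_a

theorem s35_pm_012_a : ∃ t, chk3 f_pm_012_a t 30 14 1 = true := ex3_b k23_pm_012_a k24_pm_012_a

theorem s36_pm_012_a : ∃ t, chk3 f_pm_012_a t 30 7 1 = true := ex3_b s35_pm_012_a k25_pm_012_a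

theorem s37_pm_012_a : ∃ t, chk3 f_pm_012_a t 30 3 1 = true := ex3_b k22_pm_012_a s36_pm_012_a

theorem s38_pm_012_a : ∃ t, chk3 f_pm_012_a t 15 3 1 = true := ex3_a s37_pm_012_a s34_pm_012_a

theorem s39_pm_012_a : ∃ t, chk3 f_pm_012_a t 15 1 1 = true := ex3_b k21_pm_012_a s38_pm_012_a

theorem s40_pm_012_a : ∃ t, chk3 f_pm_012_a t 59 6 1 = true := ex3_b k18_pm_012_a k19_pm_012_a

theorem s41_pm_012_a : ∃ t, chk3 f_pm_012_a t 58 24 1 = true := ex3_a k14_pm_012_a k15_pm_012_a

theorem s42_pm_012_a : ∃ t, chk3 f_pm_012_a t 58 12 1 = true := ex3_b s41_pm_012_a k16_pm_012_a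

theorem s43_pm_012_a : ∃ t, chk3 f_pm_012_a t 58 6 1 = true := ex3_b s42_pm_012_a k17_pm_012_a

theorem s44_pm_012_a : ∃ t, chk3 f_pm_012_a t 29 6 1 = true := ex3_a s43_pm_012_a s40_pm_012_a

theorem s45_pm_012_a : ∃ t, chk3 f_pm_012_a t 14 6 1 = true := ex3_a k13_pm_012_a s44_pm_012_a

theorem s46_pm_012_a : ∃ t, chk3 f_pm_012_a t 14 3 1 = true := ex3_b s45_pm_012_a k20_pm_012_a

theorem s47_pm_012_a : ∃ t, chk3 f_pm_012_a t 28 23 1 = true := ex3_a k10_pm_012_a k11_pm_012_a

theorem s48_pm_012_a : ∃ t, chk3 f_pm_012_a t 28 11 1 = true := ex3_b k9_pm_012_a s47_pm_012_a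

theorem s49_pm_012_a : ∃ t, chk3 f_pm_012_a t 28 5 1 = true := ex3_b k8_pm_012_a s48_pm_012_a

theorem s50_pm_012_a : ∃ t, chk3 f_pm_012_a t 28 2 1 = true := ex3_b k7_pm_012_a s49_pm_012_a

theorem s51_pm_012_a : ∃ t, chk3 f_pm_012_a t 14 2 1 = true := ex3_a s50_pm_012_a k12_pm_012_a

theorem s52_pm_012_a : ∃ t, chk3 f_pm_012_a t 14 1 1 = true := ex3_b s51_pm_012_a s46_pm_012_a

theorem s53_pm_012_a : ∃ t, chk3 f_pm_012_a t 7 1 1 = true := ex3_a s52_pm_012_a s39_pm_012_a

theorem s54_pm_012_a : ∃ t, chk3 f_pm_012_a t 27 5 1 = true := ex3_b k4_pm_012_a k5_pm_012_a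

theorem s55_pm_012_a : ∃ t, chk3 f_pm_012_a t 13 5 1 = true := ex3_a k3_pm_012_a s54_pm_012_a

theorem s56_pm_012_a : ∃ t, chk3 f_pm_012_a t 6 5 1 = true := ex3_a k2_pm_012_a s55_pm_012_a

theorem s57_pm_012_a : ∃ t, chk3 f_pm_012_a t 6 2 1 = true := ex3_b k1_pm_012_a s56_pm_012_a

theorem s58_pm_012_a : ∃ t, chk3 f_pm_012_a t 6 1 1 = true := ex3_b s57_pm_012_a k6_pm_012_a

theorem s59_pm_012_a : ∃ t, chk3 f_pm_012_a t 3 1 1 = true := ex3_a s58_pm_012_a s53_pm_012_a

theorem s60_pm_012_a : ∃ t, chk3 f_pm_012_a t 1 1 1 = true := ex3_a k0_pm_012_a s59_pm_012_a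

theorem c_pm_012_a : CertNX 0 536870912 0 420477299 1046898278 26843546 3 false true false .pnp 0 1 2
    ndN3q0 ndN1q2a pcN1 Cut.none Ext.none :=
  certNX2 (fam := false) (s1 := true) (s2 := false) (a := 0) (b := 1) (c := 2) (cn := .pnp) (n1 := ndN3q0) (n2 := ndN1q2a) (pc := pcN1) (cut := Cut.none) (xt := Ext.none) (P1 := 0) (W1 := 536870912) (P2 := 0) (W2 := 420477299) (P3 := 1046898278) (W3 := 26843546) (N0 := 3)
    rfl (fun _ => rfl) s60_pm_012_a

noncomputable def f_pm_012_b : ℕ → ℕ → ℕ → ℕ → Bool := onCell 0 536870912 536870912 536870912 1046898278 26843546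
    (rowNX 3 1 false true false .pnp 0 1 2 (qsf 0 536870912 1239849684 370763052 1) ndN3q0 ndN1q2b pcN1 Cut.none Ext.none)

def k0_pm_012_b : ∃ t, chk3 f_pm_012_b t 1 1 1 = true :=
  ⟨(b (a (l 1) (b (l 1) (a (l 1) (b (a (l 1) (l 631930946743)) (a (l 604013722231) (l 16777080)))))) (a (a (l 1) (b (l 1) (b (a (l 1) (b (a (l 1) (l 15346480)) (l 488044990295))) (a (b (a (l 1) (l 569648953143)) (b (a (l 1) (l 14233000)) (c (l 590585778327) (a (l 564816208519) (l 13928360))))) (b (a (l 14472744) (l 14303688)) (a (b (l 13979936) (l 13700888)) (b (l 13795136) (l 13512976)))))))) (b (a (b (a (l 1) (b (l 16714192) (l 16611488))) (b (a (l 465499541415) (l 16288168)) (b (l 16036040) (l 15709792)))) (a (b (l 16689328) (b (l 16252264) (l 15761808))) (b (b (l 16776872) (b (l 16655040) (l 16438056))) (a (l 15892208) (b (b (c (l 16205096) (l 16213016)) (a (l 16122704) (c (l 15966200) (a (l 16055112) (l 16015488))))) (b (a (l 15890656) (c (l 15823728) (a (l 15867368) (b (l 15889024) (l 15724128))))) (l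 15490560))))))) (a (b (b (l 15079176) (l 14633752)) (b (a (l 14162936) (l 13998720)) (b (a (l 13633600) (l 13445336)) (a (l 13347264) (l 13154272))))) (b (b (l 14930560) (l 14377000)) (b (l 13804720) (b (l 13223328) (l 12927064)))))))), by decide +kernel⟩

theorem c_pm_012_b : CertNX 0 536870912 1239849684 370763052 1046898278 26843546 3 false true false .pnp 0 1 2
    ndN3q0 ndN1q2b pcN1 Cut.none Ext.none :=
  certNX1 (fam := false) (s1 := true) (s2 := false) (a := 0) (b := 1) (c := 2) (cn := .pnp) (n1 := ndN3q0) (n2 := ndN1q2b) (pc := pcN1) (cut := Cut.none) (xt := Ext.none) (P1 := 0) (W1 := 536870912) (P2 := 1239849684) (W2 := 370763052) (P3 := 1046898278) (W3 := 26843546) (N0 := 3)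
    rfl (fun _ => rfl) k0_pm_012_b

noncomputable def f_pm_022_a : ℕ → ℕ → ℕ → ℕ → Bool := onCell 1073741824 536870912 0 420477299 1046898278 26843546
    (rowNX 3 2 false true false .pp 0 2 2 (qsf 0 536870912 0 420477299 2) ndN3q0 ndN1q2a pcN2 Cut.none Ext.none)

def k0_pm_022_a : ∃ t, chk3 f_pm_022_a t 4 2 1 = true :=
  ⟨(a (a (c (b (l 14049416) (l 13845952)) (c (a (b (l 13828504) (l 13614856)) (a (l 13967152) (b (l 14208168) (l 14009208)))) (a (b (c (l 13793400) (l 13764544)) (c (l 13577928) (a (l 13467136) (l 13634760)))) (b (l 14092088) (l 13889144))))) (c (b (a (l 14487184) (c (b (l 14904128) (l 14823768)) (a (b (l 14764896) (l 14666264)) (b (l 14988320) (l 14925320))))) (a (a (l 14244656) (b (l 14410424) (l 14465424))) (a (c (l 14739952) (b (l 14663136) (l 14788720))) (c (l 15054872) (l 14922880))))) (b (a (c (l 14439488) (l 14389664)) (l 14781648)) (a (c (b (l 14286904) (a (l 14175632) (l 14429272))) (l 14265320)) (l 14803832))))) (a (b (a (c (c (a (l 15293216) (l 15529608))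 (l 15380864)) (l 15343128)) (b (c (a (l 15761344) (l 15993616)) (l 15875552)) (c (a (l 15705856) (l 15918168)) (l 15801368)))) (c (a (c (b (l 15178072) (a (l 15418448) (c (l 15689496) (l 15647928)))) (b (l 15371016) (l 15344728))) (a (a (c (b (l 15759512) (l 15777560)) (l 15718600)) (b (l 15808816) (l 15808152))) (b (l 15881768) (l 15868336)))) (a (b (l 15332040) (l 15433832)) (b (l 15783136) (l 15794368))))) (b (a (c (l 16051240) (l 16056848)) (c (l 16169608) (l 16200568))) (c (a (b (l 15991224) (l 15990112)) (b (l 16184128) (a (l 16156800) (l 16283616)))) (a (l 15971704) (b (l 16167424) (l 16153560))))))), by decide +kernel⟩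

def k1_pm_022_a : ∃ t, chk3 f_pm_022_a t 5 2 1 = true :=
  ⟨(a (a (a (b (b (c (l 16326056) (l 16329248)) (c (l 16163792) (l 16328112))) (b (c (a (l 16339856) (l 16238216)) (a (l 16315592) (c (l 16338240) (l 16346432)))) (c (a (b (l 16374864) (l 16395104)) (l 1416297857175)) (a (c (l 16284216) (l 16295104)) (b (c (l 16316752) (l 16219000)) (l 1377106197335)))))) (b (a (c (b (a (l 16217592) (l 16081040)) (l 16138664)) (b (l 16071032) (a (l 16224864) (l 16095704)))) (c (l 15856512) (b (l 15835984) (l 15851328)))) (b (c (l 910027808071) (a (a (b (l 16215856) (l 16165768)) (l 16055616)) (l 15827872))) (a (c (l 16178984) (l 1417371142503)) (l 1))))) (b (l 1) (l 1))) (l 1)), by decide +kernel⟩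

def k2_pm_022_a : ∃ t, chk3 f_pm_022_a t 8 6 1 = true :=
  ⟨(a (c (b (a (l 13633376) (l 13990640)) (a (l 13704176) (l 14227920))) (a (c (b (l 13554736) (l 13627808)) (b (c (l 13517680) (l 13484760)) (c (a (l 13460952) (a (l 13618144) (l 13746208))) (a (l 13370456) (l 13668816))))) (c (b (a (l 13808024) (c (l 14056496) (l 14040032))) (a (l 14011816) (c (l 14363448) (l 14350368)))) (b (a (l 13761064) (l 13985592)) (a (l 13927040) (l 14298784)))))) (c (a (b (a (l 14375928) (l 14687048)) (a (l 14715816) (c (l 15012640) (c (l 15023712) (l 15037440))))) (c (b (l 15043504) (b (l 15093784) (l 15284768))) (b (a (l 15000112) (c (l 15322704) (l 15262976))) (a (c (l 15308616) (b (l 15233504) (l 15342416))) (b (l 15450216) (l 15332816)))))) (a (b (a (c (l 14231608) (l 14275736)) (l 14638880)) (c (c (a (l 14709072) (l 14859448)) (l 14811776)) (l 14784200))) (b (l 15080680) (l 15235832))))), by decide +kernel⟩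

def k3_pm_022_a : ∃ t, chk3 f_pm_022_a t 16 7 1 = true :=
  ⟨(c (b (a (b (l 13922016) (l 14302576)) (b (l 14571344) (a (l 14786000) (l 14895344)))) (a (b (l 14669656) (a (l 14925016) (l 15172416))) (b (a (l 14955624) (l 15352256)) (c (l 15571968) (l 15456256))))) (b (a (c (b (l 13851880) (l 14243096)) (c (a (l 13843520) (b (l 13989936) (l 14392328))) (a (b (c (l 13624568) (l 13608312)) (l 13825952)) (l 14173392)))) (c (c (b (l 14550336) (l 14761344)) (a (l 14411192) (b (l 14711528) (a (l 15006576) (l 15127336))))) (a (b (l 14329368) (l 14686496)) (b (l 14663928) (l 15014168))))) (c (a (b (l 14707624) (a (l 15052856) (l 15289048))) (a (b (a (l 15096752) (l 15207096)) (l 15412424)) (c (l 15366416) (b (l 15335768) (c (l 15669992) (l 15652880)))))) (a (a (c (b (l 14517632) (l 15033576)) (b (c (l 14506232) (l 14493824)) (c (a (l 14960080) (l 15084280)) (a (l 14806312) (l 15099768))))) (c (b (a (l 14781592) (c (l 14953624) (l 14950400))) (a (l 15234576) (l 15247128))) (b (l 14845816) (l 15166736))))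 (a (b (c (c (l 14914832) (l 15126856)) (l 15114792)) (c (l 15282088) (l 15450240))) (l 15472848)))))), by decide +kernel⟩

def k4_pm_022_a : ∃ t, chk3 f_pm_022_a t 17 7 2 = true :=
  ⟨(b (a (a (b (c (l 15023352) (l 15026552)) (l 15052568)) (b (c (l 15242656) (c (l 15258472) (l 15275552))) (c (l 15434792) (c (l 15453576) (l 15473296))))) (c (b (a (l 15419024) (l 15598056)) (a (l 15608768) (l 15744880))) (c (a (b (l 15455896) (l 15648112)) (b (c (l 15621560) (l 15588280)) (c (l 15812336) (l 15779176)))) (a (b (l 15427440) (c (l 15634472) (l 15591840))) (b (l 15539240) (l 15730616)))))) (a (c (b (l 15493992) (a (l 15803552) (b (l 15887856) (l 16056688)))) (b (a (l 15526472) (c (l 15698496) (l 15616360))) (a (l 15737608) (c (l 15865752) (a (l 15980880) (c (l 16075064) (l 16059400))))))) (c (b (a (l 15705928) (a (l 15891600) (c (l 15985064) (l 15993544)))) (a (b (l 15931944) (a (l 16099680) (b (l 16262144) (l 16265992)))) (b (a (l 16087528) (c (l 16275424) (l 16231640))) (a (b (l 16297296)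 (l 16349304)) (c (l 16405720) (b (l 16425112) (l 16508920))))))) (b (c (a (l 15892216) (a (c (l 16033984) (l 15998296)) (c (l 15974680) (l 15889056)))) (a (c (l 15649264) (l 15837912)) (a (l 15938816) (l 16008984)))) (a (c (b (l 15878288) (a (l 16231176) (c (l 16341560) (l 16157208)))) (c (a (b (l 16071488) (l 16192544)) (b (l 16120824) (a (l 16277632) (l 16259312)))) (a (l 15891264) (b (l 16072856) (l 16243440))))) (c (a (b (c (l 16266960) (l 16204784)) (b (c (l 16363400) (l 16322992)) (c (a (l 16473464) (l 16486256)) (l 16324880)))) (c (b (l 16173808) (c (b (l 16455920) (l 16540512)) (l 16436720))) (b (b (l 16231560) (l 16257024)) (a (c (l 16438712) (l 16342440)) (l 16349768))))) (b (a (l 16054888) (l 16243176)) (a (c (a (l 16224088) (l 16277144)) (l 16308488)) (l 16319728))))))))), by decide +kernel⟩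

def k5_pm_022_a : ∃ t, chk3 f_pm_022_a t 17 7 3 = true :=
  ⟨(b (a (c (b (a (c (l 14783792) (l 14991152)) (l 15066856)) (c (a (l 15292472) (l 15444720)) (l 15330000))) (b (l 15066312) (l 15309064))) (b (l 15435672) (l 15630056))) (b (a (c (c (a (l 15376144) (c (l 15700528) (l 15664208))) (l 15581376)) (l 15563584)) (c (a (l 15813696) (l 15962480)) (l 15875656))) (a (c (c (a (c (l 15854048) (a (l 15810456) (l 15876280))) (c (a (l 15863360) (l 16010440)) (l 15961840))) (a (l 15804744) (l 15956368))) (l 15865880)) (b (c (a (l 16029488) (l 15999608)) (l 16012184)) (a (c (l 16109536) (l 16183592)) (b (c (a (l 16266880) (l 16328408)) (l 16188904)) (c (a (l 16338024) (l 16367408)) (a (l 16340608) (c (l 16377896) (l 16349984)))))))))), by decide +kernel⟩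

def k6_pm_022_a : ∃ t, chk3 f_pm_022_a t 9 6 1 = true :=
  ⟨(a (c (a (b (c (a (b (l 15546576) (l 15604504)) (l 15524800)) (a (l 15501808) (l 15659520))) (c (c (l 15518128) (a (l 15668920) (c (l 15794904) (l 15746472)))) (a (l 15594992) (l 15726280)))) (c (a (b (c (l 15864720) (l 15800808)) (c (a (l 15919880) (l 15945768)) (l 15869096))) (b (l 15906112) (b (l 15959720) (a (l 15891576) (l 16053920))))) (b (l 15838728) (b (l 15883888) (l 15728504))))) (a (b (l 15544976) (l 15628328)) (b (l 15816992) (a (l 15835792) (l 15775976))))) (a (b (c (a (l 15987488) (b (l 16063736) (l 16110544))) (a (l 15962768) (l 16055504))) (c (b (a (l 16058528) (c (l 16166928) (l 16103408))) (a (c (l 16123648) (l 16017384)) (a (l 16171672) (l 16208904)))) (b (c (a (l 16020720) (l 16083648)) (l 15957752)) (a (c (l 15996592) (l 16063952)) (c (a (l 16149632) (l 16194856)) (a (b (l 16120952) (l 16147984)) (b (l 16175368) (l 16194632)))))))) (b (b (c (a (l 16184368) (l 16328520)) (c (l 16201808) (l 16232288))) (c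 (a (l 16094784) (l 16354208)) (a (c (l 16196248) (l 16203672)) (c (l 16342776) (a (l 16305496) (l 16364432)))))) (c (a (b (l 16188024) (l 1239130506743)) (l 1248257619591)) (b (a (c (l 885869224487) (b (l 16173152) (l 925060801639))) (a (l 1295502010887) (l 1))) (a (b (l 1278858823735) (l 1)) (l 1))))))), by decide +kernel⟩

def k7_pm_022_a : ∃ t, chk3 f_pm_022_a t 36 14 1 = true :=
  ⟨(c (c (a (b (c (l 15772672) (l 15686184)) (c (l 15976744) (c (l 15779664) (a (l 15937928) (l 15977256))))) (b (c (b (l 15902264) (l 15877792)) (a (c (l 15876096) (l 15814248)) (l 15703752))) (c (a (b (l 16063288) (l 16198240)) (b (l 16107872) (c (l 16289688) (l 16261344)))) (a (c (l 16072776) (l 15937408)) (c (b (l 16063480) (l 16191304)) (l 15983608)))))) (b (a (c (l 15704664) (l 15680400)) (l 15824696)) (a (c (c (l 15779600) (l 15876640)) (l 15870256)) (b (l 15966104) (l 16050488))))) (b (l 15732064) (c (a (l 15861608) (l 15924144)) (l 15921896)))), by decide +kernel⟩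

def k8_pm_022_a : ∃ t, chk3 f_pm_022_a t 36 30 1 = true :=
  ⟨(c (b (c (a (c (l 16156456) (a (l 16069592) (c (l 16220384) (l 16181472)))) (c (a (c (l 16318464) (l 16245984)) (c (l 16387536) (l 16363624))) (c (a (l 16288664) (l 16277480)) (a (l 16076040) (l 16266264))))) (a (c (a (l 15962912) (l 16096928)) (l 16054968)) (a (l 16184400) (l 16252992)))) (c (a (c (l 16145552) (a (c (l 16301144) (l 16182736)) (c (a (l 16349312) (l 16372776)) (l 16301752)))) (c (a (c (l 16421040) (l 16373080)) (c (a (l 16472176) (l 16501344)) (a (l 16399984) (l 16422552)))) (c (a (l 16398848) (l 1035119686631)) (a (l 16253904) (l 16365704))))) (a (c (a (c (l 16199072) (l 16177048)) (a (l 16100800) (l 16278032))) (l 16077712)) (l 828961078279)))) (a (c (b (l 16042104) (a (l 16144728) (l 16183016))) (l 15912624)) (a (b (c (l 16159664) (l 16141536)) (c (b (l 16263448) (l 16330720)) (c (l 16199120) (l 16212920)))) (b (c (l 16168800) (l 16045928)) (c (l 16313064) (b (c (l 16318192) (l 16290088)) (l 1187591017495))))))),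 by decide +kernel⟩

def k9_pm_022_a : ∃ t, chk3 f_pm_022_a t 36 31 1 = true :=
  ⟨(a (c (c (c (b (c (l 16361256) (l 16417728)) (l 999686403399)) (a (c (b (l 16396000) (l 16537960)) (b (c (l 16340072) (l 16361536)) (a (l 617971360567) (l 1043173074391)))) (c (b (a (l 16444048) (c (l 16515792) (l 16475360))) (b (l 837551608695) (l 1))) (b (l 16398640) (l 1102765738503))))) (c (b (a (c (a (l 16344448) (l 16309616)) (l 16225120)) (c (l 818223821335) (l 16383192))) (c (a (c (b (l 16478528) (l 16541456)) (l 858489326967)) (b (l 1095786316711) (l 1))) (a (l 907344545751) (l 857415854423)))) (b (a (l 16297968) (l 16380344)) (l 835404036855)))) (b (c (a (b (l 16263000) (l 16320784)) (b (l 16335688) (l 16405544))) (a (c (l 16266832) (l 16281344)) (b (l 16192600) (c (l 16397624) (l 923987391863))))) (c (b (l 899291425975) (l 16426328)) (a (b (c (l 16386928) (l 16296208)) (c (l 16483192) (l 1200476105479))) (b (l 1212824127447) (l 1)))))) (a (b (c (c (c (c (l 16508000) (a (l 16514472) (l 752189110887)))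 (c (l 873521871639) (a (l 1050689029223) (l 1089880637911)))) (l 16427648)) (b (c (l 16394552) (c (l 16388400) (l 943314744807))) (l 1212287249559))) (l 1)) (l 1))), by decide +kernel⟩

def k10_pm_022_a : ∃ t, chk3 f_pm_022_a t 37 7 1 = true :=
  ⟨(a (b (c (c (b (c (a (b (l 15998920) (l 16028200)) (b (l 16038416) (l 16041920))) (a (b (l 15908464) (l 15993896)) (l 16022360))) (c (a (a (b (l 16200384) (l 16259760)) (b (l 16174488) (l 16263392))) (c (l 16263872) (b (l 16187880) (l 16227088)))) (a (b (l 16009312) (a (l 16211048) (l 16229968))) (l 16124768)))) (b (b (l 15922736) (l 15987712)) (b (a (l 16084856) (l 16145624)) (a (l 16178896) (l 16247128))))) (b (c (b (l 15907600) (l 15980040)) (l 15932736)) (b (c (a (l 16055208) (l 16121448)) (l 16072640)) (c (a (l 16092528) (l 16210128)) (a (l 16053152) (b (l 16187296) (l 16182784))))))) (b (a (c (c (c (a (b (c (l 16379648) (l 16361928)) (l 1061426487175)) (b (l 1017939748343) (l 1))) (a (b (l 16261632) (l 1089343669255)) (l 1074848041671)))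 (l 1101691516551)) (c (a (l 1134440561863) (l 1156989243831)) (b (c (l 896069831703) (a (l 16263104) (l 16230176))) (l 1225708840791)))) (b (c (c (c (c (l 16392632) (l 1063036918791)) (l 16341920)) (l 16338344)) (c (l 16333512) (l 1198328289927))) (l 1))) (l 1))) (b (c (b (c (a (c (b (l 16059872) (c (l 16160112) (l 16130976))) (l 16017712)) (b (l 16087320) (l 16162168))) (b (l 16049536) (l 16099224))) (c (c (a (c (l 1035119379687) (l 16203288)) (l 1070016009335)) (l 1079679676631)) (l 1111891844919))) (b (c (b (l 16025672) (l 16015000)) (b (l 16006688) (l 15975424))) (b (c (l 873521075143) (a (l 16052592) (l 920228898023))) (c (l 16266344) (a (l 1182222020679) (l 16296384)))))) (l 1))), by decide +kernel⟩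

def k11_pm_022_a : ∃ t, chk3 f_pm_022_a t 19 7 1 = true :=
  ⟨(b (a (a (c (b (b (c (l 16155096) (l 16142136)) (l 16195816)) (l 1009349931799)) (b (b (c (l 867615407223) (a (l 16085656) (l 910565124407))) (c (l 16182888) (a (l 912712604071) (l 16191304)))) (b (l 1209065596471) (l 1)))) (a (b (b (c (l 16186216) (l 1243425227351)) (l 1)) (l 1)) (l 1))) (l 1)) (l 1)), by decide +kernel⟩

def k12_pm_022_a : ∃ t, chk3 f_pm_022_a t 5 3 1 = true :=
  ⟨(b (a (a (a (b (a (c (l 1324493145271) (b (c (l 16402544) (l 16238536)) (l 1330398733735))) (l 1)) (l 1)) (l 1)) (l 1)) (l 1)) (l 1)), by decide +kernel⟩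

def k13_pm_022_a : ∃ t, chk3 f_pm_022_a t 3 1 1 = true :=
  ⟨(l 1), by decide +kernel⟩

theorem s14_pm_022_a : ∃ t, chk3 f_pm_022_a t 36 15 1 = true := ex3_b k8_pm_022_a k9_pm_022_a

theorem s15_pm_022_a : ∃ t, chk3 f_pm_022_a t 36 7 1 = true := ex3_b k7_pm_022_a s14_pm_022_a

theorem s16_pm_022_a : ∃ t, chk3 f_pm_022_a t 18 7 1 = true := ex3_a s15_pm_022_a k10_pm_022_a

theorem s17_pm_022_a : ∃ t, chk3 f_pm_022_a t 9 7 1 = true := ex3_a s16_pm_022_a k11_pm_022_a

theorem s18_pm_022_a : ∃ t, chk3 f_pm_022_a t 9 3 1 = true := ex3_b k6_pm_022_a s17_pm_022_a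

theorem s19_pm_022_a : ∃ t, chk3 f_pm_022_a t 17 7 1 = true := ex3_c k4_pm_022_a k5_pm_022_a

theorem s20_pm_022_a : ∃ t, chk3 f_pm_022_a t 8 7 1 = true := ex3_a k3_pm_022_a s19_pm_022_a

theorem s21_pm_022_a : ∃ t, chk3 f_pm_022_a t 8 3 1 = true := ex3_b k2_pm_022_a s20_pm_022_a

theorem s22_pm_022_a : ∃ t, chk3 f_pm_022_a t 4 3 1 = true := ex3_a s21_pm_022_a s18_pm_022_a

theorem s23_pm_022_a : ∃ t, chk3 f_pm_022_a t 2 3 1 = true := ex3_a s22_pm_022_a k12_pm_022_a

theorem s24_pm_022_a : ∃ t, chk3 f_pm_022_a t 2 2 1 = true := ex3_a k0_pm_022_a k1_pm_022_a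

theorem s25_pm_022_a : ∃ t, chk3 f_pm_022_a t 2 1 1 = true := ex3_b s24_pm_022_a s23_pm_022_a

theorem s26_pm_022_a : ∃ t, chk3 f_pm_022_a t 1 1 1 = true := ex3_a s25_pm_022_a k13_pm_022_a

theorem c_pm_022_a : CertNX 0 536870912 0 420477299 1046898278 26843546 3 false true false .pp 0 2 2
    ndN3q0 ndN1q2a pcN2 Cut.none Ext.none :=
  certNX2 (fam := false) (s1 := true) (s2 := false) (a := 0) (b := 2) (c := 2) (cn := .pp) (n1 := ndN3q0) (n2 := ndN1q2a) (pc := pcN2) (cut := Cut.none) (xt := Ext.none) (P1 := 0) (W1 := 536870912) (P2 := 0) (W2 := 420477299) (P3 := 1046898278) (W3 := 26843546) (N0 := 3)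
    rfl (fun _ => rfl) s26_pm_022_a

noncomputable def f_pm_022_b : ℕ → ℕ → ℕ → ℕ → Bool := onCell 0 536870912 1073741824 536870912 1046898278 26843546
    (rowNX 3 1 false true false .pp 0 2 2 (qsf 0 536870912 1239849684 370763052 2) ndN3q0 ndN1q2b pcN2 Cut.none Ext.none)

def k0_pm_022_b : ∃ t, chk3 f_pm_022_b t 2 4 1 = true :=
  ⟨(a (a (b (l 1) (a (b (l 1) (a (l 1) (c (l 681858255879) (l 610991348327)))) (a (b (l 1) (c (l 16275744) (l 16287360))) (b (c (b (l 1) (c (l 94521627687) (l 16271704))) (l 153040641479)) (c (l 16010896) (l 16080424)))))) (b (a (b (l 1) (a (l 1) (a (l 1) (b (l 1) (c (l 705478293591) (l 15191720)))))) (c (b (l 686149735223) (c (l 249137162231) (b (l 14666696) (a (l 14906512) (l 14684696))))) (b (b (l 1) (c (l 625483296231) (l 14411680))) (b (a (l 628704881575) (l 14535976)) (l 14726576))))) (a (b (c (c (b (a (l 15820144) (l 15460632)) (a (l 15724328) (l 15450144))) (b (l 15443896) (l 15568880))) (b (l 15625272) (l 15522720))) (a (l 15605248) (l 15300648))) (a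 (b (c (b (c (l 15015200) (l 14959976)) (l 14796864)) (l 14917232)) (l 14904040)) (b (c (b (l 14777224) (l 14806376)) (l 14701304)) (l 14726248)))))) (b (a (c (b (l 13945528) (c (l 14251192) (b (l 14158504) (a (l 14402776) (l 14134496))))) (b (c (b (l 13912288) (a (l 14161064) (l 13864048))) (b (a (l 514349870231) (l 13706968)) (l 13967728))) (a (l 14195472) (l 13995688)))) (c (b (l 13568624) (c (l 13829712) (b (l 13720296) (l 13851192)))) (b (c (a (l 13575168) (l 13404856)) (b (a (l 13461856) (l 13285208)) (l 13495640))) (a (l 13774440) (l 13615192))))) (a (b (c (b (c (a (l 14541672) (l 14290344)) (l 14340512)) (a (l 14553000) (l 14313616))) (l 14108224)) (a (l 14503616) (l 14299368))) (b (c (c (a (l 13990632) (l 13981032)) (l 13970096)) (l 13891488)) (l 14093168))))), by decide +kernel⟩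

def k1_pm_022_b : ∃ t, chk3 f_pm_022_b t 3 4 1 = true :=
  ⟨(b (a (c (b (l 13263408) (c (l 13551288) (b (l 13430872) (l 13577328)))) (b (c (b (l 13113528) (l 13242248)) (b (a (l 13135552) (l 12961376)) (l 13184488))) (b (l 13340088) (l 13454856)))) (c (b (l 12985320) (c (l 13302408) (l 13229664))) (b (c (l 12894608) (l 12710648)) (l 13141872)))) (b (a (c (b (c (l 13771248) (l 13664248)) (l 13825584)) (l 13624800)) (c (b (l 13495160) (l 13631272)) (l 13403128))) (a (l 13919520) (l 13799664)))), by decide +kernel⟩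

def k2_pm_022_b : ∃ t, chk3 f_pm_022_b t 1 5 1 = true :=
  ⟨(a (a (b (a (a (b (b (a (c (l 652867198759) (c (l 627097411031) (l 606696309879))) (c (l 16336528) (l 16323304))) (a (a (c (l 16008264) (c (l 15986992) (l 15907480))) (c (b (l 16138736) (l 15944304)) (b (l 16186264) (l 15962696)))) (c (l 16001112) (l 16149056)))) (a (c (b (l 15400008) (l 15203504)) (a (b (l 15544192) (l 15157952)) (l 15271936))) (c (b (l 15768720) (l 15409496)) (l 15438352)))) (b (b (a (l 16097704) (l 15996016)) (c (l 16067536) (l 16165992))) (a (c (l 15605152) (l 15685472)) (b (l 16040304) (l 15742928))))) (b (a (b (a (l 15710032) (l 15314440)) (a (l 15884152) (l 15532480))) (b (l 14898424) (l 15142640))) (a (a (b (l 16230040) (l 16084384)) (l 16000528)) (l 15495960)))) (a (b (a (a (c (a (l 14657640) (l 14746400)) (a (l 14482392) (l 14717488))) (c (l 14929800) (l 14881480))) (a (l 14931152) (l 15324312))) (a (a (c (l 14346904) (a (l 14229560) (l 14348184))) (c (l 14588384) (l 14525840))) (c (l 14926384) (l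 14864904)))) (a (b (a (l 15592960) (l 16227088)) (a (l 15399608) (l 15944864))) (b (l 16202408) (l 16506184))))) (b (b (a (b (l 14579848) (l 14851056)) (b (l 14372096) (l 14667776))) (a (l 15361328) (l 15155296))) (b (a (l 15873792) (l 15623456)) (a (l 16198288) (l 15957168))))) (a (b (b (b (l 14303152) (l 14618656)) (l 15069576)) (b (l 15487824) (l 15843344))) (b (b (l 14438352) (l 2)) (l 2)))), by decide +kernel⟩

def k3_pm_022_b : ∃ t, chk3 f_pm_022_b t 1 3 1 = true :=
  ⟨(a (a (b (a (b (a (c (a (l 14198264) (l 14457768)) (a (b (l 14221480) (l 14132224)) (l 14389840))) (c (l 14767328) (l 14699120))) (a (c (a (l 14103160) (l 14303256)) (a (l 14035968) (l 14228104))) (c (l 14593416) (l 14516904)))) (b (a (a (l 15215328) (l 15750168)) (l 16307632)) (a (b (l 15300504) (l 15286440)) (l 16108448)))) (a (b (a (c (l 14194240) (l 14127872)) (l 14549544)) (a (c (l 14194240) (l 14127872)) (l 14549544))) (a (b (l 15286440) (l 15286440)) (b (l 16101312) (l 2))))) (b (b (a (b (l 16403184) (l 16620104))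 (l 16228080)) (a (l 16339248) (l 16749392))) (a (b (l 16500672) (l 2)) (l 2)))) (b (b (a (l 16343272) (l 2)) (l 2)) (l 2))), by decide +kernel⟩

theorem s4_pm_022_b : ∃ t, chk3 f_pm_022_b t 1 4 1 = true := ex3_a k0_pm_022_b k1_pm_022_b

theorem s5_pm_022_b : ∃ t, chk3 f_pm_022_b t 1 2 1 = true := ex3_b s4_pm_022_b k2_pm_022_b

theorem s6_pm_022_b : ∃ t, chk3 f_pm_022_b t 1 1 1 = true := ex3_b s5_pm_022_b k3_pm_022_b

theorem c_pm_022_b : CertNX 0 536870912 1239849684 370763052 1046898278 26843546 3 false true false .pp 0 2 2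
    ndN3q0 ndN1q2b pcN2 Cut.none Ext.none :=
  certNX1 (fam := false) (s1 := true) (s2 := false) (a := 0) (b := 2) (c := 2) (cn := .pp) (n1 := ndN3q0) (n2 := ndN1q2b) (pc := pcN2) (cut := Cut.none) (xt := Ext.none) (P1 := 0) (W1 := 536870912) (P2 := 1239849684) (W2 := 370763052) (P3 := 1046898278) (W3 := 26843546) (N0 := 3)
    rfl (fun _ => rfl) s6_pm_022_b

noncomputable def f_pm_023 : ℕ → ℕ → ℕ → ℕ → Bool := onCell 1073741824 536870912 1610612736 469762048 1046898278 26843546
    (rowNX 3 2 false true false .up 0 2 3 (qsf 0 536870912 1610612736 469762048 2) ndN3q0 ndN1q3 pcN2 Cut.none Ext.none)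

def k0_pm_023 : ∃ t, chk3 f_pm_023 t 1 1 1 = true :=
  ⟨(b (b (a (a (a (c (a (l 12848048) (c (l 13222760) (l 13147984))) (a (c (l 12754480) (l 12671936)) (l 13058328))) (a (c (l 13392120) (l 13363280)) (l 13791664))) (a (a (l 14438840) (l 15042208)) (a (l 15458968) (l 15833168)))) (b (a (a (l 16350712) (a (l 16697040) (l 16555088))) (a (a (l 16325944) (b (a (l 15886600) (l 15451624)) (l 16188440))) (a (b (l 14694728) (a (l 15795944) (l 15350032))) (b (l 14274344) (l 14713296))))) (a (l 4) (a (l 4) (l 4))))) (a (a (l 4) (l 4)) (l 4))) (a (a (l 2) (l 4)) (l 4))), by decide +kernel⟩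

theorem c_pm_023 : CertNX 0 536870912 1610612736 469762048 1046898278 26843546 3 false true false .up 0 2 3
    ndN3q0 ndN1q3 pcN2 Cut.none Ext.none :=
  certNX2 (fam := false) (s1 := true) (s2 := false) (a := 0) (b := 2) (c := 3) (cn := .up) (n1 := ndN3q0) (n2 := ndN1q3) (pc := pcN2) (cut := Cut.none) (xt := Ext.none) (P1 := 0) (W1 := 536870912) (P2 := 1610612736) (W2 := 469762048) (P3 := 1046898278) (W3 := 26843546) (N0 := 3)
    rfl (fun _ => rfl) k0_pm_023

noncomputable def f_pm_033 : ℕ → ℕ → ℕ → ℕ → Bool := onCell 0 536870912 1610612736 469762048 1046898278 26843546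
    (rowNX 3 0 false true false .pnn 0 3 3 (qsf 0 536870912 1610612736 469762048 3) ndN3q0 ndN1q3 pcN3 Cut.none Ext.none)

def k0_pm_033 : ∃ t, chk3 f_pm_033 t 1 1 1 = true :=
  ⟨(a (b (b (a (b (a (a (c (l 14194240) (l 14127872)) (l 14549544)) (l 1)) (a (a (c (l 14194240) (l 14127872)) (l 14549544)) (l 4))) (l 1)) (l 4)) (l 4)) (b (l 1) (l 4))), by decide +kernel⟩

theorem c_pm_033 : CertNX 0 536870912 1610612736 469762048 1046898278 26843546 3 false true false .pnn 0 3 3
    ndN3q0 ndN1q3 pcN3 Cut.none Ext.none :=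
  certNX0 (fam := false) (s1 := true) (s2 := false) (a := 0) (b := 3) (c := 3) (cn := .pnn) (n1 := ndN3q0) (n2 := ndN1q3) (pc := pcN3) (cut := Cut.none) (xt := Ext.none) (P1 := 0) (W1 := 536870912) (P2 := 1610612736) (W2 := 469762048) (P3 := 1046898278) (W3 := 26843546) (N0 := 3)
    rfl k0_pm_033

noncomputable def f_pm_101 : ℕ → ℕ → ℕ → ℕ → Bool := onCell 536870912 536870912 536870912 536870912 1046898278 26843546
    (rowNX 3 0 false true false .npn 1 0 1 (qsf 536870912 536870912 536870912 536870912 0) ndN3q1 ndN1q1 pcN0 Cut.none Ext.none)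

def k0_pm_101 : ∃ t, chk3 f_pm_101 t 1 1 1 = true :=
  ⟨(l 4), by decide +kernel⟩

theorem c_pm_101 : CertNX 536870912 536870912 536870912 536870912 1046898278 26843546 3 false true false .npn 1 0 1
    ndN3q1 ndN1q1 pcN0 Cut.none Ext.none :=
  certNX0 (fam := false) (s1 := true) (s2 := false) (a := 1) (b := 0) (c := 1) (cn := .npn) (n1 := ndN3q1) (n2 := ndN1q1) (pc := pcN0) (cut := Cut.none) (xt := Ext.none) (P1 := 536870912) (W1 := 536870912) (P2 := 536870912) (W2 := 536870912) (P3 := 1046898278) (W3 := 26843546) (N0 := 3)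
    rfl k0_pm_101

noncomputable def f_pm_102_a : ℕ → ℕ → ℕ → ℕ → Bool := onCell 536870912 536870912 0 420477299 1046898278 26843546
    (rowNX 3 0 false true false .npp 1 0 2 (qsf 536870912 536870912 0 420477299 0) ndN3q1 ndN1q2a pcN0 Cut.none Ext.none)

def k0_pm_102_a : ∃ t, chk3 f_pm_102_a t 1 1 1 = true :=
  ⟨(b (a (a (l 2) (a (l 16776576) (l 16776576))) (a (a (l 16516784) (a (l 16213664) (l 15674944))) (a (a (l 14817504) (b (l 14237552) (l 14238968))) (a (b (l 13692704) (c (l 13685808) (l 13638928))) (b (a (l 13140432) (l 12875224)) (a (l 12919856) (c (l 12754792) (l 12714552)))))))) (a (l 4) (l 4))), by decide +kernel⟩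

theorem c_pm_102_a : CertNX 536870912 536870912 0 420477299 1046898278 26843546 3 false true false .npp 1 0 2
    ndN3q1 ndN1q2a pcN0 Cut.none Ext.none :=
  certNX0 (fam := false) (s1 := true) (s2 := false) (a := 1) (b := 0) (c := 2) (cn := .npp) (n1 := ndN3q1) (n2 := ndN1q2a) (pc := pcN0) (cut := Cut.none) (xt := Ext.none) (P1 := 536870912) (W1 := 536870912) (P2 := 0) (W2 := 420477299) (P3 := 1046898278) (W3 := 26843546) (N0 := 3)
    rfl k0_pm_102_a

noncomputable def f_pm_102_b : ℕ → ℕ → ℕ → ℕ → Bool := onCell 536870912 536870912 1239849684 370763052 1046898278 26843546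
    (rowNX 3 0 false true false .npp 1 0 2 (qsf 536870912 536870912 1239849684 370763052 0) ndN3q1 ndN1q2b pcN0 Cut.none Ext.none)

def k0_pm_102_b : ∃ t, chk3 f_pm_102_b t 1 1 1 = true :=
  ⟨(a (b (a (l 2) (b (l 16777216) (l 16777216))) (l 2)) (a (b (a (l 16684248) (a (l 16213288) (l 15590632))) (a (l 2) (a (l 16213288) (l 15674520)))) (b (a (a (l 14817032) (l 14234952)) (a (b (b (l 13666616) (l 13634512)) (l 13634512)) (b (a (b (l 13102384) (l 13017800)) (b (l 12854152) (l 12724648))) (a (l 13016312) (l 12707432))))) (a (l 14487160) (a (l 13634512) (a (l 13016312) (l 12707432))))))), by decide +kernel⟩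

theorem c_pm_102_b : CertNX 536870912 536870912 1239849684 370763052 1046898278 26843546 3 false true false .npp 1 0 2
    ndN3q1 ndN1q2b pcN0 Cut.none Ext.none :=
  certNX0 (fam := false) (s1 := true) (s2 := false) (a := 1) (b := 0) (c := 2) (cn := .npp) (n1 := ndN3q1) (n2 := ndN1q2b) (pc := pcN0) (cut := Cut.none) (xt := Ext.none) (P1 := 536870912) (W1 := 536870912) (P2 := 1239849684) (W2 := 370763052) (P3 := 1046898278) (W3 := 26843546) (N0 := 3)
    rfl k0_pm_102_b

noncomputable def f_pm_112_a : ℕ → ℕ → ℕ → ℕ → Bool := onCell 536870912 536870912 0 420477299 1046898278 26843546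
    (rowNX 3 0 false true false .dn 1 1 2 (qsf 536870912 536870912 0 420477299 1) ndN3q1 ndN1q2a pcN1 Cut.none Ext.none)

def k0_pm_112_a : ∃ t, chk3 f_pm_112_a t 1 1 1 = true :=
  ⟨(a (b (a (a (b (l 16771408) (l 16770336)) (l 16776576)) (c (l 16776592) (l 16776568))) (l 4)) (l 1)), by decide +kernel⟩

theorem c_pm_112_a : CertNX 536870912 536870912 0 420477299 1046898278 26843546 3 false true false .dn 1 1 2
    ndN3q1 ndN1q2a pcN1 Cut.none Ext.none :=
  certNX0 (fam := false) (s1 := true) (s2 := false) (a := 1) (b := 1) (c := 2) (cn := .dn) (n1 := ndN3q1) (n2 := ndN1q2a) (pc := pcN1) (cut := Cut.none) (xt := Ext.none) (P1 := 536870912) (W1 := 536870912) (P2 := 0) (W2 := 420477299) (P3 := 1046898278) (W3 := 26843546) (N0 := 3)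
    rfl k0_pm_112_a

noncomputable def f_pm_112_b : ℕ → ℕ → ℕ → ℕ → Bool := onCell 536870912 536870912 536870912 536870912 1046898278 26843546
    (rowNX 3 1 false true false .dn 1 1 2 (qsf 536870912 536870912 1239849684 370763052 1) ndN3q1 ndN1q2b pcN1 Cut.none Ext.none)

def k0_pm_112_b : ∃ t, chk3 f_pm_112_b t 2 2 1 = true :=
  ⟨(a (b (b (a (l 1) (l 16721456)) (a (l 16721456) (l 16777080))) (l 16777152)) (b (l 16777152) (l 16759696))), by decide +kernel⟩

def k1_pm_112_b : ∃ t, chk3 f_pm_112_b t 2 3 1 = true :=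
  ⟨(b (b (a (b (l 16776600) (a (l 16373856) (l 16264760))) (b (l 16733816) (l 16154280))) (a (b (a (a (a (b (l 16104424) (l 15824992)) (b (l 15746128) (a (l 15464768) (l 15309880)))) (l 15411648)) (l 15263376)) (a (a (b (b (a (c (a (l 15714200) (l 15609568)) (l 15644144)) (c (l 15172272) (l 15116680))) (a (c (a (l 15674944) (l 15480776)) (l 15595336)) (l 15143128))) (c (a (a (l 15419968) (b (l 15305856) (a (l 15310944) (l 15150176)))) (l 15069048)) (a (a (c (l 15385424) (l 15386024)) (l 15296464)) (l 14861040)))) (a (b (a (b (l 14927672) (l 14725712)) (l 14752872)) (c (l 14584616) (l 14382280))) (l 14492272))) (l 14330664))) (b (l 15062592) (a (l 14139592) (l 2))))) (b (a (b (a (a (a (b (a (l 15042656) (c (c (l 14990552) (l 14592496)) (c (l 14935040) (l 14926960)))) (l 14615520)) (b (c (b (l 14739680) (l 14545328)) (a (l 14813744) (l 14414928))) (b (c (l 14383880) (a (l 14566304) (l 14292496))) (c (a (l 14472024) (a (l 14418040) (l 14262520))) (a (l 14400952) (l 14287736)))))) (b (a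 (l 13933648) (l 13872232)) (b (l 13774480) (c (b (l 13654144) (l 13920520)) (l 13605104))))) (b (l 13819104) (l 13516872))) (c (a (b (a (b (l 14112088) (l 14219776)) (a (l 14085544) (l 13750336))) (a (l 14171376) (l 13917400))) (a (l 13667976) (b (l 13586328) (l 2)))) (a (b (a (a (l 14326544) (l 13978184)) (a (l 14063096) (l 13677000))) (a (l 14050864) (l 13999496))) (l 13442072)))) (b (b (l 13755960) (l 2)) (l 2))) (a (a (b (b (c (c (l 13866400) (l 13636632)) (l 13768616)) (c (l 13472480) (l 13436208))) (a (l 12953128) (a (l 12917080) (l 2)))) (a (a (b (b (l 13610376) (l 2)) (l 2)) (l 2)) (l 2))) (l 2)))), by decide +kernel⟩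

def k2_pm_112_b : ∃ t, chk3 f_pm_112_b t 3 1 1 = true :=
  ⟨(b (a (a (b (l 16684248) (l 16660440)) (b (l 15948944) (l 15900048))) (b (a (l 14592016) (a (l 13634512) (l 12893112))) (a (l 14544928) (l 2)))) (b (a (b (a (l 16231832) (l 2)) (l 2)) (l 2)) (l 2))), by decide +kernel⟩

theorem s3_pm_112_b : ∃ t, chk3 f_pm_112_b t 2 1 1 = true := ex3_b k0_pm_112_b k1_pm_112_b

theorem s4_pm_112_b : ∃ t, chk3 f_pm_112_b t 1 1 1 = true := ex3_a s3_pm_112_b k2_pm_112_b

theorem c_pm_112_b : CertNX 536870912 536870912 1239849684 370763052 1046898278 26843546 3 false true false .dn 1 1 2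
    ndN3q1 ndN1q2b pcN1 Cut.none Ext.none :=
  certNX1 (fam := false) (s1 := true) (s2 := false) (a := 1) (b := 1) (c := 2) (cn := .dn) (n1 := ndN3q1) (n2 := ndN1q2b) (pc := pcN1) (cut := Cut.none) (xt := Ext.none) (P1 := 536870912) (W1 := 536870912) (P2 := 1239849684) (W2 := 370763052) (P3 := 1046898278) (W3 := 26843546) (N0 := 3)
    rfl (fun _ => rfl) s4_pm_112_b

noncomputable def f_pm_113 : ℕ → ℕ → ℕ → ℕ → Bool := onCell 536870912 536870912 536870912 536870912 1046898278 26843546
    (rowNX 3 1 false true false .nn 1 1 3 (qsf 536870912 536870912 1610612736 469762048 1) ndN3q1 ndN1q3 pcN1 Cut.none Ext.none)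

def k0_pm_113 : ∃ t, chk3 f_pm_113 t 1 2 1 = true :=
  ⟨(a (a (l 1) (b (l 1) (l 16759696))) (a (a (b (l 1) (l 16660440)) (b (l 15948944) (l 15900048))) (b (a (l 14592016) (a (l 13634512) (l 12893112))) (a (l 14544928) (a (l 13603360) (l 12724536)))))), by decide +kernel⟩

def k1_pm_113 : ∃ t, chk3 f_pm_113 t 1 6 1 = true :=
  ⟨(a (b (a (l 1) (b (l 16733816) (l 16154280))) (a (b (l 1) (a (l 1) (l 14330664))) (b (l 15062592) (a (l 14139592) (l 14116688))))) (a (b (a (l 16231832) (l 15455104)) (a (l 14460128) (b (l 14180928) (l 13376736)))) (b (a (l 14147696) (b (l 13276408) (l 12743784))) (a (b (l 12909528) (l 12123088)) (a (l 11638560) (b (l 11355136) (l 10588848))))))), by decide +kernel⟩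

def k2_pm_113 : ∃ t, chk3 f_pm_113 t 2 7 1 = true :=
  ⟨(a (b (a (a (l 1) (b (l 1) (b (l 1) (c (l 13917400) (l 13999496))))) (b (b (l 13819104) (l 13516872)) (c (a (l 13667976) (b (l 13586328) (l 13611080))) (l 13442072)))) (b (b (c (a (c (l 13866400) (l 13636632)) (c (l 13502488) (b (l 13526336) (l 13416296)))) (a (l 13768616) (l 13351632))) (c (a (l 13472480) (l 13212784)) (a (l 13436208) (c (c (l 13187120) (l 13141112)) (l 13090648))))) (c (b (a (l 13060344) (l 12937936)) (l 12744464)) (c (b (a (l 13097552) (c (l 12925576) (l 12901672))) (b (l 12768256) (l 12612560))) (b (a (l 13064248) (l 12856976)) (b (c (l 12783888) (l 12764488)) (b (a (l 12636408) (l 12562128)) (l 12540960)))))))) (b (b (b (l 13755960) (b (l 13577808) (l 13479080))) (c (b (c (l 13599568) (l 13523712)) (c (b (l 13539400) (l 13506464)) (l 13213888))) (l 13442072))) (b (c (c (l 13252824) (b (b (l 13265200) (l 13219104)) (l 13104688))) (b (l 13190992) (c (l 13054912) (l 12972952)))) (l 4)))), by decide +kernel⟩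

def k3_pm_113 : ∃ t, chk3 f_pm_113 t 3 7 1 = true :=
  ⟨(b (a (b (b (l 13290256) (a (l 13433320) (l 12766200))) (c (b (c (a (l 13456072) (l 12867616)) (l 12984240)) (l 4)) (l 12880408))) (b (b (a (l 11775256) (l 10732832)) (a (l 11590256) (a (l 10835584) (b (l 10294104) (l 10280096))))) (c (a (c (b (l 11899328) (b (l 11863136) (l 11815760))) (l 11537280)) (a (b (l 11189568) (l 11232408)) (a (l 10915264) (l 10860800)))) (a (l 11275584) (l 10265008))))) (a (l 4) (a (b (a (l 4) (b (c (c (l 11662560) (l 11360536)) (l 10829984)) (l 4))) (l 4)) (b (c (c (a (l 11539480) (l 11827192)) (b (a (b (l 11040360) (l 11029888)) (l 10960184)) (a (l 11094472) (l 11310872)))) (b (l 10286896) (c (a (l 10581008) (l 10462088)) (l 9837576)))) (a (l 4) (a (a (a (l 4) (l 2)) (l 2)) (l 2))))))), by decide +kernel⟩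

theorem s4_pm_113 : ∃ t, chk3 f_pm_113 t 1 7 1 = true := ex3_a k2_pm_113 k3_pm_113

theorem s5_pm_113 : ∃ t, chk3 f_pm_113 t 1 3 1 = true := ex3_b k1_pm_113 s4_pm_113

theorem s6_pm_113 : ∃ t, chk3 f_pm_113 t 1 1 1 = true := ex3_b k0_pm_113 s5_pm_113

theorem c_pm_113 : CertNX 536870912 536870912 1610612736 469762048 1046898278 26843546 3 false true false .nn 1 1 3
    ndN3q1 ndN1q3 pcN1 Cut.none Ext.none :=
  certNX1 (fam := false) (s1 := true) (s2 := false) (a := 1) (b := 1) (c := 3) (cn := .nn) (n1 := ndN3q1) (n2 := ndN1q3) (pc := pcN1) (cut := Cut.none) (xt := Ext.none) (P1 := 536870912) (W1 := 536870912) (P2 := 1610612736) (W2 := 469762048) (P3 := 1046898278) (W3 := 26843546) (N0 := 3)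
    rfl (fun _ => rfl) s6_pm_113

noncomputable def f_pm_123 : ℕ → ℕ → ℕ → ℕ → Bool := onCell 1073741824 536870912 1610612736 469762048 1046898278 26843546
    (rowNX 3 2 false true false .npn 1 2 3 (qsf 536870912 536870912 1610612736 469762048 2) ndN3q1 ndN1q3 pcN2 Cut.none Ext.none)

def k0_pm_123 : ∃ t, chk3 f_pm_123 t 1 1 1 = true :=
  ⟨(a (b (b (a (a (c (a (l 12848048) (l 12923840)) (a (c (l 12754480) (l 12671936)) (l 13058328))) (b (l 1) (l 4))) (l 1)) (a (l 4) (l 4))) (a (l 4) (l 4))) (b (l 1) (l 4))), by decide +kernel⟩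

theorem c_pm_123 : CertNX 536870912 536870912 1610612736 469762048 1046898278 26843546 3 false true false .npn 1 2 3
    ndN3q1 ndN1q3 pcN2 Cut.none Ext.none :=
  certNX2 (fam := false) (s1 := true) (s2 := false) (a := 1) (b := 2) (c := 3) (cn := .npn) (n1 := ndN3q1) (n2 := ndN1q3) (pc := pcN2) (cut := Cut.none) (xt := Ext.none) (P1 := 536870912) (W1 := 536870912) (P2 := 1610612736) (W2 := 469762048) (P3 := 1046898278) (W3 := 26843546) (N0 := 3)
    rfl (fun _ => rfl) k0_pm_123

noncomputable def f_pm_133 : ℕ → ℕ → ℕ → ℕ → Bool := onCell 536870912 536870912 1610612736 469762048 1046898278 26843546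
    (rowNX 3 0 false true false .dn 1 3 3 (qsf 536870912 536870912 1610612736 469762048 3) ndN3q1 ndN1q3 pcN3 Cut.none Ext.none)

def k0_pm_133 : ∃ t, chk3 f_pm_133 t 1 1 1 = true :=
  ⟨(l 1), by decide +kernel⟩

theorem c_pm_133 : CertNX 536870912 536870912 1610612736 469762048 1046898278 26843546 3 false true false .dn 1 3 3
    ndN3q1 ndN1q3 pcN3 Cut.none Ext.none :=
  certNX0 (fam := false) (s1 := true) (s2 := false) (a := 1) (b := 3) (c := 3) (cn := .dn) (n1 := ndN3q1) (n2 := ndN1q3) (pc := pcN3) (cut := Cut.none) (xt := Ext.none) (P1 := 536870912) (W1 := 536870912) (P2 := 1610612736) (W2 := 469762048) (P3 := 1046898278) (W3 := 26843546) (N0 := 3)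
    rfl k0_pm_133

noncomputable def f_pm_202_a : ℕ → ℕ → ℕ → ℕ → Bool := onCell 1073741824 536870912 0 420477299 1046898278 26843546
    (rowNX 3 0 false true false .pp 2 0 2 (qsf 1073741824 536870912 0 420477299 0) ndN3q2 ndN1q2a pcN0 Cut.none Ext.none)

def k0_pm_202_a : ∃ t, chk3 f_pm_202_a t 1 1 1 = true :=
  ⟨(l 3), by decide +kernel⟩

theorem c_pm_202_a : CertNX 1073741824 536870912 0 420477299 1046898278 26843546 3 false true false .pp 2 0 2
    ndN3q2 ndN1q2a pcN0 Cut.none Ext.none :=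
  certNX0 (fam := false) (s1 := true) (s2 := false) (a := 2) (b := 0) (c := 2) (cn := .pp) (n1 := ndN3q2) (n2 := ndN1q2a) (pc := pcN0) (cut := Cut.none) (xt := Ext.none) (P1 := 1073741824) (W1 := 536870912) (P2 := 0) (W2 := 420477299) (P3 := 1046898278) (W3 := 26843546) (N0 := 3)
    rfl k0_pm_202_a

noncomputable def f_pm_202_b : ℕ → ℕ → ℕ → ℕ → Bool := onCell 1073741824 536870912 1239849684 370763052 1046898278 26843546
    (rowNX 3 0 false true false .pp 2 0 2 (qsf 1073741824 536870912 1239849684 370763052 0) ndN3q2 ndN1q2b pcN0 Cut.none Ext.none)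

def k0_pm_202_b : ∃ t, chk3 f_pm_202_b t 1 1 1 = true :=
  ⟨(l 3), by decide +kernel⟩

theorem c_pm_202_b : CertNX 1073741824 536870912 1239849684 370763052 1046898278 26843546 3 false true false .pp 2 0 2
    ndN3q2 ndN1q2b pcN0 Cut.none Ext.none :=
  certNX0 (fam := false) (s1 := true) (s2 := false) (a := 2) (b := 0) (c := 2) (cn := .pp) (n1 := ndN3q2) (n2 := ndN1q2b) (pc := pcN0) (cut := Cut.none) (xt := Ext.none) (P1 := 1073741824) (W1 := 536870912) (P2 := 1239849684) (W2 := 370763052) (P3 := 1046898278) (W3 := 26843546) (N0 := 3)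
    rfl k0_pm_202_b

noncomputable def f_pm_203 : ℕ → ℕ → ℕ → ℕ → Bool := onCell 1073741824 536870912 0 536870912 1046898278 26843546
    (rowNX 3 1 false true false .up 2 0 3 (qsf 1073741824 536870912 1610612736 469762048 0) ndN3q2 ndN1q3 pcN0 Cut.none Ext.none)

def k0_pm_203 : ∃ t, chk3 f_pm_203 t 1 1 1 = true :=
  ⟨(l 3), by decide +kernel⟩

theorem c_pm_203 : CertNX 1073741824 536870912 1610612736 469762048 1046898278 26843546 3 false true false .up 2 0 3
    ndN3q2 ndN1q3 pcN0 Cut.none Ext.none :=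
  certNX1 (fam := false) (s1 := true) (s2 := false) (a := 2) (b := 0) (c := 3) (cn := .up) (n1 := ndN3q2) (n2 := ndN1q3) (pc := pcN0) (cut := Cut.none) (xt := Ext.none) (P1 := 1073741824) (W1 := 536870912) (P2 := 1610612736) (W2 := 469762048) (P3 := 1046898278) (W3 := 26843546) (N0 := 3)
    rfl (fun _ => rfl) k0_pm_203

noncomputable def f_pm_213 : ℕ → ℕ → ℕ → ℕ → Bool := onCell 1073741824 536870912 1610612736 469762048 1046898278 26843546
    (rowNX 3 0 false true false .pnn 2 1 3 (qsf 1073741824 536870912 1610612736 469762048 1) ndN3q2 ndN1q3 pcN1 Cut.none Ext.none)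

def k0_pm_213 : ∃ t, chk3 f_pm_213 t 1 1 1 = true :=
  ⟨(a (l 3) (l 3)), by decide +kernel⟩

theorem c_pm_213 : CertNX 1073741824 536870912 1610612736 469762048 1046898278 26843546 3 false true false .pnn 2 1 3
    ndN3q2 ndN1q3 pcN1 Cut.none Ext.none :=
  certNX0 (fam := false) (s1 := true) (s2 := false) (a := 2) (b := 1) (c := 3) (cn := .pnn) (n1 := ndN3q2) (n2 := ndN1q3) (pc := pcN1) (cut := Cut.none) (xt := Ext.none) (P1 := 1073741824) (W1 := 536870912) (P2 := 1610612736) (W2 := 469762048) (P3 := 1046898278) (W3 := 26843546) (N0 := 3)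
    rfl k0_pm_213

noncomputable def f_pm_303 : ℕ → ℕ → ℕ → ℕ → Bool := onCell 1610612736 536870912 1610612736 469762048 1046898278 26843546
    (rowNX 3 0 false true false .npn 3 0 3 (qsf 1610612736 536870912 1610612736 469762048 0) ndN3q3 ndN1q3 pcN0 Cut.none Ext.none)

def k0_pm_303 : ∃ t, chk3 f_pm_303 t 1 1 1 = true :=
  ⟨(l 3), by decide +kernel⟩

theorem c_pm_303 : CertNX 1610612736 536870912 1610612736 469762048 1046898278 26843546 3 false true false .npn 3 0 3
    ndN3q3 ndN1q3 pcN0 Cut.none Ext.none :=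
  certNX0 (fam := false) (s1 := true) (s2 := false) (a := 3) (b := 0) (c := 3) (cn := .npn) (n1 := ndN3q3) (n2 := ndN1q3) (pc := pcN0) (cut := Cut.none) (xt := Ext.none) (P1 := 1610612736) (W1 := 536870912) (P2 := 1610612736) (W2 := 469762048) (P3 := 1046898278) (W3 := 26843546) (N0 := 3)
    rfl k0_pm_303

noncomputable def f_pm_313 : ℕ → ℕ → ℕ → ℕ → Bool := onCell 1610612736 536870912 1610612736 469762048 1046898278 26843546
    (rowNX 3 0 false true false .dn 3 1 3 (qsf 1610612736 536870912 1610612736 469762048 1) ndN3q3 ndN1q3 pcN1 Cut.none Ext.none)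

def k0_pm_313 : ∃ t, chk3 f_pm_313 t 1 1 1 = true :=
  ⟨(l 1), by decide +kernel⟩

theorem c_pm_313 : CertNX 1610612736 536870912 1610612736 469762048 1046898278 26843546 3 false true false .dn 3 1 3
    ndN3q3 ndN1q3 pcN1 Cut.none Ext.none :=
  certNX0 (fam := false) (s1 := true) (s2 := false) (a := 3) (b := 1) (c := 3) (cn := .dn) (n1 := ndN3q3) (n2 := ndN1q3) (pc := pcN1) (cut := Cut.none) (xt := Ext.none) (P1 := 1610612736) (W1 := 536870912) (P2 := 1610612736) (W2 := 469762048) (P3 := 1046898278) (W3 := 26843546) (N0 := 3)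
    rfl k0_pm_313

noncomputable def f_mm_001 : ℕ → ℕ → ℕ → ℕ → Bool := onCell 0 536870912 536870912 536870912 1046898278 26843546
    (rowNX 3 0 false false false .up 0 0 1 (qsf 0 536870912 536870912 536870912 0) ndN3q0 ndN1q1 pcN0 Cut.none Ext.none)

def k0_mm_001 : ∃ t, chk3 f_mm_001 t 1 1 1 = true :=
  ⟨(l 5), by decide +kernel⟩

theorem c_mm_001 : CertNX 0 536870912 536870912 536870912 1046898278 26843546 3 false false false .up 0 0 1
    ndN3q0 ndN1q1 pcN0 Cut.none Ext.none :=
  certNX0 (fam := false) (s1 := false) (s2 := false) (a := 0) (b := 0) (c := 1) (cn := .up) (n1 := ndN3q0) (n2 := ndN1q1) (pc := pcN0) (cut := Cut.none) (xt := Ext.none) (P1 := 0) (W1 := 536870912) (P2 := 536870912) (W2 := 536870912) (P3 := 1046898278) (W3 := 26843546) (N0 := 3)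
    rfl k0_mm_001

noncomputable def f_mm_011 : ℕ → ℕ → ℕ → ℕ → Bool := onCell 0 536870912 536870912 536870912 1046898278 26843546
    (rowNX 3 0 false false false .pnn 0 1 1 (qsf 0 536870912 536870912 536870912 1) ndN3q0 ndN1q1 pcN1 Cut.none Ext.none)

def k0_mm_011 : ∃ t, chk3 f_mm_011 t 1 1 1 = true :=
  ⟨(l 5), by decide +kernel⟩

theorem c_mm_011 : CertNX 0 536870912 536870912 536870912 1046898278 26843546 3 false false false .pnn 0 1 1
    ndN3q0 ndN1q1 pcN1 Cut.none Ext.none :=
  certNX0 (fam := false) (s1 := false) (s2 := false) (a := 0) (b := 1) (c := 1) (cn := .pnn) (n1 := ndN3q0) (n2 := ndN1q1) (pc := pcN1) (cut := Cut.none) (xt := Ext.none) (P1 := 0) (W1 := 536870912) (P2 := 536870912) (W2 := 536870912) (P3 := 1046898278) (W3 := 26843546) (N0 := 3)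
    rfl k0_mm_011

noncomputable def f_mm_012_a : ℕ → ℕ → ℕ → ℕ → Bool := onCell 0 536870912 0 420477299 1046898278 26843546
    (rowNX 3 0 false false false .pnp 0 1 2 (qsf 0 536870912 0 420477299 1) ndN3q0 ndN1q2a pcN1 Cut.none Ext.none)

def k0_mm_012_a : ∃ t, chk3 f_mm_012_a t 1 1 1 = true :=
  ⟨(l 5), by decide +kernel⟩

theorem c_mm_012_a : CertNX 0 536870912 0 420477299 1046898278 26843546 3 false false false .pnp 0 1 2
    ndN3q0 ndN1q2a pcN1 Cut.none Ext.none :=
  certNX0 (fam := false) (s1 := false) (s2 := false) (a := 0) (b := 1) (c := 2) (cn := .pnp) (n1 := ndN3q0) (n2 := ndN1q2a) (pc := pcN1) (cut := Cut.none) (xt := Ext.none) (P1 := 0) (W1 := 536870912) (P2 := 0) (W2 := 420477299) (P3 := 1046898278) (W3 := 26843546) (N0 := 3)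
    rfl k0_mm_012_a

noncomputable def f_mm_012_b : ℕ → ℕ → ℕ → ℕ → Bool := onCell 0 536870912 1239849684 370763052 1046898278 26843546
    (rowNX 3 0 false false false .pnp 0 1 2 (qsf 0 536870912 1239849684 370763052 1) ndN3q0 ndN1q2b pcN1 Cut.none Ext.none)

def k0_mm_012_b : ∃ t, chk3 f_mm_012_b t 1 1 1 = true :=
  ⟨(l 5), by decide +kernel⟩

theorem c_mm_012_b : CertNX 0 536870912 1239849684 370763052 1046898278 26843546 3 false false false .pnp 0 1 2
    ndN3q0 ndN1q2b pcN1 Cut.none Ext.none :=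
  certNX0 (fam := false) (s1 := false) (s2 := false) (a := 0) (b := 1) (c := 2) (cn := .pnp) (n1 := ndN3q0) (n2 := ndN1q2b) (pc := pcN1) (cut := Cut.none) (xt := Ext.none) (P1 := 0) (W1 := 536870912) (P2 := 1239849684) (W2 := 370763052) (P3 := 1046898278) (W3 := 26843546) (N0 := 3)
    rfl k0_mm_012_b

noncomputable def f_mm_022_a : ℕ → ℕ → ℕ → ℕ → Bool := onCell 0 536870912 0 420477299 1046898278 26843546
    (rowNX 3 0 false false false .pp 0 2 2 (qsf 0 536870912 0 420477299 2) ndN3q0 ndN1q2a pcN2 Cut.none Ext.none)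

def k0_mm_022_a : ∃ t, chk3 f_mm_022_a t 1 1 1 = true :=
  ⟨(l 5), by decide +kernel⟩

theorem c_mm_022_a : CertNX 0 536870912 0 420477299 1046898278 26843546 3 false false false .pp 0 2 2
    ndN3q0 ndN1q2a pcN2 Cut.none Ext.none :=
  certNX0 (fam := false) (s1 := false) (s2 := false) (a := 0) (b := 2) (c := 2) (cn := .pp) (n1 := ndN3q0) (n2 := ndN1q2a) (pc := pcN2) (cut := Cut.none) (xt := Ext.none) (P1 := 0) (W1 := 536870912) (P2 := 0) (W2 := 420477299) (P3 := 1046898278) (W3 := 26843546) (N0 := 3)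
    rfl k0_mm_022_a

noncomputable def f_mm_022_b : ℕ → ℕ → ℕ → ℕ → Bool := onCell 0 536870912 1239849684 370763052 1046898278 26843546
    (rowNX 3 0 false false false .pp 0 2 2 (qsf 0 536870912 1239849684 370763052 2) ndN3q0 ndN1q2b pcN2 Cut.none Ext.none)

def k0_mm_022_b : ∃ t, chk3 f_mm_022_b t 1 1 1 = true :=
  ⟨(l 5), by decide +kernel⟩

theorem c_mm_022_b : CertNX 0 536870912 1239849684 370763052 1046898278 26843546 3 false false false .pp 0 2 2
    ndN3q0 ndN1q2b pcN2 Cut.none Ext.none :=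
  certNX0 (fam := false) (s1 := false) (s2 := false) (a := 0) (b := 2) (c := 2) (cn := .pp) (n1 := ndN3q0) (n2 := ndN1q2b) (pc := pcN2) (cut := Cut.none) (xt := Ext.none) (P1 := 0) (W1 := 536870912) (P2 := 1239849684) (W2 := 370763052) (P3 := 1046898278) (W3 := 26843546) (N0 := 3)
    rfl k0_mm_022_b

noncomputable def f_mm_023 : ℕ → ℕ → ℕ → ℕ → Bool := onCell 0 536870912 1610612736 469762048 1046898278 26843546
    (rowNX 3 0 false false false .up 0 2 3 (qsf 0 536870912 1610612736 469762048 2) ndN3q0 ndN1q3 pcN2 Cut.none Ext.none)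

def k0_mm_023 : ∃ t, chk3 f_mm_023 t 1 1 1 = true :=
  ⟨(l 5), by decide +kernel⟩

theorem c_mm_023 : CertNX 0 536870912 1610612736 469762048 1046898278 26843546 3 false false false .up 0 2 3
    ndN3q0 ndN1q3 pcN2 Cut.none Ext.none :=
  certNX0 (fam := false) (s1 := false) (s2 := false) (a := 0) (b := 2) (c := 3) (cn := .up) (n1 := ndN3q0) (n2 := ndN1q3) (pc := pcN2) (cut := Cut.none) (xt := Ext.none) (P1 := 0) (W1 := 536870912) (P2 := 1610612736) (W2 := 469762048) (P3 := 1046898278) (W3 := 26843546) (N0 := 3)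
    rfl k0_mm_023

noncomputable def f_mm_033 : ℕ → ℕ → ℕ → ℕ → Bool := onCell 0 536870912 1610612736 469762048 1046898278 26843546
    (rowNX 3 0 false false false .pnn 0 3 3 (qsf 0 536870912 1610612736 469762048 3) ndN3q0 ndN1q3 pcN3 Cut.none Ext.none)

def k0_mm_033 : ∃ t, chk3 f_mm_033 t 1 1 1 = true :=
  ⟨(l 5), by decide +kernel⟩

theorem c_mm_033 : CertNX 0 536870912 1610612736 469762048 1046898278 26843546 3 false false false .pnn 0 3 3
    ndN3q0 ndN1q3 pcN3 Cut.none Ext.none :=
  certNX0 (fam := false) (s1 := false) (s2 := false) (a := 0) (b := 3) (c := 3) (cn := .pnn) (n1 := ndN3q0) (n2 := ndN1q3) (pc := pcN3) (cut := Cut.none) (xt := Ext.none) (P1 := 0) (W1 := 536870912) (P2 := 1610612736) (W2 := 469762048) (P3 := 1046898278) (W3 := 26843546) (N0 := 3)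
    rfl k0_mm_033

noncomputable def f_mm_101 : ℕ → ℕ → ℕ → ℕ → Bool := onCell 536870912 536870912 536870912 536870912 1046898278 26843546
    (rowNX 3 0 false false false .npn 1 0 1 (qsf 536870912 536870912 536870912 536870912 0) ndN3q1 ndN1q1 pcN0 Cut.none Ext.none)

def k0_mm_101 : ∃ t, chk3 f_mm_101 t 1 1 1 = true :=
  ⟨(l 3), by decide +kernel⟩

theorem c_mm_101 : CertNX 536870912 536870912 536870912 536870912 1046898278 26843546 3 false false false .npn 1 0 1
    ndN3q1 ndN1q1 pcN0 Cut.none Ext.none :=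
  certNX0 (fam := false) (s1 := false) (s2 := false) (a := 1) (b := 0) (c := 1) (cn := .npn) (n1 := ndN3q1) (n2 := ndN1q1) (pc := pcN0) (cut := Cut.none) (xt := Ext.none) (P1 := 536870912) (W1 := 536870912) (P2 := 536870912) (W2 := 536870912) (P3 := 1046898278) (W3 := 26843546) (N0 := 3)
    rfl k0_mm_101

noncomputable def f_mm_102_a : ℕ → ℕ → ℕ → ℕ → Bool := onCell 536870912 536870912 0 420477299 1046898278 26843546
    (rowNX 3 0 false false false .npp 1 0 2 (qsf 536870912 536870912 0 420477299 0) ndN3q1 ndN1q2a pcN0 Cut.none Ext.none)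

def k0_mm_102_a : ∃ t, chk3 f_mm_102_a t 1 1 1 = true :=
  ⟨(l 5), by decide +kernel⟩

theorem c_mm_102_a : CertNX 536870912 536870912 0 420477299 1046898278 26843546 3 false false false .npp 1 0 2
    ndN3q1 ndN1q2a pcN0 Cut.none Ext.none :=
  certNX0 (fam := false) (s1 := false) (s2 := false) (a := 1) (b := 0) (c := 2) (cn := .npp) (n1 := ndN3q1) (n2 := ndN1q2a) (pc := pcN0) (cut := Cut.none) (xt := Ext.none) (P1 := 536870912) (W1 := 536870912) (P2 := 0) (W2 := 420477299) (P3 := 1046898278) (W3 := 26843546) (N0 := 3)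
    rfl k0_mm_102_a

noncomputable def f_mm_102_b : ℕ → ℕ → ℕ → ℕ → Bool := onCell 536870912 536870912 1239849684 370763052 1046898278 26843546
    (rowNX 3 0 false false false .npp 1 0 2 (qsf 536870912 536870912 1239849684 370763052 0) ndN3q1 ndN1q2b pcN0 Cut.none Ext.none)

def k0_mm_102_b : ∃ t, chk3 f_mm_102_b t 1 1 1 = true :=
  ⟨(l 5), by decide +kernel⟩

theorem c_mm_102_b : CertNX 536870912 536870912 1239849684 370763052 1046898278 26843546 3 false false false .npp 1 0 2
    ndN3q1 ndN1q2b pcN0 Cut.none Ext.none :=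
  certNX0 (fam := false) (s1 := false) (s2 := false) (a := 1) (b := 0) (c := 2) (cn := .npp) (n1 := ndN3q1) (n2 := ndN1q2b) (pc := pcN0) (cut := Cut.none) (xt := Ext.none) (P1 := 536870912) (W1 := 536870912) (P2 := 1239849684) (W2 := 370763052) (P3 := 1046898278) (W3 := 26843546) (N0 := 3)
    rfl k0_mm_102_b

noncomputable def f_mm_112_a : ℕ → ℕ → ℕ → ℕ → Bool := onCell 536870912 536870912 0 420477299 1046898278 26843546
    (rowNX 3 0 false false false .dn 1 1 2 (qsf 536870912 536870912 0 420477299 1) ndN3q1 ndN1q2a pcN1 Cut.none Ext.none)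

def k0_mm_112_a : ∃ t, chk3 f_mm_112_a t 1 1 1 = true :=
  ⟨(l 5), by decide +kernel⟩

theorem c_mm_112_a : CertNX 536870912 536870912 0 420477299 1046898278 26843546 3 false false false .dn 1 1 2
    ndN3q1 ndN1q2a pcN1 Cut.none Ext.none :=
  certNX0 (fam := false) (s1 := false) (s2 := false) (a := 1) (b := 1) (c := 2) (cn := .dn) (n1 := ndN3q1) (n2 := ndN1q2a) (pc := pcN1) (cut := Cut.none) (xt := Ext.none) (P1 := 536870912) (W1 := 536870912) (P2 := 0) (W2 := 420477299) (P3 := 1046898278) (W3 := 26843546) (N0 := 3)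
    rfl k0_mm_112_a

noncomputable def f_mm_112_b : ℕ → ℕ → ℕ → ℕ → Bool := onCell 536870912 536870912 1239849684 370763052 1046898278 26843546
    (rowNX 3 0 false false false .dn 1 1 2 (qsf 536870912 536870912 1239849684 370763052 1) ndN3q1 ndN1q2b pcN1 Cut.none Ext.none)

def k0_mm_112_b : ∃ t, chk3 f_mm_112_b t 1 1 1 = true :=
  ⟨(l 5), by decide +kernel⟩

theorem c_mm_112_b : CertNX 536870912 536870912 1239849684 370763052 1046898278 26843546 3 false false false .dn 1 1 2
    ndN3q1 ndN1q2b pcN1 Cut.none Ext.none :=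
  certNX0 (fam := false) (s1 := false) (s2 := false) (a := 1) (b := 1) (c := 2) (cn := .dn) (n1 := ndN3q1) (n2 := ndN1q2b) (pc := pcN1) (cut := Cut.none) (xt := Ext.none) (P1 := 536870912) (W1 := 536870912) (P2 := 1239849684) (W2 := 370763052) (P3 := 1046898278) (W3 := 26843546) (N0 := 3)
    rfl k0_mm_112_b

noncomputable def f_mm_113 : ℕ → ℕ → ℕ → ℕ → Bool := onCell 536870912 536870912 1610612736 469762048 1046898278 26843546
    (rowNX 3 0 false false false .nn 1 1 3 (qsf 536870912 536870912 1610612736 469762048 1) ndN3q1 ndN1q3 pcN1 Cut.none Ext.none)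

def k0_mm_113 : ∃ t, chk3 f_mm_113 t 1 1 1 = true :=
  ⟨(l 5), by decide +kernel⟩

theorem c_mm_113 : CertNX 536870912 536870912 1610612736 469762048 1046898278 26843546 3 false false false .nn 1 1 3
    ndN3q1 ndN1q3 pcN1 Cut.none Ext.none :=
  certNX0 (fam := false) (s1 := false) (s2 := false) (a := 1) (b := 1) (c := 3) (cn := .nn) (n1 := ndN3q1) (n2 := ndN1q3) (pc := pcN1) (cut := Cut.none) (xt := Ext.none) (P1 := 536870912) (W1 := 536870912) (P2 := 1610612736) (W2 := 469762048) (P3 := 1046898278) (W3 := 26843546) (N0 := 3)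
    rfl k0_mm_113

noncomputable def f_mm_123 : ℕ → ℕ → ℕ → ℕ → Bool := onCell 536870912 536870912 1610612736 469762048 1046898278 26843546
    (rowNX 3 0 false false false .npn 1 2 3 (qsf 536870912 536870912 1610612736 469762048 2) ndN3q1 ndN1q3 pcN2 Cut.none Ext.none)

def k0_mm_123 : ∃ t, chk3 f_mm_123 t 1 1 1 = true :=
  ⟨(l 5), by decide +kernel⟩

theorem c_mm_123 : CertNX 536870912 536870912 1610612736 469762048 1046898278 26843546 3 false false false .npn 1 2 3
    ndN3q1 ndN1q3 pcN2 Cut.none Ext.none :=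
  certNX0 (fam := false) (s1 := false) (s2 := false) (a := 1) (b := 2) (c := 3) (cn := .npn) (n1 := ndN3q1) (n2 := ndN1q3) (pc := pcN2) (cut := Cut.none) (xt := Ext.none) (P1 := 536870912) (W1 := 536870912) (P2 := 1610612736) (W2 := 469762048) (P3 := 1046898278) (W3 := 26843546) (N0 := 3)
    rfl k0_mm_123

noncomputable def f_mm_133 : ℕ → ℕ → ℕ → ℕ → Bool := onCell 536870912 536870912 1610612736 469762048 1046898278 26843546
    (rowNX 3 0 false false false .dn 1 3 3 (qsf 536870912 536870912 1610612736 469762048 3) ndN3q1 ndN1q3 pcN3 Cut.none Ext.none)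

def k0_mm_133 : ∃ t, chk3 f_mm_133 t 1 1 1 = true :=
  ⟨(l 1), by decide +kernel⟩

theorem c_mm_133 : CertNX 536870912 536870912 1610612736 469762048 1046898278 26843546 3 false false false .dn 1 3 3
    ndN3q1 ndN1q3 pcN3 Cut.none Ext.none :=
  certNX0 (fam := false) (s1 := false) (s2 := false) (a := 1) (b := 3) (c := 3) (cn := .dn) (n1 := ndN3q1) (n2 := ndN1q3) (pc := pcN3) (cut := Cut.none) (xt := Ext.none) (P1 := 536870912) (W1 := 536870912) (P2 := 1610612736) (W2 := 469762048) (P3 := 1046898278) (W3 := 26843546) (N0 := 3)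
    rfl k0_mm_133

noncomputable def f_mm_202_a : ℕ → ℕ → ℕ → ℕ → Bool := onCell 1073741824 536870912 0 420477299 1046898278 26843546
    (rowNX 3 0 false false false .pp 2 0 2 (qsf 1073741824 536870912 0 420477299 0) ndN3q2 ndN1q2a pcN0 Cut.none Ext.none)

def k0_mm_202_a : ∃ t, chk3 f_mm_202_a t 1 1 1 = true :=
  ⟨(l 3), by decide +kernel⟩

theorem c_mm_202_a : CertNX 1073741824 536870912 0 420477299 1046898278 26843546 3 false false false .pp 2 0 2
    ndN3q2 ndN1q2a pcN0 Cut.none Ext.none :=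
  certNX0 (fam := false) (s1 := false) (s2 := false) (a := 2) (b := 0) (c := 2) (cn := .pp) (n1 := ndN3q2) (n2 := ndN1q2a) (pc := pcN0) (cut := Cut.none) (xt := Ext.none) (P1 := 1073741824) (W1 := 536870912) (P2 := 0) (W2 := 420477299) (P3 := 1046898278) (W3 := 26843546) (N0 := 3)
    rfl k0_mm_202_a

noncomputable def f_mm_202_b : ℕ → ℕ → ℕ → ℕ → Bool := onCell 1073741824 536870912 1239849684 370763052 1046898278 26843546
    (rowNX 3 0 false false false .pp 2 0 2 (qsf 1073741824 536870912 1239849684 370763052 0) ndN3q2 ndN1q2b pcN0 Cut.none Ext.none)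

def k0_mm_202_b : ∃ t, chk3 f_mm_202_b t 1 1 1 = true :=
  ⟨(l 3), by decide +kernel⟩

theorem c_mm_202_b : CertNX 1073741824 536870912 1239849684 370763052 1046898278 26843546 3 false false false .pp 2 0 2
    ndN3q2 ndN1q2b pcN0 Cut.none Ext.none :=
  certNX0 (fam := false) (s1 := false) (s2 := false) (a := 2) (b := 0) (c := 2) (cn := .pp) (n1 := ndN3q2) (n2 := ndN1q2b) (pc := pcN0) (cut := Cut.none) (xt := Ext.none) (P1 := 1073741824) (W1 := 536870912) (P2 := 1239849684) (W2 := 370763052) (P3 := 1046898278) (W3 := 26843546) (N0 := 3)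
    rfl k0_mm_202_b

noncomputable def f_mm_203 : ℕ → ℕ → ℕ → ℕ → Bool := onCell 1073741824 536870912 1610612736 469762048 1046898278 26843546
    (rowNX 3 0 false false false .up 2 0 3 (qsf 1073741824 536870912 1610612736 469762048 0) ndN3q2 ndN1q3 pcN0 Cut.none Ext.none)

def k0_mm_203 : ∃ t, chk3 f_mm_203 t 1 1 1 = true :=
  ⟨(l 3), by decide +kernel⟩

theorem c_mm_203 : CertNX 1073741824 536870912 1610612736 469762048 1046898278 26843546 3 false false false .up 2 0 3
    ndN3q2 ndN1q3 pcN0 Cut.none Ext.none :=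
  certNX0 (fam := false) (s1 := false) (s2 := false) (a := 2) (b := 0) (c := 3) (cn := .up) (n1 := ndN3q2) (n2 := ndN1q3) (pc := pcN0) (cut := Cut.none) (xt := Ext.none) (P1 := 1073741824) (W1 := 536870912) (P2 := 1610612736) (W2 := 469762048) (P3 := 1046898278) (W3 := 26843546) (N0 := 3)
    rfl k0_mm_203

noncomputable def f_mm_213 : ℕ → ℕ → ℕ → ℕ → Bool := onCell 1073741824 536870912 1610612736 469762048 1046898278 26843546
    (rowNX 3 0 false false false .pnn 2 1 3 (qsf 1073741824 536870912 1610612736 469762048 1) ndN3q2 ndN1q3 pcN1 Cut.none Ext.none)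

def k0_mm_213 : ∃ t, chk3 f_mm_213 t 1 1 1 = true :=
  ⟨(l 3), by decide +kernel⟩

theorem c_mm_213 : CertNX 1073741824 536870912 1610612736 469762048 1046898278 26843546 3 false false false .pnn 2 1 3
    ndN3q2 ndN1q3 pcN1 Cut.none Ext.none :=
  certNX0 (fam := false) (s1 := false) (s2 := false) (a := 2) (b := 1) (c := 3) (cn := .pnn) (n1 := ndN3q2) (n2 := ndN1q3) (pc := pcN1) (cut := Cut.none) (xt := Ext.none) (P1 := 1073741824) (W1 := 536870912) (P2 := 1610612736) (W2 := 469762048) (P3 := 1046898278) (W3 := 26843546) (N0 := 3)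
    rfl k0_mm_213

noncomputable def f_mm_303 : ℕ → ℕ → ℕ → ℕ → Bool := onCell 1610612736 536870912 1610612736 469762048 1046898278 26843546
    (rowNX 3 0 false false false .npn 3 0 3 (qsf 1610612736 536870912 1610612736 469762048 0) ndN3q3 ndN1q3 pcN0 Cut.none Ext.none)

def k0_mm_303 : ∃ t, chk3 f_mm_303 t 1 1 1 = true :=
  ⟨(l 3), by decide +kernel⟩

theorem c_mm_303 : CertNX 1610612736 536870912 1610612736 469762048 1046898278 26843546 3 false false false .npn 3 0 3
    ndN3q3 ndN1q3 pcN0 Cut.none Ext.none :=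
  certNX0 (fam := false) (s1 := false) (s2 := false) (a := 3) (b := 0) (c := 3) (cn := .npn) (n1 := ndN3q3) (n2 := ndN1q3) (pc := pcN0) (cut := Cut.none) (xt := Ext.none) (P1 := 1610612736) (W1 := 536870912) (P2 := 1610612736) (W2 := 469762048) (P3 := 1046898278) (W3 := 26843546) (N0 := 3)
    rfl k0_mm_303

noncomputable def f_mm_313 : ℕ → ℕ → ℕ → ℕ → Bool := onCell 1610612736 536870912 1610612736 469762048 1046898278 26843546
    (rowNX 3 0 false false false .dn 3 1 3 (qsf 1610612736 536870912 1610612736 469762048 1) ndN3q3 ndN1q3 pcN1 Cut.none Ext.none)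

def k0_mm_313 : ∃ t, chk3 f_mm_313 t 1 1 1 = true :=
  ⟨(l 1), by decide +kernel⟩

theorem c_mm_313 : CertNX 1610612736 536870912 1610612736 469762048 1046898278 26843546 3 false false false .dn 3 1 3
    ndN3q3 ndN1q3 pcN1 Cut.none Ext.none :=
  certNX0 (fam := false) (s1 := false) (s2 := false) (a := 3) (b := 1) (c := 3) (cn := .dn) (n1 := ndN3q3) (n2 := ndN1q3) (pc := pcN1) (cut := Cut.none) (xt := Ext.none) (P1 := 1610612736) (W1 := 536870912) (P2 := 1610612736) (W2 := 469762048) (P3 := 1046898278) (W3 := 26843546) (N0 := 3)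
    rfl k0_mm_313

end Pool.Agent.Strip051.G.IE1.Tab.C.NB31

namespace Pool.Agent.Strip051.G.IE1.Tab.C.NB32

open Pool.Agent.Strip051.PB Pool.Agent.Strip051.PB.T
open Pool.Agent.Strip051.G.IE1.Tab

noncomputable def f_pp_001 : ℕ → ℕ → ℕ → ℕ → Bool := onCell 0 536870912 536870912 536870912 1046898278 26843546
    (rowNX 3 0 false true true .up 0 0 1 (qsf 0 536870912 536870912 536870912 0) ndN3q0 ndN2q1 pcN0 Cut.none Ext.none)

def k0_pp_001 : ∃ t, chk3 f_pp_001 t 1 1 1 = true :=
  ⟨(l 3), by decide +kernel⟩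

theorem c_pp_001 : CertNX 0 536870912 536870912 536870912 1046898278 26843546 3 false true true .up 0 0 1
    ndN3q0 ndN2q1 pcN0 Cut.none Ext.none :=
  certNX0 (fam := false) (s1 := true) (s2 := true) (a := 0) (b := 0) (c := 1) (cn := .up) (n1 := ndN3q0) (n2 := ndN2q1) (pc := pcN0) (cut := Cut.none) (xt := Ext.none) (P1 := 0) (W1 := 536870912) (P2 := 536870912) (W2 := 536870912) (P3 := 1046898278) (W3 := 26843546) (N0 := 3)
    rfl k0_pp_001

noncomputable def f_pp_011 : ℕ → ℕ → ℕ → ℕ → Bool := onCell 0 536870912 536870912 536870912 1046898278 26843546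
    (rowNX 3 0 false true true .pnn 0 1 1 (qsf 0 536870912 536870912 536870912 1) ndN3q0 ndN2q1 pcN1 Cut.none Ext.none)

def k0_pp_011 : ∃ t, chk3 f_pp_011 t 1 1 1 = true :=
  ⟨(l 3), by decide +kernel⟩

theorem c_pp_011 : CertNX 0 536870912 536870912 536870912 1046898278 26843546 3 false true true .pnn 0 1 1
    ndN3q0 ndN2q1 pcN1 Cut.none Ext.none :=
  certNX0 (fam := false) (s1 := true) (s2 := true) (a := 0) (b := 1) (c := 1) (cn := .pnn) (n1 := ndN3q0) (n2 := ndN2q1) (pc := pcN1) (cut := Cut.none) (xt := Ext.none) (P1 := 0) (W1 := 536870912) (P2 := 536870912) (W2 := 536870912) (P3 := 1046898278) (W3 := 26843546) (N0 := 3)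
    rfl k0_pp_011

noncomputable def f_pp_012_a : ℕ → ℕ → ℕ → ℕ → Bool := onCell 536870912 536870912 0 420477299 1046898278 26843546
    (rowNX 3 2 false true true .pnp 0 1 2 (qsf 0 536870912 0 420477299 1) ndN3q0 ndN2q2a pcN1 Cut.none Ext.none)

def k0_pp_012_a : ∃ t, chk3 f_pp_012_a t 2 1 1 = true :=
  ⟨(b (a (l 2) (b (l 16400216) (l 16398760))) (b (a (l 16554784) (l 16554784)) (a (b (a (l 2) (c (l 16714568) (l 16712360))) (a (c (l 16271552) (l 16253744)) (c (l 16271552) (l 16253744)))) (b (a (c (l 16714568) (l 16712360)) (l 16608608)) (a (c (l 16271552) (l 16253744)) (l 16199720)))))), by decide +kernel⟩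

def k1_pp_012_a : ∃ t, chk3 f_pp_012_a t 6 1 1 = true :=
  ⟨(b (a (b (l 16415192) (l 16412328)) (b (l 16488584) (a (l 16480536) (l 16556216)))) (b (a (l 16566896) (a (l 16627112) (l 16697536))) (a (b (a (l 16713504) (l 16608112)) (a (l 16262664) (l 16282416))) (b (a (l 16529424) (a (l 16611048) (b (l 16582056) (l 16476296)))) (a (l 16255288) (a (l 16190568) (b (l 16356848) (l 16221816)))))))), by decide +kernel⟩

def k2_pp_012_a : ∃ t, chk3 f_pp_012_a t 7 2 1 = true :=
  ⟨(a (b (a (l 16483160) (l 16175176)) (a (l 16524984) (l 15994320))) (b (a (l 15936640) (l 15748880)) (a (l 16040480) (b (l 15853888) (l 15902192))))), by decide +kernel⟩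

def k3_pp_012_a : ∃ t, chk3 f_pp_012_a t 14 3 1 = true :=
  ⟨(b (a (b (l 16490440) (l 16447800)) (l 16139704)) (b (a (b (l 16270128) (l 16307288)) (b (l 16203032) (l 16106136))) (a (b (l 16195808) (l 16059240)) (a (l 15944488) (b (l 15943872) (l 15830456)))))), by decide +kernel⟩

def k4_pp_012_a : ∃ t, chk3 f_pp_012_a t 15 3 1 = true :=
  ⟨(b (a (l 15969168) (b (l 15954416) (l 16014024))) (a (a (b (b (l 16073120) (l 15987816)) (b (l 15892360) (l 15779696))) (b (a (l 16002640) (c (b (l 16051664) (l 15974272)) (l 15986360))) (a (l 15794808) (c (b (l 15863752) (a (l 15733176) (l 15759064))) (b (l 15831736) (l 15716632)))))) (b (b (b (l 16051952) (a (c (a (c (c (l 16052976) (l 16046856)) (l 16037584)) (c (l 16051560) (c (l 16042760) (l 16036696)))) (l 16020064)) (c (a (l 16048632) (l 16080192)) (a (c (a (l 16030056) (c (l 16035024) (l 16029080))) (l 16018848)) (c (l 16063576) (a (l 15962376) (c (l 16069512) (l 15959080)))))))) (a (c (a (c (c (l 15988112) (l 15980368)) (l 15968584)) (c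 (l 15984800) (c (l 15954696) (l 15968296)))) (l 15949120)) (c (a (c (l 16022776) (l 15927368)) (l 16140528)) (a (c (a (l 15971056) (c (l 16013640) (l 16007536))) (l 15985688)) (c (l 16125712) (a (c (l 15985024) (l 16063392)) (c (l 16163728) (l 16012088)))))))) (a (c (c (a (b (a (l 15876888) (c (l 15889432) (l 15878752))) (a (c (l 15641800) (l 15813384)) (c (l 15906480) (l 15894096)))) (b (a (l 15909304) (l 15961296)) (l 16032312))) (a (b (l 15860792) (l 15843584)) (b (a (c (l 15899464) (l 15888000)) (c (l 15954576) (l 15946232))) (a (l 15910880) (c (l 16074592) (l 16066440)))))) (b (a (l 15836912) (l 15905976)) (a (l 15818992) (l 15997064)))) (c (a (a (b (l 16033400) (l 16123968)) (l 16194024)) (b (l 16271800) (l 16400200))) (a (c (a (b (l 16016096) (l 16068960)) (c (l 16184864) (b (l 16111280) (l 16206136)))) (l 16037976)) (c (a (l 16069648) (l 16354800)) (a (c (b (l 16120672) (a (l 16317808) (l 16323952))) (l 16270040)) (c (l 16246000) (a (b (l 16275656) (l 16412224)) (b (l 16305984)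 (l 16337008)))))))))))), by decide +kernel⟩

theorem s5_pp_012_a : ∃ t, chk3 f_pp_012_a t 7 3 1 = true := ex3_a k3_pp_012_a k4_pp_012_a

theorem s6_pp_012_a : ∃ t, chk3 f_pp_012_a t 7 1 1 = true := ex3_b k2_pp_012_a s5_pp_012_a

theorem s7_pp_012_a : ∃ t, chk3 f_pp_012_a t 3 1 1 = true := ex3_a k1_pp_012_a s6_pp_012_a

theorem s8_pp_012_a : ∃ t, chk3 f_pp_012_a t 1 1 1 = true := ex3_a k0_pp_012_a s7_pp_012_a

theorem c_pp_012_a : CertNX 0 536870912 0 420477299 1046898278 26843546 3 false true true .pnp 0 1 2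
    ndN3q0 ndN2q2a pcN1 Cut.none Ext.none :=
  certNX2 (fam := false) (s1 := true) (s2 := true) (a := 0) (b := 1) (c := 2) (cn := .pnp) (n1 := ndN3q0) (n2 := ndN2q2a) (pc := pcN1) (cut := Cut.none) (xt := Ext.none) (P1 := 0) (W1 := 536870912) (P2 := 0) (W2 := 420477299) (P3 := 1046898278) (W3 := 26843546) (N0 := 3)
    rfl (fun _ => rfl) s8_pp_012_a

noncomputable def f_pp_012_b : ℕ → ℕ → ℕ → ℕ → Bool := onCell 536870912 536870912 1239849684 370763052 1046898278 26843546
    (rowNX 3 2 false true true .pnp 0 1 2 (qsf 0 536870912 1239849684 370763052 1) ndN3q0 ndN2q2b pcN1 Cut.none Ext.none)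

def k0_pp_012_b : ∃ t, chk3 f_pp_012_b t 1 1 1 = true :=
  ⟨(a (a (l 2) (b (b (l 16655936) (l 16777216)) (l 2))) (a (b (a (b (b (l 16570024) (l 16759464)) (l 16745384)) (b (a (l 16679736) (b (l 16628168) (l 16480912))) (l 16513632))) (a (l 2) (a (l 16550800) (l 16366016)))) (b (a (b (a (l 16124120) (b (l 16007064) (l 15816256))) (l 15932720)) (b (b (a (b (l 15778080) (l 15616248)) (b (l 15560656) (l 15339016))) (a (l 15458120) (b (l 15155040) (l 15058736)))) (a (l 15375560) (l 14996816)))) (a (b (l 15877048) (l 15774960)) (b (l 15098384) (a (l 15156424) (l 14718392))))))), by decide +kernel⟩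

theorem c_pp_012_b : CertNX 0 536870912 1239849684 370763052 1046898278 26843546 3 false true true .pnp 0 1 2
    ndN3q0 ndN2q2b pcN1 Cut.none Ext.none :=
  certNX2 (fam := false) (s1 := true) (s2 := true) (a := 0) (b := 1) (c := 2) (cn := .pnp) (n1 := ndN3q0) (n2 := ndN2q2b) (pc := pcN1) (cut := Cut.none) (xt := Ext.none) (P1 := 0) (W1 := 536870912) (P2 := 1239849684) (W2 := 370763052) (P3 := 1046898278) (W3 := 26843546) (N0 := 3)
    rfl (fun _ => rfl) k0_pp_012_b

noncomputable def f_pp_022_a : ℕ → ℕ → ℕ → ℕ → Bool := onCell 0 536870912 0 420477299 1046898278 26843546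
    (rowNX 3 0 false true true .pp 0 2 2 (qsf 0 536870912 0 420477299 2) ndN3q0 ndN2q2a pcN2 Cut.none Ext.none)

def k0_pp_022_a : ∃ t, chk3 f_pp_022_a t 2 2 1 = true :=
  ⟨(a (b (a (c (a (a (a (l 15634288) (b (a (l 15924888) (l 16040632)) (a (l 15864632) (l 15956960)))) (b (l 16107488) (l 16054952))) (b (l 16084440) (l 16028400))) (a (a (a (b (l 15717536) (l 15695648)) (b (a (l 15950200) (l 16044168)) (a (b (l 15985760) (l 16015704)) (l 15896552)))) (b (l 16105008) (l 16050168))) (b (l 16068288) (l 16009824)))) (a (a (a (l 16022632) (l 16240344)) (l 16347288)) (a (l 15924120) (l 16054616)))) (a (a (b (a (a (c (b (l 15898456) (a (l 15968664) (l 16014104))) (a (b (l 15822880) (l 15932640)) (b (l 15918976) (l 15980304)))) (a (c (l 16006792) (l 15950912)) (l 16006648))) (c (l 16012496) (l 16005600))) (a (a (a (b (c (l 16045688) (l 15991432)) (b (a (c (l 15989832) (l 16015424)) (l 16034016)) (c (c (l 16012536) (l 16003232)) (c (l 15994488) (l 15995520))))) (b (l 15897088) (c (b (l 16009032)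 (c (l 15998496) (l 15991624))) (c (l 16004024) (l 16014080))))) (c (l 15992096) (l 16010608))) (c (l 15988736) (l 15980280)))) (b (a (l 15985808) (l 15967968)) (a (l 15958680) (l 15942352)))) (a (a (b (l 16086944) (l 16111584)) (b (l 16533624) (l 16513816))) (b (l 16030856) (a (l 16314464) (l 16260504)))))) (a (b (a (b (l 15883456) (l 15994008)) (l 1)) (a (b (l 16095688) (l 16185736)) (l 1))) (l 1))), by decide +kernel⟩

def k1_pp_022_a : ∃ t, chk3 f_pp_022_a t 16 12 1 = true :=
  ⟨(a (c (b (a (c (b (a (l 15932576) (l 15961632)) (l 15866000)) (a (l 15879744) (l 15831880))) (c (a (b (l 15956312) (l 15915864)) (b (l 15960608) (l 15943048))) (a (b (l 15972136) (l 15930632)) (l 15915400)))) (a (c (l 15744848) (l 15731576)) (c (a (l 15794856) (l 15797656)) (a (l 15807112) (l 15891752))))) (a (c (b (a (l 15868416) (l 15861888)) (l 15728864)) (b (a (l 15866832) (l 15932880)) (l 15663912))) (b (c (a (b (l 15996600) (l 15954048)) (l 15984248)) (b (l 15984280) (l 15955400))) (c (l 15759216) (l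 15854536))))) (b (c (l 15971640) (l 15961928)) (a (a (c (b (c (l 15952008) (l 15970552)) (l 15740704)) (b (l 15954720) (l 15902248))) (b (l 15961904) (a (c (b (l 15964264) (l 15893872)) (b (l 15948016) (l 15918376))) (c (b (b (l 15971576) (l 15968640)) (l 15958592)) (b (l 15948632) (l 15937704)))))) (a (a (b (l 15954560) (c (l 15961776) (l 15939784))) (l 15954096)) (l 15946616))))), by decide +kernel⟩

def k2_pp_022_a : ∃ t, chk3 f_pp_022_a t 32 13 1 = true :=
  ⟨(c (a (b (c (c (l 15590112) (l 15581056)) (l 15506112)) (b (c (l 15468376) (l 15449416)) (a (c (l 15374200) (l 15351680)) (a (b (l 15408464) (c (b (l 15392328) (l 15378752)) (l 15363976))) (c (b (b (l 15446400) (l 15431480)) (l 15415832)) (b (l 15421792) (l 15397520))))))) (b (a (c (l 15637872) (l 15646864)) (b (l 15645224) (b (c (l 15640336) (l 15709912)) (a (a (l 15627592) (l 15566192)) (l 15684352))))) (b (a (b (c (a (l 15528096) (l 15553256)) (l 15549944)) (c (a (l 15492584) (l 15524424)) (a (l 15490872) (l 15540944))))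 (c (l 15585152) (l 15632152))) (c (a (c (l 15477096) (l 15473256)) (l 15563224)) (a (l 15482344) (l 15588312)))))) (b (a (c (l 15479088) (l 15347840)) (a (c (l 15664424) (l 15652800)) (b (l 15759704) (c (a (l 15676792) (l 15708824)) (l 15674408))))) (a (a (c (l 15369552) (l 15315872)) (b (c (l 15467256) (l 15466024)) (c (a (b (l 15387368) (l 15353000)) (b (l 15427328) (l 15402544))) (c (l 15399760) (l 15389840))))) (c (b (a (b (l 15565512) (l 15532488)) (l 15630584)) (a (l 15496488) (l 15585792))) (b (a (l 15473088) (l 15610968)) (l 15524768)))))), by decide +kernel⟩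

def k3_pp_022_a : ∃ t, chk3 f_pp_022_a t 33 13 1 = true :=
  ⟨(b (a (c (b (a (c (a (l 15800984) (l 15801608)) (a (l 15823760) (l 15855656))) (c (l 15897480) (l 15897768))) (c (a (l 15757064) (l 15834936)) (l 15803008))) (b (a (c (l 15806016) (l 15811456)) (l 15875656)) (c (l 15788776) (l 15773000)))) (c (c (b (a (l 15944792) (l 15950576)) (a (l 15892688) (l 15930440))) (b (a (l 15935920) (l 15939024)) (l 15816056))) (c (b (a (l 15921512) (l 15925848)) (l 15885896)) (b (l 15906008) (l 15872328))))) (c (c (a (c (l 15549008) (l 15642568)) (b (l 15863872) (l 15824200))) (a (c (l 15729552) (l 15724976)) (l 15808376))) (c (a (c (l 15715064) (l 15705304)) (l 15813728)) (a (l 15693040) (l 15798560))))), by decide +kernel⟩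

def k4_pp_022_a : ∃ t, chk3 f_pp_022_a t 17 6 1 = true :=
  ⟨(b (a (l 15933216) (l 15922272)) (a (b (b (l 15918712) (a (a (c (b (l 15935304) (l 15927744)) (l 15904792)) (l 15915312)) (l 15907872))) (a (c (c (b (a (l 15916208) (l 15922560)) (l 15889064)) (b (l 15840552) (l 15875320))) (b (a (l 15884376) (l 15888912)) (c (l 15861400) (l 15846752)))) (a (b (l 15903616) (b (c (l 15907888) (l 15880752)) (c (c (l 15887496) (l 15894728)) (l 15873976)))) (l 15896240)))) (l 15858384))), by decide +kernel⟩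

def k5_pp_022_a : ∃ t, chk3 f_pp_022_a t 32 14 1 = true :=
  ⟨(b (c (a (b (a (c (b (a (l 15308248) (c (b (l 15322928) (l 15311160)) (l 15327264))) (a (b (c (l 15269072) (l 15256984)) (c (l 15261392) (l 15249224))) (l 15296504))) (b (a (l 15284416) (l 15309680)) (a (b (l 15259664) (l 15251776)) (l 15293752)))) (c (c (l 15383104) (l 15371872)) (c (l 15360576) (l 15352600)))) (c (c (a (l 15320224) (l 15394536)) (a (l 15308376) (l 15383368))) (c (l 15335584) (l 15325912)))) (c (b (a (c (l 15447104) (l 15442928)) (l 15449808)) (a (c (l 15458816) (l 15454696)) (l 15545720))) (b (a (l 15451504) (l 15558104)) (a (l 15463352) (l 15570240))))) (a (b (a (c (b (a (l 15260272) (l 15286640)) (a (l 15231896) (l 15270360))) (b (a (l 15238032) (l 15275352)) (a (l 15209064) (l 15258720)))) (c (l 15355064) (l 15351512))) (c (a (l 15266976) (l 15366760)) (a (l 15253064) (l 15363320)))) (c (b (c (l 15513976) (l 15509528)) (c (l 15526064) (l 15521672))) (b (l 15492856) (l 15505088))))) (c (b (a (c (c (a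 (l 15366024) (l 15440256)) (a (l 15354560) (l 15429472))) (c (l 15382120) (l 15309928))) (c (a (c (l 15504488) (l 15500736)) (l 15591536)) (a (l 15509968) (l 15616800)))) (a (c (c (a (l 15432616) (l 15506416)) (a (l 15421728) (l 15496200))) (c (l 15386744) (a (l 15399752) (l 15478944)))) (c (a (c (l 15570240) (l 15567048)) (l 15657192)) (a (l 15577120) (l 15683560))))) (a (c (c (a (l 15352416) (l 15401112)) (a (l 15341816) (l 15447592))) (c (a (l 15336648) (l 15450096)) (a (l 15247600) (l 15440456)))) (c (c (b (l 15573232) (l 15641040)) (l 15412872)) (b (l 15553208) (l 15622440)))))), by decide +kernel⟩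

def k6_pp_022_a : ∃ t, chk3 f_pp_022_a t 33 14 1 = true :=
  ⟨(c (b (c (a (b (c (l 15669056) (l 15678184)) (c (l 15681528) (l 15690712))) (b (l 15796840) (l 15809992))) (a (b (l 15572408) (l 15668904)) (b (l 15782440) (l 15795696)))) (a (c (b (c (l 15727160) (l 15736704)) (a (l 15756080) (b (l 15818352) (a (l 15839136) (l 15873840))))) (b (l 15694480) (a (l 15769568) (l 15813416)))) (b (a (c (l 15832496) (l 15820576)) (c (b (l 15862816) (a (l 15879376) (l 15894120))) (b (l 15848672) (l 15872840)))) (a (c (b (a (l 15866880) (l 15888888)) (a (l 15899024) (l 15915920))) (b (l 15865632) (l 15896232))) (c (l 15922160) (l 15910088)))))) (b (c (a (b (l 15660272) (l 15672992)) (b (l 15765728) (l 15779096))) (b (a (l 15641680) (l 15749456)) (a (l 15654512) (l 15762936)))) (a (a (c (l 15719720) (l 15701304)) (b (l 15679128) (c (l 15816856) (l 15800472)))) (b (a (l 15795952) (b (l 15805496) (a (l 15843472) (l 15859336)))) (a (c (b (l 15848872) (l 15879968)) (b (l 15833776) (l 15865376))) (l 15889328)))))),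 by decide +kernel⟩

def k7_pp_022_a : ∃ t, chk3 f_pp_022_a t 32 30 1 = true :=
  ⟨(c (a (c (b (c (a (l 15521408) (l 15594400)) (a (l 15511296) (l 15584944))) (c (a (l 15633848) (l 15705632)) (a (l 15624728) (l 15697152)))) (c (b (a (l 15501128) (l 15575424)) (a (l 15615552) (l 15688608))) (b (a (l 15490888) (l 15569232)) (a (l 15606312) (l 15683400))))) (a (c (b (c (l 15657448) (l 15655008)) (c (l 15767472) (l 15766016))) (b (l 15645240) (c (l 15771440) (l 15784312)))) (b (c (l 15744008) (l 15771872)) (c (b (a (l 15798264) (l 15741952)) (a (b (l 15842536) (l 15827632)) (l 15894736))) (b (a (l 15829456) (l 15876544)) (a (l 15824528) (l 15925744))))))) (a (c (a (b (l 15434120) (c (l 15597000) (l 15588528))) (c (b (l 15570120) (l 15685272)) (b (l 15575752) (l 15691896)))) (c (a (b (l 15467032) (l 15585488)) (l 15573000)) (a (b (l 15462984) (l 15582472)) (l 15627864)))) (b (c (a (l 15683208) (l 15772152)) (l 15651296)) (a (c (l 15734688) (l 15787360)) (b (c (l 15853536) (l 15837184)) (a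 (c (l 15895160) (l 15878360)) (l 15810432))))))), by decide +kernel⟩

def k8_pp_022_a : ∃ t, chk3 f_pp_022_a t 32 31 2 = true :=
  ⟨(a (a (c (b (c (c (b (l 15736336) (a (l 15789632) (l 15829912))) (l 15769472)) (l 15763528)) (b (c (a (c (l 15875040) (l 15868624)) (c (b (l 15888928) (a (l 15922888) (a (l 15935592) (l 15943520)))) (l 15907264))) (a (l 15865840) (l 15902224))) (c (a (b (a (l 15931160) (a (l 15944280) (c (l 15955232) (l 15949720)))) (b (a (l 15966080) (c (l 15979520) (l 15976104))) (a (a (l 15983008) (l 15989704)) (l 15995328)))) (c (b (a (b (a (l 15952768) (l 15958896)) (l 15973360)) (l 15971104)) (l 15997824)) (b (b (l 15957176) (l 15973128)) (l 15994344)))) (a (b (l 15932320) (a (c (b (l 15958704) (a (l 15976240) (l 15982984))) (l 15966072)) (l 15979952))) (l 15975456))))) (b (c (l 15755568) (l 15747552)) (b (c (l 15835304) (l 15870296)) (a (b (l 15922568) (l 15963808)) (l 15966256))))) (b (c (b (l 15801088) (a (l 15859344) (b (l 15871944) (a (l 15901536) (l 15911256)))))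 (b (l 15788352) (a (l 15845024) (b (l 15861368) (l 15895856))))) (b (c (a (b (a (l 15911024) (l 15923736)) (l 15949232)) (l 15947640)) (a (b (l 15903488) (l 15936880)) (l 15939392))) (c (c (c (a (l 15991864) (l 16003120)) (l 15999480)) (l 15996416)) (l 15990056))))) (b (a (c (b (a (b (l 15829504) (l 15863464)) (c (b (l 15858808) (l 15885152)) (l 15874528))) (a (c (l 15909168) (l 15903704)) (l 15923904))) (b (a (l 15808160) (l 15896576)) (a (l 15911624) (l 15948248)))) (c (c (l 15933576) (l 15953344)) (l 15976992))) (c (c (a (l 15989528) (l 16029072)) (a (l 15996120) (l 16054264))) (a (l 16012512) (l 16081936))))), by decide +kernel⟩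

def k9_pp_022_a : ∃ t, chk3 f_pp_022_a t 32 31 3 = true :=
  ⟨(a (b (c (a (c (l 15739472) (l 15732240)) (a (l 15802832) (b (l 15817400) (b (l 15874176) (l 15909264))))) (a (c (l 15730448) (l 15644792)) (b (l 15797136) (a (l 15850960) (c (l 15902064) (l 15893224)))))) (a (c (c (b (l 15863288) (a (l 15869464) (l 15956968))) (b (l 15815184) (a (l 15904952) (l 15952104)))) (b (a (l 15828568) (c (l 15879880) (l 15882664))) (a (c (l 15835888) (a (l 15907048) (l 15886432))) (c (l 15956304) (l 15959736))))) (c (b (a (b (l 15901648) (l 15935608)) (l 15953528)) (l 15998432)) (b (a (c (l 15930416) (l 15925800)) (l 15961752)) (l 16005816))))) (a (b (c (b (a (l 15875184) (l 15917472)) (l 15889288)) (b (a (l 15868136) (l 15903776)) (l 15944600))) (c (l 16035432) (l 16029216))) (c (l 15949464) (l 15978072)))), by decide +kernel⟩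

def k10_pp_022_a : ∃ t, chk3 f_pp_022_a t 33 15 1 = true :=
  ⟨(c (b (a (b (a (a (c (l 15817648) (l 15839696)) (b (l 15845056) (c (b (l 15875384) (l 15896016)) (l 15896840)))) (c (b (a (b (l 15870424) (l 15890408)) (l 15908528)) (l 15927072)) (b (a (l 15881384) (l 15902768)) (l 15927704)))) (c (a (b (a (b (l 15878816) (l 15899592)) (l 15923320)) (l 15945744)) (l 15958920)) (a (b (l 15860112) (l 15964344)) (l 15983744)))) (c (c (l 15912552) (l 15955416)) (b (l 15955432) (l 16027152)))) (c (a (c (b (l 16026008) (l 16118472)) (b (l 16044840) (l 16141688))) (b (l 16110536) (l 16202280))) (a (c (b (l 16053304) (l 16154408)) (l 16102552)) (b (l 16111952) (l 16168296))))) (b (a (a (b (b (l 15811744) (a (l 15823992) (a (l 15826320) (l 15880856)))) (c (b (l 15911312) (l 15953304)) (l 15916888))) (b (b (c (l 15833000) (l 15859528)) (l 15904960)) (l 15962384))) (c (l 15976808) (l 15963768))) (c (a (b (l 16040560) (l 16145824)) (l 16027464)) (a (l 15955032) (l 16143128))))), by decide +kernel⟩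

def k11_pp_022_a : ∃ t, chk3 f_pp_022_a t 17 14 1 = true :=
  ⟨(b (a (a (c (b (a (l 15843576) (b (l 15874256) (a (l 15859216) (c (l 15876536) (l 15862096))))) (a (b (l 15785336) (c (a (l 15866480) (l 15879368)) (l 15858600))) (c (b (a (l 15874512) (l 15883176)) (l 15893088)) (l 15871592)))) (b (a (l 15815544) (b (l 15845400) (l 15835032))) (a (b (l 15820184) (l 15795904)) (l 15849672)))) (c (b (b (a (a (l 15782880) (l 15894928)) (l 15896024)) (c (l 15829136) (l 15878768))) (c (l 15904976) (l 15892360))) (b (a (b (l 15862872) (l 15851592)) (l 15864608)) (l 15871064)))) (a (c (c (b (l 15878536) (l 15916440)) (b (l 15886440) (l 15903680))) (b (l 15864304) (l 15882080))) (l 15892872))) (a (c (a (c (b (a (b (l 15891136) (l 15910440)) (l 15918632)) (l 15953096)) (b (l 15897144) (l 15942856))) (c (l 15873976) (l 15927008))) (a (b (a (l 15867032) (l 15884800)) (l 15924648)) (l 15928408))) (c (c (a (l 15976760) (b (l 15956272) (l 15998440))) (a (b (l 15940808) (l 15985600)) (l 15944112))) (a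 (l 15842544) (c (l 15952480) (l 15939424)))))), by decide +kernel⟩

def k12_pp_022_a : ∃ t, chk3 f_pp_022_a t 17 15 1 = true :=
  ⟨(c (a (b (c (a (b (l 16007160) (l 16072416)) (l 16064208)) (a (c (l 16036200) (l 16031624)) (c (l 16062200) (l 16059232)))) (c (a (l 16068176) (b (l 16173600) (l 16265160))) (a (c (l 16198472) (l 16136136)) (b (l 16175512) (l 16268144))))) (b (c (a (l 15910680) (b (l 16047496) (c (l 16116256) (l 16111704)))) (a (l 16073064) (l 16055648))) (a (c (b (l 16188744) (a (l 16278592) (l 16284400))) (b (l 16186080) (a (l 16276928) (l 16279984)))) (c (b (a (l 16192512) (l 16191584)) (a (l 16287608) (l 16287048))) (b (a (l 16185752) (l 16183152)) (a (l 16280888) (l 16279264))))))) (a (b (c (a (l 16023496) (l 16051880)) (l 16028016)) (c (a (b (l 16147168) (l 16247752)) (l 16073608)) (a (l 16187632) (l 16214720)))) (b (c (a (l 16064552) (b (l 16027064) (l 16097688))) (a (l 16054112) (l 16057456))) (c (a (b (l 16182760) (l 16278096)) (b (l 16179104) (a (l 16276392) (l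 16251488)))) (a (l 16225032) (b (l 16172176) (c (l 16229456) (l 16268800)))))))), by decide +kernel⟩

def k13_pp_022_a : ∃ t, chk3 f_pp_022_a t 9 3 1 = true :=
  ⟨(b (a (a (b (l 16114776) (l 16068240)) (b (l 16490208) (l 16439680))) (a (b (l 16354856) (l 16479528)) (l 16257072))) (a (b (a (b (l 15909448) (l 16100920)) (b (l 16373696) (l 16491632))) (a (a (b (c (b (c (a (l 16087728) (l 16170144)) (l 16098304)) (c (a (l 16148960) (l 16224320)) (a (l 16139128) (l 16215352)))) (c (b (l 16108904) (a (l 16129824) (l 16206408))) (b (l 16098328) (l 16158944)))) (c (b (c (l 16264640) (l 16172328)) (l 16272704)) (c (b (a (l 16210768) (l 16284264)) (l 16324544)) (b (c (l 16053904) (l 16133968)) (a (b (l 16274520) (l 16328000)) (l 16375232)))))) (a (b (b (l 16246104) (b (l 16279600) (c (l 16312784) (c (l 16301312) (l 16293680))))) (b (c (l 16366296) (c (l 16356136) (l 16202536))) (l 1))) (b (l 16361056) (l 1)))) (b (l 16555840) (l 1)))) (b (a (b (l 16517368) (l 16565072)) (l 1)) (l 1)))), by decide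 +kernel⟩

def k14_pp_022_a : ∃ t, chk3 f_pp_022_a t 5 3 1 = true :=
  ⟨(b (a (a (b (l 16288416) (l 1)) (l 1)) (l 1)) (l 1)), by decide +kernel⟩

def k15_pp_022_a : ∃ t, chk3 f_pp_022_a t 3 1 1 = true :=
  ⟨(l 1), by decide +kernel⟩

theorem s16_pp_022_a : ∃ t, chk3 f_pp_022_a t 17 7 1 = true := ex3_b k11_pp_022_a k12_pp_022_a

theorem s17_pp_022_a : ∃ t, chk3 f_pp_022_a t 32 31 1 = true := ex3_c k8_pp_022_a k9_pp_022_a

theorem s18_pp_022_a : ∃ t, chk3 f_pp_022_a t 32 15 1 = true := ex3_b k7_pp_022_a s17_pp_022_a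

theorem s19_pp_022_a : ∃ t, chk3 f_pp_022_a t 16 15 1 = true := ex3_a s18_pp_022_a k10_pp_022_a

theorem s20_pp_022_a : ∃ t, chk3 f_pp_022_a t 16 14 1 = true := ex3_a k5_pp_022_a k6_pp_022_a

theorem s21_pp_022_a : ∃ t, chk3 f_pp_022_a t 16 7 1 = true := ex3_b s20_pp_022_a s19_pp_022_a

theorem s22_pp_022_a : ∃ t, chk3 f_pp_022_a t 8 7 1 = true := ex3_a s21_pp_022_a s16_pp_022_a

theorem s23_pp_022_a : ∃ t, chk3 f_pp_022_a t 16 13 1 = true := ex3_a k2_pp_022_a k3_pp_022_a

theorem s24_pp_022_a : ∃ t, chk3 f_pp_022_a t 16 6 1 = true := ex3_b k1_pp_022_a s23_pp_022_a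

theorem s25_pp_022_a : ∃ t, chk3 f_pp_022_a t 8 6 1 = true := ex3_a s24_pp_022_a k4_pp_022_a

theorem s26_pp_022_a : ∃ t, chk3 f_pp_022_a t 8 3 1 = true := ex3_b s25_pp_022_a s22_pp_022_a

theorem s27_pp_022_a : ∃ t, chk3 f_pp_022_a t 4 3 1 = true := ex3_a s26_pp_022_a k13_pp_022_a

theorem s28_pp_022_a : ∃ t, chk3 f_pp_022_a t 2 3 1 = true := ex3_a s27_pp_022_a k14_pp_022_a

theorem s29_pp_022_a : ∃ t, chk3 f_pp_022_a t 2 1 1 = true := ex3_b k0_pp_022_a s28_pp_022_a

theorem s30_pp_022_a : ∃ t, chk3 f_pp_022_a t 1 1 1 = true := ex3_a s29_pp_022_a k15_pp_022_a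

theorem c_pp_022_a : CertNX 0 536870912 0 420477299 1046898278 26843546 3 false true true .pp 0 2 2
    ndN3q0 ndN2q2a pcN2 Cut.none Ext.none :=
  certNX0 (fam := false) (s1 := true) (s2 := true) (a := 0) (b := 2) (c := 2) (cn := .pp) (n1 := ndN3q0) (n2 := ndN2q2a) (pc := pcN2) (cut := Cut.none) (xt := Ext.none) (P1 := 0) (W1 := 536870912) (P2 := 0) (W2 := 420477299) (P3 := 1046898278) (W3 := 26843546) (N0 := 3)
    rfl s30_pp_022_a

noncomputable def f_pp_022_b : ℕ → ℕ → ℕ → ℕ → Bool := onCell 0 536870912 1073741824 536870912 1046898278 26843546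
    (rowNX 3 1 false true true .pp 0 2 2 (qsf 0 536870912 1239849684 370763052 2) ndN3q0 ndN2q2b pcN2 Cut.none Ext.none)

def k0_pp_022_b : ∃ t, chk3 f_pp_022_b t 2 4 1 = true :=
  ⟨(a (a (b (l 1) (a (b (l 1) (a (l 1) (c (l 513817100775) (l 15979504)))) (b (a (l 1) (b (l 1) (l 256655968231))) (a (b (l 15921952) (a (l 16013784) (l 16152608))) (a (l 310343226295) (l 16038328)))))) (b (a (b (l 1) (a (l 1) (l 16248336))) (b (a (l 1) (l 16021776)) (a (a (l 15987224) (l 16006272)) (l 15856464)))) (a (b (a (b (l 1435088210615) (b (l 16001208) (l 16127384))) (b (l 16251064) (l 16098224))) (a (a (l 16193896) (l 16077640)) (l 15713376))) (b (b (l 15534120) (l 15400344)) (a (l 15296808) (l 15124248)))))) (b (a (a (b (a (l 346312989511) (l 15678744)) (l 15512112)) (b (l 15396672) (l 15189504))) (a (b (l 15079184) (l 15002304)) (l 14901608))) (a (b (a (l 15115992) (l 15072448)) (l 14887552)) (a (l 14852952) (l 14807072))))), by decide +kernel⟩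

def k1_pp_022_b : ∃ t, chk3 f_pp_022_b t 2 5 1 = true :=
  ⟨(a (b (a (b (a (b (a (a (l 1) (c (l 15991640) (l 15992176))) (c (l 250213657511) (l 15989848))) (a (a (c (l 15803120) (l 317321676343)) (c (l 15855832) (l 15849472))) (c (l 15903568) (l 15993024)))) (b (a (l 16140664) (l 16127696)) (a (l 16123944) (l 16176768)))) (a (a (c (a (l 15177656) (l 15263792)) (a (b (l 15352872) (l 14949624)) (l 15255456))) (c (l 15298776) (l 15418032))) (a (b (l 15829520) (l 15454160)) (b (l 16015032) (l 15620216))))) (b (a (b (a (l 15765048) (l 15352992)) (a (l 15803112) (l 15510384))) (b (l 14947808) (l 15145248))) (a (a (b (l 16261752) (l 15940408)) (l 16141328)) (b (l 15616200) (l 16064056))))) (a (b (a (a (c (a (l 14437472) (l 14529560)) (a (l 14336792) (l 14491408))) (c (l 14703048) (l 14644944))) (a (l 14864304) (l 15037440))) (a (a (c (l 14097952) (a (l 13981760) (l 14076448))) (c (l 14297608) (l 14222160))) (l 14550096))) (b (a (a (l 15385760) (l 15895808)) (l 16421432)) (a (l 15286936) (l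 16101752))))) (b (b (b (a (l 14687960) (l 14549776)) (a (l 14899040) (l 14769800))) (a (l 15610096) (l 15485184))) (b (a (l 16477072) (l 16358088)) (a (l 16501032) (l 16750128))))), by decide +kernel⟩

def k2_pp_022_b : ∃ t, chk3 f_pp_022_b t 3 2 1 = true :=
  ⟨(a (b (b (a (l 14822696) (l 14714408)) (a (l 14811320) (b (l 14886360) (l 14699448)))) (b (b (b (l 14551000) (l 14771704)) (l 15451816)) (b (l 16244000) (l 16605888)))) (b (b (a (b (l 14527680) (l 14668872)) (b (l 14333504) (l 14459112))) (b (l 14667656) (l 14527584))) (b (b (l 14612168) (l 2)) (l 2)))), by decide +kernel⟩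

def k3_pp_022_b : ∃ t, chk3 f_pp_022_b t 1 3 1 = true :=
  ⟨(a (a (b (a (a (b (a (c (l 14097408) (l 14029928)) (l 14250104)) (c (l 14194240) (l 14002040))) (b (l 14549544) (l 14549544))) (a (b (l 15286440) (l 15286440)) (l 16101312))) (a (a (a (l 13877872) (l 14250104)) (l 14549544)) (a (l 15055752) (l 16101312)))) (b (a (b (l 16501352) (l 16500936)) (b (l 16754112) (l 16745952))) (a (l 16500672) (l 2)))) (b (b (a (l 16646576) (l 2)) (l 2)) (l 2))), by decide +kernel⟩

theorem s4_pp_022_b : ∃ t, chk3 f_pp_022_b t 2 2 1 = true := ex3_b k0_pp_022_b k1_pp_022_b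

theorem s5_pp_022_b : ∃ t, chk3 f_pp_022_b t 1 2 1 = true := ex3_a s4_pp_022_b k2_pp_022_b

theorem s6_pp_022_b : ∃ t, chk3 f_pp_022_b t 1 1 1 = true := ex3_b s5_pp_022_b k3_pp_022_b

theorem c_pp_022_b : CertNX 0 536870912 1239849684 370763052 1046898278 26843546 3 false true true .pp 0 2 2
    ndN3q0 ndN2q2b pcN2 Cut.none Ext.none :=
  certNX1 (fam := false) (s1 := true) (s2 := true) (a := 0) (b := 2) (c := 2) (cn := .pp) (n1 := ndN3q0) (n2 := ndN2q2b) (pc := pcN2) (cut := Cut.none) (xt := Ext.none) (P1 := 0) (W1 := 536870912) (P2 := 1239849684) (W2 := 370763052) (P3 := 1046898278) (W3 := 26843546) (N0 := 3)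
    rfl (fun _ => rfl) s6_pp_022_b

noncomputable def f_pp_023 : ℕ → ℕ → ℕ → ℕ → Bool := onCell 1073741824 536870912 1610612736 469762048 1046898278 26843546
    (rowNX 3 2 false true true .up 0 2 3 (qsf 0 536870912 1610612736 469762048 2) ndN3q0 ndN2q3 pcN2 Cut.none Ext.none)

def k0_pp_023 : ∃ t, chk3 f_pp_023 t 1 1 1 = true :=
  ⟨(a (a (b (a (b (c (l 14291320) (l 14198080)) (l 2)) (a (b (l 14559952) (l 2)) (l 14414760))) (l 2)) (b (a (a (b (l 14624800) (l 14569664)) (l 15336432)) (a (l 16046488) (l 16458088))) (a (l 2) (b (l 15896800) (l 2))))) (b (a (b (a (l 16700928) (b (l 16604480) (l 16752128))) (l 16673448)) (b (a (b (a (l 16325944) (b (l 15353056) (l 16188440))) (l 16571264)) (b (a (b (l 14862504) (l 15294800)) (b (l 14316288) (l 14776216))) (a (l 16220816) (b (l 15231496) (l 16067936))))) (a (l 16752416) (b (l 16533304) (l 16726760))))) (b (a (a (l 16441008) (l 16766128)) (l 16777152)) (a (a (l 2) (l 16739304)) (l 16747760))))), by decide +kernel⟩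

theorem c_pp_023 : CertNX 0 536870912 1610612736 469762048 1046898278 26843546 3 false true true .up 0 2 3
    ndN3q0 ndN2q3 pcN2 Cut.none Ext.none :=
  certNX2 (fam := false) (s1 := true) (s2 := true) (a := 0) (b := 2) (c := 3) (cn := .up) (n1 := ndN3q0) (n2 := ndN2q3) (pc := pcN2) (cut := Cut.none) (xt := Ext.none) (P1 := 0) (W1 := 536870912) (P2 := 1610612736) (W2 := 469762048) (P3 := 1046898278) (W3 := 26843546) (N0 := 3)
    rfl (fun _ => rfl) k0_pp_023

noncomputable def f_pp_033 : ℕ → ℕ → ℕ → ℕ → Bool := onCell 0 536870912 1610612736 536870912 1046898278 26843546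
    (rowNX 3 1 false true true .pnn 0 3 3 (qsf 0 536870912 1610612736 469762048 3) ndN3q0 ndN2q3 pcN3 Cut.none Ext.none)

def k0_pp_033 : ∃ t, chk3 f_pp_033 t 1 1 1 = true :=
  ⟨(a (b (a (a (b (a (b (l 14163584) (c (l 14194240) (l 14127872))) (b (l 14549544) (l 14549544))) (b (a (c (l 14194240) (l 14127872)) (l 14549544)) (c (a (l 14194240) (l 14586728)) (a (l 14127872) (l 14509856))))) (b (a (b (l 15286440) (l 15286440)) (b (l 16101312) (l 16101312))) (a (c (l 15057792) (b (l 15256400) (l 15256512))) (b (l 16101344) (l 4))))) (b (a (b (l 16500672) (l 16500688)) (b (l 16745192) (l 16745352))) (a (b (l 16458912) (l 4)) (l 4)))) (a (b (a (b (a (l 4) (l 4)) (l 4)) (l 4)) (l 4)) (b (l 4) (l 2)))) (b (a (b (b (l 16748840) (l 4)) (l 4)) (b (l 4) (l 2))) (l 2))), by decide +kernel⟩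

theorem c_pp_033 : CertNX 0 536870912 1610612736 469762048 1046898278 26843546 3 false true true .pnn 0 3 3
    ndN3q0 ndN2q3 pcN3 Cut.none Ext.none :=
  certNX1 (fam := false) (s1 := true) (s2 := true) (a := 0) (b := 3) (c := 3) (cn := .pnn) (n1 := ndN3q0) (n2 := ndN2q3) (pc := pcN3) (cut := Cut.none) (xt := Ext.none) (P1 := 0) (W1 := 536870912) (P2 := 1610612736) (W2 := 469762048) (P3 := 1046898278) (W3 := 26843546) (N0 := 3)
    rfl (fun _ => rfl) k0_pp_033

noncomputable def f_pp_101 : ℕ → ℕ → ℕ → ℕ → Bool := onCell 536870912 536870912 536870912 536870912 1046898278 26843546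
    (rowNX 3 0 false true true .npn 1 0 1 (qsf 536870912 536870912 536870912 536870912 0) ndN3q1 ndN2q1 pcN0 Cut.none Ext.none)

def k0_pp_101 : ∃ t, chk3 f_pp_101 t 1 1 1 = true :=
  ⟨(l 3), by decide +kernel⟩

theorem c_pp_101 : CertNX 536870912 536870912 536870912 536870912 1046898278 26843546 3 false true true .npn 1 0 1
    ndN3q1 ndN2q1 pcN0 Cut.none Ext.none :=
  certNX0 (fam := false) (s1 := true) (s2 := true) (a := 1) (b := 0) (c := 1) (cn := .npn) (n1 := ndN3q1) (n2 := ndN2q1) (pc := pcN0) (cut := Cut.none) (xt := Ext.none) (P1 := 536870912) (W1 := 536870912) (P2 := 536870912) (W2 := 536870912) (P3 := 1046898278) (W3 := 26843546) (N0 := 3)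
    rfl k0_pp_101

noncomputable def f_pp_102_a : ℕ → ℕ → ℕ → ℕ → Bool := onCell 536870912 536870912 0 420477299 1046898278 26843546
    (rowNX 3 0 false true true .npp 1 0 2 (qsf 536870912 536870912 0 420477299 0) ndN3q1 ndN2q2a pcN0 Cut.none Ext.none)

def k0_pp_102_a : ∃ t, chk3 f_pp_102_a t 2 1 1 = true :=
  ⟨(b (a (l 2) (b (l 16400216) (l 16398760))) (b (a (l 16554784) (l 16554784)) (a (b (b (l 16747840) (a (l 2) (c (l 16622824) (l 16617384)))) (a (c (l 16250576) (l 16232768)) (c (l 16166696) (l 16127912)))) (a (b (b (l 16747840) (a (l 16620104) (l 16620104))) (c (l 16040864) (l 16106944))) (b (l 16713464) (c (b (l 16400872) (l 16144392)) (b (l 16387616) (l 16122104)))))))), by decide +kernel⟩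

def k1_pp_102_a : ∃ t, chk3 f_pp_102_a t 3 2 1 = true :=
  ⟨(a (a (b (l 16486400) (l 16442872)) (a (b (l 15989680) (l 15986704)) (b (l 15423832) (l 15421096)))) (a (a (b (l 14538840) (l 14536360)) (b (b (l 13945960) (l 13913656)) (b (a (l 14024104) (l 13791008)) (a (b (l 14045520) (l 14068896)) (l 13816312))))) (a (a (b (l 13526760) (b (l 13488696) (c (l 13549104) (l 13454416)))) (b (l 13172632) (b (l 13113264) (l 13116624)))) (b (a (c (b (l 12857624) (l 12777880)) (b (l 12873368) (l 12791576))) (c (b (c (l 12616712) (l 12574736)) (a (l 12534640) (l 12517336))) (b (a (l 12603528) (l 12480592)) (a (l 12522992) (l 12418440))))) (a (c (b (l 12735832) (l 12730512)) (b (l 12747936) (l 12742536))) (b (c (a (l 12481832) (l 12460360)) (a (l 12468144) (l 12362184))) (c (a (l 12486496) (l 12485952)) (a (l 12473088) (l 12388856))))))))), by decide +kernel⟩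

def k2_pp_102_a : ∃ t, chk3 f_pp_102_a t 6 3 1 = true :=
  ⟨(b (a (a (l 16555040) (l 16467000)) (a (l 16077984) (l 15292984))) (a (b (a (l 16713664) (l 16622376)) (b (l 16299776) (a (c (l 16144600) (l 16122328)) (c (l 16296792) (l 16281296))))) (a (b (l 16252632) (b (l 16451280) (a (l 16351712) (l 16528840)))) (b (a (l 15750504) (b (l 15449056) (l 15595840))) (a (b (l 15970632) (a (l 16414344) (l 16304568))) (b (l 15813728) (l 16118736))))))), by decide +kernel⟩

def k3_pp_102_a : ∃ t, chk3 f_pp_102_a t 14 3 1 = true :=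
  ⟨(b (a (b (a (l 14827080) (l 14385480)) (a (l 14915232) (b (l 14460976) (l 14546664)))) (b (a (l 14126544) (l 13902720)) (a (l 14281736) (l 14078032)))) (a (b (b (a (l 15040912) (l 14682424)) (a (l 15241904) (l 14914488))) (a (b (l 15514240) (l 15852400)) (b (l 15211480) (l 15473144)))) (b (b (a (l 14490600) (l 14311424)) (a (l 14744048) (l 14585840))) (b (a (l 15065560) (l 14763920)) (a (l 15394696) (l 15341440)))))), by decide +kernel⟩

def k4_pp_102_a : ∃ t, chk3 f_pp_102_a t 15 6 1 = true :=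
  ⟨(a (b (a (b (l 13404176) (l 13438144)) (b (l 13125760) (c (l 13188272) (l 13144064)))) (a (a (l 13866792) (l 13663648)) (b (c (a (l 13404800) (l 13149152)) (l 13227808)) (c (a (l 13555056) (l 13324296)) (l 13403736))))) (b (a (c (a (l 12847624) (l 12668448)) (l 12779288)) (c (a (l 12557968) (l 12569712)) (a (l 12547472) (l 12475960)))) (a (c (b (a (l 12922792) (l 12750936)) (a (l 13085496) (c (l 12844912) (l 12876880)))) (b (l 12866832) (l 13002688))) (c (a (b (l 12648464) (l 12708504)) (l 12704240)) (a (b (l 12641536) (l 12725688)) (c (l 12620888) (l 12599888))))))), by decide +kernel⟩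

def k5_pp_102_a : ∃ t, chk3 f_pp_102_a t 30 7 1 = true :=
  ⟨(b (a (b (c (a (l 14161032) (l 13971560)) (l 13989296)) (c (a (l 14450768) (l 14280024)) (l 14298512))) (b (c (l 13428304) (l 13632808)) (c (l 13982000) (l 13967976)))) (c (a (a (b (l 14810080) (l 15224208)) (b (l 14648288) (l 15069216))) (b (c (l 14338688) (l 14388160)) (a (l 14745360) (a (c (l 14568376) (l 14706168)) (b (l 14523952) (b (l 14612824) (l 14892488))))))) (b (l 14520392) (a (l 15108128) (b (l 14685840) (a (l 15003704) (l 14881136))))))), by decide +kernel⟩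

def k6_pp_102_a : ∃ t, chk3 f_pp_102_a t 31 14 1 = true :=
  ⟨(a (c (b (a (l 13317304) (c (l 13055480) (l 13091432))) (a (l 13645680) (c (l 13382880) (l 13424968)))) (b (l 13232336) (l 13574256))) (c (b (a (b (c (l 12797176) (l 12806040)) (l 12707472)) (b (l 12812496) (a (c (l 12908776) (l 12845400)) (l 12983328)))) (a (b (a (l 13148232) (c (l 13075664) (l 13051704))) (c (a (l 13340424) (l 13361584)) (a (l 13356344) (l 13342960)))) (b (a (c (l 13129112) (l 13069880)) (l 13267160)) (c (l 13566576) (l 13514104))))) (b (b (a (l 12775488) (c (l 12732224) (l 12713320))) (a (l 12942312) (a (c (l 12811904) (l 12813632)) (c (l 12885400) (l 12845840))))) (a (b (c (l 13135592) (l 13152304)) (c (a (l 13403888) (l 13366312)) (a (l 13423248) (l 13398952)))) (a (b (c (l 12893784) (l 13004632)) (c (l 13412896) (l 13425784))) (c (l 13362056) (b (l 13143112) (l 13509320)))))))), by decide +kernel⟩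

def k7_pp_102_a : ∃ t, chk3 f_pp_102_a t 31 15 1 = true :=
  ⟨(a (c (c (b (a (b (l 13890944) (l 13974192)) (b (a (l 13716072) (l 13652656)) (a (b (l 13898552) (l 14070592)) (l 14003056)))) (a (b (a (l 14395664) (l 14354480)) (l 14746000)) (b (l 14381968) (l 14570520)))) (b (a (l 14070544) (b (a (l 13774968) (l 13691064)) (a (l 14053288) (l 14047928)))) (a (b (l 14422672) (l 14834400)) (b (l 14442464) (l 14847992))))) (b (a (b (l 13979496) (l 14198288)) (b (a (l 13824488) (l 13649472)) (a (l 14110504) (l 14121080)))) (a (b (a (l 14496576) (l 14479952)) (l 14874136)) (b (l 14514144) (l 14930760))))) (b (c (b (a (c (l 13703176) (l 13707592)) (l 13822248)) (a (c (l 14093272) (l 14104888)) (l 14180352))) (a (c (b (l 13747656) (l 14152248)) (l 13877880)) (c (a (l 14019832) (l 14140952)) (a (l 14043856) (c (l 14119944) (l 14123624)))))) (c (a (c (b (l 14490456) (l 14894032)) (a (l 14539168) (l 14741672))) (b (l 14504592) (a (l 15070392) (l 15233872)))) (b (a (c (l 14564064) (l 14606920)) (c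 (l 14708392) (a (l 14675680) (l 14762960)))) (a (c (l 14982384) (l 15032768)) (a (c (l 15065024) (l 15107904)) (c (l 15198376) (c (l 15191608) (l 15204864))))))))), by decide +kernel⟩

theorem s8_pp_102_a : ∃ t, chk3 f_pp_102_a t 31 7 1 = true := ex3_b k6_pp_102_a k7_pp_102_a

theorem s9_pp_102_a : ∃ t, chk3 f_pp_102_a t 15 7 1 = true := ex3_a k5_pp_102_a s8_pp_102_a

theorem s10_pp_102_a : ∃ t, chk3 f_pp_102_a t 15 3 1 = true := ex3_b k4_pp_102_a s9_pp_102_a

theorem s11_pp_102_a : ∃ t, chk3 f_pp_102_a t 7 3 1 = true := ex3_a k3_pp_102_a s10_pp_102_a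

theorem s12_pp_102_a : ∃ t, chk3 f_pp_102_a t 3 3 1 = true := ex3_a k2_pp_102_a s11_pp_102_a

theorem s13_pp_102_a : ∃ t, chk3 f_pp_102_a t 3 1 1 = true := ex3_b k1_pp_102_a s12_pp_102_a

theorem s14_pp_102_a : ∃ t, chk3 f_pp_102_a t 1 1 1 = true := ex3_a k0_pp_102_a s13_pp_102_a

theorem c_pp_102_a : CertNX 536870912 536870912 0 420477299 1046898278 26843546 3 false true true .npp 1 0 2
    ndN3q1 ndN2q2a pcN0 Cut.none Ext.none :=
  certNX0 (fam := false) (s1 := true) (s2 := true) (a := 1) (b := 0) (c := 2) (cn := .npp) (n1 := ndN3q1) (n2 := ndN2q2a) (pc := pcN0) (cut := Cut.none) (xt := Ext.none) (P1 := 536870912) (W1 := 536870912) (P2 := 0) (W2 := 420477299) (P3 := 1046898278) (W3 := 26843546) (N0 := 3)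
    rfl s14_pp_102_a

noncomputable def f_pp_102_b : ℕ → ℕ → ℕ → ℕ → Bool := onCell 536870912 536870912 1239849684 370763052 1046898278 26843546
    (rowNX 3 0 false true true .npp 1 0 2 (qsf 536870912 536870912 1239849684 370763052 0) ndN3q1 ndN2q2b pcN0 Cut.none Ext.none)

def k0_pp_102_b : ∃ t, chk3 f_pp_102_b t 1 1 1 = true :=
  ⟨(a (a (l 2) (b (b (l 16655936) (l 16777216)) (l 2))) (a (b (a (b (a (l 16656192) (l 16527912)) (l 16684248)) (a (b (l 16144600) (l 16213288)) (b (b (l 15529344) (l 15657472)) (l 15674520)))) (a (l 2) (a (l 16213288) (l 15674520)))) (b (a (b (a (l 14666648) (b (l 14056224) (l 14213512))) (a (l 14817032) (l 14234872))) (b (a (b (b (a (a (l 13691232) (l 13515048)) (l 13241816)) (a (l 13692864) (b (l 13285152) (l 13329920)))) (l 13610992)) (c (b (a (b (l 12893896) (l 12684440)) (b (a (l 12648288) (l 12607824)) (l 12652496))) (a (l 12993720) (b (a (l 12699760) (l 12640080)) (l 12718232)))) (b (a (b (l 12911264) (l 12934200)) (b (a (l 12635160) (l 12511840)) (a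 (l 12646064) (l 12526088)))) (a (l 13037912) (b (a (l 12694696) (l 12549000)) (l 12676544)))))) (a (l 13634512) (a (l 13016312) (c (l 12718256) (l 12676576)))))) (a (a (l 14817032) (l 14234872)) (a (l 13634512) (a (l 13016312) (b (l 12707432) (l 12707432)))))))), by decide +kernel⟩

theorem c_pp_102_b : CertNX 536870912 536870912 1239849684 370763052 1046898278 26843546 3 false true true .npp 1 0 2
    ndN3q1 ndN2q2b pcN0 Cut.none Ext.none :=
  certNX0 (fam := false) (s1 := true) (s2 := true) (a := 1) (b := 0) (c := 2) (cn := .npp) (n1 := ndN3q1) (n2 := ndN2q2b) (pc := pcN0) (cut := Cut.none) (xt := Ext.none) (P1 := 536870912) (W1 := 536870912) (P2 := 1239849684) (W2 := 370763052) (P3 := 1046898278) (W3 := 26843546) (N0 := 3)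
    rfl k0_pp_102_b

noncomputable def f_pp_112_a : ℕ → ℕ → ℕ → ℕ → Bool := onCell 536870912 536870912 0 420477299 1046898278 26843546
    (rowNX 3 2 false true true .dn 1 1 2 (qsf 536870912 536870912 0 420477299 1) ndN3q1 ndN2q2a pcN1 Cut.none Ext.none)

def k0_pp_112_a : ∃ t, chk3 f_pp_112_a t 1 1 1 = true :=
  ⟨(a (b (a (b (l 16400216) (l 16398760)) (b (l 16400216) (l 16398760))) (b (a (l 16554784) (l 16554784)) (a (c (b (a (l 16714568) (l 16714568)) (a (l 16271552) (l 16271552))) (b (a (l 16712360) (l 16691384)) (a (l 16253744) (l 16253744)))) (l 1)))) (l 1)), by decide +kernel⟩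

theorem c_pp_112_a : CertNX 536870912 536870912 0 420477299 1046898278 26843546 3 false true true .dn 1 1 2
    ndN3q1 ndN2q2a pcN1 Cut.none Ext.none :=
  certNX2 (fam := false) (s1 := true) (s2 := true) (a := 1) (b := 1) (c := 2) (cn := .dn) (n1 := ndN3q1) (n2 := ndN2q2a) (pc := pcN1) (cut := Cut.none) (xt := Ext.none) (P1 := 536870912) (W1 := 536870912) (P2 := 0) (W2 := 420477299) (P3 := 1046898278) (W3 := 26843546) (N0 := 3)
    rfl (fun _ => rfl) k0_pp_112_a

noncomputable def f_pp_112_b : ℕ → ℕ → ℕ → ℕ → Bool := onCell 536870912 536870912 1239849684 370763052 1046898278 26843546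
    (rowNX 3 0 false true true .dn 1 1 2 (qsf 536870912 536870912 1239849684 370763052 1) ndN3q1 ndN2q2b pcN1 Cut.none Ext.none)

def k0_pp_112_b : ∃ t, chk3 f_pp_112_b t 1 1 1 = true :=
  ⟨(a (b (a (b (l 16551080) (a (l 16749344) (l 16777216))) (b (l 16572048) (l 16777216))) (a (b (a (b (l 16600224) (l 16315872)) (l 16702880)) (a (b (l 15587336) (l 15167640)) (b (l 16434016) (l 15991080)))) (b (l 16776312) (a (l 16590040) (l 16760432))))) (a (b (b (l 1) (a (l 16684248) (l 891774042327))) (a (l 16663280) (a (l 16213288) (l 15674520)))) (b (l 1) (a (a (l 14817032) (l 14234872)) (a (l 13634512) (a (l 13016312) (l 468176346823))))))), by decide +kernel⟩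

theorem c_pp_112_b : CertNX 536870912 536870912 1239849684 370763052 1046898278 26843546 3 false true true .dn 1 1 2
    ndN3q1 ndN2q2b pcN1 Cut.none Ext.none :=
  certNX0 (fam := false) (s1 := true) (s2 := true) (a := 1) (b := 1) (c := 2) (cn := .dn) (n1 := ndN3q1) (n2 := ndN2q2b) (pc := pcN1) (cut := Cut.none) (xt := Ext.none) (P1 := 536870912) (W1 := 536870912) (P2 := 1239849684) (W2 := 370763052) (P3 := 1046898278) (W3 := 26843546) (N0 := 3)
    rfl k0_pp_112_b

noncomputable def f_pp_113 : ℕ → ℕ → ℕ → ℕ → Bool := onCell 536870912 536870912 536870912 536870912 1046898278 26843546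
    (rowNX 3 1 false true true .nn 1 1 3 (qsf 536870912 536870912 1610612736 469762048 1) ndN3q1 ndN2q3 pcN1 Cut.none Ext.none)

def k0_pp_113 : ∃ t, chk3 f_pp_113 t 1 1 1 = true :=
  ⟨(b (a (l 492344180743) (a (a (l 439193355095) (b (l 440265605335) (l 15948944))) (a (b (l 14592016) (l 14592016)) (a (l 519717808535) (b (l 469787288967) (l 12725336)))))) (b (a (b (l 429530709431) (a (l 16460888) (l 16370152))) (a (b (a (l 16635152) (l 15896016)) (a (l 16205216) (l 15444024))) (b (a (l 14534864) (a (l 13574288) (l 12746976))) (a (l 14060192) (a (l 13081192) (l 12325544)))))) (a (b (a (l 639981113959) (l 15462256)) (a (b (l 14989144) (l 14415880)) (b (l 14660664) (l 14022856)))) (b (a (a (l 15210856) (l 14411352)) (a (l 13049336) (a (l 12111472) (b (l 11551840) (l 11202344))))) (a (a (b (l 14333800) (l 13646632)) (b (l 13517920) (l 12808664))) (b (a (l 12238512) (a (l 11505392) (l 11143592))) (a (a (l 11777840) (l 11377904)) (a (l 11219240) (a (l 11608736) (l 2)))))))))), by decide +kernel⟩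

theorem c_pp_113 : CertNX 536870912 536870912 1610612736 469762048 1046898278 26843546 3 false true true .nn 1 1 3
    ndN3q1 ndN2q3 pcN1 Cut.none Ext.none :=
  certNX1 (fam := false) (s1 := true) (s2 := true) (a := 1) (b := 1) (c := 3) (cn := .nn) (n1 := ndN3q1) (n2 := ndN2q3) (pc := pcN1) (cut := Cut.none) (xt := Ext.none) (P1 := 536870912) (W1 := 536870912) (P2 := 1610612736) (W2 := 469762048) (P3 := 1046898278) (W3 := 26843546) (N0 := 3)
    rfl (fun _ => rfl) k0_pp_113

noncomputable def f_pp_123 : ℕ → ℕ → ℕ → ℕ → Bool := onCell 1073741824 536870912 1610612736 469762048 1046898278 26843546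
    (rowNX 3 2 false true true .npn 1 2 3 (qsf 536870912 536870912 1610612736 469762048 2) ndN3q1 ndN2q3 pcN2 Cut.none Ext.none)

def k0_pp_123 : ∃ t, chk3 f_pp_123 t 1 1 1 = true :=
  ⟨(b (a (a (a (b (c (l 14291320) (l 14177112)) (c (l 13976392) (a (l 13750600) (l 14003408)))) (b (l 634073112471) (a (l 14259992) (l 14311320)))) (a (a (l 635146981063) (l 15336432)) (a (l 16046488) (l 16458088)))) (l 1)) (a (a (b (a (c (a (l 13472656) (l 13779656)) (a (l 13350520) (l 13679464))) (a (l 13964184) (l 14111568))) (a (b (a (c (l 12822856) (l 12577192)) (c (l 13417384) (l 13265744))) (a (c (l 12449448) (b (l 11938984) (l 11764368))) (c (a (l 13103896) (l 13411096)) (l 12981080)))) (a (b (l 13713832) (c (l 13740208) (l 13524712))) (l 13936976)))) (a (b (l 14854168) (a (l 14492944) (l 15098808))) (b (l 15896800) (a (l 15528960) (l 15890280))))) (a (a (b (l 16441008) (l 16378840)) (l 696892430871)) (l 539589264839)))), by decide +kernel⟩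

theorem c_pp_123 : CertNX 536870912 536870912 1610612736 469762048 1046898278 26843546 3 false true true .npn 1 2 3
    ndN3q1 ndN2q3 pcN2 Cut.none Ext.none :=
  certNX2 (fam := false) (s1 := true) (s2 := true) (a := 1) (b := 2) (c := 3) (cn := .npn) (n1 := ndN3q1) (n2 := ndN2q3) (pc := pcN2) (cut := Cut.none) (xt := Ext.none) (P1 := 536870912) (W1 := 536870912) (P2 := 1610612736) (W2 := 469762048) (P3 := 1046898278) (W3 := 26843546) (N0 := 3)
    rfl (fun _ => rfl) k0_pp_123

noncomputable def f_pp_133 : ℕ → ℕ → ℕ → ℕ → Bool := onCell 536870912 536870912 1610612736 469762048 1046898278 26843546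
    (rowNX 3 0 false true true .dn 1 3 3 (qsf 536870912 536870912 1610612736 469762048 3) ndN3q1 ndN2q3 pcN3 Cut.none Ext.none)

def k0_pp_133 : ∃ t, chk3 f_pp_133 t 1 1 1 = true :=
  ⟨(l 1), by decide +kernel⟩

theorem c_pp_133 : CertNX 536870912 536870912 1610612736 469762048 1046898278 26843546 3 false true true .dn 1 3 3
    ndN3q1 ndN2q3 pcN3 Cut.none Ext.none :=
  certNX0 (fam := false) (s1 := true) (s2 := true) (a := 1) (b := 3) (c := 3) (cn := .dn) (n1 := ndN3q1) (n2 := ndN2q3) (pc := pcN3) (cut := Cut.none) (xt := Ext.none) (P1 := 536870912) (W1 := 536870912) (P2 := 1610612736) (W2 := 469762048) (P3 := 1046898278) (W3 := 26843546) (N0 := 3)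
    rfl k0_pp_133

noncomputable def f_pp_202_a : ℕ → ℕ → ℕ → ℕ → Bool := onCell 1073741824 536870912 0 420477299 1046898278 26843546
    (rowNX 3 0 false true true .pp 2 0 2 (qsf 1073741824 536870912 0 420477299 0) ndN3q2 ndN2q2a pcN0 Cut.none Ext.none)

def k0_pp_202_a : ∃ t, chk3 f_pp_202_a t 1 1 1 = true :=
  ⟨(l 3), by decide +kernel⟩

theorem c_pp_202_a : CertNX 1073741824 536870912 0 420477299 1046898278 26843546 3 false true true .pp 2 0 2
    ndN3q2 ndN2q2a pcN0 Cut.none Ext.none :=
  certNX0 (fam := false) (s1 := true) (s2 := true) (a := 2) (b := 0) (c := 2) (cn := .pp) (n1 := ndN3q2) (n2 := ndN2q2a) (pc := pcN0) (cut := Cut.none) (xt := Ext.none) (P1 := 1073741824) (W1 := 536870912) (P2 := 0) (W2 := 420477299) (P3 := 1046898278) (W3 := 26843546) (N0 := 3)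
    rfl k0_pp_202_a

noncomputable def f_pp_202_b : ℕ → ℕ → ℕ → ℕ → Bool := onCell 1073741824 536870912 1239849684 370763052 1046898278 26843546
    (rowNX 3 0 false true true .pp 2 0 2 (qsf 1073741824 536870912 1239849684 370763052 0) ndN3q2 ndN2q2b pcN0 Cut.none Ext.none)

def k0_pp_202_b : ∃ t, chk3 f_pp_202_b t 1 1 1 = true :=
  ⟨(l 3), by decide +kernel⟩

theorem c_pp_202_b : CertNX 1073741824 536870912 1239849684 370763052 1046898278 26843546 3 false true true .pp 2 0 2
    ndN3q2 ndN2q2b pcN0 Cut.none Ext.none :=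
  certNX0 (fam := false) (s1 := true) (s2 := true) (a := 2) (b := 0) (c := 2) (cn := .pp) (n1 := ndN3q2) (n2 := ndN2q2b) (pc := pcN0) (cut := Cut.none) (xt := Ext.none) (P1 := 1073741824) (W1 := 536870912) (P2 := 1239849684) (W2 := 370763052) (P3 := 1046898278) (W3 := 26843546) (N0 := 3)
    rfl k0_pp_202_b

noncomputable def f_pp_203 : ℕ → ℕ → ℕ → ℕ → Bool := onCell 1073741824 536870912 1610612736 469762048 1046898278 26843546
    (rowNX 3 0 false true true .up 2 0 3 (qsf 1073741824 536870912 1610612736 469762048 0) ndN3q2 ndN2q3 pcN0 Cut.none Ext.none)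

def k0_pp_203 : ∃ t, chk3 f_pp_203 t 1 1 1 = true :=
  ⟨(l 3), by decide +kernel⟩

theorem c_pp_203 : CertNX 1073741824 536870912 1610612736 469762048 1046898278 26843546 3 false true true .up 2 0 3
    ndN3q2 ndN2q3 pcN0 Cut.none Ext.none :=
  certNX0 (fam := false) (s1 := true) (s2 := true) (a := 2) (b := 0) (c := 3) (cn := .up) (n1 := ndN3q2) (n2 := ndN2q3) (pc := pcN0) (cut := Cut.none) (xt := Ext.none) (P1 := 1073741824) (W1 := 536870912) (P2 := 1610612736) (W2 := 469762048) (P3 := 1046898278) (W3 := 26843546) (N0 := 3)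
    rfl k0_pp_203

noncomputable def f_pp_213 : ℕ → ℕ → ℕ → ℕ → Bool := onCell 1073741824 536870912 1610612736 469762048 1046898278 26843546
    (rowNX 3 0 false true true .pnn 2 1 3 (qsf 1073741824 536870912 1610612736 469762048 1) ndN3q2 ndN2q3 pcN1 Cut.none Ext.none)

def k0_pp_213 : ∃ t, chk3 f_pp_213 t 1 1 1 = true :=
  ⟨(l 3), by decide +kernel⟩

theorem c_pp_213 : CertNX 1073741824 536870912 1610612736 469762048 1046898278 26843546 3 false true true .pnn 2 1 3
    ndN3q2 ndN2q3 pcN1 Cut.none Ext.none :=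
  certNX0 (fam := false) (s1 := true) (s2 := true) (a := 2) (b := 1) (c := 3) (cn := .pnn) (n1 := ndN3q2) (n2 := ndN2q3) (pc := pcN1) (cut := Cut.none) (xt := Ext.none) (P1 := 1073741824) (W1 := 536870912) (P2 := 1610612736) (W2 := 469762048) (P3 := 1046898278) (W3 := 26843546) (N0 := 3)
    rfl k0_pp_213

noncomputable def f_pp_303 : ℕ → ℕ → ℕ → ℕ → Bool := onCell 1610612736 536870912 1610612736 469762048 1046898278 26843546
    (rowNX 3 0 false true true .npn 3 0 3 (qsf 1610612736 536870912 1610612736 469762048 0) ndN3q3 ndN2q3 pcN0 Cut.none Ext.none)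

def k0_pp_303 : ∃ t, chk3 f_pp_303 t 1 1 1 = true :=
  ⟨(l 3), by decide +kernel⟩

theorem c_pp_303 : CertNX 1610612736 536870912 1610612736 469762048 1046898278 26843546 3 false true true .npn 3 0 3
    ndN3q3 ndN2q3 pcN0 Cut.none Ext.none :=
  certNX0 (fam := false) (s1 := true) (s2 := true) (a := 3) (b := 0) (c := 3) (cn := .npn) (n1 := ndN3q3) (n2 := ndN2q3) (pc := pcN0) (cut := Cut.none) (xt := Ext.none) (P1 := 1610612736) (W1 := 536870912) (P2 := 1610612736) (W2 := 469762048) (P3 := 1046898278) (W3 := 26843546) (N0 := 3)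
    rfl k0_pp_303

noncomputable def f_pp_313 : ℕ → ℕ → ℕ → ℕ → Bool := onCell 1610612736 536870912 1610612736 469762048 1046898278 26843546
    (rowNX 3 0 false true true .dn 3 1 3 (qsf 1610612736 536870912 1610612736 469762048 1) ndN3q3 ndN2q3 pcN1 Cut.none Ext.none)

def k0_pp_313 : ∃ t, chk3 f_pp_313 t 1 1 1 = true :=
  ⟨(l 1), by decide +kernel⟩

theorem c_pp_313 : CertNX 1610612736 536870912 1610612736 469762048 1046898278 26843546 3 false true true .dn 3 1 3
    ndN3q3 ndN2q3 pcN1 Cut.none Ext.none :=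
  certNX0 (fam := false) (s1 := true) (s2 := true) (a := 3) (b := 1) (c := 3) (cn := .dn) (n1 := ndN3q3) (n2 := ndN2q3) (pc := pcN1) (cut := Cut.none) (xt := Ext.none) (P1 := 1610612736) (W1 := 536870912) (P2 := 1610612736) (W2 := 469762048) (P3 := 1046898278) (W3 := 26843546) (N0 := 3)
    rfl k0_pp_313

noncomputable def f_pm_001 : ℕ → ℕ → ℕ → ℕ → Bool := onCell 0 536870912 536870912 536870912 1046898278 26843546
    (rowNX 3 0 false true false .up 0 0 1 (qsf 0 536870912 536870912 536870912 0) ndN3q0 ndN2q1 pcN0 Cut.none Ext.none)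

def k0_pm_001 : ∃ t, chk3 f_pm_001 t 1 1 1 = true :=
  ⟨(l 4), by decide +kernel⟩

theorem c_pm_001 : CertNX 0 536870912 536870912 536870912 1046898278 26843546 3 false true false .up 0 0 1
    ndN3q0 ndN2q1 pcN0 Cut.none Ext.none :=
  certNX0 (fam := false) (s1 := true) (s2 := false) (a := 0) (b := 0) (c := 1) (cn := .up) (n1 := ndN3q0) (n2 := ndN2q1) (pc := pcN0) (cut := Cut.none) (xt := Ext.none) (P1 := 0) (W1 := 536870912) (P2 := 536870912) (W2 := 536870912) (P3 := 1046898278) (W3 := 26843546) (N0 := 3)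
    rfl k0_pm_001

noncomputable def f_pm_011 : ℕ → ℕ → ℕ → ℕ → Bool := onCell 0 536870912 536870912 536870912 1046898278 26843546
    (rowNX 3 0 false true false .pnn 0 1 1 (qsf 0 536870912 536870912 536870912 1) ndN3q0 ndN2q1 pcN1 Cut.none Ext.none)

def k0_pm_011 : ∃ t, chk3 f_pm_011 t 1 1 1 = true :=
  ⟨(l 4), by decide +kernel⟩

theorem c_pm_011 : CertNX 0 536870912 536870912 536870912 1046898278 26843546 3 false true false .pnn 0 1 1
    ndN3q0 ndN2q1 pcN1 Cut.none Ext.none :=
  certNX0 (fam := false) (s1 := true) (s2 := false) (a := 0) (b := 1) (c := 1) (cn := .pnn) (n1 := ndN3q0) (n2 := ndN2q1) (pc := pcN1) (cut := Cut.none) (xt := Ext.none) (P1 := 0) (W1 := 536870912) (P2 := 536870912) (W2 := 536870912) (P3 := 1046898278) (W3 := 26843546) (N0 := 3)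
    rfl k0_pm_011

noncomputable def f_pm_012_a : ℕ → ℕ → ℕ → ℕ → Bool := onCell 536870912 536870912 0 420477299 1046898278 26843546
    (rowNX 3 2 false true false .pnp 0 1 2 (qsf 0 536870912 0 420477299 1) ndN3q0 ndN2q2a pcN1 Cut.none Ext.none)

def k0_pm_012_a : ∃ t, chk3 f_pm_012_a t 1 1 1 = true :=
  ⟨(a (l 4) (a (b (l 4) (l 4)) (b (b (a (b (a (l 4) (a (l 4) (a (l 4) (a (l 4) (c (c (l 13214256) (c (c (l 13170880) (l 13102168)) (l 13071608))) (l 12989600)))))) (l 4)) (a (b (c (c (a (l 13102464) (l 12854432)) (a (c (a (a (c (l 13174104) (l 13103536)) (l 13120296)) (l 13057592)) (a (l 13042704) (c (l 13031264) (l 12979744)))) (a (c (l 13063288) (a (l 12971528) (l 13037424))) (l 12939464)))) (a (l 12919072) (c (c (a (a (l 12892496) (c (l 13010280) (l 12965632))) (c (l 12941360) (a (b (l 12840888) (l 12832368)) (l 12902248)))) (a (l 12960800) (a (l 12892496) (l 12851992)))) (l 12864584)))) (l 4)) (a (b (c (a (c (a (l 12948232) (l 12875512)) (a (l 12930400) (l 12919008))) (c (l 12506072)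 (a (l 12821904) (l 12729264)))) (a (a (c (c (l 12942512) (c (a (l 12842640) (l 12913000)) (l 12897728))) (l 12854944)) (c (c (l 12888688) (c (l 12948960) (b (b (l 12949328) (l 12764464)) (l 12755248)))) (l 12887912))) (c (a (b (l 12872128) (l 12705640)) (l 12768360)) (c (b (l 12691000) (a (l 12674112) (c (a (l 12652984) (l 12737504)) (l 12737504)))) (l 12766016))))) (l 4)) (a (c (c (l 12626896) (a (l 12632880) (l 12565760))) (c (a (l 12657112) (b (l 12589984) (l 12506936))) (c (c (l 12507896) (a (b (a (l 12702784) (l 12669400)) (l 12507848)) (l 12590088))) (a (l 12641816) (a (l 12587312) (b (l 12410088) (l 12452136))))))) (c (l 12586440) (c (a (l 12497640) (l 12481600)) (c (a (l 12494888) (l 12436216)) (c (a (b (l 12537296) (b (l 12406408) (l 4))) (l 12423264)) (a (l 12490304) (b (l 12466264) (a (l 12349072) (l 12352672)))))))))))) (l 4)) (l 4)))), by decide +kernel⟩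

theorem c_pm_012_a : CertNX 0 536870912 0 420477299 1046898278 26843546 3 false true false .pnp 0 1 2
    ndN3q0 ndN2q2a pcN1 Cut.none Ext.none :=
  certNX2 (fam := false) (s1 := true) (s2 := false) (a := 0) (b := 1) (c := 2) (cn := .pnp) (n1 := ndN3q0) (n2 := ndN2q2a) (pc := pcN1) (cut := Cut.none) (xt := Ext.none) (P1 := 0) (W1 := 536870912) (P2 := 0) (W2 := 420477299) (P3 := 1046898278) (W3 := 26843546) (N0 := 3)
    rfl (fun _ => rfl) k0_pm_012_a

end Pool.Agent.Strip051.G.IE1.Tab.C.NB32

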