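import Pool.Agent.Strip051.G.IE1.Tab

/-! # Certificates N72 (generated) -/

set_option linter.all false
set_option maxRecDepth 100000

namespace Pool.Agent.Strip051.G.IE1.Tab.C.NB32

open Pool.Agent.Strip051.PB Pool.Agent.Strip051.PB.T
open Pool.Agent.Strip051.G.IE1.Tab

noncomputable def f_pm_012_b : ℕ → ℕ → ℕ → ℕ → Bool := onCell 536870912 536870912 1239849684 370763052 1046898278 26843546
    (rowNX 3 2 false true false .pnp 0 1 2 (qsf 0 536870912 1239849684 370763052 1) ndN3q0 ndN2q2b pcN1 Cut.none Ext.none)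

def k0_pm_012_b : ∃ t, chk3 f_pm_012_b t 2 1 1 = true :=
  ⟨(l 4), by decide +kernel⟩

def k1_pm_012_b : ∃ t, chk3 f_pm_012_b t 6 1 1 = true :=
  ⟨(l 4), by decide +kernel⟩

def k2_pm_012_b : ∃ t, chk3 f_pm_012_b t 14 2 1 = true :=
  ⟨(b (b (a (l 4) (a (l 4) (a (l 4) (a (l 4) (c (c (c (l 13314280) (l 13327488)) (c (c (l 13278136) (l 13209936)) (l 13180152))) (l 13100752)))))) (l 4)) (l 4)), by decide +kernel⟩

def k3_pm_012_b : ∃ t, chk3 f_pm_012_b t 15 2 1 = true :=
  ⟨(b (b (a (b (a (b (c (a (c (l 13042120) (b (c (a (l 13016080) (l 13019088)) (l 12918752)) (l 4))) (c (l 13063712) (c (l 13074512) (c (l 13048304) (l 12996864))))) (l 12940936)) (l 4)) (c (c (a (l 13083432) (l 12965120)) (a (c (l 13087856) (a (l 12996200) (l 13061824))) (l 12964456))) (c (c (a (a (l 12917400) (c (l 12846112) (l 12990328))) (c (l 12966656) (a (c (l 12974008) (l 12946096)) (l 12927904)))) (a (l 12986080) (a (l 12917848) (l 12877840)))) (l 12890568)))) (l 4)) (a (a (b (a (c (c (l 12973464) (l 12956120))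 (c (c (l 12968608) (c (a (l 12868800) (l 12939408)) (l 12903160))) (l 12881656))) (c (c (l 12901168) (l 12924192)) (c (c (b (l 12865808) (l 12815392)) (c (l 12975688) (b (b (l 12956032) (b (l 12873744) (l 12805240))) (l 12795264)))) (l 12684408)))) (l 4)) (a (b (c (c (l 12816736) (l 12848608)) (c (b (l 12885952) (l 12746144)) (b (l 12846504) (c (l 12715192) (l 12671232))))) (l 4)) (c (c (l 12757160) (b (l 12756792) (l 12701232))) (c (b (l 12586680) (l 12668720)) (c (b (c (b (l 12806216) (a (l 12756024) (l 12780296))) (l 12783264)) (l 12406656)) (l 12770984)))))) (c (a (c (l 12682096) (a (l 12688560) (l 12622656))) (l 12644456)) (c (a (a (l 12713872) (b (l 12620712) (l 12592672))) (a (l 12556896) (l 12541848))) (c (a (c (l 12691784) (a (b (a (l 12732152) (l 12699480)) (l 12593400)) (l 12649064))) (a (l 12555000) (l 12497336))) (a (a (l 12699960) (a (l 12646392) (b (l 12613248) (l 12540376)))) (c (a (b (l 12570320) (l 12552024)) (l 12484824)) (a (l 12551128) (b (l 12498952) (c (l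 12466400) (l 12463096))))))))))) (l 4)) (l 4)), by decide +kernel⟩

def k4_pm_012_b : ∃ t, chk3 f_pm_012_b t 7 3 1 = true :=
  ⟨(l 4), by decide +kernel⟩

theorem s5_pm_012_b : ∃ t, chk3 f_pm_012_b t 7 2 1 = true := ex3_a k2_pm_012_b k3_pm_012_b

theorem s6_pm_012_b : ∃ t, chk3 f_pm_012_b t 7 1 1 = true := ex3_b s5_pm_012_b k4_pm_012_b

theorem s7_pm_012_b : ∃ t, chk3 f_pm_012_b t 3 1 1 = true := ex3_a k1_pm_012_b s6_pm_012_b

theorem s8_pm_012_b : ∃ t, chk3 f_pm_012_b t 1 1 1 = true := ex3_a k0_pm_012_b s7_pm_012_b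

theorem c_pm_012_b : CertNX 0 536870912 1239849684 370763052 1046898278 26843546 3 false true false .pnp 0 1 2
    ndN3q0 ndN2q2b pcN1 Cut.none Ext.none :=
  certNX2 (fam := false) (s1 := true) (s2 := false) (a := 0) (b := 1) (c := 2) (cn := .pnp) (n1 := ndN3q0) (n2 := ndN2q2b) (pc := pcN1) (cut := Cut.none) (xt := Ext.none) (P1 := 0) (W1 := 536870912) (P2 := 1239849684) (W2 := 370763052) (P3 := 1046898278) (W3 := 26843546) (N0 := 3)
    rfl (fun _ => rfl) s8_pm_012_b

noncomputable def f_pm_022_a : ℕ → ℕ → ℕ → ℕ → Bool := onCell 1073741824 536870912 0 420477299 1046898278 26843546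
    (rowNX 3 2 false true false .pp 0 2 2 (qsf 0 536870912 0 420477299 2) ndN3q0 ndN2q2a pcN2 Cut.none Ext.none)

def k0_pm_022_a : ∃ t, chk3 f_pm_022_a t 4 2 1 = true :=
  ⟨(b (a (a (c (l 12899296) (c (a (l 12639464) (c (l 12988840) (a (l 12871560) (l 13050936)))) (a (c (l 12569528) (a (l 12469816) (l 12635248))) (l 12903064)))) (c (a (c (l 13377752) (l 13349872)) (c (b (l 13811608) (l 13770968)) (a (c (l 13666792) (l 13619880)) (b (l 13890408) (l 13866312))))) (a (c (c (l 13322424) (l 13269160)) (l 13219784)) (l 13644424)))) (a (c (a (c (a (l 14258984) (c (l 14588216) (l 14522976))) (l 14300424)) (a (c (c (l 14836032) (l 14747240)) (l 14719656)) (b (l 14997696) (l 14951192)))) (a (l 14228424) (b (l 14807416) (l 14766912)))) (a (c (l 15178952) (l 15130080)) (c (l 15247192) (l 15460640))))) (a (a (a (l 4) (c (l 13065624) (c (c (l 13012928) (a (l 12902784) (l 13068856))) (l 71630510023)))) (a (a (b (c (l 13237776) (a (l 12876136) (l 13166768))) (l 4)) (c (b (l 13397664) (l 261147292695))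 (b (l 13308128) (l 169342204167)))) (c (c (b (l 13853352) (l 14104824)) (b (a (l 13607336) (l 13971560)) (c (a (l 13958536) (l 14255240)) (l 13905328)))) (b (l 13694848) (l 13957816))))) (a (a (c (c (b (a (l 14345912) (l 14635288)) (a (l 14587416) (c (l 14882240) (l 14626744)))) (b (l 14384416) (a (l 14483392) (l 14728832)))) (b (l 14314424) (l 14540424))) (c (c (b (a (c (l 14900072) (l 14807288)) (l 14996648)) (a (c (l 14869880) (l 14943864)) (l 15092408))) (b (l 14864040) (l 14988704))) (b (l 14817928) (l 14946528)))) (b (a (l 15134512) (c (l 15505560) (l 15462984))) (a (c (l 15260544) (l 15212424)) (c (a (l 15520528) (l 15471616)) (l 15343840))))))), by decide +kernel⟩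

def k1_pm_022_a : ∃ t, chk3 f_pm_022_a t 5 2 1 = true :=
  ⟨(a (a (a (b (c (b (l 15852376) (a (l 15742160) (l 15916104))) (b (l 15815176) (l 15706112))) (b (c (a (l 15790928) (a (l 15918784) (l 15972192))) (a (l 15745328) (c (l 15903320) (l 15906112)))) (c (a (b (l 15869680) (l 15932848)) (l 1038876918535)) (a (c (l 15763768) (l 15765136)) (b (a (l 15959488) (l 15993400)) (l 1136050556487)))))) (b (c (b (l 16132280) (a (l 16053712) (l 16276888))) (b (a (l 16065144) (l 16258776)) (a (l 15875464) (l 16078160)))) (b (c (a (l 16120120) (l 16285800)) (a (c (l 16062432) (l 15903728)) (l 16258384))) (c (l 690448385815) (b (l 768294548167) (l 1)))))) (b (l 1) (l 1))) (l 1)), by decide +kernel⟩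

def k2_pm_022_a : ∃ t, chk3 f_pm_022_a t 8 3 1 = true :=
  ⟨(a (l 4) (a (l 4) (a (b (l 4) (b (l 4) (b (l 4) (c (c (b (l 15992384) (a (l 16185872) (l 16153480))) (c (b (l 15903632) (a (l 16240824) (b (l 16261744) (l 16301640)))) (c (a (b (l 4) (l 16183128)) (c (l 16000368) (b (l 16044368) (l 16245056)))) (a (l 15854168) (l 15881504))))) (c (b (l 15982496) (l 16130296)) (l 15953024)))))) (b (b (c (c (l 14642664) (c (l 636959003015) (l 14555240))) (l 14504600)) (l 4)) (b (l 4) (c (a (c (b (l 15832248) (b (l 16118472) (b (l 16324992) (l 16419536)))) (b (c (c (l 15919736) (l 15878448)) (l 15809208)) (c (b (c (l 16222000) (l 16154976)) (c (b (l 16377976) (l 16506992)) (b (l 16333192) (c (l 16489152) (l 16444312))))) (b (l 16017544) (c (l 16172984) (l 16324064)))))) (c (b (b (l 15867864) (l 15988584)) (b (l 16048256) (c (l 16447928) (l 16463992)))) (b (c (c (l 15852280) (l 15735232)) (l 15871880)) (c (b (c (l 16211128) (l 16134864)) (c (l 16413672) (c (l 16376264) (l 16328224)))) (b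 (l 16184272) (l 16378672)))))) (c (b (l 15827824) (b (l 16023976) (a (l 16225768) (l 16237224)))) (b (l 15814864) (b (l 16110664) (c (a (l 16293632) (l 16246624)) (l 16159912))))))))))), by decide +kernel⟩

def k3_pm_022_a : ∃ t, chk3 f_pm_022_a t 9 6 1 = true :=
  ⟨(a (c (a (b (c (a (b (l 14739896) (l 14906096)) (c (l 15099000) (l 15033216))) (b (l 14577944) (l 14899568))) (a (a (l 4) (c (c (l 15236192) (l 15215264)) (l 15106216))) (c (c (l 15355616) (c (l 15303512) (l 15238896))) (l 15209520)))) (b (c (a (c (l 15125352) (l 15115352)) (l 15262232)) (l 15161480)) (c (a (c (a (l 15255152) (l 15389560)) (l 15184304)) (b (l 15446680) (a (l 15432120) (l 15648592)))) (b (l 15342696) (l 15419320))))) (a (b (l 14813472) (l 15099544)) (b (l 15121064) (a (l 15318344) (l 15289840))))) (b (a (c (a (l 15371776) (b (l 15449800) (l 15571120))) (a (l 15324112) (l 15457096))) (c (a (b (l 15654056) (l 15612744)) (b (l 15802712) (l 15933928))) (a (b (l 15600112) (c (l 15721528) (l 15698720))) (b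 (c (l 15811080) (l 15789520)) (c (l 15910464) (l 913785616983)))))) (a (c (b (a (l 15570424) (c (l 15716912) (l 15686896))) (a (c (l 15739520) (l 15709984)) (l 818222576247))) (b (a (l 15515048) (c (l 15658600) (l 15634792))) (a (c (l 15681952) (l 15658112)) (c (l 806411255191) (a (l 15749776) (l 914859273943)))))) (c (b (l 826812593175) (l 994853439543)) (b (a (c (l 15843136) (l 912174823223)) (l 1126386800263)) (a (l 1130681631671) (l 1))))))), by decide +kernel⟩

def k4_pm_022_a : ∃ t, chk3 f_pm_022_a t 36 7 1 = true :=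
  ⟨(a (b (b (a (l 4) (c (c (c (l 15501440) (l 15314168)) (l 15376736)) (l 15340648))) (c (c (c (l 15756088) (a (l 15678520) (c (l 15816856) (l 15749464)))) (c (c (l 15441072) (l 15637000)) (l 15628840))) (l 15607768))) (c (c (b (c (b (l 16030088) (l 16175368)) (a (b (l 15986344) (l 16026776)) (c (b (l 16100152) (l 16223808)) (l 15976840)))) (c (b (l 16356992) (l 16437832)) (a (c (l 16357592) (b (l 16283368) (l 16417192))) (c (b (l 16431712) (l 1272953773671)) (l 582000690151))))) (b (c (b (c (l 15756056) (l 15902016)) (a (c (l 16115464) (l 16066264)) (l 16048776))) (b (l 15890320) (l 16092680))) (c (b (c (a (l 16233760) (l 16316016)) (l 16173112)) (c (a (l 16418664) (l 773126964055)) (l 16428080))) (b (l 16226928) (l 16478504))))) (b (c (b (l 15875232) (l 16012032)) (l 15833672)) (a (b (c (l 16201104) (l 16120072)) (b (c (l 16400856) (l 16282152)) (b (l 559452217255) (l 16496480)))) (b (c (l 16248520) (b (l 16246768) (l 16266480))) (b (l 927208728007) (l 1))))))) (b (c (c (b (c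 (b (l 15562256) (l 15674504)) (c (b (l 15508328) (l 15637528)) (b (l 15444288) (l 15571072)))) (c (a (l 15794248) (b (l 15913944) (l 15956800))) (a (c (l 15873736) (l 15787688)) (c (l 15793480) (l 15853576))))) (b (l 15480448) (l 15648352))) (b (l 15450656) (c (l 15764936) (l 15746696)))) (b (c (c (c (b (a (l 16183632) (l 16149720)) (c (l 16283032) (l 834329752231))) (c (a (l 16034488) (l 828423801175)) (a (b (l 16066672) (l 16234104)) (l 16079896)))) (b (l 16055512) (l 16229704))) (b (c (l 15968784) (l 15927544)) (c (l 517038697575) (a (l 16020168) (l 844530036631))))) (a (b (c (c (c (l 303901781687) (c (l 16424544) (l 1210139518263))) (l 16373712)) (c (l 16368888) (l 896606789687))) (l 1)) (l 1))))), by decide +kernel⟩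

def k5_pm_022_a : ∃ t, chk3 f_pm_022_a t 37 7 1 = true :=
  ⟨(a (b (c (c (b (c (a (b (l 15660552) (l 15805504)) (b (l 15703240) (l 15843192))) (b (l 15589288) (l 15542840))) (c (a (a (l 15784592) (l 15796240)) (c (l 16081744) (l 15864872))) (a (a (l 15772536) (l 15948288)) (l 15987896)))) (b (b (l 15562104) (l 15702888)) (b (l 15796320) (l 15933000)))) (b (b (l 15531032) (c (l 15668656) (l 15651672))) (c (a (b (l 15790024) (l 15963976)) (l 15715792)) (b (l 15808272) (a (l 15941704) (l 15988448)))))) (b (c (c (c (a (c (b (l 16205832) (b (l 1210139598423) (l 1))) (l 1179537512503)) (b (l 1190811810807) (l 1))) (a (a (l 1167726220055) (l 16157616)) (l 16167216))) (l 900364509063)) (b (a (c (l 16133480) (a (l 16102632) (l 16135264))) (l 853119919847)) (a (l 990559089575) (l 1)))) (l 1))) (b (c (b (c (a (c (b (l 15752032) (l 15871320)) (l 15770928)) (b (l 15787264) (l 15892960))) (b (l 15715448) (l 15839320))) (c (c (c (l 834865969751) (l 16057064)) (l 16053160)) (l 15876032))) (c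 (b (b (l 15685448) (l 15812832)) (l 800506083927)) (b (b (l 15660248) (l 15789008)) (b (a (l 15911032) (l 15971720)) (l 961030739959))))) (l 1))), by decide +kernel⟩

def k6_pm_022_a : ∃ t, chk3 f_pm_022_a t 19 7 1 = true :=
  ⟨(b (a (b (a (c (b (l 15842520) (l 15942480)) (b (c (l 15811736) (l 743597403287)) (c (l 15922472) (l 786547324039)))) (c (l 1099543176295) (b (l 909490799591) (l 1)))) (a (c (l 1234834994087) (l 1235371726055)) (l 1))) (l 1)) (l 1)), by decide +kernel⟩

def k7_pm_022_a : ∃ t, chk3 f_pm_022_a t 5 3 1 = true :=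
  ⟨(b (a (a (a (b (a (c (l 999148485639) (b (l 892310966455) (l 15909336))) (l 1)) (l 1)) (l 1)) (l 1)) (l 1)) (l 1)), by decide +kernel⟩

def k8_pm_022_a : ∃ t, chk3 f_pm_022_a t 3 1 1 = true :=
  ⟨(l 1), by decide +kernel⟩

theorem s9_pm_022_a : ∃ t, chk3 f_pm_022_a t 18 7 1 = true := ex3_a k4_pm_022_a k5_pm_022_a

theorem s10_pm_022_a : ∃ t, chk3 f_pm_022_a t 9 7 1 = true := ex3_a s9_pm_022_a k6_pm_022_a

theorem s11_pm_022_a : ∃ t, chk3 f_pm_022_a t 9 3 1 = true := ex3_b k3_pm_022_a s10_pm_022_a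

theorem s12_pm_022_a : ∃ t, chk3 f_pm_022_a t 4 3 1 = true := ex3_a k2_pm_022_a s11_pm_022_a

theorem s13_pm_022_a : ∃ t, chk3 f_pm_022_a t 2 3 1 = true := ex3_a s12_pm_022_a k7_pm_022_a

theorem s14_pm_022_a : ∃ t, chk3 f_pm_022_a t 2 2 1 = true := ex3_a k0_pm_022_a k1_pm_022_a

theorem s15_pm_022_a : ∃ t, chk3 f_pm_022_a t 2 1 1 = true := ex3_b s14_pm_022_a s13_pm_022_a

theorem s16_pm_022_a : ∃ t, chk3 f_pm_022_a t 1 1 1 = true := ex3_a s15_pm_022_a k8_pm_022_a

theorem c_pm_022_a : CertNX 0 536870912 0 420477299 1046898278 26843546 3 false true false .pp 0 2 2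
    ndN3q0 ndN2q2a pcN2 Cut.none Ext.none :=
  certNX2 (fam := false) (s1 := true) (s2 := false) (a := 0) (b := 2) (c := 2) (cn := .pp) (n1 := ndN3q0) (n2 := ndN2q2a) (pc := pcN2) (cut := Cut.none) (xt := Ext.none) (P1 := 0) (W1 := 536870912) (P2 := 0) (W2 := 420477299) (P3 := 1046898278) (W3 := 26843546) (N0 := 3)
    rfl (fun _ => rfl) s16_pm_022_a

noncomputable def f_pm_022_b : ℕ → ℕ → ℕ → ℕ → Bool := onCell 0 536870912 1073741824 536870912 1046898278 26843546
    (rowNX 3 1 false true false .pp 0 2 2 (qsf 0 536870912 1239849684 370763052 2) ndN3q0 ndN2q2b pcN2 Cut.none Ext.none)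

def k0_pm_022_b : ∃ t, chk3 f_pm_022_b t 2 8 1 = true :=
  ⟨(a (a (l 1) (b (b (l 1) (a (l 1) (c (l 842377001511) (c (c (l 13475720) (b (l 1) (l 703327317191))) (l 649640103239))))) (b (a (l 1) (a (b (l 1) (c (l 807480755751) (l 675410347239))) (c (l 13421912) (c (l 13376520) (l 13320304))))) (c (a (c (l 824662463607) (a (l 1) (c (l 14246488) (l 14266624)))) (c (l 13769352) (a (b (l 671652544247) (l 13834384)) (l 13653216)))) (a (l 14505904) (l 13608824)))))) (a (c (b (a (l 13034840) (l 12871608)) (c (a (l 13432520) (l 13332952)) (b (a (l 13268896) (l 13177552)) (a (c (l 13529576) (l 13475968)) (l 13294960))))) (c (b (c (a (l 12968208) (l 12802144)) (b (l 550317685095) (a (b (l 12943024) (l 13052112)) (l 12875488)))) (b (a (l 13217200) (l 13124648)) (l 13345840))) (b (b (a (c (l 550317804311) (b (l 539580240231) (l 12799088))) (c (l 12610168) (l 12567800))) (a (l 12943448) (l 12827584))) (l 12998792)))) (l 4))), by decide +kernel⟩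

def k1_pm_022_b : ∃ t, chk3 f_pm_022_b t 2 9 1 = true :=
  ⟨(a (a (b (b (l 1) (a (l 1) (c (c (b (l 1) (l 806410438119)) (l 766145116759)) (l 679708836759)))) (a (a (l 1) (c (b (l 1) (l 15700480)) (l 702794914375))) (b (a (l 737154164615) (l 15159952)) (a (l 182566673927) (l 15412624))))) (b (a (c (b (c (a (b (l 1) (l 846674787879)) (b (l 14384456) (l 14446120))) (a (l 14849744) (l 14318592))) (c (b (a (c (l 14955776) (l 14872432)) (l 14506976)) (l 14718664)) (l 14656456))) (b (l 14488344) (l 14604072))) (c (b (c (c (l 14007816) (l 13732512)) (l 13870096)) (c (c (b (l 14130080) (l 14144792)) (l 14068920)) (l 14032096))) (b (l 13785376) (l 13961608)))) (a (b (l 14666336) (l 14872760)) (b (l 14166000) (l 14434128))))) (a (a (b (c (b (c (c (l 13800376) (l 13752240)) (l 13651880)) (c (c (l 13933672) (l 13843760)) (l 13803624))) (l 13451984)) (l 13976304)) (l 4)) (l 4))), by decide +kernel⟩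

def k2_pm_022_b : ∃ t, chk3 f_pm_022_b t 2 5 1 = true :=
  ⟨(a (b (a (b (a (b (a (a (l 1) (c (l 15922752) (l 15856104))) (c (l 15705776) (l 15821152))) (a (c (a (l 16159240) (l 16180320)) (a (l 567504535495) (l 16166376))) (c (l 16153152) (l 16133968)))) (b (c (l 15694240) (l 15708392)) (c (l 16043248) (l 16028160)))) (a (a (b (c (a (l 16013080) (l 16001808)) (b (a (l 16127376) (l 16151664)) (l 15779816))) (c (l 15664536) (l 15410408))) (b (c (l 16091496) (l 16090584)) (c (l 15758912) (l 15745080)))) (b (a (l 16051792) (l 16130888)) (a (l 15814656) (l 15971648))))) (b (a (b (a (l 15473064) (l 15138472)) (a (l 15766864) (l 15437040))) (b (l 14747368) (l 15051280))) (a (b (l 15639080) (l 15993640)) (a (l 15510816) (l 4))))) (a (b (a (a (c (b (l 15352648) (l 15079640)) (a (b (l 15310000) (l 15008504)) (l 15184464))) (c (l 15316544) (l 15350704))) (c (l 15478616) (l 15553672))) (a (a (c (l 14791856) (a (l 14702088) (l 14850352))) (c (l 15051496) (l 15009672))) (c (l 15183848) (l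 15288848)))) (a (a (b (l 15887312) (l 15569896)) (b (l 16133064) (l 4))) (l 4)))) (l 4)), by decide +kernel⟩

def k3_pm_022_b : ∃ t, chk3 f_pm_022_b t 3 2 1 = true :=
  ⟨(l 4), by decide +kernel⟩

def k4_pm_022_b : ∃ t, chk3 f_pm_022_b t 1 3 1 = true :=
  ⟨(a (a (b (a (b (a (c (a (b (l 14589544) (l 14338312)) (b (l 14798688) (l 14540240))) (a (b (l 14544456) (l 14282208)) (b (l 14746392) (l 14476416)))) (b (c (l 15082856) (l 15029512)) (c (l 14818512) (l 14753024)))) (a (c (b (a (l 14122216) (l 14321336)) (l 14194240)) (b (a (l 14034984) (l 14247080)) (l 14127872))) (l 4))) (l 4)) (l 4)) (l 4)) (l 4)), by decide +kernel⟩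

theorem s5_pm_022_b : ∃ t, chk3 f_pm_022_b t 2 4 1 = true := ex3_b k0_pm_022_b k1_pm_022_b

theorem s6_pm_022_b : ∃ t, chk3 f_pm_022_b t 2 2 1 = true := ex3_b s5_pm_022_b k2_pm_022_b

theorem s7_pm_022_b : ∃ t, chk3 f_pm_022_b t 1 2 1 = true := ex3_a s6_pm_022_b k3_pm_022_b

theorem s8_pm_022_b : ∃ t, chk3 f_pm_022_b t 1 1 1 = true := ex3_b s7_pm_022_b k4_pm_022_b

theorem c_pm_022_b : CertNX 0 536870912 1239849684 370763052 1046898278 26843546 3 false true false .pp 0 2 2
    ndN3q0 ndN2q2b pcN2 Cut.none Ext.none :=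
  certNX1 (fam := false) (s1 := true) (s2 := false) (a := 0) (b := 2) (c := 2) (cn := .pp) (n1 := ndN3q0) (n2 := ndN2q2b) (pc := pcN2) (cut := Cut.none) (xt := Ext.none) (P1 := 0) (W1 := 536870912) (P2 := 1239849684) (W2 := 370763052) (P3 := 1046898278) (W3 := 26843546) (N0 := 3)
    rfl (fun _ => rfl) s8_pm_022_b

noncomputable def f_pm_023 : ℕ → ℕ → ℕ → ℕ → Bool := onCell 0 536870912 1610612736 469762048 1046898278 26843546
    (rowNX 3 0 false true false .up 0 2 3 (qsf 0 536870912 1610612736 469762048 2) ndN3q0 ndN2q3 pcN2 Cut.none Ext.none)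

def k0_pm_023 : ∃ t, chk3 f_pm_023 t 1 1 1 = true :=
  ⟨(a (l 4) (l 4)), by decide +kernel⟩

theorem c_pm_023 : CertNX 0 536870912 1610612736 469762048 1046898278 26843546 3 false true false .up 0 2 3
    ndN3q0 ndN2q3 pcN2 Cut.none Ext.none :=
  certNX0 (fam := false) (s1 := true) (s2 := false) (a := 0) (b := 2) (c := 3) (cn := .up) (n1 := ndN3q0) (n2 := ndN2q3) (pc := pcN2) (cut := Cut.none) (xt := Ext.none) (P1 := 0) (W1 := 536870912) (P2 := 1610612736) (W2 := 469762048) (P3 := 1046898278) (W3 := 26843546) (N0 := 3)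
    rfl k0_pm_023

noncomputable def f_pm_033 : ℕ → ℕ → ℕ → ℕ → Bool := onCell 0 536870912 1610612736 469762048 1046898278 26843546
    (rowNX 3 0 false true false .pnn 0 3 3 (qsf 0 536870912 1610612736 469762048 3) ndN3q0 ndN2q3 pcN3 Cut.none Ext.none)

def k0_pm_033 : ∃ t, chk3 f_pm_033 t 1 1 1 = true :=
  ⟨(a (l 4) (l 4)), by decide +kernel⟩

theorem c_pm_033 : CertNX 0 536870912 1610612736 469762048 1046898278 26843546 3 false true false .pnn 0 3 3
    ndN3q0 ndN2q3 pcN3 Cut.none Ext.none :=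
  certNX0 (fam := false) (s1 := true) (s2 := false) (a := 0) (b := 3) (c := 3) (cn := .pnn) (n1 := ndN3q0) (n2 := ndN2q3) (pc := pcN3) (cut := Cut.none) (xt := Ext.none) (P1 := 0) (W1 := 536870912) (P2 := 1610612736) (W2 := 469762048) (P3 := 1046898278) (W3 := 26843546) (N0 := 3)
    rfl k0_pm_033

noncomputable def f_pm_101 : ℕ → ℕ → ℕ → ℕ → Bool := onCell 536870912 536870912 536870912 536870912 1046898278 26843546
    (rowNX 3 0 false true false .npn 1 0 1 (qsf 536870912 536870912 536870912 536870912 0) ndN3q1 ndN2q1 pcN0 Cut.none Ext.none)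

def k0_pm_101 : ∃ t, chk3 f_pm_101 t 1 1 1 = true :=
  ⟨(l 4), by decide +kernel⟩

theorem c_pm_101 : CertNX 536870912 536870912 536870912 536870912 1046898278 26843546 3 false true false .npn 1 0 1
    ndN3q1 ndN2q1 pcN0 Cut.none Ext.none :=
  certNX0 (fam := false) (s1 := true) (s2 := false) (a := 1) (b := 0) (c := 1) (cn := .npn) (n1 := ndN3q1) (n2 := ndN2q1) (pc := pcN0) (cut := Cut.none) (xt := Ext.none) (P1 := 536870912) (W1 := 536870912) (P2 := 536870912) (W2 := 536870912) (P3 := 1046898278) (W3 := 26843546) (N0 := 3)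
    rfl k0_pm_101

noncomputable def f_pm_102_a : ℕ → ℕ → ℕ → ℕ → Bool := onCell 536870912 536870912 0 420477299 1046898278 26843546
    (rowNX 3 0 false true false .npp 1 0 2 (qsf 536870912 536870912 0 420477299 0) ndN3q1 ndN2q2a pcN0 Cut.none Ext.none)

def k0_pm_102_a : ∃ t, chk3 f_pm_102_a t 1 1 1 = true :=
  ⟨(l 4), by decide +kernel⟩

theorem c_pm_102_a : CertNX 536870912 536870912 0 420477299 1046898278 26843546 3 false true false .npp 1 0 2
    ndN3q1 ndN2q2a pcN0 Cut.none Ext.none :=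
  certNX0 (fam := false) (s1 := true) (s2 := false) (a := 1) (b := 0) (c := 2) (cn := .npp) (n1 := ndN3q1) (n2 := ndN2q2a) (pc := pcN0) (cut := Cut.none) (xt := Ext.none) (P1 := 536870912) (W1 := 536870912) (P2 := 0) (W2 := 420477299) (P3 := 1046898278) (W3 := 26843546) (N0 := 3)
    rfl k0_pm_102_a

noncomputable def f_pm_102_b : ℕ → ℕ → ℕ → ℕ → Bool := onCell 536870912 536870912 1239849684 370763052 1046898278 26843546
    (rowNX 3 0 false true false .npp 1 0 2 (qsf 536870912 536870912 1239849684 370763052 0) ndN3q1 ndN2q2b pcN0 Cut.none Ext.none)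

def k0_pm_102_b : ∃ t, chk3 f_pm_102_b t 1 1 1 = true :=
  ⟨(l 4), by decide +kernel⟩

theorem c_pm_102_b : CertNX 536870912 536870912 1239849684 370763052 1046898278 26843546 3 false true false .npp 1 0 2
    ndN3q1 ndN2q2b pcN0 Cut.none Ext.none :=
  certNX0 (fam := false) (s1 := true) (s2 := false) (a := 1) (b := 0) (c := 2) (cn := .npp) (n1 := ndN3q1) (n2 := ndN2q2b) (pc := pcN0) (cut := Cut.none) (xt := Ext.none) (P1 := 536870912) (W1 := 536870912) (P2 := 1239849684) (W2 := 370763052) (P3 := 1046898278) (W3 := 26843546) (N0 := 3)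
    rfl k0_pm_102_b

noncomputable def f_pm_112_a : ℕ → ℕ → ℕ → ℕ → Bool := onCell 536870912 536870912 0 420477299 1046898278 26843546
    (rowNX 3 0 false true false .dn 1 1 2 (qsf 536870912 536870912 0 420477299 1) ndN3q1 ndN2q2a pcN1 Cut.none Ext.none)

def k0_pm_112_a : ∃ t, chk3 f_pm_112_a t 1 1 1 = true :=
  ⟨(l 4), by decide +kernel⟩

theorem c_pm_112_a : CertNX 536870912 536870912 0 420477299 1046898278 26843546 3 false true false .dn 1 1 2
    ndN3q1 ndN2q2a pcN1 Cut.none Ext.none :=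
  certNX0 (fam := false) (s1 := true) (s2 := false) (a := 1) (b := 1) (c := 2) (cn := .dn) (n1 := ndN3q1) (n2 := ndN2q2a) (pc := pcN1) (cut := Cut.none) (xt := Ext.none) (P1 := 536870912) (W1 := 536870912) (P2 := 0) (W2 := 420477299) (P3 := 1046898278) (W3 := 26843546) (N0 := 3)
    rfl k0_pm_112_a

noncomputable def f_pm_112_b : ℕ → ℕ → ℕ → ℕ → Bool := onCell 536870912 536870912 1239849684 370763052 1046898278 26843546
    (rowNX 3 0 false true false .dn 1 1 2 (qsf 536870912 536870912 1239849684 370763052 1) ndN3q1 ndN2q2b pcN1 Cut.none Ext.none)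

def k0_pm_112_b : ∃ t, chk3 f_pm_112_b t 1 1 1 = true :=
  ⟨(l 4), by decide +kernel⟩

theorem c_pm_112_b : CertNX 536870912 536870912 1239849684 370763052 1046898278 26843546 3 false true false .dn 1 1 2
    ndN3q1 ndN2q2b pcN1 Cut.none Ext.none :=
  certNX0 (fam := false) (s1 := true) (s2 := false) (a := 1) (b := 1) (c := 2) (cn := .dn) (n1 := ndN3q1) (n2 := ndN2q2b) (pc := pcN1) (cut := Cut.none) (xt := Ext.none) (P1 := 536870912) (W1 := 536870912) (P2 := 1239849684) (W2 := 370763052) (P3 := 1046898278) (W3 := 26843546) (N0 := 3)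
    rfl k0_pm_112_b

noncomputable def f_pm_113 : ℕ → ℕ → ℕ → ℕ → Bool := onCell 536870912 536870912 1610612736 469762048 1046898278 26843546
    (rowNX 3 0 false true false .nn 1 1 3 (qsf 536870912 536870912 1610612736 469762048 1) ndN3q1 ndN2q3 pcN1 Cut.none Ext.none)

def k0_pm_113 : ∃ t, chk3 f_pm_113 t 1 1 1 = true :=
  ⟨(a (l 4) (l 4)), by decide +kernel⟩

theorem c_pm_113 : CertNX 536870912 536870912 1610612736 469762048 1046898278 26843546 3 false true false .nn 1 1 3
    ndN3q1 ndN2q3 pcN1 Cut.none Ext.none :=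
  certNX0 (fam := false) (s1 := true) (s2 := false) (a := 1) (b := 1) (c := 3) (cn := .nn) (n1 := ndN3q1) (n2 := ndN2q3) (pc := pcN1) (cut := Cut.none) (xt := Ext.none) (P1 := 536870912) (W1 := 536870912) (P2 := 1610612736) (W2 := 469762048) (P3 := 1046898278) (W3 := 26843546) (N0 := 3)
    rfl k0_pm_113

noncomputable def f_pm_123 : ℕ → ℕ → ℕ → ℕ → Bool := onCell 536870912 536870912 1610612736 469762048 1046898278 26843546
    (rowNX 3 0 false true false .npn 1 2 3 (qsf 536870912 536870912 1610612736 469762048 2) ndN3q1 ndN2q3 pcN2 Cut.none Ext.none)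

def k0_pm_123 : ∃ t, chk3 f_pm_123 t 1 1 1 = true :=
  ⟨(b (l 4) (l 4)), by decide +kernel⟩

theorem c_pm_123 : CertNX 536870912 536870912 1610612736 469762048 1046898278 26843546 3 false true false .npn 1 2 3
    ndN3q1 ndN2q3 pcN2 Cut.none Ext.none :=
  certNX0 (fam := false) (s1 := true) (s2 := false) (a := 1) (b := 2) (c := 3) (cn := .npn) (n1 := ndN3q1) (n2 := ndN2q3) (pc := pcN2) (cut := Cut.none) (xt := Ext.none) (P1 := 536870912) (W1 := 536870912) (P2 := 1610612736) (W2 := 469762048) (P3 := 1046898278) (W3 := 26843546) (N0 := 3)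
    rfl k0_pm_123

noncomputable def f_pm_133 : ℕ → ℕ → ℕ → ℕ → Bool := onCell 536870912 536870912 1610612736 469762048 1046898278 26843546
    (rowNX 3 0 false true false .dn 1 3 3 (qsf 536870912 536870912 1610612736 469762048 3) ndN3q1 ndN2q3 pcN3 Cut.none Ext.none)

def k0_pm_133 : ∃ t, chk3 f_pm_133 t 1 1 1 = true :=
  ⟨(l 1), by decide +kernel⟩

theorem c_pm_133 : CertNX 536870912 536870912 1610612736 469762048 1046898278 26843546 3 false true false .dn 1 3 3
    ndN3q1 ndN2q3 pcN3 Cut.none Ext.none :=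
  certNX0 (fam := false) (s1 := true) (s2 := false) (a := 1) (b := 3) (c := 3) (cn := .dn) (n1 := ndN3q1) (n2 := ndN2q3) (pc := pcN3) (cut := Cut.none) (xt := Ext.none) (P1 := 536870912) (W1 := 536870912) (P2 := 1610612736) (W2 := 469762048) (P3 := 1046898278) (W3 := 26843546) (N0 := 3)
    rfl k0_pm_133

noncomputable def f_pm_202_a : ℕ → ℕ → ℕ → ℕ → Bool := onCell 1073741824 536870912 0 420477299 1046898278 26843546
    (rowNX 3 0 false true false .pp 2 0 2 (qsf 1073741824 536870912 0 420477299 0) ndN3q2 ndN2q2a pcN0 Cut.none Ext.none)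

def k0_pm_202_a : ∃ t, chk3 f_pm_202_a t 1 1 1 = true :=
  ⟨(a (l 3) (l 1)), by decide +kernel⟩

theorem c_pm_202_a : CertNX 1073741824 536870912 0 420477299 1046898278 26843546 3 false true false .pp 2 0 2
    ndN3q2 ndN2q2a pcN0 Cut.none Ext.none :=
  certNX0 (fam := false) (s1 := true) (s2 := false) (a := 2) (b := 0) (c := 2) (cn := .pp) (n1 := ndN3q2) (n2 := ndN2q2a) (pc := pcN0) (cut := Cut.none) (xt := Ext.none) (P1 := 1073741824) (W1 := 536870912) (P2 := 0) (W2 := 420477299) (P3 := 1046898278) (W3 := 26843546) (N0 := 3)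
    rfl k0_pm_202_a

noncomputable def f_pm_202_b : ℕ → ℕ → ℕ → ℕ → Bool := onCell 1073741824 536870912 1239849684 370763052 1046898278 26843546
    (rowNX 3 0 false true false .pp 2 0 2 (qsf 1073741824 536870912 1239849684 370763052 0) ndN3q2 ndN2q2b pcN0 Cut.none Ext.none)

def k0_pm_202_b : ∃ t, chk3 f_pm_202_b t 1 1 1 = true :=
  ⟨(l 3), by decide +kernel⟩

theorem c_pm_202_b : CertNX 1073741824 536870912 1239849684 370763052 1046898278 26843546 3 false true false .pp 2 0 2
    ndN3q2 ndN2q2b pcN0 Cut.none Ext.none :=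
  certNX0 (fam := false) (s1 := true) (s2 := false) (a := 2) (b := 0) (c := 2) (cn := .pp) (n1 := ndN3q2) (n2 := ndN2q2b) (pc := pcN0) (cut := Cut.none) (xt := Ext.none) (P1 := 1073741824) (W1 := 536870912) (P2 := 1239849684) (W2 := 370763052) (P3 := 1046898278) (W3 := 26843546) (N0 := 3)
    rfl k0_pm_202_b

noncomputable def f_pm_203 : ℕ → ℕ → ℕ → ℕ → Bool := onCell 1073741824 536870912 0 536870912 1046898278 26843546
    (rowNX 3 1 false true false .up 2 0 3 (qsf 1073741824 536870912 1610612736 469762048 0) ndN3q2 ndN2q3 pcN0 Cut.none Ext.none)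

def k0_pm_203 : ∃ t, chk3 f_pm_203 t 1 1 1 = true :=
  ⟨(l 3), by decide +kernel⟩

theorem c_pm_203 : CertNX 1073741824 536870912 1610612736 469762048 1046898278 26843546 3 false true false .up 2 0 3
    ndN3q2 ndN2q3 pcN0 Cut.none Ext.none :=
  certNX1 (fam := false) (s1 := true) (s2 := false) (a := 2) (b := 0) (c := 3) (cn := .up) (n1 := ndN3q2) (n2 := ndN2q3) (pc := pcN0) (cut := Cut.none) (xt := Ext.none) (P1 := 1073741824) (W1 := 536870912) (P2 := 1610612736) (W2 := 469762048) (P3 := 1046898278) (W3 := 26843546) (N0 := 3)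
    rfl (fun _ => rfl) k0_pm_203

noncomputable def f_pm_213 : ℕ → ℕ → ℕ → ℕ → Bool := onCell 1073741824 536870912 1610612736 469762048 1046898278 26843546
    (rowNX 3 0 false true false .pnn 2 1 3 (qsf 1073741824 536870912 1610612736 469762048 1) ndN3q2 ndN2q3 pcN1 Cut.none Ext.none)

def k0_pm_213 : ∃ t, chk3 f_pm_213 t 1 1 1 = true :=
  ⟨(a (b (l 3) (l 3)) (l 3)), by decide +kernel⟩

theorem c_pm_213 : CertNX 1073741824 536870912 1610612736 469762048 1046898278 26843546 3 false true false .pnn 2 1 3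
    ndN3q2 ndN2q3 pcN1 Cut.none Ext.none :=
  certNX0 (fam := false) (s1 := true) (s2 := false) (a := 2) (b := 1) (c := 3) (cn := .pnn) (n1 := ndN3q2) (n2 := ndN2q3) (pc := pcN1) (cut := Cut.none) (xt := Ext.none) (P1 := 1073741824) (W1 := 536870912) (P2 := 1610612736) (W2 := 469762048) (P3 := 1046898278) (W3 := 26843546) (N0 := 3)
    rfl k0_pm_213

noncomputable def f_pm_303 : ℕ → ℕ → ℕ → ℕ → Bool := onCell 1610612736 536870912 1610612736 469762048 1046898278 26843546
    (rowNX 3 0 false true false .npn 3 0 3 (qsf 1610612736 536870912 1610612736 469762048 0) ndN3q3 ndN2q3 pcN0 Cut.none Ext.none)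

def k0_pm_303 : ∃ t, chk3 f_pm_303 t 1 1 1 = true :=
  ⟨(l 3), by decide +kernel⟩

theorem c_pm_303 : CertNX 1610612736 536870912 1610612736 469762048 1046898278 26843546 3 false true false .npn 3 0 3
    ndN3q3 ndN2q3 pcN0 Cut.none Ext.none :=
  certNX0 (fam := false) (s1 := true) (s2 := false) (a := 3) (b := 0) (c := 3) (cn := .npn) (n1 := ndN3q3) (n2 := ndN2q3) (pc := pcN0) (cut := Cut.none) (xt := Ext.none) (P1 := 1610612736) (W1 := 536870912) (P2 := 1610612736) (W2 := 469762048) (P3 := 1046898278) (W3 := 26843546) (N0 := 3)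
    rfl k0_pm_303

noncomputable def f_pm_313 : ℕ → ℕ → ℕ → ℕ → Bool := onCell 1610612736 536870912 1610612736 469762048 1046898278 26843546
    (rowNX 3 0 false true false .dn 3 1 3 (qsf 1610612736 536870912 1610612736 469762048 1) ndN3q3 ndN2q3 pcN1 Cut.none Ext.none)

def k0_pm_313 : ∃ t, chk3 f_pm_313 t 1 1 1 = true :=
  ⟨(l 1), by decide +kernel⟩

theorem c_pm_313 : CertNX 1610612736 536870912 1610612736 469762048 1046898278 26843546 3 false true false .dn 3 1 3
    ndN3q3 ndN2q3 pcN1 Cut.none Ext.none :=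
  certNX0 (fam := false) (s1 := true) (s2 := false) (a := 3) (b := 1) (c := 3) (cn := .dn) (n1 := ndN3q3) (n2 := ndN2q3) (pc := pcN1) (cut := Cut.none) (xt := Ext.none) (P1 := 1610612736) (W1 := 536870912) (P2 := 1610612736) (W2 := 469762048) (P3 := 1046898278) (W3 := 26843546) (N0 := 3)
    rfl k0_pm_313

noncomputable def f_mm_001 : ℕ → ℕ → ℕ → ℕ → Bool := onCell 0 536870912 536870912 536870912 1046898278 26843546
    (rowNX 3 0 false false false .up 0 0 1 (qsf 0 536870912 536870912 536870912 0) ndN3q0 ndN2q1 pcN0 Cut.none Ext.none)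

def k0_mm_001 : ∃ t, chk3 f_mm_001 t 1 1 1 = true :=
  ⟨(l 3), by decide +kernel⟩

theorem c_mm_001 : CertNX 0 536870912 536870912 536870912 1046898278 26843546 3 false false false .up 0 0 1
    ndN3q0 ndN2q1 pcN0 Cut.none Ext.none :=
  certNX0 (fam := false) (s1 := false) (s2 := false) (a := 0) (b := 0) (c := 1) (cn := .up) (n1 := ndN3q0) (n2 := ndN2q1) (pc := pcN0) (cut := Cut.none) (xt := Ext.none) (P1 := 0) (W1 := 536870912) (P2 := 536870912) (W2 := 536870912) (P3 := 1046898278) (W3 := 26843546) (N0 := 3)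
    rfl k0_mm_001

noncomputable def f_mm_011 : ℕ → ℕ → ℕ → ℕ → Bool := onCell 0 536870912 536870912 536870912 1046898278 26843546
    (rowNX 3 0 false false false .pnn 0 1 1 (qsf 0 536870912 536870912 536870912 1) ndN3q0 ndN2q1 pcN1 Cut.none Ext.none)

def k0_mm_011 : ∃ t, chk3 f_mm_011 t 1 1 1 = true :=
  ⟨(l 3), by decide +kernel⟩

theorem c_mm_011 : CertNX 0 536870912 536870912 536870912 1046898278 26843546 3 false false false .pnn 0 1 1
    ndN3q0 ndN2q1 pcN1 Cut.none Ext.none :=
  certNX0 (fam := false) (s1 := false) (s2 := false) (a := 0) (b := 1) (c := 1) (cn := .pnn) (n1 := ndN3q0) (n2 := ndN2q1) (pc := pcN1) (cut := Cut.none) (xt := Ext.none) (P1 := 0) (W1 := 536870912) (P2 := 536870912) (W2 := 536870912) (P3 := 1046898278) (W3 := 26843546) (N0 := 3)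
    rfl k0_mm_011

noncomputable def f_mm_012_a : ℕ → ℕ → ℕ → ℕ → Bool := onCell 0 536870912 0 420477299 1046898278 26843546
    (rowNX 3 0 false false false .pnp 0 1 2 (qsf 0 536870912 0 420477299 1) ndN3q0 ndN2q2a pcN1 Cut.none Ext.none)

def k0_mm_012_a : ∃ t, chk3 f_mm_012_a t 1 1 1 = true :=
  ⟨(l 5), by decide +kernel⟩

theorem c_mm_012_a : CertNX 0 536870912 0 420477299 1046898278 26843546 3 false false false .pnp 0 1 2
    ndN3q0 ndN2q2a pcN1 Cut.none Ext.none :=
  certNX0 (fam := false) (s1 := false) (s2 := false) (a := 0) (b := 1) (c := 2) (cn := .pnp) (n1 := ndN3q0) (n2 := ndN2q2a) (pc := pcN1) (cut := Cut.none) (xt := Ext.none) (P1 := 0) (W1 := 536870912) (P2 := 0) (W2 := 420477299) (P3 := 1046898278) (W3 := 26843546) (N0 := 3)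
    rfl k0_mm_012_a

noncomputable def f_mm_012_b : ℕ → ℕ → ℕ → ℕ → Bool := onCell 0 536870912 1239849684 370763052 1046898278 26843546
    (rowNX 3 0 false false false .pnp 0 1 2 (qsf 0 536870912 1239849684 370763052 1) ndN3q0 ndN2q2b pcN1 Cut.none Ext.none)

def k0_mm_012_b : ∃ t, chk3 f_mm_012_b t 1 1 1 = true :=
  ⟨(l 5), by decide +kernel⟩

theorem c_mm_012_b : CertNX 0 536870912 1239849684 370763052 1046898278 26843546 3 false false false .pnp 0 1 2
    ndN3q0 ndN2q2b pcN1 Cut.none Ext.none :=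
  certNX0 (fam := false) (s1 := false) (s2 := false) (a := 0) (b := 1) (c := 2) (cn := .pnp) (n1 := ndN3q0) (n2 := ndN2q2b) (pc := pcN1) (cut := Cut.none) (xt := Ext.none) (P1 := 0) (W1 := 536870912) (P2 := 1239849684) (W2 := 370763052) (P3 := 1046898278) (W3 := 26843546) (N0 := 3)
    rfl k0_mm_012_b

noncomputable def f_mm_022_a : ℕ → ℕ → ℕ → ℕ → Bool := onCell 0 536870912 0 420477299 1046898278 26843546
    (rowNX 3 0 false false false .pp 0 2 2 (qsf 0 536870912 0 420477299 2) ndN3q0 ndN2q2a pcN2 Cut.none Ext.none)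

def k0_mm_022_a : ∃ t, chk3 f_mm_022_a t 1 1 1 = true :=
  ⟨(l 5), by decide +kernel⟩

theorem c_mm_022_a : CertNX 0 536870912 0 420477299 1046898278 26843546 3 false false false .pp 0 2 2
    ndN3q0 ndN2q2a pcN2 Cut.none Ext.none :=
  certNX0 (fam := false) (s1 := false) (s2 := false) (a := 0) (b := 2) (c := 2) (cn := .pp) (n1 := ndN3q0) (n2 := ndN2q2a) (pc := pcN2) (cut := Cut.none) (xt := Ext.none) (P1 := 0) (W1 := 536870912) (P2 := 0) (W2 := 420477299) (P3 := 1046898278) (W3 := 26843546) (N0 := 3)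
    rfl k0_mm_022_a

noncomputable def f_mm_022_b : ℕ → ℕ → ℕ → ℕ → Bool := onCell 0 536870912 1239849684 370763052 1046898278 26843546
    (rowNX 3 0 false false false .pp 0 2 2 (qsf 0 536870912 1239849684 370763052 2) ndN3q0 ndN2q2b pcN2 Cut.none Ext.none)

def k0_mm_022_b : ∃ t, chk3 f_mm_022_b t 1 1 1 = true :=
  ⟨(l 5), by decide +kernel⟩

theorem c_mm_022_b : CertNX 0 536870912 1239849684 370763052 1046898278 26843546 3 false false false .pp 0 2 2
    ndN3q0 ndN2q2b pcN2 Cut.none Ext.none :=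
  certNX0 (fam := false) (s1 := false) (s2 := false) (a := 0) (b := 2) (c := 2) (cn := .pp) (n1 := ndN3q0) (n2 := ndN2q2b) (pc := pcN2) (cut := Cut.none) (xt := Ext.none) (P1 := 0) (W1 := 536870912) (P2 := 1239849684) (W2 := 370763052) (P3 := 1046898278) (W3 := 26843546) (N0 := 3)
    rfl k0_mm_022_b

noncomputable def f_mm_023 : ℕ → ℕ → ℕ → ℕ → Bool := onCell 0 536870912 1610612736 469762048 1046898278 26843546
    (rowNX 3 0 false false false .up 0 2 3 (qsf 0 536870912 1610612736 469762048 2) ndN3q0 ndN2q3 pcN2 Cut.none Ext.none)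

def k0_mm_023 : ∃ t, chk3 f_mm_023 t 1 1 1 = true :=
  ⟨(l 5), by decide +kernel⟩

theorem c_mm_023 : CertNX 0 536870912 1610612736 469762048 1046898278 26843546 3 false false false .up 0 2 3
    ndN3q0 ndN2q3 pcN2 Cut.none Ext.none :=
  certNX0 (fam := false) (s1 := false) (s2 := false) (a := 0) (b := 2) (c := 3) (cn := .up) (n1 := ndN3q0) (n2 := ndN2q3) (pc := pcN2) (cut := Cut.none) (xt := Ext.none) (P1 := 0) (W1 := 536870912) (P2 := 1610612736) (W2 := 469762048) (P3 := 1046898278) (W3 := 26843546) (N0 := 3)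
    rfl k0_mm_023

noncomputable def f_mm_033 : ℕ → ℕ → ℕ → ℕ → Bool := onCell 0 536870912 1610612736 469762048 1046898278 26843546
    (rowNX 3 0 false false false .pnn 0 3 3 (qsf 0 536870912 1610612736 469762048 3) ndN3q0 ndN2q3 pcN3 Cut.none Ext.none)

def k0_mm_033 : ∃ t, chk3 f_mm_033 t 1 1 1 = true :=
  ⟨(l 5), by decide +kernel⟩

theorem c_mm_033 : CertNX 0 536870912 1610612736 469762048 1046898278 26843546 3 false false false .pnn 0 3 3
    ndN3q0 ndN2q3 pcN3 Cut.none Ext.none :=
  certNX0 (fam := false) (s1 := false) (s2 := false) (a := 0) (b := 3) (c := 3) (cn := .pnn) (n1 := ndN3q0) (n2 := ndN2q3) (pc := pcN3) (cut := Cut.none) (xt := Ext.none) (P1 := 0) (W1 := 536870912) (P2 := 1610612736) (W2 := 469762048) (P3 := 1046898278) (W3 := 26843546) (N0 := 3)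
    rfl k0_mm_033

noncomputable def f_mm_101 : ℕ → ℕ → ℕ → ℕ → Bool := onCell 536870912 536870912 536870912 536870912 1046898278 26843546
    (rowNX 3 0 false false false .npn 1 0 1 (qsf 536870912 536870912 536870912 536870912 0) ndN3q1 ndN2q1 pcN0 Cut.none Ext.none)

def k0_mm_101 : ∃ t, chk3 f_mm_101 t 1 1 1 = true :=
  ⟨(l 3), by decide +kernel⟩

theorem c_mm_101 : CertNX 536870912 536870912 536870912 536870912 1046898278 26843546 3 false false false .npn 1 0 1
    ndN3q1 ndN2q1 pcN0 Cut.none Ext.none :=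
  certNX0 (fam := false) (s1 := false) (s2 := false) (a := 1) (b := 0) (c := 1) (cn := .npn) (n1 := ndN3q1) (n2 := ndN2q1) (pc := pcN0) (cut := Cut.none) (xt := Ext.none) (P1 := 536870912) (W1 := 536870912) (P2 := 536870912) (W2 := 536870912) (P3 := 1046898278) (W3 := 26843546) (N0 := 3)
    rfl k0_mm_101

noncomputable def f_mm_102_a : ℕ → ℕ → ℕ → ℕ → Bool := onCell 536870912 536870912 0 420477299 1046898278 26843546
    (rowNX 3 0 false false false .npp 1 0 2 (qsf 536870912 536870912 0 420477299 0) ndN3q1 ndN2q2a pcN0 Cut.none Ext.none)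

def k0_mm_102_a : ∃ t, chk3 f_mm_102_a t 1 1 1 = true :=
  ⟨(l 5), by decide +kernel⟩

theorem c_mm_102_a : CertNX 536870912 536870912 0 420477299 1046898278 26843546 3 false false false .npp 1 0 2
    ndN3q1 ndN2q2a pcN0 Cut.none Ext.none :=
  certNX0 (fam := false) (s1 := false) (s2 := false) (a := 1) (b := 0) (c := 2) (cn := .npp) (n1 := ndN3q1) (n2 := ndN2q2a) (pc := pcN0) (cut := Cut.none) (xt := Ext.none) (P1 := 536870912) (W1 := 536870912) (P2 := 0) (W2 := 420477299) (P3 := 1046898278) (W3 := 26843546) (N0 := 3)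
    rfl k0_mm_102_a

noncomputable def f_mm_102_b : ℕ → ℕ → ℕ → ℕ → Bool := onCell 536870912 536870912 1239849684 370763052 1046898278 26843546
    (rowNX 3 0 false false false .npp 1 0 2 (qsf 536870912 536870912 1239849684 370763052 0) ndN3q1 ndN2q2b pcN0 Cut.none Ext.none)

def k0_mm_102_b : ∃ t, chk3 f_mm_102_b t 1 1 1 = true :=
  ⟨(l 5), by decide +kernel⟩

theorem c_mm_102_b : CertNX 536870912 536870912 1239849684 370763052 1046898278 26843546 3 false false false .npp 1 0 2
    ndN3q1 ndN2q2b pcN0 Cut.none Ext.none :=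
  certNX0 (fam := false) (s1 := false) (s2 := false) (a := 1) (b := 0) (c := 2) (cn := .npp) (n1 := ndN3q1) (n2 := ndN2q2b) (pc := pcN0) (cut := Cut.none) (xt := Ext.none) (P1 := 536870912) (W1 := 536870912) (P2 := 1239849684) (W2 := 370763052) (P3 := 1046898278) (W3 := 26843546) (N0 := 3)
    rfl k0_mm_102_b

noncomputable def f_mm_112_a : ℕ → ℕ → ℕ → ℕ → Bool := onCell 536870912 536870912 0 420477299 1046898278 26843546
    (rowNX 3 0 false false false .dn 1 1 2 (qsf 536870912 536870912 0 420477299 1) ndN3q1 ndN2q2a pcN1 Cut.none Ext.none)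

def k0_mm_112_a : ∃ t, chk3 f_mm_112_a t 1 1 1 = true :=
  ⟨(l 5), by decide +kernel⟩

theorem c_mm_112_a : CertNX 536870912 536870912 0 420477299 1046898278 26843546 3 false false false .dn 1 1 2
    ndN3q1 ndN2q2a pcN1 Cut.none Ext.none :=
  certNX0 (fam := false) (s1 := false) (s2 := false) (a := 1) (b := 1) (c := 2) (cn := .dn) (n1 := ndN3q1) (n2 := ndN2q2a) (pc := pcN1) (cut := Cut.none) (xt := Ext.none) (P1 := 536870912) (W1 := 536870912) (P2 := 0) (W2 := 420477299) (P3 := 1046898278) (W3 := 26843546) (N0 := 3)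
    rfl k0_mm_112_a

noncomputable def f_mm_112_b : ℕ → ℕ → ℕ → ℕ → Bool := onCell 536870912 536870912 1239849684 370763052 1046898278 26843546
    (rowNX 3 0 false false false .dn 1 1 2 (qsf 536870912 536870912 1239849684 370763052 1) ndN3q1 ndN2q2b pcN1 Cut.none Ext.none)

def k0_mm_112_b : ∃ t, chk3 f_mm_112_b t 1 1 1 = true :=
  ⟨(l 5), by decide +kernel⟩

theorem c_mm_112_b : CertNX 536870912 536870912 1239849684 370763052 1046898278 26843546 3 false false false .dn 1 1 2
    ndN3q1 ndN2q2b pcN1 Cut.none Ext.none :=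
  certNX0 (fam := false) (s1 := false) (s2 := false) (a := 1) (b := 1) (c := 2) (cn := .dn) (n1 := ndN3q1) (n2 := ndN2q2b) (pc := pcN1) (cut := Cut.none) (xt := Ext.none) (P1 := 536870912) (W1 := 536870912) (P2 := 1239849684) (W2 := 370763052) (P3 := 1046898278) (W3 := 26843546) (N0 := 3)
    rfl k0_mm_112_b

noncomputable def f_mm_113 : ℕ → ℕ → ℕ → ℕ → Bool := onCell 536870912 536870912 1610612736 469762048 1046898278 26843546
    (rowNX 3 0 false false false .nn 1 1 3 (qsf 536870912 536870912 1610612736 469762048 1) ndN3q1 ndN2q3 pcN1 Cut.none Ext.none)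

def k0_mm_113 : ∃ t, chk3 f_mm_113 t 1 1 1 = true :=
  ⟨(l 5), by decide +kernel⟩

theorem c_mm_113 : CertNX 536870912 536870912 1610612736 469762048 1046898278 26843546 3 false false false .nn 1 1 3
    ndN3q1 ndN2q3 pcN1 Cut.none Ext.none :=
  certNX0 (fam := false) (s1 := false) (s2 := false) (a := 1) (b := 1) (c := 3) (cn := .nn) (n1 := ndN3q1) (n2 := ndN2q3) (pc := pcN1) (cut := Cut.none) (xt := Ext.none) (P1 := 536870912) (W1 := 536870912) (P2 := 1610612736) (W2 := 469762048) (P3 := 1046898278) (W3 := 26843546) (N0 := 3)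
    rfl k0_mm_113

noncomputable def f_mm_123 : ℕ → ℕ → ℕ → ℕ → Bool := onCell 536870912 536870912 1610612736 469762048 1046898278 26843546
    (rowNX 3 0 false false false .npn 1 2 3 (qsf 536870912 536870912 1610612736 469762048 2) ndN3q1 ndN2q3 pcN2 Cut.none Ext.none)

def k0_mm_123 : ∃ t, chk3 f_mm_123 t 1 1 1 = true :=
  ⟨(l 5), by decide +kernel⟩

theorem c_mm_123 : CertNX 536870912 536870912 1610612736 469762048 1046898278 26843546 3 false false false .npn 1 2 3
    ndN3q1 ndN2q3 pcN2 Cut.none Ext.none :=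
  certNX0 (fam := false) (s1 := false) (s2 := false) (a := 1) (b := 2) (c := 3) (cn := .npn) (n1 := ndN3q1) (n2 := ndN2q3) (pc := pcN2) (cut := Cut.none) (xt := Ext.none) (P1 := 536870912) (W1 := 536870912) (P2 := 1610612736) (W2 := 469762048) (P3 := 1046898278) (W3 := 26843546) (N0 := 3)
    rfl k0_mm_123

noncomputable def f_mm_133 : ℕ → ℕ → ℕ → ℕ → Bool := onCell 536870912 536870912 1610612736 469762048 1046898278 26843546
    (rowNX 3 0 false false false .dn 1 3 3 (qsf 536870912 536870912 1610612736 469762048 3) ndN3q1 ndN2q3 pcN3 Cut.none Ext.none)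

def k0_mm_133 : ∃ t, chk3 f_mm_133 t 1 1 1 = true :=
  ⟨(l 1), by decide +kernel⟩

theorem c_mm_133 : CertNX 536870912 536870912 1610612736 469762048 1046898278 26843546 3 false false false .dn 1 3 3
    ndN3q1 ndN2q3 pcN3 Cut.none Ext.none :=
  certNX0 (fam := false) (s1 := false) (s2 := false) (a := 1) (b := 3) (c := 3) (cn := .dn) (n1 := ndN3q1) (n2 := ndN2q3) (pc := pcN3) (cut := Cut.none) (xt := Ext.none) (P1 := 536870912) (W1 := 536870912) (P2 := 1610612736) (W2 := 469762048) (P3 := 1046898278) (W3 := 26843546) (N0 := 3)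
    rfl k0_mm_133

noncomputable def f_mm_202_a : ℕ → ℕ → ℕ → ℕ → Bool := onCell 1073741824 536870912 0 420477299 1046898278 26843546
    (rowNX 3 0 false false false .pp 2 0 2 (qsf 1073741824 536870912 0 420477299 0) ndN3q2 ndN2q2a pcN0 Cut.none Ext.none)

def k0_mm_202_a : ∃ t, chk3 f_mm_202_a t 1 1 1 = true :=
  ⟨(l 3), by decide +kernel⟩

theorem c_mm_202_a : CertNX 1073741824 536870912 0 420477299 1046898278 26843546 3 false false false .pp 2 0 2
    ndN3q2 ndN2q2a pcN0 Cut.none Ext.none :=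
  certNX0 (fam := false) (s1 := false) (s2 := false) (a := 2) (b := 0) (c := 2) (cn := .pp) (n1 := ndN3q2) (n2 := ndN2q2a) (pc := pcN0) (cut := Cut.none) (xt := Ext.none) (P1 := 1073741824) (W1 := 536870912) (P2 := 0) (W2 := 420477299) (P3 := 1046898278) (W3 := 26843546) (N0 := 3)
    rfl k0_mm_202_a

noncomputable def f_mm_202_b : ℕ → ℕ → ℕ → ℕ → Bool := onCell 1073741824 536870912 1239849684 370763052 1046898278 26843546
    (rowNX 3 0 false false false .pp 2 0 2 (qsf 1073741824 536870912 1239849684 370763052 0) ndN3q2 ndN2q2b pcN0 Cut.none Ext.none)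

def k0_mm_202_b : ∃ t, chk3 f_mm_202_b t 1 1 1 = true :=
  ⟨(l 3), by decide +kernel⟩

theorem c_mm_202_b : CertNX 1073741824 536870912 1239849684 370763052 1046898278 26843546 3 false false false .pp 2 0 2
    ndN3q2 ndN2q2b pcN0 Cut.none Ext.none :=
  certNX0 (fam := false) (s1 := false) (s2 := false) (a := 2) (b := 0) (c := 2) (cn := .pp) (n1 := ndN3q2) (n2 := ndN2q2b) (pc := pcN0) (cut := Cut.none) (xt := Ext.none) (P1 := 1073741824) (W1 := 536870912) (P2 := 1239849684) (W2 := 370763052) (P3 := 1046898278) (W3 := 26843546) (N0 := 3)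
    rfl k0_mm_202_b

noncomputable def f_mm_203 : ℕ → ℕ → ℕ → ℕ → Bool := onCell 1073741824 536870912 1610612736 469762048 1046898278 26843546
    (rowNX 3 0 false false false .up 2 0 3 (qsf 1073741824 536870912 1610612736 469762048 0) ndN3q2 ndN2q3 pcN0 Cut.none Ext.none)

def k0_mm_203 : ∃ t, chk3 f_mm_203 t 1 1 1 = true :=
  ⟨(l 3), by decide +kernel⟩

theorem c_mm_203 : CertNX 1073741824 536870912 1610612736 469762048 1046898278 26843546 3 false false false .up 2 0 3
    ndN3q2 ndN2q3 pcN0 Cut.none Ext.none :=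
  certNX0 (fam := false) (s1 := false) (s2 := false) (a := 2) (b := 0) (c := 3) (cn := .up) (n1 := ndN3q2) (n2 := ndN2q3) (pc := pcN0) (cut := Cut.none) (xt := Ext.none) (P1 := 1073741824) (W1 := 536870912) (P2 := 1610612736) (W2 := 469762048) (P3 := 1046898278) (W3 := 26843546) (N0 := 3)
    rfl k0_mm_203

noncomputable def f_mm_213 : ℕ → ℕ → ℕ → ℕ → Bool := onCell 1073741824 536870912 1610612736 469762048 1046898278 26843546
    (rowNX 3 0 false false false .pnn 2 1 3 (qsf 1073741824 536870912 1610612736 469762048 1) ndN3q2 ndN2q3 pcN1 Cut.none Ext.none)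

def k0_mm_213 : ∃ t, chk3 f_mm_213 t 1 1 1 = true :=
  ⟨(l 3), by decide +kernel⟩

theorem c_mm_213 : CertNX 1073741824 536870912 1610612736 469762048 1046898278 26843546 3 false false false .pnn 2 1 3
    ndN3q2 ndN2q3 pcN1 Cut.none Ext.none :=
  certNX0 (fam := false) (s1 := false) (s2 := false) (a := 2) (b := 1) (c := 3) (cn := .pnn) (n1 := ndN3q2) (n2 := ndN2q3) (pc := pcN1) (cut := Cut.none) (xt := Ext.none) (P1 := 1073741824) (W1 := 536870912) (P2 := 1610612736) (W2 := 469762048) (P3 := 1046898278) (W3 := 26843546) (N0 := 3)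
    rfl k0_mm_213

noncomputable def f_mm_303 : ℕ → ℕ → ℕ → ℕ → Bool := onCell 1610612736 536870912 1610612736 469762048 1046898278 26843546
    (rowNX 3 0 false false false .npn 3 0 3 (qsf 1610612736 536870912 1610612736 469762048 0) ndN3q3 ndN2q3 pcN0 Cut.none Ext.none)

def k0_mm_303 : ∃ t, chk3 f_mm_303 t 1 1 1 = true :=
  ⟨(l 3), by decide +kernel⟩

theorem c_mm_303 : CertNX 1610612736 536870912 1610612736 469762048 1046898278 26843546 3 false false false .npn 3 0 3
    ndN3q3 ndN2q3 pcN0 Cut.none Ext.none :=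
  certNX0 (fam := false) (s1 := false) (s2 := false) (a := 3) (b := 0) (c := 3) (cn := .npn) (n1 := ndN3q3) (n2 := ndN2q3) (pc := pcN0) (cut := Cut.none) (xt := Ext.none) (P1 := 1610612736) (W1 := 536870912) (P2 := 1610612736) (W2 := 469762048) (P3 := 1046898278) (W3 := 26843546) (N0 := 3)
    rfl k0_mm_303

noncomputable def f_mm_313 : ℕ → ℕ → ℕ → ℕ → Bool := onCell 1610612736 536870912 1610612736 469762048 1046898278 26843546
    (rowNX 3 0 false false false .dn 3 1 3 (qsf 1610612736 536870912 1610612736 469762048 1) ndN3q3 ndN2q3 pcN1 Cut.none Ext.none)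

def k0_mm_313 : ∃ t, chk3 f_mm_313 t 1 1 1 = true :=
  ⟨(l 1), by decide +kernel⟩

theorem c_mm_313 : CertNX 1610612736 536870912 1610612736 469762048 1046898278 26843546 3 false false false .dn 3 1 3
    ndN3q3 ndN2q3 pcN1 Cut.none Ext.none :=
  certNX0 (fam := false) (s1 := false) (s2 := false) (a := 3) (b := 1) (c := 3) (cn := .dn) (n1 := ndN3q3) (n2 := ndN2q3) (pc := pcN1) (cut := Cut.none) (xt := Ext.none) (P1 := 1610612736) (W1 := 536870912) (P2 := 1610612736) (W2 := 469762048) (P3 := 1046898278) (W3 := 26843546) (N0 := 3)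
    rfl k0_mm_313

end Pool.Agent.Strip051.G.IE1.Tab.C.NB32

namespace Pool.Agent.Strip051.G.IE1.Tab.C.NB33

open Pool.Agent.Strip051.PB Pool.Agent.Strip051.PB.T
open Pool.Agent.Strip051.G.IE1.Tab

noncomputable def f_pp_001 : ℕ → ℕ → ℕ → ℕ → Bool := onCell 0 536870912 0 536870912 1046898278 26843546
    (rowNX 3 1 false true true .up 0 0 1 (qsf 0 536870912 536870912 536870912 0) ndN3q0 ndN3q1 pcN0 Cut.none Ext.none)

def k0_pp_001 : ∃ t, chk3 f_pp_001 t 1 1 1 = true :=
  ⟨(l 3), by decide +kernel⟩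

theorem c_pp_001 : CertNX 0 536870912 536870912 536870912 1046898278 26843546 3 false true true .up 0 0 1
    ndN3q0 ndN3q1 pcN0 Cut.none Ext.none :=
  certNX1 (fam := false) (s1 := true) (s2 := true) (a := 0) (b := 0) (c := 1) (cn := .up) (n1 := ndN3q0) (n2 := ndN3q1) (pc := pcN0) (cut := Cut.none) (xt := Ext.none) (P1 := 0) (W1 := 536870912) (P2 := 536870912) (W2 := 536870912) (P3 := 1046898278) (W3 := 26843546) (N0 := 3)
    rfl (fun _ => rfl) k0_pp_001

noncomputable def cut_pp_011 : Cut := Cut.of [[⟨0, 0, 0, 67108864⟩, ⟨1, 1, 0, 67108864⟩, ⟨2, 1, 0, 67108864⟩]]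

noncomputable def f_pp_011 : ℕ → ℕ → ℕ → ℕ → Bool := onCell 0 536870912 536870912 536870912 1046898278 26843546
    (rowNX 3 1 false true true .pnn 0 1 1 (qsf 0 536870912 536870912 536870912 1) ndN3q0 ndN3q1 pcN1 cut_pp_011 Ext.none)

def k0_pp_011 : ∃ t, chk3 f_pp_011 t 1 1 1 = true :=
  ⟨(b (l 3) (b (l 3) (a (a (b (l 3) (b (l 3) (a (a (l 6) (l 3)) (l 2)))) (l 3)) (l 2)))), by decide +kernel⟩

theorem c_pp_011 : CertNX 0 536870912 536870912 536870912 1046898278 26843546 3 false true true .pnn 0 1 1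
    ndN3q0 ndN3q1 pcN1 cut_pp_011 Ext.none :=
  certNX1 (fam := false) (s1 := true) (s2 := true) (a := 0) (b := 1) (c := 1) (cn := .pnn) (n1 := ndN3q0) (n2 := ndN3q1) (pc := pcN1) (cut := cut_pp_011) (xt := Ext.none) (P1 := 0) (W1 := 536870912) (P2 := 536870912) (W2 := 536870912) (P3 := 1046898278) (W3 := 26843546) (N0 := 3)
    rfl (fun _ => rfl) k0_pp_011

noncomputable def cut_pp_012 : Cut := Cut.of [[⟨0, 0, 0, 67108864⟩, ⟨1, 1, 0, 67108864⟩, ⟨2, 1, 0, 67108864⟩, ⟨3, 0, 0, 1233125376⟩]]

noncomputable def f_pp_012 : ℕ → ℕ → ℕ → ℕ → Bool := onCell 536870912 536870912 1073741824 536870912 1046898278 26843546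
    (rowNX 3 2 false true true .pnp 0 1 2 (qsf 0 536870912 1073741824 536870912 1) ndN3q0 ndN3q2 pcN1 cut_pp_012 Ext.none)

def k0_pp_012 : ∃ t, chk3 f_pp_012 t 2 1 1 = true :=
  ⟨(b (b (b (a (c (b (a (b (l 15507848) (l 15631264)) (b (l 15507848) (l 15631264))) (a (l 15736560) (l 15736560))) (b (a (b (l 15344296) (l 15528320)) (b (l 15428184) (l 15528320))) (a (l 15673728) (l 15673728)))) (b (c (a (b (l 15507848) (l 15631264)) (b (l 15507848) (l 15631264))) (b (a (l 15428184) (l 15428184)) (l 15528320))) (a (c (l 15736560) (l 15673728)) (l 15667688)))) (a (a (b (c (l 16166656) (l 16145160)) (l 2)) (b (c (l 16166656) (l 16145160)) (c (l 16544584) (l 16536416)))) (b (a (l 16072016) (l 16155904)) (a (l 16519560) (l 16540528))))) (a (b (a (l 2) (b (c (l 16305016) (l 16288440)) (l 2))) (l 2)) (b (b (a (l 16296768) (l 16296768)) (a (l 16398440) (l 16398440))) (a (b (l 16650576) (l 2)) (b (l 16650576) (l 16777040)))))) (a (l 2) (b (b (l 16777216) (l 2)) (l 2)))), by decide +kernel⟩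

def k1_pp_012 : ∃ t, chk3 f_pp_012 t 6 1 1 = true :=
  ⟨(b (b (b (a (b (a (c (b (b (l 15464320) (l 15557560)) (l 15631272)) (b (l 15407152) (l 15528320))) (b (c (a (b (l 15425032) (c (l 15573888) (l 15536528))) (b (l 15402080) (l 15523920))) (b (c (l 15377760) (l 15333144)) (a (l 15462792) (l 15427968)))) (c (a (l 15632872) (b (l 15604360) (l 15652896))) (l 15481224)))) (c (a (l 15736568) (l 15742728)) (l 15677168))) (b (a (b (c (b (c (l 15353544) (l 15317384)) (c (l 15490048) (l 15443528))) (b (c (l 15275152) (l 15220880)) (l 15355872))) (c (l 15584152) (l 15470528))) (b (a (c (b (c (l 15291512) (l 15244712)) (l 15413872)) (b (c (l 15191744) (l 15126632)) (l 15287728))) (c (b (a (l 15218000) (l 15218504)) (a (c (l 15420656) (l 15359968)) (l 15400448))) (b (c (l 15125728) (l 15049656)) (l 15128720)))) (a (c (l 15544480) (l 15417344)) (c (a (l 15535464) (l 15568416)) (l 15418400))))) (a (b (c (a (l 15699976) (l 15683968)) (l 15614896)) (c (l 15679560) (l 15742632))) (a (c (l 15729344)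 (l 15660488)) (c (b (l 15686680) (l 15806728)) (l 15685104)))))) (a (b (a (l 16155920) (l 16166872)) (a (l 16540552) (l 16555712))) (b (a (l 16082992) (a (b (l 16013584) (l 16386600)) (b (l 16052032) (l 16333264)))) (a (l 16578312) (a (l 16541792) (l 16342104)))))) (b (a (b (l 16306328) (l 16410040)) (b (a (l 16352848) (a (l 16359032) (l 16271312))) (a (l 16465824) (l 16369280)))) (a (b (l 16664160) (l 16761184)) (b (a (l 16618760) (l 16520440)) (l 16633704))))) (a (l 16796896) (b (l 16604616) (l 16558144)))), by decide +kernel⟩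

def k2_pp_012 : ∃ t, chk3 f_pp_012 t 14 4 1 = true :=
  ⟨(b (b (a (a (b (c (b (l 15239456) (l 15432488)) (b (c (l 15140920) (l 15060760)) (l 15291232))) (c (l 15559304) (l 15498776))) (b (b (c (a (l 15264960) (b (a (l 15213016) (l 15191224)) (l 15342952))) (b (a (l 15059544) (c (l 15082832) (a (l 15023144) (l 14980400)))) (c (l 15232248) (l 15146800)))) (c (l 15443096) (l 15343728))) (c (l 15693928) (l 15579088)))) (b (a (b (c (b (l 15091432) (a (l 15316552) (l 15260552))) (b (c (l 14912568) (l 14783240)) (c (l 15141688) (l 15026456)))) (c (a (b (a (l 15474368) (l 15467232)) (l 15577640)) (b (l 15436992) (l 15580120))) (a (c (l 15323584) (l 15324304)) (l 15102224)))) (c (b (b (a (l 15012184) (l 15207064)) (l 15219216)) (b (l 15412904) (l 15573888))) (b (c (b (l 14699464) (l 14975480)) (b (l 14487168) (l 14793200))) (c (l 15303176) (l 15166200))))) (a (a (c (l 15755944) (l 15651240)) (b (c (b (l 15694000) (l 15776144)) (l 15604272)) (l 15841648))) (b (c (a (l 15754880) (l 15786392))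 (l 15598776)) (c (a (l 15905136) (l 15962744)) (a (l 15839680) (l 15881120))))))) (a (b (c (a (l 15783224) (l 15876256)) (l 15771520)) (c (l 15886560) (l 15863128))) (a (b (l 15822336) (l 15738144)) (b (b (c (a (l 15837560) (l 15845160)) (l 15782816)) (l 15751432)) (l 15687800))))) (b (a (b (l 15979048) (l 16182904)) (a (l 15786080) (b (l 15724672) (l 15906720)))) (a (b (a (l 16370376) (l 16252960)) (l 16189256)) (b (b (l 16110544) (l 16076728)) (l 15932576))))), by decide +kernel⟩

def k3_pp_012 : ∃ t, chk3 f_pp_012 t 30 8 1 = true :=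
  ⟨(b (a (a (b (b (c (b (a (c (b (a (l 15092408) (l 15122424)) (l 15202944)) (l 14894400)) (c (c (l 15288744) (l 15151112)) (l 14943408))) (a (l 15246584) (c (b (l 15354408) (l 15445912)) (l 15180416)))) (b (b (c (l 14568768) (l 14274880)) (c (l 14721848) (l 14449680))) (c (a (l 14927968) (l 14949520)) (l 14700312)))) (c (b (l 15471448) (l 15647056)) (l 15063184))) (c (l 15967352) (l 15816200))) (b (b (b (l 6) (a (b (l 6) (c (l 15406984) (l 14939544))) (l 6))) (c (b (a (c (b (l 15602008) (l 15686792)) (l 15457320)) (c (l 15723416) (l 15532384))) (a (l 15727120) (c (l 15878952) (l 15722664)))) (c (b (l 15288864) (l 15512672)) (b (l 15068496) (l 15340168))))) (c (b (l 15987440) (l 16185104)) (l 15813840)))) (a (b (b (l 6) (a (b (l 6) (c (l 15884880) (l 15557160))) (l 6))) (c (b (b (a (l 16041432) (l 16139072)) (a (l 16175744) (l 16273096))) (l 16355176)) (b (a (l 15730704) (l 15734808)) (l 16272592)))) (b (l 6) (c (b (c (a (l 16357304) (l 6)) (l 16308096)) (a (l 16334904) (b (l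 16499392) (l 16391000)))) (b (l 16161720) (b (l 16428056) (l 16409376))))))) (a (b (b (c (l 15982312) (l 15918848)) (a (c (l 15750232) (l 15694568)) (l 15782944))) (b (a (l 15650800) (l 15619064)) (l 15580824))) (a (b (c (l 16049632) (l 15992064)) (b (l 15680888) (l 15522584))) (b (c (b (a (l 16264520) (l 16255920)) (l 15977032)) (l 16144752)) (c (a (l 15698712) (l 15688768)) (l 15701744)))))), by decide +kernel⟩

def k4_pp_012 : ∃ t, chk3 f_pp_012 t 31 8 1 = true :=
  ⟨(b (b (l 6) (b (l 6) (b (l 6) (a (c (a (a (a (l 16427608) (l 6)) (l 6)) (l 6)) (l 16474024)) (l 6))))) (b (a (c (a (c (c (b (a (a (l 16437912) (l 16405968)) (l 16402344)) (a (l 16260696) (l 16385016))) (a (l 16113096) (b (a (l 16474336) (l 16508168)) (l 16283896)))) (b (a (l 16420248) (l 16456840)) (l 16253864))) (b (a (a (c (l 16574720) (l 16507872)) (l 6)) (l 6)) (c (a (a (l 16390488) (l 16460768)) (l 16463496)) (a (c (a (l 16383704) (l 16347064)) (l 16381912)) (c (l 16442824) (b (l 16477176) (l 16387536)))))))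 (a (b (l 16395560) (l 16235776)) (b (l 16491728) (l 16269648)))) (b (l 6) (a (a (a (b (l 6) (c (l 16428536) (l 16450088))) (l 6)) (l 6)) (l 6)))) (a (c (a (c (c (a (l 15697648) (l 16030768)) (a (l 15892888) (l 15752848))) (l 15923504)) (c (b (l 16111728) (l 16031832)) (a (c (l 15960096) (l 16066912)) (c (l 16183400) (l 16005968))))) (a (l 15900752) (l 16079000))) (c (a (c (b (a (l 16377400) (l 16431192)) (l 16210400)) (a (b (l 16321112) (l 16157352)) (l 16158320))) (b (l 16440304) (c (l 16237600) (l 16353256)))) (a (c (a (b (c (l 16173776) (l 16351600)) (l 16149304)) (c (b (l 16415160) (l 16247872)) (b (a (l 16407936) (l 16428776)) (l 16244416)))) (b (l 16368464) (l 16183280))) (c (b (l 16446856) (a (l 16327040) (l 16383400))) (a (c (b (l 16350856) (a (l 16309960) (l 16260112))) (l 16349488)) (b (l 6) (c (l 16380000) (a (l 16368040) (l 16348360))))))))))), by decide +kernel⟩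

def k5_pp_012 : ∃ t, chk3 f_pp_012 t 15 9 1 = true :=
  ⟨(a (b (a (b (l 15646928) (l 15810968)) (a (l 15659128) (a (l 15486952) (b (c (l 15586032) (l 15543184)) (l 15726584))))) (a (b (l 15920416) (l 15751264)) (a (b (l 15836912) (l 15646784)) (c (b (l 15833528) (l 15620040)) (l 15691488))))) (b (a (c (a (b (c (a (b (l 15625600) (l 15640248)) (c (l 15725264) (b (l 15735560) (l 15672840)))) (l 15657832)) (c (c (l 15778288) (l 15763920)) (l 15741904))) (c (b (l 15831016) (b (l 15756856) (l 15816440))) (b (a (l 15538824) (c (l 15873304) (l 15861592))) (a (l 15759056) (c (l 15791304) (l 15779592)))))) (b (a (l 15628000) (l 15783928)) (l 15650904))) (c (a (b (c (l 16012008) (l 16004976)) (a (c (l 15833336) (l 15822832)) (l 15889200))) (b (l 16199128) (l 16020416))) (a (c (b (a (l 15945296) (c (l 16046272) (l 16040952))) (a (b (l 15804456) (l 15795392)) (c (l 15875080) (l 15868144)))) (b (l 15977448) (l 15830208))) (c (b (l 16188240) (l 16003320)) (a (c (b (l 16047856) (l 15921256))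 (l 16033176)) (c (l 16136848) (b (a (l 16201856) (l 16253544)) (l 15911984)))))))) (a (c (c (a (b (b (c (l 15900200) (l 15887880)) (l 15656920)) (c (l 15630160) (l 15616648))) (b (l 15863400) (l 15619168))) (a (l 15715024) (b (c (a (l 15853208) (l 15859008)) (l 15844464)) (c (l 15606696) (l 15594360))))) (b (l 15815440) (l 15566424))) (c (a (b (c (l 15866728) (l 15855320)) (l 15610992)) (b (b (l 15937208) (l 15835176)) (l 15616520))) (a (c (a (b (l 15839320) (l 15582288)) (c (l 15717672) (b (l 15840072) (l 15579640)))) (l 15691504)) (c (b (b (l 15917720) (l 15812728)) (l 15587672)) (b (b (a (l 15704400) (c (l 15920816) (a (l 15892632) (l 15923544)))) (a (l 15791536) (l 15568216))) (a (l 15563768) (c (l 15574400) (l 15563912)))))))))), by decide +kernel⟩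

def k6_pp_012 : ∃ t, chk3 f_pp_012 t 7 5 1 = true :=
  ⟨(a (b (b (a (l 15908920) (b (l 15754920) (a (l 15699584) (l 15538040)))) (a (l 16063840) (l 15716624))) (b (a (l 16227760) (l 15896680)) (l 16134920))) (b (b (a (a (l 15480208) (a (l 15381280) (c (l 15328744) (l 15298216)))) (a (c (a (c (b (l 15235184) (c (l 15249416) (l 15234248))) (l 15291848)) (c (b (l 15368120) (l 15193528)) (b (c (l 15351232) (l 15337136)) (c (l 15173272) (l 15158096))))) (l 15233976)) (a (c (b (l 15335288) (c (l 15146192) (l 15118104))) (c (b (a (l 15299968) (l 15293536)) (a (l 15100552) (l 14824768))) (l 15167544))) (c (l 15152328) (c (l 14943600) (b (a (l 15266352) (l 15268152)) (a (l 15026048) (c (l 15019400) (l 15003824))))))))) (a (a (l 15469032) (a (l 15359016) (c (l 15324216) (l 15271480)))) (a (c (a (c (c (l 15293016) (l 15279448)) (l 15258888)) (c (l 15237272) (b (l 15183640) (l 15233384)))) (l 15192192)) (b (c (l 15083768) (a (c (l 14958888) (l 15076016)) (c (l 15057840) (a (l 15039424) (l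 15015496))))) (l 15144720))))) (b (a (l 15568504) (l 15279224)) (l 15486600)))), by decide +kernel⟩

def k7_pp_012 : ∃ t, chk3 f_pp_012 t 7 3 1 = true :=
  ⟨(a (b (l 16081608) (l 15997344)) (b (l 15233120) (l 15266976))), by decide +kernel⟩

theorem s8_pp_012 : ∃ t, chk3 f_pp_012 t 15 8 1 = true := ex3_a k3_pp_012 k4_pp_012

theorem s9_pp_012 : ∃ t, chk3 f_pp_012 t 15 4 1 = true := ex3_b s8_pp_012 k5_pp_012

theorem s10_pp_012 : ∃ t, chk3 f_pp_012 t 7 4 1 = true := ex3_a k2_pp_012 s9_pp_012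

theorem s11_pp_012 : ∃ t, chk3 f_pp_012 t 7 2 1 = true := ex3_b s10_pp_012 k6_pp_012

theorem s12_pp_012 : ∃ t, chk3 f_pp_012 t 7 1 1 = true := ex3_b s11_pp_012 k7_pp_012

theorem s13_pp_012 : ∃ t, chk3 f_pp_012 t 3 1 1 = true := ex3_a k1_pp_012 s12_pp_012

theorem s14_pp_012 : ∃ t, chk3 f_pp_012 t 1 1 1 = true := ex3_a k0_pp_012 s13_pp_012

theorem c_pp_012 : CertNX 0 536870912 1073741824 536870912 1046898278 26843546 3 false true true .pnp 0 1 2
    ndN3q0 ndN3q2 pcN1 cut_pp_012 Ext.none :=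
  certNX2 (fam := false) (s1 := true) (s2 := true) (a := 0) (b := 1) (c := 2) (cn := .pnp) (n1 := ndN3q0) (n2 := ndN3q2) (pc := pcN1) (cut := cut_pp_012) (xt := Ext.none) (P1 := 0) (W1 := 536870912) (P2 := 1073741824) (W2 := 536870912) (P3 := 1046898278) (W3 := 26843546) (N0 := 3)
    rfl (fun _ => rfl) s14_pp_012

noncomputable def cut_pp_022 : Cut := Cut.of [[⟨0, 0, 0, 67108864⟩, ⟨1, 1, 0, 67108864⟩, ⟨2, 1, 0, 67108864⟩, ⟨3, 0, 0, 1233125376⟩]]

noncomputable def f_pp_022 : ℕ → ℕ → ℕ → ℕ → Bool := onCell 0 536870912 1073741824 536870912 1046898278 26843546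
    (rowNX 3 1 false true true .pp 0 2 2 (qsf 0 536870912 1073741824 536870912 2) ndN3q0 ndN3q2 pcN2 cut_pp_022 Ext.none)

def k0_pp_022 : ∃ t, chk3 f_pp_022 t 8 16 1 = true :=
  ⟨(a (b (l 6) (b (l 6) (a (l 6) (a (l 6) (a (l 6) (c (c (l 16346672) (l 16466624)) (l 16465144))))))) (a (a (b (l 6) (a (b (l 6) (c (c (b (l 16458048) (l 16406680)) (l 16449632)) (b (l 16512744) (l 16450352)))) (c (b (c (c (l 16493800) (l 16509256)) (l 16526792)) (c (c (l 16270456) (l 16432544)) (l 16409176))) (b (l 16511408) (b (l 16463944) (l 16432432)))))) (b (b (l 6) (b (l 6) (b (l 6) (c (l 16470736) (l 16589368))))) (c (b (c (b (l 16479576) (l 16407392)) (b (l 16496352) (l 16470200))) (l 16227264)) (b (c (b (l 16519368) (l 16470632)) (b (l 16570408) (l 16515728))) (l 16353464))))) (b (b (a (b (l 6) (b (l 6) (c (l 16617128) (l 16631368)))) (c (c (b (l 16644632) (l 16590680)) (b (l 16646264) (l 16589736))) (c (b (l 16644904) (l 16591072)) (b (a (l 16658232) (l 16642112)) (l 16598456))))) (b (c (a (c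 (a (l 16592824) (l 16586000)) (l 16591864)) (c (l 16515336) (l 16515448))) (a (c (l 16600696) (l 16615664)) (l 16505136))) (c (a (c (l 16532368) (l 16498152)) (l 16331664)) (c (l 16477696) (l 16446184))))) (c (c (b (l 16242712) (l 16221640)) (l 16117776)) (c (l 16064016) (l 16230784)))))), by decide +kernel⟩

def k1_pp_022 : ∃ t, chk3 f_pp_022 t 9 16 1 = true :=
  ⟨(a (b (c (a (b (c (l 16625624) (l 16623816)) (c (b (l 16509864) (l 16437672)) (l 16453312))) (b (b (l 16625888) (l 16651616)) (a (c (l 16564408) (l 16565400)) (b (l 16604280) (l 16547352))))) (b (a (c (l 16540184) (b (l 16664352) (l 16589696))) (c (l 16582704) (b (l 16619816) (l 16663248)))) (a (c (l 16458768) (l 16464520)) (c (a (l 16569816) (l 16609400)) (a (l 16574456) (l 16601472)))))) (c (a (b (c (l 16295960) (l 16342112)) (a (l 16178048) (l 16212296))) (b (a (c (l 16484920) (l 16531672)) (l 16432904)) (l 16259632))) (a (a (c (l 16206584) (l 16245032)) (b (l 16340416) (l 16216520))) (a (b (l 16308256) (l 16606544))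 (l 16202464))))) (a (b (c (b (a (a (l 16532704) (l 16369240)) (l 16335232)) (a (c (b (l 16395128) (l 16314784)) (l 16304288)) (l 16061104))) (b (a (c (l 16423912) (b (l 16489016) (l 16448568))) (c (l 16324264) (l 16315648))) (c (l 16178568) (l 16145696)))) (c (c (a (l 16046072) (l 15916680)) (l 15828272)) (c (l 15811808) (l 15965216)))) (b (c (b (l 15978768) (a (l 15893144) (l 15891736))) (b (c (l 16131008) (l 15973216)) (l 15790048))) (a (c (l 15665912) (l 15735520)) (l 15616072))))), by decide +kernel⟩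

def k2_pp_022 : ∃ t, chk3 f_pp_022 t 64 17 1 = true :=
  ⟨(b (l 6) (a (b (l 6) (a (b (l 6) (c (c (b (l 16025760) (l 15997376)) (l 16000120)) (c (c (l 15991288) (l 15985336)) (c (b (l 15997056) (c (l 15966520) (l 15963920))) (c (a (c (l 15978544) (l 15977592)) (c (l 15979816) (a (l 15979640) (l 15984448)))) (a (c (c (l 15953016) (l 15977344)) (l 15977472)) (l 15982664))))))) (c (c (b (l 16057064) (b (l 16022256) (l 15977392))) (b (l 16053496) (l 15987512))) (c (b (l 16043208) (c (l 15978512) (l 15910928))) (b (c (c (l 16042928) (l 16048640)) (c (l 16023704) (l 16049240))) (c (c (l 15975168) (a (l 15918088) (l 15963232))) (c (a (c (l 15984896) (l 15986760)) (l 15984904)) (l 15980648)))))))) (b (a (l 6) (c (c (c (l 16101592) (l 16121000)) (l 16123856)) (c (c (l 16134664) (l 16153864)) (c (c (l 16157088) (l 16153888)) (l 16148896))))) (c (c (b (c (a (l 16054864) (l 16042096)) (l 16048808)) (l 15960312)) (b (a (l 16050536) (l 16039736)) (l 15951504))) (c (c (b (a (l 16045376) (l 16049528))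 (l 15953320)) (b (a (l 16053824) (b (l 16093168) (l 16046720))) (c (l 15960496) (l 15967056)))) (c (c (b (a (b (l 16083512) (l 16053216)) (l 15986184)) (l 15970224)) (a (b (c (l 16068064) (l 16066808)) (c (l 15978064) (l 15977784))) (l 16013784))) (b (a (l 16062376) (l 16061704)) (l 15963992)))))))), by decide +kernel⟩

def k3_pp_022 : ∃ t, chk3 f_pp_022 t 65 17 1 = true :=
  ⟨(b (a (l 6) (b (l 6) (b (l 6) (c (c (l 16194808) (l 16238784)) (c (c (l 16273992) (l 16212992)) (l 16260024)))))) (c (c (b (a (b (c (l 16119880) (l 16147536)) (c (l 15975536) (a (l 16101232) (l 16096576)))) (b (c (l 16135936) (l 16152896)) (l 16077464))) (c (a (l 15953880) (l 15923000)) (l 15952568))) (b (a (b (l 16172424) (a (l 16113544) (l 16123288))) (b (a (l 16207400) (l 16214896)) (l 16120376))) (c (l 15964136) (l 15973144)))) (b (c (c (a (b (l 16197056) (a (l 16139488) (l 16149096))) (b (a (l 16225040) (l 16219800)) (l 16131368))) (a (b (l 16181192) (a (c (l 16150768) (l 16149128)) (c (l 16150464)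 (l 16146064)))) (c (b (l 16213536) (l 16125152)) (l 16100816)))) (a (b (l 16194584) (a (l 16140640) (l 16138296))) (b (l 16183664) (l 16114896)))) (c (c (a (l 15998160) (l 15870480)) (c (a (l 16003352) (l 15969040)) (a (l 15997792) (l 15965440)))) (l 15973304))))), by decide +kernel⟩

def k4_pp_022 : ∃ t, chk3 f_pp_022 t 33 17 1 = true :=
  ⟨(a (c (b (b (b (l 6) (c (l 16226576) (c (l 16365648) (l 16336312)))) (c (a (b (l 16272176) (l 16130016)) (b (l 16217520) (l 16231240))) (c (a (b (l 16327112) (l 16218168)) (b (l 16274792) (l 16261096))) (a (b (l 16337088) (l 16285792)) (b (l 16338368) (l 16255480)))))) (c (b (c (l 16093616) (l 16057480)) (c (l 15749848) (l 15933368))) (c (a (l 16049640) (l 15895984)) (b (l 16024008) (a (l 15951488) (l 15915280)))))) (b (b (a (l 6) (l 16395856)) (c (a (c (b (l 16329976) (l 16214688)) (l 16234008)) (b (l 16332608) (l 16249192))) (a (b (l 16320672) (l 16267800)) (l 16216496)))) (c (c (c (a (l 15979568) (l 16008488)) (l 16022608)) (l 16016856))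 (l 15882304)))) (c (b (c (b (a (b (l 16386080) (l 16311168)) (b (l 16351960) (l 16327704))) (c (l 16215680) (l 16231376))) (b (c (a (l 16352728) (l 16336816)) (b (l 16426440) (l 16368648))) (c (a (l 16155432) (l 16217872)) (l 16238808)))) (c (c (b (l 16052712) (c (l 15886504) (l 15891256))) (b (c (l 16061712) (l 16061520)) (l 15886616))) (c (a (l 15836240) (l 15952280)) (l 15961544)))) (b (b (b (a (l 16428920) (l 16428720)) (a (l 16339400) (l 16349344))) (l 16144512)) (c (l 15950880) (l 15937368))))), by decide +kernel⟩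

def k5_pp_022 : ∃ t, chk3 f_pp_022 t 17 17 1 = true :=
  ⟨(c (b (a (c (a (c (l 16109160) (l 16120456)) (l 16137072)) (b (l 16148680) (l 16069584))) (c (a (l 16059688) (b (l 16048352) (l 16003976))) (b (l 16096232) (a (l 15995880) (l 16004600))))) (a (c (a (c (b (l 15981288) (a (c (l 15845648) (l 15843584)) (l 15820592))) (l 15845136)) (b (l 15921024) (b (l 15849256) (l 15851128)))) (a (l 15775032) (b (l 15916520) (l 15846680)))) (c (b (a (l 15835592) (l 16075008)) (l 15944184)) (a (l 15907408) (l 16121984))))) (a (b (c (l 16022760) (l 16054432)) (b (a (l 15966000) (l 15895696)) (a (l 15797296) (l 15824192)))) (b (b (l 16087400) (a (l 15978656) (l 15988184))) (b (a (l 15914736) (l 16054664)) (l 16067048))))), by decide +kernel⟩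

def k6_pp_022 : ∃ t, chk3 f_pp_022 t 9 17 1 = true :=
  ⟨(a (b (c (c (a (a (l 16012552) (l 16415008)) (l 16000240)) (a (a (b (l 16139960) (l 16215216)) (l 16379480)) (a (l 16336312) (l 16074568)))) (a (a (b (l 16131000) (l 16204432)) (l 16357112)) (a (l 16368160) (l 16055960)))) (c (a (c (a (l 16150712) (l 16252696)) (a (l 16380328) (l 16413264))) (b (l 15749776) (a (l 16006320) (l 15570960)))) (a (a (l 16226640) (l 16365560)) (b (l 15975480) (l 15720360))))) (a (b (b (c (l 15518776) (l 15711344)) (c (a (l 15682648) (l 15457024)) (l 15341960))) (c (a (b (c (l 15548600) (l 15526440)) (l 15456112)) (c (l 15402688) (l 15379064))) (a (l 15376784) (l 15343472)))) (a (b (c (b (l 15528232) (l 15439872)) (l 15446536)) (b (c (l 15396512) (l 15348904)) (l 15331312))) (l 15381768)))), by decide +kernel⟩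

def k7_pp_022 : ∃ t, chk3 f_pp_022 t 5 8 1 = true :=
  ⟨(a (a (b (a (b (l 15733880) (l 15500648)) (b (l 15536736) (l 15438856))) (l 15351680)) (b (l 15499992) (b (l 15397264) (l 15295360)))) (a (b (a (l 15513992) (l 15476512)) (l 15246808)) (l 15270976))), by decide +kernel⟩

def k8_pp_022 : ∃ t, chk3 f_pp_022 t 32 36 1 = true :=
  ⟨(c (b (c (a (a (l 15792776) (l 15743656)) (a (l 15574568) (l 15685952))) (a (a (l 15567560) (c (l 15731384) (l 15726520))) (c (l 15705520) (a (l 15714800) (l 15721160))))) (c (a (c (l 15339224) (l 15349320)) (a (a (l 15394712) (l 15385000)) (l 15243816))) (a (c (l 15275456) (a (l 15429184) (l 15396736))) (c (l 15399416) (a (l 15399056) (l 15316424)))))) (c (c (a (a (b (l 15765504) (l 15418248)) (b (l 15728736) (l 15396008))) (a (c (l 15524784) (b (l 15734208) (l 15415752))) (b (c (l 15721720) (l 15713032)) (c (l 15416112) (l 15406296))))) (a (a (b (c (l 15759568) (l 15756640)) (c (l 15409992) (l 15405512))) (a (b (l 15736216) (l 15398704)) (c (l 15486120)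 (b (l 15742968) (l 15408768))))) (a (b (c (l 15627216) (l 15515424)) (c (l 15262592) (l 15339456))) (l 15552800)))) (a (a (c (c (b (l 15671960) (a (l 15408096) (l 15398912))) (b (a (l 15761416) (c (l 15750480) (l 15708120))) (a (l 15321136) (c (l 15399576) (l 15397472))))) (c (b (a (b (c (l 15852272) (a (l 15851096) (l 15840528))) (c (l 15669928) (l 15642704))) (c (c (l 15752088) (l 15753632)) (l 15752224))) (a (c (c (l 15401344) (l 15399328)) (a (l 15307408) (l 15398648))) (l 15400120))) (b (a (c (a (l 15630040) (l 15757928)) (l 15759016)) (l 15748432)) (l 15396944)))) (c (a (c (b (l 15620816) (l 15319408)) (c (b (l 15746224) (l 15403760)) (l 15573288))) (c (b (l 15590952) (l 15402760)) (l 15566096))) (l 15309800))) (b (l 15620416) (l 15385664))))), by decide +kernel⟩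

def k9_pp_022 : ∃ t, chk3 f_pp_022 t 33 36 1 = true :=
  ⟨(a (c (c (a (c (l 15501984) (l 15515712)) (b (l 15693176) (c (l 15426760) (l 15431536)))) (c (a (b (l 15708728) (l 15426088)) (b (l 15693824) (b (l 15486936) (l 15356432)))) (b (c (l 15632488) (l 15624736)) (a (c (l 15421200) (l 15410144)) (b (l 15473160) (l 15345840)))))) (b (c (c (c (l 15685384) (l 15681832)) (l 15673848)) (l 15660616)) (c (l 15354008) (l 15372128)))) (c (c (b (c (a (l 15685808) (l 15673760)) (a (l 15682376) (l 15596160))) (c (a (l 15426608) (b (l 15544568) (l 15530808))) (a (b (l 15492040) (l 15417872)) (a (l 15497176) (l 15548456))))) (c (a (b (l 15667384) (b (l 15475968) (l 15402640))) (b (l 15654552) (l 15517976))) (b (l 15653856) (l 15481936)))) (b (c (l 15639128) (l 15620152)) (c (a (l 15420696) (l 15489944)) (l 15442840))))), by decide +kernel⟩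

def k10_pp_022 : ∃ t, chk3 f_pp_022 t 17 36 1 = true :=
  ⟨(c (a (a (c (c (b (a (b (l 15709736) (l 15643392)) (l 15741896)) (l 15558968)) (b (l 15715976) (l 15684472))) (b (b (l 15714568) (l 15672512)) (l 15670760))) (c (l 15888840) (l 15875528))) (c (a (l 16090264) (l 16287208)) (l 16013048))) (a (b (a (c (l 15685160) (l 15666928)) (l 15841712)) (l 15528560)) (c (l 16046688) (l 16038640)))), by decide +kernel⟩

def k11_pp_022 : ∃ t, chk3 f_pp_022 t 16 37 2 = true :=
  ⟨(a (c (a (b (c (a (l 15136720) (l 15115784)) (a (l 15123048) (l 15101912))) (a (c (l 14759712) (l 14806064)) (c (b (l 14889512) (a (l 14743128) (l 14726408))) (b (l 14873552) (l 14729552))))) (b (a (c (l 15095240) (l 15087632)) (c (b (l 15171088) (l 15036360)) (l 15112528))) (a (a (b (l 14873016) (c (l 14749632) (l 14753856))) (b (c (l 14882936) (l 14876976)) (c (l 14814288) (l 14807696)))) (c (b (l 14889488) (l 14924368)) (l 14820960))))) (a (c (b (a (l 15109288) (l 15087952)) (a (l 14789384) (b (l 14857488)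 (l 14712160)))) (a (b (l 15095432) (l 14772600)) (b (l 15077280) (a (l 14767184) (l 14772488))))) (c (b (a (l 15086896) (l 15122720)) (a (b (l 14871568) (l 14782104)) (l 14955472))) (a (b (l 15093560) (b (l 14876256) (l 14785984))) (b (c (l 15129304) (a (l 15123760) (l 15136464))) (c (l 14965432) (a (l 14928776) (l 14989816)))))))) (c (a (c (b (a (b (l 15204952) (l 15124816)) (l 15277736)) (l 15173856)) (b (a (b (l 15215592) (l 15134728)) (a (l 15249448) (l 15310464))) (a (l 15103944) (l 15199552)))) (c (a (c (l 15403288) (l 15405928)) (c (l 15532600) (l 15521096))) (c (a (l 15397240) (l 15516368)) (a (l 15364160) (l 15516112))))) (a (c (b (a (b (l 15224304) (a (l 15107512) (l 15168160))) (c (l 15275152) (l 15263288))) (a (c (l 15110568) (l 15111136)) (c (l 15247232) (l 15238568)))) (a (b (c (b (l 15214944) (l 15131296)) (b (l 15204152) (l 15122040))) (c (l 15097448) (l 15091840))) (l 15246304))) (l 15439288)))), by decide +kernel⟩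

def k12_pp_022 : ∃ t, chk3 f_pp_022 t 16 37 3 = true :=
  ⟨(a (c (a (c (a (b (l 15081480) (l 14755696)) (b (l 15073664) (a (l 14753264) (l 14771928)))) (a (c (l 14905728) (l 14731200)) (c (b (l 15079096) (a (l 14748520) (l 14780672))) (b (a (l 15072488) (l 15083656)) (a (l 14752904) (c (l 14777256) (l 14777504))))))) (b (c (a (c (l 15103768) (l 15106056)) (c (a (l 15121488) (l 15124288)) (l 15114776))) (a (c (a (l 15097064) (l 15101360)) (l 15094920)) (l 15106312))) (c (a (c (b (l 14886928) (l 14797264)) (b (l 14884488) (a (l 14758480) (l 14818952)))) (c (a (l 14919352) (l 14984184)) (l 14948144))) (a (c (a (b (l 14866520) (l 14749840)) (l 14856504)) (l 14834464)) (l 14934488))))) (a (a (a (c (c (l 14893704) (c (l 14723632) (b (l 15055656) (l 14716216)))) (c (b (c (a (l 15051568) (l 15047520)) (l 15040176)) (c (a (l 14709328) (l 14715392)) (l 14712592))) (l 14877016))) (c (c (b (l 15061328) (l 14669360)) (c (b (l 15057712) (l 14726904)) (b (l 15056368) (l 14730512)))) (l 14888376)))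 (c (a (c (c (l 14700344) (l 14657184)) (l 14909224)) (l 14922368)) (l 14838488))) (b (l 14954144) (a (b (l 14850224) (l 14757040)) (l 14909200))))) (b (a (a (c (l 15029720) (l 15126736)) (c (l 15237168) (l 15210232))) (l 15260640)) (c (l 15175560) (l 15255776)))), by decide +kernel⟩

def k13_pp_022 : ∃ t, chk3 f_pp_022 t 17 37 1 = true :=
  ⟨(c (a (c (a (c (b (l 15569312) (l 15692368)) (l 15703264)) (l 15946504)) (a (l 15689960) (l 15934608))) (a (c (l 16139112) (l 16173944)) (b (l 16354176) (c (l 16421192) (l 16418360))))) (a (c (l 15652064) (l 15677600)) (b (l 16062352) (a (l 16188360) (l 16414256))))), by decide +kernel⟩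

def k14_pp_022 : ∃ t, chk3 f_pp_022 t 16 76 2 = true :=
  ⟨(a (c (a (b (a (c (a (l 14593408) (a (l 14574912) (l 14582248))) (a (l 14574704) (l 14582912))) (c (a (b (a (l 14634744) (l 14666808)) (l 14608264)) (l 14674832)) (b (l 14647096) (l 14620152)))) (b (a (a (c (a (b (l 14498072) (a (l 14459936) (l 14464640))) (b (l 14502800) (l 14481792))) (a (l 14461272) (l 14474464))) (c (a (l 14516864) (l 14547520)) (l 14513120))) (c (l 14625480) (l 14607072))) (c (a (c (c (b (l 14459736) (l 14518632)) (l 14484488)) (l 14477176)) (l 14629712)) (a (l 14441528) (l 14611360))))) (b (c (a (l 14764136) (l 14908440)) (l 14814472)) (b (c (l 14741600) (l 14822416)) (c (a (l 14755272) (l 14905312)) (a (l 14744560) (l 14911824)))))) (a (b (a (c (l 14561632) (l 14542736)) (c (l 14618688) (l 14603712))) (c (b (a (l 14475352) (l 14588552)) (a (l 14463800) (l 14592880))) (b (a (l 14455656) (l 14573296)) (a (l 14443992) (l 14577672))))) (c (b (l 14836944) (b (l 14823808) (l 14788936))) (a (b (l 14753280)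 (b (l 14737976) (l 14744216))) (b (c (l 14934544) (l 14927400)) (b (c (l 14923552) (l 14914464)) (c (l 14931488) (l 14921352)))))))) (c (a (c (b (l 15160904) (b (l 15155720) (l 15166024))) (a (b (l 15087088) (l 15021848)) (b (l 15253064) (b (l 15249152) (c (l 15260704) (l 15255288)))))) (c (b (a (l 15403968) (l 15528032)) (b (a (l 15404256) (l 15530280)) (a (l 15416696) (l 15543576)))) (a (b (l 15379984) (b (l 15379232) (l 15370568))) (l 15530864)))) (a (c (b (a (c (l 15096304) (l 15091888)) (l 15227376)) (b (a (l 15045064) (l 15223608)) (a (c (l 15100232) (l 15091616)) (c (l 15241952) (l 15242368))))) (c (b (l 15146608) (b (l 15142240) (l 15153624))) (l 15149352))) (l 15444840)))), by decide +kernel⟩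

def k15_pp_022 : ∃ t, chk3 f_pp_022 t 16 77 2 = true :=
  ⟨(a (c (a (c (a (l 14599600) (l 14726384)) (l 14582256)) (c (l 14739848) (l 14905576))) (a (c (l 14627040) (l 14547856)) (c (l 14704328) (a (l 14850176) (c (l 15028480) (l 15017760)))))) (c (a (c (l 15261408) (a (l 15186088) (l 15206232))) (c (a (l 15509448) (l 15635896)) (c (l 15559848) (l 15566016)))) (a (c (a (c (l 15197280) (l 15186296)) (l 15331528)) (c (l 15252384) (l 15253320))) (l 15553288)))), by decide +kernel⟩

def k16_pp_022 : ∃ t, chk3 f_pp_022 t 16 39 2 = true :=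
  ⟨(a (c (a (c (a (l 14832432) (l 14958272)) (l 14712096)) (c (l 14907288) (l 14991440))) (a (c (l 14759192) (a (l 14783168) (l 14916032))) (c (a (l 15074432) (c (l 15253824) (l 15262592))) (c (a (l 15084936) (l 15235832)) (a (l 15068800) (l 15251728)))))) (c (a (c (a (l 15404160) (l 15479808)) (a (c (l 15415288) (l 15428216)) (c (l 15581904) (l 15572248)))) (c (a (b (l 15655400) (l 15564112)) (b (l 15786808) (l 15917056))) (b (l 15669336) (l 15849752)))) (a (c (a (c (l 15422768) (l 15415160)) (l 15504880)) (l 15491728)) (b (l 15707792) (l 15839328))))), by decide +kernel⟩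

def k17_pp_022 : ∃ t, chk3 f_pp_022 t 16 19 6 = true :=
  ⟨(a (b (b (a (c (b (a (l 14523704) (l 14595744)) (b (a (l 14435816) (l 14566424)) (a (l 14424048) (l 14572632)))) (a (b (c (l 14509352) (l 14502504)) (b (c (l 14420856) (l 14415312)) (c (l 14409008) (l 14404832)))) (c (b (a (l 14551288) (l 14629656)) (b (l 14567312) (a (l 14522624) (l 14612656)))) (b (a (l 14552344) (l 14623888)) (b (a (l 14514824) (l 14606992)) (a (l 14517592) (l 14615320))))))) (c (c (b (a (l 14764728) (l 14916688)) (b (a (l 14748928) (l 14906360)) (a (l 14754696) (l 14915424)))) (a (b (l 14756200) (b (l 14739072) (l 14660464))) (l 14911688))) (a (c (b (l 14748920) (b (l 14735376) (l 14743320))) (l 14741312)) (l 14897808)))) (a (c (a (l 14524424) (c (l 14669576) (l 14675064))) (c (a (l 14510104) (l 14669192)) (a (l 14509072) (a (l 14616288) (l 14716928))))) (c (c (a (l 14852160) (l 15016024)) (a (l 14842520) (l 15012328))) (l 14921064)))) (a (c (a (l 14766528) (c (l 14917776) (a (l 14870552) (l 14951736))))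 (c (a (l 14762368) (c (l 14906552) (l 14904080))) (a (a (l 14717480) (l 14671864)) (c (l 14904896) (l 14914512))))) (c (a (c (l 14957912) (l 15039488)) (l 15255176)) (l 15163144)))) (b (b (a (l 15130312) (l 15421968)) (l 15385072)) (a (l 15474240) (l 15523696)))), by decide +kernel⟩

def k18_pp_022 : ∃ t, chk3 f_pp_022 t 16 19 7 = true :=
  ⟨(a (b (a (b (c (c (b (a (a (l 14486408) (c (l 14502136) (l 14495872))) (c (l 14589800) (l 14591224))) (a (b (a (l 14378112) (l 14423552)) (a (l 14358936) (c (l 14429360) (l 14424112)))) (l 14562760))) (a (b (a (c (l 14478464) (l 14468760)) (c (l 14496384) (l 14497856))) (a (b (c (l 14367376) (l 14358208)) (c (l 14346432) (a (l 14321808) (l 14359664)))) (l 14426152))) (l 14571920))) (a (b (l 14479584) (b (l 14389240) (l 14377160))) (l 14472728))) (c (a (c (c (l 14498200) (l 14489368)) (a (c (l 14445872) (c (l 14443048) (l 14444160))) (l 14530152))) (l 14662800)) (l 14564072))) (b (l 14648080) (l 14896200))) (a (c (a (c (c (l 14505776) (a (l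 14696072) (l 14777048))) (b (c (a (l 14609760) (l 14695704)) (l 14653568)) (l 14818600))) (l 14908736)) (l 14812896)) (l 15141880))) (b (b (a (l 15101848) (l 15399448)) (l 15362672)) (a (l 15452728) (l 15591936)))), by decide +kernel⟩

def k19_pp_022 : ∃ t, chk3 f_pp_022 t 17 19 1 = true :=
  ⟨(c (b (a (b (c (b (l 15861328) (l 15714664)) (a (l 15723336) (l 15994048))) (a (l 15654544) (c (l 16056824) (l 16069416)))) (b (a (c (b (l 16243000) (l 16251592)) (l 16152784)) (c (l 16409592) (l 16406808))) (a (l 16275880) (l 16406704)))) (b (a (a (c (l 15958248) (l 15968096)) (l 16055704)) (l 16194872)) (a (c (l 16071760) (l 16065040)) (l 16237632)))) (b (a (b (c (l 15720648) (l 15726368)) (a (l 15816984) (l 15971736))) (b (a (b (l 16206248) (l 16215584)) (l 16402792)) (l 16311752))) (a (a (b (l 15806016) (l 16021496)) (l 16156968)) (l 16347152)))), by decide +kernel⟩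

def k20_pp_022 : ∃ t, chk3 f_pp_022 t 9 9 1 = true :=
  ⟨(b (a (c (a (b (a (l 16240112) (b (l 16202568) (l 16017880))) (a (b (l 16177168) (l 16310160)) (l 15909912))) (b (b (a (l 15882208) (l 15627472)) (l 15718600)) (c (l 15691856) (l 15674928)))) (a (b (b (l 16218464) (a (l 16432576) (l 16083184))) (a (b (l 16337216) (l 16301584)) (l 16037064))) (b (b (l 15540872) (l 15684968)) (l 15649016)))) (a (b (c (a (l 15403416) (l 15310784)) (a (l 15357136) (l 15260816))) (c (a (b (l 15337976) (l 15290328)) (b (l 15251688) (l 15209904))) (a (l 15266640) (l 15182560)))) (l 15237576))) (a (c (b (a (b (a (l 16288848) (l 16037608)) (l 15994888)) (b (c (l 15639272) (l 15621656)) (l 15570208))) (a (a (l 16149784) (l 15874632)) (a (l 15600088) (l 15326752)))) (b (a (b (l 15991768) (l 16105824)) (b (l 15594672) (l 15532096))) (a (l 15972208) (l 15311344)))) (a (a (b (b (c (b (l 15253472) (l 15230488)) (l 15192608)) (a (l 15209744) (l 15124592))) (b (a (l 15164616) (l 15090944)) (l 15079424)))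 (l 15077984)) (l 14842768)))), by decide +kernel⟩

def k21_pp_022 : ∃ t, chk3 f_pp_022 t 5 9 1 = true :=
  ⟨(a (a (b (a (b (l 15264624) (l 15178064)) (l 15118096)) (l 14894744)) (l 14925064)) (a (l 14833704) (l 14788136))), by decide +kernel⟩

def k22_pp_022 : ∃ t, chk3 f_pp_022 t 3 4 1 = true :=
  ⟨(b (a (a (l 15183656) (l 15072016)) (l 14909880)) (a (b (l 14925912) (l 14676472)) (l 14801744))), by decide +kernel⟩

def k23_pp_022 : ∃ t, chk3 f_pp_022 t 16 40 2 = true :=
  ⟨(a (c (a (c (l 15178296) (l 15186640)) (a (c (l 15339600) (l 15293280)) (b (l 15462512) (c (l 15576952) (l 15596952))))) (a (c (l 15173936) (c (l 15164888) (a (l 15093520) (l 15234136)))) (c (a (b (l 15305616) (l 15398416)) (b (l 15444280) (c (l 15584968) (l 15540448)))) (c (b (l 15146064) (a (l 15463704) (l 15611568))) (a (b (l 15315760) (l 15460472)) (l 15554216)))))) (c (a (c (a (b (l 15624352) (l 15708248)) (b (c (l 15773136) (l 15776968)) (l 15811760))) (b (a (a (l 15607432) (l 15683296)) (c (l 15771200)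 (l 15778448))) (a (l 15613960) (l 15807984)))) (c (a (c (l 15883272) (l 15885616)) (l 15967824)) (l 15925656))) (a (a (a (c (b (l 15603544) (l 15698128)) (l 15656024)) (l 15652376)) (l 15768448)) (l 15916680)))), by decide +kernel⟩

def k24_pp_022 : ∃ t, chk3 f_pp_022 t 16 41 2 = true :=
  ⟨(b (a (c (a (a (b (l 15303664) (l 15349240)) (b (l 15417272) (l 15426032))) (c (l 15532384) (a (l 15489184) (l 15591168)))) (a (c (a (l 15308968) (l 15402488)) (a (l 15297632) (c (l 15398488) (a (l 15374976) (l 15421032))))) (c (a (a (l 15470232) (l 15523920)) (l 15484640)) (a (c (l 15497160) (l 15500472)) (l 15608808))))) (c (a (c (a (l 15678224) (l 15763432)) (a (l 15678776) (l 15775952))) (l 15886416)) (l 15781936))) (a (c (a (b (b (l 15283584) (l 15362856)) (l 15308600)) (c (b (l 15458056) (l 15404592)) (b (b (a (l 15455640) (l 15545816)) (l 15477336)) (l 15417432)))) (a (a (b (b (l 15343968) (l 15320424)) (l 15266376)) (c (l 15283616) (b (b (l 15394424) (l 15363864)) (l 15305048)))) (c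 (b (b (a (l 15464832) (l 15545552)) (l 15408760)) (a (l 15372040) (l 15451768))) (a (b (b (l 15438864) (l 15428616)) (l 15369848)) (l 15509344))))) (c (a (c (b (b (l 15477112) (l 15628928)) (l 15564040)) (a (b (b (l 15626968) (l 15591968)) (l 15529504)) (l 15658512))) (l 15755680)) (l 15490424)))), by decide +kernel⟩

def k25_pp_022 : ∃ t, chk3 f_pp_022 t 16 20 3 = true :=
  ⟨(b (a (c (a (c (a (c (l 15086776) (l 15088824)) (c (l 15040784) (a (l 15180176) (l 15261400)))) (c (a (c (l 15081200) (l 15072680)) (l 15009192)) (a (c (l 15063600) (l 15056984)) (l 15230872)))) (a (c (c (a (l 15348528) (l 15445728)) (l 15403440)) (l 15400224)) (l 15354688))) (a (c (a (c (b (c (l 14976536) (l 14982152)) (l 15143088)) (l 15061288)) (l 15230560)) (l 15138648)) (b (l 15383192) (l 15520000)))) (a (b (c (l 15686808) (l 15669744)) (l 15600232)) (c (l 15903992) (l 15891808)))) (a (a (a (b (c (c (c (l 15292848) (a (l 15260192) (l 15312864))) (c (a (l 15250576) (l 15300120)) (a (l 15237360) (l 15303392))))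 (l 15268584)) (c (c (b (b (c (l 15334912) (l 15326592)) (l 15306776)) (l 15249784)) (c (b (b (l 15312632) (l 15288528)) (l 15233448)) (l 15268256))) (l 15222064))) (b (c (c (c (a (l 15367776) (l 15417248)) (a (l 15358736) (l 15430584))) (l 15400304)) (l 15397760)) (c (c (c (a (b (l 15328784) (l 15277448)) (l 15353184)) (l 15338336)) (l 15342976)) (l 15339728)))) (b (c (l 15556328) (l 15541752)) (c (l 15462208) (l 15445984)))) (b (c (l 15789752) (l 15776320)) (c (l 15621800) (l 15648016))))), by decide +kernel⟩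

def k26_pp_022 : ∃ t, chk3 f_pp_022 t 17 20 1 = true :=
  ⟨(b (c (a (c (l 16083392) (l 16119776)) (c (l 16300648) (l 16297712))) (a (l 15902432) (l 16293416))) (c (b (a (c (l 16066800) (l 16081480)) (c (l 16320200) (l 16318136))) (a (c (l 15805680) (l 15838320)) (c (l 16027928) (l 16148176)))) (b (a (c (l 16074536) (l 16065464)) (l 16315176)) (a (l 15657200) (l 16055312))))), by decide +kernel⟩

def k27_pp_022 : ∃ t, chk3 f_pp_022 t 8 21 1 = true :=
  ⟨(a (a (c (b (c (a (c (l 15133760) (l 15120816)) (c (a (l 15178984) (l 15242016)) (a (l 15096000) (b (l 15325200) (l 15159520))))) (a (c (a (l 15092264) (l 15088024)) (a (c (l 15084296) (l 15081480)) (c (l 15114664) (l 15104824)))) (c (a (c (l 15172216) (l 15168600)) (l 15103168)) (c (l 15130328) (l 15225536))))) (c (a (c (l 14841784) (l 14747752)) (c (a (l 14873576) (l 14809640)) (a (b (l 14940928) (l 14779832)) (l 14872600)))) (a (c (a (l 14805624) (l 14589088)) (c (a (l 14791904) (l 14803480)) (a (l 14778920) (l 14803416))))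 (c (b (l 14903808) (l 14809272)) (l 14894448))))) (c (a (b (c (c (a (l 15069016) (l 15104728)) (a (l 15055744) (l 15110208))) (a (c (l 15050216) (l 15049864)) (l 15113256))) (c (c (a (l 14767528) (l 14800512)) (l 14782952)) (l 14778576))) (b (l 15219288) (l 14889848))) (a (b (l 15033456) (l 14764712)) (b (l 15198488) (l 14862672))))) (c (c (a (b (c (a (l 15167928) (l 15348704)) (b (l 15441072) (l 15279408))) (c (a (l 14979024) (l 15055808)) (l 15024048))) (b (l 15488864) (l 15130088))) (b (l 15331312) (l 15059408))) (b (c (l 15394704) (l 15373824)) (c (l 15031912) (l 15003920))))) (c (b (a (c (l 15643536) (l 15628520)) (a (b (l 15891056) (l 15694024)) (b (l 15917536) (l 15824104)))) (a (c (b (l 15360704) (l 15192104)) (a (l 15198360) (l 15309424))) (c (l 15524408) (l 15505808)))) (b (a (l 15417688) (b (a (l 15868136) (l 15983480)) (l 15733552))) (a (b (l 15309184) (l 15131880)) (l 15476952))))), by decide +kernel⟩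

def k28_pp_022 : ∃ t, chk3 f_pp_022 t 9 10 1 = true :=
  ⟨(a (a (b (b (c (a (l 15937304) (l 15727200)) (l 15735208)) (b (c (a (l 16040568) (l 15773928)) (l 15653576)) (c (a (l 15981088) (l 15941384)) (a (l 16225768) (l 15942968))))) (b (c (a (l 16051072) (l 16235552)) (a (l 16122016) (l 16226856))) (c (a (l 15799392) (l 16065928)) (a (l 15771936) (l 16071640))))) (b (b (c (a (l 15197080) (b (l 15229296) (l 15148024))) (a (l 15407976) (b (l 15179336) (l 15095088)))) (b (c (a (l 15477384) (l 15244752)) (a (l 15438536) (l 15195144))) (a (c (l 15534240) (l 15649440)) (l 15456432)))) (a (b (c (l 15797008) (l 15987488)) (b (l 16241040) (l 16242576))) (l 16043200)))) (b (b (l 14860200) (l 15059184)) (b (l 15549392) (l 16016392)))), by decide +kernel⟩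

def k29_pp_022 : ∃ t, chk3 f_pp_022 t 4 11 1 = true :=
  ⟨(b (a (a (c (a (b (c (a (c (l 14547104) (b (l 14606520) (l 14453056))) (c (b (l 14654312) (l 14491464)) (a (l 14476560) (l 14593176)))) (a (b (c (l 14583384) (l 14540352)) (c (l 14428504) (l 14408944))) (l 14566144))) (b (a (c (c (l 14320520) (l 14297872)) (c (l 14273808) (l 14256784))) (c (a (c (l 14317376) (l 14303800)) (l 14356120)) (l 14326832))) (a (a (c (c (l 14150224) (l 14148920)) (c (l 14125152) (l 14102976))) (c (c (l 14174472) (l 14150944)) (l 14120056))) (c (a (l 14179880) (l 14235080)) (l 14195760))))) (b (a (b (l 14755504) (c (l 14602176) (l 14588016))) (b (c (l 14869200) (l 14838296)) (l 14703072))) (c (a (l 14404992) (l 14529264)) (l 14438712)))) (a (b (c (a (l 14473800) (l 14555872)) (a (l 14448320) (l 14522048))) (a (c (b (l 14236584) (l 14086168)) (b (l 14206288) (l 14052760))) (c (b (l 14311648) (l 14177832)) (l 14208016)))) (b (b (a (l 14702888) (l 14789248)) (a (l 14532264) (l 14636704))) (l 14294568))))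 (c (b (a (c (l 14970136) (l 14941360)) (l 15198184)) (a (l 14666248) (l 14874768))) (b (a (l 14898272) (l 15146240)) (a (l 14595752) (l 14808880))))) (a (a (b (c (a (l 15460832) (l 15722632)) (l 15490920)) (a (l 14855448) (l 15346752))) (l 15911200)) (l 16372520))) (a (a (a (c (b (b (a (b (b (c (b (l 14088952) (l 14078936)) (l 14038296)) (l 14056056)) (l 14056056)) (c (l 14137736) (l 14120872))) (a (l 14056056) (l 14130888))) (a (l 14056056) (l 14130888))) (b (a (c (l 13998304) (l 13963056)) (l 14076592)) (l 14029928))) (c (b (c (l 14274280) (l 14287536)) (l 14297024)) (l 14222000))) (c (b (a (l 14494968) (l 14685312)) (l 14586696)) (b (l 14510896) (l 14509832)))) (a (a (b (a (l 14799848) (l 15146848)) (l 15016760)) (l 15546896)) (l 16101768)))), by decide +kernel⟩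

def k30_pp_022 : ∃ t, chk3 f_pp_022 t 5 5 1 = true :=
  ⟨(b (b (a (b (l 14602328) (l 14814824)) (b (l 14467000) (l 14688576))) (a (l 15554248) (l 15431488))) (b (a (l 16458032) (l 16339832)) (a (l 16501048) (l 16745432)))), by decide +kernel⟩

def k31_pp_022 : ∃ t, chk3 f_pp_022 t 3 5 1 = true :=
  ⟨(a (b (b (b (l 14490376) (l 14713456)) (l 15444368)) (b (l 16335648) (l 16774872))) (b (b (b (l 14543856) (l 2)) (l 2)) (l 2))), by decide +kernel⟩

def k32_pp_022 : ∃ t, chk3 f_pp_022 t 1 3 1 = true :=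
  ⟨(a (a (a (b (b (a (c (a (b (l 14097408) (l 14097408)) (l 14297024)) (a (c (l 14046752) (l 14010576)) (l 14221552))) (c (l 14481840) (l 14509832))) (a (a (b (a (l 14016864) (l 14093672)) (l 14066616)) (b (l 14187192) (l 14250104))) (b (l 14465656) (l 14549544)))) (a (a (b (c (l 14097408) (l 14029928)) (l 14066616)) (l 14250104)) (l 14549544))) (b (a (b (l 15286440) (l 15286440)) (l 16101312)) (a (l 15286440) (l 16101312)))) (b (a (l 16500672) (l 16745168)) (a (l 16500672) (l 2)))) (b (b (a (l 16756720) (l 2)) (l 2)) (l 2))), by decide +kernel⟩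

theorem s33_pp_022 : ∃ t, chk3 f_pp_022 t 16 20 2 = true := ex3_b k23_pp_022 k24_pp_022

theorem s34_pp_022 : ∃ t, chk3 f_pp_022 t 16 20 1 = true := ex3_c s33_pp_022 k25_pp_022

theorem s35_pp_022 : ∃ t, chk3 f_pp_022 t 8 20 1 = true := ex3_a s34_pp_022 k26_pp_022

theorem s36_pp_022 : ∃ t, chk3 f_pp_022 t 8 10 1 = true := ex3_b s35_pp_022 k27_pp_022

theorem s37_pp_022 : ∃ t, chk3 f_pp_022 t 4 10 1 = true := ex3_a s36_pp_022 k28_pp_022

theorem s38_pp_022 : ∃ t, chk3 f_pp_022 t 4 5 1 = true := ex3_b s37_pp_022 k29_pp_022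

theorem s39_pp_022 : ∃ t, chk3 f_pp_022 t 2 5 1 = true := ex3_a s38_pp_022 k30_pp_022

theorem s40_pp_022 : ∃ t, chk3 f_pp_022 t 1 5 1 = true := ex3_a s39_pp_022 k31_pp_022

theorem s41_pp_022 : ∃ t, chk3 f_pp_022 t 16 19 3 = true := ex3_c k17_pp_022 k18_pp_022

theorem s42_pp_022 : ∃ t, chk3 f_pp_022 t 16 38 2 = true := ex3_b k14_pp_022 k15_pp_022

theorem s43_pp_022 : ∃ t, chk3 f_pp_022 t 16 19 2 = true := ex3_b s42_pp_022 k16_pp_022

theorem s44_pp_022 : ∃ t, chk3 f_pp_022 t 16 19 1 = true := ex3_c s43_pp_022 s41_pp_022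

theorem s45_pp_022 : ∃ t, chk3 f_pp_022 t 8 19 1 = true := ex3_a s44_pp_022 k19_pp_022

theorem s46_pp_022 : ∃ t, chk3 f_pp_022 t 16 37 1 = true := ex3_c k11_pp_022 k12_pp_022

theorem s47_pp_022 : ∃ t, chk3 f_pp_022 t 8 37 1 = true := ex3_a s46_pp_022 k13_pp_022

theorem s48_pp_022 : ∃ t, chk3 f_pp_022 t 16 36 1 = true := ex3_a k8_pp_022 k9_pp_022

theorem s49_pp_022 : ∃ t, chk3 f_pp_022 t 8 36 1 = true := ex3_a s48_pp_022 k10_pp_022

theorem s50_pp_022 : ∃ t, chk3 f_pp_022 t 8 18 1 = true := ex3_b s49_pp_022 s47_pp_022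

theorem s51_pp_022 : ∃ t, chk3 f_pp_022 t 8 9 1 = true := ex3_b s50_pp_022 s45_pp_022

theorem s52_pp_022 : ∃ t, chk3 f_pp_022 t 4 9 1 = true := ex3_a s51_pp_022 k20_pp_022

theorem s53_pp_022 : ∃ t, chk3 f_pp_022 t 2 9 1 = true := ex3_a s52_pp_022 k21_pp_022

theorem s54_pp_022 : ∃ t, chk3 f_pp_022 t 32 17 1 = true := ex3_a k2_pp_022 k3_pp_022

theorem s55_pp_022 : ∃ t, chk3 f_pp_022 t 16 17 1 = true := ex3_a s54_pp_022 k4_pp_022

theorem s56_pp_022 : ∃ t, chk3 f_pp_022 t 8 17 1 = true := ex3_a s55_pp_022 k5_pp_022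

theorem s57_pp_022 : ∃ t, chk3 f_pp_022 t 4 17 1 = true := ex3_a s56_pp_022 k6_pp_022

theorem s58_pp_022 : ∃ t, chk3 f_pp_022 t 4 16 1 = true := ex3_a k0_pp_022 k1_pp_022

theorem s59_pp_022 : ∃ t, chk3 f_pp_022 t 4 8 1 = true := ex3_b s58_pp_022 s57_pp_022

theorem s60_pp_022 : ∃ t, chk3 f_pp_022 t 2 8 1 = true := ex3_a s59_pp_022 k7_pp_022

theorem s61_pp_022 : ∃ t, chk3 f_pp_022 t 2 4 1 = true := ex3_b s60_pp_022 s53_pp_022

theorem s62_pp_022 : ∃ t, chk3 f_pp_022 t 1 4 1 = true := ex3_a s61_pp_022 k22_pp_022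

theorem s63_pp_022 : ∃ t, chk3 f_pp_022 t 1 2 1 = true := ex3_b s62_pp_022 s40_pp_022

theorem s64_pp_022 : ∃ t, chk3 f_pp_022 t 1 1 1 = true := ex3_b s63_pp_022 k32_pp_022

theorem c_pp_022 : CertNX 0 536870912 1073741824 536870912 1046898278 26843546 3 false true true .pp 0 2 2
    ndN3q0 ndN3q2 pcN2 cut_pp_022 Ext.none :=
  certNX1 (fam := false) (s1 := true) (s2 := true) (a := 0) (b := 2) (c := 2) (cn := .pp) (n1 := ndN3q0) (n2 := ndN3q2) (pc := pcN2) (cut := cut_pp_022) (xt := Ext.none) (P1 := 0) (W1 := 536870912) (P2 := 1073741824) (W2 := 536870912) (P3 := 1046898278) (W3 := 26843546) (N0 := 3)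
    rfl (fun _ => rfl) s64_pp_022

noncomputable def f_pp_023 : ℕ → ℕ → ℕ → ℕ → Bool := onCell 0 536870912 1073741824 536870912 1046898278 26843546
    (rowNX 3 1 false true true .up 0 2 3 (qsf 0 536870912 1610612736 536870912 2) ndN3q0 ndN3q3 pcN2 Cut.none Ext.none)

def k0_pp_023 : ∃ t, chk3 f_pp_023 t 1 1 1 = true :=
  ⟨(b (b (a (l 1) (b (a (l 1) (l 14909880)) (a (l 14796096) (l 14801744)))) (a (a (l 1) (b (l 1) (b (l 1) (l 849362504295)))) (b (b (b (l 549247553319) (l 578238945559)) (a (l 15444368) (l 15459776))) (b (a (l 16335648) (l 16272904)) (a (l 16774872) (l 16638504)))))) (a (a (a (b (l 1) (a (b (l 1) (l 14100664)) (l 14549544))) (b (a (l 1) (l 16101312)) (a (l 15286440) (l 16101312)))) (b (a (l 16500672) (l 16745168)) (a (l 16500672) (l 16745168)))) (b (b (a (l 16756720) (l 16644384)) (a (l 16775424) (l 16769560))) (a (b (l 16777208) (l 16777176)) (b (l 16721336) (l 16691264)))))), by decide +kernel⟩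

theorem c_pp_023 : CertNX 0 536870912 1610612736 536870912 1046898278 26843546 3 false true true .up 0 2 3
    ndN3q0 ndN3q3 pcN2 Cut.none Ext.none :=
  certNX1 (fam := false) (s1 := true) (s2 := true) (a := 0) (b := 2) (c := 3) (cn := .up) (n1 := ndN3q0) (n2 := ndN3q3) (pc := pcN2) (cut := Cut.none) (xt := Ext.none) (P1 := 0) (W1 := 536870912) (P2 := 1610612736) (W2 := 536870912) (P3 := 1046898278) (W3 := 26843546) (N0 := 3)
    rfl (fun _ => rfl) k0_pp_023

noncomputable def f_pp_033 : ℕ → ℕ → ℕ → ℕ → Bool := onCell 0 536870912 1610612736 536870912 1046898278 26843546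
    (rowNX 3 0 false true true .pnn 0 3 3 (qsf 0 536870912 1610612736 536870912 3) ndN3q0 ndN3q3 pcN3 Cut.none Ext.none)

def k0_pp_033 : ∃ t, chk3 f_pp_033 t 1 1 1 = true :=
  ⟨(a (b (a (b (a (a (a (l 13940784) (l 14250104)) (l 14549544)) (a (l 15286440) (l 16101312))) (a (b (a (a (l 14066616) (l 14250104)) (l 14549544)) (a (c (l 14194240) (l 14127872)) (l 14549544))) (a (b (l 15286440) (l 15286440)) (b (l 16101312) (l 16101312))))) (b (a (l 16500672) (l 1)) (a (b (l 16500672) (l 16500672)) (l 16745168)))) (b (b (a (a (a (b (c (l 14194240) (l 14127872)) (c (l 14194216) (l 14127840))) (c (l 14586688) (l 14509816))) (a (c (l 15309368) (l 15256384)) (l 16101296))) (a (l 16500656) (l 16745152))) (a (l 4) (b (a (l 16500600) (l 16745096)) (l 4)))) (l 4))) (b (b (l 1) (a (l 16777216) (l 1))) (b (a (c (l 16777168) (l 16777168)) (b (l 1) (l 16777152))) (a (l 4) (c (l 312157195911) (l 395909083975)))))), by decide +kernel⟩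

theorem c_pp_033 : CertNX 0 536870912 1610612736 536870912 1046898278 26843546 3 false true true .pnn 0 3 3
    ndN3q0 ndN3q3 pcN3 Cut.none Ext.none :=
  certNX0 (fam := false) (s1 := true) (s2 := true) (a := 0) (b := 3) (c := 3) (cn := .pnn) (n1 := ndN3q0) (n2 := ndN3q3) (pc := pcN3) (cut := Cut.none) (xt := Ext.none) (P1 := 0) (W1 := 536870912) (P2 := 1610612736) (W2 := 536870912) (P3 := 1046898278) (W3 := 26843546) (N0 := 3)
    rfl k0_pp_033

noncomputable def f_pp_101 : ℕ → ℕ → ℕ → ℕ → Bool := onCell 536870912 536870912 536870912 536870912 1046898278 26843546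
    (rowNX 3 0 false true true .npn 1 0 1 (qsf 536870912 536870912 536870912 536870912 0) ndN3q1 ndN3q1 pcN0 Cut.none Ext.none)

def k0_pp_101 : ∃ t, chk3 f_pp_101 t 1 1 1 = true :=
  ⟨(l 3), by decide +kernel⟩

theorem c_pp_101 : CertNX 536870912 536870912 536870912 536870912 1046898278 26843546 3 false true true .npn 1 0 1
    ndN3q1 ndN3q1 pcN0 Cut.none Ext.none :=
  certNX0 (fam := false) (s1 := true) (s2 := true) (a := 1) (b := 0) (c := 1) (cn := .npn) (n1 := ndN3q1) (n2 := ndN3q1) (pc := pcN0) (cut := Cut.none) (xt := Ext.none) (P1 := 536870912) (W1 := 536870912) (P2 := 536870912) (W2 := 536870912) (P3 := 1046898278) (W3 := 26843546) (N0 := 3)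
    rfl k0_pp_101

noncomputable def cut_pp_102 : Cut := Cut.of [[⟨0, 1, 0, 67108864⟩, ⟨1, 0, 0, 67108864⟩, ⟨2, 1, 0, 67108864⟩]]

noncomputable def f_pp_102 : ℕ → ℕ → ℕ → ℕ → Bool := onCell 536870912 536870912 1073741824 536870912 1046898278 26843546
    (rowNX 3 0 false true true .npp 1 0 2 (qsf 536870912 536870912 1073741824 536870912 0) ndN3q1 ndN3q2 pcN0 cut_pp_102 Ext.none)

def k0_pp_102 : ∃ t, chk3 f_pp_102 t 2 2 1 = true :=
  ⟨(a (a (b (b (b (c (b (l 15507848) (l 15631264)) (b (c (l 15452208) (l 15407896)) (l 15528320))) (c (l 15736560) (l 15673728))) (b (c (l 16145680) (l 16145160)) (l 2))) (l 2)) (b (b (b (c (b (l 15361048) (l 15631264)) (b (c (l 15452208) (l 15407896)) (l 15528320))) (c (l 15736560) (l 15673728))) (b (c (l 16124712) (l 16124192)) (c (l 16544584) (l 16536416)))) (b (b (c (l 16305016) (l 16288440)) (l 2)) (l 2)))) (a (b (b (b (c (b (b (l 15464376) (l 15557560)) (l 15631264)) (b (c (l 15431240) (l 15407896)) (l 15528320))) (c (l 15715584) (l 15673728)))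 (b (c (l 16082768) (l 16103224)) (c (l 16544584) (l 16536416)))) (b (b (c (l 16305016) (l 16288440)) (c (l 16404944) (l 16391880))) (b (c (l 16652752) (l 16648384)) (l 2)))) (b (b (b (c (b (b (a (l 15464376) (l 15464376)) (c (l 15577824) (l 15540800))) (l 15631264)) (b (c (b (l 15423496) (l 15487728)) (c (l 15398248) (l 15397472))) (c (l 15543528) (l 15508528)))) (c (b (l 15696000) (l 15767872)) (l 15673728))) (b (c (l 16061800) (l 16103224)) (c (l 16523616) (l 16536416)))) (b (b (c (l 16305016) (l 16288440)) (c (l 16404944) (l 16391880))) (b (c (l 16652752) (l 16648384)) (c (l 16777040) (l 16777032))))))), by decide +kernel⟩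

def k1_pp_102 : ∃ t, chk3 f_pp_102 t 12 4 1 = true :=
  ⟨(b (b (a (b (c (b (a (l 15464376) (a (l 15458680) (b (l 15377616) (l 15466216)))) (a (l 15557560) (b (l 15537152) (l 15576128)))) (b (b (a (l 15381992) (c (l 15343648) (a (l 15360408) (l 15306392)))) (a (l 15421776) (c (l 15412008) (l 15385672)))) (c (l 15485736) (l 15431312)))) (c (l 15631512) (l 15528576))) (b (c (b (a (l 15407032) (l 15422800)) (a (b (l 15540880) (l 15609472)) (l 15550368))) (b (c (b (l 15330008) (l 15417864)) (b (a (l 15287704) (l 15304472)) (l 15370272))) (c (a (l 15504080) (l 15523632)) (a (l 15450064) (l 15470040))))) (c (a (b (l 15680888) (l 15739232)) (b (l 15725400) (l 15829648))) (a (b (c (l 15589144) (l 15550608)) (l 15639536)) (b (l 15618176) (l 15733816)))))) (a (c (b (l 15696232) (l 15768096)) (l 15673960)) (a (c (l 15801824) (l 15763728)) (b (c (l 15817736) (l 15859072)) (l 15966168))))) (b (a (c (l 16124920) (l 16145376)) (b (l 15940816) (l 16250864))) (a (b (l 16593296) (l 16489224)) (c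 (l 16530304) (l 16591616))))), by decide +kernel⟩

def k2_pp_102 : ∃ t, chk3 f_pp_102 t 13 8 1 = true :=
  ⟨(c (b (a (b (b (a (l 15439680) (l 15457768)) (c (l 15636352) (l 15600592))) (c (l 15790664) (l 15774408))) (b (a (a (a (b (l 15469672) (l 15636752)) (b (a (l 15473336) (l 15441936)) (c (l 15517928) (l 15629536)))) (b (c (l 15564320) (l 15542648)) (c (l 15736976) (l 15703216)))) (b (c (l 15566672) (l 15569288)) (c (b (l 15867064) (l 15942768)) (l 15831536)))) (a (a (c (l 15770976) (l 15797104)) (l 15898256)) (c (l 15963960) (l 16036728))))) (a (b (a (l 15997080) (l 16017256)) (a (l 16080296) (l 16157520))) (a (b (a (l 16030232) (l 16101232)) (a (l 16218992) (l 16286352))) (b (l 16130320) (l 16329008))))) (b (a (b (b (c (b (l 15365312) (l 15452352)) (b (c (l 15343640) (a (l 15312744) (l 15332128))) (l 15405496))) (c (l 15548808) (l 15495752))) (c (l 15676960) (l 15687616))) (b (a (a (b (a (c (l 15428968) (b (l 15354464) (l 15427416))) (c (b (l 15396600) (l 15482952)) (b (a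 (l 15358360) (c (l 15380944) (l 15359968))) (l 15436712)))) (c (l 15573880) (l 15521336))) (b (c (b (l 15473872) (l 15559408)) (b (c (l 15453800) (l 15433536)) (l 15514672))) (c (l 15653472) (l 15602488)))) (b (c (b (l 15651312) (l 15735536)) (b (c (l 15633800) (l 15489432)) (l 15694200))) (c (l 15827056) (l 15779448)))) (a (a (c (l 15742056) (l 15711248)) (l 15806552)) (b (l 15916528) (l 16029608))))) (a (b (a (l 15936712) (l 15957736)) (a (l 16115248) (l 16195752))) (a (b (a (l 15971248) (l 16045192)) (l 16062312)) (c (l 16075648) (l 16070104)))))), by decide +kernel⟩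

def k3_pp_102 : ∃ t, chk3 f_pp_102 t 13 9 1 = true :=
  ⟨(b (a (b (a (l 16274944) (c (l 16358872) (l 16416880))) (c (l 16469776) (l 16483416))) (a (b (a (b (l 16422552) (l 16449872)) (l 16307832)) (a (l 16111600) (l 15859672))) (b (a (l 16190464) (l 16115048)) (c (l 15836080) (l 15870152))))) (a (b (c (l 16312560) (l 16318800)) (l 16324664)) (a (a (c (l 16043968) (l 16106144)) (b (l 15849408) (l 15980608))) (b (b (c (l 15641448) (l 15602272)) (l 15599192)) (l 15669920))))), by decide +kernel⟩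

def k4_pp_102 : ∃ t, chk3 f_pp_102 t 28 16 1 = true :=
  ⟨(b (b (c (a (b (a (l 15857336) (a (l 15946040) (l 15993192))) (c (l 15908192) (l 15978680))) (a (c (b (l 16053136) (l 16167096)) (l 15994032)) (a (c (a (l 16091488) (l 16130432)) (l 16058472)) (b (l 16068112) (l 16121552))))) (a (c (b (a (l 15834056) (l 15947736)) (l 15831136)) (c (b (a (l 15819128) (l 15871472)) (l 15949048)) (b (a (l 15802328) (b (l 15900528) (l 15942624))) (l 15926264)))) (a (c (b (l 16029208) (l 16137736)) (b (c (l 16016960) (l 15981000)) (l 16103928))) (c (b (l 16061616) (l 16129832)) (b (c (l 15986856) (b (l 15970064) (l 16061168))) (l 16075624)))))) (a (c (c (b (l 16057784) (l 16173680)) (l 16025808)) (c (l 16067776) (l 16024752))) (c (a (c (b (l 16185960) (l 16351680)) (l 16138320)) (c (b (a (l 16321296) (l 16301600)) (l 16409296)) (b (l 16294968) (l 16384560)))) (a (c (l 16204536) (l 16164832)) (c (l 16257792) (l 16198064)))))) (a (c (c (l 16084000) (l 16161168)) (c (l 16094360) (l 16156784)))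 (c (a (c (l 16323008) (l 16340648)) (c (a (l 16401808) (l 16382488)) (l 16357240))) (a (l 16249568) (c (b (l 16388088) (l 16535144)) (l 16341752)))))), by decide +kernel⟩

def k5_pp_102 : ∃ t, chk3 f_pp_102 t 29 16 1 = true :=
  ⟨(b (b (b (a (c (c (a (l 16034056) (l 15959040)) (l 15952504)) (c (l 15960312) (c (l 15968248) (b (l 15929504) (l 15978968))))) (c (a (a (l 15858312) (b (a (l 15880992) (c (a (l 15858752) (l 15857680)) (l 15865064))) (l 15933224))) (a (b (l 15882912) (a (l 15917760) (l 15922104))) (c (l 15929648) (l 15915520)))) (a (c (b (l 15867872) (l 15926112)) (b (c (l 15856328) (b (l 15831520) (l 15855904))) (c (l 15910728) (l 15891528)))) (c (b (l 15872104) (a (l 15899168) (l 15917760))) (b (c (l 15860584) (c (l 15853192) (b (l 15840072) (l 15851240)))) (c (a (l 15883392) (l 15902216)) (a (l 15863920) (l 15882912)))))))) (c (a (c (l 16081856) (l 16049408)) (a (c (l 16041896) (l 16028848)) (a (b (l 15967880) (l 16022224)) (b (l 15972496) (c (l 16016872) (l 16002992))))))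 (a (c (l 16008648) (l 16057712)) (a (c (l 15965512) (l 15970984)) (c (a (b (l 15943456) (l 15989256)) (b (l 15948184) (l 15955480))) (a (c (l 15937664) (l 15914616)) (c (l 15870824) (b (l 15897792) (l 15919920))))))))) (c (a (c (b (b (l 16210568) (l 16265224)) (l 16338536)) (b (l 16198328) (l 16312376))) (b (a (c (l 16156040) (l 16136488)) (b (c (l 16075560) (l 16036480)) (l 16116264))) (c (l 16230992) (l 16202760)))) (a (c (l 16140456) (l 16142112)) (c (a (l 16140664) (b (a (l 16057752) (l 16031472)) (l 16125072))) (a (l 16098728) (b (c (l 15982912) (l 15988432)) (l 16082160))))))) (c (b (a (c (l 16323408) (l 16324848)) (c (l 16283472) (l 16240944))) (a (c (l 16492432) (l 16470976)) (l 16329648))) (b (a (c (l 16294472) (l 16334056)) (c (l 16166552) (l 16183040))) (a (a (l 16510800) (l 16440568)) (c (l 16326656) (l 16339056)))))), by decide +kernel⟩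

def k6_pp_102 : ∃ t, chk3 f_pp_102 t 14 17 1 = true :=
  ⟨(a (a (b (c (l 16261696) (l 16325624)) (c (l 16246352) (l 16371712))) (b (c (c (a (l 16448344) (l 16391352)) (l 16205512)) (l 16253520)) (c (c (l 15991808) (l 16162016)) (l 16108976)))) (b (c (a (b (c (l 16437736) (l 16494208)) (l 16349296)) (b (l 16380064) (a (l 16362568) (l 16354968)))) (a (b (l 16484064) (l 16358624)) (b (l 16412888) (a (l 16372760) (l 16408648))))) (c (a (l 16140728) (b (l 16234072) (l 16100256))) (a (l 16152192) (b (l 16228728) (l 16083608)))))), by decide +kernel⟩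

def k7_pp_102 : ∃ t, chk3 f_pp_102 t 30 64 1 = true :=
  ⟨(a (a (c (c (a (c (c (b (b (a (c (a (c (b (a (l 15907192) (b (l 15914440) (l 15919496))) (l 15947760)) (l 15937072)) (c (b (l 15949736) (l 15947360)) (b (a (l 15918952) (l 6)) (l 15959480)))) (l 15942072)) (b (l 6) (a (c (c (l 15975024) (l 15959184)) (l 15970264)) (l 6)))) (a (l 15977464) (c (b (a (l 15999408) (c (l 16031704) (l 15994936))) (l 16024832)) (l 16002944)))) (a (l 16026088) (l 16057816))) (l 16000632)) (l 15995800)) (c (b (b (l 6) (a (a (b (l 6) (c (c (l 16060768) (l 16037048)) (l 16024640))) (l 6)) (l 6))) (c (b (b (a (c (a (l 16070672) (l 16096344)) (l 16062808)) (l 6)) (a (l 16087672) (c (l 16127080) (l 16119880)))) (a (l 16110464) (c (b (l 16155816) (l 16166840)) (l 16141856)))) (l 16090000))) (l 16004584))) (b (l 15978936) (l 15980680))) (c (b (b (l 15948888) (l 15981904)) (b (l 16011480) (l 16034112))) (b (c (b (l 15938376) (l 15967208)) (b (c (l 15931496) (b (l 15918928) (l 15929664))) (l 15927496)))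 (c (l 15993848) (l 15971280))))) (b (l 6) (b (l 6) (b (l 6) (a (c (c (c (c (a (c (l 16218824) (l 16190864)) (l 6)) (l 16186784)) (l 16158144)) (l 16144088)) (c (l 16119560) (l 16073440))) (l 6)))))) (l 6)), by decide +kernel⟩

def k8_pp_102 : ∃ t, chk3 f_pp_102 t 30 65 1 = true :=
  ⟨(a (c (b (c (a (c (a (c (a (l 16096128) (l 16122744)) (l 16101600)) (c (l 16177952) (l 16153848))) (b (l 16102224) (l 16133752))) (a (c (c (b (a (c (l 16233240) (l 16212656)) (c (l 16288424) (l 16257544))) (l 16169592)) (l 16224712)) (c (l 16199888) (l 16188576))) (b (l 6) (a (a (c (c (l 16288424) (l 16289296)) (l 16245880)) (l 6)) (l 6))))) (a (b (l 16087360) (l 16114064)) (l 16199920))) (a (c (c (a (a (l 16182544) (l 16189680)) (c (l 16237224) (l 16210016))) (l 16184960)) (a (l 16147744) (l 16170576))) (c (c (a (l 16292728) (c (b (a (l 16339968) (c (l 16425720) (l 16393696))) (l 16379712)) (l 16353320))) (l 16193048)) (l 16240912)))) (a (c (b (a (l 16020216) (l 16088008)) (a (l 16097920) (l 16121152)))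 (b (a (c (l 15999848) (l 15984352)) (l 16040696)) (a (l 16054480) (l 16078104)))) (c (l 16115016) (b (l 16119504) (l 16150944))))) (b (l 6) (a (a (b (l 6) (c (c (c (c (a (l 16408936) (l 6)) (l 16424584)) (l 16390960)) (l 16329496)) (l 16236040))) (l 6)) (l 6)))), by decide +kernel⟩

def k9_pp_102 : ∃ t, chk3 f_pp_102 t 30 33 1 = true :=
  ⟨(b (c (a (a (c (c (a (l 16283176) (l 16234304)) (l 16304248)) (l 16225864)) (a (c (c (l 16292576) (b (l 16289968) (l 16351208))) (l 16218616)) (c (b (l 16338624) (l 16316688)) (l 16312040)))) (a (c (c (b (b (a (c (a (l 16479640) (l 16488752)) (l 16461824)) (l 6)) (a (l 16437920) (c (l 16474840) (l 16500816)))) (a (l 16528568) (c (b (l 16498952) (l 16593056)) (l 16588240)))) (l 16370880)) (c (a (l 16377360) (l 16399576)) (l 16371152))) (a (b (l 6) (a (c (c (c (l 16493096) (l 16608464)) (l 16590192)) (l 16456728)) (l 6))) (l 6)))) (a (a (c (b (l 16173008) (l 16250088)) (l 16144704)) (b (c (l 16218920) (l 16188624)) (c (l 16222360) (l 16244568))))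 (c (b (l 16328328) (l 16330688)) (l 16254808)))) (c (a (c (a (c (l 16391496) (l 16455984)) (a (l 16365280) (l 16363616))) (l 16371072)) (c (a (a (l 16402216) (l 16458336)) (c (a (b (c (a (l 16534392) (l 16415016)) (l 16590376)) (l 16523264)) (b (a (b (l 6) (l 16366832)) (l 6)) (c (b (l 16345480) (l 16415744)) (l 16470832)))) (l 16507768))) (a (a (l 16322280) (l 16318304)) (l 16373632)))) (a (a (l 16306896) (a (l 16345632) (l 16261448))) (a (b (c (l 16373176) (l 16362336)) (l 16336928)) (l 16398728))))), by decide +kernel⟩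

def k10_pp_102 : ∃ t, chk3 f_pp_102 t 30 17 1 = true :=
  ⟨(b (b (c (a (c (a (l 16477584) (l 16438384)) (l 16497264)) (a (c (l 16398728) (c (l 16493616) (l 16522408))) (a (c (l 16346600) (a (l 16410968) (l 16429960))) (b (l 16272656) (l 16238120))))) (a (l 16435360) (a (l 16450488) (b (l 16492080) (l 16546624))))) (c (a (c (a (l 16296776) (l 16292920)) (l 16419472)) (c (l 16183800) (b (a (l 16474584) (l 16348152)) (l 16270760)))) (a (l 16355168) (l 16371752)))) (c (a (c (a (b (l 16144456) (l 15966480)) (b (l 16150512) (l 16013144))) (b (l 16243168) (l 16062968))) (c (b (l 16096512) (l 15922616)) (a (l 15981768) (l 15953496)))) (a (b (l 16211808) (l 15984968)) (b (l 16235080) (l 16019848))))), by decide +kernel⟩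

def k11_pp_102 : ∃ t, chk3 f_pp_102 t 62 8 1 = true :=
  ⟨(a (b (a (a (b (l 6) (b (l 6) (c (c (c (b (l 6) (c (l 16282832) (l 16410928))) (l 16411864)) (l 16581896)) (l 16484232)))) (l 6)) (l 6)) (c (b (c (b (c (b (a (c (b (l 16246440) (l 16295504)) (l 16350352)) (a (b (l 6) (l 16168072)) (l 6))) (a (l 16282480) (c (a (l 16204704) (c (l 16085736) (l 16177176))) (l 16228936)))) (l 16349416)) (a (l 16208360) (a (l 16190704) (l 16158616)))) (b (l 16323096) (b (l 16304320) (l 16269616)))) (c (b (l 15846680) (l 15834104)) (l 15949192))) (c (b (b (l 16419760) (a (b (l 16498624) (l 16409584)) (l 16332744))) (b (l 16196472) (l 16018096))) (b (b (l 16533656) (l 16351792)) (l 16087424))))) (b (l 6) (c (a (b (c (b (a (b (l 6) (c (c (l 16096928) (l 16172432)) (l 16232168))) (l 6)) (c (c (b (b (l 16088808) (l 16074488)) (l 16040480)) (l 16093216)) (l 16145192))) (l 16110280)) (c (b (c (l 15960592) (l 15872600)) (l 15613416)) (l 15835408))) (b (b (l 6) (c (c (b (c (b (l 6) (l 16004680)) (l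 15975552)) (c (l 15862112) (l 16025008))) (l 16088744)) (a (l 16192432) (l 16052576)))) (b (c (l 15832752) (l 15928456)) (c (l 15794928) (l 15876600))))) (b (c (b (b (l 6) (l 16327880)) (l 16217040)) (l 16314000)) (b (c (a (l 16127336) (l 16163432)) (l 16196464)) (c (l 15990440) (l 16022256))))))), by decide +kernel⟩

def k12_pp_102 : ∃ t, chk3 f_pp_102 t 63 8 1 = true :=
  ⟨(b (l 6) (b (b (l 6) (b (l 6) (a (a (a (c (c (c (c (l 15936256) (l 15987312)) (l 16031424)) (l 16099840)) (l 16151184)) (l 6)) (l 6)) (l 6)))) (c (c (b (a (c (a (b (c (a (l 15914816) (l 15844264)) (l 15933192)) (l 15871368)) (a (b (b (l 6) (l 15846432)) (l 15860904)) (b (l 6) (l 15832784)))) (l 15931032)) (a (a (a (b (l 6) (b (l 6) (l 15867120))) (l 6)) (l 6)) (l 6))) (a (a (l 15784792) (b (l 15828328) (l 15763064))) (c (b (c (a (l 15853736) (b (l 6) (l 15867872))) (a (l 15869696) (l 15901368))) (a (l 15809416) (c (l 15826160) (l 15857000)))) (l 15857568)))) (a (a (b (l 15997312) (l 15702768)) (b (l 15952408)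 (l 15824920))) (b (l 15968848) (l 15850104)))) (a (c (a (b (l 16092664) (l 15942584)) (b (l 15939024) (l 15746664))) (b (l 16086624) (a (l 16008072) (l 15971936)))) (c (a (b (l 15972312) (l 15850360)) (l 15917904)) (a (c (l 15876440) (l 15994712)) (c (l 15920592) (a (l 15924888) (c (l 15920816) (l 15930680)))))))))), by decide +kernel⟩

def k13_pp_102 : ∃ t, chk3 f_pp_102 t 14 9 1 = true :=
  ⟨(b (a (a (b (l 15808768) (c (l 15634896) (l 15596960))) (b (c (l 15699408) (l 15796720)) (c (l 15393424) (l 15347256)))) (b (c (a (l 15799736) (l 15791504)) (a (l 15769648) (l 15761192))) (c (l 15322000) (l 15273712)))) (a (b (a (b (c (l 15325296) (l 15275224)) (l 15226712)) (c (b (l 15068176) (l 14978104)) (l 14794768))) (a (c (l 15281976) (l 15230728)) (c (l 14946024) (l 14883152)))) (b (c (b (l 14979408) (l 14885400)) (b (l 14917992) (l 14820600))) (c (l 14838160) (l 14772016))))), by decide +kernel⟩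

def k14_pp_102 : ∃ t, chk3 f_pp_102 t 15 18 1 = true :=
  ⟨(a (c (a (b (c (a (l 15751216) (l 15452824)) (l 15716464)) (a (l 15260984) (l 15086256))) (b (c (b (l 15669376) (l 15374864)) (a (l 15397536) (l 15315232))) (c (l 14894752) (a (l 15095600) (l 14992760))))) (b (a (b (l 15824040) (l 15559296)) (b (l 15751296) (l 15443240))) (a (l 15179240) (l 15028640)))) (a (c (b (b (a (l 15572936) (c (l 15358856) (l 15608328))) (a (l 15265320) (c (l 15062752) (l 15264240)))) (a (b (l 14976528) (l 14693232)) (c (a (b (l 14870744) (l 14570592)) (l 14695592)) (a (l 14797304) (l 14732680))))) (c (b (a (l 15418504) (l 15380736)) (a (l 14933776) (l 14857560))) (b (l 15492504) (l 14894952)))) (b (c (a (c (a (l 15351264) (l 15196288)) (a (l 15215672) (l 15361904))) (b (a (l 15619976) (l 15683448)) (l 15328352))) (a (c (a (l 15489696) (b (l 15559664) (l 15288552))) (b (l 15719920) (l 15359504))) (c (b (a (a (l 15567512) (l 15629120)) (l 15659376)) (a (l 15286536) (l 15339656))) (a (b (c (l 15675984)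 (l 15708056)) (l 15333832)) (a (b (c (l 15651352) (l 15678496)) (l 15251048)) (b (l 15582776) (l 15287456))))))) (c (a (c (b (l 14864088) (l 14539616)) (a (l 14662280) (l 14715720))) (c (l 14825264) (l 14796440))) (a (c (a (l 14798320) (l 14764728)) (l 14832016)) (c (a (l 14756640) (l 14807432)) (a (l 14752576) (c (l 14795824) (l 14742912))))))))), by decide +kernel⟩

def k15_pp_102 : ∃ t, chk3 f_pp_102 t 15 19 1 = true :=
  ⟨(a (c (a (b (c (b (l 14800824) (l 14769064)) (l 14812384)) (l 14714960)) (b (b (c (l 14616040) (l 14670928)) (l 14546040)) (l 14505808))) (b (b (l 14730848) (l 14633464)) (l 14589200))) (a (c (b (b (a (l 14440792) (c (a (l 14302304) (l 14258624)) (l 14342936))) (a (l 14346800) (c (l 14182744) (l 14240200)))) (a (l 14314368) (c (l 14150648) (l 14207768)))) (b (b (c (l 14467336) (l 14460992)) (l 14356432)) (l 14323072))) (c (b (a (b (c (l 14240768) (a (l 14263384) (l 14239840))) (a (c (l 14113888) (l 14144736)) (l 14114552))) (b (c (l 14337824) (l 14300136))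 (l 14174920))) (a (c (l 14080032) (l 14092296)) (l 14114424))) (a (b (c (b (l 14306240) (l 14179984)) (b (l 14344936) (l 14216488))) (c (l 14140304) (l 14176352))) (b (c (b (l 14282280) (l 14133704)) (b (c (l 14243200) (l 14231408)) (a (l 14139640) (l 14127048)))) (c (l 14071912) (a (l 14083824) (l 14055448)))))))), by decide +kernel⟩

def k16_pp_102 : ∃ t, chk3 f_pp_102 t 6 5 1 = true :=
  ⟨(b (a (b (a (c (l 16305184) (l 16288616)) (b (l 16476936) (l 16360136))) (a (l 16398584) (l 16504528))) (a (b (b (l 16382776) (l 16443216)) (l 16284664)) (b (a (b (l 15984896) (a (l 16301592) (l 16137544))) (b (l 15762368) (l 15834192))) (a (l 15885152) (l 15724472))))) (a (b (a (l 16650696) (l 16585288)) (a (l 16777016) (l 16524672))) (a (b (l 16242368) (l 16213384)) (b (a (l 15723472) (l 15553216)) (a (l 15833784) (l 15469792)))))), by decide +kernel⟩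

def k17_pp_102 : ∃ t, chk3 f_pp_102 t 7 5 1 = true :=
  ⟨(a (b (b (a (b (a (l 15339848) (c (l 14966064) (l 14904536))) (c (a (l 15438024) (l 15032064)) (l 14934160))) (c (b (l 14784912) (a (l 14811256) (l 14692536))) (b (l 14717336) (a (l 14745016) (l 14622240))))) (a (c (l 14974520) (l 15023632)) (a (l 14640312) (c (l 14483992) (l 14405520))))) (b (a (c (l 14918832) (l 14876208)) (c (l 14377640) (l 14294112))) (a (c (l 14850912) (l 14783296)) (c (l 14278976) (l 14191104))))) (b (a (b (c (b (a (l 14650448) (l 14443640)) (a (b (l 14600776) (l 14530944)) (l 14148480))) (b (l 14524488) (l 14373800))) (a (b (c (l 14127208) (l 14274280)) (c (l 13920464) (l 14081064))) (c (b (l 14100944) (l 13832920)) (l 13956000)))) (b (a (c (b (a (l 14259928) (l 14135672)) (b (l 14153872) (l 13997080))) (b (l 14270880) (l 14184720))) (c (b (a (c (l 14038144) (l 14049984)) (l 14068808)) (a (b (l 14011368) (l 13937504)) (l 14001840))) (a (b (l 13951160) (c (l 14020456) (l 14054952))) (b (c (l 14025568)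 (l 14031800)) (c (l 13957216) (b (l 13999784) (l 13927312))))))) (a (c (b (l 13852144) (l 13552240)) (l 13752128)) (c (a (l 13548448) (l 13573272)) (a (l 13326456) (c (l 13516488) (l 13492552))))))) (a (b (c (a (l 13983536) (b (l 13650496) (l 13536464))) (a (l 13906488) (l 13565632))) (c (a (l 13877552) (l 13477816)) (l 13621664))) (b (a (c (b (a (l 13357488) (l 13197176)) (a (l 13207416) (l 12995200))) (b (l 13320640) (l 13134312))) (c (a (b (l 13098832) (l 12845480)) (l 12972904)) (a (c (l 12990208) (l 13004704)) (c (l 12898104) (l 12778056))))) (a (c (l 13038864) (l 13063136)) (a (c (l 12681176) (l 12615080)) (c (l 12675472) (c (l 12591320) (b (l 12573960) (l 12565248)))))))))), by decide +kernel⟩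

def k18_pp_102 : ∃ t, chk3 f_pp_102 t 1 3 1 = true :=
  ⟨(a (b (a (l 2) (a (l 2) (b (c (l 16777216) (l 16777216)) (l 2)))) (l 2)) (a (b (b (a (b (a (l 16776944) (l 16587504)) (l 16684248)) (a (b (l 16213288) (l 16213288)) (b (a (l 15875616) (l 15469680)) (l 15674520)))) (a (l 16684248) (a (l 16213288) (l 15674520)))) (a (l 2) (a (l 2) (l 15674520)))) (b (a (b (a (b (c (l 14850792) (l 14783168)) (l 14817032)) (c (l 14278840) (l 14190960))) (a (l 14817032) (l 14234872))) (b (a (c (b (l 13648056) (l 13669032)) (b (l 13621504) (l 13621504))) (c (a (b (l 13038704) (l 13038704)) (b (l 12718256) (l 12718256))) (a (l 13062960) (c (l 12677608) (a (l 12762416) (l 12565248)))))) (a (l 13634512) (a (l 13016312) (c (l 12718256) (l 12676576)))))) (a (a (l 14817032) (l 14234872)) (a (l 13529656) (a (l 13016312) (c (l 12718256) (l 12676576)))))))), by decide +kernel⟩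

theorem s19_pp_102 : ∃ t, chk3 f_pp_102 t 3 5 1 = true := ex3_a k16_pp_102 k17_pp_102

theorem s20_pp_102 : ∃ t, chk3 f_pp_102 t 15 9 1 = true := ex3_b k14_pp_102 k15_pp_102

theorem s21_pp_102 : ∃ t, chk3 f_pp_102 t 7 9 1 = true := ex3_a k13_pp_102 s20_pp_102

theorem s22_pp_102 : ∃ t, chk3 f_pp_102 t 31 8 1 = true := ex3_a k11_pp_102 k12_pp_102

theorem s23_pp_102 : ∃ t, chk3 f_pp_102 t 30 32 1 = true := ex3_b k7_pp_102 k8_pp_102

theorem s24_pp_102 : ∃ t, chk3 f_pp_102 t 30 16 1 = true := ex3_b s23_pp_102 k9_pp_102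

theorem s25_pp_102 : ∃ t, chk3 f_pp_102 t 30 8 1 = true := ex3_b s24_pp_102 k10_pp_102

theorem s26_pp_102 : ∃ t, chk3 f_pp_102 t 15 8 1 = true := ex3_a s25_pp_102 s22_pp_102

theorem s27_pp_102 : ∃ t, chk3 f_pp_102 t 14 16 1 = true := ex3_a k4_pp_102 k5_pp_102

theorem s28_pp_102 : ∃ t, chk3 f_pp_102 t 14 8 1 = true := ex3_b s27_pp_102 k6_pp_102

theorem s29_pp_102 : ∃ t, chk3 f_pp_102 t 7 8 1 = true := ex3_a s28_pp_102 s26_pp_102

theorem s30_pp_102 : ∃ t, chk3 f_pp_102 t 7 4 1 = true := ex3_b s29_pp_102 s21_pp_102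

theorem s31_pp_102 : ∃ t, chk3 f_pp_102 t 13 4 1 = true := ex3_b k2_pp_102 k3_pp_102

theorem s32_pp_102 : ∃ t, chk3 f_pp_102 t 6 4 1 = true := ex3_a k1_pp_102 s31_pp_102

theorem s33_pp_102 : ∃ t, chk3 f_pp_102 t 3 4 1 = true := ex3_a s32_pp_102 s30_pp_102

theorem s34_pp_102 : ∃ t, chk3 f_pp_102 t 3 2 1 = true := ex3_b s33_pp_102 s19_pp_102

theorem s35_pp_102 : ∃ t, chk3 f_pp_102 t 1 2 1 = true := ex3_a k0_pp_102 s34_pp_102

theorem s36_pp_102 : ∃ t, chk3 f_pp_102 t 1 1 1 = true := ex3_b s35_pp_102 k18_pp_102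

theorem c_pp_102 : CertNX 536870912 536870912 1073741824 536870912 1046898278 26843546 3 false true true .npp 1 0 2
    ndN3q1 ndN3q2 pcN0 cut_pp_102 Ext.none :=
  certNX0 (fam := false) (s1 := true) (s2 := true) (a := 1) (b := 0) (c := 2) (cn := .npp) (n1 := ndN3q1) (n2 := ndN3q2) (pc := pcN0) (cut := cut_pp_102) (xt := Ext.none) (P1 := 536870912) (W1 := 536870912) (P2 := 1073741824) (W2 := 536870912) (P3 := 1046898278) (W3 := 26843546) (N0 := 3)
    rfl s36_pp_102

noncomputable def f_pp_112 : ℕ → ℕ → ℕ → ℕ → Bool := onCell 536870912 536870912 1073741824 536870912 1046898278 26843546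
    (rowNX 3 2 false true true .dn 1 1 2 (qsf 536870912 536870912 1073741824 536870912 1) ndN3q1 ndN3q2 pcN1 Cut.none Ext.none)

def k0_pp_112 : ∃ t, chk3 f_pp_112 t 1 1 1 = true :=
  ⟨(a (b (b (b (a (a (b (c (b (l 15507848) (l 15631264)) (b (l 15407208) (l 15528320))) (c (l 15736560) (l 15673728))) (b (l 1) (c (l 15736560) (l 15673728)))) (l 1)) (a (b (c (a (l 16166656) (l 16166656)) (a (l 16145160) (l 16145160))) (c (a (l 16544584) (l 16544584)) (a (l 16536416) (l 16536416)))) (b (l 1) (a (l 16498584) (l 1))))) (a (b (a (b (c (l 16305016) (l 16288440)) (l 16398440)) (b (c (l 16305016) (l 16288440)) (l 16398440))) (c (b (l 16652752) (l 16777040)) (b (l 16648384) (l 16777032)))) (b (b (a (l 16296768) (l 1)) (a (l 16398440) (l 16398440))) (a (b (l 16650576) (l 16777040)) (b (l 16650576) (l 16777040)))))) (a (b (b (a (b (l 16777128) (l 16716600)) (l 16777216)) (a (a (b (l 16404136) (a (l 15824112) (l 16102848))) (l 16533608)) (l 16732776))) (a (b (a (b (l 15271136) (l 14592016))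 (b (l 15760200) (l 15271136))) (a (b (l 13929136) (a (l 12894008) (l 13434760))) (b (l 14592016) (l 13929136)))) (b (a (b (l 16404136) (l 15823120)) (l 16533608)) (a (b (l 15271136) (l 14592016)) (b (l 15844088) (l 15271136)))))) (b (b (l 16777216) (l 16777216)) (a (b (l 16732776) (a (l 16170160) (l 16533608))) (l 16748968))))) (a (b (b (l 1) (b (l 1) (a (b (l 1) (l 16761184)) (l 1)))) (a (l 16754952) (b (l 16604616) (l 16558144)))) (b (l 1) (a (b (l 16081608) (l 15997344)) (b (l 1) (l 15266976)))))), by decide +kernel⟩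

theorem c_pp_112 : CertNX 536870912 536870912 1073741824 536870912 1046898278 26843546 3 false true true .dn 1 1 2
    ndN3q1 ndN3q2 pcN1 Cut.none Ext.none :=
  certNX2 (fam := false) (s1 := true) (s2 := true) (a := 1) (b := 1) (c := 2) (cn := .dn) (n1 := ndN3q1) (n2 := ndN3q2) (pc := pcN1) (cut := Cut.none) (xt := Ext.none) (P1 := 536870912) (W1 := 536870912) (P2 := 1073741824) (W2 := 536870912) (P3 := 1046898278) (W3 := 26843546) (N0 := 3)
    rfl (fun _ => rfl) k0_pp_112

noncomputable def f_pp_113 : ℕ → ℕ → ℕ → ℕ → Bool := onCell 536870912 536870912 536870912 536870912 1046898278 26843546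
    (rowNX 3 1 false true true .nn 1 1 3 (qsf 536870912 536870912 1610612736 536870912 1) ndN3q1 ndN3q3 pcN1 Cut.none Ext.none)

def k0_pp_113 : ∃ t, chk3 f_pp_113 t 1 1 1 = true :=
  ⟨(b (a (b (l 1) (b (l 1) (l 601865846775))) (a (a (b (l 1) (l 16684248)) (a (l 398390223847) (a (l 476772617783) (l 482677427879)))) (a (b (l 484286243335) (a (l 14817032) (l 14234872))) (b (a (l 13634512) (a (l 13016312) (l 12707432))) (a (l 13634512) (a (l 13016312) (l 12707432))))))) (b (a (b (l 16753208) (l 321081537879)) (a (b (a (l 16654272) (l 15912416)) (a (l 16381840) (a (l 15900352) (l 15327728)))) (b (a (a (l 14780280) (l 14193560)) (a (l 13593168) (a (l 12972160) (l 12661344)))) (a (l 14213816) (a (l 13209464) (b (l 12587272) (l 12273376))))))) (a (b (a (l 15974352) (l 15855560)) (a (l 15146136) (b (l 15194400) (l 14658840)))) (a (b (a (l 15640832) (l 14778840)) (a (b (l 14806288) (l 14144664)) (b (l 13904696) (l 13201896)))) (b (a (l 13329112) (a (l 12318224) (b (l 11728096) (l 11338912))))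 (b (a (l 12517680) (a (l 11685464) (l 11246304))) (a (a (l 12082344) (l 11620040)) (a (l 11369168) (b (l 11660984) (b (l 12538328) (b (l 13440264) (c (l 16803456) (l 11532608))))))))))))), by decide +kernel⟩

theorem c_pp_113 : CertNX 536870912 536870912 1610612736 536870912 1046898278 26843546 3 false true true .nn 1 1 3
    ndN3q1 ndN3q3 pcN1 Cut.none Ext.none :=
  certNX1 (fam := false) (s1 := true) (s2 := true) (a := 1) (b := 1) (c := 3) (cn := .nn) (n1 := ndN3q1) (n2 := ndN3q3) (pc := pcN1) (cut := Cut.none) (xt := Ext.none) (P1 := 536870912) (W1 := 536870912) (P2 := 1610612736) (W2 := 536870912) (P3 := 1046898278) (W3 := 26843546) (N0 := 3)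
    rfl (fun _ => rfl) k0_pp_113

noncomputable def f_pp_123 : ℕ → ℕ → ℕ → ℕ → Bool := onCell 1073741824 536870912 1610612736 536870912 1046898278 26843546
    (rowNX 3 2 false true true .npn 1 2 3 (qsf 536870912 536870912 1610612736 536870912 2) ndN3q1 ndN3q3 pcN2 Cut.none Ext.none)

def k0_pp_123 : ∃ t, chk3 f_pp_123 t 1 1 1 = true :=
  ⟨(a (a (b (b (a (l 14740928) (l 14802800)) (a (b (l 14513448) (l 14260408)) (a (l 14662328) (l 14571696)))) (b (a (b (a (l 13829904) (l 14072664)) (a (c (l 13277152) (l 13078944)) (c (l 13792528) (l 13667968)))) (a (b (l 14306584) (l 14034736)) (l 14247328))) (a (b (a (c (l 12704496) (b (l 12295032) (l 11994144))) (c (b (l 13499240) (l 13522280)) (l 13206488))) (c (a (b (l 14042000) (l 15180424)) (b (l 13933680) (l 14264464))) (a (b (l 13342152) (a (l 13736296) (l 13422776))) (l 13654512)))) (b (a (b (l 13822656) (l 13855224)) (l 14057584)) (a (b (l 14165440) (c (l 15283360) (l 14955384))) (b (l 14309640) (l 15066944))))))) (b (a (a (a (l 695813252503)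 (l 14754072)) (l 680782784199)) (a (b (l 1) (l 16183296)) (l 704945365063))) (b (a (l 14757112) (l 16027360)) (b (a (a (l 14534840) (l 15140584)) (l 15773016)) (b (a (a (l 14721416) (l 15155656)) (l 15679240)) (l 4)))))) (b (a (b (l 1) (l 16821528)) (l 1)) (a (b (a (l 16501960) (l 16768080)) (b (a (l 16403496) (l 16720312)) (l 4))) (b (l 16777168) (l 16824128))))), by decide +kernel⟩

theorem c_pp_123 : CertNX 536870912 536870912 1610612736 536870912 1046898278 26843546 3 false true true .npn 1 2 3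
    ndN3q1 ndN3q3 pcN2 Cut.none Ext.none :=
  certNX2 (fam := false) (s1 := true) (s2 := true) (a := 1) (b := 2) (c := 3) (cn := .npn) (n1 := ndN3q1) (n2 := ndN3q3) (pc := pcN2) (cut := Cut.none) (xt := Ext.none) (P1 := 536870912) (W1 := 536870912) (P2 := 1610612736) (W2 := 536870912) (P3 := 1046898278) (W3 := 26843546) (N0 := 3)
    rfl (fun _ => rfl) k0_pp_123

noncomputable def f_pp_133 : ℕ → ℕ → ℕ → ℕ → Bool := onCell 1610612736 536870912 1610612736 536870912 1046898278 26843546
    (rowNX 3 2 false true true .dn 1 3 3 (qsf 536870912 536870912 1610612736 536870912 3) ndN3q1 ndN3q3 pcN3 Cut.none Ext.none)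

def k0_pp_133 : ∃ t, chk3 f_pp_133 t 1 1 1 = true :=
  ⟨(a (b (l 1) (b (l 1) (a (l 4) (l 1)))) (l 1)), by decide +kernel⟩

theorem c_pp_133 : CertNX 536870912 536870912 1610612736 536870912 1046898278 26843546 3 false true true .dn 1 3 3
    ndN3q1 ndN3q3 pcN3 Cut.none Ext.none :=
  certNX2 (fam := false) (s1 := true) (s2 := true) (a := 1) (b := 3) (c := 3) (cn := .dn) (n1 := ndN3q1) (n2 := ndN3q3) (pc := pcN3) (cut := Cut.none) (xt := Ext.none) (P1 := 536870912) (W1 := 536870912) (P2 := 1610612736) (W2 := 536870912) (P3 := 1046898278) (W3 := 26843546) (N0 := 3)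
    rfl (fun _ => rfl) k0_pp_133

noncomputable def f_pp_202 : ℕ → ℕ → ℕ → ℕ → Bool := onCell 1073741824 536870912 1073741824 536870912 1046898278 26843546
    (rowNX 3 0 false true true .pp 2 0 2 (qsf 1073741824 536870912 1073741824 536870912 0) ndN3q2 ndN3q2 pcN0 Cut.none Ext.none)

def k0_pp_202 : ∃ t, chk3 f_pp_202 t 1 1 1 = true :=
  ⟨(l 3), by decide +kernel⟩

theorem c_pp_202 : CertNX 1073741824 536870912 1073741824 536870912 1046898278 26843546 3 false true true .pp 2 0 2
    ndN3q2 ndN3q2 pcN0 Cut.none Ext.none :=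
  certNX0 (fam := false) (s1 := true) (s2 := true) (a := 2) (b := 0) (c := 2) (cn := .pp) (n1 := ndN3q2) (n2 := ndN3q2) (pc := pcN0) (cut := Cut.none) (xt := Ext.none) (P1 := 1073741824) (W1 := 536870912) (P2 := 1073741824) (W2 := 536870912) (P3 := 1046898278) (W3 := 26843546) (N0 := 3)
    rfl k0_pp_202

noncomputable def f_pp_203 : ℕ → ℕ → ℕ → ℕ → Bool := onCell 1073741824 536870912 0 536870912 1046898278 26843546
    (rowNX 3 1 false true true .up 2 0 3 (qsf 1073741824 536870912 1610612736 536870912 0) ndN3q2 ndN3q3 pcN0 Cut.none Ext.none)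

def k0_pp_203 : ∃ t, chk3 f_pp_203 t 1 1 1 = true :=
  ⟨(l 3), by decide +kernel⟩

theorem c_pp_203 : CertNX 1073741824 536870912 1610612736 536870912 1046898278 26843546 3 false true true .up 2 0 3
    ndN3q2 ndN3q3 pcN0 Cut.none Ext.none :=
  certNX1 (fam := false) (s1 := true) (s2 := true) (a := 2) (b := 0) (c := 3) (cn := .up) (n1 := ndN3q2) (n2 := ndN3q3) (pc := pcN0) (cut := Cut.none) (xt := Ext.none) (P1 := 1073741824) (W1 := 536870912) (P2 := 1610612736) (W2 := 536870912) (P3 := 1046898278) (W3 := 26843546) (N0 := 3)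
    rfl (fun _ => rfl) k0_pp_203

noncomputable def cut_pp_213 : Cut := Cut.of [[⟨0, 1, 0, 67108864⟩, ⟨1, 1, 0, 67108864⟩, ⟨2, 2, 0, 67108864⟩, ⟨3, 0, 0, 1233125376⟩]]

noncomputable def f_pp_213 : ℕ → ℕ → ℕ → ℕ → Bool := onCell 536870912 536870912 1610612736 536870912 1046898278 26843546
    (rowNX 3 2 false true true .pnn 2 1 3 (qsf 1073741824 536870912 1610612736 536870912 1) ndN3q2 ndN3q3 pcN1 cut_pp_213 Ext.none)

def k0_pp_213 : ∃ t, chk3 f_pp_213 t 1 1 1 = true :=
  ⟨(a (l 3) (a (l 3) (b (l 1) (a (l 3) (b (l 1) (a (l 3) (b (l 1) (b (l 3) (l 6))))))))), by decide +kernel⟩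

theorem c_pp_213 : CertNX 1073741824 536870912 1610612736 536870912 1046898278 26843546 3 false true true .pnn 2 1 3
    ndN3q2 ndN3q3 pcN1 cut_pp_213 Ext.none :=
  certNX2 (fam := false) (s1 := true) (s2 := true) (a := 2) (b := 1) (c := 3) (cn := .pnn) (n1 := ndN3q2) (n2 := ndN3q3) (pc := pcN1) (cut := cut_pp_213) (xt := Ext.none) (P1 := 1073741824) (W1 := 536870912) (P2 := 1610612736) (W2 := 536870912) (P3 := 1046898278) (W3 := 26843546) (N0 := 3)
    rfl (fun _ => rfl) k0_pp_213

noncomputable def f_pp_303 : ℕ → ℕ → ℕ → ℕ → Bool := onCell 1610612736 536870912 1610612736 536870912 1046898278 26843546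
    (rowNX 3 0 false true true .npn 3 0 3 (qsf 1610612736 536870912 1610612736 536870912 0) ndN3q3 ndN3q3 pcN0 Cut.none Ext.none)

def k0_pp_303 : ∃ t, chk3 f_pp_303 t 1 1 1 = true :=
  ⟨(l 3), by decide +kernel⟩

theorem c_pp_303 : CertNX 1610612736 536870912 1610612736 536870912 1046898278 26843546 3 false true true .npn 3 0 3
    ndN3q3 ndN3q3 pcN0 Cut.none Ext.none :=
  certNX0 (fam := false) (s1 := true) (s2 := true) (a := 3) (b := 0) (c := 3) (cn := .npn) (n1 := ndN3q3) (n2 := ndN3q3) (pc := pcN0) (cut := Cut.none) (xt := Ext.none) (P1 := 1610612736) (W1 := 536870912) (P2 := 1610612736) (W2 := 536870912) (P3 := 1046898278) (W3 := 26843546) (N0 := 3)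
    rfl k0_pp_303

noncomputable def f_pp_313 : ℕ → ℕ → ℕ → ℕ → Bool := onCell 1610612736 536870912 1610612736 536870912 1046898278 26843546
    (rowNX 3 0 false true true .dn 3 1 3 (qsf 1610612736 536870912 1610612736 536870912 1) ndN3q3 ndN3q3 pcN1 Cut.none Ext.none)

def k0_pp_313 : ∃ t, chk3 f_pp_313 t 1 1 1 = true :=
  ⟨(l 3), by decide +kernel⟩

theorem c_pp_313 : CertNX 1610612736 536870912 1610612736 536870912 1046898278 26843546 3 false true true .dn 3 1 3
    ndN3q3 ndN3q3 pcN1 Cut.none Ext.none :=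
  certNX0 (fam := false) (s1 := true) (s2 := true) (a := 3) (b := 1) (c := 3) (cn := .dn) (n1 := ndN3q3) (n2 := ndN3q3) (pc := pcN1) (cut := Cut.none) (xt := Ext.none) (P1 := 1610612736) (W1 := 536870912) (P2 := 1610612736) (W2 := 536870912) (P3 := 1046898278) (W3 := 26843546) (N0 := 3)
    rfl k0_pp_313

noncomputable def f_pm_001 : ℕ → ℕ → ℕ → ℕ → Bool := onCell 0 536870912 536870912 536870912 1046898278 26843546
    (rowNX 3 0 false true false .up 0 0 1 (qsf 0 536870912 536870912 536870912 0) ndN3q0 ndN3q1 pcN0 Cut.none Ext.none)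

def k0_pm_001 : ∃ t, chk3 f_pm_001 t 1 1 1 = true :=
  ⟨(l 4), by decide +kernel⟩

theorem c_pm_001 : CertNX 0 536870912 536870912 536870912 1046898278 26843546 3 false true false .up 0 0 1
    ndN3q0 ndN3q1 pcN0 Cut.none Ext.none :=
  certNX0 (fam := false) (s1 := true) (s2 := false) (a := 0) (b := 0) (c := 1) (cn := .up) (n1 := ndN3q0) (n2 := ndN3q1) (pc := pcN0) (cut := Cut.none) (xt := Ext.none) (P1 := 0) (W1 := 536870912) (P2 := 536870912) (W2 := 536870912) (P3 := 1046898278) (W3 := 26843546) (N0 := 3)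
    rfl k0_pm_001

noncomputable def f_pm_011 : ℕ → ℕ → ℕ → ℕ → Bool := onCell 0 536870912 536870912 536870912 1046898278 26843546
    (rowNX 3 0 false true false .pnn 0 1 1 (qsf 0 536870912 536870912 536870912 1) ndN3q0 ndN3q1 pcN1 Cut.none Ext.none)

def k0_pm_011 : ∃ t, chk3 f_pm_011 t 1 1 1 = true :=
  ⟨(l 4), by decide +kernel⟩

theorem c_pm_011 : CertNX 0 536870912 536870912 536870912 1046898278 26843546 3 false true false .pnn 0 1 1
    ndN3q0 ndN3q1 pcN1 Cut.none Ext.none :=
  certNX0 (fam := false) (s1 := true) (s2 := false) (a := 0) (b := 1) (c := 1) (cn := .pnn) (n1 := ndN3q0) (n2 := ndN3q1) (pc := pcN1) (cut := Cut.none) (xt := Ext.none) (P1 := 0) (W1 := 536870912) (P2 := 536870912) (W2 := 536870912) (P3 := 1046898278) (W3 := 26843546) (N0 := 3)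
    rfl k0_pm_011

noncomputable def cut_pm_012 : Cut := Cut.of [[⟨0, 0, 0, 67108864⟩, ⟨1, 1, 0, 67108864⟩, ⟨2, 1, 0, 67108864⟩]]

noncomputable def f_pm_012 : ℕ → ℕ → ℕ → ℕ → Bool := onCell 0 536870912 1073741824 536870912 1046898278 26843546
    (rowNX 3 0 false true false .pnp 0 1 2 (qsf 0 536870912 1073741824 536870912 1) ndN3q0 ndN3q2 pcN1 cut_pm_012 Ext.none)

def k0_pm_012 : ∃ t, chk3 f_pm_012 t 1 1 1 = true :=
  ⟨(a (b (a (b (a (b (a (b (l 6) (l 4)) (l 4)) (l 4)) (l 4)) (l 4)) (l 4)) (l 4)) (l 4)), by decide +kernel⟩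

theorem c_pm_012 : CertNX 0 536870912 1073741824 536870912 1046898278 26843546 3 false true false .pnp 0 1 2
    ndN3q0 ndN3q2 pcN1 cut_pm_012 Ext.none :=
  certNX0 (fam := false) (s1 := true) (s2 := false) (a := 0) (b := 1) (c := 2) (cn := .pnp) (n1 := ndN3q0) (n2 := ndN3q2) (pc := pcN1) (cut := cut_pm_012) (xt := Ext.none) (P1 := 0) (W1 := 536870912) (P2 := 1073741824) (W2 := 536870912) (P3 := 1046898278) (W3 := 26843546) (N0 := 3)
    rfl k0_pm_012

noncomputable def cut_pm_022 : Cut := Cut.of [[⟨0, 0, 0, 67108864⟩, ⟨1, 1, 0, 67108864⟩, ⟨2, 1, 0, 67108864⟩]]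

noncomputable def f_pm_022 : ℕ → ℕ → ℕ → ℕ → Bool := onCell 0 536870912 1073741824 536870912 1046898278 26843546
    (rowNX 3 0 false true false .pp 0 2 2 (qsf 0 536870912 1073741824 536870912 2) ndN3q0 ndN3q2 pcN2 cut_pm_022 Ext.none)

def k0_pm_022 : ∃ t, chk3 f_pm_022 t 1 1 1 = true :=
  ⟨(b (a (b (a (b (a (a (b (l 6) (l 4)) (l 4)) (l 4)) (l 4)) (l 4)) (l 4)) (l 4)) (l 4)), by decide +kernel⟩

theorem c_pm_022 : CertNX 0 536870912 1073741824 536870912 1046898278 26843546 3 false true false .pp 0 2 2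
    ndN3q0 ndN3q2 pcN2 cut_pm_022 Ext.none :=
  certNX0 (fam := false) (s1 := true) (s2 := false) (a := 0) (b := 2) (c := 2) (cn := .pp) (n1 := ndN3q0) (n2 := ndN3q2) (pc := pcN2) (cut := cut_pm_022) (xt := Ext.none) (P1 := 0) (W1 := 536870912) (P2 := 1073741824) (W2 := 536870912) (P3 := 1046898278) (W3 := 26843546) (N0 := 3)
    rfl k0_pm_022

noncomputable def f_pm_023 : ℕ → ℕ → ℕ → ℕ → Bool := onCell 0 536870912 1610612736 536870912 1046898278 26843546
    (rowNX 3 0 false true false .up 0 2 3 (qsf 0 536870912 1610612736 536870912 2) ndN3q0 ndN3q3 pcN2 Cut.none Ext.none)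

def k0_pm_023 : ∃ t, chk3 f_pm_023 t 1 1 1 = true :=
  ⟨(l 4), by decide +kernel⟩

theorem c_pm_023 : CertNX 0 536870912 1610612736 536870912 1046898278 26843546 3 false true false .up 0 2 3
    ndN3q0 ndN3q3 pcN2 Cut.none Ext.none :=
  certNX0 (fam := false) (s1 := true) (s2 := false) (a := 0) (b := 2) (c := 3) (cn := .up) (n1 := ndN3q0) (n2 := ndN3q3) (pc := pcN2) (cut := Cut.none) (xt := Ext.none) (P1 := 0) (W1 := 536870912) (P2 := 1610612736) (W2 := 536870912) (P3 := 1046898278) (W3 := 26843546) (N0 := 3)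
    rfl k0_pm_023

noncomputable def f_pm_033 : ℕ → ℕ → ℕ → ℕ → Bool := onCell 0 536870912 1610612736 536870912 1046898278 26843546
    (rowNX 3 0 false true false .pnn 0 3 3 (qsf 0 536870912 1610612736 536870912 3) ndN3q0 ndN3q3 pcN3 Cut.none Ext.none)

def k0_pm_033 : ∃ t, chk3 f_pm_033 t 1 1 1 = true :=
  ⟨(l 4), by decide +kernel⟩

theorem c_pm_033 : CertNX 0 536870912 1610612736 536870912 1046898278 26843546 3 false true false .pnn 0 3 3
    ndN3q0 ndN3q3 pcN3 Cut.none Ext.none :=
  certNX0 (fam := false) (s1 := true) (s2 := false) (a := 0) (b := 3) (c := 3) (cn := .pnn) (n1 := ndN3q0) (n2 := ndN3q3) (pc := pcN3) (cut := Cut.none) (xt := Ext.none) (P1 := 0) (W1 := 536870912) (P2 := 1610612736) (W2 := 536870912) (P3 := 1046898278) (W3 := 26843546) (N0 := 3)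
    rfl k0_pm_033

noncomputable def f_pm_101 : ℕ → ℕ → ℕ → ℕ → Bool := onCell 536870912 536870912 536870912 536870912 1046898278 26843546
    (rowNX 3 0 false true false .npn 1 0 1 (qsf 536870912 536870912 536870912 536870912 0) ndN3q1 ndN3q1 pcN0 Cut.none Ext.none)

def k0_pm_101 : ∃ t, chk3 f_pm_101 t 1 1 1 = true :=
  ⟨(l 4), by decide +kernel⟩

theorem c_pm_101 : CertNX 536870912 536870912 536870912 536870912 1046898278 26843546 3 false true false .npn 1 0 1
    ndN3q1 ndN3q1 pcN0 Cut.none Ext.none :=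
  certNX0 (fam := false) (s1 := true) (s2 := false) (a := 1) (b := 0) (c := 1) (cn := .npn) (n1 := ndN3q1) (n2 := ndN3q1) (pc := pcN0) (cut := Cut.none) (xt := Ext.none) (P1 := 536870912) (W1 := 536870912) (P2 := 536870912) (W2 := 536870912) (P3 := 1046898278) (W3 := 26843546) (N0 := 3)
    rfl k0_pm_101

noncomputable def f_pm_102 : ℕ → ℕ → ℕ → ℕ → Bool := onCell 536870912 536870912 1073741824 536870912 1046898278 26843546
    (rowNX 3 0 false true false .npp 1 0 2 (qsf 536870912 536870912 1073741824 536870912 0) ndN3q1 ndN3q2 pcN0 Cut.none Ext.none)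

def k0_pm_102 : ∃ t, chk3 f_pm_102 t 1 1 1 = true :=
  ⟨(l 4), by decide +kernel⟩

theorem c_pm_102 : CertNX 536870912 536870912 1073741824 536870912 1046898278 26843546 3 false true false .npp 1 0 2
    ndN3q1 ndN3q2 pcN0 Cut.none Ext.none :=
  certNX0 (fam := false) (s1 := true) (s2 := false) (a := 1) (b := 0) (c := 2) (cn := .npp) (n1 := ndN3q1) (n2 := ndN3q2) (pc := pcN0) (cut := Cut.none) (xt := Ext.none) (P1 := 536870912) (W1 := 536870912) (P2 := 1073741824) (W2 := 536870912) (P3 := 1046898278) (W3 := 26843546) (N0 := 3)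
    rfl k0_pm_102

noncomputable def f_pm_112 : ℕ → ℕ → ℕ → ℕ → Bool := onCell 536870912 536870912 1073741824 536870912 1046898278 26843546
    (rowNX 3 0 false true false .dn 1 1 2 (qsf 536870912 536870912 1073741824 536870912 1) ndN3q1 ndN3q2 pcN1 Cut.none Ext.none)

def k0_pm_112 : ∃ t, chk3 f_pm_112 t 1 1 1 = true :=
  ⟨(l 4), by decide +kernel⟩

theorem c_pm_112 : CertNX 536870912 536870912 1073741824 536870912 1046898278 26843546 3 false true false .dn 1 1 2
    ndN3q1 ndN3q2 pcN1 Cut.none Ext.none :=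
  certNX0 (fam := false) (s1 := true) (s2 := false) (a := 1) (b := 1) (c := 2) (cn := .dn) (n1 := ndN3q1) (n2 := ndN3q2) (pc := pcN1) (cut := Cut.none) (xt := Ext.none) (P1 := 536870912) (W1 := 536870912) (P2 := 1073741824) (W2 := 536870912) (P3 := 1046898278) (W3 := 26843546) (N0 := 3)
    rfl k0_pm_112

noncomputable def f_pm_113 : ℕ → ℕ → ℕ → ℕ → Bool := onCell 536870912 536870912 536870912 536870912 1046898278 26843546
    (rowNX 3 1 false true false .nn 1 1 3 (qsf 536870912 536870912 1610612736 536870912 1) ndN3q1 ndN3q3 pcN1 Cut.none Ext.none)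

def k0_pm_113 : ∃ t, chk3 f_pm_113 t 1 1 1 = true :=
  ⟨(b (l 4) (b (l 4) (a (l 4) (b (l 4) (a (l 4) (a (l 4) (a (l 4) (b (l 4) (b (l 4) (c (l 15170504) (c (l 11903744) (c (l 10305288) (l 9241560))))))))))))), by decide +kernel⟩

theorem c_pm_113 : CertNX 536870912 536870912 1610612736 536870912 1046898278 26843546 3 false true false .nn 1 1 3
    ndN3q1 ndN3q3 pcN1 Cut.none Ext.none :=
  certNX1 (fam := false) (s1 := true) (s2 := false) (a := 1) (b := 1) (c := 3) (cn := .nn) (n1 := ndN3q1) (n2 := ndN3q3) (pc := pcN1) (cut := Cut.none) (xt := Ext.none) (P1 := 536870912) (W1 := 536870912) (P2 := 1610612736) (W2 := 536870912) (P3 := 1046898278) (W3 := 26843546) (N0 := 3)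
    rfl (fun _ => rfl) k0_pm_113

noncomputable def f_pm_123 : ℕ → ℕ → ℕ → ℕ → Bool := onCell 536870912 536870912 1610612736 536870912 1046898278 26843546
    (rowNX 3 0 false true false .npn 1 2 3 (qsf 536870912 536870912 1610612736 536870912 2) ndN3q1 ndN3q3 pcN2 Cut.none Ext.none)

def k0_pm_123 : ∃ t, chk3 f_pm_123 t 1 1 1 = true :=
  ⟨(a (l 4) (b (l 4) (a (l 4) (b (l 4) (a (l 4) (b (l 4) (a (l 4) (c (l 16754656) (b (l 4) (a (l 4) (l 15629640))))))))))), by decide +kernel⟩

theorem c_pm_123 : CertNX 536870912 536870912 1610612736 536870912 1046898278 26843546 3 false true false .npn 1 2 3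
    ndN3q1 ndN3q3 pcN2 Cut.none Ext.none :=
  certNX0 (fam := false) (s1 := true) (s2 := false) (a := 1) (b := 2) (c := 3) (cn := .npn) (n1 := ndN3q1) (n2 := ndN3q3) (pc := pcN2) (cut := Cut.none) (xt := Ext.none) (P1 := 536870912) (W1 := 536870912) (P2 := 1610612736) (W2 := 536870912) (P3 := 1046898278) (W3 := 26843546) (N0 := 3)
    rfl k0_pm_123

noncomputable def f_pm_133 : ℕ → ℕ → ℕ → ℕ → Bool := onCell 536870912 536870912 1610612736 536870912 1046898278 26843546
    (rowNX 3 0 false true false .dn 1 3 3 (qsf 536870912 536870912 1610612736 536870912 3) ndN3q1 ndN3q3 pcN3 Cut.none Ext.none)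

def k0_pm_133 : ∃ t, chk3 f_pm_133 t 1 1 1 = true :=
  ⟨(a (l 4) (l 1)), by decide +kernel⟩

theorem c_pm_133 : CertNX 536870912 536870912 1610612736 536870912 1046898278 26843546 3 false true false .dn 1 3 3
    ndN3q1 ndN3q3 pcN3 Cut.none Ext.none :=
  certNX0 (fam := false) (s1 := true) (s2 := false) (a := 1) (b := 3) (c := 3) (cn := .dn) (n1 := ndN3q1) (n2 := ndN3q3) (pc := pcN3) (cut := Cut.none) (xt := Ext.none) (P1 := 536870912) (W1 := 536870912) (P2 := 1610612736) (W2 := 536870912) (P3 := 1046898278) (W3 := 26843546) (N0 := 3)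
    rfl k0_pm_133

noncomputable def cut_pm_202 : Cut := Cut.of [[⟨0, 1, 0, 67108864⟩, ⟨1, 0, 0, 67108864⟩, ⟨2, 1, 0, 67108864⟩, ⟨3, 0, 0, 1317011456⟩]]

noncomputable def f_pm_202 : ℕ → ℕ → ℕ → ℕ → Bool := onCell 1073741824 536870912 0 536870912 1046898278 26843546
    (rowNX 3 1 false true false .pp 2 0 2 (qsf 1073741824 536870912 1073741824 536870912 0) ndN3q2 ndN3q2 pcN0 cut_pm_202 Ext.none)

def k0_pm_202 : ∃ t, chk3 f_pm_202 t 2 2 1 = true :=
  ⟨(b (b (a (a (b (a (a (l 6) (b (l 3) (l 3))) (l 3)) (a (a (a (b (l 6) (a (a (a (b (l 6) (a (a (c (c (b (l 6) (b (l 6) (b (l 6) (l 16657768)))) (l 16663312)) (l 16661632)) (l 3)) (l 3))) (l 3)) (l 3)) (l 3))) (l 3)) (l 3)) (l 3))) (l 3)) (l 3)) (a (a (a (a (a (a (a (a (b (b (c (b (l 16528752) (l 16524000)) (b (a (l 16556904) (l 3)) (c (l 16519216) (l 16496224)))) (c (l 16468064) (c (l 16462024) (l 16438144)))) (b (b (c (b (l 16425096) (b (l 16414248) (l 16437688))) (b (l 16416688) (c (l 16421640) (b (l 16403264) (l 16427880))))) (c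 (l 16480224) (l 16456392))) (c (b (l 16427344) (l 16288112)) (b (l 16356160) (l 16273080))))) (b (b (l 3) (l 3)) (b (l 3) (l 3)))) (b (b (l 3) (l 3)) (l 3))) (b (l 3) (l 3))) (b (l 3) (l 3))) (l 3)) (l 3)) (l 3)) (l 3))) (a (a (a (a (a (a (a (b (b (c (b (l 16048376) (b (l 15814304) (l 15719056))) (b (c (l 16031280) (l 15994944)) (b (l 15779480) (c (l 15692432) (l 15670600))))) (c (l 15663008) (l 15496560))) (b (c (b (l 15599528) (l 15557784)) (b (l 15556440) (l 15513024))) (c (b (b (l 15500768) (l 15433920)) (l 15422344)) (b (l 15418536) (l 15371808))))) (b (b (l 3) (l 3)) (b (l 3) (l 3)))) (b (b (l 3) (l 3)) (l 3))) (b (l 3) (l 3))) (b (l 3) (l 3))) (l 3)) (l 3)) (l 3))), by decide +kernel⟩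

def k1_pm_202 : ∃ t, chk3 f_pm_202 t 2 3 1 = true :=
  ⟨(a (a (b (a (a (b (a (c (l 15464376) (c (l 15423496) (l 15382248))) (l 3)) (c (c (l 15463496) (l 15389824)) (c (l 15431240) (l 15407896)))) (l 3)) (l 3)) (a (a (a (c (b (l 15464376) (l 15464376)) (b (l 15401024) (l 15401024))) (b (l 3) (l 3))) (l 3)) (l 3))) (l 3)) (l 3)), by decide +kernel⟩

def k2_pm_202 : ∃ t, chk3 f_pm_202 t 3 1 1 = true :=
  ⟨(b (l 3) (l 3)), by decide +kernel⟩

theorem s3_pm_202 : ∃ t, chk3 f_pm_202 t 2 1 1 = true := ex3_b k0_pm_202 k1_pm_202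

theorem s4_pm_202 : ∃ t, chk3 f_pm_202 t 1 1 1 = true := ex3_a s3_pm_202 k2_pm_202

theorem c_pm_202 : CertNX 1073741824 536870912 1073741824 536870912 1046898278 26843546 3 false true false .pp 2 0 2
    ndN3q2 ndN3q2 pcN0 cut_pm_202 Ext.none :=
  certNX1 (fam := false) (s1 := true) (s2 := false) (a := 2) (b := 0) (c := 2) (cn := .pp) (n1 := ndN3q2) (n2 := ndN3q2) (pc := pcN0) (cut := cut_pm_202) (xt := Ext.none) (P1 := 1073741824) (W1 := 536870912) (P2 := 1073741824) (W2 := 536870912) (P3 := 1046898278) (W3 := 26843546) (N0 := 3)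
    rfl (fun _ => rfl) s4_pm_202

noncomputable def f_pm_203 : ℕ → ℕ → ℕ → ℕ → Bool := onCell 0 536870912 1610612736 536870912 1046898278 26843546
    (rowNX 3 2 false true false .up 2 0 3 (qsf 1073741824 536870912 1610612736 536870912 0) ndN3q2 ndN3q3 pcN0 Cut.none Ext.none)

def k0_pm_203 : ∃ t, chk3 f_pm_203 t 1 1 1 = true :=
  ⟨(b (a (l 3) (a (l 3) (b (a (l 3) (b (a (l 3) (b (a (l 3) (c (l 15421464) (l 15527960))) (l 3))) (l 3))) (l 3)))) (l 3)), by decide +kernel⟩

theorem c_pm_203 : CertNX 1073741824 536870912 1610612736 536870912 1046898278 26843546 3 false true false .up 2 0 3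
    ndN3q2 ndN3q3 pcN0 Cut.none Ext.none :=
  certNX2 (fam := false) (s1 := true) (s2 := false) (a := 2) (b := 0) (c := 3) (cn := .up) (n1 := ndN3q2) (n2 := ndN3q3) (pc := pcN0) (cut := Cut.none) (xt := Ext.none) (P1 := 1073741824) (W1 := 536870912) (P2 := 1610612736) (W2 := 536870912) (P3 := 1046898278) (W3 := 26843546) (N0 := 3)
    rfl (fun _ => rfl) k0_pm_203

noncomputable def cut_pm_213 : Cut := Cut.of [[⟨0, 1, 0, 67108864⟩, ⟨1, 1, 0, 67108864⟩, ⟨2, 2, 0, 67108864⟩, ⟨3, 0, 0, 1233125376⟩]]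

noncomputable def f_pm_213 : ℕ → ℕ → ℕ → ℕ → Bool := onCell 1073741824 536870912 1610612736 536870912 1046898278 26843546
    (rowNX 3 0 false true false .pnn 2 1 3 (qsf 1073741824 536870912 1610612736 536870912 1) ndN3q2 ndN3q3 pcN1 cut_pm_213 Ext.none)

def k0_pm_213 : ∃ t, chk3 f_pm_213 t 1 1 1 = true :=
  ⟨(a (b (a (a (b (a (a (a (b (c (l 15464376) (l 15401024)) (c (l 15464376) (l 15401024))) (l 3)) (l 3)) (l 3)) (a (a (a (c (l 15464376) (b (l 15401024) (l 15401024))) (l 3)) (l 3)) (l 3))) (l 3)) (l 3)) (a (b (a (a (a (a (b (c (l 15464376) (l 15401024)) (a (b (l 15407352) (c (l 15425152) (b (l 15382064) (l 15356616)))) (l 3))) (l 3)) (l 3)) (l 3)) (l 3)) (a (a (a (b (a (a (a (b (c (l 15261328) (l 15152328)) (b (c (l 15182552) (l 15003264)) (c (l 15170824) (l 14920664)))) (l 3)) (l 3)) (l 3)) (a (a (b (a (a (b (b (c (l 15164456) (l 14810864)) (l 6)) (l 6)) (l 3)) (l 3)) (l 6)) (l 3)) (l 3))) (l 3)) (l 3)) (l 3))) (l 3))) (b (l 3) (l 3))), by decide +kernel⟩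

theorem c_pm_213 : CertNX 1073741824 536870912 1610612736 536870912 1046898278 26843546 3 false true false .pnn 2 1 3
    ndN3q2 ndN3q3 pcN1 cut_pm_213 Ext.none :=
  certNX0 (fam := false) (s1 := true) (s2 := false) (a := 2) (b := 1) (c := 3) (cn := .pnn) (n1 := ndN3q2) (n2 := ndN3q3) (pc := pcN1) (cut := cut_pm_213) (xt := Ext.none) (P1 := 1073741824) (W1 := 536870912) (P2 := 1610612736) (W2 := 536870912) (P3 := 1046898278) (W3 := 26843546) (N0 := 3)
    rfl k0_pm_213

noncomputable def f_pm_303 : ℕ → ℕ → ℕ → ℕ → Bool := onCell 1610612736 536870912 1610612736 536870912 1046898278 26843546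
    (rowNX 3 0 false true false .npn 3 0 3 (qsf 1610612736 536870912 1610612736 536870912 0) ndN3q3 ndN3q3 pcN0 Cut.none Ext.none)

def k0_pm_303 : ∃ t, chk3 f_pm_303 t 1 1 1 = true :=
  ⟨(a (l 3) (l 3)), by decide +kernel⟩

theorem c_pm_303 : CertNX 1610612736 536870912 1610612736 536870912 1046898278 26843546 3 false true false .npn 3 0 3
    ndN3q3 ndN3q3 pcN0 Cut.none Ext.none :=
  certNX0 (fam := false) (s1 := true) (s2 := false) (a := 3) (b := 0) (c := 3) (cn := .npn) (n1 := ndN3q3) (n2 := ndN3q3) (pc := pcN0) (cut := Cut.none) (xt := Ext.none) (P1 := 1610612736) (W1 := 536870912) (P2 := 1610612736) (W2 := 536870912) (P3 := 1046898278) (W3 := 26843546) (N0 := 3)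
    rfl k0_pm_303

noncomputable def f_pm_313 : ℕ → ℕ → ℕ → ℕ → Bool := onCell 1610612736 536870912 1610612736 536870912 1046898278 26843546
    (rowNX 3 0 false true false .dn 3 1 3 (qsf 1610612736 536870912 1610612736 536870912 1) ndN3q3 ndN3q3 pcN1 Cut.none Ext.none)

def k0_pm_313 : ∃ t, chk3 f_pm_313 t 1 1 1 = true :=
  ⟨(a (l 3) (l 1)), by decide +kernel⟩

theorem c_pm_313 : CertNX 1610612736 536870912 1610612736 536870912 1046898278 26843546 3 false true false .dn 3 1 3
    ndN3q3 ndN3q3 pcN1 Cut.none Ext.none :=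
  certNX0 (fam := false) (s1 := true) (s2 := false) (a := 3) (b := 1) (c := 3) (cn := .dn) (n1 := ndN3q3) (n2 := ndN3q3) (pc := pcN1) (cut := Cut.none) (xt := Ext.none) (P1 := 1610612736) (W1 := 536870912) (P2 := 1610612736) (W2 := 536870912) (P3 := 1046898278) (W3 := 26843546) (N0 := 3)
    rfl k0_pm_313

noncomputable def f_mm_001 : ℕ → ℕ → ℕ → ℕ → Bool := onCell 0 536870912 0 536870912 1046898278 26843546
    (rowNX 3 1 false false false .up 0 0 1 (qsf 0 536870912 536870912 536870912 0) ndN3q0 ndN3q1 pcN0 Cut.none Ext.none)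

def k0_mm_001 : ∃ t, chk3 f_mm_001 t 1 1 1 = true :=
  ⟨(l 3), by decide +kernel⟩

theorem c_mm_001 : CertNX 0 536870912 536870912 536870912 1046898278 26843546 3 false false false .up 0 0 1
    ndN3q0 ndN3q1 pcN0 Cut.none Ext.none :=
  certNX1 (fam := false) (s1 := false) (s2 := false) (a := 0) (b := 0) (c := 1) (cn := .up) (n1 := ndN3q0) (n2 := ndN3q1) (pc := pcN0) (cut := Cut.none) (xt := Ext.none) (P1 := 0) (W1 := 536870912) (P2 := 536870912) (W2 := 536870912) (P3 := 1046898278) (W3 := 26843546) (N0 := 3)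
    rfl (fun _ => rfl) k0_mm_001

noncomputable def f_mm_011 : ℕ → ℕ → ℕ → ℕ → Bool := onCell 0 536870912 536870912 536870912 1046898278 26843546
    (rowNX 3 1 false false false .pnn 0 1 1 (qsf 0 536870912 536870912 536870912 1) ndN3q0 ndN3q1 pcN1 Cut.none Ext.none)

def k0_mm_011 : ∃ t, chk3 f_mm_011 t 1 1 1 = true :=
  ⟨(l 5), by decide +kernel⟩

theorem c_mm_011 : CertNX 0 536870912 536870912 536870912 1046898278 26843546 3 false false false .pnn 0 1 1
    ndN3q0 ndN3q1 pcN1 Cut.none Ext.none :=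
  certNX1 (fam := false) (s1 := false) (s2 := false) (a := 0) (b := 1) (c := 1) (cn := .pnn) (n1 := ndN3q0) (n2 := ndN3q1) (pc := pcN1) (cut := Cut.none) (xt := Ext.none) (P1 := 0) (W1 := 536870912) (P2 := 536870912) (W2 := 536870912) (P3 := 1046898278) (W3 := 26843546) (N0 := 3)
    rfl (fun _ => rfl) k0_mm_011

noncomputable def f_mm_012 : ℕ → ℕ → ℕ → ℕ → Bool := onCell 0 536870912 1073741824 536870912 1046898278 26843546
    (rowNX 3 0 false false false .pnp 0 1 2 (qsf 0 536870912 1073741824 536870912 1) ndN3q0 ndN3q2 pcN1 Cut.none Ext.none)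

def k0_mm_012 : ∃ t, chk3 f_mm_012 t 1 1 1 = true :=
  ⟨(l 5), by decide +kernel⟩

theorem c_mm_012 : CertNX 0 536870912 1073741824 536870912 1046898278 26843546 3 false false false .pnp 0 1 2
    ndN3q0 ndN3q2 pcN1 Cut.none Ext.none :=
  certNX0 (fam := false) (s1 := false) (s2 := false) (a := 0) (b := 1) (c := 2) (cn := .pnp) (n1 := ndN3q0) (n2 := ndN3q2) (pc := pcN1) (cut := Cut.none) (xt := Ext.none) (P1 := 0) (W1 := 536870912) (P2 := 1073741824) (W2 := 536870912) (P3 := 1046898278) (W3 := 26843546) (N0 := 3)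
    rfl k0_mm_012

noncomputable def f_mm_022 : ℕ → ℕ → ℕ → ℕ → Bool := onCell 0 536870912 1073741824 536870912 1046898278 26843546
    (rowNX 3 0 false false false .pp 0 2 2 (qsf 0 536870912 1073741824 536870912 2) ndN3q0 ndN3q2 pcN2 Cut.none Ext.none)

def k0_mm_022 : ∃ t, chk3 f_mm_022 t 1 1 1 = true :=
  ⟨(l 5), by decide +kernel⟩

theorem c_mm_022 : CertNX 0 536870912 1073741824 536870912 1046898278 26843546 3 false false false .pp 0 2 2
    ndN3q0 ndN3q2 pcN2 Cut.none Ext.none :=
  certNX0 (fam := false) (s1 := false) (s2 := false) (a := 0) (b := 2) (c := 2) (cn := .pp) (n1 := ndN3q0) (n2 := ndN3q2) (pc := pcN2) (cut := Cut.none) (xt := Ext.none) (P1 := 0) (W1 := 536870912) (P2 := 1073741824) (W2 := 536870912) (P3 := 1046898278) (W3 := 26843546) (N0 := 3)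
    rfl k0_mm_022

noncomputable def f_mm_023 : ℕ → ℕ → ℕ → ℕ → Bool := onCell 0 536870912 1610612736 536870912 1046898278 26843546
    (rowNX 3 0 false false false .up 0 2 3 (qsf 0 536870912 1610612736 536870912 2) ndN3q0 ndN3q3 pcN2 Cut.none Ext.none)

def k0_mm_023 : ∃ t, chk3 f_mm_023 t 1 1 1 = true :=
  ⟨(l 5), by decide +kernel⟩

theorem c_mm_023 : CertNX 0 536870912 1610612736 536870912 1046898278 26843546 3 false false false .up 0 2 3
    ndN3q0 ndN3q3 pcN2 Cut.none Ext.none :=
  certNX0 (fam := false) (s1 := false) (s2 := false) (a := 0) (b := 2) (c := 3) (cn := .up) (n1 := ndN3q0) (n2 := ndN3q3) (pc := pcN2) (cut := Cut.none) (xt := Ext.none) (P1 := 0) (W1 := 536870912) (P2 := 1610612736) (W2 := 536870912) (P3 := 1046898278) (W3 := 26843546) (N0 := 3)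
    rfl k0_mm_023

noncomputable def f_mm_033 : ℕ → ℕ → ℕ → ℕ → Bool := onCell 0 536870912 1610612736 536870912 1046898278 26843546
    (rowNX 3 0 false false false .pnn 0 3 3 (qsf 0 536870912 1610612736 536870912 3) ndN3q0 ndN3q3 pcN3 Cut.none Ext.none)

def k0_mm_033 : ∃ t, chk3 f_mm_033 t 1 1 1 = true :=
  ⟨(l 5), by decide +kernel⟩

theorem c_mm_033 : CertNX 0 536870912 1610612736 536870912 1046898278 26843546 3 false false false .pnn 0 3 3
    ndN3q0 ndN3q3 pcN3 Cut.none Ext.none :=
  certNX0 (fam := false) (s1 := false) (s2 := false) (a := 0) (b := 3) (c := 3) (cn := .pnn) (n1 := ndN3q0) (n2 := ndN3q3) (pc := pcN3) (cut := Cut.none) (xt := Ext.none) (P1 := 0) (W1 := 536870912) (P2 := 1610612736) (W2 := 536870912) (P3 := 1046898278) (W3 := 26843546) (N0 := 3)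
    rfl k0_mm_033

noncomputable def f_mm_101 : ℕ → ℕ → ℕ → ℕ → Bool := onCell 536870912 536870912 536870912 536870912 1046898278 26843546
    (rowNX 3 0 false false false .npn 1 0 1 (qsf 536870912 536870912 536870912 536870912 0) ndN3q1 ndN3q1 pcN0 Cut.none Ext.none)

def k0_mm_101 : ∃ t, chk3 f_mm_101 t 1 1 1 = true :=
  ⟨(l 3), by decide +kernel⟩

theorem c_mm_101 : CertNX 536870912 536870912 536870912 536870912 1046898278 26843546 3 false false false .npn 1 0 1
    ndN3q1 ndN3q1 pcN0 Cut.none Ext.none :=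
  certNX0 (fam := false) (s1 := false) (s2 := false) (a := 1) (b := 0) (c := 1) (cn := .npn) (n1 := ndN3q1) (n2 := ndN3q1) (pc := pcN0) (cut := Cut.none) (xt := Ext.none) (P1 := 536870912) (W1 := 536870912) (P2 := 536870912) (W2 := 536870912) (P3 := 1046898278) (W3 := 26843546) (N0 := 3)
    rfl k0_mm_101

noncomputable def f_mm_102 : ℕ → ℕ → ℕ → ℕ → Bool := onCell 536870912 536870912 1073741824 536870912 1046898278 26843546
    (rowNX 3 0 false false false .npp 1 0 2 (qsf 536870912 536870912 1073741824 536870912 0) ndN3q1 ndN3q2 pcN0 Cut.none Ext.none)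

def k0_mm_102 : ∃ t, chk3 f_mm_102 t 1 1 1 = true :=
  ⟨(l 5), by decide +kernel⟩

theorem c_mm_102 : CertNX 536870912 536870912 1073741824 536870912 1046898278 26843546 3 false false false .npp 1 0 2
    ndN3q1 ndN3q2 pcN0 Cut.none Ext.none :=
  certNX0 (fam := false) (s1 := false) (s2 := false) (a := 1) (b := 0) (c := 2) (cn := .npp) (n1 := ndN3q1) (n2 := ndN3q2) (pc := pcN0) (cut := Cut.none) (xt := Ext.none) (P1 := 536870912) (W1 := 536870912) (P2 := 1073741824) (W2 := 536870912) (P3 := 1046898278) (W3 := 26843546) (N0 := 3)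
    rfl k0_mm_102

noncomputable def f_mm_112 : ℕ → ℕ → ℕ → ℕ → Bool := onCell 536870912 536870912 1073741824 536870912 1046898278 26843546
    (rowNX 3 0 false false false .dn 1 1 2 (qsf 536870912 536870912 1073741824 536870912 1) ndN3q1 ndN3q2 pcN1 Cut.none Ext.none)

def k0_mm_112 : ∃ t, chk3 f_mm_112 t 1 1 1 = true :=
  ⟨(l 5), by decide +kernel⟩

theorem c_mm_112 : CertNX 536870912 536870912 1073741824 536870912 1046898278 26843546 3 false false false .dn 1 1 2
    ndN3q1 ndN3q2 pcN1 Cut.none Ext.none :=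
  certNX0 (fam := false) (s1 := false) (s2 := false) (a := 1) (b := 1) (c := 2) (cn := .dn) (n1 := ndN3q1) (n2 := ndN3q2) (pc := pcN1) (cut := Cut.none) (xt := Ext.none) (P1 := 536870912) (W1 := 536870912) (P2 := 1073741824) (W2 := 536870912) (P3 := 1046898278) (W3 := 26843546) (N0 := 3)
    rfl k0_mm_112

noncomputable def f_mm_113 : ℕ → ℕ → ℕ → ℕ → Bool := onCell 536870912 536870912 1610612736 536870912 1046898278 26843546
    (rowNX 3 0 false false false .nn 1 1 3 (qsf 536870912 536870912 1610612736 536870912 1) ndN3q1 ndN3q3 pcN1 Cut.none Ext.none)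

def k0_mm_113 : ∃ t, chk3 f_mm_113 t 1 1 1 = true :=
  ⟨(l 5), by decide +kernel⟩

theorem c_mm_113 : CertNX 536870912 536870912 1610612736 536870912 1046898278 26843546 3 false false false .nn 1 1 3
    ndN3q1 ndN3q3 pcN1 Cut.none Ext.none :=
  certNX0 (fam := false) (s1 := false) (s2 := false) (a := 1) (b := 1) (c := 3) (cn := .nn) (n1 := ndN3q1) (n2 := ndN3q3) (pc := pcN1) (cut := Cut.none) (xt := Ext.none) (P1 := 536870912) (W1 := 536870912) (P2 := 1610612736) (W2 := 536870912) (P3 := 1046898278) (W3 := 26843546) (N0 := 3)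
    rfl k0_mm_113

noncomputable def f_mm_123 : ℕ → ℕ → ℕ → ℕ → Bool := onCell 536870912 536870912 1610612736 536870912 1046898278 26843546
    (rowNX 3 0 false false false .npn 1 2 3 (qsf 536870912 536870912 1610612736 536870912 2) ndN3q1 ndN3q3 pcN2 Cut.none Ext.none)

def k0_mm_123 : ∃ t, chk3 f_mm_123 t 1 1 1 = true :=
  ⟨(l 5), by decide +kernel⟩

theorem c_mm_123 : CertNX 536870912 536870912 1610612736 536870912 1046898278 26843546 3 false false false .npn 1 2 3
    ndN3q1 ndN3q3 pcN2 Cut.none Ext.none :=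
  certNX0 (fam := false) (s1 := false) (s2 := false) (a := 1) (b := 2) (c := 3) (cn := .npn) (n1 := ndN3q1) (n2 := ndN3q3) (pc := pcN2) (cut := Cut.none) (xt := Ext.none) (P1 := 536870912) (W1 := 536870912) (P2 := 1610612736) (W2 := 536870912) (P3 := 1046898278) (W3 := 26843546) (N0 := 3)
    rfl k0_mm_123

noncomputable def f_mm_133 : ℕ → ℕ → ℕ → ℕ → Bool := onCell 536870912 536870912 1610612736 536870912 1046898278 26843546
    (rowNX 3 0 false false false .dn 1 3 3 (qsf 536870912 536870912 1610612736 536870912 3) ndN3q1 ndN3q3 pcN3 Cut.none Ext.none)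

def k0_mm_133 : ∃ t, chk3 f_mm_133 t 1 1 1 = true :=
  ⟨(l 5), by decide +kernel⟩

theorem c_mm_133 : CertNX 536870912 536870912 1610612736 536870912 1046898278 26843546 3 false false false .dn 1 3 3
    ndN3q1 ndN3q3 pcN3 Cut.none Ext.none :=
  certNX0 (fam := false) (s1 := false) (s2 := false) (a := 1) (b := 3) (c := 3) (cn := .dn) (n1 := ndN3q1) (n2 := ndN3q3) (pc := pcN3) (cut := Cut.none) (xt := Ext.none) (P1 := 536870912) (W1 := 536870912) (P2 := 1610612736) (W2 := 536870912) (P3 := 1046898278) (W3 := 26843546) (N0 := 3)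
    rfl k0_mm_133

noncomputable def f_mm_202 : ℕ → ℕ → ℕ → ℕ → Bool := onCell 1073741824 536870912 1073741824 536870912 1046898278 26843546
    (rowNX 3 0 false false false .pp 2 0 2 (qsf 1073741824 536870912 1073741824 536870912 0) ndN3q2 ndN3q2 pcN0 Cut.none Ext.none)

def k0_mm_202 : ∃ t, chk3 f_mm_202 t 1 1 1 = true :=
  ⟨(l 3), by decide +kernel⟩

theorem c_mm_202 : CertNX 1073741824 536870912 1073741824 536870912 1046898278 26843546 3 false false false .pp 2 0 2
    ndN3q2 ndN3q2 pcN0 Cut.none Ext.none :=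
  certNX0 (fam := false) (s1 := false) (s2 := false) (a := 2) (b := 0) (c := 2) (cn := .pp) (n1 := ndN3q2) (n2 := ndN3q2) (pc := pcN0) (cut := Cut.none) (xt := Ext.none) (P1 := 1073741824) (W1 := 536870912) (P2 := 1073741824) (W2 := 536870912) (P3 := 1046898278) (W3 := 26843546) (N0 := 3)
    rfl k0_mm_202

noncomputable def f_mm_203 : ℕ → ℕ → ℕ → ℕ → Bool := onCell 1073741824 536870912 0 536870912 1046898278 26843546
    (rowNX 3 1 false false false .up 2 0 3 (qsf 1073741824 536870912 1610612736 536870912 0) ndN3q2 ndN3q3 pcN0 Cut.none Ext.none)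

def k0_mm_203 : ∃ t, chk3 f_mm_203 t 1 1 1 = true :=
  ⟨(l 3), by decide +kernel⟩

theorem c_mm_203 : CertNX 1073741824 536870912 1610612736 536870912 1046898278 26843546 3 false false false .up 2 0 3
    ndN3q2 ndN3q3 pcN0 Cut.none Ext.none :=
  certNX1 (fam := false) (s1 := false) (s2 := false) (a := 2) (b := 0) (c := 3) (cn := .up) (n1 := ndN3q2) (n2 := ndN3q3) (pc := pcN0) (cut := Cut.none) (xt := Ext.none) (P1 := 1073741824) (W1 := 536870912) (P2 := 1610612736) (W2 := 536870912) (P3 := 1046898278) (W3 := 26843546) (N0 := 3)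
    rfl (fun _ => rfl) k0_mm_203

noncomputable def f_mm_213 : ℕ → ℕ → ℕ → ℕ → Bool := onCell 1073741824 536870912 1610612736 536870912 1046898278 26843546
    (rowNX 3 0 false false false .pnn 2 1 3 (qsf 1073741824 536870912 1610612736 536870912 1) ndN3q2 ndN3q3 pcN1 Cut.none Ext.none)

def k0_mm_213 : ∃ t, chk3 f_mm_213 t 1 1 1 = true :=
  ⟨(a (l 5) (l 3)), by decide +kernel⟩

theorem c_mm_213 : CertNX 1073741824 536870912 1610612736 536870912 1046898278 26843546 3 false false false .pnn 2 1 3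
    ndN3q2 ndN3q3 pcN1 Cut.none Ext.none :=
  certNX0 (fam := false) (s1 := false) (s2 := false) (a := 2) (b := 1) (c := 3) (cn := .pnn) (n1 := ndN3q2) (n2 := ndN3q3) (pc := pcN1) (cut := Cut.none) (xt := Ext.none) (P1 := 1073741824) (W1 := 536870912) (P2 := 1610612736) (W2 := 536870912) (P3 := 1046898278) (W3 := 26843546) (N0 := 3)
    rfl k0_mm_213

noncomputable def f_mm_303 : ℕ → ℕ → ℕ → ℕ → Bool := onCell 1610612736 536870912 1610612736 536870912 1046898278 26843546
    (rowNX 3 0 false false false .npn 3 0 3 (qsf 1610612736 536870912 1610612736 536870912 0) ndN3q3 ndN3q3 pcN0 Cut.none Ext.none)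

def k0_mm_303 : ∃ t, chk3 f_mm_303 t 1 1 1 = true :=
  ⟨(l 3), by decide +kernel⟩

theorem c_mm_303 : CertNX 1610612736 536870912 1610612736 536870912 1046898278 26843546 3 false false false .npn 3 0 3
    ndN3q3 ndN3q3 pcN0 Cut.none Ext.none :=
  certNX0 (fam := false) (s1 := false) (s2 := false) (a := 3) (b := 0) (c := 3) (cn := .npn) (n1 := ndN3q3) (n2 := ndN3q3) (pc := pcN0) (cut := Cut.none) (xt := Ext.none) (P1 := 1610612736) (W1 := 536870912) (P2 := 1610612736) (W2 := 536870912) (P3 := 1046898278) (W3 := 26843546) (N0 := 3)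
    rfl k0_mm_303

noncomputable def f_mm_313 : ℕ → ℕ → ℕ → ℕ → Bool := onCell 1610612736 536870912 1610612736 536870912 1046898278 26843546
    (rowNX 3 0 false false false .dn 3 1 3 (qsf 1610612736 536870912 1610612736 536870912 1) ndN3q3 ndN3q3 pcN1 Cut.none Ext.none)

def k0_mm_313 : ∃ t, chk3 f_mm_313 t 1 1 1 = true :=
  ⟨(l 3), by decide +kernel⟩

theorem c_mm_313 : CertNX 1610612736 536870912 1610612736 536870912 1046898278 26843546 3 false false false .dn 3 1 3
    ndN3q3 ndN3q3 pcN1 Cut.none Ext.none :=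
  certNX0 (fam := false) (s1 := false) (s2 := false) (a := 3) (b := 1) (c := 3) (cn := .dn) (n1 := ndN3q3) (n2 := ndN3q3) (pc := pcN1) (cut := Cut.none) (xt := Ext.none) (P1 := 1610612736) (W1 := 536870912) (P2 := 1610612736) (W2 := 536870912) (P3 := 1046898278) (W3 := 26843546) (N0 := 3)
    rfl k0_mm_313

end Pool.Agent.Strip051.G.IE1.Tab.C.NB33

namespace Pool.Agent.Strip051.G.IE1.Tab.C.NB35

open Pool.Agent.Strip051.PB Pool.Agent.Strip051.PB.T
open Pool.Agent.Strip051.G.IE1.Tab

noncomputable def f_pp_001 : ℕ → ℕ → ℕ → ℕ → Bool := onCell 0 536870912 0 536870912 1046898278 26843546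
    (rowNX 3 1 false true true .up 0 0 1 (qsf 0 536870912 536870912 469762048 0) ndN3q0 ndN5q1 pcN0 Cut.none Ext.none)

def k0_pp_001 : ∃ t, chk3 f_pp_001 t 1 1 1 = true :=
  ⟨(l 3), by decide +kernel⟩

theorem c_pp_001 : CertNX 0 536870912 536870912 469762048 1046898278 26843546 3 false true true .up 0 0 1
    ndN3q0 ndN5q1 pcN0 Cut.none Ext.none :=
  certNX1 (fam := false) (s1 := true) (s2 := true) (a := 0) (b := 0) (c := 1) (cn := .up) (n1 := ndN3q0) (n2 := ndN5q1) (pc := pcN0) (cut := Cut.none) (xt := Ext.none) (P1 := 0) (W1 := 536870912) (P2 := 536870912) (W2 := 469762048) (P3 := 1046898278) (W3 := 26843546) (N0 := 3)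
    rfl (fun _ => rfl) k0_pp_001

noncomputable def f_pp_011 : ℕ → ℕ → ℕ → ℕ → Bool := onCell 0 536870912 536870912 469762048 1046898278 26843546
    (rowNX 3 0 false true true .pnn 0 1 1 (qsf 0 536870912 536870912 469762048 1) ndN3q0 ndN5q1 pcN1 Cut.none Ext.none)

def k0_pp_011 : ∃ t, chk3 f_pp_011 t 1 1 1 = true :=
  ⟨(a (l 3) (l 3)), by decide +kernel⟩

theorem c_pp_011 : CertNX 0 536870912 536870912 469762048 1046898278 26843546 3 false true true .pnn 0 1 1
    ndN3q0 ndN5q1 pcN1 Cut.none Ext.none :=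
  certNX0 (fam := false) (s1 := true) (s2 := true) (a := 0) (b := 1) (c := 1) (cn := .pnn) (n1 := ndN3q0) (n2 := ndN5q1) (pc := pcN1) (cut := Cut.none) (xt := Ext.none) (P1 := 0) (W1 := 536870912) (P2 := 536870912) (W2 := 469762048) (P3 := 1046898278) (W3 := 26843546) (N0 := 3)
    rfl k0_pp_011

noncomputable def f_pp_012 : ℕ → ℕ → ℕ → ℕ → Bool := onCell 536870912 536870912 1073741824 536870912 1046898278 26843546
    (rowNX 3 2 false true true .pnp 0 1 2 (qsf 0 536870912 1073741824 536870912 1) ndN3q0 ndN5q2 pcN1 Cut.none Ext.none)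

def k0_pp_012 : ∃ t, chk3 f_pp_012 t 2 1 1 = true :=
  ⟨(b (b (l 3) (a (l 3) (b (l 3) (b (a (l 3) (l 16179104)) (c (l 16776560) (l 16776544)))))) (a (l 2) (b (a (l 2) (l 16777216)) (l 2)))), by decide +kernel⟩

def k1_pp_012 : ∃ t, chk3 f_pp_012 t 6 2 1 = true :=
  ⟨(b (l 3) (b (b (a (l 3) (b (l 3) (a (l 3) (l 14613296)))) (a (l 15173520) (a (l 15364368) (l 15156256)))) (b (a (c (l 16314104) (l 16297912)) (a (l 16317336) (l 16140832))) (a (l 16773704) (a (l 16750192) (l 16701584)))))), by decide +kernel⟩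

def k2_pp_012 : ∃ t, chk3 f_pp_012 t 7 4 1 = true :=
  ⟨(b (l 3) (a (l 3) (b (l 3) (a (a (l 3) (c (a (l 14050704) (l 365770736839)) (l 13913072))) (b (l 3) (a (c (c (a (c (l 182161426263) (l 13840656)) (l 13834096)) (a (l 13781768) (l 13720208))) (l 13695384)) (c (c (l 13807624) (l 13758568)) (a (c (l 13704864) (l 13652056)) (c (l 13698392) (a (l 13637304) (l 13638040))))))))))), by decide +kernel⟩

def k3_pp_012 : ∃ t, chk3 f_pp_012 t 7 5 1 = true :=
  ⟨(a (b (b (b (a (l 3) (a (l 14204544) (l 14156824))) (a (l 14813552) (a (l 14516584) (l 14293080)))) (a (l 15353352) (c (l 15018552) (l 14985224)))) (b (a (l 16102568) (l 15756928)) (l 16059240))) (b (a (b (a (b (l 13912272) (l 14042736)) (a (b (l 13687592) (l 13829200)) (b (b (l 13621344) (l 13527176)) (l 13720832)))) (a (b (l 14441976) (l 14848824)) (c (a (l 14483416) (l 14384776)) (l 14348632)))) (b (c (a (b (c (a (c (l 13650688) (l 13610712)) (l 13573144)) (a (l 13549648) (c (l 13537456) (l 13500384)))) (c (a (c (l 13790928)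 (l 13753016)) (l 13706168)) (a (l 13695128) (l 13651368)))) (b (c (l 13520136) (l 13464632)) (c (l 13619656) (l 13565032)))) (a (b (l 13440448) (l 13581728)) (b (a (c (l 13178688) (l 13350288)) (c (l 13391608) (a (l 13326464) (l 13323360)))) (a (c (l 13524008) (l 13466272)) (c (l 13478376) (a (l 13419640) (l 13402824))))))) (c (a (c (a (c (l 14393184) (l 14362112)) (l 14321264)) (a (l 14314672) (l 14130424))) (c (l 14241336) (l 14197600))) (a (l 14221936) (a (c (l 13982824) (l 14125312)) (c (l 14124728) (a (l 14082792) (l 14040816)))))))) (a (a (b (l 15442424) (l 15830000)) (b (a (l 15255056) (l 15091472)) (l 15538144))) (b (a (c (a (c (b (l 14950320) (l 15345912)) (l 15108976)) (c (l 15090232) (b (l 14858616) (l 15252968)))) (l 15037600)) (c (b (l 14806968) (l 15162824)) (a (c (b (l 14771184) (l 15161072)) (l 14939408)) (c (l 14927048) (a (l 14899392) (l 14860584)))))) (a (c (c (a (l 15566000) (l 15501376)) (l 15507928)) (l 15472464)) (c (l 15395832) (a (l 15205528) (c (l 15328800)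 (l 15260832))))))))), by decide +kernel⟩

def k4_pp_012 : ∃ t, chk3 f_pp_012 t 3 3 1 = true :=
  ⟨(b (a (a (l 16768552) (a (l 16717272) (b (l 16666736) (l 16618312)))) (a (a (l 16357960) (l 15989808)) (a (a (l 15782640) (b (l 15628600) (l 15584888))) (a (c (b (a (l 15547168) (c (l 15489008) (l 15466896))) (a (l 15508200) (l 15429336))) (l 15443536)) (b (c (l 15373512) (c (a (l 15372016) (l 15302520)) (b (l 15132920) (l 15054584)))) (l 15287576)))))) (a (a (l 2) (a (l 2) (l 16568120))) (a (l 16101888) (l 15418536)))), by decide +kernel⟩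

theorem s5_pp_012 : ∃ t, chk3 f_pp_012 t 7 2 1 = true := ex3_b k2_pp_012 k3_pp_012

theorem s6_pp_012 : ∃ t, chk3 f_pp_012 t 3 2 1 = true := ex3_a k1_pp_012 s5_pp_012

theorem s7_pp_012 : ∃ t, chk3 f_pp_012 t 3 1 1 = true := ex3_b s6_pp_012 k4_pp_012

theorem s8_pp_012 : ∃ t, chk3 f_pp_012 t 1 1 1 = true := ex3_a k0_pp_012 s7_pp_012

theorem c_pp_012 : CertNX 0 536870912 1073741824 536870912 1046898278 26843546 3 false true true .pnp 0 1 2
    ndN3q0 ndN5q2 pcN1 Cut.none Ext.none :=
  certNX2 (fam := false) (s1 := true) (s2 := true) (a := 0) (b := 1) (c := 2) (cn := .pnp) (n1 := ndN3q0) (n2 := ndN5q2) (pc := pcN1) (cut := Cut.none) (xt := Ext.none) (P1 := 0) (W1 := 536870912) (P2 := 1073741824) (W2 := 536870912) (P3 := 1046898278) (W3 := 26843546) (N0 := 3)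
    rfl (fun _ => rfl) s8_pp_012

end Pool.Agent.Strip051.G.IE1.Tab.C.NB35

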