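import Pool.Agent.Strip051.G.IE1.Tab

/-! # Certificates N73 (generated) -/

set_option linter.all false
set_option maxRecDepth 100000

namespace Pool.Agent.Strip051.G.IE1.Tab.C.NB35

open Pool.Agent.Strip051.PB Pool.Agent.Strip051.PB.T
open Pool.Agent.Strip051.G.IE1.Tab

noncomputable def f_pp_022 : ℕ → ℕ → ℕ → ℕ → Bool := onCell 0 536870912 1073741824 536870912 1046898278 26843546
    (rowNX 3 1 false true true .pp 0 2 2 (qsf 0 536870912 1073741824 536870912 2) ndN3q0 ndN5q2 pcN2 Cut.none Ext.none)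

def k0_pp_022 : ∃ t, chk3 f_pp_022 t 8 16 1 = true :=
  ⟨(l 3), by decide +kernel⟩

def k1_pp_022 : ∃ t, chk3 f_pp_022 t 9 32 1 = true :=
  ⟨(a (a (l 3) (b (l 3) (b (l 3) (c (c (l 14705512) (c (l 14683440) (b (l 14668752) (l 316380018807)))) (c (c (b (l 432880925895) (l 14631272)) (l 14608056)) (l 14574568)))))) (a (c (b (a (l 304568070087) (c (l 14034376) (l 13983176))) (c (a (b (l 14219816) (a (l 14291784) (l 14156536))) (b (l 14037416) (l 14034560))) (c (a (l 13979368) (l 13996344)) (b (l 14064552) (b (l 14065224) (a (l 14167200) (l 13963640))))))) (b (c (b (l 14037568) (a (c (l 14148712) (l 14126952)) (c (l 13937440) (l 13912072)))) (b (a (l 3) (c (l 13889968) (b (c (l 13871792) (l 318525878711)) (c (l 13865624) (l 13850296))))) (c (b (c (l 14005112) (l 368455011943)) (a (l 14097648) (l 13879712))) (l 13958560)))) (c (b (c (a (c (l 14152232) (l 14075160)) (l 13939296)) (a (c (b (l 14132312) (l 14121864)) (l 14108368)) (l 13901968))) (c (a (b (l 13930440) (l 14124352))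 (l 13922568)) (l 13988152))) (a (l 14055536) (l 13836072))))) (c (b (c (l 13835992) (l 13780808)) (c (b (l 13859344) (l 13854576)) (c (l 13808456) (l 13769344)))) (b (c (b (a (l 13787432) (l 13680304)) (c (l 13741752) (l 13711168))) (b (c (l 13666216) (b (b (l 13497888) (l 13582728)) (l 13644096))) (c (l 13666784) (l 13626640)))) (c (l 13716784) (l 13619408)))))), by decide +kernel⟩

def k2_pp_022 : ∃ t, chk3 f_pp_022 t 9 33 1 = true :=
  ⟨(a (b (a (b (l 3) (b (l 3) (c (c (c (l 15361056) (c (l 15353696) (l 15330960))) (l 15292648)) (l 15247776)))) (c (c (b (l 14701488) (c (l 14710160) (b (l 14697832) (c (l 14698496) (l 14673328))))) (c (b (b (l 14685912) (c (l 14689488) (l 14668904))) (b (c (l 14671312) (l 14644104)) (l 14638952))) (b (b (c (l 14666096) (l 14640656)) (l 14634880)) (l 14617136)))) (l 14569088))) (c (c (b (c (b (a (c (l 15363632) (l 15350928)) (c (l 14718912) (l 14702000))) (c (a (l 15347312) (l 14704784)) (a (l 15317488) (l 14674976)))) (a (b (l 259472992919)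 (l 15292568)) (b (c (l 14673576) (l 14649384)) (l 14644472)))) (c (a (b (c (l 15314488) (l 15295264)) (l 15286728)) (b (c (l 14676488) (l 14654288)) (l 14652944))) (l 14758080))) (a (l 15257728) (l 14596344))) (a (l 15041208) (a (l 14698720) (l 14339136))))) (c (a (b (c (b (a (l 14229688) (l 14041392)) (a (c (l 14239528) (c (l 14219400) (l 14198688))) (c (l 14049656) (l 14010128)))) (a (c (b (b (l 14195576) (l 14186616)) (c (l 14175616) (l 14149808))) (b (l 14064968) (l 14119392))) (c (l 13974768) (l 13927544)))) (c (b (a (a (b (c (l 14309864) (l 14261688)) (l 14272648)) (l 14127344)) (l 14006136)) (a (l 14172232) (l 13976888))) (l 13771184))) (b (a (l 13853064) (c (b (l 13790712) (l 13881896)) (l 13773424))) (a (a (l 13871328) (l 13892224)) (l 14013640)))) (a (c (a (l 14049256) (l 13837280)) (a (l 13995080) (l 13771256))) (a (b (l 13494040) (b (l 13680320) (l 13751344))) (b (c (b (l 13630368) (l 13692944)) (l 13599720)) (l 13857048)))))), by decide +kernel⟩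

def k3_pp_022 : ∃ t, chk3 f_pp_022 t 8 17 1 = true :=
  ⟨(b (a (l 3) (a (b (l 3) (c (c (l 500529699319) (l 524688862439)) (l 435031385143))) (c (b (b (l 511803187607) (l 515561305719)) (a (c (l 15890040) (l 15871856)) (c (b (l 15697720) (l 15713144)) (l 15675360)))) (b (b (l 15708616) (l 15721080)) (a (l 15850144) (b (l 15645208) (l 15662880))))))) (b (a (l 3) (c (a (b (c (l 16032000) (l 16083024)) (c (b (l 16131824) (l 510730305575)) (b (l 16142016) (l 15956080)))) (b (c (a (l 15904816) (l 15716208)) (l 15789760)) (a (b (l 15893824) (l 15883152)) (l 15671200)))) (a (b (l 402819200311) (b (l 16021760) (a (l 16295600) (l 16075984)))) (b (a (l 15866296) (l 15667296)) (b (l 15561480) (l 15615088)))))) (a (a (l 3) (a (a (l 3) (b (l 3) (c (l 16598584) (l 16601976)))) (c (c (b (l 16296560) (l 16288216)) (l 16287952)) (c (l 207398907879) (l 204177691463))))) (a (c (b (a (a (l 16341120) (l 16233184)) (c (l 16073160) (l 16061264))) (a (l 16179560) (c (l 16039576) (l 16027792))))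 (b (a (l 16173056) (l 16045280)) (a (l 16226264) (l 16011016)))) (c (c (l 15693904) (l 15717296)) (l 15691680)))))), by decide +kernel⟩

def k4_pp_022 : ∃ t, chk3 f_pp_022 t 9 17 1 = true :=
  ⟨(a (b (c (a (b (b (a (l 15406016) (l 15080776)) (a (l 15414464) (l 15076448))) (a (b (l 15428928) (l 15415024)) (l 15071648))) (b (b (a (l 14748880) (l 14421728)) (a (l 14738392) (l 14406856))) (a (c (l 14753512) (l 14697240)) (l 14383928)))) (a (b (b (l 15174976) (l 15163576)) (a (l 15370696) (l 15001208))) (b (b (l 14475640) (l 14473096)) (a (l 14639664) (l 14280728))))) (a (b (c (a (l 15395536) (b (l 15047640) (l 15030488))) (a (l 15344504) (l 14972944))) (c (b (l 14921248) (a (l 15314792) (l 14970288))) (a (l 15280928) (l 14926816)))) (b (a (c (b (l 14701808) (l 14679984)) (l 14612800)) (c (b (l 14390104) (l 14459848)) (l 14348416))) (a (c (b (l 14688560) (l 14752008)) (l 14660928)) (l 14610080))))) (c (b (a (b (a (l 14090896) (b (a (l 13933896) (l 13916216)) (a (l 13961840) (l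 14022728)))) (a (c (a (l 14202032) (l 14133480)) (l 13915744)) (l 13997976))) (c (l 14348104) (c (l 14284928) (l 14250352)))) (a (b (a (l 14353104) (l 14458736)) (a (l 14626872) (l 14720936))) (c (b (l 14712080) (l 14952176)) (a (l 14716216) (l 14856912))))) (b (a (a (b (l 13958592) (l 14028920)) (b (l 13815088) (l 14066248))) (l 14192168)) (b (a (a (l 14248128) (l 14361504)) (l 14612624)) (a (a (l 14473368) (l 14629528)) (l 14883000)))))), by decide +kernel⟩

def k5_pp_022 : ∃ t, chk3 f_pp_022 t 10 8 1 = true :=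
  ⟨(b (b (a (a (c (b (c (a (l 13675576) (b (l 13579592) (l 13687064))) (a (l 13619600) (c (l 13616664) (b (l 13524904) (l 13612488))))) (c (a (b (a (l 13705336) (l 13698768)) (l 13790168)) (l 13896248)) (b (a (l 13648088) (l 13761472)) (a (l 13720704) (l 13901992))))) (c (b (b (a (l 13541664) (l 13452976)) (a (l 13537800) (l 13563000))) (a (b (l 13555928) (l 13620544)) (l 13751704))) (b (a (l 13479120) (l 13460600)) (l 13548776)))) (c (c (b (c (l 13929968) (l 13898488)) (b (c (l 14145600) (l 14116168)) (l 14263976))) (c (b (l 13867616) (l 14152512)) (l 13983976))) (c (l 13932240) (l 13780968)))) (c (b (c (a (l 14336840) (l 14847352)) (l 14577456)) (c (l 14789664) (l 14808688))) (b (c (l 14532992) (l 14481888)) (l 14607312)))) (b (a (c (c (a (l 14077608) (l 14365544)) (l 13980032)) (c (l 14084536) (l 14049304))) (c (l 14825472) (l 14935888))) (a (c (a (l 14102256) (l 14523696)) (l 14187968)) (c (l 15221032) (l 15133936))))) (a (b (c (c (a (l 14668408) (c (l 15000256) (l 14969664)))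 (a (b (l 14487968) (l 14731376)) (l 14925720))) (a (l 14549992) (l 14867192))) (c (a (c (c (l 15051648) (b (l 14979952) (l 15200368))) (c (l 15080160) (l 15089544))) (c (a (c (l 15314080) (l 15295048)) (l 15436656)) (l 15337768))) (l 14934256))) (c (b (a (l 15305816) (c (l 15577368) (l 15541256))) (a (c (l 15366896) (l 15549840)) (l 15568696))) (b (a (l 15235016) (l 15503792)) (a (l 15518096) (l 15524064)))))), by decide +kernel⟩

def k6_pp_022 : ∃ t, chk3 f_pp_022 t 11 8 1 = true :=
  ⟨(b (a (b (c (a (b (l 15274432) (l 15458240)) (b (l 15673016) (l 15691536))) (b (a (l 15212512) (l 15461392)) (a (l 15394440) (l 15686128)))) (c (a (b (l 15596496) (l 15651552)) (l 15673536)) (a (l 15504160) (l 15622504)))) (b (c (b (l 15871080) (l 15781624)) (b (l 15607272) (l 15743752))) (c (l 15637448) (l 15594352)))) (a (c (b (l 15555752) (l 15399280)) (l 15429528)) (c (b (l 15444016) (a (l 15261280) (l 15236112))) (b (l 15395872) (l 15201152))))), by decide +kernel⟩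

def k7_pp_022 : ∃ t, chk3 f_pp_022 t 16 18 1 = true :=
  ⟨(b (b (b (a (l 3) (c (a (l 16355648) (l 16390496)) (a (l 16471880) (l 16421360)))) (a (a (l 3) (a (c (l 16275728) (l 16308600)) (c (l 16311592) (l 16404888)))) (c (a (l 16380880) (l 16321856)) (a (l 16518512) (l 16351992))))) (a (c (a (b (l 542405963591) (c (l 16155464) (l 16148520))) (a (c (l 16261032) (l 16280584)) (c (l 16363880) (l 16403216)))) (c (a (b (l 16136864) (l 16068336)) (a (l 16308856) (l 16415168))) (a (b (l 572470593719) (a (l 16105264) (l 16205016))) (l 16199000)))) (a (c (b (l 16387656) (c (l 16460864) (l 16565984))) (b (l 16504848) (l 16459512))) (c (b (l 16311520) (l 16384576)) (b (l 16362504) (l 16372504)))))) (a (c (a (b (b (c (l 16154480) (l 16147648)) (c (l 16154480) (l 16147776))) (c (b (l 16150448) (l 16140664)) (b (l 16143800) (l 16133960)))) (b (a (c (l 16197472) (l 16280184)) (c (l 16336136) (l 16375608))) (c (l 16268736) (l 16271392)))) (a (c (b (a (l 16103336) (l 16194808)) (b (a (l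 16102192) (l 16188744)) (l 16033040))) (b (a (l 15999776) (l 16206448)) (b (a (l 16103664) (l 16200464)) (a (l 16096040) (l 16189400))))) (b (c (b (l 16340760) (l 16332240)) (b (l 16360400) (l 16351856))) (c (l 16334896) (l 16333384))))) (c (b (a (b (l 16353824) (l 16489248)) (l 16382320)) (a (l 16398600) (l 16394984))) (b (a (b (l 16471056) (l 16543400)) (l 16370552)) (l 16382760))))), by decide +kernel⟩

def k8_pp_022 : ∃ t, chk3 f_pp_022 t 17 18 1 = true :=
  ⟨(b (a (b (c (a (b (l 16174744) (l 16204536)) (l 16001648)) (a (b (l 16199832) (l 16187432)) (l 15978688))) (c (l 16081096) (l 16080408))) (b (c (a (l 15797712) (l 15592264)) (l 15656656)) (c (a (l 15823672) (l 15637736)) (l 15692760)))) (a (c (b (l 16120824) (a (l 16233416) (l 16072808))) (b (l 16100224) (l 16047000))) (b (a (c (l 15862272) (l 15834216)) (a (b (l 15700576) (l 15775272)) (l 15723720))) (a (a (c (l 15903520) (l 15964232)) (l 15846928)) (l 16044552))))), by decide +kernel⟩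

def k9_pp_022 : ∃ t, chk3 f_pp_022 t 8 19 1 = true :=
  ⟨(a (b (a (b (c (a (b (l 16123624) (c (l 16111240) (l 16104232))) (c (b (l 16261032) (l 16220216)) (l 16106864))) (a (c (a (l 16075032) (l 16152808)) (a (l 15950488) (l 16164168))) (c (l 16232800) (l 16293720)))) (a (c (l 16107584) (c (l 16129176) (l 16071272))) (c (l 16120696) (l 16231384)))) (b (c (a (b (l 16425816) (l 16317720)) (l 16419176)) (a (l 16382296) (l 16409848))) (c (a (l 16426144) (l 16400640)) (l 16313088)))) (a (a (c (b (l 16145352) (l 16143992)) (b (c (l 16146872) (l 16131536)) (c (l 16145896) (l 16151784)))) (c (b (l 16170056) (a (l 16224720) (a (l 16283072) (l 16292144)))) (b (l 16239648) (a (l 16259272) (l 16337848))))) (b (a (c (l 16323064) (l 16459944)) (c (a (b (l 16409360) (l 16432800)) (l 16366408)) (b (a (l 16403144) (l 16375696)) (l 16389024)))) (a (c (a (b (l 16401464) (l 16342824)) (b (l 16450464) (l 16353224))) (b (a (l 16414520) (l 16452160)) (l 16274048))) (c (l 16339704) (l 16335608))))))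 (b (a (b (a (c (b (l 16261240) (l 16277408)) (l 16107536)) (c (b (l 16078432) (a (l 16193168) (l 16262336))) (b (l 16124600) (l 16104776)))) (a (b (c (l 16214576) (l 16244736)) (a (l 16220208) (l 16367288))) (l 16329936))) (b (c (b (l 16240168) (l 16345920)) (l 16103752)) (l 16295312))) (a (b (l 16197608) (c (l 16153648) (l 16183688))) (b (c (l 16194248) (l 16199952)) (l 15998912))))), by decide +kernel⟩

def k10_pp_022 : ∃ t, chk3 f_pp_022 t 9 18 1 = true :=
  ⟨(b (a (a (b (a (c (l 15327600) (l 15279048)) (c (l 15080904) (l 15022104))) (a (c (l 15471952) (l 15428776)) (l 15377064))) (b (l 14962624) (l 15365608))) (c (a (a (b (l 14965280) (l 15364688)) (c (l 15253288) (l 15225848))) (c (l 15354664) (a (l 15339064) (c (l 15446440) (l 15439752))))) (a (a (c (a (l 15124680) (l 15124384)) (b (l 14880416) (l 15297488))) (c (c (l 15206064) (l 15038952)) (l 15032736))) (c (b (l 15140384) (c (l 15404176) (l 15569624))) (l 15127736))))) (a (a (c (l 15906416) (l 15881728)) (b (l 15761416)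 (a (l 16151064) (a (l 16149064) (c (l 16148312) (c (l 16133000) (l 15921368))))))) (c (a (a (c (l 15799296) (l 15763512)) (c (l 15966744) (l 15952952))) (a (c (l 16031184) (c (l 16021824) (l 15899000))) (c (l 15956864) (b (l 15679136) (c (l 16225008) (l 16217856)))))) (c (a (a (a (l 15885496) (c (l 15903520) (l 15895320))) (c (l 15936632) (b (l 15701008) (c (l 16103208) (l 15999272))))) (b (c (a (l 15842368) (l 15889712)) (l 15790632)) (a (c (l 16134776) (c (l 16220448) (l 16164440))) (l 16219336)))) (a (c (a (a (l 15699432) (l 15643872)) (b (l 15760544) (l 16046424))) (a (a (l 15785864) (l 15809704)) (l 15910640))) (l 16025864)))))), by decide +kernel⟩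

def k11_pp_022 : ∃ t, chk3 f_pp_022 t 18 19 1 = true :=
  ⟨(a (b (b (c (l 16518448) (l 16473216)) (l 16376304)) (l 15893712)) (a (b (b (l 16526176) (l 16456408)) (l 16194408)) (a (b (b (l 16526712) (l 16501920)) (c (l 16254080) (c (l 16264048) (c (l 16268768) (l 16190344))))) (c (b (b (l 16517688) (l 16549480)) (l 16332864)) (b (c (b (l 16512976) (l 16545888)) (b (b (l 16340696) (b (l 16548736) (l 16373384))) (c (l 16552296) (l 16540824)))) (c (c (l 16324864) (l 16321288)) (c (l 16153192) (l 16295768)))))))), by decide +kernel⟩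

def k12_pp_022 : ∃ t, chk3 f_pp_022 t 19 19 1 = true :=
  ⟨(c (b (b (a (a (c (l 16462656) (l 16456584)) (c (l 16451624) (l 16447000))) (c (a (l 16481832) (b (l 16423416) (l 16506360))) (a (c (l 16475400) (l 16238216)) (c (b (l 16434184) (l 16526240)) (c (l 16478896) (l 16466840)))))) (a (a (l 16610928) (l 16615240)) (c (a (l 16598232) (l 16461560)) (c (l 16520832) (a (l 16597488) (l 16473752)))))) (a (c (a (l 16473128) (l 16585720)) (a (l 16469504) (c (l 16584792) (l 16596344)))) (c (c (l 16372656) (l 16380528)) (c (a (l 16478688) (l 16315304)) (a (l 16501112) (l 16292792)))))) (a (b (b (c (a (c (l 16454880) (a (l 16477864) (l 16428376))) (c (l 16325488) (b (l 16237448) (b (l 16495640) (l 16438296))))) (b (a (c (l 16229472) (l 16364872)) (l 16268352)) (a (b (l 16501592) (c (l 16548560) (l 16575872))) (c (l 16448144) (l 16514488))))) (c (a (c (l 16637512) (l 16393504)) (c (l 16602840) (l 16505320))) (c (a (l 16628424) (l 16637400)) (l 16641616)))) (c (a (b (c (l 16509088)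 (l 16424088)) (c (l 16418760) (a (l 16350792) (l 16380544)))) (c (c (l 16586848) (l 16577288)) (a (c (l 16542456) (l 16510256)) (l 16596536)))) (a (c (b (l 16496096) (a (l 16314656) (l 16410160))) (l 16406896)) (l 16581896)))) (b (a (c (c (a (b (l 16307896) (l 16626000)) (b (l 16305992) (l 16588008))) (l 16528696)) (l 16463696)) (b (l 16462408) (l 16469240))) (b (c (c (l 16297960) (l 16445616)) (l 16442640)) (l 16321632))))), by decide +kernel⟩

def k13_pp_022 : ∃ t, chk3 f_pp_022 t 5 9 1 = true :=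
  ⟨(b (a (a (a (c (b (c (c (l 15364712) (b (l 15464616) (l 15764176))) (a (c (l 15559464) (l 15553560)) (l 15649744))) (c (b (c (l 15825936) (l 15793928)) (a (c (l 16236256) (l 16247400)) (l 15920984))) (c (b (l 15878480) (l 15985240)) (l 16073712)))) (b (l 15549296) (b (l 15987152) (l 16122168)))) (b (c (c (a (c (l 15602384) (l 15732728)) (l 15745064)) (l 15706544)) (b (l 15612376) (l 15778400))) (c (l 15795248) (l 15870904)))) (c (b (c (l 15582496) (l 15562184)) (l 15283560)) (b (l 15531120) (l 15492728)))) (a (c (b (a (l 15327632) (l 15164368)) (a (l 15190712) (l 14974560))) (b (l 15188424) (l 14805744))) (b (a (a (l 15048448) (l 15033464)) (l 15029552)) (l 14860544)))) (a (a (c (c (a (c (b (b (a (l 16352792) (l 16134952)) (l 16157328)) (l 15965872)) (b (b (a (l 16370552) (l 16179992)) (l 16219432)) (l 16029896))) (b (l 15839880) (l 15659104))) (b (b (l 15980904) (l 16008736)) (l 15824648))) (b (b (a (l 16209568) (l 15887032)) (l 15927200)) (l 15675352))) (c (b (b (l 15454336)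 (l 15374104)) (l 15185552)) (b (b (l 15430736) (l 15325976)) (l 15130808)))) (a (b (c (a (l 14997808) (b (l 14826032) (l 14734432))) (a (l 14935664) (l 14715488))) (c (a (l 14741552) (l 14612128)) (l 14616328))) (l 14616760)))), by decide +kernel⟩

def k14_pp_022 : ∃ t, chk3 f_pp_022 t 3 4 1 = true :=
  ⟨(a (b (a (l 15431016) (l 15309912)) (a (l 14780368) (l 14787144))) (b (l 15132784) (l 14797144))), by decide +kernel⟩

def k15_pp_022 : ∃ t, chk3 f_pp_022 t 8 10 1 = true :=
  ⟨(b (b (b (a (a (b (a (c (l 16134648) (l 16057120)) (c (a (l 16219576) (a (l 16248512) (l 16289208))) (a (l 16254360) (l 16299728)))) (a (c (l 16050240) (a (l 16094728) (l 16103600))) (a (c (l 16108000) (l 16141992)) (l 15995088)))) (c (l 16027240) (l 16087240))) (a (l 15894336) (l 15807976))) (a (a (a (c (b (a (l 16111608) (l 16135760)) (a (l 16106240) (l 16064568))) (b (a (l 16038544) (l 16001072)) (a (l 16054240) (l 16074168)))) (c (l 16008016) (l 16070472))) (c (l 15931520) (l 15942152))) (a (l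 15789488) (l 15634000)))) (b (a (a (c (a (l 15972440) (l 15853624)) (a (c (l 15970592) (l 15973928)) (l 15888704))) (c (l 15761784) (l 15766168))) (a (l 15582304) (l 15476368))) (a (b (a (c (a (l 15873592) (l 15773072)) (a (c (l 15869120) (l 15870664)) (l 15783536))) (c (l 15677784) (l 15657376))) (b (a (c (a (l 15854656) (l 15744784)) (a (l 15809912) (l 15754320))) (c (l 15636624) (l 15614760))) (a (c (c (a (l 15824576) (l 15672168)) (a (l 15835296) (l 15728728))) (a (c (l 15835640) (l 15815728)) (l 15733320))) (c (a (l 15652304) (l 15567224)) (l 15584448))))) (b (a (l 15513616) (l 15363008)) (b (a (l 15456128) (l 15291984)) (a (c (l 15434952) (l 15394776)) (l 15241992))))))) (a (a (c (a (b (l 15522880) (l 15112912)) (b (l 15318840) (l 14948368))) (a (b (c (l 15573344) (l 15569480)) (l 14871768)) (b (l 15464536) (l 14970480)))) (c (b (l 15176200) (l 14824528)) (b (l 15310800) (l 14814312)))) (a (b (l 15016648) (c (a (l 14758872) (l 14761576)) (l 14710848))) (b (a (l 14909592)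 (l 15045032)) (l 14861696))))), by decide +kernel⟩

def k16_pp_022 : ∃ t, chk3 f_pp_022 t 18 10 1 = true :=
  ⟨(a (b (b (l 15614200) (b (l 15367848) (b (l 15261512) (b (l 15430328) (a (l 15268032) (l 15543824)))))) (a (b (l 15211600) (c (l 15160640) (l 14968776))) (c (b (l 15534616) (l 15442560)) (c (b (l 15355320) (l 15411072)) (l 15175400))))) (a (b (b (a (l 15859392) (c (l 15811888) (c (l 15939200) (c (l 15708560) (l 15815856))))) (b (c (l 15824056) (c (a (l 15761736) (l 15923128)) (c (l 15595736) (l 15824504)))) (b (c (l 15900568) (c (a (l 15795376) (l 15971360)) (b (l 15803576) (l 15861904)))) (b (c (l 15888504) (c (l 15853384) (l 15847152))) (c (l 15874848) (c (l 15813536) (l 15830088))))))) (c (b (l 15710768) (c (l 15758280) (l 15741800))) (b (c (b (l 15670632) (l 15817936)) (l 15779248)) (l 15711304)))) (b (b (c (c (l 16024752) (l 15993848)) (c (c (l 16113008) (a (l 16046488) (b (l 16173384) (l 16231648)))) (b (a (c (l 16020824) (l 16022104)) (l 15981416)) (c (l 16030168)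 (l 16113288))))) (b (c (c (l 16218296) (l 16210640)) (c (c (l 16204824) (l 16155600)) (l 16062104))) (c (c (l 16239000) (l 16231936)) (c (c (l 16234456) (b (l 16063808) (l 16203552))) (a (l 15913128) (l 16305920)))))) (c (c (l 16118552) (b (l 16169544) (l 16043272))) (b (c (l 16134760) (l 16087160)) (l 15896888)))))), by decide +kernel⟩

def k17_pp_022 : ∃ t, chk3 f_pp_022 t 19 10 1 = true :=
  ⟨(b (c (b (a (c (l 16394152) (a (l 16473392) (c (l 16425688) (l 16440280)))) (c (c (l 16145200) (l 16164344)) (a (c (l 16260968) (l 16261624)) (l 16052240)))) (b (a (c (l 16408216) (a (l 16516016) (c (l 16300576) (l 16318872)))) (c (c (l 16049120) (l 16041600)) (c (c (l 16052136) (l 16035480)) (l 16031280)))) (a (c (a (l 16509464) (l 16296888)) (a (c (l 16505600) (l 16498920)) (c (l 16309688) (l 16318008)))) (c (b (c (l 15981216) (l 15923608)) (l 15971288)) (l 16064504))))) (b (a (c (a (c (a (l 16382200) (l 16553192)) (a (l 16179192) (l 16325520))) (c (c (l 16453896) (l 16516048))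 (l 16437152))) (a (c (l 16283976) (l 16459136)) (l 16434376))) (l 16114088)) (a (a (c (b (c (c (l 16525144) (l 16535776)) (l 16435392)) (b (b (c (l 16499944) (l 16539496)) (l 16500760)) (l 16499560))) (l 16514808)) (l 16295320)) (b (l 16017104) (l 16048408))))) (a (c (b (c (a (l 16488680) (l 16412400)) (a (c (l 16489192) (l 16477456)) (c (l 16427728) (l 16413888)))) (a (c (l 16365024) (l 16292944)) (c (l 16521904) (l 16526064)))) (b (a (c (l 16321336) (l 16476728)) (l 16409056)) (l 16434984))) (c (c (a (b (l 16300288) (l 16486440)) (l 16253488)) (l 16307920)) (l 16277712)))), by decide +kernel⟩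

def k18_pp_022 : ∃ t, chk3 f_pp_022 t 5 10 1 = true :=
  ⟨(a (b (a (b (c (c (a (c (l 15799688) (l 15777608)) (l 15417352)) (l 15579704)) (l 15549792)) (c (b (l 15514888) (l 15522088)) (b (l 15472584) (l 15566904)))) (b (c (l 14935712) (l 14871696)) (c (b (l 14911408) (l 14918656)) (b (l 14845672) (l 15007368))))) (a (c (b (l 15725456) (l 16099896)) (b (l 15777528) (l 16078528))) (b (c (a (l 15460920) (l 15275648)) (l 15187736)) (c (l 15611712) (l 15724072))))) (b (a (a (b (c (l 14533720) (l 14454808)) (a (b (l 14558080) (l 14809504)) (l 14652776))) (l 14520480)) (l 14510872)) (l 15394752))), by decide +kernel⟩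

def k19_pp_022 : ∃ t, chk3 f_pp_022 t 2 11 1 = true :=
  ⟨(a (b (b (a (a (a (c (a (l 14653280) (l 14528736)) (a (l 14540432) (l 14490208))) (c (a (b (l 14564840) (l 14373576)) (b (l 14512368) (l 14421168))) (a (l 14410576) (l 14401648)))) (a (l 14563376) (l 14783672))) (a (c (a (a (l 15069120) (l 15378240)) (b (l 15619056) (l 15757336))) (a (l 15155904) (l 15734440))) (c (a (a (l 16188264) (l 16332568)) (l 16509056)) (l 16392128)))) (a (a (a (c (a (b (l 14317064) (a (l 14146792) (l 14102152))) (b (a (l 14218928) (l 14214176)) (l 14143824))) (a (b (l 14253232) (a (l 14059640) (l 14034376))) (b (l 14176984) (l 14089296)))) (c (l 14326952) (l 14252768))) (a (l 14497160) (a (l 14650544) (b (l 14774800) (l 14734952))))) (a (c (a (l 15112128) (l 15650776)) (a (l 15047216) (l 15605000))) (c (l 16087520) (l 16205064))))) (a (a (a (c (a (b (b (a (l 14048736) (l 14063624)) (l 14056056)) (l 14056056)) (l 14130952)) (a (c (l 13997952) (l 13962696)) (l 14075880))) (c (l 14297112) (l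 14221648))) (c (a (l 14494128) (l 14684416)) (l 14342224))) (a (c (b (l 15288896) (l 15309384)) (l 15256640)) (b (l 15934088) (l 16101312))))) (b (a (a (b (c (l 16411024) (l 16401128)) (c (l 16549424) (l 16543752))) (a (b (l 16216416) (l 16637416)) (l 16384784))) (l 16327312)) (a (c (l 16505744) (l 16496208)) (l 16745440)))), by decide +kernel⟩

def k20_pp_022 : ∃ t, chk3 f_pp_022 t 3 5 1 = true :=
  ⟨(b (b (b (l 14468040) (l 14692440)) (a (l 15409984) (l 2))) (a (b (l 16323968) (l 16776584)) (l 2))), by decide +kernel⟩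

def k21_pp_022 : ∃ t, chk3 f_pp_022 t 1 3 1 = true :=
  ⟨(a (a (a (b (a (c (b (a (l 14097408) (l 14297024)) (a (l 14097408) (l 14297024))) (b (a (l 13987984) (l 14221552)) (a (b (l 14029928) (l 14029928)) (l 14221552)))) (b (c (c (l 14605272) (l 14567416)) (l 14509832)) (c (l 14586696) (l 14509832)))) (a (a (b (c (l 14097408) (l 14029928)) (l 14066616)) (c (l 14297024) (l 14221552))) (b (l 14549544) (l 14549544)))) (b (a (b (c (l 15309384) (l 15256400)) (b (l 15286440) (l 15286440))) (b (l 16101312) (l 16101312))) (a (l 15223528) (l 16101312)))) (b (a (b (l 16500672) (l 16500672)) (l 16745168)) (a (l 16500672) (l 2)))) (b (b (a (l 16777216) (l 2)) (l 2)) (l 2))), by decide +kernel⟩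

theorem s22_pp_022 : ∃ t, chk3 f_pp_022 t 9 10 1 = true := ex3_a k16_pp_022 k17_pp_022

theorem s23_pp_022 : ∃ t, chk3 f_pp_022 t 4 10 1 = true := ex3_a k15_pp_022 s22_pp_022

theorem s24_pp_022 : ∃ t, chk3 f_pp_022 t 2 10 1 = true := ex3_a s23_pp_022 k18_pp_022

theorem s25_pp_022 : ∃ t, chk3 f_pp_022 t 2 5 1 = true := ex3_b s24_pp_022 k19_pp_022

theorem s26_pp_022 : ∃ t, chk3 f_pp_022 t 1 5 1 = true := ex3_a s25_pp_022 k20_pp_022

theorem s27_pp_022 : ∃ t, chk3 f_pp_022 t 9 19 1 = true := ex3_a k11_pp_022 k12_pp_022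

theorem s28_pp_022 : ∃ t, chk3 f_pp_022 t 9 9 1 = true := ex3_b k10_pp_022 s27_pp_022

theorem s29_pp_022 : ∃ t, chk3 f_pp_022 t 8 18 1 = true := ex3_a k7_pp_022 k8_pp_022

theorem s30_pp_022 : ∃ t, chk3 f_pp_022 t 8 9 1 = true := ex3_b s29_pp_022 k9_pp_022

theorem s31_pp_022 : ∃ t, chk3 f_pp_022 t 4 9 1 = true := ex3_a s30_pp_022 s28_pp_022

theorem s32_pp_022 : ∃ t, chk3 f_pp_022 t 2 9 1 = true := ex3_a s31_pp_022 k13_pp_022

theorem s33_pp_022 : ∃ t, chk3 f_pp_022 t 5 8 1 = true := ex3_a k5_pp_022 k6_pp_022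

theorem s34_pp_022 : ∃ t, chk3 f_pp_022 t 4 17 1 = true := ex3_a k3_pp_022 k4_pp_022

theorem s35_pp_022 : ∃ t, chk3 f_pp_022 t 9 16 1 = true := ex3_b k1_pp_022 k2_pp_022

theorem s36_pp_022 : ∃ t, chk3 f_pp_022 t 4 16 1 = true := ex3_a k0_pp_022 s35_pp_022

theorem s37_pp_022 : ∃ t, chk3 f_pp_022 t 4 8 1 = true := ex3_b s36_pp_022 s34_pp_022

theorem s38_pp_022 : ∃ t, chk3 f_pp_022 t 2 8 1 = true := ex3_a s37_pp_022 s33_pp_022

theorem s39_pp_022 : ∃ t, chk3 f_pp_022 t 2 4 1 = true := ex3_b s38_pp_022 s32_pp_022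

theorem s40_pp_022 : ∃ t, chk3 f_pp_022 t 1 4 1 = true := ex3_a s39_pp_022 k14_pp_022

theorem s41_pp_022 : ∃ t, chk3 f_pp_022 t 1 2 1 = true := ex3_b s40_pp_022 s26_pp_022

theorem s42_pp_022 : ∃ t, chk3 f_pp_022 t 1 1 1 = true := ex3_b s41_pp_022 k21_pp_022

theorem c_pp_022 : CertNX 0 536870912 1073741824 536870912 1046898278 26843546 3 false true true .pp 0 2 2
    ndN3q0 ndN5q2 pcN2 Cut.none Ext.none :=
  certNX1 (fam := false) (s1 := true) (s2 := true) (a := 0) (b := 2) (c := 2) (cn := .pp) (n1 := ndN3q0) (n2 := ndN5q2) (pc := pcN2) (cut := Cut.none) (xt := Ext.none) (P1 := 0) (W1 := 536870912) (P2 := 1073741824) (W2 := 536870912) (P3 := 1046898278) (W3 := 26843546) (N0 := 3)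
    rfl (fun _ => rfl) s42_pp_022

noncomputable def f_pp_023 : ℕ → ℕ → ℕ → ℕ → Bool := onCell 1073741824 536870912 0 1230186008 1046898278 26843546
    (rowNX 3 2 false true true .up 0 2 3 (qsf 0 536870912 0 1230186008 2) ndN3q0 ndN5q3 pcN2 Cut.none Ext.none)

def k0_pp_023 : ∃ t, chk3 f_pp_023 t 1 1 1 = true :=
  ⟨(a (b (l 2) (a (b (l 2) (b (l 2) (a (l 14954248) (l 14800632)))) (b (a (l 2) (a (l 2) (l 16400048))) (a (a (a (b (l 14549528) (l 14496888)) (b (l 14768592) (l 14713752))) (b (l 15468448) (l 15437832))) (a (b (l 16323944) (l 16330144)) (b (l 16753080) (l 16776584))))))) (b (a (l 2) (b (l 4) (b (l 4) (l 16730136)))) (b (a (a (l 16592176) (l 16770960)) (a (l 16777184) (l 16777184))) (b (a (l 16770168) (b (l 16765672) (a (l 16766248) (l 16626960)))) (a (b (l 16770752) (a (l 16762416) (b (l 16706912) (l 16579728)))) (b (a (l 16633832) (b (l 16421376) (a (l 16323424) (l 15637264)))) (a (b (l 16404384) (a (l 16250072) (b (l 15976920) (l 15466000)))) (b (a (l 15558320)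 (b (l 15248416) (l 14812760))) (a (b (l 15169680) (l 14735232)) (b (l 14486320) (a (l 14346832) (l 14176128)))))))))))), by decide +kernel⟩

theorem c_pp_023 : CertNX 0 536870912 0 1230186008 1046898278 26843546 3 false true true .up 0 2 3
    ndN3q0 ndN5q3 pcN2 Cut.none Ext.none :=
  certNX2 (fam := false) (s1 := true) (s2 := true) (a := 0) (b := 2) (c := 3) (cn := .up) (n1 := ndN3q0) (n2 := ndN5q3) (pc := pcN2) (cut := Cut.none) (xt := Ext.none) (P1 := 0) (W1 := 536870912) (P2 := 0) (W2 := 1230186008) (P3 := 1046898278) (W3 := 26843546) (N0 := 3)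
    rfl (fun _ => rfl) k0_pp_023

noncomputable def f_pp_033 : ℕ → ℕ → ℕ → ℕ → Bool := onCell 0 536870912 0 1230186008 1046898278 26843546
    (rowNX 3 0 false true true .pnn 0 3 3 (qsf 0 536870912 0 1230186008 3) ndN3q0 ndN5q3 pcN3 Cut.none Ext.none)

def k0_pp_033 : ∃ t, chk3 f_pp_033 t 1 1 1 = true :=
  ⟨(b (b (l 4) (a (l 4) (b (l 4) (a (a (l 4) (l 16730136)) (a (l 16730136) (l 16730136)))))) (b (a (b (b (a (l 4) (a (l 4) (l 16745152))) (a (a (b (l 4) (a (c (l 14194184) (l 14127800)) (l 14549472))) (a (b (l 4) (l 15286376)) (l 16101240))) (a (l 16500592) (l 16745088)))) (a (a (b (a (c (l 14194216) (l 14127832)) (l 14549512)) (a (c (l 14194240) (l 14127872)) (l 14549544))) (a (b (l 15286408) (l 15286440)) (b (l 16101280) (l 16101312)))) (a (b (l 16500640) (l 16500672)) (l 16745152)))) (a (b (a (l 16777168) (l 16777168)) (l 16777200)) (b (l 16777168) (l 1)))) (a (a (b (a (b (a (a (l 14066616) (l 14250104)) (l 14549544)) (a (l 14163584) (l 14549544))) (a (l 15118672) (l 16101312)))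 (a (a (b (l 14016784) (a (l 13856904) (l 14250104))) (b (l 14549544) (l 14549544))) (a (l 15286440) (l 16101312)))) (b (a (l 16500672) (l 16745168)) (a (l 16500672) (l 1)))) (l 1)))), by decide +kernel⟩

theorem c_pp_033 : CertNX 0 536870912 0 1230186008 1046898278 26843546 3 false true true .pnn 0 3 3
    ndN3q0 ndN5q3 pcN3 Cut.none Ext.none :=
  certNX0 (fam := false) (s1 := true) (s2 := true) (a := 0) (b := 3) (c := 3) (cn := .pnn) (n1 := ndN3q0) (n2 := ndN5q3) (pc := pcN3) (cut := Cut.none) (xt := Ext.none) (P1 := 0) (W1 := 536870912) (P2 := 0) (W2 := 1230186008) (P3 := 1046898278) (W3 := 26843546) (N0 := 3)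
    rfl k0_pp_033

noncomputable def f_pp_101 : ℕ → ℕ → ℕ → ℕ → Bool := onCell 536870912 536870912 536870912 469762048 1046898278 26843546
    (rowNX 3 0 false true true .npn 1 0 1 (qsf 536870912 536870912 536870912 469762048 0) ndN3q1 ndN5q1 pcN0 Cut.none Ext.none)

def k0_pp_101 : ∃ t, chk3 f_pp_101 t 1 1 1 = true :=
  ⟨(l 3), by decide +kernel⟩

theorem c_pp_101 : CertNX 536870912 536870912 536870912 469762048 1046898278 26843546 3 false true true .npn 1 0 1
    ndN3q1 ndN5q1 pcN0 Cut.none Ext.none :=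
  certNX0 (fam := false) (s1 := true) (s2 := true) (a := 1) (b := 0) (c := 1) (cn := .npn) (n1 := ndN3q1) (n2 := ndN5q1) (pc := pcN0) (cut := Cut.none) (xt := Ext.none) (P1 := 536870912) (W1 := 536870912) (P2 := 536870912) (W2 := 469762048) (P3 := 1046898278) (W3 := 26843546) (N0 := 3)
    rfl k0_pp_101

noncomputable def f_pp_102 : ℕ → ℕ → ℕ → ℕ → Bool := onCell 536870912 536870912 0 536870912 1046898278 26843546
    (rowNX 3 1 false true true .npp 1 0 2 (qsf 536870912 536870912 1073741824 536870912 0) ndN3q1 ndN5q2 pcN0 Cut.none Ext.none)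

def k0_pp_102 : ∃ t, chk3 f_pp_102 t 1 1 1 = true :=
  ⟨(b (l 3) (a (l 3) (b (l 3) (a (a (l 3) (b (l 3) (a (l 16213288) (b (l 15674520) (l 15674520))))) (a (b (a (l 3) (l 292219960295)) (a (b (l 14817032) (l 14817032)) (l 14234872))) (a (b (c (l 266985895735) (l 13621504)) (c (l 13669032) (l 13621504))) (b (c (a (l 13038704) (l 12718256)) (a (l 13062960) (l 265373193223))) (c (a (l 13038704) (l 12718256)) (a (l 13062960) (l 12676576)))))))))), by decide +kernel⟩

theorem c_pp_102 : CertNX 536870912 536870912 1073741824 536870912 1046898278 26843546 3 false true true .npp 1 0 2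
    ndN3q1 ndN5q2 pcN0 Cut.none Ext.none :=
  certNX1 (fam := false) (s1 := true) (s2 := true) (a := 1) (b := 0) (c := 2) (cn := .npp) (n1 := ndN3q1) (n2 := ndN5q2) (pc := pcN0) (cut := Cut.none) (xt := Ext.none) (P1 := 536870912) (W1 := 536870912) (P2 := 1073741824) (W2 := 536870912) (P3 := 1046898278) (W3 := 26843546) (N0 := 3)
    rfl (fun _ => rfl) k0_pp_102

noncomputable def f_pp_112 : ℕ → ℕ → ℕ → ℕ → Bool := onCell 536870912 536870912 1073741824 536870912 1046898278 26843546
    (rowNX 3 2 false true true .dn 1 1 2 (qsf 536870912 536870912 1073741824 536870912 1) ndN3q1 ndN5q2 pcN1 Cut.none Ext.none)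

def k0_pp_112 : ∃ t, chk3 f_pp_112 t 1 1 1 = true :=
  ⟨(a (b (b (l 3) (a (l 3) (b (l 3) (b (a (l 3) (l 16179104)) (a (l 16776552) (l 16776552)))))) (a (b (a (b (a (l 16716600) (l 16777128)) (a (b (l 16404136) (a (l 15677312) (l 16102848))) (l 16449720))) (a (b (l 16777216) (l 16716600)) (l 16777168))) (a (b (a (b (a (l 15038408) (l 15464072)) (a (l 14389008) (l 14661352))) (b (a (l 15740232) (l 16102848)) (a (l 15038408) (l 15464072)))) (a (b (c (l 13968640) (l 13910376)) (a (c (l 13085680) (l 13066432)) (c (l 13457224) (l 13419928)))) (b (l 14529096) (l 13761368)))) (b (a (b (l 16404136) (a (l 15803144) (l 16102848))) (l 16533608)) (a (b (a (l 15038408) (l 15464072)) (l 14529096)) (b (a (l 15824112) (l 16102848)) (l 15187248)))))) (b (a (l 16777216) (l 16777216)) (a (b (l 16732776) (a (b (l 16404136) (l 15948944)) (l 16533608))) (b (l 16777216) (l 16732776)))))) (a (b (b (l 1) (b (l 1) (b (l 1) (a (l 16773704) (l 1))))) (a (b (l 16768552) (l 16761112)) (a (b (l 16717272)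 (l 16675128)) (b (l 324839720311) (l 16568120))))) (b (l 1) (b (a (a (l 16316016) (l 1)) (l 1)) (a (l 16101888) (l 15418536)))))), by decide +kernel⟩

theorem c_pp_112 : CertNX 536870912 536870912 1073741824 536870912 1046898278 26843546 3 false true true .dn 1 1 2
    ndN3q1 ndN5q2 pcN1 Cut.none Ext.none :=
  certNX2 (fam := false) (s1 := true) (s2 := true) (a := 1) (b := 1) (c := 2) (cn := .dn) (n1 := ndN3q1) (n2 := ndN5q2) (pc := pcN1) (cut := Cut.none) (xt := Ext.none) (P1 := 536870912) (W1 := 536870912) (P2 := 1073741824) (W2 := 536870912) (P3 := 1046898278) (W3 := 26843546) (N0 := 3)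
    rfl (fun _ => rfl) k0_pp_112

noncomputable def f_pp_113 : ℕ → ℕ → ℕ → ℕ → Bool := onCell 536870912 536870912 0 1230186008 1046898278 26843546
    (rowNX 3 0 false true true .nn 1 1 3 (qsf 536870912 536870912 0 1230186008 1) ndN3q1 ndN5q3 pcN1 Cut.none Ext.none)

def k0_pp_113 : ∃ t, chk3 f_pp_113 t 1 2 1 = true :=
  ⟨(a (l 2) (a (l 2) (a (b (l 2) (b (a (l 2) (l 11674776)) (b (a (l 2) (l 11745712)) (a (l 12038304) (l 12017096))))) (a (b (l 2) (b (b (l 12052232) (l 11679560)) (b (l 11714664) (l 11963056)))) (b (b (b (c (l 16690848) (l 16573512)) (l 16704872)) (a (l 14939928) (l 14935600))) (b (b (a (l 12059296) (l 11832248)) (a (l 11471664) (l 11293272))) (b (l 11370784) (l 11598496)))))))), by decide +kernel⟩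

def k1_pp_113 : ∃ t, chk3 f_pp_113 t 1 3 1 = true :=
  ⟨(b (a (a (l 2) (b (l 2) (a (l 2) (b (l 2) (l 13874024))))) (a (b (a (l 2) (b (a (l 2) (l 12777760)) (a (l 13416304) (l 13399856)))) (a (b (l 13917680) (b (l 14493872) (l 14939080))) (b (a (l 14168400) (l 14149720)) (a (l 14967392) (l 14867776))))) (b (a (b (a (l 12505432) (l 12495840)) (l 13153976)) (a (l 12606984) (b (l 11988640) (l 12432656)))) (a (b (l 13769792) (a (l 14348280) (l 13988504))) (a (b (l 13281272) (l 13526440)) (b (l 12721288) (a (l 12981024) (l 12697448)))))))) (a (b (a (l 2) (b (a (a (l 2) (l 14098416)) (b (l 14545464) (l 14938896))) (a (b (l 14505344) (l 14914344)) (l 15431936)))) (b (a (a (l 2) (b (l 14533248) (l 14970544))) (a (l 15319256) (b (l 16069248) (l 16379216)))) (a (a (b (l 14655776) (l 15117304)) (b (l 15406088) (l 15840320))) (a (b (l 16125704) (l 16446608)) (b (l 16601168) (l 16716608)))))) (b (a (a (b (l 15479688) (a (l 16079576) (l 16195856))) (b (a (l 15616040) (l 15352128)) (a (l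 16028416) (l 15599008)))) (a (b (a (l 14665168) (l 14178952)) (a (l 14798424) (l 14234848))) (a (b (l 13626512) (l 13634512)) (a (l 13016312) (l 12707432))))) (b (a (a (a (l 16578976) (l 16508200)) (a (l 16190232) (l 15673600))) (a (l 14592016) (a (l 13634512) (a (l 13016312) (l 12707432))))) (a (a (l 16669936) (a (l 16213288) (l 15674520))) (a (b (l 14592016) (l 14592016)) (a (b (l 13634512) (c (l 13669032) (l 13621504))) (b (l 12704368) (c (l 12893992) (l 12851648)))))))))), by decide +kernel⟩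

theorem s2_pp_113 : ∃ t, chk3 f_pp_113 t 1 1 1 = true := ex3_b k0_pp_113 k1_pp_113

theorem c_pp_113 : CertNX 536870912 536870912 0 1230186008 1046898278 26843546 3 false true true .nn 1 1 3
    ndN3q1 ndN5q3 pcN1 Cut.none Ext.none :=
  certNX0 (fam := false) (s1 := true) (s2 := true) (a := 1) (b := 1) (c := 3) (cn := .nn) (n1 := ndN3q1) (n2 := ndN5q3) (pc := pcN1) (cut := Cut.none) (xt := Ext.none) (P1 := 536870912) (W1 := 536870912) (P2 := 0) (W2 := 1230186008) (P3 := 1046898278) (W3 := 26843546) (N0 := 3)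
    rfl s2_pp_113

noncomputable def f_pp_123 : ℕ → ℕ → ℕ → ℕ → Bool := onCell 1073741824 536870912 0 1230186008 1046898278 26843546
    (rowNX 3 2 false true true .npn 1 2 3 (qsf 536870912 536870912 0 1230186008 2) ndN3q1 ndN5q3 pcN2 Cut.none Ext.none)

def k0_pp_123 : ∃ t, chk3 f_pp_123 t 1 1 1 = true :=
  ⟨(a (b (a (b (a (a (c (b (l 16682536) (l 15201112)) (b (a (l 15156968) (l 15786424)) (c (l 14043360) (l 13258736)))) (c (b (l 16210168) (l 15260000)) (l 13555400))) (a (b (l 4) (l 15215616)) (b (l 4) (l 15080312)))) (a (b (a (c (l 14265152) (l 13535624)) (c (l 14167808) (l 13732416))) (a (c (l 12901880) (b (l 12196624) (l 12394456))) (c (b (l 13768528) (l 13724776)) (l 13433680)))) (b (a (a (l 14338224) (l 14435368)) (l 14451024)) (a (b (l 14080448) (l 14040176)) (l 14201872))))) (b (a (b (l 4) (a (l 15160176) (l 15379768))) (l 4)) (b (a (a (l 14763992) (l 15198048)) (l 15718928)) (a (a (l 14573680) (l 15199744)) (l 15889496))))) (a (b (a (b (a (b (c (l 13224848) (l 12935816))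 (l 13590448)) (b (l 13758960) (l 14058376))) (b (l 14200448) (l 14468968))) (b (a (l 14247704) (l 14306216)) (l 14580784))) (b (a (l 14700840) (l 14791840)) (a (l 14954248) (l 14800632)))) (b (a (a (l 14596824) (l 15326816)) (a (l 16010272) (l 16400048))) (a (a (a (l 614208918743) (l 620651746951)) (b (l 15468448) (l 1))) (a (l 624949849671) (l 652332100343)))))) (b (b (l 4) (a (a (l 16392912) (l 16707352)) (b (l 4) (l 16730136)))) (b (a (a (l 16592176) (l 16770960)) (l 16777184)) (l 1)))), by decide +kernel⟩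

theorem c_pp_123 : CertNX 536870912 536870912 0 1230186008 1046898278 26843546 3 false true true .npn 1 2 3
    ndN3q1 ndN5q3 pcN2 Cut.none Ext.none :=
  certNX2 (fam := false) (s1 := true) (s2 := true) (a := 1) (b := 2) (c := 3) (cn := .npn) (n1 := ndN3q1) (n2 := ndN5q3) (pc := pcN2) (cut := Cut.none) (xt := Ext.none) (P1 := 536870912) (W1 := 536870912) (P2 := 0) (W2 := 1230186008) (P3 := 1046898278) (W3 := 26843546) (N0 := 3)
    rfl (fun _ => rfl) k0_pp_123

noncomputable def f_pp_133 : ℕ → ℕ → ℕ → ℕ → Bool := onCell 1610612736 536870912 0 1230186008 1046898278 26843546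
    (rowNX 3 2 false true true .dn 1 3 3 (qsf 536870912 536870912 0 1230186008 3) ndN3q1 ndN5q3 pcN3 Cut.none Ext.none)

def k0_pp_133 : ∃ t, chk3 f_pp_133 t 1 1 1 = true :=
  ⟨(b (b (l 4) (l 1)) (l 1)), by decide +kernel⟩

theorem c_pp_133 : CertNX 536870912 536870912 0 1230186008 1046898278 26843546 3 false true true .dn 1 3 3
    ndN3q1 ndN5q3 pcN3 Cut.none Ext.none :=
  certNX2 (fam := false) (s1 := true) (s2 := true) (a := 1) (b := 3) (c := 3) (cn := .dn) (n1 := ndN3q1) (n2 := ndN5q3) (pc := pcN3) (cut := Cut.none) (xt := Ext.none) (P1 := 536870912) (W1 := 536870912) (P2 := 0) (W2 := 1230186008) (P3 := 1046898278) (W3 := 26843546) (N0 := 3)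
    rfl (fun _ => rfl) k0_pp_133

noncomputable def f_pp_202 : ℕ → ℕ → ℕ → ℕ → Bool := onCell 1073741824 536870912 1073741824 536870912 1046898278 26843546
    (rowNX 3 0 false true true .pp 2 0 2 (qsf 1073741824 536870912 1073741824 536870912 0) ndN3q2 ndN5q2 pcN0 Cut.none Ext.none)

def k0_pp_202 : ∃ t, chk3 f_pp_202 t 1 1 1 = true :=
  ⟨(l 3), by decide +kernel⟩

theorem c_pp_202 : CertNX 1073741824 536870912 1073741824 536870912 1046898278 26843546 3 false true true .pp 2 0 2
    ndN3q2 ndN5q2 pcN0 Cut.none Ext.none :=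
  certNX0 (fam := false) (s1 := true) (s2 := true) (a := 2) (b := 0) (c := 2) (cn := .pp) (n1 := ndN3q2) (n2 := ndN5q2) (pc := pcN0) (cut := Cut.none) (xt := Ext.none) (P1 := 1073741824) (W1 := 536870912) (P2 := 1073741824) (W2 := 536870912) (P3 := 1046898278) (W3 := 26843546) (N0 := 3)
    rfl k0_pp_202

noncomputable def f_pp_203 : ℕ → ℕ → ℕ → ℕ → Bool := onCell 0 536870912 0 1230186008 1046898278 26843546
    (rowNX 3 2 false true true .up 2 0 3 (qsf 1073741824 536870912 0 1230186008 0) ndN3q2 ndN5q3 pcN0 Cut.none Ext.none)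

def k0_pp_203 : ∃ t, chk3 f_pp_203 t 1 1 1 = true :=
  ⟨(b (l 3) (l 3)), by decide +kernel⟩

theorem c_pp_203 : CertNX 1073741824 536870912 0 1230186008 1046898278 26843546 3 false true true .up 2 0 3
    ndN3q2 ndN5q3 pcN0 Cut.none Ext.none :=
  certNX2 (fam := false) (s1 := true) (s2 := true) (a := 2) (b := 0) (c := 3) (cn := .up) (n1 := ndN3q2) (n2 := ndN5q3) (pc := pcN0) (cut := Cut.none) (xt := Ext.none) (P1 := 1073741824) (W1 := 536870912) (P2 := 0) (W2 := 1230186008) (P3 := 1046898278) (W3 := 26843546) (N0 := 3)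
    rfl (fun _ => rfl) k0_pp_203

noncomputable def cut_pp_213 : Cut := Cut.of [[⟨0, 1, 0, 67108864⟩, ⟨1, 1, 0, 67108864⟩, ⟨2, 2, 0, 67108864⟩, ⟨3, 0, 0, 1233125376⟩]]

noncomputable def f_pp_213 : ℕ → ℕ → ℕ → ℕ → Bool := onCell 536870912 536870912 0 1230186008 1046898278 26843546
    (rowNX 3 2 false true true .pnn 2 1 3 (qsf 1073741824 536870912 0 1230186008 1) ndN3q2 ndN5q3 pcN1 cut_pp_213 Ext.none)

def k0_pp_213 : ∃ t, chk3 f_pp_213 t 1 1 1 = true :=
  ⟨(b (a (l 3) (a (l 3) (a (l 3) (b (a (l 3) (l 6)) (l 3))))) (l 3)), by decide +kernel⟩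

theorem c_pp_213 : CertNX 1073741824 536870912 0 1230186008 1046898278 26843546 3 false true true .pnn 2 1 3
    ndN3q2 ndN5q3 pcN1 cut_pp_213 Ext.none :=
  certNX2 (fam := false) (s1 := true) (s2 := true) (a := 2) (b := 1) (c := 3) (cn := .pnn) (n1 := ndN3q2) (n2 := ndN5q3) (pc := pcN1) (cut := cut_pp_213) (xt := Ext.none) (P1 := 1073741824) (W1 := 536870912) (P2 := 0) (W2 := 1230186008) (P3 := 1046898278) (W3 := 26843546) (N0 := 3)
    rfl (fun _ => rfl) k0_pp_213

noncomputable def f_pp_303 : ℕ → ℕ → ℕ → ℕ → Bool := onCell 1610612736 536870912 0 1230186008 1046898278 26843546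
    (rowNX 3 0 false true true .npn 3 0 3 (qsf 1610612736 536870912 0 1230186008 0) ndN3q3 ndN5q3 pcN0 Cut.none Ext.none)

def k0_pp_303 : ∃ t, chk3 f_pp_303 t 1 1 1 = true :=
  ⟨(b (l 3) (l 3)), by decide +kernel⟩

theorem c_pp_303 : CertNX 1610612736 536870912 0 1230186008 1046898278 26843546 3 false true true .npn 3 0 3
    ndN3q3 ndN5q3 pcN0 Cut.none Ext.none :=
  certNX0 (fam := false) (s1 := true) (s2 := true) (a := 3) (b := 0) (c := 3) (cn := .npn) (n1 := ndN3q3) (n2 := ndN5q3) (pc := pcN0) (cut := Cut.none) (xt := Ext.none) (P1 := 1610612736) (W1 := 536870912) (P2 := 0) (W2 := 1230186008) (P3 := 1046898278) (W3 := 26843546) (N0 := 3)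
    rfl k0_pp_303

noncomputable def f_pp_313 : ℕ → ℕ → ℕ → ℕ → Bool := onCell 1610612736 536870912 0 1230186008 1046898278 26843546
    (rowNX 3 0 false true true .dn 3 1 3 (qsf 1610612736 536870912 0 1230186008 1) ndN3q3 ndN5q3 pcN1 Cut.none Ext.none)

def k0_pp_313 : ∃ t, chk3 f_pp_313 t 1 1 1 = true :=
  ⟨(b (l 3) (l 1)), by decide +kernel⟩

theorem c_pp_313 : CertNX 1610612736 536870912 0 1230186008 1046898278 26843546 3 false true true .dn 3 1 3
    ndN3q3 ndN5q3 pcN1 Cut.none Ext.none :=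
  certNX0 (fam := false) (s1 := true) (s2 := true) (a := 3) (b := 1) (c := 3) (cn := .dn) (n1 := ndN3q3) (n2 := ndN5q3) (pc := pcN1) (cut := Cut.none) (xt := Ext.none) (P1 := 1610612736) (W1 := 536870912) (P2 := 0) (W2 := 1230186008) (P3 := 1046898278) (W3 := 26843546) (N0 := 3)
    rfl k0_pp_313

noncomputable def f_pm_001 : ℕ → ℕ → ℕ → ℕ → Bool := onCell 0 536870912 536870912 469762048 1046898278 26843546
    (rowNX 3 0 false true false .up 0 0 1 (qsf 0 536870912 536870912 469762048 0) ndN3q0 ndN5q1 pcN0 Cut.none Ext.none)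

def k0_pm_001 : ∃ t, chk3 f_pm_001 t 1 1 1 = true :=
  ⟨(l 4), by decide +kernel⟩

theorem c_pm_001 : CertNX 0 536870912 536870912 469762048 1046898278 26843546 3 false true false .up 0 0 1
    ndN3q0 ndN5q1 pcN0 Cut.none Ext.none :=
  certNX0 (fam := false) (s1 := true) (s2 := false) (a := 0) (b := 0) (c := 1) (cn := .up) (n1 := ndN3q0) (n2 := ndN5q1) (pc := pcN0) (cut := Cut.none) (xt := Ext.none) (P1 := 0) (W1 := 536870912) (P2 := 536870912) (W2 := 469762048) (P3 := 1046898278) (W3 := 26843546) (N0 := 3)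
    rfl k0_pm_001

noncomputable def f_pm_011 : ℕ → ℕ → ℕ → ℕ → Bool := onCell 0 536870912 536870912 469762048 1046898278 26843546
    (rowNX 3 0 false true false .pnn 0 1 1 (qsf 0 536870912 536870912 469762048 1) ndN3q0 ndN5q1 pcN1 Cut.none Ext.none)

def k0_pm_011 : ∃ t, chk3 f_pm_011 t 1 1 1 = true :=
  ⟨(l 4), by decide +kernel⟩

theorem c_pm_011 : CertNX 0 536870912 536870912 469762048 1046898278 26843546 3 false true false .pnn 0 1 1
    ndN3q0 ndN5q1 pcN1 Cut.none Ext.none :=
  certNX0 (fam := false) (s1 := true) (s2 := false) (a := 0) (b := 1) (c := 1) (cn := .pnn) (n1 := ndN3q0) (n2 := ndN5q1) (pc := pcN1) (cut := Cut.none) (xt := Ext.none) (P1 := 0) (W1 := 536870912) (P2 := 536870912) (W2 := 469762048) (P3 := 1046898278) (W3 := 26843546) (N0 := 3)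
    rfl k0_pm_011

noncomputable def f_pm_012 : ℕ → ℕ → ℕ → ℕ → Bool := onCell 0 536870912 1073741824 536870912 1046898278 26843546
    (rowNX 3 0 false true false .pnp 0 1 2 (qsf 0 536870912 1073741824 536870912 1) ndN3q0 ndN5q2 pcN1 Cut.none Ext.none)

def k0_pm_012 : ∃ t, chk3 f_pm_012 t 1 1 1 = true :=
  ⟨(l 4), by decide +kernel⟩

theorem c_pm_012 : CertNX 0 536870912 1073741824 536870912 1046898278 26843546 3 false true false .pnp 0 1 2
    ndN3q0 ndN5q2 pcN1 Cut.none Ext.none :=
  certNX0 (fam := false) (s1 := true) (s2 := false) (a := 0) (b := 1) (c := 2) (cn := .pnp) (n1 := ndN3q0) (n2 := ndN5q2) (pc := pcN1) (cut := Cut.none) (xt := Ext.none) (P1 := 0) (W1 := 536870912) (P2 := 1073741824) (W2 := 536870912) (P3 := 1046898278) (W3 := 26843546) (N0 := 3)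
    rfl k0_pm_012

noncomputable def f_pm_022 : ℕ → ℕ → ℕ → ℕ → Bool := onCell 0 536870912 1073741824 536870912 1046898278 26843546
    (rowNX 3 0 false true false .pp 0 2 2 (qsf 0 536870912 1073741824 536870912 2) ndN3q0 ndN5q2 pcN2 Cut.none Ext.none)

def k0_pm_022 : ∃ t, chk3 f_pm_022 t 1 1 1 = true :=
  ⟨(l 4), by decide +kernel⟩

theorem c_pm_022 : CertNX 0 536870912 1073741824 536870912 1046898278 26843546 3 false true false .pp 0 2 2
    ndN3q0 ndN5q2 pcN2 Cut.none Ext.none :=
  certNX0 (fam := false) (s1 := true) (s2 := false) (a := 0) (b := 2) (c := 2) (cn := .pp) (n1 := ndN3q0) (n2 := ndN5q2) (pc := pcN2) (cut := Cut.none) (xt := Ext.none) (P1 := 0) (W1 := 536870912) (P2 := 1073741824) (W2 := 536870912) (P3 := 1046898278) (W3 := 26843546) (N0 := 3)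
    rfl k0_pm_022

noncomputable def f_pm_023 : ℕ → ℕ → ℕ → ℕ → Bool := onCell 0 536870912 0 1230186008 1046898278 26843546
    (rowNX 3 0 false true false .up 0 2 3 (qsf 0 536870912 0 1230186008 2) ndN3q0 ndN5q3 pcN2 Cut.none Ext.none)

def k0_pm_023 : ∃ t, chk3 f_pm_023 t 1 1 1 = true :=
  ⟨(b (l 4) (l 4)), by decide +kernel⟩

theorem c_pm_023 : CertNX 0 536870912 0 1230186008 1046898278 26843546 3 false true false .up 0 2 3
    ndN3q0 ndN5q3 pcN2 Cut.none Ext.none :=
  certNX0 (fam := false) (s1 := true) (s2 := false) (a := 0) (b := 2) (c := 3) (cn := .up) (n1 := ndN3q0) (n2 := ndN5q3) (pc := pcN2) (cut := Cut.none) (xt := Ext.none) (P1 := 0) (W1 := 536870912) (P2 := 0) (W2 := 1230186008) (P3 := 1046898278) (W3 := 26843546) (N0 := 3)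
    rfl k0_pm_023

noncomputable def f_pm_033 : ℕ → ℕ → ℕ → ℕ → Bool := onCell 0 536870912 0 1230186008 1046898278 26843546
    (rowNX 3 0 false true false .pnn 0 3 3 (qsf 0 536870912 0 1230186008 3) ndN3q0 ndN5q3 pcN3 Cut.none Ext.none)

def k0_pm_033 : ∃ t, chk3 f_pm_033 t 1 1 1 = true :=
  ⟨(b (l 4) (l 4)), by decide +kernel⟩

theorem c_pm_033 : CertNX 0 536870912 0 1230186008 1046898278 26843546 3 false true false .pnn 0 3 3
    ndN3q0 ndN5q3 pcN3 Cut.none Ext.none :=
  certNX0 (fam := false) (s1 := true) (s2 := false) (a := 0) (b := 3) (c := 3) (cn := .pnn) (n1 := ndN3q0) (n2 := ndN5q3) (pc := pcN3) (cut := Cut.none) (xt := Ext.none) (P1 := 0) (W1 := 536870912) (P2 := 0) (W2 := 1230186008) (P3 := 1046898278) (W3 := 26843546) (N0 := 3)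
    rfl k0_pm_033

noncomputable def f_pm_101 : ℕ → ℕ → ℕ → ℕ → Bool := onCell 536870912 536870912 536870912 469762048 1046898278 26843546
    (rowNX 3 0 false true false .npn 1 0 1 (qsf 536870912 536870912 536870912 469762048 0) ndN3q1 ndN5q1 pcN0 Cut.none Ext.none)

def k0_pm_101 : ∃ t, chk3 f_pm_101 t 1 1 1 = true :=
  ⟨(l 4), by decide +kernel⟩

theorem c_pm_101 : CertNX 536870912 536870912 536870912 469762048 1046898278 26843546 3 false true false .npn 1 0 1
    ndN3q1 ndN5q1 pcN0 Cut.none Ext.none :=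
  certNX0 (fam := false) (s1 := true) (s2 := false) (a := 1) (b := 0) (c := 1) (cn := .npn) (n1 := ndN3q1) (n2 := ndN5q1) (pc := pcN0) (cut := Cut.none) (xt := Ext.none) (P1 := 536870912) (W1 := 536870912) (P2 := 536870912) (W2 := 469762048) (P3 := 1046898278) (W3 := 26843546) (N0 := 3)
    rfl k0_pm_101

noncomputable def f_pm_102 : ℕ → ℕ → ℕ → ℕ → Bool := onCell 536870912 536870912 1073741824 536870912 1046898278 26843546
    (rowNX 3 0 false true false .npp 1 0 2 (qsf 536870912 536870912 1073741824 536870912 0) ndN3q1 ndN5q2 pcN0 Cut.none Ext.none)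

def k0_pm_102 : ∃ t, chk3 f_pm_102 t 1 1 1 = true :=
  ⟨(l 4), by decide +kernel⟩

theorem c_pm_102 : CertNX 536870912 536870912 1073741824 536870912 1046898278 26843546 3 false true false .npp 1 0 2
    ndN3q1 ndN5q2 pcN0 Cut.none Ext.none :=
  certNX0 (fam := false) (s1 := true) (s2 := false) (a := 1) (b := 0) (c := 2) (cn := .npp) (n1 := ndN3q1) (n2 := ndN5q2) (pc := pcN0) (cut := Cut.none) (xt := Ext.none) (P1 := 536870912) (W1 := 536870912) (P2 := 1073741824) (W2 := 536870912) (P3 := 1046898278) (W3 := 26843546) (N0 := 3)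
    rfl k0_pm_102

noncomputable def f_pm_112 : ℕ → ℕ → ℕ → ℕ → Bool := onCell 536870912 536870912 1073741824 536870912 1046898278 26843546
    (rowNX 3 0 false true false .dn 1 1 2 (qsf 536870912 536870912 1073741824 536870912 1) ndN3q1 ndN5q2 pcN1 Cut.none Ext.none)

def k0_pm_112 : ∃ t, chk3 f_pm_112 t 1 1 1 = true :=
  ⟨(l 4), by decide +kernel⟩

theorem c_pm_112 : CertNX 536870912 536870912 1073741824 536870912 1046898278 26843546 3 false true false .dn 1 1 2
    ndN3q1 ndN5q2 pcN1 Cut.none Ext.none :=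
  certNX0 (fam := false) (s1 := true) (s2 := false) (a := 1) (b := 1) (c := 2) (cn := .dn) (n1 := ndN3q1) (n2 := ndN5q2) (pc := pcN1) (cut := Cut.none) (xt := Ext.none) (P1 := 536870912) (W1 := 536870912) (P2 := 1073741824) (W2 := 536870912) (P3 := 1046898278) (W3 := 26843546) (N0 := 3)
    rfl k0_pm_112

noncomputable def f_pm_113 : ℕ → ℕ → ℕ → ℕ → Bool := onCell 536870912 536870912 0 1230186008 1046898278 26843546
    (rowNX 3 0 false true false .nn 1 1 3 (qsf 536870912 536870912 0 1230186008 1) ndN3q1 ndN5q3 pcN1 Cut.none Ext.none)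

def k0_pm_113 : ∃ t, chk3 f_pm_113 t 1 1 1 = true :=
  ⟨(b (a (l 2) (b (a (l 2) (a (l 2) (a (l 2) (b (a (l 2) (b (l 16744904) (l 4))) (l 4))))) (l 4))) (l 4)), by decide +kernel⟩

theorem c_pm_113 : CertNX 536870912 536870912 0 1230186008 1046898278 26843546 3 false true false .nn 1 1 3
    ndN3q1 ndN5q3 pcN1 Cut.none Ext.none :=
  certNX0 (fam := false) (s1 := true) (s2 := false) (a := 1) (b := 1) (c := 3) (cn := .nn) (n1 := ndN3q1) (n2 := ndN5q3) (pc := pcN1) (cut := Cut.none) (xt := Ext.none) (P1 := 536870912) (W1 := 536870912) (P2 := 0) (W2 := 1230186008) (P3 := 1046898278) (W3 := 26843546) (N0 := 3)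
    rfl k0_pm_113

noncomputable def f_pm_123 : ℕ → ℕ → ℕ → ℕ → Bool := onCell 536870912 536870912 0 1230186008 1046898278 26843546
    (rowNX 3 0 false true false .npn 1 2 3 (qsf 536870912 536870912 0 1230186008 2) ndN3q1 ndN5q3 pcN2 Cut.none Ext.none)

def k0_pm_123 : ∃ t, chk3 f_pm_123 t 1 1 1 = true :=
  ⟨(b (a (l 4) (b (a (l 4) (a (l 4) (b (a (l 4) (c (l 16716952) (a (l 4) (l 15952544)))) (l 4)))) (l 4))) (l 4)), by decide +kernel⟩

theorem c_pm_123 : CertNX 536870912 536870912 0 1230186008 1046898278 26843546 3 false true false .npn 1 2 3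
    ndN3q1 ndN5q3 pcN2 Cut.none Ext.none :=
  certNX0 (fam := false) (s1 := true) (s2 := false) (a := 1) (b := 2) (c := 3) (cn := .npn) (n1 := ndN3q1) (n2 := ndN5q3) (pc := pcN2) (cut := Cut.none) (xt := Ext.none) (P1 := 536870912) (W1 := 536870912) (P2 := 0) (W2 := 1230186008) (P3 := 1046898278) (W3 := 26843546) (N0 := 3)
    rfl k0_pm_123

noncomputable def f_pm_133 : ℕ → ℕ → ℕ → ℕ → Bool := onCell 536870912 536870912 0 1230186008 1046898278 26843546
    (rowNX 3 0 false true false .dn 1 3 3 (qsf 536870912 536870912 0 1230186008 3) ndN3q1 ndN5q3 pcN3 Cut.none Ext.none)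

def k0_pm_133 : ∃ t, chk3 f_pm_133 t 1 1 1 = true :=
  ⟨(b (a (l 4) (l 1)) (l 1)), by decide +kernel⟩

theorem c_pm_133 : CertNX 536870912 536870912 0 1230186008 1046898278 26843546 3 false true false .dn 1 3 3
    ndN3q1 ndN5q3 pcN3 Cut.none Ext.none :=
  certNX0 (fam := false) (s1 := true) (s2 := false) (a := 1) (b := 3) (c := 3) (cn := .dn) (n1 := ndN3q1) (n2 := ndN5q3) (pc := pcN3) (cut := Cut.none) (xt := Ext.none) (P1 := 536870912) (W1 := 536870912) (P2 := 0) (W2 := 1230186008) (P3 := 1046898278) (W3 := 26843546) (N0 := 3)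
    rfl k0_pm_133

noncomputable def f_pm_202 : ℕ → ℕ → ℕ → ℕ → Bool := onCell 1073741824 536870912 0 536870912 1046898278 26843546
    (rowNX 3 1 false true false .pp 2 0 2 (qsf 1073741824 536870912 1073741824 536870912 0) ndN3q2 ndN5q2 pcN0 Cut.none Ext.none)

def k0_pm_202 : ∃ t, chk3 f_pm_202 t 4 32 1 = true :=
  ⟨(a (c (a (b (a (c (l 16718592) (l 16497528)) (l 16362368)) (a (c (b (l 16572216) (l 16517808)) (b (l 16486768) (l 16491616))) (c (b (l 16423592) (l 16392288)) (b (l 16408352) (l 16372856))))) (b (b (l 16290248) (l 15968328)) (c (b (l 16090792) (l 16104648)) (b (l 16133392) (l 16100344))))) (b (a (a (c (b (l 16692064) (b (l 16627016) (l 16531848))) (b (c (b (l 16683408) (l 16643696)) (c (l 16505112) (l 16581648))) (c (l 16596664) (l 16552688)))) (c (b (l 16503504) (l 16302088)) (b (b (l 16384536) (l 16345096)) (l 16406848)))) (c (b (l 16242000) (l 16128672)) (b (c (l 16226176) (l 16048888)) (l 16159216)))) (a (c (a (b (a (l 16600760) (l 16525048)) (l 16448320))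 (l 16255024)) (a (l 16303464) (l 16294584))) (c (l 16086912) (l 16053280))))) (b (a (c (b (l 16249144) (l 16164816)) (c (b (l 16207560) (l 16141784)) (b (c (l 16192488) (l 16120488)) (l 16130768)))) (c (a (l 16293768) (l 15975936)) (c (a (b (l 16296592) (l 16172120)) (l 15921616)) (b (a (c (l 16283696) (a (l 16310264) (l 16221184))) (l 15864776)) (a (l 16184520) (l 15896976)))))) (a (c (c (l 15993792) (l 15930288)) (c (l 16065120) (l 16033232))) (a (c (c (l 16067040) (l 16068312)) (c (l 16142688) (l 16135200))) (c (b (l 15880464) (c (l 15841192) (l 15851136))) (c (b (l 15871536) (l 15822240)) (l 15812704))))))), by decide +kernel⟩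

def k1_pm_202 : ∃ t, chk3 f_pm_202 t 4 33 1 = true :=
  ⟨(a (c (b (a (a (c (l 16364672) (l 16311808)) (c (l 16346248) (l 16280608))) (c (l 15957160) (l 16013640))) (a (b (a (l 16329688) (l 16214744)) (a (l 16267128) (l 16132824))) (c (a (l 15914056) (l 15796136)) (l 15862512)))) (a (b (a (c (l 16323528) (l 16318832)) (l 16172160)) (c (a (c (l 16116112) (l 16196392)) (l 16015712)) (a (l 16172672) (l 16006784)))) (b (l 15931608) (c (l 15799232) (l 15779304))))) (c (a (b (c (b (l 16033080) (c (l 16008392) (l 15999248))) (b (b (l 16037528) (l 16009768)) (l 15956656))) (c (l 15827032) (l 15847144))) (b (a (c (b (l 16130552) (l 15891584)) (b (l 15933568) (l 16061024))) (c (b (l 15844232) (a (l 15880952) (l 15840200))) (b (l 15663304) (l 15830080)))) (a (c (l 15957416) (l 15961616)) (b (a (l 15841480) (l 15910128)) (l 15942104))))) (a (c (b (l 15916344) (l 15799504)) (l 15841944)) (a (c (b (l 15977832) (l 15918048)) (l 15912448)) (b (c (a (l 15813160) (l 15740816)) (l 15762920))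 (a (l 15574760) (l 15880672))))))), by decide +kernel⟩

def k2_pm_202 : ∃ t, chk3 f_pm_202 t 4 17 1 = true :=
  ⟨(a (b (c (a (c (a (l 16069416) (l 15983896)) (a (b (l 15997800) (l 15942920)) (b (l 15958928) (l 15804400)))) (c (l 15721096) (b (l 15710440) (l 15565056)))) (a (a (c (l 15975504) (l 15942160)) (l 15801568)) (l 15582608))) (c (a (c (b (a (l 15836464) (l 15737296)) (a (c (l 15685344) (l 15665800)) (l 15583016))) (a (l 15717064) (l 15587408))) (c (b (l 15489008) (c (l 15359176) (l 15326416))) (l 15361408))) (a (a (c (l 15678936) (l 15638968)) (l 15513608)) (l 15312408)))) (b (a (c (c (l 15701552) (b (l 15708856) (l 15575928))) (l 15602064)) (c (a (b (a (l 15907848) (l 15783888)) (a (c (l 15897080) (l 15850288)) (l 16041560))) (c (l 16199752) (l 16009656))) (a (a (b (l 15840160) (l 15824880)) (b (l 15843216) (l 15998552))) (l 15984032)))) (a (c (c (a (b (l 15412976) (l 15277880)) (b (a (l 15526432) (l 15696304)) (a (l 15407488) (l 15824640)))) (a (l 15311056) (b (l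 15591600) (l 15627480)))) (a (l 15274192) (b (l 15521224) (l 15390192)))) (c (c (b (a (l 15947528) (l 16473216)) (c (a (l 16225800) (l 16339480)) (l 16237488))) (a (l 15964152) (l 16460392))) (a (a (l 15979384) (l 16323432)) (l 16435856)))))), by decide +kernel⟩

def k3_pm_202 : ∃ t, chk3 f_pm_202 t 10 16 1 = true :=
  ⟨(b (c (b (a (a (l 15469464) (a (l 15744536) (b (l 15902504) (b (l 15968592) (l 15952528))))) (b (a (l 16328736) (l 15795008)) (a (c (l 16337864) (l 16335904)) (l 15577272)))) (a (b (a (a (l 15664032) (b (l 15702712) (l 15722104))) (c (a (l 15896312) (l 16093288)) (a (l 15893040) (l 16093896)))) (c (a (l 15789920) (l 16094896)) (a (l 15693616) (l 16004440)))) (b (a (c (l 16111312) (l 16241456)) (c (l 15608272) (l 15621512))) (c (a (l 16137376) (l 15535968)) (a (l 16098712) (l 15485160)))))) (b (a (a (b (c (l 15642592) (b (l 15612456) (l 15600800))) (c (l 15643392) (l 15624864))) (a (c (l 15706880) (l 15473016)) (b (l 15657968) (b (l 15886640) (c (l 15935384)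 (l 15989512)))))) (a (c (b (l 16298928) (b (l 16373928) (l 16265256))) (b (b (l 16255552) (c (l 16314856) (l 16312488))) (c (l 16351928) (l 16363176)))) (c (b (l 15814128) (b (l 15746136) (l 15689624))) (b (c (b (l 15841600) (l 15793288)) (b (c (l 15842856) (l 15738080)) (l 15788000))) (l 15534696))))) (a (c (a (b (a (l 15649272) (l 15724552)) (l 15769624)) (b (a (l 15890128) (l 16094888)) (l 16108832))) (a (a (l 15648952) (l 15746976)) (a (l 15915048) (l 16123952)))) (c (a (b (l 16182048) (l 16112120)) (l 15396104)) (a (l 16192120) (l 15551384)))))) (c (a (b (b (c (a (l 15925240) (l 16254848)) (a (l 15914128) (l 16166760))) (c (a (l 16058616) (l 16193128)) (l 16063176))) (a (l 16134048) (a (l 16410568) (l 16161048)))) (b (a (c (b (l 15987560) (l 15749472)) (l 15784768)) (c (l 15185192) (l 15327976))) (c (l 15184640) (l 15457392)))) (a (a (b (l 15761232) (l 16085168)) (c (a (l 16267232) (l 16302840)) (l 16184968))) (a (b (l 15806448) (l 15778720)) (l 15091320))))), by decide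 +kernel⟩

def k4_pm_202 : ∃ t, chk3 f_pm_202 t 11 16 1 = true :=
  ⟨(b (c (a (a (b (l 14909184) (c (b (l 15068600) (l 14960792)) (b (l 15028088) (l 14898088)))) (b (b (l 14623936) (l 14340032)) (c (b (l 14586896) (l 14549632)) (b (l 14536352) (l 14478152))))) (b (c (l 14360920) (l 14343064)) (c (b (l 14432584) (l 14433088)) (b (l 14378712) (l 14358752))))) (b (a (c (b (l 14897952) (a (l 15060824) (l 14317304))) (b (c (b (l 14908184) (l 14865448)) (b (l 14648144) (l 14851024))) (c (l 14798608) (l 14794960)))) (c (b (l 14302232) (l 14325672)) (b (c (l 14281840) (l 14266720)) (l 14285552)))) (a (c (a (l 14940928) (l 14485784)) (l 14547280)) (c (l 14334848) (l 14320032))))) (c (a (b (c (a (b (l 14828088) (l 14731712)) (l 14497096)) (a (l 14775656) (l 14476504))) (c (l 14564600) (l 14633560))) (b (c (l 14397464) (l 14375192)) (l 14429288))) (a (a (c (l 14774600) (l 14756920)) (l 14499848)) (l 14397504)))), by decide +kernel⟩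

def k5_pm_202 : ∃ t, chk3 f_pm_202 t 5 17 1 = true :=
  ⟨(a (c (b (a (a (c (l 16409104) (l 16434568)) (c (l 15935872) (a (l 16171472) (l 15948640)))) (a (c (l 15477152) (l 15506528)) (c (b (l 15010800) (l 14947344)) (l 15004872)))) (b (a (a (l 16170296) (a (l 15898296) (l 15454240))) (a (c (c (l 15284104) (l 15293752)) (l 15287888)) (l 14814336))) (a (a (b (l 15890968) (l 15701808)) (c (c (l 15575816) (l 15633728)) (l 15604328))) (c (b (l 15024408) (l 15158400)) (l 15128592))))) (a (b (a (l 16382992) (l 15833672)) (a (l 16071808) (l 15682984))) (b (a (l 15495424) (l 15000560)) (a (l 15141152) (l 14961864))))) (a (c (b (c (l 14679528) (l 14683344)) (b (l 14814208) (b (l 14876736) (l 14880408)))) (b (l 14670136) (l 14735208))) (c (b (c (l 14552376) (l 14542888)) (c (b (a (l 14683528) (l 14662520)) (b (l 14727240) (l 14760384))) (l 14674568))) (b (l 14499480) (l 14610704))))), by decide +kernel⟩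

def k6_pm_202 : ∃ t, chk3 f_pm_202 t 4 18 1 = true :=
  ⟨(a (b (c (c (a (a (b (l 15460848) (l 15179088)) (l 15240264)) (b (l 15147888) (a (l 14955928) (l 14819896)))) (a (a (l 15265080) (l 15171528)) (l 14926256))) (a (a (b (l 15360512) (l 15065312)) (l 15086160)) (l 14824216))) (a (c (a (b (c (l 14884536) (l 14841408)) (c (l 14575496) (l 14526616))) (b (l 14785416) (l 14478120))) (a (c (l 14629464) (l 14570128)) (l 14475984))) (a (c (b (l 14651072) (l 14355504)) (l 14376176)) (b (c (a (l 14557648) (c (l 14616608) (l 14578920))) (l 14508760)) (a (c (b (l 14379448) (l 14327272)) (l 14272680)) (l 14539584)))))) (a (b (c (a (b (a (l 15036336) (l 15216528)) (a (c (l 14899760) (l 14867048)) (l 15241432))) (b (c (l 15686416) (l 15752696)) (l 15763680))) (a (b (l 14919696) (l 14947160)) (l 15644440))) (b (a (l 14915216) (l 15717760)) (a (l 15106704) (c (l 15896592) (l 15911816))))) (b (c (a (b (c (l 16275912) (l 16460880)) (l 16328272)) (b (l 16160112) (l 16244000))) (a (a (l 16316488)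 (l 16528520)) (l 16240680))) (b (a (a (l 16474784) (l 16508376)) (l 16247088)) (c (a (l 16385568) (l 16304736)) (a (l 16447872) (l 16288608))))))), by decide +kernel⟩

def k7_pm_202 : ∃ t, chk3 f_pm_202 t 4 19 1 = true :=
  ⟨(a (b (a (b (c (a (b (l 14205536) (c (l 14183512) (l 14126680))) (b (l 14245672) (l 14092352))) (a (b (l 14184080) (c (l 14057720) (l 13986416))) (l 13969352))) (c (a (a (l 14019672) (l 14019152)) (l 13955512)) (a (l 13878216) (l 13791000)))) (b (a (c (b (a (l 14156288) (l 14137592)) (a (l 14008480) (b (l 14077568) (l 14077048)))) (b (l 14022864) (a (l 13866744) (l 13964056)))) (c (b (l 14468824) (b (l 14478424) (l 14492440))) (l 14150608))) (a (c (a (b (l 13954368) (l 13953528)) (l 14169048)) (a (l 13824680) (l 14052432))) (c (l 14575840) (l 14485600))))) (a (a (a (c (b (l 13833896) (l 13617400)) (l 13600496)) (c (l 13720552) (l 13560880))) (a (b (l 13707272) (c (a (l 13637504) (l 13706576)) (l 13498992))) (c (b (a (l 13786176) (l 13844024)) (l 13889984))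 (l 13615848)))) (a (l 13992512) (l 14704496)))) (a (b (b (a (c (b (l 15157480) (l 15098896)) (b (l 15099952) (l 15105184))) (c (b (l 15951592) (l 15932872)) (b (l 15923368) (l 15903600)))) (a (l 15197184) (l 15977832))) (a (l 15370976) (l 16021024))) (b (b (a (c (a (l 16495552) (l 16644480)) (l 16380384)) (c (l 16358200) (l 16454152))) (a (l 16635120) (l 16568120))) (a (a (l 16612464) (l 16653176)) (l 16686184))))), by decide +kernel⟩

def k8_pm_202 : ∃ t, chk3 f_pm_202 t 5 9 1 = true :=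
  ⟨(b (a (b (a (c (a (b (l 15874616) (l 15905640)) (b (a (l 15644368) (l 15253408)) (l 15549600))) (a (l 15875256) (a (l 15638744) (l 15383760)))) (c (b (c (l 15255808) (l 15234056)) (l 15497984)) (b (l 15188528) (l 15450088)))) (a (b (a (c (l 15951944) (l 15921896)) (c (l 15886248) (l 15853032))) (a (c (l 16142808) (l 16119760)) (c (l 16212192) (l 16195664)))) (b (c (l 15802088) (l 15765768)) (l 16091184)))) (a (b (b (c (l 15031152) (l 14961888)) (l 15287112)) (c (l 15871088) (l 15840136))) (b (b (l 14872248) (l 15228144)) (c (b (l 15609328) (l 15854928)) (b (l 15589968) (l 15952760)))))) (a (b (b (a (c (a (l 16454640) (l 16588800)) (a (l 16445920) (l 16586224))) (l 16412704)) (a (l 16563528) (l 16564088))) (a (l 16432784) (l 16508944))) (b (b (a (a (l 16514256) (c (l 16453536) (l 16442696))) (c (l 16173936) (l 16217880))) (a (l 16603800) (l 16240976))) (a (l 16530824) (l 16160992))))), by decide +kernel⟩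

def k9_pm_202 : ∃ t, chk3 f_pm_202 t 6 16 1 = true :=
  ⟨(a (c (c (b (b (l 14249184) (a (l 14374480) (b (l 14275784) (l 14293080)))) (b (b (l 14314480) (l 14327584)) (l 14376376))) (b (b (l 14256608) (b (l 14293440) (l 14259520))) (b (l 14293200) (l 14357704)))) (b (b (c (b (l 14214536) (l 14238968)) (b (c (l 14193416) (l 14177760)) (l 14197424))) (c (l 14247744) (l 14232400))) (b (l 14278232) (l 14126304)))) (c (b (a (b (l 14154104) (b (c (l 14251800) (l 14186104)) (c (l 14277928) (l 14198392)))) (c (b (l 14119464) (b (l 14148440) (l 14171720))) (b (l 14054720) (b (l 14101456) (l 14148992))))) (c (b (b (l 14226928) (l 14251792)) (l 14315304)) (b (l 14203600) (c (l 14298912) (b (l 14268928) (l 14317944)))))) (b (c (b (b (l 14067976) (c (l 14080720) (l 14045408))) (a (l 14150072) (l 14096376))) (b (b (c (l 14047304) (l 14039400)) (c (l 14056216) (l 14045800))) (b (c (c (l 14075360) (l 14068400)) (l 14053464)) (l 14089840)))) (c (b (c (l 14182400) (b (l 14077616) (a (l 14222344)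 (l 14176904)))) (c (b (b (l 14242528) (l 14196424)) (a (l 14307040) (l 14217064))) (l 14230664))) (l 14161168))))), by decide +kernel⟩

def k10_pm_202 : ∃ t, chk3 f_pm_202 t 6 17 1 = true :=
  ⟨(c (b (b (c (a (l 14471632) (l 14404536)) (a (l 14448112) (c (l 14393896) (b (a (l 14365608) (l 14216520)) (l 14369616))))) (c (c (l 14513376) (a (l 14530856) (b (l 14484608) (l 14521424)))) (a (b (l 14515736) (l 14504688)) (c (b (a (l 14471752) (l 238533280775)) (l 14465392)) (l 14419304))))) (c (c (b (a (l 14639168) (b (l 14581904) (l 14610480))) (b (a (l 14678496) (a (l 14628808) (l 14607344))) (a (l 14702712) (l 225111890967)))) (b (a (b (l 14592448) (l 14621776)) (b (a (l 14552016) (l 14337832)) (l 14542776))) (l 14608272))) (a (l 14607960) (l 14522944)))) (a (b (b (l 14387248) (l 14423664)) (a (l 14549256) (l 14531728))) (b (l 14309592) (l 14463752)))), by decide +kernel⟩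

def k11_pm_202 : ∃ t, chk3 f_pm_202 t 7 8 1 = true :=
  ⟨(a (a (b (b (c (b (l 247122472647) (l 14128416)) (c (b (b (l 13984872) (l 237995562439)) (l 237995686551)) (b (c (b (l 13949840) (l 13989288)) (b (c (l 13933992) (b (l 13912888) (l 13929128))) (c (l 13761792) (l 13960256)))) (c (b (c (l 14036992) (l 14025552)) (l 14068624)) (l 14023184))))) (a (c (c (l 14262976) (b (l 14193416) (l 242291026439))) (c (b (c (l 14171656) (b (l 234237705319) (l 14172248))) (c (c (l 14130976) (l 14235376)) (l 14203224))) (l 14145376))) (l 3))) (c (b (b (c (l 14380384) (c (l 14377376) (b (l 241217418663) (l 14342808)))) (l 3)) (l 3)) (l 241754357479))) (l 3)) (l 3)), by decide +kernel⟩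

def k12_pm_202 : ∃ t, chk3 f_pm_202 t 3 9 1 = true :=
  ⟨(a (a (a (c (b (b (b (l 14882872) (l 15228936)) (l 15534072)) (b (l 15836880) (l 15827432))) (b (b (b (l 14815920) (l 15174488)) (l 15577216)) (b (l 15868992) (l 15794056)))) (b (b (c (b (l 14814704) (l 15060112)) (l 14873392)) (c (a (l 15407312) (l 15241752)) (a (l 15359192) (l 15187816)))) (b (b (c (l 15511432) (l 15466984)) (l 15548072)) (b (l 15593000) (l 15645816))))) (b (b (c (a (b (l 14692416) (l 14857648)) (b (l 14642440) (l 14781184))) (a (b (l 14619112) (l 14790184)) (b (l 14567464) (l 14711008)))) (a (a (c (l 15135240) (l 15077552)) (l 14955984)) (c (l 15038672) (l 14977544)))) (c (b (b (l 15207296) (l 15421904)) (l 15579848)) (b (b (l 15238928) (l 15374248)) (l 15348992))))) (l 3)), by decide +kernel⟩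

def k13_pm_202 : ∃ t, chk3 f_pm_202 t 4 5 1 = true :=
  ⟨(b (a (b (a (a (b (a (c (b (l 13422456) (a (b (l 13280008) (l 13226672)) (l 13377824))) (b (l 13279808) (a (l 13132768) (l 13224800)))) (c (b (a (c (l 13506680) (l 13436440)) (l 13553528)) (l 13607472)) (b (l 13357008) (l 13442208)))) (c (b (l 13385440) (a (l 13611360) (l 13944592))) (a (l 13379744) (l 13698288)))) (b (c (l 13965712) (l 13799536)) (c (b (l 14195208) (l 14369096)) (l 14126656)))) (a (b (l 14418424) (c (l 14799456) (l 14691784))) (b (l 14974440) (l 15105096)))) (a (b (a (c (a (l 13943184) (l 14270728)) (l 13905688)) (c (l 14686552) (l 14546368))) (a (c (a (l 14399080) (l 14719432)) (a (l 14292160) (l 14595448))) (c (l 14919456) (l 15005992)))) (b (a (l 15146400) (b (l 15381928) (a (l 15593488) (l 15708704)))) (a (b (c (l 15317168) (l 15403168)) (c (l 15627072) (l 15550976))) (l 15725552))))) (b (a (a (b (l 15631808) (b (l 15773168) (l 15857608))) (b (a (l 16185184) (l 16444800)) (b (l 16318712) (l 16272984))))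 (b (a (l 16661096) (l 16534224)) (b (l 16451136) (l 16445824)))) (a (b (a (l 15927032) (l 16304328)) (l 16158296)) (l 16553984)))) (a (b (a (a (b (c (a (l 14871984) (l 15188280)) (a (l 14783984) (l 15083016))) (c (a (l 15243416) (l 15391800)) (a (b (l 15149296) (l 15332368)) (l 15425960)))) (b (c (a (l 15383216) (l 15604648)) (a (l 15327184) (l 15499240))) (l 15602680))) (c (l 15757064) (l 15695112))) (a (a (c (l 15507480) (l 15260024)) (l 15593752)) (l 15709704))) (b (a (l 16089160) (l 16594312)) (a (l 16156000) (l 16540640))))), by decide +kernel⟩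

def k14_pm_202 : ∃ t, chk3 f_pm_202 t 5 5 1 = true :=
  ⟨(b (a (b (a (b (a (l 16383984) (l 16284976)) (l 16318784)) (b (l 16514752) (l 16549008))) (a (l 16349872) (l 16564232))) (b (a (l 16416600) (l 16103168)) (a (l 16436848) (b (l 16170872) (l 16314888))))) (a (b (a (l 16322424) (l 16476968)) (a (l 16296888) (b (l 16398696) (l 16398440)))) (b (a (a (l 16673368) (l 16414608)) (b (l 16482144) (l 16644800))) (a (b (l 16652712) (l 16650576)) (l 16849920))))), by decide +kernel⟩

def k15_pm_202 : ∃ t, chk3 f_pm_202 t 3 5 1 = true :=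
  ⟨(a (a (a (b (b (b (l 15825736) (l 15938048)) (l 16194744)) (b (l 16526400) (l 16757760))) (b (b (b (l 15734776) (l 15895144)) (l 16165776)) (b (l 16501032) (l 16754256)))) (b (b (c (l 15789952) (l 15672824)) (l 230483692951)) (l 3))) (l 3)), by decide +kernel⟩

def k16_pm_202 : ∃ t, chk3 f_pm_202 t 1 3 1 = true :=
  ⟨(a (a (b (a (a (b (c (l 15563208) (l 15478632)) (c (l 15542240) (l 15478632))) (b (l 15709632) (l 15709632))) (b (a (l 16155904) (l 16540528)) (a (b (l 16155904) (l 16072016)) (c (l 16544584) (l 16536416))))) (a (a (b (l 15286744) (b (l 15517432) (a (l 15464528) (l 15593688)))) (b (c (l 15736560) (l 15673728)) (c (l 15736560) (l 15673728)))) (b (a (c (l 16166656) (l 16145160)) (c (l 16544584) (l 16536416))) (a (c (l 16166656) (l 16145160)) (l 2))))) (b (a (b (c (a (l 16305016) (l 16404944)) (a (l 16288440) (l 16391880))) (a (c (l 16305016) (l 16288440)) (l 16398440))) (b (a (c (l 16652752) (l 16648384)) (l 16777040)) (a (l 16650576) (l 2)))) (a (b (a (c (l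 16305016) (l 16288440)) (l 2)) (l 2)) (l 2)))) (b (b (c (l 445166649351) (l 457514680327)) (l 2)) (l 2))), by decide +kernel⟩

theorem s17_pm_202 : ∃ t, chk3 f_pm_202 t 2 5 1 = true := ex3_a k13_pm_202 k14_pm_202

theorem s18_pm_202 : ∃ t, chk3 f_pm_202 t 1 5 1 = true := ex3_a s17_pm_202 k15_pm_202

theorem s19_pm_202 : ∃ t, chk3 f_pm_202 t 6 8 1 = true := ex3_b k9_pm_202 k10_pm_202

theorem s20_pm_202 : ∃ t, chk3 f_pm_202 t 3 8 1 = true := ex3_a s19_pm_202 k11_pm_202

theorem s21_pm_202 : ∃ t, chk3 f_pm_202 t 3 4 1 = true := ex3_b s20_pm_202 k12_pm_202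

theorem s22_pm_202 : ∃ t, chk3 f_pm_202 t 4 9 1 = true := ex3_b k6_pm_202 k7_pm_202

theorem s23_pm_202 : ∃ t, chk3 f_pm_202 t 2 9 1 = true := ex3_a s22_pm_202 k8_pm_202

theorem s24_pm_202 : ∃ t, chk3 f_pm_202 t 5 16 1 = true := ex3_a k3_pm_202 k4_pm_202

theorem s25_pm_202 : ∃ t, chk3 f_pm_202 t 5 8 1 = true := ex3_b s24_pm_202 k5_pm_202

theorem s26_pm_202 : ∃ t, chk3 f_pm_202 t 4 16 1 = true := ex3_b k0_pm_202 k1_pm_202

theorem s27_pm_202 : ∃ t, chk3 f_pm_202 t 4 8 1 = true := ex3_b s26_pm_202 k2_pm_202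

theorem s28_pm_202 : ∃ t, chk3 f_pm_202 t 2 8 1 = true := ex3_a s27_pm_202 s25_pm_202

theorem s29_pm_202 : ∃ t, chk3 f_pm_202 t 2 4 1 = true := ex3_b s28_pm_202 s23_pm_202

theorem s30_pm_202 : ∃ t, chk3 f_pm_202 t 1 4 1 = true := ex3_a s29_pm_202 s21_pm_202

theorem s31_pm_202 : ∃ t, chk3 f_pm_202 t 1 2 1 = true := ex3_b s30_pm_202 s18_pm_202

theorem s32_pm_202 : ∃ t, chk3 f_pm_202 t 1 1 1 = true := ex3_b s31_pm_202 k16_pm_202

theorem c_pm_202 : CertNX 1073741824 536870912 1073741824 536870912 1046898278 26843546 3 false true false .pp 2 0 2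
    ndN3q2 ndN5q2 pcN0 Cut.none Ext.none :=
  certNX1 (fam := false) (s1 := true) (s2 := false) (a := 2) (b := 0) (c := 2) (cn := .pp) (n1 := ndN3q2) (n2 := ndN5q2) (pc := pcN0) (cut := Cut.none) (xt := Ext.none) (P1 := 1073741824) (W1 := 536870912) (P2 := 1073741824) (W2 := 536870912) (P3 := 1046898278) (W3 := 26843546) (N0 := 3)
    rfl (fun _ => rfl) s32_pm_202

noncomputable def f_pm_203 : ℕ → ℕ → ℕ → ℕ → Bool := onCell 1073741824 536870912 0 1230186008 1046898278 26843546
    (rowNX 3 0 false true false .up 2 0 3 (qsf 1073741824 536870912 0 1230186008 0) ndN3q2 ndN5q3 pcN0 Cut.none Ext.none)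

def k0_pm_203 : ∃ t, chk3 f_pm_203 t 1 1 1 = true :=
  ⟨(b (a (l 2) (l 3)) (b (a (a (l 2) (a (l 2) (l 3))) (l 3)) (b (a (a (l 2) (a (a (b (l 2) (c (l 16305016) (l 16288440))) (b (l 16398440) (l 151564344407))) (b (l 3) (a (l 16608632) (l 3))))) (l 3)) (a (a (a (b (l 2) (a (b (l 2) (c (l 15563208) (l 15478632))) (c (b (l 15736560) (l 15736560)) (l 15673728)))) (b (a (c (l 16145680) (l 16145160)) (c (l 16544584) (l 16536416))) (a (c (l 16103744) (l 16061280)) (c (l 16544584) (l 16515448))))) (a (b (a (c (l 16305016) (l 16288440)) (c (l 16404944) (l 16391880))) (a (c (l 16305016) (l 16288440)) (c (l 16404944) (l 16391880)))) (b (a (c (l 16652752) (l 16648384)) (l 16777040)) (a (c (l 16652752) (l 16648384)) (c (l 16777040) (l 16777032)))))) (a (b (l 3) (a (b (a (l 16777216) (l 3)) (a (a (l 16777216) (l 16763680)) (b (l 3) (l 16586192)))) (l 3))) (l 3)))))), by decide +kernel⟩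

theorem c_pm_203 : CertNX 1073741824 536870912 0 1230186008 1046898278 26843546 3 false true false .up 2 0 3
    ndN3q2 ndN5q3 pcN0 Cut.none Ext.none :=
  certNX0 (fam := false) (s1 := true) (s2 := false) (a := 2) (b := 0) (c := 3) (cn := .up) (n1 := ndN3q2) (n2 := ndN5q3) (pc := pcN0) (cut := Cut.none) (xt := Ext.none) (P1 := 1073741824) (W1 := 536870912) (P2 := 0) (W2 := 1230186008) (P3 := 1046898278) (W3 := 26843546) (N0 := 3)
    rfl k0_pm_203

noncomputable def cut_pm_213 : Cut := Cut.of [[⟨0, 1, 0, 67108864⟩, ⟨1, 1, 0, 67108864⟩, ⟨2, 2, 0, 67108864⟩, ⟨3, 0, 0, 1233125376⟩]]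

noncomputable def f_pm_213 : ℕ → ℕ → ℕ → ℕ → Bool := onCell 1073741824 536870912 0 1230186008 1046898278 26843546
    (rowNX 3 0 false true false .pnn 2 1 3 (qsf 1073741824 536870912 0 1230186008 1) ndN3q2 ndN5q3 pcN1 cut_pm_213 Ext.none)

def k0_pm_213 : ∃ t, chk3 f_pm_213 t 1 2 1 = true :=
  ⟨(a (a (b (a (a (l 6) (b (l 3) (b (l 3) (l 3)))) (l 3)) (a (b (a (b (a (l 6) (a (b (l 6) (c (l 15751296) (l 15408312))) (c (b (l 15942496) (l 15832344)) (b (l 15657176) (l 15571808))))) (b (a (a (l 6) (c (a (l 15483344) (l 15565744)) (l 15164784))) (c (a (l 15663000) (l 15752640)) (l 15451712))) (a (c (a (b (l 15270776) (l 15253232)) (c (l 15536992) (l 15402440))) (a (c (l 15002360) (l 14814192)) (l 15178416))) (c (l 15654616) (l 15434816))))) (a (b (c (b (l 522541934311) (l 15909528)) (b (l 15823840) (l 15743544))) (c (b (l 15838992) (l 15790928)) (l 15677912))) (b (l 3) (l 3)))) (a (b (a (c (b (a (l 15233264) (l 15433304)) (a (l 15222728) (l 15414000))) (a (b (l 14959848) (l 15003088))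 (l 15201064))) (c (b (l 15616840) (l 15589232)) (l 15423008))) (a (c (b (l 15322192) (l 15352968)) (b (l 14936384) (l 15147192))) (b (c (l 15576880) (l 15431880)) (c (l 15587328) (l 15461912))))) (b (a (c (l 15735048) (l 15637880)) (b (l 15817584) (a (l 15765960) (l 15813544)))) (a (b (c (l 15701384) (l 15620560)) (l 15613120)) (b (l 15766848) (l 15745848)))))) (b (l 3) (a (b (l 3) (l 509656544423)) (l 3))))) (b (l 3) (l 3))) (l 3)), by decide +kernel⟩

def k1_pm_213 : ∃ t, chk3 f_pm_213 t 1 3 1 = true :=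
  ⟨(b (a (a (b (a (a (b (a (b (a (l 15287304) (c (l 15496792) (l 15385608))) (a (c (l 15411120) (l 15333200)) (l 15471584))) (b (c (l 15610328) (l 15499008)) (l 15575352))) (a (c (l 15480704) (l 15395000)) (l 15580080))) (b (c (l 15733248) (l 15668784)) (c (l 15734272) (l 15670760)))) (a (b (l 16071936) (l 16155928)) (a (l 429664052999) (l 3)))) (a (a (b (a (a (l 15392584) (l 15476344)) (l 15569728)) (c (l 15500280) (l 15478616))) (b (c (l 15736400) (l 15673536)) (c (l 15736560) (l 15673728)))) (a (b (l 16155936) (l 16030072)) (b (l 58149220375) (c (l 16544584) (l 16536416)))))) (a (b (l 3) (a (b (l 3) (l 16212880)) (l 3))) (l 3))) (l 3)) (a (a (a (b (a (c (b (l 15521272) (l 15542240)) (b (l 15478632) (l 15478632))) (b (c (l 15736560) (l 15673728)) (c (l 15736560) (l 15673728)))) (b (c (a (c (l 15590488) (l 15544536)) (l 15736560)) (a (c (l 15500464) (l 15458480)) (l 15673728))) (c (a (c (l 15590488) (l 15544536)) (b (l 15736560) (l 15736560))) (a (b (l 15478632) (l 15478632))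 (l 15673728))))) (b (a (b (l 16009104) (c (l 16166656) (l 16145160))) (b (c (l 16544584) (l 16536416)) (c (l 16544584) (l 16536416)))) (b (a (c (l 16166656) (l 16145160)) (c (l 16544584) (l 16536416))) (a (c (l 16103744) (l 16061280)) (l 1))))) (b (a (a (b (c (l 16305016) (l 16288440)) (c (l 16305016) (l 16288440))) (b (l 16398440) (l 151027473495))) (b (l 3) (l 1))) (a (b (a (c (l 16305016) (l 16288440)) (l 1)) (l 1)) (l 1)))) (l 1))), by decide +kernel⟩

theorem s2_pm_213 : ∃ t, chk3 f_pm_213 t 1 1 1 = true := ex3_b k0_pm_213 k1_pm_213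

theorem c_pm_213 : CertNX 1073741824 536870912 0 1230186008 1046898278 26843546 3 false true false .pnn 2 1 3
    ndN3q2 ndN5q3 pcN1 cut_pm_213 Ext.none :=
  certNX0 (fam := false) (s1 := true) (s2 := false) (a := 2) (b := 1) (c := 3) (cn := .pnn) (n1 := ndN3q2) (n2 := ndN5q3) (pc := pcN1) (cut := cut_pm_213) (xt := Ext.none) (P1 := 1073741824) (W1 := 536870912) (P2 := 0) (W2 := 1230186008) (P3 := 1046898278) (W3 := 26843546) (N0 := 3)
    rfl s2_pm_213

noncomputable def f_pm_303 : ℕ → ℕ → ℕ → ℕ → Bool := onCell 1610612736 536870912 0 1230186008 1046898278 26843546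
    (rowNX 3 0 false true false .npn 3 0 3 (qsf 1610612736 536870912 0 1230186008 0) ndN3q3 ndN5q3 pcN0 Cut.none Ext.none)

def k0_pm_303 : ∃ t, chk3 f_pm_303 t 1 1 1 = true :=
  ⟨(b (l 3) (b (l 3) (a (l 3) (l 1)))), by decide +kernel⟩

theorem c_pm_303 : CertNX 1610612736 536870912 0 1230186008 1046898278 26843546 3 false true false .npn 3 0 3
    ndN3q3 ndN5q3 pcN0 Cut.none Ext.none :=
  certNX0 (fam := false) (s1 := true) (s2 := false) (a := 3) (b := 0) (c := 3) (cn := .npn) (n1 := ndN3q3) (n2 := ndN5q3) (pc := pcN0) (cut := Cut.none) (xt := Ext.none) (P1 := 1610612736) (W1 := 536870912) (P2 := 0) (W2 := 1230186008) (P3 := 1046898278) (W3 := 26843546) (N0 := 3)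
    rfl k0_pm_303

noncomputable def f_pm_313 : ℕ → ℕ → ℕ → ℕ → Bool := onCell 1610612736 536870912 0 1230186008 1046898278 26843546
    (rowNX 3 0 false true false .dn 3 1 3 (qsf 1610612736 536870912 0 1230186008 1) ndN3q3 ndN5q3 pcN1 Cut.none Ext.none)

def k0_pm_313 : ∃ t, chk3 f_pm_313 t 1 1 1 = true :=
  ⟨(b (l 3) (l 1)), by decide +kernel⟩

theorem c_pm_313 : CertNX 1610612736 536870912 0 1230186008 1046898278 26843546 3 false true false .dn 3 1 3
    ndN3q3 ndN5q3 pcN1 Cut.none Ext.none :=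
  certNX0 (fam := false) (s1 := true) (s2 := false) (a := 3) (b := 1) (c := 3) (cn := .dn) (n1 := ndN3q3) (n2 := ndN5q3) (pc := pcN1) (cut := Cut.none) (xt := Ext.none) (P1 := 1610612736) (W1 := 536870912) (P2 := 0) (W2 := 1230186008) (P3 := 1046898278) (W3 := 26843546) (N0 := 3)
    rfl k0_pm_313

noncomputable def f_mm_001 : ℕ → ℕ → ℕ → ℕ → Bool := onCell 0 536870912 0 536870912 1046898278 26843546
    (rowNX 3 1 false false false .up 0 0 1 (qsf 0 536870912 536870912 469762048 0) ndN3q0 ndN5q1 pcN0 Cut.none Ext.none)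

def k0_mm_001 : ∃ t, chk3 f_mm_001 t 1 1 1 = true :=
  ⟨(l 3), by decide +kernel⟩

theorem c_mm_001 : CertNX 0 536870912 536870912 469762048 1046898278 26843546 3 false false false .up 0 0 1
    ndN3q0 ndN5q1 pcN0 Cut.none Ext.none :=
  certNX1 (fam := false) (s1 := false) (s2 := false) (a := 0) (b := 0) (c := 1) (cn := .up) (n1 := ndN3q0) (n2 := ndN5q1) (pc := pcN0) (cut := Cut.none) (xt := Ext.none) (P1 := 0) (W1 := 536870912) (P2 := 536870912) (W2 := 469762048) (P3 := 1046898278) (W3 := 26843546) (N0 := 3)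
    rfl (fun _ => rfl) k0_mm_001

noncomputable def f_mm_011 : ℕ → ℕ → ℕ → ℕ → Bool := onCell 0 536870912 536870912 536870912 1046898278 26843546
    (rowNX 3 1 false false false .pnn 0 1 1 (qsf 0 536870912 536870912 469762048 1) ndN3q0 ndN5q1 pcN1 Cut.none Ext.none)

def k0_mm_011 : ∃ t, chk3 f_mm_011 t 1 1 1 = true :=
  ⟨(l 5), by decide +kernel⟩

theorem c_mm_011 : CertNX 0 536870912 536870912 469762048 1046898278 26843546 3 false false false .pnn 0 1 1
    ndN3q0 ndN5q1 pcN1 Cut.none Ext.none :=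
  certNX1 (fam := false) (s1 := false) (s2 := false) (a := 0) (b := 1) (c := 1) (cn := .pnn) (n1 := ndN3q0) (n2 := ndN5q1) (pc := pcN1) (cut := Cut.none) (xt := Ext.none) (P1 := 0) (W1 := 536870912) (P2 := 536870912) (W2 := 469762048) (P3 := 1046898278) (W3 := 26843546) (N0 := 3)
    rfl (fun _ => rfl) k0_mm_011

noncomputable def f_mm_012 : ℕ → ℕ → ℕ → ℕ → Bool := onCell 0 536870912 1073741824 536870912 1046898278 26843546
    (rowNX 3 0 false false false .pnp 0 1 2 (qsf 0 536870912 1073741824 536870912 1) ndN3q0 ndN5q2 pcN1 Cut.none Ext.none)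

def k0_mm_012 : ∃ t, chk3 f_mm_012 t 1 1 1 = true :=
  ⟨(l 5), by decide +kernel⟩

theorem c_mm_012 : CertNX 0 536870912 1073741824 536870912 1046898278 26843546 3 false false false .pnp 0 1 2
    ndN3q0 ndN5q2 pcN1 Cut.none Ext.none :=
  certNX0 (fam := false) (s1 := false) (s2 := false) (a := 0) (b := 1) (c := 2) (cn := .pnp) (n1 := ndN3q0) (n2 := ndN5q2) (pc := pcN1) (cut := Cut.none) (xt := Ext.none) (P1 := 0) (W1 := 536870912) (P2 := 1073741824) (W2 := 536870912) (P3 := 1046898278) (W3 := 26843546) (N0 := 3)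
    rfl k0_mm_012

noncomputable def f_mm_022 : ℕ → ℕ → ℕ → ℕ → Bool := onCell 0 536870912 1073741824 536870912 1046898278 26843546
    (rowNX 3 0 false false false .pp 0 2 2 (qsf 0 536870912 1073741824 536870912 2) ndN3q0 ndN5q2 pcN2 Cut.none Ext.none)

def k0_mm_022 : ∃ t, chk3 f_mm_022 t 1 1 1 = true :=
  ⟨(l 5), by decide +kernel⟩

theorem c_mm_022 : CertNX 0 536870912 1073741824 536870912 1046898278 26843546 3 false false false .pp 0 2 2
    ndN3q0 ndN5q2 pcN2 Cut.none Ext.none :=
  certNX0 (fam := false) (s1 := false) (s2 := false) (a := 0) (b := 2) (c := 2) (cn := .pp) (n1 := ndN3q0) (n2 := ndN5q2) (pc := pcN2) (cut := Cut.none) (xt := Ext.none) (P1 := 0) (W1 := 536870912) (P2 := 1073741824) (W2 := 536870912) (P3 := 1046898278) (W3 := 26843546) (N0 := 3)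
    rfl k0_mm_022

noncomputable def f_mm_023 : ℕ → ℕ → ℕ → ℕ → Bool := onCell 0 536870912 0 1230186008 1046898278 26843546
    (rowNX 3 0 false false false .up 0 2 3 (qsf 0 536870912 0 1230186008 2) ndN3q0 ndN5q3 pcN2 Cut.none Ext.none)

def k0_mm_023 : ∃ t, chk3 f_mm_023 t 1 1 1 = true :=
  ⟨(l 5), by decide +kernel⟩

theorem c_mm_023 : CertNX 0 536870912 0 1230186008 1046898278 26843546 3 false false false .up 0 2 3
    ndN3q0 ndN5q3 pcN2 Cut.none Ext.none :=
  certNX0 (fam := false) (s1 := false) (s2 := false) (a := 0) (b := 2) (c := 3) (cn := .up) (n1 := ndN3q0) (n2 := ndN5q3) (pc := pcN2) (cut := Cut.none) (xt := Ext.none) (P1 := 0) (W1 := 536870912) (P2 := 0) (W2 := 1230186008) (P3 := 1046898278) (W3 := 26843546) (N0 := 3)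
    rfl k0_mm_023

noncomputable def f_mm_033 : ℕ → ℕ → ℕ → ℕ → Bool := onCell 0 536870912 0 1230186008 1046898278 26843546
    (rowNX 3 0 false false false .pnn 0 3 3 (qsf 0 536870912 0 1230186008 3) ndN3q0 ndN5q3 pcN3 Cut.none Ext.none)

def k0_mm_033 : ∃ t, chk3 f_mm_033 t 1 1 1 = true :=
  ⟨(l 5), by decide +kernel⟩

theorem c_mm_033 : CertNX 0 536870912 0 1230186008 1046898278 26843546 3 false false false .pnn 0 3 3
    ndN3q0 ndN5q3 pcN3 Cut.none Ext.none :=
  certNX0 (fam := false) (s1 := false) (s2 := false) (a := 0) (b := 3) (c := 3) (cn := .pnn) (n1 := ndN3q0) (n2 := ndN5q3) (pc := pcN3) (cut := Cut.none) (xt := Ext.none) (P1 := 0) (W1 := 536870912) (P2 := 0) (W2 := 1230186008) (P3 := 1046898278) (W3 := 26843546) (N0 := 3)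
    rfl k0_mm_033

noncomputable def f_mm_101 : ℕ → ℕ → ℕ → ℕ → Bool := onCell 536870912 536870912 536870912 469762048 1046898278 26843546
    (rowNX 3 0 false false false .npn 1 0 1 (qsf 536870912 536870912 536870912 469762048 0) ndN3q1 ndN5q1 pcN0 Cut.none Ext.none)

def k0_mm_101 : ∃ t, chk3 f_mm_101 t 1 1 1 = true :=
  ⟨(l 3), by decide +kernel⟩

theorem c_mm_101 : CertNX 536870912 536870912 536870912 469762048 1046898278 26843546 3 false false false .npn 1 0 1
    ndN3q1 ndN5q1 pcN0 Cut.none Ext.none :=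
  certNX0 (fam := false) (s1 := false) (s2 := false) (a := 1) (b := 0) (c := 1) (cn := .npn) (n1 := ndN3q1) (n2 := ndN5q1) (pc := pcN0) (cut := Cut.none) (xt := Ext.none) (P1 := 536870912) (W1 := 536870912) (P2 := 536870912) (W2 := 469762048) (P3 := 1046898278) (W3 := 26843546) (N0 := 3)
    rfl k0_mm_101

noncomputable def f_mm_102 : ℕ → ℕ → ℕ → ℕ → Bool := onCell 536870912 536870912 1073741824 536870912 1046898278 26843546
    (rowNX 3 0 false false false .npp 1 0 2 (qsf 536870912 536870912 1073741824 536870912 0) ndN3q1 ndN5q2 pcN0 Cut.none Ext.none)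

def k0_mm_102 : ∃ t, chk3 f_mm_102 t 1 1 1 = true :=
  ⟨(l 5), by decide +kernel⟩

theorem c_mm_102 : CertNX 536870912 536870912 1073741824 536870912 1046898278 26843546 3 false false false .npp 1 0 2
    ndN3q1 ndN5q2 pcN0 Cut.none Ext.none :=
  certNX0 (fam := false) (s1 := false) (s2 := false) (a := 1) (b := 0) (c := 2) (cn := .npp) (n1 := ndN3q1) (n2 := ndN5q2) (pc := pcN0) (cut := Cut.none) (xt := Ext.none) (P1 := 536870912) (W1 := 536870912) (P2 := 1073741824) (W2 := 536870912) (P3 := 1046898278) (W3 := 26843546) (N0 := 3)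
    rfl k0_mm_102

noncomputable def f_mm_112 : ℕ → ℕ → ℕ → ℕ → Bool := onCell 536870912 536870912 1073741824 536870912 1046898278 26843546
    (rowNX 3 0 false false false .dn 1 1 2 (qsf 536870912 536870912 1073741824 536870912 1) ndN3q1 ndN5q2 pcN1 Cut.none Ext.none)

def k0_mm_112 : ∃ t, chk3 f_mm_112 t 1 1 1 = true :=
  ⟨(l 5), by decide +kernel⟩

theorem c_mm_112 : CertNX 536870912 536870912 1073741824 536870912 1046898278 26843546 3 false false false .dn 1 1 2
    ndN3q1 ndN5q2 pcN1 Cut.none Ext.none :=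
  certNX0 (fam := false) (s1 := false) (s2 := false) (a := 1) (b := 1) (c := 2) (cn := .dn) (n1 := ndN3q1) (n2 := ndN5q2) (pc := pcN1) (cut := Cut.none) (xt := Ext.none) (P1 := 536870912) (W1 := 536870912) (P2 := 1073741824) (W2 := 536870912) (P3 := 1046898278) (W3 := 26843546) (N0 := 3)
    rfl k0_mm_112

noncomputable def f_mm_113 : ℕ → ℕ → ℕ → ℕ → Bool := onCell 536870912 536870912 0 1230186008 1046898278 26843546
    (rowNX 3 0 false false false .nn 1 1 3 (qsf 536870912 536870912 0 1230186008 1) ndN3q1 ndN5q3 pcN1 Cut.none Ext.none)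

def k0_mm_113 : ∃ t, chk3 f_mm_113 t 1 1 1 = true :=
  ⟨(l 5), by decide +kernel⟩

theorem c_mm_113 : CertNX 536870912 536870912 0 1230186008 1046898278 26843546 3 false false false .nn 1 1 3
    ndN3q1 ndN5q3 pcN1 Cut.none Ext.none :=
  certNX0 (fam := false) (s1 := false) (s2 := false) (a := 1) (b := 1) (c := 3) (cn := .nn) (n1 := ndN3q1) (n2 := ndN5q3) (pc := pcN1) (cut := Cut.none) (xt := Ext.none) (P1 := 536870912) (W1 := 536870912) (P2 := 0) (W2 := 1230186008) (P3 := 1046898278) (W3 := 26843546) (N0 := 3)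
    rfl k0_mm_113

noncomputable def f_mm_123 : ℕ → ℕ → ℕ → ℕ → Bool := onCell 536870912 536870912 0 1230186008 1046898278 26843546
    (rowNX 3 0 false false false .npn 1 2 3 (qsf 536870912 536870912 0 1230186008 2) ndN3q1 ndN5q3 pcN2 Cut.none Ext.none)

def k0_mm_123 : ∃ t, chk3 f_mm_123 t 1 1 1 = true :=
  ⟨(l 5), by decide +kernel⟩

theorem c_mm_123 : CertNX 536870912 536870912 0 1230186008 1046898278 26843546 3 false false false .npn 1 2 3
    ndN3q1 ndN5q3 pcN2 Cut.none Ext.none :=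
  certNX0 (fam := false) (s1 := false) (s2 := false) (a := 1) (b := 2) (c := 3) (cn := .npn) (n1 := ndN3q1) (n2 := ndN5q3) (pc := pcN2) (cut := Cut.none) (xt := Ext.none) (P1 := 536870912) (W1 := 536870912) (P2 := 0) (W2 := 1230186008) (P3 := 1046898278) (W3 := 26843546) (N0 := 3)
    rfl k0_mm_123

noncomputable def f_mm_133 : ℕ → ℕ → ℕ → ℕ → Bool := onCell 536870912 536870912 0 1230186008 1046898278 26843546
    (rowNX 3 0 false false false .dn 1 3 3 (qsf 536870912 536870912 0 1230186008 3) ndN3q1 ndN5q3 pcN3 Cut.none Ext.none)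

def k0_mm_133 : ∃ t, chk3 f_mm_133 t 1 1 1 = true :=
  ⟨(l 5), by decide +kernel⟩

theorem c_mm_133 : CertNX 536870912 536870912 0 1230186008 1046898278 26843546 3 false false false .dn 1 3 3
    ndN3q1 ndN5q3 pcN3 Cut.none Ext.none :=
  certNX0 (fam := false) (s1 := false) (s2 := false) (a := 1) (b := 3) (c := 3) (cn := .dn) (n1 := ndN3q1) (n2 := ndN5q3) (pc := pcN3) (cut := Cut.none) (xt := Ext.none) (P1 := 536870912) (W1 := 536870912) (P2 := 0) (W2 := 1230186008) (P3 := 1046898278) (W3 := 26843546) (N0 := 3)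
    rfl k0_mm_133

noncomputable def f_mm_202 : ℕ → ℕ → ℕ → ℕ → Bool := onCell 1073741824 536870912 1073741824 536870912 1046898278 26843546
    (rowNX 3 0 false false false .pp 2 0 2 (qsf 1073741824 536870912 1073741824 536870912 0) ndN3q2 ndN5q2 pcN0 Cut.none Ext.none)

def k0_mm_202 : ∃ t, chk3 f_mm_202 t 1 1 1 = true :=
  ⟨(l 3), by decide +kernel⟩

theorem c_mm_202 : CertNX 1073741824 536870912 1073741824 536870912 1046898278 26843546 3 false false false .pp 2 0 2
    ndN3q2 ndN5q2 pcN0 Cut.none Ext.none :=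
  certNX0 (fam := false) (s1 := false) (s2 := false) (a := 2) (b := 0) (c := 2) (cn := .pp) (n1 := ndN3q2) (n2 := ndN5q2) (pc := pcN0) (cut := Cut.none) (xt := Ext.none) (P1 := 1073741824) (W1 := 536870912) (P2 := 1073741824) (W2 := 536870912) (P3 := 1046898278) (W3 := 26843546) (N0 := 3)
    rfl k0_mm_202

noncomputable def f_mm_203 : ℕ → ℕ → ℕ → ℕ → Bool := onCell 1073741824 536870912 0 1230186008 1046898278 26843546
    (rowNX 3 0 false false false .up 2 0 3 (qsf 1073741824 536870912 0 1230186008 0) ndN3q2 ndN5q3 pcN0 Cut.none Ext.none)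

def k0_mm_203 : ∃ t, chk3 f_mm_203 t 1 1 1 = true :=
  ⟨(b (l 5) (l 3)), by decide +kernel⟩

theorem c_mm_203 : CertNX 1073741824 536870912 0 1230186008 1046898278 26843546 3 false false false .up 2 0 3
    ndN3q2 ndN5q3 pcN0 Cut.none Ext.none :=
  certNX0 (fam := false) (s1 := false) (s2 := false) (a := 2) (b := 0) (c := 3) (cn := .up) (n1 := ndN3q2) (n2 := ndN5q3) (pc := pcN0) (cut := Cut.none) (xt := Ext.none) (P1 := 1073741824) (W1 := 536870912) (P2 := 0) (W2 := 1230186008) (P3 := 1046898278) (W3 := 26843546) (N0 := 3)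
    rfl k0_mm_203

noncomputable def f_mm_213 : ℕ → ℕ → ℕ → ℕ → Bool := onCell 1073741824 536870912 0 1230186008 1046898278 26843546
    (rowNX 3 0 false false false .pnn 2 1 3 (qsf 1073741824 536870912 0 1230186008 1) ndN3q2 ndN5q3 pcN1 Cut.none Ext.none)

def k0_mm_213 : ∃ t, chk3 f_mm_213 t 1 1 1 = true :=
  ⟨(b (l 5) (l 3)), by decide +kernel⟩

theorem c_mm_213 : CertNX 1073741824 536870912 0 1230186008 1046898278 26843546 3 false false false .pnn 2 1 3
    ndN3q2 ndN5q3 pcN1 Cut.none Ext.none :=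
  certNX0 (fam := false) (s1 := false) (s2 := false) (a := 2) (b := 1) (c := 3) (cn := .pnn) (n1 := ndN3q2) (n2 := ndN5q3) (pc := pcN1) (cut := Cut.none) (xt := Ext.none) (P1 := 1073741824) (W1 := 536870912) (P2 := 0) (W2 := 1230186008) (P3 := 1046898278) (W3 := 26843546) (N0 := 3)
    rfl k0_mm_213

noncomputable def f_mm_303 : ℕ → ℕ → ℕ → ℕ → Bool := onCell 1610612736 536870912 0 1230186008 1046898278 26843546
    (rowNX 3 0 false false false .npn 3 0 3 (qsf 1610612736 536870912 0 1230186008 0) ndN3q3 ndN5q3 pcN0 Cut.none Ext.none)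

def k0_mm_303 : ∃ t, chk3 f_mm_303 t 1 1 1 = true :=
  ⟨(b (l 3) (l 3)), by decide +kernel⟩

theorem c_mm_303 : CertNX 1610612736 536870912 0 1230186008 1046898278 26843546 3 false false false .npn 3 0 3
    ndN3q3 ndN5q3 pcN0 Cut.none Ext.none :=
  certNX0 (fam := false) (s1 := false) (s2 := false) (a := 3) (b := 0) (c := 3) (cn := .npn) (n1 := ndN3q3) (n2 := ndN5q3) (pc := pcN0) (cut := Cut.none) (xt := Ext.none) (P1 := 1610612736) (W1 := 536870912) (P2 := 0) (W2 := 1230186008) (P3 := 1046898278) (W3 := 26843546) (N0 := 3)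
    rfl k0_mm_303

noncomputable def f_mm_313 : ℕ → ℕ → ℕ → ℕ → Bool := onCell 1610612736 536870912 0 1230186008 1046898278 26843546
    (rowNX 3 0 false false false .dn 3 1 3 (qsf 1610612736 536870912 0 1230186008 1) ndN3q3 ndN5q3 pcN1 Cut.none Ext.none)

def k0_mm_313 : ∃ t, chk3 f_mm_313 t 1 1 1 = true :=
  ⟨(b (l 3) (l 1)), by decide +kernel⟩

theorem c_mm_313 : CertNX 1610612736 536870912 0 1230186008 1046898278 26843546 3 false false false .dn 3 1 3
    ndN3q3 ndN5q3 pcN1 Cut.none Ext.none :=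
  certNX0 (fam := false) (s1 := false) (s2 := false) (a := 3) (b := 1) (c := 3) (cn := .dn) (n1 := ndN3q3) (n2 := ndN5q3) (pc := pcN1) (cut := Cut.none) (xt := Ext.none) (P1 := 1610612736) (W1 := 536870912) (P2 := 0) (W2 := 1230186008) (P3 := 1046898278) (W3 := 26843546) (N0 := 3)
    rfl k0_mm_313

end Pool.Agent.Strip051.G.IE1.Tab.C.NB35

namespace Pool.Agent.Strip051.G.IE1.Tab.C.NB36

open Pool.Agent.Strip051.PB Pool.Agent.Strip051.PB.T
open Pool.Agent.Strip051.G.IE1.Tab

noncomputable def f_pp_001 : ℕ → ℕ → ℕ → ℕ → Bool := onCell 0 536870912 0 536870912 1046898278 26843546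
    (rowNX 3 1 false true true .up 0 0 1 (qsf 0 536870912 536870912 469762048 0) ndN3q0 ndN6q1 pcN0 Cut.none Ext.none)

def k0_pp_001 : ∃ t, chk3 f_pp_001 t 1 1 1 = true :=
  ⟨(l 3), by decide +kernel⟩

theorem c_pp_001 : CertNX 0 536870912 536870912 469762048 1046898278 26843546 3 false true true .up 0 0 1
    ndN3q0 ndN6q1 pcN0 Cut.none Ext.none :=
  certNX1 (fam := false) (s1 := true) (s2 := true) (a := 0) (b := 0) (c := 1) (cn := .up) (n1 := ndN3q0) (n2 := ndN6q1) (pc := pcN0) (cut := Cut.none) (xt := Ext.none) (P1 := 0) (W1 := 536870912) (P2 := 536870912) (W2 := 469762048) (P3 := 1046898278) (W3 := 26843546) (N0 := 3)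
    rfl (fun _ => rfl) k0_pp_001

noncomputable def f_pp_011 : ℕ → ℕ → ℕ → ℕ → Bool := onCell 0 536870912 536870912 469762048 1046898278 26843546
    (rowNX 3 0 false true true .pnn 0 1 1 (qsf 0 536870912 536870912 469762048 1) ndN3q0 ndN6q1 pcN1 Cut.none Ext.none)

def k0_pp_011 : ∃ t, chk3 f_pp_011 t 1 1 1 = true :=
  ⟨(a (l 3) (l 3)), by decide +kernel⟩

theorem c_pp_011 : CertNX 0 536870912 536870912 469762048 1046898278 26843546 3 false true true .pnn 0 1 1
    ndN3q0 ndN6q1 pcN1 Cut.none Ext.none :=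
  certNX0 (fam := false) (s1 := true) (s2 := true) (a := 0) (b := 1) (c := 1) (cn := .pnn) (n1 := ndN3q0) (n2 := ndN6q1) (pc := pcN1) (cut := Cut.none) (xt := Ext.none) (P1 := 0) (W1 := 536870912) (P2 := 536870912) (W2 := 469762048) (P3 := 1046898278) (W3 := 26843546) (N0 := 3)
    rfl k0_pp_011

noncomputable def f_pp_012 : ℕ → ℕ → ℕ → ℕ → Bool := onCell 0 536870912 536870912 536870912 1046898278 26843546
    (rowNX 3 1 false true true .pnp 0 1 2 (qsf 0 536870912 1073741824 536870912 1) ndN3q0 ndN6q2 pcN1 Cut.none Ext.none)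

def k0_pp_012 : ∃ t, chk3 f_pp_012 t 1 1 1 = true :=
  ⟨(b (l 3) (a (l 3) (a (l 3) (a (l 3) (b (l 3) (b (l 3) (b (l 3) (b (l 644409763095) (c (l 15442168) (l 604681141799)))))))))), by decide +kernel⟩

theorem c_pp_012 : CertNX 0 536870912 1073741824 536870912 1046898278 26843546 3 false true true .pnp 0 1 2
    ndN3q0 ndN6q2 pcN1 Cut.none Ext.none :=
  certNX1 (fam := false) (s1 := true) (s2 := true) (a := 0) (b := 1) (c := 2) (cn := .pnp) (n1 := ndN3q0) (n2 := ndN6q2) (pc := pcN1) (cut := Cut.none) (xt := Ext.none) (P1 := 0) (W1 := 536870912) (P2 := 1073741824) (W2 := 536870912) (P3 := 1046898278) (W3 := 26843546) (N0 := 3)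
    rfl (fun _ => rfl) k0_pp_012

noncomputable def f_pp_022 : ℕ → ℕ → ℕ → ℕ → Bool := onCell 0 536870912 1073741824 536870912 1046898278 26843546
    (rowNX 3 1 false true true .pp 0 2 2 (qsf 0 536870912 1073741824 536870912 2) ndN3q0 ndN6q2 pcN2 Cut.none Ext.none)

def k0_pp_022 : ∃ t, chk3 f_pp_022 t 2 4 1 = true :=
  ⟨(b (l 3) (a (l 3) (b (l 3) (a (b (l 3) (a (l 3) (c (l 1243023420679) (l 1183430735751)))) (a (b (l 3) (b (l 990694334855) (c (l 16709400) (l 16706992)))) (b (c (l 822117351175) (b (l 16764136) (l 16773632))) (b (c (l 16763680) (l 16763208)) (c (l 16738896) (l 16737560))))))))), by decide +kernel⟩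

def k1_pp_022 : ∃ t, chk3 f_pp_022 t 3 4 1 = true :=
  ⟨(a (a (b (l 3) (b (b (l 753396411127) (c (l 686825067911) (l 755007668647))) (b (b (c (l 16765904) (l 16765504)) (a (l 16759032) (l 16714600))) (a (b (l 16719064) (l 16643664)) (l 16633728))))) (b (b (l 3) (b (c (l 701318739191) (l 728699069783)) (b (c (l 15934720) (l 15989280)) (c (l 16108544) (l 16106064))))) (b (b (c (a (l 16217632) (l 16278432)) (a (l 16180648) (b (l 16121128) (l 16244640)))) (b (a (l 16523920) (l 16429760)) (l 16578160))) (b (a (b (l 16765480) (l 16710888)) (l 16716088)) (a (l 16713064) (l 16634040)))))) (a (b (b (b (a (l 3) (c (l 684138235463) (b (l 3) (c (l 676085158551) (l 15451736))))) (c (b (c (l 15538064) (l 676622243095)) (c (l 15623024) (l 15637376))) (a (l 15570632) (l 15564424)))) (b (c (a (l 15729152) (l 15739056)) (a (l 15745072) (l 15682520))) (a (b (a (l 15947792) (l 15860624)) (l 15954344)) (c (l 15582488) (l 15732840))))) (a (b (a (b (l 16131416) (l 16408080)) (c (b (l 15901216)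 (l 16260208)) (b (l 15995592) (l 16289416)))) (b (b (a (l 16625448) (c (l 16471984) (l 16503688))) (c (c (l 16465312) (l 16441920)) (l 16484064))) (c (a (l 16380280) (l 16099360)) (l 16330576)))) (b (c (b (l 15926792) (b (l 15825632) (l 16024272))) (b (l 15742480) (l 16128256))) (b (b (c (l 16101920) (l 16155840)) (l 2)) (l 2))))) (b (b (b (a (c (b (l 15457056) (l 15537648)) (b (c (l 15421800) (b (l 15372288) (l 15405576))) (c (l 15342400) (l 15460040)))) (c (l 15603648) (l 15420320))) (c (l 15632616) (l 15547328))) (b (c (l 15598248) (l 15556296)) (c (a (l 15623824) (l 2)) (l 15527600)))) (b (b (c (a (l 15693816) (l 2)) (l 15506160)) (l 2)) (l 2))))), by decide +kernel⟩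

def k2_pp_022 : ∃ t, chk3 f_pp_022 t 4 40 1 = true :=
  ⟨(b (l 3) (a (l 3) (a (l 3) (a (l 3) (b (l 3) (l 16191096)))))), by decide +kernel⟩

def k3_pp_022 : ∃ t, chk3 f_pp_022 t 4 82 1 = true :=
  ⟨(a (l 3) (b (a (l 3) (a (l 1962965896071) (l 16191008))) (a (a (l 3) (c (l 15567664) (l 15525120))) (a (c (l 16024384) (l 15997952)) (c (l 16201000) (l 16180768)))))), by decide +kernel⟩

def k4_pp_022 : ∃ t, chk3 f_pp_022 t 4 166 1 = true :=
  ⟨(a (b (l 3) (a (l 3) (a (l 3) (c (l 2736058684935) (l 14968400))))) (a (a (c (b (l 3030263344199) (a (l 14975896) (l 15174008))) (b (l 14978488) (l 968678877063))) (c (b (l 15567640) (l 15567624)) (l 604144540567))) (b (c (l 16091832) (l 16089480)) (c (a (l 16024368) (l 16195008)) (a (l 15997936) (l 16174536)))))), by decide +kernel⟩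

def k5_pp_022 : ∃ t, chk3 f_pp_022 t 4 334 1 = true :=
  ⟨(b (a (a (l 3) (c (a (l 3) (l 1932362824167)) (l 4296204826407))) (a (a (c (l 15022032) (l 15002704)) (l 15336648)) (c (a (l 16022752) (l 16186328)) (a (l 15996256) (l 16165488))))) (a (a (a (a (c (l 15701296) (c (l 15713440) (l 15712040))) (c (c (l 15561368) (l 15572864)) (l 15572680))) (l 3)) (c (a (c (l 15191752) (l 15166576)) (c (l 14982744) (l 14951920))) (a (l 15129000) (l 14904400)))) (a (c (a (a (l 14937128) (l 15174024)) (l 15567664)) (a (l 14995840) (l 15525120))) (a (c (b (l 16020344) (l 16014952)) (b (l 15993736) (l 15988128))) (l 16155200))))), by decide +kernel⟩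

def k6_pp_022 : ∃ t, chk3 f_pp_022 t 4 335 1 = true :=
  ⟨(b (a (b (b (a (a (c (a (l 15704288) (l 15552592)) (a (l 15674552) (l 15554448))) (l 3)) (c (a (l 15163696) (l 14952312)) (a (l 15112248) (l 14888480)))) (b (a (a (c (a (l 15698896) (l 15547336)) (a (l 15627016) (l 15548984))) (c (a (l 15443192) (l 15329152)) (l 15351512))) (c (a (l 15158864) (l 14947728)) (l 14947704))) (a (a (c (a (c (l 15701480) (l 15688328)) (c (l 15535280) (l 15546280))) (c (a (l 15685728) (l 15555024)) (a (l 15683800) (l 15540496)))) (a (c (l 15439768) (l 15413464)) (c (l 15325808) (l 15283272)))) (c (a (a (l 15211904) (l 15100592)) (c (l 14960000) (l 14928728))) (a (l 15103880) (l 14880536)))))) (a (a (c (l 15467176) (a (l 15676896) (l 15536240))) (c (l 15371784) (l 15339216))) (a (l 15122240) (l 14906448)))) (b (a (b (c (a (l 15052488) (l 15565680)) (a (l 14990776) (l 15523048))) (b (c (a (l 15051400) (l 15563440)) (a (l 14989648) (l 15520720))) (a (c (c (l 14939368) (l 15034896)) (a (l 14859344)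 (l 15117600))) (a (c (c (l 15445928) (l 15422624)) (l 15387008)) (l 15666752))))) (b (c (l 15994544) (l 16053680)) (l 15989848))) (a (a (l 15022344) (l 15537112)) (l 16045672)))) (a (a (a (c (l 15424960) (a (l 15654584) (l 15514448))) (c (l 15351528) (l 15318176))) (a (l 15102592) (l 14887784))) (a (a (l 15020400) (l 15536824)) (l 16045872)))), by decide +kernel⟩

def k7_pp_022 : ∃ t, chk3 f_pp_022 t 4 21 1 = true :=
  ⟨(a (a (a (c (a (b (l 15424544) (l 14988712)) (b (l 15279408) (l 14854104))) (a (c (l 15075296) (l 14979872)) (l 14795248))) (c (a (b (l 15181656) (l 14766816)) (l 14806160)) (b (l 15083072) (l 14657208)))) (a (b (c (l 14913128) (l 14851856)) (c (a (l 14531640) (b (l 14604680) (l 14542344))) (a (l 14519792) (l 14505264)))) (b (c (a (b (l 14858952) (l 14700280)) (b (l 14796640) (l 14734232))) (a (l 14714424) (l 14704328))) (l 14649320)))) (a (a (a (l 14883120) (l 15143568)) (l 15531608)) (l 15989832))), by decide +kernel⟩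

def k8_pp_022 : ∃ t, chk3 f_pp_022 t 4 11 1 = true :=
  ⟨(a (a (b (a (b (c (a (l 14574272) (l 14450104)) (a (l 14521032) (l 14408280))) (a (c (b (l 14277424) (l 14119360)) (b (l 14211920) (l 14047208))) (c (a (l 14151208) (l 14170688)) (l 14119520)))) (b (c (a (b (l 14469624) (l 14311336)) (l 14391904)) (a (l 14327672) (l 14312208))) (c (l 14297608) (l 14222160)))) (a (c (a (l 14056520) (l 14130888)) (a (l 13981688) (l 14075816))) (c (l 14297024) (l 14221552)))) (a (c (l 14494232) (l 14416264)) (c (l 14621120) (l 14609680)))) (a (a (b (l 15013856) (l 15016752)) (l 15539704)) (b (l 16079816) (l 16101272)))), by decide +kernel⟩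

def k9_pp_022 : ∃ t, chk3 f_pp_022 t 5 5 1 = true :=
  ⟨(b (b (b (a (b (c (a (l 1497499718727) (l 16592216)) (l 1271477002903)) (a (c (l 895130556215) (l 877413790775)) (c (b (l 16588448) (l 16581736)) (b (l 16581792) (l 16574800))))) (a (b (c (l 16700016) (l 16697264)) (b (l 16680496) (l 16652864))) (l 16616024))) (a (b (b (a (a (l 16339464) (l 16478448)) (c (l 16566888) (l 16559360))) (a (c (a (l 16344304) (l 16472352)) (b (l 16397408) (l 16391312))) (l 16529072))) (b (a (b (c (l 16393344) (l 16379712)) (c (l 16372744) (l 16358280))) (l 16490344)) (b (l 16315736) (a (l 16313488) (l 16453528))))) (b (a (l 16607472) (l 16474128)) (b (a (l 16558224) (l 16436408)) (b (a (l 16535072) (l 16483384)) (a (l 16536928) (a (l 16501696) (l 16593992)))))))) (a (l 16277840) (a (l 16602576) (l 16665720)))) (a (a (l 16393320) (a (l 16543072) (l 16413296))) (b (a (l 16683456) (l 16765592)) (l 16745160)))), by decide +kernel⟩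

def k10_pp_022 : ∃ t, chk3 f_pp_022 t 3 5 1 = true :=
  ⟨(a (b (a (b (b (a (l 16544584) (l 16606984)) (b (a (l 16496112) (l 16736312)) (b (l 16711432) (l 16743416)))) (l 16679128)) (a (b (b (l 16704072) (b (l 16551392) (b (l 16466608) (l 16437248)))) (c (l 16406032) (l 16408080))) (a (b (b (l 16510728) (b (l 16352600) (a (l 16346392) (b (l 16151336) (l 2))))) (c (l 16348528) (l 16352904))) (b (b (c (l 16268192) (l 16314728)) (b (c (l 16155760) (l 16112456)) (l 2))) (l 2))))) (b (a (l 16716304) (a (a (c (l 16663512) (l 16661976)) (l 2)) (l 2))) (l 16777032))) (b (b (a (b (a (c (a (l 16158832) (l 2)) (l 16079832)) (l 2)) (l 2)) (l 2)) (l 2)) (l 2))), by decide +kernel⟩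

def k11_pp_022 : ∃ t, chk3 f_pp_022 t 1 3 1 = true :=
  ⟨(a (a (a (b (a (a (b (c (l 14097408) (l 14029928)) (l 14066616)) (b (l 14250104) (l 14250104))) (b (a (l 14455736) (l 14648720)) (l 14549544))) (a (a (l 13982728) (l 14250104)) (b (l 14549544) (l 14549544)))) (b (a (b (l 15286440) (l 15286440)) (l 15849656)) (a (l 15139640) (l 16101312)))) (b (a (b (l 16500672) (l 16500672)) (b (l 16745168) (l 16745168))) (a (l 16500672) (l 2)))) (b (b (a (l 16777216) (l 2)) (l 2)) (l 2))), by decide +kernel⟩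

theorem s12_pp_022 : ∃ t, chk3 f_pp_022 t 4 167 1 = true := ex3_b k5_pp_022 k6_pp_022

theorem s13_pp_022 : ∃ t, chk3 f_pp_022 t 4 83 1 = true := ex3_b k4_pp_022 s12_pp_022

theorem s14_pp_022 : ∃ t, chk3 f_pp_022 t 4 41 1 = true := ex3_b k3_pp_022 s13_pp_022

theorem s15_pp_022 : ∃ t, chk3 f_pp_022 t 4 20 1 = true := ex3_b k2_pp_022 s14_pp_022

theorem s16_pp_022 : ∃ t, chk3 f_pp_022 t 4 10 1 = true := ex3_b s15_pp_022 k7_pp_022

theorem s17_pp_022 : ∃ t, chk3 f_pp_022 t 4 5 1 = true := ex3_b s16_pp_022 k8_pp_022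

theorem s18_pp_022 : ∃ t, chk3 f_pp_022 t 2 5 1 = true := ex3_a s17_pp_022 k9_pp_022

theorem s19_pp_022 : ∃ t, chk3 f_pp_022 t 1 5 1 = true := ex3_a s18_pp_022 k10_pp_022

theorem s20_pp_022 : ∃ t, chk3 f_pp_022 t 1 4 1 = true := ex3_a k0_pp_022 k1_pp_022

theorem s21_pp_022 : ∃ t, chk3 f_pp_022 t 1 2 1 = true := ex3_b s20_pp_022 s19_pp_022

theorem s22_pp_022 : ∃ t, chk3 f_pp_022 t 1 1 1 = true := ex3_b s21_pp_022 k11_pp_022

theorem c_pp_022 : CertNX 0 536870912 1073741824 536870912 1046898278 26843546 3 false true true .pp 0 2 2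
    ndN3q0 ndN6q2 pcN2 Cut.none Ext.none :=
  certNX1 (fam := false) (s1 := true) (s2 := true) (a := 0) (b := 2) (c := 2) (cn := .pp) (n1 := ndN3q0) (n2 := ndN6q2) (pc := pcN2) (cut := Cut.none) (xt := Ext.none) (P1 := 0) (W1 := 536870912) (P2 := 1073741824) (W2 := 536870912) (P3 := 1046898278) (W3 := 26843546) (N0 := 3)
    rfl (fun _ => rfl) s22_pp_022

noncomputable def f_pp_023 : ℕ → ℕ → ℕ → ℕ → Bool := onCell 1073741824 536870912 0 1230186008 1046898278 26843546
    (rowNX 3 2 false true true .up 0 2 3 (qsf 0 536870912 0 1230186008 2) ndN3q0 ndN6q3 pcN2 Cut.none Ext.none)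

def k0_pp_023 : ∃ t, chk3 f_pp_023 t 1 2 1 = true :=
  ⟨(a (l 2) (a (l 2) (b (a (l 2) (l 4)) (l 16740592)))), by decide +kernel⟩

def k1_pp_023 : ∃ t, chk3 f_pp_023 t 1 6 1 = true :=
  ⟨(a (a (l 2) (a (l 2) (a (l 2) (l 16741952)))) (b (a (l 16765368) (l 16777152)) (l 16777200))), by decide +kernel⟩

def k2_pp_023 : ∃ t, chk3 f_pp_023 t 1 14 1 = true :=
  ⟨(a (a (l 2) (a (a (l 14536576) (l 15392488)) (a (l 16314808) (l 16776664)))) (a (l 16777216) (b (l 16765672) (a (l 16766248) (l 16626960))))), by decide +kernel⟩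

def k3_pp_023 : ∃ t, chk3 f_pp_023 t 1 15 1 = true :=
  ⟨(b (a (a (a (l 2) (b (a (l 2) (b (l 14614848) (b (l 14610408) (l 14579512)))) (a (c (l 15067008) (l 15050200)) (c (l 14774888) (l 14902088))))) (a (b (a (b (l 14496856) (a (l 14430840) (l 14518792))) (c (l 15294696) (l 15393760))) (a (a (l 14833360) (c (l 15059440) (l 14999152))) (c (l 15710528) (l 15673088)))) (a (b (l 16335744) (l 16441880)) (l 16776824)))) (a (a (l 16777216) (l 16767256)) (a (l 16633832) (b (l 16421376) (a (l 16323424) (l 15658232)))))) (a (b (a (a (a (l 2) (l 15198640)) (a (c (l 15458048) (l 15411720)) (a (a (l 15567336) (l 15814152)) (c (l 15424600) (l 15485072))))) (a (a (c (a (c (l 15489592) (l 15454880)) (a (l 15379112) (a (l 15549968) (l 15770440)))) (a (l 15420216) (l 15533368))) (c (l 16077640) (l 16054312))) (a (c (l 16521120) (l 16564144)) (l 16776960)))) (a (a (a (c (a (l 15647008) (l 15636440)) (l 15585864)) (c (l 15587304) (l 15540200))) (a (c (a (l 15717656) (l 15937760)) (l 15821072))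 (c (a (a (l 16107360) (l 16100064)) (b (l 16042032) (l 16304824))) (a (b (l 15993904) (l 16354440)) (l 16235056))))) (a (a (a (c (b (c (l 15767096) (l 15949752)) (l 16242488)) (l 16158632)) (a (c (b (l 15752288) (l 16162256)) (l 16108648)) (b (l 15956792) (b (a (l 16109752) (l 16167464)) (l 16327464))))) (c (c (l 16351496) (l 16326936)) (l 16339656))) (a (c (l 16645768) (l 16644344)) (l 16777000))))) (a (a (l 16762416) (b (l 16706912) (l 16579728))) (a (b (l 16404384) (a (l 16250072) (b (l 15976920) (l 15507944)))) (b (a (l 15579296) (b (l 15248416) (l 14812760))) (a (b (l 15169680) (l 14735232)) (b (l 14486320) (l 14277352)))))))), by decide +kernel⟩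

theorem s4_pp_023 : ∃ t, chk3 f_pp_023 t 1 7 1 = true := ex3_b k2_pp_023 k3_pp_023

theorem s5_pp_023 : ∃ t, chk3 f_pp_023 t 1 3 1 = true := ex3_b k1_pp_023 s4_pp_023

theorem s6_pp_023 : ∃ t, chk3 f_pp_023 t 1 1 1 = true := ex3_b k0_pp_023 s5_pp_023

theorem c_pp_023 : CertNX 0 536870912 0 1230186008 1046898278 26843546 3 false true true .up 0 2 3
    ndN3q0 ndN6q3 pcN2 Cut.none Ext.none :=
  certNX2 (fam := false) (s1 := true) (s2 := true) (a := 0) (b := 2) (c := 3) (cn := .up) (n1 := ndN3q0) (n2 := ndN6q3) (pc := pcN2) (cut := Cut.none) (xt := Ext.none) (P1 := 0) (W1 := 536870912) (P2 := 0) (W2 := 1230186008) (P3 := 1046898278) (W3 := 26843546) (N0 := 3)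
    rfl (fun _ => rfl) s6_pp_023

noncomputable def f_pp_033 : ℕ → ℕ → ℕ → ℕ → Bool := onCell 0 536870912 0 1230186008 1046898278 26843546
    (rowNX 3 0 false true true .pnn 0 3 3 (qsf 0 536870912 0 1230186008 3) ndN3q0 ndN6q3 pcN3 Cut.none Ext.none)

def k0_pp_033 : ∃ t, chk3 f_pp_033 t 1 1 1 = true :=
  ⟨(a (b (b (l 4) (b (l 4) (a (b (l 4) (a (a (c (l 1297309858007) (l 1237179730967)) (b (l 4) (l 14549424))) (a (l 15050752) (l 16096208)))) (a (c (l 16489480) (l 16475528)) (c (l 16726520) (l 16723160)))))) (b (a (a (b (a (b (a (l 13961704) (l 14250048)) (c (l 14194144) (l 14127752))) (b (l 14549488) (l 14549456))) (a (b (l 14163536) (l 14163584)) (l 14549528))) (b (b (a (l 15286392) (l 16101264)) (a (l 15286368) (l 16101232))) (a (l 15286424) (l 16101296)))) (b (a (b (l 16500624) (l 16500592)) (l 16745104)) (a (l 16500648) (l 16745152)))) (a (a (b (a (b (l 14163584) (l 14163584)) (l 14381768)) (a (b (l 14163584) (l 14163584)) (l 14549544))) (b (a (l 15139640) (l 16101312))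 (a (b (l 15286440) (l 15286440)) (l 16101312)))) (b (a (l 16500672) (l 16745168)) (a (l 16500672) (l 1)))))) (b (b (l 4) (a (c (b (l 16732104) (l 16755968)) (b (l 16721576) (l 16755072))) (b (l 16728152) (l 16755512)))) (b (b (a (l 16777152) (l 16777152)) (l 16777200)) (l 1)))), by decide +kernel⟩

theorem c_pp_033 : CertNX 0 536870912 0 1230186008 1046898278 26843546 3 false true true .pnn 0 3 3
    ndN3q0 ndN6q3 pcN3 Cut.none Ext.none :=
  certNX0 (fam := false) (s1 := true) (s2 := true) (a := 0) (b := 3) (c := 3) (cn := .pnn) (n1 := ndN3q0) (n2 := ndN6q3) (pc := pcN3) (cut := Cut.none) (xt := Ext.none) (P1 := 0) (W1 := 536870912) (P2 := 0) (W2 := 1230186008) (P3 := 1046898278) (W3 := 26843546) (N0 := 3)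
    rfl k0_pp_033

noncomputable def f_pp_101 : ℕ → ℕ → ℕ → ℕ → Bool := onCell 536870912 536870912 536870912 469762048 1046898278 26843546
    (rowNX 3 0 false true true .npn 1 0 1 (qsf 536870912 536870912 536870912 469762048 0) ndN3q1 ndN6q1 pcN0 Cut.none Ext.none)

def k0_pp_101 : ∃ t, chk3 f_pp_101 t 1 1 1 = true :=
  ⟨(l 3), by decide +kernel⟩

theorem c_pp_101 : CertNX 536870912 536870912 536870912 469762048 1046898278 26843546 3 false true true .npn 1 0 1
    ndN3q1 ndN6q1 pcN0 Cut.none Ext.none :=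
  certNX0 (fam := false) (s1 := true) (s2 := true) (a := 1) (b := 0) (c := 1) (cn := .npn) (n1 := ndN3q1) (n2 := ndN6q1) (pc := pcN0) (cut := Cut.none) (xt := Ext.none) (P1 := 536870912) (W1 := 536870912) (P2 := 536870912) (W2 := 469762048) (P3 := 1046898278) (W3 := 26843546) (N0 := 3)
    rfl k0_pp_101

noncomputable def f_pp_102 : ℕ → ℕ → ℕ → ℕ → Bool := onCell 536870912 536870912 0 536870912 1046898278 26843546
    (rowNX 3 1 false true true .npp 1 0 2 (qsf 536870912 536870912 1073741824 536870912 0) ndN3q1 ndN6q2 pcN0 Cut.none Ext.none)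

def k0_pp_102 : ∃ t, chk3 f_pp_102 t 1 1 1 = true :=
  ⟨(l 3), by decide +kernel⟩

theorem c_pp_102 : CertNX 536870912 536870912 1073741824 536870912 1046898278 26843546 3 false true true .npp 1 0 2
    ndN3q1 ndN6q2 pcN0 Cut.none Ext.none :=
  certNX1 (fam := false) (s1 := true) (s2 := true) (a := 1) (b := 0) (c := 2) (cn := .npp) (n1 := ndN3q1) (n2 := ndN6q2) (pc := pcN0) (cut := Cut.none) (xt := Ext.none) (P1 := 536870912) (W1 := 536870912) (P2 := 1073741824) (W2 := 536870912) (P3 := 1046898278) (W3 := 26843546) (N0 := 3)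
    rfl (fun _ => rfl) k0_pp_102

noncomputable def f_pp_112 : ℕ → ℕ → ℕ → ℕ → Bool := onCell 536870912 536870912 1073741824 536870912 1046898278 26843546
    (rowNX 3 2 false true true .dn 1 1 2 (qsf 536870912 536870912 1073741824 536870912 1) ndN3q1 ndN6q2 pcN1 Cut.none Ext.none)

def k0_pp_112 : ∃ t, chk3 f_pp_112 t 1 1 1 = true :=
  ⟨(a (l 3) (b (l 3) (b (l 3) (a (l 3) (a (l 3) (a (l 659979452391) (b (l 1) (a (l 627229894535) (c (l 15441192) (l 15200552)))))))))), by decide +kernel⟩

theorem c_pp_112 : CertNX 536870912 536870912 1073741824 536870912 1046898278 26843546 3 false true true .dn 1 1 2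
    ndN3q1 ndN6q2 pcN1 Cut.none Ext.none :=
  certNX2 (fam := false) (s1 := true) (s2 := true) (a := 1) (b := 1) (c := 2) (cn := .dn) (n1 := ndN3q1) (n2 := ndN6q2) (pc := pcN1) (cut := Cut.none) (xt := Ext.none) (P1 := 536870912) (W1 := 536870912) (P2 := 1073741824) (W2 := 536870912) (P3 := 1046898278) (W3 := 26843546) (N0 := 3)
    rfl (fun _ => rfl) k0_pp_112

noncomputable def f_pp_113 : ℕ → ℕ → ℕ → ℕ → Bool := onCell 536870912 536870912 0 1230186008 1046898278 26843546
    (rowNX 3 2 false true true .nn 1 1 3 (qsf 536870912 536870912 0 1230186008 1) ndN3q1 ndN6q3 pcN1 Cut.none Ext.none)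

def k0_pp_113 : ∃ t, chk3 f_pp_113 t 1 2 1 = true :=
  ⟨(a (l 2) (a (l 2) (b (a (l 2) (a (l 2) (b (a (l 2) (c (l 16613776) (b (a (l 2) (l 16676128)) (l 16446216)))) (a (l 13982328) (l 15047240))))) (a (b (l 11760992) (b (a (l 2) (l 11809304)) (a (l 12107360) (b (l 12077144) (l 12352608))))) (b (a (b (l 11820408) (l 11788448)) (b (a (l 12214288) (l 12575032)) (l 12243136))) (a (b (l 12082032) (l 12640696)) (b (l 12454880) (l 12882088)))))))), by decide +kernel⟩

def k1_pp_113 : ∃ t, chk3 f_pp_113 t 2 3 1 = true :=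
  ⟨(b (a (l 2) (b (l 2) (a (l 2) (b (l 2) (a (l 2) (b (l 2) (l 12646272))))))) (b (a (l 2) (a (b (l 12630104) (a (l 3) (b (a (l 12643624) (b (l 12662024) (l 12832664))) (l 3)))) (b (a (b (l 12619224) (a (l 12672640) (b (l 12712248) (l 12911872)))) (c (b (l 12640192) (a (l 13153280) (l 13547576))) (b (a (l 12671808) (l 12932944)) (l 13311760)))) (a (b (a (b (l 12867552) (l 13133944)) (l 13405048)) (l 13839480)) (b (l 13910672) (l 14475912)))))) (a (l 3) (b (l 3) (l 3))))), by decide +kernel⟩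

def k2_pp_113 : ∃ t, chk3 f_pp_113 t 3 3 1 = true :=
  ⟨(a (b (b (a (l 2) (b (a (l 2) (l 12393624)) (a (b (l 12474368) (l 12544112)) (a (b (l 12499176) (l 12789264)) (l 12890496))))) (a (b (a (l 12613472) (b (l 12594256) (a (l 12645704) (l 12795128)))) (a (b (a (l 12614224) (l 12718808)) (a (c (l 12828552) (l 12778520)) (l 13074216))) (b (a (l 12927320) (l 13197416)) (l 13502952)))) (b (a (b (a (l 12683184) (l 12911328)) (a (l 13052240) (l 13437760))) (l 13601912)) (a (l 13951584) (l 14573336))))) (b (a (b (a (b (a (l 13225296) (l 13677456)) (l 14006208)) (b (l 14096208) (l 14573792))) (a (b (l 14497512) (l 15164352)) (b (l 15223736) (l 15855712)))) (b (a (b (l 14646704) (l 15282320)) (a (l 15487208) (l 15723144))) (a (b (l 15881608) (l 16312848)) (l 16404000)))) (a (b (a (b (l 15823856) (l 3)) (l 16426192)) (l 3)) (b (a (l 16676400) (l 16716648)) (l 16766464))))) (b (b (a (b (a (b (l 12313840) (l 12606696)) (l 12852576)) (a (l 13187496) (l 13524816))) (b (l 13360320) (a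 (l 13814424) (l 14093712)))) (a (b (a (l 13997072) (l 14365120)) (a (l 14946384) (l 15222240))) (b (a (l 14636328) (l 14705656)) (l 15167016)))) (b (a (b (a (l 15842608) (l 15800840)) (l 16065792)) (b (l 15430104) (a (a (l 15776992) (l 15611840)) (b (l 15343968) (b (l 15381344) (a (l 15481576) (a (l 15366920) (l 15285992)))))))) (a (b (l 16271464) (l 16334640)) (a (a (l 15844552) (l 15620040)) (a (c (b (l 15513008) (l 15519360)) (l 15473520)) (c (l 15392384) (b (l 15328856) (l 15153328))))))))), by decide +kernel⟩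

theorem s3_pp_113 : ∃ t, chk3 f_pp_113 t 1 3 1 = true := ex3_a k1_pp_113 k2_pp_113

theorem s4_pp_113 : ∃ t, chk3 f_pp_113 t 1 1 1 = true := ex3_b k0_pp_113 s3_pp_113

theorem c_pp_113 : CertNX 536870912 536870912 0 1230186008 1046898278 26843546 3 false true true .nn 1 1 3
    ndN3q1 ndN6q3 pcN1 Cut.none Ext.none :=
  certNX2 (fam := false) (s1 := true) (s2 := true) (a := 1) (b := 1) (c := 3) (cn := .nn) (n1 := ndN3q1) (n2 := ndN6q3) (pc := pcN1) (cut := Cut.none) (xt := Ext.none) (P1 := 536870912) (W1 := 536870912) (P2 := 0) (W2 := 1230186008) (P3 := 1046898278) (W3 := 26843546) (N0 := 3)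
    rfl (fun _ => rfl) s4_pp_113

noncomputable def f_pp_123 : ℕ → ℕ → ℕ → ℕ → Bool := onCell 1073741824 536870912 0 1230186008 1046898278 26843546
    (rowNX 3 2 false true true .npn 1 2 3 (qsf 536870912 536870912 0 1230186008 2) ndN3q1 ndN6q3 pcN2 Cut.none Ext.none)

def k0_pp_123 : ∃ t, chk3 f_pp_123 t 1 1 1 = true :=
  ⟨(b (a (a (b (a (b (a (c (l 16771808) (c (l 14926520) (l 13547720))) (c (l 16271856) (l 16020656))) (a (c (l 15393288) (c (l 14365768) (l 13664248))) (c (l 15550416) (l 15145216)))) (a (b (c (l 15986216) (l 15906256)) (l 15544856)) (b (l 15647520) (l 15296264)))) (a (b (a (c (l 14779168) (l 14104808)) (c (l 14652696) (l 14261648))) (b (a (l 13221784) (l 14228784)) (a (l 13459920) (l 14367928)))) (b (a (b (l 15024064) (l 14763072)) (l 14767072)) (a (b (l 14680504) (l 14745992)) (l 14620176))))) (b (a (b (a (l 15453368) (l 15532168)) (a (l 15216352) (l 15441936))) (a (l 15358928) (l 15819040))) (a (b (a (l 14836328) (l 15347240)) (l 14901088)) (a (l 15993248)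 (l 16366104))))) (a (b (a (l 16283336) (l 16675832)) (a (l 16558872) (l 16734528))) (b (a (l 16688536) (l 4)) (l 16740592)))) (a (a (b (b (a (b (a (l 13940120) (l 14588752)) (l 14608528)) (l 14782240)) (a (l 14968896) (l 14798808))) (a (b (l 15277568) (a (a (c (b (l 15778288) (b (l 15769368) (l 15647008))) (b (l 15742736) (l 15670344))) (c (l 15525416) (l 15471320))) (b (b (l 15280840) (c (l 15368840) (l 15317320))) (c (b (l 15475976) (l 15587304)) (l 15486264))))) (b (l 14784280) (b (b (b (l 14775600) (b (l 14774064) (a (l 14934680) (l 14558544)))) (a (c (l 15067008) (l 15050200)) (c (l 14774888) (l 14902088)))) (a (b (c (l 15458048) (l 15411720)) (l 1)) (l 1)))))) (b (a (a (a (l 14517160) (l 14737488)) (l 15446016)) (a (l 16309512) (l 16741952))) (b (a (a (l 14536576) (l 15392488)) (a (l 16314808) (l 16776664))) (a (a (b (a (b (l 331814607111) (l 1)) (l 1)) (l 1)) (l 1)) (l 1))))) (b (b (a (l 16765368) (l 16777152)) (l 16777200)) (l 1)))), by decide +kernel⟩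

theorem c_pp_123 : CertNX 536870912 536870912 0 1230186008 1046898278 26843546 3 false true true .npn 1 2 3
    ndN3q1 ndN6q3 pcN2 Cut.none Ext.none :=
  certNX2 (fam := false) (s1 := true) (s2 := true) (a := 1) (b := 2) (c := 3) (cn := .npn) (n1 := ndN3q1) (n2 := ndN6q3) (pc := pcN2) (cut := Cut.none) (xt := Ext.none) (P1 := 536870912) (W1 := 536870912) (P2 := 0) (W2 := 1230186008) (P3 := 1046898278) (W3 := 26843546) (N0 := 3)
    rfl (fun _ => rfl) k0_pp_123

noncomputable def f_pp_133 : ℕ → ℕ → ℕ → ℕ → Bool := onCell 1610612736 536870912 0 1230186008 1046898278 26843546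
    (rowNX 3 2 false true true .dn 1 3 3 (qsf 536870912 536870912 0 1230186008 3) ndN3q1 ndN6q3 pcN3 Cut.none Ext.none)

def k0_pp_133 : ∃ t, chk3 f_pp_133 t 1 1 1 = true :=
  ⟨(b (b (a (l 4) (l 1)) (l 1)) (l 1)), by decide +kernel⟩

theorem c_pp_133 : CertNX 536870912 536870912 0 1230186008 1046898278 26843546 3 false true true .dn 1 3 3
    ndN3q1 ndN6q3 pcN3 Cut.none Ext.none :=
  certNX2 (fam := false) (s1 := true) (s2 := true) (a := 1) (b := 3) (c := 3) (cn := .dn) (n1 := ndN3q1) (n2 := ndN6q3) (pc := pcN3) (cut := Cut.none) (xt := Ext.none) (P1 := 536870912) (W1 := 536870912) (P2 := 0) (W2 := 1230186008) (P3 := 1046898278) (W3 := 26843546) (N0 := 3)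
    rfl (fun _ => rfl) k0_pp_133

noncomputable def f_pp_202 : ℕ → ℕ → ℕ → ℕ → Bool := onCell 1073741824 536870912 1073741824 536870912 1046898278 26843546
    (rowNX 3 0 false true true .pp 2 0 2 (qsf 1073741824 536870912 1073741824 536870912 0) ndN3q2 ndN6q2 pcN0 Cut.none Ext.none)

def k0_pp_202 : ∃ t, chk3 f_pp_202 t 1 1 1 = true :=
  ⟨(l 3), by decide +kernel⟩

theorem c_pp_202 : CertNX 1073741824 536870912 1073741824 536870912 1046898278 26843546 3 false true true .pp 2 0 2
    ndN3q2 ndN6q2 pcN0 Cut.none Ext.none :=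
  certNX0 (fam := false) (s1 := true) (s2 := true) (a := 2) (b := 0) (c := 2) (cn := .pp) (n1 := ndN3q2) (n2 := ndN6q2) (pc := pcN0) (cut := Cut.none) (xt := Ext.none) (P1 := 1073741824) (W1 := 536870912) (P2 := 1073741824) (W2 := 536870912) (P3 := 1046898278) (W3 := 26843546) (N0 := 3)
    rfl k0_pp_202

noncomputable def f_pp_203 : ℕ → ℕ → ℕ → ℕ → Bool := onCell 0 536870912 0 1230186008 1046898278 26843546
    (rowNX 3 2 false true true .up 2 0 3 (qsf 1073741824 536870912 0 1230186008 0) ndN3q2 ndN6q3 pcN0 Cut.none Ext.none)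

def k0_pp_203 : ∃ t, chk3 f_pp_203 t 1 1 1 = true :=
  ⟨(b (l 3) (l 3)), by decide +kernel⟩

theorem c_pp_203 : CertNX 1073741824 536870912 0 1230186008 1046898278 26843546 3 false true true .up 2 0 3
    ndN3q2 ndN6q3 pcN0 Cut.none Ext.none :=
  certNX2 (fam := false) (s1 := true) (s2 := true) (a := 2) (b := 0) (c := 3) (cn := .up) (n1 := ndN3q2) (n2 := ndN6q3) (pc := pcN0) (cut := Cut.none) (xt := Ext.none) (P1 := 1073741824) (W1 := 536870912) (P2 := 0) (W2 := 1230186008) (P3 := 1046898278) (W3 := 26843546) (N0 := 3)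
    rfl (fun _ => rfl) k0_pp_203

noncomputable def cut_pp_213 : Cut := Cut.of [[⟨0, 1, 0, 67108864⟩, ⟨1, 1, 0, 67108864⟩, ⟨2, 2, 0, 67108864⟩, ⟨3, 0, 0, 1233125376⟩]]

noncomputable def f_pp_213 : ℕ → ℕ → ℕ → ℕ → Bool := onCell 1073741824 536870912 0 1230186008 1046898278 26843546
    (rowNX 3 0 false true true .pnn 2 1 3 (qsf 1073741824 536870912 0 1230186008 1) ndN3q2 ndN6q3 pcN1 cut_pp_213 Ext.none)

def k0_pp_213 : ∃ t, chk3 f_pp_213 t 1 1 1 = true :=
  ⟨(b (a (a (a (b (a (l 6) (l 3)) (l 3)) (l 3)) (l 3)) (l 3)) (l 3)), by decide +kernel⟩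

theorem c_pp_213 : CertNX 1073741824 536870912 0 1230186008 1046898278 26843546 3 false true true .pnn 2 1 3
    ndN3q2 ndN6q3 pcN1 cut_pp_213 Ext.none :=
  certNX0 (fam := false) (s1 := true) (s2 := true) (a := 2) (b := 1) (c := 3) (cn := .pnn) (n1 := ndN3q2) (n2 := ndN6q3) (pc := pcN1) (cut := cut_pp_213) (xt := Ext.none) (P1 := 1073741824) (W1 := 536870912) (P2 := 0) (W2 := 1230186008) (P3 := 1046898278) (W3 := 26843546) (N0 := 3)
    rfl k0_pp_213

noncomputable def f_pp_303 : ℕ → ℕ → ℕ → ℕ → Bool := onCell 0 536870912 0 1230186008 1046898278 26843546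
    (rowNX 3 2 false true true .npn 3 0 3 (qsf 1610612736 536870912 0 1230186008 0) ndN3q3 ndN6q3 pcN0 Cut.none Ext.none)

def k0_pp_303 : ∃ t, chk3 f_pp_303 t 1 1 1 = true :=
  ⟨(b (l 3) (l 3)), by decide +kernel⟩

theorem c_pp_303 : CertNX 1610612736 536870912 0 1230186008 1046898278 26843546 3 false true true .npn 3 0 3
    ndN3q3 ndN6q3 pcN0 Cut.none Ext.none :=
  certNX2 (fam := false) (s1 := true) (s2 := true) (a := 3) (b := 0) (c := 3) (cn := .npn) (n1 := ndN3q3) (n2 := ndN6q3) (pc := pcN0) (cut := Cut.none) (xt := Ext.none) (P1 := 1610612736) (W1 := 536870912) (P2 := 0) (W2 := 1230186008) (P3 := 1046898278) (W3 := 26843546) (N0 := 3)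
    rfl (fun _ => rfl) k0_pp_303

noncomputable def f_pp_313 : ℕ → ℕ → ℕ → ℕ → Bool := onCell 1610612736 536870912 0 1230186008 1046898278 26843546
    (rowNX 3 0 false true true .dn 3 1 3 (qsf 1610612736 536870912 0 1230186008 1) ndN3q3 ndN6q3 pcN1 Cut.none Ext.none)

def k0_pp_313 : ∃ t, chk3 f_pp_313 t 1 1 1 = true :=
  ⟨(b (l 3) (l 1)), by decide +kernel⟩

theorem c_pp_313 : CertNX 1610612736 536870912 0 1230186008 1046898278 26843546 3 false true true .dn 3 1 3
    ndN3q3 ndN6q3 pcN1 Cut.none Ext.none :=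
  certNX0 (fam := false) (s1 := true) (s2 := true) (a := 3) (b := 1) (c := 3) (cn := .dn) (n1 := ndN3q3) (n2 := ndN6q3) (pc := pcN1) (cut := Cut.none) (xt := Ext.none) (P1 := 1610612736) (W1 := 536870912) (P2 := 0) (W2 := 1230186008) (P3 := 1046898278) (W3 := 26843546) (N0 := 3)
    rfl k0_pp_313

noncomputable def f_pm_001 : ℕ → ℕ → ℕ → ℕ → Bool := onCell 0 536870912 536870912 469762048 1046898278 26843546
    (rowNX 3 0 false true false .up 0 0 1 (qsf 0 536870912 536870912 469762048 0) ndN3q0 ndN6q1 pcN0 Cut.none Ext.none)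

def k0_pm_001 : ∃ t, chk3 f_pm_001 t 1 1 1 = true :=
  ⟨(l 4), by decide +kernel⟩

theorem c_pm_001 : CertNX 0 536870912 536870912 469762048 1046898278 26843546 3 false true false .up 0 0 1
    ndN3q0 ndN6q1 pcN0 Cut.none Ext.none :=
  certNX0 (fam := false) (s1 := true) (s2 := false) (a := 0) (b := 0) (c := 1) (cn := .up) (n1 := ndN3q0) (n2 := ndN6q1) (pc := pcN0) (cut := Cut.none) (xt := Ext.none) (P1 := 0) (W1 := 536870912) (P2 := 536870912) (W2 := 469762048) (P3 := 1046898278) (W3 := 26843546) (N0 := 3)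
    rfl k0_pm_001

noncomputable def f_pm_011 : ℕ → ℕ → ℕ → ℕ → Bool := onCell 0 536870912 536870912 469762048 1046898278 26843546
    (rowNX 3 0 false true false .pnn 0 1 1 (qsf 0 536870912 536870912 469762048 1) ndN3q0 ndN6q1 pcN1 Cut.none Ext.none)

def k0_pm_011 : ∃ t, chk3 f_pm_011 t 1 1 1 = true :=
  ⟨(l 4), by decide +kernel⟩

theorem c_pm_011 : CertNX 0 536870912 536870912 469762048 1046898278 26843546 3 false true false .pnn 0 1 1
    ndN3q0 ndN6q1 pcN1 Cut.none Ext.none :=
  certNX0 (fam := false) (s1 := true) (s2 := false) (a := 0) (b := 1) (c := 1) (cn := .pnn) (n1 := ndN3q0) (n2 := ndN6q1) (pc := pcN1) (cut := Cut.none) (xt := Ext.none) (P1 := 0) (W1 := 536870912) (P2 := 536870912) (W2 := 469762048) (P3 := 1046898278) (W3 := 26843546) (N0 := 3)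
    rfl k0_pm_011

noncomputable def f_pm_012 : ℕ → ℕ → ℕ → ℕ → Bool := onCell 0 536870912 1073741824 536870912 1046898278 26843546
    (rowNX 3 0 false true false .pnp 0 1 2 (qsf 0 536870912 1073741824 536870912 1) ndN3q0 ndN6q2 pcN1 Cut.none Ext.none)

def k0_pm_012 : ∃ t, chk3 f_pm_012 t 1 1 1 = true :=
  ⟨(l 4), by decide +kernel⟩

theorem c_pm_012 : CertNX 0 536870912 1073741824 536870912 1046898278 26843546 3 false true false .pnp 0 1 2
    ndN3q0 ndN6q2 pcN1 Cut.none Ext.none :=
  certNX0 (fam := false) (s1 := true) (s2 := false) (a := 0) (b := 1) (c := 2) (cn := .pnp) (n1 := ndN3q0) (n2 := ndN6q2) (pc := pcN1) (cut := Cut.none) (xt := Ext.none) (P1 := 0) (W1 := 536870912) (P2 := 1073741824) (W2 := 536870912) (P3 := 1046898278) (W3 := 26843546) (N0 := 3)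
    rfl k0_pm_012

noncomputable def f_pm_022 : ℕ → ℕ → ℕ → ℕ → Bool := onCell 0 536870912 1073741824 536870912 1046898278 26843546
    (rowNX 3 0 false true false .pp 0 2 2 (qsf 0 536870912 1073741824 536870912 2) ndN3q0 ndN6q2 pcN2 Cut.none Ext.none)

def k0_pm_022 : ∃ t, chk3 f_pm_022 t 1 1 1 = true :=
  ⟨(l 4), by decide +kernel⟩

theorem c_pm_022 : CertNX 0 536870912 1073741824 536870912 1046898278 26843546 3 false true false .pp 0 2 2
    ndN3q0 ndN6q2 pcN2 Cut.none Ext.none :=
  certNX0 (fam := false) (s1 := true) (s2 := false) (a := 0) (b := 2) (c := 2) (cn := .pp) (n1 := ndN3q0) (n2 := ndN6q2) (pc := pcN2) (cut := Cut.none) (xt := Ext.none) (P1 := 0) (W1 := 536870912) (P2 := 1073741824) (W2 := 536870912) (P3 := 1046898278) (W3 := 26843546) (N0 := 3)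
    rfl k0_pm_022

noncomputable def f_pm_023 : ℕ → ℕ → ℕ → ℕ → Bool := onCell 0 536870912 0 1230186008 1046898278 26843546
    (rowNX 3 0 false true false .up 0 2 3 (qsf 0 536870912 0 1230186008 2) ndN3q0 ndN6q3 pcN2 Cut.none Ext.none)

def k0_pm_023 : ∃ t, chk3 f_pm_023 t 1 1 1 = true :=
  ⟨(b (l 4) (l 4)), by decide +kernel⟩

theorem c_pm_023 : CertNX 0 536870912 0 1230186008 1046898278 26843546 3 false true false .up 0 2 3
    ndN3q0 ndN6q3 pcN2 Cut.none Ext.none :=
  certNX0 (fam := false) (s1 := true) (s2 := false) (a := 0) (b := 2) (c := 3) (cn := .up) (n1 := ndN3q0) (n2 := ndN6q3) (pc := pcN2) (cut := Cut.none) (xt := Ext.none) (P1 := 0) (W1 := 536870912) (P2 := 0) (W2 := 1230186008) (P3 := 1046898278) (W3 := 26843546) (N0 := 3)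
    rfl k0_pm_023

noncomputable def f_pm_033 : ℕ → ℕ → ℕ → ℕ → Bool := onCell 0 536870912 0 1230186008 1046898278 26843546
    (rowNX 3 0 false true false .pnn 0 3 3 (qsf 0 536870912 0 1230186008 3) ndN3q0 ndN6q3 pcN3 Cut.none Ext.none)

def k0_pm_033 : ∃ t, chk3 f_pm_033 t 1 1 1 = true :=
  ⟨(b (l 4) (l 4)), by decide +kernel⟩

theorem c_pm_033 : CertNX 0 536870912 0 1230186008 1046898278 26843546 3 false true false .pnn 0 3 3
    ndN3q0 ndN6q3 pcN3 Cut.none Ext.none :=
  certNX0 (fam := false) (s1 := true) (s2 := false) (a := 0) (b := 3) (c := 3) (cn := .pnn) (n1 := ndN3q0) (n2 := ndN6q3) (pc := pcN3) (cut := Cut.none) (xt := Ext.none) (P1 := 0) (W1 := 536870912) (P2 := 0) (W2 := 1230186008) (P3 := 1046898278) (W3 := 26843546) (N0 := 3)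
    rfl k0_pm_033

noncomputable def f_pm_101 : ℕ → ℕ → ℕ → ℕ → Bool := onCell 536870912 536870912 536870912 469762048 1046898278 26843546
    (rowNX 3 0 false true false .npn 1 0 1 (qsf 536870912 536870912 536870912 469762048 0) ndN3q1 ndN6q1 pcN0 Cut.none Ext.none)

def k0_pm_101 : ∃ t, chk3 f_pm_101 t 1 1 1 = true :=
  ⟨(l 4), by decide +kernel⟩

theorem c_pm_101 : CertNX 536870912 536870912 536870912 469762048 1046898278 26843546 3 false true false .npn 1 0 1
    ndN3q1 ndN6q1 pcN0 Cut.none Ext.none :=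
  certNX0 (fam := false) (s1 := true) (s2 := false) (a := 1) (b := 0) (c := 1) (cn := .npn) (n1 := ndN3q1) (n2 := ndN6q1) (pc := pcN0) (cut := Cut.none) (xt := Ext.none) (P1 := 536870912) (W1 := 536870912) (P2 := 536870912) (W2 := 469762048) (P3 := 1046898278) (W3 := 26843546) (N0 := 3)
    rfl k0_pm_101

noncomputable def f_pm_102 : ℕ → ℕ → ℕ → ℕ → Bool := onCell 536870912 536870912 1073741824 536870912 1046898278 26843546
    (rowNX 3 0 false true false .npp 1 0 2 (qsf 536870912 536870912 1073741824 536870912 0) ndN3q1 ndN6q2 pcN0 Cut.none Ext.none)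

def k0_pm_102 : ∃ t, chk3 f_pm_102 t 1 1 1 = true :=
  ⟨(l 4), by decide +kernel⟩

theorem c_pm_102 : CertNX 536870912 536870912 1073741824 536870912 1046898278 26843546 3 false true false .npp 1 0 2
    ndN3q1 ndN6q2 pcN0 Cut.none Ext.none :=
  certNX0 (fam := false) (s1 := true) (s2 := false) (a := 1) (b := 0) (c := 2) (cn := .npp) (n1 := ndN3q1) (n2 := ndN6q2) (pc := pcN0) (cut := Cut.none) (xt := Ext.none) (P1 := 536870912) (W1 := 536870912) (P2 := 1073741824) (W2 := 536870912) (P3 := 1046898278) (W3 := 26843546) (N0 := 3)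
    rfl k0_pm_102

noncomputable def f_pm_112 : ℕ → ℕ → ℕ → ℕ → Bool := onCell 536870912 536870912 1073741824 536870912 1046898278 26843546
    (rowNX 3 0 false true false .dn 1 1 2 (qsf 536870912 536870912 1073741824 536870912 1) ndN3q1 ndN6q2 pcN1 Cut.none Ext.none)

def k0_pm_112 : ∃ t, chk3 f_pm_112 t 1 1 1 = true :=
  ⟨(l 4), by decide +kernel⟩

theorem c_pm_112 : CertNX 536870912 536870912 1073741824 536870912 1046898278 26843546 3 false true false .dn 1 1 2
    ndN3q1 ndN6q2 pcN1 Cut.none Ext.none :=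
  certNX0 (fam := false) (s1 := true) (s2 := false) (a := 1) (b := 1) (c := 2) (cn := .dn) (n1 := ndN3q1) (n2 := ndN6q2) (pc := pcN1) (cut := Cut.none) (xt := Ext.none) (P1 := 536870912) (W1 := 536870912) (P2 := 1073741824) (W2 := 536870912) (P3 := 1046898278) (W3 := 26843546) (N0 := 3)
    rfl k0_pm_112

noncomputable def f_pm_113 : ℕ → ℕ → ℕ → ℕ → Bool := onCell 536870912 536870912 0 1230186008 1046898278 26843546
    (rowNX 3 0 false true false .nn 1 1 3 (qsf 536870912 536870912 0 1230186008 1) ndN3q1 ndN6q3 pcN1 Cut.none Ext.none)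

def k0_pm_113 : ∃ t, chk3 f_pm_113 t 1 1 1 = true :=
  ⟨(b (a (l 2) (b (a (l 2) (a (l 2) (a (l 2) (b (a (l 2) (b (l 16765992) (l 4))) (l 4))))) (l 4))) (l 4)), by decide +kernel⟩

theorem c_pm_113 : CertNX 536870912 536870912 0 1230186008 1046898278 26843546 3 false true false .nn 1 1 3
    ndN3q1 ndN6q3 pcN1 Cut.none Ext.none :=
  certNX0 (fam := false) (s1 := true) (s2 := false) (a := 1) (b := 1) (c := 3) (cn := .nn) (n1 := ndN3q1) (n2 := ndN6q3) (pc := pcN1) (cut := Cut.none) (xt := Ext.none) (P1 := 536870912) (W1 := 536870912) (P2 := 0) (W2 := 1230186008) (P3 := 1046898278) (W3 := 26843546) (N0 := 3)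
    rfl k0_pm_113

noncomputable def f_pm_123 : ℕ → ℕ → ℕ → ℕ → Bool := onCell 1073741824 536870912 0 1230186008 1046898278 26843546
    (rowNX 3 2 false true false .npn 1 2 3 (qsf 536870912 536870912 0 1230186008 2) ndN3q1 ndN6q3 pcN2 Cut.none Ext.none)

def k0_pm_123 : ∃ t, chk3 f_pm_123 t 1 1 1 = true :=
  ⟨(b (a (a (b (a (a (b (c (l 16704912) (a (l 15103752) (l 4))) (l 4)) (l 4)) (l 4)) (l 4)) (l 4)) (l 4)) (l 4)), by decide +kernel⟩

theorem c_pm_123 : CertNX 536870912 536870912 0 1230186008 1046898278 26843546 3 false true false .npn 1 2 3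
    ndN3q1 ndN6q3 pcN2 Cut.none Ext.none :=
  certNX2 (fam := false) (s1 := true) (s2 := false) (a := 1) (b := 2) (c := 3) (cn := .npn) (n1 := ndN3q1) (n2 := ndN6q3) (pc := pcN2) (cut := Cut.none) (xt := Ext.none) (P1 := 536870912) (W1 := 536870912) (P2 := 0) (W2 := 1230186008) (P3 := 1046898278) (W3 := 26843546) (N0 := 3)
    rfl (fun _ => rfl) k0_pm_123

noncomputable def f_pm_133 : ℕ → ℕ → ℕ → ℕ → Bool := onCell 536870912 536870912 0 1230186008 1046898278 26843546
    (rowNX 3 0 false true false .dn 1 3 3 (qsf 536870912 536870912 0 1230186008 3) ndN3q1 ndN6q3 pcN3 Cut.none Ext.none)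

def k0_pm_133 : ∃ t, chk3 f_pm_133 t 1 1 1 = true :=
  ⟨(b (a (l 4) (l 1)) (l 1)), by decide +kernel⟩

theorem c_pm_133 : CertNX 536870912 536870912 0 1230186008 1046898278 26843546 3 false true false .dn 1 3 3
    ndN3q1 ndN6q3 pcN3 Cut.none Ext.none :=
  certNX0 (fam := false) (s1 := true) (s2 := false) (a := 1) (b := 3) (c := 3) (cn := .dn) (n1 := ndN3q1) (n2 := ndN6q3) (pc := pcN3) (cut := Cut.none) (xt := Ext.none) (P1 := 536870912) (W1 := 536870912) (P2 := 0) (W2 := 1230186008) (P3 := 1046898278) (W3 := 26843546) (N0 := 3)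
    rfl k0_pm_133

noncomputable def f_pm_202 : ℕ → ℕ → ℕ → ℕ → Bool := onCell 1073741824 536870912 0 536870912 1046898278 26843546
    (rowNX 3 1 false true false .pp 2 0 2 (qsf 1073741824 536870912 1073741824 536870912 0) ndN3q2 ndN6q2 pcN0 Cut.none Ext.none)

def k0_pm_202 : ∃ t, chk3 f_pm_202 t 4 8 1 = true :=
  ⟨(b (a (b (c (b (a (a (l 13801688) (l 14028648)) (l 14285120)) (a (c (a (b (l 13865968) (l 13894584)) (l 14120400)) (b (l 13909768) (l 13922040))) (c (l 14357640) (l 14296808)))) (b (c (a (b (l 13785304) (a (l 13582624) (l 13905600))) (l 14042208)) (a (b (c (l 13729008) (b (l 13686968) (l 13700816))) (c (l 13756616) (l 13720192))) (c (l 14048368) (l 14129144)))) (c (a (a (l 13751384) (l 13947400)) (l 14240192)) (a (l 13776104) (l 14190272))))) (c (a (b (a (c (l 13945176) (l 13881536)) (l 14133032)) (l 13959976)) (b (c (l 14411696) (l 14344928)) (l 14397912))) (a (a (c (l 13823400) (l 13746872)) (l 13987336)) (l 14254408)))) (b (c (a (b (l 14824512) (b (l 14808496)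 (l 14791152))) (b (l 15023280) (b (l 14976160) (l 14950520)))) (a (b (c (b (l 14778496) (l 14769592)) (b (c (l 14750160) (l 14731360)) (l 14734328))) (c (l 14745816) (l 14704720))) (b (c (l 14972760) (b (l 14890600) (l 14924976))) (c (l 14918040) (l 14880008))))) (a (c (b (l 14760824) (l 14702752)) (l 14644232)) (c (a (l 14994360) (b (l 14874424) (l 14976224))) (a (l 14918488) (l 14870552)))))) (a (a (c (b (a (l 14019568) (l 14239816)) (a (l 14097616) (l 14272584))) (a (l 13921576) (l 14091408))) (c (b (l 14359224) (l 14265000)) (l 14181424))) (a (b (l 14456344) (a (l 14307944) (c (l 14761208) (l 14687536)))) (b (a (c (l 15035976) (l 14964096)) (l 15242176)) (c (l 15385728) (l 15486432)))))), by decide +kernel⟩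

def k1_pm_202 : ∃ t, chk3 f_pm_202 t 5 8 1 = true :=
  ⟨(b (a (b (a (c (b (l 14851872) (a (l 14835640) (l 15155336))) (b (a (b (l 14633848) (l 14613424)) (b (l 14796640) (l 14915144))) (c (l 14956032) (l 14918808)))) (c (b (l 15758456) (a (l 15688880) (l 16241384))) (b (c (l 15623200) (a (l 15409080) (l 15998736))) (l 15731744)))) (a (c (b (l 15215856) (l 15440752)) (l 15263560)) (c (b (l 16185104) (l 16387560)) (l 16257248)))) (b (a (b (c (l 16379376) (b (l 16420392) (l 16312832))) (c (l 16240000) (l 16224960))) (c (l 15830192) (b (l 15723640) (l 15826560)))) (a (c (l 16110632) (l 16110944)) (l 15626976)))) (b (a (a (c (l 15649144) (l 15708424)) (a (l 16397432) (l 16383576))) (a (l 16052464) (l 15650952))) (a (a (a (l 15986128) (l 16292112)) (l 16431360)) (a (l 16070864) (l 15798920))))), by decide +kernel⟩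

def k2_pm_202 : ∃ t, chk3 f_pm_202 t 2 9 1 = true :=
  ⟨(a (a (b (a (b (c (l 14159272) (l 14023720)) (l 14017704)) (b (l 14090392) (a (l 13994776) (l 14135048)))) (a (a (l 13841088) (b (l 13925392) (l 13960424))) (a (b (l 14051144) (l 14374544)) (l 14702216)))) (b (a (b (a (l 14357640) (l 15062752)) (l 15122912)) (b (a (l 15782008) (l 16116080)) (l 16383760))) (a (a (l 15379424) (l 16124256)) (b (l 16567520) (l 16421928))))) (b (a (a (b (l 16274008) (l 16547464)) (b (l 16354648) (l 16334376))) (a (l 15975296) (l 15940776))) (a (a (l 16478192) (l 16384480)) (l 16131920)))), by decide +kernel⟩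

def k3_pm_202 : ∃ t, chk3 f_pm_202 t 3 4 1 = true :=
  ⟨(b (b (a (b (c (b (l 15640272) (a (b (l 15732248) (l 15713384)) (l 15442384))) (b (c (b (l 15618632) (l 15375240)) (a (a (l 15739264) (b (l 15646288) (l 15649952))) (l 15269272))) (c (l 15604808) (l 15618800)))) (c (b (a (l 15723736) (l 15531552)) (l 15645856)) (l 15641384))) (b (c (b (l 15194848) (c (l 15230424) (l 15195128))) (b (c (l 15168544) (b (l 15148008) (l 15148608))) (l 15159088))) (c (l 15180400) (l 15187248)))) (a (c (b (l 15677664) (l 15710752)) (l 15678680)) (c (l 15195248) (l 15248912)))) (b (a (b (l 15759344) (l 15871856)) (a (l 15630040) (a (l 15525464) (l 2)))) (a (l 16062632) (b (l 177803135863) (l 16295456))))), by decide +kernel⟩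

def k4_pm_202 : ∃ t, chk3 f_pm_202 t 1 5 1 = true :=
  ⟨(a (a (a (b (a (b (a (b (l 13595336) (l 14115840)) (l 14494320)) (a (l 14691472) (l 15244824))) (b (a (l 15012400) (l 15523208)) (a (l 15643576) (l 15948584)))) (b (a (a (b (l 15193608) (l 15409704)) (l 15622448)) (l 15805512)) (a (l 15517288) (l 15709768)))) (b (a (b (a (l 15953568) (l 16647936)) (l 16414744)) (l 16517064)) (a (b (l 16242864) (l 16156024)) (l 16578344)))) (b (a (a (l 16573736) (l 16590480)) (l 16398328)) (a (a (l 16330088) (l 16427288)) (b (l 16701120) (l 16715448))))) (a (b (b (l 16262784) (l 16497776)) (b (l 16726064) (l 16777144))) (b (b (l 561667112935) (l 2)) (l 2)))), by decide +kernel⟩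

def k5_pm_202 : ∃ t, chk3 f_pm_202 t 1 3 1 = true :=
  ⟨(a (a (a (b (a (l 15517432) (l 15709632)) (b (a (l 15517432) (l 15709632)) (l 15360176))) (b (a (l 16051048) (b (l 16540528) (l 16540528))) (a (l 16134928) (l 16540528)))) (a (b (a (l 16170936) (l 16398440)) (b (l 16327624) (l 2))) (b (b (l 16715384) (l 16715384)) (l 2)))) (b (a (l 480063258631) (l 2)) (l 2))), by decide +kernel⟩

theorem s6_pm_202 : ∃ t, chk3 f_pm_202 t 2 8 1 = true := ex3_a k0_pm_202 k1_pm_202

theorem s7_pm_202 : ∃ t, chk3 f_pm_202 t 2 4 1 = true := ex3_b s6_pm_202 k2_pm_202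

theorem s8_pm_202 : ∃ t, chk3 f_pm_202 t 1 4 1 = true := ex3_a s7_pm_202 k3_pm_202

theorem s9_pm_202 : ∃ t, chk3 f_pm_202 t 1 2 1 = true := ex3_b s8_pm_202 k4_pm_202

theorem s10_pm_202 : ∃ t, chk3 f_pm_202 t 1 1 1 = true := ex3_b s9_pm_202 k5_pm_202

theorem c_pm_202 : CertNX 1073741824 536870912 1073741824 536870912 1046898278 26843546 3 false true false .pp 2 0 2
    ndN3q2 ndN6q2 pcN0 Cut.none Ext.none :=
  certNX1 (fam := false) (s1 := true) (s2 := false) (a := 2) (b := 0) (c := 2) (cn := .pp) (n1 := ndN3q2) (n2 := ndN6q2) (pc := pcN0) (cut := Cut.none) (xt := Ext.none) (P1 := 1073741824) (W1 := 536870912) (P2 := 1073741824) (W2 := 536870912) (P3 := 1046898278) (W3 := 26843546) (N0 := 3)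
    rfl (fun _ => rfl) s10_pm_202

noncomputable def f_pm_203 : ℕ → ℕ → ℕ → ℕ → Bool := onCell 0 536870912 0 1230186008 1046898278 26843546
    (rowNX 3 2 false true false .up 2 0 3 (qsf 1073741824 536870912 0 1230186008 0) ndN3q2 ndN6q3 pcN0 Cut.none Ext.none)

def k0_pm_203 : ∃ t, chk3 f_pm_203 t 1 1 1 = true :=
  ⟨(b (a (l 2) (l 3)) (b (a (a (l 2) (a (l 2) (a (l 2) (a (l 2) (l 1194101571495))))) (a (b (l 3) (a (c (l 299741740871) (l 287393709895)) (c (l 16777200) (l 16777200)))) (c (b (a (l 326048415703) (l 306721062871)) (a (l 16777200) (l 16777200))) (b (a (l 318532222679) (l 298667998935)) (a (l 16777200) (l 16777200)))))) (b (a (a (l 2) (a (a (b (l 2) (b (l 2) (l 16681912))) (b (b (l 2) (l 16381232)) (b (l 16704232) (l 16775032)))) (a (b (l 820438613031) (l 16767400)) (b (l 16771328) (l 16777208))))) (a (c (l 16777216) (l 16777216)) (b (a (l 16777216) (l 16742592)) (a (l 16756768) (b (l 16624744) (l 16467728)))))) (a (a (a (b (l 2) (a (a (c (l 14820232) (a (l 14708072)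 (l 14791000))) (l 143977696215)) (l 15071888))) (a (a (a (b (l 682996415047) (l 15287384)) (l 15239936)) (b (l 15578464) (l 15655328))) (a (a (b (l 691588465927) (l 15922776)) (l 16198656)) (l 16294144)))) (a (a (b (l 16489632) (l 16296904)) (l 16630208)) (a (l 16726640) (l 16777144)))) (a (b (l 16828496) (a (l 16749648) (b (l 16640200) (a (l 16544352) (l 16362152))))) (b (a (b (l 16648800) (l 16477016)) (b (l 16407192) (a (l 16385448) (l 16403968)))) (a (b (l 16407152) (a (l 16376608) (l 16225016))) (b (a (l 16387528) (l 16026488)) (a (l 15983600) (l 15609160)))))))))), by decide +kernel⟩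

theorem c_pm_203 : CertNX 1073741824 536870912 0 1230186008 1046898278 26843546 3 false true false .up 2 0 3
    ndN3q2 ndN6q3 pcN0 Cut.none Ext.none :=
  certNX2 (fam := false) (s1 := true) (s2 := false) (a := 2) (b := 0) (c := 3) (cn := .up) (n1 := ndN3q2) (n2 := ndN6q3) (pc := pcN0) (cut := Cut.none) (xt := Ext.none) (P1 := 1073741824) (W1 := 536870912) (P2 := 0) (W2 := 1230186008) (P3 := 1046898278) (W3 := 26843546) (N0 := 3)
    rfl (fun _ => rfl) k0_pm_203

noncomputable def cut_pm_213 : Cut := Cut.of [[⟨0, 1, 0, 67108864⟩, ⟨1, 1, 0, 67108864⟩, ⟨2, 2, 0, 67108864⟩, ⟨3, 0, 0, 1233125376⟩]]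

noncomputable def f_pm_213 : ℕ → ℕ → ℕ → ℕ → Bool := onCell 1073741824 536870912 0 1230186008 1046898278 26843546
    (rowNX 3 0 false true false .pnn 2 1 3 (qsf 1073741824 536870912 0 1230186008 1) ndN3q2 ndN6q3 pcN1 cut_pm_213 Ext.none)

def k0_pm_213 : ∃ t, chk3 f_pm_213 t 4 4 1 = true :=
  ⟨(a (b (a (l 6) (a (l 6) (a (l 6) (b (l 3) (b (l 3) (l 333026836519)))))) (a (b (l 6) (b (b (l 6) (a (a (c (c (c (a (l 16705944) (l 16605504)) (a (l 16587024) (l 16366728))) (a (c (l 16242784) (l 15898424)) (l 16004240))) (l 15151384)) (l 6)) (l 6))) (a (c (a (c (b (a (c (l 16606352) (l 16303088)) (c (l 16400736) (l 16179992))) (c (a (l 16333344) (l 16214840)) (l 16029664))) (b (l 15839912) (l 15681872))) (a (c (l 16152632) (l 15823424)) (l 16006488))) (a (l 15016552) (l 15385680))) (c (l 16077600) (l 15722672))))) (b (a (l 6) (c (b (l 16309032) (l 16394136)) (b (l 16396560) (l 16294888)))) (a (b (c (l 16295752) (l 16106840)) (c (l 16160944) (l 15965920))) (c (l 16245224) (l 16138192))))))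 (b (a (l 3) (l 3)) (a (b (a (b (l 16461504) (l 16443248)) (l 316920961367)) (a (l 16339064) (l 16586832))) (b (l 3) (a (a (l 16715336) (l 16638144)) (l 283097659287)))))), by decide +kernel⟩

def k1_pm_213 : ∃ t, chk3 f_pm_213 t 4 5 1 = true :=
  ⟨(a (b (a (b (a (b (a (c (c (b (a (l 15982896) (l 15955792)) (l 15805752)) (l 15487744)) (l 14884144)) (c (l 15784872) (l 15242112))) (a (c (l 15452624) (l 14803792)) (l 15369904))) (b (c (l 15922240) (l 15576912)) (c (l 15786704) (l 15458360)))) (a (b (a (l 15031520) (c (l 15492232) (l 15081128))) (a (l 14984856) (c (l 15409560) (l 15059584)))) (b (c (l 15684592) (l 15383696)) (l 15490400)))) (b (a (b (l 15940776) (l 15829816)) (l 15992264)) (a (l 15488032) (l 15853840)))) (b (a (a (c (l 15234720) (l 14941352)) (b (l 15452072) (l 15428800))) (a (b (l 15651744) (l 15621352)) (b (l 15793136) (a (l 15728736) (l 15788720))))) (a (a (c (l 15231480) (l 15028096)) (l 15436736)) (a (l 15603088) (l 15729784))))) (b (a (b (a (l 16186680)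 (l 16475912)) (a (b (l 16097440) (l 16059496)) (b (l 16412872) (l 16397280)))) (b (a (a (l 16661592) (l 16619288)) (l 16493568)) (a (l 16613216) (l 16518176)))) (a (b (a (b (l 16030424) (l 16005744)) (l 16378320)) (b (l 16168680) (l 16152968))) (b (a (l 16635168) (l 16525928)) (a (l 16601832) (l 16496152)))))), by decide +kernel⟩

def k2_pm_213 : ∃ t, chk3 f_pm_213 t 5 2 1 = true :=
  ⟨(b (a (b (l 3) (a (b (l 3) (l 327120657287)) (l 3))) (l 3)) (a (b (a (b (a (l 16352576) (l 16243784)) (a (l 16377512) (l 16266600))) (b (l 16389128) (l 16403936))) (a (b (a (l 16383152) (l 16270056)) (l 16218328)) (b (l 16422536) (l 16403672)))) (b (a (b (l 3) (l 16628752)) (l 3)) (a (b (l 16638640) (l 16655832)) (b (l 16742120) (l 16770872)))))), by decide +kernel⟩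

def k3_pm_213 : ∃ t, chk3 f_pm_213 t 3 2 1 = true :=
  ⟨(b (l 3) (a (b (l 3) (a (b (l 16742256) (c (l 16771112) (l 16770896))) (l 3))) (l 3))), by decide +kernel⟩

def k4_pm_213 : ∃ t, chk3 f_pm_213 t 1 3 1 = true :=
  ⟨(b (a (a (b (a (a (b (a (b (l 15228456) (l 15275072)) (l 15406440)) (a (l 15348056) (l 15530360))) (b (l 15672176) (l 15691024))) (a (b (l 16150760) (l 16154968)) (b (a (l 16593016) (l 16489088)) (l 16540608)))) (a (a (b (a (l 15424320) (l 15580824)) (l 15517368)) (b (l 15708480) (l 15709632))) (a (l 16155920) (l 16540544)))) (b (b (a (a (l 16275840) (l 16398488)) (a (l 16650624) (l 16777040))) (a (a (l 16296840) (l 16398512)) (a (l 16650656) (c (l 16777032) (l 16777024))))) (a (a (l 16296784) (l 16398456)) (a (l 16650592) (l 16777056))))) (a (a (b (c (b (l 16777168) (l 16777136)) (b (l 16777160) (l 16777128))) (b (c (l 16777184) (l 16777184)) (l 16777216))) (b (b (c (l 16777168) (l 16777160)) (c (l 16777136) (l 16777128))) (a (c (l 16777200) (l 16777200))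 (l 1)))) (b (b (l 3) (l 1)) (l 1)))) (a (a (a (b (a (b (l 15517432) (l 15517432)) (l 15709632)) (a (l 15517432) (l 15709632))) (b (a (l 16155904) (l 16540528)) (a (l 16155904) (l 16456640)))) (a (b (a (l 16296768) (l 16398440)) (a (l 16233848) (l 1))) (b (a (l 16650576) (l 16777040)) (l 1)))) (l 1))), by decide +kernel⟩

theorem s5_pm_213 : ∃ t, chk3 f_pm_213 t 4 2 1 = true := ex3_b k0_pm_213 k1_pm_213

theorem s6_pm_213 : ∃ t, chk3 f_pm_213 t 2 2 1 = true := ex3_a s5_pm_213 k2_pm_213

theorem s7_pm_213 : ∃ t, chk3 f_pm_213 t 1 2 1 = true := ex3_a s6_pm_213 k3_pm_213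

theorem s8_pm_213 : ∃ t, chk3 f_pm_213 t 1 1 1 = true := ex3_b s7_pm_213 k4_pm_213

theorem c_pm_213 : CertNX 1073741824 536870912 0 1230186008 1046898278 26843546 3 false true false .pnn 2 1 3
    ndN3q2 ndN6q3 pcN1 cut_pm_213 Ext.none :=
  certNX0 (fam := false) (s1 := true) (s2 := false) (a := 2) (b := 1) (c := 3) (cn := .pnn) (n1 := ndN3q2) (n2 := ndN6q3) (pc := pcN1) (cut := cut_pm_213) (xt := Ext.none) (P1 := 1073741824) (W1 := 536870912) (P2 := 0) (W2 := 1230186008) (P3 := 1046898278) (W3 := 26843546) (N0 := 3)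
    rfl s8_pm_213

noncomputable def f_pm_303 : ℕ → ℕ → ℕ → ℕ → Bool := onCell 0 536870912 0 1230186008 1046898278 26843546
    (rowNX 3 2 false true false .npn 3 0 3 (qsf 1610612736 536870912 0 1230186008 0) ndN3q3 ndN6q3 pcN0 Cut.none Ext.none)

def k0_pm_303 : ∃ t, chk3 f_pm_303 t 1 2 1 = true :=
  ⟨(a (l 3) (l 3)), by decide +kernel⟩

def k1_pm_303 : ∃ t, chk3 f_pm_303 t 1 6 1 = true :=
  ⟨(b (a (l 3) (a (l 3) (a (c (l 323364061143) (l 324437802711)) (l 1)))) (a (b (l 3) (a (l 3) (a (a (l 3) (l 16052816)) (a (l 299204309367) (l 287930811959))))) (a (a (c (l 297594257223) (l 294373031751)) (c (l 16777200) (l 16777200))) (l 1)))), by decide +kernel⟩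

def k2_pm_303 : ∃ t, chk3 f_pm_303 t 4 14 1 = true :=
  ⟨(b (b (a (l 3) (b (l 3) (a (l 3) (c (l 306181072599) (l 298127916919))))) (a (a (a (l 3) (c (c (l 14252496) (l 321210975815)) (c (a (l 3) (l 314768464231)) (l 14134624)))) (c (a (c (l 320137645767) (a (c (l 14377376) (l 14236896)) (c (l 14200272) (l 14405128)))) (c (a (c (l 14590512) (l 14358480)) (c (l 315843062567) (l 14587768))) (l 14522944))) (l 14305208))) (a (a (a (c (l 14718288) (l 14645864)) (b (l 14746128) (a (l 14775224) (l 14876016)))) (b (c (l 15038672) (l 14977544)) (c (l 15178880) (l 15122712)))) (a (a (c (l 15226248) (l 15200824)) (l 15403840)) (l 15501744))))) (b (a (a (c (a (c (a (l 14092856) (l 14154440)) (a (l 14050272) (b (l 14109608) (l 14151400)))) (c (l 14273896) (l 14058648))) (a (c (a (l 295440728743) (l 14084448)) (a (c (l 13976016) (a (c (l 13941256) (l 13930104)) (l 13968328))) (a (c (l 13927312) (l 14010936)) (l 14064128)))) (c (a (c (l 14180680) (l 13992928)) (c (l 14264640) (l 14228864)))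 (l 14158816)))) (c (a (c (l 14260968) (a (c (l 14398984) (l 14368424)) (c (l 14462480) (l 14419304)))) (c (a (l 14524464) (c (l 14692752) (l 14659480))) (l 14589280))) (c (l 14432200) (l 14390984)))) (a (a (b (l 14697936) (a (l 14620800) (l 14976896))) (b (l 15276808) (c (l 15727504) (l 15777432)))) (a (a (c (l 16195392) (l 16174960)) (l 16338184)) (l 16424792)))) (a (a (a (a (c (l 14194376) (c (l 14172264) (a (l 14125712) (l 14152352)))) (c (c (l 14295280) (l 14244256)) (l 14200960))) (c (b (l 14345616) (l 14378376)) (l 14318808))) (c (a (c (l 14548032) (l 14505880)) (c (l 14639840) (l 14682272))) (a (l 14453208) (l 14622080)))) (a (a (c (l 15056944) (l 15010960)) (a (l 15494680) (l 15529752))) (a (a (l 16143760) (l 16333872)) (l 16463696)))))), by decide +kernel⟩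

def k3_pm_303 : ∃ t, chk3 f_pm_303 t 4 15 1 = true :=
  ⟨(a (a (a (b (c (a (l 14361416) (c (a (l 14532896) (l 14550880)) (a (l 14472136) (l 14471096)))) (a (b (c (l 14352968) (a (l 14308976) (l 14333104))) (l 14497488)) (c (l 14179560) (l 14458552)))) (c (l 14820232) (a (l 14687104) (l 14791000)))) (c (b (a (c (l 14545168) (l 14515288)) (l 14602752)) (l 14898696)) (b (b (l 14485152) (l 14633024)) (l 14881864)))) (b (c (a (c (l 14654960) (l 14761528)) (c (l 14750520) (l 14822856))) (a (l 14714024) (l 14876712))) (l 15071888))) (a (a (a (c (l 14875216) (l 14803752)) (l 15218960)) (b (l 15578464) (l 1))) (a (a (b (b (l 15946328) (l 15915456)) (l 1)) (l 16198656)) (l 16294144)))), by decide +kernel⟩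

def k4_pm_303 : ∃ t, chk3 f_pm_303 t 5 7 1 = true :=
  ⟨(b (b (a (a (b (l 15815272) (b (l 15820344) (l 16166624))) (b (l 16171640) (l 16381232))) (a (b (l 16574184) (l 16665760)) (l 16771328))) (a (a (b (l 16590328) (l 16681912)) (b (l 16704232) (l 16775032))) (l 1))) (a (a (b (l 16489632) (l 1)) (l 1)) (l 1))), by decide +kernel⟩

def k5_pm_303 : ∃ t, chk3 f_pm_303 t 3 7 1 = true :=
  ⟨(l 1), by decide +kernel⟩

theorem s6_pm_303 : ∃ t, chk3 f_pm_303 t 4 7 1 = true := ex3_b k2_pm_303 k3_pm_303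

theorem s7_pm_303 : ∃ t, chk3 f_pm_303 t 2 7 1 = true := ex3_a s6_pm_303 k4_pm_303

theorem s8_pm_303 : ∃ t, chk3 f_pm_303 t 1 7 1 = true := ex3_a s7_pm_303 k5_pm_303

theorem s9_pm_303 : ∃ t, chk3 f_pm_303 t 1 3 1 = true := ex3_b k1_pm_303 s8_pm_303

theorem s10_pm_303 : ∃ t, chk3 f_pm_303 t 1 1 1 = true := ex3_b k0_pm_303 s9_pm_303

theorem c_pm_303 : CertNX 1610612736 536870912 0 1230186008 1046898278 26843546 3 false true false .npn 3 0 3
    ndN3q3 ndN6q3 pcN0 Cut.none Ext.none :=
  certNX2 (fam := false) (s1 := true) (s2 := false) (a := 3) (b := 0) (c := 3) (cn := .npn) (n1 := ndN3q3) (n2 := ndN6q3) (pc := pcN0) (cut := Cut.none) (xt := Ext.none) (P1 := 1610612736) (W1 := 536870912) (P2 := 0) (W2 := 1230186008) (P3 := 1046898278) (W3 := 26843546) (N0 := 3)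
    rfl (fun _ => rfl) s10_pm_303

noncomputable def f_pm_313 : ℕ → ℕ → ℕ → ℕ → Bool := onCell 1610612736 536870912 0 1230186008 1046898278 26843546
    (rowNX 3 0 false true false .dn 3 1 3 (qsf 1610612736 536870912 0 1230186008 1) ndN3q3 ndN6q3 pcN1 Cut.none Ext.none)

def k0_pm_313 : ∃ t, chk3 f_pm_313 t 1 1 1 = true :=
  ⟨(b (l 3) (l 1)), by decide +kernel⟩

theorem c_pm_313 : CertNX 1610612736 536870912 0 1230186008 1046898278 26843546 3 false true false .dn 3 1 3
    ndN3q3 ndN6q3 pcN1 Cut.none Ext.none :=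
  certNX0 (fam := false) (s1 := true) (s2 := false) (a := 3) (b := 1) (c := 3) (cn := .dn) (n1 := ndN3q3) (n2 := ndN6q3) (pc := pcN1) (cut := Cut.none) (xt := Ext.none) (P1 := 1610612736) (W1 := 536870912) (P2 := 0) (W2 := 1230186008) (P3 := 1046898278) (W3 := 26843546) (N0 := 3)
    rfl k0_pm_313

noncomputable def f_mm_001 : ℕ → ℕ → ℕ → ℕ → Bool := onCell 0 536870912 0 536870912 1046898278 26843546
    (rowNX 3 1 false false false .up 0 0 1 (qsf 0 536870912 536870912 469762048 0) ndN3q0 ndN6q1 pcN0 Cut.none Ext.none)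

def k0_mm_001 : ∃ t, chk3 f_mm_001 t 1 1 1 = true :=
  ⟨(l 3), by decide +kernel⟩

theorem c_mm_001 : CertNX 0 536870912 536870912 469762048 1046898278 26843546 3 false false false .up 0 0 1
    ndN3q0 ndN6q1 pcN0 Cut.none Ext.none :=
  certNX1 (fam := false) (s1 := false) (s2 := false) (a := 0) (b := 0) (c := 1) (cn := .up) (n1 := ndN3q0) (n2 := ndN6q1) (pc := pcN0) (cut := Cut.none) (xt := Ext.none) (P1 := 0) (W1 := 536870912) (P2 := 536870912) (W2 := 469762048) (P3 := 1046898278) (W3 := 26843546) (N0 := 3)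
    rfl (fun _ => rfl) k0_mm_001

noncomputable def f_mm_011 : ℕ → ℕ → ℕ → ℕ → Bool := onCell 0 536870912 536870912 536870912 1046898278 26843546
    (rowNX 3 1 false false false .pnn 0 1 1 (qsf 0 536870912 536870912 469762048 1) ndN3q0 ndN6q1 pcN1 Cut.none Ext.none)

def k0_mm_011 : ∃ t, chk3 f_mm_011 t 1 1 1 = true :=
  ⟨(l 5), by decide +kernel⟩

theorem c_mm_011 : CertNX 0 536870912 536870912 469762048 1046898278 26843546 3 false false false .pnn 0 1 1
    ndN3q0 ndN6q1 pcN1 Cut.none Ext.none :=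
  certNX1 (fam := false) (s1 := false) (s2 := false) (a := 0) (b := 1) (c := 1) (cn := .pnn) (n1 := ndN3q0) (n2 := ndN6q1) (pc := pcN1) (cut := Cut.none) (xt := Ext.none) (P1 := 0) (W1 := 536870912) (P2 := 536870912) (W2 := 469762048) (P3 := 1046898278) (W3 := 26843546) (N0 := 3)
    rfl (fun _ => rfl) k0_mm_011

noncomputable def f_mm_012 : ℕ → ℕ → ℕ → ℕ → Bool := onCell 0 536870912 1073741824 536870912 1046898278 26843546
    (rowNX 3 0 false false false .pnp 0 1 2 (qsf 0 536870912 1073741824 536870912 1) ndN3q0 ndN6q2 pcN1 Cut.none Ext.none)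

def k0_mm_012 : ∃ t, chk3 f_mm_012 t 1 1 1 = true :=
  ⟨(l 5), by decide +kernel⟩

theorem c_mm_012 : CertNX 0 536870912 1073741824 536870912 1046898278 26843546 3 false false false .pnp 0 1 2
    ndN3q0 ndN6q2 pcN1 Cut.none Ext.none :=
  certNX0 (fam := false) (s1 := false) (s2 := false) (a := 0) (b := 1) (c := 2) (cn := .pnp) (n1 := ndN3q0) (n2 := ndN6q2) (pc := pcN1) (cut := Cut.none) (xt := Ext.none) (P1 := 0) (W1 := 536870912) (P2 := 1073741824) (W2 := 536870912) (P3 := 1046898278) (W3 := 26843546) (N0 := 3)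
    rfl k0_mm_012

noncomputable def f_mm_022 : ℕ → ℕ → ℕ → ℕ → Bool := onCell 0 536870912 1073741824 536870912 1046898278 26843546
    (rowNX 3 0 false false false .pp 0 2 2 (qsf 0 536870912 1073741824 536870912 2) ndN3q0 ndN6q2 pcN2 Cut.none Ext.none)

def k0_mm_022 : ∃ t, chk3 f_mm_022 t 1 1 1 = true :=
  ⟨(l 5), by decide +kernel⟩

theorem c_mm_022 : CertNX 0 536870912 1073741824 536870912 1046898278 26843546 3 false false false .pp 0 2 2
    ndN3q0 ndN6q2 pcN2 Cut.none Ext.none :=
  certNX0 (fam := false) (s1 := false) (s2 := false) (a := 0) (b := 2) (c := 2) (cn := .pp) (n1 := ndN3q0) (n2 := ndN6q2) (pc := pcN2) (cut := Cut.none) (xt := Ext.none) (P1 := 0) (W1 := 536870912) (P2 := 1073741824) (W2 := 536870912) (P3 := 1046898278) (W3 := 26843546) (N0 := 3)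
    rfl k0_mm_022

noncomputable def f_mm_023 : ℕ → ℕ → ℕ → ℕ → Bool := onCell 0 536870912 0 1230186008 1046898278 26843546
    (rowNX 3 0 false false false .up 0 2 3 (qsf 0 536870912 0 1230186008 2) ndN3q0 ndN6q3 pcN2 Cut.none Ext.none)

def k0_mm_023 : ∃ t, chk3 f_mm_023 t 1 1 1 = true :=
  ⟨(l 5), by decide +kernel⟩

theorem c_mm_023 : CertNX 0 536870912 0 1230186008 1046898278 26843546 3 false false false .up 0 2 3
    ndN3q0 ndN6q3 pcN2 Cut.none Ext.none :=
  certNX0 (fam := false) (s1 := false) (s2 := false) (a := 0) (b := 2) (c := 3) (cn := .up) (n1 := ndN3q0) (n2 := ndN6q3) (pc := pcN2) (cut := Cut.none) (xt := Ext.none) (P1 := 0) (W1 := 536870912) (P2 := 0) (W2 := 1230186008) (P3 := 1046898278) (W3 := 26843546) (N0 := 3)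
    rfl k0_mm_023

noncomputable def f_mm_033 : ℕ → ℕ → ℕ → ℕ → Bool := onCell 0 536870912 0 1230186008 1046898278 26843546
    (rowNX 3 0 false false false .pnn 0 3 3 (qsf 0 536870912 0 1230186008 3) ndN3q0 ndN6q3 pcN3 Cut.none Ext.none)

def k0_mm_033 : ∃ t, chk3 f_mm_033 t 1 1 1 = true :=
  ⟨(l 5), by decide +kernel⟩

theorem c_mm_033 : CertNX 0 536870912 0 1230186008 1046898278 26843546 3 false false false .pnn 0 3 3
    ndN3q0 ndN6q3 pcN3 Cut.none Ext.none :=
  certNX0 (fam := false) (s1 := false) (s2 := false) (a := 0) (b := 3) (c := 3) (cn := .pnn) (n1 := ndN3q0) (n2 := ndN6q3) (pc := pcN3) (cut := Cut.none) (xt := Ext.none) (P1 := 0) (W1 := 536870912) (P2 := 0) (W2 := 1230186008) (P3 := 1046898278) (W3 := 26843546) (N0 := 3)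
    rfl k0_mm_033

noncomputable def f_mm_101 : ℕ → ℕ → ℕ → ℕ → Bool := onCell 536870912 536870912 536870912 469762048 1046898278 26843546
    (rowNX 3 0 false false false .npn 1 0 1 (qsf 536870912 536870912 536870912 469762048 0) ndN3q1 ndN6q1 pcN0 Cut.none Ext.none)

def k0_mm_101 : ∃ t, chk3 f_mm_101 t 1 1 1 = true :=
  ⟨(l 3), by decide +kernel⟩

theorem c_mm_101 : CertNX 536870912 536870912 536870912 469762048 1046898278 26843546 3 false false false .npn 1 0 1
    ndN3q1 ndN6q1 pcN0 Cut.none Ext.none :=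
  certNX0 (fam := false) (s1 := false) (s2 := false) (a := 1) (b := 0) (c := 1) (cn := .npn) (n1 := ndN3q1) (n2 := ndN6q1) (pc := pcN0) (cut := Cut.none) (xt := Ext.none) (P1 := 536870912) (W1 := 536870912) (P2 := 536870912) (W2 := 469762048) (P3 := 1046898278) (W3 := 26843546) (N0 := 3)
    rfl k0_mm_101

noncomputable def f_mm_102 : ℕ → ℕ → ℕ → ℕ → Bool := onCell 536870912 536870912 1073741824 536870912 1046898278 26843546
    (rowNX 3 0 false false false .npp 1 0 2 (qsf 536870912 536870912 1073741824 536870912 0) ndN3q1 ndN6q2 pcN0 Cut.none Ext.none)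

def k0_mm_102 : ∃ t, chk3 f_mm_102 t 1 1 1 = true :=
  ⟨(l 5), by decide +kernel⟩

theorem c_mm_102 : CertNX 536870912 536870912 1073741824 536870912 1046898278 26843546 3 false false false .npp 1 0 2
    ndN3q1 ndN6q2 pcN0 Cut.none Ext.none :=
  certNX0 (fam := false) (s1 := false) (s2 := false) (a := 1) (b := 0) (c := 2) (cn := .npp) (n1 := ndN3q1) (n2 := ndN6q2) (pc := pcN0) (cut := Cut.none) (xt := Ext.none) (P1 := 536870912) (W1 := 536870912) (P2 := 1073741824) (W2 := 536870912) (P3 := 1046898278) (W3 := 26843546) (N0 := 3)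
    rfl k0_mm_102

noncomputable def f_mm_112 : ℕ → ℕ → ℕ → ℕ → Bool := onCell 536870912 536870912 1073741824 536870912 1046898278 26843546
    (rowNX 3 0 false false false .dn 1 1 2 (qsf 536870912 536870912 1073741824 536870912 1) ndN3q1 ndN6q2 pcN1 Cut.none Ext.none)

def k0_mm_112 : ∃ t, chk3 f_mm_112 t 1 1 1 = true :=
  ⟨(l 5), by decide +kernel⟩

theorem c_mm_112 : CertNX 536870912 536870912 1073741824 536870912 1046898278 26843546 3 false false false .dn 1 1 2
    ndN3q1 ndN6q2 pcN1 Cut.none Ext.none :=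
  certNX0 (fam := false) (s1 := false) (s2 := false) (a := 1) (b := 1) (c := 2) (cn := .dn) (n1 := ndN3q1) (n2 := ndN6q2) (pc := pcN1) (cut := Cut.none) (xt := Ext.none) (P1 := 536870912) (W1 := 536870912) (P2 := 1073741824) (W2 := 536870912) (P3 := 1046898278) (W3 := 26843546) (N0 := 3)
    rfl k0_mm_112

noncomputable def f_mm_113 : ℕ → ℕ → ℕ → ℕ → Bool := onCell 536870912 536870912 0 1230186008 1046898278 26843546
    (rowNX 3 0 false false false .nn 1 1 3 (qsf 536870912 536870912 0 1230186008 1) ndN3q1 ndN6q3 pcN1 Cut.none Ext.none)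

def k0_mm_113 : ∃ t, chk3 f_mm_113 t 1 1 1 = true :=
  ⟨(l 5), by decide +kernel⟩

theorem c_mm_113 : CertNX 536870912 536870912 0 1230186008 1046898278 26843546 3 false false false .nn 1 1 3
    ndN3q1 ndN6q3 pcN1 Cut.none Ext.none :=
  certNX0 (fam := false) (s1 := false) (s2 := false) (a := 1) (b := 1) (c := 3) (cn := .nn) (n1 := ndN3q1) (n2 := ndN6q3) (pc := pcN1) (cut := Cut.none) (xt := Ext.none) (P1 := 536870912) (W1 := 536870912) (P2 := 0) (W2 := 1230186008) (P3 := 1046898278) (W3 := 26843546) (N0 := 3)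
    rfl k0_mm_113

noncomputable def f_mm_123 : ℕ → ℕ → ℕ → ℕ → Bool := onCell 536870912 536870912 0 1230186008 1046898278 26843546
    (rowNX 3 0 false false false .npn 1 2 3 (qsf 536870912 536870912 0 1230186008 2) ndN3q1 ndN6q3 pcN2 Cut.none Ext.none)

def k0_mm_123 : ∃ t, chk3 f_mm_123 t 1 1 1 = true :=
  ⟨(l 5), by decide +kernel⟩

theorem c_mm_123 : CertNX 536870912 536870912 0 1230186008 1046898278 26843546 3 false false false .npn 1 2 3
    ndN3q1 ndN6q3 pcN2 Cut.none Ext.none :=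
  certNX0 (fam := false) (s1 := false) (s2 := false) (a := 1) (b := 2) (c := 3) (cn := .npn) (n1 := ndN3q1) (n2 := ndN6q3) (pc := pcN2) (cut := Cut.none) (xt := Ext.none) (P1 := 536870912) (W1 := 536870912) (P2 := 0) (W2 := 1230186008) (P3 := 1046898278) (W3 := 26843546) (N0 := 3)
    rfl k0_mm_123

noncomputable def f_mm_133 : ℕ → ℕ → ℕ → ℕ → Bool := onCell 536870912 536870912 0 1230186008 1046898278 26843546
    (rowNX 3 0 false false false .dn 1 3 3 (qsf 536870912 536870912 0 1230186008 3) ndN3q1 ndN6q3 pcN3 Cut.none Ext.none)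

def k0_mm_133 : ∃ t, chk3 f_mm_133 t 1 1 1 = true :=
  ⟨(l 5), by decide +kernel⟩

theorem c_mm_133 : CertNX 536870912 536870912 0 1230186008 1046898278 26843546 3 false false false .dn 1 3 3
    ndN3q1 ndN6q3 pcN3 Cut.none Ext.none :=
  certNX0 (fam := false) (s1 := false) (s2 := false) (a := 1) (b := 3) (c := 3) (cn := .dn) (n1 := ndN3q1) (n2 := ndN6q3) (pc := pcN3) (cut := Cut.none) (xt := Ext.none) (P1 := 536870912) (W1 := 536870912) (P2 := 0) (W2 := 1230186008) (P3 := 1046898278) (W3 := 26843546) (N0 := 3)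
    rfl k0_mm_133

noncomputable def f_mm_202 : ℕ → ℕ → ℕ → ℕ → Bool := onCell 1073741824 536870912 1073741824 536870912 1046898278 26843546
    (rowNX 3 0 false false false .pp 2 0 2 (qsf 1073741824 536870912 1073741824 536870912 0) ndN3q2 ndN6q2 pcN0 Cut.none Ext.none)

def k0_mm_202 : ∃ t, chk3 f_mm_202 t 1 1 1 = true :=
  ⟨(l 3), by decide +kernel⟩

theorem c_mm_202 : CertNX 1073741824 536870912 1073741824 536870912 1046898278 26843546 3 false false false .pp 2 0 2
    ndN3q2 ndN6q2 pcN0 Cut.none Ext.none :=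
  certNX0 (fam := false) (s1 := false) (s2 := false) (a := 2) (b := 0) (c := 2) (cn := .pp) (n1 := ndN3q2) (n2 := ndN6q2) (pc := pcN0) (cut := Cut.none) (xt := Ext.none) (P1 := 1073741824) (W1 := 536870912) (P2 := 1073741824) (W2 := 536870912) (P3 := 1046898278) (W3 := 26843546) (N0 := 3)
    rfl k0_mm_202

noncomputable def f_mm_203 : ℕ → ℕ → ℕ → ℕ → Bool := onCell 1073741824 536870912 0 1230186008 1046898278 26843546
    (rowNX 3 0 false false false .up 2 0 3 (qsf 1073741824 536870912 0 1230186008 0) ndN3q2 ndN6q3 pcN0 Cut.none Ext.none)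

def k0_mm_203 : ∃ t, chk3 f_mm_203 t 1 1 1 = true :=
  ⟨(b (l 5) (l 3)), by decide +kernel⟩

theorem c_mm_203 : CertNX 1073741824 536870912 0 1230186008 1046898278 26843546 3 false false false .up 2 0 3
    ndN3q2 ndN6q3 pcN0 Cut.none Ext.none :=
  certNX0 (fam := false) (s1 := false) (s2 := false) (a := 2) (b := 0) (c := 3) (cn := .up) (n1 := ndN3q2) (n2 := ndN6q3) (pc := pcN0) (cut := Cut.none) (xt := Ext.none) (P1 := 1073741824) (W1 := 536870912) (P2 := 0) (W2 := 1230186008) (P3 := 1046898278) (W3 := 26843546) (N0 := 3)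
    rfl k0_mm_203

noncomputable def f_mm_213 : ℕ → ℕ → ℕ → ℕ → Bool := onCell 1073741824 536870912 0 1230186008 1046898278 26843546
    (rowNX 3 0 false false false .pnn 2 1 3 (qsf 1073741824 536870912 0 1230186008 1) ndN3q2 ndN6q3 pcN1 Cut.none Ext.none)

def k0_mm_213 : ∃ t, chk3 f_mm_213 t 1 1 1 = true :=
  ⟨(b (l 5) (l 3)), by decide +kernel⟩

theorem c_mm_213 : CertNX 1073741824 536870912 0 1230186008 1046898278 26843546 3 false false false .pnn 2 1 3
    ndN3q2 ndN6q3 pcN1 Cut.none Ext.none :=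
  certNX0 (fam := false) (s1 := false) (s2 := false) (a := 2) (b := 1) (c := 3) (cn := .pnn) (n1 := ndN3q2) (n2 := ndN6q3) (pc := pcN1) (cut := Cut.none) (xt := Ext.none) (P1 := 1073741824) (W1 := 536870912) (P2 := 0) (W2 := 1230186008) (P3 := 1046898278) (W3 := 26843546) (N0 := 3)
    rfl k0_mm_213

noncomputable def f_mm_303 : ℕ → ℕ → ℕ → ℕ → Bool := onCell 0 536870912 0 1230186008 1046898278 26843546
    (rowNX 3 2 false false false .npn 3 0 3 (qsf 1610612736 536870912 0 1230186008 0) ndN3q3 ndN6q3 pcN0 Cut.none Ext.none)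

def k0_mm_303 : ∃ t, chk3 f_mm_303 t 1 1 1 = true :=
  ⟨(b (l 3) (l 3)), by decide +kernel⟩

theorem c_mm_303 : CertNX 1610612736 536870912 0 1230186008 1046898278 26843546 3 false false false .npn 3 0 3
    ndN3q3 ndN6q3 pcN0 Cut.none Ext.none :=
  certNX2 (fam := false) (s1 := false) (s2 := false) (a := 3) (b := 0) (c := 3) (cn := .npn) (n1 := ndN3q3) (n2 := ndN6q3) (pc := pcN0) (cut := Cut.none) (xt := Ext.none) (P1 := 1610612736) (W1 := 536870912) (P2 := 0) (W2 := 1230186008) (P3 := 1046898278) (W3 := 26843546) (N0 := 3)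
    rfl (fun _ => rfl) k0_mm_303

noncomputable def f_mm_313 : ℕ → ℕ → ℕ → ℕ → Bool := onCell 1610612736 536870912 0 1230186008 1046898278 26843546
    (rowNX 3 0 false false false .dn 3 1 3 (qsf 1610612736 536870912 0 1230186008 1) ndN3q3 ndN6q3 pcN1 Cut.none Ext.none)

def k0_mm_313 : ∃ t, chk3 f_mm_313 t 1 1 1 = true :=
  ⟨(b (l 3) (l 1)), by decide +kernel⟩

theorem c_mm_313 : CertNX 1610612736 536870912 0 1230186008 1046898278 26843546 3 false false false .dn 3 1 3
    ndN3q3 ndN6q3 pcN1 Cut.none Ext.none :=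
  certNX0 (fam := false) (s1 := false) (s2 := false) (a := 3) (b := 1) (c := 3) (cn := .dn) (n1 := ndN3q3) (n2 := ndN6q3) (pc := pcN1) (cut := Cut.none) (xt := Ext.none) (P1 := 1610612736) (W1 := 536870912) (P2 := 0) (W2 := 1230186008) (P3 := 1046898278) (W3 := 26843546) (N0 := 3)
    rfl k0_mm_313

end Pool.Agent.Strip051.G.IE1.Tab.C.NB36

namespace Pool.Agent.Strip051.G.IE1.Tab.C.NB37

open Pool.Agent.Strip051.PB Pool.Agent.Strip051.PB.T
open Pool.Agent.Strip051.G.IE1.Tab

noncomputable def f_pp_001 : ℕ → ℕ → ℕ → ℕ → Bool := onCell 0 536870912 0 536870912 1046898278 26843546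
    (rowNX 3 1 false true true .up 0 0 1 (qsf 0 536870912 536870912 536870912 0) ndN3q0 ndN7q1 pcN0 Cut.none Ext.none)

def k0_pp_001 : ∃ t, chk3 f_pp_001 t 1 1 1 = true :=
  ⟨(l 3), by decide +kernel⟩

theorem c_pp_001 : CertNX 0 536870912 536870912 536870912 1046898278 26843546 3 false true true .up 0 0 1
    ndN3q0 ndN7q1 pcN0 Cut.none Ext.none :=
  certNX1 (fam := false) (s1 := true) (s2 := true) (a := 0) (b := 0) (c := 1) (cn := .up) (n1 := ndN3q0) (n2 := ndN7q1) (pc := pcN0) (cut := Cut.none) (xt := Ext.none) (P1 := 0) (W1 := 536870912) (P2 := 536870912) (W2 := 536870912) (P3 := 1046898278) (W3 := 26843546) (N0 := 3)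
    rfl (fun _ => rfl) k0_pp_001

noncomputable def cut_pp_011 : Cut := Cut.of [[⟨0, 0, 0, 67108864⟩, ⟨1, 1, 0, 67108864⟩, ⟨2, 1, 0, 67108864⟩]]

noncomputable def f_pp_011 : ℕ → ℕ → ℕ → ℕ → Bool := onCell 0 536870912 536870912 536870912 1046898278 26843546
    (rowNX 3 1 false true true .pnn 0 1 1 (qsf 0 536870912 536870912 536870912 1) ndN3q0 ndN7q1 pcN1 cut_pp_011 Ext.none)

def k0_pp_011 : ∃ t, chk3 f_pp_011 t 1 1 1 = true :=
  ⟨(b (l 3) (a (b (l 3) (a (b (l 3) (b (l 3) (a (a (l 6) (l 3)) (l 2)))) (l 3))) (l 3))), by decide +kernel⟩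

theorem c_pp_011 : CertNX 0 536870912 536870912 536870912 1046898278 26843546 3 false true true .pnn 0 1 1
    ndN3q0 ndN7q1 pcN1 cut_pp_011 Ext.none :=
  certNX1 (fam := false) (s1 := true) (s2 := true) (a := 0) (b := 1) (c := 1) (cn := .pnn) (n1 := ndN3q0) (n2 := ndN7q1) (pc := pcN1) (cut := cut_pp_011) (xt := Ext.none) (P1 := 0) (W1 := 536870912) (P2 := 536870912) (W2 := 536870912) (P3 := 1046898278) (W3 := 26843546) (N0 := 3)
    rfl (fun _ => rfl) k0_pp_011

noncomputable def cut_pp_012 : Cut := Cut.of [[⟨0, 0, 0, 67108864⟩, ⟨1, 1, 0, 67108864⟩, ⟨2, 1, 0, 67108864⟩]]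

noncomputable def f_pp_012 : ℕ → ℕ → ℕ → ℕ → Bool := onCell 0 536870912 536870912 536870912 1046898278 26843546
    (rowNX 3 1 false true true .pnp 0 1 2 (qsf 0 536870912 1073741824 536870912 1) ndN3q0 ndN7q2 pcN1 cut_pp_012 Ext.none)

def k0_pp_012 : ∃ t, chk3 f_pp_012 t 1 1 1 = true :=
  ⟨(b (l 3) (a (b (l 3) (a (b (l 3) (a (a (b (l 3) (l 6)) (l 3)) (l 3))) (l 3))) (l 3))), by decide +kernel⟩

theorem c_pp_012 : CertNX 0 536870912 1073741824 536870912 1046898278 26843546 3 false true true .pnp 0 1 2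
    ndN3q0 ndN7q2 pcN1 cut_pp_012 Ext.none :=
  certNX1 (fam := false) (s1 := true) (s2 := true) (a := 0) (b := 1) (c := 2) (cn := .pnp) (n1 := ndN3q0) (n2 := ndN7q2) (pc := pcN1) (cut := cut_pp_012) (xt := Ext.none) (P1 := 0) (W1 := 536870912) (P2 := 1073741824) (W2 := 536870912) (P3 := 1046898278) (W3 := 26843546) (N0 := 3)
    rfl (fun _ => rfl) k0_pp_012

end Pool.Agent.Strip051.G.IE1.Tab.C.NB37

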