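import Pool.Agent.Strip051.G.IE1.Tab

/-! # Certificates N74 (generated) -/

set_option linter.all false
set_option maxRecDepth 100000

namespace Pool.Agent.Strip051.G.IE1.Tab.C.NB37

open Pool.Agent.Strip051.PB Pool.Agent.Strip051.PB.T
open Pool.Agent.Strip051.G.IE1.Tab

noncomputable def cut_pp_022 : Cut := Cut.of [[⟨0, 0, 0, 67108864⟩, ⟨1, 1, 0, 67108864⟩, ⟨2, 1, 0, 67108864⟩]]

noncomputable def f_pp_022 : ℕ → ℕ → ℕ → ℕ → Bool := onCell 0 536870912 1073741824 536870912 1046898278 26843546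
    (rowNX 3 1 false true true .pp 0 2 2 (qsf 0 536870912 1073741824 536870912 2) ndN3q0 ndN7q2 pcN2 cut_pp_022 Ext.none)

def k0_pp_022 : ∃ t, chk3 f_pp_022 t 32 16 1 = true :=
  ⟨(l 6), by decide +kernel⟩

def k1_pp_022 : ∃ t, chk3 f_pp_022 t 64 17 1 = true :=
  ⟨(b (l 6) (b (b (l 6) (b (l 6) (a (l 6) (c (c (c (l 16570096) (l 16623552)) (c (c (l 16515104) (l 16457928)) (l 16523584))) (c (l 16524504) (l 16504752)))))) (c (a (b (a (l 6) (c (l 16489888) (c (c (l 16538720) (l 16495688)) (l 16543424)))) (c (c (l 16583672) (c (l 16583184) (c (l 16567848) (l 16533784)))) (c (c (c (l 16557064) (l 16483928)) (c (l 16509784) (l 16513928))) (l 16530136)))) (c (c (b (l 16563920) (l 16604032)) (b (c (l 16608392) (a (l 16593656) (l 16606032))) (c (a (l 16580096) (l 16586416)) (c (l 16514072) (l 16510696))))) (c (b (c (a (l 16510680) (l 16448128)) (a (c (l 16541128) (l 16541528)) (l 16516640))) (c (a (c (l 16566704) (l 16536480)) (l 16512112)) (l 16519688))) (l 16502104)))) (a (c (l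 16535544) (c (l 16528128) (l 16479384))) (c (a (l 16473032) (l 16492360)) (c (l 16442976) (l 16461552))))))), by decide +kernel⟩

def k2_pp_022 : ∃ t, chk3 f_pp_022 t 65 17 1 = true :=
  ⟨(b (a (l 6) (a (l 6) (b (l 6) (b (l 6) (c (c (l 16574824) (c (c (l 16531240) (l 16463976)) (l 16501192))) (l 16496128)))))) (c (c (b (c (b (l 16516552) (l 16559088)) (b (a (l 16621080) (c (l 16615832) (l 16509056))) (a (c (l 16634144) (a (l 16618784) (l 16547808))) (c (l 16538928) (a (l 16526384) (l 16435848)))))) (c (a (b (l 16602264) (l 16592184)) (b (l 16591824) (c (l 16602480) (l 16521248)))) (a (c (b (l 16575280) (l 16480160)) (b (a (l 16579664) (l 16522736)) (a (l 16521432) (l 16470304)))) (b (c (l 16488352) (c (l 16499184) (l 16440416))) (c (l 16339896) (l 16394280)))))) (b (b (b (a (l 6) (c (c (l 16481864) (l 16431704)) (l 16483368))) (c (c (a (l 16515056) (l 16406752)) (a (l 16450320) (l 16484936))) (l 16435936))) (c (b (c (a (l 16484096) (c (l 16499152) (l 16484320))) (a (c (l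 16509120) (l 16525848)) (l 16460448))) (a (c (a (l 16582192) (l 16527480)) (l 16476240)) (l 16359704))) (l 16453240))) (c (a (c (b (a (l 16450808) (c (l 16500440) (l 16496472))) (l 16455576)) (l 16491536)) (l 16331304)) (l 16427224)))) (b (c (b (l 16488296) (l 16434240)) (b (l 16481752) (l 16448240))) (c (l 16366312) (l 16422040))))), by decide +kernel⟩

def k3_pp_022 : ∃ t, chk3 f_pp_022 t 33 16 1 = true :=
  ⟨(a (l 6) (l 3)), by decide +kernel⟩

def k4_pp_022 : ∃ t, chk3 f_pp_022 t 33 34 1 = true :=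
  ⟨(b (a (a (l 6) (a (l 6) (a (l 6) (l 3)))) (l 3)) (a (a (b (a (l 6) (c (c (l 16527152) (c (a (l 6) (c (l 16562888) (l 16500272))) (l 16516232))) (l 16513856))) (c (c (c (l 16562144) (c (l 16595688) (a (l 16613528) (b (l 16603808) (l 16563376))))) (c (c (a (c (l 16551392) (l 16512384)) (c (l 16503432) (l 16461984))) (a (l 16399696) (l 16454464))) (l 16472704))) (c (l 16472040) (l 16469616)))) (c (c (c (b (l 16566536) (l 16544768)) (b (c (l 16601200) (b (l 16623536) (l 16592448))) (c (l 16501992) (b (c (l 16553136) (l 16545616)) (l 16472712))))) (c (b (c (c (l 16534328) (b (l 16554152) (l 16518192))) (l 16387544)) (c (l 16370088) (l 16445352))) (l 16428736))) (b (l 16493648) (l 16439432)))) (b (a (a (c (c (c (l 16567408) (c (l 16605216) (l 16548944))) (c (c (l 16477048) (l 16484448)) (l 16482304))) (l 16478912)) (l 3)) (l 3)) (c (c (c (a (l 16513672) (l 16444120)) (c (a (l 16418656) (l 16378560)) (a (l 16361088) (l 16421368)))) (a (l 16334888) (l 16404272))) (a (l 16410336)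 (l 16396344)))))), by decide +kernel⟩

def k5_pp_022 : ∃ t, chk3 f_pp_022 t 33 35 1 = true :=
  ⟨(c (c (b (a (c (b (a (l 16553616) (c (l 16520824) (l 16472544))) (a (l 16525800) (b (c (l 16511088) (l 16444688)) (c (l 16508912) (l 16420840))))) (b (a (a (b (l 16542960) (l 16456072)) (c (l 16559200) (a (l 16504744) (l 16459656)))) (c (a (l 16424544) (l 16471536)) (a (l 16401680) (l 16424696)))) (a (c (a (l 16512168) (l 16466176)) (l 16333912)) (b (c (l 16369760) (l 16343592)) (c (l 16389488) (l 16359392)))))) (c (b (a (c (l 16500288) (l 16445544)) (c (l 16458288) (l 16370992))) (a (c (l 16336992) (l 16291552)) (c (l 16359912) (l 16271048)))) (b (a (c (l 16294736) (l 16379960)) (c (l 16326440) (l 16340360))) (a (c (l 16226936) (l 16324864)) (l 16291480))))) (a (a (c (b (c (l 16554616) (l 16484048)) (c (l 16525400) (c (l 16513848) (l 16468800)))) (c (b (c (l 16493648) (l 16449128)) (l 16355232)) (b (l 16388328) (l 16380464)))) (c (b (c (l 16434344) (l 16320088)) (c (l 16418560)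 (l 16343024))) (b (c (l 16291392) (l 16344056)) (l 16335792)))) (c (a (b (c (l 16359880) (l 16270728)) (c (l 16296136) (l 16306040))) (b (l 16190728) (l 16235368))) (a (b (l 16312208) (l 16290016)) (l 16264672))))) (b (a (b (a (c (c (a (l 16424232) (l 16381104)) (l 16434448)) (l 16430240)) (c (l 16299760) (l 16398240))) (a (c (l 16342832) (l 16394240)) (l 16356016))) (b (l 16367912) (a (l 16319992) (l 16283368)))) (a (a (l 16373080) (l 16330792)) (a (l 16252224) (l 16259488))))) (b (a (b (a (c (l 16429088) (l 16426016)) (c (l 16396480) (l 16392400))) (a (l 16390512) (b (l 16357944) (l 16342104)))) (b (a (l 16354696) (l 16326880)) (a (l 16311808) (l 16272568)))) (a (b (a (l 16372056) (c (l 16335136) (l 16330192))) (l 16337064)) (b (b (l 16279808) (l 16272904)) (c (l 16263976) (l 16257096)))))), by decide +kernel⟩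

def k6_pp_022 : ∃ t, chk3 f_pp_022 t 17 8 1 = true :=
  ⟨(b (l 3) (b (l 3) (a (a (b (a (a (c (c (c (b (l 3) (l 16216376)) (l 16261824)) (l 16296048)) (l 16284648)) (l 3)) (l 3)) (a (c (c (c (b (l 16234232) (l 16223520)) (l 16225560)) (l 16219864)) (l 16206472)) (b (c (l 16193768) (l 16197368)) (c (l 16182496) (l 16164880))))) (l 3)) (l 3)))), by decide +kernel⟩

def k7_pp_022 : ∃ t, chk3 f_pp_022 t 9 8 1 = true :=
  ⟨(l 3), by decide +kernel⟩

def k8_pp_022 : ∃ t, chk3 f_pp_022 t 5 8 1 = true :=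
  ⟨(l 3), by decide +kernel⟩

def k9_pp_022 : ∃ t, chk3 f_pp_022 t 16 36 2 = true :=
  ⟨(a (c (b (a (c (a (l 16464120) (b (l 16503176) (c (l 16534936) (a (l 16537336) (l 16460624))))) (a (c (b (l 16546584) (l 16392056)) (b (a (l 16503528) (l 16480680)) (b (l 16423960) (l 16387120)))) (c (b (a (l 16509272) (l 16511696)) (b (l 16439400) (l 16396384))) (b (a (l 16448520) (l 16401976)) (a (l 16381240) (l 16408208)))))) (b (c (a (c (l 16596576) (l 16480304)) (c (l 16507888) (l 16392120))) (a (c (a (l 16486200) (l 16447176)) (a (c (l 16469160) (l 16470896)) (l 16456000))) (c (b (c (l 16454968) (l 16442664)) (l 16417488)) (l 16406288)))) (c (a (a (l 16367904) (c (l 16535792) (l 16435784))) (c (l 16401992) (b (l 16390568) (l 16381720)))) (a (c (l 16296976) (l 16391512)) (l 16354000))))) (b (a (c (a (c (l 16475336) (b (l 16491568) (l 16404808))) (c (b (l 16472840) (l 16413112)) (a (l 16397840) (l 16371696)))) (c (a (c (l 16407216) (l 16367992)) (l 16213672)) (a (l 16293920) (l 16333024))))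 (c (c (a (b (l 16473936) (l 16419152)) (l 16315400)) (a (l 16291656) (l 16318576))) (l 16204376))) (a (c (c (a (l 16347032) (l 16314944)) (a (l 16260576) (l 16247608))) (c (a (l 16216608) (l 16270960)) (l 16268672))) (c (a (c (l 16310936) (l 16259032)) (l 16140080)) (l 16243920))))) (b (a (b (c (c (a (a (l 16419464) (l 16417704)) (l 16396184)) (l 16372328)) (l 16410672)) (a (l 16330312) (l 16397880))) (l 16273544)) (a (l 16170320) (l 16167552)))) (b (c (a (c (a (b (c (l 16426376) (l 16328280)) (l 16155024)) (c (l 16137872) (l 16214656))) (a (l 16286352) (l 16278984))) (b (a (c (l 16225416) (l 16265440)) (l 16235976)) (l 16105056))) (a (l 16288536) (a (l 16238856) (l 16205472)))) (a (c (c (c (a (l 16135384) (l 16201752)) (l 16210016)) (l 16196888)) (l 16180680)) (l 16149416)))), by decide +kernel⟩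

def k10_pp_022 : ∃ t, chk3 f_pp_022 t 16 36 3 = true :=
  ⟨(a (a (a (c (l 16287256) (b (a (l 16400832) (l 16385296)) (l 16261408))) (b (c (b (l 16408120) (l 16375984)) (b (l 16387840) (l 16354656))) (c (l 16226672) (l 16203816)))) (b (c (l 16308432) (l 16342088)) (c (l 16200832) (l 16211504)))) (b (a (l 16152592) (a (l 16229080) (b (l 16214752) (l 16173352)))) (a (l 16168008) (l 16127560)))), by decide +kernel⟩

def k11_pp_022 : ∃ t, chk3 f_pp_022 t 16 37 1 = true :=
  ⟨(a (a (c (c (c (b (c (a (b (l 16296320) (l 16204328)) (b (l 16265624) (l 16162536))) (a (b (l 16207768) (l 16152696)) (l 16136832))) (c (a (b (l 16101016) (l 16017264)) (l 16047112)) (l 16042664))) (b (l 16149776) (l 16038720))) (l 16094904)) (c (a (l 16087904) (l 16066544)) (a (l 15944016) (l 16040864)))) (c (b (c (c (a (c (b (l 16227736) (l 16142040)) (l 16169184)) (l 16157920)) (l 16148536)) (l 16100648)) (a (l 16017288) (l 16004520))) (b (c (l 16090312) (l 16077936)) (c (l 15880144) (l 15949664)))))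 (c (b (a (l 16026160) (l 16099688)) (a (c (l 16031392) (l 16002352)) (l 16089720))) (b (a (l 15993832) (l 16076608)) (c (l 15949720) (l 16023056))))), by decide +kernel⟩

def k12_pp_022 : ∃ t, chk3 f_pp_022 t 17 18 1 = true :=
  ⟨(b (b (a (c (a (b (l 16177096) (l 16157000)) (b (l 16156224) (l 16162200))) (a (b (l 16157528) (l 16136960)) (b (l 16137496) (l 16143952)))) (l 3)) (a (c (a (b (l 16123944) (l 16143824)) (b (l 16181360) (l 16200976))) (a (b (l 16124720) (l 16123880)) (l 16097672))) (a (c (l 16200368) (l 16270504)) (l 3)))) (c (a (b (a (b (l 16153208) (l 16163016)) (l 16206256)) (a (l 16170880) (c (l 16253296) (l 16246056)))) (b (a (l 16285912) (l 16377176)) (a (l 16319480) (l 16378856)))) (a (b (a (b (l 16133912) (l 16144384)) (l 16212384)) (a (l 16153000) (c (l 16239368) (l 16232192)))) (b (l 16241976) (a (l 16308312) (l 16369520)))))), by decide +kernel⟩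

def k13_pp_022 : ∃ t, chk3 f_pp_022 t 9 18 1 = true :=
  ⟨(b (l 3) (b (l 3) (a (a (a (c (l 16378888) (l 16369288)) (l 3)) (l 3)) (l 3)))), by decide +kernel⟩

def k14_pp_022 : ∃ t, chk3 f_pp_022 t 8 19 1 = true :=
  ⟨(a (b (b (a (c (a (b (l 15941176) (b (l 15896288) (l 15881008))) (a (b (l 15934368) (l 15912280)) (c (l 15943704) (l 15813184)))) (a (a (c (l 15894128) (l 15789272)) (c (l 15841520) (l 15855280))) (a (b (l 15831120) (l 15850784)) (c (l 15892912) (l 15881792))))) (c (a (b (l 15998824) (l 15993824)) (l 16086008)) (b (l 16014168) (c (l 16017392) (l 16006896))))) (a (c (a (l 15818608) (a (l 15964352) (l 15980848))) (a (c (l 15874776) (a (l 15865712) (l 15875048))) (c (l 15923016) (l 15908512)))) (c (a (l 16032312) (l 16131608)) (l 15952400)))) (a (c (a (b (l 16023032) (l 16141320)) (b (l 16057088) (l 16159832))) (a (c (b (l 15998704) (l 16120968)) (a (l 15995736) (l 16044504))) (c (l 16045784) (l 16055408)))) (a (c (b (l 16091888) (l 16118064)) (b (l 16062912)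 (l 16113496))) (c (l 16135816) (l 16099264))))) (b (a (b (c (l 16034216) (l 16122784)) (c (l 16242472) (l 16271120))) (c (b (a (b (l 16343544) (l 16361464)) (b (l 16408368) (l 16442656))) (c (l 16290664) (l 16351352))) (b (b (a (l 16333776) (l 16400664)) (l 16269160)) (c (l 16349400) (l 16326176))))) (b (c (a (l 16316592) (b (l 16349824) (l 16448848))) (a (l 16327808) (b (l 16450824) (l 16443368)))) (a (c (l 16375352) (l 16410568)) (c (l 16394856) (l 16387656)))))), by decide +kernel⟩

def k15_pp_022 : ∃ t, chk3 f_pp_022 t 9 19 1 = true :=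
  ⟨(b (a (a (c (b (a (l 16407304) (l 16345320)) (l 16462584)) (b (a (l 16379272) (l 16333432)) (l 16436040))) (b (l 3) (a (l 16285440) (l 16199392)))) (l 3)) (a (b (c (a (a (l 16422032) (l 16485208)) (l 16333904)) (a (a (l 16396648) (l 16479712)) (l 16320784))) (c (a (b (l 16413888) (l 16397864)) (l 16404536)) (a (b (l 16409720) (l 16413400)) (l 16394504)))) (a (c (b (l 16178528) (l 16257520)) (b (l 16157840) (l 16239936))) (c (l 16266216) (l 16248312))))), by decide +kernel⟩

def k16_pp_022 : ∃ t, chk3 f_pp_022 t 5 9 1 = true :=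
  ⟨(b (l 3) (l 3)), by decide +kernel⟩

def k17_pp_022 : ∃ t, chk3 f_pp_022 t 3 4 1 = true :=
  ⟨(b (l 3) (a (l 3) (a (b (l 3) (b (l 3) (a (c (l 16774792) (l 16774712)) (l 2)))) (b (b (l 3) (l 2)) (l 2))))), by decide +kernel⟩

def k18_pp_022 : ∃ t, chk3 f_pp_022 t 8 20 1 = true :=
  ⟨(b (a (a (c (a (l 16090304) (b (l 16277552) (l 16356992))) (a (c (l 16097720) (b (l 16239616) (l 16345704))) (b (l 16198872) (l 16361032)))) (b (c (a (l 16232696) (l 16299944)) (a (l 16232600) (l 16288552))) (c (a (l 16382688) (l 16312864)) (a (l 16367592) (l 16284240))))) (a (b (c (l 16446752) (l 16445912)) (c (l 16389760) (l 16387528))) (c (b (l 16342696) (l 16303600)) (l 16251848)))) (a (b (a (c (a (l 16163464) (b (l 16232704) (l 16125768))) (a (c (l 16146512) (b (l 16211440) (l 16120104))) (c (l 16207456) (l 16205584)))) (c (l 16034840) (b (l 16316824) (l 16177688)))) (b (a (c (a (l 15993184) (l 15982968)) (a (c (l 15992456) (l 15996504)) (l 16002976))) (c (l 15961904) (l 16043128))) (a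 (b (c (a (l 15895608) (l 15896616)) (a (l 15768848) (l 15912472))) (c (a (l 15830968) (a (l 15814056) (l 15833872))) (a (c (l 15825624) (b (l 15750584) (l 15805400))) (c (l 15847928) (l 15839280))))) (c (b (l 16001672) (l 15763912)) (b (l 15994792) (l 15922048)))))) (b (a (c (b (l 16354480) (l 16318072)) (b (l 16351320) (l 16313728))) (c (l 16274184) (l 16264032))) (b (a (a (c (l 16225104) (l 16216208)) (c (l 16272736) (l 16242376))) (c (l 16226728) (l 16236960))) (b (a (c (l 16137848) (l 16126408)) (c (b (l 16215944) (l 16191448)) (l 16163064))) (a (c (l 16055112) (l 16040288)) (b (b (b (c (l 16175456) (l 16161912)) (a (l 16132872) (c (c (l 16156432) (l 16170784)) (l 16160856)))) (l 16095744)) (l 16084888)))))))), by decide +kernel⟩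

def k19_pp_022 : ∃ t, chk3 f_pp_022 t 8 21 1 = true :=
  ⟨(a (a (c (a (b (l 15699872) (l 15531008)) (b (l 15716264) (l 15550616))) (a (b (c (l 15691016) (l 15689536)) (l 15454056)) (c (l 15649736) (l 15637640)))) (c (b (l 15815440) (l 15632288)) (b (l 15801608) (l 15611816)))) (a (c (l 15651232) (l 15795352)) (c (b (l 15984144) (l 15765528)) (b (l 15984896) (l 15735952))))), by decide +kernel⟩

def k20_pp_022 : ∃ t, chk3 f_pp_022 t 9 10 1 = true :=
  ⟨(a (b (b (a (a (c (l 16333976) (l 16345816)) (l 16339112)) (b (c (b (l 16454424) (l 16480736)) (b (l 16446648) (l 16474224))) (b (c (l 16495032) (l 16489352)) (l 16491128)))) (c (b (l 16258856) (b (l 16327176) (b (l 16289552) (a (a (c (l 16155048) (l 16149184)) (l 16384464)) (l 16467456))))) (b (l 16296736) (b (l 16343944) (b (l 16326800) (a (a (a (l 16082064) (l 16263800)) (l 16377944)) (l 16462224))))))) (a (a (l 15753216) (l 16034928)) (c (l 16346488) (l 16316424)))) (b (b (b (c (a (l 16334824) (l 16382312)) (a (l 16320328)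 (l 16368952))) (c (a (b (l 16386480) (l 16414432)) (l 16457640)) (a (b (l 16374128) (l 16403288)) (l 16447320)))) (b (b (c (a (l 16427848) (l 16506736)) (a (l 16417400) (l 16498488))) (a (l 16411624) (c (l 16527344) (l 16520056)))) (b (b (l 16417208) (l 16386800)) (b (a (l 16383080) (l 16487368)) (c (l 16267344) (l 16257520)))))) (a (b (l 16490512) (l 16525480)) (l 16554896)))), by decide +kernel⟩

def k21_pp_022 : ∃ t, chk3 f_pp_022 t 4 11 1 = true :=
  ⟨(a (a (b (a (c (a (l 15286400) (l 15055112)) (a (c (l 15266504) (l 15257536)) (l 15216504))) (c (l 15088048) (l 15308144))) (c (a (a (l 14932728) (l 14921672)) (l 14961712)) (a (a (l 14707384) (l 14901024)) (l 14915088)))) (b (a (c (b (l 15500328) (l 15277000)) (l 15284920)) (c (l 15411568) (l 15367768))) (c (a (l 14996248) (l 15030248)) (a (l 14939960) (l 14970752))))) (a (a (b (c (l 15597320) (l 15558464)) (c (l 15241064) (l 15187416))) (b (l 15707856) (c (l 15649384) (l 15610304)))) (b (a (a (l 16211464) (l 16267720))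 (l 16250296)) (c (l 16042184) (l 16040392))))), by decide +kernel⟩

def k22_pp_022 : ∃ t, chk3 f_pp_022 t 5 5 1 = true :=
  ⟨(b (b (b (a (a (c (b (l 16479376) (l 16553576)) (b (l 16468968) (l 16546112))) (l 3)) (l 3)) (b (a (b (c (a (l 16607928) (l 16703752)) (a (l 16602712) (l 16701664))) (c (a (a (l 16609224) (l 16674336)) (l 16675760)) (a (a (l 16604480) (l 16671568)) (l 16672528)))) (l 3)) (b (b (a (a (c (l 16661272) (l 16658432)) (c (l 16655456) (l 16651416))) (l 3)) (a (a (c (a (l 16632168) (l 16714824)) (a (l 16628576) (l 16713936))) (c (l 16644520) (l 16640048))) (a (l 16712584) (l 3)))) (a (a (b (a (l 16606192) (b (c (l 16720040) (l 16719504)) (c (l 16717136) (l 16716528)))) (l 16477176)) (b (b (c (l 16635944) (l 16631136)) (c (l 16633640) (l 16628760))) (b (b (b (c (l 16631160) (l 16626192)) (b (c (l 16631760) (l 16626832)) (c (a (l 16640144) (l 16623992)) (a (l 16635736) (l 16618616))))) (l 16629736)) (l 16626912)))) (b (a (c (l 16713704) (l 16690504)) (b (l 3)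 (l 16777120))) (a (b (b (b (l 16712584) (b (l 16712584) (l 16691608))) (l 16712584)) (l 16712584)) (a (c (l 16777032) (l 16777024)) (c (l 16777216) (l 16777216))))))))) (a (a (a (l 16586616) (l 16586464)) (a (l 16518800) (l 16620928))) (a (l 16712584) (l 16777120)))) (a (a (b (a (l 16366568) (l 16482920)) (l 16410424)) (b (l 16590072) (l 16589864))) (a (b (l 16712584) (l 16712584)) (b (l 16777120) (l 16777120))))), by decide +kernel⟩

def k23_pp_022 : ∃ t, chk3 f_pp_022 t 3 5 1 = true :=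
  ⟨(a (b (b (b (a (l 3) (c (l 1648898334391) (l 1589305662759))) (b (a (c (l 3401244996583) (l 3396950029255)) (b (c (l 16767248) (l 16766904)) (c (l 16753056) (l 16752208)))) (b (a (c (l 3148378799063) (l 3151600024519)) (c (a (l 16762136) (l 16705792)) (a (l 16761600) (l 16703288)))) (a (b (c (a (l 16777200) (l 16771056)) (a (l 16777192) (l 16770840))) (b (b (b (a (l 16777216) (l 16770832)) (c (a (l 16777216) (l 16764800)) (a (l 16777216) (l 16764360)))) (l 16765992)) (l 16765760))) (b (a (c (l 16740040) (l 16738736)) (l 16642704)) (l 16655128)))))) (a (a (l 16774312) (l 16751064)) (l 16657080))) (a (b (l 16764728) (l 16777184)) (b (l 16723816) (l 2)))) (b (b (a (a (b (b (l 16775744) (l 2)) (l 2)) (l 2)) (l 2)) (l 2)) (l 2))), by decide +kernel⟩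

def k24_pp_022 : ∃ t, chk3 f_pp_022 t 1 3 1 = true :=
  ⟨(a (a (a (b (a (b (c (a (b (l 14598200) (l 14292528)) (b (l 14641992) (l 14378216))) (a (b (c (l 14564408) (l 14539664)) (c (l 14248680) (l 14217128))) (b (l 14582000) (l 14306520)))) (c (a (b (b (l 14123704) (l 14097408)) (l 14097408)) (l 14297024)) (a (c (l 13994608) (l 14021608)) (l 14221552)))) (b (b (c (a (l 14689728) (l 14765696)) (a (l 14620480) (l 14694960))) (c (l 14369048) (l 14523464))) (c (l 14586696) (l 14509832)))) (a (b (c (l 13963560) (l 14127872)) (c (l 14194240) (l 14127872))) (b (c (l 14586696) (l 14509832)) (c (l 14586696) (l 14509832))))) (b (a (a (b (c (l 15055200) (l 14993656)) (c (l 15044744) (l 14982736))) (b (l 15399592) (l 15546392))) (b (c (a (l 16024448) (l 16201184)) (l 15963792)) (a (l 16011264) (l 16191104)))) (a (b (c (l 15309384) (l 15256400)) (l 15202552)) (b (l 16101312) (l 2))))) (b (a (b (a (b (l 16410416) (l 16410416)) (l 16589864)) (a (l 16410416) (l 16589864))) (b (a (l 16712584)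 (l 16777120)) (a (l 16712584) (l 2)))) (a (b (a (l 16410416) (l 2)) (l 2)) (l 2)))) (b (a (a (a (b (l 16777216) (l 2)) (l 2)) (l 2)) (l 2)) (l 2))), by decide +kernel⟩

theorem s25_pp_022 : ∃ t, chk3 f_pp_022 t 8 10 1 = true := ex3_b k18_pp_022 k19_pp_022

theorem s26_pp_022 : ∃ t, chk3 f_pp_022 t 4 10 1 = true := ex3_a s25_pp_022 k20_pp_022

theorem s27_pp_022 : ∃ t, chk3 f_pp_022 t 4 5 1 = true := ex3_b s26_pp_022 k21_pp_022

theorem s28_pp_022 : ∃ t, chk3 f_pp_022 t 2 5 1 = true := ex3_a s27_pp_022 k22_pp_022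

theorem s29_pp_022 : ∃ t, chk3 f_pp_022 t 1 5 1 = true := ex3_a s28_pp_022 k23_pp_022

theorem s30_pp_022 : ∃ t, chk3 f_pp_022 t 4 19 1 = true := ex3_a k14_pp_022 k15_pp_022

theorem s31_pp_022 : ∃ t, chk3 f_pp_022 t 16 36 1 = true := ex3_c k9_pp_022 k10_pp_022

theorem s32_pp_022 : ∃ t, chk3 f_pp_022 t 16 18 1 = true := ex3_b s31_pp_022 k11_pp_022

theorem s33_pp_022 : ∃ t, chk3 f_pp_022 t 8 18 1 = true := ex3_a s32_pp_022 k12_pp_022

theorem s34_pp_022 : ∃ t, chk3 f_pp_022 t 4 18 1 = true := ex3_a s33_pp_022 k13_pp_022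

theorem s35_pp_022 : ∃ t, chk3 f_pp_022 t 4 9 1 = true := ex3_b s34_pp_022 s30_pp_022

theorem s36_pp_022 : ∃ t, chk3 f_pp_022 t 2 9 1 = true := ex3_a s35_pp_022 k16_pp_022

theorem s37_pp_022 : ∃ t, chk3 f_pp_022 t 33 17 1 = true := ex3_b k4_pp_022 k5_pp_022

theorem s38_pp_022 : ∃ t, chk3 f_pp_022 t 33 8 1 = true := ex3_b k3_pp_022 s37_pp_022

theorem s39_pp_022 : ∃ t, chk3 f_pp_022 t 32 17 1 = true := ex3_a k1_pp_022 k2_pp_022

theorem s40_pp_022 : ∃ t, chk3 f_pp_022 t 32 8 1 = true := ex3_b k0_pp_022 s39_pp_022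

theorem s41_pp_022 : ∃ t, chk3 f_pp_022 t 16 8 1 = true := ex3_a s40_pp_022 s38_pp_022

theorem s42_pp_022 : ∃ t, chk3 f_pp_022 t 8 8 1 = true := ex3_a s41_pp_022 k6_pp_022

theorem s43_pp_022 : ∃ t, chk3 f_pp_022 t 4 8 1 = true := ex3_a s42_pp_022 k7_pp_022

theorem s44_pp_022 : ∃ t, chk3 f_pp_022 t 2 8 1 = true := ex3_a s43_pp_022 k8_pp_022

theorem s45_pp_022 : ∃ t, chk3 f_pp_022 t 2 4 1 = true := ex3_b s44_pp_022 s36_pp_022

theorem s46_pp_022 : ∃ t, chk3 f_pp_022 t 1 4 1 = true := ex3_a s45_pp_022 k17_pp_022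

theorem s47_pp_022 : ∃ t, chk3 f_pp_022 t 1 2 1 = true := ex3_b s46_pp_022 s29_pp_022

theorem s48_pp_022 : ∃ t, chk3 f_pp_022 t 1 1 1 = true := ex3_b s47_pp_022 k24_pp_022

theorem c_pp_022 : CertNX 0 536870912 1073741824 536870912 1046898278 26843546 3 false true true .pp 0 2 2
    ndN3q0 ndN7q2 pcN2 cut_pp_022 Ext.none :=
  certNX1 (fam := false) (s1 := true) (s2 := true) (a := 0) (b := 2) (c := 2) (cn := .pp) (n1 := ndN3q0) (n2 := ndN7q2) (pc := pcN2) (cut := cut_pp_022) (xt := Ext.none) (P1 := 0) (W1 := 536870912) (P2 := 1073741824) (W2 := 536870912) (P3 := 1046898278) (W3 := 26843546) (N0 := 3)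
    rfl (fun _ => rfl) s48_pp_022

noncomputable def f_pp_023 : ℕ → ℕ → ℕ → ℕ → Bool := onCell 1073741824 536870912 0 1230186008 1046898278 26843546
    (rowNX 3 2 false true true .up 0 2 3 (qsf 0 536870912 0 1230186008 2) ndN3q0 ndN7q3 pcN2 Cut.none Ext.none)

def k0_pp_023 : ∃ t, chk3 f_pp_023 t 1 1 1 = true :=
  ⟨(b (a (l 2) (a (l 2) (a (b (l 2) (l 16766408)) (b (l 16637376) (l 16766408))))) (a (a (b (l 2) (b (l 2) (b (a (l 2) (b (a (l 2) (a (l 16747144) (l 16627048))) (a (a (l 16372128) (l 788293764055)) (a (a (l 16761024) (l 16758984)) (a (l 16733936) (l 16682112)))))) (a (l 3) (a (l 3) (a (c (l 16772760) (l 16772608)) (c (b (l 16723384) (l 16774792)) (b (l 16721496) (l 16774712))))))))) (a (b (l 2) (b (b (a (l 2) (a (l 2) (b (l 2) (c (l 16378872) (l 16401288))))) (a (b (l 2) (a (l 16756392) (a (l 16730096) (l 16639576)))) (l 16590144))) (a (a (b (b (l 16539304) (l 16580840)) (b (c (l 16713528) (l 16711288)) (a (l 16775744) (c (l 16762504) (l 16761992))))) (a (b (l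 16521080) (b (l 16603632) (c (l 16733328) (l 16731784)))) (b (b (l 16661296) (a (l 16439096) (a (l 16471384) (l 16513336)))) (a (c (l 16608304) (l 16602368)) (b (l 16597480) (l 16615000)))))) (b (l 16652192) (l 16619224))))) (b (a (l 2) (b (l 2) (l 16776656))) (b (b (a (a (c (l 16502560) (l 16516808)) (l 16681920)) (l 16776968)) (l 16754912)) (b (b (l 16759752) (l 16744176)) (l 16756816)))))) (b (b (l 16777216) (a (l 16777216) (l 16777216))) (b (a (b (l 16777216) (l 16777216)) (b (l 16765672) (a (l 16766248) (l 16543072)))) (a (a (b (l 16777216) (l 16846304)) (b (l 16767256) (b (l 16706912) (l 16579728)))) (b (a (b (l 16711248) (l 16603392)) (b (l 16421376) (a (l 16323424) (b (l 16051736) (l 15708432))))) (a (b (l 16404384) (a (l 16145216) (b (l 15976920) (l 15361144)))) (b (a (b (l 16031800) (l 15656864)) (b (l 15248416) (l 14812760))) (a (b (l 15169680) (l 14735232)) (b (l 14486320) (l 14256384))))))))))), by decide +kernel⟩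

theorem c_pp_023 : CertNX 0 536870912 0 1230186008 1046898278 26843546 3 false true true .up 0 2 3
    ndN3q0 ndN7q3 pcN2 Cut.none Ext.none :=
  certNX2 (fam := false) (s1 := true) (s2 := true) (a := 0) (b := 2) (c := 3) (cn := .up) (n1 := ndN3q0) (n2 := ndN7q3) (pc := pcN2) (cut := Cut.none) (xt := Ext.none) (P1 := 0) (W1 := 536870912) (P2 := 0) (W2 := 1230186008) (P3 := 1046898278) (W3 := 26843546) (N0 := 3)
    rfl (fun _ => rfl) k0_pp_023

noncomputable def f_pp_033 : ℕ → ℕ → ℕ → ℕ → Bool := onCell 0 536870912 0 1230186008 1046898278 26843546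
    (rowNX 3 0 false true true .pnn 0 3 3 (qsf 0 536870912 0 1230186008 3) ndN3q0 ndN7q3 pcN3 Cut.none Ext.none)

def k0_pp_033 : ∃ t, chk3 f_pp_033 t 1 1 1 = true :=
  ⟨(b (b (a (l 4) (a (l 4) (b (l 4) (l 16657680)))) (a (a (a (b (l 4) (a (b (b (l 4) (c (l 14193992) (l 14127392))) (a (b (l 14065624) (l 14066576)) (l 14250096))) (b (c (l 14586720) (l 14509784)) (l 14549528)))) (b (a (l 4) (c (l 16106168) (l 16074760))) (a (b (l 15139640) (l 15286440)) (b (l 16101312) (l 16101312))))) (a (b (c (l 16496232) (l 16480200)) (b (l 16500672) (l 16500672))) (b (c (l 16730424) (l 16726872)) (b (l 16745168) (l 16745168))))) (a (c (b (l 16759192) (l 16777216)) (b (l 16758560) (l 16777216))) (b (l 16758880) (l 16777216))))) (b (a (a (b (a (b (a (c (l 14194208) (l 14127824)) (l 14549520)) (a (l 14163536) (l 14549528))) (b (a (l 15286440) (l 16101312)) (a (l 15286440) (l 16101312)))) (a (a (b (l 14142600) (l 14163584)) (b (l 14549536) (l 14549544))) (a (l 15286440) (l 16101312)))) (b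 (a (l 16500672) (l 16745168)) (a (l 16500672) (l 16745168)))) (b (l 16777216) (c (l 16777216) (l 16777216)))) (a (a (a (b (a (c (l 14152304) (b (l 14127872) (l 14127872))) (b (l 14549544) (l 14549544))) (b (a (c (l 14194240) (l 14127872)) (l 14549544)) (a (c (l 14194240) (l 14127872)) (l 14549544)))) (b (a (b (l 15286440) (l 15286440)) (l 16059368)) (a (b (l 15286440) (l 15286440)) (b (l 16101312) (l 1))))) (b (a (l 16500672) (l 16745168)) (a (b (l 16500672) (l 1)) (l 1)))) (l 1)))), by decide +kernel⟩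

theorem c_pp_033 : CertNX 0 536870912 0 1230186008 1046898278 26843546 3 false true true .pnn 0 3 3
    ndN3q0 ndN7q3 pcN3 Cut.none Ext.none :=
  certNX0 (fam := false) (s1 := true) (s2 := true) (a := 0) (b := 3) (c := 3) (cn := .pnn) (n1 := ndN3q0) (n2 := ndN7q3) (pc := pcN3) (cut := Cut.none) (xt := Ext.none) (P1 := 0) (W1 := 536870912) (P2 := 0) (W2 := 1230186008) (P3 := 1046898278) (W3 := 26843546) (N0 := 3)
    rfl k0_pp_033

noncomputable def f_pp_101 : ℕ → ℕ → ℕ → ℕ → Bool := onCell 536870912 536870912 536870912 536870912 1046898278 26843546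
    (rowNX 3 0 false true true .npn 1 0 1 (qsf 536870912 536870912 536870912 536870912 0) ndN3q1 ndN7q1 pcN0 Cut.none Ext.none)

def k0_pp_101 : ∃ t, chk3 f_pp_101 t 1 1 1 = true :=
  ⟨(l 3), by decide +kernel⟩

theorem c_pp_101 : CertNX 536870912 536870912 536870912 536870912 1046898278 26843546 3 false true true .npn 1 0 1
    ndN3q1 ndN7q1 pcN0 Cut.none Ext.none :=
  certNX0 (fam := false) (s1 := true) (s2 := true) (a := 1) (b := 0) (c := 1) (cn := .npn) (n1 := ndN3q1) (n2 := ndN7q1) (pc := pcN0) (cut := Cut.none) (xt := Ext.none) (P1 := 536870912) (W1 := 536870912) (P2 := 536870912) (W2 := 536870912) (P3 := 1046898278) (W3 := 26843546) (N0 := 3)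
    rfl k0_pp_101

noncomputable def f_pp_102 : ℕ → ℕ → ℕ → ℕ → Bool := onCell 536870912 536870912 1073741824 536870912 1046898278 26843546
    (rowNX 3 0 false true true .npp 1 0 2 (qsf 536870912 536870912 1073741824 536870912 0) ndN3q1 ndN7q2 pcN0 Cut.none Ext.none)

def k0_pp_102 : ∃ t, chk3 f_pp_102 t 1 1 1 = true :=
  ⟨(l 3), by decide +kernel⟩

theorem c_pp_102 : CertNX 536870912 536870912 1073741824 536870912 1046898278 26843546 3 false true true .npp 1 0 2
    ndN3q1 ndN7q2 pcN0 Cut.none Ext.none :=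
  certNX0 (fam := false) (s1 := true) (s2 := true) (a := 1) (b := 0) (c := 2) (cn := .npp) (n1 := ndN3q1) (n2 := ndN7q2) (pc := pcN0) (cut := Cut.none) (xt := Ext.none) (P1 := 536870912) (W1 := 536870912) (P2 := 1073741824) (W2 := 536870912) (P3 := 1046898278) (W3 := 26843546) (N0 := 3)
    rfl k0_pp_102

noncomputable def f_pp_112 : ℕ → ℕ → ℕ → ℕ → Bool := onCell 536870912 536870912 1073741824 536870912 1046898278 26843546
    (rowNX 3 0 false true true .dn 1 1 2 (qsf 536870912 536870912 1073741824 536870912 1) ndN3q1 ndN7q2 pcN1 Cut.none Ext.none)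

def k0_pp_112 : ∃ t, chk3 f_pp_112 t 1 1 1 = true :=
  ⟨(l 3), by decide +kernel⟩

theorem c_pp_112 : CertNX 536870912 536870912 1073741824 536870912 1046898278 26843546 3 false true true .dn 1 1 2
    ndN3q1 ndN7q2 pcN1 Cut.none Ext.none :=
  certNX0 (fam := false) (s1 := true) (s2 := true) (a := 1) (b := 1) (c := 2) (cn := .dn) (n1 := ndN3q1) (n2 := ndN7q2) (pc := pcN1) (cut := Cut.none) (xt := Ext.none) (P1 := 536870912) (W1 := 536870912) (P2 := 1073741824) (W2 := 536870912) (P3 := 1046898278) (W3 := 26843546) (N0 := 3)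
    rfl k0_pp_112

noncomputable def f_pp_113 : ℕ → ℕ → ℕ → ℕ → Bool := onCell 536870912 536870912 0 1230186008 1046898278 26843546
    (rowNX 3 2 false true true .nn 1 1 3 (qsf 536870912 536870912 0 1230186008 1) ndN3q1 ndN7q3 pcN1 Cut.none Ext.none)

def k0_pp_113 : ∃ t, chk3 f_pp_113 t 1 2 1 = true :=
  ⟨(a (l 2) (a (l 2) (b (a (l 2) (a (l 2) (b (a (l 2) (a (l 2) (b (a (l 2) (l 16646136)) (l 16358088)))) (b (l 15884200) (l 300742484519))))) (a (b (b (l 2) (l 11992120)) (b (a (l 2) (a (l 11967736) (l 11988560))) (a (b (l 12152664) (l 12243016)) (b (l 12022184) (l 12479760))))) (b (a (b (l 11959072) (a (l 11896840) (l 12101720))) (b (a (l 12430304) (l 12999368)) (b (l 12684000) (l 12726632)))) (a (b (a (l 12146376) (l 12389776)) (l 12818824)) (l 12975240))))))), by decide +kernel⟩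

def k1_pp_113 : ∃ t, chk3 f_pp_113 t 1 3 1 = true :=
  ⟨(a (b (b (l 2) (b (l 2) (l 3))) (l 3)) (a (b (b (a (l 2) (b (a (l 2) (b (l 12422176) (l 12514840))) (a (b (l 12545200) (a (l 12577568) (c (l 12705080) (l 12632392)))) (a (b (l 12560304) (l 12902144)) (b (l 12592976) (l 13143744)))))) (a (b (a (l 12613544) (b (l 12626488) (a (l 230476664071) (c (l 12866328) (l 12828800))))) (a (l 3) (b (a (l 3) (l 13246096)) (l 3)))) (b (a (b (a (c (l 12779488) (l 12725096)) (l 12926912)) (a (l 12964712) (l 13545928))) (b (a (l 13304968) (l 13707416)) (l 13980000))) (a (b (l 13845384) (l 3)) (b (l 14429904) (l 14881520)))))) (l 3)) (b (a (b (b (a (b (a (l 12334336) (l 12436944)) (l 12730936)) (l 12976336)) (a (c (l 13401424) (l 13262544)) (l 13697424))) (b (a (l 14166912) (b (l 14239728) (l 14778200))) (a (b (l 14847040) (l 15439776)) (b (l 15268336) (l 15646928))))) (b (b (l 13391256) (a (l 14033688) (l 14372736))) (a (b (a (l 14822344) (b (l 14800712) (l 15093832))) (a (l 15481560)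 (l 15421960))) (b (b (l 14874320) (a (c (l 15170024) (l 15071160)) (c (l 15176360) (a (l 15092688) (l 15102784))))) (a (c (l 15430176) (l 15376088)) (c (l 15368048) (a (l 15340736) (l 15299240)))))))) (b (a (b (a (l 15963056) (l 16024192)) (l 3)) (a (b (a (l 15849000) (l 15610272)) (l 3)) (a (c (b (l 15521408) (l 15525000)) (l 15484144)) (c (l 15433648) (b (l 15371576) (l 15330576)))))) (l 3))))), by decide +kernel⟩

theorem s2_pp_113 : ∃ t, chk3 f_pp_113 t 1 1 1 = true := ex3_b k0_pp_113 k1_pp_113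

theorem c_pp_113 : CertNX 536870912 536870912 0 1230186008 1046898278 26843546 3 false true true .nn 1 1 3
    ndN3q1 ndN7q3 pcN1 Cut.none Ext.none :=
  certNX2 (fam := false) (s1 := true) (s2 := true) (a := 1) (b := 1) (c := 3) (cn := .nn) (n1 := ndN3q1) (n2 := ndN7q3) (pc := pcN1) (cut := Cut.none) (xt := Ext.none) (P1 := 536870912) (W1 := 536870912) (P2 := 0) (W2 := 1230186008) (P3 := 1046898278) (W3 := 26843546) (N0 := 3)
    rfl (fun _ => rfl) s2_pp_113

noncomputable def f_pp_123 : ℕ → ℕ → ℕ → ℕ → Bool := onCell 1073741824 536870912 0 1230186008 1046898278 26843546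
    (rowNX 3 2 false true true .npn 1 2 3 (qsf 536870912 536870912 0 1230186008 2) ndN3q1 ndN7q3 pcN2 Cut.none Ext.none)

def k0_pp_123 : ∃ t, chk3 f_pp_123 t 1 2 1 = true :=
  ⟨(a (a (b (a (b (a (c (l 16714336) (c (l 14972560) (l 13668720))) (c (c (l 16377264) (l 16316216)) (l 16140688))) (a (c (l 15528872) (b (l 14315768) (l 14377072))) (c (l 15794640) (l 15473776)))) (b (a (c (l 16042400) (l 15979568)) (l 15672232)) (a (l 15843576) (l 15505008)))) (a (b (b (a (l 14022080) (l 15014736)) (a (l 13746592) (l 14798128))) (b (l 14326272) (a (l 13924928) (l 14680816)))) (b (a (b (l 15407568) (l 15208848)) (l 15041280)) (a (l 14930952) (l 14770648))))) (b (a (b (b (l 15526096) (l 15439880)) (a (l 15259352) (l 15504176))) (b (a (l 15566424) (l 15765384)) (l 15894112))) (a (b (a (a (l 14822432) (l 14958200)) (l 15473672)) (a (a (l 14564352) (l 14764232)) (l 15463952))) (b (l 16325880) (a (l 16328016) (l 16757208)))))) (b (a (a (b (l 16262328) (l 16340456)) (b (l 4) (l 16647080)))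 (b (l 4) (l 16657680))) (a (b (l 16690960) (l 16767608)) (b (l 16758880) (l 16777216))))), by decide +kernel⟩

def k1_pp_123 : ∃ t, chk3 f_pp_123 t 4 3 1 = true :=
  ⟨(b (b (a (b (a (l 14420264) (l 14831840)) (l 14993680)) (l 14780440)) (a (b (l 15306528) (a (b (l 15671256) (c (l 15725800) (l 15684200))) (c (a (l 15446376) (l 15283984)) (l 15312800)))) (b (l 14780304) (b (b (l 14775088) (a (l 14964840) (b (l 14609424) (l 14611208)))) (a (c (l 15186768) (l 15129880)) (c (l 14992536) (l 14972544))))))) (a (a (b (b (c (a (l 15642608) (l 15636752)) (a (l 15616800) (l 15561528))) (a (c (b (l 15500368) (l 15465800)) (a (c (l 15423040) (l 446305228663)) (c (l 15488392) (l 15455752)))) (c (a (c (l 15624096) (l 15573280)) (l 15666216)) (l 15461584)))) (l 3)) (b (b (c (b (l 15513384) (l 15627296)) (l 15525832)) (c (a (l 15784040) (b (l 15772800) (l 16032032))) (b (l 15769968) (a (l 15745072) (l 16002760))))) (b (a (l 743194678487) (c (l 15820784) (l 15940600))) (l 3)))) (a (c (b (b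 (b (l 15615792) (l 15849544)) (b (b (l 16100368) (l 16242112)) (l 16341944))) (a (l 819968592647) (l 808560541959))) (b (b (b (l 15488440) (l 15881304)) (b (l 15899208) (l 16305648))) (a (l 877950640727) (l 864931981335)))) (b (b (a (c (b (c (l 15820264) (l 15642936)) (a (l 16128552) (l 16116544))) (b (l 15613200) (l 16225768))) (c (b (l 15709352) (l 16011792)) (l 15877328))) (b (b (b (c (l 16522712) (l 16486144)) (l 16593992)) (l 16665688)) (a (l 16775400) (l 16723072)))) (b (a (a (l 867616718103) (l 869227717111)) (b (l 16627048) (l 1))) (l 1)))))), by decide +kernel⟩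

def k2_pp_123 : ∃ t, chk3 f_pp_123 t 5 3 1 = true :=
  ⟨(b (a (b (a (l 14575944) (l 15420280)) (b (l 14709832) (b (b (l 14941752) (a (a (l 14426368) (l 14648040)) (l 15407936))) (a (a (l 14833552) (c (l 15032120) (l 14970864))) (l 15645960))))) (a (b (l 16325016) (b (l 16311944) (b (l 16321920) (l 16412024)))) (b (l 16776584) (l 16776656)))) (a (b (b (b (a (c (a (l 15609184) (a (l 15608648) (l 15705096))) (l 15458768)) (a (l 15950056) (l 16206792))) (a (a (c (b (l 15932160) (l 16236984)) (l 16145216)) (b (c (l 15908552) (l 15985104)) (a (l 16123064) (a (l 16109400) (l 16164152))))) (b (l 16203896) (b (l 16323336) (l 16352096))))) (a (a (b (c (l 16373672) (l 16413344)) (l 16756392)) (a (l 16582112) (a (l 16533856) (l 16518016)))) (l 16590144))) (a (a (b (b (l 16539304) (l 1)) (l 1)) (l 1)) (l 1))) (b (a (b (a (c (l 16502560) (l 16516808)) (l 16681920)) (l 1)) (l 961032654967)) (l 1)))), by decide +kernel⟩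

def k3_pp_123 : ∃ t, chk3 f_pp_123 t 3 3 1 = true :=
  ⟨(b (b (l 16777216) (a (l 16777216) (l 1))) (l 1)), by decide +kernel⟩

theorem s4_pp_123 : ∃ t, chk3 f_pp_123 t 2 3 1 = true := ex3_a k1_pp_123 k2_pp_123

theorem s5_pp_123 : ∃ t, chk3 f_pp_123 t 1 3 1 = true := ex3_a s4_pp_123 k3_pp_123

theorem s6_pp_123 : ∃ t, chk3 f_pp_123 t 1 1 1 = true := ex3_b k0_pp_123 s5_pp_123

theorem c_pp_123 : CertNX 536870912 536870912 0 1230186008 1046898278 26843546 3 false true true .npn 1 2 3
    ndN3q1 ndN7q3 pcN2 Cut.none Ext.none :=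
  certNX2 (fam := false) (s1 := true) (s2 := true) (a := 1) (b := 2) (c := 3) (cn := .npn) (n1 := ndN3q1) (n2 := ndN7q3) (pc := pcN2) (cut := Cut.none) (xt := Ext.none) (P1 := 536870912) (W1 := 536870912) (P2 := 0) (W2 := 1230186008) (P3 := 1046898278) (W3 := 26843546) (N0 := 3)
    rfl (fun _ => rfl) s6_pp_123

noncomputable def f_pp_133 : ℕ → ℕ → ℕ → ℕ → Bool := onCell 1610612736 536870912 0 1230186008 1046898278 26843546
    (rowNX 3 2 false true true .dn 1 3 3 (qsf 536870912 536870912 0 1230186008 3) ndN3q1 ndN7q3 pcN3 Cut.none Ext.none)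

def k0_pp_133 : ∃ t, chk3 f_pp_133 t 1 1 1 = true :=
  ⟨(b (b (b (l 4) (l 1)) (l 1)) (l 1)), by decide +kernel⟩

theorem c_pp_133 : CertNX 536870912 536870912 0 1230186008 1046898278 26843546 3 false true true .dn 1 3 3
    ndN3q1 ndN7q3 pcN3 Cut.none Ext.none :=
  certNX2 (fam := false) (s1 := true) (s2 := true) (a := 1) (b := 3) (c := 3) (cn := .dn) (n1 := ndN3q1) (n2 := ndN7q3) (pc := pcN3) (cut := Cut.none) (xt := Ext.none) (P1 := 536870912) (W1 := 536870912) (P2 := 0) (W2 := 1230186008) (P3 := 1046898278) (W3 := 26843546) (N0 := 3)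
    rfl (fun _ => rfl) k0_pp_133

noncomputable def f_pp_202 : ℕ → ℕ → ℕ → ℕ → Bool := onCell 1073741824 536870912 1073741824 536870912 1046898278 26843546
    (rowNX 3 0 false true true .pp 2 0 2 (qsf 1073741824 536870912 1073741824 536870912 0) ndN3q2 ndN7q2 pcN0 Cut.none Ext.none)

def k0_pp_202 : ∃ t, chk3 f_pp_202 t 1 1 1 = true :=
  ⟨(l 5), by decide +kernel⟩

theorem c_pp_202 : CertNX 1073741824 536870912 1073741824 536870912 1046898278 26843546 3 false true true .pp 2 0 2
    ndN3q2 ndN7q2 pcN0 Cut.none Ext.none :=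
  certNX0 (fam := false) (s1 := true) (s2 := true) (a := 2) (b := 0) (c := 2) (cn := .pp) (n1 := ndN3q2) (n2 := ndN7q2) (pc := pcN0) (cut := Cut.none) (xt := Ext.none) (P1 := 1073741824) (W1 := 536870912) (P2 := 1073741824) (W2 := 536870912) (P3 := 1046898278) (W3 := 26843546) (N0 := 3)
    rfl k0_pp_202

noncomputable def f_pp_203 : ℕ → ℕ → ℕ → ℕ → Bool := onCell 0 536870912 0 1230186008 1046898278 26843546
    (rowNX 3 2 false true true .up 2 0 3 (qsf 1073741824 536870912 0 1230186008 0) ndN3q2 ndN7q3 pcN0 Cut.none Ext.none)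

def k0_pp_203 : ∃ t, chk3 f_pp_203 t 1 1 1 = true :=
  ⟨(b (l 3) (l 3)), by decide +kernel⟩

theorem c_pp_203 : CertNX 1073741824 536870912 0 1230186008 1046898278 26843546 3 false true true .up 2 0 3
    ndN3q2 ndN7q3 pcN0 Cut.none Ext.none :=
  certNX2 (fam := false) (s1 := true) (s2 := true) (a := 2) (b := 0) (c := 3) (cn := .up) (n1 := ndN3q2) (n2 := ndN7q3) (pc := pcN0) (cut := Cut.none) (xt := Ext.none) (P1 := 1073741824) (W1 := 536870912) (P2 := 0) (W2 := 1230186008) (P3 := 1046898278) (W3 := 26843546) (N0 := 3)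
    rfl (fun _ => rfl) k0_pp_203

noncomputable def cut_pp_213 : Cut := Cut.of [[⟨0, 1, 0, 67108864⟩, ⟨1, 1, 0, 67108864⟩, ⟨2, 2, 0, 67108864⟩, ⟨3, 0, 0, 1233125376⟩]]

noncomputable def f_pp_213 : ℕ → ℕ → ℕ → ℕ → Bool := onCell 1073741824 536870912 0 1230186008 1046898278 26843546
    (rowNX 3 0 false true true .pnn 2 1 3 (qsf 1073741824 536870912 0 1230186008 1) ndN3q2 ndN7q3 pcN1 cut_pp_213 Ext.none)

def k0_pp_213 : ∃ t, chk3 f_pp_213 t 1 1 1 = true :=
  ⟨(b (a (a (a (b (a (l 6) (l 3)) (l 3)) (l 3)) (l 3)) (l 3)) (l 3)), by decide +kernel⟩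

theorem c_pp_213 : CertNX 1073741824 536870912 0 1230186008 1046898278 26843546 3 false true true .pnn 2 1 3
    ndN3q2 ndN7q3 pcN1 cut_pp_213 Ext.none :=
  certNX0 (fam := false) (s1 := true) (s2 := true) (a := 2) (b := 1) (c := 3) (cn := .pnn) (n1 := ndN3q2) (n2 := ndN7q3) (pc := pcN1) (cut := cut_pp_213) (xt := Ext.none) (P1 := 1073741824) (W1 := 536870912) (P2 := 0) (W2 := 1230186008) (P3 := 1046898278) (W3 := 26843546) (N0 := 3)
    rfl k0_pp_213

noncomputable def f_pp_303 : ℕ → ℕ → ℕ → ℕ → Bool := onCell 0 536870912 0 1230186008 1046898278 26843546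
    (rowNX 3 2 false true true .npn 3 0 3 (qsf 1610612736 536870912 0 1230186008 0) ndN3q3 ndN7q3 pcN0 Cut.none Ext.none)

def k0_pp_303 : ∃ t, chk3 f_pp_303 t 1 1 1 = true :=
  ⟨(b (l 3) (l 3)), by decide +kernel⟩

theorem c_pp_303 : CertNX 1610612736 536870912 0 1230186008 1046898278 26843546 3 false true true .npn 3 0 3
    ndN3q3 ndN7q3 pcN0 Cut.none Ext.none :=
  certNX2 (fam := false) (s1 := true) (s2 := true) (a := 3) (b := 0) (c := 3) (cn := .npn) (n1 := ndN3q3) (n2 := ndN7q3) (pc := pcN0) (cut := Cut.none) (xt := Ext.none) (P1 := 1610612736) (W1 := 536870912) (P2 := 0) (W2 := 1230186008) (P3 := 1046898278) (W3 := 26843546) (N0 := 3)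
    rfl (fun _ => rfl) k0_pp_303

noncomputable def f_pp_313 : ℕ → ℕ → ℕ → ℕ → Bool := onCell 1610612736 536870912 0 1230186008 1046898278 26843546
    (rowNX 3 0 false true true .dn 3 1 3 (qsf 1610612736 536870912 0 1230186008 1) ndN3q3 ndN7q3 pcN1 Cut.none Ext.none)

def k0_pp_313 : ∃ t, chk3 f_pp_313 t 1 1 1 = true :=
  ⟨(b (l 3) (l 1)), by decide +kernel⟩

theorem c_pp_313 : CertNX 1610612736 536870912 0 1230186008 1046898278 26843546 3 false true true .dn 3 1 3
    ndN3q3 ndN7q3 pcN1 Cut.none Ext.none :=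
  certNX0 (fam := false) (s1 := true) (s2 := true) (a := 3) (b := 1) (c := 3) (cn := .dn) (n1 := ndN3q3) (n2 := ndN7q3) (pc := pcN1) (cut := Cut.none) (xt := Ext.none) (P1 := 1610612736) (W1 := 536870912) (P2 := 0) (W2 := 1230186008) (P3 := 1046898278) (W3 := 26843546) (N0 := 3)
    rfl k0_pp_313

noncomputable def f_pm_001 : ℕ → ℕ → ℕ → ℕ → Bool := onCell 0 536870912 536870912 536870912 1046898278 26843546
    (rowNX 3 0 false true false .up 0 0 1 (qsf 0 536870912 536870912 536870912 0) ndN3q0 ndN7q1 pcN0 Cut.none Ext.none)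

def k0_pm_001 : ∃ t, chk3 f_pm_001 t 1 1 1 = true :=
  ⟨(l 4), by decide +kernel⟩

theorem c_pm_001 : CertNX 0 536870912 536870912 536870912 1046898278 26843546 3 false true false .up 0 0 1
    ndN3q0 ndN7q1 pcN0 Cut.none Ext.none :=
  certNX0 (fam := false) (s1 := true) (s2 := false) (a := 0) (b := 0) (c := 1) (cn := .up) (n1 := ndN3q0) (n2 := ndN7q1) (pc := pcN0) (cut := Cut.none) (xt := Ext.none) (P1 := 0) (W1 := 536870912) (P2 := 536870912) (W2 := 536870912) (P3 := 1046898278) (W3 := 26843546) (N0 := 3)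
    rfl k0_pm_001

noncomputable def f_pm_011 : ℕ → ℕ → ℕ → ℕ → Bool := onCell 0 536870912 536870912 536870912 1046898278 26843546
    (rowNX 3 0 false true false .pnn 0 1 1 (qsf 0 536870912 536870912 536870912 1) ndN3q0 ndN7q1 pcN1 Cut.none Ext.none)

def k0_pm_011 : ∃ t, chk3 f_pm_011 t 1 1 1 = true :=
  ⟨(l 4), by decide +kernel⟩

theorem c_pm_011 : CertNX 0 536870912 536870912 536870912 1046898278 26843546 3 false true false .pnn 0 1 1
    ndN3q0 ndN7q1 pcN1 Cut.none Ext.none :=
  certNX0 (fam := false) (s1 := true) (s2 := false) (a := 0) (b := 1) (c := 1) (cn := .pnn) (n1 := ndN3q0) (n2 := ndN7q1) (pc := pcN1) (cut := Cut.none) (xt := Ext.none) (P1 := 0) (W1 := 536870912) (P2 := 536870912) (W2 := 536870912) (P3 := 1046898278) (W3 := 26843546) (N0 := 3)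
    rfl k0_pm_011

noncomputable def f_pm_012 : ℕ → ℕ → ℕ → ℕ → Bool := onCell 0 536870912 1073741824 536870912 1046898278 26843546
    (rowNX 3 0 false true false .pnp 0 1 2 (qsf 0 536870912 1073741824 536870912 1) ndN3q0 ndN7q2 pcN1 Cut.none Ext.none)

def k0_pm_012 : ∃ t, chk3 f_pm_012 t 1 1 1 = true :=
  ⟨(l 4), by decide +kernel⟩

theorem c_pm_012 : CertNX 0 536870912 1073741824 536870912 1046898278 26843546 3 false true false .pnp 0 1 2
    ndN3q0 ndN7q2 pcN1 Cut.none Ext.none :=
  certNX0 (fam := false) (s1 := true) (s2 := false) (a := 0) (b := 1) (c := 2) (cn := .pnp) (n1 := ndN3q0) (n2 := ndN7q2) (pc := pcN1) (cut := Cut.none) (xt := Ext.none) (P1 := 0) (W1 := 536870912) (P2 := 1073741824) (W2 := 536870912) (P3 := 1046898278) (W3 := 26843546) (N0 := 3)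
    rfl k0_pm_012

noncomputable def f_pm_022 : ℕ → ℕ → ℕ → ℕ → Bool := onCell 0 536870912 1073741824 536870912 1046898278 26843546
    (rowNX 3 0 false true false .pp 0 2 2 (qsf 0 536870912 1073741824 536870912 2) ndN3q0 ndN7q2 pcN2 Cut.none Ext.none)

def k0_pm_022 : ∃ t, chk3 f_pm_022 t 1 1 1 = true :=
  ⟨(l 4), by decide +kernel⟩

theorem c_pm_022 : CertNX 0 536870912 1073741824 536870912 1046898278 26843546 3 false true false .pp 0 2 2
    ndN3q0 ndN7q2 pcN2 Cut.none Ext.none :=
  certNX0 (fam := false) (s1 := true) (s2 := false) (a := 0) (b := 2) (c := 2) (cn := .pp) (n1 := ndN3q0) (n2 := ndN7q2) (pc := pcN2) (cut := Cut.none) (xt := Ext.none) (P1 := 0) (W1 := 536870912) (P2 := 1073741824) (W2 := 536870912) (P3 := 1046898278) (W3 := 26843546) (N0 := 3)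
    rfl k0_pm_022

noncomputable def f_pm_023 : ℕ → ℕ → ℕ → ℕ → Bool := onCell 0 536870912 0 1230186008 1046898278 26843546
    (rowNX 3 0 false true false .up 0 2 3 (qsf 0 536870912 0 1230186008 2) ndN3q0 ndN7q3 pcN2 Cut.none Ext.none)

def k0_pm_023 : ∃ t, chk3 f_pm_023 t 1 1 1 = true :=
  ⟨(b (l 4) (l 4)), by decide +kernel⟩

theorem c_pm_023 : CertNX 0 536870912 0 1230186008 1046898278 26843546 3 false true false .up 0 2 3
    ndN3q0 ndN7q3 pcN2 Cut.none Ext.none :=
  certNX0 (fam := false) (s1 := true) (s2 := false) (a := 0) (b := 2) (c := 3) (cn := .up) (n1 := ndN3q0) (n2 := ndN7q3) (pc := pcN2) (cut := Cut.none) (xt := Ext.none) (P1 := 0) (W1 := 536870912) (P2 := 0) (W2 := 1230186008) (P3 := 1046898278) (W3 := 26843546) (N0 := 3)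
    rfl k0_pm_023

noncomputable def f_pm_033 : ℕ → ℕ → ℕ → ℕ → Bool := onCell 0 536870912 0 1230186008 1046898278 26843546
    (rowNX 3 0 false true false .pnn 0 3 3 (qsf 0 536870912 0 1230186008 3) ndN3q0 ndN7q3 pcN3 Cut.none Ext.none)

def k0_pm_033 : ∃ t, chk3 f_pm_033 t 1 1 1 = true :=
  ⟨(b (l 4) (l 4)), by decide +kernel⟩

theorem c_pm_033 : CertNX 0 536870912 0 1230186008 1046898278 26843546 3 false true false .pnn 0 3 3
    ndN3q0 ndN7q3 pcN3 Cut.none Ext.none :=
  certNX0 (fam := false) (s1 := true) (s2 := false) (a := 0) (b := 3) (c := 3) (cn := .pnn) (n1 := ndN3q0) (n2 := ndN7q3) (pc := pcN3) (cut := Cut.none) (xt := Ext.none) (P1 := 0) (W1 := 536870912) (P2 := 0) (W2 := 1230186008) (P3 := 1046898278) (W3 := 26843546) (N0 := 3)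
    rfl k0_pm_033

noncomputable def f_pm_101 : ℕ → ℕ → ℕ → ℕ → Bool := onCell 536870912 536870912 536870912 536870912 1046898278 26843546
    (rowNX 3 0 false true false .npn 1 0 1 (qsf 536870912 536870912 536870912 536870912 0) ndN3q1 ndN7q1 pcN0 Cut.none Ext.none)

def k0_pm_101 : ∃ t, chk3 f_pm_101 t 1 1 1 = true :=
  ⟨(l 4), by decide +kernel⟩

theorem c_pm_101 : CertNX 536870912 536870912 536870912 536870912 1046898278 26843546 3 false true false .npn 1 0 1
    ndN3q1 ndN7q1 pcN0 Cut.none Ext.none :=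
  certNX0 (fam := false) (s1 := true) (s2 := false) (a := 1) (b := 0) (c := 1) (cn := .npn) (n1 := ndN3q1) (n2 := ndN7q1) (pc := pcN0) (cut := Cut.none) (xt := Ext.none) (P1 := 536870912) (W1 := 536870912) (P2 := 536870912) (W2 := 536870912) (P3 := 1046898278) (W3 := 26843546) (N0 := 3)
    rfl k0_pm_101

noncomputable def f_pm_102 : ℕ → ℕ → ℕ → ℕ → Bool := onCell 536870912 536870912 1073741824 536870912 1046898278 26843546
    (rowNX 3 0 false true false .npp 1 0 2 (qsf 536870912 536870912 1073741824 536870912 0) ndN3q1 ndN7q2 pcN0 Cut.none Ext.none)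

def k0_pm_102 : ∃ t, chk3 f_pm_102 t 1 1 1 = true :=
  ⟨(l 4), by decide +kernel⟩

theorem c_pm_102 : CertNX 536870912 536870912 1073741824 536870912 1046898278 26843546 3 false true false .npp 1 0 2
    ndN3q1 ndN7q2 pcN0 Cut.none Ext.none :=
  certNX0 (fam := false) (s1 := true) (s2 := false) (a := 1) (b := 0) (c := 2) (cn := .npp) (n1 := ndN3q1) (n2 := ndN7q2) (pc := pcN0) (cut := Cut.none) (xt := Ext.none) (P1 := 536870912) (W1 := 536870912) (P2 := 1073741824) (W2 := 536870912) (P3 := 1046898278) (W3 := 26843546) (N0 := 3)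
    rfl k0_pm_102

noncomputable def f_pm_112 : ℕ → ℕ → ℕ → ℕ → Bool := onCell 536870912 536870912 1073741824 536870912 1046898278 26843546
    (rowNX 3 0 false true false .dn 1 1 2 (qsf 536870912 536870912 1073741824 536870912 1) ndN3q1 ndN7q2 pcN1 Cut.none Ext.none)

def k0_pm_112 : ∃ t, chk3 f_pm_112 t 1 1 1 = true :=
  ⟨(l 4), by decide +kernel⟩

theorem c_pm_112 : CertNX 536870912 536870912 1073741824 536870912 1046898278 26843546 3 false true false .dn 1 1 2
    ndN3q1 ndN7q2 pcN1 Cut.none Ext.none :=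
  certNX0 (fam := false) (s1 := true) (s2 := false) (a := 1) (b := 1) (c := 2) (cn := .dn) (n1 := ndN3q1) (n2 := ndN7q2) (pc := pcN1) (cut := Cut.none) (xt := Ext.none) (P1 := 536870912) (W1 := 536870912) (P2 := 1073741824) (W2 := 536870912) (P3 := 1046898278) (W3 := 26843546) (N0 := 3)
    rfl k0_pm_112

noncomputable def f_pm_113 : ℕ → ℕ → ℕ → ℕ → Bool := onCell 536870912 536870912 0 1230186008 1046898278 26843546
    (rowNX 3 0 false true false .nn 1 1 3 (qsf 536870912 536870912 0 1230186008 1) ndN3q1 ndN7q3 pcN1 Cut.none Ext.none)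

def k0_pm_113 : ∃ t, chk3 f_pm_113 t 1 1 1 = true :=
  ⟨(b (a (l 2) (b (a (l 2) (a (l 2) (a (l 2) (b (b (c (l 16727600) (l 16613032)) (l 4)) (l 4))))) (l 4))) (l 4)), by decide +kernel⟩

theorem c_pm_113 : CertNX 536870912 536870912 0 1230186008 1046898278 26843546 3 false true false .nn 1 1 3
    ndN3q1 ndN7q3 pcN1 Cut.none Ext.none :=
  certNX0 (fam := false) (s1 := true) (s2 := false) (a := 1) (b := 1) (c := 3) (cn := .nn) (n1 := ndN3q1) (n2 := ndN7q3) (pc := pcN1) (cut := Cut.none) (xt := Ext.none) (P1 := 536870912) (W1 := 536870912) (P2 := 0) (W2 := 1230186008) (P3 := 1046898278) (W3 := 26843546) (N0 := 3)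
    rfl k0_pm_113

noncomputable def f_pm_123 : ℕ → ℕ → ℕ → ℕ → Bool := onCell 536870912 536870912 0 1230186008 1046898278 26843546
    (rowNX 3 0 false true false .npn 1 2 3 (qsf 536870912 536870912 0 1230186008 2) ndN3q1 ndN7q3 pcN2 Cut.none Ext.none)

def k0_pm_123 : ∃ t, chk3 f_pm_123 t 1 1 1 = true :=
  ⟨(b (a (l 4) (b (a (l 4) (a (l 4) (b (a (l 4) (c (l 16783816) (b (a (l 4) (l 15946640)) (l 4)))) (l 4)))) (l 4))) (l 4)), by decide +kernel⟩

theorem c_pm_123 : CertNX 536870912 536870912 0 1230186008 1046898278 26843546 3 false true false .npn 1 2 3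
    ndN3q1 ndN7q3 pcN2 Cut.none Ext.none :=
  certNX0 (fam := false) (s1 := true) (s2 := false) (a := 1) (b := 2) (c := 3) (cn := .npn) (n1 := ndN3q1) (n2 := ndN7q3) (pc := pcN2) (cut := Cut.none) (xt := Ext.none) (P1 := 536870912) (W1 := 536870912) (P2 := 0) (W2 := 1230186008) (P3 := 1046898278) (W3 := 26843546) (N0 := 3)
    rfl k0_pm_123

noncomputable def f_pm_133 : ℕ → ℕ → ℕ → ℕ → Bool := onCell 536870912 536870912 0 1230186008 1046898278 26843546
    (rowNX 3 0 false true false .dn 1 3 3 (qsf 536870912 536870912 0 1230186008 3) ndN3q1 ndN7q3 pcN3 Cut.none Ext.none)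

def k0_pm_133 : ∃ t, chk3 f_pm_133 t 1 1 1 = true :=
  ⟨(b (a (l 4) (l 1)) (l 1)), by decide +kernel⟩

theorem c_pm_133 : CertNX 536870912 536870912 0 1230186008 1046898278 26843546 3 false true false .dn 1 3 3
    ndN3q1 ndN7q3 pcN3 Cut.none Ext.none :=
  certNX0 (fam := false) (s1 := true) (s2 := false) (a := 1) (b := 3) (c := 3) (cn := .dn) (n1 := ndN3q1) (n2 := ndN7q3) (pc := pcN3) (cut := Cut.none) (xt := Ext.none) (P1 := 536870912) (W1 := 536870912) (P2 := 0) (W2 := 1230186008) (P3 := 1046898278) (W3 := 26843546) (N0 := 3)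
    rfl k0_pm_133

noncomputable def f_pm_202 : ℕ → ℕ → ℕ → ℕ → Bool := onCell 0 536870912 1073741824 536870912 1046898278 26843546
    (rowNX 3 2 false true false .pp 2 0 2 (qsf 1073741824 536870912 1073741824 536870912 0) ndN3q2 ndN7q2 pcN0 Cut.none Ext.none)

def k0_pm_202 : ∃ t, chk3 f_pm_202 t 1 1 1 = true :=
  ⟨(b (l 4) (b (a (b (l 4) (b (l 4) (a (a (a (a (a (l 16734672) (l 103314549895)) (l 16749240)) (l 16761088)) (a (l 16772088) (l 16776776))) (l 4)))) (l 4)) (a (a (a (a (a (c (l 16394744) (a (l 16377440) (l 16393368))) (c (l 16424960) (l 16421800))) (c (l 16480920) (l 16474944))) (a (l 16534664) (l 16580200))) (a (b (a (l 16718192) (l 16749400)) (l 16602688)) (b (a (l 16618328) (l 16453776)) (l 16754824)))) (b (a (b (l 4) (a (l 16388720) (a (l 16233208) (l 15794104)))) (l 4)) (a (a (b (l 16453768) (l 16614680)) (b (a (l 16382016) (l 16233208)) (l 16388720))) (a (b (a (l 15836048) (l 15590864)) (a (l 16233208) (l 15877992))) (b (l 469791744727) (a (l 15590864) (l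 15322808))))))))), by decide +kernel⟩

theorem c_pm_202 : CertNX 1073741824 536870912 1073741824 536870912 1046898278 26843546 3 false true false .pp 2 0 2
    ndN3q2 ndN7q2 pcN0 Cut.none Ext.none :=
  certNX2 (fam := false) (s1 := true) (s2 := false) (a := 2) (b := 0) (c := 2) (cn := .pp) (n1 := ndN3q2) (n2 := ndN7q2) (pc := pcN0) (cut := Cut.none) (xt := Ext.none) (P1 := 1073741824) (W1 := 536870912) (P2 := 1073741824) (W2 := 536870912) (P3 := 1046898278) (W3 := 26843546) (N0 := 3)
    rfl (fun _ => rfl) k0_pm_202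

noncomputable def f_pm_203 : ℕ → ℕ → ℕ → ℕ → Bool := onCell 0 536870912 0 1230186008 1046898278 26843546
    (rowNX 3 2 false true false .up 2 0 3 (qsf 1073741824 536870912 0 1230186008 0) ndN3q2 ndN7q3 pcN0 Cut.none Ext.none)

def k0_pm_203 : ∃ t, chk3 f_pm_203 t 1 1 1 = true :=
  ⟨(b (a (l 2) (b (l 3) (a (l 2) (b (l 3) (c (a (l 333027737607) (b (l 16777216) (l 16777216))) (a (l 327122157575) (l 306184192007))))))) (b (a (a (l 2) (a (l 2) (b (l 2) (a (l 2) (l 16777120))))) (a (b (c (l 1592996659207) (l 1536625213447)) (b (l 16777216) (l 16777216))) (b (b (c (l 16777216) (l 16777216)) (l 16777216)) (l 16777216)))) (b (a (a (l 2) (a (b (l 1014248645191) (l 16366304)) (a (l 16694256) (l 16777096)))) (a (l 16777216) (b (a (l 16777216) (l 16742592)) (a (l 16756768) (b (l 16624744) (l 16467728)))))) (a (a (a (b (l 2) (a (c (l 15932016) (l 15913472)) (c (l 16055072) (l 16040512)))) (a (b (l 15886720) (l 16148872)) (l 16165296))) (a (l 16401920) (b (l 16724072) (l 16734536))))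 (a (b (l 16765584) (a (l 16749648) (b (l 16640200) (l 16465600)))) (b (a (b (l 16648800) (l 16477016)) (b (l 16407192) (l 16258528))) (a (b (l 16407152) (a (l 16376608) (l 16225016))) (b (a (l 16387528) (l 16026488)) (a (l 15983600) (l 15609160)))))))))), by decide +kernel⟩

theorem c_pm_203 : CertNX 1073741824 536870912 0 1230186008 1046898278 26843546 3 false true false .up 2 0 3
    ndN3q2 ndN7q3 pcN0 Cut.none Ext.none :=
  certNX2 (fam := false) (s1 := true) (s2 := false) (a := 2) (b := 0) (c := 3) (cn := .up) (n1 := ndN3q2) (n2 := ndN7q3) (pc := pcN0) (cut := Cut.none) (xt := Ext.none) (P1 := 1073741824) (W1 := 536870912) (P2 := 0) (W2 := 1230186008) (P3 := 1046898278) (W3 := 26843546) (N0 := 3)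
    rfl (fun _ => rfl) k0_pm_203

noncomputable def cut_pm_213 : Cut := Cut.of [[⟨0, 1, 0, 67108864⟩, ⟨1, 1, 0, 67108864⟩, ⟨2, 2, 0, 67108864⟩, ⟨3, 0, 0, 1233125376⟩]]

noncomputable def f_pm_213 : ℕ → ℕ → ℕ → ℕ → Bool := onCell 1073741824 536870912 0 1230186008 1046898278 26843546
    (rowNX 3 0 false true false .pnn 2 1 3 (qsf 1073741824 536870912 0 1230186008 1) ndN3q2 ndN7q3 pcN1 cut_pm_213 Ext.none)

def k0_pm_213 : ∃ t, chk3 f_pm_213 t 8 8 1 = true :=
  ⟨(a (b (l 6) (b (l 6) (b (l 6) (b (l 6) (a (a (a (c (l 16698152) (c (c (l 16692224) (a (l 16665224) (l 16457984))) (l 15474600))) (l 6)) (l 6)) (l 6)))))) (a (l 6) (a (l 6) (b (l 3) (b (c (l 16392440) (l 16439576)) (l 16419872)))))), by decide +kernel⟩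

def k1_pm_213 : ∃ t, chk3 f_pm_213 t 8 9 1 = true :=
  ⟨(a (b (a (a (c (b (c (l 16707592) (a (l 16693000) (c (l 16715192) (b (l 16714168) (a (l 16703224) (l 16561272)))))) (c (l 16697136) (b (a (l 16688920) (c (l 16709568) (l 16420840))) (a (c (l 16682232) (l 16416776)) (l 16366216))))) (b (c (a (c (b (l 16691728) (a (l 16686152) (l 16475904))) (b (a (l 16464872) (l 16243632)) (l 16014336))) (c (b (l 16497640) (l 16308768)) (l 16076160))) (c (l 15971064) (l 15655016))) (a (c (b (l 16006656) (l 15759624)) (l 14931400)) (l 15586248)))) (c (c (b (a (l 16737560) (c (l 16748432) (b (l 16738280) (l 16676336)))) (a (b (l 16730344) (l 16655768)) (c (l 16658048) (l 16528472)))) (b (a (c (b (l 16731288) (l 16651248)) (b (l 16589248) (l 16462128))) (c (l 16599032) (l 16476904))) (a (c (l 16446840) (l 16256840)) (l 16327872)))) (b (c (l 16251624) (l 15915120)) (l 15828592)))) (c (a (b (c (c (a (l 16725720) (l 16680824)) (a (l 16647536) (l 16624208))) (l 16522224)) (c (a (c (l 16585376)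 (l 16490360)) (l 16519496)) (l 16344640))) (b (a (l 16594808) (l 16600536)) (l 16453888))) (b (l 16334808) (l 16124440)))) (a (b (c (a (b (c (a (l 16681392) (c (l 16698584) (l 16559080))) (a (c (l 16515184) (l 16132800)) (l 16178712))) (l 16306544)) (c (b (a (l 16487960) (l 16432456)) (b (l 16366984) (l 16305152))) (l 16087800))) (c (l 15652920) (l 15195056))) (a (l 15506320) (l 15695912))) (b (a (c (b (l 16302240) (l 16208912)) (l 15831448)) (l 16164704)) (a (l 15865064) (l 15994560))))) (b (a (b (c (l 16594128) (l 16469704)) (l 16397688)) (b (c (l 16458376) (l 16440336)) (l 16385784))) (a (b (l 16253184) (c (l 16204712) (l 16002008))) (b (l 16314296) (l 16205080))))), by decide +kernel⟩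

def k2_pm_213 : ∃ t, chk3 f_pm_213 t 9 4 1 = true :=
  ⟨(b (b (l 3) (a (b (c (l 301351516263) (l 16392808)) (a (l 16482848) (l 16638672))) (a (b (l 3) (l 295446399079)) (l 3)))) (a (b (c (l 16369296) (l 16362096)) (a (l 16418568) (l 16662040))) (b (a (a (l 16756824) (l 16694528)) (b (l 16467616) (l 16470776))) (a (a (l 16766528) (l 16696128)) (b (l 16485104) (l 16512824)))))), by decide +kernel⟩

def k3_pm_213 : ∃ t, chk3 f_pm_213 t 4 5 1 = true :=
  ⟨(b (a (a (b (a (a (a (l 15097136) (l 15230712)) (l 15639128)) (l 15432024)) (a (c (l 15299984) (l 14818664)) (l 15459832))) (b (a (l 15891840) (b (l 16083680) (l 15963256))) (l 15776464))) (a (b (b (l 16391888) (a (l 16180176) (l 16486640))) (a (l 16076872) (l 16413768))) (b (a (b (l 16745560) (a (l 16689208) (l 16678704))) (b (l 16555568) (l 16562672))) (a (l 16648904) (l 16537752))))) (a (a (b (a (c (l 15156072) (l 14812952)) (l 15365120)) (a (l 14885784) (l 15374040))) (b (b (l 15696048) (l 15665680)) (b (l 15650424) (l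 15645000)))) (a (b (b (l 16197928) (l 16175696)) (l 16154304)) (b (l 16567480) (l 16546648))))), by decide +kernel⟩

def k4_pm_213 : ∃ t, chk3 f_pm_213 t 5 2 1 = true :=
  ⟨(b (b (l 3) (a (b (a (a (b (l 16236368) (l 16257992)) (l 271286052167)) (l 308330349703)) (a (a (l 16320232) (l 16196992)) (l 16327560))) (b (l 3) (a (l 16558760) (l 16677400))))) (b (a (a (b (a (l 16415568) (l 16287520)) (b (l 16329960) (l 16320016))) (b (l 16407632) (b (l 16403424) (l 16400040)))) (a (b (l 16628872) (l 16650576)) (b (l 16743808) (l 16777040)))) (a (a (b (l 16306352) (l 16297376)) (l 16398496)) (b (a (l 16650576) (l 16777040)) (l 16652472))))), by decide +kernel⟩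

def k5_pm_213 : ∃ t, chk3 f_pm_213 t 3 2 1 = true :=
  ⟨(a (b (l 3) (a (b (b (c (l 16744544) (l 16743400)) (l 16777216)) (c (b (l 16777216) (l 16777216)) (b (l 16777216) (l 16777216)))) (b (b (l 3) (a (l 16777216) (l 16777216))) (c (b (l 16777216) (l 16777216)) (b (l 16777216) (l 16777216)))))) (b (l 3) (a (b (a (b (l 3) (l 16777216)) (l 3)) (c (b (l 16777216) (l 16777216)) (b (l 16777216) (l 16777216)))) (b (l 3) (a (b (l 16777216) (l 1)) (l 1)))))), by decide +kernel⟩

def k6_pm_213 : ∃ t, chk3 f_pm_213 t 1 3 1 = true :=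
  ⟨(b (a (a (b (a (b (a (a (b (l 15135696) (l 15206648)) (l 15221472)) (l 15647160)) (a (b (l 15354752) (l 15393368)) (b (l 15671152) (l 15692440)))) (a (b (l 16146888) (l 16154232)) (b (l 16540552) (l 16540528)))) (a (b (a (b (l 15447472) (l 15495384)) (l 15707360)) (a (l 15517304) (l 15709632))) (a (l 16155904) (l 16540528)))) (a (b (a (l 16296768) (l 16398440)) (a (l 16296768) (l 16398440))) (b (a (l 16650576) (l 16777040)) (b (l 16715384) (l 16715384))))) (a (b (b (l 16777216) (l 16777216)) (l 16777216)) (b (b (c (l 165926666247) (l 182569664519)) (l 1)) (l 1)))) (a (b (a (a (b (l 15423096) (c (l 15621992) (l 15571712))) (a (b (l 16155904) (l 16155904)) (b (l 16540528) (l 16540528)))) (a (b (l 16348592) (l 16348592)) (b (l 16715384) (l 1)))) (a (a (b (a (l 15517432) (l 15709632)) (c (l 15621992) (l 15571712))) (b (l 16233208) (a (l 16155904) (l 1)))) (b (a (l 16348592) (l 1)) (l 1)))) (l 1))), by decide +kernel⟩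

theorem s7_pm_213 : ∃ t, chk3 f_pm_213 t 8 4 1 = true := ex3_b k0_pm_213 k1_pm_213

theorem s8_pm_213 : ∃ t, chk3 f_pm_213 t 4 4 1 = true := ex3_a s7_pm_213 k2_pm_213

theorem s9_pm_213 : ∃ t, chk3 f_pm_213 t 4 2 1 = true := ex3_b s8_pm_213 k3_pm_213

theorem s10_pm_213 : ∃ t, chk3 f_pm_213 t 2 2 1 = true := ex3_a s9_pm_213 k4_pm_213

theorem s11_pm_213 : ∃ t, chk3 f_pm_213 t 1 2 1 = true := ex3_a s10_pm_213 k5_pm_213

theorem s12_pm_213 : ∃ t, chk3 f_pm_213 t 1 1 1 = true := ex3_b s11_pm_213 k6_pm_213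

theorem c_pm_213 : CertNX 1073741824 536870912 0 1230186008 1046898278 26843546 3 false true false .pnn 2 1 3
    ndN3q2 ndN7q3 pcN1 cut_pm_213 Ext.none :=
  certNX0 (fam := false) (s1 := true) (s2 := false) (a := 2) (b := 1) (c := 3) (cn := .pnn) (n1 := ndN3q2) (n2 := ndN7q3) (pc := pcN1) (cut := cut_pm_213) (xt := Ext.none) (P1 := 1073741824) (W1 := 536870912) (P2 := 0) (W2 := 1230186008) (P3 := 1046898278) (W3 := 26843546) (N0 := 3)
    rfl s12_pm_213

noncomputable def f_pm_303 : ℕ → ℕ → ℕ → ℕ → Bool := onCell 0 536870912 0 1230186008 1046898278 26843546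
    (rowNX 3 2 false true false .npn 3 0 3 (qsf 1610612736 536870912 0 1230186008 0) ndN3q3 ndN7q3 pcN0 Cut.none Ext.none)

def k0_pm_303 : ∃ t, chk3 f_pm_303 t 1 2 1 = true :=
  ⟨(b (l 3) (a (l 3) (b (l 3) (a (a (l 3) (c (l 357186928647) (l 353965703175))) (c (a (l 331953995783) (b (l 324437803015) (l 1))) (a (l 330343383047) (l 309405417479))))))), by decide +kernel⟩

def k1_pm_303 : ∃ t, chk3 f_pm_303 t 1 12 1 = true :=
  ⟨(a (a (a (l 3) (a (l 3) (b (l 3) (c (a (l 353425713543) (l 15579848)) (l 360404942711))))) (a (b (l 3) (a (a (l 15731432) (b (l 3) (l 15923560))) (b (l 16178648) (l 16145872)))) (a (b (l 3) (b (l 16539256) (l 16584288))) (c (l 323901318983) (l 314774513079))))) (a (c (a (l 16777216) (l 16777216)) (a (l 16777216) (l 16777216))) (b (c (l 16777216) (l 16777216)) (l 1)))), by decide +kernel⟩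

def k2_pm_303 : ∃ t, chk3 f_pm_303 t 4 13 1 = true :=
  ⟨(a (a (b (b (l 3) (c (a (c (l 327117354679) (a (l 14049376) (l 14010336))) (c (l 14210976) (l 14037672))) (a (c (a (l 13794792) (l 14083664)) (a (c (l 13972968) (a (l 319062895911) (l 13964952))) (c (a (l 13946752) (l 14076512)) (l 14028416)))) (c (a (c (l 14179464) (l 14013576)) (l 313157914999)) (l 14158328))))) (a (c (a (b (l 14030648) (l 14417312)) (c (b (l 14299808) (l 14481736)) (b (l 14248680) (l 14472320)))) (a (c (b (l 14156968) (l 14379312)) (b (a (l 14122360) (l 14151904)) (a (l 14334200) (l 14363208)))) (b (l 14036088) (c (l 14434336) (l 14420168))))) (c (a (c (b (l 14334544) (l 14523256)) (l 14473168)) (l 14469632)) (b (l 14328864) (l 14537848))))) (c (a (c (b (c (l 14462496) (l 327117994983)) (l 14564184)) (b (c (a (l 14398984) (l 323896805943)) (a (l 324969353031) (l 14419304))) (l 14475904))) (b (c (c (a (l 14600288) (a (l 14642920) (l 14652360))) (a (l 322823259847) (l 14608272))) (l 14541960)) (c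 (l 14744696) (l 14704232)))) (b (b (l 14305208) (c (l 14432200) (l 14391072))) (a (b (l 14466936) (l 14690048)) (l 14638376))))) (b (b (a (a (a (c (l 14613432) (l 14645864)) (b (l 14662240) (c (l 14863312) (l 14796040)))) (b (c (l 15038672) (l 14977544)) (c (l 15194776) (l 15076248)))) (b (a (c (l 15445152) (l 15398344)) (l 15642328)) (a (c (l 15654536) (l 15615080)) (l 15980224)))) (a (a (c (a (l 14848320) (l 15158632)) (b (l 14884968) (l 15005648))) (b (l 15386560) (c (l 15805848) (l 15771696)))) (a (a (b (l 16119264) (c (l 16359176) (l 16344496))) (l 16405904)) (l 16504304)))) (a (a (c (l 15098888) (l 14902040)) (c (l 15659456) (l 15616840))) (a (a (c (l 16074096) (l 16051592)) (l 16198864)) (l 16297408))))), by decide +kernel⟩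

def k3_pm_303 : ∃ t, chk3 f_pm_303 t 5 13 1 = true :=
  ⟨(a (a (b (b (b (l 15955224) (l 16287976)) (l 16640880)) (b (l 16524024) (l 16489632))) (b (b (l 16480064) (l 16776624)) (l 16636264))) (a (b (b (l 16700344) (l 16772248)) (l 16728616)) (l 16777120))), by decide +kernel⟩

def k4_pm_303 : ∃ t, chk3 f_pm_303 t 3 13 1 = true :=
  ⟨(a (b (l 16777216) (l 16777216)) (l 1)), by decide +kernel⟩

def k5_pm_303 : ∃ t, chk3 f_pm_303 t 1 7 1 = true :=
  ⟨(a (b (a (a (a (a (c (b (l 14736784) (l 15129072)) (b (a (l 14660512) (l 14709336)) (a (l 15066696) (l 15107760)))) (c (b (l 14829976) (l 15207416)) (l 15002032))) (b (c (a (l 14907520) (l 15068016)) (l 14928192)) (l 15369192))) (a (b (c (l 15493976) (l 15441304)) (l 15702096)) (b (b (l 16037440) (l 16033368)) (l 16056936)))) (a (a (l 16293808) (l 16534424)) (a (l 16694256) (l 16777096)))) (a (a (c (a (b (a (l 15530232) (l 15591480)) (l 15932016)) (b (l 15711568) (l 16055072))) (a (b (a (a (l 15480872) (l 15512976)) (l 15580856))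 (l 15913472)) (l 15871104))) (a (b (l 15886720) (l 16148872)) (l 16165296))) (a (l 16401920) (l 1)))) (l 1)), by decide +kernel⟩

theorem s6_pm_303 : ∃ t, chk3 f_pm_303 t 2 13 1 = true := ex3_a k2_pm_303 k3_pm_303

theorem s7_pm_303 : ∃ t, chk3 f_pm_303 t 1 13 1 = true := ex3_a s6_pm_303 k4_pm_303

theorem s8_pm_303 : ∃ t, chk3 f_pm_303 t 1 6 1 = true := ex3_b k1_pm_303 s7_pm_303

theorem s9_pm_303 : ∃ t, chk3 f_pm_303 t 1 3 1 = true := ex3_b s8_pm_303 k5_pm_303

theorem s10_pm_303 : ∃ t, chk3 f_pm_303 t 1 1 1 = true := ex3_b k0_pm_303 s9_pm_303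

theorem c_pm_303 : CertNX 1610612736 536870912 0 1230186008 1046898278 26843546 3 false true false .npn 3 0 3
    ndN3q3 ndN7q3 pcN0 Cut.none Ext.none :=
  certNX2 (fam := false) (s1 := true) (s2 := false) (a := 3) (b := 0) (c := 3) (cn := .npn) (n1 := ndN3q3) (n2 := ndN7q3) (pc := pcN0) (cut := Cut.none) (xt := Ext.none) (P1 := 1610612736) (W1 := 536870912) (P2 := 0) (W2 := 1230186008) (P3 := 1046898278) (W3 := 26843546) (N0 := 3)
    rfl (fun _ => rfl) s10_pm_303

noncomputable def f_pm_313 : ℕ → ℕ → ℕ → ℕ → Bool := onCell 1610612736 536870912 0 1230186008 1046898278 26843546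
    (rowNX 3 0 false true false .dn 3 1 3 (qsf 1610612736 536870912 0 1230186008 1) ndN3q3 ndN7q3 pcN1 Cut.none Ext.none)

def k0_pm_313 : ∃ t, chk3 f_pm_313 t 1 1 1 = true :=
  ⟨(b (b (l 3) (l 1)) (l 1)), by decide +kernel⟩

theorem c_pm_313 : CertNX 1610612736 536870912 0 1230186008 1046898278 26843546 3 false true false .dn 3 1 3
    ndN3q3 ndN7q3 pcN1 Cut.none Ext.none :=
  certNX0 (fam := false) (s1 := true) (s2 := false) (a := 3) (b := 1) (c := 3) (cn := .dn) (n1 := ndN3q3) (n2 := ndN7q3) (pc := pcN1) (cut := Cut.none) (xt := Ext.none) (P1 := 1610612736) (W1 := 536870912) (P2 := 0) (W2 := 1230186008) (P3 := 1046898278) (W3 := 26843546) (N0 := 3)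
    rfl k0_pm_313

noncomputable def f_mm_001 : ℕ → ℕ → ℕ → ℕ → Bool := onCell 0 536870912 0 536870912 1046898278 26843546
    (rowNX 3 1 false false false .up 0 0 1 (qsf 0 536870912 536870912 536870912 0) ndN3q0 ndN7q1 pcN0 Cut.none Ext.none)

def k0_mm_001 : ∃ t, chk3 f_mm_001 t 1 1 1 = true :=
  ⟨(l 3), by decide +kernel⟩

theorem c_mm_001 : CertNX 0 536870912 536870912 536870912 1046898278 26843546 3 false false false .up 0 0 1
    ndN3q0 ndN7q1 pcN0 Cut.none Ext.none :=
  certNX1 (fam := false) (s1 := false) (s2 := false) (a := 0) (b := 0) (c := 1) (cn := .up) (n1 := ndN3q0) (n2 := ndN7q1) (pc := pcN0) (cut := Cut.none) (xt := Ext.none) (P1 := 0) (W1 := 536870912) (P2 := 536870912) (W2 := 536870912) (P3 := 1046898278) (W3 := 26843546) (N0 := 3)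
    rfl (fun _ => rfl) k0_mm_001

noncomputable def f_mm_011 : ℕ → ℕ → ℕ → ℕ → Bool := onCell 0 536870912 536870912 536870912 1046898278 26843546
    (rowNX 3 1 false false false .pnn 0 1 1 (qsf 0 536870912 536870912 536870912 1) ndN3q0 ndN7q1 pcN1 Cut.none Ext.none)

def k0_mm_011 : ∃ t, chk3 f_mm_011 t 1 1 1 = true :=
  ⟨(l 5), by decide +kernel⟩

theorem c_mm_011 : CertNX 0 536870912 536870912 536870912 1046898278 26843546 3 false false false .pnn 0 1 1
    ndN3q0 ndN7q1 pcN1 Cut.none Ext.none :=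
  certNX1 (fam := false) (s1 := false) (s2 := false) (a := 0) (b := 1) (c := 1) (cn := .pnn) (n1 := ndN3q0) (n2 := ndN7q1) (pc := pcN1) (cut := Cut.none) (xt := Ext.none) (P1 := 0) (W1 := 536870912) (P2 := 536870912) (W2 := 536870912) (P3 := 1046898278) (W3 := 26843546) (N0 := 3)
    rfl (fun _ => rfl) k0_mm_011

noncomputable def f_mm_012 : ℕ → ℕ → ℕ → ℕ → Bool := onCell 0 536870912 1073741824 536870912 1046898278 26843546
    (rowNX 3 0 false false false .pnp 0 1 2 (qsf 0 536870912 1073741824 536870912 1) ndN3q0 ndN7q2 pcN1 Cut.none Ext.none)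

def k0_mm_012 : ∃ t, chk3 f_mm_012 t 1 1 1 = true :=
  ⟨(l 5), by decide +kernel⟩

theorem c_mm_012 : CertNX 0 536870912 1073741824 536870912 1046898278 26843546 3 false false false .pnp 0 1 2
    ndN3q0 ndN7q2 pcN1 Cut.none Ext.none :=
  certNX0 (fam := false) (s1 := false) (s2 := false) (a := 0) (b := 1) (c := 2) (cn := .pnp) (n1 := ndN3q0) (n2 := ndN7q2) (pc := pcN1) (cut := Cut.none) (xt := Ext.none) (P1 := 0) (W1 := 536870912) (P2 := 1073741824) (W2 := 536870912) (P3 := 1046898278) (W3 := 26843546) (N0 := 3)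
    rfl k0_mm_012

noncomputable def f_mm_022 : ℕ → ℕ → ℕ → ℕ → Bool := onCell 0 536870912 1073741824 536870912 1046898278 26843546
    (rowNX 3 0 false false false .pp 0 2 2 (qsf 0 536870912 1073741824 536870912 2) ndN3q0 ndN7q2 pcN2 Cut.none Ext.none)

def k0_mm_022 : ∃ t, chk3 f_mm_022 t 1 1 1 = true :=
  ⟨(l 5), by decide +kernel⟩

theorem c_mm_022 : CertNX 0 536870912 1073741824 536870912 1046898278 26843546 3 false false false .pp 0 2 2
    ndN3q0 ndN7q2 pcN2 Cut.none Ext.none :=
  certNX0 (fam := false) (s1 := false) (s2 := false) (a := 0) (b := 2) (c := 2) (cn := .pp) (n1 := ndN3q0) (n2 := ndN7q2) (pc := pcN2) (cut := Cut.none) (xt := Ext.none) (P1 := 0) (W1 := 536870912) (P2 := 1073741824) (W2 := 536870912) (P3 := 1046898278) (W3 := 26843546) (N0 := 3)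
    rfl k0_mm_022

noncomputable def f_mm_023 : ℕ → ℕ → ℕ → ℕ → Bool := onCell 0 536870912 0 1230186008 1046898278 26843546
    (rowNX 3 0 false false false .up 0 2 3 (qsf 0 536870912 0 1230186008 2) ndN3q0 ndN7q3 pcN2 Cut.none Ext.none)

def k0_mm_023 : ∃ t, chk3 f_mm_023 t 1 1 1 = true :=
  ⟨(l 5), by decide +kernel⟩

theorem c_mm_023 : CertNX 0 536870912 0 1230186008 1046898278 26843546 3 false false false .up 0 2 3
    ndN3q0 ndN7q3 pcN2 Cut.none Ext.none :=
  certNX0 (fam := false) (s1 := false) (s2 := false) (a := 0) (b := 2) (c := 3) (cn := .up) (n1 := ndN3q0) (n2 := ndN7q3) (pc := pcN2) (cut := Cut.none) (xt := Ext.none) (P1 := 0) (W1 := 536870912) (P2 := 0) (W2 := 1230186008) (P3 := 1046898278) (W3 := 26843546) (N0 := 3)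
    rfl k0_mm_023

noncomputable def f_mm_033 : ℕ → ℕ → ℕ → ℕ → Bool := onCell 0 536870912 0 1230186008 1046898278 26843546
    (rowNX 3 0 false false false .pnn 0 3 3 (qsf 0 536870912 0 1230186008 3) ndN3q0 ndN7q3 pcN3 Cut.none Ext.none)

def k0_mm_033 : ∃ t, chk3 f_mm_033 t 1 1 1 = true :=
  ⟨(l 5), by decide +kernel⟩

theorem c_mm_033 : CertNX 0 536870912 0 1230186008 1046898278 26843546 3 false false false .pnn 0 3 3
    ndN3q0 ndN7q3 pcN3 Cut.none Ext.none :=
  certNX0 (fam := false) (s1 := false) (s2 := false) (a := 0) (b := 3) (c := 3) (cn := .pnn) (n1 := ndN3q0) (n2 := ndN7q3) (pc := pcN3) (cut := Cut.none) (xt := Ext.none) (P1 := 0) (W1 := 536870912) (P2 := 0) (W2 := 1230186008) (P3 := 1046898278) (W3 := 26843546) (N0 := 3)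
    rfl k0_mm_033

noncomputable def f_mm_101 : ℕ → ℕ → ℕ → ℕ → Bool := onCell 536870912 536870912 536870912 536870912 1046898278 26843546
    (rowNX 3 0 false false false .npn 1 0 1 (qsf 536870912 536870912 536870912 536870912 0) ndN3q1 ndN7q1 pcN0 Cut.none Ext.none)

def k0_mm_101 : ∃ t, chk3 f_mm_101 t 1 1 1 = true :=
  ⟨(l 3), by decide +kernel⟩

theorem c_mm_101 : CertNX 536870912 536870912 536870912 536870912 1046898278 26843546 3 false false false .npn 1 0 1
    ndN3q1 ndN7q1 pcN0 Cut.none Ext.none :=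
  certNX0 (fam := false) (s1 := false) (s2 := false) (a := 1) (b := 0) (c := 1) (cn := .npn) (n1 := ndN3q1) (n2 := ndN7q1) (pc := pcN0) (cut := Cut.none) (xt := Ext.none) (P1 := 536870912) (W1 := 536870912) (P2 := 536870912) (W2 := 536870912) (P3 := 1046898278) (W3 := 26843546) (N0 := 3)
    rfl k0_mm_101

noncomputable def f_mm_102 : ℕ → ℕ → ℕ → ℕ → Bool := onCell 536870912 536870912 1073741824 536870912 1046898278 26843546
    (rowNX 3 0 false false false .npp 1 0 2 (qsf 536870912 536870912 1073741824 536870912 0) ndN3q1 ndN7q2 pcN0 Cut.none Ext.none)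

def k0_mm_102 : ∃ t, chk3 f_mm_102 t 1 1 1 = true :=
  ⟨(l 3), by decide +kernel⟩

theorem c_mm_102 : CertNX 536870912 536870912 1073741824 536870912 1046898278 26843546 3 false false false .npp 1 0 2
    ndN3q1 ndN7q2 pcN0 Cut.none Ext.none :=
  certNX0 (fam := false) (s1 := false) (s2 := false) (a := 1) (b := 0) (c := 2) (cn := .npp) (n1 := ndN3q1) (n2 := ndN7q2) (pc := pcN0) (cut := Cut.none) (xt := Ext.none) (P1 := 536870912) (W1 := 536870912) (P2 := 1073741824) (W2 := 536870912) (P3 := 1046898278) (W3 := 26843546) (N0 := 3)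
    rfl k0_mm_102

noncomputable def f_mm_112 : ℕ → ℕ → ℕ → ℕ → Bool := onCell 536870912 536870912 1073741824 536870912 1046898278 26843546
    (rowNX 3 0 false false false .dn 1 1 2 (qsf 536870912 536870912 1073741824 536870912 1) ndN3q1 ndN7q2 pcN1 Cut.none Ext.none)

def k0_mm_112 : ∃ t, chk3 f_mm_112 t 1 1 1 = true :=
  ⟨(l 3), by decide +kernel⟩

theorem c_mm_112 : CertNX 536870912 536870912 1073741824 536870912 1046898278 26843546 3 false false false .dn 1 1 2
    ndN3q1 ndN7q2 pcN1 Cut.none Ext.none :=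
  certNX0 (fam := false) (s1 := false) (s2 := false) (a := 1) (b := 1) (c := 2) (cn := .dn) (n1 := ndN3q1) (n2 := ndN7q2) (pc := pcN1) (cut := Cut.none) (xt := Ext.none) (P1 := 536870912) (W1 := 536870912) (P2 := 1073741824) (W2 := 536870912) (P3 := 1046898278) (W3 := 26843546) (N0 := 3)
    rfl k0_mm_112

noncomputable def f_mm_113 : ℕ → ℕ → ℕ → ℕ → Bool := onCell 536870912 536870912 0 1230186008 1046898278 26843546
    (rowNX 3 0 false false false .nn 1 1 3 (qsf 536870912 536870912 0 1230186008 1) ndN3q1 ndN7q3 pcN1 Cut.none Ext.none)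

def k0_mm_113 : ∃ t, chk3 f_mm_113 t 1 1 1 = true :=
  ⟨(l 5), by decide +kernel⟩

theorem c_mm_113 : CertNX 536870912 536870912 0 1230186008 1046898278 26843546 3 false false false .nn 1 1 3
    ndN3q1 ndN7q3 pcN1 Cut.none Ext.none :=
  certNX0 (fam := false) (s1 := false) (s2 := false) (a := 1) (b := 1) (c := 3) (cn := .nn) (n1 := ndN3q1) (n2 := ndN7q3) (pc := pcN1) (cut := Cut.none) (xt := Ext.none) (P1 := 536870912) (W1 := 536870912) (P2 := 0) (W2 := 1230186008) (P3 := 1046898278) (W3 := 26843546) (N0 := 3)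
    rfl k0_mm_113

noncomputable def f_mm_123 : ℕ → ℕ → ℕ → ℕ → Bool := onCell 536870912 536870912 0 1230186008 1046898278 26843546
    (rowNX 3 0 false false false .npn 1 2 3 (qsf 536870912 536870912 0 1230186008 2) ndN3q1 ndN7q3 pcN2 Cut.none Ext.none)

def k0_mm_123 : ∃ t, chk3 f_mm_123 t 1 1 1 = true :=
  ⟨(l 5), by decide +kernel⟩

theorem c_mm_123 : CertNX 536870912 536870912 0 1230186008 1046898278 26843546 3 false false false .npn 1 2 3
    ndN3q1 ndN7q3 pcN2 Cut.none Ext.none :=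
  certNX0 (fam := false) (s1 := false) (s2 := false) (a := 1) (b := 2) (c := 3) (cn := .npn) (n1 := ndN3q1) (n2 := ndN7q3) (pc := pcN2) (cut := Cut.none) (xt := Ext.none) (P1 := 536870912) (W1 := 536870912) (P2 := 0) (W2 := 1230186008) (P3 := 1046898278) (W3 := 26843546) (N0 := 3)
    rfl k0_mm_123

noncomputable def f_mm_133 : ℕ → ℕ → ℕ → ℕ → Bool := onCell 536870912 536870912 0 1230186008 1046898278 26843546
    (rowNX 3 0 false false false .dn 1 3 3 (qsf 536870912 536870912 0 1230186008 3) ndN3q1 ndN7q3 pcN3 Cut.none Ext.none)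

def k0_mm_133 : ∃ t, chk3 f_mm_133 t 1 1 1 = true :=
  ⟨(l 5), by decide +kernel⟩

theorem c_mm_133 : CertNX 536870912 536870912 0 1230186008 1046898278 26843546 3 false false false .dn 1 3 3
    ndN3q1 ndN7q3 pcN3 Cut.none Ext.none :=
  certNX0 (fam := false) (s1 := false) (s2 := false) (a := 1) (b := 3) (c := 3) (cn := .dn) (n1 := ndN3q1) (n2 := ndN7q3) (pc := pcN3) (cut := Cut.none) (xt := Ext.none) (P1 := 536870912) (W1 := 536870912) (P2 := 0) (W2 := 1230186008) (P3 := 1046898278) (W3 := 26843546) (N0 := 3)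
    rfl k0_mm_133

noncomputable def cut_mm_202 : Cut := Cut.of [[⟨0, 1, 0, 67108864⟩, ⟨1, 0, 0, 67108864⟩, ⟨2, 1, 0, 67108864⟩]]

noncomputable def f_mm_202 : ℕ → ℕ → ℕ → ℕ → Bool := onCell 1073741824 536870912 0 536870912 1046898278 26843546
    (rowNX 3 1 false false false .pp 2 0 2 (qsf 1073741824 536870912 1073741824 536870912 0) ndN3q2 ndN7q2 pcN0 cut_mm_202 Ext.none)

def k0_mm_202 : ∃ t, chk3 f_mm_202 t 1 1 1 = true :=
  ⟨(b (a (b (b (a (a (a (a (b (l 6) (l 3)) (l 3)) (l 3)) (l 3)) (l 3)) (l 3)) (l 3)) (l 3)) (a (l 3) (b (l 3) (l 2)))), by decide +kernel⟩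

theorem c_mm_202 : CertNX 1073741824 536870912 1073741824 536870912 1046898278 26843546 3 false false false .pp 2 0 2
    ndN3q2 ndN7q2 pcN0 cut_mm_202 Ext.none :=
  certNX1 (fam := false) (s1 := false) (s2 := false) (a := 2) (b := 0) (c := 2) (cn := .pp) (n1 := ndN3q2) (n2 := ndN7q2) (pc := pcN0) (cut := cut_mm_202) (xt := Ext.none) (P1 := 1073741824) (W1 := 536870912) (P2 := 1073741824) (W2 := 536870912) (P3 := 1046898278) (W3 := 26843546) (N0 := 3)
    rfl (fun _ => rfl) k0_mm_202

noncomputable def f_mm_203 : ℕ → ℕ → ℕ → ℕ → Bool := onCell 0 536870912 0 1230186008 1046898278 26843546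
    (rowNX 3 2 false false false .up 2 0 3 (qsf 1073741824 536870912 0 1230186008 0) ndN3q2 ndN7q3 pcN0 Cut.none Ext.none)

def k0_mm_203 : ∃ t, chk3 f_mm_203 t 1 1 1 = true :=
  ⟨(b (l 3) (l 3)), by decide +kernel⟩

theorem c_mm_203 : CertNX 1073741824 536870912 0 1230186008 1046898278 26843546 3 false false false .up 2 0 3
    ndN3q2 ndN7q3 pcN0 Cut.none Ext.none :=
  certNX2 (fam := false) (s1 := false) (s2 := false) (a := 2) (b := 0) (c := 3) (cn := .up) (n1 := ndN3q2) (n2 := ndN7q3) (pc := pcN0) (cut := Cut.none) (xt := Ext.none) (P1 := 1073741824) (W1 := 536870912) (P2 := 0) (W2 := 1230186008) (P3 := 1046898278) (W3 := 26843546) (N0 := 3)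
    rfl (fun _ => rfl) k0_mm_203

noncomputable def f_mm_213 : ℕ → ℕ → ℕ → ℕ → Bool := onCell 1073741824 536870912 0 1230186008 1046898278 26843546
    (rowNX 3 0 false false false .pnn 2 1 3 (qsf 1073741824 536870912 0 1230186008 1) ndN3q2 ndN7q3 pcN1 Cut.none Ext.none)

def k0_mm_213 : ∃ t, chk3 f_mm_213 t 1 1 1 = true :=
  ⟨(b (a (l 5) (l 3)) (l 3)), by decide +kernel⟩

theorem c_mm_213 : CertNX 1073741824 536870912 0 1230186008 1046898278 26843546 3 false false false .pnn 2 1 3
    ndN3q2 ndN7q3 pcN1 Cut.none Ext.none :=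
  certNX0 (fam := false) (s1 := false) (s2 := false) (a := 2) (b := 1) (c := 3) (cn := .pnn) (n1 := ndN3q2) (n2 := ndN7q3) (pc := pcN1) (cut := Cut.none) (xt := Ext.none) (P1 := 1073741824) (W1 := 536870912) (P2 := 0) (W2 := 1230186008) (P3 := 1046898278) (W3 := 26843546) (N0 := 3)
    rfl k0_mm_213

noncomputable def f_mm_303 : ℕ → ℕ → ℕ → ℕ → Bool := onCell 0 536870912 0 1230186008 1046898278 26843546
    (rowNX 3 2 false false false .npn 3 0 3 (qsf 1610612736 536870912 0 1230186008 0) ndN3q3 ndN7q3 pcN0 Cut.none Ext.none)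

def k0_mm_303 : ∃ t, chk3 f_mm_303 t 1 1 1 = true :=
  ⟨(b (l 3) (l 3)), by decide +kernel⟩

theorem c_mm_303 : CertNX 1610612736 536870912 0 1230186008 1046898278 26843546 3 false false false .npn 3 0 3
    ndN3q3 ndN7q3 pcN0 Cut.none Ext.none :=
  certNX2 (fam := false) (s1 := false) (s2 := false) (a := 3) (b := 0) (c := 3) (cn := .npn) (n1 := ndN3q3) (n2 := ndN7q3) (pc := pcN0) (cut := Cut.none) (xt := Ext.none) (P1 := 1610612736) (W1 := 536870912) (P2 := 0) (W2 := 1230186008) (P3 := 1046898278) (W3 := 26843546) (N0 := 3)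
    rfl (fun _ => rfl) k0_mm_303

noncomputable def f_mm_313 : ℕ → ℕ → ℕ → ℕ → Bool := onCell 1610612736 536870912 0 1230186008 1046898278 26843546
    (rowNX 3 0 false false false .dn 3 1 3 (qsf 1610612736 536870912 0 1230186008 1) ndN3q3 ndN7q3 pcN1 Cut.none Ext.none)

def k0_mm_313 : ∃ t, chk3 f_mm_313 t 1 1 1 = true :=
  ⟨(b (l 3) (l 1)), by decide +kernel⟩

theorem c_mm_313 : CertNX 1610612736 536870912 0 1230186008 1046898278 26843546 3 false false false .dn 3 1 3
    ndN3q3 ndN7q3 pcN1 Cut.none Ext.none :=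
  certNX0 (fam := false) (s1 := false) (s2 := false) (a := 3) (b := 1) (c := 3) (cn := .dn) (n1 := ndN3q3) (n2 := ndN7q3) (pc := pcN1) (cut := Cut.none) (xt := Ext.none) (P1 := 1610612736) (W1 := 536870912) (P2 := 0) (W2 := 1230186008) (P3 := 1046898278) (W3 := 26843546) (N0 := 3)
    rfl k0_mm_313

end Pool.Agent.Strip051.G.IE1.Tab.C.NB37

namespace Pool.Agent.Strip051.G.IE1.Tab.C.NB40

open Pool.Agent.Strip051.PB Pool.Agent.Strip051.PB.T
open Pool.Agent.Strip051.G.IE1.Tab

noncomputable def f_pp_001 : ℕ → ℕ → ℕ → ℕ → Bool := onCell 0 67108864 0 536870912 1046898278 26843546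
    (rowNX 3 1 false true true .up 0 0 1 (qsf 0 67108864 536870912 536870912 0) ndN4q0 ndN0q1 pcN0 Cut.none Ext.none)

def k0_pp_001 : ∃ t, chk3 f_pp_001 t 1 1 1 = true :=
  ⟨(l 3), by decide +kernel⟩

theorem c_pp_001 : CertNX 0 67108864 536870912 536870912 1046898278 26843546 3 false true true .up 0 0 1
    ndN4q0 ndN0q1 pcN0 Cut.none Ext.none :=
  certNX1 (fam := false) (s1 := true) (s2 := true) (a := 0) (b := 0) (c := 1) (cn := .up) (n1 := ndN4q0) (n2 := ndN0q1) (pc := pcN0) (cut := Cut.none) (xt := Ext.none) (P1 := 0) (W1 := 67108864) (P2 := 536870912) (W2 := 536870912) (P3 := 1046898278) (W3 := 26843546) (N0 := 3)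
    rfl (fun _ => rfl) k0_pp_001

noncomputable def cut_pp_011 : Cut := Cut.of [[⟨0, 0, 0, 67108864⟩, ⟨1, 1, 0, 67108864⟩, ⟨2, 1, 0, 67108864⟩, ⟨3, 0, 0, 1233125376⟩]]

noncomputable def f_pp_011 : ℕ → ℕ → ℕ → ℕ → Bool := onCell 0 67108864 536870912 536870912 1046898278 26843546
    (rowNX 3 0 false true true .pnn 0 1 1 (qsf 0 67108864 536870912 536870912 1) ndN4q0 ndN0q1 pcN1 cut_pp_011 Ext.none)

def k0_pp_011 : ∃ t, chk3 f_pp_011 t 1 1 1 = true :=
  ⟨(b (l 3) (b (l 3) (b (l 3) (b (l 3) (a (b (l 3) (l 6)) (b (l 3) (b (a (b (b (b (l 3) (l 6)) (l 6)) (l 6)) (c (c (a (b (c (l 14880224) (a (l 14743984) (l 14716552))) (c (l 14995496) (a (l 14860304) (l 14818480)))) (c (a (l 14882296) (l 103243361063)) (l 14724648))) (b (l 3) (a (l 120959446167) (l 14545640)))) (l 3))) (a (l 6) (c (a (c (c (l 15194432) (l 15037384)) (l 14790248)) (c (c (a (l 15101656) (l 15049888)) (l 14931176)) (l 14704792))) (c (c (a (l 14530896) (l 14470576)) (b (a (l 14281136) (l 14252448)) (l 14401744)))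 (b (l 3) (a (l 6) (c (l 14208792) (b (l 3) (b (l 14053912) (l 14093608)))))))))))))))), by decide +kernel⟩

theorem c_pp_011 : CertNX 0 67108864 536870912 536870912 1046898278 26843546 3 false true true .pnn 0 1 1
    ndN4q0 ndN0q1 pcN1 cut_pp_011 Ext.none :=
  certNX0 (fam := false) (s1 := true) (s2 := true) (a := 0) (b := 1) (c := 1) (cn := .pnn) (n1 := ndN4q0) (n2 := ndN0q1) (pc := pcN1) (cut := cut_pp_011) (xt := Ext.none) (P1 := 0) (W1 := 67108864) (P2 := 536870912) (W2 := 536870912) (P3 := 1046898278) (W3 := 26843546) (N0 := 3)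
    rfl k0_pp_011

noncomputable def cut_pp_012 : Cut := Cut.of [[⟨0, 0, 0, 67108864⟩, ⟨1, 1, 0, 67108864⟩, ⟨2, 1, 0, 67108864⟩, ⟨3, 0, 0, 1233125376⟩]]

noncomputable def f_pp_012 : ℕ → ℕ → ℕ → ℕ → Bool := onCell 536870912 536870912 0 536870912 1046898278 26843546
    (rowNX 3 2 false true true .pnp 0 1 2 (qsf 0 67108864 0 536870912 1) ndN4q0 ndN0q2 pcN1 cut_pp_012 Ext.none)

def k0_pp_012 : ∃ t, chk3 f_pp_012 t 2 1 1 = true :=
  ⟨(l 2), by decide +kernel⟩

def k1_pp_012 : ∃ t, chk3 f_pp_012 t 3 2 1 = true :=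
  ⟨(l 2), by decide +kernel⟩

def k2_pp_012 : ∃ t, chk3 f_pp_012 t 6 3 1 = true :=
  ⟨(l 2), by decide +kernel⟩

def k3_pp_012 : ∃ t, chk3 f_pp_012 t 7 6 1 = true :=
  ⟨(l 2), by decide +kernel⟩

def k4_pp_012 : ∃ t, chk3 f_pp_012 t 14 7 1 = true :=
  ⟨(b (l 2) (b (l 2) (a (l 2) (a (l 2) (b (l 2) (b (l 2) (b (l 2) (a (l 2) (b (l 2) (b (l 2) (c (l 14939864) (l 14396864)))))))))))), by decide +kernel⟩

def k5_pp_012 : ∃ t, chk3 f_pp_012 t 30 14 1 = true :=
  ⟨(l 2), by decide +kernel⟩

def k6_pp_012 : ∃ t, chk3 f_pp_012 t 60 15 1 = true :=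
  ⟨(b (l 2) (b (a (l 2) (c (b (c (l 15958928) (c (l 15902960) (l 15848040))) (c (a (l 15733152) (b (l 15848136) (l 15752112))) (a (l 15395664) (b (l 15814424) (l 15606728))))) (b (l 15709032) (c (c (b (a (l 2) (l 15631952)) (a (l 15429720) (l 15493968))) (a (l 15415864) (l 15475912))) (l 15240088))))) (a (b (a (l 2) (c (b (l 15441344) (c (a (l 15406360) (l 15433672)) (l 15214368))) (c (b (c (l 15226896) (l 15134216)) (l 15147736)) (b (l 14976904) (c (l 14830688) (l 14706784)))))) (a (c (b (a (l 2) (l 15159104)) (c (a (l 15138312) (l 15163704)) (l 14886504))) (c (b (l 14794400) (l 14604480)) (c (b (l 14606360) (l 14382312)) (b (l 14474888) (c (l 14268224) (b (l 14250672) (l 14124096))))))) (b (a (c (b (l 15211968) (l 6)) (c (l 14807808) (c (l 14610400) (l 14472472)))) (l 6)) (l 6)))) (b (b (a (c (c (a (l 15565944) (l 15599576)) (l 15404200)) (c (c (l 15269736) (b (l 15213488) (l 15129336))) (l 15007016))) (l 6)) (l 6)) (l 6))))), by decide +kernel⟩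

def k7_pp_012 : ∃ t, chk3 f_pp_012 t 61 15 1 = true :=
  ⟨(a (b (a (l 2) (b (l 2) (b (l 2) (c (c (b (l 16350232) (c (l 16295120) (l 16279304))) (b (l 16293376) (c (l 16239448) (l 16195168)))) (l 16179096))))) (b (b (c (c (a (b (l 16116288) (l 16021848)) (l 16156192)) (b (a (c (l 16066224) (l 16003040)) (l 16130768)) (c (l 16010808) (a (l 15906832) (l 6))))) (a (b (l 15886024) (l 15745504)) (l 15923256))) (l 6)) (l 6))) (b (a (b (l 2) (c (b (c (b (l 16419208) (c (l 16452768) (l 16452192))) (l 16446744)) (b (c (c (l 16448944) (l 16426864)) (l 16390696)) (l 6))) (b (l 16477424) (l 16294704)))) (c (b (b (l 2) (c (l 16289416) (l 16433208))) (b (b (c (a (l 16468624) (l 16463304)) (l 16488400)) (l 6)) (l 6))) (b (l 16276568) (l 16268096)))) (l 6))), by decide +kernel⟩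

def k8_pp_012 : ∃ t, chk3 f_pp_012 t 31 14 1 = true :=
  ⟨(a (b (l 2) (b (l 2) (c (a (c (a (l 2) (c (l 16455288) (a (l 2) (l 16482648)))) (l 16428232)) (c (a (c (l 16387864) (b (l 16523624) (l 16517576))) (b (l 16509952) (l 16554464))) (a (c (a (l 16480856) (b (l 16554576) (l 16542632))) (l 16501168)) (c (b (l 16552952) (l 16573496)) (b (a (l 16535992) (l 16623488)) (l 16543760)))))) (a (l 16431616) (a (b (l 16568360) (l 16588632)) (b (l 16638480) (l 16616544))))))) (b (b (l 2) (a (l 2) (c (a (c (l 16586704) (l 16661984)) (b (l 16620112) (l 16668480))) (c (a (c (l 16686616) (l 16534800)) (l 16627984)) (a (c (a (l 16619040) (c (l 16645408) (l 16615488))) (l 16648360)) (c (l 16537512) (a (c (l 16511056) (l 16586208)) (c (l 16569896) (a (l 16564384) (l 16554304)))))))))) (c (a (c (b (b (l 16450152) (a (l 16616072) (l 16648296))) (b (l 16609680) (l 16575600))) (b (a (b (l 2) (l 16623104)) (l 16674680)) (a (l 16605728) (l 16610984)))) (b (c (l 16539096) (l 16702888)) (c (l 16630360)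 (l 16628824)))) (a (c (a (b (c (b (l 2) (a (l 16657600) (l 16684264))) (l 16660064)) (c (a (l 16627480) (l 16632880)) (l 16641768))) (c (b (b (l 16706352) (l 16698544)) (l 16637376)) (b (b (a (l 16703016) (l 16670384)) (l 16565608)) (c (l 16608752) (l 16657552))))) (b (a (l 16681480) (l 16661208)) (l 16671072))) (a (c (b (l 16573872) (l 16611720)) (c (a (b (l 16657496) (l 16677848)) (c (l 16683248) (b (l 16643216) (l 16687512)))) (l 16624320))) (c (l 16662664) (c (l 16538400) (a (c (b (l 16624768) (l 16637944)) (l 16667728)) (c (l 16666288) (b (l 16584176) (a (l 16714040) (l 16666992)))))))))))), by decide +kernel⟩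

def k9_pp_012 : ∃ t, chk3 f_pp_012 t 31 15 1 = true :=
  ⟨(b (b (a (c (a (c (c (a (b (a (l 2) (l 16450656)) (a (l 16355280) (l 16462208))) (b (a (l 16481104) (l 16498320)) (l 16497968))) (a (b (l 16430968) (l 16468160)) (b (a (l 16481768) (l 16504216)) (l 16493288)))) (b (a (l 16445224) (l 16501048)) (l 16428848))) (c (c (l 16486432) (a (l 16511336) (l 16516968))) (c (a (c (l 16516064) (l 16516792)) (l 16526856)) (a (l 16523080) (b (l 16500704) (l 6)))))) (a (b (a (l 16475840) (l 16537480)) (l 16465280)) (c (l 16547936) (l 6)))) (c (c (b (l 16503528) (l 16466984)) (a (c (l 16495904) (a (l 16502728) (l 16549504))) (b (l 16569984) (l 16569416)))) (b (c (a (a (c (l 16459856) (l 16575416)) (c (l 16571808) (l 6))) (a (l 16545192) (l 16596576))) (l 6)) (l 6)))) (l 6)) (l 6)), by decide +kernel⟩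

theorem s10_pp_012 : ∃ t, chk3 f_pp_012 t 31 7 1 = true := ex3_b k8_pp_012 k9_pp_012

theorem s11_pp_012 : ∃ t, chk3 f_pp_012 t 30 15 1 = true := ex3_a k6_pp_012 k7_pp_012

theorem s12_pp_012 : ∃ t, chk3 f_pp_012 t 30 7 1 = true := ex3_b k5_pp_012 s11_pp_012

theorem s13_pp_012 : ∃ t, chk3 f_pp_012 t 15 7 1 = true := ex3_a s12_pp_012 s10_pp_012

theorem s14_pp_012 : ∃ t, chk3 f_pp_012 t 7 7 1 = true := ex3_a k4_pp_012 s13_pp_012

theorem s15_pp_012 : ∃ t, chk3 f_pp_012 t 7 3 1 = true := ex3_b k3_pp_012 s14_pp_012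

theorem s16_pp_012 : ∃ t, chk3 f_pp_012 t 3 3 1 = true := ex3_a k2_pp_012 s15_pp_012

theorem s17_pp_012 : ∃ t, chk3 f_pp_012 t 3 1 1 = true := ex3_b k1_pp_012 s16_pp_012

theorem s18_pp_012 : ∃ t, chk3 f_pp_012 t 1 1 1 = true := ex3_a k0_pp_012 s17_pp_012

theorem c_pp_012 : CertNX 0 67108864 0 536870912 1046898278 26843546 3 false true true .pnp 0 1 2
    ndN4q0 ndN0q2 pcN1 cut_pp_012 Ext.none :=
  certNX2 (fam := false) (s1 := true) (s2 := true) (a := 0) (b := 1) (c := 2) (cn := .pnp) (n1 := ndN4q0) (n2 := ndN0q2) (pc := pcN1) (cut := cut_pp_012) (xt := Ext.none) (P1 := 0) (W1 := 67108864) (P2 := 0) (W2 := 536870912) (P3 := 1046898278) (W3 := 26843546) (N0 := 3)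
    rfl (fun _ => rfl) s18_pp_012

noncomputable def cut_pp_022 : Cut := Cut.of [[⟨0, 0, 0, 67108864⟩, ⟨1, 1, 0, 67108864⟩, ⟨2, 1, 0, 67108864⟩, ⟨3, 0, 0, 1233125376⟩]]

noncomputable def f_pp_022 : ℕ → ℕ → ℕ → ℕ → Bool := onCell 0 67108864 0 536870912 1046898278 26843546
    (rowNX 3 0 false true true .pp 0 2 2 (qsf 0 67108864 0 536870912 2) ndN4q0 ndN0q2 pcN2 cut_pp_022 Ext.none)

def k0_pp_022 : ∃ t, chk3 f_pp_022 t 2 4 1 = true :=
  ⟨(a (a (b (c (b (c (l 16027200) (l 15969232)) (l 15856224)) (c (a (l 15932816) (c (l 16038616) (l 16012024))) (a (c (l 15849472) (a (l 15838488) (l 15932584))) (c (l 16055120) (l 16048720))))) (c (b (a (l 16059976) (a (l 16196544) (l 16241128))) (a (l 16179656) (b (l 16281128) (a (l 16350976) (c (l 16345776) (l 16327992)))))) (a (c (b (l 16040312) (l 16142720)) (b (c (l 16021536) (l 15923376)) (a (l 15977856) (c (l 16188208) (l 16169864))))) (b (c (a (l 16164400) (l 16233040)) (c (l 16165384) (l 16160104))) (c (a (l 16225312) (b (l 16320904)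 (a (l 16366000) (l 16369496)))) (b (l 16248544) (a (l 16285208) (l 16312656)))))))) (a (b (c (c (b (l 16263752) (l 16332488)) (l 16135696)) (c (b (l 16182968) (l 16233112)) (l 16161856))) (c (b (a (c (l 16377528) (l 16345376)) (b (l 16204760) (c (l 16307936) (l 16346680)))) (b (a (c (l 16323416) (l 16342192)) (l 16330144)) (l 16322872))) (b (b (c (l 16291872) (l 16287144)) (c (a (l 16309768) (l 16351008)) (l 16221320))) (b (c (a (l 16351976) (l 16358528)) (l 16352080)) (c (l 16360904) (l 16357264)))))) (b (b (c (a (l 16224776) (c (l 16270736) (l 16259328))) (c (l 16125624) (l 16193360))) (c (a (c (l 16203520) (l 16285520)) (c (l 16324312) (l 16359032))) (c (a (l 16306352) (l 16358328)) (a (l 16335224) (l 16351704))))) (c (b (c (l 16218328) (b (l 16361880) (l 16369256))) (c (l 16346864) (l 16365960))) (b (c (l 16360808) (l 16361424)) (l 16280480)))))) (b (c (c (a (b (l 16324328) (l 16369832)) (b (l 16349824) (l 16345672))) (b (a (l 16350088) (l 16378544)) (l 16368488))) (c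 (l 16330736) (l 16362648))) (c (c (a (l 16280816) (l 16337728)) (c (l 16353752) (l 16366168))) (c (l 16374072) (l 16357848))))), by decide +kernel⟩

def k1_pp_022 : ∃ t, chk3 f_pp_022 t 3 4 1 = true :=
  ⟨(c (b (a (b (c (l 16387784) (l 16338216)) (c (l 16396624) (l 16401256))) (b (c (l 16341080) (l 16373040)) (c (a (l 16408960) (l 16407864)) (l 16421784)))) (a (c (l 16381896) (l 16401576)) (c (a (l 16429560) (l 16450992)) (l 16423992)))) (b (a (b (l 16330832) (l 16387000)) (b (b (l 16416536) (l 16410424)) (l 16398240))) (c (l 16281264) (l 16333280)))), by decide +kernel⟩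

def k2_pp_022 : ∃ t, chk3 f_pp_022 t 1 5 1 = true :=
  ⟨(a (b (a (a (b (c (a (b (l 16270800) (a (l 16327976) (l 16380992))) (b (a (l 16367136) (l 16350560)) (l 16377672))) (a (c (b (l 16237296) (a (l 16317584) (l 16370304))) (a (b (c (l 16227240) (l 16215584)) (a (l 16294432) (c (l 16333216) (l 16300752)))) (b (c (l 16305016) (l 16287848)) (c (l 16350672) (l 16333904))))) (c (a (b (l 16248608) (l 16377776)) (l 16374624)) (b (c (l 16280856) (l 16340208)) (l 16336824))))) (c (b (l 16233672) (l 16365024)) (c (a (l 16305672) (l 16305296)) (a (a (c (l 16334928) (a (l 16284560) (l 16328016))) (l 16248880)) (l 16313184))))) (c (c (a (l 16346112) (l 16403200)) (a (l 16339496) (l 16312512))) (c (b (l 16345328) (l 16315560)) (l 16324000)))) (c (c (a (l 16159440) (l 16296384)) (a (l 16290416) (l 16327744))) (c (l 16310168) (l 16313120)))) (a (c (a (c (l 16293368) (b (l 16329704) (l 16275416))) (c (a (b (l 16376080) (l 16301168)) (l 16216552)) (a (l 16151848) (b (l 16277008) (l 16220144)))))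 (a (c (a (b (l 16308064) (l 16252384)) (b (c (l 16319872) (l 16294712)) (l 16102200))) (a (c (b (l 16292456) (l 16235304)) (a (b (l 16241232) (l 16204336)) (l 16225472))) (c (l 16226288) (l 16241800)))) (c (b (l 16230536) (l 16172232)) (l 16212920)))) (c (c (a (b (l 16207672) (l 16172200)) (l 16165760)) (b (l 16239016) (l 16158672))) (c (b (l 16268728) (l 16207376)) (l 16216800))))) (c (b (a (c (l 16334960) (l 16352800)) (c (a (l 16377320) (b (l 16416080) (l 16395856))) (b (l 16388536) (l 16340168)))) (a (b (l 16171904) (c (l 16219784) (l 16191232))) (a (b (l 16253544) (l 16289512)) (b (c (l 16384312) (l 16355776)) (l 16223192))))) (b (a (l 16269264) (b (l 16340792) (l 16290208))) (a (b (l 16252296) (l 16153264)) (b (l 16239936) (l 16249392)))))), by decide +kernel⟩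

def k3_pp_022 : ∃ t, chk3 f_pp_022 t 2 12 1 = true :=
  ⟨(a (c (c (a (l 16175320) (a (b (l 16251624) (l 16162072)) (l 16030576))) (a (b (l 16204088) (l 16113224)) (a (b (l 16197800) (l 16105440)) (b (l 16146272) (l 16052936))))) (a (c (c (b (l 16100968) (l 15987000)) (a (l 16108088) (b (l 16162664) (l 16067720)))) (a (c (a (l 16115864) (l 15987520)) (a (b (l 16128408) (l 16031824)) (l 16050520))) (c (l 16031240) (l 16086232)))) (c (b (l 16054528) (l 15937840)) (b (l 16125512) (l 16026872))))) (c (b (a (c (l 16078232) (l 16118904)) (c (l 16104912) (l 16129736))) (a (c (a (l 16069544) (l 16028224)) (l 15965192)) (c (l 16031328) (l 16052208)))) (b (c (l 16129488) (l 16104704)) (c (a (l 16037648) (l 16051256)) (l 16014584))))), by decide +kernel⟩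

def k4_pp_022 : ∃ t, chk3 f_pp_022 t 2 13 1 = true :=
  ⟨(a (c (a (b (b (l 16021872) (l 16068560)) (a (l 16122656) (l 16043560))) (b (c (a (b (l 16104568) (l 16134616)) (l 16095152)) (a (l 15977328) (l 15908328))) (c (a (l 16185120) (l 16161168)) (a (l 16122448) (l 16075208))))) (b (a (c (a (l 16037952) (c (l 16048688) (l 15934896))) (a (c (a (l 16018576) (l 16015320)) (a (c (l 16007160) (l 15998632)) (l 15992600))) (c (l 15995592) (l 15985784)))) (c (a (c (l 16003424) (l 15988040)) (l 15987720)) (l 15979592))) (a (c (a (b (l 16078992) (b (l 16099192) (c (l 16111640) (a (l 16086776) (l 16103200))))) (a (b (l 16083552) (c (l 16127496) (b (l 16090624) (l 16096808)))) (l 16086880))) (a (b (c (l 16055648) (c (l 16043048) (b (l 16027744) (c (l 16042688) (l 16036080))))) (c (b (a (l 16069688) (c (l 16083592) (l 16064264))) (a (l 16058248) (c (l 16081544) (l 16057272)))) (a (b (c (a (l 16052280) (l 16055048)) (a (l 16031840) (l 16034592))) (c (l 16017984) (l 15991592))) (b (c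 (l 16048184) (l 16037216)) (l 16020120))))) (b (l 16028240) (c (b (l 16055744) (a (l 16057312) (l 16053248))) (b (l 16037448) (l 16034144)))))) (c (a (l 16057000) (l 16045576)) (b (l 16021624) (b (l 16038072) (a (a (b (l 16045968) (c (l 16059240) (l 16038856))) (c (l 16060200) (b (l 16037040) (l 16037056)))) (l 16041616)))))))) (c (b (a (c (a (l 16040168) (l 15984384)) (a (l 15990688) (l 15999080))) (c (l 16010904) (l 16026896))) (a (c (l 16006096) (l 16056392)) (l 16008608))) (b (c (b (l 15991904) (l 16023024)) (l 15974744)) (c (l 16039504) (l 16022632))))), by decide +kernel⟩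

def k5_pp_022 : ∃ t, chk3 f_pp_022 t 3 6 1 = true :=
  ⟨(b (c (a (b (c (l 16168296) (l 16031536)) (c (l 16107440) (l 16112584))) (a (b (l 16230520) (l 16141488)) (c (b (l 16322368) (l 16250696)) (l 16209176)))) (a (b (a (l 16121656) (l 16142992)) (l 16061752)) (b (l 16199504) (l 16117640)))) (c (a (b (c (l 16080336) (b (l 16066200) (l 16093584))) (c (l 16130720) (l 16126528))) (b (c (a (l 16161464) (l 16167304)) (l 16146296)) (c (a (l 16204136) (l 16246968)) (l 16182168)))) (b (a (b (l 16008920) (l 16033320)) (b (l 16055816) (l 16074688))) (a (l 16061056) (l 16094896))))), by decide +kernel⟩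

def k6_pp_022 : ∃ t, chk3 f_pp_022 t 4 28 2 = true :=
  ⟨(a (b (c (a (b (l 16164760) (c (l 16179616) (b (a (l 16158520) (l 16172992)) (a (l 16137672) (l 16174560))))) (l 16198280)) (a (b (c (l 16145520) (l 16129616)) (b (a (l 16128576) (c (l 16158296) (l 16140352))) (a (b (l 16124968) (l 16119104)) (l 16145024)))) (b (a (a (l 16094416) (l 16167128)) (l 16172104)) (c (l 16179816) (a (l 16156344) (l 16165080)))))) (c (b (a (c (b (a (l 16174960) (l 16190736)) (l 16181680)) (l 16162616)) (c (l 16211808) (l 16196928))) (c (a (l 16176016) (l 16213128)) (l 16126064))) (a (b (l 16120272) (l 16107128)) (c (l 16176600) (a (l 16136016) (l 16156024)))))) (c (b (a (l 16219192) (l 16193344)) (a (c (l 16177560) (b (a (l 16220832) (l 16219824)) (a (l 16221968) (l 16219848)))) (b (l 16201688) (l 16179912)))) (b (a (c (l 16176408) (l 16084960)) (l 16103424)) (c (a (b (l 16180080) (l 16179824)) (b (l 16123784) (l 16126048))) (a (l 16130344) (b (l 16084832) (l 16086472))))))), by decide +kernel⟩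

def k7_pp_022 : ∃ t, chk3 f_pp_022 t 4 28 3 = true :=
  ⟨(a (b (a (c (b (c (l 16110704) (l 16040032)) (a (b (l 16063656) (l 16055208)) (b (a (l 16086600) (l 16098768)) (l 16082704)))) (b (c (a (l 16023224) (l 16040416)) (a (c (l 15988504) (l 15964272)) (l 15989544))) (a (c (b (l 16009008) (l 16003736)) (a (c (l 15969944) (l 15947968)) (c (l 15959656) (l 15956120)))) (c (b (a (l 16026944) (l 16030312)) (l 16019944)) (b (c (l 15989704) (l 15972040)) (l 15973816)))))) (c (b (a (b (c (l 16136992) (l 16098528)) (c (a (l 16137480) (l 16140192)) (l 16090672))) (c (b (l 16124904) (l 16125160)) (b (a (l 16081040) (l 16070584)) (l 16074280)))) (c (a (l 16128200) (l 16121472)) (a (l 16074632) (l 16060016)))) (b (c (a (b (l 16045968) (l 16034824)) (b (l 16051424) (l 16040056))) (a (l 16005472) (l 16017008))) (c (l 16026312) (l 15995080))))) (c (a (b (a (l 16044848) (l 16071696)) (l 16050648)) (c (l 16037936) (a (l 16057176) (l 16043856)))) (a (c (a (b (l 15996648) (l 15992312)) (c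 (l 16021952) (l 15996800))) (a (a (c (l 15961736) (b (l 15944112) (l 15942728))) (c (l 15970464) (l 15948136))) (l 15965456))) (c (l 16013008) (l 15985344))))) (c (b (a (c (b (l 16084248) (l 16085632)) (b (l 16062224) (l 16060560))) (c (l 16064744) (l 16066520))) (a (c (l 16058896) (l 16044912)) (c (l 16069976) (l 16068592)))) (b (b (c (a (l 16056672) (l 16059144)) (l 15985832)) (c (l 16048136) (l 16017168))) (c (l 16040352) (l 16011312))))), by decide +kernel⟩

def k8_pp_022 : ∃ t, chk3 f_pp_022 t 4 29 1 = true :=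
  ⟨(c (c (a (b (c (l 16197176) (b (l 16165432) (l 16192728))) (l 16158368)) (b (a (c (l 16219192) (l 16124944)) (c (l 16163288) (l 16198344))) (a (c (l 16332208) (l 16270888)) (c (l 16322744) (l 16279456))))) (a (b (c (b (l 16143680) (l 16175096)) (a (l 16109544) (a (l 16150088) (l 16166984)))) (c (b (l 16221336) (l 16276416)) (a (l 16207552) (a (l 16249504) (b (l 16238256) (l 16299160)))))) (c (a (b (b (l 16177624) (l 16210568)) (l 16242376)) (b (l 16143672) (l 16236960))) (b (a (l 16144736) (b (l 16088688) (l 16126696))) (a (l 16245584) (b (l 16179352) (l 16240520))))))) (a (c (a (b (b (l 16012736) (l 16051536)) (c (l 16190688) (c (l 16177416) (l 16062056)))) (b (c (a (l 16124064) (l 16122232)) (a (l 16081648) (l 16069896))) (c (a (l 16188992) (l 16230424)) (a (l 16173880) (l 16184424))))) (a (c (b (a (l 16020024) (c (l 16048872) (l 16005448))) (a (l 16137064) (c (l 16165584) (l 16020560)))) (b (a (c (a (l 15992224) (l 16001656)) (a (b (l 15953472) (l 16000096)) (l 15982088)))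 (c (l 16007176) (l 15994568))) (b (a (c (l 16082576) (a (l 16064040) (l 16071184))) (l 16087800)) (l 6)))) (c (b (b (l 16022560) (l 16067296)) (a (c (l 16160880) (l 16149504)) (l 16166352))) (b (l 16021376) (l 16106264))))) (c (b (a (c (l 16013536) (l 16031352)) (c (l 16092656) (l 16094568))) (c (a (b (l 16175384) (l 16137104)) (b (l 16172240) (l 16238984))) (a (l 16084944) (l 16213704)))) (b (c (b (l 16053480) (l 16100368)) (l 16051936)) (c (b (l 16163920) (l 16238544)) (l 16119712)))))), by decide +kernel⟩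

def k9_pp_022 : ∃ t, chk3 f_pp_022 t 5 14 1 = true :=
  ⟨(c (c (b (a (b (l 16119368) (a (c (l 16168576) (l 16115624)) (l 16103952))) (l 16098720)) (b (a (c (b (l 16143104) (l 16108112)) (a (l 16137944) (l 16082584))) (b (l 16101920) (a (c (l 16116512) (l 16120240)) (l 16130528)))) (a (a (c (l 16264576) (l 16222616)) (c (b (l 16183072) (l 16233416)) (l 16043280))) (b (c (a (l 16154424) (l 16159600)) (l 16166584)) (a (l 16149856) (c (l 16207424) (l 16225448))))))) (b (b (l 16092400) (a (c (b (l 16086192) (a (l 16084304) (l 16083216))) (b (l 16082208) (l 16082000))) (b (l 16106088) (l 16104392)))) (b (a (c (a (l 16046664) (l 16105880)) (b (l 16087536) (l 16128008))) (b (l 16106168) (c (l 16134032) (l 16142584)))) (a (c (a (l 16200776) (l 16199744)) (l 16211792)) (b (c (l 16177704) (l 16197904)) (a (l 16250136) (c (l 16246296) (l 16267128)))))))) (b (c (b (a (c (l 16082104) (a (l 16074064) (l 16080296))) (l 16088376)) (a (c (l 16022296) (b (l 16077864) (l 16077696))) (c (b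 (l 16101752) (l 16099816)) (l 16078592)))) (b (a (b (c (l 16056352) (l 16022664)) (c (l 16054448) (l 16022904))) (b (l 16032728) (l 16033208))) (a (b (l 15975008) (l 16044496)) (b (l 16032992) (l 16037712))))) (c (b (a (c (l 15989400) (l 16114760)) (c (b (l 16022272) (l 16143472)) (b (l 16088624) (l 16138808)))) (a (a (c (l 16221736) (l 16212144)) (c (l 16235488) (l 16179256))) (c (b (l 16208088) (l 16277504)) (b (l 16203064) (l 16276248))))) (b (a (b (l 16060712) (l 16111928)) (b (l 16056736) (l 16110760))) (a (b (l 16179688) (l 16258328)) (c (b (l 16188688) (l 16266800)) (l 16213048))))))), by decide +kernel⟩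

def k10_pp_022 : ∃ t, chk3 f_pp_022 t 3 28 1 = true :=
  ⟨(a (c (c (l 16153216) (a (l 16134368) (l 16159680))) (b (l 16071360) (c (a (c (l 16108896) (a (l 16074480) (l 16077688))) (l 16099800)) (a (b (l 16032080) (l 16029896)) (c (l 16050672) (l 16015408)))))) (c (c (a (l 16220104) (l 16216816)) (l 16190584)) (b (l 16098544) (l 16089728)))), by decide +kernel⟩

def k11_pp_022 : ∃ t, chk3 f_pp_022 t 3 29 1 = true :=
  ⟨(b (c (a (c (l 16163656) (a (b (l 16131120) (c (a (l 16148856) (l 16166184)) (a (l 16151320) (l 16155104)))) (l 16164128))) (c (a (l 16226520) (l 16262616)) (l 16191088))) (a (a (c (c (b (l 16105456) (l 16136560)) (b (l 16076224) (l 16114672))) (b (c (l 16050920) (l 16027424)) (c (l 16094992) (l 16086544)))) (c (b (l 16092952) (a (c (l 16106320) (l 16100504)) (b (l 16107936) (l 16100576)))) (b (c (a (l 16041584) (l 16044296)) (l 16015280)) (c (a (l 16080112) (b (l 16058520) (l 16079200))) (a (l 16067000) (b (l 16033952) (l 16062904))))))) (b (l 16079688) (c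 (l 16131480) (a (a (c (l 16047976) (b (a (l 16027984) (l 16028576)) (l 16050520))) (l 16038856)) (l 1)))))) (b (a (c (a (c (a (c (l 16172600) (l 16178448)) (b (l 16185320) (l 16198688))) (a (c (l 16189136) (l 16201968)) (c (l 16175576) (b (l 16181608) (l 16208008))))) (c (l 16220768) (c (l 16214216) (a (l 16190968) (l 16188928))))) (c (a (a (l 16192736) (c (l 16163536) (l 16172280))) (a (c (l 16149224) (b (l 16135688) (l 16173832))) (c (l 16161704) (l 16141968)))) (a (c (l 16170352) (l 16160752)) (a (c (l 16084728) (b (l 16120952) (l 16161616))) (c (l 16131216) (b (l 16103200) (l 16145408))))))) (a (a (c (l 16231408) (c (l 16129240) (l 16090304))) (l 1)) (l 1))) (a (a (c (c (a (c (l 16211336) (l 16229064)) (l 16228552)) (a (c (l 16248952) (l 16268824)) (c (l 16250080) (l 16261496)))) (c (a (c (l 16270560) (l 16262512)) (c (l 16257304) (l 16250872))) (c (a (l 16255824) (b (l 16223360) (l 16267528))) (b (l 16223280) (l 6))))) (a (c (c (l 16240128) (c (l 16248616) (l 16247392)))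 (c (l 16238216) (c (l 16232600) (b (l 16163760) (l 6))))) (l 1))) (l 1)))), by decide +kernel⟩

def k12_pp_022 : ∃ t, chk3 f_pp_022 t 1 15 1 = true :=
  ⟨(a (b (b (c (b (a (a (c (l 16345352) (c (l 16340096) (a (l 16309512) (a (l 16351328) (l 16368624))))) (c (a (c (l 16414040) (l 16400344)) (l 16283504)) (a (c (l 16378096) (l 16347096)) (c (l 16332224) (l 16310488))))) (a (c (a (l 16335704) (c (l 16297880) (l 16287008))) (c (a (l 16298656) (l 16301152)) (l 16316800))) (c (a (c (l 16229624) (l 16291112)) (l 16285936)) (a (c (l 16313560) (l 16336456)) (c (l 16322904) (l 16346856)))))) (c (a (a (a (l 16350360) (l 16400768)) (a (c (l 16447096) (a (l 16435240) (l 16439912))) (l 16299976))) (a (a (c (l 16392440) (l 16357880)) (c (a (l 16350728) (l 16326768)) (a (l 16330768) (l 16329184)))) (c (l 16319760) (l 16345552)))) (a (l 6) (l 6)))) (b (b (c (c (a (a (a (l 16280696) (a (l 16321960) (l 16321760))) (a (l 16277464) (l 16295216))) (a (l 16319960) (a (l 16335920) (l 16338304))))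 (l 6)) (l 6)) (l 6)) (l 6))) (l 6)) (l 6)) (b (a (a (b (c (c (b (c (l 16269624) (l 16300304)) (l 16337424)) (b (c (l 16328512) (l 16348744)) (l 6))) (b (c (c (l 16269080) (l 6)) (l 6)) (l 6))) (l 1)) (l 1)) (l 1)) (l 1))), by decide +kernel⟩

theorem s13_pp_022 : ∃ t, chk3 f_pp_022 t 3 14 1 = true := ex3_b k10_pp_022 k11_pp_022

theorem s14_pp_022 : ∃ t, chk3 f_pp_022 t 4 28 1 = true := ex3_c k6_pp_022 k7_pp_022

theorem s15_pp_022 : ∃ t, chk3 f_pp_022 t 4 14 1 = true := ex3_b s14_pp_022 k8_pp_022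

theorem s16_pp_022 : ∃ t, chk3 f_pp_022 t 2 14 1 = true := ex3_a s15_pp_022 k9_pp_022

theorem s17_pp_022 : ∃ t, chk3 f_pp_022 t 1 14 1 = true := ex3_a s16_pp_022 s13_pp_022

theorem s18_pp_022 : ∃ t, chk3 f_pp_022 t 1 7 1 = true := ex3_b s17_pp_022 k12_pp_022

theorem s19_pp_022 : ∃ t, chk3 f_pp_022 t 2 6 1 = true := ex3_b k3_pp_022 k4_pp_022

theorem s20_pp_022 : ∃ t, chk3 f_pp_022 t 1 6 1 = true := ex3_a s19_pp_022 k5_pp_022

theorem s21_pp_022 : ∃ t, chk3 f_pp_022 t 1 3 1 = true := ex3_b s20_pp_022 s18_pp_022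

theorem s22_pp_022 : ∃ t, chk3 f_pp_022 t 1 4 1 = true := ex3_a k0_pp_022 k1_pp_022

theorem s23_pp_022 : ∃ t, chk3 f_pp_022 t 1 2 1 = true := ex3_b s22_pp_022 k2_pp_022

theorem s24_pp_022 : ∃ t, chk3 f_pp_022 t 1 1 1 = true := ex3_b s23_pp_022 s21_pp_022

theorem c_pp_022 : CertNX 0 67108864 0 536870912 1046898278 26843546 3 false true true .pp 0 2 2
    ndN4q0 ndN0q2 pcN2 cut_pp_022 Ext.none :=
  certNX0 (fam := false) (s1 := true) (s2 := true) (a := 0) (b := 2) (c := 2) (cn := .pp) (n1 := ndN4q0) (n2 := ndN0q2) (pc := pcN2) (cut := cut_pp_022) (xt := Ext.none) (P1 := 0) (W1 := 67108864) (P2 := 0) (W2 := 536870912) (P3 := 1046898278) (W3 := 26843546) (N0 := 3)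
    rfl s24_pp_022

noncomputable def f_pm_001 : ℕ → ℕ → ℕ → ℕ → Bool := onCell 0 67108864 0 536870912 1046898278 26843546
    (rowNX 3 1 false true false .up 0 0 1 (qsf 0 67108864 536870912 536870912 0) ndN4q0 ndN0q1 pcN0 Cut.none Ext.none)

def k0_pm_001 : ∃ t, chk3 f_pm_001 t 1 1 1 = true :=
  ⟨(l 4), by decide +kernel⟩

theorem c_pm_001 : CertNX 0 67108864 536870912 536870912 1046898278 26843546 3 false true false .up 0 0 1
    ndN4q0 ndN0q1 pcN0 Cut.none Ext.none :=
  certNX1 (fam := false) (s1 := true) (s2 := false) (a := 0) (b := 0) (c := 1) (cn := .up) (n1 := ndN4q0) (n2 := ndN0q1) (pc := pcN0) (cut := Cut.none) (xt := Ext.none) (P1 := 0) (W1 := 67108864) (P2 := 536870912) (W2 := 536870912) (P3 := 1046898278) (W3 := 26843546) (N0 := 3)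
    rfl (fun _ => rfl) k0_pm_001

noncomputable def cut_pm_011 : Cut := Cut.of [[⟨0, 0, 0, 67108864⟩, ⟨1, 1, 0, 67108864⟩, ⟨2, 1, 0, 67108864⟩]]

noncomputable def f_pm_011 : ℕ → ℕ → ℕ → ℕ → Bool := onCell 0 67108864 536870912 536870912 1046898278 26843546
    (rowNX 3 0 false true false .pnn 0 1 1 (qsf 0 67108864 536870912 536870912 1) ndN4q0 ndN0q1 pcN1 cut_pm_011 Ext.none)

def k0_pm_011 : ∃ t, chk3 f_pm_011 t 1 1 1 = true :=
  ⟨(b (l 4) (b (l 4) (a (a (b (l 4) (b (l 4) (l 6))) (l 4)) (l 4)))), by decide +kernel⟩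

theorem c_pm_011 : CertNX 0 67108864 536870912 536870912 1046898278 26843546 3 false true false .pnn 0 1 1
    ndN4q0 ndN0q1 pcN1 cut_pm_011 Ext.none :=
  certNX0 (fam := false) (s1 := true) (s2 := false) (a := 0) (b := 1) (c := 1) (cn := .pnn) (n1 := ndN4q0) (n2 := ndN0q1) (pc := pcN1) (cut := cut_pm_011) (xt := Ext.none) (P1 := 0) (W1 := 67108864) (P2 := 536870912) (W2 := 536870912) (P3 := 1046898278) (W3 := 26843546) (N0 := 3)
    rfl k0_pm_011

noncomputable def cut_pm_012 : Cut := Cut.of [[⟨0, 0, 0, 67108864⟩, ⟨1, 1, 0, 67108864⟩, ⟨2, 1, 0, 67108864⟩]]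

noncomputable def f_pm_012 : ℕ → ℕ → ℕ → ℕ → Bool := onCell 0 67108864 0 536870912 1046898278 26843546
    (rowNX 3 0 false true false .pnp 0 1 2 (qsf 0 67108864 0 536870912 1) ndN4q0 ndN0q2 pcN1 cut_pm_012 Ext.none)

def k0_pm_012 : ∃ t, chk3 f_pm_012 t 1 1 1 = true :=
  ⟨(b (l 2) (b (l 2) (a (b (l 2) (l 6)) (b (b (a (l 2) (a (l 2) (b (l 2) (c (c (l 99015442631) (l 15098328)) (b (c (l 15192152) (l 15256072)) (a (l 6) (c (c (l 15178608) (b (l 15187312) (a (l 6) (c (l 15192872) (l 15217760))))) (l 15284632)))))))) (a (l 6) (a (l 6) (a (l 6) (a (l 6) (a (l 6) (a (l 6) (a (l 6) (c (l 4) (c (b (b (c (l 15268096) (c (l 15277616) (l 15298944))) (l 4)) (l 4)) (b (c (b (b (l 15348912) (c (l 15374720) (b (l 15423344) (c (l 15388600) (l 15432208))))) (c (l 15446344) (c (b (l 15451464) (l 4)) (b (b (l 15435648) (l 15437760)) (l 15483272))))) (b (b (l 15407672) (l 15296880)) (b (b (b (l 15513432) (c (l 15484080) (l 15536408))) (c (l 15468064) (b (l 15558784) (l 15529112)))) (l 15527816))))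 (c (l 4) (l 15665032))))))))))))) (a (l 6) (a (l 6) (l 4))))))), by decide +kernel⟩

theorem c_pm_012 : CertNX 0 67108864 0 536870912 1046898278 26843546 3 false true false .pnp 0 1 2
    ndN4q0 ndN0q2 pcN1 cut_pm_012 Ext.none :=
  certNX0 (fam := false) (s1 := true) (s2 := false) (a := 0) (b := 1) (c := 2) (cn := .pnp) (n1 := ndN4q0) (n2 := ndN0q2) (pc := pcN1) (cut := cut_pm_012) (xt := Ext.none) (P1 := 0) (W1 := 67108864) (P2 := 0) (W2 := 536870912) (P3 := 1046898278) (W3 := 26843546) (N0 := 3)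
    rfl k0_pm_012

noncomputable def cut_pm_022 : Cut := Cut.of [[⟨0, 0, 0, 67108864⟩, ⟨1, 1, 0, 67108864⟩, ⟨2, 1, 0, 67108864⟩]]

noncomputable def f_pm_022 : ℕ → ℕ → ℕ → ℕ → Bool := onCell 0 67108864 0 536870912 1046898278 26843546
    (rowNX 3 0 false true false .pp 0 2 2 (qsf 0 67108864 0 536870912 2) ndN4q0 ndN0q2 pcN2 cut_pm_022 Ext.none)

def k0_pm_022 : ∃ t, chk3 f_pm_022 t 1 4 1 = true :=
  ⟨(a (b (a (a (c (b (c (l 16025096) (l 15856800)) (l 15891048)) (c (a (b (l 15894352) (l 15932864)) (b (l 15880232) (l 16024528))) (a (b (c (l 15871904) (l 15856112)) (c (l 15905688) (l 15781768))) (b (l 16006744) (l 16019480))))) (c (b (a (c (l 16241560) (l 16206944)) (a (l 16179472) (b (c (l 16334744) (l 16336400)) (l 16353904)))) (a (l 16083456) (c (l 16335744) (l 16339928)))) (a (c (b (l 16129512) (l 16210688)) (b (l 16161688) (l 16196112))) (b (c (a (l 16272832) (l 16316384)) (a (l 16276696) (l 16336128))) (c (l 16320424) (a (l 16199640) (l 16339016))))))) (c (c (a (l 16320728)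 (l 16367776)) (b (l 16248208) (l 16356000))) (b (c (l 16370288) (l 16355656)) (l 16325736)))) (a (c (a (a (l 16004152) (b (l 16161512) (l 16091840))) (b (a (c (l 16327184) (l 16314816)) (c (l 16323240) (l 16362944))) (a (c (l 16334752) (l 16372256)) (l 16252840)))) (a (c (a (l 16014008) (b (a (l 16138480) (l 16183944)) (a (l 16249600) (l 16282168)))) (a (c (l 15925808) (l 15781256)) (b (l 16101648) (c (l 16235040) (l 16226240))))) (c (b (a (l 16256968) (l 16342720)) (l 16158104)) (b (l 16167856) (l 16331304))))) (c (a (b (l 16245312) (l 16273168)) (l 16264480)) (c (l 16310280) (l 16354712))))) (c (a (b (c (l 16300480) (l 16302160)) (b (l 16218608) (l 16077112))) (b (c (a (l 16220912) (l 16139672)) (l 16236480)) (c (c (l 15879336) (l 16050928)) (l 16077712)))) (b (a (b (l 16291856) (l 16319640)) (l 16244352)) (a (b (l 16265776) (l 16210144)) (l 16105160))))), by decide +kernel⟩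

def k1_pm_022 : ∃ t, chk3 f_pm_022 t 1 5 1 = true :=
  ⟨(a (a (b (c (a (b (a (l 16176984) (l 16218344)) (l 16189208)) (c (a (l 16315200) (l 16292504)) (a (l 16358016) (l 16353688)))) (a (b (a (c (l 16151312) (a (b (l 16147936) (l 16201160)) (c (l 16268176) (l 16246280)))) (c (a (l 16336416) (l 16354824)) (l 16213016))) (a (c (l 16331808) (a (l 16208024) (l 16317496))) (c (l 16381928) (l 16335080)))) (c (l 16238968) (l 16380736)))) (c (a (c (l 16331008) (l 16100112)) (c (b (l 16235552) (l 16066680)) (a (l 16222984) (l 16159080)))) (a (c (a (l 16304264) (b (l 16381304) (l 16319448))) (a (c (b (l 16363752) (l 16403184)) (b (l 16323392) (l 16231704))) (b (l 16398296) (l 16363736)))) (c (b (l 16326312) (l 16251000)) (l 16107056))))) (c (b (a (c (l 16283040) (l 16307320)) (b (l 16241192) (l 16176728))) (a (b (c (l 16183152) (l 16212536)) (c (l 16104032) (l 16136696))) (b (l 16106416) (l 15916224)))) (b (b (l 16300936) (l 16167856)) (b (a (l 16231864) (l 16134560)) (l 15931608)))))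 (c (b (a (b (l 16056440) (c (l 16028744) (l 16031864))) (c (a (b (l 15968872) (l 15793496)) (c (b (l 15913280) (l 15782096)) (l 15618816))) (l 15723080))) (a (c (b (c (l 15885376) (l 15954184)) (a (c (l 15936240) (l 15929904)) (b (l 15710616) (l 15617232)))) (b (l 15962456) (l 15810592))) (c (b (a (c (l 15777000) (l 15801544)) (c (l 15704272) (l 15702400))) (c (a (l 15719984) (l 15544472)) (a (l 15705784) (l 15568184)))) (b (l 15650688) (c (l 15570160) (l 15629360)))))) (b (a (b (l 16150184) (l 16086040)) (b (l 16029864) (l 15937232))) (a (b (l 16019256) (l 15764536)) (b (l 15823120) (l 15685840)))))), by decide +kernel⟩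

def k2_pm_022 : ∃ t, chk3 f_pm_022 t 2 12 1 = true :=
  ⟨(c (a (b (a (a (l 16251392) (l 16039016)) (c (l 15937304) (a (l 16132184) (l 16119872)))) (a (c (l 16044016) (l 16012136)) (c (c (a (l 15995176) (b (l 15972656) (l 15973184))) (l 15999232)) (a (l 16061320) (l 16048032))))) (c (b (a (l 15851408) (c (b (l 16007408) (l 15870120)) (l 15962592))) (a (c (b (l 15823224) (a (l 15979192) (l 15977176))) (b (l 15990104) (a (l 15962096) (l 15939216)))) (b (c (l 15743744) (l 15901408)) (c (l 15892432) (l 15865768))))) (b (l 15886672) (a (a (l 16014872) (l 15954096)) (l 15802336))))) (a (a (c (b (a (l 16291576) (b (l 16206144) (l 16160256))) (a (l 16205208) (c (l 16137376) (l 16170120)))) (b (a (c (a (l 16334288) (l 16300696)) (a (l 16228048) (l 16325576))) (c (l 16267712) (l 16282848))) (a (c (a (l 16247544) (l 16222152)) (a (c (l 16263544) (l 16212104)) (l 16249592))) (c (l 16197768) (l 16214944))))) (b (c (l 16088456) (l 16201824)) (c (l 16061328) (l 16136136)))) (b (a (l 16095768)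 (l 15997496)) (a (b (l 16039040) (l 15841272)) (l 15757408))))), by decide +kernel⟩

def k3_pm_022 : ∃ t, chk3 f_pm_022 t 4 13 2 = true :=
  ⟨(b (c (a (c (b (l 15999064) (c (a (l 16201616) (l 16137440)) (a (l 16162576) (l 16101296)))) (b (l 16078064) (a (l 16160960) (l 16079528)))) (b (c (a (c (l 16004608) (l 15965840)) (b (l 15956600) (l 15976640))) (a (l 15965000) (l 15945896))) (a (c (b (l 15914304) (l 16064112)) (a (l 16018896) (l 15995752))) (c (l 15997632) (l 15903608))))) (a (a (l 16166144) (b (l 16065264) (l 16041472))) (a (b (l 16020832) (l 16050264)) (b (l 15999096) (l 16019208))))) (c (a (b (c (a (b (c (l 16268904) (l 16224144)) (l 16237648)) (l 16152600)) (a (b (l 16197720) (l 16206832)) (c (l 16072224) (l 16120168)))) (c (l 16074976) (c (a (l 16173160) (l 16213304)) (a (l 16245304) (b (l 16180296) (l 16215208)))))) (c (a (b (l 16077360) (l 16068400)) (l 15989288)) (b (a (c (l 15975616) (a (l 16058952) (l 16053424))) (l 16004992)) (a (a (l 16089424) (l 16098240))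 (l 16071216))))) (a (b (a (l 16229792) (l 16135336)) (c (c (l 16084680) (l 16205256)) (l 16201704))) (c (b (a (l 16053872) (l 16041304)) (a (c (b (l 16083344) (l 16046952)) (l 16094704)) (c (l 16101960) (l 16102384)))) (a (l 16107976) (l 15992680)))))), by decide +kernel⟩

def k4_pm_022 : ∃ t, chk3 f_pm_022 t 5 13 2 = true :=
  ⟨(c (b (a (c (b (a (l 15958376) (l 15941800)) (l 15951040)) (b (c (a (l 15957616) (l 15943896)) (l 15840192)) (a (l 15935632) (l 15961712)))) (c (l 15813384) (b (l 15805848) (l 15835216)))) (a (c (l 15932432) (b (a (l 16028280) (l 15977672)) (l 15992184))) (l 15812392))) (b (c (a (b (l 15914880) (a (l 15971152) (l 15934432))) (b (l 15693312) (l 15629872))) (b (l 15838112) (l 15855176))) (a (c (b (a (c (l 15994224) (l 16005608)) (l 15883320)) (a (c (l 16079584) (l 15924512)) (l 15991560))) (b (l 15957224) (c (a (l 16052512) (l 15978736)) (l 15985440)))) (c (b (l 15691680) (l 15835576)) (b (c (l 15823248) (l 15794008)) (c (l 15851456) (l 15609376))))))),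 by decide +kernel⟩

def k5_pm_022 : ∃ t, chk3 f_pm_022 t 2 13 3 = true :=
  ⟨(a (a (b (c (a (l 16056184) (b (c (l 16104872) (l 16139568)) (a (l 16155128) (c (l 16134408) (l 16180400))))) (a (c (a (l 16251112) (b (l 16197392) (l 16247944))) (a (c (b (l 16241728) (l 16295680)) (b (l 16233160) (l 16267136))) (b (l 16226752) (l 16279320)))) (b (c (l 16169072) (l 16187888)) (c (l 16151664) (l 16235104))))) (c (a (b (a (l 16295240) (l 16248296)) (l 16303944)) (a (c (l 16204184) (l 16242368)) (c (l 16176984) (l 16224632)))) (a (c (b (a (l 16285624) (b (l 16242608) (l 16300784))) (a (l 16362464) (l 16323648))) (b (a (c (b (l 16337576) (l 16359096)) (a (b (l 16358680) (l 16340280)) (l 16313632))) (b (l 16296368) (l 16334024))) (a (c (l 16383264) (a (l 16364912) (l 16389952))) (l 16357416)))) (c (a (l 16219368) (l 16248632)) (l 16264504))))) (b (c (b (a (l 16091296) (l 16038712)) (a (l 15997776) (l 16060088))) (b (a (l 16126000) (l 16065920)) (l 16062528))) (c (a (l 16099048) (l 16094808))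 (l 16163672)))) (b (c (a (l 15932112) (l 15777136)) (l 15899784)) (c (c (a (l 15965176) (b (l 15788176) (c (l 15807112) (l 15810640)))) (l 15898064)) (l 15936888)))), by decide +kernel⟩

def k6_pm_022 : ∃ t, chk3 f_pm_022 t 3 6 1 = true :=
  ⟨(b (c (a (b (c (a (b (c (l 15923336) (l 15867096)) (c (l 15871592) (l 15839240))) (c (l 15739024) (l 15722144))) (a (l 15824904) (c (l 15707960) (l 15688848)))) (c (c (l 15622536) (a (b (l 15780192) (l 15713536)) (l 15550472))) (c (a (l 15693032) (b (l 15603728) (l 15534280))) (l 15382504)))) (c (b (c (l 15462080) (a (l 15565624) (l 15397256))) (l 15047352)) (b (c (a (l 15566760) (l 15428136)) (l 15498072)) (b (c (l 15127344) (l 15177984)) (a (c (l 15361032) (l 15389664)) (l 15197832)))))) (a (b (l 15625200) (l 15667128)) (b (l 15533608) (a (l 15449040) (c (l 15163792) (l 15314408)))))) (c (c (a (b (b (l 15535768) (l 15528760)) (l 15527920)) (b (l 15143760) (l 15165736))) (a (b (c (a (b (l 15641928) (l 15649040)) (l 15322920)) (a (b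 (l 15603416) (l 15511736)) (b (l 15478088) (l 15485304)))) (c (a (l 15636784) (l 15443936)) (a (b (c (l 15658024) (l 15655216)) (l 15648808)) (l 15469544)))) (b (c (l 15205048) (a (b (l 15307904) (l 15311736)) (l 15150624))) (l 15208704)))) (c (b (a (c (a (l 15614432) (l 15482672)) (l 15565344)) (c (a (b (l 15338416) (c (l 15321168) (l 15345088))) (b (c (l 15167960) (l 15188472)) (l 15165536))) (b (l 15265728) (a (l 15357384) (l 14985424))))) (a (c (a (b (l 15659152) (c (l 15635000) (l 15678536))) (b (c (l 15507936) (l 15509352)) (c (l 15504080) (l 15425496)))) (a (l 15669176) (b (l 15527144) (l 15303504)))) (c (a (b (l 15332480) (l 15339064)) (l 15164088)) (a (b (l 15361192) (c (l 15356536) (l 15152504))) (b (c (l 15182768) (l 15189472)) (l 15189112)))))) (a (l 15551784) (b (l 15290488) (c (a (l 15287832) (b (l 15210144) (c (l 15120408) (l 15210216)))) (l 15307640))))))), by decide +kernel⟩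

def k7_pm_022 : ∃ t, chk3 f_pm_022 t 2 56 1 = true :=
  ⟨(c (a (c (a (c (l 16241112) (b (a (l 16165528) (l 16235712)) (l 16167048))) (a (c (l 16052376) (l 16055936)) (l 16020168))) (a (c (c (a (b (l 16292280) (l 16261792)) (b (l 16226136) (l 16260184))) (a (l 16296672) (b (l 16187760) (l 16156064)))) (a (l 16303392) (a (l 16224840) (l 16181856)))) (c (a (c (a (l 16177504) (l 16159208)) (b (a (l 16140512) (l 16151072)) (l 16186048))) (l 16050792)) (a (l 16143520) (c (b (l 16058392) (l 16129944)) (l 16134760)))))) (c (a (l 15868328) (l 15809352)) (c (a (c (l 16028000) (l 15848976)) (l 15832160)) (a (c (a (l 16079240) (l 16013784)) (b (l 15988752) (l 15886192))) (c (l 15853264) (l 15676592)))))) (a (a (c (a (l 16336792) (c (l 16237560) (l 16193120))) (a (c (a (l 16396656) (l 16294080)) (a (c (l 16376000) (c (l 16366144) (l 16373664))) (l 16349568))) (c (l 16310928) (l 16333472)))) (c (a (l 16205640) (l 16136264)) (l 16207632))) (c (c (a (c (a (l 16049992) (l 15985464)) (l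 16003136)) (c (a (l 15904488) (l 15821312)) (a (l 15893480) (l 15819016)))) (l 15788936)) (l 15973624)))), by decide +kernel⟩

def k8_pm_022 : ∃ t, chk3 f_pm_022 t 2 57 1 = true :=
  ⟨(b (b (b (b (c (a (c (a (l 16175568) (a (l 16083296) (l 16012344))) (a (c (c (l 16321392) (a (l 16324920) (l 16260000))) (c (l 16186120) (l 16277016))) (c (a (l 16173464) (l 16149760)) (a (c (l 16199312) (l 16181328)) (c (l 16195536) (l 16162248)))))) (a (c (l 15949944) (c (l 16029272) (l 16065416))) (l 15778432))) (a (a (c (a (l 16355576) (c (l 16255192) (l 16295104))) (a (c (a (l 16416184) (l 16376064)) (a (c (l 16437736) (a (l 16420208) (l 16444656))) (l 16410992))) (c (l 16329432) (l 16352280)))) (c (l 16058176) (l 16224968))) (c (c (a (c (l 16049992) (l 16019048)) (c (l 15882928) (l 15879648))) (l 15909520)) (l 15988312)))) (l 6)) (l 6)) (l 6)) (l 6)), by decide +kernel⟩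

def k9_pm_022 : ∃ t, chk3 f_pm_022 t 2 29 1 = true :=
  ⟨(l 6), by decide +kernel⟩

def k10_pm_022 : ∃ t, chk3 f_pm_022 t 2 15 1 = true :=
  ⟨(l 6), by decide +kernel⟩

def k11_pm_022 : ∃ t, chk3 f_pm_022 t 3 7 1 = true :=
  ⟨(b (b (c (a (c (l 15555104) (a (l 15655384) (l 15469576))) (c (l 15137712) (l 15234080))) (b (c (a (c (a (c (l 15678696) (a (l 15746208) (l 15650952))) (l 15516048)) (a (a (l 15754312) (l 15506456)) (c (l 15534656) (a (l 15597672) (l 15504672))))) (a (l 15351992) (l 15181264))) (a (a (l 15736984) (l 15473760)) (c (a (c (a (l 15429368) (l 15346136)) (a (l 15444704) (l 15352872))) (c (l 15216544) (l 15016088))) (a (l 15423400) (c (b (l 15227632) (l 15176016)) (l 15241352)))))) (b (a (b (b (c (c (l 15606224) (a (l 15623856) (l 15548288))) (a (l 15750040) (l 15502808))) (l 6)) (l 6)) (c (l 15278504) (a (b (c (l 15170848) (l 15422800)) (l 6)) (c (l 15229248) (c (l 15247624) (a (l 15300856) (l 15213984))))))) (a (l 6) (a (l 6) (a (l 6) (l 15186256)))))))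 (a (l 6) (a (l 6) (a (l 6) (l 1))))) (a (l 6) (l 1))), by decide +kernel⟩

theorem s12_pm_022 : ∃ t, chk3 f_pm_022 t 2 28 1 = true := ex3_b k7_pm_022 k8_pm_022

theorem s13_pm_022 : ∃ t, chk3 f_pm_022 t 2 14 1 = true := ex3_b s12_pm_022 k9_pm_022

theorem s14_pm_022 : ∃ t, chk3 f_pm_022 t 2 7 1 = true := ex3_b s13_pm_022 k10_pm_022

theorem s15_pm_022 : ∃ t, chk3 f_pm_022 t 1 7 1 = true := ex3_a s14_pm_022 k11_pm_022

theorem s16_pm_022 : ∃ t, chk3 f_pm_022 t 2 13 2 = true := ex3_a k3_pm_022 k4_pm_022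

theorem s17_pm_022 : ∃ t, chk3 f_pm_022 t 2 13 1 = true := ex3_c s16_pm_022 k5_pm_022

theorem s18_pm_022 : ∃ t, chk3 f_pm_022 t 2 6 1 = true := ex3_b k2_pm_022 s17_pm_022

theorem s19_pm_022 : ∃ t, chk3 f_pm_022 t 1 6 1 = true := ex3_a s18_pm_022 k6_pm_022

theorem s20_pm_022 : ∃ t, chk3 f_pm_022 t 1 3 1 = true := ex3_b s19_pm_022 s15_pm_022

theorem s21_pm_022 : ∃ t, chk3 f_pm_022 t 1 2 1 = true := ex3_b k0_pm_022 k1_pm_022

theorem s22_pm_022 : ∃ t, chk3 f_pm_022 t 1 1 1 = true := ex3_b s21_pm_022 s20_pm_022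

theorem c_pm_022 : CertNX 0 67108864 0 536870912 1046898278 26843546 3 false true false .pp 0 2 2
    ndN4q0 ndN0q2 pcN2 cut_pm_022 Ext.none :=
  certNX0 (fam := false) (s1 := true) (s2 := false) (a := 0) (b := 2) (c := 2) (cn := .pp) (n1 := ndN4q0) (n2 := ndN0q2) (pc := pcN2) (cut := cut_pm_022) (xt := Ext.none) (P1 := 0) (W1 := 67108864) (P2 := 0) (W2 := 536870912) (P3 := 1046898278) (W3 := 26843546) (N0 := 3)
    rfl s22_pm_022

noncomputable def f_mm_001 : ℕ → ℕ → ℕ → ℕ → Bool := onCell 0 67108864 536870912 536870912 1046898278 26843546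
    (rowNX 3 0 false false false .up 0 0 1 (qsf 0 67108864 536870912 536870912 0) ndN4q0 ndN0q1 pcN0 Cut.none Ext.none)

def k0_mm_001 : ∃ t, chk3 f_mm_001 t 1 1 1 = true :=
  ⟨(l 5), by decide +kernel⟩

theorem c_mm_001 : CertNX 0 67108864 536870912 536870912 1046898278 26843546 3 false false false .up 0 0 1
    ndN4q0 ndN0q1 pcN0 Cut.none Ext.none :=
  certNX0 (fam := false) (s1 := false) (s2 := false) (a := 0) (b := 0) (c := 1) (cn := .up) (n1 := ndN4q0) (n2 := ndN0q1) (pc := pcN0) (cut := Cut.none) (xt := Ext.none) (P1 := 0) (W1 := 67108864) (P2 := 536870912) (W2 := 536870912) (P3 := 1046898278) (W3 := 26843546) (N0 := 3)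
    rfl k0_mm_001

noncomputable def f_mm_011 : ℕ → ℕ → ℕ → ℕ → Bool := onCell 0 67108864 536870912 536870912 1046898278 26843546
    (rowNX 3 0 false false false .pnn 0 1 1 (qsf 0 67108864 536870912 536870912 1) ndN4q0 ndN0q1 pcN1 Cut.none Ext.none)

def k0_mm_011 : ∃ t, chk3 f_mm_011 t 1 1 1 = true :=
  ⟨(l 5), by decide +kernel⟩

theorem c_mm_011 : CertNX 0 67108864 536870912 536870912 1046898278 26843546 3 false false false .pnn 0 1 1
    ndN4q0 ndN0q1 pcN1 Cut.none Ext.none :=
  certNX0 (fam := false) (s1 := false) (s2 := false) (a := 0) (b := 1) (c := 1) (cn := .pnn) (n1 := ndN4q0) (n2 := ndN0q1) (pc := pcN1) (cut := Cut.none) (xt := Ext.none) (P1 := 0) (W1 := 67108864) (P2 := 536870912) (W2 := 536870912) (P3 := 1046898278) (W3 := 26843546) (N0 := 3)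
    rfl k0_mm_011

noncomputable def f_mm_012 : ℕ → ℕ → ℕ → ℕ → Bool := onCell 0 67108864 0 536870912 1046898278 26843546
    (rowNX 3 0 false false false .pnp 0 1 2 (qsf 0 67108864 0 536870912 1) ndN4q0 ndN0q2 pcN1 Cut.none Ext.none)

def k0_mm_012 : ∃ t, chk3 f_mm_012 t 1 1 1 = true :=
  ⟨(l 5), by decide +kernel⟩

theorem c_mm_012 : CertNX 0 67108864 0 536870912 1046898278 26843546 3 false false false .pnp 0 1 2
    ndN4q0 ndN0q2 pcN1 Cut.none Ext.none :=
  certNX0 (fam := false) (s1 := false) (s2 := false) (a := 0) (b := 1) (c := 2) (cn := .pnp) (n1 := ndN4q0) (n2 := ndN0q2) (pc := pcN1) (cut := Cut.none) (xt := Ext.none) (P1 := 0) (W1 := 67108864) (P2 := 0) (W2 := 536870912) (P3 := 1046898278) (W3 := 26843546) (N0 := 3)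
    rfl k0_mm_012

noncomputable def f_mm_022 : ℕ → ℕ → ℕ → ℕ → Bool := onCell 0 67108864 0 536870912 1046898278 26843546
    (rowNX 3 0 false false false .pp 0 2 2 (qsf 0 67108864 0 536870912 2) ndN4q0 ndN0q2 pcN2 Cut.none Ext.none)

def k0_mm_022 : ∃ t, chk3 f_mm_022 t 1 1 1 = true :=
  ⟨(l 5), by decide +kernel⟩

theorem c_mm_022 : CertNX 0 67108864 0 536870912 1046898278 26843546 3 false false false .pp 0 2 2
    ndN4q0 ndN0q2 pcN2 Cut.none Ext.none :=
  certNX0 (fam := false) (s1 := false) (s2 := false) (a := 0) (b := 2) (c := 2) (cn := .pp) (n1 := ndN4q0) (n2 := ndN0q2) (pc := pcN2) (cut := Cut.none) (xt := Ext.none) (P1 := 0) (W1 := 67108864) (P2 := 0) (W2 := 536870912) (P3 := 1046898278) (W3 := 26843546) (N0 := 3)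
    rfl k0_mm_022

end Pool.Agent.Strip051.G.IE1.Tab.C.NB40

namespace Pool.Agent.Strip051.G.IE1.Tab.C.NB41

open Pool.Agent.Strip051.PB Pool.Agent.Strip051.PB.T
open Pool.Agent.Strip051.G.IE1.Tab

noncomputable def f_pp_001 : ℕ → ℕ → ℕ → ℕ → Bool := onCell 0 67108864 536870912 536870912 1046898278 26843546
    (rowNX 3 0 false true true .up 0 0 1 (qsf 0 67108864 536870912 536870912 0) ndN4q0 ndN1q1 pcN0 Cut.none Ext.none)

def k0_pp_001 : ∃ t, chk3 f_pp_001 t 1 1 1 = true :=
  ⟨(l 3), by decide +kernel⟩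

theorem c_pp_001 : CertNX 0 67108864 536870912 536870912 1046898278 26843546 3 false true true .up 0 0 1
    ndN4q0 ndN1q1 pcN0 Cut.none Ext.none :=
  certNX0 (fam := false) (s1 := true) (s2 := true) (a := 0) (b := 0) (c := 1) (cn := .up) (n1 := ndN4q0) (n2 := ndN1q1) (pc := pcN0) (cut := Cut.none) (xt := Ext.none) (P1 := 0) (W1 := 67108864) (P2 := 536870912) (W2 := 536870912) (P3 := 1046898278) (W3 := 26843546) (N0 := 3)
    rfl k0_pp_001

noncomputable def f_pp_011 : ℕ → ℕ → ℕ → ℕ → Bool := onCell 0 67108864 536870912 536870912 1046898278 26843546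
    (rowNX 3 0 false true true .pnn 0 1 1 (qsf 0 67108864 536870912 536870912 1) ndN4q0 ndN1q1 pcN1 Cut.none Ext.none)

def k0_pp_011 : ∃ t, chk3 f_pp_011 t 1 1 1 = true :=
  ⟨(l 3), by decide +kernel⟩

theorem c_pp_011 : CertNX 0 67108864 536870912 536870912 1046898278 26843546 3 false true true .pnn 0 1 1
    ndN4q0 ndN1q1 pcN1 Cut.none Ext.none :=
  certNX0 (fam := false) (s1 := true) (s2 := true) (a := 0) (b := 1) (c := 1) (cn := .pnn) (n1 := ndN4q0) (n2 := ndN1q1) (pc := pcN1) (cut := Cut.none) (xt := Ext.none) (P1 := 0) (W1 := 67108864) (P2 := 536870912) (W2 := 536870912) (P3 := 1046898278) (W3 := 26843546) (N0 := 3)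
    rfl k0_pp_011

noncomputable def f_pp_012_a : ℕ → ℕ → ℕ → ℕ → Bool := onCell 0 67108864 0 420477299 1046898278 26843546
    (rowNX 3 0 false true true .pnp 0 1 2 (qsf 0 67108864 0 420477299 1) ndN4q0 ndN1q2a pcN1 Cut.none Ext.none)

def k0_pp_012_a : ∃ t, chk3 f_pp_012_a t 1 1 1 = true :=
  ⟨(b (l 2) (b (l 2) (a (l 2) (b (l 2) (b (l 2) (b (l 2) (a (l 2) (a (l 2) (a (l 2) (c (l 16658944) (l 16612336))))))))))), by decide +kernel⟩

theorem c_pp_012_a : CertNX 0 67108864 0 420477299 1046898278 26843546 3 false true true .pnp 0 1 2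
    ndN4q0 ndN1q2a pcN1 Cut.none Ext.none :=
  certNX0 (fam := false) (s1 := true) (s2 := true) (a := 0) (b := 1) (c := 2) (cn := .pnp) (n1 := ndN4q0) (n2 := ndN1q2a) (pc := pcN1) (cut := Cut.none) (xt := Ext.none) (P1 := 0) (W1 := 67108864) (P2 := 0) (W2 := 420477299) (P3 := 1046898278) (W3 := 26843546) (N0 := 3)
    rfl k0_pp_012_a

noncomputable def f_pp_012_b : ℕ → ℕ → ℕ → ℕ → Bool := onCell 0 67108864 1239849684 370763052 1046898278 26843546
    (rowNX 3 0 false true true .pnp 0 1 2 (qsf 0 67108864 1239849684 370763052 1) ndN4q0 ndN1q2b pcN1 Cut.none Ext.none)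

def k0_pp_012_b : ∃ t, chk3 f_pp_012_b t 1 1 1 = true :=
  ⟨(l 2), by decide +kernel⟩

theorem c_pp_012_b : CertNX 0 67108864 1239849684 370763052 1046898278 26843546 3 false true true .pnp 0 1 2
    ndN4q0 ndN1q2b pcN1 Cut.none Ext.none :=
  certNX0 (fam := false) (s1 := true) (s2 := true) (a := 0) (b := 1) (c := 2) (cn := .pnp) (n1 := ndN4q0) (n2 := ndN1q2b) (pc := pcN1) (cut := Cut.none) (xt := Ext.none) (P1 := 0) (W1 := 67108864) (P2 := 1239849684) (W2 := 370763052) (P3 := 1046898278) (W3 := 26843546) (N0 := 3)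
    rfl k0_pp_012_b

noncomputable def f_pp_022_a : ℕ → ℕ → ℕ → ℕ → Bool := onCell 0 67108864 0 420477299 1046898278 26843546
    (rowNX 3 0 false true true .pp 0 2 2 (qsf 0 67108864 0 420477299 2) ndN4q0 ndN1q2a pcN2 Cut.none Ext.none)

def k0_pp_022_a : ∃ t, chk3 f_pp_022_a t 2 4 1 = true :=
  ⟨(a (a (c (b (l 15924432) (l 15943640)) (c (a (l 15808272) (b (l 16031512) (a (l 16190872) (l 16260296)))) (a (b (c (l 15939736) (l 15882680)) (c (l 16005240) (l 15886360))) (b (l 16077488) (l 16102536))))) (b (c (a (l 16142512) (a (b (l 16343992) (l 16316912)) (b (l 16308328) (l 16300712)))) (a (c (l 16240608) (l 16234816)) (a (c (l 16342712) (l 16350936)) (b (l 16317784) (l 16309912))))) (c (a (b (l 16197440) (a (l 16204728) (c (l 16252416) (l 16311488)))) (b (c (l 16281248) (l 16218968)) (l 16256336))) (a (b (c (l 16308528) (l 16304128)) (c (a (l 16347448) (l 16338864)) (l 16189704))) (b (c (l 16326232) (l 16316712)) (l 16338552)))))) (c (a (b (l 16270000) (l 16244712)) (l 16338856))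 (b (l 16335840) (l 16354504)))), by decide +kernel⟩

def k1_pp_022_a : ∃ t, chk3 f_pp_022_a t 2 5 1 = true :=
  ⟨(a (b (a (b (c (a (l 16216616) (b (l 16369304) (l 16157176))) (a (c (l 16201752) (a (l 16079176) (l 16161288))) (c (a (l 16327608) (b (l 16366120) (l 16335760))) (a (l 16289272) (l 16264544))))) (c (a (l 16182864) (a (l 16338448) (l 16320440))) (a (c (l 16108528) (a (l 16184872) (c (l 16196192) (l 16242296)))) (c (a (b (l 16346560) (l 16343120)) (l 16345728)) (a (b (l 16365880) (l 16364784)) (l 16367088)))))) (c (a (b (a (c (l 16286640) (l 16304792)) (l 16303360)) (l 16335568)) (l 16154144)) (a (b (c (a (l 16342264) (l 16349168)) (l 16342544)) (l 16293320)) (l 16368280)))) (a (c (b (a (l 16281344) (l 16368184)) (l 16385104)) (a (b (c (b (l 16335464) (l 16386120)) (a (b (a (l 16351928) (l 16311304)) (l 16371112)) (c (l 16379856) (l 16363272)))) (c (l 16361704) (c (l 16347248) (l 16335880)))) (c (l 16311048) (l 16340432)))) (c (a (l 16242592) (c (l 16411320) (l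 16341480))) (c (l 16339376) (l 16332952))))) (c (a (c (b (l 16380872) (l 16331864)) (l 16193928)) (b (l 16360696) (l 16308272))) (b (l 16376416) (l 16321408)))), by decide +kernel⟩

def k2_pp_022_a : ∃ t, chk3 f_pp_022_a t 3 2 1 = true :=
  ⟨(b (c (a (b (l 16379552) (l 16401712)) (a (l 16406976) (l 16275456))) (a (l 16395520) (l 16409568))) (a (c (b (l 16391040) (l 16335008)) (l 16238752)) (c (b (c (l 16427680) (l 16414296)) (c (a (l 16365496) (l 16396968)) (l 16365160))) (b (l 16367776) (l 16273208))))), by decide +kernel⟩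

def k3_pp_022_a : ∃ t, chk3 f_pp_022_a t 1 6 1 = true :=
  ⟨(a (a (c (a (b (l 16281224) (l 16144224)) (a (b (l 16142904) (c (l 16245944) (l 16191880))) (c (l 16085368) (b (l 16239112) (l 16138944))))) (a (c (a (l 16068848) (b (c (l 16306760) (l 16281232)) (l 16023288))) (a (b (c (l 16280896) (a (l 16250872) (l 16263104))) (c (l 16135992) (a (l 16104360) (l 16136880)))) (b (c (l 16262472) (l 16257136)) (l 16087912)))) (c (b (l 16248640) (l 16089584)) (b (l 16246584) (l 16118360))))) (c (b (a (c (a (l 16270376) (l 16225336)) (l 16232512)) (l 16223824)) (a (c (l 16090072) (l 16109472)) (l 16062208))) (b (l 16169624) (c (l 16099056) (l 16094728))))) (a (b (c (a (l 16243200) (l 16220952)) (l 16224576)) (c (c (l 16148632) (l 16073856)) (l 16050192))) (c (b (a (l 16252288) (c (l 16353376) (l 16322672))) (c (l 16033744) (l 16217224))) (b (l 16228480) (l 16150728))))), by decide +kernel⟩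

def k4_pp_022_a : ∃ t, chk3 f_pp_022_a t 2 14 1 = true :=
  ⟨(a (c (a (b (l 16109856) (l 16132120)) (a (b (c (l 16148816) (l 16091600)) (l 15938984)) (c (l 16026928) (b (l 16037800) (l 16063176))))) (b (a (c (a (l 16074384) (c (l 16083608) (l 16054536))) (a (c (l 16052912) (a (l 16019856) (l 16030920))) (l 16024016))) (c (l 16027608) (l 16011152))) (c (a (c (l 16059176) (a (b (l 16082072) (a (l 16085552) (l 16101432))) (l 16075408))) (l 16050352)) (a (a (c (b (l 16064672) (a (b (l 16071672) (l 16060112)) (b (l 16074016) (c (l 16086992) (l 16061816))))) (a (b (c (l 16052632) (c (l 16043880) (l 16015648))) (b (c (l 16049112) (l 16020240)) (l 15908240))) (b (l 15953704) (c (l 15976080) (l 16019160))))) (b (l 16035200) (c (c (l 16057904) (l 16049712)) (b (l 16039120) (l 16035000))))) (b (l 16022584) (c (l 16051016) (a (l 16032728) (l 16028544)))))))) (c (a (b (c (l 16016904) (l 16011600)) (c (l 16069304) (l 16040384))) (b (l 16017408) (l 16048576))) (b (c (l 16021616) (l 15991744))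 (l 16027992)))), by decide +kernel⟩

def k5_pp_022_a : ∃ t, chk3 f_pp_022_a t 4 15 2 = true :=
  ⟨(b (b (a (c (l 16176584) (c (l 16163768) (a (b (l 16136152) (l 16138784)) (l 16162584)))) (a (l 16089856) (l 15966536))) (a (c (c (a (l 16191808) (l 16221704)) (a (b (l 16177144) (l 16184048)) (l 16209464))) (c (a (b (l 16160896) (l 16161744)) (l 16194440)) (a (l 16004864) (b (l 16089408) (l 16112992))))) (c (l 16153392) (a (c (a (l 16207744) (l 16185168)) (l 16126096)) (c (l 16136856) (a (b (l 16101896) (l 16091680)) (l 16090888))))))) (a (b (a (c (c (b (l 16208160) (l 16213000)) (l 16183944)) (l 16121864)) (c (b (l 16187512) (a (l 16230416) (b (l 16248192) (c (l 16263480) (l 16243712))))) (a (l 16178616) (b (l 16112408) (c (l 16213584) (l 16110992)))))) (a (b (c (a (l 16174568) (l 16204344)) (l 16100480)) (c (a (b (l 16176432) (l 16179352)) (l 16101256)) (a (l 16050264) (l 16146168)))) (c (b (a (b (l 16211712) (l 16231016)) (l 16255632)) (l 16244104)) (a (b (l 16170344) (l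 16175424)) (l 16194256))))) (c (b (a (b (a (a (l 16252304) (l 16260960)) (l 16259112)) (a (c (l 16275400) (l 16260472)) (c (l 16289232) (l 16258000)))) (c (l 16257792) (l 16207752))) (a (c (c (l 16302112) (l 16292552)) (a (l 16268080) (l 16270624))) (c (l 16280856) (l 16231008)))) (a (b (b (a (c (a (l 16228240) (l 16223112)) (l 16173072)) (b (l 16150104) (l 16175072))) (a (c (l 16227464) (l 16167160)) (l 16177664))) (l 16166304)) (b (c (l 16156672) (l 16117736)) (c (l 16177312) (l 16127448))))))), by decide +kernel⟩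

def k6_pp_022_a : ∃ t, chk3 f_pp_022_a t 4 30 3 = true :=
  ⟨(a (c (a (b (c (b (l 16117744) (l 16114920)) (b (a (l 16081272) (l 16106176)) (l 16070824))) (c (l 16089576) (l 16033144))) (b (c (b (l 16131552) (a (l 16145168) (l 16133904))) (a (b (l 16103416) (l 16097960)) (b (l 16080864) (l 16082680)))) (c (a (l 16134664) (l 16132792)) (a (l 16066128) (l 16066072))))) (a (c (a (l 15855312) (b (c (l 16055880) (l 16013992)) (l 15990344))) (a (c (b (l 15959312) (l 15920480)) (b (l 15926448) (l 15890776))) (b (l 15964080) (l 15928768)))) (c (b (b (a (l 16054080) (l 16057424)) (l 16039992)) (l 16009912)) (b (l 16005600) (l 15965880))))) (c (b (a (c (l 16090184) (b (l 16068592) (l 16072728))) (l 16070816)) (a (c (a (l 16109320) (l 16028080)) (b (l 16075240) (l 16069608))) (b (c (l 16085472) (l 16065032)) (a (c (l 16027776) (l 16087656)) (l 16093032))))) (b (c (a (b (l 16063000) (l 16063848)) (l 16064576)) (a (l 16031168) (l 16035544))) (a (c (l 16052392) (l 16003536)) (b (a (l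 16050464) (b (l 16058216) (l 16057344))) (a (l 16042768) (l 16052024))))))), by decide +kernel⟩

def k7_pp_022_a : ∃ t, chk3 f_pp_022_a t 4 31 3 = true :=
  ⟨(b (a (c (b (a (l 16040768) (c (l 16113192) (l 16055168))) (a (l 16040792) (a (l 16082280) (a (l 16068392) (l 16019832))))) (a (c (a (l 15954824) (l 15983584)) (a (c (l 15917144) (l 15869952)) (l 15928880))) (a (c (l 15994736) (l 15956800)) (b (l 15986952) (c (l 16015496) (l 15985936)))))) (c (a (c (b (a (l 16102200) (l 16092080)) (l 16097352)) (b (a (l 16053344) (l 16066656)) (l 16061576))) (l 16095352)) (a (b (a (l 16013424) (l 15987448)) (l 15982664)) (l 16045680)))) (a (b (a (c (c (l 16068744) (l 15926672)) (c (a (l 15972776) (a (l 15999400) (l 16008640))) (a (c (l 15939280) (l 15915880)) (c (l 15963976) (l 15945552))))) (a (c (c (l 16013880) (l 16024104)) (c (b (l 16008840) (l 16015000)) (l 15978360))) (c (l 16096776) (l 16004344)))) (a (c (a (l 15962816) (a (l 16075704) (l 16090824))) (a (c (b (l 15989832) (l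 16001424)) (a (c (l 15957936) (b (l 15928928) (l 15944696))) (c (l 15972944) (l 15948888)))) (c (a (l 16018376) (l 16024280)) (c (l 15983416) (l 15966488))))) (c (c (l 16125344) (l 16075376)) (c (l 16031760) (l 16001136))))) (c (c (l 16066272) (l 16085272)) (l 15965408)))), by decide +kernel⟩

def k8_pp_022_a : ∃ t, chk3 f_pp_022_a t 5 15 1 = true :=
  ⟨(c (c (a (b (l 16117760) (b (l 16155288) (c (l 16190752) (a (l 16170688) (l 16138296))))) (l 16096520)) (b (l 16094120) (a (a (c (b (l 16116208) (l 16097960)) (l 16035336)) (b (l 16115760) (l 16077560))) (b (l 16135552) (c (l 16154512) (l 16159000)))))) (b (a (b (a (b (l 16057720) (c (l 16081920) (a (l 16052952) (l 16050264)))) (l 16061648)) (c (b (l 16092968) (l 16099504)) (a (b (a (l 16016536) (l 16056576)) (l 16060512)) (l 16054728)))) (c (l 16093424) (b (l 16034752) (l 16047672)))) (c (a (b (c (l 16117064) (l 16111912)) (c (l 16140744) (l 16126552))) (b (c (l 16132352) (l 16111592)) (c (l 16156896) (l 16138944)))) (a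 (b (c (l 16087720) (l 16044744)) (l 16083712)) (b (l 16027008) (l 16099368)))))), by decide +kernel⟩

def k9_pp_022_a : ∃ t, chk3 f_pp_022_a t 3 7 1 = true :=
  ⟨(b (c (a (b (l 16007656) (l 16096848)) (a (b (l 16127880) (l 16149480)) (b (l 16099776) (l 16181280)))) (a (b (l 16020504) (l 16040248)) (b (l 16051240) (l 16064776)))) (a (c (b (l 16136456) (l 16096112)) (b (l 16073008) (c (a (b (l 16125152) (c (l 16157656) (l 16128984))) (l 16138048)) (b (a (l 16062640) (l 16067472)) (a (l 16091328) (l 16084920)))))) (c (a (b (l 16185024) (l 16225224)) (b (l 16214224) (l 16168408))) (b (l 16092216) (l 16123904))))), by decide +kernel⟩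

theorem s10_pp_022_a : ∃ t, chk3 f_pp_022_a t 4 15 3 = true := ex3_b k6_pp_022_a k7_pp_022_a

theorem s11_pp_022_a : ∃ t, chk3 f_pp_022_a t 4 15 1 = true := ex3_c k5_pp_022_a s10_pp_022_a

theorem s12_pp_022_a : ∃ t, chk3 f_pp_022_a t 2 15 1 = true := ex3_a s11_pp_022_a k8_pp_022_a

theorem s13_pp_022_a : ∃ t, chk3 f_pp_022_a t 2 7 1 = true := ex3_b k4_pp_022_a s12_pp_022_a

theorem s14_pp_022_a : ∃ t, chk3 f_pp_022_a t 1 7 1 = true := ex3_a s13_pp_022_a k9_pp_022_a

theorem s15_pp_022_a : ∃ t, chk3 f_pp_022_a t 1 3 1 = true := ex3_b k3_pp_022_a s14_pp_022_a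

theorem s16_pp_022_a : ∃ t, chk3 f_pp_022_a t 2 2 1 = true := ex3_b k0_pp_022_a k1_pp_022_a

theorem s17_pp_022_a : ∃ t, chk3 f_pp_022_a t 1 2 1 = true := ex3_a s16_pp_022_a k2_pp_022_a

theorem s18_pp_022_a : ∃ t, chk3 f_pp_022_a t 1 1 1 = true := ex3_b s17_pp_022_a s15_pp_022_a

theorem c_pp_022_a : CertNX 0 67108864 0 420477299 1046898278 26843546 3 false true true .pp 0 2 2
    ndN4q0 ndN1q2a pcN2 Cut.none Ext.none :=
  certNX0 (fam := false) (s1 := true) (s2 := true) (a := 0) (b := 2) (c := 2) (cn := .pp) (n1 := ndN4q0) (n2 := ndN1q2a) (pc := pcN2) (cut := Cut.none) (xt := Ext.none) (P1 := 0) (W1 := 67108864) (P2 := 0) (W2 := 420477299) (P3 := 1046898278) (W3 := 26843546) (N0 := 3)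
    rfl s18_pp_022_a

noncomputable def f_pp_022_b : ℕ → ℕ → ℕ → ℕ → Bool := onCell 0 67108864 1073741824 536870912 1046898278 26843546
    (rowNX 3 1 false true true .pp 0 2 2 (qsf 0 67108864 1239849684 370763052 2) ndN4q0 ndN1q2b pcN2 Cut.none Ext.none)

def k0_pp_022_b : ∃ t, chk3 f_pp_022_b t 1 4 1 = true :=
  ⟨(b (l 1) (b (b (l 1) (a (l 1) (c (a (l 1) (c (l 16191384) (l 16365248))) (l 394632119591)))) (a (a (l 1) (c (a (l 1) (l 16077672)) (l 409664491175))) (c (a (l 249677239639) (c (l 16159072) (l 16287888))) (a (l 16263016) (l 16312384)))))), by decide +kernel⟩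

def k1_pp_022_b : ∃ t, chk3 f_pp_022_b t 1 5 1 = true :=
  ⟨(b (a (b (b (a (a (l 1) (a (l 1) (a (l 1) (c (l 16213312) (l 16350600))))) (c (a (c (l 16220680) (l 16287576)) (l 16285288)) (l 314101618951))) (a (c (a (b (l 16135800) (l 15999480)) (c (a (l 16083136) (l 16191032)) (a (l 16073976) (l 16097720)))) (a (b (a (l 1) (c (l 16143432) (l 16191712))) (c (l 354903027335) (c (l 358124273207) (l 15756800)))) (c (b (l 16241264) (l 15997288)) (l 16067096)))) (c (a (c (l 16094504) (l 16098440)) (l 16151896)) (l 16030136)))) (a (c (a (b (l 15606096) (l 15199272)) (c (a (l 15276576) (l 15538312)) (a (l 15357736) (l 15409552)))) (a (c (a (l 15347400) (b (l 15618984) (l 15158000))) (a (c (l 15149952) (a (l 15141608) (l 15301896))) (l 15185472))) (c (l 15181400) (l 15387608)))) (c (a (c (l 15305520) (l 15379000)) (l 15390808)) (b (l 15730768) (l 15286376))))) (b (b (c (a (l 16136016) (c (l 15938152) (l 16018616))) (a (l 16170704) (l 16031976))) (c (a (l 16172560) (l 15959944)) (a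 (l 16316008) (l 16184632)))) (c (a (b (l 15858272) (l 15493184)) (b (l 15968648) (l 15663792))) (a (l 15589488) (l 15766672))))) (a (b (a (c (a (l 14442872) (c (l 14557096) (l 14452464))) (a (c (a (l 14462016) (l 14509624)) (c (l 14248464) (l 14406488))) (c (l 14550256) (l 14506608)))) (c (b (l 14698560) (l 14548296)) (l 14662472))) (a (c (a (l 14146984) (c (l 14296560) (l 14203296))) (a (c (l 14045888) (a (l 13951488) (l 13992744))) (l 13962464))) (c (a (l 14289056) (l 14368088)) (l 14245632)))) (b (c (a (l 14923600) (l 14915400)) (l 14929168)) (c (a (l 14548160) (l 14711144)) (l 14546320))))), by decide +kernel⟩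

def k2_pp_022_b : ∃ t, chk3 f_pp_022_b t 1 3 1 = true :=
  ⟨(b (a (b (a (c (a (l 14146400) (l 14163384)) (a (c (l 14045272) (l 13973568)) (l 14087688))) (c (b (l 14339168) (l 14341280)) (l 14246304))) (a (c (a (l 14146152) (l 14246136)) (c (l 13878600) (l 13851560))) (c (l 14335736) (l 14244432)))) (b (c (a (l 14551440) (l 14770776)) (l 14490016)) (c (l 14645912) (l 14542080)))) (a (c (a (b (l 14189640) (l 14189640)) (l 14337520)) (a (b (a (l 14007072) (l 14087688)) (l 13842400)) (l 14245048))) (c (l 14623192) (l 14540928)))), by decide +kernel⟩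

theorem s3_pp_022_b : ∃ t, chk3 f_pp_022_b t 1 2 1 = true := ex3_b k0_pp_022_b k1_pp_022_b

theorem s4_pp_022_b : ∃ t, chk3 f_pp_022_b t 1 1 1 = true := ex3_b s3_pp_022_b k2_pp_022_b

theorem c_pp_022_b : CertNX 0 67108864 1239849684 370763052 1046898278 26843546 3 false true true .pp 0 2 2
    ndN4q0 ndN1q2b pcN2 Cut.none Ext.none :=
  certNX1 (fam := false) (s1 := true) (s2 := true) (a := 0) (b := 2) (c := 2) (cn := .pp) (n1 := ndN4q0) (n2 := ndN1q2b) (pc := pcN2) (cut := Cut.none) (xt := Ext.none) (P1 := 0) (W1 := 67108864) (P2 := 1239849684) (W2 := 370763052) (P3 := 1046898278) (W3 := 26843546) (N0 := 3)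
    rfl (fun _ => rfl) s4_pp_022_b

noncomputable def f_pp_023 : ℕ → ℕ → ℕ → ℕ → Bool := onCell 0 67108864 1073741824 536870912 1046898278 26843546
    (rowNX 3 1 false true true .up 0 2 3 (qsf 0 67108864 1610612736 469762048 2) ndN4q0 ndN1q3 pcN2 Cut.none Ext.none)

def k0_pp_023 : ∃ t, chk3 f_pp_023 t 1 1 1 = true :=
  ⟨(b (l 1) (b (l 1) (b (a (l 1) (l 1124773234199)) (a (a (c (l 14189640) (l 13863376)) (l 14270512)) (l 14588440))))), by decide +kernel⟩

theorem c_pp_023 : CertNX 0 67108864 1610612736 469762048 1046898278 26843546 3 false true true .up 0 2 3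
    ndN4q0 ndN1q3 pcN2 Cut.none Ext.none :=
  certNX1 (fam := false) (s1 := true) (s2 := true) (a := 0) (b := 2) (c := 3) (cn := .up) (n1 := ndN4q0) (n2 := ndN1q3) (pc := pcN2) (cut := Cut.none) (xt := Ext.none) (P1 := 0) (W1 := 67108864) (P2 := 1610612736) (W2 := 469762048) (P3 := 1046898278) (W3 := 26843546) (N0 := 3)
    rfl (fun _ => rfl) k0_pp_023

noncomputable def f_pp_033 : ℕ → ℕ → ℕ → ℕ → Bool := onCell 0 67108864 1610612736 536870912 1046898278 26843546
    (rowNX 3 1 false true true .pnn 0 3 3 (qsf 0 67108864 1610612736 469762048 3) ndN4q0 ndN1q3 pcN3 Cut.none Ext.none)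

def k0_pp_033 : ∃ t, chk3 f_pp_033 t 1 1 1 = true :=
  ⟨(b (b (a (c (a (b (l 14189640) (l 14189640)) (l 14337520)) (a (b (l 13968232) (c (l 14088448) (l 14019360))) (l 14245048))) (b (l 14420664) (a (l 14492552) (l 14700536)))) (b (a (c (a (l 14189640) (l 14337520)) (a (c (l 14088448) (l 14019360)) (l 14245048))) (b (l 14504552) (l 4))) (l 4))) (l 4)), by decide +kernel⟩

theorem c_pp_033 : CertNX 0 67108864 1610612736 469762048 1046898278 26843546 3 false true true .pnn 0 3 3
    ndN4q0 ndN1q3 pcN3 Cut.none Ext.none :=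
  certNX1 (fam := false) (s1 := true) (s2 := true) (a := 0) (b := 3) (c := 3) (cn := .pnn) (n1 := ndN4q0) (n2 := ndN1q3) (pc := pcN3) (cut := Cut.none) (xt := Ext.none) (P1 := 0) (W1 := 67108864) (P2 := 1610612736) (W2 := 469762048) (P3 := 1046898278) (W3 := 26843546) (N0 := 3)
    rfl (fun _ => rfl) k0_pp_033

noncomputable def f_pm_001 : ℕ → ℕ → ℕ → ℕ → Bool := onCell 0 67108864 536870912 536870912 1046898278 26843546
    (rowNX 3 0 false true false .up 0 0 1 (qsf 0 67108864 536870912 536870912 0) ndN4q0 ndN1q1 pcN0 Cut.none Ext.none)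

def k0_pm_001 : ∃ t, chk3 f_pm_001 t 1 1 1 = true :=
  ⟨(l 4), by decide +kernel⟩

theorem c_pm_001 : CertNX 0 67108864 536870912 536870912 1046898278 26843546 3 false true false .up 0 0 1
    ndN4q0 ndN1q1 pcN0 Cut.none Ext.none :=
  certNX0 (fam := false) (s1 := true) (s2 := false) (a := 0) (b := 0) (c := 1) (cn := .up) (n1 := ndN4q0) (n2 := ndN1q1) (pc := pcN0) (cut := Cut.none) (xt := Ext.none) (P1 := 0) (W1 := 67108864) (P2 := 536870912) (W2 := 536870912) (P3 := 1046898278) (W3 := 26843546) (N0 := 3)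
    rfl k0_pm_001

noncomputable def f_pm_011 : ℕ → ℕ → ℕ → ℕ → Bool := onCell 0 67108864 536870912 536870912 1046898278 26843546
    (rowNX 3 0 false true false .pnn 0 1 1 (qsf 0 67108864 536870912 536870912 1) ndN4q0 ndN1q1 pcN1 Cut.none Ext.none)

def k0_pm_011 : ∃ t, chk3 f_pm_011 t 1 1 1 = true :=
  ⟨(l 4), by decide +kernel⟩

theorem c_pm_011 : CertNX 0 67108864 536870912 536870912 1046898278 26843546 3 false true false .pnn 0 1 1
    ndN4q0 ndN1q1 pcN1 Cut.none Ext.none :=
  certNX0 (fam := false) (s1 := true) (s2 := false) (a := 0) (b := 1) (c := 1) (cn := .pnn) (n1 := ndN4q0) (n2 := ndN1q1) (pc := pcN1) (cut := Cut.none) (xt := Ext.none) (P1 := 0) (W1 := 67108864) (P2 := 536870912) (W2 := 536870912) (P3 := 1046898278) (W3 := 26843546) (N0 := 3)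
    rfl k0_pm_011

noncomputable def f_pm_012_a : ℕ → ℕ → ℕ → ℕ → Bool := onCell 0 67108864 0 420477299 1046898278 26843546
    (rowNX 3 0 false true false .pnp 0 1 2 (qsf 0 67108864 0 420477299 1) ndN4q0 ndN1q2a pcN1 Cut.none Ext.none)

def k0_pm_012_a : ∃ t, chk3 f_pm_012_a t 1 1 1 = true :=
  ⟨(b (l 2) (b (l 2) (a (l 2) (a (l 2) (a (l 2) (a (l 2) (b (l 2) (b (l 2) (b (l 2) (c (l 4) (c (l 15146744) (l 15166120)))))))))))), by decide +kernel⟩

theorem c_pm_012_a : CertNX 0 67108864 0 420477299 1046898278 26843546 3 false true false .pnp 0 1 2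
    ndN4q0 ndN1q2a pcN1 Cut.none Ext.none :=
  certNX0 (fam := false) (s1 := true) (s2 := false) (a := 0) (b := 1) (c := 2) (cn := .pnp) (n1 := ndN4q0) (n2 := ndN1q2a) (pc := pcN1) (cut := Cut.none) (xt := Ext.none) (P1 := 0) (W1 := 67108864) (P2 := 0) (W2 := 420477299) (P3 := 1046898278) (W3 := 26843546) (N0 := 3)
    rfl k0_pm_012_a

noncomputable def f_pm_012_b : ℕ → ℕ → ℕ → ℕ → Bool := onCell 0 67108864 1239849684 370763052 1046898278 26843546
    (rowNX 3 0 false true false .pnp 0 1 2 (qsf 0 67108864 1239849684 370763052 1) ndN4q0 ndN1q2b pcN1 Cut.none Ext.none)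

def k0_pm_012_b : ∃ t, chk3 f_pm_012_b t 1 1 1 = true :=
  ⟨(l 2), by decide +kernel⟩

theorem c_pm_012_b : CertNX 0 67108864 1239849684 370763052 1046898278 26843546 3 false true false .pnp 0 1 2
    ndN4q0 ndN1q2b pcN1 Cut.none Ext.none :=
  certNX0 (fam := false) (s1 := true) (s2 := false) (a := 0) (b := 1) (c := 2) (cn := .pnp) (n1 := ndN4q0) (n2 := ndN1q2b) (pc := pcN1) (cut := Cut.none) (xt := Ext.none) (P1 := 0) (W1 := 67108864) (P2 := 1239849684) (W2 := 370763052) (P3 := 1046898278) (W3 := 26843546) (N0 := 3)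
    rfl k0_pm_012_b

end Pool.Agent.Strip051.G.IE1.Tab.C.NB41

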