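import Pool.Agent.Strip051.G.IE1.Tab

/-! # Certificates N75 (generated) -/

set_option linter.all false
set_option maxRecDepth 100000

namespace Pool.Agent.Strip051.G.IE1.Tab.C.NB41

open Pool.Agent.Strip051.PB Pool.Agent.Strip051.PB.T
open Pool.Agent.Strip051.G.IE1.Tab

noncomputable def f_pm_022_a : ℕ → ℕ → ℕ → ℕ → Bool := onCell 0 67108864 0 420477299 1046898278 26843546
    (rowNX 3 0 false true false .pp 0 2 2 (qsf 0 67108864 0 420477299 2) ndN4q0 ndN1q2a pcN2 Cut.none Ext.none)

def k0_pm_022_a : ∃ t, chk3 f_pm_022_a t 1 2 1 = true :=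
  ⟨(c (a (b (a (a (a (l 16020256) (l 15997760)) (b (a (l 16253760) (c (l 16320056) (l 16351336))) (a (b (l 16350776) (l 16267632)) (a (l 16316168) (l 16311360))))) (a (b (l 16306216) (l 16281064)) (l 16232704))) (a (b (a (a (l 16200424) (b (l 16351744) (l 16358560))) (a (b (l 16321520) (l 16301136)) (l 16271872))) (a (a (l 16206040) (l 16312696)) (c (l 16206400) (l 16250520)))) (b (a (l 16233376) (l 16133584)) (a (l 16078136) (l 16020760))))) (b (a (b (l 16118416) (l 16035920)) (b (l 15765136) (c (l 15834776) (l 15858032)))) (a (b (l 15920600) (a (l 15884872) (l 15736472))) (c (b (a (l 15771920) (c (l 15708832) (l 15678688))) (a (b (l 15699272) (l 15438784)) (b (c (l 15627352) (l 15587392)) (c (l 15559744) (l 15543448))))) (b (l 15750856) (l 15622464)))))) (a (b (b (a (a (c (l 15790512) (a (l 15722840) (l 16049824))) (c (l 16066256) (l 16219480))) (l 16290880)) (a (a (c (a (l 16049928) (l 16171136)) (a (l 15803320) (l 16146848))) (c (a (l 16210088) (l 16355632)) (a (l 16280960)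 (l 16356160)))) (l 16256408))) (a (a (b (a (c (l 16131456) (a (c (l 16161664) (l 16081920)) (b (l 16132584) (l 16209176)))) (c (b (l 16237424) (l 16279848)) (b (l 16257896) (l 16321528)))) (a (c (b (l 16341296) (l 16394544)) (b (a (c (l 16303968) (l 16246560)) (l 16338064)) (c (l 16376840) (l 16359400)))) (c (l 16352312) (l 16385104)))) (b (c (a (l 16327080) (l 16326248)) (l 16313680)) (c (l 16284896) (l 16299952)))) (b (l 16201808) (a (l 16169192) (l 16037968))))) (b (a (l 16014824) (l 15893664)) (a (b (l 15984352) (l 15881304)) (b (l 15813552) (l 15665360)))))), by decide +kernel⟩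

def k1_pm_022_a : ∃ t, chk3 f_pm_022_a t 1 6 1 = true :=
  ⟨(a (a (c (b (a (l 16124176) (a (c (l 16097128) (l 16147208)) (l 15809504))) (a (b (l 16015840) (l 15865776)) (a (b (l 15929584) (l 15782392)) (c (l 15829344) (l 15965840))))) (a (b (c (a (l 16323392) (l 16147128)) (a (c (l 16302024) (a (l 16290640) (l 16345096))) (l 16229056))) (c (a (l 15996840) (b (l 16062448) (l 15986544))) (a (b (c (l 16211048) (a (l 16226704) (l 16233272))) (c (l 16058712) (c (l 16052680) (l 16062856)))) (b (l 16129432) (l 16078216))))) (b (c (a (l 16200112) (l 16133296)) (l 16185424)) (c (a (l 15923576) (l 15997368)) (l 15944888))))) (c (b (a (c (l 15996096) (l 16024520)) (l 15689680)) (c (a (c (b (l 15889056) (c (l 15871944) (l 15846232))) (l 15884816)) (b (c (l 15763728) (l 15811208)) (c (b (l 15705704) (l 15614784)) (l 15754976)))) (a (l 15900336) (l 15770096)))) (b (a (l 15937280) (l 15923304)) (a (l 15924168) (b (l 15840952) (l 15769960)))))) (c (b (a (c (b (c (l 15748824) (l 15742880))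 (a (l 15648152) (c (l 15641376) (l 15622568)))) (l 15609976)) (c (a (b (c (l 15618800) (l 15567216)) (c (l 15535984) (l 15512520))) (c (l 15389744) (l 15267496))) (a (l 15527632) (c (l 15410696) (l 15397992))))) (c (a (b (a (c (b (l 15765792) (l 15737608)) (l 15687120)) (c (l 15602752) (l 15573400))) (c (a (l 15668400) (l 15480176)) (a (l 15535512) (l 15484832)))) (a (c (l 15346616) (b (l 15424472) (l 15296992))) (l 15105584))) (a (b (a (l 15670384) (l 15529408)) (c (a (l 15582944) (l 15461920)) (l 15507704))) (b (c (a (l 15413976) (l 15279760)) (l 15343040)) (c (a (l 15319976) (l 15147016)) (a (l 15321352) (l 15176760))))))) (b (a (l 15578464) (l 15520344)) (a (b (l 15654240) (l 15558552)) (l 15068104))))), by decide +kernel⟩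

def k2_pm_022_a : ∃ t, chk3 f_pm_022_a t 2 14 2 = true :=
  ⟨(a (c (b (a (b (l 15969048) (l 15981392)) (c (a (l 15674272) (b (l 15815192) (l 15733416))) (a (l 15861768) (l 15834664)))) (a (c (b (l 16007288) (c (a (l 16141872) (l 16079416)) (a (l 16096240) (l 16033736)))) (b (l 16013976) (l 15989240))) (a (c (b (c (l 15950120) (l 15903664)) (c (l 16003032) (l 15978000))) (b (l 15891984) (a (l 15943968) (l 15920528)))) (c (b (c (l 15913352) (l 15897160)) (l 15933816)) (b (l 15870960) (l 15936856)))))) (a (b (l 16003664) (a (l 16101144) (l 15951248))) (b (a (l 15915008) (l 15893320)) (a (l 15833168) (l 15928640))))) (b (c (a (c (b (a (l 15844168) (l 15844456)) (a (l 15860088) (l 15851304))) (b (l 15701904) (a (l 15829624) (l 15827960)))) (c (l 15645296) (b (l 15728664) (l 15728560)))) (a (a (l 15850568) (l 15781168)) (l 15666792))) (c (a (c (l 15826176) (a (c (l 15908208) (l 15862808)) (c (l 15883792) (l 15846504)))) (c (l 15735448) (l 15621984))) (a (a (l 15880800) (l 15814448))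 (c (b (l 15715208) (l 15680296)) (l 15678960)))))), by decide +kernel⟩

def k3_pm_022_a : ∃ t, chk3 f_pm_022_a t 2 15 2 = true :=
  ⟨(a (c (b (a (b (c (a (c (l 16174480) (b (l 16149240) (l 16201928))) (l 16112936)) (a (l 16015504) (l 16042552))) (c (l 16048008) (c (a (l 16187040) (l 16151136)) (a (l 16187472) (l 16125400))))) (c (a (l 15958496) (l 15937376)) (a (b (c (l 16012488) (l 15976272)) (c (l 16070384) (l 15889248))) (b (l 15981496) (l 16022904))))) (a (c (b (l 16225408) (l 16237680)) (b (c (l 16164944) (a (l 16154360) (l 16197488))) (a (l 16265824) (l 16239368)))) (a (c (l 16042920) (b (l 15955512) (l 16120800))) (l 15900608)))) (a (b (a (l 16137424) (c (l 16072392) (l 16092848))) (c (b (c (a (l 16240976) (l 16091320)) (l 16191056)) (c (a (b (l 16304312) (l 16363128)) (l 16251640)) (a (l 16303608) (b (l 16194232) (l 16254520))))) (a (l 16280752) (c (l 16091728) (l 16185760))))) (b (c (b (l 15828560) (c (a (l 16026936) (l 16034880)) (l 16021928))) (l 16015760)) (c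 (b (a (c (a (l 16117856) (l 16108048)) (l 16089304)) (c (l 16097608) (l 16096632))) (a (c (l 16175512) (a (l 16140848) (l 16177344))) (l 16140672))) (c (b (l 15976088) (a (l 16134440) (a (l 16169616) (l 16160456)))) (a (l 16140288) (l 15943232))))))) (c (b (a (c (l 15876896) (a (l 15969464) (l 15858488))) (l 15751792)) (a (a (l 15966768) (l 15912736)) (l 15757272))) (c (b (a (a (c (b (l 15962496) (l 16020592)) (b (l 15926304) (l 16002032))) (b (l 15896936) (l 15938992))) (b (l 15709360) (l 15777720))) (a (b (a (l 15969056) (l 15970592)) (l 16008096)) (l 15819128))) (b (a (a (l 15942200) (l 15693848)) (b (l 15621008) (c (l 15793552) (l 15774328)))) (a (b (c (l 15856600) (l 15942936)) (c (l 16055216) (a (l 16087112) (l 16008840)))) (b (c (l 15809872) (l 15780832)) (l 15843696))))))), by decide +kernel⟩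

def k4_pm_022_a : ∃ t, chk3 f_pm_022_a t 2 7 3 = true :=
  ⟨(b (a (a (c (a (b (l 16074080) (l 16137168)) (b (c (l 15998840) (l 16031160)) (a (l 16083480) (c (l 16041424) (l 16086008))))) (a (c (b (a (l 16117800) (l 16089240)) (a (l 16186320) (l 16155144))) (b (a (c (l 16133488) (l 16081840)) (l 16116264)) (a (c (l 16204136) (l 16195880)) (l 16185120)))) (b (c (l 16058336) (l 16074952)) (c (l 16035784) (l 16138880))))) (b (c (a (l 15980720) (l 15929016)) (l 15983016)) (c (a (b (l 16015568) (l 16045712)) (l 15967696)) (b (l 16016392) (l 16045408))))) (b (a (b (l 15844112) (l 15840168)) (l 15697104)) (l 15772560))) (a (a (c (b (a (b (l 16158176) (l 16241464)) (a (l 16095256) (l 16127272))) (a (l 16271816) (c (l 16214312) (l 16169544)))) (a (b (c (a (b (l 16255152) (l 16299000)) (b (l 16177648) (l 16260080))) (a (b (c (l 16253744) (a (l 16296600) (l 16281896))) (c (l 16319280) (l 16312704))) (b (l 16230840) (l 16293104)))) (c (a (l 16373304) (l 16249568)) (a (c (l 16331464)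 (c (l 16342472) (l 16349920))) (l 16304744)))) (b (c (l 16195232) (l 16216280)) (c (l 16287040) (l 16309312))))) (c (b (l 15993712) (a (l 16160768) (l 16111936))) (b (l 16094184) (l 16183000)))) (c (b (a (l 15901448) (l 15741760)) (c (a (b (l 15954376) (c (l 15882360) (l 16002408))) (b (c (l 15767008) (l 15788960)) (c (a (l 15908328) (l 15821320)) (a (l 15893632) (l 15820616))))) (a (l 15986592) (l 15829136)))) (l 15677832)))), by decide +kernel⟩

def k5_pm_022_a : ∃ t, chk3 f_pm_022_a t 3 7 2 = true :=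
  ⟨(b (c (a (b (c (l 15461624) (a (l 15484768) (l 15373640))) (l 15443696)) (b (l 15070080) (l 15067416))) (a (b (c (a (b (l 15546248) (l 15539696)) (b (l 15396192) (l 15381696))) (a (l 15497936) (l 15317296))) (c (a (b (l 15558344) (l 15571424)) (l 15365312)) (a (c (l 15522776) (l 15536528)) (b (l 15388720) (l 15403936))))) (b (c (l 15118128) (a (b (l 15246344) (l 15231728)) (b (l 15071888) (l 15055304)))) (a (c (l 15184328) (l 15214888)) (l 15033600))))) (a (c (b (l 15465408) (l 15541624)) (b (c (l 15276024) (a (b (c (l 15590176) (l 15581496)) (c (l 15599536) (l 15615024))) (l 15405056))) (a (c (l 15615712) (l 15633912)) (l 15450616)))) (c (b (l 15115648) (l 15226888)) (b (l 15143648) (l 15223896))))), by decide +kernel⟩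

def k6_pm_022_a : ∃ t, chk3 f_pm_022_a t 3 7 3 = true :=
  ⟨(b (a (b (l 15472360) (c (c (a (l 15524424) (l 15401912)) (l 15473472)) (l 15510528))) (c (b (c (a (l 15244856) (l 14878032)) (l 15159800)) (c (a (b (l 15242720) (l 15256968)) (b (l 15024264) (l 15075192))) (a (l 15264208) (b (l 15093264) (c (l 15082088) (l 15103016)))))) (l 15190776))) (c (b (b (a (c (a (l 15586344) (l 15370352)) (l 15504688)) (c (a (l 15255984) (l 15087800)) (a (l 15283680) (c (l 15104896) (l 15106848))))) (a (c (a (l 15530944) (c (l 15442400) (l 15465384))) (l 15373520)) (c (l 15189432) (a (c (l 15292776) (l 15310688)) (l 15125280))))) (a (c (a (b (c (l 15545776) (l 15656184)) (c (l 15675576) (a (l 15745648) (l 15650688)))) (b (l 15470320) (l 15505784))) (a (b (l 15669032) (c (a (l 15746632) (l 15671024)) (l 15709968))) (b (c (a (l 15546920) (l 15450624)) (l 15506128)) (c (l 15527824) (a (l 15594344) (l 15499840)))))) (a (c (l 15319728) (b (c (l 15326088) (l 15331424)) (l 15362584))) (l 15174384))))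 (a (b (l 15555712) (a (l 15709928) (c (b (l 15511928) (l 15498288)) (l 15558480)))) (b (c (a (l 15303912) (b (l 15131296) (c (l 15116768) (l 15151672)))) (l 15239128)) (c (a (b (c (l 15102840) (l 15354136)) (c (a (l 15423176) (l 15337120)) (a (l 15437184) (l 15345056)))) (b (c (l 15168832) (a (l 15218304) (l 15134416))) (l 15149880))) (a (l 15382152) (b (l 15189904) (c (a (l 15265112) (l 15181248)) (l 15000064))))))))), by decide +kernel⟩

theorem s7_pm_022_a : ∃ t, chk3 f_pm_022_a t 3 7 1 = true := ex3_c k5_pm_022_a k6_pm_022_a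

theorem s8_pm_022_a : ∃ t, chk3 f_pm_022_a t 2 7 2 = true := ex3_b k2_pm_022_a k3_pm_022_a

theorem s9_pm_022_a : ∃ t, chk3 f_pm_022_a t 2 7 1 = true := ex3_c s8_pm_022_a k4_pm_022_a

theorem s10_pm_022_a : ∃ t, chk3 f_pm_022_a t 1 7 1 = true := ex3_a s9_pm_022_a s7_pm_022_a

theorem s11_pm_022_a : ∃ t, chk3 f_pm_022_a t 1 3 1 = true := ex3_b k1_pm_022_a s10_pm_022_a

theorem s12_pm_022_a : ∃ t, chk3 f_pm_022_a t 1 1 1 = true := ex3_b k0_pm_022_a s11_pm_022_a

theorem c_pm_022_a : CertNX 0 67108864 0 420477299 1046898278 26843546 3 false true false .pp 0 2 2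
    ndN4q0 ndN1q2a pcN2 Cut.none Ext.none :=
  certNX0 (fam := false) (s1 := true) (s2 := false) (a := 0) (b := 2) (c := 2) (cn := .pp) (n1 := ndN4q0) (n2 := ndN1q2a) (pc := pcN2) (cut := Cut.none) (xt := Ext.none) (P1 := 0) (W1 := 67108864) (P2 := 0) (W2 := 420477299) (P3 := 1046898278) (W3 := 26843546) (N0 := 3)
    rfl s12_pm_022_a

noncomputable def f_pm_022_b : ℕ → ℕ → ℕ → ℕ → Bool := onCell 0 67108864 1073741824 536870912 1046898278 26843546
    (rowNX 3 1 false true false .pp 0 2 2 (qsf 0 67108864 1239849684 370763052 2) ndN4q0 ndN1q2b pcN2 Cut.none Ext.none)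

def k0_pm_022_b : ∃ t, chk3 f_pm_022_b t 1 2 1 = true :=
  ⟨(b (b (l 1) (a (b (l 1) (a (l 1) (c (a (l 1) (l 16368104)) (l 521870828167)))) (a (b (l 1) (c (b (l 16231776) (l 16152472)) (l 16217744))) (b (b (l 1) (b (l 1) (c (l 634076217431) (l 16172888)))) (c (c (l 15874648) (l 15980328)) (l 16034640)))))) (b (a (b (b (a (a (l 1) (a (l 1) (c (l 16161744) (l 16333168)))) (c (a (l 16327184) (l 16256432)) (l 16298464))) (a (c (a (b (l 16200576) (l 16006008)) (a (l 15969408) (l 15945296))) (a (c (a (l 16048456) (b (l 16197144) (l 15974008))) (a (c (l 15938672) (l 15835648)) (l 15952816))) (c (l 16024448) (l 16089336)))) (c (a (l 16022232) (l 16236032)) (l 16093248)))) (a (c (a (b (l 15695128) (l 15320328)) (c (a (l 15502720) (l 15645104)) (a (l 15550544) (l 15546328)))) (a (c (a (l 15406960) (b (l 15651928) (l 15260848))) (a (c (l 15303624) (b (l 15548624) (l 15133568))) (l 15301848))) (c (l 15322976) (l 15452944)))) (c (a (b (l 15732536) (l 15445888)) (l 15596872)) (b (l 15786224)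 (l 15418176))))) (b (b (c (a (l 16109968) (l 15930760)) (l 16044224)) (c (a (l 16282840) (l 16115496)) (l 16056200))) (c (a (b (l 15994984) (l 15674744)) (b (l 16142352) (l 15844040))) (b (l 15804520) (l 15640600))))) (a (b (a (c (a (l 14819568) (c (l 14984720) (l 14798920))) (a (c (a (l 14676296) (l 14735928)) (a (c (l 14615592) (l 14572856)) (l 14641992))) (c (l 14793624) (l 14729792)))) (c (a (l 14835800) (l 15069536)) (l 14927704))) (a (c (a (l 14461488) (c (l 14639840) (l 14529064))) (a (c (l 14330832) (a (l 14209176) (l 14262888))) (l 14385936))) (c (l 14531400) (l 14573816)))) (b (c (a (l 15254584) (l 15455824)) (l 15015136)) (c (a (l 14934720) (l 15172984)) (l 14917848)))))), by decide +kernel⟩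

def k1_pm_022_b : ∃ t, chk3 f_pm_022_b t 1 3 1 = true :=
  ⟨(b (a (b (a (c (a (l 14320440) (c (l 14482272) (l 14381552))) (a (c (l 14206568) (a (l 14100288) (l 14146984))) (c (l 14293872) (l 14231856)))) (c (b (l 14591256) (l 14467544)) (l 14424824))) (c (a (a (l 14153168) (l 14169760)) (l 14344800)) (a (a (c (l 14051696) (l 13979736)) (l 14094264)) (l 14251968)))) (b (c (a (l 14749344) (l 14973640)) (l 14740424)) (c (a (l 14551480) (l 14767408)) (l 14548320)))) (a (c (a (b (l 14189640) (l 14189640)) (b (l 14337520) (l 14337520))) (a (a (b (l 14007072) (l 14007072)) (l 14087688)) (l 14245048))) (c (b (l 14644168) (l 14644168)) (b (l 14540928) (l 14540928))))), by decide +kernel⟩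

theorem s2_pm_022_b : ∃ t, chk3 f_pm_022_b t 1 1 1 = true := ex3_b k0_pm_022_b k1_pm_022_b

theorem c_pm_022_b : CertNX 0 67108864 1239849684 370763052 1046898278 26843546 3 false true false .pp 0 2 2
    ndN4q0 ndN1q2b pcN2 Cut.none Ext.none :=
  certNX1 (fam := false) (s1 := true) (s2 := false) (a := 0) (b := 2) (c := 2) (cn := .pp) (n1 := ndN4q0) (n2 := ndN1q2b) (pc := pcN2) (cut := Cut.none) (xt := Ext.none) (P1 := 0) (W1 := 67108864) (P2 := 1239849684) (W2 := 370763052) (P3 := 1046898278) (W3 := 26843546) (N0 := 3)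
    rfl (fun _ => rfl) s2_pm_022_b

noncomputable def f_pm_023 : ℕ → ℕ → ℕ → ℕ → Bool := onCell 0 67108864 1073741824 536870912 1046898278 26843546
    (rowNX 3 1 false true false .up 0 2 3 (qsf 0 67108864 1610612736 469762048 2) ndN4q0 ndN1q3 pcN2 Cut.none Ext.none)

def k0_pm_023 : ∃ t, chk3 f_pm_023 t 1 1 1 = true :=
  ⟨(b (l 1) (b (l 1) (a (b (l 1) (a (c (l 14189640) (l 13884344)) (l 401607479895))) (c (b (l 14644168) (l 14644168)) (l 421472244455))))), by decide +kernel⟩

theorem c_pm_023 : CertNX 0 67108864 1610612736 469762048 1046898278 26843546 3 false true false .up 0 2 3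
    ndN4q0 ndN1q3 pcN2 Cut.none Ext.none :=
  certNX1 (fam := false) (s1 := true) (s2 := false) (a := 0) (b := 2) (c := 3) (cn := .up) (n1 := ndN4q0) (n2 := ndN1q3) (pc := pcN2) (cut := Cut.none) (xt := Ext.none) (P1 := 0) (W1 := 67108864) (P2 := 1610612736) (W2 := 469762048) (P3 := 1046898278) (W3 := 26843546) (N0 := 3)
    rfl (fun _ => rfl) k0_pm_023

noncomputable def f_pm_033 : ℕ → ℕ → ℕ → ℕ → Bool := onCell 0 67108864 1610612736 469762048 1046898278 26843546
    (rowNX 3 0 false true false .pnn 0 3 3 (qsf 0 67108864 1610612736 469762048 3) ndN4q0 ndN1q3 pcN3 Cut.none Ext.none)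

def k0_pm_033 : ∃ t, chk3 f_pm_033 t 1 1 1 = true :=
  ⟨(b (b (c (b (a (a (l 14189640) (l 14337520)) (l 14644168)) (l 4)) (a (a (b (l 14052120) (c (l 14088448) (l 14019360))) (l 14245048)) (l 14540928))) (l 4)) (l 4)), by decide +kernel⟩

theorem c_pm_033 : CertNX 0 67108864 1610612736 469762048 1046898278 26843546 3 false true false .pnn 0 3 3
    ndN4q0 ndN1q3 pcN3 Cut.none Ext.none :=
  certNX0 (fam := false) (s1 := true) (s2 := false) (a := 0) (b := 3) (c := 3) (cn := .pnn) (n1 := ndN4q0) (n2 := ndN1q3) (pc := pcN3) (cut := Cut.none) (xt := Ext.none) (P1 := 0) (W1 := 67108864) (P2 := 1610612736) (W2 := 469762048) (P3 := 1046898278) (W3 := 26843546) (N0 := 3)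
    rfl k0_pm_033

noncomputable def f_mm_001 : ℕ → ℕ → ℕ → ℕ → Bool := onCell 0 67108864 536870912 536870912 1046898278 26843546
    (rowNX 3 0 false false false .up 0 0 1 (qsf 0 67108864 536870912 536870912 0) ndN4q0 ndN1q1 pcN0 Cut.none Ext.none)

def k0_mm_001 : ∃ t, chk3 f_mm_001 t 1 1 1 = true :=
  ⟨(l 3), by decide +kernel⟩

theorem c_mm_001 : CertNX 0 67108864 536870912 536870912 1046898278 26843546 3 false false false .up 0 0 1
    ndN4q0 ndN1q1 pcN0 Cut.none Ext.none :=
  certNX0 (fam := false) (s1 := false) (s2 := false) (a := 0) (b := 0) (c := 1) (cn := .up) (n1 := ndN4q0) (n2 := ndN1q1) (pc := pcN0) (cut := Cut.none) (xt := Ext.none) (P1 := 0) (W1 := 67108864) (P2 := 536870912) (W2 := 536870912) (P3 := 1046898278) (W3 := 26843546) (N0 := 3)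
    rfl k0_mm_001

noncomputable def f_mm_011 : ℕ → ℕ → ℕ → ℕ → Bool := onCell 0 67108864 536870912 536870912 1046898278 26843546
    (rowNX 3 0 false false false .pnn 0 1 1 (qsf 0 67108864 536870912 536870912 1) ndN4q0 ndN1q1 pcN1 Cut.none Ext.none)

def k0_mm_011 : ∃ t, chk3 f_mm_011 t 1 1 1 = true :=
  ⟨(l 3), by decide +kernel⟩

theorem c_mm_011 : CertNX 0 67108864 536870912 536870912 1046898278 26843546 3 false false false .pnn 0 1 1
    ndN4q0 ndN1q1 pcN1 Cut.none Ext.none :=
  certNX0 (fam := false) (s1 := false) (s2 := false) (a := 0) (b := 1) (c := 1) (cn := .pnn) (n1 := ndN4q0) (n2 := ndN1q1) (pc := pcN1) (cut := Cut.none) (xt := Ext.none) (P1 := 0) (W1 := 67108864) (P2 := 536870912) (W2 := 536870912) (P3 := 1046898278) (W3 := 26843546) (N0 := 3)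
    rfl k0_mm_011

noncomputable def f_mm_012_a : ℕ → ℕ → ℕ → ℕ → Bool := onCell 0 67108864 0 420477299 1046898278 26843546
    (rowNX 3 0 false false false .pnp 0 1 2 (qsf 0 67108864 0 420477299 1) ndN4q0 ndN1q2a pcN1 Cut.none Ext.none)

def k0_mm_012_a : ∃ t, chk3 f_mm_012_a t 1 1 1 = true :=
  ⟨(l 5), by decide +kernel⟩

theorem c_mm_012_a : CertNX 0 67108864 0 420477299 1046898278 26843546 3 false false false .pnp 0 1 2
    ndN4q0 ndN1q2a pcN1 Cut.none Ext.none :=
  certNX0 (fam := false) (s1 := false) (s2 := false) (a := 0) (b := 1) (c := 2) (cn := .pnp) (n1 := ndN4q0) (n2 := ndN1q2a) (pc := pcN1) (cut := Cut.none) (xt := Ext.none) (P1 := 0) (W1 := 67108864) (P2 := 0) (W2 := 420477299) (P3 := 1046898278) (W3 := 26843546) (N0 := 3)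
    rfl k0_mm_012_a

noncomputable def f_mm_012_b : ℕ → ℕ → ℕ → ℕ → Bool := onCell 0 67108864 1239849684 370763052 1046898278 26843546
    (rowNX 3 0 false false false .pnp 0 1 2 (qsf 0 67108864 1239849684 370763052 1) ndN4q0 ndN1q2b pcN1 Cut.none Ext.none)

def k0_mm_012_b : ∃ t, chk3 f_mm_012_b t 1 1 1 = true :=
  ⟨(l 2), by decide +kernel⟩

theorem c_mm_012_b : CertNX 0 67108864 1239849684 370763052 1046898278 26843546 3 false false false .pnp 0 1 2
    ndN4q0 ndN1q2b pcN1 Cut.none Ext.none :=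
  certNX0 (fam := false) (s1 := false) (s2 := false) (a := 0) (b := 1) (c := 2) (cn := .pnp) (n1 := ndN4q0) (n2 := ndN1q2b) (pc := pcN1) (cut := Cut.none) (xt := Ext.none) (P1 := 0) (W1 := 67108864) (P2 := 1239849684) (W2 := 370763052) (P3 := 1046898278) (W3 := 26843546) (N0 := 3)
    rfl k0_mm_012_b

noncomputable def f_mm_022_a : ℕ → ℕ → ℕ → ℕ → Bool := onCell 0 67108864 0 420477299 1046898278 26843546
    (rowNX 3 0 false false false .pp 0 2 2 (qsf 0 67108864 0 420477299 2) ndN4q0 ndN1q2a pcN2 Cut.none Ext.none)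

def k0_mm_022_a : ∃ t, chk3 f_mm_022_a t 1 1 1 = true :=
  ⟨(l 5), by decide +kernel⟩

theorem c_mm_022_a : CertNX 0 67108864 0 420477299 1046898278 26843546 3 false false false .pp 0 2 2
    ndN4q0 ndN1q2a pcN2 Cut.none Ext.none :=
  certNX0 (fam := false) (s1 := false) (s2 := false) (a := 0) (b := 2) (c := 2) (cn := .pp) (n1 := ndN4q0) (n2 := ndN1q2a) (pc := pcN2) (cut := Cut.none) (xt := Ext.none) (P1 := 0) (W1 := 67108864) (P2 := 0) (W2 := 420477299) (P3 := 1046898278) (W3 := 26843546) (N0 := 3)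
    rfl k0_mm_022_a

noncomputable def f_mm_022_b : ℕ → ℕ → ℕ → ℕ → Bool := onCell 0 67108864 1239849684 370763052 1046898278 26843546
    (rowNX 3 0 false false false .pp 0 2 2 (qsf 0 67108864 1239849684 370763052 2) ndN4q0 ndN1q2b pcN2 Cut.none Ext.none)

def k0_mm_022_b : ∃ t, chk3 f_mm_022_b t 1 1 1 = true :=
  ⟨(l 5), by decide +kernel⟩

theorem c_mm_022_b : CertNX 0 67108864 1239849684 370763052 1046898278 26843546 3 false false false .pp 0 2 2
    ndN4q0 ndN1q2b pcN2 Cut.none Ext.none :=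
  certNX0 (fam := false) (s1 := false) (s2 := false) (a := 0) (b := 2) (c := 2) (cn := .pp) (n1 := ndN4q0) (n2 := ndN1q2b) (pc := pcN2) (cut := Cut.none) (xt := Ext.none) (P1 := 0) (W1 := 67108864) (P2 := 1239849684) (W2 := 370763052) (P3 := 1046898278) (W3 := 26843546) (N0 := 3)
    rfl k0_mm_022_b

noncomputable def f_mm_023 : ℕ → ℕ → ℕ → ℕ → Bool := onCell 0 67108864 1610612736 469762048 1046898278 26843546
    (rowNX 3 0 false false false .up 0 2 3 (qsf 0 67108864 1610612736 469762048 2) ndN4q0 ndN1q3 pcN2 Cut.none Ext.none)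

def k0_mm_023 : ∃ t, chk3 f_mm_023 t 1 1 1 = true :=
  ⟨(l 5), by decide +kernel⟩

theorem c_mm_023 : CertNX 0 67108864 1610612736 469762048 1046898278 26843546 3 false false false .up 0 2 3
    ndN4q0 ndN1q3 pcN2 Cut.none Ext.none :=
  certNX0 (fam := false) (s1 := false) (s2 := false) (a := 0) (b := 2) (c := 3) (cn := .up) (n1 := ndN4q0) (n2 := ndN1q3) (pc := pcN2) (cut := Cut.none) (xt := Ext.none) (P1 := 0) (W1 := 67108864) (P2 := 1610612736) (W2 := 469762048) (P3 := 1046898278) (W3 := 26843546) (N0 := 3)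
    rfl k0_mm_023

noncomputable def f_mm_033 : ℕ → ℕ → ℕ → ℕ → Bool := onCell 0 67108864 1610612736 469762048 1046898278 26843546
    (rowNX 3 0 false false false .pnn 0 3 3 (qsf 0 67108864 1610612736 469762048 3) ndN4q0 ndN1q3 pcN3 Cut.none Ext.none)

def k0_mm_033 : ∃ t, chk3 f_mm_033 t 1 1 1 = true :=
  ⟨(l 5), by decide +kernel⟩

theorem c_mm_033 : CertNX 0 67108864 1610612736 469762048 1046898278 26843546 3 false false false .pnn 0 3 3
    ndN4q0 ndN1q3 pcN3 Cut.none Ext.none :=
  certNX0 (fam := false) (s1 := false) (s2 := false) (a := 0) (b := 3) (c := 3) (cn := .pnn) (n1 := ndN4q0) (n2 := ndN1q3) (pc := pcN3) (cut := Cut.none) (xt := Ext.none) (P1 := 0) (W1 := 67108864) (P2 := 1610612736) (W2 := 469762048) (P3 := 1046898278) (W3 := 26843546) (N0 := 3)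
    rfl k0_mm_033

end Pool.Agent.Strip051.G.IE1.Tab.C.NB41

namespace Pool.Agent.Strip051.G.IE1.Tab.C.NB42

open Pool.Agent.Strip051.PB Pool.Agent.Strip051.PB.T
open Pool.Agent.Strip051.G.IE1.Tab

noncomputable def f_pp_001 : ℕ → ℕ → ℕ → ℕ → Bool := onCell 0 67108864 536870912 536870912 1046898278 26843546
    (rowNX 3 0 false true true .up 0 0 1 (qsf 0 67108864 536870912 536870912 0) ndN4q0 ndN2q1 pcN0 Cut.none Ext.none)

def k0_pp_001 : ∃ t, chk3 f_pp_001 t 1 1 1 = true :=
  ⟨(l 3), by decide +kernel⟩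

theorem c_pp_001 : CertNX 0 67108864 536870912 536870912 1046898278 26843546 3 false true true .up 0 0 1
    ndN4q0 ndN2q1 pcN0 Cut.none Ext.none :=
  certNX0 (fam := false) (s1 := true) (s2 := true) (a := 0) (b := 0) (c := 1) (cn := .up) (n1 := ndN4q0) (n2 := ndN2q1) (pc := pcN0) (cut := Cut.none) (xt := Ext.none) (P1 := 0) (W1 := 67108864) (P2 := 536870912) (W2 := 536870912) (P3 := 1046898278) (W3 := 26843546) (N0 := 3)
    rfl k0_pp_001

noncomputable def f_pp_011 : ℕ → ℕ → ℕ → ℕ → Bool := onCell 0 67108864 536870912 536870912 1046898278 26843546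
    (rowNX 3 0 false true true .pnn 0 1 1 (qsf 0 67108864 536870912 536870912 1) ndN4q0 ndN2q1 pcN1 Cut.none Ext.none)

def k0_pp_011 : ∃ t, chk3 f_pp_011 t 1 1 1 = true :=
  ⟨(l 3), by decide +kernel⟩

theorem c_pp_011 : CertNX 0 67108864 536870912 536870912 1046898278 26843546 3 false true true .pnn 0 1 1
    ndN4q0 ndN2q1 pcN1 Cut.none Ext.none :=
  certNX0 (fam := false) (s1 := true) (s2 := true) (a := 0) (b := 1) (c := 1) (cn := .pnn) (n1 := ndN4q0) (n2 := ndN2q1) (pc := pcN1) (cut := Cut.none) (xt := Ext.none) (P1 := 0) (W1 := 67108864) (P2 := 536870912) (W2 := 536870912) (P3 := 1046898278) (W3 := 26843546) (N0 := 3)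
    rfl k0_pp_011

noncomputable def f_pp_012_a : ℕ → ℕ → ℕ → ℕ → Bool := onCell 0 67108864 0 420477299 1046898278 26843546
    (rowNX 3 0 false true true .pnp 0 1 2 (qsf 0 67108864 0 420477299 1) ndN4q0 ndN2q2a pcN1 Cut.none Ext.none)

def k0_pp_012_a : ∃ t, chk3 f_pp_012_a t 1 1 1 = true :=
  ⟨(b (l 2) (b (l 2) (a (l 2) (b (l 2) (a (l 2) (a (l 2) (b (l 2) (b (l 2) (c (l 16519792) (l 16559992)))))))))), by decide +kernel⟩

theorem c_pp_012_a : CertNX 0 67108864 0 420477299 1046898278 26843546 3 false true true .pnp 0 1 2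
    ndN4q0 ndN2q2a pcN1 Cut.none Ext.none :=
  certNX0 (fam := false) (s1 := true) (s2 := true) (a := 0) (b := 1) (c := 2) (cn := .pnp) (n1 := ndN4q0) (n2 := ndN2q2a) (pc := pcN1) (cut := Cut.none) (xt := Ext.none) (P1 := 0) (W1 := 67108864) (P2 := 0) (W2 := 420477299) (P3 := 1046898278) (W3 := 26843546) (N0 := 3)
    rfl k0_pp_012_a

noncomputable def f_pp_012_b : ℕ → ℕ → ℕ → ℕ → Bool := onCell 0 67108864 1239849684 370763052 1046898278 26843546
    (rowNX 3 0 false true true .pnp 0 1 2 (qsf 0 67108864 1239849684 370763052 1) ndN4q0 ndN2q2b pcN1 Cut.none Ext.none)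

def k0_pp_012_b : ∃ t, chk3 f_pp_012_b t 1 1 1 = true :=
  ⟨(l 2), by decide +kernel⟩

theorem c_pp_012_b : CertNX 0 67108864 1239849684 370763052 1046898278 26843546 3 false true true .pnp 0 1 2
    ndN4q0 ndN2q2b pcN1 Cut.none Ext.none :=
  certNX0 (fam := false) (s1 := true) (s2 := true) (a := 0) (b := 1) (c := 2) (cn := .pnp) (n1 := ndN4q0) (n2 := ndN2q2b) (pc := pcN1) (cut := Cut.none) (xt := Ext.none) (P1 := 0) (W1 := 67108864) (P2 := 1239849684) (W2 := 370763052) (P3 := 1046898278) (W3 := 26843546) (N0 := 3)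
    rfl k0_pp_012_b

noncomputable def f_pp_022_a : ℕ → ℕ → ℕ → ℕ → Bool := onCell 0 67108864 0 420477299 1046898278 26843546
    (rowNX 3 0 false true true .pp 0 2 2 (qsf 0 67108864 0 420477299 2) ndN4q0 ndN2q2a pcN2 Cut.none Ext.none)

def k0_pp_022_a : ∃ t, chk3 f_pp_022_a t 1 2 1 = true :=
  ⟨(a (b (a (a (c (b (l 15802952) (l 15862216)) (c (b (l 15611256) (a (l 15742480) (l 15902424))) (a (b (l 15500448) (c (l 15719312) (l 15702088))) (b (l 15797680) (l 15860416))))) (c (b (a (l 16047448) (a (l 16104840) (l 16101392))) (a (b (l 16060464) (a (l 16100128) (l 16097192))) (b (l 15950672) (l 16093976)))) (b (a (l 15918600) (c (l 16096544) (l 16097088))) (a (c (b (l 16005024) (l 16013632)) (l 15879552)) (b (l 15995208) (l 16053280)))))) (b (c (l 16010336) (l 16124416)) (c (a (l 16046864) (l 16061048)) (l 16069752)))) (a (c (b (a (b (l 15786104) (a (l 16014560) (l 16080504))) (a (b (l 16029064) (l 16129704)) (l 16071024))) (a (b (l 16001288) (l 16105752)) (c (l 16125784) (l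 16051440)))) (b (a (c (a (l 15824152) (b (l 15868616) (l 15929424))) (a (a (l 15827064) (b (l 15881200) (l 15821624))) (b (l 15912800) (l 15974664)))) (c (a (l 15928024) (l 16042672)) (l 15998120))) (c (a (a (l 15903056) (l 16073648)) (l 16033208)) (a (a (b (a (c (l 16054096) (l 15977808)) (l 16063600)) (c (l 15962776) (a (c (l 16033576) (l 15910000)) (l 16019304)))) (c (l 16041424) (l 15980568))) (l 16020848))))) (c (a (b (l 16048032) (l 16026512)) (l 15923088)) (b (l 16025536) (l 16000752))))) (b (c (a (l 16043448) (c (l 16049584) (l 16114960))) (a (l 16079688) (l 16060624))) (a (b (l 15934048) (l 15865984)) (c (b (l 16049048) (l 15859392)) (b (l 15983704) (l 15958328)))))), by decide +kernel⟩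

def k1_pp_022_a : ∃ t, chk3 f_pp_022_a t 2 6 2 = true :=
  ⟨(a (a (b (b (l 16097144) (c (c (l 16101392) (l 16090488)) (c (l 16049344) (a (l 16011736) (l 16028944))))) (b (c (c (b (l 16091672) (l 16072784)) (b (l 16070816) (l 15980152))) (c (b (l 16000752) (l 15993048)) (a (l 15908408) (l 15809008)))) (c (b (c (l 15938808) (l 15990352)) (a (l 15901504) (b (a (l 15989728) (l 15931256)) (l 15912712)))) (a (l 15785144) (b (l 15916000) (a (l 15818512) (b (l 15879408) (l 15846192)))))))) (b (c (l 16107904) (c (l 16063112) (a (l 16051248) (l 16001456)))) (b (c (a (c (l 16129648) (l 16104240)) (l 16084872)) (a (c (b (l 16080384) (l 16059544)) (l 15980600)) (b (l 16000896) (c (a (l 16028320) (l 16000944)) (a (l 15886032) (b (l 15969768) (l 15959232))))))) (c (a (a (b (b (l 16100992) (c (l 16111488) (l 16078376))) (c (l 16088096) (l 16025984))) (b (c (l 16044408) (b (l 16099720) (l 16088600))) (c (l 16110680) (l 16054920)))) (b (c (l 16101872) (l 16050336)) (c (l 16089760) (l 16030824))))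 (a (b (c (a (l 15996032) (l 15936872)) (l 15910896)) (l 15850800)) (b (c (l 15990872) (l 15905064)) (c (l 15952152) (l 15858184)))))))) (b (a (l 16006480) (l 15974704)) (b (c (l 15982392) (b (l 15977352) (a (c (l 15967040) (l 15964416)) (l 15973168)))) (c (a (c (l 16000568) (a (l 15832616) (l 15949688))) (l 15946264)) (a (c (a (b (l 15958168) (l 15939376)) (l 15945944)) (b (l 15946368) (l 15919504))) (b (l 15968912) (c (l 15960552) (l 15963352)))))))), by decide +kernel⟩

def k2_pp_022_a : ∃ t, chk3 f_pp_022_a t 2 12 3 = true :=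
  ⟨(a (c (a (b (a (c (l 16057040) (l 15853352)) (c (l 16074120) (l 15970056))) (a (c (l 15990456) (l 15919072)) (c (b (l 16052432) (l 16019280)) (b (l 15937272) (l 15931784))))) (b (l 16017520) (c (a (l 15998464) (l 15986888)) (a (l 15882496) (l 15983288))))) (a (c (b (a (a (l 15979696) (b (l 16028656) (l 15975344))) (b (l 16017088) (l 15987880))) (a (l 15824976) (l 15882584))) (a (a (l 15553464) (b (l 15925224) (l 15748056))) (b (l 15851728) (l 15797640)))) (b (c (l 15998184) (b (l 15990184) (l 15965416))) (c (b (l 15971120) (l 15926472)) (l 15698440))))) (b (l 15982920) (a (c (a (l 15989352) (l 15994392)) (a (c (l 15972000) (l 15931288)) (b (l 15967792) (c (l 15970568) (a (l 15937264) (l 15939288)))))) (c (l 15986648) (b (l 15951144) (l 15939856)))))), by decide +kernel⟩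

def k3_pp_022_a : ∃ t, chk3 f_pp_022_a t 2 13 3 = true :=
  ⟨(a (a (c (b (a (l 15787408) (l 15601472)) (a (l 15622696) (b (l 15667488) (a (b (l 15661080) (l 15624512)) (c (l 15721016) (l 15610768)))))) (a (c (b (l 15654992) (l 15446712)) (b (a (l 15547128) (l 15577264)) (a (l 15379336) (l 15410240)))) (b (l 15539816) (b (l 15541272) (c (a (l 15491232) (l 15527296)) (l 15409384)))))) (b (c (a (c (l 15882680) (l 15841600)) (b (l 15841632) (c (b (l 15941376) (l 15908664)) (l 15869472)))) (b (l 15803808) (a (l 15691112) (l 15567880)))) (c (a (b (a (l 15690168) (l 15650040)) (l 15683440)) (l 15605680)) (b (a (c (l 15656792) (l 15573296)) (l 15689880)) (l 15492808))))) (b (a (c (b (a (c (l 15980168) (a (l 15973632) (l 15981584))) (l 15979752)) (c (l 15857064) (a (l 15937504) (l 15963520)))) (b (a (c (b (l 15949040) (l 15919608)) (l 15848832)) (c (l 15950264) (l 15901496))) (a (l 15820288) (l 15876232)))) (c (c (l 15984096) (l 15963616)) (c (b (l 15946336) (l 15928328)) (b (l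 15912240) (l 15887320))))) (c (a (c (b (l 15934712) (l 15886672)) (b (l 15894488) (l 15842336))) (c (b (l 15970296) (l 15954888)) (b (l 15945504) (l 15921600)))) (a (l 15699840) (b (c (l 15903824) (l 15844872)) (l 15837240)))))), by decide +kernel⟩

def k4_pp_022_a : ∃ t, chk3 f_pp_022_a t 3 6 1 = true :=
  ⟨(a (b (c (l 15990448) (l 15953520)) (c (l 15977088) (b (c (l 15958024) (a (c (l 15928864) (l 15899944)) (l 15905888))) (a (c (b (l 15956312) (l 15943912)) (b (l 15810944) (l 15796296))) (c (l 15943120) (a (b (l 15899608) (l 15887312)) (l 15892376))))))) (c (b (a (l 16010552) (l 16027208)) (l 15902744)) (b (l 15940064) (l 15921864)))), by decide +kernel⟩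

def k5_pp_022_a : ∃ t, chk3 f_pp_022_a t 4 14 1 = true :=
  ⟨(c (c (a (b (b (a (b (l 15739544) (l 15686312)) (l 15927760)) (l 15832200)) (b (l 15840304) (l 15867144))) (b (b (a (c (l 16056240) (l 15975168)) (c (l 16008320) (l 15992976))) (a (l 15944528) (l 16011920))) (a (c (l 16040384) (l 15957272)) (l 15905800)))) (a (b (b (a (b (l 15688336) (l 15658440)) (l 15717256)) (c (l 15748680) (l 15653336))) (c (l 15739184) (a (l 15657608) (l 15750568)))) (b (a (b (l 15837472) (l 15823536)) (b (l 15851056) (l 15837680))) (a (c (l 15904504) (l 15819376)) (c (l 15907752) (l 15836392)))))) (a (b (c (a (b (b (l 15399856) (a (l 15466160) (l 15529176))) (l 15501280)) (b (c (l 15652016) (l 15555432)) (c (l 15645176) (l 15553808)))) (a (b (c (a (l 15356472) (b (l 15413288) (l 15393448))) (a (b (l 15277184) (a (l 15235512) (l 15262840))) (l 15264952))) (c (l 15374888) (a (l 15259104) (l 15312848)))) (c (b (l 15464360) (l 15468056)) (l 15388512)))) (c (a (c (l 15590688) (l 15521296)) (c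 (l 15548304) (a (l 15597728) (l 15620904)))) (a (c (a (l 15416176) (l 15472656)) (a (c (l 15357576) (l 15317256)) (l 15390384))) (c (l 15536072) (l 15471872))))) (c (b (b (a (l 15657928) (l 15720744)) (a (l 15654112) (l 15717384))) (c (a (l 15735320) (l 15788704)) (l 15549216))) (b (b (l 15497784) (l 15567592)) (c (l 15629416) (l 15610824)))))), by decide +kernel⟩

def k6_pp_022_a : ∃ t, chk3 f_pp_022_a t 5 14 1 = true :=
  ⟨(c (b (c (a (b (c (a (l 16019208) (l 15964152)) (a (l 15961120) (l 15936536))) (a (c (l 16029872) (l 15955400)) (c (l 15980536) (l 15948664)))) (b (l 15942600) (c (l 15961552) (l 15963768)))) (a (a (b (l 15794472) (l 15863872)) (b (l 15915792) (l 15908192))) (b (c (l 15949832) (l 15949512)) (c (l 15965088) (l 15956576))))) (b (a (c (c (l 15981864) (l 15966992)) (l 15825272)) (a (c (l 15970360) (l 15971824)) (c (b (c (l 15996232) (l 16002320)) (a (l 16014664) (l 16021024))) (b (l 15999504) (l 16013624))))) (a (a (c (l 16028848) (l 15922256)) (c (c (l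 16035752) (l 15992888)) (l 15966408))) (a (c (b (a (l 16012296) (l 16024424)) (a (l 16028528) (l 16040056))) (b (l 15997848) (l 16018464))) (c (l 16025688) (l 16038456)))))) (b (c (a (b (l 15820944) (l 15818304)) (b (c (l 15932352) (l 15881640)) (l 15910288))) (a (b (l 15704112) (l 15711720)) (b (l 15801056) (l 15809424)))) (a (c (b (l 15849408) (a (l 15870648) (l 15928824))) (b (l 15754248) (l 15690808))) (b (a (l 15794824) (c (b (l 15948984) (l 15967128)) (l 15826392))) (a (c (b (l 15959096) (l 15984080)) (l 15782296)) (l 15958496)))))), by decide +kernel⟩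

def k7_pp_022_a : ∃ t, chk3 f_pp_022_a t 4 15 2 = true :=
  ⟨(b (a (c (b (l 15914072) (l 15982464)) (a (l 15643592) (c (l 15949424) (l 15709056)))) (a (c (b (l 16005344) (l 15967760)) (c (l 15828016) (l 15944592))) (c (b (l 16092912) (b (l 16056288) (a (l 16118424) (l 16168928)))) (b (l 15954520) (b (a (l 16006224) (l 16011992)) (a (l 16049560) (l 16049720))))))) (a (b (a (l 15813832) (a (l 16083920) (b (l 15998832) (a (l 16043424) (b (l 16092984) (l 16054456)))))) (a (b (a (l 16065024) (l 16057064)) (a (b (l 16115784) (l 16126632)) (c (l 16206672) (l 16147096)))) (c (b (a (l 16197896) (l 16235872)) (l 16261240)) (a (l 16057088) (l 16197112))))) (a (c (b (b (a (l 16186800) (c (l 16238944) (l 16193128))) (a (l 16229528) (l 16250408))) (c (l 16316456) (l 16284248))) (b (b (a (l 16073080) (l 16096728)) (l 16034624)) (l 16207736))) (c (c (l 16249168) (l 16234376)) (c (l 16174504) (l 16125832)))))), by decide +kernel⟩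

def k8_pp_022_a : ∃ t, chk3 f_pp_022_a t 4 15 3 = true :=
  ⟨(a (b (c (a (c (l 15731568) (l 15508128)) (c (a (l 15821424) (l 15852208)) (a (l 15751256) (l 15773736)))) (a (c (a (l 15585168) (b (l 15588776) (l 15696952))) (a (c (l 15537248) (a (l 15489792) (l 15517344))) (l 15404984))) (c (b (l 15651456) (l 15758736)) (l 15652952)))) (a (c (b (l 15792672) (b (a (l 15953704) (l 15974288)) (a (l 16031616) (l 16041392)))) (b (c (a (l 15776504) (l 15831032)) (a (c (l 15737608) (l 15584736)) (l 15774936))) (a (c (b (l 15895456) (l 15916696)) (a (c (l 15892456) (b (l 15823872) (a (l 15911456) (l 15925384)))) (b (l 15845448) (c (l 15941744) (l 15938608))))) (c (b (a (l 15939976) (l 15960456)) (a (l 16016216) (l 16028800))) (b (c (l 15909616) (l 15890944)) (c (l 15984400) (l 15967472))))))) (c (b (a (l 15871520) (c (l 15973256) (b (l 15916224) (l 15981664)))) (a (b (c (l 16084712) (l 16031712)) (l 16112440)) (c (l 16127024) (l 16065720)))) (b (c (a (l 15867816) (l 15866472)) (b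 (l 15815256) (l 15784896))) (b (a (c (l 15850832) (l 15943400)) (l 15984416)) (c (l 16051144) (l 16020704))))))) (b (c (a (c (l 15726920) (l 15720968)) (b (l 15870528) (b (l 15937968) (l 15837016)))) (b (l 15633168) (a (l 15827208) (b (l 15878632) (l 15762784))))) (c (a (b (b (a (l 15888440) (l 15867640)) (a (l 15985184) (l 16040128))) (l 15985920)) (l 16095968)) (b (a (b (a (l 15903528) (l 15940392)) (l 15977360)) (l 16002408)) (l 15977728))))), by decide +kernel⟩

def k9_pp_022_a : ∃ t, chk3 f_pp_022_a t 5 15 1 = true :=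
  ⟨(c (b (a (c (b (a (b (l 16061184) (a (l 16093424) (l 16080488))) (b (a (l 16004656) (l 16044032)) (l 16050216))) (a (a (l 15989960) (l 16120104)) (l 16088144))) (c (b (a (b (l 15975024) (l 15985008)) (l 16021808)) (a (l 16053136) (l 16078336))) (b (a (l 15964312) (l 16012768)) (l 16053400)))) (c (c (b (l 16076000) (l 16124112)) (l 16097968)) (l 16094744))) (c (a (c (l 16172520) (a (l 16200904) (l 16190080))) (c (l 16216352) (l 16223376))) (a (c (a (l 16164432) (l 16187552)) (l 16170400)) (b (l 16193520) (l 16276192))))) (b (a (b (b (a (l 15820608) (c (l 15975392) (l 15898928))) (a (c (l 15960312) (l 15891960)) (l 15970488))) (c (a (l 16016128) (l 16056248)) (l 15805680))) (c (l 16065984) (l 15995984))) (c (a (l 15951792) (l 16138872)) (a (l 16028280) (l 16168656))))), by decide +kernel⟩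

def k10_pp_022_a : ∃ t, chk3 f_pp_022_a t 3 14 1 = true :=
  ⟨(c (a (b (c (l 15982832) (a (b (a (l 15969272) (l 15976472)) (a (b (l 15980520) (a (l 15997832) (l 16003104))) (b (l 15989712) (l 16007440)))) (l 15991320))) (c (a (b (b (l 16015672) (l 16034224)) (l 15961040)) (l 16073056)) (a (b (a (l 16026080) (l 16035784)) (l 16070040)) (c (l 16071912) (l 16054288))))) (b (c (l 16030376) (l 15995448)) (l 15980352))) (a (b (a (b (a (c (l 15936160) (l 15850832)) (b (l 15819800) (c (l 15935120) (l 15866728)))) (a (c (b (l 15943560) (l 15956296)) (l 15858176)) (c (l 15954168) (l 15877888)))) (a (b (c (l 15934744) (b (l 15880296) (l 15874800))) (l 15920576)) (c (l 15939912) (l 15885000)))) (a (b (c (l 15984584) (l 15902504)) (l 15986232)) (c (l 16014328) (l 15958656)))) (b (c (l 15942480) (a (l 15820600) (l 15890840))) (c (a (l 16011352) (l 16016800)) (a (l 15960992) (l 15959632)))))), by decide +kernel⟩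

def k11_pp_022_a : ∃ t, chk3 f_pp_022_a t 3 15 1 = true :=
  ⟨(c (a (b (c (a (b (l 16113896) (l 16166672)) (l 16165792)) (a (c (l 16152168) (l 16139072)) (c (l 16171896) (l 16157584)))) (c (a (l 16258472) (b (l 16253296) (l 16323456))) (a (c (l 16276008) (l 16279784)) (b (l 16254256) (l 16333144))))) (b (c (a (c (l 16196328) (l 16190976)) (l 16215056)) (a (l 16015984) (c (l 16178608) (l 16148072)))) (c (a (b (l 16168656) (c (l 16252384) (l 16193616))) (b (l 16293336) (c (l 16361568) (l 16280008)))) (a (b (l 16253224) (a (l 16330792) (l 16322880))) (b (a (l 16244272) (l 16160448)) (a (l 16188832) (l 16267144))))))) (a (b (c (a (l 16101704) (l 16125936)) (l 15988896)) (c (a (l 16192656) (l 16159888)) (a (l 16207624) (l 16229424)))) (b (c (a (b (l 16085720) (l 16146176)) (b (l 16083504) (l 16117960))) (a (l 16082120) (l 15966432))) (c (a (b (l 16217544) (l 16304184)) (b (c (l 16210872) (l 16193416)) (a (l 16292144) (l 16092576)))) (a (l 16213792) (b (l 16178752) (c (l 16213760)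 (l 16270440)))))))), by decide +kernel⟩

theorem s12_pp_022_a : ∃ t, chk3 f_pp_022_a t 3 7 1 = true := ex3_b k10_pp_022_a k11_pp_022_a

theorem s13_pp_022_a : ∃ t, chk3 f_pp_022_a t 4 15 1 = true := ex3_c k7_pp_022_a k8_pp_022_a

theorem s14_pp_022_a : ∃ t, chk3 f_pp_022_a t 2 15 1 = true := ex3_a s13_pp_022_a k9_pp_022_a

theorem s15_pp_022_a : ∃ t, chk3 f_pp_022_a t 2 14 1 = true := ex3_a k5_pp_022_a k6_pp_022_a

theorem s16_pp_022_a : ∃ t, chk3 f_pp_022_a t 2 7 1 = true := ex3_b s15_pp_022_a s14_pp_022_a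

theorem s17_pp_022_a : ∃ t, chk3 f_pp_022_a t 1 7 1 = true := ex3_a s16_pp_022_a s12_pp_022_a

theorem s18_pp_022_a : ∃ t, chk3 f_pp_022_a t 2 6 3 = true := ex3_b k2_pp_022_a k3_pp_022_a

theorem s19_pp_022_a : ∃ t, chk3 f_pp_022_a t 2 6 1 = true := ex3_c k1_pp_022_a s18_pp_022_a

theorem s20_pp_022_a : ∃ t, chk3 f_pp_022_a t 1 6 1 = true := ex3_a s19_pp_022_a k4_pp_022_a

theorem s21_pp_022_a : ∃ t, chk3 f_pp_022_a t 1 3 1 = true := ex3_b s20_pp_022_a s17_pp_022_a

theorem s22_pp_022_a : ∃ t, chk3 f_pp_022_a t 1 1 1 = true := ex3_b k0_pp_022_a s21_pp_022_a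

theorem c_pp_022_a : CertNX 0 67108864 0 420477299 1046898278 26843546 3 false true true .pp 0 2 2
    ndN4q0 ndN2q2a pcN2 Cut.none Ext.none :=
  certNX0 (fam := false) (s1 := true) (s2 := true) (a := 0) (b := 2) (c := 2) (cn := .pp) (n1 := ndN4q0) (n2 := ndN2q2a) (pc := pcN2) (cut := Cut.none) (xt := Ext.none) (P1 := 0) (W1 := 67108864) (P2 := 0) (W2 := 420477299) (P3 := 1046898278) (W3 := 26843546) (N0 := 3)
    rfl s22_pp_022_a

noncomputable def f_pp_022_b : ℕ → ℕ → ℕ → ℕ → Bool := onCell 0 67108864 1073741824 536870912 1046898278 26843546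
    (rowNX 3 1 false true true .pp 0 2 2 (qsf 0 67108864 1239849684 370763052 2) ndN4q0 ndN2q2b pcN2 Cut.none Ext.none)

def k0_pp_022_b : ∃ t, chk3 f_pp_022_b t 1 2 1 = true :=
  ⟨(b (b (l 1) (a (a (l 1) (b (l 1) (c (a (l 1) (l 16026480)) (l 314101106599)))) (b (a (l 1) (c (a (l 1) (b (l 1) (l 16111632))) (l 15968184))) (a (c (b (l 16078408) (l 15998520)) (l 231423098039)) (c (a (l 16022824) (l 16136128)) (l 16018080)))))) (b (a (b (b (a (a (l 1) (a (l 1) (a (l 1) (c (l 16071232) (l 16093888))))) (c (a (b (l 16040976) (l 689374480503)) (l 16156880)) (l 295310852087))) (a (c (a (l 15670608) (c (l 15821304) (l 15724448))) (a (c (a (l 15819424) (l 15665368)) (a (a (l 301752513511) (l 339333511207)) (l 15706192))) (c (l 15851456) (l 15879472)))) (c (a (c (l 16001808) (l 15981240)) (l 16076432)) (l 15928456)))) (a (c (a (l 15112384) (c (l 15197832) (a (l 15329456) (l 15338120)))) (a (c (a (l 15170568) (l 15166424)) (a (c (l 15138240) (l 14968032)) (l 15172920))) (c (l 15286376)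 (l 15259384)))) (c (b (l 15411512) (l 15255720)) (l 15312904)))) (b (b (c (a (l 16288472) (l 16009272)) (l 16009656)) (a (l 15985344) (c (l 16121968) (l 16178832)))) (a (b (l 15671632) (l 15423784)) (c (b (l 16068056) (l 15704744)) (l 15803704))))) (a (b (a (c (a (l 14524752) (c (l 14687080) (l 14603072))) (a (c (l 14206456) (a (l 14137192) (l 14400120))) (c (l 14532744) (l 14488736)))) (c (a (l 14588936) (l 14774928)) (l 14667472))) (a (c (a (l 14146928) (c (l 14296592) (l 14203328))) (a (c (l 14045824) (a (l 13951416) (l 13992776))) (l 14088320))) (c (l 14338104) (l 14245664)))) (a (b (l 14710608) (l 14493120)) (b (a (l 15045904) (l 15136048)) (l 14554272)))))), by decide +kernel⟩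

def k1_pp_022_b : ∃ t, chk3 f_pp_022_b t 1 3 1 = true :=
  ⟨(b (a (a (a (c (l 14146400) (c (b (l 14045272) (l 14045272)) (c (l 13992424) (l 13956584)))) (c (b (l 14246648) (l 14246648)) (c (l 14122960) (l 14069368)))) (c (b (l 14337520) (l 14337520)) (l 14245048))) (c (b (l 14644168) (l 14644168)) (l 14540928))) (a (a (c (a (l 14146400) (l 14246648)) (a (c (l 14045272) (l 13973568)) (l 14087688))) (c (l 14337520) (l 14245048))) (c (l 14644168) (l 14540928)))), by decide +kernel⟩

theorem s2_pp_022_b : ∃ t, chk3 f_pp_022_b t 1 1 1 = true := ex3_b k0_pp_022_b k1_pp_022_b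

theorem c_pp_022_b : CertNX 0 67108864 1239849684 370763052 1046898278 26843546 3 false true true .pp 0 2 2
    ndN4q0 ndN2q2b pcN2 Cut.none Ext.none :=
  certNX1 (fam := false) (s1 := true) (s2 := true) (a := 0) (b := 2) (c := 2) (cn := .pp) (n1 := ndN4q0) (n2 := ndN2q2b) (pc := pcN2) (cut := Cut.none) (xt := Ext.none) (P1 := 0) (W1 := 67108864) (P2 := 1239849684) (W2 := 370763052) (P3 := 1046898278) (W3 := 26843546) (N0 := 3)
    rfl (fun _ => rfl) s2_pp_022_b

noncomputable def f_pp_023 : ℕ → ℕ → ℕ → ℕ → Bool := onCell 0 67108864 1073741824 536870912 1046898278 26843546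
    (rowNX 3 1 false true true .up 0 2 3 (qsf 0 67108864 1610612736 469762048 2) ndN4q0 ndN2q3 pcN2 Cut.none Ext.none)

def k0_pp_023 : ∃ t, chk3 f_pp_023 t 1 1 1 = true :=
  ⟨(b (l 1) (b (l 1) (a (a (c (l 666821548679) (a (l 697959696439) (l 14087688))) (l 194912136839)) (c (l 14644168) (l 14540928))))), by decide +kernel⟩

theorem c_pp_023 : CertNX 0 67108864 1610612736 469762048 1046898278 26843546 3 false true true .up 0 2 3
    ndN4q0 ndN2q3 pcN2 Cut.none Ext.none :=
  certNX1 (fam := false) (s1 := true) (s2 := true) (a := 0) (b := 2) (c := 3) (cn := .up) (n1 := ndN4q0) (n2 := ndN2q3) (pc := pcN2) (cut := Cut.none) (xt := Ext.none) (P1 := 0) (W1 := 67108864) (P2 := 1610612736) (W2 := 469762048) (P3 := 1046898278) (W3 := 26843546) (N0 := 3)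
    rfl (fun _ => rfl) k0_pp_023

noncomputable def f_pp_033 : ℕ → ℕ → ℕ → ℕ → Bool := onCell 0 67108864 1610612736 469762048 1046898278 26843546
    (rowNX 3 0 false true true .pnn 0 3 3 (qsf 0 67108864 1610612736 469762048 3) ndN4q0 ndN2q3 pcN3 Cut.none Ext.none)

def k0_pp_033 : ∃ t, chk3 f_pp_033 t 1 1 1 = true :=
  ⟨(b (b (a (a (c (l 14063808) (b (l 14052120) (l 13863376))) (b (l 14270512) (l 14270512))) (c (l 14644168) (l 14540928))) (a (c (a (b (l 14189640) (l 14189640)) (l 14337520)) (a (a (b (l 14007072) (l 14007072)) (l 14045752)) (l 14245048))) (c (l 14581248) (l 14540928)))) (b (b (a (c (a (l 14189640) (l 14337520)) (a (c (l 14088448) (l 14019360)) (l 14245048))) (c (l 14644168) (l 14540928))) (l 4)) (l 4))), by decide +kernel⟩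

theorem c_pp_033 : CertNX 0 67108864 1610612736 469762048 1046898278 26843546 3 false true true .pnn 0 3 3
    ndN4q0 ndN2q3 pcN3 Cut.none Ext.none :=
  certNX0 (fam := false) (s1 := true) (s2 := true) (a := 0) (b := 3) (c := 3) (cn := .pnn) (n1 := ndN4q0) (n2 := ndN2q3) (pc := pcN3) (cut := Cut.none) (xt := Ext.none) (P1 := 0) (W1 := 67108864) (P2 := 1610612736) (W2 := 469762048) (P3 := 1046898278) (W3 := 26843546) (N0 := 3)
    rfl k0_pp_033

noncomputable def f_pm_001 : ℕ → ℕ → ℕ → ℕ → Bool := onCell 0 67108864 536870912 536870912 1046898278 26843546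
    (rowNX 3 0 false true false .up 0 0 1 (qsf 0 67108864 536870912 536870912 0) ndN4q0 ndN2q1 pcN0 Cut.none Ext.none)

def k0_pm_001 : ∃ t, chk3 f_pm_001 t 1 1 1 = true :=
  ⟨(l 4), by decide +kernel⟩

theorem c_pm_001 : CertNX 0 67108864 536870912 536870912 1046898278 26843546 3 false true false .up 0 0 1
    ndN4q0 ndN2q1 pcN0 Cut.none Ext.none :=
  certNX0 (fam := false) (s1 := true) (s2 := false) (a := 0) (b := 0) (c := 1) (cn := .up) (n1 := ndN4q0) (n2 := ndN2q1) (pc := pcN0) (cut := Cut.none) (xt := Ext.none) (P1 := 0) (W1 := 67108864) (P2 := 536870912) (W2 := 536870912) (P3 := 1046898278) (W3 := 26843546) (N0 := 3)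
    rfl k0_pm_001

noncomputable def f_pm_011 : ℕ → ℕ → ℕ → ℕ → Bool := onCell 0 67108864 536870912 536870912 1046898278 26843546
    (rowNX 3 0 false true false .pnn 0 1 1 (qsf 0 67108864 536870912 536870912 1) ndN4q0 ndN2q1 pcN1 Cut.none Ext.none)

def k0_pm_011 : ∃ t, chk3 f_pm_011 t 1 1 1 = true :=
  ⟨(l 4), by decide +kernel⟩

theorem c_pm_011 : CertNX 0 67108864 536870912 536870912 1046898278 26843546 3 false true false .pnn 0 1 1
    ndN4q0 ndN2q1 pcN1 Cut.none Ext.none :=
  certNX0 (fam := false) (s1 := true) (s2 := false) (a := 0) (b := 1) (c := 1) (cn := .pnn) (n1 := ndN4q0) (n2 := ndN2q1) (pc := pcN1) (cut := Cut.none) (xt := Ext.none) (P1 := 0) (W1 := 67108864) (P2 := 536870912) (W2 := 536870912) (P3 := 1046898278) (W3 := 26843546) (N0 := 3)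
    rfl k0_pm_011

noncomputable def f_pm_012_a : ℕ → ℕ → ℕ → ℕ → Bool := onCell 536870912 536870912 0 420477299 1046898278 26843546
    (rowNX 3 2 false true false .pnp 0 1 2 (qsf 0 67108864 0 420477299 1) ndN4q0 ndN2q2a pcN1 Cut.none Ext.none)

def k0_pm_012_a : ∃ t, chk3 f_pm_012_a t 1 1 1 = true :=
  ⟨(a (l 2) (a (l 2) (b (l 2) (l 4)))), by decide +kernel⟩

theorem c_pm_012_a : CertNX 0 67108864 0 420477299 1046898278 26843546 3 false true false .pnp 0 1 2
    ndN4q0 ndN2q2a pcN1 Cut.none Ext.none :=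
  certNX2 (fam := false) (s1 := true) (s2 := false) (a := 0) (b := 1) (c := 2) (cn := .pnp) (n1 := ndN4q0) (n2 := ndN2q2a) (pc := pcN1) (cut := Cut.none) (xt := Ext.none) (P1 := 0) (W1 := 67108864) (P2 := 0) (W2 := 420477299) (P3 := 1046898278) (W3 := 26843546) (N0 := 3)
    rfl (fun _ => rfl) k0_pm_012_a

noncomputable def f_pm_012_b : ℕ → ℕ → ℕ → ℕ → Bool := onCell 0 67108864 1239849684 370763052 1046898278 26843546
    (rowNX 3 0 false true false .pnp 0 1 2 (qsf 0 67108864 1239849684 370763052 1) ndN4q0 ndN2q2b pcN1 Cut.none Ext.none)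

def k0_pm_012_b : ∃ t, chk3 f_pm_012_b t 1 1 1 = true :=
  ⟨(l 2), by decide +kernel⟩

theorem c_pm_012_b : CertNX 0 67108864 1239849684 370763052 1046898278 26843546 3 false true false .pnp 0 1 2
    ndN4q0 ndN2q2b pcN1 Cut.none Ext.none :=
  certNX0 (fam := false) (s1 := true) (s2 := false) (a := 0) (b := 1) (c := 2) (cn := .pnp) (n1 := ndN4q0) (n2 := ndN2q2b) (pc := pcN1) (cut := Cut.none) (xt := Ext.none) (P1 := 0) (W1 := 67108864) (P2 := 1239849684) (W2 := 370763052) (P3 := 1046898278) (W3 := 26843546) (N0 := 3)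
    rfl k0_pm_012_b

noncomputable def f_pm_022_a : ℕ → ℕ → ℕ → ℕ → Bool := onCell 0 67108864 0 420477299 1046898278 26843546
    (rowNX 3 0 false true false .pp 0 2 2 (qsf 0 67108864 0 420477299 2) ndN4q0 ndN2q2a pcN2 Cut.none Ext.none)

def k0_pm_022_a : ∃ t, chk3 f_pm_022_a t 1 2 1 = true :=
  ⟨(a (b (a (a (c (b (l 16190440) (l 16096208)) (c (b (l 16108336) (a (l 16167816) (l 16057464))) (b (a (l 16159816) (l 16179232)) (a (c (l 16178960) (l 16145752)) (l 16079232))))) (c (b (a (l 16019728) (a (l 15948832) (l 15920944))) (a (b (l 15958688) (l 15816520)) (a (l 15760784) (l 15841952)))) (c (b (l 15821592) (a (l 15823344) (l 15880936))) (b (l 15968688) (a (l 15947744) (l 15872288)))))) (b (c (l 15500232) (l 15747552)) (c (a (l 15751776) (l 15580000)) (l 15656552)))) (a (b (a (c (b (l 15933816) (a (l 16033552) (l 15915728))) (a (c (l 15997080) (a (l 16054912) (b (l 16065712) (l 15911544)))) (c (b (l 15955176) (l 15852704)) (b (l 15995672) (l 15914448))))) (c (a (b (l 15858432)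 (l 15821824)) (l 15758392)) (c (a (l 15777544) (l 15798008)) (l 15754136)))) (a (c (b (a (l 15990480) (l 15875600)) (l 15888968)) (a (b (c (l 15993544) (a (c (l 16023440) (l 15903808)) (l 15977168))) (c (l 15954568) (c (l 15964720) (l 15972856)))) (c (l 15878984) (l 15902760)))) (c (c (l 15695240) (l 15687768)) (c (l 15754224) (l 15759248))))) (c (b (a (l 15655824) (l 15469528)) (a (l 15340832) (l 15360344))) (b (l 15557456) (a (l 15555512) (l 15348792)))))) (b (a (c (b (l 15377312) (l 15264320)) (b (l 15388384) (l 15274984))) (c (b (l 14928336) (c (l 14925856) (l 14929808))) (l 15021512))) (c (a (b (l 15118568) (a (l 15170784) (c (l 15041088) (l 15007072)))) (c (b (c (a (l 14922256) (b (l 14805056) (l 14836584))) (l 14841776)) (a (c (l 4) (l 14881560)) (l 4))) (b (l 14847616) (l 14814632)))) (a (b (l 15172544) (l 15107552)) (b (l 14882624) (a (l 14903432) (l 14764400))))))), by decide +kernel⟩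

def k1_pm_022_a : ∃ t, chk3 f_pm_022_a t 1 6 1 = true :=
  ⟨(a (a (c (b (a (c (l 15802416) (l 15812160)) (c (a (l 15613944) (l 15527600)) (a (l 15651488) (l 15579912)))) (a (a (b (l 15777496) (l 15730928)) (b (l 15648208) (l 15631072))) (c (b (a (l 15531808) (l 15477448)) (l 4)) (a (b (l 15564904) (l 15575344)) (l 15538888))))) (a (b (c (a (l 15884392) (l 15759128)) (a (c (l 15898776) (a (l 15933520) (l 15887352))) (l 15811240))) (c (a (l 15714680) (b (l 15688120) (l 15668184))) (a (c (b (l 15817528) (l 15774712)) (b (l 15790056) (a (l 15809880) (l 15769928)))) (b (l 15726048) (l 15710912))))) (b (c (l 15559280) (l 15654664)) (c (b (l 15576344) (l 15587664)) (l 15603632))))) (c (b (a (c (b (l 15459488) (l 15432472)) (l 15228992)) (b (l 15305568) (c (l 4) (l 15288496)))) (c (l 4) (a (l 15462448) (l 122638042151)))) (b (a (l 15352888) (l 15292264)) (a (l 15411816) (b (l 15302616) (c (l 15313080) (l 15332416))))))) (c (b (a (c (l 4) (a (l 15143936) (l 15009128))) (l 4)) (l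 4)) (b (a (a (l 15156496) (l 15025200)) (b (l 14819184) (l 14822464))) (a (b (a (l 15166944) (l 15035688)) (l 15124952)) (c (l 4) (l 14847368)))))), by decide +kernel⟩

def k2_pm_022_a : ∃ t, chk3 f_pm_022_a t 1 7 1 = true :=
  ⟨(a (a (c (b (c (l 4) (a (b (b (l 15700048) (l 15751464)) (a (l 15908112) (l 132839624855))) (b (a (l 15630680) (l 4)) (l 4)))) (a (l 4) (l 4))) (b (a (c (b (a (l 15786344) (b (l 15691128) (l 15739904))) (a (l 15922496) (a (l 15820328) (c (l 15821640) (l 15855944))))) (a (b (a (b (l 15706152) (l 15801280)) (b (l 15733288) (l 15806520))) (c (l 15952824) (a (l 15950712) (l 15960816)))) (b (c (l 15753296) (l 15767136)) (c (l 15868328) (l 15906424))))) (b (c (b (l 15612128) (l 15620000)) (l 15656376)) (c (a (b (l 15766176) (l 15846096)) (l 15748640)) (b (l 15750648) (l 15827904))))) (a (c (b (a (b (l 15942656) (l 16141640)) (a (c (l 16020568) (l 16043264)) (l 16008176))) (a (l 16175640) (c (l 4) (l 16031344)))) (b (a (c (a (l 15996112) (b (l 16058000)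 (l 16149552))) (a (b (c (l 16115328) (l 16107544)) (l 16153440)) (b (l 16088760) (l 16181584)))) (c (l 16036984) (l 16077208))) (a (a (c (l 16343672) (a (l 16254848) (l 16233848))) (c (l 16178120) (l 16274048))) (c (l 16177088) (l 16277584))))) (c (b (l 194580037543) (l 4)) (b (l 15960472) (l 16060600)))))) (c (l 4) (b (b (a (b (c (l 15476488) (l 15489608)) (c (l 15527464) (l 15536792))) (l 15373760)) (c (l 15577536) (l 15582952))) (c (l 4) (b (l 15756152) (l 15962784)))))) (c (l 4) (b (c (l 4) (b (l 15049288) (l 4))) (l 4)))), by decide +kernel⟩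

theorem s3_pm_022_a : ∃ t, chk3 f_pm_022_a t 1 3 1 = true := ex3_b k1_pm_022_a k2_pm_022_a

theorem s4_pm_022_a : ∃ t, chk3 f_pm_022_a t 1 1 1 = true := ex3_b k0_pm_022_a s3_pm_022_a

theorem c_pm_022_a : CertNX 0 67108864 0 420477299 1046898278 26843546 3 false true false .pp 0 2 2
    ndN4q0 ndN2q2a pcN2 Cut.none Ext.none :=
  certNX0 (fam := false) (s1 := true) (s2 := false) (a := 0) (b := 2) (c := 2) (cn := .pp) (n1 := ndN4q0) (n2 := ndN2q2a) (pc := pcN2) (cut := Cut.none) (xt := Ext.none) (P1 := 0) (W1 := 67108864) (P2 := 0) (W2 := 420477299) (P3 := 1046898278) (W3 := 26843546) (N0 := 3)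
    rfl s4_pm_022_a

noncomputable def f_pm_022_b : ℕ → ℕ → ℕ → ℕ → Bool := onCell 0 67108864 1073741824 536870912 1046898278 26843546
    (rowNX 3 1 false true false .pp 0 2 2 (qsf 0 67108864 1239849684 370763052 2) ndN4q0 ndN2q2b pcN2 Cut.none Ext.none)

def k0_pm_022_b : ∃ t, chk3 f_pm_022_b t 1 4 1 = true :=
  ⟨(b (l 1) (a (b (l 1) (a (l 1) (a (l 1) (c (l 806947702583) (l 694741685159))))) (b (b (l 1) (a (l 1) (a (l 1) (b (l 1) (c (l 15006912) (l 15054424)))))) (a (b (c (l 15352048) (l 15378824)) (c (l 15461040) (l 15472248))) (c (b (l 14877672) (l 15324552)) (l 136395216439)))))), by decide +kernel⟩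

def k1_pm_022_b : ∃ t, chk3 f_pm_022_b t 1 5 1 = true :=
  ⟨(b (a (b (a (a (b (l 1) (c (l 16019360) (c (a (l 16221320) (l 16057480)) (a (c (l 16149144) (l 15990496)) (l 16145288))))) (a (b (l 1) (c (l 16043408) (l 15949176))) (b (c (l 758092962087) (l 652329533191)) (c (l 16013880) (l 16107272))))) (b (c (a (c (l 15849592) (l 15856752)) (l 15799344)) (l 158408050263)) (c (l 15880760) (l 16112848)))) (a (c (a (b (l 16025200) (l 15783624)) (b (c (l 16198352) (l 15988576)) (c (l 15869936) (l 15795144)))) (a (b (c (a (l 16069432) (l 15983512)) (a (b (c (l 16151008) (l 16131744)) (l 15815496)) (l 16004592))) (c (l 15626576) (a (l 15543352) (l 15662136)))) (b (c (l 16086040) (l 16063024)) (l 15518816)))) (c (b (a (l 16035344) (l 16153656)) (l 15692632)) (b (l 16038664) (l 15782496))))) (b (b (c (a (l 15716352) (l 15619536)) (l 15552760)) (c (a (l 16030032) (l 15899152)) (l 15918344))) (c (a (b (l 16232096) (l 15952440)) (b (l 16226400) (l 16106904))) (a (b (l 16192576) (l 15891760))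 (l 15958480))))) (a (b (a (c (a (l 15156824) (c (l 15362680) (a (l 15372432) (l 15363480)))) (a (c (a (l 15229224) (l 15203648)) (a (c (l 15177112) (l 15119184)) (l 15183688))) (c (l 15297240) (l 15243992)))) (c (b (l 15395360) (l 15384536)) (l 15145264))) (a (c (a (l 14954352) (c (l 15115480) (l 15015216))) (a (c (a (l 14814096) (l 14872184)) (c (l 14527856) (l 14633552))) (c (l 14927600) (l 14865256)))) (c (a (l 15110656) (l 15190480)) (l 15057640)))) (b (c (a (l 15603080) (c (l 15810488) (l 15842064))) (a (l 15581056) (l 15758432))) (c (a (l 15355056) (l 15481504)) (a (l 15268104) (l 15448000)))))), by decide +kernel⟩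

def k2_pm_022_b : ∃ t, chk3 f_pm_022_b t 1 3 1 = true :=
  ⟨(b (b (a (a (c (c (b (l 14604736) (l 14447424)) (a (l 14306848) (a (l 14593720) (l 14595896)))) (a (c (b (l 14576552) (l 14305504)) (b (l 14331392) (l 14231560))) (c (l 14353368) (l 14465728)))) (c (b (l 14766544) (l 14587640)) (b (l 14783712) (l 14502464)))) (c (a (b (l 15061312) (l 4)) (l 4)) (b (l 15063032) (l 14784240)))) (a (c (a (b (a (l 14172280) (l 4)) (l 4)) (l 4)) (a (b (a (c (l 14071792) (l 14000216)) (l 14113968)) (a (l 14007072) (l 4))) (b (l 14270608) (l 4)))) (l 4))) (l 4)), by decide +kernel⟩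

theorem s3_pm_022_b : ∃ t, chk3 f_pm_022_b t 1 2 1 = true := ex3_b k0_pm_022_b k1_pm_022_b

theorem s4_pm_022_b : ∃ t, chk3 f_pm_022_b t 1 1 1 = true := ex3_b s3_pm_022_b k2_pm_022_b

theorem c_pm_022_b : CertNX 0 67108864 1239849684 370763052 1046898278 26843546 3 false true false .pp 0 2 2
    ndN4q0 ndN2q2b pcN2 Cut.none Ext.none :=
  certNX1 (fam := false) (s1 := true) (s2 := false) (a := 0) (b := 2) (c := 2) (cn := .pp) (n1 := ndN4q0) (n2 := ndN2q2b) (pc := pcN2) (cut := Cut.none) (xt := Ext.none) (P1 := 0) (W1 := 67108864) (P2 := 1239849684) (W2 := 370763052) (P3 := 1046898278) (W3 := 26843546) (N0 := 3)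
    rfl (fun _ => rfl) s4_pm_022_b

noncomputable def f_pm_023 : ℕ → ℕ → ℕ → ℕ → Bool := onCell 0 67108864 1610612736 469762048 1046898278 26843546
    (rowNX 3 0 false true false .up 0 2 3 (qsf 0 67108864 1610612736 469762048 2) ndN4q0 ndN2q3 pcN2 Cut.none Ext.none)

def k0_pm_023 : ∃ t, chk3 f_pm_023 t 1 1 1 = true :=
  ⟨(l 4), by decide +kernel⟩

theorem c_pm_023 : CertNX 0 67108864 1610612736 469762048 1046898278 26843546 3 false true false .up 0 2 3
    ndN4q0 ndN2q3 pcN2 Cut.none Ext.none :=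
  certNX0 (fam := false) (s1 := true) (s2 := false) (a := 0) (b := 2) (c := 3) (cn := .up) (n1 := ndN4q0) (n2 := ndN2q3) (pc := pcN2) (cut := Cut.none) (xt := Ext.none) (P1 := 0) (W1 := 67108864) (P2 := 1610612736) (W2 := 469762048) (P3 := 1046898278) (W3 := 26843546) (N0 := 3)
    rfl k0_pm_023

noncomputable def f_pm_033 : ℕ → ℕ → ℕ → ℕ → Bool := onCell 0 67108864 1610612736 469762048 1046898278 26843546
    (rowNX 3 0 false true false .pnn 0 3 3 (qsf 0 67108864 1610612736 469762048 3) ndN4q0 ndN2q3 pcN3 Cut.none Ext.none)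

def k0_pm_033 : ∃ t, chk3 f_pm_033 t 1 1 1 = true :=
  ⟨(l 4), by decide +kernel⟩

theorem c_pm_033 : CertNX 0 67108864 1610612736 469762048 1046898278 26843546 3 false true false .pnn 0 3 3
    ndN4q0 ndN2q3 pcN3 Cut.none Ext.none :=
  certNX0 (fam := false) (s1 := true) (s2 := false) (a := 0) (b := 3) (c := 3) (cn := .pnn) (n1 := ndN4q0) (n2 := ndN2q3) (pc := pcN3) (cut := Cut.none) (xt := Ext.none) (P1 := 0) (W1 := 67108864) (P2 := 1610612736) (W2 := 469762048) (P3 := 1046898278) (W3 := 26843546) (N0 := 3)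
    rfl k0_pm_033

noncomputable def f_mm_001 : ℕ → ℕ → ℕ → ℕ → Bool := onCell 0 67108864 536870912 536870912 1046898278 26843546
    (rowNX 3 0 false false false .up 0 0 1 (qsf 0 67108864 536870912 536870912 0) ndN4q0 ndN2q1 pcN0 Cut.none Ext.none)

def k0_mm_001 : ∃ t, chk3 f_mm_001 t 1 1 1 = true :=
  ⟨(l 3), by decide +kernel⟩

theorem c_mm_001 : CertNX 0 67108864 536870912 536870912 1046898278 26843546 3 false false false .up 0 0 1
    ndN4q0 ndN2q1 pcN0 Cut.none Ext.none :=
  certNX0 (fam := false) (s1 := false) (s2 := false) (a := 0) (b := 0) (c := 1) (cn := .up) (n1 := ndN4q0) (n2 := ndN2q1) (pc := pcN0) (cut := Cut.none) (xt := Ext.none) (P1 := 0) (W1 := 67108864) (P2 := 536870912) (W2 := 536870912) (P3 := 1046898278) (W3 := 26843546) (N0 := 3)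
    rfl k0_mm_001

noncomputable def f_mm_011 : ℕ → ℕ → ℕ → ℕ → Bool := onCell 0 67108864 536870912 536870912 1046898278 26843546
    (rowNX 3 0 false false false .pnn 0 1 1 (qsf 0 67108864 536870912 536870912 1) ndN4q0 ndN2q1 pcN1 Cut.none Ext.none)

def k0_mm_011 : ∃ t, chk3 f_mm_011 t 1 1 1 = true :=
  ⟨(l 3), by decide +kernel⟩

theorem c_mm_011 : CertNX 0 67108864 536870912 536870912 1046898278 26843546 3 false false false .pnn 0 1 1
    ndN4q0 ndN2q1 pcN1 Cut.none Ext.none :=
  certNX0 (fam := false) (s1 := false) (s2 := false) (a := 0) (b := 1) (c := 1) (cn := .pnn) (n1 := ndN4q0) (n2 := ndN2q1) (pc := pcN1) (cut := Cut.none) (xt := Ext.none) (P1 := 0) (W1 := 67108864) (P2 := 536870912) (W2 := 536870912) (P3 := 1046898278) (W3 := 26843546) (N0 := 3)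
    rfl k0_mm_011

noncomputable def f_mm_012_a : ℕ → ℕ → ℕ → ℕ → Bool := onCell 0 67108864 0 420477299 1046898278 26843546
    (rowNX 3 0 false false false .pnp 0 1 2 (qsf 0 67108864 0 420477299 1) ndN4q0 ndN2q2a pcN1 Cut.none Ext.none)

def k0_mm_012_a : ∃ t, chk3 f_mm_012_a t 1 1 1 = true :=
  ⟨(l 5), by decide +kernel⟩

theorem c_mm_012_a : CertNX 0 67108864 0 420477299 1046898278 26843546 3 false false false .pnp 0 1 2
    ndN4q0 ndN2q2a pcN1 Cut.none Ext.none :=
  certNX0 (fam := false) (s1 := false) (s2 := false) (a := 0) (b := 1) (c := 2) (cn := .pnp) (n1 := ndN4q0) (n2 := ndN2q2a) (pc := pcN1) (cut := Cut.none) (xt := Ext.none) (P1 := 0) (W1 := 67108864) (P2 := 0) (W2 := 420477299) (P3 := 1046898278) (W3 := 26843546) (N0 := 3)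
    rfl k0_mm_012_a

noncomputable def f_mm_012_b : ℕ → ℕ → ℕ → ℕ → Bool := onCell 0 67108864 1239849684 370763052 1046898278 26843546
    (rowNX 3 0 false false false .pnp 0 1 2 (qsf 0 67108864 1239849684 370763052 1) ndN4q0 ndN2q2b pcN1 Cut.none Ext.none)

def k0_mm_012_b : ∃ t, chk3 f_mm_012_b t 1 1 1 = true :=
  ⟨(l 2), by decide +kernel⟩

theorem c_mm_012_b : CertNX 0 67108864 1239849684 370763052 1046898278 26843546 3 false false false .pnp 0 1 2
    ndN4q0 ndN2q2b pcN1 Cut.none Ext.none :=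
  certNX0 (fam := false) (s1 := false) (s2 := false) (a := 0) (b := 1) (c := 2) (cn := .pnp) (n1 := ndN4q0) (n2 := ndN2q2b) (pc := pcN1) (cut := Cut.none) (xt := Ext.none) (P1 := 0) (W1 := 67108864) (P2 := 1239849684) (W2 := 370763052) (P3 := 1046898278) (W3 := 26843546) (N0 := 3)
    rfl k0_mm_012_b

noncomputable def f_mm_022_a : ℕ → ℕ → ℕ → ℕ → Bool := onCell 0 67108864 0 420477299 1046898278 26843546
    (rowNX 3 0 false false false .pp 0 2 2 (qsf 0 67108864 0 420477299 2) ndN4q0 ndN2q2a pcN2 Cut.none Ext.none)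

def k0_mm_022_a : ∃ t, chk3 f_mm_022_a t 1 1 1 = true :=
  ⟨(l 5), by decide +kernel⟩

theorem c_mm_022_a : CertNX 0 67108864 0 420477299 1046898278 26843546 3 false false false .pp 0 2 2
    ndN4q0 ndN2q2a pcN2 Cut.none Ext.none :=
  certNX0 (fam := false) (s1 := false) (s2 := false) (a := 0) (b := 2) (c := 2) (cn := .pp) (n1 := ndN4q0) (n2 := ndN2q2a) (pc := pcN2) (cut := Cut.none) (xt := Ext.none) (P1 := 0) (W1 := 67108864) (P2 := 0) (W2 := 420477299) (P3 := 1046898278) (W3 := 26843546) (N0 := 3)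
    rfl k0_mm_022_a

noncomputable def f_mm_022_b : ℕ → ℕ → ℕ → ℕ → Bool := onCell 0 67108864 1239849684 370763052 1046898278 26843546
    (rowNX 3 0 false false false .pp 0 2 2 (qsf 0 67108864 1239849684 370763052 2) ndN4q0 ndN2q2b pcN2 Cut.none Ext.none)

def k0_mm_022_b : ∃ t, chk3 f_mm_022_b t 1 1 1 = true :=
  ⟨(l 5), by decide +kernel⟩

theorem c_mm_022_b : CertNX 0 67108864 1239849684 370763052 1046898278 26843546 3 false false false .pp 0 2 2
    ndN4q0 ndN2q2b pcN2 Cut.none Ext.none :=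
  certNX0 (fam := false) (s1 := false) (s2 := false) (a := 0) (b := 2) (c := 2) (cn := .pp) (n1 := ndN4q0) (n2 := ndN2q2b) (pc := pcN2) (cut := Cut.none) (xt := Ext.none) (P1 := 0) (W1 := 67108864) (P2 := 1239849684) (W2 := 370763052) (P3 := 1046898278) (W3 := 26843546) (N0 := 3)
    rfl k0_mm_022_b

noncomputable def f_mm_023 : ℕ → ℕ → ℕ → ℕ → Bool := onCell 0 67108864 1610612736 469762048 1046898278 26843546
    (rowNX 3 0 false false false .up 0 2 3 (qsf 0 67108864 1610612736 469762048 2) ndN4q0 ndN2q3 pcN2 Cut.none Ext.none)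

def k0_mm_023 : ∃ t, chk3 f_mm_023 t 1 1 1 = true :=
  ⟨(l 5), by decide +kernel⟩

theorem c_mm_023 : CertNX 0 67108864 1610612736 469762048 1046898278 26843546 3 false false false .up 0 2 3
    ndN4q0 ndN2q3 pcN2 Cut.none Ext.none :=
  certNX0 (fam := false) (s1 := false) (s2 := false) (a := 0) (b := 2) (c := 3) (cn := .up) (n1 := ndN4q0) (n2 := ndN2q3) (pc := pcN2) (cut := Cut.none) (xt := Ext.none) (P1 := 0) (W1 := 67108864) (P2 := 1610612736) (W2 := 469762048) (P3 := 1046898278) (W3 := 26843546) (N0 := 3)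
    rfl k0_mm_023

noncomputable def f_mm_033 : ℕ → ℕ → ℕ → ℕ → Bool := onCell 0 67108864 1610612736 469762048 1046898278 26843546
    (rowNX 3 0 false false false .pnn 0 3 3 (qsf 0 67108864 1610612736 469762048 3) ndN4q0 ndN2q3 pcN3 Cut.none Ext.none)

def k0_mm_033 : ∃ t, chk3 f_mm_033 t 1 1 1 = true :=
  ⟨(l 5), by decide +kernel⟩

theorem c_mm_033 : CertNX 0 67108864 1610612736 469762048 1046898278 26843546 3 false false false .pnn 0 3 3
    ndN4q0 ndN2q3 pcN3 Cut.none Ext.none :=
  certNX0 (fam := false) (s1 := false) (s2 := false) (a := 0) (b := 3) (c := 3) (cn := .pnn) (n1 := ndN4q0) (n2 := ndN2q3) (pc := pcN3) (cut := Cut.none) (xt := Ext.none) (P1 := 0) (W1 := 67108864) (P2 := 1610612736) (W2 := 469762048) (P3 := 1046898278) (W3 := 26843546) (N0 := 3)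
    rfl k0_mm_033

end Pool.Agent.Strip051.G.IE1.Tab.C.NB42

namespace Pool.Agent.Strip051.G.IE1.Tab.C.NB43

open Pool.Agent.Strip051.PB Pool.Agent.Strip051.PB.T
open Pool.Agent.Strip051.G.IE1.Tab

noncomputable def f_pp_001 : ℕ → ℕ → ℕ → ℕ → Bool := onCell 0 67108864 0 536870912 1046898278 26843546
    (rowNX 3 1 false true true .up 0 0 1 (qsf 0 67108864 536870912 536870912 0) ndN4q0 ndN3q1 pcN0 Cut.none Ext.none)

def k0_pp_001 : ∃ t, chk3 f_pp_001 t 1 1 1 = true :=
  ⟨(l 3), by decide +kernel⟩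

theorem c_pp_001 : CertNX 0 67108864 536870912 536870912 1046898278 26843546 3 false true true .up 0 0 1
    ndN4q0 ndN3q1 pcN0 Cut.none Ext.none :=
  certNX1 (fam := false) (s1 := true) (s2 := true) (a := 0) (b := 0) (c := 1) (cn := .up) (n1 := ndN4q0) (n2 := ndN3q1) (pc := pcN0) (cut := Cut.none) (xt := Ext.none) (P1 := 0) (W1 := 67108864) (P2 := 536870912) (W2 := 536870912) (P3 := 1046898278) (W3 := 26843546) (N0 := 3)
    rfl (fun _ => rfl) k0_pp_001

noncomputable def cut_pp_011 : Cut := Cut.of [[⟨0, 0, 0, 67108864⟩, ⟨1, 1, 0, 67108864⟩, ⟨2, 1, 0, 67108864⟩]]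

noncomputable def f_pp_011 : ℕ → ℕ → ℕ → ℕ → Bool := onCell 0 67108864 536870912 536870912 1046898278 26843546
    (rowNX 3 1 false true true .pnn 0 1 1 (qsf 0 67108864 536870912 536870912 1) ndN4q0 ndN3q1 pcN1 cut_pp_011 Ext.none)

def k0_pp_011 : ∃ t, chk3 f_pp_011 t 1 1 1 = true :=
  ⟨(b (l 3) (b (l 3) (b (l 3) (b (l 3) (a (l 6) (l 3)))))), by decide +kernel⟩

theorem c_pp_011 : CertNX 0 67108864 536870912 536870912 1046898278 26843546 3 false true true .pnn 0 1 1
    ndN4q0 ndN3q1 pcN1 cut_pp_011 Ext.none :=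
  certNX1 (fam := false) (s1 := true) (s2 := true) (a := 0) (b := 1) (c := 1) (cn := .pnn) (n1 := ndN4q0) (n2 := ndN3q1) (pc := pcN1) (cut := cut_pp_011) (xt := Ext.none) (P1 := 0) (W1 := 67108864) (P2 := 536870912) (W2 := 536870912) (P3 := 1046898278) (W3 := 26843546) (N0 := 3)
    rfl (fun _ => rfl) k0_pp_011

noncomputable def cut_pp_012 : Cut := Cut.of [[⟨0, 0, 0, 67108864⟩, ⟨1, 1, 0, 67108864⟩, ⟨2, 1, 0, 67108864⟩, ⟨3, 0, 0, 1233125376⟩]]

noncomputable def f_pp_012 : ℕ → ℕ → ℕ → ℕ → Bool := onCell 0 67108864 536870912 536870912 1046898278 26843546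
    (rowNX 3 1 false true true .pnp 0 1 2 (qsf 0 67108864 1073741824 536870912 1) ndN4q0 ndN3q2 pcN1 cut_pp_012 Ext.none)

def k0_pp_012 : ∃ t, chk3 f_pp_012 t 1 1 1 = true :=
  ⟨(b (l 1) (b (l 1) (b (a (l 1) (b (l 1) (b (l 1) (a (l 1) (a (l 1) (c (a (l 1) (b (l 1) (l 1282077911527))) (l 1215503869415))))))) (b (b (a (l 1) (b (a (l 1) (a (b (l 1) (l 6)) (a (c (l 1019548373751) (b (l 14267248) (l 6))) (c (c (l 15245568) (l 14987760)) (c (l 14498904) (b (l 14246936) (l 14547200))))))) (a (l 6) (a (l 6) (a (l 6) (a (l 6) (a (l 6) (c (l 15418624) (l 15284320))))))))) (a (l 6) (a (l 6) (a (l 6) (a (l 6) (a (l 6) (b (c (l 16124080) (l 15881496)) (c (l 16348736) (l 16458240))))))))) (a (l 6) (a (l 6) (a (l 6) (a (l 6) (a (l 6) (a (l 6) (b (c (c (b (c (l 16402840) (l 16445744)) (l 16396656)) (b (l 16417992) (b (l 16398240) (l 16276976)))) (l 16422800)) (c (b (c (l 16339208) (l 16350568)) (l 16309168)) (b (c (b (l 16385128) (c (l 16363376) (l 16376864))) (l 16398824)) (c (l 16345688)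 (b (l 16248408) (c (l 16358592) (l 16350368))))))))))))))))), by decide +kernel⟩

theorem c_pp_012 : CertNX 0 67108864 1073741824 536870912 1046898278 26843546 3 false true true .pnp 0 1 2
    ndN4q0 ndN3q2 pcN1 cut_pp_012 Ext.none :=
  certNX1 (fam := false) (s1 := true) (s2 := true) (a := 0) (b := 1) (c := 2) (cn := .pnp) (n1 := ndN4q0) (n2 := ndN3q2) (pc := pcN1) (cut := cut_pp_012) (xt := Ext.none) (P1 := 0) (W1 := 67108864) (P2 := 1073741824) (W2 := 536870912) (P3 := 1046898278) (W3 := 26843546) (N0 := 3)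
    rfl (fun _ => rfl) k0_pp_012

noncomputable def cut_pp_022 : Cut := Cut.of [[⟨0, 0, 0, 67108864⟩, ⟨1, 1, 0, 67108864⟩, ⟨2, 1, 0, 67108864⟩, ⟨3, 0, 0, 1233125376⟩]]

noncomputable def f_pp_022 : ℕ → ℕ → ℕ → ℕ → Bool := onCell 0 67108864 1073741824 536870912 1046898278 26843546
    (rowNX 3 1 false true true .pp 0 2 2 (qsf 0 67108864 1073741824 536870912 2) ndN4q0 ndN3q2 pcN2 cut_pp_022 Ext.none)

def k0_pp_022 : ∃ t, chk3 f_pp_022 t 4 8 1 = true :=
  ⟨(b (l 6) (a (b (l 6) (b (a (l 6) (a (l 6) (a (l 6) (c (c (l 16306224) (l 16335632)) (c (l 16238232) (l 16179808)))))) (a (b (a (l 6) (c (c (l 16267376) (l 16221072)) (c (c (l 16177912) (l 16149016)) (c (l 16084928) (l 16063344))))) (c (c (c (l 16224368) (l 16198136)) (a (l 16146064) (l 16167136))) (c (c (a (l 16101144) (l 16119488)) (a (l 16047200) (l 16087968))) (c (a (c (l 16043528) (l 16028112)) (a (l 16005648) (l 16042328))) (a (c (a (l 16006512) (b (l 16031024) (l 15997376))) (a (a (l 15985984) (c (l 15995128) (l 15983504)))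 (b (l 16008328) (l 15973896)))) (c (l 15964240) (l 15989544))))))) (c (c (b (c (l 16315768) (l 16295512)) (l 16192480)) (a (b (l 16248120) (l 16172832)) (l 16070312))) (c (a (b (c (l 16205064) (l 16156768)) (l 16097448)) (c (l 16147312) (l 16023288))) (c (b (a (b (l 16122240) (l 16093752)) (l 16104208)) (l 16013832)) (b (a (l 16078096) (l 16079968)) (l 15981496)))))))) (b (a (l 6) (c (c (l 16393240) (c (l 16395312) (l 16368976))) (c (l 16359632) (l 16278912)))) (c (c (b (a (c (b (l 16419408) (l 16394832)) (a (l 16391832) (l 16332888))) (b (l 16340296) (l 16340520))) (a (l 16104328) (l 16218376))) (a (b (a (l 16230152) (l 16316512)) (l 16136728)) (b (b (l 16208720) (l 16238696)) (l 16103112)))) (c (b (a (b (l 16240472) (c (l 16160192) (l 16151056))) (b (l 16266640) (l 16185664))) (a (l 15889856) (l 16040560))) (b (a (b (l 16220128) (c (l 16180120) (l 16151136))) (b (l 16130136) (l 16147728))) (l 15901112))))))), by decide +kernel⟩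

def k1_pp_022 : ∃ t, chk3 f_pp_022 t 5 8 1 = true :=
  ⟨(a (b (l 6) (b (b (a (l 6) (c (c (l 16402680) (l 16428632)) (l 16368960))) (c (c (a (l 16310304) (b (l 16338208) (l 16323208))) (a (c (l 16230256) (l 16351912)) (l 16350760))) (c (a (l 16291368) (l 16269256)) (b (l 16241984) (l 16175552))))) (c (c (c (l 16043384) (b (l 16212664) (l 16074880))) (a (l 16031664) (l 16107504))) (c (l 15974792) (l 15959176))))) (b (a (l 6) (b (l 6) (b (l 6) (c (l 16460200) (l 16477088))))) (c (b (b (c (a (l 16363200) (l 16406560)) (b (l 16472152) (l 16426520))) (c (l 16293472) (l 16316760))) (c (l 15849544) (l 16076664))) (b (b (a (b (l 16466616) (l 16297984)) (b (l 16426616) (l 16393872))) (l 16173016)) (c (l 16044512) (l 15971096)))))), by decide +kernel⟩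

def k2_pp_022 : ∃ t, chk3 f_pp_022 t 3 8 1 = true :=
  ⟨(a (b (b (b (l 6) (a (l 6) (a (l 6) (b (l 6) (c (l 16602528) (l 16608712)))))) (c (b (a (c (l 16507184) (l 16565784)) (c (l 16493672) (b (l 16591648) (l 16554048)))) (a (c (l 16366560) (a (l 16508992) (l 16520624))) (l 16446224))) (b (a (l 16491480) (c (l 16491904) (l 16495944))) (a (c (b (l 16510232) (l 16460832)) (l 16339536)) (l 16385032))))) (b (c (c (l 16275064) (a (l 16202176) (l 16210880))) (a (l 16111152) (l 16142496))) (c (c (b (l 16087336) (a (l 15980360) (l 16032288))) (a (l 16035288) (b (l 16051568) (l 16002544)))) (b (l 15866232) (a (l 15866160) (l 15890568)))))) (b (b (a (b (a (l 6) (b (l 6) (c (l 16643152) (l 16644216)))) (c (c (b (l 16612992) (l 16577488)) (b (l 16625904) (l 16585872))) (c (l 16594120) (b (l 16621008) (l 16574888))))) (c (b (c (a (l 16642088) (l 16617880)) (l 16623920)) (c (l 16523568) (l 16513912))) (b (c (b (l 16647552) (l 16601872)) (b (a (l 16658952) (l 16642712)) (l 16601480)))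 (c (l 16505240) (l 16499776))))) (c (a (b (l 16405848) (l 16361016)) (c (l 16236936) (l 16322856))) (c (b (l 16382896) (l 16285576)) (l 16222480)))) (a (c (b (c (l 16191472) (l 16172584)) (c (b (l 16107840) (l 16194664)) (l 16115568))) (b (l 15992968) (b (l 15970320) (l 16037960)))) (c (b (c (b (l 16178720) (l 16156992)) (l 15934072)) (c (b (l 16251072) (l 16380552)) (l 16261480))) (b (b (l 16081736) (l 16033448)) (l 16081200)))))), by decide +kernel⟩

def k3_pp_022 : ∃ t, chk3 f_pp_022 t 4 18 1 = true :=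
  ⟨(c (a (c (b (b (a (l 16044104) (l 16014936)) (a (l 15776320) (l 15628192))) (a (b (l 15411144) (c (l 15298968) (l 15225392))) (a (b (l 15536488) (l 15061128)) (l 15443408)))) (b (c (b (a (l 15991032) (l 16000872)) (a (l 15702072) (l 15725792))) (a (b (l 15952096) (l 15649272)) (l 15585432))) (b (a (c (l 15421024) (l 15355112)) (l 15427120)) (a (c (l 15148376) (l 14882312)) (l 14937872))))) (b (c (a (c (l 15967080) (l 15789432)) (l 15795560)) (a (c (l 15747192) (l 15777656)) (c (l 15784488) (l 15718584)))) (c (a (b (l 15580112) (a (l 15368600) (l 15303872))) (b (l 15563648) (l 15458928))) (a (b (l 15421296) (a (l 15200672) (l 15213872))) (b (l 15384672) (l 15260560)))))) (a (b (c (a (c (b (l 15722328) (a (l 15590696) (l 15606448))) (a (b (l 15678744) (l 15368288)) (l 15545456))) (c (a (l 15662424) (l 15750056)) (a (l 15575976) (l 15610536)))) (a (a (c (c (b (l 15837792) (l 15500144)) (l 15497944)) (b (c (l 15668112) (c (l 15629104) (l 15616952))) (a (l 15344080) (l 15365864))))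 (c (b (l 15611672) (l 15486304)) (b (l 15620784) (l 15419688)))) (c (b (l 15773472) (l 15470200)) (l 15395744)))) (c (a (a (b (c (l 15281064) (l 15111824)) (c (l 14983312) (l 14911400))) (l 15040216)) (a (c (l 15181248) (l 15091584)) (c (l 15179912) (l 15079416)))) (a (c (a (l 14992648) (l 14940576)) (a (c (l 14933760) (l 14767424)) (l 14918000))) (c (b (l 15156288) (l 14856568)) (l 14850144))))) (b (c (a (c (l 15599680) (l 15591448)) (l 15662336)) (b (l 15681264) (l 15434976))) (c (b (a (l 15256344) (l 15258792)) (a (c (l 15060648) (l 14981592)) (l 15114576))) (b (l 15054720) (a (b (l 14915168) (l 14826592)) (l 14980576))))))), by decide +kernel⟩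

def k4_pp_022 : ∃ t, chk3 f_pp_022 t 5 18 1 = true :=
  ⟨(c (c (b (a (a (l 15828672) (b (l 15879240) (l 15672824))) (b (l 15844640) (l 15650912))) (a (b (a (l 15545400) (l 15582152)) (l 15574984)) (l 15773368))) (b (a (a (l 15591184) (l 15709072)) (b (l 15813888) (l 15685184))) (a (b (a (l 15318464) (l 15486592)) (l 15437392)) (l 15699712)))) (b (b (c (a (l 15786656) (l 15759408)) (l 15622296)) (a (c (l 15530120) (l 15425544)) (c (l 15548248) (l 15494448)))) (b (a (c (a (l 15313120) (l 15403848)) (l 15052400)) (l 15481520)) (c (l 15322752) (l 15325872))))), by decide +kernel⟩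

def k5_pp_022 : ∃ t, chk3 f_pp_022 t 4 19 1 = true :=
  ⟨(a (c (b (a (b (b (c (c (l 15124840) (l 15040880)) (c (l 14955256) (l 14871824))) (c (b (a (l 14983840) (l 15046944)) (c (l 15063216) (l 14972872))) (b (c (l 14886544) (l 14801616)) (c (l 14883240) (l 14798504))))) (c (c (l 15159464) (l 15070264)) (c (l 14983128) (l 14903160)))) (b (c (b (l 15196336) (l 15196984)) (b (l 15034808) (l 15027288))) (c (l 15304224) (l 15134344)))) (c (a (c (l 15286464) (l 15266232)) (l 15542624)) (l 15030832))) (b (c (b (a (b (l 14751360) (l 14421768)) (a (b (l 14814768) (l 14793784)) (c (l 14919704) (l 14803264)))) (a (l 14768576) (l 14786816))) (b (a (c (a (b (l 14600000) (l 14490528)) (b (l 14626536) (l 14561232))) (a (b (l 14504664) (c (l 14415920) (b (l 14371184) (l 14351616)))) (b (l 14525688) (l 14455432)))) (c (b (l 14694152) (l 14671552)) (b (l 14608016) (l 14580920)))) (a (c (l 14622480) (a (l 14480160) (l 14560816))) (l 14687192)))) (c (a (l 15014416) (l 14926808)) (a (c (l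 14870632) (a (l 14730032) (l 14810256))) (l 14830320))))) (c (b (b (c (a (c (l 15408416) (l 15320888)) (l 15481888)) (a (l 15164248) (l 15267112))) (c (a (l 15477696) (l 15600064)) (a (l 15275928) (l 15381520)))) (c (a (l 15672968) (l 15836016)) (a (l 15516456) (l 15620864)))) (b (c (b (a (l 14770136) (l 15104040)) (l 15102992)) (b (l 14661912) (l 14976216))) (c (l 15199464) (l 15222728))))), by decide +kernel⟩

def k6_pp_022 : ∃ t, chk3 f_pp_022 t 5 19 1 = true :=
  ⟨(c (b (b (a (c (a (l 15565816) (l 15664064)) (l 15360640)) (c (l 15819688) (l 15765760))) (a (c (l 15740384) (l 15583752)) (l 15809168))) (a (c (a (l 15921024) (l 15957240)) (l 15716352)) (c (b (l 16142024) (l 16189760)) (l 15857568)))) (b (b (c (a (l 15342480) (l 15643544)) (a (l 15181776) (l 15476664))) (c (l 15461360) (l 15423352))) (a (c (l 15697896) (l 15536584)) (c (b (l 15922248) (a (l 16003568) (l 16124880))) (l 15589032))))), by decide +kernel⟩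

def k7_pp_022 : ∃ t, chk3 f_pp_022 t 3 9 1 = true :=
  ⟨(b (c (a (b (a (b (c (l 15910688) (l 15879144)) (l 15911392)) (c (l 16130416) (l 16081528))) (a (c (l 16037120) (l 15967920)) (c (l 16295064) (l 16176680)))) (b (c (a (l 16348328) (l 16457856)) (l 16170800)) (c (a (l 16446080) (b (l 16271208) (l 16133760))) (a (l 16452808) (l 16246800))))) (a (b (b (a (b (l 15767808) (l 15733168)) (l 15920560)) (l 15625440)) (c (l 15790472) (l 15675960))) (b (c (l 16084976) (l 16017232)) (a (c (l 16336080) (l 16194648)) (b (l 16449184) (l 16318920)))))) (c (b (a (b (c (a (l 16128680) (l 16430168)) (a (l 16017704) (l 16334312))) (a (l 16107000) (c (l 16356168) (l 16444008)))) (b (a (c (l 16099864) (l 16364104)) (c (l 15989984) (l 16156552))) (c (l 16049368) (l 16193952)))) (a (a (c (l 16237480) (l 16116952)) (l 16050096)) (c (l 15833264) (l 16082248)))) (b (a (b (c (l 15810288) (l 15715704)) (a (l 15865544) (c (l 16300920) (l 16083984)))) (b (a (b (l 16277152) (l 16146600)) (l 16338064))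 (l 16219416))) (a (a (b (c (l 16144160) (l 15980848)) (l 16071840)) (l 16138472)) (l 16211312))))), by decide +kernel⟩

def k8_pp_022 : ∃ t, chk3 f_pp_022 t 1 20 1 = true :=
  ⟨(a (b (a (a (c (c (l 15678480) (l 15368144)) (c (a (l 15335960) (l 15351704)) (a (c (l 15195448) (l 14930392)) (l 15259656)))) (a (c (c (b (l 15947432) (a (l 16063880) (l 16135888))) (l 15681112)) (c (l 15479352) (l 15463664))) (c (c (b (l 16067168) (l 16191040)) (b (l 15855544) (l 15960392))) (c (l 15630808) (l 15461360))))) (c (a (a (c (l 15952184) (a (l 15838936) (l 15953440))) (c (l 16051792) (l 16116944))) (c (l 16353008) (l 16259432))) (a (b (c (l 15828664) (l 15754328)) (l 15712632)) (c (l 16139096) (l 15973672))))) (a (c (a (b (a (l 15750080) (c (l 15974336) (l 15827264))) (a (l 15644816) (l 15639512))) (b (c (a (l 16049840) (l 16141280)) (l 15681640)) (c (l 15703968) (a (l 15777456) (l 15797336))))) (a (b (c (a (l 15520912) (l 15460936)) (a (c (l 15392896) (l 15178280)) (l 15426744))) (c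 (a (l 15486152) (l 15562992)) (a (c (l 15373040) (a (l 15276024) (l 15312288))) (l 15400608)))) (b (c (l 15764488) (l 15617424)) (c (l 15641528) (l 15511856))))) (c (b (c (a (l 16171184) (l 16273928)) (l 15945128)) (a (c (l 15870696) (l 15873104)) (c (l 16082800) (l 16013232)))) (b (c (a (l 15924568) (l 16080528)) (l 15853760)) (c (l 15721040) (l 15716144)))))) (b (c (a (c (l 16145688) (l 16255128)) (c (a (l 15887616) (l 15722288)) (l 15931848))) (a (c (l 16362624) (l 16203816)) (l 16016936))) (c (a (b (c (l 16181512) (l 16280992)) (c (l 16199288) (l 16104864))) (b (c (a (l 15942184) (l 15712704)) (l 15982288)) (c (a (l 16163456) (b (l 15878536) (l 16111688))) (l 16199944)))) (b (a (c (l 16286352) (l 16137512)) (l 16113888)) (a (c (l 16098472) (l 15963408)) (c (l 16314104) (l 16195072))))))), by decide +kernel⟩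

def k9_pp_022 : ∃ t, chk3 f_pp_022 t 1 21 1 = true :=
  ⟨(a (c (a (a (b (c (l 15520264) (l 15404136)) (c (l 15140672) (l 15042288))) (c (b (l 15489136) (l 15193792)) (a (l 15055824) (l 15083096)))) (b (a (c (l 15682936) (l 15571664)) (l 15534312)) (c (a (l 15263840) (l 15319296)) (l 15222304)))) (a (a (c (a (l 15008656) (b (l 15304752) (l 14955488))) (c (a (l 14914864) (l 15025592)) (b (l 14867224) (l 14737256)))) (c (b (l 15369768) (l 15003224)) (l 14955528))) (b (c (l 15550416) (l 15432632)) (c (l 15152408) (l 15050752))))) (c (a (b (b (l 15786984) (l 15643888)) (c (b (l 15599896) (l 15395192)) (a (l 15388960) (l 15508816)))) (b (c (a (b (l 16233432) (l 16002704)) (b (l 16296488) (l 16098624))) (a (l 16035632) (l 16001416))) (c (a (l 15654840) (l 15755696)) (l 15461248)))) (b (a (l 15483928) (c (l 15738408) (b (l 15975400) (l 15774584)))) (a (b (l 15400704) (l 15212528)) (c (l 15607216) (l 15507592)))))), by decide +kernel⟩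

def k10_pp_022 : ∃ t, chk3 f_pp_022 t 1 11 1 = true :=
  ⟨(b (a (a (c (b (a (c (l 14758976) (l 14677272)) (c (l 14855200) (l 14738160))) (a (b (l 14434864) (a (l 14219880) (l 14285432))) (a (b (l 14498656) (l 14332304)) (c (l 14494296) (l 14370616))))) (a (c (b (a (l 14560448) (l 14602208)) (a (l 14214240) (b (l 14333704) (l 14166208)))) (a (b (l 14230696) (c (l 14154896) (l 14113168))) (b (l 14492312) (l 14158800)))) (b (c (l 14633320) (l 14553296)) (c (b (l 14362920) (l 14212048)) (l 14227440))))) (c (b (a (c (b (l 14949176) (l 14748784)) (l 14768880)) (b (l 14981120) (l 14802752))) (a (c (l 14495592) (l 14428176)) (l 14558960))) (b (a (b (l 14765720) (l 14583616)) (l 14697528)) (l 14414448)))) (c (b (a (c (l 15121464) (l 15081808)) (c (l 15168504) (l 15314936))) (a (c (l 14762864) (l 14739272)) (c (l 14990592) (l 14945952)))) (a (b (l 14962952) (l 14639816)) (b (l 15164320) (l 14846728))))) (a (a (c (b (a (a (l 14108224) (l 14186816)) (c (l 14150168) (l 14203640))) (a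 (l 14146400) (l 14246648))) (a (c (a (l 14022896) (l 14075328)) (a (c (l 13970936) (l 13934296)) (l 13992512))) (c (l 14123400) (l 14069784)))) (c (c (a (l 14310944) (l 14375432)) (l 14310424)) (l 14245528))) (a (c (c (l 14556344) (l 14537048)) (l 14449040)) (c (c (l 14786328) (l 14738872)) (l 14640264))))), by decide +kernel⟩

def k11_pp_022 : ∃ t, chk3 f_pp_022 t 1 3 1 = true :=
  ⟨(a (b (b (c (a (a (l 14146400) (c (l 14295992) (l 14202712))) (c (l 14350296) (l 14309912))) (a (a (c (l 14045272) (a (l 13950864) (l 13992120))) (l 14024776)) (l 14245048))) (c (a (c (l 14232264) (a (l 14118584) (l 14202712))) (l 14316552)) (a (c (a (l 14045272) (l 14122960)) (c (l 14038384) (l 14003360))) (l 14245048)))) (a (c (a (l 14146400) (l 14246648)) (a (b (c (l 14045272) (l 13973568)) (l 14007072)) (c (l 14122960) (l 14069368)))) (c (l 14337520) (l 14245048)))) (b (c (b (a (l 14543928) (l 14759688)) (l 14644168)) (b (l 14519952) (l 14540928))) (c (l 14644168) (l 14540928)))), by decide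 +kernel⟩

theorem s12_pp_022 : ∃ t, chk3 f_pp_022 t 1 10 1 = true := ex3_b k8_pp_022 k9_pp_022

theorem s13_pp_022 : ∃ t, chk3 f_pp_022 t 1 5 1 = true := ex3_b s12_pp_022 k10_pp_022

theorem s14_pp_022 : ∃ t, chk3 f_pp_022 t 2 19 1 = true := ex3_a k5_pp_022 k6_pp_022

theorem s15_pp_022 : ∃ t, chk3 f_pp_022 t 2 18 1 = true := ex3_a k3_pp_022 k4_pp_022

theorem s16_pp_022 : ∃ t, chk3 f_pp_022 t 2 9 1 = true := ex3_b s15_pp_022 s14_pp_022

theorem s17_pp_022 : ∃ t, chk3 f_pp_022 t 1 9 1 = true := ex3_a s16_pp_022 k7_pp_022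

theorem s18_pp_022 : ∃ t, chk3 f_pp_022 t 2 8 1 = true := ex3_a k0_pp_022 k1_pp_022

theorem s19_pp_022 : ∃ t, chk3 f_pp_022 t 1 8 1 = true := ex3_a s18_pp_022 k2_pp_022

theorem s20_pp_022 : ∃ t, chk3 f_pp_022 t 1 4 1 = true := ex3_b s19_pp_022 s17_pp_022

theorem s21_pp_022 : ∃ t, chk3 f_pp_022 t 1 2 1 = true := ex3_b s20_pp_022 s13_pp_022

theorem s22_pp_022 : ∃ t, chk3 f_pp_022 t 1 1 1 = true := ex3_b s21_pp_022 k11_pp_022

theorem c_pp_022 : CertNX 0 67108864 1073741824 536870912 1046898278 26843546 3 false true true .pp 0 2 2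
    ndN4q0 ndN3q2 pcN2 cut_pp_022 Ext.none :=
  certNX1 (fam := false) (s1 := true) (s2 := true) (a := 0) (b := 2) (c := 2) (cn := .pp) (n1 := ndN4q0) (n2 := ndN3q2) (pc := pcN2) (cut := cut_pp_022) (xt := Ext.none) (P1 := 0) (W1 := 67108864) (P2 := 1073741824) (W2 := 536870912) (P3 := 1046898278) (W3 := 26843546) (N0 := 3)
    rfl (fun _ => rfl) s22_pp_022

noncomputable def f_pp_023 : ℕ → ℕ → ℕ → ℕ → Bool := onCell 0 67108864 1610612736 536870912 1046898278 26843546
    (rowNX 3 0 false true true .up 0 2 3 (qsf 0 67108864 1610612736 536870912 2) ndN4q0 ndN3q3 pcN2 Cut.none Ext.none)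

def k0_pp_023 : ∃ t, chk3 f_pp_023 t 1 1 1 = true :=
  ⟨(b (b (b (a (a (a (l 13895512) (l 14110512)) (l 14270512)) (l 14588440)) (a (l 2) (l 14588440))) (l 2)) (l 2)), by decide +kernel⟩

theorem c_pp_023 : CertNX 0 67108864 1610612736 536870912 1046898278 26843546 3 false true true .up 0 2 3
    ndN4q0 ndN3q3 pcN2 Cut.none Ext.none :=
  certNX0 (fam := false) (s1 := true) (s2 := true) (a := 0) (b := 2) (c := 3) (cn := .up) (n1 := ndN4q0) (n2 := ndN3q3) (pc := pcN2) (cut := Cut.none) (xt := Ext.none) (P1 := 0) (W1 := 67108864) (P2 := 1610612736) (W2 := 536870912) (P3 := 1046898278) (W3 := 26843546) (N0 := 3)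
    rfl k0_pp_023

noncomputable def f_pp_033 : ℕ → ℕ → ℕ → ℕ → Bool := onCell 0 67108864 1610612736 536870912 1046898278 26843546
    (rowNX 3 0 false true true .pnn 0 3 3 (qsf 0 67108864 1610612736 536870912 3) ndN4q0 ndN3q3 pcN3 Cut.none Ext.none)

def k0_pp_033 : ∃ t, chk3 f_pp_033 t 1 1 1 = true :=
  ⟨(b (b (a (a (c (l 14126728) (c (l 14088448) (l 13851584))) (c (l 14337520) (l 14245048))) (c (l 14644168) (l 14540928))) (a (b (c (a (l 14189640) (l 14337520)) (a (a (l 14007072) (l 14087688)) (l 14245048))) (c (a (l 14189640) (l 14337520)) (a (c (l 14088448) (l 14019360)) (l 14245048)))) (b (c (l 14644168) (l 14540928)) (c (l 14644168) (l 14540928))))) (b (b (a (c (a (b (l 14189640) (l 14189616)) (l 14337504)) (a (c (l 14088432) (l 13977400)) (l 14245040))) (c (l 14413464) (l 14540912))) (l 4)) (l 4))), by decide +kernel⟩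

theorem c_pp_033 : CertNX 0 67108864 1610612736 536870912 1046898278 26843546 3 false true true .pnn 0 3 3
    ndN4q0 ndN3q3 pcN3 Cut.none Ext.none :=
  certNX0 (fam := false) (s1 := true) (s2 := true) (a := 0) (b := 3) (c := 3) (cn := .pnn) (n1 := ndN4q0) (n2 := ndN3q3) (pc := pcN3) (cut := Cut.none) (xt := Ext.none) (P1 := 0) (W1 := 67108864) (P2 := 1610612736) (W2 := 536870912) (P3 := 1046898278) (W3 := 26843546) (N0 := 3)
    rfl k0_pp_033

noncomputable def f_pm_001 : ℕ → ℕ → ℕ → ℕ → Bool := onCell 0 67108864 536870912 536870912 1046898278 26843546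
    (rowNX 3 0 false true false .up 0 0 1 (qsf 0 67108864 536870912 536870912 0) ndN4q0 ndN3q1 pcN0 Cut.none Ext.none)

def k0_pm_001 : ∃ t, chk3 f_pm_001 t 1 1 1 = true :=
  ⟨(l 4), by decide +kernel⟩

theorem c_pm_001 : CertNX 0 67108864 536870912 536870912 1046898278 26843546 3 false true false .up 0 0 1
    ndN4q0 ndN3q1 pcN0 Cut.none Ext.none :=
  certNX0 (fam := false) (s1 := true) (s2 := false) (a := 0) (b := 0) (c := 1) (cn := .up) (n1 := ndN4q0) (n2 := ndN3q1) (pc := pcN0) (cut := Cut.none) (xt := Ext.none) (P1 := 0) (W1 := 67108864) (P2 := 536870912) (W2 := 536870912) (P3 := 1046898278) (W3 := 26843546) (N0 := 3)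
    rfl k0_pm_001

noncomputable def f_pm_011 : ℕ → ℕ → ℕ → ℕ → Bool := onCell 0 67108864 536870912 536870912 1046898278 26843546
    (rowNX 3 0 false true false .pnn 0 1 1 (qsf 0 67108864 536870912 536870912 1) ndN4q0 ndN3q1 pcN1 Cut.none Ext.none)

def k0_pm_011 : ∃ t, chk3 f_pm_011 t 1 1 1 = true :=
  ⟨(l 4), by decide +kernel⟩

theorem c_pm_011 : CertNX 0 67108864 536870912 536870912 1046898278 26843546 3 false true false .pnn 0 1 1
    ndN4q0 ndN3q1 pcN1 Cut.none Ext.none :=
  certNX0 (fam := false) (s1 := true) (s2 := false) (a := 0) (b := 1) (c := 1) (cn := .pnn) (n1 := ndN4q0) (n2 := ndN3q1) (pc := pcN1) (cut := Cut.none) (xt := Ext.none) (P1 := 0) (W1 := 67108864) (P2 := 536870912) (W2 := 536870912) (P3 := 1046898278) (W3 := 26843546) (N0 := 3)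
    rfl k0_pm_011

noncomputable def cut_pm_012 : Cut := Cut.of [[⟨0, 0, 0, 67108864⟩, ⟨1, 1, 0, 67108864⟩, ⟨2, 1, 0, 67108864⟩]]

noncomputable def f_pm_012 : ℕ → ℕ → ℕ → ℕ → Bool := onCell 0 67108864 1073741824 536870912 1046898278 26843546
    (rowNX 3 0 false true false .pnp 0 1 2 (qsf 0 67108864 1073741824 536870912 1) ndN4q0 ndN3q2 pcN1 cut_pm_012 Ext.none)

def k0_pm_012 : ∃ t, chk3 f_pm_012 t 1 1 1 = true :=
  ⟨(b (a (b (b (b (l 6) (l 4)) (l 2)) (l 2)) (l 4)) (l 2)), by decide +kernel⟩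

theorem c_pm_012 : CertNX 0 67108864 1073741824 536870912 1046898278 26843546 3 false true false .pnp 0 1 2
    ndN4q0 ndN3q2 pcN1 cut_pm_012 Ext.none :=
  certNX0 (fam := false) (s1 := true) (s2 := false) (a := 0) (b := 1) (c := 2) (cn := .pnp) (n1 := ndN4q0) (n2 := ndN3q2) (pc := pcN1) (cut := cut_pm_012) (xt := Ext.none) (P1 := 0) (W1 := 67108864) (P2 := 1073741824) (W2 := 536870912) (P3 := 1046898278) (W3 := 26843546) (N0 := 3)
    rfl k0_pm_012

noncomputable def cut_pm_022 : Cut := Cut.of [[⟨0, 0, 0, 67108864⟩, ⟨1, 1, 0, 67108864⟩, ⟨2, 1, 0, 67108864⟩]]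

noncomputable def f_pm_022 : ℕ → ℕ → ℕ → ℕ → Bool := onCell 0 67108864 1073741824 536870912 1046898278 26843546
    (rowNX 3 0 false true false .pp 0 2 2 (qsf 0 67108864 1073741824 536870912 2) ndN4q0 ndN3q2 pcN2 cut_pm_022 Ext.none)

def k0_pm_022 : ∃ t, chk3 f_pm_022 t 1 1 1 = true :=
  ⟨(b (a (b (b (b (l 6) (l 4)) (l 4)) (l 4)) (l 4)) (l 4)), by decide +kernel⟩

theorem c_pm_022 : CertNX 0 67108864 1073741824 536870912 1046898278 26843546 3 false true false .pp 0 2 2
    ndN4q0 ndN3q2 pcN2 cut_pm_022 Ext.none :=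
  certNX0 (fam := false) (s1 := true) (s2 := false) (a := 0) (b := 2) (c := 2) (cn := .pp) (n1 := ndN4q0) (n2 := ndN3q2) (pc := pcN2) (cut := cut_pm_022) (xt := Ext.none) (P1 := 0) (W1 := 67108864) (P2 := 1073741824) (W2 := 536870912) (P3 := 1046898278) (W3 := 26843546) (N0 := 3)
    rfl k0_pm_022

noncomputable def f_pm_023 : ℕ → ℕ → ℕ → ℕ → Bool := onCell 0 67108864 1610612736 536870912 1046898278 26843546
    (rowNX 3 0 false true false .up 0 2 3 (qsf 0 67108864 1610612736 536870912 2) ndN4q0 ndN3q3 pcN2 Cut.none Ext.none)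

def k0_pm_023 : ∃ t, chk3 f_pm_023 t 1 1 1 = true :=
  ⟨(l 4), by decide +kernel⟩

theorem c_pm_023 : CertNX 0 67108864 1610612736 536870912 1046898278 26843546 3 false true false .up 0 2 3
    ndN4q0 ndN3q3 pcN2 Cut.none Ext.none :=
  certNX0 (fam := false) (s1 := true) (s2 := false) (a := 0) (b := 2) (c := 3) (cn := .up) (n1 := ndN4q0) (n2 := ndN3q3) (pc := pcN2) (cut := Cut.none) (xt := Ext.none) (P1 := 0) (W1 := 67108864) (P2 := 1610612736) (W2 := 536870912) (P3 := 1046898278) (W3 := 26843546) (N0 := 3)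
    rfl k0_pm_023

noncomputable def f_pm_033 : ℕ → ℕ → ℕ → ℕ → Bool := onCell 0 67108864 1610612736 536870912 1046898278 26843546
    (rowNX 3 0 false true false .pnn 0 3 3 (qsf 0 67108864 1610612736 536870912 3) ndN4q0 ndN3q3 pcN3 Cut.none Ext.none)

def k0_pm_033 : ∃ t, chk3 f_pm_033 t 1 1 1 = true :=
  ⟨(l 4), by decide +kernel⟩

theorem c_pm_033 : CertNX 0 67108864 1610612736 536870912 1046898278 26843546 3 false true false .pnn 0 3 3
    ndN4q0 ndN3q3 pcN3 Cut.none Ext.none :=
  certNX0 (fam := false) (s1 := true) (s2 := false) (a := 0) (b := 3) (c := 3) (cn := .pnn) (n1 := ndN4q0) (n2 := ndN3q3) (pc := pcN3) (cut := Cut.none) (xt := Ext.none) (P1 := 0) (W1 := 67108864) (P2 := 1610612736) (W2 := 536870912) (P3 := 1046898278) (W3 := 26843546) (N0 := 3)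
    rfl k0_pm_033

noncomputable def f_mm_001 : ℕ → ℕ → ℕ → ℕ → Bool := onCell 0 67108864 536870912 536870912 1046898278 26843546
    (rowNX 3 0 false false false .up 0 0 1 (qsf 0 67108864 536870912 536870912 0) ndN4q0 ndN3q1 pcN0 Cut.none Ext.none)

def k0_mm_001 : ∃ t, chk3 f_mm_001 t 1 1 1 = true :=
  ⟨(l 5), by decide +kernel⟩

theorem c_mm_001 : CertNX 0 67108864 536870912 536870912 1046898278 26843546 3 false false false .up 0 0 1
    ndN4q0 ndN3q1 pcN0 Cut.none Ext.none :=
  certNX0 (fam := false) (s1 := false) (s2 := false) (a := 0) (b := 0) (c := 1) (cn := .up) (n1 := ndN4q0) (n2 := ndN3q1) (pc := pcN0) (cut := Cut.none) (xt := Ext.none) (P1 := 0) (W1 := 67108864) (P2 := 536870912) (W2 := 536870912) (P3 := 1046898278) (W3 := 26843546) (N0 := 3)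
    rfl k0_mm_001

noncomputable def f_mm_011 : ℕ → ℕ → ℕ → ℕ → Bool := onCell 0 67108864 536870912 536870912 1046898278 26843546
    (rowNX 3 0 false false false .pnn 0 1 1 (qsf 0 67108864 536870912 536870912 1) ndN4q0 ndN3q1 pcN1 Cut.none Ext.none)

def k0_mm_011 : ∃ t, chk3 f_mm_011 t 1 1 1 = true :=
  ⟨(l 5), by decide +kernel⟩

theorem c_mm_011 : CertNX 0 67108864 536870912 536870912 1046898278 26843546 3 false false false .pnn 0 1 1
    ndN4q0 ndN3q1 pcN1 Cut.none Ext.none :=
  certNX0 (fam := false) (s1 := false) (s2 := false) (a := 0) (b := 1) (c := 1) (cn := .pnn) (n1 := ndN4q0) (n2 := ndN3q1) (pc := pcN1) (cut := Cut.none) (xt := Ext.none) (P1 := 0) (W1 := 67108864) (P2 := 536870912) (W2 := 536870912) (P3 := 1046898278) (W3 := 26843546) (N0 := 3)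
    rfl k0_mm_011

noncomputable def f_mm_012 : ℕ → ℕ → ℕ → ℕ → Bool := onCell 0 67108864 1073741824 536870912 1046898278 26843546
    (rowNX 3 0 false false false .pnp 0 1 2 (qsf 0 67108864 1073741824 536870912 1) ndN4q0 ndN3q2 pcN1 Cut.none Ext.none)

def k0_mm_012 : ∃ t, chk3 f_mm_012 t 1 1 1 = true :=
  ⟨(l 5), by decide +kernel⟩

theorem c_mm_012 : CertNX 0 67108864 1073741824 536870912 1046898278 26843546 3 false false false .pnp 0 1 2
    ndN4q0 ndN3q2 pcN1 Cut.none Ext.none :=
  certNX0 (fam := false) (s1 := false) (s2 := false) (a := 0) (b := 1) (c := 2) (cn := .pnp) (n1 := ndN4q0) (n2 := ndN3q2) (pc := pcN1) (cut := Cut.none) (xt := Ext.none) (P1 := 0) (W1 := 67108864) (P2 := 1073741824) (W2 := 536870912) (P3 := 1046898278) (W3 := 26843546) (N0 := 3)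
    rfl k0_mm_012

noncomputable def f_mm_022 : ℕ → ℕ → ℕ → ℕ → Bool := onCell 0 67108864 1073741824 536870912 1046898278 26843546
    (rowNX 3 0 false false false .pp 0 2 2 (qsf 0 67108864 1073741824 536870912 2) ndN4q0 ndN3q2 pcN2 Cut.none Ext.none)

def k0_mm_022 : ∃ t, chk3 f_mm_022 t 1 1 1 = true :=
  ⟨(l 5), by decide +kernel⟩

theorem c_mm_022 : CertNX 0 67108864 1073741824 536870912 1046898278 26843546 3 false false false .pp 0 2 2
    ndN4q0 ndN3q2 pcN2 Cut.none Ext.none :=
  certNX0 (fam := false) (s1 := false) (s2 := false) (a := 0) (b := 2) (c := 2) (cn := .pp) (n1 := ndN4q0) (n2 := ndN3q2) (pc := pcN2) (cut := Cut.none) (xt := Ext.none) (P1 := 0) (W1 := 67108864) (P2 := 1073741824) (W2 := 536870912) (P3 := 1046898278) (W3 := 26843546) (N0 := 3)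
    rfl k0_mm_022

noncomputable def f_mm_023 : ℕ → ℕ → ℕ → ℕ → Bool := onCell 0 67108864 1610612736 536870912 1046898278 26843546
    (rowNX 3 0 false false false .up 0 2 3 (qsf 0 67108864 1610612736 536870912 2) ndN4q0 ndN3q3 pcN2 Cut.none Ext.none)

def k0_mm_023 : ∃ t, chk3 f_mm_023 t 1 1 1 = true :=
  ⟨(l 5), by decide +kernel⟩

theorem c_mm_023 : CertNX 0 67108864 1610612736 536870912 1046898278 26843546 3 false false false .up 0 2 3
    ndN4q0 ndN3q3 pcN2 Cut.none Ext.none :=
  certNX0 (fam := false) (s1 := false) (s2 := false) (a := 0) (b := 2) (c := 3) (cn := .up) (n1 := ndN4q0) (n2 := ndN3q3) (pc := pcN2) (cut := Cut.none) (xt := Ext.none) (P1 := 0) (W1 := 67108864) (P2 := 1610612736) (W2 := 536870912) (P3 := 1046898278) (W3 := 26843546) (N0 := 3)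
    rfl k0_mm_023

noncomputable def f_mm_033 : ℕ → ℕ → ℕ → ℕ → Bool := onCell 0 67108864 1610612736 536870912 1046898278 26843546
    (rowNX 3 0 false false false .pnn 0 3 3 (qsf 0 67108864 1610612736 536870912 3) ndN4q0 ndN3q3 pcN3 Cut.none Ext.none)

def k0_mm_033 : ∃ t, chk3 f_mm_033 t 1 1 1 = true :=
  ⟨(l 5), by decide +kernel⟩

theorem c_mm_033 : CertNX 0 67108864 1610612736 536870912 1046898278 26843546 3 false false false .pnn 0 3 3
    ndN4q0 ndN3q3 pcN3 Cut.none Ext.none :=
  certNX0 (fam := false) (s1 := false) (s2 := false) (a := 0) (b := 3) (c := 3) (cn := .pnn) (n1 := ndN4q0) (n2 := ndN3q3) (pc := pcN3) (cut := Cut.none) (xt := Ext.none) (P1 := 0) (W1 := 67108864) (P2 := 1610612736) (W2 := 536870912) (P3 := 1046898278) (W3 := 26843546) (N0 := 3)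
    rfl k0_mm_033

end Pool.Agent.Strip051.G.IE1.Tab.C.NB43

namespace Pool.Agent.Strip051.G.IE1.Tab.C.NB45

open Pool.Agent.Strip051.PB Pool.Agent.Strip051.PB.T
open Pool.Agent.Strip051.G.IE1.Tab

noncomputable def f_pp_001 : ℕ → ℕ → ℕ → ℕ → Bool := onCell 0 67108864 536870912 469762048 1046898278 26843546
    (rowNX 3 0 false true true .up 0 0 1 (qsf 0 67108864 536870912 469762048 0) ndN4q0 ndN5q1 pcN0 Cut.none Ext.none)

def k0_pp_001 : ∃ t, chk3 f_pp_001 t 1 1 1 = true :=
  ⟨(l 3), by decide +kernel⟩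

theorem c_pp_001 : CertNX 0 67108864 536870912 469762048 1046898278 26843546 3 false true true .up 0 0 1
    ndN4q0 ndN5q1 pcN0 Cut.none Ext.none :=
  certNX0 (fam := false) (s1 := true) (s2 := true) (a := 0) (b := 0) (c := 1) (cn := .up) (n1 := ndN4q0) (n2 := ndN5q1) (pc := pcN0) (cut := Cut.none) (xt := Ext.none) (P1 := 0) (W1 := 67108864) (P2 := 536870912) (W2 := 469762048) (P3 := 1046898278) (W3 := 26843546) (N0 := 3)
    rfl k0_pp_001

noncomputable def f_pp_011 : ℕ → ℕ → ℕ → ℕ → Bool := onCell 0 67108864 536870912 469762048 1046898278 26843546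
    (rowNX 3 0 false true true .pnn 0 1 1 (qsf 0 67108864 536870912 469762048 1) ndN4q0 ndN5q1 pcN1 Cut.none Ext.none)

def k0_pp_011 : ∃ t, chk3 f_pp_011 t 1 1 1 = true :=
  ⟨(l 3), by decide +kernel⟩

theorem c_pp_011 : CertNX 0 67108864 536870912 469762048 1046898278 26843546 3 false true true .pnn 0 1 1
    ndN4q0 ndN5q1 pcN1 Cut.none Ext.none :=
  certNX0 (fam := false) (s1 := true) (s2 := true) (a := 0) (b := 1) (c := 1) (cn := .pnn) (n1 := ndN4q0) (n2 := ndN5q1) (pc := pcN1) (cut := Cut.none) (xt := Ext.none) (P1 := 0) (W1 := 67108864) (P2 := 536870912) (W2 := 469762048) (P3 := 1046898278) (W3 := 26843546) (N0 := 3)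
    rfl k0_pp_011

noncomputable def f_pp_012 : ℕ → ℕ → ℕ → ℕ → Bool := onCell 0 67108864 536870912 536870912 1046898278 26843546
    (rowNX 3 1 false true true .pnp 0 1 2 (qsf 0 67108864 1073741824 536870912 1) ndN4q0 ndN5q2 pcN1 Cut.none Ext.none)

def k0_pp_012 : ∃ t, chk3 f_pp_012 t 1 1 1 = true :=
  ⟨(b (l 1) (l 3)), by decide +kernel⟩

theorem c_pp_012 : CertNX 0 67108864 1073741824 536870912 1046898278 26843546 3 false true true .pnp 0 1 2
    ndN4q0 ndN5q2 pcN1 Cut.none Ext.none :=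
  certNX1 (fam := false) (s1 := true) (s2 := true) (a := 0) (b := 1) (c := 2) (cn := .pnp) (n1 := ndN4q0) (n2 := ndN5q2) (pc := pcN1) (cut := Cut.none) (xt := Ext.none) (P1 := 0) (W1 := 67108864) (P2 := 1073741824) (W2 := 536870912) (P3 := 1046898278) (W3 := 26843546) (N0 := 3)
    rfl (fun _ => rfl) k0_pp_012

noncomputable def f_pp_022 : ℕ → ℕ → ℕ → ℕ → Bool := onCell 0 67108864 1073741824 536870912 1046898278 26843546
    (rowNX 3 1 false true true .pp 0 2 2 (qsf 0 67108864 1073741824 536870912 2) ndN4q0 ndN5q2 pcN2 Cut.none Ext.none)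

def k0_pp_022 : ∃ t, chk3 f_pp_022 t 2 16 1 = true :=
  ⟨(l 3), by decide +kernel⟩

def k1_pp_022 : ∃ t, chk3 f_pp_022 t 4 17 1 = true :=
  ⟨(b (l 3) (c (c (b (a (b (l 3) (l 484424038119)) (a (b (l 3) (a (b (l 3) (l 16468576)) (c (l 16541336) (l 16514096)))) (b (l 16586304) (b (l 16602424) (l 16591936))))) (a (b (l 16222872) (l 16193896)) (c (a (b (l 16491136) (l 16540432)) (b (l 16612832) (l 16585128))) (a (a (l 16431168) (l 16473800)) (l 16485720))))) (a (b (l 3) (c (l 484960899415) (c (l 489792682887) (l 3)))) (b (a (l 3) (c (l 648707194983) (l 3))) (a (c (a (l 98414283655) (l 16477488)) (l 16427128)) (c (l 16520424) (b (l 16475320) (l 16463216))))))) (a (l 3) (b (l 3) (c (a (c (l 512341603991) (l 3)) (a (l 511804888215) (l 205251873767))) (l 3)))))), by decide +kernel⟩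

def k2_pp_022 : ∃ t, chk3 f_pp_022 t 5 17 1 = true :=
  ⟨(b (c (a (b (l 3) (c (b (l 3) (l 477982081319)) (l 3))) (b (b (l 3) (l 16193040)) (c (a (l 16392416) (b (l 16346712) (l 16353032))) (l 16325160)))) (l 3)) (c (b (c (b (a (a (l 16611040) (l 16558776)) (a (l 16453440) (l 16361184))) (a (a (l 16582544) (c (b (l 16554728) (l 16539936)) (l 16580840))) (a (c (l 16418200) (l 16460240)) (l 16275384)))) (a (b (l 482813953991) (b (l 16459440) (l 16461464))) (b (l 16396976) (b (l 16346920) (l 16324456))))) (c (a (a (b (l 16485264) (c (l 16530024) (l 16580064))) (c (b (l 16511216) (l 16464376)) (b (l 16536936) (l 16499416)))) (a (b (c (l 16417856) (l 16425216)) (l 16376520)) (l 16278632))) (a (c (a (b (l 16574312) (l 16590040)) (l 16483232)) (a (l 16573040) (l 16471728))) (c (l 16169912) (l 16121808))))) (b (c (b (l 655149271575) (a (l 694341086791) (l 454896281815))) (b (l 3) (l 588577295223))) (a (c (c (l 16538712) (l 423758159095)) (l 468318464407)) (c (b (c (l 16259768) (l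 16397224)) (c (l 16179864) (l 16274512))) (b (l 16354160) (c (l 16270872) (l 16373744)))))))), by decide +kernel⟩

def k3_pp_022 : ∃ t, chk3 f_pp_022 t 6 8 1 = true :=
  ⟨(b (b (l 3) (c (b (l 3) (c (b (c (b (l 3) (c (l 16174312) (l 16139552))) (l 3)) (c (b (l 449526917015) (l 16101296)) (l 16083792))) (l 16057360))) (l 3))) (b (c (b (c (b (l 16065896) (l 16000656)) (b (l 15908664) (a (l 16135496) (l 15841640)))) (c (b (a (l 16087752) (l 15973144)) (a (l 16192768) (l 15972688))) (b (a (l 16157056) (c (l 15951464) (l 15953192))) (a (l 16160648) (l 15963272))))) (b (b (l 3) (l 15903960)) (c (b (l 16066848) (a (l 16179240) (l 15984104))) (l 15910520)))) (c (c (b (a (b (l 16193768) (l 16134880)) (l 15925000)) (a (l 16097336) (l 15852472))) (b (b (a (l 16130880) (l 15965080)) (a (c (l 16175832) (l 16071768)) (l 15928400))) (a (c (l 16098056) (l 16024200)) (l 15873104)))) (b (b (c (a (l 16181736) (l 15997544)) (a (l 16224320) (l 16023544))) (c (a (b (l 16193688) (l 16192888)) (l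 15894920)) (a (l 16201632) (b (l 16036680) (l 16036120))))) (c (a (b (l 16093264) (l 16046072)) (l 15883136)) (a (b (l 16064160) (c (l 16104856) (l 16101424))) (b (l 15914840) (l 15907032)))))))), by decide +kernel⟩

def k4_pp_022 : ∃ t, chk3 f_pp_022 t 7 8 1 = true :=
  ⟨(b (b (c (c (b (l 3) (c (l 15627528) (l 3))) (l 3)) (l 3)) (c (c (b (b (a (l 3) (l 15699872)) (c (l 15790160) (b (l 452210604167) (c (l 15781784) (l 15763264))))) (c (b (c (b (l 15788720) (l 15769688)) (b (l 15775136) (l 15741512))) (c (a (l 15821704) (l 15627256)) (l 15707456))) (b (c (b (l 15750496) (l 15722864)) (l 15724416)) (l 15697136)))) (b (a (l 3) (b (l 3) (c (b (l 469390255767) (l 15653200)) (l 15659616)))) (l 15702224))) (b (l 3) (l 574080135719)))) (b (c (b (c (a (b (l 15767336) (l 15767968)) (b (l 15575688) (l 15555648))) (b (l 15658424) (l 15660968))) (c (a (b (l 15749392) (l 15729600)) (c (l 15538552) (l 15527840))) (a (b (l 15760448) (l 15756784)) (b (l 15546504) (l 15530160))))) (b (b (l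 15436136) (l 374364082999)) (b (c (l 15557824) (a (l 15677464) (l 15603024))) (c (a (l 15796488) (l 15574128)) (a (l 15820232) (l 15627376)))))) (c (b (c (a (b (l 15706912) (l 15682168)) (c (l 15478768) (l 15481968))) (a (l 15710856) (l 15504208))) (c (a (l 15442856) (l 15406544)) (a (l 15648608) (l 15448784)))) (b (b (c (a (l 15796952) (l 15560464)) (a (l 15834208) (l 15625496))) (a (c (l 15759736) (l 15667280)) (l 15556776))) (c (a (l 15699952) (l 15484928)) (b (l 15666584) (l 15621768))))))), by decide +kernel⟩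

def k5_pp_022 : ∃ t, chk3 f_pp_022 t 2 72 1 = true :=
  ⟨(c (a (a (c (b (b (l 16268992) (a (l 16253160) (l 16401896))) (b (l 16128536) (l 16162216))) (a (l 76402053687) (c (l 16326904) (b (l 16331904) (l 16338544))))) (c (a (b (a (l 16508800) (l 16566528)) (l 16404576)) (b (c (l 16560240) (l 16588160)) (l 16569168))) (a (c (b (l 16469928) (l 16478176)) (l 16334064)) (c (b (l 16530136) (l 16527536)) (b (l 16479616) (l 16486584)))))) (a (a (b (c (l 16441480) (c (l 16588712) (l 16586432))) (c (l 16511336) (l 16578056))) (c (l 16444232) (l 16395144))) (a (c (l 16349736) (l 16264904)) (l 16235960)))) (a (a (c (a (c (l 16123408) (b (l 3) (l 16169776))) (c (b (l 16300216) (l 16301384)) (b (l 16268192) (l 16263184)))) (a (l 3) (c (b (l 3) (l 16235608)) (l 3)))) (c (a (c (b (l 16362704) (l 16370376)) (b (l 16340768) (l 16343144))) (a (l 257327997079) (b (l 16483544) (l 16495296)))) (a (c (l 506972822951) (l 506972809575)) (c (b (l 16442904) (l 16446488)) (l 16329472))))) (c (a (b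 (c (l 16457936) (a (l 16570936) (l 16503400))) (a (l 16455264) (l 16476440))) (b (c (l 16185864) (l 16244056)) (l 16164632))) (b (a (l 16454088) (c (l 16242384) (l 16238448))) (a (c (l 16486968) (l 16536392)) (a (l 16415744) (l 16314216))))))), by decide +kernel⟩

def k6_pp_022 : ∃ t, chk3 f_pp_022 t 2 73 1 = true :=
  ⟨(c (a (a (c (b (a (l 16261856) (l 16396608)) (l 16161456)) (a (b (l 16220248) (l 16220376)) (b (l 16295200) (l 16308768)))) (c (a (b (l 16505280) (l 16514536)) (l 16556072)) (a (b (c (l 16471968) (l 16424376)) (l 16439232)) (b (l 16503600) (l 16496400))))) (a (c (l 16472760) (l 16507040)) (l 16214016))) (a (a (a (c (b (l 16090760) (l 16178464)) (c (b (l 16078952) (l 16077080)) (b (a (l 3) (l 16142144)) (c (l 16058192) (l 16067656))))) (c (b (c (l 16307208) (l 16265488)) (c (l 16309368) (l 16268712))) (c (b (l 16233120) (l 16235728)) (l 16154840)))) (c (a (b (l 16327040) (l 16323408)) (b (l 16444840) (l 16457256))) (b (l 16241800) (a (l 16332912) (l 16440144)))))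 (c (a (b (l 16407976) (l 16483120)) (l 16304896)) (b (a (l 16408968) (l 16265056)) (l 16226144))))), by decide +kernel⟩

def k7_pp_022 : ∃ t, chk3 f_pp_022 t 2 37 1 = true :=
  ⟨(c (c (a (a (l 16156912) (b (l 16285768) (l 16284376))) (a (b (l 16485648) (l 16510816)) (b (l 16330144) (l 16363296)))) (a (a (b (b (a (l 16211472) (l 16342016)) (l 16181088)) (l 16174328)) (a (b (l 16399896) (l 16377696)) (l 16385624))) (b (l 16262080) (l 16307776)))) (a (a (c (a (b (b (l 16179968) (l 16171792)) (c (l 16160864) (l 16144320))) (b (c (l 16210768) (a (l 16245296) (l 16271848))) (l 16104312))) (a (c (b (a (l 16115496) (l 16170600)) (a (l 16102648) (l 16110064))) (b (a (c (l 16097344) (l 16084144)) (l 16138376)) (a (c (l 16089760) (b (l 16083392) (l 16076336))) (l 16127744)))) (c (b (l 16213000) (l 16208856)) (b (l 16114312) (l 16199160))))) (c (a (b (b (l 16334784) (l 16345312)) (l 16317568)) (l 16423720)) (b (c (a (l 16334384) (l 16435512)) (l 16253168)) (l 16348160)))) (b (c (l 16350768)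 (a (l 16340440) (l 16348544))) (c (l 16346280) (l 16449344))))), by decide +kernel⟩

def k8_pp_022 : ∃ t, chk3 f_pp_022 t 3 18 1 = true :=
  ⟨(b (c (a (b (c (l 15798736) (a (l 16064128) (l 15839184))) (c (l 15986120) (l 15895832))) (a (b (c (l 15612416) (l 15639880)) (l 15673984)) (l 15440992))) (a (b (a (c (l 16098968) (b (c (l 16129792) (l 16091368)) (l 16152912))) (l 15915088)) (c (l 16003032) (l 16052744))) (b (c (l 15577888) (l 15466360)) (c (l 15628224) (l 15596160))))) (a (c (b (c (l 16024176) (l 15999896)) (c (l 16055936) (l 16038016))) (b (c (l 16038184) (l 16071216)) (c (l 16079384) (l 16066784)))) (c (a (b (l 15716896) (l 15776016)) (b (l 15410160) (l 15933224))) (b (a (l 15786160) (b (l 15618656) (l 15735704))) (a (b (l 15834984) (l 15968424)) (l 16006136)))))), by decide +kernel⟩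

def k9_pp_022 : ∃ t, chk3 f_pp_022 t 2 19 1 = true :=
  ⟨(b (c (a (b (a (c (l 16183448) (a (l 16130888) (l 16185800))) (c (a (b (l 16388944) (l 16296688)) (l 16437928)) (a (l 16260016) (l 16363344)))) (a (a (l 16130600) (l 16183656)) (c (a (l 16366096) (l 16437992)) (a (l 16306472) (l 16329936))))) (b (a (c (b (l 16514104) (l 16424920)) (a (l 16424888) (l 16519224))) (b (l 16380096) (l 16367488))) (a (c (l 16489400) (l 16451896)) (l 16327784)))) (a (a (b (c (a (l 16116080) (a (l 16171720) (l 16187864))) (a (c (a (l 16074520) (l 16121400)) (a (c (l 16064384) (l 16056720)) (l 16100928))) (c (l 16175776) (l 16169064)))) (a (c (l 16119744) (a (l 15977616) (l 16065040))) (c (l 16184976) (l 16175248)))) (b (c (a (l 16206616) (l 16348856)) (l 16220816)) (c (l 16261832) (l 16302888)))) (b (c (a (l 16430704) (l 16309792)) (b (l 16467160) (l 16414344))) (c (a (l 16483000) (l 16341696)) (l 16273960))))) (b (a (c (a (c (l 16151688) (l 16066968)) (c (a (l 16387920) (l 16474120)) (a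 (l 16327096) (l 16381968)))) (a (c (a (l 16129760) (l 16211192)) (a (c (l 16121952) (l 16052248)) (l 16187648))) (c (a (l 16265976) (l 16347576)) (l 16310152)))) (c (a (c (l 16379344) (l 16433280)) (a (l 16301344) (l 16283728))) (a (c (l 16388560) (l 16388664)) (b (c (l 16311696) (l 16324560)) (a (l 16358440) (l 16392512)))))) (a (c (a (a (l 16090992) (c (l 16343896) (l 16219480))) (a (c (l 16435344) (l 16385664)) (l 16157512))) (a (c (a (l 16128712) (c (l 16212440) (l 16203288))) (a (c (l 16119344) (l 16094144)) (l 16182288))) (c (b (l 16195528) (l 16167688)) (a (l 16271592) (l 16301272))))) (c (a (a (c (l 16322432) (l 16399104)) (l 16148752)) (l 16428960)) (a (b (a (l 16306320) (l 16280824)) (c (l 16438992) (l 16357680))) (l 16332864)))))), by decide +kernel⟩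

def k10_pp_022 : ∃ t, chk3 f_pp_022 t 3 19 1 = true :=
  ⟨(b (b (a (c (a (l 16183816) (b (l 16021928) (l 16084816))) (a (c (l 16119368) (l 16024568)) (b (l 15951264) (b (l 16144272) (l 16207664))))) (c (b (l 16021600) (a (l 16250928) (l 16394656))) (b (l 16195920) (l 16252584)))) (a (c (a (l 16069752) (l 16276328)) (a (c (l 16167280) (b (l 16218888) (l 16316248))) (l 16355512))) (c (l 16244160) (l 16389920)))) (c (a (b (l 16323832) (l 16382536)) (c (a (l 16382432) (l 16311424)) (l 16277400))) (a (b (l 16289000) (l 16200824)) (b (l 16267192) (l 16060024))))), by decide +kernel⟩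

def k11_pp_022 : ∃ t, chk3 f_pp_022 t 2 20 1 = true :=
  ⟨(b (a (c (a (b (a (l 16211520) (l 16322648)) (a (l 16276704) (l 16212520))) (b (a (c (l 16326864) (l 16419544)) (c (l 16327424) (l 16426672))) (c (l 16297888) (l 16164936)))) (a (a (b (c (l 16076128) (c (l 16017512) (a (l 16085744) (l 16123472)))) (b (c (l 16227480) (c (l 16117544) (a (l 16094216) (l 16143744)))) (c (l 16239152) (a (l 15981344) (l 16039688))))) (b (c (a (l 16208472) (l 16219744)) (c (l 16125432) (l 16173240))) (c (b (l 16176048) (l 16230048)) (c (l 16096392) (l 16015640))))) (b (c (a (b (l 16341504) (l 16340176)) (l 16353008)) (b (a (l 16285312) (l 16342064)) (a (l 16268576) (l 16255136)))) (c (l 16190472) (l 16114504))))) (c (a (b (l 16233440) (l 16120384)) (l 16008224)) (b (c (l 16271912) (l 16192256)) (l 15835720)))) (b (a (c (a (l 16162816) (c (l 16185784) (a (l 16150224) (l 16063520)))) (a (c (a (l 16135736) (l 15992736)) (a (c (l 16066272) (l 15891552)) (l 15969592))) (c (l 16009800) (l 15930928))))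 (c (a (l 15842856) (l 15933608)) (l 15722296))) (a (b (c (a (l 16135528) (c (l 16113328) (l 15853696))) (a (c (a (l 16028616) (l 15989112)) (a (c (l 15960984) (l 15913344)) (l 15884424))) (c (l 15899424) (l 15822752)))) (c (b (a (l 16092824) (a (l 16019792) (l 15938408))) (a (l 15936672) (c (l 15810488) (a (l 15960216) (l 15865240))))) (a (b (c (l 15827016) (a (l 15767944) (l 15858160))) (c (a (l 15978464) (l 15847000)) (a (c (l 15920832) (l 15775168)) (l 15839192)))) (b (l 15605992) (c (l 15829600) (l 15765320)))))) (b (c (a (l 15790352) (l 15816480)) (l 15735416)) (c (b (a (l 15856984) (l 15749864)) (a (c (l 15842216) (l 15772648)) (l 15702952))) (b (l 15685240) (l 15649688))))))), by decide +kernel⟩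

def k12_pp_022 : ∃ t, chk3 f_pp_022 t 3 20 1 = true :=
  ⟨(b (c (a (b (l 16188328) (l 16009928)) (c (a (l 16030888) (l 15750952)) (l 15877120))) (a (b (l 16031688) (l 15862872)) (l 15593496))) (b (c (a (l 15846656) (a (l 15754336) (c (l 15746088) (c (l 15675952) (l 15619136))))) (a (l 15694272) (l 15534312))) (c (b (a (l 15727448) (c (a (l 15682936) (l 15620600)) (a (l 15600880) (l 15537552)))) (a (b (l 15650720) (l 15596640)) (c (b (l 15522824) (a (l 15531880) (l 15460192))) (a (b (l 15517480) (l 15458216)) (b (l 15447272) (l 15382352)))))) (b (a (l 15577968) (l 15415440)) (b (l 15398224) (a (l 15466120) (l 15279744))))))), by decide +kernel⟩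

def k13_pp_022 : ∃ t, chk3 f_pp_022 t 1 21 1 = true :=
  ⟨(a (a (c (b (a (l 15679752) (a (l 15557968) (l 15451384))) (a (l 15279896) (c (l 15232120) (l 15133088)))) (a (c (a (l 15347688) (b (l 15634888) (l 15152176))) (a (c (l 15187992) (a (l 15205992) (l 15342144))) (l 15125392))) (c (b (l 15551968) (l 15046824)) (l 15236432)))) (a (c (b (l 15385040) (l 15025160)) (l 15038704)) (c (l 15099592) (l 15069216)))) (c (b (a (l 15309472) (c (a (l 15167080) (b (l 15344608) (l 15230936))) (a (l 15195648) (b (l 15262096) (l 15144096))))) (a (a (l 14868064) (c (l 14918000) (l 14869904))) (b (c (l 15107312) (c (l 15056728) (l 15043472))) (c (l 15056032) (l 15005640))))) (a (b (l 15181008) (l 14765960)) (b (b (l 15147808) (a (l 14948896) (c (l 15081184) (l 14961368)))) (c (l 14861520) (l 14836552)))))), by decide +kernel⟩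

def k14_pp_022 : ∃ t, chk3 f_pp_022 t 1 11 1 = true :=
  ⟨(b (a (a (c (a (b (l 14789616) (b (l 14431192) (l 14233184))) (b (c (l 14740984) (l 14642000)) (a (b (l 14378192) (l 14258352)) (c (l 14370040) (l 14251056))))) (a (c (b (l 14558992) (a (l 14243848) (l 14153784))) (a (a (l 14210256) (b (l 14633488) (l 14164280))) (b (l 14575736) (l 14131112)))) (b (l 14391672) (c (l 14199232) (l 14141624))))) (c (a (b (a (l 14567136) (l 14522008)) (l 14330968)) (b (l 14536624) (l 14414632))) (b (a (l 14447216) (l 14447000)) (l 14281512)))) (c (b (a (a (l 14627568) (c (l 14779240) (l 14764568))) (c (l 14978184) (l 14917456))) (c (a (l 14623400) (l 14863040)) (l 14459640))) (a (l 14534920) (b (l 14798920) (l 14701144))))) (a (a (c (a (l 14147000) (c (l 14296104) (l 14202816))) (a (c (a (l 14023000) (l 14074984)) (c (l 13993024) (l 13957184))) (l 14087776))) (c (b (l 14337776) (l 14337520)) (l 14245160))) (c (a (l 14544104) (l 14696968)) (l 14352352)))), by decide +kernel⟩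

def k15_pp_022 : ∃ t, chk3 f_pp_022 t 1 3 1 = true :=
  ⟨(a (b (c (a (b (a (l 14146400) (c (l 14295992) (l 14202712))) (a (l 14146400) (l 14246648))) (b (l 14337520) (l 14337520))) (a (a (c (b (l 14045272) (l 14045272)) (a (b (l 13950864) (l 13950864)) (l 13992120))) (b (l 14087688) (l 14087688))) (b (l 14245048) (l 14245048)))) (a (c (a (l 14146400) (l 14246648)) (b (c (l 14088448) (l 13935472)) (a (l 14007072) (l 14087688)))) (c (l 14337520) (l 14245048)))) (b (c (b (a (l 14543928) (l 14759688)) (a (l 14543928) (l 14759688))) (b (l 14540928) (l 14540928))) (c (l 14644168) (l 14540928)))), by decide +kernel⟩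

theorem s16_pp_022 : ∃ t, chk3 f_pp_022 t 1 20 1 = true := ex3_a k11_pp_022 k12_pp_022

theorem s17_pp_022 : ∃ t, chk3 f_pp_022 t 1 10 1 = true := ex3_b s16_pp_022 k13_pp_022

theorem s18_pp_022 : ∃ t, chk3 f_pp_022 t 1 5 1 = true := ex3_b s17_pp_022 k14_pp_022

theorem s19_pp_022 : ∃ t, chk3 f_pp_022 t 1 19 1 = true := ex3_a k9_pp_022 k10_pp_022

theorem s20_pp_022 : ∃ t, chk3 f_pp_022 t 2 36 1 = true := ex3_b k5_pp_022 k6_pp_022

theorem s21_pp_022 : ∃ t, chk3 f_pp_022 t 2 18 1 = true := ex3_b s20_pp_022 k7_pp_022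

theorem s22_pp_022 : ∃ t, chk3 f_pp_022 t 1 18 1 = true := ex3_a s21_pp_022 k8_pp_022

theorem s23_pp_022 : ∃ t, chk3 f_pp_022 t 1 9 1 = true := ex3_b s22_pp_022 s19_pp_022

theorem s24_pp_022 : ∃ t, chk3 f_pp_022 t 3 8 1 = true := ex3_a k3_pp_022 k4_pp_022

theorem s25_pp_022 : ∃ t, chk3 f_pp_022 t 2 17 1 = true := ex3_a k1_pp_022 k2_pp_022

theorem s26_pp_022 : ∃ t, chk3 f_pp_022 t 2 8 1 = true := ex3_b k0_pp_022 s25_pp_022

theorem s27_pp_022 : ∃ t, chk3 f_pp_022 t 1 8 1 = true := ex3_a s26_pp_022 s24_pp_022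

theorem s28_pp_022 : ∃ t, chk3 f_pp_022 t 1 4 1 = true := ex3_b s27_pp_022 s23_pp_022

theorem s29_pp_022 : ∃ t, chk3 f_pp_022 t 1 2 1 = true := ex3_b s28_pp_022 s18_pp_022

theorem s30_pp_022 : ∃ t, chk3 f_pp_022 t 1 1 1 = true := ex3_b s29_pp_022 k15_pp_022

theorem c_pp_022 : CertNX 0 67108864 1073741824 536870912 1046898278 26843546 3 false true true .pp 0 2 2
    ndN4q0 ndN5q2 pcN2 Cut.none Ext.none :=
  certNX1 (fam := false) (s1 := true) (s2 := true) (a := 0) (b := 2) (c := 2) (cn := .pp) (n1 := ndN4q0) (n2 := ndN5q2) (pc := pcN2) (cut := Cut.none) (xt := Ext.none) (P1 := 0) (W1 := 67108864) (P2 := 1073741824) (W2 := 536870912) (P3 := 1046898278) (W3 := 26843546) (N0 := 3)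
    rfl (fun _ => rfl) s30_pp_022

noncomputable def f_pp_023 : ℕ → ℕ → ℕ → ℕ → Bool := onCell 0 67108864 0 1230186008 1046898278 26843546
    (rowNX 3 0 false true true .up 0 2 3 (qsf 0 67108864 0 1230186008 2) ndN4q0 ndN5q3 pcN2 Cut.none Ext.none)

def k0_pp_023 : ∃ t, chk3 f_pp_023 t 1 1 1 = true :=
  ⟨(b (l 2) (b (l 2) (b (l 2) (b (l 2) (a (a (c (l 14189640) (c (l 14088448) (l 14019360))) (c (l 14337520) (l 14245048))) (l 14567464)))))), by decide +kernel⟩

theorem c_pp_023 : CertNX 0 67108864 0 1230186008 1046898278 26843546 3 false true true .up 0 2 3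
    ndN4q0 ndN5q3 pcN2 Cut.none Ext.none :=
  certNX0 (fam := false) (s1 := true) (s2 := true) (a := 0) (b := 2) (c := 3) (cn := .up) (n1 := ndN4q0) (n2 := ndN5q3) (pc := pcN2) (cut := Cut.none) (xt := Ext.none) (P1 := 0) (W1 := 67108864) (P2 := 0) (W2 := 1230186008) (P3 := 1046898278) (W3 := 26843546) (N0 := 3)
    rfl k0_pp_023

noncomputable def f_pp_033 : ℕ → ℕ → ℕ → ℕ → Bool := onCell 0 67108864 0 1230186008 1046898278 26843546
    (rowNX 3 0 false true true .pnn 0 3 3 (qsf 0 67108864 0 1230186008 3) ndN4q0 ndN5q3 pcN3 Cut.none Ext.none)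

def k0_pp_033 : ∃ t, chk3 f_pp_033 t 1 1 1 = true :=
  ⟨(b (l 4) (b (b (b (l 4) (a (c (l 4) (a (a (l 2142880647063) (l 14087616)) (l 14244976))) (c (l 14644096) (l 14540848)))) (a (c (a (b (l 14189608) (l 14189640)) (b (l 14337488) (l 14337520))) (c (a (b (l 14088416) (l 14088448)) (l 14278184)) (b (l 14093072) (l 14114080)))) (c (b (l 14644136) (l 14644168)) (b (l 14540888) (l 14540928))))) (c (b (a (a (b (l 14189640) (l 14189640)) (l 14337520)) (l 14497360)) (a (a (b (l 14189640) (l 14189640)) (l 14337520)) (l 14644168))) (b (a (c (a (a (l 14045272) (l 14122960)) (l 14278200)) (b (l 14114080) (l 14114080))) (l 14540928)) (a (a (b (a (l 14007072) (l 14087688)) (c (l 14088448) (l 14019360))) (l 14245048)) (l 14540928)))))), by decide +kernel⟩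

theorem c_pp_033 : CertNX 0 67108864 0 1230186008 1046898278 26843546 3 false true true .pnn 0 3 3
    ndN4q0 ndN5q3 pcN3 Cut.none Ext.none :=
  certNX0 (fam := false) (s1 := true) (s2 := true) (a := 0) (b := 3) (c := 3) (cn := .pnn) (n1 := ndN4q0) (n2 := ndN5q3) (pc := pcN3) (cut := Cut.none) (xt := Ext.none) (P1 := 0) (W1 := 67108864) (P2 := 0) (W2 := 1230186008) (P3 := 1046898278) (W3 := 26843546) (N0 := 3)
    rfl k0_pp_033

noncomputable def f_pm_001 : ℕ → ℕ → ℕ → ℕ → Bool := onCell 0 67108864 536870912 469762048 1046898278 26843546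
    (rowNX 3 0 false true false .up 0 0 1 (qsf 0 67108864 536870912 469762048 0) ndN4q0 ndN5q1 pcN0 Cut.none Ext.none)

def k0_pm_001 : ∃ t, chk3 f_pm_001 t 1 1 1 = true :=
  ⟨(l 4), by decide +kernel⟩

theorem c_pm_001 : CertNX 0 67108864 536870912 469762048 1046898278 26843546 3 false true false .up 0 0 1
    ndN4q0 ndN5q1 pcN0 Cut.none Ext.none :=
  certNX0 (fam := false) (s1 := true) (s2 := false) (a := 0) (b := 0) (c := 1) (cn := .up) (n1 := ndN4q0) (n2 := ndN5q1) (pc := pcN0) (cut := Cut.none) (xt := Ext.none) (P1 := 0) (W1 := 67108864) (P2 := 536870912) (W2 := 469762048) (P3 := 1046898278) (W3 := 26843546) (N0 := 3)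
    rfl k0_pm_001

noncomputable def f_pm_011 : ℕ → ℕ → ℕ → ℕ → Bool := onCell 0 67108864 536870912 469762048 1046898278 26843546
    (rowNX 3 0 false true false .pnn 0 1 1 (qsf 0 67108864 536870912 469762048 1) ndN4q0 ndN5q1 pcN1 Cut.none Ext.none)

def k0_pm_011 : ∃ t, chk3 f_pm_011 t 1 1 1 = true :=
  ⟨(l 4), by decide +kernel⟩

theorem c_pm_011 : CertNX 0 67108864 536870912 469762048 1046898278 26843546 3 false true false .pnn 0 1 1
    ndN4q0 ndN5q1 pcN1 Cut.none Ext.none :=
  certNX0 (fam := false) (s1 := true) (s2 := false) (a := 0) (b := 1) (c := 1) (cn := .pnn) (n1 := ndN4q0) (n2 := ndN5q1) (pc := pcN1) (cut := Cut.none) (xt := Ext.none) (P1 := 0) (W1 := 67108864) (P2 := 536870912) (W2 := 469762048) (P3 := 1046898278) (W3 := 26843546) (N0 := 3)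
    rfl k0_pm_011

noncomputable def f_pm_012 : ℕ → ℕ → ℕ → ℕ → Bool := onCell 0 67108864 1073741824 536870912 1046898278 26843546
    (rowNX 3 0 false true false .pnp 0 1 2 (qsf 0 67108864 1073741824 536870912 1) ndN4q0 ndN5q2 pcN1 Cut.none Ext.none)

def k0_pm_012 : ∃ t, chk3 f_pm_012 t 1 1 1 = true :=
  ⟨(l 4), by decide +kernel⟩

theorem c_pm_012 : CertNX 0 67108864 1073741824 536870912 1046898278 26843546 3 false true false .pnp 0 1 2
    ndN4q0 ndN5q2 pcN1 Cut.none Ext.none :=
  certNX0 (fam := false) (s1 := true) (s2 := false) (a := 0) (b := 1) (c := 2) (cn := .pnp) (n1 := ndN4q0) (n2 := ndN5q2) (pc := pcN1) (cut := Cut.none) (xt := Ext.none) (P1 := 0) (W1 := 67108864) (P2 := 1073741824) (W2 := 536870912) (P3 := 1046898278) (W3 := 26843546) (N0 := 3)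
    rfl k0_pm_012

noncomputable def f_pm_022 : ℕ → ℕ → ℕ → ℕ → Bool := onCell 0 67108864 1073741824 536870912 1046898278 26843546
    (rowNX 3 0 false true false .pp 0 2 2 (qsf 0 67108864 1073741824 536870912 2) ndN4q0 ndN5q2 pcN2 Cut.none Ext.none)

def k0_pm_022 : ∃ t, chk3 f_pm_022 t 1 1 1 = true :=
  ⟨(l 4), by decide +kernel⟩

theorem c_pm_022 : CertNX 0 67108864 1073741824 536870912 1046898278 26843546 3 false true false .pp 0 2 2
    ndN4q0 ndN5q2 pcN2 Cut.none Ext.none :=
  certNX0 (fam := false) (s1 := true) (s2 := false) (a := 0) (b := 2) (c := 2) (cn := .pp) (n1 := ndN4q0) (n2 := ndN5q2) (pc := pcN2) (cut := Cut.none) (xt := Ext.none) (P1 := 0) (W1 := 67108864) (P2 := 1073741824) (W2 := 536870912) (P3 := 1046898278) (W3 := 26843546) (N0 := 3)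
    rfl k0_pm_022

noncomputable def f_pm_023 : ℕ → ℕ → ℕ → ℕ → Bool := onCell 0 67108864 0 1230186008 1046898278 26843546
    (rowNX 3 0 false true false .up 0 2 3 (qsf 0 67108864 0 1230186008 2) ndN4q0 ndN5q3 pcN2 Cut.none Ext.none)

def k0_pm_023 : ∃ t, chk3 f_pm_023 t 1 1 1 = true :=
  ⟨(b (l 2) (l 4)), by decide +kernel⟩

theorem c_pm_023 : CertNX 0 67108864 0 1230186008 1046898278 26843546 3 false true false .up 0 2 3
    ndN4q0 ndN5q3 pcN2 Cut.none Ext.none :=
  certNX0 (fam := false) (s1 := true) (s2 := false) (a := 0) (b := 2) (c := 3) (cn := .up) (n1 := ndN4q0) (n2 := ndN5q3) (pc := pcN2) (cut := Cut.none) (xt := Ext.none) (P1 := 0) (W1 := 67108864) (P2 := 0) (W2 := 1230186008) (P3 := 1046898278) (W3 := 26843546) (N0 := 3)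
    rfl k0_pm_023

noncomputable def f_pm_033 : ℕ → ℕ → ℕ → ℕ → Bool := onCell 0 67108864 0 1230186008 1046898278 26843546
    (rowNX 3 0 false true false .pnn 0 3 3 (qsf 0 67108864 0 1230186008 3) ndN4q0 ndN5q3 pcN3 Cut.none Ext.none)

def k0_pm_033 : ∃ t, chk3 f_pm_033 t 1 1 1 = true :=
  ⟨(b (l 4) (l 4)), by decide +kernel⟩

theorem c_pm_033 : CertNX 0 67108864 0 1230186008 1046898278 26843546 3 false true false .pnn 0 3 3
    ndN4q0 ndN5q3 pcN3 Cut.none Ext.none :=
  certNX0 (fam := false) (s1 := true) (s2 := false) (a := 0) (b := 3) (c := 3) (cn := .pnn) (n1 := ndN4q0) (n2 := ndN5q3) (pc := pcN3) (cut := Cut.none) (xt := Ext.none) (P1 := 0) (W1 := 67108864) (P2 := 0) (W2 := 1230186008) (P3 := 1046898278) (W3 := 26843546) (N0 := 3)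
    rfl k0_pm_033

noncomputable def f_mm_001 : ℕ → ℕ → ℕ → ℕ → Bool := onCell 0 67108864 536870912 469762048 1046898278 26843546
    (rowNX 3 0 false false false .up 0 0 1 (qsf 0 67108864 536870912 469762048 0) ndN4q0 ndN5q1 pcN0 Cut.none Ext.none)

def k0_mm_001 : ∃ t, chk3 f_mm_001 t 1 1 1 = true :=
  ⟨(l 3), by decide +kernel⟩

theorem c_mm_001 : CertNX 0 67108864 536870912 469762048 1046898278 26843546 3 false false false .up 0 0 1
    ndN4q0 ndN5q1 pcN0 Cut.none Ext.none :=
  certNX0 (fam := false) (s1 := false) (s2 := false) (a := 0) (b := 0) (c := 1) (cn := .up) (n1 := ndN4q0) (n2 := ndN5q1) (pc := pcN0) (cut := Cut.none) (xt := Ext.none) (P1 := 0) (W1 := 67108864) (P2 := 536870912) (W2 := 469762048) (P3 := 1046898278) (W3 := 26843546) (N0 := 3)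
    rfl k0_mm_001

noncomputable def f_mm_011 : ℕ → ℕ → ℕ → ℕ → Bool := onCell 0 67108864 536870912 469762048 1046898278 26843546
    (rowNX 3 0 false false false .pnn 0 1 1 (qsf 0 67108864 536870912 469762048 1) ndN4q0 ndN5q1 pcN1 Cut.none Ext.none)

def k0_mm_011 : ∃ t, chk3 f_mm_011 t 1 1 1 = true :=
  ⟨(l 3), by decide +kernel⟩

theorem c_mm_011 : CertNX 0 67108864 536870912 469762048 1046898278 26843546 3 false false false .pnn 0 1 1
    ndN4q0 ndN5q1 pcN1 Cut.none Ext.none :=
  certNX0 (fam := false) (s1 := false) (s2 := false) (a := 0) (b := 1) (c := 1) (cn := .pnn) (n1 := ndN4q0) (n2 := ndN5q1) (pc := pcN1) (cut := Cut.none) (xt := Ext.none) (P1 := 0) (W1 := 67108864) (P2 := 536870912) (W2 := 469762048) (P3 := 1046898278) (W3 := 26843546) (N0 := 3)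
    rfl k0_mm_011

noncomputable def f_mm_012 : ℕ → ℕ → ℕ → ℕ → Bool := onCell 0 67108864 1073741824 536870912 1046898278 26843546
    (rowNX 3 0 false false false .pnp 0 1 2 (qsf 0 67108864 1073741824 536870912 1) ndN4q0 ndN5q2 pcN1 Cut.none Ext.none)

def k0_mm_012 : ∃ t, chk3 f_mm_012 t 1 1 1 = true :=
  ⟨(l 5), by decide +kernel⟩

theorem c_mm_012 : CertNX 0 67108864 1073741824 536870912 1046898278 26843546 3 false false false .pnp 0 1 2
    ndN4q0 ndN5q2 pcN1 Cut.none Ext.none :=
  certNX0 (fam := false) (s1 := false) (s2 := false) (a := 0) (b := 1) (c := 2) (cn := .pnp) (n1 := ndN4q0) (n2 := ndN5q2) (pc := pcN1) (cut := Cut.none) (xt := Ext.none) (P1 := 0) (W1 := 67108864) (P2 := 1073741824) (W2 := 536870912) (P3 := 1046898278) (W3 := 26843546) (N0 := 3)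
    rfl k0_mm_012

noncomputable def f_mm_022 : ℕ → ℕ → ℕ → ℕ → Bool := onCell 0 67108864 1073741824 536870912 1046898278 26843546
    (rowNX 3 0 false false false .pp 0 2 2 (qsf 0 67108864 1073741824 536870912 2) ndN4q0 ndN5q2 pcN2 Cut.none Ext.none)

def k0_mm_022 : ∃ t, chk3 f_mm_022 t 1 1 1 = true :=
  ⟨(l 5), by decide +kernel⟩

theorem c_mm_022 : CertNX 0 67108864 1073741824 536870912 1046898278 26843546 3 false false false .pp 0 2 2
    ndN4q0 ndN5q2 pcN2 Cut.none Ext.none :=
  certNX0 (fam := false) (s1 := false) (s2 := false) (a := 0) (b := 2) (c := 2) (cn := .pp) (n1 := ndN4q0) (n2 := ndN5q2) (pc := pcN2) (cut := Cut.none) (xt := Ext.none) (P1 := 0) (W1 := 67108864) (P2 := 1073741824) (W2 := 536870912) (P3 := 1046898278) (W3 := 26843546) (N0 := 3)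
    rfl k0_mm_022

noncomputable def f_mm_023 : ℕ → ℕ → ℕ → ℕ → Bool := onCell 0 67108864 0 1230186008 1046898278 26843546
    (rowNX 3 0 false false false .up 0 2 3 (qsf 0 67108864 0 1230186008 2) ndN4q0 ndN5q3 pcN2 Cut.none Ext.none)

def k0_mm_023 : ∃ t, chk3 f_mm_023 t 1 1 1 = true :=
  ⟨(l 5), by decide +kernel⟩

theorem c_mm_023 : CertNX 0 67108864 0 1230186008 1046898278 26843546 3 false false false .up 0 2 3
    ndN4q0 ndN5q3 pcN2 Cut.none Ext.none :=
  certNX0 (fam := false) (s1 := false) (s2 := false) (a := 0) (b := 2) (c := 3) (cn := .up) (n1 := ndN4q0) (n2 := ndN5q3) (pc := pcN2) (cut := Cut.none) (xt := Ext.none) (P1 := 0) (W1 := 67108864) (P2 := 0) (W2 := 1230186008) (P3 := 1046898278) (W3 := 26843546) (N0 := 3)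
    rfl k0_mm_023

noncomputable def f_mm_033 : ℕ → ℕ → ℕ → ℕ → Bool := onCell 0 67108864 0 1230186008 1046898278 26843546
    (rowNX 3 0 false false false .pnn 0 3 3 (qsf 0 67108864 0 1230186008 3) ndN4q0 ndN5q3 pcN3 Cut.none Ext.none)

def k0_mm_033 : ∃ t, chk3 f_mm_033 t 1 1 1 = true :=
  ⟨(l 5), by decide +kernel⟩

theorem c_mm_033 : CertNX 0 67108864 0 1230186008 1046898278 26843546 3 false false false .pnn 0 3 3
    ndN4q0 ndN5q3 pcN3 Cut.none Ext.none :=
  certNX0 (fam := false) (s1 := false) (s2 := false) (a := 0) (b := 3) (c := 3) (cn := .pnn) (n1 := ndN4q0) (n2 := ndN5q3) (pc := pcN3) (cut := Cut.none) (xt := Ext.none) (P1 := 0) (W1 := 67108864) (P2 := 0) (W2 := 1230186008) (P3 := 1046898278) (W3 := 26843546) (N0 := 3)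
    rfl k0_mm_033

end Pool.Agent.Strip051.G.IE1.Tab.C.NB45

namespace Pool.Agent.Strip051.G.IE1.Tab.C.NB46

open Pool.Agent.Strip051.PB Pool.Agent.Strip051.PB.T
open Pool.Agent.Strip051.G.IE1.Tab

noncomputable def f_pp_001 : ℕ → ℕ → ℕ → ℕ → Bool := onCell 0 67108864 536870912 469762048 1046898278 26843546
    (rowNX 3 0 false true true .up 0 0 1 (qsf 0 67108864 536870912 469762048 0) ndN4q0 ndN6q1 pcN0 Cut.none Ext.none)

def k0_pp_001 : ∃ t, chk3 f_pp_001 t 1 1 1 = true :=
  ⟨(l 3), by decide +kernel⟩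

theorem c_pp_001 : CertNX 0 67108864 536870912 469762048 1046898278 26843546 3 false true true .up 0 0 1
    ndN4q0 ndN6q1 pcN0 Cut.none Ext.none :=
  certNX0 (fam := false) (s1 := true) (s2 := true) (a := 0) (b := 0) (c := 1) (cn := .up) (n1 := ndN4q0) (n2 := ndN6q1) (pc := pcN0) (cut := Cut.none) (xt := Ext.none) (P1 := 0) (W1 := 67108864) (P2 := 536870912) (W2 := 469762048) (P3 := 1046898278) (W3 := 26843546) (N0 := 3)
    rfl k0_pp_001

noncomputable def f_pp_011 : ℕ → ℕ → ℕ → ℕ → Bool := onCell 0 67108864 536870912 469762048 1046898278 26843546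
    (rowNX 3 0 false true true .pnn 0 1 1 (qsf 0 67108864 536870912 469762048 1) ndN4q0 ndN6q1 pcN1 Cut.none Ext.none)

def k0_pp_011 : ∃ t, chk3 f_pp_011 t 1 1 1 = true :=
  ⟨(l 3), by decide +kernel⟩

theorem c_pp_011 : CertNX 0 67108864 536870912 469762048 1046898278 26843546 3 false true true .pnn 0 1 1
    ndN4q0 ndN6q1 pcN1 Cut.none Ext.none :=
  certNX0 (fam := false) (s1 := true) (s2 := true) (a := 0) (b := 1) (c := 1) (cn := .pnn) (n1 := ndN4q0) (n2 := ndN6q1) (pc := pcN1) (cut := Cut.none) (xt := Ext.none) (P1 := 0) (W1 := 67108864) (P2 := 536870912) (W2 := 469762048) (P3 := 1046898278) (W3 := 26843546) (N0 := 3)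
    rfl k0_pp_011

noncomputable def f_pp_012 : ℕ → ℕ → ℕ → ℕ → Bool := onCell 0 67108864 536870912 536870912 1046898278 26843546
    (rowNX 3 1 false true true .pnp 0 1 2 (qsf 0 67108864 1073741824 536870912 1) ndN4q0 ndN6q2 pcN1 Cut.none Ext.none)

def k0_pp_012 : ∃ t, chk3 f_pp_012 t 1 1 1 = true :=
  ⟨(l 3), by decide +kernel⟩

theorem c_pp_012 : CertNX 0 67108864 1073741824 536870912 1046898278 26843546 3 false true true .pnp 0 1 2
    ndN4q0 ndN6q2 pcN1 Cut.none Ext.none :=
  certNX1 (fam := false) (s1 := true) (s2 := true) (a := 0) (b := 1) (c := 2) (cn := .pnp) (n1 := ndN4q0) (n2 := ndN6q2) (pc := pcN1) (cut := Cut.none) (xt := Ext.none) (P1 := 0) (W1 := 67108864) (P2 := 1073741824) (W2 := 536870912) (P3 := 1046898278) (W3 := 26843546) (N0 := 3)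
    rfl (fun _ => rfl) k0_pp_012

noncomputable def f_pp_022 : ℕ → ℕ → ℕ → ℕ → Bool := onCell 0 67108864 1073741824 536870912 1046898278 26843546
    (rowNX 3 1 false true true .pp 0 2 2 (qsf 0 67108864 1073741824 536870912 2) ndN4q0 ndN6q2 pcN2 Cut.none Ext.none)

def k0_pp_022 : ∃ t, chk3 f_pp_022 t 1 4 1 = true :=
  ⟨(l 3), by decide +kernel⟩

def k1_pp_022 : ∃ t, chk3 f_pp_022 t 1 40 1 = true :=
  ⟨(l 3), by decide +kernel⟩

def k2_pp_022 : ∃ t, chk3 f_pp_022 t 1 82 1 = true :=
  ⟨(a (l 3) (l 3)), by decide +kernel⟩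

def k3_pp_022 : ∃ t, chk3 f_pp_022 t 1 166 1 = true :=
  ⟨(a (l 3) (a (c (b (l 3) (c (l 15299120) (l 15294456))) (l 3)) (c (b (c (l 2030073111751) (l 15136776)) (c (l 765742026087) (l 15086632))) (b (l 3) (l 14998200))))), by decide +kernel⟩

def k4_pp_022 : ∃ t, chk3 f_pp_022 t 1 167 2 = true :=
  ⟨(a (a (b (l 3) (a (b (b (b (a (l 15812760) (l 15777016)) (c (l 15800520) (b (l 15777688) (l 15774064)))) (l 15776680)) (l 15755184)) (c (b (b (b (a (l 3) (l 15665296)) (a (c (l 15759120) (l 15736864)) (l 15658384))) (l 15686288)) (l 15665496)) (b (b (b (l 3) (a (c (l 15703784) (l 15660088)) (c (l 15585832) (l 15549536)))) (l 15536872)) (l 15515680))))) (b (b (a (l 3) (l 15395392)) (c (a (l 6434562742039) (l 15367152)) (l 7237184571911))) (b (b (b (a (c (l 15498992) (l 15463592)) (l 15351800)) (b (a (c (l 15493904) (l 15458400)) (l 15346784)) (c (a (l 15490512) (l 15342296)) (a (l 15454944) (l 15352112))))) (a (l 15429816) (l 15335096))) (a (l 15388344) (l 15315088))))) (b (c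 (a (b (l 15260528) (l 15234904)) (b (l 15090760) (l 15066432))) (a (b (l 15255120) (l 15229000)) (b (l 15049256) (l 15024448)))) (b (a (b (b (l 15213608) (b (l 15208776) (c (l 15210960) (l 15204592)))) (l 15197512)) (b (b (c (l 15051264) (l 15008984)) (b (c (l 15046712) (l 15004352)) (c (a (l 15090680) (c (l 15014784) (l 14995040))) (l 15001264)))) (c (l 15034704) (l 14993552)))) (a (l 15178240) (c (l 15016448) (l 14975072)))))), by decide +kernel⟩

def k5_pp_022 : ∃ t, chk3 f_pp_022 t 1 167 3 = true :=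
  ⟨(b (b (a (l 3) (a (l 15188344) (l 14959736))) (a (a (a (c (a (l 15797704) (l 15732032)) (a (c (l 15771984) (l 15753008)) (l 15681944))) (c (l 3) (l 15580856))) (c (l 15419832) (l 3))) (a (l 15161464) (l 14934200)))) (b (b (b (a (a (a (c (a (l 15779112) (l 15713648)) (c (l 15568288) (l 15696136))) (c (l 15587168) (l 15562456))) (l 15380280)) (a (l 15144712) (l 14918288))) (b (a (a (a (c (a (l 15773536) (l 15708136)) (c (l 15604616) (l 15690464))) (c (l 15581752) (l 15556936))) (l 15375008)) (a (l 15139688) (l 14913520))) (a (a (a (c (a (l 15769824) (c (l 15722304) (l 15689720))) (a (c (l 15743712) (a (l 15743512) (l 15703616))) (l 15653864))) (c (l 15536208) (l 15553264))) (a (l 15435232) (l 15314288))) (a (l 15136344) (l 14910344))))) (a (a (a (c (l 15619544) (a (l 15639528) (l 15644520))) (c (l 15569136) (l 15544080))) (l 15362712)) (l 15009336))) (a (a (a (c (l 15576464) (a (l 15616880) (l 15622128))) (c (l 15547536) (l 15522072))) (l 15341680)) (l 14989816)))), by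 decide +kernel⟩

def k6_pp_022 : ∃ t, chk3 f_pp_022 t 1 21 1 = true :=
  ⟨(a (a (c (a (b (l 15368088) (l 15079056)) (c (a (b (l 15480048) (l 15056272)) (l 15184368)) (a (l 15023544) (l 15045200)))) (a (c (a (l 15261296) (b (l 15427584) (l 14981696))) (a (c (l 15144080) (a (l 15179448) (l 15184512))) (l 15078776))) (c (a (l 15009472) (l 15046232)) (l 15050096)))) (c (a (c (b (l 15234872) (l 14824088)) (l 14856376)) (l 14635056)) (b (l 15106576) (l 14680704)))) (a (b (c (l 14963048) (l 14884320)) (c (a (l 14637360) (b (l 14667160) (l 14604824))) (l 14458168))) (c (b (a (b (l 14934128) (l 14775456)) (a (l 14839920) (l 14852728))) (a (l 14711176) (l 14809520))) (b (l 14586512) (l 14639664))))), by decide +kernel⟩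

def k7_pp_022 : ∃ t, chk3 f_pp_022 t 1 11 1 = true :=
  ⟨(a (a (b (c (a (b (l 14664616) (a (l 14284496) (l 14290008))) (b (c (l 14611936) (l 14525200)) (a (b (l 14321576) (l 14238416)) (c (l 14328960) (l 14214424))))) (a (c (a (l 14404680) (b (l 14557464) (l 14182296))) (a (a (l 14355880) (l 14208952)) (b (l 14484568) (l 14101744)))) (b (c (l 14452072) (l 14405200)) (c (l 14166216) (l 14113520))))) (c (a (l 14146864) (c (l 14295992) (l 14202712))) (a (c (l 14045752) (a (l 13951408) (l 13992120))) (l 14087688)))) (c (b (b (a (c (b (l 14529856) (l 14373176)) (l 14400448)) (l 14388568)) (a (l 14289280) (l 14367544))) (l 14337520)) (b (b (a (l 14349448) (l 14343224)) (l 14245664)) (l 14245048)))) (c (a (b (l 14543368) (l 14543928)) (b (c (l 14781488) (l 14735648)) (l 14759672))) (a (l 14448520) (l 14639888)))), by decide +kernel⟩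

def k8_pp_022 : ∃ t, chk3 f_pp_022 t 1 3 1 = true :=
  ⟨(a (b (a (c (b (a (l 14146400) (l 14246648)) (a (l 14146400) (l 14246648))) (a (b (c (l 14045272) (l 13973568)) (l 13944160)) (b (l 14087688) (l 14087688)))) (c (b (l 14337520) (l 14337520)) (l 14245048))) (a (c (a (l 14146400) (l 14246648)) (a (c (l 14045272) (l 13973568)) (l 14087688))) (c (l 14337520) (l 14245048)))) (b (c (a (l 14543928) (l 14759688)) (l 14540928)) (a (l 14492552) (l 14700536)))), by decide +kernel⟩

theorem s9_pp_022 : ∃ t, chk3 f_pp_022 t 1 167 1 = true := ex3_c k4_pp_022 k5_pp_022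

theorem s10_pp_022 : ∃ t, chk3 f_pp_022 t 1 83 1 = true := ex3_b k3_pp_022 s9_pp_022

theorem s11_pp_022 : ∃ t, chk3 f_pp_022 t 1 41 1 = true := ex3_b k2_pp_022 s10_pp_022

theorem s12_pp_022 : ∃ t, chk3 f_pp_022 t 1 20 1 = true := ex3_b k1_pp_022 s11_pp_022

theorem s13_pp_022 : ∃ t, chk3 f_pp_022 t 1 10 1 = true := ex3_b s12_pp_022 k6_pp_022

theorem s14_pp_022 : ∃ t, chk3 f_pp_022 t 1 5 1 = true := ex3_b s13_pp_022 k7_pp_022

theorem s15_pp_022 : ∃ t, chk3 f_pp_022 t 1 2 1 = true := ex3_b k0_pp_022 s14_pp_022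

theorem s16_pp_022 : ∃ t, chk3 f_pp_022 t 1 1 1 = true := ex3_b s15_pp_022 k8_pp_022

theorem c_pp_022 : CertNX 0 67108864 1073741824 536870912 1046898278 26843546 3 false true true .pp 0 2 2
    ndN4q0 ndN6q2 pcN2 Cut.none Ext.none :=
  certNX1 (fam := false) (s1 := true) (s2 := true) (a := 0) (b := 2) (c := 2) (cn := .pp) (n1 := ndN4q0) (n2 := ndN6q2) (pc := pcN2) (cut := Cut.none) (xt := Ext.none) (P1 := 0) (W1 := 67108864) (P2 := 1073741824) (W2 := 536870912) (P3 := 1046898278) (W3 := 26843546) (N0 := 3)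
    rfl (fun _ => rfl) s16_pp_022

noncomputable def f_pp_023 : ℕ → ℕ → ℕ → ℕ → Bool := onCell 0 67108864 0 1230186008 1046898278 26843546
    (rowNX 3 0 false true true .up 0 2 3 (qsf 0 67108864 0 1230186008 2) ndN4q0 ndN6q3 pcN2 Cut.none Ext.none)

def k0_pp_023 : ∃ t, chk3 f_pp_023 t 1 1 1 = true :=
  ⟨(b (l 2) (b (l 2) (b (l 2) (b (l 2) (a (a (c (l 14189640) (l 14052120)) (l 14270512)) (l 14588440)))))), by decide +kernel⟩

theorem c_pp_023 : CertNX 0 67108864 0 1230186008 1046898278 26843546 3 false true true .up 0 2 3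
    ndN4q0 ndN6q3 pcN2 Cut.none Ext.none :=
  certNX0 (fam := false) (s1 := true) (s2 := true) (a := 0) (b := 2) (c := 3) (cn := .up) (n1 := ndN4q0) (n2 := ndN6q3) (pc := pcN2) (cut := Cut.none) (xt := Ext.none) (P1 := 0) (W1 := 67108864) (P2 := 0) (W2 := 1230186008) (P3 := 1046898278) (W3 := 26843546) (N0 := 3)
    rfl k0_pp_023

noncomputable def f_pp_033 : ℕ → ℕ → ℕ → ℕ → Bool := onCell 0 67108864 0 1230186008 1046898278 26843546
    (rowNX 3 0 false true true .pnn 0 3 3 (qsf 0 67108864 0 1230186008 3) ndN4q0 ndN6q3 pcN3 Cut.none Ext.none)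

def k0_pp_033 : ∃ t, chk3 f_pp_033 t 1 1 1 = true :=
  ⟨(b (b (l 4) (b (l 4) (b (l 4) (a (a (l 4) (c (l 4) (l 14239416))) (c (l 14640000) (l 14535248)))))) (a (b (b (c (a (b (l 14189600) (l 14189544)) (b (l 14337472) (l 14337432))) (b (a (a (l 14007008) (l 14087632)) (l 14244992)) (c (l 14179936) (l 14113960)))) (b (a (c (l 14189592) (l 14031096)) (l 14270472)) (a (c (l 14189640) (l 13989200)) (l 14270512)))) (b (a (c (l 14063808) (c (l 14088448) (l 13998384))) (c (l 14337520) (l 14245048))) (a (c (b (l 14189640) (l 14189640)) (b (l 13926288) (l 14010176))) (c (l 14337520) (l 14245048))))) (b (b (c (b (l 14644120) (l 14644088)) (b (l 14540864) (l 14540832))) (b (l 14588408) (l 14588440))) (b (c (l 14644168) (l 14540928)) (c (l 14581248) (l 14540928)))))), by decide +kernel⟩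

theorem c_pp_033 : CertNX 0 67108864 0 1230186008 1046898278 26843546 3 false true true .pnn 0 3 3
    ndN4q0 ndN6q3 pcN3 Cut.none Ext.none :=
  certNX0 (fam := false) (s1 := true) (s2 := true) (a := 0) (b := 3) (c := 3) (cn := .pnn) (n1 := ndN4q0) (n2 := ndN6q3) (pc := pcN3) (cut := Cut.none) (xt := Ext.none) (P1 := 0) (W1 := 67108864) (P2 := 0) (W2 := 1230186008) (P3 := 1046898278) (W3 := 26843546) (N0 := 3)
    rfl k0_pp_033

noncomputable def f_pm_001 : ℕ → ℕ → ℕ → ℕ → Bool := onCell 0 67108864 536870912 469762048 1046898278 26843546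
    (rowNX 3 0 false true false .up 0 0 1 (qsf 0 67108864 536870912 469762048 0) ndN4q0 ndN6q1 pcN0 Cut.none Ext.none)

def k0_pm_001 : ∃ t, chk3 f_pm_001 t 1 1 1 = true :=
  ⟨(l 4), by decide +kernel⟩

theorem c_pm_001 : CertNX 0 67108864 536870912 469762048 1046898278 26843546 3 false true false .up 0 0 1
    ndN4q0 ndN6q1 pcN0 Cut.none Ext.none :=
  certNX0 (fam := false) (s1 := true) (s2 := false) (a := 0) (b := 0) (c := 1) (cn := .up) (n1 := ndN4q0) (n2 := ndN6q1) (pc := pcN0) (cut := Cut.none) (xt := Ext.none) (P1 := 0) (W1 := 67108864) (P2 := 536870912) (W2 := 469762048) (P3 := 1046898278) (W3 := 26843546) (N0 := 3)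
    rfl k0_pm_001

noncomputable def f_pm_011 : ℕ → ℕ → ℕ → ℕ → Bool := onCell 0 67108864 536870912 469762048 1046898278 26843546
    (rowNX 3 0 false true false .pnn 0 1 1 (qsf 0 67108864 536870912 469762048 1) ndN4q0 ndN6q1 pcN1 Cut.none Ext.none)

def k0_pm_011 : ∃ t, chk3 f_pm_011 t 1 1 1 = true :=
  ⟨(l 4), by decide +kernel⟩

theorem c_pm_011 : CertNX 0 67108864 536870912 469762048 1046898278 26843546 3 false true false .pnn 0 1 1
    ndN4q0 ndN6q1 pcN1 Cut.none Ext.none :=
  certNX0 (fam := false) (s1 := true) (s2 := false) (a := 0) (b := 1) (c := 1) (cn := .pnn) (n1 := ndN4q0) (n2 := ndN6q1) (pc := pcN1) (cut := Cut.none) (xt := Ext.none) (P1 := 0) (W1 := 67108864) (P2 := 536870912) (W2 := 469762048) (P3 := 1046898278) (W3 := 26843546) (N0 := 3)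
    rfl k0_pm_011

noncomputable def f_pm_012 : ℕ → ℕ → ℕ → ℕ → Bool := onCell 0 67108864 1073741824 536870912 1046898278 26843546
    (rowNX 3 0 false true false .pnp 0 1 2 (qsf 0 67108864 1073741824 536870912 1) ndN4q0 ndN6q2 pcN1 Cut.none Ext.none)

def k0_pm_012 : ∃ t, chk3 f_pm_012 t 1 1 1 = true :=
  ⟨(l 4), by decide +kernel⟩

theorem c_pm_012 : CertNX 0 67108864 1073741824 536870912 1046898278 26843546 3 false true false .pnp 0 1 2
    ndN4q0 ndN6q2 pcN1 Cut.none Ext.none :=
  certNX0 (fam := false) (s1 := true) (s2 := false) (a := 0) (b := 1) (c := 2) (cn := .pnp) (n1 := ndN4q0) (n2 := ndN6q2) (pc := pcN1) (cut := Cut.none) (xt := Ext.none) (P1 := 0) (W1 := 67108864) (P2 := 1073741824) (W2 := 536870912) (P3 := 1046898278) (W3 := 26843546) (N0 := 3)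
    rfl k0_pm_012

noncomputable def f_pm_022 : ℕ → ℕ → ℕ → ℕ → Bool := onCell 0 67108864 1073741824 536870912 1046898278 26843546
    (rowNX 3 0 false true false .pp 0 2 2 (qsf 0 67108864 1073741824 536870912 2) ndN4q0 ndN6q2 pcN2 Cut.none Ext.none)

def k0_pm_022 : ∃ t, chk3 f_pm_022 t 1 1 1 = true :=
  ⟨(l 4), by decide +kernel⟩

theorem c_pm_022 : CertNX 0 67108864 1073741824 536870912 1046898278 26843546 3 false true false .pp 0 2 2
    ndN4q0 ndN6q2 pcN2 Cut.none Ext.none :=
  certNX0 (fam := false) (s1 := true) (s2 := false) (a := 0) (b := 2) (c := 2) (cn := .pp) (n1 := ndN4q0) (n2 := ndN6q2) (pc := pcN2) (cut := Cut.none) (xt := Ext.none) (P1 := 0) (W1 := 67108864) (P2 := 1073741824) (W2 := 536870912) (P3 := 1046898278) (W3 := 26843546) (N0 := 3)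
    rfl k0_pm_022

noncomputable def f_pm_023 : ℕ → ℕ → ℕ → ℕ → Bool := onCell 0 67108864 0 1230186008 1046898278 26843546
    (rowNX 3 0 false true false .up 0 2 3 (qsf 0 67108864 0 1230186008 2) ndN4q0 ndN6q3 pcN2 Cut.none Ext.none)

def k0_pm_023 : ∃ t, chk3 f_pm_023 t 1 1 1 = true :=
  ⟨(b (l 2) (l 4)), by decide +kernel⟩

theorem c_pm_023 : CertNX 0 67108864 0 1230186008 1046898278 26843546 3 false true false .up 0 2 3
    ndN4q0 ndN6q3 pcN2 Cut.none Ext.none :=
  certNX0 (fam := false) (s1 := true) (s2 := false) (a := 0) (b := 2) (c := 3) (cn := .up) (n1 := ndN4q0) (n2 := ndN6q3) (pc := pcN2) (cut := Cut.none) (xt := Ext.none) (P1 := 0) (W1 := 67108864) (P2 := 0) (W2 := 1230186008) (P3 := 1046898278) (W3 := 26843546) (N0 := 3)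
    rfl k0_pm_023

noncomputable def f_pm_033 : ℕ → ℕ → ℕ → ℕ → Bool := onCell 0 67108864 0 1230186008 1046898278 26843546
    (rowNX 3 0 false true false .pnn 0 3 3 (qsf 0 67108864 0 1230186008 3) ndN4q0 ndN6q3 pcN3 Cut.none Ext.none)

def k0_pm_033 : ∃ t, chk3 f_pm_033 t 1 1 1 = true :=
  ⟨(b (l 4) (l 4)), by decide +kernel⟩

theorem c_pm_033 : CertNX 0 67108864 0 1230186008 1046898278 26843546 3 false true false .pnn 0 3 3
    ndN4q0 ndN6q3 pcN3 Cut.none Ext.none :=
  certNX0 (fam := false) (s1 := true) (s2 := false) (a := 0) (b := 3) (c := 3) (cn := .pnn) (n1 := ndN4q0) (n2 := ndN6q3) (pc := pcN3) (cut := Cut.none) (xt := Ext.none) (P1 := 0) (W1 := 67108864) (P2 := 0) (W2 := 1230186008) (P3 := 1046898278) (W3 := 26843546) (N0 := 3)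
    rfl k0_pm_033

noncomputable def f_mm_001 : ℕ → ℕ → ℕ → ℕ → Bool := onCell 0 67108864 536870912 469762048 1046898278 26843546
    (rowNX 3 0 false false false .up 0 0 1 (qsf 0 67108864 536870912 469762048 0) ndN4q0 ndN6q1 pcN0 Cut.none Ext.none)

def k0_mm_001 : ∃ t, chk3 f_mm_001 t 1 1 1 = true :=
  ⟨(l 3), by decide +kernel⟩

theorem c_mm_001 : CertNX 0 67108864 536870912 469762048 1046898278 26843546 3 false false false .up 0 0 1
    ndN4q0 ndN6q1 pcN0 Cut.none Ext.none :=
  certNX0 (fam := false) (s1 := false) (s2 := false) (a := 0) (b := 0) (c := 1) (cn := .up) (n1 := ndN4q0) (n2 := ndN6q1) (pc := pcN0) (cut := Cut.none) (xt := Ext.none) (P1 := 0) (W1 := 67108864) (P2 := 536870912) (W2 := 469762048) (P3 := 1046898278) (W3 := 26843546) (N0 := 3)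
    rfl k0_mm_001

noncomputable def f_mm_011 : ℕ → ℕ → ℕ → ℕ → Bool := onCell 0 67108864 536870912 469762048 1046898278 26843546
    (rowNX 3 0 false false false .pnn 0 1 1 (qsf 0 67108864 536870912 469762048 1) ndN4q0 ndN6q1 pcN1 Cut.none Ext.none)

def k0_mm_011 : ∃ t, chk3 f_mm_011 t 1 1 1 = true :=
  ⟨(l 3), by decide +kernel⟩

theorem c_mm_011 : CertNX 0 67108864 536870912 469762048 1046898278 26843546 3 false false false .pnn 0 1 1
    ndN4q0 ndN6q1 pcN1 Cut.none Ext.none :=
  certNX0 (fam := false) (s1 := false) (s2 := false) (a := 0) (b := 1) (c := 1) (cn := .pnn) (n1 := ndN4q0) (n2 := ndN6q1) (pc := pcN1) (cut := Cut.none) (xt := Ext.none) (P1 := 0) (W1 := 67108864) (P2 := 536870912) (W2 := 469762048) (P3 := 1046898278) (W3 := 26843546) (N0 := 3)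
    rfl k0_mm_011

noncomputable def f_mm_012 : ℕ → ℕ → ℕ → ℕ → Bool := onCell 0 67108864 1073741824 536870912 1046898278 26843546
    (rowNX 3 0 false false false .pnp 0 1 2 (qsf 0 67108864 1073741824 536870912 1) ndN4q0 ndN6q2 pcN1 Cut.none Ext.none)

def k0_mm_012 : ∃ t, chk3 f_mm_012 t 1 1 1 = true :=
  ⟨(l 5), by decide +kernel⟩

theorem c_mm_012 : CertNX 0 67108864 1073741824 536870912 1046898278 26843546 3 false false false .pnp 0 1 2
    ndN4q0 ndN6q2 pcN1 Cut.none Ext.none :=
  certNX0 (fam := false) (s1 := false) (s2 := false) (a := 0) (b := 1) (c := 2) (cn := .pnp) (n1 := ndN4q0) (n2 := ndN6q2) (pc := pcN1) (cut := Cut.none) (xt := Ext.none) (P1 := 0) (W1 := 67108864) (P2 := 1073741824) (W2 := 536870912) (P3 := 1046898278) (W3 := 26843546) (N0 := 3)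
    rfl k0_mm_012

noncomputable def f_mm_022 : ℕ → ℕ → ℕ → ℕ → Bool := onCell 0 67108864 1073741824 536870912 1046898278 26843546
    (rowNX 3 0 false false false .pp 0 2 2 (qsf 0 67108864 1073741824 536870912 2) ndN4q0 ndN6q2 pcN2 Cut.none Ext.none)

def k0_mm_022 : ∃ t, chk3 f_mm_022 t 1 1 1 = true :=
  ⟨(l 5), by decide +kernel⟩

theorem c_mm_022 : CertNX 0 67108864 1073741824 536870912 1046898278 26843546 3 false false false .pp 0 2 2
    ndN4q0 ndN6q2 pcN2 Cut.none Ext.none :=
  certNX0 (fam := false) (s1 := false) (s2 := false) (a := 0) (b := 2) (c := 2) (cn := .pp) (n1 := ndN4q0) (n2 := ndN6q2) (pc := pcN2) (cut := Cut.none) (xt := Ext.none) (P1 := 0) (W1 := 67108864) (P2 := 1073741824) (W2 := 536870912) (P3 := 1046898278) (W3 := 26843546) (N0 := 3)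
    rfl k0_mm_022

noncomputable def f_mm_023 : ℕ → ℕ → ℕ → ℕ → Bool := onCell 0 67108864 0 1230186008 1046898278 26843546
    (rowNX 3 0 false false false .up 0 2 3 (qsf 0 67108864 0 1230186008 2) ndN4q0 ndN6q3 pcN2 Cut.none Ext.none)

def k0_mm_023 : ∃ t, chk3 f_mm_023 t 1 1 1 = true :=
  ⟨(l 5), by decide +kernel⟩

theorem c_mm_023 : CertNX 0 67108864 0 1230186008 1046898278 26843546 3 false false false .up 0 2 3
    ndN4q0 ndN6q3 pcN2 Cut.none Ext.none :=
  certNX0 (fam := false) (s1 := false) (s2 := false) (a := 0) (b := 2) (c := 3) (cn := .up) (n1 := ndN4q0) (n2 := ndN6q3) (pc := pcN2) (cut := Cut.none) (xt := Ext.none) (P1 := 0) (W1 := 67108864) (P2 := 0) (W2 := 1230186008) (P3 := 1046898278) (W3 := 26843546) (N0 := 3)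
    rfl k0_mm_023

noncomputable def f_mm_033 : ℕ → ℕ → ℕ → ℕ → Bool := onCell 0 67108864 0 1230186008 1046898278 26843546
    (rowNX 3 0 false false false .pnn 0 3 3 (qsf 0 67108864 0 1230186008 3) ndN4q0 ndN6q3 pcN3 Cut.none Ext.none)

def k0_mm_033 : ∃ t, chk3 f_mm_033 t 1 1 1 = true :=
  ⟨(l 5), by decide +kernel⟩

theorem c_mm_033 : CertNX 0 67108864 0 1230186008 1046898278 26843546 3 false false false .pnn 0 3 3
    ndN4q0 ndN6q3 pcN3 Cut.none Ext.none :=
  certNX0 (fam := false) (s1 := false) (s2 := false) (a := 0) (b := 3) (c := 3) (cn := .pnn) (n1 := ndN4q0) (n2 := ndN6q3) (pc := pcN3) (cut := Cut.none) (xt := Ext.none) (P1 := 0) (W1 := 67108864) (P2 := 0) (W2 := 1230186008) (P3 := 1046898278) (W3 := 26843546) (N0 := 3)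
    rfl k0_mm_033

end Pool.Agent.Strip051.G.IE1.Tab.C.NB46

namespace Pool.Agent.Strip051.G.IE1.Tab.C.NB47

open Pool.Agent.Strip051.PB Pool.Agent.Strip051.PB.T
open Pool.Agent.Strip051.G.IE1.Tab

noncomputable def f_pp_001 : ℕ → ℕ → ℕ → ℕ → Bool := onCell 0 67108864 0 536870912 1046898278 26843546
    (rowNX 3 1 false true true .up 0 0 1 (qsf 0 67108864 536870912 536870912 0) ndN4q0 ndN7q1 pcN0 Cut.none Ext.none)

def k0_pp_001 : ∃ t, chk3 f_pp_001 t 1 1 1 = true :=
  ⟨(l 3), by decide +kernel⟩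

theorem c_pp_001 : CertNX 0 67108864 536870912 536870912 1046898278 26843546 3 false true true .up 0 0 1
    ndN4q0 ndN7q1 pcN0 Cut.none Ext.none :=
  certNX1 (fam := false) (s1 := true) (s2 := true) (a := 0) (b := 0) (c := 1) (cn := .up) (n1 := ndN4q0) (n2 := ndN7q1) (pc := pcN0) (cut := Cut.none) (xt := Ext.none) (P1 := 0) (W1 := 67108864) (P2 := 536870912) (W2 := 536870912) (P3 := 1046898278) (W3 := 26843546) (N0 := 3)
    rfl (fun _ => rfl) k0_pp_001

noncomputable def cut_pp_011 : Cut := Cut.of [[⟨0, 0, 0, 67108864⟩, ⟨1, 1, 0, 67108864⟩, ⟨2, 1, 0, 67108864⟩]]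

noncomputable def f_pp_011 : ℕ → ℕ → ℕ → ℕ → Bool := onCell 0 67108864 536870912 536870912 1046898278 26843546
    (rowNX 3 1 false true true .pnn 0 1 1 (qsf 0 67108864 536870912 536870912 1) ndN4q0 ndN7q1 pcN1 cut_pp_011 Ext.none)

def k0_pp_011 : ∃ t, chk3 f_pp_011 t 1 1 1 = true :=
  ⟨(b (l 3) (a (b (l 3) (b (l 3) (b (l 3) (l 6)))) (l 3))), by decide +kernel⟩

theorem c_pp_011 : CertNX 0 67108864 536870912 536870912 1046898278 26843546 3 false true true .pnn 0 1 1
    ndN4q0 ndN7q1 pcN1 cut_pp_011 Ext.none :=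
  certNX1 (fam := false) (s1 := true) (s2 := true) (a := 0) (b := 1) (c := 1) (cn := .pnn) (n1 := ndN4q0) (n2 := ndN7q1) (pc := pcN1) (cut := cut_pp_011) (xt := Ext.none) (P1 := 0) (W1 := 67108864) (P2 := 536870912) (W2 := 536870912) (P3 := 1046898278) (W3 := 26843546) (N0 := 3)
    rfl (fun _ => rfl) k0_pp_011

noncomputable def cut_pp_012 : Cut := Cut.of [[⟨0, 0, 0, 67108864⟩, ⟨1, 1, 0, 67108864⟩, ⟨2, 1, 0, 67108864⟩]]

noncomputable def f_pp_012 : ℕ → ℕ → ℕ → ℕ → Bool := onCell 0 67108864 536870912 536870912 1046898278 26843546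
    (rowNX 3 1 false true true .pnp 0 1 2 (qsf 0 67108864 1073741824 536870912 1) ndN4q0 ndN7q2 pcN1 cut_pp_012 Ext.none)

def k0_pp_012 : ∃ t, chk3 f_pp_012 t 1 1 1 = true :=
  ⟨(b (l 1) (b (l 1) (b (l 3) (a (b (l 3) (l 6)) (l 3))))), by decide +kernel⟩

theorem c_pp_012 : CertNX 0 67108864 1073741824 536870912 1046898278 26843546 3 false true true .pnp 0 1 2
    ndN4q0 ndN7q2 pcN1 cut_pp_012 Ext.none :=
  certNX1 (fam := false) (s1 := true) (s2 := true) (a := 0) (b := 1) (c := 2) (cn := .pnp) (n1 := ndN4q0) (n2 := ndN7q2) (pc := pcN1) (cut := cut_pp_012) (xt := Ext.none) (P1 := 0) (W1 := 67108864) (P2 := 1073741824) (W2 := 536870912) (P3 := 1046898278) (W3 := 26843546) (N0 := 3)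
    rfl (fun _ => rfl) k0_pp_012

end Pool.Agent.Strip051.G.IE1.Tab.C.NB47

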