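import Pool.Agent.Strip051.G.IE1.Tab

/-! # Certificates N76 (generated) -/

set_option linter.all false
set_option maxRecDepth 100000

namespace Pool.Agent.Strip051.G.IE1.Tab.C.NB47

open Pool.Agent.Strip051.PB Pool.Agent.Strip051.PB.T
open Pool.Agent.Strip051.G.IE1.Tab

noncomputable def cut_pp_022 : Cut := Cut.of [[⟨0, 0, 0, 67108864⟩, ⟨1, 1, 0, 67108864⟩, ⟨2, 1, 0, 67108864⟩]]

noncomputable def f_pp_022 : ℕ → ℕ → ℕ → ℕ → Bool := onCell 0 67108864 1073741824 536870912 1046898278 26843546
    (rowNX 3 1 false true true .pp 0 2 2 (qsf 0 67108864 1073741824 536870912 2) ndN4q0 ndN7q2 pcN2 cut_pp_022 Ext.none)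

def k0_pp_022 : ∃ t, chk3 f_pp_022 t 2 16 1 = true :=
  ⟨(a (l 6) (a (l 6) (l 3))), by decide +kernel⟩

def k1_pp_022 : ∃ t, chk3 f_pp_022 t 8 17 1 = true :=
  ⟨(b (l 6) (b (b (l 6) (a (l 6) (b (l 6) (a (l 6) (c (c (l 16315336) (c (c (l 16372264) (l 16318008)) (l 16320376))) (c (l 16345336) (l 16444768))))))) (a (c (c (c (b (l 16337840) (l 16355632)) (l 16281920)) (c (c (b (l 16431288) (l 16312760)) (b (a (l 6) (l 16391704)) (l 16374800))) (l 16325224))) (a (b (l 6) (c (l 16436696) (c (l 16471232) (a (l 16468104) (l 16455792))))) (c (l 16384352) (c (c (l 16447216) (a (l 16470496) (l 16470536))) (c (l 16444392) (l 16499416)))))) (c (c (c (b (l 16300840) (l 16315768)) (b (c (l 16362648) (l 16380200)) (c (l 16367440) (l 16349944)))) (c (c (b (l 16277496) (l 16305368)) (l 16264984)) (l 16316960))) (c (c (l 16313480) (a (l 16402120) (l 16400696))) (c (l 16373632) (a (l 16412560) (l 16451432)))))))), by decide +kernel⟩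

def k2_pp_022 : ∃ t, chk3 f_pp_022 t 9 17 1 = true :=
  ⟨(b (a (l 6) (a (l 6) (a (l 6) (b (l 6) (b (l 6) (c (c (l 3) (c (l 225652588951) (l 16423264))) (c (l 16424576) (c (l 16440824) (l 16471744))))))))) (b (a (b (a (l 6) (a (l 6) (b (l 6) (c (c (l 16303960) (c (l 16323576) (l 16359184))) (c (l 16404728) (l 16441360)))))) (c (c (c (b (l 16251592) (l 16251016)) (c (l 16318808) (a (l 16357232) (l 16338272)))) (c (c (a (b (l 16359768) (l 16324504)) (l 16321464)) (b (l 16228104) (l 16284312))) (l 16279712))) (c (c (b (l 16379576) (l 16367752)) (l 16404120)) (l 16412720)))) (c (c (c (b (l 16332104) (l 16200176)) (b (c (l 16404808) (l 16400176)) (c (l 16334024) (l 16328016)))) (c (b (c (l 16304352) (l 16356192)) (c (l 16297136) (l 16295488))) (b (a (l 16371712) (l 16366128)) (b (l 16334392) (l 16320752))))) (c (b (c (a (l 16401768) (l 16377384)) (b (l 16405288) (l 16381304))) (c (b (l 16355672) (l 16338992)) (l 16267328))) (b (c (a (l 16419672) (l 16396840)) (l 16443992)) (l 16390440))))) (c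 (c (c (a (b (l 16264664) (l 16239928)) (b (l 16269016) (l 16236200))) (c (a (b (l 16195704) (a (l 16314112) (l 16278136))) (a (l 16275816) (l 16229288))) (a (b (a (l 16324144) (l 16294784)) (a (l 16264928) (l 16231576))) (b (l 16268112) (l 16224720))))) (c (a (b (c (a (l 16212368) (l 16259408)) (l 16263704)) (a (l 16244720) (l 16236600))) (b (l 16270216) (l 16250072))) (a (b (l 16302920) (l 16291568)) (b (l 16307264) (l 16287904))))) (c (c (a (l 16348320) (b (l 16324632) (l 16311984))) (l 16352976)) (c (l 16370704) (l 16401240)))))), by decide +kernel⟩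

def k3_pp_022 : ∃ t, chk3 f_pp_022 t 5 34 1 = true :=
  ⟨(b (a (a (l 6) (a (l 6) (a (l 6) (l 3)))) (l 3)) (c (c (l 3) (c (l 3) (b (l 3) (l 16412344)))) (c (a (c (l 16404904) (b (l 16472560) (l 16404808))) (l 3)) (a (b (c (l 16479312) (l 16424696)) (a (c (l 16366760) (a (l 16460008) (l 16446896))) (l 16416432))) (l 188071642247))))), by decide +kernel⟩

def k4_pp_022 : ∃ t, chk3 f_pp_022 t 5 35 1 = true :=
  ⟨(b (c (a (c (a (c (l 3) (b (l 3) (c (l 16357152) (l 16317904)))) (l 3)) (c (b (a (a (c (l 16376248) (l 16352552)) (l 3)) (l 3)) (a (c (l 16289192) (l 16290304)) (l 16310192))) (b (l 16363016) (l 16300376)))) (l 3)) (a (a (c (b (c (l 16354536) (c (l 16343016) (l 16352336))) (c (b (l 16303736) (l 16290072)) (l 16266624))) (b (c (b (l 16385920) (l 16361656)) (b (l 16416152) (l 16393176))) (c (b (l 16337792) (l 16321640)) (l 16281816)))) (c (b (l 16293416) (b (l 16285240) (l 16259272))) (b (c (l 16341592) (a (l 16381976) (l 16360616))) (c (l 16297016) (l 16287576))))) (c (b (l 16259288)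 (b (l 16272240) (l 16246376))) (b (l 16341976) (b (l 16291040) (l 16264656)))))) (a (a (c (c (c (b (l 16306280) (l 16244536)) (b (c (l 16292544) (l 16252600)) (l 16225424))) (c (b (l 16257968) (l 16241752)) (b (l 16271648) (l 16261048)))) (c (b (c (l 16281168) (l 16285424)) (c (l 16262248) (l 16267952))) (b (c (l 16309416) (l 16349808)) (l 16315792)))) (c (c (c (b (l 3) (c (l 16295096) (l 16241880))) (b (l 16174376) (l 16209928))) (l 16241472)) (c (c (b (l 16225920) (l 16214248)) (b (l 16244960) (l 16229408))) (b (c (l 16275968) (l 16306208)) (c (l 16256352) (l 16292248)))))) (c (c (c (l 3) (l 171428145143)) (l 16217056)) (c (c (l 16154688) (l 16200024)) (b (c (l 16230472) (a (l 16273360) (l 16228872))) (c (a (l 16223952) (l 16180160)) (a (l 16254552) (l 16215880)))))))), by decide +kernel⟩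

def k5_pp_022 : ∃ t, chk3 f_pp_022 t 3 8 1 = true :=
  ⟨(a (b (l 3) (b (l 3) (a (c (l 3) (b (b (l 3) (c (l 3) (l 16226168))) (c (l 16186432) (l 16081528)))) (b (l 3) (l 3))))) (l 3)), by decide +kernel⟩

def k6_pp_022 : ∃ t, chk3 f_pp_022 t 2 36 2 = true :=
  ⟨(a (c (a (b (c (a (l 16345896) (b (l 16317344) (l 16282560))) (a (b (l 16219904) (c (l 16341256) (l 16293752))) (c (b (l 16327120) (l 16253280)) (l 16142720)))) (c (c (l 15999448) (b (l 16144576) (l 15925216))) (c (b (a (l 16238448) (l 16157184)) (l 16125672)) (l 16083304)))) (b (c (a (b (c (l 16269720) (l 16184456)) (c (l 16234608) (l 16179776))) (c (b (l 16242288) (l 16190264)) (b (l 16225544) (l 16145440)))) (a (a (c (l 16118464) (l 16177320)) (b (a (l 16072248) (l 16188904)) (l 16134784))) (b (l 16130128) (l 16138152)))) (a (c (c (l 16050504) (l 16020504)) (l 16048728)) (c (c (b (l 16106872) (l 16029912)) (l 16051256)) (l 16070072))))) (a (b (c (c (b (l 16175648) (l 16229928)) (l 16262864)) (l 16132832)) (l 16048856)) (a (b (l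 16215296) (l 16115760)) (b (c (l 16197504) (b (l 16261248) (l 16219576))) (l 16131104))))) (b (c (a (a (c (b (l 16098216) (l 16155672)) (b (l 16189672) (l 16159552))) (c (b (l 16162352) (l 16148536)) (l 16180576))) (a (b (a (l 16071392) (l 16160528)) (l 16129912)) (l 16060504))) (a (a (b (a (l 16235344) (l 16222904)) (l 16187160)) (b (l 16163656) (l 16158448))) (l 16133888))) (a (c (c (a (l 15994568) (l 16090688)) (a (l 16101408) (l 16107248))) (c (a (l 16122160) (l 16104184)) (l 16036128))) (c (l 16085000) (b (l 16084616) (l 16045216)))))), by decide +kernel⟩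

def k7_pp_022 : ∃ t, chk3 f_pp_022 t 2 37 2 = true :=
  ⟨(a (a (c (b (c (c (b (l 16030376) (l 16041008)) (l 15901584)) (l 16027296)) (c (l 15883480) (l 15912936))) (b (l 15910864) (l 15875776))) (c (b (a (c (l 15930216) (l 15971264)) (l 15973952)) (a (l 15868904) (l 15886344))) (a (l 15724760) (b (l 16033112) (l 15935280))))) (b (a (c (a (l 15999640) (l 15964232)) (a (l 16037976) (l 16017656))) (c (a (l 16001560) (l 16053712)) (l 15941360))) (c (a (a (l 15947000) (l 16004128)) (l 16066768)) (a (l 15983912) (l 16032304))))), by decide +kernel⟩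

def k8_pp_022 : ∃ t, chk3 f_pp_022 t 2 18 3 = true :=
  ⟨(a (b (a (c (b (a (a (l 16297624) (l 16222552)) (c (l 16240672) (a (l 16322480) (l 16324128)))) (a (c (l 16199176) (l 16170920)) (c (l 16160392) (l 16148096)))) (a (a (c (b (l 16304376) (l 16244696)) (c (l 16192176) (a (l 16169488) (l 16287368)))) (b (c (c (l 16318624) (l 16273432)) (c (l 16374232) (l 16409744))) (c (c (l 16215080) (l 16232352)) (l 16256968)))) (b (c (a (l 16302176) (l 16347808)) (b (l 16413784) (l 16339568))) (c (l 16154920) (l 16230216))))) (c (b (a (c (l 16281616) (l 16306256)) (l 16262880)) (a (l 16153880) (l 16157848))) (b (c (l 16297808) (l 16323312)) (l 16063496)))) (a (c (a (b (l 16029584) (l 15940272)) (b (c (l 16035760) (l 16019048)) (c (l 15911824) (l 15930888)))) (a (c (a (l 16037616) (b (l 16086184) (l 15955472))) (a (c (l 16052952) (l 16022072)) (l 16047128))) (c (b (l 16079584) (l 15946344)) (b (l 16089544) (l 15957376))))) (c (a (b (l 16055216) (l 15933888)) (l 15846712)) (b (l 16061728) (l 15853760)))))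 (b (b (a (c (c (a (l 16207624) (b (l 16191464) (l 16151328))) (a (l 16220976) (l 16176240))) (b (a (l 16283440) (l 16244816)) (l 16215640))) (c (a (b (c (l 16142832) (l 16167872)) (l 16125360)) (l 16068352)) (b (a (l 16209816) (c (l 16159552) (l 16194000))) (a (l 16167328) (l 16142176))))) (c (a (c (l 15986680) (l 16110520)) (b (a (l 16085312) (l 16061240)) (c (l 16034016) (l 16044064)))) (a (l 16137072) (b (a (l 16126648) (l 16100192)) (a (l 16080864) (l 16066456)))))) (b (a (c (l 16017312) (l 16030808)) (c (a (l 15980008) (l 16027248)) (l 16051776))) (c (a (l 15960632) (l 16029568)) (l 16006600))))), by decide +kernel⟩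

def k9_pp_022 : ∃ t, chk3 f_pp_022 t 3 18 1 = true :=
  ⟨(b (c (a (b (c (l 3) (a (b (l 16127296) (l 16086576)) (l 3))) (c (l 16129216) (a (l 16042704) (l 16133704)))) (l 3)) (a (a (b (c (l 16022832) (b (l 16145752) (a (l 16113512) (l 16089384)))) (c (b (l 16061336) (l 16072728)) (b (a (l 16087824) (l 16093288)) (l 16095384)))) (b (c (l 16144464) (l 16036408)) (l 16112776))) (b (l 3) (c (l 16280472) (l 16298480))))) (c (a (b (c (l 16136664) (a (l 16083744) (l 16147592))) (c (l 16165608) (a (l 16100784) (l 16164224)))) (c (b (l 3) (l 16223336)) (l 16092760))) (a (b (c (l 16067736) (a (l 16107144) (l 16193544))) (c (l 16040880) (b (l 16162352) (l 16169576)))) (b (l 16196440) (c (l 16307136) (l 16296640)))))), by decide +kernel⟩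

def k10_pp_022 : ∃ t, chk3 f_pp_022 t 2 19 1 = true :=
  ⟨(b (c (a (b (a (c (l 15808128) (b (l 15827416) (a (l 15783976) (l 15762808)))) (c (a (b (l 15800984) (l 15785408)) (l 15851696)) (a (b (l 15824960) (l 15805272)) (l 15891584)))) (a (a (l 15785912) (l 15733832)) (c (l 15811144) (a (l 15848024) (l 15938384))))) (b (c (a (l 15918784) (b (l 16090984) (l 16104024))) (a (l 15937544) (l 16059912))) (a (c (l 16043256) (l 16034440)) (l 16150808)))) (a (b (a (c (c (a (l 15813248) (b (l 15818784) (l 15685592))) (a (l 15823224) (b (l 15835272) (a (l 15776496) (l 15795368))))) (a (c (a (l 15845928) (l 15831976)) (a (c (l 15857336) (l 15865728)) (l 15852912))) (c (b (l 15851472) (l 15803872)) (l 15839264)))) (c (b (l 15826896) (a (l 15807248) (l 15884184))) (b (l 15866224) (l 15764200)))) (a (c (a (l 15797664) (c (l 15795104) (l 15817272))) (a (c (l 15826248) (a (l 15843608) (l 15847048))) (l 15852424))) (c (a (l 15870304) (l 15925896)) (l 15895064)))) (b (c (b (l 15994384) (l 15997536)) (l 15953880))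 (c (l 16050336) (l 16045056))))) (a (c (a (a (b (l 15845936) (l 15929864)) (c (l 15894536) (b (l 15854312) (l 15933496)))) (c (a (l 15886696) (l 16005712)) (a (b (l 15910520) (l 15975864)) (b (l 16001528) (l 16058448))))) (a (c (a (l 15920712) (b (c (l 15873728) (l 15909784)) (l 15977752))) (a (c (l 15817256) (a (l 15866728) (l 16019544))) (c (l 15998312) (l 16023248)))) (c (b (a (l 15897368) (l 15989128)) (a (l 16002440) (l 16056888))) (b (l 15954016) (l 16072576))))) (c (a (c (l 16002760) (l 16029048)) (l 16055360)) (b (a (l 15916472) (l 16170032)) (c (l 16099848) (l 16014896)))))), by decide +kernel⟩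

def k11_pp_022 : ∃ t, chk3 f_pp_022 t 3 19 1 = true :=
  ⟨(b (c (b (a (c (b (l 16182360) (l 16208352)) (b (a (l 16125200) (l 16193352)) (l 16141880))) (c (b (l 16157360) (l 16278120)) (b (l 16287016) (l 16345600)))) (a (c (l 16246472) (a (l 16212200) (l 16302200))) (c (l 16319232) (l 16407280)))) (b (a (b (c (a (l 16125608) (l 16212952)) (a (l 16142808) (l 16233504))) (a (l 16141392) (l 16219016))) (b (c (l 16304696) (l 16228872)) (a (l 16308304) (l 16392656)))) (a (c (l 16173360) (l 16263792)) (c (l 16340784) (l 16273784))))) (c (a (b (c (l 16263712) (l 16185880)) (l 16318192)) (b (c (a (l 16500048) (l 16516584)) (a (l 16495984) (l 16496416))) (c (a (l 16434072) (l 16422216)) (a (l 16441000) (l 16404752))))) (c (a (l 16208872) (b (a (l 16502864) (l 16470968)) (l 16361528))) (a (l 16211136) (b (a (l 16504400) (l 16448360)) (l 16391584)))))), by decide +kernel⟩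

def k12_pp_022 : ∃ t, chk3 f_pp_022 t 2 40 1 = true :=
  ⟨(a (c (a (b (c (l 16007992) (l 16054064)) (c (l 16126896) (l 16191464))) (b (c (a (l 16018616) (l 16086424)) (a (l 16037048) (l 16123000))) (c (a (l 16063392) (l 16152440)) (a (l 16182392) (l 16195040))))) (a (c (a (l 16011840) (a (l 16000808) (l 15982512))) (a (c (l 16025304) (a (l 16043808) (l 16190976))) (b (l 16160704) (l 16348944)))) (c (b (a (l 16137224) (l 16144856)) (l 16271256)) (l 16036904)))) (b (c (c (l 16067080) (l 16103808)) (a (c (l 16147304) (l 16163784)) (l 16237896))) (c (a (c (l 16281104) (l 16114168)) (l 16392352)) (a (c (l 16182240) (l 16322616)) (c (l 16339864) (l 16358376)))))), by decide +kernel⟩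

def k13_pp_022 : ∃ t, chk3 f_pp_022 t 2 41 1 = true :=
  ⟨(b (a (c (a (l 16175080) (c (a (l 16250504) (l 16245552)) (l 16141688))) (a (c (a (l 16303240) (l 16155912)) (a (c (l 16194344) (a (l 16143512) (l 16190784))) (l 16137296))) (c (l 16238160) (l 16249448)))) (a (c (c (b (l 16323712) (l 16306096)) (b (l 16343128) (l 16348424))) (b (l 16354848) (l 16267944))) (c (c (l 16351928) (l 16387392)) (b (l 16225296) (l 16201520))))) (a (c (b (a (l 16066376) (c (l 16257856) (a (l 16243792) (l 16211280)))) (a (b (l 16049896) (l 15905848)) (b (c (l 16208944) (l 15959224)) (c (l 15954840) (a (l 16033048) (l 15999864)))))) (b (a (c (a (l 16122752) (b (l 16136624) (l 16108416))) (a (c (l 16056552) (l 15905008)) (l 16018880))) (c (l 16074480) (l 16065520))) (a (c (b (a (l 16012944) (l 16026128)) (a (l 15939912) (l 15739512))) (b (a (c (l 15951464) (l 15908016)) (l 15930584)) (a (c (l 15881744) (a (l 15819000) (l 15839280))) (l 15836968)))) (b (c (l 16015160) (l 15948976)) (c (l 15873464) (l 15874264))))))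 (b (c (a (c (b (l 16337064) (l 16263776)) (l 16226576)) (c (l 16291800) (l 16302408))) (c (b (l 16262944) (l 16191712)) (l 16147288))) (c (c (b (a (l 16170928) (b (l 16232112) (l 16180664))) (l 15918704)) (b (l 16103416) (l 16020040))) (b (l 15981376) (l 15861448)))))), by decide +kernel⟩

def k14_pp_022 : ∃ t, chk3 f_pp_022 t 2 21 1 = true :=
  ⟨(a (c (a (b (l 15751880) (l 15697984)) (c (a (l 15789056) (l 15890240)) (a (l 15739544) (l 15777848)))) (a (c (a (l 15610488) (b (l 15762288) (l 15620320))) (a (c (l 15391552) (b (l 15673240) (l 15514024))) (b (l 15718280) (l 15542200)))) (c (b (l 15810304) (l 15624464)) (l 15666040)))) (c (a (c (l 15764360) (l 15791648)) (b (l 15961400) (l 15743392))) (c (l 15688376) (l 15732688)))), by decide +kernel⟩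

def k15_pp_022 : ∃ t, chk3 f_pp_022 t 2 11 1 = true :=
  ⟨(b (a (c (a (b (l 15507096) (l 15306816)) (c (l 15326672) (a (l 15406552) (l 15371080)))) (a (c (a (l 15327304) (l 15340496)) (a (c (l 15287376) (l 15258744)) (l 15273112))) (c (l 15329704) (l 15290560)))) (a (c (b (l 15508304) (l 15285280)) (l 15331384)) (c (l 15187232) (l 15357288)))) (a (c (a (l 15023120) (c (l 15077784) (l 15002024))) (a (c (l 14782760) (a (l 14667792) (l 14893984))) (c (l 14939464) (l 14903296)))) (c (a (l 14806216) (l 14991224)) (l 14938592)))), by decide +kernel⟩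

def k16_pp_022 : ∃ t, chk3 f_pp_022 t 3 5 1 = true :=
  ⟨(a (b (b (b (c (b (l 16389696) (l 16374656)) (b (l 16447104) (l 16395288))) (b (c (l 16341936) (b (l 16361112) (l 16266904))) (b (c (c (l 16297368) (l 16320544)) (a (b (l 16314696) (l 16259440)) (l 16283936))) (b (c (c (l 16183656) (b (l 16281736) (l 16186344))) (b (a (l 16202376) (l 16237128)) (l 16090544))) (c (b (b (b (l 16136240) (b (l 16124816) (c (l 16206744) (l 16154144)))) (l 16169320)) (l 16158080)) (b (b (b (l 16140176) (l 16111248)) (l 16091648)) (l 16081608))))))) (c (b (c (l 16054216) (l 15988096)) (l 15677016)) (b (l 15967208) (l 15739864)))) (b (c (c (l 15444472) (l 15444488)) (l 15171664)) (c (l 15046160) (l 14972424)))) (b (b (b (c (b (c (a (l 16372952) (l 16350768)) (l 16361944)) (l 16315392)) (l 16302024)) (b (c (l 16287048) (l 16272096)) (b (c (l 16268472) (l 16246288)) (b (c (l 16245272) (l 16116400)) (b (b (b (c (l 16236640) (l 16184840)) (c (c (l 16219568) (l 16210664)) (b (l 16177600) (l 16169680)))) (c (l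 16186600) (l 16165416))) (c (l 16195232) (l 16153256))))))) (c (c (l 15939520) (l 15943504)) (b (l 16012104) (l 15759448)))) (c (b (l 15394616) (l 15105664)) (b (l 15394264) (l 15000544))))), by decide +kernel⟩

def k17_pp_022 : ∃ t, chk3 f_pp_022 t 1 3 1 = true :=
  ⟨(c (b (a (b (a (a (b (l 14687280) (l 14378032)) (c (l 14451784) (b (l 14669264) (l 14363576)))) (b (l 14640552) (a (l 14386520) (l 14419744)))) (a (a (l 13969184) (c (l 14298184) (l 14204960))) (l 14337520))) (b (a (b (l 14739648) (l 14561376)) (b (l 14841136) (l 14759688))) (a (l 14543928) (l 14759688)))) (a (a (b (a (l 14146400) (l 14246648)) (l 14189640)) (b (l 14337520) (l 14337520))) (b (l 14644168) (l 14644168)))) (b (a (b (b (a (a (c (l 14604400) (l 14293400)) (l 14569904)) (l 14605496)) (a (a (c (l 14285016) (l 14218800)) (l 14254152)) (l 14330024))) (a (a (c (l 13868488) (b (l 13995768) (l 13973568))) (c (l 14125264) (l 14071720))) (l 14245048))) (b (b (a (l 14652944) (l 14724760)) (l 14554560)) (l 14540928))) (b (a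 (a (c (l 14088448) (l 14019360)) (l 14245048)) (l 14540928)) (a (a (l 13989200) (l 14245048)) (l 14540928))))), by decide +kernel⟩

theorem s18_pp_022 : ∃ t, chk3 f_pp_022 t 2 20 1 = true := ex3_b k12_pp_022 k13_pp_022

theorem s19_pp_022 : ∃ t, chk3 f_pp_022 t 2 10 1 = true := ex3_b s18_pp_022 k14_pp_022

theorem s20_pp_022 : ∃ t, chk3 f_pp_022 t 2 5 1 = true := ex3_b s19_pp_022 k15_pp_022

theorem s21_pp_022 : ∃ t, chk3 f_pp_022 t 1 5 1 = true := ex3_a s20_pp_022 k16_pp_022

theorem s22_pp_022 : ∃ t, chk3 f_pp_022 t 1 19 1 = true := ex3_a k10_pp_022 k11_pp_022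

theorem s23_pp_022 : ∃ t, chk3 f_pp_022 t 2 18 2 = true := ex3_b k6_pp_022 k7_pp_022

theorem s24_pp_022 : ∃ t, chk3 f_pp_022 t 2 18 1 = true := ex3_c s23_pp_022 k8_pp_022

theorem s25_pp_022 : ∃ t, chk3 f_pp_022 t 1 18 1 = true := ex3_a s24_pp_022 k9_pp_022

theorem s26_pp_022 : ∃ t, chk3 f_pp_022 t 1 9 1 = true := ex3_b s25_pp_022 s22_pp_022

theorem s27_pp_022 : ∃ t, chk3 f_pp_022 t 5 17 1 = true := ex3_b k3_pp_022 k4_pp_022

theorem s28_pp_022 : ∃ t, chk3 f_pp_022 t 4 17 1 = true := ex3_a k1_pp_022 k2_pp_022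

theorem s29_pp_022 : ∃ t, chk3 f_pp_022 t 2 17 1 = true := ex3_a s28_pp_022 s27_pp_022

theorem s30_pp_022 : ∃ t, chk3 f_pp_022 t 2 8 1 = true := ex3_b k0_pp_022 s29_pp_022

theorem s31_pp_022 : ∃ t, chk3 f_pp_022 t 1 8 1 = true := ex3_a s30_pp_022 k5_pp_022

theorem s32_pp_022 : ∃ t, chk3 f_pp_022 t 1 4 1 = true := ex3_b s31_pp_022 s26_pp_022

theorem s33_pp_022 : ∃ t, chk3 f_pp_022 t 1 2 1 = true := ex3_b s32_pp_022 s21_pp_022

theorem s34_pp_022 : ∃ t, chk3 f_pp_022 t 1 1 1 = true := ex3_b s33_pp_022 k17_pp_022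

theorem c_pp_022 : CertNX 0 67108864 1073741824 536870912 1046898278 26843546 3 false true true .pp 0 2 2
    ndN4q0 ndN7q2 pcN2 cut_pp_022 Ext.none :=
  certNX1 (fam := false) (s1 := true) (s2 := true) (a := 0) (b := 2) (c := 2) (cn := .pp) (n1 := ndN4q0) (n2 := ndN7q2) (pc := pcN2) (cut := cut_pp_022) (xt := Ext.none) (P1 := 0) (W1 := 67108864) (P2 := 1073741824) (W2 := 536870912) (P3 := 1046898278) (W3 := 26843546) (N0 := 3)
    rfl (fun _ => rfl) s34_pp_022

noncomputable def f_pp_023 : ℕ → ℕ → ℕ → ℕ → Bool := onCell 0 67108864 0 1230186008 1046898278 26843546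
    (rowNX 3 0 false true true .up 0 2 3 (qsf 0 67108864 0 1230186008 2) ndN4q0 ndN7q3 pcN2 Cut.none Ext.none)

def k0_pp_023 : ∃ t, chk3 f_pp_023 t 1 1 1 = true :=
  ⟨(b (l 2) (b (l 2) (b (l 2) (b (l 2) (a (b (l 2) (c (l 14062808) (l 13913472))) (c (l 14644168) (l 14540928))))))), by decide +kernel⟩

theorem c_pp_023 : CertNX 0 67108864 0 1230186008 1046898278 26843546 3 false true true .up 0 2 3
    ndN4q0 ndN7q3 pcN2 Cut.none Ext.none :=
  certNX0 (fam := false) (s1 := true) (s2 := true) (a := 0) (b := 2) (c := 3) (cn := .up) (n1 := ndN4q0) (n2 := ndN7q3) (pc := pcN2) (cut := Cut.none) (xt := Ext.none) (P1 := 0) (W1 := 67108864) (P2 := 0) (W2 := 1230186008) (P3 := 1046898278) (W3 := 26843546) (N0 := 3)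
    rfl k0_pp_023

noncomputable def f_pp_033 : ℕ → ℕ → ℕ → ℕ → Bool := onCell 0 67108864 0 1230186008 1046898278 26843546
    (rowNX 3 0 false true true .pnn 0 3 3 (qsf 0 67108864 0 1230186008 3) ndN4q0 ndN7q3 pcN3 Cut.none Ext.none)

def k0_pp_033 : ∃ t, chk3 f_pp_033 t 1 1 1 = true :=
  ⟨(b (b (l 4) (b (l 4) (a (a (c (b (l 943511532583) (l 14188592)) (b (a (l 67337678471) (l 14081432)) (a (l 14005040) (l 14087280)))) (c (b (l 14336776) (l 14337512)) (b (l 14243080) (l 14245040)))) (c (b (l 14644184) (l 14644160)) (b (l 14540880) (l 14540912)))))) (b (b (a (a (b (c (l 14189608) (l 14052072)) (c (l 14189592) (l 14052056))) (b (l 14270472) (l 14270480))) (b (l 14399672) (l 14588424))) (a (c (a (b (l 14189624) (l 14189640)) (l 14337512)) (a (b (l 13947240) (l 13989200)) (l 14245040))) (c (l 14539304) (l 14540920)))) (c (a (b (a (l 14126728) (l 14337520)) (b (a (l 14189640) (l 14337520)) (a (l 14189640) (l 14337520)))) (b (l 14644168) (b (l 14644168) (l 14644168)))) (b (a (a (c (l 14088448)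 (l 13851584)) (l 14245048)) (l 14540928)) (a (a (b (l 14010176) (l 14031144)) (l 14245048)) (l 39220155111)))))), by decide +kernel⟩

theorem c_pp_033 : CertNX 0 67108864 0 1230186008 1046898278 26843546 3 false true true .pnn 0 3 3
    ndN4q0 ndN7q3 pcN3 Cut.none Ext.none :=
  certNX0 (fam := false) (s1 := true) (s2 := true) (a := 0) (b := 3) (c := 3) (cn := .pnn) (n1 := ndN4q0) (n2 := ndN7q3) (pc := pcN3) (cut := Cut.none) (xt := Ext.none) (P1 := 0) (W1 := 67108864) (P2 := 0) (W2 := 1230186008) (P3 := 1046898278) (W3 := 26843546) (N0 := 3)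
    rfl k0_pp_033

noncomputable def f_pm_001 : ℕ → ℕ → ℕ → ℕ → Bool := onCell 0 67108864 536870912 536870912 1046898278 26843546
    (rowNX 3 0 false true false .up 0 0 1 (qsf 0 67108864 536870912 536870912 0) ndN4q0 ndN7q1 pcN0 Cut.none Ext.none)

def k0_pm_001 : ∃ t, chk3 f_pm_001 t 1 1 1 = true :=
  ⟨(l 4), by decide +kernel⟩

theorem c_pm_001 : CertNX 0 67108864 536870912 536870912 1046898278 26843546 3 false true false .up 0 0 1
    ndN4q0 ndN7q1 pcN0 Cut.none Ext.none :=
  certNX0 (fam := false) (s1 := true) (s2 := false) (a := 0) (b := 0) (c := 1) (cn := .up) (n1 := ndN4q0) (n2 := ndN7q1) (pc := pcN0) (cut := Cut.none) (xt := Ext.none) (P1 := 0) (W1 := 67108864) (P2 := 536870912) (W2 := 536870912) (P3 := 1046898278) (W3 := 26843546) (N0 := 3)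
    rfl k0_pm_001

noncomputable def f_pm_011 : ℕ → ℕ → ℕ → ℕ → Bool := onCell 0 67108864 536870912 536870912 1046898278 26843546
    (rowNX 3 0 false true false .pnn 0 1 1 (qsf 0 67108864 536870912 536870912 1) ndN4q0 ndN7q1 pcN1 Cut.none Ext.none)

def k0_pm_011 : ∃ t, chk3 f_pm_011 t 1 1 1 = true :=
  ⟨(l 4), by decide +kernel⟩

theorem c_pm_011 : CertNX 0 67108864 536870912 536870912 1046898278 26843546 3 false true false .pnn 0 1 1
    ndN4q0 ndN7q1 pcN1 Cut.none Ext.none :=
  certNX0 (fam := false) (s1 := true) (s2 := false) (a := 0) (b := 1) (c := 1) (cn := .pnn) (n1 := ndN4q0) (n2 := ndN7q1) (pc := pcN1) (cut := Cut.none) (xt := Ext.none) (P1 := 0) (W1 := 67108864) (P2 := 536870912) (W2 := 536870912) (P3 := 1046898278) (W3 := 26843546) (N0 := 3)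
    rfl k0_pm_011

noncomputable def f_pm_012 : ℕ → ℕ → ℕ → ℕ → Bool := onCell 0 67108864 1073741824 536870912 1046898278 26843546
    (rowNX 3 0 false true false .pnp 0 1 2 (qsf 0 67108864 1073741824 536870912 1) ndN4q0 ndN7q2 pcN1 Cut.none Ext.none)

def k0_pm_012 : ∃ t, chk3 f_pm_012 t 1 1 1 = true :=
  ⟨(l 4), by decide +kernel⟩

theorem c_pm_012 : CertNX 0 67108864 1073741824 536870912 1046898278 26843546 3 false true false .pnp 0 1 2
    ndN4q0 ndN7q2 pcN1 Cut.none Ext.none :=
  certNX0 (fam := false) (s1 := true) (s2 := false) (a := 0) (b := 1) (c := 2) (cn := .pnp) (n1 := ndN4q0) (n2 := ndN7q2) (pc := pcN1) (cut := Cut.none) (xt := Ext.none) (P1 := 0) (W1 := 67108864) (P2 := 1073741824) (W2 := 536870912) (P3 := 1046898278) (W3 := 26843546) (N0 := 3)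
    rfl k0_pm_012

noncomputable def f_pm_022 : ℕ → ℕ → ℕ → ℕ → Bool := onCell 0 67108864 1073741824 536870912 1046898278 26843546
    (rowNX 3 0 false true false .pp 0 2 2 (qsf 0 67108864 1073741824 536870912 2) ndN4q0 ndN7q2 pcN2 Cut.none Ext.none)

def k0_pm_022 : ∃ t, chk3 f_pm_022 t 1 1 1 = true :=
  ⟨(l 4), by decide +kernel⟩

theorem c_pm_022 : CertNX 0 67108864 1073741824 536870912 1046898278 26843546 3 false true false .pp 0 2 2
    ndN4q0 ndN7q2 pcN2 Cut.none Ext.none :=
  certNX0 (fam := false) (s1 := true) (s2 := false) (a := 0) (b := 2) (c := 2) (cn := .pp) (n1 := ndN4q0) (n2 := ndN7q2) (pc := pcN2) (cut := Cut.none) (xt := Ext.none) (P1 := 0) (W1 := 67108864) (P2 := 1073741824) (W2 := 536870912) (P3 := 1046898278) (W3 := 26843546) (N0 := 3)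
    rfl k0_pm_022

noncomputable def f_pm_023 : ℕ → ℕ → ℕ → ℕ → Bool := onCell 0 67108864 0 1230186008 1046898278 26843546
    (rowNX 3 0 false true false .up 0 2 3 (qsf 0 67108864 0 1230186008 2) ndN4q0 ndN7q3 pcN2 Cut.none Ext.none)

def k0_pm_023 : ∃ t, chk3 f_pm_023 t 1 1 1 = true :=
  ⟨(l 4), by decide +kernel⟩

theorem c_pm_023 : CertNX 0 67108864 0 1230186008 1046898278 26843546 3 false true false .up 0 2 3
    ndN4q0 ndN7q3 pcN2 Cut.none Ext.none :=
  certNX0 (fam := false) (s1 := true) (s2 := false) (a := 0) (b := 2) (c := 3) (cn := .up) (n1 := ndN4q0) (n2 := ndN7q3) (pc := pcN2) (cut := Cut.none) (xt := Ext.none) (P1 := 0) (W1 := 67108864) (P2 := 0) (W2 := 1230186008) (P3 := 1046898278) (W3 := 26843546) (N0 := 3)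
    rfl k0_pm_023

noncomputable def f_pm_033 : ℕ → ℕ → ℕ → ℕ → Bool := onCell 0 67108864 0 1230186008 1046898278 26843546
    (rowNX 3 0 false true false .pnn 0 3 3 (qsf 0 67108864 0 1230186008 3) ndN4q0 ndN7q3 pcN3 Cut.none Ext.none)

def k0_pm_033 : ∃ t, chk3 f_pm_033 t 1 1 1 = true :=
  ⟨(l 4), by decide +kernel⟩

theorem c_pm_033 : CertNX 0 67108864 0 1230186008 1046898278 26843546 3 false true false .pnn 0 3 3
    ndN4q0 ndN7q3 pcN3 Cut.none Ext.none :=
  certNX0 (fam := false) (s1 := true) (s2 := false) (a := 0) (b := 3) (c := 3) (cn := .pnn) (n1 := ndN4q0) (n2 := ndN7q3) (pc := pcN3) (cut := Cut.none) (xt := Ext.none) (P1 := 0) (W1 := 67108864) (P2 := 0) (W2 := 1230186008) (P3 := 1046898278) (W3 := 26843546) (N0 := 3)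
    rfl k0_pm_033

noncomputable def f_mm_001 : ℕ → ℕ → ℕ → ℕ → Bool := onCell 0 67108864 536870912 536870912 1046898278 26843546
    (rowNX 3 0 false false false .up 0 0 1 (qsf 0 67108864 536870912 536870912 0) ndN4q0 ndN7q1 pcN0 Cut.none Ext.none)

def k0_mm_001 : ∃ t, chk3 f_mm_001 t 1 1 1 = true :=
  ⟨(l 5), by decide +kernel⟩

theorem c_mm_001 : CertNX 0 67108864 536870912 536870912 1046898278 26843546 3 false false false .up 0 0 1
    ndN4q0 ndN7q1 pcN0 Cut.none Ext.none :=
  certNX0 (fam := false) (s1 := false) (s2 := false) (a := 0) (b := 0) (c := 1) (cn := .up) (n1 := ndN4q0) (n2 := ndN7q1) (pc := pcN0) (cut := Cut.none) (xt := Ext.none) (P1 := 0) (W1 := 67108864) (P2 := 536870912) (W2 := 536870912) (P3 := 1046898278) (W3 := 26843546) (N0 := 3)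
    rfl k0_mm_001

noncomputable def f_mm_011 : ℕ → ℕ → ℕ → ℕ → Bool := onCell 0 67108864 536870912 536870912 1046898278 26843546
    (rowNX 3 0 false false false .pnn 0 1 1 (qsf 0 67108864 536870912 536870912 1) ndN4q0 ndN7q1 pcN1 Cut.none Ext.none)

def k0_mm_011 : ∃ t, chk3 f_mm_011 t 1 1 1 = true :=
  ⟨(l 5), by decide +kernel⟩

theorem c_mm_011 : CertNX 0 67108864 536870912 536870912 1046898278 26843546 3 false false false .pnn 0 1 1
    ndN4q0 ndN7q1 pcN1 Cut.none Ext.none :=
  certNX0 (fam := false) (s1 := false) (s2 := false) (a := 0) (b := 1) (c := 1) (cn := .pnn) (n1 := ndN4q0) (n2 := ndN7q1) (pc := pcN1) (cut := Cut.none) (xt := Ext.none) (P1 := 0) (W1 := 67108864) (P2 := 536870912) (W2 := 536870912) (P3 := 1046898278) (W3 := 26843546) (N0 := 3)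
    rfl k0_mm_011

noncomputable def f_mm_012 : ℕ → ℕ → ℕ → ℕ → Bool := onCell 0 67108864 1073741824 536870912 1046898278 26843546
    (rowNX 3 0 false false false .pnp 0 1 2 (qsf 0 67108864 1073741824 536870912 1) ndN4q0 ndN7q2 pcN1 Cut.none Ext.none)

def k0_mm_012 : ∃ t, chk3 f_mm_012 t 1 1 1 = true :=
  ⟨(l 5), by decide +kernel⟩

theorem c_mm_012 : CertNX 0 67108864 1073741824 536870912 1046898278 26843546 3 false false false .pnp 0 1 2
    ndN4q0 ndN7q2 pcN1 Cut.none Ext.none :=
  certNX0 (fam := false) (s1 := false) (s2 := false) (a := 0) (b := 1) (c := 2) (cn := .pnp) (n1 := ndN4q0) (n2 := ndN7q2) (pc := pcN1) (cut := Cut.none) (xt := Ext.none) (P1 := 0) (W1 := 67108864) (P2 := 1073741824) (W2 := 536870912) (P3 := 1046898278) (W3 := 26843546) (N0 := 3)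
    rfl k0_mm_012

noncomputable def f_mm_022 : ℕ → ℕ → ℕ → ℕ → Bool := onCell 0 67108864 1073741824 536870912 1046898278 26843546
    (rowNX 3 0 false false false .pp 0 2 2 (qsf 0 67108864 1073741824 536870912 2) ndN4q0 ndN7q2 pcN2 Cut.none Ext.none)

def k0_mm_022 : ∃ t, chk3 f_mm_022 t 1 1 1 = true :=
  ⟨(l 5), by decide +kernel⟩

theorem c_mm_022 : CertNX 0 67108864 1073741824 536870912 1046898278 26843546 3 false false false .pp 0 2 2
    ndN4q0 ndN7q2 pcN2 Cut.none Ext.none :=
  certNX0 (fam := false) (s1 := false) (s2 := false) (a := 0) (b := 2) (c := 2) (cn := .pp) (n1 := ndN4q0) (n2 := ndN7q2) (pc := pcN2) (cut := Cut.none) (xt := Ext.none) (P1 := 0) (W1 := 67108864) (P2 := 1073741824) (W2 := 536870912) (P3 := 1046898278) (W3 := 26843546) (N0 := 3)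
    rfl k0_mm_022

noncomputable def f_mm_023 : ℕ → ℕ → ℕ → ℕ → Bool := onCell 0 67108864 0 1230186008 1046898278 26843546
    (rowNX 3 0 false false false .up 0 2 3 (qsf 0 67108864 0 1230186008 2) ndN4q0 ndN7q3 pcN2 Cut.none Ext.none)

def k0_mm_023 : ∃ t, chk3 f_mm_023 t 1 1 1 = true :=
  ⟨(l 5), by decide +kernel⟩

theorem c_mm_023 : CertNX 0 67108864 0 1230186008 1046898278 26843546 3 false false false .up 0 2 3
    ndN4q0 ndN7q3 pcN2 Cut.none Ext.none :=
  certNX0 (fam := false) (s1 := false) (s2 := false) (a := 0) (b := 2) (c := 3) (cn := .up) (n1 := ndN4q0) (n2 := ndN7q3) (pc := pcN2) (cut := Cut.none) (xt := Ext.none) (P1 := 0) (W1 := 67108864) (P2 := 0) (W2 := 1230186008) (P3 := 1046898278) (W3 := 26843546) (N0 := 3)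
    rfl k0_mm_023

noncomputable def f_mm_033 : ℕ → ℕ → ℕ → ℕ → Bool := onCell 0 67108864 0 1230186008 1046898278 26843546
    (rowNX 3 0 false false false .pnn 0 3 3 (qsf 0 67108864 0 1230186008 3) ndN4q0 ndN7q3 pcN3 Cut.none Ext.none)

def k0_mm_033 : ∃ t, chk3 f_mm_033 t 1 1 1 = true :=
  ⟨(l 5), by decide +kernel⟩

theorem c_mm_033 : CertNX 0 67108864 0 1230186008 1046898278 26843546 3 false false false .pnn 0 3 3
    ndN4q0 ndN7q3 pcN3 Cut.none Ext.none :=
  certNX0 (fam := false) (s1 := false) (s2 := false) (a := 0) (b := 3) (c := 3) (cn := .pnn) (n1 := ndN4q0) (n2 := ndN7q3) (pc := pcN3) (cut := Cut.none) (xt := Ext.none) (P1 := 0) (W1 := 67108864) (P2 := 0) (W2 := 1230186008) (P3 := 1046898278) (W3 := 26843546) (N0 := 3)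
    rfl k0_mm_033

end Pool.Agent.Strip051.G.IE1.Tab.C.NB47

namespace Pool.Agent.Strip051.G.IE1.Tab.C.NB50

open Pool.Agent.Strip051.PB Pool.Agent.Strip051.PB.T
open Pool.Agent.Strip051.G.IE1.Tab

noncomputable def f_pp_001 : ℕ → ℕ → ℕ → ℕ → Bool := onCell 0 536870912 536870912 536870912 1046898278 26843546
    (rowNX 3 2 false true true .up 0 0 1 (qsf 0 536870912 536870912 536870912 0) ndN5q0 ndN0q1 pcN0 Cut.none Ext.none)

def k0_pp_001 : ∃ t, chk3 f_pp_001 t 1 1 1 = true :=
  ⟨(b (l 3) (b (l 3) (a (l 2) (b (l 3) (b (l 3) (a (l 2) (a (l 2) (b (c (c (b (l 15584616) (l 15531080)) (b (l 15540440) (l 15512144))) (l 183170942007)) (a (l 2) (c (l 15447504) (b (l 159548164663) (a (l 2) (l 15145344))))))))))))), by decide +kernel⟩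

theorem c_pp_001 : CertNX 0 536870912 536870912 536870912 1046898278 26843546 3 false true true .up 0 0 1
    ndN5q0 ndN0q1 pcN0 Cut.none Ext.none :=
  certNX2 (fam := false) (s1 := true) (s2 := true) (a := 0) (b := 0) (c := 1) (cn := .up) (n1 := ndN5q0) (n2 := ndN0q1) (pc := pcN0) (cut := Cut.none) (xt := Ext.none) (P1 := 0) (W1 := 536870912) (P2 := 536870912) (W2 := 536870912) (P3 := 1046898278) (W3 := 26843546) (N0 := 3)
    rfl (fun _ => rfl) k0_pp_001

noncomputable def f_pp_011 : ℕ → ℕ → ℕ → ℕ → Bool := onCell 0 536870912 536870912 536870912 1046898278 26843546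
    (rowNX 3 0 false true true .pnn 0 1 1 (qsf 0 536870912 536870912 536870912 1) ndN5q0 ndN0q1 pcN1 Cut.none Ext.none)

def k0_pp_011 : ∃ t, chk3 f_pp_011 t 1 2 1 = true :=
  ⟨(l 3), by decide +kernel⟩

def k1_pp_011 : ∃ t, chk3 f_pp_011 t 2 6 1 = true :=
  ⟨(l 3), by decide +kernel⟩

def k2_pp_011 : ∃ t, chk3 f_pp_011 t 8 14 1 = true :=
  ⟨(l 3), by decide +kernel⟩

def k3_pp_011 : ∃ t, chk3 f_pp_011 t 8 60 1 = true :=
  ⟨(l 3), by decide +kernel⟩

def k4_pp_011 : ∃ t, chk3 f_pp_011 t 8 122 1 = true :=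
  ⟨(b (l 3) (a (a (c (a (c (l 14491168) (a (l 13841944) (c (l 14052608) (a (l 13742784) (l 13781672))))) (c (a (a (l 14477032) (c (l 14599072) (l 14345960))) (l 131160106119)) (a (c (a (l 14081456) (l 14079256)) (l 13803688)) (c (l 14069152) (l 13828704))))) (a (c (a (l 13169056) (c (a (l 13440016) (l 13483416)) (a (l 13122640) (l 13177752)))) (a (c (a (l 12596544) (l 12710368)) (c (l 137060699431) (l 12219736))) (c (l 12851064) (l 12558984)))) (c (a (c (l 13528352) (l 13271064)) (l 13501336)) (l 12982816)))) (c (a (c (a (l 14397696) (c (l 14463504) (l 118811587719))) (a (c (l 14073504) (l 13880440)) (l 14024096))) (c (l 120959438775) (l 14094224))) (c (a (l 13645624) (l 13792568)) (l 13366896)))) (a (l 3) (l 3)))), by decide +kernel⟩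

def k5_pp_011 : ∃ t, chk3 f_pp_011 t 8 123 1 = true :=
  ⟨(a (a (c (a (a (b (b (l 14565776) (l 14427736)) (c (b (l 14976944) (c (c (c (b (l 15486904) (l 15586528)) (l 15427168)) (l 15260688)) (l 14926624))) (l 14194040))) (c (b (l 14665488) (b (l 14839768) (c (l 15159944) (l 14785872)))) (a (l 14085584) (c (l 14261792) (a (l 13922384) (l 13928280)))))) (c (a (c (c (b (l 14829296) (l 15039816)) (a (l 14799040) (l 14766576))) (a (l 14570032) (a (l 14552864) (l 14535424)))) (c (c (b (l 14756968) (a (l 14960112) (l 14898600))) (l 14699096)) (l 14487704))) (a (c (a (a (l 14260280) (l 14253192)) (l 14235128)) (l 13923936)) (c (l 14204096) (a (l 13921360) (l 13930688)))))) (a (c (a (b (a (l 13173952) (l 13247568)) (l 13319664)) (a (c (b (l 13491544) (l 13598536)) (l 13161840)) (c (l 13571608) (l 13211624)))) (a (c (a (l 12580304) (b (l 12675256) (l 12704168))) (a (c (l 12250640) (l 12029496)) (l 12279384))) (c (a (l 12779696) (l 12872960)) (l 12479208)))) (c (a (c (l 13603808) (l 13300768)) (l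 13544944)) (l 12948848)))) (c (a (c (c (c (b (l 14637072) (l 14773216)) (a (l 14616536) (l 14553552))) (a (l 14427536) (a (l 14398888) (l 14394080)))) (a (c (a (l 14184648) (l 14185008)) (l 13962640)) (l 14106136))) (c (c (b (a (l 14521640) (l 14519968)) (a (l 14630704) (l 14615728))) (l 14403848)) (l 14158616))) (c (a (l 13679368) (l 13818448)) (l 13352872)))) (c (a (c (b (l 14477016) (l 14543336)) (a (l 14223144) (l 14277744))) (c (a (l 14549912) (c (l 14629712) (l 14522960))) (l 14341032))) (a (l 13820136) (l 13993960)))), by decide +kernel⟩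

def k6_pp_011 : ∃ t, chk3 f_pp_011 t 64 62 2 = true :=
  ⟨(b (c (b (c (b (a (c (a (b (l 15716504) (l 15828168)) (l 15609512)) (c (l 15519896) (l 15403568))) (l 15317856)) (a (c (a (b (l 15943600) (l 16072640)) (b (l 15764688) (l 15876128))) (a (l 15858184) (l 15597392))) (c (l 15591272) (l 15388704)))) (b (l 15004480) (l 15306408))) (c (a (b (c (a (l 16300136) (l 16062696)) (a (b (l 15963032) (l 16104808)) (l 15823496))) (c (l 16502800) (a (l 16353952) (l 16086632)))) (b (c (l 15851456) (l 15574576)) (c (a (l 16115120) (l 15921144)) (l 15783728)))) (b (a (c (a (l 15776520) (l 15582168)) (l 15410344)) (l 15247640)) (a (c (a (b (l 15983272) (l 16139560)) (l 15825936)) (l 15788776)) (c (l 15554496) (l 15322352)))))) (a (b (l 14467456) (l 14827192)) (c (l 14727672) (a (l 14307752) (l 14278600))))) (c (b (c (a (b (l 16700408) (l 16673128)) (b (c (l 16269640) (a (l 16135344) (l 15921424))) (c (l 16564144) (l 16296512)))) (a (a (b (c (l 16413896) (b (l 16004504) (l 16177384))) (l 16670296)) (b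 (c (l 16111648) (l 15826664)) (l 16298808))) (b (c (l 15776464) (l 15530432)) (c (a (l 16155760) (l 15919600)) (l 15766240))))) (c (a (l 16613560) (b (l 16604328) (l 16567832))) (a (b (l 16593120) (l 16597248)) (b (c (l 16324008) (l 16037136)) (a (l 16577392) (l 16340384)))))) (c (b (b (c (a (l 15649256) (l 15281256)) (l 15161904)) (a (c (a (l 16122480) (l 15825232)) (l 15631152)) (l 15368168))) (a (b (c (l 16348920) (a (l 16157544) (l 15821088))) (a (l 16616408) (l 16389440))) (b (l 15609736) (c (l 16042136) (l 15734264))))) (b (a (l 14980176) (l 14732176)) (a (b (c (b (l 15523688) (l 15694064)) (l 15229208)) (c (a (l 16196784) (l 15812240)) (b (l 15484376) (l 15672552)))) (a (l 15234056) (c (l 15213440) (l 14927048)))))))), by decide +kernel⟩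

def k7_pp_011 : ∃ t, chk3 f_pp_011 t 65 62 2 = true :=
  ⟨(c (b (a (b (c (c (b (l 15228832) (l 15370360)) (a (l 15163160) (b (l 15027960) (l 15154640)))) (a (l 14893384) (c (l 14918480) (l 14744944)))) (c (c (l 15602824) (a (l 15472352) (l 15365168))) (a (c (l 15275616) (l 15075160)) (c (b (l 15108584) (l 15252880)) (l 14986448))))) (c (b (c (b (l 15082664) (l 15199608)) (l 14978616)) (c (l 15381936) (l 15215296))) (b (l 14737352) (b (l 14895096) (l 15016456))))) (a (c (b (c (b (l 15871144) (a (l 16177304) (l 15980008))) (a (l 15846464) (l 15686144))) (c (b (l 16299776) (l 16541952)) (a (l 16312952) (b (l 15971256) (l 16187784))))) (b (a (c (l 15628952) (l 15410280)) (l 15383200)) (a (c (b (l 15947432) (l 16192360)) (l 15819936)) (b (l 15645136) (l 15843392))))) (c (b (a (l 15636456) (l 15505888)) (c (a (b (l 15987704) (l 16181896)) (l 15900528)) (l 15792816))) (b (l 15209232) (l 15500696))))) (b (a (c (a (b (l 14526704) (l 14767600)) (l 14581392)) (l 14225072)) (c (l 14505856) (a (l 14183736)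 (l 14172616)))) (c (b (a (c (a (l 15186776) (l 15071736)) (l 14903248)) (l 14836152)) (a (b (l 15270584) (l 15461832)) (l 15108496))) (a (b (l 14567448) (l 14876144)) (b (l 14458592) (c (l 14807656) (l 14606344))))))), by decide +kernel⟩

def k8_pp_011 : ∃ t, chk3 f_pp_011 t 33 62 2 = true :=
  ⟨(c (b (a (c (b (c (l 14945728) (a (l 14855368) (l 14763200))) (c (l 15132848) (l 15121408))) (b (a (l 14640616) (l 14582640)) (a (c (l 14904504) (l 14746608)) (c (l 14851456) (l 14676888))))) (c (b (c (a (l 14823888) (l 14789440)) (l 14700104)) (c (l 14948472) (l 14848944))) (b (l 14554688) (l 14691096)))) (a (b (c (l 15260936) (a (l 15038176) (l 14925864))) (a (c (l 15599656) (l 15269856)) (c (l 15393512) (l 15114808)))) (c (l 15115072) (l 14899720)))) (c (b (a (a (c (l 14510904) (l 14374152)) (l 14423944)) (l 14423136)) (a (b (a (c (b (l 14743536) (l 14858240)) (l 14638672)) (l 14662896)) (a (l 14945024) (l 14848296))) (b (l 14619648) (l 14767200)))) (b (l 14210256) (b (l 14396088) (a (b (l 14544880)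 (l 14646688)) (l 14544880)))))), by decide +kernel⟩

def k9_pp_011 : ∃ t, chk3 f_pp_011 t 16 62 3 = true :=
  ⟨(a (a (c (a (c (l 14139704) (l 13521840)) (c (a (l 14081656) (l 14053104)) (a (l 13546576) (l 13562248)))) (a (c (a (l 12835488) (l 12925808)) (a (c (l 12333448) (l 11997080)) (l 12327040))) (c (l 13051408) (l 12555608)))) (c (b (a (c (a (l 13837256) (l 13839888)) (l 13470128)) (l 13718480)) (a (c (l 14243344) (l 13789144)) (l 14020672))) (b (l 13020352) (l 13207200)))) (b (c (a (l 13825448) (l 13940888)) (l 13432056)) (c (a (c (l 14209552) (l 13928480)) (l 14136496)) (l 13469696)))), by decide +kernel⟩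

def k10_pp_011 : ∃ t, chk3 f_pp_011 t 32 63 2 = true :=
  ⟨(b (a (c (b (c (l 16536928) (l 16483912)) (l 16476632)) (c (b (a (l 16540736) (b (c (l 16380296) (l 16044656)) (a (l 16502008) (l 16384592)))) (l 16354176)) (a (b (b (c (l 16468424) (a (l 16241616) (l 15800368))) (c (l 16521064) (l 16506216))) (l 16470208)) (b (c (a (l 16037584) (b (l 15585576) (l 15879544))) (a (l 15659256) (l 15401552))) (a (b (l 16461376) (l 16424568)) (c (b (l 16222296) (l 16418832)) (b (l 15856688) (l 16224776)))))))) (c (b (a (c (a (l 16496624) (l 16484976)) (a (c (l 16494952) (l 16338520)) (c (a (l 16379848) (l 16242104)) (b (l 15942944) (l 16182328))))) (c (c (a (l 16486392) (l 16267000)) (b (l 16069864) (l 16274024))) (b (l 15757248) (l 15950520)))) (a (c (l 16430120) (a (l 16429432) (c (l 16426648) (l 16435448)))) (c (a (l 16431464) (l 16459840)) (b (c (l 16271112) (l 16046568)) (l 16382344))))) (c (a (b (a (c (b (l 15923960) (l 16197832)) (l 15774048)) (l 15683720)) (a (c (l 16429488) (b (l 16195960)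 (l 16420360))) (b (l 16041408) (l 16311264)))) (b (l 15425176) (b (l 15706304) (l 15916480)))) (a (b (l 15255320) (b (l 15603456) (l 15871936))) (c (l 15277680) (l 15052272)))))) (a (c (l 16406424) (a (l 16395240) (c (l 16364512) (a (l 16359792) (b (l 16373640) (l 16322464)))))) (c (a (a (l 16358288) (l 16331664)) (c (l 16367392) (l 16384368))) (c (a (a (l 16350880) (l 16365944)) (b (b (l 16141208) (l 16374112)) (l 16379464))) (a (b (b (c (l 16331968) (l 16009592)) (c (l 16381888) (l 16328456))) (l 16348752)) (b (a (c (l 16010120) (l 15746280)) (l 15794952)) (a (c (l 16381344) (l 16242360)) (c (l 16217704) (l 15982264))))))))), by decide +kernel⟩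

def k11_pp_011 : ∃ t, chk3 f_pp_011 t 33 63 2 = true :=
  ⟨(b (a (c (a (c (b (b (l 15819280) (c (l 16069152) (l 15889192))) (b (l 16150504) (l 16329304))) (b (l 15544008) (c (l 15960136) (l 15771112)))) (c (b (l 15635336) (c (l 15991776) (l 15831400))) (a (l 15512640) (l 15414488)))) (c (a (l 15337800) (l 15163168)) (l 14920032))) (c (a (b (l 15321912) (l 15538944)) (l 15296176)) (b (l 14803992) (l 14979240)))) (a (c (a (c (l 16396024) (b (c (l 16320272) (a (l 16231360) (l 16036280))) (l 16411504))) (c (b (c (l 16291936) (a (l 16215240) (l 16055224))) (l 16379960)) (b (a (c (l 16045736) (l 15870856)) (l 15812920)) (a (c (l 16354240) (l 16182600)) (l 16095208))))) (c (a (b (a (c (l 16026992) (l 15817784)) (l 15751552)) (a (c (l 16404784) (l 16201184)) (c (l 16190048) (l 15998424)))) (b (l 15554320) (l 15845248))) (b (l 15328416) (a (l 15795520) (l 15529136))))) (c (a (c (b (c (a (l 16064624) (l 15930072)) (l 15849656)) (c (l 16244544) (l 16098952))) (b (l 15639136) (l 15884112))) (b (l 15586016)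 (c (l 15916600) (l 15675336)))) (l 15288688)))), by decide +kernel⟩

def k12_pp_011 : ∃ t, chk3 f_pp_011 t 32 63 6 = true :=
  ⟨(b (a (a (c (b (b (c (l 15534824) (l 15064496)) (c (a (l 16294184) (l 15782352)) (l 15482000))) (b (c (a (l 16494080) (l 16297800)) (a (l 16357968) (l 15755928))) (c (l 16445592) (a (l 16454656) (l 16338408))))) (b (l 14506544) (c (b (l 15410920) (a (l 16438952) (l 15717688))) (a (l 15262416) (l 14866544))))) (c (b (a (c (l 15280144) (l 14895672)) (l 14902536)) (a (c (b (l 15817624) (l 16272304)) (b (l 15378776) (l 15785576))) (c (l 15652624) (l 15267128)))) (c (b (l 14443184) (l 14980616)) (l 14298248)))) (c (b (a (c (l 14848848) (l 14574456)) (l 14575584)) (a (l 15131928) (l 14890176))) (b (l 14157464) (c (l 14606784) (l 14347968))))) (a (a (b (c (l 16398048) (b (c (a (l 16415784) (l 16383376)) (a (l 16346512) (l 15661184))) (c (l 16373880) (a (l 16379104) (a (l 16364808) (l 16195992)))))) (l 16193360)) (c (b (a (c (l 16374800) (b (l 16285576) (l 16359304))) (c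 (b (l 16223648) (l 16364704)) (l 15999128))) (a (l 16323168) (l 16330888))) (b (c (a (b (l 15742840) (l 16294320)) (l 15552384)) (a (l 15429952) (l 15102768))) (a (c (l 16322464) (b (l 16293776) (l 16316280))) (c (l 16278912) (b (l 15719584) (l 16177048))))))) (b (c (a (a (c (l 15999632) (l 15635456)) (l 15544216)) (l 15273576)) (l 14881224)) (a (c (a (c (l 16349928) (b (l 16161592) (l 16345984))) (c (b (l 16135672) (l 16360448)) (l 15965192))) (c (a (l 15956544) (l 15648480)) (l 15435304))) (c (c (l 15850040) (l 15601800)) (l 15239048)))))), by decide +kernel⟩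

def k13_pp_011 : ∃ t, chk3 f_pp_011 t 32 63 7 = true :=
  ⟨(a (b (a (c (a (l 13761224) (l 13708504)) (a (l 12457104) (l 12666152))) (c (l 13713512) (l 12942608))) (c (b (b (a (a (l 14996000) (l 14570552)) (l 14321872)) (a (c (a (l 16372528) (l 15579568)) (a (l 15361544) (l 14723544))) (l 14672640))) (a (a (b (c (l 16341984) (c (l 16337896) (l 16334592))) (l 16312392)) (c (b (a (l 16330128) (l 16194272)) (l 16306760)) (b (l 15468416) (a (l 16304728) (l 16169880))))) (c (a (b (l 15631016) (l 16267504)) (l 15453456)) (l 14777688)))) (a (b (a (l 13119696) (l 13256072)) (c (b (a (a (l 15459464) (l 14811064)) (l 14451016)) (a (a (l 16305304) (l 16197544)) (l 15069120))) (a (b (l 13722664) (b (a (l 14526584) (l 13923080)) (c (l 15832280) (l 13874632)))) (l 13517352)))) (b (l 13480608) (b (l 13993896) (l 14497104)))))) (b (l 13566304) (b (c (l 14325504) (l 13771208)) (c (l 14807560) (l 14243704))))), by decide +kernel⟩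

def k14_pp_011 : ∃ t, chk3 f_pp_011 t 33 63 3 = true :=
  ⟨(b (c (b (a (c (l 14495720) (l 14178624)) (c (b (l 14432488) (l 14515608)) (l 14228352))) (c (a (l 14722872) (l 14639232)) (a (l 14400840) (l 14404880)))) (a (l 13794504) (l 13947816))) (c (b (c (l 14893272) (l 14624000)) (l 15017904)) (b (a (l 14152216) (l 14237984)) (c (l 14621808) (l 14351008))))), by decide +kernel⟩

def k15_pp_011 : ∃ t, chk3 f_pp_011 t 17 31 1 = true :=
  ⟨(b (c (a (c (b (b (c (b (l 14677936) (l 14735368)) (l 14551896)) (c (a (l 14828584) (l 14794960)) (a (l 14659136) (l 14651136)))) (a (l 14900176) (b (l 14795784) (l 14886176)))) (b (a (c (l 14438744) (l 14280920)) (l 14388128)) (c (b (a (l 14597104) (l 14590968)) (l 14695488)) (b (l 14416768) (a (l 14532112) (l 14524864)))))) (c (b (c (b (a (l 14708872) (l 14717192)) (a (l 14782736) (l 14779360))) (a (b (l 14574496) (l 14654248)) (l 14625520))) (c (l 14853008) (a (l 14750104) (l 14733848)))) (b (l 14424992) (c (b (l 14589504) (l 14659392)) (l 14487016)))))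 (a (b (l 13903368) (a (l 14004712) (l 14071304))) (l 14101280))) (c (a (b (c (l 15093024) (c (l 14852616) (l 14691728))) (a (b (l 15205456) (a (l 15429936) (l 15331624))) (l 15146616))) (c (a (b (l 14964640) (l 15175848)) (b (l 14912040) (l 15088608))) (b (b (l 14654912) (l 14735208)) (l 14889344)))) (b (c (a (b (l 14376128) (c (l 14588224) (l 14417240))) (b (l 14400600) (c (l 14551688) (l 14424400)))) (a (l 14081008) (l 14176576))) (c (a (a (l 14761064) (l 14709824)) (l 14648320)) (a (b (c (l 14397000) (l 14229784)) (c (l 14587424) (a (l 14429032) (l 14432136)))) (b (c (l 14399024) (l 14273920)) (c (l 14534592) (l 14412528)))))))), by decide +kernel⟩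

def k16_pp_011 : ∃ t, chk3 f_pp_011 t 9 7 1 = true :=
  ⟨(b (l 3) (b (b (l 3) (b (a (l 3) (l 3)) (a (c (a (c (l 14679384) (l 14499528)) (b (l 14799272) (l 14809640))) (a (l 14227152) (l 14531432))) (a (c (a (b (l 14964096) (l 14964064)) (b (l 15023696) (l 15012792))) (a (l 14747496) (l 14824464))) (c (l 211155069095) (l 14903792)))))) (a (b (c (b (c (c (b (a (l 14794392) (l 14953320)) (l 14909072)) (a (l 14710680) (l 14885240))) (a (l 14553544) (l 14764744))) (c (a (l 14829168) (l 14955120)) (a (c (l 14759072) (l 14593456)) (b (l 14813608) (l 14843256))))) (a (l 14302832) (l 14579048))) (c (a (b (c (l 14913112) (l 14736232)) (l 14953688)) (b (l 14939912) (l 15024944))) (b (c (b (a (l 14523000) (l 14735120)) (c (l 14716704) (l 14640360))) (l 14487408)) (c (a (l 14690056) (l 14851288)) (b (c (l 14620176) (l 14546152)) (c (l 14698472) (l 14625376))))))) (b (c (b (a (c (a (b (c (l 15078704) (l 14998312)) (c (l 15098824) (l 15031424))) (b (c (l 15109840) (l 15034192)) (l 15153048))) (a (l 14921784)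 (l 14962648))) (c (b (c (l 15143656) (l 15073976)) (c (l 15145152) (l 15087680))) (l 15004360))) (c (a (a (l 15063880) (l 15085568)) (a (l 15083144) (l 15095192))) (c (a (b (l 15003864) (l 15022888)) (b (l 15035528) (l 15039240))) (a (l 14953176) (b (l 14972192) (l 14989304)))))) (a (b (l 14788032) (l 14817352)) (b (l 14874296) (l 14865864)))) (c (b (a (c (l 15093160) (l 15012384)) (b (l 15046800) (l 15055064))) (l 15100624)) (b (c (a (b (l 14911016) (l 14931200)) (b (l 14927208) (l 14935872))) (l 14836280)) (c (l 14986888) (b (l 14879024) (c (l 14950568) (l 14910808)))))))))), by decide +kernel⟩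

def k17_pp_011 : ∃ t, chk3 f_pp_011 t 5 7 1 = true :=
  ⟨(b (l 3) (b (b (l 3) (b (a (l 3) (l 3)) (a (c (a (c (b (l 15230768) (l 15214368)) (l 15160640)) (c (l 15369776) (l 15328112))) (a (l 15067392) (l 15265440))) (a (c (l 161226188711) (l 15451552)) (c (l 15591984) (l 15550144)))))) (a (b (c (b (c (a (c (b (l 15242728) (l 15239360)) (b (l 15183808) (l 15192968))) (c (b (l 15380752) (l 15374144)) (l 15340992))) (a (l 15128376) (l 15290400))) (c (a (l 15173728) (l 15308296)) (a (c (l 15135312) (l 15095216)) (c (l 15285696) (l 15256152))))) (a (l 15017400) (l 15208024))) (c (a (b (b (l 15115496) (l 15099584)) (a (l 15074000) (l 15119496))) (b (l 15243248) (l 15214072))) (b (c (a (b (l 15024904) (c (l 15028768) (l 14997408))) (l 15135176)) (l 14957944)) (a (c (a (l 14972664) (l 15035016)) (a (b (l 14885056) (l 14904264)) (l 14972784))) (c (l 15151816) (l 15104584)))))) (b (c (a (b (c (b (l 15408304) (l 15499200)) (l 15451584)) (c (l 15449720) (c (l 15438016) (l 15415768)))) (c (b (c (l 15597992)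 (l 15575272)) (l 15530960)) (b (l 15540312) (l 15512016)))) (a (l 15389080) (l 15486880))) (c (a (b (l 15385088) (l 15347832)) (l 15426416)) (c (b (a (l 15340680) (l 15431928)) (l 15287320)) (b (l 15363680) (a (l 15273944) (l 15365504))))))))), by decide +kernel⟩

def k18_pp_011 : ∃ t, chk3 f_pp_011 t 3 3 1 = true :=
  ⟨(b (l 3) (b (l 3) (a (b (b (l 3) (a (c (b (l 3) (l 15592112)) (l 15603512)) (l 3))) (c (b (c (b (a (c (l 15598112) (l 15575392)) (l 15584616)) (a (l 15531080) (l 15531080))) (b (l 15540440) (a (l 15512144) (l 15512144)))) (a (c (l 15454616) (l 15437296)) (l 15447504))) (b (a (l 15487024) (l 15487024)) (c (b (a (l 15432072) (l 15432072)) (l 15392376)) (b (l 15411984) (a (l 15365632) (l 15365632))))))) (b (l 3) (c (c (b (b (a (l 15584616) (l 15584616)) (l 48886131655)) (l 15433640)) (b (b (l 15540440) (a (l 15512144) (l 15512144))) (a (l 15437296) (l 15437296)))) (b (a (l 15487024) (l 191291115207)) (b (c (a (l 15432072) (l 15432072)) (l 15411984)) (c (l 77340065351) (a (l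 15365632) (l 15365632)))))))))), by decide +kernel⟩

theorem s19_pp_011 : ∃ t, chk3 f_pp_011 t 32 63 3 = true := ex3_c k12_pp_011 k13_pp_011

theorem s20_pp_011 : ∃ t, chk3 f_pp_011 t 16 63 3 = true := ex3_a s19_pp_011 k14_pp_011

theorem s21_pp_011 : ∃ t, chk3 f_pp_011 t 16 63 2 = true := ex3_a k10_pp_011 k11_pp_011

theorem s22_pp_011 : ∃ t, chk3 f_pp_011 t 16 63 1 = true := ex3_c s21_pp_011 s20_pp_011

theorem s23_pp_011 : ∃ t, chk3 f_pp_011 t 32 62 2 = true := ex3_a k6_pp_011 k7_pp_011

theorem s24_pp_011 : ∃ t, chk3 f_pp_011 t 16 62 2 = true := ex3_a s23_pp_011 k8_pp_011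

theorem s25_pp_011 : ∃ t, chk3 f_pp_011 t 16 62 1 = true := ex3_c s24_pp_011 k9_pp_011

theorem s26_pp_011 : ∃ t, chk3 f_pp_011 t 16 31 1 = true := ex3_b s25_pp_011 s22_pp_011

theorem s27_pp_011 : ∃ t, chk3 f_pp_011 t 8 31 1 = true := ex3_a s26_pp_011 k15_pp_011

theorem s28_pp_011 : ∃ t, chk3 f_pp_011 t 8 61 1 = true := ex3_b k4_pp_011 k5_pp_011

theorem s29_pp_011 : ∃ t, chk3 f_pp_011 t 8 30 1 = true := ex3_b k3_pp_011 s28_pp_011

theorem s30_pp_011 : ∃ t, chk3 f_pp_011 t 8 15 1 = true := ex3_b s29_pp_011 s27_pp_011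

theorem s31_pp_011 : ∃ t, chk3 f_pp_011 t 8 7 1 = true := ex3_b k2_pp_011 s30_pp_011

theorem s32_pp_011 : ∃ t, chk3 f_pp_011 t 4 7 1 = true := ex3_a s31_pp_011 k16_pp_011

theorem s33_pp_011 : ∃ t, chk3 f_pp_011 t 2 7 1 = true := ex3_a s32_pp_011 k17_pp_011

theorem s34_pp_011 : ∃ t, chk3 f_pp_011 t 2 3 1 = true := ex3_b k1_pp_011 s33_pp_011

theorem s35_pp_011 : ∃ t, chk3 f_pp_011 t 1 3 1 = true := ex3_a s34_pp_011 k18_pp_011

theorem s36_pp_011 : ∃ t, chk3 f_pp_011 t 1 1 1 = true := ex3_b k0_pp_011 s35_pp_011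

theorem c_pp_011 : CertNX 0 536870912 536870912 536870912 1046898278 26843546 3 false true true .pnn 0 1 1
    ndN5q0 ndN0q1 pcN1 Cut.none Ext.none :=
  certNX0 (fam := false) (s1 := true) (s2 := true) (a := 0) (b := 1) (c := 1) (cn := .pnn) (n1 := ndN5q0) (n2 := ndN0q1) (pc := pcN1) (cut := Cut.none) (xt := Ext.none) (P1 := 0) (W1 := 536870912) (P2 := 536870912) (W2 := 536870912) (P3 := 1046898278) (W3 := 26843546) (N0 := 3)
    rfl s36_pp_011

noncomputable def f_pp_012 : ℕ → ℕ → ℕ → ℕ → Bool := onCell 536870912 536870912 0 536870912 1046898278 26843546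
    (rowNX 3 2 false true true .pnp 0 1 2 (qsf 0 536870912 0 536870912 1) ndN5q0 ndN0q2 pcN1 Cut.none Ext.none)

def k0_pp_012 : ∃ t, chk3 f_pp_012 t 2 1 1 = true :=
  ⟨(a (b (b (l 2) (b (l 2) (l 16777216))) (b (a (l 2) (b (l 16777216) (l 16615176))) (b (b (l 16299392) (l 16006360)) (c (b (b (a (l 15727072) (l 15727072)) (c (a (l 15665608) (l 15665608)) (l 29626062183))) (c (a (l 15516256) (l 15516256)) (b (a (l 15539776) (l 15539776)) (l 15440800)))) (b (a (l 72575688759) (l 15521736)) (a (b (l 15508592) (c (l 15420544) (l 15329808))) (b (l 15508592) (c (l 15420544) (l 15392720))))))))) (b (b (c (l 16777216) (l 16777216)) (b (l 16777216) (l 16777216))) (b (b (l 16777216) (b (l 16709592) (l 16516872))) (b (b (l 16299392) (l 15943440)) (b (c (a (b (l 15727072) (c (l 15665608) (l 15636680))) (b (l 15727072) (l 15607904))) (a (l 15647568) (l 15647568))) (c (c (a (l 15516256) (l 15516256)) (b (a (l 15539776) (l 15539776)) (l 15440800))) (b (a (l 15508592) (l 15508592)) (c (a (l 15420544) (l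 15420544)) (a (l 15392720) (l 15392720)))))))))), by decide +kernel⟩

def k1_pp_012 : ∃ t, chk3 f_pp_012 t 6 1 1 = true :=
  ⟨(b (b (a (a (l 16777024) (l 16648920)) (a (l 16390416) (b (l 15996008) (l 16135856)))) (a (b (l 16731760) (a (l 16777112) (l 16705528))) (a (b (l 16521408) (l 16571032)) (b (a (l 16396032) (l 16257984)) (l 16265408))))) (b (a (b (a (l 16777128) (l 16717400)) (a (l 16615240) (l 16572992))) (b (a (l 16603720) (a (l 16516232) (l 16406104))) (a (l 16512872) (b (l 16251160) (l 16216912))))) (b (a (b (l 16317808) (l 16022008)) (b (a (l 16354976) (l 16171184)) (a (l 16075600) (l 16012808)))) (a (b (c (b (l 15676512) (a (l 15649872) (l 15664072))) (a (l 15647608) (l 15668032))) (c (b (a (l 15402192) (c (l 15557440) (l 15447776))) (a (l 15451896) (l 15405872))) (b (a (l 15508624) (l 15499288)) (a (c (l 15420464) (l 15392640)) (c (l 15368752) (b (l 15385120) (l 15302088))))))) (b (a (c (b (l 15751720) (l 15627696)) (l 15647584)) (b (a (l 15701872) (c (l 15760152) (l 15723016)))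 (c (a (l 15586088) (c (l 15631880) (l 15590760))) (l 15520088)))) (c (c (a (l 15404064) (a (l 15341592) (l 15340824))) (b (a (l 15452768) (a (l 15390216) (l 15165008))) (a (l 15275400) (l 15180152)))) (b (a (l 15407744) (a (l 15330416) (l 15330360))) (a (c (l 15239216) (l 15069472)) (c (a (l 15141320) (l 15115480)) (a (l 15084416) (b (l 15124808) (l 14985848)))))))))))), by decide +kernel⟩

def k2_pp_012 : ∃ t, chk3 f_pp_012 t 7 2 1 = true :=
  ⟨(a (b (a (b (l 15495040) (l 15728080)) (b (l 15078624) (l 15347872))) (b (a (l 15721920) (b (l 15563256) (l 15695784))) (a (l 16090288) (c (l 15833480) (l 15800624))))) (b (a (c (b (l 14796248) (l 15108504)) (l 14783552)) (b (c (a (l 14562728) (l 14448344)) (a (l 14540720) (l 14402104))) (c (a (l 14923768) (l 14823344)) (a (l 14888016) (l 14773512))))) (b (a (b (l 15345024) (c (l 15508600) (l 15465224))) (b (c (a (l 15224800) (l 15139824)) (l 15135448)) (c (l 15324168) (l 15275104)))) (a (c (l 15650408) (l 15611768)) (c (l 15485672) (l 15442152)))))),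 by decide +kernel⟩

def k3_pp_012 : ∃ t, chk3 f_pp_012 t 7 6 1 = true :=
  ⟨(a (b (a (b (l 16155096) (l 16223256)) (c (l 16014608) (l 15988312))) (b (a (l 16264264) (l 16111504)) (a (l 16231648) (l 16080288)))) (b (a (c (l 15861400) (l 15830344)) (b (c (l 15663624) (l 15626456)) (c (l 15802160) (l 15769896)))) (a (b (l 15977864) (l 15955760)) (b (a (l 15896216) (b (l 15795712) (l 15931528))) (a (b (l 15897824) (l 15936528)) (l 16062880)))))), by decide +kernel⟩

def k4_pp_012 : ∃ t, chk3 f_pp_012 t 14 7 1 = true :=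
  ⟨(b (b (a (l 16189280) (l 16044216)) (a (l 16098624) (l 15961656))) (b (a (c (b (l 15897848) (c (l 15751400) (l 15719632))) (l 15785712)) (b (b (l 15857632) (a (l 15869680) (l 15832264))) (c (a (c (l 15878464) (l 15862960)) (c (b (l 15914472) (l 15918368)) (l 15922896))) (a (l 15843008) (l 15902968))))) (a (c (b (c (l 15544456) (b (l 15572424) (l 15446216))) (l 15273680)) (b (l 15444504) (c (b (l 15264896) (l 15109528)) (b (l 15212064) (a (l 15026712) (l 14998056)))))) (b (c (c (a (l 15646464) (l 15702920)) (b (a (l 15696248) (l 15750536)) (l 15729472))) (a (b (l 15642232) (l 15474856)) (l 15575800))) (c (a (l 15293120) (l 15110968)) (b (c (a (l 15297656) (l 15242536)) (l 15162392)) (c (l 14998936) (a (l 14961136) (c (l 14842440) (l 14767856)))))))))), by decide +kernel⟩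

def k5_pp_012 : ∃ t, chk3 f_pp_012 t 30 7 1 = true :=
  ⟨(a (b (b (l 15953536) (b (l 15922504) (l 15899992))) (c (b (b (l 15942504) (c (l 15926576) (l 16080728))) (b (b (c (l 15915056) (l 15869080)) (a (l 15659064) (c (l 15790472) (l 15705776)))) (a (b (l 15444720) (a (l 15191280) (l 15227040))) (b (b (l 15587112) (l 15477480)) (l 15302632))))) (b (l 15784456) (b (b (l 15773960) (a (l 15488312) (c (b (l 15678240) (l 15544888)) (l 15507448)))) (c (b (a (b (l 15325016) (l 15177264)) (b (l 15394176) (l 15247672))) (a (l 14931568) (l 15000128))) (b (a (l 15124728) (l 15175416)) (c (a (l 14540488) (l 14847232)) (b (l 14818000) (l 14605112))))))))) (b (b (b (l 15917264) (l 15951520)) (l 15998424)) (b (a (b (l 16071312) (c (b (l 16200424) (c (l 16183408) (l 16204624))) (l 16189400))) (c (b (b (l 16158864) (a (l 16185976) (l 16228016))) (b (a (l 16094288) (b (l 16211256) (l 16188856))) (c (c (l 16287264) (l 16311512)) (l 16294880)))) (b (l 16157064) (l 16253224)))) (c (b (a (b (c (l 16091856) (b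 (l 16090552) (l 16000392))) (l 15876032)) (c (c (l 16162928) (l 16138440)) (b (l 16193344) (l 15985256)))) (a (b (l 15660184) (l 15424560)) (c (l 15808920) (l 15603488)))) (b (a (b (l 15949168) (l 15688408)) (b (l 16133032) (l 15859688))) (c (b (a (l 15444664) (l 15589232)) (l 15151248)) (b (l 15360824) (c (a (l 14925648) (l 15013728)) (a (l 14809920) (l 14882608)))))))))), by decide +kernel⟩

def k6_pp_012 : ∃ t, chk3 f_pp_012 t 31 14 1 = true :=
  ⟨(b (a (l 16003328) (b (l 16214912) (a (l 16270184) (c (b (l 16342000) (l 16317784)) (l 16321968))))) (a (b (l 16211392) (a (l 16206848) (c (b (l 16294552) (l 16297560)) (l 16273904)))) (b (a (c (b (l 16344952) (l 16356832)) (l 16331352)) (c (l 16362552) (l 16362072))) (c (a (l 16321496) (l 16328928)) (l 16295080))))), by decide +kernel⟩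

def k7_pp_012 : ∃ t, chk3 f_pp_012 t 31 30 1 = true :=
  ⟨(c (b (a (b (a (l 16239712) (l 16268224)) (a (c (a (c (l 16144744) (l 16262048)) (c (l 16277440) (l 16262176))) (l 16257928)) (c (l 16279712) (c (a (l 16254504) (l 16251856)) (l 16248360))))) (b (l 16282392) (c (l 16308544) (a (l 16250648) (l 16259152))))) (a (c (a (c (a (b (l 16254840) (l 16346000)) (l 16215552)) (a (l 16299816) (b (l 16280872) (l 16197472)))) (c (l 16356488) (a (l 16168064) (l 16321944)))) (a (l 16280368) (c (a (c (l 16271696) (l 16271888)) (l 16293216)) (l 16224856)))) (c (b (l 16232592) (a (l 16376944) (c (l 16413768) (l 16384456)))) (a (c (l 16302896) (l 16269920)) (l 16307912))))) (a (b (a (l 16187624) (l 16241480)) (l 16255616)) (a (c (a (c (b (l 16244376) (l 16258312)) (l 16244760)) (c (l 16121856) (b (l 16153304) (l 16251136)))) (l 16236560)) (c (b (l 16150776) (l 16150848)) (a (c (b (b (l 16232304) (l 16224960)) (l 16117800)) (l 16230752)) (c (l 16232904) (b (b (l 16225328) (a (l 16218464) (l 16217280)))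 (a (l 16237296) (l 16236560))))))))), by decide +kernel⟩

def k8_pp_012 : ∃ t, chk3 f_pp_012 t 31 31 2 = true :=
  ⟨(a (c (a (b (c (a (l 16275688) (l 16342168)) (a (l 16249760) (l 16318728))) (c (a (l 16046616) (l 16198696)) (a (l 15913816) (l 16051768)))) (b (l 16312808) (b (a (l 16297536) (l 16385176)) (a (c (l 16415376) (l 16219224)) (l 16381640))))) (b (a (b (l 16175120) (l 16160488)) (c (a (b (l 16198816) (l 16302816)) (l 16251352)) (b (a (l 16293912) (c (l 16309096) (l 16287472))) (a (l 16285528) (l 16275432))))) (a (l 15799888) (c (a (a (l 16024152) (l 16106872)) (b (l 16283016) (l 16237632))) (a (l 15931344) (l 16181616)))))) (b (c (a (b (l 16387568) (l 16295312)) (b (l 16333448) (a (l 16356480) (l 16320968)))) (a (b (c (l 16350416) (l 16207464)) (c (l 16358784) (l 16332880))) (b (c (l 16368736) (l 16333104)) (a (l 16330432) (l 16232968))))) (c (a (b (a (l 16372408) (l 16354640)) (a (l 16299808) (b (l 16318400) (l 16312768)))) (b (a (l 16323008) (b (l 16301624) (l 16311840))) (a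 (b (l 16313872) (l 16326416)) (l 16352376)))) (a (b (a (l 16302360) (l 16308936)) (a (c (l 16359432) (a (l 16198920) (l 16346072))) (b (l 16336408) (a (l 16333208) (l 16314920))))) (b (a (c (l 16328376) (l 16336096)) (b (l 16311880) (l 16305744))) (a (b (l 16315552) (l 16311528)) (l 16305320))))))), by decide +kernel⟩

def k9_pp_012 : ∃ t, chk3 f_pp_012 t 31 31 3 = true :=
  ⟨(a (b (c (b (l 16272032) (c (l 16229512) (l 16206824))) (l 16269208)) (c (b (c (l 15927120) (l 15849928)) (l 15483928)) (b (l 15737648) (c (l 15134744) (b (l 15217488) (l 14836624)))))) (c (a (b (c (a (b (l 16276680) (c (l 16291472) (l 16296464))) (b (l 16278928) (l 16289480))) (a (l 16274248) (c (l 16258040) (l 16271912)))) (c (a (b (l 16279328) (l 16185552)) (b (l 16329184) (b (l 16316176) (l 16332128)))) (c (a (l 16072744) (b (l 16202568) (l 16132128))) (b (b (l 16292304) (l 16234456)) (l 15891168))))) (b (b (l 16218680) (c (b (l 16320104) (l 16332800)) (l 16206408))) (b (c (a (l 16331408) (b (l 16329152) (l 16306888)))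 (a (b (l 16307808) (l 16313872)) (b (l 16315776) (l 16311000)))) (a (b (c (l 16321768) (l 16315288)) (c (l 16308552) (a (l 16315528) (l 16302808)))) (b (c (l 16303976) (a (l 16302952) (l 16297896))) (a (l 16306456) (l 16313624))))))) (a (b (l 16265616) (b (l 16280728) (c (b (l 15869272) (l 15464344)) (b (l 15716008) (l 15131272))))) (b (a (c (a (l 16266864) (l 16264840)) (l 16260992)) (c (l 16265792) (a (l 16258696) (l 16216544)))) (c (b (a (c (a (l 16289168) (l 16290760)) (l 16280784)) (a (l 16287384) (l 16290776))) (a (c (a (l 16147312) (l 16307768)) (b (l 16290712) (l 15938104))) (b (c (l 16298328) (a (l 16296032) (l 16295056))) (a (b (l 16299600) (l 16294808)) (l 16297344))))) (a (b (l 16275600) (b (l 16283064) (l 15613176))) (b (a (l 16272800) (c (l 16275680) (l 16272224))) (c (a (b (l 16284304) (c (l 16294776) (l 16290568))) (b (l 16287336) (b (l 16288696) (l 16291248)))) (a (l 16279904) (b (l 16279240) (a (l 16219832) (c (l 16285488) (l 16281952))))))))))))), by decide +kernel⟩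

theorem s10_pp_012 : ∃ t, chk3 f_pp_012 t 31 31 1 = true := ex3_c k8_pp_012 k9_pp_012

theorem s11_pp_012 : ∃ t, chk3 f_pp_012 t 31 15 1 = true := ex3_b k7_pp_012 s10_pp_012

theorem s12_pp_012 : ∃ t, chk3 f_pp_012 t 31 7 1 = true := ex3_b k6_pp_012 s11_pp_012

theorem s13_pp_012 : ∃ t, chk3 f_pp_012 t 15 7 1 = true := ex3_a k5_pp_012 s12_pp_012

theorem s14_pp_012 : ∃ t, chk3 f_pp_012 t 7 7 1 = true := ex3_a k4_pp_012 s13_pp_012

theorem s15_pp_012 : ∃ t, chk3 f_pp_012 t 7 3 1 = true := ex3_b k3_pp_012 s14_pp_012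

theorem s16_pp_012 : ∃ t, chk3 f_pp_012 t 7 1 1 = true := ex3_b k2_pp_012 s15_pp_012

theorem s17_pp_012 : ∃ t, chk3 f_pp_012 t 3 1 1 = true := ex3_a k1_pp_012 s16_pp_012

theorem s18_pp_012 : ∃ t, chk3 f_pp_012 t 1 1 1 = true := ex3_a k0_pp_012 s17_pp_012

theorem c_pp_012 : CertNX 0 536870912 0 536870912 1046898278 26843546 3 false true true .pnp 0 1 2
    ndN5q0 ndN0q2 pcN1 Cut.none Ext.none :=
  certNX2 (fam := false) (s1 := true) (s2 := true) (a := 0) (b := 1) (c := 2) (cn := .pnp) (n1 := ndN5q0) (n2 := ndN0q2) (pc := pcN1) (cut := Cut.none) (xt := Ext.none) (P1 := 0) (W1 := 536870912) (P2 := 0) (W2 := 536870912) (P3 := 1046898278) (W3 := 26843546) (N0 := 3)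
    rfl (fun _ => rfl) s18_pp_012

noncomputable def f_pp_022 : ℕ → ℕ → ℕ → ℕ → Bool := onCell 0 536870912 0 536870912 1046898278 26843546
    (rowNX 3 0 false true true .pp 0 2 2 (qsf 0 536870912 0 536870912 2) ndN5q0 ndN0q2 pcN2 Cut.none Ext.none)

def k0_pp_022 : ∃ t, chk3 f_pp_022 t 8 2 2 = true :=
  ⟨(b (a (b (a (a (c (l 16333992) (l 16270480)) (a (c (l 16251232) (l 16255032)) (c (l 16117984) (l 16091656)))) (c (a (l 16168232) (l 16170832)) (l 16093424))) (a (a (a (l 16137968) (b (l 16226000) (b (l 16257984) (a (l 16234544) (c (l 16189456) (l 16169288)))))) (b (b (a (c (l 16150232) (l 16195240)) (c (l 16161912) (l 16177648))) (a (a (l 16202928) (c (l 16156752) (l 16168576))) (l 16128616))) (a (b (a (c (l 16170192) (l 16164168)) (l 16163896)) (l 16175472)) (c (l 16190768) (l 16207208))))) (c (a (b (l 16203928) (l 16255968)) (b (l 16257040) (l 16298840))) (b (l 16122624) (l 16243760))))) (b (a (c (l 16108624) (l 16066232)) (c (l 15940832) (l 16003872))) (a (b (c (l 16238792) (l 16198536))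 (l 16181600)) (b (c (l 16198632) (l 16180544)) (c (b (l 16274640) (l 16330976)) (l 16292832)))))) (a (b (a (a (b (a (b (l 16284928) (a (l 16234248) (l 16214840))) (b (a (l 16195824) (l 16180408)) (l 16204072))) (b (l 16191264) (l 16262592))) (c (a (l 16226336) (l 16254944)) (a (l 16229592) (l 16272864)))) (a (c (l 16260536) (l 16306360)) (l 16253736))) (a (a (b (l 16295936) (l 16406040)) (c (b (l 16277576) (l 16305232)) (a (l 16309920) (l 16377568)))) (c (a (b (l 16424792) (l 16461416)) (l 16429232)) (b (l 16417552) (l 16479160))))) (b (a (c (l 16382688) (l 16343792)) (c (b (l 16367800) (l 16415872)) (l 16372128))) (a (b (l 16411720) (c (l 16453752) (l 16497232))) (b (c (l 16418944) (l 16446880)) (c (l 16504312) (l 16490632))))))), by decide +kernel⟩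

def k1_pp_022 : ∃ t, chk3 f_pp_022 t 9 2 2 = true :=
  ⟨(b (a (b (a (c (a (l 15941440) (l 15676912)) (l 15858584)) (c (b (l 15475232) (l 15581360)) (l 15505560))) (a (b (c (l 15941664) (l 16051648)) (b (l 15993384) (a (l 16288176) (l 16127152)))) (b (c (l 15698064) (l 15682512)) (c (l 15815440) (l 15800928))))) (b (a (c (l 15132152) (a (l 15185264) (l 15024384))) (l 14863744)) (a (b (l 15065008) (l 15414944)) (l 15113248)))) (a (b (a (a (l 16173768) (l 16136816)) (l 15869080)) (a (b (l 16248024) (l 16250184)) (l 15815096))) (b (b (a (l 15498320) (l 15281464)) (l 15445480)) (b (l 15439688) (l 15349208))))), by decide +kernel⟩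

def k2_pp_022 : ∃ t, chk3 f_pp_022 t 4 4 3 = true :=
  ⟨(a (a (b (a (a (c (a (l 16291792) (l 16377176)) (a (c (l 16300240) (l 16304584)) (l 16373264))) (c (a (l 16259328) (l 16154880)) (a (l 16235424) (l 16123536)))) (c (l 16098584) (l 16079616))) (a (a (a (c (l 16274472) (c (l 16223136) (b (l 16376680) (l 16333536)))) (b (c (l 16275472) (l 16312224)) (c (a (l 16241016) (b (l 16207872) (l 16125664))) (b (l 16235496) (a (l 16205960) (l 16161944)))))) (b (a (c (b (l 16177816) (l 16001784)) (b (l 16194920) (l 16144032))) (c (l 16100184) (l 16131640))) (a (b (c (l 16046688) (l 16146504)) (l 16144240)) (l 16179528)))) (b (c (l 16170784) (l 16153024)) (l 16201368)))) (b (a (l 16040080) (l 15988600)) (b (a (l 16175928) (l 16170096)) (a (l 16244256) (l 16285400))))) (a (b (a (l 15796832) (l 15463888)) (a (b (l 16037040) (a (l 16250712) (l 16088064))) (b (l 15651544) (l 15777008)))) (a (b (l 15057032) (l 15101152)) (c (b (l 14814736) (l 15071496)) (l 14912264))))), by decide +kernel⟩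

def k3_pp_022 : ∃ t, chk3 f_pp_022 t 4 5 3 = true :=
  ⟨(a (a (b (a (a (b (a (c (b (l 16251392) (l 16016624)) (b (a (l 16268224) (l 16114200)) (a (c (l 16201880) (l 16131152)) (c (l 16170216) (l 16166040))))) (c (a (b (l 16170456) (l 16178304)) (l 16178904)) (b (a (l 16144104) (l 16161984)) (l 16178208)))) (c (a (l 16215608) (l 16228000)) (a (a (c (l 16198792) (l 16148880)) (l 16198752)) (l 16220592)))) (c (l 16156576) (l 16215832))) (c (l 16257536) (l 16262120))) (a (a (c (a (l 16309104) (b (l 16257096) (l 16390496))) (a (c (l 16318544) (a (l 16306480) (l 16318224))) (l 16257520))) (c (b (l 16340384) (l 16434064)) (l 16364496))) (c (l 16348512) (l 16418048)))) (b (a (l 16303472) (b (l 16346848) (l 16396624))) (a (b (l 16437016) (l 16512008)) (b (l 16443072) (l 16487720))))) (a (b (a (b (l 16203728) (l 16212664)) (l 15841448)) (a (l 16066528) (l 15915432))) (b (b (a (l 15456472) (l 15230872)) (l 15401488)) (a (l 15500328) (l 15405192))))), by decide +kernel⟩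

def k4_pp_022 : ∃ t, chk3 f_pp_022 t 5 2 1 = true :=
  ⟨(a (a (b (c (b (l 14500224) (l 14759848)) (b (c (a (l 14570664) (l 14316040)) (a (l 14530544) (l 14232600))) (c (l 14688912) (a (l 14797848) (l 14547240))))) (b (b (c (b (l 14915200) (l 14975760)) (a (l 14944976) (l 14764720))) (c (l 15034736) (l 14975776))) (c (b (l 15131896) (l 15243496)) (l 390871656407)))) (b (b (l 1) (l 1)) (l 1))) (l 1)), by decide +kernel⟩

def k5_pp_022 : ∃ t, chk3 f_pp_022 t 8 6 1 = true :=
  ⟨(a (b (a (c (a (c (l 16414576) (b (l 16498256) (l 16413568))) (c (a (b (l 16500344) (l 16416048)) (l 16323472)) (a (l 16276112) (l 16247176)))) (a (c (a (l 16408416) (a (l 16345536) (l 16270824))) (a (c (l 16313408) (a (l 16323016) (l 16480568))) (b (l 16501616) (l 16417576)))) (c (a (l 16239728) (l 16368792)) (l 16383344)))) (b (c (c (a (l 16371888) (l 16354168)) (l 16262480)) (c (l 16446752) (l 16459288))) (c (a (c (l 16186872) (l 16262216)) (l 16152360)) (c (l 16293552) (l 16388304))))) (a (c (a (b (c (l 16356928)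 (l 16333616)) (c (l 16439376) (l 16396216))) (b (c (a (l 16321144) (l 16363216)) (a (l 16325480) (l 16306080))) (c (a (l 16459256) (l 16464192)) (a (l 16444000) (l 16429504))))) (a (c (b (a (l 16387944) (c (l 16384400) (l 16334808))) (a (l 16467336) (a (l 16453856) (l 16427680)))) (a (b (c (l 16375224) (a (l 16363200) (l 16394088))) (c (l 16476376) (a (l 16482560) (l 16477032)))) (b (l 16251328) (l 16447424)))) (c (b (a (l 16287088) (l 16341984)) (a (l 16427976) (l 16445920))) (b (l 16372512) (l 16473496))))) (c (b (a (c (a (l 16318032) (l 16292608)) (l 16257440)) (l 16203832)) (a (c (l 16366528) (l 16400920)) (l 16361504))) (b (c (l 16291792) (l 16386144)) (c (l 16433528) (l 16487360)))))) (b (c (c (a (b (l 16417120) (l 16380936)) (b (l 16505184) (l 16420200))) (a (b (l 16375688) (l 16422360)) (l 16436448))) (b (a (l 16472784) (l 16548424)) (a (l 16433984) (l 16512800)))) (c (a (b (c (l 16384272) (l 16341488)) (c (l 16469264) (l 16511504))) (b (c (a (l 16450960) (l 16524176)) (l 16485016))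 (c (l 16484272) (l 16580328)))) (b (a (l 16415536) (l 16480984)) (a (l 16503416) (l 16577672)))))), by decide +kernel⟩

def k6_pp_022 : ∃ t, chk3 f_pp_022 t 9 6 1 = true :=
  ⟨(a (b (a (c (b (a (l 16436200) (l 16290168)) (l 16344432)) (b (l 16354888) (l 16401536))) (b (c (l 16054720) (l 16032976)) (c (l 16171080) (l 16153200)))) (a (b (c (l 16404568) (l 16463936)) (c (l 16453784) (l 16491480))) (b (c (l 16261456) (l 16246288)) (c (l 16277032) (l 16261560))))) (a (b (b (c (l 15754560) (l 15721328)) (c (l 15882280) (l 15853400))) (b (c (l 15878312) (l 15957448)) (l 1))) (b (b (l 15587216) (l 1)) (l 1)))), by decide +kernel⟩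

def k7_pp_022 : ∃ t, chk3 f_pp_022 t 8 14 1 = true :=
  ⟨(a (a (c (a (b (c (l 16524384) (l 16545248)) (b (l 16593672) (l 16675400))) (b (c (a (l 16562552) (l 16543648)) (a (l 16548352) (l 16488992))) (c (a (l 16638160) (l 16637808)) (a (l 16604216) (l 16563360))))) (a (c (b (a (l 16555752) (c (l 16561208) (l 16554744))) (a (l 16659952) (c (l 16641528) (l 16572800)))) (b (a (c (l 16565656) (a (l 16572976) (l 16567464))) (l 16535976)) (a (c (l 16553624) (a (l 16521720) (l 16658872))) (l 16471128)))) (b (c (a (l 16533392) (l 16527384)) (l 16536512)) (c (a (l 16548568) (l 16623920)) (l 16656520))))) (c (b (a (c (l 16420776) (l 16456080)) (l 16410624)) (a (c (b (l 16535392) (l 16612176)) (l 16490088)) (b (l 16542832) (l 16618064)))) (b (c (l 16549608) (l 16562368)) (c (l 16472176) (l 16653800))))) (b (c (a (c (l 16530912) (l 16573792)) (a (l 16567544) (l 16603368))) (a (l 16566672) (l 16630232))) (c (a (b (c (l 16573768) (l 16617008)) (l 16539840)) (c (b (l 16614032) (l 16661000)) (l 158946958743)))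 (a (b (l 16610432) (l 16705592)) (b (l 16667064) (l 16737272)))))), by decide +kernel⟩

def k8_pp_022 : ∃ t, chk3 f_pp_022 t 64 15 1 = true :=
  ⟨(b (c (b (l 16508992) (b (c (l 16669600) (l 16714560)) (c (c (l 16622320) (l 16555920)) (c (l 16664400) (l 16688000))))) (c (b (a (l 16630560) (l 16581872)) (a (b (l 16697648) (l 16699000)) (c (l 16647408) (b (l 16714240) (l 16686464))))) (b (a (c (l 16618768) (a (l 16606448) (l 16598160))) (l 16641200)) (a (c (l 16608704) (a (l 16596072) (l 16716920))) (c (l 16705120) (l 16717224)))))) (c (b (c (b (a (l 16624824) (l 16638816)) (a (l 16643616) (l 16657736))) (c (b (b (l 16635920) (l 16615248)) (l 16660632)) (b (a (l 16654448) (b (l 16671136) (l 16653960))) (a (l 16660616) (b (l 16654656) (l 16672080)))))) (c (b (l 16668648) (l 16694472)) (a (b (l 16681776) (l 16709704)) (c (l 16704304) (l 16709888))))) (a (c (b (b (l 16686624) (c (l 16671616) (l 16693384))) (b (c (l 16692288) (b (l 16694656) (l 16711008))) (l 16732984))) (b (c (a (l 16705208) (l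 16695608)) (a (l 16712008) (l 16696928))) (b (a (c (l 16719608) (l 16728928)) (c (c (l 16710512) (l 16710952)) (l 16714504))) (c (b (a (l 16737280) (c (l 16731456) (l 16729912))) (l 16732168)) (c (b (a (l 16744392) (l 16730864)) (a (l 16761944) (l 16750592))) (b (a (l 16748968) (l 16737776)) (a (c (l 16681560) (l 16768088)) (l 16757776)))))))) (b (c (b (c (l 16672120) (l 16666488)) (c (b (l 16575704) (a (l 16674096) (l 16653832))) (a (l 16679120) (l 16647664)))) (c (b (l 16667032) (l 16669240)) (l 16681584))) (c (b (c (l 287795975831) (b (a (l 16681840) (l 16652008)) (l 16625696))) (c (l 16725632) (l 16697640))) (b (c (b (l 16679208) (c (l 16680432) (l 16691760))) (b (l 16692176) (l 16703456))) (b (c (l 311418367287) (l 16718288)) (l 1)))))))), by decide +kernel⟩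

def k9_pp_022 : ∃ t, chk3 f_pp_022 t 65 15 1 = true :=
  ⟨(b (c (b (c (a (l 16678984) (l 16711864)) (a (l 16670752) (l 16701992))) (c (a (b (l 16700864) (l 16660488)) (b (l 16677440) (l 16636696))) (c (l 16579480) (l 16672120)))) (c (a (l 16538672) (l 16695944)) (l 16587784))) (b (c (c (a (b (a (l 16646344) (l 16643224)) (l 16658048)) (b (l 16612240) (l 16612040))) (b (a (c (b (l 16628120) (l 16618960)) (b (l 16633912) (l 16607904))) (b (l 16581008) (c (l 16557064) (l 16552912)))) (a (c (l 16644272) (l 16600736)) (c (l 16571096) (l 16513440))))) (c (b (a (c (b (l 16622416) (l 16590248)) (l 16625128)) (b (l 16616016) (l 16573976))) (a (c (b (l 16600560) (l 16583400)) (l 16577624)) (c (l 16480688) (l 16599032)))) (c (b (a (l 16647000) (l 16636944)) (a (l 16643400) (l 16617880))) (b (a (l 16655376) (l 16638064)) (a (l 16652016) (l 16513952)))))) (a (b (b (c (c (l 16673024) (l 16654696)) (c (c (l 16622240) (l 16604616)) (l 16606736))) (l 1)) (l 1)) (l 1)))), by decide +kernel⟩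

def k10_pp_022 : ∃ t, chk3 f_pp_022 t 33 15 1 = true :=
  ⟨(a (b (c (b (c (l 16460064) (l 16684160)) (c (b (c (l 16606024) (l 16624312)) (c (l 16563544) (l 16531312))) (c (l 16499656) (l 16639048)))) (b (l 16702464) (l 16683616))) (b (b (c (c (l 16543528) (c (l 16491760) (l 16563536))) (l 16598112)) (l 1)) (l 1))) (b (c (b (l 16595448) (c (b (l 16525336) (l 16420456)) (l 16596304))) (b (l 16719688) (l 16687552))) (l 1))), by decide +kernel⟩

def k11_pp_022 : ∃ t, chk3 f_pp_022 t 17 15 1 = true :=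
  ⟨(a (b (a (b (c (l 16586248) (l 16734784)) (l 1)) (l 1)) (l 1)) (l 1)), by decide +kernel⟩

def k12_pp_022 : ∃ t, chk3 f_pp_022 t 9 7 1 = true :=
  ⟨(b (a (b (a (c (l 16388840) (l 16426888)) (l 1)) (l 1)) (l 1)) (l 1)), by decide +kernel⟩

def k13_pp_022 : ∃ t, chk3 f_pp_022 t 5 3 1 = true :=
  ⟨(b (l 1) (l 1)), by decide +kernel⟩

def k14_pp_022 : ∃ t, chk3 f_pp_022 t 3 1 1 = true :=
  ⟨(l 1), by decide +kernel⟩

theorem s15_pp_022 : ∃ t, chk3 f_pp_022 t 32 15 1 = true := ex3_a k8_pp_022 k9_pp_022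

theorem s16_pp_022 : ∃ t, chk3 f_pp_022 t 16 15 1 = true := ex3_a s15_pp_022 k10_pp_022

theorem s17_pp_022 : ∃ t, chk3 f_pp_022 t 8 15 1 = true := ex3_a s16_pp_022 k11_pp_022

theorem s18_pp_022 : ∃ t, chk3 f_pp_022 t 8 7 1 = true := ex3_b k7_pp_022 s17_pp_022

theorem s19_pp_022 : ∃ t, chk3 f_pp_022 t 4 7 1 = true := ex3_a s18_pp_022 k12_pp_022

theorem s20_pp_022 : ∃ t, chk3 f_pp_022 t 4 6 1 = true := ex3_a k5_pp_022 k6_pp_022

theorem s21_pp_022 : ∃ t, chk3 f_pp_022 t 4 3 1 = true := ex3_b s20_pp_022 s19_pp_022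

theorem s22_pp_022 : ∃ t, chk3 f_pp_022 t 2 3 1 = true := ex3_a s21_pp_022 k13_pp_022

theorem s23_pp_022 : ∃ t, chk3 f_pp_022 t 4 2 3 = true := ex3_b k2_pp_022 k3_pp_022

theorem s24_pp_022 : ∃ t, chk3 f_pp_022 t 4 2 2 = true := ex3_a k0_pp_022 k1_pp_022

theorem s25_pp_022 : ∃ t, chk3 f_pp_022 t 4 2 1 = true := ex3_c s24_pp_022 s23_pp_022

theorem s26_pp_022 : ∃ t, chk3 f_pp_022 t 2 2 1 = true := ex3_a s25_pp_022 k4_pp_022

theorem s27_pp_022 : ∃ t, chk3 f_pp_022 t 2 1 1 = true := ex3_b s26_pp_022 s22_pp_022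

theorem s28_pp_022 : ∃ t, chk3 f_pp_022 t 1 1 1 = true := ex3_a s27_pp_022 k14_pp_022

theorem c_pp_022 : CertNX 0 536870912 0 536870912 1046898278 26843546 3 false true true .pp 0 2 2
    ndN5q0 ndN0q2 pcN2 Cut.none Ext.none :=
  certNX0 (fam := false) (s1 := true) (s2 := true) (a := 0) (b := 2) (c := 2) (cn := .pp) (n1 := ndN5q0) (n2 := ndN0q2) (pc := pcN2) (cut := Cut.none) (xt := Ext.none) (P1 := 0) (W1 := 536870912) (P2 := 0) (W2 := 536870912) (P3 := 1046898278) (W3 := 26843546) (N0 := 3)
    rfl s28_pp_022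

noncomputable def f_pp_101 : ℕ → ℕ → ℕ → ℕ → Bool := onCell 536870912 469762048 536870912 536870912 1046898278 26843546
    (rowNX 3 0 false true true .npn 1 0 1 (qsf 536870912 469762048 536870912 536870912 0) ndN5q1 ndN0q1 pcN0 Cut.none Ext.none)

def k0_pp_101 : ∃ t, chk3 f_pp_101 t 1 2 1 = true :=
  ⟨(l 3), by decide +kernel⟩

def k1_pp_101 : ∃ t, chk3 f_pp_101 t 2 3 1 = true :=
  ⟨(b (l 3) (b (l 3) (b (l 3) (b (b (a (a (l 3) (l 3)) (l 3)) (a (c (c (a (l 15531080) (l 15531080)) (a (l 15512144) (c (l 15524160) (l 15505120)))) (a (l 15465944) (l 15465944))) (a (c (c (l 15531080) (b (l 3) (l 252494359079))) (l 260547602551)) (a (l 3) (l 3))))) (a (c (c (a (l 15454616) (l 15454616)) (a (l 15437296) (l 15437296))) (c (b (a (l 15432072) (c (l 15442488) (l 15432272))) (l 15371408)) (b (l 15411984) (a (l 15281752) (b (l 15371568) (l 15355864)))))) (c (a (c (l 15454616) (b (l 15460560) (l 15412616))) (c (a (l 15454616) (l 15454616)) (b (c (l 15463784) (l 15458064)) (l 15412616)))) (c (b (a (c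 (b (l 15462816) (l 15435496)) (l 15432272)) (c (b (l 263768634007) (l 15435496)) (b (l 15439944) (l 15425288)))) (a (l 15392376) (l 15392376))) (b (a (l 15411984) (l 15411984)) (a (b (l 15371568) (l 15355864)) (b (c (l 15384200) (l 15373864)) (c (l 15364136) (l 15350584)))))))))))), by decide +kernel⟩

def k2_pp_101 : ∃ t, chk3 f_pp_101 t 3 6 1 = true :=
  ⟨(l 3), by decide +kernel⟩

def k3_pp_101 : ∃ t, chk3 f_pp_101 t 6 14 1 = true :=
  ⟨(l 3), by decide +kernel⟩

def k4_pp_101 : ∃ t, chk3 f_pp_101 t 6 30 1 = true :=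
  ⟨(l 3), by decide +kernel⟩

def k5_pp_101 : ∃ t, chk3 f_pp_101 t 6 62 1 = true :=
  ⟨(l 3), by decide +kernel⟩

def k6_pp_101 : ∃ t, chk3 f_pp_101 t 6 126 1 = true :=
  ⟨(a (c (b (b (l 3) (a (l 15476128) (a (l 1014851072423) (l 3)))) (a (l 15453888) (a (l 15431480) (b (l 15382904) (l 15390256))))) (a (c (b (c (l 297591505399) (l 15439944)) (c (l 15435496) (l 15425288))) (l 15411984)) (c (b (a (a (l 1159806143815) (l 3)) (l 3)) (c (a (l 15434016) (l 276653261815)) (a (b (l 15430824) (l 15422848)) (b (l 15353712) (l 15365016))))) (a (l 293296412535) (l 307254801751))))) (b (l 3) (c (a (a (a (l 15291304) (l 15314520)) (l 277190262327)) (a (l 284706848647) (l 290612870087))) (a (c (a (c (a (l 15268592) (l 15292424)) (a (b (l 15252056) (l 15266048)) (b (l 15276584) (l 15289624)))) (c (l 298128202119) (b (l 1103434500983) (c (l 15453880) (l 15444104))))) (a (a (l 15229968) (l 15254424)) (l 15416496))) (b (l 3) (c (c (l 15656768) (c (l 298665512647) (a (l 15664048) (l 15871656)))) (l 15549504))))))),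 by decide +kernel⟩

def k7_pp_101 : ∃ t, chk3 f_pp_101 t 6 127 1 = true :=
  ⟨(a (c (a (l 15424288) (a (l 15424288) (b (a (l 15401016) (l 15378192)) (l 15402856)))) (c (a (l 15392376) (a (l 15392376) (b (b (l 15369672) (l 15369496)) (l 15366800)))) (a (b (c (l 15384200) (l 15373864)) (c (l 15364136) (l 15350584))) (b (a (c (l 15384200) (l 15373864)) (c (b (l 15354808) (c (l 15359384) (l 15353944))) (l 15338544))) (c (l 15293512) (a (l 15350584) (b (l 15337136) (l 15336808)))))))) (c (a (a (a (l 15331560) (l 15356600)) (l 15465960)) (a (l 15716760) (l 15870848))) (a (c (a (a (b (l 15283736) (l 15308344)) (l 15280568)) (b (c (l 15466536) (l 15460760)) (l 15491752))) (c (b (a (a (b (l 15262504) (l 15271512)) (b (l 15285904) (l 15295248))) (b (l 15445472) (l 15370192))) (a (a (l 15290864) (l 15319376)) (l 15477120))) (a (b (l 15222000) (a (b (l 15268920) (l 15283000)) (l 15200504))) (b (l 15436864) (b (l 15454728) (l 15472880)))))) (c (b (b (a (l 15675872) (l 15901208)) (l 15796336)) (l 15816080))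 (b (c (b (a (l 15665624) (l 15873296)) (c (l 15791576) (l 15599544))) (l 15772720)) (c (l 15701480) (b (c (l 15604592) (l 15790256)) (c (l 15807576) (l 15635280))))))))), by decide +kernel⟩

def k8_pp_101 : ∃ t, chk3 f_pp_101 t 7 14 1 = true :=
  ⟨(l 3), by decide +kernel⟩

def k9_pp_101 : ∃ t, chk3 f_pp_101 t 7 30 1 = true :=
  ⟨(l 3), by decide +kernel⟩

def k10_pp_101 : ∃ t, chk3 f_pp_101 t 7 62 1 = true :=
  ⟨(l 3), by decide +kernel⟩

def k11_pp_101 : ∃ t, chk3 f_pp_101 t 7 126 1 = true :=
  ⟨(b (l 3) (a (a (a (c (l 598240349639) (c (c (l 691655900455) (b (l 3) (c (l 16136008) (l 16003728)))) (l 16069472))) (l 3)) (l 3)) (l 3))), by decide +kernel⟩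

def k12_pp_101 : ∃ t, chk3 f_pp_101 t 14 127 1 = true :=
  ⟨(a (c (a (l 16012120) (a (l 16313112) (a (b (l 16412336) (l 16434360)) (l 16460048)))) (c (a (b (b (l 16009208) (l 16141848)) (l 16158600)) (a (b (b (l 16274376) (l 16322192)) (l 16336976)) (b (c (l 16354184) (b (a (l 282560996631) (l 16466160)) (l 16422880))) (l 16416752)))) (a (b (c (b (l 15984656) (c (l 16141240) (l 16139640))) (l 16127632)) (c (l 16153816) (b (l 15993096) (c (l 16156584) (l 16132760))))) (b (a (c (b (l 16252384) (c (l 16323712) (l 16322960))) (l 16312880)) (c (b (a (a (l 16325296) (l 16402168)) (l 16403672)) (c (l 16383848) (b (l 16361072) (l 16366784)))) (l 16373856))) (a (c (l 16334704) (b (l 16239184) (c (l 16337880) (l 16314912)))) (c (a (l 16406968) (l 16488368)) (c (b (b (l 16410360) (l 16349424)) (l 16419696)) (b (l 16451752) (a (b (l 16426000) (l 16410864)) (l 16449048)))))))))) (c (b (a (l 272897535031) (a (l 16404376) (b (l 1509847850135) (l 16321200)))) (a (l 16431312) (c (l 16214456) (l 16250736))))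 (c (b (b (a (b (l 16454832) (l 16484048)) (a (l 299740903863) (c (l 16369384) (l 516636606887)))) (a (l 16467008) (a (l 16424256) (l 16310000)))) (a (l 16449584) (l 16223864))) (b (c (c (b (a (l 294372370535) (a (l 305109598087) (b (l 3) (l 519857810487)))) (a (l 16483424) (a (l 16417720) (l 16281256)))) (b (a (l 16510736) (l 531132116695)) (a (l 16419664) (a (l 16353184) (b (l 16308888) (l 16288224)))))) (a (l 16455160) (a (l 16430432) (l 289003252263)))) (c (b (a (l 16438632) (l 16212624)) (l 16246536)) (b (c (a (l 16396160) (b (l 16279088) (l 16223096))) (l 16208128)) (c (l 16223320) (b (l 16188456) (a (l 16406512) (l 16254280)))))))))), by decide +kernel⟩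

def k13_pp_101 : ∃ t, chk3 f_pp_101 t 15 254 1 = true :=
  ⟨(b (a (l 3) (l 3)) (a (a (c (c (a (l 16284784) (l 286855623847)) (l 16187880)) (c (b (l 16191888) (l 16228760)) (c (c (b (l 291150566183) (l 16219136)) (b (c (l 16179640) (l 16245432)) (c (l 16214104) (l 16214728)))) (l 16165616)))) (a (c (a (c (l 16195240) (l 16186440)) (c (l 285781836135) (l 16232112))) (c (a (l 16174912) (l 16200072)) (c (a (c (l 16164984) (b (l 16175536) (l 16147344))) (c (l 16169624) (b (l 3) (l 16174264)))) (a (l 16161104) (l 16208192))))) (b (l 3) (c (c (l 16331752) (l 16326112)) (c (l 16360872) (c (c (l 16373824) (l 16265080)) (l 16371768))))))) (b (l 3) (a (c (a (c (l 16542240) (l 16519408)) (c (l 678771649463) (c (l 1172156002007) (l 16398904)))) (a (c (l 16536464) (c (c (l 16552216) (l 16486536)) (l 16553096))) (c (l 16375288) (c (c (l 16398984) (l 310478175943)) (l 16415320))))) (l 3))))), by decide +kernel⟩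

def k14_pp_101 : ∃ t, chk3 f_pp_101 t 30 255 1 = true :=
  ⟨(c (a (a (c (l 16166424) (l 16200096)) (c (b (l 16172560) (l 16115096)) (l 16133592))) (a (a (c (b (l 16130360) (l 16064160)) (l 16086800)) (c (b (l 16176360) (l 16106904)) (l 16131728))) (c (c (l 16163536) (l 16224952)) (l 16155704)))) (a (c (b (l 16185144) (l 16131208)) (c (b (b (l 16189768) (l 16163096)) (l 16123864)) (b (c (b (l 16185064) (c (l 16158208) (l 16156776))) (l 16170240)) (c (l 16098488) (b (l 16110080) (c (l 16104864) (l 16082888))))))) (a (c (a (l 16076024) (l 16121416)) (c (a (b (l 16100336) (l 16033240)) (l 16007512)) (a (b (c (b (l 16111568) (l 16078824)) (l 16093216)) (c (l 16028168) (b (l 16043008) (l 16009064)))) (b (c (b (l 16159872) (l 16105632)) (l 16141392)) (c (l 16072728) (b (l 16089440) (l 16052416))))))) (c (l 16231704) (c (l 16099376) (b (c (b (l 16315960) (l 16219792)) (l 16340304)) (c (l 16270736) (b (l 16246408) (l 16188384))))))))), by decide +kernel⟩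

def k15_pp_101 : ∃ t, chk3 f_pp_101 t 62 255 1 = true :=
  ⟨(c (a (c (l 16375896) (b (l 16449960) (l 16400192))) (a (c (l 16475656) (l 16433120)) (c (l 16355504) (c (l 16353128) (l 16418864))))) (c (a (l 16409992) (a (l 16497120) (l 16394384))) (b (c (c (l 353964811527) (l 360944074983)) (b (l 366849648391) (c (a (l 16445264) (l 16355960)) (l 16377280)))) (c (l 16397680) (a (c (l 16433264) (b (l 16431120) (l 16394024))) (c (l 16440000) (b (l 16402360) (l 16410864)))))))), by decide +kernel⟩

def k16_pp_101 : ∃ t, chk3 f_pp_101 t 63 510 1 = true :=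
  ⟨(c (a (c (a (b (l 290076960519) (l 16291008)) (l 290076820487)) (a (c (a (l 16259416) (l 16275336)) (l 16239552)) (c (c (l 16212816) (l 16219928)) (l 16217648)))) (c (a (b (b (l 3) (l 16139360)) (l 16144088)) (c (c (b (b (l 3) (a (c (c (a (l 282560509511) (l 16074928)) (a (l 16102888) (l 16064920))) (l 16090776)) (b (l 3) (c (a (l 16059224) (l 16073536)) (a (l 16041768) (c (l 16029120) (l 16042648))))))) (a (c (c (a (l 16086584) (b (c (l 16072888) (l 16067896)) (l 16069384))) (l 16074888)) (l 16093008)) (b (c (a (c (l 16082776) (c (l 16050928) (l 16046384))) (l 16047864)) (c (a (l 16064376) (c (l 16028944) (l 16024880))) (l 16052904))) (c (c (l 16053768) (a (l 16047880) (l 16034904))) (l 16034720))))) (l 289002800215)) (a (l 16075488) (l 290076528855)))) (c (a (c (l 16111880) (l 287392319175)) (c (a (l 16073296) (l 16034176)) (b (l 289002792503) (l 16063040)))) (a (l 16138040) (l 16017448))))) (a (c (a (b (l 16287032) (l 16304960)) (l 16211016)) (c (b (b (l 16137136) (l 16204816)) (a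 (l 16301072) (l 16210680))) (b (a (c (l 16200536) (l 16280312)) (l 281486840103)) (c (c (a (l 16301344) (l 16210424)) (a (l 16279800) (l 16209640))) (l 16210480))))) (b (b (l 3) (c (l 16025832) (c (l 283097171511) (c (c (a (l 16124216) (l 282023425623)) (l 16078960)) (l 16076792))))) (c (l 16008272) (c (a (l 16126544) (l 16043872)) (c (a (c (l 16125800) (l 16103848)) (c (l 16042648) (b (l 16041352) (l 16021880)))) (l 16037536))))))), by decide +kernel⟩

def k17_pp_101 : ∃ t, chk3 f_pp_101 t 63 511 1 = true :=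
  ⟨(c (a (c (a (l 16305016) (l 16245168)) (a (c (l 16280608) (l 16346328)) (c (l 16198552) (l 16243184)))) (c (a (l 16157848) (c (c (a (l 16103480) (c (b (a (c (b (l 16053936) (l 16053072)) (l 16070072)) (c (a (l 16043968) (l 16039328)) (b (l 16032224) (l 16031224)))) (c (a (l 16077360) (b (l 16037008) (l 16037112))) (l 16065024))) (l 16059912))) (l 16075520)) (a (l 16085288) (l 16042680)))) (c (a (l 16131192) (c (l 16041088) (a (l 16091752) (l 16049152)))) (a (l 16154872) (l 16067872))))) (a (c (a (l 16341416) (l 16236824)) (c (a (l 16336528) (l 16230464)) (c (a (l 16334944) (l 16228144)) (b (a (l 16234120) (l 16195680)) (a (l 16261184) (c (l 16234328) (l 16211960))))))) (c (a (l 16147280) (l 16059056)) (c (a (l 16139664) (l 16050216)) (c (b (a (l 16131584) (l 16043696)) (l 16095664)) (b (c (b (l 16043424) (c (l 16088704) (l 16067208))) (l 16084640)) (c (l 16094040) (b (l 16026416) (l 15989864))))))))), by decide +kernel⟩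

theorem s18_pp_101 : ∃ t, chk3 f_pp_101 t 63 255 1 = true := ex3_b k16_pp_101 k17_pp_101

theorem s19_pp_101 : ∃ t, chk3 f_pp_101 t 31 255 1 = true := ex3_a k15_pp_101 s18_pp_101

theorem s20_pp_101 : ∃ t, chk3 f_pp_101 t 15 255 1 = true := ex3_a k14_pp_101 s19_pp_101

theorem s21_pp_101 : ∃ t, chk3 f_pp_101 t 15 127 1 = true := ex3_b k13_pp_101 s20_pp_101

theorem s22_pp_101 : ∃ t, chk3 f_pp_101 t 7 127 1 = true := ex3_a k12_pp_101 s21_pp_101

theorem s23_pp_101 : ∃ t, chk3 f_pp_101 t 7 63 1 = true := ex3_b k11_pp_101 s22_pp_101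

theorem s24_pp_101 : ∃ t, chk3 f_pp_101 t 7 31 1 = true := ex3_b k10_pp_101 s23_pp_101

theorem s25_pp_101 : ∃ t, chk3 f_pp_101 t 7 15 1 = true := ex3_b k9_pp_101 s24_pp_101

theorem s26_pp_101 : ∃ t, chk3 f_pp_101 t 7 7 1 = true := ex3_b k8_pp_101 s25_pp_101

theorem s27_pp_101 : ∃ t, chk3 f_pp_101 t 6 63 1 = true := ex3_b k6_pp_101 k7_pp_101

theorem s28_pp_101 : ∃ t, chk3 f_pp_101 t 6 31 1 = true := ex3_b k5_pp_101 s27_pp_101

theorem s29_pp_101 : ∃ t, chk3 f_pp_101 t 6 15 1 = true := ex3_b k4_pp_101 s28_pp_101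

theorem s30_pp_101 : ∃ t, chk3 f_pp_101 t 6 7 1 = true := ex3_b k3_pp_101 s29_pp_101

theorem s31_pp_101 : ∃ t, chk3 f_pp_101 t 3 7 1 = true := ex3_a s30_pp_101 s26_pp_101

theorem s32_pp_101 : ∃ t, chk3 f_pp_101 t 3 3 1 = true := ex3_b k2_pp_101 s31_pp_101

theorem s33_pp_101 : ∃ t, chk3 f_pp_101 t 1 3 1 = true := ex3_a k1_pp_101 s32_pp_101

theorem s34_pp_101 : ∃ t, chk3 f_pp_101 t 1 1 1 = true := ex3_b k0_pp_101 s33_pp_101

theorem c_pp_101 : CertNX 536870912 469762048 536870912 536870912 1046898278 26843546 3 false true true .npn 1 0 1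
    ndN5q1 ndN0q1 pcN0 Cut.none Ext.none :=
  certNX0 (fam := false) (s1 := true) (s2 := true) (a := 1) (b := 0) (c := 1) (cn := .npn) (n1 := ndN5q1) (n2 := ndN0q1) (pc := pcN0) (cut := Cut.none) (xt := Ext.none) (P1 := 536870912) (W1 := 469762048) (P2 := 536870912) (W2 := 536870912) (P3 := 1046898278) (W3 := 26843546) (N0 := 3)
    rfl s34_pp_101

noncomputable def f_pp_102 : ℕ → ℕ → ℕ → ℕ → Bool := onCell 536870912 469762048 0 536870912 1046898278 26843546
    (rowNX 3 0 false true true .npp 1 0 2 (qsf 536870912 469762048 0 536870912 0) ndN5q1 ndN0q2 pcN0 Cut.none Ext.none)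

def k0_pp_102 : ∃ t, chk3 f_pp_102 t 2 1 1 = true :=
  ⟨(b (b (c (l 257798701063) (l 16777216)) (a (l 2) (b (l 16777216) (l 16777216)))) (b (b (a (l 16777216) (c (l 16777216) (l 16777216))) (a (b (l 16709592) (l 16516872)) (b (l 16709592) (l 16516872)))) (b (a (b (l 16299392) (l 16006360)) (b (l 16299392) (c (l 16019712) (l 15993040)))) (b (b (a (a (c (l 15727072) (l 15697816)) (c (l 15727072) (l 15697816))) (a (l 15708848) (l 15708848))) (a (c (c (a (l 15665608) (l 15665608)) (a (l 15636680) (l 15636680))) (a (l 15596320) (l 15596320))) (c (a (c (l 15665608) (l 15636680)) (c (b (l 15689752) (l 15650936)) (l 15636680))) (a (l 15596320) (l 15596320))))) (a (c (c (a (l 15516256) (l 15516256)) (b (b (l 15555848) (l 15518816)) (l 15440800))) (b (c (a (l 15517432) (l 15517432)) (l 15494456)) (c (a (l 15420544) (l 15420544)) (b (l 15424240) (a (l 15371256) (l 15371256)))))) (c (b (b (c (l 15591584) (a (l 15576816) (l 15576816))) (a (l 15525776) (l 15525776))) (a (l 15451960) (a (l 15451960) (l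 15451960)))) (b (c (a (l 15517432) (l 15517432)) (l 15494456)) (c (c (l 15386600) (a (l 15415184) (a (l 15415184) (l 15373240)))) (a (b (l 15424240) (c (l 15378584) (l 15364344))) (b (l 15424240) (c (l 15378584) (l 15364344)))))))))))), by decide +kernel⟩

def k1_pp_102 : ∃ t, chk3 f_pp_102 t 3 2 1 = true :=
  ⟨(a (a (b (l 16777216) (b (l 16777216) (l 16777216))) (b (a (l 16492872) (l 15871072)) (a (b (l 16576760) (l 16576760)) (b (l 15871072) (l 15871072))))) (a (b (a (l 15096576) (l 14301168)) (a (b (l 15096576) (l 15096576)) (b (l 14301168) (l 14301168)))) (b (a (c (l 13613112) (l 13501584)) (b (l 13696488) (l 13559432))) (a (a (l 13684552) (b (l 13428464) (a (b (l 13402768) (l 13406792)) (b (l 13456536) (l 13475696))))) (a (b (l 13606712) (b (c (l 13692320) (l 13579840)) (l 13662368))) (b (l 13855776) (c (l 13980768) (l 13871760)))))))), by decide +kernel⟩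

def k2_pp_102 : ∃ t, chk3 f_pp_102 t 3 6 1 = true :=
  ⟨(a (a (b (l 16777216) (l 16468376)) (b (a (l 16576760) (l 15871072)) (a (b (l 16591456) (l 16613104)) (b (l 15910904) (l 16025792))))) (a (a (b (l 15096576) (b (l 15140488) (a (l 15460624) (b (l 15035800) (a (l 15202360) (l 15006360)))))) (a (b (l 14500992) (b (l 14548128) (b (l 14645352) (l 14710488)))) (b (b (l 14098424) (l 14099832)) (b (b (l 14119624) (l 14183896)) (l 14278576))))) (a (b (a (b (c (b (l 13738808) (l 13743760)) (l 13636264)) (l 13703736)) (b (c (l 13399520) (l 13410208)) (c (l 13549304) (l 13434640)))) (a (b (l 13759280) (l 13878968)) (b (c (l 13596192) (l 13483872)) (c (l 13706296) (l 13598248))))) (b (c (b (c (l 13918112) (l 13860432)) (a (l 13741896) (c (l 14064312) (l 14012736)))) (b (l 13776536) (a (l 13668088) (l 13931896)))) (b (c (a (l 13817880) (b (l 14075104) (l 14116632))) (a (l 13710048) (l 13994264))) (a (c (l 13922176) (l 13818376)) (c (b (l 14178768) (l 14250744)) (l 14122400)))))))), by decide +kernel⟩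

def k3_pp_102 : ∃ t, chk3 f_pp_102 t 6 14 1 = true :=
  ⟨(a (b (l 16299392) (l 16006360)) (a (b (l 16256520) (a (l 16004992) (l 16192928))) (b (l 16073856) (b (l 16026904) (a (l 16546320) (a (l 16313240) (l 16153408))))))), by decide +kernel⟩

def k4_pp_102 : ∃ t, chk3 f_pp_102 t 12 15 1 = true :=
  ⟨(b (b (l 15708848) (c (c (b (l 15689752) (l 15650936)) (l 15636680)) (c (l 15606496) (l 15586144)))) (c (b (c (l 15564784) (b (l 15513904) (l 15518816))) (a (l 15451960) (b (l 15473376) (a (l 15429304) (l 15426512))))) (b (c (a (l 15517432) (l 15412568)) (l 15494456)) (c (b (c (l 15454352) (l 15440872)) (a (l 15394848) (l 15393192))) (b (l 15424240) (b (c (l 15391456) (l 15380256)) (c (l 15364440) (c (l 15356152) (l 15348944))))))))), by decide +kernel⟩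

def k5_pp_102 : ∃ t, chk3 f_pp_102 t 13 15 1 = true :=
  ⟨(c (b (a (b (l 15674288) (a (c (b (l 15731328) (l 15567232)) (l 15679432)) (b (l 15998680) (b (l 15970192) (c (l 15965576) (l 15899280)))))) (b (a (l 16195360) (l 16292112)) (a (b (a (l 16199216) (l 16372624)) (c (l 16055368) (l 16101288))) (b (l 16443264) (c (l 16405968) (l 16435144)))))) (a (b (a (c (a (l 15564848) (l 15626592)) (b (a (l 15576944) (l 15663880)) (a (l 15518824) (l 15600608)))) (b (c (l 15903896) (b (l 15915872) (l 15882776))) (c (l 15806960) (l 15802568)))) (a (a (b (l 15467224) (l 15400168)) (b (l 15532888) (l 15441816))) (b (l 15701824) (l 15594432)))) (b (b (c (l 16128304) (a (l 16048544) (b (l 16358032) (l 16265816)))) (c (l 16112232) (l 15967344))) (b (l 15795288) (l 15819720))))) (b (a (b (l 15862496) (a (l 15640456) (b (l 15955736) (l 15810240)))) (b (a (l 16298496) (l 16385352)) (b (l 16138016) (a (l 16199160) (l 16413624))))) (a (b (a (b (l 15468720) (c (a (l 15500256) (l 15499888)) (l 15428480))) (b (l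 15858024) (c (c (l 15734168) (l 15780648)) (l 15766680)))) (b (c (a (a (b (l 15454824) (l 15424704)) (c (l 15515448) (l 15502608))) (c (l 15688832) (l 15426144))) (a (a (l 15417752) (l 15486960)) (l 15664880))) (c (a (a (l 15364768) (l 15407760)) (l 15565192)) (a (c (a (l 15348032) (l 15391704)) (b (l 15341840) (a (l 15312424) (l 15352136)))) (c (l 15509640) (b (l 15572448) (l 15511056))))))) (b (b (l 15994912) (c (c (l 15882752) (l 16100232)) (l 16091136))) (b (c (c (l 15999768) (b (l 15942552) (l 15965888))) (b (l 16009544) (l 15788168))) (c (l 15862864) (c (b (l 15693384) (l 15846936)) (b (l 15897096) (c (l 15800360) (l 15648800)))))))))), by decide +kernel⟩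

def k6_pp_102 : ∃ t, chk3 f_pp_102 t 7 14 1 = true :=
  ⟨(a (a (b (a (b (l 15564976) (l 15643080)) (b (a (l 15276072) (l 15082944)) (l 15172528))) (a (b (a (l 15834216) (l 15668528)) (l 15936608)) (b (l 15336632) (l 15386256)))) (b (b (a (l 14793288) (l 14380168)) (a (l 14910744) (l 14513920))) (b (a (l 15079928) (l 14710568)) (a (l 15328448) (l 14992160))))) (a (b (a (b (l 13961072) (l 13891184)) (b (c (l 13772808) (l 13667344)) (a (a (l 13786168) (l 13743584)) (b (l 13780432) (c (l 13888328) (l 13786368)))))) (a (b (l 14302000) (b (l 14534600) (l 14712600))) (b (a (a (l 14025104) (l 14113080)) (c (l 14106448) (l 14012448))) (c (a (l 14410008) (l 14482848)) (l 14365832))))) (b (a (b (c (l 13999528) (l 13898680)) (c (a (l 13991680) (l 14149768)) (l 13976152))) (c (c (l 14398152) (l 14354664)) (l 14284312))) (b (a (c (b (c (l 14203416) (l 14157256)) (l 14346720)) (l 14174600)) (c (b (a (l 14386912) (l 14565640)) (a (l 14496904) (l 14616416))) (b (l 14394320) (l 14491744)))) (a (c (l 14456008)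 (l 14567520)) (c (a (l 14795912) (c (l 14907680) (l 14873024))) (l 14772520))))))), by decide +kernel⟩

def k7_pp_102 : ∃ t, chk3 f_pp_102 t 14 30 1 = true :=
  ⟨(a (b (a (l 15934448) (b (l 15834664) (a (l 16023000) (l 15891496)))) (c (a (b (l 16203616) (c (l 16373440) (l 16418360))) (a (c (b (l 16133664) (l 16254688)) (l 16194328)) (c (b (l 16014336) (l 16124048)) (l 15993832)))) (a (l 16365112) (l 15878624)))) (b (b (l 15212752) (c (l 15404432) (l 15491288))) (a (c (b (l 15663584) (c (l 15918280) (l 15976328))) (l 15890400)) (c (b (c (b (l 15544896) (l 15610320)) (l 15569344)) (c (b (l 15687968) (l 15773488)) (l 15575440))) (l 15475376))))), by decide +kernel⟩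

def k8_pp_102 : ∃ t, chk3 f_pp_102 t 28 31 1 = true :=
  ⟨(b (c (b (c (a (l 16534600) (a (l 16395912) (l 16299248))) (a (l 16283168) (a (b (l 16359272) (l 16417184)) (b (l 16254952) (l 16278680))))) (a (l 16236168) (c (l 16319552) (a (l 16503088) (l 16408304))))) (a (b (l 16458480) (c (l 16217424) (l 16416608))) (b (a (l 16392928) (l 16249568)) (c (c (a (l 16497328) (b (l 16374280) (l 16423976))) (l 16223016)) (l 16264032))))) (c (a (l 16130048) (a (l 16339264) (b (l 16496056) (l 16430224)))) (c (b (a (b (c (l 16352688) (l 16311344)) (l 16296432)) (a (c (l 16494496) (l 16302648)) (c (l 16508344) (b (l 16456656) (l 16533896))))) (a (l 16219872) (a (l 16394344) (l 16428152)))) (b (a (l 16191656) (a (l 16385632) (b (l 16481656) (l 16386456)))) (a (c (b (l 16178872) (l 16190152)) (b (l 16239056) (c (l 16188000) (l 16121984)))) (a (b (c (l 16354600) (l 16416440)) (c (l 16368336) (c (l 16367440) (l 16323240)))) (c (b (c (l 16515224) (l 16408944)) (l 16467824)) (b (l 16450712) (c (a (l 16395512)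 (l 16518600)) (c (b (l 16478656) (l 16413984)) (l 16381848))))))))))), by decide +kernel⟩

def k9_pp_102 : ∃ t, chk3 f_pp_102 t 29 31 1 = true :=
  ⟨(b (c (b (c (a (l 16070648) (l 15875152)) (a (b (l 16100800) (c (l 16177152) (l 16156120))) (b (l 15852000) (c (l 15939704) (l 15937576))))) (a (c (l 16280048) (l 16202560)) (c (l 16052624) (l 15970408)))) (b (b (l 15825744) (a (l 16179552) (l 15934864))) (a (c (c (l 16067160) (l 16258568)) (l 16254776)) (c (c (b (l 15996616) (l 16044472)) (l 16020896)) (l 16013760))))) (c (a (b (l 16263864) (l 16357600)) (b (l 16083136) (l 16167064))) (c (c (b (a (l 16293128) (l 16127648)) (l 16120592)) (b (b (a (l 16263344) (l 16092872)) (l 16077096)) (l 16096216))) (b (b (l 16064352) (c (c (l 16030184) (l 16136536)) (l 16155576))) (c (b (c (l 16169288) (b (l 16152352) (l 16202728))) (l 16204688)) (b (l 16082184) (c (b (l 16145896) (l 16237768)) (b (l 16207216) (a (l 16365720) (l 16210304)))))))))), by decide +kernel⟩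

def k10_pp_102 : ∃ t, chk3 f_pp_102 t 30 30 1 = true :=
  ⟨(b (a (b (l 14906184) (l 14938024)) (b (a (l 14675648) (l 14756736)) (c (a (l 14895152) (l 14981360)) (l 14875504)))) (c (b (a (c (l 15207800) (l 15263272)) (c (a (a (l 15068960) (l 15056088)) (l 15153696)) (l 15098136))) (a (c (c (l 15440024) (l 15433312)) (l 15424552)) (c (a (a (l 15160560) (c (l 15236448) (l 15228424))) (c (l 15337736) (l 15331904))) (a (a (l 15226840) (l 15216752)) (l 15320480))))) (a (l 15313576) (a (l 15100792) (l 15197576))))), by decide +kernel⟩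

def k11_pp_102 : ∃ t, chk3 f_pp_102 t 30 31 2 = true :=
  ⟨(b (b (a (c (l 15632440) (c (l 15610200) (l 15607312))) (c (a (l 15443800) (l 15548880)) (a (a (c (l 15421840) (l 15417400)) (c (l 15415472) (l 15410648))) (c (l 15524616) (l 15519616))))) (a (b (c (l 15775872) (l 15603064)) (c (l 15837832) (l 15814080))) (a (b (a (b (l 15569744) (l 15616744)) (c (l 15609440) (l 15579840))) (a (l 15665136) (l 15672304))) (b (c (l 15723696) (c (l 15700424) (l 15680032))) (c (l 15812440) (l 15786904)))))) (a (b (a (l 15970888) (b (l 15823272) (l 15887632))) (a (b (l 16058240) (l 16123440)) (b (l 15958824) (l 16039328)))) (a (b (a (l 15770312) (c (l 15794920) (l 15776624))) (a (b (l 15888928) (l 15978432)) (c (b (l 15919552) (l 16018792)) (l 15914488)))) (b (c (b (l 15896936) (l 15989936)) (b (l 15878720) (l 15976416))) (c (b (l 16093664) (l 16183664)) (l 15908432)))))), by decide +kernel⟩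

def k12_pp_102 : ∃ t, chk3 f_pp_102 t 30 31 3 = true :=
  ⟨(b (b (a (l 15593680) (a (l 15396288) (l 15504280))) (a (c (b (c (l 15670488) (l 15734288)) (c (l 15772216) (l 15794232))) (l 15621640)) (a (c (b (a (l 15474888) (l 15557576)) (c (a (l 15630720) (l 15637520)) (l 15613104))) (a (l 15577648) (l 15581024))) (c (b (l 15590240) (c (l 15763816) (l 15764904))) (b (l 15664016) (l 15754768)))))) (a (b (c (b (c (l 15856648) (a (l 15908928) (l 15679312))) (a (l 15976392) (l 15860992))) (b (l 15842688) (a (l 15962984) (c (l 15742344) (l 15842744))))) (c (a (l 15990976) (l 15979080)) (c (b (b (c (l 15959808) (l 15850616)) (l 15955144)) (l 15994624)) (b (a (l 16023536) (l 15918784)) (c (b (a (l 16077016) (l 15985184)) (l 16073480)) (b (l 16028392) (a (l 16049528) (l 16028448)))))))) (b (b (c (c (a (l 15710192) (l 15857688)) (a (a (l 15693104) (l 15705128)) (l 15659200))) (a (l 15692936) (l 15843712))) (c (a (a (l 15779656) (l 15797232)) (l 15789208)) (a (a (l 15762544) (l 15696504)) (c (c (l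 15860736) (l 15944896)) (l 15940704))))) (c (a (a (l 15911704) (l 15879520)) (l 15980576)) (a (c (b (a (c (l 15853816) (l 15850992)) (c (l 15877984) (l 15833320))) (a (l 15949544) (l 15984832))) (b (a (l 15845160) (l 15869576)) (a (c (l 15943976) (b (l 15915040) (l 15966648))) (c (l 15874624) (b (l 15946672) (l 15983800)))))) (c (b (c (l 16058656) (l 15867992)) (l 16178296)) (b (l 16010296) (c (l 16048384) (b (l 16140920) (l 16118712)))))))))), by decide +kernel⟩

def k13_pp_102 : ∃ t, chk3 f_pp_102 t 31 30 1 = true :=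
  ⟨(c (b (a (b (l 14965848) (l 15038320)) (a (b (l 15129544) (c (l 15352424) (l 15325776))) (b (c (a (l 15220616) (l 15067192)) (a (l 15190888) (l 15227696))) (c (a (l 15390944) (l 15616680)) (a (l 15449720) (l 15594232)))))) (a (b (c (c (l 15344440) (l 15356688)) (l 15337072)) (c (b (c (l 15480216) (l 15445088)) (a (l 15521384) (a (l 15622216) (l 15715232)))) (b (l 15487496) (a (l 15508616) (c (a (l 15614992) (l 15709088)) (l 15666184)))))) (b (a (c (b (a (l 15459664) (l 15549136)) (c (a (l 15552688) (l 15677792)) (l 15641016))) (a (l 15501752) (l 15611016))) (c (c (b (l 15768808) (l 15906840)) (l 15772920)) (l 15798680))) (a (c (b (c (l 15756680) (l 15768872)) (l 15920968)) (b (l 15771064) (l 15683328))) (c (c (l 15989736) (b (l 15987064) (l 16150552))) (b (l 16076784) (c (l 16070624) (l 16219056)))))))) (b (a (l 15001240) (a (b (l 15067008) (l 15284128)) (b (a (l 15144480) (l 15224048)) (a (l 15410280) (l 15557408))))) (a (b (l 15297888) (a (l 15435376) (l 15396912))) (a (b (a (l 15465144)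 (l 15576624)) (l 15780616)) (b (l 15810360) (l 16068576)))))), by decide +kernel⟩

def k14_pp_102 : ∃ t, chk3 f_pp_102 t 31 62 1 = true :=
  ⟨(c (a (b (c (a (l 15652368) (b (l 15813192) (l 15967416))) (b (a (l 15612648) (c (a (l 15729944) (l 15852144)) (l 15798728))) (a (c (l 15725112) (l 15718104)) (c (l 15938584) (l 15931864))))) (b (c (a (l 15886072) (l 16120816)) (a (c (l 15864336) (l 15843560)) (l 15908880))) (c (a (b (l 15984192) (l 16040984)) (l 16137320)) (a (b (l 15896456) (l 16020880)) (b (l 16209768) (l 16256344)))))) (b (c (a (l 15990936) (a (l 16267080) (l 16350424))) (a (c (b (l 16042200) (l 16211936)) (b (l 16070184) (l 16164104))) (c (b (a (l 16281280) (l 16368792)) (l 16309864)) (b (l 16300920) (l 16324664))))) (a (c (b (l 16342848) (l 16355888)) (b (c (l 16305608) (l 16306592)) (c (l 16347520) (l 16351720)))) (c (a (l 16491608) (l 16343048)) (b (b (l 16379904) (l 16432568)) (l 16319208)))))) (a (b (a (l 15654144) (b (l 15781384) (l 15930072))) (b (a (c (c (l 15757760) (l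 15843952)) (l 15832816)) (c (l 15996832) (l 16078008))) (c (b (a (c (l 15853264) (l 15943432)) (l 16045584)) (c (l 15912384) (l 15916776))) (a (l 15939720) (l 16204280))))) (a (b (l 16009528) (c (b (l 16184064) (c (c (l 16341064) (l 16300976)) (l 16330216))) (b (l 16354080) (l 16350864)))) (b (b (l 16317224) (l 16377824)) (c (b (l 16403568) (c (l 16336720) (l 16366040))) (l 16336088)))))), by decide +kernel⟩

def k15_pp_102 : ∃ t, chk3 f_pp_102 t 31 126 1 = true :=
  ⟨(c (a (a (c (l 16074448) (l 16019616)) (c (l 16268872) (b (l 16285704) (l 16360608)))) (a (c (l 16359288) (b (l 16443152) (l 16370752))) (b (a (c (l 16455712) (l 16396832)) (c (a (l 16384312) (l 16238568)) (b (l 16295424) (l 16242656)))) (c (a (l 16375960) (l 16131768)) (a (l 16248408) (c (l 16127120) (l 16258976))))))) (a (c (c (a (l 16086832) (l 16245144)) (b (c (l 16023632) (l 16046240)) (l 16106560))) (b (l 16088488) (a (l 15989312) (l 16237616)))) (a (c (b (c (l 16511624) (l 16403600)) (l 16359528)) (b (l 16535712) (c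 (l 16361688) (l 16461808)))) (c (b (b (c (l 16375888) (b (l 16364760) (l 16320504))) (c (l 16315928) (c (l 16325304) (l 16257896)))) (b (a (l 16406880) (l 16220168)) (a (l 16354792) (l 16235480)))) (b (b (l 16362128) (l 16308368)) (a (c (b (l 16408624) (c (l 16358624) (l 16351192))) (l 16374472)) (c (b (l 16220176) (l 16108352)) (l 16249824)))))))), by decide +kernel⟩

def k16_pp_102 : ∃ t, chk3 f_pp_102 t 31 127 1 = true :=
  ⟨(a (c (a (c (l 16193440) (l 16165992)) (c (l 16421648) (a (l 16446024) (l 16404048)))) (c (a (l 16220416) (l 16422784)) (c (b (a (c (l 16321656) (l 16174104)) (b (l 16392920) (l 16516048))) (a (l 16380760) (l 16479624))) (b (a (l 16234264) (l 16421312)) (c (a (l 16273560) (l 16396024)) (b (l 16292888) (a (l 16345192) (l 16410328)))))))) (c (a (b (c (l 16355200) (l 16290952)) (c (a (l 16421984) (b (l 16326696) (l 16282520))) (a (l 16356760) (c (b (l 16323256) (l 16257464)) (l 16262952))))) (b (c (a (l 16198936) (l 16154256)) (a (c (l 16153176) (l 16261944)) (c (l 16127432)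 (l 16173840)))) (c (a (l 16203296) (c (l 16114248) (l 16036848))) (c (a (l 16198320) (c (l 16097784) (l 16106432))) (l 16110944))))) (a (b (c (l 16356072) (c (c (l 16358256) (b (l 16386808) (l 16392752))) (l 16292064))) (c (a (l 16419448) (l 16257520)) (c (a (l 16416128) (l 16252520)) (b (c (b (l 16287384) (l 16324208)) (l 16273720)) (c (l 16244304) (a (l 16323464) (c (l 16224216) (b (l 16276528) (l 16252976))))))))) (c (b (a (l 16194656) (l 16167952)) (l 16061440)) (b (c (b (c (l 16141816) (a (l 16219200) (l 16188216))) (b (l 16166376) (l 16187208))) (b (l 16133864) (a (l 16143640) (l 16097480)))) (c (l 16054280) (c (b (b (l 16079792) (l 16144600)) (l 16117144)) (b (l 16110112) (c (b (l 16124480) (l 16106904)) (b (l 16123368) (l 16021720))))))))))), by decide +kernel⟩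

theorem s17_pp_102 : ∃ t, chk3 f_pp_102 t 31 63 1 = true := ex3_b k15_pp_102 k16_pp_102

theorem s18_pp_102 : ∃ t, chk3 f_pp_102 t 31 31 1 = true := ex3_b k14_pp_102 s17_pp_102

theorem s19_pp_102 : ∃ t, chk3 f_pp_102 t 31 15 1 = true := ex3_b k13_pp_102 s18_pp_102

theorem s20_pp_102 : ∃ t, chk3 f_pp_102 t 30 31 1 = true := ex3_c k11_pp_102 k12_pp_102

theorem s21_pp_102 : ∃ t, chk3 f_pp_102 t 30 15 1 = true := ex3_b k10_pp_102 s20_pp_102

theorem s22_pp_102 : ∃ t, chk3 f_pp_102 t 15 15 1 = true := ex3_a s21_pp_102 s19_pp_102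

theorem s23_pp_102 : ∃ t, chk3 f_pp_102 t 14 31 1 = true := ex3_a k8_pp_102 k9_pp_102

theorem s24_pp_102 : ∃ t, chk3 f_pp_102 t 14 15 1 = true := ex3_b k7_pp_102 s23_pp_102

theorem s25_pp_102 : ∃ t, chk3 f_pp_102 t 7 15 1 = true := ex3_a s24_pp_102 s22_pp_102

theorem s26_pp_102 : ∃ t, chk3 f_pp_102 t 7 7 1 = true := ex3_b k6_pp_102 s25_pp_102

theorem s27_pp_102 : ∃ t, chk3 f_pp_102 t 6 15 1 = true := ex3_a k4_pp_102 k5_pp_102

theorem s28_pp_102 : ∃ t, chk3 f_pp_102 t 6 7 1 = true := ex3_b k3_pp_102 s27_pp_102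

theorem s29_pp_102 : ∃ t, chk3 f_pp_102 t 3 7 1 = true := ex3_a s28_pp_102 s26_pp_102

theorem s30_pp_102 : ∃ t, chk3 f_pp_102 t 3 3 1 = true := ex3_b k2_pp_102 s29_pp_102

theorem s31_pp_102 : ∃ t, chk3 f_pp_102 t 3 1 1 = true := ex3_b k1_pp_102 s30_pp_102

theorem s32_pp_102 : ∃ t, chk3 f_pp_102 t 1 1 1 = true := ex3_a k0_pp_102 s31_pp_102

theorem c_pp_102 : CertNX 536870912 469762048 0 536870912 1046898278 26843546 3 false true true .npp 1 0 2
    ndN5q1 ndN0q2 pcN0 Cut.none Ext.none :=
  certNX0 (fam := false) (s1 := true) (s2 := true) (a := 1) (b := 0) (c := 2) (cn := .npp) (n1 := ndN5q1) (n2 := ndN0q2) (pc := pcN0) (cut := Cut.none) (xt := Ext.none) (P1 := 536870912) (W1 := 469762048) (P2 := 0) (W2 := 536870912) (P3 := 1046898278) (W3 := 26843546) (N0 := 3)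
    rfl s32_pp_102

noncomputable def f_pp_112 : ℕ → ℕ → ℕ → ℕ → Bool := onCell 536870912 536870912 0 536870912 1046898278 26843546
    (rowNX 3 2 false true true .dn 1 1 2 (qsf 536870912 469762048 0 536870912 1) ndN5q1 ndN0q2 pcN1 Cut.none Ext.none)

def k0_pp_112 : ∃ t, chk3 f_pp_112 t 1 1 1 = true :=
  ⟨(a (a (a (b (b (l 16777216) (l 16777216)) (b (b (l 16777216) (l 16615176)) (b (b (l 16299392) (l 16006360)) (b (c (b (l 15727072) (c (l 15665608) (l 15636680))) (l 15626592)) (c (c (l 15516256) (b (l 15539776) (l 15440800))) (b (l 15508592) (c (l 15420544) (l 15350776)))))))) (b (b (l 16777216) (l 16777216)) (b (b (l 16777216) (l 16615176)) (b (l 478383790663) (l 1))))) (b (b (l 259342204935) (b (l 16777216) (l 16777216))) (b (l 1) (l 1)))) (l 1)), by decide +kernel⟩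

theorem c_pp_112 : CertNX 536870912 469762048 0 536870912 1046898278 26843546 3 false true true .dn 1 1 2
    ndN5q1 ndN0q2 pcN1 Cut.none Ext.none :=
  certNX2 (fam := false) (s1 := true) (s2 := true) (a := 1) (b := 1) (c := 2) (cn := .dn) (n1 := ndN5q1) (n2 := ndN0q2) (pc := pcN1) (cut := Cut.none) (xt := Ext.none) (P1 := 536870912) (W1 := 469762048) (P2 := 0) (W2 := 536870912) (P3 := 1046898278) (W3 := 26843546) (N0 := 3)
    rfl (fun _ => rfl) k0_pp_112

noncomputable def f_pp_202 : ℕ → ℕ → ℕ → ℕ → Bool := onCell 1073741824 536870912 0 536870912 1046898278 26843546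
    (rowNX 3 0 false true true .pp 2 0 2 (qsf 1073741824 536870912 0 536870912 0) ndN5q2 ndN0q2 pcN0 Cut.none Ext.none)

def k0_pp_202 : ∃ t, chk3 f_pp_202 t 1 1 1 = true :=
  ⟨(l 3), by decide +kernel⟩

theorem c_pp_202 : CertNX 1073741824 536870912 0 536870912 1046898278 26843546 3 false true true .pp 2 0 2
    ndN5q2 ndN0q2 pcN0 Cut.none Ext.none :=
  certNX0 (fam := false) (s1 := true) (s2 := true) (a := 2) (b := 0) (c := 2) (cn := .pp) (n1 := ndN5q2) (n2 := ndN0q2) (pc := pcN0) (cut := Cut.none) (xt := Ext.none) (P1 := 1073741824) (W1 := 536870912) (P2 := 0) (W2 := 536870912) (P3 := 1046898278) (W3 := 26843546) (N0 := 3)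
    rfl k0_pp_202

noncomputable def f_pm_001 : ℕ → ℕ → ℕ → ℕ → Bool := onCell 0 536870912 0 536870912 1046898278 26843546
    (rowNX 3 1 false true false .up 0 0 1 (qsf 0 536870912 536870912 536870912 0) ndN5q0 ndN0q1 pcN0 Cut.none Ext.none)

def k0_pm_001 : ∃ t, chk3 f_pm_001 t 1 1 1 = true :=
  ⟨(l 4), by decide +kernel⟩

theorem c_pm_001 : CertNX 0 536870912 536870912 536870912 1046898278 26843546 3 false true false .up 0 0 1
    ndN5q0 ndN0q1 pcN0 Cut.none Ext.none :=
  certNX1 (fam := false) (s1 := true) (s2 := false) (a := 0) (b := 0) (c := 1) (cn := .up) (n1 := ndN5q0) (n2 := ndN0q1) (pc := pcN0) (cut := Cut.none) (xt := Ext.none) (P1 := 0) (W1 := 536870912) (P2 := 536870912) (W2 := 536870912) (P3 := 1046898278) (W3 := 26843546) (N0 := 3)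
    rfl (fun _ => rfl) k0_pm_001

noncomputable def f_pm_011 : ℕ → ℕ → ℕ → ℕ → Bool := onCell 0 536870912 536870912 536870912 1046898278 26843546
    (rowNX 3 0 false true false .pnn 0 1 1 (qsf 0 536870912 536870912 536870912 1) ndN5q0 ndN0q1 pcN1 Cut.none Ext.none)

def k0_pm_011 : ∃ t, chk3 f_pm_011 t 1 1 1 = true :=
  ⟨(b (l 4) (l 4)), by decide +kernel⟩

theorem c_pm_011 : CertNX 0 536870912 536870912 536870912 1046898278 26843546 3 false true false .pnn 0 1 1
    ndN5q0 ndN0q1 pcN1 Cut.none Ext.none :=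
  certNX0 (fam := false) (s1 := true) (s2 := false) (a := 0) (b := 1) (c := 1) (cn := .pnn) (n1 := ndN5q0) (n2 := ndN0q1) (pc := pcN1) (cut := Cut.none) (xt := Ext.none) (P1 := 0) (W1 := 536870912) (P2 := 536870912) (W2 := 536870912) (P3 := 1046898278) (W3 := 26843546) (N0 := 3)
    rfl k0_pm_011

end Pool.Agent.Strip051.G.IE1.Tab.C.NB50

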