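import Pool.Agent.Strip051.G.IE1.Tab

/-! # Certificates N77 (generated) -/

set_option linter.all false
set_option maxRecDepth 100000

namespace Pool.Agent.Strip051.G.IE1.Tab.C.NB50

open Pool.Agent.Strip051.PB Pool.Agent.Strip051.PB.T
open Pool.Agent.Strip051.G.IE1.Tab

noncomputable def f_pm_012 : ℕ → ℕ → ℕ → ℕ → Bool := onCell 536870912 536870912 0 536870912 1046898278 26843546
    (rowNX 3 2 false true false .pnp 0 1 2 (qsf 0 536870912 0 536870912 1) ndN5q0 ndN0q2 pcN1 Cut.none Ext.none)

def k0_pm_012 : ∃ t, chk3 f_pm_012 t 2 1 1 = true :=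
  ⟨(b (b (a (l 2) (a (b (l 16777216) (b (l 16777216) (l 16770208))) (l 16777216))) (b (a (l 2) (a (a (l 16748352) (l 16664856)) (b (l 16703152) (l 16432848)))) (b (a (l 2) (a (l 16602784) (a (l 16236000) (l 15991136)))) (l 4)))) (l 4)), by decide +kernel⟩

def k1_pm_012 : ∃ t, chk3 f_pm_012 t 6 4 1 = true :=
  ⟨(b (a (l 16695032) (a (l 16307528) (l 15819656))) (a (a (l 16776856) (a (b (l 16657400) (a (l 16700688) (l 16587128))) (b (l 16511144) (a (b (l 16492088) (l 16400728)) (b (c (l 16380096) (l 16385736)) (b (c (l 16376504) (l 16382016)) (l 15881216))))))) (a (b (l 16257864) (b (l 16233600) (a (a (c (c (l 16261080) (l 16264344)) (c (l 16267896) (l 16083000))) (c (b (l 16230672) (a (c (l 16172456) (l 16176248)) (b (l 16201224) (c (l 16150208) (l 16146256))))) (b (a (c (l 16263184) (l 16255024)) (l 16234952)) (b (a (l 16210976) (l 16185544)) (l 16123568))))) (a (b (l 16176376) (b (l 16169936) (c (a (c (l 16145808) (l 16121064)) (l 16098264)) (a (l 16120976) (l 16089664))))) (l 16081088)))))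 (l 15606800)))), by decide +kernel⟩

def k2_pm_012 : ∃ t, chk3 f_pm_012 t 12 20 1 = true :=
  ⟨(a (l 16739048) (a (l 16502016) (c (l 16124920) (l 16013992)))), by decide +kernel⟩

def k3_pm_012 : ∃ t, chk3 f_pm_012 t 13 40 1 = true :=
  ⟨(a (a (a (c (l 15832904) (a (l 15872296) (l 15658880))) (a (c (l 15722200) (b (l 15766368) (l 15609928))) (c (b (l 15731360) (l 15561224)) (b (l 15797656) (l 15537464))))) (a (b (c (a (c (l 15755392) (l 15669568)) (b (c (l 16050440) (l 16055288)) (c (l 15884296) (l 15879232)))) (b (a (l 15973400) (l 16046752)) (l 15829792))) (c (c (l 15363584) (b (l 15580016) (l 15432656))) (b (l 15548048) (l 15399832)))) (b (a (c (b (l 16044408) (a (l 15883304) (l 15891016))) (b (l 16026152) (l 15953696))) (b (l 16045640) (c (c (l 15986592) (l 15957240)) (l 15958632)))) (a (b (c (l 15751232) (l 15651032)) (l 15402112)) (c (b (c (l 15779424) (l 15795464)) (l 15594120)) (b (l 15781280) (l 15477768))))))) (a (b (b (l 15893560) (a (a (c (l 15939248) (l 15931976)) (l 15943312))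 (l 15806160))) (a (c (a (b (b (l 15937808) (l 15629032)) (c (l 15677264) (l 15676560))) (b (l 15795928) (b (a (l 15829568) (l 15860016)) (a (l 15708792) (l 15708304))))) (a (b (l 15882472) (l 15632440)) (b (l 15819208) (a (l 15776096) (l 15801912))))) (a (b (l 15848360) (c (c (l 15781576) (l 15749968)) (l 15750928))) (l 15746464)))) (l 15508912))), by decide +kernel⟩

def k4_pm_012 : ∃ t, chk3 f_pm_012 t 13 41 1 = true :=
  ⟨(a (b (a (l 15595920) (a (a (l 15350984) (l 15260152)) (a (b (l 15138288) (l 15148096)) (c (b (l 15245616) (l 15122128)) (l 15141712))))) (l 15317928)) (a (b (b (a (a (c (l 15339120) (l 15288488)) (c (a (l 15510976) (l 15559592)) (l 15417448))) (a (c (a (l 15565312) (b (l 15697112) (l 15572600))) (l 15627648)) (c (c (c (l 15677128) (l 15634472)) (l 15633304)) (l 15626456)))) (a (c (a (l 15079576) (l 15123488)) (a (l 15018888) (l 15066488))) (a (b (c (l 15428280) (l 15293592)) (l 15146912)) (c (b (l 15454824) (l 15374952)) (l 15378472))))) (b (a (a (l 14925024) (c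 (a (l 14926344) (l 14906376)) (l 14860376))) (a (c (l 14925256) (l 14859416)) (c (l 14942568) (l 14984832)))) (a (l 14822208) (c (a (l 14783200) (l 14753896)) (l 14717344))))) (a (b (a (c (b (l 15580864) (c (a (l 15368928) (l 15548544)) (l 15511272))) (b (a (l 15586656) (l 15590680)) (l 15407760))) (b (l 15536048) (b (l 15529504) (c (l 15472384) (l 15437520))))) (b (c (a (b (l 15309208) (l 15183064)) (c (b (l 15290800) (l 15240432)) (l 15377496))) (a (l 15165512) (l 15255240))) (a (b (l 14884280) (l 14691112)) (c (b (l 15139696) (l 14878392)) (l 14907904))))) (b (l 15381656) (b (a (c (c (l 15366488) (a (l 15350024) (l 15341128))) (c (l 15323128) (l 15320264))) (l 15316776)) (a (c (b (a (l 15202904) (l 15185752)) (l 15080696)) (l 15159016)) (c (b (l 15259392) (a (l 15124544) (l 15204000))) (c (l 15195520) (l 15184896))))))))), by decide +kernel⟩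

def k5_pm_012 : ∃ t, chk3 f_pm_012 t 6 21 1 = true :=
  ⟨(a (a (l 16448424) (a (l 16128960) (l 15795360))) (a (b (l 15198528) (l 15055064)) (a (a (l 14566000) (l 14408480)) (b (a (b (a (b (c (l 14604200) (l 14525832)) (l 14460848)) (c (b (l 14607448) (b (l 14467008) (l 14415808))) (b (l 14530320) (l 14378552)))) (l 14348856)) (a (b (b (c (a (l 14711976) (l 14877248)) (l 14680616)) (c (l 14433344) (l 14349616))) (l 14240976)) (b (b (c (c (b (l 15018680) (l 14926328)) (l 14949240)) (l 14894528)) (b (l 14588648) (l 14249224))) (b (c (c (l 14298488) (l 14254624)) (l 14192168)) (l 14141024))))) (l 14145512))))), by decide +kernel⟩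

def k6_pm_012 : ∃ t, chk3 f_pm_012 t 6 11 1 = true :=
  ⟨(a (b (a (l 15648496) (a (l 15571208) (l 15351800))) (l 4)) (a (a (b (l 15079568) (l 14933448)) (l 14701072)) (a (b (a (l 14358608) (l 14178232)) (l 14145800)) (b (b (l 14007280) (l 14006088)) (l 14007192))))), by decide +kernel⟩

def k7_pm_012 : ∃ t, chk3 f_pm_012 t 6 3 1 = true :=
  ⟨(a (l 4) (l 4)), by decide +kernel⟩

def k8_pm_012 : ∃ t, chk3 f_pm_012 t 14 4 1 = true :=
  ⟨(a (b (l 15271752) (l 15058224)) (b (l 14829648) (l 14600952))), by decide +kernel⟩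

def k9_pm_012 : ∃ t, chk3 f_pm_012 t 56 5 1 = true :=
  ⟨(b (b (c (l 15002840) (a (a (b (l 15237184) (a (b (l 15230328) (b (l 15214528) (l 15146640))) (l 15168632))) (l 15114616)) (l 14962960))) (b (b (b (a (a (c (c (b (l 15151768) (a (l 14961224) (l 15031832))) (c (l 15080168) (l 15074840))) (c (l 15058728) (l 15036632))) (a (c (l 15070552) (l 15020368)) (l 15067304))) (l 14939704)) (a (c (a (c (b (l 14869328) (l 14720232)) (l 14757784)) (b (c (a (l 14865592) (l 15015808)) (l 14978704)) (c (l 14795176) (l 14799824)))) (a (l 14669008) (b (l 14947432) (l 14760256)))) (a (c (c (l 14936920) (a (l 14911920) (l 14904248))) (b (l 14893872) (l 14861288))) (l 14876496)))) (a (b (a (b (l 14366776) (c (l 14214568) (l 14123616))) (c (b (l 14669448) (l 14374448)) (l 14400208))) (a (b (a (l 14083496) (l 14072872)) (l 14045728)) (c (b (l 14158704) (l 14050384)) (l 14023208)))) (a (b (c (a (c (l 14676264) (l 14664592)) (b (b (l 14902528) (l 14750272)) (l 14654360))) (a (l 14599400) (l 14739016))) (c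 (b (l 14453824) (l 14129536)) (l 14143328))) (c (b (a (b (l 14848600) (b (l 14787032) (l 14677776))) (l 14794640)) (c (b (l 14570832) (l 14465736)) (b (l 14573784) (l 14415640)))) (b (b (l 14765256) (l 14721984)) (b (l 14533512) (l 14272768))))))) (a (l 13942296) (b (b (a (c (b (l 13970072) (l 13908800)) (l 13860008)) (c (b (l 14129472) (l 13910128)) (l 13911424))) (a (l 13817520) (b (c (l 13815288) (l 13709360)) (l 13710600)))) (l 13751752))))) (b (l 13782640) (l 13741720))), by decide +kernel⟩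

def k10_pm_012 : ∃ t, chk3 f_pm_012 t 57 10 1 = true :=
  ⟨(b (l 14714432) (a (b (b (l 14729128) (a (b (a (a (c (l 14755920) (l 14713080)) (l 14774072)) (l 14735376)) (c (c (a (b (l 14740816) (l 14517200)) (l 14686608)) (b (l 14660536) (l 14619312))) (b (l 14633832) (l 14461368)))) (a (b (l 14683800) (b (l 14673968) (c (l 14625440) (l 14568472)))) (l 14625544)))) (b (b (b (c (a (a (l 14386088) (l 14431168)) (a (b (l 14569896) (l 14459128)) (l 14568112))) (a (l 14325200) (l 14244168))) (c (a (c (l 14255192) (l 14104992)) (a (l 14350920) (b (c (l 14572264) (l 14513616)) (l 14385072)))) (a (l 14034928) (l 14384000)))) (a (c (b (l 13879208) (l 13730352)) (l 13710720)) (b (c (a (l 14155224) (l 14264040)) (l 14083720)) (a (l 13783776) (l 13907136))))) (b (a (b (c (l 13678032) (l 13565976)) (l 13597864)) (c (b (l 13669088) (l 13582312)) (l 13493136))) (l 13545376)))) (b (l 14549944) (a (b (b (b (l 14542120) (c (a (c (l 14517976) (l 14466472)) (l 14482320)) (c (l 14434552) (l 14419744)))) (a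 (c (b (l 14178592) (l 14065328)) (l 14158984)) (c (b (c (l 14484984) (l 14427496)) (l 14241816)) (b (l 14392120) (l 14206432))))) (b (a (b (l 13787864) (c (l 13581920) (l 13469552))) (b (c (l 14102272) (l 13920640)) (l 13716280))) (c (b (a (l 13479360) (l 13535808)) (a (l 13456912) (l 13468936))) (a (l 13373248) (l 13406048))))) (b (b (l 14492448) (c (a (b (l 14458856) (c (l 14310664) (l 14399848))) (l 14438736)) (c (b (l 14423304) (l 14366776)) (a (l 14361000) (l 14371976))))) (b (c (a (b (l 14212536) (l 14045176)) (b (c (l 14348856) (l 14370928)) (l 14180664))) (b (a (l 14150392) (l 14319160)) (l 13984208))) (b (a (l 13673976) (l 13863184)) (c (a (l 13529832) (l 13667408)) (l 13491864))))))))), by decide +kernel⟩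

def k11_pm_012 : ∃ t, chk3 f_pm_012 t 57 11 1 = true :=
  ⟨(a (l 13565640) (b (a (l 13437536) (a (l 13477320) (b (b (b (b (c (l 13536472) (l 13420064)) (l 13442248)) (l 13451696)) (l 13470512)) (l 13501936)))) (c (l 13567104) (l 13453064)))), by decide +kernel⟩

def k12_pm_012 : ∃ t, chk3 f_pm_012 t 58 10 1 = true :=
  ⟨(b (l 14505312) (b (l 14425032) (b (l 14387336) (b (a (a (c (a (b (l 14412536) (c (l 14365272) (l 14339760))) (l 14392240)) (c (b (l 14342464) (l 14303600)) (a (l 14290576) (l 14308080)))) (l 14381984)) (l 14334504)) (b (a (a (c (a (l 14146048) (c (l 14337992) (l 14305384))) (l 14152864)) (c (c (l 14365224) (c (l 14348704) (l 14305776))) (a (l 14279720) (l 14281880)))) (l 14327424)) (c (a (a (a (l 13868856) (l 14108672)) (a (c (l 14200208) (l 14189736)) (c (l 14355888) (l 14297040)))) (l 14310560)) (a (a (l 13860128) (a (l 14137960) (l 14248880))) (a (a (l 14256640) (l 14285408)) (l 14270792))))))))), by decide +kernel⟩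

def k13_pm_012 : ∃ t, chk3 f_pm_012 t 58 11 1 = true :=
  ⟨(b (b (b (b (b (a (a (a (c (l 13639760) (l 13527696)) (l 13778384)) (c (a (l 14068688) (c (l 14178920) (l 14159952))) (l 14008288))) (a (c (a (a (l 14284800) (l 14290728)) (l 14318416)) (a (l 14223376) (l 14241832))) (l 14309240))) (a (c (a (c (l 13627592) (l 13571352)) (a (l 13793928) (l 14027064))) (a (l 13488032) (l 13778688))) (c (a (a (c (l 14164840) (l 14137072)) (c (l 14293464) (l 14264088))) (l 14301664)) (a (a (l 14060616) (l 14204896)) (a (l 14227984) (l 14257688)))))) (b (a (a (a (l 13467440) (c (l 13566728) (l 13449200))) (c (a (l 13626944) (l 13754504)) (l 13583472))) (c (a (a (l 13993608) (c (l 14155096) (l 14118472))) (a (a (l 14183808) (l 14271576)) (l 14299712))) (a (c (l 13967760) (l 13900736)) (a (l 14185344) (l 14214544))))) (a (a (l 13481312) (a (l 13514672) (c (l 13639280) (l 13524648)))) (a (c (a (l 13747328) (l 13924000)) (l 13715608)) (c (c (a (l 14144488) (l 14273248)) (a (l 14099152) (l 14235920)))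 (a (l 14001976) (l 14164832))))))) (a (l 13509336) (b (c (c (a (l 13808888) (a (l 13854888) (l 14128240))) (a (b (l 13691512) (l 13649688)) (a (l 13774880) (l 14087112)))) (a (a (l 13556736) (l 13627864)) (a (l 13729480) (l 13926224)))) (a (l 13597032) (b (c (a (l 13729120) (l 13795928)) (l 13663824)) (l 13674984)))))) (c (b (l 13583560) (c (l 13661376) (l 13599016))) (l 13467768))) (c (c (c (a (l 13626032) (l 13714032)) (l 13642712)) (c (l 13607840) (l 13572848))) (l 13502976))), by decide +kernel⟩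

def k14_pm_012 : ∃ t, chk3 f_pm_012 t 59 5 1 = true :=
  ⟨(b (l 14336472) (b (a (b (b (a (a (b (l 14292752) (b (l 14286800) (c (c (l 14306168) (l 14254496)) (l 14201432)))) (l 14279120)) (l 14264488)) (c (a (b (c (a (l 14138096) (l 14240296)) (b (a (l 14220424) (l 14244424)) (l 14102048))) (c (a (l 13917272) (l 14107120)) (l 13891560))) (c (l 14240032) (c (l 14213344) (l 14194496)))) (a (a (b (b (l 14143688) (l 13954472)) (l 13760936)) (b (b (l 14188600) (l 14097328)) (l 13846648))) (c (l 14105008) (a (l 14050768) (l 14128600)))))) (c (c (l 13935032) (a (l 13842928) (l 13908336))) (a (a (l 13634384) (l 13621392)) (b (l 13789192) (l 13702592))))) (b (a (c (c (l 14244864) (l 14206528)) (l 14148376)) (l 14217464)) (c (b (a (c (l 14220240) (a (l 14104352) (l 14182128))) (c (l 14226344) (l 14184000))) (a (l 13915592) (l 14060624))) (b (a (b (a (l 13931216) (l 14136488)) (l 13940920)) (l 14119048)) (l 13767248))))) (c (c (a (c (l 13777872) (c (l 13761544) (l 13740056))) (b (b (l 13882672)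 (l 13788608)) (a (l 13704552) (l 13708736)))) (c (a (l 13594256) (b (b (l 13842552) (l 13722312)) (c (l 13661840) (l 13601064)))) (l 13498848))) (a (l 13590520) (a (l 13635328) (l 13455848)))))), by decide +kernel⟩

def k15_pm_012 : ∃ t, chk3 f_pm_012 t 15 4 1 = true :=
  ⟨(a (c (b (l 14524984) (l 14294728)) (l 14368400)) (c (a (b (l 14246688) (l 13975664)) (b (l 14120632) (l 13840224))) (a (l 14113376) (b (l 14078824) (l 13677848))))), by decide +kernel⟩

def k16_pm_012 : ∃ t, chk3 f_pm_012 t 15 10 1 = true :=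
  ⟨(a (c (l 14106848) (l 14066216)) (a (c (l 13751168) (l 13772184)) (c (l 13612248) (a (l 13600384) (l 13537512))))), by decide +kernel⟩

def k17_pm_012 : ∃ t, chk3 f_pm_012 t 15 11 1 = true :=
  ⟨(a (b (b (l 13979784) (a (c (c (a (b (l 14173936) (c (l 14161512) (l 14156512))) (l 14046024)) (a (b (l 14140872) (l 14122480)) (l 14040424))) (a (b (l 14074520) (l 14052456)) (l 13971088))) (l 13843040))) (c (a (b (a (c (b (l 14003088) (l 13828896)) (b (l 13966824) (c (l 13809928) (l 13748728)))) (a (c (l 13873856) (b (l 14001432) (l 13823200))) (b (c (l 13993872) (l 13995768)) (l 13720504)))) (b (c (a (l 13710960) (l 13670920)) (a (c (l 13693680) (l 13618952)) (a (l 13586952) (l 13694680)))) (c (l 13635776) (a (c (a (l 13553512) (l 13573672)) (l 13472976)) (c (l 13579032) (c (l 13556400) (l 13505120))))))) (a (b (b (l 13666168) (a (l 13700848) (a (l 13868328) (l 13837920)))) (c (l 13623448) (a (b (l 13684280) (l 13555904)) (l 13612784)))) (c (b (l 13716088) (b (l 13705064) (l 13537272)))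 (b (a (l 13804992) (l 13761496)) (b (l 13525832) (l 13547768)))))) (b (b (a (a (l 13881112) (a (l 13924648) (l 13922888))) (l 13801736)) (a (a (l 13676712) (l 13832312)) (a (a (l 13806904) (b (l 13818288) (l 13781584))) (a (a (l 13777032) (l 13755304)) (l 13718408))))) (a (a (l 13495512) (b (l 13545912) (l 13420720))) (b (a (a (l 13594400) (l 13635696)) (c (c (a (l 13768224) (l 13739336)) (l 13646024)) (l 13693624))) (c (b (a (l 13466712) (a (l 13567840) (l 13595288))) (a (l 13473320) (a (l 13509776) (l 13519368)))) (l 13461896))))))) (c (a (b (l 13614008) (a (a (l 13629440) (l 13512856)) (c (l 13446800) (l 13480968)))) (l 13444008)) (a (b (l 13646176) (a (c (b (l 13679360) (c (l 13650720) (c (l 13646696) (l 13632776)))) (l 13605064)) (a (c (l 13561568) (l 13534416)) (l 13508024)))) (a (l 13437256) (l 13375928))))), by decide +kernel⟩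

def k18_pm_012 : ∃ t, chk3 f_pm_012 t 7 3 1 = true :=
  ⟨(b (b (b (a (l 4) (a (c (a (a (l 4) (c (l 13630360) (c (l 13649408) (c (l 13627360) (l 13578720))))) (c (a (l 13560552) (l 13578688)) (a (c (l 13564096) (l 13569560)) (l 13589928)))) (a (l 13517736) (c (c (a (c (a (l 13527272) (l 13536064)) (l 13493152)) (a (c (l 13526312) (l 13491128)) (l 13573248))) (a (l 13469536) (a (l 13439640) (l 13483960)))) (l 13525600)))) (a (b (c (a (l 13459128) (c (l 13415944) (a (l 13506680) (l 13430144)))) (c (a (c (l 13489304) (c (a (l 13502344) (l 13472552)) (a (l 13467608) (l 13452784)))) (c (l 13512960) (a (c (l 13569288) (l 13543720)) (l 13496760)))) (a (l 13415584) (c (b (a (b (l 13524968) (l 13389984)) (l 13486608)) (c (a (l 13413480) (l 13386096)) (l 13375344))) (l 13489656))))) (a (l 4) (a (l 4) (l 4)))) (c (a (c (l 13371448) (a (l 13383888) (l 13333552))) (l 13372424)) (c (a (a (l 13422976) (l 13349256)) (a (l 13297840) (l 13299776))) (c (a (a (c (l 13454720) (a (l 13419184) (l 13434144)))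 (l 13381112)) (a (l 13306824) (l 13266168))) (a (a (l 13426360) (c (b (l 13175704) (l 13318232)) (l 13365072))) (c (a (a (l 13210136) (l 13302632)) (l 13259208)) (a (l 13312112) (c (l 13258144) (l 13151784))))))))))) (l 4)) (l 4)) (l 4)), by decide +kernel⟩

theorem s19_pm_012 : ∃ t, chk3 f_pm_012 t 15 5 1 = true := ex3_b k16_pm_012 k17_pm_012

theorem s20_pm_012 : ∃ t, chk3 f_pm_012 t 15 2 1 = true := ex3_b k15_pm_012 s19_pm_012

theorem s21_pm_012 : ∃ t, chk3 f_pm_012 t 58 5 1 = true := ex3_b k12_pm_012 k13_pm_012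

theorem s22_pm_012 : ∃ t, chk3 f_pm_012 t 29 5 1 = true := ex3_a s21_pm_012 k14_pm_012

theorem s23_pm_012 : ∃ t, chk3 f_pm_012 t 57 5 1 = true := ex3_b k10_pm_012 k11_pm_012

theorem s24_pm_012 : ∃ t, chk3 f_pm_012 t 28 5 1 = true := ex3_a k9_pm_012 s23_pm_012

theorem s25_pm_012 : ∃ t, chk3 f_pm_012 t 14 5 1 = true := ex3_a s24_pm_012 s22_pm_012

theorem s26_pm_012 : ∃ t, chk3 f_pm_012 t 14 2 1 = true := ex3_b k8_pm_012 s25_pm_012

theorem s27_pm_012 : ∃ t, chk3 f_pm_012 t 7 2 1 = true := ex3_a s26_pm_012 s20_pm_012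

theorem s28_pm_012 : ∃ t, chk3 f_pm_012 t 7 1 1 = true := ex3_b s27_pm_012 k18_pm_012

theorem s29_pm_012 : ∃ t, chk3 f_pm_012 t 13 20 1 = true := ex3_b k3_pm_012 k4_pm_012

theorem s30_pm_012 : ∃ t, chk3 f_pm_012 t 6 20 1 = true := ex3_a k2_pm_012 s29_pm_012

theorem s31_pm_012 : ∃ t, chk3 f_pm_012 t 6 10 1 = true := ex3_b s30_pm_012 k5_pm_012

theorem s32_pm_012 : ∃ t, chk3 f_pm_012 t 6 5 1 = true := ex3_b s31_pm_012 k6_pm_012

theorem s33_pm_012 : ∃ t, chk3 f_pm_012 t 6 2 1 = true := ex3_b k1_pm_012 s32_pm_012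

theorem s34_pm_012 : ∃ t, chk3 f_pm_012 t 6 1 1 = true := ex3_b s33_pm_012 k7_pm_012

theorem s35_pm_012 : ∃ t, chk3 f_pm_012 t 3 1 1 = true := ex3_a s34_pm_012 s28_pm_012

theorem s36_pm_012 : ∃ t, chk3 f_pm_012 t 1 1 1 = true := ex3_a k0_pm_012 s35_pm_012

theorem c_pm_012 : CertNX 0 536870912 0 536870912 1046898278 26843546 3 false true false .pnp 0 1 2
    ndN5q0 ndN0q2 pcN1 Cut.none Ext.none :=
  certNX2 (fam := false) (s1 := true) (s2 := false) (a := 0) (b := 1) (c := 2) (cn := .pnp) (n1 := ndN5q0) (n2 := ndN0q2) (pc := pcN1) (cut := Cut.none) (xt := Ext.none) (P1 := 0) (W1 := 536870912) (P2 := 0) (W2 := 536870912) (P3 := 1046898278) (W3 := 26843546) (N0 := 3)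
    rfl (fun _ => rfl) s36_pm_012

noncomputable def f_pm_022 : ℕ → ℕ → ℕ → ℕ → Bool := onCell 0 536870912 0 536870912 1046898278 26843546
    (rowNX 3 0 false true false .pp 0 2 2 (qsf 0 536870912 0 536870912 2) ndN5q0 ndN0q2 pcN2 Cut.none Ext.none)

def k0_pm_022 : ∃ t, chk3 f_pm_022 t 8 4 1 = true :=
  ⟨(a (a (c (b (a (l 16124344) (a (c (l 16228400) (l 16231728)) (c (l 16118040) (l 16091288)))) (a (b (l 16346664) (l 16139784)) (a (b (l 16037112) (l 16013728)) (b (l 16038680) (l 16078912))))) (b (a (c (a (l 16328800) (l 16346656)) (c (l 16152280) (l 16231432))) (c (a (l 16235552) (l 16133104)) (l 16139016))) (a (c (a (l 16339856) (b (l 16262448) (l 16181688))) (a (l 16075640) (b (l 16256176) (l 16152768)))) (b (c (l 16131848) (l 16106040)) (c (l 16093560) (l 16066744)))))) (b (c (c (a (l 16126672) (l 16093608)) (l 16074872)) (l 15986520)) (c (c (a (l 16079248) (l 16009424)) (l 15986416)) (l 15853552)))) (c (a (b (l 15767336) (b (l 15855600) (l 15779752))) (b (c (l 15834408) (l 15810032))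 (c (c (l 15679176) (l 15651384)) (l 15633448)))) (b (a (l 15902232) (l 15789400)) (a (l 15761896) (l 15607848))))), by decide +kernel⟩

def k1_pm_022 : ∃ t, chk3 f_pm_022 t 8 5 1 = true :=
  ⟨(a (a (b (c (a (b (a (l 16235336) (l 16139104)) (l 16128072)) (c (l 16013960) (l 15950344))) (a (b (a (c (l 16200088) (a (l 16203424) (l 16090400))) (c (l 16119408) (l 16110112))) (c (l 15974496) (a (l 15986048) (l 16055912)))) (c (l 16023368) (l 15994616)))) (c (a (l 15829728) (c (b (l 15905128) (l 15772440)) (a (l 15864520) (l 15818424)))) (a (c (a (l 16001872) (l 15902120)) (a (c (l 15985696) (l 15912872)) (l 15909560))) (c (l 15719048) (l 15790360))))) (b (c (a (c (l 15967504) (l 15943568)) (l 15834640)) (l 15568896)) (c (a (b (l 15792000) (l 15672056)) (b (l 15676112) (l 15579712))) (b (l 15658320) (l 15539696))))) (c (b (a (b (l 15694968) (l 15519976)) (c (b (a (l 15571112) (l 15430440)) (a (l 15490528) (c (l 15429648) (l 15364984)))) (l 15435664))) (c (a (b (c (l 15591224) (l 15515800)) (a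 (c (l 15560656) (l 15468904)) (b (l 15399928) (l 15319360)))) (b (a (c (l 15433528) (l 15352680)) (c (l 15300808) (l 15262920))) (c (l 15168200) (a (l 15252424) (l 15121600))))) (a (b (l 15477360) (l 15360320)) (b (l 15253888) (c (l 15142864) (l 15096296)))))) (b (a (l 15588176) (l 15404440)) (a (b (l 15433320) (l 15312592)) (l 15032160))))), by decide +kernel⟩

def k2_pm_022 : ∃ t, chk3 f_pm_022 t 9 2 1 = true :=
  ⟨(b (a (a (c (b (c (a (l 15723344) (l 15385536)) (l 15623584)) (c (b (a (l 15590568) (l 15424240)) (a (l 15488528) (l 15300904))) (l 15346416))) (b (l 15597384) (l 15355368))) (c (b (c (c (l 15295832) (l 15289552)) (l 15259928)) (c (a (l 15149128) (l 14908544)) (c (l 15004696) (l 14968720)))) (l 14855048))) (c (b (a (c (l 14879800) (a (l 14934560) (l 14762160))) (l 14597048)) (c (l 14463928) (a (c (l 14578264) (a (l 14650680) (l 14476704))) (l 14290736)))) (b (c (a (l 14806288) (l 14456664)) (l 14640744)) (c (a (l 14532632) (c (l 14259216) (l 14227352))) (l 14343640))))) (a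 (c (b (a (c (b (a (l 15374592) (l 15167256)) (c (l 15123888) (l 15123056))) (b (l 15202656) (l 15083456))) (c (l 14722608) (b (l 14739888) (c (l 14624488) (l 14615864))))) (c (a (b (c (l 14971800) (l 14947632)) (l 14786560)) (l 14385056)) (a (b (c (l 14925808) (l 14914584)) (c (a (l 14914232) (l 14657896)) (l 14569000))) (b (c (l 14461688) (a (l 14581880) (l 14321688))) (l 14266152))))) (b (a (l 15084024) (b (l 14702592) (l 14569872))) (c (a (b (l 14868232) (l 14733896)) (b (l 14411248) (c (a (l 14378960) (l 14113032)) (l 14213048)))) (l 14512624)))) (c (b (a (c (l 14277016) (b (l 14333920) (l 14167504))) (l 13982208)) (b (l 13866824) (l 13673480))) (b (c (a (b (l 14297440) (a (l 14217936) (l 14019680))) (b (c (l 14019008) (l 13989008)) (l 13596400))) (a (l 14157048) (b (l 13960384) (l 13766376)))) (c (a (b (c (l 13954968) (a (l 14030776) (l 13842024))) (c (l 13765896) (a (l 13828744) (l 13648832)))) (b (l 13641032) (l 13445760))) (a (b (l 13902280) (c (a (l 13811560) (l 13613432)) (l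 13681720))) (b (c (a (l 13670472) (l 13530520)) (l 13563864)) (c (l 13403264) (a (l 13442256) (l 13299048)))))))))), by decide +kernel⟩

def k3_pm_022 : ∃ t, chk3 f_pm_022 t 5 2 1 = true :=
  ⟨(a (b (c (b (l 13981760) (l 13670544)) (a (a (b (c (l 14289408) (l 14242848)) (c (l 13980480) (c (l 13731048) (l 13912672)))) (c (l 13868600) (b (c (l 13993408) (l 13967352)) (b (l 13742144) (l 13573312))))) (b (l 1) (l 1)))) (a (c (b (l 13582224) (l 13214384)) (b (c (l 13507680) (a (b (c (l 13689656) (l 13657368)) (c (l 13508152) (l 13476048))) (l 13304024))) (c (l 13122448) (a (b (c (l 13318952) (l 13284192)) (l 13101312)) (l 1))))) (l 1))) (l 1)), by decide +kernel⟩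

def k4_pm_022 : ∃ t, chk3 f_pm_022 t 8 12 1 = true :=
  ⟨(a (c (a (a (b (l 15781608) (l 15473024)) (c (b (l 15640224) (c (a (l 15558168) (l 15548776)) (l 15518344))) (a (l 15594024) (l 15565176)))) (c (b (a (l 15595032) (c (b (l 15573144) (l 15553344)) (l 15481944))) (a (c (b (l 15567608) (a (l 15524240) (l 15517080))) (b (l 15495720) (l 15442088))) (c (b (l 15500904) (l 15432576)) (b (l 15402888) (l 15366400))))) (b (l 15489312) (a (l 15425032) (l 15284440))))) (a (a (c (b (l 15574200) (l 15533216)) (a (b (l 15626936) (l 15448576)) (b (l 15676328) (l 15541552)))) (c (b (l 15613088) (l 15491504)) (l 15517040))) (b (l 15421200) (a (l 15345560) (l 15209928))))) (c (b (a (c (b (a (c (l 15489104) (l 15387016)) (l 15314984)) (c (l 15339256) (l 15053200))) (a (l 15287104) (l 15085792))) (c (c (l 15028664) (a (l 15102904) (l 14935344))) (c (a (l 15066664) (l 14934280)) (l 14959536)))) (c (a (c (l 15187128) (a (l 15168824) (l 15063824))) (l 14843408)) (a (c (a (l 15185720) (b (l 15089160) (l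 15015952))) (l 15008560)) (b (c (l 14846160) (l 14841872)) (a (c (l 14849016) (l 14842744)) (l 14677296)))))) (a (b (l 15166880) (l 15002400)) (b (l 14896544) (a (l 14798304) (c (l 14463480) (l 14637376))))))), by decide +kernel⟩

def k5_pm_022 : ∃ t, chk3 f_pm_022 t 9 12 1 = true :=
  ⟨(a (c (c (a (l 14477704) (l 14027232)) (a (b (c (l 14590328) (a (l 14717320) (l 14452456))) (b (l 14440536) (l 14372224))) (l 14002424))) (b (c (a (a (l 14674728) (l 14192584)) (c (a (l 14176064) (l 13918400)) (a (l 14138664) (l 13889000)))) (a (l 14490696) (l 13975616))) (a (c (c (a (b (l 14557024) (l 14470384)) (l 14257776)) (a (l 14484008) (b (l 14278416) (l 4)))) (l 14344264)) (b (c (c (l 13910968) (a (l 14014064) (l 13758528))) (c (a (l 13996568) (l 13725904)) (l 13832408))) (l 4))))) (c (b (l 13484488) (l 13358600)) (c (b (a (l 13549688) (l 13251248)) (l 13271368)) (b (a (c (a (b (l 13648736) (l 13547184)) (l 13416200)) (a (l 13570736) (b (l 13432224) (l 13333400)))) (a (b (l 13297544) (l 13208392))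 (l 13120144))) (a (c (l 13366560) (a (b (l 13442936) (l 4)) (l 4))) (l 1)))))), by decide +kernel⟩

def k6_pm_022 : ∃ t, chk3 f_pm_022 t 4 13 1 = true :=
  ⟨(a (b (a (c (a (c (a (b (l 15606760) (c (c (l 15668744) (l 15651136)) (l 15602072))) (b (c (a (l 15542832) (l 15504528)) (a (l 15456880) (l 15431184))) (a (c (l 15562864) (l 15496200)) (c (l 15540168) (l 15503512))))) (a (l 15560080) (a (l 15461160) (l 15430696)))) (b (c (a (c (l 15476560) (c (l 15449944) (l 15395912))) (c (l 15365728) (l 15327520))) (c (a (l 15353712) (l 15258256)) (l 15247096))) (a (b (c (c (l 15495208) (l 15444744)) (l 15355768)) (l 4)) (l 4)))) (a (a (c (a (l 15562832) (l 15433480)) (a (c (l 15539168) (l 15524320)) (l 15474088))) (c (b (l 15409256) (l 15427552)) (l 15375656))) (l 15184384))) (b (a (c (c (l 15071992) (c (a (l 15121784) (l 14949160)) (a (l 15037776) (l 14940024)))) (l 14919128)) (l 4)) (l 4))) (b (b (a (a (a (a (c (c (c (l 15776880) (l 15670576)) (l 15634672)) (c (l 15595568) (l 15418752))) (l 4))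 (l 4)) (l 4)) (l 4)) (l 4)) (l 4))) (l 4)), by decide +kernel⟩

def k7_pm_022 : ∃ t, chk3 f_pm_022 t 4 7 1 = true :=
  ⟨(l 4), by decide +kernel⟩

def k8_pm_022 : ∃ t, chk3 f_pm_022 t 5 3 1 = true :=
  ⟨(b (l 1) (l 1)), by decide +kernel⟩

def k9_pm_022 : ∃ t, chk3 f_pm_022 t 3 1 1 = true :=
  ⟨(l 1), by decide +kernel⟩

theorem s10_pm_022 : ∃ t, chk3 f_pm_022 t 4 12 1 = true := ex3_a k4_pm_022 k5_pm_022

theorem s11_pm_022 : ∃ t, chk3 f_pm_022 t 4 6 1 = true := ex3_b s10_pm_022 k6_pm_022

theorem s12_pm_022 : ∃ t, chk3 f_pm_022 t 4 3 1 = true := ex3_b s11_pm_022 k7_pm_022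

theorem s13_pm_022 : ∃ t, chk3 f_pm_022 t 2 3 1 = true := ex3_a s12_pm_022 k8_pm_022

theorem s14_pm_022 : ∃ t, chk3 f_pm_022 t 8 2 1 = true := ex3_b k0_pm_022 k1_pm_022

theorem s15_pm_022 : ∃ t, chk3 f_pm_022 t 4 2 1 = true := ex3_a s14_pm_022 k2_pm_022

theorem s16_pm_022 : ∃ t, chk3 f_pm_022 t 2 2 1 = true := ex3_a s15_pm_022 k3_pm_022

theorem s17_pm_022 : ∃ t, chk3 f_pm_022 t 2 1 1 = true := ex3_b s16_pm_022 s13_pm_022

theorem s18_pm_022 : ∃ t, chk3 f_pm_022 t 1 1 1 = true := ex3_a s17_pm_022 k9_pm_022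

theorem c_pm_022 : CertNX 0 536870912 0 536870912 1046898278 26843546 3 false true false .pp 0 2 2
    ndN5q0 ndN0q2 pcN2 Cut.none Ext.none :=
  certNX0 (fam := false) (s1 := true) (s2 := false) (a := 0) (b := 2) (c := 2) (cn := .pp) (n1 := ndN5q0) (n2 := ndN0q2) (pc := pcN2) (cut := Cut.none) (xt := Ext.none) (P1 := 0) (W1 := 536870912) (P2 := 0) (W2 := 536870912) (P3 := 1046898278) (W3 := 26843546) (N0 := 3)
    rfl s18_pm_022

noncomputable def f_pm_101 : ℕ → ℕ → ℕ → ℕ → Bool := onCell 536870912 469762048 536870912 536870912 1046898278 26843546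
    (rowNX 3 0 false true false .npn 1 0 1 (qsf 536870912 469762048 536870912 536870912 0) ndN5q1 ndN0q1 pcN0 Cut.none Ext.none)

def k0_pm_101 : ∃ t, chk3 f_pm_101 t 1 1 1 = true :=
  ⟨(l 4), by decide +kernel⟩

theorem c_pm_101 : CertNX 536870912 469762048 536870912 536870912 1046898278 26843546 3 false true false .npn 1 0 1
    ndN5q1 ndN0q1 pcN0 Cut.none Ext.none :=
  certNX0 (fam := false) (s1 := true) (s2 := false) (a := 1) (b := 0) (c := 1) (cn := .npn) (n1 := ndN5q1) (n2 := ndN0q1) (pc := pcN0) (cut := Cut.none) (xt := Ext.none) (P1 := 536870912) (W1 := 469762048) (P2 := 536870912) (W2 := 536870912) (P3 := 1046898278) (W3 := 26843546) (N0 := 3)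
    rfl k0_pm_101

noncomputable def f_pm_102 : ℕ → ℕ → ℕ → ℕ → Bool := onCell 536870912 469762048 0 536870912 1046898278 26843546
    (rowNX 3 0 false true false .npp 1 0 2 (qsf 536870912 469762048 0 536870912 0) ndN5q1 ndN0q2 pcN0 Cut.none Ext.none)

def k0_pm_102 : ∃ t, chk3 f_pm_102 t 1 1 1 = true :=
  ⟨(b (a (a (l 2) (c (b (l 16777216) (l 16777216)) (b (l 16777216) (l 16777216)))) (a (a (b (l 16777216) (l 16777216)) (b (a (l 16576760) (l 15871072)) (a (l 16346072) (l 15871072)))) (a (b (a (l 15096576) (l 14301168)) (a (c (l 15125536) (l 15067560)) (l 14301168))) (b (a (c (l 13613112) (l 13501584)) (b (l 13696368) (l 13702184))) (a (b (l 13557320) (a (l 13684552) (l 13429064))) (b (l 13707984) (c (l 13755984) (l 13643064)))))))) (l 4)), by decide +kernel⟩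

theorem c_pm_102 : CertNX 536870912 469762048 0 536870912 1046898278 26843546 3 false true false .npp 1 0 2
    ndN5q1 ndN0q2 pcN0 Cut.none Ext.none :=
  certNX0 (fam := false) (s1 := true) (s2 := false) (a := 1) (b := 0) (c := 2) (cn := .npp) (n1 := ndN5q1) (n2 := ndN0q2) (pc := pcN0) (cut := Cut.none) (xt := Ext.none) (P1 := 536870912) (W1 := 469762048) (P2 := 0) (W2 := 536870912) (P3 := 1046898278) (W3 := 26843546) (N0 := 3)
    rfl k0_pm_102

noncomputable def f_pm_112 : ℕ → ℕ → ℕ → ℕ → Bool := onCell 536870912 469762048 0 536870912 1046898278 26843546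
    (rowNX 3 0 false true false .dn 1 1 2 (qsf 536870912 469762048 0 536870912 1) ndN5q1 ndN0q2 pcN1 Cut.none Ext.none)

def k0_pm_112 : ∃ t, chk3 f_pm_112 t 1 1 1 = true :=
  ⟨(a (b (a (b (b (l 16777216) (b (l 16777216) (l 16776480))) (c (l 16774536) (l 16774440))) (a (b (l 16777216) (l 16777216)) (l 1))) (l 4)) (l 1)), by decide +kernel⟩

theorem c_pm_112 : CertNX 536870912 469762048 0 536870912 1046898278 26843546 3 false true false .dn 1 1 2
    ndN5q1 ndN0q2 pcN1 Cut.none Ext.none :=
  certNX0 (fam := false) (s1 := true) (s2 := false) (a := 1) (b := 1) (c := 2) (cn := .dn) (n1 := ndN5q1) (n2 := ndN0q2) (pc := pcN1) (cut := Cut.none) (xt := Ext.none) (P1 := 536870912) (W1 := 469762048) (P2 := 0) (W2 := 536870912) (P3 := 1046898278) (W3 := 26843546) (N0 := 3)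
    rfl k0_pm_112

noncomputable def f_pm_202 : ℕ → ℕ → ℕ → ℕ → Bool := onCell 0 536870912 0 536870912 1046898278 26843546
    (rowNX 3 2 false true false .pp 2 0 2 (qsf 1073741824 536870912 0 536870912 0) ndN5q2 ndN0q2 pcN0 Cut.none Ext.none)

def k0_pm_202 : ∃ t, chk3 f_pm_202 t 4 2 1 = true :=
  ⟨(l 3), by decide +kernel⟩

def k1_pm_202 : ∃ t, chk3 f_pm_202 t 16 12 2 = true :=
  ⟨(l 3), by decide +kernel⟩

def k2_pm_202 : ∃ t, chk3 f_pm_202 t 16 26 2 = true :=
  ⟨(l 3), by decide +kernel⟩

def k3_pm_202 : ∃ t, chk3 f_pm_202 t 16 54 2 = true :=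
  ⟨(b (l 3) (a (b (l 3) (a (a (c (l 16066488) (l 16056384)) (c (l 16034648) (l 16024432))) (a (b (l 16002544) (l 16005152)) (c (l 15981648) (c (l 15976200) (l 15973896)))))) (a (a (b (l 3) (c (l 15956360) (l 15952016))) (c (b (l 15901976) (c (l 15933920) (l 15931984))) (b (l 15926136) (c (l 15932816) (l 15938928))))) (c (c (b (l 15872160) (l 15905176)) (b (l 15894832) (l 15906552))) (c (b (a (l 15906672) (l 15902656)) (a (l 15917840) (l 15913360))) (a (l 188607661991) (c (l 15934600) (b (a (l 15936528) (l 15894664)) (a (c (l 15947320) (l 15945480)) (c (l 15938136) (l 15914344))))))))))), by decide +kernel⟩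

def k4_pm_202 : ∃ t, chk3 f_pm_202 t 16 55 2 = true :=
  ⟨(c (b (a (a (a (l 16077632) (l 16038088)) (a (b (b (l 16009560) (l 16007208)) (a (l 16011632) (c (l 15998136) (l 15998064)))) (b (l 15986736) (a (l 15992728) (l 15988696))))) (a (b (a (b (l 15965416) (l 15971208)) (c (a (l 15953512) (l 15943672)) (b (l 15944560) (l 15951880)))) (a (l 15980160) (l 15963800))) (c (b (a (l 15930064) (l 15913080)) (l 15936928)) (b (a (l 15930600) (l 15914024)) (l 15937240))))) (a (a (a (l 16102336) (l 16062168)) (a (a (l 16023416) (c (l 16002168) (l 16005312))) (c (c (a (l 15994904) (l 15992176)) (l 15997672)) (l 16004416)))) (a (a (a (l 15976032) (c (l 15991936) (l 16000336))) (b (l 15979024) (c (l 15992928) (l 15997064)))) (a (l 15970600) (l 15951288))))) (a (a (a (b (l 16068568) (l 16096880)) (c (b (l 16030304) (l 16058816)) (a (l 16052248) (b (l 16017296) (l 16025264))))) (a (b (c (a (b (l 16009872) (l 16007984)) (l 16002048)) (l 16008072)) (c (a (l 16002144) (l 16016696)) (l 16031648))) (b (b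 (c (l 15985272) (l 15984984)) (a (l 16004752) (l 15997120))) (c (l 16013600) (a (l 16022792) (l 16016504)))))) (a (a (a (b (c (l 15976960) (l 15977312)) (b (l 16004912) (l 16020440))) (b (l 15967264) (l 16002952))) (b (c (l 15953024) (c (l 15953728) (l 15958704))) (b (l 15981336) (l 15996368)))) (c (b (b (a (c (l 15931000) (l 15933712)) (l 15926632)) (l 15944424)) (a (l 15970288) (l 15958208))) (a (b (l 15952544) (l 15978464)) (c (b (l 15949480) (l 15970776)) (b (b (a (c (l 15956288) (a (l 15960408) (l 15951752))) (c (a (l 15954104) (l 15943656)) (l 15925840))) (l 15950864)) (a (l 15975968) (l 15960400))))))))), by decide +kernel⟩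

def k5_pm_202 : ∃ t, chk3 f_pm_202 t 16 12 6 = true :=
  ⟨(l 3), by decide +kernel⟩

def k6_pm_202 : ∃ t, chk3 f_pm_202 t 16 26 6 = true :=
  ⟨(l 3), by decide +kernel⟩

def k7_pm_202 : ∃ t, chk3 f_pm_202 t 16 54 6 = true :=
  ⟨(b (l 3) (a (b (l 3) (a (a (a (l 16054912) (l 16038152)) (c (l 16019040) (l 16017720))) (c (a (l 195050226071) (l 15974736)) (a (a (l 16004272) (l 15991080)) (a (l 15986896) (c (l 15978064) (b (l 15983392) (l 15967080)))))))) (a (a (b (l 3) (c (l 15961880) (c (a (l 15979360) (c (l 15978120) (l 15969984))) (a (c (l 15978392) (l 15960936)) (c (l 15950296) (l 15940672)))))) (c (c (l 15952872) (b (l 199345082951) (a (l 15968416) (c (l 15965896) (l 15952416))))) (c (b (a (l 15946040) (l 15916240)) (a (c (l 15961320) (l 15939816)) (c (l 15929480) (l 15919896)))) (l 15922544)))) (c (a (b (c (a (l 15949144) (l 15932408)) (a (c (l 15934832) (l 15909200)) (l 15894968))) (c (a (l 15956792) (c (l 15952552) (l 15933856))) (a (c (l 15943256) (l 15919272)) (c (l 15909192) (l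 15899656))))) (c (a (c (l 15922728) (b (l 15888192) (l 15899240))) (b (l 15874240) (c (l 15889400) (l 15879896)))) (l 15882440))) (l 15888928))))), by decide +kernel⟩

def k8_pm_202 : ∃ t, chk3 f_pm_202 t 32 55 6 = true :=
  ⟨(a (a (a (b (l 16024232) (l 16102352)) (b (b (l 15979760) (c (l 16058408) (l 16058240))) (c (l 16091664) (a (l 16099376) (c (l 16094408) (b (l 16081136) (l 16108664))))))) (c (b (a (b (l 16025576) (l 16034224)) (l 16022176)) (a (l 16009832) (l 16051192))) (a (b (b (l 16029280) (l 16040248)) (c (l 16075680) (b (l 16062744) (l 16085840)))) (b (b (l 16026208) (l 16033720)) (b (l 16048016) (l 16063344)))))) (c (a (b (b (l 16004952) (l 15999928)) (a (l 16043208) (l 16041224))) (a (b (l 15999328) (l 16025448)) (l 15996536))) (c (a (b (l 16011968) (a (l 16047432) (l 16041632))) (b (l 15998224) (l 16022672))) (a (l 16021064) (a (l 16013232) (c (l 16008688) (a (l 16011752) (l 16003256)))))))), by decide +kernel⟩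

def k9_pm_202 : ∃ t, chk3 f_pm_202 t 33 55 6 = true :=
  ⟨(c (a (c (b (a (l 15974312) (l 15969216)) (l 15917248)) (a (b (l 15981424) (l 16006896)) (a (c (l 15988088) (a (l 15993552) (l 15991616))) (c (a (l 15988728) (b (l 15976944) (l 15994800))) (b (a (l 15974688) (l 15958320)) (l 15988160)))))) (a (b (b (c (a (c (l 15965632) (a (l 15971936) (l 15945872))) (c (a (l 15966344) (l 15959472)) (l 15944656))) (a (c (l 15953704) (a (l 15937712) (l 15925072))) (c (a (l 15927896) (l 15915272)) (l 15914176)))) (c (l 15964920) (a (l 15958432) (l 15932848)))) (c (a (l 15988592) (l 15975424)) (a (c (l 15979704) (l 15965608)) (l 15953144)))) (c (c (a (l 15926168) (b (b (a (l 15908496) (l 15895888)) (l 15916472)) (l 15936744))) (a (b (b (a (l 15918168) (l 15905552)) (l 15926024)) (l 15946080)) (l 15909688))) (l 15912408)))) (a (a (c (a (l 16000520) (c (l 15997712) (a (b (l 15990712) (l 16008688)) (l 15986872)))) (a (c (a (l 16005056) (l 15995168)) (b (a (l 15982240) (l 15969792)) (b (l 15997872) (l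 16009824)))) (c (b (a (l 15971832) (l 15959288)) (a (l 15997792) (l 15988880))) (l 15969856)))) (c (a (c (b (a (l 15982872) (l 15968280)) (l 15996048)) (b (a (l 15919576) (l 15906976)) (l 15921968))) (c (b (b (a (l 15905680) (l 15934960)) (l 15955288)) (l 15975536)) (l 15952304))) (l 15955104))) (b (l 15908112) (l 15948328)))), by decide +kernel⟩

def k10_pm_202 : ∃ t, chk3 f_pm_202 t 16 12 7 = true :=
  ⟨(l 3), by decide +kernel⟩

def k11_pm_202 : ∃ t, chk3 f_pm_202 t 16 26 7 = true :=
  ⟨(l 3), by decide +kernel⟩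

def k12_pm_202 : ∃ t, chk3 f_pm_202 t 16 27 14 = true :=
  ⟨(a (a (a (a (b (b (l 3) (a (l 16049256) (l 16039512))) (a (l 16083168) (b (b (c (l 16053224) (l 16049672)) (l 16076016)) (l 16058416)))) (b (l 16024088) (c (b (b (l 16040296) (a (l 16065408) (l 16054816))) (a (c (l 16096296) (l 16095392)) (c (l 16089312) (l 16084056)))) (a (b (b (b (l 16040344) (l 16047440)) (l 16027920)) (l 16071688)) (c (l 15992888) (l 16056880)))))) (a (b (l 216525100279) (c (b (a (l 16041224) (l 16038472)) (a (l 16074160) (l 16064048))) (l 16049432))) (a (b (l 217598820999) (l 16043504)) (c (l 204177060615) (c (l 206324544551) (l 207935131543)))))) (c (a (c (l 202566414023) (a (l 204177055655) (a (l 204177059351) (b (l 215451279303) (l 16020600))))) (a (c (a (l 202029545575) (b (l 213303777719) (l 15950376))) (c (a (l 203103247239) (b (l 214914390471) (l 15981024))) (b (l 215451233207) (b (l 15994688) (l 16019392))))) (c (c (a (l 201492641383) (b (l 212766884247) (l 15990048))) (b (l 213303726935) (a (l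 15994664) (l 15986448)))) (l 15912984)))) (a (c (c (a (l 205787668503) (a (l 205250761527) (b (l 15937000) (l 16010992)))) (a (b (l 218135656087) (l 16029944)) (b (l 217598738423) (b (l 16004120) (l 16036136))))) (a (c (a (l 207398263575) (b (l 15989808) (l 16020880))) (b (l 220283115703) (l 16001152))) (l 207398225031))) (b (l 15958600) (l 15993624))))) (b (l 213840468727) (b (l 15843632) (l 15957848)))), by decide +kernel⟩

def k13_pm_202 : ∃ t, chk3 f_pm_202 t 16 27 15 = true :=
  ⟨(b (b (l 3) (a (a (a (c (a (a (l 16045232) (l 16037616)) (c (l 16030224) (l 16010192))) (a (c (a (l 16043808) (l 16038224)) (a (c (l 16043328) (a (l 213840771543) (l 16040720))) (c (a (l 15996816) (l 16036760)) (l 16036808)))) (c (a (c (l 16033536) (l 220820076551)) (l 219746313847)) (l 16027808)))) (c (a (c (l 215988221863) (c (a (l 16026608) (l 16019648)) (l 218135677111))) (c (c (a (l 16019176) (l 15947464)) (a (l 15994080) (l 16005024))) (l 16006904))) (l 16010736))) (l 15977360)) (l 15899008))) (b (a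 (a (a (c (a (a (l 16067080) (a (l 16019520) (a (l 16058944) (l 16053904)))) (c (l 16048160) (l 16048864))) (a (c (a (l 16068848) (l 16058568)) (a (l 15966304) (l 15996112))) (a (c (c (l 16051632) (l 16051720)) (l 16050936)) (l 16044840)))) (c (a (c (l 16040136) (a (l 16000160) (l 16036880))) (c (a (l 16034216) (l 16028992)) (l 16027360))) (l 16030960))) (l 15992272)) (l 15920984)) (a (a (a (a (c (l 16111320) (l 16112536)) (c (l 16088008) (l 16094680))) (a (l 16073984) (l 16054176))) (l 16017504)) (l 15951536)))), by decide +kernel⟩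

def k14_pm_202 : ∃ t, chk3 f_pm_202 t 34 12 2 = true :=
  ⟨(l 3), by decide +kernel⟩

def k15_pm_202 : ∃ t, chk3 f_pm_202 t 34 26 2 = true :=
  ⟨(l 3), by decide +kernel⟩

def k16_pm_202 : ∃ t, chk3 f_pm_202 t 34 54 2 = true :=
  ⟨(b (l 3) (c (a (c (a (l 15853208) (b (c (l 15831352) (l 15839312)) (c (l 15844808) (l 15852064)))) (a (b (l 15879128) (l 15891104)) (l 15889384))) (c (b (l 187533808119) (l 15875744)) (a (c (l 15890272) (a (l 15904968) (c (l 15905328) (a (l 193439493831) (c (l 15908056) (l 15897880)))))) (c (a (l 15876144) (c (l 15875984) (a (c (l 15881032) (l 15897536)) (l 15886184)))) (a (c (a (c (l 15906560) (l 15904704)) (c (l 15901192) (l 15888528))) (l 15874600)) (l 15849104)))))) (a (a (a (c (l 15912384) (c (c (l 15933632) (b (l 15922176) (l 15930536))) (c (l 15899432) (b (l 15867744) (l 15879688))))) (c (b (l 15911664) (l 15920816)) (c (c (a (l 184312681495) (l 15911904)) (l 15889512)) (c (b (l 15857736) (l 15870096)) (l 15854144))))) (c (c (a (l 15912976) (c (l 15913272)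 (b (l 15912656) (l 15921024)))) (b (a (c (l 15918616) (l 15905600)) (l 15880368)) (a (c (l 15926832) (l 15914592)) (l 15890768)))) (c (a (c (l 15879728) (b (l 15847872) (l 15860616))) (c (a (l 185386254167) (l 188070597399)) (l 15834960))) (l 15837928)))) (c (a (c (a (c (a (l 15915576) (c (l 15914304) (l 15906728))) (l 15892808)) (l 15867488)) (a (c (l 15860568) (b (l 191291803575) (a (l 15847312) (l 15834240)))) (c (b (a (l 15824624) (l 15810952)) (a (l 15838152) (l 15825168))) (l 15816304)))) (c (a (c (l 15841936) (b (a (l 15815304) (l 15801752)) (a (l 15829112) (l 15816208)))) (c (b (a (l 15806144) (l 15792704)) (a (l 15820192) (l 15807368))) (l 15798192))) (l 15800736))) (l 15806064))))), by decide +kernel⟩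

def k17_pm_202 : ∃ t, chk3 f_pm_202 t 68 55 2 = true :=
  ⟨(b (c (c (a (l 15903032) (b (c (l 15859768) (l 15866192)) (b (c (l 15870232) (l 15876096)) (l 15902560)))) (a (b (c (l 15899736) (l 15908728)) (l 15918432)) (l 15912408))) (c (c (c (l 15925456) (a (l 15931432) (a (l 15935584) (a (l 15937472) (c (l 15936608) (l 15911320)))))) (b (a (a (l 15936088) (l 15937944)) (a (c (l 15935560) (l 15924232)) (l 15901760))) (a (l 15946080) (b (b (a (c (l 15940872) (l 15930080)) (l 15908576)) (l 15920912)) (l 15924824))))) (a (b (c (a (c (l 15946432) (a (l 15947440) (l 15935184))) (c (a (l 15940392) (l 15926320)) (l 15906800))) (a (c (l 15916304) (a (l 15898888) (l 15886280))) (c (a (l 15889320) (l 15876696)) (l 15875512)))) (c (l 15936640) (l 15908624))) (c (a (c (l 15903144) (a (a (l 15889536) (b (l 15875296) (l 15889152))) (b (l 15867112) (l 15818384)))) (c (b (a (l 15870376) (l 15857904)) (b (a (l 15880520) (l 15868520)) (l 15882848))) (l 15863960))) (l 15866680))))) (c (c (l 15927560) (l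 15937816)) (c (a (l 15955456) (c (l 15950104) (a (l 15950696) (l 15929208)))) (a (c (a (l 15963472) (l 15945008)) (a (l 15936912) (l 15915744))) (c (a (l 15919056) (l 15897648)) (l 15895928)))))), by decide +kernel⟩

def k18_pm_202 : ∃ t, chk3 f_pm_202 t 69 55 2 = true :=
  ⟨(c (c (b (b (l 15887504) (l 15898840)) (l 15916864)) (a (c (l 15918360) (a (l 15930512) (c (l 15929784) (b (a (b (l 15923128) (l 15931576)) (c (b (l 15920888) (l 15929304)) (l 15916488))) (l 15939896))))) (b (c (a (l 15915856) (c (a (l 15914848) (l 15915624)) (c (a (l 15898440) (l 15911904)) (b (l 15902080) (l 15911304))))) (a (c (a (c (l 15923872) (b (l 15917664) (l 15926160))) (b (l 15908008) (l 15917032))) (l 15895968)) (l 15873240))) (c (l 15929496) (l 15909176))))) (c (a (b (c (a (c (a (c (l 15931888) (l 15933984)) (c (l 15910248) (l 15924648))) (b (l 15907720) (l 15917512))) (l 15890456)) (a (c (l 15885224) (b (a (l 15861216) (l 15848800)) (b (a (l 15871440) (l 15859528)) (l 15873856)))) (c (b (a (l 15852176)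 (l 15839816)) (b (a (l 15862568) (l 15850728)) (l 15864976))) (l 15846168)))) (c (a (l 15937568) (l 15913000)) (a (l 15901520) (l 15879984)))) (c (b (a (c (l 15867712) (b (a (l 15843256) (l 15830944)) (b (a (l 15853856) (l 15842072)) (l 15856208)))) (c (b (a (l 15834440) (l 15822192)) (b (a (l 15845264) (l 15833512)) (l 15847552))) (l 15828800))) (a (l 15884344) (l 15862760))) (l 15839400))) (b (l 15836240) (l 15865576)))), by decide +kernel⟩

def k19_pm_202 : ∃ t, chk3 f_pm_202 t 35 12 2 = true :=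
  ⟨(l 3), by decide +kernel⟩

def k20_pm_202 : ∃ t, chk3 f_pm_202 t 35 26 2 = true :=
  ⟨(l 3), by decide +kernel⟩

def k21_pm_202 : ∃ t, chk3 f_pm_202 t 35 108 4 = true :=
  ⟨(b (l 3) (b (l 3) (a (a (l 3) (c (c (a (c (l 15867920) (l 193976324631)) (c (a (l 15870840) (l 15844216)) (l 15848928))) (l 194513061767)) (c (a (c (l 15791600) (l 15765544)) (c (l 196660458903) (l 15746376))) (l 15748832)))) (c (a (c (l 15802528) (a (c (l 15773448) (a (l 15731944) (l 15718536))) (c (a (l 15723160) (l 15709872)) (l 15728776)))) (c (a (c (l 15755984) (c (b (l 15711072) (l 15713776)) (l 195049771127))) (c (a (b (l 15705896) (l 15707688)) (c (a (c (l 15721400) (l 15715000)) (c (l 15712960) (l 15710456))) (l 15710936))) (l 15711912))) (l 15713928))) (l 15718176))))), by decide +kernel⟩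

def k22_pm_202 : ∃ t, chk3 f_pm_202 t 35 109 4 = true :=
  ⟨(a (c (a (c (l 15875688) (a (a (l 15888640) (b (l 192365723735) (l 15873224))) (c (a (l 15889144) (b (l 15862256) (l 15871152))) (a (b (l 15880600) (l 15889712)) (l 15869056))))) (c (a (c (l 15878600) (c (l 15863312) (a (l 15887368) (b (l 15855776) (l 15864800))))) (c (a (l 15860312) (c (a (l 15881760) (l 15859408)) (l 15852984))) (b (l 15855552) (l 15865576)))) (a (a (c (b (l 15852304) (l 15882600)) (l 15848592)) (l 15844184)) (l 15813728)))) (a (c (a (c (a (c (l 15875848) (l 15889776)) (l 15877792)) (l 15856216)) (l 15831136)) (a (c (l 15823848) (a (c (l 15809816) (l 15797360)) (c (l 15792968) (l 15788144)))) (c (a (c (l 15801024) (l 15788616)) (c (l 15784296) (l 15779488))) (l 15780624)))) (c (a (c (l 15806312) (a (c (l 15792368) (l 15780016)) (c (l 15775768) (l 15770960)))) (c (a (b (l 15771032) (l 15785688)) (b (l 15737072) (l 15752216))) (l 15763600))) (l 15765728)))) (c (a (c (b (l 15789728) (l 15822720)) (a (c (l 15789296)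 (b (c (a (l 15768248) (l 15730552)) (l 15730816)) (a (l 15777352) (l 15743960)))) (c (a (c (l 15767152) (b (l 15726432) (l 15741608))) (c (b (l 15722336) (l 15737552)) (l 15746096))) (l 15747056)))) (c (a (c (l 15772760) (a (c (l 15758984) (b (l 15718264) (l 15733520))) (c (b (l 15714232) (l 15729520)) (l 15738040)))) (c (a (c (l 15750928) (b (l 15710224) (l 15725552))) (c (a (l 15716376) (c (l 15711072) (l 15729664))) (l 15730096))) (l 15730976))) (l 15732760))) (l 15736464))), by decide +kernel⟩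

def k23_pm_202 : ∃ t, chk3 f_pm_202 t 35 54 5 = true :=
  ⟨(b (a (l 206861010247) (l 15700512)) (c (l 15748872) (l 15740376))), by decide +kernel⟩

def k24_pm_202 : ∃ t, chk3 f_pm_202 t 35 55 8 = true :=
  ⟨(c (a (a (l 15902680) (b (a (c (l 15897768) (a (l 15882712) (c (l 15882272) (b (l 15873824) (l 15903840))))) (c (a (l 15878632) (c (l 15877664) (l 15892808))) (b (l 15875592) (l 15885696)))) (a (l 15895792) (l 15905232)))) (a (b (b (l 15834744) (l 15847024)) (l 15864760)) (a (b (c (l 15801336) (a (c (l 15789144) (b (l 15748776) (l 15764504))) (c (b (l 15744816) (l 15760608)) (l 15769936)))) (l 15819520)) (c (b (a (c (l 15781192) (b (l 15740880) (l 15756728))) (c (a (l 15747696) (l 15741920)) (l 15762016))) (l 15801136)) (l 15756032))))) (a (a (b (b (a (l 15902576) (c (a (l 15902632) (l 15880048)) (a (l 15898848) (l 15884008)))) (b (a (l 15909624) (c (l 15907872) (a (l 15905808) (l 15891576)))) (l 15907136))) (a (l 15925632) (l 15916968))) (b (a (c (b (l 15883144) (b (l 15890576) (l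 15895336))) (l 15862056)) (l 15839704)) (l 15879760))) (a (b (a (c (l 15817424) (a (c (l 15805272) (b (l 15764912) (l 15801248))) (c (b (l 15760832) (l 15797280)) (l 15786000)))) (c (a (c (l 15797168) (b (l 15756784) (l 15793328))) (c (b (l 15752768) (l 15768424)) (l 15777936))) (l 15778952))) (a (l 15835128) (l 15813664))) (b (l 15764944) (l 15794992))))), by decide +kernel⟩

def k25_pm_202 : ∃ t, chk3 f_pm_202 t 35 55 9 = true :=
  ⟨(a (a (c (b (a (c (a (c (l 15914424) (l 15908224)) (l 15897528)) (l 15878832)) (l 15856296)) (l 15894568)) (b (a (c (l 15850584) (b (a (l 15825744) (l 15813560)) (b (a (l 15836744) (l 15825000)) (l 15839000)))) (c (b (a (l 15817160) (l 15805032)) (b (a (l 15828248) (l 15816480)) (l 15830560))) (l 15811832))) (a (l 15867544) (l 15845960)))) (c (b (a (c (l 15833832) (a (c (l 15821720) (b (l 15802464) (l 15817384))) (c (b (l 15777304) (l 15813312)) (l 15802384)))) (c (a (c (l 15813456) (b (l 15773144) (l 15809264))) (c (b (l 15769016) (l 15805248)) (l 15794152)))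 (l 15795224))) (a (l 15851136) (l 15829600))) (b (l 15797392) (l 15826872)))) (b (l 15768896) (l 15798632))), by decide +kernel⟩

def k26_pm_202 : ∃ t, chk3 f_pm_202 t 35 55 5 = true :=
  ⟨(b (c (l 15781280) (l 15773016)) (l 15806456)), by decide +kernel⟩

def k27_pm_202 : ∃ t, chk3 f_pm_202 t 17 6 3 = true :=
  ⟨(b (l 3) (b (l 3) (a (c (b (c (a (l 198808025895) (l 202566043127)) (l 206860983351)) (b (a (a (l 15879944) (l 15857552)) (l 15824712)) (l 15876744))) (b (l 215450894919) (b (l 15828920) (l 15861600)))) (b (b (l 214377000983) (c (l 15727512) (l 15710176))) (b (c (l 15760504) (l 15743648)) (l 15782064)))))), by decide +kernel⟩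

def k28_pm_202 : ∃ t, chk3 f_pm_202 t 16 28 4 = true :=
  ⟨(a (a (a (b (b (l 16129024) (l 16161272)) (b (l 16188496) (l 16223208))) (b (l 16124920) (c (l 16207880) (l 16106480)))) (a (a (b (l 15994256) (c (l 16205704) (b (l 16190648) (l 16234136)))) (b (c (l 16075368) (c (l 16078000) (l 16080008))) (c (c (l 16191760) (l 16094552)) (b (l 16166192) (c (l 16204560) (l 16216824)))))) (b (c (b (a (l 16026072) (l 16015376)) (l 16071448)) (b (l 16030272) (l 16074280))) (b (c (l 16124208) (l 16117760)) (c (l 16053176) (l 16142952)))))) (a (b (a (b (c (l 16015360) (l 16028856)) (c (l 16044872) (l 16052264))) (c (a (l 16028008) (b (l 16014112) (l 16041240))) (a (l 16016064) (l 16033800)))) (a (c (l 16096016) (c (l 16087992) (l 16081656))) (c (l 16065440) (l 16063112)))) (a (b (b (c (l 16000848) (l 15999464)) (l 16011504)) (a (l 16057520) (l 16045408))) (b (b (l 15981576) (l 16012584)) (l 16038912))))), by decide +kernel⟩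

def k29_pm_202 : ∃ t, chk3 f_pm_202 t 16 28 5 = true :=
  ⟨(c (a (b (a (b (a (l 16128992) (l 16107608)) (a (l 16160096) (l 16160648))) (a (a (c (l 16105528) (l 16106920)) (l 16081560)) (b (l 16039984) (l 16072840)))) (b (a (a (l 16197704) (l 16199144)) (a (a (c (l 16153416) (l 16063752)) (l 16157968)) (l 16105656))) (a (l 16244464) (a (a (c (l 16239832) (l 16235256)) (l 16196216)) (l 15989016))))) (a (a (b (b (l 15995088) (l 16055512)) (a (c (l 16083184) (l 16076768)) (l 16070664))) (l 16024768)) (b (b (a (l 15997312) (l 15983584)) (l 16023360)) (l 16044264)))) (b (a (a (a (b (l 16131496) (l 16163800)) (b (a (l 16122616) (l 16103696)) (a (l 16166672) (c (l 16163552) (a (l 16168224) (l 16155944)))))) (a (b (l 16069160) (b (l 16100664) (l 16067160))) (b (a (l 16048896) (l 16044904)) (a (l 16072648) (l 16061864))))) (a (l 16038608) (a (b (l 16000008) (l 16025368)) (c (l 15995240) (b (a (b (l 15989680) (l 15998512)) (c (l 15987328) (l 15975816))) (l 16005920)))))) (a (a (a (l 16231648) (a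 (l 16233928) (b (c (l 16165080) (l 16206688)) (l 16248984)))) (a (b (c (l 16157416) (l 16143720)) (l 16195680)) (a (c (l 16117704) (l 16084576)) (a (l 16051512) (l 16086912))))) (a (l 16081280) (c (l 16044696) (b (l 16032240) (l 16070600))))))), by decide +kernel⟩

def k30_pm_202 : ∃ t, chk3 f_pm_202 t 16 29 2 = true :=
  ⟨(a (a (c (l 16299216) (c (l 16399776) (a (l 16410768) (a (l 16411064) (b (l 16329048) (l 16438392)))))) (a (c (c (b (b (a (l 16270352) (c (l 16270280) (l 16273040))) (l 16342360)) (l 16455152)) (a (l 16328080) (a (l 16195376) (l 16368320)))) (c (b (l 16149640) (l 16299320)) (l 16350408))) (c (b (c (c (b (a (l 16256568) (l 16217296)) (l 16137112)) (b (l 16223704) (l 16295048))) (b (l 16118152) (l 16275064))) (l 16316376)) (c (l 16288224) (b (l 16159064) (l 16289520)))))) (a (c (a (b (a (c (l 16076032) (l 16068472)) (c (l 16144552) (b (l 16107720) (l 16167152)))) (l 16315920)) (c (b (b (l 16092424) (a (l 16155104) (l 16125000))) (c (l 16245584) (l 16238992))) (b (a (c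 (l 16090168) (l 16109120)) (l 16102616)) (l 16244480)))) (c (a (b (a (c (l 16154872) (l 16152720)) (l 16134080)) (l 16276168)) (l 16170904)) (l 16078264))) (c (c (a (b (l 16091568) (c (l 16085144) (l 16199104))) (l 16078224)) (b (l 16101528) (l 16213408))) (b (c (l 16113208) (a (l 16128176) (l 16119712))) (l 16122856))))), by decide +kernel⟩

def k31_pm_202 : ∃ t, chk3 f_pm_202 t 16 15 2 = true :=
  ⟨(a (a (b (c (b (l 16579664) (b (l 16611824) (l 16622256))) (c (b (l 16616800) (l 16650616)) (a (l 16658200) (a (l 16653336) (b (l 16599216) (l 16662024)))))) (b (c (l 16654176) (b (c (l 16653008) (a (l 16678448) (a (l 16674408) (b (l 16671208) (l 16662576))))) (l 16687072))) (l 16697144))) (b (c (a (b (a (l 16557800) (c (l 16557224) (l 16586648))) (c (b (l 16598856) (l 16584440)) (a (l 16625576) (b (l 16617976) (l 16605720))))) (b (b (l 16473744) (l 16515800)) (c (b (l 16555392) (l 16519680)) (l 16526680)))) (a (c (a (b (l 16603560) (c (l 16633552) (l 16642584))) (l 16411152)) (l 16586744))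 (c (b (l 16502920) (l 16530976)) (b (l 16303696) (l 16428336))))) (b (c (b (a (a (l 16642664) (c (l 16645352) (l 16627304))) (l 16531720)) (a (l 16662792) (a (l 16629240) (l 16586392)))) (a (b (c (a (b (l 16633224) (l 16639368)) (l 16604024)) (l 16611432)) (l 16637392)) (c (l 16433776) (a (b (l 16488792) (l 16522360)) (b (l 16436464) (l 16407776)))))) (a (c (l 16672816) (l 16657112)) (l 1))))) (a (b (a (c (b (l 16203272) (c (l 16476768) (l 16316072))) (c (b (l 16309984) (a (l 16347552) (l 16428552))) (l 16473664))) (c (b (c (l 16242064) (l 16339872)) (c (b (l 16346408) (l 16395000)) (b (l 16413496) (c (l 16390440) (l 16405872))))) (b (l 16420544) (l 16449440)))) (b (b (c (a (l 16498752) (c (l 16435328) (l 16422416))) (c (a (a (l 16439504) (l 16457384)) (l 16439920)) (l 16486912))) (l 1)) (l 1))) (b (c (b (b (l 16316360) (l 16357984)) (c (b (c (l 16316264) (l 16339912)) (l 16314048)) (l 16371128))) (b (l 16394344) (l 16421328))) (l 1)))), by decide +kernel⟩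

def k32_pm_202 : ∃ t, chk3 f_pm_202 t 32 14 3 = true :=
  ⟨(b (a (c (b (b (a (a (l 16128672) (c (c (l 16132864) (l 16134688)) (c (l 16125488) (l 16144376)))) (c (a (c (l 16130592) (a (l 16135432) (l 16085528))) (c (l 16106240) (l 16101408))) (a (c (a (b (l 16124104) (l 16148056)) (l 16116760)) (l 16063856)) (c (l 16086840) (l 16079832))))) (a (l 16181072) (c (a (c (l 16173096) (l 16176392)) (c (c (l 16155704) (l 16149752)) (l 16139800))) (l 16086040)))) (a (l 16246440) (c (a (l 16239536) (l 16213200)) (a (l 16229688) (l 16192072))))) (a (c (a (l 16217808) (c (l 16206400) (l 16159456))) (a (c (l 16116440) (c (l 16117784) (l 16160560))) (c (l 16199656) (l 16204424)))) (c (a (a (l 16179232) (l 16101872)) (l 16150864)) (l 16175880)))) (b (c (a (c (a (b (l 16075768) (c (l 16113744) (l 16099512))) (c (b (l 16060544) (l 16081392)) (l 16069632))) (c (a (l 16081440) (l 16072464)) (l 16082176))) (c (l 16054888) (l 15952872))) (c (a (l 16091816) (c (a (l 16064008) (l 16053056)) (l 16056032))) (l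 16069784))) (c (a (c (a (l 16170392) (c (l 16130064) (l 16133472))) (l 16158872)) (c (l 16109136) (l 16130608))) (l 16165456)))) (a (c (a (b (l 16308640) (a (l 16506672) (l 16441304))) (c (a (b (l 16342208) (l 16453232)) (l 16328120)) (a (l 16241680) (l 16204128)))) (a (c (a (l 16361136) (b (a (l 16359832) (l 16347968)) (a (l 16473848) (l 16440856)))) (a (c (b (l 16309008) (a (l 16533944) (l 16483880))) (a (b (l 16295016) (c (l 16536424) (l 16537688))) (l 16341008))) (c (l 16322304) (l 16411504)))) (c (b (l 16210000) (l 16344520)) (l 16318408)))) (c (a (c (a (l 16348488) (l 16104096)) (c (l 16164064) (l 16342000))) (l 16047712)) (c (l 16155008) (l 16348280))))), by decide +kernel⟩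

def k33_pm_202 : ∃ t, chk3 f_pm_202 t 33 14 3 = true :=
  ⟨(a (b (c (c (b (c (l 16037816) (a (l 16041704) (l 16032488))) (l 16091864)) (b (a (c (l 16045544) (b (a (l 16035360) (l 16027480)) (l 16067760))) (c (a (c (l 16033560) (l 16029968)) (l 16024248)) (l 16022280))) (a (l 16087048) (l 16026336)))) (b (c (l 16008968) (l 16020712)) (l 16097776))) (c (c (l 16257688) (l 16130544)) (l 16259008))) (b (c (c (b (b (a (b (c (a (l 16001656) (l 15990168)) (a (c (l 15994528) (l 15984160)) (l 15973240))) (l 16000440)) (c (a (c (l 15983624) (l 15972288)) (c (l 15963864) (l 15958800))) (l 15961512))) (a (c (l 16021568) (a (l 16021616) (l 16009016))) (l 15933648))) (b (a (a (l 16052776) (c (l 16040888) (l 16039096))) (c (a (l 16029904) (l 16019168)) (l 16021560))) (a (l 16084272) (l 16074552)))) (b (b (l 15964208) (l 16009504)) (b (l 16006816) (l 16072632)))) (b (b (l 15954368) (l 15997896)) (b (l 16014224) (l 16059120)))) (c (b (c (a (b (l 16069064) (l 16191824)) (c (l 15999440) (l 16124232))) (l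 16135808)) (l 16293632)) (l 16214368)))), by decide +kernel⟩

def k34_pm_202 : ∃ t, chk3 f_pm_202 t 32 15 3 = true :=
  ⟨(b (a (c (a (b (l 16543448) (c (l 16688160) (l 16615648))) (a (c (b (l 16636592) (l 16681144)) (b (l 16630280) (l 16675216))) (c (l 16568456) (b (l 16592792) (l 16635688))))) (a (c (a (b (l 16668896) (l 16713456)) (b (a (l 16659960) (l 16584864)) (a (l 16705152) (l 16651208)))) (a (c (b (l 16506712) (a (l 16710840) (l 16715928))) (b (c (l 16488160) (l 16531664)) (a (c (l 16708016) (l 16706496)) (l 16716464)))) (c (b (l 16651576) (l 16697288)) (l 16684368)))) (c (a (b (l 16560008) (l 16668264)) (l 16623616)) (b (l 16626016) (l 16671280))))) (c (a (c (b (a (l 16567312) (l 16469704)) (l 16550856)) (a (b (l 16565080) (l 16585576)) (l 16569464))) (b (l 16475608) (l 16557888))) (c (b (l 16543032) (l 16583320)) (l 16547640)))) (a (b (a (c (b (l 16708816) (l 16712360)) (c (l 16724688) (a (l 16741304) (l 16718192)))) (c (b (a (l 16689920) (c (l 16665696) (l 16649840))) (c (l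 16679184) (l 16681536))) (c (a (l 16687512) (l 16662504)) (l 16686600)))) (c (b (c (l 16580616) (a (l 16733704) (c (l 16689456) (l 16689912)))) (a (l 16739248) (l 568579346839))) (c (a (b (a (l 16749088) (l 16731144)) (a (l 16758288) (l 16740088))) (b (l 16691696) (l 16679464))) (a (a (b (l 16755936) (c (l 16764688) (l 16768952))) (c (l 16614544) (l 16745528))) (b (l 16703536) (l 16713728)))))) (b (c (a (b (c (a (l 16624624) (l 16550032)) (l 16616264)) (c (l 16609832) (l 16624512))) (c (b (l 16564352) (b (l 16535360) (l 16560360))) (l 16591984))) (c (a (l 16639152) (l 16589200)) (l 16628944))) (b (c (c (l 16520688) (b (l 16547400) (l 1))) (l 954589683271)) (l 1))))), by decide +kernel⟩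

def k35_pm_202 : ∃ t, chk3 f_pm_202 t 33 15 3 = true :=
  ⟨(b (c (a (b (l 16335152) (l 16457600)) (b (l 16304760) (l 16425024))) (b (l 16422648) (l 16439160))) (a (b (b (c (l 16493704) (l 16551376)) (l 1)) (l 1)) (l 1))), by decide +kernel⟩

def k36_pm_202 : ∃ t, chk3 f_pm_202 t 17 56 1 = true :=
  ⟨(c (a (a (a (b (c (c (l 15964848) (l 15967224)) (c (l 15977048) (c (a (c (l 15985336) (l 15981040)) (l 15966808)) (a (c (l 15967984) (l 15955528)) (l 15923880))))) (c (l 15994160) (c (l 15997376) (l 15966736)))) (c (c (b (l 15949520) (l 15975776)) (l 15971032)) (c (c (b (l 15969296) (l 15924224)) (c (a (l 15982920) (l 15970112)) (b (l 15955328) (l 15975840)))) (c (b (a (l 15945248) (l 15926152)) (b (a (l 15963480) (l 15947192)) (l 15970248))) (l 15940184))))) (c (c (b (l 15940384) (l 15964144)) (a (a (l 15968352) (b (l 15954816) (b (l 15969600) (l 15978728)))) (c (a (l 15962776) (c (l 15959984) (l 15955920))) (a (c (l 15940792) (l 15949496)) (l 15933168))))) (c (a (a (b (c (l 15956816) (l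 15927824)) (b (c (l 15971448) (l 15947872)) (l 15971824))) (c (l 15948360) (c (a (l 15930760) (l 15922072)) (l 15921656)))) (c (a (c (l 15932352) (b (l 15902808) (l 15932152))) (c (l 15868616) (l 15904760))) (l 15907704))) (b (l 15895536) (l 15925856))))) (c (a (c (a (c (l 15946600) (a (l 15953648) (c (l 15950296) (l 15943160)))) (c (a (l 15944416) (c (l 15940904) (l 15930536))) (l 15914656))) (a (c (a (l 15899560) (l 15916760)) (a (c (l 15915952) (l 15901728)) (l 15827336))) (c (a (c (l 15899632) (l 15884664)) (l 15832456)) (l 15872568)))) (c (a (c (l 15900680) (a (c (l 15884520) (l 15869080)) (l 15796032))) (c (a (c (l 15869728) (l 15853896)) (a (l 15846872) (l 15839344))) (l 15841488))) (l 15845024))) (a (l 15875320) (l 15833176)))) (a (a (c (b (l 15929800) (l 15955344)) (l 15927032)) (b (l 15877232) (l 15908040))) (a (l 15852248) (l 15809080)))), by decide +kernel⟩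

def k37_pm_202 : ∃ t, chk3 f_pm_202 t 17 57 1 = true :=
  ⟨(a (c (c (a (c (l 16004864) (l 16024904)) (a (l 15962928) (c (l 15994400) (l 15989360)))) (a (c (a (l 16028280) (b (l 16002424) (l 16025184))) (a (c (b (l 16014776) (l 16038240)) (b (l 16008352) (l 15994096))) (b (l 15987584) (c (l 16019168) (l 16015480))))) (a (c (c (l 15999568) (l 15989216)) (l 15997976)) (c (l 15969472) (l 15960040))))) (c (c (a (l 16013824) (l 15992080)) (a (l 15967096) (l 15981640))) (a (c (l 15998640) (l 15988760)) (l 15968816)))) (c (c (c (a (b (a (c (l 15975584) (b (a (l 15976272) (l 15968840)) (l 15981104))) (c (a (l 15971960) (l 15942464)) (l 15949360))) (l 15984912)) (a (c (l 15947624) (b (a (l 15920672) (l 15905520)) (l 15942592))) (c (a (b (l 15906968) (l 15934728)) (c (a (l 15910360) (l 15882120)) (l 15902208))) (l 15903488)))) (a (b (a (b (c (l 15956496) (a (l 15942672) (l 15926920))) (l 15962672)) (c (a (b (l 15928096) (l 15941936)) (l 15919136)) (l 15917816))) (a (l 15980784) (l 15953744))) (l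 15906096))) (a (l 15931648) (l 15894904))) (a (l 15909584) (l 15872128)))), by decide +kernel⟩

def k38_pm_202 : ∃ t, chk3 f_pm_202 t 17 29 1 = true :=
  ⟨(a (b (c (c (a (l 16085288) (c (l 16053656) (a (l 16065472) (b (l 16025920) (l 16078048))))) (b (a (a (l 16072080) (l 16054720)) (c (a (c (l 16036568) (l 16033600)) (l 16017544)) (l 16020296))) (a (c (l 16117368) (a (l 16140528) (l 16122960))) (a (l 16096184) (a (l 16080280) (l 16067272)))))) (a (c (c (l 16039520) (l 16089920)) (l 16078656)) (b (c (l 16014568) (l 16000224)) (c (l 15961904) (l 16054128))))) (c (c (a (c (l 16183976) (l 16196048)) (a (l 16184424) (l 16173456))) (a (c (b (l 16184112) (l 16213800)) (b (a (l 16132960) (l 16190496)) (l 16276088))) (c (b (l 16156824) (a (l 16236712) (l 1))) (a (l 16195992) (l 16180800))))) (c (a (l 16142720) (l 16072880)) (l 16177784)))) (b (b (c (c (a (c (l 16009320) (a (l 16007672) (l 15985712))) (c (a (l 15983688) (l 1)) (l 15956560))) (l 15963856)) (l 15942664)) (a (c (c (c (a (l 16066480)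 (l 16053608)) (a (c (l 16062752) (l 16059472)) (l 16044760))) (l 16045096)) (c (l 16036304) (l 16021520))) (l 1))) (a (a (b (c (c (l 16127216) (l 16123904)) (l 16106632)) (l 1)) (l 1)) (l 1)))), by decide +kernel⟩

def k39_pm_202 : ∃ t, chk3 f_pm_202 t 17 15 1 = true :=
  ⟨(a (b (a (b (c (c (b (l 16289112) (l 16328584)) (l 16234760)) (l 16352336)) (l 1)) (l 1)) (l 1)) (l 1)), by decide +kernel⟩

def k40_pm_202 : ∃ t, chk3 f_pm_202 t 9 3 1 = true :=
  ⟨(b (b (l 3) (b (a (l 3) (a (l 3) (l 1))) (a (b (a (b (b (l 3) (c (a (c (a (c (b (l 15690552) (l 15696624)) (l 15663808)) (b (l 202565923879) (l 15676464))) (l 208471480647)) (c (a (a (b (l 207934606791) (l 15666880)) (l 15643112)) (l 185922857159)) (a (a (l 15618360) (l 15645112)) (l 15671040)))) (a (c (l 15643136) (l 15624112)) (c (a (l 15623264) (l 15652208)) (l 15619024))))) (c (a (c (a (c (l 15703504) (l 15694664)) (c (l 15703936) (l 15716000))) (b (l 15687448) (l 15717016))) (c (a (a (l 15721584) (l 15731712)) (l 15758080)) (a (l 15708736)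 (l 15740664)))) (a (c (l 15684056) (l 15665680)) (a (c (l 15690600) (l 15672216)) (l 15714056))))) (a (c (b (b (c (l 188070391047) (l 15696184)) (c (a (l 15723648) (l 15758152)) (l 15723216))) (c (l 15789584) (l 15793952))) (b (b (l 15668352) (l 15696048)) (l 15768592))) (l 1))) (a (a (c (b (c (a (b (l 15732968) (l 15777456)) (l 15791960)) (b (l 15746584) (l 15777632))) (a (c (l 15809088) (l 15792648)) (c (l 15814664) (l 15840944)))) (b (b (l 15720336) (l 15752136)) (a (l 15767504) (l 15816976)))) (a (c (b (c (a (l 15809184) (l 15824256)) (l 15800376)) (b (c (a (l 15871376) (l 15890696)) (l 15865488)) (l 15917040))) (b (l 15775352) (a (l 15852168) (l 15874232)))) (b (c (c (l 15850768) (l 15834936)) (l 15810720)) (l 1)))) (l 1))) (l 1)))) (a (b (b (a (b (c (a (c (a (l 15873192) (l 15953744)) (l 15836744)) (c (b (l 16016968) (l 1)) (l 15987408))) (a (a (l 15834080) (l 15918088)) (l 192231430167))) (a (a (b (c (l 15930424) (l 15900936)) (l 1)) (l 1)) (l 1))) (l 1)) (l 1)) (l 1)) (l 1))),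 by decide +kernel⟩

def k41_pm_202 : ∃ t, chk3 f_pm_202 t 5 1 1 = true :=
  ⟨(b (l 3) (b (l 1) (l 1))), by decide +kernel⟩

def k42_pm_202 : ∃ t, chk3 f_pm_202 t 3 1 1 = true :=
  ⟨(l 1), by decide +kernel⟩

theorem s43_pm_202 : ∃ t, chk3 f_pm_202 t 17 28 1 = true := ex3_b k36_pm_202 k37_pm_202

theorem s44_pm_202 : ∃ t, chk3 f_pm_202 t 17 14 1 = true := ex3_b s43_pm_202 k38_pm_202

theorem s45_pm_202 : ∃ t, chk3 f_pm_202 t 17 7 1 = true := ex3_b s44_pm_202 k39_pm_202

theorem s46_pm_202 : ∃ t, chk3 f_pm_202 t 16 15 3 = true := ex3_a k34_pm_202 k35_pm_202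

theorem s47_pm_202 : ∃ t, chk3 f_pm_202 t 16 14 3 = true := ex3_a k32_pm_202 k33_pm_202

theorem s48_pm_202 : ∃ t, chk3 f_pm_202 t 16 7 3 = true := ex3_b s47_pm_202 s46_pm_202

theorem s49_pm_202 : ∃ t, chk3 f_pm_202 t 16 28 2 = true := ex3_c k28_pm_202 k29_pm_202

theorem s50_pm_202 : ∃ t, chk3 f_pm_202 t 16 14 2 = true := ex3_b s49_pm_202 k30_pm_202

theorem s51_pm_202 : ∃ t, chk3 f_pm_202 t 16 7 2 = true := ex3_b s50_pm_202 k31_pm_202

theorem s52_pm_202 : ∃ t, chk3 f_pm_202 t 16 7 1 = true := ex3_c s51_pm_202 s48_pm_202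

theorem s53_pm_202 : ∃ t, chk3 f_pm_202 t 8 7 1 = true := ex3_a s52_pm_202 s45_pm_202

theorem s54_pm_202 : ∃ t, chk3 f_pm_202 t 35 55 4 = true := ex3_c k24_pm_202 k25_pm_202

theorem s55_pm_202 : ∃ t, chk3 f_pm_202 t 35 55 2 = true := ex3_c s54_pm_202 k26_pm_202

theorem s56_pm_202 : ∃ t, chk3 f_pm_202 t 35 54 4 = true := ex3_b k21_pm_202 k22_pm_202

theorem s57_pm_202 : ∃ t, chk3 f_pm_202 t 35 54 2 = true := ex3_c s56_pm_202 k23_pm_202

theorem s58_pm_202 : ∃ t, chk3 f_pm_202 t 35 27 2 = true := ex3_b s57_pm_202 s55_pm_202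

theorem s59_pm_202 : ∃ t, chk3 f_pm_202 t 35 13 2 = true := ex3_b k20_pm_202 s58_pm_202

theorem s60_pm_202 : ∃ t, chk3 f_pm_202 t 35 6 2 = true := ex3_b k19_pm_202 s59_pm_202

theorem s61_pm_202 : ∃ t, chk3 f_pm_202 t 34 55 2 = true := ex3_a k17_pm_202 k18_pm_202

theorem s62_pm_202 : ∃ t, chk3 f_pm_202 t 34 27 2 = true := ex3_b k16_pm_202 s61_pm_202

theorem s63_pm_202 : ∃ t, chk3 f_pm_202 t 34 13 2 = true := ex3_b k15_pm_202 s62_pm_202

theorem s64_pm_202 : ∃ t, chk3 f_pm_202 t 34 6 2 = true := ex3_b k14_pm_202 s63_pm_202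

theorem s65_pm_202 : ∃ t, chk3 f_pm_202 t 17 6 2 = true := ex3_a s64_pm_202 s60_pm_202

theorem s66_pm_202 : ∃ t, chk3 f_pm_202 t 17 6 1 = true := ex3_c s65_pm_202 k27_pm_202

theorem s67_pm_202 : ∃ t, chk3 f_pm_202 t 16 27 7 = true := ex3_c k12_pm_202 k13_pm_202

theorem s68_pm_202 : ∃ t, chk3 f_pm_202 t 16 13 7 = true := ex3_b k11_pm_202 s67_pm_202

theorem s69_pm_202 : ∃ t, chk3 f_pm_202 t 16 6 7 = true := ex3_b k10_pm_202 s68_pm_202

theorem s70_pm_202 : ∃ t, chk3 f_pm_202 t 16 55 6 = true := ex3_a k8_pm_202 k9_pm_202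

theorem s71_pm_202 : ∃ t, chk3 f_pm_202 t 16 27 6 = true := ex3_b k7_pm_202 s70_pm_202

theorem s72_pm_202 : ∃ t, chk3 f_pm_202 t 16 13 6 = true := ex3_b k6_pm_202 s71_pm_202

theorem s73_pm_202 : ∃ t, chk3 f_pm_202 t 16 6 6 = true := ex3_b k5_pm_202 s72_pm_202

theorem s74_pm_202 : ∃ t, chk3 f_pm_202 t 16 6 3 = true := ex3_c s73_pm_202 s69_pm_202

theorem s75_pm_202 : ∃ t, chk3 f_pm_202 t 16 27 2 = true := ex3_b k3_pm_202 k4_pm_202

theorem s76_pm_202 : ∃ t, chk3 f_pm_202 t 16 13 2 = true := ex3_b k2_pm_202 s75_pm_202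

theorem s77_pm_202 : ∃ t, chk3 f_pm_202 t 16 6 2 = true := ex3_b k1_pm_202 s76_pm_202

theorem s78_pm_202 : ∃ t, chk3 f_pm_202 t 16 6 1 = true := ex3_c s77_pm_202 s74_pm_202

theorem s79_pm_202 : ∃ t, chk3 f_pm_202 t 8 6 1 = true := ex3_a s78_pm_202 s66_pm_202

theorem s80_pm_202 : ∃ t, chk3 f_pm_202 t 8 3 1 = true := ex3_b s79_pm_202 s53_pm_202

theorem s81_pm_202 : ∃ t, chk3 f_pm_202 t 4 3 1 = true := ex3_a s80_pm_202 k40_pm_202

theorem s82_pm_202 : ∃ t, chk3 f_pm_202 t 4 1 1 = true := ex3_b k0_pm_202 s81_pm_202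

theorem s83_pm_202 : ∃ t, chk3 f_pm_202 t 2 1 1 = true := ex3_a s82_pm_202 k41_pm_202

theorem s84_pm_202 : ∃ t, chk3 f_pm_202 t 1 1 1 = true := ex3_a s83_pm_202 k42_pm_202

theorem c_pm_202 : CertNX 1073741824 536870912 0 536870912 1046898278 26843546 3 false true false .pp 2 0 2
    ndN5q2 ndN0q2 pcN0 Cut.none Ext.none :=
  certNX2 (fam := false) (s1 := true) (s2 := false) (a := 2) (b := 0) (c := 2) (cn := .pp) (n1 := ndN5q2) (n2 := ndN0q2) (pc := pcN0) (cut := Cut.none) (xt := Ext.none) (P1 := 1073741824) (W1 := 536870912) (P2 := 0) (W2 := 536870912) (P3 := 1046898278) (W3 := 26843546) (N0 := 3)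
    rfl (fun _ => rfl) s84_pm_202

noncomputable def f_mm_001 : ℕ → ℕ → ℕ → ℕ → Bool := onCell 0 536870912 536870912 536870912 1046898278 26843546
    (rowNX 3 0 false false false .up 0 0 1 (qsf 0 536870912 536870912 536870912 0) ndN5q0 ndN0q1 pcN0 Cut.none Ext.none)

def k0_mm_001 : ∃ t, chk3 f_mm_001 t 1 1 1 = true :=
  ⟨(l 5), by decide +kernel⟩

theorem c_mm_001 : CertNX 0 536870912 536870912 536870912 1046898278 26843546 3 false false false .up 0 0 1
    ndN5q0 ndN0q1 pcN0 Cut.none Ext.none :=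
  certNX0 (fam := false) (s1 := false) (s2 := false) (a := 0) (b := 0) (c := 1) (cn := .up) (n1 := ndN5q0) (n2 := ndN0q1) (pc := pcN0) (cut := Cut.none) (xt := Ext.none) (P1 := 0) (W1 := 536870912) (P2 := 536870912) (W2 := 536870912) (P3 := 1046898278) (W3 := 26843546) (N0 := 3)
    rfl k0_mm_001

noncomputable def f_mm_011 : ℕ → ℕ → ℕ → ℕ → Bool := onCell 0 536870912 536870912 536870912 1046898278 26843546
    (rowNX 3 0 false false false .pnn 0 1 1 (qsf 0 536870912 536870912 536870912 1) ndN5q0 ndN0q1 pcN1 Cut.none Ext.none)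

def k0_mm_011 : ∃ t, chk3 f_mm_011 t 1 1 1 = true :=
  ⟨(l 5), by decide +kernel⟩

theorem c_mm_011 : CertNX 0 536870912 536870912 536870912 1046898278 26843546 3 false false false .pnn 0 1 1
    ndN5q0 ndN0q1 pcN1 Cut.none Ext.none :=
  certNX0 (fam := false) (s1 := false) (s2 := false) (a := 0) (b := 1) (c := 1) (cn := .pnn) (n1 := ndN5q0) (n2 := ndN0q1) (pc := pcN1) (cut := Cut.none) (xt := Ext.none) (P1 := 0) (W1 := 536870912) (P2 := 536870912) (W2 := 536870912) (P3 := 1046898278) (W3 := 26843546) (N0 := 3)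
    rfl k0_mm_011

noncomputable def f_mm_012 : ℕ → ℕ → ℕ → ℕ → Bool := onCell 0 536870912 0 536870912 1046898278 26843546
    (rowNX 3 0 false false false .pnp 0 1 2 (qsf 0 536870912 0 536870912 1) ndN5q0 ndN0q2 pcN1 Cut.none Ext.none)

def k0_mm_012 : ∃ t, chk3 f_mm_012 t 1 1 1 = true :=
  ⟨(l 5), by decide +kernel⟩

theorem c_mm_012 : CertNX 0 536870912 0 536870912 1046898278 26843546 3 false false false .pnp 0 1 2
    ndN5q0 ndN0q2 pcN1 Cut.none Ext.none :=
  certNX0 (fam := false) (s1 := false) (s2 := false) (a := 0) (b := 1) (c := 2) (cn := .pnp) (n1 := ndN5q0) (n2 := ndN0q2) (pc := pcN1) (cut := Cut.none) (xt := Ext.none) (P1 := 0) (W1 := 536870912) (P2 := 0) (W2 := 536870912) (P3 := 1046898278) (W3 := 26843546) (N0 := 3)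
    rfl k0_mm_012

noncomputable def f_mm_022 : ℕ → ℕ → ℕ → ℕ → Bool := onCell 0 536870912 0 536870912 1046898278 26843546
    (rowNX 3 0 false false false .pp 0 2 2 (qsf 0 536870912 0 536870912 2) ndN5q0 ndN0q2 pcN2 Cut.none Ext.none)

def k0_mm_022 : ∃ t, chk3 f_mm_022 t 1 1 1 = true :=
  ⟨(l 5), by decide +kernel⟩

theorem c_mm_022 : CertNX 0 536870912 0 536870912 1046898278 26843546 3 false false false .pp 0 2 2
    ndN5q0 ndN0q2 pcN2 Cut.none Ext.none :=
  certNX0 (fam := false) (s1 := false) (s2 := false) (a := 0) (b := 2) (c := 2) (cn := .pp) (n1 := ndN5q0) (n2 := ndN0q2) (pc := pcN2) (cut := Cut.none) (xt := Ext.none) (P1 := 0) (W1 := 536870912) (P2 := 0) (W2 := 536870912) (P3 := 1046898278) (W3 := 26843546) (N0 := 3)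
    rfl k0_mm_022

noncomputable def f_mm_101 : ℕ → ℕ → ℕ → ℕ → Bool := onCell 536870912 469762048 536870912 536870912 1046898278 26843546
    (rowNX 3 0 false false false .npn 1 0 1 (qsf 536870912 469762048 536870912 536870912 0) ndN5q1 ndN0q1 pcN0 Cut.none Ext.none)

def k0_mm_101 : ∃ t, chk3 f_mm_101 t 1 1 1 = true :=
  ⟨(b (l 3) (l 5)), by decide +kernel⟩

theorem c_mm_101 : CertNX 536870912 469762048 536870912 536870912 1046898278 26843546 3 false false false .npn 1 0 1
    ndN5q1 ndN0q1 pcN0 Cut.none Ext.none :=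
  certNX0 (fam := false) (s1 := false) (s2 := false) (a := 1) (b := 0) (c := 1) (cn := .npn) (n1 := ndN5q1) (n2 := ndN0q1) (pc := pcN0) (cut := Cut.none) (xt := Ext.none) (P1 := 536870912) (W1 := 469762048) (P2 := 536870912) (W2 := 536870912) (P3 := 1046898278) (W3 := 26843546) (N0 := 3)
    rfl k0_mm_101

noncomputable def f_mm_102 : ℕ → ℕ → ℕ → ℕ → Bool := onCell 536870912 469762048 0 536870912 1046898278 26843546
    (rowNX 3 0 false false false .npp 1 0 2 (qsf 536870912 469762048 0 536870912 0) ndN5q1 ndN0q2 pcN0 Cut.none Ext.none)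

def k0_mm_102 : ∃ t, chk3 f_mm_102 t 1 1 1 = true :=
  ⟨(l 5), by decide +kernel⟩

theorem c_mm_102 : CertNX 536870912 469762048 0 536870912 1046898278 26843546 3 false false false .npp 1 0 2
    ndN5q1 ndN0q2 pcN0 Cut.none Ext.none :=
  certNX0 (fam := false) (s1 := false) (s2 := false) (a := 1) (b := 0) (c := 2) (cn := .npp) (n1 := ndN5q1) (n2 := ndN0q2) (pc := pcN0) (cut := Cut.none) (xt := Ext.none) (P1 := 536870912) (W1 := 469762048) (P2 := 0) (W2 := 536870912) (P3 := 1046898278) (W3 := 26843546) (N0 := 3)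
    rfl k0_mm_102

noncomputable def f_mm_112 : ℕ → ℕ → ℕ → ℕ → Bool := onCell 536870912 469762048 0 536870912 1046898278 26843546
    (rowNX 3 0 false false false .dn 1 1 2 (qsf 536870912 469762048 0 536870912 1) ndN5q1 ndN0q2 pcN1 Cut.none Ext.none)

def k0_mm_112 : ∃ t, chk3 f_mm_112 t 1 1 1 = true :=
  ⟨(l 5), by decide +kernel⟩

theorem c_mm_112 : CertNX 536870912 469762048 0 536870912 1046898278 26843546 3 false false false .dn 1 1 2
    ndN5q1 ndN0q2 pcN1 Cut.none Ext.none :=
  certNX0 (fam := false) (s1 := false) (s2 := false) (a := 1) (b := 1) (c := 2) (cn := .dn) (n1 := ndN5q1) (n2 := ndN0q2) (pc := pcN1) (cut := Cut.none) (xt := Ext.none) (P1 := 536870912) (W1 := 469762048) (P2 := 0) (W2 := 536870912) (P3 := 1046898278) (W3 := 26843546) (N0 := 3)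
    rfl k0_mm_112

noncomputable def f_mm_202 : ℕ → ℕ → ℕ → ℕ → Bool := onCell 1073741824 536870912 0 536870912 1046898278 26843546
    (rowNX 3 0 false false false .pp 2 0 2 (qsf 1073741824 536870912 0 536870912 0) ndN5q2 ndN0q2 pcN0 Cut.none Ext.none)

def k0_mm_202 : ∃ t, chk3 f_mm_202 t 1 1 1 = true :=
  ⟨(l 3), by decide +kernel⟩

theorem c_mm_202 : CertNX 1073741824 536870912 0 536870912 1046898278 26843546 3 false false false .pp 2 0 2
    ndN5q2 ndN0q2 pcN0 Cut.none Ext.none :=
  certNX0 (fam := false) (s1 := false) (s2 := false) (a := 2) (b := 0) (c := 2) (cn := .pp) (n1 := ndN5q2) (n2 := ndN0q2) (pc := pcN0) (cut := Cut.none) (xt := Ext.none) (P1 := 1073741824) (W1 := 536870912) (P2 := 0) (W2 := 536870912) (P3 := 1046898278) (W3 := 26843546) (N0 := 3)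
    rfl k0_mm_202

end Pool.Agent.Strip051.G.IE1.Tab.C.NB50

namespace Pool.Agent.Strip051.G.IE1.Tab.C.NB51

open Pool.Agent.Strip051.PB Pool.Agent.Strip051.PB.T
open Pool.Agent.Strip051.G.IE1.Tab

noncomputable def f_pp_001 : ℕ → ℕ → ℕ → ℕ → Bool := onCell 0 536870912 0 536870912 1046898278 26843546
    (rowNX 3 1 false true true .up 0 0 1 (qsf 0 536870912 536870912 536870912 0) ndN5q0 ndN1q1 pcN0 Cut.none Ext.none)

def k0_pp_001 : ∃ t, chk3 f_pp_001 t 1 1 1 = true :=
  ⟨(b (l 3) (l 3)), by decide +kernel⟩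

theorem c_pp_001 : CertNX 0 536870912 536870912 536870912 1046898278 26843546 3 false true true .up 0 0 1
    ndN5q0 ndN1q1 pcN0 Cut.none Ext.none :=
  certNX1 (fam := false) (s1 := true) (s2 := true) (a := 0) (b := 0) (c := 1) (cn := .up) (n1 := ndN5q0) (n2 := ndN1q1) (pc := pcN0) (cut := Cut.none) (xt := Ext.none) (P1 := 0) (W1 := 536870912) (P2 := 536870912) (W2 := 536870912) (P3 := 1046898278) (W3 := 26843546) (N0 := 3)
    rfl (fun _ => rfl) k0_pp_001

noncomputable def f_pp_011 : ℕ → ℕ → ℕ → ℕ → Bool := onCell 0 536870912 536870912 536870912 1046898278 26843546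
    (rowNX 3 0 false true true .pnn 0 1 1 (qsf 0 536870912 536870912 536870912 1) ndN5q0 ndN1q1 pcN1 Cut.none Ext.none)

def k0_pp_011 : ∃ t, chk3 f_pp_011 t 1 1 1 = true :=
  ⟨(a (b (l 3) (a (l 3) (l 3))) (l 3)), by decide +kernel⟩

theorem c_pp_011 : CertNX 0 536870912 536870912 536870912 1046898278 26843546 3 false true true .pnn 0 1 1
    ndN5q0 ndN1q1 pcN1 Cut.none Ext.none :=
  certNX0 (fam := false) (s1 := true) (s2 := true) (a := 0) (b := 1) (c := 1) (cn := .pnn) (n1 := ndN5q0) (n2 := ndN1q1) (pc := pcN1) (cut := Cut.none) (xt := Ext.none) (P1 := 0) (W1 := 536870912) (P2 := 536870912) (W2 := 536870912) (P3 := 1046898278) (W3 := 26843546) (N0 := 3)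
    rfl k0_pp_011

noncomputable def f_pp_012_a : ℕ → ℕ → ℕ → ℕ → Bool := onCell 536870912 536870912 0 420477299 1046898278 26843546
    (rowNX 3 2 false true true .pnp 0 1 2 (qsf 0 536870912 0 420477299 1) ndN5q0 ndN1q2a pcN1 Cut.none Ext.none)

def k0_pp_012_a : ∃ t, chk3 f_pp_012_a t 1 1 1 = true :=
  ⟨(a (b (a (l 2) (b (l 16777120) (l 16776040))) (b (a (l 16772600) (l 16772600)) (b (a (l 16707520) (l 16707520)) (a (l 16393072) (l 16330160))))) (b (a (a (a (l 16776656) (l 16692520)) (a (b (l 16492488) (l 16563792)) (b (l 16267824) (l 16269920)))) (a (b (a (l 15877072) (l 15514576)) (a (l 16065944) (l 15739832))) (b (a (b (l 15143784) (b (l 15287576) (l 15386216))) (b (a (l 14971936) (l 14873688)) (b (l 15091688) (l 15187376)))) (a (l 15521856) (a (l 15381280) (l 15293960)))))) (a (b (a (l 16750440) (a (l 16609568) (l 16427216))) (a (b (l 16590568) (l 16327864)) (b (a (l 16593864) (a (l 16519392) (l 16423960))) (a (l 16412648) (a (l 16357240) (l 16310024)))))) (b (a (a (l 16180160)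 (l 15945472)) (a (b (l 15702592) (l 15857816)) (b (l 15549096) (l 15731624)))) (a (b (a (l 16263264) (l 16108248)) (a (l 16189160) (l 16039744))) (b (a (l 15891824) (a (l 15895256) (b (l 15855144) (l 15918848)))) (a (b (l 15942456) (l 15898944)) (a (b (l 15896432) (l 15952288)) (b (l 16021000) (c (l 16157008) (l 16137472))))))))))), by decide +kernel⟩

theorem c_pp_012_a : CertNX 0 536870912 0 420477299 1046898278 26843546 3 false true true .pnp 0 1 2
    ndN5q0 ndN1q2a pcN1 Cut.none Ext.none :=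
  certNX2 (fam := false) (s1 := true) (s2 := true) (a := 0) (b := 1) (c := 2) (cn := .pnp) (n1 := ndN5q0) (n2 := ndN1q2a) (pc := pcN1) (cut := Cut.none) (xt := Ext.none) (P1 := 0) (W1 := 536870912) (P2 := 0) (W2 := 420477299) (P3 := 1046898278) (W3 := 26843546) (N0 := 3)
    rfl (fun _ => rfl) k0_pp_012_a

noncomputable def f_pp_012_b : ℕ → ℕ → ℕ → ℕ → Bool := onCell 536870912 536870912 1239849684 370763052 1046898278 26843546
    (rowNX 3 2 false true true .pnp 0 1 2 (qsf 0 536870912 1239849684 370763052 1) ndN5q0 ndN1q2b pcN1 Cut.none Ext.none)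

def k0_pp_012_b : ∃ t, chk3 f_pp_012_b t 1 1 1 = true :=
  ⟨(a (a (l 2) (l 16777216)) (a (a (a (l 16777016) (l 16574568)) (b (a (l 16405408) (b (l 16132232) (l 16042896))) (a (l 16334184) (l 15937960)))) (a (b (b (a (l 15645384) (l 15236736)) (l 15128632)) (a (l 15297304) (l 14818600))) (b (b (a (b (a (l 15009712) (l 14827304)) (l 14756328)) (b (a (l 14660264) (l 14546624)) (a (l 14386544) (l 14193056)))) (a (l 14594192) (a (l 14186544) (l 13957320)))) (a (l 14327536) (b (l 13850512) (l 13651360))))))), by decide +kernel⟩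

theorem c_pp_012_b : CertNX 0 536870912 1239849684 370763052 1046898278 26843546 3 false true true .pnp 0 1 2
    ndN5q0 ndN1q2b pcN1 Cut.none Ext.none :=
  certNX2 (fam := false) (s1 := true) (s2 := true) (a := 0) (b := 1) (c := 2) (cn := .pnp) (n1 := ndN5q0) (n2 := ndN1q2b) (pc := pcN1) (cut := Cut.none) (xt := Ext.none) (P1 := 0) (W1 := 536870912) (P2 := 1239849684) (W2 := 370763052) (P3 := 1046898278) (W3 := 26843546) (N0 := 3)
    rfl (fun _ => rfl) k0_pp_012_b

noncomputable def f_pp_022_a : ℕ → ℕ → ℕ → ℕ → Bool := onCell 0 536870912 0 420477299 1046898278 26843546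
    (rowNX 3 0 false true true .pp 0 2 2 (qsf 0 536870912 0 420477299 2) ndN5q0 ndN1q2a pcN2 Cut.none Ext.none)

def k0_pp_022_a : ∃ t, chk3 f_pp_022_a t 16 2 1 = true :=
  ⟨(b (a (a (c (b (l 16231040) (l 16253992)) (c (a (l 16214600) (b (l 16382512) (l 16289288))) (a (b (l 16124760) (c (l 16397104) (l 16402352))) (l 16074944)))) (b (c (a (l 16196368) (a (l 16019944) (b (l 16144600) (l 16136368)))) (a (l 16147832) (a (l 16009112) (b (l 16106776) (l 16098136))))) (c (a (b (c (l 16195888) (l 16198624)) (a (l 16102528) (c (l 16101096) (l 16133232)))) (a (b (l 15981608) (l 16128008)) (l 16146256))) (a (b (c (l 16201840) (l 16176712)) (c (a (l 16169872) (l 16133640)) (l 16086536))) (b (a (l 15990168) (l 16100344)) (l 16120648)))))) (c (a (b (l 16103456) (l 16096088)) (l 16168744)) (b (l 16123752) (l 16138568)))) (a (a (b (c (b (a (l 16343256) (a (l 16225728) (l 16014520))) (a (l 16206376) (a (l 16166696) (l 16149904)))) (a (a (l 16034224) (b (c (l 16272224) (l 16259288)) (c (l 16155080) (b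 (l 16180904) (l 16052488))))) (b (c (a (l 16201528) (l 16085336)) (a (l 16196832) (l 16121272))) (c (a (l 16077544) (l 16136312)) (a (l 16050608) (l 16129976)))))) (c (b (a (l 16145176) (l 16192376)) (l 16246008)) (a (b (c (l 16087848) (a (b (l 16064640) (l 16147992)) (l 16143272))) (c (l 16211712) (l 16090992))) (c (l 16200848) (l 16192920))))) (a (b (c (b (c (l 16029136) (l 16114552)) (l 16164288)) (b (c (l 16095568) (l 16110736)) (l 16153464))) (c (l 16169672) (l 16056248))) (c (c (l 16196344) (l 16150592)) (c (l 16214048) (l 16182584))))) (c (a (b (l 16081840) (c (l 16330552) (l 16313400))) (b (l 16268272) (l 16359712))) (b (l 16189424) (l 16239168))))), by decide +kernel⟩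

def k1_pp_022_a : ∃ t, chk3 f_pp_022_a t 17 2 1 = true :=
  ⟨(b (c (a (b (l 16212280) (l 16232952)) (b (c (l 16215944) (l 16220088)) (l 16263296))) (a (l 16179728) (l 16182736))) (a (c (b (l 16266856) (l 16383000)) (l 16285104)) (c (b (l 16239144) (c (l 16410056) (l 16395504))) (b (l 16306632) (l 16390536))))), by decide +kernel⟩

def k2_pp_022_a : ∃ t, chk3 f_pp_022_a t 9 2 1 = true :=
  ⟨(a (b (a (b (c (b (l 16044016) (l 16179768)) (l 16059768)) (a (l 16241472) (l 16136056))) (b (b (l 15799800) (l 15860088)) (l 15878472))) (a (b (a (l 16197320) (l 16145656)) (a (l 16257512) (l 16174688))) (b (l 15896608) (l 15938264)))) (a (b (b (c (a (l 15544536) (l 15402424)) (l 15432360)) (l 15534992)) (b (l 15575320) (l 15634992))) (b (b (c (l 15234248) (l 15179864)) (c (l 15347688) (l 15299944))) (l 15348184)))), by decide +kernel⟩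

def k3_pp_022_a : ∃ t, chk3 f_pp_022_a t 8 6 1 = true :=
  ⟨(a (a (c (a (b (l 16347312) (l 16483728)) (a (b (l 16246000) (l 16336800)) (c (l 16290760) (l 16256816)))) (a (a (c (l 16259368) (b (c (l 16281688) (l 16295712)) (c (l 16486584) (l 16376088)))) (c (b (l 16330928) (l 16417960)) (b (l 16325064) (l 16502824)))) (c (b (l 16375752) (l 16461312)) (l 16280184)))) (c (b (a (c (l 16463904) (l 16448504)) (l 16481728)) (a (c (l 16384344) (l 16398464)) (l 16246024))) (b (l 16398888) (b (l 16474600) (l 16409472))))) (a (b (c (c (l 16477408) (l 16496912)) (l 16480760)) (c (c (l 16401152) (l 16359368)) (l 16455920))) (b (c (a (l 16510592) (l 16476192)) (l 16483568)) (c (l 16299128) (l 16514320))))), by decide +kernel⟩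

def k4_pp_022_a : ∃ t, chk3 f_pp_022_a t 8 7 1 = true :=
  ⟨(a (a (b (c (a (b (l 16372336) (l 16400496)) (a (b (l 16391648) (a (l 16390488) (l 16380704))) (c (l 16290088) (l 16191736)))) (a (c (a (l 16432032) (b (l 16407640) (l 16436072))) (a (c (l 16440992) (a (l 16450600) (l 16439176))) (b (l 16406408) (l 16414096)))) (c (b (l 16323736) (l 16362520)) (l 16325168)))) (c (a (b (l 16486416) (l 16574176)) (c (a (l 16495584) (l 16537872)) (a (l 16460696) (l 16441520)))) (a (c (a (l 16536248) (b (l 16506104) (l 16596712))) (a (c (l 16357696) (b (l 16523296) (l 16566456))) (b (l 16506056) (l 16597968)))) (c (b (l 16481912) (l 16570112)) (l 16553392))))) (b (c (c (a (b (l 16280240) (l 16353864)) (l 16230136)) (b (l 16243464) (l 16360488))) (b (l 16260992) (l 16400064))) (c (a (b (c (l 16409672) (l 16444536)) (c (l 16513232) (l 16528288))) (b (l 16418456) (l 16519496))) (b (l 16498728) (l 16582608))))) (b (c (a (b (l 16287600) (l 16340160)) (c (b (l 16451832) (l 16496920)) (l 16486552))) (a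 (l 16348744) (l 16482104))) (c (a (b (l 16450768) (l 16505352)) (b (l 16457760) (c (l 16628152) (l 16641040)))) (a (b (l 16528880) (l 16606464)) (l 16502360))))), by decide +kernel⟩

def k5_pp_022_a : ∃ t, chk3 f_pp_022_a t 9 3 1 = true :=
  ⟨(b (a (a (b (a (l 16384120) (l 16245600)) (a (l 16404560) (l 16377040))) (b (l 16020088) (l 16160744))) (b (a (l 15732728) (l 15595528)) (a (l 15887208) (l 15769992)))) (a (b (a (c (b (l 16574000) (l 16583840)) (l 16407416)) (b (l 16296728) (l 16310704))) (a (c (b (l 16582440) (l 16579216)) (b (l 16579056) (l 16574856))) (b (l 16312520) (l 1)))) (a (b (b (l 15990320) (l 16051480)) (l 1)) (l 1)))), by decide +kernel⟩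

def k6_pp_022_a : ∃ t, chk3 f_pp_022_a t 5 1 1 = true :=
  ⟨(a (b (b (a (b (c (l 14888576) (c (l 14841720) (l 14808152))) (b (a (l 15100456) (l 14866160)) (l 15037464))) (l 1)) (a (b (l 15117960) (l 15233840)) (l 1))) (b (a (b (l 15322432) (l 1)) (l 1)) (l 1))) (l 1)), by decide +kernel⟩

def k7_pp_022_a : ∃ t, chk3 f_pp_022_a t 3 1 1 = true :=
  ⟨(l 1), by decide +kernel⟩

theorem s8_pp_022_a : ∃ t, chk3 f_pp_022_a t 8 3 1 = true := ex3_b k3_pp_022_a k4_pp_022_a

theorem s9_pp_022_a : ∃ t, chk3 f_pp_022_a t 4 3 1 = true := ex3_a s8_pp_022_a k5_pp_022_a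

theorem s10_pp_022_a : ∃ t, chk3 f_pp_022_a t 8 2 1 = true := ex3_a k0_pp_022_a k1_pp_022_a

theorem s11_pp_022_a : ∃ t, chk3 f_pp_022_a t 4 2 1 = true := ex3_a s10_pp_022_a k2_pp_022_a

theorem s12_pp_022_a : ∃ t, chk3 f_pp_022_a t 4 1 1 = true := ex3_b s11_pp_022_a s9_pp_022_a

theorem s13_pp_022_a : ∃ t, chk3 f_pp_022_a t 2 1 1 = true := ex3_a s12_pp_022_a k6_pp_022_a

theorem s14_pp_022_a : ∃ t, chk3 f_pp_022_a t 1 1 1 = true := ex3_a s13_pp_022_a k7_pp_022_a

theorem c_pp_022_a : CertNX 0 536870912 0 420477299 1046898278 26843546 3 false true true .pp 0 2 2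
    ndN5q0 ndN1q2a pcN2 Cut.none Ext.none :=
  certNX0 (fam := false) (s1 := true) (s2 := true) (a := 0) (b := 2) (c := 2) (cn := .pp) (n1 := ndN5q0) (n2 := ndN1q2a) (pc := pcN2) (cut := Cut.none) (xt := Ext.none) (P1 := 0) (W1 := 536870912) (P2 := 0) (W2 := 420477299) (P3 := 1046898278) (W3 := 26843546) (N0 := 3)
    rfl s14_pp_022_a

noncomputable def f_pp_022_b : ℕ → ℕ → ℕ → ℕ → Bool := onCell 0 536870912 1073741824 536870912 1046898278 26843546
    (rowNX 3 1 false true true .pp 0 2 2 (qsf 0 536870912 1239849684 370763052 2) ndN5q0 ndN1q2b pcN2 Cut.none Ext.none)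

def k0_pp_022_b : ∃ t, chk3 f_pp_022_b t 8 2 1 = true :=
  ⟨(b (b (l 1) (b (b (l 1) (a (l 1) (a (l 1) (c (c (l 173978614359) (l 16373072)) (l 16367608))))) (a (a (l 1) (c (a (l 1) (l 16302704)) (l 16234280))) (a (c (a (l 16301696) (l 16112024)) (l 16236512)) (c (a (b (l 16198104) (l 16058944)) (l 16053648)) (l 16038008)))))) (b (a (b (b (a (a (l 1) (a (l 1) (a (l 1) (c (l 16134152) (l 16182120))))) (c (a (c (l 16105248) (l 16107800)) (l 16039416)) (l 15984296))) (a (c (a (l 16194352) (c (l 16152648) (l 16116520))) (a (c (a (l 16392944) (l 16268824)) (c (l 150356119575) (l 16147568))) (c (l 16280624) (l 16343984)))) (c (a (c (l 16309432) (l 16315856)) (l 16225712)) (l 16157696)))) (a (c (a (b (l 15877472) (l 15478272)) (c (a (l 15584776) (l 15719256)) (a (l 15663568) (l 15674296)))) (a (c (a (l 15682584) (l 15462624)) (a (c (l 15598504) (l 15471200)) (l 15596920))) (c (l 15526600) (l 15747960)))) (c (b (a (l 15772992) (l 16026344)) (a (l 15564528) (l 15625784))) (b (l 16052208) (l 15625440)))))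 (b (b (c (a (a (l 16021072) (l 15981128)) (l 15865376)) (a (l 15974824) (l 15834584))) (c (a (l 16127856) (l 16020944)) (l 16065912))) (c (a (b (l 16150664) (l 15769296)) (l 15989896)) (l 15789040)))) (a (b (a (c (a (l 14800440) (c (l 14724432) (l 14745552))) (a (c (a (l 14817528) (l 14861040)) (a (l 14798392) (l 14831568))) (c (l 14905776) (l 14900816)))) (c (a (l 14999128) (l 15081280)) (l 15047928))) (a (c (a (l 14467240) (l 14583944)) (a (c (l 14429304) (a (l 14376480) (l 14427280))) (l 14511720))) (c (l 14697968) (l 14682296)))) (b (c (a (l 15252976) (l 15460016)) (l 15332400)) (c (l 15026072) (l 14994224)))))), by decide +kernel⟩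

def k1_pp_022_b : ∃ t, chk3 f_pp_022_b t 9 2 1 = true :=
  ⟨(b (b (a (a (l 1) (b (l 1) (c (l 15683560) (l 15692976)))) (b (c (l 578776677895) (a (l 1) (l 15013800))) (c (a (l 344701366503) (l 15186656)) (l 15146768)))) (a (a (b (c (b (l 16137064) (l 15993800)) (l 15941240)) (c (l 15843680) (l 15817816))) (b (b (l 15764272) (l 15723928)) (l 15500216))) (b (c (b (l 15362256) (l 15341504)) (l 15297008)) (l 15136656)))) (b (a (b (b (a (l 15629464) (l 15344472)) (a (l 15802104) (l 15534144))) (b (l 15937856) (l 16115512))) (b (b (l 15038080) (l 15247744)) (l 15813888))) (a (b (a (l 15734784) (l 16116960)) (l 15630592)) (b (l 16483792) (l 16254816))))), by decide +kernel⟩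

def k2_pp_022_b : ∃ t, chk3 f_pp_022_b t 5 2 1 = true :=
  ⟨(b (b (a (c (b (l 14653264) (c (l 14816736) (b (l 14747480) (l 14824872)))) (b (c (l 454221489895) (a (l 14725856) (l 14398312))) (l 14710304))) (c (b (l 14114256) (a (l 14384720) (l 14205888))) (b (a (c (l 14146384) (l 14097584)) (l 13922288)) (l 14211320)))) (b (a (c (b (l 14909016) (l 14913864)) (l 14834656)) (c (a (l 14533072) (l 14371464)) (l 14355736))) (a (l 14761424) (l 14382552)))) (b (b (a (b (l 14748984) (l 14982800)) (l 14392160)) (a (l 15558464) (l 15291712))) (b (a (l 16180800) (l 15878400)) (a (l 16504792) (l 16218520))))), by decide +kernel⟩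

def k3_pp_022_b : ∃ t, chk3 f_pp_022_b t 3 2 1 = true :=
  ⟨(b (b (b (c (l 13667408) (a (a (c (l 13812904) (l 13756296)) (l 13617808)) (c (l 13439016) (l 13373240)))) (c (a (c (l 14036472) (l 13919536)) (l 13732400)) (a (l 13911848) (l 13631584)))) (b (c (a (a (l 14257976) (l 14121008)) (l 13945128)) (l 13826752)) (a (l 14196008) (l 14029144)))) (b (b (b (l 14363152) (l 14654448)) (l 15148496)) (b (l 15516256) (l 15957048)))), by decide +kernel⟩

def k4_pp_022_b : ∃ t, chk3 f_pp_022_b t 1 3 1 = true :=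
  ⟨(a (a (b (a (a (b (a (c (a (l 14487528) (l 14587288)) (a (c (l 14450328) (l 14422784)) (l 14515352))) (c (l 14682552) (l 14666368))) (a (c (l 14486144) (a (l 14392752) (l 14462568))) (c (l 14617816) (l 14598616)))) (b (c (l 14978640) (l 14944912)) (l 14637440))) (a (b (l 15485592) (l 15435576)) (b (l 16149320) (l 16023288)))) (a (a (c (a (b (l 14483176) (l 14483176)) (l 14614280)) (a (c (l 14443648) (l 14416816)) (l 14594904))) (c (l 14886328) (l 14848176))) (a (b (l 15430744) (l 15430744)) (b (l 16018240) (l 2))))) (b (b (a (l 16510776) (l 16483576)) (a (l 16380944) (l 16730600))) (b (a (l 16376120) (l 2)) (l 2)))) (b (b (a (l 16393960) (l 2)) (l 2)) (l 2))), by decide +kernel⟩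

theorem s5_pp_022_b : ∃ t, chk3 f_pp_022_b t 4 2 1 = true := ex3_a k0_pp_022_b k1_pp_022_b

theorem s6_pp_022_b : ∃ t, chk3 f_pp_022_b t 2 2 1 = true := ex3_a s5_pp_022_b k2_pp_022_b

theorem s7_pp_022_b : ∃ t, chk3 f_pp_022_b t 1 2 1 = true := ex3_a s6_pp_022_b k3_pp_022_b

theorem s8_pp_022_b : ∃ t, chk3 f_pp_022_b t 1 1 1 = true := ex3_b s7_pp_022_b k4_pp_022_b

theorem c_pp_022_b : CertNX 0 536870912 1239849684 370763052 1046898278 26843546 3 false true true .pp 0 2 2
    ndN5q0 ndN1q2b pcN2 Cut.none Ext.none :=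
  certNX1 (fam := false) (s1 := true) (s2 := true) (a := 0) (b := 2) (c := 2) (cn := .pp) (n1 := ndN5q0) (n2 := ndN1q2b) (pc := pcN2) (cut := Cut.none) (xt := Ext.none) (P1 := 0) (W1 := 536870912) (P2 := 1239849684) (W2 := 370763052) (P3 := 1046898278) (W3 := 26843546) (N0 := 3)
    rfl (fun _ => rfl) s8_pp_022_b

noncomputable def f_pp_023 : ℕ → ℕ → ℕ → ℕ → Bool := onCell 0 536870912 1073741824 536870912 1046898278 26843546
    (rowNX 3 1 false true true .up 0 2 3 (qsf 0 536870912 1610612736 469762048 2) ndN5q0 ndN1q3 pcN2 Cut.none Ext.none)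

def k0_pp_023 : ∃ t, chk3 f_pp_023 t 1 1 1 = true :=
  ⟨(b (a (b (l 1) (a (l 1) (b (l 1) (b (l 1) (l 616360036471))))) (b (b (a (l 1) (c (b (l 13518616) (l 13732400)) (b (l 575015054279) (l 13631584)))) (b (a (l 1) (l 592195869239)) (l 577163957863))) (b (b (b (l 14363152) (l 14654448)) (l 15148496)) (b (l 15495280) (l 15957048))))) (a (a (b (a (l 1) (a (l 1) (b (l 1) (l 16023288)))) (a (a (b (l 1) (c (l 702792633815) (l 14382120))) (c (l 14886328) (l 14848176))) (a (l 459591795943) (l 497710910535)))) (b (b (l 630319094231) (a (l 16380944) (l 16730600))) (b (a (l 16376120) (l 16726952)) (l 16472104)))) (b (b (a (l 16393960) (l 16346432)) (a (l 16764184) (l 4))) (b (l 16765904) (l 4))))), by decide +kernel⟩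

theorem c_pp_023 : CertNX 0 536870912 1610612736 469762048 1046898278 26843546 3 false true true .up 0 2 3
    ndN5q0 ndN1q3 pcN2 Cut.none Ext.none :=
  certNX1 (fam := false) (s1 := true) (s2 := true) (a := 0) (b := 2) (c := 3) (cn := .up) (n1 := ndN5q0) (n2 := ndN1q3) (pc := pcN2) (cut := Cut.none) (xt := Ext.none) (P1 := 0) (W1 := 536870912) (P2 := 1610612736) (W2 := 469762048) (P3 := 1046898278) (W3 := 26843546) (N0 := 3)
    rfl (fun _ => rfl) k0_pp_023

noncomputable def f_pp_033 : ℕ → ℕ → ℕ → ℕ → Bool := onCell 0 536870912 1610612736 469762048 1046898278 26843546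
    (rowNX 3 0 false true true .pnn 0 3 3 (qsf 0 536870912 1610612736 469762048 3) ndN5q0 ndN1q3 pcN3 Cut.none Ext.none)

def k0_pp_033 : ∃ t, chk3 f_pp_033 t 1 1 1 = true :=
  ⟨(a (b (b (a (a (b (a (c (l 14514720) (l 14507952)) (l 14863840)) (a (c (l 14346944) (l 14340176)) (l 14863840))) (a (l 482677308071) (l 16018240))) (l 1)) (b (a (l 4) (a (l 16376120) (l 1))) (l 4))) (l 4)) (b (l 1) (a (l 4) (b (l 1) (l 4))))), by decide +kernel⟩

theorem c_pp_033 : CertNX 0 536870912 1610612736 469762048 1046898278 26843546 3 false true true .pnn 0 3 3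
    ndN5q0 ndN1q3 pcN3 Cut.none Ext.none :=
  certNX0 (fam := false) (s1 := true) (s2 := true) (a := 0) (b := 3) (c := 3) (cn := .pnn) (n1 := ndN5q0) (n2 := ndN1q3) (pc := pcN3) (cut := Cut.none) (xt := Ext.none) (P1 := 0) (W1 := 536870912) (P2 := 1610612736) (W2 := 469762048) (P3 := 1046898278) (W3 := 26843546) (N0 := 3)
    rfl k0_pp_033

noncomputable def f_pp_101 : ℕ → ℕ → ℕ → ℕ → Bool := onCell 536870912 469762048 536870912 536870912 1046898278 26843546
    (rowNX 3 0 false true true .npn 1 0 1 (qsf 536870912 469762048 536870912 536870912 0) ndN5q1 ndN1q1 pcN0 Cut.none Ext.none)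

def k0_pp_101 : ∃ t, chk3 f_pp_101 t 1 1 1 = true :=
  ⟨(l 3), by decide +kernel⟩

theorem c_pp_101 : CertNX 536870912 469762048 536870912 536870912 1046898278 26843546 3 false true true .npn 1 0 1
    ndN5q1 ndN1q1 pcN0 Cut.none Ext.none :=
  certNX0 (fam := false) (s1 := true) (s2 := true) (a := 1) (b := 0) (c := 1) (cn := .npn) (n1 := ndN5q1) (n2 := ndN1q1) (pc := pcN0) (cut := Cut.none) (xt := Ext.none) (P1 := 536870912) (W1 := 469762048) (P2 := 536870912) (W2 := 536870912) (P3 := 1046898278) (W3 := 26843546) (N0 := 3)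
    rfl k0_pp_101

noncomputable def f_pp_102_a : ℕ → ℕ → ℕ → ℕ → Bool := onCell 536870912 469762048 0 420477299 1046898278 26843546
    (rowNX 3 0 false true true .npp 1 0 2 (qsf 536870912 469762048 0 420477299 0) ndN5q1 ndN1q2a pcN0 Cut.none Ext.none)

def k0_pp_102_a : ∃ t, chk3 f_pp_102_a t 1 1 1 = true :=
  ⟨(a (b (a (l 2) (b (l 16777120) (l 16776040))) (b (a (l 16772600) (l 16772600)) (b (a (l 16707520) (l 16707520)) (a (l 16393072) (l 16372104))))) (a (b (a (l 16776576) (a (l 16429640) (l 15870712))) (b (a (l 16772600) (a (l 16574392) (l 15868416))) (a (b (l 16707520) (l 16393072)) (b (a (l 16508512) (l 15911992)) (a (a (l 16430416) (l 16630416)) (a (l 16279968) (l 15916368))))))) (b (a (a (b (l 15096512) (l 15095840)) (l 14300728)) (a (a (l 13684080) (l 13427976)) (b (l 13699864) (b (a (l 13595656) (c (l 13877800) (l 13769656))) (a (c (b (l 13656952) (l 13666752)) (l 13549992)) (l 13845632)))))) (a (b (a (l 15093640) (l 14297944)) (b (a (l 14952976) (b (l 14182848) (a (l 14590600)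 (b (l 14162728) (l 14208344))))) (a (a (l 15540216) (b (l 15087960) (a (l 15316616) (l 15133736)))) (b (a (b (l 14671000) (l 14737424)) (l 14304584)) (a (l 14870688) (l 14497912)))))) (b (a (b (a (l 13682040) (b (c (l 13485832) (l 13369344)) (l 13433216))) (a (b (l 13681432) (l 13682736)) (a (l 13411496) (l 13477312)))) (a (b (c (b (l 13680896) (l 13698360)) (l 13577136)) (l 13647944)) (b (c (l 13941240) (l 13832056)) (c (l 13953696) (l 13845536))))) (b (b (a (a (l 13694008) (l 13449928)) (c (l 13817568) (l 13706936))) (a (a (l 13768136) (l 13519728)) (c (a (l 13765200) (l 14000856)) (l 13772472)))) (a (a (b (l 13877600) (l 14091248)) (c (b (a (l 13639160) (l 13689432)) (a (l 13847032) (l 13883912))) (b (l 13557976) (l 13769288)))) (b (c (a (l 13842152) (a (l 14021000) (l 14170264))) (l 13846280)) (a (b (c (a (l 13876984) (l 13972712)) (l 13828176)) (c (a (l 14030832) (l 14117760)) (l 13972128))) (c (b (l 14196888) (a (l 14231872) (l 14374640))) (l 14168456))))))))))), by decide +kernel⟩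

theorem c_pp_102_a : CertNX 536870912 469762048 0 420477299 1046898278 26843546 3 false true true .npp 1 0 2
    ndN5q1 ndN1q2a pcN0 Cut.none Ext.none :=
  certNX0 (fam := false) (s1 := true) (s2 := true) (a := 1) (b := 0) (c := 2) (cn := .npp) (n1 := ndN5q1) (n2 := ndN1q2a) (pc := pcN0) (cut := Cut.none) (xt := Ext.none) (P1 := 536870912) (W1 := 469762048) (P2 := 0) (W2 := 420477299) (P3 := 1046898278) (W3 := 26843546) (N0 := 3)
    rfl k0_pp_102_a

noncomputable def f_pp_102_b : ℕ → ℕ → ℕ → ℕ → Bool := onCell 536870912 469762048 1239849684 370763052 1046898278 26843546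
    (rowNX 3 0 false true true .npp 1 0 2 (qsf 536870912 469762048 1239849684 370763052 0) ndN5q1 ndN1q2b pcN0 Cut.none Ext.none)

def k0_pp_102_b : ∃ t, chk3 f_pp_102_b t 1 1 1 = true :=
  ⟨(a (b (c (l 211627802631) (l 16777216)) (l 2)) (a (a (b (b (l 16777216) (l 16777216)) (l 2)) (b (b (a (l 16576760) (l 15871072)) (l 15978360)) (a (l 2) (l 15871072)))) (a (b (b (a (l 15096576) (l 14301168)) (a (l 15096576) (l 14301168))) (a (l 15096576) (l 14301168))) (b (b (a (l 13557320) (l 13694048)) (a (l 13557320) (l 13693848))) (a (b (l 13557320) (l 2)) (b (l 13693848) (l 13693848))))))), by decide +kernel⟩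

theorem c_pp_102_b : CertNX 536870912 469762048 1239849684 370763052 1046898278 26843546 3 false true true .npp 1 0 2
    ndN5q1 ndN1q2b pcN0 Cut.none Ext.none :=
  certNX0 (fam := false) (s1 := true) (s2 := true) (a := 1) (b := 0) (c := 2) (cn := .npp) (n1 := ndN5q1) (n2 := ndN1q2b) (pc := pcN0) (cut := Cut.none) (xt := Ext.none) (P1 := 536870912) (W1 := 469762048) (P2 := 1239849684) (W2 := 370763052) (P3 := 1046898278) (W3 := 26843546) (N0 := 3)
    rfl k0_pp_102_b

noncomputable def f_pp_112_a : ℕ → ℕ → ℕ → ℕ → Bool := onCell 536870912 536870912 0 420477299 1046898278 26843546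
    (rowNX 3 2 false true true .dn 1 1 2 (qsf 536870912 469762048 0 420477299 1) ndN5q1 ndN1q2a pcN1 Cut.none Ext.none)

def k0_pp_112_a : ∃ t, chk3 f_pp_112_a t 1 1 1 = true :=
  ⟨(a (a (b (b (l 16777120) (l 16776040)) (b (l 16772600) (b (l 16707520) (l 16393072)))) (b (l 206191977479) (b (l 16772600) (l 1)))) (l 1)), by decide +kernel⟩

theorem c_pp_112_a : CertNX 536870912 469762048 0 420477299 1046898278 26843546 3 false true true .dn 1 1 2
    ndN5q1 ndN1q2a pcN1 Cut.none Ext.none :=
  certNX2 (fam := false) (s1 := true) (s2 := true) (a := 1) (b := 1) (c := 2) (cn := .dn) (n1 := ndN5q1) (n2 := ndN1q2a) (pc := pcN1) (cut := Cut.none) (xt := Ext.none) (P1 := 536870912) (W1 := 469762048) (P2 := 0) (W2 := 420477299) (P3 := 1046898278) (W3 := 26843546) (N0 := 3)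
    rfl (fun _ => rfl) k0_pp_112_a

noncomputable def f_pp_112_b : ℕ → ℕ → ℕ → ℕ → Bool := onCell 536870912 469762048 536870912 536870912 1046898278 26843546
    (rowNX 3 1 false true true .dn 1 1 2 (qsf 536870912 469762048 1239849684 370763052 1) ndN5q1 ndN1q2b pcN1 Cut.none Ext.none)

def k0_pp_112_b : ∃ t, chk3 f_pp_112_b t 1 1 1 = true :=
  ⟨(b (a (b (a (b (a (l 1) (l 16711624)) (a (l 16720184) (l 16776984))) (l 16777056)) (l 16777176)) (a (a (l 16777216) (b (l 16230016) (l 16230016))) (a (b (a (l 15096576) (l 14301168)) (l 14704856)) (b (a (l 13557320) (l 13693848)) (l 2))))) (a (b (b (l 16703048) (b (l 16326184) (l 15899736))) (b (b (l 15192632) (l 14651512)) (b (l 14084288) (a (l 13487928) (l 2))))) (b (a (b (l 16434544) (l 2)) (l 2)) (l 2)))), by decide +kernel⟩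

theorem c_pp_112_b : CertNX 536870912 469762048 1239849684 370763052 1046898278 26843546 3 false true true .dn 1 1 2
    ndN5q1 ndN1q2b pcN1 Cut.none Ext.none :=
  certNX1 (fam := false) (s1 := true) (s2 := true) (a := 1) (b := 1) (c := 2) (cn := .dn) (n1 := ndN5q1) (n2 := ndN1q2b) (pc := pcN1) (cut := Cut.none) (xt := Ext.none) (P1 := 536870912) (W1 := 469762048) (P2 := 1239849684) (W2 := 370763052) (P3 := 1046898278) (W3 := 26843546) (N0 := 3)
    rfl (fun _ => rfl) k0_pp_112_b

noncomputable def f_pp_113 : ℕ → ℕ → ℕ → ℕ → Bool := onCell 536870912 469762048 536870912 536870912 1046898278 26843546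
    (rowNX 3 1 false true true .nn 1 1 3 (qsf 536870912 469762048 1610612736 469762048 1) ndN5q1 ndN1q3 pcN1 Cut.none Ext.none)

def k0_pp_113 : ∃ t, chk3 f_pp_113 t 1 1 1 = true :=
  ⟨(b (a (l 1) (b (a (l 1) (a (l 514888110999) (l 498779922791))) (a (l 16345664) (a (l 14704856) (l 13653448))))) (a (b (b (l 16703048) (l 521870257383)) (b (b (l 15192632) (l 14651512)) (b (l 14084288) (a (l 13487928) (l 13307104))))) (b (a (b (l 16434544) (a (l 16057864) (l 15515336))) (a (b (l 14583512) (l 14005296)) (b (l 13657640) (a (l 12863792) (l 13002184))))) (a (b (a (l 14830272) (l 14278168)) (b (l 13637784) (a (l 13192360) (l 12631416)))) (a (b (l 12822664) (b (l 11955392) (l 11274544))) (b (l 11925240) (b (l 11175688) (a (l 10405232) (l 10700096))))))))), by decide +kernel⟩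

theorem c_pp_113 : CertNX 536870912 469762048 1610612736 469762048 1046898278 26843546 3 false true true .nn 1 1 3
    ndN5q1 ndN1q3 pcN1 Cut.none Ext.none :=
  certNX1 (fam := false) (s1 := true) (s2 := true) (a := 1) (b := 1) (c := 3) (cn := .nn) (n1 := ndN5q1) (n2 := ndN1q3) (pc := pcN1) (cut := Cut.none) (xt := Ext.none) (P1 := 536870912) (W1 := 469762048) (P2 := 1610612736) (W2 := 469762048) (P3 := 1046898278) (W3 := 26843546) (N0 := 3)
    rfl (fun _ => rfl) k0_pp_113

noncomputable def f_pp_123 : ℕ → ℕ → ℕ → ℕ → Bool := onCell 536870912 469762048 1073741824 536870912 1046898278 26843546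
    (rowNX 3 1 false true true .npn 1 2 3 (qsf 536870912 469762048 1610612736 469762048 2) ndN5q1 ndN1q3 pcN2 Cut.none Ext.none)

def k0_pp_123 : ∃ t, chk3 f_pp_123 t 1 1 1 = true :=
  ⟨(b (a (b (b (c (b (l 13222232) (a (l 13526760) (l 13369184))) (b (a (l 13182296) (l 13012736)) (l 13339984))) (b (a (l 13601584) (l 13536408)) (l 13861744))) (b (b (b (l 14284400) (l 14607848)) (l 15049472)) (b (l 15467744) (l 4)))) (b (a (b (c (b (l 12815272) (a (l 13267184) (l 13005024))) (b (a (l 12904096) (l 12399864)) (l 12977784))) (b (a (l 13451816) (l 13367336)) (l 13807928))) (b (a (b (c (l 11772888) (a (l 11534328) (l 11049696))) (c (l 12838720) (l 12450032))) (c (b (l 12001440) (a (l 13492560) (l 2))) (b (a (l 10788872) (l 11322424)) (l 13412024)))) (l 4))) (a (l 4) (l 2)))) (a (b (l 4) (a (l 4) (l 2))) (l 2))), by decide +kernel⟩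

theorem c_pp_123 : CertNX 536870912 469762048 1610612736 469762048 1046898278 26843546 3 false true true .npn 1 2 3
    ndN5q1 ndN1q3 pcN2 Cut.none Ext.none :=
  certNX1 (fam := false) (s1 := true) (s2 := true) (a := 1) (b := 2) (c := 3) (cn := .npn) (n1 := ndN5q1) (n2 := ndN1q3) (pc := pcN2) (cut := Cut.none) (xt := Ext.none) (P1 := 536870912) (W1 := 469762048) (P2 := 1610612736) (W2 := 469762048) (P3 := 1046898278) (W3 := 26843546) (N0 := 3)
    rfl (fun _ => rfl) k0_pp_123

noncomputable def f_pp_133 : ℕ → ℕ → ℕ → ℕ → Bool := onCell 536870912 469762048 1610612736 469762048 1046898278 26843546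
    (rowNX 3 0 false true true .dn 1 3 3 (qsf 536870912 469762048 1610612736 469762048 3) ndN5q1 ndN1q3 pcN3 Cut.none Ext.none)

def k0_pp_133 : ∃ t, chk3 f_pp_133 t 1 1 1 = true :=
  ⟨(l 1), by decide +kernel⟩

theorem c_pp_133 : CertNX 536870912 469762048 1610612736 469762048 1046898278 26843546 3 false true true .dn 1 3 3
    ndN5q1 ndN1q3 pcN3 Cut.none Ext.none :=
  certNX0 (fam := false) (s1 := true) (s2 := true) (a := 1) (b := 3) (c := 3) (cn := .dn) (n1 := ndN5q1) (n2 := ndN1q3) (pc := pcN3) (cut := Cut.none) (xt := Ext.none) (P1 := 536870912) (W1 := 469762048) (P2 := 1610612736) (W2 := 469762048) (P3 := 1046898278) (W3 := 26843546) (N0 := 3)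
    rfl k0_pp_133

noncomputable def f_pp_202_a : ℕ → ℕ → ℕ → ℕ → Bool := onCell 1073741824 536870912 0 420477299 1046898278 26843546
    (rowNX 3 0 false true true .pp 2 0 2 (qsf 1073741824 536870912 0 420477299 0) ndN5q2 ndN1q2a pcN0 Cut.none Ext.none)

def k0_pp_202_a : ∃ t, chk3 f_pp_202_a t 1 1 1 = true :=
  ⟨(l 3), by decide +kernel⟩

theorem c_pp_202_a : CertNX 1073741824 536870912 0 420477299 1046898278 26843546 3 false true true .pp 2 0 2
    ndN5q2 ndN1q2a pcN0 Cut.none Ext.none :=
  certNX0 (fam := false) (s1 := true) (s2 := true) (a := 2) (b := 0) (c := 2) (cn := .pp) (n1 := ndN5q2) (n2 := ndN1q2a) (pc := pcN0) (cut := Cut.none) (xt := Ext.none) (P1 := 1073741824) (W1 := 536870912) (P2 := 0) (W2 := 420477299) (P3 := 1046898278) (W3 := 26843546) (N0 := 3)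
    rfl k0_pp_202_a

noncomputable def f_pp_202_b : ℕ → ℕ → ℕ → ℕ → Bool := onCell 1073741824 536870912 1239849684 370763052 1046898278 26843546
    (rowNX 3 0 false true true .pp 2 0 2 (qsf 1073741824 536870912 1239849684 370763052 0) ndN5q2 ndN1q2b pcN0 Cut.none Ext.none)

def k0_pp_202_b : ∃ t, chk3 f_pp_202_b t 1 1 1 = true :=
  ⟨(l 3), by decide +kernel⟩

theorem c_pp_202_b : CertNX 1073741824 536870912 1239849684 370763052 1046898278 26843546 3 false true true .pp 2 0 2
    ndN5q2 ndN1q2b pcN0 Cut.none Ext.none :=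
  certNX0 (fam := false) (s1 := true) (s2 := true) (a := 2) (b := 0) (c := 2) (cn := .pp) (n1 := ndN5q2) (n2 := ndN1q2b) (pc := pcN0) (cut := Cut.none) (xt := Ext.none) (P1 := 1073741824) (W1 := 536870912) (P2 := 1239849684) (W2 := 370763052) (P3 := 1046898278) (W3 := 26843546) (N0 := 3)
    rfl k0_pp_202_b

noncomputable def f_pp_203 : ℕ → ℕ → ℕ → ℕ → Bool := onCell 1073741824 536870912 0 536870912 1046898278 26843546
    (rowNX 3 1 false true true .up 2 0 3 (qsf 1073741824 536870912 1610612736 469762048 0) ndN5q2 ndN1q3 pcN0 Cut.none Ext.none)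

def k0_pp_203 : ∃ t, chk3 f_pp_203 t 1 1 1 = true :=
  ⟨(l 3), by decide +kernel⟩

theorem c_pp_203 : CertNX 1073741824 536870912 1610612736 469762048 1046898278 26843546 3 false true true .up 2 0 3
    ndN5q2 ndN1q3 pcN0 Cut.none Ext.none :=
  certNX1 (fam := false) (s1 := true) (s2 := true) (a := 2) (b := 0) (c := 3) (cn := .up) (n1 := ndN5q2) (n2 := ndN1q3) (pc := pcN0) (cut := Cut.none) (xt := Ext.none) (P1 := 1073741824) (W1 := 536870912) (P2 := 1610612736) (W2 := 469762048) (P3 := 1046898278) (W3 := 26843546) (N0 := 3)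
    rfl (fun _ => rfl) k0_pp_203

noncomputable def f_pp_213 : ℕ → ℕ → ℕ → ℕ → Bool := onCell 1073741824 536870912 1610612736 469762048 1046898278 26843546
    (rowNX 3 0 false true true .pnn 2 1 3 (qsf 1073741824 536870912 1610612736 469762048 1) ndN5q2 ndN1q3 pcN1 Cut.none Ext.none)

def k0_pp_213 : ∃ t, chk3 f_pp_213 t 1 1 1 = true :=
  ⟨(a (b (l 3) (a (b (l 3) (a (b (l 3) (a (b (a (l 15679848) (l 3)) (a (l 15531536) (l 15496728))) (b (l 3) (a (l 15380184) (l 3))))) (l 3))) (l 3))) (l 3)), by decide +kernel⟩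

theorem c_pp_213 : CertNX 1073741824 536870912 1610612736 469762048 1046898278 26843546 3 false true true .pnn 2 1 3
    ndN5q2 ndN1q3 pcN1 Cut.none Ext.none :=
  certNX0 (fam := false) (s1 := true) (s2 := true) (a := 2) (b := 1) (c := 3) (cn := .pnn) (n1 := ndN5q2) (n2 := ndN1q3) (pc := pcN1) (cut := Cut.none) (xt := Ext.none) (P1 := 1073741824) (W1 := 536870912) (P2 := 1610612736) (W2 := 469762048) (P3 := 1046898278) (W3 := 26843546) (N0 := 3)
    rfl k0_pp_213

noncomputable def f_pp_303 : ℕ → ℕ → ℕ → ℕ → Bool := onCell 0 1230186008 1610612736 469762048 1046898278 26843546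
    (rowNX 3 0 false true true .npn 3 0 3 (qsf 0 1230186008 1610612736 469762048 0) ndN5q3 ndN1q3 pcN0 Cut.none Ext.none)

def k0_pp_303 : ∃ t, chk3 f_pp_303 t 1 1 1 = true :=
  ⟨(a (l 3) (l 3)), by decide +kernel⟩

theorem c_pp_303 : CertNX 0 1230186008 1610612736 469762048 1046898278 26843546 3 false true true .npn 3 0 3
    ndN5q3 ndN1q3 pcN0 Cut.none Ext.none :=
  certNX0 (fam := false) (s1 := true) (s2 := true) (a := 3) (b := 0) (c := 3) (cn := .npn) (n1 := ndN5q3) (n2 := ndN1q3) (pc := pcN0) (cut := Cut.none) (xt := Ext.none) (P1 := 0) (W1 := 1230186008) (P2 := 1610612736) (W2 := 469762048) (P3 := 1046898278) (W3 := 26843546) (N0 := 3)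
    rfl k0_pp_303

noncomputable def f_pp_313 : ℕ → ℕ → ℕ → ℕ → Bool := onCell 0 1230186008 1610612736 469762048 1046898278 26843546
    (rowNX 3 0 false true true .dn 3 1 3 (qsf 0 1230186008 1610612736 469762048 1) ndN5q3 ndN1q3 pcN1 Cut.none Ext.none)

def k0_pp_313 : ∃ t, chk3 f_pp_313 t 1 1 1 = true :=
  ⟨(l 1), by decide +kernel⟩

theorem c_pp_313 : CertNX 0 1230186008 1610612736 469762048 1046898278 26843546 3 false true true .dn 3 1 3
    ndN5q3 ndN1q3 pcN1 Cut.none Ext.none :=
  certNX0 (fam := false) (s1 := true) (s2 := true) (a := 3) (b := 1) (c := 3) (cn := .dn) (n1 := ndN5q3) (n2 := ndN1q3) (pc := pcN1) (cut := Cut.none) (xt := Ext.none) (P1 := 0) (W1 := 1230186008) (P2 := 1610612736) (W2 := 469762048) (P3 := 1046898278) (W3 := 26843546) (N0 := 3)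
    rfl k0_pp_313

noncomputable def f_pm_001 : ℕ → ℕ → ℕ → ℕ → Bool := onCell 0 536870912 536870912 536870912 1046898278 26843546
    (rowNX 3 0 false true false .up 0 0 1 (qsf 0 536870912 536870912 536870912 0) ndN5q0 ndN1q1 pcN0 Cut.none Ext.none)

def k0_pm_001 : ∃ t, chk3 f_pm_001 t 1 1 1 = true :=
  ⟨(l 4), by decide +kernel⟩

theorem c_pm_001 : CertNX 0 536870912 536870912 536870912 1046898278 26843546 3 false true false .up 0 0 1
    ndN5q0 ndN1q1 pcN0 Cut.none Ext.none :=
  certNX0 (fam := false) (s1 := true) (s2 := false) (a := 0) (b := 0) (c := 1) (cn := .up) (n1 := ndN5q0) (n2 := ndN1q1) (pc := pcN0) (cut := Cut.none) (xt := Ext.none) (P1 := 0) (W1 := 536870912) (P2 := 536870912) (W2 := 536870912) (P3 := 1046898278) (W3 := 26843546) (N0 := 3)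
    rfl k0_pm_001

noncomputable def f_pm_011 : ℕ → ℕ → ℕ → ℕ → Bool := onCell 0 536870912 536870912 536870912 1046898278 26843546
    (rowNX 3 0 false true false .pnn 0 1 1 (qsf 0 536870912 536870912 536870912 1) ndN5q0 ndN1q1 pcN1 Cut.none Ext.none)

def k0_pm_011 : ∃ t, chk3 f_pm_011 t 1 1 1 = true :=
  ⟨(l 4), by decide +kernel⟩

theorem c_pm_011 : CertNX 0 536870912 536870912 536870912 1046898278 26843546 3 false true false .pnn 0 1 1
    ndN5q0 ndN1q1 pcN1 Cut.none Ext.none :=
  certNX0 (fam := false) (s1 := true) (s2 := false) (a := 0) (b := 1) (c := 1) (cn := .pnn) (n1 := ndN5q0) (n2 := ndN1q1) (pc := pcN1) (cut := Cut.none) (xt := Ext.none) (P1 := 0) (W1 := 536870912) (P2 := 536870912) (W2 := 536870912) (P3 := 1046898278) (W3 := 26843546) (N0 := 3)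
    rfl k0_pm_011

noncomputable def f_pm_012_a : ℕ → ℕ → ℕ → ℕ → Bool := onCell 536870912 536870912 0 420477299 1046898278 26843546
    (rowNX 3 2 false true false .pnp 0 1 2 (qsf 0 536870912 0 420477299 1) ndN5q0 ndN1q2a pcN1 Cut.none Ext.none)

def k0_pm_012_a : ∃ t, chk3 f_pm_012_a t 2 1 1 = true :=
  ⟨(b (a (l 2) (a (a (l 16761032) (c (l 16700936) (l 16698240))) (a (b (b (l 16756432) (l 16566832)) (l 16483096)) (b (b (l 16777208) (l 16556408)) (b (l 16011712) (l 4)))))) (l 4)), by decide +kernel⟩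

def k1_pm_012_a : ∃ t, chk3 f_pm_012_a t 12 2 1 = true :=
  ⟨(b (a (b (l 16776608) (b (l 16716528) (l 16417888))) (b (a (l 16601336) (b (a (b (l 16491144) (l 16279104)) (a (b (l 16408088) (l 16300216)) (l 16352048))) (l 15983208))) (b (l 16216536) (a (l 16275000) (l 15841688))))) (b (a (b (l 15956472) (l 15606840)) (b (l 15648760) (l 15228912))) (l 4))), by decide +kernel⟩

def k2_pm_012_a : ∃ t, chk3 f_pm_012_a t 26 4 1 = true :=
  ⟨(b (a (b (a (c (l 16264584) (a (l 16299440) (l 16243552))) (b (l 16273200) (a (c (l 16175632) (b (l 16247752) (l 16202264))) (b (l 16243232) (c (c (l 16198480) (l 16177288)) (l 16178656)))))) (a (b (c (l 15919528) (l 15704880)) (l 15751648)) (b (b (c (a (l 15969928) (l 15794280)) (a (l 15962432) (l 16025208))) (c (l 15608816) (l 15731032))) (b (c (l 15572504) (l 15600576)) (l 15535984))))) (c (b (l 16086624) (b (a (a (b (b (l 16117848) (l 16006072)) (b (l 15951264) (l 15760608))) (b (c (l 16093832) (l 16068896)) (b (l 15941040) (l 15880520)))) (b (l 16029592)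 (a (b (c (l 16042080) (l 16018344)) (l 15875576)) (c (l 15987304) (c (l 15993016) (l 15966152)))))) (a (c (l 15398904) (a (l 15527576) (l 15310488))) (b (a (b (l 15809472) (l 15582576)) (b (l 15809728) (l 15738296))) (a (l 15342528) (l 15461168)))))) (b (b (l 16128232) (a (a (a (b (l 16199448) (l 16158024)) (l 16173552)) (l 16138824)) (l 16069352))) (b (b (a (a (l 16089344) (l 16070608)) (a (a (l 16053560) (l 16071088)) (l 16035856))) (a (a (l 15795488) (l 15888432)) (a (l 15975704) (c (l 15967328) (l 15972800))))) (a (b (l 15522456) (l 15372736)) (a (b (l 15626616) (l 15291312)) (b (l 15752008) (l 15356800)))))))) (b (a (l 15526400) (a (l 15206296) (b (b (c (a (b (l 15218800) (l 15171952)) (l 15151944)) (l 15139728)) (l 15047008)) (l 14939936)))) (l 15095264))), by decide +kernel⟩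

def k3_pm_012_a : ∃ t, chk3 f_pm_012_a t 27 8 1 = true :=
  ⟨(a (b (l 15917936) (b (b (l 15896840) (a (a (a (c (l 15952928) (l 15948264)) (l 15983464)) (l 15944440)) (l 15807384))) (b (a (a (c (b (c (l 15934384) (l 15908032)) (l 15633904)) (l 15819912)) (b (l 15938712) (c (a (l 15723008) (l 15860856)) (l 15807648)))) (l 15798112)) (a (a (c (b (l 15667160) (l 15403272)) (l 15458088)) (c (b (a (l 15690896) (b (l 15828912) (l 15707560))) (l 15360232)) (l 15468056))) (a (a (c (b (l 15616120) (l 15601496)) (l 15723480)) (c (b (l 15759088) (l 15467880)) (l 15706888))) (b (l 15741552) (c (l 15681488) (l 15648088)))))))) (l 15533224)), by decide +kernel⟩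

def k4_pm_012_a : ∃ t, chk3 f_pm_012_a t 27 9 1 = true :=
  ⟨(a (b (a (b (a (b (c (l 15124832) (l 15065664)) (l 14918232)) (c (a (b (l 15163032) (l 14923976)) (b (l 15234304) (l 14902480))) (b (l 15132928) (l 14856696)))) (l 14751520)) (a (b (b (c (b (l 15490280) (l 15210192)) (l 15299784)) (b (l 14940360) (l 14799328))) (l 14643304)) (b (b (b (c (a (l 15498904) (l 15365632)) (l 15577744)) (c (l 15388072) (l 15324496))) (c (b (l 15105552) (l 14861160)) (l 14908024))) (b (b (l 14687912) (l 14596912)) (l 14538568))))) (l 14436368)) (b (b (b (a (a (c (b (l 15577576) (a (l 15395744) (l 15262536))) (c (l 15510048) (l 15501256))) (b (l 15531400) (c (l 15472784) (l 15436080)))) (l 15377888)) (a (c (a (b (l 15285776) (l 15001888)) (a (b (l 15291992) (l 15183832)) (b (l 15158584) (l 15202704)))) (a (l 15098992) (b (l 15375688) (l 15131040)))) (b (a (c (l 15367168) (l 15329112)) (l 15317744)) (c (a (a (l 15187616) (l 15053832)) (l 15260768)) (a (l 15273288) (l 15221600)))))) (b (b (a (a (l 14714760)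 (c (l 14984872) (l 14833552))) (c (a (c (l 15095040) (l 15090088)) (a (b (l 15246248) (l 15112912)) (l 14948336))) (a (l 15035304) (l 15169768)))) (a (a (l 14429536) (l 14603168)) (c (a (l 14887464) (c (l 14992048) (l 14989856))) (a (l 14729096) (l 14940008))))) (b (a (a (l 14487208) (c (l 14497696) (l 14416208))) (a (l 14429600) (c (l 14791176) (l 14626544)))) (a (l 14415456) (c (a (l 14387416) (l 14423168)) (l 14333072)))))) (a (l 14265240) (a (l 14170208) (b (b (b (c (l 14276440) (l 14187040)) (l 14156584)) (l 14121136)) (l 14050680)))))), by decide +kernel⟩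

def k5_pm_012_a : ∃ t, chk3 f_pm_012_a t 13 5 1 = true :=
  ⟨(b (b (a (l 14956328) (a (a (l 14335056) (l 14171056)) (l 14015504))) (a (l 14814624) (l 14166880))) (a (l 4) (l 14144480))), by decide +kernel⟩

def k6_pm_012_a : ∃ t, chk3 f_pm_012_a t 6 3 1 = true :=
  ⟨(l 4), by decide +kernel⟩

def k7_pm_012_a : ∃ t, chk3 f_pm_012_a t 28 8 1 = true :=
  ⟨(l 14961864), by decide +kernel⟩

def k8_pm_012_a : ∃ t, chk3 f_pm_012_a t 56 9 1 = true :=
  ⟨(b (b (l 15068928) (b (a (b (a (c (l 15153616) (l 15113664)) (l 15100824)) (c (a (c (a (l 15121872) (l 15124472)) (l 15090552)) (l 15045768)) (a (l 15065144) (a (l 15034904) (l 15038360))))) (l 14944016)) (a (c (a (c (b (l 14888640) (l 14722904)) (b (l 14889320) (l 14583776))) (b (a (b (l 15067496) (l 14909712)) (l 15014016)) (a (l 14787008) (l 14788752)))) (a (b (l 14844912) (l 14526264)) (b (l 14959240) (l 14749752)))) (a (c (a (b (l 14962392) (b (l 14958088) (l 14808952))) (l 14907864)) (b (a (l 14926632) (l 14926320)) (l 14852072))) (l 14876680)))))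 (b (a (b (c (a (b (l 14319088) (l 14166064)) (b (c (l 14628672) (l 14488688)) (l 14214616))) (a (l 14164320) (b (l 14428680) (l 14125064)))) (a (l 14036144) (b (c (l 14055736) (l 13958488)) (l 13934408)))) (a (b (c (a (b (l 14687080) (l 14366744)) (b (b (l 14856096) (l 14710752)) (l 14549192))) (b (l 14722456) (l 14334280))) (c (b (l 14112352) (l 13945568)) (b (l 14019328) (l 13844432)))) (b (c (c (b (l 14825448) (a (l 14601968) (l 14585072))) (b (a (l 14798032) (l 14790216)) (l 14699216))) (b (c (l 14760592) (l 14747144)) (l 14633160))) (b (c (a (l 14353696) (l 14456744)) (l 14243616)) (a (l 13915432) (l 14033376)))))) (a (l 13939920) (a (l 13808792) (b (b (c (l 13835696) (l 13730688)) (l 13710056)) (l 13704568)))))), by decide +kernel⟩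

def k9_pm_012_a : ∃ t, chk3 f_pm_012_a t 57 9 1 = true :=
  ⟨(b (l 14666408) (b (b (a (a (b (l 14761056) (c (c (l 14715288) (c (l 14707968) (l 14664936))) (c (l 14651776) (l 14638728)))) (l 14653176)) (l 14537528)) (b (a (c (a (c (a (l 14498824) (l 14499952)) (l 14600472)) (l 14598616)) (a (l 14477688) (c (l 14542528) (l 14529448)))) (l 14523760)) (a (c (a (a (l 14274120) (l 14363432)) (a (c (l 14394480) (l 14401168)) (b (l 14566992) (l 14344688)))) (a (l 14198608) (a (l 14364184) (l 14467272)))) (a (a (c (l 14512976) (l 14446192)) (l 14522456)) (l 14491272))))) (b (a (a (b (a (l 13812296) (l 13939848)) (c (l 13726328) (l 13617496))) (b (c (a (l 14194328) (l 14268736)) (l 14124032)) (a (l 13712600) (l 13850760)))) (c (a (a (b (b (a (l 14368632) (l 14465048)) (l 14305960)) (l 14114552)) (b (c (l 14485168) (l 14424064)) (c (l 14225984) (l 14212960)))) (b (l 14444864) (c (a (l 14274800) (l 14443088)) (a (l 14378848) (l 14388712))))) (a (b (a (l 14345208) (l 14387856)) (l 14056040)) (c (b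 (l 14423008) (l 14343856)) (b (l 14383856) (l 14314888)))))) (b (a (a (l 13596744) (c (l 13617752) (l 13505152))) (a (c (a (l 13675992) (l 13863280)) (l 13650104)) (c (a (l 14119872) (c (l 14219920) (l 14212568))) (a (l 13955320) (l 14159392))))) (a (l 13542472) (a (a (b (l 13435280) (l 13390712)) (c (l 13552264) (l 13437768))) (c (a (l 13730064) (l 13990440)) (l 13721456)))))))), by decide +kernel⟩

def k10_pm_012_a : ∃ t, chk3 f_pm_012_a t 28 5 1 = true :=
  ⟨(a (l 13781792) (a (l 13564736) (b (b (b (b (b (c (a (a (l 13459224) (l 13469096)) (a (l 13518784) (l 13611168))) (a (l 13359024) (l 13464264))) (a (l 13409808) (a (l 13421040) (c (l 13520048) (l 13401264))))) (l 13436336)) (l 13470904)) (a (l 13507112) (l 13498080))) (c (l 13554032) (l 13439496))))), by decide +kernel⟩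

def k11_pm_012_a : ∃ t, chk3 f_pm_012_a t 58 4 1 = true :=
  ⟨(b (l 14568208) (a (b (l 14497368) (b (l 14442016) (b (a (a (b (l 14450784) (c (l 14416144) (l 14355272))) (l 14425232)) (l 14393544)) (b (a (c (a (b (l 14409136) (l 14111960)) (l 14390616)) (a (l 14300432) (l 14313768))) (l 14379992)) (a (c (a (c (l 14160064) (l 14123656)) (b (l 14329440) (l 14186352))) (a (l 14026184) (l 14220856))) (c (a (b (l 14364992) (l 14314472)) (l 14347128)) (a (l 14270064) (l 14273824)))))))) (l 14375424))), by decide +kernel⟩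

def k12_pm_012_a : ∃ t, chk3 f_pm_012_a t 58 5 1 = true :=
  ⟨(b (b (b (b (b (a (c (a (a (l 13788064) (c (l 14065736) (l 13937792))) (a (c (l 14163888) (l 14137688)) (b (l 14298200) (l 14178712)))) (a (l 13775256) (a (l 14061288) (l 14212064)))) (a (c (c (l 14321560) (a (l 14280736) (l 14290472))) (a (l 14233960) (a (l 14239488) (l 14260800)))) (l 14276728))) (a (c (a (a (l 13573000) (l 13671832)) (a (l 13845448) (b (l 14117640) (l 13940680)))) (a (l 13520680) (c (l 13851784) (l 13800976)))) (c (a (a (b (l 14172360) (l 14123368)) (b (l 14296728) (l 14245024))) (l 14264240)) (a (a (l 14079720) (l 14188880)) (a (b (l 14237664) (l 14192760)) (l 14213544)))))) (b (a (a (a (l 13467216) (c (l 13571968) (l 13454392))) (c (a (l 13628768) (l 13733928)) (l 13577920))) (c (a (c (l 14048576) (a (l 13875464) (l 14067136))) (c (a (a (l 14154840) (l 14246280)) (l 14007872)) (a (l 14199096) (a (l 14215976) (l 14232600))))) (a (a (l 13797472) (l 13974232)) (a (l 14126040) (c (l 14178592) (l 14143576))))))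 (a (a (l 13482176) (a (l 13514328) (c (l 13624944) (l 13508624)))) (a (c (a (l 13686720) (l 13796784)) (l 13635456)) (c (c (l 14062912) (l 13893760)) (a (l 13850344) (l 14005824))))))) (a (l 13506728) (b (c (c (l 13782856) (a (a (l 13590544) (l 13752744)) (l 13779968))) (a (b (l 13553800) (l 13512160)) (c (l 13570808) (b (l 13664616) (l 13576032))))) (l 13580584)))) (c (c (c (l 13611808) (l 13574160)) (l 13523024)) (l 13431512))) (c (c (c (l 13597352) (l 13540720)) (l 13488144)) (l 13396376))), by decide +kernel⟩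

def k13_pm_012_a : ∃ t, chk3 f_pm_012_a t 59 2 1 = true :=
  ⟨(b (l 14328968) (b (b (b (a (a (b (l 14229120) (c (c (l 14177128) (c (l 14004664) (l 14049576))) (a (b (a (l 14159600) (l 14177096)) (l 14110472)) (c (l 14099976) (l 13897168))))) (l 14179024)) (l 14141736)) (c (a (c (a (b (a (l 14005264) (l 14164256)) (l 13843840)) (b (l 14148536) (l 14028480))) (a (b (b (a (l 14008232) (l 14127464)) (l 13804424)) (l 13801136)) (b (l 14111016) (c (l 14001272) (l 13838496))))) (a (c (l 14130720) (a (l 14025544) (l 14100736))) (l 14119216))) (a (a (a (l 13609280) (b (b (l 14047496) (l 13820808)) (l 13747992))) (b (a (l 13995304) (l 14048280)) (l 13786120))) (a (b (l 14042440) (b (l 14020328) (l 13898192))) (l 14032592))))) (c (b (a (l 13706584) (a (l 13893056) (c (l 14055600) (l 14010000)))) (a (c (l 13648144) (l 13577024)) (c (l 13762272) (l 13700392)))) (a (l 13460976) (b (a (l 13793752) (l 13938360)) (l 13594760))))) (c (c (a (c (l 13609904) (l 13571360)) (a (l 13469648) (a (l 13744000)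 (l 13757120)))) (c (a (l 13497208) (c (a (l 13673960) (l 13718104)) (l 13502648))) (l 13595184))) (a (l 13383728) (l 13555296))))), by decide +kernel⟩

def k14_pm_012_a : ∃ t, chk3 f_pm_012_a t 14 3 1 = true :=
  ⟨(l 4), by decide +kernel⟩

def k15_pm_012_a : ∃ t, chk3 f_pm_012_a t 30 2 1 = true :=
  ⟨(a (a (b (l 14211488) (b (b (c (l 13904192) (l 13994800)) (b (a (c (c (l 14089384) (l 14046544)) (l 13974800)) (c (c (l 14034088) (l 14000424)) (l 13928368))) (c (c (a (l 13860320) (l 13877968)) (a (l 13808864) (l 13845176))) (l 13808144)))) (b (c (b (c (l 13411768) (a (l 13621168) (l 13625408))) (c (l 13486592) (c (a (l 13460640) (l 13479192)) (l 13380856)))) (l 13538104)) (l 4)))) (b (l 14112064) (b (b (l 13949688) (c (c (b (l 13938328) (b (l 13915224) (l 13809592))) (b (l 13930936) (b (l 13907144) (l 13802096)))) (c (l 13752544) (l 13682896)))) (c (c (l 13614312) (c (l 13627720) (c (a (l 13617648) (l 13600688)) (a (l 13571064) (l 13556280))))) (b (l 13411184) (l 13354768)))))) (b (l 13947120)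 (b (a (c (c (l 13793784) (c (l 13784184) (l 13775424))) (a (c (a (l 13811984) (l 13557920)) (l 13750320)) (l 13749760))) (l 13689568)) (b (b (c (c (a (l 13760200) (l 13593056)) (a (c (l 13794912) (l 13786456)) (l 13645384))) (c (a (b (a (l 13663480) (l 13707968)) (l 13552888)) (c (a (l 13673584) (l 13617136)) (l 13618184))) (l 13557704))) (c (c (a (l 13508296) (l 13500816)) (a (b (l 13456496) (l 13401104)) (a (l 13447344) (l 13499128)))) (c (b (a (l 13451320) (a (l 13468776) (l 13506096))) (a (l 13352112) (a (l 13382488) (l 13366832)))) (l 13237776)))) (c (c (l 13393928) (a (c (l 13424792) (l 13429000)) (l 13352416))) (c (c (a (c (l 13395920) (l 13351000)) (c (l 13360520) (l 13338168))) (l 13309072)) (l 13260016))))))), by decide +kernel⟩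

def k16_pm_012_a : ∃ t, chk3 f_pm_012_a t 31 2 1 = true :=
  ⟨(a (b (l 13619120) (b (l 13474200) (a (b (a (c (c (l 13466240) (l 13333408)) (b (l 13534456) (c (a (b (l 13522472) (l 13381264)) (b (l 13527456) (l 13398576))) (l 13482120)))) (c (l 13419656) (c (c (l 13489336) (l 13482704)) (l 13439272)))) (c (l 13347776) (c (c (l 13353976) (c (l 13138744) (a (l 13333240) (l 13313472)))) (l 13277208)))) (c (c (l 13301400) (a (l 13368752) (l 13290088))) (c (c (l 13371240) (b (l 13389816) (a (l 13347768) (l 13346752)))) (c (b (l 13376264) (c (a (l 13332584) (c (l 13350120) (l 13342456))) (l 13235400))) (l 13343448))))))) (c (b (l 13576760) (a (a (a (l 13282992) (l 13261736)) (l 13249152)) (l 13277264))) (b (l 13542688) (b (l 13310456) (b (l 13222712) (c (a (a (l 13250736) (l 13175992)) (l 13133536)) (c (a (c (l 13242768) (a (c (l 13277632) (l 13269672)) (l 13210600))) (a (l 13131936) (l 13093528))) (c (a (a (l 13257736) (l 13203160)) (a (l 13143104) (l 13085400))) (a (l 13217224) (a (l 13135288)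 (a (l 13094600) (l 13070528)))))))))))), by decide +kernel⟩

def k17_pm_012_a : ∃ t, chk3 f_pm_012_a t 15 3 1 = true :=
  ⟨(a (l 4) (a (l 4) (b (a (l 4) (b (l 4) (l 4))) (l 4)))), by decide +kernel⟩

theorem s18_pm_012_a : ∃ t, chk3 f_pm_012_a t 15 2 1 = true := ex3_a k15_pm_012_a k16_pm_012_a

theorem s19_pm_012_a : ∃ t, chk3 f_pm_012_a t 15 1 1 = true := ex3_b s18_pm_012_a k17_pm_012_a

theorem s20_pm_012_a : ∃ t, chk3 f_pm_012_a t 58 2 1 = true := ex3_b k11_pm_012_a k12_pm_012_a

theorem s21_pm_012_a : ∃ t, chk3 f_pm_012_a t 29 2 1 = true := ex3_a s20_pm_012_a k13_pm_012_a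

theorem s22_pm_012_a : ∃ t, chk3 f_pm_012_a t 28 9 1 = true := ex3_a k8_pm_012_a k9_pm_012_a

theorem s23_pm_012_a : ∃ t, chk3 f_pm_012_a t 28 4 1 = true := ex3_b k7_pm_012_a s22_pm_012_a

theorem s24_pm_012_a : ∃ t, chk3 f_pm_012_a t 28 2 1 = true := ex3_b s23_pm_012_a k10_pm_012_a

theorem s25_pm_012_a : ∃ t, chk3 f_pm_012_a t 14 2 1 = true := ex3_a s24_pm_012_a s21_pm_012_a

theorem s26_pm_012_a : ∃ t, chk3 f_pm_012_a t 14 1 1 = true := ex3_b s25_pm_012_a k14_pm_012_a

theorem s27_pm_012_a : ∃ t, chk3 f_pm_012_a t 7 1 1 = true := ex3_a s26_pm_012_a s19_pm_012_a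

theorem s28_pm_012_a : ∃ t, chk3 f_pm_012_a t 27 4 1 = true := ex3_b k3_pm_012_a k4_pm_012_a

theorem s29_pm_012_a : ∃ t, chk3 f_pm_012_a t 13 4 1 = true := ex3_a k2_pm_012_a s28_pm_012_a

theorem s30_pm_012_a : ∃ t, chk3 f_pm_012_a t 13 2 1 = true := ex3_b s29_pm_012_a k5_pm_012_a

theorem s31_pm_012_a : ∃ t, chk3 f_pm_012_a t 6 2 1 = true := ex3_a k1_pm_012_a s30_pm_012_a

theorem s32_pm_012_a : ∃ t, chk3 f_pm_012_a t 6 1 1 = true := ex3_b s31_pm_012_a k6_pm_012_a

theorem s33_pm_012_a : ∃ t, chk3 f_pm_012_a t 3 1 1 = true := ex3_a s32_pm_012_a s27_pm_012_a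

theorem s34_pm_012_a : ∃ t, chk3 f_pm_012_a t 1 1 1 = true := ex3_a k0_pm_012_a s33_pm_012_a

theorem c_pm_012_a : CertNX 0 536870912 0 420477299 1046898278 26843546 3 false true false .pnp 0 1 2
    ndN5q0 ndN1q2a pcN1 Cut.none Ext.none :=
  certNX2 (fam := false) (s1 := true) (s2 := false) (a := 0) (b := 1) (c := 2) (cn := .pnp) (n1 := ndN5q0) (n2 := ndN1q2a) (pc := pcN1) (cut := Cut.none) (xt := Ext.none) (P1 := 0) (W1 := 536870912) (P2 := 0) (W2 := 420477299) (P3 := 1046898278) (W3 := 26843546) (N0 := 3)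
    rfl (fun _ => rfl) s34_pm_012_a

noncomputable def f_pm_012_b : ℕ → ℕ → ℕ → ℕ → Bool := onCell 0 536870912 536870912 536870912 1046898278 26843546
    (rowNX 3 1 false true false .pnp 0 1 2 (qsf 0 536870912 1239849684 370763052 1) ndN5q0 ndN1q2b pcN1 Cut.none Ext.none)

def k0_pm_012_b : ∃ t, chk3 f_pm_012_b t 1 2 1 = true :=
  ⟨(a (l 1) (b (l 1) (a (l 1) (b (a (l 1) (l 16721456)) (a (l 578243918455) (l 16777080)))))), by decide +kernel⟩

def k1_pm_012_b : ∃ t, chk3 f_pm_012_b t 2 3 1 = true :=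
  ⟨(a (l 1) (b (l 1) (b (a (l 1) (b (a (l 1) (l 15093800)) (l 14645264))) (b (a (a (l 1) (l 566964122791)) (a (l 14182672) (l 13995096))) (a (b (c (l 597028201575) (l 14133968)) (c (l 13832512) (b (l 13859760) (l 13712800)))) (a (b (l 13639560) (l 13349320)) (b (l 13439088) (l 13146384)))))))), by decide +kernel⟩

def k2_pm_012_b : ∃ t, chk3 f_pm_012_b t 3 6 1 = true :=
  ⟨(b (a (a (l 1) (b (l 687228699207) (a (l 16592384) (b (l 16654304) (b (l 16491448) (c (l 16377680) (l 16383232))))))) (b (l 16776552) (a (b (l 16562544) (c (l 16185496) (l 16181544))) (l 16256168)))) (b (a (a (l 461204564823) (a (l 16232984) (a (l 16221160) (a (b (c (l 16278080) (l 16263848)) (l 16119256)) (b (c (b (l 16225536) (l 16187344)) (l 16218560)) (c (c (l 16066656) (l 16039304)) (l 16040016))))))) (a (a (b (c (a (l 16088968) (l 15766584)) (a (l 15971368) (l 15730248))) (a (a (c (a (l 15937208) (l 15900928)) (l 15893104)) (a (l 15785968) (l 15621840))) (a (l 15474320) (l 15303216)))) (l 15399600)) (l 15225944)))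 (a (a (l 15712384) (b (b (a (l 15994960) (a (l 15978096) (a (l 15970120) (c (l 15887720) (l 15899912))))) (l 15817608)) (l 15512496))) (a (a (b (a (a (c (a (b (l 15906392) (l 15732544)) (b (l 15754760) (l 15692472))) (b (l 15840960) (l 15690904))) (c (b (l 15564520) (l 15484088)) (b (l 15522736) (l 15451776)))) (b (a (l 15268400) (l 15005096)) (a (l 15135688) (l 14830344)))) (a (c (a (l 15420504) (b (l 15302064) (a (l 15310904) (l 15140168)))) (a (a (l 15452496) (l 15381480)) (l 15290256))) (c (a (a (l 15120496) (l 14879728)) (l 14646728)) (l 14725256)))) (a (a (a (b (b (l 14898776) (l 14702520)) (l 14401912)) (l 14556120)) (l 14523168)) (l 14459312))) (b (l 14435312) (l 14101536)))))), by decide +kernel⟩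

def k3_pm_012_b : ∃ t, chk3 f_pm_012_b t 3 14 1 = true :=
  ⟨(b (a (l 14944208) (a (a (a (a (l 14832512) (b (c (c (l 14989944) (b (l 15047072) (l 14873888))) (c (l 14926592) (l 14915504))) (b (c (l 14656984) (l 14604024)) (l 14514232)))) (a (b (c (c (l 14411480) (l 14716224)) (l 14667560)) (b (c (a (l 14596968) (l 14426208)) (l 14509936)) (c (a (l 14470224) (l 14404360)) (l 14365976)))) (b (c (l 14348272) (l 14252832)) (c (b (l 14215832) (a (l 14214800) (l 13957672))) (l 14033128))))) (a (b (a (c (l 14023456) (l 13925344)) (l 13879656)) (b (a (l 13671768) (l 13538664)) (c (a (l 13635640) (l 13487832)) (a (l 13524848) (l 13368280))))) (l 13675576))) (b (l 13787864) (b (l 13565792) (l 13482304))))) (a (l 14389720) (a (a (a (l 14260344) (b (b (a (a (l 14400848) (c (c (l 14388160) (l 14335456)) (l 14293632))) (c (l 13970896) (l 14068904))) (c (b (l 14116968) (l 14190448)) (l 13916152))) (c (b (l 14143472) (l 14080400)) (l 14033448)))) (c (b (b (l 13721016) (l 13777008)) (b (l 13984352) (l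 13967216))) (a (b (a (l 13725704) (l 13528032)) (l 13736280)) (l 13568344)))) (c (c (b (l 13599568) (b (l 13627248) (l 13641056))) (b (l 13523712) (c (l 13581600) (l 13523664)))) (l 13442072))))), by decide +kernel⟩

def k4_pm_012_b : ∃ t, chk3 f_pm_012_b t 3 15 1 = true :=
  ⟨(b (a (a (l 13879920) (l 13747616)) (a (b (c (b (a (l 13827080) (l 13830336)) (c (l 13771952) (l 13761336))) (l 13764720)) (a (l 13484864) (c (l 13409168) (l 13226376)))) (c (c (b (l 13502488) (l 13214040)) (b (c (b (l 13552536) (l 13439264)) (b (l 13485728) (l 13400184))) (l 13209616))) (b (l 13351632) (c (c (l 13040320) (l 13141112)) (l 13090648)))))) (b (b (a (l 13324208) (c (l 13139352) (c (c (l 13190504) (a (a (l 13228968) (l 13162496)) (l 12978208))) (l 13126592)))) (a (l 13147536) (c (l 12932816) (c (l 12811496) (a (a (l 13002656) (l 12940056)) (l 12737096)))))) (a (c (l 12949296) (l 12904496)) (c (a (l 12745736) (l 12730608)) (c (b (l 12763496) (l 12606992)) (c (b (a (l 12785344) (l 12651480)) (l 12583248))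 (b (l 12759840) (c (l 12576240) (l 12570016))))))))), by decide +kernel⟩

theorem s5_pm_012_b : ∃ t, chk3 f_pm_012_b t 3 7 1 = true := ex3_b k3_pm_012_b k4_pm_012_b

theorem s6_pm_012_b : ∃ t, chk3 f_pm_012_b t 3 3 1 = true := ex3_b k2_pm_012_b s5_pm_012_b

theorem s7_pm_012_b : ∃ t, chk3 f_pm_012_b t 1 3 1 = true := ex3_a k1_pm_012_b s6_pm_012_b

theorem s8_pm_012_b : ∃ t, chk3 f_pm_012_b t 1 1 1 = true := ex3_b k0_pm_012_b s7_pm_012_b

theorem c_pm_012_b : CertNX 0 536870912 1239849684 370763052 1046898278 26843546 3 false true false .pnp 0 1 2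
    ndN5q0 ndN1q2b pcN1 Cut.none Ext.none :=
  certNX1 (fam := false) (s1 := true) (s2 := false) (a := 0) (b := 1) (c := 2) (cn := .pnp) (n1 := ndN5q0) (n2 := ndN1q2b) (pc := pcN1) (cut := Cut.none) (xt := Ext.none) (P1 := 0) (W1 := 536870912) (P2 := 1239849684) (W2 := 370763052) (P3 := 1046898278) (W3 := 26843546) (N0 := 3)
    rfl (fun _ => rfl) s8_pm_012_b

end Pool.Agent.Strip051.G.IE1.Tab.C.NB51

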