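import Pool.Agent.Strip051.G.IE1.Tab

/-! # Certificates N78 (generated) -/

set_option linter.all false
set_option maxRecDepth 100000

namespace Pool.Agent.Strip051.G.IE1.Tab.C.NB51

open Pool.Agent.Strip051.PB Pool.Agent.Strip051.PB.T
open Pool.Agent.Strip051.G.IE1.Tab

noncomputable def f_pm_022_a : ℕ → ℕ → ℕ → ℕ → Bool := onCell 0 536870912 0 420477299 1046898278 26843546
    (rowNX 3 0 false true false .pp 0 2 2 (qsf 0 536870912 0 420477299 2) ndN5q0 ndN1q2a pcN2 Cut.none Ext.none)

def k0_pm_022_a : ∃ t, chk3 f_pm_022_a t 4 2 2 = true :=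
  ⟨(a (a (b (a (a (l 16287016) (b (a (l 16208192) (l 16004800)) (a (l 16144128) (l 15944264)))) (b (l 15878256) (l 15803128))) (a (b (a (a (l 16259832) (l 16062656)) (a (l 15959072) (l 16002296))) (a (b (l 16050136) (l 16045808)) (l 15665720))) (b (l 15666208) (a (l 15784352) (l 15626320))))) (b (a (l 15516488) (b (l 15556248) (l 15441384))) (a (b (l 15551632) (a (l 15465552) (l 15343504))) (c (b (c (l 15233368) (l 15315816)) (a (c (l 15271504) (l 15223560)) (b (l 15043584) (c (l 15161808) (l 15107472))))) (b (l 15292936) (l 15137408)))))) (c (a (b (a (b (a (l 15418392) (l 15279576)) (a (l 15313064) (l 15131448))) (b (l 14968392) (c (l 14804888) (l 14799304)))) (a (b (a (c (l 15193736) (l 15127624)) (l 14966624)) (c (l 14870552) (a (l 14989704) (l 14771360)))) (b (l 14595576) (l 14385840)))) (b (a (l 14441320) (l 14145320)) (l 13898904))) (a (b (a (l 15221680) (c (l 14591808) (l 14799568))) (a (b (l 14985192) (a (l 14913656) (l 14717456))) (b (c (l 14586240) (l 14549904)) (c (a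 (l 14512096) (l 14249976)) (l 14202760))))) (b (a (b (a (l 14589312) (l 14400304)) (c (l 14330448) (l 14318608))) (l 14038504)) (a (b (c (l 14133456) (a (l 14214792) (l 14027584))) (a (l 13973152) (l 13806072))) (l 13708800)))))), by decide +kernel⟩

def k1_pm_022_a : ∃ t, chk3 f_pm_022_a t 4 2 3 = true :=
  ⟨(a (a (b (a (a (c (a (l 16386528) (l 16269368)) (c (l 16089952) (l 16125576))) (b (c (l 16155488) (l 16130384)) (c (a (l 16122624) (l 16064088)) (l 15994992)))) (b (l 15943472) (l 15886760))) (a (a (b (a (c (l 16225624) (a (l 16234888) (l 16178616))) (c (b (l 16152168) (l 16096600)) (b (l 16143640) (l 16086888)))) (a (b (c (l 16122392) (l 15916344)) (l 15918064)) (c (l 16007480) (l 15995872)))) (b (a (l 15797520) (l 15985128)) (l 15785768))) (b (l 15787256) (l 15626968)))) (b (a (l 15663584) (l 15454064)) (a (l 15187056) (b (l 15257976) (l 15098064))))) (a (b (a (l 15184616) (l 14757544)) (b (l 14711384) (a (l 14743128) (l 14253656)))) (b (c (a (l 14329760) (b (l 14162544)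 (c (l 13995360) (l 13974752)))) (l 14168360)) (c (a (b (l 14074952) (a (l 13940416) (c (l 13771128) (l 13752648)))) (b (c (l 13787728) (l 13752136)) (c (l 13555672) (a (l 13597880) (l 13455352))))) (a (l 13899432) (b (l 13730424) (c (a (l 13577552) (l 13419472)) (l 13457408)))))))), by decide +kernel⟩

def k2_pm_022_a : ∃ t, chk3 f_pm_022_a t 8 3 1 = true :=
  ⟨(b (a (a (c (b (a (l 15903696) (a (l 15751240) (l 15666040))) (a (l 15482544) (c (b (l 15533952) (l 15450536)) (a (l 15503416) (l 15466424))))) (a (b (c (l 15763688) (a (l 15807960) (l 15802624))) (c (a (l 15643784) (l 15512400)) (a (c (l 15622056) (l 15503600)) (l 15533640)))) (b (c (l 15691840) (l 15655848)) (c (l 15462792) (l 15421568))))) (c (b (a (l 15518600) (l 15450920)) (b (c (a (l 15461600) (c (l 15379464) (l 15340896))) (l 15356568)) (b (c (a (l 15414136) (c (l 15408024) (l 15294568))) (l 15299728)) (l 4)))) (b (l 15433376) (b (l 15285184) (l 15171568))))) (c (b (a (c (c (b (l 15388000) (a (l 15386616) (l 15262832)))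 (b (l 15300176) (l 15227632))) (l 15214520)) (c (b (a (c (l 15210216) (l 15115896)) (l 14913656)) (c (l 14998952) (a (l 15059848) (l 14933184)))) (b (l 15004520) (c (l 14945480) (l 14890824))))) (b (b (a (c (a (l 15089848) (l 15102448)) (l 15098752)) (a (c (l 15021112) (l 14943872)) (l 4))) (a (c (a (c (l 15312032) (l 15199312)) (l 4)) (l 15067072)) (l 4))) (l 4))) (b (a (l 15163080) (l 14904568)) (a (l 14831864) (l 14753912))))) (a (a (a (a (b (a (b (c (l 15582128) (l 15501432)) (l 4)) (l 4)) (l 4)) (l 4)) (l 4)) (l 4)) (l 4))), by decide +kernel⟩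

def k3_pm_022_a : ∃ t, chk3 f_pm_022_a t 9 3 1 = true :=
  ⟨(b (b (a (c (c (a (b (l 14698312) (l 14597288)) (l 14160032)) (a (b (c (l 14695552) (l 14656080)) (c (a (l 14723432) (l 14469880)) (l 14354672))) (b (c (l 14196728) (a (l 14320752) (l 14052424))) (l 14085752)))) (a (l 14538392) (c (b (l 14138616) (c (a (l 14192592) (l 13934832)) (l 14028584))) (l 14032464)))) (b (c (l 13599264) (c (a (c (l 13681392) (a (l 13754040) (l 13564864))) (l 13369224)) (a (l 13620304) (c (a (l 13389056) (l 13256544)) (l 13285608))))) (l 4))) (l 4)) (l 4)), by decide +kernel⟩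

def k4_pm_022_a : ∃ t, chk3 f_pm_022_a t 5 1 1 = true :=
  ⟨(a (a (b (b (c (l 13739960) (c (a (b (l 13902192) (l 13706848)) (l 13527360)) (a (b (l 13847056) (l 13645168)) (b (l 13448040) (c (l 13388168) (l 13355336)))))) (c (l 13320432) (c (b (l 13353640) (l 13119368)) (b (a (c (l 13257760) (l 13410032)) (l 12916264)) (a (c (l 13208032) (a (l 13244904) (l 13101488))) (l 12908808)))))) (b (b (b (c (l 13068936) (a (c (l 13101192) (l 12952688)) (l 1))) (l 4)) (l 1)) (l 1))) (b (b (l 1) (l 1)) (l 1))) (l 1)), by decide +kernel⟩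

def k5_pm_022_a : ∃ t, chk3 f_pm_022_a t 3 1 1 = true :=
  ⟨(l 1), by decide +kernel⟩

theorem s6_pm_022_a : ∃ t, chk3 f_pm_022_a t 4 3 1 = true := ex3_a k2_pm_022_a k3_pm_022_a

theorem s7_pm_022_a : ∃ t, chk3 f_pm_022_a t 4 2 1 = true := ex3_c k0_pm_022_a k1_pm_022_a

theorem s8_pm_022_a : ∃ t, chk3 f_pm_022_a t 4 1 1 = true := ex3_b s7_pm_022_a s6_pm_022_a

theorem s9_pm_022_a : ∃ t, chk3 f_pm_022_a t 2 1 1 = true := ex3_a s8_pm_022_a k4_pm_022_a

theorem s10_pm_022_a : ∃ t, chk3 f_pm_022_a t 1 1 1 = true := ex3_a s9_pm_022_a k5_pm_022_a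

theorem c_pm_022_a : CertNX 0 536870912 0 420477299 1046898278 26843546 3 false true false .pp 0 2 2
    ndN5q0 ndN1q2a pcN2 Cut.none Ext.none :=
  certNX0 (fam := false) (s1 := true) (s2 := false) (a := 0) (b := 2) (c := 2) (cn := .pp) (n1 := ndN5q0) (n2 := ndN1q2a) (pc := pcN2) (cut := Cut.none) (xt := Ext.none) (P1 := 0) (W1 := 536870912) (P2 := 0) (W2 := 420477299) (P3 := 1046898278) (W3 := 26843546) (N0 := 3)
    rfl s10_pm_022_a

noncomputable def f_pm_022_b : ℕ → ℕ → ℕ → ℕ → Bool := onCell 0 536870912 1073741824 536870912 1046898278 26843546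
    (rowNX 3 1 false true false .pp 0 2 2 (qsf 0 536870912 1239849684 370763052 2) ndN5q0 ndN1q2b pcN2 Cut.none Ext.none)

def k0_pm_022_b : ∃ t, chk3 f_pm_022_b t 1 4 1 = true :=
  ⟨(a (a (a (b (l 1) (a (b (l 1) (a (l 1) (c (a (l 1) (l 15974096)) (l 15901656)))) (b (b (l 1) (b (l 1) (c (l 627096177527) (l 15714320)))) (c (a (l 15816328) (l 15622096)) (l 15630168))))) (b (a (b (l 1) (b (l 1) (c (c (l 15156440) (l 773660757495)) (l 15071936)))) (c (b (l 14288448) (c (l 14488296) (b (l 14405336) (l 14508624)))) (b (b (l 1) (c (l 641051914231) (l 14234928))) (b (l 570721961783) (l 14421200))))) (b (a (c (b (c (l 757017957175) (l 15174848)) (a (l 266318245895) (l 15053632))) (l 268465231687)) (c (c (b (l 14643528) (l 14683104)) (l 14586768)) (l 14526504))) (a (a (l 15342312) (l 15014688)) (l 14654720))))) (b (c (b (a (l 13782424) (l 13261032)) (a (c (l 14023032) (b (l 13922648) (l 14045912))) (c (l 13546400) (b (l 13426816) (l 13572736))))) (b (a (c (b (l 13657688) (c (l 13783648) (l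 13753856))) (b (c (l 13621200) (l 13590128)) (l 13717128))) (c (b (l 13112520) (l 13239680)) (b (a (l 13146976) (l 12952912)) (l 13182200)))) (a (a (l 14045824) (l 13752104)) (b (l 13336096) (l 13448976))))) (b (a (c (c (b (l 14208512) (l 14271344)) (l 14149552)) (l 14076432)) (c (b (c (l 13765976) (l 13657000)) (l 13820832)) (l 13617792))) (a (l 14288360) (l 13923880))))) (a (b (c (b (l 12990496) (c (l 13306752) (b (l 13172632) (l 13337328)))) (b (c (b (l 12830472) (l 12967984)) (b (a (l 12830784) (l 12690984)) (l 12906192))) (b (l 13074472) (l 13201128)))) (b (c (b (a (l 13538328) (l 13449976)) (l 13529336)) (l 13406816)) (l 13801440))) (a (b (c (b (l 12839936) (l 13033632)) (b (c (l 12746200) (l 12663456)) (l 13041816))) (l 4)) (l 4)))), by decide +kernel⟩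

def k1_pm_022_b : ∃ t, chk3 f_pm_022_b t 1 5 1 = true :=
  ⟨(a (a (a (b (a (a (a (b (b (l 1) (c (l 16363408) (c (l 16218152) (a (l 16201632) (l 16318472))))) (c (b (l 16042824) (l 15734304)) (c (b (l 16011424) (l 15735440)) (b (a (l 16013136) (l 16089264)) (l 15524184))))) (b (b (c (c (l 16101512) (l 16102104)) (l 15916720)) (c (l 448856078007) (l 16112856))) (c (b (c (l 16141272) (l 16123048)) (l 15643568)) (c (l 15857240) (l 15967680))))) (b (b (c (l 268467006391) (l 15967464)) (c (l 16073448) (l 16171096))) (c (b (l 16006624) (l 15788376)) (l 15913144)))) (b (b (c (l 15607856) (l 15749592)) (c (l 15921272) (l 15967704))) (c (a (l 16101136) (l 16313040)) (l 16105424)))) (a (a (b (c (a (l 15306704) (c (l 15418912) (l 15386592))) (a (c (l 15295288) (a (l 15264280) (l 15302608))) (l 15299792))) (c (a (l 14963320) (l 15064920)) (a (c (l 14941608) (l 14903584)) (l 15013904)))) (b (c (l 15253880) (l 15502712)) (c (l 15161184) (l 15166160)))) (b (a (c (l 15667648) (l 15678808)) (l 15677976))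 (c (l 15453752) (l 15441528))))) (b (a (b (b (l 15247064) (l 15466424)) (a (l 16081832) (l 15885544))) (b (b (l 14884960) (l 15153248)) (l 15605480))) (b (a (a (l 16115672) (l 16304480)) (l 16026536)) (a (l 15852392) (l 16307288))))) (b (b (b (a (l 14598960) (l 14325576)) (a (l 14890336) (l 14642736))) (a (l 15334456) (l 15081392))) (b (a (l 15734944) (l 15485840)) (a (l 16043616) (l 4))))) (b (b (b (l 14270904) (l 14602120)) (l 4)) (l 4))), by decide +kernel⟩

def k2_pm_022_b : ∃ t, chk3 f_pm_022_b t 1 3 1 = true :=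
  ⟨(a (a (b (a (b (a (a (c (a (l 14714472) (c (l 14833000) (l 14788752))) (a (c (l 14685104) (l 14620920)) (l 14746656))) (c (l 14831776) (l 14888496))) (c (l 14942416) (l 15148776))) (a (c (a (a (l 14454664) (l 14543648)) (l 14624320)) (a (a (c (l 14416368) (l 14388064)) (l 14469720)) (l 14605448))) (c (l 14896376) (l 14858752)))) (b (a (a (l 15536112) (l 15909120)) (l 16299160)) (a (b (l 15450488) (l 15430744)) (l 16027016)))) (a (a (a (c (b (l 14483176) (l 14483176)) (b (c (l 14443648) (l 14416816)) (l 14428624))) (b (c (l 14614280) (l 14594904)) (l 4))) (b (c (l 14886328) (l 14848176)) (l 4))) (l 4))) (b (b (a (b (l 16329744) (l 16526272)) (l 4)) (l 4)) (l 4))) (l 4)), by decide +kernel⟩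

theorem s3_pm_022_b : ∃ t, chk3 f_pm_022_b t 1 2 1 = true := ex3_b k0_pm_022_b k1_pm_022_b

theorem s4_pm_022_b : ∃ t, chk3 f_pm_022_b t 1 1 1 = true := ex3_b s3_pm_022_b k2_pm_022_b

theorem c_pm_022_b : CertNX 0 536870912 1239849684 370763052 1046898278 26843546 3 false true false .pp 0 2 2
    ndN5q0 ndN1q2b pcN2 Cut.none Ext.none :=
  certNX1 (fam := false) (s1 := true) (s2 := false) (a := 0) (b := 2) (c := 2) (cn := .pp) (n1 := ndN5q0) (n2 := ndN1q2b) (pc := pcN2) (cut := Cut.none) (xt := Ext.none) (P1 := 0) (W1 := 536870912) (P2 := 1239849684) (W2 := 370763052) (P3 := 1046898278) (W3 := 26843546) (N0 := 3)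
    rfl (fun _ => rfl) s4_pm_022_b

noncomputable def f_pm_023 : ℕ → ℕ → ℕ → ℕ → Bool := onCell 0 536870912 1610612736 469762048 1046898278 26843546
    (rowNX 3 0 false true false .up 0 2 3 (qsf 0 536870912 1610612736 469762048 2) ndN5q0 ndN1q3 pcN2 Cut.none Ext.none)

def k0_pm_023 : ∃ t, chk3 f_pm_023 t 1 1 1 = true :=
  ⟨(b (a (l 4) (l 4)) (l 4)), by decide +kernel⟩

theorem c_pm_023 : CertNX 0 536870912 1610612736 469762048 1046898278 26843546 3 false true false .up 0 2 3
    ndN5q0 ndN1q3 pcN2 Cut.none Ext.none :=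
  certNX0 (fam := false) (s1 := true) (s2 := false) (a := 0) (b := 2) (c := 3) (cn := .up) (n1 := ndN5q0) (n2 := ndN1q3) (pc := pcN2) (cut := Cut.none) (xt := Ext.none) (P1 := 0) (W1 := 536870912) (P2 := 1610612736) (W2 := 469762048) (P3 := 1046898278) (W3 := 26843546) (N0 := 3)
    rfl k0_pm_023

noncomputable def f_pm_033 : ℕ → ℕ → ℕ → ℕ → Bool := onCell 0 536870912 1610612736 469762048 1046898278 26843546
    (rowNX 3 0 false true false .pnn 0 3 3 (qsf 0 536870912 1610612736 469762048 3) ndN5q0 ndN1q3 pcN3 Cut.none Ext.none)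

def k0_pm_033 : ∃ t, chk3 f_pm_033 t 1 1 1 = true :=
  ⟨(b (a (l 4) (l 1)) (l 4)), by decide +kernel⟩

theorem c_pm_033 : CertNX 0 536870912 1610612736 469762048 1046898278 26843546 3 false true false .pnn 0 3 3
    ndN5q0 ndN1q3 pcN3 Cut.none Ext.none :=
  certNX0 (fam := false) (s1 := true) (s2 := false) (a := 0) (b := 3) (c := 3) (cn := .pnn) (n1 := ndN5q0) (n2 := ndN1q3) (pc := pcN3) (cut := Cut.none) (xt := Ext.none) (P1 := 0) (W1 := 536870912) (P2 := 1610612736) (W2 := 469762048) (P3 := 1046898278) (W3 := 26843546) (N0 := 3)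
    rfl k0_pm_033

noncomputable def f_pm_101 : ℕ → ℕ → ℕ → ℕ → Bool := onCell 536870912 469762048 536870912 536870912 1046898278 26843546
    (rowNX 3 0 false true false .npn 1 0 1 (qsf 536870912 469762048 536870912 536870912 0) ndN5q1 ndN1q1 pcN0 Cut.none Ext.none)

def k0_pm_101 : ∃ t, chk3 f_pm_101 t 1 1 1 = true :=
  ⟨(l 4), by decide +kernel⟩

theorem c_pm_101 : CertNX 536870912 469762048 536870912 536870912 1046898278 26843546 3 false true false .npn 1 0 1
    ndN5q1 ndN1q1 pcN0 Cut.none Ext.none :=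
  certNX0 (fam := false) (s1 := true) (s2 := false) (a := 1) (b := 0) (c := 1) (cn := .npn) (n1 := ndN5q1) (n2 := ndN1q1) (pc := pcN0) (cut := Cut.none) (xt := Ext.none) (P1 := 536870912) (W1 := 469762048) (P2 := 536870912) (W2 := 536870912) (P3 := 1046898278) (W3 := 26843546) (N0 := 3)
    rfl k0_pm_101

noncomputable def f_pm_102_a : ℕ → ℕ → ℕ → ℕ → Bool := onCell 536870912 469762048 0 420477299 1046898278 26843546
    (rowNX 3 0 false true false .npp 1 0 2 (qsf 536870912 469762048 0 420477299 0) ndN5q1 ndN1q2a pcN0 Cut.none Ext.none)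

def k0_pm_102_a : ∃ t, chk3 f_pm_102_a t 1 1 1 = true :=
  ⟨(b (a (c (l 16776592) (l 16776568)) (a (a (l 16776576) (a (l 16577072) (l 15871432))) (a (a (l 15096976) (l 14301608)) (a (c (l 13613584) (l 13502072)) (b (l 13696632) (c (l 13754544) (l 13641576))))))) (l 4)), by decide +kernel⟩

theorem c_pm_102_a : CertNX 536870912 469762048 0 420477299 1046898278 26843546 3 false true false .npp 1 0 2
    ndN5q1 ndN1q2a pcN0 Cut.none Ext.none :=
  certNX0 (fam := false) (s1 := true) (s2 := false) (a := 1) (b := 0) (c := 2) (cn := .npp) (n1 := ndN5q1) (n2 := ndN1q2a) (pc := pcN0) (cut := Cut.none) (xt := Ext.none) (P1 := 536870912) (W1 := 469762048) (P2 := 0) (W2 := 420477299) (P3 := 1046898278) (W3 := 26843546) (N0 := 3)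
    rfl k0_pm_102_a

noncomputable def f_pm_102_b : ℕ → ℕ → ℕ → ℕ → Bool := onCell 536870912 469762048 1239849684 370763052 1046898278 26843546
    (rowNX 3 0 false true false .npp 1 0 2 (qsf 536870912 469762048 1239849684 370763052 0) ndN5q1 ndN1q2b pcN0 Cut.none Ext.none)

def k0_pm_102_b : ∃ t, chk3 f_pm_102_b t 1 1 1 = true :=
  ⟨(a (b (a (l 2) (l 16777216)) (l 2)) (a (b (a (l 16777216) (a (l 16576760) (l 15871072))) (a (l 2) (l 16230016))) (a (b (a (l 15096576) (l 14301168)) (a (l 15096576) (l 14301168))) (b (a (b (l 13557320) (l 13557320)) (b (l 13693984) (l 13693848))) (a (l 13557320) (l 13693848)))))), by decide +kernel⟩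

theorem c_pm_102_b : CertNX 536870912 469762048 1239849684 370763052 1046898278 26843546 3 false true false .npp 1 0 2
    ndN5q1 ndN1q2b pcN0 Cut.none Ext.none :=
  certNX0 (fam := false) (s1 := true) (s2 := false) (a := 1) (b := 0) (c := 2) (cn := .npp) (n1 := ndN5q1) (n2 := ndN1q2b) (pc := pcN0) (cut := Cut.none) (xt := Ext.none) (P1 := 536870912) (W1 := 469762048) (P2 := 1239849684) (W2 := 370763052) (P3 := 1046898278) (W3 := 26843546) (N0 := 3)
    rfl k0_pm_102_b

noncomputable def f_pm_112_a : ℕ → ℕ → ℕ → ℕ → Bool := onCell 536870912 536870912 0 420477299 1046898278 26843546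
    (rowNX 3 2 false true false .dn 1 1 2 (qsf 536870912 469762048 0 420477299 1) ndN5q1 ndN1q2a pcN1 Cut.none Ext.none)

def k0_pm_112_a : ∃ t, chk3 f_pm_112_a t 1 1 1 = true :=
  ⟨(a (b (a (l 16776576) (a (a (l 16761032) (l 1129073430423)) (l 1))) (l 4)) (l 1)), by decide +kernel⟩

theorem c_pm_112_a : CertNX 536870912 469762048 0 420477299 1046898278 26843546 3 false true false .dn 1 1 2
    ndN5q1 ndN1q2a pcN1 Cut.none Ext.none :=
  certNX2 (fam := false) (s1 := true) (s2 := false) (a := 1) (b := 1) (c := 2) (cn := .dn) (n1 := ndN5q1) (n2 := ndN1q2a) (pc := pcN1) (cut := Cut.none) (xt := Ext.none) (P1 := 536870912) (W1 := 469762048) (P2 := 0) (W2 := 420477299) (P3 := 1046898278) (W3 := 26843546) (N0 := 3)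
    rfl (fun _ => rfl) k0_pm_112_a

noncomputable def f_pm_112_b : ℕ → ℕ → ℕ → ℕ → Bool := onCell 536870912 469762048 536870912 536870912 1046898278 26843546
    (rowNX 3 1 false true false .dn 1 1 2 (qsf 536870912 469762048 1239849684 370763052 1) ndN5q1 ndN1q2b pcN1 Cut.none Ext.none)

def k0_pm_112_b : ∃ t, chk3 f_pm_112_b t 1 1 1 = true :=
  ⟨(b (a (b (a (b (l 506303081143) (l 452616009063)) (l 16777056)) (a (l 222298566455) (l 16690104))) (a (b (a (l 16777216) (l 16230016)) (a (l 16641704) (l 16091544))) (a (b (l 14704856) (a (l 14965552) (l 14181824))) (b (l 13737336) (l 2))))) (b (a (b (a (b (l 16695584) (l 16097800)) (b (l 16365824) (l 15748256))) (a (b (l 15024968) (b (l 14248872) (l 13998328))) (b (l 14889168) (l 14184624)))) (a (b (b (l 15959352) (l 15371464)) (l 2)) (l 2))) (a (b (b (b (l 13782640) (b (l 13567968) (c (l 13555312) (l 13440832)))) (c (a (c (b (l 13572088) (b (l 13539400) (l 13506464))) (a (l 13466368) (l 13466368))) (l 2)) (l 13352008))) (b (b (a (b (c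 (c (l 13422008) (l 13370064)) (l 13236104)) (l 4)) (l 2)) (l 4)) (l 4))) (l 2)))), by decide +kernel⟩

theorem c_pm_112_b : CertNX 536870912 469762048 1239849684 370763052 1046898278 26843546 3 false true false .dn 1 1 2
    ndN5q1 ndN1q2b pcN1 Cut.none Ext.none :=
  certNX1 (fam := false) (s1 := true) (s2 := false) (a := 1) (b := 1) (c := 2) (cn := .dn) (n1 := ndN5q1) (n2 := ndN1q2b) (pc := pcN1) (cut := Cut.none) (xt := Ext.none) (P1 := 536870912) (W1 := 469762048) (P2 := 1239849684) (W2 := 370763052) (P3 := 1046898278) (W3 := 26843546) (N0 := 3)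
    rfl (fun _ => rfl) k0_pm_112_b

noncomputable def f_pm_113 : ℕ → ℕ → ℕ → ℕ → Bool := onCell 536870912 469762048 536870912 536870912 1046898278 26843546
    (rowNX 3 1 false true false .nn 1 1 3 (qsf 536870912 469762048 1610612736 469762048 1) ndN5q1 ndN1q3 pcN1 Cut.none Ext.none)

def k0_pm_113 : ∃ t, chk3 f_pm_113 t 1 1 1 = true :=
  ⟨(b (a (l 1) (a (b (l 1) (a (l 16641704) (l 16091544))) (a (b (l 14704856) (l 182564768087)) (b (l 13737336) (a (l 13454304) (l 13611808)))))) (b (a (a (l 1) (b (b (l 16365824) (l 15748256)) (b (l 14889168) (l 14184624)))) (a (b (b (l 15959352) (l 15371464)) (b (l 14606296) (l 13948312))) (b (a (b (l 14231544) (l 13679024)) (b (l 13408408) (l 12870416))) (a (b (l 12900720) (l 12236864)) (b (l 12026136) (l 11325608)))))) (b (a (b (b (l 13782640) (c (l 586289711319) (l 13476760))) (a (a (l 1) (b (c (l 617428115831) (l 13387176)) (l 4))) (l 4))) (a (l 4) (b (a (b (l 11806736) (l 4)) (b (l 10959776) (c (l 10875888) (l 10515360)))) (a (l 4) (a (l 4)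 (c (c (c (l 11345512) (l 11183872)) (l 10928320)) (l 10421016))))))) (b (a (a (a (a (l 1) (l 4)) (l 4)) (l 4)) (l 4)) (l 4))))), by decide +kernel⟩

theorem c_pm_113 : CertNX 536870912 469762048 1610612736 469762048 1046898278 26843546 3 false true false .nn 1 1 3
    ndN5q1 ndN1q3 pcN1 Cut.none Ext.none :=
  certNX1 (fam := false) (s1 := true) (s2 := false) (a := 1) (b := 1) (c := 3) (cn := .nn) (n1 := ndN5q1) (n2 := ndN1q3) (pc := pcN1) (cut := Cut.none) (xt := Ext.none) (P1 := 536870912) (W1 := 469762048) (P2 := 1610612736) (W2 := 469762048) (P3 := 1046898278) (W3 := 26843546) (N0 := 3)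
    rfl (fun _ => rfl) k0_pm_113

noncomputable def f_pm_123 : ℕ → ℕ → ℕ → ℕ → Bool := onCell 1073741824 536870912 1610612736 469762048 1046898278 26843546
    (rowNX 3 2 false true false .npn 1 2 3 (qsf 536870912 469762048 1610612736 469762048 2) ndN5q1 ndN1q3 pcN2 Cut.none Ext.none)

def k0_pm_123 : ∃ t, chk3 f_pm_123 t 1 1 1 = true :=
  ⟨(a (a (b (l 4) (l 4)) (l 4)) (b (l 1) (l 4))), by decide +kernel⟩

theorem c_pm_123 : CertNX 536870912 469762048 1610612736 469762048 1046898278 26843546 3 false true false .npn 1 2 3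
    ndN5q1 ndN1q3 pcN2 Cut.none Ext.none :=
  certNX2 (fam := false) (s1 := true) (s2 := false) (a := 1) (b := 2) (c := 3) (cn := .npn) (n1 := ndN5q1) (n2 := ndN1q3) (pc := pcN2) (cut := Cut.none) (xt := Ext.none) (P1 := 536870912) (W1 := 469762048) (P2 := 1610612736) (W2 := 469762048) (P3 := 1046898278) (W3 := 26843546) (N0 := 3)
    rfl (fun _ => rfl) k0_pm_123

noncomputable def f_pm_133 : ℕ → ℕ → ℕ → ℕ → Bool := onCell 536870912 469762048 1610612736 469762048 1046898278 26843546
    (rowNX 3 0 false true false .dn 1 3 3 (qsf 536870912 469762048 1610612736 469762048 3) ndN5q1 ndN1q3 pcN3 Cut.none Ext.none)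

def k0_pm_133 : ∃ t, chk3 f_pm_133 t 1 1 1 = true :=
  ⟨(l 1), by decide +kernel⟩

theorem c_pm_133 : CertNX 536870912 469762048 1610612736 469762048 1046898278 26843546 3 false true false .dn 1 3 3
    ndN5q1 ndN1q3 pcN3 Cut.none Ext.none :=
  certNX0 (fam := false) (s1 := true) (s2 := false) (a := 1) (b := 3) (c := 3) (cn := .dn) (n1 := ndN5q1) (n2 := ndN1q3) (pc := pcN3) (cut := Cut.none) (xt := Ext.none) (P1 := 536870912) (W1 := 469762048) (P2 := 1610612736) (W2 := 469762048) (P3 := 1046898278) (W3 := 26843546) (N0 := 3)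
    rfl k0_pm_133

noncomputable def f_pm_202_a : ℕ → ℕ → ℕ → ℕ → Bool := onCell 0 536870912 0 420477299 1046898278 26843546
    (rowNX 3 2 false true false .pp 2 0 2 (qsf 1073741824 536870912 0 420477299 0) ndN5q2 ndN1q2a pcN0 Cut.none Ext.none)

def k0_pm_202_a : ∃ t, chk3 f_pm_202_a t 8 2 1 = true :=
  ⟨(l 3), by decide +kernel⟩

def k1_pm_202_a : ∃ t, chk3 f_pm_202_a t 16 6 2 = true :=
  ⟨(l 3), by decide +kernel⟩

def k2_pm_202_a : ∃ t, chk3 f_pm_202_a t 16 14 2 = true :=
  ⟨(b (l 3) (a (b (a (b (l 3) (a (l 16066328) (a (l 16040272) (l 16026296)))) (c (b (l 15992832) (a (l 16008896) (l 15986456))) (a (l 15979688) (b (l 175185963079) (l 15942048))))) (a (a (c (l 16091168) (l 16084080)) (c (l 16052472) (a (l 16055472) (b (l 16023744) (l 16019336))))) (a (c (c (l 16014096) (a (l 16017824) (l 16004456))) (c (a (l 16017560) (l 16011952)) (l 16023096))) (c (c (l 15993304) (l 16000944)) (c (l 16009752) (a (l 16018968) (l 16015432))))))) (c (a (b (b (b (l 3) (l 15922216)) (a (l 15965936)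 (c (l 15945608) (l 15944888)))) (a (b (l 15981576) (l 15999328)) (b (l 15965096) (l 15987184)))) (c (b (b (l 15899416) (l 15918392)) (l 15881000)) (b (b (l 15901288) (l 15919648)) (l 15944528)))) (a (a (b (b (l 181628374023) (l 15943536)) (b (l 15984664) (l 15944688))) (b (c (l 15949536) (a (l 15948928) (l 180017731239))) (b (l 15968208) (l 15989984)))) (c (b (b (l 177333318423) (a (l 15930312) (l 15924712))) (a (l 15959832) (a (l 15946952) (l 15945832)))) (a (b (l 15945192) (l 15971800)) (c (b (l 15943304) (l 15964312)) (a (c (l 15964152) (a (b (l 15957560) (l 15977160)) (b (l 180554587735) (l 15969064)))) (c (a (c (l 15964160) (l 174112170087)) (b (l 15917992) (l 15961160))) (l 174648946295)))))))))), by decide +kernel⟩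

def k3_pm_202_a : ∃ t, chk3 f_pm_202_a t 16 15 4 = true :=
  ⟨(a (a (b (b (l 16119568) (a (l 16181912) (l 16170080))) (a (b (l 16232992) (l 16307616)) (b (l 16196400) (l 16241680)))) (a (b (c (b (l 16057480) (l 16136552)) (a (l 16110328) (b (l 16046880) (l 16130608)))) (b (c (l 16203544) (a (l 16241848) (c (l 16223928) (l 16222720)))) (c (a (l 16305400) (c (l 16306456) (l 16308040))) (a (l 16315632) (c (l 16220992) (l 16298360)))))) (b (b (b (l 16015768) (l 16019312)) (c (l 16093696) (l 16096648))) (b (c (l 16176248) (l 16169848)) (c (c (a (l 16291008) (l 16250808)) (l 16261456)) (l 16136136)))))) (a (b (a (b (c (l 16022576) (l 16036672)) (c (l 16063440) (l 16068856))) (b (b (b (l 16002856) (l 16014832)) (l 16032576)) (c (l 16056808) (l 16062488)))) (b (a (l 16039552) (c (l 16098992) (l 16098368))) (a (c (l 16192728) (a (l 16185800) (l 16154256))) (c (l 16139896) (l 16133304))))) (b (b (a (b (l 15993776) (l 16017408)) (l 15987216)) (a (l 15969712) (l 16036080))) (c (b (l 16078496)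 (l 16120816)) (l 16096520))))), by decide +kernel⟩

def k4_pm_202_a : ∃ t, chk3 f_pm_202_a t 16 15 5 = true :=
  ⟨(b (c (a (a (b (l 16120408) (a (l 16181688) (l 16182584))) (b (a (a (l 16072528) (l 16054280)) (l 16045808)) (a (a (l 16117224) (l 16128992)) (l 16095208)))) (a (a (b (l 16045360) (l 16071128)) (l 16029680)) (b (a (l 16002712) (l 15990520)) (l 16045928)))) (a (a (a (b (l 16133936) (b (l 16170320) (l 16205656))) (b (a (l 16118024) (l 16099464)) (a (l 16188288) (c (l 16101528) (a (l 16189848) (l 16177792)))))) (a (b (l 16067184) (b (l 16117864) (l 16110568))) (b (a (l 16055632) (l 16053288)) (a (l 16095904) (l 16084160))))) (a (c (l 15952264) (l 15973672)) (a (b (l 16006976) (l 16048472)) (b (c (l 15998480) (b (l 15922448) (a (l 16009720) (l 15997088)))) (l 16032080)))))) (a (a (a (l 16292384) (b (c (l 16246976) (l 16258040)) (l 16245200))) (a (b (c (a (c (a (l 16248928) (l 16241376)) (b (l 16222016) (l 16260680))) (l 16206024)) (b (l 16056392) (l 16221456))) (l 16203192))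 (c (b (l 16090032) (b (l 16195928) (l 16236176))) (a (c (l 16091408) (l 16128768)) (a (l 16072360) (l 16148976)))))) (a (c (a (a (c (l 16141928) (l 16135760)) (l 16128008)) (l 16123944)) (l 16140960)) (b (a (l 16093104) (c (l 16072848) (l 16072480))) (l 16039144))))), by decide +kernel⟩

def k5_pm_202_a : ∃ t, chk3 f_pm_202_a t 16 6 3 = true :=
  ⟨(l 3), by decide +kernel⟩

def k6_pm_202_a : ∃ t, chk3 f_pm_202_a t 16 28 3 = true :=
  ⟨(l 3), by decide +kernel⟩

def k7_pm_202_a : ∃ t, chk3 f_pm_202_a t 32 29 6 = true :=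
  ⟨(a (b (a (b (l 3) (a (l 16060584) (l 16022184))) (a (l 166059224919) (l 15972160))) (a (a (l 16098440) (c (l 16071496) (b (l 16056136) (c (l 16089584) (l 16073736))))) (c (a (b (l 16037784) (l 16066104)) (l 15974336)) (a (b (l 16040880) (c (l 16069200) (l 16070008))) (b (l 16036208) (l 16054864)))))) (c (a (b (l 15959120) (a (l 16032776) (l 16029616))) (b (l 15984424) (l 16018448))) (a (b (l 170354141495) (a (b (l 16030160) (l 16050000)) (l 16030704))) (c (l 178407190343) (a (l 16007688) (c (l 16005168) (a (l 16008232) (l 186460237767)))))))), by decide +kernel⟩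

def k8_pm_202_a : ∃ t, chk3 f_pm_202_a t 32 29 7 = true :=
  ⟨(a (c (a (b (b (l 3) (a (l 162838025447) (b (l 16036712) (c (l 16040624) (a (l 16044024) (l 16042536)))))) (a (a (l 16090800) (l 16048248)) (c (a (a (l 16089968) (l 16025656)) (b (l 16052864) (l 16086744))) (a (l 16060976) (l 16064464))))) (c (b (l 16022440) (a (a (l 16060248) (l 16049264)) (l 16043712))) (a (l 161764251239) (c (l 16029560) (a (l 16033696) (l 16031024)))))) (c (a (a (a (l 159079924135) (a (b (l 16024176) (l 16088616)) (b (l 16041768) (l 16084168)))) (b (l 163911728183) (l 16069376))) (a (c (l 15996568) (c (a (l 16042608) (l 16036096)) (l 160690483847))) (c (c (a (l 16035000) (l 15985216)) (a (l 16010624) (l 16022552))) (l 16024376)))) (a (a (c (a (b (l 16048912) (l 16098016)) (l 16055904)) (b (a (c (l 16048560) (a (l 16049408) (l 16046016))) (c (l 163374869063) (l 16042312))) (l 16093984))) (c (a (c (l 16050712) (l 16050536)) (l 15960984)) (l 16045760))) (l 16028400)))) (c (a (c (c (l 16018784) (a (l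 16022720) (a (l 16022080) (l 177870337175)))) (c (c (a (l 16026176) (a (l 16019344) (l 15965336))) (a (l 15962328) (b (l 15995328) (l 16025832)))) (a (a (c (l 16026984) (l 16020808)) (l 173038495159)) (l 16005152)))) (c (c (c (a (l 16012768) (a (l 16000480) (l 186997090215))) (a (l 180554668567) (a (l 15907328) (l 15983112)))) (a (a (c (l 16009240) (l 16000376)) (b (l 15983080) (l 16011720))) (l 15984664))) (l 15987848))) (b (l 15983136) (l 16016200)))), by decide +kernel⟩

def k9_pm_202_a : ∃ t, chk3 f_pm_202_a t 33 29 3 = true :=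
  ⟨(c (c (a (b (c (a (l 15968464) (l 15965048)) (a (l 15975672) (a (c (l 15971448) (l 15956224)) (b (l 188607643415) (c (l 15974640) (l 15962184)))))) (c (l 15937824) (a (l 16006416) (a (l 16001912) (l 15986064))))) (a (b (c (a (b (l 15954944) (c (l 15965544) (l 15968240))) (c (b (l 15950936) (l 15961560)) (l 15941112))) (c (a (l 184849530727) (b (l 15905344) (l 15879184))) (a (b (l 15915632) (a (l 15936344) (l 15923256))) (l 15909696)))) (c (a (l 15984936) (l 15971336)) (a (c (l 15974728) (l 15957656)) (l 15945480)))) (c (c (a (b (l 15931920) (l 15954528)) (b (b (l 15885184) (l 15901496)) (b (b (b (l 15912672) (l 15917432)) (l 15924504)) (l 15939096)))) (a (b (b (l 15895192) (l 15911216)) (a (l 15897600) (l 15906704))) (l 15907584))) (l 15910280)))) (a (a (c (a (l 15997136) (c (l 15994528) (a (b (l 189144594535) (l 16008264)) (l 183775849799)))) (a (c (a (l 185386514087) (l 185386478791)) (b (a (l 191292041271) (l 191292031671)) (b (l 15987808) (l 16005680)))) (c (b (a (l 190218277911)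 (l 190218267175)) (b (l 15977832) (l 15996472))) (l 15966840)))) (c (a (a (c (b (l 15913072) (l 16000344)) (b (l 188607643431) (l 15986216))) (c (l 15971872) (b (l 188607633223) (l 15970696)))) (b (c (a (l 187533880471) (l 186996999463)) (l 15929168)) (l 15964744))) (l 15910432))) (b (l 15900856) (l 15926720)))) (a (b (l 15878840) (l 15978648)) (l 15885072))), by decide +kernel⟩

def k10_pm_202_a : ∃ t, chk3 f_pm_202_a t 32 15 3 = true :=
  ⟨(a (c (a (b (a (l 16141584) (c (b (l 16066984) (l 16183040)) (b (a (l 16130480) (c (l 16127528) (b (l 16061096) (l 16159288)))) (l 16208624)))) (l 16271848)) (b (b (c (a (c (l 16127544) (a (l 16134632) (l 16104616))) (c (l 16101424) (l 16101296))) (a (c (b (l 16088360) (a (l 16149864) (l 16132816))) (l 16046312)) (c (l 16093848) (l 16085816)))) (c (b (a (c (l 16178928) (a (l 16187128) (l 16177896))) (c (l 16159472) (l 16146304))) (l 16199432)) (a (l 16187648) (c (l 16144216) (l 16145576))))) (c (a (l 16306608) (l 16280432)) (a (l 16297544) (l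 16260152))))) (a (a (c (l 16133272) (a (b (l 16089840) (l 16194728)) (b (l 16020280) (l 16166736)))) (c (b (c (a (l 16181968) (l 16095088)) (l 16169216)) (l 16190232)) (b (l 16168232) (l 16293472)))) (c (b (a (b (c (l 16040152) (l 16106872)) (l 16176440)) (l 16120944)) (l 16237304)) (b (l 16142040) (l 16289744))))) (c (c (b (a (c (b (l 16068144) (a (l 16136544) (l 16104768))) (a (b (l 16075800) (l 16119072)) (l 16080360))) (l 16028936)) (a (l 16201432) (l 16175432))) (b (a (a (c (l 16034440) (l 16099968)) (l 16084888)) (b (l 16052960) (l 16101624))) (l 16174328))) (b (c (a (a (l 16111256) (c (l 16089160) (l 16091576))) (c (a (l 16016488) (l 16006560)) (l 16071776))) (l 16083848)) (l 16213856)))), by decide +kernel⟩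

def k11_pm_202_a : ∃ t, chk3 f_pm_202_a t 33 15 3 = true :=
  ⟨(c (c (a (b (c (l 15975936) (a (l 16060680) (a (l 16040600) (c (l 16036872) (l 15989128))))) (l 16112080)) (b (b (a (b (c (a (l 16006600) (l 15994920)) (a (c (l 15998928) (l 15987248)) (l 15976368))) (l 16011312)) (c (a (c (l 15991568) (l 15979440)) (c (l 15971024) (l 15965752))) (l 15968640))) (a (c (l 16045472) (a (l 16046240) (l 16034352))) (c (l 16023552) (l 16028984)))) (b (a (l 16112152) (b (c (l 16038104) (l 16055752)) (l 16089752))) (a (l 16157336) (l 16145592))))) (a (a (b (c (l 16062112) (a (b (l 16044576) (l 16094752)) (l 16013488))) (l 16133072)) (b (c (a (c (l 15994904) (b (l 15965616) (l 16059296))) (b (b (l 15931168) (l 16015664)) (l 16053648))) (b (l 15997632) (l 16057040))) (l 16069672))) (b (b (l 15974328) (l 16035240)) (b (l 16073768) (l 16148128))))) (b (a (b (a (l 16032960) (l 15990312)) (l 15996392)) (b (l 15964944) (l 16024976))) (a (l 16166656) (l 15967176)))), by decide +kernel⟩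

def k12_pm_202_a : ∃ t, chk3 f_pm_202_a t 17 6 2 = true :=
  ⟨(l 3), by decide +kernel⟩

def k13_pm_202_a : ∃ t, chk3 f_pm_202_a t 68 14 2 = true :=
  ⟨(b (l 3) (c (b (c (a (l 15886280) (b (l 15865192) (l 15882904))) (b (l 15869000) (l 15905328))) (b (b (c (a (l 15907856) (l 15897096)) (a (l 15916376) (l 15917712))) (l 15922120)) (l 15936464))) (c (a (b (b (l 15916080) (l 15929008)) (c (l 15941664) (c (l 15951760) (a (l 15957448) (l 15958072))))) (c (a (l 15938000) (c (l 15937480) (a (l 15943072) (c (l 15939880) (a (l 15939488) (l 15932776)))))) (b (b (a (c (l 15925368) (l 15912616)) (l 15887960)) (a (c (l 15936272) (l 15924632)) (l 15901816))) (b (b (a (c (l 15945168) (l 15934376)) (l 15913008)) (l 15929992)) (l 15941600))))) (b (a (a (c (c (l 15942152) (b (l 15928744) (l 15940072))) (c (l 15909888) (b (l 15875320) (l 15892008)))) (c (b (l 15905352) (l 15876584)) (c (b (l 15865600) (l 15882632)) (l 15866992)))) (c (a (c (l 15890984) (b (l 15856032) (l 15873376))) (c (b (l 15846608)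 (l 15864240)) (l 15848464))) (l 15851280))) (a (b (c (b (b (a (c (l 15954200) (l 15947856)) (l 15927536)) (l 15938664)) (l 15944136)) (b (b (a (c (l 15925112) (l 15903392)) (c (l 15894240) (l 15885832))) (l 15909944)) (l 15916768))) (c (l 15955528) (l 15930856))) (c (b (a (c (l 15912568) (a (l 15854472) (l 15884584))) (c (a (l 15845472) (l 15875624)) (l 15874368))) (l 15913072)) (l 15881712))))))), by decide +kernel⟩

def k14_pm_202_a : ∃ t, chk3 f_pm_202_a t 69 14 2 = true :=
  ⟨(b (b (l 3) (a (l 3) (a (l 3) (c (c (l 15867784) (c (l 175722684183) (l 15839232))) (c (l 181628050903) (l 15777112)))))) (c (c (b (l 15879640) (b (l 15902880) (l 15920120))) (a (c (l 15914488) (a (l 15927032) (c (l 15926728) (b (a (l 15918648) (l 15889576)) (b (a (l 15936064) (l 15907712)) (l 15944392)))))) (a (c (b (l 15905896) (l 15931016)) (c (b (a (l 15913120) (l 15903120)) (b (a (l 15930728) (l 15921704)) (l 15938376))) (l 15899448))) (b (c (c (l 15905752) (a (b (l 15901688) (l 15912936)) (l 15895336)))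 (l 15859432)) (c (b (b (c (l 15920840) (l 15915224)) (l 15922440)) (l 15932872)) (l 15890776)))))) (c (c (b (a (a (c (b (l 15913528) (l 15924736)) (l 15901784)) (l 15877272)) (a (c (l 15852520) (b (l 15819224) (l 15816536))) (c (a (l 15803672) (l 15811912)) (l 15810160)))) (a (b (b (a (c (l 15891936) (l 15918592)) (l 15896376)) (l 15915640)) (l 15927496)) (b (b (a (c (l 15873800) (l 15810240)) (c (l 15822608) (l 15835112))) (l 15863784)) (l 15878648)))) (a (a (c (l 15888448) (b (b (l 15837328) (l 15855208)) (b (a (l 15857584) (l 15866816)) (l 15894288)))) (c (b (b (l 15828200) (l 15846304)) (b (a (l 15848864) (l 15858144)) (l 15885632))) (l 15849432))) (b (l 15812624) (l 15851424)))) (b (l 15817792) (l 15850792))))), by decide +kernel⟩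

def k15_pm_202_a : ∃ t, chk3 f_pm_202_a t 34 15 2 = true :=
  ⟨(c (b (b (c (a (l 15943128) (l 15947544)) (a (l 15971088) (a (l 15942488) (c (l 15956912) (l 15939256))))) (a (b (a (l 16005112) (l 15992360)) (l 16023216)) (c (l 15987920) (a (c (l 15997840) (a (l 16003928) (l 15999616))) (c (a (l 15995576) (l 15989976)) (a (l 15967424) (l 15969376))))))) (c (a (l 16037656) (l 16043704)) (a (b (l 16059624) (l 16099376)) (b (l 16030584) (a (l 16087856) (l 16073512)))))) (b (a (c (b (a (l 15984792) (c (l 15977128) (a (l 15977688) (l 15958952)))) (a (l 15978808) (b (c (l 16002288) (a (l 16002720) (l 15987272))) (l 16015832)))) (a (a (b (c (l 15927568) (c (l 15975648) (l 15962408))) (l 16017720)) (c (b (l 15974544) (l 15990376)) (b (l 15951216) (a (l 15999496) (l 15992736))))) (c (b (a (l 15951608) (l 15932632)) (b (a (l 15983032) (l 15967080)) (l 16000184))) (l 15958272)))) (c (a (a (b (c (l 15965184) (l 15934816)) (b (c (l 15991216) (l 15967776)) (l 16001144))) (c (l 15964472) (c (a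 (l 15862760) (l 15938016)) (l 15937600)))) (c (b (a (l 15918312) (l 15898776)) (a (c (l 15968744) (l 15957040)) (l 15926664))) (l 15924008))) (b (l 15902248) (l 15951088)))) (a (c (a (l 16089240) (b (l 16049048) (l 16035456))) (a (b (c (l 16060992) (l 16056416)) (l 16118704)) (b (l 16037816) (b (l 16078544) (l 16113920))))) (c (b (a (l 16029312) (l 16003752)) (a (c (l 16083944) (l 16079872)) (l 16063240))) (b (l 16004648) (l 16079240)))))), by decide +kernel⟩

def k16_pm_202_a : ∃ t, chk3 f_pm_202_a t 35 28 2 = true :=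
  ⟨(b (l 3) (b (l 3) (b (l 3) (c (a (c (a (a (l 15855272) (c (l 15873392) (l 168206468823))) (c (a (l 15854528) (c (l 15851936) (l 15855632))) (l 15826688))) (a (c (l 15843448) (a (l 15805000) (l 15777800))) (c (a (l 170353742663) (c (l 15763728) (l 15753736))) (l 15756160)))) (c (a (c (l 15809784) (a (c (l 15780816) (l 15755120)) (c (l 15746688) (l 15736736)))) (c (a (c (l 15763888) (l 15738432)) (c (a (l 15714488) (l 15701696)) (l 15720456))) (l 15722360))) (l 15726448))) (l 15735648))))), by decide +kernel⟩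

def k17_pm_202_a : ∃ t, chk3 f_pm_202_a t 35 58 2 = true :=
  ⟨(c (a (c (a (c (l 15885096) (c (b (l 15889480) (l 15901280)) (a (l 15901296) (b (l 15879464) (l 15891712))))) (c (a (c (l 15887936) (b (l 15885944) (l 15855544))) (c (a (l 15869568) (c (l 15868800) (l 15883440))) (l 15849448))) (a (b (l 15856488) (l 15870104)) (l 15825016)))) (a (c (a (c (b (l 15886768) (l 15898784)) (l 15866312)) (l 15841992)) (a (c (l 15834960) (a (l 15774040) (l 15782368))) (c (b (l 15751208) (a (l 15816744) (l 15804520))) (l 15793056)))) (c (a (c (l 15817880) (a (c (l 15804376) (l 15792408)) (c (l 15788248) (l 15783592)))) (c (a (c (l 15796048) (l 15784112)) (c (l 15780008) (l 15775360))) (l 15776400))) (l 15778512)))) (c (a (c (l 15764896) (a (c (l 15801256) (a (c (l 15787824) (l 15775936)) (c (l 15771888) (l 15767248)))) (c (a (c (l 15779720) (l 15767872)) (c (l 15763880) (l 15759240))) (l 15760200)))) (c (a (c (l 15785096) (a (c (l 15771728) (l 15759920)) (c (l 15755984) (l 15751352)))) (c (a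 (c (l 15763848) (l 15752080)) (b (l 15715800) (l 15756400))) (l 15744448))) (l 15746232))) (l 15749920))) (c (l 15762048) (l 15753864))), by decide +kernel⟩

def k18_pm_202_a : ∃ t, chk3 f_pm_202_a t 35 59 2 = true :=
  ⟨(a (a (c (b (c (c (l 15905416) (a (c (l 15913984) (l 15919464)) (b (c (l 15911640) (l 15901528)) (c (l 15917992) (l 15887280))))) (c (a (a (b (l 15883360) (l 15911224)) (l 15893184)) (l 15866560)) (a (c (l 15860968) (a (l 15802496) (l 15832904))) (c (a (l 15794264) (l 15824728)) (l 15823176))))) (c (l 15920312) (c (l 15898696) (l 15862032)))) (l 15829000)) (c (c (b (c (a (c (l 15907016) (a (l 15912816) (c (l 15912416) (l 15908912)))) (c (a (l 15887904) (c (l 15886984) (l 15902280))) (l 15890808))) (a (b (l 15880944) (l 15888288)) (l 15850440))) (c (l 15913088) (l 15883992))) (c (b (a (c (l 15844664) (a (l 15807112) (l 15816648))) (c (a (l 15799088) (l 15808672)) (l 15807048))) (l 15845824)) (l 15818240))) (l 15808512))) (c (c (c (a (b (l 15852208) (l 15869088))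 (b (a (c (l 15813200) (a (l 15796552) (l 15785296))) (c (a (l 15788880) (c (l 15779240) (l 15775008))) (l 15775912))) (a (l 15823384) (l 15801944)))) (a (b (a (c (l 15828752) (a (l 15812136) (l 15800792))) (c (a (l 15804304) (l 15793000)) (l 15791312))) (l 15830024)) (l 15787008))) (l 15790512)) (l 15778384))), by decide +kernel⟩

def k19_pm_202_a : ∃ t, chk3 f_pm_202_a t 35 15 2 = true :=
  ⟨(b (c (a (c (a (c (l 15963112) (a (l 15970248) (c (l 15967160) (l 15960120)))) (c (a (l 15960808) (c (l 15957272) (l 15946880))) (l 15805392))) (a (b (c (l 15925328) (a (l 15902136) (l 15882472))) (c (l 15965696) (a (l 15948792) (l 15931840)))) (c (b (a (l 15886320) (l 15866576)) (a (l 15932512) (l 15915152))) (l 15889216)))) (c (a (c (l 15916960) (b (a (l 15870872) (l 15851104)) (a (l 15917392) (l 15900024)))) (c (a (c (l 15886000) (l 15870112)) (a (l 15863168) (l 15855688))) (l 15857864))) (l 15861472))) (b (l 15844608) (a (l 15917272) (l 15875840)))) (c (c (a (a (l 16043248) (b (c (a (l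 16016192) (l 15944792)) (l 15995040)) (l 16050056))) (a (c (l 15923104) (b (b (a (l 15955544) (l 15940504)) (l 15975896)) (l 16019368))) (b (c (a (l 15954632) (c (l 15921080) (l 15937040))) (l 15938512)) (l 16002336)))) (a (a (c (l 16033552) (l 16020000)) (b (c (b (b (l 15893760) (l 15969944)) (l 15990336)) (l 15966152)) (l 16030888))) (l 15968536))) (b (a (l 15967176) (l 15930880)) (l 16009432)))), by decide +kernel⟩

def k20_pm_202_a : ∃ t, chk3 f_pm_202_a t 17 3 3 = true :=
  ⟨(b (l 3) (b (b (b (l 3) (b (l 3) (a (a (l 3) (l 15777776)) (l 15708664)))) (a (c (b (a (l 15811712) (l 15806440)) (c (l 15865664) (l 15858552))) (b (l 15816432) (l 15847784))) (b (l 15691160) (b (l 15765000) (l 15786536))))) (a (a (b (c (b (l 15936736) (l 15980472)) (l 15944976)) (c (b (l 16025944) (b (l 16085784) (l 16126824))) (b (l 16031552) (l 16075232)))) (b (b (l 15884624) (l 15934288)) (b (l 15988768) (c (l 16064544) (l 16050464))))) (b (b (l 15821696) (l 15876200)) (b (a (l 15946608) (l 15909576))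 (l 15990024)))))), by decide +kernel⟩

def k21_pm_202_a : ∃ t, chk3 f_pm_202_a t 9 2 1 = true :=
  ⟨(l 3), by decide +kernel⟩

def k22_pm_202_a : ∃ t, chk3 f_pm_202_a t 9 6 1 = true :=
  ⟨(l 3), by decide +kernel⟩

def k23_pm_202_a : ∃ t, chk3 f_pm_202_a t 18 14 1 = true :=
  ⟨(b (b (l 3) (b (a (l 3) (c (c (a (l 15723640) (l 15763760)) (a (l 15705960) (l 15767960))) (c (l 15637344) (l 15703584)))) (a (c (a (c (b (l 15662664) (l 15674800)) (l 15672472)) (c (a (b (l 15641176) (l 15665616)) (l 15703720)) (a (l 15656168) (l 15685768)))) (a (c (l 15654280) (l 15635856)) (a (l 181090887719) (l 15658352)))) (c (c (a (l 15756328) (l 15826664)) (l 15775008)) (c (l 15758176) (l 15741128)))))) (a (c (a (b (c (a (c (l 15741944) (l 15733432)) (l 15745328)) (l 15661352)) (b (c (a (l 15783000) (l 15815176)) (l 15783608)) (l 15764496))) (b (c (a (a (l 15751592) (l 15763408)) (l 15790304)) (a (l 15740504) (l 15773824))) (b (c (l 15800608) (l 15848304)) (b (c (a (l 15886568) (l 15924528)) (l 15890760))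 (l 15930512))))) (b (a (b (l 15678944) (l 15717440)) (b (l 15659456) (l 15762000))) (a (b (l 15758848) (l 15795712)) (b (l 15783072) (a (l 15862968) (l 15904504)))))) (b (c (c (a (l 15843848) (l 15914696)) (l 15801312)) (c (l 15848904) (l 15833368))) (c (b (c (l 15969344) (l 15955760)) (b (c (a (l 15980640) (l 16053960)) (l 16005504)) (c (l 16059000) (l 16046944)))) (b (l 15934984) (b (a (l 15946880) (l 16023120)) (l 16028496))))))), by decide +kernel⟩

def k24_pm_202_a : ∃ t, chk3 f_pm_202_a t 18 15 1 = true :=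
  ⟨(b (a (c (a (c (b (l 15891384) (l 15970072)) (b (l 15876616) (l 15956536))) (c (b (l 16014680) (l 16141584)) (b (l 16001976) (l 16130984)))) (a (b (l 15854072) (l 15935888)) (b (l 15982528) (l 16114768)))) (a (c (c (b (l 16122336) (l 16288896)) (b (l 16111392) (l 16280776))) (b (l 16094648) (l 16268344))) (l 1))) (a (a (c (b (a (c (l 15992704) (l 15979432)) (l 16085936)) (a (l 16043440) (b (l 16165704) (l 1)))) (b (a (l 15959216) (l 16084312)) (a (l 16018064) (l 16153048)))) (a (b (c (l 16216904) (l 16198080)) (l 1)) (l 1))) (l 1))), by decide +kernel⟩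

def k25_pm_202_a : ∃ t, chk3 f_pm_202_a t 19 7 1 = true :=
  ⟨(b (a (b (b (l 3) (a (c (c (b (l 15805024) (l 15896008)) (b (l 15831136) (l 15881016))) (b (l 170353795431) (l 15858112))) (l 1))) (a (b (c (c (l 15983880) (l 15970392)) (l 15949776)) (l 1)) (l 1))) (l 1)) (l 1)), by decide +kernel⟩

def k26_pm_202_a : ∃ t, chk3 f_pm_202_a t 5 1 1 = true :=
  ⟨(b (l 3) (b (b (l 3) (l 1)) (l 1))), by decide +kernel⟩

def k27_pm_202_a : ∃ t, chk3 f_pm_202_a t 3 1 1 = true :=
  ⟨(l 1), by decide +kernel⟩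

theorem s28_pm_202_a : ∃ t, chk3 f_pm_202_a t 18 7 1 = true := ex3_b k23_pm_202_a k24_pm_202_a

theorem s29_pm_202_a : ∃ t, chk3 f_pm_202_a t 9 7 1 = true := ex3_a s28_pm_202_a k25_pm_202_a

theorem s30_pm_202_a : ∃ t, chk3 f_pm_202_a t 9 3 1 = true := ex3_b k22_pm_202_a s29_pm_202_a

theorem s31_pm_202_a : ∃ t, chk3 f_pm_202_a t 9 1 1 = true := ex3_b k21_pm_202_a s30_pm_202_a

theorem s32_pm_202_a : ∃ t, chk3 f_pm_202_a t 35 29 2 = true := ex3_b k17_pm_202_a k18_pm_202_a

theorem s33_pm_202_a : ∃ t, chk3 f_pm_202_a t 35 14 2 = true := ex3_b k16_pm_202_a s32_pm_202_a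

theorem s34_pm_202_a : ∃ t, chk3 f_pm_202_a t 35 7 2 = true := ex3_b s33_pm_202_a k19_pm_202_a

theorem s35_pm_202_a : ∃ t, chk3 f_pm_202_a t 34 14 2 = true := ex3_a k13_pm_202_a k14_pm_202_a

theorem s36_pm_202_a : ∃ t, chk3 f_pm_202_a t 34 7 2 = true := ex3_b s35_pm_202_a k15_pm_202_a

theorem s37_pm_202_a : ∃ t, chk3 f_pm_202_a t 17 7 2 = true := ex3_a s36_pm_202_a s34_pm_202_a

theorem s38_pm_202_a : ∃ t, chk3 f_pm_202_a t 17 3 2 = true := ex3_b k12_pm_202_a s37_pm_202_a

theorem s39_pm_202_a : ∃ t, chk3 f_pm_202_a t 17 3 1 = true := ex3_c s38_pm_202_a k20_pm_202_a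

theorem s40_pm_202_a : ∃ t, chk3 f_pm_202_a t 16 15 3 = true := ex3_a k10_pm_202_a k11_pm_202_a

theorem s41_pm_202_a : ∃ t, chk3 f_pm_202_a t 32 29 3 = true := ex3_c k7_pm_202_a k8_pm_202_a

theorem s42_pm_202_a : ∃ t, chk3 f_pm_202_a t 16 29 3 = true := ex3_a s41_pm_202_a k9_pm_202_a

theorem s43_pm_202_a : ∃ t, chk3 f_pm_202_a t 16 14 3 = true := ex3_b k6_pm_202_a s42_pm_202_a

theorem s44_pm_202_a : ∃ t, chk3 f_pm_202_a t 16 7 3 = true := ex3_b s43_pm_202_a s40_pm_202_a

theorem s45_pm_202_a : ∃ t, chk3 f_pm_202_a t 16 3 3 = true := ex3_b k5_pm_202_a s44_pm_202_a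

theorem s46_pm_202_a : ∃ t, chk3 f_pm_202_a t 16 15 2 = true := ex3_c k3_pm_202_a k4_pm_202_a

theorem s47_pm_202_a : ∃ t, chk3 f_pm_202_a t 16 7 2 = true := ex3_b k2_pm_202_a s46_pm_202_a

theorem s48_pm_202_a : ∃ t, chk3 f_pm_202_a t 16 3 2 = true := ex3_b k1_pm_202_a s47_pm_202_a

theorem s49_pm_202_a : ∃ t, chk3 f_pm_202_a t 16 3 1 = true := ex3_c s48_pm_202_a s45_pm_202_a

theorem s50_pm_202_a : ∃ t, chk3 f_pm_202_a t 8 3 1 = true := ex3_a s49_pm_202_a s39_pm_202_a

theorem s51_pm_202_a : ∃ t, chk3 f_pm_202_a t 8 1 1 = true := ex3_b k0_pm_202_a s50_pm_202_a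

theorem s52_pm_202_a : ∃ t, chk3 f_pm_202_a t 4 1 1 = true := ex3_a s51_pm_202_a s31_pm_202_a

theorem s53_pm_202_a : ∃ t, chk3 f_pm_202_a t 2 1 1 = true := ex3_a s52_pm_202_a k26_pm_202_a

theorem s54_pm_202_a : ∃ t, chk3 f_pm_202_a t 1 1 1 = true := ex3_a s53_pm_202_a k27_pm_202_a

theorem c_pm_202_a : CertNX 1073741824 536870912 0 420477299 1046898278 26843546 3 false true false .pp 2 0 2
    ndN5q2 ndN1q2a pcN0 Cut.none Ext.none :=
  certNX2 (fam := false) (s1 := true) (s2 := false) (a := 2) (b := 0) (c := 2) (cn := .pp) (n1 := ndN5q2) (n2 := ndN1q2a) (pc := pcN0) (cut := Cut.none) (xt := Ext.none) (P1 := 1073741824) (W1 := 536870912) (P2 := 0) (W2 := 420477299) (P3 := 1046898278) (W3 := 26843546) (N0 := 3)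
    rfl (fun _ => rfl) s54_pm_202_a

noncomputable def f_pm_202_b : ℕ → ℕ → ℕ → ℕ → Bool := onCell 1073741824 536870912 1239849684 370763052 1046898278 26843546
    (rowNX 3 0 false true false .pp 2 0 2 (qsf 1073741824 536870912 1239849684 370763052 0) ndN5q2 ndN1q2b pcN0 Cut.none Ext.none)

def k0_pm_202_b : ∃ t, chk3 f_pm_202_b t 1 1 1 = true :=
  ⟨(l 3), by decide +kernel⟩

theorem c_pm_202_b : CertNX 1073741824 536870912 1239849684 370763052 1046898278 26843546 3 false true false .pp 2 0 2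
    ndN5q2 ndN1q2b pcN0 Cut.none Ext.none :=
  certNX0 (fam := false) (s1 := true) (s2 := false) (a := 2) (b := 0) (c := 2) (cn := .pp) (n1 := ndN5q2) (n2 := ndN1q2b) (pc := pcN0) (cut := Cut.none) (xt := Ext.none) (P1 := 1073741824) (W1 := 536870912) (P2 := 1239849684) (W2 := 370763052) (P3 := 1046898278) (W3 := 26843546) (N0 := 3)
    rfl k0_pm_202_b

noncomputable def f_pm_203 : ℕ → ℕ → ℕ → ℕ → Bool := onCell 1073741824 536870912 0 536870912 1046898278 26843546
    (rowNX 3 1 false true false .up 2 0 3 (qsf 1073741824 536870912 1610612736 469762048 0) ndN5q2 ndN1q3 pcN0 Cut.none Ext.none)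

def k0_pm_203 : ∃ t, chk3 f_pm_203 t 1 1 1 = true :=
  ⟨(l 3), by decide +kernel⟩

theorem c_pm_203 : CertNX 1073741824 536870912 1610612736 469762048 1046898278 26843546 3 false true false .up 2 0 3
    ndN5q2 ndN1q3 pcN0 Cut.none Ext.none :=
  certNX1 (fam := false) (s1 := true) (s2 := false) (a := 2) (b := 0) (c := 3) (cn := .up) (n1 := ndN5q2) (n2 := ndN1q3) (pc := pcN0) (cut := Cut.none) (xt := Ext.none) (P1 := 1073741824) (W1 := 536870912) (P2 := 1610612736) (W2 := 469762048) (P3 := 1046898278) (W3 := 26843546) (N0 := 3)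
    rfl (fun _ => rfl) k0_pm_203

noncomputable def f_pm_213 : ℕ → ℕ → ℕ → ℕ → Bool := onCell 1073741824 536870912 1610612736 469762048 1046898278 26843546
    (rowNX 3 0 false true false .pnn 2 1 3 (qsf 1073741824 536870912 1610612736 469762048 1) ndN5q2 ndN1q3 pcN1 Cut.none Ext.none)

def k0_pm_213 : ∃ t, chk3 f_pm_213 t 1 1 1 = true :=
  ⟨(a (b (l 3) (a (b (l 3) (a (b (a (b (l 15730792) (a (l 15800416) (l 15623256))) (l 15321104)) (a (b (a (l 15656016) (l 15569648)) (l 15537248)) (b (a (l 15412768) (l 15225296)) (a (l 15401808) (l 15236672))))) (b (l 3) (a (b (l 3) (l 14960288)) (l 3))))) (l 3))) (l 3)), by decide +kernel⟩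

theorem c_pm_213 : CertNX 1073741824 536870912 1610612736 469762048 1046898278 26843546 3 false true false .pnn 2 1 3
    ndN5q2 ndN1q3 pcN1 Cut.none Ext.none :=
  certNX0 (fam := false) (s1 := true) (s2 := false) (a := 2) (b := 1) (c := 3) (cn := .pnn) (n1 := ndN5q2) (n2 := ndN1q3) (pc := pcN1) (cut := Cut.none) (xt := Ext.none) (P1 := 1073741824) (W1 := 536870912) (P2 := 1610612736) (W2 := 469762048) (P3 := 1046898278) (W3 := 26843546) (N0 := 3)
    rfl k0_pm_213

noncomputable def f_pm_303 : ℕ → ℕ → ℕ → ℕ → Bool := onCell 0 1230186008 1610612736 469762048 1046898278 26843546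
    (rowNX 3 0 false true false .npn 3 0 3 (qsf 0 1230186008 1610612736 469762048 0) ndN5q3 ndN1q3 pcN0 Cut.none Ext.none)

def k0_pm_303 : ∃ t, chk3 f_pm_303 t 1 1 1 = true :=
  ⟨(a (l 3) (l 3)), by decide +kernel⟩

theorem c_pm_303 : CertNX 0 1230186008 1610612736 469762048 1046898278 26843546 3 false true false .npn 3 0 3
    ndN5q3 ndN1q3 pcN0 Cut.none Ext.none :=
  certNX0 (fam := false) (s1 := true) (s2 := false) (a := 3) (b := 0) (c := 3) (cn := .npn) (n1 := ndN5q3) (n2 := ndN1q3) (pc := pcN0) (cut := Cut.none) (xt := Ext.none) (P1 := 0) (W1 := 1230186008) (P2 := 1610612736) (W2 := 469762048) (P3 := 1046898278) (W3 := 26843546) (N0 := 3)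
    rfl k0_pm_303

noncomputable def f_pm_313 : ℕ → ℕ → ℕ → ℕ → Bool := onCell 0 1230186008 1610612736 469762048 1046898278 26843546
    (rowNX 3 0 false true false .dn 3 1 3 (qsf 0 1230186008 1610612736 469762048 1) ndN5q3 ndN1q3 pcN1 Cut.none Ext.none)

def k0_pm_313 : ∃ t, chk3 f_pm_313 t 1 1 1 = true :=
  ⟨(l 1), by decide +kernel⟩

theorem c_pm_313 : CertNX 0 1230186008 1610612736 469762048 1046898278 26843546 3 false true false .dn 3 1 3
    ndN5q3 ndN1q3 pcN1 Cut.none Ext.none :=
  certNX0 (fam := false) (s1 := true) (s2 := false) (a := 3) (b := 1) (c := 3) (cn := .dn) (n1 := ndN5q3) (n2 := ndN1q3) (pc := pcN1) (cut := Cut.none) (xt := Ext.none) (P1 := 0) (W1 := 1230186008) (P2 := 1610612736) (W2 := 469762048) (P3 := 1046898278) (W3 := 26843546) (N0 := 3)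
    rfl k0_pm_313

noncomputable def f_mm_001 : ℕ → ℕ → ℕ → ℕ → Bool := onCell 0 536870912 536870912 536870912 1046898278 26843546
    (rowNX 3 0 false false false .up 0 0 1 (qsf 0 536870912 536870912 536870912 0) ndN5q0 ndN1q1 pcN0 Cut.none Ext.none)

def k0_mm_001 : ∃ t, chk3 f_mm_001 t 1 1 1 = true :=
  ⟨(l 5), by decide +kernel⟩

theorem c_mm_001 : CertNX 0 536870912 536870912 536870912 1046898278 26843546 3 false false false .up 0 0 1
    ndN5q0 ndN1q1 pcN0 Cut.none Ext.none :=
  certNX0 (fam := false) (s1 := false) (s2 := false) (a := 0) (b := 0) (c := 1) (cn := .up) (n1 := ndN5q0) (n2 := ndN1q1) (pc := pcN0) (cut := Cut.none) (xt := Ext.none) (P1 := 0) (W1 := 536870912) (P2 := 536870912) (W2 := 536870912) (P3 := 1046898278) (W3 := 26843546) (N0 := 3)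
    rfl k0_mm_001

noncomputable def f_mm_011 : ℕ → ℕ → ℕ → ℕ → Bool := onCell 0 536870912 536870912 536870912 1046898278 26843546
    (rowNX 3 0 false false false .pnn 0 1 1 (qsf 0 536870912 536870912 536870912 1) ndN5q0 ndN1q1 pcN1 Cut.none Ext.none)

def k0_mm_011 : ∃ t, chk3 f_mm_011 t 1 1 1 = true :=
  ⟨(l 5), by decide +kernel⟩

theorem c_mm_011 : CertNX 0 536870912 536870912 536870912 1046898278 26843546 3 false false false .pnn 0 1 1
    ndN5q0 ndN1q1 pcN1 Cut.none Ext.none :=
  certNX0 (fam := false) (s1 := false) (s2 := false) (a := 0) (b := 1) (c := 1) (cn := .pnn) (n1 := ndN5q0) (n2 := ndN1q1) (pc := pcN1) (cut := Cut.none) (xt := Ext.none) (P1 := 0) (W1 := 536870912) (P2 := 536870912) (W2 := 536870912) (P3 := 1046898278) (W3 := 26843546) (N0 := 3)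
    rfl k0_mm_011

noncomputable def f_mm_012_a : ℕ → ℕ → ℕ → ℕ → Bool := onCell 0 536870912 0 420477299 1046898278 26843546
    (rowNX 3 0 false false false .pnp 0 1 2 (qsf 0 536870912 0 420477299 1) ndN5q0 ndN1q2a pcN1 Cut.none Ext.none)

def k0_mm_012_a : ∃ t, chk3 f_mm_012_a t 1 1 1 = true :=
  ⟨(l 5), by decide +kernel⟩

theorem c_mm_012_a : CertNX 0 536870912 0 420477299 1046898278 26843546 3 false false false .pnp 0 1 2
    ndN5q0 ndN1q2a pcN1 Cut.none Ext.none :=
  certNX0 (fam := false) (s1 := false) (s2 := false) (a := 0) (b := 1) (c := 2) (cn := .pnp) (n1 := ndN5q0) (n2 := ndN1q2a) (pc := pcN1) (cut := Cut.none) (xt := Ext.none) (P1 := 0) (W1 := 536870912) (P2 := 0) (W2 := 420477299) (P3 := 1046898278) (W3 := 26843546) (N0 := 3)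
    rfl k0_mm_012_a

noncomputable def f_mm_012_b : ℕ → ℕ → ℕ → ℕ → Bool := onCell 0 536870912 1239849684 370763052 1046898278 26843546
    (rowNX 3 0 false false false .pnp 0 1 2 (qsf 0 536870912 1239849684 370763052 1) ndN5q0 ndN1q2b pcN1 Cut.none Ext.none)

def k0_mm_012_b : ∃ t, chk3 f_mm_012_b t 1 1 1 = true :=
  ⟨(l 5), by decide +kernel⟩

theorem c_mm_012_b : CertNX 0 536870912 1239849684 370763052 1046898278 26843546 3 false false false .pnp 0 1 2
    ndN5q0 ndN1q2b pcN1 Cut.none Ext.none :=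
  certNX0 (fam := false) (s1 := false) (s2 := false) (a := 0) (b := 1) (c := 2) (cn := .pnp) (n1 := ndN5q0) (n2 := ndN1q2b) (pc := pcN1) (cut := Cut.none) (xt := Ext.none) (P1 := 0) (W1 := 536870912) (P2 := 1239849684) (W2 := 370763052) (P3 := 1046898278) (W3 := 26843546) (N0 := 3)
    rfl k0_mm_012_b

noncomputable def f_mm_022_a : ℕ → ℕ → ℕ → ℕ → Bool := onCell 0 536870912 0 420477299 1046898278 26843546
    (rowNX 3 0 false false false .pp 0 2 2 (qsf 0 536870912 0 420477299 2) ndN5q0 ndN1q2a pcN2 Cut.none Ext.none)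

def k0_mm_022_a : ∃ t, chk3 f_mm_022_a t 1 1 1 = true :=
  ⟨(l 5), by decide +kernel⟩

theorem c_mm_022_a : CertNX 0 536870912 0 420477299 1046898278 26843546 3 false false false .pp 0 2 2
    ndN5q0 ndN1q2a pcN2 Cut.none Ext.none :=
  certNX0 (fam := false) (s1 := false) (s2 := false) (a := 0) (b := 2) (c := 2) (cn := .pp) (n1 := ndN5q0) (n2 := ndN1q2a) (pc := pcN2) (cut := Cut.none) (xt := Ext.none) (P1 := 0) (W1 := 536870912) (P2 := 0) (W2 := 420477299) (P3 := 1046898278) (W3 := 26843546) (N0 := 3)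
    rfl k0_mm_022_a

noncomputable def f_mm_022_b : ℕ → ℕ → ℕ → ℕ → Bool := onCell 0 536870912 1239849684 370763052 1046898278 26843546
    (rowNX 3 0 false false false .pp 0 2 2 (qsf 0 536870912 1239849684 370763052 2) ndN5q0 ndN1q2b pcN2 Cut.none Ext.none)

def k0_mm_022_b : ∃ t, chk3 f_mm_022_b t 1 1 1 = true :=
  ⟨(l 5), by decide +kernel⟩

theorem c_mm_022_b : CertNX 0 536870912 1239849684 370763052 1046898278 26843546 3 false false false .pp 0 2 2
    ndN5q0 ndN1q2b pcN2 Cut.none Ext.none :=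
  certNX0 (fam := false) (s1 := false) (s2 := false) (a := 0) (b := 2) (c := 2) (cn := .pp) (n1 := ndN5q0) (n2 := ndN1q2b) (pc := pcN2) (cut := Cut.none) (xt := Ext.none) (P1 := 0) (W1 := 536870912) (P2 := 1239849684) (W2 := 370763052) (P3 := 1046898278) (W3 := 26843546) (N0 := 3)
    rfl k0_mm_022_b

noncomputable def f_mm_023 : ℕ → ℕ → ℕ → ℕ → Bool := onCell 0 536870912 1610612736 469762048 1046898278 26843546
    (rowNX 3 0 false false false .up 0 2 3 (qsf 0 536870912 1610612736 469762048 2) ndN5q0 ndN1q3 pcN2 Cut.none Ext.none)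

def k0_mm_023 : ∃ t, chk3 f_mm_023 t 1 1 1 = true :=
  ⟨(l 5), by decide +kernel⟩

theorem c_mm_023 : CertNX 0 536870912 1610612736 469762048 1046898278 26843546 3 false false false .up 0 2 3
    ndN5q0 ndN1q3 pcN2 Cut.none Ext.none :=
  certNX0 (fam := false) (s1 := false) (s2 := false) (a := 0) (b := 2) (c := 3) (cn := .up) (n1 := ndN5q0) (n2 := ndN1q3) (pc := pcN2) (cut := Cut.none) (xt := Ext.none) (P1 := 0) (W1 := 536870912) (P2 := 1610612736) (W2 := 469762048) (P3 := 1046898278) (W3 := 26843546) (N0 := 3)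
    rfl k0_mm_023

noncomputable def f_mm_033 : ℕ → ℕ → ℕ → ℕ → Bool := onCell 0 536870912 1610612736 469762048 1046898278 26843546
    (rowNX 3 0 false false false .pnn 0 3 3 (qsf 0 536870912 1610612736 469762048 3) ndN5q0 ndN1q3 pcN3 Cut.none Ext.none)

def k0_mm_033 : ∃ t, chk3 f_mm_033 t 1 1 1 = true :=
  ⟨(l 5), by decide +kernel⟩

theorem c_mm_033 : CertNX 0 536870912 1610612736 469762048 1046898278 26843546 3 false false false .pnn 0 3 3
    ndN5q0 ndN1q3 pcN3 Cut.none Ext.none :=
  certNX0 (fam := false) (s1 := false) (s2 := false) (a := 0) (b := 3) (c := 3) (cn := .pnn) (n1 := ndN5q0) (n2 := ndN1q3) (pc := pcN3) (cut := Cut.none) (xt := Ext.none) (P1 := 0) (W1 := 536870912) (P2 := 1610612736) (W2 := 469762048) (P3 := 1046898278) (W3 := 26843546) (N0 := 3)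
    rfl k0_mm_033

noncomputable def f_mm_101 : ℕ → ℕ → ℕ → ℕ → Bool := onCell 536870912 469762048 536870912 536870912 1046898278 26843546
    (rowNX 3 0 false false false .npn 1 0 1 (qsf 536870912 469762048 536870912 536870912 0) ndN5q1 ndN1q1 pcN0 Cut.none Ext.none)

def k0_mm_101 : ∃ t, chk3 f_mm_101 t 1 1 1 = true :=
  ⟨(l 3), by decide +kernel⟩

theorem c_mm_101 : CertNX 536870912 469762048 536870912 536870912 1046898278 26843546 3 false false false .npn 1 0 1
    ndN5q1 ndN1q1 pcN0 Cut.none Ext.none :=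
  certNX0 (fam := false) (s1 := false) (s2 := false) (a := 1) (b := 0) (c := 1) (cn := .npn) (n1 := ndN5q1) (n2 := ndN1q1) (pc := pcN0) (cut := Cut.none) (xt := Ext.none) (P1 := 536870912) (W1 := 469762048) (P2 := 536870912) (W2 := 536870912) (P3 := 1046898278) (W3 := 26843546) (N0 := 3)
    rfl k0_mm_101

noncomputable def f_mm_102_a : ℕ → ℕ → ℕ → ℕ → Bool := onCell 536870912 469762048 0 420477299 1046898278 26843546
    (rowNX 3 0 false false false .npp 1 0 2 (qsf 536870912 469762048 0 420477299 0) ndN5q1 ndN1q2a pcN0 Cut.none Ext.none)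

def k0_mm_102_a : ∃ t, chk3 f_mm_102_a t 1 1 1 = true :=
  ⟨(l 5), by decide +kernel⟩

theorem c_mm_102_a : CertNX 536870912 469762048 0 420477299 1046898278 26843546 3 false false false .npp 1 0 2
    ndN5q1 ndN1q2a pcN0 Cut.none Ext.none :=
  certNX0 (fam := false) (s1 := false) (s2 := false) (a := 1) (b := 0) (c := 2) (cn := .npp) (n1 := ndN5q1) (n2 := ndN1q2a) (pc := pcN0) (cut := Cut.none) (xt := Ext.none) (P1 := 536870912) (W1 := 469762048) (P2 := 0) (W2 := 420477299) (P3 := 1046898278) (W3 := 26843546) (N0 := 3)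
    rfl k0_mm_102_a

noncomputable def f_mm_102_b : ℕ → ℕ → ℕ → ℕ → Bool := onCell 536870912 469762048 1239849684 370763052 1046898278 26843546
    (rowNX 3 0 false false false .npp 1 0 2 (qsf 536870912 469762048 1239849684 370763052 0) ndN5q1 ndN1q2b pcN0 Cut.none Ext.none)

def k0_mm_102_b : ∃ t, chk3 f_mm_102_b t 1 1 1 = true :=
  ⟨(l 5), by decide +kernel⟩

theorem c_mm_102_b : CertNX 536870912 469762048 1239849684 370763052 1046898278 26843546 3 false false false .npp 1 0 2
    ndN5q1 ndN1q2b pcN0 Cut.none Ext.none :=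
  certNX0 (fam := false) (s1 := false) (s2 := false) (a := 1) (b := 0) (c := 2) (cn := .npp) (n1 := ndN5q1) (n2 := ndN1q2b) (pc := pcN0) (cut := Cut.none) (xt := Ext.none) (P1 := 536870912) (W1 := 469762048) (P2 := 1239849684) (W2 := 370763052) (P3 := 1046898278) (W3 := 26843546) (N0 := 3)
    rfl k0_mm_102_b

noncomputable def f_mm_112_a : ℕ → ℕ → ℕ → ℕ → Bool := onCell 536870912 469762048 0 420477299 1046898278 26843546
    (rowNX 3 0 false false false .dn 1 1 2 (qsf 536870912 469762048 0 420477299 1) ndN5q1 ndN1q2a pcN1 Cut.none Ext.none)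

def k0_mm_112_a : ∃ t, chk3 f_mm_112_a t 1 1 1 = true :=
  ⟨(l 5), by decide +kernel⟩

theorem c_mm_112_a : CertNX 536870912 469762048 0 420477299 1046898278 26843546 3 false false false .dn 1 1 2
    ndN5q1 ndN1q2a pcN1 Cut.none Ext.none :=
  certNX0 (fam := false) (s1 := false) (s2 := false) (a := 1) (b := 1) (c := 2) (cn := .dn) (n1 := ndN5q1) (n2 := ndN1q2a) (pc := pcN1) (cut := Cut.none) (xt := Ext.none) (P1 := 536870912) (W1 := 469762048) (P2 := 0) (W2 := 420477299) (P3 := 1046898278) (W3 := 26843546) (N0 := 3)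
    rfl k0_mm_112_a

noncomputable def f_mm_112_b : ℕ → ℕ → ℕ → ℕ → Bool := onCell 536870912 469762048 1239849684 370763052 1046898278 26843546
    (rowNX 3 0 false false false .dn 1 1 2 (qsf 536870912 469762048 1239849684 370763052 1) ndN5q1 ndN1q2b pcN1 Cut.none Ext.none)

def k0_mm_112_b : ∃ t, chk3 f_mm_112_b t 1 1 1 = true :=
  ⟨(l 5), by decide +kernel⟩

theorem c_mm_112_b : CertNX 536870912 469762048 1239849684 370763052 1046898278 26843546 3 false false false .dn 1 1 2
    ndN5q1 ndN1q2b pcN1 Cut.none Ext.none :=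
  certNX0 (fam := false) (s1 := false) (s2 := false) (a := 1) (b := 1) (c := 2) (cn := .dn) (n1 := ndN5q1) (n2 := ndN1q2b) (pc := pcN1) (cut := Cut.none) (xt := Ext.none) (P1 := 536870912) (W1 := 469762048) (P2 := 1239849684) (W2 := 370763052) (P3 := 1046898278) (W3 := 26843546) (N0 := 3)
    rfl k0_mm_112_b

noncomputable def f_mm_113 : ℕ → ℕ → ℕ → ℕ → Bool := onCell 536870912 469762048 1610612736 469762048 1046898278 26843546
    (rowNX 3 0 false false false .nn 1 1 3 (qsf 536870912 469762048 1610612736 469762048 1) ndN5q1 ndN1q3 pcN1 Cut.none Ext.none)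

def k0_mm_113 : ∃ t, chk3 f_mm_113 t 1 1 1 = true :=
  ⟨(l 5), by decide +kernel⟩

theorem c_mm_113 : CertNX 536870912 469762048 1610612736 469762048 1046898278 26843546 3 false false false .nn 1 1 3
    ndN5q1 ndN1q3 pcN1 Cut.none Ext.none :=
  certNX0 (fam := false) (s1 := false) (s2 := false) (a := 1) (b := 1) (c := 3) (cn := .nn) (n1 := ndN5q1) (n2 := ndN1q3) (pc := pcN1) (cut := Cut.none) (xt := Ext.none) (P1 := 536870912) (W1 := 469762048) (P2 := 1610612736) (W2 := 469762048) (P3 := 1046898278) (W3 := 26843546) (N0 := 3)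
    rfl k0_mm_113

noncomputable def f_mm_123 : ℕ → ℕ → ℕ → ℕ → Bool := onCell 536870912 469762048 1610612736 469762048 1046898278 26843546
    (rowNX 3 0 false false false .npn 1 2 3 (qsf 536870912 469762048 1610612736 469762048 2) ndN5q1 ndN1q3 pcN2 Cut.none Ext.none)

def k0_mm_123 : ∃ t, chk3 f_mm_123 t 1 1 1 = true :=
  ⟨(l 5), by decide +kernel⟩

theorem c_mm_123 : CertNX 536870912 469762048 1610612736 469762048 1046898278 26843546 3 false false false .npn 1 2 3
    ndN5q1 ndN1q3 pcN2 Cut.none Ext.none :=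
  certNX0 (fam := false) (s1 := false) (s2 := false) (a := 1) (b := 2) (c := 3) (cn := .npn) (n1 := ndN5q1) (n2 := ndN1q3) (pc := pcN2) (cut := Cut.none) (xt := Ext.none) (P1 := 536870912) (W1 := 469762048) (P2 := 1610612736) (W2 := 469762048) (P3 := 1046898278) (W3 := 26843546) (N0 := 3)
    rfl k0_mm_123

noncomputable def f_mm_133 : ℕ → ℕ → ℕ → ℕ → Bool := onCell 536870912 469762048 1610612736 469762048 1046898278 26843546
    (rowNX 3 0 false false false .dn 1 3 3 (qsf 536870912 469762048 1610612736 469762048 3) ndN5q1 ndN1q3 pcN3 Cut.none Ext.none)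

def k0_mm_133 : ∃ t, chk3 f_mm_133 t 1 1 1 = true :=
  ⟨(l 1), by decide +kernel⟩

theorem c_mm_133 : CertNX 536870912 469762048 1610612736 469762048 1046898278 26843546 3 false false false .dn 1 3 3
    ndN5q1 ndN1q3 pcN3 Cut.none Ext.none :=
  certNX0 (fam := false) (s1 := false) (s2 := false) (a := 1) (b := 3) (c := 3) (cn := .dn) (n1 := ndN5q1) (n2 := ndN1q3) (pc := pcN3) (cut := Cut.none) (xt := Ext.none) (P1 := 536870912) (W1 := 469762048) (P2 := 1610612736) (W2 := 469762048) (P3 := 1046898278) (W3 := 26843546) (N0 := 3)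
    rfl k0_mm_133

noncomputable def f_mm_202_a : ℕ → ℕ → ℕ → ℕ → Bool := onCell 1073741824 536870912 0 420477299 1046898278 26843546
    (rowNX 3 0 false false false .pp 2 0 2 (qsf 1073741824 536870912 0 420477299 0) ndN5q2 ndN1q2a pcN0 Cut.none Ext.none)

def k0_mm_202_a : ∃ t, chk3 f_mm_202_a t 1 1 1 = true :=
  ⟨(l 3), by decide +kernel⟩

theorem c_mm_202_a : CertNX 1073741824 536870912 0 420477299 1046898278 26843546 3 false false false .pp 2 0 2
    ndN5q2 ndN1q2a pcN0 Cut.none Ext.none :=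
  certNX0 (fam := false) (s1 := false) (s2 := false) (a := 2) (b := 0) (c := 2) (cn := .pp) (n1 := ndN5q2) (n2 := ndN1q2a) (pc := pcN0) (cut := Cut.none) (xt := Ext.none) (P1 := 1073741824) (W1 := 536870912) (P2 := 0) (W2 := 420477299) (P3 := 1046898278) (W3 := 26843546) (N0 := 3)
    rfl k0_mm_202_a

noncomputable def f_mm_202_b : ℕ → ℕ → ℕ → ℕ → Bool := onCell 1073741824 536870912 1239849684 370763052 1046898278 26843546
    (rowNX 3 0 false false false .pp 2 0 2 (qsf 1073741824 536870912 1239849684 370763052 0) ndN5q2 ndN1q2b pcN0 Cut.none Ext.none)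

def k0_mm_202_b : ∃ t, chk3 f_mm_202_b t 1 1 1 = true :=
  ⟨(l 3), by decide +kernel⟩

theorem c_mm_202_b : CertNX 1073741824 536870912 1239849684 370763052 1046898278 26843546 3 false false false .pp 2 0 2
    ndN5q2 ndN1q2b pcN0 Cut.none Ext.none :=
  certNX0 (fam := false) (s1 := false) (s2 := false) (a := 2) (b := 0) (c := 2) (cn := .pp) (n1 := ndN5q2) (n2 := ndN1q2b) (pc := pcN0) (cut := Cut.none) (xt := Ext.none) (P1 := 1073741824) (W1 := 536870912) (P2 := 1239849684) (W2 := 370763052) (P3 := 1046898278) (W3 := 26843546) (N0 := 3)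
    rfl k0_mm_202_b

noncomputable def f_mm_203 : ℕ → ℕ → ℕ → ℕ → Bool := onCell 1073741824 536870912 1610612736 469762048 1046898278 26843546
    (rowNX 3 0 false false false .up 2 0 3 (qsf 1073741824 536870912 1610612736 469762048 0) ndN5q2 ndN1q3 pcN0 Cut.none Ext.none)

def k0_mm_203 : ∃ t, chk3 f_mm_203 t 1 1 1 = true :=
  ⟨(l 5), by decide +kernel⟩

theorem c_mm_203 : CertNX 1073741824 536870912 1610612736 469762048 1046898278 26843546 3 false false false .up 2 0 3
    ndN5q2 ndN1q3 pcN0 Cut.none Ext.none :=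
  certNX0 (fam := false) (s1 := false) (s2 := false) (a := 2) (b := 0) (c := 3) (cn := .up) (n1 := ndN5q2) (n2 := ndN1q3) (pc := pcN0) (cut := Cut.none) (xt := Ext.none) (P1 := 1073741824) (W1 := 536870912) (P2 := 1610612736) (W2 := 469762048) (P3 := 1046898278) (W3 := 26843546) (N0 := 3)
    rfl k0_mm_203

noncomputable def f_mm_213 : ℕ → ℕ → ℕ → ℕ → Bool := onCell 1073741824 536870912 1610612736 469762048 1046898278 26843546
    (rowNX 3 0 false false false .pnn 2 1 3 (qsf 1073741824 536870912 1610612736 469762048 1) ndN5q2 ndN1q3 pcN1 Cut.none Ext.none)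

def k0_mm_213 : ∃ t, chk3 f_mm_213 t 1 1 1 = true :=
  ⟨(l 5), by decide +kernel⟩

theorem c_mm_213 : CertNX 1073741824 536870912 1610612736 469762048 1046898278 26843546 3 false false false .pnn 2 1 3
    ndN5q2 ndN1q3 pcN1 Cut.none Ext.none :=
  certNX0 (fam := false) (s1 := false) (s2 := false) (a := 2) (b := 1) (c := 3) (cn := .pnn) (n1 := ndN5q2) (n2 := ndN1q3) (pc := pcN1) (cut := Cut.none) (xt := Ext.none) (P1 := 1073741824) (W1 := 536870912) (P2 := 1610612736) (W2 := 469762048) (P3 := 1046898278) (W3 := 26843546) (N0 := 3)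
    rfl k0_mm_213

noncomputable def f_mm_303 : ℕ → ℕ → ℕ → ℕ → Bool := onCell 0 1230186008 1610612736 469762048 1046898278 26843546
    (rowNX 3 0 false false false .npn 3 0 3 (qsf 0 1230186008 1610612736 469762048 0) ndN5q3 ndN1q3 pcN0 Cut.none Ext.none)

def k0_mm_303 : ∃ t, chk3 f_mm_303 t 1 1 1 = true :=
  ⟨(a (l 3) (l 3)), by decide +kernel⟩

theorem c_mm_303 : CertNX 0 1230186008 1610612736 469762048 1046898278 26843546 3 false false false .npn 3 0 3
    ndN5q3 ndN1q3 pcN0 Cut.none Ext.none :=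
  certNX0 (fam := false) (s1 := false) (s2 := false) (a := 3) (b := 0) (c := 3) (cn := .npn) (n1 := ndN5q3) (n2 := ndN1q3) (pc := pcN0) (cut := Cut.none) (xt := Ext.none) (P1 := 0) (W1 := 1230186008) (P2 := 1610612736) (W2 := 469762048) (P3 := 1046898278) (W3 := 26843546) (N0 := 3)
    rfl k0_mm_303

noncomputable def f_mm_313 : ℕ → ℕ → ℕ → ℕ → Bool := onCell 0 1230186008 1610612736 469762048 1046898278 26843546
    (rowNX 3 0 false false false .dn 3 1 3 (qsf 0 1230186008 1610612736 469762048 1) ndN5q3 ndN1q3 pcN1 Cut.none Ext.none)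

def k0_mm_313 : ∃ t, chk3 f_mm_313 t 1 1 1 = true :=
  ⟨(l 1), by decide +kernel⟩

theorem c_mm_313 : CertNX 0 1230186008 1610612736 469762048 1046898278 26843546 3 false false false .dn 3 1 3
    ndN5q3 ndN1q3 pcN1 Cut.none Ext.none :=
  certNX0 (fam := false) (s1 := false) (s2 := false) (a := 3) (b := 1) (c := 3) (cn := .dn) (n1 := ndN5q3) (n2 := ndN1q3) (pc := pcN1) (cut := Cut.none) (xt := Ext.none) (P1 := 0) (W1 := 1230186008) (P2 := 1610612736) (W2 := 469762048) (P3 := 1046898278) (W3 := 26843546) (N0 := 3)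
    rfl k0_mm_313

end Pool.Agent.Strip051.G.IE1.Tab.C.NB51

namespace Pool.Agent.Strip051.G.IE1.Tab.C.NB52

open Pool.Agent.Strip051.PB Pool.Agent.Strip051.PB.T
open Pool.Agent.Strip051.G.IE1.Tab

noncomputable def f_pp_001 : ℕ → ℕ → ℕ → ℕ → Bool := onCell 0 536870912 536870912 536870912 1046898278 26843546
    (rowNX 3 0 false true true .up 0 0 1 (qsf 0 536870912 536870912 536870912 0) ndN5q0 ndN2q1 pcN0 Cut.none Ext.none)

def k0_pp_001 : ∃ t, chk3 f_pp_001 t 1 1 1 = true :=
  ⟨(l 3), by decide +kernel⟩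

theorem c_pp_001 : CertNX 0 536870912 536870912 536870912 1046898278 26843546 3 false true true .up 0 0 1
    ndN5q0 ndN2q1 pcN0 Cut.none Ext.none :=
  certNX0 (fam := false) (s1 := true) (s2 := true) (a := 0) (b := 0) (c := 1) (cn := .up) (n1 := ndN5q0) (n2 := ndN2q1) (pc := pcN0) (cut := Cut.none) (xt := Ext.none) (P1 := 0) (W1 := 536870912) (P2 := 536870912) (W2 := 536870912) (P3 := 1046898278) (W3 := 26843546) (N0 := 3)
    rfl k0_pp_001

noncomputable def f_pp_011 : ℕ → ℕ → ℕ → ℕ → Bool := onCell 0 536870912 536870912 536870912 1046898278 26843546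
    (rowNX 3 0 false true true .pnn 0 1 1 (qsf 0 536870912 536870912 536870912 1) ndN5q0 ndN2q1 pcN1 Cut.none Ext.none)

def k0_pp_011 : ∃ t, chk3 f_pp_011 t 1 1 1 = true :=
  ⟨(l 3), by decide +kernel⟩

theorem c_pp_011 : CertNX 0 536870912 536870912 536870912 1046898278 26843546 3 false true true .pnn 0 1 1
    ndN5q0 ndN2q1 pcN1 Cut.none Ext.none :=
  certNX0 (fam := false) (s1 := true) (s2 := true) (a := 0) (b := 1) (c := 1) (cn := .pnn) (n1 := ndN5q0) (n2 := ndN2q1) (pc := pcN1) (cut := Cut.none) (xt := Ext.none) (P1 := 0) (W1 := 536870912) (P2 := 536870912) (W2 := 536870912) (P3 := 1046898278) (W3 := 26843546) (N0 := 3)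
    rfl k0_pp_011

noncomputable def f_pp_012_a : ℕ → ℕ → ℕ → ℕ → Bool := onCell 536870912 536870912 0 420477299 1046898278 26843546
    (rowNX 3 2 false true true .pnp 0 1 2 (qsf 0 536870912 0 420477299 1) ndN5q0 ndN2q2a pcN1 Cut.none Ext.none)

def k0_pp_012_a : ∃ t, chk3 f_pp_012_a t 1 1 1 = true :=
  ⟨(a (b (a (l 2) (b (l 16400216) (l 16398760))) (b (a (l 16554784) (l 16554784)) (a (b (l 16713464) (l 16262632)) (b (l 16713464) (a (l 16262632) (l 16262632)))))) (a (b (a (b (l 16417568) (l 16414880)) (b (l 16551440) (l 16435216))) (b (a (l 16569808) (l 16435320)) (a (b (l 16724560) (l 16277816)) (b (a (l 16627176) (l 16273624)) (a (l 16346272) (l 16050336)))))) (b (a (b (a (l 16428256) (l 16107208)) (a (l 16468928) (l 16188328))) (b (a (l 15892320) (l 15751728)) (a (l 16019464) (l 15897160)))) (a (b (a (l 16424576) (l 16221792)) (b (a (l 16305176) (l 16183232)) (a (l 16131712) (l 15982712)))) (b (a (l 16094120) (l 15994424)) (b (a (l 16065408) (b (l 16022936) (l 15983136))) (a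 (l 15783328) (a (b (l 15883512) (l 15860128)) (b (l 16012296) (l 16033328)))))))))), by decide +kernel⟩

theorem c_pp_012_a : CertNX 0 536870912 0 420477299 1046898278 26843546 3 false true true .pnp 0 1 2
    ndN5q0 ndN2q2a pcN1 Cut.none Ext.none :=
  certNX2 (fam := false) (s1 := true) (s2 := true) (a := 0) (b := 1) (c := 2) (cn := .pnp) (n1 := ndN5q0) (n2 := ndN2q2a) (pc := pcN1) (cut := Cut.none) (xt := Ext.none) (P1 := 0) (W1 := 536870912) (P2 := 0) (W2 := 420477299) (P3 := 1046898278) (W3 := 26843546) (N0 := 3)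
    rfl (fun _ => rfl) k0_pp_012_a

noncomputable def f_pp_012_b : ℕ → ℕ → ℕ → ℕ → Bool := onCell 536870912 536870912 1239849684 370763052 1046898278 26843546
    (rowNX 3 2 false true true .pnp 0 1 2 (qsf 0 536870912 1239849684 370763052 1) ndN5q0 ndN2q2b pcN1 Cut.none Ext.none)

def k0_pp_012_b : ∃ t, chk3 f_pp_012_b t 1 1 1 = true :=
  ⟨(a (b (a (l 2) (b (l 16655936) (l 16777216))) (l 2)) (a (b (a (b (l 16566512) (l 16742168)) (b (b (l 16445368) (l 16522232)) (l 16488016))) (a (l 2) (b (l 16451280) (l 2)))) (b (a (b (a (l 16178384) (l 15718848)) (l 15884432)) (b (b (a (l 15591528) (l 15403776)) (a (l 15379224) (l 15016544))) (l 15003880))) (a (b (l 15801968) (l 15638704)) (b (a (l 15188904) (l 14755776)) (l 14578920)))))), by decide +kernel⟩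

theorem c_pp_012_b : CertNX 0 536870912 1239849684 370763052 1046898278 26843546 3 false true true .pnp 0 1 2
    ndN5q0 ndN2q2b pcN1 Cut.none Ext.none :=
  certNX2 (fam := false) (s1 := true) (s2 := true) (a := 0) (b := 1) (c := 2) (cn := .pnp) (n1 := ndN5q0) (n2 := ndN2q2b) (pc := pcN1) (cut := Cut.none) (xt := Ext.none) (P1 := 0) (W1 := 536870912) (P2 := 1239849684) (W2 := 370763052) (P3 := 1046898278) (W3 := 26843546) (N0 := 3)
    rfl (fun _ => rfl) k0_pp_012_b

noncomputable def f_pp_022_a : ℕ → ℕ → ℕ → ℕ → Bool := onCell 0 536870912 0 420477299 1046898278 26843546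
    (rowNX 3 0 false true true .pp 0 2 2 (qsf 0 536870912 0 420477299 2) ndN5q0 ndN2q2a pcN2 Cut.none Ext.none)

def k0_pp_022_a : ∃ t, chk3 f_pp_022_a t 4 2 1 = true :=
  ⟨(a (a (b (a (a (c (b (l 16067624) (l 16104576)) (c (a (l 16039408) (b (l 16155816) (l 16215616))) (a (b (l 15966896) (l 15922392)) (l 16103016)))) (c (b (a (l 16299920) (a (l 16395632) (l 16400952))) (a (b (l 16333112) (l 16256504)) (a (l 16393496) (l 16374456)))) (c (b (a (l 16280152) (l 16400384)) (a (l 16135896) (l 16379776))) (b (l 16344504) (a (l 16348576) (l 16412056)))))) (b (c (l 16318712) (l 16401704)) (c (a (l 16338768) (l 16306776)) (l 16380720)))) (a (b (a (c (b (l 16047752) (a (l 16279656) (l 16379160))) (a (c (l 16142720) (a (l 16226704) (b (l 16235136) (l 16362328)))) (c (b (l 16326664) (l 16387608)) (b (l 16325536) (l 16387552))))) (c (a (b (l 16385512) (l 16382912)) (l 16363976)) (c (a (l 16364096) (l 16350416)) (l 16382800)))) (a (c (b (l 16368088) (l 16370040)) (a (c (l 16390080) (b (a (l 16404616)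 (l 16416544)) (l 16407520))) (c (l 16388880) (l 16388608)))) (c (c (l 16363192) (l 16348152)) (l 16350688)))) (c (b (l 16145384) (a (l 16283336) (l 16248528))) (l 16141016)))) (b (c (a (l 16338160) (l 16253264)) (l 16287824)) (c (b (a (l 16272016) (l 16267392)) (a (l 16251112) (l 16253256))) (b (l 16279560) (l 16240744))))) (a (b (a (a (l 16276080) (l 16493080)) (l 16328464)) (a (b (l 16343072) (l 16371600)) (l 16375056))) (b (a (l 16090480) (l 15992632)) (b (l 16141752) (l 16182048))))), by decide +kernel⟩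

def k1_pp_022_a : ∃ t, chk3 f_pp_022_a t 4 3 1 = true :=
  ⟨(a (b (a (a (c (a (l 16357528) (c (l 16219888) (a (l 16350856) (l 16297840)))) (a (a (c (l 16383392) (a (l 16358808) (l 16248656))) (c (l 16371240) (l 16369976))) (c (l 16327264) (l 16348800)))) (c (a (c (l 16187576) (l 16220352)) (l 16102568)) (b (l 16304040) (l 16294392)))) (c (b (a (l 16236632) (l 16261104)) (a (l 16246456) (l 16288584))) (b (l 16217496) (l 16232296)))) (a (a (b (c (a (l 16349144) (c (b (l 16354624) (l 16446280)) (b (l 16338088) (l 16431160)))) (a (b (c (l 16363160) (c (l 16296896) (l 16333024))) (c (l 16474224) (a (l 16452712) (l 16470216)))) (c (b (l 16335176) (l 16429696)) (l 16405320)))) (c (a (l 16554600) (c (l 16519528) (l 16360840))) (a (c (a (l 16520856) (l 16476984)) (a (c (l 16509472) (l 16335160)) (l 16514952))) (c (l 16525752) (l 16564792))))) (b (c (a (b (l 16169952) (l 16374512)) (l 16156280)) (b (l 16315168) (l 16418784))) (c (a (b (l 16498504) (l 16626440)) (l 16547960)) (l 16409736))))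 (b (c (a (b (l 16282344) (l 16384032)) (b (l 16324464) (l 16403384))) (b (l 16288776) (l 16413632))) (c (a (l 16409256) (b (l 16545624) (l 16680848))) (a (l 16615848) (l 16622672)))))) (b (a (a (b (l 16412800) (l 16415536)) (l 16384920)) (b (l 16226392) (l 16258368))) (a (b (a (b (l 16322224) (l 16505896)) (l 16351112)) (a (a (l 16410688) (l 16515112)) (l 16129776))) (b (b (l 16249744) (l 16261432)) (l 1))))), by decide +kernel⟩

def k2_pp_022_a : ∃ t, chk3 f_pp_022_a t 5 1 1 = true :=
  ⟨(a (b (b (a (l 15841480) (l 1)) (a (b (l 15974264) (l 16035376)) (l 1))) (b (a (b (l 16098640) (l 1)) (l 1)) (l 1))) (l 1)), by decide +kernel⟩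

def k3_pp_022_a : ∃ t, chk3 f_pp_022_a t 3 1 1 = true :=
  ⟨(l 1), by decide +kernel⟩

theorem s4_pp_022_a : ∃ t, chk3 f_pp_022_a t 4 1 1 = true := ex3_b k0_pp_022_a k1_pp_022_a

theorem s5_pp_022_a : ∃ t, chk3 f_pp_022_a t 2 1 1 = true := ex3_a s4_pp_022_a k2_pp_022_a

theorem s6_pp_022_a : ∃ t, chk3 f_pp_022_a t 1 1 1 = true := ex3_a s5_pp_022_a k3_pp_022_a

theorem c_pp_022_a : CertNX 0 536870912 0 420477299 1046898278 26843546 3 false true true .pp 0 2 2
    ndN5q0 ndN2q2a pcN2 Cut.none Ext.none :=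
  certNX0 (fam := false) (s1 := true) (s2 := true) (a := 0) (b := 2) (c := 2) (cn := .pp) (n1 := ndN5q0) (n2 := ndN2q2a) (pc := pcN2) (cut := Cut.none) (xt := Ext.none) (P1 := 0) (W1 := 536870912) (P2 := 0) (W2 := 420477299) (P3 := 1046898278) (W3 := 26843546) (N0 := 3)
    rfl s6_pp_022_a

noncomputable def f_pp_022_b : ℕ → ℕ → ℕ → ℕ → Bool := onCell 0 536870912 1073741824 536870912 1046898278 26843546
    (rowNX 3 1 false true true .pp 0 2 2 (qsf 0 536870912 1239849684 370763052 2) ndN5q0 ndN2q2b pcN2 Cut.none Ext.none)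

def k0_pp_022_b : ∃ t, chk3 f_pp_022_b t 2 4 1 = true :=
  ⟨(a (a (b (l 1) (a (a (l 1) (b (l 1) (c (a (l 1) (l 16279264)) (l 16260152)))) (b (a (l 1) (c (b (l 1) (l 16274664)) (l 16333664))) (a (c (b (l 16315752) (l 16291544)) (l 16268760)) (c (b (l 16230008) (l 16224984)) (l 16336768)))))) (b (a (b (l 1) (a (l 1) (l 16254448))) (b (a (l 1) (l 15888664)) (a (l 307121662599) (l 15834632)))) (a (b (a (b (l 16349712) (l 141229405111)) (b (l 16246600) (l 16073424))) (a (l 15844592) (l 15687176))) (b (b (l 15785864) (l 15624704)) (l 15304576))))) (b (a (b (a (l 415568937671) (l 15291288)) (a (l 15529360) (l 15183208))) (a (l 14929632) (l 14763432))) (a (b (a (l 15369912) (l 15152560)) (l 15003160)) (b (l 14950448) (l 14756584))))), by decide +kernel⟩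

def k1_pp_022_b : ∃ t, chk3 f_pp_022_b t 2 5 1 = true :=
  ⟨(a (b (b (b (a (a (a (a (l 1) (a (l 1) (c (l 271688999383) (l 16340104)))) (c (a (c (l 16379360) (l 16394920)) (l 16359664)) (l 16256304))) (c (a (l 16183024) (l 15921344)) (l 16041176))) (a (a (l 15670720) (l 15345552)) (l 15046352))) (a (a (a (c (a (b (l 16257368) (l 16022232)) (a (l 16161760) (l 16212416))) (a (c (a (l 16140536) (l 16085112)) (a (b (l 1) (l 15909592)) (l 16164968))) (c (l 16202992) (l 16223456)))) (c (a (l 16207016) (l 16318408)) (l 16341720))) (a (l 15984200) (l 15883720))) (a (a (l 15779040) (l 15505032)) (l 15240464)))) (a (a (a (c (a (l 15471464) (c (l 15484496) (l 15435400))) (a (c (a (l 15505752) (l 15558072)) (a (c (l 15502904) (l 15499640)) (l 15542432))) (c (l 15609488) (l 15618584)))) (c (a (l 15432736) (l 15702472)) (l 15614008))) (a (b (l 15953848) (l 15629672)) (c (l 15954176) (l 16095928)))) (a (a (l 16084856) (l 16167920)) (l 15920544)))) (a (a (b (a (c (a (l 14815128) (c (l 14945424)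 (l 14902984))) (a (c (l 14788136) (a (l 14742952) (l 14790416))) (l 14737856))) (c (a (l 14968600) (l 15041032)) (l 15007688))) (a (c (a (l 14445360) (l 14534304)) (a (c (l 14406704) (l 14378168)) (l 14459904))) (c (l 14614848) (l 14595496)))) (a (b (l 15032560) (l 14781008)) (b (l 15341112) (l 14961904)))) (b (a (a (l 15602272) (l 15959120)) (l 16331744)) (a (l 15431232) (l 16018664))))) (b (b (b (a (l 14809936) (l 14592312)) (a (l 15016024) (l 14809592))) (a (l 15707864) (l 15498392))) (b (a (l 16542648) (l 16307352)) (a (l 16387816) (l 16667872))))), by decide +kernel⟩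

def k2_pp_022_b : ∃ t, chk3 f_pp_022_b t 3 2 1 = true :=
  ⟨(b (b (a (a (b (l 14622728) (l 14756888)) (b (l 14492384) (l 14618728))) (c (b (l 14264080) (l 14411224)) (b (l 14176232) (l 14330360)))) (a (b (a (l 14871776) (l 14723576)) (l 14628560)) (b (l 14484176) (l 14408440)))) (b (a (b (l 14639224) (l 15387560)) (b (l 14581256) (l 2))) (b (l 15932424) (l 16223376)))), by decide +kernel⟩

def k3_pp_022_b : ∃ t, chk3 f_pp_022_b t 1 3 1 = true :=
  ⟨(a (a (b (a (a (a (c (b (a (l 14444840) (l 14533712)) (l 14483176)) (a (c (l 14406176) (l 14377624)) (l 14459288))) (c (b (l 14614280) (l 14614280)) (l 14594904))) (b (l 14779952) (l 14863840))) (a (b (l 15430744) (l 15430584)) (b (l 16020672) (l 16017192)))) (a (a (a (c (l 14483176) (a (l 14389800) (l 14459288))) (c (l 14614280) (l 14594904))) (b (l 14863840) (l 14863840))) (a (l 15325888) (l 16018240)))) (b (b (a (l 16394096) (l 16685984)) (l 16285104)) (b (l 16535024) (l 2)))) (b (b (a (l 16569096) (l 2)) (l 2)) (l 2))), by decide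 +kernel⟩

theorem s4_pp_022_b : ∃ t, chk3 f_pp_022_b t 2 2 1 = true := ex3_b k0_pp_022_b k1_pp_022_b

theorem s5_pp_022_b : ∃ t, chk3 f_pp_022_b t 1 2 1 = true := ex3_a s4_pp_022_b k2_pp_022_b

theorem s6_pp_022_b : ∃ t, chk3 f_pp_022_b t 1 1 1 = true := ex3_b s5_pp_022_b k3_pp_022_b

theorem c_pp_022_b : CertNX 0 536870912 1239849684 370763052 1046898278 26843546 3 false true true .pp 0 2 2
    ndN5q0 ndN2q2b pcN2 Cut.none Ext.none :=
  certNX1 (fam := false) (s1 := true) (s2 := true) (a := 0) (b := 2) (c := 2) (cn := .pp) (n1 := ndN5q0) (n2 := ndN2q2b) (pc := pcN2) (cut := Cut.none) (xt := Ext.none) (P1 := 0) (W1 := 536870912) (P2 := 1239849684) (W2 := 370763052) (P3 := 1046898278) (W3 := 26843546) (N0 := 3)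
    rfl (fun _ => rfl) s6_pp_022_b

noncomputable def f_pp_023 : ℕ → ℕ → ℕ → ℕ → Bool := onCell 0 536870912 1073741824 536870912 1046898278 26843546
    (rowNX 3 1 false true true .up 0 2 3 (qsf 0 536870912 1610612736 469762048 2) ndN5q0 ndN2q3 pcN2 Cut.none Ext.none)

def k0_pp_023 : ∃ t, chk3 f_pp_023 t 1 1 1 = true :=
  ⟨(b (a (b (l 1) (a (l 1) (b (l 1) (b (l 1) (l 811244585831))))) (b (b (a (l 1) (c (l 586828076183) (l 581459185079))) (a (b (l 1) (l 14628560)) (b (l 14484176) (l 14408440)))) (b (b (a (l 14639224) (l 14581256)) (l 578240132471)) (b (l 508448525463) (l 16223376))))) (a (a (b (a (l 1) (a (l 1) (l 730175979287))) (a (a (a (c (l 14483176) (l 796207916439)) (l 511666648615)) (l 513277816247)) (a (l 15283944) (l 16018240)))) (b (b (l 781716654919) (l 711386528615)) (b (l 16535024) (l 16535024)))) (b (b (a (l 16569096) (l 16440304)) (a (l 16768264) (l 16764640))) (a (l 16777072) (b (l 16748840) (l 4)))))), by decide +kernel⟩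

theorem c_pp_023 : CertNX 0 536870912 1610612736 469762048 1046898278 26843546 3 false true true .up 0 2 3
    ndN5q0 ndN2q3 pcN2 Cut.none Ext.none :=
  certNX1 (fam := false) (s1 := true) (s2 := true) (a := 0) (b := 2) (c := 3) (cn := .up) (n1 := ndN5q0) (n2 := ndN2q3) (pc := pcN2) (cut := Cut.none) (xt := Ext.none) (P1 := 0) (W1 := 536870912) (P2 := 1610612736) (W2 := 469762048) (P3 := 1046898278) (W3 := 26843546) (N0 := 3)
    rfl (fun _ => rfl) k0_pp_023

noncomputable def f_pp_033 : ℕ → ℕ → ℕ → ℕ → Bool := onCell 0 536870912 1610612736 469762048 1046898278 26843546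
    (rowNX 3 0 false true true .pnn 0 3 3 (qsf 0 536870912 1610612736 469762048 3) ndN5q0 ndN2q3 pcN3 Cut.none Ext.none)

def k0_pp_033 : ∃ t, chk3 f_pp_033 t 1 1 1 = true :=
  ⟨(a (b (a (a (b (a (a (c (l 14483176) (l 14302800)) (l 14565424)) (l 14863840)) (a (b (c (l 14472776) (l 14319208)) (a (c (l 14483176) (l 14428624)) (l 14334736))) (b (l 14863840) (l 14863840)))) (b (a (l 15430744) (l 16018240)) (a (b (l 15430744) (l 15430744)) (b (l 16018240) (l 16018240))))) (b (l 1) (a (l 16355152) (l 16726952)))) (b (a (l 4) (b (a (l 4) (l 16726952)) (l 4))) (l 4))) (b (l 1) (b (a (b (l 16777216) (l 4)) (l 1)) (l 4)))), by decide +kernel⟩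

theorem c_pp_033 : CertNX 0 536870912 1610612736 469762048 1046898278 26843546 3 false true true .pnn 0 3 3
    ndN5q0 ndN2q3 pcN3 Cut.none Ext.none :=
  certNX0 (fam := false) (s1 := true) (s2 := true) (a := 0) (b := 3) (c := 3) (cn := .pnn) (n1 := ndN5q0) (n2 := ndN2q3) (pc := pcN3) (cut := Cut.none) (xt := Ext.none) (P1 := 0) (W1 := 536870912) (P2 := 1610612736) (W2 := 469762048) (P3 := 1046898278) (W3 := 26843546) (N0 := 3)
    rfl k0_pp_033

noncomputable def f_pp_101 : ℕ → ℕ → ℕ → ℕ → Bool := onCell 536870912 469762048 536870912 536870912 1046898278 26843546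
    (rowNX 3 0 false true true .npn 1 0 1 (qsf 536870912 469762048 536870912 536870912 0) ndN5q1 ndN2q1 pcN0 Cut.none Ext.none)

def k0_pp_101 : ∃ t, chk3 f_pp_101 t 1 1 1 = true :=
  ⟨(l 3), by decide +kernel⟩

theorem c_pp_101 : CertNX 536870912 469762048 536870912 536870912 1046898278 26843546 3 false true true .npn 1 0 1
    ndN5q1 ndN2q1 pcN0 Cut.none Ext.none :=
  certNX0 (fam := false) (s1 := true) (s2 := true) (a := 1) (b := 0) (c := 1) (cn := .npn) (n1 := ndN5q1) (n2 := ndN2q1) (pc := pcN0) (cut := Cut.none) (xt := Ext.none) (P1 := 536870912) (W1 := 469762048) (P2 := 536870912) (W2 := 536870912) (P3 := 1046898278) (W3 := 26843546) (N0 := 3)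
    rfl k0_pp_101

noncomputable def f_pp_102_a : ℕ → ℕ → ℕ → ℕ → Bool := onCell 536870912 469762048 0 420477299 1046898278 26843546
    (rowNX 3 0 false true true .npp 1 0 2 (qsf 536870912 469762048 0 420477299 0) ndN5q1 ndN2q2a pcN0 Cut.none Ext.none)

def k0_pp_102_a : ∃ t, chk3 f_pp_102_a t 1 1 1 = true :=
  ⟨(a (b (b (l 16400216) (a (l 2) (l 16398760))) (b (a (l 16554784) (l 16554784)) (a (b (l 16713464) (l 16262632)) (b (l 16713464) (l 16262632))))) (a (b (a (b (l 16400216) (l 16398760)) (b (l 15799856) (a (l 16383432) (l 15656968)))) (b (a (l 16554784) (a (l 16461208) (l 15742808))) (a (b (l 16713464) (l 16262632)) (b (a (l 16400544) (l 15908504)) (a (a (l 16216096) (l 16529344)) (l 15967384)))))) (b (a (a (b (l 14861688) (l 14858808)) (b (l 14042112) (l 14039456))) (a (b (l 13274024) (a (l 13404832) (l 13136720))) (b (a (l 13294416) (b (l 13496016) (l 13463520))) (b (a (l 13274984) (l 13457464)) (a (b (l 13296032) (l 13316368)) (l 13479712)))))) (a (b (a (l 14954656) (l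 14145496)) (b (a (a (l 15334504) (l 14938136)) (b (a (l 14480680) (l 14084520)) (a (l 14612680) (l 14254608)))) (a (a (l 15623576) (b (l 15152056) (a (l 15432344) (l 15273488)))) (b (a (l 14803304) (l 14498600)) (l 14944032))))) (b (a (b (a (l 13475648) (a (l 13187560) (l 13235976))) (a (b (l 13537648) (l 13602104)) (a (l 13300112) (l 13364080)))) (b (a (c (l 13432232) (l 13309472)) (c (l 13606112) (l 13485544))) (c (a (l 13577128) (l 13770872)) (l 13559968)))) (a (b (a (b (l 13711696) (l 13920016)) (b (c (l 13566816) (l 13453272)) (c (l 13789688) (l 13684632)))) (a (b (l 14189312) (l 14523208)) (b (a (l 13979616) (l 14075288)) (a (l 14331824) (l 14439704))))) (b (c (b (a (l 13773224) (l 13988312)) (a (l 14014424) (l 14247800))) (b (l 13774656) (l 14034464))) (a (b (c (l 14320544) (l 14231632)) (c (c (l 14713000) (l 14676336)) (l 14619768))) (b (c (a (l 14513392) (l 14641008)) (l 14494464)) (c (c (l 14989328) (l 14956872)) (l 14903368))))))))))), by decide +kernel⟩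

theorem c_pp_102_a : CertNX 536870912 469762048 0 420477299 1046898278 26843546 3 false true true .npp 1 0 2
    ndN5q1 ndN2q2a pcN0 Cut.none Ext.none :=
  certNX0 (fam := false) (s1 := true) (s2 := true) (a := 1) (b := 0) (c := 2) (cn := .npp) (n1 := ndN5q1) (n2 := ndN2q2a) (pc := pcN0) (cut := Cut.none) (xt := Ext.none) (P1 := 536870912) (W1 := 469762048) (P2 := 0) (W2 := 420477299) (P3 := 1046898278) (W3 := 26843546) (N0 := 3)
    rfl k0_pp_102_a

noncomputable def f_pp_102_b : ℕ → ℕ → ℕ → ℕ → Bool := onCell 536870912 469762048 1239849684 370763052 1046898278 26843546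
    (rowNX 3 0 false true true .npp 1 0 2 (qsf 536870912 469762048 1239849684 370763052 0) ndN5q1 ndN2q2b pcN0 Cut.none Ext.none)

def k0_pp_102_b : ∃ t, chk3 f_pp_102_b t 1 1 1 = true :=
  ⟨(a (b (b (a (l 2) (l 16655936)) (l 2)) (l 2)) (a (b (a (b (l 16655936) (l 16777216)) (b (a (l 16520128) (l 15806568)) (l 16230016))) (a (l 2) (l 16230016))) (a (b (a (b (l 15023856) (l 15096576)) (b (l 14220200) (l 14301168))) (a (l 15096576) (l 14301168))) (b (a (b (a (l 13597392) (l 13337176)) (l 13557320)) (b (b (c (l 13574952) (l 13454440)) (l 13672352)) (l 13693848))) (a (l 13557320) (l 13693848)))))), by decide +kernel⟩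

theorem c_pp_102_b : CertNX 536870912 469762048 1239849684 370763052 1046898278 26843546 3 false true true .npp 1 0 2
    ndN5q1 ndN2q2b pcN0 Cut.none Ext.none :=
  certNX0 (fam := false) (s1 := true) (s2 := true) (a := 1) (b := 0) (c := 2) (cn := .npp) (n1 := ndN5q1) (n2 := ndN2q2b) (pc := pcN0) (cut := Cut.none) (xt := Ext.none) (P1 := 536870912) (W1 := 469762048) (P2 := 1239849684) (W2 := 370763052) (P3 := 1046898278) (W3 := 26843546) (N0 := 3)
    rfl k0_pp_102_b

noncomputable def f_pp_112_a : ℕ → ℕ → ℕ → ℕ → Bool := onCell 536870912 469762048 0 420477299 1046898278 26843546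
    (rowNX 3 0 false true true .dn 1 1 2 (qsf 536870912 469762048 0 420477299 1) ndN5q1 ndN2q2a pcN1 Cut.none Ext.none)

def k0_pp_112_a : ∃ t, chk3 f_pp_112_a t 1 1 1 = true :=
  ⟨(a (b (a (b (l 16400216) (l 16398760)) (b (l 16400216) (l 16398760))) (b (a (l 16554784) (l 16554784)) (a (b (l 16713464) (l 16262632)) (l 1)))) (l 1)), by decide +kernel⟩

theorem c_pp_112_a : CertNX 536870912 469762048 0 420477299 1046898278 26843546 3 false true true .dn 1 1 2
    ndN5q1 ndN2q2a pcN1 Cut.none Ext.none :=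
  certNX0 (fam := false) (s1 := true) (s2 := true) (a := 1) (b := 1) (c := 2) (cn := .dn) (n1 := ndN5q1) (n2 := ndN2q2a) (pc := pcN1) (cut := Cut.none) (xt := Ext.none) (P1 := 536870912) (W1 := 469762048) (P2 := 0) (W2 := 420477299) (P3 := 1046898278) (W3 := 26843546) (N0 := 3)
    rfl k0_pp_112_a

noncomputable def f_pp_112_b : ℕ → ℕ → ℕ → ℕ → Bool := onCell 536870912 469762048 1239849684 370763052 1046898278 26843546
    (rowNX 3 0 false true true .dn 1 1 2 (qsf 536870912 469762048 1239849684 370763052 1) ndN5q1 ndN2q2b pcN1 Cut.none Ext.none)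

def k0_pp_112_b : ∃ t, chk3 f_pp_112_b t 1 1 1 = true :=
  ⟨(b (a (b (a (l 16655936) (l 16655936)) (a (a (l 16743352) (l 16777216)) (l 16777216))) (a (a (b (l 16655936) (l 16777216)) (b (l 1) (l 16230016))) (l 1))) (a (b (a (a (b (l 16572040) (l 16221560)) (l 16662920)) (l 16770592)) (a (a (b (l 15653224) (l 14944896)) (b (l 16284976) (l 15752632))) (a (l 16480480) (l 16717512)))) (a (a (l 16777200) (l 16230016)) (a (a (l 15096576) (l 14301168)) (a (l 13557320) (l 13693848)))))), by decide +kernel⟩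

theorem c_pp_112_b : CertNX 536870912 469762048 1239849684 370763052 1046898278 26843546 3 false true true .dn 1 1 2
    ndN5q1 ndN2q2b pcN1 Cut.none Ext.none :=
  certNX0 (fam := false) (s1 := true) (s2 := true) (a := 1) (b := 1) (c := 2) (cn := .dn) (n1 := ndN5q1) (n2 := ndN2q2b) (pc := pcN1) (cut := Cut.none) (xt := Ext.none) (P1 := 536870912) (W1 := 469762048) (P2 := 1239849684) (W2 := 370763052) (P3 := 1046898278) (W3 := 26843546) (N0 := 3)
    rfl k0_pp_112_b

noncomputable def f_pp_113 : ℕ → ℕ → ℕ → ℕ → Bool := onCell 536870912 469762048 536870912 536870912 1046898278 26843546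
    (rowNX 3 1 false true true .nn 1 1 3 (qsf 536870912 469762048 1610612736 469762048 1) ndN5q1 ndN2q3 pcN1 Cut.none Ext.none)

def k0_pp_113 : ∃ t, chk3 f_pp_113 t 1 1 1 = true :=
  ⟨(b (a (l 1) (a (a (l 16777216) (b (l 1) (l 16230016))) (a (a (l 15096576) (l 14301168)) (a (l 498242817671) (l 13568024))))) (a (b (b (l 16736120) (a (l 1) (l 16346792))) (b (l 495562490151) (b (l 14706560) (a (l 14258384) (l 13962384))))) (b (a (b (l 90226671255) (a (l 16290256) (l 15725192))) (a (b (l 14628264) (l 14185312)) (b (l 13678752) (a (l 13022576) (l 13147080))))) (a (b (a (l 15296656) (l 14693344)) (a (l 14118864) (b (l 13801480) (l 13098632)))) (a (b (l 13170520) (b (l 12320536) (l 11644800))) (b (a (l 12029032) (l 12153688)) (b (l 11444072) (a (l 10693424) (l 10936816))))))))), by decide +kernel⟩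

theorem c_pp_113 : CertNX 536870912 469762048 1610612736 469762048 1046898278 26843546 3 false true true .nn 1 1 3
    ndN5q1 ndN2q3 pcN1 Cut.none Ext.none :=
  certNX1 (fam := false) (s1 := true) (s2 := true) (a := 1) (b := 1) (c := 3) (cn := .nn) (n1 := ndN5q1) (n2 := ndN2q3) (pc := pcN1) (cut := Cut.none) (xt := Ext.none) (P1 := 536870912) (W1 := 469762048) (P2 := 1610612736) (W2 := 469762048) (P3 := 1046898278) (W3 := 26843546) (N0 := 3)
    rfl (fun _ => rfl) k0_pp_113

noncomputable def f_pp_123 : ℕ → ℕ → ℕ → ℕ → Bool := onCell 1073741824 536870912 1610612736 469762048 1046898278 26843546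
    (rowNX 3 2 false true true .npn 1 2 3 (qsf 536870912 469762048 1610612736 469762048 2) ndN5q1 ndN2q3 pcN2 Cut.none Ext.none)

def k0_pp_123 : ∃ t, chk3 f_pp_123 t 1 1 1 = true :=
  ⟨(b (a (a (a (b (c (l 14121856) (l 13915296)) (c (l 13849736) (a (l 13621776) (l 13871440)))) (a (b (l 14391432) (l 14131056)) (l 14310424))) (a (a (l 14317016) (l 15277816)) (a (l 15919400) (l 16311704)))) (l 1)) (a (a (b (a (a (b (l 13453592) (c (l 13144064) (l 12984840))) (c (l 13683088) (l 13579080))) (a (l 13871800) (l 14044968))) (a (b (a (c (l 12276832) (a (l 11498736) (l 12202768))) (c (l 13184944) (l 12977016))) (a (a (b (l 10991232) (l 11216856)) (c (l 12219224) (l 11543848))) (c (b (l 13004952) (l 13214032)) (l 12667728)))) (a (b (l 13619128) (a (l 13462528) (l 13725640))) (b (l 13907584) (l 13960384))))) (a (b (l 14825224) (a (b (l 14459776) (l 14512776)) (l 15081408))) (b (l 15802840) (a (l 15497720) (l 15862448))))) (a (a (b (l 16390552) (l 16369432)) (l 689376237303)) (l 502545171911)))),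 by decide +kernel⟩

theorem c_pp_123 : CertNX 536870912 469762048 1610612736 469762048 1046898278 26843546 3 false true true .npn 1 2 3
    ndN5q1 ndN2q3 pcN2 Cut.none Ext.none :=
  certNX2 (fam := false) (s1 := true) (s2 := true) (a := 1) (b := 2) (c := 3) (cn := .npn) (n1 := ndN5q1) (n2 := ndN2q3) (pc := pcN2) (cut := Cut.none) (xt := Ext.none) (P1 := 536870912) (W1 := 469762048) (P2 := 1610612736) (W2 := 469762048) (P3 := 1046898278) (W3 := 26843546) (N0 := 3)
    rfl (fun _ => rfl) k0_pp_123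

noncomputable def f_pp_133 : ℕ → ℕ → ℕ → ℕ → Bool := onCell 536870912 469762048 1610612736 469762048 1046898278 26843546
    (rowNX 3 0 false true true .dn 1 3 3 (qsf 536870912 469762048 1610612736 469762048 3) ndN5q1 ndN2q3 pcN3 Cut.none Ext.none)

def k0_pp_133 : ∃ t, chk3 f_pp_133 t 1 1 1 = true :=
  ⟨(l 1), by decide +kernel⟩

theorem c_pp_133 : CertNX 536870912 469762048 1610612736 469762048 1046898278 26843546 3 false true true .dn 1 3 3
    ndN5q1 ndN2q3 pcN3 Cut.none Ext.none :=
  certNX0 (fam := false) (s1 := true) (s2 := true) (a := 1) (b := 3) (c := 3) (cn := .dn) (n1 := ndN5q1) (n2 := ndN2q3) (pc := pcN3) (cut := Cut.none) (xt := Ext.none) (P1 := 536870912) (W1 := 469762048) (P2 := 1610612736) (W2 := 469762048) (P3 := 1046898278) (W3 := 26843546) (N0 := 3)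
    rfl k0_pp_133

noncomputable def f_pp_202_a : ℕ → ℕ → ℕ → ℕ → Bool := onCell 1073741824 536870912 0 420477299 1046898278 26843546
    (rowNX 3 0 false true true .pp 2 0 2 (qsf 1073741824 536870912 0 420477299 0) ndN5q2 ndN2q2a pcN0 Cut.none Ext.none)

def k0_pp_202_a : ∃ t, chk3 f_pp_202_a t 1 1 1 = true :=
  ⟨(l 3), by decide +kernel⟩

theorem c_pp_202_a : CertNX 1073741824 536870912 0 420477299 1046898278 26843546 3 false true true .pp 2 0 2
    ndN5q2 ndN2q2a pcN0 Cut.none Ext.none :=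
  certNX0 (fam := false) (s1 := true) (s2 := true) (a := 2) (b := 0) (c := 2) (cn := .pp) (n1 := ndN5q2) (n2 := ndN2q2a) (pc := pcN0) (cut := Cut.none) (xt := Ext.none) (P1 := 1073741824) (W1 := 536870912) (P2 := 0) (W2 := 420477299) (P3 := 1046898278) (W3 := 26843546) (N0 := 3)
    rfl k0_pp_202_a

noncomputable def f_pp_202_b : ℕ → ℕ → ℕ → ℕ → Bool := onCell 1073741824 536870912 1239849684 370763052 1046898278 26843546
    (rowNX 3 0 false true true .pp 2 0 2 (qsf 1073741824 536870912 1239849684 370763052 0) ndN5q2 ndN2q2b pcN0 Cut.none Ext.none)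

def k0_pp_202_b : ∃ t, chk3 f_pp_202_b t 1 1 1 = true :=
  ⟨(l 3), by decide +kernel⟩

theorem c_pp_202_b : CertNX 1073741824 536870912 1239849684 370763052 1046898278 26843546 3 false true true .pp 2 0 2
    ndN5q2 ndN2q2b pcN0 Cut.none Ext.none :=
  certNX0 (fam := false) (s1 := true) (s2 := true) (a := 2) (b := 0) (c := 2) (cn := .pp) (n1 := ndN5q2) (n2 := ndN2q2b) (pc := pcN0) (cut := Cut.none) (xt := Ext.none) (P1 := 1073741824) (W1 := 536870912) (P2 := 1239849684) (W2 := 370763052) (P3 := 1046898278) (W3 := 26843546) (N0 := 3)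
    rfl k0_pp_202_b

noncomputable def f_pp_203 : ℕ → ℕ → ℕ → ℕ → Bool := onCell 1073741824 536870912 0 536870912 1046898278 26843546
    (rowNX 3 1 false true true .up 2 0 3 (qsf 1073741824 536870912 1610612736 469762048 0) ndN5q2 ndN2q3 pcN0 Cut.none Ext.none)

def k0_pp_203 : ∃ t, chk3 f_pp_203 t 1 1 1 = true :=
  ⟨(l 3), by decide +kernel⟩

theorem c_pp_203 : CertNX 1073741824 536870912 1610612736 469762048 1046898278 26843546 3 false true true .up 2 0 3
    ndN5q2 ndN2q3 pcN0 Cut.none Ext.none :=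
  certNX1 (fam := false) (s1 := true) (s2 := true) (a := 2) (b := 0) (c := 3) (cn := .up) (n1 := ndN5q2) (n2 := ndN2q3) (pc := pcN0) (cut := Cut.none) (xt := Ext.none) (P1 := 1073741824) (W1 := 536870912) (P2 := 1610612736) (W2 := 469762048) (P3 := 1046898278) (W3 := 26843546) (N0 := 3)
    rfl (fun _ => rfl) k0_pp_203

noncomputable def f_pp_213 : ℕ → ℕ → ℕ → ℕ → Bool := onCell 1073741824 536870912 1610612736 469762048 1046898278 26843546
    (rowNX 3 0 false true true .pnn 2 1 3 (qsf 1073741824 536870912 1610612736 469762048 1) ndN5q2 ndN2q3 pcN1 Cut.none Ext.none)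

def k0_pp_213 : ∃ t, chk3 f_pp_213 t 1 1 1 = true :=
  ⟨(a (b (l 3) (a (b (l 3) (a (b (l 3) (a (b (l 3) (a (l 15518104) (l 3))) (l 3))) (l 3))) (l 3))) (l 3)), by decide +kernel⟩

theorem c_pp_213 : CertNX 1073741824 536870912 1610612736 469762048 1046898278 26843546 3 false true true .pnn 2 1 3
    ndN5q2 ndN2q3 pcN1 Cut.none Ext.none :=
  certNX0 (fam := false) (s1 := true) (s2 := true) (a := 2) (b := 1) (c := 3) (cn := .pnn) (n1 := ndN5q2) (n2 := ndN2q3) (pc := pcN1) (cut := Cut.none) (xt := Ext.none) (P1 := 1073741824) (W1 := 536870912) (P2 := 1610612736) (W2 := 469762048) (P3 := 1046898278) (W3 := 26843546) (N0 := 3)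
    rfl k0_pp_213

noncomputable def f_pp_303 : ℕ → ℕ → ℕ → ℕ → Bool := onCell 0 1230186008 1610612736 469762048 1046898278 26843546
    (rowNX 3 0 false true true .npn 3 0 3 (qsf 0 1230186008 1610612736 469762048 0) ndN5q3 ndN2q3 pcN0 Cut.none Ext.none)

def k0_pp_303 : ∃ t, chk3 f_pp_303 t 1 1 1 = true :=
  ⟨(a (l 3) (l 3)), by decide +kernel⟩

theorem c_pp_303 : CertNX 0 1230186008 1610612736 469762048 1046898278 26843546 3 false true true .npn 3 0 3
    ndN5q3 ndN2q3 pcN0 Cut.none Ext.none :=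
  certNX0 (fam := false) (s1 := true) (s2 := true) (a := 3) (b := 0) (c := 3) (cn := .npn) (n1 := ndN5q3) (n2 := ndN2q3) (pc := pcN0) (cut := Cut.none) (xt := Ext.none) (P1 := 0) (W1 := 1230186008) (P2 := 1610612736) (W2 := 469762048) (P3 := 1046898278) (W3 := 26843546) (N0 := 3)
    rfl k0_pp_303

noncomputable def f_pp_313 : ℕ → ℕ → ℕ → ℕ → Bool := onCell 0 1230186008 1610612736 469762048 1046898278 26843546
    (rowNX 3 0 false true true .dn 3 1 3 (qsf 0 1230186008 1610612736 469762048 1) ndN5q3 ndN2q3 pcN1 Cut.none Ext.none)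

def k0_pp_313 : ∃ t, chk3 f_pp_313 t 1 1 1 = true :=
  ⟨(l 1), by decide +kernel⟩

theorem c_pp_313 : CertNX 0 1230186008 1610612736 469762048 1046898278 26843546 3 false true true .dn 3 1 3
    ndN5q3 ndN2q3 pcN1 Cut.none Ext.none :=
  certNX0 (fam := false) (s1 := true) (s2 := true) (a := 3) (b := 1) (c := 3) (cn := .dn) (n1 := ndN5q3) (n2 := ndN2q3) (pc := pcN1) (cut := Cut.none) (xt := Ext.none) (P1 := 0) (W1 := 1230186008) (P2 := 1610612736) (W2 := 469762048) (P3 := 1046898278) (W3 := 26843546) (N0 := 3)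
    rfl k0_pp_313

noncomputable def f_pm_001 : ℕ → ℕ → ℕ → ℕ → Bool := onCell 0 536870912 536870912 536870912 1046898278 26843546
    (rowNX 3 0 false true false .up 0 0 1 (qsf 0 536870912 536870912 536870912 0) ndN5q0 ndN2q1 pcN0 Cut.none Ext.none)

def k0_pm_001 : ∃ t, chk3 f_pm_001 t 1 1 1 = true :=
  ⟨(l 4), by decide +kernel⟩

theorem c_pm_001 : CertNX 0 536870912 536870912 536870912 1046898278 26843546 3 false true false .up 0 0 1
    ndN5q0 ndN2q1 pcN0 Cut.none Ext.none :=
  certNX0 (fam := false) (s1 := true) (s2 := false) (a := 0) (b := 0) (c := 1) (cn := .up) (n1 := ndN5q0) (n2 := ndN2q1) (pc := pcN0) (cut := Cut.none) (xt := Ext.none) (P1 := 0) (W1 := 536870912) (P2 := 536870912) (W2 := 536870912) (P3 := 1046898278) (W3 := 26843546) (N0 := 3)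
    rfl k0_pm_001

noncomputable def f_pm_011 : ℕ → ℕ → ℕ → ℕ → Bool := onCell 0 536870912 536870912 536870912 1046898278 26843546
    (rowNX 3 0 false true false .pnn 0 1 1 (qsf 0 536870912 536870912 536870912 1) ndN5q0 ndN2q1 pcN1 Cut.none Ext.none)

def k0_pm_011 : ∃ t, chk3 f_pm_011 t 1 1 1 = true :=
  ⟨(l 4), by decide +kernel⟩

theorem c_pm_011 : CertNX 0 536870912 536870912 536870912 1046898278 26843546 3 false true false .pnn 0 1 1
    ndN5q0 ndN2q1 pcN1 Cut.none Ext.none :=
  certNX0 (fam := false) (s1 := true) (s2 := false) (a := 0) (b := 1) (c := 1) (cn := .pnn) (n1 := ndN5q0) (n2 := ndN2q1) (pc := pcN1) (cut := Cut.none) (xt := Ext.none) (P1 := 0) (W1 := 536870912) (P2 := 536870912) (W2 := 536870912) (P3 := 1046898278) (W3 := 26843546) (N0 := 3)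
    rfl k0_pm_011

noncomputable def f_pm_012_a : ℕ → ℕ → ℕ → ℕ → Bool := onCell 536870912 536870912 0 420477299 1046898278 26843546
    (rowNX 3 2 false true false .pnp 0 1 2 (qsf 0 536870912 0 420477299 1) ndN5q0 ndN2q2a pcN1 Cut.none Ext.none)

def k0_pm_012_a : ∃ t, chk3 f_pm_012_a t 1 1 1 = true :=
  ⟨(a (l 4) (l 4)), by decide +kernel⟩

theorem c_pm_012_a : CertNX 0 536870912 0 420477299 1046898278 26843546 3 false true false .pnp 0 1 2
    ndN5q0 ndN2q2a pcN1 Cut.none Ext.none :=
  certNX2 (fam := false) (s1 := true) (s2 := false) (a := 0) (b := 1) (c := 2) (cn := .pnp) (n1 := ndN5q0) (n2 := ndN2q2a) (pc := pcN1) (cut := Cut.none) (xt := Ext.none) (P1 := 0) (W1 := 536870912) (P2 := 0) (W2 := 420477299) (P3 := 1046898278) (W3 := 26843546) (N0 := 3)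
    rfl (fun _ => rfl) k0_pm_012_a

noncomputable def f_pm_012_b : ℕ → ℕ → ℕ → ℕ → Bool := onCell 536870912 536870912 1239849684 370763052 1046898278 26843546
    (rowNX 3 2 false true false .pnp 0 1 2 (qsf 0 536870912 1239849684 370763052 1) ndN5q0 ndN2q2b pcN1 Cut.none Ext.none)

def k0_pm_012_b : ∃ t, chk3 f_pm_012_b t 1 1 1 = true :=
  ⟨(a (l 4) (l 4)), by decide +kernel⟩

theorem c_pm_012_b : CertNX 0 536870912 1239849684 370763052 1046898278 26843546 3 false true false .pnp 0 1 2
    ndN5q0 ndN2q2b pcN1 Cut.none Ext.none :=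
  certNX2 (fam := false) (s1 := true) (s2 := false) (a := 0) (b := 1) (c := 2) (cn := .pnp) (n1 := ndN5q0) (n2 := ndN2q2b) (pc := pcN1) (cut := Cut.none) (xt := Ext.none) (P1 := 0) (W1 := 536870912) (P2 := 1239849684) (W2 := 370763052) (P3 := 1046898278) (W3 := 26843546) (N0 := 3)
    rfl (fun _ => rfl) k0_pm_012_b

noncomputable def f_pm_022_a : ℕ → ℕ → ℕ → ℕ → Bool := onCell 0 536870912 0 420477299 1046898278 26843546
    (rowNX 3 0 false true false .pp 0 2 2 (qsf 0 536870912 0 420477299 2) ndN5q0 ndN2q2a pcN2 Cut.none Ext.none)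

def k0_pm_022_a : ∃ t, chk3 f_pm_022_a t 1 1 1 = true :=
  ⟨(a (b (a (a (a (b (b (a (a (c (l 15945168) (c (l 15913608) (l 15641960))) (b (c (l 15535800) (l 15692976)) (l 4))) (c (l 15493656) (l 15413560))) (l 4)) (l 4)) (l 4)) (l 4)) (l 4)) (l 4)) (l 1)), by decide +kernel⟩

theorem c_pm_022_a : CertNX 0 536870912 0 420477299 1046898278 26843546 3 false true false .pp 0 2 2
    ndN5q0 ndN2q2a pcN2 Cut.none Ext.none :=
  certNX0 (fam := false) (s1 := true) (s2 := false) (a := 0) (b := 2) (c := 2) (cn := .pp) (n1 := ndN5q0) (n2 := ndN2q2a) (pc := pcN2) (cut := Cut.none) (xt := Ext.none) (P1 := 0) (W1 := 536870912) (P2 := 0) (W2 := 420477299) (P3 := 1046898278) (W3 := 26843546) (N0 := 3)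
    rfl k0_pm_022_a

noncomputable def f_pm_022_b : ℕ → ℕ → ℕ → ℕ → Bool := onCell 0 536870912 1239849684 370763052 1046898278 26843546
    (rowNX 3 0 false true false .pp 0 2 2 (qsf 0 536870912 1239849684 370763052 2) ndN5q0 ndN2q2b pcN2 Cut.none Ext.none)

def k0_pm_022_b : ∃ t, chk3 f_pm_022_b t 1 1 1 = true :=
  ⟨(a (b (a (b (a (a (b (b (a (a (c (l 16082160) (c (a (l 16208320) (l 16118152)) (a (b (l 16086576) (l 16301080)) (l 16109560)))) (b (c (a (l 15930088) (l 15843576)) (l 15655320)) (l 4))) (a (b (l 4) (l 4)) (l 4))) (l 4)) (l 4)) (l 4)) (l 4)) (l 4)) (l 4)) (l 4)) (l 4)), by decide +kernel⟩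

theorem c_pm_022_b : CertNX 0 536870912 1239849684 370763052 1046898278 26843546 3 false true false .pp 0 2 2
    ndN5q0 ndN2q2b pcN2 Cut.none Ext.none :=
  certNX0 (fam := false) (s1 := true) (s2 := false) (a := 0) (b := 2) (c := 2) (cn := .pp) (n1 := ndN5q0) (n2 := ndN2q2b) (pc := pcN2) (cut := Cut.none) (xt := Ext.none) (P1 := 0) (W1 := 536870912) (P2 := 1239849684) (W2 := 370763052) (P3 := 1046898278) (W3 := 26843546) (N0 := 3)
    rfl k0_pm_022_b

noncomputable def f_pm_023 : ℕ → ℕ → ℕ → ℕ → Bool := onCell 0 536870912 1610612736 469762048 1046898278 26843546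
    (rowNX 3 0 false true false .up 0 2 3 (qsf 0 536870912 1610612736 469762048 2) ndN5q0 ndN2q3 pcN2 Cut.none Ext.none)

def k0_pm_023 : ∃ t, chk3 f_pm_023 t 1 1 1 = true :=
  ⟨(l 4), by decide +kernel⟩

theorem c_pm_023 : CertNX 0 536870912 1610612736 469762048 1046898278 26843546 3 false true false .up 0 2 3
    ndN5q0 ndN2q3 pcN2 Cut.none Ext.none :=
  certNX0 (fam := false) (s1 := true) (s2 := false) (a := 0) (b := 2) (c := 3) (cn := .up) (n1 := ndN5q0) (n2 := ndN2q3) (pc := pcN2) (cut := Cut.none) (xt := Ext.none) (P1 := 0) (W1 := 536870912) (P2 := 1610612736) (W2 := 469762048) (P3 := 1046898278) (W3 := 26843546) (N0 := 3)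
    rfl k0_pm_023

noncomputable def f_pm_033 : ℕ → ℕ → ℕ → ℕ → Bool := onCell 0 536870912 1610612736 469762048 1046898278 26843546
    (rowNX 3 0 false true false .pnn 0 3 3 (qsf 0 536870912 1610612736 469762048 3) ndN5q0 ndN2q3 pcN3 Cut.none Ext.none)

def k0_pm_033 : ∃ t, chk3 f_pm_033 t 1 1 1 = true :=
  ⟨(l 4), by decide +kernel⟩

theorem c_pm_033 : CertNX 0 536870912 1610612736 469762048 1046898278 26843546 3 false true false .pnn 0 3 3
    ndN5q0 ndN2q3 pcN3 Cut.none Ext.none :=
  certNX0 (fam := false) (s1 := true) (s2 := false) (a := 0) (b := 3) (c := 3) (cn := .pnn) (n1 := ndN5q0) (n2 := ndN2q3) (pc := pcN3) (cut := Cut.none) (xt := Ext.none) (P1 := 0) (W1 := 536870912) (P2 := 1610612736) (W2 := 469762048) (P3 := 1046898278) (W3 := 26843546) (N0 := 3)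
    rfl k0_pm_033

noncomputable def f_pm_101 : ℕ → ℕ → ℕ → ℕ → Bool := onCell 536870912 469762048 536870912 536870912 1046898278 26843546
    (rowNX 3 0 false true false .npn 1 0 1 (qsf 536870912 469762048 536870912 536870912 0) ndN5q1 ndN2q1 pcN0 Cut.none Ext.none)

def k0_pm_101 : ∃ t, chk3 f_pm_101 t 1 1 1 = true :=
  ⟨(l 4), by decide +kernel⟩

theorem c_pm_101 : CertNX 536870912 469762048 536870912 536870912 1046898278 26843546 3 false true false .npn 1 0 1
    ndN5q1 ndN2q1 pcN0 Cut.none Ext.none :=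
  certNX0 (fam := false) (s1 := true) (s2 := false) (a := 1) (b := 0) (c := 1) (cn := .npn) (n1 := ndN5q1) (n2 := ndN2q1) (pc := pcN0) (cut := Cut.none) (xt := Ext.none) (P1 := 536870912) (W1 := 469762048) (P2 := 536870912) (W2 := 536870912) (P3 := 1046898278) (W3 := 26843546) (N0 := 3)
    rfl k0_pm_101

noncomputable def f_pm_102_a : ℕ → ℕ → ℕ → ℕ → Bool := onCell 536870912 469762048 0 420477299 1046898278 26843546
    (rowNX 3 0 false true false .npp 1 0 2 (qsf 536870912 469762048 0 420477299 0) ndN5q1 ndN2q2a pcN0 Cut.none Ext.none)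

def k0_pm_102_a : ∃ t, chk3 f_pm_102_a t 1 1 1 = true :=
  ⟨(l 4), by decide +kernel⟩

theorem c_pm_102_a : CertNX 536870912 469762048 0 420477299 1046898278 26843546 3 false true false .npp 1 0 2
    ndN5q1 ndN2q2a pcN0 Cut.none Ext.none :=
  certNX0 (fam := false) (s1 := true) (s2 := false) (a := 1) (b := 0) (c := 2) (cn := .npp) (n1 := ndN5q1) (n2 := ndN2q2a) (pc := pcN0) (cut := Cut.none) (xt := Ext.none) (P1 := 536870912) (W1 := 469762048) (P2 := 0) (W2 := 420477299) (P3 := 1046898278) (W3 := 26843546) (N0 := 3)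
    rfl k0_pm_102_a

noncomputable def f_pm_102_b : ℕ → ℕ → ℕ → ℕ → Bool := onCell 536870912 469762048 1239849684 370763052 1046898278 26843546
    (rowNX 3 0 false true false .npp 1 0 2 (qsf 536870912 469762048 1239849684 370763052 0) ndN5q1 ndN2q2b pcN0 Cut.none Ext.none)

def k0_pm_102_b : ∃ t, chk3 f_pm_102_b t 1 1 1 = true :=
  ⟨(l 4), by decide +kernel⟩

theorem c_pm_102_b : CertNX 536870912 469762048 1239849684 370763052 1046898278 26843546 3 false true false .npp 1 0 2
    ndN5q1 ndN2q2b pcN0 Cut.none Ext.none :=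
  certNX0 (fam := false) (s1 := true) (s2 := false) (a := 1) (b := 0) (c := 2) (cn := .npp) (n1 := ndN5q1) (n2 := ndN2q2b) (pc := pcN0) (cut := Cut.none) (xt := Ext.none) (P1 := 536870912) (W1 := 469762048) (P2 := 1239849684) (W2 := 370763052) (P3 := 1046898278) (W3 := 26843546) (N0 := 3)
    rfl k0_pm_102_b

noncomputable def f_pm_112_a : ℕ → ℕ → ℕ → ℕ → Bool := onCell 536870912 469762048 0 420477299 1046898278 26843546
    (rowNX 3 0 false true false .dn 1 1 2 (qsf 536870912 469762048 0 420477299 1) ndN5q1 ndN2q2a pcN1 Cut.none Ext.none)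

def k0_pm_112_a : ∃ t, chk3 f_pm_112_a t 1 1 1 = true :=
  ⟨(l 4), by decide +kernel⟩

theorem c_pm_112_a : CertNX 536870912 469762048 0 420477299 1046898278 26843546 3 false true false .dn 1 1 2
    ndN5q1 ndN2q2a pcN1 Cut.none Ext.none :=
  certNX0 (fam := false) (s1 := true) (s2 := false) (a := 1) (b := 1) (c := 2) (cn := .dn) (n1 := ndN5q1) (n2 := ndN2q2a) (pc := pcN1) (cut := Cut.none) (xt := Ext.none) (P1 := 536870912) (W1 := 469762048) (P2 := 0) (W2 := 420477299) (P3 := 1046898278) (W3 := 26843546) (N0 := 3)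
    rfl k0_pm_112_a

noncomputable def f_pm_112_b : ℕ → ℕ → ℕ → ℕ → Bool := onCell 536870912 469762048 1239849684 370763052 1046898278 26843546
    (rowNX 3 0 false true false .dn 1 1 2 (qsf 536870912 469762048 1239849684 370763052 1) ndN5q1 ndN2q2b pcN1 Cut.none Ext.none)

def k0_pm_112_b : ∃ t, chk3 f_pm_112_b t 1 1 1 = true :=
  ⟨(l 4), by decide +kernel⟩

theorem c_pm_112_b : CertNX 536870912 469762048 1239849684 370763052 1046898278 26843546 3 false true false .dn 1 1 2
    ndN5q1 ndN2q2b pcN1 Cut.none Ext.none :=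
  certNX0 (fam := false) (s1 := true) (s2 := false) (a := 1) (b := 1) (c := 2) (cn := .dn) (n1 := ndN5q1) (n2 := ndN2q2b) (pc := pcN1) (cut := Cut.none) (xt := Ext.none) (P1 := 536870912) (W1 := 469762048) (P2 := 1239849684) (W2 := 370763052) (P3 := 1046898278) (W3 := 26843546) (N0 := 3)
    rfl k0_pm_112_b

noncomputable def f_pm_113 : ℕ → ℕ → ℕ → ℕ → Bool := onCell 536870912 469762048 1610612736 469762048 1046898278 26843546
    (rowNX 3 0 false true false .nn 1 1 3 (qsf 536870912 469762048 1610612736 469762048 1) ndN5q1 ndN2q3 pcN1 Cut.none Ext.none)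

def k0_pm_113 : ∃ t, chk3 f_pm_113 t 1 1 1 = true :=
  ⟨(l 4), by decide +kernel⟩

theorem c_pm_113 : CertNX 536870912 469762048 1610612736 469762048 1046898278 26843546 3 false true false .nn 1 1 3
    ndN5q1 ndN2q3 pcN1 Cut.none Ext.none :=
  certNX0 (fam := false) (s1 := true) (s2 := false) (a := 1) (b := 1) (c := 3) (cn := .nn) (n1 := ndN5q1) (n2 := ndN2q3) (pc := pcN1) (cut := Cut.none) (xt := Ext.none) (P1 := 536870912) (W1 := 469762048) (P2 := 1610612736) (W2 := 469762048) (P3 := 1046898278) (W3 := 26843546) (N0 := 3)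
    rfl k0_pm_113

noncomputable def f_pm_123 : ℕ → ℕ → ℕ → ℕ → Bool := onCell 536870912 469762048 1610612736 469762048 1046898278 26843546
    (rowNX 3 0 false true false .npn 1 2 3 (qsf 536870912 469762048 1610612736 469762048 2) ndN5q1 ndN2q3 pcN2 Cut.none Ext.none)

def k0_pm_123 : ∃ t, chk3 f_pm_123 t 1 1 1 = true :=
  ⟨(l 4), by decide +kernel⟩

theorem c_pm_123 : CertNX 536870912 469762048 1610612736 469762048 1046898278 26843546 3 false true false .npn 1 2 3
    ndN5q1 ndN2q3 pcN2 Cut.none Ext.none :=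
  certNX0 (fam := false) (s1 := true) (s2 := false) (a := 1) (b := 2) (c := 3) (cn := .npn) (n1 := ndN5q1) (n2 := ndN2q3) (pc := pcN2) (cut := Cut.none) (xt := Ext.none) (P1 := 536870912) (W1 := 469762048) (P2 := 1610612736) (W2 := 469762048) (P3 := 1046898278) (W3 := 26843546) (N0 := 3)
    rfl k0_pm_123

noncomputable def f_pm_133 : ℕ → ℕ → ℕ → ℕ → Bool := onCell 536870912 469762048 1610612736 469762048 1046898278 26843546
    (rowNX 3 0 false true false .dn 1 3 3 (qsf 536870912 469762048 1610612736 469762048 3) ndN5q1 ndN2q3 pcN3 Cut.none Ext.none)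

def k0_pm_133 : ∃ t, chk3 f_pm_133 t 1 1 1 = true :=
  ⟨(l 1), by decide +kernel⟩

theorem c_pm_133 : CertNX 536870912 469762048 1610612736 469762048 1046898278 26843546 3 false true false .dn 1 3 3
    ndN5q1 ndN2q3 pcN3 Cut.none Ext.none :=
  certNX0 (fam := false) (s1 := true) (s2 := false) (a := 1) (b := 3) (c := 3) (cn := .dn) (n1 := ndN5q1) (n2 := ndN2q3) (pc := pcN3) (cut := Cut.none) (xt := Ext.none) (P1 := 536870912) (W1 := 469762048) (P2 := 1610612736) (W2 := 469762048) (P3 := 1046898278) (W3 := 26843546) (N0 := 3)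
    rfl k0_pm_133

noncomputable def f_pm_202_a : ℕ → ℕ → ℕ → ℕ → Bool := onCell 0 536870912 0 420477299 1046898278 26843546
    (rowNX 3 2 false true false .pp 2 0 2 (qsf 1073741824 536870912 0 420477299 0) ndN5q2 ndN2q2a pcN0 Cut.none Ext.none)

def k0_pm_202_a : ∃ t, chk3 f_pm_202_a t 8 4 1 = true :=
  ⟨(l 3), by decide +kernel⟩

def k1_pm_202_a : ∃ t, chk3 f_pm_202_a t 8 10 1 = true :=
  ⟨(l 3), by decide +kernel⟩

def k2_pm_202_a : ∃ t, chk3 f_pm_202_a t 16 11 1 = true :=
  ⟨(a (b (l 3) (c (a (a (l 16055096) (c (l 16026312) (l 16018752))) (a (c (l 15996144) (l 15995648)) (c (l 15977472) (l 15979416)))) (c (a (a (a (l 16050608) (b (l 16036296) (l 16032064))) (b (l 16019416) (c (l 16011176) (a (l 16017800) (l 16015504))))) (c (l 15951408) (a (l 16003672) (c (l 15986552) (a (l 15995344) (l 15991184)))))) (a (c (a (a (l 16045200) (b (l 16033856) (c (l 16029680) (l 15968624)))) (c (l 15998536) (l 16021224))) (a (c (a (l 16001080) (l 16032928)) (a (c (l 16042960) (a (l 79086018215)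 (l 16038312))) (c (a (l 16013280) (l 16030608)) (l 16030984)))) (c (a (c (l 16025200) (l 15982712)) (l 15931736)) (l 16015744)))) (c (a (c (l 15942112) (c (a (l 16012528) (l 16000616)) (l 15855032))) (c (c (a (l 15998440) (l 15982280)) (a (l 15990496) (l 15971872))) (l 15975216))) (l 15985408)))))) (c (c (a (b (l 15961816) (b (l 15953456) (l 15950208))) (b (l 178407012103) (l 15899184))) (a (a (l 15929688) (l 171427720887)) (c (b (l 15939664) (l 15929800)) (a (l 15958936) (c (l 15957536) (a (b (l 183238900695) (l 15953616)) (b (l 182701942727) (l 15852072)))))))) (c (a (c (c (l 15975080) (a (l 15982784) (a (l 15984424) (b (l 186460092119) (l 15901448))))) (c (c (a (l 15991360) (a (l 15978480) (l 15889480))) (a (a (l 15997384) (l 15985760)) (a (l 15940080) (l 15944624)))) (a (a (c (l 15992856) (l 15978728)) (l 178406980007)) (l 15947640)))) (c (a (c (a (l 15932544) (b (l 184849448247) (l 15824592))) (a (c (l 15963352) (l 175185744903)) (b (l 185923141351) (l 15856624)))) (c (c (a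 (l 15947504) (b (l 15915064) (l 15904552))) (a (l 173038222599) (l 15911232))) (l 15913896))) (l 15919440))) (l 180017537463)))), by decide +kernel⟩

def k3_pm_202_a : ∃ t, chk3 f_pm_202_a t 34 11 1 = true :=
  ⟨(c (b (b (l 3) (c (a (l 15900160) (c (l 15891448) (a (l 15917648) (c (l 15915528) (l 15889080))))) (a (c (a (l 15934064) (c (l 15934384) (l 15918352))) (a (c (l 15932584) (l 15897592)) (c (l 15879088) (l 15859832)))) (c (a (c (l 15903832) (l 15861176)) (c (l 15843880) (l 15824872))) (l 15830272))))) (c (a (c (l 15892224) (l 15908128)) (c (l 15891600) (b (a (l 15915240) (c (l 15912528) (l 15888096))) (b (a (l 15913928) (c (l 15910648) (l 15887808))) (l 15898000))))) (a (c (a (l 15930576) (c (l 15929296) (a (c (l 15937984) (l 15926992)) (l 15905536)))) (a (c (a (c (l 15947528) (l 15941216)) (l 15920992)) (a (c (l 15917936) (l 15895712)) (c (l 15886984) (l 15878544)))) (c (a (c (l 15900560) (l 15878360)) (c (l 15848880) (l 15861384))) (l 15864184)))) (c (a (b (c (l 15902200)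 (l 15842184)) (b (c (l 15880544) (a (l 15874712) (l 15851648))) (l 15889328))) (c (b (l 15804608) (b (a (l 15858384) (l 15835464)) (l 15850408))) (l 15832280))) (l 15835984))))) (c (b (l 15855240) (l 15847192)) (l 176259309143))), by decide +kernel⟩

def k4_pm_202_a : ∃ t, chk3 f_pm_202_a t 35 11 1 = true :=
  ⟨(c (c (a (c (a (c (l 15904792) (a (l 15895440) (b (l 15906944) (c (l 15907928) (l 15897904))))) (c (b (b (l 15900032) (l 15895272)) (a (l 15901088) (c (l 15898832) (l 15884328)))) (b (l 15860712) (l 15860120)))) (a (c (b (l 15876448) (b (l 15873728) (l 15852512))) (b (b (l 15829728) (l 15827216)) (b (l 15767472) (a (l 15758848) (l 15799472))))) (c (b (b (l 15812160) (l 15811144)) (b (l 15709800) (a (l 15764520) (l 15805360)))) (l 15807800)))) (c (a (c (b (l 15844744) (l 15845616)) (b (b (l 15795160) (l 15795536)) (a (c (l 15821344) (l 15799720)) (c (l 15792304) (l 15783872))))) (c (a (b (l 15789368) (c (l 15806536) (l 15784984))) (b (l 172501128759) (c (a (l 15782176) (l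 15771088)) (l 15769320)))) (l 15777888))) (l 15781928))) (a (l 166595614263) (l 15770944))) (b (l 15765552) (l 15760800))), by decide +kernel⟩

def k5_pm_202_a : ∃ t, chk3 f_pm_202_a t 16 3 4 = true :=
  ⟨(a (b (b (a (b (l 16042144) (l 16063408)) (a (b (a (l 15985768) (l 15974672)) (l 15951080)) (b (l 15964432) (l 15976136)))) (a (a (b (l 16083168) (l 16104160)) (b (l 16086096) (l 16108488))) (a (c (b (l 16060672) (l 16069248)) (b (l 15964648) (a (l 16117464) (c (l 16110032) (l 16101080))))) (b (l 16016552) (c (l 16028160) (l 16049976)))))) (a (b (l 16119744) (l 16526384)) (b (b (a (c (b (l 16137664) (l 16187256)) (l 16079200)) (c (b (l 15992984) (l 16082016)) (l 15989592))) (a (l 16074712) (l 16233696))) (a (a (l 16443912) (b (l 16389504) (l 16496680))) (b (l 16340880) (l 16552736)))))) (a (a (b (b (b (l 15961136) (l 15966080)) (b (l 15979656) (c (l 16001208) (l 15984920)))) (b (b (c (l 15979528) (b (l 15992416) (l 16036024))) (l 16150832)) (b (l 16300064) (l 16470064)))) (b (b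 (b (l 15915424) (l 15966256)) (c (l 15961256) (l 15958552))) (b (c (b (b (l 15959704) (l 15992168)) (b (l 16046544) (l 16116040))) (b (b (l 15949904) (l 15982264)) (l 16080584))) (c (l 16168312) (l 16127688))))) (b (a (b (b (l 15948352) (l 15962992)) (l 15817984)) (b (l 15931144) (l 15938032))) (b (b (c (l 15951152) (l 15960984)) (l 15903568)) (b (l 16103080) (l 16273240)))))), by decide +kernel⟩

def k6_pm_202_a : ∃ t, chk3 f_pm_202_a t 16 3 5 = true :=
  ⟨(a (b (a (a (b (b (l 16058288) (l 16068952)) (l 16074144)) (b (b (a (l 16030568) (l 16007448)) (c (l 16057496) (a (l 16072168) (l 16060256)))) (b (c (l 16092280) (b (a (l 16092152) (l 16023952)) (l 16108416))) (l 16129656)))) (a (c (b (b (l 15986952) (l 16018832)) (b (c (l 15944848) (l 15980536)) (b (a (l 16088480) (l 16073784)) (l 16110464)))) (b (b (l 15992344) (l 16018960)) (b (c (l 16053144) (l 16039344)) (l 16080136)))) (b (b (l 15918088) (c (l 15984840) (l 15986472))) (c (b (l 16004840) (l 16021448)) (a (c (l 16006616)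 (l 15999184)) (l 15987104)))))) (a (b (b (a (l 16180744) (l 16054456)) (l 16118104)) (a (l 16551392) (b (l 16396600) (l 16526832)))) (b (a (b (l 15992648) (l 16181232)) (b (l 15941088) (l 16150552))) (a (b (l 16333472) (l 16443928)) (b (l 16239768) (l 16371056)))))) (b (c (b (a (b (l 15965328) (l 15973032)) (l 15882336)) (a (a (a (l 15915728) (l 15967112)) (l 15964232)) (l 15941912))) (b (a (l 15964664) (a (l 15953296) (c (l 15941568) (a (l 15944480) (l 15891352))))) (a (l 15978560) (b (l 15862296) (l 15966168))))) (b (a (b (a (a (l 16022432) (l 16004680)) (l 15991600)) (l 15984832)) (b (b (l 15967376) (l 15999944)) (l 16086768))) (a (b (l 16052088) (a (c (l 16454392) (l 16473448)) (l 16440504))) (l 16289648))))), by decide +kernel⟩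

def k7_pm_202_a : ∃ t, chk3 f_pm_202_a t 16 6 3 = true :=
  ⟨(a (c (a (a (b (c (l 16068616) (b (l 15914192) (l 16033384))) (l 16130800)) (b (b (c (b (l 16014200) (l 16032960)) (a (b (l 16027408) (l 15919744)) (l 15850128))) (c (a (c (l 16076408) (l 15976456)) (c (l 16057712) (l 16039736))) (a (l 15885960) (l 16028496)))) (c (l 16110688) (l 16037432)))) (b (c (a (a (b (l 16006424) (l 16022264)) (b (l 15994680) (l 16003544))) (l 15980016)) (c (l 15885008) (c (l 15992168) (l 15843480)))) (a (c (a (l 16026704) (l 16021560)) (l 16047592)) (l 16011432)))) (a (a (c (a (b (l 16074664) (l 16146064)) (b (c (l 15999976) (l 15955776)) (l 16132248))) (b (a (c (l 16085296) (l 16086800)) (l 16000800)) (a (c (l 16149568) (l 16130144)) (l 16129664)))) (c (b (a (l 16021512) (l 16022992)) (l 16096880)) (b (a (l 16049328) (l 16027328)) (l 16106504)))) (b (c (a (c (l 15999152) (a (l 16014480) (l 15973112))) (b (c (a (l 15927072) (l 15939120)) (l 15977400)) (l 15989016))) (l 15984464)) (l 16055000))))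 (c (a (c (b (b (c (l 15968096) (a (l 15973336) (l 15964160))) (l 15972328)) (l 15989128)) (b (a (c (l 15972000) (b (a (l 15889552) (l 15959632)) (l 15977424))) (c (a (c (l 15964232) (l 15955280)) (l 15884808)) (l 15945776))) (l 15995808))) (c (b (a (a (c (l 15960104) (c (l 15954024) (l 15944136))) (c (l 15943488) (l 15863520))) (a (c (a (l 15849896) (l 15861104)) (l 15916704)) (b (l 15905096) (l 15806920)))) (a (c (l 15953304) (l 15846280)) (a (b (l 15915112) (l 15966232)) (l 15935224)))) (b (l 15925768) (l 15938440)))) (b (b (l 15931800) (a (l 15961816) (l 15907744))) (a (l 15992896) (l 15927880))))), by decide +kernel⟩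

def k8_pm_202_a : ∃ t, chk3 f_pm_202_a t 16 7 3 = true :=
  ⟨(a (a (b (c (a (b (l 16200504) (l 16329752)) (b (c (l 16115840) (l 16022152)) (a (l 16252168) (l 16187920)))) (a (a (c (l 16197512) (b (c (l 16219976) (l 16116776)) (c (l 16351424) (l 16353536)))) (c (b (l 16159896) (l 16290208)) (b (l 16199616) (l 16330936)))) (c (b (l 16165856) (l 16295720)) (l 16177600)))) (c (a (l 16387168) (c (a (l 16439728) (l 16539312)) (a (l 16496328) (l 16459544)))) (a (c (a (l 16584680) (b (l 16489848) (l 16546808))) (a (c (l 16411488) (b (l 16450200) (l 16454808))) (l 16350600))) (c (l 16291760) (l 16555504))))) (b (a (c (b (c (l 16111488) (l 16115528)) (l 16140080)) (l 16013984)) (c (l 15975248) (l 16088680))) (c (a (c (l 16251624) (l 16363104)) (l 16324056)) (l 16267008)))) (b (c (b (a (l 16050392) (b (l 15886928) (l 16029736))) (l 16108456)) (l 15969048)) (c (b (l 16176280) (a (l 16502744) (l 16453408))) (b (l 16312344) (l 16487912))))), by decide +kernel⟩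

def k9_pm_202_a : ∃ t, chk3 f_pm_202_a t 17 12 1 = true :=
  ⟨(c (a (a (c (b (l 15908000) (c (l 15911248) (l 15915992))) (c (a (l 15931872) (c (l 15927808) (b (l 15912608) (a (l 15920416) (l 15905184))))) (b (a (c (l 15925216) (l 15902584)) (l 15881264)) (a (b (c (l 15923872) (l 15906992)) (l 15917720)) (c (a (l 15899456) (l 15883952)) (l 15882928)))))) (c (c (l 15867616) (a (b (l 15910816) (l 15909456)) (c (l 15847624) (b (l 15886840) (l 15888096))))) (c (a (c (b (l 15899816) (l 15900232)) (b (l 15870280) (l 15732056))) (b (l 15849384) (c (l 15863872) (l 15852704)))) (l 15873024)))) (c (a (c (a (c (l 15892472) (l 15894928)) (c (l 15885808) (l 15861120))) (a (c (l 15874000) (b (l 15839384) (l 15848080))) (b (l 15819072) (l 15829232)))) (c (a (c (l 15848056) (l 15709816)) (c (a (l 15808584) (l 15789760)) (l 15786936))) (l 15790048))) (a (l 15815976) (l 15778840)))) (a (c (a (l 15890592) (l 15863048)) (l 15842568)) (b (l 15769136) (l 15780720)))), by decide +kernel⟩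

def k10_pm_202_a : ∃ t, chk3 f_pm_202_a t 17 13 1 = true :=
  ⟨(c (a (a (c (l 15931064) (c (b (l 15925552) (l 15921160)) (a (c (l 15933088) (l 15843424)) (b (l 15898000) (l 15912040))))) (c (a (b (l 15903680) (l 15912360)) (b (c (l 15896680) (c (l 15899648) (l 15888432))) (l 15897904))) (a (c (b (l 15895400) (l 15820040)) (l 15909768)) (b (a (l 15868936) (b (l 15854248) (l 15861680))) (l 15877632))))) (c (c (a (b (a (b (l 15890904) (l 15891152)) (c (l 15841248) (l 15866200))) (l 15882968)) (b (a (c (l 15855608) (a (l 15838472) (l 15824072))) (c (a (l 15826472) (l 15811192)) (l 15809616))) (a (l 15857048) (l 15829152)))) (a (b (a (c (l 15876968) (b (l 15855448) (l 15861336))) (c (a (l 15850376) (l 15836208)) (l 15834528))) (l 15806528)) (l 15816216))) (b (l 15816480) (l 15832336)))) (a (a (c (c (l 15913952) (l 15910624)) (l 15896896)) (b (l 15848688) (l 15876128))) (b (l 15794336) (l 15810088)))), by decide +kernel⟩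

def k11_pm_202_a : ∃ t, chk3 f_pm_202_a t 17 7 1 = true :=
  ⟨(c (a (b (c (b (b (a (l 15932336) (c (l 15911432) (l 15865312))) (l 15958808)) (a (l 16042800) (l 16026920))) (a (b (c (l 15957784) (b (l 15938248) (l 15980992))) (c (l 16057848) (l 16003376))) (c (b (b (a (a (l 15918504) (l 15908056)) (l 15894352)) (l 15944968)) (l 15881656)) (b (l 15916080) (l 16041664))))) (c (b (a (l 16161856) (l 16070744)) (a (l 16330192) (l 16191624))) (b (a (c (l 16192312) (l 16227072)) (c (l 15936160) (l 16166256))) (l 16215384)))) (b (b (a (c (c (b (l 15887392) (l 15920472)) (a (c (l 15907056) (l 15902336)) (l 15887968))) (b (l 15867016) (l 15904704))) (c (c (a (l 15756304) (l 15818792)) (l 15859544)) (l 15848512))) (c (a (a (l 16011176) (c (l 15996184) (l 15992648))) (c (a (c (l 15984312) (l 15980968)) (l 15905864)) (l 15969368))) (a (l 15989160) (l 15970448)))) (c (a (b (l 16077392) (c (l 16288544) (l 16217688))) (a (b (l 16116192) (l 16278720)) (b (a (l 16103784) (l 16093488)) (l 16258032))))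 (a (b (l 16143360) (l 16265848)) (b (l 16031184) (l 16257712)))))) (b (a (b (c (a (l 15959136) (l 15867200)) (l 15854264)) (c (l 16048968) (l 16038792))) (b (a (c (l 15878232) (l 15861712)) (l 15826184)) (a (l 15969160) (l 15944568)))) (a (a (l 16230040) (l 16081296)) (b (a (l 16108976) (l 16069120)) (a (l 16292520) (l 16229872)))))), by decide +kernel⟩

def k12_pm_202_a : ∃ t, chk3 f_pm_202_a t 9 2 1 = true :=
  ⟨(b (l 3) (b (b (l 3) (a (b (l 3) (a (a (l 3) (l 205250243655)) (c (l 15811376) (l 15781808)))) (a (c (a (l 190218197671) (l 15969168)) (a (l 15881368) (l 15944312))) (c (a (l 16024352) (l 16043336)) (a (l 16001080) (l 16020336)))))) (a (a (c (c (a (b (l 15742320) (b (l 15774840) (l 15799688))) (b (l 15758280) (l 15810720))) (b (a (l 15726904) (l 15742832)) (a (l 15775008) (l 15838744)))) (b (a (l 15703176) (l 15719200)) (a (l 15752288) (l 15796456)))) (b (c (c (l 15868848) (l 15855056)) (l 15833976)) (c (c (l 15947000) (l 15955824)) (l 15895288)))) (a (c (a (c (l 16025792)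 (l 16014456)) (l 15991352)) (a (l 15976144) (l 16032104))) (c (a (b (l 16051072) (l 16082952)) (l 16062728)) (a (l 16044576) (l 16040048))))))), by decide +kernel⟩

def k13_pm_202_a : ∃ t, chk3 f_pm_202_a t 18 3 1 = true :=
  ⟨(b (a (c (b (a (b (l 15822792) (l 15865960)) (b (l 15932744) (l 16027208))) (a (b (a (l 15852560) (l 15967152)) (b (c (l 15942648) (l 15929552)) (l 15938552))) (b (l 16081808) (c (a (l 16144056) (l 16274848)) (l 16009072))))) (b (a (l 15815376) (l 15913736)) (a (b (l 15884720) (l 15802664)) (b (l 16104200) (a (l 16119744) (l 16256288)))))) (b (c (b (a (l 16032392) (b (l 16078256) (l 16166808))) (a (l 16147904) (l 16232920))) (b (a (l 16010136) (l 16099544)) (l 16071648))) (c (a (b (l 16223840) (a (l 16225656) (c (l 16502584) (l 16499248)))) (b (c (l 16440424) (l 16468144)) (l 16436816))) (a (b (l 16294512) (a (l 16382888) (l 16494136))) (b (l 16441432) (l 16624016)))))) (a (b (a (c (b (l 15782616) (l 16035824)) (b (l 15923328) (l 16011104))) (c (b (l 16183656)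 (l 16251376)) (b (l 16186888) (l 16234776)))) (c (a (c (b (l 16158432) (l 16308944)) (b (l 16154744) (l 16274680))) (b (a (l 16288232) (l 16377192)) (l 378526380487))) (a (b (l 16072120) (l 16222304)) (b (l 16314680) (l 16346248))))) (b (b (c (a (a (l 16418600) (b (l 16463112) (l 16563912))) (b (c (l 16418048) (l 16499824)) (a (l 16646920) (l 16442328)))) (a (b (l 16357168) (l 16481616)) (b (l 16433664) (l 16511120)))) (c (a (l 16509280) (l 16585560)) (a (l 16501752) (l 16602296)))) (a (b (c (l 16551536) (l 16544896)) (l 1)) (l 1))))), by decide +kernel⟩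

def k14_pm_202_a : ∃ t, chk3 f_pm_202_a t 19 3 1 = true :=
  ⟨(b (a (a (c (b (b (b (c (l 16158184) (l 16149064)) (l 16257344)) (c (l 16347528) (l 16384688))) (b (c (l 16485912) (l 16547528)) (c (l 16403520) (l 16463264)))) (b (b (b (l 16135088) (l 16242408)) (l 16356376)) (b (l 16503584) (l 16437416)))) (b (b (c (l 16136456) (l 16182000)) (l 16395880)) (l 16500448))) (b (b (b (b (c (l 16096376) (l 16074800)) (l 16118768)) (l 16182800)) (l 16311672)) (l 16321136))) (a (b (a (b (c (b (c (l 16361888) (l 16398072)) (a (c (l 16372168) (l 16365736)) (c (l 16200072) (l 16254400)))) (b (l 16368280) (a (l 16355880) (l 16241256)))) (c (l 16175688) (l 16307168))) (b (l 16211504) (l 1))) (l 1)) (l 1))), by decide +kernel⟩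

def k15_pm_202_a : ∃ t, chk3 f_pm_202_a t 5 1 1 = true :=
  ⟨(a (b (b (a (l 3) (l 1)) (a (b (a (c (b (l 16057768) (l 16047384)) (l 198808440983)) (c (l 196124151271) (l 197197830167))) (c (a (l 16046168) (l 16027168)) (a (l 16022304) (l 16001928)))) (l 1))) (b (a (a (b (b (b (c (l 16058232) (l 16034472)) (l 16109640)) (l 16217024)) (l 1)) (l 1)) (l 1)) (l 1))) (l 1)), by decide +kernel⟩

def k16_pm_202_a : ∃ t, chk3 f_pm_202_a t 3 1 1 = true :=
  ⟨(l 1), by decide +kernel⟩

theorem s17_pm_202_a : ∃ t, chk3 f_pm_202_a t 9 3 1 = true := ex3_a k13_pm_202_a k14_pm_202_a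

theorem s18_pm_202_a : ∃ t, chk3 f_pm_202_a t 9 1 1 = true := ex3_b k12_pm_202_a s17_pm_202_a

theorem s19_pm_202_a : ∃ t, chk3 f_pm_202_a t 17 6 1 = true := ex3_b k9_pm_202_a k10_pm_202_a

theorem s20_pm_202_a : ∃ t, chk3 f_pm_202_a t 17 3 1 = true := ex3_b s19_pm_202_a k11_pm_202_a

theorem s21_pm_202_a : ∃ t, chk3 f_pm_202_a t 16 3 3 = true := ex3_b k7_pm_202_a k8_pm_202_a

theorem s22_pm_202_a : ∃ t, chk3 f_pm_202_a t 16 3 2 = true := ex3_c k5_pm_202_a k6_pm_202_a

theorem s23_pm_202_a : ∃ t, chk3 f_pm_202_a t 16 3 1 = true := ex3_c s22_pm_202_a s21_pm_202_a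

theorem s24_pm_202_a : ∃ t, chk3 f_pm_202_a t 8 3 1 = true := ex3_a s23_pm_202_a s20_pm_202_a

theorem s25_pm_202_a : ∃ t, chk3 f_pm_202_a t 17 11 1 = true := ex3_a k3_pm_202_a k4_pm_202_a

theorem s26_pm_202_a : ∃ t, chk3 f_pm_202_a t 8 11 1 = true := ex3_a k2_pm_202_a s25_pm_202_a

theorem s27_pm_202_a : ∃ t, chk3 f_pm_202_a t 8 5 1 = true := ex3_b k1_pm_202_a s26_pm_202_a

theorem s28_pm_202_a : ∃ t, chk3 f_pm_202_a t 8 2 1 = true := ex3_b k0_pm_202_a s27_pm_202_a

theorem s29_pm_202_a : ∃ t, chk3 f_pm_202_a t 8 1 1 = true := ex3_b s28_pm_202_a s24_pm_202_a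

theorem s30_pm_202_a : ∃ t, chk3 f_pm_202_a t 4 1 1 = true := ex3_a s29_pm_202_a s18_pm_202_a

theorem s31_pm_202_a : ∃ t, chk3 f_pm_202_a t 2 1 1 = true := ex3_a s30_pm_202_a k15_pm_202_a

theorem s32_pm_202_a : ∃ t, chk3 f_pm_202_a t 1 1 1 = true := ex3_a s31_pm_202_a k16_pm_202_a

theorem c_pm_202_a : CertNX 1073741824 536870912 0 420477299 1046898278 26843546 3 false true false .pp 2 0 2
    ndN5q2 ndN2q2a pcN0 Cut.none Ext.none :=
  certNX2 (fam := false) (s1 := true) (s2 := false) (a := 2) (b := 0) (c := 2) (cn := .pp) (n1 := ndN5q2) (n2 := ndN2q2a) (pc := pcN0) (cut := Cut.none) (xt := Ext.none) (P1 := 1073741824) (W1 := 536870912) (P2 := 0) (W2 := 420477299) (P3 := 1046898278) (W3 := 26843546) (N0 := 3)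
    rfl (fun _ => rfl) s32_pm_202_a

noncomputable def f_pm_202_b : ℕ → ℕ → ℕ → ℕ → Bool := onCell 1073741824 536870912 1239849684 370763052 1046898278 26843546
    (rowNX 3 0 false true false .pp 2 0 2 (qsf 1073741824 536870912 1239849684 370763052 0) ndN5q2 ndN2q2b pcN0 Cut.none Ext.none)

def k0_pm_202_b : ∃ t, chk3 f_pm_202_b t 1 1 1 = true :=
  ⟨(a (b (l 3) (a (l 3) (l 3))) (l 3)), by decide +kernel⟩

theorem c_pm_202_b : CertNX 1073741824 536870912 1239849684 370763052 1046898278 26843546 3 false true false .pp 2 0 2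
    ndN5q2 ndN2q2b pcN0 Cut.none Ext.none :=
  certNX0 (fam := false) (s1 := true) (s2 := false) (a := 2) (b := 0) (c := 2) (cn := .pp) (n1 := ndN5q2) (n2 := ndN2q2b) (pc := pcN0) (cut := Cut.none) (xt := Ext.none) (P1 := 1073741824) (W1 := 536870912) (P2 := 1239849684) (W2 := 370763052) (P3 := 1046898278) (W3 := 26843546) (N0 := 3)
    rfl k0_pm_202_b

noncomputable def f_pm_203 : ℕ → ℕ → ℕ → ℕ → Bool := onCell 1073741824 536870912 0 536870912 1046898278 26843546
    (rowNX 3 1 false true false .up 2 0 3 (qsf 1073741824 536870912 1610612736 469762048 0) ndN5q2 ndN2q3 pcN0 Cut.none Ext.none)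

def k0_pm_203 : ∃ t, chk3 f_pm_203 t 1 1 1 = true :=
  ⟨(a (b (l 3) (a (l 3) (l 3))) (l 3)), by decide +kernel⟩

theorem c_pm_203 : CertNX 1073741824 536870912 1610612736 469762048 1046898278 26843546 3 false true false .up 2 0 3
    ndN5q2 ndN2q3 pcN0 Cut.none Ext.none :=
  certNX1 (fam := false) (s1 := true) (s2 := false) (a := 2) (b := 0) (c := 3) (cn := .up) (n1 := ndN5q2) (n2 := ndN2q3) (pc := pcN0) (cut := Cut.none) (xt := Ext.none) (P1 := 1073741824) (W1 := 536870912) (P2 := 1610612736) (W2 := 469762048) (P3 := 1046898278) (W3 := 26843546) (N0 := 3)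
    rfl (fun _ => rfl) k0_pm_203

noncomputable def f_pm_213 : ℕ → ℕ → ℕ → ℕ → Bool := onCell 1073741824 536870912 1610612736 469762048 1046898278 26843546
    (rowNX 3 0 false true false .pnn 2 1 3 (qsf 1073741824 536870912 1610612736 469762048 1) ndN5q2 ndN2q3 pcN1 Cut.none Ext.none)

def k0_pm_213 : ∃ t, chk3 f_pm_213 t 1 1 1 = true :=
  ⟨(a (a (a (a (b (b (b (l 3) (a (l 15839472) (l 15625600))) (b (a (l 15839472) (l 15625600)) (l 15731520))) (b (b (l 15731520) (l 15725632)) (b (b (l 15708936) (a (l 15756312) (l 15598536))) (b (a (l 15619800) (l 15546616)) (l 15544088))))) (b (b (l 3) (b (l 458652220439) (l 15321160))) (b (b (l 15321160) (l 15320832)) (b (l 15315992) (b (a (l 15402000) (l 15223256)) (a (l 15420544) (l 15261616))))))) (b (l 3) (a (b (a (l 257325248327) (l 14857832)) (b (l 14945648) (b (l 14949968) (l 14987624)))) (b (l 3) (b (l 3) (l 14632088)))))) (b (l 3) (l 3))) (l 3)), by decide +kernel⟩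

theorem c_pm_213 : CertNX 1073741824 536870912 1610612736 469762048 1046898278 26843546 3 false true false .pnn 2 1 3
    ndN5q2 ndN2q3 pcN1 Cut.none Ext.none :=
  certNX0 (fam := false) (s1 := true) (s2 := false) (a := 2) (b := 1) (c := 3) (cn := .pnn) (n1 := ndN5q2) (n2 := ndN2q3) (pc := pcN1) (cut := Cut.none) (xt := Ext.none) (P1 := 1073741824) (W1 := 536870912) (P2 := 1610612736) (W2 := 469762048) (P3 := 1046898278) (W3 := 26843546) (N0 := 3)
    rfl k0_pm_213

noncomputable def f_pm_303 : ℕ → ℕ → ℕ → ℕ → Bool := onCell 0 1230186008 1610612736 469762048 1046898278 26843546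
    (rowNX 3 0 false true false .npn 3 0 3 (qsf 0 1230186008 1610612736 469762048 0) ndN5q3 ndN2q3 pcN0 Cut.none Ext.none)

def k0_pm_303 : ∃ t, chk3 f_pm_303 t 1 1 1 = true :=
  ⟨(a (l 3) (l 3)), by decide +kernel⟩

theorem c_pm_303 : CertNX 0 1230186008 1610612736 469762048 1046898278 26843546 3 false true false .npn 3 0 3
    ndN5q3 ndN2q3 pcN0 Cut.none Ext.none :=
  certNX0 (fam := false) (s1 := true) (s2 := false) (a := 3) (b := 0) (c := 3) (cn := .npn) (n1 := ndN5q3) (n2 := ndN2q3) (pc := pcN0) (cut := Cut.none) (xt := Ext.none) (P1 := 0) (W1 := 1230186008) (P2 := 1610612736) (W2 := 469762048) (P3 := 1046898278) (W3 := 26843546) (N0 := 3)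
    rfl k0_pm_303

noncomputable def f_pm_313 : ℕ → ℕ → ℕ → ℕ → Bool := onCell 0 1230186008 1610612736 469762048 1046898278 26843546
    (rowNX 3 0 false true false .dn 3 1 3 (qsf 0 1230186008 1610612736 469762048 1) ndN5q3 ndN2q3 pcN1 Cut.none Ext.none)

def k0_pm_313 : ∃ t, chk3 f_pm_313 t 1 1 1 = true :=
  ⟨(l 1), by decide +kernel⟩

theorem c_pm_313 : CertNX 0 1230186008 1610612736 469762048 1046898278 26843546 3 false true false .dn 3 1 3
    ndN5q3 ndN2q3 pcN1 Cut.none Ext.none :=
  certNX0 (fam := false) (s1 := true) (s2 := false) (a := 3) (b := 1) (c := 3) (cn := .dn) (n1 := ndN5q3) (n2 := ndN2q3) (pc := pcN1) (cut := Cut.none) (xt := Ext.none) (P1 := 0) (W1 := 1230186008) (P2 := 1610612736) (W2 := 469762048) (P3 := 1046898278) (W3 := 26843546) (N0 := 3)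
    rfl k0_pm_313

noncomputable def f_mm_001 : ℕ → ℕ → ℕ → ℕ → Bool := onCell 0 536870912 536870912 536870912 1046898278 26843546
    (rowNX 3 0 false false false .up 0 0 1 (qsf 0 536870912 536870912 536870912 0) ndN5q0 ndN2q1 pcN0 Cut.none Ext.none)

def k0_mm_001 : ∃ t, chk3 f_mm_001 t 1 1 1 = true :=
  ⟨(l 3), by decide +kernel⟩

theorem c_mm_001 : CertNX 0 536870912 536870912 536870912 1046898278 26843546 3 false false false .up 0 0 1
    ndN5q0 ndN2q1 pcN0 Cut.none Ext.none :=
  certNX0 (fam := false) (s1 := false) (s2 := false) (a := 0) (b := 0) (c := 1) (cn := .up) (n1 := ndN5q0) (n2 := ndN2q1) (pc := pcN0) (cut := Cut.none) (xt := Ext.none) (P1 := 0) (W1 := 536870912) (P2 := 536870912) (W2 := 536870912) (P3 := 1046898278) (W3 := 26843546) (N0 := 3)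
    rfl k0_mm_001

noncomputable def f_mm_011 : ℕ → ℕ → ℕ → ℕ → Bool := onCell 0 536870912 536870912 536870912 1046898278 26843546
    (rowNX 3 0 false false false .pnn 0 1 1 (qsf 0 536870912 536870912 536870912 1) ndN5q0 ndN2q1 pcN1 Cut.none Ext.none)

def k0_mm_011 : ∃ t, chk3 f_mm_011 t 1 1 1 = true :=
  ⟨(l 3), by decide +kernel⟩

theorem c_mm_011 : CertNX 0 536870912 536870912 536870912 1046898278 26843546 3 false false false .pnn 0 1 1
    ndN5q0 ndN2q1 pcN1 Cut.none Ext.none :=
  certNX0 (fam := false) (s1 := false) (s2 := false) (a := 0) (b := 1) (c := 1) (cn := .pnn) (n1 := ndN5q0) (n2 := ndN2q1) (pc := pcN1) (cut := Cut.none) (xt := Ext.none) (P1 := 0) (W1 := 536870912) (P2 := 536870912) (W2 := 536870912) (P3 := 1046898278) (W3 := 26843546) (N0 := 3)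
    rfl k0_mm_011

noncomputable def f_mm_012_a : ℕ → ℕ → ℕ → ℕ → Bool := onCell 0 536870912 0 420477299 1046898278 26843546
    (rowNX 3 0 false false false .pnp 0 1 2 (qsf 0 536870912 0 420477299 1) ndN5q0 ndN2q2a pcN1 Cut.none Ext.none)

def k0_mm_012_a : ∃ t, chk3 f_mm_012_a t 1 1 1 = true :=
  ⟨(l 5), by decide +kernel⟩

theorem c_mm_012_a : CertNX 0 536870912 0 420477299 1046898278 26843546 3 false false false .pnp 0 1 2
    ndN5q0 ndN2q2a pcN1 Cut.none Ext.none :=
  certNX0 (fam := false) (s1 := false) (s2 := false) (a := 0) (b := 1) (c := 2) (cn := .pnp) (n1 := ndN5q0) (n2 := ndN2q2a) (pc := pcN1) (cut := Cut.none) (xt := Ext.none) (P1 := 0) (W1 := 536870912) (P2 := 0) (W2 := 420477299) (P3 := 1046898278) (W3 := 26843546) (N0 := 3)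
    rfl k0_mm_012_a

noncomputable def f_mm_012_b : ℕ → ℕ → ℕ → ℕ → Bool := onCell 0 536870912 1239849684 370763052 1046898278 26843546
    (rowNX 3 0 false false false .pnp 0 1 2 (qsf 0 536870912 1239849684 370763052 1) ndN5q0 ndN2q2b pcN1 Cut.none Ext.none)

def k0_mm_012_b : ∃ t, chk3 f_mm_012_b t 1 1 1 = true :=
  ⟨(l 5), by decide +kernel⟩

theorem c_mm_012_b : CertNX 0 536870912 1239849684 370763052 1046898278 26843546 3 false false false .pnp 0 1 2
    ndN5q0 ndN2q2b pcN1 Cut.none Ext.none :=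
  certNX0 (fam := false) (s1 := false) (s2 := false) (a := 0) (b := 1) (c := 2) (cn := .pnp) (n1 := ndN5q0) (n2 := ndN2q2b) (pc := pcN1) (cut := Cut.none) (xt := Ext.none) (P1 := 0) (W1 := 536870912) (P2 := 1239849684) (W2 := 370763052) (P3 := 1046898278) (W3 := 26843546) (N0 := 3)
    rfl k0_mm_012_b

noncomputable def f_mm_022_a : ℕ → ℕ → ℕ → ℕ → Bool := onCell 0 536870912 0 420477299 1046898278 26843546
    (rowNX 3 0 false false false .pp 0 2 2 (qsf 0 536870912 0 420477299 2) ndN5q0 ndN2q2a pcN2 Cut.none Ext.none)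

def k0_mm_022_a : ∃ t, chk3 f_mm_022_a t 1 1 1 = true :=
  ⟨(l 5), by decide +kernel⟩

theorem c_mm_022_a : CertNX 0 536870912 0 420477299 1046898278 26843546 3 false false false .pp 0 2 2
    ndN5q0 ndN2q2a pcN2 Cut.none Ext.none :=
  certNX0 (fam := false) (s1 := false) (s2 := false) (a := 0) (b := 2) (c := 2) (cn := .pp) (n1 := ndN5q0) (n2 := ndN2q2a) (pc := pcN2) (cut := Cut.none) (xt := Ext.none) (P1 := 0) (W1 := 536870912) (P2 := 0) (W2 := 420477299) (P3 := 1046898278) (W3 := 26843546) (N0 := 3)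
    rfl k0_mm_022_a

noncomputable def f_mm_022_b : ℕ → ℕ → ℕ → ℕ → Bool := onCell 0 536870912 1239849684 370763052 1046898278 26843546
    (rowNX 3 0 false false false .pp 0 2 2 (qsf 0 536870912 1239849684 370763052 2) ndN5q0 ndN2q2b pcN2 Cut.none Ext.none)

def k0_mm_022_b : ∃ t, chk3 f_mm_022_b t 1 1 1 = true :=
  ⟨(l 5), by decide +kernel⟩

theorem c_mm_022_b : CertNX 0 536870912 1239849684 370763052 1046898278 26843546 3 false false false .pp 0 2 2
    ndN5q0 ndN2q2b pcN2 Cut.none Ext.none :=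
  certNX0 (fam := false) (s1 := false) (s2 := false) (a := 0) (b := 2) (c := 2) (cn := .pp) (n1 := ndN5q0) (n2 := ndN2q2b) (pc := pcN2) (cut := Cut.none) (xt := Ext.none) (P1 := 0) (W1 := 536870912) (P2 := 1239849684) (W2 := 370763052) (P3 := 1046898278) (W3 := 26843546) (N0 := 3)
    rfl k0_mm_022_b

noncomputable def f_mm_023 : ℕ → ℕ → ℕ → ℕ → Bool := onCell 0 536870912 1610612736 469762048 1046898278 26843546
    (rowNX 3 0 false false false .up 0 2 3 (qsf 0 536870912 1610612736 469762048 2) ndN5q0 ndN2q3 pcN2 Cut.none Ext.none)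

def k0_mm_023 : ∃ t, chk3 f_mm_023 t 1 1 1 = true :=
  ⟨(l 5), by decide +kernel⟩

theorem c_mm_023 : CertNX 0 536870912 1610612736 469762048 1046898278 26843546 3 false false false .up 0 2 3
    ndN5q0 ndN2q3 pcN2 Cut.none Ext.none :=
  certNX0 (fam := false) (s1 := false) (s2 := false) (a := 0) (b := 2) (c := 3) (cn := .up) (n1 := ndN5q0) (n2 := ndN2q3) (pc := pcN2) (cut := Cut.none) (xt := Ext.none) (P1 := 0) (W1 := 536870912) (P2 := 1610612736) (W2 := 469762048) (P3 := 1046898278) (W3 := 26843546) (N0 := 3)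
    rfl k0_mm_023

noncomputable def f_mm_033 : ℕ → ℕ → ℕ → ℕ → Bool := onCell 0 536870912 1610612736 469762048 1046898278 26843546
    (rowNX 3 0 false false false .pnn 0 3 3 (qsf 0 536870912 1610612736 469762048 3) ndN5q0 ndN2q3 pcN3 Cut.none Ext.none)

def k0_mm_033 : ∃ t, chk3 f_mm_033 t 1 1 1 = true :=
  ⟨(l 5), by decide +kernel⟩

theorem c_mm_033 : CertNX 0 536870912 1610612736 469762048 1046898278 26843546 3 false false false .pnn 0 3 3
    ndN5q0 ndN2q3 pcN3 Cut.none Ext.none :=
  certNX0 (fam := false) (s1 := false) (s2 := false) (a := 0) (b := 3) (c := 3) (cn := .pnn) (n1 := ndN5q0) (n2 := ndN2q3) (pc := pcN3) (cut := Cut.none) (xt := Ext.none) (P1 := 0) (W1 := 536870912) (P2 := 1610612736) (W2 := 469762048) (P3 := 1046898278) (W3 := 26843546) (N0 := 3)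
    rfl k0_mm_033

noncomputable def f_mm_101 : ℕ → ℕ → ℕ → ℕ → Bool := onCell 536870912 469762048 536870912 536870912 1046898278 26843546
    (rowNX 3 0 false false false .npn 1 0 1 (qsf 536870912 469762048 536870912 536870912 0) ndN5q1 ndN2q1 pcN0 Cut.none Ext.none)

def k0_mm_101 : ∃ t, chk3 f_mm_101 t 1 1 1 = true :=
  ⟨(l 3), by decide +kernel⟩

theorem c_mm_101 : CertNX 536870912 469762048 536870912 536870912 1046898278 26843546 3 false false false .npn 1 0 1
    ndN5q1 ndN2q1 pcN0 Cut.none Ext.none :=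
  certNX0 (fam := false) (s1 := false) (s2 := false) (a := 1) (b := 0) (c := 1) (cn := .npn) (n1 := ndN5q1) (n2 := ndN2q1) (pc := pcN0) (cut := Cut.none) (xt := Ext.none) (P1 := 536870912) (W1 := 469762048) (P2 := 536870912) (W2 := 536870912) (P3 := 1046898278) (W3 := 26843546) (N0 := 3)
    rfl k0_mm_101

noncomputable def f_mm_102_a : ℕ → ℕ → ℕ → ℕ → Bool := onCell 536870912 469762048 0 420477299 1046898278 26843546
    (rowNX 3 0 false false false .npp 1 0 2 (qsf 536870912 469762048 0 420477299 0) ndN5q1 ndN2q2a pcN0 Cut.none Ext.none)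

def k0_mm_102_a : ∃ t, chk3 f_mm_102_a t 1 1 1 = true :=
  ⟨(l 5), by decide +kernel⟩

theorem c_mm_102_a : CertNX 536870912 469762048 0 420477299 1046898278 26843546 3 false false false .npp 1 0 2
    ndN5q1 ndN2q2a pcN0 Cut.none Ext.none :=
  certNX0 (fam := false) (s1 := false) (s2 := false) (a := 1) (b := 0) (c := 2) (cn := .npp) (n1 := ndN5q1) (n2 := ndN2q2a) (pc := pcN0) (cut := Cut.none) (xt := Ext.none) (P1 := 536870912) (W1 := 469762048) (P2 := 0) (W2 := 420477299) (P3 := 1046898278) (W3 := 26843546) (N0 := 3)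
    rfl k0_mm_102_a

noncomputable def f_mm_102_b : ℕ → ℕ → ℕ → ℕ → Bool := onCell 536870912 469762048 1239849684 370763052 1046898278 26843546
    (rowNX 3 0 false false false .npp 1 0 2 (qsf 536870912 469762048 1239849684 370763052 0) ndN5q1 ndN2q2b pcN0 Cut.none Ext.none)

def k0_mm_102_b : ∃ t, chk3 f_mm_102_b t 1 1 1 = true :=
  ⟨(l 5), by decide +kernel⟩

theorem c_mm_102_b : CertNX 536870912 469762048 1239849684 370763052 1046898278 26843546 3 false false false .npp 1 0 2
    ndN5q1 ndN2q2b pcN0 Cut.none Ext.none :=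
  certNX0 (fam := false) (s1 := false) (s2 := false) (a := 1) (b := 0) (c := 2) (cn := .npp) (n1 := ndN5q1) (n2 := ndN2q2b) (pc := pcN0) (cut := Cut.none) (xt := Ext.none) (P1 := 536870912) (W1 := 469762048) (P2 := 1239849684) (W2 := 370763052) (P3 := 1046898278) (W3 := 26843546) (N0 := 3)
    rfl k0_mm_102_b

noncomputable def f_mm_112_a : ℕ → ℕ → ℕ → ℕ → Bool := onCell 536870912 469762048 0 420477299 1046898278 26843546
    (rowNX 3 0 false false false .dn 1 1 2 (qsf 536870912 469762048 0 420477299 1) ndN5q1 ndN2q2a pcN1 Cut.none Ext.none)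

def k0_mm_112_a : ∃ t, chk3 f_mm_112_a t 1 1 1 = true :=
  ⟨(l 5), by decide +kernel⟩

theorem c_mm_112_a : CertNX 536870912 469762048 0 420477299 1046898278 26843546 3 false false false .dn 1 1 2
    ndN5q1 ndN2q2a pcN1 Cut.none Ext.none :=
  certNX0 (fam := false) (s1 := false) (s2 := false) (a := 1) (b := 1) (c := 2) (cn := .dn) (n1 := ndN5q1) (n2 := ndN2q2a) (pc := pcN1) (cut := Cut.none) (xt := Ext.none) (P1 := 536870912) (W1 := 469762048) (P2 := 0) (W2 := 420477299) (P3 := 1046898278) (W3 := 26843546) (N0 := 3)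
    rfl k0_mm_112_a

noncomputable def f_mm_112_b : ℕ → ℕ → ℕ → ℕ → Bool := onCell 536870912 469762048 1239849684 370763052 1046898278 26843546
    (rowNX 3 0 false false false .dn 1 1 2 (qsf 536870912 469762048 1239849684 370763052 1) ndN5q1 ndN2q2b pcN1 Cut.none Ext.none)

def k0_mm_112_b : ∃ t, chk3 f_mm_112_b t 1 1 1 = true :=
  ⟨(l 5), by decide +kernel⟩

theorem c_mm_112_b : CertNX 536870912 469762048 1239849684 370763052 1046898278 26843546 3 false false false .dn 1 1 2
    ndN5q1 ndN2q2b pcN1 Cut.none Ext.none :=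
  certNX0 (fam := false) (s1 := false) (s2 := false) (a := 1) (b := 1) (c := 2) (cn := .dn) (n1 := ndN5q1) (n2 := ndN2q2b) (pc := pcN1) (cut := Cut.none) (xt := Ext.none) (P1 := 536870912) (W1 := 469762048) (P2 := 1239849684) (W2 := 370763052) (P3 := 1046898278) (W3 := 26843546) (N0 := 3)
    rfl k0_mm_112_b

noncomputable def f_mm_113 : ℕ → ℕ → ℕ → ℕ → Bool := onCell 536870912 469762048 1610612736 469762048 1046898278 26843546
    (rowNX 3 0 false false false .nn 1 1 3 (qsf 536870912 469762048 1610612736 469762048 1) ndN5q1 ndN2q3 pcN1 Cut.none Ext.none)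

def k0_mm_113 : ∃ t, chk3 f_mm_113 t 1 1 1 = true :=
  ⟨(l 5), by decide +kernel⟩

theorem c_mm_113 : CertNX 536870912 469762048 1610612736 469762048 1046898278 26843546 3 false false false .nn 1 1 3
    ndN5q1 ndN2q3 pcN1 Cut.none Ext.none :=
  certNX0 (fam := false) (s1 := false) (s2 := false) (a := 1) (b := 1) (c := 3) (cn := .nn) (n1 := ndN5q1) (n2 := ndN2q3) (pc := pcN1) (cut := Cut.none) (xt := Ext.none) (P1 := 536870912) (W1 := 469762048) (P2 := 1610612736) (W2 := 469762048) (P3 := 1046898278) (W3 := 26843546) (N0 := 3)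
    rfl k0_mm_113

noncomputable def f_mm_123 : ℕ → ℕ → ℕ → ℕ → Bool := onCell 536870912 469762048 1610612736 469762048 1046898278 26843546
    (rowNX 3 0 false false false .npn 1 2 3 (qsf 536870912 469762048 1610612736 469762048 2) ndN5q1 ndN2q3 pcN2 Cut.none Ext.none)

def k0_mm_123 : ∃ t, chk3 f_mm_123 t 1 1 1 = true :=
  ⟨(l 5), by decide +kernel⟩

theorem c_mm_123 : CertNX 536870912 469762048 1610612736 469762048 1046898278 26843546 3 false false false .npn 1 2 3
    ndN5q1 ndN2q3 pcN2 Cut.none Ext.none :=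
  certNX0 (fam := false) (s1 := false) (s2 := false) (a := 1) (b := 2) (c := 3) (cn := .npn) (n1 := ndN5q1) (n2 := ndN2q3) (pc := pcN2) (cut := Cut.none) (xt := Ext.none) (P1 := 536870912) (W1 := 469762048) (P2 := 1610612736) (W2 := 469762048) (P3 := 1046898278) (W3 := 26843546) (N0 := 3)
    rfl k0_mm_123

noncomputable def f_mm_133 : ℕ → ℕ → ℕ → ℕ → Bool := onCell 536870912 469762048 1610612736 469762048 1046898278 26843546
    (rowNX 3 0 false false false .dn 1 3 3 (qsf 536870912 469762048 1610612736 469762048 3) ndN5q1 ndN2q3 pcN3 Cut.none Ext.none)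

def k0_mm_133 : ∃ t, chk3 f_mm_133 t 1 1 1 = true :=
  ⟨(l 1), by decide +kernel⟩

theorem c_mm_133 : CertNX 536870912 469762048 1610612736 469762048 1046898278 26843546 3 false false false .dn 1 3 3
    ndN5q1 ndN2q3 pcN3 Cut.none Ext.none :=
  certNX0 (fam := false) (s1 := false) (s2 := false) (a := 1) (b := 3) (c := 3) (cn := .dn) (n1 := ndN5q1) (n2 := ndN2q3) (pc := pcN3) (cut := Cut.none) (xt := Ext.none) (P1 := 536870912) (W1 := 469762048) (P2 := 1610612736) (W2 := 469762048) (P3 := 1046898278) (W3 := 26843546) (N0 := 3)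
    rfl k0_mm_133

noncomputable def f_mm_202_a : ℕ → ℕ → ℕ → ℕ → Bool := onCell 1073741824 536870912 0 420477299 1046898278 26843546
    (rowNX 3 0 false false false .pp 2 0 2 (qsf 1073741824 536870912 0 420477299 0) ndN5q2 ndN2q2a pcN0 Cut.none Ext.none)

def k0_mm_202_a : ∃ t, chk3 f_mm_202_a t 1 1 1 = true :=
  ⟨(l 3), by decide +kernel⟩

theorem c_mm_202_a : CertNX 1073741824 536870912 0 420477299 1046898278 26843546 3 false false false .pp 2 0 2
    ndN5q2 ndN2q2a pcN0 Cut.none Ext.none :=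
  certNX0 (fam := false) (s1 := false) (s2 := false) (a := 2) (b := 0) (c := 2) (cn := .pp) (n1 := ndN5q2) (n2 := ndN2q2a) (pc := pcN0) (cut := Cut.none) (xt := Ext.none) (P1 := 1073741824) (W1 := 536870912) (P2 := 0) (W2 := 420477299) (P3 := 1046898278) (W3 := 26843546) (N0 := 3)
    rfl k0_mm_202_a

noncomputable def f_mm_202_b : ℕ → ℕ → ℕ → ℕ → Bool := onCell 1073741824 536870912 1239849684 370763052 1046898278 26843546
    (rowNX 3 0 false false false .pp 2 0 2 (qsf 1073741824 536870912 1239849684 370763052 0) ndN5q2 ndN2q2b pcN0 Cut.none Ext.none)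

def k0_mm_202_b : ∃ t, chk3 f_mm_202_b t 1 1 1 = true :=
  ⟨(l 3), by decide +kernel⟩

theorem c_mm_202_b : CertNX 1073741824 536870912 1239849684 370763052 1046898278 26843546 3 false false false .pp 2 0 2
    ndN5q2 ndN2q2b pcN0 Cut.none Ext.none :=
  certNX0 (fam := false) (s1 := false) (s2 := false) (a := 2) (b := 0) (c := 2) (cn := .pp) (n1 := ndN5q2) (n2 := ndN2q2b) (pc := pcN0) (cut := Cut.none) (xt := Ext.none) (P1 := 1073741824) (W1 := 536870912) (P2 := 1239849684) (W2 := 370763052) (P3 := 1046898278) (W3 := 26843546) (N0 := 3)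
    rfl k0_mm_202_b

noncomputable def f_mm_203 : ℕ → ℕ → ℕ → ℕ → Bool := onCell 1073741824 536870912 1610612736 469762048 1046898278 26843546
    (rowNX 3 0 false false false .up 2 0 3 (qsf 1073741824 536870912 1610612736 469762048 0) ndN5q2 ndN2q3 pcN0 Cut.none Ext.none)

def k0_mm_203 : ∃ t, chk3 f_mm_203 t 1 1 1 = true :=
  ⟨(l 5), by decide +kernel⟩

theorem c_mm_203 : CertNX 1073741824 536870912 1610612736 469762048 1046898278 26843546 3 false false false .up 2 0 3
    ndN5q2 ndN2q3 pcN0 Cut.none Ext.none :=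
  certNX0 (fam := false) (s1 := false) (s2 := false) (a := 2) (b := 0) (c := 3) (cn := .up) (n1 := ndN5q2) (n2 := ndN2q3) (pc := pcN0) (cut := Cut.none) (xt := Ext.none) (P1 := 1073741824) (W1 := 536870912) (P2 := 1610612736) (W2 := 469762048) (P3 := 1046898278) (W3 := 26843546) (N0 := 3)
    rfl k0_mm_203

noncomputable def f_mm_213 : ℕ → ℕ → ℕ → ℕ → Bool := onCell 1073741824 536870912 1610612736 469762048 1046898278 26843546
    (rowNX 3 0 false false false .pnn 2 1 3 (qsf 1073741824 536870912 1610612736 469762048 1) ndN5q2 ndN2q3 pcN1 Cut.none Ext.none)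

def k0_mm_213 : ∃ t, chk3 f_mm_213 t 1 1 1 = true :=
  ⟨(l 5), by decide +kernel⟩

theorem c_mm_213 : CertNX 1073741824 536870912 1610612736 469762048 1046898278 26843546 3 false false false .pnn 2 1 3
    ndN5q2 ndN2q3 pcN1 Cut.none Ext.none :=
  certNX0 (fam := false) (s1 := false) (s2 := false) (a := 2) (b := 1) (c := 3) (cn := .pnn) (n1 := ndN5q2) (n2 := ndN2q3) (pc := pcN1) (cut := Cut.none) (xt := Ext.none) (P1 := 1073741824) (W1 := 536870912) (P2 := 1610612736) (W2 := 469762048) (P3 := 1046898278) (W3 := 26843546) (N0 := 3)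
    rfl k0_mm_213

noncomputable def f_mm_303 : ℕ → ℕ → ℕ → ℕ → Bool := onCell 0 1230186008 1610612736 469762048 1046898278 26843546
    (rowNX 3 0 false false false .npn 3 0 3 (qsf 0 1230186008 1610612736 469762048 0) ndN5q3 ndN2q3 pcN0 Cut.none Ext.none)

def k0_mm_303 : ∃ t, chk3 f_mm_303 t 1 1 1 = true :=
  ⟨(a (l 3) (l 3)), by decide +kernel⟩

theorem c_mm_303 : CertNX 0 1230186008 1610612736 469762048 1046898278 26843546 3 false false false .npn 3 0 3
    ndN5q3 ndN2q3 pcN0 Cut.none Ext.none :=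
  certNX0 (fam := false) (s1 := false) (s2 := false) (a := 3) (b := 0) (c := 3) (cn := .npn) (n1 := ndN5q3) (n2 := ndN2q3) (pc := pcN0) (cut := Cut.none) (xt := Ext.none) (P1 := 0) (W1 := 1230186008) (P2 := 1610612736) (W2 := 469762048) (P3 := 1046898278) (W3 := 26843546) (N0 := 3)
    rfl k0_mm_303

noncomputable def f_mm_313 : ℕ → ℕ → ℕ → ℕ → Bool := onCell 0 1230186008 1610612736 469762048 1046898278 26843546
    (rowNX 3 0 false false false .dn 3 1 3 (qsf 0 1230186008 1610612736 469762048 1) ndN5q3 ndN2q3 pcN1 Cut.none Ext.none)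

def k0_mm_313 : ∃ t, chk3 f_mm_313 t 1 1 1 = true :=
  ⟨(l 1), by decide +kernel⟩

theorem c_mm_313 : CertNX 0 1230186008 1610612736 469762048 1046898278 26843546 3 false false false .dn 3 1 3
    ndN5q3 ndN2q3 pcN1 Cut.none Ext.none :=
  certNX0 (fam := false) (s1 := false) (s2 := false) (a := 3) (b := 1) (c := 3) (cn := .dn) (n1 := ndN5q3) (n2 := ndN2q3) (pc := pcN1) (cut := Cut.none) (xt := Ext.none) (P1 := 0) (W1 := 1230186008) (P2 := 1610612736) (W2 := 469762048) (P3 := 1046898278) (W3 := 26843546) (N0 := 3)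
    rfl k0_mm_313

end Pool.Agent.Strip051.G.IE1.Tab.C.NB52

namespace Pool.Agent.Strip051.G.IE1.Tab.C.NB53

open Pool.Agent.Strip051.PB Pool.Agent.Strip051.PB.T
open Pool.Agent.Strip051.G.IE1.Tab

noncomputable def f_pp_001 : ℕ → ℕ → ℕ → ℕ → Bool := onCell 0 536870912 0 536870912 1046898278 26843546
    (rowNX 3 1 false true true .up 0 0 1 (qsf 0 536870912 536870912 536870912 0) ndN5q0 ndN3q1 pcN0 Cut.none Ext.none)

def k0_pp_001 : ∃ t, chk3 f_pp_001 t 1 1 1 = true :=
  ⟨(l 3), by decide +kernel⟩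

theorem c_pp_001 : CertNX 0 536870912 536870912 536870912 1046898278 26843546 3 false true true .up 0 0 1
    ndN5q0 ndN3q1 pcN0 Cut.none Ext.none :=
  certNX1 (fam := false) (s1 := true) (s2 := true) (a := 0) (b := 0) (c := 1) (cn := .up) (n1 := ndN5q0) (n2 := ndN3q1) (pc := pcN0) (cut := Cut.none) (xt := Ext.none) (P1 := 0) (W1 := 536870912) (P2 := 536870912) (W2 := 536870912) (P3 := 1046898278) (W3 := 26843546) (N0 := 3)
    rfl (fun _ => rfl) k0_pp_001

noncomputable def f_pp_011 : ℕ → ℕ → ℕ → ℕ → Bool := onCell 0 536870912 536870912 536870912 1046898278 26843546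
    (rowNX 3 1 false true true .pnn 0 1 1 (qsf 0 536870912 536870912 536870912 1) ndN5q0 ndN3q1 pcN1 Cut.none Ext.none)

def k0_pp_011 : ∃ t, chk3 f_pp_011 t 1 1 1 = true :=
  ⟨(l 3), by decide +kernel⟩

theorem c_pp_011 : CertNX 0 536870912 536870912 536870912 1046898278 26843546 3 false true true .pnn 0 1 1
    ndN5q0 ndN3q1 pcN1 Cut.none Ext.none :=
  certNX1 (fam := false) (s1 := true) (s2 := true) (a := 0) (b := 1) (c := 1) (cn := .pnn) (n1 := ndN5q0) (n2 := ndN3q1) (pc := pcN1) (cut := Cut.none) (xt := Ext.none) (P1 := 0) (W1 := 536870912) (P2 := 536870912) (W2 := 536870912) (P3 := 1046898278) (W3 := 26843546) (N0 := 3)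
    rfl (fun _ => rfl) k0_pp_011

noncomputable def f_pp_012 : ℕ → ℕ → ℕ → ℕ → Bool := onCell 536870912 536870912 1073741824 536870912 1046898278 26843546
    (rowNX 3 2 false true true .pnp 0 1 2 (qsf 0 536870912 1073741824 536870912 1) ndN5q0 ndN3q2 pcN1 Cut.none Ext.none)

def k0_pp_012 : ∃ t, chk3 f_pp_012 t 2 1 1 = true :=
  ⟨(b (b (a (b (c (b (a (b (l 15507848) (l 15631264)) (b (l 15507848) (l 15631264))) (a (l 15736560) (l 15736560))) (c (b (a (l 15500464) (l 15500464)) (l 15683240)) (a (l 15540832) (l 15561800)))) (b (a (c (l 16166656) (l 16145160)) (c (l 16166656) (l 16145160))) (c (l 94052345495) (a (l 2) (l 16536416))))) (b (c (b (a (l 15416408) (l 15563208)) (a (l 15736560) (l 15736560))) (b (a (l 15457656) (l 15478632)) (l 15673728))) (b (a (l 16134928) (l 16155904)) (a (l 16540528) (l 16540528))))) (a (a (l 2) (a (l 2) (b (l 74187488599) (l 2)))) (b (a (b (l 16296768) (l 16398440)) (b (l 16296768) (l 16398440))) (l 16547616)))) (a (l 2) (l 16777216))), by decide +kernel⟩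

def k1_pp_012 : ∃ t, chk3 f_pp_012 t 6 2 1 = true :=
  ⟨(b (b (a (b (a (c (l 15521232) (l 15478592)) (b (c (l 15448312) (l 15383144)) (c (l 15634568) (l 15531856)))) (c (l 15745304) (l 15683632))) (b (a (c (b (l 15366688) (l 15585520)) (l 15159728)) (b (a (c (l 15291800) (l 15158480)) (c (l 15280912) (l 15134464))) (a (l 15483240) (l 15494640)))) (a (c (l 15765520) (l 15705968)) (a (l 15729240) (l 15763752))))) (a (b (l 16125144) (a (l 16540568) (l 16566856))) (b (a (l 16221152) (a (l 16248928) (l 16138400))) (a (l 16545000) (a (l 16489752) (l 16373288)))))) (b (a (b (b (l 16366184) (l 16257536)) (l 16414248)) (b (l 16221288) (l 16388000))) (a (l 16709368) (b (l 16539200) (l 16605336))))), by decide +kernel⟩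

def k2_pp_012 : ∃ t, chk3 f_pp_012 t 14 4 1 = true :=
  ⟨(b (b (a (b (b (c (l 15260872) (l 15096240)) (c (l 15468256) (l 15326928))) (l 15775664)) (b (a (b (c (l 15266160) (l 15078000)) (c (l 15554288) (l 15409552))) (c (b (l 15243512) (l 15582240)) (b (l 14963864) (l 15388376)))) (a (l 15735168) (c (l 15901488) (l 15812712))))) (a (c (l 15942944) (l 15909256)) (b (a (l 15847552) (l 15788312)) (l 15754776)))) (b (a (l 16069224) (l 15766936)) (b (a (l 16255456) (l 16105056)) (l 15956696)))), by decide +kernel⟩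

def k3_pp_012 : ∃ t, chk3 f_pp_012 t 30 8 1 = true :=
  ⟨(b (a (b (c (b (a (b (a (l 15171304) (l 15210216)) (l 15393800)) (c (l 15480880) (l 15296368))) (a (l 15654592) (b (a (l 15640472) (l 15697936)) (l 15825008)))) (b (a (b (l 14793256) (l 15067808)) (l 14997376)) (a (l 15414976) (b (l 15374440) (l 15595096))))) (c (l 16048904) (l 15956480))) (b (c (a (b (l 15574544) (c (l 15938472) (l 15819792))) (c (b (l 15790344) (l 16087552)) (b (l 15556528) (l 15972976)))) (b (a (l 15094440) (l 15144944)) (l 15702472))) (b (a (c (b (l 16090664) (l 16193928)) (l 16002256)) (c (c (l 16306680) (l 16254952)) (l 16187376))) (a (l 15961112) (c (a (l 16222296) (c (l 16246848) (l 16227984))) (l 16156856)))))) (a (b (l 15774584) (l 15649608)) (a (b (l 15911104) (l 15643328)) (c (b (l 15983992) (l 15727088)) (l 15764152))))), by decide +kernel⟩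

def k4_pp_012 : ∃ t, chk3 f_pp_012 t 62 16 1 = true :=
  ⟨(c (c (a (b (c (a (b (l 16051024) (l 16251512)) (b (l 16221136) (l 16347968))) (b (l 16203896) (a (l 16187552) (l 16283528)))) (c (a (l 16232512) (l 16374000)) (a (l 16314224) (l 16242752)))) (b (b (a (c (l 16407648) (l 16232656)) (b (l 16394808) (l 16428280))) (c (l 16447032) (l 16407464))) (l 16153336))) (a (b (b (l 15755688) (l 16150944)) (l 16269632)) (a (b (c (b (l 16054176) (l 16324104)) (l 16121056)) (c (l 16252328) (l 16251720))) (b (c (b (l 16253456) (l 16393568)) (b (l 16069824) (l 16348688))) (c (l 16302856) (l 16260288)))))) (b (b (c (a (l 15488008) (l 15742920)) (l 15357664)) (c (l 16160688) (l 16078376))) (a (l 16209568) (l 16205328)))), by decide +kernel⟩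

def k5_pp_012 : ∃ t, chk3 f_pp_012 t 63 16 2 = true :=
  ⟨(b (b (a (c (b (a (l 16353384) (l 16271800)) (a (l 16406768) (l 16371736))) (a (c (l 16382872) (b (l 16295360) (l 16326200))) (b (a (l 16348880) (l 16331296)) (l 16379720)))) (b (a (c (l 16342216) (b (l 16317784) (l 16329136))) (l 16361184)) (a (c (l 16355872) (c (l 16362584) (l 16360872))) (c (l 16359272) (b (l 16341128) (l 16350904)))))) (a (c (b (l 16314192) (l 16447200)) (c (l 16406032) (l 16366312))) (c (b (a (l 16394320) (l 16349448)) (a (l 16433352) (l 16397520))) (b (a (l 16391304) (c (l 16371840) (l 16363792))) (l 16319488))))) (a (c (l 16384128) (a (l 16244296) (l 16292840))) (b (c (l 16275832) (l 16347008)) (c (l 16381736) (l 16268048))))), by decide +kernel⟩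

def k6_pp_012 : ∃ t, chk3 f_pp_012 t 63 16 3 = true :=
  ⟨(b (c (a (c (a (b (c (l 16152656) (l 16062864)) (l 16279216)) (b (b (l 16280688) (l 16356080)) (l 16328616))) (a (b (l 15934800) (l 16280184)) (b (c (a (l 16153704) (l 16281936)) (l 16158104)) (l 16223832)))) (b (b (a (c (a (l 16325688) (l 16319328)) (a (l 16326680) (l 16252792))) (b (l 16320944) (a (l 16320072) (l 16323016)))) (a (c (l 16359640) (l 16335104)) (c (b (l 16336488) (l 16345248)) (b (l 16326896) (l 16333880))))) (a (c (l 16336984) (l 16291272)) (b (l 16331856) (l 16313304))))) (a (b (b (l 15470328) (l 16107168)) (l 16249504)) (c (a (b (a (b (l 15998088) (l 16295264)) (b (c (l 16310472) (l 16175736)) (l 16295928))) (c (l 16259992) (l 16249624))) (b (b (a (c (l 16289752) (l 16239536)) (b (l 16304712) (l 16307440))) (l 16258064)) (l 16259080))) (a (l 16261184) (b (a (c (b (a (l 16266048) (l 16293304)) (l 16270584)) (l 16273224)) (c (b (b (l 16295552) (l 16292232)) (l 16272256)) (a (l 16271936) (c (l 16254440) (l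 16270944))))) (a (l 16241320) (l 16241536))))))) (a (c (c (a (l 16209256) (l 16231216)) (a (l 16207920) (l 16209976))) (l 16196152)) (c (a (l 16162160) (l 16230168)) (a (c (l 16135176) (l 16193696)) (c (l 16198280) (a (l 16192336) (l 16193112))))))), by decide +kernel⟩

def k7_pp_012 : ∃ t, chk3 f_pp_012 t 31 17 1 = true :=
  ⟨(a (c (a (b (c (b (a (c (l 16176144) (l 16180000)) (c (l 16258216) (l 16220304))) (a (l 16050120) (l 16102512))) (b (l 16152432) (l 16025992))) (c (c (l 15852240) (l 15832416)) (l 15811056))) (c (b (b (l 16251472) (a (l 16097456) (l 16173496))) (l 15941824)) (b (a (b (l 16183792) (l 15990184)) (c (l 16172728) (b (l 16170784) (l 16122096)))) (a (l 15890528) (l 15921408))))) (b (a (l 16027120) (b (l 16147528) (l 16082528))) (l 15838456))) (c (b (a (c (l 16230088) (l 16018264)) (l 16174104)) (a (b (c (l 16092968) (l 16021176)) (l 15954864)) (b (l 16114232) (l 15992776)))) (a (b (c (a (l 16137088) (c (l 16138408) (l 16133328))) (l 16124792)) (c (a (l 15755624)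 (c (l 16009608) (b (l 16070520) (l 15955760)))) (l 15965344))) (c (b (l 16132832) (b (l 16078472) (l 16011784))) (a (b (l 15975440) (b (l 16065080) (l 15775096))) (c (b (l 16127088) (l 16053240)) (b (l 16079440) (a (l 16045032) (l 16048944))))))))), by decide +kernel⟩

def k8_pp_012 : ∃ t, chk3 f_pp_012 t 15 9 1 = true :=
  ⟨(a (a (b (l 15809296) (l 15904928)) (b (a (l 15763960) (c (l 15763784) (l 15727936))) (l 15846944))) (b (a (c (a (c (b (a (l 15688264) (l 15715424)) (c (l 15850640) (l 15842520))) (l 15765184)) (c (b (l 15778304) (l 15839824)) (a (b (l 15735784) (l 15817768)) (b (l 15786456) (l 15821720))))) (b (l 15702872) (l 15805368))) (c (a (c (l 15878608) (l 15653952)) (l 15960728)) (a (c (a (b (l 15821616) (l 15822336)) (c (l 15867736) (l 15860136))) (l 15832344)) (c (l 15878168) (c (a (l 15858792) (l 15955888)) (b (l 15770136) (l 15694968))))))) (b (l 15906312) (l 15658896)))), by decide +kernel⟩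

def k9_pp_012 : ∃ t, chk3 f_pp_012 t 7 5 1 = true :=
  ⟨(b (a (b (a (l 15945280) (l 15637792)) (l 15829576)) (b (a (l 15427736) (l 15278728)) (l 15015328))) (a (b (l 16005208) (l 16081752)) (b (l 15348688) (l 15399832)))), by decide +kernel⟩

def k10_pp_012 : ∃ t, chk3 f_pp_012 t 3 3 1 = true :=
  ⟨(a (a (l 16752544) (b (l 16580496) (l 16540384))) (a (b (l 16035944) (l 15962816)) (b (l 15325800) (l 15209088)))), by decide +kernel⟩

theorem s11_pp_012 : ∃ t, chk3 f_pp_012 t 63 16 1 = true := ex3_c k5_pp_012 k6_pp_012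

theorem s12_pp_012 : ∃ t, chk3 f_pp_012 t 31 16 1 = true := ex3_a k4_pp_012 s11_pp_012

theorem s13_pp_012 : ∃ t, chk3 f_pp_012 t 31 8 1 = true := ex3_b s12_pp_012 k7_pp_012

theorem s14_pp_012 : ∃ t, chk3 f_pp_012 t 15 8 1 = true := ex3_a k3_pp_012 s13_pp_012

theorem s15_pp_012 : ∃ t, chk3 f_pp_012 t 15 4 1 = true := ex3_b s14_pp_012 k8_pp_012

theorem s16_pp_012 : ∃ t, chk3 f_pp_012 t 7 4 1 = true := ex3_a k2_pp_012 s15_pp_012

theorem s17_pp_012 : ∃ t, chk3 f_pp_012 t 7 2 1 = true := ex3_b s16_pp_012 k9_pp_012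

theorem s18_pp_012 : ∃ t, chk3 f_pp_012 t 3 2 1 = true := ex3_a k1_pp_012 s17_pp_012

theorem s19_pp_012 : ∃ t, chk3 f_pp_012 t 3 1 1 = true := ex3_b s18_pp_012 k10_pp_012

theorem s20_pp_012 : ∃ t, chk3 f_pp_012 t 1 1 1 = true := ex3_a k0_pp_012 s19_pp_012

theorem c_pp_012 : CertNX 0 536870912 1073741824 536870912 1046898278 26843546 3 false true true .pnp 0 1 2
    ndN5q0 ndN3q2 pcN1 Cut.none Ext.none :=
  certNX2 (fam := false) (s1 := true) (s2 := true) (a := 0) (b := 1) (c := 2) (cn := .pnp) (n1 := ndN5q0) (n2 := ndN3q2) (pc := pcN1) (cut := Cut.none) (xt := Ext.none) (P1 := 0) (W1 := 536870912) (P2 := 1073741824) (W2 := 536870912) (P3 := 1046898278) (W3 := 26843546) (N0 := 3)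
    rfl (fun _ => rfl) s20_pp_012

noncomputable def f_pp_022 : ℕ → ℕ → ℕ → ℕ → Bool := onCell 0 536870912 1073741824 536870912 1046898278 26843546
    (rowNX 3 1 false true true .pp 0 2 2 (qsf 0 536870912 1073741824 536870912 2) ndN5q0 ndN3q2 pcN2 Cut.none Ext.none)

def k0_pp_022 : ∃ t, chk3 f_pp_022 t 16 16 1 = true :=
  ⟨(c (a (b (a (b (c (l 16638944) (a (l 16686640) (c (l 16682232) (l 16698408)))) (c (b (l 16631152) (l 16629160)) (c (l 16670608) (l 16638480)))) (c (b (a (l 16659152) (l 16627560)) (a (l 16558504) (l 16648544))) (b (a (l 16648008) (l 16623360)) (c (l 16670648) (l 16693976))))) (a (c (l 16555640) (c (l 16714168) (l 16681040))) (c (a (l 16593136) (l 16688664)) (c (l 16669024) (l 16651200))))) (b (c (b (a (l 16557136) (l 16541240)) (a (l 16475928) (l 16607048))) (b (a (l 16571888) (l 16645584)) (c (l 16663520) (l 16705840)))) (c (a (l 16478464) (l 16555720)) (a (l 16636536) (l 16605360))))) (a (c (b (a (b (a (b (l 16727336) (l 16717576)) (c (b (l 16705648) (l 16706968))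 (b (l 16714328) (l 16724624)))) (a (l 16733400) (c (l 16734992) (l 16729752)))) (a (b (b (l 16680288) (l 16671736)) (l 16727736)) (b (l 16556248) (l 16726824)))) (a (a (l 16611864) (c (l 16632144) (l 16626168))) (c (l 16642288) (l 16621832)))) (b (b (c (a (a (b (a (l 16752952) (l 16746992)) (l 16755320)) (b (l 16731624) (l 16748248))) (l 16612456)) (a (a (a (b (c (l 16767552) (l 16765544)) (l 16742536)) (b (l 16763600) (l 16744456))) (l 16759392)) (l 16751472))) (a (a (c (l 16714280) (a (l 16700728) (l 16702184))) (l 16604928)) (l 16699576))) (a (a (c (l 16626728) (a (l 16621888) (l 16619368))) (l 16619328)) (l 16599032)))) (b (c (b (b (l 16689144) (l 16712736)) (l 16705392)) (b (b (l 16715744) (l 16735632)) (l 16685096))) (c (b (l 16621160) (l 16538920)) (l 16562424))))), by decide +kernel⟩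

def k1_pp_022 : ∃ t, chk3 f_pp_022 t 17 16 1 = true :=
  ⟨(a (c (b (b (c (l 16646728) (l 16532768)) (c (l 16522048) (l 16543144))) (a (b (l 16515240) (l 16558192)) (l 16588896))) (b (a (b (b (l 16566272) (l 16597152)) (l 16652552)) (l 16644048)) (a (b (l 16559968) (l 16503840)) (l 16557256)))) (b (a (b (l 16639208) (l 16420112)) (a (l 16477416) (l 16621248))) (c (l 16653992) (l 16659768)))), by decide +kernel⟩

def k2_pp_022 : ∃ t, chk3 f_pp_022 t 8 17 1 = true :=
  ⟨(a (c (a (b (a (c (l 16607408) (l 16367072)) (c (a (l 16520552) (l 16507504)) (c (l 16507000) (l 16499744)))) (c (a (b (l 16485856) (l 16448096)) (b (a (l 16324184) (l 16406496)) (l 16349224))) (a (b (l 16445352) (l 16356712)) (a (l 16424752) (l 16474688))))) (b (a (c (b (l 16565104) (l 16510360)) (b (l 16529712) (l 16485368))) (c (b (l 16566608) (l 16576848)) (l 16371832))) (c (a (l 16321976) (l 16461320)) (l 16309176)))) (a (a (a (c (b (l 16530072) (l 16403112)) (b (c (l 16496288) (l 16509864)) (c (l 16347656) (a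 (l 16383824) (l 16397584))))) (c (b (l 16504760) (b (l 16413080) (l 16333408))) (b (l 16457112) (b (l 16406144) (l 16368392))))) (b (c (l 16491432) (l 16463776)) (c (b (l 16422672) (l 16454760)) (l 16365280)))) (b (a (b (l 16470904) (l 16343896)) (b (l 16397704) (l 16477704))) (a (l 16480312) (l 16532056))))) (a (b (c (l 16628064) (l 16587496)) (c (l 16510552) (l 16548224))) (b (c (l 16513304) (l 16517312)) (c (l 16477944) (l 16551208))))), by decide +kernel⟩

def k3_pp_022 : ∃ t, chk3 f_pp_022 t 8 9 1 = true :=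
  ⟨(a (b (a (c (a (b (c (l 16540224) (l 16518360)) (c (l 16418224) (l 16437984))) (c (b (l 16409608) (a (l 16468312) (l 16485040))) (b (l 16355352) (a (l 16453416) (l 16451464))))) (a (c (b (a (l 16496288) (l 16513752)) (a (l 16447904) (l 16445880))) (b (c (a (l 16484480) (l 16512560)) (l 16259264)) (a (c (l 16456928) (l 16461656)) (l 16445104)))) (b (c (l 16562024) (l 16538360)) (c (b (l 16460528) (l 16451264)) (l 16345464))))) (c (b (a (c (l 16503064) (l 16518552)) (a (b (l 16486984) (l 16441040)) (l 16472624))) (a (b (c (l 16462256) (l 16477480)) (c (l 16468432) (l 16451792))) (l 16392992))) (b (a (c (l 16564976) (l 16575192)) (b (l 16534872) (l 16491192))) (a (b (c (l 16523624) (l 16541488)) (l 16276216)) (l 16323440))))) (a (c (b (a (b (c (l 16196072) (b (l 16339224) (l 16365680))) (l 16368888)) (b (c (l 16257896) (l 16307160)) (c (l 16265464) (l 16269032)))) (a (l 15987192) (c (l 15723584) (l 15742424)))) (b (a (b (c (a (l 16315968) (l 16258440)) (a (c (l 16323416) (a (l 16242160)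 (l 16313944))) (l 16278256))) (c (l 16325568) (a (l 16249712) (l 16453272)))) (b (c (l 16429368) (l 16448376)) (c (l 16261824) (l 16235624)))) (a (c (l 15961160) (c (l 15969576) (l 15961192))) (c (l 15834608) (l 15908272))))) (a (c (b (b (c (a (l 16310424) (l 16241640)) (l 16214016)) (a (l 16083904) (l 16033664))) (a (l 15639040) (l 15766368))) (b (b (c (l 16211336) (l 16105064)) (l 15985256)) (l 15579160))) (c (l 15601504) (l 15663440))))) (b (b (a (c (l 16447440) (l 16470608)) (l 16061880)) (a (l 15948496) (a (l 15918440) (l 15795320)))) (c (a (b (l 15811096) (l 15583968)) (l 15476152)) (a (b (l 15749592) (l 15516144)) (l 15559360))))), by decide +kernel⟩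

def k4_pp_022 : ∃ t, chk3 f_pp_022 t 9 4 1 = true :=
  ⟨(b (a (b (a (b (l 16601496) (a (l 16574632) (l 16640712))) (b (l 16492216) (l 16284936))) (a (a (b (l 16494752) (l 16292312)) (l 16223496)) (b (l 16018496) (l 15698248)))) (b (a (a (l 15935496) (l 15951408)) (l 15738464)) (a (b (l 15567992) (l 15382760)) (l 15380928)))) (a (b (a (b (l 15733968) (l 15622896)) (l 15468376)) (l 15401048)) (b (l 15310960) (a (l 15177392) (l 15133632))))), by decide +kernel⟩

def k5_pp_022 : ∃ t, chk3 f_pp_022 t 5 4 1 = true :=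
  ⟨(b (a (b (a (b (a (l 15606696) (l 15438952)) (l 15414376)) (l 15394632)) (a (l 15368992) (l 15287304))) (a (b (l 15197824) (l 15182912)) (l 15132800))) (a (b (a (l 15139216) (l 15169896)) (l 14947320)) (l 14831760))), by decide +kernel⟩

def k6_pp_022 : ∃ t, chk3 f_pp_022 t 4 5 1 = true :=
  ⟨(b (a (a (c (b (a (a (b (c (l 15844992) (l 15815144)) (b (l 15499760) (b (l 15827848) (l 15989944)))) (b (a (c (l 15611856) (l 15603600)) (c (l 15518928) (l 15544016))) (a (b (l 15460096) (a (l 15794632) (l 15858720))) (l 15726104)))) (b (a (l 15410256) (l 15500632)) (l 15681432))) (a (c (a (b (l 16321632) (l 15835664)) (l 15904192)) (a (b (l 16261488) (l 15784056)) (l 15907360))) (b (l 16324592) (l 15763368)))) (b (a (c (b (a (l 15584720) (a (l 15595632) (l 15510824))) (a (b (l 15482656) (a (l 15927536) (l 15865728))) (b (l 15568568) (l 15836272)))) (b (a (a (l 15611568) (l 15703208)) (b (l 15599032) (l 15429424))) (b (a (a (l 15675000) (l 15611072)) (l 15532464)) (a (a (l 15655712) (l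 15852168)) (l 15827104))))) (b (l 15430168) (l 15698472))) (a (a (b (c (a (l 16306224) (l 16254128)) (a (l 16042480) (l 16227792))) (a (c (l 15847048) (b (l 15940408) (l 15698504))) (c (l 15856528) (l 15847096)))) (b (l 16215384) (l 15789496))) (l 16026280)))) (b (b (c (l 15484120) (l 15425192)) (c (l 15762536) (l 15715688))) (a (b (l 16306128) (c (l 15848704) (l 15866576))) (b (l 16088208) (l 15953336))))) (b (a (b (a (l 15374064) (l 15202608)) (a (l 15616064) (l 15417920))) (b (l 14958760) (l 15154408))) (a (a (l 16261776) (l 16110248)) (l 15863376)))) (a (b (a (a (a (c (l 14870904) (c (l 14828656) (a (l 14953792) (l 14957208)))) (c (b (l 15286024) (l 14676096)) (b (l 15243256) (l 14717088)))) (c (b (l 15072824) (l 14841184)) (l 14896072))) (c (l 15284776) (l 15263992))) (a (a (c (a (l 14445616) (l 14534336)) (c (l 14444408) (l 14417600))) (c (l 14614880) (l 14595528))) (l 14864408))) (b (a (l 15671968) (l 16345760)) (a (l 15431248) (l 16018688))))), by decide +kernel⟩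

def k7_pp_022 : ∃ t, chk3 f_pp_022 t 5 5 1 = true :=
  ⟨(b (b (b (a (l 14724304) (l 14512224)) (a (l 14931824) (l 14732776))) (a (l 15652032) (l 15463752))) (b (a (l 16529576) (l 16356144)) (l 16325624))), by decide +kernel⟩

def k8_pp_022 : ∃ t, chk3 f_pp_022 t 3 2 1 = true :=
  ⟨(a (b (b (l 15007688) (l 14802424)) (b (b (b (l 14518416) (l 14741240)) (l 15463040)) (b (l 16328992) (l 16743432)))) (b (b (l 14816840) (b (l 14894072) (l 14697936))) (b (b (b (l 14549696) (l 2)) (l 2)) (l 2)))), by decide +kernel⟩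

def k9_pp_022 : ∃ t, chk3 f_pp_022 t 1 3 1 = true :=
  ⟨(a (a (a (a (b (a (c (a (l 14444840) (l 14533712)) (a (c (l 14406176) (l 14377624)) (l 14459288))) (c (l 14614280) (l 14594904))) (a (c (l 14483176) (a (l 14389800) (l 14459288))) (l 14586400))) (b (c (l 14886328) (l 14848176)) (l 14863840))) (b (a (b (l 15430744) (l 15430744)) (l 16018240)) (a (l 15430744) (l 16018240)))) (b (a (l 16376120) (b (l 16726952) (l 16727120))) (a (l 16376120) (l 2)))) (b (b (a (l 16732128) (l 2)) (l 2)) (l 2))), by decide +kernel⟩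

theorem s10_pp_022 : ∃ t, chk3 f_pp_022 t 2 5 1 = true := ex3_a k6_pp_022 k7_pp_022

theorem s11_pp_022 : ∃ t, chk3 f_pp_022 t 8 16 1 = true := ex3_a k0_pp_022 k1_pp_022

theorem s12_pp_022 : ∃ t, chk3 f_pp_022 t 8 8 1 = true := ex3_b s11_pp_022 k2_pp_022

theorem s13_pp_022 : ∃ t, chk3 f_pp_022 t 8 4 1 = true := ex3_b s12_pp_022 k3_pp_022

theorem s14_pp_022 : ∃ t, chk3 f_pp_022 t 4 4 1 = true := ex3_a s13_pp_022 k4_pp_022

theorem s15_pp_022 : ∃ t, chk3 f_pp_022 t 2 4 1 = true := ex3_a s14_pp_022 k5_pp_022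

theorem s16_pp_022 : ∃ t, chk3 f_pp_022 t 2 2 1 = true := ex3_b s15_pp_022 s10_pp_022

theorem s17_pp_022 : ∃ t, chk3 f_pp_022 t 1 2 1 = true := ex3_a s16_pp_022 k8_pp_022

theorem s18_pp_022 : ∃ t, chk3 f_pp_022 t 1 1 1 = true := ex3_b s17_pp_022 k9_pp_022

theorem c_pp_022 : CertNX 0 536870912 1073741824 536870912 1046898278 26843546 3 false true true .pp 0 2 2
    ndN5q0 ndN3q2 pcN2 Cut.none Ext.none :=
  certNX1 (fam := false) (s1 := true) (s2 := true) (a := 0) (b := 2) (c := 2) (cn := .pp) (n1 := ndN5q0) (n2 := ndN3q2) (pc := pcN2) (cut := Cut.none) (xt := Ext.none) (P1 := 0) (W1 := 536870912) (P2 := 1073741824) (W2 := 536870912) (P3 := 1046898278) (W3 := 26843546) (N0 := 3)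
    rfl (fun _ => rfl) s18_pp_022

noncomputable def f_pp_023 : ℕ → ℕ → ℕ → ℕ → Bool := onCell 0 536870912 1073741824 536870912 1046898278 26843546
    (rowNX 3 1 false true true .up 0 2 3 (qsf 0 536870912 1610612736 536870912 2) ndN5q0 ndN3q3 pcN2 Cut.none Ext.none)

def k0_pp_023 : ∃ t, chk3 f_pp_023 t 1 1 1 = true :=
  ⟨(b (b (a (l 1) (b (l 469254496263) (a (l 14802424) (b (l 14894072) (l 14697936))))) (a (a (l 1) (b (l 1) (b (l 1) (l 807486419015)))) (b (b (b (l 586291675863) (l 604545649991)) (a (l 15463040) (l 15439744))) (b (a (l 16328992) (l 16188952)) (a (l 16743432) (l 16509952)))))) (b (a (a (a (l 1) (a (l 1) (l 16018240))) (a (l 16376120) (l 608308703223))) (b (a (l 16732128) (l 16580848)) (a (l 16773600) (l 16767728)))) (a (a (a (a (a (c (l 14483176) (l 14281824)) (l 14586400)) (l 14863840)) (a (l 15430744) (l 16018240))) (a (l 16376120) (l 16726952))) (a (l 16777176) (b (l 16721336) (l 16691264)))))), by decide +kernel⟩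

theorem c_pp_023 : CertNX 0 536870912 1610612736 536870912 1046898278 26843546 3 false true true .up 0 2 3
    ndN5q0 ndN3q3 pcN2 Cut.none Ext.none :=
  certNX1 (fam := false) (s1 := true) (s2 := true) (a := 0) (b := 2) (c := 3) (cn := .up) (n1 := ndN5q0) (n2 := ndN3q3) (pc := pcN2) (cut := Cut.none) (xt := Ext.none) (P1 := 0) (W1 := 536870912) (P2 := 1610612736) (W2 := 536870912) (P3 := 1046898278) (W3 := 26843546) (N0 := 3)
    rfl (fun _ => rfl) k0_pp_023

noncomputable def f_pp_033 : ℕ → ℕ → ℕ → ℕ → Bool := onCell 0 536870912 1610612736 536870912 1046898278 26843546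
    (rowNX 3 0 false true true .pnn 0 3 3 (qsf 0 536870912 1610612736 536870912 3) ndN5q0 ndN3q3 pcN3 Cut.none Ext.none)

def k0_pp_033 : ∃ t, chk3 f_pp_033 t 1 1 1 = true :=
  ⟨(a (b (a (a (b (a (a (c (l 14483176) (l 134246019031)) (l 14439600)) (l 14863840)) (a (a (b (c (l 14483176) (l 14428624)) (c (l 14483176) (l 14428624))) (b (l 14586400) (l 14418624))) (b (l 14863840) (l 14863840)))) (b (a (l 15430744) (l 16018240)) (a (b (l 15430744) (l 15430744)) (l 15997264)))) (b (a (l 16376120) (l 1)) (a (b (l 16376120) (l 16376120)) (l 16726952)))) (b (b (a (b (a (a (l 4) (l 14863840)) (a (l 15430744) (l 16018232))) (l 4)) (a (c (l 16383008) (l 16369176)) (l 16726936))) (l 4)) (l 4))) (b (b (l 1) (a (l 16777216) (l 1))) (b (a (c (l 16777168) (l 16777168)) (b (l 1) (l 16777152))) (l 4)))), by decide +kernel⟩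

theorem c_pp_033 : CertNX 0 536870912 1610612736 536870912 1046898278 26843546 3 false true true .pnn 0 3 3
    ndN5q0 ndN3q3 pcN3 Cut.none Ext.none :=
  certNX0 (fam := false) (s1 := true) (s2 := true) (a := 0) (b := 3) (c := 3) (cn := .pnn) (n1 := ndN5q0) (n2 := ndN3q3) (pc := pcN3) (cut := Cut.none) (xt := Ext.none) (P1 := 0) (W1 := 536870912) (P2 := 1610612736) (W2 := 536870912) (P3 := 1046898278) (W3 := 26843546) (N0 := 3)
    rfl k0_pp_033

noncomputable def f_pp_101 : ℕ → ℕ → ℕ → ℕ → Bool := onCell 536870912 469762048 536870912 536870912 1046898278 26843546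
    (rowNX 3 0 false true true .npn 1 0 1 (qsf 536870912 469762048 536870912 536870912 0) ndN5q1 ndN3q1 pcN0 Cut.none Ext.none)

def k0_pp_101 : ∃ t, chk3 f_pp_101 t 1 1 1 = true :=
  ⟨(l 3), by decide +kernel⟩

theorem c_pp_101 : CertNX 536870912 469762048 536870912 536870912 1046898278 26843546 3 false true true .npn 1 0 1
    ndN5q1 ndN3q1 pcN0 Cut.none Ext.none :=
  certNX0 (fam := false) (s1 := true) (s2 := true) (a := 1) (b := 0) (c := 1) (cn := .npn) (n1 := ndN5q1) (n2 := ndN3q1) (pc := pcN0) (cut := Cut.none) (xt := Ext.none) (P1 := 536870912) (W1 := 469762048) (P2 := 536870912) (W2 := 536870912) (P3 := 1046898278) (W3 := 26843546) (N0 := 3)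
    rfl k0_pp_101

end Pool.Agent.Strip051.G.IE1.Tab.C.NB53

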