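import Pool.Agent.Strip051.G.IE1.Tab

/-! # Certificates N79 (generated) -/

set_option linter.all false
set_option maxRecDepth 100000

namespace Pool.Agent.Strip051.G.IE1.Tab.C.NB53

open Pool.Agent.Strip051.PB Pool.Agent.Strip051.PB.T
open Pool.Agent.Strip051.G.IE1.Tab

noncomputable def f_pp_102 : ℕ → ℕ → ℕ → ℕ → Bool := onCell 536870912 469762048 1073741824 536870912 1046898278 26843546
    (rowNX 3 0 false true true .npp 1 0 2 (qsf 536870912 469762048 1073741824 536870912 0) ndN5q1 ndN3q2 pcN0 Cut.none Ext.none)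

def k0_pp_102 : ∃ t, chk3 f_pp_102 t 2 2 1 = true :=
  ⟨(b (b (a (c (b (a (b (l 15507848) (l 15631264)) (b (l 15507848) (l 15631264))) (a (l 15736560) (l 15736560))) (b (a (b (l 15428184) (l 15528320)) (c (l 15479488) (l 15458480))) (a (l 15673728) (l 15673728)))) (b (c (a (b (l 15507848) (l 15631264)) (b (b (l 15464376) (l 15557560)) (l 15631264))) (a (b (c (l 15452208) (l 15407896)) (l 15528320)) (b (c (l 15452208) (l 15407896)) (l 15528320)))) (c (a (l 15736560) (l 15736560)) (a (l 15673728) (l 15673728))))) (a (a (l 2) (b (c (l 16166656) (l 16145160)) (c (l 16544584) (l 16536416)))) (b (c (a (l 16166656) (l 16145680)) (a (l 16145160) (l 16145160))) (c (a (l 16544584) (l 16544584)) (a (l 16536416) (l 16536416)))))) (a (l 2) (b (b (c (a (l 16305016) (l 16305016)) (a (l 16288440) (l 16288440))) (c (a (l 16404944) (l 16404944)) (a (l 16391880) (l 16391880)))) (b (a (l 2) (b (l 16589656) (l 16710040))) (l 16777040))))), by decide +kernel⟩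

def k1_pp_102 : ∃ t, chk3 f_pp_102 t 6 4 1 = true :=
  ⟨(b (a (b (c (b (b (a (l 15464376) (a (l 15464376) (l 15461640))) (c (l 15577824) (l 15540800))) (l 15631264)) (b (b (a (l 15338112) (c (l 15421792) (l 15254680))) (c (l 15487728) (l 15433344))) (l 15528320))) (c (c (l 15753960) (l 15714760)) (l 15673728))) (b (a (b (a (c (a (b (l 15437632) (l 15555304)) (b (l 15479696) (l 15623608))) (b (a (c (l 15395896) (l 15354064)) (c (l 15439312) (l 15398392))) (a (l 15465208) (l 15536456)))) (c (b (l 15635152) (l 15755240)) (b (c (l 15599680) (l 15562104)) (l 15675488)))) (a (c (a (l 15631392) (l 15715704)) (a (l 15528448) (l 15616416))) (c (b (l 15886216) (l 15965456)) (b (l 15765808) (l 15875536))))) (b (b (c (l 15735280) (c (l 15667368) (b (l 15667064) (l 15926128)))) (c (c (l 15995536) (l 15969888)) (c (l 15991264) (l 15969560)))) (c (b (l 16022384) (l 16097192)) (b (l 15894640) (l 16022696))))) (a (c (a (b (l 15736616) (l 15806656)) (l 15958384)) (a (l 15715168) (l 15992872)))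 (b (a (c (a (l 16240120) (l 16320136)) (a (l 16190544) (l 16339680))) (b (l 16250472) (l 16195448))) (a (l 16196024) (b (c (l 16333632) (l 16352296)) (l 16179280))))))) (a (b (c (l 16082768) (l 16124192)) (c (l 16544584) (l 16536416))) (b (a (a (c (l 16013936) (l 16036016)) (b (l 16160968) (l 16505976))) (a (b (l 16354096) (l 16248376)) (c (l 15986328) (l 16006528)))) (b (a (a (l 16585168) (l 16455736)) (c (l 15928920) (l 15965016))) (a (l 16418104) (l 15889872)))))), by decide +kernel⟩

def k2_pp_102 : ∃ t, chk3 f_pp_102 t 14 8 2 = true :=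
  ⟨(a (b (b (a (b (l 16209528) (l 16259584)) (a (b (l 16358880) (l 16470880)) (b (l 16410128) (c (l 16346768) (l 16374992))))) (a (l 16370784) (a (l 16259976) (l 16137880)))) (a (b (l 16170472) (l 15904464)) (b (a (l 16096752) (l 15992472)) (a (l 15870992) (l 15763432))))) (a (b (b (b (l 16279672) (l 16080720)) (l 15950616)) (b (l 15842792) (l 15608984))) (b (b (b (l 16051456) (c (l 16016104) (l 16059272))) (b (l 15907000) (l 15810952))) (b (l 15637344) (l 15397312))))), by decide +kernel⟩

def k3_pp_102 : ∃ t, chk3 f_pp_102 t 30 8 2 = true :=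
  ⟨(b (c (b (a (b (a (l 16047416) (l 15937800)) (b (a (l 15933344) (l 15827256)) (l 15800552))) (a (a (b (l 15921680) (b (l 15758696) (l 15664776))) (b (l 15892984) (b (l 15789688) (l 15690568)))) (b (c (l 15969392) (l 16050112)) (b (l 15935896) (l 15855480))))) (a (b (l 15697376) (l 15578080)) (a (a (l 15495752) (b (l 15570336) (l 15445512))) (b (l 15618448) (l 15583704))))) (a (b (b (a (l 16016224) (l 15967840)) (b (l 15874320) (l 15800424))) (l 15653456)) (b (a (b (a (l 15908680) (l 15922336)) (a (l 15708680) (l 15736808))) (b (c (l 16044016) (l 16017136)) (b (l 15951112) (l 15856168)))) (a (a (l 15508296) (l 15522408)) (b (l 15735440) (l 15605336)))))) (a (b (c (l 15416936) (l 15424648)) (l 15178776)) (b (a (a (l 15275160) (c (l 15284720) (l 15290872))) (c (l 15420160) (l 15428560))) (a (a (l 15038320) (l 15051280)) (c (l 15198224) (l 15182088)))))), by decide +kernel⟩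

def k4_pp_102 : ∃ t, chk3 f_pp_102 t 31 8 2 = true :=
  ⟨(c (b (a (b (a (b (a (l 16280864) (l 16345592)) (b (l 16133104) (l 16083984))) (b (l 16412784) (l 16161376))) (b (c (l 15801456) (l 15811336)) (a (l 15782144) (l 15999272)))) (b (b (a (b (a (l 16429384) (l 16228856)) (l 16377568)) (a (b (l 16210128) (l 16282656)) (a (l 16098080) (l 16009408)))) (a (b (l 16425568) (l 16463368)) (b (a (l 16391448) (a (l 16321184) (l 16200056))) (l 16306040)))) (a (b (l 16278120) (l 16190736)) (b (l 16335352) (l 16293552))))) (a (b (b (l 15674624) (l 15642120)) (l 15471528)) (b (a (l 15919328) (l 15975280)) (a (l 15749352) (b (l 16006784) (l 15880488)))))) (b (b (a (a (b (c (l 16234944) (l 16229664)) (c (l 16035648) (l 16122328))) (b (a (l 16386856) (l 16397120)) (c (l 16226080) (l 16271592)))) (b (a (b (c (a (l 16427176) (l 16204232)) (l 16246864)) (c (l 16355288) (l 16379528))) (b (c (a (l 16163296) (l 16048848)) (l 16098664)) (c (a (l 16237184) (a (l 16217520) (l 16169248))) (a (l 16260976)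 (l 16175880))))) (a (c (l 16404272) (l 16439064)) (c (a (l 16347600) (c (l 16203792) (l 16230544))) (l 16174824))))) (a (a (b (l 15956928) (l 15807256)) (b (l 16068872) (l 16028200))) (a (b (l 16260048) (l 16181832)) (b (l 16299656) (l 16331968))))) (a (b (b (a (l 15677936) (l 15878984)) (l 15650544)) (l 15459400)) (b (b (c (l 15985096) (l 16051888)) (a (l 15945392) (l 16144536))) (a (l 15741280) (l 15833128)))))), by decide +kernel⟩

def k5_pp_102 : ∃ t, chk3 f_pp_102 t 14 8 3 = true :=
  ⟨(a (b (b (b (a (c (l 16172256) (l 16021872)) (a (b (l 16279472) (l 16350192)) (c (l 16360000) (c (l 16347688) (b (l 16392456) (l 16530680)))))) (a (l 16226464) (a (l 16436600) (l 16271992)))) (a (l 16344600) (a (l 16333800) (l 16145712)))) (a (b (l 16264488) (l 16036312)) (a (l 15953392) (l 15697056)))) (b (c (b (b (b (l 16170536) (l 16068264)) (l 15970120)) (b (l 15914376) (l 15917680))) (b (b (b (a (l 16320840) (l 16125752)) (l 16058224)) (l 15964288)) (l 15764720))) (b (l 15671368) (l 15469696)))),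 by decide +kernel⟩

def k6_pp_102 : ∃ t, chk3 f_pp_102 t 15 8 3 = true :=
  ⟨(a (b (b (a (b (c (b (l 15969592) (a (l 16004616) (l 15906760))) (b (a (b (l 16112032) (l 16067696)) (l 15984304)) (a (l 16011152) (l 15911792)))) (c (l 15807512) (l 15817768))) (b (a (a (c (l 15899912) (b (l 15945888) (l 15849576))) (c (b (l 15988392) (l 15878016)) (b (c (l 15981712) (l 15982632)) (l 15882856)))) (c (b (l 16177640) (l 16057264)) (b (l 16007848) (l 16044536)))) (a (a (c (l 15716456) (l 15724816)) (c (l 15744976) (l 15754040))) (c (l 15916120) (l 15928528))))) (a (c (l 15665456) (l 15658376)) (a (a (l 15511792) (b (l 15594120) (l 15462336))) (b (l 15627512) (l 15606096))))) (a (b (l 15402224) (l 15133272)) (b (a (l 15259296) (l 15405376)) (a (l 14994112) (l 15142032))))) (b (b (c (a (b (a (l 16125760) (a (l 16386584) (l 16393536))) (a (l 16115792) (l 16268800))) (b (a (b (a (l 16426880) (l 16243952)) (l 16346856)) (b (b (l 16133792) (l 16133152)) (a (b (l 16266080) (l 16309864)) (b (l 16164960)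 (l 16197024))))) (a (l 16412176) (b (l 16189864) (l 16331376))))) (a (b (a (b (l 16252920) (l 16263672)) (b (l 16372448) (l 16448376))) (a (l 16132920) (l 16290952))) (b (a (b (b (a (l 16388320) (c (l 16273336) (l 16223144))) (l 16208104)) (l 16318992)) (b (b (c (l 16125848) (l 16032336)) (c (l 16100176) (l 16062280))) (a (c (l 16263840) (l 16222808)) (c (l 16154784) (l 16133696))))) (a (l 16357872) (c (l 16110408) (l 16163120)))))) (a (b (c (l 15871264) (l 15981152)) (a (l 15812592) (l 16038624))) (a (b (l 16253360) (l 16155864)) (b (c (l 16320640) (l 16341568)) (l 16332024))))) (a (b (b (l 15704920) (l 15624376)) (l 15424760)) (b (a (l 15842720) (b (l 16231792) (l 16148904))) (a (l 15712152) (l 15827880)))))), by decide +kernel⟩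

def k7_pp_102 : ∃ t, chk3 f_pp_102 t 7 9 1 = true :=
  ⟨(a (b (a (a (b (c (l 15811432) (l 15802800)) (l 15575552)) (b (a (c (l 15585640) (l 15547064)) (c (l 15449392) (l 15405968))) (a (l 15287008) (c (l 15129344) (l 15073056))))) (b (c (a (l 15277312) (l 15054288)) (l 15092440)) (a (c (b (l 14975440) (l 14805784)) (l 14829712)) (c (l 14623720) (l 14549856))))) (a (c (b (a (l 15433264) (a (l 15143744) (l 14950248))) (l 15095752)) (a (l 15419664) (b (l 14987288) (l 15055448)))) (b (a (b (c (l 14671160) (l 14597848)) (l 14626008)) (b (c (l 14332216) (l 14247096)) (c (l 14288512) (l 14201808)))) (c (l 14542328) (l 14465040))))) (b (b (a (a (c (l 14825088) (l 14759888)) (c (a (l 14537432) (l 14827880)) (a (l 14614000) (l 14761352)))) (c (a (c (l 15119120) (l 15090248)) (c (l 15298760) (l 15401664))) (a (l 15045544) (l 15425616)))) (a (a (c (l 14377824) (l 14295560)) (c (a (l 14225960) (l 14362360)) (l 14208000))) (c (a (l 14401336) (c (l 15015792) (l 14984024))) (a (l 14555032) (l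 14931552))))) (a (a (b (c (b (l 14057136) (l 13972968)) (l 13920080)) (c (l 13936120) (l 13881008))) (c (b (b (a (l 13897176) (l 14028232)) (c (l 13895264) (l 13845152))) (a (l 13745192) (l 13886888))) (b (b (l 13863920) (l 13768392)) (l 13725544)))) (c (b (b (a (l 14289920) (c (l 14669008) (l 14630680))) (a (l 14195456) (l 14552336))) (a (l 14146536) (l 14503536))) (b (b (l 14382648) (l 14283640)) (l 14233336)))))), by decide +kernel⟩

def k8_pp_102 : ∃ t, chk3 f_pp_102 t 3 5 1 = true :=
  ⟨(a (b (a (b (c (l 16305016) (l 16288440)) (c (l 16404944) (l 16391880))) (b (a (c (l 16198240) (l 16334704)) (c (l 15898312) (l 15921736))) (a (c (l 16512904) (l 16505728)) (l 15846512)))) (a (b (c (l 16652752) (l 16648384)) (l 16777040)) (b (a (a (l 16672408) (l 16480032)) (l 15791000)) (a (a (l 16730792) (l 16420096)) (l 15724360))))) (a (b (a (b (c (b (l 15324768) (a (l 15636472) (l 15262280))) (a (l 15568224) (l 15094808))) (a (l 15519464) (l 15091864))) (b (c (b (l 14632624) (l 14703448))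 (b (l 14559384) (l 14633632))) (c (l 14595064) (l 14520824)))) (b (a (c (l 15199264) (l 15144792)) (c (l 14426128) (l 14344496))) (a (c (l 15125632) (l 15067664)) (c (l 14343936) (l 14258528))))) (b (a (b (a (b (l 14000000) (c (l 14122968) (l 14032624))) (b (c (a (l 13787288) (l 13865584)) (a (l 13684072) (l 13763680))) (c (b (l 13881520) (l 13896216)) (l 13789376)))) (a (l 13960200) (c (l 13768960) (l 13664664)))) (b (b (c (a (l 14091608) (l 14437080)) (l 14173032)) (c (a (b (l 14084680) (l 14083936)) (b (l 14389368) (l 14341080))) (a (l 13969864) (l 14279184)))) (c (a (l 13948304) (b (l 14218840) (l 14101848))) (b (l 14013168) (l 13896720))))) (a (b (a (l 13775272) (c (l 13579832) (l 13467536))) (a (l 13684680) (c (l 13486960) (l 13370520)))) (b (c (l 13850344) (l 13741608)) (c (l 13751072) (l 13637968))))))), by decide +kernel⟩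

def k9_pp_102 : ∃ t, chk3 f_pp_102 t 1 3 1 = true :=
  ⟨(a (l 2) (a (b (a (l 16777216) (a (l 16576760) (l 15871072))) (l 2)) (a (a (b (l 15096576) (l 2)) (b (b (l 14301168) (l 14301168)) (l 14301168))) (b (b (a (b (a (l 13684552) (c (l 13486824) (l 13370384))) (l 13557320)) (c (b (l 13750936) (l 13750936)) (l 13637824))) (a (l 13557320) (l 13693848))) (a (l 13557320) (l 13693848)))))), by decide +kernel⟩

theorem s10_pp_102 : ∃ t, chk3 f_pp_102 t 7 8 3 = true := ex3_a k5_pp_102 k6_pp_102

theorem s11_pp_102 : ∃ t, chk3 f_pp_102 t 15 8 2 = true := ex3_a k3_pp_102 k4_pp_102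

theorem s12_pp_102 : ∃ t, chk3 f_pp_102 t 7 8 2 = true := ex3_a k2_pp_102 s11_pp_102

theorem s13_pp_102 : ∃ t, chk3 f_pp_102 t 7 8 1 = true := ex3_c s12_pp_102 s10_pp_102

theorem s14_pp_102 : ∃ t, chk3 f_pp_102 t 7 4 1 = true := ex3_b s13_pp_102 k7_pp_102

theorem s15_pp_102 : ∃ t, chk3 f_pp_102 t 3 4 1 = true := ex3_a k1_pp_102 s14_pp_102

theorem s16_pp_102 : ∃ t, chk3 f_pp_102 t 3 2 1 = true := ex3_b s15_pp_102 k8_pp_102

theorem s17_pp_102 : ∃ t, chk3 f_pp_102 t 1 2 1 = true := ex3_a k0_pp_102 s16_pp_102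

theorem s18_pp_102 : ∃ t, chk3 f_pp_102 t 1 1 1 = true := ex3_b s17_pp_102 k9_pp_102

theorem c_pp_102 : CertNX 536870912 469762048 1073741824 536870912 1046898278 26843546 3 false true true .npp 1 0 2
    ndN5q1 ndN3q2 pcN0 Cut.none Ext.none :=
  certNX0 (fam := false) (s1 := true) (s2 := true) (a := 1) (b := 0) (c := 2) (cn := .npp) (n1 := ndN5q1) (n2 := ndN3q2) (pc := pcN0) (cut := Cut.none) (xt := Ext.none) (P1 := 536870912) (W1 := 469762048) (P2 := 1073741824) (W2 := 536870912) (P3 := 1046898278) (W3 := 26843546) (N0 := 3)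
    rfl s18_pp_102

noncomputable def f_pp_112 : ℕ → ℕ → ℕ → ℕ → Bool := onCell 536870912 469762048 1073741824 536870912 1046898278 26843546
    (rowNX 3 0 false true true .dn 1 1 2 (qsf 536870912 469762048 1073741824 536870912 1) ndN5q1 ndN3q2 pcN1 Cut.none Ext.none)

def k0_pp_112 : ∃ t, chk3 f_pp_112 t 1 1 1 = true :=
  ⟨(b (a (b (b (a (a (b (c (b (l 15507848) (l 15631264)) (b (l 15428184) (l 15528320))) (c (l 15736560) (l 15673728))) (b (l 1) (c (l 15736560) (l 15673728)))) (l 1)) (a (b (c (a (l 16166656) (l 16166656)) (a (l 16145160) (l 16145160))) (c (a (l 16544584) (l 16544584)) (a (l 16536416) (l 16536416)))) (b (l 1) (c (l 405370365591) (a (l 16536416) (l 1)))))) (b (a (b (c (a (l 16305016) (l 16305016)) (a (l 16288440) (l 16288440))) (a (l 16398440) (c (l 16404944) (l 16391880)))) (a (b (c (l 16305016) (l 16288440)) (c (l 16404944) (l 16391880))) (b (l 1) (l 292090289895)))) (a (b (l 16650576) (l 16777040)) (b (a (l 16650576) (b (l 16589656) (l 16710040))) (l 16777040)))))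 (a (b (l 1) (b (l 1) (a (b (l 984117650407) (l 16777040)) (l 1)))) (l 1))) (a (b (a (b (l 16770088) (a (l 16647360) (l 16758368))) (l 16777216)) (a (b (a (l 16243248) (l 16606872)) (a (l 15519200) (l 16141552))) (b (l 16757616) (a (l 16556768) (l 16732432))))) (a (b (a (l 16777216) (a (l 16576760) (l 15871072))) (a (l 16777200) (l 16083216))) (a (b (b (l 1) (l 426304410519)) (a (l 15096576) (l 14301168))) (b (l 1) (a (l 13557320) (l 13693848))))))), by decide +kernel⟩

theorem c_pp_112 : CertNX 536870912 469762048 1073741824 536870912 1046898278 26843546 3 false true true .dn 1 1 2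
    ndN5q1 ndN3q2 pcN1 Cut.none Ext.none :=
  certNX0 (fam := false) (s1 := true) (s2 := true) (a := 1) (b := 1) (c := 2) (cn := .dn) (n1 := ndN5q1) (n2 := ndN3q2) (pc := pcN1) (cut := Cut.none) (xt := Ext.none) (P1 := 536870912) (W1 := 469762048) (P2 := 1073741824) (W2 := 536870912) (P3 := 1046898278) (W3 := 26843546) (N0 := 3)
    rfl k0_pp_112

noncomputable def f_pp_113 : ℕ → ℕ → ℕ → ℕ → Bool := onCell 536870912 469762048 536870912 536870912 1046898278 26843546
    (rowNX 3 1 false true true .nn 1 1 3 (qsf 536870912 469762048 1610612736 536870912 1) ndN5q1 ndN3q3 pcN1 Cut.none Ext.none)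

def k0_pp_113 : ∃ t, chk3 f_pp_113 t 1 1 1 = true :=
  ⟨(b (a (l 1) (a (b (l 1) (a (l 16777216) (l 16230016))) (a (b (l 470864696215) (a (l 15096576) (l 14301168))) (b (a (l 13557320) (l 13693848)) (a (l 13557320) (l 13693848)))))) (a (b (b (l 16751656) (l 16533544)) (b (a (l 15947200) (l 15852392)) (a (l 586829594103) (b (l 15187344) (l 14630936))))) (b (a (b (a (l 16746352) (l 16198488)) (a (l 16477416) (l 15916600))) (a (b (a (l 15061416) (l 14265168)) (a (l 14753584) (l 13948752))) (b (a (l 13518936) (l 13649952)) (a (l 13180392) (l 13291208))))) (a (b (a (l 15757800) (l 15107808)) (a (l 14635424) (b (l 14248696) (l 13565936)))) (a (b (l 13515248) (b (l 12684288) (l 12014976))) (b (a (l 12316712) (l 12405008)) (b (l 11710424) (a (l 10981024) (l 11172776))))))))), by decide +kernel⟩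

theorem c_pp_113 : CertNX 536870912 469762048 1610612736 536870912 1046898278 26843546 3 false true true .nn 1 1 3
    ndN5q1 ndN3q3 pcN1 Cut.none Ext.none :=
  certNX1 (fam := false) (s1 := true) (s2 := true) (a := 1) (b := 1) (c := 3) (cn := .nn) (n1 := ndN5q1) (n2 := ndN3q3) (pc := pcN1) (cut := Cut.none) (xt := Ext.none) (P1 := 536870912) (W1 := 469762048) (P2 := 1610612736) (W2 := 536870912) (P3 := 1046898278) (W3 := 26843546) (N0 := 3)
    rfl (fun _ => rfl) k0_pp_113

noncomputable def f_pp_123 : ℕ → ℕ → ℕ → ℕ → Bool := onCell 536870912 469762048 1073741824 536870912 1046898278 26843546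
    (rowNX 3 1 false true true .npn 1 2 3 (qsf 536870912 469762048 1610612736 536870912 2) ndN5q1 ndN3q3 pcN2 Cut.none Ext.none)

def k0_pp_123 : ∃ t, chk3 f_pp_123 t 1 1 1 = true :=
  ⟨(b (a (b (b (a (a (l 14671048) (b (l 14489040) (l 14564616))) (c (l 14273896) (b (l 14142520) (l 14241552)))) (b (a (l 14724432) (l 14349624)) (l 14403976))) (b (b (l 14571032) (l 15244384)) (a (l 16043448) (b (l 15653072) (l 15955760))))) (b (a (b (a (c (l 13971464) (l 13862240)) (c (l 13464272) (b (l 13159576) (l 13433624)))) (b (a (l 14053096) (l 13790304)) (a (l 14077504) (l 14072896)))) (b (a (b (c (l 12329680) (a (l 12157040) (l 11576400))) (c (b (l 13004664) (l 13467856)) (l 12878080))) (b (c (a (l 12025440) (l 12597560)) (a (l 11239224) (l 11670784))) (c (a (l 13714704) (l 14613224)) (a (l 13225656) (l 14115472))))) (a (b (a (l 13857048) (l 14305056)) (l 15066576)) (b (c (a (l 15420200) (l 16164800)) (l 13626024)) (l 4))))) (a (b (a (b (l 14518576) (l 15118496)) (b (l 14778888) (l 15528144)))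 (a (b (l 15512472) (l 4)) (l 4))) (b (a (b (a (l 4) (l 4)) (l 4)) (l 2)) (l 2))))) (a (b (a (b (l 16445088) (b (l 16705608) (l 16698936))) (b (a (l 16384440) (l 4)) (l 4))) (a (b (l 4) (l 4)) (b (b (l 4) (l 2)) (l 2)))) (b (a (b (l 4) (l 2)) (l 2)) (l 2)))), by decide +kernel⟩

theorem c_pp_123 : CertNX 536870912 469762048 1610612736 536870912 1046898278 26843546 3 false true true .npn 1 2 3
    ndN5q1 ndN3q3 pcN2 Cut.none Ext.none :=
  certNX1 (fam := false) (s1 := true) (s2 := true) (a := 1) (b := 2) (c := 3) (cn := .npn) (n1 := ndN5q1) (n2 := ndN3q3) (pc := pcN2) (cut := Cut.none) (xt := Ext.none) (P1 := 536870912) (W1 := 469762048) (P2 := 1610612736) (W2 := 536870912) (P3 := 1046898278) (W3 := 26843546) (N0 := 3)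
    rfl (fun _ => rfl) k0_pp_123

noncomputable def f_pp_133 : ℕ → ℕ → ℕ → ℕ → Bool := onCell 1610612736 536870912 1610612736 536870912 1046898278 26843546
    (rowNX 3 2 false true true .dn 1 3 3 (qsf 536870912 469762048 1610612736 536870912 3) ndN5q1 ndN3q3 pcN3 Cut.none Ext.none)

def k0_pp_133 : ∃ t, chk3 f_pp_133 t 1 1 1 = true :=
  ⟨(a (b (l 1) (b (l 1) (l 4))) (l 1)), by decide +kernel⟩

theorem c_pp_133 : CertNX 536870912 469762048 1610612736 536870912 1046898278 26843546 3 false true true .dn 1 3 3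
    ndN5q1 ndN3q3 pcN3 Cut.none Ext.none :=
  certNX2 (fam := false) (s1 := true) (s2 := true) (a := 1) (b := 3) (c := 3) (cn := .dn) (n1 := ndN5q1) (n2 := ndN3q3) (pc := pcN3) (cut := Cut.none) (xt := Ext.none) (P1 := 536870912) (W1 := 469762048) (P2 := 1610612736) (W2 := 536870912) (P3 := 1046898278) (W3 := 26843546) (N0 := 3)
    rfl (fun _ => rfl) k0_pp_133

noncomputable def f_pp_202 : ℕ → ℕ → ℕ → ℕ → Bool := onCell 1073741824 536870912 1073741824 536870912 1046898278 26843546
    (rowNX 3 0 false true true .pp 2 0 2 (qsf 1073741824 536870912 1073741824 536870912 0) ndN5q2 ndN3q2 pcN0 Cut.none Ext.none)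

def k0_pp_202 : ∃ t, chk3 f_pp_202 t 1 1 1 = true :=
  ⟨(l 3), by decide +kernel⟩

theorem c_pp_202 : CertNX 1073741824 536870912 1073741824 536870912 1046898278 26843546 3 false true true .pp 2 0 2
    ndN5q2 ndN3q2 pcN0 Cut.none Ext.none :=
  certNX0 (fam := false) (s1 := true) (s2 := true) (a := 2) (b := 0) (c := 2) (cn := .pp) (n1 := ndN5q2) (n2 := ndN3q2) (pc := pcN0) (cut := Cut.none) (xt := Ext.none) (P1 := 1073741824) (W1 := 536870912) (P2 := 1073741824) (W2 := 536870912) (P3 := 1046898278) (W3 := 26843546) (N0 := 3)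
    rfl k0_pp_202

noncomputable def f_pp_203 : ℕ → ℕ → ℕ → ℕ → Bool := onCell 1073741824 536870912 0 536870912 1046898278 26843546
    (rowNX 3 1 false true true .up 2 0 3 (qsf 1073741824 536870912 1610612736 536870912 0) ndN5q2 ndN3q3 pcN0 Cut.none Ext.none)

def k0_pp_203 : ∃ t, chk3 f_pp_203 t 1 1 1 = true :=
  ⟨(l 3), by decide +kernel⟩

theorem c_pp_203 : CertNX 1073741824 536870912 1610612736 536870912 1046898278 26843546 3 false true true .up 2 0 3
    ndN5q2 ndN3q3 pcN0 Cut.none Ext.none :=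
  certNX1 (fam := false) (s1 := true) (s2 := true) (a := 2) (b := 0) (c := 3) (cn := .up) (n1 := ndN5q2) (n2 := ndN3q3) (pc := pcN0) (cut := Cut.none) (xt := Ext.none) (P1 := 1073741824) (W1 := 536870912) (P2 := 1610612736) (W2 := 536870912) (P3 := 1046898278) (W3 := 26843546) (N0 := 3)
    rfl (fun _ => rfl) k0_pp_203

noncomputable def f_pp_213 : ℕ → ℕ → ℕ → ℕ → Bool := onCell 536870912 536870912 1610612736 536870912 1046898278 26843546
    (rowNX 3 2 false true true .pnn 2 1 3 (qsf 1073741824 536870912 1610612736 536870912 1) ndN5q2 ndN3q3 pcN1 Cut.none Ext.none)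

def k0_pp_213 : ∃ t, chk3 f_pp_213 t 1 1 1 = true :=
  ⟨(b (l 3) (a (l 3) (a (l 3) (a (b (l 3) (b (l 3) (a (b (l 3) (b (l 3) (l 14952128))) (b (b (l 15469136) (l 15518184)) (b (l 15566368) (l 15502744)))))) (b (l 1) (a (b (a (a (l 3) (l 1)) (l 1)) (a (b (b (l 15514464) (l 15602824)) (b (l 15878256) (l 16161192))) (b (a (b (l 15846392) (l 15571768)) (b (l 1) (l 15792008))) (a (l 15885200) (c (l 16248680) (l 15825432)))))) (b (l 1) (b (b (l 1) (a (c (a (a (l 16126352) (l 1)) (l 1)) (l 1104374998215)) (l 1))) (a (c (c (a (b (a (l 16479120) (l 16402416)) (l 16596232)) (l 1496828682583)) (a (l 16326336) (b (c (l 16157920) (l 16235904)) (a (l 16475064) (l 16383368))))) (b (l 16267552) (l 15948208))) (c (a (b (l 15869776) (l 16275744)) (l 15937624)) (a (c (a (l 849898561335) (c (l 16108192) (l 998611629031))) (l 16139736)) (b (l 1) (c (l 16111648) (a (l 16066128) (l 1015791336103))))))))))))))), by decide +kernel⟩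

theorem c_pp_213 : CertNX 1073741824 536870912 1610612736 536870912 1046898278 26843546 3 false true true .pnn 2 1 3
    ndN5q2 ndN3q3 pcN1 Cut.none Ext.none :=
  certNX2 (fam := false) (s1 := true) (s2 := true) (a := 2) (b := 1) (c := 3) (cn := .pnn) (n1 := ndN5q2) (n2 := ndN3q3) (pc := pcN1) (cut := Cut.none) (xt := Ext.none) (P1 := 1073741824) (W1 := 536870912) (P2 := 1610612736) (W2 := 536870912) (P3 := 1046898278) (W3 := 26843546) (N0 := 3)
    rfl (fun _ => rfl) k0_pp_213

noncomputable def f_pp_303 : ℕ → ℕ → ℕ → ℕ → Bool := onCell 0 1230186008 1610612736 536870912 1046898278 26843546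
    (rowNX 3 0 false true true .npn 3 0 3 (qsf 0 1230186008 1610612736 536870912 0) ndN5q3 ndN3q3 pcN0 Cut.none Ext.none)

def k0_pp_303 : ∃ t, chk3 f_pp_303 t 1 1 1 = true :=
  ⟨(a (l 3) (l 3)), by decide +kernel⟩

theorem c_pp_303 : CertNX 0 1230186008 1610612736 536870912 1046898278 26843546 3 false true true .npn 3 0 3
    ndN5q3 ndN3q3 pcN0 Cut.none Ext.none :=
  certNX0 (fam := false) (s1 := true) (s2 := true) (a := 3) (b := 0) (c := 3) (cn := .npn) (n1 := ndN5q3) (n2 := ndN3q3) (pc := pcN0) (cut := Cut.none) (xt := Ext.none) (P1 := 0) (W1 := 1230186008) (P2 := 1610612736) (W2 := 536870912) (P3 := 1046898278) (W3 := 26843546) (N0 := 3)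
    rfl k0_pp_303

noncomputable def f_pp_313 : ℕ → ℕ → ℕ → ℕ → Bool := onCell 0 1230186008 1610612736 536870912 1046898278 26843546
    (rowNX 3 0 false true true .dn 3 1 3 (qsf 0 1230186008 1610612736 536870912 1) ndN5q3 ndN3q3 pcN1 Cut.none Ext.none)

def k0_pp_313 : ∃ t, chk3 f_pp_313 t 1 1 1 = true :=
  ⟨(a (l 1) (l 3)), by decide +kernel⟩

theorem c_pp_313 : CertNX 0 1230186008 1610612736 536870912 1046898278 26843546 3 false true true .dn 3 1 3
    ndN5q3 ndN3q3 pcN1 Cut.none Ext.none :=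
  certNX0 (fam := false) (s1 := true) (s2 := true) (a := 3) (b := 1) (c := 3) (cn := .dn) (n1 := ndN5q3) (n2 := ndN3q3) (pc := pcN1) (cut := Cut.none) (xt := Ext.none) (P1 := 0) (W1 := 1230186008) (P2 := 1610612736) (W2 := 536870912) (P3 := 1046898278) (W3 := 26843546) (N0 := 3)
    rfl k0_pp_313

noncomputable def f_pm_001 : ℕ → ℕ → ℕ → ℕ → Bool := onCell 0 536870912 536870912 536870912 1046898278 26843546
    (rowNX 3 0 false true false .up 0 0 1 (qsf 0 536870912 536870912 536870912 0) ndN5q0 ndN3q1 pcN0 Cut.none Ext.none)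

def k0_pm_001 : ∃ t, chk3 f_pm_001 t 1 1 1 = true :=
  ⟨(l 4), by decide +kernel⟩

theorem c_pm_001 : CertNX 0 536870912 536870912 536870912 1046898278 26843546 3 false true false .up 0 0 1
    ndN5q0 ndN3q1 pcN0 Cut.none Ext.none :=
  certNX0 (fam := false) (s1 := true) (s2 := false) (a := 0) (b := 0) (c := 1) (cn := .up) (n1 := ndN5q0) (n2 := ndN3q1) (pc := pcN0) (cut := Cut.none) (xt := Ext.none) (P1 := 0) (W1 := 536870912) (P2 := 536870912) (W2 := 536870912) (P3 := 1046898278) (W3 := 26843546) (N0 := 3)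
    rfl k0_pm_001

noncomputable def f_pm_011 : ℕ → ℕ → ℕ → ℕ → Bool := onCell 0 536870912 536870912 536870912 1046898278 26843546
    (rowNX 3 0 false true false .pnn 0 1 1 (qsf 0 536870912 536870912 536870912 1) ndN5q0 ndN3q1 pcN1 Cut.none Ext.none)

def k0_pm_011 : ∃ t, chk3 f_pm_011 t 1 1 1 = true :=
  ⟨(l 4), by decide +kernel⟩

theorem c_pm_011 : CertNX 0 536870912 536870912 536870912 1046898278 26843546 3 false true false .pnn 0 1 1
    ndN5q0 ndN3q1 pcN1 Cut.none Ext.none :=
  certNX0 (fam := false) (s1 := true) (s2 := false) (a := 0) (b := 1) (c := 1) (cn := .pnn) (n1 := ndN5q0) (n2 := ndN3q1) (pc := pcN1) (cut := Cut.none) (xt := Ext.none) (P1 := 0) (W1 := 536870912) (P2 := 536870912) (W2 := 536870912) (P3 := 1046898278) (W3 := 26843546) (N0 := 3)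
    rfl k0_pm_011

noncomputable def f_pm_012 : ℕ → ℕ → ℕ → ℕ → Bool := onCell 0 536870912 1073741824 536870912 1046898278 26843546
    (rowNX 3 0 false true false .pnp 0 1 2 (qsf 0 536870912 1073741824 536870912 1) ndN5q0 ndN3q2 pcN1 Cut.none Ext.none)

def k0_pm_012 : ∃ t, chk3 f_pm_012 t 1 1 1 = true :=
  ⟨(l 4), by decide +kernel⟩

theorem c_pm_012 : CertNX 0 536870912 1073741824 536870912 1046898278 26843546 3 false true false .pnp 0 1 2
    ndN5q0 ndN3q2 pcN1 Cut.none Ext.none :=
  certNX0 (fam := false) (s1 := true) (s2 := false) (a := 0) (b := 1) (c := 2) (cn := .pnp) (n1 := ndN5q0) (n2 := ndN3q2) (pc := pcN1) (cut := Cut.none) (xt := Ext.none) (P1 := 0) (W1 := 536870912) (P2 := 1073741824) (W2 := 536870912) (P3 := 1046898278) (W3 := 26843546) (N0 := 3)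
    rfl k0_pm_012

noncomputable def f_pm_022 : ℕ → ℕ → ℕ → ℕ → Bool := onCell 0 536870912 1073741824 536870912 1046898278 26843546
    (rowNX 3 0 false true false .pp 0 2 2 (qsf 0 536870912 1073741824 536870912 2) ndN5q0 ndN3q2 pcN2 Cut.none Ext.none)

def k0_pm_022 : ∃ t, chk3 f_pm_022 t 1 1 1 = true :=
  ⟨(l 4), by decide +kernel⟩

theorem c_pm_022 : CertNX 0 536870912 1073741824 536870912 1046898278 26843546 3 false true false .pp 0 2 2
    ndN5q0 ndN3q2 pcN2 Cut.none Ext.none :=
  certNX0 (fam := false) (s1 := true) (s2 := false) (a := 0) (b := 2) (c := 2) (cn := .pp) (n1 := ndN5q0) (n2 := ndN3q2) (pc := pcN2) (cut := Cut.none) (xt := Ext.none) (P1 := 0) (W1 := 536870912) (P2 := 1073741824) (W2 := 536870912) (P3 := 1046898278) (W3 := 26843546) (N0 := 3)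
    rfl k0_pm_022

noncomputable def f_pm_023 : ℕ → ℕ → ℕ → ℕ → Bool := onCell 0 536870912 1610612736 536870912 1046898278 26843546
    (rowNX 3 0 false true false .up 0 2 3 (qsf 0 536870912 1610612736 536870912 2) ndN5q0 ndN3q3 pcN2 Cut.none Ext.none)

def k0_pm_023 : ∃ t, chk3 f_pm_023 t 1 1 1 = true :=
  ⟨(l 4), by decide +kernel⟩

theorem c_pm_023 : CertNX 0 536870912 1610612736 536870912 1046898278 26843546 3 false true false .up 0 2 3
    ndN5q0 ndN3q3 pcN2 Cut.none Ext.none :=
  certNX0 (fam := false) (s1 := true) (s2 := false) (a := 0) (b := 2) (c := 3) (cn := .up) (n1 := ndN5q0) (n2 := ndN3q3) (pc := pcN2) (cut := Cut.none) (xt := Ext.none) (P1 := 0) (W1 := 536870912) (P2 := 1610612736) (W2 := 536870912) (P3 := 1046898278) (W3 := 26843546) (N0 := 3)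
    rfl k0_pm_023

noncomputable def f_pm_033 : ℕ → ℕ → ℕ → ℕ → Bool := onCell 0 536870912 1610612736 536870912 1046898278 26843546
    (rowNX 3 0 false true false .pnn 0 3 3 (qsf 0 536870912 1610612736 536870912 3) ndN5q0 ndN3q3 pcN3 Cut.none Ext.none)

def k0_pm_033 : ∃ t, chk3 f_pm_033 t 1 1 1 = true :=
  ⟨(l 4), by decide +kernel⟩

theorem c_pm_033 : CertNX 0 536870912 1610612736 536870912 1046898278 26843546 3 false true false .pnn 0 3 3
    ndN5q0 ndN3q3 pcN3 Cut.none Ext.none :=
  certNX0 (fam := false) (s1 := true) (s2 := false) (a := 0) (b := 3) (c := 3) (cn := .pnn) (n1 := ndN5q0) (n2 := ndN3q3) (pc := pcN3) (cut := Cut.none) (xt := Ext.none) (P1 := 0) (W1 := 536870912) (P2 := 1610612736) (W2 := 536870912) (P3 := 1046898278) (W3 := 26843546) (N0 := 3)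
    rfl k0_pm_033

noncomputable def f_pm_101 : ℕ → ℕ → ℕ → ℕ → Bool := onCell 536870912 469762048 536870912 536870912 1046898278 26843546
    (rowNX 3 0 false true false .npn 1 0 1 (qsf 536870912 469762048 536870912 536870912 0) ndN5q1 ndN3q1 pcN0 Cut.none Ext.none)

def k0_pm_101 : ∃ t, chk3 f_pm_101 t 1 1 1 = true :=
  ⟨(l 4), by decide +kernel⟩

theorem c_pm_101 : CertNX 536870912 469762048 536870912 536870912 1046898278 26843546 3 false true false .npn 1 0 1
    ndN5q1 ndN3q1 pcN0 Cut.none Ext.none :=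
  certNX0 (fam := false) (s1 := true) (s2 := false) (a := 1) (b := 0) (c := 1) (cn := .npn) (n1 := ndN5q1) (n2 := ndN3q1) (pc := pcN0) (cut := Cut.none) (xt := Ext.none) (P1 := 536870912) (W1 := 469762048) (P2 := 536870912) (W2 := 536870912) (P3 := 1046898278) (W3 := 26843546) (N0 := 3)
    rfl k0_pm_101

noncomputable def f_pm_102 : ℕ → ℕ → ℕ → ℕ → Bool := onCell 536870912 469762048 1073741824 536870912 1046898278 26843546
    (rowNX 3 0 false true false .npp 1 0 2 (qsf 536870912 469762048 1073741824 536870912 0) ndN5q1 ndN3q2 pcN0 Cut.none Ext.none)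

def k0_pm_102 : ∃ t, chk3 f_pm_102 t 1 1 1 = true :=
  ⟨(l 4), by decide +kernel⟩

theorem c_pm_102 : CertNX 536870912 469762048 1073741824 536870912 1046898278 26843546 3 false true false .npp 1 0 2
    ndN5q1 ndN3q2 pcN0 Cut.none Ext.none :=
  certNX0 (fam := false) (s1 := true) (s2 := false) (a := 1) (b := 0) (c := 2) (cn := .npp) (n1 := ndN5q1) (n2 := ndN3q2) (pc := pcN0) (cut := Cut.none) (xt := Ext.none) (P1 := 536870912) (W1 := 469762048) (P2 := 1073741824) (W2 := 536870912) (P3 := 1046898278) (W3 := 26843546) (N0 := 3)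
    rfl k0_pm_102

noncomputable def f_pm_112 : ℕ → ℕ → ℕ → ℕ → Bool := onCell 536870912 469762048 1073741824 536870912 1046898278 26843546
    (rowNX 3 0 false true false .dn 1 1 2 (qsf 536870912 469762048 1073741824 536870912 1) ndN5q1 ndN3q2 pcN1 Cut.none Ext.none)

def k0_pm_112 : ∃ t, chk3 f_pm_112 t 1 1 1 = true :=
  ⟨(l 4), by decide +kernel⟩

theorem c_pm_112 : CertNX 536870912 469762048 1073741824 536870912 1046898278 26843546 3 false true false .dn 1 1 2
    ndN5q1 ndN3q2 pcN1 Cut.none Ext.none :=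
  certNX0 (fam := false) (s1 := true) (s2 := false) (a := 1) (b := 1) (c := 2) (cn := .dn) (n1 := ndN5q1) (n2 := ndN3q2) (pc := pcN1) (cut := Cut.none) (xt := Ext.none) (P1 := 536870912) (W1 := 469762048) (P2 := 1073741824) (W2 := 536870912) (P3 := 1046898278) (W3 := 26843546) (N0 := 3)
    rfl k0_pm_112

noncomputable def f_pm_113 : ℕ → ℕ → ℕ → ℕ → Bool := onCell 536870912 469762048 536870912 536870912 1046898278 26843546
    (rowNX 3 1 false true false .nn 1 1 3 (qsf 536870912 469762048 1610612736 536870912 1) ndN5q1 ndN3q3 pcN1 Cut.none Ext.none)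

def k0_pm_113 : ∃ t, chk3 f_pm_113 t 1 1 1 = true :=
  ⟨(l 4), by decide +kernel⟩

theorem c_pm_113 : CertNX 536870912 469762048 1610612736 536870912 1046898278 26843546 3 false true false .nn 1 1 3
    ndN5q1 ndN3q3 pcN1 Cut.none Ext.none :=
  certNX1 (fam := false) (s1 := true) (s2 := false) (a := 1) (b := 1) (c := 3) (cn := .nn) (n1 := ndN5q1) (n2 := ndN3q3) (pc := pcN1) (cut := Cut.none) (xt := Ext.none) (P1 := 536870912) (W1 := 469762048) (P2 := 1610612736) (W2 := 536870912) (P3 := 1046898278) (W3 := 26843546) (N0 := 3)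
    rfl (fun _ => rfl) k0_pm_113

noncomputable def f_pm_123 : ℕ → ℕ → ℕ → ℕ → Bool := onCell 536870912 469762048 1610612736 536870912 1046898278 26843546
    (rowNX 3 0 false true false .npn 1 2 3 (qsf 536870912 469762048 1610612736 536870912 2) ndN5q1 ndN3q3 pcN2 Cut.none Ext.none)

def k0_pm_123 : ∃ t, chk3 f_pm_123 t 1 1 1 = true :=
  ⟨(b (l 4) (l 4)), by decide +kernel⟩

theorem c_pm_123 : CertNX 536870912 469762048 1610612736 536870912 1046898278 26843546 3 false true false .npn 1 2 3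
    ndN5q1 ndN3q3 pcN2 Cut.none Ext.none :=
  certNX0 (fam := false) (s1 := true) (s2 := false) (a := 1) (b := 2) (c := 3) (cn := .npn) (n1 := ndN5q1) (n2 := ndN3q3) (pc := pcN2) (cut := Cut.none) (xt := Ext.none) (P1 := 536870912) (W1 := 469762048) (P2 := 1610612736) (W2 := 536870912) (P3 := 1046898278) (W3 := 26843546) (N0 := 3)
    rfl k0_pm_123

noncomputable def f_pm_133 : ℕ → ℕ → ℕ → ℕ → Bool := onCell 536870912 469762048 1610612736 536870912 1046898278 26843546
    (rowNX 3 0 false true false .dn 1 3 3 (qsf 536870912 469762048 1610612736 536870912 3) ndN5q1 ndN3q3 pcN3 Cut.none Ext.none)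

def k0_pm_133 : ∃ t, chk3 f_pm_133 t 1 1 1 = true :=
  ⟨(a (l 4) (l 1)), by decide +kernel⟩

theorem c_pm_133 : CertNX 536870912 469762048 1610612736 536870912 1046898278 26843546 3 false true false .dn 1 3 3
    ndN5q1 ndN3q3 pcN3 Cut.none Ext.none :=
  certNX0 (fam := false) (s1 := true) (s2 := false) (a := 1) (b := 3) (c := 3) (cn := .dn) (n1 := ndN5q1) (n2 := ndN3q3) (pc := pcN3) (cut := Cut.none) (xt := Ext.none) (P1 := 536870912) (W1 := 469762048) (P2 := 1610612736) (W2 := 536870912) (P3 := 1046898278) (W3 := 26843546) (N0 := 3)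
    rfl k0_pm_133

noncomputable def f_pm_202 : ℕ → ℕ → ℕ → ℕ → Bool := onCell 1073741824 536870912 0 536870912 1046898278 26843546
    (rowNX 3 1 false true false .pp 2 0 2 (qsf 1073741824 536870912 1073741824 536870912 0) ndN5q2 ndN3q2 pcN0 Cut.none Ext.none)

def k0_pm_202 : ∃ t, chk3 f_pm_202 t 4 32 1 = true :=
  ⟨(a (a (c (b (a (c (l 16703656) (b (l 16737328) (l 16744376))) (l 16513760)) (b (a (c (l 16580048) (l 16725152)) (l 16389104)) (c (l 16602632) (l 16460880)))) (b (c (b (a (l 16731416) (l 16540744)) (a (c (l 16737344) (l 16685952)) (l 16536936))) (b (b (c (l 16588896) (c (l 16577544) (l 16508504))) (c (l 16484696) (l 16601800))) (a (l 16457048) (l 16482664)))) (c (a (b (l 16637352) (l 16729848)) (l 16558088)) (l 16619520)))) (c (b (a (l 16420312) (a (l 16279760) (l 16166624))) (a (c (l 16242824) (b (l 16381824) (l 16418696))) (b (a (l 16127624) (l 16284096)) (c (l 16344136) (l 16363736))))) (b (b (c (l 16282520) (b (l 16026064) (c (l 16245640) (l 16261760)))) (c (a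 (l 16361224) (l 16080400)) (a (l 16353008) (l 16175136)))) (a (c (l 16385720) (l 16356968)) (c (b (l 16284184) (l 16340640)) (l 16286200)))))) (b (a (c (b (l 16314240) (l 16358520)) (b (c (l 16274520) (c (l 16260392) (l 16209992))) (c (l 16299072) (l 16333752)))) (c (a (l 16309904) (l 15978488)) (c (a (b (l 16306328) (l 16275216)) (l 15945408)) (a (b (b (l 16256808) (l 16245208)) (l 16267560)) (b (l 15866296) (l 15901440)))))) (c (a (b (a (l 16368032) (l 16453016)) (c (l 16458568) (l 16481288))) (b (a (l 16240024) (l 15886640)) (b (l 15966400) (a (l 16199352) (l 15722832))))) (a (c (a (l 16406256) (l 16457696)) (l 16401576)) (c (b (l 16016280) (a (l 16190856) (l 15831168))) (a (l 16185968) (l 15820504))))))), by decide +kernel⟩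

def k1_pm_202 : ∃ t, chk3 f_pm_202 t 4 33 1 = true :=
  ⟨(a (c (b (a (c (a (l 16605080) (l 16661024)) (a (l 16659336) (l 16612672))) (a (c (a (l 16507448) (l 16449920)) (l 16456592)) (l 16393128))) (a (b (l 16444736) (l 16437992)) (b (a (l 16517488) (l 16529544)) (l 16452688)))) (a (b (a (l 16731984) (l 16546272)) (a (l 16724136) (l 16441984))) (b (a (l 16273032) (l 16418672)) (a (b (l 16414752) (l 16483448)) (l 16488488))))) (c (c (a (b (b (l 16524584) (a (b (l 16521984) (l 16474160)) (c (l 16517648) (l 16513688)))) (a (b (l 16439584) (l 16421288)) (l 16435984))) (b (b (l 15942560) (a (l 16111472) (l 15807552))) (a (l 16076664) (l 15746360)))) (a (b (b (l 16523528) (l 16533104)) (l 16261024)) (b (a (a (l 16234664) (l 15969096)) (l 15767760)) (l 15831848)))) (a (c (b (a (l 16536080) (l 16342184)) (a (l 16538152) (l 16347584))) (a (l 16437704) (l 16269264))) (b (c (l 15747608) (l 15888336)) (a (l 15970960) (l 15629048)))))), by decide +kernel⟩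

def k2_pm_202 : ∃ t, chk3 f_pm_202 t 4 17 1 = true :=
  ⟨(a (b (a (c (a (c (l 16634232) (b (l 16702696) (l 16707624))) (c (b (l 16651016) (l 16665848)) (b (l 16441456) (l 16641696)))) (a (l 16715488) (b (l 16564488) (l 16635640)))) (c (b (c (l 16547664) (l 16475576)) (c (l 16453000) (a (l 16547056) (l 16423208)))) (a (l 16627024) (l 16274752)))) (c (a (b (a (c (a (l 16655352) (l 16674208)) (l 16686624)) (l 16434648)) (c (a (b (l 16636144) (l 16594528)) (l 16452664)) (l 16404744))) (c (b (a (l 16353968) (l 16407528)) (a (c (l 16289920) (l 16336440)) (l 16497960))) (a (l 16384256) (l 16467888)))) (a (a (b (l 16684728) (l 16610352)) (l 16516752)) (a (b (l 16404120) (l 16322728)) (l 16400424))))) (b (a (c (c (a (l 16506912) (l 16237136)) (b (a (l 16507944) (l 16252496)) (l 16248224))) (a (l 16423736) (l 16166744))) (c (a (c (l 15895480) (l 15636136)) (c (l 15673424) (l 15537544))) (a (l 15811920) (l 15582376)))) (c (c (a (b (l 16110104) (a (l 16266400) (l 15862360))) (b (l 15604464)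 (l 15697328))) (a (a (l 16316264) (l 15963640)) (l 15684720))) (a (a (l 16308696) (l 15946864)) (l 15577312))))), by decide +kernel⟩

def k3_pm_202 : ∃ t, chk3 f_pm_202 t 10 16 1 = true :=
  ⟨(b (c (b (a (a (l 15637472) (a (l 15603472) (b (l 15854504) (l 15850736)))) (b (l 15911080) (a (l 16068752) (l 15673664)))) (a (a (b (b (l 15556360) (c (l 15538000) (l 15538280))) (c (l 15530320) (l 15450528))) (b (c (l 15485936) (l 15668304)) (c (l 15744304) (l 15751952)))) (c (b (a (l 16243112) (l 15716760)) (a (l 16311680) (l 15803536))) (b (a (l 16289760) (l 15797048)) (a (l 16329880) (l 15758520)))))) (b (a (a (c (l 15596088) (b (l 15594224) (l 15547264))) (b (a (l 15364544) (l 15671160)) (c (b (l 15678088) (l 15452008)) (a (l 15520976) (l 15725216))))) (b (a (c (l 16251872) (b (l 16231688) (c (l 16243576) (l 16240544)))) (c (l 15854664) (c (b (l 15862224) (l 15834056)) (b (c (l 15863640) (l 15779952)) (l 15850384))))) (c (a (b (l 16257736) (l 16225904)) (c (l 15822176) (l 15768688)))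 (c (a (l 16262168) (l 15826224)) (l 16033288))))) (a (a (c (b (l 15346488) (l 15501080)) (l 15461984)) (c (b (l 15536384) (l 15723664)) (l 15676968))) (c (a (l 16071304) (l 15594216)) (l 15883592))))) (c (a (a (b (c (b (l 15544168) (l 15538368)) (b (l 15526432) (l 15512744))) (l 15541848)) (b (c (b (l 15792936) (l 15767832)) (l 15721448)) (c (l 15851912) (l 15797552)))) (b (c (a (b (l 16332896) (l 16273680)) (l 15521864)) (a (l 16322272) (l 15693696))) (a (l 16157968) (l 15630968)))) (a (a (b (c (l 15470304) (l 15436408)) (l 15448704)) (l 15486128)) (a (c (l 16336640) (l 16324096)) (l 15566864))))), by decide +kernel⟩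

def k4_pm_202 : ∃ t, chk3 f_pm_202 t 11 16 1 = true :=
  ⟨(b (c (a (a (b (l 15070800) (c (b (l 15258872) (l 15225448)) (b (l 15222424) (l 15168432)))) (b (b (l 14658912) (l 14538200)) (c (b (l 14700240) (l 14710536)) (b (l 14673544) (l 14642544))))) (b (c (l 14362112) (l 14344264)) (c (b (l 14435704) (l 14437272)) (b (l 14381904) (l 14363064))))) (a (b (c (b (l 14935880) (c (l 14753200) (l 14690672))) (b (c (l 14673384) (b (l 14710472) (l 14910232))) (c (l 14906960) (l 14904432)))) (c (a (l 15178296) (l 14632616)) (l 14817608))) (b (c (b (l 14302848) (l 14327832)) (b (c (l 14282464) (l 14267352)) (l 14287744))) (c (l 14338656) (l 14323872))))) (c (a (a (b (c (b (l 15162720) (l 15121064)) (l 15139912)) (l 14972328)) (b (c (l 14669336) (l 14652360)) (l 14697016))) (b (c (l 14403312) (l 14381096)) (l 14437056))) (a (a (c (l 15173624) (l 15164280)) (l 14680504)) (l 14404448)))), by decide +kernel⟩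

def k5_pm_202 : ∃ t, chk3 f_pm_202 t 5 17 1 = true :=
  ⟨(a (c (b (a (a (l 15510544) (c (l 15857784) (l 15812936))) (a (c (l 16216488) (l 16261712)) (c (l 15673728) (l 15540512)))) (c (a (a (b (l 15576920) (l 15577960)) (b (l 15856312) (c (l 15843680) (l 15855416)))) (a (b (c (l 16200512) (l 16225560)) (c (l 16142592) (l 16228624))) (b (l 15625008) (l 15725632)))) (a (a (l 15553392) (l 15838232)) (a (b (l 16231184) (l 16209296)) (l 15743304))))) (a (a (b (l 15484408) (l 15527288)) (b (l 15781616) (l 15820848))) (b (a (l 16275160) (l 15704856)) (a (l 16226280) (l 15728168))))) (b (c (a (c (l 14899640) (b (l 14994312) (l 15033024))) (c (l 14555168) (l 14547160))) (a (l 14995944) (l 14508288))) (c (a (c (b (l 15119240) (l 15099368)) (l 15136648)) (c (b (b (l 14665632) (l 14573816)) (b (l 14735304) (l 14771360))) (l 14675992))) (a (l 15086520) (l 14613496))))), by decide +kernel⟩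

def k6_pm_202 : ∃ t, chk3 f_pm_202 t 4 9 1 = true :=
  ⟨(b (a (b (a (b (c (a (l 16567248) (l 16390800)) (l 16440032)) (a (l 16570696) (c (l 16457424) (l 16448944)))) (a (b (c (l 16259480) (l 16375368)) (l 16492960)) (c (b (l 16450040) (l 16115704)) (l 16191264)))) (a (b (a (c (l 16587648) (l 16594944)) (b (l 16533944) (l 16458120))) (a (c (l 16500000) (l 16664056)) (l 16194080))) (b (a (l 16063208) (l 15918912)) (a (l 16023264) (c (l 15689208) (l 15654904)))))) (b (c (a (b (a (l 16082760) (l 15800736)) (a (l 15663408) (l 15679280))) (b (l 15517968) (l 15549560))) (a (a (l 15720944) (l 15627392)) (l 15546608))) (a (b (a (c (l 15604760) (l 15627264)) (l 15532112)) (l 15435880)) (b (l 15406936) (c (l 15293624) (l 15246976)))))) (a (b (b (a (a (b (c (l 16491712) (l 16528344)) (b (c (l 16442048) (l 16433032)) (l 16269784))) (b (l 16173624) (b (l 16057600) (l 15993776)))) (a (b (l 15800960) (b (l 15689032) (l 15627528))) (b (l 15488176) (c (l 15411992) (l 15364768))))) (a (l 15884336)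 (a (a (l 15633048) (l 15470160)) (l 15354448)))) (b (a (c (l 15865544) (l 15918872)) (c (a (l 15472624) (l 15340168)) (l 15151328))) (a (a (l 15952680) (l 15573296)) (l 15304424)))) (b (b (a (b (l 15327088) (c (l 15273736) (l 15222960))) (c (b (l 15183296) (a (l 15146144) (l 15033576))) (b (l 15130888) (l 15034424)))) (a (c (l 15238512) (l 15184152)) (a (l 15053248) (l 14919688)))) (a (l 15122648) (a (l 14951128) (l 14779008)))))), by decide +kernel⟩

def k7_pm_202 : ∃ t, chk3 f_pm_202 t 5 9 1 = true :=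
  ⟨(b (a (b (a (c (a (b (l 15540824) (l 15428936)) (b (a (l 15672072) (c (l 15944776) (l 15943632))) (l 15549888))) (a (l 15437904) (b (l 15791424) (l 15654832)))) (b (c (a (l 16108576) (l 15872624)) (l 15981080)) (c (l 16064888) (l 16287392)))) (a (a (b (l 15199944) (c (l 15148656) (l 15095368))) (c (b (l 15521600) (l 15315328)) (l 15228984))) (b (c (a (l 15973320) (l 16387680)) (l 16116040)) (c (l 15846936) (l 15950200))))) (b (b (c (a (l 15164696) (l 14925104)) (a (l 15256992) (l 14848744))) (a (c (l 15581200) (l 15535720)) (l 15212120))) (a (c (b (l 15904152) (l 16283352)) (l 15838200)) (c (b (l 15621000) (l 15755968)) (b (l 15580344) (l 15980576)))))) (a (b (a (b (a (c (l 14918696) (l 14856416)) (c (l 15073312) (l 15016312))) (a (l 14725680) (l 14890936))) (b (c (l 15608016) (l 15700000)) (l 15575672))) (a (a (l 14584584) (l 14761928)) (l 15307056))) (b (b (a (a (l 16261168) (l 16558792)) (c (a (l 16405352) (l 16305240)) (a (l 16392304) (l 16288664)))) (a (l 16247552) (l 16403552)))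 (a (a (l 16167840) (l 16648024)) (l 16320208))))), by decide +kernel⟩

def k8_pm_202 : ∃ t, chk3 f_pm_202 t 6 8 1 = true :=
  ⟨(c (b (b (b (a (c (l 14250752) (l 14257736)) (a (l 14154336) (c (l 14119448) (l 14075816)))) (c (a (a (l 14377712) (b (l 14277688) (l 14294600))) (a (b (l 14252208) (l 14278512)) (b (l 14151600) (l 14173248)))) (c (a (l 14128608) (a (l 14210248) (l 14133224))) (a (l 14277712) (b (l 14109712) (l 14147584)))))) (b (a (c (b (l 14316560) (l 14329352)) (l 14296296)) (c (b (l 14226928) (l 14251792)) (l 14203856))) (a (c (l 14378200) (l 14360888)) (c (l 14315304) (c (l 14298912) (b (l 14268928) (l 14317944))))))) (b (c (a (b (l 14472584) (l 14562312)) (c (l 14462496) (b (l 14405696) (l 14351656)))) (a (b (l 14449552) (l 14540272)) (b (c (l 14398984) (b (a (l 14376744) (l 14342344)) (l 14369616))) (c (b (a (l 14471752) (l 14398768)) (l 14465392)) (l 14419304))))) (c (a (b (c (l 14639168) (a (l 14654256) (l 14530216))) (c (b (l 14678496) (l 14702712)) (l 14659480)))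 (b (c (b (l 14589704) (l 14610480)) (b (a (l 14559768) (l 14527872)) (l 14542776))) (c (b (a (l 14644544) (l 14616232)) (l 14632208)) (l 14587768)))) (a (l 14607960) (l 14541960))))) (a (b (b (b (c (b (l 14215104) (l 14240664)) (b (c (l 14194000) (l 14178344)) (l 14199152))) (c (l 14251120) (l 14235800))) (b (l 14283600) (l 14299624))) (b (l 14435920) (a (l 14604504) (l 14531728)))) (b (b (c (b (b (l 14068304) (c (l 14081832) (l 14067864))) (a (l 14151816) (l 14096688))) (b (b (c (l 14048000) (l 14039992)) (c (l 14058128) (l 14048216))) (b (b (l 14067216) (c (l 13867368) (l 14062144))) (l 14091672)))) (c (b (c (l 14182832) (a (l 14204096) (b (l 14153888) (l 14180648)))) (c (a (l 14138080) (b (l 14182856) (l 14279976))) (l 14230888))) (l 14161768))) (b (a (l 14376288) (l 14317416)) (l 14483216))))), by decide +kernel⟩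

def k9_pm_202 : ∃ t, chk3 f_pm_202 t 6 9 1 = true :=
  ⟨(b (b (a (a (b (c (l 14891016) (l 14824272)) (c (l 15250304) (l 15196600))) (b (c (l 14844696) (l 14776520)) (l 14942552))) (c (a (b (l 14709440) (l 14880440)) (b (l 14642440) (l 14781184))) (a (b (l 14636720) (l 14813768)) (b (l 14567464) (l 14711008))))) (a (b (a (c (l 15585728) (l 15543840)) (l 15106032)) (c (l 15680416) (l 15641888))) (a (c (a (l 15199384) (l 15092480)) (a (l 15143960) (l 15033272))) (a (l 14939368) (l 14888928))))) (b (a (b (c (l 15727952) (l 15800392)) (a (l 16056936) (l 15663616))) (a (a (c (l 15454840) (l 15408392)) (l 15309584)) (a (l 15226840) (l 3)))) (a (a (l 16009232) (a (l 15751488) (l 15635424))) (a (l 15546696) (l 15537816))))), by decide +kernel⟩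

def k10_pm_202 : ∃ t, chk3 f_pm_202 t 7 4 1 = true :=
  ⟨(a (a (b (b (b (c (b (l 247122472647) (l 14128416)) (c (b (b (l 13984872) (l 237995562439)) (l 237995686551)) (b (c (b (l 13949856) (l 13989328)) (b (c (l 13934016) (b (l 13912920) (l 13929192))) (c (l 13845728) (l 13960312)))) (c (b (c (l 14036992) (l 14025552)) (l 14068624)) (l 14023184))))) (a (c (c (l 14262976) (b (l 14193416) (l 242291026439))) (c (b (c (l 14171656) (b (l 13926920) (l 14172248))) (c (c (l 14256808) (l 14235376)) (l 14203224))) (l 14145376))) (l 3))) (a (a (c (b (c (b (l 14372960) (l 14441416)) (b (b (l 14339408) (l 14370472)) (l 14411984))) (l 3)) (l 14366336)) (l 3)) (l 3))) (l 3)) (l 3)) (l 3)), by decide +kernel⟩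

def k11_pm_202 : ∃ t, chk3 f_pm_202 t 1 5 1 = true :=
  ⟨(a (a (b (a (b (a (b (a (l 15523024) (b (l 15445536) (l 15374240))) (b (a (l 15475376) (l 15342272)) (l 15384168))) (b (l 15238832) (l 15191624))) (a (l 15478352) (b (a (l 15289776) (l 15172600)) (a (l 15357712) (l 15189424))))) (b (a (b (a (l 15092792) (l 14975088)) (a (b (l 15048488) (l 15021112)) (l 14862648))) (b (l 14709400) (b (l 14605272) (l 14560632)))) (b (a (l 14914064) (l 14575536)) (a (l 14916624) (l 14617960))))) (b (a (a (b (a (l 15690808) (b (l 15553600) (l 15588888))) (a (b (l 15779136) (l 15820424)) (l 15615824))) (b (l 15299584) (l 15321056))) (a (l 14956448) (l 14635816))) (a (a (l 15731440) (l 15321192)) (l 14772576)))) (b (a (b (a (a (b (l 14434128) (l 14343656)) (b (l 14632576) (l 14584016))) (b (l 15223552) (l 15427296))) (a (a (l 14411112) (l 14662360)) (l 15470152))) (b (a (a (l 16204344) (l 16590528)) (l 16254680)) (a (l 16312648) (l 16333536)))) (a (b (a (a (l 14418392) (l 14646192)) (l 15421016))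 (a (a (l 14377408) (l 14597608)) (l 15362280))) (b (a (l 16247872) (b (l 16513968) (l 16672960))) (a (b (l 16305152) (l 16200072)) (b (l 16772136) (l 16776552))))))) (a (b (a (c (b (a (l 15849224) (l 15877728)) (l 16062560)) (b (a (l 15821776) (l 15846128)) (l 16001400))) (b (c (l 15831896) (l 15798656)) (l 222430629271))) (b (a (a (l 16536800) (l 16517280)) (a (l 16497744) (l 2))) (c (l 227734174471) (l 301822362135)))) (l 3))), by decide +kernel⟩

def k12_pm_202 : ∃ t, chk3 f_pm_202 t 1 3 1 = true :=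
  ⟨(a (a (b (a (b (l 15522248) (l 15522248)) (b (l 14772512) (l 14772512))) (a (l 15522248) (c (b (l 14807016) (l 14807016)) (b (l 14737856) (l 14737856))))) (a (a (a (b (l 14377320) (b (c (l 14418616) (l 14335832)) (l 2))) (b (b (l 14597512) (b (l 14597512) (l 14597512))) (l 2))) (b (c (b (l 15302640) (l 15386528)) (b (l 15337712) (l 15337712))) (l 2))) (b (b (a (c (a (l 16089512) (l 16531096)) (l 16265312)) (l 16776552)) (a (c (l 16313056) (l 16296768)) (l 2))) (l 2)))) (b (b (c (l 412417523719) (l 444092907527)) (l 2)) (l 2))), by decide +kernel⟩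

theorem s13_pm_202 : ∃ t, chk3 f_pm_202 t 6 4 1 = true := ex3_b k8_pm_202 k9_pm_202

theorem s14_pm_202 : ∃ t, chk3 f_pm_202 t 3 4 1 = true := ex3_a s13_pm_202 k10_pm_202

theorem s15_pm_202 : ∃ t, chk3 f_pm_202 t 2 9 1 = true := ex3_a k6_pm_202 k7_pm_202

theorem s16_pm_202 : ∃ t, chk3 f_pm_202 t 5 16 1 = true := ex3_a k3_pm_202 k4_pm_202

theorem s17_pm_202 : ∃ t, chk3 f_pm_202 t 5 8 1 = true := ex3_b s16_pm_202 k5_pm_202

theorem s18_pm_202 : ∃ t, chk3 f_pm_202 t 4 16 1 = true := ex3_b k0_pm_202 k1_pm_202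

theorem s19_pm_202 : ∃ t, chk3 f_pm_202 t 4 8 1 = true := ex3_b s18_pm_202 k2_pm_202

theorem s20_pm_202 : ∃ t, chk3 f_pm_202 t 2 8 1 = true := ex3_a s19_pm_202 s17_pm_202

theorem s21_pm_202 : ∃ t, chk3 f_pm_202 t 2 4 1 = true := ex3_b s20_pm_202 s15_pm_202

theorem s22_pm_202 : ∃ t, chk3 f_pm_202 t 1 4 1 = true := ex3_a s21_pm_202 s14_pm_202

theorem s23_pm_202 : ∃ t, chk3 f_pm_202 t 1 2 1 = true := ex3_b s22_pm_202 k11_pm_202

theorem s24_pm_202 : ∃ t, chk3 f_pm_202 t 1 1 1 = true := ex3_b s23_pm_202 k12_pm_202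

theorem c_pm_202 : CertNX 1073741824 536870912 1073741824 536870912 1046898278 26843546 3 false true false .pp 2 0 2
    ndN5q2 ndN3q2 pcN0 Cut.none Ext.none :=
  certNX1 (fam := false) (s1 := true) (s2 := false) (a := 2) (b := 0) (c := 2) (cn := .pp) (n1 := ndN5q2) (n2 := ndN3q2) (pc := pcN0) (cut := Cut.none) (xt := Ext.none) (P1 := 1073741824) (W1 := 536870912) (P2 := 1073741824) (W2 := 536870912) (P3 := 1046898278) (W3 := 26843546) (N0 := 3)
    rfl (fun _ => rfl) s24_pm_202

noncomputable def f_pm_203 : ℕ → ℕ → ℕ → ℕ → Bool := onCell 1073741824 536870912 1610612736 536870912 1046898278 26843546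
    (rowNX 3 0 false true false .up 2 0 3 (qsf 1073741824 536870912 1610612736 536870912 0) ndN5q2 ndN3q3 pcN0 Cut.none Ext.none)

def k0_pm_203 : ∃ t, chk3 f_pm_203 t 1 1 1 = true :=
  ⟨(a (b (a (a (b (l 15522248) (l 2)) (b (b (a (l 14946144) (c (l 14644464) (l 14569608))) (c (a (l 14977656) (l 14644464)) (a (l 14914496) (l 14569608)))) (b (c (a (l 2) (l 14644464)) (l 14737856)) (l 2)))) (a (b (b (a (c (a (l 14418616) (l 14635016)) (a (l 14335832) (l 14559832))) (c (l 15386528) (l 15337712))) (a (c (a (l 14418616) (l 14635016)) (l 14448888)) (c (l 15386528) (l 15337712)))) (b (a (a (c (l 14418616) (l 14335832)) (l 14597512)) (c (l 15386528) (l 15337712))) (a (l 2) (c (l 15386528) (l 15337712))))) (b (b (a (a (l 16077472) (l 16359016)) (c (l 16776560) (l 16776544))) (a (c (l 16250144) (l 16275792)) (l 16776552))) (a (b (c (l 16271112) (l 16296768)) (c (l 16271112) (l 16296768))) (c (l 16776560) (l 16776544)))))) (a (l 2) (b (a (l 2) (a (l 2) (l 3))) (l 2)))) (b (a (a (b (b (a (c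 (l 16772168) (l 16771992)) (b (a (l 16706064) (l 16582480)) (l 16766504))) (a (l 16777216) (l 16777216))) (b (l 197736267783) (l 3))) (b (b (a (b (l 16269096) (l 3)) (l 3)) (l 3)) (l 3))) (b (l 3) (l 3))) (b (l 3) (l 3)))), by decide +kernel⟩

theorem c_pm_203 : CertNX 1073741824 536870912 1610612736 536870912 1046898278 26843546 3 false true false .up 2 0 3
    ndN5q2 ndN3q3 pcN0 Cut.none Ext.none :=
  certNX0 (fam := false) (s1 := true) (s2 := false) (a := 2) (b := 0) (c := 3) (cn := .up) (n1 := ndN5q2) (n2 := ndN3q3) (pc := pcN0) (cut := Cut.none) (xt := Ext.none) (P1 := 1073741824) (W1 := 536870912) (P2 := 1610612736) (W2 := 536870912) (P3 := 1046898278) (W3 := 26843546) (N0 := 3)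
    rfl k0_pm_203

noncomputable def f_pm_213 : ℕ → ℕ → ℕ → ℕ → Bool := onCell 1073741824 536870912 536870912 536870912 1046898278 26843546
    (rowNX 3 1 false true false .pnn 2 1 3 (qsf 1073741824 536870912 1610612736 536870912 1) ndN5q2 ndN3q3 pcN1 Cut.none Ext.none)

def k0_pm_213 : ∃ t, chk3 f_pm_213 t 2 2 1 = true :=
  ⟨(a (b (b (a (l 15522248) (c (l 14807016) (l 14737856))) (a (c (l 15501912) (l 15500560)) (c (l 14807016) (l 14737856)))) (a (b (c (l 15543856) (l 15500560)) (l 15522256)) (b (l 14772520) (l 14772552)))) (b (a (a (b (a (l 14377320) (l 14597512)) (a (l 14377320) (l 14597512))) (b (l 15257320) (l 15215384))) (a (b (l 16158128) (l 16263024)) (b (l 3) (l 3)))) (a (b (a (a (l 14377344) (l 14597552)) (l 15362224)) (a (a (l 14377360) (l 14602656)) (b (l 15368880) (l 15401584)))) (b (l 3) (l 3))))), by decide +kernel⟩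

def k1_pm_213 : ∃ t, chk3 f_pm_213 t 2 3 1 = true :=
  ⟨(a (b (b (a (b (l 15522256) (l 15508328)) (b (l 14777088) (a (l 14950816) (l 14646544)))) (a (b (l 15494208) (a (l 15649192) (b (l 15322360) (l 15346176)))) (b (a (l 14984976) (l 14667632)) (a (b (l 15016696) (l 15033208)) (b (l 14650712) (l 14525048)))))) (b (a (b (a (l 15560976) (l 15394488)) (a (l 15557056) (b (l 15548000) (l 15750544)))) (a (b (b (l 15107008) (l 15237672)) (b (l 15366488) (l 15550768))) (b (a (l 14758040) (l 14767992)) (l 531061983799)))) (b (a (b (a (l 15689288) (a (l 16036752) (l 16137120))) (a (b (l 15838904) (c (l 16291352) (l 15920240))) (b (l 15873680) (l 51638729207)))) (b (a (a (l 15903000) (l 2)) (l 2)) (l 2))) (a (b (c (b (c (a (a (l 16455408) (l 16631168)) (l 676020057127)) (l 44659396247)) (a (c (l 16507824) (b (l 16373880) (l 16275560))) (l 2))) (a (l 15972184) (l 16018552))) (a (c (b (l 16281288) (l 16394832)) (b (c (b (l 16199416) (c (l 16337376) (l 16161256))) (l 15884096)) (c (l 16342448)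 (b (l 15910768) (c (l 16042320) (l 15820936)))))) (l 2))) (l 2))))) (b (a (b (a (a (b (l 14396656) (l 14441280)) (b (l 14642968) (l 3))) (l 3)) (a (a (b (l 14414680) (l 3)) (l 3)) (l 3))) (l 3)) (a (b (a (l 3) (l 2)) (l 2)) (l 2)))), by decide +kernel⟩

def k2_pm_213 : ∃ t, chk3 f_pm_213 t 3 1 1 = true :=
  ⟨(b (a (b (l 3) (l 3)) (b (l 3) (a (b (l 3) (l 2)) (l 2)))) (a (b (a (b (l 3) (l 2)) (l 2)) (l 2)) (l 2))), by decide +kernel⟩

theorem s3_pm_213 : ∃ t, chk3 f_pm_213 t 2 1 1 = true := ex3_b k0_pm_213 k1_pm_213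

theorem s4_pm_213 : ∃ t, chk3 f_pm_213 t 1 1 1 = true := ex3_a s3_pm_213 k2_pm_213

theorem c_pm_213 : CertNX 1073741824 536870912 1610612736 536870912 1046898278 26843546 3 false true false .pnn 2 1 3
    ndN5q2 ndN3q3 pcN1 Cut.none Ext.none :=
  certNX1 (fam := false) (s1 := true) (s2 := false) (a := 2) (b := 1) (c := 3) (cn := .pnn) (n1 := ndN5q2) (n2 := ndN3q3) (pc := pcN1) (cut := Cut.none) (xt := Ext.none) (P1 := 1073741824) (W1 := 536870912) (P2 := 1610612736) (W2 := 536870912) (P3 := 1046898278) (W3 := 26843546) (N0 := 3)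
    rfl (fun _ => rfl) s4_pm_213

noncomputable def f_pm_303 : ℕ → ℕ → ℕ → ℕ → Bool := onCell 0 1230186008 1610612736 536870912 1046898278 26843546
    (rowNX 3 0 false true false .npn 3 0 3 (qsf 0 1230186008 1610612736 536870912 0) ndN5q3 ndN3q3 pcN0 Cut.none Ext.none)

def k0_pm_303 : ∃ t, chk3 f_pm_303 t 1 1 1 = true :=
  ⟨(a (l 3) (a (l 3) (b (l 3) (l 3)))), by decide +kernel⟩

theorem c_pm_303 : CertNX 0 1230186008 1610612736 536870912 1046898278 26843546 3 false true false .npn 3 0 3
    ndN5q3 ndN3q3 pcN0 Cut.none Ext.none :=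
  certNX0 (fam := false) (s1 := true) (s2 := false) (a := 3) (b := 0) (c := 3) (cn := .npn) (n1 := ndN5q3) (n2 := ndN3q3) (pc := pcN0) (cut := Cut.none) (xt := Ext.none) (P1 := 0) (W1 := 1230186008) (P2 := 1610612736) (W2 := 536870912) (P3 := 1046898278) (W3 := 26843546) (N0 := 3)
    rfl k0_pm_303

noncomputable def f_pm_313 : ℕ → ℕ → ℕ → ℕ → Bool := onCell 0 1230186008 1610612736 536870912 1046898278 26843546
    (rowNX 3 0 false true false .dn 3 1 3 (qsf 0 1230186008 1610612736 536870912 1) ndN5q3 ndN3q3 pcN1 Cut.none Ext.none)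

def k0_pm_313 : ∃ t, chk3 f_pm_313 t 1 1 1 = true :=
  ⟨(a (l 1) (b (l 1) (l 3))), by decide +kernel⟩

theorem c_pm_313 : CertNX 0 1230186008 1610612736 536870912 1046898278 26843546 3 false true false .dn 3 1 3
    ndN5q3 ndN3q3 pcN1 Cut.none Ext.none :=
  certNX0 (fam := false) (s1 := true) (s2 := false) (a := 3) (b := 1) (c := 3) (cn := .dn) (n1 := ndN5q3) (n2 := ndN3q3) (pc := pcN1) (cut := Cut.none) (xt := Ext.none) (P1 := 0) (W1 := 1230186008) (P2 := 1610612736) (W2 := 536870912) (P3 := 1046898278) (W3 := 26843546) (N0 := 3)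
    rfl k0_pm_313

noncomputable def f_mm_001 : ℕ → ℕ → ℕ → ℕ → Bool := onCell 0 536870912 0 536870912 1046898278 26843546
    (rowNX 3 1 false false false .up 0 0 1 (qsf 0 536870912 536870912 536870912 0) ndN5q0 ndN3q1 pcN0 Cut.none Ext.none)

def k0_mm_001 : ∃ t, chk3 f_mm_001 t 1 1 1 = true :=
  ⟨(l 3), by decide +kernel⟩

theorem c_mm_001 : CertNX 0 536870912 536870912 536870912 1046898278 26843546 3 false false false .up 0 0 1
    ndN5q0 ndN3q1 pcN0 Cut.none Ext.none :=
  certNX1 (fam := false) (s1 := false) (s2 := false) (a := 0) (b := 0) (c := 1) (cn := .up) (n1 := ndN5q0) (n2 := ndN3q1) (pc := pcN0) (cut := Cut.none) (xt := Ext.none) (P1 := 0) (W1 := 536870912) (P2 := 536870912) (W2 := 536870912) (P3 := 1046898278) (W3 := 26843546) (N0 := 3)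
    rfl (fun _ => rfl) k0_mm_001

noncomputable def f_mm_011 : ℕ → ℕ → ℕ → ℕ → Bool := onCell 0 536870912 536870912 536870912 1046898278 26843546
    (rowNX 3 1 false false false .pnn 0 1 1 (qsf 0 536870912 536870912 536870912 1) ndN5q0 ndN3q1 pcN1 Cut.none Ext.none)

def k0_mm_011 : ∃ t, chk3 f_mm_011 t 1 1 1 = true :=
  ⟨(l 3), by decide +kernel⟩

theorem c_mm_011 : CertNX 0 536870912 536870912 536870912 1046898278 26843546 3 false false false .pnn 0 1 1
    ndN5q0 ndN3q1 pcN1 Cut.none Ext.none :=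
  certNX1 (fam := false) (s1 := false) (s2 := false) (a := 0) (b := 1) (c := 1) (cn := .pnn) (n1 := ndN5q0) (n2 := ndN3q1) (pc := pcN1) (cut := Cut.none) (xt := Ext.none) (P1 := 0) (W1 := 536870912) (P2 := 536870912) (W2 := 536870912) (P3 := 1046898278) (W3 := 26843546) (N0 := 3)
    rfl (fun _ => rfl) k0_mm_011

noncomputable def f_mm_012 : ℕ → ℕ → ℕ → ℕ → Bool := onCell 0 536870912 1073741824 536870912 1046898278 26843546
    (rowNX 3 0 false false false .pnp 0 1 2 (qsf 0 536870912 1073741824 536870912 1) ndN5q0 ndN3q2 pcN1 Cut.none Ext.none)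

def k0_mm_012 : ∃ t, chk3 f_mm_012 t 1 1 1 = true :=
  ⟨(l 5), by decide +kernel⟩

theorem c_mm_012 : CertNX 0 536870912 1073741824 536870912 1046898278 26843546 3 false false false .pnp 0 1 2
    ndN5q0 ndN3q2 pcN1 Cut.none Ext.none :=
  certNX0 (fam := false) (s1 := false) (s2 := false) (a := 0) (b := 1) (c := 2) (cn := .pnp) (n1 := ndN5q0) (n2 := ndN3q2) (pc := pcN1) (cut := Cut.none) (xt := Ext.none) (P1 := 0) (W1 := 536870912) (P2 := 1073741824) (W2 := 536870912) (P3 := 1046898278) (W3 := 26843546) (N0 := 3)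
    rfl k0_mm_012

noncomputable def f_mm_022 : ℕ → ℕ → ℕ → ℕ → Bool := onCell 0 536870912 1073741824 536870912 1046898278 26843546
    (rowNX 3 0 false false false .pp 0 2 2 (qsf 0 536870912 1073741824 536870912 2) ndN5q0 ndN3q2 pcN2 Cut.none Ext.none)

def k0_mm_022 : ∃ t, chk3 f_mm_022 t 1 1 1 = true :=
  ⟨(l 5), by decide +kernel⟩

theorem c_mm_022 : CertNX 0 536870912 1073741824 536870912 1046898278 26843546 3 false false false .pp 0 2 2
    ndN5q0 ndN3q2 pcN2 Cut.none Ext.none :=
  certNX0 (fam := false) (s1 := false) (s2 := false) (a := 0) (b := 2) (c := 2) (cn := .pp) (n1 := ndN5q0) (n2 := ndN3q2) (pc := pcN2) (cut := Cut.none) (xt := Ext.none) (P1 := 0) (W1 := 536870912) (P2 := 1073741824) (W2 := 536870912) (P3 := 1046898278) (W3 := 26843546) (N0 := 3)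
    rfl k0_mm_022

noncomputable def f_mm_023 : ℕ → ℕ → ℕ → ℕ → Bool := onCell 0 536870912 1610612736 536870912 1046898278 26843546
    (rowNX 3 0 false false false .up 0 2 3 (qsf 0 536870912 1610612736 536870912 2) ndN5q0 ndN3q3 pcN2 Cut.none Ext.none)

def k0_mm_023 : ∃ t, chk3 f_mm_023 t 1 1 1 = true :=
  ⟨(l 5), by decide +kernel⟩

theorem c_mm_023 : CertNX 0 536870912 1610612736 536870912 1046898278 26843546 3 false false false .up 0 2 3
    ndN5q0 ndN3q3 pcN2 Cut.none Ext.none :=
  certNX0 (fam := false) (s1 := false) (s2 := false) (a := 0) (b := 2) (c := 3) (cn := .up) (n1 := ndN5q0) (n2 := ndN3q3) (pc := pcN2) (cut := Cut.none) (xt := Ext.none) (P1 := 0) (W1 := 536870912) (P2 := 1610612736) (W2 := 536870912) (P3 := 1046898278) (W3 := 26843546) (N0 := 3)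
    rfl k0_mm_023

noncomputable def f_mm_033 : ℕ → ℕ → ℕ → ℕ → Bool := onCell 0 536870912 1610612736 536870912 1046898278 26843546
    (rowNX 3 0 false false false .pnn 0 3 3 (qsf 0 536870912 1610612736 536870912 3) ndN5q0 ndN3q3 pcN3 Cut.none Ext.none)

def k0_mm_033 : ∃ t, chk3 f_mm_033 t 1 1 1 = true :=
  ⟨(l 5), by decide +kernel⟩

theorem c_mm_033 : CertNX 0 536870912 1610612736 536870912 1046898278 26843546 3 false false false .pnn 0 3 3
    ndN5q0 ndN3q3 pcN3 Cut.none Ext.none :=
  certNX0 (fam := false) (s1 := false) (s2 := false) (a := 0) (b := 3) (c := 3) (cn := .pnn) (n1 := ndN5q0) (n2 := ndN3q3) (pc := pcN3) (cut := Cut.none) (xt := Ext.none) (P1 := 0) (W1 := 536870912) (P2 := 1610612736) (W2 := 536870912) (P3 := 1046898278) (W3 := 26843546) (N0 := 3)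
    rfl k0_mm_033

noncomputable def f_mm_101 : ℕ → ℕ → ℕ → ℕ → Bool := onCell 536870912 469762048 536870912 536870912 1046898278 26843546
    (rowNX 3 0 false false false .npn 1 0 1 (qsf 536870912 469762048 536870912 536870912 0) ndN5q1 ndN3q1 pcN0 Cut.none Ext.none)

def k0_mm_101 : ∃ t, chk3 f_mm_101 t 1 1 1 = true :=
  ⟨(l 3), by decide +kernel⟩

theorem c_mm_101 : CertNX 536870912 469762048 536870912 536870912 1046898278 26843546 3 false false false .npn 1 0 1
    ndN5q1 ndN3q1 pcN0 Cut.none Ext.none :=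
  certNX0 (fam := false) (s1 := false) (s2 := false) (a := 1) (b := 0) (c := 1) (cn := .npn) (n1 := ndN5q1) (n2 := ndN3q1) (pc := pcN0) (cut := Cut.none) (xt := Ext.none) (P1 := 536870912) (W1 := 469762048) (P2 := 536870912) (W2 := 536870912) (P3 := 1046898278) (W3 := 26843546) (N0 := 3)
    rfl k0_mm_101

noncomputable def f_mm_102 : ℕ → ℕ → ℕ → ℕ → Bool := onCell 536870912 469762048 1073741824 536870912 1046898278 26843546
    (rowNX 3 0 false false false .npp 1 0 2 (qsf 536870912 469762048 1073741824 536870912 0) ndN5q1 ndN3q2 pcN0 Cut.none Ext.none)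

def k0_mm_102 : ∃ t, chk3 f_mm_102 t 1 1 1 = true :=
  ⟨(l 5), by decide +kernel⟩

theorem c_mm_102 : CertNX 536870912 469762048 1073741824 536870912 1046898278 26843546 3 false false false .npp 1 0 2
    ndN5q1 ndN3q2 pcN0 Cut.none Ext.none :=
  certNX0 (fam := false) (s1 := false) (s2 := false) (a := 1) (b := 0) (c := 2) (cn := .npp) (n1 := ndN5q1) (n2 := ndN3q2) (pc := pcN0) (cut := Cut.none) (xt := Ext.none) (P1 := 536870912) (W1 := 469762048) (P2 := 1073741824) (W2 := 536870912) (P3 := 1046898278) (W3 := 26843546) (N0 := 3)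
    rfl k0_mm_102

noncomputable def f_mm_112 : ℕ → ℕ → ℕ → ℕ → Bool := onCell 536870912 469762048 1073741824 536870912 1046898278 26843546
    (rowNX 3 0 false false false .dn 1 1 2 (qsf 536870912 469762048 1073741824 536870912 1) ndN5q1 ndN3q2 pcN1 Cut.none Ext.none)

def k0_mm_112 : ∃ t, chk3 f_mm_112 t 1 1 1 = true :=
  ⟨(l 5), by decide +kernel⟩

theorem c_mm_112 : CertNX 536870912 469762048 1073741824 536870912 1046898278 26843546 3 false false false .dn 1 1 2
    ndN5q1 ndN3q2 pcN1 Cut.none Ext.none :=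
  certNX0 (fam := false) (s1 := false) (s2 := false) (a := 1) (b := 1) (c := 2) (cn := .dn) (n1 := ndN5q1) (n2 := ndN3q2) (pc := pcN1) (cut := Cut.none) (xt := Ext.none) (P1 := 536870912) (W1 := 469762048) (P2 := 1073741824) (W2 := 536870912) (P3 := 1046898278) (W3 := 26843546) (N0 := 3)
    rfl k0_mm_112

noncomputable def f_mm_113 : ℕ → ℕ → ℕ → ℕ → Bool := onCell 536870912 469762048 1610612736 536870912 1046898278 26843546
    (rowNX 3 0 false false false .nn 1 1 3 (qsf 536870912 469762048 1610612736 536870912 1) ndN5q1 ndN3q3 pcN1 Cut.none Ext.none)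

def k0_mm_113 : ∃ t, chk3 f_mm_113 t 1 1 1 = true :=
  ⟨(l 5), by decide +kernel⟩

theorem c_mm_113 : CertNX 536870912 469762048 1610612736 536870912 1046898278 26843546 3 false false false .nn 1 1 3
    ndN5q1 ndN3q3 pcN1 Cut.none Ext.none :=
  certNX0 (fam := false) (s1 := false) (s2 := false) (a := 1) (b := 1) (c := 3) (cn := .nn) (n1 := ndN5q1) (n2 := ndN3q3) (pc := pcN1) (cut := Cut.none) (xt := Ext.none) (P1 := 536870912) (W1 := 469762048) (P2 := 1610612736) (W2 := 536870912) (P3 := 1046898278) (W3 := 26843546) (N0 := 3)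
    rfl k0_mm_113

noncomputable def f_mm_123 : ℕ → ℕ → ℕ → ℕ → Bool := onCell 536870912 469762048 1610612736 536870912 1046898278 26843546
    (rowNX 3 0 false false false .npn 1 2 3 (qsf 536870912 469762048 1610612736 536870912 2) ndN5q1 ndN3q3 pcN2 Cut.none Ext.none)

def k0_mm_123 : ∃ t, chk3 f_mm_123 t 1 1 1 = true :=
  ⟨(l 5), by decide +kernel⟩

theorem c_mm_123 : CertNX 536870912 469762048 1610612736 536870912 1046898278 26843546 3 false false false .npn 1 2 3
    ndN5q1 ndN3q3 pcN2 Cut.none Ext.none :=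
  certNX0 (fam := false) (s1 := false) (s2 := false) (a := 1) (b := 2) (c := 3) (cn := .npn) (n1 := ndN5q1) (n2 := ndN3q3) (pc := pcN2) (cut := Cut.none) (xt := Ext.none) (P1 := 536870912) (W1 := 469762048) (P2 := 1610612736) (W2 := 536870912) (P3 := 1046898278) (W3 := 26843546) (N0 := 3)
    rfl k0_mm_123

noncomputable def f_mm_133 : ℕ → ℕ → ℕ → ℕ → Bool := onCell 536870912 469762048 1610612736 536870912 1046898278 26843546
    (rowNX 3 0 false false false .dn 1 3 3 (qsf 536870912 469762048 1610612736 536870912 3) ndN5q1 ndN3q3 pcN3 Cut.none Ext.none)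

def k0_mm_133 : ∃ t, chk3 f_mm_133 t 1 1 1 = true :=
  ⟨(l 5), by decide +kernel⟩

theorem c_mm_133 : CertNX 536870912 469762048 1610612736 536870912 1046898278 26843546 3 false false false .dn 1 3 3
    ndN5q1 ndN3q3 pcN3 Cut.none Ext.none :=
  certNX0 (fam := false) (s1 := false) (s2 := false) (a := 1) (b := 3) (c := 3) (cn := .dn) (n1 := ndN5q1) (n2 := ndN3q3) (pc := pcN3) (cut := Cut.none) (xt := Ext.none) (P1 := 536870912) (W1 := 469762048) (P2 := 1610612736) (W2 := 536870912) (P3 := 1046898278) (W3 := 26843546) (N0 := 3)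
    rfl k0_mm_133

noncomputable def f_mm_202 : ℕ → ℕ → ℕ → ℕ → Bool := onCell 1073741824 536870912 1073741824 536870912 1046898278 26843546
    (rowNX 3 0 false false false .pp 2 0 2 (qsf 1073741824 536870912 1073741824 536870912 0) ndN5q2 ndN3q2 pcN0 Cut.none Ext.none)

def k0_mm_202 : ∃ t, chk3 f_mm_202 t 1 1 1 = true :=
  ⟨(l 3), by decide +kernel⟩

theorem c_mm_202 : CertNX 1073741824 536870912 1073741824 536870912 1046898278 26843546 3 false false false .pp 2 0 2
    ndN5q2 ndN3q2 pcN0 Cut.none Ext.none :=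
  certNX0 (fam := false) (s1 := false) (s2 := false) (a := 2) (b := 0) (c := 2) (cn := .pp) (n1 := ndN5q2) (n2 := ndN3q2) (pc := pcN0) (cut := Cut.none) (xt := Ext.none) (P1 := 1073741824) (W1 := 536870912) (P2 := 1073741824) (W2 := 536870912) (P3 := 1046898278) (W3 := 26843546) (N0 := 3)
    rfl k0_mm_202

noncomputable def f_mm_203 : ℕ → ℕ → ℕ → ℕ → Bool := onCell 1073741824 536870912 1610612736 536870912 1046898278 26843546
    (rowNX 3 0 false false false .up 2 0 3 (qsf 1073741824 536870912 1610612736 536870912 0) ndN5q2 ndN3q3 pcN0 Cut.none Ext.none)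

def k0_mm_203 : ∃ t, chk3 f_mm_203 t 1 1 1 = true :=
  ⟨(l 5), by decide +kernel⟩

theorem c_mm_203 : CertNX 1073741824 536870912 1610612736 536870912 1046898278 26843546 3 false false false .up 2 0 3
    ndN5q2 ndN3q3 pcN0 Cut.none Ext.none :=
  certNX0 (fam := false) (s1 := false) (s2 := false) (a := 2) (b := 0) (c := 3) (cn := .up) (n1 := ndN5q2) (n2 := ndN3q3) (pc := pcN0) (cut := Cut.none) (xt := Ext.none) (P1 := 1073741824) (W1 := 536870912) (P2 := 1610612736) (W2 := 536870912) (P3 := 1046898278) (W3 := 26843546) (N0 := 3)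
    rfl k0_mm_203

noncomputable def f_mm_213 : ℕ → ℕ → ℕ → ℕ → Bool := onCell 1073741824 536870912 1610612736 536870912 1046898278 26843546
    (rowNX 3 0 false false false .pnn 2 1 3 (qsf 1073741824 536870912 1610612736 536870912 1) ndN5q2 ndN3q3 pcN1 Cut.none Ext.none)

def k0_mm_213 : ∃ t, chk3 f_mm_213 t 1 1 1 = true :=
  ⟨(l 5), by decide +kernel⟩

theorem c_mm_213 : CertNX 1073741824 536870912 1610612736 536870912 1046898278 26843546 3 false false false .pnn 2 1 3
    ndN5q2 ndN3q3 pcN1 Cut.none Ext.none :=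
  certNX0 (fam := false) (s1 := false) (s2 := false) (a := 2) (b := 1) (c := 3) (cn := .pnn) (n1 := ndN5q2) (n2 := ndN3q3) (pc := pcN1) (cut := Cut.none) (xt := Ext.none) (P1 := 1073741824) (W1 := 536870912) (P2 := 1610612736) (W2 := 536870912) (P3 := 1046898278) (W3 := 26843546) (N0 := 3)
    rfl k0_mm_213

noncomputable def f_mm_303 : ℕ → ℕ → ℕ → ℕ → Bool := onCell 0 1230186008 1610612736 536870912 1046898278 26843546
    (rowNX 3 0 false false false .npn 3 0 3 (qsf 0 1230186008 1610612736 536870912 0) ndN5q3 ndN3q3 pcN0 Cut.none Ext.none)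

def k0_mm_303 : ∃ t, chk3 f_mm_303 t 1 1 1 = true :=
  ⟨(a (l 3) (l 3)), by decide +kernel⟩

theorem c_mm_303 : CertNX 0 1230186008 1610612736 536870912 1046898278 26843546 3 false false false .npn 3 0 3
    ndN5q3 ndN3q3 pcN0 Cut.none Ext.none :=
  certNX0 (fam := false) (s1 := false) (s2 := false) (a := 3) (b := 0) (c := 3) (cn := .npn) (n1 := ndN5q3) (n2 := ndN3q3) (pc := pcN0) (cut := Cut.none) (xt := Ext.none) (P1 := 0) (W1 := 1230186008) (P2 := 1610612736) (W2 := 536870912) (P3 := 1046898278) (W3 := 26843546) (N0 := 3)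
    rfl k0_mm_303

noncomputable def f_mm_313 : ℕ → ℕ → ℕ → ℕ → Bool := onCell 0 1230186008 1610612736 536870912 1046898278 26843546
    (rowNX 3 0 false false false .dn 3 1 3 (qsf 0 1230186008 1610612736 536870912 1) ndN5q3 ndN3q3 pcN1 Cut.none Ext.none)

def k0_mm_313 : ∃ t, chk3 f_mm_313 t 1 1 1 = true :=
  ⟨(a (l 1) (l 3)), by decide +kernel⟩

theorem c_mm_313 : CertNX 0 1230186008 1610612736 536870912 1046898278 26843546 3 false false false .dn 3 1 3
    ndN5q3 ndN3q3 pcN1 Cut.none Ext.none :=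
  certNX0 (fam := false) (s1 := false) (s2 := false) (a := 3) (b := 1) (c := 3) (cn := .dn) (n1 := ndN5q3) (n2 := ndN3q3) (pc := pcN1) (cut := Cut.none) (xt := Ext.none) (P1 := 0) (W1 := 1230186008) (P2 := 1610612736) (W2 := 536870912) (P3 := 1046898278) (W3 := 26843546) (N0 := 3)
    rfl k0_mm_313

end Pool.Agent.Strip051.G.IE1.Tab.C.NB53

namespace Pool.Agent.Strip051.G.IE1.Tab.C.NB55

open Pool.Agent.Strip051.PB Pool.Agent.Strip051.PB.T
open Pool.Agent.Strip051.G.IE1.Tab

noncomputable def f_pp_001 : ℕ → ℕ → ℕ → ℕ → Bool := onCell 0 536870912 536870912 469762048 1046898278 26843546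
    (rowNX 3 0 false true true .up 0 0 1 (qsf 0 536870912 536870912 469762048 0) ndN5q0 ndN5q1 pcN0 Cut.none Ext.none)

def k0_pp_001 : ∃ t, chk3 f_pp_001 t 1 1 1 = true :=
  ⟨(l 3), by decide +kernel⟩

theorem c_pp_001 : CertNX 0 536870912 536870912 469762048 1046898278 26843546 3 false true true .up 0 0 1
    ndN5q0 ndN5q1 pcN0 Cut.none Ext.none :=
  certNX0 (fam := false) (s1 := true) (s2 := true) (a := 0) (b := 0) (c := 1) (cn := .up) (n1 := ndN5q0) (n2 := ndN5q1) (pc := pcN0) (cut := Cut.none) (xt := Ext.none) (P1 := 0) (W1 := 536870912) (P2 := 536870912) (W2 := 469762048) (P3 := 1046898278) (W3 := 26843546) (N0 := 3)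
    rfl k0_pp_001

noncomputable def f_pp_011 : ℕ → ℕ → ℕ → ℕ → Bool := onCell 0 536870912 536870912 469762048 1046898278 26843546
    (rowNX 3 0 false true true .pnn 0 1 1 (qsf 0 536870912 536870912 469762048 1) ndN5q0 ndN5q1 pcN1 Cut.none Ext.none)

def k0_pp_011 : ∃ t, chk3 f_pp_011 t 1 1 1 = true :=
  ⟨(l 3), by decide +kernel⟩

theorem c_pp_011 : CertNX 0 536870912 536870912 469762048 1046898278 26843546 3 false true true .pnn 0 1 1
    ndN5q0 ndN5q1 pcN1 Cut.none Ext.none :=
  certNX0 (fam := false) (s1 := true) (s2 := true) (a := 0) (b := 1) (c := 1) (cn := .pnn) (n1 := ndN5q0) (n2 := ndN5q1) (pc := pcN1) (cut := Cut.none) (xt := Ext.none) (P1 := 0) (W1 := 536870912) (P2 := 536870912) (W2 := 469762048) (P3 := 1046898278) (W3 := 26843546) (N0 := 3)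
    rfl k0_pp_011

noncomputable def f_pp_012 : ℕ → ℕ → ℕ → ℕ → Bool := onCell 536870912 536870912 1073741824 536870912 1046898278 26843546
    (rowNX 3 2 false true true .pnp 0 1 2 (qsf 0 536870912 1073741824 536870912 1) ndN5q0 ndN5q2 pcN1 Cut.none Ext.none)

def k0_pp_012 : ∃ t, chk3 f_pp_012 t 2 1 1 = true :=
  ⟨(b (b (a (l 3) (b (l 3) (a (l 3) (l 409795765303)))) (a (b (l 3) (l 2)) (b (b (b (a (l 3) (l 14377320)) (a (l 14597512) (l 14597512))) (a (l 15236344) (l 15362176))) (b (a (l 16158128) (l 16242016)) (a (l 2) (l 16776552)))))) (a (l 2) (a (l 2) (b (l 16777216) (l 2))))), by decide +kernel⟩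

def k1_pp_012 : ∃ t, chk3 f_pp_012 t 6 2 1 = true :=
  ⟨(b (b (l 3) (a (b (l 3) (l 14607560)) (a (b (l 14946496) (l 14613688)) (b (a (l 491937462231) (b (l 15045904) (l 14892336))) (a (l 14621856) (l 14662608)))))) (b (a (b (b (l 14378648) (l 14599784)) (l 15261000)) (b (b (a (l 14392232) (l 14427640)) (a (l 14617984) (l 14657840))) (a (l 15390896) (l 15437120)))) (a (b (l 16289520) (l 16769144)) (b (a (l 16344424) (l 16180824)) (l 16541016))))), by decide +kernel⟩

def k2_pp_012 : ∃ t, chk3 f_pp_012 t 14 4 1 = true :=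
  ⟨(b (b (l 3) (a (l 338393240247) (b (l 3) (l 15452152)))) (a (b (c (l 15170576) (l 15141832)) (c (l 14834344) (l 14836888))) (b (c (l 15069696) (l 15021488)) (l 14292984)))), by decide +kernel⟩

def k3_pp_012 : ∃ t, chk3 f_pp_012 t 15 8 1 = true :=
  ⟨(a (b (l 3) (a (b (l 452747331591) (l 15267712)) (a (b (l 15693688) (l 15171840)) (b (c (l 15773544) (l 15738752)) (l 14950528))))) (b (b (l 3) (a (l 3) (a (l 3) (c (b (l 3) (l 16116368)) (c (l 16113760) (a (l 3) (l 472075944823))))))) (a (c (c (b (a (b (a (l 3) (l 178407011655)) (l 15789480)) (b (l 16088104) (a (l 15859664) (l 15894856)))) (a (l 15169144) (l 15481896))) (b (a (l 15738408) (b (l 16064664) (a (l 15844896) (l 15889096)))) (a (l 15332888) (l 15335960)))) (b (a (l 15672080) (b (l 16032888) (l 15821496))) (l 15355112))) (c (b (a (c (l 16011840) (l 15988696)) (l 16031048)) (a (b (c (l 15696784) (l 15684408)) (l 15434864)) (b (l 15736136) (l 15523072)))) (a (b (c (a (l 15970464) (l 15967960)) (l 15953216)) (c (a (l 15509512)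 (b (l 15602232) (l 15429128))) (l 15498024))) (b (c (l 15980048) (a (l 15957248) (l 15761296))) (c (b (l 15702872) (l 15491176)) (a (b (l 15674192) (l 15446904)) (c (l 15601480) (b (l 15681584) (l 15487240))))))))))), by decide +kernel⟩

def k4_pp_012 : ∃ t, chk3 f_pp_012 t 15 9 1 = true :=
  ⟨(a (a (b (l 14823736) (l 14296384)) (a (b (l 14672592) (l 14139504)) (b (c (b (l 14794856) (l 14505256)) (l 14574216)) (c (l 14112096) (l 14015968))))) (a (c (b (a (c (b (a (l 14850216) (l 14885896)) (l 14522296)) (l 14646320)) (c (b (l 14939088) (l 14504840)) (b (l 14761864) (a (l 14463272) (l 14467224))))) (c (a (c (l 14135656) (l 14104112)) (l 14080032)) (a (l 14056008) (c (l 14049008) (l 14019424))))) (b (b (l 14813848) (l 14401904)) (l 13966312))) (b (c (a (b (l 15020488) (c (l 14523272) (l 14490568))) (b (l 15126800) (l 14578560))) (a (c (a (l 14527016) (c (l 14741656) (l 14724696))) (l 14676704)) (c (l 14784128) (a (l 14608976) (c (l 14803848) (l 14659696)))))) (c (a (l 14017408) (l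 13993112)) (a (c (c (l 13956944) (l 13932248)) (l 13892000)) (c (l 13918728) (a (l 13863864) (l 13627824)))))))), by decide +kernel⟩

def k5_pp_012 : ∃ t, chk3 f_pp_012 t 7 5 1 = true :=
  ⟨(a (b (b (b (a (l 14613352) (l 14214448)) (a (l 14785176) (l 14343360))) (a (l 15369560) (l 14945696))) (b (a (l 16055192) (l 15690744)) (l 16079984))) (a (b (b (a (b (l 13942208) (l 14037608)) (b (c (l 13746552) (l 13689192)) (c (l 13896240) (l 13798256)))) (a (l 14617056) (a (l 14455424) (l 14253392)))) (a (b (l 15403992) (l 15793728)) (b (c (l 15107552) (l 15179616)) (l 15587760)))) (b (a (c (b (b (c (a (l 13748808) (l 13696776)) (a (l 13681696) (l 13641384))) (c (a (l 13854760) (l 13801584)) (l 13768952))) (c (a (l 14387944) (l 14364496)) (a (l 14357256) (l 14320224)))) (b (b (l 13573128) (l 13682864)) (l 14268480))) (c (b (b (l 13599280) (l 13698448)) (l 14089376)) (b (b (a (c (l 13530856) (l 13472680)) (c (l 13489552) (l 13427648))) (a (l 13558592) (c (l 13587768) (l 13527496)))) (a (c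 (l 14228120) (l 14181736)) (c (l 14187512) (a (l 14147936) (l 14128584))))))) (a (c (b (a (c (l 15017048) (l 15108784)) (c (l 15080704) (l 15050072))) (c (a (l 15553352) (l 15481784)) (l 15494680))) (b (l 15035904) (l 15460848))) (c (b (a (l 15012272) (l 14970584)) (l 15362624)) (b (a (c (l 14963816) (l 14931376)) (c (l 14921656) (a (l 14895096) (l 14877688)))) (a (l 15098384) (c (l 15289368) (l 15179616))))))))), by decide +kernel⟩

def k6_pp_012 : ∃ t, chk3 f_pp_012 t 3 3 1 = true :=
  ⟨(b (a (a (l 16764408) (a (l 16695272) (a (l 16649272) (l 16560208)))) (a (a (l 16318280) (l 15989784)) (b (a (a (l 15764728) (l 15350144)) (l 15360840)) (l 15456264)))) (a (a (l 2) (l 16603528)) (a (l 16067360) (l 15360640)))), by decide +kernel⟩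

theorem s7_pp_012 : ∃ t, chk3 f_pp_012 t 15 4 1 = true := ex3_b k3_pp_012 k4_pp_012

theorem s8_pp_012 : ∃ t, chk3 f_pp_012 t 7 4 1 = true := ex3_a k2_pp_012 s7_pp_012

theorem s9_pp_012 : ∃ t, chk3 f_pp_012 t 7 2 1 = true := ex3_b s8_pp_012 k5_pp_012

theorem s10_pp_012 : ∃ t, chk3 f_pp_012 t 3 2 1 = true := ex3_a k1_pp_012 s9_pp_012

theorem s11_pp_012 : ∃ t, chk3 f_pp_012 t 3 1 1 = true := ex3_b s10_pp_012 k6_pp_012

theorem s12_pp_012 : ∃ t, chk3 f_pp_012 t 1 1 1 = true := ex3_a k0_pp_012 s11_pp_012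

theorem c_pp_012 : CertNX 0 536870912 1073741824 536870912 1046898278 26843546 3 false true true .pnp 0 1 2
    ndN5q0 ndN5q2 pcN1 Cut.none Ext.none :=
  certNX2 (fam := false) (s1 := true) (s2 := true) (a := 0) (b := 1) (c := 2) (cn := .pnp) (n1 := ndN5q0) (n2 := ndN5q2) (pc := pcN1) (cut := Cut.none) (xt := Ext.none) (P1 := 0) (W1 := 536870912) (P2 := 1073741824) (W2 := 536870912) (P3 := 1046898278) (W3 := 26843546) (N0 := 3)
    rfl (fun _ => rfl) s12_pp_012

noncomputable def f_pp_022 : ℕ → ℕ → ℕ → ℕ → Bool := onCell 0 536870912 1073741824 536870912 1046898278 26843546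
    (rowNX 3 1 false true true .pp 0 2 2 (qsf 0 536870912 1073741824 536870912 2) ndN5q0 ndN5q2 pcN2 Cut.none Ext.none)

def k0_pp_022 : ∃ t, chk3 f_pp_022 t 64 8 1 = true :=
  ⟨(b (b (l 3) (c (b (b (b (l 3) (c (l 16721048) (c (l 16471776) (l 16522224)))) (c (c (l 16709856) (b (l 16717624) (l 16454272))) (c (b (c (l 16706200) (l 16681056)) (l 16666016)) (l 16657856)))) (c (b (c (b (l 16629072) (l 16434544)) (l 16472064)) (c (l 16471584) (l 16614664))) (l 16540928))) (c (a (l 186998169783) (c (l 16465008) (b (l 16608224) (l 16492512)))) (a (c (l 167133992295) (c (l 160691541255) (l 149417266183))) (c (l 16568824) (l 16555592)))))) (b (c (b (b (l 16520536) (l 16537720)) (c (l 16519432) (l 16349400))) (b (c (a (l 16557512) (l 16263936)) (a (c (l 16544896) (a (l 16562760) (l 16514048))) (l 16320080))) (c (a (l 16509008) (l 16339704)) (a (a (l 16523648) (l 16378320)) (l 16374232))))) (c (b (a (l 16481288) (l 16346680)) (c (l 16361440) (l 16332288))) (a (b (c (l 16435728) (a (c (l 16470416)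 (l 16399544)) (l 16260152))) (c (l 16371960) (l 16186944))) (c (l 16193336) (l 16226368)))))), by decide +kernel⟩

def k1_pp_022 : ∃ t, chk3 f_pp_022 t 65 8 1 = true :=
  ⟨(b (b (b (l 3) (b (l 3) (c (c (a (l 16582776) (l 16518968)) (c (l 16575024) (c (l 16583800) (b (l 16600256) (l 16563296))))) (c (c (b (c (l 16492376) (c (l 16545656) (l 16574600))) (c (l 16568504) (l 16555472))) (l 16523536)) (l 16515960))))) (c (b (c (c (a (l 16554456) (l 16411472)) (b (l 16540760) (a (b (l 16556664) (c (l 16542520) (l 16526512))) (l 16486648)))) (c (b (b (l 16563936) (c (l 16549656) (l 16544936))) (c (b (l 16522464) (l 16467832)) (l 16479496))) (b (c (b (l 16562008) (l 16487176)) (l 16541752)) (l 16492080)))) (a (c (b (c (l 16520728) (l 16450160)) (l 16332352)) (l 16460984)) (c (b (c (l 16338696) (l 16435336)) (l 16347040)) (l 16402584)))) (c (b (c (l 16504440) (l 16421032)) (a (l 16453016) (l 16358160))) (l 236926610087)))) (b (c (b (a (c (l 16249656) (l 16269576)) (c (l 16322560) (l 16187728)))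 (c (a (l 16329760) (l 16251552)) (a (l 16311928) (l 16246280)))) (b (c (b (l 16314280) (l 16307752)) (l 16144408)) (c (l 16242688) (l 16232192)))) (c (c (b (l 16111344) (l 16063536)) (a (l 16204848) (l 16131888))) (c (l 16068552) (l 16119888))))), by decide +kernel⟩

def k2_pp_022 : ∃ t, chk3 f_pp_022 t 33 8 1 = true :=
  ⟨(b (b (b (b (a (l 3) (c (l 16326840) (c (l 16264720) (c (l 16150336) (b (c (l 16257736) (b (l 16110848) (l 16248232))) (c (a (l 459727828647) (l 16025504)) (l 16234976))))))) (c (a (c (l 16504144) (l 16398456)) (l 16069360)) (c (c (a (l 16441504) (l 16242232)) (c (l 474223396471) (l 472612766871))) (c (b (c (l 16307976) (l 464022828935)) (l 466170279959)) (l 16261448))))) (c (b (a (c (l 16368856) (l 16307928)) (c (l 16256192) (l 16271048))) (c (a (a (l 16476952) (l 16442248)) (l 16314992)) (c (l 16160392) (b (l 16329472) (l 16085904))))) (c (b (c (a (c (l 16424952) (l 477981640439)) (l 16075200)) (c (b (l 16188304) (l 16082424)) (b (l 16111808) (l 16275320))))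 (c (b (c (l 16201168) (l 16076552)) (l 16124864)) (l 16251240))) (c (l 16066192) (l 16247616))))) (c (c (b (a (b (l 16314744) (c (l 16420064) (c (l 16380288) (l 16242720)))) (b (l 16299568) (l 16117608))) (b (a (a (c (l 16258312) (l 16395560)) (l 16346688)) (l 16135872)) (a (l 16318304) (l 16167592)))) (b (a (c (b (c (l 16396872) (l 16316792)) (c (l 16224688) (l 16367880))) (b (l 16216360) (l 16332888))) (c (l 16167648) (l 16154984))) (l 15974600))) (c (a (b (l 16250432) (l 16209088)) (l 15922152)) (l 16019560)))) (a (c (b (c (l 15975616) (b (l 16185144) (l 16105584))) (c (b (l 16069256) (l 15977720)) (l 15986368))) (b (l 15965424) (l 15917160))) (b (c (c (l 15851216) (b (l 15978512) (l 15888168))) (c (l 15873624) (l 15853880))) (c (b (l 15620336) (l 15553520)) (c (l 15623504) (l 15693000)))))), by decide +kernel⟩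

def k3_pp_022 : ∃ t, chk3 f_pp_022 t 17 8 1 = true :=
  ⟨(a (b (b (c (b (c (l 16090136) (a (l 16116392) (l 15959232))) (c (l 16062192) (c (l 16005768) (l 15973312)))) (b (c (b (a (l 16101760) (l 15951760)) (c (l 16013928) (l 16006392))) (b (b (c (l 16023296) (l 16006504)) (c (l 16010504) (l 15987280))) (c (l 15975840) (l 15949496)))) (c (l 15819624) (l 15891280)))) (c (c (l 15921592) (l 15783512)) (b (c (l 15834216) (l 15797264)) (l 15717040)))) (c (c (b (l 15730848) (l 15351872)) (b (c (l 15649720) (l 15615640)) (a (l 15547368) (l 15339392)))) (b (l 15560016) (c (l 15385352) (l 15396312))))) (b (c (b (c (b (l 15763040) (a (l 15787976) (l 15618632))) (b (c (l 15739792) (l 15727856)) (c (l 15673848) (l 15651984)))) (c (b (l 15621904) (l 15515024)) (l 15499064))) (b (c (b (a (b (l 15781496) (l 15733112)) (l 15632096)) (l 15606464)) (l 15455368)) (c (l 15402560) (l 15413744)))) (c (b (c (l 15333296) (c (l 15277760) (l 15265352))) (c (c (l 15118824) (b (l 15135152) (l 15028096)))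 (c (l 15063928) (l 15074064)))) (b (l 15234296) (b (l 15093000) (l 14959472)))))), by decide +kernel⟩

def k4_pp_022 : ∃ t, chk3 f_pp_022 t 9 8 1 = true :=
  ⟨(b (a (c (b (c (b (a (l 15358632) (l 14870656)) (a (b (l 15285536) (l 15263696)) (l 14787944))) (a (c (b (l 15334464) (l 15257104)) (l 15281320)) (l 14790848))) (a (b (c (l 15188320) (l 15130296)) (l 15051296)) (l 14588144))) (b (a (c (l 15228024) (l 15144848)) (b (l 14778504) (l 14665920))) (a (l 14999144) (l 14475592)))) (b (c (b (a (l 14424296) (l 14181424)) (c (a (l 14345240) (l 14089152)) (l 14162992))) (b (c (l 14230824) (l 14177248)) (c (l 14103064) (l 14042040)))) (c (a (c (l 14164632) (l 14099264)) (b (a (l 13990272) (l 13964064)) (a (l 13948888) (l 14080024)))) (a (l 14008056) (b (l 13867888) (l 13906328)))))) (a (c (b (c (a (l 14887632) (l 14365056)) (l 14521432)) (a (c (c (b (l 14715792) (l 14596072)) (b (l 14686944) (l 14571448))) (l 14595576)) (b (a (l 14276592) (l 14110960)) (a (l 14251448) (l 14244616)))))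 (b (a (l 14767512) (l 14229448)) (a (l 14538664) (b (l 14113376) (l 14169840))))) (b (a (c (b (a (l 14018384) (l 13941992)) (a (l 13920936) (l 14065608))) (a (l 13904016) (l 13904360))) (c (l 14251920) (l 14150424))) (c (c (a (l 14303112) (l 14611208)) (l 14414664)) (l 14351776))))), by decide +kernel⟩

def k5_pp_022 : ∃ t, chk3 f_pp_022 t 5 8 1 = true :=
  ⟨(a (b (b (a (c (a (b (a (l 14020424) (l 14011984)) (a (c (l 14013088) (l 13957904)) (l 14130968))) (b (l 14279424) (l 14446920))) (a (b (c (l 13953568) (l 13896832)) (l 13958520)) (b (l 14182360) (l 14353808)))) (a (c (b (l 14722296) (l 14858312)) (b (l 14643560) (l 14785328))) (l 15122952))) (c (a (c (l 14467352) (l 14461104)) (a (l 15047272) (l 15378224))) (a (l 14390648) (l 15011880)))) (a (a (c (b (l 14609864) (l 14900352)) (l 14683392)) (c (b (l 14949432) (l 14981312)) (l 14801272))) (a (a (c (b (l 15199344) (l 15188608)) (l 14995592)) (l 15376440)) (l 15427600)))) (a (b (b (l 15324584) (l 15554664)) (l 15351440)) (l 15387008))),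 by decide +kernel⟩

def k6_pp_022 : ∃ t, chk3 f_pp_022 t 8 18 1 = true :=
  ⟨(a (c (a (a (b (l 16315192) (l 16407704)) (b (c (l 16123816) (l 16103368)) (c (l 16211272) (l 16213408)))) (a (b (c (l 15977272) (l 15948816)) (c (l 16072992) (l 16005280))) (b (c (l 15797688) (l 15731368)) (c (l 15861840) (l 15798008))))) (a (a (c (b (a (l 16360288) (l 16251560)) (l 16320408)) (b (a (c (l 16346608) (l 16296592)) (l 16242312)) (a (l 16311632) (l 16323592)))) (b (c (l 16113024) (l 16080968)) (l 15964968))) (a (c (c (l 15789016) (b (l 15650792) (a (l 16039392) (l 15935560)))) (b (l 15731688) (c (l 15900416) (l 15941272)))) (b (c (c (l 15687504) (l 15680136)) (l 15501112)) (c (c (l 15757384) (c (l 15745920) (l 15691416))) (c (l 15644112) (l 15736136))))))) (a (c (c (b (l 15440512) (l 15463312)) (c (b (l 15389256) (l 15316152)) (a (l 15498792) (b (l 15248272) (l 15263736))))) (c (b (b (l 15187296) (c (l 15115376) (l 15371328))) (c (a (l 15490976) (a (l 15325608) (l 15190528))) (a (b (l 15508384)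 (l 15305256)) (l 15239448)))) (b (l 15250952) (b (l 15361552) (l 15348920))))) (c (b (c (a (l 15087384) (c (l 14881976) (l 14869480))) (c (l 14750888) (a (l 15050848) (l 14833824)))) (c (a (b (l 15070248) (c (l 15174368) (l 15135400))) (b (c (l 14944784) (l 14937640)) (c (l 15172432) (l 15164392)))) (a (c (b (l 15049240) (l 15134072)) (b (l 15038712) (l 15109992))) (l 15031880)))) (b (l 14899376) (b (a (l 14993512) (l 14856800)) (a (l 15075032) (l 15090912))))))), by decide +kernel⟩

def k7_pp_022 : ∃ t, chk3 f_pp_022 t 16 19 1 = true :=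
  ⟨(c (a (a (b (b (l 16457984) (l 16358040)) (l 16056344)) (a (b (b (l 16269120) (l 16206584)) (l 15937264)) (b (b (l 16169648) (l 16124776)) (c (l 15844824) (l 15853800))))) (b (a (b (c (l 16050520) (l 15984800)) (c (l 16013024) (l 15987672))) (b (c (l 15887640) (l 15826840)) (c (l 15752688) (l 15690552)))) (a (c (b (l 15814248) (l 15701264)) (b (l 15786440) (l 15649240))) (c (l 15537352) (l 15538656))))) (a (b (a (b (c (l 16352256) (c (l 16299936) (l 16272064))) (c (l 16334104) (a (l 16324216) (l 16275728)))) (b (c (l 16247792) (l 16241696)) (l 16004616))) (a (a (c (l 16118008) (c (l 16103104) (l 16010176))) (c (l 16013864) (l 16001736))) (a (l 15832400) (c (l 15821640) (c (c (l 15638808) (l 15769784)) (l 15776888)))))) (b (b (c (a (a (l 16121912) (l 15971376)) (c (l 15786800) (a (l 15843664) (b (l 15700216) (l 15553368))))) (a (b (c (l 16028840) (l 16027352)) (b (a (l 15881192) (l 15967912)) (a (c (l 16103768) (l 16094408)) (l 15770536)))) (c (b (l 15779064) (b (l 15791952)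 (l 15655080))) (c (l 15695112) (l 15756216))))) (c (a (a (l 16004696) (l 15859464)) (c (l 15645456) (c (l 15626544) (l 15478832)))) (a (a (c (l 15963528) (l 15972832)) (l 15667768)) (c (l 15465408) (l 15617328))))) (a (c (a (b (l 15803992) (l 15627352)) (b (l 15651880) (c (l 15587896) (l 15559832)))) (c (b (a (l 15776744) (l 15633824)) (a (l 15366160) (b (l 15549120) (l 15595720)))) (b (l 15610728) (a (l 15603400) (l 15580728))))) (c (b (c (l 15527248) (a (l 15528176) (c (l 15492296) (l 15494688)))) (c (l 15585152) (c (l 15587824) (l 15607120)))) (a (c (b (c (l 15393192) (l 15552184)) (l 15618208)) (l 15543544)) (l 15530608))))))), by decide +kernel⟩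

def k8_pp_022 : ∃ t, chk3 f_pp_022 t 17 19 1 = true :=
  ⟨(a (b (c (c (b (a (l 15598624) (b (l 15356896) (l 15432304))) (a (l 15555240) (l 15511240))) (b (a (c (l 15548968) (l 15511528)) (c (b (l 15298464) (l 15376072)) (b (l 15299680) (b (l 15351760) (l 15397968))))) (a (c (l 15505864) (l 15465184)) (c (l 15472072) (l 15477864))))) (c (c (b (a (b (l 15505632) (b (l 15508440) (l 15494312))) (b (a (l 15318288) (l 15232464)) (l 15358256))) (a (a (l 15468816) (l 15441280)) (l 15451768))) (a (a (b (c (l 15572312) (l 15338192)) (c (l 15472696) (l 15458400))) (l 15434728)) (l 15142464))) (b (a (l 15480584) (l 15303752)) (l 15443632)))) (c (c (c (l 15699824) (l 15645744)) (c (a (l 15610416) (l 15664720)) (a (l 15591520) (l 15662256)))) (c (c (a (c (l 15596296) (l 15596552)) (l 15635080)) (l 15601064)) (l 15587384)))) (c (c (b (b (c (a (l 15389088) (l 15264440)) (a (l 15263592) (l 15435816))) (c (l 15590272) (l 15592144))) (c (a (l 15732472) (l 15779048)) (l 15593544))) (b (c (b (a (l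 15179560) (l 15417744)) (l 15573072)) (l 15462032)) (l 15718592))) (b (b (l 15346736) (l 15522312)) (l 15694232)))), by decide +kernel⟩

def k9_pp_022 : ∃ t, chk3 f_pp_022 t 9 9 1 = true :=
  ⟨(b (a (c (a (c (b (a (c (b (l 14658144) (l 14725616)) (l 14684952)) (l 14581832)) (c (l 14983512) (l 15061504))) (b (b (l 14531136) (l 14668512)) (l 15039744))) (b (l 14578384) (l 15059896))) (b (a (b (l 14304904) (l 14509024)) (l 14501272)) (a (l 14995432) (l 15000792)))) (c (b (a (l 14623152) (l 14930928)) (a (l 15068032) (l 15250384))) (b (a (l 14612416) (l 14866296)) (a (l 15030656) (l 15198376))))) (a (c (b (b (c (l 15419128) (l 15396656)) (l 15546784)) (c (l 15698672) (l 15682008))) (b (b (a (l 15387080) (l 15331848)) (l 15507136)) (l 15530632))) (a (b (c (b (l 15349648) (l 15461128)) (l 15192480)) (c (l 15412680) (l 15455008))) (b (b (c (l 15424376) (l 15379536)) (l 15169200)) (c (l 15270488) (l 15220768)))))), by decide +kernel⟩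

def k10_pp_022 : ∃ t, chk3 f_pp_022 t 5 9 1 = true :=
  ⟨(a (a (b (b (a (c (l 15174208) (l 15118952)) (c (b (l 15335184) (l 15352512)) (l 15259024))) (a (c (b (l 15333152) (l 15338560)) (l 15268640)) (a (c (l 15277104) (l 15226512)) (l 15192520)))) (a (b (b (c (l 15272072) (l 15221960)) (c (l 15158824) (l 15104352))) (c (l 15007800) (l 14947672))) (l 14943168))) (l 15002952)) (l 14818688)), by decide +kernel⟩

def k11_pp_022 : ∃ t, chk3 f_pp_022 t 3 4 1 = true :=
  ⟨(b (a (a (l 15304272) (l 15197456)) (l 15039744)) (a (l 14643312) (l 14802064))), by decide +kernel⟩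

def k12_pp_022 : ∃ t, chk3 f_pp_022 t 4 40 1 = true :=
  ⟨(a (a (c (a (a (b (l 15828440) (l 15741576)) (a (b (l 15700232) (l 15741864)) (c (l 15692320) (l 15699600)))) (c (a (l 15818096) (l 15875808)) (a (l 15790632) (l 15718952)))) (a (b (a (c (l 15791688) (a (l 15819584) (l 15719264))) (a (l 15628960) (c (l 15669080) (c (a (l 15625736) (l 15593480)) (l 15604616))))) (a (a (c (l 15693368) (a (l 15668576) (l 15644584))) (c (l 15680248) (l 15662552))) (c (a (l 15729456) (l 15786736)) (c (c (l 15723648) (l 15583992)) (l 15651600))))) (c (a (c (l 15753024) (a (c (l 15724976) (l 15712408)) (c (l 15731904) (l 15603880)))) (c (c (l 15777712) (l 15780712)) (c (a (l 15766288) (l 15792104)) (l 15677688)))) (a (c (c (l 15572512) (l 15730512)) (l 15724552)) (l 15760472))))) (c (a (c (c (l 15896752) (l 15686416)) (c (a (l 15843056) (l 15897072)) (a (l 15781992) (l 15866480)))) (c (a (c (l 15953392) (l 15930032)) (l 15951224)) (l 15922040))) (c (a (a (a (c (l 15829864) (l 15803872)) (l 15827864))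 (l 15857088)) (l 15910248)) (l 15866392)))) (a (c (a (l 15910296) (l 15575688)) (a (l 15886528) (l 15690720))) (c (a (l 15357776) (l 15004296)) (a (l 15311768) (l 14945384))))), by decide +kernel⟩

def k13_pp_022 : ∃ t, chk3 f_pp_022 t 8 41 1 = true :=
  ⟨(a (c (a (b (a (l 15816224) (c (l 15875504) (l 15766784))) (b (a (l 15931632) (a (l 15939824) (l 15871848))) (a (b (l 16008448) (l 15971048)) (a (b (l 16096536) (l 16152704)) (l 16165976))))) (c (b (a (l 16010816) (l 16073376)) (a (l 16197128) (l 16274992))) (b (a (l 15988792) (c (l 16035704) (l 15999696))) (a (l 16179304) (c (l 16231904) (l 15985344)))))) (a (b (a (a (l 15649312) (l 15647008)) (c (a (l 15878664) (l 15912104)) (a (c (l 15839776) (l 15840392)) (l 15730688)))) (b (a (a (l 15706152) (l 15684280)) (c (a (l 15997928) (l 16032552)) (c (a (l 15825320) (l 15859624)) (l 15787376)))) (a (a (b (l 15925384) (c (l 16026528) (l 15840592))) (c (b (l 16016920) (l 16089272)) (b (l 15846856) (c (l 16023880) (l 16068584))))) (b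 (c (a (l 16094488) (l 16129136)) (a (l 15985016) (l 16074176))) (c (l 16036600) (l 16149096)))))) (c (a (b (c (l 15944584) (a (l 15914584) (l 15758624))) (c (l 15885360) (b (b (c (l 16030720) (l 15993888)) (l 16113816)) (l 16222376)))) (b (c (c (l 15997176) (l 15998464)) (b (l 15889192) (l 16025040))) (c (a (b (l 16125888) (l 16265264)) (l 16214816)) (l 16193880)))) (c (b (l 15754384) (b (b (l 16005416) (l 16150336)) (l 16255688))) (l 15870656))))) (c (c (b (a (a (l 16083528) (l 16024512)) (c (l 16180808) (l 16153816))) (a (b (a (l 16234616) (l 16044864)) (l 16346672)) (l 16377952))) (a (a (b (c (l 16064176) (l 16017856)) (c (l 16230224) (b (l 16205608) (l 16338608)))) (l 16206368)) (l 16085016))) (b (a (l 16027400) (l 16133424)) (a (l 16286520) (l 16387288))))), by decide +kernel⟩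

def k14_pp_022 : ∃ t, chk3 f_pp_022 t 9 41 1 = true :=
  ⟨(a (c (b (a (l 16117072) (l 15781928)) (a (l 16313672) (l 15905680))) (b (a (l 16102232) (l 15752928)) (a (l 16265160) (l 15881424)))) (b (a (l 15071976) (c (l 15013496) (l 14954424))) (a (c (l 15489832) (l 15448752)) (c (l 15233744) (l 15182552))))), by decide +kernel⟩

def k15_pp_022 : ∃ t, chk3 f_pp_022 t 4 21 1 = true :=
  ⟨(b (a (a (c (a (a (c (l 16369928) (l 16277968)) (c (l 16221000) (l 16081192))) (c (a (l 16164040) (l 16078128)) (a (c (l 16163520) (l 16193672)) (c (l 16115512) (l 16127048))))) (a (a (a (b (l 16141880) (c (l 16276816) (a (l 16299448) (l 16157408)))) (c (l 16119696) (c (l 16145704) (l 16334616)))) (c (c (b (l 16347304) (l 16127928)) (b (l 16125640) (l 16158768))) (b (l 16201464) (l 16138176)))) (c (b (c (a (l 16271856) (l 16257008)) (l 16143504)) (a (l 15966176) (l 15996560))) (l 15988664)))) (c (a (c (c (l 15842528) (l 15792616)) (c (a (l 16050416) (l 16009512)) (l 16044120))) (c (l 15947808) (l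 15993888))) (a (l 16040560) (b (l 16079296) (l 15842520))))) (a (c (a (l 16249984) (l 16134104)) (a (l 16239696) (l 16118752))) (c (a (l 15756296) (l 15580976)) (a (l 15725680) (l 15541920))))) (a (a (c (a (a (c (l 15788160) (l 15714936)) (c (l 15686264) (l 15575784))) (c (a (l 15575536) (l 15435656)) (b (c (l 15690392) (l 15570560)) (c (l 15385232) (l 15369360))))) (a (a (c (a (l 15824616) (c (l 15784896) (l 15698528))) (a (c (l 15808152) (b (l 15978992) (l 15670368))) (l 15577904))) (c (b (c (l 15835088) (l 15840864)) (l 15533504)) (l 15611744))) (c (a (l 15336760) (l 15529504)) (l 15562192)))) (c (a (c (a (b (l 15560488) (l 15291000)) (b (l 15543400) (l 15380816))) (l 15499888)) (l 15640688)) (a (l 15340344) (l 15615400)))) (a (c (l 16017216) (l 16004080)) (a (c (l 16144808) (l 16127800)) (l 16013280))))), by decide +kernel⟩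

def k16_pp_022 : ∃ t, chk3 f_pp_022 t 4 11 1 = true :=
  ⟨(a (b (a (c (a (b (a (l 15169416) (c (l 15156792) (c (l 15124856) (l 15113216)))) (a (c (l 14698224) (l 14686216)) (c (l 14703848) (c (l 14666584) (l 14644120))))) (b (a (c (l 14916752) (c (l 15000896) (l 15003648))) (c (l 14781424) (l 14815552))) (c (a (l 14685232) (l 14750416)) (l 14712872)))) (a (b (a (c (a (l 15253664) (l 15198312)) (a (l 15189856) (l 15158392))) (c (l 15080352) (l 15072872))) (a (c (l 14513568) (a (l 14644912) (l 14600424))) (c (l 14612920) (l 14611096)))) (b (c (b (l 15109472) (l 14920000)) (l 15029632)) (l 14716160)))) (c (a (b (c (c (l 15136016) (l 15159384)) (l 15168824)) (l 14933968)) (l 15104920)) (b (l 15250688) (l 15000448)))) (a (c (a (a (b (l 14446240) (l 14444840)) (c (l 14560352) (l 14509728))) (b (l 14572920) (l 14614280))) (a (a (c (l 14405688) (l 14165928)) (l 14459560)) (l 14595256))) (c (l 14844808) (l 14848616)))) (b (a (a (c (l 15537728) (l 15540000)) (b (l 16113568) (l 15802824)))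 (a (b (l 16286584) (l 16128560)) (l 16415992))) (a (c (l 15453272) (l 15406128)) (l 16018704)))), by decide +kernel⟩

def k17_pp_022 : ∃ t, chk3 f_pp_022 t 5 5 1 = true :=
  ⟨(b (b (b (a (a (a (c (l 14824680) (l 14757320)) (l 14695888)) (l 14599880)) (l 14455656)) (a (l 14874136) (l 14677264))) (a (l 15613832) (l 15427016))) (b (a (l 16516584) (l 16343624)) (l 16325632))), by decide +kernel⟩

def k18_pp_022 : ∃ t, chk3 f_pp_022 t 3 5 1 = true :=
  ⟨(b (b (b (l 14493032) (l 14717216)) (a (l 15428656) (l 2))) (a (b (l 16330464) (l 16776592)) (l 2))), by decide +kernel⟩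

def k19_pp_022 : ∃ t, chk3 f_pp_022 t 1 3 1 = true :=
  ⟨(a (a (a (b (a (c (a (b (a (l 14444840) (l 14533712)) (a (l 14444840) (l 14533712))) (b (l 14614280) (l 14614280))) (c (a (a (l 14259368) (l 14473592)) (l 14608328)) (b (l 14288176) (l 14497888)))) (c (b (l 14886328) (l 14886328)) (b (l 14848176) (l 14848176)))) (a (a (c (l 14483176) (a (l 14389800) (l 14459288))) (c (l 14614280) (l 14594904))) (l 14863840))) (b (a (a (c (l 15267080) (l 15213488)) (l 15617384)) (l 16018240)) (a (l 15430744) (l 16018240)))) (b (a (l 16376120) (l 16726952)) (a (l 16376120) (l 2)))) (b (b (a (l 16767456) (l 2)) (l 2)) (l 2))), by decide +kernel⟩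

theorem s20_pp_022 : ∃ t, chk3 f_pp_022 t 4 41 1 = true := ex3_a k13_pp_022 k14_pp_022

theorem s21_pp_022 : ∃ t, chk3 f_pp_022 t 4 20 1 = true := ex3_b k12_pp_022 s20_pp_022

theorem s22_pp_022 : ∃ t, chk3 f_pp_022 t 4 10 1 = true := ex3_b s21_pp_022 k15_pp_022

theorem s23_pp_022 : ∃ t, chk3 f_pp_022 t 4 5 1 = true := ex3_b s22_pp_022 k16_pp_022

theorem s24_pp_022 : ∃ t, chk3 f_pp_022 t 2 5 1 = true := ex3_a s23_pp_022 k17_pp_022

theorem s25_pp_022 : ∃ t, chk3 f_pp_022 t 1 5 1 = true := ex3_a s24_pp_022 k18_pp_022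

theorem s26_pp_022 : ∃ t, chk3 f_pp_022 t 8 19 1 = true := ex3_a k7_pp_022 k8_pp_022

theorem s27_pp_022 : ∃ t, chk3 f_pp_022 t 8 9 1 = true := ex3_b k6_pp_022 s26_pp_022

theorem s28_pp_022 : ∃ t, chk3 f_pp_022 t 4 9 1 = true := ex3_a s27_pp_022 k9_pp_022

theorem s29_pp_022 : ∃ t, chk3 f_pp_022 t 2 9 1 = true := ex3_a s28_pp_022 k10_pp_022

theorem s30_pp_022 : ∃ t, chk3 f_pp_022 t 32 8 1 = true := ex3_a k0_pp_022 k1_pp_022

theorem s31_pp_022 : ∃ t, chk3 f_pp_022 t 16 8 1 = true := ex3_a s30_pp_022 k2_pp_022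

theorem s32_pp_022 : ∃ t, chk3 f_pp_022 t 8 8 1 = true := ex3_a s31_pp_022 k3_pp_022

theorem s33_pp_022 : ∃ t, chk3 f_pp_022 t 4 8 1 = true := ex3_a s32_pp_022 k4_pp_022

theorem s34_pp_022 : ∃ t, chk3 f_pp_022 t 2 8 1 = true := ex3_a s33_pp_022 k5_pp_022

theorem s35_pp_022 : ∃ t, chk3 f_pp_022 t 2 4 1 = true := ex3_b s34_pp_022 s29_pp_022

theorem s36_pp_022 : ∃ t, chk3 f_pp_022 t 1 4 1 = true := ex3_a s35_pp_022 k11_pp_022

theorem s37_pp_022 : ∃ t, chk3 f_pp_022 t 1 2 1 = true := ex3_b s36_pp_022 s25_pp_022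

theorem s38_pp_022 : ∃ t, chk3 f_pp_022 t 1 1 1 = true := ex3_b s37_pp_022 k19_pp_022

theorem c_pp_022 : CertNX 0 536870912 1073741824 536870912 1046898278 26843546 3 false true true .pp 0 2 2
    ndN5q0 ndN5q2 pcN2 Cut.none Ext.none :=
  certNX1 (fam := false) (s1 := true) (s2 := true) (a := 0) (b := 2) (c := 2) (cn := .pp) (n1 := ndN5q0) (n2 := ndN5q2) (pc := pcN2) (cut := Cut.none) (xt := Ext.none) (P1 := 0) (W1 := 536870912) (P2 := 1073741824) (W2 := 536870912) (P3 := 1046898278) (W3 := 26843546) (N0 := 3)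
    rfl (fun _ => rfl) s38_pp_022

noncomputable def f_pp_023 : ℕ → ℕ → ℕ → ℕ → Bool := onCell 1073741824 536870912 0 1230186008 1046898278 26843546
    (rowNX 3 2 false true true .up 0 2 3 (qsf 0 536870912 0 1230186008 2) ndN5q0 ndN5q3 pcN2 Cut.none Ext.none)

def k0_pp_023 : ∃ t, chk3 f_pp_023 t 1 1 1 = true :=
  ⟨(a (b (l 2) (a (b (l 2) (b (l 2) (a (l 14879712) (l 14805200)))) (b (a (l 2) (a (l 2) (l 16309208))) (a (a (a (b (l 14550480) (l 14518856)) (l 14750288)) (b (l 15459968) (l 15453712))) (a (b (l 16292616) (l 16336024)) (b (l 16712344) (l 16776600))))))) (b (a (l 2) (b (l 4) (a (l 16717288) (l 4)))) (b (a (a (l 16543768) (l 16769160)) (l 16777184)) (b (a (l 16757928) (b (l 16759232) (l 16605360))) (a (b (l 16767160) (a (l 16754112) (l 16544608))) (b (a (l 16561296) (l 16096016)) (a (b (l 16296136) (a (l 16145008) (b (l 15929864) (l 15612024)))) (b (a (l 15811784) (b (l 15420048) (l 15066136))) (a (b (l 15361072) (l 14954440)) (b (l 14595616) (a (l 14656608) (c (l 14567848)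 (l 14519904))))))))))))), by decide +kernel⟩

theorem c_pp_023 : CertNX 0 536870912 0 1230186008 1046898278 26843546 3 false true true .up 0 2 3
    ndN5q0 ndN5q3 pcN2 Cut.none Ext.none :=
  certNX2 (fam := false) (s1 := true) (s2 := true) (a := 0) (b := 2) (c := 3) (cn := .up) (n1 := ndN5q0) (n2 := ndN5q3) (pc := pcN2) (cut := Cut.none) (xt := Ext.none) (P1 := 0) (W1 := 536870912) (P2 := 0) (W2 := 1230186008) (P3 := 1046898278) (W3 := 26843546) (N0 := 3)
    rfl (fun _ => rfl) k0_pp_023

noncomputable def f_pp_033 : ℕ → ℕ → ℕ → ℕ → Bool := onCell 0 536870912 0 1230186008 1046898278 26843546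
    (rowNX 3 0 false true true .pnn 0 3 3 (qsf 0 536870912 0 1230186008 3) ndN5q0 ndN5q3 pcN3 Cut.none Ext.none)

def k0_pp_033 : ∃ t, chk3 f_pp_033 t 1 1 1 = true :=
  ⟨(b (a (l 4) (a (l 4) (b (l 4) (a (l 4) (l 16717288))))) (b (b (a (a (l 4) (a (l 4) (b (l 4) (l 16726872)))) (a (a (l 16777168) (l 16777168)) (l 16777168))) (a (a (a (a (c (a (b (l 14483152) (l 14483176)) (l 14614264)) (a (b (l 14428592) (l 14428624)) (l 14594880))) (c (l 14886312) (l 14848160))) (a (c (l 15452776) (l 15405608)) (b (l 16018208) (l 16018232)))) (a (b (l 16376088) (l 16376120)) (l 16726936))) (a (l 16777200) (l 1)))) (a (a (a (b (a (c (a (l 14399288) (l 14614280)) (a (b (l 14428624) (l 14428624)) (l 14594904))) (b (l 14863840) (l 14863840))) (a (a (c (l 14483176) (a (l 14389800) (l 14459288))) (l 14586400)) (l 14863840))) (b (a (l 15221032) (l 16018240)) (a (l 15430744) (l 16018240)))) (b (a (l 16376120) (l 16726952)) (l 16535024))) (l 1)))), by decide +kernel⟩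

theorem c_pp_033 : CertNX 0 536870912 0 1230186008 1046898278 26843546 3 false true true .pnn 0 3 3
    ndN5q0 ndN5q3 pcN3 Cut.none Ext.none :=
  certNX0 (fam := false) (s1 := true) (s2 := true) (a := 0) (b := 3) (c := 3) (cn := .pnn) (n1 := ndN5q0) (n2 := ndN5q3) (pc := pcN3) (cut := Cut.none) (xt := Ext.none) (P1 := 0) (W1 := 536870912) (P2 := 0) (W2 := 1230186008) (P3 := 1046898278) (W3 := 26843546) (N0 := 3)
    rfl k0_pp_033

noncomputable def f_pp_101 : ℕ → ℕ → ℕ → ℕ → Bool := onCell 536870912 469762048 536870912 469762048 1046898278 26843546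
    (rowNX 3 0 false true true .npn 1 0 1 (qsf 536870912 469762048 536870912 469762048 0) ndN5q1 ndN5q1 pcN0 Cut.none Ext.none)

def k0_pp_101 : ∃ t, chk3 f_pp_101 t 1 1 1 = true :=
  ⟨(l 3), by decide +kernel⟩

theorem c_pp_101 : CertNX 536870912 469762048 536870912 469762048 1046898278 26843546 3 false true true .npn 1 0 1
    ndN5q1 ndN5q1 pcN0 Cut.none Ext.none :=
  certNX0 (fam := false) (s1 := true) (s2 := true) (a := 1) (b := 0) (c := 1) (cn := .npn) (n1 := ndN5q1) (n2 := ndN5q1) (pc := pcN0) (cut := Cut.none) (xt := Ext.none) (P1 := 536870912) (W1 := 469762048) (P2 := 536870912) (W2 := 469762048) (P3 := 1046898278) (W3 := 26843546) (N0 := 3)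
    rfl k0_pp_101

noncomputable def f_pp_102 : ℕ → ℕ → ℕ → ℕ → Bool := onCell 536870912 469762048 0 536870912 1046898278 26843546
    (rowNX 3 1 false true true .npp 1 0 2 (qsf 536870912 469762048 1073741824 536870912 0) ndN5q1 ndN5q2 pcN0 Cut.none Ext.none)

def k0_pp_102 : ∃ t, chk3 f_pp_102 t 1 1 1 = true :=
  ⟨(b (l 3) (b (l 3) (a (l 3) (a (b (l 3) (a (l 3) (a (b (l 3) (l 16576760)) (l 359332096695)))) (a (b (l 3) (a (b (l 15096576) (l 15096576)) (l 286314512855))) (b (b (l 3) (a (l 299734797959) (l 13588992))) (a (c (l 13613112) (l 13501584)) (c (l 13750936) (l 13637824))))))))), by decide +kernel⟩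

theorem c_pp_102 : CertNX 536870912 469762048 1073741824 536870912 1046898278 26843546 3 false true true .npp 1 0 2
    ndN5q1 ndN5q2 pcN0 Cut.none Ext.none :=
  certNX1 (fam := false) (s1 := true) (s2 := true) (a := 1) (b := 0) (c := 2) (cn := .npp) (n1 := ndN5q1) (n2 := ndN5q2) (pc := pcN0) (cut := Cut.none) (xt := Ext.none) (P1 := 536870912) (W1 := 469762048) (P2 := 1073741824) (W2 := 536870912) (P3 := 1046898278) (W3 := 26843546) (N0 := 3)
    rfl (fun _ => rfl) k0_pp_102

noncomputable def f_pp_112 : ℕ → ℕ → ℕ → ℕ → Bool := onCell 536870912 469762048 536870912 536870912 1046898278 26843546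
    (rowNX 3 1 false true true .dn 1 1 2 (qsf 536870912 469762048 1073741824 536870912 1) ndN5q1 ndN5q2 pcN1 Cut.none Ext.none)

def k0_pp_112 : ∃ t, chk3 f_pp_112 t 1 1 1 = true :=
  ⟨(b (a (b (a (b (l 3) (a (l 3) (b (l 3) (a (l 476369305127) (b (l 16030072) (l 16368392)))))) (b (a (l 3) (b (l 3) (a (b (l 3) (l 16751752)) (l 16777216)))) (a (b (a (b (l 3) (l 1253760395063)) (b (l 822653651271) (l 16769024))) (a (l 16565664) (l 16777216))) (l 16777216)))) (a (b (a (a (b (b (l 3) (l 15049680)) (c (l 15551072) (l 15684640))) (b (l 423756196919) (b (a (l 16163440) (l 16533872)) (l 16640608)))) (b (a (b (l 16036608) (l 16583160)) (l 16739232)) (l 16764960))) (a (b (a (b (l 16373616) (l 16687728)) (l 16771296)) (l 16776984)) (l 16777216))) (b (l 16777216) (l 16777216)))) (a (b (a (b (l 344838820343) (l 16777216)) (b (a (b (l 16576760) (l 16576760)) (l 15871072)) (b (l 16209048) (l 16230016)))) (a (b (l 16777216) (l 16777216)) (b (b (l 16230016) (l 16230016)) (l 16230016)))) (a (b (b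 (a (l 15096576) (l 14301168)) (b (a (l 15096576) (l 14301168)) (l 14495136))) (b (l 14641936) (l 2))) (b (c (a (b (l 13613112) (l 13613112)) (b (l 13750936) (l 13750936))) (b (a (l 13501584) (l 13637824)) (a (l 13501584) (l 13637824)))) (l 2))))) (b (a (b (a (b (l 16777176) (l 16747120)) (l 16758392)) (b (a (l 16676928) (l 16644376)) (l 16528592))) (a (b (a (l 16754280) (l 2)) (l 2)) (l 2))) (a (b (l 16011976) (a (l 15268896) (l 2))) (l 2)))), by decide +kernel⟩

theorem c_pp_112 : CertNX 536870912 469762048 1073741824 536870912 1046898278 26843546 3 false true true .dn 1 1 2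
    ndN5q1 ndN5q2 pcN1 Cut.none Ext.none :=
  certNX1 (fam := false) (s1 := true) (s2 := true) (a := 1) (b := 1) (c := 2) (cn := .dn) (n1 := ndN5q1) (n2 := ndN5q2) (pc := pcN1) (cut := Cut.none) (xt := Ext.none) (P1 := 536870912) (W1 := 469762048) (P2 := 1073741824) (W2 := 536870912) (P3 := 1046898278) (W3 := 26843546) (N0 := 3)
    rfl (fun _ => rfl) k0_pp_112

noncomputable def f_pp_113 : ℕ → ℕ → ℕ → ℕ → Bool := onCell 536870912 469762048 0 1230186008 1046898278 26843546
    (rowNX 3 0 false true true .nn 1 1 3 (qsf 536870912 469762048 0 1230186008 1) ndN5q1 ndN5q3 pcN1 Cut.none Ext.none)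

def k0_pp_113 : ∃ t, chk3 f_pp_113 t 1 1 1 = true :=
  ⟨(b (a (l 2) (b (l 2) (a (l 2) (a (l 2) (b (a (l 2) (l 11540552)) (a (b (l 2) (l 11113944)) (b (l 11372896) (l 11568352)))))))) (b (a (l 2) (a (b (a (l 2) (b (l 2) (l 13074480))) (a (b (l 2) (l 14206736)) (b (a (l 13806376) (l 13565448)) (a (l 14634800) (l 14395736))))) (b (a (b (a (l 2) (l 11719552)) (a (l 12572192) (l 12288848))) (a (b (l 11467976) (l 12010616)) (b (l 12003240) (l 12508224)))) (a (b (a (l 13301744) (l 12956152)) (a (l 14053384) (l 13610400))) (b (a (l 12599808) (l 13063136)) (a (l 13134456) (l 13456768))))))) (a (b (a (l 2) (a (b (l 2) (b (l 14171280) (l 14613040))) (b (b (l 14059488) (l 14514392)) (l 15057288)))) (a (b (a (l 2) (b (l 14318136) (l 14771656))) (a (b (l 14538048) (l 15014048)) (l 15262592))) (b (a (l 15254480) (l 15922120)) (a (b (l 15881256) (l 16274816)) (b (l 16427128) (l 16637352)))))) (b (a (b (a (b (l 14871712) (l 15270008)) (l 15282704)) (a (l 15832616) (a (l 16094752) (l 15608896))))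 (a (b (a (l 14638976) (l 14041448)) (a (l 14967312) (l 14248144))) (a (b (l 13425848) (l 13545992)) (b (l 13643288) (l 13693848))))) (a (b (a (l 16428152) (l 16149656)) (a (l 16720336) (l 16227392))) (a (a (b (l 15087752) (l 15096576)) (l 14301168)) (a (l 13389544) (a (l 13595944) (l 13791640))))))))), by decide +kernel⟩

theorem c_pp_113 : CertNX 536870912 469762048 0 1230186008 1046898278 26843546 3 false true true .nn 1 1 3
    ndN5q1 ndN5q3 pcN1 Cut.none Ext.none :=
  certNX0 (fam := false) (s1 := true) (s2 := true) (a := 1) (b := 1) (c := 3) (cn := .nn) (n1 := ndN5q1) (n2 := ndN5q3) (pc := pcN1) (cut := Cut.none) (xt := Ext.none) (P1 := 536870912) (W1 := 469762048) (P2 := 0) (W2 := 1230186008) (P3 := 1046898278) (W3 := 26843546) (N0 := 3)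
    rfl k0_pp_113

noncomputable def f_pp_123 : ℕ → ℕ → ℕ → ℕ → Bool := onCell 1073741824 536870912 0 1230186008 1046898278 26843546
    (rowNX 3 2 false true true .npn 1 2 3 (qsf 536870912 469762048 0 1230186008 2) ndN5q1 ndN5q3 pcN2 Cut.none Ext.none)

def k0_pp_123 : ∃ t, chk3 f_pp_123 t 1 1 1 = true :=
  ⟨(a (b (a (b (a (a (l 2) (c (b (l 16300784) (a (l 15252632) (l 15449272))) (b (l 15979088) (l 14891968)))) (b (l 4) (a (c (l 15813752) (l 15613112)) (l 15859688)))) (a (b (a (c (l 14307520) (b (l 12515904) (l 11988232))) (c (b (l 14497992) (l 13999920)) (l 13744312))) (a (a (b (l 11679024) (l 11484824)) (b (l 12259344) (l 12330864))) (b (c (l 13621448) (l 13186416)) (c (l 13469776) (l 13119104))))) (b (a (b (l 14960536) (l 14479064)) (l 14862384)) (a (b (l 14134320) (l 13967712)) (l 14240800))))) (b (a (a (b (l 4) (l 15892912)) (l 4)) (l 4)) (a (b (a (l 15068896) (l 15288488)) (a (l 14594624) (l 15175504))) (b (l 15700448) (l 15827576))))) (b (a (a (b (a (b (c (l 12599072)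 (l 12146720)) (l 13072336)) (b (l 13452888) (l 13883960))) (b (a (l 13843400) (l 14245032)) (l 14374752))) (b (a (b (l 14064816) (l 14274464)) (l 14255680)) (l 14501328))) (a (a (l 14580152) (l 15292152)) (a (l 15933120) (l 16309208)))) (a (b (a (b (l 14587112) (l 14719600)) (l 14724440)) (a (l 14879712) (l 14805200))) (a (a (a (l 630315087447) (l 14708344)) (b (l 15459968) (l 1))) (a (b (l 16292616) (l 1)) (l 659848289031)))))) (b (b (l 4) (a (a (l 16377800) (l 16706968)) (a (l 16717288) (l 4)))) (b (a (a (l 16543768) (l 16769160)) (l 16777184)) (l 1)))), by decide +kernel⟩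

theorem c_pp_123 : CertNX 536870912 469762048 0 1230186008 1046898278 26843546 3 false true true .npn 1 2 3
    ndN5q1 ndN5q3 pcN2 Cut.none Ext.none :=
  certNX2 (fam := false) (s1 := true) (s2 := true) (a := 1) (b := 2) (c := 3) (cn := .npn) (n1 := ndN5q1) (n2 := ndN5q3) (pc := pcN2) (cut := Cut.none) (xt := Ext.none) (P1 := 536870912) (W1 := 469762048) (P2 := 0) (W2 := 1230186008) (P3 := 1046898278) (W3 := 26843546) (N0 := 3)
    rfl (fun _ => rfl) k0_pp_123

noncomputable def f_pp_133 : ℕ → ℕ → ℕ → ℕ → Bool := onCell 1610612736 536870912 0 1230186008 1046898278 26843546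
    (rowNX 3 2 false true true .dn 1 3 3 (qsf 536870912 469762048 0 1230186008 3) ndN5q1 ndN5q3 pcN3 Cut.none Ext.none)

def k0_pp_133 : ∃ t, chk3 f_pp_133 t 1 1 1 = true :=
  ⟨(b (b (l 4) (l 1)) (l 1)), by decide +kernel⟩

theorem c_pp_133 : CertNX 536870912 469762048 0 1230186008 1046898278 26843546 3 false true true .dn 1 3 3
    ndN5q1 ndN5q3 pcN3 Cut.none Ext.none :=
  certNX2 (fam := false) (s1 := true) (s2 := true) (a := 1) (b := 3) (c := 3) (cn := .dn) (n1 := ndN5q1) (n2 := ndN5q3) (pc := pcN3) (cut := Cut.none) (xt := Ext.none) (P1 := 536870912) (W1 := 469762048) (P2 := 0) (W2 := 1230186008) (P3 := 1046898278) (W3 := 26843546) (N0 := 3)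
    rfl (fun _ => rfl) k0_pp_133

noncomputable def f_pp_202 : ℕ → ℕ → ℕ → ℕ → Bool := onCell 1073741824 536870912 1073741824 536870912 1046898278 26843546
    (rowNX 3 0 false true true .pp 2 0 2 (qsf 1073741824 536870912 1073741824 536870912 0) ndN5q2 ndN5q2 pcN0 Cut.none Ext.none)

def k0_pp_202 : ∃ t, chk3 f_pp_202 t 1 1 1 = true :=
  ⟨(l 3), by decide +kernel⟩

theorem c_pp_202 : CertNX 1073741824 536870912 1073741824 536870912 1046898278 26843546 3 false true true .pp 2 0 2
    ndN5q2 ndN5q2 pcN0 Cut.none Ext.none :=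
  certNX0 (fam := false) (s1 := true) (s2 := true) (a := 2) (b := 0) (c := 2) (cn := .pp) (n1 := ndN5q2) (n2 := ndN5q2) (pc := pcN0) (cut := Cut.none) (xt := Ext.none) (P1 := 1073741824) (W1 := 536870912) (P2 := 1073741824) (W2 := 536870912) (P3 := 1046898278) (W3 := 26843546) (N0 := 3)
    rfl k0_pp_202

noncomputable def f_pp_203 : ℕ → ℕ → ℕ → ℕ → Bool := onCell 0 536870912 0 1230186008 1046898278 26843546
    (rowNX 3 2 false true true .up 2 0 3 (qsf 1073741824 536870912 0 1230186008 0) ndN5q2 ndN5q3 pcN0 Cut.none Ext.none)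

def k0_pp_203 : ∃ t, chk3 f_pp_203 t 1 1 1 = true :=
  ⟨(b (l 3) (l 3)), by decide +kernel⟩

theorem c_pp_203 : CertNX 1073741824 536870912 0 1230186008 1046898278 26843546 3 false true true .up 2 0 3
    ndN5q2 ndN5q3 pcN0 Cut.none Ext.none :=
  certNX2 (fam := false) (s1 := true) (s2 := true) (a := 2) (b := 0) (c := 3) (cn := .up) (n1 := ndN5q2) (n2 := ndN5q3) (pc := pcN0) (cut := Cut.none) (xt := Ext.none) (P1 := 1073741824) (W1 := 536870912) (P2 := 0) (W2 := 1230186008) (P3 := 1046898278) (W3 := 26843546) (N0 := 3)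
    rfl (fun _ => rfl) k0_pp_203

noncomputable def f_pp_213 : ℕ → ℕ → ℕ → ℕ → Bool := onCell 536870912 536870912 0 1230186008 1046898278 26843546
    (rowNX 3 2 false true true .pnn 2 1 3 (qsf 1073741824 536870912 0 1230186008 1) ndN5q2 ndN5q3 pcN1 Cut.none Ext.none)

def k0_pp_213 : ∃ t, chk3 f_pp_213 t 1 1 1 = true :=
  ⟨(b (a (l 3) (a (b (l 3) (l 3)) (a (b (b (a (l 287926342599) (b (l 15575600) (l 15612576))) (a (l 3) (b (l 15535576) (l 15538824)))) (l 3)) (b (a (a (b (l 16109152) (b (l 16084552) (l 15903032))) (b (a (l 16506512) (l 16388608)) (a (b (l 16249784) (l 15957328)) (c (l 16285280) (l 15892024))))) (a (c (c (b (a (l 16567416) (l 16529448)) (a (b (l 16550848) (a (l 16472056) (l 16425912))) (b (l 16415816) (l 16301824)))) (b (a (l 16634288) (b (l 16557328) (l 16496696))) (a (l 16328216) (b (l 16244584) (a (l 16310864) (l 16158248)))))) (b (l 16536824) (b (l 15975168) (l 16168088)))) (a (c (b (l 16243952) (b (l 16248536) (l 1013107164423))) (b (c (b (l 16208408) (a (l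 16363832) (l 16275016))) (l 15946336)) (c (b (a (l 16272984) (l 16081800)) (a (l 16123048) (l 1))) (l 16125296)))) (c (b (l 16184856) (l 1372810905591)) (b (c (l 16171544) (a (l 16027184) (a (l 15882296) (l 16071600)))) (c (l 1297111726279) (b (a (l 16076184) (l 1)) (l 1)))))))) (a (b (a (b (l 15669752) (l 3)) (b (a (l 15620760) (c (l 16163480) (l 15300008))) (a (l 3) (l 1)))) (l 3)) (b (b (a (a (b (c (l 1096859339591) (l 15399248)) (l 1)) (l 1)) (l 1)) (l 1)) (l 1))))))) (b (l 3) (l 3))), by decide +kernel⟩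

theorem c_pp_213 : CertNX 1073741824 536870912 0 1230186008 1046898278 26843546 3 false true true .pnn 2 1 3
    ndN5q2 ndN5q3 pcN1 Cut.none Ext.none :=
  certNX2 (fam := false) (s1 := true) (s2 := true) (a := 2) (b := 1) (c := 3) (cn := .pnn) (n1 := ndN5q2) (n2 := ndN5q3) (pc := pcN1) (cut := Cut.none) (xt := Ext.none) (P1 := 1073741824) (W1 := 536870912) (P2 := 0) (W2 := 1230186008) (P3 := 1046898278) (W3 := 26843546) (N0 := 3)
    rfl (fun _ => rfl) k0_pp_213

noncomputable def f_pp_303 : ℕ → ℕ → ℕ → ℕ → Bool := onCell 0 1230186008 0 1230186008 1046898278 26843546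
    (rowNX 3 0 false true true .npn 3 0 3 (qsf 0 1230186008 0 1230186008 0) ndN5q3 ndN5q3 pcN0 Cut.none Ext.none)

def k0_pp_303 : ∃ t, chk3 f_pp_303 t 1 1 1 = true :=
  ⟨(a (b (l 3) (l 3)) (b (l 3) (l 3))), by decide +kernel⟩

theorem c_pp_303 : CertNX 0 1230186008 0 1230186008 1046898278 26843546 3 false true true .npn 3 0 3
    ndN5q3 ndN5q3 pcN0 Cut.none Ext.none :=
  certNX0 (fam := false) (s1 := true) (s2 := true) (a := 3) (b := 0) (c := 3) (cn := .npn) (n1 := ndN5q3) (n2 := ndN5q3) (pc := pcN0) (cut := Cut.none) (xt := Ext.none) (P1 := 0) (W1 := 1230186008) (P2 := 0) (W2 := 1230186008) (P3 := 1046898278) (W3 := 26843546) (N0 := 3)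
    rfl k0_pp_303

noncomputable def f_pp_313 : ℕ → ℕ → ℕ → ℕ → Bool := onCell 0 1230186008 0 1230186008 1046898278 26843546
    (rowNX 3 0 false true true .dn 3 1 3 (qsf 0 1230186008 0 1230186008 1) ndN5q3 ndN5q3 pcN1 Cut.none Ext.none)

def k0_pp_313 : ∃ t, chk3 f_pp_313 t 1 1 1 = true :=
  ⟨(a (l 1) (b (l 3) (l 1))), by decide +kernel⟩

theorem c_pp_313 : CertNX 0 1230186008 0 1230186008 1046898278 26843546 3 false true true .dn 3 1 3
    ndN5q3 ndN5q3 pcN1 Cut.none Ext.none :=
  certNX0 (fam := false) (s1 := true) (s2 := true) (a := 3) (b := 1) (c := 3) (cn := .dn) (n1 := ndN5q3) (n2 := ndN5q3) (pc := pcN1) (cut := Cut.none) (xt := Ext.none) (P1 := 0) (W1 := 1230186008) (P2 := 0) (W2 := 1230186008) (P3 := 1046898278) (W3 := 26843546) (N0 := 3)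
    rfl k0_pp_313

noncomputable def f_pm_001 : ℕ → ℕ → ℕ → ℕ → Bool := onCell 0 536870912 536870912 469762048 1046898278 26843546
    (rowNX 3 0 false true false .up 0 0 1 (qsf 0 536870912 536870912 469762048 0) ndN5q0 ndN5q1 pcN0 Cut.none Ext.none)

def k0_pm_001 : ∃ t, chk3 f_pm_001 t 1 1 1 = true :=
  ⟨(l 4), by decide +kernel⟩

theorem c_pm_001 : CertNX 0 536870912 536870912 469762048 1046898278 26843546 3 false true false .up 0 0 1
    ndN5q0 ndN5q1 pcN0 Cut.none Ext.none :=
  certNX0 (fam := false) (s1 := true) (s2 := false) (a := 0) (b := 0) (c := 1) (cn := .up) (n1 := ndN5q0) (n2 := ndN5q1) (pc := pcN0) (cut := Cut.none) (xt := Ext.none) (P1 := 0) (W1 := 536870912) (P2 := 536870912) (W2 := 469762048) (P3 := 1046898278) (W3 := 26843546) (N0 := 3)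
    rfl k0_pm_001

noncomputable def f_pm_011 : ℕ → ℕ → ℕ → ℕ → Bool := onCell 0 536870912 536870912 469762048 1046898278 26843546
    (rowNX 3 0 false true false .pnn 0 1 1 (qsf 0 536870912 536870912 469762048 1) ndN5q0 ndN5q1 pcN1 Cut.none Ext.none)

def k0_pm_011 : ∃ t, chk3 f_pm_011 t 1 1 1 = true :=
  ⟨(l 4), by decide +kernel⟩

theorem c_pm_011 : CertNX 0 536870912 536870912 469762048 1046898278 26843546 3 false true false .pnn 0 1 1
    ndN5q0 ndN5q1 pcN1 Cut.none Ext.none :=
  certNX0 (fam := false) (s1 := true) (s2 := false) (a := 0) (b := 1) (c := 1) (cn := .pnn) (n1 := ndN5q0) (n2 := ndN5q1) (pc := pcN1) (cut := Cut.none) (xt := Ext.none) (P1 := 0) (W1 := 536870912) (P2 := 536870912) (W2 := 469762048) (P3 := 1046898278) (W3 := 26843546) (N0 := 3)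
    rfl k0_pm_011

noncomputable def f_pm_012 : ℕ → ℕ → ℕ → ℕ → Bool := onCell 0 536870912 1073741824 536870912 1046898278 26843546
    (rowNX 3 0 false true false .pnp 0 1 2 (qsf 0 536870912 1073741824 536870912 1) ndN5q0 ndN5q2 pcN1 Cut.none Ext.none)

def k0_pm_012 : ∃ t, chk3 f_pm_012 t 1 1 1 = true :=
  ⟨(l 4), by decide +kernel⟩

theorem c_pm_012 : CertNX 0 536870912 1073741824 536870912 1046898278 26843546 3 false true false .pnp 0 1 2
    ndN5q0 ndN5q2 pcN1 Cut.none Ext.none :=
  certNX0 (fam := false) (s1 := true) (s2 := false) (a := 0) (b := 1) (c := 2) (cn := .pnp) (n1 := ndN5q0) (n2 := ndN5q2) (pc := pcN1) (cut := Cut.none) (xt := Ext.none) (P1 := 0) (W1 := 536870912) (P2 := 1073741824) (W2 := 536870912) (P3 := 1046898278) (W3 := 26843546) (N0 := 3)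
    rfl k0_pm_012

noncomputable def f_pm_022 : ℕ → ℕ → ℕ → ℕ → Bool := onCell 0 536870912 1073741824 536870912 1046898278 26843546
    (rowNX 3 0 false true false .pp 0 2 2 (qsf 0 536870912 1073741824 536870912 2) ndN5q0 ndN5q2 pcN2 Cut.none Ext.none)

def k0_pm_022 : ∃ t, chk3 f_pm_022 t 1 1 1 = true :=
  ⟨(l 4), by decide +kernel⟩

theorem c_pm_022 : CertNX 0 536870912 1073741824 536870912 1046898278 26843546 3 false true false .pp 0 2 2
    ndN5q0 ndN5q2 pcN2 Cut.none Ext.none :=
  certNX0 (fam := false) (s1 := true) (s2 := false) (a := 0) (b := 2) (c := 2) (cn := .pp) (n1 := ndN5q0) (n2 := ndN5q2) (pc := pcN2) (cut := Cut.none) (xt := Ext.none) (P1 := 0) (W1 := 536870912) (P2 := 1073741824) (W2 := 536870912) (P3 := 1046898278) (W3 := 26843546) (N0 := 3)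
    rfl k0_pm_022

noncomputable def f_pm_023 : ℕ → ℕ → ℕ → ℕ → Bool := onCell 0 536870912 0 1230186008 1046898278 26843546
    (rowNX 3 0 false true false .up 0 2 3 (qsf 0 536870912 0 1230186008 2) ndN5q0 ndN5q3 pcN2 Cut.none Ext.none)

def k0_pm_023 : ∃ t, chk3 f_pm_023 t 1 1 1 = true :=
  ⟨(b (l 4) (l 4)), by decide +kernel⟩

theorem c_pm_023 : CertNX 0 536870912 0 1230186008 1046898278 26843546 3 false true false .up 0 2 3
    ndN5q0 ndN5q3 pcN2 Cut.none Ext.none :=
  certNX0 (fam := false) (s1 := true) (s2 := false) (a := 0) (b := 2) (c := 3) (cn := .up) (n1 := ndN5q0) (n2 := ndN5q3) (pc := pcN2) (cut := Cut.none) (xt := Ext.none) (P1 := 0) (W1 := 536870912) (P2 := 0) (W2 := 1230186008) (P3 := 1046898278) (W3 := 26843546) (N0 := 3)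
    rfl k0_pm_023

noncomputable def f_pm_033 : ℕ → ℕ → ℕ → ℕ → Bool := onCell 0 536870912 0 1230186008 1046898278 26843546
    (rowNX 3 0 false true false .pnn 0 3 3 (qsf 0 536870912 0 1230186008 3) ndN5q0 ndN5q3 pcN3 Cut.none Ext.none)

def k0_pm_033 : ∃ t, chk3 f_pm_033 t 1 1 1 = true :=
  ⟨(b (l 4) (l 4)), by decide +kernel⟩

theorem c_pm_033 : CertNX 0 536870912 0 1230186008 1046898278 26843546 3 false true false .pnn 0 3 3
    ndN5q0 ndN5q3 pcN3 Cut.none Ext.none :=
  certNX0 (fam := false) (s1 := true) (s2 := false) (a := 0) (b := 3) (c := 3) (cn := .pnn) (n1 := ndN5q0) (n2 := ndN5q3) (pc := pcN3) (cut := Cut.none) (xt := Ext.none) (P1 := 0) (W1 := 536870912) (P2 := 0) (W2 := 1230186008) (P3 := 1046898278) (W3 := 26843546) (N0 := 3)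
    rfl k0_pm_033

noncomputable def f_pm_101 : ℕ → ℕ → ℕ → ℕ → Bool := onCell 536870912 469762048 536870912 469762048 1046898278 26843546
    (rowNX 3 0 false true false .npn 1 0 1 (qsf 536870912 469762048 536870912 469762048 0) ndN5q1 ndN5q1 pcN0 Cut.none Ext.none)

def k0_pm_101 : ∃ t, chk3 f_pm_101 t 1 1 1 = true :=
  ⟨(l 4), by decide +kernel⟩

theorem c_pm_101 : CertNX 536870912 469762048 536870912 469762048 1046898278 26843546 3 false true false .npn 1 0 1
    ndN5q1 ndN5q1 pcN0 Cut.none Ext.none :=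
  certNX0 (fam := false) (s1 := true) (s2 := false) (a := 1) (b := 0) (c := 1) (cn := .npn) (n1 := ndN5q1) (n2 := ndN5q1) (pc := pcN0) (cut := Cut.none) (xt := Ext.none) (P1 := 536870912) (W1 := 469762048) (P2 := 536870912) (W2 := 469762048) (P3 := 1046898278) (W3 := 26843546) (N0 := 3)
    rfl k0_pm_101

noncomputable def f_pm_102 : ℕ → ℕ → ℕ → ℕ → Bool := onCell 536870912 469762048 1073741824 536870912 1046898278 26843546
    (rowNX 3 0 false true false .npp 1 0 2 (qsf 536870912 469762048 1073741824 536870912 0) ndN5q1 ndN5q2 pcN0 Cut.none Ext.none)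

def k0_pm_102 : ∃ t, chk3 f_pm_102 t 1 1 1 = true :=
  ⟨(l 4), by decide +kernel⟩

theorem c_pm_102 : CertNX 536870912 469762048 1073741824 536870912 1046898278 26843546 3 false true false .npp 1 0 2
    ndN5q1 ndN5q2 pcN0 Cut.none Ext.none :=
  certNX0 (fam := false) (s1 := true) (s2 := false) (a := 1) (b := 0) (c := 2) (cn := .npp) (n1 := ndN5q1) (n2 := ndN5q2) (pc := pcN0) (cut := Cut.none) (xt := Ext.none) (P1 := 536870912) (W1 := 469762048) (P2 := 1073741824) (W2 := 536870912) (P3 := 1046898278) (W3 := 26843546) (N0 := 3)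
    rfl k0_pm_102

noncomputable def f_pm_112 : ℕ → ℕ → ℕ → ℕ → Bool := onCell 536870912 469762048 1073741824 536870912 1046898278 26843546
    (rowNX 3 0 false true false .dn 1 1 2 (qsf 536870912 469762048 1073741824 536870912 1) ndN5q1 ndN5q2 pcN1 Cut.none Ext.none)

def k0_pm_112 : ∃ t, chk3 f_pm_112 t 1 1 1 = true :=
  ⟨(l 4), by decide +kernel⟩

theorem c_pm_112 : CertNX 536870912 469762048 1073741824 536870912 1046898278 26843546 3 false true false .dn 1 1 2
    ndN5q1 ndN5q2 pcN1 Cut.none Ext.none :=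
  certNX0 (fam := false) (s1 := true) (s2 := false) (a := 1) (b := 1) (c := 2) (cn := .dn) (n1 := ndN5q1) (n2 := ndN5q2) (pc := pcN1) (cut := Cut.none) (xt := Ext.none) (P1 := 536870912) (W1 := 469762048) (P2 := 1073741824) (W2 := 536870912) (P3 := 1046898278) (W3 := 26843546) (N0 := 3)
    rfl k0_pm_112

noncomputable def f_pm_113 : ℕ → ℕ → ℕ → ℕ → Bool := onCell 536870912 469762048 0 1230186008 1046898278 26843546
    (rowNX 3 0 false true false .nn 1 1 3 (qsf 536870912 469762048 0 1230186008 1) ndN5q1 ndN5q3 pcN1 Cut.none Ext.none)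

def k0_pm_113 : ∃ t, chk3 f_pm_113 t 1 1 1 = true :=
  ⟨(b (b (l 2) (l 4)) (l 4)), by decide +kernel⟩

theorem c_pm_113 : CertNX 536870912 469762048 0 1230186008 1046898278 26843546 3 false true false .nn 1 1 3
    ndN5q1 ndN5q3 pcN1 Cut.none Ext.none :=
  certNX0 (fam := false) (s1 := true) (s2 := false) (a := 1) (b := 1) (c := 3) (cn := .nn) (n1 := ndN5q1) (n2 := ndN5q3) (pc := pcN1) (cut := Cut.none) (xt := Ext.none) (P1 := 536870912) (W1 := 469762048) (P2 := 0) (W2 := 1230186008) (P3 := 1046898278) (W3 := 26843546) (N0 := 3)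
    rfl k0_pm_113

noncomputable def f_pm_123 : ℕ → ℕ → ℕ → ℕ → Bool := onCell 536870912 469762048 0 1230186008 1046898278 26843546
    (rowNX 3 0 false true false .npn 1 2 3 (qsf 536870912 469762048 0 1230186008 2) ndN5q1 ndN5q3 pcN2 Cut.none Ext.none)

def k0_pm_123 : ∃ t, chk3 f_pm_123 t 1 1 1 = true :=
  ⟨(b (b (l 4) (l 4)) (l 4)), by decide +kernel⟩

theorem c_pm_123 : CertNX 536870912 469762048 0 1230186008 1046898278 26843546 3 false true false .npn 1 2 3
    ndN5q1 ndN5q3 pcN2 Cut.none Ext.none :=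
  certNX0 (fam := false) (s1 := true) (s2 := false) (a := 1) (b := 2) (c := 3) (cn := .npn) (n1 := ndN5q1) (n2 := ndN5q3) (pc := pcN2) (cut := Cut.none) (xt := Ext.none) (P1 := 536870912) (W1 := 469762048) (P2 := 0) (W2 := 1230186008) (P3 := 1046898278) (W3 := 26843546) (N0 := 3)
    rfl k0_pm_123

noncomputable def f_pm_133 : ℕ → ℕ → ℕ → ℕ → Bool := onCell 1610612736 536870912 0 1230186008 1046898278 26843546
    (rowNX 3 2 false true false .dn 1 3 3 (qsf 536870912 469762048 0 1230186008 3) ndN5q1 ndN5q3 pcN3 Cut.none Ext.none)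

def k0_pm_133 : ∃ t, chk3 f_pm_133 t 1 1 1 = true :=
  ⟨(b (l 4) (l 1)), by decide +kernel⟩

theorem c_pm_133 : CertNX 536870912 469762048 0 1230186008 1046898278 26843546 3 false true false .dn 1 3 3
    ndN5q1 ndN5q3 pcN3 Cut.none Ext.none :=
  certNX2 (fam := false) (s1 := true) (s2 := false) (a := 1) (b := 3) (c := 3) (cn := .dn) (n1 := ndN5q1) (n2 := ndN5q3) (pc := pcN3) (cut := Cut.none) (xt := Ext.none) (P1 := 536870912) (W1 := 469762048) (P2 := 0) (W2 := 1230186008) (P3 := 1046898278) (W3 := 26843546) (N0 := 3)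
    rfl (fun _ => rfl) k0_pm_133

noncomputable def f_pm_202 : ℕ → ℕ → ℕ → ℕ → Bool := onCell 1073741824 536870912 0 536870912 1046898278 26843546
    (rowNX 3 1 false true false .pp 2 0 2 (qsf 1073741824 536870912 1073741824 536870912 0) ndN5q2 ndN5q2 pcN0 Cut.none Ext.none)

def k0_pm_202 : ∃ t, chk3 f_pm_202 t 4 8 1 = true :=
  ⟨(b (b (a (c (b (a (a (l 16241056) (l 15948472)) (c (l 15394616) (l 15356024))) (a (c (b (a (b (l 16391128) (l 16312136)) (l 15921976)) (l 15989152)) (b (a (l 16376000) (l 15915840)) (l 15873608))) (c (b (l 15277240) (l 15229264)) (b (l 15259712) (l 15223584))))) (b (c (a (b (l 16181808) (a (l 16222416) (l 15940808))) (b (l 15356272) (l 15227936))) (a (b (a (b (l 16317032) (l 16237720)) (b (l 15961576) (l 15925528))) (a (l 16424712) (l 15946432))) (b (c (l 15330952) (l 15146976)) (l 15264112)))) (a (c (a (l 16217352) (l 15876256)) (l 15994632)) (c (l 15210544) (l 15166808))))) (c (b (a (l 14562328) (l 13820568)) (c (b (a (l 14479176) (l 13752160)) (l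 14072856)) (b (l 14070200) (l 14003640)))) (b (c (b (l 14131336) (a (l 14459872) (l 13702352))) (b (c (l 14090872) (b (l 14077960) (l 14051704))) (l 14026216))) (c (a (l 14386480) (l 13636136)) (l 13946440))))) (a (c (a (b (c (a (l 16098216) (l 15818464)) (b (l 15799800) (l 15981784))) (c (l 15801264) (l 15869784))) (b (c (l 15117960) (l 15141744)) (l 15044112))) (a (a (l 15931936) (l 15657888)) (l 14998704))) (c (a (b (c (l 14392288) (l 14340224)) (l 14259032)) (a (b (l 13812472) (l 13717136)) (b (c (l 13570696) (l 13505304)) (l 13617144)))) (a (l 14183768) (a (l 13620896) (l 13245888)))))) (a (a (a (c (b (l 15733776) (l 15427104)) (l 15643288)) (c (b (l 15463808) (l 15189208)) (l 15259528))) (c (b (c (l 14872136) (l 14807432)) (c (l 14605552) (l 14557704))) (l 14582712))) (a (b (c (l 14072984) (l 13951272)) (c (a (l 14016584) (b (l 13780048) (l 13842712))) (a (l 13913872) (l 13733064)))) (b (c (a (b (l 13663552) (l 13723816)) (l 13890352)) (a (l 13590912) (l 13765176))) (c (l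 14154024) (l 14058008)))))), by decide +kernel⟩

def k1_pm_202 : ∃ t, chk3 f_pm_202 t 5 8 1 = true :=
  ⟨(a (b (b (a (c (a (b (c (l 13411520) (l 13341016)) (b (c (l 13418352) (l 13367664)) (c (l 13501192) (l 13462784)))) (b (l 13868104) (c (l 14110144) (l 14071496)))) (b (a (c (b (l 13257032) (l 13262792)) (b (c (l 13205824) (l 13172056)) (l 13201496))) (c (l 13781912) (b (l 13662832) (l 13787512)))) (a (c (l 13366912) (l 13294152)) (l 13809752)))) (c (b (a (l 14833040) (l 15753064)) (a (c (l 15056216) (l 15034544)) (c (l 15873128) (l 15910208)))) (b (a (c (l 14773472) (b (l 14612264) (l 14794320))) (c (l 15510056) (b (a (l 15404528) (l 15876456)) (l 15755552)))) (a (l 14736336) (c (l 15940264) (l 15915992)))))) (a (c (a (b (l 13661752) (l 13893624)) (b (l 14337872) (l 14559088))) (a (l 13638264) (l 14334760))) (c (b (a (l 15175984) (l 16009952)) (a (l 15491080) (l 16376152))) (a (l 15308216) (l 16172704))))) (a (c (a (b (l 14198848) (l 14590920)) (b (l 14849312) (l 15221048)))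 (a (l 14304944) (l 14864680))) (b (a (c (l 15702888) (l 15713448)) (c (l 16236872) (l 16263096))) (a (c (l 15818616) (l 16004744)) (l 16174736))))) (b (b (a (c (b (a (l 16166912) (l 15298752)) (a (c (l 15982464) (l 15962480)) (c (l 15233704) (l 15198048)))) (b (c (a (l 16112112) (l 15196432)) (a (c (l 16010568) (l 15970744)) (b (l 15170120) (l 15217904)))) (a (c (l 15953448) (l 15963720)) (l 14996840)))) (c (b (l 14852568) (l 14888464)) (b (c (l 14820640) (l 14587376)) (l 14825808)))) (a (c (a (b (a (l 15959128) (l 15558280)) (l 15657768)) (l 15174832)) (a (l 15729432) (l 15168304))) (c (l 14902056) (l 14885280)))) (a (b (l 15204664) (l 15513208)) (c (l 15040544) (l 15005520))))), by decide +kernel⟩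

def k2_pm_202 : ∃ t, chk3 f_pm_202 t 2 9 1 = true :=
  ⟨(a (b (a (a (b (c (l 15076040) (l 15016168)) (l 14647832)) (b (c (l 14281704) (l 14194304)) (a (l 14053872) (b (l 13840176) (l 13828752))))) (b (a (a (c (l 13786448) (l 13812288)) (l 14018096)) (l 14463784)) (a (l 14164192) (l 14727240)))) (a (a (b (l 14258416) (a (l 14184672) (a (l 13960560) (l 13949744)))) (b (a (b (l 13823192) (l 13853688)) (l 14013320)) (l 14266632))) (a (b (l 14443064) (l 14807248)) (b (a (l 14842960) (l 15003328)) (l 15037584))))) (b (a (a (a (b (l 14879568) (l 15025248)) (b (l 15327768) (l 15337424))) (b (l 16160448) (l 16054272))) (a (b (l 15708744) (l 15878744)) (b (b (l 15204000) (l 15351936)) (l 15621424)))) (a (b (a (a (l 14949568) (l 15143792)) (b (l 15897936) (l 15835384))) (a (a (l 14852232) (l 15047800)) (l 15770392))) (b (a (b (l 16252864) (l 16351264)) (b (l 15907424) (l 16025568))) (a (l 16448896) (l 16156272)))))), by decide +kernel⟩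

def k3_pm_202 : ∃ t, chk3 f_pm_202 t 3 8 1 = true :=
  ⟨(b (a (b (b (c (l 14674632) (c (l 14639752) (b (l 14607792) (l 14617512)))) (c (a (l 14790120) (l 14639920)) (c (l 14657824) (l 14644968)))) (c (a (l 14803232) (b (a (l 14673504) (c (l 14589240) (l 14568888))) (l 14503992))) (a (l 14785544) (c (l 14636224) (l 14614168))))) (a (b (b (c (c (l 14435736) (l 14418568)) (c (b (l 14377376) (a (l 14441720) (l 14348344))) (b (c (l 14358048) (b (l 14338552) (l 14346712))) (l 14365072)))) (c (c (b (l 14508136) (l 14506104)) (b (l 14456040) (l 14434008))) (c (l 14413944) (l 14399616)))) (c (b (a (l 14506832) (l 14406976)) (l 14431472)) (a (l 14509816) (l 14408432)))) (c (a (b (b (l 14271032) (c (l 14306872) (l 14266896))) (b (l 14315496) (l 14257272))) (b (b (l 14162360) (c (l 13995360) (l 488110593431))) (c (l 14295288) (l 14271072)))) (b (b (c (b (l 14151416) (l 14167936)) (c (l 13940032) (l 14113320))) (c (l 14174968) (l 14151848))) (c (b (c (l 14222840) (l 14207792)) (a (l 14327176)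 (l 14275760))) (l 474688892599)))))) (b (a (c (c (l 14625080) (a (l 14898136) (l 14754792))) (a (l 14862944) (l 14733328))) (c (c (a (l 14548032) (c (l 14462496) (l 480058089415))) (c (a (l 14531800) (b (l 14409032) (l 484353107991))) (a (l 14512216) (b (l 479521088503) (l 14427232))))) (a (l 14413336) (a (l 14385896) (l 14330560))))) (a (c (c (a (b (l 14985304) (l 15052912)) (a (l 14921880) (l 14821776))) (a (l 14998240) (l 14781136))) (a (l 14950576) (l 14787392))) (c (c (a (b (l 14700720) (l 14688648)) (a (b (l 14419608) (c (l 14545952) (l 14659480))) (l 2))) (a (l 14704232) (l 14541960))) (a (l 14638376) (l 14483216)))))), by decide +kernel⟩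

def k4_pm_202 : ∃ t, chk3 f_pm_202 t 3 9 1 = true :=
  ⟨(b (a (b (c (a (l 15005968) (l 15026064)) (a (l 15186392) (l 15051000))) (a (l 15570648) (a (l 15570848) (b (l 15447752) (l 15742712))))) (a (b (b (c (a (l 14958392) (l 14859952)) (l 415097405159)) (c (l 14961888) (l 14975200))) (b (a (l 15539192) (c (l 15574760) (l 15532480))) (c (a (l 15939376) (l 15854312)) (a (l 15909920) (l 15821880))))) (b (b (c (l 496164818999) (l 499385901303)) (l 2)) (l 2)))) (a (b (a (b (l 15927168) (l 16051400)) (b (a (c (l 15976088) (l 15949760)) (l 15977848)) (a (l 16128216) (l 16364512)))) (a (a (l 16155944) (l 16219016)) (a (l 16349008) (l 16539856)))) (a (b (a (b (c (l 16326656) (l 16310832)) (l 16467880)) (c (l 15877432) (l 15955856))) (a (l 16377560) (l 2))) (l 2)))), by decide +kernel⟩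

def k5_pm_202 : ∃ t, chk3 f_pm_202 t 1 5 1 = true :=
  ⟨(a (a (b (a (b (a (a (b (a (l 14092104) (l 14077840)) (l 14370008)) (l 14446776)) (b (l 14657168) (b (l 14933096) (l 15108416)))) (a (b (c (l 14927840) (l 14859384)) (l 15239872)) (b (a (l 15254816) (l 15387320)) (a (l 15497808) (l 15410288))))) (b (a (b (a (l 15038376) (l 15183704)) (b (l 15232280) (l 15249360))) (b (l 15023128) (l 14916296))) (c (b (l 15032656) (l 14950392)) (l 14924176)))) (b (a (a (b (a (l 15498496) (l 15622040)) (a (l 15756392) (l 15662728))) (c (l 15420776) (l 15372744))) (c (l 14865712) (l 14797480))) (a (c (l 15418328) (l 15500840)) (l 14773392)))) (b (a (b (a (a (b (l 14758592) (l 14651576)) (l 14890016)) (c (l 15460360) (l 15608944))) (a (a (l 14535240) (l 14732824)) (b (l 15504120) (l 15455624)))) (b (a (b (l 16556696) (l 16379576)) (b (l 16295448) (l 16480320))) (a (b (l 16356104) (l 16357776)) (l 16625000)))) (a (b (a (a (l 14425752) (l 14642704)) (l 15382648)) (a (l 14488480) (l 15362184)))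 (b (a (l 16313968) (l 16776312)) (a (l 16305152) (l 16776488)))))) (a (b (b (a (b (l 16428000) (l 16616280)) (a (b (l 16633960) (l 16776136)) (b (l 16645544) (l 16610000)))) (a (a (l 16750424) (l 16775784)) (a (l 16742032) (l 16507560)))) (b (a (l 16762616) (l 358730061111)) (a (l 16777144) (l 2)))) (b (a (b (a (l 16266104) (l 2)) (l 2)) (l 2)) (l 2)))), by decide +kernel⟩

def k6_pm_202 : ∃ t, chk3 f_pm_202 t 1 3 1 = true :=
  ⟨(a (a (b (b (a (l 15522248) (l 14772512)) (a (l 15522248) (l 14772512))) (a (l 15396424) (l 14772512))) (a (b (a (b (l 14488456) (l 14488456)) (b (l 15362176) (l 15362176))) (a (l 14341656) (l 2))) (b (a (b (l 16304928) (l 16304928)) (l 16776552)) (l 2)))) (b (b (a (l 336181854215) (l 2)) (l 2)) (l 2))), by decide +kernel⟩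

theorem s7_pm_202 : ∃ t, chk3 f_pm_202 t 3 4 1 = true := ex3_b k3_pm_202 k4_pm_202

theorem s8_pm_202 : ∃ t, chk3 f_pm_202 t 2 8 1 = true := ex3_a k0_pm_202 k1_pm_202

theorem s9_pm_202 : ∃ t, chk3 f_pm_202 t 2 4 1 = true := ex3_b s8_pm_202 k2_pm_202

theorem s10_pm_202 : ∃ t, chk3 f_pm_202 t 1 4 1 = true := ex3_a s9_pm_202 s7_pm_202

theorem s11_pm_202 : ∃ t, chk3 f_pm_202 t 1 2 1 = true := ex3_b s10_pm_202 k5_pm_202

theorem s12_pm_202 : ∃ t, chk3 f_pm_202 t 1 1 1 = true := ex3_b s11_pm_202 k6_pm_202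

theorem c_pm_202 : CertNX 1073741824 536870912 1073741824 536870912 1046898278 26843546 3 false true false .pp 2 0 2
    ndN5q2 ndN5q2 pcN0 Cut.none Ext.none :=
  certNX1 (fam := false) (s1 := true) (s2 := false) (a := 2) (b := 0) (c := 2) (cn := .pp) (n1 := ndN5q2) (n2 := ndN5q2) (pc := pcN0) (cut := Cut.none) (xt := Ext.none) (P1 := 1073741824) (W1 := 536870912) (P2 := 1073741824) (W2 := 536870912) (P3 := 1046898278) (W3 := 26843546) (N0 := 3)
    rfl (fun _ => rfl) s12_pm_202

noncomputable def f_pm_203 : ℕ → ℕ → ℕ → ℕ → Bool := onCell 0 536870912 0 1230186008 1046898278 26843546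
    (rowNX 3 2 false true false .up 2 0 3 (qsf 1073741824 536870912 0 1230186008 0) ndN5q2 ndN5q3 pcN0 Cut.none Ext.none)

def k0_pm_203 : ∃ t, chk3 f_pm_203 t 1 2 1 = true :=
  ⟨(a (l 2) (l 3)), by decide +kernel⟩

def k1_pm_203 : ∃ t, chk3 f_pm_203 t 1 6 1 = true :=
  ⟨(a (l 3) (b (l 3) (a (l 3) (a (c (l 283098742599) (l 321753448263)) (c (l 16777200) (l 16777200)))))), by decide +kernel⟩

def k2_pm_203 : ∃ t, chk3 f_pm_203 t 1 14 1 = true :=
  ⟨(a (a (l 2) (a (l 3) (a (a (l 394766926503) (l 285782758263)) (a (l 280414542967) (l 275582550023))))) (a (a (c (l 264845131783) (l 262160777223)) (c (l 213305524231) (l 16777216))) (a (a (l 16777216) (b (l 16777216) (b (l 16777216) (l 16618408)))) (b (a (l 16776496) (b (l 16763016) (a (l 16673960) (l 16403096)))) (a (b (b (l 16704784) (l 16516136)) (l 15775024)) (b (l 15820312) (l 14873608))))))), by decide +kernel⟩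

def k3_pm_203 : ∃ t, chk3 f_pm_203 t 1 30 1 = true :=
  ⟨(a (a (a (l 2) (a (a (l 3) (c (l 277726053255) (l 318528120311))) (a (c (l 272894851287) (l 276115976871)) (l 270210900727)))) (a (b (a (l 326582859463) (l 16178648)) (a (l 15815272) (l 16188872))) (a (a (l 16483352) (l 16655056)) (a (l 16765192) (l 16777216))))) (a (a (c (l 16777216) (l 16777216)) (a (l 16777216) (b (l 16777216) (l 16633240)))) (a (b (a (l 16635576) (l 16015688)) (a (b (l 16272952) (l 15813344)) (l 14918552))) (b (a (l 14949008) (l 14442360)) (a (l 14431824) (l 14698696)))))), by decide +kernel⟩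

def k4_pm_203 : ∃ t, chk3 f_pm_203 t 1 31 1 = true :=
  ⟨(a (a (a (a (b (l 2) (a (b (l 2) (c (a (l 14124152) (c (l 14166688) (l 14138712))) (a (c (l 14048720) (a (l 13985840) (l 14018104))) (c (l 14110376) (l 14069656))))) (c (c (l 482742103223) (a (l 14201968) (l 14288232))) (c (a (c (l 14179464) (l 528912773991)) (c (l 14096872) (l 14228864))) (l 14157944))))) (c (a (c (c (l 14457840) (a (l 14401192) (l 14498464))) (a (c (l 14393896) (a (l 526228797303) (l 14369616))) (c (a (l 510122871111) (l 14465392)) (l 14419304)))) (c (a (c (l 14600288) (a (l 14400752) (l 14559664))) (c (a (l 14621952) (l 14652360)) (l 14608272))) (l 14541960))) (a (l 14330560) (l 14483216)))) (b (a (a (a (c (l 14550512) (l 14645864)) (b (l 252492535319) (a (l 14730808) (l 14900416)))) (c (l 233165893767) (l 249271990935))) (a (a (c (l 15354544) (l 15307504)) (l 15360192)) (b (l 15625456) (l 15832376)))) (a (a (b (l 14754240) (c (l 14961456) (l 14981376))) (c (l 15397704) (l 15440480))) (a (c (l 16130016)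 (l 15876608)) (l 16271120))))) (a (b (a (b (l 15686120) (l 16100328)) (l 16238976)) (a (l 16438960) (l 16600520))) (a (l 16684624) (l 16777096)))) (a (a (b (l 16777216) (a (l 16776888) (l 16478304))) (b (a (l 16610512) (b (l 16246184) (l 15756232))) (a (b (l 16170680) (l 15641752)) (b (l 15217768) (l 14735248))))) (a (b (a (b (l 15306840) (l 14813312)) (l 14431920)) (a (l 14488296) (l 14749088))) (l 15087288)))), by decide +kernel⟩

theorem s5_pm_203 : ∃ t, chk3 f_pm_203 t 1 15 1 = true := ex3_b k3_pm_203 k4_pm_203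

theorem s6_pm_203 : ∃ t, chk3 f_pm_203 t 1 7 1 = true := ex3_b k2_pm_203 s5_pm_203

theorem s7_pm_203 : ∃ t, chk3 f_pm_203 t 1 3 1 = true := ex3_b k1_pm_203 s6_pm_203

theorem s8_pm_203 : ∃ t, chk3 f_pm_203 t 1 1 1 = true := ex3_b k0_pm_203 s7_pm_203

theorem c_pm_203 : CertNX 1073741824 536870912 0 1230186008 1046898278 26843546 3 false true false .up 2 0 3
    ndN5q2 ndN5q3 pcN0 Cut.none Ext.none :=
  certNX2 (fam := false) (s1 := true) (s2 := false) (a := 2) (b := 0) (c := 3) (cn := .up) (n1 := ndN5q2) (n2 := ndN5q3) (pc := pcN0) (cut := Cut.none) (xt := Ext.none) (P1 := 1073741824) (W1 := 536870912) (P2 := 0) (W2 := 1230186008) (P3 := 1046898278) (W3 := 26843546) (N0 := 3)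
    rfl (fun _ => rfl) s8_pm_203

noncomputable def f_pm_213 : ℕ → ℕ → ℕ → ℕ → Bool := onCell 1073741824 536870912 0 1230186008 1046898278 26843546
    (rowNX 3 0 false true false .pnn 2 1 3 (qsf 1073741824 536870912 0 1230186008 1) ndN5q2 ndN5q3 pcN1 Cut.none Ext.none)

def k0_pm_213 : ∃ t, chk3 f_pm_213 t 4 4 1 = true :=
  ⟨(a (b (a (a (c (b (a (l 16233360) (a (l 16367528) (l 16452568))) (a (l 16264736) (c (l 16439120) (b (l 16429616) (c (l 16445392) (l 16440728)))))) (b (a (c (l 16094256) (a (c (l 16169800) (l 16100672)) (l 16259184))) (c (a (l 16167008) (l 16446736)) (l 16395904))) (a (c (b (l 15989328) (a (l 16217048) (l 16218296))) (a (b (l 16106144) (l 16211504)) (l 16049416))) (c (b (l 16421104) (l 16400168)) (l 16430152))))) (c (b (a (c (l 16582736) (b (l 16574664) (l 16585640))) (l 16621688)) (a (c (a (l 16565560) (l 16650600)) (l 16589512)) (l 16661416))) (b (l 16658032) (l 16553640)))) (a (a (b (l 16649216) (l 16549208)) (l 16423200)) (b (l 16138992) (l 16090944))))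 (a (a (b (c (a (c (l 16294808) (b (l 16124096) (a (l 16185208) (l 16166768)))) (c (b (l 16473248) (a (l 16454880) (l 16545368))) (b (l 16294648) (l 16345312)))) (a (c (b (a (l 16089672) (l 16296336)) (l 16143432)) (l 16079896)) (l 16063200))) (c (a (b (c (a (l 16308792) (l 16395968)) (a (l 16185312) (l 16306680))) (c (a (l 16273056) (l 16424640)) (l 16116408))) (b (l 16313088) (l 16131968))) (l 16069952))) (b (c (a (b (l 16521312) (l 16397232)) (l 16429080)) (l 16191016)) (b (a (l 16068448) (l 16064288)) (l 15912952)))) (b (a (l 16210008) (l 15939480)) (a (l 15900232) (l 15695632))))) (b (a (b (l 15558728) (l 15524856)) (l 14696808)) (a (b (l 15452424) (l 15292480)) (b (l 14773856) (a (l 14842696) (l 14576344)))))), by decide +kernel⟩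

def k1_pm_213 : ∃ t, chk3 f_pm_213 t 4 5 1 = true :=
  ⟨(b (a (a (b (a (b (a (c (c (l 16228960) (l 15885200)) (l 15345272)) (l 15742480)) (l 15610120)) (l 15725688)) (a (b (l 15541176) (l 15509528)) (l 15576488))) (b (l 15587688) (l 15447328))) (a (b (l 15149400) (a (l 15168432) (l 14957088))) (b (a (l 14771368) (l 14572304)) (l 14680224)))) (a (a (b (a (l 15494008) (l 15505272)) (l 15518216)) (b (a (l 15426008) (l 15283568)) (a (b (l 15383960) (l 15372232)) (l 15217704)))) (b (a (a (l 15107688) (l 14928728)) (l 14674216)) (a (l 14957640) (l 14621136))))), by decide +kernel⟩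

def k2_pm_213 : ∃ t, chk3 f_pm_213 t 5 2 1 = true :=
  ⟨(b (a (a (b (a (l 14395608) (l 3)) (a (b (l 14366736) (l 14389472)) (l 14594328))) (b (l 3) (l 15314760))) (l 3)) (a (b (a (a (l 14428448) (l 14642040)) (b (l 15382936) (l 15414208))) (a (a (l 14416936) (l 14635904)) (b (l 15419856) (l 15374136)))) (b (a (a (l 16075848) (l 3)) (l 3)) (a (b (l 16311472) (l 16316992)) (l 16729632))))), by decide +kernel⟩

def k3_pm_213 : ∃ t, chk3 f_pm_213 t 2 3 1 = true :=
  ⟨(b (a (b (b (a (a (l 15597832) (l 15291656)) (a (l 14942128) (l 14607144))) (a (l 15486320) (a (l 14945440) (l 14607192)))) (a (b (l 15510344) (l 15522224)) (b (a (l 14946176) (l 14607152)) (l 14772512)))) (a (b (a (a (l 14377360) (l 14597552)) (c (l 15386568) (l 15337760))) (b (a (a (l 14377352) (l 14597544)) (l 15362208)) (a (a (l 14377320) (l 14597512)) (c (l 15386528) (l 15337712))))) (b (a (l 16137200) (c (l 16776608) (l 16776584))) (a (c (b (l 16313088) (l 16313056)) (l 16233872)) (c (l 16776576) (l 16776560))))))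 (a (b (a (l 15522248) (l 14772512)) (a (l 15354480) (l 14772512))) (b (b (a (a (l 14488456) (b (l 15299264) (l 15362176))) (a (c (l 16271112) (l 16296768)) (c (l 16776560) (l 16776544)))) (a (a (l 14488456) (l 15362176)) (l 1))) (a (a (a (l 14377320) (l 1)) (l 1)) (l 1))))), by decide +kernel⟩

def k4_pm_213 : ∃ t, chk3 f_pm_213 t 3 1 1 = true :=
  ⟨(b (b (l 3) (a (l 3) (l 3))) (b (a (a (b (b (l 16777200) (l 16777136)) (b (l 114521276199) (c (l 16777216) (l 16777216)))) (b (l 3) (b (l 3) (l 1)))) (a (l 3) (l 1))) (l 1))), by decide +kernel⟩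

theorem s5_pm_213 : ∃ t, chk3 f_pm_213 t 4 2 1 = true := ex3_b k0_pm_213 k1_pm_213

theorem s6_pm_213 : ∃ t, chk3 f_pm_213 t 2 2 1 = true := ex3_a s5_pm_213 k2_pm_213

theorem s7_pm_213 : ∃ t, chk3 f_pm_213 t 2 1 1 = true := ex3_b s6_pm_213 k3_pm_213

theorem s8_pm_213 : ∃ t, chk3 f_pm_213 t 1 1 1 = true := ex3_a s7_pm_213 k4_pm_213

theorem c_pm_213 : CertNX 1073741824 536870912 0 1230186008 1046898278 26843546 3 false true false .pnn 2 1 3
    ndN5q2 ndN5q3 pcN1 Cut.none Ext.none :=
  certNX0 (fam := false) (s1 := true) (s2 := false) (a := 2) (b := 1) (c := 3) (cn := .pnn) (n1 := ndN5q2) (n2 := ndN5q3) (pc := pcN1) (cut := Cut.none) (xt := Ext.none) (P1 := 1073741824) (W1 := 536870912) (P2 := 0) (W2 := 1230186008) (P3 := 1046898278) (W3 := 26843546) (N0 := 3)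
    rfl s8_pm_213

noncomputable def f_pm_303 : ℕ → ℕ → ℕ → ℕ → Bool := onCell 0 1230186008 0 1230186008 1046898278 26843546
    (rowNX 3 0 false true false .npn 3 0 3 (qsf 0 1230186008 0 1230186008 0) ndN5q3 ndN5q3 pcN0 Cut.none Ext.none)

def k0_pm_303 : ∃ t, chk3 f_pm_303 t 2 1 1 = true :=
  ⟨(b (l 3) (l 3)), by decide +kernel⟩

def k1_pm_303 : ∃ t, chk3 f_pm_303 t 3 2 1 = true :=
  ⟨(l 3), by decide +kernel⟩

def k2_pm_303 : ∃ t, chk3 f_pm_303 t 6 3 1 = true :=
  ⟨(l 3), by decide +kernel⟩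

def k3_pm_303 : ∃ t, chk3 f_pm_303 t 7 6 1 = true :=
  ⟨(l 3), by decide +kernel⟩

def k4_pm_303 : ∃ t, chk3 f_pm_303 t 14 7 1 = true :=
  ⟨(l 3), by decide +kernel⟩

def k5_pm_303 : ∃ t, chk3 f_pm_303 t 15 14 1 = true :=
  ⟨(l 3), by decide +kernel⟩

def k6_pm_303 : ∃ t, chk3 f_pm_303 t 15 30 1 = true :=
  ⟨(l 3), by decide +kernel⟩

def k7_pm_303 : ∃ t, chk3 f_pm_303 t 30 31 1 = true :=
  ⟨(l 3), by decide +kernel⟩

def k8_pm_303 : ∃ t, chk3 f_pm_303 t 31 62 1 = true :=
  ⟨(a (l 3) (b (l 3) (a (l 3) (a (b (l 3) (a (a (l 3) (b (l 3) (c (l 14233392) (l 14034416)))) (b (c (l 14297112) (l 14230256)) (c (l 14266992) (l 14016576))))) (c (c (b (b (l 14384488) (l 14427024)) (l 14377952)) (b (l 14185392) (b (a (l 14351080) (l 14391160)) (c (l 14336336) (l 14175552))))) (c (c (l 14217472) (l 14311320)) (l 14279232))))))), by decide +kernel⟩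

def k9_pm_303 : ∃ t, chk3 f_pm_303 t 62 63 1 = true :=
  ⟨(b (l 3) (l 1)), by decide +kernel⟩

def k10_pm_303 : ∃ t, chk3 f_pm_303 t 126 63 1 = true :=
  ⟨(a (b (b (l 3) (a (l 1) (c (l 13963488) (l 13848824)))) (l 1)) (b (c (b (l 14104952) (l 14012016)) (c (b (b (b (l 3) (l 14052920)) (l 14024976)) (b (a (l 13965056) (l 14003152)) (l 13931200))) (a (b (a (l 3) (b (l 3) (c (l 13979128) (c (l 13960416) (l 13946672))))) (b (c (l 13928552) (c (l 13912200) (b (l 320136598055) (l 13888504)))) (l 13864288))) (b (c (b (c (l 13930088) (l 14048032)) (c (l 14021528) (a (l 13997448) (l 14016856)))) (l 14002544)) (c (b (l 13971376) (l 13928632)) (b (c (a (l 13943704) (l 13970208)) (l 13918160)) (l 13681096))))))) (c (l 13606600) (b (l 324297128119) (l 1))))), by decide +kernel⟩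

def k11_pm_303 : ∃ t, chk3 f_pm_303 t 127 63 1 = true :=
  ⟨(a (b (c (b (l 14191344) (b (l 14124968) (l 14091536))) (c (b (c (a (l 14126864) (b (l 14075440) (l 14147920))) (a (b (a (l 14099880) (l 14137584)) (l 13953672)) (b (l 14168464) (c (l 14131424) (l 14123368))))) (b (a (l 14049392) (l 14096816)) (a (l 14006728) (l 14058104)))) (b (c (a (c (b (l 14104024) (l 14017288)) (l 14071344)) (l 14122400)) (l 14075280)) (c (a (b (b (l 14025232) (l 14011352)) (l 13978504)) (b (l 14056696) (b (l 14034360) (l 14022696)))) (b (l 14018432) (b (l 13815608) (l 13976576))))))) (c (b (l 13876688) (l 13933352)) (b (c (a (l 13939264) (b (l 14018936) (l 13984584))) (c (a (l 13912680) (b (l 13991184) (l 13952632))) (b (a (l 13864072) (l 13971504)) (l 13913280)))) (l 13702608)))) (b (c (c (l 14249000) (b (c (l 14283080) (a (l 14235352) (b (l 14316408) (l 14264064)))) (l 14185616))) (c (b (c (a (b (l 14242136) (b (a (l 14191528) (l 14230488)) (l 14185856))) (b (l 14284688) (l 14250400))) (l 14207040))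 (c (b (l 14181184) (l 14144064)) (b (l 14151600) (c (l 14127712) (l 14029568))))) (b (l 14169568) (c (b (l 14134352) (l 14070544)) (l 14095296))))) (b (b (c (l 14139192) (c (a (l 14069568) (l 14123272)) (l 14053232))) (c (a (l 14105824) (l 14124752)) (c (a (l 14037912) (l 14077944)) (c (l 13793304) (l 14005560))))) (c (l 14066632) (c (b (a (l 13992240) (l 14044544)) (l 13973968)) (b (a (l 13970696) (c (l 14023240) (l 14011992))) (l 13954624))))))), by decide +kernel⟩

theorem s12_pm_303 : ∃ t, chk3 f_pm_303 t 63 63 1 = true := ex3_a k10_pm_303 k11_pm_303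

theorem s13_pm_303 : ∃ t, chk3 f_pm_303 t 31 63 1 = true := ex3_a k9_pm_303 s12_pm_303

theorem s14_pm_303 : ∃ t, chk3 f_pm_303 t 31 31 1 = true := ex3_b k8_pm_303 s13_pm_303

theorem s15_pm_303 : ∃ t, chk3 f_pm_303 t 15 31 1 = true := ex3_a k7_pm_303 s14_pm_303

theorem s16_pm_303 : ∃ t, chk3 f_pm_303 t 15 15 1 = true := ex3_b k6_pm_303 s15_pm_303

theorem s17_pm_303 : ∃ t, chk3 f_pm_303 t 15 7 1 = true := ex3_b k5_pm_303 s16_pm_303

theorem s18_pm_303 : ∃ t, chk3 f_pm_303 t 7 7 1 = true := ex3_a k4_pm_303 s17_pm_303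

theorem s19_pm_303 : ∃ t, chk3 f_pm_303 t 7 3 1 = true := ex3_b k3_pm_303 s18_pm_303

theorem s20_pm_303 : ∃ t, chk3 f_pm_303 t 3 3 1 = true := ex3_a k2_pm_303 s19_pm_303

theorem s21_pm_303 : ∃ t, chk3 f_pm_303 t 3 1 1 = true := ex3_b k1_pm_303 s20_pm_303

theorem s22_pm_303 : ∃ t, chk3 f_pm_303 t 1 1 1 = true := ex3_a k0_pm_303 s21_pm_303

theorem c_pm_303 : CertNX 0 1230186008 0 1230186008 1046898278 26843546 3 false true false .npn 3 0 3
    ndN5q3 ndN5q3 pcN0 Cut.none Ext.none :=
  certNX0 (fam := false) (s1 := true) (s2 := false) (a := 3) (b := 0) (c := 3) (cn := .npn) (n1 := ndN5q3) (n2 := ndN5q3) (pc := pcN0) (cut := Cut.none) (xt := Ext.none) (P1 := 0) (W1 := 1230186008) (P2 := 0) (W2 := 1230186008) (P3 := 1046898278) (W3 := 26843546) (N0 := 3)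
    rfl s22_pm_303

noncomputable def f_pm_313 : ℕ → ℕ → ℕ → ℕ → Bool := onCell 0 1230186008 0 1230186008 1046898278 26843546
    (rowNX 3 0 false true false .dn 3 1 3 (qsf 0 1230186008 0 1230186008 1) ndN5q3 ndN5q3 pcN1 Cut.none Ext.none)

def k0_pm_313 : ∃ t, chk3 f_pm_313 t 1 1 1 = true :=
  ⟨(a (l 1) (b (l 3) (l 1))), by decide +kernel⟩

theorem c_pm_313 : CertNX 0 1230186008 0 1230186008 1046898278 26843546 3 false true false .dn 3 1 3
    ndN5q3 ndN5q3 pcN1 Cut.none Ext.none :=
  certNX0 (fam := false) (s1 := true) (s2 := false) (a := 3) (b := 1) (c := 3) (cn := .dn) (n1 := ndN5q3) (n2 := ndN5q3) (pc := pcN1) (cut := Cut.none) (xt := Ext.none) (P1 := 0) (W1 := 1230186008) (P2 := 0) (W2 := 1230186008) (P3 := 1046898278) (W3 := 26843546) (N0 := 3)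
    rfl k0_pm_313

noncomputable def f_mm_001 : ℕ → ℕ → ℕ → ℕ → Bool := onCell 0 536870912 536870912 469762048 1046898278 26843546
    (rowNX 3 0 false false false .up 0 0 1 (qsf 0 536870912 536870912 469762048 0) ndN5q0 ndN5q1 pcN0 Cut.none Ext.none)

def k0_mm_001 : ∃ t, chk3 f_mm_001 t 1 1 1 = true :=
  ⟨(l 3), by decide +kernel⟩

theorem c_mm_001 : CertNX 0 536870912 536870912 469762048 1046898278 26843546 3 false false false .up 0 0 1
    ndN5q0 ndN5q1 pcN0 Cut.none Ext.none :=
  certNX0 (fam := false) (s1 := false) (s2 := false) (a := 0) (b := 0) (c := 1) (cn := .up) (n1 := ndN5q0) (n2 := ndN5q1) (pc := pcN0) (cut := Cut.none) (xt := Ext.none) (P1 := 0) (W1 := 536870912) (P2 := 536870912) (W2 := 469762048) (P3 := 1046898278) (W3 := 26843546) (N0 := 3)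
    rfl k0_mm_001

noncomputable def f_mm_011 : ℕ → ℕ → ℕ → ℕ → Bool := onCell 0 536870912 536870912 469762048 1046898278 26843546
    (rowNX 3 0 false false false .pnn 0 1 1 (qsf 0 536870912 536870912 469762048 1) ndN5q0 ndN5q1 pcN1 Cut.none Ext.none)

def k0_mm_011 : ∃ t, chk3 f_mm_011 t 1 1 1 = true :=
  ⟨(l 3), by decide +kernel⟩

theorem c_mm_011 : CertNX 0 536870912 536870912 469762048 1046898278 26843546 3 false false false .pnn 0 1 1
    ndN5q0 ndN5q1 pcN1 Cut.none Ext.none :=
  certNX0 (fam := false) (s1 := false) (s2 := false) (a := 0) (b := 1) (c := 1) (cn := .pnn) (n1 := ndN5q0) (n2 := ndN5q1) (pc := pcN1) (cut := Cut.none) (xt := Ext.none) (P1 := 0) (W1 := 536870912) (P2 := 536870912) (W2 := 469762048) (P3 := 1046898278) (W3 := 26843546) (N0 := 3)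
    rfl k0_mm_011

noncomputable def f_mm_012 : ℕ → ℕ → ℕ → ℕ → Bool := onCell 0 536870912 1073741824 536870912 1046898278 26843546
    (rowNX 3 0 false false false .pnp 0 1 2 (qsf 0 536870912 1073741824 536870912 1) ndN5q0 ndN5q2 pcN1 Cut.none Ext.none)

def k0_mm_012 : ∃ t, chk3 f_mm_012 t 1 1 1 = true :=
  ⟨(l 5), by decide +kernel⟩

theorem c_mm_012 : CertNX 0 536870912 1073741824 536870912 1046898278 26843546 3 false false false .pnp 0 1 2
    ndN5q0 ndN5q2 pcN1 Cut.none Ext.none :=
  certNX0 (fam := false) (s1 := false) (s2 := false) (a := 0) (b := 1) (c := 2) (cn := .pnp) (n1 := ndN5q0) (n2 := ndN5q2) (pc := pcN1) (cut := Cut.none) (xt := Ext.none) (P1 := 0) (W1 := 536870912) (P2 := 1073741824) (W2 := 536870912) (P3 := 1046898278) (W3 := 26843546) (N0 := 3)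
    rfl k0_mm_012

noncomputable def f_mm_022 : ℕ → ℕ → ℕ → ℕ → Bool := onCell 0 536870912 1073741824 536870912 1046898278 26843546
    (rowNX 3 0 false false false .pp 0 2 2 (qsf 0 536870912 1073741824 536870912 2) ndN5q0 ndN5q2 pcN2 Cut.none Ext.none)

def k0_mm_022 : ∃ t, chk3 f_mm_022 t 1 1 1 = true :=
  ⟨(l 5), by decide +kernel⟩

theorem c_mm_022 : CertNX 0 536870912 1073741824 536870912 1046898278 26843546 3 false false false .pp 0 2 2
    ndN5q0 ndN5q2 pcN2 Cut.none Ext.none :=
  certNX0 (fam := false) (s1 := false) (s2 := false) (a := 0) (b := 2) (c := 2) (cn := .pp) (n1 := ndN5q0) (n2 := ndN5q2) (pc := pcN2) (cut := Cut.none) (xt := Ext.none) (P1 := 0) (W1 := 536870912) (P2 := 1073741824) (W2 := 536870912) (P3 := 1046898278) (W3 := 26843546) (N0 := 3)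
    rfl k0_mm_022

noncomputable def f_mm_023 : ℕ → ℕ → ℕ → ℕ → Bool := onCell 0 536870912 0 1230186008 1046898278 26843546
    (rowNX 3 0 false false false .up 0 2 3 (qsf 0 536870912 0 1230186008 2) ndN5q0 ndN5q3 pcN2 Cut.none Ext.none)

def k0_mm_023 : ∃ t, chk3 f_mm_023 t 1 1 1 = true :=
  ⟨(l 5), by decide +kernel⟩

theorem c_mm_023 : CertNX 0 536870912 0 1230186008 1046898278 26843546 3 false false false .up 0 2 3
    ndN5q0 ndN5q3 pcN2 Cut.none Ext.none :=
  certNX0 (fam := false) (s1 := false) (s2 := false) (a := 0) (b := 2) (c := 3) (cn := .up) (n1 := ndN5q0) (n2 := ndN5q3) (pc := pcN2) (cut := Cut.none) (xt := Ext.none) (P1 := 0) (W1 := 536870912) (P2 := 0) (W2 := 1230186008) (P3 := 1046898278) (W3 := 26843546) (N0 := 3)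
    rfl k0_mm_023

noncomputable def f_mm_033 : ℕ → ℕ → ℕ → ℕ → Bool := onCell 0 536870912 0 1230186008 1046898278 26843546
    (rowNX 3 0 false false false .pnn 0 3 3 (qsf 0 536870912 0 1230186008 3) ndN5q0 ndN5q3 pcN3 Cut.none Ext.none)

def k0_mm_033 : ∃ t, chk3 f_mm_033 t 1 1 1 = true :=
  ⟨(l 5), by decide +kernel⟩

theorem c_mm_033 : CertNX 0 536870912 0 1230186008 1046898278 26843546 3 false false false .pnn 0 3 3
    ndN5q0 ndN5q3 pcN3 Cut.none Ext.none :=
  certNX0 (fam := false) (s1 := false) (s2 := false) (a := 0) (b := 3) (c := 3) (cn := .pnn) (n1 := ndN5q0) (n2 := ndN5q3) (pc := pcN3) (cut := Cut.none) (xt := Ext.none) (P1 := 0) (W1 := 536870912) (P2 := 0) (W2 := 1230186008) (P3 := 1046898278) (W3 := 26843546) (N0 := 3)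
    rfl k0_mm_033

noncomputable def f_mm_101 : ℕ → ℕ → ℕ → ℕ → Bool := onCell 536870912 469762048 536870912 469762048 1046898278 26843546
    (rowNX 3 0 false false false .npn 1 0 1 (qsf 536870912 469762048 536870912 469762048 0) ndN5q1 ndN5q1 pcN0 Cut.none Ext.none)

def k0_mm_101 : ∃ t, chk3 f_mm_101 t 1 1 1 = true :=
  ⟨(l 3), by decide +kernel⟩

theorem c_mm_101 : CertNX 536870912 469762048 536870912 469762048 1046898278 26843546 3 false false false .npn 1 0 1
    ndN5q1 ndN5q1 pcN0 Cut.none Ext.none :=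
  certNX0 (fam := false) (s1 := false) (s2 := false) (a := 1) (b := 0) (c := 1) (cn := .npn) (n1 := ndN5q1) (n2 := ndN5q1) (pc := pcN0) (cut := Cut.none) (xt := Ext.none) (P1 := 536870912) (W1 := 469762048) (P2 := 536870912) (W2 := 469762048) (P3 := 1046898278) (W3 := 26843546) (N0 := 3)
    rfl k0_mm_101

noncomputable def f_mm_102 : ℕ → ℕ → ℕ → ℕ → Bool := onCell 536870912 469762048 1073741824 536870912 1046898278 26843546
    (rowNX 3 0 false false false .npp 1 0 2 (qsf 536870912 469762048 1073741824 536870912 0) ndN5q1 ndN5q2 pcN0 Cut.none Ext.none)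

def k0_mm_102 : ∃ t, chk3 f_mm_102 t 1 1 1 = true :=
  ⟨(l 5), by decide +kernel⟩

theorem c_mm_102 : CertNX 536870912 469762048 1073741824 536870912 1046898278 26843546 3 false false false .npp 1 0 2
    ndN5q1 ndN5q2 pcN0 Cut.none Ext.none :=
  certNX0 (fam := false) (s1 := false) (s2 := false) (a := 1) (b := 0) (c := 2) (cn := .npp) (n1 := ndN5q1) (n2 := ndN5q2) (pc := pcN0) (cut := Cut.none) (xt := Ext.none) (P1 := 536870912) (W1 := 469762048) (P2 := 1073741824) (W2 := 536870912) (P3 := 1046898278) (W3 := 26843546) (N0 := 3)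
    rfl k0_mm_102

noncomputable def f_mm_112 : ℕ → ℕ → ℕ → ℕ → Bool := onCell 536870912 469762048 1073741824 536870912 1046898278 26843546
    (rowNX 3 0 false false false .dn 1 1 2 (qsf 536870912 469762048 1073741824 536870912 1) ndN5q1 ndN5q2 pcN1 Cut.none Ext.none)

def k0_mm_112 : ∃ t, chk3 f_mm_112 t 1 1 1 = true :=
  ⟨(l 5), by decide +kernel⟩

theorem c_mm_112 : CertNX 536870912 469762048 1073741824 536870912 1046898278 26843546 3 false false false .dn 1 1 2
    ndN5q1 ndN5q2 pcN1 Cut.none Ext.none :=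
  certNX0 (fam := false) (s1 := false) (s2 := false) (a := 1) (b := 1) (c := 2) (cn := .dn) (n1 := ndN5q1) (n2 := ndN5q2) (pc := pcN1) (cut := Cut.none) (xt := Ext.none) (P1 := 536870912) (W1 := 469762048) (P2 := 1073741824) (W2 := 536870912) (P3 := 1046898278) (W3 := 26843546) (N0 := 3)
    rfl k0_mm_112

noncomputable def f_mm_113 : ℕ → ℕ → ℕ → ℕ → Bool := onCell 536870912 469762048 0 1230186008 1046898278 26843546
    (rowNX 3 0 false false false .nn 1 1 3 (qsf 536870912 469762048 0 1230186008 1) ndN5q1 ndN5q3 pcN1 Cut.none Ext.none)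

def k0_mm_113 : ∃ t, chk3 f_mm_113 t 1 1 1 = true :=
  ⟨(l 5), by decide +kernel⟩

theorem c_mm_113 : CertNX 536870912 469762048 0 1230186008 1046898278 26843546 3 false false false .nn 1 1 3
    ndN5q1 ndN5q3 pcN1 Cut.none Ext.none :=
  certNX0 (fam := false) (s1 := false) (s2 := false) (a := 1) (b := 1) (c := 3) (cn := .nn) (n1 := ndN5q1) (n2 := ndN5q3) (pc := pcN1) (cut := Cut.none) (xt := Ext.none) (P1 := 536870912) (W1 := 469762048) (P2 := 0) (W2 := 1230186008) (P3 := 1046898278) (W3 := 26843546) (N0 := 3)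
    rfl k0_mm_113

noncomputable def f_mm_123 : ℕ → ℕ → ℕ → ℕ → Bool := onCell 536870912 469762048 0 1230186008 1046898278 26843546
    (rowNX 3 0 false false false .npn 1 2 3 (qsf 536870912 469762048 0 1230186008 2) ndN5q1 ndN5q3 pcN2 Cut.none Ext.none)

def k0_mm_123 : ∃ t, chk3 f_mm_123 t 1 1 1 = true :=
  ⟨(l 5), by decide +kernel⟩

theorem c_mm_123 : CertNX 536870912 469762048 0 1230186008 1046898278 26843546 3 false false false .npn 1 2 3
    ndN5q1 ndN5q3 pcN2 Cut.none Ext.none :=
  certNX0 (fam := false) (s1 := false) (s2 := false) (a := 1) (b := 2) (c := 3) (cn := .npn) (n1 := ndN5q1) (n2 := ndN5q3) (pc := pcN2) (cut := Cut.none) (xt := Ext.none) (P1 := 536870912) (W1 := 469762048) (P2 := 0) (W2 := 1230186008) (P3 := 1046898278) (W3 := 26843546) (N0 := 3)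
    rfl k0_mm_123

noncomputable def f_mm_133 : ℕ → ℕ → ℕ → ℕ → Bool := onCell 536870912 469762048 0 1230186008 1046898278 26843546
    (rowNX 3 0 false false false .dn 1 3 3 (qsf 536870912 469762048 0 1230186008 3) ndN5q1 ndN5q3 pcN3 Cut.none Ext.none)

def k0_mm_133 : ∃ t, chk3 f_mm_133 t 1 1 1 = true :=
  ⟨(l 5), by decide +kernel⟩

theorem c_mm_133 : CertNX 536870912 469762048 0 1230186008 1046898278 26843546 3 false false false .dn 1 3 3
    ndN5q1 ndN5q3 pcN3 Cut.none Ext.none :=
  certNX0 (fam := false) (s1 := false) (s2 := false) (a := 1) (b := 3) (c := 3) (cn := .dn) (n1 := ndN5q1) (n2 := ndN5q3) (pc := pcN3) (cut := Cut.none) (xt := Ext.none) (P1 := 536870912) (W1 := 469762048) (P2 := 0) (W2 := 1230186008) (P3 := 1046898278) (W3 := 26843546) (N0 := 3)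
    rfl k0_mm_133

noncomputable def f_mm_202 : ℕ → ℕ → ℕ → ℕ → Bool := onCell 1073741824 536870912 1073741824 536870912 1046898278 26843546
    (rowNX 3 0 false false false .pp 2 0 2 (qsf 1073741824 536870912 1073741824 536870912 0) ndN5q2 ndN5q2 pcN0 Cut.none Ext.none)

def k0_mm_202 : ∃ t, chk3 f_mm_202 t 1 1 1 = true :=
  ⟨(l 3), by decide +kernel⟩

theorem c_mm_202 : CertNX 1073741824 536870912 1073741824 536870912 1046898278 26843546 3 false false false .pp 2 0 2
    ndN5q2 ndN5q2 pcN0 Cut.none Ext.none :=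
  certNX0 (fam := false) (s1 := false) (s2 := false) (a := 2) (b := 0) (c := 2) (cn := .pp) (n1 := ndN5q2) (n2 := ndN5q2) (pc := pcN0) (cut := Cut.none) (xt := Ext.none) (P1 := 1073741824) (W1 := 536870912) (P2 := 1073741824) (W2 := 536870912) (P3 := 1046898278) (W3 := 26843546) (N0 := 3)
    rfl k0_mm_202

noncomputable def f_mm_203 : ℕ → ℕ → ℕ → ℕ → Bool := onCell 0 536870912 0 1230186008 1046898278 26843546
    (rowNX 3 2 false false false .up 2 0 3 (qsf 1073741824 536870912 0 1230186008 0) ndN5q2 ndN5q3 pcN0 Cut.none Ext.none)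

def k0_mm_203 : ∃ t, chk3 f_mm_203 t 1 1 1 = true :=
  ⟨(b (l 3) (l 3)), by decide +kernel⟩

theorem c_mm_203 : CertNX 1073741824 536870912 0 1230186008 1046898278 26843546 3 false false false .up 2 0 3
    ndN5q2 ndN5q3 pcN0 Cut.none Ext.none :=
  certNX2 (fam := false) (s1 := false) (s2 := false) (a := 2) (b := 0) (c := 3) (cn := .up) (n1 := ndN5q2) (n2 := ndN5q3) (pc := pcN0) (cut := Cut.none) (xt := Ext.none) (P1 := 1073741824) (W1 := 536870912) (P2 := 0) (W2 := 1230186008) (P3 := 1046898278) (W3 := 26843546) (N0 := 3)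
    rfl (fun _ => rfl) k0_mm_203

noncomputable def f_mm_213 : ℕ → ℕ → ℕ → ℕ → Bool := onCell 536870912 536870912 0 1230186008 1046898278 26843546
    (rowNX 3 2 false false false .pnn 2 1 3 (qsf 1073741824 536870912 0 1230186008 1) ndN5q2 ndN5q3 pcN1 Cut.none Ext.none)

def k0_mm_213 : ∃ t, chk3 f_mm_213 t 1 1 1 = true :=
  ⟨(b (l 5) (l 5)), by decide +kernel⟩

theorem c_mm_213 : CertNX 1073741824 536870912 0 1230186008 1046898278 26843546 3 false false false .pnn 2 1 3
    ndN5q2 ndN5q3 pcN1 Cut.none Ext.none :=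
  certNX2 (fam := false) (s1 := false) (s2 := false) (a := 2) (b := 1) (c := 3) (cn := .pnn) (n1 := ndN5q2) (n2 := ndN5q3) (pc := pcN1) (cut := Cut.none) (xt := Ext.none) (P1 := 1073741824) (W1 := 536870912) (P2 := 0) (W2 := 1230186008) (P3 := 1046898278) (W3 := 26843546) (N0 := 3)
    rfl (fun _ => rfl) k0_mm_213

noncomputable def f_mm_303 : ℕ → ℕ → ℕ → ℕ → Bool := onCell 0 1230186008 0 1230186008 1046898278 26843546
    (rowNX 3 0 false false false .npn 3 0 3 (qsf 0 1230186008 0 1230186008 0) ndN5q3 ndN5q3 pcN0 Cut.none Ext.none)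

def k0_mm_303 : ∃ t, chk3 f_mm_303 t 1 1 1 = true :=
  ⟨(a (b (l 3) (l 3)) (b (l 3) (l 3))), by decide +kernel⟩

theorem c_mm_303 : CertNX 0 1230186008 0 1230186008 1046898278 26843546 3 false false false .npn 3 0 3
    ndN5q3 ndN5q3 pcN0 Cut.none Ext.none :=
  certNX0 (fam := false) (s1 := false) (s2 := false) (a := 3) (b := 0) (c := 3) (cn := .npn) (n1 := ndN5q3) (n2 := ndN5q3) (pc := pcN0) (cut := Cut.none) (xt := Ext.none) (P1 := 0) (W1 := 1230186008) (P2 := 0) (W2 := 1230186008) (P3 := 1046898278) (W3 := 26843546) (N0 := 3)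
    rfl k0_mm_303

noncomputable def f_mm_313 : ℕ → ℕ → ℕ → ℕ → Bool := onCell 0 1230186008 0 1230186008 1046898278 26843546
    (rowNX 3 0 false false false .dn 3 1 3 (qsf 0 1230186008 0 1230186008 1) ndN5q3 ndN5q3 pcN1 Cut.none Ext.none)

def k0_mm_313 : ∃ t, chk3 f_mm_313 t 1 1 1 = true :=
  ⟨(a (l 1) (b (l 3) (l 1))), by decide +kernel⟩

theorem c_mm_313 : CertNX 0 1230186008 0 1230186008 1046898278 26843546 3 false false false .dn 3 1 3
    ndN5q3 ndN5q3 pcN1 Cut.none Ext.none :=
  certNX0 (fam := false) (s1 := false) (s2 := false) (a := 3) (b := 1) (c := 3) (cn := .dn) (n1 := ndN5q3) (n2 := ndN5q3) (pc := pcN1) (cut := Cut.none) (xt := Ext.none) (P1 := 0) (W1 := 1230186008) (P2 := 0) (W2 := 1230186008) (P3 := 1046898278) (W3 := 26843546) (N0 := 3)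
    rfl k0_mm_313

end Pool.Agent.Strip051.G.IE1.Tab.C.NB55

namespace Pool.Agent.Strip051.G.IE1.Tab.C.NB56

open Pool.Agent.Strip051.PB Pool.Agent.Strip051.PB.T
open Pool.Agent.Strip051.G.IE1.Tab

noncomputable def f_pp_001 : ℕ → ℕ → ℕ → ℕ → Bool := onCell 0 536870912 536870912 469762048 1046898278 26843546
    (rowNX 3 0 false true true .up 0 0 1 (qsf 0 536870912 536870912 469762048 0) ndN5q0 ndN6q1 pcN0 Cut.none Ext.none)

def k0_pp_001 : ∃ t, chk3 f_pp_001 t 1 1 1 = true :=
  ⟨(l 3), by decide +kernel⟩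

theorem c_pp_001 : CertNX 0 536870912 536870912 469762048 1046898278 26843546 3 false true true .up 0 0 1
    ndN5q0 ndN6q1 pcN0 Cut.none Ext.none :=
  certNX0 (fam := false) (s1 := true) (s2 := true) (a := 0) (b := 0) (c := 1) (cn := .up) (n1 := ndN5q0) (n2 := ndN6q1) (pc := pcN0) (cut := Cut.none) (xt := Ext.none) (P1 := 0) (W1 := 536870912) (P2 := 536870912) (W2 := 469762048) (P3 := 1046898278) (W3 := 26843546) (N0 := 3)
    rfl k0_pp_001

noncomputable def f_pp_011 : ℕ → ℕ → ℕ → ℕ → Bool := onCell 0 536870912 536870912 469762048 1046898278 26843546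
    (rowNX 3 0 false true true .pnn 0 1 1 (qsf 0 536870912 536870912 469762048 1) ndN5q0 ndN6q1 pcN1 Cut.none Ext.none)

def k0_pp_011 : ∃ t, chk3 f_pp_011 t 1 1 1 = true :=
  ⟨(l 3), by decide +kernel⟩

theorem c_pp_011 : CertNX 0 536870912 536870912 469762048 1046898278 26843546 3 false true true .pnn 0 1 1
    ndN5q0 ndN6q1 pcN1 Cut.none Ext.none :=
  certNX0 (fam := false) (s1 := true) (s2 := true) (a := 0) (b := 1) (c := 1) (cn := .pnn) (n1 := ndN5q0) (n2 := ndN6q1) (pc := pcN1) (cut := Cut.none) (xt := Ext.none) (P1 := 0) (W1 := 536870912) (P2 := 536870912) (W2 := 469762048) (P3 := 1046898278) (W3 := 26843546) (N0 := 3)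
    rfl k0_pp_011

noncomputable def f_pp_012 : ℕ → ℕ → ℕ → ℕ → Bool := onCell 0 536870912 536870912 536870912 1046898278 26843546
    (rowNX 3 1 false true true .pnp 0 1 2 (qsf 0 536870912 1073741824 536870912 1) ndN5q0 ndN6q2 pcN1 Cut.none Ext.none)

def k0_pp_012 : ∃ t, chk3 f_pp_012 t 1 1 1 = true :=
  ⟨(b (l 3) (a (l 3) (a (l 3) (b (l 3) (b (l 3) (b (b (l 3) (l 15607888)) (b (c (a (l 3) (l 15502552)) (l 15485632)) (c (l 15436672) (a (l 633135307207) (l 15189816)))))))))), by decide +kernel⟩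

theorem c_pp_012 : CertNX 0 536870912 1073741824 536870912 1046898278 26843546 3 false true true .pnp 0 1 2
    ndN5q0 ndN6q2 pcN1 Cut.none Ext.none :=
  certNX1 (fam := false) (s1 := true) (s2 := true) (a := 0) (b := 1) (c := 2) (cn := .pnp) (n1 := ndN5q0) (n2 := ndN6q2) (pc := pcN1) (cut := Cut.none) (xt := Ext.none) (P1 := 0) (W1 := 536870912) (P2 := 1073741824) (W2 := 536870912) (P3 := 1046898278) (W3 := 26843546) (N0 := 3)
    rfl (fun _ => rfl) k0_pp_012

end Pool.Agent.Strip051.G.IE1.Tab.C.NB56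

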