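import Pool.Agent.Strip051.G.IE1.Tab

/-! # Certificates N80 (generated) -/

set_option linter.all false
set_option maxRecDepth 100000

namespace Pool.Agent.Strip051.G.IE1.Tab.C.NB56

open Pool.Agent.Strip051.PB Pool.Agent.Strip051.PB.T
open Pool.Agent.Strip051.G.IE1.Tab

noncomputable def f_pp_022 : ℕ → ℕ → ℕ → ℕ → Bool := onCell 0 536870912 1073741824 536870912 1046898278 26843546
    (rowNX 3 1 false true true .pp 0 2 2 (qsf 0 536870912 1073741824 536870912 2) ndN5q0 ndN6q2 pcN2 Cut.none Ext.none)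

def k0_pp_022 : ∃ t, chk3 f_pp_022 t 1 8 1 = true :=
  ⟨(a (l 3) (a (a (b (l 3) (b (b (l 3) (l 15891792)) (b (b (l 16019400) (l 693803011175)) (a (l 16187784) (l 364701299287))))) (b (b (l 3) (c (b (c (l 640651948791) (l 661052986647)) (c (l 633135894903) (l 15638704))) (l 15564992))) (b (c (l 313697785335) (l 15535352)) (b (a (l 15941168) (l 15872736)) (c (a (l 15969272) (l 15695656)) (l 15691632)))))) (a (b (b (c (c (l 15425096) (l 636356616903)) (b (c (l 15423608) (b (l 645483299799) (l 15407008))) (b (c (l 15350184) (l 15442600)) (l 15498080)))) (c (b (c (l 15624848) (l 15529800)) (l 15654760)) (l 15567200))) (a (c (b (l 15682568) (l 15536272)) (l 15674488)) (c (l 15431528) (l 15569616)))) (b (a (b (c (l 15611264) (l 15561272)) (l 15616704)) (b (l 15444560) (l 15614352))) (b (l 15391424) (a (l 15438832) (l 2))))))), by decide +kernel⟩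

def k1_pp_022 : ∃ t, chk3 f_pp_022 t 1 9 1 = true :=
  ⟨(a (a (b (l 3) (a (l 3) (a (l 3) (a (l 3) (b (l 3) (c (l 1237116843639) (l 1176987253911))))))) (b (a (l 3) (b (a (l 3) (l 810841536039)) (a (c (l 16654352) (l 16589488)) (b (l 16356264) (l 16658784))))) (b (a (b (c (l 1534007194311) (l 1017536848711)) (c (l 16254896) (l 16282912))) (b (a (c (l 16686784) (l 16683672)) (c (l 16764488) (l 16764040))) (a (l 16647296) (l 16728688)))) (a (a (c (l 686824412375) (l 693803699047)) (b (c (l 16480120) (l 16469656)) (c (l 16469192) (l 16458288)))) (a (b (a (l 16612848) (l 16690752)) (l 16616128)) (l 16637072)))))) (b (a (a (b (b (c (l 16251088) (l 16232552)) (a (l 16365544) (l 16337832))) (b (a (l 16527520) (l 16458008)) (l 16578160))) (a (b (l 15936448) (l 16499920)) (c (b (a (l 16059432) (l 15856800)) (c (l 16247112) (l 16222984))) (b (l 15795064) (l 16246552))))) (a (b (c (a (l 15692888) (l 15653760)) (l 15496792)) (c (a (l 15940008) (l 15515456)) (a (l 15937472) (l 15535200))))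 (b (a (l 15334240) (l 2)) (l 2)))) (a (a (b (b (a (l 16769624) (l 16744920)) (l 16768552)) (a (l 16656952) (l 16729192))) (b (b (a (l 16652792) (c (a (l 16473400) (l 16238616)) (a (l 16515984) (l 16361456)))) (c (a (l 16527488) (a (l 16469896) (l 16199072))) (a (l 16569800) (l 16406840)))) (a (a (l 16585904) (c (l 16383208) (l 16426952))) (c (l 15997648) (l 16106872))))) (a (a (b (c (b (l 16045736) (l 15972744)) (l 15882520)) (a (l 15915584) (l 15456128))) (c (l 15092056) (l 15206568))) (l 2))))), by decide +kernel⟩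

def k2_pp_022 : ∃ t, chk3 f_pp_022 t 8 40 1 = true :=
  ⟨(b (l 3) (b (l 3) (a (l 3) (a (l 3) (c (l 1423409826103) (l 15634832)))))), by decide +kernel⟩

def k3_pp_022 : ∃ t, chk3 f_pp_022 t 8 82 1 = true :=
  ⟨(b (a (l 3) (c (a (l 1597893119511) (c (l 15564344) (l 15558480))) (a (l 15797376) (l 15528216)))) (a (a (l 3) (c (a (l 3) (l 15740328)) (l 1837874769111))) (c (a (c (l 15666680) (l 15695088)) (c (l 15463944) (l 15456144))) (a (l 15686744) (l 15422920))))), by decide +kernel⟩

def k4_pp_022 : ∃ t, chk3 f_pp_022 t 8 166 1 = true :=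
  ⟨(a (a (a (b (l 3) (c (l 16120336) (c (a (l 16236328) (l 16162840)) (c (l 522541891719) (l 16205896))))) (c (c (a (l 16071648) (l 16043672)) (a (l 16114936) (l 16003072))) (c (l 15847864) (l 16074768)))) (c (c (a (l 631525700039) (l 15717432)) (c (l 15810392) (l 15829320))) (c (l 15848072) (l 15849912)))) (c (a (c (l 15562528) (l 15588928)) (b (l 15382888) (c (a (l 15392776) (l 15287704)) (l 15324000)))) (b (l 15425688) (a (l 15550440) (l 15286936))))), by decide +kernel⟩

def k5_pp_022 : ∃ t, chk3 f_pp_022 t 16 167 1 = true :=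
  ⟨(b (c (b (a (a (l 16139832) (c (l 16014416) (l 15950872))) (c (l 15482904) (l 15752208))) (a (a (l 16090040) (c (l 15923616) (l 15817600))) (c (a (l 15779904) (l 15624072)) (l 15724800)))) (a (a (a (c (l 16176512) (c (l 16183240) (l 16081568))) (c (c (l 16109736) (l 16100424)) (l 16077336))) (c (b (l 15984776) (l 15955824)) (l 15985832))) (b (l 15775888) (l 15663808)))) (b (b (b (a (c (a (l 16093040) (c (l 15969144) (l 15946680))) (a (c (l 16019848) (a (l 16086736) (l 16064592))) (c (l 15937768) (l 15952696)))) (c (a (c (l 15762928) (l 15765984)) (l 15623384)) (l 15728152))) (b (a (c (a (l 16087648) (c (l 15963928) (l 15941368))) (a (c (l 16014312) (a (l 16081064) (l 16058976))) (c (l 15932352) (l 15947176)))) (c (a (c (l 15757840) (l 15760792)) (l 15614944)) (l 15720264))) (a (c (a (c (l 16077152) (l 16092392)) (c (a (l 16009752) (l 15920336)) (a (l 15987752) (l 15877376)))) (a (c (a (l 16133744) (l 16061424)) (a (c (l 16139872) (l 16142656)) (l 16055240))) (c (l 15928744)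 (l 15943504)))) (c (c (a (c (l 15754920) (l 15680016)) (a (l 15617328) (l 15554384))) (a (a (l 15787744) (l 15721656)) (l 15627904))) (c (a (l 15788920) (l 15649448)) (l 15652160)))))) (a (c (a (l 16075096) (c (l 15951776) (l 15928984))) (a (c (l 16043336) (a (l 16088800) (l 16045896))) (l 15856776))) (c (a (l 15751944) (l 15590192)) (l 15702896)))) (a (c (a (l 16053600) (c (l 15930984) (l 15907792))) (a (c (l 16021232) (a (l 16066152) (l 16023504))) (l 15834976))) (c (a (l 15731264) (l 15569880)) (l 15681584))))), by decide +kernel⟩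

def k6_pp_022 : ∃ t, chk3 f_pp_022 t 17 167 1 = true :=
  ⟨(b (c (b (a (l 15507576) (a (l 15346176) (l 15222368))) (a (c (l 15463352) (b (l 15499616) (l 15480736))) (l 15232912))) (b (a (l 15508680) (l 15239120)) (a (b (l 15485592) (l 15466152)) (l 15189024)))) (a (a (b (b (b (c (l 15512024) (l 15520976)) (c (l 15488584) (l 15496584))) (l 15470936)) (l 15450968)) (c (l 15355136) (l 15333744))) (c (c (l 15177736) (l 15164312)) (l 15122496)))), by decide +kernel⟩

def k7_pp_022 : ∃ t, chk3 f_pp_022 t 8 21 1 = true :=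
  ⟨(a (a (c (a (b (l 15813312) (l 15377488)) (a (c (l 15405520) (l 15500088)) (c (l 15446216) (l 15394048)))) (a (c (a (l 15625216) (l 15349136)) (a (c (l 15582184) (l 15433296)) (l 15543072))) (c (b (l 15656528) (l 15217072)) (l 15438424)))) (c (a (c (b (l 15493424) (l 15078000)) (l 15068296)) (l 15032896)) (b (l 15443128) (l 15013728)))) (a (b (c (l 15171864) (l 15159696)) (c (a (l 14863776) (l 14848704)) (l 14844784))) (b (c (a (l 15028184) (l 14999536)) (l 14974008)) (c (l 14931016) (l 14875208))))), by decide +kernel⟩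

def k8_pp_022 : ∃ t, chk3 f_pp_022 t 9 10 1 = true :=
  ⟨(b (b (a (a (b (l 3) (b (l 1604335487447) (c (l 15538352) (l 15495208)))) (b (b (l 3) (l 1472802283943)) (b (c (l 15688032) (l 15649880)) (c (l 15653312) (l 15613840))))) (b (c (a (l 792050425719) (l 16099784)) (l 777017974999)) (a (b (l 15946432) (l 15945232)) (c (l 16089048) (l 16064824))))) (b (a (c (a (b (l 15445168) (a (l 15347712) (l 15384784))) (b (l 15637816) (b (l 15631512) (l 15621312)))) (b (a (l 15398440) (l 15597752)) (a (a (l 15297632) (l 15335856)) (l 15583072)))) (a (c (b (l 15949496) (l 15917160)) (b (l 15920368) (l 15886712))) (b (l 16045344) (l 16002792)))) (b (a (a (b (c (a (l 15273352) (l 15350752)) (a (l 15220392) (l 15300488))) (b (c (l 15284176) (l 15231208)) (l 15231920))) (l 15558736)) (l 15903208)) (a (b (a (a (l 15120712) (l 15256544)) (l 15514128)) (a (c (l 15176608) (l 15119296)) (l 15489936))) (b (l 15871440) (l 15855680)))))) (a (a (l 15153240) (l 15510016)) (l 15887776))), by decide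 +kernel⟩

def k9_pp_022 : ∃ t, chk3 f_pp_022 t 5 10 1 = true :=
  ⟨(b (b (a (b (a (c (l 16243160) (l 16246048)) (b (l 16439200) (l 16413160))) (a (c (l 16232480) (l 16213104)) (l 16370488))) (a (l 16553360) (l 16560680))) (a (b (l 16228528) (b (a (l 16094744) (l 16276800)) (b (a (l 16077536) (l 16294680)) (a (l 16070936) (a (l 16245160) (l 16398728)))))) (b (a (l 16507872) (l 16644544)) (b (a (l 16536192) (l 16749552)) (l 16690280))))) (a (a (l 16127984) (l 16396640)) (l 16750096))), by decide +kernel⟩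

def k10_pp_022 : ∃ t, chk3 f_pp_022 t 2 11 1 = true :=
  ⟨(a (a (a (a (b (b (c (a (l 14962712) (c (l 14874376) (l 14830288))) (a (c (l 14940176) (l 14670928)) (l 14788464))) (c (a (l 14591656) (a (l 14573456) (l 14568048))) (a (c (l 14515696) (a (l 14544928) (l 14502768))) (l 14311392)))) (c (a (l 14445424) (l 14533704)) (a (c (l 14406776) (l 14378240)) (l 14459272)))) (c (b (b (a (c (l 14710104) (l 14692272)) (l 14665352)) (l 14608192)) (l 14614256)) (b (b (l 14694720) (l 14588552)) (l 14594880)))) (c (a (l 14786192) (l 14973368)) (l 14834520))) (a (b (l 15182544) (l 15430680)) (b (l 15969568) (l 16018168)))) (b (a (a (l 16226584) (l 16467048)) (l 16745528)) (a (l 16376104) (l 16538280)))), by decide +kernel⟩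

def k11_pp_022 : ∃ t, chk3 f_pp_022 t 3 5 1 = true :=
  ⟨(a (b (b (b (a (l 16690080) (a (c (c (l 16245664) (c (l 16272224) (l 16231752))) (a (l 16324968) (l 16231176))) (c (c (a (l 15698224) (l 15620528)) (l 15682216)) (l 15737768)))) (a (b (l 16541504) (a (l 16540896) (b (l 16344504) (c (l 16242416) (l 16261800))))) (a (b (c (a (l 16158208) (l 15767256)) (l 16115400)) (a (a (a (b (l 16126072) (l 16167312)) (l 16021872)) (l 15994392)) (l 15934392))) (c (b (c (l 15574560) (l 15720000)) (a (l 15660312) (l 2))) (l 15580712))))) (a (a (l 16535472) (c (c (l 16357408) (l 16334744)) (b (l 16299976) (l 16412184)))) (a (c (a (l 16188720) (l 16152424)) (l 16132856)) (b (c (l 15797352) (l 15710464)) (l 2))))) (b (a (a (c (l 16647768) (l 16646672)) (b (c (l 16499024) (l 16537576)) (l 16646984))) (b (c (l 16397824) (l 16302008)) (l 2))) (l 16777008))) (b (b (b (a (a (l 15242728) (l 2)) (l 2)) (l 2)) (l 2)) (l 2))), by decide +kernel⟩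

def k12_pp_022 : ∃ t, chk3 f_pp_022 t 1 3 1 = true :=
  ⟨(a (a (a (a (b (a (c (a (l 14444840) (b (l 14533712) (l 14533712))) (a (c (l 14406176) (l 14377624)) (l 14459288))) (c (l 14614280) (l 14594904))) (a (c (l 14483176) (a (l 14389800) (l 14459288))) (c (l 14614280) (l 14594904)))) (b (b (l 14633152) (l 14863840)) (b (l 14863840) (l 14863840)))) (b (a (b (l 15430744) (l 15430744)) (l 16018240)) (a (l 15430744) (l 16018240)))) (b (a (b (l 16376120) (l 16376120)) (b (l 16726952) (l 16726952))) (a (l 16376120) (l 2)))) (b (b (a (l 16777216) (l 2)) (l 2)) (l 2))), by decide +kernel⟩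

theorem s13_pp_022 : ∃ t, chk3 f_pp_022 t 8 167 1 = true := ex3_a k5_pp_022 k6_pp_022

theorem s14_pp_022 : ∃ t, chk3 f_pp_022 t 8 83 1 = true := ex3_b k4_pp_022 s13_pp_022

theorem s15_pp_022 : ∃ t, chk3 f_pp_022 t 8 41 1 = true := ex3_b k3_pp_022 s14_pp_022

theorem s16_pp_022 : ∃ t, chk3 f_pp_022 t 8 20 1 = true := ex3_b k2_pp_022 s15_pp_022

theorem s17_pp_022 : ∃ t, chk3 f_pp_022 t 8 10 1 = true := ex3_b s16_pp_022 k7_pp_022

theorem s18_pp_022 : ∃ t, chk3 f_pp_022 t 4 10 1 = true := ex3_a s17_pp_022 k8_pp_022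

theorem s19_pp_022 : ∃ t, chk3 f_pp_022 t 2 10 1 = true := ex3_a s18_pp_022 k9_pp_022

theorem s20_pp_022 : ∃ t, chk3 f_pp_022 t 2 5 1 = true := ex3_b s19_pp_022 k10_pp_022

theorem s21_pp_022 : ∃ t, chk3 f_pp_022 t 1 5 1 = true := ex3_a s20_pp_022 k11_pp_022

theorem s22_pp_022 : ∃ t, chk3 f_pp_022 t 1 4 1 = true := ex3_b k0_pp_022 k1_pp_022

theorem s23_pp_022 : ∃ t, chk3 f_pp_022 t 1 2 1 = true := ex3_b s22_pp_022 s21_pp_022

theorem s24_pp_022 : ∃ t, chk3 f_pp_022 t 1 1 1 = true := ex3_b s23_pp_022 k12_pp_022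

theorem c_pp_022 : CertNX 0 536870912 1073741824 536870912 1046898278 26843546 3 false true true .pp 0 2 2
    ndN5q0 ndN6q2 pcN2 Cut.none Ext.none :=
  certNX1 (fam := false) (s1 := true) (s2 := true) (a := 0) (b := 2) (c := 2) (cn := .pp) (n1 := ndN5q0) (n2 := ndN6q2) (pc := pcN2) (cut := Cut.none) (xt := Ext.none) (P1 := 0) (W1 := 536870912) (P2 := 1073741824) (W2 := 536870912) (P3 := 1046898278) (W3 := 26843546) (N0 := 3)
    rfl (fun _ => rfl) s24_pp_022

noncomputable def f_pp_023 : ℕ → ℕ → ℕ → ℕ → Bool := onCell 1073741824 536870912 0 1230186008 1046898278 26843546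
    (rowNX 3 2 false true true .up 0 2 3 (qsf 0 536870912 0 1230186008 2) ndN5q0 ndN6q3 pcN2 Cut.none Ext.none)

def k0_pp_023 : ∃ t, chk3 f_pp_023 t 1 1 1 = true :=
  ⟨(b (a (l 2) (a (l 2) (b (l 4) (l 16740592)))) (a (a (b (l 2) (b (l 2) (a (b (l 2) (b (a (l 2) (c (l 15368144) (l 15316696))) (a (a (l 15534816) (l 15616680)) (l 15383008)))) (a (b (l 14942224) (b (c (l 15094208) (l 15034848)) (c (l 15428192) (l 15380816)))) (b (b (l 14623856) (b (l 14615480) (b (l 14611208) (l 14629936)))) (b (c (l 14890008) (l 14846592)) (c (l 15481376) (l 15435896)))))))) (b (a (l 2) (a (l 2) (l 16725592))) (a (b (a (l 14553552) (l 15404728)) (b (b (l 14953440) (b (l 14942256) (a (a (l 14413080) (l 14635792)) (l 15364144)))) (a (b (a (l 14759248) (c (l 14982168) (l 14919008))) (b (a (l 15189136) (l 15326872)) (c (a (l 15480544) (a (l 15562632) (l 15602864))) (l 15375240)))) (b (c (l 15649360) (l 15609776)) (c (l 16038600) (l 15945920)))))) (a (b (l 16319392) (b (b (l 16309288) (l 16324208))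 (a (c (l 16397824) (l 16323496)) (l 16647432)))) (b (l 16776576) (l 16776824)))))) (b (b (a (l 16754352) (l 16777152)) (a (l 16777200) (l 16777200))) (b (a (l 16777216) (b (l 16759232) (l 16605360))) (a (b (l 16767160) (a (l 16754112) (a (l 16656568) (l 16494912)))) (b (a (l 16561296) (b (l 16309136) (l 15947536))) (a (b (l 16296136) (a (l 16145008) (b (l 15929864) (l 15612024)))) (b (a (l 15811784) (b (l 15420048) (l 15066136))) (a (b (l 15361072) (l 14996384)) (b (l 14700480) (a (l 14656608) (c (l 14567848) (l 14519904))))))))))))), by decide +kernel⟩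

theorem c_pp_023 : CertNX 0 536870912 0 1230186008 1046898278 26843546 3 false true true .up 0 2 3
    ndN5q0 ndN6q3 pcN2 Cut.none Ext.none :=
  certNX2 (fam := false) (s1 := true) (s2 := true) (a := 0) (b := 2) (c := 3) (cn := .up) (n1 := ndN5q0) (n2 := ndN6q3) (pc := pcN2) (cut := Cut.none) (xt := Ext.none) (P1 := 0) (W1 := 536870912) (P2 := 0) (W2 := 1230186008) (P3 := 1046898278) (W3 := 26843546) (N0 := 3)
    rfl (fun _ => rfl) k0_pp_023

noncomputable def f_pp_033 : ℕ → ℕ → ℕ → ℕ → Bool := onCell 0 536870912 0 1230186008 1046898278 26843546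
    (rowNX 3 0 false true true .pnn 0 3 3 (qsf 0 536870912 0 1230186008 3) ndN5q0 ndN6q3 pcN3 Cut.none Ext.none)

def k0_pp_033 : ∃ t, chk3 f_pp_033 t 1 1 1 = true :=
  ⟨(b (b (l 4) (a (a (l 4) (b (l 4) (a (c (l 16367280) (l 16348904)) (l 16707008)))) (a (b (l 4) (c (l 16755968) (l 16755072))) (c (l 16742920) (l 16737960))))) (b (a (a (a (c (a (b (a (l 55528332295) (l 14614216)) (b (l 14556624) (l 14556664))) (b (l 14886264) (l 14886312))) (b (a (a (c (l 14443560) (l 14416720)) (l 14594816)) (l 14848104)) (a (b (l 14507904) (l 14507952)) (l 14848160)))) (b (a (c (l 15452736) (l 15405560)) (l 21171205319)) (a (b (l 15430712) (l 15430744)) (l 16018216)))) (b (a (b (l 16376072) (l 16376048)) (l 16726888)) (a (l 16376104) (l 16726936)))) (a (b (l 16777152) (l 16777200)) (b (l 16777152) (l 1)))) (a (a (a (a (b (a (c (l 14483176) (l 14344744)) (l 14586400)) (b (c (l 14367920) (l 14298232)) (a (l 14242096) (l 14586400)))) (b (l 14863840) (b (l 14863840) (l 14863840)))) (b (a (l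 15430744) (l 16018240)) (a (l 15430744) (l 16018240)))) (b (a (l 16376120) (l 16726952)) (a (l 16376120) (l 1)))) (l 1)))), by decide +kernel⟩

theorem c_pp_033 : CertNX 0 536870912 0 1230186008 1046898278 26843546 3 false true true .pnn 0 3 3
    ndN5q0 ndN6q3 pcN3 Cut.none Ext.none :=
  certNX0 (fam := false) (s1 := true) (s2 := true) (a := 0) (b := 3) (c := 3) (cn := .pnn) (n1 := ndN5q0) (n2 := ndN6q3) (pc := pcN3) (cut := Cut.none) (xt := Ext.none) (P1 := 0) (W1 := 536870912) (P2 := 0) (W2 := 1230186008) (P3 := 1046898278) (W3 := 26843546) (N0 := 3)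
    rfl k0_pp_033

noncomputable def f_pp_101 : ℕ → ℕ → ℕ → ℕ → Bool := onCell 536870912 469762048 536870912 469762048 1046898278 26843546
    (rowNX 3 0 false true true .npn 1 0 1 (qsf 536870912 469762048 536870912 469762048 0) ndN5q1 ndN6q1 pcN0 Cut.none Ext.none)

def k0_pp_101 : ∃ t, chk3 f_pp_101 t 1 1 1 = true :=
  ⟨(l 3), by decide +kernel⟩

theorem c_pp_101 : CertNX 536870912 469762048 536870912 469762048 1046898278 26843546 3 false true true .npn 1 0 1
    ndN5q1 ndN6q1 pcN0 Cut.none Ext.none :=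
  certNX0 (fam := false) (s1 := true) (s2 := true) (a := 1) (b := 0) (c := 1) (cn := .npn) (n1 := ndN5q1) (n2 := ndN6q1) (pc := pcN0) (cut := Cut.none) (xt := Ext.none) (P1 := 536870912) (W1 := 469762048) (P2 := 536870912) (W2 := 469762048) (P3 := 1046898278) (W3 := 26843546) (N0 := 3)
    rfl k0_pp_101

noncomputable def f_pp_102 : ℕ → ℕ → ℕ → ℕ → Bool := onCell 536870912 469762048 0 536870912 1046898278 26843546
    (rowNX 3 1 false true true .npp 1 0 2 (qsf 536870912 469762048 1073741824 536870912 0) ndN5q1 ndN6q2 pcN0 Cut.none Ext.none)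

def k0_pp_102 : ∃ t, chk3 f_pp_102 t 1 1 1 = true :=
  ⟨(l 3), by decide +kernel⟩

theorem c_pp_102 : CertNX 536870912 469762048 1073741824 536870912 1046898278 26843546 3 false true true .npp 1 0 2
    ndN5q1 ndN6q2 pcN0 Cut.none Ext.none :=
  certNX1 (fam := false) (s1 := true) (s2 := true) (a := 1) (b := 0) (c := 2) (cn := .npp) (n1 := ndN5q1) (n2 := ndN6q2) (pc := pcN0) (cut := Cut.none) (xt := Ext.none) (P1 := 536870912) (W1 := 469762048) (P2 := 1073741824) (W2 := 536870912) (P3 := 1046898278) (W3 := 26843546) (N0 := 3)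
    rfl (fun _ => rfl) k0_pp_102

noncomputable def f_pp_112 : ℕ → ℕ → ℕ → ℕ → Bool := onCell 536870912 536870912 1073741824 536870912 1046898278 26843546
    (rowNX 3 2 false true true .dn 1 1 2 (qsf 536870912 469762048 1073741824 536870912 1) ndN5q1 ndN6q2 pcN1 Cut.none Ext.none)

def k0_pp_112 : ∃ t, chk3 f_pp_112 t 1 1 1 = true :=
  ⟨(a (l 3) (b (l 3) (b (l 3) (a (l 3) (a (a (l 16519360) (l 16193424)) (a (a (l 15884152) (l 15609280)) (b (l 1) (a (l 690983318199) (c (l 15427040) (l 15312728)))))))))), by decide +kernel⟩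

theorem c_pp_112 : CertNX 536870912 469762048 1073741824 536870912 1046898278 26843546 3 false true true .dn 1 1 2
    ndN5q1 ndN6q2 pcN1 Cut.none Ext.none :=
  certNX2 (fam := false) (s1 := true) (s2 := true) (a := 1) (b := 1) (c := 2) (cn := .dn) (n1 := ndN5q1) (n2 := ndN6q2) (pc := pcN1) (cut := Cut.none) (xt := Ext.none) (P1 := 536870912) (W1 := 469762048) (P2 := 1073741824) (W2 := 536870912) (P3 := 1046898278) (W3 := 26843546) (N0 := 3)
    rfl (fun _ => rfl) k0_pp_112

noncomputable def f_pp_113 : ℕ → ℕ → ℕ → ℕ → Bool := onCell 536870912 536870912 0 1230186008 1046898278 26843546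
    (rowNX 3 2 false true true .nn 1 1 3 (qsf 536870912 469762048 0 1230186008 1) ndN5q1 ndN6q3 pcN1 Cut.none Ext.none)

def k0_pp_113 : ∃ t, chk3 f_pp_113 t 1 2 1 = true :=
  ⟨(a (l 2) (a (l 2) (b (l 2) (a (l 2) (b (a (l 2) (b (l 2) (c (l 12950496) (l 11410016)))) (a (b (l 2) (b (l 12418352) (l 12578984))) (b (a (l 12294496) (l 12236808)) (b (l 12263456) (l 12229728))))))))), by decide +kernel⟩

def k1_pp_113 : ∃ t, chk3 f_pp_113 t 2 3 1 = true :=
  ⟨(b (l 2) (b (a (l 2) (a (l 2) (b (a (l 2) (b (l 2) (c (a (l 2) (l 13482416)) (l 13236112)))) (a (b (l 2) (c (a (l 13627248) (l 13742432)) (l 13559200))) (b (c (a (l 13679352) (l 13745728)) (l 13583072)) (a (l 13639024) (l 13589040))))))) (a (l 3) (b (a (l 3) (b (a (l 3) (a (l 3) (l 14163464))) (l 3))) (l 3))))), by decide +kernel⟩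

def k2_pp_113 : ∃ t, chk3 f_pp_113 t 3 3 1 = true :=
  ⟨(b (a (b (l 2) (a (b (l 2) (a (l 2) (b (l 2) (a (l 2) (l 13629368))))) (b (a (b (l 2) (c (l 13215864) (l 13153904))) (b (a (l 2) (l 13404432)) (l 13433360))) (a (b (l 13514912) (l 13564752)) (b (l 13516680) (l 13562888)))))) (b (a (b (a (l 2) (b (l 12609592) (l 12823424))) (a (b (l 12918040) (l 13133624)) (b (l 12835152) (l 12792528)))) (b (a (l 12580352) (l 12450168)) (a (l 12802944) (l 13200800)))) (a (b (a (b (l 13146576) (l 13158320)) (b (l 12982448) (l 13487104))) (a (b (l 13525696) (l 14183808)) (l 14433368))) (b (a (l 13755816) (l 14192272)) (l 14893048))))) (a (b (a (b (a (b (a (l 2) (l 13447312)) (c (l 13495600) (l 13596448))) (b (a (l 13693736) (l 13588096)) (l 13494928))) (a (b (a (l 13592720) (l 13605592)) (a (l 13796544) (l 14219768))) (b (a (l 13862120) (l 14296968)) (l 14731512)))) (b (a (b (l 13399808) (l 14164840)) (b (l 14247424) (l 14991760))) (a (b (l 14868728) (l 15753648)) (b (l 15752336) (l 16390472)))))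 (a (b (a (b (l 62440450103) (l 15734912)) (b (l 15737568) (l 16458424))) (l 3)) (b (a (l 16470416) (l 16693408)) (l 16761560)))) (a (b (b (a (l 15238144) (l 15570976)) (a (l 16204840) (l 16010952))) (a (l 16454216) (l 16111000))) (a (b (b (l 15544120) (a (l 15759304) (l 15588208))) (a (l 15826400) (l 15620112))) (b (l 15287480) (a (c (b (l 15502928) (l 15516408)) (l 15461432)) (c (l 15371928) (b (a (l 15347744) (l 15189944)) (l 15160256))))))))), by decide +kernel⟩

theorem s3_pp_113 : ∃ t, chk3 f_pp_113 t 1 3 1 = true := ex3_a k1_pp_113 k2_pp_113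

theorem s4_pp_113 : ∃ t, chk3 f_pp_113 t 1 1 1 = true := ex3_b k0_pp_113 s3_pp_113

theorem c_pp_113 : CertNX 536870912 469762048 0 1230186008 1046898278 26843546 3 false true true .nn 1 1 3
    ndN5q1 ndN6q3 pcN1 Cut.none Ext.none :=
  certNX2 (fam := false) (s1 := true) (s2 := true) (a := 1) (b := 1) (c := 3) (cn := .nn) (n1 := ndN5q1) (n2 := ndN6q3) (pc := pcN1) (cut := Cut.none) (xt := Ext.none) (P1 := 536870912) (W1 := 469762048) (P2 := 0) (W2 := 1230186008) (P3 := 1046898278) (W3 := 26843546) (N0 := 3)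
    rfl (fun _ => rfl) s4_pp_113

noncomputable def f_pp_123 : ℕ → ℕ → ℕ → ℕ → Bool := onCell 1073741824 536870912 0 1230186008 1046898278 26843546
    (rowNX 3 2 false true true .npn 1 2 3 (qsf 536870912 469762048 0 1230186008 2) ndN5q1 ndN6q3 pcN2 Cut.none Ext.none)

def k0_pp_123 : ∃ t, chk3 f_pp_123 t 1 1 1 = true :=
  ⟨(b (a (a (b (a (a (l 2) (b (c (a (l 2) (l 16248408)) (l 16092992)) (c (a (l 15519336) (l 15730856)) (l 15258512)))) (b (a (c (l 16560136) (l 16454024)) (l 16714168)) (a (c (l 16072216) (l 15945416)) (l 16065048)))) (a (b (a (c (b (l 14141528) (l 13556920)) (b (l 13032368) (l 12631688))) (c (b (l 14882392) (l 14455544)) (l 14256632))) (a (b (a (l 12388792) (l 13067936)) (a (l 12315032) (l 13130160))) (b (l 13993616) (l 14035936)))) (b (a (b (l 15360192) (l 14951464)) (l 15163584)) (a (b (l 14711848) (l 14665712)) (l 14656704))))) (b (a (b (a (l 16511632) (l 16212664)) (a (l 15970608) (l 15867880))) (b (l 4) (l 15788760))) (a (b (a (l 15136648) (l 15430512))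 (a (l 14687784) (l 15369568))) (b (l 15983088) (l 16260312))))) (a (b (a (l 16276408) (l 16675696)) (a (l 16529328) (l 16733528))) (b (l 4) (l 16740592)))) (a (a (b (b (a (b (a (l 13236000) (l 14310576)) (a (l 13938528) (l 14663144))) (b (l 14762568) (l 14806216))) (a (b (l 14780272) (l 15033528)) (l 14801368))) (b (a (l 15223784) (l 14787696)) (a (b (l 15424248) (a (c (a (l 15647448) (l 15633976)) (a (l 15524560) (l 15584264))) (c (b (l 15368144) (l 15471584)) (l 15360888)))) (a (b (l 14942224) (b (c (l 15094208) (l 15034848)) (l 1))) (b (b (l 14623856) (b (l 14615480) (l 1))) (l 1)))))) (b (a (a (a (l 14524296) (l 14745864)) (l 15447424)) (a (l 16298768) (l 16725592))) (a (b (a (l 14553552) (l 15404728)) (b (b (l 14953440) (l 1)) (l 1))) (a (b (l 16319392) (l 1)) (l 722662158103))))) (b (b (a (l 16754352) (l 16777152)) (l 16984192)) (l 1)))), by decide +kernel⟩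

theorem c_pp_123 : CertNX 536870912 469762048 0 1230186008 1046898278 26843546 3 false true true .npn 1 2 3
    ndN5q1 ndN6q3 pcN2 Cut.none Ext.none :=
  certNX2 (fam := false) (s1 := true) (s2 := true) (a := 1) (b := 2) (c := 3) (cn := .npn) (n1 := ndN5q1) (n2 := ndN6q3) (pc := pcN2) (cut := Cut.none) (xt := Ext.none) (P1 := 536870912) (W1 := 469762048) (P2 := 0) (W2 := 1230186008) (P3 := 1046898278) (W3 := 26843546) (N0 := 3)
    rfl (fun _ => rfl) k0_pp_123

noncomputable def f_pp_133 : ℕ → ℕ → ℕ → ℕ → Bool := onCell 1610612736 536870912 0 1230186008 1046898278 26843546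
    (rowNX 3 2 false true true .dn 1 3 3 (qsf 536870912 469762048 0 1230186008 3) ndN5q1 ndN6q3 pcN3 Cut.none Ext.none)

def k0_pp_133 : ∃ t, chk3 f_pp_133 t 1 1 1 = true :=
  ⟨(b (b (l 4) (l 1)) (l 1)), by decide +kernel⟩

theorem c_pp_133 : CertNX 536870912 469762048 0 1230186008 1046898278 26843546 3 false true true .dn 1 3 3
    ndN5q1 ndN6q3 pcN3 Cut.none Ext.none :=
  certNX2 (fam := false) (s1 := true) (s2 := true) (a := 1) (b := 3) (c := 3) (cn := .dn) (n1 := ndN5q1) (n2 := ndN6q3) (pc := pcN3) (cut := Cut.none) (xt := Ext.none) (P1 := 536870912) (W1 := 469762048) (P2 := 0) (W2 := 1230186008) (P3 := 1046898278) (W3 := 26843546) (N0 := 3)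
    rfl (fun _ => rfl) k0_pp_133

noncomputable def f_pp_202 : ℕ → ℕ → ℕ → ℕ → Bool := onCell 1073741824 536870912 1073741824 536870912 1046898278 26843546
    (rowNX 3 0 false true true .pp 2 0 2 (qsf 1073741824 536870912 1073741824 536870912 0) ndN5q2 ndN6q2 pcN0 Cut.none Ext.none)

def k0_pp_202 : ∃ t, chk3 f_pp_202 t 1 1 1 = true :=
  ⟨(l 3), by decide +kernel⟩

theorem c_pp_202 : CertNX 1073741824 536870912 1073741824 536870912 1046898278 26843546 3 false true true .pp 2 0 2
    ndN5q2 ndN6q2 pcN0 Cut.none Ext.none :=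
  certNX0 (fam := false) (s1 := true) (s2 := true) (a := 2) (b := 0) (c := 2) (cn := .pp) (n1 := ndN5q2) (n2 := ndN6q2) (pc := pcN0) (cut := Cut.none) (xt := Ext.none) (P1 := 1073741824) (W1 := 536870912) (P2 := 1073741824) (W2 := 536870912) (P3 := 1046898278) (W3 := 26843546) (N0 := 3)
    rfl k0_pp_202

noncomputable def f_pp_203 : ℕ → ℕ → ℕ → ℕ → Bool := onCell 0 536870912 0 1230186008 1046898278 26843546
    (rowNX 3 2 false true true .up 2 0 3 (qsf 1073741824 536870912 0 1230186008 0) ndN5q2 ndN6q3 pcN0 Cut.none Ext.none)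

def k0_pp_203 : ∃ t, chk3 f_pp_203 t 1 1 1 = true :=
  ⟨(b (l 3) (l 3)), by decide +kernel⟩

theorem c_pp_203 : CertNX 1073741824 536870912 0 1230186008 1046898278 26843546 3 false true true .up 2 0 3
    ndN5q2 ndN6q3 pcN0 Cut.none Ext.none :=
  certNX2 (fam := false) (s1 := true) (s2 := true) (a := 2) (b := 0) (c := 3) (cn := .up) (n1 := ndN5q2) (n2 := ndN6q3) (pc := pcN0) (cut := Cut.none) (xt := Ext.none) (P1 := 1073741824) (W1 := 536870912) (P2 := 0) (W2 := 1230186008) (P3 := 1046898278) (W3 := 26843546) (N0 := 3)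
    rfl (fun _ => rfl) k0_pp_203

noncomputable def f_pp_213 : ℕ → ℕ → ℕ → ℕ → Bool := onCell 536870912 536870912 0 1230186008 1046898278 26843546
    (rowNX 3 2 false true true .pnn 2 1 3 (qsf 1073741824 536870912 0 1230186008 1) ndN5q2 ndN6q3 pcN1 Cut.none Ext.none)

def k0_pp_213 : ∃ t, chk3 f_pp_213 t 1 1 1 = true :=
  ⟨(b (a (l 3) (b (a (l 3) (a (b (a (b (l 14897648) (l 3)) (b (l 15559784) (l 307255158807))) (l 3)) (a (b (a (b (l 16174688) (l 16170248)) (b (a (l 16509088) (l 16682808)) (a (l 16424112) (l 16504912)))) (a (l 3) (b (a (l 16206216) (l 391008558839)) (l 3)))) (b (a (c (c (a (b (l 16709360) (l 16453824)) (b (l 16543584) (l 16458840))) (a (l 16531792) (b (l 16540848) (a (l 16487368) (l 16417696))))) (b (l 16610640) (l 16439288))) (c (b (l 16091504) (a (l 16247672) (l 16132608))) (a (c (b (a (l 16407808) (l 16254496)) (a (l 16321696) (l 16066976))) (l 15911328)) (c (b (l 16183784) (l 16115728)) (b (a (l 16218296) (l 15961864)) (a (l 16117008) (l 3697998459159)))))))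 (b (a (c (a (c (a (l 16491800) (l 16419424)) (l 16322680)) (c (l 16371640) (a (l 16333920) (l 16188368)))) (l 15925936)) (c (a (c (l 16209520) (l 16188952)) (l 16062392)) (a (c (a (l 16134336) (c (l 16166360) (l 16157760))) (l 16164352)) (c (l 16042664) (a (l 2447626155799) (l 1)))))) (a (l 3) (a (a (l 3) (l 1)) (l 1)))))))) (l 3))) (l 3)), by decide +kernel⟩

theorem c_pp_213 : CertNX 1073741824 536870912 0 1230186008 1046898278 26843546 3 false true true .pnn 2 1 3
    ndN5q2 ndN6q3 pcN1 Cut.none Ext.none :=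
  certNX2 (fam := false) (s1 := true) (s2 := true) (a := 2) (b := 1) (c := 3) (cn := .pnn) (n1 := ndN5q2) (n2 := ndN6q3) (pc := pcN1) (cut := Cut.none) (xt := Ext.none) (P1 := 1073741824) (W1 := 536870912) (P2 := 0) (W2 := 1230186008) (P3 := 1046898278) (W3 := 26843546) (N0 := 3)
    rfl (fun _ => rfl) k0_pp_213

noncomputable def f_pp_303 : ℕ → ℕ → ℕ → ℕ → Bool := onCell 0 1230186008 0 1230186008 1046898278 26843546
    (rowNX 3 0 false true true .npn 3 0 3 (qsf 0 1230186008 0 1230186008 0) ndN5q3 ndN6q3 pcN0 Cut.none Ext.none)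

def k0_pp_303 : ∃ t, chk3 f_pp_303 t 1 1 1 = true :=
  ⟨(a (b (l 3) (l 5)) (b (l 3) (l 3))), by decide +kernel⟩

theorem c_pp_303 : CertNX 0 1230186008 0 1230186008 1046898278 26843546 3 false true true .npn 3 0 3
    ndN5q3 ndN6q3 pcN0 Cut.none Ext.none :=
  certNX0 (fam := false) (s1 := true) (s2 := true) (a := 3) (b := 0) (c := 3) (cn := .npn) (n1 := ndN5q3) (n2 := ndN6q3) (pc := pcN0) (cut := Cut.none) (xt := Ext.none) (P1 := 0) (W1 := 1230186008) (P2 := 0) (W2 := 1230186008) (P3 := 1046898278) (W3 := 26843546) (N0 := 3)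
    rfl k0_pp_303

noncomputable def f_pp_313 : ℕ → ℕ → ℕ → ℕ → Bool := onCell 0 1230186008 0 1230186008 1046898278 26843546
    (rowNX 3 0 false true true .dn 3 1 3 (qsf 0 1230186008 0 1230186008 1) ndN5q3 ndN6q3 pcN1 Cut.none Ext.none)

def k0_pp_313 : ∃ t, chk3 f_pp_313 t 1 1 1 = true :=
  ⟨(a (l 1) (b (l 3) (l 1))), by decide +kernel⟩

theorem c_pp_313 : CertNX 0 1230186008 0 1230186008 1046898278 26843546 3 false true true .dn 3 1 3
    ndN5q3 ndN6q3 pcN1 Cut.none Ext.none :=
  certNX0 (fam := false) (s1 := true) (s2 := true) (a := 3) (b := 1) (c := 3) (cn := .dn) (n1 := ndN5q3) (n2 := ndN6q3) (pc := pcN1) (cut := Cut.none) (xt := Ext.none) (P1 := 0) (W1 := 1230186008) (P2 := 0) (W2 := 1230186008) (P3 := 1046898278) (W3 := 26843546) (N0 := 3)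
    rfl k0_pp_313

noncomputable def f_pm_001 : ℕ → ℕ → ℕ → ℕ → Bool := onCell 0 536870912 536870912 469762048 1046898278 26843546
    (rowNX 3 0 false true false .up 0 0 1 (qsf 0 536870912 536870912 469762048 0) ndN5q0 ndN6q1 pcN0 Cut.none Ext.none)

def k0_pm_001 : ∃ t, chk3 f_pm_001 t 1 1 1 = true :=
  ⟨(l 4), by decide +kernel⟩

theorem c_pm_001 : CertNX 0 536870912 536870912 469762048 1046898278 26843546 3 false true false .up 0 0 1
    ndN5q0 ndN6q1 pcN0 Cut.none Ext.none :=
  certNX0 (fam := false) (s1 := true) (s2 := false) (a := 0) (b := 0) (c := 1) (cn := .up) (n1 := ndN5q0) (n2 := ndN6q1) (pc := pcN0) (cut := Cut.none) (xt := Ext.none) (P1 := 0) (W1 := 536870912) (P2 := 536870912) (W2 := 469762048) (P3 := 1046898278) (W3 := 26843546) (N0 := 3)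
    rfl k0_pm_001

noncomputable def f_pm_011 : ℕ → ℕ → ℕ → ℕ → Bool := onCell 0 536870912 536870912 469762048 1046898278 26843546
    (rowNX 3 0 false true false .pnn 0 1 1 (qsf 0 536870912 536870912 469762048 1) ndN5q0 ndN6q1 pcN1 Cut.none Ext.none)

def k0_pm_011 : ∃ t, chk3 f_pm_011 t 1 1 1 = true :=
  ⟨(l 4), by decide +kernel⟩

theorem c_pm_011 : CertNX 0 536870912 536870912 469762048 1046898278 26843546 3 false true false .pnn 0 1 1
    ndN5q0 ndN6q1 pcN1 Cut.none Ext.none :=
  certNX0 (fam := false) (s1 := true) (s2 := false) (a := 0) (b := 1) (c := 1) (cn := .pnn) (n1 := ndN5q0) (n2 := ndN6q1) (pc := pcN1) (cut := Cut.none) (xt := Ext.none) (P1 := 0) (W1 := 536870912) (P2 := 536870912) (W2 := 469762048) (P3 := 1046898278) (W3 := 26843546) (N0 := 3)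
    rfl k0_pm_011

noncomputable def f_pm_012 : ℕ → ℕ → ℕ → ℕ → Bool := onCell 0 536870912 1073741824 536870912 1046898278 26843546
    (rowNX 3 0 false true false .pnp 0 1 2 (qsf 0 536870912 1073741824 536870912 1) ndN5q0 ndN6q2 pcN1 Cut.none Ext.none)

def k0_pm_012 : ∃ t, chk3 f_pm_012 t 1 1 1 = true :=
  ⟨(l 4), by decide +kernel⟩

theorem c_pm_012 : CertNX 0 536870912 1073741824 536870912 1046898278 26843546 3 false true false .pnp 0 1 2
    ndN5q0 ndN6q2 pcN1 Cut.none Ext.none :=
  certNX0 (fam := false) (s1 := true) (s2 := false) (a := 0) (b := 1) (c := 2) (cn := .pnp) (n1 := ndN5q0) (n2 := ndN6q2) (pc := pcN1) (cut := Cut.none) (xt := Ext.none) (P1 := 0) (W1 := 536870912) (P2 := 1073741824) (W2 := 536870912) (P3 := 1046898278) (W3 := 26843546) (N0 := 3)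
    rfl k0_pm_012

noncomputable def f_pm_022 : ℕ → ℕ → ℕ → ℕ → Bool := onCell 0 536870912 1073741824 536870912 1046898278 26843546
    (rowNX 3 0 false true false .pp 0 2 2 (qsf 0 536870912 1073741824 536870912 2) ndN5q0 ndN6q2 pcN2 Cut.none Ext.none)

def k0_pm_022 : ∃ t, chk3 f_pm_022 t 1 1 1 = true :=
  ⟨(l 4), by decide +kernel⟩

theorem c_pm_022 : CertNX 0 536870912 1073741824 536870912 1046898278 26843546 3 false true false .pp 0 2 2
    ndN5q0 ndN6q2 pcN2 Cut.none Ext.none :=
  certNX0 (fam := false) (s1 := true) (s2 := false) (a := 0) (b := 2) (c := 2) (cn := .pp) (n1 := ndN5q0) (n2 := ndN6q2) (pc := pcN2) (cut := Cut.none) (xt := Ext.none) (P1 := 0) (W1 := 536870912) (P2 := 1073741824) (W2 := 536870912) (P3 := 1046898278) (W3 := 26843546) (N0 := 3)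
    rfl k0_pm_022

noncomputable def f_pm_023 : ℕ → ℕ → ℕ → ℕ → Bool := onCell 0 536870912 0 1230186008 1046898278 26843546
    (rowNX 3 0 false true false .up 0 2 3 (qsf 0 536870912 0 1230186008 2) ndN5q0 ndN6q3 pcN2 Cut.none Ext.none)

def k0_pm_023 : ∃ t, chk3 f_pm_023 t 1 1 1 = true :=
  ⟨(b (l 4) (l 4)), by decide +kernel⟩

theorem c_pm_023 : CertNX 0 536870912 0 1230186008 1046898278 26843546 3 false true false .up 0 2 3
    ndN5q0 ndN6q3 pcN2 Cut.none Ext.none :=
  certNX0 (fam := false) (s1 := true) (s2 := false) (a := 0) (b := 2) (c := 3) (cn := .up) (n1 := ndN5q0) (n2 := ndN6q3) (pc := pcN2) (cut := Cut.none) (xt := Ext.none) (P1 := 0) (W1 := 536870912) (P2 := 0) (W2 := 1230186008) (P3 := 1046898278) (W3 := 26843546) (N0 := 3)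
    rfl k0_pm_023

noncomputable def f_pm_033 : ℕ → ℕ → ℕ → ℕ → Bool := onCell 0 536870912 0 1230186008 1046898278 26843546
    (rowNX 3 0 false true false .pnn 0 3 3 (qsf 0 536870912 0 1230186008 3) ndN5q0 ndN6q3 pcN3 Cut.none Ext.none)

def k0_pm_033 : ∃ t, chk3 f_pm_033 t 1 1 1 = true :=
  ⟨(b (l 4) (l 4)), by decide +kernel⟩

theorem c_pm_033 : CertNX 0 536870912 0 1230186008 1046898278 26843546 3 false true false .pnn 0 3 3
    ndN5q0 ndN6q3 pcN3 Cut.none Ext.none :=
  certNX0 (fam := false) (s1 := true) (s2 := false) (a := 0) (b := 3) (c := 3) (cn := .pnn) (n1 := ndN5q0) (n2 := ndN6q3) (pc := pcN3) (cut := Cut.none) (xt := Ext.none) (P1 := 0) (W1 := 536870912) (P2 := 0) (W2 := 1230186008) (P3 := 1046898278) (W3 := 26843546) (N0 := 3)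
    rfl k0_pm_033

noncomputable def f_pm_101 : ℕ → ℕ → ℕ → ℕ → Bool := onCell 536870912 469762048 536870912 469762048 1046898278 26843546
    (rowNX 3 0 false true false .npn 1 0 1 (qsf 536870912 469762048 536870912 469762048 0) ndN5q1 ndN6q1 pcN0 Cut.none Ext.none)

def k0_pm_101 : ∃ t, chk3 f_pm_101 t 1 1 1 = true :=
  ⟨(l 4), by decide +kernel⟩

theorem c_pm_101 : CertNX 536870912 469762048 536870912 469762048 1046898278 26843546 3 false true false .npn 1 0 1
    ndN5q1 ndN6q1 pcN0 Cut.none Ext.none :=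
  certNX0 (fam := false) (s1 := true) (s2 := false) (a := 1) (b := 0) (c := 1) (cn := .npn) (n1 := ndN5q1) (n2 := ndN6q1) (pc := pcN0) (cut := Cut.none) (xt := Ext.none) (P1 := 536870912) (W1 := 469762048) (P2 := 536870912) (W2 := 469762048) (P3 := 1046898278) (W3 := 26843546) (N0 := 3)
    rfl k0_pm_101

noncomputable def f_pm_102 : ℕ → ℕ → ℕ → ℕ → Bool := onCell 536870912 469762048 1073741824 536870912 1046898278 26843546
    (rowNX 3 0 false true false .npp 1 0 2 (qsf 536870912 469762048 1073741824 536870912 0) ndN5q1 ndN6q2 pcN0 Cut.none Ext.none)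

def k0_pm_102 : ∃ t, chk3 f_pm_102 t 1 1 1 = true :=
  ⟨(l 4), by decide +kernel⟩

theorem c_pm_102 : CertNX 536870912 469762048 1073741824 536870912 1046898278 26843546 3 false true false .npp 1 0 2
    ndN5q1 ndN6q2 pcN0 Cut.none Ext.none :=
  certNX0 (fam := false) (s1 := true) (s2 := false) (a := 1) (b := 0) (c := 2) (cn := .npp) (n1 := ndN5q1) (n2 := ndN6q2) (pc := pcN0) (cut := Cut.none) (xt := Ext.none) (P1 := 536870912) (W1 := 469762048) (P2 := 1073741824) (W2 := 536870912) (P3 := 1046898278) (W3 := 26843546) (N0 := 3)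
    rfl k0_pm_102

noncomputable def f_pm_112 : ℕ → ℕ → ℕ → ℕ → Bool := onCell 536870912 469762048 1073741824 536870912 1046898278 26843546
    (rowNX 3 0 false true false .dn 1 1 2 (qsf 536870912 469762048 1073741824 536870912 1) ndN5q1 ndN6q2 pcN1 Cut.none Ext.none)

def k0_pm_112 : ∃ t, chk3 f_pm_112 t 1 1 1 = true :=
  ⟨(l 4), by decide +kernel⟩

theorem c_pm_112 : CertNX 536870912 469762048 1073741824 536870912 1046898278 26843546 3 false true false .dn 1 1 2
    ndN5q1 ndN6q2 pcN1 Cut.none Ext.none :=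
  certNX0 (fam := false) (s1 := true) (s2 := false) (a := 1) (b := 1) (c := 2) (cn := .dn) (n1 := ndN5q1) (n2 := ndN6q2) (pc := pcN1) (cut := Cut.none) (xt := Ext.none) (P1 := 536870912) (W1 := 469762048) (P2 := 1073741824) (W2 := 536870912) (P3 := 1046898278) (W3 := 26843546) (N0 := 3)
    rfl k0_pm_112

noncomputable def f_pm_113 : ℕ → ℕ → ℕ → ℕ → Bool := onCell 536870912 469762048 0 1230186008 1046898278 26843546
    (rowNX 3 0 false true false .nn 1 1 3 (qsf 536870912 469762048 0 1230186008 1) ndN5q1 ndN6q3 pcN1 Cut.none Ext.none)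

def k0_pm_113 : ∃ t, chk3 f_pm_113 t 1 1 1 = true :=
  ⟨(b (b (l 2) (l 4)) (l 4)), by decide +kernel⟩

theorem c_pm_113 : CertNX 536870912 469762048 0 1230186008 1046898278 26843546 3 false true false .nn 1 1 3
    ndN5q1 ndN6q3 pcN1 Cut.none Ext.none :=
  certNX0 (fam := false) (s1 := true) (s2 := false) (a := 1) (b := 1) (c := 3) (cn := .nn) (n1 := ndN5q1) (n2 := ndN6q3) (pc := pcN1) (cut := Cut.none) (xt := Ext.none) (P1 := 536870912) (W1 := 469762048) (P2 := 0) (W2 := 1230186008) (P3 := 1046898278) (W3 := 26843546) (N0 := 3)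
    rfl k0_pm_113

noncomputable def f_pm_123 : ℕ → ℕ → ℕ → ℕ → Bool := onCell 536870912 469762048 0 1230186008 1046898278 26843546
    (rowNX 3 0 false true false .npn 1 2 3 (qsf 536870912 469762048 0 1230186008 2) ndN5q1 ndN6q3 pcN2 Cut.none Ext.none)

def k0_pm_123 : ∃ t, chk3 f_pm_123 t 1 1 1 = true :=
  ⟨(b (b (l 4) (l 4)) (l 4)), by decide +kernel⟩

theorem c_pm_123 : CertNX 536870912 469762048 0 1230186008 1046898278 26843546 3 false true false .npn 1 2 3
    ndN5q1 ndN6q3 pcN2 Cut.none Ext.none :=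
  certNX0 (fam := false) (s1 := true) (s2 := false) (a := 1) (b := 2) (c := 3) (cn := .npn) (n1 := ndN5q1) (n2 := ndN6q3) (pc := pcN2) (cut := Cut.none) (xt := Ext.none) (P1 := 536870912) (W1 := 469762048) (P2 := 0) (W2 := 1230186008) (P3 := 1046898278) (W3 := 26843546) (N0 := 3)
    rfl k0_pm_123

noncomputable def f_pm_133 : ℕ → ℕ → ℕ → ℕ → Bool := onCell 1610612736 536870912 0 1230186008 1046898278 26843546
    (rowNX 3 2 false true false .dn 1 3 3 (qsf 536870912 469762048 0 1230186008 3) ndN5q1 ndN6q3 pcN3 Cut.none Ext.none)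

def k0_pm_133 : ∃ t, chk3 f_pm_133 t 1 1 1 = true :=
  ⟨(b (l 4) (l 1)), by decide +kernel⟩

theorem c_pm_133 : CertNX 536870912 469762048 0 1230186008 1046898278 26843546 3 false true false .dn 1 3 3
    ndN5q1 ndN6q3 pcN3 Cut.none Ext.none :=
  certNX2 (fam := false) (s1 := true) (s2 := false) (a := 1) (b := 3) (c := 3) (cn := .dn) (n1 := ndN5q1) (n2 := ndN6q3) (pc := pcN3) (cut := Cut.none) (xt := Ext.none) (P1 := 536870912) (W1 := 469762048) (P2 := 0) (W2 := 1230186008) (P3 := 1046898278) (W3 := 26843546) (N0 := 3)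
    rfl (fun _ => rfl) k0_pm_133

noncomputable def f_pm_202 : ℕ → ℕ → ℕ → ℕ → Bool := onCell 1073741824 536870912 0 536870912 1046898278 26843546
    (rowNX 3 1 false true false .pp 2 0 2 (qsf 1073741824 536870912 1073741824 536870912 0) ndN5q2 ndN6q2 pcN0 Cut.none Ext.none)

def k0_pm_202 : ∃ t, chk3 f_pm_202 t 4 4 1 = true :=
  ⟨(b (b (b (a (a (l 4) (c (b (l 13397064) (c (l 13480048) (l 13422608))) (b (c (l 13308392) (b (l 13170480) (l 13261648))) (c (l 13364200) (l 13304704))))) (c (b (l 12932672) (b (l 12913648) (l 12900280))) (b (c (b (l 12842528) (l 12828752)) (b (c (l 12791064) (l 12756440)) (l 12760120))) (c (l 12805504) (l 12735560))))) (b (a (c (a (l 574143210791) (l 13500264)) (l 456031191879)) (c (a (l 13125248) (l 12647832)) (l 12709104))) (a (c (l 445294073367) (l 450125688791)) (c (l 12888328) (l 12748072))))) (a (c (a (b (l 13822456) (l 13899536)) (b (l 13514640) (l 13452752))) (a (b (l 13717520) (l 13796800)) (l 13355264))) (a (b (l 12933216) (c (l 13011368)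 (l 12877872))) (b (c (l 12902168) (l 12763168)) (l 13222528))))) (b (a (a (b (l 13855576) (l 13794776)) (b (l 13293360) (l 13308912))) (b (a (l 13154784) (l 13682232)) (l 13844696))) (a (a (b (l 13695528) (l 13707168)) (l 13635208)) (a (l 14231512) (l 14559304))))), by decide +kernel⟩

def k1_pm_202 : ∃ t, chk3 f_pm_202 t 5 4 1 = true :=
  ⟨(b (a (b (b (a (c (b (l 12466656) (a (l 12517392) (l 13180712))) (b (a (b (l 12226736) (l 12148856)) (c (l 12842152) (l 12773056))) (a (l 12367616) (l 13054216)))) (c (b (l 14402632) (b (l 14567072) (l 14676712))) (b (c (l 14338848) (b (l 14236976) (l 14354080))) (l 14379008)))) (a (c (a (l 12841080) (l 13528952)) (l 13059184)) (c (b (l 14841080) (l 15051272)) (l 14877336)))) (a (c (a (l 13524000) (l 14178040)) (a (l 13407392) (l 14084384))) (b (a (l 14866160) (l 15605320)) (a (l 15183984) (l 15801264))))) (b (b (a (c (b (l 16179264) (a (l 15965008) (l 16687264))) (b (c (a (l 15733648) (l 16583448)) (a (l 15651736) (l 16579696))) (a (l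 15936632) (l 16687016)))) (c (l 16347992) (b (l 16341512) (l 16332576)))) (a (c (a (l 16183304) (l 16623392)) (l 16434744)) (c (l 16331600) (l 16327624)))) (a (c (l 16521592) (l 16511392)) (l 16325968)))) (a (b (a (a (l 14262808) (l 14704344)) (l 15559848)) (a (l 14673232) (l 15565808))) (b (a (l 16518920) (l 16316192)) (l 16503936)))), by decide +kernel⟩

def k2_pm_202 : ∃ t, chk3 f_pm_202 t 3 4 1 = true :=
  ⟨(b (b (a (b (c (b (l 16106272) (l 16105544)) (c (l 16091832) (l 16083952))) (c (l 16027080) (l 16083832))) (b (c (b (l 15646808) (a (l 15763520) (l 15514336))) (b (c (l 15627968) (a (l 15727544) (l 15469536))) (l 15623680))) (c (a (b (l 15752744) (l 15759640)) (l 15499400)) (l 15644536)))) (a (a (l 16194992) (b (l 15996336) (l 16002712))) (c (a (l 15582368) (l 15549752)) (l 15680208)))) (b (a (a (l 16192216) (l 16020568)) (b (l 15740720) (l 15857960))) (a (l 16110928) (l 16058328)))), by decide +kernel⟩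

def k3_pm_202 : ∃ t, chk3 f_pm_202 t 1 5 1 = true :=
  ⟨(a (a (b (a (b (a (b (l 13913448) (l 14299048)) (l 14581936)) (a (l 14954920) (l 15199064))) (b (l 14551320) (l 14882056))) (a (b (a (l 15554120) (l 15357712)) (l 15522120)) (l 14796544))) (b (a (a (l 14639896) (l 15523088)) (a (l 16469472) (l 16413232))) (a (a (l 14514680) (l 15385536)) (a (l 16328504) (l 16724224))))) (b (a (b (l 16280000) (l 16466872)) (b (l 16293064) (l 2))) (b (a (l 16670584) (l 2)) (l 16777120)))), by decide +kernel⟩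

def k4_pm_202 : ∃ t, chk3 f_pm_202 t 1 3 1 = true :=
  ⟨(a (a (b (a (l 15522248) (l 14772512)) (a (l 15501280) (l 14772512))) (a (b (b (l 14871888) (l 14934800)) (a (l 14488456) (l 2))) (b (a (l 16304928) (l 16776552)) (l 2)))) (b (a (l 16777216) (l 2)) (l 2))), by decide +kernel⟩

theorem s5_pm_202 : ∃ t, chk3 f_pm_202 t 2 4 1 = true := ex3_a k0_pm_202 k1_pm_202

theorem s6_pm_202 : ∃ t, chk3 f_pm_202 t 1 4 1 = true := ex3_a s5_pm_202 k2_pm_202

theorem s7_pm_202 : ∃ t, chk3 f_pm_202 t 1 2 1 = true := ex3_b s6_pm_202 k3_pm_202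

theorem s8_pm_202 : ∃ t, chk3 f_pm_202 t 1 1 1 = true := ex3_b s7_pm_202 k4_pm_202

theorem c_pm_202 : CertNX 1073741824 536870912 1073741824 536870912 1046898278 26843546 3 false true false .pp 2 0 2
    ndN5q2 ndN6q2 pcN0 Cut.none Ext.none :=
  certNX1 (fam := false) (s1 := true) (s2 := false) (a := 2) (b := 0) (c := 2) (cn := .pp) (n1 := ndN5q2) (n2 := ndN6q2) (pc := pcN0) (cut := Cut.none) (xt := Ext.none) (P1 := 1073741824) (W1 := 536870912) (P2 := 1073741824) (W2 := 536870912) (P3 := 1046898278) (W3 := 26843546) (N0 := 3)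
    rfl (fun _ => rfl) s8_pm_202

noncomputable def f_pm_203 : ℕ → ℕ → ℕ → ℕ → Bool := onCell 0 536870912 0 1230186008 1046898278 26843546
    (rowNX 3 2 false true false .up 2 0 3 (qsf 1073741824 536870912 0 1230186008 0) ndN5q2 ndN6q3 pcN0 Cut.none Ext.none)

def k0_pm_203 : ∃ t, chk3 f_pm_203 t 1 1 1 = true :=
  ⟨(b (a (l 2) (b (l 3) (a (l 2) (b (l 3) (a (l 341617506903) (c (l 311552738039) (l 323900765911))))))) (b (a (a (l 2) (a (l 2) (a (l 2) (l 1256915917847)))) (a (a (b (l 2) (l 1043240845127)) (b (c (l 16777152) (l 16777144)) (l 16777200))) (b (a (c (l 16777152) (l 16777144)) (c (l 16777152) (l 16777144))) (l 16777200)))) (b (a (a (l 2) (a (a (b (l 2) (l 16482360)) (b (l 962173530599) (l 16636264))) (a (l 16710248) (l 16777120)))) (a (l 16777216) (a (b (l 16777216) (l 16701096)) (b (l 16648304) (a (l 16246616) (l 15473224)))))) (a (a (a (b (l 2) (a (a (c (l 14977872) (a (l 515493023783) (l 15209192))) (c (l 15301784) (l 15288568))) (l 15431296))) (a (l 15658720)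 (l 16049920))) (a (b (l 16397928) (l 16364432)) (a (l 16680656) (l 16777080)))) (a (b (a (l 16777216) (l 16708368)) (a (l 16674600) (b (l 16203376) (a (l 15908104) (l 15001600))))) (b (a (a (l 16294968) (b (l 16036664) (l 15107296))) (b (a (l 15095808) (l 14568192)) (a (l 14578624) (l 14698696)))) (a (b (a (l 15074608) (l 14578720)) (l 14695744)) (l 15087288)))))))), by decide +kernel⟩

theorem c_pm_203 : CertNX 1073741824 536870912 0 1230186008 1046898278 26843546 3 false true false .up 2 0 3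
    ndN5q2 ndN6q3 pcN0 Cut.none Ext.none :=
  certNX2 (fam := false) (s1 := true) (s2 := false) (a := 2) (b := 0) (c := 3) (cn := .up) (n1 := ndN5q2) (n2 := ndN6q3) (pc := pcN0) (cut := Cut.none) (xt := Ext.none) (P1 := 1073741824) (W1 := 536870912) (P2 := 0) (W2 := 1230186008) (P3 := 1046898278) (W3 := 26843546) (N0 := 3)
    rfl (fun _ => rfl) k0_pm_203

noncomputable def f_pm_213 : ℕ → ℕ → ℕ → ℕ → Bool := onCell 1073741824 536870912 0 1230186008 1046898278 26843546
    (rowNX 3 0 false true false .pnn 2 1 3 (qsf 1073741824 536870912 0 1230186008 1) ndN5q2 ndN6q3 pcN1 Cut.none Ext.none)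

def k0_pm_213 : ∃ t, chk3 f_pm_213 t 4 2 1 = true :=
  ⟨(b (a (a (b (a (b (c (a (l 16247656) (b (l 16411776) (l 16437864))) (a (c (a (l 16191384) (l 16115872)) (a (b (l 16147376) (l 16087648)) (l 16127504))) (c (b (l 16381016) (l 16386496)) (l 16411616)))) (a (b (c (l 16283144) (c (a (l 16227200) (l 16175496)) (b (l 16014048) (l 16076888)))) (l 16289808)) (c (c (l 16477400) (b (l 16423312) (b (l 16479184) (l 16480696)))) (c (b (l 16459400) (l 16448632)) (l 16467048))))) (b (c (a (c (l 16599416) (b (l 16583152) (l 16610128))) (c (l 16641992) (l 16761040))) (l 16676552)) (c (b (a (c (l 16643480) (l 16642144)) (l 16742072)) (a (c (a (l 16623448) (l 16688136)) (l 16615256)) (l 16665968))) (l 16608032)))) (a (l 16342688) (b (a (l 16364400) (b (l 16447888) (l 16284424))) (l 16020984)))) (b (a (b (a (l 16627808) (l 16439120)) (b (l 16477296) (l 16438752))) (b (l 16129568) (l 16074632))) (b (a (l 16256904) (l 15999160)) (l 15876448)))) (b (a (b (l 15556960) (l 15529224)) (b (l 14863184)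 (l 14839848))) (a (b (l 15498328) (l 15381008)) (b (l 14830400) (a (l 14941256) (l 14659376)))))) (a (b (a (b (l 16016168) (l 15499920)) (l 15513392)) (a (b (l 15418728) (l 15430808)) (b (l 15320640) (l 15264424)))) (b (a (b (l 15212368) (l 15082272)) (b (b (a (l 14863912) (l 14639584)) (l 14720936)) (l 14695688))) (b (a (l 15006648) (l 14662680)) (l 14784512))))), by decide +kernel⟩

def k1_pm_213 : ∃ t, chk3 f_pm_213 t 5 2 1 = true :=
  ⟨(b (b (a (a (a (b (l 14394816) (l 14379848)) (l 220816792087)) (b (l 3) (l 15307624))) (l 3)) (a (a (a (b (l 14411560) (l 14452400)) (l 14627448)) (l 15291568)) (a (a (l 16035304) (l 16464392)) (l 16702240)))) (a (b (a (a (b (l 14459224) (l 14441768)) (b (l 14657864) (l 14643624))) (b (l 15394752) (l 15392360))) (a (a (l 14401472) (l 14617248)) (l 15379952))) (b (a (a (l 16092912) (l 16505224)) (l 16727568)) (a (b (l 16331576) (l 16310248)) (b (l 16741728) (l 16770520)))))), by decide +kernel⟩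

def k2_pm_213 : ∃ t, chk3 f_pm_213 t 3 2 1 = true :=
  ⟨(a (a (b (a (b (l 3) (l 16702872)) (l 3)) (b (b (l 16738240) (l 16738680)) (b (l 16742256) (a (l 16771008) (l 16771008))))) (b (l 3) (b (b (l 3) (l 193441168359)) (c (b (l 16742888) (l 16771112)) (b (l 16741672) (l 16770896)))))) (b (l 3) (b (l 3) (c (a (l 318532059239) (l 338933154231)) (a (l 328195733207) (l 345375602391)))))), by decide +kernel⟩

def k3_pm_213 : ∃ t, chk3 f_pm_213 t 1 3 1 = true :=
  ⟨(b (a (a (b (a (b (a (l 15516264) (l 15263824)) (l 15453784)) (b (l 14770224) (l 14771872))) (a (b (a (l 15691016) (l 15319568)) (l 15522192)) (l 14772528))) (a (b (a (l 14488520) (l 15362240)) (a (l 14362648) (l 15362192))) (b (a (l 16304992) (l 16776616)) (a (l 16304944) (l 16776568))))) (a (b (a (l 16777152) (c (l 16777152) (l 16777144))) (l 16777200)) (a (b (c (l 16777152) (l 16777144)) (l 1)) (l 1)))) (a (a (b (a (l 15522248) (l 14772512)) (a (b (l 15522248) (l 15522248)) (l 14625712))) (a (b (a (l 14488456) (l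 15362176)) (b (a (l 14488456) (l 1)) (l 1))) (b (a (l 16304928) (l 16776552)) (l 1)))) (l 1))), by decide +kernel⟩

theorem s4_pm_213 : ∃ t, chk3 f_pm_213 t 2 2 1 = true := ex3_a k0_pm_213 k1_pm_213

theorem s5_pm_213 : ∃ t, chk3 f_pm_213 t 1 2 1 = true := ex3_a s4_pm_213 k2_pm_213

theorem s6_pm_213 : ∃ t, chk3 f_pm_213 t 1 1 1 = true := ex3_b s5_pm_213 k3_pm_213

theorem c_pm_213 : CertNX 1073741824 536870912 0 1230186008 1046898278 26843546 3 false true false .pnn 2 1 3
    ndN5q2 ndN6q3 pcN1 Cut.none Ext.none :=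
  certNX0 (fam := false) (s1 := true) (s2 := false) (a := 2) (b := 1) (c := 3) (cn := .pnn) (n1 := ndN5q2) (n2 := ndN6q3) (pc := pcN1) (cut := Cut.none) (xt := Ext.none) (P1 := 1073741824) (W1 := 536870912) (P2 := 0) (W2 := 1230186008) (P3 := 1046898278) (W3 := 26843546) (N0 := 3)
    rfl s6_pm_213

noncomputable def f_pm_303 : ℕ → ℕ → ℕ → ℕ → Bool := onCell 0 1230186008 0 1230186008 1046898278 26843546
    (rowNX 3 0 false true false .npn 3 0 3 (qsf 0 1230186008 0 1230186008 0) ndN5q3 ndN6q3 pcN0 Cut.none Ext.none)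

def k0_pm_303 : ∃ t, chk3 f_pm_303 t 2 1 1 = true :=
  ⟨(b (l 3) (b (l 3) (l 1))), by decide +kernel⟩

def k1_pm_303 : ∃ t, chk3 f_pm_303 t 3 2 1 = true :=
  ⟨(a (l 3) (b (l 3) (a (l 3) (l 3)))), by decide +kernel⟩

def k2_pm_303 : ∃ t, chk3 f_pm_303 t 6 3 1 = true :=
  ⟨(b (a (l 3) (l 3)) (a (l 1) (b (b (b (b (l 3) (l 1)) (l 1)) (l 1)) (l 1)))), by decide +kernel⟩

def k3_pm_303 : ∃ t, chk3 f_pm_303 t 14 6 1 = true :=
  ⟨(b (l 3) (a (b (l 3) (b (l 3) (a (a (l 3) (a (l 3) (b (l 3) (b (l 3) (a (l 3) (c (l 14203024) (b (l 3) (a (l 14155504) (l 14172168))))))))) (a (b (l 3) (c (c (c (l 14425992) (a (l 14358048) (b (l 14467480) (l 14404600)))) (a (b (c (l 338391154295) (l 337854219959)) (c (l 14314376) (c (l 14293960) (l 14295416)))) (c (b (l 337854387639) (b (l 14402880) (l 14380768))) (b (l 14382504) (l 14191712))))) (c (c (a (l 333559128055) (l 14348912)) (l 14297704)) (l 14265440)))) (c (a (b (b (l 3) (l 14278440)) (c (c (b (l 14551776) (l 14490608)) (b (l 275577424343)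 (l 14478776))) (c (b (l 14461712) (l 14214976)) (l 14430632)))) (b (b (l 14594768) (l 14568856)) (c (b (c (l 14563512) (l 14546808)) (b (c (l 14586152) (l 14378840)) (l 14546024))) (l 14492184)))) (b (l 14504424) (l 14409792))))))) (b (a (l 3) (b (l 3) (l 333562314935))) (a (b (b (a (l 3) (a (l 3) (l 15429288))) (c (l 294906159671) (l 14932552))) (a (b (b (l 14752056) (a (l 14620584) (l 14788696))) (b (c (a (a (a (l 14575744) (l 14593248)) (l 14637664)) (l 14753272)) (l 14589848)) (a (l 14417080) (l 14469960)))) (b (c (l 15158032) (l 15101128)) (a (b (l 14779872) (l 14840760)) (l 15144216))))) (b (a (c (l 15328912) (l 15412664)) (l 15721992)) (b (a (c (l 15487416) (b (l 15475944) (l 15496672))) (l 15640040)) (a (c (l 15570176) (l 15527784)) (c (l 16002872) (l 15975688))))))))), by decide +kernel⟩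

def k4_pm_303 : ∃ t, chk3 f_pm_303 t 15 6 1 = true :=
  ⟨(b (a (b (l 3) (a (l 3) (c (l 365240303895) (l 393694467175)))) (c (l 305647321079) (l 293299289815))) (a (b (a (b (l 488182469271) (l 16222640)) (b (a (l 16660328) (l 16757344)) (a (l 16499960) (l 16679592)))) (a (b (a (b (l 15948856) (l 15900704)) (l 16135664)) (l 16217360)) (b (a (l 16342920) (l 16543704)) (l 16532944)))) (a (b (a (b (l 16777168) (b (l 16776784) (l 16765440))) (l 16776216)) (b (l 16721000) (l 16710272))) (b (l 16777184) (b (l 16777216) (l 16772208)))))), by decide +kernel⟩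

def k5_pm_303 : ∃ t, chk3 f_pm_303 t 56 56 1 = true :=
  ⟨(a (b (b (l 3) (c (l 14014576) (c (l 331947690247) (a (l 13862920) (c (l 13763288) (b (c (l 13927136) (a (l 13899560) (l 13927832))) (a (l 13867128) (l 13907064)))))))) (a (l 1) (b (l 474084363687) (l 1)))) (c (b (b (l 14166000) (b (l 14127696) (l 14100128))) (b (a (l 14062408) (l 13908680)) (l 14025888))) (b (c (a (b (c (l 14085072) (c (l 14077864) (l 328189971079))) (b (l 14032808) (l 14009472))) (c (b (l 14156920) (l 14105952)) (b (a (c (l 14125248) (l 14084880)) (l 14089528)) (l 14087408)))) (c (a (b (c (a (l 13928704) (l 14063136)) (l 326042424343)) (b (c (l 14008168) (a (l 13982912) (l 14011640))) (l 13980200))) (b (l 14111960) (c (l 13961712) (l 14053184)))) (a (b (l 14027024) (b (l 13723048) (b (l 13962728) (l 13953640)))) (l 14053552)))) (b (c (a (l 13977848) (b (l 14056496) (l 14041600))) (a (b (c (l 13962912) (l 13881168)) (l 13930440)) (c (l 13954264) (l 13998632)))) (c (l 13951088) (a (l 13882264) (l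 13986072))))))), by decide +kernel⟩

def k6_pm_303 : ∃ t, chk3 f_pm_303 t 57 56 1 = true :=
  ⟨(c (a (b (c (l 14275728) (b (c (l 14296280) (a (l 14242008) (a (l 14033832) (l 14336632)))) (l 14237056))) (b (c (l 14209288) (b (l 14191856) (l 14169512))) (a (l 14104232) (c (l 14215992) (b (l 14183912) (l 14168088)))))) (c (b (b (l 14458904) (l 14421752)) (l 14114776)) (b (b (l 14193424) (a (c (l 14358368) (b (l 14352536) (l 14320784))) (b (l 14430120) (l 14407864)))) (b (l 14343552) (l 14279104))))) (b (c (a (b (c (a (c (a (l 14209656) (l 14249728)) (l 14196024)) (l 14283720)) (l 14220024)) (c (a (l 14176552) (a (l 14225144) (l 14264368))) (a (b (l 14165464) (l 14134728)) (l 14221880)))) (c (l 14373800) (l 14350712))) (b (l 14255344) (l 14216616))) (a (c (a (b (l 14080480) (b (l 14083368) (l 14063104))) (b (l 14186640) (l 14150648))) (b (l 14108464) (b (l 14080472) (l 14084936)))) (c (b (l 14300960) (l 14235888)) (l 14234888))))), by decide +kernel⟩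

def k7_pm_303 : ∃ t, chk3 f_pm_303 t 28 57 1 = true :=
  ⟨(a (b (c (b (l 473547294279) (l 1)) (l 13745064)) (l 1)) (b (c (a (a (l 14035336) (c (l 14153344) (l 14015224))) (b (a (c (l 14271320) (l 14070368)) (l 14285376)) (a (l 13935104) (c (l 14285512) (l 14259480))))) (a (b (c (a (l 14056000) (l 14136088)) (a (l 13929288) (l 14105504))) (a (l 13986664) (c (l 14102832) (b (l 14092552) (l 14074088))))) (b (c (l 14216968) (l 14198624)) (c (a (l 14182440) (l 14235248)) (l 13993120))))) (a (c (l 13981552) (l 13946440)) (c (b (l 14116280) (l 14171664)) (b (a (c (l 14149648) (b (l 14139576) (l 14121288))) (c (l 14228768) (l 14199304))) (a (l 14081416) (c (l 14196448) (b (l 14186584) (l 14168472))))))))), by decide +kernel⟩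

def k8_pm_303 : ∃ t, chk3 f_pm_303 t 29 28 1 = true :=
  ⟨(a (b (b (c (a (a (b (l 14422888) (b (l 14330920) (c (l 14511144) (l 14476752)))) (c (b (l 14636160) (l 14543136)) (l 14580672))) (b (a (l 14745376) (l 15000040)) (a (b (l 14449008) (l 14641488)) (b (l 14859216) (l 14764448))))) (a (l 14481112) (b (l 14809312) (l 14524208)))) (c (a (c (l 14500336) (b (l 14479408) (l 14429792))) (b (l 14624624) (c (l 14622072) (l 14600288)))) (a (l 14415904) (l 14577192)))) (a (b (c (c (l 14341312) (l 14367472)) (l 14325936)) (c (b (a (l 14187456) (l 14332264)) (a (l 14319984) (l 14148520))) (b (l 14305360) (a (c (l 14275056) (l 14246152)) (l 14305872))))) (c (b (c (l 14517808) (l 14302224)) (b (l 14449184) (l 14444704))) (b (l 14450584) (l 14424840))))) (b (b (b (c (l 15774416) (l 15739176)) (c (l 15652632) (l 15613088))) (a (b (l 14941448) (a (c (l 14726912) (l 14650944)) (l 14881712))) (l 15406752))) (a (b (c (a (l 14511544) (b (b (l 14787520) (l 14742736)) (l 14735960))) (l 14383664))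 (c (l 14590792) (l 14572360))) (b (b (c (l 14929488) (l 15027600)) (a (c (l 14838912) (l 14744696)) (l 14758800))) (c (a (l 14724536) (b (l 14866088) (l 14779264))) (l 14715680)))))), by decide +kernel⟩

def k9_pm_303 : ∃ t, chk3 f_pm_303 t 14 29 1 = true :=
  ⟨(a (b (a (l 1) (a (l 1) (b (b (l 14091344) (l 1)) (l 1)))) (l 1)) (b (b (a (a (c (b (a (l 14274472) (l 14365408)) (l 14268624)) (b (c (a (l 14243224) (l 14321312)) (a (b (l 14233560) (l 14215648)) (l 14271992))) (a (l 14178936) (c (l 14289968) (b (l 14238568) (l 14262792)))))) (c (b (a (c (l 14440776) (l 14404784)) (l 14455944)) (a (l 14410784) (c (l 14484920) (l 14450136)))) (b (l 14397840) (a (c (l 14325592) (l 14255840)) (l 14398064))))) (c (a (b (l 14546392) (l 14534936)) (l 14692392)) (l 14588560))) (a (a (c (l 14158320) (l 14126360)) (b (c (a (l 14367688) (b (l 14466992) (l 14454640))) (a (c (l 14337936) (b (l 14139912) (l 14307600))) (c (b (l 14418512) (l 14413240)) (b (l 14391208) (l 14343440))))) (l 14343800)))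 (a (c (b (a (c (l 14531256) (l 14497656)) (l 14545552)) (b (a (l 14488128) (l 14537952)) (l 14523440))) (b (l 14304800) (b (c (a (l 14462152) (l 14511552)) (l 14466888)) (l 14470448)))) (c (b (l 14637760) (a (l 14590360) (l 14639528))) (l 14616376))))) (a (l 13975640) (b (a (c (l 14468768) (b (l 14410216) (l 14418752))) (c (l 14556304) (l 14403632))) (a (l 14348384) (c (l 14561056) (b (l 14314488) (l 14512736)))))))), by decide +kernel⟩

def k10_pm_303 : ∃ t, chk3 f_pm_303 t 14 15 1 = true :=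
  ⟨(a (l 1) (b (b (a (l 1) (l 390870119495)) (l 1)) (l 1))), by decide +kernel⟩

def k11_pm_303 : ∃ t, chk3 f_pm_303 t 15 14 1 = true :=
  ⟨(a (b (a (b (b (a (c (l 16464560) (l 16453584)) (l 16613752)) (a (b (l 16302376) (l 15975488)) (l 16481248))) (a (b (b (l 15623048) (l 15296240)) (c (c (l 15119448) (l 14935640)) (l 14887152))) (b (b (l 16165200) (a (l 15748904) (l 16011616))) (b (l 15470360) (l 15416640))))) (b (b (l 16759544) (l 16668264)) (a (b (l 16322704) (b (a (l 15979456) (l 16107480)) (l 15875392))) (l 16340464)))) (a (b (c (a (b (a (l 14820128) (b (l 14937368) (l 14887296))) (l 14790032)) (b (l 15188408) (b (a (l 14931904) (l 15070096)) (l 14930024)))) (b (a (l 14820832) (l 15141440)) (a (l 14760960) (l 14832232)))) (b (b (c (a (l 14618320) (l 14896192)) (l 14782824)) (l 14775056)) (a (c (l 14478520) (b (l 14673632) (l 14657552))) (l 14747336)))) (b (a (b (l 15601232) (c (l 15063168) (l 15241840))) (b (b (l 16054720) (l 15932936)) (l 15679176))) (c (b (a (a (a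 (l 14976984) (l 15019296)) (b (l 15170592) (l 14961096))) (l 15388584)) (l 14986496)) (b (a (b (l 15050744) (l 14962688)) (l 15340040)) (l 15010440)))))) (b (b (b (a (l 16744064) (l 16767768)) (l 16771568)) (a (b (l 16661608) (l 16438136)) (l 16711872))) (a (b (b (l 16291880) (a (a (l 15958616) (l 16084256)) (l 16202840))) (b (a (a (l 15656992) (l 15846856)) (l 16027256)) (b (a (l 15512440) (l 15874696)) (l 15560480)))) (b (b (l 16537952) (l 16413024)) (a (l 16124136) (l 16265504)))))), by decide +kernel⟩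

def k12_pm_303 : ∃ t, chk3 f_pm_303 t 15 15 1 = true :=
  ⟨(b (a (b (a (b (a (c (l 14653128) (b (a (l 14606808) (l 14673048)) (l 14606552))) (c (b (l 14808240) (l 14794368)) (b (l 14764880) (l 14686464)))) (a (l 14539512) (c (l 14744944) (b (a (l 14699744) (l 14764904)) (l 14574336))))) (a (b (l 14710168) (c (b (l 14897272) (l 14883624)) (b (l 14855712) (l 14652072)))) (c (l 15018584) (l 14995912)))) (a (b (l 14537664) (l 1)) (b (a (c (l 14836464) (b (a (l 14792400) (l 14856400)) (l 332889049191))) (c (b (l 14985552) (l 14888608)) (c (l 14844640) (l 14929000)))) (a (l 14730504) (c (l 14801824) (a (b (l 14884728) (l 14837816)) (b (l 14947488) (l 14930752)))))))) (b (a (b (l 15403112) (a (l 15115248) (l 15326056))) (l 15833904)) (a (b (a (c (l 15081568) (l 15062568)) (l 15200144)) (a (c (b (l 15073480) (l 14851208)) (c (l 14850488) (l 15019720))) (c (l 15168872) (l 15151248)))) (b (l 15572648) (a (l 15286136) (l 15504904)))))) (a (b (a (l 1) (b (l 14732800) (l 1))) (l 1))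 (b (a (b (a (c (b (l 15040312) (l 15003200)) (b (a (l 14955712) (l 15017160)) (a (l 14931600) (l 14959592)))) (c (b (l 15160872) (a (l 15126744) (l 15177296))) (l 15117280))) (a (l 14921064) (a (a (l 14957296) (l 15084016)) (b (l 15162160) (c (l 15142048) (l 14946048)))))) (b (c (a (l 15255504) (l 15391144)) (l 15284536)) (b (c (l 15306376) (l 15273600)) (a (a (l 15206400) (l 15272608)) (l 15085328))))) (a (b (l 14927872) (l 1)) (b (a (a (a (l 14965360) (l 15174824)) (b (l 15250496) (c (l 15231344) (l 14952984)))) (a (b (l 15316064) (c (l 15301456) (l 15052768))) (a (l 15317536) (l 15144160)))) (a (l 15110840) (b (a (l 15270504) (c (l 15344768) (l 15055248))) (a (l 15215880) (l 15315104))))))))), by decide +kernel⟩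

theorem s13_pm_303 : ∃ t, chk3 f_pm_303 t 15 7 1 = true := ex3_b k11_pm_303 k12_pm_303

theorem s14_pm_303 : ∃ t, chk3 f_pm_303 t 28 56 1 = true := ex3_a k5_pm_303 k6_pm_303

theorem s15_pm_303 : ∃ t, chk3 f_pm_303 t 28 28 1 = true := ex3_b s14_pm_303 k7_pm_303

theorem s16_pm_303 : ∃ t, chk3 f_pm_303 t 14 28 1 = true := ex3_a s15_pm_303 k8_pm_303

theorem s17_pm_303 : ∃ t, chk3 f_pm_303 t 14 14 1 = true := ex3_b s16_pm_303 k9_pm_303

theorem s18_pm_303 : ∃ t, chk3 f_pm_303 t 14 7 1 = true := ex3_b s17_pm_303 k10_pm_303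

theorem s19_pm_303 : ∃ t, chk3 f_pm_303 t 7 7 1 = true := ex3_a s18_pm_303 s13_pm_303

theorem s20_pm_303 : ∃ t, chk3 f_pm_303 t 7 6 1 = true := ex3_a k3_pm_303 k4_pm_303

theorem s21_pm_303 : ∃ t, chk3 f_pm_303 t 7 3 1 = true := ex3_b s20_pm_303 s19_pm_303

theorem s22_pm_303 : ∃ t, chk3 f_pm_303 t 3 3 1 = true := ex3_a k2_pm_303 s21_pm_303

theorem s23_pm_303 : ∃ t, chk3 f_pm_303 t 3 1 1 = true := ex3_b k1_pm_303 s22_pm_303

theorem s24_pm_303 : ∃ t, chk3 f_pm_303 t 1 1 1 = true := ex3_a k0_pm_303 s23_pm_303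

theorem c_pm_303 : CertNX 0 1230186008 0 1230186008 1046898278 26843546 3 false true false .npn 3 0 3
    ndN5q3 ndN6q3 pcN0 Cut.none Ext.none :=
  certNX0 (fam := false) (s1 := true) (s2 := false) (a := 3) (b := 0) (c := 3) (cn := .npn) (n1 := ndN5q3) (n2 := ndN6q3) (pc := pcN0) (cut := Cut.none) (xt := Ext.none) (P1 := 0) (W1 := 1230186008) (P2 := 0) (W2 := 1230186008) (P3 := 1046898278) (W3 := 26843546) (N0 := 3)
    rfl s24_pm_303

noncomputable def f_pm_313 : ℕ → ℕ → ℕ → ℕ → Bool := onCell 0 1230186008 0 1230186008 1046898278 26843546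
    (rowNX 3 0 false true false .dn 3 1 3 (qsf 0 1230186008 0 1230186008 1) ndN5q3 ndN6q3 pcN1 Cut.none Ext.none)

def k0_pm_313 : ∃ t, chk3 f_pm_313 t 1 1 1 = true :=
  ⟨(a (l 1) (b (b (l 3) (l 1)) (l 1))), by decide +kernel⟩

theorem c_pm_313 : CertNX 0 1230186008 0 1230186008 1046898278 26843546 3 false true false .dn 3 1 3
    ndN5q3 ndN6q3 pcN1 Cut.none Ext.none :=
  certNX0 (fam := false) (s1 := true) (s2 := false) (a := 3) (b := 1) (c := 3) (cn := .dn) (n1 := ndN5q3) (n2 := ndN6q3) (pc := pcN1) (cut := Cut.none) (xt := Ext.none) (P1 := 0) (W1 := 1230186008) (P2 := 0) (W2 := 1230186008) (P3 := 1046898278) (W3 := 26843546) (N0 := 3)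
    rfl k0_pm_313

noncomputable def f_mm_001 : ℕ → ℕ → ℕ → ℕ → Bool := onCell 0 536870912 536870912 469762048 1046898278 26843546
    (rowNX 3 0 false false false .up 0 0 1 (qsf 0 536870912 536870912 469762048 0) ndN5q0 ndN6q1 pcN0 Cut.none Ext.none)

def k0_mm_001 : ∃ t, chk3 f_mm_001 t 1 1 1 = true :=
  ⟨(l 3), by decide +kernel⟩

theorem c_mm_001 : CertNX 0 536870912 536870912 469762048 1046898278 26843546 3 false false false .up 0 0 1
    ndN5q0 ndN6q1 pcN0 Cut.none Ext.none :=
  certNX0 (fam := false) (s1 := false) (s2 := false) (a := 0) (b := 0) (c := 1) (cn := .up) (n1 := ndN5q0) (n2 := ndN6q1) (pc := pcN0) (cut := Cut.none) (xt := Ext.none) (P1 := 0) (W1 := 536870912) (P2 := 536870912) (W2 := 469762048) (P3 := 1046898278) (W3 := 26843546) (N0 := 3)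
    rfl k0_mm_001

noncomputable def f_mm_011 : ℕ → ℕ → ℕ → ℕ → Bool := onCell 0 536870912 536870912 469762048 1046898278 26843546
    (rowNX 3 0 false false false .pnn 0 1 1 (qsf 0 536870912 536870912 469762048 1) ndN5q0 ndN6q1 pcN1 Cut.none Ext.none)

def k0_mm_011 : ∃ t, chk3 f_mm_011 t 1 1 1 = true :=
  ⟨(l 3), by decide +kernel⟩

theorem c_mm_011 : CertNX 0 536870912 536870912 469762048 1046898278 26843546 3 false false false .pnn 0 1 1
    ndN5q0 ndN6q1 pcN1 Cut.none Ext.none :=
  certNX0 (fam := false) (s1 := false) (s2 := false) (a := 0) (b := 1) (c := 1) (cn := .pnn) (n1 := ndN5q0) (n2 := ndN6q1) (pc := pcN1) (cut := Cut.none) (xt := Ext.none) (P1 := 0) (W1 := 536870912) (P2 := 536870912) (W2 := 469762048) (P3 := 1046898278) (W3 := 26843546) (N0 := 3)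
    rfl k0_mm_011

noncomputable def f_mm_012 : ℕ → ℕ → ℕ → ℕ → Bool := onCell 0 536870912 1073741824 536870912 1046898278 26843546
    (rowNX 3 0 false false false .pnp 0 1 2 (qsf 0 536870912 1073741824 536870912 1) ndN5q0 ndN6q2 pcN1 Cut.none Ext.none)

def k0_mm_012 : ∃ t, chk3 f_mm_012 t 1 1 1 = true :=
  ⟨(l 5), by decide +kernel⟩

theorem c_mm_012 : CertNX 0 536870912 1073741824 536870912 1046898278 26843546 3 false false false .pnp 0 1 2
    ndN5q0 ndN6q2 pcN1 Cut.none Ext.none :=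
  certNX0 (fam := false) (s1 := false) (s2 := false) (a := 0) (b := 1) (c := 2) (cn := .pnp) (n1 := ndN5q0) (n2 := ndN6q2) (pc := pcN1) (cut := Cut.none) (xt := Ext.none) (P1 := 0) (W1 := 536870912) (P2 := 1073741824) (W2 := 536870912) (P3 := 1046898278) (W3 := 26843546) (N0 := 3)
    rfl k0_mm_012

noncomputable def f_mm_022 : ℕ → ℕ → ℕ → ℕ → Bool := onCell 0 536870912 1073741824 536870912 1046898278 26843546
    (rowNX 3 0 false false false .pp 0 2 2 (qsf 0 536870912 1073741824 536870912 2) ndN5q0 ndN6q2 pcN2 Cut.none Ext.none)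

def k0_mm_022 : ∃ t, chk3 f_mm_022 t 1 1 1 = true :=
  ⟨(l 5), by decide +kernel⟩

theorem c_mm_022 : CertNX 0 536870912 1073741824 536870912 1046898278 26843546 3 false false false .pp 0 2 2
    ndN5q0 ndN6q2 pcN2 Cut.none Ext.none :=
  certNX0 (fam := false) (s1 := false) (s2 := false) (a := 0) (b := 2) (c := 2) (cn := .pp) (n1 := ndN5q0) (n2 := ndN6q2) (pc := pcN2) (cut := Cut.none) (xt := Ext.none) (P1 := 0) (W1 := 536870912) (P2 := 1073741824) (W2 := 536870912) (P3 := 1046898278) (W3 := 26843546) (N0 := 3)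
    rfl k0_mm_022

noncomputable def f_mm_023 : ℕ → ℕ → ℕ → ℕ → Bool := onCell 0 536870912 0 1230186008 1046898278 26843546
    (rowNX 3 0 false false false .up 0 2 3 (qsf 0 536870912 0 1230186008 2) ndN5q0 ndN6q3 pcN2 Cut.none Ext.none)

def k0_mm_023 : ∃ t, chk3 f_mm_023 t 1 1 1 = true :=
  ⟨(l 5), by decide +kernel⟩

theorem c_mm_023 : CertNX 0 536870912 0 1230186008 1046898278 26843546 3 false false false .up 0 2 3
    ndN5q0 ndN6q3 pcN2 Cut.none Ext.none :=
  certNX0 (fam := false) (s1 := false) (s2 := false) (a := 0) (b := 2) (c := 3) (cn := .up) (n1 := ndN5q0) (n2 := ndN6q3) (pc := pcN2) (cut := Cut.none) (xt := Ext.none) (P1 := 0) (W1 := 536870912) (P2 := 0) (W2 := 1230186008) (P3 := 1046898278) (W3 := 26843546) (N0 := 3)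
    rfl k0_mm_023

noncomputable def f_mm_033 : ℕ → ℕ → ℕ → ℕ → Bool := onCell 0 536870912 0 1230186008 1046898278 26843546
    (rowNX 3 0 false false false .pnn 0 3 3 (qsf 0 536870912 0 1230186008 3) ndN5q0 ndN6q3 pcN3 Cut.none Ext.none)

def k0_mm_033 : ∃ t, chk3 f_mm_033 t 1 1 1 = true :=
  ⟨(l 5), by decide +kernel⟩

theorem c_mm_033 : CertNX 0 536870912 0 1230186008 1046898278 26843546 3 false false false .pnn 0 3 3
    ndN5q0 ndN6q3 pcN3 Cut.none Ext.none :=
  certNX0 (fam := false) (s1 := false) (s2 := false) (a := 0) (b := 3) (c := 3) (cn := .pnn) (n1 := ndN5q0) (n2 := ndN6q3) (pc := pcN3) (cut := Cut.none) (xt := Ext.none) (P1 := 0) (W1 := 536870912) (P2 := 0) (W2 := 1230186008) (P3 := 1046898278) (W3 := 26843546) (N0 := 3)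
    rfl k0_mm_033

noncomputable def f_mm_101 : ℕ → ℕ → ℕ → ℕ → Bool := onCell 536870912 469762048 536870912 469762048 1046898278 26843546
    (rowNX 3 0 false false false .npn 1 0 1 (qsf 536870912 469762048 536870912 469762048 0) ndN5q1 ndN6q1 pcN0 Cut.none Ext.none)

def k0_mm_101 : ∃ t, chk3 f_mm_101 t 1 1 1 = true :=
  ⟨(l 3), by decide +kernel⟩

theorem c_mm_101 : CertNX 536870912 469762048 536870912 469762048 1046898278 26843546 3 false false false .npn 1 0 1
    ndN5q1 ndN6q1 pcN0 Cut.none Ext.none :=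
  certNX0 (fam := false) (s1 := false) (s2 := false) (a := 1) (b := 0) (c := 1) (cn := .npn) (n1 := ndN5q1) (n2 := ndN6q1) (pc := pcN0) (cut := Cut.none) (xt := Ext.none) (P1 := 536870912) (W1 := 469762048) (P2 := 536870912) (W2 := 469762048) (P3 := 1046898278) (W3 := 26843546) (N0 := 3)
    rfl k0_mm_101

noncomputable def f_mm_102 : ℕ → ℕ → ℕ → ℕ → Bool := onCell 536870912 469762048 1073741824 536870912 1046898278 26843546
    (rowNX 3 0 false false false .npp 1 0 2 (qsf 536870912 469762048 1073741824 536870912 0) ndN5q1 ndN6q2 pcN0 Cut.none Ext.none)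

def k0_mm_102 : ∃ t, chk3 f_mm_102 t 1 1 1 = true :=
  ⟨(l 5), by decide +kernel⟩

theorem c_mm_102 : CertNX 536870912 469762048 1073741824 536870912 1046898278 26843546 3 false false false .npp 1 0 2
    ndN5q1 ndN6q2 pcN0 Cut.none Ext.none :=
  certNX0 (fam := false) (s1 := false) (s2 := false) (a := 1) (b := 0) (c := 2) (cn := .npp) (n1 := ndN5q1) (n2 := ndN6q2) (pc := pcN0) (cut := Cut.none) (xt := Ext.none) (P1 := 536870912) (W1 := 469762048) (P2 := 1073741824) (W2 := 536870912) (P3 := 1046898278) (W3 := 26843546) (N0 := 3)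
    rfl k0_mm_102

noncomputable def f_mm_112 : ℕ → ℕ → ℕ → ℕ → Bool := onCell 536870912 469762048 1073741824 536870912 1046898278 26843546
    (rowNX 3 0 false false false .dn 1 1 2 (qsf 536870912 469762048 1073741824 536870912 1) ndN5q1 ndN6q2 pcN1 Cut.none Ext.none)

def k0_mm_112 : ∃ t, chk3 f_mm_112 t 1 1 1 = true :=
  ⟨(l 5), by decide +kernel⟩

theorem c_mm_112 : CertNX 536870912 469762048 1073741824 536870912 1046898278 26843546 3 false false false .dn 1 1 2
    ndN5q1 ndN6q2 pcN1 Cut.none Ext.none :=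
  certNX0 (fam := false) (s1 := false) (s2 := false) (a := 1) (b := 1) (c := 2) (cn := .dn) (n1 := ndN5q1) (n2 := ndN6q2) (pc := pcN1) (cut := Cut.none) (xt := Ext.none) (P1 := 536870912) (W1 := 469762048) (P2 := 1073741824) (W2 := 536870912) (P3 := 1046898278) (W3 := 26843546) (N0 := 3)
    rfl k0_mm_112

noncomputable def f_mm_113 : ℕ → ℕ → ℕ → ℕ → Bool := onCell 536870912 469762048 0 1230186008 1046898278 26843546
    (rowNX 3 0 false false false .nn 1 1 3 (qsf 536870912 469762048 0 1230186008 1) ndN5q1 ndN6q3 pcN1 Cut.none Ext.none)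

def k0_mm_113 : ∃ t, chk3 f_mm_113 t 1 1 1 = true :=
  ⟨(l 5), by decide +kernel⟩

theorem c_mm_113 : CertNX 536870912 469762048 0 1230186008 1046898278 26843546 3 false false false .nn 1 1 3
    ndN5q1 ndN6q3 pcN1 Cut.none Ext.none :=
  certNX0 (fam := false) (s1 := false) (s2 := false) (a := 1) (b := 1) (c := 3) (cn := .nn) (n1 := ndN5q1) (n2 := ndN6q3) (pc := pcN1) (cut := Cut.none) (xt := Ext.none) (P1 := 536870912) (W1 := 469762048) (P2 := 0) (W2 := 1230186008) (P3 := 1046898278) (W3 := 26843546) (N0 := 3)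
    rfl k0_mm_113

noncomputable def f_mm_123 : ℕ → ℕ → ℕ → ℕ → Bool := onCell 536870912 469762048 0 1230186008 1046898278 26843546
    (rowNX 3 0 false false false .npn 1 2 3 (qsf 536870912 469762048 0 1230186008 2) ndN5q1 ndN6q3 pcN2 Cut.none Ext.none)

def k0_mm_123 : ∃ t, chk3 f_mm_123 t 1 1 1 = true :=
  ⟨(l 5), by decide +kernel⟩

theorem c_mm_123 : CertNX 536870912 469762048 0 1230186008 1046898278 26843546 3 false false false .npn 1 2 3
    ndN5q1 ndN6q3 pcN2 Cut.none Ext.none :=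
  certNX0 (fam := false) (s1 := false) (s2 := false) (a := 1) (b := 2) (c := 3) (cn := .npn) (n1 := ndN5q1) (n2 := ndN6q3) (pc := pcN2) (cut := Cut.none) (xt := Ext.none) (P1 := 536870912) (W1 := 469762048) (P2 := 0) (W2 := 1230186008) (P3 := 1046898278) (W3 := 26843546) (N0 := 3)
    rfl k0_mm_123

noncomputable def f_mm_133 : ℕ → ℕ → ℕ → ℕ → Bool := onCell 536870912 469762048 0 1230186008 1046898278 26843546
    (rowNX 3 0 false false false .dn 1 3 3 (qsf 536870912 469762048 0 1230186008 3) ndN5q1 ndN6q3 pcN3 Cut.none Ext.none)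

def k0_mm_133 : ∃ t, chk3 f_mm_133 t 1 1 1 = true :=
  ⟨(l 5), by decide +kernel⟩

theorem c_mm_133 : CertNX 536870912 469762048 0 1230186008 1046898278 26843546 3 false false false .dn 1 3 3
    ndN5q1 ndN6q3 pcN3 Cut.none Ext.none :=
  certNX0 (fam := false) (s1 := false) (s2 := false) (a := 1) (b := 3) (c := 3) (cn := .dn) (n1 := ndN5q1) (n2 := ndN6q3) (pc := pcN3) (cut := Cut.none) (xt := Ext.none) (P1 := 536870912) (W1 := 469762048) (P2 := 0) (W2 := 1230186008) (P3 := 1046898278) (W3 := 26843546) (N0 := 3)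
    rfl k0_mm_133

noncomputable def f_mm_202 : ℕ → ℕ → ℕ → ℕ → Bool := onCell 1073741824 536870912 1073741824 536870912 1046898278 26843546
    (rowNX 3 0 false false false .pp 2 0 2 (qsf 1073741824 536870912 1073741824 536870912 0) ndN5q2 ndN6q2 pcN0 Cut.none Ext.none)

def k0_mm_202 : ∃ t, chk3 f_mm_202 t 1 1 1 = true :=
  ⟨(l 3), by decide +kernel⟩

theorem c_mm_202 : CertNX 1073741824 536870912 1073741824 536870912 1046898278 26843546 3 false false false .pp 2 0 2
    ndN5q2 ndN6q2 pcN0 Cut.none Ext.none :=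
  certNX0 (fam := false) (s1 := false) (s2 := false) (a := 2) (b := 0) (c := 2) (cn := .pp) (n1 := ndN5q2) (n2 := ndN6q2) (pc := pcN0) (cut := Cut.none) (xt := Ext.none) (P1 := 1073741824) (W1 := 536870912) (P2 := 1073741824) (W2 := 536870912) (P3 := 1046898278) (W3 := 26843546) (N0 := 3)
    rfl k0_mm_202

noncomputable def f_mm_203 : ℕ → ℕ → ℕ → ℕ → Bool := onCell 1073741824 536870912 0 1230186008 1046898278 26843546
    (rowNX 3 0 false false false .up 2 0 3 (qsf 1073741824 536870912 0 1230186008 0) ndN5q2 ndN6q3 pcN0 Cut.none Ext.none)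

def k0_mm_203 : ∃ t, chk3 f_mm_203 t 1 1 1 = true :=
  ⟨(b (l 5) (l 3)), by decide +kernel⟩

theorem c_mm_203 : CertNX 1073741824 536870912 0 1230186008 1046898278 26843546 3 false false false .up 2 0 3
    ndN5q2 ndN6q3 pcN0 Cut.none Ext.none :=
  certNX0 (fam := false) (s1 := false) (s2 := false) (a := 2) (b := 0) (c := 3) (cn := .up) (n1 := ndN5q2) (n2 := ndN6q3) (pc := pcN0) (cut := Cut.none) (xt := Ext.none) (P1 := 1073741824) (W1 := 536870912) (P2 := 0) (W2 := 1230186008) (P3 := 1046898278) (W3 := 26843546) (N0 := 3)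
    rfl k0_mm_203

noncomputable def f_mm_213 : ℕ → ℕ → ℕ → ℕ → Bool := onCell 1073741824 536870912 0 1230186008 1046898278 26843546
    (rowNX 3 0 false false false .pnn 2 1 3 (qsf 1073741824 536870912 0 1230186008 1) ndN5q2 ndN6q3 pcN1 Cut.none Ext.none)

def k0_mm_213 : ∃ t, chk3 f_mm_213 t 1 1 1 = true :=
  ⟨(b (l 5) (l 3)), by decide +kernel⟩

theorem c_mm_213 : CertNX 1073741824 536870912 0 1230186008 1046898278 26843546 3 false false false .pnn 2 1 3
    ndN5q2 ndN6q3 pcN1 Cut.none Ext.none :=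
  certNX0 (fam := false) (s1 := false) (s2 := false) (a := 2) (b := 1) (c := 3) (cn := .pnn) (n1 := ndN5q2) (n2 := ndN6q3) (pc := pcN1) (cut := Cut.none) (xt := Ext.none) (P1 := 1073741824) (W1 := 536870912) (P2 := 0) (W2 := 1230186008) (P3 := 1046898278) (W3 := 26843546) (N0 := 3)
    rfl k0_mm_213

noncomputable def f_mm_303 : ℕ → ℕ → ℕ → ℕ → Bool := onCell 0 1230186008 0 1230186008 1046898278 26843546
    (rowNX 3 0 false false false .npn 3 0 3 (qsf 0 1230186008 0 1230186008 0) ndN5q3 ndN6q3 pcN0 Cut.none Ext.none)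

def k0_mm_303 : ∃ t, chk3 f_mm_303 t 1 1 1 = true :=
  ⟨(a (b (l 3) (a (l 1) (l 3))) (b (l 3) (l 3))), by decide +kernel⟩

theorem c_mm_303 : CertNX 0 1230186008 0 1230186008 1046898278 26843546 3 false false false .npn 3 0 3
    ndN5q3 ndN6q3 pcN0 Cut.none Ext.none :=
  certNX0 (fam := false) (s1 := false) (s2 := false) (a := 3) (b := 0) (c := 3) (cn := .npn) (n1 := ndN5q3) (n2 := ndN6q3) (pc := pcN0) (cut := Cut.none) (xt := Ext.none) (P1 := 0) (W1 := 1230186008) (P2 := 0) (W2 := 1230186008) (P3 := 1046898278) (W3 := 26843546) (N0 := 3)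
    rfl k0_mm_303

noncomputable def f_mm_313 : ℕ → ℕ → ℕ → ℕ → Bool := onCell 0 1230186008 0 1230186008 1046898278 26843546
    (rowNX 3 0 false false false .dn 3 1 3 (qsf 0 1230186008 0 1230186008 1) ndN5q3 ndN6q3 pcN1 Cut.none Ext.none)

def k0_mm_313 : ∃ t, chk3 f_mm_313 t 1 1 1 = true :=
  ⟨(a (l 1) (b (l 3) (l 1))), by decide +kernel⟩

theorem c_mm_313 : CertNX 0 1230186008 0 1230186008 1046898278 26843546 3 false false false .dn 3 1 3
    ndN5q3 ndN6q3 pcN1 Cut.none Ext.none :=
  certNX0 (fam := false) (s1 := false) (s2 := false) (a := 3) (b := 1) (c := 3) (cn := .dn) (n1 := ndN5q3) (n2 := ndN6q3) (pc := pcN1) (cut := Cut.none) (xt := Ext.none) (P1 := 0) (W1 := 1230186008) (P2 := 0) (W2 := 1230186008) (P3 := 1046898278) (W3 := 26843546) (N0 := 3)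
    rfl k0_mm_313

end Pool.Agent.Strip051.G.IE1.Tab.C.NB56

namespace Pool.Agent.Strip051.G.IE1.Tab.C.NB57

open Pool.Agent.Strip051.PB Pool.Agent.Strip051.PB.T
open Pool.Agent.Strip051.G.IE1.Tab

noncomputable def f_pp_001 : ℕ → ℕ → ℕ → ℕ → Bool := onCell 0 536870912 0 536870912 1046898278 26843546
    (rowNX 3 1 false true true .up 0 0 1 (qsf 0 536870912 536870912 536870912 0) ndN5q0 ndN7q1 pcN0 Cut.none Ext.none)

def k0_pp_001 : ∃ t, chk3 f_pp_001 t 1 1 1 = true :=
  ⟨(l 3), by decide +kernel⟩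

theorem c_pp_001 : CertNX 0 536870912 536870912 536870912 1046898278 26843546 3 false true true .up 0 0 1
    ndN5q0 ndN7q1 pcN0 Cut.none Ext.none :=
  certNX1 (fam := false) (s1 := true) (s2 := true) (a := 0) (b := 0) (c := 1) (cn := .up) (n1 := ndN5q0) (n2 := ndN7q1) (pc := pcN0) (cut := Cut.none) (xt := Ext.none) (P1 := 0) (W1 := 536870912) (P2 := 536870912) (W2 := 536870912) (P3 := 1046898278) (W3 := 26843546) (N0 := 3)
    rfl (fun _ => rfl) k0_pp_001

noncomputable def f_pp_011 : ℕ → ℕ → ℕ → ℕ → Bool := onCell 0 536870912 536870912 536870912 1046898278 26843546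
    (rowNX 3 0 false true true .pnn 0 1 1 (qsf 0 536870912 536870912 536870912 1) ndN5q0 ndN7q1 pcN1 Cut.none Ext.none)

def k0_pp_011 : ∃ t, chk3 f_pp_011 t 1 1 1 = true :=
  ⟨(a (b (l 3) (l 3)) (l 3)), by decide +kernel⟩

theorem c_pp_011 : CertNX 0 536870912 536870912 536870912 1046898278 26843546 3 false true true .pnn 0 1 1
    ndN5q0 ndN7q1 pcN1 Cut.none Ext.none :=
  certNX0 (fam := false) (s1 := true) (s2 := true) (a := 0) (b := 1) (c := 1) (cn := .pnn) (n1 := ndN5q0) (n2 := ndN7q1) (pc := pcN1) (cut := Cut.none) (xt := Ext.none) (P1 := 0) (W1 := 536870912) (P2 := 536870912) (W2 := 536870912) (P3 := 1046898278) (W3 := 26843546) (N0 := 3)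
    rfl k0_pp_011

noncomputable def f_pp_012 : ℕ → ℕ → ℕ → ℕ → Bool := onCell 536870912 536870912 1073741824 536870912 1046898278 26843546
    (rowNX 3 2 false true true .pnp 0 1 2 (qsf 0 536870912 1073741824 536870912 1) ndN5q0 ndN7q2 pcN1 Cut.none Ext.none)

def k0_pp_012 : ∃ t, chk3 f_pp_012 t 1 1 1 = true :=
  ⟨(b (l 3) (l 3)), by decide +kernel⟩

theorem c_pp_012 : CertNX 0 536870912 1073741824 536870912 1046898278 26843546 3 false true true .pnp 0 1 2
    ndN5q0 ndN7q2 pcN1 Cut.none Ext.none :=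
  certNX2 (fam := false) (s1 := true) (s2 := true) (a := 0) (b := 1) (c := 2) (cn := .pnp) (n1 := ndN5q0) (n2 := ndN7q2) (pc := pcN1) (cut := Cut.none) (xt := Ext.none) (P1 := 0) (W1 := 536870912) (P2 := 1073741824) (W2 := 536870912) (P3 := 1046898278) (W3 := 26843546) (N0 := 3)
    rfl (fun _ => rfl) k0_pp_012

noncomputable def f_pp_022 : ℕ → ℕ → ℕ → ℕ → Bool := onCell 0 536870912 1073741824 536870912 1046898278 26843546
    (rowNX 3 1 false true true .pp 0 2 2 (qsf 0 536870912 1073741824 536870912 2) ndN5q0 ndN7q2 pcN2 Cut.none Ext.none)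

def k0_pp_022 : ∃ t, chk3 f_pp_022 t 1 4 1 = true :=
  ⟨(a (a (b (l 3) (a (b (b (l 3) (a (a (a (c (c (b (b (l 3) (l 15701744)) (l 15638184)) (l 15644704)) (b (a (c (l 15631440) (l 15602032)) (l 3)) (c (l 15565712) (a (l 15536544) (l 15536952))))) (b (l 3) (a (c (l 15591032) (l 15555808)) (l 3)))) (l 3)) (l 3))) (a (b (a (c (a (b (l 15495096) (l 15637096)) (b (c (l 15471168) (a (l 15575840) (l 15644200))) (c (l 15732824) (l 15725944)))) (a (b (c (a (l 15528520) (l 15529112)) (a (c (l 15504680) (l 15489688)) (l 15507472))) (c (a (l 15567040) (l 15609096)) (a (c (l 15544032) (l 15529576)) (l 15589120)))) (b (c (l 15588872) (l 15549232)) (c (l 15708160) (l 15671288))))) (b (a (c (l 15636440) (l 15661392)) (l 3)) (c (a (l 15870080) (l 15979704)) (l 15846120)))) (a (c (a (b (l 15723944) (l 15837728)) (b (c (l 15858608) (l 15812104)) (c (l 15964224) (l 15919696)))) (a (c (a (l 15719880) (b (l 15734712) (l 15831288))) (a (l 15463176) (b (l 15717240) (l 15815832)))) (c (b (l 15838840)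 (l 15948680)) (b (l 15804968) (l 15917456))))) (c (b (a (l 15978184) (l 16107304)) (a (c (l 16133912) (l 16112296)) (l 16231304))) (b (l 15878280) (c (l 16116224) (l 16096112)))))) (b (l 3) (a (c (b (l 16180960) (l 16241248)) (b (l 16175944) (l 16305112))) (b (l 3) (c (l 16453696) (l 16440952))))))) (l 3))) (l 3)) (b (l 3) (a (b (l 3) (b (l 3) (c (l 1641919006391) (l 1609706751495)))) (a (b (l 3) (b (b (l 994452762503) (l 968146090247)) (a (b (l 16774376) (l 16764792)) (l 2)))) (b (b (l 842516982519) (l 2)) (l 2)))))), by decide +kernel⟩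

def k1_pp_022 : ∃ t, chk3 f_pp_022 t 4 40 1 = true :=
  ⟨(a (a (a (c (a (l 15939888) (a (l 16007720) (l 15977960))) (a (c (a (l 15870128) (l 15938192)) (c (l 15659424) (l 15711424))) (c (l 16058376) (l 16030160)))) (c (b (a (l 16207784) (l 16172128)) (a (l 16266656) (l 16402424))) (b (a (l 16151024) (l 16170976)) (l 16279672)))) (b (c (a (c (l 16461808) (l 16426592)) (l 16521120)) (a (l 16325888) (l 16517232))) (c (a (b (l 16469760) (l 16434792)) (c (l 16424624) (l 16436016))) (a (b (l 16473848) (l 16472984)) (l 16432120))))) (a (c (c (b (l 16474288) (l 16543840)) (l 16318360)) (b (l 16466232) (l 16330176))) (l 3))), by decide +kernel⟩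

def k2_pp_022 : ∃ t, chk3 f_pp_022 t 8 41 1 = true :=
  ⟨(c (b (a (a (a (l 16014920) (a (l 16102824) (l 16176720))) (a (l 16303880) (l 16415344))) (a (l 16418688) (b (l 16364320) (b (l 16345064) (l 16344480))))) (b (a (a (a (l 16048648) (a (l 16133432) (l 16204976))) (l 16226056)) (l 16328160)) (a (a (b (a (l 16086352) (a (l 16166328) (l 16233000))) (a (b (b (b (l 16104312) (l 15994400)) (l 16127208)) (l 16141720)) (a (c (l 16089560) (l 16186232)) (c (l 16255208) (l 16271568))))) (b (l 16294624) (c (l 16130304) (l 16357448)))) (b (l 16346352) (a (l 16392208) (l 16344896)))))) (b (a (a (a (c (l 15984656) (a (l 15928568) (l 16004864))) (c (l 16134344) (l 16108576))) (l 16304480)) (a (l 16456696) (b (l 16365904) (l 16345248)))) (a (a (a (b (c (l 16019904) (a (l 15966016) (l 16039888))) (b (c (l 15996056) (a (l 15967152) (l 16077968))) (b (b (c (b (l 16077560) (a (l 16068904) (l 16044992))) (b (l 15934968) (a (b (l 16039168) (l 16015208)) (l 16098768)))) (c (l 16101176) (l 15959080)))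 (c (l 16116176) (l 15953432))))) (b (l 16157552) (b (l 16189208) (b (c (a (l 16083976) (l 16224568)) (l 16129296)) (l 16219248))))) (b (l 16306688) (b (l 16313144) (l 16279688)))) (b (l 16391928) (b (l 16389296) (l 16340544)))))), by decide +kernel⟩

def k3_pp_022 : ∃ t, chk3 f_pp_022 t 9 41 1 = true :=
  ⟨(b (a (c (b (l 16345784) (a (l 16403072) (l 16584448))) (b (l 16404992) (a (l 16353136) (l 16582680)))) (c (b (l 16544376) (l 16579872)) (b (l 16538504) (l 16575600)))) (b (b (a (a (a (l 16343160) (l 16350192)) (l 16530680)) (c (l 16606192) (l 16603144))) (a (a (l 16380968) (c (l 16538296) (l 16534776))) (c (l 16623504) (l 16621280)))) (b (c (a (b (l 16395400) (l 16467888)) (b (l 16633136) (l 16634272))) (a (b (l 16410048) (l 16462112)) (b (l 16631392) (l 16569736)))) (a (a (l 16330424) (l 16547416)) (b (b (a (b (l 16588200) (l 16572096)) (b (l 16624584) (b (l 16624656) (c (l 16627272) (l 16625088))))) (l 16624464)) (l 16632176)))))), by decide +kernel⟩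

def k4_pp_022 : ∃ t, chk3 f_pp_022 t 4 21 1 = true :=
  ⟨(c (a (a (a (a (b (l 16293352) (l 16158056)) (a (l 16124624) (l 16093440))) (a (l 16020448) (l 16142528))) (a (l 16129720) (l 16104128))) (a (l 16113720) (l 16466160))) (a (a (a (a (c (b (l 16063408) (l 16172168)) (b (a (l 16074680) (l 16280368)) (l 15927768))) (c (l 16201064) (l 16286104))) (l 16155088)) (l 15974160)) (a (l 16162720) (l 16457792)))), by decide +kernel⟩

def k5_pp_022 : ∃ t, chk3 f_pp_022 t 4 11 1 = true :=
  ⟨(a (a (a (c (b (a (l 15753016) (c (l 15757320) (l 15731960))) (a (l 15321576) (l 15324504))) (a (b (c (l 15692688) (a (l 15678384) (l 15744536))) (c (l 15311480) (l 15239384))) (b (l 15529944) (l 15284528)))) (c (b (l 15466688) (l 15278920)) (b (l 15701840) (l 15288416)))) (c (b (a (l 15671272) (l 15681840)) (l 15183312)) (b (l 15663392) (l 15289216)))) (a (b (a (l 15625776) (l 15978840)) (a (l 15442048) (l 15700792))) (b (a (l 16149400) (l 16172520)) (l 16010656)))), by decide +kernel⟩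

def k6_pp_022 : ∃ t, chk3 f_pp_022 t 5 5 1 = true :=
  ⟨(b (b (b (l 3) (b (a (l 3) (l 3)) (b (a (a (b (l 16613880) (l 16594392)) (l 3)) (a (l 3) (a (l 16776920) (l 16777192)))) (b (a (a (b (l 16579848) (l 16528232)) (a (l 16512640) (l 3))) (c (a (l 8596544416183) (l 16777064)) (a (l 8519234995223) (l 16777056)))) (b (b (b (a (a (l 16564144) (l 16516600)) (a (l 16675624) (l 16777072))) (b (a (a (l 16562344) (l 16515632)) (a (l 16675624) (l 16777072))) (a (a (a (l 16579920) (l 16543872)) (l 16515088)) (a (l 16675624) (l 16777072))))) (a (l 16449984) (l 16726952))) (a (l 16424352) (l 16726928))))))) (a (a (l 16375968) (l 16494760)) (a (l 16675624) (l 16769456)))) (b (a (a (l 16282544) (l 16481336)) (a (l 16675200) (l 16769152))) (a (a (l 16269136) (l 16481336)) (l 16726944)))), by decide +kernel⟩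

def k7_pp_022 : ∃ t, chk3 f_pp_022 t 3 5 1 = true :=
  ⟨(b (b (b (a (a (c (l 1937734885047) (l 1945251077415)) (a (c (l 16776072) (l 16776024)) (b (l 16770160) (a (l 16762640) (l 16739056))))) (a (b (a (l 16738008) (l 2)) (l 2)) (l 2))) (a (b (c (a (b (l 16776696) (l 16772968)) (b (l 16728416) (l 16690840))) (a (b (l 16776680) (l 16772824)) (b (l 16726704) (l 16687808)))) (b (a (c (a (l 16777088) (l 16754784)) (a (l 16777088) (l 16754000))) (b (l 16638592) (l 16606136))) (a (b (c (a (l 16765096) (l 16720032)) (a (l 16764672) (l 16718024))) (a (c (c (l 16752696) (l 16752264)) (c (l 16751832) (l 16751392))) (l 16675320))) (b (l 16574072) (l 16551880))))) (l 2))) (a (a (l 16702448) (l 16599400)) (l 2))) (a (a (b (l 16738888) (l 16777144)) (b (l 16718880) (l 2))) (l 2))), by decide +kernel⟩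

def k8_pp_022 : ∃ t, chk3 f_pp_022 t 1 3 1 = true :=
  ⟨(a (a (a (b (a (b (a (c (a (l 14826896) (c (l 14864144) (l 14820520))) (a (c (l 14801352) (a (l 14782840) (l 14777400))) (c (l 14790128) (l 14783264)))) (c (b (l 14959240) (l 14695480)) (b (l 14955344) (l 14679872)))) (a (c (a (l 14456368) (l 14535936)) (a (c (l 14418128) (l 14389872)) (l 14461616))) (c (l 14614280) (l 14594904)))) (b (c (b (a (l 14992992) (l 15069920)) (l 14752560)) (b (l 14999528) (l 14861816))) (c (l 14739528) (l 14848176)))) (a (c (a (b (l 14483176) (l 14483176)) (b (l 14614280) (l 14614280))) (a (b (a (l 14389800) (l 14459288)) (l 14428624)) (l 14594904))) (b (c (l 14886328) (l 14848176)) (l 14863840)))) (b (a (b (a (c (l 15277536) (l 15224416)) (l 15617384)) (c (l 15452792) (l 15405624))) (b (b (l 16018240) (l 16018240)) (l 16018240))) (a (b (l 15346856) (l 15430744)) (b (l 16018240) (l 2))))) (b (a (b (a (l 16269136) (l 16481336)) (a (l 16269136) (l 16481336))) (b (l 16726952) (a (l 16675624)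 (l 2)))) (a (b (l 16250296) (l 2)) (l 2)))) (a (a (b (b (l 16777216) (l 2)) (l 2)) (l 2)) (l 2))), by decide +kernel⟩

theorem s9_pp_022 : ∃ t, chk3 f_pp_022 t 4 41 1 = true := ex3_a k2_pp_022 k3_pp_022

theorem s10_pp_022 : ∃ t, chk3 f_pp_022 t 4 20 1 = true := ex3_b k1_pp_022 s9_pp_022

theorem s11_pp_022 : ∃ t, chk3 f_pp_022 t 4 10 1 = true := ex3_b s10_pp_022 k4_pp_022

theorem s12_pp_022 : ∃ t, chk3 f_pp_022 t 4 5 1 = true := ex3_b s11_pp_022 k5_pp_022

theorem s13_pp_022 : ∃ t, chk3 f_pp_022 t 2 5 1 = true := ex3_a s12_pp_022 k6_pp_022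

theorem s14_pp_022 : ∃ t, chk3 f_pp_022 t 1 5 1 = true := ex3_a s13_pp_022 k7_pp_022

theorem s15_pp_022 : ∃ t, chk3 f_pp_022 t 1 2 1 = true := ex3_b k0_pp_022 s14_pp_022

theorem s16_pp_022 : ∃ t, chk3 f_pp_022 t 1 1 1 = true := ex3_b s15_pp_022 k8_pp_022

theorem c_pp_022 : CertNX 0 536870912 1073741824 536870912 1046898278 26843546 3 false true true .pp 0 2 2
    ndN5q0 ndN7q2 pcN2 Cut.none Ext.none :=
  certNX1 (fam := false) (s1 := true) (s2 := true) (a := 0) (b := 2) (c := 2) (cn := .pp) (n1 := ndN5q0) (n2 := ndN7q2) (pc := pcN2) (cut := Cut.none) (xt := Ext.none) (P1 := 0) (W1 := 536870912) (P2 := 1073741824) (W2 := 536870912) (P3 := 1046898278) (W3 := 26843546) (N0 := 3)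
    rfl (fun _ => rfl) s16_pp_022

noncomputable def f_pp_023 : ℕ → ℕ → ℕ → ℕ → Bool := onCell 1073741824 536870912 0 1230186008 1046898278 26843546
    (rowNX 3 2 false true true .up 0 2 3 (qsf 0 536870912 0 1230186008 2) ndN5q0 ndN7q3 pcN2 Cut.none Ext.none)

def k0_pp_023 : ∃ t, chk3 f_pp_023 t 1 1 1 = true :=
  ⟨(a (b (l 2) (a (b (l 2) (b (l 2) (b (a (l 2) (b (a (l 2) (a (l 16762632) (l 16691808))) (a (a (l 16230576) (l 16590272)) (a (l 16751456) (l 16630032))))) (a (l 3) (a (a (l 857549368055) (c (l 16593512) (l 16587048))) (a (c (l 873656899079) (l 860771999159)) (c (l 16828248) (l 413021627991)))))))) (a (b (l 2) (b (b (a (l 2) (c (b (l 2) (l 16084408)) (l 15875488))) (a (b (l 2) (a (l 16547696) (a (l 16468032) (l 16440224)))) (b (c (l 16300960) (l 16331672)) (l 16525336)))) (a (a (b (b (l 16724552) (l 16534856)) (b (l 16586920) (c (l 16715032) (l 16712856)))) (a (b (l 16649896) (b (l 16474424) (l 16603992))) (b (a (l 16717664) (l 16758128)) (a (l 16499608) (b (a (l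 16469088) (l 16510304)) (l 16597480)))))) (b (l 16750944) (l 16590216))))) (b (a (l 2) (l 131634392167)) (b (a (b (c (l 16521120) (l 16488480)) (b (c (l 16594096) (l 16633112)) (l 16700760))) (l 16798000)) (b (l 16773808) (b (l 16743840) (l 16749632)))))))) (a (b (l 2) (b (b (l 16777216) (l 16777216)) (b (c (l 16777216) (l 16777216)) (b (l 16767160) (a (l 16754112) (l 16544608)))))) (b (a (b (l 2) (l 16766408)) (b (l 16637376) (l 16766408))) (b (l 16777216) (b (b (l 16759232) (a (l 16760088) (l 16551520))) (b (a (l 16561296) (b (l 16309136) (l 15947536))) (a (b (l 16296136) (a (l 16145008) (b (l 15929864) (l 15612024)))) (b (a (l 15811784) (b (l 15420048) (l 14898360))) (a (b (l 15277192) (a (l 15127152) (l 14870152))) (b (c (l 14825736) (l 14779512)) (c (a (l 14717112) (l 14567848)) (l 14602872)))))))))))), by decide +kernel⟩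

theorem c_pp_023 : CertNX 0 536870912 0 1230186008 1046898278 26843546 3 false true true .up 0 2 3
    ndN5q0 ndN7q3 pcN2 Cut.none Ext.none :=
  certNX2 (fam := false) (s1 := true) (s2 := true) (a := 0) (b := 2) (c := 3) (cn := .up) (n1 := ndN5q0) (n2 := ndN7q3) (pc := pcN2) (cut := Cut.none) (xt := Ext.none) (P1 := 0) (W1 := 536870912) (P2 := 0) (W2 := 1230186008) (P3 := 1046898278) (W3 := 26843546) (N0 := 3)
    rfl (fun _ => rfl) k0_pp_023

noncomputable def f_pp_033 : ℕ → ℕ → ℕ → ℕ → Bool := onCell 0 536870912 0 1230186008 1046898278 26843546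
    (rowNX 3 0 false true true .pnn 0 3 3 (qsf 0 536870912 0 1230186008 3) ndN5q0 ndN7q3 pcN3 Cut.none Ext.none)

def k0_pp_033 : ∃ t, chk3 f_pp_033 t 1 1 1 = true :=
  ⟨(b (b (a (l 4) (a (l 4) (b (l 4) (l 16657680)))) (b (a (a (l 4) (a (l 4) (l 16648144))) (a (c (l 16759192) (l 16758560)) (l 16758880))) (a (a (a (b (l 4) (a (a (c (l 14482128) (l 14427080)) (l 14586392)) (l 14863832))) (a (c (l 15452792) (l 15405624)) (l 16018240))) (a (c (l 16383024) (l 16369192)) (l 16580152))) (a (a (l 16777216) (l 16777216)) (l 16777216))))) (b (a (a (a (b (a (b (a (c (l 14483152) (l 14428592)) (l 14586368)) (c (l 14556624) (l 14507904))) (b (l 14863824) (l 14863832))) (a (a (c (l 14483160) (b (l 14428608) (l 14428624))) (l 14334728)) (l 14863832))) (b (b (a (l 15430744) (l 16018240)) (l 15579496)) (a (l 15430744) (l 16018240)))) (b (b (a (l 16376120) (l 16726952)) (l 16535024)) (a (l 16376120) (l 16726952)))) (b (b (l 16777216) (l 16777216)) (l 16777216))) (a (a (a (b (a (c (a (l 14483176)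 (l 14614280)) (a (l 14197936) (l 14594904))) (b (l 14863840) (l 14863840))) (a (c (b (l 14430832) (a (l 14483176) (l 14614280))) (b (l 14486976) (l 14256288))) (b (l 14863840) (l 14863840)))) (b (a (b (l 15430744) (l 15430744)) (l 16018240)) (a (b (l 15430744) (l 15430744)) (l 15892408)))) (b (a (l 16376120) (l 16726952)) (b (l 16388224) (l 1)))) (l 1)))), by decide +kernel⟩

theorem c_pp_033 : CertNX 0 536870912 0 1230186008 1046898278 26843546 3 false true true .pnn 0 3 3
    ndN5q0 ndN7q3 pcN3 Cut.none Ext.none :=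
  certNX0 (fam := false) (s1 := true) (s2 := true) (a := 0) (b := 3) (c := 3) (cn := .pnn) (n1 := ndN5q0) (n2 := ndN7q3) (pc := pcN3) (cut := Cut.none) (xt := Ext.none) (P1 := 0) (W1 := 536870912) (P2 := 0) (W2 := 1230186008) (P3 := 1046898278) (W3 := 26843546) (N0 := 3)
    rfl k0_pp_033

noncomputable def f_pp_101 : ℕ → ℕ → ℕ → ℕ → Bool := onCell 536870912 469762048 536870912 536870912 1046898278 26843546
    (rowNX 3 0 false true true .npn 1 0 1 (qsf 536870912 469762048 536870912 536870912 0) ndN5q1 ndN7q1 pcN0 Cut.none Ext.none)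

def k0_pp_101 : ∃ t, chk3 f_pp_101 t 1 1 1 = true :=
  ⟨(l 3), by decide +kernel⟩

theorem c_pp_101 : CertNX 536870912 469762048 536870912 536870912 1046898278 26843546 3 false true true .npn 1 0 1
    ndN5q1 ndN7q1 pcN0 Cut.none Ext.none :=
  certNX0 (fam := false) (s1 := true) (s2 := true) (a := 1) (b := 0) (c := 1) (cn := .npn) (n1 := ndN5q1) (n2 := ndN7q1) (pc := pcN0) (cut := Cut.none) (xt := Ext.none) (P1 := 536870912) (W1 := 469762048) (P2 := 536870912) (W2 := 536870912) (P3 := 1046898278) (W3 := 26843546) (N0 := 3)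
    rfl k0_pp_101

noncomputable def f_pp_102 : ℕ → ℕ → ℕ → ℕ → Bool := onCell 536870912 469762048 1073741824 536870912 1046898278 26843546
    (rowNX 3 0 false true true .npp 1 0 2 (qsf 536870912 469762048 1073741824 536870912 0) ndN5q1 ndN7q2 pcN0 Cut.none Ext.none)

def k0_pp_102 : ∃ t, chk3 f_pp_102 t 1 1 1 = true :=
  ⟨(l 3), by decide +kernel⟩

theorem c_pp_102 : CertNX 536870912 469762048 1073741824 536870912 1046898278 26843546 3 false true true .npp 1 0 2
    ndN5q1 ndN7q2 pcN0 Cut.none Ext.none :=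
  certNX0 (fam := false) (s1 := true) (s2 := true) (a := 1) (b := 0) (c := 2) (cn := .npp) (n1 := ndN5q1) (n2 := ndN7q2) (pc := pcN0) (cut := Cut.none) (xt := Ext.none) (P1 := 536870912) (W1 := 469762048) (P2 := 1073741824) (W2 := 536870912) (P3 := 1046898278) (W3 := 26843546) (N0 := 3)
    rfl k0_pp_102

noncomputable def f_pp_112 : ℕ → ℕ → ℕ → ℕ → Bool := onCell 536870912 469762048 1073741824 536870912 1046898278 26843546
    (rowNX 3 0 false true true .dn 1 1 2 (qsf 536870912 469762048 1073741824 536870912 1) ndN5q1 ndN7q2 pcN1 Cut.none Ext.none)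

def k0_pp_112 : ∃ t, chk3 f_pp_112 t 1 1 1 = true :=
  ⟨(l 3), by decide +kernel⟩

theorem c_pp_112 : CertNX 536870912 469762048 1073741824 536870912 1046898278 26843546 3 false true true .dn 1 1 2
    ndN5q1 ndN7q2 pcN1 Cut.none Ext.none :=
  certNX0 (fam := false) (s1 := true) (s2 := true) (a := 1) (b := 1) (c := 2) (cn := .dn) (n1 := ndN5q1) (n2 := ndN7q2) (pc := pcN1) (cut := Cut.none) (xt := Ext.none) (P1 := 536870912) (W1 := 469762048) (P2 := 1073741824) (W2 := 536870912) (P3 := 1046898278) (W3 := 26843546) (N0 := 3)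
    rfl k0_pp_112

noncomputable def f_pp_113 : ℕ → ℕ → ℕ → ℕ → Bool := onCell 536870912 536870912 0 1230186008 1046898278 26843546
    (rowNX 3 2 false true true .nn 1 1 3 (qsf 536870912 469762048 0 1230186008 1) ndN5q1 ndN7q3 pcN1 Cut.none Ext.none)

def k0_pp_113 : ∃ t, chk3 f_pp_113 t 1 1 1 = true :=
  ⟨(b (a (l 2) (a (l 2) (b (l 2) (a (l 2) (b (a (l 2) (b (l 2) (c (l 13335520) (l 11928168)))) (b (a (l 2) (c (l 13157504) (l 12165616))) (a (a (l 12628056) (l 12726200)) (b (l 12581568) (l 12481248))))))))) (a (b (l 2) (l 3)) (b (a (b (l 2) (a (b (l 2) (b (l 2) (l 3))) (b (a (b (l 2) (c (l 521395419143) (l 13255712))) (b (a (l 2) (l 13552624)) (a (l 13545808) (l 13577568)))) (a (b (c (a (l 13644040) (l 13768736)) (l 13587600)) (l 3)) (b (a (l 13608080) (l 13484384)) (a (l 13616128) (l 13912656))))))) (a (b (b (a (l 2) (b (l 301276683559) (l 12763608))) (a (b (c (l 13143352) (l 12974744)) (c (l 13378232) (l 13202960))) (b (l 12995328) (l 12964800)))) (b (a (b (a (l 13439144)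 (l 13140968)) (l 13207064)) (b (l 12951288) (l 13680968))) (a (b (l 13592464) (l 14395320)) (b (l 14314664) (l 14966360))))) (b (b (a (b (l 12748344) (l 12681648)) (l 12702792)) (a (b (l 12785456) (l 13155864)) (l 13475760))) (a (b (a (l 13839224) (b (l 13841824) (l 14386808))) (a (l 15005280) (l 15164304))) (b (b (l 14222080) (a (c (l 14725240) (l 14560904)) (a (c (l 14877232) (l 14748360)) (l 14914560)))) (a (c (a (l 15327488) (l 15352456)) (l 15249632)) (c (l 15326496) (a (l 15295600) (l 15274472))))))))) (b (a (l 3) (a (b (b (a (l 15094696) (l 15616768)) (l 469390585479)) (l 3)) (a (b (a (l 15804152) (l 15610960)) (l 15693528)) (a (c (b (l 15519728) (l 15524528)) (l 15482744)) (c (l 15427632) (b (l 15363352) (l 15389448))))))) (l 3))))), by decide +kernel⟩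

theorem c_pp_113 : CertNX 536870912 469762048 0 1230186008 1046898278 26843546 3 false true true .nn 1 1 3
    ndN5q1 ndN7q3 pcN1 Cut.none Ext.none :=
  certNX2 (fam := false) (s1 := true) (s2 := true) (a := 1) (b := 1) (c := 3) (cn := .nn) (n1 := ndN5q1) (n2 := ndN7q3) (pc := pcN1) (cut := Cut.none) (xt := Ext.none) (P1 := 536870912) (W1 := 469762048) (P2 := 0) (W2 := 1230186008) (P3 := 1046898278) (W3 := 26843546) (N0 := 3)
    rfl (fun _ => rfl) k0_pp_113

noncomputable def f_pp_123 : ℕ → ℕ → ℕ → ℕ → Bool := onCell 1073741824 536870912 0 1230186008 1046898278 26843546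
    (rowNX 3 2 false true true .npn 1 2 3 (qsf 536870912 469762048 0 1230186008 2) ndN5q1 ndN7q3 pcN2 Cut.none Ext.none)

def k0_pp_123 : ∃ t, chk3 f_pp_123 t 1 2 1 = true :=
  ⟨(a (a (b (a (a (l 2) (b (c (a (l 2) (l 16316832)) (l 16211744)) (c (b (l 16114536) (l 15653544)) (l 15578992)))) (b (a (c (b (l 16556688) (l 16686952)) (l 16565256)) (l 16766160)) (a (a (l 16131576) (l 16340440)) (l 16274008)))) (a (b (b (a (c (l 14486224) (l 13477112)) (c (l 15176800) (l 14901976))) (a (a (l 13206456) (l 13874800)) (c (l 14802080) (l 14533424)))) (a (b (a (l 12914192) (l 13517224)) (a (l 12836752) (l 13557976))) (b (l 14410816) (l 14369584)))) (b (a (b (l 15690648) (l 15349640)) (l 15416088)) (a (l 14944328) (l 14839968))))) (b (a (b (a (l 16488216) (l 16190848)) (a (l 16052296) (l 15952592))) (b (a (l 15767392) (l 15758864)) (l 15910184))) (a (b (a (l 15188040) (l 15554784)) (a (a (l 14606256) (l 14783160)) (l 15464848))) (b (l 16275424) (a (l 16318440) (l 16742480)))))) (b (a (a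 (b (l 16260376) (l 16316544)) (l 16840656)) (b (l 4) (l 16657680))) (a (b (l 16675096) (l 16761160)) (b (l 16758880) (l 16777216))))), by decide +kernel⟩

def k1_pp_123 : ∃ t, chk3 f_pp_123 t 1 6 1 = true :=
  ⟨(a (a (b (a (b (a (l 13717568) (l 14559288)) (a (l 14456064) (l 14916288))) (b (l 14779072) (l 14785760))) (b (a (a (l 15238808) (l 15184776)) (l 14782672)) (b (l 15094248) (a (b (l 15497704) (a (c (l 15739280) (l 15701136)) (l 15339600))) (a (b (l 14945136) (l 15016712)) (c (l 14724264) (l 14650936))))))) (a (b (a (l 14586120) (l 15427880)) (b (l 14867360) (b (l 14802632) (a (a (l 14429664) (c (l 14712160) (l 14638616))) (c (l 15441088) (l 15393472)))))) (a (b (l 16327944) (b (l 16315376) (b (l 16308880) (l 16326936)))) (l 16902504)))) (b (l 16777216) (a (l 16777216) (l 1)))), by decide +kernel⟩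

def k2_pp_123 : ∃ t, chk3 f_pp_123 t 1 7 1 = true :=
  ⟨(a (a (b (a (c (a (a (b (l 15642608) (b (l 15597248) (l 15433344))) (a (c (l 15625968) (l 15594248)) (l 15664416))) (b (b (l 15445664) (l 15582600)) (b (l 15638384) (a (l 15739056) (l 15891640))))) (a (b (l 15625920) (a (b (l 15510192) (a (c (l 15420848) (l 15386976)) (l 15464720))) (l 15567328))) (b (l 15444440) (b (l 15605072) (l 15773840))))) (a (b (b (l 15274752) (c (l 15725968) (l 15597608))) (a (c (b (l 15762944) (l 15975688)) (l 15928344)) (c (b (l 16164088) (l 16308624)) (b (l 16173296) (l 16331760))))) (b (c (b (l 15194280) (b (l 15609272) (a (l 16096352) (l 15993464)))) (l 15428584)) (b (a (c (b (l 16200312) (l 16472072)) (a (l 16405104) (l 16412640))) (c (l 16274064) (l 16321680))) (l 16653968))))) (b (a (a (a (l 3) (c (a (c (l 15612520) (l 15568808)) (l 15481584)) (l 15570632))) (a (c (l 15806848) (l 15763888)) (c (l 651927343527) (l 16002760)))) (a (a (c (l 16278432) (l 16260864)) (c (l 16562000) (l 16554424)))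 (a (b (l 16762632) (l 16751456)) (l 828962520983)))) (a (l 3) (a (a (l 877413591799) (l 1)) (l 1))))) (b (b (a (a (b (a (l 14975904) (l 15112256)) (c (a (l 15711288) (b (l 15508824) (l 15853224))) (l 15572304))) (c (b (l 15721088) (l 16084408)) (l 15875488))) (a (c (l 16521120) (l 16488480)) (l 16776872))) (a (a (a (b (c (l 16149744) (l 16202760)) (l 16547696)) (a (b (c (l 16078136) (l 16127176)) (l 16468032)) (b (b (l 15967568) (a (l 16131736) (l 16181496))) (l 16440224)))) (b (c (l 16300960) (l 16331672)) (l 16525336))) (l 1))) (a (a (a (b (b (l 16724552) (l 1)) (l 1)) (l 1)) (l 1)) (l 1)))) (l 1)), by decide +kernel⟩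

theorem s3_pp_123 : ∃ t, chk3 f_pp_123 t 1 3 1 = true := ex3_b k1_pp_123 k2_pp_123

theorem s4_pp_123 : ∃ t, chk3 f_pp_123 t 1 1 1 = true := ex3_b k0_pp_123 s3_pp_123

theorem c_pp_123 : CertNX 536870912 469762048 0 1230186008 1046898278 26843546 3 false true true .npn 1 2 3
    ndN5q1 ndN7q3 pcN2 Cut.none Ext.none :=
  certNX2 (fam := false) (s1 := true) (s2 := true) (a := 1) (b := 2) (c := 3) (cn := .npn) (n1 := ndN5q1) (n2 := ndN7q3) (pc := pcN2) (cut := Cut.none) (xt := Ext.none) (P1 := 536870912) (W1 := 469762048) (P2 := 0) (W2 := 1230186008) (P3 := 1046898278) (W3 := 26843546) (N0 := 3)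
    rfl (fun _ => rfl) s4_pp_123

noncomputable def f_pp_133 : ℕ → ℕ → ℕ → ℕ → Bool := onCell 1610612736 536870912 0 1230186008 1046898278 26843546
    (rowNX 3 2 false true true .dn 1 3 3 (qsf 536870912 469762048 0 1230186008 3) ndN5q1 ndN7q3 pcN3 Cut.none Ext.none)

def k0_pp_133 : ∃ t, chk3 f_pp_133 t 1 1 1 = true :=
  ⟨(b (b (b (l 4) (l 1)) (l 1)) (l 1)), by decide +kernel⟩

theorem c_pp_133 : CertNX 536870912 469762048 0 1230186008 1046898278 26843546 3 false true true .dn 1 3 3
    ndN5q1 ndN7q3 pcN3 Cut.none Ext.none :=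
  certNX2 (fam := false) (s1 := true) (s2 := true) (a := 1) (b := 3) (c := 3) (cn := .dn) (n1 := ndN5q1) (n2 := ndN7q3) (pc := pcN3) (cut := Cut.none) (xt := Ext.none) (P1 := 536870912) (W1 := 469762048) (P2 := 0) (W2 := 1230186008) (P3 := 1046898278) (W3 := 26843546) (N0 := 3)
    rfl (fun _ => rfl) k0_pp_133

noncomputable def f_pp_202 : ℕ → ℕ → ℕ → ℕ → Bool := onCell 1073741824 536870912 1073741824 536870912 1046898278 26843546
    (rowNX 3 0 false true true .pp 2 0 2 (qsf 1073741824 536870912 1073741824 536870912 0) ndN5q2 ndN7q2 pcN0 Cut.none Ext.none)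

def k0_pp_202 : ∃ t, chk3 f_pp_202 t 1 1 1 = true :=
  ⟨(l 5), by decide +kernel⟩

theorem c_pp_202 : CertNX 1073741824 536870912 1073741824 536870912 1046898278 26843546 3 false true true .pp 2 0 2
    ndN5q2 ndN7q2 pcN0 Cut.none Ext.none :=
  certNX0 (fam := false) (s1 := true) (s2 := true) (a := 2) (b := 0) (c := 2) (cn := .pp) (n1 := ndN5q2) (n2 := ndN7q2) (pc := pcN0) (cut := Cut.none) (xt := Ext.none) (P1 := 1073741824) (W1 := 536870912) (P2 := 1073741824) (W2 := 536870912) (P3 := 1046898278) (W3 := 26843546) (N0 := 3)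
    rfl k0_pp_202

noncomputable def f_pp_203 : ℕ → ℕ → ℕ → ℕ → Bool := onCell 0 536870912 0 1230186008 1046898278 26843546
    (rowNX 3 2 false true true .up 2 0 3 (qsf 1073741824 536870912 0 1230186008 0) ndN5q2 ndN7q3 pcN0 Cut.none Ext.none)

def k0_pp_203 : ∃ t, chk3 f_pp_203 t 1 1 1 = true :=
  ⟨(b (l 3) (l 3)), by decide +kernel⟩

theorem c_pp_203 : CertNX 1073741824 536870912 0 1230186008 1046898278 26843546 3 false true true .up 2 0 3
    ndN5q2 ndN7q3 pcN0 Cut.none Ext.none :=
  certNX2 (fam := false) (s1 := true) (s2 := true) (a := 2) (b := 0) (c := 3) (cn := .up) (n1 := ndN5q2) (n2 := ndN7q3) (pc := pcN0) (cut := Cut.none) (xt := Ext.none) (P1 := 1073741824) (W1 := 536870912) (P2 := 0) (W2 := 1230186008) (P3 := 1046898278) (W3 := 26843546) (N0 := 3)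
    rfl (fun _ => rfl) k0_pp_203

noncomputable def f_pp_213 : ℕ → ℕ → ℕ → ℕ → Bool := onCell 536870912 536870912 0 1230186008 1046898278 26843546
    (rowNX 3 2 false true true .pnn 2 1 3 (qsf 1073741824 536870912 0 1230186008 1) ndN5q2 ndN7q3 pcN1 Cut.none Ext.none)

def k0_pp_213 : ∃ t, chk3 f_pp_213 t 1 1 1 = true :=
  ⟨(a (l 3) (b (a (l 3) (b (a (b (b (a (l 287389475127) (b (l 15573312) (l 15498760))) (l 3)) (l 3)) (a (b (a (b (l 16036992) (l 339468444807)) (b (a (l 16525952) (c (l 16712056) (l 16619672))) (c (a (l 16491608) (l 16538808)) (l 16338104)))) (l 3)) (b (a (c (b (a (c (l 16525616) (l 16678120)) (c (l 16529016) (a (l 16568880) (l 16488408)))) (a (c (b (l 16594496) (l 16464224)) (l 16491424)) (c (l 16294712) (b (l 16347320) (l 16201136))))) (b (l 16573352) (l 16306888))) (c (b (a (l 16252216) (l 16185136)) (b (l 15950328) (a (l 16229680) (l 16080608)))) (b (a (c (a (l 16393816) (c (l 16309280) (l 16305792))) (l 16339608)) (c (l 16171056) (a (l 16121224) (c (l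 16121400) (l 16115216))))) (a (c (a (l 16220552) (c (l 16207568) (l 16203840))) (l 15876568)) (c (l 16084088) (a (c (l 15945832) (l 15973096)) (c (l 16036232) (l 5259219050071)))))))) (b (a (l 3) (a (l 3) (a (a (l 3) (l 1)) (l 1)))) (l 3))))) (l 3))) (b (l 3) (l 1)))), by decide +kernel⟩

theorem c_pp_213 : CertNX 1073741824 536870912 0 1230186008 1046898278 26843546 3 false true true .pnn 2 1 3
    ndN5q2 ndN7q3 pcN1 Cut.none Ext.none :=
  certNX2 (fam := false) (s1 := true) (s2 := true) (a := 2) (b := 1) (c := 3) (cn := .pnn) (n1 := ndN5q2) (n2 := ndN7q3) (pc := pcN1) (cut := Cut.none) (xt := Ext.none) (P1 := 1073741824) (W1 := 536870912) (P2 := 0) (W2 := 1230186008) (P3 := 1046898278) (W3 := 26843546) (N0 := 3)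
    rfl (fun _ => rfl) k0_pp_213

noncomputable def f_pp_303 : ℕ → ℕ → ℕ → ℕ → Bool := onCell 0 1230186008 0 1230186008 1046898278 26843546
    (rowNX 3 0 false true true .npn 3 0 3 (qsf 0 1230186008 0 1230186008 0) ndN5q3 ndN7q3 pcN0 Cut.none Ext.none)

def k0_pp_303 : ∃ t, chk3 f_pp_303 t 1 1 1 = true :=
  ⟨(a (b (l 3) (l 5)) (b (l 3) (a (l 5) (l 3)))), by decide +kernel⟩

theorem c_pp_303 : CertNX 0 1230186008 0 1230186008 1046898278 26843546 3 false true true .npn 3 0 3
    ndN5q3 ndN7q3 pcN0 Cut.none Ext.none :=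
  certNX0 (fam := false) (s1 := true) (s2 := true) (a := 3) (b := 0) (c := 3) (cn := .npn) (n1 := ndN5q3) (n2 := ndN7q3) (pc := pcN0) (cut := Cut.none) (xt := Ext.none) (P1 := 0) (W1 := 1230186008) (P2 := 0) (W2 := 1230186008) (P3 := 1046898278) (W3 := 26843546) (N0 := 3)
    rfl k0_pp_303

noncomputable def f_pp_313 : ℕ → ℕ → ℕ → ℕ → Bool := onCell 0 1230186008 0 1230186008 1046898278 26843546
    (rowNX 3 0 false true true .dn 3 1 3 (qsf 0 1230186008 0 1230186008 1) ndN5q3 ndN7q3 pcN1 Cut.none Ext.none)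

def k0_pp_313 : ∃ t, chk3 f_pp_313 t 1 1 1 = true :=
  ⟨(a (l 1) (b (l 3) (l 1))), by decide +kernel⟩

theorem c_pp_313 : CertNX 0 1230186008 0 1230186008 1046898278 26843546 3 false true true .dn 3 1 3
    ndN5q3 ndN7q3 pcN1 Cut.none Ext.none :=
  certNX0 (fam := false) (s1 := true) (s2 := true) (a := 3) (b := 1) (c := 3) (cn := .dn) (n1 := ndN5q3) (n2 := ndN7q3) (pc := pcN1) (cut := Cut.none) (xt := Ext.none) (P1 := 0) (W1 := 1230186008) (P2 := 0) (W2 := 1230186008) (P3 := 1046898278) (W3 := 26843546) (N0 := 3)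
    rfl k0_pp_313

noncomputable def f_pm_001 : ℕ → ℕ → ℕ → ℕ → Bool := onCell 0 536870912 536870912 536870912 1046898278 26843546
    (rowNX 3 0 false true false .up 0 0 1 (qsf 0 536870912 536870912 536870912 0) ndN5q0 ndN7q1 pcN0 Cut.none Ext.none)

def k0_pm_001 : ∃ t, chk3 f_pm_001 t 1 1 1 = true :=
  ⟨(l 4), by decide +kernel⟩

theorem c_pm_001 : CertNX 0 536870912 536870912 536870912 1046898278 26843546 3 false true false .up 0 0 1
    ndN5q0 ndN7q1 pcN0 Cut.none Ext.none :=
  certNX0 (fam := false) (s1 := true) (s2 := false) (a := 0) (b := 0) (c := 1) (cn := .up) (n1 := ndN5q0) (n2 := ndN7q1) (pc := pcN0) (cut := Cut.none) (xt := Ext.none) (P1 := 0) (W1 := 536870912) (P2 := 536870912) (W2 := 536870912) (P3 := 1046898278) (W3 := 26843546) (N0 := 3)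
    rfl k0_pm_001

noncomputable def f_pm_011 : ℕ → ℕ → ℕ → ℕ → Bool := onCell 0 536870912 536870912 536870912 1046898278 26843546
    (rowNX 3 0 false true false .pnn 0 1 1 (qsf 0 536870912 536870912 536870912 1) ndN5q0 ndN7q1 pcN1 Cut.none Ext.none)

def k0_pm_011 : ∃ t, chk3 f_pm_011 t 1 1 1 = true :=
  ⟨(l 4), by decide +kernel⟩

theorem c_pm_011 : CertNX 0 536870912 536870912 536870912 1046898278 26843546 3 false true false .pnn 0 1 1
    ndN5q0 ndN7q1 pcN1 Cut.none Ext.none :=
  certNX0 (fam := false) (s1 := true) (s2 := false) (a := 0) (b := 1) (c := 1) (cn := .pnn) (n1 := ndN5q0) (n2 := ndN7q1) (pc := pcN1) (cut := Cut.none) (xt := Ext.none) (P1 := 0) (W1 := 536870912) (P2 := 536870912) (W2 := 536870912) (P3 := 1046898278) (W3 := 26843546) (N0 := 3)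
    rfl k0_pm_011

noncomputable def f_pm_012 : ℕ → ℕ → ℕ → ℕ → Bool := onCell 0 536870912 1073741824 536870912 1046898278 26843546
    (rowNX 3 0 false true false .pnp 0 1 2 (qsf 0 536870912 1073741824 536870912 1) ndN5q0 ndN7q2 pcN1 Cut.none Ext.none)

def k0_pm_012 : ∃ t, chk3 f_pm_012 t 1 1 1 = true :=
  ⟨(l 4), by decide +kernel⟩

theorem c_pm_012 : CertNX 0 536870912 1073741824 536870912 1046898278 26843546 3 false true false .pnp 0 1 2
    ndN5q0 ndN7q2 pcN1 Cut.none Ext.none :=
  certNX0 (fam := false) (s1 := true) (s2 := false) (a := 0) (b := 1) (c := 2) (cn := .pnp) (n1 := ndN5q0) (n2 := ndN7q2) (pc := pcN1) (cut := Cut.none) (xt := Ext.none) (P1 := 0) (W1 := 536870912) (P2 := 1073741824) (W2 := 536870912) (P3 := 1046898278) (W3 := 26843546) (N0 := 3)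
    rfl k0_pm_012

noncomputable def f_pm_022 : ℕ → ℕ → ℕ → ℕ → Bool := onCell 0 536870912 1073741824 536870912 1046898278 26843546
    (rowNX 3 0 false true false .pp 0 2 2 (qsf 0 536870912 1073741824 536870912 2) ndN5q0 ndN7q2 pcN2 Cut.none Ext.none)

def k0_pm_022 : ∃ t, chk3 f_pm_022 t 1 1 1 = true :=
  ⟨(l 4), by decide +kernel⟩

theorem c_pm_022 : CertNX 0 536870912 1073741824 536870912 1046898278 26843546 3 false true false .pp 0 2 2
    ndN5q0 ndN7q2 pcN2 Cut.none Ext.none :=
  certNX0 (fam := false) (s1 := true) (s2 := false) (a := 0) (b := 2) (c := 2) (cn := .pp) (n1 := ndN5q0) (n2 := ndN7q2) (pc := pcN2) (cut := Cut.none) (xt := Ext.none) (P1 := 0) (W1 := 536870912) (P2 := 1073741824) (W2 := 536870912) (P3 := 1046898278) (W3 := 26843546) (N0 := 3)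
    rfl k0_pm_022

noncomputable def f_pm_023 : ℕ → ℕ → ℕ → ℕ → Bool := onCell 0 536870912 0 1230186008 1046898278 26843546
    (rowNX 3 0 false true false .up 0 2 3 (qsf 0 536870912 0 1230186008 2) ndN5q0 ndN7q3 pcN2 Cut.none Ext.none)

def k0_pm_023 : ∃ t, chk3 f_pm_023 t 1 1 1 = true :=
  ⟨(l 4), by decide +kernel⟩

theorem c_pm_023 : CertNX 0 536870912 0 1230186008 1046898278 26843546 3 false true false .up 0 2 3
    ndN5q0 ndN7q3 pcN2 Cut.none Ext.none :=
  certNX0 (fam := false) (s1 := true) (s2 := false) (a := 0) (b := 2) (c := 3) (cn := .up) (n1 := ndN5q0) (n2 := ndN7q3) (pc := pcN2) (cut := Cut.none) (xt := Ext.none) (P1 := 0) (W1 := 536870912) (P2 := 0) (W2 := 1230186008) (P3 := 1046898278) (W3 := 26843546) (N0 := 3)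
    rfl k0_pm_023

noncomputable def f_pm_033 : ℕ → ℕ → ℕ → ℕ → Bool := onCell 0 536870912 0 1230186008 1046898278 26843546
    (rowNX 3 0 false true false .pnn 0 3 3 (qsf 0 536870912 0 1230186008 3) ndN5q0 ndN7q3 pcN3 Cut.none Ext.none)

def k0_pm_033 : ∃ t, chk3 f_pm_033 t 1 1 1 = true :=
  ⟨(l 4), by decide +kernel⟩

theorem c_pm_033 : CertNX 0 536870912 0 1230186008 1046898278 26843546 3 false true false .pnn 0 3 3
    ndN5q0 ndN7q3 pcN3 Cut.none Ext.none :=
  certNX0 (fam := false) (s1 := true) (s2 := false) (a := 0) (b := 3) (c := 3) (cn := .pnn) (n1 := ndN5q0) (n2 := ndN7q3) (pc := pcN3) (cut := Cut.none) (xt := Ext.none) (P1 := 0) (W1 := 536870912) (P2 := 0) (W2 := 1230186008) (P3 := 1046898278) (W3 := 26843546) (N0 := 3)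
    rfl k0_pm_033

noncomputable def f_pm_101 : ℕ → ℕ → ℕ → ℕ → Bool := onCell 536870912 469762048 536870912 536870912 1046898278 26843546
    (rowNX 3 0 false true false .npn 1 0 1 (qsf 536870912 469762048 536870912 536870912 0) ndN5q1 ndN7q1 pcN0 Cut.none Ext.none)

def k0_pm_101 : ∃ t, chk3 f_pm_101 t 1 1 1 = true :=
  ⟨(l 4), by decide +kernel⟩

theorem c_pm_101 : CertNX 536870912 469762048 536870912 536870912 1046898278 26843546 3 false true false .npn 1 0 1
    ndN5q1 ndN7q1 pcN0 Cut.none Ext.none :=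
  certNX0 (fam := false) (s1 := true) (s2 := false) (a := 1) (b := 0) (c := 1) (cn := .npn) (n1 := ndN5q1) (n2 := ndN7q1) (pc := pcN0) (cut := Cut.none) (xt := Ext.none) (P1 := 536870912) (W1 := 469762048) (P2 := 536870912) (W2 := 536870912) (P3 := 1046898278) (W3 := 26843546) (N0 := 3)
    rfl k0_pm_101

noncomputable def f_pm_102 : ℕ → ℕ → ℕ → ℕ → Bool := onCell 536870912 469762048 1073741824 536870912 1046898278 26843546
    (rowNX 3 0 false true false .npp 1 0 2 (qsf 536870912 469762048 1073741824 536870912 0) ndN5q1 ndN7q2 pcN0 Cut.none Ext.none)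

def k0_pm_102 : ∃ t, chk3 f_pm_102 t 1 1 1 = true :=
  ⟨(l 4), by decide +kernel⟩

theorem c_pm_102 : CertNX 536870912 469762048 1073741824 536870912 1046898278 26843546 3 false true false .npp 1 0 2
    ndN5q1 ndN7q2 pcN0 Cut.none Ext.none :=
  certNX0 (fam := false) (s1 := true) (s2 := false) (a := 1) (b := 0) (c := 2) (cn := .npp) (n1 := ndN5q1) (n2 := ndN7q2) (pc := pcN0) (cut := Cut.none) (xt := Ext.none) (P1 := 536870912) (W1 := 469762048) (P2 := 1073741824) (W2 := 536870912) (P3 := 1046898278) (W3 := 26843546) (N0 := 3)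
    rfl k0_pm_102

noncomputable def f_pm_112 : ℕ → ℕ → ℕ → ℕ → Bool := onCell 536870912 469762048 1073741824 536870912 1046898278 26843546
    (rowNX 3 0 false true false .dn 1 1 2 (qsf 536870912 469762048 1073741824 536870912 1) ndN5q1 ndN7q2 pcN1 Cut.none Ext.none)

def k0_pm_112 : ∃ t, chk3 f_pm_112 t 1 1 1 = true :=
  ⟨(l 4), by decide +kernel⟩

theorem c_pm_112 : CertNX 536870912 469762048 1073741824 536870912 1046898278 26843546 3 false true false .dn 1 1 2
    ndN5q1 ndN7q2 pcN1 Cut.none Ext.none :=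
  certNX0 (fam := false) (s1 := true) (s2 := false) (a := 1) (b := 1) (c := 2) (cn := .dn) (n1 := ndN5q1) (n2 := ndN7q2) (pc := pcN1) (cut := Cut.none) (xt := Ext.none) (P1 := 536870912) (W1 := 469762048) (P2 := 1073741824) (W2 := 536870912) (P3 := 1046898278) (W3 := 26843546) (N0 := 3)
    rfl k0_pm_112

noncomputable def f_pm_113 : ℕ → ℕ → ℕ → ℕ → Bool := onCell 536870912 469762048 0 1230186008 1046898278 26843546
    (rowNX 3 0 false true false .nn 1 1 3 (qsf 536870912 469762048 0 1230186008 1) ndN5q1 ndN7q3 pcN1 Cut.none Ext.none)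

def k0_pm_113 : ∃ t, chk3 f_pm_113 t 1 1 1 = true :=
  ⟨(b (b (l 2) (l 4)) (l 4)), by decide +kernel⟩

theorem c_pm_113 : CertNX 536870912 469762048 0 1230186008 1046898278 26843546 3 false true false .nn 1 1 3
    ndN5q1 ndN7q3 pcN1 Cut.none Ext.none :=
  certNX0 (fam := false) (s1 := true) (s2 := false) (a := 1) (b := 1) (c := 3) (cn := .nn) (n1 := ndN5q1) (n2 := ndN7q3) (pc := pcN1) (cut := Cut.none) (xt := Ext.none) (P1 := 536870912) (W1 := 469762048) (P2 := 0) (W2 := 1230186008) (P3 := 1046898278) (W3 := 26843546) (N0 := 3)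
    rfl k0_pm_113

noncomputable def f_pm_123 : ℕ → ℕ → ℕ → ℕ → Bool := onCell 536870912 469762048 0 1230186008 1046898278 26843546
    (rowNX 3 0 false true false .npn 1 2 3 (qsf 536870912 469762048 0 1230186008 2) ndN5q1 ndN7q3 pcN2 Cut.none Ext.none)

def k0_pm_123 : ∃ t, chk3 f_pm_123 t 1 1 1 = true :=
  ⟨(b (b (l 4) (l 4)) (l 4)), by decide +kernel⟩

theorem c_pm_123 : CertNX 536870912 469762048 0 1230186008 1046898278 26843546 3 false true false .npn 1 2 3
    ndN5q1 ndN7q3 pcN2 Cut.none Ext.none :=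
  certNX0 (fam := false) (s1 := true) (s2 := false) (a := 1) (b := 2) (c := 3) (cn := .npn) (n1 := ndN5q1) (n2 := ndN7q3) (pc := pcN2) (cut := Cut.none) (xt := Ext.none) (P1 := 536870912) (W1 := 469762048) (P2 := 0) (W2 := 1230186008) (P3 := 1046898278) (W3 := 26843546) (N0 := 3)
    rfl k0_pm_123

noncomputable def f_pm_133 : ℕ → ℕ → ℕ → ℕ → Bool := onCell 1610612736 536870912 0 1230186008 1046898278 26843546
    (rowNX 3 2 false true false .dn 1 3 3 (qsf 536870912 469762048 0 1230186008 3) ndN5q1 ndN7q3 pcN3 Cut.none Ext.none)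

def k0_pm_133 : ∃ t, chk3 f_pm_133 t 1 1 1 = true :=
  ⟨(b (l 4) (l 1)), by decide +kernel⟩

theorem c_pm_133 : CertNX 536870912 469762048 0 1230186008 1046898278 26843546 3 false true false .dn 1 3 3
    ndN5q1 ndN7q3 pcN3 Cut.none Ext.none :=
  certNX2 (fam := false) (s1 := true) (s2 := false) (a := 1) (b := 3) (c := 3) (cn := .dn) (n1 := ndN5q1) (n2 := ndN7q3) (pc := pcN3) (cut := Cut.none) (xt := Ext.none) (P1 := 536870912) (W1 := 469762048) (P2 := 0) (W2 := 1230186008) (P3 := 1046898278) (W3 := 26843546) (N0 := 3)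
    rfl (fun _ => rfl) k0_pm_133

noncomputable def f_pm_202 : ℕ → ℕ → ℕ → ℕ → Bool := onCell 0 536870912 1073741824 536870912 1046898278 26843546
    (rowNX 3 2 false true false .pp 2 0 2 (qsf 1073741824 536870912 1073741824 536870912 0) ndN5q2 ndN7q2 pcN0 Cut.none Ext.none)

def k0_pm_202 : ∃ t, chk3 f_pm_202 t 1 1 1 = true :=
  ⟨(a (b (l 4) (b (l 4) (b (l 4) (a (a (a (a (c (l 16671848) (l 16669344)) (l 16692992)) (l 16719304)) (a (l 16746272) (l 16763272))) (a (l 16773240) (l 4)))))) (l 4)), by decide +kernel⟩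

theorem c_pm_202 : CertNX 1073741824 536870912 1073741824 536870912 1046898278 26843546 3 false true false .pp 2 0 2
    ndN5q2 ndN7q2 pcN0 Cut.none Ext.none :=
  certNX2 (fam := false) (s1 := true) (s2 := false) (a := 2) (b := 0) (c := 2) (cn := .pp) (n1 := ndN5q2) (n2 := ndN7q2) (pc := pcN0) (cut := Cut.none) (xt := Ext.none) (P1 := 1073741824) (W1 := 536870912) (P2 := 1073741824) (W2 := 536870912) (P3 := 1046898278) (W3 := 26843546) (N0 := 3)
    rfl (fun _ => rfl) k0_pm_202

noncomputable def f_pm_203 : ℕ → ℕ → ℕ → ℕ → Bool := onCell 0 536870912 0 1230186008 1046898278 26843546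
    (rowNX 3 2 false true false .up 2 0 3 (qsf 1073741824 536870912 0 1230186008 0) ndN5q2 ndN7q3 pcN0 Cut.none Ext.none)

def k0_pm_203 : ∃ t, chk3 f_pm_203 t 1 1 1 = true :=
  ⟨(b (a (l 2) (b (l 3) (a (l 2) (b (b (l 3) (c (l 319605964807) (l 324437803015))) (c (a (l 16777216) (l 16777216)) (a (l 16777216) (l 16777216))))))) (b (a (a (l 2) (a (l 2) (a (l 2) (l 1500655311959)))) (a (b (a (l 2) (l 16777216)) (l 16777216)) (b (l 16777216) (l 16777216)))) (b (a (a (l 2) (b (l 220753607783) (a (l 16368264) (l 16725504)))) (a (l 16777216) (b (a (l 16777216) (l 16648304)) (a (l 16701096) (b (l 16208544) (l 15515480)))))) (a (a (a (b (l 2) (a (c (l 16336680) (l 16327008)) (l 16428904))) (a (l 16346344) (l 16425568))) (a (b (l 16484752) (l 16675176)) (l 16770928))) (a (b (a (l 16777216) (l 16708368)) (a (l 16632656) (b (l 16203376) (l 4)))) (b (a (b (l 16298400) (l 15470664)) (b (a (l 15095808) (l 14568192)) (l 14709728))) (a (b (a (l 15074608) (l 4)) (l 4)) (l 4)))))))), by decide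 +kernel⟩

theorem c_pm_203 : CertNX 1073741824 536870912 0 1230186008 1046898278 26843546 3 false true false .up 2 0 3
    ndN5q2 ndN7q3 pcN0 Cut.none Ext.none :=
  certNX2 (fam := false) (s1 := true) (s2 := false) (a := 2) (b := 0) (c := 3) (cn := .up) (n1 := ndN5q2) (n2 := ndN7q3) (pc := pcN0) (cut := Cut.none) (xt := Ext.none) (P1 := 1073741824) (W1 := 536870912) (P2 := 0) (W2 := 1230186008) (P3 := 1046898278) (W3 := 26843546) (N0 := 3)
    rfl (fun _ => rfl) k0_pm_203

noncomputable def f_pm_213 : ℕ → ℕ → ℕ → ℕ → Bool := onCell 1073741824 536870912 0 1230186008 1046898278 26843546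
    (rowNX 3 0 false true false .pnn 2 1 3 (qsf 1073741824 536870912 0 1230186008 1) ndN5q2 ndN7q3 pcN1 Cut.none Ext.none)

def k0_pm_213 : ∃ t, chk3 f_pm_213 t 4 2 1 = true :=
  ⟨(b (a (b (a (b (a (c (a (l 16254056) (c (l 16438320) (b (l 16416992) (l 16452680)))) (a (c (b (l 16228128) (l 16090928)) (b (a (l 16090744) (l 16267032)) (a (c (l 16207600) (l 16139792)) (l 16301560)))) (c (a (b (l 16302520) (l 16401488)) (l 16474976)) (l 16421816)))) (c (a (c (l 16404080) (b (l 16590688) (l 16631880))) (b (l 16759200) (l 16749144))) (l 16692784))) (a (l 16371016) (b (c (a (b (c (l 16659568) (l 16659528)) (l 16666080)) (c (l 16711376) (l 16709256))) (l 16747040)) (l 16655344)))) (a (b (a (c (l 16610848) (l 16604072)) (l 16421808)) (b (l 16443024) (l 16418944))) (b (l 16119816) (b (l 16074736) (l 16057136))))) (a (b (l 16238344) (l 16134496)) (b (l 16197792) (l 15940576)))) (b (b (a (l 15364760) (l 14861056)) (a (b (l 15533136) (l 15529488)) (l 14840808))) (b (a (b (l 15532352) (l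 15520160)) (b (l 14862936) (l 14865024))) (a (l 15449072) (l 14860680))))) (b (a (b (a (l 16014128) (l 15638080)) (a (l 15424592) (l 15407624))) (b (a (l 15254232) (l 14785072)) (a (l 15085656) (l 14700528)))) (a (b (a (l 15324168) (l 15283144)) (a (l 15314352) (b (l 15242312) (l 15224824)))) (b (a (l 14992832) (l 14650224)) (a (l 14945304) (l 14616360)))))), by decide +kernel⟩

def k1_pm_213 : ∃ t, chk3 f_pm_213 t 5 2 1 = true :=
  ⟨(b (a (b (a (b (a (l 14159560) (l 14566176)) (a (l 14376792) (l 14543576))) (b (l 15177440) (l 15275384))) (a (b (a (l 14350112) (l 14605248)) (a (l 14499168) (l 14677776))) (b (l 15314416) (l 15374520)))) (b (b (l 3) (a (a (l 15968680) (l 16408312)) (l 16653416))) (a (b (l 16198392) (l 16110984)) (b (l 16648272) (l 16676944))))) (b (a (a (a (l 14466472) (l 14658656)) (b (l 15404024) (l 15369872))) (a (b (l 16307880) (l 16304928)) (l 16695376))) (a (a (b (l 14502912) (l 14489296)) (l 15362160)) (a (l 16304928) (l 16776552))))), by decide +kernel⟩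

def k2_pm_213 : ∃ t, chk3 f_pm_213 t 3 2 1 = true :=
  ⟨(b (b (l 3) (a (c (a (l 279877139527) (l 299741363927)) (a (l 292225160919) (l 310478771927))) (a (b (l 3) (l 3)) (l 3)))) (c (a (b (a (l 16759192) (b (l 16744544) (l 16777216))) (l 16777216)) (b (a (b (l 16744544) (l 16777216)) (l 319068880903)) (c (l 16777216) (l 16777216)))) (a (b (a (l 16758560) (b (l 16743400) (l 16777216))) (l 16777216)) (b (a (b (l 16743400) (l 16777216)) (l 324974455735)) (a (l 16777216) (l 16777216)))))), by decide +kernel⟩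

def k3_pm_213 : ∃ t, chk3 f_pm_213 t 1 3 1 = true :=
  ⟨(b (a (b (a (a (b (a (b (l 15338336) (l 15389328)) (l 15219840)) (a (l 15483944) (l 15267368))) (b (l 14768408) (l 14771104))) (a (a (l 14488456) (l 15362176)) (a (l 16304928) (l 16776552)))) (a (a (a (b (l 15646672) (l 15732808)) (b (l 15317560) (l 15321160))) (l 14772512)) (a (a (b (l 14488456) (l 14488456)) (l 15362176)) (a (l 16304928) (l 16776552))))) (b (c (l 85932900359) (l 16777216)) (c (l 16777216) (l 16777216)))) (a (a (b (b (b (l 15130952) (a (l 15507040) (l 14772400))) (a (b (l 15482184) (l 15483640)) (l 14772512))) (b (c (l 15159280) (l 15102496)) (l 4))) (b (a (b (l 14871888) (l 14808968)) (b (l 16546792) (l 1))) (a (a (a (l 14377320) (l 1)) (l 1)) (l 1)))) (l 1))), by decide +kernel⟩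

theorem s4_pm_213 : ∃ t, chk3 f_pm_213 t 2 2 1 = true := ex3_a k0_pm_213 k1_pm_213

theorem s5_pm_213 : ∃ t, chk3 f_pm_213 t 1 2 1 = true := ex3_a s4_pm_213 k2_pm_213

theorem s6_pm_213 : ∃ t, chk3 f_pm_213 t 1 1 1 = true := ex3_b s5_pm_213 k3_pm_213

theorem c_pm_213 : CertNX 1073741824 536870912 0 1230186008 1046898278 26843546 3 false true false .pnn 2 1 3
    ndN5q2 ndN7q3 pcN1 Cut.none Ext.none :=
  certNX0 (fam := false) (s1 := true) (s2 := false) (a := 2) (b := 1) (c := 3) (cn := .pnn) (n1 := ndN5q2) (n2 := ndN7q3) (pc := pcN1) (cut := Cut.none) (xt := Ext.none) (P1 := 1073741824) (W1 := 536870912) (P2 := 0) (W2 := 1230186008) (P3 := 1046898278) (W3 := 26843546) (N0 := 3)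
    rfl s6_pm_213

noncomputable def f_pm_303 : ℕ → ℕ → ℕ → ℕ → Bool := onCell 0 1230186008 0 1230186008 1046898278 26843546
    (rowNX 3 0 false true false .npn 3 0 3 (qsf 0 1230186008 0 1230186008 0) ndN5q3 ndN7q3 pcN0 Cut.none Ext.none)

def k0_pm_303 : ∃ t, chk3 f_pm_303 t 2 1 1 = true :=
  ⟨(b (l 3) (b (b (l 3) (l 1)) (l 1))), by decide +kernel⟩

def k1_pm_303 : ∃ t, chk3 f_pm_303 t 3 2 1 = true :=
  ⟨(b (l 3) (a (l 3) (a (b (l 3) (a (l 3) (b (l 3) (a (b (l 3) (b (l 3) (l 16647816))) (l 323901078695))))) (b (a (l 3) (c (l 344838787239) (l 349133649399))) (c (a (l 329269641223) (b (l 16777216) (l 16777216))) (a (l 319605964807) (l 274508808199))))))), by decide +kernel⟩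

def k2_pm_303 : ∃ t, chk3 f_pm_303 t 12 6 1 = true :=
  ⟨(b (a (l 3) (l 3)) (b (b (b (b (b (b (l 3) (l 1)) (l 1)) (l 1)) (l 1)) (l 1)) (l 1))), by decide +kernel⟩

def k3_pm_303 : ∃ t, chk3 f_pm_303 t 13 24 1 = true :=
  ⟨(b (l 3) (a (l 3) (a (l 3) (a (l 3) (l 15613360))))), by decide +kernel⟩

def k4_pm_303 : ∃ t, chk3 f_pm_303 t 13 50 1 = true :=
  ⟨(b (a (l 3) (c (a (l 14950528) (l 15386856)) (a (l 14886304) (l 15337968)))) (a (a (l 3) (a (l 3) (a (l 3) (a (l 3) (b (l 3) (l 14496208)))))) (a (a (a (b (l 3) (l 14529848)) (l 317454174343)) (c (l 14935320) (l 14870592))) (a (c (l 15217688) (l 15162888)) (c (l 15500320) (l 15455456)))))), by decide +kernel⟩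

def k5_pm_303 : ∃ t, chk3 f_pm_303 t 13 51 1 = true :=
  ⟨(b (a (a (l 3) (c (b (a (l 3) (c (c (l 316380751879) (l 293294942247)) (l 14463440))) (c (a (l 14389728) (c (l 14510744) (a (l 14484912) (l 14525000)))) (a (c (a (l 14344680) (l 14405744)) (a (l 14329792) (l 14370168))) (c (l 14464728) (l 14421752))))) (l 14123376))) (a (a (c (c (a (c (b (l 14614832) (l 14603784)) (l 14563136)) (b (l 14646840) (b (l 14620240) (l 14634176)))) (b (l 14571856) (l 14529336))) (b (l 14513888) (l 14470240))) (b (c (l 14805328) (l 14736024)) (l 14764968))) (a (l 15203920) (c (l 15705584) (l 15667944))))) (a (a (b (a (l 3) (c (l 14204224) (c (c (a (l 14153552) (c (l 14211176) (l 14207968))) (a (c (l 14136216) (l 14130792)) (l 14185672))) (l 14116216)))) (c (l 14143768) (c (a (l 14030168) (c (l 14140248) (a (c (l 14101944) (l 14045944)) (b (l 14157920) (l 14131560))))) (a (c (a (l 13971920) (c (l 14027736) (l 13865680))) (a (a (l 3) (l 338390720615)) (l 13988328))) (c (a (l 302420462455) (l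 14114664)) (l 14067528)))))) (a (c (c (l 14335200) (c (l 14312264) (a (b (l 14283376) (l 14242520)) (b (l 14339520) (l 14309776))))) (c (c (b (l 14283680) (b (l 14264528) (l 14241896))) (l 14239472)) (l 14203704))) (c (a (c (l 14420592) (c (b (l 14418744) (l 14385136)) (l 14365032))) (c (b (l 14485952) (l 14472064)) (l 14459200))) (l 14326816)))) (a (c (a (c (b (l 14591760) (c (l 14568824) (l 14556424))) (l 14547016)) (b (l 14735568) (a (l 14630168) (c (l 14722728) (l 14681752))))) (a (l 14475688) (b (l 14658064) (l 14583056)))) (a (b (l 15143192) (c (l 15040192) (l 14976264))) (c (l 15660392) (l 15621120)))))), by decide +kernel⟩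

def k6_pm_303 : ∃ t, chk3 f_pm_303 t 13 52 1 = true :=
  ⟨(b (a (c (a (a (l 14027240) (b (b (l 14147344) (l 14134792)) (a (l 14127312) (l 14177680)))) (c (b (l 14342192) (l 14301896)) (a (l 14220776) (l 14362112)))) (a (b (c (a (a (l 13963136) (l 13921280)) (c (l 14020264) (l 14084584))) (b (a (c (l 13968832) (a (c (l 13924016) (l 13785336)) (l 13958232))) (c (l 14067936) (l 14046896))) (a (a (l 13910816) (l 13838688)) (l 14049504)))) (a (c (l 13947440) (c (l 13924792) (l 13914200))) (c (a (l 14036456) (l 14115576)) (b (l 14039208) (l 14046856))))) (a (c (b (c (l 14217536) (l 14188688)) (l 14177824)) (l 14031032)) (l 14304104)))) (a (c (c (a (l 14526696) (l 14662776)) (l 14556080)) (l 14505888)) (a (b (l 14834952) (a (a (l 14708088) (l 14741352)) (l 14771800))) (l 15190072)))) (a (a (c (a (l 13929232) (l 14084384)) (a (l 13874304) (c (b (l 14058896) (l 14046392)) (b (a (l 14014584) (l 14072072)) (l 14028384))))) (c (a (a (c (l 14214208) (l 14171448)) (c (l 14273408) (l 14228216)))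 (c (b (l 14338368) (l 14324424)) (l 14302744))) (a (c (b (l 14174592) (l 14162656)) (b (l 14152440) (l 14153728))) (c (l 14273240) (l 14262224))))) (a (c (c (l 14517240) (l 14495400)) (l 14450016)) (a (c (c (l 14691280) (l 14657456)) (l 14602224)) (c (b (l 14912312) (l 14871800)) (b (l 14882512) (l 14782816))))))), by decide +kernel⟩

def k7_pm_303 : ∃ t, chk3 f_pm_303 t 13 53 1 = true :=
  ⟨(a (a (b (c (l 13930944) (l 13895328)) (l 1)) (b (c (a (l 14195080) (b (c (l 14349464) (l 14314272)) (l 14334416))) (c (a (b (l 14177328) (l 14154544)) (b (l 14290328) (l 14290552))) (a (b (a (l 14123168) (l 14180176)) (l 14137440)) (b (l 14260280) (l 14261856))))) (c (b (l 14231072) (l 14204920)) (a (l 14102632) (b (c (l 14284840) (a (l 14231920) (l 14288368))) (a (l 14210984) (c (l 14307904) (l 14286352)))))))) (a (c (b (a (c (l 14423360) (l 14400968)) (l 14486744)) (a (b (c (l 14452168) (l 14419368)) (a (l 14414952) (l 14478384))) (b (l 14504760) (l 14533776)))) (b (l 14435616) (a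 (c (b (l 14397032) (l 14397304)) (b (l 14368080) (l 14370008))) (l 14447360)))) (c (b (a (l 14636640) (l 14779888)) (l 14682384)) (b (l 14675232) (l 14664136))))), by decide +kernel⟩

def k8_pm_303 : ∃ t, chk3 f_pm_303 t 13 27 1 = true :=
  ⟨(a (b (a (l 1) (c (l 14039256) (b (l 14043960) (l 1)))) (l 1)) (b (b (a (b (a (c (l 14421560) (b (a (l 14363368) (l 14427168)) (l 14378840))) (c (c (l 14554936) (l 14524528)) (c (l 14503776) (l 14475968)))) (a (l 14390000) (l 14531096))) (c (a (b (l 14611296) (l 14638000)) (c (l 14719960) (l 14733416))) (c (l 14653992) (l 14634728)))) (a (a (l 14320944) (c (l 14514848) (l 14476824))) (c (a (l 14643696) (l 14741464)) (a (l 14586152) (l 14659600))))) (a (l 14338488) (b (a (c (l 14621664) (l 14585712)) (c (l 14748352) (l 14693384))) (a (l 14543080) (c (l 14728568) (b (l 14702400) (l 14693504)))))))), by decide +kernel⟩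

def k9_pm_303 : ∃ t, chk3 f_pm_303 t 6 7 1 = true :=
  ⟨(a (l 1) (b (a (l 1) (b (b (b (l 14435064) (l 1)) (l 1)) (l 1))) (l 1))), by decide +kernel⟩

def k10_pm_303 : ∃ t, chk3 f_pm_303 t 14 6 1 = true :=
  ⟨(b (a (b (a (c (l 15916016) (l 15885728)) (b (l 16280784) (l 310477378679))) (b (a (b (l 15758256) (a (l 15744888) (l 16003496))) (b (l 16111992) (l 16297056))) (c (a (b (l 16196056) (a (b (l 16281512) (l 16172736)) (l 16521032))) (l 16586408)) (a (b (l 16175656) (a (b (l 16264096) (l 16151488)) (l 16512040))) (l 16349024))))) (b (a (b (l 300277706631) (l 16250648)) (a (b (l 16756944) (l 16697960)) (b (l 16776912) (l 16766352)))) (b (a (l 16522592) (l 16711712)) (a (b (l 16752656) (l 16765344)) (l 16771424))))) (a (a (b (a (b (b (l 15695808) (l 15296728)) (c (b (l 15016576) (l 14902064)) (b (l 14967232) (l 14845528)))) (b (b (l 16134336) (l 15458400)) (b (l 15335792) (c (l 15142768) (l 15085832))))) (b (b (a (l 14843272) (c (b (l 15024824) (l 14988592)) (l 14955368)))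 (l 14802616)) (c (b (l 14903744) (a (l 14852952) (l 14948216))) (b (l 14859880) (a (l 14800544) (l 14871328)))))) (b (b (b (l 16443448) (a (b (l 16103592) (a (l 15863912) (l 16024728))) (l 16194680))) (a (b (l 15716792) (l 15437368)) (b (l 15983488) (l 15786080)))) (b (b (a (c (l 15256784) (l 15204192)) (l 15534384)) (l 15223064)) (b (l 15112760) (l 15087480))))) (b (a (b (l 16344792) (b (l 16246088) (a (l 16042352) (l 16177944)))) (b (l 16632952) (b (l 16472376) (l 16362680)))) (b (a (a (b (l 15842944) (l 15619896)) (b (l 16043312) (b (l 15941040) (l 15857424)))) (l 16176608)) (a (a (l 15377696) (l 15611664)) (l 15928520)))))), by decide +kernel⟩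

def k11_pm_303 : ∃ t, chk3 f_pm_303 t 15 6 1 = true :=
  ⟨(b (a (b (b (l 16777216) (l 16777216)) (a (b (l 16774032) (b (l 16772648) (l 16774904))) (l 16777216))) (l 16777216)) (a (b (a (b (l 16733792) (l 16594256)) (b (l 16771128) (a (l 16687032) (l 16743584)))) (b (a (l 16390704) (l 16578600)) (l 16312768))) (a (b (l 16773512) (b (l 16732800) (l 16627664))) (b (l 16777216) (b (l 16777216) (l 16758688)))))), by decide +kernel⟩

def k12_pm_303 : ∃ t, chk3 f_pm_303 t 14 7 1 = true :=
  ⟨(b (b (a (b (a (b (a (c (l 14835552) (b (l 14810728) (l 14803144))) (c (l 14957456) (l 14907608))) (a (l 14766752) (c (l 14942592) (b (l 14919056) (l 14912880))))) (b (c (l 15109704) (l 15069888)) (a (c (l 15061008) (l 15022536)) (l 15115608)))) (a (l 14670576) (b (a (c (l 15050000) (b (l 15028752) (l 15022480))) (c (l 15165336) (b (l 15128832) (l 15133752)))) (a (l 15002400) (c (l 15157640) (b (l 15136992) (l 15132352))))))) (b (a (b (l 15324576) (l 15283512)) (b (l 15736352) (l 15620792)))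 (a (b (c (l 15301040) (l 15278520)) (a (c (l 15269496) (b (l 15234688) (l 15240712))) (l 15322320))) (b (l 15527536) (l 15483528))))) (a (b (a (l 1) (l 15031200)) (l 1)) (b (a (b (a (c (l 15265240) (b (l 15245160) (l 15242264))) (c (l 15373456) (b (l 15340288) (l 15347488)))) (a (l 15228168) (c (l 15372776) (b (a (l 15330240) (l 15378776)) (l 15352184))))) (b (c (l 15503328) (l 15484752)) (a (c (l 15477184) (a (l 15427344) (l 15471696))) (l 15527976)))) (a (l 15282528) (b (a (c (l 15480232) (b (a (l 15438904) (l 15485784)) (l 15462088))) (c (l 15580648) (b (l 15550616) (l 15560360)))) (a (l 15458168) (c (l 15591216) (b (a (l 15547472) (l 15592592)) (l 15573976))))))))) (a (l 1) (b (b (b (a (l 1) (l 15501464)) (l 1)) (l 1)) (l 1)))), by decide +kernel⟩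

def k13_pm_303 : ∃ t, chk3 f_pm_303 t 15 7 1 = true :=
  ⟨(b (a (b (b (l 16114720) (a (b (l 15869592) (l 15784016)) (l 16091648))) (b (a (b (l 15716640) (l 15681552)) (b (l 15972984) (l 15920296))) (a (a (b (l 15630328) (c (b (l 15679376) (l 15693768)) (b (l 15655264) (l 15669088)))) (c (l 15761272) (l 15747952))) (b (l 15887256) (a (l 15845416) (l 15931128)))))) (b (l 16484040) (a (b (l 16142520) (b (l 16051184) (l 16039320))) (l 16289280)))) (a (b (b (a (b (a (l 15686688) (l 15771072)) (a (l 15682504) (l 15794416))) (b (l 15896000) (c (l 15925312) (l 15907416)))) (a (l 15748592) (b (a (l 15901984) (l 15978248)) (a (l 15910744) (l 16009376))))) (b (a (l 1) (l 15991648)) (l 1))) (b (b (a (l 16051664) (l 16178392)) (a (b (l 16090208) (a (l 16081248) (l 16135672))) (l 16234464))) (b (a (b (a (l 16116552) (c (l 16193536) (l 16180864))) (a (l 16139616) (c (l 16227896) (l 16218672)))) (a (c (l 16273616) (l 16263112)) (l 16326520))) (a (l 16236488) (b (a (c (l 16333768) (l 16326280))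 (c (l 16394064) (l 16385816))) (a (l 16368968) (c (l 16439312) (l 16433568))))))))), by decide +kernel⟩

theorem s14_pm_303 : ∃ t, chk3 f_pm_303 t 7 7 1 = true := ex3_a k12_pm_303 k13_pm_303

theorem s15_pm_303 : ∃ t, chk3 f_pm_303 t 7 6 1 = true := ex3_a k10_pm_303 k11_pm_303

theorem s16_pm_303 : ∃ t, chk3 f_pm_303 t 7 3 1 = true := ex3_b s15_pm_303 s14_pm_303

theorem s17_pm_303 : ∃ t, chk3 f_pm_303 t 13 26 1 = true := ex3_b k6_pm_303 k7_pm_303

theorem s18_pm_303 : ∃ t, chk3 f_pm_303 t 13 13 1 = true := ex3_b s17_pm_303 k8_pm_303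

theorem s19_pm_303 : ∃ t, chk3 f_pm_303 t 13 25 1 = true := ex3_b k4_pm_303 k5_pm_303

theorem s20_pm_303 : ∃ t, chk3 f_pm_303 t 13 12 1 = true := ex3_b k3_pm_303 s19_pm_303

theorem s21_pm_303 : ∃ t, chk3 f_pm_303 t 13 6 1 = true := ex3_b s20_pm_303 s18_pm_303

theorem s22_pm_303 : ∃ t, chk3 f_pm_303 t 6 6 1 = true := ex3_a k2_pm_303 s21_pm_303

theorem s23_pm_303 : ∃ t, chk3 f_pm_303 t 6 3 1 = true := ex3_b s22_pm_303 k9_pm_303

theorem s24_pm_303 : ∃ t, chk3 f_pm_303 t 3 3 1 = true := ex3_a s23_pm_303 s16_pm_303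

theorem s25_pm_303 : ∃ t, chk3 f_pm_303 t 3 1 1 = true := ex3_b k1_pm_303 s24_pm_303

theorem s26_pm_303 : ∃ t, chk3 f_pm_303 t 1 1 1 = true := ex3_a k0_pm_303 s25_pm_303

theorem c_pm_303 : CertNX 0 1230186008 0 1230186008 1046898278 26843546 3 false true false .npn 3 0 3
    ndN5q3 ndN7q3 pcN0 Cut.none Ext.none :=
  certNX0 (fam := false) (s1 := true) (s2 := false) (a := 3) (b := 0) (c := 3) (cn := .npn) (n1 := ndN5q3) (n2 := ndN7q3) (pc := pcN0) (cut := Cut.none) (xt := Ext.none) (P1 := 0) (W1 := 1230186008) (P2 := 0) (W2 := 1230186008) (P3 := 1046898278) (W3 := 26843546) (N0 := 3)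
    rfl s26_pm_303

noncomputable def f_pm_313 : ℕ → ℕ → ℕ → ℕ → Bool := onCell 0 1230186008 0 1230186008 1046898278 26843546
    (rowNX 3 0 false true false .dn 3 1 3 (qsf 0 1230186008 0 1230186008 1) ndN5q3 ndN7q3 pcN1 Cut.none Ext.none)

def k0_pm_313 : ∃ t, chk3 f_pm_313 t 1 1 1 = true :=
  ⟨(a (l 1) (b (b (l 3) (l 1)) (l 1))), by decide +kernel⟩

theorem c_pm_313 : CertNX 0 1230186008 0 1230186008 1046898278 26843546 3 false true false .dn 3 1 3
    ndN5q3 ndN7q3 pcN1 Cut.none Ext.none :=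
  certNX0 (fam := false) (s1 := true) (s2 := false) (a := 3) (b := 1) (c := 3) (cn := .dn) (n1 := ndN5q3) (n2 := ndN7q3) (pc := pcN1) (cut := Cut.none) (xt := Ext.none) (P1 := 0) (W1 := 1230186008) (P2 := 0) (W2 := 1230186008) (P3 := 1046898278) (W3 := 26843546) (N0 := 3)
    rfl k0_pm_313

noncomputable def f_mm_001 : ℕ → ℕ → ℕ → ℕ → Bool := onCell 0 536870912 0 536870912 1046898278 26843546
    (rowNX 3 1 false false false .up 0 0 1 (qsf 0 536870912 536870912 536870912 0) ndN5q0 ndN7q1 pcN0 Cut.none Ext.none)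

def k0_mm_001 : ∃ t, chk3 f_mm_001 t 1 1 1 = true :=
  ⟨(l 3), by decide +kernel⟩

theorem c_mm_001 : CertNX 0 536870912 536870912 536870912 1046898278 26843546 3 false false false .up 0 0 1
    ndN5q0 ndN7q1 pcN0 Cut.none Ext.none :=
  certNX1 (fam := false) (s1 := false) (s2 := false) (a := 0) (b := 0) (c := 1) (cn := .up) (n1 := ndN5q0) (n2 := ndN7q1) (pc := pcN0) (cut := Cut.none) (xt := Ext.none) (P1 := 0) (W1 := 536870912) (P2 := 536870912) (W2 := 536870912) (P3 := 1046898278) (W3 := 26843546) (N0 := 3)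
    rfl (fun _ => rfl) k0_mm_001

noncomputable def f_mm_011 : ℕ → ℕ → ℕ → ℕ → Bool := onCell 0 536870912 536870912 536870912 1046898278 26843546
    (rowNX 3 1 false false false .pnn 0 1 1 (qsf 0 536870912 536870912 536870912 1) ndN5q0 ndN7q1 pcN1 Cut.none Ext.none)

def k0_mm_011 : ∃ t, chk3 f_mm_011 t 1 1 1 = true :=
  ⟨(l 5), by decide +kernel⟩

theorem c_mm_011 : CertNX 0 536870912 536870912 536870912 1046898278 26843546 3 false false false .pnn 0 1 1
    ndN5q0 ndN7q1 pcN1 Cut.none Ext.none :=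
  certNX1 (fam := false) (s1 := false) (s2 := false) (a := 0) (b := 1) (c := 1) (cn := .pnn) (n1 := ndN5q0) (n2 := ndN7q1) (pc := pcN1) (cut := Cut.none) (xt := Ext.none) (P1 := 0) (W1 := 536870912) (P2 := 536870912) (W2 := 536870912) (P3 := 1046898278) (W3 := 26843546) (N0 := 3)
    rfl (fun _ => rfl) k0_mm_011

noncomputable def f_mm_012 : ℕ → ℕ → ℕ → ℕ → Bool := onCell 0 536870912 1073741824 536870912 1046898278 26843546
    (rowNX 3 0 false false false .pnp 0 1 2 (qsf 0 536870912 1073741824 536870912 1) ndN5q0 ndN7q2 pcN1 Cut.none Ext.none)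

def k0_mm_012 : ∃ t, chk3 f_mm_012 t 1 1 1 = true :=
  ⟨(l 5), by decide +kernel⟩

theorem c_mm_012 : CertNX 0 536870912 1073741824 536870912 1046898278 26843546 3 false false false .pnp 0 1 2
    ndN5q0 ndN7q2 pcN1 Cut.none Ext.none :=
  certNX0 (fam := false) (s1 := false) (s2 := false) (a := 0) (b := 1) (c := 2) (cn := .pnp) (n1 := ndN5q0) (n2 := ndN7q2) (pc := pcN1) (cut := Cut.none) (xt := Ext.none) (P1 := 0) (W1 := 536870912) (P2 := 1073741824) (W2 := 536870912) (P3 := 1046898278) (W3 := 26843546) (N0 := 3)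
    rfl k0_mm_012

noncomputable def f_mm_022 : ℕ → ℕ → ℕ → ℕ → Bool := onCell 0 536870912 1073741824 536870912 1046898278 26843546
    (rowNX 3 0 false false false .pp 0 2 2 (qsf 0 536870912 1073741824 536870912 2) ndN5q0 ndN7q2 pcN2 Cut.none Ext.none)

def k0_mm_022 : ∃ t, chk3 f_mm_022 t 1 1 1 = true :=
  ⟨(l 5), by decide +kernel⟩

theorem c_mm_022 : CertNX 0 536870912 1073741824 536870912 1046898278 26843546 3 false false false .pp 0 2 2
    ndN5q0 ndN7q2 pcN2 Cut.none Ext.none :=
  certNX0 (fam := false) (s1 := false) (s2 := false) (a := 0) (b := 2) (c := 2) (cn := .pp) (n1 := ndN5q0) (n2 := ndN7q2) (pc := pcN2) (cut := Cut.none) (xt := Ext.none) (P1 := 0) (W1 := 536870912) (P2 := 1073741824) (W2 := 536870912) (P3 := 1046898278) (W3 := 26843546) (N0 := 3)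
    rfl k0_mm_022

noncomputable def f_mm_023 : ℕ → ℕ → ℕ → ℕ → Bool := onCell 0 536870912 0 1230186008 1046898278 26843546
    (rowNX 3 0 false false false .up 0 2 3 (qsf 0 536870912 0 1230186008 2) ndN5q0 ndN7q3 pcN2 Cut.none Ext.none)

def k0_mm_023 : ∃ t, chk3 f_mm_023 t 1 1 1 = true :=
  ⟨(l 5), by decide +kernel⟩

theorem c_mm_023 : CertNX 0 536870912 0 1230186008 1046898278 26843546 3 false false false .up 0 2 3
    ndN5q0 ndN7q3 pcN2 Cut.none Ext.none :=
  certNX0 (fam := false) (s1 := false) (s2 := false) (a := 0) (b := 2) (c := 3) (cn := .up) (n1 := ndN5q0) (n2 := ndN7q3) (pc := pcN2) (cut := Cut.none) (xt := Ext.none) (P1 := 0) (W1 := 536870912) (P2 := 0) (W2 := 1230186008) (P3 := 1046898278) (W3 := 26843546) (N0 := 3)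
    rfl k0_mm_023

noncomputable def f_mm_033 : ℕ → ℕ → ℕ → ℕ → Bool := onCell 0 536870912 0 1230186008 1046898278 26843546
    (rowNX 3 0 false false false .pnn 0 3 3 (qsf 0 536870912 0 1230186008 3) ndN5q0 ndN7q3 pcN3 Cut.none Ext.none)

def k0_mm_033 : ∃ t, chk3 f_mm_033 t 1 1 1 = true :=
  ⟨(l 5), by decide +kernel⟩

theorem c_mm_033 : CertNX 0 536870912 0 1230186008 1046898278 26843546 3 false false false .pnn 0 3 3
    ndN5q0 ndN7q3 pcN3 Cut.none Ext.none :=
  certNX0 (fam := false) (s1 := false) (s2 := false) (a := 0) (b := 3) (c := 3) (cn := .pnn) (n1 := ndN5q0) (n2 := ndN7q3) (pc := pcN3) (cut := Cut.none) (xt := Ext.none) (P1 := 0) (W1 := 536870912) (P2 := 0) (W2 := 1230186008) (P3 := 1046898278) (W3 := 26843546) (N0 := 3)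
    rfl k0_mm_033

noncomputable def f_mm_101 : ℕ → ℕ → ℕ → ℕ → Bool := onCell 536870912 469762048 536870912 536870912 1046898278 26843546
    (rowNX 3 0 false false false .npn 1 0 1 (qsf 536870912 469762048 536870912 536870912 0) ndN5q1 ndN7q1 pcN0 Cut.none Ext.none)

def k0_mm_101 : ∃ t, chk3 f_mm_101 t 1 1 1 = true :=
  ⟨(l 3), by decide +kernel⟩

theorem c_mm_101 : CertNX 536870912 469762048 536870912 536870912 1046898278 26843546 3 false false false .npn 1 0 1
    ndN5q1 ndN7q1 pcN0 Cut.none Ext.none :=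
  certNX0 (fam := false) (s1 := false) (s2 := false) (a := 1) (b := 0) (c := 1) (cn := .npn) (n1 := ndN5q1) (n2 := ndN7q1) (pc := pcN0) (cut := Cut.none) (xt := Ext.none) (P1 := 536870912) (W1 := 469762048) (P2 := 536870912) (W2 := 536870912) (P3 := 1046898278) (W3 := 26843546) (N0 := 3)
    rfl k0_mm_101

noncomputable def f_mm_102 : ℕ → ℕ → ℕ → ℕ → Bool := onCell 536870912 469762048 1073741824 536870912 1046898278 26843546
    (rowNX 3 0 false false false .npp 1 0 2 (qsf 536870912 469762048 1073741824 536870912 0) ndN5q1 ndN7q2 pcN0 Cut.none Ext.none)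

def k0_mm_102 : ∃ t, chk3 f_mm_102 t 1 1 1 = true :=
  ⟨(l 3), by decide +kernel⟩

theorem c_mm_102 : CertNX 536870912 469762048 1073741824 536870912 1046898278 26843546 3 false false false .npp 1 0 2
    ndN5q1 ndN7q2 pcN0 Cut.none Ext.none :=
  certNX0 (fam := false) (s1 := false) (s2 := false) (a := 1) (b := 0) (c := 2) (cn := .npp) (n1 := ndN5q1) (n2 := ndN7q2) (pc := pcN0) (cut := Cut.none) (xt := Ext.none) (P1 := 536870912) (W1 := 469762048) (P2 := 1073741824) (W2 := 536870912) (P3 := 1046898278) (W3 := 26843546) (N0 := 3)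
    rfl k0_mm_102

noncomputable def f_mm_112 : ℕ → ℕ → ℕ → ℕ → Bool := onCell 536870912 469762048 1073741824 536870912 1046898278 26843546
    (rowNX 3 0 false false false .dn 1 1 2 (qsf 536870912 469762048 1073741824 536870912 1) ndN5q1 ndN7q2 pcN1 Cut.none Ext.none)

def k0_mm_112 : ∃ t, chk3 f_mm_112 t 1 1 1 = true :=
  ⟨(l 3), by decide +kernel⟩

theorem c_mm_112 : CertNX 536870912 469762048 1073741824 536870912 1046898278 26843546 3 false false false .dn 1 1 2
    ndN5q1 ndN7q2 pcN1 Cut.none Ext.none :=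
  certNX0 (fam := false) (s1 := false) (s2 := false) (a := 1) (b := 1) (c := 2) (cn := .dn) (n1 := ndN5q1) (n2 := ndN7q2) (pc := pcN1) (cut := Cut.none) (xt := Ext.none) (P1 := 536870912) (W1 := 469762048) (P2 := 1073741824) (W2 := 536870912) (P3 := 1046898278) (W3 := 26843546) (N0 := 3)
    rfl k0_mm_112

noncomputable def f_mm_113 : ℕ → ℕ → ℕ → ℕ → Bool := onCell 536870912 469762048 0 1230186008 1046898278 26843546
    (rowNX 3 0 false false false .nn 1 1 3 (qsf 536870912 469762048 0 1230186008 1) ndN5q1 ndN7q3 pcN1 Cut.none Ext.none)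

def k0_mm_113 : ∃ t, chk3 f_mm_113 t 1 1 1 = true :=
  ⟨(l 5), by decide +kernel⟩

theorem c_mm_113 : CertNX 536870912 469762048 0 1230186008 1046898278 26843546 3 false false false .nn 1 1 3
    ndN5q1 ndN7q3 pcN1 Cut.none Ext.none :=
  certNX0 (fam := false) (s1 := false) (s2 := false) (a := 1) (b := 1) (c := 3) (cn := .nn) (n1 := ndN5q1) (n2 := ndN7q3) (pc := pcN1) (cut := Cut.none) (xt := Ext.none) (P1 := 536870912) (W1 := 469762048) (P2 := 0) (W2 := 1230186008) (P3 := 1046898278) (W3 := 26843546) (N0 := 3)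
    rfl k0_mm_113

noncomputable def f_mm_123 : ℕ → ℕ → ℕ → ℕ → Bool := onCell 536870912 469762048 0 1230186008 1046898278 26843546
    (rowNX 3 0 false false false .npn 1 2 3 (qsf 536870912 469762048 0 1230186008 2) ndN5q1 ndN7q3 pcN2 Cut.none Ext.none)

def k0_mm_123 : ∃ t, chk3 f_mm_123 t 1 1 1 = true :=
  ⟨(l 5), by decide +kernel⟩

theorem c_mm_123 : CertNX 536870912 469762048 0 1230186008 1046898278 26843546 3 false false false .npn 1 2 3
    ndN5q1 ndN7q3 pcN2 Cut.none Ext.none :=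
  certNX0 (fam := false) (s1 := false) (s2 := false) (a := 1) (b := 2) (c := 3) (cn := .npn) (n1 := ndN5q1) (n2 := ndN7q3) (pc := pcN2) (cut := Cut.none) (xt := Ext.none) (P1 := 536870912) (W1 := 469762048) (P2 := 0) (W2 := 1230186008) (P3 := 1046898278) (W3 := 26843546) (N0 := 3)
    rfl k0_mm_123

noncomputable def f_mm_133 : ℕ → ℕ → ℕ → ℕ → Bool := onCell 536870912 469762048 0 1230186008 1046898278 26843546
    (rowNX 3 0 false false false .dn 1 3 3 (qsf 536870912 469762048 0 1230186008 3) ndN5q1 ndN7q3 pcN3 Cut.none Ext.none)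

def k0_mm_133 : ∃ t, chk3 f_mm_133 t 1 1 1 = true :=
  ⟨(l 5), by decide +kernel⟩

theorem c_mm_133 : CertNX 536870912 469762048 0 1230186008 1046898278 26843546 3 false false false .dn 1 3 3
    ndN5q1 ndN7q3 pcN3 Cut.none Ext.none :=
  certNX0 (fam := false) (s1 := false) (s2 := false) (a := 1) (b := 3) (c := 3) (cn := .dn) (n1 := ndN5q1) (n2 := ndN7q3) (pc := pcN3) (cut := Cut.none) (xt := Ext.none) (P1 := 536870912) (W1 := 469762048) (P2 := 0) (W2 := 1230186008) (P3 := 1046898278) (W3 := 26843546) (N0 := 3)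
    rfl k0_mm_133

noncomputable def f_mm_202 : ℕ → ℕ → ℕ → ℕ → Bool := onCell 1073741824 536870912 1073741824 536870912 1046898278 26843546
    (rowNX 3 0 false false false .pp 2 0 2 (qsf 1073741824 536870912 1073741824 536870912 0) ndN5q2 ndN7q2 pcN0 Cut.none Ext.none)

def k0_mm_202 : ∃ t, chk3 f_mm_202 t 1 1 1 = true :=
  ⟨(a (l 3) (b (a (l 3) (l 1)) (l 3))), by decide +kernel⟩

theorem c_mm_202 : CertNX 1073741824 536870912 1073741824 536870912 1046898278 26843546 3 false false false .pp 2 0 2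
    ndN5q2 ndN7q2 pcN0 Cut.none Ext.none :=
  certNX0 (fam := false) (s1 := false) (s2 := false) (a := 2) (b := 0) (c := 2) (cn := .pp) (n1 := ndN5q2) (n2 := ndN7q2) (pc := pcN0) (cut := Cut.none) (xt := Ext.none) (P1 := 1073741824) (W1 := 536870912) (P2 := 1073741824) (W2 := 536870912) (P3 := 1046898278) (W3 := 26843546) (N0 := 3)
    rfl k0_mm_202

noncomputable def f_mm_203 : ℕ → ℕ → ℕ → ℕ → Bool := onCell 1073741824 536870912 0 1230186008 1046898278 26843546
    (rowNX 3 0 false false false .up 2 0 3 (qsf 1073741824 536870912 0 1230186008 0) ndN5q2 ndN7q3 pcN0 Cut.none Ext.none)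

def k0_mm_203 : ∃ t, chk3 f_mm_203 t 1 1 1 = true :=
  ⟨(b (l 5) (l 3)), by decide +kernel⟩

theorem c_mm_203 : CertNX 1073741824 536870912 0 1230186008 1046898278 26843546 3 false false false .up 2 0 3
    ndN5q2 ndN7q3 pcN0 Cut.none Ext.none :=
  certNX0 (fam := false) (s1 := false) (s2 := false) (a := 2) (b := 0) (c := 3) (cn := .up) (n1 := ndN5q2) (n2 := ndN7q3) (pc := pcN0) (cut := Cut.none) (xt := Ext.none) (P1 := 1073741824) (W1 := 536870912) (P2 := 0) (W2 := 1230186008) (P3 := 1046898278) (W3 := 26843546) (N0 := 3)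
    rfl k0_mm_203

noncomputable def f_mm_213 : ℕ → ℕ → ℕ → ℕ → Bool := onCell 1073741824 536870912 0 1230186008 1046898278 26843546
    (rowNX 3 0 false false false .pnn 2 1 3 (qsf 1073741824 536870912 0 1230186008 1) ndN5q2 ndN7q3 pcN1 Cut.none Ext.none)

def k0_mm_213 : ∃ t, chk3 f_mm_213 t 1 1 1 = true :=
  ⟨(b (l 5) (l 3)), by decide +kernel⟩

theorem c_mm_213 : CertNX 1073741824 536870912 0 1230186008 1046898278 26843546 3 false false false .pnn 2 1 3
    ndN5q2 ndN7q3 pcN1 Cut.none Ext.none :=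
  certNX0 (fam := false) (s1 := false) (s2 := false) (a := 2) (b := 1) (c := 3) (cn := .pnn) (n1 := ndN5q2) (n2 := ndN7q3) (pc := pcN1) (cut := Cut.none) (xt := Ext.none) (P1 := 1073741824) (W1 := 536870912) (P2 := 0) (W2 := 1230186008) (P3 := 1046898278) (W3 := 26843546) (N0 := 3)
    rfl k0_mm_213

noncomputable def f_mm_303 : ℕ → ℕ → ℕ → ℕ → Bool := onCell 0 1230186008 0 1230186008 1046898278 26843546
    (rowNX 3 0 false false false .npn 3 0 3 (qsf 0 1230186008 0 1230186008 0) ndN5q3 ndN7q3 pcN0 Cut.none Ext.none)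

def k0_mm_303 : ∃ t, chk3 f_mm_303 t 1 1 1 = true :=
  ⟨(a (b (l 3) (b (l 3) (l 1))) (b (l 3) (a (b (l 3) (a (l 1) (l 3))) (l 3)))), by decide +kernel⟩

theorem c_mm_303 : CertNX 0 1230186008 0 1230186008 1046898278 26843546 3 false false false .npn 3 0 3
    ndN5q3 ndN7q3 pcN0 Cut.none Ext.none :=
  certNX0 (fam := false) (s1 := false) (s2 := false) (a := 3) (b := 0) (c := 3) (cn := .npn) (n1 := ndN5q3) (n2 := ndN7q3) (pc := pcN0) (cut := Cut.none) (xt := Ext.none) (P1 := 0) (W1 := 1230186008) (P2 := 0) (W2 := 1230186008) (P3 := 1046898278) (W3 := 26843546) (N0 := 3)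
    rfl k0_mm_303

noncomputable def f_mm_313 : ℕ → ℕ → ℕ → ℕ → Bool := onCell 0 1230186008 0 1230186008 1046898278 26843546
    (rowNX 3 0 false false false .dn 3 1 3 (qsf 0 1230186008 0 1230186008 1) ndN5q3 ndN7q3 pcN1 Cut.none Ext.none)

def k0_mm_313 : ∃ t, chk3 f_mm_313 t 1 1 1 = true :=
  ⟨(a (l 1) (b (l 3) (l 1))), by decide +kernel⟩

theorem c_mm_313 : CertNX 0 1230186008 0 1230186008 1046898278 26843546 3 false false false .dn 3 1 3
    ndN5q3 ndN7q3 pcN1 Cut.none Ext.none :=
  certNX0 (fam := false) (s1 := false) (s2 := false) (a := 3) (b := 1) (c := 3) (cn := .dn) (n1 := ndN5q3) (n2 := ndN7q3) (pc := pcN1) (cut := Cut.none) (xt := Ext.none) (P1 := 0) (W1 := 1230186008) (P2 := 0) (W2 := 1230186008) (P3 := 1046898278) (W3 := 26843546) (N0 := 3)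
    rfl k0_mm_313

end Pool.Agent.Strip051.G.IE1.Tab.C.NB57

namespace Pool.Agent.Strip051.G.IE1.Tab.C.NB60

open Pool.Agent.Strip051.PB Pool.Agent.Strip051.PB.T
open Pool.Agent.Strip051.G.IE1.Tab

noncomputable def f_pp_001 : ℕ → ℕ → ℕ → ℕ → Bool := onCell 0 536870912 536870912 536870912 1046898278 26843546
    (rowNX 3 2 false true true .up 0 0 1 (qsf 0 536870912 536870912 536870912 0) ndN6q0 ndN0q1 pcN0 Cut.none Ext.none)

def k0_pp_001 : ∃ t, chk3 f_pp_001 t 1 1 1 = true :=
  ⟨(b (l 3) (b (a (l 3) (a (l 3) (a (l 3) (b (l 3) (b (l 3) (c (l 270750580119) (l 207936682199))))))) (a (l 2) (b (a (b (b (l 3) (l 2)) (l 2)) (a (b (c (a (l 203104145287) (l 16440056)) (a (l 16431128) (l 16515016))) (c (a (l 16207000) (l 16207000)) (l 245449132967))) (b (c (a (l 16502968) (l 16523936)) (l 147806418263)) (c (a (l 16207000) (l 16207000)) (l 16186912))))) (a (l 2) (a (a (l 2) (b (b (l 15888384) (l 2)) (l 2))) (b (c (b (l 15903792) (c (l 15677096) (l 15633576))) (a (l 15737344) (l 15737344)))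 (b (c (c (l 15544984) (l 15525640)) (l 15487024)) (c (l 15447504) (l 184244035239)))))))))), by decide +kernel⟩

theorem c_pp_001 : CertNX 0 536870912 536870912 536870912 1046898278 26843546 3 false true true .up 0 0 1
    ndN6q0 ndN0q1 pcN0 Cut.none Ext.none :=
  certNX2 (fam := false) (s1 := true) (s2 := true) (a := 0) (b := 0) (c := 1) (cn := .up) (n1 := ndN6q0) (n2 := ndN0q1) (pc := pcN0) (cut := Cut.none) (xt := Ext.none) (P1 := 0) (W1 := 536870912) (P2 := 536870912) (W2 := 536870912) (P3 := 1046898278) (W3 := 26843546) (N0 := 3)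
    rfl (fun _ => rfl) k0_pp_001

noncomputable def f_pp_011 : ℕ → ℕ → ℕ → ℕ → Bool := onCell 0 536870912 536870912 536870912 1046898278 26843546
    (rowNX 3 0 false true true .pnn 0 1 1 (qsf 0 536870912 536870912 536870912 1) ndN6q0 ndN0q1 pcN1 Cut.none Ext.none)

def k0_pp_011 : ∃ t, chk3 f_pp_011 t 1 2 1 = true :=
  ⟨(a (l 3) (l 3)), by decide +kernel⟩

def k1_pp_011 : ∃ t, chk3 f_pp_011 t 4 6 1 = true :=
  ⟨(b (b (l 3) (b (l 3) (a (a (a (c (a (c (l 15682960) (l 15674784)) (c (a (l 186459668727) (l 15741320)) (a (l 15706976) (l 15708448)))) (a (c (a (l 15650656) (c (l 15679216) (l 15667096))) (a (c (l 15641272) (a (l 15629656) (l 15638288))) (l 15654392))) (c (l 202028803735) (l 15685992)))) (c (a (c (a (l 15737464) (l 163911138295)) (l 15709800)) (l 158542447447)) (l 189680888007))) (c (a (c (l 15843752) (l 15849056)) (c (l 110224379191) (l 15932776))) (l 161763804887))) (a (c (a (l 15997952) (l 3)) (l 15989160)) (l 3))))) (a (a (a (c (b (a (c (l 15667840) (l 15658072))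 (c (a (l 15656168) (l 15731224)) (a (l 15693712) (l 15697240)))) (a (b (l 15632552) (l 15557104)) (a (b (l 15678728) (l 15625744)) (c (l 15688248) (l 15647792))))) (b (a (c (a (l 15630944) (c (l 15662568) (l 15649680))) (a (c (l 15620264) (a (l 15606984) (l 15617152))) (l 15635840))) (c (a (l 15667728) (l 15687064)) (l 15671344))) (a (b (c (l 15563768) (a (l 15531560) (l 15597680))) (c (a (l 15491808) (l 15541856)) (a (c (l 15468656) (l 15452488)) (l 15508408)))) (c (b (l 15650104) (l 15587552)) (l 15603816))))) (c (a (b (c (a (l 15729080) (l 15670840)) (l 15722328)) (c (l 15695248) (l 15678896))) (b (c (l 15763408) (l 15773328)) (l 15543560))) (b (c (l 15748976) (l 15737656)) (l 15694064)))) (b (c (a (c (l 15841744) (l 15783864)) (c (a (l 15918704) (l 15964224)) (l 15932344))) (a (l 15830208) (l 15910176))) (b (c (a (l 15834168) (l 15910680)) (l 15860920)) (c (a (l 15798808) (l 15899760)) (l 15817784))))) (a (b (c (c (l 222967527367) (l 16009288)) (a (l 15970320) (l 16009840)))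 (c (b (l 16015808) (l 15987432)) (b (l 15988560) (l 15953360)))) (b (c (l 204177220071) (l 16092488)) (b (l 16104120) (l 16031464)))))), by decide +kernel⟩

def k2_pp_011 : ∃ t, chk3 f_pp_011 t 5 6 1 = true :=
  ⟨(b (l 3) (a (b (c (a (b (l 16260448) (l 16260448)) (l 167133756439)) (a (l 210083048055) (l 16382400))) (a (b (l 16251392) (l 16220240)) (c (b (l 16456568) (l 16427144)) (l 16407216)))) (b (a (c (l 156396933175) (l 16643576)) (c (l 146733514455) (l 16756080))) (a (b (c (l 16668368) (l 16664544)) (c (l 16637528) (l 16630136))) (b (l 16756088) (l 16742072)))))), by decide +kernel⟩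

def k3_pp_011 : ∃ t, chk3 f_pp_011 t 3 6 1 = true :=
  ⟨(b (l 3) (b (a (l 3) (l 1)) (b (a (a (c (l 16777216) (l 16777216)) (l 3)) (l 1)) (a (a (c (l 16742824) (a (l 16741616) (l 16741616))) (c (l 139754137879) (l 138680395271))) (a (c (l 461205596599) (l 301754934791)) (l 1)))))), by decide +kernel⟩

def k4_pp_011 : ∃ t, chk3 f_pp_011 t 4 14 1 = true :=
  ⟨(a (b (a (a (c (a (l 15252744) (b (a (l 15445560) (l 15364720)) (c (l 15338040) (l 15231872)))) (a (c (a (l 15083152) (l 15158320)) (a (c (l 15013088) (l 14965456)) (l 15067400))) (b (c (l 15374944) (l 15326512)) (l 15082408)))) (c (b (a (c (l 15549088) (l 15506424)) (l 15591920)) (a (l 15364280) (l 15445808))) (b (l 15429992) (l 15275256)))) (a (b (c (l 15683552) (l 15622592)) (c (b (l 15593208) (l 15529720)) (l 15453400))) (c (c (l 15745176) (l 15708064)) (l 15641832)))) (a (a (c (a (l 14976896) (c (l 15179440) (l 14993080))) (a (c (l 14649512) (a (l 14366160) (l 14480096))) (l 14721312))) (c (a (l 15164424) (l 15246648))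 (l 14955000))) (a (c (l 15370872) (l 15180648)) (c (l 15492032) (l 15330328))))) (a (b (c (a (l 15793688) (l 15832800)) (l 15737832)) (a (l 15489032) (l 15527288))) (b (b (l 15946208) (l 15807928)) (b (l 15667632) (l 15528624))))), by decide +kernel⟩

def k5_pp_011 : ∃ t, chk3 f_pp_011 t 4 15 1 = true :=
  ⟨(a (a (b (a (b (c (a (l 14988960) (l 14993152)) (a (c (l 14380944) (l 13886656)) (l 14392808))) (c (a (l 15263960) (c (l 15226632) (l 14813328))) (a (c (l 14329096) (a (l 13593528) (l 13776672))) (l 14215496)))) (c (b (l 15054080) (c (l 15087536) (l 14837280))) (l 14569216))) (c (a (b (a (c (l 15158336) (l 15121200)) (c (b (l 15283584) (l 15132112)) (c (l 15112080) (l 14886992)))) (a (l 14791720) (c (l 14901464) (a (l 14862760) (l 14905632))))) (b (c (b (l 15113960) (l 15116784)) (l 14907440)) (a (c (l 14982024) (l 14959752)) (l 15082200)))) (a (b (a (c (l 14705304) (a (l 13631688) (l 13814896))) (l 14323224)) (c (a (b (a (l 14849176) (l 14767792)) (l 14570392)) (b (l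 14744408) (l 14660712))) (a (c (b (l 14767592) (a (l 14673368) (l 14586400))) (a (b (l 13570792) (l 14507680)) (l 14366832))) (b (l 14449120) (l 14386992))))) (b (l 14615128) (b (c (l 14928704) (l 14880168)) (c (l 14920528) (l 14881336))))))) (b (c (b (l 15237056) (a (l 15020552) (l 15115720))) (l 14920704)) (c (b (c (b (l 15166960) (l 15193240)) (a (l 15031640) (l 15141120))) (a (l 15176816) (l 15298056))) (b (l 14968592) (b (c (l 15216600) (l 15205408)) (c (l 15136608) (l 15110456))))))) (b (a (b (a (l 15261960) (l 15288064)) (c (l 15176992) (l 15024968))) (b (l 15339992) (l 15096656))) (a (c (b (c (l 15255248) (l 15194064)) (l 15364328)) (b (l 15091968) (b (l 15232768) (c (l 15413504) (l 15400992))))) (b (c (b (l 15193216) (l 15195792)) (l 15057576)) (c (l 15273736) (b (l 15120952) (l 15227776))))))), by decide +kernel⟩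

def k6_pp_011 : ∃ t, chk3 f_pp_011 t 5 7 1 = true :=
  ⟨(b (a (b (a (c (l 16042608) (l 15992024)) (l 16209472)) (b (a (l 15795216) (l 15977784)) (l 15731752))) (b (a (c (l 16424928) (l 16405656)) (c (l 16523800) (l 16514864))) (a (l 16094536) (c (l 16206864) (l 16186760))))) (b (a (b (l 15520760) (l 15012992)) (b (l 15838112) (l 15557448))) (a (b (c (b (l 15280072) (l 15181336)) (l 15159784)) (c (a (l 15209992) (l 15273328)) (b (a (l 15079184) (l 15183592)) (a (c (l 15144304) (l 15092008)) (l 15188624))))) (b (c (a (l 15436856) (l 15462024)) (l 15437520)) (c (l 15332296) (a (b (l 15318784) (l 15306120)) (l 15395272))))))), by decide +kernel⟩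

def k7_pp_011 : ∃ t, chk3 f_pp_011 t 3 7 1 = true :=
  ⟨(a (b (c (b (a (a (l 16523936) (l 16523936)) (b (l 16601104) (l 16447320))) (a (l 16207000) (c (l 16211960) (l 16202048)))) (a (b (a (l 16515016) (l 16515016)) (l 16186912)) (b (b (l 16594904) (l 16435696)) (a (l 16186912) (l 16186912))))) (b (a (b (l 15888384) (l 15607488)) (b (c (b (l 15973048) (l 15834968)) (l 15873040)) (l 15607488))) (b (c (c (l 15293320) (l 15525640)) (l 15487024)) (c (l 15447504) (b (l 15407176) (l 15250208)))))) (b (a (b (c (b (l 192232834055) (l 16447320)) (b (l 16573936) (l 16435696))) (c (b (l 16288904) (l 16125960)) (c (l 16192008) (l 16181832)))) (b (l 1) (c (l 782252986759) (l 746819455911)))) (b (a (b (c (a (l 15903792) (l 15903792)) (l 15873040)) (l 15607488)) (c (b (l 15903792) (b (l 15695040) (l 15592112))) (b (l 15873040) (l 162702844343)))) (b (c (c (b (l 15584616) (l 15531080)) (l 15525640)) (l 15487024)) (c (l 15447504) (b (l 15407176) (l 15229232))))))), by decide +kernel⟩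

theorem s8_pp_011 : ∃ t, chk3 f_pp_011 t 4 7 1 = true := ex3_b k4_pp_011 k5_pp_011

theorem s9_pp_011 : ∃ t, chk3 f_pp_011 t 2 7 1 = true := ex3_a s8_pp_011 k6_pp_011

theorem s10_pp_011 : ∃ t, chk3 f_pp_011 t 1 7 1 = true := ex3_a s9_pp_011 k7_pp_011

theorem s11_pp_011 : ∃ t, chk3 f_pp_011 t 2 6 1 = true := ex3_a k1_pp_011 k2_pp_011

theorem s12_pp_011 : ∃ t, chk3 f_pp_011 t 1 6 1 = true := ex3_a s11_pp_011 k3_pp_011

theorem s13_pp_011 : ∃ t, chk3 f_pp_011 t 1 3 1 = true := ex3_b s12_pp_011 s10_pp_011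

theorem s14_pp_011 : ∃ t, chk3 f_pp_011 t 1 1 1 = true := ex3_b k0_pp_011 s13_pp_011

theorem c_pp_011 : CertNX 0 536870912 536870912 536870912 1046898278 26843546 3 false true true .pnn 0 1 1
    ndN6q0 ndN0q1 pcN1 Cut.none Ext.none :=
  certNX0 (fam := false) (s1 := true) (s2 := true) (a := 0) (b := 1) (c := 1) (cn := .pnn) (n1 := ndN6q0) (n2 := ndN0q1) (pc := pcN1) (cut := Cut.none) (xt := Ext.none) (P1 := 0) (W1 := 536870912) (P2 := 536870912) (W2 := 536870912) (P3 := 1046898278) (W3 := 26843546) (N0 := 3)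
    rfl s14_pp_011

noncomputable def f_pp_012 : ℕ → ℕ → ℕ → ℕ → Bool := onCell 536870912 536870912 0 536870912 1046898278 26843546
    (rowNX 3 2 false true true .pnp 0 1 2 (qsf 0 536870912 0 536870912 1) ndN6q0 ndN0q2 pcN1 Cut.none Ext.none)

def k0_pp_012 : ∃ t, chk3 f_pp_012 t 2 1 1 = true :=
  ⟨(b (a (b (l 2) (b (l 2) (l 16777216))) (b (b (b (l 16754848) (l 16777216)) (l 16777216)) (l 16777216))) (b (b (l 16777216) (b (l 16709592) (a (l 16516872) (l 16516872)))) (b (a (b (l 16299392) (l 16006360)) (b (l 16299392) (l 16006360))) (b (a (c (l 70964972439) (l 15647568)) (a (l 15540880) (l 15498936))) (b (c (a (l 15548968) (l 15528000)) (a (l 15508592) (l 15508592))) (c (l 15451960) (a (c (l 15420544) (l 15392720)) (c (l 15420544) (l 15392720))))))))), by decide +kernel⟩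

def k1_pp_012 : ∃ t, chk3 f_pp_012 t 12 2 1 = true :=
  ⟨(b (a (b (b (l 16726408) (l 16776616)) (l 16776864)) (b (b (l 16059840) (a (l 16557008) (c (l 16294784) (l 16170784)))) (a (l 16658552) (b (c (l 16438560) (l 16443488)) (l 16520240))))) (a (l 16777008) (l 16633240))), by decide +kernel⟩

def k2_pp_012 : ∃ t, chk3 f_pp_012 t 26 4 1 = true :=
  ⟨(b (b (b (l 15045552) (l 15209408)) (a (b (l 15612768) (b (c (b (l 15750464) (l 15581032)) (a (l 15846936) (l 15685560))) (a (l 16172656) (c (a (l 16174080) (l 16115272)) (b (l 15991192) (l 16182824)))))) (b (b (l 15109808) (b (l 15191880) (a (l 15315080) (c (l 15211752) (l 15155520))))) (b (b (c (a (l 15500656) (l 15431112)) (l 15404304)) (c (a (l 15802080) (c (l 15770480) (l 15762080))) (l 15790968))) (b (a (c (c (l 15954264) (l 15970568)) (l 15963304)) (c (b (l 15980080) (l 16020432)) (l 15965528))) (c (a (c (l 16120000) (l 16099096)) (l 16019896)) (a (l 16101872) (l 16013544)))))))) (a (b (b (a (c (l 16266248) (l 16273480))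 (a (c (l 16258624) (l 16189600)) (l 16246800))) (l 16330592)) (l 16352408)) (l 16160400))), by decide +kernel⟩

def k3_pp_012 : ∃ t, chk3 f_pp_012 t 27 4 1 = true :=
  ⟨(b (b (b (a (l 14248000) (l 13994328)) (l 14307808)) (b (b (a (l 14671312) (a (l 14395512) (b (l 14181192) (b (l 14214336) (l 14114704))))) (b (b (a (l 14758984) (a (l 14512920) (l 14390624))) (a (a (a (l 14941832) (l 14857104)) (l 14741488)) (a (l 14630936) (l 14623096)))) (a (a (c (l 14918088) (l 15003816)) (c (l 15018000) (l 14953968))) (a (c (a (l 14990648) (l 15069528)) (l 14924280)) (c (c (b (l 14985280) (l 15081792)) (l 15011736)) (l 14962168)))))) (b (b (a (a (b (l 15289936) (c (l 15444576) (l 15443544))) (c (b (l 15385720) (l 15494992)) (l 15383496))) (c (c (a (b (l 15293760) (l 15471240)) (l 15313176)) (a (l 15431136) (a (l 15317040) (l 15259480)))) (a (l 15394544) (c (l 15259936) (l 15254120))))) (a (a (c (b (l 15455760) (a (l 15790816) (l 15632440))) (l 15586600)) (c (c (c (l 15728152) (l 15683256))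 (l 15682368)) (l 15675176))) (b (a (c (l 15525688) (l 15496704)) (l 15370824)) (l 15480392)))) (a (a (b (c (l 15803544) (l 15800160)) (l 15970528)) (l 15799112)) (l 15493032))))) (l 15766248)), by decide +kernel⟩

def k4_pp_012 : ∃ t, chk3 f_pp_012 t 13 5 1 = true :=
  ⟨(a (l 16355296) (b (l 15904584) (l 16045232))), by decide +kernel⟩

def k5_pp_012 : ∃ t, chk3 f_pp_012 t 14 16 1 = true :=
  ⟨(a (a (l 13782640) (a (l 13565616) (a (l 13479472) (a (l 13477320) (b (l 13501472) (b (l 13478776) (b (l 13456504) (b (l 13445352) (l 13464552))))))))) (b (c (b (a (l 13298688) (c (a (l 13557744) (l 13525568)) (l 13467480))) (a (l 13582488) (c (l 13655072) (l 13591024)))) (b (l 13378848) (l 13465008))) (b (c (a (l 13597752) (l 13745080)) (l 13541536)) (a (b (l 13547464) (c (c (a (l 13673568) (b (l 13805040) (l 14027776))) (a (b (l 13545296) (l 13608456)) (l 13766848))) (a (a (l 13467080) (l 13541504)) (b (l 13611168) (l 13781680))))) (c (a (b (l 13656184) (a (b (l 13863112) (l 14057576))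 (l 14080920))) (c (l 14087936) (l 13939072))) (b (a (l 13756592) (l 13828688)) (a (b (l 13771856) (a (l 13960264) (l 14040264))) (l 13995352)))))))), by decide +kernel⟩

def k6_pp_012 : ∃ t, chk3 f_pp_012 t 14 68 1 = true :=
  ⟨(a (b (a (a (l 13982512) (b (l 13765400) (a (l 13827392) (l 13750928)))) (a (c (b (l 13625480) (l 13706456)) (l 13579040)) (b (c (a (l 13501456) (l 13602600)) (l 13451112)) (a (l 13686224) (l 13833160))))) (b (c (a (a (l 14088128) (l 13948672)) (a (l 13961728) (a (l 14114200) (l 14189888)))) (a (l 13939472) (a (l 13862344) (l 14022824)))) (a (c (a (l 14189680) (l 14196712)) (l 14094952)) (a (c (c (l 14331192) (l 14297480)) (l 14205664)) (c (a (l 14265088) (b (l 14388248) (l 14440960))) (a (l 14248736) (l 14345824))))))) (a (b (a (c (c (b (l 13882936) (a (l 14126768) (l 14178760))) (b (l 13816928) (l 14093184))) (b (l 13739984) (l 14005208))) (c (c (a (b (l 14111672) (l 14280752)) (l 14204448)) (a (b (l 14061968) (l 14250680)) (b (l 14119216) (l 14227776))))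 (a (b (l 13940800) (l 14189080)) (b (l 14057576) (l 14176408))))) (a (c (b (a (b (l 14238560) (l 14354048)) (c (l 14366992) (l 14309592))) (l 14372024)) (a (b (l 14253024) (l 14328672)) (b (l 14263944) (l 14335112)))) (c (l 14296352) (a (b (l 14237784) (l 14285600)) (l 14231720))))) (a (c (c (l 14168712) (l 13923144)) (a (l 13886064) (l 14061272))) (l 14098024)))), by decide +kernel⟩

def k7_pp_012 : ∃ t, chk3 f_pp_012 t 14 69 1 = true :=
  ⟨(a (b (c (a (a (b (l 14429272) (l 14748056)) (a (b (l 14530616) (l 14693464)) (b (l 14526072) (l 14622984)))) (a (c (b (a (l 14485232) (l 14545480)) (l 14659200)) (b (l 14555800) (l 14604920))) (l 14475640))) (a (a (l 14470256) (b (l 14373344) (l 14711872))) (a (b (l 14497200) (l 14577480)) (b (a (l 14422688) (l 14392504)) (l 14475968))))) (a (c (c (a (b (l 14866160) (l 15097744)) (l 14882472)) (a (b (l 14879696) (l 15046536)) (b (l 14827328) (l 14878560)))) (c (a (l 14987896) (b (l 14820104) (l 14871936))) (a (l 14960456) (l 14809760))))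 (l 14616888))) (l 14275728)), by decide +kernel⟩

def k8_pp_012 : ∃ t, chk3 f_pp_012 t 14 35 1 = true :=
  ⟨(a (a (a (b (b (b (c (l 15099824) (l 15062168)) (l 15154096)) (l 15163224)) (l 15181504)) (l 14957568)) (l 14655424)) (l 14323944)), by decide +kernel⟩

def k9_pp_012 : ∃ t, chk3 f_pp_012 t 14 9 1 = true :=
  ⟨(a (l 15003192) (l 14492368)), by decide +kernel⟩

def k10_pp_012 : ∃ t, chk3 f_pp_012 t 14 5 1 = true :=
  ⟨(a (b (l 15233936) (l 15473472)) (b (l 14779488) (l 15109000))), by decide +kernel⟩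

def k11_pp_012 : ∃ t, chk3 f_pp_012 t 15 2 1 = true :=
  ⟨(b (b (b (a (c (a (a (c (b (l 13616784) (b (l 13870080) (l 14017016))) (b (b (l 13415368) (l 13601152)) (b (l 13831336) (l 13980432)))) (c (b (l 13520840) (l 13860104)) (b (b (l 13255400) (l 13543376)) (b (l 13790896) (l 13877720))))) (c (b (l 13382648) (l 13625472)) (c (b (l 13388248) (l 13661904)) (a (b (l 13435600) (l 13729696)) (l 13439616))))) (a (b (l 13422240) (a (l 13885696) (l 13773880))) (c (b (c (a (c (l 13405560) (l 13368720)) (c (l 13349968) (l 13329584))) (l 13317208)) (c (a (l 13702848) (l 13593416)) (l 13621104))) (b (l 13269296) (l 13581048))))) (a (c (a (c (l 13365200) (l 13418016)) (c (l 13224896) (l 13254392))) (c (c (a (l 13448536) (l 13292320)) (a (b (c (l 13336944) (l 13318016)) (l 13456312)) (l 13307200))) (a (l 13390904) (c (a (l 13257648) (a (l 13277640) (l 13123496))) (l 13262392))))) (b (c (a (l 13107640) (l 13094336)) (c (a (l 13117832) (l 13020392)) (c (a (c (l 13142432) (a (l 13176080)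 (l 13108968))) (l 13002944)) (a (l 13123512) (c (l 12999136) (a (l 13025648) (l 12962576))))))) (l 13165488)))) (a (l 13866872) (a (l 13462664) (l 13295920)))) (a (l 14103600) (a (l 13733376) (b (l 13478072) (l 13669240))))) (a (b (l 14450016) (c (l 14861320) (l 14823128))) (c (a (b (l 14145896) (l 14572288)) (b (l 13979384) (l 14401840))) (a (l 14359888) (b (l 13945800) (l 14365952)))))), by decide +kernel⟩

def k12_pp_012 : ∃ t, chk3 f_pp_012 t 6 3 1 = true :=
  ⟨(b (a (b (l 16724624) (a (l 16615288) (l 16604984))) (b (a (l 16462936) (l 16188680)) (a (l 16437032) (b (l 16259864) (l 16190856))))) (b (a (b (l 16330792) (l 16035360)) (a (l 16082528) (b (l 16179584) (l 16092976)))) (b (a (a (l 15582896) (l 15566880)) (a (c (l 15776408) (l 15730976)) (c (b (l 15851368) (l 15708144)) (l 15748976)))) (a (c (a (l 15480032) (l 15496256)) (b (l 15516568) (a (l 15406192) (l 15380872)))) (c (a (l 15450600) (b (l 15526336) (l 15331752))) (b (a (l 15489976) (l 15470528)) (a (l 15232208)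 (c (l 15274776) (l 15229704))))))))), by decide +kernel⟩

def k13_pp_012 : ∃ t, chk3 f_pp_012 t 7 6 1 = true :=
  ⟨(a (b (a (l 15761840) (l 15500880)) (b (l 15737712) (a (l 16039928) (l 15841720)))) (b (a (c (l 15278192) (l 15243488)) (c (a (l 15017016) (l 14852024)) (a (l 14999440) (l 14814160)))) (a (b (l 15528192) (l 15580912)) (b (a (l 15283376) (l 15119496)) (a (l 15343944) (l 15162744)))))), by decide +kernel⟩

def k14_pp_012 : ∃ t, chk3 f_pp_012 t 14 7 1 = true :=
  ⟨(b (b (l 15810184) (a (l 15931456) (l 15680080))) (b (a (c (l 15729864) (l 15777000)) (c (b (l 15535280) (l 15521632)) (l 15483320))) (a (c (b (l 15688888) (l 15475880)) (b (l 15671960) (l 15260392))) (b (c (l 15440744) (l 15445968)) (c (l 15433496) (b (l 15403784) (l 15393408))))))), by decide +kernel⟩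

def k15_pp_012 : ∃ t, chk3 f_pp_012 t 15 7 1 = true :=
  ⟨(b (a (b (l 15532024) (l 15371008)) (b (a (l 15289752) (b (l 15137416) (a (l 15119712) (c (l 15062448) (l 15001736))))) (a (b (l 15171328) (c (a (l 15107440) (l 15023832)) (l 15002680))) (c (b (a (l 15068536) (l 14996080)) (l 14917328)) (b (l 14972736) (l 14842744)))))) (a (b (b (c (l 14947664) (l 15150728)) (a (l 15233160) (c (c (b (l 15115928) (l 14904104)) (l 15071624)) (l 15017432)))) (c (b (a (b (l 15227680) (l 15208608)) (c (l 15092176) (b (l 15066536) (l 15043864)))) (a (a (l 15224656) (l 15154704)) (l 15054432))) (b (a (l 15166488) (l 15007496)) (a (c (l 14966464) (b (l 15133616) (l 15122624))) (c (l 14998240) (l 14965640)))))) (b (c (b (a (a (l 14980520) (l 14905312)) (l 14805008)) (a (c (l 14972184) (l 14918160)) (c (b (l 14849056) (l 14852760)) (l 14780608)))) (a (l 14752048) (l 14714776))) (c (a (b (c (l 14962024) (l 14906280)) (c (l 14880872) (l 14898464))) (a (b (c (l 14863608) (l 14806568)) (b (l 14809800)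 (c (l 14814200) (a (l 14807496) (l 14757512))))) (b (c (b (l 14794112) (l 14711176)) (b (l 14752832) (l 14731000))) (b (c (l 14738064) (a (l 14726400) (l 14682592))) (a (l 14650064) (l 14702760)))))) (b (c (a (l 14863808) (b (l 14717912) (c (l 14738040) (l 14703464)))) (l 14752024)) (a (c (l 14852728) (l 14809800)) (c (a (b (l 14747224) (l 14739584)) (b (c (l 14682504) (l 14660936)) (a (l 14677376) (l 14638888)))) (b (l 14665784) (a (l 14693688) (b (c (l 14629216) (l 14608968)) (c (l 14625224) (l 14561696)))))))))))), by decide +kernel⟩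

theorem s16_pp_012 : ∃ t, chk3 f_pp_012 t 7 7 1 = true := ex3_a k14_pp_012 k15_pp_012

theorem s17_pp_012 : ∃ t, chk3 f_pp_012 t 7 3 1 = true := ex3_b k13_pp_012 s16_pp_012

theorem s18_pp_012 : ∃ t, chk3 f_pp_012 t 3 3 1 = true := ex3_a k12_pp_012 s17_pp_012

theorem s19_pp_012 : ∃ t, chk3 f_pp_012 t 14 34 1 = true := ex3_b k6_pp_012 k7_pp_012

theorem s20_pp_012 : ∃ t, chk3 f_pp_012 t 14 17 1 = true := ex3_b s19_pp_012 k8_pp_012

theorem s21_pp_012 : ∃ t, chk3 f_pp_012 t 14 8 1 = true := ex3_b k5_pp_012 s20_pp_012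

theorem s22_pp_012 : ∃ t, chk3 f_pp_012 t 14 4 1 = true := ex3_b s21_pp_012 k9_pp_012

theorem s23_pp_012 : ∃ t, chk3 f_pp_012 t 14 2 1 = true := ex3_b s22_pp_012 k10_pp_012

theorem s24_pp_012 : ∃ t, chk3 f_pp_012 t 7 2 1 = true := ex3_a s23_pp_012 k11_pp_012

theorem s25_pp_012 : ∃ t, chk3 f_pp_012 t 13 4 1 = true := ex3_a k2_pp_012 k3_pp_012

theorem s26_pp_012 : ∃ t, chk3 f_pp_012 t 13 2 1 = true := ex3_b s25_pp_012 k4_pp_012

theorem s27_pp_012 : ∃ t, chk3 f_pp_012 t 6 2 1 = true := ex3_a k1_pp_012 s26_pp_012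

theorem s28_pp_012 : ∃ t, chk3 f_pp_012 t 3 2 1 = true := ex3_a s27_pp_012 s24_pp_012

theorem s29_pp_012 : ∃ t, chk3 f_pp_012 t 3 1 1 = true := ex3_b s28_pp_012 s18_pp_012

theorem s30_pp_012 : ∃ t, chk3 f_pp_012 t 1 1 1 = true := ex3_a k0_pp_012 s29_pp_012

theorem c_pp_012 : CertNX 0 536870912 0 536870912 1046898278 26843546 3 false true true .pnp 0 1 2
    ndN6q0 ndN0q2 pcN1 Cut.none Ext.none :=
  certNX2 (fam := false) (s1 := true) (s2 := true) (a := 0) (b := 1) (c := 2) (cn := .pnp) (n1 := ndN6q0) (n2 := ndN0q2) (pc := pcN1) (cut := Cut.none) (xt := Ext.none) (P1 := 0) (W1 := 536870912) (P2 := 0) (W2 := 536870912) (P3 := 1046898278) (W3 := 26843546) (N0 := 3)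
    rfl (fun _ => rfl) s30_pp_012

end Pool.Agent.Strip051.G.IE1.Tab.C.NB60

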