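import Pool.Agent.Strip051.G.IE1.Tab

/-! # Certificates N81 (generated) -/

set_option linter.all false
set_option maxRecDepth 100000

namespace Pool.Agent.Strip051.G.IE1.Tab.C.NB60

open Pool.Agent.Strip051.PB Pool.Agent.Strip051.PB.T
open Pool.Agent.Strip051.G.IE1.Tab

noncomputable def f_pp_022 : ℕ → ℕ → ℕ → ℕ → Bool := onCell 0 536870912 0 536870912 1046898278 26843546
    (rowNX 3 0 false true true .pp 0 2 2 (qsf 0 536870912 0 536870912 2) ndN6q0 ndN0q2 pcN2 Cut.none Ext.none)

def k0_pp_022 : ∃ t, chk3 f_pp_022 t 8 2 1 = true :=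
  ⟨(b (a (a (b (c (a (l 15440952) (a (l 15302768) (l 15218136))) (a (c (l 15400088) (l 15373000)) (c (l 15225032) (l 15190304)))) (c (a (l 15382176) (a (l 15243648) (l 15171048))) (a (c (l 15339624) (a (l 15358880) (l 15264008))) (c (l 15172288) (l 15136496))))) (b (c (l 15017648) (l 14938200)) (c (l 15012832) (l 14932952)))) (b (c (a (l 14658920) (l 14375552)) (l 14437168)) (c (a (l 14735056) (l 14549888)) (l 14563088)))) (a (a (b (c (a (b (l 15291352) (l 15245064)) (l 15155216)) (a (a (b (l 15264080) (l 15204352)) (b (l 15186008) (l 15156184))) (l 15098424))) (c (a (l 15245072) (c (l 15194104) (l 15171512))) (a (c (l 15198208) (a (l 15181944) (l 15153280))) (l 14959936)))) (c (b (l 15020272) (a (l 15151888) (l 15121496))) (b (l 14940112) (l 15060528)))) (b (c (a (l 14852048) (c (b (l 14753432) (l 14857336)) (l 14722744))) (l 14661760)) (c (a (c (b (l 15063352) (l 15185216)) (l 15045016)) (b (c (l 14961888) (l 14893904)) (c (l 15037032) (l 15008872)))) (a (l 14994200) (l 14890536)))))), by decide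 +kernel⟩

def k1_pp_022 : ∃ t, chk3 f_pp_022 t 9 2 1 = true :=
  ⟨(b (a (c (b (a (c (a (l 14293536) (l 14266336)) (l 14190952)) (c (c (l 14151888) (l 14142760)) (l 14081568))) (a (c (b (l 14439512) (l 14541232)) (l 14394376)) (c (l 14320336) (l 14286616)))) (b (l 14048464) (l 14261728))) (c (b (c (l 13841512) (a (c (l 13910800) (l 13898000)) (l 13693056))) (c (l 14055664) (a (c (l 14128552) (l 14089008)) (l 13917896)))) (c (b (a (l 13826808) (c (l 13644496) (l 13626176))) (a (l 14073008) (c (l 13881408) (l 13842784)))) (l 13793656)))) (a (b (c (c (a (b (l 14639192) (l 14705488)) (l 14513168)) (a (l 14629768) (b (l 14442008) (l 14519184)))) (b (l 14426784) (l 14555128))) (c (a (c (l 14835880) (b (l 14769856) (l 14845528))) (b (l 14624328) (l 14722192))) (c (b (l 14647432) (l 14732304)) (l 14658920)))) (c (b (b (l 14107272) (l 14294184)) (l 14447144)) (b (c (a (l 14139224) (b (l 14033920) (l 14142088))) (a (l 14228848) (l 14032680))) (c (a (b (l 14422904) (l 14524416)) (l 14295752)) (b (l 14137952)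 (a (l 14480856) (l 14303984)))))))), by decide +kernel⟩

def k2_pp_022 : ∃ t, chk3 f_pp_022 t 5 2 1 = true :=
  ⟨(a (a (b (c (l 13521376) (b (c (a (l 13423608) (l 13207872)) (a (l 13357224) (c (l 13166496) (l 13130896)))) (c (l 13568880) (a (l 13418552) (c (l 13426408) (l 13393520)))))) (c (l 13979456) (b (c (l 13806544) (a (b (l 13789928) (l 13903656)) (l 13652496))) (c (l 14020144) (l 822513634823))))) (b (b (l 1) (l 1)) (l 1))) (l 1)), by decide +kernel⟩

def k3_pp_022 : ∃ t, chk3 f_pp_022 t 4 6 1 = true :=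
  ⟨(a (a (b (a (c (a (b (l 15338488) (l 15483296)) (c (b (l 15331232) (l 15512656)) (l 15372400))) (a (c (a (l 15364144) (l 15360456)) (c (l 15280296) (l 15328728))) (c (l 15369272) (l 15335720)))) (a (c (b (l 15338744) (c (l 15539048) (l 15497504))) (l 15348712)) (c (b (l 15353808) (l 15445928)) (l 15322792)))) (a (c (b (a (l 15625168) (c (a (l 15627000) (l 15620224)) (l 15597960))) (a (b (l 15627760) (l 15562904)) (c (a (l 15549760) (l 15523488)) (a (l 15534704) (l 15515360))))) (a (b (c (l 15581560) (a (l 15553232) (l 15564136))) (c (a (l 15572584) (l 15544168)) (a (c (l 15552840) (l 15540056)) (l 15522368)))) (b (c (l 15577328) (l 15546904)) (c (l 15499640) (l 15467408))))) (c (b (c (a (l 15600904) (l 15531120)) (l 15529152)) (c (a (l 15496864) (l 15434952)) (l 15279496))) (b (l 15473696) (l 15373168))))) (b (c (b (a (c (l 15301200) (l 15253328)) (c (l 15123864) (l 15094368))) (c (a (l 15383776) (l 15209104)) (a (l 15344200) (l 15173760)))) (b (l 15116264) (l 15218392))) (c (b (a (c (l 15402480)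 (l 15358776)) (l 15189264)) (a (c (l 15306352) (l 15262024)) (l 15115168))) (b (c (l 15245288) (l 15223056)) (a (l 15213280) (l 15051592)))))) (a (b (c (c (l 14944304) (b (l 14869608) (l 14960576))) (b (c (a (l 14908904) (l 14765864)) (l 14796080)) (c (l 14781416) (l 14892816)))) (c (b (l 14998576) (l 14901160)) (b (c (l 14953792) (l 14858400)) (a (l 14900840) (l 14767264))))) (b (c (l 14635968) (b (c (l 14535400) (a (l 14582848) (l 14406192))) (l 14360696))) (b (c (l 14711168) (l 14640304)) (l 1))))), by decide +kernel⟩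

def k4_pp_022 : ∃ t, chk3 f_pp_022 t 4 7 1 = true :=
  ⟨(a (b (a (a (c (a (b (l 15385584) (l 15106504)) (b (c (l 15332968) (l 15313176)) (c (l 15064784) (l 15040328)))) (a (c (b (l 15340512) (l 14822872)) (b (a (l 15282920) (l 15297904)) (c (l 14922184) (l 15009224)))) (c (b (l 15287256) (l 15009472)) (l 15105832)))) (c (b (a (l 15282168) (l 15224168)) (a (c (l 15043232) (l 15005296)) (l 14972336))) (b (l 15172624) (l 14905824)))) (b (c (a (l 15110272) (l 14956920)) (l 14966656)) (c (a (l 14871552) (c (l 14756392) (l 14714304))) (a (l 14785264) (l 14660080))))) (a (a (a (c (c (b (l 14639304) (l 14787888)) (b (l 14839936) (b (b (l 14773600) (l 14748632)) (l 14728248)))) (b (c (a (l 14779296) (l 14757152)) (a (c (l 14748424) (l 14728208)) (l 14721160))) (c (b (a (l 14720000) (l 14701264)) (a (l 14697672) (c (l 14690544) (l 14673392)))) (c (b (l 14679560) (a (b (l 14670816) (l 14662688)) (l 14652192))) (a (b (l 14666208) (c (l 14644936) (l 14634712))) (l 14629056)))))) (c (b (c (b (l 14845040) (a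 (l 14798248) (l 14787296))) (c (l 14808832) (l 14763576))) (c (a (l 14745648) (l 14738424)) (b (c (l 14734800) (b (l 14731336) (l 14715840))) (l 461737990871)))) (b (c (l 14734928) (l 14687776)) (b (c (c (l 14702624) (l 14673688)) (l 14635024)) (b (c (l 436504933687) (l 14624312)) (l 1)))))) (b (c (b (a (l 14633848) (l 14738824)) (c (a (c (l 14801696) (l 14778592)) (l 14754728)) (l 14581760))) (b (l 14667008) (l 14620920))) (b (a (b (c (c (l 14760752) (l 14723008)) (l 14625592)) (l 1)) (l 1)) (l 1)))) (a (b (b (c (l 14648216) (l 14560632)) (l 1)) (l 1)) (l 1)))) (b (a (b (a (c (l 14820448) (l 14752512)) (l 1)) (l 1)) (l 1)) (l 1))), by decide +kernel⟩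

def k5_pp_022 : ∃ t, chk3 f_pp_022 t 5 3 1 = true :=
  ⟨(b (l 1) (l 1)), by decide +kernel⟩

def k6_pp_022 : ∃ t, chk3 f_pp_022 t 3 1 1 = true :=
  ⟨(l 1), by decide +kernel⟩

theorem s7_pp_022 : ∃ t, chk3 f_pp_022 t 4 3 1 = true := ex3_b k3_pp_022 k4_pp_022

theorem s8_pp_022 : ∃ t, chk3 f_pp_022 t 2 3 1 = true := ex3_a s7_pp_022 k5_pp_022

theorem s9_pp_022 : ∃ t, chk3 f_pp_022 t 4 2 1 = true := ex3_a k0_pp_022 k1_pp_022

theorem s10_pp_022 : ∃ t, chk3 f_pp_022 t 2 2 1 = true := ex3_a s9_pp_022 k2_pp_022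

theorem s11_pp_022 : ∃ t, chk3 f_pp_022 t 2 1 1 = true := ex3_b s10_pp_022 s8_pp_022

theorem s12_pp_022 : ∃ t, chk3 f_pp_022 t 1 1 1 = true := ex3_a s11_pp_022 k6_pp_022

theorem c_pp_022 : CertNX 0 536870912 0 536870912 1046898278 26843546 3 false true true .pp 0 2 2
    ndN6q0 ndN0q2 pcN2 Cut.none Ext.none :=
  certNX0 (fam := false) (s1 := true) (s2 := true) (a := 0) (b := 2) (c := 2) (cn := .pp) (n1 := ndN6q0) (n2 := ndN0q2) (pc := pcN2) (cut := Cut.none) (xt := Ext.none) (P1 := 0) (W1 := 536870912) (P2 := 0) (W2 := 536870912) (P3 := 1046898278) (W3 := 26843546) (N0 := 3)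
    rfl s12_pp_022

noncomputable def f_pp_101 : ℕ → ℕ → ℕ → ℕ → Bool := onCell 0 536870912 536870912 536870912 1046898278 26843546
    (rowNX 3 2 false true true .npn 1 0 1 (qsf 536870912 469762048 536870912 536870912 0) ndN6q1 ndN0q1 pcN0 Cut.none Ext.none)

def k0_pp_101 : ∃ t, chk3 f_pp_101 t 2 2 1 = true :=
  ⟨(l 3), by decide +kernel⟩

def k1_pp_101 : ∃ t, chk3 f_pp_101 t 4 6 1 = true :=
  ⟨(l 3), by decide +kernel⟩

def k2_pp_101 : ∃ t, chk3 f_pp_101 t 8 14 2 = true :=
  ⟨(l 3), by decide +kernel⟩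

def k3_pp_101 : ∃ t, chk3 f_pp_101 t 16 15 2 = true :=
  ⟨(b (l 3) (b (l 3) (l 2))), by decide +kernel⟩

def k4_pp_101 : ∃ t, chk3 f_pp_101 t 17 30 2 = true :=
  ⟨(l 3), by decide +kernel⟩

def k5_pp_101 : ∃ t, chk3 f_pp_101 t 34 31 2 = true :=
  ⟨(b (l 3) (b (b (b (l 3) (l 2)) (l 2)) (l 2))), by decide +kernel⟩

def k6_pp_101 : ∃ t, chk3 f_pp_101 t 35 62 4 = true :=
  ⟨(b (l 3) (b (l 3) (b (l 3) (a (l 3) (a (l 3) (c (a (l 3) (a (l 3) (a (l 3) (a (l 3) (l 361481380279))))) (l 401746592055))))))), by decide +kernel⟩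

def k7_pp_101 : ∃ t, chk3 f_pp_101 t 140 63 4 = true :=
  ⟨(b (b (b (l 3) (b (a (l 3) (a (l 3) (a (l 3) (a (l 3) (c (c (l 16508560) (c (c (l 16510600) (l 16501952)) (l 16472520))) (c (l 16391800) (b (l 3) (l 471539592775)))))))) (b (a (l 2) (a (b (b (l 3) (l 2)) (l 2)) (c (c (a (b (l 16471448) (l 16471272)) (l 16498464)) (c (a (c (l 16473144) (c (l 16473640) (a (l 16471912) (l 16470912)))) (c (l 16499896) (l 16492848))) (a (l 280950599223) (l 16464480)))) (c (a (b (l 16367832) (l 16388328)) (l 16404464)) (c (c (a (c (b (l 16343320) (l 16342896)) (a (a (l 285245372055) (b (l 267528623895) (l 16334344))) (b (l 16334168) (a (l 16332544) (l 16332024))))) (c (a (l 16339552) (l 16340104)) (l 16356872))) (a (b (l 16329672) (l 16329248)) (l 16353400))) (b (a (a (b (l 3) (l 16321312)) (a (b (l 16344104) (l 16321568)) (l 16344592))) (l 16347816)) (a (a (l 16343576) (b (a (l 16320832) (l 16321504)) (l 16321144))) (a (b (l 16344432) (a (l 16321448) (l 16343728))) (l 16346368))))))))) (a (l 2) (a (l 2) (c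 (c (a (l 16474464) (l 16475400)) (c (c (l 210016608935) (a (l 16494448) (c (a (l 16473760) (l 16472280)) (l 16486200)))) (a (l 16471736) (l 16461376)))) (c (a (l 16411760) (l 16359592)) (c (c (a (c (l 16366520) (l 16347880)) (c (a (c (l 16339392) (l 16345816)) (b (l 16336160) (l 16334768))) (l 16333080))) (a (l 16352912) (l 16329568))) (a (l 16345848) (c (l 16324880) (b (a (l 16329448) (l 16330808)) (l 16330032)))))))))))) (a (l 2) (a (l 2) (b (a (l 2) (a (l 2) (a (l 2) (c (c (l 16507672) (c (c (l 16506544) (l 16496168)) (l 16466192))) (c (l 16406312) (l 16355704)))))) (l 2))))) (l 2)), by decide +kernel⟩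

def k8_pp_101 : ∃ t, chk3 f_pp_101 t 282 252 4 = true :=
  ⟨(b (l 3) (c (c (c (l 16520704) (a (l 282024428807) (c (a (l 16525616) (l 281487603383)) (a (c (l 278266374327) (l 16507456)) (l 16522360))))) (c (a (c (a (c (l 16510640) (l 277729462951)) (l 278266331175)) (l 16492192)) (l 16495144)) (l 16438384))) (c (c (l 273434291207) (a (c (l 16393176) (a (c (l 16379664) (b (a (l 249275067975) (l 254106904999)) (a (l 16344216) (l 16344784)))) (c (a (a (l 242295760407) (l 242295760023)) (l 242832631959)) (l 16374504)))) (c (a (c (l 16393608) (a (l 242295775831) (l 244443258359))) (c (b (l 250348854535) (l 16366304)) (l 16388512))) (l 16382904)))) (b (l 16377552) (a (b (l 16358784) (a (b (l 16352192) (a (a (l 16326600) (l 16348872)) (l 16350800))) (l 16356008))) (l 16366400)))))), by decide +kernel⟩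

def k9_pp_101 : ∃ t, chk3 f_pp_101 t 282 253 4 = true :=
  ⟨(a (b (a (b (c (c (l 16481352) (c (c (b (c (l 16479208) (l 16496320)) (l 16500488)) (l 16484568)) (l 16454568))) (c (c (l 16414640) (c (l 16384784) (c (l 16348920) (b (a (l 16339624) (l 16337832)) (l 16341632))))) (b (a (l 16326504) (b (l 16327152) (l 16325728))) (l 16350160)))) (l 2)) (c (c (b (a (l 16483048) (l 16506512)) (l 16510464)) (b (b (l 16446240) (c (l 16464064) (l 16445288))) (l 16449928))) (c (c (b (l 16407104) (l 16411088)) (b (c (l 16377344) (c (b (l 16344296) (a (l 16341744) (l 16339968))) (l 16339208))) (c (l 16380968) (l 16365936)))) (b (c (l 16333408) (c (l 16326432) (b (b (l 16345056) (l 16321344)) (b (l 16319576) (l 16319176))))) (l 16352560))))) (l 2)) (c (c (b (c (b (l 16515896) (l 16513056)) (b (c (l 16515456) (a (l 16508128) (l 16508352))) (c (a (l 16510184) (l 16512864)) (a (b (l 16504376) (l 16507272)) (l 16501976))))) (c (l 16525792) (c (l 16524080) (l 16494224)))) (b (b (l 16460680) (l 16436280)) (l 16469080)))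 (c (c (b (b (l 16401200) (l 16397400)) (l 16410152)) (b (c (b (a (l 16374224) (l 16375352)) (a (c (l 16375184) (a (l 16367728) (l 16343976))) (c (b (l 16349008) (l 16347664)) (l 16344416)))) (b (l 16367104) (l 16341384))) (a (l 2) (l 16355288)))) (b (b (b (l 16358400) (a (b (l 16351816) (a (l 16326880) (l 16350440))) (l 16355648))) (c (l 16334064) (b (a (l 16321984) (l 16345672)) (l 220216850887)))) (l 16362312))))), by decide +kernel⟩

def k10_pp_101 : ∃ t, chk3 f_pp_101 t 283 126 4 = true :=
  ⟨(c (b (c (a (b (l 3) (c (a (l 16540296) (b (l 283098260583) (l 16542384))) (c (a (c (l 280950751271) (l 16533472)) (l 16534920)) (l 16517384)))) (c (b (c (l 342154098359) (l 344301564199)) (b (c (l 284172015703) (l 16552424)) (c (l 16552848) (l 16542864)))) (l 282561284535))) (b (l 296519938039) (l 16408168))) (c (c (b (a (l 16506016) (c (l 16541408) (l 16531224))) (b (a (a (l 16518608) (b (l 16521120) (l 16519632))) (c (l 16530008) (l 16519744))) (a (l 16527368) (c (a (l 16526688) (l 16527336)) (l 16516640)))))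 (b (a (c (a (l 16518536) (l 16517784)) (l 16499808)) (l 16503232)) (a (a (c (b (l 16512728) (l 2)) (l 16500328)) (l 16500696)) (l 16491344)))) (b (l 16447760) (b (l 16418712) (l 16420392))))) (b (c (c (a (b (l 3) (c (l 16420480) (a (c (l 16407320) (b (l 251422609879) (l 16373312))) (c (b (l 252496365143) (l 16380248)) (l 16402304))))) (c (b (a (l 3) (l 437180039351)) (a (c (l 16420808) (b (l 16397064) (l 16387104))) (c (b (l 16403720) (l 16393888)) (l 16415872)))) (l 216526074391))) (l 249275144039)) (b (l 480666507463) (l 16387232))) (c (c (b (a (c (l 16401352) (a (c (l 16387888) (l 16379904)) (c (l 16387112) (l 16382896)))) (c (a (c (l 16402176) (l 16394264)) (c (l 16401352) (l 16397192))) (l 16391376))) (a (c (l 16398832) (b (a (c (l 16382616) (l 16374536)) (b (l 16354576) (l 16374312))) (l 16385752))) (c (b (l 16388504) (a (l 16386440) (l 16383024))) (l 16379568)))) (b (l 16379640) (b (l 16370656) (l 16372672)))) (b (b (l 16371200) (a (b (l 16358088) (a (b (l 16351632) (l 16349240)) (l 16355680)))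 (l 16366008))) (a (b (a (l 16350528) (b (l 16351200) (l 16349680))) (l 16358704)) (c (l 16361648) (b (b (l 16353936) (l 16349816)) (b (l 16347712) (l 16348336))))))))), by decide +kernel⟩

def k11_pp_101 : ∃ t, chk3 f_pp_101 t 141 127 4 = true :=
  ⟨(a (l 2) (a (l 2) (a (l 2) (a (l 2) (b (c (c (c (c (l 16527680) (l 16533064)) (l 16504576)) (l 16446752)) (l 16386544)) (l 2)))))), by decide +kernel⟩

def k12_pp_101 : ∃ t, chk3 f_pp_101 t 142 63 8 = true :=
  ⟨(a (b (b (c (c (b (l 284708856215) (b (l 16530904) (l 16542936))) (l 282024385303)) (c (l 279339957447) (a (c (l 276118721351) (a (b (l 264844464919) (c (l 16434072) (l 16426424))) (c (b (l 235316598007) (l 16433016)) (l 225652907191)))) (c (a (c (l 220284240231) (b (l 235316610535) (l 16439528))) (c (b (l 235853493783) (l 16445968)) (l 16452600))) (l 220284220199))))) (c (b (l 16470888) (l 16498376)) (c (l 16448424) (a (c (l 16422272) (b (a (l 16412632) (l 16413624)) (a (l 16398312) (l 16399448)))) (c (b (a (l 16426448) (l 16427392)) (l 16413744))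 (l 16412392)))))) (b (c (b (a (b (a (l 16476800) (l 16490752)) (l 16502120)) (l 16484888)) (l 16413160)) (c (b (l 16436752) (l 16450960)) (b (a (c (l 16413632) (b (a (l 16394064) (l 16390696)) (l 16401112))) (a (c (l 16381816) (l 16393072)) (l 16398280))) (a (l 2) (l 247060439575))))) (l 2))) (b (c (b (b (l 283098141319) (l 16515592)) (l 16493872)) (b (c (a (c (l 278266252631) (b (b (l 3) (a (l 266991988663) (l 260012677031))) (a (l 16435392) (l 16457104)))) (c (b (b (a (l 3) (l 385640518103)) (a (l 16482704) (l 16483248))) (a (l 16468840) (l 16469528))) (l 16472376))) (l 275581854743)) (c (a (c (l 16449688) (c (l 16415728) (a (l 16429160) (l 16431936)))) (c (a (l 16446808) (l 16447704)) (l 16439896))) (l 16428736)))) (c (b (b (l 16473736) (l 16449056)) (l 16455024)) (b (a (c (c (l 16430664) (b (l 16414416) (a (l 16414856) (l 16409664)))) (l 16404568)) (c (c (b (l 16428424) (a (l 16418184) (l 16416712))) (l 16415888)) (l 16408520))) (a (l 2) (a (l 2) (l 16389088))))))), by decide +kernel⟩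

def k13_pp_101 : ∃ t, chk3 f_pp_101 t 142 63 9 = true :=
  ⟨(b (b (b (b (l 400672744407) (l 274508053191)) (l 16383232)) (b (l 16405472) (a (c (l 16388360) (b (l 16372552) (a (b (l 16361448) (l 16357528)) (l 16369896)))) (l 16398696)))) (b (b (c (a (l 16383576) (l 16393632)) (a (b (a (l 16335712) (l 16330656)) (l 218606229943)) (b (l 16377760) (a (l 16364832) (l 16375296))))) (a (l 16388040) (a (l 16376704) (b (l 16377784) (l 16375352))))) (l 16416304))), by decide +kernel⟩

def k14_pp_101 : ∃ t, chk3 f_pp_101 t 143 63 4 = true :=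
  ⟨(b (c (c (b (a (c (l 283098152023) (a (c (l 16505736) (b (a (c (l 16502952) (l 239074778487)) (c (l 240148531495) (l 16498024))) (a (l 16481072) (l 16481712)))) (c (b (a (c (l 16514160) (l 16507040)) (l 278266340743)) (a (l 16493064) (l 16493648))) (l 16496056)))) (c (a (c (l 16528360) (b (a (l 280413840039) (l 279340104791)) (a (l 16504816) (l 16505352)))) (c (b (a (l 16532792) (l 16533120)) (a (l 16516336) (l 16516808))) (l 16518840))) (l 16510392))) (a (c (l 16500688) (a (c (l 16475960) (a (l 16460032) (l 16460872))) (c (a (l 16472960) (l 16473744)) (l 16466296)))) (c (a (c (l 16501064) (a (l 16485592) (l 16486312))) (c (a (l 16497928) (l 16498592)) (l 16491528))) (l 16481448)))) (b (l 276655627127) (l 16460696))) (b (b (l 269139423623) (l 16464744)) (l 16437352))) (c (c (a (b (c (l 16475552) (a (c (l 16450728) (l 16435864)) (c (l 16449440) (l 16441472)))) (a (c (l 16461784) (c (l 16456464) (b (l 16408352) (l 2)))) (c (l 16424088) (b (c (l 16434448) (l 16426248)) (l 241691767671))))) (c (b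 (a (c (l 16477208) (l 16462728)) (c (l 16475712) (l 16468056))) (b (a (l 16452792) (l 16455120)) (b (a (c (l 16455584) (l 16440848)) (l 16446536)) (l 16453264)))) (b (l 16457120) (l 16439896)))) (b (l 16434544) (b (l 16421744) (l 16426912)))) (b (b (l 16414184) (a (b (l 16393080) (a (l 16380656) (l 16390888))) (l 16409816))) (b (c (l 16401960) (a (c (l 16379592) (l 16348336)) (l 16385552))) (a (l 16399616) (c (l 16400792) (l 16359424))))))), by decide +kernel⟩

def k15_pp_101 : ∃ t, chk3 f_pp_101 t 35 62 5 = true :=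
  ⟨(b (l 3) (b (l 3) (b (l 3) (b (l 3) (a (l 3) (b (l 3) (c (c (l 527911256439) (c (l 447380646391) (l 16547464))) (c (l 467781805831) (l 484961628071))))))))), by decide +kernel⟩

def k16_pp_101 : ∃ t, chk3 f_pp_101 t 35 252 5 = true :=
  ⟨(b (a (a (l 3) (b (l 3) (b (l 3) (c (c (l 430737399767) (c (l 446843637623) (l 16465280))) (l 480129704311))))) (c (c (c (b (l 425905659639) (l 263233753223)) (a (l 261623185559) (l 16464272))) (c (a (l 258938882615) (l 16487104)) (l 255717711383))) (c (l 251959625543) (b (c (l 479056069991) (l 487645986327)) (a (l 247127808951) (l 16550240)))))) (a (a (a (b (l 3) (l 2)) (a (b (l 3) (b (b (b (l 3) (l 2)) (l 2)) (l 2))) (b (a (l 3) (c (c (l 430737369175) (c (l 447380480391) (l 16435168))) (l 16446792))) (c (c (c (c (b (a (c (b (a (a (l 268602337591) (l 16320136)) (l 16342720)) (a (b (l 16319072) (l 2)) (l 16319672))) (l 16327048)) (l 16348800)) (a (c (c (l 16320088) (l 244912911271)) (l 16324704)) (a (b (l 16323048) (l 16322184)) (l 16324264)))) (l 269139229799))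 (l 16381240)) (c (c (l 16403104) (c (a (l 16391272) (b (l 16417736) (l 16413440))) (b (a (b (a (l 16399200) (l 16400800)) (l 16398424)) (l 16402688)) (a (l 16396928) (b (l 16399608) (l 16398216)))))) (b (a (l 262696929255) (l 16425192)) (a (c (l 16411664) (l 16423344)) (l 16401408))))) (b (a (l 260549439239) (l 16433768)) (a (l 16429184) (l 16428368))))))) (c (c (a (b (l 264307393719) (a (l 16375184) (l 16384992))) (l 263233670199)) (c (a (b (l 260012538183) (a (b (l 16420096) (c (l 16408824) (a (b (l 16421552) (l 16419112)) (l 16424696)))) (l 16426512))) (l 259475682375)) (l 257328212903))) (b (l 16464952) (l 16449520)))) (c (c (a (l 16392088) (l 16472864)) (c (a (l 16449056) (l 16504384)) (l 16497496))) (l 16465592)))), by decide +kernel⟩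

def k17_pp_101 : ∃ t, chk3 f_pp_101 t 35 253 5 = true :=
  ⟨(b (a (a (b (b (a (l 2) (a (l 2) (a (l 2) (c (c (c (c (c (l 16320600) (l 16324496)) (l 16355432)) (l 16377376)) (c (l 16406768) (l 16401448))) (l 16426912))))) (l 2)) (l 2)) (c (c (a (c (b (a (c (a (b (b (l 16324112) (l 16322576)) (l 249207871415)) (b (l 16348384) (l 16344488))) (l 16359000)) (l 16360608)) (a (c (c (l 16324320) (l 248134138199)) (l 16354600)) (a (b (l 16351304) (l 16349616)) (l 16353728)))) (l 16360888)) (b (l 16389576) (l 16379344))) (a (c (b (a (c (l 16402664) (b (a (l 16416392) (l 16420000)) (l 16415104))) (b (l 16419720) (c (l 16408480) (l 16421904)))) (a (l 16404200) (c (l 16402352) (b (l 16396880) (l 16414808))))) (b (a (b (l 16402824) (a (l 16401272) (l 16422016))) (l 16428920)) (c (a (l 250281768247) (l 16422704)) (l 16424704)))) (c (a (b (l 16426176) (c (l 16410856) (l 16423792))) (l 16430400)) (l 16437216)))) (a (b (a (b (l 16427744) (l 16425024)) (l 16432440)) (l 242765583751)) (l 16440256)))) (c (c (l 16349736)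 (c (l 16448544) (l 16479280))) (l 16482568))) (a (a (l 2) (a (a (l 2) (b (c (c (c (c (l 16326120) (l 16354648)) (l 16374480)) (c (l 16403936) (l 249744888647))) (l 16425864)) (l 2))) (c (c (c (a (b (b (l 16353624) (l 16330384)) (l 249207859351)) (b (l 16360616) (l 16355368))) (l 16382368)) (c (b (c (l 16406752) (a (l 16416216) (l 16423584))) (l 232028083095)) (b (l 16425992) (a (l 16422088) (l 16422888))))) (l 16427600)))) (c (c (a (a (b (l 16389560) (l 16381256)) (l 16405392)) (l 16434984)) (c (a (a (b (l 16430128) (a (l 16417352) (l 16426448))) (l 16443696)) (l 16469920)) (l 16462448))) (l 16463576)))), by decide +kernel⟩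

def k18_pp_101 : ∃ t, chk3 f_pp_101 t 35 127 5 = true :=
  ⟨(b (a (b (b (a (l 2) (a (l 2) (a (l 2) (a (l 2) (c (c (l 16367928) (l 16394568)) (l 16425024)))))) (l 2)) (l 2)) (c (b (a (c (a (a (b (l 16371384) (l 16350008)) (l 16377608)) (l 16368928)) (a (a (c (l 16411048) (l 16404640)) (b (l 16424384) (l 16399448))) (c (l 16408904) (l 16440392)))) (c (l 16420232) (l 16461376))) (c (c (a (a (l 16348648) (b (l 16368528) (l 16366448))) (l 16393296)) (a (l 16389224) (l 16400432))) (a (a (c (l 16409248) (l 16429064)) (c (l 16399152) (l 16433592))) (l 16427104)))) (a (b (l 16414864) (l 238470605975)) (l 16459456)))) (a (l 2) (b (c (a (a (l 2) (a (l 2) (c (l 16382464) (l 16426496)))) (c (a (l 16366712) (l 16401656)) (a (c (l 16426104) (l 16439592)) (l 16445792)))) (a (l 16402688) (l 16446840))) (a (l 2) (c (c (a (l 16369544) (l 16393672)) (a (l 16430904) (l 16437800))) (l 16447992)))))), by decide +kernel⟩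

def k19_pp_101 : ∃ t, chk3 f_pp_101 t 8 14 3 = true :=
  ⟨(l 3), by decide +kernel⟩

def k20_pp_101 : ∃ t, chk3 f_pp_101 t 8 30 3 = true :=
  ⟨(l 3), by decide +kernel⟩

def k21_pp_101 : ∃ t, chk3 f_pp_101 t 8 62 3 = true :=
  ⟨(a (l 3) (a (l 3) (a (l 3) (b (l 3) (b (l 3) (c (b (l 3) (l 585356503831)) (l 634211831431))))))), by decide +kernel⟩

def k22_pp_101 : ∃ t, chk3 f_pp_101 t 16 63 3 = true :=
  ⟨(l 2), by decide +kernel⟩

def k23_pp_101 : ∃ t, chk3 f_pp_101 t 17 252 3 = true :=
  ⟨(b (a (l 3) (a (a (l 3) (c (c (c (b (l 3) (c (l 501067681559) (l 509120713143))) (l 522542478215)) (l 544554189847)) (l 579987662087))) (c (c (c (b (c (l 496235888583) (l 504288946839)) (c (l 242295956887) (a (l 240685316183) (l 16529368)))) (l 236390340215)) (l 16466016)) (l 220284211287)))) (a (l 2) (a (a (b (a (l 3) (a (l 3) (c (c (c (c (l 503215142855) (l 511268193159)) (c (b (l 3) (l 16433928)) (l 16426928))) (l 16424848)) (l 16420424)))) (a (l 2) (a (b (b (b (l 3) (l 2)) (l 2)) (l 2)) (c (c (c (b (c (l 16445336)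 (b (c (l 16450448) (l 16449240)) (l 280883472567))) (l 16443056)) (c (b (l 16438664) (a (l 16444136) (c (l 16446584) (l 16441344)))) (b (b (c (l 16423896) (l 16420816)) (c (l 16426328) (l 290010223479))) (a (l 16429080) (l 16428256))))) (b (l 16418976) (a (l 16418760) (l 16417936)))) (b (a (l 16412816) (l 16415368)) (l 16413992)))))) (c (c (c (b (c (b (l 499457072423) (l 16473432)) (b (l 16468152) (l 16444160))) (b (l 16445768) (l 16459936))) (b (c (b (l 515563144471) (l 16454496)) (l 16426328)) (c (b (l 16458712) (l 16460880)) (b (l 16443992) (l 16445856))))) (l 231021531399)) (l 221894725943))) (c (c (c (b (c (l 16504800) (l 16497960)) (l 16513792)) (b (c (l 16462720) (l 16497528)) (c (l 16510184) (l 16496712)))) (l 16492424)) (l 16488936))))), by decide +kernel⟩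

def k24_pp_101 : ∃ t, chk3 f_pp_101 t 17 253 3 = true :=
  ⟨(a (l 2) (a (a (b (b (c (b (b (c (c (l 16448648) (l 265851051671)) (l 272293476135)) (l 2)) (l 2)) (l 16425488)) (l 2)) (l 2)) (c (c (b (b (b (c (l 16452600) (c (b (l 16460488) (l 16458232)) (l 16429728))) (a (c (l 16438264) (a (c (l 16443336) (l 16442992)) (l 16446712))) (l 16455880))) (a (b (a (l 16438272) (l 16437888)) (l 16435504)) (l 16444320))) (a (l 16436288) (b (l 16434248) (l 16428560)))) (b (c (c (b (a (a (b (a (l 16411912) (l 16425008)) (l 16428992)) (l 16432976)) (l 16445904)) (a (b (l 16417752) (l 16443960)) (l 16449328))) (a (b (b (l 16424496) (l 295915797223)) (a (l 16429712) (b (l 16424464) (l 16429264)))) (l 16418424))) (a (b (a (l 16419816) (l 16425064)) (l 265851029079)) (l 16434504))) (c (a (l 16443360) (b (b (l 16443648) (l 16442304)) (l 16438344))) (b (a (l 16430464) (a (c (l 16428600) (l 16422400)) (l 16431688))) (b (c (l 16420792) (l 245986795463)) (l 222364479959)))))) (b (a (b (a (l 16416136) (l 16421448)) (l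 278735931447)) (l 16430968)) (a (l 16426608) (b (l 16422536) (l 16421976)))))) (c (c (b (c (l 16491400) (b (l 16460296) (l 16493584))) (l 16469504)) (b (c (b (l 16444504) (c (l 16492416) (l 16480896))) (l 16477752)) (c (l 16455856) (b (l 16470872) (l 16428440))))) (b (l 16474744) (l 16460696))))), by decide +kernel⟩

def k25_pp_101 : ∃ t, chk3 f_pp_101 t 17 127 3 = true :=
  ⟨(a (l 2) (a (b (b (a (l 2) (b (b (c (l 269609106439) (l 16430192)) (l 2)) (l 2))) (l 2)) (l 2)) (c (b (c (a (b (l 16415400) (l 16434096)) (l 16459128)) (a (b (b (c (l 16442320) (l 16448176)) (l 16437760)) (l 16435000)) (b (l 16470064) (l 16452400)))) (a (l 16452440) (b (l 16443288) (l 16444656)))) (b (c (b (c (a (b (c (b (l 16439064) (l 16442536)) (l 16435736)) (a (c (l 16437936) (l 16432856)) (l 16443736))) (l 16450816)) (a (l 16434384) (l 16464936))) (c (a (a (l 16437912) (l 16435016)) (l 16454832)) (a (b (a (l 16434936) (l 16434488)) (l 244376169255)) (l 16454320)))) (a (b (l 16432360) (l 16431512)) (l 16456248))) (c (a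 (l 16450616) (b (b (l 16443496) (l 16438952)) (l 16441048))) (b (b (a (l 16438816) (l 16441904)) (c (a (l 2) (c (l 16439952) (l 16439672))) (l 16440608))) (c (l 247060534375) (b (a (l 2) (l 16387696)) (l 225048801127))))))))), by decide +kernel⟩

def k26_pp_101 : ∃ t, chk3 f_pp_101 t 9 14 1 = true :=
  ⟨(l 3), by decide +kernel⟩

def k27_pp_101 : ∃ t, chk3 f_pp_101 t 18 30 1 = true :=
  ⟨(l 3), by decide +kernel⟩

def k28_pp_101 : ∃ t, chk3 f_pp_101 t 36 124 1 = true :=
  ⟨(l 3), by decide +kernel⟩

def k29_pp_101 : ∃ t, chk3 f_pp_101 t 36 250 1 = true :=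
  ⟨(b (l 3) (a (l 3) (a (l 3) (b (l 3) (c (c (l 379735175095) (c (c (l 365776513719) (l 355039103943)) (l 16632624))) (l 16653296)))))), by decide +kernel⟩

def k30_pp_101 : ∃ t, chk3 f_pp_101 t 36 251 1 = true :=
  ⟨(a (b (b (l 3) (a (l 3) (b (l 3) (c (c (l 381345713431) (c (c (l 16624088) (l 346449180007)) (c (l 16638016) (l 16617056)))) (l 16613656))))) (c (c (a (c (a (l 278803267415) (l 16549408)) (b (l 401746703543) (l 273434514887))) (c (l 279877076663) (b (l 271287140935) (l 16584312)))) (c (a (c (l 261086477335) (c (l 286319499735) (l 16606608))) (c (l 278803301431) (c (l 16588936) (l 16619872)))) (a (c (b (l 331416714039) (l 292225129735)) (b (l 320679248935) (c (l 16595112) (l 16537304)))) (c (b (c (l 289540865111) (l 16636544)) (l 16619232)) (b (c (l 16578456) (l 16591096)) (c (l 16632128) (l 16616360))))))) (b (a (l 319605519527) (l 288467062199)) (c (a (l 294909419063) (l 16606920)) (l 266992126551))))) (a (c (a (b (b (l 3) (c (c (l 16634488) (l 16636952)) (c (c (l 16655832) (c (l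 16676136) (l 16658136))) (c (l 290614620247) (l 16642392))))) (c (c (l 16629384) (l 16624504)) (c (c (l 16639640) (l 16645176)) (c (b (l 16647736) (l 16672720)) (b (l 16624608) (l 16617000)))))) (c (b (c (l 279340351671) (l 16636952)) (l 16642832)) (c (c (l 276119095943) (b (b (l 351817996311) (c (l 16686808) (l 16689280))) (l 16680128))) (b (c (b (l 341080533047) (l 16630008)) (l 16634760)) (c (l 16640616) (c (l 16630472) (l 16638888))))))) (b (a (l 315310688807) (l 311015761623)) (c (a (l 16639368) (l 16653840)) (l 16613480)))) (c (c (b (c (l 280950972039) (l 16627616)) (l 16627608)) (c (c (c (l 16597112) (l 16587536)) (b (b (c (l 280414031319) (l 16632800)) (c (l 16642024) (l 16619224))) (l 16617104))) (b (c (b (c (l 16625480) (l 16632880)) (l 16591520)) (l 16609376)) (c (l 16572872) (b (l 16616072) (l 16598088)))))) (c (b (l 16630360) (l 16616464)) (l 16622512))))), by decide +kernel⟩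

def k31_pp_101 : ∃ t, chk3 f_pp_101 t 36 63 2 = true :=
  ⟨(a (b (c (a (b (c (b (l 16503184) (l 16531592)) (b (l 16505816) (l 16510720))) (c (l 16495512) (l 16468640))) (b (b (c (l 16590072) (l 16576136)) (l 16554672)) (l 16505944))) (c (c (a (b (b (a (l 16525288) (l 16548136)) (l 16518176)) (l 16453888)) (b (b (l 16564256) (l 16574232)) (l 16542152))) (a (b (c (b (l 16544400) (l 16545288)) (l 16523656)) (c (l 16525616) (l 16533824))) (b (b (l 16573016) (l 16580112)) (l 16550288)))) (b (b (c (l 16542928) (c (a (l 16548880) (l 16613464)) (b (l 16544976) (l 16548272)))) (l 16526192)) (b (l 16530440) (l 16561752))))) (b (c (a (l 16420960) (l 16543592)) (c (c (l 16409640) (a (l 16489968) (l 16567840))) (l 16511232))) (c (b (l 16390528) (a (a (c (l 16455096) (b (l 16419968) (l 16413832))) (l 16485528)) (l 16539208))) (c (b (c (l 16464200) (l 16482200)) (a (c (a (l 16422952) (l 16474216)) (l 16449056)) (c (l 16550544) (l 16568776)))) (a (l 16500992) (l 16573576)))))) (b (c (a (b (a (l 16579184) (l 16638864))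 (a (l 16599416) (l 16641360))) (b (l 16592608) (l 16588888))) (c (b (a (c (a (l 16601760) (l 16641448)) (a (l 16605768) (l 16643120))) (c (l 16610064) (l 16591688))) (a (c (l 16553608) (a (l 16620584) (l 16682176))) (c (l 16611368) (l 16591736)))) (b (b (a (a (c (l 16664584) (l 16646144)) (l 16658880)) (l 16583840)) (a (l 16612792) (l 16618920))) (a (l 16607344) (l 16604904))))) (c (b (a (l 16565288) (l 16600872)) (b (a (l 16615232) (l 16597120)) (a (l 16597480) (l 16581304)))) (c (a (b (c (l 16579888) (l 16586832)) (c (l 16525976) (a (l 16661256) (l 16646240)))) (b (l 16511704) (c (l 16531784) (l 16524040)))) (b (l 16524512) (a (l 16605856) (l 16561792))))))), by decide +kernel⟩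

def k32_pp_101 : ∃ t, chk3 f_pp_101 t 36 126 3 = true :=
  ⟨(a (c (b (b (c (c (b (a (c (l 16572336) (l 16564680)) (l 16590600)) (c (l 16561584) (l 16525856))) (a (l 16561352) (l 16605456))) (l 16539448)) (c (a (c (l 16520232) (b (l 16558432) (l 16542648))) (c (l 16603024) (b (l 16608136) (l 16596120)))) (l 16533664))) (c (b (b (c (l 16587456) (l 16549104)) (l 16537992)) (l 16526696)) (b (c (b (l 16533752) (l 16497448)) (l 16548576)) (c (l 16513768) (b (l 16527120) (l 16509960)))))) (b (a (l 16552560) (l 16601464)) (a (l 16533328) (l 16597760)))) (c (b (c (b (c (a (b (c (l 16604832) (l 16618376)) (c (l 16620552) (l 16605992))) (c (l 16587592) (l 16597112))) (a (l 16618744) (l 16642816))) (c (a (a (l 16644776) (l 16683192)) (l 16589368)) (a (b (l 16604920) (l 16595920)) (l 16554240)))) (a (a (l 16643000) (l 16681064)) (l 16613600))) (c (b (a (b (l 16620280) (l 16637656)) (l 16564128)) (l 16539936)) (b (a (a (c (l 16615992) (l 16647656)) (l 16612904)) (l 16519640)) (c (a (l 16642632) (l 16605584))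 (b (l 16542608) (l 16508224)))))) (b (a (l 16598064) (l 16633744)) (a (l 16606752) (l 16601240))))), by decide +kernel⟩

def k33_pp_101 : ∃ t, chk3 f_pp_101 t 36 127 3 = true :=
  ⟨(a (c (b (b (c (l 16535640) (l 16477408)) (l 16510144)) (a (l 16498216) (l 16551168))) (b (c (b (c (b (l 16502456) (l 16501400)) (l 16557264)) (c (l 16513464) (b (l 16515728) (l 16492712)))) (l 16511672)) (c (b (l 16484048) (l 16498528)) (b (c (a (l 16436400) (l 16550416)) (l 16545776)) (c (l 16456352) (b (l 16455760) (l 16454576))))))) (c (b (b (a (c (l 16673792) (l 16616696)) (l 16557016)) (l 16512624)) (b (l 16495584) (l 16479848))) (b (c (c (b (a (l 16598952) (l 16551616)) (l 16507456)) (a (a (l 16595488) (l 16627936)) (l 16525400))) (l 16516848)) (b (c (a (l 16631464) (l 16563936)) (b (l 16495416) (a (c (l 16627416) (l 16668616)) (l 16519024)))) (b (c (l 16524928) (c (l 16523152) (l 16461296))) (l 16452056)))))), by decide +kernel⟩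

def k34_pp_101 : ∃ t, chk3 f_pp_101 t 37 124 1 = true :=
  ⟨(a (l 3) (b (l 3) (b (l 3) (c (c (c (l 405504691239) (c (b (l 3) (l 420000179831)) (l 353428197495))) (c (l 350207026359) (l 348596441239))) (l 351817659959))))), by decide +kernel⟩

def k35_pp_101 : ∃ t, chk3 f_pp_101 t 74 250 1 = true :=
  ⟨(a (b (l 3) (a (b (l 3) (b (b (l 3) (c (c (l 382419437911) (c (c (l 364702676903) (l 16614144)) (l 16627280))) (l 16604064))) (c (c (l 16576088) (c (c (l 16595368) (l 16608424)) (l 16605064))) (l 16624272)))) (c (c (b (l 16568696) (b (l 16584736) (a (l 16564336) (l 16572400)))) (c (c (b (l 16578752) (b (l 16564744) (l 16534688))) (b (l 16558304) (b (l 16585176) (l 16569864)))) (b (l 16605736) (b (l 16596848) (l 16566336))))) (c (l 297593825335) (l 302425658087))))) (c (c (b (c (l 16574136) (c (l 16559456) (l 363091969127))) (c (l 271287048631) (l 16541320))) (b (c (c (l 359333893959) (l 355575857703)) (l 16591120)) (c (c (b (l 276655720887) (l 16524768)) (b (c (l 16565600) (l 16573368)) (l 16540768)))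 (b (l 16573896) (l 16554936))))) (c (l 295983118967) (l 299741209143)))), by decide +kernel⟩

def k36_pp_101 : ∃ t, chk3 f_pp_101 t 74 251 1 = true :=
  ⟨(c (c (a (b (a (l 16574536) (b (c (a (l 16588128) (l 16569880)) (l 16542416)) (c (l 16570776) (l 16558696)))) (l 16542640)) (b (c (a (l 16500224) (l 16517672)) (l 16515184)) (a (b (a (l 16522336) (l 16503800)) (l 16504912)) (c (l 16480600) (l 16471768))))) (c (a (b (c (a (l 16595744) (a (l 16556384) (l 16492984))) (a (b (l 16575592) (l 16585552)) (b (a (c (l 16553776) (l 16563176)) (l 16498992)) (b (l 16494024) (l 16531656))))) (l 16500504)) (b (c (l 16457848) (b (l 16509688) (b (l 16489472) (l 16479640)))) (a (b (l 16469144) (l 16484936)) (l 16454176)))) (a (b (b (a (c (l 16595496) (l 16621528)) (c (a (b (l 16562912) (l 16574960)) (l 16518800)) (l 16575576))) (c (b (l 16516680) (l 16568992)) (l 16524944))) (c (l 16490608) (b (l 16554232) (l 16536208)))) (b (c (b (l 16529248) (l 16455856)) (l 16502104)) (c (a (b (a (l 16493968) (l 16475648)) (l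 16470456)) (l 16404792)) (b (a (a (l 16511832) (l 16493384)) (l 16474192)) (a (l 16459520) (l 16443192)))))))) (a (b (a (l 16615464) (b (a (l 16581144) (l 16562320)) (l 16559608))) (c (l 16574352) (l 16571776))) (b (c (l 16521240) (l 16517592)) (c (a (b (l 16505856) (l 16492736)) (l 16465672)) (a (l 16496408) (l 16461216)))))), by decide +kernel⟩

def k37_pp_101 : ∃ t, chk3 f_pp_101 t 75 125 1 = true :=
  ⟨(c (c (b (b (c (a (l 16514400) (l 16493112)) (c (a (l 16478648) (l 16478200)) (b (l 345375079367) (a (l 270213217543) (l 16467360))))) (c (l 16448176) (l 16470480))) (c (l 16354440) (l 16404784))) (b (b (c (c (b (a (l 352891417719) (l 273434424391)) (l 16444088)) (a (l 282024444087) (l 274508153687))) (l 284171845111)) (c (c (b (l 16435088) (l 16430888)) (b (c (l 16494704) (l 16502200)) (l 16467312))) (l 16407544))) (c (b (c (l 16426504) (b (l 16436312) (l 16411880))) (l 16392672)) (b (c (b (l 16434296) (l 16423688)) (l 16448512)) (c (l 16342984) (b (l 16412200) (l 16380912))))))) (b (a (c (l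 289003696983) (l 287929948167)) (c (l 16421232) (l 16437944))) (c (b (l 16445888) (l 16402672)) (l 16419096)))), by decide +kernel⟩

def k38_pp_101 : ∃ t, chk3 f_pp_101 t 37 63 2 = true :=
  ⟨(b (b (c (a (b (a (l 16575880) (a (l 16496560) (b (l 16452664) (l 16441952)))) (l 16427912)) (a (b (l 16401872) (a (l 16384272) (l 16350016))) (l 16332912))) (b (a (c (a (l 16498936) (a (l 16482240) (b (l 16436824) (l 16429632)))) (a (l 16501016) (a (l 16465496) (b (c (l 16420800) (l 16419656)) (l 16410336))))) (c (c (l 16325128) (l 16358536)) (c (l 16347696) (l 16280832)))) (a (c (c (l 16485552) (l 16454312)) (l 16483872)) (a (a (a (l 16375488) (l 16354264)) (l 16289504)) (l 16294160))))) (c (a (l 16386616) (a (b (a (l 16366584) (l 16318392)) (l 16325176)) (b (l 16271872) (l 16172080)))) (a (c (c (l 16426816) (l 16435016)) (l 16469088)) (a (b (a (l 16353088) (l 16241872)) (l 16314368)) (b (a (l 16270256) (l 16245264)) (a (l 16239600) (l 16205064))))))) (b (c (a (l 16418720) (a (l 16300792) (l 16197216)))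 (a (c (c (l 16461056) (l 16444480)) (l 16440472)) (c (a (l 16294016) (b (l 16199352) (l 16179040))) (l 16233608)))) (c (b (a (l 16413400) (l 16220176)) (l 16113152)) (a (c (b (l 16249088) (l 16322168)) (l 16359456)) (c (b (l 16128264) (l 16181328)) (l 16166992)))))), by decide +kernel⟩

def k39_pp_101 : ∃ t, chk3 f_pp_101 t 37 63 3 = true :=
  ⟨(b (c (b (b (a (b (a (l 16498160) (a (l 16482536) (a (l 16402664) (l 16425960)))) (c (c (b (l 16412424) (l 16465456)) (l 16460608)) (l 16480336))) (c (c (b (l 16368416) (l 16337776)) (l 16360192)) (l 16357976))) (a (c (c (l 16432440) (l 16333616)) (l 16488712)) (c (a (b (c (l 16338760) (l 16351632)) (a (l 16280416) (l 16305808))) (c (l 16277032) (l 16282048))) (a (l 16324808) (l 16288840))))) (a (c (l 16336200) (b (c (l 16380640) (l 16471728)) (c (l 16446312) (l 16406568)))) (c (a (b (b (l 16291600) (l 16305872)) (l 16298576)) (b (l 16243960) (l 16209096))) (b (a (b (l 16320040) (l 16282232)) (l 16175232)) (a (l 16226696) (c (l 16198384) (b (l 16210168)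 (l 16187760)))))))) (a (b (a (l 16547400) (b (l 16410008) (l 16432376))) (l 16460584)) (b (a (b (l 16378800) (l 16340928)) (l 16305456)) (a (l 16302512) (l 16158128))))) (c (b (b (a (l 16376552) (c (l 16236496) (l 16122448))) (l 16235552)) (b (l 16131856) (l 16230104))) (c (b (b (a (l 16370008) (a (l 16272728) (l 16085704))) (c (l 16247984) (l 16161784))) (b (l 16061376) (l 16245360))) (b (a (l 16425464) (l 16211408)) (b (b (l 16229640) (c (l 16097656) (l 16263040))) (c (l 16220768) (l 16030656))))))), by decide +kernel⟩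

def k40_pp_101 : ∃ t, chk3 f_pp_101 t 19 30 1 = true :=
  ⟨(a (l 3) (b (l 3) (b (l 3) (a (l 3) (b (l 3) (a (l 3) (a (l 3) (b (l 3) (c (c (l 315847212935) (l 16532376)) (l 16506992)))))))))), by decide +kernel⟩

def k41_pp_101 : ∃ t, chk3 f_pp_101 t 38 124 1 = true :=
  ⟨(b (a (l 3) (a (l 3) (c (c (c (b (l 3) (c (l 408188800023) (l 417315634343))) (l 343764359671)) (l 348596226967)) (l 372218539239)))) (c (c (c (a (b (c (l 410336416087) (b (l 3) (l 418926326375))) (b (a (l 407115254999) (l 266991849367)) (l 269676170727))) (c (b (a (l 265381189527) (l 268065469095)) (l 16369088)) (b (b (l 426442380055) (a (l 263770550663) (l 16361888))) (l 16359328)))) (b (a (c (l 340543187991) (l 340543241815)) (a (c (l 265918046583) (l 270213066855)) (c (l 257864902823) (l 262696792743)))) (a (c (b (l 331416327399) (a (l 262696913271) (l 16411784))) (b (a (l 16476552) (l 266454993111)) (l 16430800))) (c (b (l 16372056) (l 16348704)) (b (l 16351672) (l 16366024)))))) (a (b (l 342153878887) (b (l 333563901959)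 (c (a (l 273971267143) (l 16444944)) (l 16465928)))) (b (l 276655443815) (b (l 16397968) (c (l 16359680) (l 16378560)))))) (a (b (l 359870612199) (c (a (l 16492152) (l 16448704)) (a (l 16488016) (l 16443848)))) (a (c (l 281487294327) (l 275581702327)) (c (l 16379640) (l 16373656)))))), by decide +kernel⟩

def k42_pp_101 : ∃ t, chk3 f_pp_101 t 38 125 1 = true :=
  ⟨(c (c (a (b (c (a (l 16432656) (l 16385856)) (b (c (l 16408520) (b (l 16421504) (l 16374824))) (l 16374880))) (c (l 16301056) (l 16329832))) (b (c (l 16329672) (b (c (l 16326048) (b (l 16337192) (l 16314424))) (l 16297752))) (l 16266704))) (b (c (a (b (c (a (l 16408664) (l 16381992)) (l 16353344)) (c (b (l 16380880) (l 16355800)) (b (l 16379664) (l 16370520)))) (b (c (b (l 16357568) (l 16330264)) (l 16353064)) (c (l 16292360) (l 16306488)))) (a (b (l 16436168) (l 16372760)) (b (l 16351464) (l 16314816)))) (c (a (b (c (l 16330336) (l 16245264)) (l 16296128)) (b (l 16217456) (l 16229768))) (a (b (c (b (l 16357872) (l 16326504)) (l 16350608))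 (c (l 16287888) (b (l 16314392) (l 16283304)))) (b (c (l 16182680) (l 16277368)) (c (l 16221232) (l 16229064))))))) (a (c (b (l 16327248) (b (l 16346960) (l 16303752))) (b (l 16342736) (l 16318512))) (b (a (l 16343072) (l 16307664)) (c (l 16254296) (l 16246320))))), by decide +kernel⟩

def k43_pp_101 : ∃ t, chk3 f_pp_101 t 39 124 2 = true :=
  ⟨(c (c (b (a (b (c (l 394766954551) (b (l 3) (l 402820067463))) (c (a (b (l 16367824) (l 264844200327)) (a (l 265917898279) (l 16278040))) (a (l 260012375767) (l 250348635927)))) (a (b (c (a (l 256791136503) (b (l 16343584) (l 16348936))) (a (l 263233633031) (b (l 16395328) (c (l 16365072) (l 16369040))))) (c (b (l 16320584) (l 16301328)) (l 16330888))) (b (c (l 16386176) (l 16399432)) (b (b (l 16380168) (l 16315240)) (a (a (l 16305888) (l 16314848)) (l 16346744)))))) (a (c (a (l 16323168) (l 16291368)) (b (a (l 16335136) (l 16301592)) (l 16288768))) (b (a (c (l 16285176) (l 16288128)) (c (a (l 16279160) (l 16292640)) (a (l 16282056) (l 16253632)))) (l 16263528))))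 (b (a (b (l 364702265511) (a (b (l 16398632) (l 262696775655)) (a (l 260012386519) (l 16350856)))) (a (b (a (l 16369160) (l 16340240)) (b (l 16350184) (l 16336016))) (b (l 16442096) (b (l 16388104) (a (l 16315760) (l 16371736)))))) (a (a (b (c (l 16353304) (l 16364776)) (c (l 16306440) (l 16323304))) (b (c (l 16319416) (l 16330608)) (c (l 16276008) (l 16292544)))) (b (a (c (l 16305688) (l 16316696)) (a (c (l 16299432) (l 16310320)) (c (l 16312912) (l 16323792)))) (c (l 16260400) (l 16276584)))))) (a (b (a (l 282561019623) (l 277192244215)) (b (l 16302792) (a (l 16331952) (l 16300752)))) (b (a (b (a (l 16364640) (b (l 16389304) (l 16362832))) (l 16339168)) (b (l 16438680) (a (l 16349424) (l 16387472)))) (b (a (l 16313832) (l 16275080)) (l 16284456))))), by decide +kernel⟩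

def k44_pp_101 : ∃ t, chk3 f_pp_101 t 39 125 2 = true :=
  ⟨(c (a (b (c (l 16269760) (b (c (l 16262472) (a (l 16277392) (l 16250104))) (l 16241288))) (l 16221216)) (b (c (l 16244608) (l 16187952)) (l 16203520))) (b (c (a (b (c (a (l 16292768) (l 16265192)) (l 16288048)) (c (l 16214648) (l 16249184))) (b (l 16254208) (c (l 16212392) (l 16225552)))) (a (a (l 16284904) (l 16258616)) (l 16245464))) (c (a (a (l 16210312) (l 16191152)) (l 16182896)) (a (b (c (b (l 16231600) (l 16207368)) (l 16227008)) (c (l 16179152) (l 16186616))) (b (l 16154904) (l 16167912)))))), by decide +kernel⟩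

def k45_pp_101 : ∃ t, chk3 f_pp_101 t 39 62 3 = true :=
  ⟨(b (a (b (a (c (l 293298434439) (l 298667129687)) (c (l 285782174951) (l 285782159975))) (a (c (l 16340936) (l 16334320)) (c (l 16307536) (l 16300384)))) (b (a (b (a (l 292761546039) (b (l 373829054375) (c (l 16356696) (l 16350408)))) (l 16329296)) (b (l 16368720) (a (c (l 16343120) (l 16336656)) (l 16379088)))) (a (l 16290480) (b (a (l 16296792) (l 16310872)) (l 16269920))))) (a (c (b (l 16265912) (l 16207312)) (a (l 16240464) (l 16216952))) (c (l 16214408) (l 16205904)))), by decide +kernel⟩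

def k46_pp_101 : ∃ t, chk3 f_pp_101 t 19 63 2 = true :=
  ⟨(a (a (b (c (b (l 16261416) (l 16178336)) (b (b (c (l 16265464) (l 16249528)) (l 16221632)) (l 16163672))) (c (b (a (b (l 16134984) (l 16096488)) (l 16067344)) (a (b (l 16042768) (l 16022456)) (b (l 15995024) (l 15930576)))) (b (a (b (l 16124432) (l 16064616)) (l 16055784)) (a (b (b (l 16058872) (l 16040280)) (l 16009088)) (b (b (l 15997112) (l 15964216)) (l 15874880)))))) (b (c (l 16084032) (b (b (c (l 16204728) (l 16188536)) (l 16166552)) (l 16117432))) (b (l 16048560) (l 15947944)))) (b (c (a (l 16082072) (l 16138944)) (a (b (b (c (l 16170184) (l 16153984)) (l 16139600)) (l 16102072)) (b (l 16144600) (l 16100160)))) (b (a (l 16046744) (l 16051504)) (l 15952216)))), by decide +kernel⟩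

def k47_pp_101 : ∃ t, chk3 f_pp_101 t 19 63 3 = true :=
  ⟨(b (a (c (b (c (a (b (c (b (l 16270200) (l 16239624)) (l 16261376)) (c (l 16203928) (l 16187560))) (b (c (l 16191136) (l 16199432)) (c (l 16148544) (l 16152792)))) (a (l 16236616) (l 16177328))) (c (a (l 16086600) (l 16102872)) (a (b (c (l 16163936) (l 16169528)) (c (l 16118184) (l 16118848))) (b (l 16113960) (l 16075136))))) (a (b (l 16230376) (l 16141144)) (l 16131880))) (c (b (c (a (b (c (l 16156264) (l 16164216)) (c (l 16121600) (l 16125616))) (b (l 16144360) (l 16116576))) (a (l 16145872) (l 16135808))) (c (a (l 16087520) (l 16085800)) (a (b (l 16094560) (l 16063784)) (b (l 16090848) (l 16064264))))) (a (l 16108168) (l 16102264)))) (a (b (c (a (b (l 16000280) (a (l 16071808) (l 16019064))) (l 15985184)) (a (c (b (l 16073120) (c (l 15971736) (a (l 16057296) (l 16003808)))) (l 15988504)) (c (b (l 16034968) (c (l 15997880) (l 15994256))) (l 16011176)))) (a (c (a (b (l 16039056) (l 15994424)) (b (l 15969776) (l 15902688))) (b (c (a (l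 16028136) (l 15957992)) (a (b (l 16027824) (l 16012432)) (b (l 15964552) (l 15934800)))) (c (l 15898120) (a (l 15978936) (c (l 15886104) (a (l 15896096) (l 15867040))))))) (c (l 15928000) (c (l 15916440) (b (l 15946480) (l 15872504)))))) (b (c (a (b (l 16042984) (l 16012216)) (l 16030640)) (b (a (l 16030160) (l 16034880)) (c (a (c (l 16000752) (l 15997176)) (l 16009360)) (l 15997240)))) (c (l 15932608) (c (l 15921264) (b (l 15949400) (l 15883128))))))), by decide +kernel⟩

def k48_pp_101 : ∃ t, chk3 f_pp_101 t 5 6 1 = true :=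
  ⟨(l 3), by decide +kernel⟩

def k49_pp_101 : ∃ t, chk3 f_pp_101 t 5 14 1 = true :=
  ⟨(a (l 3) (a (l 3) (b (l 3) (a (l 3) (b (l 3) (c (l 519857512471) (l 547237714663))))))), by decide +kernel⟩

def k50_pp_101 : ∃ t, chk3 f_pp_101 t 20 30 1 = true :=
  ⟨(b (l 3) (b (b (l 3) (b (l 3) (a (l 3) (a (l 3) (c (l 381344072167) (l 431809837943)))))) (a (a (b (l 3) (b (a (l 3) (c (l 16485288) (l 16458728))) (c (c (c (l 273434487479) (l 16541928)) (l 16520568)) (l 280413846983)))) (b (b (l 3) (c (l 371681267559) (l 395840446519))) (c (b (l 277728972487) (c (c (l 16314288) (l 16414192)) (l 16389896))) (a (l 273971076887) (l 16277824))))) (c (b (b (a (l 384028792727) (c (l 264306219575) (l 275043627719))) (a (l 273433481607) (l 15893488))) (b (a (l 16150368) (l 15992272)) (c (c (a (l 16176000) (l 16040248)) (l 16005688)) (l 15935104)))) (b (a (c (b (l 403893009719) (l 16097160)) (l 281486398167)) (c (b (l 276117330247) (l 15913608)) (l 15787048))) (a (c (l 16166224) (l 16199088)) (l 15890232))))))), by decide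 +kernel⟩

def k51_pp_101 : ∃ t, chk3 f_pp_101 t 21 60 1 = true :=
  ⟨(b (l 3) (a (l 3) (a (l 3) (c (c (l 493012575015) (l 502676201767)) (l 535425251543))))), by decide +kernel⟩

def k52_pp_101 : ∃ t, chk3 f_pp_101 t 21 122 1 = true :=
  ⟨(a (a (b (l 3) (c (c (l 275043215335) (a (l 290075745063) (l 337320406679))) (c (l 284706763639) (l 15588936)))) (c (a (b (l 3) (c (l 309939802119) (l 323361564007))) (b (c (l 321213741159) (l 316381850935)) (c (l 15416424) (l 15391640)))) (c (b (l 349131020055) (l 269673998471)) (l 277726873175)))) (a (a (b (b (l 3) (c (b (b (l 3) (c (b (l 307254892215) (l 15279120)) (l 310476112247))) (c (l 15288096) (l 15260752))) (c (b (l 311549840871) (l 15233048)) (l 15198976)))) (c (c (l 15324864) (l 15298312)) (l 15257752))) (b (a (b (l 3) (c (b (c (a (a (b (l 15242352) (c (l 212228749767) (l 15227456))) (l 15242616)) (l 15249864)) (a (c (l 235314165719) (l 15205456)) (l 15221736))) (a (c (b (a (l 15234224) (b (l 15231512) (l 15228768))) (l 15235656)) (b (a (l 15205832)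 (l 15202080)) (l 15207304))) (c (b (l 15236608) (l 15228648)) (l 15204416)))) (c (b (l 15188712) (l 15158072)) (l 15156944)))) (c (c (l 190217157671) (l 15245968)) (l 241219736055))) (c (b (a (c (b (a (l 15246144) (b (a (l 15226360) (l 15222704)) (l 15227816))) (l 15249584)) (c (l 15202272) (l 15188096))) (b (c (l 15229720) (l 15201264)) (a (c (b (a (l 15218568) (l 15214928)) (l 15220040)) (b (l 15189080) (l 15191432))) (c (l 15217288) (l 15188616))))) (c (c (l 15236552) (l 15222656)) (l 15222600))) (a (c (l 15202240) (l 15173624)) (b (c (l 15148776) (l 15140472)) (l 15157024)))))) (c (b (c (l 199880863191) (l 213302623415)) (a (a (a (b (l 15221064) (b (l 15216184) (c (l 15204672) (l 15175808)))) (c (l 15227816) (l 15199352))) (l 15228224)) (l 15257928))) (a (b (l 226724302327) (c (b (l 15193440) (l 15161896)) (l 15149704))) (l 255178242935))))), by decide +kernel⟩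

def k53_pp_101 : ∃ t, chk3 f_pp_101 t 21 123 1 = true :=
  ⟨(a (c (b (a (b (c (l 15698128) (l 15678920)) (l 15741336)) (c (b (l 15510416) (l 15562448)) (l 15409232))) (c (b (l 15627928) (a (l 15822408) (l 15675888))) (l 15490928))) (c (b (a (l 15602768) (l 15491496)) (l 15577320)) (a (l 15600104) (l 15526744)))) (c (b (a (c (l 15352744) (l 15326856)) (a (a (a (l 15237312) (c (l 15209584) (l 15202264))) (b (b (l 15184760) (a (c (l 15195312) (l 15166320)) (l 15178200))) (l 15188096))) (b (l 15208576) (a (b (l 15188328) (a (l 15191400) (l 15188864))) (l 15205784))))) (b (a (l 15422000) (a (l 15285272) (c (l 15208632) (l 15201320)))) (c (a (l 15491512) (c (l 15319760) (l 15303776))) (l 15311904)))) (a (c (l 15315368) (l 15331856)) (b (a (b (a (l 15144184) (l 15126464)) (l 15174128)) (b (l 15150864) (l 15142104))) (a (l 15259880) (b (l 15158128) (l 15196928))))))), by decide +kernel⟩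

def k54_pp_101 : ∃ t, chk3 f_pp_101 t 20 62 2 = true :=
  ⟨(c (b (a (a (b (c (b (c (l 16435752) (l 16449392)) (c (l 16368104) (l 16386920))) (b (l 16472040) (l 16399552))) (c (b (l 16277712) (l 16233496)) (b (l 16278112) (a (b (l 16229656) (l 16194120)) (l 16324104))))) (b (c (b (l 16365784) (l 16425704)) (l 16380960)) (c (l 16389408) (b (l 16463632) (l 16381824))))) (b (a (c (b (l 16204312) (l 16261992)) (l 16237376)) (c (b (l 16046104) (l 16123264)) (l 16097464))) (a (c (l 16354552) (b (l 16337216) (l 16372832))) (c (l 16213560) (b (l 16215992) (l 16229096)))))) (a (a (b (b (a (c (l 16254448) (a (l 16231200) (l 16246376))) (l 16317352)) (a (l 16222416) (l 16258928))) (l 16120000)) (b (c (l 16393936) (l 16297768)) (l 16223592))) (a (a (l 16285336) (l 16385080)) (c (l 16313000) (l 16190728))))) (a (b (b (b (l 16367216) (l 16365128)) (a (b (l 16409608) (a (b (l 16329104) (l 16297344)) (l 16405064))) (l 16436656))) (a (b (c (b (a (a (l 16247184) (l 16220456)) (l 16326912)) (a (l 16211608) (c (l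 16243024) (l 16255928)))) (a (l 16183680) (l 16277688))) (c (b (a (l 16185464) (l 16195184)) (l 16168168)) (b (c (a (l 16191672) (l 16201376)) (l 16207472)) (l 16163880)))) (b (c (b (l 16367056) (l 16285880)) (l 16358080)) (c (l 16121352) (b (l 16240536) (a (l 16161640) (l 16300016))))))) (b (b (l 16002328) (a (l 16330944) (l 16247912))) (b (c (b (l 16201120) (b (l 16259432) (l 16336200))) (l 16240176)) (a (c (l 16381136) (l 16300816)) (c (l 16425096) (l 16311680))))))), by decide +kernel⟩

def k55_pp_101 : ∃ t, chk3 f_pp_101 t 20 62 3 = true :=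
  ⟨(a (b (a (a (b (l 16404304) (b (l 16375144) (l 16263056))) (l 16299400)) (c (l 16375952) (l 16374768))) (a (b (a (b (l 16251784) (l 16215968)) (l 16248296)) (b (l 16156216) (l 16167464))) (b (l 16353192) (b (l 16327848) (l 16173968))))) (a (b (a (l 16316712) (l 16249936)) (l 16315736)) (b (l 16028064) (l 16209360)))), by decide +kernel⟩

def k56_pp_101 : ∃ t, chk3 f_pp_101 t 20 63 1 = true :=
  ⟨(c (a (b (b (a (c (l 16162232) (l 16143664)) (c (l 16101048) (a (b (l 16164672) (l 16133768)) (l 16168800)))) (a (l 16110224) (l 16121448))) (b (b (l 16079672) (l 16046672)) (l 15963032))) (b (b (b (c (l 16356448) (l 16238752)) (l 16219024)) (b (l 16198112) (l 16133704))) (a (b (b (l 16143856) (l 16075224)) (l 15978160)) (b (l 16257712) (l 16083944))))) (b (a (c (b (a (c (l 16068472) (l 16134920)) (c (b (a (l 16154856) (l 16231040)) (a (l 16119080) (l 16162256))) (l 16138904))) (c (a (l 16089832) (l 16101616)) (b (a (l 16093776) (l 16105936)) (l 16073048)))) (a (l 16103944) (b (l 16132344) (l 16092448))))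 (a (c (b (b (l 16302776) (l 16212168)) (c (l 16218808) (b (l 16245256) (l 16176752)))) (l 16178864)) (c (b (l 16342208) (c (l 16376136) (l 16268320))) (l 16381680)))) (a (c (b (b (l 16057616) (l 16027648)) (l 15944024)) (b (c (b (l 16046816) (c (l 16016728) (l 16013312))) (l 16025248)) (c (l 15933040) (b (l 15957992) (l 15898352))))) (b (c (a (b (l 16082112) (l 16057312)) (l 16181344)) (b (a (l 15987432) (l 16282344)) (a (c (l 15943424) (l 16041896)) (l 16106656)))) (c (a (l 15959800) (l 16068696)) (a (c (l 15949184) (b (l 15973544) (l 15910528))) (c (l 16059688) (b (l 16105680) (l 16004072))))))))), by decide +kernel⟩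

def k57_pp_101 : ∃ t, chk3 f_pp_101 t 21 31 1 = true :=
  ⟨(b (c (b (c (b (c (a (b (a (l 15937968) (l 15750192)) (c (l 15913776) (l 15903824))) (b (a (l 15566440) (l 15386672)) (c (l 15567616) (l 15534896)))) (a (l 15598408) (l 15394800))) (a (c (l 15758608) (b (l 15821320) (l 15855104))) (c (l 15515664) (c (l 15456912) (l 15579104))))) (b (a (l 15815896) (l 15460040)) (a (l 15827912) (l 15575848)))) (a (c (a (l 15993576) (l 15845712)) (b (c (b (l 16012816) (l 16002984)) (l 16068472)) (c (l 16110240) (l 15952048)))) (c (a (l 15701656) (l 15582352)) (b (c (b (l 15677960) (l 15751544)) (l 15687744)) (c (l 15837144) (l 15717200)))))) (b (a (c (l 15691272) (l 15739104)) (a (l 15579568) (l 15389368))) (a (c (l 15952544) (l 16005248)) (l 15473224)))) (c (b (a (c (l 16117816) (b (l 16146488) (l 16282984))) (b (c (l 15934472) (l 15933600)) (l 15968984))) (a (a (l 16168576) (l 16445440)) (l 16055560))) (b (c (a (b (a (b (l 16319632) (l 16343656)) (l 16108816)) (c (l 16268040) (b (l 16277968) (l 16322584))))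 (b (l 15735240) (c (l 16049624) (l 15898752)))) (a (l 16112032) (l 15926504))) (c (a (a (l 16116952) (l 16357272)) (l 16007472)) (a (b (b (l 16365792) (l 16231080)) (c (l 16214400) (b (l 16261376) (l 16144408)))) (b (c (b (l 16144408) (l 16152344)) (l 16174208)) (c (l 16268976) (l 16076392)))))))), by decide +kernel⟩

def k58_pp_101 : ∃ t, chk3 f_pp_101 t 11 30 1 = true :=
  ⟨(a (a (b (b (l 3) (c (b (l 507508355543) (c (l 261621152135) (l 273432254999))) (c (l 285243354743) (l 278800857111)))) (c (b (a (c (l 15363960) (l 15338080)) (l 15491016)) (b (c (l 15315472) (l 15288848)) (a (b (l 15247376) (c (c (l 15243832) (l 15248264)) (l 15227400))) (l 15324688)))) (b (c (l 15351664) (l 15325848)) (a (b (l 15206760) (l 15189064)) (l 15280152))))) (b (c (b (l 534889219879) (c (b (l 262695312743) (l 15648744)) (l 262158257559))) (b (l 608440505847) (c (l 15515624) (l 15621072)))) (c (b (c (l 15552824) (l 15530776)) (c (b (l 15470472) (l 15456448)) (l 15439200))) (b (l 15434184) (l 15403200))))) (b (a (c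 (a (b (l 285244296791) (l 15774376)) (b (l 271822650503) (l 15826520))) (a (b (l 281486118871) (l 15738536)) (b (l 265916997239) (l 15792968)))) (c (c (l 15911384) (l 15896208)) (l 235315140151))) (c (a (b (a (l 15645056) (l 15688128)) (c (a (l 15564712) (l 15597632)) (l 15560160))) (b (l 15695040) (l 15592112))) (a (b (a (l 15604776) (l 15649736)) (a (l 15510080) (l 15544816))) (l 15603512))))), by decide +kernel⟩

def k59_pp_101 : ∃ t, chk3 f_pp_101 t 22 31 1 = true :=
  ⟨(b (c (b (a (c (a (b (c (b (a (a (l 15278392) (l 15241248)) (l 15286200)) (a (l 15331744) (l 15302608))) (a (b (l 15224400) (l 15284536)) (l 15236832))) (c (b (a (l 15395784) (l 15328248)) (l 15404728)) (b (a (l 15350344) (l 15282128)) (l 15381744)))) (b (c (l 15357208) (l 15316008)) (c (l 15354704) (b (l 15315528) (l 15328552))))) (a (b (a (l 15247864) (l 15235856)) (a (l 15347640) (l 15273264))) (l 15289008))) (c (c (b (l 15476968) (l 15474616)) (b (l 15437008) (l 15447528))) (l 15411392))) (a (a (c (l 15445824) (c (b (l 15444568)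 (l 15563536)) (l 15377176))) (c (b (b (a (l 15332184) (l 15345312)) (l 15350800)) (l 15395488)) (b (c (b (l 15302184) (l 15232888)) (l 15295472)) (c (l 15395888) (l 15271520))))) (c (b (l 15429384) (l 15408480)) (b (l 15408032) (c (l 15409096) (l 15389720)))))) (a (b (a (b (a (l 15206160) (l 15193776)) (l 15272776)) (l 15248248)) (a (l 15442096) (b (l 15261824) (l 15328928)))) (b (l 15374424) (l 15349016)))) (c (b (a (b (c (l 15575784) (l 15567672)) (l 15688280)) (a (b (c (l 15376936) (l 15364728)) (l 15432424)) (b (l 15422872) (l 15402352)))) (a (l 15882936) (a (l 15601296) (l 15462008)))) (b (a (c (b (l 15550712) (c (l 15675872) (l 15668088))) (l 15585776)) (c (b (a (c (l 15352912) (l 15328888)) (l 15393904)) (a (c (l 15413432) (l 15402984)) (l 15369072))) (a (l 15355088) (l 15354080)))) (c (a (l 15865288) (a (l 15574952) (l 15431288))) (b (a (l 15711976) (a (l 15484464) (l 15357408))) (c (l 15495504) (a (l 15894744) (l 15497432)))))))), by decide +kernel⟩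

def k60_pp_101 : ∃ t, chk3 f_pp_101 t 23 31 1 = true :=
  ⟨(b (c (b (a (c (c (b (a (l 15577160) (l 15602184)) (l 15584544)) (a (l 15549376) (l 15571968))) (l 15525960)) (c (c (l 15598112) (l 15575392)) (l 15540440))) (c (a (a (l 15518360) (l 15529584)) (l 15531080)) (a (c (b (l 15526808) (l 15512896)) (b (l 15495448) (l 15494616))) (c (l 15524160) (l 15505120))))) (a (a (l 15466600) (l 15484424)) (l 15487024))) (c (b (a (b (c (l 15481520) (l 15471544)) (l 15453384)) (l 15466944)) (l 15424704)) (b (b (a (c (l 15347824) (l 15421032)) (l 15438720)) (c (l 15422008) (l 15401016))) (c (l 15392808) (b (l 15371320) (l 15356392)))))), by decide +kernel⟩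

def k61_pp_101 : ∃ t, chk3 f_pp_101 t 3 1 1 = true :=
  ⟨(b (l 3) (b (a (l 3) (a (l 3) (l 1))) (b (a (a (b (l 3) (b (c (l 615420860695) (l 548848833207)) (c (a (a (l 180018360183) (l 16125960)) (l 16146928)) (a (c (l 258401169751) (l 16097208)) (l 16103016))))) (b (a (l 3) (c (l 312625790359) (l 510194283863))) (c (a (l 222430843271) (l 236926357895)) (a (l 220283308967) (l 16186912))))) (a (b (c (a (l 191829856135) (l 16440056)) (l 224578958679)) (c (a (l 16207000) (l 16207000)) (a (l 16186912) (l 16186912)))) (b (l 1) (c (l 556230322327) (l 16186912))))) (a (b (a (c (b (a (a (l 15903792) (l 15903792)) (l 15903792)) (b (a (l 15695040) (l 15695040)) (a (l 15592112) (l 15592112)))) (a (b (c (l 15880832) (l 15865248)) (b (l 15656952) (l 15550288))) (b (l 15873040) (l 15603512)))) (c (b (a (l 15903792) (l 15903792)) (b (l 15695040) (l 15592112))) (a (b (l 15873040) (l 15603512)) (l 15653456)))) (b (c (a (c (b (c (a (l 15598112) (l 15598112)) (l 15575392)) (a (l 15531080) (l 15531080))) (b (l 15540440)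 (c (l 15503192) (l 15505120)))) (c (b (a (l 15584616) (l 15584616)) (l 15531080)) (b (l 15540440) (l 15491176)))) (a (a (l 15487024) (l 15487024)) (a (l 15487024) (l 15487024)))) (b (a (c (c (l 15472336) (l 15460560)) (c (b (l 15454096) (l 15422264)) (l 15411984))) (c (l 15466944) (l 15407176))) (c (l 15424288) (c (l 15392376) (a (l 15344664) (l 15365632))))))) (c (b (a (b (l 15903792) (b (l 15695040) (l 15592112))) (b (l 15903792) (c (l 15677096) (l 15633576)))) (b (a (b (c (l 15584616) (l 15540440)) (l 15401192)) (c (l 15544984) (l 15525640))) (l 15447504))) (b (a (b (l 15873040) (l 15603512)) (a (l 15737344) (l 15737344))) (b (a (l 15487024) (l 15487024)) (b (l 15323288) (c (l 15392376) (l 15365632)))))))))), by decide +kernel⟩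

theorem s62_pp_101 : ∃ t, chk3 f_pp_101 t 11 31 1 = true := ex3_a k59_pp_101 k60_pp_101

theorem s63_pp_101 : ∃ t, chk3 f_pp_101 t 11 15 1 = true := ex3_b k58_pp_101 s62_pp_101

theorem s64_pp_101 : ∃ t, chk3 f_pp_101 t 20 62 1 = true := ex3_c k54_pp_101 k55_pp_101

theorem s65_pp_101 : ∃ t, chk3 f_pp_101 t 20 31 1 = true := ex3_b s64_pp_101 k56_pp_101

theorem s66_pp_101 : ∃ t, chk3 f_pp_101 t 10 31 1 = true := ex3_a s65_pp_101 k57_pp_101

theorem s67_pp_101 : ∃ t, chk3 f_pp_101 t 21 61 1 = true := ex3_b k52_pp_101 k53_pp_101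

theorem s68_pp_101 : ∃ t, chk3 f_pp_101 t 21 30 1 = true := ex3_b k51_pp_101 s67_pp_101

theorem s69_pp_101 : ∃ t, chk3 f_pp_101 t 10 30 1 = true := ex3_a k50_pp_101 s68_pp_101

theorem s70_pp_101 : ∃ t, chk3 f_pp_101 t 10 15 1 = true := ex3_b s69_pp_101 s66_pp_101

theorem s71_pp_101 : ∃ t, chk3 f_pp_101 t 5 15 1 = true := ex3_a s70_pp_101 s63_pp_101

theorem s72_pp_101 : ∃ t, chk3 f_pp_101 t 5 7 1 = true := ex3_b k49_pp_101 s71_pp_101

theorem s73_pp_101 : ∃ t, chk3 f_pp_101 t 5 3 1 = true := ex3_b k48_pp_101 s72_pp_101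

theorem s74_pp_101 : ∃ t, chk3 f_pp_101 t 19 63 1 = true := ex3_c k46_pp_101 k47_pp_101

theorem s75_pp_101 : ∃ t, chk3 f_pp_101 t 39 62 2 = true := ex3_b k43_pp_101 k44_pp_101

theorem s76_pp_101 : ∃ t, chk3 f_pp_101 t 39 62 1 = true := ex3_c s75_pp_101 k45_pp_101

theorem s77_pp_101 : ∃ t, chk3 f_pp_101 t 38 62 1 = true := ex3_b k41_pp_101 k42_pp_101

theorem s78_pp_101 : ∃ t, chk3 f_pp_101 t 19 62 1 = true := ex3_a s77_pp_101 s76_pp_101

theorem s79_pp_101 : ∃ t, chk3 f_pp_101 t 19 31 1 = true := ex3_b s78_pp_101 s74_pp_101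

theorem s80_pp_101 : ∃ t, chk3 f_pp_101 t 19 15 1 = true := ex3_b k40_pp_101 s79_pp_101

theorem s81_pp_101 : ∃ t, chk3 f_pp_101 t 37 63 1 = true := ex3_c k38_pp_101 k39_pp_101

theorem s82_pp_101 : ∃ t, chk3 f_pp_101 t 74 125 1 = true := ex3_b k35_pp_101 k36_pp_101

theorem s83_pp_101 : ∃ t, chk3 f_pp_101 t 37 125 1 = true := ex3_a s82_pp_101 k37_pp_101

theorem s84_pp_101 : ∃ t, chk3 f_pp_101 t 37 62 1 = true := ex3_b k34_pp_101 s83_pp_101

theorem s85_pp_101 : ∃ t, chk3 f_pp_101 t 37 31 1 = true := ex3_b s84_pp_101 s81_pp_101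

theorem s86_pp_101 : ∃ t, chk3 f_pp_101 t 36 63 3 = true := ex3_b k32_pp_101 k33_pp_101

theorem s87_pp_101 : ∃ t, chk3 f_pp_101 t 36 63 1 = true := ex3_c k31_pp_101 s86_pp_101

theorem s88_pp_101 : ∃ t, chk3 f_pp_101 t 36 125 1 = true := ex3_b k29_pp_101 k30_pp_101

theorem s89_pp_101 : ∃ t, chk3 f_pp_101 t 36 62 1 = true := ex3_b k28_pp_101 s88_pp_101

theorem s90_pp_101 : ∃ t, chk3 f_pp_101 t 36 31 1 = true := ex3_b s89_pp_101 s87_pp_101

theorem s91_pp_101 : ∃ t, chk3 f_pp_101 t 18 31 1 = true := ex3_a s90_pp_101 s85_pp_101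

theorem s92_pp_101 : ∃ t, chk3 f_pp_101 t 18 15 1 = true := ex3_b k27_pp_101 s91_pp_101

theorem s93_pp_101 : ∃ t, chk3 f_pp_101 t 9 15 1 = true := ex3_a s92_pp_101 s80_pp_101

theorem s94_pp_101 : ∃ t, chk3 f_pp_101 t 9 7 1 = true := ex3_b k26_pp_101 s93_pp_101

theorem s95_pp_101 : ∃ t, chk3 f_pp_101 t 17 126 3 = true := ex3_b k23_pp_101 k24_pp_101

theorem s96_pp_101 : ∃ t, chk3 f_pp_101 t 17 63 3 = true := ex3_b s95_pp_101 k25_pp_101

theorem s97_pp_101 : ∃ t, chk3 f_pp_101 t 8 63 3 = true := ex3_a k22_pp_101 s96_pp_101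

theorem s98_pp_101 : ∃ t, chk3 f_pp_101 t 8 31 3 = true := ex3_b k21_pp_101 s97_pp_101

theorem s99_pp_101 : ∃ t, chk3 f_pp_101 t 8 15 3 = true := ex3_b k20_pp_101 s98_pp_101

theorem s100_pp_101 : ∃ t, chk3 f_pp_101 t 8 7 3 = true := ex3_b k19_pp_101 s99_pp_101

theorem s101_pp_101 : ∃ t, chk3 f_pp_101 t 35 126 5 = true := ex3_b k16_pp_101 k17_pp_101

theorem s102_pp_101 : ∃ t, chk3 f_pp_101 t 35 63 5 = true := ex3_b s101_pp_101 k18_pp_101

theorem s103_pp_101 : ∃ t, chk3 f_pp_101 t 35 31 5 = true := ex3_b k15_pp_101 s102_pp_101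

theorem s104_pp_101 : ∃ t, chk3 f_pp_101 t 142 63 4 = true := ex3_c k12_pp_101 k13_pp_101

theorem s105_pp_101 : ∃ t, chk3 f_pp_101 t 71 63 4 = true := ex3_a s104_pp_101 k14_pp_101

theorem s106_pp_101 : ∃ t, chk3 f_pp_101 t 282 126 4 = true := ex3_b k8_pp_101 k9_pp_101

theorem s107_pp_101 : ∃ t, chk3 f_pp_101 t 141 126 4 = true := ex3_a s106_pp_101 k10_pp_101

theorem s108_pp_101 : ∃ t, chk3 f_pp_101 t 141 63 4 = true := ex3_b s107_pp_101 k11_pp_101

theorem s109_pp_101 : ∃ t, chk3 f_pp_101 t 70 63 4 = true := ex3_a k7_pp_101 s108_pp_101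

theorem s110_pp_101 : ∃ t, chk3 f_pp_101 t 35 63 4 = true := ex3_a s109_pp_101 s105_pp_101

theorem s111_pp_101 : ∃ t, chk3 f_pp_101 t 35 31 4 = true := ex3_b k6_pp_101 s110_pp_101

theorem s112_pp_101 : ∃ t, chk3 f_pp_101 t 35 31 2 = true := ex3_c s111_pp_101 s103_pp_101

theorem s113_pp_101 : ∃ t, chk3 f_pp_101 t 17 31 2 = true := ex3_a k5_pp_101 s112_pp_101

theorem s114_pp_101 : ∃ t, chk3 f_pp_101 t 17 15 2 = true := ex3_b k4_pp_101 s113_pp_101

theorem s115_pp_101 : ∃ t, chk3 f_pp_101 t 8 15 2 = true := ex3_a k3_pp_101 s114_pp_101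

theorem s116_pp_101 : ∃ t, chk3 f_pp_101 t 8 7 2 = true := ex3_b k2_pp_101 s115_pp_101

theorem s117_pp_101 : ∃ t, chk3 f_pp_101 t 8 7 1 = true := ex3_c s116_pp_101 s100_pp_101

theorem s118_pp_101 : ∃ t, chk3 f_pp_101 t 4 7 1 = true := ex3_a s117_pp_101 s94_pp_101

theorem s119_pp_101 : ∃ t, chk3 f_pp_101 t 4 3 1 = true := ex3_b k1_pp_101 s118_pp_101

theorem s120_pp_101 : ∃ t, chk3 f_pp_101 t 2 3 1 = true := ex3_a s119_pp_101 s73_pp_101

theorem s121_pp_101 : ∃ t, chk3 f_pp_101 t 2 1 1 = true := ex3_b k0_pp_101 s120_pp_101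

theorem s122_pp_101 : ∃ t, chk3 f_pp_101 t 1 1 1 = true := ex3_a s121_pp_101 k61_pp_101

theorem c_pp_101 : CertNX 536870912 469762048 536870912 536870912 1046898278 26843546 3 false true true .npn 1 0 1
    ndN6q1 ndN0q1 pcN0 Cut.none Ext.none :=
  certNX2 (fam := false) (s1 := true) (s2 := true) (a := 1) (b := 0) (c := 1) (cn := .npn) (n1 := ndN6q1) (n2 := ndN0q1) (pc := pcN0) (cut := Cut.none) (xt := Ext.none) (P1 := 536870912) (W1 := 469762048) (P2 := 536870912) (W2 := 536870912) (P3 := 1046898278) (W3 := 26843546) (N0 := 3)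
    rfl (fun _ => rfl) s122_pp_101

noncomputable def f_pp_102 : ℕ → ℕ → ℕ → ℕ → Bool := onCell 536870912 469762048 0 536870912 1046898278 26843546
    (rowNX 3 0 false true true .npp 1 0 2 (qsf 536870912 469762048 0 536870912 0) ndN6q1 ndN0q2 pcN0 Cut.none Ext.none)

def k0_pp_102 : ∃ t, chk3 f_pp_102 t 2 1 1 = true :=
  ⟨(b (a (l 2) (b (b (l 16777216) (l 16777216)) (c (l 16777216) (l 16777216)))) (b (b (c (l 16777216) (l 16777216)) (b (l 16709592) (a (l 16516872) (l 16516872)))) (b (a (b (l 16299392) (l 16006360)) (b (l 16299392) (l 16006360))) (b (b (a (l 15708848) (l 15708848)) (c (a (l 15649840) (l 15586928)) (l 15596320))) (c (a (b (l 15548968) (l 15451960)) (b (c (l 15564784) (l 15539776)) (l 15451960))) (b (a (l 15508592) (l 15508592)) (a (c (l 15420544) (l 15392720)) (c (l 15420544) (b (l 15424240) (l 15371256)))))))))), by decide +kernel⟩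

def k1_pp_102 : ∃ t, chk3 f_pp_102 t 3 2 1 = true :=
  ⟨(a (a (b (l 16777216) (l 16777216)) (b (a (l 16505280) (l 15553200)) (a (b (l 16505280) (l 16421400)) (b (l 15553200) (l 15553200))))) (a (b (a (l 14529856) (l 13939560)) (a (b (l 14529856) (l 14529856)) (l 13939560))) (b (a (c (l 13647752) (l 13536064)) (c (a (l 13584416) (b (l 13601920) (l 13617440))) (l 13465752))) (a (a (l 13660208) (b (l 13522328) (c (b (l 13582592) (a (l 13589984) (l 13601912))) (b (l 13466752) (l 13483080))))) (b (c (a (l 13595056) (l 13660440)) (l 13496872)) (c (a (c (l 13674008) (l 13402072)) (c (l 13764968) (l 13701256))) (b (b (l 13525912) (l 13546400)) (l 13578744)))))))), by decide +kernel⟩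

def k2_pp_102 : ∃ t, chk3 f_pp_102 t 6 3 1 = true :=
  ⟨(b (a (b (l 16777216) (l 16615176)) (a (b (l 16400424) (a (l 16601272) (l 16381656))) (b (l 15553200) (l 15502312)))) (b (a (b (l 16299392) (l 16006360)) (b (a (a (l 16351888) (l 16557784)) (l 15798216)) (a (a (l 16061456) (l 16366632)) (a (l 16259576) (b (l 15717136) (a (l 15962400) (l 15723048))))))) (a (b (c (b (l 15727072) (l 15649840)) (l 15647568)) (c (b (c (l 15564784) (l 15539776)) (l 15451960)) (b (l 15508592) (c (l 15420544) (b (l 15424240) (l 15371256)))))) (b (a (b (a (l 15766048) (l 16127120)) (c (a (c (l 15533696) (l 15694736)) (c (l 15934096) (l 16082328))) (l 15686800))) (b (a (a (l 16480976) (l 16116752)) (b (l 15955200) (l 16020232))) (a (c (b (a (l 16443864) (l 16381064)) (c (l 16380688) (l 16453248))) (l 16332816)) (c (c (b (l 16078224) (l 16120624)) (l 16087408)) (l 16100976))))) (a (b (c (a (c (l 15623120) (b (l 15636016) (l 15578800))) (b (c (l 16031408) (l 15879240)) (l 15771976))) (a (l 15423304) (b (l 15992456) (c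 (l 15823224) (l 15929080))))) (c (a (a (l 15452120) (l 15561432)) (l 15821080)) (a (c (b (a (l 15446056) (l 15569112)) (l 15445976)) (b (l 15486824) (a (l 15371416) (l 15376200)))) (c (b (l 15722944) (l 15774752)) (b (l 15856976) (l 15591296)))))) (b (b (c (c (l 16226208) (a (l 16430472) (l 16154352))) (l 16224464)) (c (a (l 16275824) (l 16257304)) (a (l 16226944) (l 16140448)))) (c (a (l 16112992) (l 16334760)) (c (b (a (b (l 16243032) (l 16215440)) (l 16228904)) (l 16085600)) (b (a (l 16235376) (l 16392520)) (a (c (l 16107712) (l 16017232)) (b (l 16300784) (l 16298648)))))))))))), by decide +kernel⟩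

def k3_pp_102 : ∃ t, chk3 f_pp_102 t 7 6 1 = true :=
  ⟨(a (b (a (l 14487912) (b (l 13939560) (b (l 13939600) (l 13941128)))) (a (b (l 14573768) (a (l 14946752) (a (l 14553960) (l 14346264)))) (b (a (l 14078648) (b (l 13873848) (l 13945512))) (a (b (l 14180512) (l 14253312)) (l 14056624))))) (a (b (a (b (c (l 13719888) (l 13612192)) (c (b (l 13732800) (l 13748568)) (l 13634864))) (c (b (l 13625384) (c (l 13688992) (l 13632976))) (b (l 13514336) (l 13547392)))) (a (b (l 13761536) (l 13902800)) (c (b (c (l 13761472) (l 13706160)) (c (l 13889608) (l 13838008))) (b (l 13622448) (l 13758640))))) (b (c (c (a (l 13747040) (b (l 13823320) (l 13845344))) (b (l 13718416) (l 13744672))) (b (l 13613576) (l 13638256))) (c (b (a (c (l 13834336) (l 13773688)) (c (a (l 13896552) (b (l 13902752) (l 13982704))) (b (l 13830944) (l 13904656)))) (a (c (l 13956760) (l 13900560)) (a (c (l 14037976) (l 13978640)) (c (l 14116088) (l 14058880))))) (b (b (l 13676832) (l 13762688)) (a (l 13812608) (b (l 13876824) (l 13961448)))))))),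 by decide +kernel⟩

def k4_pp_102 : ∃ t, chk3 f_pp_102 t 14 7 1 = true :=
  ⟨(b (a (b (a (b (l 15051184) (a (l 15253824) (l 14996720))) (b (l 14557960) (l 14628368))) (b (a (a (l 15343256) (l 15088360)) (l 14635768)) (a (l 15361288) (l 14889744)))) (b (l 14126264) (b (b (l 14228544) (l 14164024)) (c (l 14616248) (l 14542392))))) (b (a (b (a (l 15415200) (c (l 15043480) (l 15067072))) (c (a (c (b (l 15660968) (l 15739256)) (l 15691136)) (c (b (l 15190456) (a (l 15426392) (l 15268800))) (l 15032952))) (a (l 15672272) (l 15254888)))) (b (b (l 14775200) (c (l 14927904) (l 14865568))) (c (b (c (a (l 15091112) (b (l 14962352) (l 15015064))) (l 15026848)) (c (a (l 15203752) (b (l 15081032) (l 15155976))) (a (l 15184760) (l 15099912)))) (a (l 15094960) (l 14997408))))) (a (b (c (a (c (l 15896736) (b (l 15824160) (l 15940464))) (c (a (l 15604688) (l 15461816)) (b (a (l 15519256) (l 15368512)) (l 15559784)))) (a (b (l 15812960) (l 15796712)) (b (l 15422952) (a (l 15624528) (l 15417656))))) (c (a (l 15993656)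 (a (l 15878048) (l 15587560))) (a (c (b (l 15845824) (l 16198928)) (b (l 16044216) (b (l 15969080) (c (l 16231288) (l 16143744))))) (c (b (c (l 15713656) (b (l 15662824) (l 15745960))) (l 15709560)) (b (l 15462880) (a (c (l 15927552) (l 15880696)) (c (l 15762912) (b (l 15752384) (l 15843856))))))))) (b (c (b (c (a (l 15345864) (l 15283504)) (a (b (l 15282256) (l 15352248)) (l 15254368))) (a (b (l 15452032) (l 15529560)) (l 15442288))) (b (a (l 15293752) (l 15228656)) (c (a (c (l 15455800) (l 15451184)) (l 15403944)) (l 15411712)))) (c (b (l 15616488) (l 15812824)) (c (b (b (c (l 15562400) (l 15550392)) (l 15650152)) (l 15789208)) (b (b (l 15541752) (l 15631032)) (c (b (l 15728832) (l 15824816)) (b (l 15719944) (l 15754264)))))))))), by decide +kernel⟩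

def k5_pp_102 : ∃ t, chk3 f_pp_102 t 15 14 1 = true :=
  ⟨(a (b (a (l 14026632) (c (a (l 13970152) (c (l 14011904) (l 13961320))) (l 13878240))) (a (b (b (l 14091312) (l 14136992)) (b (a (l 14271232) (l 14169960)) (l 14373560))) (b (c (a (l 14058088) (l 14097736)) (l 13983528)) (c (a (a (l 14237280) (l 14234040)) (c (l 14297368) (l 14252048))) (b (l 14094384) (l 14236920)))))) (b (c (a (c (b (l 14051552) (l 14130800)) (b (l 13997136) (l 14077840))) (c (a (l 14209696) (l 14300240)) (c (l 14220728) (l 14163272)))) (a (l 13958560) (l 14106936))) (c (a (c (b (l 14234352) (b (l 14339280) (l 14434344))) (b (l 14183288) (a (l 14308208) (l 14372200)))) (c (a (l 14429160) (a (l 14494848) (l 14540696))) (c (b (l 14369560) (a (l 14461352) (l 14553600))) (l 14387128)))) (b (l 14179816) (a (l 14270160) (l 14406080)))))), by decide +kernel⟩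

def k6_pp_102 : ∃ t, chk3 f_pp_102 t 30 15 1 = true :=
  ⟨(b (a (b (b (l 14547096) (l 14708608)) (c (c (b (l 14889736) (l 15041904)) (l 14945184)) (l 14906952))) (c (b (c (b (l 14536264) (l 14707264)) (a (l 14570144) (l 14594224))) (c (b (a (c (l 14833688) (l 14837176)) (l 14862680)) (a (c (l 14991952) (l 14982112)) (l 15028448))) (a (a (l 14888160) (l 14886760)) (c (l 14929160) (l 14917304))))) (b (l 14523408) (l 14862632)))) (c (b (a (c (l 15307064) (b (c (l 15190200) (l 15183544)) (l 15374360))) (c (a (b (l 15174792) (l 15373312)) (l 15318576)) (b (c (a (a (l 15144144) (l 15147672)) (l 15190904)) (a (l 15138240) (l 15178144))) (a (a (l 15337056) (l 15344096)) (c (l 15401248) (l 15378736)))))) (a (b (l 15580632) (l 15778216)) (a (a (l 15655816) (b (l 15565424) (c (l 15610312) (b (l 15716888) (l 15842752))))) (b (c (b (l 15589440) (l 15693424)) (a (l 15594880) (b (l 15585576) (l 15728832)))) (c (b (l 15852624) (l 16000152)) (a (b (l 15784040) (l 15934128)) (l 15897960))))))) (b (a (b (l 15160344)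 (c (l 15306664) (l 15330616))) (b (l 15134688) (c (a (a (l 15310528) (l 15316424)) (l 15193968)) (l 15319432)))) (a (c (b (c (l 15548888) (b (l 15485304) (l 15590056))) (l 15753288)) (b (l 15524736) (c (b (l 15685888) (l 15794592)) (b (l 15676480) (l 15786560))))) (b (c (a (c (l 15526224) (b (l 15458976) (l 15570512))) (b (c (l 15534376) (l 15479784)) (b (l 15628112) (l 15697792)))) (a (b (l 15449456) (l 15556200)) (b (l 15513112) (a (l 15603488) (l 15681016))))) (c (a (a (l 15737280) (l 15764440)) (l 15702936)) (a (b (c (a (l 15666320) (l 15681456)) (l 15664376)) (c (l 15758232) (a (l 15773312) (c (l 15808104) (l 15805080))))) (b (c (b (l 15758936) (l 15836688)) (l 15790496)) (c (l 15957240) (c (l 15951672) (l 15949280))))))))))), by decide +kernel⟩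

def k7_pp_102 : ∃ t, chk3 f_pp_102 t 62 15 1 = true :=
  ⟨(b (c (b (b (c (l 14597240) (l 14552776)) (c (l 14777192) (l 14736008))) (c (b (c (l 14921936) (l 14943240)) (b (c (l 15044632) (l 14934552)) (a (l 15122664) (a (l 15159296) (l 15159176))))) (b (l 14906056) (c (a (l 15063432) (b (l 15076792) (a (l 15142608) (c (l 15218744) (l 15198048))))) (a (l 15047704) (l 15044752)))))) (b (l 14577744) (b (l 14845440) (a (l 15011288) (a (l 15041920) (l 15091064)))))) (c (b (c (b (a (b (l 15225096) (l 15338368)) (a (b (l 15284704) (l 15442264)) (l 15477640))) (a (b (a (l 15426464) (l 15496896)) (l 15564816)) (l 15732944))) (b (a (c (b (l 15194960) (l 15299456)) (b (l 15187328) (l 15278960))) (c (b (a (c (l 15260128) (l 15239040)) (l 15359608)) (l 15465696)) (b (l 15296696) (l 15440120)))) (a (c (a (b (l 15396624) (l 15530992)) (l 15384184)) (b (l 15402072) (l 15553544))) (c (l 15540112) (l 15674912))))) (c (b (b (l 15725776) (l 15875808)) (a (l 16007120) (l 16153296))) (b (c (a (l 15652856) (b (l 15972128)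 (l 16121848))) (b (l 15829168) (l 15986856))) (a (c (l 15891648) (l 16104400)) (c (c (l 16196576) (l 16168680)) (l 16246968)))))) (b (b (a (l 15210360) (b (l 15268080) (l 15427280))) (b (a (c (a (l 15353560) (l 15422192)) (l 15377384)) (l 15527408)) (c (a (c (b (l 15494856) (l 15572096)) (l 15536032)) (l 15595336)) (l 15533392)))) (b (c (b (c (l 15813584) (l 15614560)) (l 15804120)) (b (l 15798544) (c (l 15812384) (l 15955768)))) (c (b (l 16084664) (l 16187240)) (b (c (b (l 15994680) (l 16153944)) (l 16026568)) (c (l 16202152) (b (l 15996680) (l 16067064))))))))), by decide +kernel⟩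

def k8_pp_102 : ∃ t, chk3 f_pp_102 t 63 30 1 = true :=
  ⟨(c (b (b (a (c (l 14645176) (c (l 14611592) (l 14567032))) (c (a (l 14681088) (b (l 14699592) (a (l 14742944) (l 14810864)))) (a (c (l 14646712) (l 14597360)) (b (l 14650528) (c (a (l 14708752) (l 14778848)) (l 14697176)))))) (a (c (l 14825472) (c (l 14794352) (l 14751408))) (c (a (b (l 14818256) (l 14961448)) (l 15019736)) (a (c (b (l 14785712) (l 14930920)) (l 14817480)) (c (l 14992072) (l 14939376)))))) (c (a (b (b (a (l 14940160) (l 14892872)) (a (c (l 15021856) (l 15058544)) (l 15142128))) (b (c (l 15225088) (l 15253288)) (l 15410808))) (b (c (b (l 15185888) (l 15336664)) (a (l 15227536) (l 15375776))) (c (l 15586912) (a (l 15545488) (c (l 15677008) (l 15571888)))))) (a (b (c (a (l 14976408) (l 14848928)) (a (l 14936752) (l 15016336))) (c (b (l 15241016) (l 15290704)) (l 15288432))) (c (b (c (l 15286416) (l 15236528)) (c (a (l 15538848) (l 15682384)) (l 15575304))) (l 15204184))))) (b (b (a (l 14519864) (a (l 14550808) (b (l 14565744)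 (l 14652832)))) (a (l 14708336) (a (l 14775832) (l 14900432)))) (a (b (a (l 14897784) (l 14979104)) (l 15257248)) (b (l 15187056) (l 15536424))))), by decide +kernel⟩

def k9_pp_102 : ∃ t, chk3 f_pp_102 t 63 31 1 = true :=
  ⟨(c (c (b (a (b (l 15670912) (l 15893728)) (b (a (l 15868944) (c (l 15995976) (l 15972176))) (a (l 16186528) (a (l 16282112) (l 16241600))))) (a (b (l 16102448) (l 16301200)) (b (a (l 16340696) (b (l 16374448) (l 16500056))) (a (l 16466608) (a (l 16435560) (b (l 16475272) (l 16405768))))))) (c (b (b (a (c (l 15654208) (l 15427672)) (c (a (l 15855648) (l 15993096)) (b (l 15801656) (l 15952800)))) (a (c (l 15993040) (l 15928936)) (a (l 16017320) (c (l 16251728) (l 16199456))))) (a (b (c (l 16167480) (l 16108672)) (b (l 16292232) (l 16396272))) (b (a (b (l 16324096) (l 16395288)) (c (l 16467240) (l 16399296))) (a (b (l 16540824) (l 16445408)) (c (l 16378728) (l 16402520)))))) (b (b (b (l 15670512) (l 15651232)) (b (l 15870032) (l 16052864))) (b (b (l 16143376) (l 16242048)) (b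 (l 16350248) (a (l 16516104) (l 16492544))))))) (b (b (a (l 15600304) (l 15868760)) (b (a (l 15714864) (l 15888736)) (c (c (a (l 16002800) (l 16228240)) (l 16003808)) (l 16082360)))) (c (b (b (c (l 16131576) (a (l 16132176) (l 16267120))) (b (l 16219912) (l 16288072))) (a (l 16325088) (a (l 16546328) (l 16449512)))) (b (b (l 16126952) (a (l 16173848) (b (l 16412816) (l 16398040)))) (c (b (b (a (l 16345400) (l 16506232)) (l 16416872)) (a (l 16512472) (l 16489520))) (b (a (l 16355504) (l 16536312)) (b (c (l 16437512) (l 16478888)) (a (l 16459688) (c (l 16527616) (l 16443120)))))))))), by decide +kernel⟩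

theorem s10_pp_102 : ∃ t, chk3 f_pp_102 t 63 15 1 = true := ex3_b k8_pp_102 k9_pp_102

theorem s11_pp_102 : ∃ t, chk3 f_pp_102 t 31 15 1 = true := ex3_a k7_pp_102 s10_pp_102

theorem s12_pp_102 : ∃ t, chk3 f_pp_102 t 15 15 1 = true := ex3_a k6_pp_102 s11_pp_102

theorem s13_pp_102 : ∃ t, chk3 f_pp_102 t 15 7 1 = true := ex3_b k5_pp_102 s12_pp_102

theorem s14_pp_102 : ∃ t, chk3 f_pp_102 t 7 7 1 = true := ex3_a k4_pp_102 s13_pp_102

theorem s15_pp_102 : ∃ t, chk3 f_pp_102 t 7 3 1 = true := ex3_b k3_pp_102 s14_pp_102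

theorem s16_pp_102 : ∃ t, chk3 f_pp_102 t 3 3 1 = true := ex3_a k2_pp_102 s15_pp_102

theorem s17_pp_102 : ∃ t, chk3 f_pp_102 t 3 1 1 = true := ex3_b k1_pp_102 s16_pp_102

theorem s18_pp_102 : ∃ t, chk3 f_pp_102 t 1 1 1 = true := ex3_a k0_pp_102 s17_pp_102

theorem c_pp_102 : CertNX 536870912 469762048 0 536870912 1046898278 26843546 3 false true true .npp 1 0 2
    ndN6q1 ndN0q2 pcN0 Cut.none Ext.none :=
  certNX0 (fam := false) (s1 := true) (s2 := true) (a := 1) (b := 0) (c := 2) (cn := .npp) (n1 := ndN6q1) (n2 := ndN0q2) (pc := pcN0) (cut := Cut.none) (xt := Ext.none) (P1 := 536870912) (W1 := 469762048) (P2 := 0) (W2 := 536870912) (P3 := 1046898278) (W3 := 26843546) (N0 := 3)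
    rfl s18_pp_102

noncomputable def f_pp_112 : ℕ → ℕ → ℕ → ℕ → Bool := onCell 536870912 536870912 0 536870912 1046898278 26843546
    (rowNX 3 2 false true true .dn 1 1 2 (qsf 536870912 469762048 0 536870912 1) ndN6q1 ndN0q2 pcN1 Cut.none Ext.none)

def k0_pp_112 : ∃ t, chk3 f_pp_112 t 1 1 1 = true :=
  ⟨(a (a (b (b (b (l 16777216) (l 16777216)) (c (l 16777216) (l 16777216))) (b (b (l 16777216) (b (l 16709592) (l 16516872))) (a (b (l 16155688) (b (l 15603792) (c (l 15501008) (b (l 15508592) (l 15406232))))) (b (l 16134712) (l 1))))) (b (b (b (b (l 16754848) (l 16777216)) (l 16777216)) (l 16777216)) (b (l 1) (l 1)))) (l 1)), by decide +kernel⟩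

theorem c_pp_112 : CertNX 536870912 469762048 0 536870912 1046898278 26843546 3 false true true .dn 1 1 2
    ndN6q1 ndN0q2 pcN1 Cut.none Ext.none :=
  certNX2 (fam := false) (s1 := true) (s2 := true) (a := 1) (b := 1) (c := 2) (cn := .dn) (n1 := ndN6q1) (n2 := ndN0q2) (pc := pcN1) (cut := Cut.none) (xt := Ext.none) (P1 := 536870912) (W1 := 469762048) (P2 := 0) (W2 := 536870912) (P3 := 1046898278) (W3 := 26843546) (N0 := 3)
    rfl (fun _ => rfl) k0_pp_112

noncomputable def f_pp_202 : ℕ → ℕ → ℕ → ℕ → Bool := onCell 0 536870912 0 536870912 1046898278 26843546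
    (rowNX 3 2 false true true .pp 2 0 2 (qsf 1073741824 536870912 0 536870912 0) ndN6q2 ndN0q2 pcN0 Cut.none Ext.none)

def k0_pp_202 : ∃ t, chk3 f_pp_202 t 16 8 2 = true :=
  ⟨(a (a (b (b (a (c (l 15930304) (l 15863768)) (c (l 16007960) (a (l 15894848) (c (l 16139912) (b (l 16162016) (b (l 16141480) (l 16040472))))))) (c (l 15972864) (a (l 15801928) (c (l 16045928) (b (a (l 16033296) (l 16063512)) (l 16034176)))))) (b (c (l 15872016) (c (l 15886856) (a (l 15856856) (l 15861752)))) (l 15973616))) (a (b (b (c (c (a (l 16199064) (l 16264728)) (a (l 16170088) (c (l 16274520) (l 16273368)))) (c (a (c (l 16110248) (l 16105000)) (l 16259096)) (b (l 16231216) (l 16140256)))) (c (a (l 16129536) (l 16082848)) (c (l 16062216) (b (l 16182120) (l 16157704))))) (b (b (c (l 16122000) (l 16054080)) (c (l 16097520) (l 16121488))) (l 16165024))) (b (c (b (c (l 16338352) (l 16337056)) (b (l 16266176) (l 16188296))) (c (b (l 16258984) (l 16282688)) (a (b (l 16257456) (l 16261128)) (b (l 16330456) (l 16316040)))))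 (b (a (c (l 16190952) (c (l 16241768) (l 16248456))) (c (l 16271584) (l 16295136))) (c (l 16235392) (l 62980568023)))))) (a (c (b (a (b (l 16343248) (l 16306880)) (b (l 16332032) (l 16317976))) (b (a (l 16262056) (l 16291768)) (a (l 16264280) (l 16198336)))) (b (c (a (b (l 16335784) (l 16321760)) (l 16329152)) (l 16336288)) (c (b (l 16299016) (l 16248376)) (l 16287616)))) (c (b (c (l 16327520) (l 16332648)) (c (b (l 16295352) (l 16255656)) (l 16209528))) (c (b (l 16337800) (b (l 16304712) (l 16231016))) (b (c (l 16341616) (l 16349976)) (a (l 16294408) (c (l 16282512) (a (l 16307792) (b (l 16306488) (l 16287432)))))))))), by decide +kernel⟩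

def k1_pp_202 : ∃ t, chk3 f_pp_202 t 16 16 3 = true :=
  ⟨(a (a (c (a (c (l 15857312) (c (l 15924792) (l 15740392))) (b (c (l 16104472) (l 16052848)) (c (a (c (l 15873176) (b (l 15974160) (l 16013896))) (b (c (l 16100472) (l 16087888)) (l 16068824))) (a (b (l 16029472) (c (l 16010632) (l 15994264))) (l 15981144))))) (a (c (a (l 15906608) (c (l 15948456) (l 15975072))) (c (l 15753344) (l 15817416))) (c (l 15894072) (l 16077328)))) (c (a (c (a (c (l 16113744) (l 16146752)) (c (l 16168368) (l 16208664))) (a (l 16127568) (l 16220328))) (c (l 16217024) (l 16269264))) (b (l 16276976) (a (l 16118824) (c (l 16133896) (l 16300952)))))) (a (c (c (l 16343768) (c (a (l 16347888) (l 16347664)) (l 16201832))) (l 16348624)) (c (c (c (a (l 16349304) (l 16351928)) (a (l 16348960) (l 16348192))) (l 16346264)) (l 16340880)))), by decide +kernel⟩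

def k2_pp_202 : ∃ t, chk3 f_pp_202 t 16 17 3 = true :=
  ⟨(a (c (a (b (a (c (l 15871952) (a (l 15834880) (c (l 15900432) (b (l 15928496) (l 15902448))))) (c (b (l 15904000) (l 16006616)) (a (c (b (l 15979280) (l 15970504)) (l 15968464)) (b (l 16007984) (l 16044328))))) (l 15960968)) (a (b (c (b (l 16157088) (l 16149600)) (l 16066944)) (l 16103912)) (c (a (l 16259904) (l 16287816)) (a (l 16268368) (c (l 16295472) (l 16302456)))))) (a (c (a (a (l 80159302375) (a (c (l 79085684599) (l 15851088)) (c (l 15803576) (l 15929096)))) (c (a (l 15878544) (l 16056192)) (l 15812496))) (a (c (a (b (l 15767144) (l 3)) (l 15911632)) (c (a (l 15649792) (a (l 15808208) (l 15929632))) (a (a (l 84454201511) (l 15854192)) (l 15909216)))) (c (a (c (l 15985728) (l 15817352)) (b (l 15939360) (l 15938928))) (l 16017352)))) (c (a (c (a (l 16131392) (a (l 16188440) (l 16185440))) (c (a (l 16135280) (l 38284395079)) (a (l 16027456) (l 16197800)))) (c (c (a (l 16275384) (a (l 16297264) (l 16290552))) (a (a (l 16260280) (l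 16279304)) (l 16287224))) (l 16270984))) (a (l 16140168) (l 16269312))))) (c (c (a (c (l 16293816) (a (l 16296144) (a (l 16305856) (l 74791707943)))) (a (c (a (l 16307064) (b (l 16313744) (l 16294568))) (a (c (l 16298344) (l 16282088)) (a (l 75865464039) (l 16274336)))) (c (a (c (l 16294368) (l 16235464)) (b (l 16284088) (l 16170560))) (l 16269816)))) (a (c (c (a (l 16304440) (a (l 16301576) (l 16284544))) (a (l 16303376) (l 76939172215))) (a (a (c (l 16304064) (l 16292392)) (l 16287600)) (l 16279320))) (l 16250272))) (b (l 16295560) (l 16265128)))), by decide +kernel⟩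

def k3_pp_202 : ∃ t, chk3 f_pp_202 t 16 9 1 = true :=
  ⟨(l 3), by decide +kernel⟩

def k4_pp_202 : ∃ t, chk3 f_pp_202 t 16 5 1 = true :=
  ⟨(l 3), by decide +kernel⟩

def k5_pp_202 : ∃ t, chk3 f_pp_202 t 34 8 2 = true :=
  ⟨(a (c (b (c (l 16311632) (l 16322000)) (b (l 16297360) (c (l 16246944) (l 16245704)))) (c (a (b (l 16329848) (l 72644323159)) (b (c (l 16338000) (a (l 16337264) (l 16331640))) (c (l 16303424) (a (b (l 16313640) (l 16275392)) (l 16286568))))) (c (a (a (c (l 16319312) (l 16252448)) (b (l 16329896) (l 16290632))) (b (b (l 16350488) (b (l 16323664) (l 16306680))) (b (l 16282280) (a (c (l 16268232) (l 16225968)) (l 16115264))))) (a (b (b (l 16349512) (b (l 16326072) (l 16267632))) (b (l 16295200) (a (c (l 16275088) (l 16232648)) (l 16163760)))) (b (l 16312504) (l 16249688)))))) (b (b (c (c (l 16352512) (l 16353952)) (c (a (a (l 16351896) (l 16350896)) (l 16347048)) (l 16359328))) (c (c (l 16323384) (a (l 16331192) (c (l 16336216) (l 16326264)))) (c (b (l 16325704) (a (c (l 16321736)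 (l 16304400)) (c (l 16302400) (l 16294632)))) (l 16302384)))) (c (c (l 16238352) (b (a (l 16311176) (l 16306560)) (a (c (l 16285048) (l 16297824)) (b (b (l 16291272) (c (l 16258360) (l 16237512))) (c (l 16271016) (l 16247856)))))) (c (a (c (a (a (l 16306424) (l 16299680)) (l 16260984)) (a (c (l 16272144) (l 16169200)) (c (l 16166656) (l 16243808)))) (b (l 16270872) (c (b (b (l 16251688) (l 16116944)) (l 16165056)) (l 16224904)))) (l 16240848))))), by decide +kernel⟩

def k6_pp_202 : ∃ t, chk3 f_pp_202 t 35 8 2 = true :=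
  ⟨(a (b (c (b (c (l 16354112) (l 16347256)) (a (b (l 16333328) (c (l 16332096) (c (l 16320976) (l 16279240)))) (c (c (l 16340872) (l 16326056)) (c (a (l 16308920) (l 16280392)) (l 16298808))))) (l 16235088)) (c (a (c (a (l 16260992) (c (l 16305296) (c (l 16314320) (l 16264256)))) (c (b (l 16300248) (a (l 16203280) (l 16259824))) (b (l 16271312) (a (c (l 16249136) (l 16186416)) (c (l 16162568) (l 16218112)))))) (b (c (l 16306240) (l 16222400)) (c (c (a (l 16283048) (c (l 16285984) (l 16293568))) (l 16184304)) (c (a (c (l 16243288) (l 16159760)) (c (l 16136048) (l 16212600))) (l 16213416))))) (l 16125248))) (c (c (a (b (b (l 16350112) (c (l 16325768) (b (l 16312712) (l 16294704)))) (c (b (l 16295736) (l 16242176)) (b (l 16265360) (a (c (l 16237696) (l 16133368)) (c (l 16088824) (l 16207360)))))) (b (b (l 16318104) (c (a (l 16285912) (l 16236192)) (l 16296376))) (c (b (l 16199848) (b (b (l 16237256) (a (l 16231688) (l 16196072))) (a (l 16216808) (l 16200896)))) (l 16220120)))) (b (l 16238152) (l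 16159656))) (b (l 16235064) (l 16155488)))), by decide +kernel⟩

def k7_pp_202 : ∃ t, chk3 f_pp_202 t 17 8 3 = true :=
  ⟨(a (b (c (b (c (l 16349232) (l 16351104)) (l 16295432)) (b (l 16344936) (l 16269808))) (a (c (b (l 16283272) (l 16239008)) (l 16215136)) (l 16156024))) (b (b (l 16329432) (l 16288152)) (b (l 16244096) (l 16198584)))), by decide +kernel⟩

def k8_pp_202 : ∃ t, chk3 f_pp_202 t 17 9 1 = true :=
  ⟨(b (b (a (b (b (a (l 3) (c (c (c (l 16251144) (a (l 16275784) (l 16203384))) (c (a (l 16125120) (l 16208952)) (l 16200256))) (l 16193184))) (l 3)) (l 3)) (c (c (a (b (c (a (l 16255496) (c (l 16260728) (l 16246712))) (a (c (l 16252424) (l 16206240)) (c (l 16199768) (l 16182664)))) (l 3)) (c (b (a (c (l 16241056) (l 16194224)) (c (l 16147720) (l 16173160))) (a (l 3) (l 16169464))) (l 16182424))) (l 16185840)) (l 16176520))) (l 3)) (l 3)), by decide +kernel⟩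

def k9_pp_202 : ∃ t, chk3 f_pp_202 t 17 5 1 = true :=
  ⟨(l 3), by decide +kernel⟩

def k10_pp_202 : ∃ t, chk3 f_pp_202 t 18 4 1 = true :=
  ⟨(b (a (c (a (b (b (l 16417384) (c (l 16181632) (l 16263576))) (b (c (l 16325768) (l 16343224)) (c (b (l 16217576) (l 16238112)) (b (l 16275760) (l 16232608))))) (b (b (a (l 16283432) (c (l 16156032) (l 16148152))) (a (c (l 16324312) (l 16320032)) (l 16160616))) (b (l 16203896) (b (l 16372696) (a (l 16231456) (l 16410072)))))) (b (a (b (l 16435368) (l 16197768)) (b (a (l 16273024) (l 16136048)) (a (l 16313432) (l 16188592)))) (a (b (l 16337856) (b (l 16247528) (l 16224128))) (b (l 16344856) (b (l 16431640) (l 16210056)))))) (b (c (b (b (l 15646352) (a (b (l 15879640) (l 15750608)) (c (l 15538952) (l 15518664)))) (a (l 15790424) (l 15470792))) (b (b (l 15697008) (a (l 15854664) (l 15487600))) (a (l 15956016) (l 15645384)))) (c (b (a (l 16033904) (l 15824440)) (b (l 15956712) (a (l 16271304) (b (l 16163784) (l 16206232))))) (b (l 15762336) (b (l 16068184) (c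 (l 16063976) (l 16079648))))))) (b (b (a (a (c (b (l 16162696) (l 16145072)) (b (l 16170640) (l 16130624))) (c (a (l 16054248) (l 16272400)) (a (l 16188240) (l 16283992)))) (c (a (l 16321520) (l 16209928)) (l 16213032))) (b (a (a (l 3) (c (l 16185168) (l 16171696))) (c (l 16227096) (l 16307824))) (l 3))) (l 3))), by decide +kernel⟩

def k11_pp_202 : ∃ t, chk3 f_pp_202 t 19 4 1 = true :=
  ⟨(a (b (a (b (c (b (b (a (l 15263232) (a (l 15117216) (l 15041792))) (c (a (l 15275648) (l 15117296)) (l 15003456))) (c (l 15395712) (l 15372696))) (b (b (l 14866304) (a (l 15211352) (l 15045296))) (l 15337480))) (c (b (c (l 15662320) (l 15644632)) (b (l 15854152) (b (l 15954088) (l 16014784)))) (b (l 15617560) (b (l 15826392) (l 15883264))))) (b (b (b (l 14950032) (l 15006592)) (l 15213720)) (b (l 15487776) (c (l 15738880) (l 15750368))))) (b (c (b (a (l 16105344) (l 15950432)) (a (l 16159648) (l 16053728))) (b (a (l 16087960) (l 15926928)) (a (l 16210088) (l 16034520)))) (l 3))) (b (b (b (b (c (l 14850816) (l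 14783680)) (l 14910912)) (l 15098456)) (c (l 15490048) (l 15448320))) (b (b (c (a (l 15823320) (l 15710832)) (a (l 15794928) (l 15678184))) (c (l 15680544) (l 15757384))) (b (c (l 15851768) (l 15824768)) (l 3))))), by decide +kernel⟩

def k12_pp_202 : ∃ t, chk3 f_pp_202 t 9 5 1 = true :=
  ⟨(l 3), by decide +kernel⟩

def k13_pp_202 : ∃ t, chk3 f_pp_202 t 4 3 1 = true :=
  ⟨(l 3), by decide +kernel⟩

def k14_pp_202 : ∃ t, chk3 f_pp_202 t 5 1 1 = true :=
  ⟨(b (a (a (b (b (b (a (c (b (l 14742152) (l 14960512)) (l 14784624)) (c (a (l 14725680) (l 14647688)) (l 14614456))) (a (c (l 15282976) (l 15233600)) (c (a (l 15123696) (l 15013968)) (l 14990648)))) (b (c (b (a (b (l 15539488) (l 15571608)) (b (l 15285256) (l 15347944))) (a (l 15586888) (l 15354920))) (b (a (b (l 15500408) (l 15533840)) (b (l 15258456) (l 15301856))) (a (l 15549776) (l 15309160)))) (c (b (a (l 15601560) (l 15354616)) (a (l 3) (l 15349000))) (b (a (l 15565088) (l 15308904)) (l 15433344))))) (l 3)) (b (b (l 1) (l 1)) (l 1))) (l 1))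 (l 3)), by decide +kernel⟩

def k15_pp_202 : ∃ t, chk3 f_pp_202 t 3 1 1 = true :=
  ⟨(l 1), by decide +kernel⟩

theorem s16_pp_202 : ∃ t, chk3 f_pp_202 t 9 4 1 = true := ex3_a k10_pp_202 k11_pp_202

theorem s17_pp_202 : ∃ t, chk3 f_pp_202 t 9 2 1 = true := ex3_b s16_pp_202 k12_pp_202

theorem s18_pp_202 : ∃ t, chk3 f_pp_202 t 17 8 2 = true := ex3_a k5_pp_202 k6_pp_202

theorem s19_pp_202 : ∃ t, chk3 f_pp_202 t 17 8 1 = true := ex3_c s18_pp_202 k7_pp_202

theorem s20_pp_202 : ∃ t, chk3 f_pp_202 t 17 4 1 = true := ex3_b s19_pp_202 k8_pp_202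

theorem s21_pp_202 : ∃ t, chk3 f_pp_202 t 17 2 1 = true := ex3_b s20_pp_202 k9_pp_202

theorem s22_pp_202 : ∃ t, chk3 f_pp_202 t 16 8 3 = true := ex3_b k1_pp_202 k2_pp_202

theorem s23_pp_202 : ∃ t, chk3 f_pp_202 t 16 8 1 = true := ex3_c k0_pp_202 s22_pp_202

theorem s24_pp_202 : ∃ t, chk3 f_pp_202 t 16 4 1 = true := ex3_b s23_pp_202 k3_pp_202

theorem s25_pp_202 : ∃ t, chk3 f_pp_202 t 16 2 1 = true := ex3_b s24_pp_202 k4_pp_202

theorem s26_pp_202 : ∃ t, chk3 f_pp_202 t 8 2 1 = true := ex3_a s25_pp_202 s21_pp_202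

theorem s27_pp_202 : ∃ t, chk3 f_pp_202 t 4 2 1 = true := ex3_a s26_pp_202 s17_pp_202

theorem s28_pp_202 : ∃ t, chk3 f_pp_202 t 4 1 1 = true := ex3_b s27_pp_202 k13_pp_202

theorem s29_pp_202 : ∃ t, chk3 f_pp_202 t 2 1 1 = true := ex3_a s28_pp_202 k14_pp_202

theorem s30_pp_202 : ∃ t, chk3 f_pp_202 t 1 1 1 = true := ex3_a s29_pp_202 k15_pp_202

theorem c_pp_202 : CertNX 1073741824 536870912 0 536870912 1046898278 26843546 3 false true true .pp 2 0 2
    ndN6q2 ndN0q2 pcN0 Cut.none Ext.none :=
  certNX2 (fam := false) (s1 := true) (s2 := true) (a := 2) (b := 0) (c := 2) (cn := .pp) (n1 := ndN6q2) (n2 := ndN0q2) (pc := pcN0) (cut := Cut.none) (xt := Ext.none) (P1 := 1073741824) (W1 := 536870912) (P2 := 0) (W2 := 536870912) (P3 := 1046898278) (W3 := 26843546) (N0 := 3)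
    rfl (fun _ => rfl) s30_pp_202

noncomputable def f_pm_001 : ℕ → ℕ → ℕ → ℕ → Bool := onCell 0 536870912 536870912 536870912 1046898278 26843546
    (rowNX 3 0 false true false .up 0 0 1 (qsf 0 536870912 536870912 536870912 0) ndN6q0 ndN0q1 pcN0 Cut.none Ext.none)

def k0_pm_001 : ∃ t, chk3 f_pm_001 t 1 1 1 = true :=
  ⟨(l 4), by decide +kernel⟩

theorem c_pm_001 : CertNX 0 536870912 536870912 536870912 1046898278 26843546 3 false true false .up 0 0 1
    ndN6q0 ndN0q1 pcN0 Cut.none Ext.none :=
  certNX0 (fam := false) (s1 := true) (s2 := false) (a := 0) (b := 0) (c := 1) (cn := .up) (n1 := ndN6q0) (n2 := ndN0q1) (pc := pcN0) (cut := Cut.none) (xt := Ext.none) (P1 := 0) (W1 := 536870912) (P2 := 536870912) (W2 := 536870912) (P3 := 1046898278) (W3 := 26843546) (N0 := 3)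
    rfl k0_pm_001

noncomputable def f_pm_011 : ℕ → ℕ → ℕ → ℕ → Bool := onCell 0 536870912 536870912 536870912 1046898278 26843546
    (rowNX 3 0 false true false .pnn 0 1 1 (qsf 0 536870912 536870912 536870912 1) ndN6q0 ndN0q1 pcN1 Cut.none Ext.none)

def k0_pm_011 : ∃ t, chk3 f_pm_011 t 1 1 1 = true :=
  ⟨(l 4), by decide +kernel⟩

theorem c_pm_011 : CertNX 0 536870912 536870912 536870912 1046898278 26843546 3 false true false .pnn 0 1 1
    ndN6q0 ndN0q1 pcN1 Cut.none Ext.none :=
  certNX0 (fam := false) (s1 := true) (s2 := false) (a := 0) (b := 1) (c := 1) (cn := .pnn) (n1 := ndN6q0) (n2 := ndN0q1) (pc := pcN1) (cut := Cut.none) (xt := Ext.none) (P1 := 0) (W1 := 536870912) (P2 := 536870912) (W2 := 536870912) (P3 := 1046898278) (W3 := 26843546) (N0 := 3)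
    rfl k0_pm_011

noncomputable def f_pm_012 : ℕ → ℕ → ℕ → ℕ → Bool := onCell 0 536870912 0 536870912 1046898278 26843546
    (rowNX 3 0 false true false .pnp 0 1 2 (qsf 0 536870912 0 536870912 1) ndN6q0 ndN0q2 pcN1 Cut.none Ext.none)

def k0_pm_012 : ∃ t, chk3 f_pm_012 t 1 1 1 = true :=
  ⟨(b (b (b (b (a (a (l 2) (b (a (l 4) (a (a (a (l 4) (c (c (l 13331872) (c (l 13335752) (l 13332504))) (a (l 4) (l 13221344)))) (c (c (l 13441464) (c (a (l 13414520) (l 13239056)) (a (l 13364240) (l 13365608)))) (l 13268912))) (c (c (a (c (l 13543032) (l 13517120)) (l 13577280)) (c (l 13244888) (l 13432480))) (l 13359400)))) (l 4))) (a (a (a (a (c (a (l 13566504) (l 13643256)) (l 13493448)) (l 13771864)) (l 14180976)) (a (a (l 14751600) (l 15117200)) (a (l 15488800) (l 15886352)))) (a (l 16340680) (l 16646936)))) (a (l 4) (a (a (l 4) (a (l 4) (b (a (l 15162624) (l 15371112)) (l 4)))) (a (a (l 15589784) (l 16022848)) (l 16459416))))) (a (l 4) (a (l 4) (a (l 4) (a (l 16515160) (l 16651368)))))) (l 4)) (l 4)), by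 decide +kernel⟩

theorem c_pm_012 : CertNX 0 536870912 0 536870912 1046898278 26843546 3 false true false .pnp 0 1 2
    ndN6q0 ndN0q2 pcN1 Cut.none Ext.none :=
  certNX0 (fam := false) (s1 := true) (s2 := false) (a := 0) (b := 1) (c := 2) (cn := .pnp) (n1 := ndN6q0) (n2 := ndN0q2) (pc := pcN1) (cut := Cut.none) (xt := Ext.none) (P1 := 0) (W1 := 536870912) (P2 := 0) (W2 := 536870912) (P3 := 1046898278) (W3 := 26843546) (N0 := 3)
    rfl k0_pm_012

noncomputable def f_pm_022 : ℕ → ℕ → ℕ → ℕ → Bool := onCell 0 536870912 0 536870912 1046898278 26843546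
    (rowNX 3 0 false true false .pp 0 2 2 (qsf 0 536870912 0 536870912 2) ndN6q0 ndN0q2 pcN2 Cut.none Ext.none)

def k0_pm_022 : ∃ t, chk3 f_pm_022 t 1 1 1 = true :=
  ⟨(a (b (a (l 4) (b (a (l 4) (l 1)) (l 4))) (l 4)) (l 1)), by decide +kernel⟩

theorem c_pm_022 : CertNX 0 536870912 0 536870912 1046898278 26843546 3 false true false .pp 0 2 2
    ndN6q0 ndN0q2 pcN2 Cut.none Ext.none :=
  certNX0 (fam := false) (s1 := true) (s2 := false) (a := 0) (b := 2) (c := 2) (cn := .pp) (n1 := ndN6q0) (n2 := ndN0q2) (pc := pcN2) (cut := Cut.none) (xt := Ext.none) (P1 := 0) (W1 := 536870912) (P2 := 0) (W2 := 536870912) (P3 := 1046898278) (W3 := 26843546) (N0 := 3)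
    rfl k0_pm_022

noncomputable def f_pm_101 : ℕ → ℕ → ℕ → ℕ → Bool := onCell 536870912 469762048 536870912 536870912 1046898278 26843546
    (rowNX 3 0 false true false .npn 1 0 1 (qsf 536870912 469762048 536870912 536870912 0) ndN6q1 ndN0q1 pcN0 Cut.none Ext.none)

def k0_pm_101 : ∃ t, chk3 f_pm_101 t 1 1 1 = true :=
  ⟨(l 4), by decide +kernel⟩

theorem c_pm_101 : CertNX 536870912 469762048 536870912 536870912 1046898278 26843546 3 false true false .npn 1 0 1
    ndN6q1 ndN0q1 pcN0 Cut.none Ext.none :=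
  certNX0 (fam := false) (s1 := true) (s2 := false) (a := 1) (b := 0) (c := 1) (cn := .npn) (n1 := ndN6q1) (n2 := ndN0q1) (pc := pcN0) (cut := Cut.none) (xt := Ext.none) (P1 := 536870912) (W1 := 469762048) (P2 := 536870912) (W2 := 536870912) (P3 := 1046898278) (W3 := 26843546) (N0 := 3)
    rfl k0_pm_101

noncomputable def f_pm_102 : ℕ → ℕ → ℕ → ℕ → Bool := onCell 536870912 469762048 0 536870912 1046898278 26843546
    (rowNX 3 0 false true false .npp 1 0 2 (qsf 536870912 469762048 0 536870912 0) ndN6q1 ndN0q2 pcN0 Cut.none Ext.none)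

def k0_pm_102 : ∃ t, chk3 f_pm_102 t 1 1 1 = true :=
  ⟨(b (a (c (b (l 16777216) (l 16777216)) (b (l 16777216) (l 16777216))) (a (a (b (l 16777216) (l 16777216)) (b (a (l 16505280) (l 15553200)) (a (b (l 16505280) (l 4)) (l 15385424)))) (a (b (a (l 14529856) (l 13939560)) (c (l 14156248) (l 14005752))) (b (c (a (l 13647752) (b (l 13595288) (l 13600032))) (b (l 13368904) (l 13518424))) (a (a (l 13660208) (c (l 13582184) (l 13466320))) (c (b (l 13603000) (l 13468840)) (b (l 13464640) (l 13455984)))))))) (l 4)), by decide +kernel⟩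

theorem c_pm_102 : CertNX 536870912 469762048 0 536870912 1046898278 26843546 3 false true false .npp 1 0 2
    ndN6q1 ndN0q2 pcN0 Cut.none Ext.none :=
  certNX0 (fam := false) (s1 := true) (s2 := false) (a := 1) (b := 0) (c := 2) (cn := .npp) (n1 := ndN6q1) (n2 := ndN0q2) (pc := pcN0) (cut := Cut.none) (xt := Ext.none) (P1 := 536870912) (W1 := 469762048) (P2 := 0) (W2 := 536870912) (P3 := 1046898278) (W3 := 26843546) (N0 := 3)
    rfl k0_pm_102

noncomputable def f_pm_112 : ℕ → ℕ → ℕ → ℕ → Bool := onCell 536870912 536870912 0 536870912 1046898278 26843546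
    (rowNX 3 2 false true false .dn 1 1 2 (qsf 536870912 469762048 0 536870912 1) ndN6q1 ndN0q2 pcN1 Cut.none Ext.none)

def k0_pm_112 : ∃ t, chk3 f_pm_112 t 1 1 1 = true :=
  ⟨(a (b (b (a (c (l 16777216) (l 16777216)) (a (c (l 16686408) (l 16683208)) (l 1))) (l 4)) (l 4)) (l 1)), by decide +kernel⟩

theorem c_pm_112 : CertNX 536870912 469762048 0 536870912 1046898278 26843546 3 false true false .dn 1 1 2
    ndN6q1 ndN0q2 pcN1 Cut.none Ext.none :=
  certNX2 (fam := false) (s1 := true) (s2 := false) (a := 1) (b := 1) (c := 2) (cn := .dn) (n1 := ndN6q1) (n2 := ndN0q2) (pc := pcN1) (cut := Cut.none) (xt := Ext.none) (P1 := 536870912) (W1 := 469762048) (P2 := 0) (W2 := 536870912) (P3 := 1046898278) (W3 := 26843546) (N0 := 3)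
    rfl (fun _ => rfl) k0_pm_112

end Pool.Agent.Strip051.G.IE1.Tab.C.NB60

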