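import Pool.Agent.Strip051.G.IE1.Tab

/-! # Certificates N82 (generated) -/

set_option linter.all false
set_option maxRecDepth 100000

namespace Pool.Agent.Strip051.G.IE1.Tab.C.NB60

open Pool.Agent.Strip051.PB Pool.Agent.Strip051.PB.T
open Pool.Agent.Strip051.G.IE1.Tab

noncomputable def f_pm_202 : ℕ → ℕ → ℕ → ℕ → Bool := onCell 0 536870912 0 536870912 1046898278 26843546
    (rowNX 3 2 false true false .pp 2 0 2 (qsf 1073741824 536870912 0 536870912 0) ndN6q2 ndN0q2 pcN0 Cut.none Ext.none)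

def k0_pm_202 : ∃ t, chk3 f_pm_202 t 16 4 2 = true :=
  ⟨(c (a (a (b (b (b (c (l 15887272) (l 16069640)) (l 16132088)) (l 16167552)) (b (l 16250064) (l 16225528))) (b (b (a (b (b (c (l 16178744) (a (l 16259336) (l 16277336))) (l 16211512)) (a (l 16334688) (l 16349264))) (b (c (a (c (l 16356872) (l 16362880)) (l 16325008)) (l 16232360)) (l 16304320))) (a (a (l 16349936) (c (l 16282448) (l 16282624))) (c (l 16234200) (l 16246432)))) (b (b (a (a (l 16249024) (c (l 16182632) (l 16118720))) (c (l 16147552) (l 16179480))) (a (l 16154632) (l 16148056))) (a (l 16069272) (l 16113368))))) (a (b (b (a (b (c (l 16353520) (c (l 16366064) (l 16360696))) (l 16325640)) (c (a (l 16323456) (l 16349328)) (l 16297392))) (a (l 16274688) (c (l 16324264) (l 16319680)))) (b (b (a (l 16226544) (c (l 16277688) (l 16272632))) (b (a (l 16209512) (c (l 16257568) (l 16231312))) (l 16214384))) (l 16185232))) (b (b (c (l 16350784) (l 16368336)) (l 16265528)) (b (b (l 16302936) (b (l 16280392) (l 16229344)))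 (l 16239976))))) (b (c (a (a (l 16004728) (a (b (l 16203440) (l 16192800)) (b (a (l 16360792) (l 16297648)) (l 16258936)))) (a (a (b (l 16186984) (l 16280984)) (l 16338248)) (l 16353360))) (a (a (a (l 16100840) (a (l 16245400) (b (l 16241320) (l 16373136)))) (a (l 16382952) (b (l 16248104) (a (l 16266272) (l 16253944))))) (b (l 16312440) (l 16278376)))) (a (a (b (b (a (l 16326752) (c (l 16344272) (a (l 16371440) (l 16301608)))) (l 16333584)) (l 16026344)) (b (a (b (a (c (l 16240072) (l 16246936)) (l 16196272)) (l 16156240)) (b (c (l 16190696) (l 16067696)) (l 16163064))) (a (l 16090064) (l 16126712)))) (b (a (c (a (b (l 16189848) (a (l 16200176) (l 16216696))) (l 16236568)) (l 16207712)) (l 16236880)) (l 16157744))))), by decide +kernel⟩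

def k1_pm_202 : ∃ t, chk3 f_pm_202 t 16 5 2 = true :=
  ⟨(a (a (b (b (a (l 16093976) (l 15972320)) (l 15954200)) (c (l 15978904) (l 15954288))) (b (c (a (l 16008240) (l 16060992)) (a (l 16026760) (l 16071344))) (c (a (l 15862576) (l 16020488)) (a (l 15983720) (l 16027424))))) (c (a (b (a (l 16112120) (l 16154392)) (a (l 16070104) (l 16069792))) (b (l 16186504) (l 16146000))) (a (b (l 16069640) (l 15985112)) (l 16124952)))), by decide +kernel⟩

def k2_pm_202 : ∃ t, chk3 f_pm_202 t 17 2 2 = true :=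
  ⟨(b (b (a (a (b (c (l 16383608) (c (l 16391976) (l 16276800))) (c (l 16365704) (l 16319040))) (b (c (b (c (l 16363512) (l 16371720)) (l 16407608)) (c (a (l 16398480) (b (l 16384256) (l 16405544))) (l 16358848))) (c (l 16349280) (l 16343240)))) (a (b (b (c (c (a (l 16377392) (l 16379648)) (a (b (l 16370872) (l 16392432)) (l 16378824))) (l 16382280)) (c (a (l 16420360) (l 16419584)) (l 16418624))) (c (b (c (l 16414192) (l 16306264)) (l 16376880)) (l 16388656))) (c (b (c (b (a (c (l 16381624) (l 16379800)) (l 16380288)) (l 16418800)) (l 16385168)) (c (a (l 16336480) (b (l 16428120) (l 16405824))) (l 16420680))) (b (b (l 16388288) (l 16437744)) (l 16419584))))) (b (a (c (l 16309960) (a (c (l 16265224) (l 16246088)) (l 16285104))) (c (a (l 16337648) (c (l 16361728) (l 16354088))) (l 16335392))) (a (c (l 16275384) (a (l 16214168) (b (l 16191528) (l 16231168)))) (b (c (a (l 16303744) (c (l 16326624) (l 16318784))) (l 16300144)) (l 16229224))))) (a (b (c (l 16220208) (l 16181872))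 (c (l 16170904) (b (l 16152408) (l 16124720)))) (b (c (a (l 16250808) (l 16148800)) (l 16232704)) (c (a (l 16085272) (l 16066480)) (l 16096592))))), by decide +kernel⟩

def k3_pm_202 : ∃ t, chk3 f_pm_202 t 16 2 3 = true :=
  ⟨(b (b (a (a (c (a (b (l 15992560) (a (l 16172096) (l 16232120))) (c (a (b (l 16151536) (l 16327232)) (l 16245568)) (a (b (l 16163736) (l 16320104)) (l 16101920)))) (a (c (a (l 16068144) (b (l 16035144) (l 16114576))) (a (a (c (l 16096712) (l 15909672)) (c (l 16068720) (l 16109632))) (b (l 16095744) (l 16255152)))) (c (b (l 16145840) (l 16261672)) (l 16217192)))) (c (a (c (b (l 16273736) (l 16315720)) (b (l 16301408) (l 16329648))) (b (l 16330472) (l 16239640))) (b (l 16196072) (l 16073832)))) (c (c (a (l 16281536) (l 16253608)) (a (l 16262912) (l 16305752))) (l 16273400))) (a (b (a (b (c (a (l 16222672) (a (b (l 16300032) (l 16346424)) (c (l 16306232) (l 16315048)))) (a (a (c (l 16325384) (a (l 16189664) (l 16140592))) (c (l 16163392) (l 16394280))) (c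 (l 16316152) (l 16326824)))) (c (a (l 16385984) (l 16256608)) (c (l 16062296) (l 16160776)))) (c (b (a (c (l 16147480) (l 16223352)) (l 16169928)) (l 16109064)) (b (a (l 16200408) (l 16138536)) (l 16125832)))) (a (c (a (l 16247488) (a (l 16145616) (l 16099520))) (a (c (l 16236096) (l 16145384)) (l 16014288))) (c (l 16012904) (l 16070928)))) (b (c (a (c (l 16183840) (l 16165144)) (c (l 16205400) (l 16197040))) (l 16172976)) (l 16135752)))) (c (a (a (b (a (b (l 16057256) (l 15955600)) (b (a (l 16006136) (l 16010384)) (l 15931512))) (a (l 15924992) (c (l 15945720) (l 15942648)))) (a (b (l 16024648) (l 15979296)) (l 15947384))) (b (l 16090208) (l 16051000))) (a (a (b (a (a (b (l 15820888) (l 15803248)) (c (l 15797416) (l 15959040))) (c (l 15989432) (l 15976384))) (a (c (l 15909232) (a (l 15893176) (l 15906368))) (l 15784488))) (b (l 16008152) (l 15963632))) (l 16055728)))), by decide +kernel⟩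

def k4_pm_202 : ∃ t, chk3 f_pm_202 t 17 2 3 = true :=
  ⟨(b (b (b (a (c (a (l 16377024) (l 16379336)) (l 16391088)) (b (a (l 16374384) (l 16377664)) (l 16327960))) (a (l 16314064) (l 16309128))) (a (c (b (l 16253584) (l 16218504)) (b (l 16249456) (l 16213232))) (b (l 16329760) (b (l 16293264) (l 16274632))))) (b (a (l 16158800) (l 16222760)) (a (l 16109800) (l 16081928)))), by decide +kernel⟩

def k5_pm_202 : ∃ t, chk3 f_pm_202 t 18 2 1 = true :=
  ⟨(b (a (c (b (a (b (c (b (l 16429848) (l 16418632)) (a (l 16394576) (l 16384296))) (c (a (l 16322152) (l 16356824)) (l 16384048))) (b (a (l 16228344) (l 16042424)) (c (l 16129048) (l 16213456)))) (b (a (c (l 16335448) (l 16331536)) (l 16208456)) (a (c (a (l 16316392) (l 16269536)) (l 16264080)) (l 16147176)))) (b (b (a (b (l 16358560) (l 16373768)) (a (l 16263760) (l 16199280))) (a (l 16378344) (l 16165400))) (a (b (l 16325264) (b (l 16292104) (l 16271112))) (b (l 16194672) (l 16130608))))) (b (b (c (a (b (l 15962880) (l 15946904))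 (l 15637528)) (a (l 15828616) (l 15644320))) (b (c (a (l 15928576) (b (l 15802512) (l 15812776))) (a (l 16037928) (l 15772992))) (c (l 15695592) (l 15904712)))) (c (b (a (l 16017624) (l 15796712)) (a (l 15965288) (l 15771896))) (b (l 15878400) (l 15800080))))) (a (b (c (a (l 16138312) (l 16034968)) (l 15963632)) (c (l 15836128) (l 15894152))) (a (b (l 15861680) (l 15705616)) (b (c (l 15670032) (l 15679488)) (l 15561824))))), by decide +kernel⟩

def k6_pm_202 : ∃ t, chk3 f_pm_202 t 19 2 1 = true :=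
  ⟨(b (a (b (a (b (c (a (l 15422264) (a (l 15288760) (l 15217024))) (a (l 15376976) (l 15201128))) (b (c (a (l 15601560) (a (l 15494160) (l 15431848))) (a (l 15562680) (l 15353688))) (c (a (l 15625320) (l 15506128)) (l 15523560)))) (b (l 15109192) (c (b (l 15342576) (l 15403768)) (b (l 15291632) (l 15355272))))) (a (c (a (l 15614792) (b (a (l 15530872) (l 15481352)) (l 15514744))) (b (l 15527272) (l 15527152))) (c (b (l 15418584) (l 15431152)) (l 15300448)))) (b (b (c (l 14955416) (l 14892392)) (b (l 15098472) (c (l 15183200) (l 15170512)))) (c (c (l 15279840) (l 15250656)) (b (l 15210048) (l 15229744))))) (b (b (a (a (a (l 15576664) (c (l 15503664) (l 15461984))) (l 15403536)) (c (l 15285032) (l 15235368))) (a (l 15430112) (l 15232568))) (c (a (l 15380680) (l 15193600)) (l 15029168)))), by decide +kernel⟩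

def k7_pm_202 : ∃ t, chk3 f_pm_202 t 16 6 1 = true :=
  ⟨(a (c (a (b (c (l 15969240) (l 15756384)) (b (c (l 15914464) (l 15680320)) (c (l 15654600) (a (l 15645072) (l 15360080))))) (b (c (a (a (l 15978400) (l 15987424)) (l 16017000)) (a (l 15977864) (l 16021192))) (c (a (b (a (l 15918096) (l 15832584)) (a (l 15608128) (l 15465336))) (b (l 15918696) (l 15578696))) (a (b (l 15823048) (l 15459880)) (b (l 15814192) (l 15403736)))))) (a (b (c (a (l 15914648) (c (l 15938048) (l 15934232))) (a (c (l 15752136) (c (l 15849368) (l 15886248))) (c (l 15927312) (l 15914504)))) (c (a (b (l 15861904) (l 15615816)) (b (a (l 15875952) (l 15697928)) (a (l 15429616) (c (l 15589056) (l 15585312))))) (a (c (b (l 15761824) (a (l 15603000) (l 15572352))) (a (b (l 15618632) (c (l 15593312) (l 15419336))) (b (l 15843120) (l 15582896)))) (c (b (l 15870360) (l 15577528)) (l 15592872))))) (b (c (a (l 15866984) (l 15999200)) (l 15958120)) (c (c (a (b (l 15905264) (l 15578824)) (l 15470928)) (b (l 15884720)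 (l 15548264))) (b (l 15863920) (l 15523656)))))) (c (b (b (a (c (l 15974872) (l 16059832)) (l 16052552)) (a (c (a (l 16064928) (l 16027208)) (l 15926144)) (l 15801952))) (a (a (c (b (l 15922872) (l 15569256)) (b (l 15846392) (l 15360344))) (c (b (l 15805088) (c (l 15561040) (l 15549048))) (l 15693064))) (c (b (l 15865816) (l 15508440)) (l 15638384)))) (b (c (b (l 16042504) (l 16001032)) (l 15992680)) (c (b (l 15822984) (l 15330848)) (l 15482984))))), by decide +kernel⟩

def k8_pm_202 : ∃ t, chk3 f_pm_202 t 17 6 1 = true :=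
  ⟨(b (c (a (c (l 16026200) (a (l 15979408) (l 15961856))) (c (a (l 15916024) (l 15838208)) (l 15856568))) (a (l 15877504) (l 15834568))) (c (a (c (l 15508672) (b (l 15713120) (l 15267824))) (c (a (b (l 15633480) (l 15279824)) (c (l 15304376) (l 15373032))) (l 15389008))) (a (b (l 15678120) (l 15307432)) (l 15311792)))), by decide +kernel⟩

def k9_pm_202 : ∃ t, chk3 f_pm_202 t 8 7 1 = true :=
  ⟨(a (b (a (c (a (b (l 15262432) (l 14780936)) (c (b (l 15210464) (l 14732744)) (a (l 14811992) (l 14732176)))) (a (c (a (l 14986960) (b (l 15198008) (l 14704408))) (b (c (l 15002440) (l 15175192)) (a (c (l 14706360) (l 14686504)) (l 14667784)))) (c (b (l 15159872) (l 14664552)) (l 14874688)))) (c (c (a (b (l 15175936) (l 14694368)) (l 14633192)) (b (l 15105960) (l 14616568))) (b (l 15044304) (l 14543816)))) (b (a (c (c (a (l 14276496) (b (l 14311912) (a (l 14115352) (l 14089616)))) (a (l 14239712) (c (l 14188776) (l 14137624)))) (a (c (a (l 14175792) (l 14143272)) (a (c (l 14138800) (l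 14114272)) (l 14096912))) (c (l 14101648) (l 14047608)))) (b (c (a (c (l 14270560) (l 14202248)) (l 14157136)) (l 14083744)) (c (c (a (c (l 14078976) (l 14048704)) (l 14003424)) (l 13753416)) (l 13865224)))) (b (a (c (a (c (l 13954344) (b (l 13962944) (l 13844000))) (c (l 13718120) (c (l 13851008) (a (l 13835208) (l 13813184))))) (a (c (a (l 13857728) (c (l 13840576) (l 13812600))) (a (c (l 13815904) (l 13788784)) (l 13771968))) (c (c (l 13801624) (l 13768032)) (l 13722144)))) (a (b (c (c (l 13897824) (l 13848568)) (l 13739800)) (l 1)) (l 1))) (a (a (c (l 13700672) (c (a (l 13634040) (c (l 13616024) (l 13588208))) (a (c (b (l 13649424) (l 13533384)) (a (l 13564712) (l 13549144))) (c (l 13557776) (l 13524336))))) (a (c (l 13523488) (c (l 469788692103) (l 13507424))) (l 1))) (l 1))))) (a (b (c (b (l 14986824) (l 14501072)) (b (l 14907224) (l 14405808))) (b (c (b (l 14047816) (l 1)) (l 13836576)) (l 1))) (b (b (c (l 14838360) (l 14766824)) (c (c (l 14376768) (l 14329352)) (l 14264840)))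 (l 1)))), by decide +kernel⟩

def k10_pm_202 : ∃ t, chk3 f_pm_202 t 9 3 1 = true :=
  ⟨(b (a (b (c (a (l 15672808) (l 15482096)) (a (l 15658888) (l 15439240))) (a (c (b (l 15430272) (l 15091808)) (b (l 15385304) (l 15034160))) (b (l 15238872) (l 14929048)))) (a (b (c (l 15262120) (l 15211288)) (b (a (l 15101888) (l 1)) (l 1))) (b (l 15055648) (l 1)))) (a (b (b (a (c (l 14668992) (l 14639056)) (l 1)) (l 1)) (l 1)) (l 1))), by decide +kernel⟩

def k11_pm_202 : ∃ t, chk3 f_pm_202 t 5 1 1 = true :=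
  ⟨(b (a (a (a (b (b (b (b (c (l 14682680) (l 14609376)) (l 14734928)) (c (l 14731472) (l 14853560))) (b (c (c (l 14847296) (l 15004368)) (l 14958608)) (c (l 15054448) (l 15006024)))) (b (b (c (l 15084864) (l 15027888)) (l 15039168)) (l 14978184))) (b (b (b (b (b (a (l 14465776) (l 14387000)) (l 14445032)) (c (l 14543096) (l 14464752))) (c (l 14593576) (l 14582704))) (b (a (c (b (l 14837648) (l 14876888)) (l 14774320)) (c (c (l 14747664) (l 14715024)) (l 14658032))) (c (a (l 14881656) (l 14773056)) (l 14764944)))) (a (b (b (c (l 14924384) (l 14861360)) (l 14886728)) (l 1)) (l 1)))) (b (b (l 1) (l 1)) (l 1))) (l 1)) (b (l 1) (l 1))), by decide +kernel⟩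

def k12_pm_202 : ∃ t, chk3 f_pm_202 t 3 1 1 = true :=
  ⟨(l 1), by decide +kernel⟩

theorem s13_pm_202 : ∃ t, chk3 f_pm_202 t 8 6 1 = true := ex3_a k7_pm_202 k8_pm_202

theorem s14_pm_202 : ∃ t, chk3 f_pm_202 t 8 3 1 = true := ex3_b s13_pm_202 k9_pm_202

theorem s15_pm_202 : ∃ t, chk3 f_pm_202 t 4 3 1 = true := ex3_a s14_pm_202 k10_pm_202

theorem s16_pm_202 : ∃ t, chk3 f_pm_202 t 9 2 1 = true := ex3_a k5_pm_202 k6_pm_202

theorem s17_pm_202 : ∃ t, chk3 f_pm_202 t 8 2 3 = true := ex3_a k3_pm_202 k4_pm_202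

theorem s18_pm_202 : ∃ t, chk3 f_pm_202 t 16 2 2 = true := ex3_b k0_pm_202 k1_pm_202

theorem s19_pm_202 : ∃ t, chk3 f_pm_202 t 8 2 2 = true := ex3_a s18_pm_202 k2_pm_202

theorem s20_pm_202 : ∃ t, chk3 f_pm_202 t 8 2 1 = true := ex3_c s19_pm_202 s17_pm_202

theorem s21_pm_202 : ∃ t, chk3 f_pm_202 t 4 2 1 = true := ex3_a s20_pm_202 s16_pm_202

theorem s22_pm_202 : ∃ t, chk3 f_pm_202 t 4 1 1 = true := ex3_b s21_pm_202 s15_pm_202

theorem s23_pm_202 : ∃ t, chk3 f_pm_202 t 2 1 1 = true := ex3_a s22_pm_202 k11_pm_202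

theorem s24_pm_202 : ∃ t, chk3 f_pm_202 t 1 1 1 = true := ex3_a s23_pm_202 k12_pm_202

theorem c_pm_202 : CertNX 1073741824 536870912 0 536870912 1046898278 26843546 3 false true false .pp 2 0 2
    ndN6q2 ndN0q2 pcN0 Cut.none Ext.none :=
  certNX2 (fam := false) (s1 := true) (s2 := false) (a := 2) (b := 0) (c := 2) (cn := .pp) (n1 := ndN6q2) (n2 := ndN0q2) (pc := pcN0) (cut := Cut.none) (xt := Ext.none) (P1 := 1073741824) (W1 := 536870912) (P2 := 0) (W2 := 536870912) (P3 := 1046898278) (W3 := 26843546) (N0 := 3)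
    rfl (fun _ => rfl) s24_pm_202

noncomputable def f_mm_001 : ℕ → ℕ → ℕ → ℕ → Bool := onCell 0 536870912 536870912 536870912 1046898278 26843546
    (rowNX 3 0 false false false .up 0 0 1 (qsf 0 536870912 536870912 536870912 0) ndN6q0 ndN0q1 pcN0 Cut.none Ext.none)

def k0_mm_001 : ∃ t, chk3 f_mm_001 t 1 1 1 = true :=
  ⟨(l 5), by decide +kernel⟩

theorem c_mm_001 : CertNX 0 536870912 536870912 536870912 1046898278 26843546 3 false false false .up 0 0 1
    ndN6q0 ndN0q1 pcN0 Cut.none Ext.none :=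
  certNX0 (fam := false) (s1 := false) (s2 := false) (a := 0) (b := 0) (c := 1) (cn := .up) (n1 := ndN6q0) (n2 := ndN0q1) (pc := pcN0) (cut := Cut.none) (xt := Ext.none) (P1 := 0) (W1 := 536870912) (P2 := 536870912) (W2 := 536870912) (P3 := 1046898278) (W3 := 26843546) (N0 := 3)
    rfl k0_mm_001

noncomputable def f_mm_011 : ℕ → ℕ → ℕ → ℕ → Bool := onCell 0 536870912 536870912 536870912 1046898278 26843546
    (rowNX 3 0 false false false .pnn 0 1 1 (qsf 0 536870912 536870912 536870912 1) ndN6q0 ndN0q1 pcN1 Cut.none Ext.none)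

def k0_mm_011 : ∃ t, chk3 f_mm_011 t 1 1 1 = true :=
  ⟨(l 5), by decide +kernel⟩

theorem c_mm_011 : CertNX 0 536870912 536870912 536870912 1046898278 26843546 3 false false false .pnn 0 1 1
    ndN6q0 ndN0q1 pcN1 Cut.none Ext.none :=
  certNX0 (fam := false) (s1 := false) (s2 := false) (a := 0) (b := 1) (c := 1) (cn := .pnn) (n1 := ndN6q0) (n2 := ndN0q1) (pc := pcN1) (cut := Cut.none) (xt := Ext.none) (P1 := 0) (W1 := 536870912) (P2 := 536870912) (W2 := 536870912) (P3 := 1046898278) (W3 := 26843546) (N0 := 3)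
    rfl k0_mm_011

noncomputable def f_mm_012 : ℕ → ℕ → ℕ → ℕ → Bool := onCell 0 536870912 0 536870912 1046898278 26843546
    (rowNX 3 0 false false false .pnp 0 1 2 (qsf 0 536870912 0 536870912 1) ndN6q0 ndN0q2 pcN1 Cut.none Ext.none)

def k0_mm_012 : ∃ t, chk3 f_mm_012 t 1 1 1 = true :=
  ⟨(l 5), by decide +kernel⟩

theorem c_mm_012 : CertNX 0 536870912 0 536870912 1046898278 26843546 3 false false false .pnp 0 1 2
    ndN6q0 ndN0q2 pcN1 Cut.none Ext.none :=
  certNX0 (fam := false) (s1 := false) (s2 := false) (a := 0) (b := 1) (c := 2) (cn := .pnp) (n1 := ndN6q0) (n2 := ndN0q2) (pc := pcN1) (cut := Cut.none) (xt := Ext.none) (P1 := 0) (W1 := 536870912) (P2 := 0) (W2 := 536870912) (P3 := 1046898278) (W3 := 26843546) (N0 := 3)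
    rfl k0_mm_012

noncomputable def f_mm_022 : ℕ → ℕ → ℕ → ℕ → Bool := onCell 0 536870912 0 536870912 1046898278 26843546
    (rowNX 3 0 false false false .pp 0 2 2 (qsf 0 536870912 0 536870912 2) ndN6q0 ndN0q2 pcN2 Cut.none Ext.none)

def k0_mm_022 : ∃ t, chk3 f_mm_022 t 1 1 1 = true :=
  ⟨(l 5), by decide +kernel⟩

theorem c_mm_022 : CertNX 0 536870912 0 536870912 1046898278 26843546 3 false false false .pp 0 2 2
    ndN6q0 ndN0q2 pcN2 Cut.none Ext.none :=
  certNX0 (fam := false) (s1 := false) (s2 := false) (a := 0) (b := 2) (c := 2) (cn := .pp) (n1 := ndN6q0) (n2 := ndN0q2) (pc := pcN2) (cut := Cut.none) (xt := Ext.none) (P1 := 0) (W1 := 536870912) (P2 := 0) (W2 := 536870912) (P3 := 1046898278) (W3 := 26843546) (N0 := 3)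
    rfl k0_mm_022

noncomputable def f_mm_101 : ℕ → ℕ → ℕ → ℕ → Bool := onCell 0 536870912 536870912 536870912 1046898278 26843546
    (rowNX 3 2 false false false .npn 1 0 1 (qsf 536870912 469762048 536870912 536870912 0) ndN6q1 ndN0q1 pcN0 Cut.none Ext.none)

def k0_mm_101 : ∃ t, chk3 f_mm_101 t 1 1 1 = true :=
  ⟨(l 5), by decide +kernel⟩

theorem c_mm_101 : CertNX 536870912 469762048 536870912 536870912 1046898278 26843546 3 false false false .npn 1 0 1
    ndN6q1 ndN0q1 pcN0 Cut.none Ext.none :=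
  certNX2 (fam := false) (s1 := false) (s2 := false) (a := 1) (b := 0) (c := 1) (cn := .npn) (n1 := ndN6q1) (n2 := ndN0q1) (pc := pcN0) (cut := Cut.none) (xt := Ext.none) (P1 := 536870912) (W1 := 469762048) (P2 := 536870912) (W2 := 536870912) (P3 := 1046898278) (W3 := 26843546) (N0 := 3)
    rfl (fun _ => rfl) k0_mm_101

noncomputable def f_mm_102 : ℕ → ℕ → ℕ → ℕ → Bool := onCell 536870912 469762048 0 536870912 1046898278 26843546
    (rowNX 3 0 false false false .npp 1 0 2 (qsf 536870912 469762048 0 536870912 0) ndN6q1 ndN0q2 pcN0 Cut.none Ext.none)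

def k0_mm_102 : ∃ t, chk3 f_mm_102 t 1 1 1 = true :=
  ⟨(l 5), by decide +kernel⟩

theorem c_mm_102 : CertNX 536870912 469762048 0 536870912 1046898278 26843546 3 false false false .npp 1 0 2
    ndN6q1 ndN0q2 pcN0 Cut.none Ext.none :=
  certNX0 (fam := false) (s1 := false) (s2 := false) (a := 1) (b := 0) (c := 2) (cn := .npp) (n1 := ndN6q1) (n2 := ndN0q2) (pc := pcN0) (cut := Cut.none) (xt := Ext.none) (P1 := 536870912) (W1 := 469762048) (P2 := 0) (W2 := 536870912) (P3 := 1046898278) (W3 := 26843546) (N0 := 3)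
    rfl k0_mm_102

noncomputable def f_mm_112 : ℕ → ℕ → ℕ → ℕ → Bool := onCell 536870912 469762048 0 536870912 1046898278 26843546
    (rowNX 3 0 false false false .dn 1 1 2 (qsf 536870912 469762048 0 536870912 1) ndN6q1 ndN0q2 pcN1 Cut.none Ext.none)

def k0_mm_112 : ∃ t, chk3 f_mm_112 t 1 1 1 = true :=
  ⟨(l 5), by decide +kernel⟩

theorem c_mm_112 : CertNX 536870912 469762048 0 536870912 1046898278 26843546 3 false false false .dn 1 1 2
    ndN6q1 ndN0q2 pcN1 Cut.none Ext.none :=
  certNX0 (fam := false) (s1 := false) (s2 := false) (a := 1) (b := 1) (c := 2) (cn := .dn) (n1 := ndN6q1) (n2 := ndN0q2) (pc := pcN1) (cut := Cut.none) (xt := Ext.none) (P1 := 536870912) (W1 := 469762048) (P2 := 0) (W2 := 536870912) (P3 := 1046898278) (W3 := 26843546) (N0 := 3)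
    rfl k0_mm_112

noncomputable def f_mm_202 : ℕ → ℕ → ℕ → ℕ → Bool := onCell 1073741824 536870912 0 536870912 1046898278 26843546
    (rowNX 3 0 false false false .pp 2 0 2 (qsf 1073741824 536870912 0 536870912 0) ndN6q2 ndN0q2 pcN0 Cut.none Ext.none)

def k0_mm_202 : ∃ t, chk3 f_mm_202 t 1 1 1 = true :=
  ⟨(l 5), by decide +kernel⟩

theorem c_mm_202 : CertNX 1073741824 536870912 0 536870912 1046898278 26843546 3 false false false .pp 2 0 2
    ndN6q2 ndN0q2 pcN0 Cut.none Ext.none :=
  certNX0 (fam := false) (s1 := false) (s2 := false) (a := 2) (b := 0) (c := 2) (cn := .pp) (n1 := ndN6q2) (n2 := ndN0q2) (pc := pcN0) (cut := Cut.none) (xt := Ext.none) (P1 := 1073741824) (W1 := 536870912) (P2 := 0) (W2 := 536870912) (P3 := 1046898278) (W3 := 26843546) (N0 := 3)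
    rfl k0_mm_202

end Pool.Agent.Strip051.G.IE1.Tab.C.NB60

namespace Pool.Agent.Strip051.G.IE1.Tab.C.NB61

open Pool.Agent.Strip051.PB Pool.Agent.Strip051.PB.T
open Pool.Agent.Strip051.G.IE1.Tab

noncomputable def f_pp_001 : ℕ → ℕ → ℕ → ℕ → Bool := onCell 0 536870912 536870912 536870912 1046898278 26843546
    (rowNX 3 2 false true true .up 0 0 1 (qsf 0 536870912 536870912 536870912 0) ndN6q0 ndN1q1 pcN0 Cut.none Ext.none)

def k0_pp_001 : ∃ t, chk3 f_pp_001 t 1 1 1 = true :=
  ⟨(b (l 3) (l 3)), by decide +kernel⟩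

theorem c_pp_001 : CertNX 0 536870912 536870912 536870912 1046898278 26843546 3 false true true .up 0 0 1
    ndN6q0 ndN1q1 pcN0 Cut.none Ext.none :=
  certNX2 (fam := false) (s1 := true) (s2 := true) (a := 0) (b := 0) (c := 1) (cn := .up) (n1 := ndN6q0) (n2 := ndN1q1) (pc := pcN0) (cut := Cut.none) (xt := Ext.none) (P1 := 0) (W1 := 536870912) (P2 := 536870912) (W2 := 536870912) (P3 := 1046898278) (W3 := 26843546) (N0 := 3)
    rfl (fun _ => rfl) k0_pp_001

noncomputable def f_pp_011 : ℕ → ℕ → ℕ → ℕ → Bool := onCell 0 536870912 536870912 536870912 1046898278 26843546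
    (rowNX 3 0 false true true .pnn 0 1 1 (qsf 0 536870912 536870912 536870912 1) ndN6q0 ndN1q1 pcN1 Cut.none Ext.none)

def k0_pp_011 : ∃ t, chk3 f_pp_011 t 1 2 1 = true :=
  ⟨(l 3), by decide +kernel⟩

def k1_pp_011 : ∃ t, chk3 f_pp_011 t 1 6 1 = true :=
  ⟨(a (l 3) (l 3)), by decide +kernel⟩

def k2_pp_011 : ∃ t, chk3 f_pp_011 t 1 14 1 = true :=
  ⟨(a (b (a (a (b (l 3) (a (a (c (a (l 15149296) (c (l 15303336) (l 15194376))) (a (c (l 14976488) (l 14858848)) (l 15040680))) (c (a (l 15308576) (l 15370272)) (l 15198552))) (c (a (l 15453056) (l 15532448)) (l 15369632)))) (l 3)) (l 3)) (a (a (a (a (c (a (l 14961792) (c (l 15143160) (l 14953208))) (a (c (l 14631840) (a (l 14355216) (l 14454144))) (l 14676008))) (c (a (l 15105384) (l 15168768)) (l 14874608))) (a (c (l 15204480) (l 15062296)) (c (b (l 15419056) (l 15306000)) (l 15180184)))) (a (a (b (l 15391360) (l 15261952)) (l 15350216)) (l 15412120))) (a (a (l 15536432) (l 15714808)) (l 3)))) (l 3)), by decide +kernel⟩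

def k3_pp_011 : ∃ t, chk3 f_pp_011 t 1 30 1 = true :=
  ⟨(a (a (a (a (a (c (a (b (l 15004360) (b (l 15202880) (l 15459968))) (b (c (l 15149552) (l 14849600)) (l 15158984))) (a (a (c (l 14367936) (b (l 13934856) (l 13741512))) (c (l 14421056) (l 13972024))) (c (l 14513720) (l 14177656)))) (c (a (b (l 15014416) (l 15033704)) (l 15038256)) (b (l 14636872) (l 14565648)))) (c (a (l 15102376) (l 15176272)) (l 14841368))) (a (a (c (l 15209688) (l 15008632)) (b (l 15162064) (l 15078064))) (b (l 15208808) (a (l 15072968) (l 15109576))))) (a (a (l 15251368) (l 199343654791)) (a (l 15607016) (l 15708032)))) (a (a (l 123645644999) (l 3)) (l 3))), by decide +kernel⟩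

def k4_pp_011 : ∃ t, chk3 f_pp_011 t 1 31 1 = true :=
  ⟨(a (a (a (a (a (a (a (b (c (b (l 15413104) (c (l 15297584) (l 15259152))) (l 14453328)) (c (l 15059768) (l 14976832))) (b (c (c (b (l 15432936) (c (l 15309408) (l 15290824))) (l 15329608)) (l 14316144)) (b (c (c (l 15157896) (b (l 15158416) (l 15080048))) (c (l 15090656) (l 14197832))) (c (l 14982736) (l 14877840))))) (b (c (b (a (l 15350048) (l 15194160)) (c (a (l 15139040) (l 15332720)) (l 15161264))) (l 14397352)) (b (c (b (c (a (b (l 15222408) (l 15184688)) (l 15230944)) (l 15197568)) (l 15132416)) (l 14632016)) (c (l 15011488) (l 14568944))))) (c (b (a (c (b (l 15234840) (l 15272168)) (l 14970320)) (l 15068624)) (b (a (c (a (l 15234880) (l 15229832)) (l 15054624)) (l 15115752)) (l 15106936))) (b (l 14627472) (b (l 14835072) (l 15072104))))) (b (a (c (l 15092768) (l 14842248)) (l 15050896)) (a (a (b (l 15053944) (l 15191384)) (l 15162696)) (c (l 15231640) (l 15157096))))) (a (a (c (l 15184536) (l 15046600)) (l 15083248))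 (b (a (l 15022864) (l 15015464)) (l 15036392)))) (a (a (b (l 15066608) (a (l 14971784) (l 14989144))) (l 15150976)) (a (l 15321256) (l 15415960)))) (a (a (c (l 15439536) (l 15392584)) (c (l 15439536) (l 15392584))) (a (c (l 15439536) (l 15392584)) (l 3)))), by decide +kernel⟩

theorem s5_pp_011 : ∃ t, chk3 f_pp_011 t 1 15 1 = true := ex3_b k3_pp_011 k4_pp_011

theorem s6_pp_011 : ∃ t, chk3 f_pp_011 t 1 7 1 = true := ex3_b k2_pp_011 s5_pp_011

theorem s7_pp_011 : ∃ t, chk3 f_pp_011 t 1 3 1 = true := ex3_b k1_pp_011 s6_pp_011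

theorem s8_pp_011 : ∃ t, chk3 f_pp_011 t 1 1 1 = true := ex3_b k0_pp_011 s7_pp_011

theorem c_pp_011 : CertNX 0 536870912 536870912 536870912 1046898278 26843546 3 false true true .pnn 0 1 1
    ndN6q0 ndN1q1 pcN1 Cut.none Ext.none :=
  certNX0 (fam := false) (s1 := true) (s2 := true) (a := 0) (b := 1) (c := 1) (cn := .pnn) (n1 := ndN6q0) (n2 := ndN1q1) (pc := pcN1) (cut := Cut.none) (xt := Ext.none) (P1 := 0) (W1 := 536870912) (P2 := 536870912) (W2 := 536870912) (P3 := 1046898278) (W3 := 26843546) (N0 := 3)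
    rfl s8_pp_011

noncomputable def f_pp_012_a : ℕ → ℕ → ℕ → ℕ → Bool := onCell 536870912 536870912 0 420477299 1046898278 26843546
    (rowNX 3 2 false true true .pnp 0 1 2 (qsf 0 536870912 0 420477299 1) ndN6q0 ndN1q2a pcN1 Cut.none Ext.none)

def k0_pp_012_a : ∃ t, chk3 f_pp_012_a t 1 1 1 = true :=
  ⟨(a (b (a (l 2) (l 16776576)) (b (l 16772600) (b (a (l 16707520) (l 16707520)) (a (l 16393072) (l 16393072))))) (a (b (a (l 16515320) (a (l 16341312) (a (l 16092408) (l 15798784)))) (b (a (l 16729168) (a (l 16478112) (l 16215520))) (a (b (l 16702368) (l 16403512)) (b (a (l 16503056) (l 16144528)) (a (l 16328528) (l 16157160)))))) (b (a (a (l 15302848) (l 14849432)) (a (b (l 14267896) (l 14701664)) (a (b (l 13924856) (l 14418288)) (b (c (l 13782416) (l 13747640)) (c (l 14282328) (l 14244248)))))) (b (a (a (l 15777248) (l 15473464)) (a (b (l 15088080) (l 15378080)) (a (l 14825456) (c (l 14854552) (l 14814456))))) (a (b (a (l 16043408) (l 15844936)) (a (l 16020632) (l 15819904)))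 (b (a (l 15402096) (a (l 15385720) (l 15080304))) (a (l 15539336) (a (l 15332152) (b (l 15222624) (l 15107768)))))))))), by decide +kernel⟩

theorem c_pp_012_a : CertNX 0 536870912 0 420477299 1046898278 26843546 3 false true true .pnp 0 1 2
    ndN6q0 ndN1q2a pcN1 Cut.none Ext.none :=
  certNX2 (fam := false) (s1 := true) (s2 := true) (a := 0) (b := 1) (c := 2) (cn := .pnp) (n1 := ndN6q0) (n2 := ndN1q2a) (pc := pcN1) (cut := Cut.none) (xt := Ext.none) (P1 := 0) (W1 := 536870912) (P2 := 0) (W2 := 420477299) (P3 := 1046898278) (W3 := 26843546) (N0 := 3)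
    rfl (fun _ => rfl) k0_pp_012_a

noncomputable def f_pp_012_b : ℕ → ℕ → ℕ → ℕ → Bool := onCell 536870912 536870912 1239849684 370763052 1046898278 26843546
    (rowNX 3 2 false true true .pnp 0 1 2 (qsf 0 536870912 1239849684 370763052 1) ndN6q0 ndN1q2b pcN1 Cut.none Ext.none)

def k0_pp_012_b : ∃ t, chk3 f_pp_012_b t 1 1 1 = true :=
  ⟨(a (a (l 2) (l 16777216)) (a (a (a (l 16776896) (b (l 16594240) (l 2))) (b (a (l 16240432) (l 15512576)) (a (l 16224112) (l 15702816)))) (b (a (a (l 14956744) (l 14419456)) (a (b (b (l 13982904) (l 13882936)) (l 13820816)) (b (a (b (l 13532736) (l 13334568)) (b (l 13361096) (l 13080072))) (a (l 13253632) (l 12967840))))) (a (l 14532256) (a (l 13732504) (a (l 13139480) (l 12842056))))))), by decide +kernel⟩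

theorem c_pp_012_b : CertNX 0 536870912 1239849684 370763052 1046898278 26843546 3 false true true .pnp 0 1 2
    ndN6q0 ndN1q2b pcN1 Cut.none Ext.none :=
  certNX2 (fam := false) (s1 := true) (s2 := true) (a := 0) (b := 1) (c := 2) (cn := .pnp) (n1 := ndN6q0) (n2 := ndN1q2b) (pc := pcN1) (cut := Cut.none) (xt := Ext.none) (P1 := 0) (W1 := 536870912) (P2 := 1239849684) (W2 := 370763052) (P3 := 1046898278) (W3 := 26843546) (N0 := 3)
    rfl (fun _ => rfl) k0_pp_012_b

noncomputable def f_pp_022_a : ℕ → ℕ → ℕ → ℕ → Bool := onCell 0 536870912 0 420477299 1046898278 26843546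
    (rowNX 3 0 false true true .pp 0 2 2 (qsf 0 536870912 0 420477299 2) ndN6q0 ndN1q2a pcN2 Cut.none Ext.none)

def k0_pp_022_a : ∃ t, chk3 f_pp_022_a t 4 2 1 = true :=
  ⟨(a (a (b (a (a (c (l 15468632) (c (l 15428528) (l 15401936))) (c (b (l 15297640) (l 15017792)) (b (l 15246128) (l 15216912)))) (c (b (l 15100008) (l 15112864)) (l 15026280))) (a (c (a (b (l 15361616) (l 15297192)) (b (l 15232000) (l 15238400))) (a (b (c (l 15318448) (a (l 15327760) (l 15242552))) (a (c (l 15265976) (l 15235976)) (l 15215824))) (b (l 15178056) (l 15184584)))) (c (a (l 15176728) (l 15116800)) (l 15069320)))) (b (c (a (l 14866248) (l 14691312)) (l 14707712)) (c (a (b (l 14976608) (l 15098480)) (b (l 14916184) (c (l 15080592) (l 15020136)))) (b (l 14862264) (l 14999720))))) (a (b (c (a (b (l 14560336) (l 14693008)) (c (b (l 14471352) (l 14580504)) (l 14478488))) (l 14452424)) (c (c (b (a (l 14854000) (l 14707656)) (l 14866080)) (b (l 14606320) (a (l 14931608) (l 14785224)))) (b (l 14669240) (l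 14816640)))) (b (c (c (l 14261232) (a (b (l 14231736) (l 14383000)) (l 14126840))) (a (l 14259232) (b (l 13942280) (l 14104880)))) (c (b (a (l 14526224) (l 14359688)) (l 14573048)) (a (b (l 14461888) (l 14566384)) (c (b (l 14295728) (l 14431032)) (l 14231112))))))), by decide +kernel⟩

def k1_pp_022_a : ∃ t, chk3 f_pp_022_a t 4 3 1 = true :=
  ⟨(a (b (a (a (c (a (l 15396256) (b (l 15306408) (c (l 15490848) (l 15474000)))) (a (c (b (l 15291520) (l 15435840)) (a (b (l 15268328) (l 15405408)) (l 15323488))) (c (l 15353432) (l 15319944)))) (c (b (a (l 15302856) (l 15298080)) (c (a (l 15542208) (l 15554144)) (l 15497968))) (b (l 15228432) (l 15447760)))) (b (c (a (c (l 15314568) (l 15254376)) (b (l 15086856) (l 15061304))) (l 15160496)) (c (a (c (l 15471704) (l 15437688)) (c (l 15318648) (l 15284032))) (l 15317864)))) (a (b (a (c (a (b (l 15650248) (l 15697904)) (c (b (l 15686272) (l 15698232)) (b (l 15667504) (l 15683504)))) (a (c (a (l 15633448) (l 15646272)) (a (c (l 15614784)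 (l 15602712)) (l 15626448))) (c (b (l 15648200) (l 15664392)) (l 15623912)))) (c (b (a (l 15529064) (l 15655336)) (a (l 15658432) (l 15589224))) (b (l 15604304) (l 15558800)))) (a (c (a (l 15499968) (c (l 15454176) (l 15394528))) (a (c (a (l 15471152) (l 15447624)) (a (c (l 15450016) (l 15394360)) (l 15424096))) (c (l 15412816) (l 15378936)))) (c (a (c (l 15423912) (l 15393384)) (l 15353816)) (l 15306920)))) (b (c (a (c (l 15516248) (l 15475008)) (c (l 15345832) (l 15315832))) (b (l 15393168) (l 15324480))) (c (a (l 15154568) (b (l 15175872) (l 15006584))) (b (l 15191568) (l 15010384)))))) (b (a (c (b (c (l 15000048) (a (l 15030464) (l 14903088))) (a (l 15153568) (l 15029728))) (b (l 14915912) (c (l 14943400) (l 15016880)))) (c (l 14753688) (b (c (l 14620992) (l 14349984)) (c (l 14761680) (l 14641648))))) (a (b (c (l 15125952) (b (l 15101424) (l 15035896))) (a (b (l 14819008) (l 14847792)) (b (l 14887080) (l 1)))) (b (c (l 14844336) (l 14736096)) (l 1))))), by decide +kernel⟩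

def k2_pp_022_a : ∃ t, chk3 f_pp_022_a t 5 1 1 = true :=
  ⟨(a (b (b (a (c (l 13859096) (c (a (l 13802792) (l 13689192)) (a (l 13828672) (b (l 13553152) (l 13721320))))) (l 1)) (a (c (l 14154248) (c (l 14090328) (a (b (l 14065752) (l 14206336)) (l 911097326919)))) (l 1))) (b (b (a (c (l 14350856) (l 14267032)) (l 1)) (l 1)) (l 1))) (l 1)), by decide +kernel⟩

def k3_pp_022_a : ∃ t, chk3 f_pp_022_a t 3 1 1 = true :=
  ⟨(l 1), by decide +kernel⟩

theorem s4_pp_022_a : ∃ t, chk3 f_pp_022_a t 4 1 1 = true := ex3_b k0_pp_022_a k1_pp_022_a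

theorem s5_pp_022_a : ∃ t, chk3 f_pp_022_a t 2 1 1 = true := ex3_a s4_pp_022_a k2_pp_022_a

theorem s6_pp_022_a : ∃ t, chk3 f_pp_022_a t 1 1 1 = true := ex3_a s5_pp_022_a k3_pp_022_a

theorem c_pp_022_a : CertNX 0 536870912 0 420477299 1046898278 26843546 3 false true true .pp 0 2 2
    ndN6q0 ndN1q2a pcN2 Cut.none Ext.none :=
  certNX0 (fam := false) (s1 := true) (s2 := true) (a := 0) (b := 2) (c := 2) (cn := .pp) (n1 := ndN6q0) (n2 := ndN1q2a) (pc := pcN2) (cut := Cut.none) (xt := Ext.none) (P1 := 0) (W1 := 536870912) (P2 := 0) (W2 := 420477299) (P3 := 1046898278) (W3 := 26843546) (N0 := 3)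
    rfl s6_pp_022_a

noncomputable def f_pp_022_b : ℕ → ℕ → ℕ → ℕ → Bool := onCell 0 536870912 1073741824 536870912 1046898278 26843546
    (rowNX 3 1 false true true .pp 0 2 2 (qsf 0 536870912 1239849684 370763052 2) ndN6q0 ndN1q2b pcN2 Cut.none Ext.none)

def k0_pp_022_b : ∃ t, chk3 f_pp_022_b t 1 4 1 = true :=
  ⟨(a (a (a (b (l 1) (a (b (l 1) (a (l 1) (c (l 14840480) (l 14753416)))) (b (c (c (b (l 1) (l 14664336)) (l 511129695959)) (l 14477160)) (c (l 14703376) (l 14622184))))) (b (b (a (l 1) (c (l 13898808) (c (l 499317109335) (b (l 1) (l 13837112))))) (c (a (c (l 14272472) (b (l 1) (l 14296088))) (c (l 14124800) (l 430598002343))) (a (l 13907072) (l 14004752)))) (b (a (c (b (l 592196912871) (l 14470320)) (l 14313312)) (c (b (l 14258088) (l 14335840)) (l 14168384))) (a (l 14522128) (l 14404640))))) (b (c (b (l 481599464439) (c (a (l 13832184) (l 13429216)) (a (b (l 13727208) (l 13856720)) (l 13338568)))) (b (c (a (l 479989110023) (l 13057648)) (b (a (l 13167400) (l 12929968))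 (l 462808829575))) (a (l 13698576) (l 13275184)))) (b (c (a (b (l 13978952) (l 14070600)) (b (l 13596592) (l 13708536))) (l 13575920)) (a (l 14165648) (l 13845472))))) (b (c (b (l 12941232) (a (c (l 13284616) (l 13211424)) (l 12939952))) (b (a (c (l 12896232) (b (l 12763424) (l 12899304))) (c (l 12791848) (l 12710224))) (a (l 13123216) (l 13053328)))) (b (a (c (b (l 13469264) (l 13607576)) (l 13377048)) (l 4)) (l 13787320)))), by decide +kernel⟩

def k1_pp_022_b : ∃ t, chk3 f_pp_022_b t 1 5 1 = true :=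
  ⟨(a (a (a (b (a (b (a (c (b (l 536363871063) (l 446170081655)) (b (a (l 1) (l 15088920)) (a (l 490193314551) (l 15361920)))) (b (c (l 15109048) (l 15033056)) (c (l 15375464) (l 15310040)))) (a (c (a (l 15856528) (l 15820512)) (a (c (l 15827720) (l 15745832)) (l 15788464))) (c (l 15783064) (l 15734040)))) (b (b (l 14964704) (l 15243640)) (l 15445408))) (a (b (a (c (l 16198024) (a (l 16067696) (l 16158576))) (c (l 16132264) (l 16098584))) (a (c (l 16443872) (a (l 16450488) (l 16416192))) (c (l 16384096) (l 16362976)))) (b (l 16003272) (l 16285696)))) (b (a (b (b (l 14854280) (l 15141192)) (l 15546248)) (b (l 14891104) (l 15459456))) (b (a (l 15893992) (l 15817824)) (l 4)))) (b (b (b (l 14447000) (l 14764456)) (l 15145240)) (l 4))) (l 4)), by decide +kernel⟩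

def k2_pp_022_b : ∃ t, chk3 f_pp_022_b t 1 3 1 = true :=
  ⟨(a (a (b (a (a (b (a (c (l 16108440) (a (l 16088328) (l 16112200))) (l 4)) (l 4)) (l 4)) (l 4)) (l 4)) (l 4)) (l 4)), by decide +kernel⟩

theorem s3_pp_022_b : ∃ t, chk3 f_pp_022_b t 1 2 1 = true := ex3_b k0_pp_022_b k1_pp_022_b

theorem s4_pp_022_b : ∃ t, chk3 f_pp_022_b t 1 1 1 = true := ex3_b s3_pp_022_b k2_pp_022_b

theorem c_pp_022_b : CertNX 0 536870912 1239849684 370763052 1046898278 26843546 3 false true true .pp 0 2 2
    ndN6q0 ndN1q2b pcN2 Cut.none Ext.none :=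
  certNX1 (fam := false) (s1 := true) (s2 := true) (a := 0) (b := 2) (c := 2) (cn := .pp) (n1 := ndN6q0) (n2 := ndN1q2b) (pc := pcN2) (cut := Cut.none) (xt := Ext.none) (P1 := 0) (W1 := 536870912) (P2 := 1239849684) (W2 := 370763052) (P3 := 1046898278) (W3 := 26843546) (N0 := 3)
    rfl (fun _ => rfl) s4_pp_022_b

noncomputable def f_pp_023 : ℕ → ℕ → ℕ → ℕ → Bool := onCell 1073741824 536870912 1610612736 469762048 1046898278 26843546
    (rowNX 3 2 false true true .up 0 2 3 (qsf 0 536870912 1610612736 469762048 2) ndN6q0 ndN1q3 pcN2 Cut.none Ext.none)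

def k0_pp_023 : ∃ t, chk3 f_pp_023 t 1 1 1 = true :=
  ⟨(a (a (b (a (b (c (a (l 12841720) (l 13159192)) (a (l 12705496) (l 13041544))) (l 2)) (l 4)) (l 2)) (l 4)) (l 4)), by decide +kernel⟩

theorem c_pp_023 : CertNX 0 536870912 1610612736 469762048 1046898278 26843546 3 false true true .up 0 2 3
    ndN6q0 ndN1q3 pcN2 Cut.none Ext.none :=
  certNX2 (fam := false) (s1 := true) (s2 := true) (a := 0) (b := 2) (c := 3) (cn := .up) (n1 := ndN6q0) (n2 := ndN1q3) (pc := pcN2) (cut := Cut.none) (xt := Ext.none) (P1 := 0) (W1 := 536870912) (P2 := 1610612736) (W2 := 469762048) (P3 := 1046898278) (W3 := 26843546) (N0 := 3)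
    rfl (fun _ => rfl) k0_pp_023

noncomputable def f_pp_033 : ℕ → ℕ → ℕ → ℕ → Bool := onCell 0 536870912 1610612736 469762048 1046898278 26843546
    (rowNX 3 0 false true true .pnn 0 3 3 (qsf 0 536870912 1610612736 469762048 3) ndN6q0 ndN1q3 pcN3 Cut.none Ext.none)

def k0_pp_033 : ∃ t, chk3 f_pp_033 t 1 1 1 = true :=
  ⟨(a (l 4) (b (l 1) (l 4))), by decide +kernel⟩

theorem c_pp_033 : CertNX 0 536870912 1610612736 469762048 1046898278 26843546 3 false true true .pnn 0 3 3
    ndN6q0 ndN1q3 pcN3 Cut.none Ext.none :=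
  certNX0 (fam := false) (s1 := true) (s2 := true) (a := 0) (b := 3) (c := 3) (cn := .pnn) (n1 := ndN6q0) (n2 := ndN1q3) (pc := pcN3) (cut := Cut.none) (xt := Ext.none) (P1 := 0) (W1 := 536870912) (P2 := 1610612736) (W2 := 469762048) (P3 := 1046898278) (W3 := 26843546) (N0 := 3)
    rfl k0_pp_033

noncomputable def f_pp_101 : ℕ → ℕ → ℕ → ℕ → Bool := onCell 0 536870912 536870912 536870912 1046898278 26843546
    (rowNX 3 2 false true true .npn 1 0 1 (qsf 536870912 469762048 536870912 536870912 0) ndN6q1 ndN1q1 pcN0 Cut.none Ext.none)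

def k0_pp_101 : ∃ t, chk3 f_pp_101 t 1 1 1 = true :=
  ⟨(b (l 3) (l 3)), by decide +kernel⟩

theorem c_pp_101 : CertNX 536870912 469762048 536870912 536870912 1046898278 26843546 3 false true true .npn 1 0 1
    ndN6q1 ndN1q1 pcN0 Cut.none Ext.none :=
  certNX2 (fam := false) (s1 := true) (s2 := true) (a := 1) (b := 0) (c := 1) (cn := .npn) (n1 := ndN6q1) (n2 := ndN1q1) (pc := pcN0) (cut := Cut.none) (xt := Ext.none) (P1 := 536870912) (W1 := 469762048) (P2 := 536870912) (W2 := 536870912) (P3 := 1046898278) (W3 := 26843546) (N0 := 3)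
    rfl (fun _ => rfl) k0_pp_101

noncomputable def f_pp_102_a : ℕ → ℕ → ℕ → ℕ → Bool := onCell 536870912 469762048 0 420477299 1046898278 26843546
    (rowNX 3 0 false true true .npp 1 0 2 (qsf 536870912 469762048 0 420477299 0) ndN6q1 ndN1q2a pcN0 Cut.none Ext.none)

def k0_pp_102_a : ∃ t, chk3 f_pp_102_a t 2 1 1 = true :=
  ⟨(b (c (l 107474838551) (l 16776568)) (b (l 16772600) (b (a (l 16707520) (l 16707520)) (a (l 16393072) (l 16393072))))), by decide +kernel⟩

def k1_pp_102_a : ∃ t, chk3 f_pp_102_a t 3 1 1 = true :=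
  ⟨(a (b (a (l 16776576) (a (l 16358168) (l 15552840))) (b (a (l 16772600) (a (l 16502912) (l 15550544))) (a (b (l 16707520) (l 16393072)) (a (b (l 16374152) (a (l 16443776) (l 16504096))) (b (l 15594128) (l 15635288)))))) (b (a (a (l 14298768) (l 13939120)) (a (c (a (l 13713416) (l 13580560)) (l 13535568)) (b (c (l 13598928) (l 13460416)) (c (a (b (l 13584144) (c (l 13628400) (l 13566048))) (b (b (l 13619648) (l 13635144)) (l 13665784))) (a (b (l 13455200) (l 13468712)) (b (l 13486496) (l 13524704))))))) (a (b (a (l 14526920) (l 13936336)) (b (a (l 14575000) (b (l 13948392) (a (l 14120904) (l 13944112)))) (a (b (l 14717640) (a (l 15087888) (a (l 14699000) (b (l 14456432) (l 14524840))))) (b (a (l 14228976) (l 14050912)) (b (l 14226040) (l 14293632)))))) (b (a (a (b (l 13657696) (b (l 13657656) (l 13663128))) (b (c (b (l 13580288) (a (l 13584184) (l 13589048))) (b (l 13464232) (l 13472392))) (c (a (l 13603712) (l 13613736)) (l 13491464)))) (b (c (a (c (l 13660736) (l 13596896))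 (c (l 13737448) (l 13673232))) (l 13529360)) (c (a (c (l 13693488) (l 13631408)) (c (a (l 13748688) (l 13785864)) (l 13706648))) (b (l 13561928) (l 13579736))))) (b (a (a (b (l 13683656) (l 13771752)) (c (c (l 13702112) (l 13646976)) (l 13562224))) (c (c (a (l 13745160) (a (l 13792608) (b (l 13791808) (l 13865032)))) (b (l 13679112) (l 13609416))) (l 13615392))) (a (a (b (l 13875000) (l 13985552)) (c (c (l 13893176) (b (l 13784992) (l 13890224))) (l 13762600))) (c (a (c (b (l 13874136) (l 13990544)) (b (l 13816464) (l 13935072))) (b (c (a (l 13924752) (l 13983776)) (c (l 13919224) (l 13859040))) (c (a (l 14073320) (l 14151472)) (l 14058816)))) (b (l 13762688) (a (l 13848240) (l 13958040)))))))))), by decide +kernel⟩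

theorem s2_pp_102_a : ∃ t, chk3 f_pp_102_a t 1 1 1 = true := ex3_a k0_pp_102_a k1_pp_102_a

theorem c_pp_102_a : CertNX 536870912 469762048 0 420477299 1046898278 26843546 3 false true true .npp 1 0 2
    ndN6q1 ndN1q2a pcN0 Cut.none Ext.none :=
  certNX0 (fam := false) (s1 := true) (s2 := true) (a := 1) (b := 0) (c := 2) (cn := .npp) (n1 := ndN6q1) (n2 := ndN1q2a) (pc := pcN0) (cut := Cut.none) (xt := Ext.none) (P1 := 536870912) (W1 := 469762048) (P2 := 0) (W2 := 420477299) (P3 := 1046898278) (W3 := 26843546) (N0 := 3)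
    rfl s2_pp_102_a

noncomputable def f_pp_102_b : ℕ → ℕ → ℕ → ℕ → Bool := onCell 536870912 469762048 1239849684 370763052 1046898278 26843546
    (rowNX 3 0 false true true .npp 1 0 2 (qsf 536870912 469762048 1239849684 370763052 0) ndN6q1 ndN1q2b pcN0 Cut.none Ext.none)

def k0_pp_102_b : ∃ t, chk3 f_pp_102_b t 1 1 1 = true :=
  ⟨(a (b (c (l 16777216) (l 16777216)) (l 2)) (a (a (b (l 16777216) (l 2)) (b (a (b (l 16505280) (l 16505280)) (b (l 15553200) (l 15553200))) (a (l 2) (l 15553200)))) (a (b (a (l 14529856) (l 13939560)) (b (l 14238360) (l 2))) (b (a (a (l 13660208) (b (l 13522328) (l 13522328))) (c (b (l 13593192) (l 13592992)) (l 13454360))) (c (a (l 13647752) (l 13592992)) (a (l 13536064) (l 13454256))))))), by decide +kernel⟩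

theorem c_pp_102_b : CertNX 536870912 469762048 1239849684 370763052 1046898278 26843546 3 false true true .npp 1 0 2
    ndN6q1 ndN1q2b pcN0 Cut.none Ext.none :=
  certNX0 (fam := false) (s1 := true) (s2 := true) (a := 1) (b := 0) (c := 2) (cn := .npp) (n1 := ndN6q1) (n2 := ndN1q2b) (pc := pcN0) (cut := Cut.none) (xt := Ext.none) (P1 := 536870912) (W1 := 469762048) (P2 := 1239849684) (W2 := 370763052) (P3 := 1046898278) (W3 := 26843546) (N0 := 3)
    rfl k0_pp_102_b

noncomputable def f_pp_112_a : ℕ → ℕ → ℕ → ℕ → Bool := onCell 536870912 469762048 0 420477299 1046898278 26843546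
    (rowNX 3 0 false true true .dn 1 1 2 (qsf 536870912 469762048 0 420477299 1) ndN6q1 ndN1q2a pcN1 Cut.none Ext.none)

def k0_pp_112_a : ∃ t, chk3 f_pp_112_a t 1 1 1 = true :=
  ⟨(a (b (c (l 16776592) (l 16776568)) (b (l 16772600) (a (b (l 16707520) (l 16393072)) (l 1)))) (l 1)), by decide +kernel⟩

theorem c_pp_112_a : CertNX 536870912 469762048 0 420477299 1046898278 26843546 3 false true true .dn 1 1 2
    ndN6q1 ndN1q2a pcN1 Cut.none Ext.none :=
  certNX0 (fam := false) (s1 := true) (s2 := true) (a := 1) (b := 1) (c := 2) (cn := .dn) (n1 := ndN6q1) (n2 := ndN1q2a) (pc := pcN1) (cut := Cut.none) (xt := Ext.none) (P1 := 536870912) (W1 := 469762048) (P2 := 0) (W2 := 420477299) (P3 := 1046898278) (W3 := 26843546) (N0 := 3)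
    rfl k0_pp_112_a

noncomputable def f_pp_112_b : ℕ → ℕ → ℕ → ℕ → Bool := onCell 536870912 469762048 536870912 536870912 1046898278 26843546
    (rowNX 3 1 false true true .dn 1 1 2 (qsf 536870912 469762048 1239849684 370763052 1) ndN6q1 ndN1q2b pcN1 Cut.none Ext.none)

def k0_pp_112_b : ∃ t, chk3 f_pp_112_b t 1 1 1 = true :=
  ⟨(a (b (b (a (b (l 510598048439) (a (l 16720184) (l 16776984))) (l 16777056)) (l 16777176)) (b (b (b (l 16776888) (a (l 16590408) (l 16589408))) (b (l 16223024) (l 15696600))) (b (l 14397848) (a (b (l 13684592) (l 12940608)) (l 2))))) (a (b (a (l 16777216) (b (l 15952600) (l 16036480))) (b (b (a (l 16685224) (l 2)) (l 2)) (l 2))) (b (b (a (l 14238360) (a (l 13591576) (l 13458688))) (a (l 14238360) (l 2))) (l 2)))), by decide +kernel⟩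

theorem c_pp_112_b : CertNX 536870912 469762048 1239849684 370763052 1046898278 26843546 3 false true true .dn 1 1 2
    ndN6q1 ndN1q2b pcN1 Cut.none Ext.none :=
  certNX1 (fam := false) (s1 := true) (s2 := true) (a := 1) (b := 1) (c := 2) (cn := .dn) (n1 := ndN6q1) (n2 := ndN1q2b) (pc := pcN1) (cut := Cut.none) (xt := Ext.none) (P1 := 536870912) (W1 := 469762048) (P2 := 1239849684) (W2 := 370763052) (P3 := 1046898278) (W3 := 26843546) (N0 := 3)
    rfl (fun _ => rfl) k0_pp_112_b

noncomputable def f_pp_113 : ℕ → ℕ → ℕ → ℕ → Bool := onCell 536870912 469762048 536870912 536870912 1046898278 26843546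
    (rowNX 3 1 false true true .nn 1 1 3 (qsf 536870912 469762048 1610612736 469762048 1) ndN6q1 ndN1q3 pcN1 Cut.none Ext.none)

def k0_pp_113 : ∃ t, chk3 f_pp_113 t 1 1 1 = true :=
  ⟨(b (a (l 1) (a (a (l 16777216) (b (l 1) (l 16036480))) (a (b (l 14238360) (l 14238360)) (c (a (l 497706127623) (l 494484792631)) (l 525623148503))))) (b (a (b (b (l 16776888) (l 499860418375)) (l 478920278391)) (a (b (a (l 16685224) (l 15949208)) (a (l 15961976) (l 15252856))) (a (b (l 14153088) (l 13490904)) (b (c (l 13578288) (l 13426480)) (a (l 12862752) (l 12804960)))))) (a (b (l 14376880) (b (a (l 13684592) (l 13657904)) (a (l 12940608) (a (l 12911336) (b (l 13028136) (c (l 12726368) (b (l 12742928) (l 12581688)))))))) (b (a (a (l 14617208) (l 13931064)) (a (l 12259168) (a (l 11692168) (l 11676064)))) (b (a (l 13320408) (a (l 11386104) (c (l 11294960) (l 10631800)))) (b (a (b (l 12791808) (c (l 12622016) (l 12619008))) (a (l 10812504) (c (l 10884848) (l 10138096)))) (a (a (c (l 12723992)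 (b (l 12741784) (l 12589912))) (c (l 12106632) (c (l 11998816) (b (l 12019040) (l 11801304))))) (a (c (l 10773120) (c (l 10400720) (b (l 10246096) (c (l 10132984) (l 10016368))))) (b (c (l 10717048) (l 9854768)) (c (l 10733848) (b (l 9739744) (l 9700856)))))))))))), by decide +kernel⟩

theorem c_pp_113 : CertNX 536870912 469762048 1610612736 469762048 1046898278 26843546 3 false true true .nn 1 1 3
    ndN6q1 ndN1q3 pcN1 Cut.none Ext.none :=
  certNX1 (fam := false) (s1 := true) (s2 := true) (a := 1) (b := 1) (c := 3) (cn := .nn) (n1 := ndN6q1) (n2 := ndN1q3) (pc := pcN1) (cut := Cut.none) (xt := Ext.none) (P1 := 536870912) (W1 := 469762048) (P2 := 1610612736) (W2 := 469762048) (P3 := 1046898278) (W3 := 26843546) (N0 := 3)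
    rfl (fun _ => rfl) k0_pp_113

noncomputable def f_pp_123 : ℕ → ℕ → ℕ → ℕ → Bool := onCell 1073741824 536870912 1610612736 469762048 1046898278 26843546
    (rowNX 3 2 false true true .npn 1 2 3 (qsf 536870912 469762048 1610612736 469762048 2) ndN6q1 ndN1q3 pcN2 Cut.none Ext.none)

def k0_pp_123 : ∃ t, chk3 f_pp_123 t 1 1 1 = true :=
  ⟨(a (a (b (a (c (a (l 12840768) (a (l 13078112) (l 4))) (a (b (l 12705496) (l 12605864)) (l 13041984))) (l 4)) (a (a (a (b (l 4) (b (l 4) (l 4))) (l 4)) (l 4)) (l 4))) (l 4)) (l 4)), by decide +kernel⟩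

theorem c_pp_123 : CertNX 536870912 469762048 1610612736 469762048 1046898278 26843546 3 false true true .npn 1 2 3
    ndN6q1 ndN1q3 pcN2 Cut.none Ext.none :=
  certNX2 (fam := false) (s1 := true) (s2 := true) (a := 1) (b := 2) (c := 3) (cn := .npn) (n1 := ndN6q1) (n2 := ndN1q3) (pc := pcN2) (cut := Cut.none) (xt := Ext.none) (P1 := 536870912) (W1 := 469762048) (P2 := 1610612736) (W2 := 469762048) (P3 := 1046898278) (W3 := 26843546) (N0 := 3)
    rfl (fun _ => rfl) k0_pp_123

noncomputable def f_pp_133 : ℕ → ℕ → ℕ → ℕ → Bool := onCell 536870912 469762048 1610612736 469762048 1046898278 26843546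
    (rowNX 3 0 false true true .dn 1 3 3 (qsf 536870912 469762048 1610612736 469762048 3) ndN6q1 ndN1q3 pcN3 Cut.none Ext.none)

def k0_pp_133 : ∃ t, chk3 f_pp_133 t 1 1 1 = true :=
  ⟨(l 1), by decide +kernel⟩

theorem c_pp_133 : CertNX 536870912 469762048 1610612736 469762048 1046898278 26843546 3 false true true .dn 1 3 3
    ndN6q1 ndN1q3 pcN3 Cut.none Ext.none :=
  certNX0 (fam := false) (s1 := true) (s2 := true) (a := 1) (b := 3) (c := 3) (cn := .dn) (n1 := ndN6q1) (n2 := ndN1q3) (pc := pcN3) (cut := Cut.none) (xt := Ext.none) (P1 := 536870912) (W1 := 469762048) (P2 := 1610612736) (W2 := 469762048) (P3 := 1046898278) (W3 := 26843546) (N0 := 3)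
    rfl k0_pp_133

noncomputable def f_pp_202_a : ℕ → ℕ → ℕ → ℕ → Bool := onCell 1073741824 536870912 0 420477299 1046898278 26843546
    (rowNX 3 0 false true true .pp 2 0 2 (qsf 1073741824 536870912 0 420477299 0) ndN6q2 ndN1q2a pcN0 Cut.none Ext.none)

def k0_pp_202_a : ∃ t, chk3 f_pp_202_a t 1 1 1 = true :=
  ⟨(a (b (a (a (a (b (b (b (a (l 51704329927) (l 15637992)) (l 3)) (l 3)) (l 3)) (l 3)) (l 3)) (l 3)) (l 3)) (l 1)), by decide +kernel⟩

theorem c_pp_202_a : CertNX 1073741824 536870912 0 420477299 1046898278 26843546 3 false true true .pp 2 0 2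
    ndN6q2 ndN1q2a pcN0 Cut.none Ext.none :=
  certNX0 (fam := false) (s1 := true) (s2 := true) (a := 2) (b := 0) (c := 2) (cn := .pp) (n1 := ndN6q2) (n2 := ndN1q2a) (pc := pcN0) (cut := Cut.none) (xt := Ext.none) (P1 := 1073741824) (W1 := 536870912) (P2 := 0) (W2 := 420477299) (P3 := 1046898278) (W3 := 26843546) (N0 := 3)
    rfl k0_pp_202_a

noncomputable def f_pp_202_b : ℕ → ℕ → ℕ → ℕ → Bool := onCell 1073741824 536870912 0 536870912 1046898278 26843546
    (rowNX 3 1 false true true .pp 2 0 2 (qsf 1073741824 536870912 1239849684 370763052 0) ndN6q2 ndN1q2b pcN0 Cut.none Ext.none)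

def k0_pp_202_b : ∃ t, chk3 f_pp_202_b t 1 1 1 = true :=
  ⟨(a (a (a (b (b (a (a (l 1) (a (l 1) (a (l 1) (l 3)))) (l 3)) (b (b (a (c (l 229274397015) (l 15386720)) (c (l 15643616) (l 15609000))) (c (a (l 15164192) (l 15323688)) (l 15153200))) (b (c (a (l 14830272) (l 15022992)) (l 14823336)) (b (c (l 14723240) (l 14651416)) (l 14656704))))) (b (b (c (l 14693208) (l 14620056)) (c (l 14693208) (l 14620056))) (b (c (l 14693208) (l 14620056)) (c (l 14693208) (l 14620056))))) (b (b (l 3) (b (l 3) (b (a (a (l 15130000) (l 3)) (l 3)) (a (b (l 14941728) (l 14906456)) (l 14748808))))) (b (b (c (a (l 14938656) (l 14767776)) (a (l 14874128) (l 14697248))) (c (l 14850568) (l 14782936))) (b (c (l 14850568) (l 14782936)) (c (l 14850568) (l 14782936)))))) (b (l 3) (b (a (b (a (a (l 14569680) (l 14786560)) (l 3)) (a (a (l 14569680) (l 14786560)) (l 15487608))) (b (l 3) (a (l 16347856) (l 2)))) (a (b (a (a (l 14569680) (l 2)) (l 2)) (l 2)) (l 2))))) (b (l 3) (b (b (l 3) (l 2)) (l 2)))), by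 decide +kernel⟩

theorem c_pp_202_b : CertNX 1073741824 536870912 1239849684 370763052 1046898278 26843546 3 false true true .pp 2 0 2
    ndN6q2 ndN1q2b pcN0 Cut.none Ext.none :=
  certNX1 (fam := false) (s1 := true) (s2 := true) (a := 2) (b := 0) (c := 2) (cn := .pp) (n1 := ndN6q2) (n2 := ndN1q2b) (pc := pcN0) (cut := Cut.none) (xt := Ext.none) (P1 := 1073741824) (W1 := 536870912) (P2 := 1239849684) (W2 := 370763052) (P3 := 1046898278) (W3 := 26843546) (N0 := 3)
    rfl (fun _ => rfl) k0_pp_202_b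

noncomputable def f_pp_203 : ℕ → ℕ → ℕ → ℕ → Bool := onCell 1073741824 536870912 0 536870912 1046898278 26843546
    (rowNX 3 1 false true true .up 2 0 3 (qsf 1073741824 536870912 1610612736 469762048 0) ndN6q2 ndN1q3 pcN0 Cut.none Ext.none)

def k0_pp_203 : ∃ t, chk3 f_pp_203 t 1 1 1 = true :=
  ⟨(a (a (b (l 1) (b (b (l 1) (a (l 1) (c (l 14850568) (l 14782936)))) (b (a (l 409661420807) (c (l 14850568) (l 14782936))) (a (c (l 14693208) (l 14620056)) (c (l 14850568) (l 14782936)))))) (b (l 3) (b (a (b (a (l 1) (l 3)) (a (a (l 14569680) (l 14786560)) (l 15487608))) (b (l 3) (a (l 16347856) (l 3)))) (a (b (a (a (l 14569680) (l 14786560)) (l 15487608)) (a (c (l 14715320) (l 14642944)) (l 15487608))) (b (a (l 16347856) (l 16776616)) (a (l 16305912) (l 16776616))))))) (b (l 3) (a (b (l 3) (b (l 16777216) (l 16777208))) (b (l 3) (b (l 3) (l 300815557751)))))), by decide +kernel⟩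

theorem c_pp_203 : CertNX 1073741824 536870912 1610612736 469762048 1046898278 26843546 3 false true true .up 2 0 3
    ndN6q2 ndN1q3 pcN0 Cut.none Ext.none :=
  certNX1 (fam := false) (s1 := true) (s2 := true) (a := 2) (b := 0) (c := 3) (cn := .up) (n1 := ndN6q2) (n2 := ndN1q3) (pc := pcN0) (cut := Cut.none) (xt := Ext.none) (P1 := 1073741824) (W1 := 536870912) (P2 := 1610612736) (W2 := 469762048) (P3 := 1046898278) (W3 := 26843546) (N0 := 3)
    rfl (fun _ => rfl) k0_pp_203

noncomputable def f_pp_213 : ℕ → ℕ → ℕ → ℕ → Bool := onCell 1073741824 536870912 536870912 536870912 1046898278 26843546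
    (rowNX 3 1 false true true .pnn 2 1 3 (qsf 1073741824 536870912 1610612736 469762048 1) ndN6q2 ndN1q3 pcN1 Cut.none Ext.none)

def k0_pp_213 : ∃ t, chk3 f_pp_213 t 1 1 1 = true :=
  ⟨(a (b (a (b (b (a (l 14656704) (c (l 14850568) (l 14782936))) (l 14737424)) (a (l 14656704) (l 14816824))) (b (a (b (a (b (l 14679208) (l 14679208)) (l 15487608)) (a (l 14679208) (l 15487608))) (b (a (l 16326880) (l 16776616)) (a (l 16347856) (l 16776624)))) (a (a (l 14678176) (l 15479336)) (a (l 16337952) (l 16757128))))) (a (b (b (a (l 14640264) (l 14807400)) (a (l 14537936) (l 14884056))) (b (a (l 14789264) (l 15125160)) (a (l 15587744) (l 2)))) (b (a (b (a (l 14679232) (l 15491400)) (a (l 14879640) (l 2))) (b (a (l 16348816) (l 2)) (l 2))) (l 2)))) (b (a (b (b (l 16767744) (l 16781224)) (b (l 16746272) (l 16653504))) (b (b (b (l 16754552) (l 16738568)) (b (l 16688448) (l 2))) (l 2))) (l 2))), by decide +kernel⟩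

theorem c_pp_213 : CertNX 1073741824 536870912 1610612736 469762048 1046898278 26843546 3 false true true .pnn 2 1 3
    ndN6q2 ndN1q3 pcN1 Cut.none Ext.none :=
  certNX1 (fam := false) (s1 := true) (s2 := true) (a := 2) (b := 1) (c := 3) (cn := .pnn) (n1 := ndN6q2) (n2 := ndN1q3) (pc := pcN1) (cut := Cut.none) (xt := Ext.none) (P1 := 1073741824) (W1 := 536870912) (P2 := 1610612736) (W2 := 469762048) (P3 := 1046898278) (W3 := 26843546) (N0 := 3)
    rfl (fun _ => rfl) k0_pp_213

noncomputable def f_pp_303 : ℕ → ℕ → ℕ → ℕ → Bool := onCell 0 1230186008 1610612736 469762048 1046898278 26843546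
    (rowNX 3 0 false true true .npn 3 0 3 (qsf 0 1230186008 1610612736 469762048 0) ndN6q3 ndN1q3 pcN0 Cut.none Ext.none)

def k0_pp_303 : ∃ t, chk3 f_pp_303 t 1 1 1 = true :=
  ⟨(a (l 3) (l 3)), by decide +kernel⟩

theorem c_pp_303 : CertNX 0 1230186008 1610612736 469762048 1046898278 26843546 3 false true true .npn 3 0 3
    ndN6q3 ndN1q3 pcN0 Cut.none Ext.none :=
  certNX0 (fam := false) (s1 := true) (s2 := true) (a := 3) (b := 0) (c := 3) (cn := .npn) (n1 := ndN6q3) (n2 := ndN1q3) (pc := pcN0) (cut := Cut.none) (xt := Ext.none) (P1 := 0) (W1 := 1230186008) (P2 := 1610612736) (W2 := 469762048) (P3 := 1046898278) (W3 := 26843546) (N0 := 3)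
    rfl k0_pp_303

noncomputable def f_pp_313 : ℕ → ℕ → ℕ → ℕ → Bool := onCell 0 1230186008 1610612736 469762048 1046898278 26843546
    (rowNX 3 0 false true true .dn 3 1 3 (qsf 0 1230186008 1610612736 469762048 1) ndN6q3 ndN1q3 pcN1 Cut.none Ext.none)

def k0_pp_313 : ∃ t, chk3 f_pp_313 t 1 1 1 = true :=
  ⟨(l 1), by decide +kernel⟩

theorem c_pp_313 : CertNX 0 1230186008 1610612736 469762048 1046898278 26843546 3 false true true .dn 3 1 3
    ndN6q3 ndN1q3 pcN1 Cut.none Ext.none :=
  certNX0 (fam := false) (s1 := true) (s2 := true) (a := 3) (b := 1) (c := 3) (cn := .dn) (n1 := ndN6q3) (n2 := ndN1q3) (pc := pcN1) (cut := Cut.none) (xt := Ext.none) (P1 := 0) (W1 := 1230186008) (P2 := 1610612736) (W2 := 469762048) (P3 := 1046898278) (W3 := 26843546) (N0 := 3)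
    rfl k0_pp_313

noncomputable def f_pm_001 : ℕ → ℕ → ℕ → ℕ → Bool := onCell 0 536870912 536870912 536870912 1046898278 26843546
    (rowNX 3 0 false true false .up 0 0 1 (qsf 0 536870912 536870912 536870912 0) ndN6q0 ndN1q1 pcN0 Cut.none Ext.none)

def k0_pm_001 : ∃ t, chk3 f_pm_001 t 1 1 1 = true :=
  ⟨(l 4), by decide +kernel⟩

theorem c_pm_001 : CertNX 0 536870912 536870912 536870912 1046898278 26843546 3 false true false .up 0 0 1
    ndN6q0 ndN1q1 pcN0 Cut.none Ext.none :=
  certNX0 (fam := false) (s1 := true) (s2 := false) (a := 0) (b := 0) (c := 1) (cn := .up) (n1 := ndN6q0) (n2 := ndN1q1) (pc := pcN0) (cut := Cut.none) (xt := Ext.none) (P1 := 0) (W1 := 536870912) (P2 := 536870912) (W2 := 536870912) (P3 := 1046898278) (W3 := 26843546) (N0 := 3)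
    rfl k0_pm_001

noncomputable def f_pm_011 : ℕ → ℕ → ℕ → ℕ → Bool := onCell 0 536870912 536870912 536870912 1046898278 26843546
    (rowNX 3 0 false true false .pnn 0 1 1 (qsf 0 536870912 536870912 536870912 1) ndN6q0 ndN1q1 pcN1 Cut.none Ext.none)

def k0_pm_011 : ∃ t, chk3 f_pm_011 t 1 1 1 = true :=
  ⟨(l 4), by decide +kernel⟩

theorem c_pm_011 : CertNX 0 536870912 536870912 536870912 1046898278 26843546 3 false true false .pnn 0 1 1
    ndN6q0 ndN1q1 pcN1 Cut.none Ext.none :=
  certNX0 (fam := false) (s1 := true) (s2 := false) (a := 0) (b := 1) (c := 1) (cn := .pnn) (n1 := ndN6q0) (n2 := ndN1q1) (pc := pcN1) (cut := Cut.none) (xt := Ext.none) (P1 := 0) (W1 := 536870912) (P2 := 536870912) (W2 := 536870912) (P3 := 1046898278) (W3 := 26843546) (N0 := 3)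
    rfl k0_pm_011

noncomputable def f_pm_012_a : ℕ → ℕ → ℕ → ℕ → Bool := onCell 0 536870912 0 420477299 1046898278 26843546
    (rowNX 3 0 false true false .pnp 0 1 2 (qsf 0 536870912 0 420477299 1) ndN6q0 ndN1q2a pcN1 Cut.none Ext.none)

def k0_pm_012_a : ∃ t, chk3 f_pm_012_a t 1 1 1 = true :=
  ⟨(a (l 4) (l 4)), by decide +kernel⟩

theorem c_pm_012_a : CertNX 0 536870912 0 420477299 1046898278 26843546 3 false true false .pnp 0 1 2
    ndN6q0 ndN1q2a pcN1 Cut.none Ext.none :=
  certNX0 (fam := false) (s1 := true) (s2 := false) (a := 0) (b := 1) (c := 2) (cn := .pnp) (n1 := ndN6q0) (n2 := ndN1q2a) (pc := pcN1) (cut := Cut.none) (xt := Ext.none) (P1 := 0) (W1 := 536870912) (P2 := 0) (W2 := 420477299) (P3 := 1046898278) (W3 := 26843546) (N0 := 3)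
    rfl k0_pm_012_a

noncomputable def f_pm_012_b : ℕ → ℕ → ℕ → ℕ → Bool := onCell 0 536870912 1239849684 370763052 1046898278 26843546
    (rowNX 3 0 false true false .pnp 0 1 2 (qsf 0 536870912 1239849684 370763052 1) ndN6q0 ndN1q2b pcN1 Cut.none Ext.none)

def k0_pm_012_b : ∃ t, chk3 f_pm_012_b t 1 1 1 = true :=
  ⟨(a (l 4) (l 4)), by decide +kernel⟩

theorem c_pm_012_b : CertNX 0 536870912 1239849684 370763052 1046898278 26843546 3 false true false .pnp 0 1 2
    ndN6q0 ndN1q2b pcN1 Cut.none Ext.none :=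
  certNX0 (fam := false) (s1 := true) (s2 := false) (a := 0) (b := 1) (c := 2) (cn := .pnp) (n1 := ndN6q0) (n2 := ndN1q2b) (pc := pcN1) (cut := Cut.none) (xt := Ext.none) (P1 := 0) (W1 := 536870912) (P2 := 1239849684) (W2 := 370763052) (P3 := 1046898278) (W3 := 26843546) (N0 := 3)
    rfl k0_pm_012_b

noncomputable def f_pm_022_a : ℕ → ℕ → ℕ → ℕ → Bool := onCell 0 536870912 0 420477299 1046898278 26843546
    (rowNX 3 0 false true false .pp 0 2 2 (qsf 0 536870912 0 420477299 2) ndN6q0 ndN1q2a pcN2 Cut.none Ext.none)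

def k0_pm_022_a : ∃ t, chk3 f_pm_022_a t 1 1 1 = true :=
  ⟨(a (l 4) (l 1)), by decide +kernel⟩

theorem c_pm_022_a : CertNX 0 536870912 0 420477299 1046898278 26843546 3 false true false .pp 0 2 2
    ndN6q0 ndN1q2a pcN2 Cut.none Ext.none :=
  certNX0 (fam := false) (s1 := true) (s2 := false) (a := 0) (b := 2) (c := 2) (cn := .pp) (n1 := ndN6q0) (n2 := ndN1q2a) (pc := pcN2) (cut := Cut.none) (xt := Ext.none) (P1 := 0) (W1 := 536870912) (P2 := 0) (W2 := 420477299) (P3 := 1046898278) (W3 := 26843546) (N0 := 3)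
    rfl k0_pm_022_a

noncomputable def f_pm_022_b : ℕ → ℕ → ℕ → ℕ → Bool := onCell 0 536870912 1239849684 370763052 1046898278 26843546
    (rowNX 3 0 false true false .pp 0 2 2 (qsf 0 536870912 1239849684 370763052 2) ndN6q0 ndN1q2b pcN2 Cut.none Ext.none)

def k0_pm_022_b : ∃ t, chk3 f_pm_022_b t 1 1 1 = true :=
  ⟨(a (l 4) (l 4)), by decide +kernel⟩

theorem c_pm_022_b : CertNX 0 536870912 1239849684 370763052 1046898278 26843546 3 false true false .pp 0 2 2
    ndN6q0 ndN1q2b pcN2 Cut.none Ext.none :=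
  certNX0 (fam := false) (s1 := true) (s2 := false) (a := 0) (b := 2) (c := 2) (cn := .pp) (n1 := ndN6q0) (n2 := ndN1q2b) (pc := pcN2) (cut := Cut.none) (xt := Ext.none) (P1 := 0) (W1 := 536870912) (P2 := 1239849684) (W2 := 370763052) (P3 := 1046898278) (W3 := 26843546) (N0 := 3)
    rfl k0_pm_022_b

noncomputable def f_pm_023 : ℕ → ℕ → ℕ → ℕ → Bool := onCell 0 536870912 1610612736 469762048 1046898278 26843546
    (rowNX 3 0 false true false .up 0 2 3 (qsf 0 536870912 1610612736 469762048 2) ndN6q0 ndN1q3 pcN2 Cut.none Ext.none)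

def k0_pm_023 : ∃ t, chk3 f_pm_023 t 1 1 1 = true :=
  ⟨(l 4), by decide +kernel⟩

theorem c_pm_023 : CertNX 0 536870912 1610612736 469762048 1046898278 26843546 3 false true false .up 0 2 3
    ndN6q0 ndN1q3 pcN2 Cut.none Ext.none :=
  certNX0 (fam := false) (s1 := true) (s2 := false) (a := 0) (b := 2) (c := 3) (cn := .up) (n1 := ndN6q0) (n2 := ndN1q3) (pc := pcN2) (cut := Cut.none) (xt := Ext.none) (P1 := 0) (W1 := 536870912) (P2 := 1610612736) (W2 := 469762048) (P3 := 1046898278) (W3 := 26843546) (N0 := 3)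
    rfl k0_pm_023

noncomputable def f_pm_033 : ℕ → ℕ → ℕ → ℕ → Bool := onCell 0 536870912 1610612736 469762048 1046898278 26843546
    (rowNX 3 0 false true false .pnn 0 3 3 (qsf 0 536870912 1610612736 469762048 3) ndN6q0 ndN1q3 pcN3 Cut.none Ext.none)

def k0_pm_033 : ∃ t, chk3 f_pm_033 t 1 1 1 = true :=
  ⟨(l 4), by decide +kernel⟩

theorem c_pm_033 : CertNX 0 536870912 1610612736 469762048 1046898278 26843546 3 false true false .pnn 0 3 3
    ndN6q0 ndN1q3 pcN3 Cut.none Ext.none :=
  certNX0 (fam := false) (s1 := true) (s2 := false) (a := 0) (b := 3) (c := 3) (cn := .pnn) (n1 := ndN6q0) (n2 := ndN1q3) (pc := pcN3) (cut := Cut.none) (xt := Ext.none) (P1 := 0) (W1 := 536870912) (P2 := 1610612736) (W2 := 469762048) (P3 := 1046898278) (W3 := 26843546) (N0 := 3)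
    rfl k0_pm_033

noncomputable def f_pm_101 : ℕ → ℕ → ℕ → ℕ → Bool := onCell 536870912 469762048 536870912 536870912 1046898278 26843546
    (rowNX 3 0 false true false .npn 1 0 1 (qsf 536870912 469762048 536870912 536870912 0) ndN6q1 ndN1q1 pcN0 Cut.none Ext.none)

def k0_pm_101 : ∃ t, chk3 f_pm_101 t 1 1 1 = true :=
  ⟨(l 4), by decide +kernel⟩

theorem c_pm_101 : CertNX 536870912 469762048 536870912 536870912 1046898278 26843546 3 false true false .npn 1 0 1
    ndN6q1 ndN1q1 pcN0 Cut.none Ext.none :=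
  certNX0 (fam := false) (s1 := true) (s2 := false) (a := 1) (b := 0) (c := 1) (cn := .npn) (n1 := ndN6q1) (n2 := ndN1q1) (pc := pcN0) (cut := Cut.none) (xt := Ext.none) (P1 := 536870912) (W1 := 469762048) (P2 := 536870912) (W2 := 536870912) (P3 := 1046898278) (W3 := 26843546) (N0 := 3)
    rfl k0_pm_101

noncomputable def f_pm_102_a : ℕ → ℕ → ℕ → ℕ → Bool := onCell 536870912 469762048 0 420477299 1046898278 26843546
    (rowNX 3 0 false true false .npp 1 0 2 (qsf 536870912 469762048 0 420477299 0) ndN6q1 ndN1q2a pcN0 Cut.none Ext.none)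

def k0_pm_102_a : ∃ t, chk3 f_pm_102_a t 1 1 1 = true :=
  ⟨(b (a (c (l 16776592) (l 16776568)) (a (a (l 16776576) (a (l 16505600) (l 15553552))) (a (a (l 14530256) (l 13940000)) (a (c (l 13648224) (l 13536552)) (c (b (l 13595152) (a (l 13585592) (l 13599800))) (b (l 13456488) (l 13456472))))))) (l 4)), by decide +kernel⟩

theorem c_pm_102_a : CertNX 536870912 469762048 0 420477299 1046898278 26843546 3 false true false .npp 1 0 2
    ndN6q1 ndN1q2a pcN0 Cut.none Ext.none :=
  certNX0 (fam := false) (s1 := true) (s2 := false) (a := 1) (b := 0) (c := 2) (cn := .npp) (n1 := ndN6q1) (n2 := ndN1q2a) (pc := pcN0) (cut := Cut.none) (xt := Ext.none) (P1 := 536870912) (W1 := 469762048) (P2 := 0) (W2 := 420477299) (P3 := 1046898278) (W3 := 26843546) (N0 := 3)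
    rfl k0_pm_102_a

noncomputable def f_pm_102_b : ℕ → ℕ → ℕ → ℕ → Bool := onCell 536870912 469762048 1239849684 370763052 1046898278 26843546
    (rowNX 3 0 false true false .npp 1 0 2 (qsf 536870912 469762048 1239849684 370763052 0) ndN6q1 ndN1q2b pcN0 Cut.none Ext.none)

def k0_pm_102_b : ∃ t, chk3 f_pm_102_b t 1 1 1 = true :=
  ⟨(a (a (l 2) (b (c (l 16777216) (l 16777216)) (l 2))) (a (a (b (l 16777216) (l 2)) (b (a (l 16358480) (l 15553200)) (b (l 16036480) (l 2)))) (a (b (a (l 14529856) (l 13939560)) (b (l 14238360) (l 2))) (b (a (a (l 13660208) (b (l 13522328) (l 13522328))) (c (b (l 13593104) (l 13592992)) (l 13454320))) (a (l 13591576) (c (l 13592992) (l 13454256))))))), by decide +kernel⟩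

theorem c_pm_102_b : CertNX 536870912 469762048 1239849684 370763052 1046898278 26843546 3 false true false .npp 1 0 2
    ndN6q1 ndN1q2b pcN0 Cut.none Ext.none :=
  certNX0 (fam := false) (s1 := true) (s2 := false) (a := 1) (b := 0) (c := 2) (cn := .npp) (n1 := ndN6q1) (n2 := ndN1q2b) (pc := pcN0) (cut := Cut.none) (xt := Ext.none) (P1 := 536870912) (W1 := 469762048) (P2 := 1239849684) (W2 := 370763052) (P3 := 1046898278) (W3 := 26843546) (N0 := 3)
    rfl k0_pm_102_b

noncomputable def f_pm_112_a : ℕ → ℕ → ℕ → ℕ → Bool := onCell 536870912 536870912 0 420477299 1046898278 26843546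
    (rowNX 3 2 false true false .dn 1 1 2 (qsf 536870912 469762048 0 420477299 1) ndN6q1 ndN1q2a pcN1 Cut.none Ext.none)

def k0_pm_112_a : ∃ t, chk3 f_pm_112_a t 1 1 1 = true :=
  ⟨(a (b (a (l 16776576) (l 4)) (l 4)) (l 1)), by decide +kernel⟩

theorem c_pm_112_a : CertNX 536870912 469762048 0 420477299 1046898278 26843546 3 false true false .dn 1 1 2
    ndN6q1 ndN1q2a pcN1 Cut.none Ext.none :=
  certNX2 (fam := false) (s1 := true) (s2 := false) (a := 1) (b := 1) (c := 2) (cn := .dn) (n1 := ndN6q1) (n2 := ndN1q2a) (pc := pcN1) (cut := Cut.none) (xt := Ext.none) (P1 := 536870912) (W1 := 469762048) (P2 := 0) (W2 := 420477299) (P3 := 1046898278) (W3 := 26843546) (N0 := 3)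
    rfl (fun _ => rfl) k0_pm_112_a

noncomputable def f_pm_112_b : ℕ → ℕ → ℕ → ℕ → Bool := onCell 536870912 469762048 536870912 536870912 1046898278 26843546
    (rowNX 3 1 false true false .dn 1 1 2 (qsf 536870912 469762048 1239849684 370763052 1) ndN6q1 ndN1q2b pcN1 Cut.none Ext.none)

def k0_pm_112_b : ∃ t, chk3 f_pm_112_b t 1 1 1 = true :=
  ⟨(a (b (b (a (b (l 541736561335) (l 4)) (l 16777056)) (b (l 4) (l 4))) (l 4)) (b (a (b (a (l 16777216) (l 16036480)) (b (a (l 16596496) (l 15874560)) (a (l 4) (l 15332728)))) (b (a (l 14238360) (a (l 13591576) (l 13521600))) (a (b (l 14110352) (l 2)) (l 2)))) (b (a (l 4) (l 2)) (l 2)))), by decide +kernel⟩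

theorem c_pm_112_b : CertNX 536870912 469762048 1239849684 370763052 1046898278 26843546 3 false true false .dn 1 1 2
    ndN6q1 ndN1q2b pcN1 Cut.none Ext.none :=
  certNX1 (fam := false) (s1 := true) (s2 := false) (a := 1) (b := 1) (c := 2) (cn := .dn) (n1 := ndN6q1) (n2 := ndN1q2b) (pc := pcN1) (cut := Cut.none) (xt := Ext.none) (P1 := 536870912) (W1 := 469762048) (P2 := 1239849684) (W2 := 370763052) (P3 := 1046898278) (W3 := 26843546) (N0 := 3)
    rfl (fun _ => rfl) k0_pm_112_b

noncomputable def f_pm_113 : ℕ → ℕ → ℕ → ℕ → Bool := onCell 536870912 469762048 536870912 536870912 1046898278 26843546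
    (rowNX 3 1 false true false .nn 1 1 3 (qsf 536870912 469762048 1610612736 469762048 1) ndN6q1 ndN1q3 pcN1 Cut.none Ext.none)

def k0_pm_113 : ∃ t, chk3 f_pm_113 t 1 1 1 = true :=
  ⟨(a (b (l 1) (l 4)) (b (a (b (l 1) (b (a (l 1) (l 15874560)) (a (l 4) (l 15332728)))) (b (a (l 14238360) (c (l 13405248) (l 13514480))) (a (b (l 14110352) (l 13632000)) (c (a (l 13399240) (l 13405504)) (l 13258760))))) (b (a (l 4) (b (a (b (l 13115736) (l 12753208)) (b (a (l 12656408) (l 12828312)) (a (l 12194400) (l 12322272)))) (a (l 4) (b (a (l 11747928) (l 11729008)) (a (l 4) (l 11173288)))))) (a (l 4) (b (l 4) (l 4)))))), by decide +kernel⟩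

theorem c_pm_113 : CertNX 536870912 469762048 1610612736 469762048 1046898278 26843546 3 false true false .nn 1 1 3
    ndN6q1 ndN1q3 pcN1 Cut.none Ext.none :=
  certNX1 (fam := false) (s1 := true) (s2 := false) (a := 1) (b := 1) (c := 3) (cn := .nn) (n1 := ndN6q1) (n2 := ndN1q3) (pc := pcN1) (cut := Cut.none) (xt := Ext.none) (P1 := 536870912) (W1 := 469762048) (P2 := 1610612736) (W2 := 469762048) (P3 := 1046898278) (W3 := 26843546) (N0 := 3)
    rfl (fun _ => rfl) k0_pm_113

noncomputable def f_pm_123 : ℕ → ℕ → ℕ → ℕ → Bool := onCell 1073741824 536870912 1610612736 469762048 1046898278 26843546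
    (rowNX 3 2 false true false .npn 1 2 3 (qsf 536870912 469762048 1610612736 469762048 2) ndN6q1 ndN1q3 pcN2 Cut.none Ext.none)

def k0_pm_123 : ∃ t, chk3 f_pm_123 t 1 1 1 = true :=
  ⟨(a (l 4) (l 4)), by decide +kernel⟩

theorem c_pm_123 : CertNX 536870912 469762048 1610612736 469762048 1046898278 26843546 3 false true false .npn 1 2 3
    ndN6q1 ndN1q3 pcN2 Cut.none Ext.none :=
  certNX2 (fam := false) (s1 := true) (s2 := false) (a := 1) (b := 2) (c := 3) (cn := .npn) (n1 := ndN6q1) (n2 := ndN1q3) (pc := pcN2) (cut := Cut.none) (xt := Ext.none) (P1 := 536870912) (W1 := 469762048) (P2 := 1610612736) (W2 := 469762048) (P3 := 1046898278) (W3 := 26843546) (N0 := 3)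
    rfl (fun _ => rfl) k0_pm_123

noncomputable def f_pm_133 : ℕ → ℕ → ℕ → ℕ → Bool := onCell 536870912 469762048 1610612736 469762048 1046898278 26843546
    (rowNX 3 0 false true false .dn 1 3 3 (qsf 536870912 469762048 1610612736 469762048 3) ndN6q1 ndN1q3 pcN3 Cut.none Ext.none)

def k0_pm_133 : ∃ t, chk3 f_pm_133 t 1 1 1 = true :=
  ⟨(l 1), by decide +kernel⟩

theorem c_pm_133 : CertNX 536870912 469762048 1610612736 469762048 1046898278 26843546 3 false true false .dn 1 3 3
    ndN6q1 ndN1q3 pcN3 Cut.none Ext.none :=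
  certNX0 (fam := false) (s1 := true) (s2 := false) (a := 1) (b := 3) (c := 3) (cn := .dn) (n1 := ndN6q1) (n2 := ndN1q3) (pc := pcN3) (cut := Cut.none) (xt := Ext.none) (P1 := 536870912) (W1 := 469762048) (P2 := 1610612736) (W2 := 469762048) (P3 := 1046898278) (W3 := 26843546) (N0 := 3)
    rfl k0_pm_133

noncomputable def f_pm_202_a : ℕ → ℕ → ℕ → ℕ → Bool := onCell 0 536870912 0 420477299 1046898278 26843546
    (rowNX 3 2 false true false .pp 2 0 2 (qsf 1073741824 536870912 0 420477299 0) ndN6q2 ndN1q2a pcN0 Cut.none Ext.none)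

def k0_pm_202_a : ∃ t, chk3 f_pm_202_a t 8 2 1 = true :=
  ⟨(a (a (c (b (b (a (l 16214504) (a (c (l 16140000) (l 16162032)) (c (l 16066376) (l 16078344)))) (a (l 16037392) (a (c (l 15894720) (l 15996656)) (c (l 15963488) (l 15971808))))) (a (b (b (l 15902880) (l 15734496)) (a (l 15828520) (l 15825376))) (a (b (c (l 15878216) (l 15872128)) (c (l 15844888) (l 15837280))) (c (l 15891680) (l 15896168))))) (b (a (c (a (l 16309224) (a (l 16208984) (l 16086032))) (a (c (l 16152304) (b (l 16306672) (l 16120992))) (l 16004952))) (c (b (a (l 16163496) (l 16056496)) (a (l 15973096) (l 15948408))) (b (l 16084336) (l 15952216)))) (a (c (a (b (l 15963992) (l 15787048)) (b (a (l 15885168) (l 15861200)) (l 15713336))) (a (b (a (l 15802968) (c (l 15916440) (l 15909632))) (c (l 15769832) (a (l 15754496) (l 15757112)))) (b (l 15700248) (l 15781040)))) (c (b (l 15748912) (l 15840064)) (l 15709568))))) (c (b (a (b (c (l 16099992) (l 16080048)) (c (l 16022864) (l 16001824))) (l 15947936)) (a (c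 (a (l 15939272) (l 15979072)) (l 15893496)) (l 15885424))) (b (b (l 16047712) (l 15969608)) (c (l 15914544) (l 15893136))))) (c (b (b (a (c (l 16082224) (a (l 16126632) (b (l 16114784) (l 16131288)))) (b (c (a (b (l 16237824) (l 16215352)) (a (l 16242000) (l 16211392))) (l 16225000)) (l 16191672))) (a (l 16088992) (c (l 16150568) (l 16132624)))) (a (c (l 16049024) (l 16010888)) (c (a (l 16083240) (b (l 16119568) (l 16064776))) (l 16061592)))) (b (b (b (a (l 16102752) (l 16216296)) (l 16136296)) (l 16084336)) (a (l 15983928) (l 16046400))))), by decide +kernel⟩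

def k1_pm_202_a : ∃ t, chk3 f_pm_202_a t 16 3 1 = true :=
  ⟨(b (a (c (a (c (l 15835928) (l 15705232)) (c (a (b (l 15839024) (l 15856920)) (l 15881624)) (a (l 15841360) (l 15882632)))) (a (c (a (l 15778072) (a (l 15790760) (l 15762920))) (a (c (l 15572128) (c (l 15647624) (l 15746904))) (c (l 15787936) (l 15774240)))) (c (a (l 15769720) (l 15858776)) (l 15816672)))) (c (a (c (a (l 15927872) (l 15820632)) (a (l 15914976) (l 15935632))) (c (l 15804416) (l 15951088))) (c (b (l 15895432) (l 15905880)) (l 15879456)))) (a (b (c (c (a (l 15794104) (a (b (l 15866536) (l 15582976)) (l 15754256))) (b (a (l 15822072) (a (l 15856848) (l 15897856))) (a (l 15722616) (a (l 15738520) (l 15744936))))) (a (c (a (l 15736952) (a (l 15563728) (c (l 15768752) (l 15766656)))) (a (c (a (l 15712936) (l 15725312)) (a (c (l 15704048) (l 15698384)) (l 15716136))) (c (l 15746448) (l 15732888)))) (c (a (b (l 15847256) (l 15705360)) (l 15790032)) (l 15751248)))) (c (a (l 15396496) (c (l 15287888) (a (l 15340520)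 (l 15324920)))) (a (c (a (l 15366288) (l 15342216)) (a (c (l 15344168) (l 15224888)) (l 15316856))) (c (l 15305240) (l 15270424))))) (a (b (c (c (a (l 15833760) (b (l 15944400) (l 15730536))) (b (l 15869016) (l 15711496))) (c (l 15768088) (l 15743184))) (c (c (l 15316808) (l 15285000)) (l 15224800))) (c (b (c (l 15735720) (l 15756488)) (a (l 15258264) (l 15222896))) (b (l 15628688) (l 14991712)))))), by decide +kernel⟩

def k2_pm_202_a : ∃ t, chk3 f_pm_202_a t 17 3 1 = true :=
  ⟨(b (c (a (c (l 15887776) (b (l 15987296) (l 15910608))) (c (a (l 15755384) (l 15856696)) (l 15866952))) (a (l 15696736) (l 15845336))) (c (b (a (c (l 15690952) (l 15547320)) (c (a (l 15575192) (l 15500104)) (l 15511704))) (a (b (c (l 15313792) (l 15269736)) (l 14976608)) (b (a (l 15160720) (l 15087896)) (l 14830768)))) (b (a (l 15616176) (l 15479840)) (a (l 15062744) (l 14926528))))), by decide +kernel⟩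

def k3_pm_202_a : ∃ t, chk3 f_pm_202_a t 9 1 1 = true :=
  ⟨(b (b (a (a (c (b (a (b (l 16123952) (l 16194704)) (l 16077848)) (l 16107008)) (b (a (l 16161808) (l 16124080)) (l 16089368))) (b (c (a (l 15980248) (l 15792856)) (l 15839744)) (l 15822696))) (a (a (b (a (l 15626872) (c (l 15547080) (l 15506912))) (l 15560320)) (l 15351072)) (c (l 15319576) (l 15266664)))) (a (a (c (b (l 16032608) (l 15930832)) (l 15847240)) (l 15707272)) (a (l 15432528) (l 15246168)))) (a (b (a (c (l 15720040) (l 15686168)) (l 15501896)) (b (a (c (l 15386320) (l 15339656)) (l 15220432)) (a (c (b (l 15017800) (l 14702184)) (l 14797920)) (l 120824883191)))) (b (a (l 15292056) (l 15117120)) (b (a (a (l 15105320) (l 15024112)) (l 1)) (l 1))))), by decide +kernel⟩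

def k4_pm_202_a : ∃ t, chk3 f_pm_202_a t 5 1 1 = true :=
  ⟨(a (b (a (b (a (c (b (l 14956480) (l 15134736)) (b (l 15051288) (l 15079688))) (c (b (b (a (l 14914888) (l 14807688)) (l 14900952)) (a (l 14983816) (l 14881600))) (b (l 14820440) (l 14869632)))) (l 14965608)) (b (l 1) (l 1))) (b (a (l 14846720) (l 1)) (l 1))) (l 1)), by decide +kernel⟩

def k5_pm_202_a : ∃ t, chk3 f_pm_202_a t 3 1 1 = true :=
  ⟨(l 1), by decide +kernel⟩

theorem s6_pm_202_a : ∃ t, chk3 f_pm_202_a t 8 3 1 = true := ex3_a k1_pm_202_a k2_pm_202_a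

theorem s7_pm_202_a : ∃ t, chk3 f_pm_202_a t 8 1 1 = true := ex3_b k0_pm_202_a s6_pm_202_a

theorem s8_pm_202_a : ∃ t, chk3 f_pm_202_a t 4 1 1 = true := ex3_a s7_pm_202_a k3_pm_202_a

theorem s9_pm_202_a : ∃ t, chk3 f_pm_202_a t 2 1 1 = true := ex3_a s8_pm_202_a k4_pm_202_a

theorem s10_pm_202_a : ∃ t, chk3 f_pm_202_a t 1 1 1 = true := ex3_a s9_pm_202_a k5_pm_202_a

theorem c_pm_202_a : CertNX 1073741824 536870912 0 420477299 1046898278 26843546 3 false true false .pp 2 0 2
    ndN6q2 ndN1q2a pcN0 Cut.none Ext.none :=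
  certNX2 (fam := false) (s1 := true) (s2 := false) (a := 2) (b := 0) (c := 2) (cn := .pp) (n1 := ndN6q2) (n2 := ndN1q2a) (pc := pcN0) (cut := Cut.none) (xt := Ext.none) (P1 := 1073741824) (W1 := 536870912) (P2 := 0) (W2 := 420477299) (P3 := 1046898278) (W3 := 26843546) (N0 := 3)
    rfl (fun _ => rfl) s10_pm_202_a

noncomputable def f_pm_202_b : ℕ → ℕ → ℕ → ℕ → Bool := onCell 1073741824 536870912 0 536870912 1046898278 26843546
    (rowNX 3 1 false true false .pp 2 0 2 (qsf 1073741824 536870912 1239849684 370763052 0) ndN6q2 ndN1q2b pcN0 Cut.none Ext.none)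

def k0_pm_202_b : ∃ t, chk3 f_pm_202_b t 4 4 1 = true :=
  ⟨(a (b (l 1) (b (b (l 1) (b (l 1) (c (l 417179527751) (l 15630616)))) (b (b (b (l 248064874599) (c (l 271150181255) (l 15392696))) (l 15351896)) (c (l 316783864631) (l 15221736))))) (a (b (a (l 1) (b (l 1) (b (l 1) (c (c (b (l 1) (c (l 16358112) (l 16371672))) (l 16351696)) (l 16368048))))) (b (b (c (b (c (l 16189872) (l 16247800)) (l 16120568)) (b (l 16177040) (l 16125168))) (c (l 279741035095) (l 15765632))) (b (b (a (l 15541360) (l 15433824)) (l 15480680)) (c (l 15430520) (l 15383144))))) (b (b (b (l 1) (b (l 1) (c (l 16319408) (l 16297544)))) (c (b (c (b (l 16324264) (l 16259016)) (b (a (l 1) (l 16092920)) (c (l 16163704) (l 16218136)))) (c (b (c (l 16201616) (l 16097672)) (c (l 16014752) (l 16131472))) (l 16020776))) (b (b (l 16255744) (l 16190328)) (l 16009840)))) (b (b (c (b (l 15951176) (l 15889264)) (l 15837032)) (b (l 15718408) (l 15552976))) (b (b (c (b (l 15437000) (l 15350352)) (l 15352448)) (l 15271744))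 (c (l 15200688) (l 15147656))))))), by decide +kernel⟩

def k1_pm_202_b : ∃ t, chk3 f_pm_202_b t 5 32 1 = true :=
  ⟨(b (a (a (a (l 1) (c (l 16195416) (c (b (l 16352448) (l 16185208)) (c (l 749503855143) (l 826276488247))))) (c (a (l 15918456) (l 15538432)) (c (b (l 15743576) (a (l 15934104) (l 15543080))) (b (c (l 15618184) (a (l 15907272) (l 15521528))) (l 15619440))))) (c (a (a (l 15094992) (c (l 14676688) (b (l 14640080) (l 14691272)))) (c (l 14422760) (l 14237560))) (b (a (c (l 14844016) (b (l 14827136) (c (l 14838760) (l 14823944)))) (c (l 14362992) (c (l 14343032) (b (l 14323072) (l 14329312))))) (c (a (a (l 15088864) (b (l 14654944) (l 14661920))) (c (l 14400176) (l 14373984))) (a (c (l 14841784) (l 14838144)) (l 14346544)))))) (c (c (a (a (a (l 227665189047) (l 16067064)) (b (l 15607840) (a (l 16036120) (l 15585192)))) (a (b (b (l 14947832) (c (l 14975760) (l 14957864))) (l 14955768)) (b (l 14493064) (l 14496672)))) (a (a (a (l 234644492279) (l 282426179879)) (b (l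 15666680) (a (l 15996680) (l 15326840)))) (a (a (b (l 15121040) (l 15103328)) (b (l 14704136) (l 14684208))) (b (l 14440584) (l 14424352))))) (a (a (a (c (l 16153184) (l 16127912)) (c (l 16255576) (l 16297504))) (c (b (l 15661704) (l 15537624)) (a (l 16025896) (l 15545888)))) (a (c (b (c (l 14868376) (l 14860272)) (l 14883032)) (l 14874368)) (c (l 14399512) (l 14385096)))))), by decide +kernel⟩

def k2_pm_202_b : ∃ t, chk3 f_pm_202_b t 5 33 1 = true :=
  ⟨(c (b (a (b (a (a (l 16100840) (l 16155432)) (a (l 15911704) (c (l 15551320) (l 15406752)))) (a (a (l 16114000) (l 16189528)) (c (a (c (l 15924368) (l 15839680)) (l 15343496)) (l 15753144)))) (a (c (b (l 14921488) (l 14654352)) (c (l 14897968) (l 14906400))) (c (l 14466848) (l 14445232)))) (a (a (a (l 16124936) (c (b (l 16110520) (l 16291416)) (l 16262264))) (a (c (b (l 15847384) (l 15993672)) (l 16037128)) (l 15398992))) (a (c (l 14933728) (l 14965112)) (l 14500768)))) (a (a (a (l 16080104) (b (l 16268768) (c (l 16147296)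 (l 16223304)))) (c (a (b (l 15988784) (l 16068200)) (l 15408080)) (a (l 16053760) (l 15594872)))) (a (c (l 14946616) (l 14931968)) (l 14470248)))), by decide +kernel⟩

def k3_pm_202_b : ∃ t, chk3 f_pm_202_b t 5 17 1 = true :=
  ⟨(a (c (b (a (a (c (l 16056080) (b (l 16020616) (l 15989424))) (c (l 16215520) (b (l 16182864) (l 16154536)))) (c (a (l 16055896) (l 15634776)) (a (l 16011464) (l 15666232)))) (a (c (a (b (l 15966096) (l 15910184)) (b (l 16128136) (l 16052672))) (a (l 15919472) (l 16086048))) (c (b (l 15802960) (l 15789688)) (l 15955728)))) (a (b (a (l 15988784) (l 16158640)) (a (l 15903360) (l 16075368))) (b (l 15731720) (l 15940592)))) (c (b (a (c (l 15039632) (l 15059632)) (c (l 14589584) (l 14625760))) (a (c (b (l 15152496) (c (l 15009680) (l 15194832))) (l 15157608)) (c (b (l 14732872) (l 14827840)) (l 14749520)))) (a (b (l 15035112) (l 15132328)) (b (l 14588048) (l 14697672))))), by decide +kernel⟩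

def k4_pm_202_b : ∃ t, chk3 f_pm_202_b t 5 9 1 = true :=
  ⟨(b (a (b (c (a (a (l 15549936) (b (l 15976360) (l 15837328))) (b (a (l 16283488) (l 15674648)) (l 16126792))) (a (a (l 15710400) (l 15886040)) (l 15954256))) (a (a (c (l 15427208) (l 15395552)) (c (l 15606640) (l 15577728))) (b (l 16064296) (l 16054880)))) (b (c (a (b (l 15117192) (l 15554112)) (b (l 14965960) (l 15193216))) (a (l 15328024) (b (l 14880816) (l 15134368)))) (a (c (b (l 15781608) (l 16042936)) (b (l 15746088) (l 16019928))) (b (l 15381288) (l 15795160))))) (a (b (a (b (a (c (l 15188552) (l 15138000)) (l 15285728)) (a (l 15068360) (l 15258848))) (b (a (l 15748832) (c (l 16188048) (l 16194592))) (l 15693288))) (a (a (c (l 15000688) (l 14940640)) (l 15014728)) (a (l 15588920) (l 15972576)))) (b (b (a (c (l 16147352) (l 16305136)) (l 16070136)) (a (l 16544928) (l 16391760))) (a (l 16534224) (l 16561408))))), by decide +kernel⟩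

def k5_pm_202_b : ∃ t, chk3 f_pm_202_b t 6 4 1 = true :=
  ⟨(b (b (b (b (b (c (a (l 14284944) (l 14140560)) (c (l 14171784) (c (l 14165272) (a (l 14223872) (l 14077392))))) (c (a (l 14338600) (l 14193048)) (c (a (l 14287680) (l 14127752)) (a (l 14246936) (l 14101648))))) (c (a (b (c (l 14399376) (l 14344744)) (b (l 14374976) (c (l 14361896) (l 14322320)))) (c (b (l 14262264) (a (l 14287592) (l 14197792))) (b (l 14198904) (l 14188472)))) (a (c (l 14301936) (l 14286920)) (c (l 14148448) (l 14123544))))) (c (b (a (c (a (l 14404784) (l 14330872)) (l 14345032)) (c (b (l 14260888) (l 14298048)) (l 14250384))) (a (l 14181792) (c (l 14341576) (l 14316240)))) (a (l 14366456) (c (b (l 14221944) (c (l 14292584) (l 14264016))) (l 14198288))))) (b (c (c (a (a (l 14557984) (l 14502744)) (c (l 14492304) (l 14391448))) (a (b (l 14502960) (l 14552176)) (b (c (l 14420600) (l 14395096)) (c (l 14503696) (l 14470584))))) (a (l 14462976) (a (l 14421824) (l 14363432)))) (c (c (b (a (l 14466656) (c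 (l 14624704) (l 14593136))) (c (a (l 14766600) (b (l 14678496) (l 14702712))) (l 14681128))) (a (l 14680536) (l 14589280))) (a (l 14618952) (l 14531728))))) (a (b (b (b (c (l 14925776) (l 14856488)) (a (l 15109808) (c (l 15254432) (l 15200864)))) (a (l 15648792) (c (b (l 15628408) (l 15988936)) (b (l 15588008) (l 15961232))))) (b (b (c (a (l 16348776) (l 16301152)) (a (l 16333728) (l 16284432))) (l 16433928)) (l 16449960))) (b (b (b (c (l 14848320) (l 14780120)) (a (l 14931016) (c (l 14927800) (l 14862784)))) (a (c (l 15589240) (l 15547496)) (c (l 15208232) (l 15153088)))) (a (c (l 15822040) (l 15940464)) (b (c (l 15489352) (l 15465816)) (l 15661008)))))), by decide +kernel⟩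

def k6_pm_202_b : ∃ t, chk3 f_pm_202_b t 7 4 1 = true :=
  ⟨(a (b (b (c (b (b (c (l 14092856) (l 13881432)) (a (a (b (l 14117624) (l 14154592)) (l 14128416)) (l 14127464))) (b (l 14214408) (c (l 14312840) (l 14158440)))) (b (c (b (b (l 13986528) (l 189140315751)) (l 14082608)) (b (c (b (l 13951912) (l 13991008)) (b (c (l 13936232) (l 205246251383)) (l 204172588087))) (b (c (b (l 14021240) (l 198267156503)) (l 14006840)) (l 14061064)))) (a (c (b (c (l 14176544) (b (l 14139904) (l 14176904))) (c (l 14113104) (l 14224088))) (l 14152536)) (l 3)))) (a (c (b (c (c (l 14447776) (l 145654525399)) (b (c (l 14387288) (l 14354096)) (c (l 14451928) (l 14405128)))) (c (b (c (l 14583208) (l 14537408)) (c (l 14370872) (l 14570600))) (l 14522944))) (l 14389096)) (l 3))) (a (b (b (c (b (l 14674040) (l 14836000)) (l 14681616)) (c (l 15038672) (l 14977544))) (b (l 15287184) (l 15532160))) (l 3))) (l 3)), by decide +kernel⟩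

def k7_pm_202_b : ∃ t, chk3 f_pm_202_b t 1 5 1 = true :=
  ⟨(a (a (b (b (a (b (c (l 347385229079) (l 15068312)) (c (b (l 15023584) (a (l 14872480) (l 15025216))) (b (l 14953880) (l 14876440)))) (b (a (c (l 15292232) (l 15240544)) (c (l 15071080) (l 15012192))) (a (c (b (l 15193752) (l 15125568)) (l 15100664)) (l 14883576)))) (a (b (c (a (l 14802096) (l 14966000)) (l 14812456)) (c (l 14801592) (l 14731032))) (a (l 14989008) (l 14778280)))) (b (a (l 14683600) (l 14822024)) (a (l 14656712) (l 14816808)))) (b (a (b (a (a (l 14741784) (l 14922784)) (l 15552928)) (a (l 14692224) (l 15296408))) (b (a (b (l 16421120) (l 16337272)) (b (l 16712888) (l 16767496))) (a (l 16082208) (l 16767752)))) (a (b (a (a (l 14563968) (l 14781488)) (l 15479344)) (a (l 14679192) (l 15487608))) (b (a (l 16354624) (l 16725064)) (l 16358264))))) (a (b (a (b (l 16455880) (l 16505352)) (b (a (l 16056048) (l 15860600)) (l 16173760))) (b (a (l 16662216) (l 16571088)) (l 16771296))) (b (b (l 338326910663) (l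 2)) (l 2)))), by decide +kernel⟩

def k8_pm_202_b : ∃ t, chk3 f_pm_202_b t 1 3 1 = true :=
  ⟨(a (a (b (a (b (l 14656704) (l 14656704)) (b (l 14816816) (l 14816816))) (a (l 14656704) (l 14816816))) (a (b (a (l 14679208) (l 15487608)) (a (l 14679208) (l 2))) (a (b (l 16347856) (l 2)) (l 16776616)))) (b (b (l 294842793991) (l 2)) (l 2))), by decide +kernel⟩

theorem s9_pm_202_b : ∃ t, chk3 f_pm_202_b t 3 4 1 = true := ex3_a k5_pm_202_b k6_pm_202_b

theorem s10_pm_202_b : ∃ t, chk3 f_pm_202_b t 5 16 1 = true := ex3_b k1_pm_202_b k2_pm_202_b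

theorem s11_pm_202_b : ∃ t, chk3 f_pm_202_b t 5 8 1 = true := ex3_b s10_pm_202_b k3_pm_202_b

theorem s12_pm_202_b : ∃ t, chk3 f_pm_202_b t 5 4 1 = true := ex3_b s11_pm_202_b k4_pm_202_b

theorem s13_pm_202_b : ∃ t, chk3 f_pm_202_b t 2 4 1 = true := ex3_a k0_pm_202_b s12_pm_202_b

theorem s14_pm_202_b : ∃ t, chk3 f_pm_202_b t 1 4 1 = true := ex3_a s13_pm_202_b s9_pm_202_b

theorem s15_pm_202_b : ∃ t, chk3 f_pm_202_b t 1 2 1 = true := ex3_b s14_pm_202_b k7_pm_202_b

theorem s16_pm_202_b : ∃ t, chk3 f_pm_202_b t 1 1 1 = true := ex3_b s15_pm_202_b k8_pm_202_b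

theorem c_pm_202_b : CertNX 1073741824 536870912 1239849684 370763052 1046898278 26843546 3 false true false .pp 2 0 2
    ndN6q2 ndN1q2b pcN0 Cut.none Ext.none :=
  certNX1 (fam := false) (s1 := true) (s2 := false) (a := 2) (b := 0) (c := 2) (cn := .pp) (n1 := ndN6q2) (n2 := ndN1q2b) (pc := pcN0) (cut := Cut.none) (xt := Ext.none) (P1 := 1073741824) (W1 := 536870912) (P2 := 1239849684) (W2 := 370763052) (P3 := 1046898278) (W3 := 26843546) (N0 := 3)
    rfl (fun _ => rfl) s16_pm_202_b

noncomputable def f_pm_203 : ℕ → ℕ → ℕ → ℕ → Bool := onCell 0 536870912 1610612736 469762048 1046898278 26843546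
    (rowNX 3 2 false true false .up 2 0 3 (qsf 1073741824 536870912 1610612736 469762048 0) ndN6q2 ndN1q3 pcN0 Cut.none Ext.none)

def k0_pm_203 : ∃ t, chk3 f_pm_203 t 1 1 1 = true :=
  ⟨(b (b (a (a (a (l 3) (b (a (l 3) (c (l 356646917351) (l 422145097591))) (l 3))) (a (b (a (l 15854312) (l 16162792)) (a (l 15815272) (l 16178648))) (a (a (l 16492920) (l 16659448)) (l 16771288)))) (a (a (b (a (l 16777008) (l 16628144)) (l 16777216)) (b (a (b (l 15874512) (l 16494240)) (b (l 15038040) (l 15765672))) (a (l 16766104) (l 16544680)))) (a (b (a (b (l 14686320) (l 14961328)) (l 14803016)) (a (l 15899384) (b (l 14893608) (l 15544008)))) (b (l 14744648) (a (l 14824792) (l 14773112)))))) (a (a (l 3) (a (l 3) (a (l 645486021719) (l 231022458583)))) (a (a (l 16777216) (l 16777216)) (a (b (a (l 16738136) (l 16441288)) (l 16777216)) (b (a (l 15813856) (b (l 14785888) (l 15320384))) (a (l 16692384) (l 16317232))))))) (b (a (l 3) (a (a (l 455434305447) (l 16777216)) (a (l 16777216) (l 16777120))))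 (a (l 2) (a (l 3) (a (l 282561906535) (l 16767352)))))), by decide +kernel⟩

theorem c_pm_203 : CertNX 1073741824 536870912 1610612736 469762048 1046898278 26843546 3 false true false .up 2 0 3
    ndN6q2 ndN1q3 pcN0 Cut.none Ext.none :=
  certNX2 (fam := false) (s1 := true) (s2 := false) (a := 2) (b := 0) (c := 3) (cn := .up) (n1 := ndN6q2) (n2 := ndN1q3) (pc := pcN0) (cut := Cut.none) (xt := Ext.none) (P1 := 1073741824) (W1 := 536870912) (P2 := 1610612736) (W2 := 469762048) (P3 := 1046898278) (W3 := 26843546) (N0 := 3)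
    rfl (fun _ => rfl) k0_pm_203

noncomputable def f_pm_213 : ℕ → ℕ → ℕ → ℕ → Bool := onCell 1073741824 536870912 536870912 536870912 1046898278 26843546
    (rowNX 3 1 false true false .pnn 2 1 3 (qsf 1073741824 536870912 1610612736 469762048 1) ndN6q2 ndN1q3 pcN1 Cut.none Ext.none)

def k0_pm_213 : ∃ t, chk3 f_pm_213 t 1 1 1 = true :=
  ⟨(a (b (b (a (l 14695488) (a (a (l 14679208) (l 15487608)) (l 16567936))) (a (l 14737416) (a (a (l 14680240) (l 15495864)) (a (l 16357632) (l 16757216))))) (a (b (b (a (l 14636504) (l 14823312)) (a (l 14539096) (l 14913704))) (b (a (l 14817096) (l 15247064)) (a (l 15713544) (l 2)))) (b (a (b (l 14972168) (a (l 14891216) (l 2))) (b (l 16364968) (l 2))) (l 2)))) (b (a (b (b (l 16767744) (l 16760248)) (b (l 16746272) (l 16653504))) (b (b (l 16767248) (a (l 16716472) (l 2))) (l 2))) (l 2))), by decide +kernel⟩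

theorem c_pm_213 : CertNX 1073741824 536870912 1610612736 469762048 1046898278 26843546 3 false true false .pnn 2 1 3
    ndN6q2 ndN1q3 pcN1 Cut.none Ext.none :=
  certNX1 (fam := false) (s1 := true) (s2 := false) (a := 2) (b := 1) (c := 3) (cn := .pnn) (n1 := ndN6q2) (n2 := ndN1q3) (pc := pcN1) (cut := Cut.none) (xt := Ext.none) (P1 := 1073741824) (W1 := 536870912) (P2 := 1610612736) (W2 := 469762048) (P3 := 1046898278) (W3 := 26843546) (N0 := 3)
    rfl (fun _ => rfl) k0_pm_213

noncomputable def f_pm_303 : ℕ → ℕ → ℕ → ℕ → Bool := onCell 0 1230186008 1610612736 469762048 1046898278 26843546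
    (rowNX 3 0 false true false .npn 3 0 3 (qsf 0 1230186008 1610612736 469762048 0) ndN6q3 ndN1q3 pcN0 Cut.none Ext.none)

def k0_pm_303 : ∃ t, chk3 f_pm_303 t 1 1 1 = true :=
  ⟨(a (l 3) (a (l 3) (b (l 3) (l 3)))), by decide +kernel⟩

theorem c_pm_303 : CertNX 0 1230186008 1610612736 469762048 1046898278 26843546 3 false true false .npn 3 0 3
    ndN6q3 ndN1q3 pcN0 Cut.none Ext.none :=
  certNX0 (fam := false) (s1 := true) (s2 := false) (a := 3) (b := 0) (c := 3) (cn := .npn) (n1 := ndN6q3) (n2 := ndN1q3) (pc := pcN0) (cut := Cut.none) (xt := Ext.none) (P1 := 0) (W1 := 1230186008) (P2 := 1610612736) (W2 := 469762048) (P3 := 1046898278) (W3 := 26843546) (N0 := 3)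
    rfl k0_pm_303

noncomputable def f_pm_313 : ℕ → ℕ → ℕ → ℕ → Bool := onCell 0 1230186008 1610612736 469762048 1046898278 26843546
    (rowNX 3 0 false true false .dn 3 1 3 (qsf 0 1230186008 1610612736 469762048 1) ndN6q3 ndN1q3 pcN1 Cut.none Ext.none)

def k0_pm_313 : ∃ t, chk3 f_pm_313 t 1 1 1 = true :=
  ⟨(l 1), by decide +kernel⟩

theorem c_pm_313 : CertNX 0 1230186008 1610612736 469762048 1046898278 26843546 3 false true false .dn 3 1 3
    ndN6q3 ndN1q3 pcN1 Cut.none Ext.none :=
  certNX0 (fam := false) (s1 := true) (s2 := false) (a := 3) (b := 1) (c := 3) (cn := .dn) (n1 := ndN6q3) (n2 := ndN1q3) (pc := pcN1) (cut := Cut.none) (xt := Ext.none) (P1 := 0) (W1 := 1230186008) (P2 := 1610612736) (W2 := 469762048) (P3 := 1046898278) (W3 := 26843546) (N0 := 3)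
    rfl k0_pm_313

noncomputable def f_mm_001 : ℕ → ℕ → ℕ → ℕ → Bool := onCell 0 536870912 536870912 536870912 1046898278 26843546
    (rowNX 3 0 false false false .up 0 0 1 (qsf 0 536870912 536870912 536870912 0) ndN6q0 ndN1q1 pcN0 Cut.none Ext.none)

def k0_mm_001 : ∃ t, chk3 f_mm_001 t 1 1 1 = true :=
  ⟨(l 5), by decide +kernel⟩

theorem c_mm_001 : CertNX 0 536870912 536870912 536870912 1046898278 26843546 3 false false false .up 0 0 1
    ndN6q0 ndN1q1 pcN0 Cut.none Ext.none :=
  certNX0 (fam := false) (s1 := false) (s2 := false) (a := 0) (b := 0) (c := 1) (cn := .up) (n1 := ndN6q0) (n2 := ndN1q1) (pc := pcN0) (cut := Cut.none) (xt := Ext.none) (P1 := 0) (W1 := 536870912) (P2 := 536870912) (W2 := 536870912) (P3 := 1046898278) (W3 := 26843546) (N0 := 3)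
    rfl k0_mm_001

noncomputable def f_mm_011 : ℕ → ℕ → ℕ → ℕ → Bool := onCell 0 536870912 536870912 536870912 1046898278 26843546
    (rowNX 3 0 false false false .pnn 0 1 1 (qsf 0 536870912 536870912 536870912 1) ndN6q0 ndN1q1 pcN1 Cut.none Ext.none)

def k0_mm_011 : ∃ t, chk3 f_mm_011 t 1 1 1 = true :=
  ⟨(l 5), by decide +kernel⟩

theorem c_mm_011 : CertNX 0 536870912 536870912 536870912 1046898278 26843546 3 false false false .pnn 0 1 1
    ndN6q0 ndN1q1 pcN1 Cut.none Ext.none :=
  certNX0 (fam := false) (s1 := false) (s2 := false) (a := 0) (b := 1) (c := 1) (cn := .pnn) (n1 := ndN6q0) (n2 := ndN1q1) (pc := pcN1) (cut := Cut.none) (xt := Ext.none) (P1 := 0) (W1 := 536870912) (P2 := 536870912) (W2 := 536870912) (P3 := 1046898278) (W3 := 26843546) (N0 := 3)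
    rfl k0_mm_011

noncomputable def f_mm_012_a : ℕ → ℕ → ℕ → ℕ → Bool := onCell 0 536870912 0 420477299 1046898278 26843546
    (rowNX 3 0 false false false .pnp 0 1 2 (qsf 0 536870912 0 420477299 1) ndN6q0 ndN1q2a pcN1 Cut.none Ext.none)

def k0_mm_012_a : ∃ t, chk3 f_mm_012_a t 1 1 1 = true :=
  ⟨(l 5), by decide +kernel⟩

theorem c_mm_012_a : CertNX 0 536870912 0 420477299 1046898278 26843546 3 false false false .pnp 0 1 2
    ndN6q0 ndN1q2a pcN1 Cut.none Ext.none :=
  certNX0 (fam := false) (s1 := false) (s2 := false) (a := 0) (b := 1) (c := 2) (cn := .pnp) (n1 := ndN6q0) (n2 := ndN1q2a) (pc := pcN1) (cut := Cut.none) (xt := Ext.none) (P1 := 0) (W1 := 536870912) (P2 := 0) (W2 := 420477299) (P3 := 1046898278) (W3 := 26843546) (N0 := 3)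
    rfl k0_mm_012_a

noncomputable def f_mm_012_b : ℕ → ℕ → ℕ → ℕ → Bool := onCell 0 536870912 1239849684 370763052 1046898278 26843546
    (rowNX 3 0 false false false .pnp 0 1 2 (qsf 0 536870912 1239849684 370763052 1) ndN6q0 ndN1q2b pcN1 Cut.none Ext.none)

def k0_mm_012_b : ∃ t, chk3 f_mm_012_b t 1 1 1 = true :=
  ⟨(l 5), by decide +kernel⟩

theorem c_mm_012_b : CertNX 0 536870912 1239849684 370763052 1046898278 26843546 3 false false false .pnp 0 1 2
    ndN6q0 ndN1q2b pcN1 Cut.none Ext.none :=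
  certNX0 (fam := false) (s1 := false) (s2 := false) (a := 0) (b := 1) (c := 2) (cn := .pnp) (n1 := ndN6q0) (n2 := ndN1q2b) (pc := pcN1) (cut := Cut.none) (xt := Ext.none) (P1 := 0) (W1 := 536870912) (P2 := 1239849684) (W2 := 370763052) (P3 := 1046898278) (W3 := 26843546) (N0 := 3)
    rfl k0_mm_012_b

noncomputable def f_mm_022_a : ℕ → ℕ → ℕ → ℕ → Bool := onCell 0 536870912 0 420477299 1046898278 26843546
    (rowNX 3 0 false false false .pp 0 2 2 (qsf 0 536870912 0 420477299 2) ndN6q0 ndN1q2a pcN2 Cut.none Ext.none)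

def k0_mm_022_a : ∃ t, chk3 f_mm_022_a t 1 1 1 = true :=
  ⟨(l 5), by decide +kernel⟩

theorem c_mm_022_a : CertNX 0 536870912 0 420477299 1046898278 26843546 3 false false false .pp 0 2 2
    ndN6q0 ndN1q2a pcN2 Cut.none Ext.none :=
  certNX0 (fam := false) (s1 := false) (s2 := false) (a := 0) (b := 2) (c := 2) (cn := .pp) (n1 := ndN6q0) (n2 := ndN1q2a) (pc := pcN2) (cut := Cut.none) (xt := Ext.none) (P1 := 0) (W1 := 536870912) (P2 := 0) (W2 := 420477299) (P3 := 1046898278) (W3 := 26843546) (N0 := 3)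
    rfl k0_mm_022_a

noncomputable def f_mm_022_b : ℕ → ℕ → ℕ → ℕ → Bool := onCell 0 536870912 1239849684 370763052 1046898278 26843546
    (rowNX 3 0 false false false .pp 0 2 2 (qsf 0 536870912 1239849684 370763052 2) ndN6q0 ndN1q2b pcN2 Cut.none Ext.none)

def k0_mm_022_b : ∃ t, chk3 f_mm_022_b t 1 1 1 = true :=
  ⟨(l 5), by decide +kernel⟩

theorem c_mm_022_b : CertNX 0 536870912 1239849684 370763052 1046898278 26843546 3 false false false .pp 0 2 2
    ndN6q0 ndN1q2b pcN2 Cut.none Ext.none :=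
  certNX0 (fam := false) (s1 := false) (s2 := false) (a := 0) (b := 2) (c := 2) (cn := .pp) (n1 := ndN6q0) (n2 := ndN1q2b) (pc := pcN2) (cut := Cut.none) (xt := Ext.none) (P1 := 0) (W1 := 536870912) (P2 := 1239849684) (W2 := 370763052) (P3 := 1046898278) (W3 := 26843546) (N0 := 3)
    rfl k0_mm_022_b

noncomputable def f_mm_023 : ℕ → ℕ → ℕ → ℕ → Bool := onCell 0 536870912 1610612736 469762048 1046898278 26843546
    (rowNX 3 0 false false false .up 0 2 3 (qsf 0 536870912 1610612736 469762048 2) ndN6q0 ndN1q3 pcN2 Cut.none Ext.none)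

def k0_mm_023 : ∃ t, chk3 f_mm_023 t 1 1 1 = true :=
  ⟨(l 5), by decide +kernel⟩

theorem c_mm_023 : CertNX 0 536870912 1610612736 469762048 1046898278 26843546 3 false false false .up 0 2 3
    ndN6q0 ndN1q3 pcN2 Cut.none Ext.none :=
  certNX0 (fam := false) (s1 := false) (s2 := false) (a := 0) (b := 2) (c := 3) (cn := .up) (n1 := ndN6q0) (n2 := ndN1q3) (pc := pcN2) (cut := Cut.none) (xt := Ext.none) (P1 := 0) (W1 := 536870912) (P2 := 1610612736) (W2 := 469762048) (P3 := 1046898278) (W3 := 26843546) (N0 := 3)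
    rfl k0_mm_023

noncomputable def f_mm_033 : ℕ → ℕ → ℕ → ℕ → Bool := onCell 0 536870912 1610612736 469762048 1046898278 26843546
    (rowNX 3 0 false false false .pnn 0 3 3 (qsf 0 536870912 1610612736 469762048 3) ndN6q0 ndN1q3 pcN3 Cut.none Ext.none)

def k0_mm_033 : ∃ t, chk3 f_mm_033 t 1 1 1 = true :=
  ⟨(l 5), by decide +kernel⟩

theorem c_mm_033 : CertNX 0 536870912 1610612736 469762048 1046898278 26843546 3 false false false .pnn 0 3 3
    ndN6q0 ndN1q3 pcN3 Cut.none Ext.none :=
  certNX0 (fam := false) (s1 := false) (s2 := false) (a := 0) (b := 3) (c := 3) (cn := .pnn) (n1 := ndN6q0) (n2 := ndN1q3) (pc := pcN3) (cut := Cut.none) (xt := Ext.none) (P1 := 0) (W1 := 536870912) (P2 := 1610612736) (W2 := 469762048) (P3 := 1046898278) (W3 := 26843546) (N0 := 3)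
    rfl k0_mm_033

noncomputable def f_mm_101 : ℕ → ℕ → ℕ → ℕ → Bool := onCell 0 536870912 536870912 536870912 1046898278 26843546
    (rowNX 3 2 false false false .npn 1 0 1 (qsf 536870912 469762048 536870912 536870912 0) ndN6q1 ndN1q1 pcN0 Cut.none Ext.none)

def k0_mm_101 : ∃ t, chk3 f_mm_101 t 1 1 1 = true :=
  ⟨(l 5), by decide +kernel⟩

theorem c_mm_101 : CertNX 536870912 469762048 536870912 536870912 1046898278 26843546 3 false false false .npn 1 0 1
    ndN6q1 ndN1q1 pcN0 Cut.none Ext.none :=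
  certNX2 (fam := false) (s1 := false) (s2 := false) (a := 1) (b := 0) (c := 1) (cn := .npn) (n1 := ndN6q1) (n2 := ndN1q1) (pc := pcN0) (cut := Cut.none) (xt := Ext.none) (P1 := 536870912) (W1 := 469762048) (P2 := 536870912) (W2 := 536870912) (P3 := 1046898278) (W3 := 26843546) (N0 := 3)
    rfl (fun _ => rfl) k0_mm_101

noncomputable def f_mm_102_a : ℕ → ℕ → ℕ → ℕ → Bool := onCell 536870912 469762048 0 420477299 1046898278 26843546
    (rowNX 3 0 false false false .npp 1 0 2 (qsf 536870912 469762048 0 420477299 0) ndN6q1 ndN1q2a pcN0 Cut.none Ext.none)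

def k0_mm_102_a : ∃ t, chk3 f_mm_102_a t 1 1 1 = true :=
  ⟨(l 5), by decide +kernel⟩

theorem c_mm_102_a : CertNX 536870912 469762048 0 420477299 1046898278 26843546 3 false false false .npp 1 0 2
    ndN6q1 ndN1q2a pcN0 Cut.none Ext.none :=
  certNX0 (fam := false) (s1 := false) (s2 := false) (a := 1) (b := 0) (c := 2) (cn := .npp) (n1 := ndN6q1) (n2 := ndN1q2a) (pc := pcN0) (cut := Cut.none) (xt := Ext.none) (P1 := 536870912) (W1 := 469762048) (P2 := 0) (W2 := 420477299) (P3 := 1046898278) (W3 := 26843546) (N0 := 3)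
    rfl k0_mm_102_a

noncomputable def f_mm_102_b : ℕ → ℕ → ℕ → ℕ → Bool := onCell 536870912 469762048 1239849684 370763052 1046898278 26843546
    (rowNX 3 0 false false false .npp 1 0 2 (qsf 536870912 469762048 1239849684 370763052 0) ndN6q1 ndN1q2b pcN0 Cut.none Ext.none)

def k0_mm_102_b : ∃ t, chk3 f_mm_102_b t 1 1 1 = true :=
  ⟨(l 5), by decide +kernel⟩

theorem c_mm_102_b : CertNX 536870912 469762048 1239849684 370763052 1046898278 26843546 3 false false false .npp 1 0 2
    ndN6q1 ndN1q2b pcN0 Cut.none Ext.none :=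
  certNX0 (fam := false) (s1 := false) (s2 := false) (a := 1) (b := 0) (c := 2) (cn := .npp) (n1 := ndN6q1) (n2 := ndN1q2b) (pc := pcN0) (cut := Cut.none) (xt := Ext.none) (P1 := 536870912) (W1 := 469762048) (P2 := 1239849684) (W2 := 370763052) (P3 := 1046898278) (W3 := 26843546) (N0 := 3)
    rfl k0_mm_102_b

noncomputable def f_mm_112_a : ℕ → ℕ → ℕ → ℕ → Bool := onCell 536870912 469762048 0 420477299 1046898278 26843546
    (rowNX 3 0 false false false .dn 1 1 2 (qsf 536870912 469762048 0 420477299 1) ndN6q1 ndN1q2a pcN1 Cut.none Ext.none)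

def k0_mm_112_a : ∃ t, chk3 f_mm_112_a t 1 1 1 = true :=
  ⟨(l 5), by decide +kernel⟩

theorem c_mm_112_a : CertNX 536870912 469762048 0 420477299 1046898278 26843546 3 false false false .dn 1 1 2
    ndN6q1 ndN1q2a pcN1 Cut.none Ext.none :=
  certNX0 (fam := false) (s1 := false) (s2 := false) (a := 1) (b := 1) (c := 2) (cn := .dn) (n1 := ndN6q1) (n2 := ndN1q2a) (pc := pcN1) (cut := Cut.none) (xt := Ext.none) (P1 := 536870912) (W1 := 469762048) (P2 := 0) (W2 := 420477299) (P3 := 1046898278) (W3 := 26843546) (N0 := 3)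
    rfl k0_mm_112_a

noncomputable def f_mm_112_b : ℕ → ℕ → ℕ → ℕ → Bool := onCell 536870912 469762048 1239849684 370763052 1046898278 26843546
    (rowNX 3 0 false false false .dn 1 1 2 (qsf 536870912 469762048 1239849684 370763052 1) ndN6q1 ndN1q2b pcN1 Cut.none Ext.none)

def k0_mm_112_b : ∃ t, chk3 f_mm_112_b t 1 1 1 = true :=
  ⟨(l 5), by decide +kernel⟩

theorem c_mm_112_b : CertNX 536870912 469762048 1239849684 370763052 1046898278 26843546 3 false false false .dn 1 1 2
    ndN6q1 ndN1q2b pcN1 Cut.none Ext.none :=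
  certNX0 (fam := false) (s1 := false) (s2 := false) (a := 1) (b := 1) (c := 2) (cn := .dn) (n1 := ndN6q1) (n2 := ndN1q2b) (pc := pcN1) (cut := Cut.none) (xt := Ext.none) (P1 := 536870912) (W1 := 469762048) (P2 := 1239849684) (W2 := 370763052) (P3 := 1046898278) (W3 := 26843546) (N0 := 3)
    rfl k0_mm_112_b

noncomputable def f_mm_113 : ℕ → ℕ → ℕ → ℕ → Bool := onCell 536870912 469762048 1610612736 469762048 1046898278 26843546
    (rowNX 3 0 false false false .nn 1 1 3 (qsf 536870912 469762048 1610612736 469762048 1) ndN6q1 ndN1q3 pcN1 Cut.none Ext.none)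

def k0_mm_113 : ∃ t, chk3 f_mm_113 t 1 1 1 = true :=
  ⟨(l 5), by decide +kernel⟩

theorem c_mm_113 : CertNX 536870912 469762048 1610612736 469762048 1046898278 26843546 3 false false false .nn 1 1 3
    ndN6q1 ndN1q3 pcN1 Cut.none Ext.none :=
  certNX0 (fam := false) (s1 := false) (s2 := false) (a := 1) (b := 1) (c := 3) (cn := .nn) (n1 := ndN6q1) (n2 := ndN1q3) (pc := pcN1) (cut := Cut.none) (xt := Ext.none) (P1 := 536870912) (W1 := 469762048) (P2 := 1610612736) (W2 := 469762048) (P3 := 1046898278) (W3 := 26843546) (N0 := 3)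
    rfl k0_mm_113

noncomputable def f_mm_123 : ℕ → ℕ → ℕ → ℕ → Bool := onCell 536870912 469762048 1610612736 469762048 1046898278 26843546
    (rowNX 3 0 false false false .npn 1 2 3 (qsf 536870912 469762048 1610612736 469762048 2) ndN6q1 ndN1q3 pcN2 Cut.none Ext.none)

def k0_mm_123 : ∃ t, chk3 f_mm_123 t 1 1 1 = true :=
  ⟨(l 5), by decide +kernel⟩

theorem c_mm_123 : CertNX 536870912 469762048 1610612736 469762048 1046898278 26843546 3 false false false .npn 1 2 3
    ndN6q1 ndN1q3 pcN2 Cut.none Ext.none :=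
  certNX0 (fam := false) (s1 := false) (s2 := false) (a := 1) (b := 2) (c := 3) (cn := .npn) (n1 := ndN6q1) (n2 := ndN1q3) (pc := pcN2) (cut := Cut.none) (xt := Ext.none) (P1 := 536870912) (W1 := 469762048) (P2 := 1610612736) (W2 := 469762048) (P3 := 1046898278) (W3 := 26843546) (N0 := 3)
    rfl k0_mm_123

noncomputable def f_mm_133 : ℕ → ℕ → ℕ → ℕ → Bool := onCell 536870912 469762048 1610612736 469762048 1046898278 26843546
    (rowNX 3 0 false false false .dn 1 3 3 (qsf 536870912 469762048 1610612736 469762048 3) ndN6q1 ndN1q3 pcN3 Cut.none Ext.none)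

def k0_mm_133 : ∃ t, chk3 f_mm_133 t 1 1 1 = true :=
  ⟨(l 1), by decide +kernel⟩

theorem c_mm_133 : CertNX 536870912 469762048 1610612736 469762048 1046898278 26843546 3 false false false .dn 1 3 3
    ndN6q1 ndN1q3 pcN3 Cut.none Ext.none :=
  certNX0 (fam := false) (s1 := false) (s2 := false) (a := 1) (b := 3) (c := 3) (cn := .dn) (n1 := ndN6q1) (n2 := ndN1q3) (pc := pcN3) (cut := Cut.none) (xt := Ext.none) (P1 := 536870912) (W1 := 469762048) (P2 := 1610612736) (W2 := 469762048) (P3 := 1046898278) (W3 := 26843546) (N0 := 3)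
    rfl k0_mm_133

noncomputable def f_mm_202_a : ℕ → ℕ → ℕ → ℕ → Bool := onCell 1073741824 536870912 0 420477299 1046898278 26843546
    (rowNX 3 0 false false false .pp 2 0 2 (qsf 1073741824 536870912 0 420477299 0) ndN6q2 ndN1q2a pcN0 Cut.none Ext.none)

def k0_mm_202_a : ∃ t, chk3 f_mm_202_a t 1 1 1 = true :=
  ⟨(l 5), by decide +kernel⟩

theorem c_mm_202_a : CertNX 1073741824 536870912 0 420477299 1046898278 26843546 3 false false false .pp 2 0 2
    ndN6q2 ndN1q2a pcN0 Cut.none Ext.none :=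
  certNX0 (fam := false) (s1 := false) (s2 := false) (a := 2) (b := 0) (c := 2) (cn := .pp) (n1 := ndN6q2) (n2 := ndN1q2a) (pc := pcN0) (cut := Cut.none) (xt := Ext.none) (P1 := 1073741824) (W1 := 536870912) (P2 := 0) (W2 := 420477299) (P3 := 1046898278) (W3 := 26843546) (N0 := 3)
    rfl k0_mm_202_a

noncomputable def f_mm_202_b : ℕ → ℕ → ℕ → ℕ → Bool := onCell 1073741824 536870912 1239849684 370763052 1046898278 26843546
    (rowNX 3 0 false false false .pp 2 0 2 (qsf 1073741824 536870912 1239849684 370763052 0) ndN6q2 ndN1q2b pcN0 Cut.none Ext.none)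

def k0_mm_202_b : ∃ t, chk3 f_mm_202_b t 1 1 1 = true :=
  ⟨(l 5), by decide +kernel⟩

theorem c_mm_202_b : CertNX 1073741824 536870912 1239849684 370763052 1046898278 26843546 3 false false false .pp 2 0 2
    ndN6q2 ndN1q2b pcN0 Cut.none Ext.none :=
  certNX0 (fam := false) (s1 := false) (s2 := false) (a := 2) (b := 0) (c := 2) (cn := .pp) (n1 := ndN6q2) (n2 := ndN1q2b) (pc := pcN0) (cut := Cut.none) (xt := Ext.none) (P1 := 1073741824) (W1 := 536870912) (P2 := 1239849684) (W2 := 370763052) (P3 := 1046898278) (W3 := 26843546) (N0 := 3)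
    rfl k0_mm_202_b

noncomputable def f_mm_203 : ℕ → ℕ → ℕ → ℕ → Bool := onCell 1073741824 536870912 1610612736 469762048 1046898278 26843546
    (rowNX 3 0 false false false .up 2 0 3 (qsf 1073741824 536870912 1610612736 469762048 0) ndN6q2 ndN1q3 pcN0 Cut.none Ext.none)

def k0_mm_203 : ∃ t, chk3 f_mm_203 t 1 1 1 = true :=
  ⟨(l 5), by decide +kernel⟩

theorem c_mm_203 : CertNX 1073741824 536870912 1610612736 469762048 1046898278 26843546 3 false false false .up 2 0 3
    ndN6q2 ndN1q3 pcN0 Cut.none Ext.none :=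
  certNX0 (fam := false) (s1 := false) (s2 := false) (a := 2) (b := 0) (c := 3) (cn := .up) (n1 := ndN6q2) (n2 := ndN1q3) (pc := pcN0) (cut := Cut.none) (xt := Ext.none) (P1 := 1073741824) (W1 := 536870912) (P2 := 1610612736) (W2 := 469762048) (P3 := 1046898278) (W3 := 26843546) (N0 := 3)
    rfl k0_mm_203

noncomputable def f_mm_213 : ℕ → ℕ → ℕ → ℕ → Bool := onCell 1073741824 536870912 1610612736 469762048 1046898278 26843546
    (rowNX 3 0 false false false .pnn 2 1 3 (qsf 1073741824 536870912 1610612736 469762048 1) ndN6q2 ndN1q3 pcN1 Cut.none Ext.none)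

def k0_mm_213 : ∃ t, chk3 f_mm_213 t 1 1 1 = true :=
  ⟨(l 5), by decide +kernel⟩

theorem c_mm_213 : CertNX 1073741824 536870912 1610612736 469762048 1046898278 26843546 3 false false false .pnn 2 1 3
    ndN6q2 ndN1q3 pcN1 Cut.none Ext.none :=
  certNX0 (fam := false) (s1 := false) (s2 := false) (a := 2) (b := 1) (c := 3) (cn := .pnn) (n1 := ndN6q2) (n2 := ndN1q3) (pc := pcN1) (cut := Cut.none) (xt := Ext.none) (P1 := 1073741824) (W1 := 536870912) (P2 := 1610612736) (W2 := 469762048) (P3 := 1046898278) (W3 := 26843546) (N0 := 3)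
    rfl k0_mm_213

noncomputable def f_mm_303 : ℕ → ℕ → ℕ → ℕ → Bool := onCell 0 1230186008 1610612736 469762048 1046898278 26843546
    (rowNX 3 0 false false false .npn 3 0 3 (qsf 0 1230186008 1610612736 469762048 0) ndN6q3 ndN1q3 pcN0 Cut.none Ext.none)

def k0_mm_303 : ∃ t, chk3 f_mm_303 t 1 1 1 = true :=
  ⟨(a (l 3) (l 3)), by decide +kernel⟩

theorem c_mm_303 : CertNX 0 1230186008 1610612736 469762048 1046898278 26843546 3 false false false .npn 3 0 3
    ndN6q3 ndN1q3 pcN0 Cut.none Ext.none :=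
  certNX0 (fam := false) (s1 := false) (s2 := false) (a := 3) (b := 0) (c := 3) (cn := .npn) (n1 := ndN6q3) (n2 := ndN1q3) (pc := pcN0) (cut := Cut.none) (xt := Ext.none) (P1 := 0) (W1 := 1230186008) (P2 := 1610612736) (W2 := 469762048) (P3 := 1046898278) (W3 := 26843546) (N0 := 3)
    rfl k0_mm_303

noncomputable def f_mm_313 : ℕ → ℕ → ℕ → ℕ → Bool := onCell 0 1230186008 1610612736 469762048 1046898278 26843546
    (rowNX 3 0 false false false .dn 3 1 3 (qsf 0 1230186008 1610612736 469762048 1) ndN6q3 ndN1q3 pcN1 Cut.none Ext.none)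

def k0_mm_313 : ∃ t, chk3 f_mm_313 t 1 1 1 = true :=
  ⟨(l 1), by decide +kernel⟩

theorem c_mm_313 : CertNX 0 1230186008 1610612736 469762048 1046898278 26843546 3 false false false .dn 3 1 3
    ndN6q3 ndN1q3 pcN1 Cut.none Ext.none :=
  certNX0 (fam := false) (s1 := false) (s2 := false) (a := 3) (b := 1) (c := 3) (cn := .dn) (n1 := ndN6q3) (n2 := ndN1q3) (pc := pcN1) (cut := Cut.none) (xt := Ext.none) (P1 := 0) (W1 := 1230186008) (P2 := 1610612736) (W2 := 469762048) (P3 := 1046898278) (W3 := 26843546) (N0 := 3)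
    rfl k0_mm_313

end Pool.Agent.Strip051.G.IE1.Tab.C.NB61

namespace Pool.Agent.Strip051.G.IE1.Tab.C.NB62

open Pool.Agent.Strip051.PB Pool.Agent.Strip051.PB.T
open Pool.Agent.Strip051.G.IE1.Tab

noncomputable def f_pp_001 : ℕ → ℕ → ℕ → ℕ → Bool := onCell 0 536870912 536870912 536870912 1046898278 26843546
    (rowNX 3 0 false true true .up 0 0 1 (qsf 0 536870912 536870912 536870912 0) ndN6q0 ndN2q1 pcN0 Cut.none Ext.none)

def k0_pp_001 : ∃ t, chk3 f_pp_001 t 1 1 1 = true :=
  ⟨(l 3), by decide +kernel⟩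

theorem c_pp_001 : CertNX 0 536870912 536870912 536870912 1046898278 26843546 3 false true true .up 0 0 1
    ndN6q0 ndN2q1 pcN0 Cut.none Ext.none :=
  certNX0 (fam := false) (s1 := true) (s2 := true) (a := 0) (b := 0) (c := 1) (cn := .up) (n1 := ndN6q0) (n2 := ndN2q1) (pc := pcN0) (cut := Cut.none) (xt := Ext.none) (P1 := 0) (W1 := 536870912) (P2 := 536870912) (W2 := 536870912) (P3 := 1046898278) (W3 := 26843546) (N0 := 3)
    rfl k0_pp_001

noncomputable def f_pp_011 : ℕ → ℕ → ℕ → ℕ → Bool := onCell 0 536870912 536870912 536870912 1046898278 26843546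
    (rowNX 3 0 false true true .pnn 0 1 1 (qsf 0 536870912 536870912 536870912 1) ndN6q0 ndN2q1 pcN1 Cut.none Ext.none)

def k0_pp_011 : ∃ t, chk3 f_pp_011 t 1 1 1 = true :=
  ⟨(l 3), by decide +kernel⟩

theorem c_pp_011 : CertNX 0 536870912 536870912 536870912 1046898278 26843546 3 false true true .pnn 0 1 1
    ndN6q0 ndN2q1 pcN1 Cut.none Ext.none :=
  certNX0 (fam := false) (s1 := true) (s2 := true) (a := 0) (b := 1) (c := 1) (cn := .pnn) (n1 := ndN6q0) (n2 := ndN2q1) (pc := pcN1) (cut := Cut.none) (xt := Ext.none) (P1 := 0) (W1 := 536870912) (P2 := 536870912) (W2 := 536870912) (P3 := 1046898278) (W3 := 26843546) (N0 := 3)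
    rfl k0_pp_011

noncomputable def f_pp_012_a : ℕ → ℕ → ℕ → ℕ → Bool := onCell 536870912 536870912 0 420477299 1046898278 26843546
    (rowNX 3 2 false true true .pnp 0 1 2 (qsf 0 536870912 0 420477299 1) ndN6q0 ndN2q2a pcN1 Cut.none Ext.none)

def k0_pp_012_a : ∃ t, chk3 f_pp_012_a t 1 1 1 = true :=
  ⟨(a (b (b (l 16400216) (a (l 2) (l 16398760))) (b (a (l 16554784) (l 16554784)) (b (a (l 16713464) (l 16713464)) (a (l 16262632) (l 16262632))))) (a (b (a (b (l 16428832) (l 16423640)) (a (l 16578648) (b (l 16488208) (l 16581376)))) (b (a (l 16578528) (a (l 16701624) (l 16543896))) (a (b (l 16711744) (l 16290568)) (b (a (l 16544144) (l 16384272)) (a (l 16265416) (l 16141936)))))) (b (a (b (l 15714984) (a (l 16220112) (l 15875344))) (b (a (l 15372992) (l 15015448)) (a (l 15639008) (b (l 15350296) (l 15477224))))) (b (a (a (l 16242312) (l 15999072)) (a (l 15820328) (b (l 15593160) (l 15620664)))) (a (b (l 15890400) (l 15820408)) (b (a (l 15779288) (l 15521640)) (a (l 15511280)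 (a (l 15288352) (b (l 15222704) (l 15016256)))))))))), by decide +kernel⟩

theorem c_pp_012_a : CertNX 0 536870912 0 420477299 1046898278 26843546 3 false true true .pnp 0 1 2
    ndN6q0 ndN2q2a pcN1 Cut.none Ext.none :=
  certNX2 (fam := false) (s1 := true) (s2 := true) (a := 0) (b := 1) (c := 2) (cn := .pnp) (n1 := ndN6q0) (n2 := ndN2q2a) (pc := pcN1) (cut := Cut.none) (xt := Ext.none) (P1 := 0) (W1 := 536870912) (P2 := 0) (W2 := 420477299) (P3 := 1046898278) (W3 := 26843546) (N0 := 3)
    rfl (fun _ => rfl) k0_pp_012_a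

noncomputable def f_pp_012_b : ℕ → ℕ → ℕ → ℕ → Bool := onCell 536870912 536870912 1239849684 370763052 1046898278 26843546
    (rowNX 3 2 false true true .pnp 0 1 2 (qsf 0 536870912 1239849684 370763052 1) ndN6q0 ndN2q2b pcN1 Cut.none Ext.none)

def k0_pp_012_b : ∃ t, chk3 f_pp_012_b t 1 1 1 = true :=
  ⟨(a (b (b (l 16655936) (l 16777216)) (l 2)) (a (b (a (b (l 16681456) (l 16721592)) (b (a (l 16526136) (l 16251432)) (l 16288080))) (a (l 2) (l 16248232))) (b (a (b (a (l 15762632) (l 15321816)) (l 15389064)) (b (a (b (l 15030304) (l 14747056)) (b (a (l 14723776) (l 14589680)) (l 14171992))) (a (l 14639032) (l 14082104)))) (a (l 15279872) (a (l 14486168) (b (l 13949832) (l 13826744))))))), by decide +kernel⟩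

theorem c_pp_012_b : CertNX 0 536870912 1239849684 370763052 1046898278 26843546 3 false true true .pnp 0 1 2
    ndN6q0 ndN2q2b pcN1 Cut.none Ext.none :=
  certNX2 (fam := false) (s1 := true) (s2 := true) (a := 0) (b := 1) (c := 2) (cn := .pnp) (n1 := ndN6q0) (n2 := ndN2q2b) (pc := pcN1) (cut := Cut.none) (xt := Ext.none) (P1 := 0) (W1 := 536870912) (P2 := 1239849684) (W2 := 370763052) (P3 := 1046898278) (W3 := 26843546) (N0 := 3)
    rfl (fun _ => rfl) k0_pp_012_b

noncomputable def f_pp_022_a : ℕ → ℕ → ℕ → ℕ → Bool := onCell 0 536870912 0 420477299 1046898278 26843546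
    (rowNX 3 0 false true true .pp 0 2 2 (qsf 0 536870912 0 420477299 2) ndN6q0 ndN2q2a pcN2 Cut.none Ext.none)

def k0_pp_022_a : ∃ t, chk3 f_pp_022_a t 4 1 1 = true :=
  ⟨(b (a (a (b (a (a (c (l 15925952) (c (l 15898368) (l 15796384))) (c (b (l 15713632) (l 15602344)) (b (l 15677352) (l 15692384)))) (c (b (l 15624816) (l 15692216)) (l 15602616))) (a (c (a (b (l 15815376) (l 15742664)) (b (l 15727328) (l 15755856))) (a (b (c (l 15784560) (l 15533584)) (c (l 15709600) (l 15624888))) (b (l 15691424) (l 15720824)))) (c (a (l 15766992) (l 15785896)) (l 15721032)))) (b (a (l 15601720) (l 15466664)) (c (b (l 15781016) (a (l 15845320) (l 15869448))) (l 15641712)))) (a (b (c (a (l 15634016) (l 15541520)) (l 15544992)) (c (b (l 15698048) (l 15738504)) (l 15527192))) (b (c (b (l 15290872) (l 15400936)) (l 15294568)) (c (l 15450968) (b (l 15421656) (l 15436120)))))) (a (b (a (a (c (a (l 15778680) (b (l 15786368) (l 15829000))) (a (c (l 15557224) (b (l 15718664) (l 15733520))) (c (l 15792680)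 (l 15767032)))) (c (b (l 15836792) (l 15817136)) (b (l 15828920) (l 15850696)))) (b (c (a (l 15937416) (l 15889672)) (l 15864192)) (c (l 15595472) (l 15783560)))) (a (a (b (c (a (l 15730880) (a (l 15749216) (l 15570560))) (a (c (l 15591200) (a (l 15641088) (l 15687400))) (c (l 15727000) (l 15699352)))) (c (a (l 15389296) (c (l 15360112) (l 15340728))) (a (c (l 15134944) (c (l 15175536) (l 15244432))) (l 15090784)))) (b (c (b (l 15755640) (l 15659648)) (l 15686720)) (c (a (l 15327632) (l 15288328)) (l 15230144)))) (b (c (a (l 15645760) (l 15521512)) (l 15534704)) (c (a (l 15203440) (l 15089320)) (l 15080776))))) (b (a (b (c (l 15713160) (l 15678456)) (l 15578360)) (b (l 15429736) (l 15331856))) (a (b (a (l 15390936) (l 15299472)) (a (l 14962344) (l 14883880))) (b (l 15127160) (l 1)))))), by decide +kernel⟩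

def k1_pp_022_a : ∃ t, chk3 f_pp_022_a t 5 1 1 = true :=
  ⟨(a (b (b (a (c (l 15018904) (b (l 14902160) (l 15020488))) (l 1)) (a (b (l 15116272) (l 15130592)) (l 1))) (b (b (l 14897808) (l 1)) (l 1))) (l 1)), by decide +kernel⟩

def k2_pp_022_a : ∃ t, chk3 f_pp_022_a t 3 1 1 = true :=
  ⟨(l 1), by decide +kernel⟩

theorem s3_pp_022_a : ∃ t, chk3 f_pp_022_a t 2 1 1 = true := ex3_a k0_pp_022_a k1_pp_022_a

theorem s4_pp_022_a : ∃ t, chk3 f_pp_022_a t 1 1 1 = true := ex3_a s3_pp_022_a k2_pp_022_a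

theorem c_pp_022_a : CertNX 0 536870912 0 420477299 1046898278 26843546 3 false true true .pp 0 2 2
    ndN6q0 ndN2q2a pcN2 Cut.none Ext.none :=
  certNX0 (fam := false) (s1 := true) (s2 := true) (a := 0) (b := 2) (c := 2) (cn := .pp) (n1 := ndN6q0) (n2 := ndN2q2a) (pc := pcN2) (cut := Cut.none) (xt := Ext.none) (P1 := 0) (W1 := 536870912) (P2 := 0) (W2 := 420477299) (P3 := 1046898278) (W3 := 26843546) (N0 := 3)
    rfl s4_pp_022_a

noncomputable def f_pp_022_b : ℕ → ℕ → ℕ → ℕ → Bool := onCell 0 536870912 1073741824 536870912 1046898278 26843546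
    (rowNX 3 1 false true true .pp 0 2 2 (qsf 0 536870912 1239849684 370763052 2) ndN6q0 ndN2q2b pcN2 Cut.none Ext.none)

def k0_pp_022_b : ∃ t, chk3 f_pp_022_b t 2 2 1 = true :=
  ⟨(b (a (a (b (l 1) (a (a (l 1) (b (l 1) (c (l 15574464) (l 15513848)))) (b (c (b (l 1) (l 360271033031)) (l 390335564887)) (c (l 445096390247) (l 15399680))))) (b (a (b (l 1) (c (b (l 1) (l 15341264)) (l 14954904))) (b (c (l 14969824) (b (l 1) (l 14993704))) (c (b (l 15169520) (l 15210304)) (l 15126632)))) (a (b (c (b (l 15453360) (l 15431176)) (l 15368296)) (l 15170784)) (b (c (l 15149208) (l 15103688)) (l 14926656))))) (b (a (b (c (l 14655968) (a (b (l 14768496) (l 14810488)) (l 14413736))) (c (b (l 14691784) (l 14705456)) (l 14638288))) (c (b (l 14023048) (l 14175584)) (b (a (l 14023472) (l 13821936)) (l 14088464)))) (b (a (c (b (l 14753960) (l 14750112)) (l 14668496)) (c (l 14335360) (l 14231768))) (a (l 14638752) (l 14297440))))) (a (a (b (a (a (a (b (b (l 1) (c (l 15866456) (c (l 15837216) (l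 15755088)))) (c (l 16310224) (c (l 16294248) (l 16262992)))) (b (c (b (l 15619432) (l 15809576)) (b (l 15579544) (l 15776880))) (c (l 16232784) (l 16216312)))) (b (c (b (l 15573872) (l 15712056)) (b (l 15514864) (l 15659080))) (c (l 16134776) (l 16099016)))) (b (b (l 15303376) (l 15461832)) (c (l 15946464) (l 15912440)))) (a (b (a (c (l 16131400) (a (l 16294024) (l 16395176))) (c (l 16456592) (l 16477744))) (a (c (l 15886440) (a (l 15876912) (l 16083568))) (l 16142592))) (b (l 16473224) (l 16282784)))) (b (a (b (b (l 15063248) (l 15251064)) (l 15778840)) (b (l 15035696) (l 15686280))) (a (b (l 16345000) (l 16409360)) (b (l 16235776) (l 16500520))))) (b (b (b (l 14589432) (l 14849232)) (l 15375928)) (b (l 15903096) (l 16210592))))), by decide +kernel⟩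

def k1_pp_022_b : ∃ t, chk3 f_pp_022_b t 3 2 1 = true :=
  ⟨(b (b (c (b (l 13715152) (a (l 13987168) (l 13814368))) (b (a (c (l 13728504) (l 13669824)) (l 13518080)) (a (l 13893840) (l 13715968)))) (b (a (c (l 14161056) (l 14047184)) (l 13933744)) (l 14108256))) (b (b (b (l 14357896) (l 14649816)) (l 15131496)) (b (l 15575432) (l 15903984)))), by decide +kernel⟩

def k2_pp_022_b : ∃ t, chk3 f_pp_022_b t 1 3 1 = true :=
  ⟨(a (a (b (a (a (b (a (c (l 15763288) (a (l 15728120) (l 15909632))) (c (l 15974616) (l 15975632))) (a (c (l 15706256) (a (l 15662736) (l 15695440))) (l 15608648))) (b (l 16099816) (l 15886832))) (b (a (l 16221656) (l 16313408)) (a (l 16011768) (l 16111800)))) (a (a (c (a (l 15697808) (l 15759496)) (a (c (l 15679096) (l 15666480)) (l 15750376))) (b (l 15878288) (l 4))) (b (a (l 16003560) (l 16104120)) (l 4)))) (b (b (l 16492768) (l 16442808)) (b (l 16521384) (l 2)))) (b (b (a (l 16360792) (l 2)) (l 2)) (l 2))), by decide +kernel⟩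

theorem s3_pp_022_b : ∃ t, chk3 f_pp_022_b t 1 2 1 = true := ex3_a k0_pp_022_b k1_pp_022_b

theorem s4_pp_022_b : ∃ t, chk3 f_pp_022_b t 1 1 1 = true := ex3_b s3_pp_022_b k2_pp_022_b

theorem c_pp_022_b : CertNX 0 536870912 1239849684 370763052 1046898278 26843546 3 false true true .pp 0 2 2
    ndN6q0 ndN2q2b pcN2 Cut.none Ext.none :=
  certNX1 (fam := false) (s1 := true) (s2 := true) (a := 0) (b := 2) (c := 2) (cn := .pp) (n1 := ndN6q0) (n2 := ndN2q2b) (pc := pcN2) (cut := Cut.none) (xt := Ext.none) (P1 := 0) (W1 := 536870912) (P2 := 1239849684) (W2 := 370763052) (P3 := 1046898278) (W3 := 26843546) (N0 := 3)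
    rfl (fun _ => rfl) s4_pp_022_b

noncomputable def f_pp_023 : ℕ → ℕ → ℕ → ℕ → Bool := onCell 1073741824 536870912 1610612736 469762048 1046898278 26843546
    (rowNX 3 2 false true true .up 0 2 3 (qsf 0 536870912 1610612736 469762048 2) ndN6q0 ndN2q3 pcN2 Cut.none Ext.none)

def k0_pp_023 : ∃ t, chk3 f_pp_023 t 1 1 1 = true :=
  ⟨(a (a (b (a (b (c (l 13613480) (a (l 13383360) (l 13623632))) (l 2)) (a (b (l 13885880) (l 2)) (l 13997416))) (l 2)) (a (b (a (l 14481480) (l 15102288)) (l 2)) (b (a (l 15545888) (l 15896504)) (a (l 15483488) (l 4))))) (b (a (a (b (l 16373488) (l 16343224)) (b (l 16577992) (l 4))) (a (a (a (l 16583304) (l 16546312)) (l 4)) (l 4))) (l 4))), by decide +kernel⟩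

theorem c_pp_023 : CertNX 0 536870912 1610612736 469762048 1046898278 26843546 3 false true true .up 0 2 3
    ndN6q0 ndN2q3 pcN2 Cut.none Ext.none :=
  certNX2 (fam := false) (s1 := true) (s2 := true) (a := 0) (b := 2) (c := 3) (cn := .up) (n1 := ndN6q0) (n2 := ndN2q3) (pc := pcN2) (cut := Cut.none) (xt := Ext.none) (P1 := 0) (W1 := 536870912) (P2 := 1610612736) (W2 := 469762048) (P3 := 1046898278) (W3 := 26843546) (N0 := 3)
    rfl (fun _ => rfl) k0_pp_023

noncomputable def f_pp_033 : ℕ → ℕ → ℕ → ℕ → Bool := onCell 0 536870912 1610612736 536870912 1046898278 26843546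
    (rowNX 3 1 false true true .pnn 0 3 3 (qsf 0 536870912 1610612736 469762048 3) ndN6q0 ndN2q3 pcN3 Cut.none Ext.none)

def k0_pp_033 : ∃ t, chk3 f_pp_033 t 1 1 1 = true :=
  ⟨(a (b (a (l 4) (l 4)) (a (l 4) (b (l 4) (l 2)))) (b (a (l 4) (b (l 4) (l 2))) (l 2))), by decide +kernel⟩

theorem c_pp_033 : CertNX 0 536870912 1610612736 469762048 1046898278 26843546 3 false true true .pnn 0 3 3
    ndN6q0 ndN2q3 pcN3 Cut.none Ext.none :=
  certNX1 (fam := false) (s1 := true) (s2 := true) (a := 0) (b := 3) (c := 3) (cn := .pnn) (n1 := ndN6q0) (n2 := ndN2q3) (pc := pcN3) (cut := Cut.none) (xt := Ext.none) (P1 := 0) (W1 := 536870912) (P2 := 1610612736) (W2 := 469762048) (P3 := 1046898278) (W3 := 26843546) (N0 := 3)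
    rfl (fun _ => rfl) k0_pp_033

noncomputable def f_pp_101 : ℕ → ℕ → ℕ → ℕ → Bool := onCell 536870912 469762048 536870912 536870912 1046898278 26843546
    (rowNX 3 0 false true true .npn 1 0 1 (qsf 536870912 469762048 536870912 536870912 0) ndN6q1 ndN2q1 pcN0 Cut.none Ext.none)

def k0_pp_101 : ∃ t, chk3 f_pp_101 t 1 1 1 = true :=
  ⟨(l 3), by decide +kernel⟩

theorem c_pp_101 : CertNX 536870912 469762048 536870912 536870912 1046898278 26843546 3 false true true .npn 1 0 1
    ndN6q1 ndN2q1 pcN0 Cut.none Ext.none :=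
  certNX0 (fam := false) (s1 := true) (s2 := true) (a := 1) (b := 0) (c := 1) (cn := .npn) (n1 := ndN6q1) (n2 := ndN2q1) (pc := pcN0) (cut := Cut.none) (xt := Ext.none) (P1 := 536870912) (W1 := 469762048) (P2 := 536870912) (W2 := 536870912) (P3 := 1046898278) (W3 := 26843546) (N0 := 3)
    rfl k0_pp_101

noncomputable def f_pp_102_a : ℕ → ℕ → ℕ → ℕ → Bool := onCell 536870912 469762048 0 420477299 1046898278 26843546
    (rowNX 3 0 false true true .npp 1 0 2 (qsf 536870912 469762048 0 420477299 0) ndN6q1 ndN2q2a pcN0 Cut.none Ext.none)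

def k0_pp_102_a : ∃ t, chk3 f_pp_102_a t 2 1 1 = true :=
  ⟨(b (b (l 16400216) (a (l 2) (l 16398760))) (b (a (l 16554784) (l 16554784)) (b (a (l 16713464) (l 16713464)) (a (l 16262632) (l 16262632))))), by decide +kernel⟩

def k1_pp_102_a : ∃ t, chk3 f_pp_102_a t 6 1 1 = true :=
  ⟨(b (a (l 16410736) (a (b (l 16316328) (l 16292080)) (b (l 15342408) (l 15339312)))) (b (a (l 16554784) (a (l 16327176) (l 15425008))) (a (b (l 16713464) (l 16262632)) (b (a (a (l 16746368) (l 16327688)) (l 15590632)) (a (a (l 16313344) (l 16575048)) (a (l 16102016) (l 15613320))))))), by decide +kernel⟩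

def k2_pp_102_a : ∃ t, chk3 f_pp_102_a t 7 1 1 = true :=
  ⟨(b (a (b (l 13739800) (a (l 14292184) (l 13677880))) (a (a (b (l 13382984) (l 13380488)) (b (l 13232960) (c (l 13295064) (l 13167592)))) (b (c (a (l 13288920) (b (l 13307840) (c (l 13315880) (l 13244712)))) (a (l 13147824) (l 13137048))) (c (a (b (l 13269872) (c (l 13336128) (l 13267952))) (b (c (l 13312904) (l 13241720)) (c (l 13341872) (l 13271328)))) (b (l 13122608) (l 13154080)))))) (a (b (a (l 14387968) (l 13783896)) (b (a (l 14424352) (b (a (l 14010528) (l 13828384)) (a (l 14141024) (l 13978512)))) (a (a (l 15109848) (b (l 14532136) (a (l 14814432) (l 14628192)))) (b (a (l 14314728) (l 14184128)) (l 14496072))))) (b (a (a (b (l 13451304) (b (l 13511904) (l 13566184))) (b (c (a (l 13373584) (b (l 13342648) (l 13374272))) (l 13240728)) (c (a (l 13460576) (l 13446592)) (l 13332848)))) (b (c (a (c (l 13383904) (l 13316752)) (c (l 13382984) (l 13313336))) (b (l 13187608) (l 13214216))) (c (a (c (l 13478112) (l 13412848))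 (c (a (l 13470224) (l 13464512)) (l 13403384))) (l 13299928)))) (a (b (a (b (l 13653008) (l 13826696)) (c (c (l 13706328) (b (l 13559264) (l 13749456))) (l 13566632))) (a (b (l 14054128) (l 14337088)) (c (c (b (l 14043856) (l 14341544)) (b (l 13995192) (l 14298464))) (l 14072536)))) (b (c (a (c (l 13727448) (b (l 13566144) (l 13774896))) (c (a (l 13743128) (b (l 13640008) (l 13869024))) (b (l 13576864) (l 13805136)))) (b (l 13466664) (l 13691312))) (b (c (a (c (l 14095064) (l 14041512)) (a (c (l 14137912) (l 14080520)) (c (l 14174432) (l 14118400)))) (l 13984176)) (c (c (a (l 14421840) (a (l 14494688) (l 14548168))) (c (a (l 14387888) (l 14491200)) (l 14395200))) (a (l 14299776) (l 14386432))))))))), by decide +kernel⟩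

theorem s3_pp_102_a : ∃ t, chk3 f_pp_102_a t 3 1 1 = true := ex3_a k1_pp_102_a k2_pp_102_a

theorem s4_pp_102_a : ∃ t, chk3 f_pp_102_a t 1 1 1 = true := ex3_a k0_pp_102_a s3_pp_102_a

theorem c_pp_102_a : CertNX 536870912 469762048 0 420477299 1046898278 26843546 3 false true true .npp 1 0 2
    ndN6q1 ndN2q2a pcN0 Cut.none Ext.none :=
  certNX0 (fam := false) (s1 := true) (s2 := true) (a := 1) (b := 0) (c := 2) (cn := .npp) (n1 := ndN6q1) (n2 := ndN2q2a) (pc := pcN0) (cut := Cut.none) (xt := Ext.none) (P1 := 536870912) (W1 := 469762048) (P2 := 0) (W2 := 420477299) (P3 := 1046898278) (W3 := 26843546) (N0 := 3)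
    rfl s4_pp_102_a

noncomputable def f_pp_102_b : ℕ → ℕ → ℕ → ℕ → Bool := onCell 536870912 469762048 1239849684 370763052 1046898278 26843546
    (rowNX 3 0 false true true .npp 1 0 2 (qsf 536870912 469762048 1239849684 370763052 0) ndN6q1 ndN2q2b pcN0 Cut.none Ext.none)

def k0_pp_102_b : ∃ t, chk3 f_pp_102_b t 1 1 1 = true :=
  ⟨(a (b (b (l 16655936) (l 2)) (l 2)) (a (a (b (l 16720832) (l 2)) (b (a (b (l 16406840) (l 16505280)) (b (l 15488720) (l 15553200))) (a (l 2) (l 15553200)))) (a (b (b (a (l 14457144) (l 13858592)) (l 14196424)) (a (l 14529856) (l 13939560))) (c (b (a (b (a (l 13628600) (l 13491704)) (l 13647752)) (b (b (a (l 13411976) (l 13270816)) (l 13571968)) (l 13592992))) (a (l 13647752) (l 13592992))) (b (b (a (l 13444904) (l 13354752)) (l 13514480)) (l 13514480)))))), by decide +kernel⟩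

theorem c_pp_102_b : CertNX 536870912 469762048 1239849684 370763052 1046898278 26843546 3 false true true .npp 1 0 2
    ndN6q1 ndN2q2b pcN0 Cut.none Ext.none :=
  certNX0 (fam := false) (s1 := true) (s2 := true) (a := 1) (b := 0) (c := 2) (cn := .npp) (n1 := ndN6q1) (n2 := ndN2q2b) (pc := pcN0) (cut := Cut.none) (xt := Ext.none) (P1 := 536870912) (W1 := 469762048) (P2 := 1239849684) (W2 := 370763052) (P3 := 1046898278) (W3 := 26843546) (N0 := 3)
    rfl k0_pp_102_b

noncomputable def f_pp_112_a : ℕ → ℕ → ℕ → ℕ → Bool := onCell 536870912 469762048 0 420477299 1046898278 26843546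
    (rowNX 3 0 false true true .dn 1 1 2 (qsf 536870912 469762048 0 420477299 1) ndN6q1 ndN2q2a pcN1 Cut.none Ext.none)

def k0_pp_112_a : ∃ t, chk3 f_pp_112_a t 1 1 1 = true :=
  ⟨(a (b (b (l 16400216) (a (l 16398760) (l 16398760))) (a (b (l 16554784) (b (l 16713464) (l 16262632))) (b (l 16554784) (l 1)))) (l 1)), by decide +kernel⟩

theorem c_pp_112_a : CertNX 536870912 469762048 0 420477299 1046898278 26843546 3 false true true .dn 1 1 2
    ndN6q1 ndN2q2a pcN1 Cut.none Ext.none :=
  certNX0 (fam := false) (s1 := true) (s2 := true) (a := 1) (b := 1) (c := 2) (cn := .dn) (n1 := ndN6q1) (n2 := ndN2q2a) (pc := pcN1) (cut := Cut.none) (xt := Ext.none) (P1 := 536870912) (W1 := 469762048) (P2 := 0) (W2 := 420477299) (P3 := 1046898278) (W3 := 26843546) (N0 := 3)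
    rfl k0_pp_112_a

noncomputable def f_pp_112_b : ℕ → ℕ → ℕ → ℕ → Bool := onCell 536870912 469762048 1239849684 370763052 1046898278 26843546
    (rowNX 3 0 false true true .dn 1 1 2 (qsf 536870912 469762048 1239849684 370763052 1) ndN6q1 ndN2q2b pcN1 Cut.none Ext.none)

def k0_pp_112_b : ∃ t, chk3 f_pp_112_b t 1 1 1 = true :=
  ⟨(b (a (b (l 16655936) (a (l 16742032) (l 16777216))) (a (a (l 16720832) (a (l 387653215015) (l 403757472167))) (l 1))) (a (a (b (a (b (l 16451504) (l 15944368)) (l 16591120)) (a (b (l 15238352) (a (l 14207256) (l 14665928))) (b (l 16077960) (a (l 15154176) (l 15636528))))) (b (l 16767976) (a (b (l 16606952) (l 16213632)) (l 16699528)))) (a (a (l 16777200) (a (l 16505280) (l 15553200))) (a (l 492338599719) (a (l 476768007767) (c (l 13592992) (l 13454256))))))), by decide +kernel⟩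

theorem c_pp_112_b : CertNX 536870912 469762048 1239849684 370763052 1046898278 26843546 3 false true true .dn 1 1 2
    ndN6q1 ndN2q2b pcN1 Cut.none Ext.none :=
  certNX0 (fam := false) (s1 := true) (s2 := true) (a := 1) (b := 1) (c := 2) (cn := .dn) (n1 := ndN6q1) (n2 := ndN2q2b) (pc := pcN1) (cut := Cut.none) (xt := Ext.none) (P1 := 536870912) (W1 := 469762048) (P2 := 1239849684) (W2 := 370763052) (P3 := 1046898278) (W3 := 26843546) (N0 := 3)
    rfl k0_pp_112_b

noncomputable def f_pp_113 : ℕ → ℕ → ℕ → ℕ → Bool := onCell 536870912 469762048 536870912 536870912 1046898278 26843546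
    (rowNX 3 1 false true true .nn 1 1 3 (qsf 536870912 469762048 1610612736 469762048 1) ndN6q1 ndN2q3 pcN1 Cut.none Ext.none)

def k0_pp_113 : ∃ t, chk3 f_pp_113 t 1 1 1 = true :=
  ⟨(b (a (l 1) (a (a (l 16777216) (l 469256746743)) (a (b (l 14238360) (l 14238360)) (c (a (l 498242998535) (l 503074727223)) (l 519717568471))))) (a (b (b (l 16718224) (l 16211888)) (b (l 15188904) (b (l 14315424) (a (l 13711064) (l 13561080))))) (b (a (b (a (l 16714680) (l 15975536)) (a (l 16194368) (l 15462000))) (a (b (l 14176856) (l 13670320)) (b (c (l 13598224) (l 13448776)) (a (l 13021768) (l 12949808))))) (a (b (a (l 15083592) (l 14345704)) (a (l 13849616) (b (l 13423040) (l 12692360)))) (a (b (l 12605040) (b (l 11749584) (l 11071208))) (a (b (l 11984016) (b (l 11198840) (l 10606304))) (b (l 11929704) (b (l 11206112) (l 10717264))))))))), by decide +kernel⟩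

theorem c_pp_113 : CertNX 536870912 469762048 1610612736 469762048 1046898278 26843546 3 false true true .nn 1 1 3
    ndN6q1 ndN2q3 pcN1 Cut.none Ext.none :=
  certNX1 (fam := false) (s1 := true) (s2 := true) (a := 1) (b := 1) (c := 3) (cn := .nn) (n1 := ndN6q1) (n2 := ndN2q3) (pc := pcN1) (cut := Cut.none) (xt := Ext.none) (P1 := 536870912) (W1 := 469762048) (P2 := 1610612736) (W2 := 469762048) (P3 := 1046898278) (W3 := 26843546) (N0 := 3)
    rfl (fun _ => rfl) k0_pp_113

noncomputable def f_pp_123 : ℕ → ℕ → ℕ → ℕ → Bool := onCell 1073741824 536870912 1610612736 469762048 1046898278 26843546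
    (rowNX 3 2 false true true .npn 1 2 3 (qsf 536870912 469762048 1610612736 469762048 2) ndN6q1 ndN2q3 pcN2 Cut.none Ext.none)

def k0_pp_123 : ∃ t, chk3 f_pp_123 t 1 1 1 = true :=
  ⟨(b (a (a (a (c (a (l 13426328) (l 526160213351)) (a (b (l 13383360) (l 13235304)) (l 13550264))) (a (c (l 530455727095) (l 13753264)) (l 13997416))) (b (l 1) (a (l 14780520) (l 15677064)))) (l 1)) (a (b (a (a (a (b (l 13164560) (c (l 12837144) (l 12655704))) (c (l 13410400) (l 13297728))) (a (l 13594664) (l 13847000))) (a (l 14648216) (l 15646456))) (a (a (b (a (c (l 11867832) (l 11431824)) (c (l 12891256) (l 12645352))) (a (c (b (l 11600584) (l 11832392)) (a (l 10520656) (l 11331424))) (c (c (l 13016624) (a (l 12507856) (l 13041344))) (l 12445408)))) (a (b (c (l 13503144) (l 13320176)) (c (l 13661144) (l 13344136))) (b (l 13789880) (l 4)))) (l 4))) (l 4))), by decide +kernel⟩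

theorem c_pp_123 : CertNX 536870912 469762048 1610612736 469762048 1046898278 26843546 3 false true true .npn 1 2 3
    ndN6q1 ndN2q3 pcN2 Cut.none Ext.none :=
  certNX2 (fam := false) (s1 := true) (s2 := true) (a := 1) (b := 2) (c := 3) (cn := .npn) (n1 := ndN6q1) (n2 := ndN2q3) (pc := pcN2) (cut := Cut.none) (xt := Ext.none) (P1 := 536870912) (W1 := 469762048) (P2 := 1610612736) (W2 := 469762048) (P3 := 1046898278) (W3 := 26843546) (N0 := 3)
    rfl (fun _ => rfl) k0_pp_123

noncomputable def f_pp_133 : ℕ → ℕ → ℕ → ℕ → Bool := onCell 536870912 469762048 1610612736 469762048 1046898278 26843546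
    (rowNX 3 0 false true true .dn 1 3 3 (qsf 536870912 469762048 1610612736 469762048 3) ndN6q1 ndN2q3 pcN3 Cut.none Ext.none)

def k0_pp_133 : ∃ t, chk3 f_pp_133 t 1 1 1 = true :=
  ⟨(l 1), by decide +kernel⟩

theorem c_pp_133 : CertNX 536870912 469762048 1610612736 469762048 1046898278 26843546 3 false true true .dn 1 3 3
    ndN6q1 ndN2q3 pcN3 Cut.none Ext.none :=
  certNX0 (fam := false) (s1 := true) (s2 := true) (a := 1) (b := 3) (c := 3) (cn := .dn) (n1 := ndN6q1) (n2 := ndN2q3) (pc := pcN3) (cut := Cut.none) (xt := Ext.none) (P1 := 536870912) (W1 := 469762048) (P2 := 1610612736) (W2 := 469762048) (P3 := 1046898278) (W3 := 26843546) (N0 := 3)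
    rfl k0_pp_133

noncomputable def f_pp_202_a : ℕ → ℕ → ℕ → ℕ → Bool := onCell 1073741824 536870912 0 420477299 1046898278 26843546
    (rowNX 3 0 false true true .pp 2 0 2 (qsf 1073741824 536870912 0 420477299 0) ndN6q2 ndN2q2a pcN0 Cut.none Ext.none)

def k0_pp_202_a : ∃ t, chk3 f_pp_202_a t 1 1 1 = true :=
  ⟨(l 3), by decide +kernel⟩

theorem c_pp_202_a : CertNX 1073741824 536870912 0 420477299 1046898278 26843546 3 false true true .pp 2 0 2
    ndN6q2 ndN2q2a pcN0 Cut.none Ext.none :=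
  certNX0 (fam := false) (s1 := true) (s2 := true) (a := 2) (b := 0) (c := 2) (cn := .pp) (n1 := ndN6q2) (n2 := ndN2q2a) (pc := pcN0) (cut := Cut.none) (xt := Ext.none) (P1 := 1073741824) (W1 := 536870912) (P2 := 0) (W2 := 420477299) (P3 := 1046898278) (W3 := 26843546) (N0 := 3)
    rfl k0_pp_202_a

noncomputable def f_pp_202_b : ℕ → ℕ → ℕ → ℕ → Bool := onCell 1073741824 536870912 1239849684 370763052 1046898278 26843546
    (rowNX 3 0 false true true .pp 2 0 2 (qsf 1073741824 536870912 1239849684 370763052 0) ndN6q2 ndN2q2b pcN0 Cut.none Ext.none)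

def k0_pp_202_b : ∃ t, chk3 f_pp_202_b t 1 1 1 = true :=
  ⟨(a (l 3) (l 3)), by decide +kernel⟩

theorem c_pp_202_b : CertNX 1073741824 536870912 1239849684 370763052 1046898278 26843546 3 false true true .pp 2 0 2
    ndN6q2 ndN2q2b pcN0 Cut.none Ext.none :=
  certNX0 (fam := false) (s1 := true) (s2 := true) (a := 2) (b := 0) (c := 2) (cn := .pp) (n1 := ndN6q2) (n2 := ndN2q2b) (pc := pcN0) (cut := Cut.none) (xt := Ext.none) (P1 := 1073741824) (W1 := 536870912) (P2 := 1239849684) (W2 := 370763052) (P3 := 1046898278) (W3 := 26843546) (N0 := 3)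
    rfl k0_pp_202_b

noncomputable def f_pp_203 : ℕ → ℕ → ℕ → ℕ → Bool := onCell 0 536870912 1610612736 469762048 1046898278 26843546
    (rowNX 3 2 false true true .up 2 0 3 (qsf 1073741824 536870912 1610612736 469762048 0) ndN6q2 ndN2q3 pcN0 Cut.none Ext.none)

def k0_pp_203 : ∃ t, chk3 f_pp_203 t 1 1 1 = true :=
  ⟨(a (l 3) (b (l 3) (l 3))), by decide +kernel⟩

theorem c_pp_203 : CertNX 1073741824 536870912 1610612736 469762048 1046898278 26843546 3 false true true .up 2 0 3
    ndN6q2 ndN2q3 pcN0 Cut.none Ext.none :=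
  certNX2 (fam := false) (s1 := true) (s2 := true) (a := 2) (b := 0) (c := 3) (cn := .up) (n1 := ndN6q2) (n2 := ndN2q3) (pc := pcN0) (cut := Cut.none) (xt := Ext.none) (P1 := 1073741824) (W1 := 536870912) (P2 := 1610612736) (W2 := 469762048) (P3 := 1046898278) (W3 := 26843546) (N0 := 3)
    rfl (fun _ => rfl) k0_pp_203

noncomputable def f_pp_213 : ℕ → ℕ → ℕ → ℕ → Bool := onCell 1073741824 536870912 536870912 536870912 1046898278 26843546
    (rowNX 3 1 false true true .pnn 2 1 3 (qsf 1073741824 536870912 1610612736 469762048 1) ndN6q2 ndN2q3 pcN1 Cut.none Ext.none)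

def k0_pp_213 : ∃ t, chk3 f_pp_213 t 1 1 1 = true :=
  ⟨(a (b (a (b (b (a (l 14656704) (l 222427947559)) (a (b (l 14656704) (l 14656704)) (b (l 14816816) (l 14816816)))) (b (a (l 14656704) (l 14816840)) (a (l 14656720) (l 14817000)))) (b (a (b (a (l 228333210439) (l 15487608)) (a (b (l 14679208) (l 14679208)) (l 15487640))) (b (a (l 16284936) (l 16776648)) (a (l 16347960) (l 16776648)))) (a (b (a (l 14679312) (l 15487816)) (a (l 14676704) (l 15459112))) (b (a (l 16345296) (l 16743856)) (a (l 16317280) (l 16720176)))))) (a (b (b (a (l 14644160) (l 14791560)) (a (b (l 14581400) (l 14513720)) (b (l 14819848) (l 14922888)))) (b (a (b (l 14484256) (l 14832616)) (b (l 15261200) (l 2))) (a (b (l 15120472) (l 2)) (l 2)))) (b (b (a (a (l 14659024) (l 15463312)) (a (l 16279224) (l 2))) (a (a (b (l 14759056) (l 2)) (l 2)) (l 2))) (l 2)))) (b (a (b (b (l 259476620199) (a (l 16749152) (l 16727976))) (b (b (l 16709208) (a (l 16720736) (l 2))) (a (l 16594816) (l 2)))) (b (b (b (l 3) (a (l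 16720736) (l 2))) (a (b (l 16659592) (l 2)) (l 2))) (l 2))) (l 2))), by decide +kernel⟩

theorem c_pp_213 : CertNX 1073741824 536870912 1610612736 469762048 1046898278 26843546 3 false true true .pnn 2 1 3
    ndN6q2 ndN2q3 pcN1 Cut.none Ext.none :=
  certNX1 (fam := false) (s1 := true) (s2 := true) (a := 2) (b := 1) (c := 3) (cn := .pnn) (n1 := ndN6q2) (n2 := ndN2q3) (pc := pcN1) (cut := Cut.none) (xt := Ext.none) (P1 := 1073741824) (W1 := 536870912) (P2 := 1610612736) (W2 := 469762048) (P3 := 1046898278) (W3 := 26843546) (N0 := 3)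
    rfl (fun _ => rfl) k0_pp_213

noncomputable def f_pp_303 : ℕ → ℕ → ℕ → ℕ → Bool := onCell 0 1230186008 1610612736 469762048 1046898278 26843546
    (rowNX 3 0 false true true .npn 3 0 3 (qsf 0 1230186008 1610612736 469762048 0) ndN6q3 ndN2q3 pcN0 Cut.none Ext.none)

def k0_pp_303 : ∃ t, chk3 f_pp_303 t 1 1 1 = true :=
  ⟨(a (l 3) (l 3)), by decide +kernel⟩

theorem c_pp_303 : CertNX 0 1230186008 1610612736 469762048 1046898278 26843546 3 false true true .npn 3 0 3
    ndN6q3 ndN2q3 pcN0 Cut.none Ext.none :=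
  certNX0 (fam := false) (s1 := true) (s2 := true) (a := 3) (b := 0) (c := 3) (cn := .npn) (n1 := ndN6q3) (n2 := ndN2q3) (pc := pcN0) (cut := Cut.none) (xt := Ext.none) (P1 := 0) (W1 := 1230186008) (P2 := 1610612736) (W2 := 469762048) (P3 := 1046898278) (W3 := 26843546) (N0 := 3)
    rfl k0_pp_303

noncomputable def f_pp_313 : ℕ → ℕ → ℕ → ℕ → Bool := onCell 0 1230186008 1610612736 469762048 1046898278 26843546
    (rowNX 3 0 false true true .dn 3 1 3 (qsf 0 1230186008 1610612736 469762048 1) ndN6q3 ndN2q3 pcN1 Cut.none Ext.none)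

def k0_pp_313 : ∃ t, chk3 f_pp_313 t 1 1 1 = true :=
  ⟨(l 1), by decide +kernel⟩

theorem c_pp_313 : CertNX 0 1230186008 1610612736 469762048 1046898278 26843546 3 false true true .dn 3 1 3
    ndN6q3 ndN2q3 pcN1 Cut.none Ext.none :=
  certNX0 (fam := false) (s1 := true) (s2 := true) (a := 3) (b := 1) (c := 3) (cn := .dn) (n1 := ndN6q3) (n2 := ndN2q3) (pc := pcN1) (cut := Cut.none) (xt := Ext.none) (P1 := 0) (W1 := 1230186008) (P2 := 1610612736) (W2 := 469762048) (P3 := 1046898278) (W3 := 26843546) (N0 := 3)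
    rfl k0_pp_313

noncomputable def f_pm_001 : ℕ → ℕ → ℕ → ℕ → Bool := onCell 0 536870912 536870912 536870912 1046898278 26843546
    (rowNX 3 0 false true false .up 0 0 1 (qsf 0 536870912 536870912 536870912 0) ndN6q0 ndN2q1 pcN0 Cut.none Ext.none)

def k0_pm_001 : ∃ t, chk3 f_pm_001 t 1 1 1 = true :=
  ⟨(l 4), by decide +kernel⟩

theorem c_pm_001 : CertNX 0 536870912 536870912 536870912 1046898278 26843546 3 false true false .up 0 0 1
    ndN6q0 ndN2q1 pcN0 Cut.none Ext.none :=
  certNX0 (fam := false) (s1 := true) (s2 := false) (a := 0) (b := 0) (c := 1) (cn := .up) (n1 := ndN6q0) (n2 := ndN2q1) (pc := pcN0) (cut := Cut.none) (xt := Ext.none) (P1 := 0) (W1 := 536870912) (P2 := 536870912) (W2 := 536870912) (P3 := 1046898278) (W3 := 26843546) (N0 := 3)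
    rfl k0_pm_001

noncomputable def f_pm_011 : ℕ → ℕ → ℕ → ℕ → Bool := onCell 0 536870912 536870912 536870912 1046898278 26843546
    (rowNX 3 0 false true false .pnn 0 1 1 (qsf 0 536870912 536870912 536870912 1) ndN6q0 ndN2q1 pcN1 Cut.none Ext.none)

def k0_pm_011 : ∃ t, chk3 f_pm_011 t 1 1 1 = true :=
  ⟨(l 4), by decide +kernel⟩

theorem c_pm_011 : CertNX 0 536870912 536870912 536870912 1046898278 26843546 3 false true false .pnn 0 1 1
    ndN6q0 ndN2q1 pcN1 Cut.none Ext.none :=
  certNX0 (fam := false) (s1 := true) (s2 := false) (a := 0) (b := 1) (c := 1) (cn := .pnn) (n1 := ndN6q0) (n2 := ndN2q1) (pc := pcN1) (cut := Cut.none) (xt := Ext.none) (P1 := 0) (W1 := 536870912) (P2 := 536870912) (W2 := 536870912) (P3 := 1046898278) (W3 := 26843546) (N0 := 3)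
    rfl k0_pm_011

noncomputable def f_pm_012_a : ℕ → ℕ → ℕ → ℕ → Bool := onCell 0 536870912 0 420477299 1046898278 26843546
    (rowNX 3 0 false true false .pnp 0 1 2 (qsf 0 536870912 0 420477299 1) ndN6q0 ndN2q2a pcN1 Cut.none Ext.none)

def k0_pm_012_a : ∃ t, chk3 f_pm_012_a t 1 1 1 = true :=
  ⟨(l 4), by decide +kernel⟩

theorem c_pm_012_a : CertNX 0 536870912 0 420477299 1046898278 26843546 3 false true false .pnp 0 1 2
    ndN6q0 ndN2q2a pcN1 Cut.none Ext.none :=
  certNX0 (fam := false) (s1 := true) (s2 := false) (a := 0) (b := 1) (c := 2) (cn := .pnp) (n1 := ndN6q0) (n2 := ndN2q2a) (pc := pcN1) (cut := Cut.none) (xt := Ext.none) (P1 := 0) (W1 := 536870912) (P2 := 0) (W2 := 420477299) (P3 := 1046898278) (W3 := 26843546) (N0 := 3)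
    rfl k0_pm_012_a

noncomputable def f_pm_012_b : ℕ → ℕ → ℕ → ℕ → Bool := onCell 0 536870912 1239849684 370763052 1046898278 26843546
    (rowNX 3 0 false true false .pnp 0 1 2 (qsf 0 536870912 1239849684 370763052 1) ndN6q0 ndN2q2b pcN1 Cut.none Ext.none)

def k0_pm_012_b : ∃ t, chk3 f_pm_012_b t 1 1 1 = true :=
  ⟨(l 4), by decide +kernel⟩

theorem c_pm_012_b : CertNX 0 536870912 1239849684 370763052 1046898278 26843546 3 false true false .pnp 0 1 2
    ndN6q0 ndN2q2b pcN1 Cut.none Ext.none :=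
  certNX0 (fam := false) (s1 := true) (s2 := false) (a := 0) (b := 1) (c := 2) (cn := .pnp) (n1 := ndN6q0) (n2 := ndN2q2b) (pc := pcN1) (cut := Cut.none) (xt := Ext.none) (P1 := 0) (W1 := 536870912) (P2 := 1239849684) (W2 := 370763052) (P3 := 1046898278) (W3 := 26843546) (N0 := 3)
    rfl k0_pm_012_b

noncomputable def f_pm_022_a : ℕ → ℕ → ℕ → ℕ → Bool := onCell 0 536870912 0 420477299 1046898278 26843546
    (rowNX 3 0 false true false .pp 0 2 2 (qsf 0 536870912 0 420477299 2) ndN6q0 ndN2q2a pcN2 Cut.none Ext.none)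

def k0_pm_022_a : ∃ t, chk3 f_pm_022_a t 1 1 1 = true :=
  ⟨(l 4), by decide +kernel⟩

theorem c_pm_022_a : CertNX 0 536870912 0 420477299 1046898278 26843546 3 false true false .pp 0 2 2
    ndN6q0 ndN2q2a pcN2 Cut.none Ext.none :=
  certNX0 (fam := false) (s1 := true) (s2 := false) (a := 0) (b := 2) (c := 2) (cn := .pp) (n1 := ndN6q0) (n2 := ndN2q2a) (pc := pcN2) (cut := Cut.none) (xt := Ext.none) (P1 := 0) (W1 := 536870912) (P2 := 0) (W2 := 420477299) (P3 := 1046898278) (W3 := 26843546) (N0 := 3)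
    rfl k0_pm_022_a

noncomputable def f_pm_022_b : ℕ → ℕ → ℕ → ℕ → Bool := onCell 0 536870912 1239849684 370763052 1046898278 26843546
    (rowNX 3 0 false true false .pp 0 2 2 (qsf 0 536870912 1239849684 370763052 2) ndN6q0 ndN2q2b pcN2 Cut.none Ext.none)

def k0_pm_022_b : ∃ t, chk3 f_pm_022_b t 1 1 1 = true :=
  ⟨(l 4), by decide +kernel⟩

theorem c_pm_022_b : CertNX 0 536870912 1239849684 370763052 1046898278 26843546 3 false true false .pp 0 2 2
    ndN6q0 ndN2q2b pcN2 Cut.none Ext.none :=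
  certNX0 (fam := false) (s1 := true) (s2 := false) (a := 0) (b := 2) (c := 2) (cn := .pp) (n1 := ndN6q0) (n2 := ndN2q2b) (pc := pcN2) (cut := Cut.none) (xt := Ext.none) (P1 := 0) (W1 := 536870912) (P2 := 1239849684) (W2 := 370763052) (P3 := 1046898278) (W3 := 26843546) (N0 := 3)
    rfl k0_pm_022_b

noncomputable def f_pm_023 : ℕ → ℕ → ℕ → ℕ → Bool := onCell 0 536870912 1610612736 469762048 1046898278 26843546
    (rowNX 3 0 false true false .up 0 2 3 (qsf 0 536870912 1610612736 469762048 2) ndN6q0 ndN2q3 pcN2 Cut.none Ext.none)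

def k0_pm_023 : ∃ t, chk3 f_pm_023 t 1 1 1 = true :=
  ⟨(l 4), by decide +kernel⟩

theorem c_pm_023 : CertNX 0 536870912 1610612736 469762048 1046898278 26843546 3 false true false .up 0 2 3
    ndN6q0 ndN2q3 pcN2 Cut.none Ext.none :=
  certNX0 (fam := false) (s1 := true) (s2 := false) (a := 0) (b := 2) (c := 3) (cn := .up) (n1 := ndN6q0) (n2 := ndN2q3) (pc := pcN2) (cut := Cut.none) (xt := Ext.none) (P1 := 0) (W1 := 536870912) (P2 := 1610612736) (W2 := 469762048) (P3 := 1046898278) (W3 := 26843546) (N0 := 3)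
    rfl k0_pm_023

noncomputable def f_pm_033 : ℕ → ℕ → ℕ → ℕ → Bool := onCell 0 536870912 1610612736 469762048 1046898278 26843546
    (rowNX 3 0 false true false .pnn 0 3 3 (qsf 0 536870912 1610612736 469762048 3) ndN6q0 ndN2q3 pcN3 Cut.none Ext.none)

def k0_pm_033 : ∃ t, chk3 f_pm_033 t 1 1 1 = true :=
  ⟨(l 4), by decide +kernel⟩

theorem c_pm_033 : CertNX 0 536870912 1610612736 469762048 1046898278 26843546 3 false true false .pnn 0 3 3
    ndN6q0 ndN2q3 pcN3 Cut.none Ext.none :=
  certNX0 (fam := false) (s1 := true) (s2 := false) (a := 0) (b := 3) (c := 3) (cn := .pnn) (n1 := ndN6q0) (n2 := ndN2q3) (pc := pcN3) (cut := Cut.none) (xt := Ext.none) (P1 := 0) (W1 := 536870912) (P2 := 1610612736) (W2 := 469762048) (P3 := 1046898278) (W3 := 26843546) (N0 := 3)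
    rfl k0_pm_033

noncomputable def f_pm_101 : ℕ → ℕ → ℕ → ℕ → Bool := onCell 536870912 469762048 536870912 536870912 1046898278 26843546
    (rowNX 3 0 false true false .npn 1 0 1 (qsf 536870912 469762048 536870912 536870912 0) ndN6q1 ndN2q1 pcN0 Cut.none Ext.none)

def k0_pm_101 : ∃ t, chk3 f_pm_101 t 1 1 1 = true :=
  ⟨(l 4), by decide +kernel⟩

theorem c_pm_101 : CertNX 536870912 469762048 536870912 536870912 1046898278 26843546 3 false true false .npn 1 0 1
    ndN6q1 ndN2q1 pcN0 Cut.none Ext.none :=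
  certNX0 (fam := false) (s1 := true) (s2 := false) (a := 1) (b := 0) (c := 1) (cn := .npn) (n1 := ndN6q1) (n2 := ndN2q1) (pc := pcN0) (cut := Cut.none) (xt := Ext.none) (P1 := 536870912) (W1 := 469762048) (P2 := 536870912) (W2 := 536870912) (P3 := 1046898278) (W3 := 26843546) (N0 := 3)
    rfl k0_pm_101

noncomputable def f_pm_102_a : ℕ → ℕ → ℕ → ℕ → Bool := onCell 536870912 469762048 0 420477299 1046898278 26843546
    (rowNX 3 0 false true false .npp 1 0 2 (qsf 536870912 469762048 0 420477299 0) ndN6q1 ndN2q2a pcN0 Cut.none Ext.none)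

def k0_pm_102_a : ∃ t, chk3 f_pm_102_a t 1 1 1 = true :=
  ⟨(l 4), by decide +kernel⟩

theorem c_pm_102_a : CertNX 536870912 469762048 0 420477299 1046898278 26843546 3 false true false .npp 1 0 2
    ndN6q1 ndN2q2a pcN0 Cut.none Ext.none :=
  certNX0 (fam := false) (s1 := true) (s2 := false) (a := 1) (b := 0) (c := 2) (cn := .npp) (n1 := ndN6q1) (n2 := ndN2q2a) (pc := pcN0) (cut := Cut.none) (xt := Ext.none) (P1 := 536870912) (W1 := 469762048) (P2 := 0) (W2 := 420477299) (P3 := 1046898278) (W3 := 26843546) (N0 := 3)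
    rfl k0_pm_102_a

noncomputable def f_pm_102_b : ℕ → ℕ → ℕ → ℕ → Bool := onCell 536870912 469762048 1239849684 370763052 1046898278 26843546
    (rowNX 3 0 false true false .npp 1 0 2 (qsf 536870912 469762048 1239849684 370763052 0) ndN6q1 ndN2q2b pcN0 Cut.none Ext.none)

def k0_pm_102_b : ∃ t, chk3 f_pm_102_b t 1 1 1 = true :=
  ⟨(l 4), by decide +kernel⟩

theorem c_pm_102_b : CertNX 536870912 469762048 1239849684 370763052 1046898278 26843546 3 false true false .npp 1 0 2
    ndN6q1 ndN2q2b pcN0 Cut.none Ext.none :=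
  certNX0 (fam := false) (s1 := true) (s2 := false) (a := 1) (b := 0) (c := 2) (cn := .npp) (n1 := ndN6q1) (n2 := ndN2q2b) (pc := pcN0) (cut := Cut.none) (xt := Ext.none) (P1 := 536870912) (W1 := 469762048) (P2 := 1239849684) (W2 := 370763052) (P3 := 1046898278) (W3 := 26843546) (N0 := 3)
    rfl k0_pm_102_b

noncomputable def f_pm_112_a : ℕ → ℕ → ℕ → ℕ → Bool := onCell 536870912 469762048 0 420477299 1046898278 26843546
    (rowNX 3 0 false true false .dn 1 1 2 (qsf 536870912 469762048 0 420477299 1) ndN6q1 ndN2q2a pcN1 Cut.none Ext.none)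

def k0_pm_112_a : ∃ t, chk3 f_pm_112_a t 1 1 1 = true :=
  ⟨(l 4), by decide +kernel⟩

theorem c_pm_112_a : CertNX 536870912 469762048 0 420477299 1046898278 26843546 3 false true false .dn 1 1 2
    ndN6q1 ndN2q2a pcN1 Cut.none Ext.none :=
  certNX0 (fam := false) (s1 := true) (s2 := false) (a := 1) (b := 1) (c := 2) (cn := .dn) (n1 := ndN6q1) (n2 := ndN2q2a) (pc := pcN1) (cut := Cut.none) (xt := Ext.none) (P1 := 536870912) (W1 := 469762048) (P2 := 0) (W2 := 420477299) (P3 := 1046898278) (W3 := 26843546) (N0 := 3)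
    rfl k0_pm_112_a

noncomputable def f_pm_112_b : ℕ → ℕ → ℕ → ℕ → Bool := onCell 536870912 469762048 1239849684 370763052 1046898278 26843546
    (rowNX 3 0 false true false .dn 1 1 2 (qsf 536870912 469762048 1239849684 370763052 1) ndN6q1 ndN2q2b pcN1 Cut.none Ext.none)

def k0_pm_112_b : ∃ t, chk3 f_pm_112_b t 1 1 1 = true :=
  ⟨(l 4), by decide +kernel⟩

theorem c_pm_112_b : CertNX 536870912 469762048 1239849684 370763052 1046898278 26843546 3 false true false .dn 1 1 2
    ndN6q1 ndN2q2b pcN1 Cut.none Ext.none :=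
  certNX0 (fam := false) (s1 := true) (s2 := false) (a := 1) (b := 1) (c := 2) (cn := .dn) (n1 := ndN6q1) (n2 := ndN2q2b) (pc := pcN1) (cut := Cut.none) (xt := Ext.none) (P1 := 536870912) (W1 := 469762048) (P2 := 1239849684) (W2 := 370763052) (P3 := 1046898278) (W3 := 26843546) (N0 := 3)
    rfl k0_pm_112_b

noncomputable def f_pm_113 : ℕ → ℕ → ℕ → ℕ → Bool := onCell 536870912 469762048 1610612736 469762048 1046898278 26843546
    (rowNX 3 0 false true false .nn 1 1 3 (qsf 536870912 469762048 1610612736 469762048 1) ndN6q1 ndN2q3 pcN1 Cut.none Ext.none)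

def k0_pm_113 : ∃ t, chk3 f_pm_113 t 1 1 1 = true :=
  ⟨(l 4), by decide +kernel⟩

theorem c_pm_113 : CertNX 536870912 469762048 1610612736 469762048 1046898278 26843546 3 false true false .nn 1 1 3
    ndN6q1 ndN2q3 pcN1 Cut.none Ext.none :=
  certNX0 (fam := false) (s1 := true) (s2 := false) (a := 1) (b := 1) (c := 3) (cn := .nn) (n1 := ndN6q1) (n2 := ndN2q3) (pc := pcN1) (cut := Cut.none) (xt := Ext.none) (P1 := 536870912) (W1 := 469762048) (P2 := 1610612736) (W2 := 469762048) (P3 := 1046898278) (W3 := 26843546) (N0 := 3)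
    rfl k0_pm_113

noncomputable def f_pm_123 : ℕ → ℕ → ℕ → ℕ → Bool := onCell 536870912 469762048 1610612736 469762048 1046898278 26843546
    (rowNX 3 0 false true false .npn 1 2 3 (qsf 536870912 469762048 1610612736 469762048 2) ndN6q1 ndN2q3 pcN2 Cut.none Ext.none)

def k0_pm_123 : ∃ t, chk3 f_pm_123 t 1 1 1 = true :=
  ⟨(l 4), by decide +kernel⟩

theorem c_pm_123 : CertNX 536870912 469762048 1610612736 469762048 1046898278 26843546 3 false true false .npn 1 2 3
    ndN6q1 ndN2q3 pcN2 Cut.none Ext.none :=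
  certNX0 (fam := false) (s1 := true) (s2 := false) (a := 1) (b := 2) (c := 3) (cn := .npn) (n1 := ndN6q1) (n2 := ndN2q3) (pc := pcN2) (cut := Cut.none) (xt := Ext.none) (P1 := 536870912) (W1 := 469762048) (P2 := 1610612736) (W2 := 469762048) (P3 := 1046898278) (W3 := 26843546) (N0 := 3)
    rfl k0_pm_123

noncomputable def f_pm_133 : ℕ → ℕ → ℕ → ℕ → Bool := onCell 536870912 469762048 1610612736 469762048 1046898278 26843546
    (rowNX 3 0 false true false .dn 1 3 3 (qsf 536870912 469762048 1610612736 469762048 3) ndN6q1 ndN2q3 pcN3 Cut.none Ext.none)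

def k0_pm_133 : ∃ t, chk3 f_pm_133 t 1 1 1 = true :=
  ⟨(l 1), by decide +kernel⟩

theorem c_pm_133 : CertNX 536870912 469762048 1610612736 469762048 1046898278 26843546 3 false true false .dn 1 3 3
    ndN6q1 ndN2q3 pcN3 Cut.none Ext.none :=
  certNX0 (fam := false) (s1 := true) (s2 := false) (a := 1) (b := 3) (c := 3) (cn := .dn) (n1 := ndN6q1) (n2 := ndN2q3) (pc := pcN3) (cut := Cut.none) (xt := Ext.none) (P1 := 536870912) (W1 := 469762048) (P2 := 1610612736) (W2 := 469762048) (P3 := 1046898278) (W3 := 26843546) (N0 := 3)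
    rfl k0_pm_133

noncomputable def f_pm_202_a : ℕ → ℕ → ℕ → ℕ → Bool := onCell 0 536870912 0 420477299 1046898278 26843546
    (rowNX 3 2 false true false .pp 2 0 2 (qsf 1073741824 536870912 0 420477299 0) ndN6q2 ndN2q2a pcN0 Cut.none Ext.none)

def k0_pm_202_a : ∃ t, chk3 f_pm_202_a t 8 2 1 = true :=
  ⟨(a (a (c (b (a (l 16069832) (a (c (b (l 16032504) (l 15954832)) (l 15903120)) (c (l 15936984) (l 15833000)))) (a (b (l 15793792) (l 15825736)) (a (b (c (l 15880392) (l 15871216)) (l 15633232)) (c (l 15889768) (l 15888096))))) (a (b (c (a (l 16215344) (b (l 16097512) (l 15981600))) (a (c (l 16205016) (b (l 16250976) (l 16154888))) (l 16076824))) (c (a (b (l 15962728) (l 15785472)) (b (a (l 15885544) (l 15860704)) (l 15796352))) (a (a (b (l 15887280) (l 15528808)) (b (l 15701440) (l 15654344))) (b (l 15866832) (l 15779728))))) (b (c (a (l 15812960) (l 15916496)) (l 15935272)) (c (b (l 15870880) (l 15836352)) (l 15834080))))) (c (b (a (c (a (l 15945240) (l 15979440)) (l 15857184))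 (l 15992664)) (a (c (l 15777648) (l 15925488)) (l 15979664))) (b (b (l 15909496) (l 15919888)) (l 15820376)))) (c (b (a (l 15995232) (c (l 16111248) (l 16094952))) (a (c (l 16044232) (l 16013864)) (c (b (l 16119128) (l 16073408)) (l 16074128)))) (b (l 16018400) (a (l 15989128) (l 16058416))))), by decide +kernel⟩

def k1_pm_202_a : ∃ t, chk3 f_pm_202_a t 8 3 1 = true :=
  ⟨(b (a (a (b (c (a (l 15776680) (c (a (l 15806048) (l 15834272)) (a (l 15794584) (l 15830312)))) (a (c (a (l 15732920) (b (l 15764176) (l 15739800))) (a (c (l 15716120) (a (l 15699368) (l 15711696))) (l 15735776))) (c (l 15794000) (l 15768608)))) (c (a (l 15716560) (l 15677232)) (a (c (l 15682520) (l 15513240)) (l 15725648)))) (c (b (a (c (l 15889832) (l 15869032)) (l 15926048)) (l 15625936)) (b (l 15848768) (l 15784528)))) (b (c (a (c (l 15983448) (l 15953136)) (c (l 15839152) (l 15925096))) (a (l 15926736) (l 15904744))) (a (l 15651944) (l 15681872)))) (a (a (c (b (a (l 15574184) (a (l 15594232) (l 15350704)))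 (a (l 15098888) (c (l 15057488) (l 15031248)))) (b (a (c (l 15305776) (a (l 15353344) (l 15525888))) (c (l 15565368) (l 15536528))) (a (c (a (l 15062208) (l 15038624)) (a (c (l 15036832) (l 15020128)) (l 15008000))) (c (l 15000512) (l 14962192))))) (c (b (b (l 15493432) (l 15457096)) (a (l 14978072) (l 14941912))) (b (l 15515608) (l 14887856)))) (b (c (a (l 15461888) (l 15323696)) (l 15338120)) (c (a (l 14837584) (l 14697944)) (l 14690896))))), by decide +kernel⟩

def k2_pm_202_a : ∃ t, chk3 f_pm_202_a t 9 1 1 = true :=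
  ⟨(b (a (b (a (c (l 16139616) (l 16122096)) (l 16008960)) (a (b (l 15954072) (l 15925584)) (l 15907632))) (b (l 15741096) (l 15528992))) (b (a (a (b (l 15616832) (l 15560296)) (l 15574616)) (a (l 15408760) (l 15299704))) (a (b (a (l 15172984) (l 15062592)) (c (l 14516912) (l 14437808))) (b (l 14868168) (l 1))))), by decide +kernel⟩

def k3_pm_202_a : ∃ t, chk3 f_pm_202_a t 5 1 1 = true :=
  ⟨(a (b (b (l 15133448) (a (l 15350976) (l 1))) (b (a (l 15056776) (l 1)) (l 1))) (l 1)), by decide +kernel⟩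

def k4_pm_202_a : ∃ t, chk3 f_pm_202_a t 3 1 1 = true :=
  ⟨(l 1), by decide +kernel⟩

theorem s5_pm_202_a : ∃ t, chk3 f_pm_202_a t 8 1 1 = true := ex3_b k0_pm_202_a k1_pm_202_a

theorem s6_pm_202_a : ∃ t, chk3 f_pm_202_a t 4 1 1 = true := ex3_a s5_pm_202_a k2_pm_202_a

theorem s7_pm_202_a : ∃ t, chk3 f_pm_202_a t 2 1 1 = true := ex3_a s6_pm_202_a k3_pm_202_a

theorem s8_pm_202_a : ∃ t, chk3 f_pm_202_a t 1 1 1 = true := ex3_a s7_pm_202_a k4_pm_202_a

theorem c_pm_202_a : CertNX 1073741824 536870912 0 420477299 1046898278 26843546 3 false true false .pp 2 0 2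
    ndN6q2 ndN2q2a pcN0 Cut.none Ext.none :=
  certNX2 (fam := false) (s1 := true) (s2 := false) (a := 2) (b := 0) (c := 2) (cn := .pp) (n1 := ndN6q2) (n2 := ndN2q2a) (pc := pcN0) (cut := Cut.none) (xt := Ext.none) (P1 := 1073741824) (W1 := 536870912) (P2 := 0) (W2 := 420477299) (P3 := 1046898278) (W3 := 26843546) (N0 := 3)
    rfl (fun _ => rfl) s8_pm_202_a

noncomputable def f_pm_202_b : ℕ → ℕ → ℕ → ℕ → Bool := onCell 0 536870912 1239849684 370763052 1046898278 26843546
    (rowNX 3 2 false true false .pp 2 0 2 (qsf 1073741824 536870912 1239849684 370763052 0) ndN6q2 ndN2q2b pcN0 Cut.none Ext.none)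

def k0_pm_202_b : ∃ t, chk3 f_pm_202_b t 8 2 1 = true :=
  ⟨(c (a (b (a (b (a (b (l 16407408) (l 16013248)) (a (b (c (l 16302744) (l 16302696)) (l 16180320)) (c (l 16283768) (b (l 16198016) (l 16288824))))) (a (b (l 15514464) (l 15176968)) (b (c (l 15638768) (l 15530896)) (a (l 15265536) (l 15101136))))) (b (a (b (c (a (l 16107792) (l 15870464)) (a (l 16099080) (l 16010160))) (c (l 16444416) (l 16454312))) (b (l 15699312) (l 16277656))) (a (b (l 15782416) (l 15190400)) (l 15694768)))) (a (a (l 15021120) (c (l 15097176) (l 15058840))) (a (l 15093416) (l 15146904)))) (b (b (a (b (l 15731248) (a (l 16027288) (l 15644800))) (b (l 15883992) (a (l 15714312) (l 15672920)))) (a (b (l 16300240) (l 16008344)) (b (a (l 16012704) (l 15773048)) (l 16295480)))) (b (a (b (l 15506288) (l 15270952)) (b (l 15927472) (l 15504632))) (l 15257584)))) (b (a (a (b (a (c (a (l 16219600) (b (l 16269512) (l 16075208))) (a (c (l 16095984) (a (l 16108024) (l 16251944))) (l 16151848))) (c (b (l 16073304)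 (l 16241696)) (l 16307208))) (a (c (b (l 15267576) (l 15087904)) (a (b (l 15237152) (l 15101208)) (b (l 15543104) (l 15144032)))) (c (b (l 15725760) (l 15264720)) (l 15430720)))) (b (b (a (b (l 15922480) (l 16105216)) (l 15891464)) (l 16232960)) (b (l 16085992) (l 15554448)))) (b (a (b (l 15852376) (l 15802024)) (l 15741880)) (a (l 16284608) (b (l 15869464) (l 16413048))))) (a (a (a (c (l 14991952) (a (l 14959208) (l 14979344))) (l 14998704)) (l 15116552)) (b (a (l 15394352) (l 15696168)) (l 15226928))))), by decide +kernel⟩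

def k1_pm_202_b : ∃ t, chk3 f_pm_202_b t 9 2 1 = true :=
  ⟨(b (a (b (a (c (l 15838048) (l 15810080)) (l 15797552)) (a (b (a (l 15546888) (l 15439920)) (l 15666216)) (b (l 15384784) (l 15418896)))) (b (a (l 15650088) (l 15615272)) (a (l 15282504) (l 15314280)))) (a (b (a (a (l 16016088) (l 16283968)) (l 16122344)) (a (l 15528608) (l 15891112))) (b (b (a (l 15392896) (l 15108592)) (a (l 15966472) (l 15456680))) (a (l 16308920) (l 16338768))))), by decide +kernel⟩

def k2_pm_202_b : ∃ t, chk3 f_pm_202_b t 5 2 1 = true :=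
  ⟨(a (b (b (l 15196224) (a (l 15275496) (l 15057048))) (b (a (l 14937872) (l 15045856)) (a (b (l 15345528) (l 15903568)) (b (l 14880216) (l 15033784))))) (b (a (l 459053408775) (l 450462825799)) (a (l 14834024) (l 14724712)))), by decide +kernel⟩

def k3_pm_202_b : ∃ t, chk3 f_pm_202_b t 3 2 1 = true :=
  ⟨(a (b (l 1) (a (l 14471040) (l 455830962599))) (l 1)), by decide +kernel⟩

def k4_pm_202_b : ∃ t, chk3 f_pm_202_b t 1 3 1 = true :=
  ⟨(b (a (a (a (a (a (c (a (l 14787936) (l 14850616)) (a (c (l 14754920) (l 14730576)) (l 14786696))) (c (l 14901144) (l 14884336))) (c (l 15106232) (l 15072520))) (a (l 15534040) (l 16051640))) (a (b (a (b (l 16467720) (l 16376984)) (l 15701104)) (a (l 16277472) (a (l 16489584) (l 16599968)))) (a (b (b (l 14788912) (l 15131440)) (a (l 16245088) (l 15779992))) (b (a (l 14686440) (l 14751368)) (b (l 14875432) (l 15390088)))))) (a (a (b (l 14774584) (a (l 14758616) (l 14794496))) (l 14606088)) (l 416639218567))) (a (a (a (a (b (a (c (l 14615704)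 (l 14459448)) (l 14685808)) (c (a (a (l 14437040) (c (l 14543576) (l 14492696))) (a (l 14540424) (l 14599168))) (a (a (c (l 14336384) (a (l 14270560) (l 14383728))) (c (l 14455064) (l 14441032))) (l 14559144)))) (c (a (l 14602952) (c (l 14929880) (l 14947568))) (a (l 14727096) (l 14888320)))) (a (a (c (l 15242856) (l 15177712)) (l 15584440)) (a (a (l 15924000) (l 16043760)) (l 16146096)))) (a (a (l 16347664) (l 16636264)) (a (b (l 16706344) (l 16708800)) (b (a (l 16422280) (l 16079024)) (l 16749688))))) (a (a (b (a (l 15352992) (l 14858064)) (a (l 16445600) (l 15763056))) (b (l 14781184) (a (l 15026576) (l 14733344)))) (a (l 14681008) (l 14369760))))), by decide +kernel⟩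

theorem s5_pm_202_b : ∃ t, chk3 f_pm_202_b t 4 2 1 = true := ex3_a k0_pm_202_b k1_pm_202_b

theorem s6_pm_202_b : ∃ t, chk3 f_pm_202_b t 2 2 1 = true := ex3_a s5_pm_202_b k2_pm_202_b

theorem s7_pm_202_b : ∃ t, chk3 f_pm_202_b t 1 2 1 = true := ex3_a s6_pm_202_b k3_pm_202_b

theorem s8_pm_202_b : ∃ t, chk3 f_pm_202_b t 1 1 1 = true := ex3_b s7_pm_202_b k4_pm_202_b

theorem c_pm_202_b : CertNX 1073741824 536870912 1239849684 370763052 1046898278 26843546 3 false true false .pp 2 0 2
    ndN6q2 ndN2q2b pcN0 Cut.none Ext.none :=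
  certNX2 (fam := false) (s1 := true) (s2 := false) (a := 2) (b := 0) (c := 2) (cn := .pp) (n1 := ndN6q2) (n2 := ndN2q2b) (pc := pcN0) (cut := Cut.none) (xt := Ext.none) (P1 := 1073741824) (W1 := 536870912) (P2 := 1239849684) (W2 := 370763052) (P3 := 1046898278) (W3 := 26843546) (N0 := 3)
    rfl (fun _ => rfl) s8_pm_202_b

noncomputable def f_pm_203 : ℕ → ℕ → ℕ → ℕ → Bool := onCell 1073741824 536870912 0 536870912 1046898278 26843546
    (rowNX 3 1 false true false .up 2 0 3 (qsf 1073741824 536870912 1610612736 469762048 0) ndN6q2 ndN2q3 pcN0 Cut.none Ext.none)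

def k0_pm_203 : ∃ t, chk3 f_pm_203 t 1 1 1 = true :=
  ⟨(a (b (b (l 1) (a (l 1) (b (l 1) (b (l 1) (a (l 1) (l 16484096)))))) (a (b (b (l 1) (l 348995064343)) (a (l 14656704) (l 14816816))) (a (b (b (l 14903904) (l 330742163783)) (l 256117065079)) (b (a (l 16347856) (l 16776616)) (l 16567944))))) (a (b (b (b (l 1) (b (l 1) (b (l 1) (l 16148112)))) (b (b (b (l 16282184) (l 245919854519)) (l 16630672)) (b (l 16728616) (l 16777120)))) (b (l 16777216) (l 16777072))) (b (b (b (b (a (l 1) (b (a (l 1) (c (b (l 14408520) (l 14279640)) (b (c (l 14369672) (b (l 14330936) (l 14343416))) (l 14370536)))) (c (b (a (l 1) (l 14443712)) (l 14468656)) (l 14521520)))) (c (b (a (l 1) (l 14594784)) (c (a (l 14966112) (l 14744696)) (l 14478864))) (a (l 189544555463) (b (l 14520816) (l 14638376))))) (b (b (c (a (l 15154448) (l 15098888)) (a (l 15166656) (l 15027872))) (a (l 15570648) (a (l 15386616) (a (l 15698712) (b (l 15344056) (l 15991312)))))) (b (b (a (b (l 15870624) (l 16129760)) (a (l 16015144)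 (a (l 16325080) (l 16340184)))) (a (l 16177896) (l 16413704))) (a (l 16297408) (a (l 16512264) (l 16429576)))))) (b (a (b (l 16489632) (l 16622056)) (b (a (l 16664520) (l 16347000)) (a (l 16634472) (l 16358032)))) (b (a (l 16762768) (l 16618752)) (l 16771352)))) (b (b (l 16777200) (l 16777056)) (b (a (l 16777016) (l 16749152)) (a (l 16749152) (l 16727976))))))), by decide +kernel⟩

theorem c_pm_203 : CertNX 1073741824 536870912 1610612736 469762048 1046898278 26843546 3 false true false .up 2 0 3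
    ndN6q2 ndN2q3 pcN0 Cut.none Ext.none :=
  certNX1 (fam := false) (s1 := true) (s2 := false) (a := 2) (b := 0) (c := 3) (cn := .up) (n1 := ndN6q2) (n2 := ndN2q3) (pc := pcN0) (cut := Cut.none) (xt := Ext.none) (P1 := 1073741824) (W1 := 536870912) (P2 := 1610612736) (W2 := 469762048) (P3 := 1046898278) (W3 := 26843546) (N0 := 3)
    rfl (fun _ => rfl) k0_pm_203

noncomputable def f_pm_213 : ℕ → ℕ → ℕ → ℕ → Bool := onCell 1073741824 536870912 1610612736 469762048 1046898278 26843546
    (rowNX 3 0 false true false .pnn 2 1 3 (qsf 1073741824 536870912 1610612736 469762048 1) ndN6q2 ndN2q3 pcN1 Cut.none Ext.none)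

def k0_pm_213 : ∃ t, chk3 f_pm_213 t 1 1 1 = true :=
  ⟨(b (a (b (a (l 14737424) (l 1)) (a (l 14737424) (a (a (l 14679208) (l 15487608)) (l 16567944)))) (l 1)) (a (a (b (a (l 14633528) (l 14816760)) (a (b (a (l 14327592) (l 14698496)) (a (l 14187624) (l 14702752))) (b (l 14812568) (a (l 14943144) (l 14776584))))) (a (b (l 15092592) (a (l 14706872) (l 15513256))) (b (l 16567888) (l 16467376)))) (a (a (l 16957192) (b (l 16777160) (c (l 16748264) (l 16747248)))) (b (l 1) (c (a (l 16748264) (l 16748264)) (a (l 16747248) (l 16747248))))))), by decide +kernel⟩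

theorem c_pm_213 : CertNX 1073741824 536870912 1610612736 469762048 1046898278 26843546 3 false true false .pnn 2 1 3
    ndN6q2 ndN2q3 pcN1 Cut.none Ext.none :=
  certNX0 (fam := false) (s1 := true) (s2 := false) (a := 2) (b := 1) (c := 3) (cn := .pnn) (n1 := ndN6q2) (n2 := ndN2q3) (pc := pcN1) (cut := Cut.none) (xt := Ext.none) (P1 := 1073741824) (W1 := 536870912) (P2 := 1610612736) (W2 := 469762048) (P3 := 1046898278) (W3 := 26843546) (N0 := 3)
    rfl k0_pm_213

noncomputable def f_pm_303 : ℕ → ℕ → ℕ → ℕ → Bool := onCell 0 1230186008 0 536870912 1046898278 26843546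
    (rowNX 3 1 false true false .npn 3 0 3 (qsf 0 1230186008 1610612736 469762048 0) ndN6q3 ndN2q3 pcN0 Cut.none Ext.none)

def k0_pm_303 : ∃ t, chk3 f_pm_303 t 2 1 1 = true :=
  ⟨(a (l 2) (b (b (l 3) (l 2)) (l 2))), by decide +kernel⟩

def k1_pm_303 : ∃ t, chk3 f_pm_303 t 3 2 1 = true :=
  ⟨(a (l 3) (a (l 3) (a (a (l 3) (b (a (l 3) (b (b (c (b (b (l 14069352) (b (l 14116216) (l 14146128))) (c (l 14262976) (l 14237792))) (b (c (b (l 14002792) (l 14081304)) (b (c (l 13970928) (b (l 13928464) (l 13961720))) (c (b (l 14027712) (l 14071600)) (l 14025112)))) (c (b (c (l 14171656) (l 14150720)) (l 14197248)) (l 14145376)))) (a (l 3) (c (b (c (l 14418152) (c (b (l 14377376) (l 14436112)) (l 14368544))) (b (l 14498672) (l 3))) (l 14366336)))) (l 3))) (l 3))) (b (b (b (a (c (b (b (l 14114536) (c (l 14174456) (l 14138272))) (c (l 14273896) (b (l 14222912) (l 14288232)))) (b (c (b (l 14084288) (l 14109352)) (b (b (l 14042400) (l 14058232)) (b (l 14073736) (l 14091480)))) (c (b (c (l 14199664)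 (l 14180616)) (l 14252520)) (l 14161456)))) (c (b (b (l 14249120) (c (l 14314512) (l 14274280))) (c (b (l 14331448) (l 14380432)) (l 14330280))) (b (b (c (l 14231928) (l 14201280)) (l 14241440)) (l 14290736)))) (c (b (c (a (l 14444392) (l 14498832)) (b (c (l 14409032) (l 14274408)) (c (l 14354376) (l 14437848)))) (c (c (b (l 14607512) (b (l 14652392) (l 14652360))) (b (l 14569064) (l 14619096))) (l 14551304))) (a (l 14405112) (b (l 14396208) (l 14565592))))) (b (b (b (c (l 14493720) (l 14568936)) (c (a (l 252492868055) (l 15158632)) (a (l 14616992) (l 15101712)))) (a (a (l 14861320) (c (l 15138240) (l 15080648))) (a (l 15364304) (c (l 15706672) (l 15669040))))) (b (a (b (a (l 15141816) (l 15315104)) (l 15398080)) (b (c (l 15747480) (l 15711288)) (l 15765536))) (a (l 15558792) (l 15791240))))) (b (a (l 269674912183) (b (b (l 15859856) (l 15965352)) (l 16216184))) (b (b (l 16451512) (l 16625368)) (l 16765600))))))), by decide +kernel⟩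

def k2_pm_303 : ∃ t, chk3 f_pm_303 t 3 3 1 = true :=
  ⟨(a (l 2) (a (b (l 3) (l 2)) (a (l 3) (b (b (l 16777008) (l 298668140647)) (b (l 3) (l 3)))))), by decide +kernel⟩

theorem s3_pm_303 : ∃ t, chk3 f_pm_303 t 3 1 1 = true := ex3_b k1_pm_303 k2_pm_303

theorem s4_pm_303 : ∃ t, chk3 f_pm_303 t 1 1 1 = true := ex3_a k0_pm_303 s3_pm_303

theorem c_pm_303 : CertNX 0 1230186008 1610612736 469762048 1046898278 26843546 3 false true false .npn 3 0 3
    ndN6q3 ndN2q3 pcN0 Cut.none Ext.none :=
  certNX1 (fam := false) (s1 := true) (s2 := false) (a := 3) (b := 0) (c := 3) (cn := .npn) (n1 := ndN6q3) (n2 := ndN2q3) (pc := pcN0) (cut := Cut.none) (xt := Ext.none) (P1 := 0) (W1 := 1230186008) (P2 := 1610612736) (W2 := 469762048) (P3 := 1046898278) (W3 := 26843546) (N0 := 3)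
    rfl (fun _ => rfl) s4_pm_303

noncomputable def f_pm_313 : ℕ → ℕ → ℕ → ℕ → Bool := onCell 0 1230186008 1610612736 469762048 1046898278 26843546
    (rowNX 3 0 false true false .dn 3 1 3 (qsf 0 1230186008 1610612736 469762048 1) ndN6q3 ndN2q3 pcN1 Cut.none Ext.none)

def k0_pm_313 : ∃ t, chk3 f_pm_313 t 1 1 1 = true :=
  ⟨(l 1), by decide +kernel⟩

theorem c_pm_313 : CertNX 0 1230186008 1610612736 469762048 1046898278 26843546 3 false true false .dn 3 1 3
    ndN6q3 ndN2q3 pcN1 Cut.none Ext.none :=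
  certNX0 (fam := false) (s1 := true) (s2 := false) (a := 3) (b := 1) (c := 3) (cn := .dn) (n1 := ndN6q3) (n2 := ndN2q3) (pc := pcN1) (cut := Cut.none) (xt := Ext.none) (P1 := 0) (W1 := 1230186008) (P2 := 1610612736) (W2 := 469762048) (P3 := 1046898278) (W3 := 26843546) (N0 := 3)
    rfl k0_pm_313

noncomputable def f_mm_001 : ℕ → ℕ → ℕ → ℕ → Bool := onCell 0 536870912 536870912 536870912 1046898278 26843546
    (rowNX 3 0 false false false .up 0 0 1 (qsf 0 536870912 536870912 536870912 0) ndN6q0 ndN2q1 pcN0 Cut.none Ext.none)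

def k0_mm_001 : ∃ t, chk3 f_mm_001 t 1 1 1 = true :=
  ⟨(l 3), by decide +kernel⟩

theorem c_mm_001 : CertNX 0 536870912 536870912 536870912 1046898278 26843546 3 false false false .up 0 0 1
    ndN6q0 ndN2q1 pcN0 Cut.none Ext.none :=
  certNX0 (fam := false) (s1 := false) (s2 := false) (a := 0) (b := 0) (c := 1) (cn := .up) (n1 := ndN6q0) (n2 := ndN2q1) (pc := pcN0) (cut := Cut.none) (xt := Ext.none) (P1 := 0) (W1 := 536870912) (P2 := 536870912) (W2 := 536870912) (P3 := 1046898278) (W3 := 26843546) (N0 := 3)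
    rfl k0_mm_001

noncomputable def f_mm_011 : ℕ → ℕ → ℕ → ℕ → Bool := onCell 0 536870912 536870912 536870912 1046898278 26843546
    (rowNX 3 0 false false false .pnn 0 1 1 (qsf 0 536870912 536870912 536870912 1) ndN6q0 ndN2q1 pcN1 Cut.none Ext.none)

def k0_mm_011 : ∃ t, chk3 f_mm_011 t 1 1 1 = true :=
  ⟨(l 3), by decide +kernel⟩

theorem c_mm_011 : CertNX 0 536870912 536870912 536870912 1046898278 26843546 3 false false false .pnn 0 1 1
    ndN6q0 ndN2q1 pcN1 Cut.none Ext.none :=
  certNX0 (fam := false) (s1 := false) (s2 := false) (a := 0) (b := 1) (c := 1) (cn := .pnn) (n1 := ndN6q0) (n2 := ndN2q1) (pc := pcN1) (cut := Cut.none) (xt := Ext.none) (P1 := 0) (W1 := 536870912) (P2 := 536870912) (W2 := 536870912) (P3 := 1046898278) (W3 := 26843546) (N0 := 3)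
    rfl k0_mm_011

noncomputable def f_mm_012_a : ℕ → ℕ → ℕ → ℕ → Bool := onCell 0 536870912 0 420477299 1046898278 26843546
    (rowNX 3 0 false false false .pnp 0 1 2 (qsf 0 536870912 0 420477299 1) ndN6q0 ndN2q2a pcN1 Cut.none Ext.none)

def k0_mm_012_a : ∃ t, chk3 f_mm_012_a t 1 1 1 = true :=
  ⟨(l 5), by decide +kernel⟩

theorem c_mm_012_a : CertNX 0 536870912 0 420477299 1046898278 26843546 3 false false false .pnp 0 1 2
    ndN6q0 ndN2q2a pcN1 Cut.none Ext.none :=
  certNX0 (fam := false) (s1 := false) (s2 := false) (a := 0) (b := 1) (c := 2) (cn := .pnp) (n1 := ndN6q0) (n2 := ndN2q2a) (pc := pcN1) (cut := Cut.none) (xt := Ext.none) (P1 := 0) (W1 := 536870912) (P2 := 0) (W2 := 420477299) (P3 := 1046898278) (W3 := 26843546) (N0 := 3)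
    rfl k0_mm_012_a

noncomputable def f_mm_012_b : ℕ → ℕ → ℕ → ℕ → Bool := onCell 0 536870912 1239849684 370763052 1046898278 26843546
    (rowNX 3 0 false false false .pnp 0 1 2 (qsf 0 536870912 1239849684 370763052 1) ndN6q0 ndN2q2b pcN1 Cut.none Ext.none)

def k0_mm_012_b : ∃ t, chk3 f_mm_012_b t 1 1 1 = true :=
  ⟨(l 5), by decide +kernel⟩

theorem c_mm_012_b : CertNX 0 536870912 1239849684 370763052 1046898278 26843546 3 false false false .pnp 0 1 2
    ndN6q0 ndN2q2b pcN1 Cut.none Ext.none :=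
  certNX0 (fam := false) (s1 := false) (s2 := false) (a := 0) (b := 1) (c := 2) (cn := .pnp) (n1 := ndN6q0) (n2 := ndN2q2b) (pc := pcN1) (cut := Cut.none) (xt := Ext.none) (P1 := 0) (W1 := 536870912) (P2 := 1239849684) (W2 := 370763052) (P3 := 1046898278) (W3 := 26843546) (N0 := 3)
    rfl k0_mm_012_b

noncomputable def f_mm_022_a : ℕ → ℕ → ℕ → ℕ → Bool := onCell 0 536870912 0 420477299 1046898278 26843546
    (rowNX 3 0 false false false .pp 0 2 2 (qsf 0 536870912 0 420477299 2) ndN6q0 ndN2q2a pcN2 Cut.none Ext.none)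

def k0_mm_022_a : ∃ t, chk3 f_mm_022_a t 1 1 1 = true :=
  ⟨(l 5), by decide +kernel⟩

theorem c_mm_022_a : CertNX 0 536870912 0 420477299 1046898278 26843546 3 false false false .pp 0 2 2
    ndN6q0 ndN2q2a pcN2 Cut.none Ext.none :=
  certNX0 (fam := false) (s1 := false) (s2 := false) (a := 0) (b := 2) (c := 2) (cn := .pp) (n1 := ndN6q0) (n2 := ndN2q2a) (pc := pcN2) (cut := Cut.none) (xt := Ext.none) (P1 := 0) (W1 := 536870912) (P2 := 0) (W2 := 420477299) (P3 := 1046898278) (W3 := 26843546) (N0 := 3)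
    rfl k0_mm_022_a

noncomputable def f_mm_022_b : ℕ → ℕ → ℕ → ℕ → Bool := onCell 0 536870912 1239849684 370763052 1046898278 26843546
    (rowNX 3 0 false false false .pp 0 2 2 (qsf 0 536870912 1239849684 370763052 2) ndN6q0 ndN2q2b pcN2 Cut.none Ext.none)

def k0_mm_022_b : ∃ t, chk3 f_mm_022_b t 1 1 1 = true :=
  ⟨(l 5), by decide +kernel⟩

theorem c_mm_022_b : CertNX 0 536870912 1239849684 370763052 1046898278 26843546 3 false false false .pp 0 2 2
    ndN6q0 ndN2q2b pcN2 Cut.none Ext.none :=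
  certNX0 (fam := false) (s1 := false) (s2 := false) (a := 0) (b := 2) (c := 2) (cn := .pp) (n1 := ndN6q0) (n2 := ndN2q2b) (pc := pcN2) (cut := Cut.none) (xt := Ext.none) (P1 := 0) (W1 := 536870912) (P2 := 1239849684) (W2 := 370763052) (P3 := 1046898278) (W3 := 26843546) (N0 := 3)
    rfl k0_mm_022_b

noncomputable def f_mm_023 : ℕ → ℕ → ℕ → ℕ → Bool := onCell 0 536870912 1610612736 469762048 1046898278 26843546
    (rowNX 3 0 false false false .up 0 2 3 (qsf 0 536870912 1610612736 469762048 2) ndN6q0 ndN2q3 pcN2 Cut.none Ext.none)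

def k0_mm_023 : ∃ t, chk3 f_mm_023 t 1 1 1 = true :=
  ⟨(l 5), by decide +kernel⟩

theorem c_mm_023 : CertNX 0 536870912 1610612736 469762048 1046898278 26843546 3 false false false .up 0 2 3
    ndN6q0 ndN2q3 pcN2 Cut.none Ext.none :=
  certNX0 (fam := false) (s1 := false) (s2 := false) (a := 0) (b := 2) (c := 3) (cn := .up) (n1 := ndN6q0) (n2 := ndN2q3) (pc := pcN2) (cut := Cut.none) (xt := Ext.none) (P1 := 0) (W1 := 536870912) (P2 := 1610612736) (W2 := 469762048) (P3 := 1046898278) (W3 := 26843546) (N0 := 3)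
    rfl k0_mm_023

noncomputable def f_mm_033 : ℕ → ℕ → ℕ → ℕ → Bool := onCell 0 536870912 1610612736 469762048 1046898278 26843546
    (rowNX 3 0 false false false .pnn 0 3 3 (qsf 0 536870912 1610612736 469762048 3) ndN6q0 ndN2q3 pcN3 Cut.none Ext.none)

def k0_mm_033 : ∃ t, chk3 f_mm_033 t 1 1 1 = true :=
  ⟨(l 5), by decide +kernel⟩

theorem c_mm_033 : CertNX 0 536870912 1610612736 469762048 1046898278 26843546 3 false false false .pnn 0 3 3
    ndN6q0 ndN2q3 pcN3 Cut.none Ext.none :=
  certNX0 (fam := false) (s1 := false) (s2 := false) (a := 0) (b := 3) (c := 3) (cn := .pnn) (n1 := ndN6q0) (n2 := ndN2q3) (pc := pcN3) (cut := Cut.none) (xt := Ext.none) (P1 := 0) (W1 := 536870912) (P2 := 1610612736) (W2 := 469762048) (P3 := 1046898278) (W3 := 26843546) (N0 := 3)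
    rfl k0_mm_033

noncomputable def f_mm_101 : ℕ → ℕ → ℕ → ℕ → Bool := onCell 536870912 469762048 536870912 536870912 1046898278 26843546
    (rowNX 3 0 false false false .npn 1 0 1 (qsf 536870912 469762048 536870912 536870912 0) ndN6q1 ndN2q1 pcN0 Cut.none Ext.none)

def k0_mm_101 : ∃ t, chk3 f_mm_101 t 1 1 1 = true :=
  ⟨(l 3), by decide +kernel⟩

theorem c_mm_101 : CertNX 536870912 469762048 536870912 536870912 1046898278 26843546 3 false false false .npn 1 0 1
    ndN6q1 ndN2q1 pcN0 Cut.none Ext.none :=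
  certNX0 (fam := false) (s1 := false) (s2 := false) (a := 1) (b := 0) (c := 1) (cn := .npn) (n1 := ndN6q1) (n2 := ndN2q1) (pc := pcN0) (cut := Cut.none) (xt := Ext.none) (P1 := 536870912) (W1 := 469762048) (P2 := 536870912) (W2 := 536870912) (P3 := 1046898278) (W3 := 26843546) (N0 := 3)
    rfl k0_mm_101

noncomputable def f_mm_102_a : ℕ → ℕ → ℕ → ℕ → Bool := onCell 536870912 469762048 0 420477299 1046898278 26843546
    (rowNX 3 0 false false false .npp 1 0 2 (qsf 536870912 469762048 0 420477299 0) ndN6q1 ndN2q2a pcN0 Cut.none Ext.none)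

def k0_mm_102_a : ∃ t, chk3 f_mm_102_a t 1 1 1 = true :=
  ⟨(l 5), by decide +kernel⟩

theorem c_mm_102_a : CertNX 536870912 469762048 0 420477299 1046898278 26843546 3 false false false .npp 1 0 2
    ndN6q1 ndN2q2a pcN0 Cut.none Ext.none :=
  certNX0 (fam := false) (s1 := false) (s2 := false) (a := 1) (b := 0) (c := 2) (cn := .npp) (n1 := ndN6q1) (n2 := ndN2q2a) (pc := pcN0) (cut := Cut.none) (xt := Ext.none) (P1 := 536870912) (W1 := 469762048) (P2 := 0) (W2 := 420477299) (P3 := 1046898278) (W3 := 26843546) (N0 := 3)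
    rfl k0_mm_102_a

noncomputable def f_mm_102_b : ℕ → ℕ → ℕ → ℕ → Bool := onCell 536870912 469762048 1239849684 370763052 1046898278 26843546
    (rowNX 3 0 false false false .npp 1 0 2 (qsf 536870912 469762048 1239849684 370763052 0) ndN6q1 ndN2q2b pcN0 Cut.none Ext.none)

def k0_mm_102_b : ∃ t, chk3 f_mm_102_b t 1 1 1 = true :=
  ⟨(l 5), by decide +kernel⟩

theorem c_mm_102_b : CertNX 536870912 469762048 1239849684 370763052 1046898278 26843546 3 false false false .npp 1 0 2
    ndN6q1 ndN2q2b pcN0 Cut.none Ext.none :=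
  certNX0 (fam := false) (s1 := false) (s2 := false) (a := 1) (b := 0) (c := 2) (cn := .npp) (n1 := ndN6q1) (n2 := ndN2q2b) (pc := pcN0) (cut := Cut.none) (xt := Ext.none) (P1 := 536870912) (W1 := 469762048) (P2 := 1239849684) (W2 := 370763052) (P3 := 1046898278) (W3 := 26843546) (N0 := 3)
    rfl k0_mm_102_b

noncomputable def f_mm_112_a : ℕ → ℕ → ℕ → ℕ → Bool := onCell 536870912 469762048 0 420477299 1046898278 26843546
    (rowNX 3 0 false false false .dn 1 1 2 (qsf 536870912 469762048 0 420477299 1) ndN6q1 ndN2q2a pcN1 Cut.none Ext.none)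

def k0_mm_112_a : ∃ t, chk3 f_mm_112_a t 1 1 1 = true :=
  ⟨(l 5), by decide +kernel⟩

theorem c_mm_112_a : CertNX 536870912 469762048 0 420477299 1046898278 26843546 3 false false false .dn 1 1 2
    ndN6q1 ndN2q2a pcN1 Cut.none Ext.none :=
  certNX0 (fam := false) (s1 := false) (s2 := false) (a := 1) (b := 1) (c := 2) (cn := .dn) (n1 := ndN6q1) (n2 := ndN2q2a) (pc := pcN1) (cut := Cut.none) (xt := Ext.none) (P1 := 536870912) (W1 := 469762048) (P2 := 0) (W2 := 420477299) (P3 := 1046898278) (W3 := 26843546) (N0 := 3)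
    rfl k0_mm_112_a

noncomputable def f_mm_112_b : ℕ → ℕ → ℕ → ℕ → Bool := onCell 536870912 469762048 1239849684 370763052 1046898278 26843546
    (rowNX 3 0 false false false .dn 1 1 2 (qsf 536870912 469762048 1239849684 370763052 1) ndN6q1 ndN2q2b pcN1 Cut.none Ext.none)

def k0_mm_112_b : ∃ t, chk3 f_mm_112_b t 1 1 1 = true :=
  ⟨(l 5), by decide +kernel⟩

theorem c_mm_112_b : CertNX 536870912 469762048 1239849684 370763052 1046898278 26843546 3 false false false .dn 1 1 2
    ndN6q1 ndN2q2b pcN1 Cut.none Ext.none :=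
  certNX0 (fam := false) (s1 := false) (s2 := false) (a := 1) (b := 1) (c := 2) (cn := .dn) (n1 := ndN6q1) (n2 := ndN2q2b) (pc := pcN1) (cut := Cut.none) (xt := Ext.none) (P1 := 536870912) (W1 := 469762048) (P2 := 1239849684) (W2 := 370763052) (P3 := 1046898278) (W3 := 26843546) (N0 := 3)
    rfl k0_mm_112_b

noncomputable def f_mm_113 : ℕ → ℕ → ℕ → ℕ → Bool := onCell 536870912 469762048 1610612736 469762048 1046898278 26843546
    (rowNX 3 0 false false false .nn 1 1 3 (qsf 536870912 469762048 1610612736 469762048 1) ndN6q1 ndN2q3 pcN1 Cut.none Ext.none)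

def k0_mm_113 : ∃ t, chk3 f_mm_113 t 1 1 1 = true :=
  ⟨(l 5), by decide +kernel⟩

theorem c_mm_113 : CertNX 536870912 469762048 1610612736 469762048 1046898278 26843546 3 false false false .nn 1 1 3
    ndN6q1 ndN2q3 pcN1 Cut.none Ext.none :=
  certNX0 (fam := false) (s1 := false) (s2 := false) (a := 1) (b := 1) (c := 3) (cn := .nn) (n1 := ndN6q1) (n2 := ndN2q3) (pc := pcN1) (cut := Cut.none) (xt := Ext.none) (P1 := 536870912) (W1 := 469762048) (P2 := 1610612736) (W2 := 469762048) (P3 := 1046898278) (W3 := 26843546) (N0 := 3)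
    rfl k0_mm_113

noncomputable def f_mm_123 : ℕ → ℕ → ℕ → ℕ → Bool := onCell 536870912 469762048 1610612736 469762048 1046898278 26843546
    (rowNX 3 0 false false false .npn 1 2 3 (qsf 536870912 469762048 1610612736 469762048 2) ndN6q1 ndN2q3 pcN2 Cut.none Ext.none)

def k0_mm_123 : ∃ t, chk3 f_mm_123 t 1 1 1 = true :=
  ⟨(l 5), by decide +kernel⟩

theorem c_mm_123 : CertNX 536870912 469762048 1610612736 469762048 1046898278 26843546 3 false false false .npn 1 2 3
    ndN6q1 ndN2q3 pcN2 Cut.none Ext.none :=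
  certNX0 (fam := false) (s1 := false) (s2 := false) (a := 1) (b := 2) (c := 3) (cn := .npn) (n1 := ndN6q1) (n2 := ndN2q3) (pc := pcN2) (cut := Cut.none) (xt := Ext.none) (P1 := 536870912) (W1 := 469762048) (P2 := 1610612736) (W2 := 469762048) (P3 := 1046898278) (W3 := 26843546) (N0 := 3)
    rfl k0_mm_123

noncomputable def f_mm_133 : ℕ → ℕ → ℕ → ℕ → Bool := onCell 536870912 469762048 1610612736 469762048 1046898278 26843546
    (rowNX 3 0 false false false .dn 1 3 3 (qsf 536870912 469762048 1610612736 469762048 3) ndN6q1 ndN2q3 pcN3 Cut.none Ext.none)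

def k0_mm_133 : ∃ t, chk3 f_mm_133 t 1 1 1 = true :=
  ⟨(l 1), by decide +kernel⟩

theorem c_mm_133 : CertNX 536870912 469762048 1610612736 469762048 1046898278 26843546 3 false false false .dn 1 3 3
    ndN6q1 ndN2q3 pcN3 Cut.none Ext.none :=
  certNX0 (fam := false) (s1 := false) (s2 := false) (a := 1) (b := 3) (c := 3) (cn := .dn) (n1 := ndN6q1) (n2 := ndN2q3) (pc := pcN3) (cut := Cut.none) (xt := Ext.none) (P1 := 536870912) (W1 := 469762048) (P2 := 1610612736) (W2 := 469762048) (P3 := 1046898278) (W3 := 26843546) (N0 := 3)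
    rfl k0_mm_133

noncomputable def f_mm_202_a : ℕ → ℕ → ℕ → ℕ → Bool := onCell 1073741824 536870912 0 420477299 1046898278 26843546
    (rowNX 3 0 false false false .pp 2 0 2 (qsf 1073741824 536870912 0 420477299 0) ndN6q2 ndN2q2a pcN0 Cut.none Ext.none)

def k0_mm_202_a : ∃ t, chk3 f_mm_202_a t 1 1 1 = true :=
  ⟨(l 3), by decide +kernel⟩

theorem c_mm_202_a : CertNX 1073741824 536870912 0 420477299 1046898278 26843546 3 false false false .pp 2 0 2
    ndN6q2 ndN2q2a pcN0 Cut.none Ext.none :=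
  certNX0 (fam := false) (s1 := false) (s2 := false) (a := 2) (b := 0) (c := 2) (cn := .pp) (n1 := ndN6q2) (n2 := ndN2q2a) (pc := pcN0) (cut := Cut.none) (xt := Ext.none) (P1 := 1073741824) (W1 := 536870912) (P2 := 0) (W2 := 420477299) (P3 := 1046898278) (W3 := 26843546) (N0 := 3)
    rfl k0_mm_202_a

noncomputable def f_mm_202_b : ℕ → ℕ → ℕ → ℕ → Bool := onCell 1073741824 536870912 1239849684 370763052 1046898278 26843546
    (rowNX 3 0 false false false .pp 2 0 2 (qsf 1073741824 536870912 1239849684 370763052 0) ndN6q2 ndN2q2b pcN0 Cut.none Ext.none)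

def k0_mm_202_b : ∃ t, chk3 f_mm_202_b t 1 1 1 = true :=
  ⟨(l 5), by decide +kernel⟩

theorem c_mm_202_b : CertNX 1073741824 536870912 1239849684 370763052 1046898278 26843546 3 false false false .pp 2 0 2
    ndN6q2 ndN2q2b pcN0 Cut.none Ext.none :=
  certNX0 (fam := false) (s1 := false) (s2 := false) (a := 2) (b := 0) (c := 2) (cn := .pp) (n1 := ndN6q2) (n2 := ndN2q2b) (pc := pcN0) (cut := Cut.none) (xt := Ext.none) (P1 := 1073741824) (W1 := 536870912) (P2 := 1239849684) (W2 := 370763052) (P3 := 1046898278) (W3 := 26843546) (N0 := 3)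
    rfl k0_mm_202_b

noncomputable def f_mm_203 : ℕ → ℕ → ℕ → ℕ → Bool := onCell 1073741824 536870912 1610612736 469762048 1046898278 26843546
    (rowNX 3 0 false false false .up 2 0 3 (qsf 1073741824 536870912 1610612736 469762048 0) ndN6q2 ndN2q3 pcN0 Cut.none Ext.none)

def k0_mm_203 : ∃ t, chk3 f_mm_203 t 1 1 1 = true :=
  ⟨(l 5), by decide +kernel⟩

theorem c_mm_203 : CertNX 1073741824 536870912 1610612736 469762048 1046898278 26843546 3 false false false .up 2 0 3
    ndN6q2 ndN2q3 pcN0 Cut.none Ext.none :=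
  certNX0 (fam := false) (s1 := false) (s2 := false) (a := 2) (b := 0) (c := 3) (cn := .up) (n1 := ndN6q2) (n2 := ndN2q3) (pc := pcN0) (cut := Cut.none) (xt := Ext.none) (P1 := 1073741824) (W1 := 536870912) (P2 := 1610612736) (W2 := 469762048) (P3 := 1046898278) (W3 := 26843546) (N0 := 3)
    rfl k0_mm_203

noncomputable def f_mm_213 : ℕ → ℕ → ℕ → ℕ → Bool := onCell 1073741824 536870912 1610612736 469762048 1046898278 26843546
    (rowNX 3 0 false false false .pnn 2 1 3 (qsf 1073741824 536870912 1610612736 469762048 1) ndN6q2 ndN2q3 pcN1 Cut.none Ext.none)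

def k0_mm_213 : ∃ t, chk3 f_mm_213 t 1 1 1 = true :=
  ⟨(l 5), by decide +kernel⟩

theorem c_mm_213 : CertNX 1073741824 536870912 1610612736 469762048 1046898278 26843546 3 false false false .pnn 2 1 3
    ndN6q2 ndN2q3 pcN1 Cut.none Ext.none :=
  certNX0 (fam := false) (s1 := false) (s2 := false) (a := 2) (b := 1) (c := 3) (cn := .pnn) (n1 := ndN6q2) (n2 := ndN2q3) (pc := pcN1) (cut := Cut.none) (xt := Ext.none) (P1 := 1073741824) (W1 := 536870912) (P2 := 1610612736) (W2 := 469762048) (P3 := 1046898278) (W3 := 26843546) (N0 := 3)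
    rfl k0_mm_213

noncomputable def f_mm_303 : ℕ → ℕ → ℕ → ℕ → Bool := onCell 0 1230186008 1610612736 469762048 1046898278 26843546
    (rowNX 3 0 false false false .npn 3 0 3 (qsf 0 1230186008 1610612736 469762048 0) ndN6q3 ndN2q3 pcN0 Cut.none Ext.none)

def k0_mm_303 : ∃ t, chk3 f_mm_303 t 1 1 1 = true :=
  ⟨(a (l 3) (l 3)), by decide +kernel⟩

theorem c_mm_303 : CertNX 0 1230186008 1610612736 469762048 1046898278 26843546 3 false false false .npn 3 0 3
    ndN6q3 ndN2q3 pcN0 Cut.none Ext.none :=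
  certNX0 (fam := false) (s1 := false) (s2 := false) (a := 3) (b := 0) (c := 3) (cn := .npn) (n1 := ndN6q3) (n2 := ndN2q3) (pc := pcN0) (cut := Cut.none) (xt := Ext.none) (P1 := 0) (W1 := 1230186008) (P2 := 1610612736) (W2 := 469762048) (P3 := 1046898278) (W3 := 26843546) (N0 := 3)
    rfl k0_mm_303

noncomputable def f_mm_313 : ℕ → ℕ → ℕ → ℕ → Bool := onCell 0 1230186008 1610612736 469762048 1046898278 26843546
    (rowNX 3 0 false false false .dn 3 1 3 (qsf 0 1230186008 1610612736 469762048 1) ndN6q3 ndN2q3 pcN1 Cut.none Ext.none)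

def k0_mm_313 : ∃ t, chk3 f_mm_313 t 1 1 1 = true :=
  ⟨(l 1), by decide +kernel⟩

theorem c_mm_313 : CertNX 0 1230186008 1610612736 469762048 1046898278 26843546 3 false false false .dn 3 1 3
    ndN6q3 ndN2q3 pcN1 Cut.none Ext.none :=
  certNX0 (fam := false) (s1 := false) (s2 := false) (a := 3) (b := 1) (c := 3) (cn := .dn) (n1 := ndN6q3) (n2 := ndN2q3) (pc := pcN1) (cut := Cut.none) (xt := Ext.none) (P1 := 0) (W1 := 1230186008) (P2 := 1610612736) (W2 := 469762048) (P3 := 1046898278) (W3 := 26843546) (N0 := 3)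
    rfl k0_mm_313

end Pool.Agent.Strip051.G.IE1.Tab.C.NB62

namespace Pool.Agent.Strip051.G.IE1.Tab.C.NB63

open Pool.Agent.Strip051.PB Pool.Agent.Strip051.PB.T
open Pool.Agent.Strip051.G.IE1.Tab

noncomputable def f_pp_001 : ℕ → ℕ → ℕ → ℕ → Bool := onCell 0 536870912 536870912 536870912 1046898278 26843546
    (rowNX 3 0 false true true .up 0 0 1 (qsf 0 536870912 536870912 536870912 0) ndN6q0 ndN3q1 pcN0 Cut.none Ext.none)

def k0_pp_001 : ∃ t, chk3 f_pp_001 t 1 1 1 = true :=
  ⟨(l 3), by decide +kernel⟩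

theorem c_pp_001 : CertNX 0 536870912 536870912 536870912 1046898278 26843546 3 false true true .up 0 0 1
    ndN6q0 ndN3q1 pcN0 Cut.none Ext.none :=
  certNX0 (fam := false) (s1 := true) (s2 := true) (a := 0) (b := 0) (c := 1) (cn := .up) (n1 := ndN6q0) (n2 := ndN3q1) (pc := pcN0) (cut := Cut.none) (xt := Ext.none) (P1 := 0) (W1 := 536870912) (P2 := 536870912) (W2 := 536870912) (P3 := 1046898278) (W3 := 26843546) (N0 := 3)
    rfl k0_pp_001

noncomputable def f_pp_011 : ℕ → ℕ → ℕ → ℕ → Bool := onCell 0 536870912 536870912 536870912 1046898278 26843546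
    (rowNX 3 0 false true true .pnn 0 1 1 (qsf 0 536870912 536870912 536870912 1) ndN6q0 ndN3q1 pcN1 Cut.none Ext.none)

def k0_pp_011 : ∃ t, chk3 f_pp_011 t 1 1 1 = true :=
  ⟨(l 3), by decide +kernel⟩

theorem c_pp_011 : CertNX 0 536870912 536870912 536870912 1046898278 26843546 3 false true true .pnn 0 1 1
    ndN6q0 ndN3q1 pcN1 Cut.none Ext.none :=
  certNX0 (fam := false) (s1 := true) (s2 := true) (a := 0) (b := 1) (c := 1) (cn := .pnn) (n1 := ndN6q0) (n2 := ndN3q1) (pc := pcN1) (cut := Cut.none) (xt := Ext.none) (P1 := 0) (W1 := 536870912) (P2 := 536870912) (W2 := 536870912) (P3 := 1046898278) (W3 := 26843546) (N0 := 3)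
    rfl k0_pp_011

noncomputable def f_pp_012 : ℕ → ℕ → ℕ → ℕ → Bool := onCell 536870912 536870912 1073741824 536870912 1046898278 26843546
    (rowNX 3 2 false true true .pnp 0 1 2 (qsf 0 536870912 1073741824 536870912 1) ndN6q0 ndN3q2 pcN1 Cut.none Ext.none)

def k0_pp_012 : ∃ t, chk3 f_pp_012 t 2 1 1 = true :=
  ⟨(b (b (b (c (b (a (l 15563208) (l 15563208)) (l 15610728)) (a (l 85997073927) (l 15362000))) (b (a (l 16155904) (l 16155904)) (l 16540528))) (b (b (l 63987282599) (l 16398440)) (b (l 16650576) (l 16777040)))) (l 256724959239)), by decide +kernel⟩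

def k1_pp_012 : ∃ t, chk3 f_pp_012 t 6 2 1 = true :=
  ⟨(b (b (a (b (a (l 15517432) (l 15522584)) (l 15733456)) (b (a (l 15497008) (b (l 15352552) (l 15621288))) (a (l 15823816) (l 15880440)))) (a (b (l 16180440) (l 16565664)) (b (a (l 16216800) (l 16091896)) (a (l 16465376) (l 16304320))))) (b (a (b (l 16322640) (l 16424960)) (b (l 16164152) (l 16293504))) (a (l 16720496) (b (l 16448768) (l 16520224))))), by decide +kernel⟩

def k2_pp_012 : ∃ t, chk3 f_pp_012 t 7 2 1 = true :=
  ⟨(b (b (a (b (a (b (l 15517920) (l 15790288)) (b (a (l 15536520) (c (l 15404904) (l 15333864))) (l 15511216))) (a (l 15756528) (l 15502192))) (b (a (b (a (c (b (l 15218424) (l 15263320)) (b (l 15149840) (l 15169656))) (c (l 15058440) (l 14997560))) (a (l 15256328) (c (b (l 15135000) (l 15126120)) (l 15012456)))) (b (c (a (b (c (l 14975496) (l 14927776)) (l 14995504)) (b (a (c (b (l 14828416) (l 14870216)) (b (l 14793608) (l 14837912))) (b (l 14737592) (a (c (l 14799296) (l 14769240)) (l 14747240))))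 (a (l 14827832) (c (b (l 14820952) (l 14849184)) (b (l 14776128) (l 14797648)))))) (a (l 14743488) (b (a (c (l 14765552) (l 14702704)) (c (b (a (l 14692760) (l 14654472)) (a (l 14724632) (l 14680032))) (b (a (l 14646064) (c (l 14619144) (l 14588512))) (l 14633568)))) (c (l 14744912) (l 14668736))))) (c (a (l 14989176) (a (l 14893808) (b (l 14831800) (l 14828880)))) (a (l 14853248) (l 14703560))))) (a (a (l 15277936) (b (l 15090864) (l 15118472))) (a (b (c (b (l 14966232) (l 14952960)) (l 14863352)) (l 14937272)) (b (c (l 14820976) (l 14703952)) (c (b (l 14800312) (l 14796232)) (l 14721448))))))) (a (b (l 15793696) (l 15707464)) (b (a (l 15451976) (a (l 15237896) (b (l 14925496) (l 15225144)))) (a (l 15610840) (l 15377728))))) (b (a (b (l 15591704) (l 15650160)) (b (a (l 15173152) (l 14953424)) (l 14965552))) (a (b (l 15835912) (l 15922272)) (b (l 15075392) (l 15139496))))), by decide +kernel⟩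

def k3_pp_012 : ∃ t, chk3 f_pp_012 t 3 3 1 = true :=
  ⟨(a (a (l 16745344) (b (l 16508136) (l 16483024))) (a (b (l 15898952) (l 15835984)) (b (a (l 15305256) (l 14874736)) (a (l 15199288) (l 14715776))))), by decide +kernel⟩

theorem s4_pp_012 : ∃ t, chk3 f_pp_012 t 3 2 1 = true := ex3_a k1_pp_012 k2_pp_012

theorem s5_pp_012 : ∃ t, chk3 f_pp_012 t 3 1 1 = true := ex3_b s4_pp_012 k3_pp_012

theorem s6_pp_012 : ∃ t, chk3 f_pp_012 t 1 1 1 = true := ex3_a k0_pp_012 s5_pp_012

theorem c_pp_012 : CertNX 0 536870912 1073741824 536870912 1046898278 26843546 3 false true true .pnp 0 1 2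
    ndN6q0 ndN3q2 pcN1 Cut.none Ext.none :=
  certNX2 (fam := false) (s1 := true) (s2 := true) (a := 0) (b := 1) (c := 2) (cn := .pnp) (n1 := ndN6q0) (n2 := ndN3q2) (pc := pcN1) (cut := Cut.none) (xt := Ext.none) (P1 := 0) (W1 := 536870912) (P2 := 1073741824) (W2 := 536870912) (P3 := 1046898278) (W3 := 26843546) (N0 := 3)
    rfl (fun _ => rfl) s6_pp_012

noncomputable def f_pp_022 : ℕ → ℕ → ℕ → ℕ → Bool := onCell 0 536870912 1073741824 536870912 1046898278 26843546
    (rowNX 3 1 false true true .pp 0 2 2 (qsf 0 536870912 1073741824 536870912 2) ndN6q0 ndN3q2 pcN2 Cut.none Ext.none)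

def k0_pp_022 : ∃ t, chk3 f_pp_022 t 4 4 1 = true :=
  ⟨(a (b (a (a (c (b (a (b (l 14839880) (l 14899888)) (c (a (l 14886888) (l 14888968)) (a (l 14829048) (l 14846784)))) (a (b (l 14922720) (l 14982248)) (b (c (l 14930712) (l 14886056)) (a (l 15013872) (l 15067616))))) (b (a (c (a (l 14771040) (b (l 14750320) (l 14783016))) (a (c (l 14725376) (l 14697632)) (l 14715624))) (c (l 14777632) (l 14714352))) (a (c (a (l 14867048) (l 14880480)) (a (c (l 14837600) (l 14818328)) (l 14846816))) (b (l 14828136) (l 14796888))))) (b (c (a (c (l 14917440) (l 14847848)) (l 14873808)) (l 14746840)) (c (b (a (l 14864704) (l 15020616)) (l 15251208)) (b (l 14901328) (l 15174968))))) (b (a (b (c (l 14815456) (l 14700728)) (c (l 14863616) (l 14836488))) (b (c (a (l 14804072) (l 14860392)) (l 14768080)) (l 15074744))) (a (b (l 15148928) (l 15227736)) (c (l 15159936) (l 15339336))))) (a (a (b (a (c (l 15338632) (c (l 15083200) (a (l 15217448) (l 15314032)))) (c (b (l 15354960) (l 15415064)) (b (l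 15304328) (l 15518968)))) (c (a (l 15324648) (l 15237912)) (a (c (l 15279560) (a (l 15273272) (l 15238904))) (l 15183856)))) (b (c (b (l 15302840) (l 15532840)) (b (l 15468520) (l 15468928))) (c (l 14988768) (l 15037264)))) (b (a (c (l 15430552) (l 15368200)) (b (l 15302048) (l 15116064))) (a (b (l 15026000) (l 14863824)) (l 14932968))))) (b (a (b (a (b (l 15015616) (l 15304952)) (l 15263416)) (a (l 15300376) (l 15137440))) (b (b (l 15159984) (l 15039592)) (b (l 14992144) (l 15041760)))) (a (b (b (l 15010736) (l 15099136)) (l 15050168)) (b (l 15216040) (l 15160472))))), by decide +kernel⟩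

def k1_pp_022 : ∃ t, chk3 f_pp_022 t 5 4 1 = true :=
  ⟨(b (a (b (a (b (l 14804264) (l 14853048)) (l 14796056)) (a (l 15060992) (l 15050280))) (b (a (l 14739616) (l 14659088)) (l 14843336))) (a (b (a (l 15277312) (l 15172520)) (l 15036864)) (b (l 14940304) (l 14746416)))), by decide +kernel⟩

def k2_pp_022 : ∃ t, chk3 f_pp_022 t 2 5 1 = true :=
  ⟨(a (b (a (a (b (a (b (c (a (l 14912488) (l 14831768)) (a (c (l 14857112) (l 14820152)) (l 14763552))) (c (a (l 15038352) (l 15045816)) (a (c (l 14986776) (l 14952368)) (l 14985448)))) (b (c (l 14823696) (l 14737496)) (c (l 15116632) (l 15041920)))) (a (c (a (l 15858952) (l 15788696)) (a (b (l 15366320) (l 16059296)) (l 15864288))) (c (l 15959000) (l 15916512)))) (b (b (l 14867464) (l 15184736)) (b (a (l 15725296) (l 15761128)) (l 16210712)))) (b (a (b (l 15008112) (l 15264264)) (b (l 15021072) (l 15218664))) (a (l 15958512) (l 15890040)))) (a (a (b (a (c (a (l 16198240) (l 16188776)) (a (c (l 16196288) (l 16193952)) (l 16173608)))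 (c (l 16178584) (l 16187464))) (a (c (l 15698504) (a (l 15654624) (l 15687160))) (l 15621528))) (b (l 16257328) (l 15883104))) (b (a (l 16350552) (l 16428296)) (a (l 16021528) (l 16158312))))) (b (b (b (l 14726504) (l 14935688)) (a (l 15718248) (l 15457712))) (b (l 16339072) (l 16626856)))), by decide +kernel⟩

def k3_pp_022 : ∃ t, chk3 f_pp_022 t 3 2 1 = true :=
  ⟨(b (b (a (a (l 14648200) (b (l 14519944) (l 14634736))) (b (l 14328496) (l 14434928))) (b (a (l 14784096) (l 14539616)) (l 14511080))) (b (b (b (l 14484016) (l 14726784)) (l 15314784)) (b (l 15924512) (l 16235504)))), by decide +kernel⟩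

def k4_pp_022 : ∃ t, chk3 f_pp_022 t 1 3 1 = true :=
  ⟨(a (a (b (a (a (b (a (c (l 15702312) (a (l 15657280) (l 15691344))) (c (l 15767112) (l 15758352))) (a (c (l 15699352) (l 15610840)) (l 15748776))) (b (l 15892352) (l 15880784))) (a (b (l 16046192) (l 16006528)) (l 16144168))) (a (a (a (c (l 15697808) (l 15546312)) (l 15558048)) (l 15878288)) (a (l 16003560) (l 16104120)))) (b (b (l 16591960) (l 16524432)) (b (l 16521384) (l 2)))) (b (b (a (l 16516200) (l 2)) (l 2)) (l 2))), by decide +kernel⟩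

theorem s5_pp_022 : ∃ t, chk3 f_pp_022 t 2 4 1 = true := ex3_a k0_pp_022 k1_pp_022

theorem s6_pp_022 : ∃ t, chk3 f_pp_022 t 2 2 1 = true := ex3_b s5_pp_022 k2_pp_022

theorem s7_pp_022 : ∃ t, chk3 f_pp_022 t 1 2 1 = true := ex3_a s6_pp_022 k3_pp_022

theorem s8_pp_022 : ∃ t, chk3 f_pp_022 t 1 1 1 = true := ex3_b s7_pp_022 k4_pp_022

theorem c_pp_022 : CertNX 0 536870912 1073741824 536870912 1046898278 26843546 3 false true true .pp 0 2 2
    ndN6q0 ndN3q2 pcN2 Cut.none Ext.none :=
  certNX1 (fam := false) (s1 := true) (s2 := true) (a := 0) (b := 2) (c := 2) (cn := .pp) (n1 := ndN6q0) (n2 := ndN3q2) (pc := pcN2) (cut := Cut.none) (xt := Ext.none) (P1 := 0) (W1 := 536870912) (P2 := 1073741824) (W2 := 536870912) (P3 := 1046898278) (W3 := 26843546) (N0 := 3)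
    rfl (fun _ => rfl) s8_pp_022

noncomputable def f_pp_023 : ℕ → ℕ → ℕ → ℕ → Bool := onCell 0 536870912 1073741824 536870912 1046898278 26843546
    (rowNX 3 1 false true true .up 0 2 3 (qsf 0 536870912 1610612736 536870912 2) ndN6q0 ndN3q3 pcN2 Cut.none Ext.none)

def k0_pp_023 : ∃ t, chk3 f_pp_023 t 1 1 1 = true :=
  ⟨(b (a (b (l 1) (a (l 1) (b (l 1) (b (l 1) (l 16626856))))) (b (b (a (l 1) (b (l 14328496) (l 14434928))) (b (a (l 1) (l 14539616)) (l 14511080))) (b (b (l 504687364343) (l 15314784)) (b (l 15924512) (l 16235504))))) (a (a (b (a (l 1) (a (l 1) (l 16144168))) (a (a (c (l 621190784903) (l 652329335847)) (l 15878288)) (a (l 16003560) (l 16104120)))) (b (b (l 16591960) (l 16524432)) (b (l 16521384) (l 16521384)))) (b (b (a (l 16516200) (l 16409032)) (l 16770512)) (a (l 16777176) (l 4))))), by decide +kernel⟩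

theorem c_pp_023 : CertNX 0 536870912 1610612736 536870912 1046898278 26843546 3 false true true .up 0 2 3
    ndN6q0 ndN3q3 pcN2 Cut.none Ext.none :=
  certNX1 (fam := false) (s1 := true) (s2 := true) (a := 0) (b := 2) (c := 3) (cn := .up) (n1 := ndN6q0) (n2 := ndN3q3) (pc := pcN2) (cut := Cut.none) (xt := Ext.none) (P1 := 0) (W1 := 536870912) (P2 := 1610612736) (W2 := 536870912) (P3 := 1046898278) (W3 := 26843546) (N0 := 3)
    rfl (fun _ => rfl) k0_pp_023

noncomputable def f_pp_033 : ℕ → ℕ → ℕ → ℕ → Bool := onCell 0 536870912 1610612736 536870912 1046898278 26843546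
    (rowNX 3 0 false true true .pnn 0 3 3 (qsf 0 536870912 1610612736 536870912 3) ndN6q0 ndN3q3 pcN3 Cut.none Ext.none)

def k0_pp_033 : ∃ t, chk3 f_pp_033 t 1 1 1 = true :=
  ⟨(a (b (b (a (a (a (b (a (l 15683488) (l 15746792)) (c (l 15732384) (l 15709464))) (b (l 15878288) (l 15878288))) (a (l 16003560) (l 16104120))) (a (l 16352576) (l 1))) (a (l 4) (b (a (l 16352576) (l 16722696)) (l 4)))) (l 4)) (b (b (l 1) (a (c (l 16777216) (l 16777216)) (l 1))) (b (a (l 4) (l 898218590439)) (l 4)))), by decide +kernel⟩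

theorem c_pp_033 : CertNX 0 536870912 1610612736 536870912 1046898278 26843546 3 false true true .pnn 0 3 3
    ndN6q0 ndN3q3 pcN3 Cut.none Ext.none :=
  certNX0 (fam := false) (s1 := true) (s2 := true) (a := 0) (b := 3) (c := 3) (cn := .pnn) (n1 := ndN6q0) (n2 := ndN3q3) (pc := pcN3) (cut := Cut.none) (xt := Ext.none) (P1 := 0) (W1 := 536870912) (P2 := 1610612736) (W2 := 536870912) (P3 := 1046898278) (W3 := 26843546) (N0 := 3)
    rfl k0_pp_033

noncomputable def f_pp_101 : ℕ → ℕ → ℕ → ℕ → Bool := onCell 536870912 469762048 536870912 536870912 1046898278 26843546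
    (rowNX 3 0 false true true .npn 1 0 1 (qsf 536870912 469762048 536870912 536870912 0) ndN6q1 ndN3q1 pcN0 Cut.none Ext.none)

def k0_pp_101 : ∃ t, chk3 f_pp_101 t 1 1 1 = true :=
  ⟨(l 3), by decide +kernel⟩

theorem c_pp_101 : CertNX 536870912 469762048 536870912 536870912 1046898278 26843546 3 false true true .npn 1 0 1
    ndN6q1 ndN3q1 pcN0 Cut.none Ext.none :=
  certNX0 (fam := false) (s1 := true) (s2 := true) (a := 1) (b := 0) (c := 1) (cn := .npn) (n1 := ndN6q1) (n2 := ndN3q1) (pc := pcN0) (cut := Cut.none) (xt := Ext.none) (P1 := 536870912) (W1 := 469762048) (P2 := 536870912) (W2 := 536870912) (P3 := 1046898278) (W3 := 26843546) (N0 := 3)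
    rfl k0_pp_101

noncomputable def f_pp_102 : ℕ → ℕ → ℕ → ℕ → Bool := onCell 536870912 469762048 1073741824 536870912 1046898278 26843546
    (rowNX 3 0 false true true .npp 1 0 2 (qsf 536870912 469762048 1073741824 536870912 0) ndN6q1 ndN3q2 pcN0 Cut.none Ext.none)

def k0_pp_102 : ∃ t, chk3 f_pp_102 t 2 2 1 = true :=
  ⟨(b (b (b (a (c (l 15563208) (l 15478632)) (b (c (l 15507848) (l 15428184)) (l 15593688))) (a (l 15709632) (l 15709632))) (b (a (l 16155904) (l 16155904)) (a (l 16540528) (l 16540528)))) (b (b (l 16212880) (l 16398440)) (b (l 16650576) (l 16777040)))), by decide +kernel⟩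

def k1_pp_102 : ∃ t, chk3 f_pp_102 t 6 2 1 = true :=
  ⟨(b (b (a (b (b (c (l 15507848) (l 15428184)) (l 15593688)) (l 15709632)) (a (b (a (a (c (l 15416576) (l 15478800)) (b (c (l 15555368) (l 15354608)) (l 15711816))) (b (b (c (l 15837472) (l 15789944)) (c (l 15936136) (l 15906040))) (c (l 16069632) (l 15985600)))) (a (l 15638896) (l 16049016))) (b (c (b (a (b (l 16176616) (l 16325456)) (l 16229792)) (a (l 16276400) (l 16221144))) (b (b (a (l 16059184) (l 16356272)) (l 16191640)) (a (l 16251216) (l 16246368)))) (a (b (l 16382688) (l 16408224)) (b (l 15833152) (l 15935768)))))) (a (b (l 16155904) (l 16540528)) (b (a (b (l 15944240) (l 16355632)) (a (l 16162320) (l 15677080))) (a (a (l 16585448) (l 16418976)) (l 15543496))))) (a (b (b (l 16296768) (l 16398440)) (l 16715384)) (b (a (b (l 16405960) (l 16548576)) (b (l 15676376) (l 15759560))) (a (b (l 16563032) (l 16505360)) (b (l 15619952) (l 15553288)))))), by decide +kernel⟩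

def k2_pp_102 : ∃ t, chk3 f_pp_102 t 14 8 1 = true :=
  ⟨(b (a (b (a (b (b (l 16158784) (l 16024072)) (c (l 16064792) (l 16075392))) (c (a (l 15871336) (b (l 15851280) (l 15708656))) (b (a (l 15949592) (l 15708504)) (l 15700712)))) (a (l 15658848) (c (l 15501832) (l 15590520)))) (b (b (c (l 15835904) (b (l 15846664) (l 15790048))) (c (a (l 15714840) (l 15706344)) (a (l 15714664) (l 15706960)))) (c (a (l 15543776) (l 15556448)) (a (l 15548704) (l 15563480))))) (a (a (b (l 15673176) (l 15423336)) (b (a (l 15413152) (l 15297032)) (l 15017344))) (b (c (l 15332112) (l 15310560)) (l 15071944)))), by decide +kernel⟩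

def k3_pp_102 : ∃ t, chk3 f_pp_102 t 30 8 2 = true :=
  ⟨(b (a (b (b (l 15814056) (l 15691160)) (l 15550232)) (a (b (a (b (l 15805528) (l 15682960)) (b (c (l 15840304) (l 15762096)) (c (l 15704272) (l 15698952)))) (a (l 15542352) (b (l 15603432) (l 15517952)))) (b (c (b (b (l 16009416) (l 15896216)) (l 15777056)) (b (c (b (l 15998768) (l 15884096)) (l 15827040)) (c (l 15769984) (l 15766136)))) (b (c (l 15667256) (l 15676112)) (c (l 15576080) (l 15595312)))))) (a (b (b (l 15421312) (l 15320272)) (l 15132552)) (c (b (a (l 15372848) (l 15443568)) (a (l 15166672) (l 15249336))) (b (a (l 15380184) (l 15450128)) (a (l 15150128) (l 15231888)))))), by decide +kernel⟩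

def k4_pp_102 : ∃ t, chk3 f_pp_102 t 31 8 2 = true :=
  ⟨(b (b (b (a (c (b (l 16138000) (l 16070192)) (c (a (l 16047384) (l 16119080)) (l 16000400))) (a (c (l 16324912) (c (a (l 16309112) (l 16344744)) (l 16352248))) (c (a (l 16513672) (a (l 16468360) (l 16361352))) (c (a (l 16415880) (c (l 16368864) (l 16371704))) (b (l 16486480) (l 16558064)))))) (a (c (a (b (l 15954104) (l 15857728)) (l 15879944)) (a (c (b (l 15945744) (l 15853992)) (l 15894408)) (c (l 15832048) (l 16069824)))) (c (a (b (l 16316568) (l 16218952)) (a (l 16253408) (a (l 16345032) (b (b (l 16548304) (l 16483312)) (l 16436056))))) (c (a (c (l 16182776) (l 16169760)) (a (c (l 16347912) (l 16349688)) (c (b (l 16462152) (l 16470552)) (b (b (l 16490368) (l 16514528)) (l 16427480))))) (b (b (l 16262352) (l 16330960)) (l 16225064)))))) (a (c (b (a (l 15763880) (b (l 15924704) (l 15840984))) (a (l 15664200) (l 15757224))) (a (b (c (l 15768360) (l 15767000)) (c (l 15679120) (l 15678928))) (b (c (b (l 15904584) (l 15850800))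 (l 15884520)) (l 15712160)))) (c (a (b (l 16054048) (l 15875736)) (a (l 15883816) (c (l 16056160) (b (l 16224160) (l 16109608))))) (a (c (b (l 15996864) (l 15807368)) (l 15713032)) (c (c (a (l 16115080) (l 16126480)) (l 15897032)) (l 16133608)))))) (a (c (b (b (l 15619528) (l 15527848)) (l 15380416)) (b (c (c (l 15528528) (l 15404504)) (l 15568608)) (c (l 15370072) (l 15342704)))) (c (a (b (l 15690520) (l 15510456)) (b (a (l 15788136) (b (l 15740016) (l 15787160))) (a (l 15577912) (b (l 15680584) (l 15572368))))) (b (a (c (b (l 15773728) (l 15669984)) (l 15697832)) (c (a (l 15672304) (c (l 15876480) (l 15834888))) (l 15802272))) (c (a (l 15499656) (a (l 15566904) (l 15427832))) (l 15505552)))))), by decide +kernel⟩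

def k5_pp_102 : ∃ t, chk3 f_pp_102 t 15 8 3 = true :=
  ⟨(b (a (b (a (b (c (l 15795792) (l 15793848)) (l 15692328)) (b (a (a (c (l 15787016) (l 15785128)) (b (c (l 15847080) (l 15839056)) (l 15778328))) (b (l 15871664) (c (l 15867912) (l 15872712)))) (a (l 15694104) (l 15732400)))) (a (l 15558680) (b (l 15585904) (a (l 15516032) (l 15591832))))) (b (b (b (a (c (l 16208656) (l 16103472)) (a (l 16361848) (b (l 16451800) (l 16446768)))) (a (c (l 16102504) (l 16133616)) (c (l 16300592) (l 16339168)))) (b (a (l 15790032) (a (l 16309632) (a (l 16412416) (b (l 16472800) (l 16479040))))) (a (c (l 15843336) (l 15878432)) (c (l 16207152) (l 16228592))))) (a (b (a (l 15740288) (c (l 15903744) (l 15905248))) (a (l 15676752) (l 15766704))) (b (c (l 16034928) (l 16104256)) (a (l 15883208) (l 16044376)))))) (a (a (b (l 15348432) (l 15085304)) (b (a (l 15356136) (l 15423576)) (l 15146816))) (b (a (b (l 15606880) (l 15489288)) (b (l 15612400) (l 15665064))) (a (l 15313936) (l 15417440))))),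 by decide +kernel⟩

def k6_pp_102 : ∃ t, chk3 f_pp_102 t 7 9 1 = true :=
  ⟨(a (b (a (a (l 15176952) (b (l 14802824) (l 14570920))) (b (l 14724680) (a (l 14361144) (l 14284944)))) (a (a (l 14928352) (l 14368520)) (b (b (l 14084112) (l 14067592)) (l 14141216)))) (c (a (b (a (b (l 14769592) (l 14313344)) (c (b (l 14848752) (l 14381528)) (a (l 14532488) (l 14617584)))) (a (b (b (l 13987136) (l 13905520)) (l 13787608)) (c (b (b (l 14046936) (l 13951792)) (l 13911408)) (b (b (l 13998264) (l 13901408)) (l 13860448))))) (b (a (c (l 14549840) (b (l 14775120) (l 14523744))) (c (a (l 14839736) (b (l 15162296) (l 14809576))) (c (a (l 14663832) (b (l 15224720) (l 14781736))) (l 14913200)))) (c (a (b (l 14174400) (l 14072344)) (a (l 14262248) (b (b (l 14458320) (l 14358408)) (l 14305216)))) (c (b (a (l 14136992) (b (l 14379264) (l 14278512))) (l 14133360)) (b (l 14184704) (l 14080144)))))) (b (a (a (l 14463024) (b (l 14763488) (l 14274016))) (b (a (l 14949008) (l 15122320)) (l 14543896)))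 (a (a (b (l 13850256) (l 13835760)) (b (l 13873384) (l 13782072))) (b (l 14066200) (l 14022432)))))), by decide +kernel⟩

def k7_pp_102 : ∃ t, chk3 f_pp_102 t 7 5 1 = true :=
  ⟨(a (b (b (a (a (l 15073600) (l 14584816)) (l 14271360)) (a (l 14761576) (l 14196400))) (b (a (l 14605344) (l 14023760)) (a (l 14529960) (l 13939680)))) (b (a (b (a (b (l 13975272) (l 14053496)) (c (b (a (l 13904072) (l 13910016)) (c (l 14007384) (l 13958832))) (b (l 13806184) (l 13884112)))) (a (l 13935856) (c (c (l 13888584) (l 13837696)) (l 13759416)))) (b (b (c (a (c (l 14019696) (l 13965232)) (c (l 14105064) (l 14135208))) (l 13961352)) (c (a (c (l 14034112) (b (l 13973168) (l 13984856))) (c (a (l 14084384) (l 14150784)) (b (l 14085200) (l 14044600)))) (a (l 13895752) (l 13971448)))) (c (a (c (l 13907024) (l 13850632)) (c (a (l 13927464) (l 13942232)) (b (l 13935248) (l 13824096)))) (b (l 13804064) (l 13713152))))) (a (a (b (l 13750928) (l 13660336)) (b (c (l 13674040) (l 13562280)) (l 13522464)))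 (c (b (c (a (l 13711896) (l 13733224)) (l 13663920)) (c (l 13607320) (l 13563560))) (b (l 13558032) (l 13454400)))))), by decide +kernel⟩

def k8_pp_102 : ∃ t, chk3 f_pp_102 t 1 3 1 = true :=
  ⟨(a (l 2) (b (a (a (l 16777216) (a (l 16505280) (l 15553200))) (a (a (l 14529856) (l 13939560)) (a (a (l 13660208) (c (l 13581040) (l 13465136))) (c (c (a (l 13615672) (l 13632768)) (l 13563424)) (l 13454256))))) (a (l 2) (a (a (l 2) (l 13939560)) (c (a (l 13647752) (l 13592992)) (l 13514480)))))), by decide +kernel⟩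

theorem s9_pp_102 : ∃ t, chk3 f_pp_102 t 15 8 2 = true := ex3_a k3_pp_102 k4_pp_102

theorem s10_pp_102 : ∃ t, chk3 f_pp_102 t 15 8 1 = true := ex3_c s9_pp_102 k5_pp_102

theorem s11_pp_102 : ∃ t, chk3 f_pp_102 t 7 8 1 = true := ex3_a k2_pp_102 s10_pp_102

theorem s12_pp_102 : ∃ t, chk3 f_pp_102 t 7 4 1 = true := ex3_b s11_pp_102 k6_pp_102

theorem s13_pp_102 : ∃ t, chk3 f_pp_102 t 7 2 1 = true := ex3_b s12_pp_102 k7_pp_102

theorem s14_pp_102 : ∃ t, chk3 f_pp_102 t 3 2 1 = true := ex3_a k1_pp_102 s13_pp_102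

theorem s15_pp_102 : ∃ t, chk3 f_pp_102 t 1 2 1 = true := ex3_a k0_pp_102 s14_pp_102

theorem s16_pp_102 : ∃ t, chk3 f_pp_102 t 1 1 1 = true := ex3_b s15_pp_102 k8_pp_102

theorem c_pp_102 : CertNX 536870912 469762048 1073741824 536870912 1046898278 26843546 3 false true true .npp 1 0 2
    ndN6q1 ndN3q2 pcN0 Cut.none Ext.none :=
  certNX0 (fam := false) (s1 := true) (s2 := true) (a := 1) (b := 0) (c := 2) (cn := .npp) (n1 := ndN6q1) (n2 := ndN3q2) (pc := pcN0) (cut := Cut.none) (xt := Ext.none) (P1 := 536870912) (W1 := 469762048) (P2 := 1073741824) (W2 := 536870912) (P3 := 1046898278) (W3 := 26843546) (N0 := 3)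
    rfl s16_pp_102

noncomputable def f_pp_112 : ℕ → ℕ → ℕ → ℕ → Bool := onCell 536870912 469762048 1073741824 536870912 1046898278 26843546
    (rowNX 3 0 false true true .dn 1 1 2 (qsf 536870912 469762048 1073741824 536870912 1) ndN6q1 ndN3q2 pcN1 Cut.none Ext.none)

def k0_pp_112 : ∃ t, chk3 f_pp_112 t 1 1 1 = true :=
  ⟨(b (a (b (a (b (b (l 499857350631) (l 15709632)) (b (l 16155904) (l 16540528))) (b (l 1) (b (l 1) (l 16540528)))) (b (b (l 64993617367) (l 16398440)) (b (l 16650576) (l 16777040)))) (a (b (l 1) (a (b (l 1) (l 16715384)) (l 1))) (l 1))) (a (b (a (b (l 16767256) (a (l 16606176) (l 16752368))) (l 16777216)) (a (b (a (b (l 16329936) (l 15997888)) (l 16567032)) (a (b (l 15569416) (l 15052480)) (b (l 16237104) (l 15859296)))) (b (l 16753048) (a (l 16510344) (l 16724104))))) (a (a (b (l 16777216) (l 16777200)) (b (a (l 16505280) (l 15553200)) (a (l 16505280) (l 15553200)))) (a (b (l 456905119527) (l 390869892487)) (b (l 1) (c (a (l 13647752) (l 13592992)) (l 13472536))))))),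 by decide +kernel⟩

theorem c_pp_112 : CertNX 536870912 469762048 1073741824 536870912 1046898278 26843546 3 false true true .dn 1 1 2
    ndN6q1 ndN3q2 pcN1 Cut.none Ext.none :=
  certNX0 (fam := false) (s1 := true) (s2 := true) (a := 1) (b := 1) (c := 2) (cn := .dn) (n1 := ndN6q1) (n2 := ndN3q2) (pc := pcN1) (cut := Cut.none) (xt := Ext.none) (P1 := 536870912) (W1 := 469762048) (P2 := 1073741824) (W2 := 536870912) (P3 := 1046898278) (W3 := 26843546) (N0 := 3)
    rfl k0_pp_112

noncomputable def f_pp_113 : ℕ → ℕ → ℕ → ℕ → Bool := onCell 536870912 469762048 536870912 536870912 1046898278 26843546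
    (rowNX 3 1 false true true .nn 1 1 3 (qsf 536870912 469762048 1610612736 536870912 1) ndN6q1 ndN3q3 pcN1 Cut.none Ext.none)

def k0_pp_113 : ∃ t, chk3 f_pp_113 t 1 1 1 = true :=
  ⟨(b (a (l 1) (a (a (l 16777216) (b (l 1) (l 16036480))) (a (b (l 14049616) (l 14238360)) (a (b (l 478915533351) (l 13423808)) (c (b (l 13592992) (l 13592992)) (l 512738499719)))))) (a (b (b (l 16744808) (l 284037410359)) (b (b (l 15975144) (l 15506240)) (b (l 14875184) (a (l 14481520) (l 14216360))))) (b (a (b (a (l 16739792) (l 15999280)) (a (l 16412112) (l 15669560))) (a (b (l 14197192) (l 13743496)) (b (a (l 13551432) (l 13479736)) (a (l 13179840) (l 13093936))))) (a (b (a (l 15549976) (l 14759472)) (a (l 14366184) (b (l 13869960) (l 13159576)))) (a (b (l 12947768) (b (l 12111440) (l 11440584))) (b (a (l 12272832) (l 12180728)) (b (a (l 11490080) (l 11447000)) (a (l 10894456) (c (l 11425688) (l 10464000)))))))))), by decide +kernel⟩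

theorem c_pp_113 : CertNX 536870912 469762048 1610612736 536870912 1046898278 26843546 3 false true true .nn 1 1 3
    ndN6q1 ndN3q3 pcN1 Cut.none Ext.none :=
  certNX1 (fam := false) (s1 := true) (s2 := true) (a := 1) (b := 1) (c := 3) (cn := .nn) (n1 := ndN6q1) (n2 := ndN3q3) (pc := pcN1) (cut := Cut.none) (xt := Ext.none) (P1 := 536870912) (W1 := 469762048) (P2 := 1610612736) (W2 := 536870912) (P3 := 1046898278) (W3 := 26843546) (N0 := 3)
    rfl (fun _ => rfl) k0_pp_113

noncomputable def f_pp_123 : ℕ → ℕ → ℕ → ℕ → Bool := onCell 536870912 469762048 1073741824 536870912 1046898278 26843546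
    (rowNX 3 1 false true true .npn 1 2 3 (qsf 536870912 469762048 1610612736 536870912 2) ndN6q1 ndN3q3 pcN2 Cut.none Ext.none)

def k0_pp_123 : ∃ t, chk3 f_pp_123 t 1 1 1 = true :=
  ⟨(b (a (b (b (a (c (l 14186216) (l 13982864)) (c (l 13929616) (b (l 13774936) (l 13898408)))) (b (a (l 14298160) (l 14042200)) (l 14167640))) (b (b (l 14509720) (l 15135512)) (a (l 15652888) (b (l 15527952) (l 15883576))))) (b (a (b (a (c (l 13716040) (l 13594040)) (c (b (l 13001176) (l 13329384)) (b (l 12791968) (l 13140592)))) (b (a (l 13825016) (l 13588056)) (a (l 13929400) (l 14016096)))) (b (a (b (c (l 11916408) (a (l 11562208) (l 11185144))) (c (l 12999600) (l 12589064))) (c (b (a (l 11940648) (l 12482360)) (a (l 13637544) (c (l 14746784) (l 14486824)))) (b (a (l 11153424) (l 11505144)) (l 13564696)))) (a (b (a (l 13748688) (l 14306424)) (l 15290584)) (b (a (c (l 15388288) (l 15133216)) (l 4)) (l 4))))) (a (b (a (b (l 14486432) (l 15090696)) (b (l 14862464) (l 4))) (l 4)) (b (l 4) (l 2)))))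 (a (b (a (b (l 16371832) (l 4)) (b (l 4) (l 4))) (a (l 4) (b (b (l 4) (l 2)) (l 2)))) (b (a (b (l 4) (l 2)) (l 2)) (l 2)))), by decide +kernel⟩

theorem c_pp_123 : CertNX 536870912 469762048 1610612736 536870912 1046898278 26843546 3 false true true .npn 1 2 3
    ndN6q1 ndN3q3 pcN2 Cut.none Ext.none :=
  certNX1 (fam := false) (s1 := true) (s2 := true) (a := 1) (b := 2) (c := 3) (cn := .npn) (n1 := ndN6q1) (n2 := ndN3q3) (pc := pcN2) (cut := Cut.none) (xt := Ext.none) (P1 := 536870912) (W1 := 469762048) (P2 := 1610612736) (W2 := 536870912) (P3 := 1046898278) (W3 := 26843546) (N0 := 3)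
    rfl (fun _ => rfl) k0_pp_123

noncomputable def f_pp_133 : ℕ → ℕ → ℕ → ℕ → Bool := onCell 1610612736 536870912 1610612736 536870912 1046898278 26843546
    (rowNX 3 2 false true true .dn 1 3 3 (qsf 536870912 469762048 1610612736 536870912 3) ndN6q1 ndN3q3 pcN3 Cut.none Ext.none)

def k0_pp_133 : ∃ t, chk3 f_pp_133 t 1 1 1 = true :=
  ⟨(a (b (l 1) (l 4)) (l 1)), by decide +kernel⟩

theorem c_pp_133 : CertNX 536870912 469762048 1610612736 536870912 1046898278 26843546 3 false true true .dn 1 3 3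
    ndN6q1 ndN3q3 pcN3 Cut.none Ext.none :=
  certNX2 (fam := false) (s1 := true) (s2 := true) (a := 1) (b := 3) (c := 3) (cn := .dn) (n1 := ndN6q1) (n2 := ndN3q3) (pc := pcN3) (cut := Cut.none) (xt := Ext.none) (P1 := 536870912) (W1 := 469762048) (P2 := 1610612736) (W2 := 536870912) (P3 := 1046898278) (W3 := 26843546) (N0 := 3)
    rfl (fun _ => rfl) k0_pp_133

noncomputable def f_pp_202 : ℕ → ℕ → ℕ → ℕ → Bool := onCell 1073741824 536870912 1073741824 536870912 1046898278 26843546
    (rowNX 3 0 false true true .pp 2 0 2 (qsf 1073741824 536870912 1073741824 536870912 0) ndN6q2 ndN3q2 pcN0 Cut.none Ext.none)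

def k0_pp_202 : ∃ t, chk3 f_pp_202 t 1 1 1 = true :=
  ⟨(l 3), by decide +kernel⟩

theorem c_pp_202 : CertNX 1073741824 536870912 1073741824 536870912 1046898278 26843546 3 false true true .pp 2 0 2
    ndN6q2 ndN3q2 pcN0 Cut.none Ext.none :=
  certNX0 (fam := false) (s1 := true) (s2 := true) (a := 2) (b := 0) (c := 2) (cn := .pp) (n1 := ndN6q2) (n2 := ndN3q2) (pc := pcN0) (cut := Cut.none) (xt := Ext.none) (P1 := 1073741824) (W1 := 536870912) (P2 := 1073741824) (W2 := 536870912) (P3 := 1046898278) (W3 := 26843546) (N0 := 3)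
    rfl k0_pp_202

noncomputable def f_pp_203 : ℕ → ℕ → ℕ → ℕ → Bool := onCell 1073741824 536870912 0 536870912 1046898278 26843546
    (rowNX 3 1 false true true .up 2 0 3 (qsf 1073741824 536870912 1610612736 536870912 0) ndN6q2 ndN3q3 pcN0 Cut.none Ext.none)

def k0_pp_203 : ∃ t, chk3 f_pp_203 t 1 1 1 = true :=
  ⟨(b (l 3) (a (l 3) (l 3))), by decide +kernel⟩

theorem c_pp_203 : CertNX 1073741824 536870912 1610612736 536870912 1046898278 26843546 3 false true true .up 2 0 3
    ndN6q2 ndN3q3 pcN0 Cut.none Ext.none :=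
  certNX1 (fam := false) (s1 := true) (s2 := true) (a := 2) (b := 0) (c := 3) (cn := .up) (n1 := ndN6q2) (n2 := ndN3q3) (pc := pcN0) (cut := Cut.none) (xt := Ext.none) (P1 := 1073741824) (W1 := 536870912) (P2 := 1610612736) (W2 := 536870912) (P3 := 1046898278) (W3 := 26843546) (N0 := 3)
    rfl (fun _ => rfl) k0_pp_203

noncomputable def f_pp_213 : ℕ → ℕ → ℕ → ℕ → Bool := onCell 1073741824 536870912 1610612736 536870912 1046898278 26843546
    (rowNX 3 0 false true true .pnn 2 1 3 (qsf 1073741824 536870912 1610612736 536870912 1) ndN6q2 ndN3q3 pcN1 Cut.none Ext.none)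

def k0_pp_213 : ∃ t, chk3 f_pp_213 t 1 1 1 = true :=
  ⟨(a (b (b (l 3) (a (b (l 3) (a (b (l 14656704) (l 14824472)) (b (l 3) (l 214374883879)))) (l 3))) (a (b (a (b (b (l 14656696) (a (l 14542832) (l 14756512))) (b (a (l 14504008) (l 14749080)) (l 14593568))) (b (b (a (l 14906456) (l 14732584)) (a (l 14906424) (l 14732560))) (a (b (l 14906360) (l 14903112)) (l 14732520)))) (b (a (b (a (l 14315288) (l 14704576)) (a (l 14165240) (l 14659792))) (a (l 14871624) (b (l 14731912) (l 14695592)))) (a (b (a (l 14784136) (l 14855968)) (l 15190880)) (b (a (l 15029328) (l 14789184)) (a (l 15578552) (l 15151320)))))) (b (b (a (b (l 3) (a (l 14679184) (l 15487576))) (l 3)) (a (a (a (l 14569624) (l 14786504)) (b (l 15487536) (l 15487552))) (a (b (l 16347784) (l 16347800)) (b (l 3) (l 16776560))))) (a (b (a (b (l 14676688) (l 14625504)) (b (l 15485040) (l 15424880))) (a (b (l 14678960) (l 14889632)) (l 15268112))) (b (a (b (l 16345248) (l 16281424)) (b (l 16773680) (l 16700184))) (a (l 16287880)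 (l 16685536))))))) (b (l 3) (b (b (l 3) (a (a (c (l 16777152) (l 256792066663)) (l 3)) (l 3))) (a (c (b (a (l 16730632) (l 16730632)) (b (l 16702864) (l 16775184))) (b (a (l 53317675815) (l 254107448679)) (b (l 73181924151) (l 16754824)))) (b (l 3) (a (c (l 16691672) (l 16686984)) (b (l 3) (l 295446828343)))))))), by decide +kernel⟩

theorem c_pp_213 : CertNX 1073741824 536870912 1610612736 536870912 1046898278 26843546 3 false true true .pnn 2 1 3
    ndN6q2 ndN3q3 pcN1 Cut.none Ext.none :=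
  certNX0 (fam := false) (s1 := true) (s2 := true) (a := 2) (b := 1) (c := 3) (cn := .pnn) (n1 := ndN6q2) (n2 := ndN3q3) (pc := pcN1) (cut := Cut.none) (xt := Ext.none) (P1 := 1073741824) (W1 := 536870912) (P2 := 1610612736) (W2 := 536870912) (P3 := 1046898278) (W3 := 26843546) (N0 := 3)
    rfl k0_pp_213

noncomputable def f_pp_303 : ℕ → ℕ → ℕ → ℕ → Bool := onCell 0 1230186008 1610612736 536870912 1046898278 26843546
    (rowNX 3 0 false true true .npn 3 0 3 (qsf 0 1230186008 1610612736 536870912 0) ndN6q3 ndN3q3 pcN0 Cut.none Ext.none)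

def k0_pp_303 : ∃ t, chk3 f_pp_303 t 1 1 1 = true :=
  ⟨(a (l 3) (a (l 3) (b (l 3) (l 3)))), by decide +kernel⟩

theorem c_pp_303 : CertNX 0 1230186008 1610612736 536870912 1046898278 26843546 3 false true true .npn 3 0 3
    ndN6q3 ndN3q3 pcN0 Cut.none Ext.none :=
  certNX0 (fam := false) (s1 := true) (s2 := true) (a := 3) (b := 0) (c := 3) (cn := .npn) (n1 := ndN6q3) (n2 := ndN3q3) (pc := pcN0) (cut := Cut.none) (xt := Ext.none) (P1 := 0) (W1 := 1230186008) (P2 := 1610612736) (W2 := 536870912) (P3 := 1046898278) (W3 := 26843546) (N0 := 3)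
    rfl k0_pp_303

noncomputable def f_pp_313 : ℕ → ℕ → ℕ → ℕ → Bool := onCell 0 1230186008 1610612736 536870912 1046898278 26843546
    (rowNX 3 0 false true true .dn 3 1 3 (qsf 0 1230186008 1610612736 536870912 1) ndN6q3 ndN3q3 pcN1 Cut.none Ext.none)

def k0_pp_313 : ∃ t, chk3 f_pp_313 t 1 1 1 = true :=
  ⟨(a (l 1) (a (l 1) (b (l 1) (l 3)))), by decide +kernel⟩

theorem c_pp_313 : CertNX 0 1230186008 1610612736 536870912 1046898278 26843546 3 false true true .dn 3 1 3
    ndN6q3 ndN3q3 pcN1 Cut.none Ext.none :=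
  certNX0 (fam := false) (s1 := true) (s2 := true) (a := 3) (b := 1) (c := 3) (cn := .dn) (n1 := ndN6q3) (n2 := ndN3q3) (pc := pcN1) (cut := Cut.none) (xt := Ext.none) (P1 := 0) (W1 := 1230186008) (P2 := 1610612736) (W2 := 536870912) (P3 := 1046898278) (W3 := 26843546) (N0 := 3)
    rfl k0_pp_313

noncomputable def f_pm_001 : ℕ → ℕ → ℕ → ℕ → Bool := onCell 0 536870912 536870912 536870912 1046898278 26843546
    (rowNX 3 0 false true false .up 0 0 1 (qsf 0 536870912 536870912 536870912 0) ndN6q0 ndN3q1 pcN0 Cut.none Ext.none)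

def k0_pm_001 : ∃ t, chk3 f_pm_001 t 1 1 1 = true :=
  ⟨(l 4), by decide +kernel⟩

theorem c_pm_001 : CertNX 0 536870912 536870912 536870912 1046898278 26843546 3 false true false .up 0 0 1
    ndN6q0 ndN3q1 pcN0 Cut.none Ext.none :=
  certNX0 (fam := false) (s1 := true) (s2 := false) (a := 0) (b := 0) (c := 1) (cn := .up) (n1 := ndN6q0) (n2 := ndN3q1) (pc := pcN0) (cut := Cut.none) (xt := Ext.none) (P1 := 0) (W1 := 536870912) (P2 := 536870912) (W2 := 536870912) (P3 := 1046898278) (W3 := 26843546) (N0 := 3)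
    rfl k0_pm_001

noncomputable def f_pm_011 : ℕ → ℕ → ℕ → ℕ → Bool := onCell 0 536870912 536870912 536870912 1046898278 26843546
    (rowNX 3 0 false true false .pnn 0 1 1 (qsf 0 536870912 536870912 536870912 1) ndN6q0 ndN3q1 pcN1 Cut.none Ext.none)

def k0_pm_011 : ∃ t, chk3 f_pm_011 t 1 1 1 = true :=
  ⟨(l 4), by decide +kernel⟩

theorem c_pm_011 : CertNX 0 536870912 536870912 536870912 1046898278 26843546 3 false true false .pnn 0 1 1
    ndN6q0 ndN3q1 pcN1 Cut.none Ext.none :=
  certNX0 (fam := false) (s1 := true) (s2 := false) (a := 0) (b := 1) (c := 1) (cn := .pnn) (n1 := ndN6q0) (n2 := ndN3q1) (pc := pcN1) (cut := Cut.none) (xt := Ext.none) (P1 := 0) (W1 := 536870912) (P2 := 536870912) (W2 := 536870912) (P3 := 1046898278) (W3 := 26843546) (N0 := 3)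
    rfl k0_pm_011

noncomputable def f_pm_012 : ℕ → ℕ → ℕ → ℕ → Bool := onCell 0 536870912 1073741824 536870912 1046898278 26843546
    (rowNX 3 0 false true false .pnp 0 1 2 (qsf 0 536870912 1073741824 536870912 1) ndN6q0 ndN3q2 pcN1 Cut.none Ext.none)

def k0_pm_012 : ∃ t, chk3 f_pm_012 t 1 1 1 = true :=
  ⟨(l 4), by decide +kernel⟩

theorem c_pm_012 : CertNX 0 536870912 1073741824 536870912 1046898278 26843546 3 false true false .pnp 0 1 2
    ndN6q0 ndN3q2 pcN1 Cut.none Ext.none :=
  certNX0 (fam := false) (s1 := true) (s2 := false) (a := 0) (b := 1) (c := 2) (cn := .pnp) (n1 := ndN6q0) (n2 := ndN3q2) (pc := pcN1) (cut := Cut.none) (xt := Ext.none) (P1 := 0) (W1 := 536870912) (P2 := 1073741824) (W2 := 536870912) (P3 := 1046898278) (W3 := 26843546) (N0 := 3)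
    rfl k0_pm_012

noncomputable def f_pm_022 : ℕ → ℕ → ℕ → ℕ → Bool := onCell 0 536870912 1073741824 536870912 1046898278 26843546
    (rowNX 3 0 false true false .pp 0 2 2 (qsf 0 536870912 1073741824 536870912 2) ndN6q0 ndN3q2 pcN2 Cut.none Ext.none)

def k0_pm_022 : ∃ t, chk3 f_pm_022 t 1 1 1 = true :=
  ⟨(l 4), by decide +kernel⟩

theorem c_pm_022 : CertNX 0 536870912 1073741824 536870912 1046898278 26843546 3 false true false .pp 0 2 2
    ndN6q0 ndN3q2 pcN2 Cut.none Ext.none :=
  certNX0 (fam := false) (s1 := true) (s2 := false) (a := 0) (b := 2) (c := 2) (cn := .pp) (n1 := ndN6q0) (n2 := ndN3q2) (pc := pcN2) (cut := Cut.none) (xt := Ext.none) (P1 := 0) (W1 := 536870912) (P2 := 1073741824) (W2 := 536870912) (P3 := 1046898278) (W3 := 26843546) (N0 := 3)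
    rfl k0_pm_022

noncomputable def f_pm_023 : ℕ → ℕ → ℕ → ℕ → Bool := onCell 0 536870912 1610612736 536870912 1046898278 26843546
    (rowNX 3 0 false true false .up 0 2 3 (qsf 0 536870912 1610612736 536870912 2) ndN6q0 ndN3q3 pcN2 Cut.none Ext.none)

def k0_pm_023 : ∃ t, chk3 f_pm_023 t 1 1 1 = true :=
  ⟨(l 4), by decide +kernel⟩

theorem c_pm_023 : CertNX 0 536870912 1610612736 536870912 1046898278 26843546 3 false true false .up 0 2 3
    ndN6q0 ndN3q3 pcN2 Cut.none Ext.none :=
  certNX0 (fam := false) (s1 := true) (s2 := false) (a := 0) (b := 2) (c := 3) (cn := .up) (n1 := ndN6q0) (n2 := ndN3q3) (pc := pcN2) (cut := Cut.none) (xt := Ext.none) (P1 := 0) (W1 := 536870912) (P2 := 1610612736) (W2 := 536870912) (P3 := 1046898278) (W3 := 26843546) (N0 := 3)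
    rfl k0_pm_023

noncomputable def f_pm_033 : ℕ → ℕ → ℕ → ℕ → Bool := onCell 0 536870912 1610612736 536870912 1046898278 26843546
    (rowNX 3 0 false true false .pnn 0 3 3 (qsf 0 536870912 1610612736 536870912 3) ndN6q0 ndN3q3 pcN3 Cut.none Ext.none)

def k0_pm_033 : ∃ t, chk3 f_pm_033 t 1 1 1 = true :=
  ⟨(l 4), by decide +kernel⟩

theorem c_pm_033 : CertNX 0 536870912 1610612736 536870912 1046898278 26843546 3 false true false .pnn 0 3 3
    ndN6q0 ndN3q3 pcN3 Cut.none Ext.none :=
  certNX0 (fam := false) (s1 := true) (s2 := false) (a := 0) (b := 3) (c := 3) (cn := .pnn) (n1 := ndN6q0) (n2 := ndN3q3) (pc := pcN3) (cut := Cut.none) (xt := Ext.none) (P1 := 0) (W1 := 536870912) (P2 := 1610612736) (W2 := 536870912) (P3 := 1046898278) (W3 := 26843546) (N0 := 3)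
    rfl k0_pm_033

noncomputable def f_pm_101 : ℕ → ℕ → ℕ → ℕ → Bool := onCell 536870912 469762048 536870912 536870912 1046898278 26843546
    (rowNX 3 0 false true false .npn 1 0 1 (qsf 536870912 469762048 536870912 536870912 0) ndN6q1 ndN3q1 pcN0 Cut.none Ext.none)

def k0_pm_101 : ∃ t, chk3 f_pm_101 t 1 1 1 = true :=
  ⟨(l 4), by decide +kernel⟩

theorem c_pm_101 : CertNX 536870912 469762048 536870912 536870912 1046898278 26843546 3 false true false .npn 1 0 1
    ndN6q1 ndN3q1 pcN0 Cut.none Ext.none :=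
  certNX0 (fam := false) (s1 := true) (s2 := false) (a := 1) (b := 0) (c := 1) (cn := .npn) (n1 := ndN6q1) (n2 := ndN3q1) (pc := pcN0) (cut := Cut.none) (xt := Ext.none) (P1 := 536870912) (W1 := 469762048) (P2 := 536870912) (W2 := 536870912) (P3 := 1046898278) (W3 := 26843546) (N0 := 3)
    rfl k0_pm_101

noncomputable def f_pm_102 : ℕ → ℕ → ℕ → ℕ → Bool := onCell 536870912 469762048 1073741824 536870912 1046898278 26843546
    (rowNX 3 0 false true false .npp 1 0 2 (qsf 536870912 469762048 1073741824 536870912 0) ndN6q1 ndN3q2 pcN0 Cut.none Ext.none)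

def k0_pm_102 : ∃ t, chk3 f_pm_102 t 1 1 1 = true :=
  ⟨(l 4), by decide +kernel⟩

theorem c_pm_102 : CertNX 536870912 469762048 1073741824 536870912 1046898278 26843546 3 false true false .npp 1 0 2
    ndN6q1 ndN3q2 pcN0 Cut.none Ext.none :=
  certNX0 (fam := false) (s1 := true) (s2 := false) (a := 1) (b := 0) (c := 2) (cn := .npp) (n1 := ndN6q1) (n2 := ndN3q2) (pc := pcN0) (cut := Cut.none) (xt := Ext.none) (P1 := 536870912) (W1 := 469762048) (P2 := 1073741824) (W2 := 536870912) (P3 := 1046898278) (W3 := 26843546) (N0 := 3)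
    rfl k0_pm_102

noncomputable def f_pm_112 : ℕ → ℕ → ℕ → ℕ → Bool := onCell 536870912 469762048 1073741824 536870912 1046898278 26843546
    (rowNX 3 0 false true false .dn 1 1 2 (qsf 536870912 469762048 1073741824 536870912 1) ndN6q1 ndN3q2 pcN1 Cut.none Ext.none)

def k0_pm_112 : ∃ t, chk3 f_pm_112 t 1 1 1 = true :=
  ⟨(l 4), by decide +kernel⟩

theorem c_pm_112 : CertNX 536870912 469762048 1073741824 536870912 1046898278 26843546 3 false true false .dn 1 1 2
    ndN6q1 ndN3q2 pcN1 Cut.none Ext.none :=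
  certNX0 (fam := false) (s1 := true) (s2 := false) (a := 1) (b := 1) (c := 2) (cn := .dn) (n1 := ndN6q1) (n2 := ndN3q2) (pc := pcN1) (cut := Cut.none) (xt := Ext.none) (P1 := 536870912) (W1 := 469762048) (P2 := 1073741824) (W2 := 536870912) (P3 := 1046898278) (W3 := 26843546) (N0 := 3)
    rfl k0_pm_112

noncomputable def f_pm_113 : ℕ → ℕ → ℕ → ℕ → Bool := onCell 536870912 469762048 536870912 536870912 1046898278 26843546
    (rowNX 3 1 false true false .nn 1 1 3 (qsf 536870912 469762048 1610612736 536870912 1) ndN6q1 ndN3q3 pcN1 Cut.none Ext.none)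

def k0_pm_113 : ∃ t, chk3 f_pm_113 t 1 1 1 = true :=
  ⟨(l 4), by decide +kernel⟩

theorem c_pm_113 : CertNX 536870912 469762048 1610612736 536870912 1046898278 26843546 3 false true false .nn 1 1 3
    ndN6q1 ndN3q3 pcN1 Cut.none Ext.none :=
  certNX1 (fam := false) (s1 := true) (s2 := false) (a := 1) (b := 1) (c := 3) (cn := .nn) (n1 := ndN6q1) (n2 := ndN3q3) (pc := pcN1) (cut := Cut.none) (xt := Ext.none) (P1 := 536870912) (W1 := 469762048) (P2 := 1610612736) (W2 := 536870912) (P3 := 1046898278) (W3 := 26843546) (N0 := 3)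
    rfl (fun _ => rfl) k0_pm_113

noncomputable def f_pm_123 : ℕ → ℕ → ℕ → ℕ → Bool := onCell 536870912 469762048 1610612736 536870912 1046898278 26843546
    (rowNX 3 0 false true false .npn 1 2 3 (qsf 536870912 469762048 1610612736 536870912 2) ndN6q1 ndN3q3 pcN2 Cut.none Ext.none)

def k0_pm_123 : ∃ t, chk3 f_pm_123 t 1 1 1 = true :=
  ⟨(b (l 4) (l 4)), by decide +kernel⟩

theorem c_pm_123 : CertNX 536870912 469762048 1610612736 536870912 1046898278 26843546 3 false true false .npn 1 2 3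
    ndN6q1 ndN3q3 pcN2 Cut.none Ext.none :=
  certNX0 (fam := false) (s1 := true) (s2 := false) (a := 1) (b := 2) (c := 3) (cn := .npn) (n1 := ndN6q1) (n2 := ndN3q3) (pc := pcN2) (cut := Cut.none) (xt := Ext.none) (P1 := 536870912) (W1 := 469762048) (P2 := 1610612736) (W2 := 536870912) (P3 := 1046898278) (W3 := 26843546) (N0 := 3)
    rfl k0_pm_123

noncomputable def f_pm_133 : ℕ → ℕ → ℕ → ℕ → Bool := onCell 536870912 469762048 1610612736 536870912 1046898278 26843546
    (rowNX 3 0 false true false .dn 1 3 3 (qsf 536870912 469762048 1610612736 536870912 3) ndN6q1 ndN3q3 pcN3 Cut.none Ext.none)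

def k0_pm_133 : ∃ t, chk3 f_pm_133 t 1 1 1 = true :=
  ⟨(a (l 4) (l 1)), by decide +kernel⟩

theorem c_pm_133 : CertNX 536870912 469762048 1610612736 536870912 1046898278 26843546 3 false true false .dn 1 3 3
    ndN6q1 ndN3q3 pcN3 Cut.none Ext.none :=
  certNX0 (fam := false) (s1 := true) (s2 := false) (a := 1) (b := 3) (c := 3) (cn := .dn) (n1 := ndN6q1) (n2 := ndN3q3) (pc := pcN3) (cut := Cut.none) (xt := Ext.none) (P1 := 536870912) (W1 := 469762048) (P2 := 1610612736) (W2 := 536870912) (P3 := 1046898278) (W3 := 26843546) (N0 := 3)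
    rfl k0_pm_133

end Pool.Agent.Strip051.G.IE1.Tab.C.NB63

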