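import Pool.Agent.Strip051.G.IE1.Tab

/-! # Certificates N83 (generated) -/

set_option linter.all false
set_option maxRecDepth 100000

namespace Pool.Agent.Strip051.G.IE1.Tab.C.NB63

open Pool.Agent.Strip051.PB Pool.Agent.Strip051.PB.T
open Pool.Agent.Strip051.G.IE1.Tab

noncomputable def f_pm_202 : ℕ → ℕ → ℕ → ℕ → Bool := onCell 1073741824 536870912 0 536870912 1046898278 26843546
    (rowNX 3 1 false true false .pp 2 0 2 (qsf 1073741824 536870912 1073741824 536870912 0) ndN6q2 ndN3q2 pcN0 Cut.none Ext.none)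

def k0_pm_202 : ∃ t, chk3 f_pm_202 t 4 4 1 = true :=
  ⟨(b (b (a (b (c (a (b (a (l 13802368) (l 14016712)) (c (b (l 13973168) (l 13990408)) (b (l 13896368) (l 13925016)))) (b (l 14122488) (b (a (l 14199432) (l 14440344)) (c (l 14394152) (l 14349360))))) (b (a (c (b (l 13782064) (c (l 13818624) (l 13783344))) (b (c (l 13726256) (b (l 13685776) (l 13698320))) (l 13731968))) (c (b (l 14178536) (l 14146584)) (b (c (l 14142376) (l 14118304)) (l 14164456)))) (a (c (l 13836016) (l 13762456)) (c (a (l 14127056) (l 14419448)) (l 14235056))))) (a (c (b (c (l 14033488) (l 13952448)) (l 14021848)) (l 13861184)) (c (b (a (c (l 14299448) (l 14243000)) (l 14636512)) (l 14596144)) (a (l 14229696) (l 14634664))))) (b (c (a (b (l 14913232) (b (l 14864488) (c (l 15104192) (l 15082240)))) (b (l 15016504) (l 14951800))) (b (a (c (b (l 14829960) (l 14913472)) (b (c (l 14802312) (l 14783976)) (l 14880768))) (c (l 14965904) (b (l 14866400) (l 14925904)))) (a (c (l 14925456) (l 14973064)) (l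 14887400)))) (a (c (b (a (l 15081912) (l 15238992)) (l 15174720)) (a (l 15049368) (l 15137032))) (c (b (l 14884704) (l 14819864)) (l 14773384))))) (a (a (b (c (a (l 13957504) (l 14164520)) (a (l 13822008) (l 14099760))) (c (a (b (l 14009824) (l 14105608)) (l 14461088)) (l 14186088))) (b (c (a (l 14593744) (l 14996720)) (l 14649672)) (c (a (l 14866432) (l 15040216)) (l 14858144)))) (a (b (c (l 15110272) (l 15042448)) (c (l 14964744) (l 14899488))) (b (c (l 14776904) (l 14697408)) (l 14748576))))) (a (b (a (b (b (l 14426688) (l 14577824)) (l 14658864)) (b (l 14877032) (l 14753808))) (a (b (l 14650680) (l 14505928)) (l 14591856))) (b (a (b (l 14674832) (l 14896008)) (l 14906960)) (a (l 15049808) (l 15064528))))), by decide +kernel⟩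

def k1_pm_202 : ∃ t, chk3 f_pm_202 t 5 4 1 = true :=
  ⟨(b (b (a (b (a (c (b (l 14545952) (a (l 14608400) (l 14851128))) (b (a (c (l 14610016) (l 14569920)) (c (l 14769896) (l 14564888))) (a (l 14532016) (l 14783456)))) (c (b (l 15677544) (l 15498800)) (b (c (l 15582112) (b (l 15545696) (l 15638696))) (l 15630512)))) (a (c (a (l 14622352) (l 14943000)) (l 14518024)) (c (l 15731664) (l 15770960)))) (b (a (c (b (l 16441000) (l 16405176)) (b (c (l 16443000) (l 16338728)) (l 16397160))) (c (l 15818160) (b (l 15728264) (l 15840400)))) (a (c (l 16362064) (l 16372456)) (l 15611440)))) (a (a (a (l 14716672) (l 15058080)) (b (a (l 15601840) (l 16142200)) (l 15736360))) (a (l 16372992) (b (l 15907776) (l 15779352))))) (b (a (a (a (l 14908976) (l 15185424)) (l 15903160)) (b (a (l 16395648) (l 15983208)) (l 16192376))) (a (a (l 15070192) (l 15872256)) (l 16258096)))), by decide +kernel⟩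

def k2_pm_202 : ∃ t, chk3 f_pm_202 t 3 4 1 = true :=
  ⟨(b (b (a (b (c (b (l 15643864) (a (b (l 15741064) (l 15704032)) (l 15476824))) (b (c (b (l 15620448) (l 15380776)) (a (c (l 15440448) (l 15517952)) (l 15274008))) (c (l 15616328) (l 15630384)))) (c (b (a (l 15698376) (l 15553984)) (l 15677112)) (l 15666000))) (b (c (b (l 15199792) (l 14973672)) (b (c (l 15173576) (b (l 15150552) (l 15156080))) (l 15173840))) (c (l 15229696) (l 15215832)))) (a (c (b (l 15724320) (l 15777056)) (l 15732544)) (c (l 15289640) (l 15302424)))) (b (a (b (l 15816072) (l 15910936)) (b (l 15499488) (l 15714032))) (a (l 16073712) (a (l 16044632) (l 2))))), by decide +kernel⟩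

def k3_pm_202 : ∃ t, chk3 f_pm_202 t 1 5 1 = true :=
  ⟨(a (a (b (a (b (a (l 14320872) (l 14832448)) (a (l 14517800) (l 14910848))) (a (b (l 15172712) (l 15124032)) (l 15006416))) (b (a (a (l 14569872) (l 14835040)) (l 14895432)) (l 14674600))) (b (a (a (l 14943176) (l 15729840)) (l 16396736)) (a (a (l 14713632) (l 15517200)) (l 16590720)))) (b (a (l 16364960) (b (l 16480896) (l 2))) (b (a (l 16680696) (l 2)) (l 16777120)))), by decide +kernel⟩

def k4_pm_202 : ∃ t, chk3 f_pm_202 t 1 3 1 = true :=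
  ⟨(a (a (b (a (l 14656704) (l 14816816)) (a (l 14656704) (l 14816816))) (a (b (l 14903904) (a (l 14679208) (l 2))) (b (a (l 16347856) (l 16776616)) (l 2)))) (b (b (l 16777216) (l 2)) (l 2))), by decide +kernel⟩

theorem s5_pm_202 : ∃ t, chk3 f_pm_202 t 2 4 1 = true := ex3_a k0_pm_202 k1_pm_202

theorem s6_pm_202 : ∃ t, chk3 f_pm_202 t 1 4 1 = true := ex3_a s5_pm_202 k2_pm_202

theorem s7_pm_202 : ∃ t, chk3 f_pm_202 t 1 2 1 = true := ex3_b s6_pm_202 k3_pm_202

theorem s8_pm_202 : ∃ t, chk3 f_pm_202 t 1 1 1 = true := ex3_b s7_pm_202 k4_pm_202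

theorem c_pm_202 : CertNX 1073741824 536870912 1073741824 536870912 1046898278 26843546 3 false true false .pp 2 0 2
    ndN6q2 ndN3q2 pcN0 Cut.none Ext.none :=
  certNX1 (fam := false) (s1 := true) (s2 := false) (a := 2) (b := 0) (c := 2) (cn := .pp) (n1 := ndN6q2) (n2 := ndN3q2) (pc := pcN0) (cut := Cut.none) (xt := Ext.none) (P1 := 1073741824) (W1 := 536870912) (P2 := 1073741824) (W2 := 536870912) (P3 := 1046898278) (W3 := 26843546) (N0 := 3)
    rfl (fun _ => rfl) s8_pm_202

noncomputable def f_pm_203 : ℕ → ℕ → ℕ → ℕ → Bool := onCell 1073741824 536870912 0 536870912 1046898278 26843546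
    (rowNX 3 1 false true false .up 2 0 3 (qsf 1073741824 536870912 1610612736 536870912 0) ndN6q2 ndN3q3 pcN0 Cut.none Ext.none)

def k0_pm_203 : ∃ t, chk3 f_pm_203 t 1 1 1 = true :=
  ⟨(a (b (b (l 1) (a (l 1) (b (l 1) (a (l 1) (l 16569744))))) (a (b (a (l 1) (l 14816816)) (a (l 14656704) (l 14816816))) (a (b (l 14903904) (a (l 14679208) (l 15487608))) (b (a (l 16347856) (l 16776616)) (l 16567944))))) (b (b (b (a (l 1) (a (b (l 1) (l 15284696)) (b (b (c (l 15046416) (b (l 14955600) (l 15051552))) (c (l 15111840) (l 15096920))) (l 15203232)))) (b (a (l 1) (b (l 15499488) (l 15714032))) (a (l 16073712) (a (l 16044632) (l 16041544))))) (b (a (l 16364960) (b (l 16480896) (l 16629824))) (b (a (l 16680696) (l 16709256)) (l 16777120)))) (b (b (l 16777216) (l 16777184)) (a (l 16777176) (b (a (l 16777168) (l 16725920)) (a (l 16725920) (b (l 16714168) (l 16692928)))))))), by decide +kernel⟩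

theorem c_pm_203 : CertNX 1073741824 536870912 1610612736 536870912 1046898278 26843546 3 false true false .up 2 0 3
    ndN6q2 ndN3q3 pcN0 Cut.none Ext.none :=
  certNX1 (fam := false) (s1 := true) (s2 := false) (a := 2) (b := 0) (c := 3) (cn := .up) (n1 := ndN6q2) (n2 := ndN3q3) (pc := pcN0) (cut := Cut.none) (xt := Ext.none) (P1 := 1073741824) (W1 := 536870912) (P2 := 1610612736) (W2 := 536870912) (P3 := 1046898278) (W3 := 26843546) (N0 := 3)
    rfl (fun _ => rfl) k0_pm_203

noncomputable def f_pm_213 : ℕ → ℕ → ℕ → ℕ → Bool := onCell 1073741824 536870912 1610612736 536870912 1046898278 26843546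
    (rowNX 3 0 false true false .pnn 2 1 3 (qsf 1073741824 536870912 1610612736 536870912 1) ndN6q2 ndN3q3 pcN1 Cut.none Ext.none)

def k0_pm_213 : ∃ t, chk3 f_pm_213 t 1 1 1 = true :=
  ⟨(b (a (a (b (b (l 14737424) (l 14737424)) (l 14506744)) (a (b (b (l 1) (l 15092648)) (l 14882936)) (b (l 1) (l 16567944)))) (b (l 1) (a (l 16777216) (l 1)))) (a (a (b (a (b (l 14636376) (b (l 14569680) (l 14487840))) (l 14812448)) (a (b (a (l 14141840) (l 14692208)) (b (l 14950616) (a (l 15392232) (l 15163856)))) (b (a (l 14951144) (l 14788112)) (b (a (l 15181272) (l 14933336)) (a (l 15620640) (l 15185312)))))) (b (a (l 14841032) (l 16567984)) (a (b (a (l 14724616) (l 15526952)) (a (b (l 14807272) (l 14912992)) (l 15554736))) (b (l 16568768) (a (l 16308648) (l 16685368)))))) (b (a (l 16777168) (a (l 16777168) (l 1))) (a (b (l 16729592) (b (l 16694984) (a (l 16763544) (l 16763544)))) (c (b (l 583612064631) (a (l 16691672) (l 16691672))) (b (a (l 16729000) (l 16729000)) (a (l 16686984)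 (l 16686984)))))))), by decide +kernel⟩

theorem c_pm_213 : CertNX 1073741824 536870912 1610612736 536870912 1046898278 26843546 3 false true false .pnn 2 1 3
    ndN6q2 ndN3q3 pcN1 Cut.none Ext.none :=
  certNX0 (fam := false) (s1 := true) (s2 := false) (a := 2) (b := 1) (c := 3) (cn := .pnn) (n1 := ndN6q2) (n2 := ndN3q3) (pc := pcN1) (cut := Cut.none) (xt := Ext.none) (P1 := 1073741824) (W1 := 536870912) (P2 := 1610612736) (W2 := 536870912) (P3 := 1046898278) (W3 := 26843546) (N0 := 3)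
    rfl k0_pm_213

noncomputable def f_pm_303 : ℕ → ℕ → ℕ → ℕ → Bool := onCell 0 1230186008 0 536870912 1046898278 26843546
    (rowNX 3 1 false true false .npn 3 0 3 (qsf 0 1230186008 1610612736 536870912 0) ndN6q3 ndN3q3 pcN0 Cut.none Ext.none)

def k0_pm_303 : ∃ t, chk3 f_pm_303 t 2 4 1 = true :=
  ⟨(a (l 3) (l 3)), by decide +kernel⟩

def k1_pm_303 : ∃ t, chk3 f_pm_303 t 6 4 1 = true :=
  ⟨(l 3), by decide +kernel⟩

def k2_pm_303 : ∃ t, chk3 f_pm_303 t 14 4 1 = true :=
  ⟨(a (l 3) (b (b (c (b (c (b (l 14083632) (a (l 14133472) (b (l 14269920) (l 14231320)))) (b (a (l 14050216) (l 14168800)) (a (l 13884512) (l 14183368)))) (a (c (l 14269968) (l 300809913751)) (b (a (l 14239368) (l 14300600)) (l 14092080)))) (b (c (b (a (l 297588211223) (l 14138968)) (a (l 14082928) (l 14157832))) (b (c (a (l 13911760) (l 14131864)) (b (b (l 289535076519) (l 289535092279)) (l 290071890519))) (c (c (l 290072017399) (l 290608929479)) (l 291145823511)))) (c (b (c (l 14085704) (a (l 300809735543)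 (l 14194376))) (a (l 301883582423) (l 14280304))) (a (l 14152536) (l 14197088))))) (c (b (c (a (l 303494647495) (l 14323888)) (b (c (l 14398984) (l 293293969223)) (c (l 293831028231) (l 14419304)))) (c (b (c (l 14600288) (l 294904965783)) (c (b (l 14628696) (l 14632208)) (l 14587768))) (l 14541960))) (b (a (l 14317416) (a (l 14330560) (l 14379416))) (l 14483216)))) (a (l 3) (b (b (b (c (l 14718288) (l 14645864)) (a (l 14746128) (l 14770536))) (a (l 296516474087) (c (l 15131536) (l 15073704)))) (c (l 298665307127) (l 297591046007)))))), by decide +kernel⟩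

def k3_pm_303 : ∃ t, chk3 f_pm_303 t 15 4 1 = true :=
  ⟨(b (a (b (b (c (b (l 14338200) (b (a (l 14409656) (l 14436592)) (b (l 14439400) (l 14494824)))) (b (c (b (l 14350224) (a (l 14345224) (l 14500432))) (b (a (l 14259496) (l 14464880)) (l 14239912))) (c (a (l 14342296) (l 14502144)) (l 14397256)))) (c (b (c (a (l 14364336) (l 14564160)) (a (l 14369192) (l 14543576))) (l 14284008)) (a (l 14305664) (l 14564880)))) (b (c (a (c (l 14548032) (l 14520744)) (l 14594784)) (a (l 14455272) (l 14609368))) (c (c (b (l 14538056) (c (l 14647656) (l 14700208))) (l 14627736)) (l 14544616)))) (b (b (c (l 14793688) (b (l 14631456) (l 14750456))) (c (b (l 14804216) (l 14754360)) (l 14714968))) (c (b (l 14843208) (c (l 15001472) (l 14977496))) (b (l 14800568) (l 14919040))))) (b (b (a (c (b (l 14771408) (l 15099312)) (b (l 14781832) (l 15101024))) (c (l 15171888) (l 15186264))) (a (a (a (c (l 15268184) (l 15236848)) (b (c (l 15580400) (l 15538320)) (l 15813440))) (b (l 15494680) (c (l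 15728912) (l 15693336)))) (a (l 15638184) (l 15608704)))) (a (a (b (a (c (l 15322032) (l 15319480)) (b (l 15954504) (l 15920680))) (a (l 15616656) (l 15777776))) (b (b (a (c (l 16328176) (l 16312400)) (l 16213064)) (a (l 16397192) (l 16461184))) (a (l 16246448) (l 16537408)))) (b (b (a (l 16062856) (l 15927168)) (l 16198864)) (l 16297408))))), by decide +kernel⟩

def k4_pm_303 : ∃ t, chk3 f_pm_303 t 1 5 1 = true :=
  ⟨(a (l 2) (a (l 3) (b (b (a (l 350205813591) (a (a (a (l 15815272) (l 15898120)) (a (l 16081024) (l 16349896))) (a (b (l 16416344) (l 16700792)) (l 16489632)))) (a (l 3) (a (a (l 16178624) (b (l 16212240) (l 16329608))) (b (l 16847096) (l 16648280))))) (a (l 3) (a (b (a (l 16539200) (l 16571160)) (l 16828424)) (b (a (l 16626512) (l 16739920)) (l 16771312))))))), by decide +kernel⟩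

def k5_pm_303 : ∃ t, chk3 f_pm_303 t 1 3 1 = true :=
  ⟨(a (l 2) (a (a (l 2) (b (b (l 3) (l 2)) (l 2))) (a (b (l 3) (l 2)) (b (b (a (c (l 317458766039) (l 321216863223)) (l 16777176)) (a (l 3) (b (l 16764464) (l 287930749223)))) (a (l 3) (b (c (l 289004512279) (l 293836345895)) (b (l 322827333399) (l 3)))))))), by decide +kernel⟩

theorem s6_pm_303 : ∃ t, chk3 f_pm_303 t 7 4 1 = true := ex3_a k2_pm_303 k3_pm_303

theorem s7_pm_303 : ∃ t, chk3 f_pm_303 t 3 4 1 = true := ex3_a k1_pm_303 s6_pm_303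

theorem s8_pm_303 : ∃ t, chk3 f_pm_303 t 1 4 1 = true := ex3_a k0_pm_303 s7_pm_303

theorem s9_pm_303 : ∃ t, chk3 f_pm_303 t 1 2 1 = true := ex3_b s8_pm_303 k4_pm_303

theorem s10_pm_303 : ∃ t, chk3 f_pm_303 t 1 1 1 = true := ex3_b s9_pm_303 k5_pm_303

theorem c_pm_303 : CertNX 0 1230186008 1610612736 536870912 1046898278 26843546 3 false true false .npn 3 0 3
    ndN6q3 ndN3q3 pcN0 Cut.none Ext.none :=
  certNX1 (fam := false) (s1 := true) (s2 := false) (a := 3) (b := 0) (c := 3) (cn := .npn) (n1 := ndN6q3) (n2 := ndN3q3) (pc := pcN0) (cut := Cut.none) (xt := Ext.none) (P1 := 0) (W1 := 1230186008) (P2 := 1610612736) (W2 := 536870912) (P3 := 1046898278) (W3 := 26843546) (N0 := 3)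
    rfl (fun _ => rfl) s10_pm_303

noncomputable def f_pm_313 : ℕ → ℕ → ℕ → ℕ → Bool := onCell 0 1230186008 1610612736 536870912 1046898278 26843546
    (rowNX 3 0 false true false .dn 3 1 3 (qsf 0 1230186008 1610612736 536870912 1) ndN6q3 ndN3q3 pcN1 Cut.none Ext.none)

def k0_pm_313 : ∃ t, chk3 f_pm_313 t 1 1 1 = true :=
  ⟨(a (l 1) (a (l 1) (b (l 1) (b (l 1) (b (l 1) (b (l 1) (l 3))))))), by decide +kernel⟩

theorem c_pm_313 : CertNX 0 1230186008 1610612736 536870912 1046898278 26843546 3 false true false .dn 3 1 3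
    ndN6q3 ndN3q3 pcN1 Cut.none Ext.none :=
  certNX0 (fam := false) (s1 := true) (s2 := false) (a := 3) (b := 1) (c := 3) (cn := .dn) (n1 := ndN6q3) (n2 := ndN3q3) (pc := pcN1) (cut := Cut.none) (xt := Ext.none) (P1 := 0) (W1 := 1230186008) (P2 := 1610612736) (W2 := 536870912) (P3 := 1046898278) (W3 := 26843546) (N0 := 3)
    rfl k0_pm_313

noncomputable def f_mm_001 : ℕ → ℕ → ℕ → ℕ → Bool := onCell 0 536870912 536870912 536870912 1046898278 26843546
    (rowNX 3 0 false false false .up 0 0 1 (qsf 0 536870912 536870912 536870912 0) ndN6q0 ndN3q1 pcN0 Cut.none Ext.none)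

def k0_mm_001 : ∃ t, chk3 f_mm_001 t 1 1 1 = true :=
  ⟨(l 3), by decide +kernel⟩

theorem c_mm_001 : CertNX 0 536870912 536870912 536870912 1046898278 26843546 3 false false false .up 0 0 1
    ndN6q0 ndN3q1 pcN0 Cut.none Ext.none :=
  certNX0 (fam := false) (s1 := false) (s2 := false) (a := 0) (b := 0) (c := 1) (cn := .up) (n1 := ndN6q0) (n2 := ndN3q1) (pc := pcN0) (cut := Cut.none) (xt := Ext.none) (P1 := 0) (W1 := 536870912) (P2 := 536870912) (W2 := 536870912) (P3 := 1046898278) (W3 := 26843546) (N0 := 3)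
    rfl k0_mm_001

noncomputable def f_mm_011 : ℕ → ℕ → ℕ → ℕ → Bool := onCell 0 536870912 536870912 536870912 1046898278 26843546
    (rowNX 3 0 false false false .pnn 0 1 1 (qsf 0 536870912 536870912 536870912 1) ndN6q0 ndN3q1 pcN1 Cut.none Ext.none)

def k0_mm_011 : ∃ t, chk3 f_mm_011 t 1 1 1 = true :=
  ⟨(l 3), by decide +kernel⟩

theorem c_mm_011 : CertNX 0 536870912 536870912 536870912 1046898278 26843546 3 false false false .pnn 0 1 1
    ndN6q0 ndN3q1 pcN1 Cut.none Ext.none :=
  certNX0 (fam := false) (s1 := false) (s2 := false) (a := 0) (b := 1) (c := 1) (cn := .pnn) (n1 := ndN6q0) (n2 := ndN3q1) (pc := pcN1) (cut := Cut.none) (xt := Ext.none) (P1 := 0) (W1 := 536870912) (P2 := 536870912) (W2 := 536870912) (P3 := 1046898278) (W3 := 26843546) (N0 := 3)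
    rfl k0_mm_011

noncomputable def f_mm_012 : ℕ → ℕ → ℕ → ℕ → Bool := onCell 0 536870912 1073741824 536870912 1046898278 26843546
    (rowNX 3 0 false false false .pnp 0 1 2 (qsf 0 536870912 1073741824 536870912 1) ndN6q0 ndN3q2 pcN1 Cut.none Ext.none)

def k0_mm_012 : ∃ t, chk3 f_mm_012 t 1 1 1 = true :=
  ⟨(l 5), by decide +kernel⟩

theorem c_mm_012 : CertNX 0 536870912 1073741824 536870912 1046898278 26843546 3 false false false .pnp 0 1 2
    ndN6q0 ndN3q2 pcN1 Cut.none Ext.none :=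
  certNX0 (fam := false) (s1 := false) (s2 := false) (a := 0) (b := 1) (c := 2) (cn := .pnp) (n1 := ndN6q0) (n2 := ndN3q2) (pc := pcN1) (cut := Cut.none) (xt := Ext.none) (P1 := 0) (W1 := 536870912) (P2 := 1073741824) (W2 := 536870912) (P3 := 1046898278) (W3 := 26843546) (N0 := 3)
    rfl k0_mm_012

noncomputable def f_mm_022 : ℕ → ℕ → ℕ → ℕ → Bool := onCell 0 536870912 1073741824 536870912 1046898278 26843546
    (rowNX 3 0 false false false .pp 0 2 2 (qsf 0 536870912 1073741824 536870912 2) ndN6q0 ndN3q2 pcN2 Cut.none Ext.none)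

def k0_mm_022 : ∃ t, chk3 f_mm_022 t 1 1 1 = true :=
  ⟨(l 5), by decide +kernel⟩

theorem c_mm_022 : CertNX 0 536870912 1073741824 536870912 1046898278 26843546 3 false false false .pp 0 2 2
    ndN6q0 ndN3q2 pcN2 Cut.none Ext.none :=
  certNX0 (fam := false) (s1 := false) (s2 := false) (a := 0) (b := 2) (c := 2) (cn := .pp) (n1 := ndN6q0) (n2 := ndN3q2) (pc := pcN2) (cut := Cut.none) (xt := Ext.none) (P1 := 0) (W1 := 536870912) (P2 := 1073741824) (W2 := 536870912) (P3 := 1046898278) (W3 := 26843546) (N0 := 3)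
    rfl k0_mm_022

noncomputable def f_mm_023 : ℕ → ℕ → ℕ → ℕ → Bool := onCell 0 536870912 1610612736 536870912 1046898278 26843546
    (rowNX 3 0 false false false .up 0 2 3 (qsf 0 536870912 1610612736 536870912 2) ndN6q0 ndN3q3 pcN2 Cut.none Ext.none)

def k0_mm_023 : ∃ t, chk3 f_mm_023 t 1 1 1 = true :=
  ⟨(l 5), by decide +kernel⟩

theorem c_mm_023 : CertNX 0 536870912 1610612736 536870912 1046898278 26843546 3 false false false .up 0 2 3
    ndN6q0 ndN3q3 pcN2 Cut.none Ext.none :=
  certNX0 (fam := false) (s1 := false) (s2 := false) (a := 0) (b := 2) (c := 3) (cn := .up) (n1 := ndN6q0) (n2 := ndN3q3) (pc := pcN2) (cut := Cut.none) (xt := Ext.none) (P1 := 0) (W1 := 536870912) (P2 := 1610612736) (W2 := 536870912) (P3 := 1046898278) (W3 := 26843546) (N0 := 3)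
    rfl k0_mm_023

noncomputable def f_mm_033 : ℕ → ℕ → ℕ → ℕ → Bool := onCell 0 536870912 1610612736 536870912 1046898278 26843546
    (rowNX 3 0 false false false .pnn 0 3 3 (qsf 0 536870912 1610612736 536870912 3) ndN6q0 ndN3q3 pcN3 Cut.none Ext.none)

def k0_mm_033 : ∃ t, chk3 f_mm_033 t 1 1 1 = true :=
  ⟨(l 5), by decide +kernel⟩

theorem c_mm_033 : CertNX 0 536870912 1610612736 536870912 1046898278 26843546 3 false false false .pnn 0 3 3
    ndN6q0 ndN3q3 pcN3 Cut.none Ext.none :=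
  certNX0 (fam := false) (s1 := false) (s2 := false) (a := 0) (b := 3) (c := 3) (cn := .pnn) (n1 := ndN6q0) (n2 := ndN3q3) (pc := pcN3) (cut := Cut.none) (xt := Ext.none) (P1 := 0) (W1 := 536870912) (P2 := 1610612736) (W2 := 536870912) (P3 := 1046898278) (W3 := 26843546) (N0 := 3)
    rfl k0_mm_033

noncomputable def f_mm_101 : ℕ → ℕ → ℕ → ℕ → Bool := onCell 536870912 469762048 536870912 536870912 1046898278 26843546
    (rowNX 3 0 false false false .npn 1 0 1 (qsf 536870912 469762048 536870912 536870912 0) ndN6q1 ndN3q1 pcN0 Cut.none Ext.none)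

def k0_mm_101 : ∃ t, chk3 f_mm_101 t 1 1 1 = true :=
  ⟨(l 3), by decide +kernel⟩

theorem c_mm_101 : CertNX 536870912 469762048 536870912 536870912 1046898278 26843546 3 false false false .npn 1 0 1
    ndN6q1 ndN3q1 pcN0 Cut.none Ext.none :=
  certNX0 (fam := false) (s1 := false) (s2 := false) (a := 1) (b := 0) (c := 1) (cn := .npn) (n1 := ndN6q1) (n2 := ndN3q1) (pc := pcN0) (cut := Cut.none) (xt := Ext.none) (P1 := 536870912) (W1 := 469762048) (P2 := 536870912) (W2 := 536870912) (P3 := 1046898278) (W3 := 26843546) (N0 := 3)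
    rfl k0_mm_101

noncomputable def f_mm_102 : ℕ → ℕ → ℕ → ℕ → Bool := onCell 536870912 469762048 1073741824 536870912 1046898278 26843546
    (rowNX 3 0 false false false .npp 1 0 2 (qsf 536870912 469762048 1073741824 536870912 0) ndN6q1 ndN3q2 pcN0 Cut.none Ext.none)

def k0_mm_102 : ∃ t, chk3 f_mm_102 t 1 1 1 = true :=
  ⟨(l 5), by decide +kernel⟩

theorem c_mm_102 : CertNX 536870912 469762048 1073741824 536870912 1046898278 26843546 3 false false false .npp 1 0 2
    ndN6q1 ndN3q2 pcN0 Cut.none Ext.none :=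
  certNX0 (fam := false) (s1 := false) (s2 := false) (a := 1) (b := 0) (c := 2) (cn := .npp) (n1 := ndN6q1) (n2 := ndN3q2) (pc := pcN0) (cut := Cut.none) (xt := Ext.none) (P1 := 536870912) (W1 := 469762048) (P2 := 1073741824) (W2 := 536870912) (P3 := 1046898278) (W3 := 26843546) (N0 := 3)
    rfl k0_mm_102

noncomputable def f_mm_112 : ℕ → ℕ → ℕ → ℕ → Bool := onCell 536870912 469762048 1073741824 536870912 1046898278 26843546
    (rowNX 3 0 false false false .dn 1 1 2 (qsf 536870912 469762048 1073741824 536870912 1) ndN6q1 ndN3q2 pcN1 Cut.none Ext.none)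

def k0_mm_112 : ∃ t, chk3 f_mm_112 t 1 1 1 = true :=
  ⟨(l 5), by decide +kernel⟩

theorem c_mm_112 : CertNX 536870912 469762048 1073741824 536870912 1046898278 26843546 3 false false false .dn 1 1 2
    ndN6q1 ndN3q2 pcN1 Cut.none Ext.none :=
  certNX0 (fam := false) (s1 := false) (s2 := false) (a := 1) (b := 1) (c := 2) (cn := .dn) (n1 := ndN6q1) (n2 := ndN3q2) (pc := pcN1) (cut := Cut.none) (xt := Ext.none) (P1 := 536870912) (W1 := 469762048) (P2 := 1073741824) (W2 := 536870912) (P3 := 1046898278) (W3 := 26843546) (N0 := 3)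
    rfl k0_mm_112

noncomputable def f_mm_113 : ℕ → ℕ → ℕ → ℕ → Bool := onCell 536870912 469762048 1610612736 536870912 1046898278 26843546
    (rowNX 3 0 false false false .nn 1 1 3 (qsf 536870912 469762048 1610612736 536870912 1) ndN6q1 ndN3q3 pcN1 Cut.none Ext.none)

def k0_mm_113 : ∃ t, chk3 f_mm_113 t 1 1 1 = true :=
  ⟨(l 5), by decide +kernel⟩

theorem c_mm_113 : CertNX 536870912 469762048 1610612736 536870912 1046898278 26843546 3 false false false .nn 1 1 3
    ndN6q1 ndN3q3 pcN1 Cut.none Ext.none :=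
  certNX0 (fam := false) (s1 := false) (s2 := false) (a := 1) (b := 1) (c := 3) (cn := .nn) (n1 := ndN6q1) (n2 := ndN3q3) (pc := pcN1) (cut := Cut.none) (xt := Ext.none) (P1 := 536870912) (W1 := 469762048) (P2 := 1610612736) (W2 := 536870912) (P3 := 1046898278) (W3 := 26843546) (N0 := 3)
    rfl k0_mm_113

noncomputable def f_mm_123 : ℕ → ℕ → ℕ → ℕ → Bool := onCell 536870912 469762048 1610612736 536870912 1046898278 26843546
    (rowNX 3 0 false false false .npn 1 2 3 (qsf 536870912 469762048 1610612736 536870912 2) ndN6q1 ndN3q3 pcN2 Cut.none Ext.none)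

def k0_mm_123 : ∃ t, chk3 f_mm_123 t 1 1 1 = true :=
  ⟨(l 5), by decide +kernel⟩

theorem c_mm_123 : CertNX 536870912 469762048 1610612736 536870912 1046898278 26843546 3 false false false .npn 1 2 3
    ndN6q1 ndN3q3 pcN2 Cut.none Ext.none :=
  certNX0 (fam := false) (s1 := false) (s2 := false) (a := 1) (b := 2) (c := 3) (cn := .npn) (n1 := ndN6q1) (n2 := ndN3q3) (pc := pcN2) (cut := Cut.none) (xt := Ext.none) (P1 := 536870912) (W1 := 469762048) (P2 := 1610612736) (W2 := 536870912) (P3 := 1046898278) (W3 := 26843546) (N0 := 3)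
    rfl k0_mm_123

noncomputable def f_mm_133 : ℕ → ℕ → ℕ → ℕ → Bool := onCell 536870912 469762048 1610612736 536870912 1046898278 26843546
    (rowNX 3 0 false false false .dn 1 3 3 (qsf 536870912 469762048 1610612736 536870912 3) ndN6q1 ndN3q3 pcN3 Cut.none Ext.none)

def k0_mm_133 : ∃ t, chk3 f_mm_133 t 1 1 1 = true :=
  ⟨(l 5), by decide +kernel⟩

theorem c_mm_133 : CertNX 536870912 469762048 1610612736 536870912 1046898278 26843546 3 false false false .dn 1 3 3
    ndN6q1 ndN3q3 pcN3 Cut.none Ext.none :=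
  certNX0 (fam := false) (s1 := false) (s2 := false) (a := 1) (b := 3) (c := 3) (cn := .dn) (n1 := ndN6q1) (n2 := ndN3q3) (pc := pcN3) (cut := Cut.none) (xt := Ext.none) (P1 := 536870912) (W1 := 469762048) (P2 := 1610612736) (W2 := 536870912) (P3 := 1046898278) (W3 := 26843546) (N0 := 3)
    rfl k0_mm_133

noncomputable def f_mm_202 : ℕ → ℕ → ℕ → ℕ → Bool := onCell 1073741824 536870912 1073741824 536870912 1046898278 26843546
    (rowNX 3 0 false false false .pp 2 0 2 (qsf 1073741824 536870912 1073741824 536870912 0) ndN6q2 ndN3q2 pcN0 Cut.none Ext.none)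

def k0_mm_202 : ∃ t, chk3 f_mm_202 t 1 1 1 = true :=
  ⟨(l 3), by decide +kernel⟩

theorem c_mm_202 : CertNX 1073741824 536870912 1073741824 536870912 1046898278 26843546 3 false false false .pp 2 0 2
    ndN6q2 ndN3q2 pcN0 Cut.none Ext.none :=
  certNX0 (fam := false) (s1 := false) (s2 := false) (a := 2) (b := 0) (c := 2) (cn := .pp) (n1 := ndN6q2) (n2 := ndN3q2) (pc := pcN0) (cut := Cut.none) (xt := Ext.none) (P1 := 1073741824) (W1 := 536870912) (P2 := 1073741824) (W2 := 536870912) (P3 := 1046898278) (W3 := 26843546) (N0 := 3)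
    rfl k0_mm_202

noncomputable def f_mm_203 : ℕ → ℕ → ℕ → ℕ → Bool := onCell 1073741824 536870912 1610612736 536870912 1046898278 26843546
    (rowNX 3 0 false false false .up 2 0 3 (qsf 1073741824 536870912 1610612736 536870912 0) ndN6q2 ndN3q3 pcN0 Cut.none Ext.none)

def k0_mm_203 : ∃ t, chk3 f_mm_203 t 1 1 1 = true :=
  ⟨(l 5), by decide +kernel⟩

theorem c_mm_203 : CertNX 1073741824 536870912 1610612736 536870912 1046898278 26843546 3 false false false .up 2 0 3
    ndN6q2 ndN3q3 pcN0 Cut.none Ext.none :=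
  certNX0 (fam := false) (s1 := false) (s2 := false) (a := 2) (b := 0) (c := 3) (cn := .up) (n1 := ndN6q2) (n2 := ndN3q3) (pc := pcN0) (cut := Cut.none) (xt := Ext.none) (P1 := 1073741824) (W1 := 536870912) (P2 := 1610612736) (W2 := 536870912) (P3 := 1046898278) (W3 := 26843546) (N0 := 3)
    rfl k0_mm_203

noncomputable def f_mm_213 : ℕ → ℕ → ℕ → ℕ → Bool := onCell 1073741824 536870912 1610612736 536870912 1046898278 26843546
    (rowNX 3 0 false false false .pnn 2 1 3 (qsf 1073741824 536870912 1610612736 536870912 1) ndN6q2 ndN3q3 pcN1 Cut.none Ext.none)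

def k0_mm_213 : ∃ t, chk3 f_mm_213 t 1 1 1 = true :=
  ⟨(l 5), by decide +kernel⟩

theorem c_mm_213 : CertNX 1073741824 536870912 1610612736 536870912 1046898278 26843546 3 false false false .pnn 2 1 3
    ndN6q2 ndN3q3 pcN1 Cut.none Ext.none :=
  certNX0 (fam := false) (s1 := false) (s2 := false) (a := 2) (b := 1) (c := 3) (cn := .pnn) (n1 := ndN6q2) (n2 := ndN3q3) (pc := pcN1) (cut := Cut.none) (xt := Ext.none) (P1 := 1073741824) (W1 := 536870912) (P2 := 1610612736) (W2 := 536870912) (P3 := 1046898278) (W3 := 26843546) (N0 := 3)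
    rfl k0_mm_213

noncomputable def f_mm_303 : ℕ → ℕ → ℕ → ℕ → Bool := onCell 0 1230186008 1610612736 536870912 1046898278 26843546
    (rowNX 3 0 false false false .npn 3 0 3 (qsf 0 1230186008 1610612736 536870912 0) ndN6q3 ndN3q3 pcN0 Cut.none Ext.none)

def k0_mm_303 : ∃ t, chk3 f_mm_303 t 1 1 1 = true :=
  ⟨(a (l 3) (a (l 3) (l 5))), by decide +kernel⟩

theorem c_mm_303 : CertNX 0 1230186008 1610612736 536870912 1046898278 26843546 3 false false false .npn 3 0 3
    ndN6q3 ndN3q3 pcN0 Cut.none Ext.none :=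
  certNX0 (fam := false) (s1 := false) (s2 := false) (a := 3) (b := 0) (c := 3) (cn := .npn) (n1 := ndN6q3) (n2 := ndN3q3) (pc := pcN0) (cut := Cut.none) (xt := Ext.none) (P1 := 0) (W1 := 1230186008) (P2 := 1610612736) (W2 := 536870912) (P3 := 1046898278) (W3 := 26843546) (N0 := 3)
    rfl k0_mm_303

noncomputable def f_mm_313 : ℕ → ℕ → ℕ → ℕ → Bool := onCell 0 1230186008 1610612736 536870912 1046898278 26843546
    (rowNX 3 0 false false false .dn 3 1 3 (qsf 0 1230186008 1610612736 536870912 1) ndN6q3 ndN3q3 pcN1 Cut.none Ext.none)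

def k0_mm_313 : ∃ t, chk3 f_mm_313 t 1 1 1 = true :=
  ⟨(a (l 1) (a (l 1) (l 5))), by decide +kernel⟩

theorem c_mm_313 : CertNX 0 1230186008 1610612736 536870912 1046898278 26843546 3 false false false .dn 3 1 3
    ndN6q3 ndN3q3 pcN1 Cut.none Ext.none :=
  certNX0 (fam := false) (s1 := false) (s2 := false) (a := 3) (b := 1) (c := 3) (cn := .dn) (n1 := ndN6q3) (n2 := ndN3q3) (pc := pcN1) (cut := Cut.none) (xt := Ext.none) (P1 := 0) (W1 := 1230186008) (P2 := 1610612736) (W2 := 536870912) (P3 := 1046898278) (W3 := 26843546) (N0 := 3)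
    rfl k0_mm_313

end Pool.Agent.Strip051.G.IE1.Tab.C.NB63

namespace Pool.Agent.Strip051.G.IE1.Tab.C.NB65

open Pool.Agent.Strip051.PB Pool.Agent.Strip051.PB.T
open Pool.Agent.Strip051.G.IE1.Tab

noncomputable def f_pp_001 : ℕ → ℕ → ℕ → ℕ → Bool := onCell 0 536870912 536870912 469762048 1046898278 26843546
    (rowNX 3 0 false true true .up 0 0 1 (qsf 0 536870912 536870912 469762048 0) ndN6q0 ndN5q1 pcN0 Cut.none Ext.none)

def k0_pp_001 : ∃ t, chk3 f_pp_001 t 1 1 1 = true :=
  ⟨(l 3), by decide +kernel⟩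

theorem c_pp_001 : CertNX 0 536870912 536870912 469762048 1046898278 26843546 3 false true true .up 0 0 1
    ndN6q0 ndN5q1 pcN0 Cut.none Ext.none :=
  certNX0 (fam := false) (s1 := true) (s2 := true) (a := 0) (b := 0) (c := 1) (cn := .up) (n1 := ndN6q0) (n2 := ndN5q1) (pc := pcN0) (cut := Cut.none) (xt := Ext.none) (P1 := 0) (W1 := 536870912) (P2 := 536870912) (W2 := 469762048) (P3 := 1046898278) (W3 := 26843546) (N0 := 3)
    rfl k0_pp_001

noncomputable def f_pp_011 : ℕ → ℕ → ℕ → ℕ → Bool := onCell 0 536870912 536870912 469762048 1046898278 26843546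
    (rowNX 3 0 false true true .pnn 0 1 1 (qsf 0 536870912 536870912 469762048 1) ndN6q0 ndN5q1 pcN1 Cut.none Ext.none)

def k0_pp_011 : ∃ t, chk3 f_pp_011 t 1 1 1 = true :=
  ⟨(l 3), by decide +kernel⟩

theorem c_pp_011 : CertNX 0 536870912 536870912 469762048 1046898278 26843546 3 false true true .pnn 0 1 1
    ndN6q0 ndN5q1 pcN1 Cut.none Ext.none :=
  certNX0 (fam := false) (s1 := true) (s2 := true) (a := 0) (b := 1) (c := 1) (cn := .pnn) (n1 := ndN6q0) (n2 := ndN5q1) (pc := pcN1) (cut := Cut.none) (xt := Ext.none) (P1 := 0) (W1 := 536870912) (P2 := 536870912) (W2 := 469762048) (P3 := 1046898278) (W3 := 26843546) (N0 := 3)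
    rfl k0_pp_011

noncomputable def f_pp_012 : ℕ → ℕ → ℕ → ℕ → Bool := onCell 536870912 536870912 1073741824 536870912 1046898278 26843546
    (rowNX 3 2 false true true .pnp 0 1 2 (qsf 0 536870912 1073741824 536870912 1) ndN6q0 ndN5q2 pcN1 Cut.none Ext.none)

def k0_pp_012 : ∃ t, chk3 f_pp_012 t 2 1 1 = true :=
  ⟨(b (b (a (a (b (c (l 15543856) (l 15500560)) (c (l 14807016) (l 14737856))) (b (c (l 15543856) (l 15500560)) (c (l 14807016) (l 14737856)))) (a (b (l 15312536) (l 14772512)) (b (l 15522248) (l 14772512)))) (a (b (a (l 2) (b (c (l 14360072) (l 14448888)) (l 2))) (l 2)) (b (a (b (b (l 14377320) (l 14597512)) (l 15362176)) (b (l 14299712) (l 15362176))) (a (b (l 16242016) (l 2)) (l 16358048))))) (a (l 2) (a (l 2) (l 16777216)))), by decide +kernel⟩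

def k1_pp_012 : ∃ t, chk3 f_pp_012 t 3 1 1 = true :=
  ⟨(b (a (b (a (b (a (l 15522256) (l 15526912)) (a (l 14772552) (l 14803896))) (b (a (l 15522392) (l 15528008)) (a (l 14866408) (l 14952512)))) (b (a (b (l 14504896) (l 15379392)) (b (l 14449152) (l 15517520))) (a (b (l 16322904) (l 16757248)) (b (l 16307576) (l 16591624))))) (b (a (b (b (a (l 15781472) (b (a (l 15946912) (l 15841792)) (l 15681448))) (l 15436632)) (b (l 14947904) (l 14504544))) (b (b (a (b (a (c (l 15570680) (l 15679728)) (l 15578280)) (a (l 15451528) (c (l 15303136) (l 15270368)))) (b (a (c (b (l 15573792) (l 15427896)) (l 15431392)) (c (b (a (c (l 15493008) (l 15465464)) (b (l 15458232) (l 15378960))) (a (l 15343016) (c (l 15286576) (l 15255480)))) (b (a (l 15428920) (c (b (l 15414544) (l 15335984)) (b (l 15384552) (l 15304832)))) (l 15235056)))) (c (a (l 15200560) (c (l 15109848) (l 15066568))) (l 15071712)))) (a (a (l 15098144) (b (l 15049696) (l 14819392))) (a (b (c (l 14920768) (l 14851896)) (l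 14639112)) (b (l 14748184) (c (l 14509088) (l 14425088)))))) (a (l 14282328) (b (a (l 14287304) (b (l 14220360) (l 13991280))) (l 13719240))))) (b (a (b (b (l 14226720) (l 14374368)) (l 14968504)) (b (b (l 13523624) (l 13620448)) (l 14189808))) (a (b (l 15693624) (l 16040576)) (b (l 14934032) (l 15311096)))))) (a (a (l 16754168) (b (l 16576600) (l 16550272))) (a (b (l 16012304) (l 15963776)) (b (l 15264856) (l 15186960))))), by decide +kernel⟩

theorem s2_pp_012 : ∃ t, chk3 f_pp_012 t 1 1 1 = true := ex3_a k0_pp_012 k1_pp_012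

theorem c_pp_012 : CertNX 0 536870912 1073741824 536870912 1046898278 26843546 3 false true true .pnp 0 1 2
    ndN6q0 ndN5q2 pcN1 Cut.none Ext.none :=
  certNX2 (fam := false) (s1 := true) (s2 := true) (a := 0) (b := 1) (c := 2) (cn := .pnp) (n1 := ndN6q0) (n2 := ndN5q2) (pc := pcN1) (cut := Cut.none) (xt := Ext.none) (P1 := 0) (W1 := 536870912) (P2 := 1073741824) (W2 := 536870912) (P3 := 1046898278) (W3 := 26843546) (N0 := 3)
    rfl (fun _ => rfl) s2_pp_012

noncomputable def f_pp_022 : ℕ → ℕ → ℕ → ℕ → Bool := onCell 0 536870912 1073741824 536870912 1046898278 26843546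
    (rowNX 3 1 false true true .pp 0 2 2 (qsf 0 536870912 1073741824 536870912 2) ndN6q0 ndN5q2 pcN2 Cut.none Ext.none)

def k0_pp_022 : ∃ t, chk3 f_pp_022 t 2 4 1 = true :=
  ⟨(a (a (b (a (a (c (a (b (l 15357576) (l 14670400)) (b (c (l 15210096) (l 15188312)) (l 14530608))) (a (b (c (l 15310488) (a (l 15319160) (l 15241440))) (c (l 14606112) (l 14563288))) (b (l 14975456) (l 14450376)))) (c (b (a (l 15069072) (l 14925232)) (l 14347920)) (b (l 14904840) (l 14238968)))) (b (a (l 14603856) (l 14350568)) (c (l 13950848) (l 13839488)))) (a (a (c (a (l 13701976) (b (l 13922120) (l 13267568))) (a (c (l 13613472) (a (l 13583208) (l 13526304))) (b (l 13820800) (l 13143488)))) (b (c (l 13763696) (l 13636072)) (c (b (l 13286152) (l 13153256)) (l 13105096)))) (b (a (l 13466912) (b (l 13379104) (l 13292128))) (a (b (l 13185496) (l 13386632)) (l 13658864))))) (b (a (b (l 13972376) (a (l 13536392) (l 13461800))) (b (b (l 13639152) (l 13506904)) (b (l 13612720) (l 13941440)))) (a (b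 (a (b (l 13358784) (l 13610072)) (l 13888120)) (l 14328584)) (b (l 14547576) (l 14952952))))) (b (a (b (a (b (l 13617368) (l 13938632)) (l 14475520)) (a (l 14555464) (l 15054256))) (a (b (l 14924696) (l 15070704)) (l 14972344))) (a (b (a (l 15058712) (l 15184336)) (l 14998328)) (l 14844456)))), by decide +kernel⟩

def k1_pp_022 : ∃ t, chk3 f_pp_022 t 2 5 1 = true :=
  ⟨(a (b (a (a (b (a (b (c (a (l 12971528) (l 13045680)) (a (c (l 12864776) (l 12792904)) (l 12914024))) (c (l 13585696) (a (l 13305200) (l 13586416)))) (b (c (l 13357472) (l 13218952)) (c (l 14038256) (l 13924840)))) (a (a (c (l 14889544) (a (l 14570744) (l 14616416))) (c (l 14846336) (l 14829968))) (c (b (l 14968304) (l 15853128)) (l 15102376)))) (b (b (l 13948408) (l 14423144)) (b (a (l 15332512) (l 15623072)) (a (l 16122280) (l 16189952))))) (b (a (b (l 14719336) (l 15144248)) (b (l 14960384) (l 15159376))) (a (l 15918312) (l 15853304)))) (a (a (b (a (c (b (l 16199464) (l 16045920)) (a (b (l 15930808) (l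 15978608)) (b (l 16388352) (l 15969056)))) (c (l 16249656) (l 16261568))) (a (c (l 15698832) (a (l 15655040) (l 15687184))) (l 15684456))) (b (l 16269736) (l 15878832))) (b (a (l 16357312) (l 16420880)) (a (l 16004048) (l 16104552))))) (b (b (b (l 14684504) (l 14897248)) (l 15416680)) (b (l 16403368) (l 16528616)))), by decide +kernel⟩

def k2_pp_022 : ∃ t, chk3 f_pp_022 t 3 2 1 = true :=
  ⟨(b (b (a (l 14891160) (l 14746512)) (a (l 14809096) (b (l 14874584) (l 14679192)))) (b (b (b (l 14540064) (l 14762760)) (a (l 15468056) (l 2))) (b (a (l 16285656) (l 2)) (l 16514824)))), by decide +kernel⟩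

def k3_pp_022 : ∃ t, chk3 f_pp_022 t 1 3 1 = true :=
  ⟨(a (a (b (a (a (a (c (l 15697808) (a (l 15632904) (l 15686568))) (c (l 15759496) (l 15750376))) (l 15878288)) (a (l 15963736) (l 16106952))) (a (a (a (c (l 15697808) (l 15546312)) (l 15662904)) (l 15878288)) (a (l 16003560) (l 16104120)))) (b (b (l 16535136) (l 16522552)) (b (l 16521384) (l 2)))) (b (b (l 16575304) (l 2)) (l 2))), by decide +kernel⟩

theorem s4_pp_022 : ∃ t, chk3 f_pp_022 t 2 2 1 = true := ex3_b k0_pp_022 k1_pp_022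

theorem s5_pp_022 : ∃ t, chk3 f_pp_022 t 1 2 1 = true := ex3_a s4_pp_022 k2_pp_022

theorem s6_pp_022 : ∃ t, chk3 f_pp_022 t 1 1 1 = true := ex3_b s5_pp_022 k3_pp_022

theorem c_pp_022 : CertNX 0 536870912 1073741824 536870912 1046898278 26843546 3 false true true .pp 0 2 2
    ndN6q0 ndN5q2 pcN2 Cut.none Ext.none :=
  certNX1 (fam := false) (s1 := true) (s2 := true) (a := 0) (b := 2) (c := 2) (cn := .pp) (n1 := ndN6q0) (n2 := ndN5q2) (pc := pcN2) (cut := Cut.none) (xt := Ext.none) (P1 := 0) (W1 := 536870912) (P2 := 1073741824) (W2 := 536870912) (P3 := 1046898278) (W3 := 26843546) (N0 := 3)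
    rfl (fun _ => rfl) s6_pp_022

noncomputable def f_pp_023 : ℕ → ℕ → ℕ → ℕ → Bool := onCell 1073741824 536870912 0 1230186008 1046898278 26843546
    (rowNX 3 2 false true true .up 0 2 3 (qsf 0 536870912 0 1230186008 2) ndN6q0 ndN5q3 pcN2 Cut.none Ext.none)

def k0_pp_023 : ∃ t, chk3 f_pp_023 t 1 1 1 = true :=
  ⟨(b (a (l 2) (a (l 2) (l 4))) (a (a (b (l 2) (b (l 2) (a (b (l 2) (l 14679888)) (b (l 14684576) (l 14790248))))) (b (a (l 2) (a (l 2) (l 16039336))) (a (a (a (l 14510040) (l 14746208)) (l 15341272)) (a (l 16109360) (l 16485584))))) (b (a (a (l 16411648) (l 16764968)) (l 16777184)) (a (b (l 16658312) (a (l 16679936) (l 16593048))) (b (a (l 16764816) (l 16587400)) (b (l 16404184) (a (b (l 16304488) (a (l 16192808) (l 16090496))) (b (a (l 16074304) (l 15965296)) (a (l 15948336) (a (l 15846064) (l 15767728))))))))))), by decide +kernel⟩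

theorem c_pp_023 : CertNX 0 536870912 0 1230186008 1046898278 26843546 3 false true true .up 0 2 3
    ndN6q0 ndN5q3 pcN2 Cut.none Ext.none :=
  certNX2 (fam := false) (s1 := true) (s2 := true) (a := 0) (b := 2) (c := 3) (cn := .up) (n1 := ndN6q0) (n2 := ndN5q3) (pc := pcN2) (cut := Cut.none) (xt := Ext.none) (P1 := 0) (W1 := 536870912) (P2 := 0) (W2 := 1230186008) (P3 := 1046898278) (W3 := 26843546) (N0 := 3)
    rfl (fun _ => rfl) k0_pp_023

noncomputable def f_pp_033 : ℕ → ℕ → ℕ → ℕ → Bool := onCell 0 536870912 0 1230186008 1046898278 26843546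
    (rowNX 3 0 false true true .pnn 0 3 3 (qsf 0 536870912 0 1230186008 3) ndN6q0 ndN5q3 pcN3 Cut.none Ext.none)

def k0_pp_033 : ∃ t, chk3 f_pp_033 t 1 1 1 = true :=
  ⟨(b (l 4) (b (a (a (l 4) (b (l 4) (l 4))) (a (b (l 4) (l 16777200)) (c (l 16777184) (l 16777184)))) (a (a (b (b (l 4) (a (a (c (l 15732384) (l 15709464)) (l 15878288)) (a (l 16003560) (l 16104120)))) (a (a (b (c (l 15732384) (l 15709464)) (c (l 15732384) (l 15709464))) (l 15878288)) (a (l 16003560) (l 16104120)))) (b (c (l 16525792) (l 16475016)) (b (l 16521384) (l 1)))) (l 1)))), by decide +kernel⟩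

theorem c_pp_033 : CertNX 0 536870912 0 1230186008 1046898278 26843546 3 false true true .pnn 0 3 3
    ndN6q0 ndN5q3 pcN3 Cut.none Ext.none :=
  certNX0 (fam := false) (s1 := true) (s2 := true) (a := 0) (b := 3) (c := 3) (cn := .pnn) (n1 := ndN6q0) (n2 := ndN5q3) (pc := pcN3) (cut := Cut.none) (xt := Ext.none) (P1 := 0) (W1 := 536870912) (P2 := 0) (W2 := 1230186008) (P3 := 1046898278) (W3 := 26843546) (N0 := 3)
    rfl k0_pp_033

noncomputable def f_pp_101 : ℕ → ℕ → ℕ → ℕ → Bool := onCell 536870912 469762048 536870912 469762048 1046898278 26843546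
    (rowNX 3 0 false true true .npn 1 0 1 (qsf 536870912 469762048 536870912 469762048 0) ndN6q1 ndN5q1 pcN0 Cut.none Ext.none)

def k0_pp_101 : ∃ t, chk3 f_pp_101 t 1 1 1 = true :=
  ⟨(l 3), by decide +kernel⟩

theorem c_pp_101 : CertNX 536870912 469762048 536870912 469762048 1046898278 26843546 3 false true true .npn 1 0 1
    ndN6q1 ndN5q1 pcN0 Cut.none Ext.none :=
  certNX0 (fam := false) (s1 := true) (s2 := true) (a := 1) (b := 0) (c := 1) (cn := .npn) (n1 := ndN6q1) (n2 := ndN5q1) (pc := pcN0) (cut := Cut.none) (xt := Ext.none) (P1 := 536870912) (W1 := 469762048) (P2 := 536870912) (W2 := 469762048) (P3 := 1046898278) (W3 := 26843546) (N0 := 3)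
    rfl k0_pp_101

noncomputable def f_pp_102 : ℕ → ℕ → ℕ → ℕ → Bool := onCell 536870912 469762048 0 536870912 1046898278 26843546
    (rowNX 3 1 false true true .npp 1 0 2 (qsf 536870912 469762048 1073741824 536870912 0) ndN6q1 ndN5q2 pcN0 Cut.none Ext.none)

def k0_pp_102 : ∃ t, chk3 f_pp_102 t 1 1 1 = true :=
  ⟨(b (a (l 1) (l 3)) (b (a (l 3) (l 3)) (a (a (b (l 3) (a (b (a (l 1) (l 15845008)) (c (l 15655984) (l 15768576))) (b (c (l 15305304) (l 15449008)) (c (l 15112528) (l 15054096))))) (b (a (l 3) (b (l 3) (a (l 14709528) (b (l 3) (a (l 14428152) (c (l 444691891319) (l 14452040))))))) (a (b (c (l 14849416) (l 14781752)) (a (l 14627632) (b (c (l 14509096) (l 14429488)) (a (l 14430232) (l 14650512))))) (b (a (b (l 14313328) (a (l 14417648) (b (l 14449784) (l 14632144)))) (b (a (b (l 14422968) (l 14575416)) (l 14890048)) (l 15175736))) (a (b (a (l 14602648) (l 15017816)) (l 15300440)) (b (l 15666320) (l 16030072))))))) (a (b (b (l 3) (b (a (l 3) (a (a (l 3) (l 16345792))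 (a (l 15842320) (l 15299168)))) (a (a (l 15049680) (l 15798528)) (a (a (a (l 16402752) (l 16638168)) (l 16298024)) (l 15553200))))) (a (b (a (b (l 15545728) (l 15935960)) (b (a (l 16163440) (l 16533872)) (a (l 16574544) (l 16754032)))) (a (b (a (l 16276800) (l 16611384)) (l 16687728)) (l 16771296))) (a (b (a (b (l 16729968) (l 16714072)) (l 16293168)) (l 16505280)) (b (l 15553200) (l 15553200))))) (a (b (a (b (l 3) (l 14529856)) (l 413552987463)) (a (b (l 14529856) (l 14529856)) (l 13939560))) (c (a (b (a (l 13713880) (l 13581040)) (a (l 13713880) (l 13581040))) (b (c (l 359327610855) (l 13563424)) (c (l 13628152) (l 13563424)))) (b (a (l 13536064) (l 13454256)) (a (l 13536064) (l 13454256))))))))), by decide +kernel⟩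

theorem c_pp_102 : CertNX 536870912 469762048 1073741824 536870912 1046898278 26843546 3 false true true .npp 1 0 2
    ndN6q1 ndN5q2 pcN0 Cut.none Ext.none :=
  certNX1 (fam := false) (s1 := true) (s2 := true) (a := 1) (b := 0) (c := 2) (cn := .npp) (n1 := ndN6q1) (n2 := ndN5q2) (pc := pcN0) (cut := Cut.none) (xt := Ext.none) (P1 := 536870912) (W1 := 469762048) (P2 := 1073741824) (W2 := 536870912) (P3 := 1046898278) (W3 := 26843546) (N0 := 3)
    rfl (fun _ => rfl) k0_pp_102

noncomputable def f_pp_112 : ℕ → ℕ → ℕ → ℕ → Bool := onCell 536870912 469762048 536870912 536870912 1046898278 26843546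
    (rowNX 3 1 false true true .dn 1 1 2 (qsf 536870912 469762048 1073741824 536870912 1) ndN6q1 ndN5q2 pcN1 Cut.none Ext.none)

def k0_pp_112 : ∃ t, chk3 f_pp_112 t 1 1 1 = true :=
  ⟨(b (a (b (a (b (a (b (c (l 15395432) (l 15346928)) (c (l 15022608) (l 14961024))) (b (c (l 14770352) (l 14699912)) (a (c (l 14594152) (l 14517528)) (b (a (l 14428152) (l 14491552)) (a (l 14523120) (l 14890048)))))) (a (b (a (l 14793696) (b (l 14587288) (l 14469384))) (a (b (l 14547768) (l 14473608)) (b (l 14537392) (l 14927568)))) (b (a (b (a (l 14417648) (l 14560168)) (l 14819096)) (l 15193248)) (a (l 15462000) (b (l 16134928) (l 16515200)))))) (b (a (b (a (b (a (l 14460776) (l 14445064)) (a (l 14465520) (l 14762208))) (b (l 14927568) (l 15423768))) (a (b (l 15049680) (l 15545728)) (b (l 15903384) (l 16326000)))) (b (a (b (l 15785544) (a (l 16048688) (l 16440904))) (b (l 16284512) (l 16724712))) (a (b (l 16541216) (l 16751752)) (l 16777216)))) (a (b (a (b (l 16019848) (l 16436528)) (b (l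 16640608) (l 16769024))) (l 16734120)) (l 16777216)))) (a (b (a (b (a (b (l 14644712) (l 15049680)) (l 15582576)) (a (l 15680808) (b (l 16346968) (l 16640608)))) (b (a (b (l 16183416) (l 16583160)) (l 16739232)) (l 16764960))) (a (b (a (l 16530624) (l 16771296)) (l 16776984)) (l 16777216))) (b (l 16777216) (l 16777216)))) (a (b (a (b (l 16777056) (l 16777216)) (b (a (c (l 16509968) (l 16500584)) (l 15511256)) (b (a (l 16505280) (l 15553200)) (l 16036480)))) (a (l 16777216) (l 15889680))) (a (b (b (a (l 14529856) (l 13939560)) (b (l 14238360) (l 14238360))) (l 14154480)) (b (c (a (b (l 13647752) (l 13647752)) (b (l 13592992) (l 13592992))) (b (a (l 13536064) (l 13454256)) (l 13514480))) (l 2))))) (a (b (b (l 16753528) (a (l 16557720) (l 16533232))) (b (l 15910480) (a (l 15094424) (l 2)))) (b (a (a (b (l 16749984) (l 2)) (l 2)) (l 2)) (l 2)))), by decide +kernel⟩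

theorem c_pp_112 : CertNX 536870912 469762048 1073741824 536870912 1046898278 26843546 3 false true true .dn 1 1 2
    ndN6q1 ndN5q2 pcN1 Cut.none Ext.none :=
  certNX1 (fam := false) (s1 := true) (s2 := true) (a := 1) (b := 1) (c := 2) (cn := .dn) (n1 := ndN6q1) (n2 := ndN5q2) (pc := pcN1) (cut := Cut.none) (xt := Ext.none) (P1 := 536870912) (W1 := 469762048) (P2 := 1073741824) (W2 := 536870912) (P3 := 1046898278) (W3 := 26843546) (N0 := 3)
    rfl (fun _ => rfl) k0_pp_112

noncomputable def f_pp_113 : ℕ → ℕ → ℕ → ℕ → Bool := onCell 536870912 469762048 0 1230186008 1046898278 26843546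
    (rowNX 3 0 false true true .nn 1 1 3 (qsf 536870912 469762048 0 1230186008 1) ndN6q1 ndN5q3 pcN1 Cut.none Ext.none)

def k0_pp_113 : ∃ t, chk3 f_pp_113 t 1 1 1 = true :=
  ⟨(b (a (l 2) (a (l 2) (b (l 2) (a (l 2) (b (a (l 2) (l 11434352)) (a (b (l 2) (l 11028376)) (b (c (l 11774608) (l 10546928)) (c (l 11783320) (l 10898872))))))))) (b (a (l 2) (a (b (a (l 2) (b (l 2) (l 12740592))) (a (b (l 2) (l 13960208)) (b (a (l 13526840) (l 13077464)) (a (l 14349512) (l 13914904))))) (b (b (a (a (l 2) (l 11282976)) (a (a (l 11322888) (l 11435208)) (l 11775312))) (a (a (l 11909432) (l 11825920)) (a (l 11950832) (l 12281232)))) (a (b (a (l 12618400) (l 12492168)) (l 13283360)) (b (a (l 12558392) (l 12847928)) (a (a (l 13125224) (l 13128608)) (c (l 13360464) (l 13183448)))))))) (a (b (a (l 2) (b (a (l 2) (l 13998728)) (a (b (l 13873816) (l 14349840)) (b (l 14694960) (l 15206568))))) (a (b (a (l 2) (b (l 14044176) (l 14581272))) (a (b (l 14307680) (l 14842768)) (b (l 15077344) (l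 15562384)))) (b (a (b (l 14885200) (l 15348160)) (l 15836656)) (a (l 16003976) (l 16272736))))) (b (a (b (a (l 14850680) (a (l 15245672) (l 14731832))) (a (l 15743640) (a (l 15979712) (l 15270616)))) (a (b (a (l 14030560) (l 13656520)) (l 13925816)) (a (b (l 13448424) (l 13579568)) (b (c (l 13543632) (l 13398576)) (l 13521600))))) (a (b (a (l 16393832) (l 15778648)) (a (l 16710008) (l 16033448))) (a (b (l 14084320) (l 14238360)) (a (a (l 13660208) (l 13522328)) (c (l 13530080) (l 13454256))))))))), by decide +kernel⟩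

theorem c_pp_113 : CertNX 536870912 469762048 0 1230186008 1046898278 26843546 3 false true true .nn 1 1 3
    ndN6q1 ndN5q3 pcN1 Cut.none Ext.none :=
  certNX0 (fam := false) (s1 := true) (s2 := true) (a := 1) (b := 1) (c := 3) (cn := .nn) (n1 := ndN6q1) (n2 := ndN5q3) (pc := pcN1) (cut := Cut.none) (xt := Ext.none) (P1 := 536870912) (W1 := 469762048) (P2 := 0) (W2 := 1230186008) (P3 := 1046898278) (W3 := 26843546) (N0 := 3)
    rfl k0_pp_113

noncomputable def f_pp_123 : ℕ → ℕ → ℕ → ℕ → Bool := onCell 1073741824 536870912 0 1230186008 1046898278 26843546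
    (rowNX 3 2 false true true .npn 1 2 3 (qsf 536870912 469762048 0 1230186008 2) ndN6q1 ndN5q3 pcN2 Cut.none Ext.none)

def k0_pp_123 : ∃ t, chk3 f_pp_123 t 1 1 1 = true :=
  ⟨(b (a (a (b (a (a (l 2) (b (a (l 2) (l 4)) (c (a (l 15287432) (l 15488808)) (l 14947664)))) (a (b (l 4) (c (c (l 15857392) (l 15742488)) (l 15611984))) (l 4))) (a (b (c (a (b (l 13652960) (l 12905960)) (a (l 13942504) (l 14336040))) (a (b (l 12393888) (l 11868936)) (l 13667680))) (a (c (b (l 12217144) (l 12121344)) (b (l 11562432) (l 11420288))) (c (b (l 13486696) (l 13224320)) (l 12907704)))) (b (a (a (c (l 14685576) (l 14344896)) (l 14791616)) (l 14987840)) (a (b (l 14036760) (l 13792152)) (l 14172816))))) (b (l 4) (a (b (a (l 15237056) (l 15334312)) (a (l 14580808) (l 15106920))) (b (l 4) (l 15705528))))) (a (b (l 4) (a (l 16357184) (l 4))) (l 4))) (a (b (a (a (b (a (c (l 12520352) (b (l 11678200) (l 12453896))) (b (l 13117640) (c (l 13733280) (l 13579112)))) (b (a (l 13532912) (l 13983888))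 (l 14092448))) (b (a (b (l 13858000) (l 14056568)) (l 14106648)) (l 14262952))) (a (a (l 14530152) (l 15188144)) (a (l 15701664) (l 16039336)))) (a (b (a (c (l 14371688) (l 14282464)) (l 14498344)) (a (b (l 14575400) (l 14679888)) (b (l 14684576) (l 14790248)))) (a (a (a (l 14510040) (l 14746208)) (l 15299328)) (a (l 16109360) (l 16485584))))) (b (a (a (l 16411648) (l 16764968)) (l 16777184)) (l 1)))), by decide +kernel⟩

theorem c_pp_123 : CertNX 536870912 469762048 0 1230186008 1046898278 26843546 3 false true true .npn 1 2 3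
    ndN6q1 ndN5q3 pcN2 Cut.none Ext.none :=
  certNX2 (fam := false) (s1 := true) (s2 := true) (a := 1) (b := 2) (c := 3) (cn := .npn) (n1 := ndN6q1) (n2 := ndN5q3) (pc := pcN2) (cut := Cut.none) (xt := Ext.none) (P1 := 536870912) (W1 := 469762048) (P2 := 0) (W2 := 1230186008) (P3 := 1046898278) (W3 := 26843546) (N0 := 3)
    rfl (fun _ => rfl) k0_pp_123

noncomputable def f_pp_133 : ℕ → ℕ → ℕ → ℕ → Bool := onCell 1610612736 536870912 0 1230186008 1046898278 26843546
    (rowNX 3 2 false true true .dn 1 3 3 (qsf 536870912 469762048 0 1230186008 3) ndN6q1 ndN5q3 pcN3 Cut.none Ext.none)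

def k0_pp_133 : ∃ t, chk3 f_pp_133 t 1 1 1 = true :=
  ⟨(b (l 4) (l 1)), by decide +kernel⟩

theorem c_pp_133 : CertNX 536870912 469762048 0 1230186008 1046898278 26843546 3 false true true .dn 1 3 3
    ndN6q1 ndN5q3 pcN3 Cut.none Ext.none :=
  certNX2 (fam := false) (s1 := true) (s2 := true) (a := 1) (b := 3) (c := 3) (cn := .dn) (n1 := ndN6q1) (n2 := ndN5q3) (pc := pcN3) (cut := Cut.none) (xt := Ext.none) (P1 := 536870912) (W1 := 469762048) (P2 := 0) (W2 := 1230186008) (P3 := 1046898278) (W3 := 26843546) (N0 := 3)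
    rfl (fun _ => rfl) k0_pp_133

noncomputable def f_pp_202 : ℕ → ℕ → ℕ → ℕ → Bool := onCell 1073741824 536870912 1073741824 536870912 1046898278 26843546
    (rowNX 3 0 false true true .pp 2 0 2 (qsf 1073741824 536870912 1073741824 536870912 0) ndN6q2 ndN5q2 pcN0 Cut.none Ext.none)

def k0_pp_202 : ∃ t, chk3 f_pp_202 t 1 1 1 = true :=
  ⟨(l 3), by decide +kernel⟩

theorem c_pp_202 : CertNX 1073741824 536870912 1073741824 536870912 1046898278 26843546 3 false true true .pp 2 0 2
    ndN6q2 ndN5q2 pcN0 Cut.none Ext.none :=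
  certNX0 (fam := false) (s1 := true) (s2 := true) (a := 2) (b := 0) (c := 2) (cn := .pp) (n1 := ndN6q2) (n2 := ndN5q2) (pc := pcN0) (cut := Cut.none) (xt := Ext.none) (P1 := 1073741824) (W1 := 536870912) (P2 := 1073741824) (W2 := 536870912) (P3 := 1046898278) (W3 := 26843546) (N0 := 3)
    rfl k0_pp_202

noncomputable def f_pp_203 : ℕ → ℕ → ℕ → ℕ → Bool := onCell 0 536870912 0 1230186008 1046898278 26843546
    (rowNX 3 2 false true true .up 2 0 3 (qsf 1073741824 536870912 0 1230186008 0) ndN6q2 ndN5q3 pcN0 Cut.none Ext.none)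

def k0_pp_203 : ∃ t, chk3 f_pp_203 t 1 1 1 = true :=
  ⟨(b (a (l 2) (a (l 2) (l 3))) (l 3)), by decide +kernel⟩

theorem c_pp_203 : CertNX 1073741824 536870912 0 1230186008 1046898278 26843546 3 false true true .up 2 0 3
    ndN6q2 ndN5q3 pcN0 Cut.none Ext.none :=
  certNX2 (fam := false) (s1 := true) (s2 := true) (a := 2) (b := 0) (c := 3) (cn := .up) (n1 := ndN6q2) (n2 := ndN5q3) (pc := pcN0) (cut := Cut.none) (xt := Ext.none) (P1 := 1073741824) (W1 := 536870912) (P2 := 0) (W2 := 1230186008) (P3 := 1046898278) (W3 := 26843546) (N0 := 3)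
    rfl (fun _ => rfl) k0_pp_203

noncomputable def f_pp_213 : ℕ → ℕ → ℕ → ℕ → Bool := onCell 1073741824 536870912 0 1230186008 1046898278 26843546
    (rowNX 3 0 false true true .pnn 2 1 3 (qsf 1073741824 536870912 0 1230186008 1) ndN6q2 ndN5q3 pcN1 Cut.none Ext.none)

def k0_pp_213 : ∃ t, chk3 f_pp_213 t 1 1 1 = true :=
  ⟨(b (a (a (b (a (b (l 15530480) (l 15167816)) (b (l 15639528) (a (l 15546152) (l 15115744)))) (a (b (a (l 14805936) (l 14892984)) (b (l 14482320) (a (l 14289968) (l 14700360)))) (b (a (l 15052552) (l 14802376)) (b (l 14790536) (a (l 14894872) (l 14724688)))))) (a (a (b (b (l 14989944) (l 14863408)) (b (l 14687944) (b (l 14627288) (l 14667832)))) (b (l 15601024) (b (b (l 15485504) (l 15432368)) (b (l 15426160) (l 15475576))))) (b (b (l 16586904) (l 16353504)) (b (a (l 16061480) (l 16705432)) (a (b (l 16282424) (l 16335560)) (b (l 16700736) (l 16762488))))))) (b (b (a (l 16843336) (a (l 16759448) (l 16759448))) (a (a (l 16753712) (l 16753712)) (a (l 121500661703)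 (l 3)))) (b (a (a (l 16705992) (b (l 16731800) (l 289004143015))) (c (l 319605725287) (l 319605767383))) (a (a (c (l 232095724551) (l 248201852615)) (l 3)) (l 3))))) (b (a (a (b (a (a (b (b (l 14398584) (l 14456104)) (l 14504520)) (b (l 14728088) (l 14748520))) (b (a (l 14902608) (l 14732576)) (a (l 14906080) (l 14732512)))) (b (a (a (l 14547128) (l 14756360)) (a (l 14906424) (l 14732552))) (a (a (l 14553984) (l 14756544)) (l 3)))) (b (b (a (a (l 14679192) (l 15487592)) (a (l 16347832) (l 3))) (a (a (l 239607499447) (l 15487528)) (l 3))) (l 3))) (l 3)) (a (b (l 3) (l 3)) (l 1)))), by decide +kernel⟩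

theorem c_pp_213 : CertNX 1073741824 536870912 0 1230186008 1046898278 26843546 3 false true true .pnn 2 1 3
    ndN6q2 ndN5q3 pcN1 Cut.none Ext.none :=
  certNX0 (fam := false) (s1 := true) (s2 := true) (a := 2) (b := 1) (c := 3) (cn := .pnn) (n1 := ndN6q2) (n2 := ndN5q3) (pc := pcN1) (cut := Cut.none) (xt := Ext.none) (P1 := 1073741824) (W1 := 536870912) (P2 := 0) (W2 := 1230186008) (P3 := 1046898278) (W3 := 26843546) (N0 := 3)
    rfl k0_pp_213

noncomputable def f_pp_303 : ℕ → ℕ → ℕ → ℕ → Bool := onCell 0 1230186008 0 1230186008 1046898278 26843546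
    (rowNX 3 0 false true true .npn 3 0 3 (qsf 0 1230186008 0 1230186008 0) ndN6q3 ndN5q3 pcN0 Cut.none Ext.none)

def k0_pp_303 : ∃ t, chk3 f_pp_303 t 1 1 1 = true :=
  ⟨(a (b (l 3) (l 3)) (b (a (l 3) (b (l 3) (l 3))) (l 3))), by decide +kernel⟩

theorem c_pp_303 : CertNX 0 1230186008 0 1230186008 1046898278 26843546 3 false true true .npn 3 0 3
    ndN6q3 ndN5q3 pcN0 Cut.none Ext.none :=
  certNX0 (fam := false) (s1 := true) (s2 := true) (a := 3) (b := 0) (c := 3) (cn := .npn) (n1 := ndN6q3) (n2 := ndN5q3) (pc := pcN0) (cut := Cut.none) (xt := Ext.none) (P1 := 0) (W1 := 1230186008) (P2 := 0) (W2 := 1230186008) (P3 := 1046898278) (W3 := 26843546) (N0 := 3)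
    rfl k0_pp_303

noncomputable def f_pp_313 : ℕ → ℕ → ℕ → ℕ → Bool := onCell 0 1230186008 0 1230186008 1046898278 26843546
    (rowNX 3 0 false true true .dn 3 1 3 (qsf 0 1230186008 0 1230186008 1) ndN6q3 ndN5q3 pcN1 Cut.none Ext.none)

def k0_pp_313 : ∃ t, chk3 f_pp_313 t 1 1 1 = true :=
  ⟨(a (l 1) (b (a (l 1) (b (l 3) (l 1))) (l 1))), by decide +kernel⟩

theorem c_pp_313 : CertNX 0 1230186008 0 1230186008 1046898278 26843546 3 false true true .dn 3 1 3
    ndN6q3 ndN5q3 pcN1 Cut.none Ext.none :=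
  certNX0 (fam := false) (s1 := true) (s2 := true) (a := 3) (b := 1) (c := 3) (cn := .dn) (n1 := ndN6q3) (n2 := ndN5q3) (pc := pcN1) (cut := Cut.none) (xt := Ext.none) (P1 := 0) (W1 := 1230186008) (P2 := 0) (W2 := 1230186008) (P3 := 1046898278) (W3 := 26843546) (N0 := 3)
    rfl k0_pp_313

noncomputable def f_pm_001 : ℕ → ℕ → ℕ → ℕ → Bool := onCell 0 536870912 536870912 469762048 1046898278 26843546
    (rowNX 3 0 false true false .up 0 0 1 (qsf 0 536870912 536870912 469762048 0) ndN6q0 ndN5q1 pcN0 Cut.none Ext.none)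

def k0_pm_001 : ∃ t, chk3 f_pm_001 t 1 1 1 = true :=
  ⟨(l 4), by decide +kernel⟩

theorem c_pm_001 : CertNX 0 536870912 536870912 469762048 1046898278 26843546 3 false true false .up 0 0 1
    ndN6q0 ndN5q1 pcN0 Cut.none Ext.none :=
  certNX0 (fam := false) (s1 := true) (s2 := false) (a := 0) (b := 0) (c := 1) (cn := .up) (n1 := ndN6q0) (n2 := ndN5q1) (pc := pcN0) (cut := Cut.none) (xt := Ext.none) (P1 := 0) (W1 := 536870912) (P2 := 536870912) (W2 := 469762048) (P3 := 1046898278) (W3 := 26843546) (N0 := 3)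
    rfl k0_pm_001

noncomputable def f_pm_011 : ℕ → ℕ → ℕ → ℕ → Bool := onCell 0 536870912 536870912 469762048 1046898278 26843546
    (rowNX 3 0 false true false .pnn 0 1 1 (qsf 0 536870912 536870912 469762048 1) ndN6q0 ndN5q1 pcN1 Cut.none Ext.none)

def k0_pm_011 : ∃ t, chk3 f_pm_011 t 1 1 1 = true :=
  ⟨(l 4), by decide +kernel⟩

theorem c_pm_011 : CertNX 0 536870912 536870912 469762048 1046898278 26843546 3 false true false .pnn 0 1 1
    ndN6q0 ndN5q1 pcN1 Cut.none Ext.none :=
  certNX0 (fam := false) (s1 := true) (s2 := false) (a := 0) (b := 1) (c := 1) (cn := .pnn) (n1 := ndN6q0) (n2 := ndN5q1) (pc := pcN1) (cut := Cut.none) (xt := Ext.none) (P1 := 0) (W1 := 536870912) (P2 := 536870912) (W2 := 469762048) (P3 := 1046898278) (W3 := 26843546) (N0 := 3)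
    rfl k0_pm_011

noncomputable def f_pm_012 : ℕ → ℕ → ℕ → ℕ → Bool := onCell 0 536870912 1073741824 536870912 1046898278 26843546
    (rowNX 3 0 false true false .pnp 0 1 2 (qsf 0 536870912 1073741824 536870912 1) ndN6q0 ndN5q2 pcN1 Cut.none Ext.none)

def k0_pm_012 : ∃ t, chk3 f_pm_012 t 1 1 1 = true :=
  ⟨(l 4), by decide +kernel⟩

theorem c_pm_012 : CertNX 0 536870912 1073741824 536870912 1046898278 26843546 3 false true false .pnp 0 1 2
    ndN6q0 ndN5q2 pcN1 Cut.none Ext.none :=
  certNX0 (fam := false) (s1 := true) (s2 := false) (a := 0) (b := 1) (c := 2) (cn := .pnp) (n1 := ndN6q0) (n2 := ndN5q2) (pc := pcN1) (cut := Cut.none) (xt := Ext.none) (P1 := 0) (W1 := 536870912) (P2 := 1073741824) (W2 := 536870912) (P3 := 1046898278) (W3 := 26843546) (N0 := 3)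
    rfl k0_pm_012

noncomputable def f_pm_022 : ℕ → ℕ → ℕ → ℕ → Bool := onCell 0 536870912 1073741824 536870912 1046898278 26843546
    (rowNX 3 0 false true false .pp 0 2 2 (qsf 0 536870912 1073741824 536870912 2) ndN6q0 ndN5q2 pcN2 Cut.none Ext.none)

def k0_pm_022 : ∃ t, chk3 f_pm_022 t 1 1 1 = true :=
  ⟨(l 4), by decide +kernel⟩

theorem c_pm_022 : CertNX 0 536870912 1073741824 536870912 1046898278 26843546 3 false true false .pp 0 2 2
    ndN6q0 ndN5q2 pcN2 Cut.none Ext.none :=
  certNX0 (fam := false) (s1 := true) (s2 := false) (a := 0) (b := 2) (c := 2) (cn := .pp) (n1 := ndN6q0) (n2 := ndN5q2) (pc := pcN2) (cut := Cut.none) (xt := Ext.none) (P1 := 0) (W1 := 536870912) (P2 := 1073741824) (W2 := 536870912) (P3 := 1046898278) (W3 := 26843546) (N0 := 3)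
    rfl k0_pm_022

noncomputable def f_pm_023 : ℕ → ℕ → ℕ → ℕ → Bool := onCell 0 536870912 0 1230186008 1046898278 26843546
    (rowNX 3 0 false true false .up 0 2 3 (qsf 0 536870912 0 1230186008 2) ndN6q0 ndN5q3 pcN2 Cut.none Ext.none)

def k0_pm_023 : ∃ t, chk3 f_pm_023 t 1 1 1 = true :=
  ⟨(b (l 4) (l 4)), by decide +kernel⟩

theorem c_pm_023 : CertNX 0 536870912 0 1230186008 1046898278 26843546 3 false true false .up 0 2 3
    ndN6q0 ndN5q3 pcN2 Cut.none Ext.none :=
  certNX0 (fam := false) (s1 := true) (s2 := false) (a := 0) (b := 2) (c := 3) (cn := .up) (n1 := ndN6q0) (n2 := ndN5q3) (pc := pcN2) (cut := Cut.none) (xt := Ext.none) (P1 := 0) (W1 := 536870912) (P2 := 0) (W2 := 1230186008) (P3 := 1046898278) (W3 := 26843546) (N0 := 3)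
    rfl k0_pm_023

noncomputable def f_pm_033 : ℕ → ℕ → ℕ → ℕ → Bool := onCell 0 536870912 0 1230186008 1046898278 26843546
    (rowNX 3 0 false true false .pnn 0 3 3 (qsf 0 536870912 0 1230186008 3) ndN6q0 ndN5q3 pcN3 Cut.none Ext.none)

def k0_pm_033 : ∃ t, chk3 f_pm_033 t 1 1 1 = true :=
  ⟨(b (l 4) (l 4)), by decide +kernel⟩

theorem c_pm_033 : CertNX 0 536870912 0 1230186008 1046898278 26843546 3 false true false .pnn 0 3 3
    ndN6q0 ndN5q3 pcN3 Cut.none Ext.none :=
  certNX0 (fam := false) (s1 := true) (s2 := false) (a := 0) (b := 3) (c := 3) (cn := .pnn) (n1 := ndN6q0) (n2 := ndN5q3) (pc := pcN3) (cut := Cut.none) (xt := Ext.none) (P1 := 0) (W1 := 536870912) (P2 := 0) (W2 := 1230186008) (P3 := 1046898278) (W3 := 26843546) (N0 := 3)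
    rfl k0_pm_033

noncomputable def f_pm_101 : ℕ → ℕ → ℕ → ℕ → Bool := onCell 536870912 469762048 536870912 469762048 1046898278 26843546
    (rowNX 3 0 false true false .npn 1 0 1 (qsf 536870912 469762048 536870912 469762048 0) ndN6q1 ndN5q1 pcN0 Cut.none Ext.none)

def k0_pm_101 : ∃ t, chk3 f_pm_101 t 1 1 1 = true :=
  ⟨(l 4), by decide +kernel⟩

theorem c_pm_101 : CertNX 536870912 469762048 536870912 469762048 1046898278 26843546 3 false true false .npn 1 0 1
    ndN6q1 ndN5q1 pcN0 Cut.none Ext.none :=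
  certNX0 (fam := false) (s1 := true) (s2 := false) (a := 1) (b := 0) (c := 1) (cn := .npn) (n1 := ndN6q1) (n2 := ndN5q1) (pc := pcN0) (cut := Cut.none) (xt := Ext.none) (P1 := 536870912) (W1 := 469762048) (P2 := 536870912) (W2 := 469762048) (P3 := 1046898278) (W3 := 26843546) (N0 := 3)
    rfl k0_pm_101

noncomputable def f_pm_102 : ℕ → ℕ → ℕ → ℕ → Bool := onCell 536870912 469762048 1073741824 536870912 1046898278 26843546
    (rowNX 3 0 false true false .npp 1 0 2 (qsf 536870912 469762048 1073741824 536870912 0) ndN6q1 ndN5q2 pcN0 Cut.none Ext.none)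

def k0_pm_102 : ∃ t, chk3 f_pm_102 t 1 1 1 = true :=
  ⟨(l 4), by decide +kernel⟩

theorem c_pm_102 : CertNX 536870912 469762048 1073741824 536870912 1046898278 26843546 3 false true false .npp 1 0 2
    ndN6q1 ndN5q2 pcN0 Cut.none Ext.none :=
  certNX0 (fam := false) (s1 := true) (s2 := false) (a := 1) (b := 0) (c := 2) (cn := .npp) (n1 := ndN6q1) (n2 := ndN5q2) (pc := pcN0) (cut := Cut.none) (xt := Ext.none) (P1 := 536870912) (W1 := 469762048) (P2 := 1073741824) (W2 := 536870912) (P3 := 1046898278) (W3 := 26843546) (N0 := 3)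
    rfl k0_pm_102

noncomputable def f_pm_112 : ℕ → ℕ → ℕ → ℕ → Bool := onCell 536870912 469762048 1073741824 536870912 1046898278 26843546
    (rowNX 3 0 false true false .dn 1 1 2 (qsf 536870912 469762048 1073741824 536870912 1) ndN6q1 ndN5q2 pcN1 Cut.none Ext.none)

def k0_pm_112 : ∃ t, chk3 f_pm_112 t 1 1 1 = true :=
  ⟨(l 4), by decide +kernel⟩

theorem c_pm_112 : CertNX 536870912 469762048 1073741824 536870912 1046898278 26843546 3 false true false .dn 1 1 2
    ndN6q1 ndN5q2 pcN1 Cut.none Ext.none :=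
  certNX0 (fam := false) (s1 := true) (s2 := false) (a := 1) (b := 1) (c := 2) (cn := .dn) (n1 := ndN6q1) (n2 := ndN5q2) (pc := pcN1) (cut := Cut.none) (xt := Ext.none) (P1 := 536870912) (W1 := 469762048) (P2 := 1073741824) (W2 := 536870912) (P3 := 1046898278) (W3 := 26843546) (N0 := 3)
    rfl k0_pm_112

noncomputable def f_pm_113 : ℕ → ℕ → ℕ → ℕ → Bool := onCell 536870912 469762048 0 1230186008 1046898278 26843546
    (rowNX 3 0 false true false .nn 1 1 3 (qsf 536870912 469762048 0 1230186008 1) ndN6q1 ndN5q3 pcN1 Cut.none Ext.none)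

def k0_pm_113 : ∃ t, chk3 f_pm_113 t 1 1 1 = true :=
  ⟨(b (b (l 2) (l 4)) (l 4)), by decide +kernel⟩

theorem c_pm_113 : CertNX 536870912 469762048 0 1230186008 1046898278 26843546 3 false true false .nn 1 1 3
    ndN6q1 ndN5q3 pcN1 Cut.none Ext.none :=
  certNX0 (fam := false) (s1 := true) (s2 := false) (a := 1) (b := 1) (c := 3) (cn := .nn) (n1 := ndN6q1) (n2 := ndN5q3) (pc := pcN1) (cut := Cut.none) (xt := Ext.none) (P1 := 536870912) (W1 := 469762048) (P2 := 0) (W2 := 1230186008) (P3 := 1046898278) (W3 := 26843546) (N0 := 3)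
    rfl k0_pm_113

noncomputable def f_pm_123 : ℕ → ℕ → ℕ → ℕ → Bool := onCell 536870912 469762048 0 1230186008 1046898278 26843546
    (rowNX 3 0 false true false .npn 1 2 3 (qsf 536870912 469762048 0 1230186008 2) ndN6q1 ndN5q3 pcN2 Cut.none Ext.none)

def k0_pm_123 : ∃ t, chk3 f_pm_123 t 1 1 1 = true :=
  ⟨(b (b (l 4) (l 4)) (l 4)), by decide +kernel⟩

theorem c_pm_123 : CertNX 536870912 469762048 0 1230186008 1046898278 26843546 3 false true false .npn 1 2 3
    ndN6q1 ndN5q3 pcN2 Cut.none Ext.none :=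
  certNX0 (fam := false) (s1 := true) (s2 := false) (a := 1) (b := 2) (c := 3) (cn := .npn) (n1 := ndN6q1) (n2 := ndN5q3) (pc := pcN2) (cut := Cut.none) (xt := Ext.none) (P1 := 536870912) (W1 := 469762048) (P2 := 0) (W2 := 1230186008) (P3 := 1046898278) (W3 := 26843546) (N0 := 3)
    rfl k0_pm_123

noncomputable def f_pm_133 : ℕ → ℕ → ℕ → ℕ → Bool := onCell 1610612736 536870912 0 1230186008 1046898278 26843546
    (rowNX 3 2 false true false .dn 1 3 3 (qsf 536870912 469762048 0 1230186008 3) ndN6q1 ndN5q3 pcN3 Cut.none Ext.none)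

def k0_pm_133 : ∃ t, chk3 f_pm_133 t 1 1 1 = true :=
  ⟨(b (l 4) (l 1)), by decide +kernel⟩

theorem c_pm_133 : CertNX 536870912 469762048 0 1230186008 1046898278 26843546 3 false true false .dn 1 3 3
    ndN6q1 ndN5q3 pcN3 Cut.none Ext.none :=
  certNX2 (fam := false) (s1 := true) (s2 := false) (a := 1) (b := 3) (c := 3) (cn := .dn) (n1 := ndN6q1) (n2 := ndN5q3) (pc := pcN3) (cut := Cut.none) (xt := Ext.none) (P1 := 536870912) (W1 := 469762048) (P2 := 0) (W2 := 1230186008) (P3 := 1046898278) (W3 := 26843546) (N0 := 3)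
    rfl (fun _ => rfl) k0_pm_133

noncomputable def f_pm_202 : ℕ → ℕ → ℕ → ℕ → Bool := onCell 1073741824 536870912 0 536870912 1046898278 26843546
    (rowNX 3 1 false true false .pp 2 0 2 (qsf 1073741824 536870912 1073741824 536870912 0) ndN6q2 ndN5q2 pcN0 Cut.none Ext.none)

def k0_pm_202 : ∃ t, chk3 f_pm_202 t 2 8 1 = true :=
  ⟨(a (a (b (a (l 4) (b (c (b (l 13322272) (c (l 13260392) (l 13199080))) (b (c (l 13231664) (b (l 13152352) (l 13145408))) (l 255240716839))) (c (l 207996058855) (l 12966472)))) (c (b (l 404490610967) (l 12655208)) (a (l 12840472) (l 12704768)))) (b (b (c (b (l 12914520) (b (l 12854208) (c (l 12855568) (l 12788232)))) (b (c (b (l 12833088) (l 12791792)) (b (c (l 12781504) (l 12746808)) (l 12722520))) (c (l 12737448) (l 12666408)))) (c (a (l 12944816) (b (l 12585264) (l 12620720))) (a (l 12808600) (l 12483520)))) (a (b (l 12468520) (c (a (l 12703352) (l 12767656)) (l 12624088))) (b (c (l 12829512) (l 12688424)) (l 13171200))))) (b (a (b (a (c (b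 (a (l 12404144) (l 12952160)) (a (l 12509024) (l 13205368))) (b (a (c (l 12288368) (b (l 12183448) (l 12205232))) (c (l 12850576) (l 12781640))) (a (l 12358960) (l 13079736)))) (c (b (l 14410808) (b (l 14587528) (l 14705320))) (b (c (l 14347248) (b (l 14241256) (l 14366896))) (l 14383416)))) (a (c (a (l 12851496) (l 13578264)) (l 13090608)) (c (b (l 14881760) (l 15108160)) (l 14928192)))) (b (a (c (b (l 16185832) (a (l 15989032) (l 16679648))) (b (c (a (l 15741888) (l 16589176)) (a (l 15639160) (l 16585536))) (a (l 15961480) (l 16678968)))) (c (l 16354568) (b (l 16344904) (l 16342592)))) (a (c (a (l 16222832) (l 16621728)) (l 16459480)) (c (l 16350808) (l 16347008))))) (a (a (c (a (l 13585400) (l 14277864)) (l 13624392)) (b (a (l 14949928) (l 15763432)) (a (l 15293280) (l 15881184)))) (a (c (l 16543880) (l 16534576)) (l 16361640))))), by decide +kernel⟩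

def k1_pm_202 : ∃ t, chk3 f_pm_202 t 3 8 1 = true :=
  ⟨(a (b (b (c (b (l 16109712) (l 16115560)) (c (l 16098792) (l 16090992))) (c (l 16025928) (l 16103832))) (c (l 16098304) (l 16127408))) (b (b (c (b (l 15649632) (a (l 15772832) (l 15525200))) (b (c (l 15630840) (a (l 15731976) (l 15473376))) (l 15632464))) (c (c (l 15670416) (l 15668024)) (l 15662768))) (c (a (l 15845616) (l 15589680)) (l 15719360)))), by decide +kernel⟩

def k2_pm_202 : ∃ t, chk3 f_pm_202 t 1 9 1 = true :=
  ⟨(a (a (a (b (a (b (l 12638528) (l 12471528)) (b (l 12537152) (l 12515520))) (a (b (l 12314568) (l 12290360)) (b (l 12720776) (l 13135528)))) (b (a (b (a (l 12672272) (l 13069376)) (l 13315736)) (l 13823032)) (a (l 14051400) (l 14611632)))) (b (a (a (a (l 14388696) (l 14849576)) (l 15651632)) (l 16320656)) (a (a (l 14816680) (l 15648712)) (l 16559440)))) (b (a (a (l 16247664) (l 16059600)) (l 15848048)) (a (l 16164416) (l 16067360)))), by decide +kernel⟩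

def k3_pm_202 : ∃ t, chk3 f_pm_202 t 1 5 1 = true :=
  ⟨(a (a (b (a (a (b (b (l 12493248) (l 12907008)) (l 13638016)) (b (l 13868616) (l 14561240))) (b (a (l 14728320) (l 14832168)) (l 14880760))) (a (b (a (l 14331584) (l 14771032)) (l 14656512)) (l 14830456))) (a (b (a (l 14785336) (l 15608088)) (a (l 14696624) (l 15506656))) (b (l 16536904) (a (l 16367632) (l 16733392))))) (a (b (l 16392512) (l 16737544)) (b (l 16395664) (l 2)))), by decide +kernel⟩

def k4_pm_202 : ∃ t, chk3 f_pm_202 t 1 3 1 = true :=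
  ⟨(a (a (b (a (l 14656704) (l 14816816)) (a (l 14656704) (l 14816816))) (a (b (a (l 14679208) (l 15487608)) (a (l 14679208) (l 2))) (b (l 16442112) (l 2)))) (b (l 598174859271) (l 2))), by decide +kernel⟩

theorem s5_pm_202 : ∃ t, chk3 f_pm_202 t 1 8 1 = true := ex3_a k0_pm_202 k1_pm_202

theorem s6_pm_202 : ∃ t, chk3 f_pm_202 t 1 4 1 = true := ex3_b s5_pm_202 k2_pm_202

theorem s7_pm_202 : ∃ t, chk3 f_pm_202 t 1 2 1 = true := ex3_b s6_pm_202 k3_pm_202

theorem s8_pm_202 : ∃ t, chk3 f_pm_202 t 1 1 1 = true := ex3_b s7_pm_202 k4_pm_202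

theorem c_pm_202 : CertNX 1073741824 536870912 1073741824 536870912 1046898278 26843546 3 false true false .pp 2 0 2
    ndN6q2 ndN5q2 pcN0 Cut.none Ext.none :=
  certNX1 (fam := false) (s1 := true) (s2 := false) (a := 2) (b := 0) (c := 2) (cn := .pp) (n1 := ndN6q2) (n2 := ndN5q2) (pc := pcN0) (cut := Cut.none) (xt := Ext.none) (P1 := 1073741824) (W1 := 536870912) (P2 := 1073741824) (W2 := 536870912) (P3 := 1046898278) (W3 := 26843546) (N0 := 3)
    rfl (fun _ => rfl) s8_pm_202

noncomputable def f_pm_203 : ℕ → ℕ → ℕ → ℕ → Bool := onCell 0 536870912 0 1230186008 1046898278 26843546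
    (rowNX 3 2 false true false .up 2 0 3 (qsf 1073741824 536870912 0 1230186008 0) ndN6q2 ndN5q3 pcN0 Cut.none Ext.none)

def k0_pm_203 : ∃ t, chk3 f_pm_203 t 1 1 1 = true :=
  ⟨(b (a (l 2) (a (l 2) (b (a (l 2) (l 386178083095)) (a (b (l 16705992) (l 16730136)) (b (l 16705992) (l 16730136)))))) (a (a (b (l 2) (b (l 2) (a (b (l 2) (a (a (c (l 14985336) (a (l 467711520295) (l 15220776))) (c (l 15323840) (l 15310816))) (l 15450824))) (a (l 15699816) (l 16058984))))) (b (a (l 2) (a (l 2) (l 1043241294903))) (a (b (a (l 840839417911) (l 16630152)) (l 16364672)) (a (l 16831016) (l 16777144))))) (b (a (b (l 742056263271) (l 16777200)) (b (l 16777168) (l 16777200))) (b (a (l 16777216) (a (l 16731440) (b (l 16660280) (b (l 16260160) (l 15626800))))) (a (b (l 16738016) (a (l 16684168) (b (l 16312792) (l 15576088)))) (b (a (b (l 16342016) (l 15662696)) (b (l 15061288) (l 14917032))) (a (b (l 15060584) (l 14884296)) (l 14727912)))))))), by decide +kernel⟩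

theorem c_pm_203 : CertNX 1073741824 536870912 0 1230186008 1046898278 26843546 3 false true false .up 2 0 3
    ndN6q2 ndN5q3 pcN0 Cut.none Ext.none :=
  certNX2 (fam := false) (s1 := true) (s2 := false) (a := 2) (b := 0) (c := 3) (cn := .up) (n1 := ndN6q2) (n2 := ndN5q3) (pc := pcN0) (cut := Cut.none) (xt := Ext.none) (P1 := 1073741824) (W1 := 536870912) (P2 := 0) (W2 := 1230186008) (P3 := 1046898278) (W3 := 26843546) (N0 := 3)
    rfl (fun _ => rfl) k0_pm_203

noncomputable def f_pm_213 : ℕ → ℕ → ℕ → ℕ → Bool := onCell 1073741824 536870912 0 1230186008 1046898278 26843546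
    (rowNX 3 0 false true false .pnn 2 1 3 (qsf 1073741824 536870912 0 1230186008 1) ndN6q2 ndN5q3 pcN1 Cut.none Ext.none)

def k0_pm_213 : ∃ t, chk3 f_pm_213 t 1 1 1 = true :=
  ⟨(b (a (a (b (a (b (l 15549824) (a (l 15390304) (l 15659552))) (b (l 15634768) (a (l 15644688) (l 15191840)))) (b (a (a (l 14976592) (l 15045160)) (a (l 15185736) (l 14962200))) (a (a (l 14047312) (l 14682256)) (b (l 14949296) (l 14842968))))) (b (a (a (b (l 14982208) (l 14917920)) (l 15605896)) (a (l 16366824) (l 16746992))) (a (b (a (l 14818448) (l 15556768)) (a (l 14726968) (l 15525728))) (b (l 16521576) (l 16565656))))) (b (a (a (l 16746096) (l 16746096)) (a (b (l 16759448) (l 16753712)) (c (l 16754832) (l 16743304)))) (a (b (l 16705992) (l 16730136)) (c (b (l 16713816) (l 16731112)) (b (l 16692592) (l 16729176)))))) (b (a (b (a (a (b (l 14400824) (l 14500696)) (l 14809024)) (a (l 15092688) (l 16567984))) (a (a (b (l 14609160) (l 14656600)) (l 14816832)) (a (l 15092664) (l 16567960)))) (a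 (l 16777184) (l 16777184))) (a (b (a (l 14737424) (a (l 15008760) (l 16567944))) (a (b (l 14737424) (l 14737424)) (a (b (l 15092648) (l 1)) (l 1)))) (l 1)))), by decide +kernel⟩

theorem c_pm_213 : CertNX 1073741824 536870912 0 1230186008 1046898278 26843546 3 false true false .pnn 2 1 3
    ndN6q2 ndN5q3 pcN1 Cut.none Ext.none :=
  certNX0 (fam := false) (s1 := true) (s2 := false) (a := 2) (b := 1) (c := 3) (cn := .pnn) (n1 := ndN6q2) (n2 := ndN5q3) (pc := pcN1) (cut := Cut.none) (xt := Ext.none) (P1 := 1073741824) (W1 := 536870912) (P2 := 0) (W2 := 1230186008) (P3 := 1046898278) (W3 := 26843546) (N0 := 3)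
    rfl k0_pm_213

noncomputable def f_pm_303 : ℕ → ℕ → ℕ → ℕ → Bool := onCell 0 1230186008 0 1230186008 1046898278 26843546
    (rowNX 3 0 false true false .npn 3 0 3 (qsf 0 1230186008 0 1230186008 0) ndN6q3 ndN5q3 pcN0 Cut.none Ext.none)

def k0_pm_303 : ∃ t, chk3 f_pm_303 t 2 1 1 = true :=
  ⟨(b (l 3) (b (l 3) (l 1))), by decide +kernel⟩

def k1_pm_303 : ∃ t, chk3 f_pm_303 t 3 2 1 = true :=
  ⟨(a (l 3) (a (b (l 3) (l 3)) (b (a (l 3) (c (l 376514413655) (l 413021627031))) (b (c (l 385104068295) (l 409800066007)) (a (c (l 16731112) (l 16729176)) (c (l 16731112) (l 16729176))))))), by decide +kernel⟩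

def k2_pm_303 : ∃ t, chk3 f_pm_303 t 6 3 1 = true :=
  ⟨(b (a (l 3) (l 3)) (b (b (b (b (l 3) (l 1)) (l 1)) (l 1)) (l 1))), by decide +kernel⟩

def k3_pm_303 : ∃ t, chk3 f_pm_303 t 14 12 1 = true :=
  ⟨(a (l 3) (b (l 3) (a (l 3) (b (l 16531128) (l 16332232))))), by decide +kernel⟩

def k4_pm_303 : ∃ t, chk3 f_pm_303 t 28 13 1 = true :=
  ⟨(b (b (l 3) (a (l 3) (a (l 3) (c (l 392080051767) (l 15086552))))) (b (a (l 3) (b (a (l 3) (a (l 14761728) (l 14934784))) (a (a (l 3) (b (l 14541576) (a (l 14411792) (l 14518408)))) (a (b (l 14636320) (l 14508320)) (l 14758240))))) (a (a (l 3) (b (a (l 3) (a (l 3) (c (c (l 383488319527) (b (l 3) (l 14366744))) (l 14305704)))) (a (b (l 3) (c (l 14187112) (c (c (l 14147528) (a (l 3) (l 14103056))) (l 14091920)))) (c (c (l 14301704) (c (l 14291488) (b (c (l 14291384) (l 14292200)) (l 14239136)))) (c (c (b (l 14267232) (c (l 228869098215) (l 14213304))) (l 14211984)) (l 14176080)))))) (c (a (a (c (b (c (l 14488112) (b (l 14320808) (l 14461696)))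 (l 14381000)) (b (c (b (l 14454592) (l 14283760)) (l 14402248)) (b (c (l 14302848) (l 14292368)) (c (l 14324104) (b (l 14324824) (l 14290152)))))) (c (b (b (l 14439984) (c (l 14550960) (l 14372192))) (b (c (l 14487120) (l 14474664)) (l 14424232))) (b (l 14477504) (b (c (l 14337696) (l 14394168)) (l 14390576))))) (a (b (c (c (b (a (l 14619424) (l 14636952)) (a (l 14601296) (l 14457840))) (l 14445952)) (l 14531480)) (c (b (l 14555824) (l 14490232)) (l 14480520))) (b (b (l 14712048) (l 14635688)) (c (l 14432200) (l 14538072))))) (a (c (c (b (l 14424792) (a (l 14151528) (l 14348952))) (l 14350632)) (l 14319056)) (b (a (l 14472448) (l 14566040)) (l 14438544))))))), by decide +kernel⟩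

def k5_pm_303 : ∃ t, chk3 f_pm_303 t 29 13 1 = true :=
  ⟨(b (b (a (l 15730160) (l 16144704)) (a (a (b (l 15493328) (l 15167632)) (l 15710712)) (a (l 15869864) (l 16092400)))) (a (b (a (b (a (l 15141672) (l 15363264)) (c (l 15128296) (l 15092064))) (c (b (l 15619352) (l 15669288)) (b (l 15578696) (l 15630392)))) (a (b (a (l 14802168) (l 15114696)) (c (b (a (l 14691808) (l 14922368)) (a (l 14627960) (b (l 14784304) (l 14707480)))) (b (l 14743800) (l 14614280)))) (b (c (l 15602976) (l 15561720)) (c (l 15309464) (l 15069104))))) (b (c (l 16127672) (l 16104872)) (b (a (c (l 16169560) (l 16148216)) (l 16493200)) (a (c (b (l 16139736) (l 15890064)) (b (l 16117336) (l 15858872))) (b (c (l 16566664) (l 16559280)) (l 16399464))))))), by decide +kernel⟩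

def k6_pm_303 : ∃ t, chk3 f_pm_303 t 15 6 1 = true :=
  ⟨(b (a (b (a (l 16775968) (l 16777200)) (a (b (a (l 16713568) (l 16773184)) (a (l 16588592) (l 16734752))) (l 16773032))) (b (l 16777200) (l 16777136))) (a (b (a (b (l 16500088) (l 16452536)) (b (l 16752104) (l 16715864))) (a (b (l 16560488) (b (l 16719176) (l 16637752))) (b (l 16769696) (b (l 16747488) (l 16742088))))) (b (a (l 16775912) (l 16777184)) (b (a (l 16772968) (l 16777216)) (a (l 16770304) (l 16774976)))))), by decide +kernel⟩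

def k7_pm_303 : ∃ t, chk3 f_pm_303 t 56 28 1 = true :=
  ⟨(b (c (b (b (l 14079320) (a (l 14016200) (a (l 14082592) (l 14138888)))) (a (l 889085474919) (b (a (l 14060472) (l 14123960)) (l 14021384)))) (a (a (b (l 3) (l 1)) (b (b (a (l 3) (c (l 14031440) (c (c (l 14005912) (l 362549564967)) (l 360938908775)))) (c (l 13965576) (c (l 13720616) (a (b (l 360938650343) (l 13869856)) (b (c (l 13941064) (l 13927688)) (l 13908472)))))) (l 13603232))) (b (b (c (c (l 225647660791) (a (c (l 14078152) (l 13897240)) (b (l 14154512) (l 14123976)))) (c (a (c (a (l 13995528) (l 14063888)) (l 13782128)) (l 14110792)) (l 14054080))) (a (c (b (l 14039024) (l 14016952)) (c (a (l 13972816) (l 13929768)) (b (l 13792904) (l 13964120)))) (b (c (l 13898648) (l 14035472)) (c (l 14081840) (l 14036656))))) (a (b (c (l 13975728) (b (c (l 13962296) (l 13882984)) (l 13930200))) (l 13898352)) (c (b (b (l 14067536) (l 14043192)) (l 13997424)) (b (c (l 14029520) (l 14011920)) (l 13986072))))))) (b (c (b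 (l 893917138519) (l 1)) (l 13717664)) (l 1))), by decide +kernel⟩

def k8_pm_303 : ∃ t, chk3 f_pm_303 t 57 28 1 = true :=
  ⟨(b (c (b (b (c (a (l 14338464) (a (l 14451528) (b (l 14547232) (l 14511728)))) (a (a (l 14273488) (b (l 14341584) (l 14322968))) (a (c (l 14429680) (l 14403432)) (l 14486400)))) (a (c (l 14256568) (l 14243248)) (l 14228496))) (a (b (b (l 14212696) (c (l 14213936) (l 14184216))) (c (l 14200688) (a (l 14128848) (l 13994464)))) (c (l 14262872) (l 14108384)))) (b (c (b (a (c (a (b (l 14251328) (l 14221240)) (l 14308416)) (l 14247152)) (l 14398672)) (a (a (c (l 14179952) (a (l 14137096) (l 14192072))) (l 14255864)) (l 14359688))) (l 14149552)) (a (c (a (b (l 14144896) (b (l 14087064) (l 14094288))) (l 14047560)) (b (l 14112440) (l 14100312))) (b (l 14262032) (l 14251504))))) (c (b (a (a (l 14029000) (c (l 14151936) (l 14059032))) (b (a (c (l 14282464) (l 14184488)) (l 14292184)) (c (c (b (l 14305640) (l 14298120)) (l 14274032)) (l 14165712)))) (a (l 13963968)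 (b (l 14225200) (l 14167480)))) (b (a (b (c (a (l 14056000) (l 14144208)) (a (l 14034152) (l 14113712))) (a (l 13978056) (c (l 14102832) (l 13934480)))) (b (l 14232608) (c (a (l 14190560) (l 14251288)) (l 14131184)))) (a (l 13928632) (b (a (c (l 14149648) (b (l 14141656) (l 14119184))) (c (l 14236896) (l 14207520))) (a (l 14072792) (c (l 14196448) (b (l 14188664) (l 14166368))))))))), by decide +kernel⟩

def k9_pm_303 : ∃ t, chk3 f_pm_303 t 29 28 1 = true :=
  ⟨(a (b (b (a (c (a (b (b (l 14425840) (l 14571728)) (l 14526168)) (l 14632656)) (l 14479232)) (b (l 14825592) (a (l 14654680) (l 14820088)))) (c (b (a (c (l 14541912) (l 14506968)) (b (l 14699616) (l 14673784))) (l 14579208)) (a (l 14421088) (l 14581336)))) (b (c (a (c (l 14407544) (l 14379712)) (l 14556248)) (l 14431072)) (c (a (b (a (l 14329000) (l 14389664)) (a (l 14327968) (l 14290072))) (c (l 14485360) (l 14476456))) (a (b (l 14325312) (a (c (l 14283192) (l 14254384)) (l 14322072))) (l 14455904))))) (a (b (b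 (l 15378792) (b (c (l 14907352) (l 14960200)) (a (c (l 14791208) (l 14707640)) (b (l 14949752) (l 14838360))))) (b (c (a (l 14695376) (b (l 14828464) (l 14750048))) (l 14675936)) (l 14526400))) (b (b (l 15965056) (l 15403872)) (b (c (a (l 14943448) (l 15139848)) (l 14831752)) (c (c (l 14822808) (l 14829200)) (l 14779040)))))), by decide +kernel⟩

def k10_pm_303 : ∃ t, chk3 f_pm_303 t 14 29 1 = true :=
  ⟨(a (b (a (l 1) (b (c (l 13955536) (l 13669152)) (l 1))) (l 1)) (b (a (a (b (c (b (l 14086496) (l 14260504)) (b (c (a (l 14243224) (l 14329464)) (a (b (l 14235648) (l 14213536)) (l 14301200))) (a (l 14167560) (c (l 14289968) (b (l 14282600) (l 14260680)))))) (c (l 14143336) (l 14110960))) (b (c (b (a (l 14230136) (l 14479432)) (a (l 14418792) (c (l 14500576) (l 14466024)))) (b (l 14417824) (a (c (l 14375688) (l 14327008)) (l 14414304)))) (b (b (c (l 14256528) (a (c (l 14353376) (l 14245632)) (c (l 14428672) (l 14401480)))) (c (l 14400224) (a (l 14189136) (c (l 14417904)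 (l 14390096))))) (l 14339568)))) (a (b (c (c (l 14576048) (l 14568080)) (l 14548528)) (b (c (a (c (l 14547440) (l 14514144)) (l 14571664)) (l 14366416)) (a (l 14492880) (c (b (l 14532536) (l 14573832)) (l 14399024))))) (c (b (l 14736200) (b (l 14671184) (b (l 14648496) (l 14644624)))) (l 14492512)))) (a (l 14000392) (b (a (c (l 14468768) (b (l 14456336) (l 14414464))) (c (l 14614144) (l 14482800))) (a (l 14330352) (c (l 14561056) (b (l 14360624) (l 14508432)))))))), by decide +kernel⟩

def k11_pm_303 : ∃ t, chk3 f_pm_303 t 14 15 1 = true :=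
  ⟨(a (l 1) (b (b (a (l 1) (l 14050968)) (l 1)) (l 1))), by decide +kernel⟩

def k12_pm_303 : ∃ t, chk3 f_pm_303 t 15 14 1 = true :=
  ⟨(a (b (a (b (b (l 16196928) (a (b (l 16008168) (l 15758456)) (l 16159344))) (a (b (l 15420072) (c (l 15051104) (l 15089712))) (b (b (l 15965200) (l 15815672)) (l 15529848)))) (b (l 16467480) (a (b (l 16117584) (l 15928096)) (l 16339608)))) (a (b (a (b (c (a (l 14871688) (l 14752904)) (l 14873208)) (c (l 14829400) (l 14801472))) (b (b (l 15281400) (l 15145128)) (c (b (l 14806096) (l 14727328)) (b (l 15001632) (l 14927600))))) (b (l 14678632) (a (c (l 14557400) (l 14428104)) (l 14799984)))) (b (a (b (l 15621344) (c (l 15343064) (l 15293496))) (b (l 15958104) (l 15694304))) (a (b (l 15090248) (l 14989104)) (l 15308504))))) (b (a (b (l 16619680) (b (l 16478376) (l 16357320))) (b (l 16737472) (l 16613264))) (a (b (b (l 16213952) (a (l 15984408) (l 16143416))) (b (a (l 15757856) (l 16015880)) (l 15565648))) (b (l 16393888) (b (l 16227680) (l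 16116272)))))), by decide +kernel⟩

def k13_pm_303 : ∃ t, chk3 f_pm_303 t 15 15 1 = true :=
  ⟨(b (a (b (a (b (a (c (l 14653128) (b (a (l 14606808) (l 14681384)) (l 14602224))) (c (b (l 14828056) (l 14806520)) (b (l 14785136) (l 14719856)))) (a (l 14521208) (c (l 14744944) (b (a (l 14699744) (l 14773288)) (l 14590944))))) (b (c (l 15014272) (l 14987496)) (a (c (b (l 14917192) (l 14895848)) (b (l 14876072) (l 14706520))) (l 14746528)))) (a (l 631388607079) (b (c (a (l 14836464) (b (l 15005592) (l 14921888))) (a (b (a (l 14792400) (l 14864840)) (l 14558448)) (b (l 14966560) (l 14692768)))) (a (l 14711872) (c (l 14843768) (a (b (l 14884728) (l 14828752)) (b (l 14955992) (l 14930752)))))))) (b (a (b (l 15449912) (l 15262360)) (l 15861120)) (a (a (b (c (l 15112904) (l 15094248)) (c (l 15081176) (c (l 14888056) (l 15036504)))) (c (l 15233304) (l 15194240))) (b (l 15615424) (a (l 15331016) (l 15552248)))))) (a (b (a (l 1) (b (l 14703600) (l 1))) (l 1)) (b (a (b (a (c (l 14787784)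 (a (b (l 14976680) (l 14922448)) (b (l 15046712) (l 14980560)))) (c (l 15169024) (l 15134128))) (a (l 14902016) (c (b (l 15133888) (l 15089752)) (b (a (l 14963360) (l 15053056)) (a (l 15015824) (l 14967016)))))) (a (a (b (l 15089824) (b (l 15245472) (l 15214928))) (c (l 15311920) (l 15278952))) (b (l 15417368) (l 15325672)))) (a (b (l 14897952) (l 1)) (b (a (a (a (l 14979448) (l 15172568)) (b (l 15259064) (c (l 15231344) (l 14973952)))) (c (b (l 15291632) (a (l 15310024) (l 15366864))) (l 15312152))) (a (l 15091304) (b (b (c (l 15258536) (l 15289792)) (c (l 15304376) (l 15277704))) (a (l 15206424) (l 15315104))))))))), by decide +kernel⟩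

theorem s14_pm_303 : ∃ t, chk3 f_pm_303 t 15 7 1 = true := ex3_b k12_pm_303 k13_pm_303

theorem s15_pm_303 : ∃ t, chk3 f_pm_303 t 28 28 1 = true := ex3_a k7_pm_303 k8_pm_303

theorem s16_pm_303 : ∃ t, chk3 f_pm_303 t 14 28 1 = true := ex3_a s15_pm_303 k9_pm_303

theorem s17_pm_303 : ∃ t, chk3 f_pm_303 t 14 14 1 = true := ex3_b s16_pm_303 k10_pm_303

theorem s18_pm_303 : ∃ t, chk3 f_pm_303 t 14 7 1 = true := ex3_b s17_pm_303 k11_pm_303

theorem s19_pm_303 : ∃ t, chk3 f_pm_303 t 7 7 1 = true := ex3_a s18_pm_303 s14_pm_303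

theorem s20_pm_303 : ∃ t, chk3 f_pm_303 t 14 13 1 = true := ex3_a k4_pm_303 k5_pm_303

theorem s21_pm_303 : ∃ t, chk3 f_pm_303 t 14 6 1 = true := ex3_b k3_pm_303 s20_pm_303

theorem s22_pm_303 : ∃ t, chk3 f_pm_303 t 7 6 1 = true := ex3_a s21_pm_303 k6_pm_303

theorem s23_pm_303 : ∃ t, chk3 f_pm_303 t 7 3 1 = true := ex3_b s22_pm_303 s19_pm_303

theorem s24_pm_303 : ∃ t, chk3 f_pm_303 t 3 3 1 = true := ex3_a k2_pm_303 s23_pm_303

theorem s25_pm_303 : ∃ t, chk3 f_pm_303 t 3 1 1 = true := ex3_b k1_pm_303 s24_pm_303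

theorem s26_pm_303 : ∃ t, chk3 f_pm_303 t 1 1 1 = true := ex3_a k0_pm_303 s25_pm_303

theorem c_pm_303 : CertNX 0 1230186008 0 1230186008 1046898278 26843546 3 false true false .npn 3 0 3
    ndN6q3 ndN5q3 pcN0 Cut.none Ext.none :=
  certNX0 (fam := false) (s1 := true) (s2 := false) (a := 3) (b := 0) (c := 3) (cn := .npn) (n1 := ndN6q3) (n2 := ndN5q3) (pc := pcN0) (cut := Cut.none) (xt := Ext.none) (P1 := 0) (W1 := 1230186008) (P2 := 0) (W2 := 1230186008) (P3 := 1046898278) (W3 := 26843546) (N0 := 3)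
    rfl s26_pm_303

noncomputable def f_pm_313 : ℕ → ℕ → ℕ → ℕ → Bool := onCell 0 1230186008 0 1230186008 1046898278 26843546
    (rowNX 3 0 false true false .dn 3 1 3 (qsf 0 1230186008 0 1230186008 1) ndN6q3 ndN5q3 pcN1 Cut.none Ext.none)

def k0_pm_313 : ∃ t, chk3 f_pm_313 t 1 1 1 = true :=
  ⟨(a (l 1) (b (a (l 1) (b (b (l 3) (l 1)) (l 1))) (l 1))), by decide +kernel⟩

theorem c_pm_313 : CertNX 0 1230186008 0 1230186008 1046898278 26843546 3 false true false .dn 3 1 3
    ndN6q3 ndN5q3 pcN1 Cut.none Ext.none :=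
  certNX0 (fam := false) (s1 := true) (s2 := false) (a := 3) (b := 1) (c := 3) (cn := .dn) (n1 := ndN6q3) (n2 := ndN5q3) (pc := pcN1) (cut := Cut.none) (xt := Ext.none) (P1 := 0) (W1 := 1230186008) (P2 := 0) (W2 := 1230186008) (P3 := 1046898278) (W3 := 26843546) (N0 := 3)
    rfl k0_pm_313

noncomputable def f_mm_001 : ℕ → ℕ → ℕ → ℕ → Bool := onCell 0 536870912 536870912 469762048 1046898278 26843546
    (rowNX 3 0 false false false .up 0 0 1 (qsf 0 536870912 536870912 469762048 0) ndN6q0 ndN5q1 pcN0 Cut.none Ext.none)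

def k0_mm_001 : ∃ t, chk3 f_mm_001 t 1 1 1 = true :=
  ⟨(l 3), by decide +kernel⟩

theorem c_mm_001 : CertNX 0 536870912 536870912 469762048 1046898278 26843546 3 false false false .up 0 0 1
    ndN6q0 ndN5q1 pcN0 Cut.none Ext.none :=
  certNX0 (fam := false) (s1 := false) (s2 := false) (a := 0) (b := 0) (c := 1) (cn := .up) (n1 := ndN6q0) (n2 := ndN5q1) (pc := pcN0) (cut := Cut.none) (xt := Ext.none) (P1 := 0) (W1 := 536870912) (P2 := 536870912) (W2 := 469762048) (P3 := 1046898278) (W3 := 26843546) (N0 := 3)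
    rfl k0_mm_001

noncomputable def f_mm_011 : ℕ → ℕ → ℕ → ℕ → Bool := onCell 0 536870912 536870912 469762048 1046898278 26843546
    (rowNX 3 0 false false false .pnn 0 1 1 (qsf 0 536870912 536870912 469762048 1) ndN6q0 ndN5q1 pcN1 Cut.none Ext.none)

def k0_mm_011 : ∃ t, chk3 f_mm_011 t 1 1 1 = true :=
  ⟨(l 3), by decide +kernel⟩

theorem c_mm_011 : CertNX 0 536870912 536870912 469762048 1046898278 26843546 3 false false false .pnn 0 1 1
    ndN6q0 ndN5q1 pcN1 Cut.none Ext.none :=
  certNX0 (fam := false) (s1 := false) (s2 := false) (a := 0) (b := 1) (c := 1) (cn := .pnn) (n1 := ndN6q0) (n2 := ndN5q1) (pc := pcN1) (cut := Cut.none) (xt := Ext.none) (P1 := 0) (W1 := 536870912) (P2 := 536870912) (W2 := 469762048) (P3 := 1046898278) (W3 := 26843546) (N0 := 3)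
    rfl k0_mm_011

noncomputable def f_mm_012 : ℕ → ℕ → ℕ → ℕ → Bool := onCell 0 536870912 1073741824 536870912 1046898278 26843546
    (rowNX 3 0 false false false .pnp 0 1 2 (qsf 0 536870912 1073741824 536870912 1) ndN6q0 ndN5q2 pcN1 Cut.none Ext.none)

def k0_mm_012 : ∃ t, chk3 f_mm_012 t 1 1 1 = true :=
  ⟨(l 5), by decide +kernel⟩

theorem c_mm_012 : CertNX 0 536870912 1073741824 536870912 1046898278 26843546 3 false false false .pnp 0 1 2
    ndN6q0 ndN5q2 pcN1 Cut.none Ext.none :=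
  certNX0 (fam := false) (s1 := false) (s2 := false) (a := 0) (b := 1) (c := 2) (cn := .pnp) (n1 := ndN6q0) (n2 := ndN5q2) (pc := pcN1) (cut := Cut.none) (xt := Ext.none) (P1 := 0) (W1 := 536870912) (P2 := 1073741824) (W2 := 536870912) (P3 := 1046898278) (W3 := 26843546) (N0 := 3)
    rfl k0_mm_012

noncomputable def f_mm_022 : ℕ → ℕ → ℕ → ℕ → Bool := onCell 0 536870912 1073741824 536870912 1046898278 26843546
    (rowNX 3 0 false false false .pp 0 2 2 (qsf 0 536870912 1073741824 536870912 2) ndN6q0 ndN5q2 pcN2 Cut.none Ext.none)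

def k0_mm_022 : ∃ t, chk3 f_mm_022 t 1 1 1 = true :=
  ⟨(l 5), by decide +kernel⟩

theorem c_mm_022 : CertNX 0 536870912 1073741824 536870912 1046898278 26843546 3 false false false .pp 0 2 2
    ndN6q0 ndN5q2 pcN2 Cut.none Ext.none :=
  certNX0 (fam := false) (s1 := false) (s2 := false) (a := 0) (b := 2) (c := 2) (cn := .pp) (n1 := ndN6q0) (n2 := ndN5q2) (pc := pcN2) (cut := Cut.none) (xt := Ext.none) (P1 := 0) (W1 := 536870912) (P2 := 1073741824) (W2 := 536870912) (P3 := 1046898278) (W3 := 26843546) (N0 := 3)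
    rfl k0_mm_022

noncomputable def f_mm_023 : ℕ → ℕ → ℕ → ℕ → Bool := onCell 0 536870912 0 1230186008 1046898278 26843546
    (rowNX 3 0 false false false .up 0 2 3 (qsf 0 536870912 0 1230186008 2) ndN6q0 ndN5q3 pcN2 Cut.none Ext.none)

def k0_mm_023 : ∃ t, chk3 f_mm_023 t 1 1 1 = true :=
  ⟨(l 5), by decide +kernel⟩

theorem c_mm_023 : CertNX 0 536870912 0 1230186008 1046898278 26843546 3 false false false .up 0 2 3
    ndN6q0 ndN5q3 pcN2 Cut.none Ext.none :=
  certNX0 (fam := false) (s1 := false) (s2 := false) (a := 0) (b := 2) (c := 3) (cn := .up) (n1 := ndN6q0) (n2 := ndN5q3) (pc := pcN2) (cut := Cut.none) (xt := Ext.none) (P1 := 0) (W1 := 536870912) (P2 := 0) (W2 := 1230186008) (P3 := 1046898278) (W3 := 26843546) (N0 := 3)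
    rfl k0_mm_023

noncomputable def f_mm_033 : ℕ → ℕ → ℕ → ℕ → Bool := onCell 0 536870912 0 1230186008 1046898278 26843546
    (rowNX 3 0 false false false .pnn 0 3 3 (qsf 0 536870912 0 1230186008 3) ndN6q0 ndN5q3 pcN3 Cut.none Ext.none)

def k0_mm_033 : ∃ t, chk3 f_mm_033 t 1 1 1 = true :=
  ⟨(l 5), by decide +kernel⟩

theorem c_mm_033 : CertNX 0 536870912 0 1230186008 1046898278 26843546 3 false false false .pnn 0 3 3
    ndN6q0 ndN5q3 pcN3 Cut.none Ext.none :=
  certNX0 (fam := false) (s1 := false) (s2 := false) (a := 0) (b := 3) (c := 3) (cn := .pnn) (n1 := ndN6q0) (n2 := ndN5q3) (pc := pcN3) (cut := Cut.none) (xt := Ext.none) (P1 := 0) (W1 := 536870912) (P2 := 0) (W2 := 1230186008) (P3 := 1046898278) (W3 := 26843546) (N0 := 3)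
    rfl k0_mm_033

noncomputable def f_mm_101 : ℕ → ℕ → ℕ → ℕ → Bool := onCell 536870912 469762048 536870912 469762048 1046898278 26843546
    (rowNX 3 0 false false false .npn 1 0 1 (qsf 536870912 469762048 536870912 469762048 0) ndN6q1 ndN5q1 pcN0 Cut.none Ext.none)

def k0_mm_101 : ∃ t, chk3 f_mm_101 t 1 1 1 = true :=
  ⟨(l 3), by decide +kernel⟩

theorem c_mm_101 : CertNX 536870912 469762048 536870912 469762048 1046898278 26843546 3 false false false .npn 1 0 1
    ndN6q1 ndN5q1 pcN0 Cut.none Ext.none :=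
  certNX0 (fam := false) (s1 := false) (s2 := false) (a := 1) (b := 0) (c := 1) (cn := .npn) (n1 := ndN6q1) (n2 := ndN5q1) (pc := pcN0) (cut := Cut.none) (xt := Ext.none) (P1 := 536870912) (W1 := 469762048) (P2 := 536870912) (W2 := 469762048) (P3 := 1046898278) (W3 := 26843546) (N0 := 3)
    rfl k0_mm_101

noncomputable def f_mm_102 : ℕ → ℕ → ℕ → ℕ → Bool := onCell 536870912 469762048 1073741824 536870912 1046898278 26843546
    (rowNX 3 0 false false false .npp 1 0 2 (qsf 536870912 469762048 1073741824 536870912 0) ndN6q1 ndN5q2 pcN0 Cut.none Ext.none)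

def k0_mm_102 : ∃ t, chk3 f_mm_102 t 1 1 1 = true :=
  ⟨(l 5), by decide +kernel⟩

theorem c_mm_102 : CertNX 536870912 469762048 1073741824 536870912 1046898278 26843546 3 false false false .npp 1 0 2
    ndN6q1 ndN5q2 pcN0 Cut.none Ext.none :=
  certNX0 (fam := false) (s1 := false) (s2 := false) (a := 1) (b := 0) (c := 2) (cn := .npp) (n1 := ndN6q1) (n2 := ndN5q2) (pc := pcN0) (cut := Cut.none) (xt := Ext.none) (P1 := 536870912) (W1 := 469762048) (P2 := 1073741824) (W2 := 536870912) (P3 := 1046898278) (W3 := 26843546) (N0 := 3)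
    rfl k0_mm_102

noncomputable def f_mm_112 : ℕ → ℕ → ℕ → ℕ → Bool := onCell 536870912 469762048 1073741824 536870912 1046898278 26843546
    (rowNX 3 0 false false false .dn 1 1 2 (qsf 536870912 469762048 1073741824 536870912 1) ndN6q1 ndN5q2 pcN1 Cut.none Ext.none)

def k0_mm_112 : ∃ t, chk3 f_mm_112 t 1 1 1 = true :=
  ⟨(l 5), by decide +kernel⟩

theorem c_mm_112 : CertNX 536870912 469762048 1073741824 536870912 1046898278 26843546 3 false false false .dn 1 1 2
    ndN6q1 ndN5q2 pcN1 Cut.none Ext.none :=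
  certNX0 (fam := false) (s1 := false) (s2 := false) (a := 1) (b := 1) (c := 2) (cn := .dn) (n1 := ndN6q1) (n2 := ndN5q2) (pc := pcN1) (cut := Cut.none) (xt := Ext.none) (P1 := 536870912) (W1 := 469762048) (P2 := 1073741824) (W2 := 536870912) (P3 := 1046898278) (W3 := 26843546) (N0 := 3)
    rfl k0_mm_112

noncomputable def f_mm_113 : ℕ → ℕ → ℕ → ℕ → Bool := onCell 536870912 469762048 0 1230186008 1046898278 26843546
    (rowNX 3 0 false false false .nn 1 1 3 (qsf 536870912 469762048 0 1230186008 1) ndN6q1 ndN5q3 pcN1 Cut.none Ext.none)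

def k0_mm_113 : ∃ t, chk3 f_mm_113 t 1 1 1 = true :=
  ⟨(l 5), by decide +kernel⟩

theorem c_mm_113 : CertNX 536870912 469762048 0 1230186008 1046898278 26843546 3 false false false .nn 1 1 3
    ndN6q1 ndN5q3 pcN1 Cut.none Ext.none :=
  certNX0 (fam := false) (s1 := false) (s2 := false) (a := 1) (b := 1) (c := 3) (cn := .nn) (n1 := ndN6q1) (n2 := ndN5q3) (pc := pcN1) (cut := Cut.none) (xt := Ext.none) (P1 := 536870912) (W1 := 469762048) (P2 := 0) (W2 := 1230186008) (P3 := 1046898278) (W3 := 26843546) (N0 := 3)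
    rfl k0_mm_113

noncomputable def f_mm_123 : ℕ → ℕ → ℕ → ℕ → Bool := onCell 536870912 469762048 0 1230186008 1046898278 26843546
    (rowNX 3 0 false false false .npn 1 2 3 (qsf 536870912 469762048 0 1230186008 2) ndN6q1 ndN5q3 pcN2 Cut.none Ext.none)

def k0_mm_123 : ∃ t, chk3 f_mm_123 t 1 1 1 = true :=
  ⟨(l 5), by decide +kernel⟩

theorem c_mm_123 : CertNX 536870912 469762048 0 1230186008 1046898278 26843546 3 false false false .npn 1 2 3
    ndN6q1 ndN5q3 pcN2 Cut.none Ext.none :=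
  certNX0 (fam := false) (s1 := false) (s2 := false) (a := 1) (b := 2) (c := 3) (cn := .npn) (n1 := ndN6q1) (n2 := ndN5q3) (pc := pcN2) (cut := Cut.none) (xt := Ext.none) (P1 := 536870912) (W1 := 469762048) (P2 := 0) (W2 := 1230186008) (P3 := 1046898278) (W3 := 26843546) (N0 := 3)
    rfl k0_mm_123

noncomputable def f_mm_133 : ℕ → ℕ → ℕ → ℕ → Bool := onCell 536870912 469762048 0 1230186008 1046898278 26843546
    (rowNX 3 0 false false false .dn 1 3 3 (qsf 536870912 469762048 0 1230186008 3) ndN6q1 ndN5q3 pcN3 Cut.none Ext.none)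

def k0_mm_133 : ∃ t, chk3 f_mm_133 t 1 1 1 = true :=
  ⟨(l 5), by decide +kernel⟩

theorem c_mm_133 : CertNX 536870912 469762048 0 1230186008 1046898278 26843546 3 false false false .dn 1 3 3
    ndN6q1 ndN5q3 pcN3 Cut.none Ext.none :=
  certNX0 (fam := false) (s1 := false) (s2 := false) (a := 1) (b := 3) (c := 3) (cn := .dn) (n1 := ndN6q1) (n2 := ndN5q3) (pc := pcN3) (cut := Cut.none) (xt := Ext.none) (P1 := 536870912) (W1 := 469762048) (P2 := 0) (W2 := 1230186008) (P3 := 1046898278) (W3 := 26843546) (N0 := 3)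
    rfl k0_mm_133

noncomputable def f_mm_202 : ℕ → ℕ → ℕ → ℕ → Bool := onCell 1073741824 536870912 1073741824 536870912 1046898278 26843546
    (rowNX 3 0 false false false .pp 2 0 2 (qsf 1073741824 536870912 1073741824 536870912 0) ndN6q2 ndN5q2 pcN0 Cut.none Ext.none)

def k0_mm_202 : ∃ t, chk3 f_mm_202 t 1 1 1 = true :=
  ⟨(l 3), by decide +kernel⟩

theorem c_mm_202 : CertNX 1073741824 536870912 1073741824 536870912 1046898278 26843546 3 false false false .pp 2 0 2
    ndN6q2 ndN5q2 pcN0 Cut.none Ext.none :=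
  certNX0 (fam := false) (s1 := false) (s2 := false) (a := 2) (b := 0) (c := 2) (cn := .pp) (n1 := ndN6q2) (n2 := ndN5q2) (pc := pcN0) (cut := Cut.none) (xt := Ext.none) (P1 := 1073741824) (W1 := 536870912) (P2 := 1073741824) (W2 := 536870912) (P3 := 1046898278) (W3 := 26843546) (N0 := 3)
    rfl k0_mm_202

noncomputable def f_mm_203 : ℕ → ℕ → ℕ → ℕ → Bool := onCell 1073741824 536870912 0 1230186008 1046898278 26843546
    (rowNX 3 0 false false false .up 2 0 3 (qsf 1073741824 536870912 0 1230186008 0) ndN6q2 ndN5q3 pcN0 Cut.none Ext.none)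

def k0_mm_203 : ∃ t, chk3 f_mm_203 t 1 1 1 = true :=
  ⟨(l 5), by decide +kernel⟩

theorem c_mm_203 : CertNX 1073741824 536870912 0 1230186008 1046898278 26843546 3 false false false .up 2 0 3
    ndN6q2 ndN5q3 pcN0 Cut.none Ext.none :=
  certNX0 (fam := false) (s1 := false) (s2 := false) (a := 2) (b := 0) (c := 3) (cn := .up) (n1 := ndN6q2) (n2 := ndN5q3) (pc := pcN0) (cut := Cut.none) (xt := Ext.none) (P1 := 1073741824) (W1 := 536870912) (P2 := 0) (W2 := 1230186008) (P3 := 1046898278) (W3 := 26843546) (N0 := 3)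
    rfl k0_mm_203

noncomputable def f_mm_213 : ℕ → ℕ → ℕ → ℕ → Bool := onCell 1073741824 536870912 0 1230186008 1046898278 26843546
    (rowNX 3 0 false false false .pnn 2 1 3 (qsf 1073741824 536870912 0 1230186008 1) ndN6q2 ndN5q3 pcN1 Cut.none Ext.none)

def k0_mm_213 : ∃ t, chk3 f_mm_213 t 1 1 1 = true :=
  ⟨(l 5), by decide +kernel⟩

theorem c_mm_213 : CertNX 1073741824 536870912 0 1230186008 1046898278 26843546 3 false false false .pnn 2 1 3
    ndN6q2 ndN5q3 pcN1 Cut.none Ext.none :=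
  certNX0 (fam := false) (s1 := false) (s2 := false) (a := 2) (b := 1) (c := 3) (cn := .pnn) (n1 := ndN6q2) (n2 := ndN5q3) (pc := pcN1) (cut := Cut.none) (xt := Ext.none) (P1 := 1073741824) (W1 := 536870912) (P2 := 0) (W2 := 1230186008) (P3 := 1046898278) (W3 := 26843546) (N0 := 3)
    rfl k0_mm_213

noncomputable def f_mm_303 : ℕ → ℕ → ℕ → ℕ → Bool := onCell 0 1230186008 0 1230186008 1046898278 26843546
    (rowNX 3 0 false false false .npn 3 0 3 (qsf 0 1230186008 0 1230186008 0) ndN6q3 ndN5q3 pcN0 Cut.none Ext.none)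

def k0_mm_303 : ∃ t, chk3 f_mm_303 t 1 1 1 = true :=
  ⟨(a (b (l 3) (l 3)) (b (l 5) (l 3))), by decide +kernel⟩

theorem c_mm_303 : CertNX 0 1230186008 0 1230186008 1046898278 26843546 3 false false false .npn 3 0 3
    ndN6q3 ndN5q3 pcN0 Cut.none Ext.none :=
  certNX0 (fam := false) (s1 := false) (s2 := false) (a := 3) (b := 0) (c := 3) (cn := .npn) (n1 := ndN6q3) (n2 := ndN5q3) (pc := pcN0) (cut := Cut.none) (xt := Ext.none) (P1 := 0) (W1 := 1230186008) (P2 := 0) (W2 := 1230186008) (P3 := 1046898278) (W3 := 26843546) (N0 := 3)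
    rfl k0_mm_303

noncomputable def f_mm_313 : ℕ → ℕ → ℕ → ℕ → Bool := onCell 0 1230186008 0 1230186008 1046898278 26843546
    (rowNX 3 0 false false false .dn 3 1 3 (qsf 0 1230186008 0 1230186008 1) ndN6q3 ndN5q3 pcN1 Cut.none Ext.none)

def k0_mm_313 : ∃ t, chk3 f_mm_313 t 1 1 1 = true :=
  ⟨(a (l 1) (b (l 5) (l 1))), by decide +kernel⟩

theorem c_mm_313 : CertNX 0 1230186008 0 1230186008 1046898278 26843546 3 false false false .dn 3 1 3
    ndN6q3 ndN5q3 pcN1 Cut.none Ext.none :=
  certNX0 (fam := false) (s1 := false) (s2 := false) (a := 3) (b := 1) (c := 3) (cn := .dn) (n1 := ndN6q3) (n2 := ndN5q3) (pc := pcN1) (cut := Cut.none) (xt := Ext.none) (P1 := 0) (W1 := 1230186008) (P2 := 0) (W2 := 1230186008) (P3 := 1046898278) (W3 := 26843546) (N0 := 3)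
    rfl k0_mm_313

end Pool.Agent.Strip051.G.IE1.Tab.C.NB65

namespace Pool.Agent.Strip051.G.IE1.Tab.C.NB66

open Pool.Agent.Strip051.PB Pool.Agent.Strip051.PB.T
open Pool.Agent.Strip051.G.IE1.Tab

noncomputable def f_pp_001 : ℕ → ℕ → ℕ → ℕ → Bool := onCell 0 536870912 536870912 469762048 1046898278 26843546
    (rowNX 3 0 false true true .up 0 0 1 (qsf 0 536870912 536870912 469762048 0) ndN6q0 ndN6q1 pcN0 Cut.none Ext.none)

def k0_pp_001 : ∃ t, chk3 f_pp_001 t 1 1 1 = true :=
  ⟨(l 3), by decide +kernel⟩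

theorem c_pp_001 : CertNX 0 536870912 536870912 469762048 1046898278 26843546 3 false true true .up 0 0 1
    ndN6q0 ndN6q1 pcN0 Cut.none Ext.none :=
  certNX0 (fam := false) (s1 := true) (s2 := true) (a := 0) (b := 0) (c := 1) (cn := .up) (n1 := ndN6q0) (n2 := ndN6q1) (pc := pcN0) (cut := Cut.none) (xt := Ext.none) (P1 := 0) (W1 := 536870912) (P2 := 536870912) (W2 := 469762048) (P3 := 1046898278) (W3 := 26843546) (N0 := 3)
    rfl k0_pp_001

noncomputable def f_pp_011 : ℕ → ℕ → ℕ → ℕ → Bool := onCell 0 536870912 536870912 469762048 1046898278 26843546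
    (rowNX 3 0 false true true .pnn 0 1 1 (qsf 0 536870912 536870912 469762048 1) ndN6q0 ndN6q1 pcN1 Cut.none Ext.none)

def k0_pp_011 : ∃ t, chk3 f_pp_011 t 1 1 1 = true :=
  ⟨(l 3), by decide +kernel⟩

theorem c_pp_011 : CertNX 0 536870912 536870912 469762048 1046898278 26843546 3 false true true .pnn 0 1 1
    ndN6q0 ndN6q1 pcN1 Cut.none Ext.none :=
  certNX0 (fam := false) (s1 := true) (s2 := true) (a := 0) (b := 1) (c := 1) (cn := .pnn) (n1 := ndN6q0) (n2 := ndN6q1) (pc := pcN1) (cut := Cut.none) (xt := Ext.none) (P1 := 0) (W1 := 536870912) (P2 := 536870912) (W2 := 469762048) (P3 := 1046898278) (W3 := 26843546) (N0 := 3)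
    rfl k0_pp_011

noncomputable def f_pp_012 : ℕ → ℕ → ℕ → ℕ → Bool := onCell 536870912 536870912 1073741824 536870912 1046898278 26843546
    (rowNX 3 2 false true true .pnp 0 1 2 (qsf 0 536870912 1073741824 536870912 1) ndN6q0 ndN6q2 pcN1 Cut.none Ext.none)

def k0_pp_012 : ∃ t, chk3 f_pp_012 t 1 1 1 = true :=
  ⟨(a (l 3) (a (b (l 3) (a (l 714206298391) (b (l 3) (l 16756656)))) (b (b (l 3) (a (l 3) (b (l 3) (a (l 3) (a (b (l 3) (c (l 15524320) (l 15486152))) (b (c (l 15108736) (a (l 15035880) (l 15033696))) (c (l 15441824) (a (l 15404304) (l 15367744))))))))) (a (b (l 641190519527) (l 16295136)) (a (b (a (l 15876760) (l 15611992)) (a (l 15831704) (l 15623720))) (c (a (b (a (l 15562096) (l 15350368)) (a (l 15551520) (l 15481112))) (b (l 15420864) (l 15377936))) (a (l 15362480) (b (a (l 15390760) (c (l 15357808) (l 15331464))) (a (l 15362824) (c (l 15307224) (l 15281264))))))))))), by decide +kernel⟩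

theorem c_pp_012 : CertNX 0 536870912 1073741824 536870912 1046898278 26843546 3 false true true .pnp 0 1 2
    ndN6q0 ndN6q2 pcN1 Cut.none Ext.none :=
  certNX2 (fam := false) (s1 := true) (s2 := true) (a := 0) (b := 1) (c := 2) (cn := .pnp) (n1 := ndN6q0) (n2 := ndN6q2) (pc := pcN1) (cut := Cut.none) (xt := Ext.none) (P1 := 0) (W1 := 536870912) (P2 := 1073741824) (W2 := 536870912) (P3 := 1046898278) (W3 := 26843546) (N0 := 3)
    rfl (fun _ => rfl) k0_pp_012

noncomputable def f_pp_022 : ℕ → ℕ → ℕ → ℕ → Bool := onCell 0 536870912 1073741824 536870912 1046898278 26843546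
    (rowNX 3 1 false true true .pp 0 2 2 (qsf 0 536870912 1073741824 536870912 2) ndN6q0 ndN6q2 pcN2 Cut.none Ext.none)

def k0_pp_022 : ∃ t, chk3 f_pp_022 t 4 8 1 = true :=
  ⟨(b (a (l 3) (a (l 3) (b (l 3) (a (l 3) (b (l 3) (b (l 3) (b (l 3) (l 723864183991)))))))) (a (a (l 3) (b (l 3) (c (b (a (l 3) (l 690042523559)) (a (l 15092864) (l 351277026023))) (b (l 634744864887) (a (l 15016016) (l 14796120)))))) (a (b (b (l 3) (c (l 14508416) (l 14425440))) (b (a (c (l 14649632) (l 14573160)) (c (b (l 14512352) (l 14593576)) (l 14457288))) (a (c (l 14691296) (l 14617184)) (b (l 14480080) (l 14695256))))) (a (b (b (c (l 14254640) (l 14159456)) (b (l 14212328) (l 14509528))) (b (b (l 14672760) (l 14803768)) (l 14996688))) (b (c (b (l 14467952) (l 14821408)) (l 415700922375)) (b (l 15070456) (l 15329280))))))), by decide +kernel⟩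

def k1_pp_022 : ∃ t, chk3 f_pp_022 t 5 8 1 = true :=
  ⟨(b (b (a (a (l 3) (c (b (l 14613384) (c (l 14922528) (l 735676642199))) (b (c (l 14554280) (b (l 3) (c (l 14363192) (l 14571328)))) (c (b (c (l 14789840) (l 14765808)) (l 14916200)) (l 14795792))))) (c (a (b (a (l 15095496) (l 15382896)) (a (l 15212864) (l 15589656))) (b (l 15552720) (l 15609904))) (a (b (c (b (l 15126040) (l 15235392)) (b (c (l 15103688) (b (l 15052232) (l 15118168))) (a (l 14926320) (l 15374272)))) (c (a (b (l 15238288) (l 15382992)) (l 15530336)) (l 15362120))) (c (l 15343928) (l 15451320))))) (a (c (c (b (b (l 14638584) (a (l 14415456) (l 15281784))) (a (b (c (l 14760808) (l 14718168)) (l 14862576)) (l 15298696))) (b (a (b (c (l 14422112) (l 14389640)) (l 781846854327)) (b (c (l 15118928) (l 15089752)) (l 15232896))) (l 391005824023))) (a (l 14529000) (b (l 15094496) (l 15342760)))) (c (a (a (b (l 15387584) (l 15755480)) (l 15686544)) (l 15638664)) (a (l 15380288) (l 15544144))))) (b (a (a (b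 (c (l 14984776) (l 14970224)) (c (l 15134952) (l 15257368))) (a (b (l 15231088) (l 15727536)) (c (l 15687008) (l 15767824)))) (c (l 15488152) (l 15627464))) (a (a (b (a (l 15403384) (l 15701008)) (l 15785536)) (c (a (l 15762160) (l 15969776)) (a (l 15867296) (l 15939168)))) (c (c (l 15488200) (l 15668192)) (l 15644464))))), by decide +kernel⟩

def k2_pp_022 : ∃ t, chk3 f_pp_022 t 4 18 1 = true :=
  ⟨(b (a (a (a (a (b (l 3) (c (l 15561552) (c (a (l 15558272) (l 15539440)) (a (l 15469320) (l 15517488))))) (c (c (a (l 326582178359) (l 15456072)) (a (l 15394416) (l 15446016))) (c (b (l 15382296) (l 15470696)) (l 15386928)))) (c (b (a (c (l 15396904) (l 15365888)) (l 15289992)) (a (a (l 15450024) (l 15401280)) (l 15320936))) (b (l 15257168) (l 15290304)))) (c (b (a (l 15114928) (l 14910480)) (a (l 15162312) (l 14925528))) (b (a (l 15039496) (l 14840856)) (l 14980072)))) (a (a (b (l 14618520) (l 14915136)) (b (l 14922160) (l 15279312))) (b (l 15216272) (l 15762608)))) (a (a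 (a (c (a (b (l 15630136) (l 15654688)) (c (b (l 15531448) (l 15560912)) (b (l 15514832) (l 15544784)))) (a (c (a (l 15632408) (l 15520456)) (a (b (l 15595744) (l 15616872)) (l 15562296))) (c (l 15519136) (l 15487672)))) (c (a (b (l 15441664) (l 15478128)) (l 15364832)) (b (l 15334584) (l 15363360)))) (a (c (l 15213216) (l 15142192)) (c (b (l 15043080) (l 15272544)) (l 14981344)))) (a (a (c (l 15450160) (l 15403640)) (b (l 15649616) (l 16000520))) (l 16197312)))), by decide +kernel⟩

def k3_pp_022 : ∃ t, chk3 f_pp_022 t 4 19 1 = true :=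
  ⟨(a (a (b (a (c (a (l 15627104) (b (c (l 15609328) (l 15594008)) (l 15612624))) (a (c (b (l 15656168) (l 15658144)) (b (a (l 15654904) (l 15611792)) (l 15634776))) (b (l 15560864) (l 15571408)))) (c (b (l 15470880) (l 15514248)) (b (l 15426320) (l 15450000)))) (a (c (a (l 15695592) (a (l 15630632) (l 15593328))) (a (c (l 15660552) (a (l 15656568) (l 15620728))) (c (l 15582432) (l 15553040)))) (c (a (b (l 15561712) (l 15616904)) (l 15531368)) (b (l 15508872) (l 15625752))))) (b (b (a (c (l 15379464) (l 15314880)) (c (l 15599464) (l 15554808))) (a (c (l 15556424) (l 15498536)) (l 15866152))) (a (c (l 15774168) (l 15811680)) (l 16084136)))) (a (b (b (a (l 15966008) (l 16344048)) (l 16320008)) (a (l 16486376) (l 16533744))) (a (b (l 16565632) (l 16313296)) (b (l 16348736) (b (l 16287864) (c (l 16374336) (l 16384088))))))), by decide +kernel⟩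

def k4_pp_022 : ∃ t, chk3 f_pp_022 t 5 9 1 = true :=
  ⟨(b (b (b (a (a (l 16058416) (c (l 16116480) (l 16047224))) (c (l 15478824) (l 15684008))) (a (a (a (l 16278824) (c (l 16438880) (l 16412160))) (c (l 15985744) (l 16262320))) (c (a (l 15772856) (l 15740520)) (l 15731696)))) (a (a (a (l 16608472) (c (l 16604240) (c (l 16612848) (l 16598336)))) (c (c (l 16363016) (l 16228840)) (c (l 16374336) (l 16400896)))) (c (a (b (l 16016944) (c (l 16072216) (l 16085624))) (b (l 15604776) (l 15636224))) (l 15752968)))) (a (c (a (b (c (l 16240480) (a (l 16355008) (l 16484784))) (a (l 16466192) (c (l 16594296) (l 16486936)))) (b (b (c (l 16486608) (a (l 16614584) (l 16451208))) (c (l 16349216) (l 16436072))) (c (a (l 16315400) (l 16083656)) (l 16268688)))) (b (a (b (c (a (l 16375704) (l 16469768)) (a (l 16341616) (l 16442376))) (a (l 16369096) (l 16517760))) (b (c (l 16535232) (l 16524568)) (l 16526272))) (a (a (c (l 16396856) (l 16448688)) (l 16616464)) (l 16249544)))) (a (c (b (b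 (c (a (l 16144520) (l 15935368)) (l 16123256)) (c (l 16073512) (l 15913560))) (c (l 15809376) (l 15691752))) (l 15802072)) (c (l 15243136) (l 15362952))))), by decide +kernel⟩

def k5_pp_022 : ∃ t, chk3 f_pp_022 t 3 4 1 = true :=
  ⟨(a (b (b (c (b (a (b (l 15611264) (l 15643328)) (l 15754752)) (l 15636752)) (b (a (l 15587616) (l 15708680)) (l 15576312))) (b (a (c (l 15581800) (l 15503288)) (l 15451480)) (a (l 15434400) (c (l 15292224) (l 15238912))))) (b (a (c (b (l 15370824) (l 15260360)) (l 15021696)) (b (c (l 15114384) (l 15055048)) (a (l 14911128) (l 14861216)))) (a (b (a (l 15084800) (b (l 14911808) (l 14773312))) (a (l 14887320) (l 14606096))) (a (b (b (l 14765648) (l 14651960)) (l 14537432)) (l 14621016))))) (b (a (b (b (c (l 15771552) (l 15631592)) (a (l 15611704) (l 15564104))) (b (l 15238256) (l 15186080))) (l 15382424)) (l 14783136))), by decide +kernel⟩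

def k6_pp_022 : ∃ t, chk3 f_pp_022 t 4 10 1 = true :=
  ⟨(a (b (a (b (a (a (c (b (l 15665784) (l 15625800)) (b (c (l 15630320) (l 15585928)) (c (l 15589504) (l 15502592)))) (c (a (l 15647664) (l 15693840)) (c (l 15657424) (l 15629864)))) (c (a (l 15819392) (l 15979464)) (l 15848696))) (b (a (c (a (l 15693928) (l 15848368)) (a (c (l 15659736) (l 15637152)) (l 15816424))) (c (l 16088864) (l 16048336))) (a (c (b (a (l 15763368) (l 15917232)) (a (l 15788896) (b (l 15938272) (l 15954768)))) (a (b (c (l 15731264) (l 15710080)) (c (l 15757624) (b (l 15727672) (l 15741792)))) (b (l 15887960) (l 15836600)))) (b (c (l 16156456) (l 16118960)) (c (l 16007152) (l 16160224)))))) (b (a (l 16093984) (l 16462032)) (b (a (l 16356288) (l 16623168)) (b (l 16414200) (a (l 16475384) (l 16474832)))))) (a (a (a (c (l 16222552) (a (l 15943800) (l 16006808))) (c (l 16152752) (l 16288464))) (c (l 16352360) (l 16564120))) (a (l 16321456) (l 16231960)))) (a (b (b (l 16289176) (b (l 16374904) (b (l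 16368432) (b (l 16356008) (l 16349936))))) (a (l 16248728) (c (c (l 16330864) (l 16338424)) (l 16317760)))) (b (a (b (l 16326920) (b (c (l 16455968) (l 16468512)) (b (c (l 16492792) (l 16506360)) (c (l 16468576) (l 16478968))))) (b (c (l 16474208) (c (l 16479992) (l 16469312))) (b (c (l 16578080) (l 16569248)) (c (l 16441728) (l 16504824))))) (c (b (a (l 16463808) (l 16495208)) (l 16485248)) (b (l 16365560) (l 16429576)))))), by decide +kernel⟩

def k7_pp_022 : ∃ t, chk3 f_pp_022 t 4 11 1 = true :=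
  ⟨(a (b (a (a (c (a (l 16066896) (l 15972712)) (a (c (l 16060760) (l 16055592)) (l 15948248))) (c (l 15735720) (l 15900448))) (c (a (l 15929552) (l 15869424)) (l 15894808))) (a (a (c (l 15698304) (a (l 15654464) (l 15686688))) (l 15704976)) (c (l 15888880) (l 15870920)))) (b (a (c (b (l 16185520) (l 16084824)) (l 16111456)) (c (l 16274464) (l 16250992))) (a (l 16003832) (l 16104360)))), by decide +kernel⟩

def k8_pp_022 : ∃ t, chk3 f_pp_022 t 5 5 1 = true :=
  ⟨(b (b (b (a (c (a (a (l 16470920) (c (l 16297000) (l 16302656))) (c (c (l 15926488) (l 16031488)) (l 16026528))) (a (c (l 16408184) (l 16439264)) (l 15889928))) (c (l 15184968) (l 15129504))) (a (a (b (c (c (l 16073976) (l 16236616)) (l 16271384)) (c (a (l 16126368) (l 16069824)) (l 16246616))) (c (a (b (l 16043760) (l 16054104)) (l 15670160)) (l 15751320))) (c (b (l 15091624) (l 15197840)) (b (l 15032872) (l 15142216))))) (a (c (a (b (l 16217504) (l 16495760)) (l 15863960)) (b (l 16134376) (l 16287440))) (a (c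 (l 15710664) (l 15674000)) (b (l 15236600) (l 15648360))))) (b (a (c (a (l 16431032) (l 16566704)) (l 16552624)) (b (c (l 16155480) (l 16133512)) (l 16562736))) (a (l 16352904) (l 16722936)))), by decide +kernel⟩

def k9_pp_022 : ∃ t, chk3 f_pp_022 t 3 5 1 = true :=
  ⟨(b (a (b (a (b (c (l 14505024) (l 14466632)) (a (b (l 14548384) (l 14775128)) (l 14609800))) (l 14516608)) (b (a (a (l 15105632) (l 15127208)) (l 15142304)) (l 15624016))) (b (l 14556192) (l 2))) (b (l 16321864) (l 16776584))), by decide +kernel⟩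

def k10_pp_022 : ∃ t, chk3 f_pp_022 t 1 3 1 = true :=
  ⟨(a (a (a (b (a (c (a (b (l 15697808) (l 15697808)) (l 15759496)) (a (c (l 15448416) (l 15624536)) (l 15750376))) (c (l 15888656) (l 15870744))) (a (a (c (l 15697808) (l 15588256)) (l 15746792)) (l 15878288))) (b (a (b (l 16003560) (l 16003560)) (l 16104120)) (l 16079352))) (b (a (l 16352576) (l 16722696)) (b (l 16521384) (l 2)))) (b (b (a (l 16777216) (l 2)) (l 2)) (l 2))), by decide +kernel⟩

theorem s11_pp_022 : ∃ t, chk3 f_pp_022 t 4 5 1 = true := ex3_b k6_pp_022 k7_pp_022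

theorem s12_pp_022 : ∃ t, chk3 f_pp_022 t 2 5 1 = true := ex3_a s11_pp_022 k8_pp_022

theorem s13_pp_022 : ∃ t, chk3 f_pp_022 t 1 5 1 = true := ex3_a s12_pp_022 k9_pp_022

theorem s14_pp_022 : ∃ t, chk3 f_pp_022 t 4 9 1 = true := ex3_b k2_pp_022 k3_pp_022

theorem s15_pp_022 : ∃ t, chk3 f_pp_022 t 2 9 1 = true := ex3_a s14_pp_022 k4_pp_022

theorem s16_pp_022 : ∃ t, chk3 f_pp_022 t 2 8 1 = true := ex3_a k0_pp_022 k1_pp_022

theorem s17_pp_022 : ∃ t, chk3 f_pp_022 t 2 4 1 = true := ex3_b s16_pp_022 s15_pp_022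

theorem s18_pp_022 : ∃ t, chk3 f_pp_022 t 1 4 1 = true := ex3_a s17_pp_022 k5_pp_022

theorem s19_pp_022 : ∃ t, chk3 f_pp_022 t 1 2 1 = true := ex3_b s18_pp_022 s13_pp_022

theorem s20_pp_022 : ∃ t, chk3 f_pp_022 t 1 1 1 = true := ex3_b s19_pp_022 k10_pp_022

theorem c_pp_022 : CertNX 0 536870912 1073741824 536870912 1046898278 26843546 3 false true true .pp 0 2 2
    ndN6q0 ndN6q2 pcN2 Cut.none Ext.none :=
  certNX1 (fam := false) (s1 := true) (s2 := true) (a := 0) (b := 2) (c := 2) (cn := .pp) (n1 := ndN6q0) (n2 := ndN6q2) (pc := pcN2) (cut := Cut.none) (xt := Ext.none) (P1 := 0) (W1 := 536870912) (P2 := 1073741824) (W2 := 536870912) (P3 := 1046898278) (W3 := 26843546) (N0 := 3)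
    rfl (fun _ => rfl) s20_pp_022

noncomputable def f_pp_023 : ℕ → ℕ → ℕ → ℕ → Bool := onCell 1073741824 536870912 0 1230186008 1046898278 26843546
    (rowNX 3 2 false true true .up 0 2 3 (qsf 0 536870912 0 1230186008 2) ndN6q0 ndN6q3 pcN2 Cut.none Ext.none)

def k0_pp_023 : ∃ t, chk3 f_pp_023 t 1 1 1 = true :=
  ⟨(b (a (l 2) (a (l 2) (b (l 4) (l 16740592)))) (a (a (b (l 2) (a (b (l 2) (l 15275400)) (l 14540240))) (a (b (l 2) (a (a (l 14466072) (l 14686416)) (l 15422752))) (b (a (l 2) (l 16634224)) (a (l 16326464) (l 16776584))))) (b (a (a (l 16687840) (l 16773296)) (l 16777168)) (b (a (l 16775840) (l 16621320)) (a (b (l 16766528) (l 16590592)) (b (l 16404184) (a (b (l 16304488) (a (l 16192808) (l 16090496))) (b (l 15866976) (a (l 15948336) (a (l 15846064) (l 15767728))))))))))), by decide +kernel⟩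

theorem c_pp_023 : CertNX 0 536870912 0 1230186008 1046898278 26843546 3 false true true .up 0 2 3
    ndN6q0 ndN6q3 pcN2 Cut.none Ext.none :=
  certNX2 (fam := false) (s1 := true) (s2 := true) (a := 0) (b := 2) (c := 3) (cn := .up) (n1 := ndN6q0) (n2 := ndN6q3) (pc := pcN2) (cut := Cut.none) (xt := Ext.none) (P1 := 0) (W1 := 536870912) (P2 := 0) (W2 := 1230186008) (P3 := 1046898278) (W3 := 26843546) (N0 := 3)
    rfl (fun _ => rfl) k0_pp_023

noncomputable def f_pp_033 : ℕ → ℕ → ℕ → ℕ → Bool := onCell 0 536870912 0 1230186008 1046898278 26843546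
    (rowNX 3 0 false true true .pnn 0 3 3 (qsf 0 536870912 0 1230186008 3) ndN6q0 ndN6q3 pcN3 Cut.none Ext.none)

def k0_pp_033 : ∃ t, chk3 f_pp_033 t 1 1 1 = true :=
  ⟨(b (b (l 4) (a (l 4) (a (l 4) (b (l 4) (l 16755512))))) (b (b (a (a (l 4) (a (l 4) (l 16722640))) (a (l 16777152) (l 16777152))) (a (a (a (a (b (l 4) (c (l 15732384) (l 15709464))) (l 15878272)) (a (l 16003544) (l 16104104))) (a (l 16352560) (l 16722680))) (a (b (l 16777184) (l 16777216)) (l 1)))) (a (a (b (a (c (a (b (l 15732384) (l 15732384)) (l 15888656)) (b (l 15788672) (l 15788672))) (a (l 16003560) (l 16104120))) (a (a (c (l 15732384) (l 15709464)) (l 15878288)) (l 16079352))) (b (b (l 16521384) (l 16521384)) (l 16521384))) (l 1)))), by decide +kernel⟩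

theorem c_pp_033 : CertNX 0 536870912 0 1230186008 1046898278 26843546 3 false true true .pnn 0 3 3
    ndN6q0 ndN6q3 pcN3 Cut.none Ext.none :=
  certNX0 (fam := false) (s1 := true) (s2 := true) (a := 0) (b := 3) (c := 3) (cn := .pnn) (n1 := ndN6q0) (n2 := ndN6q3) (pc := pcN3) (cut := Cut.none) (xt := Ext.none) (P1 := 0) (W1 := 536870912) (P2 := 0) (W2 := 1230186008) (P3 := 1046898278) (W3 := 26843546) (N0 := 3)
    rfl k0_pp_033

noncomputable def f_pp_101 : ℕ → ℕ → ℕ → ℕ → Bool := onCell 536870912 469762048 536870912 469762048 1046898278 26843546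
    (rowNX 3 0 false true true .npn 1 0 1 (qsf 536870912 469762048 536870912 469762048 0) ndN6q1 ndN6q1 pcN0 Cut.none Ext.none)

def k0_pp_101 : ∃ t, chk3 f_pp_101 t 1 1 1 = true :=
  ⟨(l 3), by decide +kernel⟩

theorem c_pp_101 : CertNX 536870912 469762048 536870912 469762048 1046898278 26843546 3 false true true .npn 1 0 1
    ndN6q1 ndN6q1 pcN0 Cut.none Ext.none :=
  certNX0 (fam := false) (s1 := true) (s2 := true) (a := 1) (b := 0) (c := 1) (cn := .npn) (n1 := ndN6q1) (n2 := ndN6q1) (pc := pcN0) (cut := Cut.none) (xt := Ext.none) (P1 := 536870912) (W1 := 469762048) (P2 := 536870912) (W2 := 469762048) (P3 := 1046898278) (W3 := 26843546) (N0 := 3)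
    rfl k0_pp_101

noncomputable def f_pp_102 : ℕ → ℕ → ℕ → ℕ → Bool := onCell 536870912 469762048 0 536870912 1046898278 26843546
    (rowNX 3 1 false true true .npp 1 0 2 (qsf 536870912 469762048 1073741824 536870912 0) ndN6q1 ndN6q2 pcN0 Cut.none Ext.none)

def k0_pp_102 : ∃ t, chk3 f_pp_102 t 1 1 1 = true :=
  ⟨(l 3), by decide +kernel⟩

theorem c_pp_102 : CertNX 536870912 469762048 1073741824 536870912 1046898278 26843546 3 false true true .npp 1 0 2
    ndN6q1 ndN6q2 pcN0 Cut.none Ext.none :=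
  certNX1 (fam := false) (s1 := true) (s2 := true) (a := 1) (b := 0) (c := 2) (cn := .npp) (n1 := ndN6q1) (n2 := ndN6q2) (pc := pcN0) (cut := Cut.none) (xt := Ext.none) (P1 := 536870912) (W1 := 469762048) (P2 := 1073741824) (W2 := 536870912) (P3 := 1046898278) (W3 := 26843546) (N0 := 3)
    rfl (fun _ => rfl) k0_pp_102

noncomputable def f_pp_112 : ℕ → ℕ → ℕ → ℕ → Bool := onCell 536870912 536870912 1073741824 536870912 1046898278 26843546
    (rowNX 3 2 false true true .dn 1 1 2 (qsf 536870912 469762048 1073741824 536870912 1) ndN6q1 ndN6q2 pcN1 Cut.none Ext.none)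

def k0_pp_112 : ∃ t, chk3 f_pp_112 t 1 1 1 = true :=
  ⟨(a (l 3) (a (b (l 3) (a (l 757155972663) (b (l 3) (l 16756656)))) (b (l 1) (b (a (l 526702797543) (l 1)) (a (l 16295136) (a (a (l 15831704) (l 15623720)) (a (c (l 568576775511) (l 15469712)) (c (l 15377936) (a (l 15362824) (l 590588087431)))))))))), by decide +kernel⟩

theorem c_pp_112 : CertNX 536870912 469762048 1073741824 536870912 1046898278 26843546 3 false true true .dn 1 1 2
    ndN6q1 ndN6q2 pcN1 Cut.none Ext.none :=
  certNX2 (fam := false) (s1 := true) (s2 := true) (a := 1) (b := 1) (c := 2) (cn := .dn) (n1 := ndN6q1) (n2 := ndN6q2) (pc := pcN1) (cut := Cut.none) (xt := Ext.none) (P1 := 536870912) (W1 := 469762048) (P2 := 1073741824) (W2 := 536870912) (P3 := 1046898278) (W3 := 26843546) (N0 := 3)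
    rfl (fun _ => rfl) k0_pp_112

noncomputable def f_pp_113 : ℕ → ℕ → ℕ → ℕ → Bool := onCell 536870912 469762048 0 1230186008 1046898278 26843546
    (rowNX 3 0 false true true .nn 1 1 3 (qsf 536870912 469762048 0 1230186008 1) ndN6q1 ndN6q3 pcN1 Cut.none Ext.none)

def k0_pp_113 : ∃ t, chk3 f_pp_113 t 1 2 1 = true :=
  ⟨(a (l 2) (b (l 2) (a (l 2) (a (l 2) (b (a (l 2) (c (l 13234848) (l 11058840))) (a (b (l 2) (l 11902856)) (b (c (l 12565976) (l 11319600)) (c (l 12582064) (l 11754976))))))))), by decide +kernel⟩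

def k1_pp_113 : ∃ t, chk3 f_pp_113 t 1 6 1 = true :=
  ⟨(a (l 2) (a (b (b (l 2) (a (l 2) (a (l 2) (l 13280296)))) (a (b (l 2) (l 14706016)) (b (l 14126488) (l 14727696)))) (b (b (a (a (l 2) (l 12222680)) (a (a (l 12228456) (l 12246096)) (l 12441240))) (a (l 12701576) (a (l 12563936) (l 12760336)))) (a (b (l 13153232) (l 13613976)) (a (b (l 12942256) (a (l 13356328) (l 13308488))) (b (c (l 13237648) (l 13019176)) (c (l 13474968) (l 13316416)))))))), by decide +kernel⟩

def k2_pp_113 : ∃ t, chk3 f_pp_113 t 1 7 1 = true :=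
  ⟨(a (b (a (l 2) (b (a (l 2) (l 14698656)) (a (l 14767880) (l 15420632)))) (a (b (a (l 2) (l 14701472)) (a (b (l 14908328) (a (b (l 15074048) (a (l 15214352) (b (l 15307008) (c (l 15288160) (l 15387680))))) (b (a (l 15296048) (b (l 15391696) (b (l 15469704) (l 15519992)))) (a (c (l 15517976) (l 15474216)) (l 15375352))))) (a (b (b (l 15256384) (a (l 15385864) (b (l 15484224) (l 15586040)))) (b (a (c (l 15605560) (l 15564720)) (l 15726680)) (l 15848552))) (b (b (a (l 15483392) (l 15633712)) (a (l 15574776) (l 15826616))) (l 16055592))))) (b (a (b (l 15338184) (b (l 15623840) (a (a (l 15588192) (l 15739520)) (l 15964704)))) (b (a (l 15803336) (l 16110512)) (a (l 16169416) (l 16459832)))) (a (b (a (l 15846304) (l 16256432)) (a (l 16364424) (l 16614600))) (b (a (l 16536432) (l 16704424)) (l 16756136)))))) (b (a (b (a (l 15378784) (l 15324760)) (a (b (l 15877864) (a (l 16061448) (l 16365768))) (b (a (l 16079680) (l 15347344)) (a (l 16097320) (l 15480856))))) (a (b (a (l 14229040)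 (b (l 13751584) (l 13852384))) (a (l 14474144) (l 13916048))) (a (b (a (l 13585496) (l 13473816)) (a (l 13656608) (l 13521744))) (b (c (b (l 13559704) (l 13587496)) (l 13430080)) (c (l 13592992) (l 13454256)))))) (b (a (a (b (a (l 16403064) (l 16618456)) (l 16696936)) (a (l 16477568) (l 15545264))) (a (a (l 14528808) (l 13939560)) (c (a (l 178402152711) (l 214372394295)) (a (l 13536064) (l 13454256))))) (a (a (b (l 16765624) (l 16776704)) (b (l 875265531015) (l 3))) (l 3))))), by decide +kernel⟩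

theorem s3_pp_113 : ∃ t, chk3 f_pp_113 t 1 3 1 = true := ex3_b k1_pp_113 k2_pp_113

theorem s4_pp_113 : ∃ t, chk3 f_pp_113 t 1 1 1 = true := ex3_b k0_pp_113 s3_pp_113

theorem c_pp_113 : CertNX 536870912 469762048 0 1230186008 1046898278 26843546 3 false true true .nn 1 1 3
    ndN6q1 ndN6q3 pcN1 Cut.none Ext.none :=
  certNX0 (fam := false) (s1 := true) (s2 := true) (a := 1) (b := 1) (c := 3) (cn := .nn) (n1 := ndN6q1) (n2 := ndN6q3) (pc := pcN1) (cut := Cut.none) (xt := Ext.none) (P1 := 536870912) (W1 := 469762048) (P2 := 0) (W2 := 1230186008) (P3 := 1046898278) (W3 := 26843546) (N0 := 3)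
    rfl s4_pp_113

noncomputable def f_pp_123 : ℕ → ℕ → ℕ → ℕ → Bool := onCell 1073741824 536870912 0 1230186008 1046898278 26843546
    (rowNX 3 2 false true true .npn 1 2 3 (qsf 536870912 469762048 0 1230186008 2) ndN6q1 ndN6q3 pcN2 Cut.none Ext.none)

def k0_pp_123 : ∃ t, chk3 f_pp_123 t 1 1 1 = true :=
  ⟨(a (b (a (b (a (a (l 2) (c (b (c (l 16520472) (l 16418208)) (a (l 15532800) (l 15747768))) (b (l 16276448) (l 15295864)))) (a (a (c (b (l 16561800) (l 15969208)) (l 15927960)) (b (l 16667752) (l 16075416))) (b (l 16725072) (b (l 16401960) (l 16003232))))) (a (b (c (a (b (l 14072504) (l 13443016)) (b (l 14830656) (l 14378704))) (a (b (l 12904376) (l 12467792)) (l 14176768))) (a (c (b (a (l 12747440) (l 13315568)) (l 12900176)) (b (l 12269072) (l 12253056))) (b (c (l 14060736) (l 13674344)) (l 13749800)))) (b (a (b (a (l 15192944) (l 15420288)) (l 14899944)) (l 15265520)) (a (l 14507488) (l 14586928))))) (b (b (l 4) (a (a (l 16321176) (l 16092384)) (a (l 15677824) (l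 15795256)))) (a (b (a (l 15290720) (l 15433864)) (a (l 14673728) (l 15296048))) (b (l 15831536) (l 16074256))))) (b (a (b (a (b (a (l 12854200) (l 14028520)) (a (l 13549184) (l 14522376))) (b (a (l 14642392) (l 14578032)) (l 14771888))) (a (b (l 14627528) (l 14908928)) (l 14809032))) (a (a (a (l 14533880) (l 14758856)) (l 15435504)) (a (l 16236360) (l 16634224)))) (a (a (b (l 15062432) (l 15275400)) (l 226051734439)) (a (a (a (l 14466072) (l 14686416)) (l 15422752)) (a (l 16326464) (l 16776584)))))) (b (b (l 4) (a (a (l 16451184) (l 16731264)) (l 16740592))) (b (a (a (l 16687840) (l 16773296)) (l 16777168)) (l 1)))), by decide +kernel⟩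

theorem c_pp_123 : CertNX 536870912 469762048 0 1230186008 1046898278 26843546 3 false true true .npn 1 2 3
    ndN6q1 ndN6q3 pcN2 Cut.none Ext.none :=
  certNX2 (fam := false) (s1 := true) (s2 := true) (a := 1) (b := 2) (c := 3) (cn := .npn) (n1 := ndN6q1) (n2 := ndN6q3) (pc := pcN2) (cut := Cut.none) (xt := Ext.none) (P1 := 536870912) (W1 := 469762048) (P2 := 0) (W2 := 1230186008) (P3 := 1046898278) (W3 := 26843546) (N0 := 3)
    rfl (fun _ => rfl) k0_pp_123

noncomputable def f_pp_133 : ℕ → ℕ → ℕ → ℕ → Bool := onCell 1610612736 536870912 0 1230186008 1046898278 26843546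
    (rowNX 3 2 false true true .dn 1 3 3 (qsf 536870912 469762048 0 1230186008 3) ndN6q1 ndN6q3 pcN3 Cut.none Ext.none)

def k0_pp_133 : ∃ t, chk3 f_pp_133 t 1 1 1 = true :=
  ⟨(b (b (l 4) (l 1)) (l 1)), by decide +kernel⟩

theorem c_pp_133 : CertNX 536870912 469762048 0 1230186008 1046898278 26843546 3 false true true .dn 1 3 3
    ndN6q1 ndN6q3 pcN3 Cut.none Ext.none :=
  certNX2 (fam := false) (s1 := true) (s2 := true) (a := 1) (b := 3) (c := 3) (cn := .dn) (n1 := ndN6q1) (n2 := ndN6q3) (pc := pcN3) (cut := Cut.none) (xt := Ext.none) (P1 := 536870912) (W1 := 469762048) (P2 := 0) (W2 := 1230186008) (P3 := 1046898278) (W3 := 26843546) (N0 := 3)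
    rfl (fun _ => rfl) k0_pp_133

noncomputable def f_pp_202 : ℕ → ℕ → ℕ → ℕ → Bool := onCell 1073741824 536870912 1073741824 536870912 1046898278 26843546
    (rowNX 3 0 false true true .pp 2 0 2 (qsf 1073741824 536870912 1073741824 536870912 0) ndN6q2 ndN6q2 pcN0 Cut.none Ext.none)

def k0_pp_202 : ∃ t, chk3 f_pp_202 t 1 1 1 = true :=
  ⟨(l 3), by decide +kernel⟩

theorem c_pp_202 : CertNX 1073741824 536870912 1073741824 536870912 1046898278 26843546 3 false true true .pp 2 0 2
    ndN6q2 ndN6q2 pcN0 Cut.none Ext.none :=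
  certNX0 (fam := false) (s1 := true) (s2 := true) (a := 2) (b := 0) (c := 2) (cn := .pp) (n1 := ndN6q2) (n2 := ndN6q2) (pc := pcN0) (cut := Cut.none) (xt := Ext.none) (P1 := 1073741824) (W1 := 536870912) (P2 := 1073741824) (W2 := 536870912) (P3 := 1046898278) (W3 := 26843546) (N0 := 3)
    rfl k0_pp_202

noncomputable def f_pp_203 : ℕ → ℕ → ℕ → ℕ → Bool := onCell 0 536870912 0 1230186008 1046898278 26843546
    (rowNX 3 2 false true true .up 2 0 3 (qsf 1073741824 536870912 0 1230186008 0) ndN6q2 ndN6q3 pcN0 Cut.none Ext.none)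

def k0_pp_203 : ∃ t, chk3 f_pp_203 t 1 1 1 = true :=
  ⟨(b (a (l 2) (l 3)) (l 3)), by decide +kernel⟩

theorem c_pp_203 : CertNX 1073741824 536870912 0 1230186008 1046898278 26843546 3 false true true .up 2 0 3
    ndN6q2 ndN6q3 pcN0 Cut.none Ext.none :=
  certNX2 (fam := false) (s1 := true) (s2 := true) (a := 2) (b := 0) (c := 3) (cn := .up) (n1 := ndN6q2) (n2 := ndN6q3) (pc := pcN0) (cut := Cut.none) (xt := Ext.none) (P1 := 1073741824) (W1 := 536870912) (P2 := 0) (W2 := 1230186008) (P3 := 1046898278) (W3 := 26843546) (N0 := 3)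
    rfl (fun _ => rfl) k0_pp_203

noncomputable def f_pp_213 : ℕ → ℕ → ℕ → ℕ → Bool := onCell 1073741824 536870912 0 1230186008 1046898278 26843546
    (rowNX 3 0 false true true .pnn 2 1 3 (qsf 1073741824 536870912 0 1230186008 1) ndN6q2 ndN6q3 pcN1 Cut.none Ext.none)

def k0_pp_213 : ∃ t, chk3 f_pp_213 t 1 1 1 = true :=
  ⟨(b (a (a (b (a (b (l 15508080) (a (l 15287752) (l 15484440))) (b (a (l 15930288) (l 15369880)) (a (l 15464768) (l 15044984)))) (b (a (a (b (l 14889920) (l 14334448)) (b (l 15024304) (l 14809656))) (a (b (l 15129424) (b (l 15000072) (l 14934728))) (b (a (l 14902776) (l 14739912)) (l 14744424)))) (a (b (a (b (l 14268080) (l 14287920)) (b (l 14725456) (l 14715904))) (a (b (l 14348928) (l 14433096)) (b (l 14730856) (l 14751088)))) (b (a (a (l 14887824) (l 14894376)) (l 14711272)) (a (l 14901464) (l 14727560)))))) (b (a (a (b (l 14997984) (a (l 14723832) (l 14887112))) (b (l 15660248) (l 15451336))) (b (a (l 16365328) (l 16721392)) (a (l 16058184) (l 16702320))))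 (a (b (a (b (l 14709288) (l 14665048)) (b (l 15476992) (l 15461120))) (b (a (a (l 14543808) (l 14759432)) (l 15459712)) (l 3))) (b (a (b (l 16320968) (l 16317816)) (l 16727592)) (l 3))))) (b (b (a (a (l 16721712) (l 16721712)) (a (l 120426594711) (l 314237330807))) (a (a (l 16702872) (l 16702872)) (a (l 306184222887) (l 3)))) (b (a (a (c (l 16732104) (l 16721576)) (l 3)) (l 3)) (l 3)))) (b (a (a (b (a (b (a (b (a (l 14419528) (l 14594544)) (l 14548144)) (l 14756064)) (l 3)) (l 3)) (l 3)) (l 3)) (l 3)) (l 3))), by decide +kernel⟩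

theorem c_pp_213 : CertNX 1073741824 536870912 0 1230186008 1046898278 26843546 3 false true true .pnn 2 1 3
    ndN6q2 ndN6q3 pcN1 Cut.none Ext.none :=
  certNX0 (fam := false) (s1 := true) (s2 := true) (a := 2) (b := 1) (c := 3) (cn := .pnn) (n1 := ndN6q2) (n2 := ndN6q3) (pc := pcN1) (cut := Cut.none) (xt := Ext.none) (P1 := 1073741824) (W1 := 536870912) (P2 := 0) (W2 := 1230186008) (P3 := 1046898278) (W3 := 26843546) (N0 := 3)
    rfl k0_pp_213

noncomputable def f_pp_303 : ℕ → ℕ → ℕ → ℕ → Bool := onCell 0 1230186008 0 1230186008 1046898278 26843546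
    (rowNX 3 0 false true true .npn 3 0 3 (qsf 0 1230186008 0 1230186008 0) ndN6q3 ndN6q3 pcN0 Cut.none Ext.none)

def k0_pp_303 : ∃ t, chk3 f_pp_303 t 1 1 1 = true :=
  ⟨(a (b (l 3) (a (l 1) (l 3))) (b (b (l 3) (l 3)) (l 3))), by decide +kernel⟩

theorem c_pp_303 : CertNX 0 1230186008 0 1230186008 1046898278 26843546 3 false true true .npn 3 0 3
    ndN6q3 ndN6q3 pcN0 Cut.none Ext.none :=
  certNX0 (fam := false) (s1 := true) (s2 := true) (a := 3) (b := 0) (c := 3) (cn := .npn) (n1 := ndN6q3) (n2 := ndN6q3) (pc := pcN0) (cut := Cut.none) (xt := Ext.none) (P1 := 0) (W1 := 1230186008) (P2 := 0) (W2 := 1230186008) (P3 := 1046898278) (W3 := 26843546) (N0 := 3)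
    rfl k0_pp_303

noncomputable def f_pp_313 : ℕ → ℕ → ℕ → ℕ → Bool := onCell 0 1230186008 0 1230186008 1046898278 26843546
    (rowNX 3 0 false true true .dn 3 1 3 (qsf 0 1230186008 0 1230186008 1) ndN6q3 ndN6q3 pcN1 Cut.none Ext.none)

def k0_pp_313 : ∃ t, chk3 f_pp_313 t 1 1 1 = true :=
  ⟨(a (l 1) (b (b (l 3) (l 1)) (l 1))), by decide +kernel⟩

theorem c_pp_313 : CertNX 0 1230186008 0 1230186008 1046898278 26843546 3 false true true .dn 3 1 3
    ndN6q3 ndN6q3 pcN1 Cut.none Ext.none :=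
  certNX0 (fam := false) (s1 := true) (s2 := true) (a := 3) (b := 1) (c := 3) (cn := .dn) (n1 := ndN6q3) (n2 := ndN6q3) (pc := pcN1) (cut := Cut.none) (xt := Ext.none) (P1 := 0) (W1 := 1230186008) (P2 := 0) (W2 := 1230186008) (P3 := 1046898278) (W3 := 26843546) (N0 := 3)
    rfl k0_pp_313

noncomputable def f_pm_001 : ℕ → ℕ → ℕ → ℕ → Bool := onCell 0 536870912 536870912 469762048 1046898278 26843546
    (rowNX 3 0 false true false .up 0 0 1 (qsf 0 536870912 536870912 469762048 0) ndN6q0 ndN6q1 pcN0 Cut.none Ext.none)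

def k0_pm_001 : ∃ t, chk3 f_pm_001 t 1 1 1 = true :=
  ⟨(l 4), by decide +kernel⟩

theorem c_pm_001 : CertNX 0 536870912 536870912 469762048 1046898278 26843546 3 false true false .up 0 0 1
    ndN6q0 ndN6q1 pcN0 Cut.none Ext.none :=
  certNX0 (fam := false) (s1 := true) (s2 := false) (a := 0) (b := 0) (c := 1) (cn := .up) (n1 := ndN6q0) (n2 := ndN6q1) (pc := pcN0) (cut := Cut.none) (xt := Ext.none) (P1 := 0) (W1 := 536870912) (P2 := 536870912) (W2 := 469762048) (P3 := 1046898278) (W3 := 26843546) (N0 := 3)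
    rfl k0_pm_001

noncomputable def f_pm_011 : ℕ → ℕ → ℕ → ℕ → Bool := onCell 0 536870912 536870912 469762048 1046898278 26843546
    (rowNX 3 0 false true false .pnn 0 1 1 (qsf 0 536870912 536870912 469762048 1) ndN6q0 ndN6q1 pcN1 Cut.none Ext.none)

def k0_pm_011 : ∃ t, chk3 f_pm_011 t 1 1 1 = true :=
  ⟨(l 4), by decide +kernel⟩

theorem c_pm_011 : CertNX 0 536870912 536870912 469762048 1046898278 26843546 3 false true false .pnn 0 1 1
    ndN6q0 ndN6q1 pcN1 Cut.none Ext.none :=
  certNX0 (fam := false) (s1 := true) (s2 := false) (a := 0) (b := 1) (c := 1) (cn := .pnn) (n1 := ndN6q0) (n2 := ndN6q1) (pc := pcN1) (cut := Cut.none) (xt := Ext.none) (P1 := 0) (W1 := 536870912) (P2 := 536870912) (W2 := 469762048) (P3 := 1046898278) (W3 := 26843546) (N0 := 3)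
    rfl k0_pm_011

noncomputable def f_pm_012 : ℕ → ℕ → ℕ → ℕ → Bool := onCell 0 536870912 1073741824 536870912 1046898278 26843546
    (rowNX 3 0 false true false .pnp 0 1 2 (qsf 0 536870912 1073741824 536870912 1) ndN6q0 ndN6q2 pcN1 Cut.none Ext.none)

def k0_pm_012 : ∃ t, chk3 f_pm_012 t 1 1 1 = true :=
  ⟨(l 4), by decide +kernel⟩

theorem c_pm_012 : CertNX 0 536870912 1073741824 536870912 1046898278 26843546 3 false true false .pnp 0 1 2
    ndN6q0 ndN6q2 pcN1 Cut.none Ext.none :=
  certNX0 (fam := false) (s1 := true) (s2 := false) (a := 0) (b := 1) (c := 2) (cn := .pnp) (n1 := ndN6q0) (n2 := ndN6q2) (pc := pcN1) (cut := Cut.none) (xt := Ext.none) (P1 := 0) (W1 := 536870912) (P2 := 1073741824) (W2 := 536870912) (P3 := 1046898278) (W3 := 26843546) (N0 := 3)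
    rfl k0_pm_012

noncomputable def f_pm_022 : ℕ → ℕ → ℕ → ℕ → Bool := onCell 0 536870912 1073741824 536870912 1046898278 26843546
    (rowNX 3 0 false true false .pp 0 2 2 (qsf 0 536870912 1073741824 536870912 2) ndN6q0 ndN6q2 pcN2 Cut.none Ext.none)

def k0_pm_022 : ∃ t, chk3 f_pm_022 t 1 1 1 = true :=
  ⟨(l 4), by decide +kernel⟩

theorem c_pm_022 : CertNX 0 536870912 1073741824 536870912 1046898278 26843546 3 false true false .pp 0 2 2
    ndN6q0 ndN6q2 pcN2 Cut.none Ext.none :=
  certNX0 (fam := false) (s1 := true) (s2 := false) (a := 0) (b := 2) (c := 2) (cn := .pp) (n1 := ndN6q0) (n2 := ndN6q2) (pc := pcN2) (cut := Cut.none) (xt := Ext.none) (P1 := 0) (W1 := 536870912) (P2 := 1073741824) (W2 := 536870912) (P3 := 1046898278) (W3 := 26843546) (N0 := 3)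
    rfl k0_pm_022

noncomputable def f_pm_023 : ℕ → ℕ → ℕ → ℕ → Bool := onCell 0 536870912 0 1230186008 1046898278 26843546
    (rowNX 3 0 false true false .up 0 2 3 (qsf 0 536870912 0 1230186008 2) ndN6q0 ndN6q3 pcN2 Cut.none Ext.none)

def k0_pm_023 : ∃ t, chk3 f_pm_023 t 1 1 1 = true :=
  ⟨(b (l 4) (l 4)), by decide +kernel⟩

theorem c_pm_023 : CertNX 0 536870912 0 1230186008 1046898278 26843546 3 false true false .up 0 2 3
    ndN6q0 ndN6q3 pcN2 Cut.none Ext.none :=
  certNX0 (fam := false) (s1 := true) (s2 := false) (a := 0) (b := 2) (c := 3) (cn := .up) (n1 := ndN6q0) (n2 := ndN6q3) (pc := pcN2) (cut := Cut.none) (xt := Ext.none) (P1 := 0) (W1 := 536870912) (P2 := 0) (W2 := 1230186008) (P3 := 1046898278) (W3 := 26843546) (N0 := 3)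
    rfl k0_pm_023

noncomputable def f_pm_033 : ℕ → ℕ → ℕ → ℕ → Bool := onCell 0 536870912 0 1230186008 1046898278 26843546
    (rowNX 3 0 false true false .pnn 0 3 3 (qsf 0 536870912 0 1230186008 3) ndN6q0 ndN6q3 pcN3 Cut.none Ext.none)

def k0_pm_033 : ∃ t, chk3 f_pm_033 t 1 1 1 = true :=
  ⟨(b (l 4) (l 4)), by decide +kernel⟩

theorem c_pm_033 : CertNX 0 536870912 0 1230186008 1046898278 26843546 3 false true false .pnn 0 3 3
    ndN6q0 ndN6q3 pcN3 Cut.none Ext.none :=
  certNX0 (fam := false) (s1 := true) (s2 := false) (a := 0) (b := 3) (c := 3) (cn := .pnn) (n1 := ndN6q0) (n2 := ndN6q3) (pc := pcN3) (cut := Cut.none) (xt := Ext.none) (P1 := 0) (W1 := 536870912) (P2 := 0) (W2 := 1230186008) (P3 := 1046898278) (W3 := 26843546) (N0 := 3)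
    rfl k0_pm_033

noncomputable def f_pm_101 : ℕ → ℕ → ℕ → ℕ → Bool := onCell 536870912 469762048 536870912 469762048 1046898278 26843546
    (rowNX 3 0 false true false .npn 1 0 1 (qsf 536870912 469762048 536870912 469762048 0) ndN6q1 ndN6q1 pcN0 Cut.none Ext.none)

def k0_pm_101 : ∃ t, chk3 f_pm_101 t 1 1 1 = true :=
  ⟨(l 4), by decide +kernel⟩

theorem c_pm_101 : CertNX 536870912 469762048 536870912 469762048 1046898278 26843546 3 false true false .npn 1 0 1
    ndN6q1 ndN6q1 pcN0 Cut.none Ext.none :=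
  certNX0 (fam := false) (s1 := true) (s2 := false) (a := 1) (b := 0) (c := 1) (cn := .npn) (n1 := ndN6q1) (n2 := ndN6q1) (pc := pcN0) (cut := Cut.none) (xt := Ext.none) (P1 := 536870912) (W1 := 469762048) (P2 := 536870912) (W2 := 469762048) (P3 := 1046898278) (W3 := 26843546) (N0 := 3)
    rfl k0_pm_101

noncomputable def f_pm_102 : ℕ → ℕ → ℕ → ℕ → Bool := onCell 536870912 469762048 1073741824 536870912 1046898278 26843546
    (rowNX 3 0 false true false .npp 1 0 2 (qsf 536870912 469762048 1073741824 536870912 0) ndN6q1 ndN6q2 pcN0 Cut.none Ext.none)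

def k0_pm_102 : ∃ t, chk3 f_pm_102 t 1 1 1 = true :=
  ⟨(l 4), by decide +kernel⟩

theorem c_pm_102 : CertNX 536870912 469762048 1073741824 536870912 1046898278 26843546 3 false true false .npp 1 0 2
    ndN6q1 ndN6q2 pcN0 Cut.none Ext.none :=
  certNX0 (fam := false) (s1 := true) (s2 := false) (a := 1) (b := 0) (c := 2) (cn := .npp) (n1 := ndN6q1) (n2 := ndN6q2) (pc := pcN0) (cut := Cut.none) (xt := Ext.none) (P1 := 536870912) (W1 := 469762048) (P2 := 1073741824) (W2 := 536870912) (P3 := 1046898278) (W3 := 26843546) (N0 := 3)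
    rfl k0_pm_102

noncomputable def f_pm_112 : ℕ → ℕ → ℕ → ℕ → Bool := onCell 536870912 469762048 1073741824 536870912 1046898278 26843546
    (rowNX 3 0 false true false .dn 1 1 2 (qsf 536870912 469762048 1073741824 536870912 1) ndN6q1 ndN6q2 pcN1 Cut.none Ext.none)

def k0_pm_112 : ∃ t, chk3 f_pm_112 t 1 1 1 = true :=
  ⟨(l 4), by decide +kernel⟩

theorem c_pm_112 : CertNX 536870912 469762048 1073741824 536870912 1046898278 26843546 3 false true false .dn 1 1 2
    ndN6q1 ndN6q2 pcN1 Cut.none Ext.none :=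
  certNX0 (fam := false) (s1 := true) (s2 := false) (a := 1) (b := 1) (c := 2) (cn := .dn) (n1 := ndN6q1) (n2 := ndN6q2) (pc := pcN1) (cut := Cut.none) (xt := Ext.none) (P1 := 536870912) (W1 := 469762048) (P2 := 1073741824) (W2 := 536870912) (P3 := 1046898278) (W3 := 26843546) (N0 := 3)
    rfl k0_pm_112

noncomputable def f_pm_113 : ℕ → ℕ → ℕ → ℕ → Bool := onCell 536870912 469762048 0 1230186008 1046898278 26843546
    (rowNX 3 0 false true false .nn 1 1 3 (qsf 536870912 469762048 0 1230186008 1) ndN6q1 ndN6q3 pcN1 Cut.none Ext.none)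

def k0_pm_113 : ∃ t, chk3 f_pm_113 t 1 1 1 = true :=
  ⟨(b (b (l 2) (l 4)) (l 4)), by decide +kernel⟩

theorem c_pm_113 : CertNX 536870912 469762048 0 1230186008 1046898278 26843546 3 false true false .nn 1 1 3
    ndN6q1 ndN6q3 pcN1 Cut.none Ext.none :=
  certNX0 (fam := false) (s1 := true) (s2 := false) (a := 1) (b := 1) (c := 3) (cn := .nn) (n1 := ndN6q1) (n2 := ndN6q3) (pc := pcN1) (cut := Cut.none) (xt := Ext.none) (P1 := 536870912) (W1 := 469762048) (P2 := 0) (W2 := 1230186008) (P3 := 1046898278) (W3 := 26843546) (N0 := 3)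
    rfl k0_pm_113

noncomputable def f_pm_123 : ℕ → ℕ → ℕ → ℕ → Bool := onCell 536870912 469762048 0 1230186008 1046898278 26843546
    (rowNX 3 0 false true false .npn 1 2 3 (qsf 536870912 469762048 0 1230186008 2) ndN6q1 ndN6q3 pcN2 Cut.none Ext.none)

def k0_pm_123 : ∃ t, chk3 f_pm_123 t 1 1 1 = true :=
  ⟨(b (b (l 4) (l 4)) (l 4)), by decide +kernel⟩

theorem c_pm_123 : CertNX 536870912 469762048 0 1230186008 1046898278 26843546 3 false true false .npn 1 2 3
    ndN6q1 ndN6q3 pcN2 Cut.none Ext.none :=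
  certNX0 (fam := false) (s1 := true) (s2 := false) (a := 1) (b := 2) (c := 3) (cn := .npn) (n1 := ndN6q1) (n2 := ndN6q3) (pc := pcN2) (cut := Cut.none) (xt := Ext.none) (P1 := 536870912) (W1 := 469762048) (P2 := 0) (W2 := 1230186008) (P3 := 1046898278) (W3 := 26843546) (N0 := 3)
    rfl k0_pm_123

noncomputable def f_pm_133 : ℕ → ℕ → ℕ → ℕ → Bool := onCell 1610612736 536870912 0 1230186008 1046898278 26843546
    (rowNX 3 2 false true false .dn 1 3 3 (qsf 536870912 469762048 0 1230186008 3) ndN6q1 ndN6q3 pcN3 Cut.none Ext.none)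

def k0_pm_133 : ∃ t, chk3 f_pm_133 t 1 1 1 = true :=
  ⟨(b (l 4) (l 1)), by decide +kernel⟩

theorem c_pm_133 : CertNX 536870912 469762048 0 1230186008 1046898278 26843546 3 false true false .dn 1 3 3
    ndN6q1 ndN6q3 pcN3 Cut.none Ext.none :=
  certNX2 (fam := false) (s1 := true) (s2 := false) (a := 1) (b := 3) (c := 3) (cn := .dn) (n1 := ndN6q1) (n2 := ndN6q3) (pc := pcN3) (cut := Cut.none) (xt := Ext.none) (P1 := 536870912) (W1 := 469762048) (P2 := 0) (W2 := 1230186008) (P3 := 1046898278) (W3 := 26843546) (N0 := 3)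
    rfl (fun _ => rfl) k0_pm_133

noncomputable def f_pm_202 : ℕ → ℕ → ℕ → ℕ → Bool := onCell 0 536870912 1073741824 536870912 1046898278 26843546
    (rowNX 3 2 false true false .pp 2 0 2 (qsf 1073741824 536870912 1073741824 536870912 0) ndN6q2 ndN6q2 pcN0 Cut.none Ext.none)

def k0_pm_202 : ∃ t, chk3 f_pm_202 t 1 1 1 = true :=
  ⟨(a (b (l 4) (b (l 4) (b (l 4) (a (a (a (a (c (l 16752088) (l 16751488)) (l 16765296)) (l 16773336)) (l 4)) (l 4))))) (l 4)), by decide +kernel⟩

theorem c_pm_202 : CertNX 1073741824 536870912 1073741824 536870912 1046898278 26843546 3 false true false .pp 2 0 2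
    ndN6q2 ndN6q2 pcN0 Cut.none Ext.none :=
  certNX2 (fam := false) (s1 := true) (s2 := false) (a := 2) (b := 0) (c := 2) (cn := .pp) (n1 := ndN6q2) (n2 := ndN6q2) (pc := pcN0) (cut := Cut.none) (xt := Ext.none) (P1 := 1073741824) (W1 := 536870912) (P2 := 1073741824) (W2 := 536870912) (P3 := 1046898278) (W3 := 26843546) (N0 := 3)
    rfl (fun _ => rfl) k0_pm_202

noncomputable def f_pm_203 : ℕ → ℕ → ℕ → ℕ → Bool := onCell 0 536870912 0 1230186008 1046898278 26843546
    (rowNX 3 2 false true false .up 2 0 3 (qsf 1073741824 536870912 0 1230186008 0) ndN6q2 ndN6q3 pcN0 Cut.none Ext.none)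

def k0_pm_203 : ∃ t, chk3 f_pm_203 t 1 1 1 = true :=
  ⟨(a (b (l 2) (a (b (l 2) (b (l 2) (a (a (b (l 2) (c (l 16484576) (l 16478160))) (l 16407000)) (a (l 16507992) (l 16440664))))) (b (a (l 2) (a (l 2) (l 16777072))) (a (b (l 514421868503) (l 16564896)) (l 16800304))))) (a (b (l 2) (b (l 502074966423) (b (l 16777216) (b (l 16738016) (l 4))))) (b (b (a (l 2) (b (l 385641162103) (l 16702872))) (c (l 579921431319) (l 640587833159))) (b (l 16777168) (b (a (l 16731440) (b (l 16660280) (l 15553448))) (l 4)))))), by decide +kernel⟩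

theorem c_pm_203 : CertNX 1073741824 536870912 0 1230186008 1046898278 26843546 3 false true false .up 2 0 3
    ndN6q2 ndN6q3 pcN0 Cut.none Ext.none :=
  certNX2 (fam := false) (s1 := true) (s2 := false) (a := 2) (b := 0) (c := 3) (cn := .up) (n1 := ndN6q2) (n2 := ndN6q3) (pc := pcN0) (cut := Cut.none) (xt := Ext.none) (P1 := 1073741824) (W1 := 536870912) (P2 := 0) (W2 := 1230186008) (P3 := 1046898278) (W3 := 26843546) (N0 := 3)
    rfl (fun _ => rfl) k0_pm_203

noncomputable def f_pm_213 : ℕ → ℕ → ℕ → ℕ → Bool := onCell 1073741824 536870912 0 1230186008 1046898278 26843546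
    (rowNX 3 0 false true false .pnn 2 1 3 (qsf 1073741824 536870912 0 1230186008 1) ndN6q2 ndN6q3 pcN1 Cut.none Ext.none)

def k0_pm_213 : ∃ t, chk3 f_pm_213 t 1 2 1 = true :=
  ⟨(a (a (b (a (b (a (l 16137240) (l 16233864)) (a (l 15449888) (l 15847936))) (b (a (l 15949560) (l 15365928)) (a (l 15854424) (l 15315104)))) (a (b (a (l 15039160) (l 15081560)) (b (l 14325816) (a (b (l 13603648) (b (l 13615832) (b (l 13650152) (c (c (l 13828520) (l 13483000)) (a (c (l 13087880) (l 12873216)) (l 13728984)))))) (l 14539096)))) (b (a (l 15356184) (l 15069040)) (b (l 14965232) (l 14845920))))) (b (a (b (a (l 14973544) (l 15613936)) (a (l 14966288) (l 15603232))) (b (l 16541800) (l 16521016))) (b (a (a (l 14866432) (l 15564008)) (l 16542568)) (a (a (l 14717512) (l 15505528)) (l 16585264))))) (b (a (b (a (l 16721712) (l 16721712)) (l 16702872)) (c (b (l 244443816327) (l 16707792)) (a (l 16691120) (l 16858896)))) (a (l 16761560) (b (l 16728152) (l 16755512))))), by decide +kernel⟩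

def k1_pm_213 : ∃ t, chk3 f_pm_213 t 1 3 1 = true :=
  ⟨(b (a (a (b (a (b (b (a (b (b (a (b (c (l 13305464) (l 12893712)) (c (l 13019648) (l 12489528))) (c (l 14036824) (l 13768392))) (a (a (l 12364128) (l 12988024)) (c (l 13717784) (l 13374792)))) (l 13013928)) (b (a (a (a (b (c (l 14315264) (l 14104600)) (b (l 14105624) (l 13894000))) (b (c (l 14405376) (l 14211512)) (l 14249520))) (c (l 14519904) (l 14349120))) (l 14632400)) (a (l 14113168) (l 14517032)))) (a (a (b (l 12533944) (l 12590728)) (b (l 13338888) (l 13370864))) (b (l 14274824) (l 14285952)))) (a (b (a (l 12807008) (l 13500552)) (a (l 12993368) (l 13525168))) (b (a (l 14090592) (l 14570968)) (a (l 14006856) (l 14430416))))) (b (a (b (a (l 14793816) (l 14898344)) (a (l 14808288) (l 14902144))) (b (l 14733448) (l 14732648))) (a (b (a (l 14850336) (l 14903848)) (l 14810728)) (b (l 14732672) (l 14720648))))) (a (b (a (l 4) (b (a (l 13960616) (l 14293264)) (l 4))) (l 4)) (b (a (l 14760920) (l 14675328)) (l 24389498743))))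 (b (a (b (l 15092696) (a (l 14678336) (l 15487680))) (l 16568008)) (a (b (b (l 15090784) (l 15089024)) (l 15091016)) (l 16567936)))) (b (l 16777152) (a (l 16777200) (l 1)))) (a (a (l 4) (b (a (l 15050704) (l 16567944)) (l 4))) (l 1))), by decide +kernel⟩

theorem s2_pm_213 : ∃ t, chk3 f_pm_213 t 1 1 1 = true := ex3_b k0_pm_213 k1_pm_213

theorem c_pm_213 : CertNX 1073741824 536870912 0 1230186008 1046898278 26843546 3 false true false .pnn 2 1 3
    ndN6q2 ndN6q3 pcN1 Cut.none Ext.none :=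
  certNX0 (fam := false) (s1 := true) (s2 := false) (a := 2) (b := 1) (c := 3) (cn := .pnn) (n1 := ndN6q2) (n2 := ndN6q3) (pc := pcN1) (cut := Cut.none) (xt := Ext.none) (P1 := 1073741824) (W1 := 536870912) (P2 := 0) (W2 := 1230186008) (P3 := 1046898278) (W3 := 26843546) (N0 := 3)
    rfl s2_pm_213

noncomputable def f_pm_303 : ℕ → ℕ → ℕ → ℕ → Bool := onCell 0 1230186008 0 1230186008 1046898278 26843546
    (rowNX 3 0 false true false .npn 3 0 3 (qsf 0 1230186008 0 1230186008 0) ndN6q3 ndN6q3 pcN0 Cut.none Ext.none)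

def k0_pm_303 : ∃ t, chk3 f_pm_303 t 2 1 1 = true :=
  ⟨(b (l 3) (b (b (l 3) (l 1)) (l 1))), by decide +kernel⟩

def k1_pm_303 : ∃ t, chk3 f_pm_303 t 3 2 1 = true :=
  ⟨(a (b (l 3) (a (l 3) (b (l 3) (a (l 3) (b (l 3) (a (b (l 3) (l 397986326839)) (l 15808464))))))) (b (a (l 3) (a (b (l 3) (l 397989012199)) (b (l 389399272903) (c (l 16707792) (l 16694888))))) (b (a (a (l 3) (c (l 16732104) (l 16721576))) (a (l 231022306439) (b (l 16738240) (l 16738680)))) (a (a (b (a (l 463486337303) (b (l 420000198631) (l 272360612327))) (a (b (l 16305960) (l 16210272)) (b (l 16615464) (l 16548144)))) (b (a (l 16743624) (l 16742256)) (a (a (l 16738048) (l 16768496)) (l 16771008)))) (a (b (l 16742256) (l 16771008)) (l 16755512)))))), by decide +kernel⟩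

def k2_pm_303 : ∃ t, chk3 f_pm_303 t 12 6 1 = true :=
  ⟨(b (b (l 3) (a (l 3) (b (l 3) (a (l 3) (c (b (l 410869128903) (b (l 14022584) (l 1121550795415))) (a (b (l 3) (a (l 1) (l 325505241639))) (c (b (b (b (l 3) (l 14035216)) (l 14031880)) (b (a (l 13965352) (l 14002960)) (l 13941288))) (b (c (a (b (l 3) (l 13970608)) (b (c (l 14059568) (l 14053040)) (c (l 14025136) (l 14008568)))) (a (a (l 3) (a (l 3) (l 13809416))) (l 14007264))) (b (b (c (l 386172202519) (a (c (l 13925144) (l 13744480)) (c (l 13971424) (l 13958840)))) (a (l 13805312) (l 13841032))) (c (l 13914960) (l 13902808))))))))))) (b (a (l 1) (b (a (l 1) (a (l 1) (a (l 1) (c (l 13846952) (l 13858856))))) (l 1))) (l 1))), by decide +kernel⟩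

def k3_pm_303 : ∃ t, chk3 f_pm_303 t 26 24 1 = true :=
  ⟨(a (l 3) (b (l 3) (a (b (l 3) (c (a (b (l 3) (l 14572064)) (l 14645584)) (l 14537528))) (b (l 422144136631) (c (l 14834504) (l 14766216)))))), by decide +kernel⟩

def k4_pm_303 : ∃ t, chk3 f_pm_303 t 52 25 1 = true :=
  ⟨(b (a (b (l 3) (c (c (l 14304536) (c (l 14293912) (a (l 14235440) (b (l 14318064) (l 14267192))))) (c (c (a (b (l 3) (c (l 14203448) (l 14199488))) (l 299737220695)) (l 14213168)) (l 14177824)))) (c (c (b (c (l 420533472167) (a (l 410333039559) (b (l 14526776) (l 14500096)))) (l 14407056)) (b (c (a (l 391005573639) (l 14458520)) (l 14408152)) (c (a (b (l 14391392) (l 14340368)) (b (l 14434736) (l 14405072))) (a (b (l 14355848) (l 14326776)) (l 14384600))))) (l 14334088))) (c (c (b (l 14280760) (b (l 14186608) (l 14269456))) (a (b (l 14182816) (b (l 14121744) (l 14132304))) (b (c (l 14326248) (a (l 14276184) (b (l 14352432) (l 14300816)))) (l 14246136)))) (c (a (b (c (a (l 14137192) (b (c (l 14213976)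 (l 14207576)) (l 14177392))) (a (b (c (l 14138360) (l 14129920)) (c (l 14104160) (l 14087104))) (b (l 14184880) (l 14145888)))) (a (b (l 14041840) (l 14012104)) (b (l 14129560) (l 14113128)))) (b (a (a (c (l 14235416) (l 14214032)) (l 14254232)) (l 14294656)) (l 14200040))) (b (a (b (l 14133608) (b (l 14102152) (l 14077000))) (l 14218456)) (a (a (b (c (l 14030048) (l 14004096)) (l 14015536)) (l 14072888)) (l 14158560)))))), by decide +kernel⟩

def k5_pm_303 : ∃ t, chk3 f_pm_303 t 53 25 1 = true :=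
  ⟨(b (c (a (c (b (b (a (a (l 14561000) (l 14581480)) (l 14597848)) (c (c (l 14609576) (l 14589560)) (l 14558704))) (b (a (c (l 14543552) (l 14513200)) (l 14582296)) (l 14508616))) (b (l 14521216) (b (l 14478056) (l 14474392)))) (b (a (a (c (l 14627120) (l 14581736)) (l 14646248)) (l 14734632)) (b (a (l 14611240) (l 14683160)) (c (l 14641776) (l 14584000))))) (a (l 14418936) (b (l 14611640) (l 14566056)))) (c (b (b (c (a (l 14483936) (a (l 14583440) (l 14644544))) (a (a (l 14419968) (l 14476688)) (l 14558312))) (a (l 14430040) (l 14551744))) (c (l 14451208) (b (l 14437816) (l 14422368)))) (b (l 14406400) (l 14365952)))), by decide +kernel⟩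

def k6_pm_303 : ∃ t, chk3 f_pm_303 t 27 12 1 = true :=
  ⟨(b (a (b (c (l 383490478679) (l 402280868407)) (b (a (c (l 15259408) (l 15206064)) (c (l 15517344) (l 15473072))) (a (c (l 15131096) (l 15073232)) (l 15402144)))) (a (b (l 15735856) (b (l 15793032) (l 15972464))) (b (l 15896152) (l 16211960)))) (b (b (a (a (l 15106288) (l 15661136)) (a (c (l 16240864) (l 16222016)) (c (l 16538256) (l 16529856)))) (a (a (b (l 14968568) (a (c (l 14753272) (l 14680176)) (l 14949528))) (b (l 15447768) (l 15345864))) (a (c (l 15984632) (l 15956752)) (l 16333352)))) (b (a (a (b (l 14721768) (l 14654056)) (l 15019928)) (a (l 15447328) (l 15876888))) (a (c (a (b (l 14662240) (l 14654528)) (b (a (l 14773072) (l 14907400)) (l 14799688))) (a (l 14556808) (l 14745856))) (b (l 15371128) (a (l 15035616) (l 15402088))))))), by decide +kernel⟩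

def k7_pm_303 : ∃ t, chk3 f_pm_303 t 13 26 1 = true :=
  ⟨(b (a (a (b (c (a (l 14077792) (a (b (l 14201144) (l 14168928)) (c (l 14272000) (l 14233192)))) (c (a (l 14049584) (b (l 14194272) (l 14188328))) (a (b (l 14038800) (l 13934864)) (l 14159784)))) (c (l 14094872) (a (l 13965120) (b (a (l 14136080) (c (l 14216216) (l 14182368))) (a (l 14087472) (l 14191040)))))) (c (b (a (c (a (l 14323424) (l 14356048)) (l 14311160)) (l 14427920)) (a (b (l 14345856) (l 14340904)) (c (l 14458104) (l 14424104)))) (a (b (l 14258560) (b (l 14277248) (c (l 14296912) (l 14268312)))) (l 14409352)))) (a (c (b (l 14652128) (l 14616568)) (l 14611384)) (c (b (a (b (l 14951016) (l 14898920)) (l 15233856)) (a (l 14844944) (l 15055072))) (b (l 15045424) (l 14898832))))) (b (a (a (c (l 14015272) (l 13981096)) (c (a (l 14298664) (b (c (l 14467240) (l 14433752)) (a (l 14419440) (l 14489472)))) (c (a (b (l 14284984) (l 14257048)) (b (l 14410968) (l 14405560))) (a (b (a (l 14228432) (l 14292280)) (l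 1110813894839)) (b (l 14382376) (l 14378184)))))) (a (c (a (b (l 14534624) (l 14555072)) (l 14640072)) (l 14577560)) (c (a (l 14808104) (l 14951048)) (l 14830848)))) (a (a (l 1) (b (a (l 14213496) (c (l 14423632) (b (a (l 14363016) (l 14431616)) (l 14379216)))) (l 14289288))) (b (a (b (c (a (l 14555640) (l 14631968)) (l 14561304)) (l 14574192)) (l 14820864)) (a (c (l 14603808) (l 14555464)) (l 14753736)))))), by decide +kernel⟩

def k8_pm_303 : ∃ t, chk3 f_pm_303 t 13 27 1 = true :=
  ⟨(a (b (l 1198323535319) (l 1)) (b (c (a (b (l 14582904) (l 14533808)) (b (l 14832640) (a (l 14764672) (l 14874272)))) (a (b (a (l 14477608) (l 14601400)) (a (l 14415664) (l 14588280))) (b (l 14787904) (a (l 14710384) (l 14797752))))) (a (l 14427440) (b (a (c (l 14733152) (l 14699056)) (c (l 14870976) (l 14819328))) (a (l 14646840) (c (l 14841936) (b (l 14819920) (l 14806040)))))))), by decide +kernel⟩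

def k9_pm_303 : ∃ t, chk3 f_pm_303 t 6 7 1 = true :=
  ⟨(a (l 1) (b (a (l 1) (b (b (a (l 1) (l 14661672)) (l 1)) (l 1))) (l 1))), by decide +kernel⟩

def k10_pm_303 : ∃ t, chk3 f_pm_303 t 7 6 1 = true :=
  ⟨(a (b (a (b (a (b (a (l 16120192) (l 16357008)) (l 16455424)) (b (l 16603200) (l 16762736))) (a (b (l 16535752) (b (a (l 16131016) (l 16237896)) (a (l 15836744) (l 16061456)))) (b (l 16668880) (l 16337616)))) (b (a (b (l 16769736) (l 16773520)) (b (l 16776656) (l 16776888))) (b (l 16718920) (a (l 16510872) (l 16630568))))) (b (a (a (b (b (a (l 15562880) (l 15900496)) (l 15492000)) (b (a (c (l 15151448) (l 15117992)) (l 15427384)) (l 15146776))) (b (b (l 16153232) (a (l 15936368) (l 16086680))) (b (a (l 15734136) (l 15965808)) (l 15666088)))) (a (b (l 16342136) (l 15975912)) (l 16435384))) (a (b (a (c (l 15047872) (l 15015328)) (l 15441144)) (a (c (b (l 15042640) (a (l 14977224) (l 15083928))) (b (l 15002032) (a (l 14928200) (l 15012752)))) (b (l 15266504) (l 15238608))))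 (a (b (l 15868424) (l 15629256)) (l 16010832))))) (b (a (b (l 16777160) (a (b (l 16773504) (l 16736448)) (l 16777128))) (l 16777152)) (a (b (a (l 16576072) (b (l 16756240) (l 16685832))) (l 16386328)) (b (l 16774840) (l 16701104))))), by decide +kernel⟩

def k11_pm_303 : ∃ t, chk3 f_pm_303 t 14 7 1 = true :=
  ⟨(b (a (b (b (a (b (a (c (l 14950792) (b (l 14930080) (l 14917616))) (c (l 15083392) (l 15036992))) (a (l 14874848) (c (l 15059720) (b (l 15040240) (l 15029280))))) (b (c (l 15251104) (l 15214664)) (a (c (l 15188672) (l 15153064)) (l 15257608)))) (a (l 14894880) (b (a (c (l 15168984) (b (l 15151680) (l 15140832))) (c (l 15294664) (l 15261536))) (a (l 15114152) (c (l 15278480) (b (l 15261752) (l 15252640))))))) (b (a (l 1) (l 15134296)) (l 1))) (b (a (b (a (l 15388408) (l 15524728)) (b (c (l 15446208) (l 15425896)) (a (c (l 15400504) (b (l 15370808) (l 15372088))) (l 15467632)))) (b (a (l 15699288) (l 15856384)) (a (l 15588856) (l 15720896)))) (b (a (b (a (c (l 15387936)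 (b (l 15371760) (l 15364488))) (c (l 15506144) (b (l 15478080) (l 15480616)))) (a (l 15344176) (c (l 15497336) (b (a (l 15455680) (l 15509888)) (l 15476360))))) (b (c (l 15651192) (l 15634768)) (a (c (l 15611560) (b (l 15585080) (l 15588944))) (l 15676672)))) (a (l 15380472) (b (a (c (l 15612888) (b (a (l 15566240) (l 15618712)) (l 15590768))) (c (b (l 15716560) (l 15718576)) (b (l 15693360) (l 15694368)))) (l 15644672)))))) (a (l 1) (b (b (l 15502312) (l 1)) (l 1)))), by decide +kernel⟩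

def k12_pm_303 : ∃ t, chk3 f_pm_303 t 15 7 1 = true :=
  ⟨(b (a (b (a (b (l 16053312) (a (l 15858560) (l 15967408))) (l 16176848)) (b (a (b (l 15858088) (l 15844784)) (a (l 16002832) (l 16062096))) (a (b (c (l 15848328) (l 15835432)) (a (l 15806832) (l 15884384))) (l 16027352)))) (b (l 16489872) (b (l 16299104) (a (l 16201232) (l 16340376))))) (b (a (b (a (b (a (l 15817840) (l 15912744)) (a (l 15806976) (l 15927496))) (b (l 16050128) (a (l 16018328) (l 16090552)))) (a (l 15865328) (b (a (l 16037016) (l 16123560)) (a (l 16039560) (l 16146368))))) (a (b (l 16217048) (b (l 16247384) (a (l 16228408) (l 16294992)))) (b (l 16354520) (l 16401776)))) (a (b (a (l 1) (l 16112952)) (l 1)) (b (a (b (a (l 16255536) (c (l 16340128) (l 16330640))) (a (l 16272840) (c (l 16367760) (l 16360888)))) (a (c (l 16425744) (l 16418408)) (l 16488304))) (a (l 16362360) (b (a (c (l 16475624) (l 16470528)) (c (l 16544336) (l 16539320))) (a (l 16506672) (c (l 16583184) (l 16579896))))))))), by decide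 +kernel⟩

theorem s13_pm_303 : ∃ t, chk3 f_pm_303 t 7 7 1 = true := ex3_a k11_pm_303 k12_pm_303

theorem s14_pm_303 : ∃ t, chk3 f_pm_303 t 7 3 1 = true := ex3_b k10_pm_303 s13_pm_303

theorem s15_pm_303 : ∃ t, chk3 f_pm_303 t 13 13 1 = true := ex3_b k7_pm_303 k8_pm_303

theorem s16_pm_303 : ∃ t, chk3 f_pm_303 t 26 25 1 = true := ex3_a k4_pm_303 k5_pm_303

theorem s17_pm_303 : ∃ t, chk3 f_pm_303 t 26 12 1 = true := ex3_b k3_pm_303 s16_pm_303

theorem s18_pm_303 : ∃ t, chk3 f_pm_303 t 13 12 1 = true := ex3_a s17_pm_303 k6_pm_303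

theorem s19_pm_303 : ∃ t, chk3 f_pm_303 t 13 6 1 = true := ex3_b s18_pm_303 s15_pm_303

theorem s20_pm_303 : ∃ t, chk3 f_pm_303 t 6 6 1 = true := ex3_a k2_pm_303 s19_pm_303

theorem s21_pm_303 : ∃ t, chk3 f_pm_303 t 6 3 1 = true := ex3_b s20_pm_303 k9_pm_303

theorem s22_pm_303 : ∃ t, chk3 f_pm_303 t 3 3 1 = true := ex3_a s21_pm_303 s14_pm_303

theorem s23_pm_303 : ∃ t, chk3 f_pm_303 t 3 1 1 = true := ex3_b k1_pm_303 s22_pm_303

theorem s24_pm_303 : ∃ t, chk3 f_pm_303 t 1 1 1 = true := ex3_a k0_pm_303 s23_pm_303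

theorem c_pm_303 : CertNX 0 1230186008 0 1230186008 1046898278 26843546 3 false true false .npn 3 0 3
    ndN6q3 ndN6q3 pcN0 Cut.none Ext.none :=
  certNX0 (fam := false) (s1 := true) (s2 := false) (a := 3) (b := 0) (c := 3) (cn := .npn) (n1 := ndN6q3) (n2 := ndN6q3) (pc := pcN0) (cut := Cut.none) (xt := Ext.none) (P1 := 0) (W1 := 1230186008) (P2 := 0) (W2 := 1230186008) (P3 := 1046898278) (W3 := 26843546) (N0 := 3)
    rfl s24_pm_303

noncomputable def f_pm_313 : ℕ → ℕ → ℕ → ℕ → Bool := onCell 0 1230186008 0 1230186008 1046898278 26843546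
    (rowNX 3 0 false true false .dn 3 1 3 (qsf 0 1230186008 0 1230186008 1) ndN6q3 ndN6q3 pcN1 Cut.none Ext.none)

def k0_pm_313 : ∃ t, chk3 f_pm_313 t 1 1 1 = true :=
  ⟨(a (l 1) (b (a (l 1) (b (a (l 1) (a (l 1) (b (l 378124790343) (l 1)))) (l 1))) (l 1))), by decide +kernel⟩

theorem c_pm_313 : CertNX 0 1230186008 0 1230186008 1046898278 26843546 3 false true false .dn 3 1 3
    ndN6q3 ndN6q3 pcN1 Cut.none Ext.none :=
  certNX0 (fam := false) (s1 := true) (s2 := false) (a := 3) (b := 1) (c := 3) (cn := .dn) (n1 := ndN6q3) (n2 := ndN6q3) (pc := pcN1) (cut := Cut.none) (xt := Ext.none) (P1 := 0) (W1 := 1230186008) (P2 := 0) (W2 := 1230186008) (P3 := 1046898278) (W3 := 26843546) (N0 := 3)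
    rfl k0_pm_313

noncomputable def f_mm_001 : ℕ → ℕ → ℕ → ℕ → Bool := onCell 0 536870912 536870912 469762048 1046898278 26843546
    (rowNX 3 0 false false false .up 0 0 1 (qsf 0 536870912 536870912 469762048 0) ndN6q0 ndN6q1 pcN0 Cut.none Ext.none)

def k0_mm_001 : ∃ t, chk3 f_mm_001 t 1 1 1 = true :=
  ⟨(l 3), by decide +kernel⟩

theorem c_mm_001 : CertNX 0 536870912 536870912 469762048 1046898278 26843546 3 false false false .up 0 0 1
    ndN6q0 ndN6q1 pcN0 Cut.none Ext.none :=
  certNX0 (fam := false) (s1 := false) (s2 := false) (a := 0) (b := 0) (c := 1) (cn := .up) (n1 := ndN6q0) (n2 := ndN6q1) (pc := pcN0) (cut := Cut.none) (xt := Ext.none) (P1 := 0) (W1 := 536870912) (P2 := 536870912) (W2 := 469762048) (P3 := 1046898278) (W3 := 26843546) (N0 := 3)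
    rfl k0_mm_001

noncomputable def f_mm_011 : ℕ → ℕ → ℕ → ℕ → Bool := onCell 0 536870912 536870912 469762048 1046898278 26843546
    (rowNX 3 0 false false false .pnn 0 1 1 (qsf 0 536870912 536870912 469762048 1) ndN6q0 ndN6q1 pcN1 Cut.none Ext.none)

def k0_mm_011 : ∃ t, chk3 f_mm_011 t 1 1 1 = true :=
  ⟨(l 3), by decide +kernel⟩

theorem c_mm_011 : CertNX 0 536870912 536870912 469762048 1046898278 26843546 3 false false false .pnn 0 1 1
    ndN6q0 ndN6q1 pcN1 Cut.none Ext.none :=
  certNX0 (fam := false) (s1 := false) (s2 := false) (a := 0) (b := 1) (c := 1) (cn := .pnn) (n1 := ndN6q0) (n2 := ndN6q1) (pc := pcN1) (cut := Cut.none) (xt := Ext.none) (P1 := 0) (W1 := 536870912) (P2 := 536870912) (W2 := 469762048) (P3 := 1046898278) (W3 := 26843546) (N0 := 3)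
    rfl k0_mm_011

noncomputable def f_mm_012 : ℕ → ℕ → ℕ → ℕ → Bool := onCell 0 536870912 1073741824 536870912 1046898278 26843546
    (rowNX 3 0 false false false .pnp 0 1 2 (qsf 0 536870912 1073741824 536870912 1) ndN6q0 ndN6q2 pcN1 Cut.none Ext.none)

def k0_mm_012 : ∃ t, chk3 f_mm_012 t 1 1 1 = true :=
  ⟨(l 5), by decide +kernel⟩

theorem c_mm_012 : CertNX 0 536870912 1073741824 536870912 1046898278 26843546 3 false false false .pnp 0 1 2
    ndN6q0 ndN6q2 pcN1 Cut.none Ext.none :=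
  certNX0 (fam := false) (s1 := false) (s2 := false) (a := 0) (b := 1) (c := 2) (cn := .pnp) (n1 := ndN6q0) (n2 := ndN6q2) (pc := pcN1) (cut := Cut.none) (xt := Ext.none) (P1 := 0) (W1 := 536870912) (P2 := 1073741824) (W2 := 536870912) (P3 := 1046898278) (W3 := 26843546) (N0 := 3)
    rfl k0_mm_012

noncomputable def f_mm_022 : ℕ → ℕ → ℕ → ℕ → Bool := onCell 0 536870912 1073741824 536870912 1046898278 26843546
    (rowNX 3 0 false false false .pp 0 2 2 (qsf 0 536870912 1073741824 536870912 2) ndN6q0 ndN6q2 pcN2 Cut.none Ext.none)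

def k0_mm_022 : ∃ t, chk3 f_mm_022 t 1 1 1 = true :=
  ⟨(l 5), by decide +kernel⟩

theorem c_mm_022 : CertNX 0 536870912 1073741824 536870912 1046898278 26843546 3 false false false .pp 0 2 2
    ndN6q0 ndN6q2 pcN2 Cut.none Ext.none :=
  certNX0 (fam := false) (s1 := false) (s2 := false) (a := 0) (b := 2) (c := 2) (cn := .pp) (n1 := ndN6q0) (n2 := ndN6q2) (pc := pcN2) (cut := Cut.none) (xt := Ext.none) (P1 := 0) (W1 := 536870912) (P2 := 1073741824) (W2 := 536870912) (P3 := 1046898278) (W3 := 26843546) (N0 := 3)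
    rfl k0_mm_022

noncomputable def f_mm_023 : ℕ → ℕ → ℕ → ℕ → Bool := onCell 0 536870912 0 1230186008 1046898278 26843546
    (rowNX 3 0 false false false .up 0 2 3 (qsf 0 536870912 0 1230186008 2) ndN6q0 ndN6q3 pcN2 Cut.none Ext.none)

def k0_mm_023 : ∃ t, chk3 f_mm_023 t 1 1 1 = true :=
  ⟨(l 5), by decide +kernel⟩

theorem c_mm_023 : CertNX 0 536870912 0 1230186008 1046898278 26843546 3 false false false .up 0 2 3
    ndN6q0 ndN6q3 pcN2 Cut.none Ext.none :=
  certNX0 (fam := false) (s1 := false) (s2 := false) (a := 0) (b := 2) (c := 3) (cn := .up) (n1 := ndN6q0) (n2 := ndN6q3) (pc := pcN2) (cut := Cut.none) (xt := Ext.none) (P1 := 0) (W1 := 536870912) (P2 := 0) (W2 := 1230186008) (P3 := 1046898278) (W3 := 26843546) (N0 := 3)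
    rfl k0_mm_023

noncomputable def f_mm_033 : ℕ → ℕ → ℕ → ℕ → Bool := onCell 0 536870912 0 1230186008 1046898278 26843546
    (rowNX 3 0 false false false .pnn 0 3 3 (qsf 0 536870912 0 1230186008 3) ndN6q0 ndN6q3 pcN3 Cut.none Ext.none)

def k0_mm_033 : ∃ t, chk3 f_mm_033 t 1 1 1 = true :=
  ⟨(l 5), by decide +kernel⟩

theorem c_mm_033 : CertNX 0 536870912 0 1230186008 1046898278 26843546 3 false false false .pnn 0 3 3
    ndN6q0 ndN6q3 pcN3 Cut.none Ext.none :=
  certNX0 (fam := false) (s1 := false) (s2 := false) (a := 0) (b := 3) (c := 3) (cn := .pnn) (n1 := ndN6q0) (n2 := ndN6q3) (pc := pcN3) (cut := Cut.none) (xt := Ext.none) (P1 := 0) (W1 := 536870912) (P2 := 0) (W2 := 1230186008) (P3 := 1046898278) (W3 := 26843546) (N0 := 3)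
    rfl k0_mm_033

noncomputable def f_mm_101 : ℕ → ℕ → ℕ → ℕ → Bool := onCell 536870912 469762048 536870912 469762048 1046898278 26843546
    (rowNX 3 0 false false false .npn 1 0 1 (qsf 536870912 469762048 536870912 469762048 0) ndN6q1 ndN6q1 pcN0 Cut.none Ext.none)

def k0_mm_101 : ∃ t, chk3 f_mm_101 t 1 1 1 = true :=
  ⟨(l 3), by decide +kernel⟩

theorem c_mm_101 : CertNX 536870912 469762048 536870912 469762048 1046898278 26843546 3 false false false .npn 1 0 1
    ndN6q1 ndN6q1 pcN0 Cut.none Ext.none :=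
  certNX0 (fam := false) (s1 := false) (s2 := false) (a := 1) (b := 0) (c := 1) (cn := .npn) (n1 := ndN6q1) (n2 := ndN6q1) (pc := pcN0) (cut := Cut.none) (xt := Ext.none) (P1 := 536870912) (W1 := 469762048) (P2 := 536870912) (W2 := 469762048) (P3 := 1046898278) (W3 := 26843546) (N0 := 3)
    rfl k0_mm_101

noncomputable def f_mm_102 : ℕ → ℕ → ℕ → ℕ → Bool := onCell 536870912 469762048 1073741824 536870912 1046898278 26843546
    (rowNX 3 0 false false false .npp 1 0 2 (qsf 536870912 469762048 1073741824 536870912 0) ndN6q1 ndN6q2 pcN0 Cut.none Ext.none)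

def k0_mm_102 : ∃ t, chk3 f_mm_102 t 1 1 1 = true :=
  ⟨(l 5), by decide +kernel⟩

theorem c_mm_102 : CertNX 536870912 469762048 1073741824 536870912 1046898278 26843546 3 false false false .npp 1 0 2
    ndN6q1 ndN6q2 pcN0 Cut.none Ext.none :=
  certNX0 (fam := false) (s1 := false) (s2 := false) (a := 1) (b := 0) (c := 2) (cn := .npp) (n1 := ndN6q1) (n2 := ndN6q2) (pc := pcN0) (cut := Cut.none) (xt := Ext.none) (P1 := 536870912) (W1 := 469762048) (P2 := 1073741824) (W2 := 536870912) (P3 := 1046898278) (W3 := 26843546) (N0 := 3)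
    rfl k0_mm_102

noncomputable def f_mm_112 : ℕ → ℕ → ℕ → ℕ → Bool := onCell 536870912 469762048 1073741824 536870912 1046898278 26843546
    (rowNX 3 0 false false false .dn 1 1 2 (qsf 536870912 469762048 1073741824 536870912 1) ndN6q1 ndN6q2 pcN1 Cut.none Ext.none)

def k0_mm_112 : ∃ t, chk3 f_mm_112 t 1 1 1 = true :=
  ⟨(l 5), by decide +kernel⟩

theorem c_mm_112 : CertNX 536870912 469762048 1073741824 536870912 1046898278 26843546 3 false false false .dn 1 1 2
    ndN6q1 ndN6q2 pcN1 Cut.none Ext.none :=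
  certNX0 (fam := false) (s1 := false) (s2 := false) (a := 1) (b := 1) (c := 2) (cn := .dn) (n1 := ndN6q1) (n2 := ndN6q2) (pc := pcN1) (cut := Cut.none) (xt := Ext.none) (P1 := 536870912) (W1 := 469762048) (P2 := 1073741824) (W2 := 536870912) (P3 := 1046898278) (W3 := 26843546) (N0 := 3)
    rfl k0_mm_112

noncomputable def f_mm_113 : ℕ → ℕ → ℕ → ℕ → Bool := onCell 536870912 469762048 0 1230186008 1046898278 26843546
    (rowNX 3 0 false false false .nn 1 1 3 (qsf 536870912 469762048 0 1230186008 1) ndN6q1 ndN6q3 pcN1 Cut.none Ext.none)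

def k0_mm_113 : ∃ t, chk3 f_mm_113 t 1 1 1 = true :=
  ⟨(l 5), by decide +kernel⟩

theorem c_mm_113 : CertNX 536870912 469762048 0 1230186008 1046898278 26843546 3 false false false .nn 1 1 3
    ndN6q1 ndN6q3 pcN1 Cut.none Ext.none :=
  certNX0 (fam := false) (s1 := false) (s2 := false) (a := 1) (b := 1) (c := 3) (cn := .nn) (n1 := ndN6q1) (n2 := ndN6q3) (pc := pcN1) (cut := Cut.none) (xt := Ext.none) (P1 := 536870912) (W1 := 469762048) (P2 := 0) (W2 := 1230186008) (P3 := 1046898278) (W3 := 26843546) (N0 := 3)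
    rfl k0_mm_113

noncomputable def f_mm_123 : ℕ → ℕ → ℕ → ℕ → Bool := onCell 536870912 469762048 0 1230186008 1046898278 26843546
    (rowNX 3 0 false false false .npn 1 2 3 (qsf 536870912 469762048 0 1230186008 2) ndN6q1 ndN6q3 pcN2 Cut.none Ext.none)

def k0_mm_123 : ∃ t, chk3 f_mm_123 t 1 1 1 = true :=
  ⟨(l 5), by decide +kernel⟩

theorem c_mm_123 : CertNX 536870912 469762048 0 1230186008 1046898278 26843546 3 false false false .npn 1 2 3
    ndN6q1 ndN6q3 pcN2 Cut.none Ext.none :=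
  certNX0 (fam := false) (s1 := false) (s2 := false) (a := 1) (b := 2) (c := 3) (cn := .npn) (n1 := ndN6q1) (n2 := ndN6q3) (pc := pcN2) (cut := Cut.none) (xt := Ext.none) (P1 := 536870912) (W1 := 469762048) (P2 := 0) (W2 := 1230186008) (P3 := 1046898278) (W3 := 26843546) (N0 := 3)
    rfl k0_mm_123

noncomputable def f_mm_133 : ℕ → ℕ → ℕ → ℕ → Bool := onCell 536870912 469762048 0 1230186008 1046898278 26843546
    (rowNX 3 0 false false false .dn 1 3 3 (qsf 536870912 469762048 0 1230186008 3) ndN6q1 ndN6q3 pcN3 Cut.none Ext.none)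

def k0_mm_133 : ∃ t, chk3 f_mm_133 t 1 1 1 = true :=
  ⟨(l 5), by decide +kernel⟩

theorem c_mm_133 : CertNX 536870912 469762048 0 1230186008 1046898278 26843546 3 false false false .dn 1 3 3
    ndN6q1 ndN6q3 pcN3 Cut.none Ext.none :=
  certNX0 (fam := false) (s1 := false) (s2 := false) (a := 1) (b := 3) (c := 3) (cn := .dn) (n1 := ndN6q1) (n2 := ndN6q3) (pc := pcN3) (cut := Cut.none) (xt := Ext.none) (P1 := 536870912) (W1 := 469762048) (P2 := 0) (W2 := 1230186008) (P3 := 1046898278) (W3 := 26843546) (N0 := 3)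
    rfl k0_mm_133

noncomputable def f_mm_202 : ℕ → ℕ → ℕ → ℕ → Bool := onCell 1073741824 536870912 1073741824 536870912 1046898278 26843546
    (rowNX 3 0 false false false .pp 2 0 2 (qsf 1073741824 536870912 1073741824 536870912 0) ndN6q2 ndN6q2 pcN0 Cut.none Ext.none)

def k0_mm_202 : ∃ t, chk3 f_mm_202 t 1 1 1 = true :=
  ⟨(l 3), by decide +kernel⟩

theorem c_mm_202 : CertNX 1073741824 536870912 1073741824 536870912 1046898278 26843546 3 false false false .pp 2 0 2
    ndN6q2 ndN6q2 pcN0 Cut.none Ext.none :=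
  certNX0 (fam := false) (s1 := false) (s2 := false) (a := 2) (b := 0) (c := 2) (cn := .pp) (n1 := ndN6q2) (n2 := ndN6q2) (pc := pcN0) (cut := Cut.none) (xt := Ext.none) (P1 := 1073741824) (W1 := 536870912) (P2 := 1073741824) (W2 := 536870912) (P3 := 1046898278) (W3 := 26843546) (N0 := 3)
    rfl k0_mm_202

noncomputable def f_mm_203 : ℕ → ℕ → ℕ → ℕ → Bool := onCell 1073741824 536870912 0 1230186008 1046898278 26843546
    (rowNX 3 0 false false false .up 2 0 3 (qsf 1073741824 536870912 0 1230186008 0) ndN6q2 ndN6q3 pcN0 Cut.none Ext.none)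

def k0_mm_203 : ∃ t, chk3 f_mm_203 t 1 1 1 = true :=
  ⟨(b (l 5) (a (l 5) (l 3))), by decide +kernel⟩

theorem c_mm_203 : CertNX 1073741824 536870912 0 1230186008 1046898278 26843546 3 false false false .up 2 0 3
    ndN6q2 ndN6q3 pcN0 Cut.none Ext.none :=
  certNX0 (fam := false) (s1 := false) (s2 := false) (a := 2) (b := 0) (c := 3) (cn := .up) (n1 := ndN6q2) (n2 := ndN6q3) (pc := pcN0) (cut := Cut.none) (xt := Ext.none) (P1 := 1073741824) (W1 := 536870912) (P2 := 0) (W2 := 1230186008) (P3 := 1046898278) (W3 := 26843546) (N0 := 3)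
    rfl k0_mm_203

noncomputable def f_mm_213 : ℕ → ℕ → ℕ → ℕ → Bool := onCell 536870912 536870912 0 1230186008 1046898278 26843546
    (rowNX 3 2 false false false .pnn 2 1 3 (qsf 1073741824 536870912 0 1230186008 1) ndN6q2 ndN6q3 pcN1 Cut.none Ext.none)

def k0_mm_213 : ∃ t, chk3 f_mm_213 t 1 1 1 = true :=
  ⟨(b (l 5) (l 5)), by decide +kernel⟩

theorem c_mm_213 : CertNX 1073741824 536870912 0 1230186008 1046898278 26843546 3 false false false .pnn 2 1 3
    ndN6q2 ndN6q3 pcN1 Cut.none Ext.none :=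
  certNX2 (fam := false) (s1 := false) (s2 := false) (a := 2) (b := 1) (c := 3) (cn := .pnn) (n1 := ndN6q2) (n2 := ndN6q3) (pc := pcN1) (cut := Cut.none) (xt := Ext.none) (P1 := 1073741824) (W1 := 536870912) (P2 := 0) (W2 := 1230186008) (P3 := 1046898278) (W3 := 26843546) (N0 := 3)
    rfl (fun _ => rfl) k0_mm_213

noncomputable def f_mm_303 : ℕ → ℕ → ℕ → ℕ → Bool := onCell 0 1230186008 0 1230186008 1046898278 26843546
    (rowNX 3 0 false false false .npn 3 0 3 (qsf 0 1230186008 0 1230186008 0) ndN6q3 ndN6q3 pcN0 Cut.none Ext.none)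

def k0_mm_303 : ∃ t, chk3 f_mm_303 t 1 1 1 = true :=
  ⟨(a (b (l 3) (a (l 1) (l 3))) (b (a (l 3) (l 5)) (l 3))), by decide +kernel⟩

theorem c_mm_303 : CertNX 0 1230186008 0 1230186008 1046898278 26843546 3 false false false .npn 3 0 3
    ndN6q3 ndN6q3 pcN0 Cut.none Ext.none :=
  certNX0 (fam := false) (s1 := false) (s2 := false) (a := 3) (b := 0) (c := 3) (cn := .npn) (n1 := ndN6q3) (n2 := ndN6q3) (pc := pcN0) (cut := Cut.none) (xt := Ext.none) (P1 := 0) (W1 := 1230186008) (P2 := 0) (W2 := 1230186008) (P3 := 1046898278) (W3 := 26843546) (N0 := 3)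
    rfl k0_mm_303

noncomputable def f_mm_313 : ℕ → ℕ → ℕ → ℕ → Bool := onCell 0 1230186008 0 1230186008 1046898278 26843546
    (rowNX 3 0 false false false .dn 3 1 3 (qsf 0 1230186008 0 1230186008 1) ndN6q3 ndN6q3 pcN1 Cut.none Ext.none)

def k0_mm_313 : ∃ t, chk3 f_mm_313 t 1 1 1 = true :=
  ⟨(a (l 1) (b (a (l 1) (l 5)) (l 1))), by decide +kernel⟩

theorem c_mm_313 : CertNX 0 1230186008 0 1230186008 1046898278 26843546 3 false false false .dn 3 1 3
    ndN6q3 ndN6q3 pcN1 Cut.none Ext.none :=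
  certNX0 (fam := false) (s1 := false) (s2 := false) (a := 3) (b := 1) (c := 3) (cn := .dn) (n1 := ndN6q3) (n2 := ndN6q3) (pc := pcN1) (cut := Cut.none) (xt := Ext.none) (P1 := 0) (W1 := 1230186008) (P2 := 0) (W2 := 1230186008) (P3 := 1046898278) (W3 := 26843546) (N0 := 3)
    rfl k0_mm_313

end Pool.Agent.Strip051.G.IE1.Tab.C.NB66

namespace Pool.Agent.Strip051.G.IE1.Tab.C.NB67

open Pool.Agent.Strip051.PB Pool.Agent.Strip051.PB.T
open Pool.Agent.Strip051.G.IE1.Tab

noncomputable def f_pp_001 : ℕ → ℕ → ℕ → ℕ → Bool := onCell 0 536870912 536870912 536870912 1046898278 26843546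
    (rowNX 3 0 false true true .up 0 0 1 (qsf 0 536870912 536870912 536870912 0) ndN6q0 ndN7q1 pcN0 Cut.none Ext.none)

def k0_pp_001 : ∃ t, chk3 f_pp_001 t 1 1 1 = true :=
  ⟨(l 3), by decide +kernel⟩

theorem c_pp_001 : CertNX 0 536870912 536870912 536870912 1046898278 26843546 3 false true true .up 0 0 1
    ndN6q0 ndN7q1 pcN0 Cut.none Ext.none :=
  certNX0 (fam := false) (s1 := true) (s2 := true) (a := 0) (b := 0) (c := 1) (cn := .up) (n1 := ndN6q0) (n2 := ndN7q1) (pc := pcN0) (cut := Cut.none) (xt := Ext.none) (P1 := 0) (W1 := 536870912) (P2 := 536870912) (W2 := 536870912) (P3 := 1046898278) (W3 := 26843546) (N0 := 3)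
    rfl k0_pp_001

noncomputable def f_pp_011 : ℕ → ℕ → ℕ → ℕ → Bool := onCell 0 536870912 536870912 536870912 1046898278 26843546
    (rowNX 3 0 false true true .pnn 0 1 1 (qsf 0 536870912 536870912 536870912 1) ndN6q0 ndN7q1 pcN1 Cut.none Ext.none)

def k0_pp_011 : ∃ t, chk3 f_pp_011 t 1 1 1 = true :=
  ⟨(l 3), by decide +kernel⟩

theorem c_pp_011 : CertNX 0 536870912 536870912 536870912 1046898278 26843546 3 false true true .pnn 0 1 1
    ndN6q0 ndN7q1 pcN1 Cut.none Ext.none :=
  certNX0 (fam := false) (s1 := true) (s2 := true) (a := 0) (b := 1) (c := 1) (cn := .pnn) (n1 := ndN6q0) (n2 := ndN7q1) (pc := pcN1) (cut := Cut.none) (xt := Ext.none) (P1 := 0) (W1 := 536870912) (P2 := 536870912) (W2 := 536870912) (P3 := 1046898278) (W3 := 26843546) (N0 := 3)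
    rfl k0_pp_011

noncomputable def f_pp_012 : ℕ → ℕ → ℕ → ℕ → Bool := onCell 536870912 536870912 1073741824 536870912 1046898278 26843546
    (rowNX 3 2 false true true .pnp 0 1 2 (qsf 0 536870912 1073741824 536870912 1) ndN6q0 ndN7q2 pcN1 Cut.none Ext.none)

def k0_pp_012 : ∃ t, chk3 f_pp_012 t 1 1 1 = true :=
  ⟨(l 3), by decide +kernel⟩

theorem c_pp_012 : CertNX 0 536870912 1073741824 536870912 1046898278 26843546 3 false true true .pnp 0 1 2
    ndN6q0 ndN7q2 pcN1 Cut.none Ext.none :=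
  certNX2 (fam := false) (s1 := true) (s2 := true) (a := 0) (b := 1) (c := 2) (cn := .pnp) (n1 := ndN6q0) (n2 := ndN7q2) (pc := pcN1) (cut := Cut.none) (xt := Ext.none) (P1 := 0) (W1 := 536870912) (P2 := 1073741824) (W2 := 536870912) (P3 := 1046898278) (W3 := 26843546) (N0 := 3)
    rfl (fun _ => rfl) k0_pp_012

noncomputable def f_pp_022 : ℕ → ℕ → ℕ → ℕ → Bool := onCell 0 536870912 1073741824 536870912 1046898278 26843546
    (rowNX 3 1 false true true .pp 0 2 2 (qsf 0 536870912 1073741824 536870912 2) ndN6q0 ndN7q2 pcN2 Cut.none Ext.none)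

def k0_pp_022 : ∃ t, chk3 f_pp_022 t 1 4 1 = true :=
  ⟨(a (b (l 3) (a (l 3) (b (l 3) (a (l 3) (b (l 3) (c (l 966534934695) (l 1084109664167))))))) (a (b (l 3) (b (b (a (l 3) (l 884392913655)) (c (l 881709159159) (l 897278407911))) (b (a (b (l 921975264743) (l 908016608391)) (c (l 16767904) (l 16767576))) (a (c (l 16870184) (l 599852825943)) (a (l 16661136) (l 16630168)))))) (b (b (b (l 3) (c (b (l 3) (l 795270883239)) (l 15579096))) (b (c (l 757690155383) (l 739973321287)) (c (a (l 15883696) (l 15780376)) (a (l 16024488) (l 15897904))))) (b (b (a (c (l 16322488) (l 16306472)) (b (l 16080256) (l 2))) (a (c (l 16562000) (l 16554424)) (l 2))) (a (b (b (l 16726328) (l 16768552)) (l 16743408)) (l 2)))))), by decide +kernel⟩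

def k1_pp_022 : ∃ t, chk3 f_pp_022 t 4 5 1 = true :=
  ⟨(b (b (b (a (l 3) (a (l 3) (c (l 16250968) (l 16196656)))) (a (b (l 3) (b (a (l 3) (c (l 2234622475847) (l 15978328))) (a (c (a (b (a (l 15575208) (l 15699160)) (a (l 15610136) (c (l 15735976) (l 15722512)))) (b (l 15843784) (c (l 15879488) (l 15854192)))) (b (a (c (l 3344870663223) (l 3542439153063)) (l 15794600)) (a (a (c (l 15573872) (a (l 15515784) (l 15584936))) (c (l 15704456) (l 15678424))) (b (l 15748040) (l 15821824))))) (c (b (l 15791400) (c (l 16011784) (l 15866568))) (b (l 16009792) (c (l 16039152) (l 15943240))))))) (b (a (c (l 16232144) (l 16214352)) (b (l 16484360) (l 16521384))) (b (a (c (l 16289560) (l 16274056)) (b (l 16548744) (l 16575864))) (b (a (c (l 16326056) (l 16311984)) (c (l 16619744) (l 16616728))) (a (b (b (b (l 16331088) (c (l 16330168) (l 16296096))) (l 16357000)) (l 16364872)) (l 16656240))))))) (a (a (a (c (a (l 15838928) (l 15919192)) (a (c (l 15809472) (l 15769104)) (l 15890240)))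 (c (l 16038584) (l 15997984))) (c (l 16237176) (l 16212096))) (a (l 16526824) (l 16477736)))) (a (a (a (c (a (l 16320064) (l 16257496)) (a (c (l 16306136) (l 16276168)) (l 16373568))) (c (l 16342152) (l 16469976))) (b (c (l 16530448) (l 16518856)) (l 16309968))) (a (b (l 16418072) (l 16151888)) (b (l 16225704) (l 16117456))))), by decide +kernel⟩

def k2_pp_022 : ∃ t, chk3 f_pp_022 t 5 5 1 = true :=
  ⟨(b (b (b (a (b (c (l 16678528) (l 16676416)) (c (l 16664320) (l 16619824))) (b (c (l 16724816) (l 16722944)) (c (l 16697736) (l 16695080)))) (b (b (a (a (l 16664808) (l 16554192)) (l 16618624)) (a (c (l 16560056) (l 16553088)) (l 16629216))) (b (a (a (c (l 16563216) (l 16556928)) (l 16439016)) (l 16581120)) (a (b (l 16438368) (l 16405352)) (b (l 16551472) (l 16443032)))))) (a (l 16149208) (a (l 16558712) (l 16574016)))) (a (b (l 16325256) (l 16352528)) (b (l 16697816) (l 16722680)))), by decide +kernel⟩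

def k3_pp_022 : ∃ t, chk3 f_pp_022 t 3 5 1 = true :=
  ⟨(a (b (b (b (a (b (l 16652824) (l 16554408)) (a (l 16542704) (l 16644680))) (b (a (l 16490712) (l 16692200)) (a (b (l 16476456) (b (l 16536184) (l 16607320))) (l 16692592)))) (l 16634816)) (b (a (l 16761176) (a (l 16702040) (l 2))) (a (l 16777136) (l 2)))) (b (b (b (a (a (l 16703664) (l 2)) (l 2)) (l 2)) (l 2)) (l 2))), by decide +kernel⟩

def k4_pp_022 : ∃ t, chk3 f_pp_022 t 1 3 1 = true :=
  ⟨(a (a (a (b (a (a (b (c (l 16041432) (a (l 16053488) (l 16006648))) (c (l 15708192) (a (l 15665968) (l 15688896)))) (b (c (l 15971744) (l 15972336)) (l 15641928))) (b (c (l 15982952) (l 15969320)) (l 15878288))) (a (c (a (l 15697808) (l 15759496)) (a (a (l 15653872) (l 15686568)) (l 15750376))) (l 15815376))) (b (a (b (l 16012512) (l 16003560)) (l 16104120)) (a (l 16003560) (l 16104120)))) (b (a (b (l 16352576) (l 16352576)) (b (l 16722696) (l 16722696))) (a (l 16331608) (l 2)))) (b (b (a (c (l 16777216) (l 16777216)) (l 2))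 (l 2)) (l 2))), by decide +kernel⟩

theorem s5_pp_022 : ∃ t, chk3 f_pp_022 t 2 5 1 = true := ex3_a k1_pp_022 k2_pp_022

theorem s6_pp_022 : ∃ t, chk3 f_pp_022 t 1 5 1 = true := ex3_a s5_pp_022 k3_pp_022

theorem s7_pp_022 : ∃ t, chk3 f_pp_022 t 1 2 1 = true := ex3_b k0_pp_022 s6_pp_022

theorem s8_pp_022 : ∃ t, chk3 f_pp_022 t 1 1 1 = true := ex3_b s7_pp_022 k4_pp_022

theorem c_pp_022 : CertNX 0 536870912 1073741824 536870912 1046898278 26843546 3 false true true .pp 0 2 2
    ndN6q0 ndN7q2 pcN2 Cut.none Ext.none :=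
  certNX1 (fam := false) (s1 := true) (s2 := true) (a := 0) (b := 2) (c := 2) (cn := .pp) (n1 := ndN6q0) (n2 := ndN7q2) (pc := pcN2) (cut := Cut.none) (xt := Ext.none) (P1 := 0) (W1 := 536870912) (P2 := 1073741824) (W2 := 536870912) (P3 := 1046898278) (W3 := 26843546) (N0 := 3)
    rfl (fun _ => rfl) s8_pp_022

noncomputable def f_pp_023 : ℕ → ℕ → ℕ → ℕ → Bool := onCell 1073741824 536870912 0 1230186008 1046898278 26843546
    (rowNX 3 2 false true true .up 0 2 3 (qsf 0 536870912 0 1230186008 2) ndN6q0 ndN7q3 pcN2 Cut.none Ext.none)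

def k0_pp_023 : ∃ t, chk3 f_pp_023 t 1 1 1 = true :=
  ⟨(b (a (l 2) (a (l 2) (b (l 4) (l 16766408)))) (b (a (a (l 2) (a (l 2) (a (l 2) (l 16776592)))) (b (a (l 16767872) (l 16777216)) (l 16777216))) (b (a (a (l 2) (a (b (l 451604944791) (a (b (l 2) (a (l 15096104) (l 15131360))) (b (l 15438584) (l 15686944)))) (a (b (l 16310496) (b (l 16324376) (l 16408064))) (l 16776656)))) (a (l 16777216) (b (l 16758040) (l 16594576)))) (b (a (a (a (l 2) (b (a (l 2) (c (a (l 16030016) (l 15899976)) (l 15829672))) (a (c (b (l 15936496) (l 16112320)) (l 16103488)) (c (b (l 16147888) (l 16480088)) (a (l 16443928) (l 16333400)))))) (a (a (a (c (b (l 15749360) (l 16145184)) (l 16013776)) (b (c (l 15733056) (l 15592712)) (b (c (l 15925224) (l 16009960)) (a (l 16125752) (l 16156384))))) (c (b (l 16066424) (l 16285240)) (l 16196464))) (a (c (l 16588024) (l 16578744)) (l 16776960)))) (a (l 16766528) (l 16404184))) (a (a (a (a (b (l 2) (a (l 3) (c (a (l 3) (l 15674080)) (l 15579096)))) (a (c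 (l 15792072) (l 15745072)) (c (l 15822312) (l 15918872)))) (a (a (l 16104216) (l 16499920)) (a (b (l 16665584) (l 16773960)) (l 16737752)))) (a (a (a (l 16624960) (a (l 16529456) (a (l 16474536) (l 16467472)))) (l 16537824)) (l 16738720))) (a (a (l 16752424) (l 16531672)) (a (b (l 16304488) (a (l 16192808) (l 16090496))) (b (a (l 16074304) (l 15965296)) (a (l 15948336) (a (l 15846064) (b (l 15786296) (l 15720336)))))))))))), by decide +kernel⟩

theorem c_pp_023 : CertNX 0 536870912 0 1230186008 1046898278 26843546 3 false true true .up 0 2 3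
    ndN6q0 ndN7q3 pcN2 Cut.none Ext.none :=
  certNX2 (fam := false) (s1 := true) (s2 := true) (a := 0) (b := 2) (c := 3) (cn := .up) (n1 := ndN6q0) (n2 := ndN7q3) (pc := pcN2) (cut := Cut.none) (xt := Ext.none) (P1 := 0) (W1 := 536870912) (P2 := 0) (W2 := 1230186008) (P3 := 1046898278) (W3 := 26843546) (N0 := 3)
    rfl (fun _ => rfl) k0_pp_023

noncomputable def f_pp_033 : ℕ → ℕ → ℕ → ℕ → Bool := onCell 0 536870912 0 1230186008 1046898278 26843546
    (rowNX 3 0 false true true .pnn 0 3 3 (qsf 0 536870912 0 1230186008 3) ndN6q0 ndN7q3 pcN3 Cut.none Ext.none)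

def k0_pp_033 : ∃ t, chk3 f_pp_033 t 1 1 1 = true :=
  ⟨(b (b (l 4) (b (a (l 4) (a (l 4) (l 16758880))) (a (a (l 4) (a (l 4) (l 16722696))) (a (l 16777216) (l 16777216))))) (b (a (a (a (b (a (a (c (l 15697792) (l 15672112)) (l 35665797015)) (l 15878280)) (a (c (a (l 15697808) (l 15759496)) (b (l 15709456) (l 15709464))) (b (l 15878288) (l 15878288)))) (b (a (l 16003560) (l 16104120)) (b (l 16079352) (l 16079352)))) (b (a (l 16352576) (l 16722696)) (b (l 16521384) (l 16521384)))) (a (b (b (l 16777216) (l 16777216)) (b (l 16777216) (l 16777216))) (b (l 16777216) (l 1)))) (a (a (a (b (a (c (l 15732384) (l 15709464)) (l 15878288)) (a (c (b (l 15732384) (l 15732384)) (b (l 15709464) (l 15709464))) (l 15752456))) (b (a (l 16003560) (l 16104120)) (a (l 16003560) (l 16104120)))) (b (l 16521384) (l 910029170775))) (l 1)))), by decide +kernel⟩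

theorem c_pp_033 : CertNX 0 536870912 0 1230186008 1046898278 26843546 3 false true true .pnn 0 3 3
    ndN6q0 ndN7q3 pcN3 Cut.none Ext.none :=
  certNX0 (fam := false) (s1 := true) (s2 := true) (a := 0) (b := 3) (c := 3) (cn := .pnn) (n1 := ndN6q0) (n2 := ndN7q3) (pc := pcN3) (cut := Cut.none) (xt := Ext.none) (P1 := 0) (W1 := 536870912) (P2 := 0) (W2 := 1230186008) (P3 := 1046898278) (W3 := 26843546) (N0 := 3)
    rfl k0_pp_033

noncomputable def f_pp_101 : ℕ → ℕ → ℕ → ℕ → Bool := onCell 536870912 469762048 536870912 536870912 1046898278 26843546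
    (rowNX 3 0 false true true .npn 1 0 1 (qsf 536870912 469762048 536870912 536870912 0) ndN6q1 ndN7q1 pcN0 Cut.none Ext.none)

def k0_pp_101 : ∃ t, chk3 f_pp_101 t 1 1 1 = true :=
  ⟨(l 3), by decide +kernel⟩

theorem c_pp_101 : CertNX 536870912 469762048 536870912 536870912 1046898278 26843546 3 false true true .npn 1 0 1
    ndN6q1 ndN7q1 pcN0 Cut.none Ext.none :=
  certNX0 (fam := false) (s1 := true) (s2 := true) (a := 1) (b := 0) (c := 1) (cn := .npn) (n1 := ndN6q1) (n2 := ndN7q1) (pc := pcN0) (cut := Cut.none) (xt := Ext.none) (P1 := 536870912) (W1 := 469762048) (P2 := 536870912) (W2 := 536870912) (P3 := 1046898278) (W3 := 26843546) (N0 := 3)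
    rfl k0_pp_101

noncomputable def f_pp_102 : ℕ → ℕ → ℕ → ℕ → Bool := onCell 536870912 469762048 0 536870912 1046898278 26843546
    (rowNX 3 1 false true true .npp 1 0 2 (qsf 536870912 469762048 1073741824 536870912 0) ndN6q1 ndN7q2 pcN0 Cut.none Ext.none)

def k0_pp_102 : ∃ t, chk3 f_pp_102 t 1 1 1 = true :=
  ⟨(l 3), by decide +kernel⟩

theorem c_pp_102 : CertNX 536870912 469762048 1073741824 536870912 1046898278 26843546 3 false true true .npp 1 0 2
    ndN6q1 ndN7q2 pcN0 Cut.none Ext.none :=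
  certNX1 (fam := false) (s1 := true) (s2 := true) (a := 1) (b := 0) (c := 2) (cn := .npp) (n1 := ndN6q1) (n2 := ndN7q2) (pc := pcN0) (cut := Cut.none) (xt := Ext.none) (P1 := 536870912) (W1 := 469762048) (P2 := 1073741824) (W2 := 536870912) (P3 := 1046898278) (W3 := 26843546) (N0 := 3)
    rfl (fun _ => rfl) k0_pp_102

noncomputable def f_pp_112 : ℕ → ℕ → ℕ → ℕ → Bool := onCell 536870912 536870912 1073741824 536870912 1046898278 26843546
    (rowNX 3 2 false true true .dn 1 1 2 (qsf 536870912 469762048 1073741824 536870912 1) ndN6q1 ndN7q2 pcN1 Cut.none Ext.none)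

def k0_pp_112 : ∃ t, chk3 f_pp_112 t 1 1 1 = true :=
  ⟨(l 3), by decide +kernel⟩

theorem c_pp_112 : CertNX 536870912 469762048 1073741824 536870912 1046898278 26843546 3 false true true .dn 1 1 2
    ndN6q1 ndN7q2 pcN1 Cut.none Ext.none :=
  certNX2 (fam := false) (s1 := true) (s2 := true) (a := 1) (b := 1) (c := 2) (cn := .dn) (n1 := ndN6q1) (n2 := ndN7q2) (pc := pcN1) (cut := Cut.none) (xt := Ext.none) (P1 := 536870912) (W1 := 469762048) (P2 := 1073741824) (W2 := 536870912) (P3 := 1046898278) (W3 := 26843546) (N0 := 3)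
    rfl (fun _ => rfl) k0_pp_112

noncomputable def f_pp_113 : ℕ → ℕ → ℕ → ℕ → Bool := onCell 536870912 536870912 0 1230186008 1046898278 26843546
    (rowNX 3 2 false true true .nn 1 1 3 (qsf 536870912 469762048 0 1230186008 1) ndN6q1 ndN7q3 pcN1 Cut.none Ext.none)

def k0_pp_113 : ∃ t, chk3 f_pp_113 t 1 2 1 = true :=
  ⟨(a (l 2) (a (l 2) (b (l 2) (a (l 2) (a (b (l 2) (b (l 2) (c (c (l 12856984) (l 12566504)) (l 12116592)))) (b (b (l 2) (c (a (l 2) (l 13411736)) (l 11711480))) (c (b (c (l 13239704) (l 12713904)) (b (l 12866856) (l 12809072))) (b (l 11914944) (l 12030248))))))))), by decide +kernel⟩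

def k1_pp_113 : ∃ t, chk3 f_pp_113 t 2 3 1 = true :=
  ⟨(b (l 2) (l 3)), by decide +kernel⟩

def k2_pp_113 : ∃ t, chk3 f_pp_113 t 3 6 1 = true :=
  ⟨(a (b (l 2) (a (b (l 2) (b (l 2) (l 3))) (b (b (a (l 2) (c (a (l 2) (l 13322416)) (l 466096836455))) (a (a (l 2) (c (l 13266416) (l 13152376))) (c (a (l 13442808) (l 13455232)) (l 13309128)))) (c (a (b (c (l 13459624) (l 492404348871)) (c (l 13602440) (l 13561224))) (b (a (l 13563864) (l 13541488)) (c (l 13757240) (l 13701248)))) (a (b (l 13321920) (l 13457696)) (b (l 13446040) (l 13615384))))))) (a (b (b (a (l 2) (c (b (l 12697232) (l 12880848)) (l 473074730583))) (a (c (b (c (l 12973856) (l 12869712)) (a (l 13137736) (l 13147792))) (b (l 12705352) (l 12934432))) (c (b (l 12977640) (l 13053168)) (l 12721456)))) (b (a (c (b (a (l 13293912) (l 13202424)) (l 13360664)) (l 13132248)) (b (a (l 13026160) (l 13058192)) (l 13313064))) (a (b (c (l 13574016) (l 13409552)) (l 13908864)) (b (l 13792448) (l 14510352))))) (b (b (c (a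 (b (l 12821224) (l 12852520)) (c (l 13007664) (l 12698592))) (a (l 12351032) (l 12228336))) (a (c (c (l 13117936) (l 12920600)) (l 12620056)) (l 13042032))) (a (b (a (l 13374000) (l 13623088)) (a (l 14683960) (b (l 14667808) (l 15340696)))) (b (l 14125352) (a (c (b (b (l 14905296) (l 15236272)) (l 15463112)) (l 15151696)) (b (l 15173672) (c (l 15361464) (l 15311608))))))))), by decide +kernel⟩

def k3_pp_113 : ∃ t, chk3 f_pp_113 t 3 7 1 = true :=
  ⟨(b (a (a (l 3) (b (a (l 3) (b (l 14014120) (l 3))) (l 3))) (a (b (a (b (l 14599672) (l 15516216)) (b (l 15371616) (l 15969984))) (a (l 3) (l 16188824))) (a (b (a (l 15750240) (l 15617840)) (l 15695880)) (a (c (b (l 15514656) (l 15520072)) (l 15476192)) (c (l 15401720) (b (l 15338656) (l 15363664))))))) (a (l 3) (a (l 3) (b (a (l 15672552) (a (l 598238865335) (c (l 15439192) (l 15387368)))) (l 3))))), by decide +kernel⟩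

theorem s4_pp_113 : ∃ t, chk3 f_pp_113 t 3 3 1 = true := ex3_b k2_pp_113 k3_pp_113

theorem s5_pp_113 : ∃ t, chk3 f_pp_113 t 1 3 1 = true := ex3_a k1_pp_113 s4_pp_113

theorem s6_pp_113 : ∃ t, chk3 f_pp_113 t 1 1 1 = true := ex3_b k0_pp_113 s5_pp_113

theorem c_pp_113 : CertNX 536870912 469762048 0 1230186008 1046898278 26843546 3 false true true .nn 1 1 3
    ndN6q1 ndN7q3 pcN1 Cut.none Ext.none :=
  certNX2 (fam := false) (s1 := true) (s2 := true) (a := 1) (b := 1) (c := 3) (cn := .nn) (n1 := ndN6q1) (n2 := ndN7q3) (pc := pcN1) (cut := Cut.none) (xt := Ext.none) (P1 := 536870912) (W1 := 469762048) (P2 := 0) (W2 := 1230186008) (P3 := 1046898278) (W3 := 26843546) (N0 := 3)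
    rfl (fun _ => rfl) s6_pp_113

noncomputable def f_pp_123 : ℕ → ℕ → ℕ → ℕ → Bool := onCell 1073741824 536870912 0 1230186008 1046898278 26843546
    (rowNX 3 2 false true true .npn 1 2 3 (qsf 536870912 469762048 0 1230186008 2) ndN6q1 ndN7q3 pcN2 Cut.none Ext.none)

def k0_pp_123 : ∃ t, chk3 f_pp_123 t 1 2 1 = true :=
  ⟨(a (a (b (a (a (l 2) (b (c (c (l 16573232) (a (l 2) (l 16562984))) (l 16389280)) (c (b (l 16141656) (l 15632912)) (l 15611232)))) (b (a (c (b (l 16661152) (l 16687312)) (l 16626520)) (l 16719432)) (a (c (c (l 16277584) (l 16241456)) (l 16207216)) (b (l 16581224) (l 16226024))))) (a (b (c (a (b (l 14398856) (l 13884672)) (b (l 15121608) (l 14730416))) (a (b (l 13341904) (l 12996616)) (l 14600864))) (a (b (c (a (l 13277688) (l 13763336)) (l 12810368)) (a (l 12509280) (l 13377512))) (b (b (l 14366648) (l 14263184)) (l 14175600)))) (b (a (b (c (l 15687128) (l 15588352)) (l 15282264)) (l 15508384)) (a (b (l 15041104) (l 14841064)) (l 14867112))))) (b (a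 (b (a (l 16561192) (l 16602360)) (a (l 16405848) (l 16180632))) (b (l 4) (a (l 15754040) (l 15841168)))) (a (b (a (l 15339304) (l 15556872)) (a (a (l 14635400) (l 14799304)) (l 15451840))) (a (b (l 15942168) (l 16256496)) (l 16473872))))) (b (a (b (l 4) (a (l 16267272) (l 16645168))) (l 4)) (a (a (l 16603952) (l 16761104)) (l 16766408)))), by decide +kernel⟩

def k1_pp_123 : ∃ t, chk3 f_pp_123 t 1 3 1 = true :=
  ⟨(b (a (a (b (a (b (a (l 13338824) (l 14343512)) (a (l 14065000) (l 14788840))) (b (l 14776640) (l 14790128))) (a (b (a (l 15024584) (l 15107768)) (l 15354584)) (l 14786248))) (a (a (a (l 14473672) (l 14694872)) (l 15429448)) (a (l 16329248) (l 16776592)))) (b (a (l 16767872) (l 16777216)) (l 16777216))) (a (b (b (a (b (l 15093136) (c (a (a (l 15730224) (l 15347720)) (a (l 15001136) (l 14488952))) (a (a (l 15692040) (l 15296504)) (a (l 14937360) (l 14600888))))) (a (a (l 14506656) (l 15376232)) (l 16549720))) (a (a (a (c (l 15685344) (l 15632560)) (c (l 15470336)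 (l 15415944))) (a (c (l 15198568) (l 15271872)) (b (c (l 14882000) (l 14816752)) (c (l 15375160) (l 15325952))))) (a (a (b (a (l 14576296) (c (l 14774296) (l 14703736))) (a (l 15096104) (l 15131360))) (b (l 15438584) (l 555692767319))) (l 1)))) (a (a (a (a (c (b (b (l 15603624) (l 15437136)) (l 15405696)) (a (c (b (l 15451840) (l 15412528)) (b (l 15438160) (l 717960888503))) (b (l 15393472) (c (l 15357128) (l 15451736))))) (c (b (l 15632616) (c (a (l 15621944) (l 15687624)) (l 15445952))) (b (l 15545040) (l 15564992)))) (b (c (c (l 15720096) (l 15669344)) (l 15648832)) (a (c (l 15792072) (l 15745072)) (c (l 15801344) (l 15918872))))) (a (b (c (b (l 15814880) (b (l 15936496) (l 16112320))) (b (l 15724352) (l 16103488))) (a (l 16104216) (l 1))) (b (b (c (a (l 16030016) (l 15899976)) (l 15829672)) (b (c (l 16147888) (l 16289840)) (l 1))) (l 1)))) (a (a (a (b (b (l 15796104) (l 1)) (l 1)) (l 1)) (l 1)) (l 1)))) (l 1))), by decide +kernel⟩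

theorem s2_pp_123 : ∃ t, chk3 f_pp_123 t 1 1 1 = true := ex3_b k0_pp_123 k1_pp_123

theorem c_pp_123 : CertNX 536870912 469762048 0 1230186008 1046898278 26843546 3 false true true .npn 1 2 3
    ndN6q1 ndN7q3 pcN2 Cut.none Ext.none :=
  certNX2 (fam := false) (s1 := true) (s2 := true) (a := 1) (b := 2) (c := 3) (cn := .npn) (n1 := ndN6q1) (n2 := ndN7q3) (pc := pcN2) (cut := Cut.none) (xt := Ext.none) (P1 := 536870912) (W1 := 469762048) (P2 := 0) (W2 := 1230186008) (P3 := 1046898278) (W3 := 26843546) (N0 := 3)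
    rfl (fun _ => rfl) s2_pp_123

noncomputable def f_pp_133 : ℕ → ℕ → ℕ → ℕ → Bool := onCell 1610612736 536870912 0 1230186008 1046898278 26843546
    (rowNX 3 2 false true true .dn 1 3 3 (qsf 536870912 469762048 0 1230186008 3) ndN6q1 ndN7q3 pcN3 Cut.none Ext.none)

def k0_pp_133 : ∃ t, chk3 f_pp_133 t 1 1 1 = true :=
  ⟨(b (b (l 4) (l 1)) (l 1)), by decide +kernel⟩

theorem c_pp_133 : CertNX 536870912 469762048 0 1230186008 1046898278 26843546 3 false true true .dn 1 3 3
    ndN6q1 ndN7q3 pcN3 Cut.none Ext.none :=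
  certNX2 (fam := false) (s1 := true) (s2 := true) (a := 1) (b := 3) (c := 3) (cn := .dn) (n1 := ndN6q1) (n2 := ndN7q3) (pc := pcN3) (cut := Cut.none) (xt := Ext.none) (P1 := 536870912) (W1 := 469762048) (P2 := 0) (W2 := 1230186008) (P3 := 1046898278) (W3 := 26843546) (N0 := 3)
    rfl (fun _ => rfl) k0_pp_133

noncomputable def f_pp_202 : ℕ → ℕ → ℕ → ℕ → Bool := onCell 1073741824 536870912 1073741824 536870912 1046898278 26843546
    (rowNX 3 0 false true true .pp 2 0 2 (qsf 1073741824 536870912 1073741824 536870912 0) ndN6q2 ndN7q2 pcN0 Cut.none Ext.none)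

def k0_pp_202 : ∃ t, chk3 f_pp_202 t 1 1 1 = true :=
  ⟨(l 3), by decide +kernel⟩

theorem c_pp_202 : CertNX 1073741824 536870912 1073741824 536870912 1046898278 26843546 3 false true true .pp 2 0 2
    ndN6q2 ndN7q2 pcN0 Cut.none Ext.none :=
  certNX0 (fam := false) (s1 := true) (s2 := true) (a := 2) (b := 0) (c := 2) (cn := .pp) (n1 := ndN6q2) (n2 := ndN7q2) (pc := pcN0) (cut := Cut.none) (xt := Ext.none) (P1 := 1073741824) (W1 := 536870912) (P2 := 1073741824) (W2 := 536870912) (P3 := 1046898278) (W3 := 26843546) (N0 := 3)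
    rfl k0_pp_202

noncomputable def f_pp_203 : ℕ → ℕ → ℕ → ℕ → Bool := onCell 0 536870912 0 1230186008 1046898278 26843546
    (rowNX 3 2 false true true .up 2 0 3 (qsf 1073741824 536870912 0 1230186008 0) ndN6q2 ndN7q3 pcN0 Cut.none Ext.none)

def k0_pp_203 : ∃ t, chk3 f_pp_203 t 1 1 1 = true :=
  ⟨(b (a (l 2) (l 3)) (l 3)), by decide +kernel⟩

theorem c_pp_203 : CertNX 1073741824 536870912 0 1230186008 1046898278 26843546 3 false true true .up 2 0 3
    ndN6q2 ndN7q3 pcN0 Cut.none Ext.none :=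
  certNX2 (fam := false) (s1 := true) (s2 := true) (a := 2) (b := 0) (c := 3) (cn := .up) (n1 := ndN6q2) (n2 := ndN7q3) (pc := pcN0) (cut := Cut.none) (xt := Ext.none) (P1 := 1073741824) (W1 := 536870912) (P2 := 0) (W2 := 1230186008) (P3 := 1046898278) (W3 := 26843546) (N0 := 3)
    rfl (fun _ => rfl) k0_pp_203

noncomputable def f_pp_213 : ℕ → ℕ → ℕ → ℕ → Bool := onCell 1073741824 536870912 0 1230186008 1046898278 26843546
    (rowNX 3 0 false true true .pnn 2 1 3 (qsf 1073741824 536870912 0 1230186008 1) ndN6q2 ndN7q3 pcN1 Cut.none Ext.none)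

def k0_pp_213 : ∃ t, chk3 f_pp_213 t 1 1 1 = true :=
  ⟨(b (a (a (b (b (a (b (l 15592424) (l 15416160)) (b (l 15668624) (l 15567888))) (a (a (l 15248896) (l 15416248)) (b (l 15319048) (a (l 15277976) (a (l 15000544) (l 14779592)))))) (b (a (b (a (a (b (l 14443088) (l 14297528)) (b (l 14792168) (l 14665016))) (b (l 15055912) (l 14951664))) (a (b (l 14412272) (l 14359440)) (l 14821144))) (a (b (a (l 15107600) (l 15043384)) (a (l 14955216) (b (l 14945264) (l 14914080)))) (b (a (l 14845984) (l 14690048)) (l 14735504)))) (b (a (a (b (l 14352152) (l 14375056)) (b (l 14757544) (l 3))) (l 3)) (l 3)))) (b (a (b (a (b (l 15005544) (l 14965632)) (l 15635504)) (a (b (a (l 14731640) (l 14884376)) (l 14710120)) (b (l 15502712) (l 15458304)))) (b (a (b (l 16381800) (l 16288048)) (l 16687896)) (a (b (l 16264152) (l 16275696)) (l 16657128)))) (b (a (a (b (a (l 14569112) (l 14776304)) (l 224575318663)) (b (l 15469984) (l 3))) (a (b (l 16283320) (l 3)) (l 3))) (l 3)))) (b (a (b (c (b (l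 16730672) (l 16662096)) (b (l 16728672) (l 16653496))) (c (l 269676771111) (l 270213635063))) (b (a (a (l 16688176) (l 299741409623)) (l 323363748759)) (l 3))) (l 3))) (b (l 3) (l 3))), by decide +kernel⟩

theorem c_pp_213 : CertNX 1073741824 536870912 0 1230186008 1046898278 26843546 3 false true true .pnn 2 1 3
    ndN6q2 ndN7q3 pcN1 Cut.none Ext.none :=
  certNX0 (fam := false) (s1 := true) (s2 := true) (a := 2) (b := 1) (c := 3) (cn := .pnn) (n1 := ndN6q2) (n2 := ndN7q3) (pc := pcN1) (cut := Cut.none) (xt := Ext.none) (P1 := 1073741824) (W1 := 536870912) (P2 := 0) (W2 := 1230186008) (P3 := 1046898278) (W3 := 26843546) (N0 := 3)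
    rfl k0_pp_213

noncomputable def f_pp_303 : ℕ → ℕ → ℕ → ℕ → Bool := onCell 0 1230186008 0 1230186008 1046898278 26843546
    (rowNX 3 0 false true true .npn 3 0 3 (qsf 0 1230186008 0 1230186008 0) ndN6q3 ndN7q3 pcN0 Cut.none Ext.none)

def k0_pp_303 : ∃ t, chk3 f_pp_303 t 1 1 1 = true :=
  ⟨(a (b (l 3) (l 5)) (b (a (l 3) (l 3)) (l 3))), by decide +kernel⟩

theorem c_pp_303 : CertNX 0 1230186008 0 1230186008 1046898278 26843546 3 false true true .npn 3 0 3
    ndN6q3 ndN7q3 pcN0 Cut.none Ext.none :=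
  certNX0 (fam := false) (s1 := true) (s2 := true) (a := 3) (b := 0) (c := 3) (cn := .npn) (n1 := ndN6q3) (n2 := ndN7q3) (pc := pcN0) (cut := Cut.none) (xt := Ext.none) (P1 := 0) (W1 := 1230186008) (P2 := 0) (W2 := 1230186008) (P3 := 1046898278) (W3 := 26843546) (N0 := 3)
    rfl k0_pp_303

noncomputable def f_pp_313 : ℕ → ℕ → ℕ → ℕ → Bool := onCell 0 1230186008 0 1230186008 1046898278 26843546
    (rowNX 3 0 false true true .dn 3 1 3 (qsf 0 1230186008 0 1230186008 1) ndN6q3 ndN7q3 pcN1 Cut.none Ext.none)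

def k0_pp_313 : ∃ t, chk3 f_pp_313 t 1 1 1 = true :=
  ⟨(a (l 1) (b (a (l 1) (l 3)) (l 1))), by decide +kernel⟩

theorem c_pp_313 : CertNX 0 1230186008 0 1230186008 1046898278 26843546 3 false true true .dn 3 1 3
    ndN6q3 ndN7q3 pcN1 Cut.none Ext.none :=
  certNX0 (fam := false) (s1 := true) (s2 := true) (a := 3) (b := 1) (c := 3) (cn := .dn) (n1 := ndN6q3) (n2 := ndN7q3) (pc := pcN1) (cut := Cut.none) (xt := Ext.none) (P1 := 0) (W1 := 1230186008) (P2 := 0) (W2 := 1230186008) (P3 := 1046898278) (W3 := 26843546) (N0 := 3)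
    rfl k0_pp_313

noncomputable def f_pm_001 : ℕ → ℕ → ℕ → ℕ → Bool := onCell 0 536870912 536870912 536870912 1046898278 26843546
    (rowNX 3 0 false true false .up 0 0 1 (qsf 0 536870912 536870912 536870912 0) ndN6q0 ndN7q1 pcN0 Cut.none Ext.none)

def k0_pm_001 : ∃ t, chk3 f_pm_001 t 1 1 1 = true :=
  ⟨(l 4), by decide +kernel⟩

theorem c_pm_001 : CertNX 0 536870912 536870912 536870912 1046898278 26843546 3 false true false .up 0 0 1
    ndN6q0 ndN7q1 pcN0 Cut.none Ext.none :=
  certNX0 (fam := false) (s1 := true) (s2 := false) (a := 0) (b := 0) (c := 1) (cn := .up) (n1 := ndN6q0) (n2 := ndN7q1) (pc := pcN0) (cut := Cut.none) (xt := Ext.none) (P1 := 0) (W1 := 536870912) (P2 := 536870912) (W2 := 536870912) (P3 := 1046898278) (W3 := 26843546) (N0 := 3)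
    rfl k0_pm_001

noncomputable def f_pm_011 : ℕ → ℕ → ℕ → ℕ → Bool := onCell 0 536870912 536870912 536870912 1046898278 26843546
    (rowNX 3 0 false true false .pnn 0 1 1 (qsf 0 536870912 536870912 536870912 1) ndN6q0 ndN7q1 pcN1 Cut.none Ext.none)

def k0_pm_011 : ∃ t, chk3 f_pm_011 t 1 1 1 = true :=
  ⟨(l 4), by decide +kernel⟩

theorem c_pm_011 : CertNX 0 536870912 536870912 536870912 1046898278 26843546 3 false true false .pnn 0 1 1
    ndN6q0 ndN7q1 pcN1 Cut.none Ext.none :=
  certNX0 (fam := false) (s1 := true) (s2 := false) (a := 0) (b := 1) (c := 1) (cn := .pnn) (n1 := ndN6q0) (n2 := ndN7q1) (pc := pcN1) (cut := Cut.none) (xt := Ext.none) (P1 := 0) (W1 := 536870912) (P2 := 536870912) (W2 := 536870912) (P3 := 1046898278) (W3 := 26843546) (N0 := 3)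
    rfl k0_pm_011

noncomputable def f_pm_012 : ℕ → ℕ → ℕ → ℕ → Bool := onCell 0 536870912 1073741824 536870912 1046898278 26843546
    (rowNX 3 0 false true false .pnp 0 1 2 (qsf 0 536870912 1073741824 536870912 1) ndN6q0 ndN7q2 pcN1 Cut.none Ext.none)

def k0_pm_012 : ∃ t, chk3 f_pm_012 t 1 1 1 = true :=
  ⟨(l 4), by decide +kernel⟩

theorem c_pm_012 : CertNX 0 536870912 1073741824 536870912 1046898278 26843546 3 false true false .pnp 0 1 2
    ndN6q0 ndN7q2 pcN1 Cut.none Ext.none :=
  certNX0 (fam := false) (s1 := true) (s2 := false) (a := 0) (b := 1) (c := 2) (cn := .pnp) (n1 := ndN6q0) (n2 := ndN7q2) (pc := pcN1) (cut := Cut.none) (xt := Ext.none) (P1 := 0) (W1 := 536870912) (P2 := 1073741824) (W2 := 536870912) (P3 := 1046898278) (W3 := 26843546) (N0 := 3)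
    rfl k0_pm_012

noncomputable def f_pm_022 : ℕ → ℕ → ℕ → ℕ → Bool := onCell 0 536870912 1073741824 536870912 1046898278 26843546
    (rowNX 3 0 false true false .pp 0 2 2 (qsf 0 536870912 1073741824 536870912 2) ndN6q0 ndN7q2 pcN2 Cut.none Ext.none)

def k0_pm_022 : ∃ t, chk3 f_pm_022 t 1 1 1 = true :=
  ⟨(l 4), by decide +kernel⟩

theorem c_pm_022 : CertNX 0 536870912 1073741824 536870912 1046898278 26843546 3 false true false .pp 0 2 2
    ndN6q0 ndN7q2 pcN2 Cut.none Ext.none :=
  certNX0 (fam := false) (s1 := true) (s2 := false) (a := 0) (b := 2) (c := 2) (cn := .pp) (n1 := ndN6q0) (n2 := ndN7q2) (pc := pcN2) (cut := Cut.none) (xt := Ext.none) (P1 := 0) (W1 := 536870912) (P2 := 1073741824) (W2 := 536870912) (P3 := 1046898278) (W3 := 26843546) (N0 := 3)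
    rfl k0_pm_022

noncomputable def f_pm_023 : ℕ → ℕ → ℕ → ℕ → Bool := onCell 0 536870912 0 1230186008 1046898278 26843546
    (rowNX 3 0 false true false .up 0 2 3 (qsf 0 536870912 0 1230186008 2) ndN6q0 ndN7q3 pcN2 Cut.none Ext.none)

def k0_pm_023 : ∃ t, chk3 f_pm_023 t 1 1 1 = true :=
  ⟨(l 4), by decide +kernel⟩

theorem c_pm_023 : CertNX 0 536870912 0 1230186008 1046898278 26843546 3 false true false .up 0 2 3
    ndN6q0 ndN7q3 pcN2 Cut.none Ext.none :=
  certNX0 (fam := false) (s1 := true) (s2 := false) (a := 0) (b := 2) (c := 3) (cn := .up) (n1 := ndN6q0) (n2 := ndN7q3) (pc := pcN2) (cut := Cut.none) (xt := Ext.none) (P1 := 0) (W1 := 536870912) (P2 := 0) (W2 := 1230186008) (P3 := 1046898278) (W3 := 26843546) (N0 := 3)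
    rfl k0_pm_023

noncomputable def f_pm_033 : ℕ → ℕ → ℕ → ℕ → Bool := onCell 0 536870912 0 1230186008 1046898278 26843546
    (rowNX 3 0 false true false .pnn 0 3 3 (qsf 0 536870912 0 1230186008 3) ndN6q0 ndN7q3 pcN3 Cut.none Ext.none)

def k0_pm_033 : ∃ t, chk3 f_pm_033 t 1 1 1 = true :=
  ⟨(l 4), by decide +kernel⟩

theorem c_pm_033 : CertNX 0 536870912 0 1230186008 1046898278 26843546 3 false true false .pnn 0 3 3
    ndN6q0 ndN7q3 pcN3 Cut.none Ext.none :=
  certNX0 (fam := false) (s1 := true) (s2 := false) (a := 0) (b := 3) (c := 3) (cn := .pnn) (n1 := ndN6q0) (n2 := ndN7q3) (pc := pcN3) (cut := Cut.none) (xt := Ext.none) (P1 := 0) (W1 := 536870912) (P2 := 0) (W2 := 1230186008) (P3 := 1046898278) (W3 := 26843546) (N0 := 3)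
    rfl k0_pm_033

noncomputable def f_pm_101 : ℕ → ℕ → ℕ → ℕ → Bool := onCell 536870912 469762048 536870912 536870912 1046898278 26843546
    (rowNX 3 0 false true false .npn 1 0 1 (qsf 536870912 469762048 536870912 536870912 0) ndN6q1 ndN7q1 pcN0 Cut.none Ext.none)

def k0_pm_101 : ∃ t, chk3 f_pm_101 t 1 1 1 = true :=
  ⟨(l 4), by decide +kernel⟩

theorem c_pm_101 : CertNX 536870912 469762048 536870912 536870912 1046898278 26843546 3 false true false .npn 1 0 1
    ndN6q1 ndN7q1 pcN0 Cut.none Ext.none :=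
  certNX0 (fam := false) (s1 := true) (s2 := false) (a := 1) (b := 0) (c := 1) (cn := .npn) (n1 := ndN6q1) (n2 := ndN7q1) (pc := pcN0) (cut := Cut.none) (xt := Ext.none) (P1 := 536870912) (W1 := 469762048) (P2 := 536870912) (W2 := 536870912) (P3 := 1046898278) (W3 := 26843546) (N0 := 3)
    rfl k0_pm_101

noncomputable def f_pm_102 : ℕ → ℕ → ℕ → ℕ → Bool := onCell 536870912 469762048 1073741824 536870912 1046898278 26843546
    (rowNX 3 0 false true false .npp 1 0 2 (qsf 536870912 469762048 1073741824 536870912 0) ndN6q1 ndN7q2 pcN0 Cut.none Ext.none)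

def k0_pm_102 : ∃ t, chk3 f_pm_102 t 1 1 1 = true :=
  ⟨(l 4), by decide +kernel⟩

theorem c_pm_102 : CertNX 536870912 469762048 1073741824 536870912 1046898278 26843546 3 false true false .npp 1 0 2
    ndN6q1 ndN7q2 pcN0 Cut.none Ext.none :=
  certNX0 (fam := false) (s1 := true) (s2 := false) (a := 1) (b := 0) (c := 2) (cn := .npp) (n1 := ndN6q1) (n2 := ndN7q2) (pc := pcN0) (cut := Cut.none) (xt := Ext.none) (P1 := 536870912) (W1 := 469762048) (P2 := 1073741824) (W2 := 536870912) (P3 := 1046898278) (W3 := 26843546) (N0 := 3)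
    rfl k0_pm_102

noncomputable def f_pm_112 : ℕ → ℕ → ℕ → ℕ → Bool := onCell 536870912 469762048 1073741824 536870912 1046898278 26843546
    (rowNX 3 0 false true false .dn 1 1 2 (qsf 536870912 469762048 1073741824 536870912 1) ndN6q1 ndN7q2 pcN1 Cut.none Ext.none)

def k0_pm_112 : ∃ t, chk3 f_pm_112 t 1 1 1 = true :=
  ⟨(l 4), by decide +kernel⟩

theorem c_pm_112 : CertNX 536870912 469762048 1073741824 536870912 1046898278 26843546 3 false true false .dn 1 1 2
    ndN6q1 ndN7q2 pcN1 Cut.none Ext.none :=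
  certNX0 (fam := false) (s1 := true) (s2 := false) (a := 1) (b := 1) (c := 2) (cn := .dn) (n1 := ndN6q1) (n2 := ndN7q2) (pc := pcN1) (cut := Cut.none) (xt := Ext.none) (P1 := 536870912) (W1 := 469762048) (P2 := 1073741824) (W2 := 536870912) (P3 := 1046898278) (W3 := 26843546) (N0 := 3)
    rfl k0_pm_112

noncomputable def f_pm_113 : ℕ → ℕ → ℕ → ℕ → Bool := onCell 536870912 469762048 0 1230186008 1046898278 26843546
    (rowNX 3 0 false true false .nn 1 1 3 (qsf 536870912 469762048 0 1230186008 1) ndN6q1 ndN7q3 pcN1 Cut.none Ext.none)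

def k0_pm_113 : ∃ t, chk3 f_pm_113 t 1 1 1 = true :=
  ⟨(b (a (l 2) (l 4)) (l 4)), by decide +kernel⟩

theorem c_pm_113 : CertNX 536870912 469762048 0 1230186008 1046898278 26843546 3 false true false .nn 1 1 3
    ndN6q1 ndN7q3 pcN1 Cut.none Ext.none :=
  certNX0 (fam := false) (s1 := true) (s2 := false) (a := 1) (b := 1) (c := 3) (cn := .nn) (n1 := ndN6q1) (n2 := ndN7q3) (pc := pcN1) (cut := Cut.none) (xt := Ext.none) (P1 := 536870912) (W1 := 469762048) (P2 := 0) (W2 := 1230186008) (P3 := 1046898278) (W3 := 26843546) (N0 := 3)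
    rfl k0_pm_113

noncomputable def f_pm_123 : ℕ → ℕ → ℕ → ℕ → Bool := onCell 536870912 469762048 0 1230186008 1046898278 26843546
    (rowNX 3 0 false true false .npn 1 2 3 (qsf 536870912 469762048 0 1230186008 2) ndN6q1 ndN7q3 pcN2 Cut.none Ext.none)

def k0_pm_123 : ∃ t, chk3 f_pm_123 t 1 1 1 = true :=
  ⟨(b (a (l 4) (l 4)) (l 4)), by decide +kernel⟩

theorem c_pm_123 : CertNX 536870912 469762048 0 1230186008 1046898278 26843546 3 false true false .npn 1 2 3
    ndN6q1 ndN7q3 pcN2 Cut.none Ext.none :=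
  certNX0 (fam := false) (s1 := true) (s2 := false) (a := 1) (b := 2) (c := 3) (cn := .npn) (n1 := ndN6q1) (n2 := ndN7q3) (pc := pcN2) (cut := Cut.none) (xt := Ext.none) (P1 := 536870912) (W1 := 469762048) (P2 := 0) (W2 := 1230186008) (P3 := 1046898278) (W3 := 26843546) (N0 := 3)
    rfl k0_pm_123

noncomputable def f_pm_133 : ℕ → ℕ → ℕ → ℕ → Bool := onCell 1610612736 536870912 0 1230186008 1046898278 26843546
    (rowNX 3 2 false true false .dn 1 3 3 (qsf 536870912 469762048 0 1230186008 3) ndN6q1 ndN7q3 pcN3 Cut.none Ext.none)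

def k0_pm_133 : ∃ t, chk3 f_pm_133 t 1 1 1 = true :=
  ⟨(b (l 4) (l 1)), by decide +kernel⟩

theorem c_pm_133 : CertNX 536870912 469762048 0 1230186008 1046898278 26843546 3 false true false .dn 1 3 3
    ndN6q1 ndN7q3 pcN3 Cut.none Ext.none :=
  certNX2 (fam := false) (s1 := true) (s2 := false) (a := 1) (b := 3) (c := 3) (cn := .dn) (n1 := ndN6q1) (n2 := ndN7q3) (pc := pcN3) (cut := Cut.none) (xt := Ext.none) (P1 := 536870912) (W1 := 469762048) (P2 := 0) (W2 := 1230186008) (P3 := 1046898278) (W3 := 26843546) (N0 := 3)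
    rfl (fun _ => rfl) k0_pm_133

noncomputable def f_pm_202 : ℕ → ℕ → ℕ → ℕ → Bool := onCell 1073741824 536870912 1073741824 536870912 1046898278 26843546
    (rowNX 3 0 false true false .pp 2 0 2 (qsf 1073741824 536870912 1073741824 536870912 0) ndN6q2 ndN7q2 pcN0 Cut.none Ext.none)

def k0_pm_202 : ∃ t, chk3 f_pm_202 t 1 1 1 = true :=
  ⟨(l 4), by decide +kernel⟩

theorem c_pm_202 : CertNX 1073741824 536870912 1073741824 536870912 1046898278 26843546 3 false true false .pp 2 0 2
    ndN6q2 ndN7q2 pcN0 Cut.none Ext.none :=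
  certNX0 (fam := false) (s1 := true) (s2 := false) (a := 2) (b := 0) (c := 2) (cn := .pp) (n1 := ndN6q2) (n2 := ndN7q2) (pc := pcN0) (cut := Cut.none) (xt := Ext.none) (P1 := 1073741824) (W1 := 536870912) (P2 := 1073741824) (W2 := 536870912) (P3 := 1046898278) (W3 := 26843546) (N0 := 3)
    rfl k0_pm_202

noncomputable def f_pm_203 : ℕ → ℕ → ℕ → ℕ → Bool := onCell 1073741824 536870912 0 1230186008 1046898278 26843546
    (rowNX 3 0 false true false .up 2 0 3 (qsf 1073741824 536870912 0 1230186008 0) ndN6q2 ndN7q3 pcN0 Cut.none Ext.none)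

def k0_pm_203 : ∃ t, chk3 f_pm_203 t 1 1 1 = true :=
  ⟨(b (a (l 2) (a (l 2) (b (a (l 2) (b (c (l 16689552) (l 16687512)) (l 16657680))) (b (l 16758880) (l 16777216))))) (b (a (b (l 2) (l 4)) (c (l 16777216) (l 16777216))) (a (l 4) (b (a (l 4) (b (l 16767624) (l 4))) (l 4))))), by decide +kernel⟩

theorem c_pm_203 : CertNX 1073741824 536870912 0 1230186008 1046898278 26843546 3 false true false .up 2 0 3
    ndN6q2 ndN7q3 pcN0 Cut.none Ext.none :=
  certNX0 (fam := false) (s1 := true) (s2 := false) (a := 2) (b := 0) (c := 3) (cn := .up) (n1 := ndN6q2) (n2 := ndN7q3) (pc := pcN0) (cut := Cut.none) (xt := Ext.none) (P1 := 1073741824) (W1 := 536870912) (P2 := 0) (W2 := 1230186008) (P3 := 1046898278) (W3 := 26843546) (N0 := 3)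
    rfl k0_pm_203

noncomputable def f_pm_213 : ℕ → ℕ → ℕ → ℕ → Bool := onCell 1073741824 536870912 0 1230186008 1046898278 26843546
    (rowNX 3 0 false true false .pnn 2 1 3 (qsf 1073741824 536870912 0 1230186008 1) ndN6q2 ndN7q3 pcN1 Cut.none Ext.none)

def k0_pm_213 : ∃ t, chk3 f_pm_213 t 2 4 1 = true :=
  ⟨(a (b (a (b (a (l 16439544) (l 16244680)) (a (l 16001992) (l 16383768))) (b (l 15670552) (l 15645472))) (a (a (b (l 15621368) (l 15347944)) (l 16001088)) (a (l 16078184) (l 15522288)))) (b (a (a (b (l 14979872) (l 14955464)) (l 15597280)) (a (l 16317416) (l 16687944))) (a (a (l 15070944) (l 15602624)) (a (l 16282776) (l 16657104))))), by decide +kernel⟩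

def k1_pm_213 : ∃ t, chk3 f_pm_213 t 4 5 1 = true :=
  ⟨(a (b (b (l 15047016) (b (l 14553128) (b (a (a (c (a (b (l 13710160) (l 13587976)) (b (l 13988368) (l 13905288))) (a (l 12429544) (l 13043112))) (b (l 14100240) (c (b (l 14316336) (l 14234424)) (b (l 13730528) (l 13643688))))) (b (l 14848984) (c (a (a (l 14632936) (c (l 14889584) (l 14748872))) (l 15102720)) (a (a (l 14226376) (a (l 14435216) (l 14564680))) (l 14840976))))) (a (c (a (c (a (c (l 13845560) (l 13540344)) (l 13871688)) (a (l 13056632) (l 13389600))) (c (l 14211856) (l 13908096))) (a (l 12383440) (l 13451600))) (a (b (a (b (l 14230256) (l 14136120)) (c (b (b (l 14758048) (l 14629896)) (l 14611872)) (a (l 14245472) (l 14475672)))) (l 14240880)) (b (a (b (l 14846000) (l 14734624)) (l 15005480)) (l 14815904))))))) (b (b (a (c (a (c (a (c (l 13544568) (l 13252912)) (l 13616944)) (l 12990120)) (c (l 13964832) (l 13655944))) (a (l 12183552) (l 13193240))) (a (a (c (l 14172280) (l 13754568)) (l 14260608)) (l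 14648144))) (a (l 4) (l 14229928))) (l 4))) (b (b (a (l 15635768) (l 15263808)) (b (l 15255648) (b (l 15158360) (a (a (b (c (l 15287952) (l 15085344)) (c (l 15265512) (l 15087328))) (a (b (l 15266496) (b (l 15268976) (l 15311904))) (c (b (l 15253504) (l 15253528)) (a (l 15118968) (l 14962184))))) (b (l 14974736) (a (l 14862880) (l 14914104))))))) (b (a (a (b (l 15045648) (l 14869840)) (b (b (a (b (l 15283744) (l 15263040)) (l 15251232)) (l 15212816)) (l 15088104))) (b (b (a (c (l 15178840) (l 15091144)) (b (l 14887208) (l 14984424))) (l 15079712)) (a (l 15056520) (l 14831304)))) (a (b (l 14865080) (l 4)) (a (b (l 14940600) (l 4)) (b (l 14854296) (l 14764464))))))), by decide +kernel⟩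

def k2_pm_213 : ∃ t, chk3 f_pm_213 t 5 5 1 = true :=
  ⟨(b (a (a (b (l 14980144) (a (l 14764576) (l 14897856))) (l 15565304)) (l 16572352)) (a (b (a (b (a (l 14675320) (l 14814128)) (b (l 14750104) (l 14741040))) (l 15486536)) (a (b (a (l 14738752) (l 14879824)) (l 14792376)) (b (l 15566400) (l 15600384)))) (b (l 16567944) (a (l 16393976) (l 16730248))))), by decide +kernel⟩

def k3_pm_213 : ∃ t, chk3 f_pm_213 t 3 2 1 = true :=
  ⟨(b (a (b (b (l 16729656) (l 16654064)) (l 16657680)) (b (c (a (l 16689552) (l 16689552)) (a (l 16687512) (l 16687512))) (a (l 16657680) (l 16657680)))) (b (l 16758880) (a (b (l 16777216) (l 16914376)) (l 16777216)))), by decide +kernel⟩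

def k4_pm_213 : ∃ t, chk3 f_pm_213 t 1 3 1 = true :=
  ⟨(b (a (a (l 4) (b (a (a (l 4) (b (l 15543264) (l 4))) (a (l 16367288) (l 16751352))) (l 4))) (b (a (l 16775816) (l 16777216)) (l 16777216))) (a (l 4) (l 1))), by decide +kernel⟩

theorem s5_pm_213 : ∃ t, chk3 f_pm_213 t 2 5 1 = true := ex3_a k1_pm_213 k2_pm_213

theorem s6_pm_213 : ∃ t, chk3 f_pm_213 t 2 2 1 = true := ex3_b k0_pm_213 s5_pm_213

theorem s7_pm_213 : ∃ t, chk3 f_pm_213 t 1 2 1 = true := ex3_a s6_pm_213 k3_pm_213

theorem s8_pm_213 : ∃ t, chk3 f_pm_213 t 1 1 1 = true := ex3_b s7_pm_213 k4_pm_213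

theorem c_pm_213 : CertNX 1073741824 536870912 0 1230186008 1046898278 26843546 3 false true false .pnn 2 1 3
    ndN6q2 ndN7q3 pcN1 Cut.none Ext.none :=
  certNX0 (fam := false) (s1 := true) (s2 := false) (a := 2) (b := 1) (c := 3) (cn := .pnn) (n1 := ndN6q2) (n2 := ndN7q3) (pc := pcN1) (cut := Cut.none) (xt := Ext.none) (P1 := 1073741824) (W1 := 536870912) (P2 := 0) (W2 := 1230186008) (P3 := 1046898278) (W3 := 26843546) (N0 := 3)
    rfl s8_pm_213

end Pool.Agent.Strip051.G.IE1.Tab.C.NB67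

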