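import Pool.Agent.Strip051.G.IE1.StNa0
import Pool.Agent.Strip051.G.IE1.StNa1
import Pool.Agent.Strip051.G.IE1.StNa2
import Pool.Agent.Strip051.G.IE1.StNa3
import Pool.Agent.Strip051.G.IE1.StNa4
import Pool.Agent.Strip051.G.IE1.StNa5
import Pool.Agent.Strip051.G.IE1.StNa6

/-! # Strips StNaZ (generated) -/

set_option linter.all false
set_option maxRecDepth 100000

namespace Pool.Agent.Strip051.G.IE1.Tab.StN.C

open Pool.Agent.Strip051.PB Pool.Agent.Strip051.PB.T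
open Pool.Agent.StripNear Pool.Agent.Strip051.LC
open Pool.Agent.Strip051.G.IE1.Tab Pool.Agent.Strip051.G.IE1.Tab.St Pool.Agent.Strip051.G.IE1.Tab.StN

theorem t535_B70pp_101_s1 : ∃ t, chk3 f_B70pp_101_s1 t 6 1 1 = true := ex3_c k532_B70pp_101_s1 k533_B70pp_101_s1

theorem t536_B70pp_101_s1 : ∃ t, chk3 f_B70pp_101_s1 t 3 1 1 = true := ex3_a t535_B70pp_101_s1 k534_B70pp_101_s1

theorem t537_B70pp_101_s1 : ∃ t, chk3 f_B70pp_101_s1 t 22 3 1 = true := ex3_b k529_B70pp_101_s1 k530_B70pp_101_s1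

theorem t538_B70pp_101_s1 : ∃ t, chk3 f_B70pp_101_s1 t 11 3 1 = true := ex3_a t537_B70pp_101_s1 k531_B70pp_101_s1

theorem t539_B70pp_101_s1 : ∃ t, chk3 f_B70pp_101_s1 t 21 14 1 = true := ex3_b k526_B70pp_101_s1 k527_B70pp_101_s1

theorem t540_B70pp_101_s1 : ∃ t, chk3 f_B70pp_101_s1 t 21 7 1 = true := ex3_b t539_B70pp_101_s1 k528_B70pp_101_s1

theorem t541_B70pp_101_s1 : ∃ t, chk3 f_B70pp_101_s1 t 40 59 2 = true := ex3_b k521_B70pp_101_s1 k522_B70pp_101_s1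

theorem t542_B70pp_101_s1 : ∃ t, chk3 f_B70pp_101_s1 t 40 59 1 = true := ex3_c t541_B70pp_101_s1 k523_B70pp_101_s1

theorem t543_B70pp_101_s1 : ∃ t, chk3 f_B70pp_101_s1 t 20 59 1 = true := ex3_a t542_B70pp_101_s1 k524_B70pp_101_s1

theorem t544_B70pp_101_s1 : ∃ t, chk3 f_B70pp_101_s1 t 20 29 1 = true := ex3_b k520_B70pp_101_s1 t543_B70pp_101_s1

theorem t545_B70pp_101_s1 : ∃ t, chk3 f_B70pp_101_s1 t 20 14 1 = true := ex3_b k519_B70pp_101_s1 t544_B70pp_101_s1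

theorem t546_B70pp_101_s1 : ∃ t, chk3 f_B70pp_101_s1 t 20 7 1 = true := ex3_b t545_B70pp_101_s1 k525_B70pp_101_s1

theorem t547_B70pp_101_s1 : ∃ t, chk3 f_B70pp_101_s1 t 10 7 1 = true := ex3_a t546_B70pp_101_s1 t540_B70pp_101_s1

theorem t548_B70pp_101_s1 : ∃ t, chk3 f_B70pp_101_s1 t 10 3 1 = true := ex3_b k518_B70pp_101_s1 t547_B70pp_101_s1

theorem t549_B70pp_101_s1 : ∃ t, chk3 f_B70pp_101_s1 t 5 3 1 = true := ex3_a t548_B70pp_101_s1 t538_B70pp_101_s1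

theorem t550_B70pp_101_s1 : ∃ t, chk3 f_B70pp_101_s1 t 38 121 3 = true := ex3_a k513_B70pp_101_s1 k514_B70pp_101_s1

theorem t551_B70pp_101_s1 : ∃ t, chk3 f_B70pp_101_s1 t 38 60 3 = true := ex3_b k512_B70pp_101_s1 t550_B70pp_101_s1

theorem t552_B70pp_101_s1 : ∃ t, chk3 f_B70pp_101_s1 t 38 30 3 = true := ex3_b t551_B70pp_101_s1 k515_B70pp_101_s1

theorem t553_B70pp_101_s1 : ∃ t, chk3 f_B70pp_101_s1 t 19 30 3 = true := ex3_a t552_B70pp_101_s1 k516_B70pp_101_s1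

theorem t554_B70pp_101_s1 : ∃ t, chk3 f_B70pp_101_s1 t 19 15 3 = true := ex3_b t553_B70pp_101_s1 k517_B70pp_101_s1

theorem t555_B70pp_101_s1 : ∃ t, chk3 f_B70pp_101_s1 t 19 7 3 = true := ex3_b k511_B70pp_101_s1 t554_B70pp_101_s1

theorem t556_B70pp_101_s1 : ∃ t, chk3 f_B70pp_101_s1 t 156 240 2 = true := ex3_c k503_B70pp_101_s1 k504_B70pp_101_s1

theorem t557_B70pp_101_s1 : ∃ t, chk3 f_B70pp_101_s1 t 78 240 2 = true := ex3_a t556_B70pp_101_s1 k505_B70pp_101_s1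

theorem t558_B70pp_101_s1 : ∃ t, chk3 f_B70pp_101_s1 t 78 120 2 = true := ex3_b t557_B70pp_101_s1 k506_B70pp_101_s1

theorem t559_B70pp_101_s1 : ∃ t, chk3 f_B70pp_101_s1 t 39 120 2 = true := ex3_a t558_B70pp_101_s1 k507_B70pp_101_s1

theorem t560_B70pp_101_s1 : ∃ t, chk3 f_B70pp_101_s1 t 39 60 2 = true := ex3_b t559_B70pp_101_s1 k508_B70pp_101_s1

theorem t561_B70pp_101_s1 : ∃ t, chk3 f_B70pp_101_s1 t 39 30 2 = true := ex3_b t560_B70pp_101_s1 k509_B70pp_101_s1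

theorem t562_B70pp_101_s1 : ∃ t, chk3 f_B70pp_101_s1 t 153 242 4 = true := ex3_a k497_B70pp_101_s1 k498_B70pp_101_s1

theorem t563_B70pp_101_s1 : ∃ t, chk3 f_B70pp_101_s1 t 153 242 2 = true := ex3_c t562_B70pp_101_s1 k499_B70pp_101_s1

theorem t564_B70pp_101_s1 : ∃ t, chk3 f_B70pp_101_s1 t 153 121 2 = true := ex3_b t563_B70pp_101_s1 k500_B70pp_101_s1

theorem t565_B70pp_101_s1 : ∃ t, chk3 f_B70pp_101_s1 t 152 242 2 = true := ex3_c k494_B70pp_101_s1 k495_B70pp_101_s1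

theorem t566_B70pp_101_s1 : ∃ t, chk3 f_B70pp_101_s1 t 152 121 2 = true := ex3_b t565_B70pp_101_s1 k496_B70pp_101_s1

theorem t567_B70pp_101_s1 : ∃ t, chk3 f_B70pp_101_s1 t 76 121 2 = true := ex3_a t566_B70pp_101_s1 t564_B70pp_101_s1

theorem t568_B70pp_101_s1 : ∃ t, chk3 f_B70pp_101_s1 t 38 121 2 = true := ex3_a t567_B70pp_101_s1 k501_B70pp_101_s1

theorem t569_B70pp_101_s1 : ∃ t, chk3 f_B70pp_101_s1 t 155 482 2 = true := ex3_c k491_B70pp_101_s1 k492_B70pp_101_s1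

theorem t570_B70pp_101_s1 : ∃ t, chk3 f_B70pp_101_s1 t 155 241 2 = true := ex3_b t569_B70pp_101_s1 k493_B70pp_101_s1

theorem t571_B70pp_101_s1 : ∃ t, chk3 f_B70pp_101_s1 t 154 241 4 = true := ex3_b k488_B70pp_101_s1 k489_B70pp_101_s1

theorem t572_B70pp_101_s1 : ∃ t, chk3 f_B70pp_101_s1 t 154 241 2 = true := ex3_c t571_B70pp_101_s1 k490_B70pp_101_s1

theorem t573_B70pp_101_s1 : ∃ t, chk3 f_B70pp_101_s1 t 77 241 2 = true := ex3_a t572_B70pp_101_s1 t570_B70pp_101_s1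

theorem t574_B70pp_101_s1 : ∃ t, chk3 f_B70pp_101_s1 t 77 120 2 = true := ex3_b k487_B70pp_101_s1 t573_B70pp_101_s1

theorem t575_B70pp_101_s1 : ∃ t, chk3 f_B70pp_101_s1 t 38 120 2 = true := ex3_a k486_B70pp_101_s1 t574_B70pp_101_s1

theorem t576_B70pp_101_s1 : ∃ t, chk3 f_B70pp_101_s1 t 38 60 2 = true := ex3_b t575_B70pp_101_s1 t568_B70pp_101_s1

theorem t577_B70pp_101_s1 : ∃ t, chk3 f_B70pp_101_s1 t 38 30 2 = true := ex3_b t576_B70pp_101_s1 k502_B70pp_101_s1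

theorem t578_B70pp_101_s1 : ∃ t, chk3 f_B70pp_101_s1 t 19 30 2 = true := ex3_a t577_B70pp_101_s1 t561_B70pp_101_s1

theorem t579_B70pp_101_s1 : ∃ t, chk3 f_B70pp_101_s1 t 19 15 2 = true := ex3_b t578_B70pp_101_s1 k510_B70pp_101_s1

theorem t580_B70pp_101_s1 : ∃ t, chk3 f_B70pp_101_s1 t 79 119 2 = true := ex3_b k484_B70pp_101_s1 k485_B70pp_101_s1

theorem t581_B70pp_101_s1 : ∃ t, chk3 f_B70pp_101_s1 t 39 119 2 = true := ex3_a k483_B70pp_101_s1 t580_B70pp_101_s1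

theorem t582_B70pp_101_s1 : ∃ t, chk3 f_B70pp_101_s1 t 39 59 2 = true := ex3_b k482_B70pp_101_s1 t581_B70pp_101_s1

theorem t583_B70pp_101_s1 : ∃ t, chk3 f_B70pp_101_s1 t 39 29 2 = true := ex3_b k481_B70pp_101_s1 t582_B70pp_101_s1

theorem t584_B70pp_101_s1 : ∃ t, chk3 f_B70pp_101_s1 t 19 29 2 = true := ex3_a k480_B70pp_101_s1 t583_B70pp_101_s1

theorem t585_B70pp_101_s1 : ∃ t, chk3 f_B70pp_101_s1 t 19 14 2 = true := ex3_b k479_B70pp_101_s1 t584_B70pp_101_s1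

theorem t586_B70pp_101_s1 : ∃ t, chk3 f_B70pp_101_s1 t 19 7 2 = true := ex3_b t585_B70pp_101_s1 t579_B70pp_101_s1

theorem t587_B70pp_101_s1 : ∃ t, chk3 f_B70pp_101_s1 t 19 7 1 = true := ex3_c t586_B70pp_101_s1 t555_B70pp_101_s1

theorem t588_B70pp_101_s1 : ∃ t, chk3 f_B70pp_101_s1 t 74 122 3 = true := ex3_b k474_B70pp_101_s1 k475_B70pp_101_s1

theorem t589_B70pp_101_s1 : ∃ t, chk3 f_B70pp_101_s1 t 37 122 3 = true := ex3_a t588_B70pp_101_s1 k476_B70pp_101_s1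

theorem t590_B70pp_101_s1 : ∃ t, chk3 f_B70pp_101_s1 t 37 61 3 = true := ex3_b t589_B70pp_101_s1 k477_B70pp_101_s1

theorem t591_B70pp_101_s1 : ∃ t, chk3 f_B70pp_101_s1 t 37 30 3 = true := ex3_b k473_B70pp_101_s1 t590_B70pp_101_s1

theorem t592_B70pp_101_s1 : ∃ t, chk3 f_B70pp_101_s1 t 37 15 3 = true := ex3_b t591_B70pp_101_s1 k478_B70pp_101_s1

theorem t593_B70pp_101_s1 : ∃ t, chk3 f_B70pp_101_s1 t 144 247 3 = true := ex3_b k468_B70pp_101_s1 k469_B70pp_101_s1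

theorem t594_B70pp_101_s1 : ∃ t, chk3 f_B70pp_101_s1 t 72 247 3 = true := ex3_a t593_B70pp_101_s1 k470_B70pp_101_s1

theorem t595_B70pp_101_s1 : ∃ t, chk3 f_B70pp_101_s1 t 36 247 3 = true := ex3_a t594_B70pp_101_s1 k471_B70pp_101_s1

theorem t596_B70pp_101_s1 : ∃ t, chk3 f_B70pp_101_s1 t 146 492 3 = true := ex3_c k464_B70pp_101_s1 k465_B70pp_101_s1

theorem t597_B70pp_101_s1 : ∃ t, chk3 f_B70pp_101_s1 t 146 246 3 = true := ex3_b t596_B70pp_101_s1 k466_B70pp_101_s1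

theorem t598_B70pp_101_s1 : ∃ t, chk3 f_B70pp_101_s1 t 73 246 3 = true := ex3_a t597_B70pp_101_s1 k467_B70pp_101_s1

theorem t599_B70pp_101_s1 : ∃ t, chk3 f_B70pp_101_s1 t 36 246 3 = true := ex3_a k463_B70pp_101_s1 t598_B70pp_101_s1

theorem t600_B70pp_101_s1 : ∃ t, chk3 f_B70pp_101_s1 t 36 123 3 = true := ex3_b t599_B70pp_101_s1 t595_B70pp_101_s1

theorem t601_B70pp_101_s1 : ∃ t, chk3 f_B70pp_101_s1 t 36 61 3 = true := ex3_b k462_B70pp_101_s1 t600_B70pp_101_s1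

theorem t602_B70pp_101_s1 : ∃ t, chk3 f_B70pp_101_s1 t 36 30 3 = true := ex3_b k461_B70pp_101_s1 t601_B70pp_101_s1

theorem t603_B70pp_101_s1 : ∃ t, chk3 f_B70pp_101_s1 t 36 15 3 = true := ex3_b t602_B70pp_101_s1 k472_B70pp_101_s1

theorem t604_B70pp_101_s1 : ∃ t, chk3 f_B70pp_101_s1 t 18 15 3 = true := ex3_a t603_B70pp_101_s1 t592_B70pp_101_s1

theorem t605_B70pp_101_s1 : ∃ t, chk3 f_B70pp_101_s1 t 18 7 3 = true := ex3_b k460_B70pp_101_s1 t604_B70pp_101_s1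

theorem t606_B70pp_101_s1 : ∃ t, chk3 f_B70pp_101_s1 t 74 122 5 = true := ex3_b k455_B70pp_101_s1 k456_B70pp_101_s1

theorem t607_B70pp_101_s1 : ∃ t, chk3 f_B70pp_101_s1 t 37 122 5 = true := ex3_a t606_B70pp_101_s1 k457_B70pp_101_s1

theorem t608_B70pp_101_s1 : ∃ t, chk3 f_B70pp_101_s1 t 37 61 5 = true := ex3_b t607_B70pp_101_s1 k458_B70pp_101_s1

theorem t609_B70pp_101_s1 : ∃ t, chk3 f_B70pp_101_s1 t 75 243 5 = true := ex3_a k453_B70pp_101_s1 k454_B70pp_101_s1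

theorem t610_B70pp_101_s1 : ∃ t, chk3 f_B70pp_101_s1 t 75 121 5 = true := ex3_b k452_B70pp_101_s1 t609_B70pp_101_s1

theorem t611_B70pp_101_s1 : ∃ t, chk3 f_B70pp_101_s1 t 37 121 5 = true := ex3_a k451_B70pp_101_s1 t610_B70pp_101_s1

theorem t612_B70pp_101_s1 : ∃ t, chk3 f_B70pp_101_s1 t 37 60 5 = true := ex3_b k450_B70pp_101_s1 t611_B70pp_101_s1

theorem t613_B70pp_101_s1 : ∃ t, chk3 f_B70pp_101_s1 t 37 30 5 = true := ex3_b t612_B70pp_101_s1 t608_B70pp_101_s1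

theorem t614_B70pp_101_s1 : ∃ t, chk3 f_B70pp_101_s1 t 37 15 5 = true := ex3_b t613_B70pp_101_s1 k459_B70pp_101_s1

theorem t615_B70pp_101_s1 : ∃ t, chk3 f_B70pp_101_s1 t 148 490 4 = true := ex3_a k443_B70pp_101_s1 k444_B70pp_101_s1

theorem t616_B70pp_101_s1 : ∃ t, chk3 f_B70pp_101_s1 t 148 245 4 = true := ex3_b t615_B70pp_101_s1 k445_B70pp_101_s1

theorem t617_B70pp_101_s1 : ∃ t, chk3 f_B70pp_101_s1 t 74 245 4 = true := ex3_a t616_B70pp_101_s1 k446_B70pp_101_s1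

theorem t618_B70pp_101_s1 : ∃ t, chk3 f_B70pp_101_s1 t 74 244 8 = true := ex3_c k440_B70pp_101_s1 k441_B70pp_101_s1

theorem t619_B70pp_101_s1 : ∃ t, chk3 f_B70pp_101_s1 t 74 244 4 = true := ex3_c t618_B70pp_101_s1 k442_B70pp_101_s1

theorem t620_B70pp_101_s1 : ∃ t, chk3 f_B70pp_101_s1 t 74 122 4 = true := ex3_b t619_B70pp_101_s1 t617_B70pp_101_s1

theorem t621_B70pp_101_s1 : ∃ t, chk3 f_B70pp_101_s1 t 37 122 4 = true := ex3_a t620_B70pp_101_s1 k447_B70pp_101_s1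

theorem t622_B70pp_101_s1 : ∃ t, chk3 f_B70pp_101_s1 t 37 61 4 = true := ex3_b t621_B70pp_101_s1 k448_B70pp_101_s1

theorem t623_B70pp_101_s1 : ∃ t, chk3 f_B70pp_101_s1 t 151 243 4 = true := ex3_b k438_B70pp_101_s1 k439_B70pp_101_s1

theorem t624_B70pp_101_s1 : ∃ t, chk3 f_B70pp_101_s1 t 75 243 4 = true := ex3_a k437_B70pp_101_s1 t623_B70pp_101_s1

theorem t625_B70pp_101_s1 : ∃ t, chk3 f_B70pp_101_s1 t 75 121 4 = true := ex3_b k436_B70pp_101_s1 t624_B70pp_101_s1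

theorem t626_B70pp_101_s1 : ∃ t, chk3 f_B70pp_101_s1 t 75 60 4 = true := ex3_b k435_B70pp_101_s1 t625_B70pp_101_s1

theorem t627_B70pp_101_s1 : ∃ t, chk3 f_B70pp_101_s1 t 37 60 4 = true := ex3_a k434_B70pp_101_s1 t626_B70pp_101_s1

theorem t628_B70pp_101_s1 : ∃ t, chk3 f_B70pp_101_s1 t 37 30 4 = true := ex3_b t627_B70pp_101_s1 t622_B70pp_101_s1

theorem t629_B70pp_101_s1 : ∃ t, chk3 f_B70pp_101_s1 t 37 15 4 = true := ex3_b t628_B70pp_101_s1 k449_B70pp_101_s1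

theorem t630_B70pp_101_s1 : ∃ t, chk3 f_B70pp_101_s1 t 37 15 2 = true := ex3_c t629_B70pp_101_s1 t614_B70pp_101_s1

theorem t631_B70pp_101_s1 : ∃ t, chk3 f_B70pp_101_s1 t 37 7 2 = true := ex3_b k433_B70pp_101_s1 t630_B70pp_101_s1

theorem t632_B70pp_101_s1 : ∃ t, chk3 f_B70pp_101_s1 t 73 62 2 = true := ex3_b k430_B70pp_101_s1 k431_B70pp_101_s1

theorem t633_B70pp_101_s1 : ∃ t, chk3 f_B70pp_101_s1 t 73 31 2 = true := ex3_b t632_B70pp_101_s1 k432_B70pp_101_s1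

theorem t634_B70pp_101_s1 : ∃ t, chk3 f_B70pp_101_s1 t 293 984 2 = true := ex3_c k424_B70pp_101_s1 k425_B70pp_101_s1

theorem t635_B70pp_101_s1 : ∃ t, chk3 f_B70pp_101_s1 t 293 492 2 = true := ex3_b t634_B70pp_101_s1 k426_B70pp_101_s1

theorem t636_B70pp_101_s1 : ∃ t, chk3 f_B70pp_101_s1 t 292 492 2 = true := ex3_c k422_B70pp_101_s1 k423_B70pp_101_s1

theorem t637_B70pp_101_s1 : ∃ t, chk3 f_B70pp_101_s1 t 146 492 2 = true := ex3_a t636_B70pp_101_s1 t635_B70pp_101_s1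

theorem t638_B70pp_101_s1 : ∃ t, chk3 f_B70pp_101_s1 t 146 246 2 = true := ex3_b t637_B70pp_101_s1 k427_B70pp_101_s1

theorem t639_B70pp_101_s1 : ∃ t, chk3 f_B70pp_101_s1 t 73 246 2 = true := ex3_a t638_B70pp_101_s1 k428_B70pp_101_s1

theorem t640_B70pp_101_s1 : ∃ t, chk3 f_B70pp_101_s1 t 73 123 2 = true := ex3_b t639_B70pp_101_s1 k429_B70pp_101_s1

theorem t641_B70pp_101_s1 : ∃ t, chk3 f_B70pp_101_s1 t 147 491 5 = true := ex3_a k420_B70pp_101_s1 k421_B70pp_101_s1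

theorem t642_B70pp_101_s1 : ∃ t, chk3 f_B70pp_101_s1 t 147 245 5 = true := ex3_b k419_B70pp_101_s1 t641_B70pp_101_s1

theorem t643_B70pp_101_s1 : ∃ t, chk3 f_B70pp_101_s1 t 147 122 5 = true := ex3_b k418_B70pp_101_s1 t642_B70pp_101_s1

theorem t644_B70pp_101_s1 : ∃ t, chk3 f_B70pp_101_s1 t 73 122 5 = true := ex3_a k417_B70pp_101_s1 t643_B70pp_101_s1

theorem t645_B70pp_101_s1 : ∃ t, chk3 f_B70pp_101_s1 t 73 122 9 = true := ex3_a k415_B70pp_101_s1 k416_B70pp_101_s1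

theorem t646_B70pp_101_s1 : ∃ t, chk3 f_B70pp_101_s1 t 147 122 8 = true := ex3_c k413_B70pp_101_s1 k414_B70pp_101_s1

theorem t647_B70pp_101_s1 : ∃ t, chk3 f_B70pp_101_s1 t 73 122 8 = true := ex3_a k412_B70pp_101_s1 t646_B70pp_101_s1

theorem t648_B70pp_101_s1 : ∃ t, chk3 f_B70pp_101_s1 t 73 122 4 = true := ex3_c t647_B70pp_101_s1 t645_B70pp_101_s1

theorem t649_B70pp_101_s1 : ∃ t, chk3 f_B70pp_101_s1 t 73 122 2 = true := ex3_c t648_B70pp_101_s1 t644_B70pp_101_s1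

theorem t650_B70pp_101_s1 : ∃ t, chk3 f_B70pp_101_s1 t 73 61 2 = true := ex3_b t649_B70pp_101_s1 t640_B70pp_101_s1

theorem t651_B70pp_101_s1 : ∃ t, chk3 f_B70pp_101_s1 t 73 30 2 = true := ex3_b k411_B70pp_101_s1 t650_B70pp_101_s1

theorem t652_B70pp_101_s1 : ∃ t, chk3 f_B70pp_101_s1 t 73 15 2 = true := ex3_b t651_B70pp_101_s1 t633_B70pp_101_s1

theorem t653_B70pp_101_s1 : ∃ t, chk3 f_B70pp_101_s1 t 144 496 16 = true := ex3_c k401_B70pp_101_s1 k402_B70pp_101_s1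

theorem t654_B70pp_101_s1 : ∃ t, chk3 f_B70pp_101_s1 t 144 248 16 = true := ex3_b t653_B70pp_101_s1 k403_B70pp_101_s1

theorem t655_B70pp_101_s1 : ∃ t, chk3 f_B70pp_101_s1 t 72 248 16 = true := ex3_a t654_B70pp_101_s1 k404_B70pp_101_s1

theorem t656_B70pp_101_s1 : ∃ t, chk3 f_B70pp_101_s1 t 72 248 8 = true := ex3_c t655_B70pp_101_s1 k405_B70pp_101_s1

theorem t657_B70pp_101_s1 : ∃ t, chk3 f_B70pp_101_s1 t 72 124 8 = true := ex3_b t656_B70pp_101_s1 k406_B70pp_101_s1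

theorem t658_B70pp_101_s1 : ∃ t, chk3 f_B70pp_101_s1 t 72 124 4 = true := ex3_c t657_B70pp_101_s1 k407_B70pp_101_s1

theorem t659_B70pp_101_s1 : ∃ t, chk3 f_B70pp_101_s1 t 72 124 2 = true := ex3_c t658_B70pp_101_s1 k408_B70pp_101_s1

theorem t660_B70pp_101_s1 : ∃ t, chk3 f_B70pp_101_s1 t 72 62 2 = true := ex3_b t659_B70pp_101_s1 k409_B70pp_101_s1

theorem t661_B70pp_101_s1 : ∃ t, chk3 f_B70pp_101_s1 t 72 31 2 = true := ex3_b t660_B70pp_101_s1 k410_B70pp_101_s1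

theorem t662_B70pp_101_s1 : ∃ t, chk3 f_B70pp_101_s1 t 144 494 5 = true := ex3_a k397_B70pp_101_s1 k398_B70pp_101_s1

theorem t663_B70pp_101_s1 : ∃ t, chk3 f_B70pp_101_s1 t 144 247 5 = true := ex3_b t662_B70pp_101_s1 k399_B70pp_101_s1

theorem t664_B70pp_101_s1 : ∃ t, chk3 f_B70pp_101_s1 t 72 247 5 = true := ex3_a t663_B70pp_101_s1 k400_B70pp_101_s1

theorem t665_B70pp_101_s1 : ∃ t, chk3 f_B70pp_101_s1 t 145 493 5 = true := ex3_a k395_B70pp_101_s1 k396_B70pp_101_s1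

theorem t666_B70pp_101_s1 : ∃ t, chk3 f_B70pp_101_s1 t 145 246 5 = true := ex3_b k394_B70pp_101_s1 t665_B70pp_101_s1

theorem t667_B70pp_101_s1 : ∃ t, chk3 f_B70pp_101_s1 t 72 246 5 = true := ex3_a k393_B70pp_101_s1 t666_B70pp_101_s1

theorem t668_B70pp_101_s1 : ∃ t, chk3 f_B70pp_101_s1 t 72 123 5 = true := ex3_b t667_B70pp_101_s1 t664_B70pp_101_s1

theorem t669_B70pp_101_s1 : ∃ t, chk3 f_B70pp_101_s1 t 72 61 5 = true := ex3_b k392_B70pp_101_s1 t668_B70pp_101_s1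

theorem t670_B70pp_101_s1 : ∃ t, chk3 f_B70pp_101_s1 t 289 247 4 = true := ex3_b k389_B70pp_101_s1 k390_B70pp_101_s1

theorem t671_B70pp_101_s1 : ∃ t, chk3 f_B70pp_101_s1 t 288 495 8 = true := ex3_c k386_B70pp_101_s1 k387_B70pp_101_s1

theorem t672_B70pp_101_s1 : ∃ t, chk3 f_B70pp_101_s1 t 288 495 4 = true := ex3_c t671_B70pp_101_s1 k388_B70pp_101_s1

theorem t673_B70pp_101_s1 : ∃ t, chk3 f_B70pp_101_s1 t 288 247 4 = true := ex3_b k385_B70pp_101_s1 t672_B70pp_101_s1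

theorem t674_B70pp_101_s1 : ∃ t, chk3 f_B70pp_101_s1 t 144 247 4 = true := ex3_a t673_B70pp_101_s1 t670_B70pp_101_s1

theorem t675_B70pp_101_s1 : ∃ t, chk3 f_B70pp_101_s1 t 72 247 4 = true := ex3_a t674_B70pp_101_s1 k391_B70pp_101_s1

theorem t676_B70pp_101_s1 : ∃ t, chk3 f_B70pp_101_s1 t 72 246 4 = true := ex3_c k383_B70pp_101_s1 k384_B70pp_101_s1

theorem t677_B70pp_101_s1 : ∃ t, chk3 f_B70pp_101_s1 t 72 123 4 = true := ex3_b t676_B70pp_101_s1 t675_B70pp_101_s1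

theorem t678_B70pp_101_s1 : ∃ t, chk3 f_B70pp_101_s1 t 72 61 4 = true := ex3_b k382_B70pp_101_s1 t677_B70pp_101_s1

theorem t679_B70pp_101_s1 : ∃ t, chk3 f_B70pp_101_s1 t 72 61 2 = true := ex3_c t678_B70pp_101_s1 t669_B70pp_101_s1

theorem t680_B70pp_101_s1 : ∃ t, chk3 f_B70pp_101_s1 t 72 30 2 = true := ex3_b k381_B70pp_101_s1 t679_B70pp_101_s1

theorem t681_B70pp_101_s1 : ∃ t, chk3 f_B70pp_101_s1 t 72 15 2 = true := ex3_b t680_B70pp_101_s1 t661_B70pp_101_s1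

theorem t682_B70pp_101_s1 : ∃ t, chk3 f_B70pp_101_s1 t 36 15 2 = true := ex3_a t681_B70pp_101_s1 t652_B70pp_101_s1

theorem t683_B70pp_101_s1 : ∃ t, chk3 f_B70pp_101_s1 t 36 7 2 = true := ex3_b k380_B70pp_101_s1 t682_B70pp_101_s1

theorem t684_B70pp_101_s1 : ∃ t, chk3 f_B70pp_101_s1 t 18 7 2 = true := ex3_a t683_B70pp_101_s1 t631_B70pp_101_s1

theorem t685_B70pp_101_s1 : ∃ t, chk3 f_B70pp_101_s1 t 18 7 1 = true := ex3_c t684_B70pp_101_s1 t605_B70pp_101_s1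

theorem t686_B70pp_101_s1 : ∃ t, chk3 f_B70pp_101_s1 t 9 7 1 = true := ex3_a t685_B70pp_101_s1 t587_B70pp_101_s1

theorem t687_B70pp_101_s1 : ∃ t, chk3 f_B70pp_101_s1 t 280 499 3 = true := ex3_b k373_B70pp_101_s1 k374_B70pp_101_s1

theorem t688_B70pp_101_s1 : ∃ t, chk3 f_B70pp_101_s1 t 140 499 3 = true := ex3_a t687_B70pp_101_s1 k375_B70pp_101_s1

theorem t689_B70pp_101_s1 : ∃ t, chk3 f_B70pp_101_s1 t 140 249 3 = true := ex3_b k372_B70pp_101_s1 t688_B70pp_101_s1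

theorem t690_B70pp_101_s1 : ∃ t, chk3 f_B70pp_101_s1 t 70 249 3 = true := ex3_a t689_B70pp_101_s1 k376_B70pp_101_s1

theorem t691_B70pp_101_s1 : ∃ t, chk3 f_B70pp_101_s1 t 35 249 3 = true := ex3_a t690_B70pp_101_s1 k377_B70pp_101_s1

theorem t692_B70pp_101_s1 : ∃ t, chk3 f_B70pp_101_s1 t 142 248 3 = true := ex3_b k369_B70pp_101_s1 k370_B70pp_101_s1

theorem t693_B70pp_101_s1 : ∃ t, chk3 f_B70pp_101_s1 t 71 248 3 = true := ex3_a t692_B70pp_101_s1 k371_B70pp_101_s1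

theorem t694_B70pp_101_s1 : ∃ t, chk3 f_B70pp_101_s1 t 35 248 3 = true := ex3_a k368_B70pp_101_s1 t693_B70pp_101_s1

theorem t695_B70pp_101_s1 : ∃ t, chk3 f_B70pp_101_s1 t 35 124 3 = true := ex3_b t694_B70pp_101_s1 t691_B70pp_101_s1

theorem t696_B70pp_101_s1 : ∃ t, chk3 f_B70pp_101_s1 t 35 62 3 = true := ex3_b t695_B70pp_101_s1 k378_B70pp_101_s1

theorem t697_B70pp_101_s1 : ∃ t, chk3 f_B70pp_101_s1 t 35 31 3 = true := ex3_b t696_B70pp_101_s1 k379_B70pp_101_s1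

theorem t698_B70pp_101_s1 : ∃ t, chk3 f_B70pp_101_s1 t 35 15 3 = true := ex3_b k367_B70pp_101_s1 t697_B70pp_101_s1

theorem t699_B70pp_101_s1 : ∃ t, chk3 f_B70pp_101_s1 t 34 62 7 = true := ex3_b k364_B70pp_101_s1 k365_B70pp_101_s1

theorem t700_B70pp_101_s1 : ∃ t, chk3 f_B70pp_101_s1 t 34 31 7 = true := ex3_b t699_B70pp_101_s1 k366_B70pp_101_s1

theorem t701_B70pp_101_s1 : ∃ t, chk3 f_B70pp_101_s1 t 278 1000 6 = true := ex3_a k357_B70pp_101_s1 k358_B70pp_101_s1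

theorem t702_B70pp_101_s1 : ∃ t, chk3 f_B70pp_101_s1 t 278 500 6 = true := ex3_b t701_B70pp_101_s1 k359_B70pp_101_s1

theorem t703_B70pp_101_s1 : ∃ t, chk3 f_B70pp_101_s1 t 139 500 6 = true := ex3_a t702_B70pp_101_s1 k360_B70pp_101_s1

theorem t704_B70pp_101_s1 : ∃ t, chk3 f_B70pp_101_s1 t 139 250 6 = true := ex3_b t703_B70pp_101_s1 k361_B70pp_101_s1

theorem t705_B70pp_101_s1 : ∃ t, chk3 f_B70pp_101_s1 t 138 500 6 = true := ex3_c k354_B70pp_101_s1 k355_B70pp_101_s1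

theorem t706_B70pp_101_s1 : ∃ t, chk3 f_B70pp_101_s1 t 138 250 6 = true := ex3_b t705_B70pp_101_s1 k356_B70pp_101_s1

theorem t707_B70pp_101_s1 : ∃ t, chk3 f_B70pp_101_s1 t 69 250 6 = true := ex3_a t706_B70pp_101_s1 t704_B70pp_101_s1

theorem t708_B70pp_101_s1 : ∃ t, chk3 f_B70pp_101_s1 t 34 250 6 = true := ex3_a k353_B70pp_101_s1 t707_B70pp_101_s1

theorem t709_B70pp_101_s1 : ∃ t, chk3 f_B70pp_101_s1 t 34 125 6 = true := ex3_b t708_B70pp_101_s1 k362_B70pp_101_s1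

theorem t710_B70pp_101_s1 : ∃ t, chk3 f_B70pp_101_s1 t 34 62 6 = true := ex3_b k352_B70pp_101_s1 t709_B70pp_101_s1

theorem t711_B70pp_101_s1 : ∃ t, chk3 f_B70pp_101_s1 t 34 31 6 = true := ex3_b t710_B70pp_101_s1 k363_B70pp_101_s1

theorem t712_B70pp_101_s1 : ∃ t, chk3 f_B70pp_101_s1 t 34 31 3 = true := ex3_c t711_B70pp_101_s1 t700_B70pp_101_s1

theorem t713_B70pp_101_s1 : ∃ t, chk3 f_B70pp_101_s1 t 34 15 3 = true := ex3_b k351_B70pp_101_s1 t712_B70pp_101_s1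

theorem t714_B70pp_101_s1 : ∃ t, chk3 f_B70pp_101_s1 t 17 15 3 = true := ex3_a t713_B70pp_101_s1 t698_B70pp_101_s1

theorem t715_B70pp_101_s1 : ∃ t, chk3 f_B70pp_101_s1 t 35 63 5 = true := ex3_b k349_B70pp_101_s1 k350_B70pp_101_s1

theorem t716_B70pp_101_s1 : ∃ t, chk3 f_B70pp_101_s1 t 280 500 40 = true := ex3_b k339_B70pp_101_s1 k340_B70pp_101_s1

theorem t717_B70pp_101_s1 : ∃ t, chk3 f_B70pp_101_s1 t 140 500 40 = true := ex3_a t716_B70pp_101_s1 k341_B70pp_101_s1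

theorem t718_B70pp_101_s1 : ∃ t, chk3 f_B70pp_101_s1 t 140 500 20 = true := ex3_c t717_B70pp_101_s1 k342_B70pp_101_s1

theorem t719_B70pp_101_s1 : ∃ t, chk3 f_B70pp_101_s1 t 140 250 20 = true := ex3_b t718_B70pp_101_s1 k343_B70pp_101_s1

theorem t720_B70pp_101_s1 : ∃ t, chk3 f_B70pp_101_s1 t 70 250 20 = true := ex3_a t719_B70pp_101_s1 k344_B70pp_101_s1

theorem t721_B70pp_101_s1 : ∃ t, chk3 f_B70pp_101_s1 t 35 250 20 = true := ex3_a t720_B70pp_101_s1 k345_B70pp_101_s1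

theorem t722_B70pp_101_s1 : ∃ t, chk3 f_B70pp_101_s1 t 35 250 10 = true := ex3_c t721_B70pp_101_s1 k346_B70pp_101_s1

theorem t723_B70pp_101_s1 : ∃ t, chk3 f_B70pp_101_s1 t 35 125 10 = true := ex3_b t722_B70pp_101_s1 k347_B70pp_101_s1

theorem t724_B70pp_101_s1 : ∃ t, chk3 f_B70pp_101_s1 t 35 125 5 = true := ex3_c t723_B70pp_101_s1 k348_B70pp_101_s1

theorem t725_B70pp_101_s1 : ∃ t, chk3 f_B70pp_101_s1 t 282 498 5 = true := ex3_b k334_B70pp_101_s1 k335_B70pp_101_s1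

theorem t726_B70pp_101_s1 : ∃ t, chk3 f_B70pp_101_s1 t 141 498 5 = true := ex3_a t725_B70pp_101_s1 k336_B70pp_101_s1

theorem t727_B70pp_101_s1 : ∃ t, chk3 f_B70pp_101_s1 t 141 249 5 = true := ex3_b t726_B70pp_101_s1 k337_B70pp_101_s1

theorem t728_B70pp_101_s1 : ∃ t, chk3 f_B70pp_101_s1 t 140 999 20 = true := ex3_c k330_B70pp_101_s1 k331_B70pp_101_s1

theorem t729_B70pp_101_s1 : ∃ t, chk3 f_B70pp_101_s1 t 140 999 10 = true := ex3_c t728_B70pp_101_s1 k332_B70pp_101_s1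

theorem t730_B70pp_101_s1 : ∃ t, chk3 f_B70pp_101_s1 t 140 999 5 = true := ex3_c t729_B70pp_101_s1 k333_B70pp_101_s1

theorem t731_B70pp_101_s1 : ∃ t, chk3 f_B70pp_101_s1 t 280 998 5 = true := ex3_c k327_B70pp_101_s1 k328_B70pp_101_s1

theorem t732_B70pp_101_s1 : ∃ t, chk3 f_B70pp_101_s1 t 140 998 5 = true := ex3_a t731_B70pp_101_s1 k329_B70pp_101_s1

theorem t733_B70pp_101_s1 : ∃ t, chk3 f_B70pp_101_s1 t 140 499 5 = true := ex3_b t732_B70pp_101_s1 t730_B70pp_101_s1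

theorem t734_B70pp_101_s1 : ∃ t, chk3 f_B70pp_101_s1 t 140 249 5 = true := ex3_b k326_B70pp_101_s1 t733_B70pp_101_s1

theorem t735_B70pp_101_s1 : ∃ t, chk3 f_B70pp_101_s1 t 70 249 5 = true := ex3_a t734_B70pp_101_s1 t727_B70pp_101_s1

theorem t736_B70pp_101_s1 : ∃ t, chk3 f_B70pp_101_s1 t 35 249 5 = true := ex3_a t735_B70pp_101_s1 k338_B70pp_101_s1

theorem t737_B70pp_101_s1 : ∃ t, chk3 f_B70pp_101_s1 t 142 496 5 = true := ex3_c k322_B70pp_101_s1 k323_B70pp_101_s1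

theorem t738_B70pp_101_s1 : ∃ t, chk3 f_B70pp_101_s1 t 142 248 5 = true := ex3_b t737_B70pp_101_s1 k324_B70pp_101_s1

theorem t739_B70pp_101_s1 : ∃ t, chk3 f_B70pp_101_s1 t 71 248 5 = true := ex3_a t738_B70pp_101_s1 k325_B70pp_101_s1

theorem t740_B70pp_101_s1 : ∃ t, chk3 f_B70pp_101_s1 t 141 248 5 = true := ex3_c k320_B70pp_101_s1 k321_B70pp_101_s1

theorem t741_B70pp_101_s1 : ∃ t, chk3 f_B70pp_101_s1 t 70 248 5 = true := ex3_a k319_B70pp_101_s1 t740_B70pp_101_s1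

theorem t742_B70pp_101_s1 : ∃ t, chk3 f_B70pp_101_s1 t 35 248 5 = true := ex3_a t741_B70pp_101_s1 t739_B70pp_101_s1

theorem t743_B70pp_101_s1 : ∃ t, chk3 f_B70pp_101_s1 t 35 124 5 = true := ex3_b t742_B70pp_101_s1 t736_B70pp_101_s1

theorem t744_B70pp_101_s1 : ∃ t, chk3 f_B70pp_101_s1 t 35 62 5 = true := ex3_b t743_B70pp_101_s1 t724_B70pp_101_s1

theorem t745_B70pp_101_s1 : ∃ t, chk3 f_B70pp_101_s1 t 35 31 5 = true := ex3_b t744_B70pp_101_s1 t715_B70pp_101_s1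

theorem t746_B70pp_101_s1 : ∃ t, chk3 f_B70pp_101_s1 t 70 63 4 = true := ex3_c k316_B70pp_101_s1 k317_B70pp_101_s1

theorem t747_B70pp_101_s1 : ∃ t, chk3 f_B70pp_101_s1 t 35 63 4 = true := ex3_a t746_B70pp_101_s1 k318_B70pp_101_s1

theorem t748_B70pp_101_s1 : ∃ t, chk3 f_B70pp_101_s1 t 142 498 18 = true := ex3_c k310_B70pp_101_s1 k311_B70pp_101_s1

theorem t749_B70pp_101_s1 : ∃ t, chk3 f_B70pp_101_s1 t 142 249 18 = true := ex3_b t748_B70pp_101_s1 k312_B70pp_101_s1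

theorem t750_B70pp_101_s1 : ∃ t, chk3 f_B70pp_101_s1 t 71 249 18 = true := ex3_a t749_B70pp_101_s1 k313_B70pp_101_s1

theorem t751_B70pp_101_s1 : ∃ t, chk3 f_B70pp_101_s1 t 71 249 9 = true := ex3_c t750_B70pp_101_s1 k314_B70pp_101_s1

theorem t752_B70pp_101_s1 : ∃ t, chk3 f_B70pp_101_s1 t 284 497 9 = true := ex3_b k306_B70pp_101_s1 k307_B70pp_101_s1

theorem t753_B70pp_101_s1 : ∃ t, chk3 f_B70pp_101_s1 t 142 497 9 = true := ex3_a t752_B70pp_101_s1 k308_B70pp_101_s1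

theorem t754_B70pp_101_s1 : ∃ t, chk3 f_B70pp_101_s1 t 71 497 9 = true := ex3_a t753_B70pp_101_s1 k309_B70pp_101_s1

theorem t755_B70pp_101_s1 : ∃ t, chk3 f_B70pp_101_s1 t 71 248 9 = true := ex3_b k305_B70pp_101_s1 t754_B70pp_101_s1

theorem t756_B70pp_101_s1 : ∃ t, chk3 f_B70pp_101_s1 t 71 124 9 = true := ex3_b t755_B70pp_101_s1 t751_B70pp_101_s1

theorem t757_B70pp_101_s1 : ∃ t, chk3 f_B70pp_101_s1 t 71 62 9 = true := ex3_b t756_B70pp_101_s1 k315_B70pp_101_s1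

theorem t758_B70pp_101_s1 : ∃ t, chk3 f_B70pp_101_s1 t 141 125 18 = true := ex3_b k302_B70pp_101_s1 k303_B70pp_101_s1

theorem t759_B70pp_101_s1 : ∃ t, chk3 f_B70pp_101_s1 t 141 125 9 = true := ex3_c t758_B70pp_101_s1 k304_B70pp_101_s1

theorem t760_B70pp_101_s1 : ∃ t, chk3 f_B70pp_101_s1 t 141 499 38 = true := ex3_a k299_B70pp_101_s1 k300_B70pp_101_s1

theorem t761_B70pp_101_s1 : ∃ t, chk3 f_B70pp_101_s1 t 141 499 19 = true := ex3_c t760_B70pp_101_s1 k301_B70pp_101_s1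

theorem t762_B70pp_101_s1 : ∃ t, chk3 f_B70pp_101_s1 t 141 498 19 = true := ex3_b k297_B70pp_101_s1 k298_B70pp_101_s1

theorem t763_B70pp_101_s1 : ∃ t, chk3 f_B70pp_101_s1 t 141 249 19 = true := ex3_b t762_B70pp_101_s1 t761_B70pp_101_s1

theorem t764_B70pp_101_s1 : ∃ t, chk3 f_B70pp_101_s1 t 141 124 19 = true := ex3_b k296_B70pp_101_s1 t763_B70pp_101_s1

theorem t765_B70pp_101_s1 : ∃ t, chk3 f_B70pp_101_s1 t 141 499 37 = true := ex3_a k294_B70pp_101_s1 k295_B70pp_101_s1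

theorem t766_B70pp_101_s1 : ∃ t, chk3 f_B70pp_101_s1 t 141 499 18 = true := ex3_c k293_B70pp_101_s1 t765_B70pp_101_s1

theorem t767_B70pp_101_s1 : ∃ t, chk3 f_B70pp_101_s1 t 283 498 74 = true := ex3_b k290_B70pp_101_s1 k291_B70pp_101_s1

theorem t768_B70pp_101_s1 : ∃ t, chk3 f_B70pp_101_s1 t 283 498 37 = true := ex3_c t767_B70pp_101_s1 k292_B70pp_101_s1

theorem t769_B70pp_101_s1 : ∃ t, chk3 f_B70pp_101_s1 t 567 498 36 = true := ex3_c k288_B70pp_101_s1 k289_B70pp_101_s1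

theorem t770_B70pp_101_s1 : ∃ t, chk3 f_B70pp_101_s1 t 283 498 36 = true := ex3_a k287_B70pp_101_s1 t769_B70pp_101_s1

theorem t771_B70pp_101_s1 : ∃ t, chk3 f_B70pp_101_s1 t 283 498 18 = true := ex3_c t770_B70pp_101_s1 t768_B70pp_101_s1

theorem t772_B70pp_101_s1 : ∃ t, chk3 f_B70pp_101_s1 t 565 997 37 = true := ex3_c k285_B70pp_101_s1 k286_B70pp_101_s1

theorem t773_B70pp_101_s1 : ∃ t, chk3 f_B70pp_101_s1 t 282 997 37 = true := ex3_a k284_B70pp_101_s1 t772_B70pp_101_s1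

theorem t774_B70pp_101_s1 : ∃ t, chk3 f_B70pp_101_s1 t 282 498 37 = true := ex3_b k283_B70pp_101_s1 t773_B70pp_101_s1

theorem t775_B70pp_101_s1 : ∃ t, chk3 f_B70pp_101_s1 t 282 498 18 = true := ex3_c k282_B70pp_101_s1 t774_B70pp_101_s1

theorem t776_B70pp_101_s1 : ∃ t, chk3 f_B70pp_101_s1 t 141 498 18 = true := ex3_a t775_B70pp_101_s1 t771_B70pp_101_s1

theorem t777_B70pp_101_s1 : ∃ t, chk3 f_B70pp_101_s1 t 141 249 18 = true := ex3_b t776_B70pp_101_s1 t766_B70pp_101_s1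

theorem t778_B70pp_101_s1 : ∃ t, chk3 f_B70pp_101_s1 t 141 124 18 = true := ex3_b k281_B70pp_101_s1 t777_B70pp_101_s1

theorem t779_B70pp_101_s1 : ∃ t, chk3 f_B70pp_101_s1 t 141 124 9 = true := ex3_c t778_B70pp_101_s1 t764_B70pp_101_s1

theorem t780_B70pp_101_s1 : ∃ t, chk3 f_B70pp_101_s1 t 141 62 9 = true := ex3_b t779_B70pp_101_s1 t759_B70pp_101_s1

theorem t781_B70pp_101_s1 : ∃ t, chk3 f_B70pp_101_s1 t 281 250 19 = true := ex3_c k278_B70pp_101_s1 k279_B70pp_101_s1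

theorem t782_B70pp_101_s1 : ∃ t, chk3 f_B70pp_101_s1 t 280 250 19 = true := ex3_c k276_B70pp_101_s1 k277_B70pp_101_s1

theorem t783_B70pp_101_s1 : ∃ t, chk3 f_B70pp_101_s1 t 140 250 19 = true := ex3_a t782_B70pp_101_s1 t781_B70pp_101_s1

theorem t784_B70pp_101_s1 : ∃ t, chk3 f_B70pp_101_s1 t 140 125 19 = true := ex3_b t783_B70pp_101_s1 k280_B70pp_101_s1

theorem t785_B70pp_101_s1 : ∃ t, chk3 f_B70pp_101_s1 t 281 499 78 = true := ex3_b k273_B70pp_101_s1 k274_B70pp_101_s1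

theorem t786_B70pp_101_s1 : ∃ t, chk3 f_B70pp_101_s1 t 281 499 39 = true := ex3_c t785_B70pp_101_s1 k275_B70pp_101_s1

theorem t787_B70pp_101_s1 : ∃ t, chk3 f_B70pp_101_s1 t 281 249 39 = true := ex3_b k272_B70pp_101_s1 t786_B70pp_101_s1

theorem t788_B70pp_101_s1 : ∃ t, chk3 f_B70pp_101_s1 t 563 998 38 = true := ex3_c k269_B70pp_101_s1 k270_B70pp_101_s1

theorem t789_B70pp_101_s1 : ∃ t, chk3 f_B70pp_101_s1 t 281 998 38 = true := ex3_a k268_B70pp_101_s1 t788_B70pp_101_s1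

theorem t790_B70pp_101_s1 : ∃ t, chk3 f_B70pp_101_s1 t 281 499 38 = true := ex3_b t789_B70pp_101_s1 k271_B70pp_101_s1

theorem t791_B70pp_101_s1 : ∃ t, chk3 f_B70pp_101_s1 t 281 249 38 = true := ex3_b k267_B70pp_101_s1 t790_B70pp_101_s1

theorem t792_B70pp_101_s1 : ∃ t, chk3 f_B70pp_101_s1 t 281 249 19 = true := ex3_c t791_B70pp_101_s1 t787_B70pp_101_s1

theorem t793_B70pp_101_s1 : ∃ t, chk3 f_B70pp_101_s1 t 561 999 39 = true := ex3_c k265_B70pp_101_s1 k266_B70pp_101_s1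

theorem t794_B70pp_101_s1 : ∃ t, chk3 f_B70pp_101_s1 t 561 499 39 = true := ex3_b k264_B70pp_101_s1 t793_B70pp_101_s1

theorem t795_B70pp_101_s1 : ∃ t, chk3 f_B70pp_101_s1 t 280 499 39 = true := ex3_a k263_B70pp_101_s1 t794_B70pp_101_s1

theorem t796_B70pp_101_s1 : ∃ t, chk3 f_B70pp_101_s1 t 280 499 19 = true := ex3_c k262_B70pp_101_s1 t795_B70pp_101_s1

theorem t797_B70pp_101_s1 : ∃ t, chk3 f_B70pp_101_s1 t 280 249 19 = true := ex3_b k261_B70pp_101_s1 t796_B70pp_101_s1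

theorem t798_B70pp_101_s1 : ∃ t, chk3 f_B70pp_101_s1 t 140 249 19 = true := ex3_a t797_B70pp_101_s1 t792_B70pp_101_s1

theorem t799_B70pp_101_s1 : ∃ t, chk3 f_B70pp_101_s1 t 140 124 19 = true := ex3_b k260_B70pp_101_s1 t798_B70pp_101_s1

theorem t800_B70pp_101_s1 : ∃ t, chk3 f_B70pp_101_s1 t 140 62 19 = true := ex3_b t799_B70pp_101_s1 t784_B70pp_101_s1

theorem t801_B70pp_101_s1 : ∃ t, chk3 f_B70pp_101_s1 t 140 250 37 = true := ex3_b k257_B70pp_101_s1 k258_B70pp_101_s1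

theorem t802_B70pp_101_s1 : ∃ t, chk3 f_B70pp_101_s1 t 280 500 36 = true := ex3_a k253_B70pp_101_s1 k254_B70pp_101_s1

theorem t803_B70pp_101_s1 : ∃ t, chk3 f_B70pp_101_s1 t 280 250 36 = true := ex3_b t802_B70pp_101_s1 k255_B70pp_101_s1

theorem t804_B70pp_101_s1 : ∃ t, chk3 f_B70pp_101_s1 t 140 250 36 = true := ex3_a t803_B70pp_101_s1 k256_B70pp_101_s1

theorem t805_B70pp_101_s1 : ∃ t, chk3 f_B70pp_101_s1 t 140 250 18 = true := ex3_c t804_B70pp_101_s1 t801_B70pp_101_s1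

theorem t806_B70pp_101_s1 : ∃ t, chk3 f_B70pp_101_s1 t 140 125 18 = true := ex3_b t805_B70pp_101_s1 k259_B70pp_101_s1

theorem t807_B70pp_101_s1 : ∃ t, chk3 f_B70pp_101_s1 t 281 249 18 = true := ex3_b k251_B70pp_101_s1 k252_B70pp_101_s1

theorem t808_B70pp_101_s1 : ∃ t, chk3 f_B70pp_101_s1 t 561 999 72 = true := ex3_c k247_B70pp_101_s1 k248_B70pp_101_s1

theorem t809_B70pp_101_s1 : ∃ t, chk3 f_B70pp_101_s1 t 561 999 36 = true := ex3_c t808_B70pp_101_s1 k249_B70pp_101_s1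

theorem t810_B70pp_101_s1 : ∃ t, chk3 f_B70pp_101_s1 t 561 499 36 = true := ex3_b k246_B70pp_101_s1 t809_B70pp_101_s1

theorem t811_B70pp_101_s1 : ∃ t, chk3 f_B70pp_101_s1 t 560 999 73 = true := ex3_b k244_B70pp_101_s1 k245_B70pp_101_s1

theorem t812_B70pp_101_s1 : ∃ t, chk3 f_B70pp_101_s1 t 560 999 36 = true := ex3_c k243_B70pp_101_s1 t811_B70pp_101_s1

theorem t813_B70pp_101_s1 : ∃ t, chk3 f_B70pp_101_s1 t 560 499 36 = true := ex3_b k242_B70pp_101_s1 t812_B70pp_101_s1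

theorem t814_B70pp_101_s1 : ∃ t, chk3 f_B70pp_101_s1 t 280 499 36 = true := ex3_a t813_B70pp_101_s1 t810_B70pp_101_s1

theorem t815_B70pp_101_s1 : ∃ t, chk3 f_B70pp_101_s1 t 280 499 18 = true := ex3_c t814_B70pp_101_s1 k250_B70pp_101_s1

theorem t816_B70pp_101_s1 : ∃ t, chk3 f_B70pp_101_s1 t 280 249 18 = true := ex3_b k241_B70pp_101_s1 t815_B70pp_101_s1

theorem t817_B70pp_101_s1 : ∃ t, chk3 f_B70pp_101_s1 t 140 249 18 = true := ex3_a t816_B70pp_101_s1 t807_B70pp_101_s1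

theorem t818_B70pp_101_s1 : ∃ t, chk3 f_B70pp_101_s1 t 140 124 18 = true := ex3_b k240_B70pp_101_s1 t817_B70pp_101_s1

theorem t819_B70pp_101_s1 : ∃ t, chk3 f_B70pp_101_s1 t 140 62 18 = true := ex3_b t818_B70pp_101_s1 t806_B70pp_101_s1

theorem t820_B70pp_101_s1 : ∃ t, chk3 f_B70pp_101_s1 t 140 62 9 = true := ex3_c t819_B70pp_101_s1 t800_B70pp_101_s1

theorem t821_B70pp_101_s1 : ∃ t, chk3 f_B70pp_101_s1 t 70 62 9 = true := ex3_a t820_B70pp_101_s1 t780_B70pp_101_s1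

theorem t822_B70pp_101_s1 : ∃ t, chk3 f_B70pp_101_s1 t 35 62 9 = true := ex3_a t821_B70pp_101_s1 t757_B70pp_101_s1

theorem t823_B70pp_101_s1 : ∃ t, chk3 f_B70pp_101_s1 t 142 125 8 = true := ex3_c k237_B70pp_101_s1 k238_B70pp_101_s1

theorem t824_B70pp_101_s1 : ∃ t, chk3 f_B70pp_101_s1 t 71 125 8 = true := ex3_a t823_B70pp_101_s1 k239_B70pp_101_s1

theorem t825_B70pp_101_s1 : ∃ t, chk3 f_B70pp_101_s1 t 143 249 8 = true := ex3_c k235_B70pp_101_s1 k236_B70pp_101_s1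

theorem t826_B70pp_101_s1 : ∃ t, chk3 f_B70pp_101_s1 t 286 496 17 = true := ex3_b k231_B70pp_101_s1 k232_B70pp_101_s1

theorem t827_B70pp_101_s1 : ∃ t, chk3 f_B70pp_101_s1 t 143 496 17 = true := ex3_a t826_B70pp_101_s1 k233_B70pp_101_s1

theorem t828_B70pp_101_s1 : ∃ t, chk3 f_B70pp_101_s1 t 143 248 17 = true := ex3_b t827_B70pp_101_s1 k234_B70pp_101_s1

theorem t829_B70pp_101_s1 : ∃ t, chk3 f_B70pp_101_s1 t 143 497 16 = true := ex3_c k229_B70pp_101_s1 k230_B70pp_101_s1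

theorem t830_B70pp_101_s1 : ∃ t, chk3 f_B70pp_101_s1 t 287 496 33 = true := ex3_b k227_B70pp_101_s1 k228_B70pp_101_s1

theorem t831_B70pp_101_s1 : ∃ t, chk3 f_B70pp_101_s1 t 287 496 32 = true := ex3_a k225_B70pp_101_s1 k226_B70pp_101_s1

theorem t832_B70pp_101_s1 : ∃ t, chk3 f_B70pp_101_s1 t 287 496 16 = true := ex3_c t831_B70pp_101_s1 t830_B70pp_101_s1

theorem t833_B70pp_101_s1 : ∃ t, chk3 f_B70pp_101_s1 t 286 496 33 = true := ex3_b k223_B70pp_101_s1 k224_B70pp_101_s1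

theorem t834_B70pp_101_s1 : ∃ t, chk3 f_B70pp_101_s1 t 286 496 16 = true := ex3_c k222_B70pp_101_s1 t833_B70pp_101_s1

theorem t835_B70pp_101_s1 : ∃ t, chk3 f_B70pp_101_s1 t 143 496 16 = true := ex3_a t834_B70pp_101_s1 t832_B70pp_101_s1

theorem t836_B70pp_101_s1 : ∃ t, chk3 f_B70pp_101_s1 t 143 248 16 = true := ex3_b t835_B70pp_101_s1 t829_B70pp_101_s1

theorem t837_B70pp_101_s1 : ∃ t, chk3 f_B70pp_101_s1 t 143 248 8 = true := ex3_c t836_B70pp_101_s1 t828_B70pp_101_s1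

theorem t838_B70pp_101_s1 : ∃ t, chk3 f_B70pp_101_s1 t 143 124 8 = true := ex3_b t837_B70pp_101_s1 t825_B70pp_101_s1

theorem t839_B70pp_101_s1 : ∃ t, chk3 f_B70pp_101_s1 t 142 249 17 = true := ex3_a k220_B70pp_101_s1 k221_B70pp_101_s1

theorem t840_B70pp_101_s1 : ∃ t, chk3 f_B70pp_101_s1 t 284 498 32 = true := ex3_a k215_B70pp_101_s1 k216_B70pp_101_s1

theorem t841_B70pp_101_s1 : ∃ t, chk3 f_B70pp_101_s1 t 284 249 32 = true := ex3_b t840_B70pp_101_s1 k217_B70pp_101_s1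

theorem t842_B70pp_101_s1 : ∃ t, chk3 f_B70pp_101_s1 t 142 249 32 = true := ex3_a t841_B70pp_101_s1 k218_B70pp_101_s1

theorem t843_B70pp_101_s1 : ∃ t, chk3 f_B70pp_101_s1 t 142 249 16 = true := ex3_c t842_B70pp_101_s1 k219_B70pp_101_s1

theorem t844_B70pp_101_s1 : ∃ t, chk3 f_B70pp_101_s1 t 142 249 8 = true := ex3_c t843_B70pp_101_s1 t839_B70pp_101_s1

theorem t845_B70pp_101_s1 : ∃ t, chk3 f_B70pp_101_s1 t 285 497 35 = true := ex3_b k213_B70pp_101_s1 k214_B70pp_101_s1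

theorem t846_B70pp_101_s1 : ∃ t, chk3 f_B70pp_101_s1 t 285 497 34 = true := ex3_a k211_B70pp_101_s1 k212_B70pp_101_s1

theorem t847_B70pp_101_s1 : ∃ t, chk3 f_B70pp_101_s1 t 285 497 17 = true := ex3_c t846_B70pp_101_s1 t845_B70pp_101_s1

theorem t848_B70pp_101_s1 : ∃ t, chk3 f_B70pp_101_s1 t 284 995 35 = true := ex3_a k209_B70pp_101_s1 k210_B70pp_101_s1

theorem t849_B70pp_101_s1 : ∃ t, chk3 f_B70pp_101_s1 t 284 497 35 = true := ex3_b k208_B70pp_101_s1 t848_B70pp_101_s1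

theorem t850_B70pp_101_s1 : ∃ t, chk3 f_B70pp_101_s1 t 284 497 17 = true := ex3_c k207_B70pp_101_s1 t849_B70pp_101_s1

theorem t851_B70pp_101_s1 : ∃ t, chk3 f_B70pp_101_s1 t 142 497 17 = true := ex3_a t850_B70pp_101_s1 t847_B70pp_101_s1

theorem t852_B70pp_101_s1 : ∃ t, chk3 f_B70pp_101_s1 t 142 248 17 = true := ex3_b k206_B70pp_101_s1 t851_B70pp_101_s1

theorem t853_B70pp_101_s1 : ∃ t, chk3 f_B70pp_101_s1 t 284 995 32 = true := ex3_a k202_B70pp_101_s1 k203_B70pp_101_s1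

theorem t854_B70pp_101_s1 : ∃ t, chk3 f_B70pp_101_s1 t 284 995 16 = true := ex3_c t853_B70pp_101_s1 k204_B70pp_101_s1

theorem t855_B70pp_101_s1 : ∃ t, chk3 f_B70pp_101_s1 t 284 497 16 = true := ex3_b k201_B70pp_101_s1 t854_B70pp_101_s1

theorem t856_B70pp_101_s1 : ∃ t, chk3 f_B70pp_101_s1 t 142 497 16 = true := ex3_a t855_B70pp_101_s1 k205_B70pp_101_s1

theorem t857_B70pp_101_s1 : ∃ t, chk3 f_B70pp_101_s1 t 142 248 16 = true := ex3_b k200_B70pp_101_s1 t856_B70pp_101_s1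

theorem t858_B70pp_101_s1 : ∃ t, chk3 f_B70pp_101_s1 t 142 248 8 = true := ex3_c t857_B70pp_101_s1 t852_B70pp_101_s1

theorem t859_B70pp_101_s1 : ∃ t, chk3 f_B70pp_101_s1 t 142 124 8 = true := ex3_b t858_B70pp_101_s1 t844_B70pp_101_s1

theorem t860_B70pp_101_s1 : ∃ t, chk3 f_B70pp_101_s1 t 71 124 8 = true := ex3_a t859_B70pp_101_s1 t838_B70pp_101_s1

theorem t861_B70pp_101_s1 : ∃ t, chk3 f_B70pp_101_s1 t 71 62 8 = true := ex3_b t860_B70pp_101_s1 t824_B70pp_101_s1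

theorem t862_B70pp_101_s1 : ∃ t, chk3 f_B70pp_101_s1 t 141 125 8 = true := ex3_c k198_B70pp_101_s1 k199_B70pp_101_s1

theorem t863_B70pp_101_s1 : ∃ t, chk3 f_B70pp_101_s1 t 282 499 34 = true := ex3_c k194_B70pp_101_s1 k195_B70pp_101_s1

theorem t864_B70pp_101_s1 : ∃ t, chk3 f_B70pp_101_s1 t 141 499 34 = true := ex3_a t863_B70pp_101_s1 k196_B70pp_101_s1

theorem t865_B70pp_101_s1 : ∃ t, chk3 f_B70pp_101_s1 t 141 499 17 = true := ex3_c t864_B70pp_101_s1 k197_B70pp_101_s1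

theorem t866_B70pp_101_s1 : ∃ t, chk3 f_B70pp_101_s1 t 564 997 34 = true := ex3_c k189_B70pp_101_s1 k190_B70pp_101_s1

theorem t867_B70pp_101_s1 : ∃ t, chk3 f_B70pp_101_s1 t 282 997 34 = true := ex3_a t866_B70pp_101_s1 k191_B70pp_101_s1

theorem t868_B70pp_101_s1 : ∃ t, chk3 f_B70pp_101_s1 t 282 997 17 = true := ex3_c t867_B70pp_101_s1 k192_B70pp_101_s1

theorem t869_B70pp_101_s1 : ∃ t, chk3 f_B70pp_101_s1 t 282 498 17 = true := ex3_b k188_B70pp_101_s1 t868_B70pp_101_s1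

theorem t870_B70pp_101_s1 : ∃ t, chk3 f_B70pp_101_s1 t 141 498 17 = true := ex3_a t869_B70pp_101_s1 k193_B70pp_101_s1

theorem t871_B70pp_101_s1 : ∃ t, chk3 f_B70pp_101_s1 t 141 249 17 = true := ex3_b t870_B70pp_101_s1 t865_B70pp_101_s1

theorem t872_B70pp_101_s1 : ∃ t, chk3 f_B70pp_101_s1 t 141 124 17 = true := ex3_b k187_B70pp_101_s1 t871_B70pp_101_s1

theorem t873_B70pp_101_s1 : ∃ t, chk3 f_B70pp_101_s1 t 566 996 33 = true := ex3_c k182_B70pp_101_s1 k183_B70pp_101_s1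

theorem t874_B70pp_101_s1 : ∃ t, chk3 f_B70pp_101_s1 t 283 996 33 = true := ex3_a t873_B70pp_101_s1 k184_B70pp_101_s1

theorem t875_B70pp_101_s1 : ∃ t, chk3 f_B70pp_101_s1 t 283 498 33 = true := ex3_b t874_B70pp_101_s1 k185_B70pp_101_s1

theorem t876_B70pp_101_s1 : ∃ t, chk3 f_B70pp_101_s1 t 283 498 32 = true := ex3_a k180_B70pp_101_s1 k181_B70pp_101_s1

theorem t877_B70pp_101_s1 : ∃ t, chk3 f_B70pp_101_s1 t 283 498 16 = true := ex3_c t876_B70pp_101_s1 t875_B70pp_101_s1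

theorem t878_B70pp_101_s1 : ∃ t, chk3 f_B70pp_101_s1 t 283 249 16 = true := ex3_b t877_B70pp_101_s1 k186_B70pp_101_s1

theorem t879_B70pp_101_s1 : ∃ t, chk3 f_B70pp_101_s1 t 282 498 16 = true := ex3_b k177_B70pp_101_s1 k178_B70pp_101_s1

theorem t880_B70pp_101_s1 : ∃ t, chk3 f_B70pp_101_s1 t 282 249 16 = true := ex3_b t879_B70pp_101_s1 k179_B70pp_101_s1

theorem t881_B70pp_101_s1 : ∃ t, chk3 f_B70pp_101_s1 t 141 249 16 = true := ex3_a t880_B70pp_101_s1 t878_B70pp_101_s1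

theorem t882_B70pp_101_s1 : ∃ t, chk3 f_B70pp_101_s1 t 141 248 16 = true := ex3_b k175_B70pp_101_s1 k176_B70pp_101_s1

theorem t883_B70pp_101_s1 : ∃ t, chk3 f_B70pp_101_s1 t 141 124 16 = true := ex3_b t882_B70pp_101_s1 t881_B70pp_101_s1

theorem t884_B70pp_101_s1 : ∃ t, chk3 f_B70pp_101_s1 t 141 124 8 = true := ex3_c t883_B70pp_101_s1 t872_B70pp_101_s1

theorem t885_B70pp_101_s1 : ∃ t, chk3 f_B70pp_101_s1 t 141 62 8 = true := ex3_b t884_B70pp_101_s1 t862_B70pp_101_s1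

theorem t886_B70pp_101_s1 : ∃ t, chk3 f_B70pp_101_s1 t 563 998 35 = true := ex3_c k171_B70pp_101_s1 k172_B70pp_101_s1

theorem t887_B70pp_101_s1 : ∃ t, chk3 f_B70pp_101_s1 t 563 499 35 = true := ex3_b t886_B70pp_101_s1 k173_B70pp_101_s1

theorem t888_B70pp_101_s1 : ∃ t, chk3 f_B70pp_101_s1 t 562 998 35 = true := ex3_c k168_B70pp_101_s1 k169_B70pp_101_s1

theorem t889_B70pp_101_s1 : ∃ t, chk3 f_B70pp_101_s1 t 562 499 35 = true := ex3_b t888_B70pp_101_s1 k170_B70pp_101_s1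

theorem t890_B70pp_101_s1 : ∃ t, chk3 f_B70pp_101_s1 t 281 499 35 = true := ex3_a t889_B70pp_101_s1 t887_B70pp_101_s1

theorem t891_B70pp_101_s1 : ∃ t, chk3 f_B70pp_101_s1 t 281 249 35 = true := ex3_b k167_B70pp_101_s1 t890_B70pp_101_s1

theorem t892_B70pp_101_s1 : ∃ t, chk3 f_B70pp_101_s1 t 281 249 34 = true := ex3_b k165_B70pp_101_s1 k166_B70pp_101_s1

theorem t893_B70pp_101_s1 : ∃ t, chk3 f_B70pp_101_s1 t 281 249 17 = true := ex3_c t892_B70pp_101_s1 t891_B70pp_101_s1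

theorem t894_B70pp_101_s1 : ∃ t, chk3 f_B70pp_101_s1 t 280 499 17 = true := ex3_a k163_B70pp_101_s1 k164_B70pp_101_s1

theorem t895_B70pp_101_s1 : ∃ t, chk3 f_B70pp_101_s1 t 280 249 17 = true := ex3_b k162_B70pp_101_s1 t894_B70pp_101_s1

theorem t896_B70pp_101_s1 : ∃ t, chk3 f_B70pp_101_s1 t 140 249 17 = true := ex3_a t895_B70pp_101_s1 t893_B70pp_101_s1

theorem t897_B70pp_101_s1 : ∃ t, chk3 f_B70pp_101_s1 t 140 124 17 = true := ex3_b k161_B70pp_101_s1 t896_B70pp_101_s1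

theorem t898_B70pp_101_s1 : ∃ t, chk3 f_B70pp_101_s1 t 140 62 17 = true := ex3_b t897_B70pp_101_s1 k174_B70pp_101_s1

theorem t899_B70pp_101_s1 : ∃ t, chk3 f_B70pp_101_s1 t 140 249 16 = true := ex3_b k158_B70pp_101_s1 k159_B70pp_101_s1

theorem t900_B70pp_101_s1 : ∃ t, chk3 f_B70pp_101_s1 t 140 124 16 = true := ex3_b k157_B70pp_101_s1 t899_B70pp_101_s1

theorem t901_B70pp_101_s1 : ∃ t, chk3 f_B70pp_101_s1 t 140 62 16 = true := ex3_b t900_B70pp_101_s1 k160_B70pp_101_s1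

theorem t902_B70pp_101_s1 : ∃ t, chk3 f_B70pp_101_s1 t 140 62 8 = true := ex3_c t901_B70pp_101_s1 t898_B70pp_101_s1

theorem t903_B70pp_101_s1 : ∃ t, chk3 f_B70pp_101_s1 t 70 62 8 = true := ex3_a t902_B70pp_101_s1 t885_B70pp_101_s1

theorem t904_B70pp_101_s1 : ∃ t, chk3 f_B70pp_101_s1 t 35 62 8 = true := ex3_a t903_B70pp_101_s1 t861_B70pp_101_s1

theorem t905_B70pp_101_s1 : ∃ t, chk3 f_B70pp_101_s1 t 35 62 4 = true := ex3_c t904_B70pp_101_s1 t822_B70pp_101_s1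

theorem t906_B70pp_101_s1 : ∃ t, chk3 f_B70pp_101_s1 t 35 31 4 = true := ex3_b t905_B70pp_101_s1 t747_B70pp_101_s1

theorem t907_B70pp_101_s1 : ∃ t, chk3 f_B70pp_101_s1 t 35 31 2 = true := ex3_c t906_B70pp_101_s1 t745_B70pp_101_s1

theorem t908_B70pp_101_s1 : ∃ t, chk3 f_B70pp_101_s1 t 278 500 11 = true := ex3_b k151_B70pp_101_s1 k152_B70pp_101_s1

theorem t909_B70pp_101_s1 : ∃ t, chk3 f_B70pp_101_s1 t 139 500 11 = true := ex3_a t908_B70pp_101_s1 k153_B70pp_101_s1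

theorem t910_B70pp_101_s1 : ∃ t, chk3 f_B70pp_101_s1 t 139 250 11 = true := ex3_b t909_B70pp_101_s1 k154_B70pp_101_s1

theorem t911_B70pp_101_s1 : ∃ t, chk3 f_B70pp_101_s1 t 138 250 11 = true := ex3_b k149_B70pp_101_s1 k150_B70pp_101_s1

theorem t912_B70pp_101_s1 : ∃ t, chk3 f_B70pp_101_s1 t 69 250 11 = true := ex3_a t911_B70pp_101_s1 t910_B70pp_101_s1

theorem t913_B70pp_101_s1 : ∃ t, chk3 f_B70pp_101_s1 t 69 125 11 = true := ex3_b t912_B70pp_101_s1 k155_B70pp_101_s1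

theorem t914_B70pp_101_s1 : ∃ t, chk3 f_B70pp_101_s1 t 69 62 11 = true := ex3_b k148_B70pp_101_s1 t913_B70pp_101_s1

theorem t915_B70pp_101_s1 : ∃ t, chk3 f_B70pp_101_s1 t 69 31 11 = true := ex3_b t914_B70pp_101_s1 k156_B70pp_101_s1

theorem t916_B70pp_101_s1 : ∃ t, chk3 f_B70pp_101_s1 t 34 31 11 = true := ex3_a k147_B70pp_101_s1 t915_B70pp_101_s1

theorem t917_B70pp_101_s1 : ∃ t, chk3 f_B70pp_101_s1 t 139 251 10 = true := ex3_c k144_B70pp_101_s1 k145_B70pp_101_s1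

theorem t918_B70pp_101_s1 : ∃ t, chk3 f_B70pp_101_s1 t 69 251 10 = true := ex3_a k143_B70pp_101_s1 t917_B70pp_101_s1

theorem t919_B70pp_101_s1 : ∃ t, chk3 f_B70pp_101_s1 t 277 250 43 = true := ex3_a k140_B70pp_101_s1 k141_B70pp_101_s1

theorem t920_B70pp_101_s1 : ∃ t, chk3 f_B70pp_101_s1 t 138 250 43 = true := ex3_a k139_B70pp_101_s1 t919_B70pp_101_s1

theorem t921_B70pp_101_s1 : ∃ t, chk3 f_B70pp_101_s1 t 69 250 43 = true := ex3_a t920_B70pp_101_s1 k142_B70pp_101_s1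

theorem t922_B70pp_101_s1 : ∃ t, chk3 f_B70pp_101_s1 t 278 501 42 = true := ex3_b k136_B70pp_101_s1 k137_B70pp_101_s1

theorem t923_B70pp_101_s1 : ∃ t, chk3 f_B70pp_101_s1 t 139 501 42 = true := ex3_a t922_B70pp_101_s1 k138_B70pp_101_s1

theorem t924_B70pp_101_s1 : ∃ t, chk3 f_B70pp_101_s1 t 139 1001 42 = true := ex3_a k134_B70pp_101_s1 k135_B70pp_101_s1

theorem t925_B70pp_101_s1 : ∃ t, chk3 f_B70pp_101_s1 t 139 500 42 = true := ex3_b k133_B70pp_101_s1 t924_B70pp_101_s1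

theorem t926_B70pp_101_s1 : ∃ t, chk3 f_B70pp_101_s1 t 139 250 42 = true := ex3_b t925_B70pp_101_s1 t923_B70pp_101_s1

theorem t927_B70pp_101_s1 : ∃ t, chk3 f_B70pp_101_s1 t 555 1002 85 = true := ex3_b k130_B70pp_101_s1 k131_B70pp_101_s1

theorem t928_B70pp_101_s1 : ∃ t, chk3 f_B70pp_101_s1 t 555 1002 84 = true := ex3_c k128_B70pp_101_s1 k129_B70pp_101_s1

theorem t929_B70pp_101_s1 : ∃ t, chk3 f_B70pp_101_s1 t 555 1002 42 = true := ex3_c t928_B70pp_101_s1 t927_B70pp_101_s1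

theorem t930_B70pp_101_s1 : ∃ t, chk3 f_B70pp_101_s1 t 554 1002 85 = true := ex3_b k126_B70pp_101_s1 k127_B70pp_101_s1

theorem t931_B70pp_101_s1 : ∃ t, chk3 f_B70pp_101_s1 t 554 1002 42 = true := ex3_c k125_B70pp_101_s1 t930_B70pp_101_s1

theorem t932_B70pp_101_s1 : ∃ t, chk3 f_B70pp_101_s1 t 277 1002 42 = true := ex3_a t931_B70pp_101_s1 t929_B70pp_101_s1

theorem t933_B70pp_101_s1 : ∃ t, chk3 f_B70pp_101_s1 t 277 501 42 = true := ex3_b t932_B70pp_101_s1 k132_B70pp_101_s1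

theorem t934_B70pp_101_s1 : ∃ t, chk3 f_B70pp_101_s1 t 277 250 42 = true := ex3_b k124_B70pp_101_s1 t933_B70pp_101_s1

theorem t935_B70pp_101_s1 : ∃ t, chk3 f_B70pp_101_s1 t 138 250 42 = true := ex3_a k123_B70pp_101_s1 t934_B70pp_101_s1

theorem t936_B70pp_101_s1 : ∃ t, chk3 f_B70pp_101_s1 t 69 250 42 = true := ex3_a t935_B70pp_101_s1 t926_B70pp_101_s1

theorem t937_B70pp_101_s1 : ∃ t, chk3 f_B70pp_101_s1 t 69 250 21 = true := ex3_c t936_B70pp_101_s1 t921_B70pp_101_s1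

theorem t938_B70pp_101_s1 : ∃ t, chk3 f_B70pp_101_s1 t 139 501 83 = true := ex3_a k121_B70pp_101_s1 k122_B70pp_101_s1

theorem t939_B70pp_101_s1 : ∃ t, chk3 f_B70pp_101_s1 t 556 1001 83 = true := ex3_b k117_B70pp_101_s1 k118_B70pp_101_s1

theorem t940_B70pp_101_s1 : ∃ t, chk3 f_B70pp_101_s1 t 278 1001 83 = true := ex3_a t939_B70pp_101_s1 k119_B70pp_101_s1

theorem t941_B70pp_101_s1 : ∃ t, chk3 f_B70pp_101_s1 t 278 500 83 = true := ex3_b k116_B70pp_101_s1 t940_B70pp_101_s1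

theorem t942_B70pp_101_s1 : ∃ t, chk3 f_B70pp_101_s1 t 139 500 83 = true := ex3_a t941_B70pp_101_s1 k120_B70pp_101_s1

theorem t943_B70pp_101_s1 : ∃ t, chk3 f_B70pp_101_s1 t 139 250 83 = true := ex3_b t942_B70pp_101_s1 t938_B70pp_101_s1

theorem t944_B70pp_101_s1 : ∃ t, chk3 f_B70pp_101_s1 t 69 250 83 = true := ex3_a k115_B70pp_101_s1 t943_B70pp_101_s1

theorem t945_B70pp_101_s1 : ∃ t, chk3 f_B70pp_101_s1 t 279 500 82 = true := ex3_b k112_B70pp_101_s1 k113_B70pp_101_s1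

theorem t946_B70pp_101_s1 : ∃ t, chk3 f_B70pp_101_s1 t 278 500 82 = true := ex3_b k110_B70pp_101_s1 k111_B70pp_101_s1

theorem t947_B70pp_101_s1 : ∃ t, chk3 f_B70pp_101_s1 t 139 500 82 = true := ex3_a t946_B70pp_101_s1 t945_B70pp_101_s1

theorem t948_B70pp_101_s1 : ∃ t, chk3 f_B70pp_101_s1 t 139 250 82 = true := ex3_b t947_B70pp_101_s1 k114_B70pp_101_s1

theorem t949_B70pp_101_s1 : ∃ t, chk3 f_B70pp_101_s1 t 69 250 82 = true := ex3_a k109_B70pp_101_s1 t948_B70pp_101_s1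

theorem t950_B70pp_101_s1 : ∃ t, chk3 f_B70pp_101_s1 t 69 250 41 = true := ex3_c t949_B70pp_101_s1 t944_B70pp_101_s1

theorem t951_B70pp_101_s1 : ∃ t, chk3 f_B70pp_101_s1 t 559 500 81 = true := ex3_b k106_B70pp_101_s1 k107_B70pp_101_s1

theorem t952_B70pp_101_s1 : ∃ t, chk3 f_B70pp_101_s1 t 558 500 81 = true := ex3_a k104_B70pp_101_s1 k105_B70pp_101_s1

theorem t953_B70pp_101_s1 : ∃ t, chk3 f_B70pp_101_s1 t 279 500 81 = true := ex3_a t952_B70pp_101_s1 t951_B70pp_101_s1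

theorem t954_B70pp_101_s1 : ∃ t, chk3 f_B70pp_101_s1 t 139 500 81 = true := ex3_a k103_B70pp_101_s1 t953_B70pp_101_s1

theorem t955_B70pp_101_s1 : ∃ t, chk3 f_B70pp_101_s1 t 139 250 81 = true := ex3_b t954_B70pp_101_s1 k108_B70pp_101_s1

theorem t956_B70pp_101_s1 : ∃ t, chk3 f_B70pp_101_s1 t 69 250 81 = true := ex3_a k102_B70pp_101_s1 t955_B70pp_101_s1

theorem t957_B70pp_101_s1 : ∃ t, chk3 f_B70pp_101_s1 t 139 500 80 = true := ex3_a k99_B70pp_101_s1 k100_B70pp_101_s1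

theorem t958_B70pp_101_s1 : ∃ t, chk3 f_B70pp_101_s1 t 139 250 80 = true := ex3_b t957_B70pp_101_s1 k101_B70pp_101_s1

theorem t959_B70pp_101_s1 : ∃ t, chk3 f_B70pp_101_s1 t 277 250 80 = true := ex3_b k97_B70pp_101_s1 k98_B70pp_101_s1

theorem t960_B70pp_101_s1 : ∃ t, chk3 f_B70pp_101_s1 t 138 250 80 = true := ex3_a k96_B70pp_101_s1 t959_B70pp_101_s1

theorem t961_B70pp_101_s1 : ∃ t, chk3 f_B70pp_101_s1 t 69 250 80 = true := ex3_a t960_B70pp_101_s1 t958_B70pp_101_s1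

theorem t962_B70pp_101_s1 : ∃ t, chk3 f_B70pp_101_s1 t 69 250 40 = true := ex3_c t961_B70pp_101_s1 t956_B70pp_101_s1

theorem t963_B70pp_101_s1 : ∃ t, chk3 f_B70pp_101_s1 t 69 250 20 = true := ex3_c t962_B70pp_101_s1 t950_B70pp_101_s1

theorem t964_B70pp_101_s1 : ∃ t, chk3 f_B70pp_101_s1 t 69 250 10 = true := ex3_c t963_B70pp_101_s1 t937_B70pp_101_s1

theorem t965_B70pp_101_s1 : ∃ t, chk3 f_B70pp_101_s1 t 69 125 10 = true := ex3_b t964_B70pp_101_s1 t918_B70pp_101_s1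

theorem t966_B70pp_101_s1 : ∃ t, chk3 f_B70pp_101_s1 t 279 124 10 = true := ex3_a k94_B70pp_101_s1 k95_B70pp_101_s1

theorem t967_B70pp_101_s1 : ∃ t, chk3 f_B70pp_101_s1 t 139 124 10 = true := ex3_a k93_B70pp_101_s1 t966_B70pp_101_s1

theorem t968_B70pp_101_s1 : ∃ t, chk3 f_B70pp_101_s1 t 69 124 10 = true := ex3_a k92_B70pp_101_s1 t967_B70pp_101_s1

theorem t969_B70pp_101_s1 : ∃ t, chk3 f_B70pp_101_s1 t 69 62 10 = true := ex3_b t968_B70pp_101_s1 t965_B70pp_101_s1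

theorem t970_B70pp_101_s1 : ∃ t, chk3 f_B70pp_101_s1 t 69 31 10 = true := ex3_b t969_B70pp_101_s1 k146_B70pp_101_s1

theorem t971_B70pp_101_s1 : ∃ t, chk3 f_B70pp_101_s1 t 34 31 10 = true := ex3_a k91_B70pp_101_s1 t970_B70pp_101_s1

theorem t972_B70pp_101_s1 : ∃ t, chk3 f_B70pp_101_s1 t 34 31 5 = true := ex3_c t971_B70pp_101_s1 t916_B70pp_101_s1

theorem t973_B70pp_101_s1 : ∃ t, chk3 f_B70pp_101_s1 t 139 251 9 = true := ex3_c k88_B70pp_101_s1 k89_B70pp_101_s1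

theorem t974_B70pp_101_s1 : ∃ t, chk3 f_B70pp_101_s1 t 69 251 9 = true := ex3_a k87_B70pp_101_s1 t973_B70pp_101_s1

theorem t975_B70pp_101_s1 : ∃ t, chk3 f_B70pp_101_s1 t 278 501 78 = true := ex3_a k83_B70pp_101_s1 k84_B70pp_101_s1

theorem t976_B70pp_101_s1 : ∃ t, chk3 f_B70pp_101_s1 t 278 501 39 = true := ex3_c t975_B70pp_101_s1 k85_B70pp_101_s1

theorem t977_B70pp_101_s1 : ∃ t, chk3 f_B70pp_101_s1 t 139 501 39 = true := ex3_a t976_B70pp_101_s1 k86_B70pp_101_s1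

theorem t978_B70pp_101_s1 : ∃ t, chk3 f_B70pp_101_s1 t 278 1001 39 = true := ex3_a k80_B70pp_101_s1 k81_B70pp_101_s1

theorem t979_B70pp_101_s1 : ∃ t, chk3 f_B70pp_101_s1 t 139 1001 39 = true := ex3_a t978_B70pp_101_s1 k82_B70pp_101_s1

theorem t980_B70pp_101_s1 : ∃ t, chk3 f_B70pp_101_s1 t 139 500 39 = true := ex3_b k79_B70pp_101_s1 t979_B70pp_101_s1

theorem t981_B70pp_101_s1 : ∃ t, chk3 f_B70pp_101_s1 t 139 250 39 = true := ex3_b t980_B70pp_101_s1 t977_B70pp_101_s1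

theorem t982_B70pp_101_s1 : ∃ t, chk3 f_B70pp_101_s1 t 555 1002 158 = true := ex3_a k75_B70pp_101_s1 k76_B70pp_101_s1

theorem t983_B70pp_101_s1 : ∃ t, chk3 f_B70pp_101_s1 t 555 1002 79 = true := ex3_c t982_B70pp_101_s1 k77_B70pp_101_s1

theorem t984_B70pp_101_s1 : ∃ t, chk3 f_B70pp_101_s1 t 555 1002 39 = true := ex3_c k74_B70pp_101_s1 t983_B70pp_101_s1

theorem t985_B70pp_101_s1 : ∃ t, chk3 f_B70pp_101_s1 t 554 1002 39 = true := ex3_b k72_B70pp_101_s1 k73_B70pp_101_s1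

theorem t986_B70pp_101_s1 : ∃ t, chk3 f_B70pp_101_s1 t 277 1002 39 = true := ex3_a t985_B70pp_101_s1 t984_B70pp_101_s1

theorem t987_B70pp_101_s1 : ∃ t, chk3 f_B70pp_101_s1 t 277 501 39 = true := ex3_b t986_B70pp_101_s1 k78_B70pp_101_s1

theorem t988_B70pp_101_s1 : ∃ t, chk3 f_B70pp_101_s1 t 277 250 39 = true := ex3_b k71_B70pp_101_s1 t987_B70pp_101_s1

theorem t989_B70pp_101_s1 : ∃ t, chk3 f_B70pp_101_s1 t 138 250 39 = true := ex3_a k70_B70pp_101_s1 t988_B70pp_101_s1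

theorem t990_B70pp_101_s1 : ∃ t, chk3 f_B70pp_101_s1 t 69 250 39 = true := ex3_a t989_B70pp_101_s1 t981_B70pp_101_s1

theorem t991_B70pp_101_s1 : ∃ t, chk3 f_B70pp_101_s1 t 279 500 38 = true := ex3_b k67_B70pp_101_s1 k68_B70pp_101_s1

theorem t992_B70pp_101_s1 : ∃ t, chk3 f_B70pp_101_s1 t 279 250 38 = true := ex3_b t991_B70pp_101_s1 k69_B70pp_101_s1

theorem t993_B70pp_101_s1 : ∃ t, chk3 f_B70pp_101_s1 t 557 1001 76 = true := ex3_c k63_B70pp_101_s1 k64_B70pp_101_s1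

theorem t994_B70pp_101_s1 : ∃ t, chk3 f_B70pp_101_s1 t 557 1001 38 = true := ex3_c t993_B70pp_101_s1 k65_B70pp_101_s1

theorem t995_B70pp_101_s1 : ∃ t, chk3 f_B70pp_101_s1 t 556 1001 77 = true := ex3_b k61_B70pp_101_s1 k62_B70pp_101_s1

theorem t996_B70pp_101_s1 : ∃ t, chk3 f_B70pp_101_s1 t 556 1001 38 = true := ex3_c k60_B70pp_101_s1 t995_B70pp_101_s1

theorem t997_B70pp_101_s1 : ∃ t, chk3 f_B70pp_101_s1 t 278 1001 38 = true := ex3_a t996_B70pp_101_s1 t994_B70pp_101_s1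

theorem t998_B70pp_101_s1 : ∃ t, chk3 f_B70pp_101_s1 t 278 500 38 = true := ex3_b k59_B70pp_101_s1 t997_B70pp_101_s1

theorem t999_B70pp_101_s1 : ∃ t, chk3 f_B70pp_101_s1 t 278 250 38 = true := ex3_b t998_B70pp_101_s1 k66_B70pp_101_s1

theorem t1000_B70pp_101_s1 : ∃ t, chk3 f_B70pp_101_s1 t 139 250 38 = true := ex3_a t999_B70pp_101_s1 t992_B70pp_101_s1

theorem t1001_B70pp_101_s1 : ∃ t, chk3 f_B70pp_101_s1 t 69 250 38 = true := ex3_a k58_B70pp_101_s1 t1000_B70pp_101_s1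

theorem t1002_B70pp_101_s1 : ∃ t, chk3 f_B70pp_101_s1 t 69 250 19 = true := ex3_c t1001_B70pp_101_s1 t990_B70pp_101_s1

theorem t1003_B70pp_101_s1 : ∃ t, chk3 f_B70pp_101_s1 t 559 1000 74 = true := ex3_c k53_B70pp_101_s1 k54_B70pp_101_s1

theorem t1004_B70pp_101_s1 : ∃ t, chk3 f_B70pp_101_s1 t 559 1000 37 = true := ex3_c t1003_B70pp_101_s1 k55_B70pp_101_s1

theorem t1005_B70pp_101_s1 : ∃ t, chk3 f_B70pp_101_s1 t 558 1000 75 = true := ex3_a k51_B70pp_101_s1 k52_B70pp_101_s1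

theorem t1006_B70pp_101_s1 : ∃ t, chk3 f_B70pp_101_s1 t 558 1000 37 = true := ex3_c k50_B70pp_101_s1 t1005_B70pp_101_s1

theorem t1007_B70pp_101_s1 : ∃ t, chk3 f_B70pp_101_s1 t 279 1000 37 = true := ex3_a t1006_B70pp_101_s1 t1004_B70pp_101_s1

theorem t1008_B70pp_101_s1 : ∃ t, chk3 f_B70pp_101_s1 t 279 500 37 = true := ex3_b t1007_B70pp_101_s1 k56_B70pp_101_s1

theorem t1009_B70pp_101_s1 : ∃ t, chk3 f_B70pp_101_s1 t 279 250 37 = true := ex3_b t1008_B70pp_101_s1 k57_B70pp_101_s1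

theorem t1010_B70pp_101_s1 : ∃ t, chk3 f_B70pp_101_s1 t 139 250 37 = true := ex3_a k49_B70pp_101_s1 t1009_B70pp_101_s1

theorem t1011_B70pp_101_s1 : ∃ t, chk3 f_B70pp_101_s1 t 69 250 37 = true := ex3_a k48_B70pp_101_s1 t1010_B70pp_101_s1

theorem t1012_B70pp_101_s1 : ∃ t, chk3 f_B70pp_101_s1 t 69 250 36 = true := ex3_a k46_B70pp_101_s1 k47_B70pp_101_s1

theorem t1013_B70pp_101_s1 : ∃ t, chk3 f_B70pp_101_s1 t 69 250 18 = true := ex3_c t1012_B70pp_101_s1 t1011_B70pp_101_s1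

theorem t1014_B70pp_101_s1 : ∃ t, chk3 f_B70pp_101_s1 t 69 250 9 = true := ex3_c t1013_B70pp_101_s1 t1002_B70pp_101_s1

theorem t1015_B70pp_101_s1 : ∃ t, chk3 f_B70pp_101_s1 t 69 125 9 = true := ex3_b t1014_B70pp_101_s1 t974_B70pp_101_s1

theorem t1016_B70pp_101_s1 : ∃ t, chk3 f_B70pp_101_s1 t 278 1000 8 = true := ex3_a k40_B70pp_101_s1 k41_B70pp_101_s1

theorem t1017_B70pp_101_s1 : ∃ t, chk3 f_B70pp_101_s1 t 278 500 8 = true := ex3_b t1016_B70pp_101_s1 k42_B70pp_101_s1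

theorem t1018_B70pp_101_s1 : ∃ t, chk3 f_B70pp_101_s1 t 139 500 8 = true := ex3_a t1017_B70pp_101_s1 k43_B70pp_101_s1

theorem t1019_B70pp_101_s1 : ∃ t, chk3 f_B70pp_101_s1 t 139 250 8 = true := ex3_b t1018_B70pp_101_s1 k44_B70pp_101_s1

theorem t1020_B70pp_101_s1 : ∃ t, chk3 f_B70pp_101_s1 t 277 1002 8 = true := ex3_a k37_B70pp_101_s1 k38_B70pp_101_s1

theorem t1021_B70pp_101_s1 : ∃ t, chk3 f_B70pp_101_s1 t 277 501 8 = true := ex3_b t1020_B70pp_101_s1 k39_B70pp_101_s1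

theorem t1022_B70pp_101_s1 : ∃ t, chk3 f_B70pp_101_s1 t 138 501 8 = true := ex3_a k36_B70pp_101_s1 t1021_B70pp_101_s1

theorem t1023_B70pp_101_s1 : ∃ t, chk3 f_B70pp_101_s1 t 277 1001 17 = true := ex3_a k34_B70pp_101_s1 k35_B70pp_101_s1

theorem t1024_B70pp_101_s1 : ∃ t, chk3 f_B70pp_101_s1 t 555 1001 16 = true := ex3_b k32_B70pp_101_s1 k33_B70pp_101_s1

theorem t1025_B70pp_101_s1 : ∃ t, chk3 f_B70pp_101_s1 t 277 1001 16 = true := ex3_a k31_B70pp_101_s1 t1024_B70pp_101_s1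

theorem t1026_B70pp_101_s1 : ∃ t, chk3 f_B70pp_101_s1 t 277 1001 8 = true := ex3_c t1025_B70pp_101_s1 t1023_B70pp_101_s1

theorem t1027_B70pp_101_s1 : ∃ t, chk3 f_B70pp_101_s1 t 138 1001 8 = true := ex3_a k30_B70pp_101_s1 t1026_B70pp_101_s1

theorem t1028_B70pp_101_s1 : ∃ t, chk3 f_B70pp_101_s1 t 138 500 8 = true := ex3_b k29_B70pp_101_s1 t1027_B70pp_101_s1

theorem t1029_B70pp_101_s1 : ∃ t, chk3 f_B70pp_101_s1 t 138 250 8 = true := ex3_b t1028_B70pp_101_s1 t1022_B70pp_101_s1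

theorem t1030_B70pp_101_s1 : ∃ t, chk3 f_B70pp_101_s1 t 69 250 8 = true := ex3_a t1029_B70pp_101_s1 t1019_B70pp_101_s1

theorem t1031_B70pp_101_s1 : ∃ t, chk3 f_B70pp_101_s1 t 69 125 8 = true := ex3_b t1030_B70pp_101_s1 k45_B70pp_101_s1

theorem t1032_B70pp_101_s1 : ∃ t, chk3 f_B70pp_101_s1 t 69 125 4 = true := ex3_c t1031_B70pp_101_s1 t1015_B70pp_101_s1

theorem t1033_B70pp_101_s1 : ∃ t, chk3 f_B70pp_101_s1 t 34 125 4 = true := ex3_a k28_B70pp_101_s1 t1032_B70pp_101_s1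

theorem t1034_B70pp_101_s1 : ∃ t, chk3 f_B70pp_101_s1 t 139 999 9 = true := ex3_c k26_B70pp_101_s1 k27_B70pp_101_s1

theorem t1035_B70pp_101_s1 : ∃ t, chk3 f_B70pp_101_s1 t 279 999 8 = true := ex3_a k24_B70pp_101_s1 k25_B70pp_101_s1

theorem t1036_B70pp_101_s1 : ∃ t, chk3 f_B70pp_101_s1 t 139 999 8 = true := ex3_a k23_B70pp_101_s1 t1035_B70pp_101_s1

theorem t1037_B70pp_101_s1 : ∃ t, chk3 f_B70pp_101_s1 t 139 999 4 = true := ex3_c t1036_B70pp_101_s1 t1034_B70pp_101_s1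

theorem t1038_B70pp_101_s1 : ∃ t, chk3 f_B70pp_101_s1 t 69 999 4 = true := ex3_a k22_B70pp_101_s1 t1037_B70pp_101_s1

theorem t1039_B70pp_101_s1 : ∃ t, chk3 f_B70pp_101_s1 t 69 499 4 = true := ex3_b k21_B70pp_101_s1 t1038_B70pp_101_s1

theorem t1040_B70pp_101_s1 : ∃ t, chk3 f_B70pp_101_s1 t 69 249 4 = true := ex3_b k20_B70pp_101_s1 t1039_B70pp_101_s1

theorem t1041_B70pp_101_s1 : ∃ t, chk3 f_B70pp_101_s1 t 69 124 4 = true := ex3_b k19_B70pp_101_s1 t1040_B70pp_101_s1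

theorem t1042_B70pp_101_s1 : ∃ t, chk3 f_B70pp_101_s1 t 34 124 4 = true := ex3_a k18_B70pp_101_s1 t1041_B70pp_101_s1

theorem t1043_B70pp_101_s1 : ∃ t, chk3 f_B70pp_101_s1 t 34 62 4 = true := ex3_b t1042_B70pp_101_s1 t1033_B70pp_101_s1

theorem t1044_B70pp_101_s1 : ∃ t, chk3 f_B70pp_101_s1 t 34 31 4 = true := ex3_b t1043_B70pp_101_s1 k90_B70pp_101_s1

theorem t1045_B70pp_101_s1 : ∃ t, chk3 f_B70pp_101_s1 t 34 31 2 = true := ex3_c t1044_B70pp_101_s1 t972_B70pp_101_s1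

theorem t1046_B70pp_101_s1 : ∃ t, chk3 f_B70pp_101_s1 t 17 31 2 = true := ex3_a t1045_B70pp_101_s1 t907_B70pp_101_s1

theorem t1047_B70pp_101_s1 : ∃ t, chk3 f_B70pp_101_s1 t 143 247 5 = true := ex3_a k16_B70pp_101_s1 k17_B70pp_101_s1

theorem t1048_B70pp_101_s1 : ∃ t, chk3 f_B70pp_101_s1 t 71 247 5 = true := ex3_a k15_B70pp_101_s1 t1047_B70pp_101_s1

theorem t1049_B70pp_101_s1 : ∃ t, chk3 f_B70pp_101_s1 t 35 247 5 = true := ex3_a k14_B70pp_101_s1 t1048_B70pp_101_s1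

theorem t1050_B70pp_101_s1 : ∃ t, chk3 f_B70pp_101_s1 t 143 495 8 = true := ex3_c k11_B70pp_101_s1 k12_B70pp_101_s1

theorem t1051_B70pp_101_s1 : ∃ t, chk3 f_B70pp_101_s1 t 71 495 8 = true := ex3_a k10_B70pp_101_s1 t1050_B70pp_101_s1

theorem t1052_B70pp_101_s1 : ∃ t, chk3 f_B70pp_101_s1 t 71 247 8 = true := ex3_b k9_B70pp_101_s1 t1051_B70pp_101_s1

theorem t1053_B70pp_101_s1 : ∃ t, chk3 f_B70pp_101_s1 t 71 247 4 = true := ex3_c t1052_B70pp_101_s1 k13_B70pp_101_s1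

theorem t1054_B70pp_101_s1 : ∃ t, chk3 f_B70pp_101_s1 t 35 247 4 = true := ex3_a k8_B70pp_101_s1 t1053_B70pp_101_s1

theorem t1055_B70pp_101_s1 : ∃ t, chk3 f_B70pp_101_s1 t 35 247 2 = true := ex3_c t1054_B70pp_101_s1 t1049_B70pp_101_s1

theorem t1056_B70pp_101_s1 : ∃ t, chk3 f_B70pp_101_s1 t 17 247 2 = true := ex3_a k7_B70pp_101_s1 t1055_B70pp_101_s1

theorem t1057_B70pp_101_s1 : ∃ t, chk3 f_B70pp_101_s1 t 17 123 2 = true := ex3_b k6_B70pp_101_s1 t1056_B70pp_101_s1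

theorem t1058_B70pp_101_s1 : ∃ t, chk3 f_B70pp_101_s1 t 17 61 2 = true := ex3_b k5_B70pp_101_s1 t1057_B70pp_101_s1

theorem t1059_B70pp_101_s1 : ∃ t, chk3 f_B70pp_101_s1 t 17 30 2 = true := ex3_b k4_B70pp_101_s1 t1058_B70pp_101_s1

theorem t1060_B70pp_101_s1 : ∃ t, chk3 f_B70pp_101_s1 t 17 15 2 = true := ex3_b t1059_B70pp_101_s1 t1046_B70pp_101_s1

theorem t1061_B70pp_101_s1 : ∃ t, chk3 f_B70pp_101_s1 t 17 15 1 = true := ex3_c t1060_B70pp_101_s1 t714_B70pp_101_s1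

theorem t1062_B70pp_101_s1 : ∃ t, chk3 f_B70pp_101_s1 t 8 15 1 = true := ex3_a k3_B70pp_101_s1 t1061_B70pp_101_s1

theorem t1063_B70pp_101_s1 : ∃ t, chk3 f_B70pp_101_s1 t 8 7 1 = true := ex3_b k2_B70pp_101_s1 t1062_B70pp_101_s1

theorem t1064_B70pp_101_s1 : ∃ t, chk3 f_B70pp_101_s1 t 4 7 1 = true := ex3_a t1063_B70pp_101_s1 t686_B70pp_101_s1

theorem t1065_B70pp_101_s1 : ∃ t, chk3 f_B70pp_101_s1 t 4 3 1 = true := ex3_b k1_B70pp_101_s1 t1064_B70pp_101_s1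

theorem t1066_B70pp_101_s1 : ∃ t, chk3 f_B70pp_101_s1 t 2 3 1 = true := ex3_a t1065_B70pp_101_s1 t549_B70pp_101_s1

theorem t1067_B70pp_101_s1 : ∃ t, chk3 f_B70pp_101_s1 t 2 1 1 = true := ex3_b k0_B70pp_101_s1 t1066_B70pp_101_s1

theorem t1068_B70pp_101_s1 : ∃ t, chk3 f_B70pp_101_s1 t 1 1 1 = true := ex3_a t1067_B70pp_101_s1 t536_B70pp_101_s1

theorem c_B70pp_101_s1 : CertNX 536870912 536870912 536870912 536870912 1046898278 26843546 3 false true true .npn 1 0 1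
    ndN7q1 ndN0q1 pcN0 cut_B70pp_101_s1 xt_B70pp_101_s1 :=
  certNX2 (N0 := 3) (fam := false) (s1 := true) (s2 := true) (a := 1) (b := 0) (c := 1) (cn := .npn) (n1 := ndN7q1) (n2 := ndN0q1) (pc := pcN0) (cut := cut_B70pp_101_s1) (xt := xt_B70pp_101_s1) (P1 := 536870912) (W1 := 536870912) (P2 := 536870912) (W2 := 536870912) (P3 := 1046898278) (W3 := 26843546)
    rfl (fun _ => rfl) t1068_B70pp_101_s1

theorem s_B70pp_101_s1 {κ x : ℝ} (hκ : κ * h0 = kenE x) (hx : 39 / 40 ≤ x) (hx' : x < 1)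
    (H : CutVB (VND 3 κ) (DD x) tKN tL pcN (Cut.of [[⟨0, 1, 0, 67108864⟩, ⟨1, 0, 0, 67108864⟩, ⟨2, 1, 0, 67108864⟩]]) 1 0 1 7 0 (sgb true) (sgb true) x) :
    AltVB (VND 3 κ) (DD x) tKN tL pcN [⟨3, 0, 0, 1140850688⟩] 1 0 1 7 0 (sgb true) (sgb true) x :=
  strip_altVBN (d := 1140850688) true rfl hκ (κ0 hκ hx) (x0 hx) hx' (covN71 hx hx') (covN01 hx hx') (x1 hx) (x2 hx') c_B70pp_101_s1 H ((ok hx hx').extBN (T := tt) (sideN hx hx') hκ (κ0 hκ hx) rfl rfl (.N 1 true) (.O 1 true) (Or.inl rfl))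

end Pool.Agent.Strip051.G.IE1.Tab.StN.C
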