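import Pool.Agent.Strip051.G.IE1.Tab

/-! # Certificates N84 (generated) -/

set_option linter.all false
set_option maxRecDepth 100000

namespace Pool.Agent.Strip051.G.IE1.Tab.C.NB67

open Pool.Agent.Strip051.PB Pool.Agent.Strip051.PB.T
open Pool.Agent.Strip051.G.IE1.Tab

noncomputable def f_pm_303 : ℕ → ℕ → ℕ → ℕ → Bool := onCell 0 1230186008 0 1230186008 1046898278 26843546
    (rowNX 3 0 false true false .npn 3 0 3 (qsf 0 1230186008 0 1230186008 0) ndN6q3 ndN7q3 pcN0 Cut.none Ext.none)

def k0_pm_303 : ∃ t, chk3 f_pm_303 t 2 1 1 = true :=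
  ⟨(b (l 3) (a (l 1) (b (b (b (b (b (l 3) (l 1)) (l 1)) (l 1)) (l 1)) (l 1)))), by decide +kernel⟩

def k1_pm_303 : ∃ t, chk3 f_pm_303 t 6 4 1 = true :=
  ⟨(l 3), by decide +kernel⟩

def k2_pm_303 : ∃ t, chk3 f_pm_303 t 12 5 1 = true :=
  ⟨(b (l 3) (a (b (l 3) (b (l 3) (b (a (l 3) (a (l 3) (c (c (l 14401456) (c (a (a (l 3) (l 14389696)) (l 14413376)) (l 379193731031))) (l 14284056)))) (c (a (l 14127912) (c (l 14315288) (a (l 14227200) (c (l 14331120) (a (b (l 14312880) (l 14265120)) (b (l 14345440) (l 14337648))))))) (a (a (l 3) (a (l 3) (c (c (l 14136104) (c (l 14117648) (l 380804038951))) (l 14077128)))) (c (a (c (a (l 347518151495) (c (l 14222392) (l 14217296))) (a (c (l 351813101015) (l 14147808)) (l 14192496))) (c (a (l 14259368) (l 14301112)) (l 14251560))) (l 14188920))))))) (b (a (l 3) (b (l 3) (c (l 15128960) (l 15070992)))) (a (c (b (a (a (l 3) (b (l 3) (b (l 3) (a (l 14509888) (l 14530416))))) (b (a (l 3) (l 14698616)) (a (b (l 367382891271) (a (l 14554360) (l 14554856)))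 (c (l 14638472) (l 14596392))))) (c (a (c (l 14487296) (b (a (l 14490872) (l 14525656)) (l 14434208))) (b (b (c (l 14621648) (l 14566304)) (l 14596808)) (c (l 14570192) (l 14555544)))) (a (c (b (a (l 14456080) (l 14474912)) (a (l 14400824) (l 14464792))) (b (l 14429376) (l 14381520))) (b (l 14518056) (l 14521400))))) (b (b (l 14536872) (b (l 14474712) (l 14494440))) (l 14397528))) (b (a (b (c (l 14831408) (l 14762984)) (c (a (l 14700504) (l 14824248)) (l 14688720))) (b (c (l 15124072) (l 15065968)) (c (l 15081608) (l 15021992)))) (c (a (b (a (l 14511520) (l 14787016)) (b (a (l 14635864) (l 14664936)) (l 14649360))) (b (l 15114576) (l 14885512))) (a (b (b (l 14673352) (l 14619184)) (l 14546080)) (b (l 15056104) (l 14816656))))))))), by decide +kernel⟩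

def k3_pm_303 : ∃ t, chk3 f_pm_303 t 13 5 1 = true :=
  ⟨(b (a (b (l 3) (a (l 3) (l 424293713367))) (b (b (l 3) (l 526837105063)) (a (l 16238808) (b (l 16550848) (l 16479584))))) (a (b (a (b (l 394765021959) (b (c (l 15510464) (l 15465912)) (a (c (l 15440000) (l 15393008)) (l 15604016)))) (b (a (l 15758032) (l 15899880)) (a (l 15797000) (l 16011296)))) (a (b (b (a (c (l 15432432) (l 15385168)) (l 15673896)) (a (l 15628784) (c (l 16172256) (l 16151000)))) (c (b (a (l 15590936) (l 16052208)) (l 15443648)) (b (a (l 15549216) (l 16026712)) (l 15392536)))) (b (b (l 16305984) (c (l 16521880) (l 16512912))) (b (l 16257104) (a (l 15839768) (l 16120168)))))) (b (a (b (a (l 16042752) (l 16209912)) (l 16381952)) (b (l 16485896) (l 16698080))) (a (b (b (l 16696504) (l 16675192)) (l 16354432)) (b (l 16745192) (l 16487696)))))), by decide +kernel⟩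

def k4_pm_303 : ∃ t, chk3 f_pm_303 t 7 2 1 = true :=
  ⟨(b (a (b (l 3) (c (l 440938514695) (l 445233479287))) (c (b (l 385103865111) (a (l 16659752) (l 16659752))) (b (l 416242460103) (a (l 16655616) (l 16655616))))) (a (b (a (b (c (l 302963409671) (l 310479600743)) (a (b (a (l 16720856) (l 16775752)) (l 16718184)) (l 16775448))) (b (l 16743968) (l 16777216))) (a (b (a (b (l 16719856) (l 16774744)) (b (l 16776144) (l 16776976))) (b (l 16748120) (l 16633008))) (b (l 16777216) (a (b (l 16776488) (l 16757656)) (l 16777216))))) (b (a (b (l 16743968) (l 16777216)) (l 16758880)) (l 16777216)))), by decide +kernel⟩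

def k5_pm_303 : ∃ t, chk3 f_pm_303 t 12 24 1 = true :=
  ⟨(a (a (b (a (c (b (l 14040160) (l 13955272)) (b (a (l 3) (b (l 3) (b (l 3) (l 13935512)))) (l 13864752))) (c (b (b (l 14111160) (l 14082128)) (l 14061552)) (c (b (b (l 14053600) (b (l 14027904) (l 14016040))) (l 13995848)) (b (c (a (b (l 383488260631) (l 13966352)) (c (l 335169952727) (a (l 335706832295) (l 14023208)))) (a (b (l 13965416) (c (l 13948552) (l 13934368))) (l 13992632))) (b (a (l 13942824) (l 14000280)) (l 13967776)))))) (c (l 1466222328535) (l 13840520))) (b (c (b (a (b (l 14192728) (l 14158088)) (l 14277248)) (b (c (l 14230392) (a (l 14168552) (l 14243328))) (a (l 14155232) (c (l 14293416) (l 14237504))))) (b (c (a (c (l 14128232) (a (b (l 14102824) (l 14079776)) (l 14140032))) (b (c (l 14242312) (l 14222368)) (l 14223424))) (a (c (b (l 14107016) (l 14073824)) (l 14056872)) (l 14176528))) (c (a (b (l 14117200) (l 14122704)) (l 14210784)) (b (l 14132912) (l 14143432))))) (c (b (a (l 14118480) (c (l 14268528)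 (l 14267704))) (l 14187088)) (b (a (c (l 14114608) (b (l 14096632) (l 14092744))) (c (b (l 14236832) (l 14245328)) (l 14210232))) (a (l 14069744) (b (a (l 14209880) (l 14275472)) (l 1367975562551))))))) (c (a (b (b (c (l 14471744) (l 14434832)) (c (l 14423824) (l 14396888))) (b (a (c (l 14395024) (l 14367456)) (l 14455192)) (a (b (l 14405872) (l 14411184)) (b (l 14494328) (l 14510520))))) (b (b (a (l 14626488) (b (a (l 14723816) (l 14803088)) (l 14761744))) (l 14653360)) (b (l 14642600) (a (l 14578680) (l 14705200))))) (b (b (a (l 14385568) (l 14607624)) (l 14483560)) (a (b (l 14384504) (a (c (b (l 14359240) (l 14368024)) (b (l 14330872) (l 14340096))) (l 14428728))) (l 14629944))))), by decide +kernel⟩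

def k6_pm_303 : ∃ t, chk3 f_pm_303 t 12 25 1 = true :=
  ⟨(a (b (b (a (l 1) (c (l 14143224) (l 14110496))) (l 1)) (l 1)) (b (a (a (b (b (c (l 14404984) (c (l 14371384) (a (l 14320376) (l 14375992)))) (l 14375608)) (l 14330776)) (b (b (b (c (l 14525120) (l 14455744)) (l 14513856)) (l 14514432)) (l 14506904))) (b (b (c (b (l 14643544) (l 14656264)) (l 14618992)) (l 14643424)) (c (l 14689944) (l 14643496)))) (a (l 14374136) (b (c (l 14696784) (a (l 14601464) (l 14711816))) (a (l 14584528) (c (l 14761352) (l 14726560))))))), by decide +kernel⟩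

def k7_pm_303 : ∃ t, chk3 f_pm_303 t 12 13 1 = true :=
  ⟨(b (a (l 1) (b (l 1135510453559) (l 1))) (l 1)), by decide +kernel⟩

def k8_pm_303 : ∃ t, chk3 f_pm_303 t 13 12 1 = true :=
  ⟨(b (a (b (b (a (b (l 15182840) (a (l 14917168) (l 15216952))) (a (l 15605704) (l 15896704))) (a (c (a (l 14863472) (l 15108080)) (l 14950792)) (l 15533632))) (a (c (a (l 14855480) (b (l 15006296) (l 14964448))) (b (l 14868472) (l 14854112))) (a (b (l 15217104) (c (b (l 15154616) (l 15102408)) (l 15077272))) (l 15415344)))) (a (b (b (l 16121000) (l 16021048)) (a (l 15687184) (b (l 15979136) (l 15845840)))) (b (l 16291456) (l 16106104)))) (a (b (a (c (l 14879384) (l 14859744)) (l 15121496)) (a (c (b (l 14913976) (a (l 14885288) (l 14981040))) (b (l 14872632) (a (l 14835160) (l 14917568)))) (c (l 15115704) (l 15099000)))) (b (a (l 15529240) (l 15911304)) (a (b (l 15387752) (l 15336808)) (l 15715864))))), by decide +kernel⟩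

def k9_pm_303 : ∃ t, chk3 f_pm_303 t 13 13 1 = true :=
  ⟨(b (a (b (a (b (c (l 14940904) (a (l 14851808) (l 14958480))) (a (l 14840168) (c (l 15007576) (l 14977184)))) (c (b (l 15151400) (a (l 15125720) (l 15219096))) (b (l 15114984) (a (l 15081768) (l 15161392))))) (a (l 14898536) (b (c (a (l 15130864) (l 15245872)) (a (b (l 15103112) (l 15106896)) (l 15205000))) (a (l 15097672) (c (l 15254256) (b (l 15227824) (l 15233248))))))) (a (b (c (l 15349456) (l 15335352)) (c (b (l 15387416) (a (l 15365952) (l 15455664))) (b (l 15355904) (a (l 15328176) (l 15404704))))) (b (b (l 15611488) (l 15568584)) (c (l 15579496) (l 15556456))))) (a (b (a (l 1) (l 15165232)) (l 1)) (b (a (b (a (c (l 15377752) (b (l 15352584) (l 15359752))) (c (l 15485960) (l 15451272))) (a (l 15357008) (c (l 15501344) (b (l 15477360) (l 15486392))))) (c (b (l 15621760) (a (l 15605872) (l 15691104))) (b (l 15595176) (a (c (l 15586232) (l 15572928)) (l 15647432))))) (a (b (l 15439944) (l 1)) (b (a (c (l 15629216) (b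 (l 15602168) (l 15611304))) (c (b (l 15720816) (l 15734752)) (c (l 15705192) (l 15693240)))) (l 15685920)))))), by decide +kernel⟩

def k10_pm_303 : ∃ t, chk3 f_pm_303 t 6 7 1 = true :=
  ⟨(a (l 1) (b (a (l 1) (b (b (l 15595744) (l 1)) (l 1))) (l 1))), by decide +kernel⟩

def k11_pm_303 : ∃ t, chk3 f_pm_303 t 7 3 1 = true :=
  ⟨(b (a (b (b (a (a (l 16390328) (l 16528984)) (a (l 16652248) (l 16750616))) (a (l 16143432) (l 16514248))) (a (b (a (b (l 15868384) (a (l 15733128) (l 15850704))) (l 16023848)) (b (a (c (b (l 15800400) (l 15824088)) (l 15799080)) (b (l 15980520) (a (l 15946560) (l 16022616)))) (a (a (b (b (l 15769808) (l 15828184)) (l 15844680)) (l 15886312)) (l 16016408)))) (b (l 16298696) (b (a (l 16101424) (l 16256712)) (a (l 16178080) (l 16298200)))))) (b (b (l 16777216) (a (l 16747992) (l 16777216))) (a (b (a (l 16559168) (l 16713872)) (l 16526936)) (b (l 16776560) (l 16745544))))) (a (b (b (a (b (a (b (a (l 15872088) (l 15964616)) (l 759167855527)) (c (a (l 16061656)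 (l 16135904)) (l 16086144))) (a (l 15981064) (b (a (l 16116312) (l 16194872)) (a (l 16149040) (l 16241368))))) (a (b (l 16238536) (b (l 16305368) (a (l 16315560) (l 16379304)))) (b (l 16381176) (l 16457480)))) (a (b (l 16172576) (l 1)) (b (a (b (a (l 16366464) (l 16603832)) (a (l 16414032) (l 16491592))) (a (c (l 16531072) (l 16525880)) (l 16589368))) (a (l 16541688) (b (a (l 16616728) (c (l 16677920) (l 16675720))) (a (l 16680680) (c (l 16738576) (l 16737952)))))))) (a (l 1) (b (b (a (l 1) (l 16757088)) (l 1)) (l 1)))) (b (a (b (a (b (l 16490240) (l 16578128)) (l 16639584)) (a (b (l 16671728) (b (l 16744712) (a (c (l 16769624) (l 16769456)) (l 4)))) (b (a (l 16738488) (l 16763648)) (a (l 16777136) (l 4))))) (b (l 16742784) (b (l 16774840) (l 4)))) (b (l 4) (l 4))))), by decide +kernel⟩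

theorem s12_pm_303 : ∃ t, chk3 f_pm_303 t 13 6 1 = true := ex3_b k8_pm_303 k9_pm_303

theorem s13_pm_303 : ∃ t, chk3 f_pm_303 t 12 12 1 = true := ex3_b k5_pm_303 k6_pm_303

theorem s14_pm_303 : ∃ t, chk3 f_pm_303 t 12 6 1 = true := ex3_b s13_pm_303 k7_pm_303

theorem s15_pm_303 : ∃ t, chk3 f_pm_303 t 6 6 1 = true := ex3_a s14_pm_303 s12_pm_303

theorem s16_pm_303 : ∃ t, chk3 f_pm_303 t 6 3 1 = true := ex3_b s15_pm_303 k10_pm_303

theorem s17_pm_303 : ∃ t, chk3 f_pm_303 t 3 3 1 = true := ex3_a s16_pm_303 k11_pm_303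

theorem s18_pm_303 : ∃ t, chk3 f_pm_303 t 6 5 1 = true := ex3_a k2_pm_303 k3_pm_303

theorem s19_pm_303 : ∃ t, chk3 f_pm_303 t 6 2 1 = true := ex3_b k1_pm_303 s18_pm_303

theorem s20_pm_303 : ∃ t, chk3 f_pm_303 t 3 2 1 = true := ex3_a s19_pm_303 k4_pm_303

theorem s21_pm_303 : ∃ t, chk3 f_pm_303 t 3 1 1 = true := ex3_b s20_pm_303 s17_pm_303

theorem s22_pm_303 : ∃ t, chk3 f_pm_303 t 1 1 1 = true := ex3_a k0_pm_303 s21_pm_303

theorem c_pm_303 : CertNX 0 1230186008 0 1230186008 1046898278 26843546 3 false true false .npn 3 0 3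
    ndN6q3 ndN7q3 pcN0 Cut.none Ext.none :=
  certNX0 (fam := false) (s1 := true) (s2 := false) (a := 3) (b := 0) (c := 3) (cn := .npn) (n1 := ndN6q3) (n2 := ndN7q3) (pc := pcN0) (cut := Cut.none) (xt := Ext.none) (P1 := 0) (W1 := 1230186008) (P2 := 0) (W2 := 1230186008) (P3 := 1046898278) (W3 := 26843546) (N0 := 3)
    rfl s22_pm_303

noncomputable def f_pm_313 : ℕ → ℕ → ℕ → ℕ → Bool := onCell 0 1230186008 0 1230186008 1046898278 26843546
    (rowNX 3 0 false true false .dn 3 1 3 (qsf 0 1230186008 0 1230186008 1) ndN6q3 ndN7q3 pcN1 Cut.none Ext.none)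

def k0_pm_313 : ∃ t, chk3 f_pm_313 t 1 1 1 = true :=
  ⟨(a (l 1) (b (a (l 1) (a (l 1) (b (b (c (l 379735152471) (l 403894426567)) (l 1)) (l 1)))) (l 1))), by decide +kernel⟩

theorem c_pm_313 : CertNX 0 1230186008 0 1230186008 1046898278 26843546 3 false true false .dn 3 1 3
    ndN6q3 ndN7q3 pcN1 Cut.none Ext.none :=
  certNX0 (fam := false) (s1 := true) (s2 := false) (a := 3) (b := 1) (c := 3) (cn := .dn) (n1 := ndN6q3) (n2 := ndN7q3) (pc := pcN1) (cut := Cut.none) (xt := Ext.none) (P1 := 0) (W1 := 1230186008) (P2 := 0) (W2 := 1230186008) (P3 := 1046898278) (W3 := 26843546) (N0 := 3)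
    rfl k0_pm_313

noncomputable def f_mm_001 : ℕ → ℕ → ℕ → ℕ → Bool := onCell 0 536870912 536870912 536870912 1046898278 26843546
    (rowNX 3 0 false false false .up 0 0 1 (qsf 0 536870912 536870912 536870912 0) ndN6q0 ndN7q1 pcN0 Cut.none Ext.none)

def k0_mm_001 : ∃ t, chk3 f_mm_001 t 1 1 1 = true :=
  ⟨(l 3), by decide +kernel⟩

theorem c_mm_001 : CertNX 0 536870912 536870912 536870912 1046898278 26843546 3 false false false .up 0 0 1
    ndN6q0 ndN7q1 pcN0 Cut.none Ext.none :=
  certNX0 (fam := false) (s1 := false) (s2 := false) (a := 0) (b := 0) (c := 1) (cn := .up) (n1 := ndN6q0) (n2 := ndN7q1) (pc := pcN0) (cut := Cut.none) (xt := Ext.none) (P1 := 0) (W1 := 536870912) (P2 := 536870912) (W2 := 536870912) (P3 := 1046898278) (W3 := 26843546) (N0 := 3)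
    rfl k0_mm_001

noncomputable def f_mm_011 : ℕ → ℕ → ℕ → ℕ → Bool := onCell 0 536870912 536870912 536870912 1046898278 26843546
    (rowNX 3 0 false false false .pnn 0 1 1 (qsf 0 536870912 536870912 536870912 1) ndN6q0 ndN7q1 pcN1 Cut.none Ext.none)

def k0_mm_011 : ∃ t, chk3 f_mm_011 t 1 1 1 = true :=
  ⟨(l 3), by decide +kernel⟩

theorem c_mm_011 : CertNX 0 536870912 536870912 536870912 1046898278 26843546 3 false false false .pnn 0 1 1
    ndN6q0 ndN7q1 pcN1 Cut.none Ext.none :=
  certNX0 (fam := false) (s1 := false) (s2 := false) (a := 0) (b := 1) (c := 1) (cn := .pnn) (n1 := ndN6q0) (n2 := ndN7q1) (pc := pcN1) (cut := Cut.none) (xt := Ext.none) (P1 := 0) (W1 := 536870912) (P2 := 536870912) (W2 := 536870912) (P3 := 1046898278) (W3 := 26843546) (N0 := 3)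
    rfl k0_mm_011

noncomputable def f_mm_012 : ℕ → ℕ → ℕ → ℕ → Bool := onCell 0 536870912 1073741824 536870912 1046898278 26843546
    (rowNX 3 0 false false false .pnp 0 1 2 (qsf 0 536870912 1073741824 536870912 1) ndN6q0 ndN7q2 pcN1 Cut.none Ext.none)

def k0_mm_012 : ∃ t, chk3 f_mm_012 t 1 1 1 = true :=
  ⟨(l 5), by decide +kernel⟩

theorem c_mm_012 : CertNX 0 536870912 1073741824 536870912 1046898278 26843546 3 false false false .pnp 0 1 2
    ndN6q0 ndN7q2 pcN1 Cut.none Ext.none :=
  certNX0 (fam := false) (s1 := false) (s2 := false) (a := 0) (b := 1) (c := 2) (cn := .pnp) (n1 := ndN6q0) (n2 := ndN7q2) (pc := pcN1) (cut := Cut.none) (xt := Ext.none) (P1 := 0) (W1 := 536870912) (P2 := 1073741824) (W2 := 536870912) (P3 := 1046898278) (W3 := 26843546) (N0 := 3)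
    rfl k0_mm_012

noncomputable def f_mm_022 : ℕ → ℕ → ℕ → ℕ → Bool := onCell 0 536870912 1073741824 536870912 1046898278 26843546
    (rowNX 3 0 false false false .pp 0 2 2 (qsf 0 536870912 1073741824 536870912 2) ndN6q0 ndN7q2 pcN2 Cut.none Ext.none)

def k0_mm_022 : ∃ t, chk3 f_mm_022 t 1 1 1 = true :=
  ⟨(l 5), by decide +kernel⟩

theorem c_mm_022 : CertNX 0 536870912 1073741824 536870912 1046898278 26843546 3 false false false .pp 0 2 2
    ndN6q0 ndN7q2 pcN2 Cut.none Ext.none :=
  certNX0 (fam := false) (s1 := false) (s2 := false) (a := 0) (b := 2) (c := 2) (cn := .pp) (n1 := ndN6q0) (n2 := ndN7q2) (pc := pcN2) (cut := Cut.none) (xt := Ext.none) (P1 := 0) (W1 := 536870912) (P2 := 1073741824) (W2 := 536870912) (P3 := 1046898278) (W3 := 26843546) (N0 := 3)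
    rfl k0_mm_022

noncomputable def f_mm_023 : ℕ → ℕ → ℕ → ℕ → Bool := onCell 0 536870912 0 1230186008 1046898278 26843546
    (rowNX 3 0 false false false .up 0 2 3 (qsf 0 536870912 0 1230186008 2) ndN6q0 ndN7q3 pcN2 Cut.none Ext.none)

def k0_mm_023 : ∃ t, chk3 f_mm_023 t 1 1 1 = true :=
  ⟨(l 5), by decide +kernel⟩

theorem c_mm_023 : CertNX 0 536870912 0 1230186008 1046898278 26843546 3 false false false .up 0 2 3
    ndN6q0 ndN7q3 pcN2 Cut.none Ext.none :=
  certNX0 (fam := false) (s1 := false) (s2 := false) (a := 0) (b := 2) (c := 3) (cn := .up) (n1 := ndN6q0) (n2 := ndN7q3) (pc := pcN2) (cut := Cut.none) (xt := Ext.none) (P1 := 0) (W1 := 536870912) (P2 := 0) (W2 := 1230186008) (P3 := 1046898278) (W3 := 26843546) (N0 := 3)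
    rfl k0_mm_023

noncomputable def f_mm_033 : ℕ → ℕ → ℕ → ℕ → Bool := onCell 0 536870912 0 1230186008 1046898278 26843546
    (rowNX 3 0 false false false .pnn 0 3 3 (qsf 0 536870912 0 1230186008 3) ndN6q0 ndN7q3 pcN3 Cut.none Ext.none)

def k0_mm_033 : ∃ t, chk3 f_mm_033 t 1 1 1 = true :=
  ⟨(l 5), by decide +kernel⟩

theorem c_mm_033 : CertNX 0 536870912 0 1230186008 1046898278 26843546 3 false false false .pnn 0 3 3
    ndN6q0 ndN7q3 pcN3 Cut.none Ext.none :=
  certNX0 (fam := false) (s1 := false) (s2 := false) (a := 0) (b := 3) (c := 3) (cn := .pnn) (n1 := ndN6q0) (n2 := ndN7q3) (pc := pcN3) (cut := Cut.none) (xt := Ext.none) (P1 := 0) (W1 := 536870912) (P2 := 0) (W2 := 1230186008) (P3 := 1046898278) (W3 := 26843546) (N0 := 3)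
    rfl k0_mm_033

noncomputable def f_mm_101 : ℕ → ℕ → ℕ → ℕ → Bool := onCell 536870912 469762048 536870912 536870912 1046898278 26843546
    (rowNX 3 0 false false false .npn 1 0 1 (qsf 536870912 469762048 536870912 536870912 0) ndN6q1 ndN7q1 pcN0 Cut.none Ext.none)

def k0_mm_101 : ∃ t, chk3 f_mm_101 t 1 1 1 = true :=
  ⟨(l 3), by decide +kernel⟩

theorem c_mm_101 : CertNX 536870912 469762048 536870912 536870912 1046898278 26843546 3 false false false .npn 1 0 1
    ndN6q1 ndN7q1 pcN0 Cut.none Ext.none :=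
  certNX0 (fam := false) (s1 := false) (s2 := false) (a := 1) (b := 0) (c := 1) (cn := .npn) (n1 := ndN6q1) (n2 := ndN7q1) (pc := pcN0) (cut := Cut.none) (xt := Ext.none) (P1 := 536870912) (W1 := 469762048) (P2 := 536870912) (W2 := 536870912) (P3 := 1046898278) (W3 := 26843546) (N0 := 3)
    rfl k0_mm_101

noncomputable def f_mm_102 : ℕ → ℕ → ℕ → ℕ → Bool := onCell 536870912 469762048 1073741824 536870912 1046898278 26843546
    (rowNX 3 0 false false false .npp 1 0 2 (qsf 536870912 469762048 1073741824 536870912 0) ndN6q1 ndN7q2 pcN0 Cut.none Ext.none)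

def k0_mm_102 : ∃ t, chk3 f_mm_102 t 1 1 1 = true :=
  ⟨(l 5), by decide +kernel⟩

theorem c_mm_102 : CertNX 536870912 469762048 1073741824 536870912 1046898278 26843546 3 false false false .npp 1 0 2
    ndN6q1 ndN7q2 pcN0 Cut.none Ext.none :=
  certNX0 (fam := false) (s1 := false) (s2 := false) (a := 1) (b := 0) (c := 2) (cn := .npp) (n1 := ndN6q1) (n2 := ndN7q2) (pc := pcN0) (cut := Cut.none) (xt := Ext.none) (P1 := 536870912) (W1 := 469762048) (P2 := 1073741824) (W2 := 536870912) (P3 := 1046898278) (W3 := 26843546) (N0 := 3)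
    rfl k0_mm_102

noncomputable def f_mm_112 : ℕ → ℕ → ℕ → ℕ → Bool := onCell 536870912 469762048 1073741824 536870912 1046898278 26843546
    (rowNX 3 0 false false false .dn 1 1 2 (qsf 536870912 469762048 1073741824 536870912 1) ndN6q1 ndN7q2 pcN1 Cut.none Ext.none)

def k0_mm_112 : ∃ t, chk3 f_mm_112 t 1 1 1 = true :=
  ⟨(l 5), by decide +kernel⟩

theorem c_mm_112 : CertNX 536870912 469762048 1073741824 536870912 1046898278 26843546 3 false false false .dn 1 1 2
    ndN6q1 ndN7q2 pcN1 Cut.none Ext.none :=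
  certNX0 (fam := false) (s1 := false) (s2 := false) (a := 1) (b := 1) (c := 2) (cn := .dn) (n1 := ndN6q1) (n2 := ndN7q2) (pc := pcN1) (cut := Cut.none) (xt := Ext.none) (P1 := 536870912) (W1 := 469762048) (P2 := 1073741824) (W2 := 536870912) (P3 := 1046898278) (W3 := 26843546) (N0 := 3)
    rfl k0_mm_112

noncomputable def f_mm_113 : ℕ → ℕ → ℕ → ℕ → Bool := onCell 536870912 469762048 0 1230186008 1046898278 26843546
    (rowNX 3 0 false false false .nn 1 1 3 (qsf 536870912 469762048 0 1230186008 1) ndN6q1 ndN7q3 pcN1 Cut.none Ext.none)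

def k0_mm_113 : ∃ t, chk3 f_mm_113 t 1 1 1 = true :=
  ⟨(l 5), by decide +kernel⟩

theorem c_mm_113 : CertNX 536870912 469762048 0 1230186008 1046898278 26843546 3 false false false .nn 1 1 3
    ndN6q1 ndN7q3 pcN1 Cut.none Ext.none :=
  certNX0 (fam := false) (s1 := false) (s2 := false) (a := 1) (b := 1) (c := 3) (cn := .nn) (n1 := ndN6q1) (n2 := ndN7q3) (pc := pcN1) (cut := Cut.none) (xt := Ext.none) (P1 := 536870912) (W1 := 469762048) (P2 := 0) (W2 := 1230186008) (P3 := 1046898278) (W3 := 26843546) (N0 := 3)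
    rfl k0_mm_113

noncomputable def f_mm_123 : ℕ → ℕ → ℕ → ℕ → Bool := onCell 536870912 469762048 0 1230186008 1046898278 26843546
    (rowNX 3 0 false false false .npn 1 2 3 (qsf 536870912 469762048 0 1230186008 2) ndN6q1 ndN7q3 pcN2 Cut.none Ext.none)

def k0_mm_123 : ∃ t, chk3 f_mm_123 t 1 1 1 = true :=
  ⟨(l 5), by decide +kernel⟩

theorem c_mm_123 : CertNX 536870912 469762048 0 1230186008 1046898278 26843546 3 false false false .npn 1 2 3
    ndN6q1 ndN7q3 pcN2 Cut.none Ext.none :=
  certNX0 (fam := false) (s1 := false) (s2 := false) (a := 1) (b := 2) (c := 3) (cn := .npn) (n1 := ndN6q1) (n2 := ndN7q3) (pc := pcN2) (cut := Cut.none) (xt := Ext.none) (P1 := 536870912) (W1 := 469762048) (P2 := 0) (W2 := 1230186008) (P3 := 1046898278) (W3 := 26843546) (N0 := 3)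
    rfl k0_mm_123

noncomputable def f_mm_133 : ℕ → ℕ → ℕ → ℕ → Bool := onCell 536870912 469762048 0 1230186008 1046898278 26843546
    (rowNX 3 0 false false false .dn 1 3 3 (qsf 536870912 469762048 0 1230186008 3) ndN6q1 ndN7q3 pcN3 Cut.none Ext.none)

def k0_mm_133 : ∃ t, chk3 f_mm_133 t 1 1 1 = true :=
  ⟨(l 5), by decide +kernel⟩

theorem c_mm_133 : CertNX 536870912 469762048 0 1230186008 1046898278 26843546 3 false false false .dn 1 3 3
    ndN6q1 ndN7q3 pcN3 Cut.none Ext.none :=
  certNX0 (fam := false) (s1 := false) (s2 := false) (a := 1) (b := 3) (c := 3) (cn := .dn) (n1 := ndN6q1) (n2 := ndN7q3) (pc := pcN3) (cut := Cut.none) (xt := Ext.none) (P1 := 536870912) (W1 := 469762048) (P2 := 0) (W2 := 1230186008) (P3 := 1046898278) (W3 := 26843546) (N0 := 3)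
    rfl k0_mm_133

noncomputable def f_mm_202 : ℕ → ℕ → ℕ → ℕ → Bool := onCell 1073741824 536870912 1073741824 536870912 1046898278 26843546
    (rowNX 3 0 false false false .pp 2 0 2 (qsf 1073741824 536870912 1073741824 536870912 0) ndN6q2 ndN7q2 pcN0 Cut.none Ext.none)

def k0_mm_202 : ∃ t, chk3 f_mm_202 t 1 1 1 = true :=
  ⟨(l 3), by decide +kernel⟩

theorem c_mm_202 : CertNX 1073741824 536870912 1073741824 536870912 1046898278 26843546 3 false false false .pp 2 0 2
    ndN6q2 ndN7q2 pcN0 Cut.none Ext.none :=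
  certNX0 (fam := false) (s1 := false) (s2 := false) (a := 2) (b := 0) (c := 2) (cn := .pp) (n1 := ndN6q2) (n2 := ndN7q2) (pc := pcN0) (cut := Cut.none) (xt := Ext.none) (P1 := 1073741824) (W1 := 536870912) (P2 := 1073741824) (W2 := 536870912) (P3 := 1046898278) (W3 := 26843546) (N0 := 3)
    rfl k0_mm_202

noncomputable def f_mm_203 : ℕ → ℕ → ℕ → ℕ → Bool := onCell 1073741824 536870912 0 1230186008 1046898278 26843546
    (rowNX 3 0 false false false .up 2 0 3 (qsf 1073741824 536870912 0 1230186008 0) ndN6q2 ndN7q3 pcN0 Cut.none Ext.none)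

def k0_mm_203 : ∃ t, chk3 f_mm_203 t 1 1 1 = true :=
  ⟨(b (l 5) (a (l 3) (l 3))), by decide +kernel⟩

theorem c_mm_203 : CertNX 1073741824 536870912 0 1230186008 1046898278 26843546 3 false false false .up 2 0 3
    ndN6q2 ndN7q3 pcN0 Cut.none Ext.none :=
  certNX0 (fam := false) (s1 := false) (s2 := false) (a := 2) (b := 0) (c := 3) (cn := .up) (n1 := ndN6q2) (n2 := ndN7q3) (pc := pcN0) (cut := Cut.none) (xt := Ext.none) (P1 := 1073741824) (W1 := 536870912) (P2 := 0) (W2 := 1230186008) (P3 := 1046898278) (W3 := 26843546) (N0 := 3)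
    rfl k0_mm_203

noncomputable def f_mm_213 : ℕ → ℕ → ℕ → ℕ → Bool := onCell 536870912 536870912 0 1230186008 1046898278 26843546
    (rowNX 3 2 false false false .pnn 2 1 3 (qsf 1073741824 536870912 0 1230186008 1) ndN6q2 ndN7q3 pcN1 Cut.none Ext.none)

def k0_mm_213 : ∃ t, chk3 f_mm_213 t 1 1 1 = true :=
  ⟨(b (l 5) (l 5)), by decide +kernel⟩

theorem c_mm_213 : CertNX 1073741824 536870912 0 1230186008 1046898278 26843546 3 false false false .pnn 2 1 3
    ndN6q2 ndN7q3 pcN1 Cut.none Ext.none :=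
  certNX2 (fam := false) (s1 := false) (s2 := false) (a := 2) (b := 1) (c := 3) (cn := .pnn) (n1 := ndN6q2) (n2 := ndN7q3) (pc := pcN1) (cut := Cut.none) (xt := Ext.none) (P1 := 1073741824) (W1 := 536870912) (P2 := 0) (W2 := 1230186008) (P3 := 1046898278) (W3 := 26843546) (N0 := 3)
    rfl (fun _ => rfl) k0_mm_213

noncomputable def f_mm_303 : ℕ → ℕ → ℕ → ℕ → Bool := onCell 0 1230186008 0 1230186008 1046898278 26843546
    (rowNX 3 0 false false false .npn 3 0 3 (qsf 0 1230186008 0 1230186008 0) ndN6q3 ndN7q3 pcN0 Cut.none Ext.none)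

def k0_mm_303 : ∃ t, chk3 f_mm_303 t 1 1 1 = true :=
  ⟨(a (b (l 3) (b (l 3) (l 1))) (b (a (l 3) (l 3)) (l 3))), by decide +kernel⟩

theorem c_mm_303 : CertNX 0 1230186008 0 1230186008 1046898278 26843546 3 false false false .npn 3 0 3
    ndN6q3 ndN7q3 pcN0 Cut.none Ext.none :=
  certNX0 (fam := false) (s1 := false) (s2 := false) (a := 3) (b := 0) (c := 3) (cn := .npn) (n1 := ndN6q3) (n2 := ndN7q3) (pc := pcN0) (cut := Cut.none) (xt := Ext.none) (P1 := 0) (W1 := 1230186008) (P2 := 0) (W2 := 1230186008) (P3 := 1046898278) (W3 := 26843546) (N0 := 3)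
    rfl k0_mm_303

noncomputable def f_mm_313 : ℕ → ℕ → ℕ → ℕ → Bool := onCell 0 1230186008 0 1230186008 1046898278 26843546
    (rowNX 3 0 false false false .dn 3 1 3 (qsf 0 1230186008 0 1230186008 1) ndN6q3 ndN7q3 pcN1 Cut.none Ext.none)

def k0_mm_313 : ∃ t, chk3 f_mm_313 t 1 1 1 = true :=
  ⟨(a (l 1) (b (a (l 1) (l 3)) (l 1))), by decide +kernel⟩

theorem c_mm_313 : CertNX 0 1230186008 0 1230186008 1046898278 26843546 3 false false false .dn 3 1 3
    ndN6q3 ndN7q3 pcN1 Cut.none Ext.none :=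
  certNX0 (fam := false) (s1 := false) (s2 := false) (a := 3) (b := 1) (c := 3) (cn := .dn) (n1 := ndN6q3) (n2 := ndN7q3) (pc := pcN1) (cut := Cut.none) (xt := Ext.none) (P1 := 0) (W1 := 1230186008) (P2 := 0) (W2 := 1230186008) (P3 := 1046898278) (W3 := 26843546) (N0 := 3)
    rfl k0_mm_313

end Pool.Agent.Strip051.G.IE1.Tab.C.NB67

namespace Pool.Agent.Strip051.G.IE1.Tab.C.NB70

open Pool.Agent.Strip051.PB Pool.Agent.Strip051.PB.T
open Pool.Agent.Strip051.G.IE1.Tab

noncomputable def f_pp_001 : ℕ → ℕ → ℕ → ℕ → Bool := onCell 0 536870912 536870912 536870912 1046898278 26843546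
    (rowNX 3 2 false true true .up 0 0 1 (qsf 0 536870912 536870912 536870912 0) ndN7q0 ndN0q1 pcN0 Cut.none Ext.none)

def k0_pp_001 : ∃ t, chk3 f_pp_001 t 2 1 1 = true :=
  ⟨(b (l 3) (b (b (l 3) (l 2)) (l 2))), by decide +kernel⟩

def k1_pp_001 : ∃ t, chk3 f_pp_001 t 3 2 1 = true :=
  ⟨(b (l 3) (a (l 3) (a (b (l 3) (a (b (l 3) (c (a (c (l 453286821895) (l 446307500039)) (c (l 410874019847) (l 407652794375))) (c (l 414095245319) (l 404968439815)))) (c (c (b (b (l 3) (l 428053889031)) (a (l 213842395143) (l 16777216))) (b (l 439328178183) (a (l 219747975175) (l 16777216)))) (b (c (l 432348856327) (l 423758921735)) (c (l 233706618887) (l 16777216)))))) (a (b (a (l 3) (b (l 3) (c (c (l 442549403655) (l 442012532743)) (c (l 440401920007) (l 437180694535))))) (c (c (b (c (l 204715589639) (l 207399944199)) (l 16777216)) (b (a (l 204178718727) (l 16777216)) (l 16777216))) (c (c (l 229411651591) (l 233706618887)) (b (l 233706618887) (l 16777216))))) (b (c (c (b (b (l 3) (l 453286821895))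 (a (b (l 437717565447) (l 16777216)) (l 205252460551))) (b (l 461339885575) (c (l 196125655047) (l 200420622343)))) (c (b (l 461339885575) (a (l 399599730695) (l 16777216))) (b (l 460266143751) (a (l 393694150663) (l 16777216))))) (c (c (b (l 16777216) (l 16777216)) (b (l 16777216) (l 16777216))) (c (b (l 16777216) (l 16777216)) (l 16777216)))))))), by decide +kernel⟩

def k2_pp_001 : ∃ t, chk3 f_pp_001 t 3 6 1 = true :=
  ⟨(a (a (a (b (l 3) (l 2)) (a (b (l 3) (l 2)) (b (b (l 3) (c (c (l 428053889031) (l 425369534471)) (c (l 420537696263) (l 414632116231)))) (a (l 2) (b (b (c (l 342624305159) (l 16777216)) (l 2)) (l 2)))))) (a (b (b (l 3) (c (c (b (a (l 432885727239) (l 380272377863)) (a (l 248202133511) (l 16777216))) (b (a (l 475835400199) (l 381346119687)) (l 255718326279))) (a (c (l 388862312455) (l 381882990599)) (c (l 254107713543) (l 16777216))))) (b (c (c (a (l 16777216) (l 16777216)) (l 16777216)) (c (l 16777216) (l 16777216))) (a (l 2) (c (l 299674488055) (l 286252714023)))))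 (b (c (c (b (b (l 437180694535) (a (l 402820956167) (l 16777216))) (a (l 16777216) (l 16777216))) (b (b (l 430738243591) (a (l 400673472519) (l 16777216))) (a (l 16777216) (l 16777216)))) (c (b (b (l 422148308999) (l 238001586183)) (l 16777216)) (b (b (l 411410890759) (l 363629379591)) (l 16777216)))) (c (b (c (l 16777216) (l 16777216)) (b (l 16777216) (l 16742824))) (b (c (l 16777216) (l 16777216)) (b (l 16777216) (l 16741616))))))) (a (b (c (c (a (b (a (l 234780360711) (l 16777216)) (l 16777216)) (b (l 16777216) (l 16777216))) (a (b (a (l 16777216) (l 16777216)) (l 16777216)) (b (l 16777216) (l 16777216)))) (c (a (b (l 245517778951) (l 16777216)) (l 16777216)) (a (b (l 16777216) (l 16777216)) (l 16777216)))) (c (b (a (l 16777216) (l 16777216)) (a (b (l 16777216) (l 16742824)) (l 16759864))) (b (a (l 16777216) (l 16777216)) (a (l 16712064) (l 16759256))))) (a (b (c (c (l 16777216) (l 16777216)) (c (l 16777216) (l 16777216))) (c (b (l 16777216) (l 16759864)) (b (l 16777216) (l 16759256))))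 (b (c (c (l 16777216) (l 16777216)) (c (l 16777216) (l 16777216))) (b (c (l 16777216) (l 16777216)) (l 16759560)))))), by decide +kernel⟩

def k3_pp_001 : ∃ t, chk3 f_pp_001 t 3 7 1 = true :=
  ⟨(b (b (a (a (l 2) (a (l 2) (c (l 16419080) (l 16431128)))) (a (a (c (l 16523936) (l 16515016)) (l 16519464)) (l 16477528))) (a (l 2) (a (l 210015683303) (l 16196936)))) (a (l 2) (b (c (b (l 15903792) (l 15606568)) (l 210551477751)) (a (l 2) (b (c (l 15399248) (l 15487024)) (c (l 15447504) (l 15374408))))))), by decide +kernel⟩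

theorem s4_pp_001 : ∃ t, chk3 f_pp_001 t 3 3 1 = true := ex3_b k2_pp_001 k3_pp_001

theorem s5_pp_001 : ∃ t, chk3 f_pp_001 t 3 1 1 = true := ex3_b k1_pp_001 s4_pp_001

theorem s6_pp_001 : ∃ t, chk3 f_pp_001 t 1 1 1 = true := ex3_a k0_pp_001 s5_pp_001

theorem c_pp_001 : CertNX 0 536870912 536870912 536870912 1046898278 26843546 3 false true true .up 0 0 1
    ndN7q0 ndN0q1 pcN0 Cut.none Ext.none :=
  certNX2 (fam := false) (s1 := true) (s2 := true) (a := 0) (b := 0) (c := 1) (cn := .up) (n1 := ndN7q0) (n2 := ndN0q1) (pc := pcN0) (cut := Cut.none) (xt := Ext.none) (P1 := 0) (W1 := 536870912) (P2 := 536870912) (W2 := 536870912) (P3 := 1046898278) (W3 := 26843546) (N0 := 3)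
    rfl (fun _ => rfl) s6_pp_001

noncomputable def f_pp_011 : ℕ → ℕ → ℕ → ℕ → Bool := onCell 536870912 536870912 536870912 536870912 1046898278 26843546
    (rowNX 3 2 false true true .pnn 0 1 1 (qsf 0 536870912 536870912 536870912 1) ndN7q0 ndN0q1 pcN1 Cut.none Ext.none)

def k0_pp_011 : ∃ t, chk3 f_pp_011 t 4 2 1 = true :=
  ⟨(b (a (b (l 3) (a (b (l 3) (c (c (l 468319207431) (l 471003561991)) (c (l 472077303815) (l 472077303815)))) (c (c (b (b (l 3) (l 470466691079)) (a (b (l 464024240135) (l 181630140423)) (b (l 397989117959) (l 16777216)))) (b (l 481740980231) (a (l 421611438087) (l 201494364167)))) (b (c (l 486572818439) (l 488720302087)) (c (a (l 420000825351) (l 16777216)) (l 393694150663)))))) (a (b (a (l 3) (l 1)) (c (b (c (a (b (l 469929820167) (l 399599730695)) (l 335577874439)) (a (l 429127630855) (l 342020325383))) (c (c (l 16777216) (l 16777216)) (l 16777216))) (c (b (a (l 429664501767) (l 16777216)) (l 16777216)) (b (l 385641086983) (l 16777216))))) (b (l 1) (c (c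 (b (l 300144394247) (l 16777216)) (l 199212662791)) (c (l 211023822855) (l 229277433863)))))) (c (a (b (a (b (c (b (a (l 452749950983) (l 16777216)) (a (l 16777216) (l 16777216))) (a (l 414095245319) (l 16777216))) (c (l 16777216) (l 16777216))) (c (c (l 16777216) (l 16777216)) (b (l 16777216) (l 16777216)))) (c (a (l 16777216) (l 16777216)) (a (l 16777216) (l 16777216)))) (b (c (c (l 16777216) (l 16777216)) (a (l 16777216) (l 16777216))) (a (c (l 16777216) (l 16777216)) (l 16777216)))) (a (b (c (a (b (a (l 411947761671) (l 16777216)) (l 16777216)) (b (l 16777216) (l 16777216))) (a (b (l 386714828807) (l 16777216)) (b (l 16777216) (l 16777216)))) (c (a (l 16777216) (l 16777216)) (a (l 16777216) (l 16777216)))) (b (c (a (l 16777216) (l 16777216)) (a (l 16777216) (l 16777216))) (a (c (l 16777216) (l 16777216)) (l 16777216)))))), by decide +kernel⟩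

def k1_pp_011 : ∃ t, chk3 f_pp_011 t 5 2 1 = true :=
  ⟨(b (a (a (b (l 1) (b (l 1) (c (l 296386297863) (l 16777216)))) (l 1)) (l 1)) (c (c (a (b (l 16777216) (l 16777216)) (b (l 16777216) (l 16777216))) (a (b (l 16777216) (l 16777216)) (l 167000408071))) (a (b (c (l 16777216) (l 16777216)) (c (l 16777216) (l 16777216))) (b (l 302291877847) (l 16777216))))), by decide +kernel⟩

def k2_pp_011 : ∃ t, chk3 f_pp_011 t 2 3 1 = true :=
  ⟨(b (b (a (c (c (a (a (l 16777216) (l 16777216)) (l 16777216)) (a (a (l 16777216) (l 16777216)) (l 16777216))) (c (a (a (l 16777216) (l 16777216)) (l 16777216)) (a (a (l 16777216) (l 16777216)) (l 16777216)))) (c (a (l 16777216) (l 16777216)) (l 16777216))) (a (a (b (a (c (l 16777216) (l 16777216)) (l 16777216)) (l 16759560)) (c (l 16768376) (l 16768064))) (c (b (l 16777216) (l 16759864)) (a (l 16768064) (l 16768064))))) (b (a (a (b (l 16519464) (l 16196936)) (b (l 16519464) (l 16196936))) (c (l 16363888) (l 16349328))) (b (a (c (b (l 15903792) (l 15627536))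 (l 15737344)) (c (b (l 15903792) (l 15627536)) (l 15737344))) (a (c (b (c (l 15544984) (l 15525640)) (l 15447504)) (b (l 15487024) (c (l 15411424) (l 15381672)))) (c (b (c (l 15524008) (l 15525640)) (l 15447504)) (b (l 15487024) (c (l 15390448) (l 15381672)))))))), by decide +kernel⟩

def k3_pp_011 : ∃ t, chk3 f_pp_011 t 3 1 1 = true :=
  ⟨(b (a (a (b (l 1) (b (l 1) (c (l 270616298103) (l 16759872)))) (l 1)) (l 1)) (b (a (a (a (b (l 16777152) (l 16768192)) (b (l 16732064) (l 16714136))) (b (a (l 16645880) (l 1)) (a (l 16601640) (a (l 16511368) (l 16306024))))) (a (b (l 1) (a (b (l 1) (l 16140592)) (l 1))) (l 1))) (a (b (a (a (l 16356608) (l 16312624)) (a (l 16189144) (a (l 16105264) (l 15968256)))) (a (b (b (l 15902304) (a (l 15607552) (l 15645160))) (b (c (a (l 15525152) (l 15572272)) (l 15515472)) (c (l 15479744) (a (l 15395488) (l 15471984))))) (b (a (b (l 15881360) (l 15683680)) (b (l 15648888) (a (l 15511224) (l 15329816)))) (b (c (a (l 15628728) (l 15309576)) (l 15474712))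 (c (l 15381192) (a (l 15570112) (b (l 15252144) (l 15224584)))))))) (b (a (a (b (l 15835952) (l 15516072)) (b (l 857413130215) (b (l 15189600) (l 14998832)))) (a (b (l 1) (b (l 1) (a (l 14710752) (l 1)))) (l 1))) (a (b (b (a (l 15233312) (l 14741840)) (a (l 14952224) (l 14433256))) (b (c (a (l 14859168) (l 14336064)) (l 14543488)) (c (l 14402016) (a (b (l 14708552) (l 14663472)) (b (l 14153544) (l 14102120)))))) (b (a (b (l 479990542183) (c (l 13936376) (l 13859464))) (a (a (b (l 1) (l 1048535412279)) (l 1)) (l 1))) (a (b (c (b (l 13833512) (l 13748592)) (l 13694104)) (c (l 13652272) (b (l 13579640) (l 13523384)))) (c (b (b (a (l 13374504) (l 1)) (c (l 13165384) (l 12889864))) (a (l 13160184) (l 12854704))) (b (a (l 13229648) (l 12907304)) (b (c (l 500389139143) (l 12927424)) (c (l 12899880) (a (l 13014272) (l 12676000))))))))))))), by decide +kernel⟩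

theorem s4_pp_011 : ∃ t, chk3 f_pp_011 t 2 2 1 = true := ex3_a k0_pp_011 k1_pp_011

theorem s5_pp_011 : ∃ t, chk3 f_pp_011 t 2 1 1 = true := ex3_b s4_pp_011 k2_pp_011

theorem s6_pp_011 : ∃ t, chk3 f_pp_011 t 1 1 1 = true := ex3_a s5_pp_011 k3_pp_011

theorem c_pp_011 : CertNX 0 536870912 536870912 536870912 1046898278 26843546 3 false true true .pnn 0 1 1
    ndN7q0 ndN0q1 pcN1 Cut.none Ext.none :=
  certNX2 (fam := false) (s1 := true) (s2 := true) (a := 0) (b := 1) (c := 1) (cn := .pnn) (n1 := ndN7q0) (n2 := ndN0q1) (pc := pcN1) (cut := Cut.none) (xt := Ext.none) (P1 := 0) (W1 := 536870912) (P2 := 536870912) (W2 := 536870912) (P3 := 1046898278) (W3 := 26843546) (N0 := 3)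
    rfl (fun _ => rfl) s6_pp_011

noncomputable def f_pp_012 : ℕ → ℕ → ℕ → ℕ → Bool := onCell 536870912 536870912 0 536870912 1046898278 26843546
    (rowNX 3 2 false true true .pnp 0 1 2 (qsf 0 536870912 0 536870912 1) ndN7q0 ndN0q2 pcN1 Cut.none Ext.none)

def k0_pp_012 : ∃ t, chk3 f_pp_012 t 2 1 1 = true :=
  ⟨(a (a (b (l 2) (b (l 2) (b (l 16071800) (b (l 15498936) (c (l 15501008) (l 15363992)))))) (b (b (l 2) (l 16777216)) (b (b (l 16777216) (l 16615176)) (b (l 16134712) (b (l 15582816) (c (l 15501008) (l 15259136))))))) (b (b (a (a (l 16761128) (c (l 16701072) (l 16698392))) (b (a (l 16483456) (l 4)) (a (b (l 16315264) (l 16593768)) (b (l 15935872) (l 16304032))))) (b (b (a (l 16773904) (l 16714800)) (l 16777216)) (l 16777216))) (b (b (l 16777216) (l 16615176)) (a (b (l 16155688) (b (l 15582816) (c (l 15501008) (l 15280104)))) (b (l 16155688) (b (l 15603792) (c (l 15501008) (l 15301080)))))))), by decide +kernel⟩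

def k1_pp_012 : ∃ t, chk3 f_pp_012 t 6 2 1 = true :=
  ⟨(b (b (l 4) (a (b (a (a (l 15651560) (l 4)) (l 4)) (a (a (l 15962592) (l 15700656)) (a (l 15404968) (a (l 15194912) (l 15086304))))) (a (a (l 15050600) (l 4)) (l 4)))) (a (a (b (b (l 16539832) (l 16776464)) (l 16776856)) (b (a (b (l 16056800) (l 16461656)) (b (l 15502928) (l 15919840))) (b (a (l 16608176) (c (l 16152088) (l 16175392))) (a (l 16656168) (c (l 16438152) (l 16443072)))))) (a (b (b (a (l 15134488) (l 14701072)) (b (l 15021408) (l 15140392))) (b (b (l 15324368) (b (b (l 15431672) (a (b (l 15694256) (l 15732784)) (a (l 15381952) (l 15118056)))) (a (c (l 16088968) (l 15911800)) (c (b (l 15405848) (l 15665088)) (l 15478280))))) (b (b (b (c (a (l 16163544) (l 15899184)) (l 16043344)) (c (l 16174960) (l 16161032))) (l 16220136)) (l 16232472)))) (b (b (l 14145624) (a (b (l 14271656) (l 14278880)) (l 13979792))) (b (b (a (l 14516392) (l 14125872)) (b (l 14495048) (a (a (b (c (l 15038912) (l 14977128)) (l 15296032)) (b (l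 14511472) (l 15090720))) (c (b (l 14445056) (l 14719440)) (b (l 14360760) (l 14645376)))))) (b (b (a (a (c (b (a (l 15730968) (l 15550984)) (l 15802440)) (b (l 15688608) (l 15848840))) (c (b (l 15494656) (l 15732872)) (b (l 15477424) (l 15708760)))) (c (b (c (l 15158648) (l 15158640)) (l 15418824)) (b (l 15106960) (l 15375448)))) (l 15687728)) (l 15712120))))))), by decide +kernel⟩

def k2_pp_012 : ∃ t, chk3 f_pp_012 t 6 3 1 = true :=
  ⟨(b (a (b (l 16463856) (a (l 16615368) (l 16540192))) (a (b (l 16273472) (l 16237600)) (b (l 15583504) (a (l 15967496) (l 15649560))))) (b (a (a (l 16155848) (l 16268040)) (a (l 16004824) (b (l 15684232) (l 15537816)))) (a (b (c (l 15747696) (l 15698216)) (c (l 15435592) (b (l 15555128) (l 15450024)))) (b (a (l 15700104) (c (l 15387440) (l 15331408))) (c (a (l 15625040) (l 15210464)) (a (l 15349400) (b (l 15275224) (l 15124992)))))))), by decide +kernel⟩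

def k3_pp_012 : ∃ t, chk3 f_pp_012 t 14 2 1 = true :=
  ⟨(b (l 4) (b (a (a (l 13782640) (c (a (l 13623368) (l 13555312)) (l 13476760))) (c (a (c (l 13572088) (l 13479192)) (a (c (l 13539400) (l 13432376)) (l 4))) (l 13352008))) (b (a (b (a (l 13789600) (a (l 13580040) (c (l 13558416) (l 13443408)))) (b (a (l 13851152) (a (l 13556416) (l 13454288))) (b (a (b (l 13875832) (a (l 14033232) (l 13769160))) (l 13482880)) (a (c (b (l 14031920) (l 14246096)) (l 14035688)) (a (c (l 13700920) (l 13591320)) (b (l 13409432) (c (l 13550696) (l 13435984)))))))) (a (b (c (c (b (l 13579952) (l 13608696)) (l 13523712)) (l 13432224)) (b (a (l 13508920) (l 13551304)) (b (l 13544112) (b (l 13549848) (c (a (l 13599136) (l 13681480)) (a (l 13483704) (l 13565712))))))) (c (c (a (c (l 13641696) (l 13617032)) (a (l 13640032) (l 13645656))) (c (a (l 13560376) (c (l 13606024) (l 13555136))) (l 13523664))) (l 13452552)))) (b (c (b (b (a (a (b (l 14572072) (l 14743480)) (b (a (l 14042960) (l 13811984)) (a (l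 14374432) (l 14165280)))) (a (a (b (l 13767792) (l 14081400)) (b (l 13752032) (l 13955872))) (a (l 13771368) (l 13920656)))) (a (a (c (l 14989408) (l 14935168)) (a (c (l 14657896) (l 14595352)) (b (l 14274704) (l 14470984)))) (a (b (c (l 14183960) (l 14175552)) (l 14333312)) (a (c (l 14157784) (l 14121736)) (l 13864776))))) (l 14648664)) (b (a (a (b (l 14570696) (l 14917760)) (a (b (l 14087168) (l 14565832)) (b (l 13851624) (b (l 14280816) (l 14412744))))) (a (b (b (l 13641096) (l 13881168)) (b (l 14126344) (l 14252424))) (b (a (l 13768344) (l 13823272)) (a (b (l 13998272) (l 14105520)) (l 13988832))))) (l 14573824))) (a (l 14878080) (l 14300120)))))), by decide +kernel⟩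

def k4_pp_012 : ∃ t, chk3 f_pp_012 t 14 3 1 = true :=
  ⟨(a (b (b (l 15013424) (l 15106168)) (b (l 14799064) (b (c (l 14791184) (l 14709440)) (c (l 14732168) (b (l 14679216) (l 14650904)))))) (b (b (l 14451720) (l 14559552)) (b (l 14416880) (b (c (l 14243176) (l 14139640)) (c (l 14186944) (b (l 14112104) (l 14085232))))))), by decide +kernel⟩

def k5_pp_012 : ∃ t, chk3 f_pp_012 t 15 1 1 = true :=
  ⟨(b (b (l 4) (b (l 4) (a (b (c (c (a (a (l 13574312) (l 13428520)) (l 13214040)) (a (c (a (a (c (l 13602664) (l 13548392)) (l 13531512)) (l 13439264)) (a (l 13485728) (c (l 13416168) (l 13375824)))) (a (c (l 13291056) (l 13289120)) (l 13144808)))) (a (l 13267744) (c (c (a (c (l 13258016) (l 13220472)) (l 12884416)) (l 13141112)) (l 13090648)))) (b (b (c (a (c (a (l 13958016) (l 13758368)) (l 13832712)) (a (l 13541928) (l 13325496))) (a (l 13753840) (b (l 13276224) (l 13418376)))) (a (l 13851656) (c (l 13480272) (l 13448208)))) (l 13701536))) (a (a (c (c (l 13124864) (l 13172464)) (c (c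 (l 13199080) (b (c (l 12991072) (l 12966824)) (a (c (l 13161896) (l 13227736)) (c (l 13160088) (l 13143840))))) (l 13135272))) (c (c (l 12926640) (l 12950112)) (c (c (l 12983456) (l 12932344)) (c (c (a (l 13029840) (l 12942808)) (l 12968944)) (l 12944336))))) (a (b (l 4) (c (l 12677680) (c (l 12781200) (c (a (c (l 12857096) (l 12847920)) (l 12747008)) (l 12777144))))) (c (l 12698984) (c (l 12612968) (c (l 12589216) (c (l 12456352) (a (l 12622720) (l 12528448))))))))))) (b (a (b (c (l 13901624) (l 13853440)) (c (l 14024176) (l 13969840))) (b (c (a (l 13305440) (l 12991424)) (a (l 13317848) (l 12946048))) (c (a (l 13464800) (l 13157640)) (a (l 13457728) (l 13102024))))) (b (a (c (l 13882384) (l 13812616)) (c (a (l 13346256) (l 13036920)) (a (l 13309824) (l 12855936)))) (a (b (c (l 13576624) (l 13559760)) (c (b (l 13618360) (l 13595368)) (b (l 13531680) (l 13504072)))) (b (c (b (l 12971400) (l 12932992)) (l 12886296)) (c (a (l 13099048) (l 12785912)) (b (l 12866864) (c (l 12871152)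 (l 12816776))))))))), by decide +kernel⟩

theorem s6_pp_012 : ∃ t, chk3 f_pp_012 t 14 1 1 = true := ex3_b k3_pp_012 k4_pp_012

theorem s7_pp_012 : ∃ t, chk3 f_pp_012 t 7 1 1 = true := ex3_a s6_pp_012 k5_pp_012

theorem s8_pp_012 : ∃ t, chk3 f_pp_012 t 6 1 1 = true := ex3_b k1_pp_012 k2_pp_012

theorem s9_pp_012 : ∃ t, chk3 f_pp_012 t 3 1 1 = true := ex3_a s8_pp_012 s7_pp_012

theorem s10_pp_012 : ∃ t, chk3 f_pp_012 t 1 1 1 = true := ex3_a k0_pp_012 s9_pp_012

theorem c_pp_012 : CertNX 0 536870912 0 536870912 1046898278 26843546 3 false true true .pnp 0 1 2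
    ndN7q0 ndN0q2 pcN1 Cut.none Ext.none :=
  certNX2 (fam := false) (s1 := true) (s2 := true) (a := 0) (b := 1) (c := 2) (cn := .pnp) (n1 := ndN7q0) (n2 := ndN0q2) (pc := pcN1) (cut := Cut.none) (xt := Ext.none) (P1 := 0) (W1 := 536870912) (P2 := 0) (W2 := 536870912) (P3 := 1046898278) (W3 := 26843546) (N0 := 3)
    rfl (fun _ => rfl) s10_pp_012

noncomputable def f_pp_022 : ℕ → ℕ → ℕ → ℕ → Bool := onCell 1073741824 536870912 0 536870912 1046898278 26843546
    (rowNX 3 2 false true true .pp 0 2 2 (qsf 0 536870912 0 536870912 2) ndN7q0 ndN0q2 pcN2 Cut.none Ext.none)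

def k0_pp_022 : ∃ t, chk3 f_pp_022 t 1 1 1 = true :=
  ⟨(a (a (b (a (b (l 4) (b (l 4) (b (l 4) (c (a (l 12844792) (a (l 13078720) (l 4))) (a (c (l 12520472) (a (l 12597064) (l 12761720))) (l 13042272)))))) (l 4)) (b (a (c (c (b (l 13190008) (l 13290560)) (a (l 13045936) (a (b (l 13187280) (l 13289144)) (b (l 13345712) (l 13429968))))) (c (a (b (l 12674600) (a (l 12982152) (l 13104128))) (b (l 13182360) (l 13279192))) (a (b (a (l 12793680) (l 12929384)) (a (c (l 12936352) (l 12898376)) (l 13043792))) (l 13170072)))) (a (c (c (b (a (l 13559136) (l 13672248)) (a (l 13621672) (l 13705544))) (b (l 13503320) (l 13557368))) (b (l 13409944) (l 13466552))) (b (a (l 13661856) (l 13934440)) (l 13609952)))) (a (a (b (c (l 12956720) (c (a (l 12804272) (l 12918104)) (a (b (l 12810280) (l 12654912)) (l 12853744)))) (c (b (b (l 12689544) (l 12681304)) (b (l 12649512) (l 12621680))) (b (c (l 12579968) (a (l 12452160) (l 12563840))) (b (c (l 12546080) (l 12466488)) (a (c (l 12468392) (c (l 12412112)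 (l 12369376))) (l 1)))))) (b (c (c (l 13216208) (a (l 13097464) (l 13225256))) (b (l 13133744) (l 12969536))) (a (b (a (c (l 12830488) (l 12679376)) (l 1)) (l 1)) (l 1)))) (b (a (c (a (c (l 13407928) (l 13306256)) (l 1)) (l 13141744)) (l 1)) (l 1))))) (b (l 4) (b (l 1) (l 1)))) (l 1)), by decide +kernel⟩

theorem c_pp_022 : CertNX 0 536870912 0 536870912 1046898278 26843546 3 false true true .pp 0 2 2
    ndN7q0 ndN0q2 pcN2 Cut.none Ext.none :=
  certNX2 (fam := false) (s1 := true) (s2 := true) (a := 0) (b := 2) (c := 2) (cn := .pp) (n1 := ndN7q0) (n2 := ndN0q2) (pc := pcN2) (cut := Cut.none) (xt := Ext.none) (P1 := 0) (W1 := 536870912) (P2 := 0) (W2 := 536870912) (P3 := 1046898278) (W3 := 26843546) (N0 := 3)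
    rfl (fun _ => rfl) k0_pp_022

noncomputable def cut_pp_101 : Cut := Cut.of [[⟨3, 0, 0, 1140850688⟩], [⟨0, 1, 0, 67108864⟩, ⟨1, 0, 0, 67108864⟩, ⟨2, 1, 0, 67108864⟩]]

noncomputable def f_pp_101 : ℕ → ℕ → ℕ → ℕ → Bool := onCell 0 536870912 536870912 536870912 1046898278 26843546
    (rowNX 3 2 false true true .npn 1 0 1 (qsf 536870912 536870912 536870912 536870912 0) ndN7q1 ndN0q1 pcN0 cut_pp_101 Ext.none)

def k0_pp_101 : ∃ t, chk3 f_pp_101 t 2 2 1 = true :=
  ⟨(l 3), by decide +kernel⟩

def k1_pp_101 : ∃ t, chk3 f_pp_101 t 4 6 1 = true :=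
  ⟨(l 3), by decide +kernel⟩

def k2_pp_101 : ∃ t, chk3 f_pp_101 t 4 14 1 = true :=
  ⟨(l 6), by decide +kernel⟩

def k3_pp_101 : ∃ t, chk3 f_pp_101 t 8 15 1 = true :=
  ⟨(a (l 6) (b (l 6) (a (l 6) (a (l 6) (a (l 6) (a (l 6) (b (l 6) (b (l 6) (b (l 6) (b (l 6) (b (l 6) (c (c (a (l 16578640) (l 16583312)) (c (c (l 16666760) (l 16592264)) (l 16572072))) (l 16527408))))))))))))), by decide +kernel⟩

def k4_pp_101 : ∃ t, chk3 f_pp_101 t 36 15 1 = true :=
  ⟨(b (l 6) (b (l 6) (a (b (l 6) (b (a (l 6) (b (l 6) (c (c (c (l 16512040) (c (a (l 6) (l 16518512)) (l 16397920))) (l 16447792)) (c (l 16440080) (c (l 16372248) (l 16431496)))))) (c (c (c (a (l 16602464) (l 16523312)) (a (c (l 16622440) (l 16477776)) (c (l 16385576) (c (l 16499032) (l 16438720))))) (c (c (a (c (l 16483432) (l 16465640)) (l 16343720)) (l 16346704)) (l 16467704))) (c (l 16464296) (c (l 16438408) (b (l 16365240) (c (l 16447776) (l 16384264)))))))) (b (b (l 6) (a (l 6) (b (l 6) (c (c (c (c (l 16417024) (l 16255648)) (l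 16303912)) (l 16295064)) (c (c (l 16281040) (l 16271632)) (l 16273544)))))) (c (c (c (a (b (c (l 16419272) (l 16326080)) (c (l 16429552) (l 16331440))) (b (c (a (l 16385728) (l 16363792)) (c (l 16347136) (l 16305032))) (c (l 16336504) (l 16242592)))) (a (c (b (c (l 16419312) (l 16323272)) (l 16248544)) (b (l 16364320) (l 16183776))) (c (b (c (l 16254760) (l 16259400)) (l 16154392)) (l 16100712)))) (b (l 16302408) (l 16242240))) (c (b (l 16206712) (l 16233656)) (b (c (b (l 16294584) (l 16144560)) (l 16279880)) (c (l 16225752) (b (l 16239456) (l 16123496)))))))))), by decide +kernel⟩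

def k5_pp_101 : ∃ t, chk3 f_pp_101 t 37 15 1 = true :=
  ⟨(b (l 6) (b (a (l 6) (a (l 6) (b (l 6) (b (l 6) (c (b (l 6) (b (l 6) (c (l 16050064) (l 16019008)))) (l 16056448)))))) (c (c (a (c (b (b (a (l 6) (l 16198632)) (c (a (c (l 16287880) (l 16148776)) (c (l 16001296) (l 16130328))) (a (l 16146032) (l 16124344)))) (b (c (a (l 16231760) (c (l 16111488) (l 16076864))) (a (c (l 16190832) (l 16165296)) (l 16052664))) (c (a (l 16089200) (l 16067800)) (a (c (l 16170368) (l 16127872)) (l 15870696))))) (b (l 16097936) (b (l 16096632) (c (a (l 16072552) (l 15965304)) (l 16018928))))) (b (b (l 16049672) (a (l 16020888) (l 15916952))) (c (b (c (a (c (l 15963256) (l 15945088)) (l 15834216)) (l 15883976)) (c (a (l 15904512) (l 15715544)) (l 15694864))) (l 15833728)))) (b (b (b (a (l 6) (l 15961360)) (l 15916800)) (a (l 16157128) (l 15950032))) (a (l 16049352) (l 15821776)))) (b (c (b (c (a (b (l 6) (l 16124664)) (b (l 16032848) (l 15988232))) (l 15926664)) (c (a (l 16142344) (l 15932688)) (b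 (a (l 16152512) (l 15944528)) (a (l 16115480) (l 15900640))))) (a (l 16169968) (l 15962560))) (c (b (b (l 15790096) (l 15941256)) (l 15879632)) (b (c (b (l 15861280) (c (l 15928464) (l 15903464))) (l 15942488)) (c (l 15804224) (b (l 15736968) (c (l 15840480) (l 15795288)))))))))), by decide +kernel⟩

def k6_pp_101 : ∃ t, chk3 f_pp_101 t 38 15 1 = true :=
  ⟨(b (l 6) (a (b (b (l 6) (b (b (l 6) (a (l 6) (c (c (l 16069168) (c (l 16034480) (l 16069656))) (l 16055344)))) (c (c (a (l 16019360) (l 15975888)) (c (b (l 15960952) (l 15939944)) (a (b (l 16029056) (l 15955792)) (b (l 15986368) (l 15910312))))) (a (l 15990792) (l 15945456))))) (c (b (c (a (b (l 15908776) (l 15811864)) (b (l 15844448) (l 15719528))) (b (a (b (l 15906800) (l 15854544)) (b (l 15851744) (l 15782304))) (a (l 15790344) (l 15696448)))) (c (a (l 15583744) (l 15560472)) (a (l 15648504) (l 15539784)))) (b (c (b (c (a (b (l 15892656) (l 15834768)) (b (l 15836936) (l 15761680))) (l 15796688)) (a (c (l 15771016) (l 15761528))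 (c (l 15675968) (a (l 15680104) (l 15647392))))) (a (l 15807104) (l 15726240))) (c (b (a (l 15676064) (l 15567952)) (l 15522728)) (b (c (b (l 15628256) (c (l 15581952) (l 15576440))) (l 15596864)) (c (l 15505616) (b (l 15523832) (c (l 15471832) (l 15466976))))))))) (b (b (b (l 6) (b (l 6) (b (l 6) (c (c (l 16186168) (l 16203184)) (l 16189640))))) (c (c (b (c (l 16118056) (l 16101464)) (l 15989824)) (b (c (b (l 16146952) (l 16066776)) (l 16115328)) (c (l 15965344) (l 15943352)))) (l 16030968))) (c (b (c (l 15792656) (b (l 15836688) (l 15701472))) (b (l 15581232) (l 15460984))) (b (c (b (c (l 15819592) (l 15820680)) (c (l 15681208) (l 15671008))) (l 15735584)) (c (b (l 15546992) (l 15427712)) (b (c (b (l 15557304) (l 15496744)) (l 15520224)) (c (l 15409424) (b (l 15427456) (l 15368928)))))))))), by decide +kernel⟩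

def k7_pp_101 : ∃ t, chk3 f_pp_101 t 39 15 1 = true :=
  ⟨(b (a (l 6) (a (l 6) (b (l 6) (b (l 6) (b (l 6) (c (l 16442032) (l 16519944))))))) (b (b (a (a (b (l 6) (c (c (c (l 16252792) (b (l 16301872) (l 16222736))) (l 16273256)) (l 16261600))) (c (c (b (c (b (l 6) (l 16254808)) (l 16401744)) (c (l 16264704) (l 16230384))) (b (l 16398448) (l 16285192))) (b (l 16389856) (l 16273968)))) (c (b (c (c (b (l 16385624) (l 16379024)) (l 16367192)) (l 16427280)) (c (c (l 16285984) (l 16230744)) (l 16306584))) (b (l 16377736) (l 16296120)))) (c (c (b (c (l 16164824) (l 16149112)) (l 16046344)) (b (c (b (l 16192104) (l 16117240)) (l 16163232)) (c (l 16023232) (l 15959720)))) (l 16001448))) (c (b (c (l 15863672) (b (l 15904552) (l 15779064))) (l 15588256)) (b (c (b (c (l 15888648) (l 15890160)) (c (l 15760168) (l 15750768))) (l 15811160)) (c (l 15534888) (b (c (l 15610984) (l 15600128)) (c (l 15470704) (l 15377080)))))))), by decide +kernel⟩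

def k8_pp_101 : ∃ t, chk3 f_pp_101 t 5 6 1 = true :=
  ⟨(l 6), by decide +kernel⟩

def k9_pp_101 : ∃ t, chk3 f_pp_101 t 10 14 1 = true :=
  ⟨(a (l 6) (b (l 6) (b (l 6) (b (l 6) (a (l 6) (c (l 16599496) (l 16616992))))))), by decide +kernel⟩

def k10_pp_101 : ∃ t, chk3 f_pp_101 t 10 30 1 = true :=
  ⟨(a (a (b (l 6) (b (a (l 6) (c (l 16569648) (l 16582880))) (c (b (a (l 16629088) (l 16600400)) (c (b (l 16514400) (a (l 16498160) (l 16566432))) (a (l 16535080) (l 16593704)))) (b (a (l 16626656) (l 16619296)) (a (l 16510288) (l 16591288)))))) (a (b (l 6) (b (c (l 16595752) (l 16592344)) (c (b (l 16574904) (l 16611176)) (b (l 16571328) (l 16609616))))) (b (b (l 6) (c (l 16643344) (l 16641304))) (b (c (l 16541736) (l 16559208)) (c (b (l 16571952) (l 16593344)) (l 16577000)))))) (b (c (a (c (l 16657552) (l 16656832)) (b (l 16601744) (l 16592744))) (a (b (l 16654616) (l 16641848)) (b (l 16598344) (l 16590016)))) (b (c (a (a (l 16588920) (l 16596688)) (l 16569152)) (a (a (l 16586096) (l 16594648))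 (l 16566488))) (c (a (l 16525312) (l 16505400)) (a (l 16564464) (l 16500952)))))), by decide +kernel⟩

def k11_pp_101 : ∃ t, chk3 f_pp_101 t 10 31 1 = true :=
  ⟨(a (b (b (c (a (c (b (c (b (l 16490000) (l 16420080)) (l 16470232)) (c (l 16332952) (l 16256896))) (l 16348080)) (c (b (c (b (l 16507648) (l 16406792)) (l 16512800)) (a (l 16285272) (c (l 16407352) (l 16415424)))) (a (l 16459136) (l 16470296)))) (a (l 16403640) (a (l 16453552) (l 16465304)))) (c (c (a (b (l 16131976) (l 16128656)) (a (l 16243552) (l 16281592))) (a (b (c (l 16225912) (l 16236520)) (c (l 16107472) (l 16107520))) (b (c (l 16218624) (l 16313296)) (c (l 16194448) (l 16195184))))) (a (l 16166296) (l 16166504)))) (c (b (a (c (l 15962208) (l 15899248)) (a (l 15880440) (l 15888816))) (a (l 15710728) (l 15832200))) (b (c (b (a (l 15984680) (l 16020848)) (c (a (l 15868432) (l 15977288)) (a (l 15860152) (l 15970144)))) (a (l 15916096) (l 16022248))) (c (a (l 15682024) (l 15807216)) (b (a (l 15733728) (l 15729824)) (c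 (l 15649536) (a (l 15596200) (l 15729912)))))))) (b (c (b (c (b (c (a (l 16433944) (l 16413296)) (l 16426176)) (c (l 16366312) (l 16310648))) (l 16352568)) (c (a (l 16276344) (l 16292616)) (a (b (l 16324856) (l 16187472)) (b (l 16309472) (l 16254000))))) (b (l 16367624) (a (l 16287712) (l 16283232)))) (c (b (a (b (l 16186232) (l 16106224)) (l 16187792)) (a (l 15966968) (l 16071136))) (b (c (b (a (l 16169080) (l 16197256)) (c (l 16112440) (l 16043872))) (l 16138112)) (c (a (l 15946144) (l 16053704)) (b (a (l 15988696) (l 16082432)) (c (l 15948296) (l 15796232)))))))), by decide +kernel⟩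

def k12_pp_101 : ∃ t, chk3 f_pp_101 t 11 7 1 = true :=
  ⟨(b (a (b (l 6) (b (a (l 6) (b (l 6) (c (l 16585016) (l 16580392)))) (c (a (c (l 16585104) (l 16582888)) (c (l 16527984) (l 16525000))) (a (c (l 16580640) (l 16578368)) (l 16478488))))) (b (b (l 6) (a (a (l 6) (a (l 6) (c (l 16677560) (l 16676224)))) (c (c (l 16622776) (l 16620864)) (l 16596968)))) (a (c (a (b (l 16560536) (l 16466544)) (b (a (l 16603848) (l 16625576)) (a (l 16545288) (l 16572728)))) (a (b (l 16576992) (l 16502240)) (b (l 16590808) (l 16555120)))) (c (b (l 16589416) (l 16558184)) (b (l 16585640) (l 16554568)))))) (b (a (b (b (c (a (l 16541264) (l 16483336)) (a (l 16536200) (l 16476696))) (a (c (l 16509368) (l 16504912)) (l 16472496))) (b (a (l 16506408) (l 16466472)) (c (l 16451136) (l 16445704)))) (b (a (a (c (l 16474168) (l 16468248)) (l 16529776)) (l 16470848)) (c (b (l 16444912) (l 16416504)) (l 16425216)))) (a (b (c (b (c (b (l 16386000) (l 16304632)) (l 16377512)) (c (l 16303008) (b (l 16312480) (l 16273896))))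 (l 16333088)) (c (b (l 16147928) (l 16155416)) (b (c (b (l 16234896) (l 16201960)) (l 16213184)) (c (l 16141160) (b (l 16157704) (l 16113432)))))) (b (c (b (c (l 16265360) (l 16450480)) (c (l 16433328) (l 16324904))) (l 16460176)) (c (l 16147952) (b (c (l 16255320) (l 16376408)) (c (l 16324040) (l 16174560)))))))), by decide +kernel⟩

def k13_pp_101 : ∃ t, chk3 f_pp_101 t 3 2 1 = true :=
  ⟨(a (l 3) (l 1)), by decide +kernel⟩

def k14_pp_101 : ∃ t, chk3 f_pp_101 t 3 6 1 = true :=
  ⟨(b (a (a (l 6) (a (l 6) (l 1))) (l 1)) (b (a (a (l 6) (a (a (b (l 6) (l 6)) (c (l 316787392519) (l 16777216))) (c (l 342557196295) (l 365105774599)))) (l 1)) (a (a (a (l 6) (b (a (l 6) (c (l 16777216) (l 16777216))) (c (c (l 16743120) (l 16742528)) (c (l 16741920) (l 16741304))))) (c (a (b (l 16777216) (l 16742824)) (b (l 16777216) (l 16742824))) (a (b (l 16777216) (l 16741616)) (b (l 16777216) (l 16741616))))) (a (a (c (l 310881678823) (l 16712064)) (l 1)) (l 1))))), by decide +kernel⟩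

def k15_pp_101 : ∃ t, chk3 f_pp_101 t 3 7 1 = true :=
  ⟨(a (b (b (a (a (c (a (b (c (l 16524816) (l 16542856)) (a (l 16530992) (l 16483192))) (b (l 16601104) (l 16453440))) (a (b (c (l 16560864) (l 16578824)) (a (l 16523040) (l 16473136))) (b (l 16594904) (l 16442088)))) (c (c (l 16463224) (l 16479800)) (c (l 16496304) (l 16512760)))) (c (a (b (l 16601104) (l 16447320)) (l 16419080)) (a (c (l 16517280) (l 16512760)) (l 16431128)))) (a (a (a (c (a (l 16412600) (l 16412464)) (b (l 16453936) (l 16416920))) (b (c (l 16351304) (l 16336888)) (l 16292704))) (a (b (c (l 16295016) (l 16278096)) (l 16178192)) (c (l 16190056) (l 16191128)))) (c (l 16207000) (l 16186912)))) (b (a (b (a (l 16199320) (l 15947328)) (c (b (l 16027968) (l 15990768)) (l 15923160))) (b (c (l 15906152) (l 15875512)) (c (a (l 15668536) (l 15627536)) (l 15628792)))) (a (b (c (b (a (l 16171752) (l 15899344)) (c (l 16038336) (l 16031552))) (l 15968128)) (c (l 15951152) (b (c (l 16015184) (l 16051128)) (c (l 16091280) (l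 16059328))))) (b (c (a (b (l 15657280) (l 15586256)) (b (l 15567328) (l 15510880))) (l 15560296)) (c (a (l 15683096) (l 15488360)) (b (a (l 15621464) (l 15429360)) (c (l 15555664) (l 15532880)))))))) (b (b (a (a (c (l 16523936) (l 16515016)) (l 16519464)) (l 1)) (c (l 16123112) (l 16186912))) (b (c (b (l 15903792) (l 15606568)) (a (l 15737344) (l 15737344))) (c (b (c (b (l 15584616) (l 15531080)) (l 15525640)) (l 15447504)) (b (l 15487024) (c (l 15201704) (l 15381672))))))), by decide +kernel⟩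

theorem s16_pp_101 : ∃ t, chk3 f_pp_101 t 3 3 1 = true := ex3_b k14_pp_101 k15_pp_101

theorem s17_pp_101 : ∃ t, chk3 f_pp_101 t 3 1 1 = true := ex3_b k13_pp_101 s16_pp_101

theorem s18_pp_101 : ∃ t, chk3 f_pp_101 t 10 15 1 = true := ex3_b k10_pp_101 k11_pp_101

theorem s19_pp_101 : ∃ t, chk3 f_pp_101 t 10 7 1 = true := ex3_b k9_pp_101 s18_pp_101

theorem s20_pp_101 : ∃ t, chk3 f_pp_101 t 5 7 1 = true := ex3_a s19_pp_101 k12_pp_101

theorem s21_pp_101 : ∃ t, chk3 f_pp_101 t 5 3 1 = true := ex3_b k8_pp_101 s20_pp_101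

theorem s22_pp_101 : ∃ t, chk3 f_pp_101 t 19 15 1 = true := ex3_a k6_pp_101 k7_pp_101

theorem s23_pp_101 : ∃ t, chk3 f_pp_101 t 18 15 1 = true := ex3_a k4_pp_101 k5_pp_101

theorem s24_pp_101 : ∃ t, chk3 f_pp_101 t 9 15 1 = true := ex3_a s23_pp_101 s22_pp_101

theorem s25_pp_101 : ∃ t, chk3 f_pp_101 t 4 15 1 = true := ex3_a k3_pp_101 s24_pp_101

theorem s26_pp_101 : ∃ t, chk3 f_pp_101 t 4 7 1 = true := ex3_b k2_pp_101 s25_pp_101

theorem s27_pp_101 : ∃ t, chk3 f_pp_101 t 4 3 1 = true := ex3_b k1_pp_101 s26_pp_101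

theorem s28_pp_101 : ∃ t, chk3 f_pp_101 t 2 3 1 = true := ex3_a s27_pp_101 s21_pp_101

theorem s29_pp_101 : ∃ t, chk3 f_pp_101 t 2 1 1 = true := ex3_b k0_pp_101 s28_pp_101

theorem s30_pp_101 : ∃ t, chk3 f_pp_101 t 1 1 1 = true := ex3_a s29_pp_101 s17_pp_101

theorem c_pp_101 : CertNX 536870912 536870912 536870912 536870912 1046898278 26843546 3 false true true .npn 1 0 1
    ndN7q1 ndN0q1 pcN0 cut_pp_101 Ext.none :=
  certNX2 (fam := false) (s1 := true) (s2 := true) (a := 1) (b := 0) (c := 1) (cn := .npn) (n1 := ndN7q1) (n2 := ndN0q1) (pc := pcN0) (cut := cut_pp_101) (xt := Ext.none) (P1 := 536870912) (W1 := 536870912) (P2 := 536870912) (W2 := 536870912) (P3 := 1046898278) (W3 := 26843546) (N0 := 3)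
    rfl (fun _ => rfl) s30_pp_101

noncomputable def cut_pp_102 : Cut := Cut.of [[⟨0, 1, 0, 67108864⟩, ⟨1, 0, 0, 67108864⟩, ⟨2, 1, 0, 67108864⟩]]

noncomputable def f_pp_102 : ℕ → ℕ → ℕ → ℕ → Bool := onCell 0 536870912 0 536870912 1046898278 26843546
    (rowNX 3 2 false true true .npp 1 0 2 (qsf 536870912 536870912 0 536870912 0) ndN7q1 ndN0q2 pcN0 cut_pp_102 Ext.none)

def k0_pp_102 : ∃ t, chk3 f_pp_102 t 4 2 1 = true :=
  ⟨(a (l 2) (a (l 2) (b (l 2) (b (l 2) (c (l 13255368) (a (l 2) (b (l 2) (c (l 13203808) (l 13140880))))))))), by decide +kernel⟩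

def k1_pp_102 : ∃ t, chk3 f_pp_102 t 8 3 1 = true :=
  ⟨(b (l 2) (a (b (l 2) (l 6)) (b (b (a (l 2) (a (l 2) (b (l 2) (c (c (c (l 15186464) (l 15164696)) (l 15155664)) (c (l 15134392) (c (l 15103328) (c (l 15094464) (b (l 15029976) (a (l 6) (l 15136008)))))))))) (a (l 6) (a (l 6) (a (l 6) (a (l 6) (a (l 6) (c (b (l 15375456) (l 15649304)) (c (b (l 15337344) (b (l 15572008) (l 15718408))) (b (c (b (l 15273376) (l 15385856)) (l 15325560)) (c (b (c (l 15569728) (l 15567520)) (l 15723208)) (l 15622144))))))))))) (a (l 6) (a (l 6) (a (l 6) (a (l 6) (a (l 6) (a (l 6) (a (l 6) (c (b (b (b (l 15864752) (l 15981488)) (c (b (l 16040256) (l 16127712)) (b (l 16083872) (l 16091712)))) (c (b (l 16103568) (c (l 16456928) (l 16547528))) (b (c (b (l 16264024) (l 16408440)) (b (c (l 16312288) (l 16313048)) (c (l 16411112) (l 16360600)))) (c (b (l 16482328) (c (l 16625904) (c (l 16588072) (l 16548600)))) (b (l 16375368) (l 16524720)))))) (b (c (b (c (l 15946648) (b (l 15893768) (l 16005840))) (c (b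 (l 16118896) (l 16180568)) (l 16114872))) (l 16009104)) (b (c (b (l 16254320) (l 16225648)) (l 16283576)) (c (b (c (l 16425448) (l 16340888)) (l 16519360)) (b (l 16420392) (c (l 16452400) (b (l 16489184) (l 16495208)))))))))))))))))), by decide +kernel⟩

def k2_pp_102 : ∃ t, chk3 f_pp_102 t 9 12 1 = true :=
  ⟨(a (l 2) (c (a (a (b (l 2) (l 13484544)) (l 13397296)) (l 13403192)) (b (a (a (l 2) (l 13246712)) (c (l 13288352) (c (l 13244400) (a (l 13206904) (l 13214936))))) (c (a (l 13294536) (c (l 13380960) (l 13353368))) (a (a (b (l 2) (l 13359360)) (c (l 13315976) (b (l 13263088) (l 13302344)))) (c (a (l 13319200) (l 13314256)) (l 13278904))))))), by decide +kernel⟩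

def k3_pp_102 : ∃ t, chk3 f_pp_102 t 9 13 1 = true :=
  ⟨(b (a (a (l 2) (c (l 13858784) (c (l 13784696) (c (l 13750816) (a (l 13797536) (b (l 13568072) (c (l 13726896) (l 13711024)))))))) (c (a (a (l 13634568) (l 13575280)) (l 13588472)) (a (c (a (l 13559112) (l 13509472)) (a (c (b (l 13450960) (l 13590656)) (b (a (l 13451736) (l 13379440)) (l 13557344))) (c (b (l 13403376) (l 13535712)) (l 13427976)))) (c (c (b (l 13469760) (l 13596736)) (b (a (l 13439728) (l 13438392)) (l 13493592))) (c (l 13348720) (l 13444304)))))) (a (a (a (l 2) (c (l 14431000) (c (l 14358584) (c (l 14329440) (b (l 14214600) (c (l 14408840) (a (l 14439376) (l 14353368)))))))) (c (a (l 14260856) (l 14085416)) (c (a (l 14192944) (l 14026584)) (c (a (b (l 14073568) (l 14253416)) (b (l 13908664) (c (l 14083712) (l 14066672)))) (a (b (c (l 14056680) (l 14042336)) (c (l 14234120) (l 14219384))) (b (l 13879064) (l 14063288))))))) (a (c (a (a (l 13952240) (a (l 13885464) (l 13856240))) (l 13866736)) (c (a (c (l 13872200)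 (b (l 13769872) (c (l 13936760) (l 13918720)))) (c (b (l 13746720) (l 13893408)) (b (l 13713688) (l 13874784)))) (a (c (b (c (l 13746592) (l 13728656)) (l 13908976)) (l 13792960)) (l 13755208)))) (c (c (l 13863888) (b (l 13770376) (c (l 13927696) (a (l 13922720) (l 13927672))))) (c (a (c (b (l 13739208) (l 13906600)) (l 13782456)) (b (l 13727088) (l 13871904))) (l 13720720)))))), by decide +kernel⟩

def k4_pp_102 : ∃ t, chk3 f_pp_102 t 18 14 2 = true :=
  ⟨(a (b (a (c (b (l 14876416) (l 15075688)) (l 14950384)) (b (l 14694088) (l 14867536))) (b (a (c (l 15294120) (l 15270144)) (c (l 15089776) (l 15070824))) (a (b (l 15474632) (l 15609912)) (c (l 15306368) (l 15319256))))) (b (b (a (l 14508784) (l 14325368)) (a (l 14583904) (c (l 14495488) (l 14488800)))) (c (b (a (l 14866456) (l 14619568)) (a (l 15047816) (l 14781960))) (b (a (l 14863504) (c (l 14619024) (l 14618672))) (c (a (l 15053920) (l 14795400)) (a (b (l 15013744) (l 15105448)) (b (l 14652512) (c (l 14848560) (l 14819888))))))))),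 by decide +kernel⟩

def k5_pp_102 : ∃ t, chk3 f_pp_102 t 18 14 3 = true :=
  ⟨(a (b (c (a (l 14927848) (b (l 14647968) (l 14802200))) (b (c (a (l 14792168) (l 14619936)) (a (c (l 14781328) (b (l 14718512) (l 14780824))) (c (b (l 14555184) (l 14651880)) (l 14590384)))) (c (c (a (l 15018352) (b (l 14780576) (l 14884824))) (a (l 14814632) (b (l 14767288) (l 14867560)))) (a (c (a (l 14892616) (l 14945376)) (b (l 14928240) (l 15037368))) (l 14808728))))) (c (a (b (b (l 15187200) (c (l 15324920) (l 15328336))) (c (l 15370840) (b (a (l 15511944) (c (l 15428976) (l 15430080))) (c (l 15381752) (l 15488520))))) (b (c (l 15071976) (b (c (l 15010176) (l 14854160)) (c (l 15124976) (l 15125712)))) (c (b (l 15251392) (c (l 15378152) (l 15381976))) (b (c (l 15255824) (l 15237800)) (l 15359240))))) (a (b (c (b (c (l 15182256) (a (l 15224784) (l 15136888))) (c (a (l 15373304) (l 15283320)) (l 15315016))) (b (l 15161192) (l 15303392))) (c (b (c (l 15293464) (l 15448760)) (l 15606120)) (l 15507544)))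 (b (c (b (l 14822968) (l 15113688)) (l 15025000)) (l 15263008))))) (b (c (b (c (l 14392184) (a (l 14465256) (c (l 14288528) (l 14272200)))) (a (c (l 14672824) (a (l 14702608) (c (l 14616920) (l 14614832)))) (c (b (l 14438208) (a (l 14573072) (l 14480056))) (b (l 14426224) (l 14500192))))) (b (c (a (c (l 14446112) (l 14430488)) (l 14263088)) (l 14320832)) (a (a (l 14677144) (l 14586456)) (l 14408352)))) (c (b (a (c (b (l 14810272) (c (l 14913072) (l 14914216))) (b (a (l 14861552) (l 14741768)) (l 14888032))) (c (b (l 14561048) (l 14648200)) (l 14588328))) (c (a (c (a (l 15136888) (l 14992672)) (l 14790056)) (c (l 14759848) (l 14723496))) (l 14820392))) (a (l 14807184) (l 14607552))))), by decide +kernel⟩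

def k6_pp_102 : ∃ t, chk3 f_pp_102 t 72 15 2 = true :=
  ⟨(b (b (c (b (l 15740112) (l 15839816)) (l 15608240)) (b (c (c (l 15889512) (l 15915680)) (l 15750648)) (c (c (l 15964144) (l 15895728)) (c (l 15978512) (a (l 16134320) (c (l 15989744) (l 15971072))))))) (c (b (b (a (l 16160136) (l 16010776)) (l 16037752)) (b (a (l 16369160) (c (l 16271608) (l 16323248))) (c (l 16375520) (a (a (l 16564016) (l 16447808)) (c (l 16411088) (l 16249056)))))) (b (c (b (b (l 15920792) (a (l 16226216) (l 16089152))) (a (l 16253016) (c (l 16209640) (l 16019288)))) (b (c (b (a (l 16218952) (l 16046488)) (a (l 16251248) (l 16009848))) (b (a (l 16204624) (l 15994392)) (a (l 16107080) (l 16031032)))) (c (a (b (l 16293864) (l 16241568)) (b (l 16075976) (l 16157280))) (b (l 15947544) (l 16187824))))) (c (a (b (c (l 16380824) (b (l 16406272) (l 16356224))) (c (a (b (l 16576008) (l 16602880)) (l 16405544)) (a (l 16467304) (l 16409520)))) (b (c (l 16193440) (b (l 16178968) (l 16284864))) (c (b (l 16275776)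 (l 16357456)) (l 16303248)))) (b (a (c (l 16266288) (l 16363512)) (l 16228488)) (l 16293216)))))), by decide +kernel⟩

def k7_pp_102 : ∃ t, chk3 f_pp_102 t 73 15 2 = true :=
  ⟨(b (b (c (b (l 15471056) (l 15561416)) (b (l 15487736) (c (l 15579616) (c (l 15597056) (l 15602512))))) (c (b (c (l 15588576) (l 15624224)) (b (l 15437440) (c (l 15673920) (l 15696648)))) (c (b (l 15655376) (b (l 15718800) (c (l 15746160) (l 15550544)))) (b (c (l 15669456) (a (l 15742840) (l 15565920))) (b (a (l 15746952) (l 15502640)) (c (a (l 15831664) (l 15638616)) (l 15687152))))))) (c (a (b (b (l 15869416) (l 15944912)) (c (l 16049088) (b (c (l 16207968) (l 16118464)) (c (l 16164840) (b (l 16273728) (l 16207968)))))) (b (c (l 15805680) (b (l 15753336) (l 15843328))) (c (b (l 16063592) (c (l 16217184) (l 16120208))) (b (c (l 16084104) (b (l 16028352) (l 16072952))) (c (b (l 16172152) (l 16213112)) (l 15981384)))))) (c (b (b (a (b (l 15724592) (l 15912664)) (c (l 15738128) (b (l 15702104) (l 15748552))))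 (c (a (l 16039288) (b (l 15869056) (l 15925336))) (a (b (l 15991872) (l 16034752)) (l 15833584)))) (b (c (a (b (l 16143040) (l 16173464)) (l 15946536)) (a (l 16106984) (l 15957920))) (c (a (l 16108136) (l 16093320)) (l 16150472)))) (b (b (c (b (a (l 15817920) (l 15656712)) (l 15601632)) (l 15584040)) (b (l 15716048) (l 15912736))) (l 16040424))))), by decide +kernel⟩

def k8_pp_102 : ∃ t, chk3 f_pp_102 t 37 30 2 = true :=
  ⟨(b (c (b (l 15063248) (a (l 15271736) (l 14983376))) (c (a (b (l 15223504) (l 15289728)) (b (l 14941608) (c (l 15009072) (l 14875296)))) (a (b (c (l 15238072) (l 15199448)) (c (l 15256672) (l 15249728))) (b (c (l 14915400) (l 14868624)) (l 14922472))))) (c (b (c (a (l 15287096) (l 14997296)) (a (l 15339640) (c (l 15050376) (l 15049720)))) (a (c (b (l 15317464) (l 15379880)) (b (l 15372984) (a (l 15485888) (l 15344992)))) (c (b (l 15034360) (l 15122240)) (b (c (l 14964952) (a (l 15164200) (l 14969888))) (c (l 15119848) (a (l 15183208) (l 14997224))))))) (b (a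 (c (c (l 15367544) (l 15245976)) (c (a (l 15416184) (l 15211976)) (l 15275592))) (c (c (a (l 15118280) (l 14928480)) (a (l 15078864) (l 14864760))) (l 14929296))) (c (a (b (c (l 15403056) (l 15307368)) (c (a (l 15514544) (l 15327664)) (a (l 15485944) (l 15276208)))) (b (a (c (l 15122312) (l 15056176)) (l 14894184)) (c (l 14787032) (l 15018864)))) (a (b (l 15309912) (l 15337368)) (l 14980928)))))), by decide +kernel⟩

def k9_pp_102 : ∃ t, chk3 f_pp_102 t 37 31 2 = true :=
  ⟨(c (b (a (c (b (l 15530480) (l 15701400)) (b (a (l 15619080) (c (l 15494136) (l 15461592))) (c (a (l 15806792) (l 15656240)) (a (l 15774256) (b (l 15574752) (l 15620960)))))) (a (c (b (l 15351224) (c (l 15548752) (l 15538712))) (b (c (l 15342728) (l 15163616)) (c (l 15406776) (l 15421720)))) (c (b (l 15134232) (c (l 15419808) (l 15375696))) (b (c (l 15171648) (l 15096192)) (c (l 15305680) (l 15262832)))))) (a (c (b (c (l 15894288) (a (l 15964352) (l 15825832))) (a (c (l 16115152) (l 15962664)) (c (b (l 15963160)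 (l 16024416)) (b (l 15910336) (l 15950072))))) (c (b (a (l 15935272) (b (l 15748520) (l 15788384))) (a (b (l 16012192) (l 16044640)) (l 15766152))) (b (a (l 15876192) (l 15712688)) (a (l 15979464) (l 15846696))))) (c (b (c (a (l 15714664) (l 15561496)) (a (l 15625768) (l 15491376))) (c (a (l 15795648) (l 15669968)) (a (l 15600096) (l 15618944)))) (b (c (a (l 15599104) (l 15444968)) (l 15499600)) (l 15664864))))) (b (b (c (a (c (a (b (l 15556944) (l 15623832)) (b (l 15374400) (l 15428624))) (b (l 15270256) (l 15472208))) (c (a (l 15219968) (l 15056968)) (l 15125728))) (a (l 15429416) (l 15123480))) (a (c (c (a (l 15713056) (l 15543256)) (l 15597512)) (l 15584704)) (l 15306576))) (a (b (a (l 15821312) (l 15684096)) (l 15899608)) (l 15565760)))), by decide +kernel⟩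

def k10_pp_102 : ∃ t, chk3 f_pp_102 t 18 15 3 = true :=
  ⟨(b (a (c (a (b (c (b (l 15526264) (c (l 15869696) (a (l 15956640) (l 15806408)))) (b (a (l 15594520) (l 15689192)) (c (l 15817880) (l 15834848)))) (c (b (c (a (l 16049224) (l 15888424)) (l 15714672)) (a (c (l 16061448) (l 16083672)) (l 15921704))) (l 15951288))) (b (c (b (c (l 15508736) (l 15489272)) (c (l 15478464) (l 15549576))) (l 15494192)) (b (c (c (l 15564280) (l 15592400)) (l 15585144)) (l 15648632)))) (a (l 15647176) (b (l 15474960) (l 15602112)))) (b (a (a (b (c (l 15006728) (l 15203736)) (l 15285656)) (l 15091184)) (l 14841784)) (b (l 15064008) (a (l 15288272) (l 14942872))))) (c (a (b (a (b (a (l 15956496) (l 15990312)) (c (l 15962608) (l 16175200))) (b (l 15742200) (c (l 15763504) (l 15868424)))) (a (b (c (l 16283616) (b (l 16248504) (l 16307288))) (l 16392000)) (b (c (l 16005512) (b (l 15961504) (l 16033240))) (l 16138512)))) (b (b (l 15267328) (c (b (l 15384872) (l 15464160)) (l 15422760))) (b (b (c (l 15552232)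 (l 15539544)) (l 15633160)) (l 15715064)))) (a (b (a (l 15947944) (l 15792112)) (a (b (l 16107640) (c (b (l 16254088) (l 16413664)) (b (l 16355192) (c (l 16389984) (l 16326688))))) (b (l 15949192) (c (b (l 16095608) (l 16163400)) (b (l 16089560) (l 16011616)))))) (b (l 15073240) (b (b (l 15531312) (l 15529184)) (c (b (l 15554480) (l 15784736)) (b (l 15691816) (c (l 15777952) (l 15690904))))))))), by decide +kernel⟩

def k11_pp_102 : ∃ t, chk3 f_pp_102 t 19 14 1 = true :=
  ⟨(c (a (b (a (b (a (l 14190848) (a (l 14124664) (l 14092456))) (c (a (l 14335176) (l 14229640)) (a (l 14332496) (a (l 14247912) (l 14200304))))) (c (b (l 14079728) (l 14187648)) (b (l 14064552) (c (l 14196488) (c (l 14199952) (l 14183696)))))) (c (a (a (l 14510280) (b (l 14312232) (l 14462200))) (b (l 14290632) (c (l 14436688) (l 14442744)))) (a (b (c (a (l 14442488) (l 14326112)) (a (l 14443656) (a (l 14342128) (l 14288184)))) (c (a (l 14601040) (b (l 14441616) (a (l 14530344) (l 14469440)))) (a (c (l 14576728)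 (l 14530656)) (a (l 14445624) (l 14362384))))) (b (c (b (l 14268456) (l 14326608)) (c (l 14262056) (l 14234760))) (c (c (l 14378640) (l 14388456)) (l 14331504)))))) (b (c (b (l 14080352) (c (l 14171176) (l 14158472))) (b (c (a (l 14083104) (l 14080800)) (a (b (l 14051400) (l 14104664)) (l 14042040))) (c (a (l 14180080) (l 14142296)) (l 14001856)))) (c (b (c (l 14276536) (a (l 14293072) (c (l 14287664) (l 14254520)))) (c (a (l 14453840) (b (l 14414040) (l 14473648))) (a (c (l 14437440) (l 14362328)) (c (l 14390536) (l 14330608))))) (c (b (a (b (l 14233536) (l 14281640)) (c (l 14219680) (l 14164544))) (b (l 14146792) (l 14346688))) (l 14227424))))) (b (a (a (b (c (c (a (l 14162376) (b (l 14036952) (l 14139464))) (a (l 14151216) (l 14056816))) (l 14046248)) (c (a (c (b (l 14307896) (l 14350520)) (l 14296464)) (c (a (l 14239832) (l 14190064)) (l 14155272))) (l 14178760))) (c (b (c (b (l 14032584) (l 14097512)) (l 14028280)) (l 14072472)) (l 14013624))) (b (c (a (l 13955104) (l 13960120))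 (l 13923288)) (l 14018008))) (a (a (b (c (a (l 14179448) (l 14233672)) (l 14252976)) (l 14375896)) (l 14213832)) (l 14167832)))), by decide +kernel⟩

def k12_pp_102 : ∃ t, chk3 f_pp_102 t 19 30 2 = true :=
  ⟨(b (a (c (a (c (b (l 14636352) (l 14701872)) (a (l 14754864) (b (l 14602192) (a (l 14665688) (l 14601696))))) (c (b (l 14573552) (l 14620480)) (b (c (l 14569480) (l 14531120)) (c (l 14585896) (l 14543496))))) (a (c (a (b (l 14707320) (c (l 14747944) (l 14683336))) (b (c (l 14565176) (l 14500024)) (l 14538632))) (a (l 14640424) (l 14482112))) (c (l 14474392) (l 14437056)))) (c (a (c (b (l 14564408) (c (l 14619888) (l 14573496))) (b (c (l 14514712) (l 14450056)) (l 14495576))) (c (c (b (l 14548536) (l 14561496)) (l 14494224)) (l 14447952))) (l 14420080))) (a (c (a (b (c (a (l 14788872) (b (l 14663384) (c (l 14648680) (l 14671592)))) (a (c (l 14820616) (l 14780688)) (c (l 14645840) (l 14581512)))) (c (a (b (l 14827576) (l 14927072)) (a (c (l 14781368) (l 14758304)) (c (l 14738072)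 (l 14694400)))) (b (c (a (l 14816296) (a (l 14664704) (l 14584328))) (a (l 14758568) (a (l 14606520) (l 14544256)))) (a (c (l 14866432) (l 14796952)) (c (l 14680720) (l 14639488)))))) (b (c (b (a (l 14617720) (l 14622184)) (c (l 14630744) (a (l 14621720) (l 14574448)))) (c (b (l 14573960) (l 14547728)) (l 14513016))) (c (c (l 14718224) (a (l 14674144) (l 14635904))) (c (b (l 14563720) (l 14633808)) (l 14585136))))) (a (a (b (l 14686728) (b (l 14702784) (l 14768800))) (b (l 14516816) (b (l 14551352) (l 14628864)))) (b (l 14478280) (l 14567888)))) (c (b (c (a (c (a (l 14568456) (l 14565352)) (b (l 14540624) (l 14526352))) (b (l 14507816) (l 14519176))) (b (l 14486592) (l 14493216))) (c (a (c (l 14669920) (l 14618544)) (l 14632384)) (l 14610328))) (b (l 14476104) (l 14590632))))), by decide +kernel⟩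

def k13_pp_102 : ∃ t, chk3 f_pp_102 t 19 31 2 = true :=
  ⟨(a (c (a (b (c (a (b (c (l 15098712) (l 15057464)) (c (l 15266360) (l 15195840))) (b (a (c (l 14991792) (l 14925592)) (c (l 14932288) (l 14848360))) (c (a (l 15138576) (l 15065008)) (a (l 15060752) (l 15000640))))) (b (a (c (l 14982824) (l 14926632)) (a (l 14831016) (l 14775248))) (a (l 15131688) (l 14996584)))) (c (a (b (c (b (l 15363952) (l 15413968)) (l 15329760)) (c (b (l 15474832) (l 15543656)) (l 15485560))) (b (c (a (l 15257560) (l 15196824)) (l 15194328)) (a (l 15398720) (l 15352272)))) (a (l 15390672) (l 15272432)))) (b (c (b (c (a (l 14904896) (l 14861256)) (l 14821200)) (c (a (l 15034248) (l 15005328)) (l 14988040))) (l 14869232)) (b (l 15160648) (l 15330624)))) (b (a (b (c (a (l 14907584) (l 14773008)) (a (l 14898824) (l 14762992))) (a (l 15094752) (l 14965704))) (b (l 14748752) (l 14939656))) (a (a (l 15371544) (l 15251752)) (l 15216720)))) (b (c (b (c (a (l 14819576) (l 14812000)) (l 14782736)) (l 14934160))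 (b (l 14757104) (l 14939832))) (a (l 15039768) (l 15267768)))), by decide +kernel⟩

def k14_pp_102 : ∃ t, chk3 f_pp_102 t 19 15 3 = true :=
  ⟨(b (a (a (b (l 14511720) (b (l 14539184) (a (l 14689016) (l 14540040)))) (b (l 14387024) (l 14475184))) (b (l 14359592) (l 14483688))) (b (a (a (b (l 14800056) (c (c (a (l 15068120) (l 14937424)) (l 14994688)) (l 14973632))) (c (b (l 14727704) (l 14905776)) (l 14786600))) (b (l 14718448) (c (c (l 14911512) (l 14902480)) (l 14880216)))) (a (c (a (b (c (l 15194560) (b (l 15129832) (l 15228976))) (l 15378760)) (b (c (l 15100008) (l 15087544)) (l 15280776))) (a (b (b (l 15116008) (l 15210024)) (c (b (l 15312104) (l 15407624)) (b (l 15299264) (c (l 15398408) (l 15393568))))) (b (l 15065632) (c (l 15260664) (l 15249736))))) (c (b (c (l 15107728) (b (l 15035928) (l 15140944))) (l 15312064)) (b (l 15073600) (c (l 15145688) (b (l 15220736) (l 15333248)))))))), by decide +kernel⟩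

def k15_pp_102 : ∃ t, chk3 f_pp_102 t 5 2 1 = true :=
  ⟨(a (b (c (b (l 13110432) (l 13152472)) (a (c (l 12995064) (a (l 2) (b (l 12935080) (l 126794068567)))) (c (b (a (l 13035784) (l 13074056)) (a (l 13068872) (l 13107952))) (a (b (l 12966920) (c (l 13017256) (l 12975520))) (l 13027208))))) (a (c (b (l 13175824) (l 13301152)) (b (c (l 13092088) (a (l 13003112) (c (l 12847144) (b (l 12995488) (l 13040312))))) (c (a (l 13195544) (b (l 13189200) (c (l 13282688) (l 13238192)))) (a (b (c (l 13108912) (l 13072208)) (c (l 13182528) (l 13143768))) (b (l 12885856) (l 13194440)))))) (c (b (c (l 13279464) (a (l 13204144) (l 13257808))) (c (b (l 13376144) (l 13449904)) (b (a (l 13298408) (l 13345136)) (a (l 13369808) (c (l 13426728) (l 13417888)))))) (b (c (a (c (l 13166592) (l 13126592)) (l 13158328)) (l 12907936)) (c (a (b (l 13227672) (l 13290496)) (l 13335824)) (l 13225944)))))) (b (c (a (c (b (l 13272992) (l 13309032)) (a (b (l 13189072) (l 13226280)) (b (l 13259368) (l 13294616))))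 (c (b (l 13473184) (l 13505104)) (l 13410040))) (a (b (l 13112760) (l 13160024)) (l 13293160))) (a (c (b (c (a (l 13369816) (l 13411272)) (a (c (l 13321296) (l 13306840)) (l 13374144))) (a (c (b (l 13463312) (l 13567008)) (l 13437440)) (b (l 13487936) (l 13560040)))) (b (l 13267456) (l 13332120))) (a (c (b (l 13486096) (l 13570864)) (l 13390304)) (b (l 13520816) (l 13721136)))))), by decide +kernel⟩

def k16_pp_102 : ∃ t, chk3 f_pp_102 t 10 6 1 = true :=
  ⟨(a (b (c (c (b (l 13420816) (l 13494864)) (a (l 13406184) (b (l 13397488) (c (l 13473296) (a (l 13441320) (l 13471936)))))) (c (a (b (c (l 13330312) (a (l 13293472) (l 13305624))) (c (a (l 13397544) (l 13400320)) (a (l 13358800) (l 13374552)))) (b (a (c (l 13353320) (l 13307088)) (l 13359168)) (l 13402240))) (a (b (c (a (l 13256976) (l 13266720)) (l 13223400)) (l 13330328)) (l 13303440)))) (c (b (c (a (l 13608680) (a (l 13631888) (b (l 13590136) (l 13694960)))) (a (c (l 13593104) (b (l 13507840) (a (l 13629608) (l 13648224))))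 (a (c (b (l 13554600) (l 13688552)) (l 13571880)) (b (l 13545512) (l 13658848))))) (c (a (b (l 13818048) (a (l 13954376) (l 13935904))) (a (b (l 13805928) (c (l 13989840) (l 13949888))) (b (c (l 13885352) (l 13839704)) (c (l 13980744) (l 13918400))))) (a (b (c (a (l 13804944) (l 13819984)) (a (l 13788584) (l 13775360))) (c (a (l 13952248) (l 13928536)) (l 13883312))) (a (c (b (l 13797552) (l 13864328)) (l 13769704)) (l 13785120))))) (b (c (a (c (b (l 13461760) (l 13597744)) (l 13503864)) (l 13498544)) (l 13447720)) (a (b (l 13551360) (l 13787784)) (l 13696832))))) (b (c (c (b (a (l 13499632) (c (l 13585048) (l 13574720))) (a (c (l 13579576) (l 13550768)) (c (l 13671136) (l 13618416)))) (b (a (c (l 13463104) (l 13446752)) (l 13506480)) (a (l 13370928) (l 13530200)))) (b (c (l 13395472) (l 13329352)) (l 13416144))) (c (b (b (c (a (c (l 13666880) (l 13652384)) (c (l 13743640) (l 13657632))) (l 13447808)) (c (a (c (l 13806448) (l 13751144)) (l 13631048)) (l 13683424))) (c (a (b (c (l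 13799752) (l 13845712)) (c (l 13979432) (l 13893744))) (b (l 13877552) (l 13967336))) (l 13845240))) (b (l 13531296) (l 13768744))))), by decide +kernel⟩

def k17_pp_102 : ∃ t, chk3 f_pp_102 t 11 6 1 = true :=
  ⟨(a (b (c (a (c (b (l 13630512) (l 13484280)) (l 13534664)) (b (l 13593352) (l 13678320))) (l 13493936)) (b (c (a (b (l 13690552) (l 13814304)) (l 13928960)) (l 13748048)) (c (l 14185056) (l 14094552)))) (b (c (b (l 13877568) (l 14075712)) (l 13885088)) (c (b (l 14353840) (l 14729136)) (l 14255424)))), by decide +kernel⟩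

def k18_pp_102 : ∃ t, chk3 f_pp_102 t 10 14 1 = true :=
  ⟨(a (c (b (c (a (c (b (l 14064040) (a (l 14189248) (l 14173424))) (b (a (l 14080248) (l 14052464)) (a (l 14155120) (l 14114896)))) (a (c (b (l 14070976) (l 14137384)) (b (l 14010664) (l 14039200))) (c (b (l 14047464) (l 14079616)) (l 13991408)))) (a (c (b (l 13945968) (l 14077400)) (l 13981192)) (l 13950456))) (a (c (b (c (a (b (l 14266168) (l 14321408)) (c (l 14270176) (l 14228312))) (a (c (l 14240112) (l 14179520)) (l 14155792))) (c (a (c (l 14419872) (l 14379552)) (l 14332440)) (l 14300000))) (l 14192816)) (b (c (a (l 14161752) (l 14148144)) (l 14099904)) (a (l 14265608) (l 14296320))))) (b (a (l 13916496) (l 13876976)) (a (l 14125880) (l 14118880)))) (b (c (a (b (l 13981032) (l 14076680)) (l 14194880)) (l 14031512)) (c (b (l 14375008) (l 14623288)) (b (l 14291952) (l 14549384))))), by decide +kernel⟩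

def k19_pp_102 : ∃ t, chk3 f_pp_102 t 10 15 1 = true :=
  ⟨(b (a (b (a (c (c (b (l 14425832) (l 14461704)) (l 14396320)) (l 14335160)) (b (l 14389776) (a (l 14429048) (l 14535584)))) (c (a (b (c (b (l 14486408) (l 14538128)) (l 14489392)) (c (c (l 14674520) (l 14660840)) (l 14641544))) (b (a (l 14582064) (l 14701584)) (c (a (l 14788880) (l 14898264)) (l 14818368)))) (a (l 14520032) (l 14681744)))) (b (b (l 14791520) (c (l 14880784) (l 14881616))) (c (c (b (l 14994736) (l 15125960)) (l 15032904)) (l 15103856)))) (a (c (b (c (a (l 14930600) (l 15082288)) (b (a (c (l 14834128) (l 14824152)) (a (l 14961400) (l 15063320))) (a (l 15041984) (l 15216328)))) (a (l 15377256) (l 15399680))) (b (a (b (l 14792624) (l 14873152)) (a (l 15027864) (l 15064680))) (c (b (a (l 15146880) (c (l 15395376) (l 15385512))) (l 15457496)) (b (a (l 15203920) (l 15367872)) (a (c (l 15430848) (l 15421424)) (c (l 15577208) (l 15548128))))))) (c (b (c (l 15373472) (b (l 15286368) (l 15537632))) (a (l 15700416)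 (l 15870264))) (b (a (l 15203896) (l 15543136)) (c (b (c (l 15683360) (l 15655120)) (l 15839392)) (b (l 15662560) (c (l 15785576) (l 15632960)))))))), by decide +kernel⟩

def k20_pp_102 : ∃ t, chk3 f_pp_102 t 11 7 1 = true :=
  ⟨(b (a (b (c (l 14586184) (l 14510264)) (c (l 15050440) (l 14991664))) (b (c (l 15110304) (l 15052952)) (c (l 15507120) (l 15464904)))) (a (b (b (c (b (l 15381624) (l 15492768)) (l 15391800)) (c (c (b (l 15590584) (l 15688976)) (l 15627544)) (l 15606568))) (c (b (c (l 15843688) (b (l 15777272) (l 15880656))) (l 16027440)) (b (c (l 15713000) (l 15803960)) (c (l 15820808) (b (l 15950496) (l 16024712)))))) (b (c (b (l 15822536) (c (l 15913896) (l 15949160))) (l 15863216)) (c (b (c (l 16097904) (b (l 16048480) (l 16124312))) (l 16235552)) (b (l 16076480) (c (l 16203784) (l 15990168))))))), by decide +kernel⟩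

def k21_pp_102 : ∃ t, chk3 f_pp_102 t 3 1 1 = true :=
  ⟨(b (a (b (a (b (a (l 13628568) (l 14252112)) (l 14044808)) (b (l 15041296) (l 15099824))) (a (b (l 14214232) (l 14407064)) (b (l 15214984) (l 15376904)))) (b (a (l 15612104) (l 16269504)) (a (b (l 15892056) (l 16027520)) (b (l 16470016) (l 16573048))))) (b (a (a (b (c (l 14816104) (l 14747040)) (b (l 15019648) (l 15361776))) (b (c (l 15601536) (l 15560120)) (b (l 15790296) (l 16003576)))) (b (a (l 16077752) (c (l 16674480) (l 16670864))) (a (b (l 16378248) (l 16544832)) (l 16384536)))) (a (b (a (b (l 15642264) (a (l 15808072) (l 16092400))) (b (l 16226544) (l 16242368))) (b (a (c (b (l 16223168) (a (l 16215048) (l 16391296))) (l 16271224)) (c (b (l 16134752) (l 15996880)) (l 16044040))) (c (a (b (c (l 16375392) (l 16264264)) (l 16201192)) (b (c (l 15842872) (l 15824792)) (l 15666616))) (a (b (l 16366496) (c (l 16195560) (l 16017448))) (b (l 15804144) (c (l 15643168) (l 15536864))))))) (b (a (b (l 16455184) (a (l 16157968)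 (l 16022376))) (l 15904032)) (b (a (c (b (l 15767784) (l 15670080)) (l 15686192)) (c (l 15703248) (l 15647568))) (c (b (a (l 15555264) (l 15548968)) (l 15452048)) (b (l 15470048) (c (l 15420632) (l 15392808))))))))), by decide +kernel⟩

theorem s22_pp_102 : ∃ t, chk3 f_pp_102 t 10 7 1 = true := ex3_b k18_pp_102 k19_pp_102

theorem s23_pp_102 : ∃ t, chk3 f_pp_102 t 5 7 1 = true := ex3_a s22_pp_102 k20_pp_102

theorem s24_pp_102 : ∃ t, chk3 f_pp_102 t 5 6 1 = true := ex3_a k16_pp_102 k17_pp_102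

theorem s25_pp_102 : ∃ t, chk3 f_pp_102 t 5 3 1 = true := ex3_b s24_pp_102 s23_pp_102

theorem s26_pp_102 : ∃ t, chk3 f_pp_102 t 5 1 1 = true := ex3_b k15_pp_102 s25_pp_102

theorem s27_pp_102 : ∃ t, chk3 f_pp_102 t 19 15 2 = true := ex3_b k12_pp_102 k13_pp_102

theorem s28_pp_102 : ∃ t, chk3 f_pp_102 t 19 15 1 = true := ex3_c s27_pp_102 k14_pp_102

theorem s29_pp_102 : ∃ t, chk3 f_pp_102 t 19 7 1 = true := ex3_b k11_pp_102 s28_pp_102

theorem s30_pp_102 : ∃ t, chk3 f_pp_102 t 37 15 2 = true := ex3_b k8_pp_102 k9_pp_102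

theorem s31_pp_102 : ∃ t, chk3 f_pp_102 t 36 15 2 = true := ex3_a k6_pp_102 k7_pp_102

theorem s32_pp_102 : ∃ t, chk3 f_pp_102 t 18 15 2 = true := ex3_a s31_pp_102 s30_pp_102

theorem s33_pp_102 : ∃ t, chk3 f_pp_102 t 18 15 1 = true := ex3_c s32_pp_102 k10_pp_102

theorem s34_pp_102 : ∃ t, chk3 f_pp_102 t 18 14 1 = true := ex3_c k4_pp_102 k5_pp_102

theorem s35_pp_102 : ∃ t, chk3 f_pp_102 t 18 7 1 = true := ex3_b s34_pp_102 s33_pp_102

theorem s36_pp_102 : ∃ t, chk3 f_pp_102 t 9 7 1 = true := ex3_a s35_pp_102 s29_pp_102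

theorem s37_pp_102 : ∃ t, chk3 f_pp_102 t 9 6 1 = true := ex3_b k2_pp_102 k3_pp_102

theorem s38_pp_102 : ∃ t, chk3 f_pp_102 t 9 3 1 = true := ex3_b s37_pp_102 s36_pp_102

theorem s39_pp_102 : ∃ t, chk3 f_pp_102 t 4 3 1 = true := ex3_a k1_pp_102 s38_pp_102

theorem s40_pp_102 : ∃ t, chk3 f_pp_102 t 4 1 1 = true := ex3_b k0_pp_102 s39_pp_102

theorem s41_pp_102 : ∃ t, chk3 f_pp_102 t 2 1 1 = true := ex3_a s40_pp_102 s26_pp_102

theorem s42_pp_102 : ∃ t, chk3 f_pp_102 t 1 1 1 = true := ex3_a s41_pp_102 k21_pp_102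

theorem c_pp_102 : CertNX 536870912 536870912 0 536870912 1046898278 26843546 3 false true true .npp 1 0 2
    ndN7q1 ndN0q2 pcN0 cut_pp_102 Ext.none :=
  certNX2 (fam := false) (s1 := true) (s2 := true) (a := 1) (b := 0) (c := 2) (cn := .npp) (n1 := ndN7q1) (n2 := ndN0q2) (pc := pcN0) (cut := cut_pp_102) (xt := Ext.none) (P1 := 536870912) (W1 := 536870912) (P2 := 0) (W2 := 536870912) (P3 := 1046898278) (W3 := 26843546) (N0 := 3)
    rfl (fun _ => rfl) s42_pp_102

noncomputable def f_pp_112 : ℕ → ℕ → ℕ → ℕ → Bool := onCell 536870912 536870912 0 536870912 1046898278 26843546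
    (rowNX 3 0 false true true .dn 1 1 2 (qsf 536870912 536870912 0 536870912 1) ndN7q1 ndN0q2 pcN1 Cut.none Ext.none)

def k0_pp_112 : ∃ t, chk3 f_pp_112 t 1 1 1 = true :=
  ⟨(a (b (a (a (b (c (l 16768240) (l 16767928)) (l 16777216)) (b (l 16777216) (l 16777216))) (a (b (l 16403648) (b (l 16592392) (l 16592392))) (l 1))) (b (a (b (l 16777216) (c (l 16617984) (l 16612376))) (l 1)) (a (a (b (l 16113744) (b (l 84319563287) (c (l 15501008) (l 15280104)))) (b (l 16050832) (l 1))) (l 1)))) (l 1)), by decide +kernel⟩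

theorem c_pp_112 : CertNX 536870912 536870912 0 536870912 1046898278 26843546 3 false true true .dn 1 1 2
    ndN7q1 ndN0q2 pcN1 Cut.none Ext.none :=
  certNX0 (fam := false) (s1 := true) (s2 := true) (a := 1) (b := 1) (c := 2) (cn := .dn) (n1 := ndN7q1) (n2 := ndN0q2) (pc := pcN1) (cut := Cut.none) (xt := Ext.none) (P1 := 536870912) (W1 := 536870912) (P2 := 0) (W2 := 536870912) (P3 := 1046898278) (W3 := 26843546) (N0 := 3)
    rfl k0_pp_112

noncomputable def cut_pp_202 : Cut := Cut.of [[⟨0, 1, 0, 67108864⟩, ⟨1, 0, 0, 67108864⟩, ⟨2, 1, 0, 67108864⟩]]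

noncomputable def f_pp_202 : ℕ → ℕ → ℕ → ℕ → Bool := onCell 0 536870912 0 536870912 1046898278 26843546
    (rowNX 3 2 false true true .pp 2 0 2 (qsf 1073741824 536870912 0 536870912 0) ndN7q2 ndN0q2 pcN0 cut_pp_202 Ext.none)

def k0_pp_202 : ∃ t, chk3 f_pp_202 t 4 4 1 = true :=
  ⟨(c (a (a (a (a (c (l 15627432) (l 15598984)) (c (a (l 15480056) (l 15400368)) (a (l 15464152) (l 15391472)))) (c (a (l 15126744) (l 15123352)) (a (l 15262136) (l 15068720)))) (a (c (l 14839352) (l 14722360)) (c (b (l 14487816) (l 14619392)) (l 14501680)))) (a (a (c (b (l 14348656) (c (l 14466088) (l 14414704))) (l 14286136)) (c (b (l 14107320) (l 14041208)) (b (l 14078560) (l 14111584)))) (c (b (l 13777600) (l 13746584)) (c (b (l 13509696) (l 13462872)) (a (b (l 13844712) (l 13689360)) (l 13586304)))))) (a (a (a (a (c (a (l 15619720) (b (l 15496184) (l 15573856))) (a (c (l 15601064) (a (l 15506400) (l 15567448))) (b (l 15474376) (l 15553608)))) (c (b (l 15369800) (l 15447616)) (l 15368872))) (c (l 15120696)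 (l 15086464))) (a (l 14705840) (l 14443832))) (a (b (l 14071896) (l 14139424)) (a (b (l 13745264) (l 13749184)) (c (b (l 13546480) (c (l 13541304) (l 13496024))) (l 13481464)))))), by decide +kernel⟩

def k1_pp_202 : ∃ t, chk3 f_pp_202 t 8 5 1 = true :=
  ⟨(a (a (c (a (b (l 15651920) (l 15560688)) (a (b (l 15486088) (c (l 15413920) (l 15399888))) (c (l 15379144) (b (l 15427320) (l 15334768))))) (a (c (a (l 15605160) (b (l 15564896) (l 15467496))) (a (b (c (l 15639176) (l 15627016)) (c (l 15542768) (l 15445368))) (b (l 15544552) (l 15445304)))) (c (b (l 15437496) (l 15341680)) (b (l 15401656) (l 15301912))))) (c (c (b (a (l 15329664) (l 15159912)) (a (l 15268224) (l 15156808))) (b (l 15198528) (l 14979712))) (b (l 15132976) (c (l 15115072) (l 15077936))))) (c (b (a (c (l 14924056) (l 14871128)) (c (c (a (l 14816624) (l 14723440)) (l 14694872)) (l 14646936))) (c (a (b (l 15028176) (c (l 15082808) (l 15019264))) (a (c (l 14855992) (l 14734360)) (c (l 14740488) (l 14571248)))) (a (l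 14917432) (b (l 14697488) (l 14754760))))) (b (l 14500096) (l 14759152)))), by decide +kernel⟩

def k2_pp_202 : ∃ t, chk3 f_pp_202 t 9 5 1 = true :=
  ⟨(a (c (b (c (a (c (l 14267040) (l 14250344)) (l 14133216)) (a (l 14349680) (b (l 14118136) (c (l 14101000) (l 14090744))))) (c (a (b (l 14480336) (l 14473504)) (l 14075424)) (a (b (c (l 14472752) (l 14431936)) (c (a (l 14581568) (l 14362944)) (l 14439272))) (b (c (l 14080632) (l 14045680)) (l 14025504))))) (b (a (l 14330632) (l 14039576)) (c (a (l 14160768) (b (l 14021176) (c (a (l 14118544) (l 13888424)) (l 13966952)))) (l 14140232)))) (a (c (b (a (b (l 13854416) (l 13824864)) (l 13704744)) (l 13680832)) (b (c (a (l 13786168) (c (l 13648144) (l 13626096))) (l 13645416)) (c (b (c (l 13647912) (l 13462448)) (c (l 13586536) (a (l 13637016) (l 13478360)))) (b (l 13589832) (c (a (l 13618968) (l 13440600)) (l 13496864)))))) (c (l 13473872) (b (b (c (l 13408304) (l 13424176)) (c (l 13425128) (l 13354448))) (c (l 13332248) (b (c (l 13319528)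 (l 13280736)) (c (l 13253192) (a (l 13283088) (l 13154864))))))))), by decide +kernel⟩

def k3_pp_202 : ∃ t, chk3 f_pp_202 t 32 6 2 = true :=
  ⟨(b (a (b (l 15450280) (l 15338944)) (c (b (l 15316352) (c (a (l 15361664) (l 15366232)) (l 15323632))) (a (l 15322568) (l 15299600)))) (a (c (b (b (l 15495664) (c (c (l 15678848) (l 15618448)) (l 15568840))) (c (b (l 15647720) (l 15878456)) (b (c (l 15724424) (l 15664728)) (c (l 15857680) (l 15823016))))) (c (b (l 15496592) (l 15679408)) (a (l 15607128) (a (l 15549744) (b (l 15321624) (l 15621344)))))) (c (b (b (c (a (l 15457416) (l 15434776)) (l 15368160)) (a (c (c (l 15602152) (l 15536544)) (a (l 15485864) (l 15368024))) (c (l 15539608) (l 15502840)))) (c (a (c (l 15699240) (l 15561296)) (l 15637224)) (a (b (a (l 15638680) (c (l 15641768) (l 15601840))) (a (l 15759272) (l 15737048))) (b (l 15621536) (l 15722224))))) (c (b (b (l 15356080) (a (l 15454144) (l 15442720))) (a (b (l 15536288) (c (a (l 15712616) (l 15713400)) (l 15667336))) (b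 (l 15564656) (l 15710800)))) (a (l 15501808) (b (b (l 15345680) (l 15438672)) (c (l 15600896) (l 15591544)))))))), by decide +kernel⟩

def k4_pp_202 : ∃ t, chk3 f_pp_202 t 32 6 3 = true :=
  ⟨(b (a (c (a (l 15421992) (b (l 15354480) (l 15344736))) (a (c (l 15292768) (b (l 15400088) (l 15354664))) (b (l 15330064) (l 15319952)))) (c (l 15095080) (l 15240352))) (b (a (b (c (l 15407984) (a (l 15188736) (l 15356184))) (c (a (l 15528096) (b (l 15450608) (a (l 15508960) (l 15404568)))) (a (a (l 15504880) (c (l 15489552) (l 15478320))) (c (l 15462856) (l 15442096))))) (c (b (l 15325296) (a (c (l 15457232) (l 15440264)) (l 15399936))) (b (l 15280664) (l 15376192)))) (a (c (a (l 15678472) (c (a (l 15637032) (l 15620344)) (a (l 15632704) (l 15624512)))) (a (c (a (l 15667936) (l 15433584)) (a (c (l 15656624) (a (l 15655368) (l 15645272))) (l 15633336))) (c (l 15616624) (l 15596616)))) (c (a (c (l 15610144) (l 15594128)) (l 15554408)) (l 15531248))))), by decide +kernel⟩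

def k5_pp_202 : ∃ t, chk3 f_pp_202 t 32 7 1 = true :=
  ⟨(b (b (c (b (c (a (c (l 15948304) (l 15866832)) (a (a (l 15828088) (l 15687888)) (l 15762680))) (a (c (c (l 15776312) (l 15829272)) (c (l 15843680) (l 15812040))) (c (a (a (c (l 15853096) (l 15760888)) (l 15830192)) (l 15822632)) (a (l 15786008) (c (a (l 15811480) (l 15812520)) (l 15766272)))))) (b (b (c (a (l 15995264) (a (l 15665248) (l 15804512))) (a (c (l 15909840) (a (l 15945744) (l 15755456))) (c (a (l 15911832) (l 15884496)) (a (l 15885904) (c (l 15906744) (l 15869800)))))) (l 6)) (l 6))) (a (c (a (l 15882808) (c (a (l 15856320) (l 15839496)) (a (l 15854160) (l 15846464)))) (a (c (a (l 15895224) (c (l 15868128) (l 15867056))) (a (c (l 15884824) (a (l 15863432) (l 15873352))) (l 15860064))) (c (l 15798016) (l 15821016)))) (c (c (a (b (l 15773696) (l 15786856)) (b (l 15733944) (c (l 15762520) (l 15840536)))) (l 15785424)) (l 15752952)))) (l 6)) (l 6)), by decide +kernel⟩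

def k6_pp_202 : ∃ t, chk3 f_pp_202 t 33 3 1 = true :=
  ⟨(b (c (b (a (c (b (l 15279464) (c (c (l 15386232) (l 15361752)) (l 15302168))) (l 15239896)) (c (b (c (l 15282776) (l 15178280)) (c (l 15277456) (l 15250680))) (l 15130032))) (c (b (a (c (b (a (l 15440248) (l 15439696)) (l 15509616)) (a (b (l 15398600) (l 15424864)) (b (c (l 15408176) (l 15340936)) (c (l 15520152) (l 15482408))))) (c (b (l 15348632) (l 15394992)) (b (l 15310312) (l 15394328)))) (a (c (l 15602696) (a (b (l 15619360) (l 15693400)) (b (l 15585912) (l 15643304)))) (l 15355256))) (c (b (a (a (b (l 15329216) (l 15344688)) (l 15113096)) (b (l 15240680) (l 15340232))) (a (a (b (c (l 15573240) (l 15536584)) (c (l 15719504) (l 15668576))) (b (l 15536944) (l 15641272))) (b (l 15440080) (l 15514952)))) (b (l 15134696) (a (b (l 15469376) (l 15443352)) (b (l 15382000) (c (l 15506200) (l 15475264)))))))) (b (l 15108688) (c (b (a (l 15142008) (l 15151552)) (a (l 15465248) (a (l 15378864) (c (l 15201736) (l 15312456))))) (b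 (l 15173672) (l 15373736))))) (b (b (b (c (c (a (a (l 15740032) (l 15581256)) (l 15622184)) (c (a (c (l 15754200) (l 15661696)) (l 15592080)) (a (c (l 15742528) (l 15710888)) (l 15567632)))) (c (c (a (l 15547248) (c (a (l 15591712) (l 15531896)) (l 15533560))) (l 15558032)) (l 15535048))) (b (b (b (c (c (a (l 15662312) (l 15674416)) (a (c (l 15791272) (l 15792400)) (l 15633264))) (c (c (a (l 15736544) (l 15426480)) (l 15507368)) (l 15597984))) (l 6)) (l 6)) (l 6))) (l 6)) (l 6))), by decide +kernel⟩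

def k7_pp_202 : ∃ t, chk3 f_pp_202 t 17 6 1 = true :=
  ⟨(c (b (a (c (b (c (l 15090592) (l 14988160)) (c (l 15095104) (a (l 15142912) (l 14985816)))) (b (c (l 14997040) (l 14934280)) (a (c (l 15074320) (l 14999512)) (c (b (l 14965856) (l 14791064)) (l 14922112))))) (c (b (c (l 14819760) (a (l 14882888) (l 14738968))) (b (l 14794504) (a (l 14842480) (l 14693112)))) (b (c (a (l 14843464) (l 14737232)) (l 14744952)) (b (c (l 14763464) (l 14758784)) (a (c (l 14835000) (l 14828656)) (l 14679616)))))) (b (a (c (b (l 15080264) (l 15155480)) (c (a (b (l 15123760) (l 15211728)) (b (l 14967784) (l 15055824))) (a (b (l 15039568) (l 15015208)) (b (l 14958760) (l 15049384))))) (c (a (l 14885112) (l 14744984)) (c (l 14814072) (a (b (l 14822408) (l 14909760)) (l 14742528))))) (a (c (l 15277672) (c (a (l 15316224) (l 15162728)) (a (b (c (l 15274320) (l 15251992)) (l 15334104)) (l 15152968)))) (c (a (l 15054064) (l 14924848)) (l 14968280))))) (b (b (l 14788472) (a (l 14906976) (c (a (l 14761672)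 (c (l 14671456) (l 14631064))) (l 14666040)))) (a (c (b (c (b (l 14952560) (l 15062528)) (l 14977688)) (c (b (a (l 15225448) (l 15114928)) (a (c (l 15336400) (l 15317344)) (l 15066344))) (a (l 15233528) (b (l 15095336) (l 15185936))))) (l 14920640)) (c (b (c (a (b (l 14817616) (l 14688088)) (b (l 14676720) (l 14762848))) (a (l 14824936) (b (l 14672592) (l 14732352)))) (c (b (a (l 14976720) (l 14846544)) (l 15002680)) (a (b (l 14968872) (c (l 15058520) (l 15044720))) (b (l 14683576) (l 14922176))))) (b (l 14728784) (c (a (l 14981504) (b (l 14819000) (c (l 14909432) (l 14896024)))) (l 14898832))))))), by decide +kernel⟩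

def k8_pp_202 : ∃ t, chk3 f_pp_202 t 17 7 1 = true :=
  ⟨(a (b (b (b (c (c (c (l 15431472) (l 15392776)) (a (l 15441328) (l 15287648))) (c (c (a (c (l 15420128) (b (l 15404472) (l 15439152))) (l 15290680)) (a (l 15216712) (c (l 15281000) (b (l 15259016) (l 15299080))))) (a (l 15369248) (l 15257376)))) (b (b (b (c (c (l 15474968) (l 15414088)) (c (c (l 15407424) (a (l 15470792) (l 15334104))) (a (l 15431104) (l 15314648)))) (l 6)) (l 6)) (l 6))) (l 6)) (l 6)) (b (b (c (c (a (c (l 15283104) (b (l 15190192) (l 15296144))) (c (b (l 15087704) (l 15192312)) (l 15126856))) (a (l 15234784) (l 15111584))) (b (c (l 14858232) (c (a (c (b (l 15113184) (l 15166112)) (l 15060664)) (c (l 15011144) (l 15001672))) (a (l 15127696) (c (b (l 14961640) (l 15018592)) (l 14978880))))) (c (l 15205344) (a (b (c (c (l 15218040) (l 15209312)) (l 15024952)) (l 6)) (c (l 15110928) (c (l 15100768) (b (a (l 15096048) (l 15031664)) (l 15120176)))))))) (a (l 6) (a (l 6) (l 1)))) (l 1))), by decide +kernel⟩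

def k9_pp_202 : ∃ t, chk3 f_pp_202 t 18 6 1 = true :=
  ⟨(c (b (a (b (c (l 14447088) (c (l 14437176) (a (l 14547760) (l 14314272)))) (c (l 14408976) (a (l 14514040) (l 14275056)))) (b (l 14000600) (l 13930256))) (a (a (b (l 14559648) (c (l 14760648) (l 14706184))) (b (l 14311696) (l 14476488))) (b (l 13931024) (l 14048688)))) (b (a (b (c (c (l 14189184) (l 14373104)) (l 14330112)) (c (c (a (b (l 14516664) (l 14485232)) (l 14254120)) (a (l 14468736) (b (l 14259016) (l 14223656)))) (a (l 14428920) (l 14211152)))) (c (b (c (l 13863352) (a (l 14027312) (l 13805384))) (c (l 13886912) (a (b (l 14007336) (l 13975888)) (l 13733792)))) (b (l 13876976) (a (b (l 13974640) (l 13681328)) (c (b (l 13724664) (l 13686088)) (l 13667952)))))) (a (c (b (c (l 14341960) (a (b (l 14428544) (l 14551000)) (l 14025864))) (a (l 14682856) (l 14406320))) (b (c (a (b (l 14471632) (l 14523664)) (b (l 14197088) (c (l 14275928) (l 14257896)))) (a (l 14470960) (l 14199720))) (c (a (b (c (l 14620312) (l 14605496))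 (l 14702896)) (l 14380600)) (a (b (l 14594904) (c (a (l 14753672) (l 14619360)) (l 14674288))) (b (c (l 14324016) (l 14309560)) (c (l 14405952) (l 14183288))))))) (c (b (l 13866568) (l 13979040)) (b (c (a (b (l 13938632) (l 13993648)) (l 13687904)) (a (b (l 13909832) (c (l 13974776) (l 13959008))) (b (l 13446376) (l 13680496)))) (b (a (c (l 14055656) (l 14031688)) (l 1)) (l 1))))))), by decide +kernel⟩

def k10_pp_202 : ∃ t, chk3 f_pp_202 t 19 6 1 = true :=
  ⟨(b (c (a (a (b (l 13643528) (l 13562600)) (l 13434568)) (l 13247584)) (a (c (a (b (l 13575384) (l 13481240)) (l 13360016)) (a (b (c (b (l 13554904) (l 13518888)) (l 13508744)) (c (l 13443464) (b (l 13438888) (a (l 13448392) (l 13315616))))) (b (c (l 13368960) (l 13335192)) (l 541191864615)))) (b (b (c (l 13239680) (l 13177848)) (l 13162984)) (l 1)))) (b (a (a (c (l 13524520) (a (l 13375656) (l 1))) (l 1)) (l 1)) (l 1))), by decide +kernel⟩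

def k11_pp_202 : ∃ t, chk3 f_pp_202 t 9 7 1 = true :=
  ⟨(a (b (b (a (c (a (c (l 583608023591) (l 14904288)) (l 14368088)) (c (l 14709168) (a (c (l 14854544) (b (c (l 14785752) (a (l 14846344) (l 14703176))) (l 14885920))) (l 14545896)))) (l 1)) (l 1)) (l 1)) (l 1)), by decide +kernel⟩

def k12_pp_202 : ∃ t, chk3 f_pp_202 t 5 1 1 = true :=
  ⟨(b (a (a (b (c (l 13273800) (b (c (l 13109120) (a (l 13261200) (l 13011656))) (c (l 13168456) (a (c (l 13234880) (l 13198080)) (c (l 13001176) (l 12963344)))))) (c (l 13107248) (b (c (l 13086368) (a (c (l 12987344) (b (l 13143568) (l 13093672))) (l 12888648))) (c (l 12952416) (a (b (l 13048320) (l 12979432)) (l 1)))))) (b (b (l 1) (l 1)) (l 1))) (l 1)) (b (l 1) (l 1))), by decide +kernel⟩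

def k13_pp_202 : ∃ t, chk3 f_pp_202 t 3 1 1 = true :=
  ⟨(l 1), by decide +kernel⟩

theorem s14_pp_202 : ∃ t, chk3 f_pp_202 t 9 6 1 = true := ex3_a k9_pp_202 k10_pp_202

theorem s15_pp_202 : ∃ t, chk3 f_pp_202 t 9 3 1 = true := ex3_b s14_pp_202 k11_pp_202

theorem s16_pp_202 : ∃ t, chk3 f_pp_202 t 17 3 1 = true := ex3_b k7_pp_202 k8_pp_202

theorem s17_pp_202 : ∃ t, chk3 f_pp_202 t 32 6 1 = true := ex3_c k3_pp_202 k4_pp_202

theorem s18_pp_202 : ∃ t, chk3 f_pp_202 t 32 3 1 = true := ex3_b s17_pp_202 k5_pp_202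

theorem s19_pp_202 : ∃ t, chk3 f_pp_202 t 16 3 1 = true := ex3_a s18_pp_202 k6_pp_202

theorem s20_pp_202 : ∃ t, chk3 f_pp_202 t 8 3 1 = true := ex3_a s19_pp_202 s16_pp_202

theorem s21_pp_202 : ∃ t, chk3 f_pp_202 t 4 3 1 = true := ex3_a s20_pp_202 s15_pp_202

theorem s22_pp_202 : ∃ t, chk3 f_pp_202 t 4 5 1 = true := ex3_a k1_pp_202 k2_pp_202

theorem s23_pp_202 : ∃ t, chk3 f_pp_202 t 4 2 1 = true := ex3_b k0_pp_202 s22_pp_202

theorem s24_pp_202 : ∃ t, chk3 f_pp_202 t 4 1 1 = true := ex3_b s23_pp_202 s21_pp_202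

theorem s25_pp_202 : ∃ t, chk3 f_pp_202 t 2 1 1 = true := ex3_a s24_pp_202 k12_pp_202

theorem s26_pp_202 : ∃ t, chk3 f_pp_202 t 1 1 1 = true := ex3_a s25_pp_202 k13_pp_202

theorem c_pp_202 : CertNX 1073741824 536870912 0 536870912 1046898278 26843546 3 false true true .pp 2 0 2
    ndN7q2 ndN0q2 pcN0 cut_pp_202 Ext.none :=
  certNX2 (fam := false) (s1 := true) (s2 := true) (a := 2) (b := 0) (c := 2) (cn := .pp) (n1 := ndN7q2) (n2 := ndN0q2) (pc := pcN0) (cut := cut_pp_202) (xt := Ext.none) (P1 := 1073741824) (W1 := 536870912) (P2 := 0) (W2 := 536870912) (P3 := 1046898278) (W3 := 26843546) (N0 := 3)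
    rfl (fun _ => rfl) s26_pp_202

noncomputable def f_pm_001 : ℕ → ℕ → ℕ → ℕ → Bool := onCell 0 536870912 536870912 536870912 1046898278 26843546
    (rowNX 3 0 false true false .up 0 0 1 (qsf 0 536870912 536870912 536870912 0) ndN7q0 ndN0q1 pcN0 Cut.none Ext.none)

def k0_pm_001 : ∃ t, chk3 f_pm_001 t 1 1 1 = true :=
  ⟨(l 4), by decide +kernel⟩

theorem c_pm_001 : CertNX 0 536870912 536870912 536870912 1046898278 26843546 3 false true false .up 0 0 1
    ndN7q0 ndN0q1 pcN0 Cut.none Ext.none :=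
  certNX0 (fam := false) (s1 := true) (s2 := false) (a := 0) (b := 0) (c := 1) (cn := .up) (n1 := ndN7q0) (n2 := ndN0q1) (pc := pcN0) (cut := Cut.none) (xt := Ext.none) (P1 := 0) (W1 := 536870912) (P2 := 536870912) (W2 := 536870912) (P3 := 1046898278) (W3 := 26843546) (N0 := 3)
    rfl k0_pm_001

noncomputable def f_pm_011 : ℕ → ℕ → ℕ → ℕ → Bool := onCell 0 536870912 536870912 536870912 1046898278 26843546
    (rowNX 3 0 false true false .pnn 0 1 1 (qsf 0 536870912 536870912 536870912 1) ndN7q0 ndN0q1 pcN1 Cut.none Ext.none)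

def k0_pm_011 : ∃ t, chk3 f_pm_011 t 1 1 1 = true :=
  ⟨(l 4), by decide +kernel⟩

theorem c_pm_011 : CertNX 0 536870912 536870912 536870912 1046898278 26843546 3 false true false .pnn 0 1 1
    ndN7q0 ndN0q1 pcN1 Cut.none Ext.none :=
  certNX0 (fam := false) (s1 := true) (s2 := false) (a := 0) (b := 1) (c := 1) (cn := .pnn) (n1 := ndN7q0) (n2 := ndN0q1) (pc := pcN1) (cut := Cut.none) (xt := Ext.none) (P1 := 0) (W1 := 536870912) (P2 := 536870912) (W2 := 536870912) (P3 := 1046898278) (W3 := 26843546) (N0 := 3)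
    rfl k0_pm_011

noncomputable def f_pm_012 : ℕ → ℕ → ℕ → ℕ → Bool := onCell 0 536870912 0 536870912 1046898278 26843546
    (rowNX 3 0 false true false .pnp 0 1 2 (qsf 0 536870912 0 536870912 1) ndN7q0 ndN0q2 pcN1 Cut.none Ext.none)

def k0_pm_012 : ∃ t, chk3 f_pm_012 t 1 1 1 = true :=
  ⟨(a (l 4) (l 4)), by decide +kernel⟩

theorem c_pm_012 : CertNX 0 536870912 0 536870912 1046898278 26843546 3 false true false .pnp 0 1 2
    ndN7q0 ndN0q2 pcN1 Cut.none Ext.none :=
  certNX0 (fam := false) (s1 := true) (s2 := false) (a := 0) (b := 1) (c := 2) (cn := .pnp) (n1 := ndN7q0) (n2 := ndN0q2) (pc := pcN1) (cut := Cut.none) (xt := Ext.none) (P1 := 0) (W1 := 536870912) (P2 := 0) (W2 := 536870912) (P3 := 1046898278) (W3 := 26843546) (N0 := 3)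
    rfl k0_pm_012

noncomputable def f_pm_022 : ℕ → ℕ → ℕ → ℕ → Bool := onCell 1073741824 536870912 0 536870912 1046898278 26843546
    (rowNX 3 2 false true false .pp 0 2 2 (qsf 0 536870912 0 536870912 2) ndN7q0 ndN0q2 pcN2 Cut.none Ext.none)

def k0_pm_022 : ∃ t, chk3 f_pm_022 t 1 1 1 = true :=
  ⟨(l 4), by decide +kernel⟩

theorem c_pm_022 : CertNX 0 536870912 0 536870912 1046898278 26843546 3 false true false .pp 0 2 2
    ndN7q0 ndN0q2 pcN2 Cut.none Ext.none :=
  certNX2 (fam := false) (s1 := true) (s2 := false) (a := 0) (b := 2) (c := 2) (cn := .pp) (n1 := ndN7q0) (n2 := ndN0q2) (pc := pcN2) (cut := Cut.none) (xt := Ext.none) (P1 := 0) (W1 := 536870912) (P2 := 0) (W2 := 536870912) (P3 := 1046898278) (W3 := 26843546) (N0 := 3)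
    rfl (fun _ => rfl) k0_pm_022

noncomputable def f_pm_101 : ℕ → ℕ → ℕ → ℕ → Bool := onCell 536870912 536870912 536870912 536870912 1046898278 26843546
    (rowNX 3 0 false true false .npn 1 0 1 (qsf 536870912 536870912 536870912 536870912 0) ndN7q1 ndN0q1 pcN0 Cut.none Ext.none)

def k0_pm_101 : ∃ t, chk3 f_pm_101 t 1 1 1 = true :=
  ⟨(l 4), by decide +kernel⟩

theorem c_pm_101 : CertNX 536870912 536870912 536870912 536870912 1046898278 26843546 3 false true false .npn 1 0 1
    ndN7q1 ndN0q1 pcN0 Cut.none Ext.none :=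
  certNX0 (fam := false) (s1 := true) (s2 := false) (a := 1) (b := 0) (c := 1) (cn := .npn) (n1 := ndN7q1) (n2 := ndN0q1) (pc := pcN0) (cut := Cut.none) (xt := Ext.none) (P1 := 536870912) (W1 := 536870912) (P2 := 536870912) (W2 := 536870912) (P3 := 1046898278) (W3 := 26843546) (N0 := 3)
    rfl k0_pm_101

noncomputable def f_pm_102 : ℕ → ℕ → ℕ → ℕ → Bool := onCell 536870912 536870912 0 536870912 1046898278 26843546
    (rowNX 3 0 false true false .npp 1 0 2 (qsf 536870912 536870912 0 536870912 0) ndN7q1 ndN0q2 pcN0 Cut.none Ext.none)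

def k0_pm_102 : ∃ t, chk3 f_pm_102 t 1 1 1 = true :=
  ⟨(b (b (a (a (l 2) (a (l 16592392) (l 16041696))) (a (a (l 15393264) (c (l 14544056) (l 14465424))) (a (c (a (l 13652976) (c (l 13421000) (l 13376624))) (l 13412952)) (c (a (c (l 13237704) (a (l 13239928) (l 13138536))) (l 13059184)) (a (c (l 13099480) (l 13032520)) (c (a (l 13004392) (l 12940472)) (a (l 12943808) (b (l 12923904) (l 12822056))))))))) (a (l 4) (a (b (a (l 15393264) (l 14504672)) (l 4)) (a (a (b (l 13598760) (l 4)) (c (b (c (l 13462376) (l 13376048)) (a (l 4) (l 13351400))) (b (l 13255648) (l 13249728)))) (c (a (c (l 13179432) (a (l 13207368) (l 13049016))) (b (l 12924368) (l 12827192))) (a (b (l 13026448) (l 12731648)) (c (a (b (l 12890104) (l 12801280)) (l 12725104)) (a (l 12788944) (b (l 12711104) (l 12590120)))))))))) (a (l 4) (l 4))), by decide +kernel⟩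

theorem c_pm_102 : CertNX 536870912 536870912 0 536870912 1046898278 26843546 3 false true false .npp 1 0 2
    ndN7q1 ndN0q2 pcN0 Cut.none Ext.none :=
  certNX0 (fam := false) (s1 := true) (s2 := false) (a := 1) (b := 0) (c := 2) (cn := .npp) (n1 := ndN7q1) (n2 := ndN0q2) (pc := pcN0) (cut := Cut.none) (xt := Ext.none) (P1 := 536870912) (W1 := 536870912) (P2 := 0) (W2 := 536870912) (P3 := 1046898278) (W3 := 26843546) (N0 := 3)
    rfl k0_pm_102

noncomputable def f_pm_112 : ℕ → ℕ → ℕ → ℕ → Bool := onCell 536870912 536870912 0 536870912 1046898278 26843546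
    (rowNX 3 2 false true false .dn 1 1 2 (qsf 536870912 536870912 0 536870912 1) ndN7q1 ndN0q2 pcN1 Cut.none Ext.none)

def k0_pm_112 : ∃ t, chk3 f_pm_112 t 1 1 1 = true :=
  ⟨(a (b (a (b (a (l 16748944) (l 16777216)) (l 4)) (l 4)) (l 4)) (l 1)), by decide +kernel⟩

theorem c_pm_112 : CertNX 536870912 536870912 0 536870912 1046898278 26843546 3 false true false .dn 1 1 2
    ndN7q1 ndN0q2 pcN1 Cut.none Ext.none :=
  certNX2 (fam := false) (s1 := true) (s2 := false) (a := 1) (b := 1) (c := 2) (cn := .dn) (n1 := ndN7q1) (n2 := ndN0q2) (pc := pcN1) (cut := Cut.none) (xt := Ext.none) (P1 := 536870912) (W1 := 536870912) (P2 := 0) (W2 := 536870912) (P3 := 1046898278) (W3 := 26843546) (N0 := 3)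
    rfl (fun _ => rfl) k0_pm_112

noncomputable def f_pm_202 : ℕ → ℕ → ℕ → ℕ → Bool := onCell 0 536870912 0 536870912 1046898278 26843546
    (rowNX 3 2 false true false .pp 2 0 2 (qsf 1073741824 536870912 0 536870912 0) ndN7q2 ndN0q2 pcN0 Cut.none Ext.none)

def k0_pm_202 : ∃ t, chk3 f_pm_202 t 4 4 1 = true :=
  ⟨(a (a (b (a (c (a (l 15379192) (b (c (l 15299232) (l 15089656)) (l 15189232))) (a (b (c (a (l 15469696) (l 15379944)) (a (c (l 15449712) (l 15436696)) (l 15355904))) (c (l 15323432) (l 15295176))) (c (l 15122304) (l 15171264)))) (a (c (c (l 15100992) (l 15066640)) (l 15003968)) (c (l 14904232) (l 14814360)))) (a (c (a (l 15160224) (l 14856608)) (a (c (l 15112992) (l 14913664)) (l 14919232))) (c (l 14723032) (l 14637272)))) (c (b (a (b (l 14659120) (l 14557688)) (b (l 14349008) (l 14263904))) (a (l 14362000) (l 14115976))) (b (a (l 14525264) (l 14226304)) (l 14147648)))) (a (c (b (a (c (l 14219808) (l 14110888)) (c (l 13911712) (l 13986024))) (c (a (l 14018912) (l 13815344))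 (l 13840240))) (b (l 13956400) (l 13743304))) (a (c (b (c (l 13836136) (a (l 13860504) (l 13715216))) (c (l 13627256) (l 13566032))) (b (l 13685536) (l 13491856))) (c (b (l 13580088) (l 13379792)) (c (b (l 13494936) (l 13290672)) (l 13344880)))))), by decide +kernel⟩

def k1_pm_202 : ∃ t, chk3 f_pm_202 t 4 5 1 = true :=
  ⟨(a (a (a (c (a (l 14556792) (c (b (l 14636600) (l 14162072)) (a (l 14397928) (l 14313816)))) (a (c (a (l 14541384) (l 14448472)) (a (b (l 14752816) (l 14256024)) (l 14407800))) (c (l 14314192) (l 14267960)))) (c (b (a (l 14445120) (l 14265536)) (a (l 13989640) (l 13865960))) (b (l 14260448) (l 13830648)))) (c (b (a (l 14050568) (c (l 13940608) (l 13827856))) (c (a (l 13809840) (c (l 13613640) (l 13610672))) (a (l 13695504) (l 13555800)))) (b (l 13856568) (l 13521448)))) (a (c (b (c (a (l 13469560) (l 13548080)) (a (l 13692072) (l 13475312))) (c (a (l 13408240) (l 13212296)) (a (b (l 13461456) (l 13251392)) (l 13050872)))) (c (b (l 13519960) (a (l 13311456) (l 13076608)))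 (l 13284128))) (c (b (b (l 13145296) (l 13146440)) (l 12916208)) (b (c (a (l 13221032) (l 12986712)) (a (l 13169728) (l 12950456))) (c (a (b (l 12983776) (l 12812800)) (l 12713880)) (a (l 12818552) (b (l 12716312) (l 12555160)))))))), by decide +kernel⟩

def k2_pm_202 : ∃ t, chk3 f_pm_202 t 4 3 1 = true :=
  ⟨(b (b (a (a (a (c (a (b (l 13889320) (l 13669416)) (c (a (l 13729536) (l 13725200)) (a (l 13670768) (l 13625112)))) (a (c (a (l 13734096) (l 13671344)) (a (c (l 13694320) (l 13667568)) (l 13617328))) (c (l 13596280) (l 13540616)))) (c (c (a (b (l 13704576) (l 13608312)) (b (l 13670840) (l 4))) (l 13527720)) (l 13439768))) (b (c (c (a (l 13548672) (l 13341256)) (a (l 13476120) (l 13294808))) (l 13254872)) (l 4))) (b (a (c (a (c (l 13151360) (l 13098536)) (l 12955568)) (c (a (l 13041680) (l 12851368)) (l 12850016))) (l 4)) (l 4))) (l 4)) (l 4)), by decide +kernel⟩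

def k3_pm_202 : ∃ t, chk3 f_pm_202 t 5 1 1 = true :=
  ⟨(b (a (a (b (c (l 13163976) (c (b (a (l 13283304) (l 13053808)) (l 12977688)) (b (a (l 13213864) (l 12843976)) (a (l 13009224) (l 12800072))))) (c (l 12696984) (a (c (l 12684344) (b (c (l 12775976) (l 12734768)) (l 12456856))) (b (l 12593224) (l 1))))) (b (b (l 1) (l 1)) (l 1))) (l 1)) (l 4)), by decide +kernel⟩

def k4_pm_202 : ∃ t, chk3 f_pm_202 t 3 1 1 = true :=
  ⟨(l 1), by decide +kernel⟩

theorem s5_pm_202 : ∃ t, chk3 f_pm_202 t 4 2 1 = true := ex3_b k0_pm_202 k1_pm_202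

theorem s6_pm_202 : ∃ t, chk3 f_pm_202 t 4 1 1 = true := ex3_b s5_pm_202 k2_pm_202

theorem s7_pm_202 : ∃ t, chk3 f_pm_202 t 2 1 1 = true := ex3_a s6_pm_202 k3_pm_202

theorem s8_pm_202 : ∃ t, chk3 f_pm_202 t 1 1 1 = true := ex3_a s7_pm_202 k4_pm_202

theorem c_pm_202 : CertNX 1073741824 536870912 0 536870912 1046898278 26843546 3 false true false .pp 2 0 2
    ndN7q2 ndN0q2 pcN0 Cut.none Ext.none :=
  certNX2 (fam := false) (s1 := true) (s2 := false) (a := 2) (b := 0) (c := 2) (cn := .pp) (n1 := ndN7q2) (n2 := ndN0q2) (pc := pcN0) (cut := Cut.none) (xt := Ext.none) (P1 := 1073741824) (W1 := 536870912) (P2 := 0) (W2 := 536870912) (P3 := 1046898278) (W3 := 26843546) (N0 := 3)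
    rfl (fun _ => rfl) s8_pm_202

noncomputable def f_mm_001 : ℕ → ℕ → ℕ → ℕ → Bool := onCell 0 536870912 536870912 536870912 1046898278 26843546
    (rowNX 3 0 false false false .up 0 0 1 (qsf 0 536870912 536870912 536870912 0) ndN7q0 ndN0q1 pcN0 Cut.none Ext.none)

def k0_mm_001 : ∃ t, chk3 f_mm_001 t 1 1 1 = true :=
  ⟨(l 5), by decide +kernel⟩

theorem c_mm_001 : CertNX 0 536870912 536870912 536870912 1046898278 26843546 3 false false false .up 0 0 1
    ndN7q0 ndN0q1 pcN0 Cut.none Ext.none :=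
  certNX0 (fam := false) (s1 := false) (s2 := false) (a := 0) (b := 0) (c := 1) (cn := .up) (n1 := ndN7q0) (n2 := ndN0q1) (pc := pcN0) (cut := Cut.none) (xt := Ext.none) (P1 := 0) (W1 := 536870912) (P2 := 536870912) (W2 := 536870912) (P3 := 1046898278) (W3 := 26843546) (N0 := 3)
    rfl k0_mm_001

noncomputable def f_mm_011 : ℕ → ℕ → ℕ → ℕ → Bool := onCell 0 536870912 536870912 536870912 1046898278 26843546
    (rowNX 3 0 false false false .pnn 0 1 1 (qsf 0 536870912 536870912 536870912 1) ndN7q0 ndN0q1 pcN1 Cut.none Ext.none)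

def k0_mm_011 : ∃ t, chk3 f_mm_011 t 1 1 1 = true :=
  ⟨(l 5), by decide +kernel⟩

theorem c_mm_011 : CertNX 0 536870912 536870912 536870912 1046898278 26843546 3 false false false .pnn 0 1 1
    ndN7q0 ndN0q1 pcN1 Cut.none Ext.none :=
  certNX0 (fam := false) (s1 := false) (s2 := false) (a := 0) (b := 1) (c := 1) (cn := .pnn) (n1 := ndN7q0) (n2 := ndN0q1) (pc := pcN1) (cut := Cut.none) (xt := Ext.none) (P1 := 0) (W1 := 536870912) (P2 := 536870912) (W2 := 536870912) (P3 := 1046898278) (W3 := 26843546) (N0 := 3)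
    rfl k0_mm_011

noncomputable def f_mm_012 : ℕ → ℕ → ℕ → ℕ → Bool := onCell 0 536870912 0 536870912 1046898278 26843546
    (rowNX 3 0 false false false .pnp 0 1 2 (qsf 0 536870912 0 536870912 1) ndN7q0 ndN0q2 pcN1 Cut.none Ext.none)

def k0_mm_012 : ∃ t, chk3 f_mm_012 t 1 1 1 = true :=
  ⟨(l 5), by decide +kernel⟩

theorem c_mm_012 : CertNX 0 536870912 0 536870912 1046898278 26843546 3 false false false .pnp 0 1 2
    ndN7q0 ndN0q2 pcN1 Cut.none Ext.none :=
  certNX0 (fam := false) (s1 := false) (s2 := false) (a := 0) (b := 1) (c := 2) (cn := .pnp) (n1 := ndN7q0) (n2 := ndN0q2) (pc := pcN1) (cut := Cut.none) (xt := Ext.none) (P1 := 0) (W1 := 536870912) (P2 := 0) (W2 := 536870912) (P3 := 1046898278) (W3 := 26843546) (N0 := 3)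
    rfl k0_mm_012

noncomputable def f_mm_022 : ℕ → ℕ → ℕ → ℕ → Bool := onCell 0 536870912 0 536870912 1046898278 26843546
    (rowNX 3 0 false false false .pp 0 2 2 (qsf 0 536870912 0 536870912 2) ndN7q0 ndN0q2 pcN2 Cut.none Ext.none)

def k0_mm_022 : ∃ t, chk3 f_mm_022 t 1 1 1 = true :=
  ⟨(l 5), by decide +kernel⟩

theorem c_mm_022 : CertNX 0 536870912 0 536870912 1046898278 26843546 3 false false false .pp 0 2 2
    ndN7q0 ndN0q2 pcN2 Cut.none Ext.none :=
  certNX0 (fam := false) (s1 := false) (s2 := false) (a := 0) (b := 2) (c := 2) (cn := .pp) (n1 := ndN7q0) (n2 := ndN0q2) (pc := pcN2) (cut := Cut.none) (xt := Ext.none) (P1 := 0) (W1 := 536870912) (P2 := 0) (W2 := 536870912) (P3 := 1046898278) (W3 := 26843546) (N0 := 3)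
    rfl k0_mm_022

noncomputable def f_mm_101 : ℕ → ℕ → ℕ → ℕ → Bool := onCell 0 536870912 536870912 536870912 1046898278 26843546
    (rowNX 3 2 false false false .npn 1 0 1 (qsf 536870912 536870912 536870912 536870912 0) ndN7q1 ndN0q1 pcN0 Cut.none Ext.none)

def k0_mm_101 : ∃ t, chk3 f_mm_101 t 1 1 1 = true :=
  ⟨(l 5), by decide +kernel⟩

theorem c_mm_101 : CertNX 536870912 536870912 536870912 536870912 1046898278 26843546 3 false false false .npn 1 0 1
    ndN7q1 ndN0q1 pcN0 Cut.none Ext.none :=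
  certNX2 (fam := false) (s1 := false) (s2 := false) (a := 1) (b := 0) (c := 1) (cn := .npn) (n1 := ndN7q1) (n2 := ndN0q1) (pc := pcN0) (cut := Cut.none) (xt := Ext.none) (P1 := 536870912) (W1 := 536870912) (P2 := 536870912) (W2 := 536870912) (P3 := 1046898278) (W3 := 26843546) (N0 := 3)
    rfl (fun _ => rfl) k0_mm_101

noncomputable def f_mm_102 : ℕ → ℕ → ℕ → ℕ → Bool := onCell 536870912 536870912 0 536870912 1046898278 26843546
    (rowNX 3 0 false false false .npp 1 0 2 (qsf 536870912 536870912 0 536870912 0) ndN7q1 ndN0q2 pcN0 Cut.none Ext.none)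

def k0_mm_102 : ∃ t, chk3 f_mm_102 t 1 1 1 = true :=
  ⟨(l 5), by decide +kernel⟩

theorem c_mm_102 : CertNX 536870912 536870912 0 536870912 1046898278 26843546 3 false false false .npp 1 0 2
    ndN7q1 ndN0q2 pcN0 Cut.none Ext.none :=
  certNX0 (fam := false) (s1 := false) (s2 := false) (a := 1) (b := 0) (c := 2) (cn := .npp) (n1 := ndN7q1) (n2 := ndN0q2) (pc := pcN0) (cut := Cut.none) (xt := Ext.none) (P1 := 536870912) (W1 := 536870912) (P2 := 0) (W2 := 536870912) (P3 := 1046898278) (W3 := 26843546) (N0 := 3)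
    rfl k0_mm_102

noncomputable def f_mm_112 : ℕ → ℕ → ℕ → ℕ → Bool := onCell 536870912 536870912 0 536870912 1046898278 26843546
    (rowNX 3 0 false false false .dn 1 1 2 (qsf 536870912 536870912 0 536870912 1) ndN7q1 ndN0q2 pcN1 Cut.none Ext.none)

def k0_mm_112 : ∃ t, chk3 f_mm_112 t 1 1 1 = true :=
  ⟨(l 5), by decide +kernel⟩

theorem c_mm_112 : CertNX 536870912 536870912 0 536870912 1046898278 26843546 3 false false false .dn 1 1 2
    ndN7q1 ndN0q2 pcN1 Cut.none Ext.none :=
  certNX0 (fam := false) (s1 := false) (s2 := false) (a := 1) (b := 1) (c := 2) (cn := .dn) (n1 := ndN7q1) (n2 := ndN0q2) (pc := pcN1) (cut := Cut.none) (xt := Ext.none) (P1 := 536870912) (W1 := 536870912) (P2 := 0) (W2 := 536870912) (P3 := 1046898278) (W3 := 26843546) (N0 := 3)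
    rfl k0_mm_112

noncomputable def f_mm_202 : ℕ → ℕ → ℕ → ℕ → Bool := onCell 1073741824 536870912 0 536870912 1046898278 26843546
    (rowNX 3 0 false false false .pp 2 0 2 (qsf 1073741824 536870912 0 536870912 0) ndN7q2 ndN0q2 pcN0 Cut.none Ext.none)

def k0_mm_202 : ∃ t, chk3 f_mm_202 t 1 1 1 = true :=
  ⟨(l 5), by decide +kernel⟩

theorem c_mm_202 : CertNX 1073741824 536870912 0 536870912 1046898278 26843546 3 false false false .pp 2 0 2
    ndN7q2 ndN0q2 pcN0 Cut.none Ext.none :=
  certNX0 (fam := false) (s1 := false) (s2 := false) (a := 2) (b := 0) (c := 2) (cn := .pp) (n1 := ndN7q2) (n2 := ndN0q2) (pc := pcN0) (cut := Cut.none) (xt := Ext.none) (P1 := 1073741824) (W1 := 536870912) (P2 := 0) (W2 := 536870912) (P3 := 1046898278) (W3 := 26843546) (N0 := 3)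
    rfl k0_mm_202

end Pool.Agent.Strip051.G.IE1.Tab.C.NB70

namespace Pool.Agent.Strip051.G.IE1.Tab.C.NB71

open Pool.Agent.Strip051.PB Pool.Agent.Strip051.PB.T
open Pool.Agent.Strip051.G.IE1.Tab

noncomputable def f_pp_001 : ℕ → ℕ → ℕ → ℕ → Bool := onCell 0 536870912 0 536870912 1046898278 26843546
    (rowNX 3 1 false true true .up 0 0 1 (qsf 0 536870912 536870912 536870912 0) ndN7q0 ndN1q1 pcN0 Cut.none Ext.none)

def k0_pp_001 : ∃ t, chk3 f_pp_001 t 1 1 1 = true :=
  ⟨(b (l 3) (a (l 3) (b (l 3) (a (l 3) (b (l 3) (a (b (l 3) (a (l 3) (c (l 16180392) (l 16159440)))) (a (b (l 436105234823) (c (l 15876392) (l 15844768))) (b (c (l 15876392) (l 15844768)) (c (l 15582184) (l 15540240)))))))))), by decide +kernel⟩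

theorem c_pp_001 : CertNX 0 536870912 536870912 536870912 1046898278 26843546 3 false true true .up 0 0 1
    ndN7q0 ndN1q1 pcN0 Cut.none Ext.none :=
  certNX1 (fam := false) (s1 := true) (s2 := true) (a := 0) (b := 0) (c := 1) (cn := .up) (n1 := ndN7q0) (n2 := ndN1q1) (pc := pcN0) (cut := Cut.none) (xt := Ext.none) (P1 := 0) (W1 := 536870912) (P2 := 536870912) (W2 := 536870912) (P3 := 1046898278) (W3 := 26843546) (N0 := 3)
    rfl (fun _ => rfl) k0_pp_001

noncomputable def f_pp_011 : ℕ → ℕ → ℕ → ℕ → Bool := onCell 536870912 536870912 536870912 536870912 1046898278 26843546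
    (rowNX 3 2 false true true .pnn 0 1 1 (qsf 0 536870912 536870912 536870912 1) ndN7q0 ndN1q1 pcN1 Cut.none Ext.none)

def k0_pp_011 : ∃ t, chk3 f_pp_011 t 1 1 1 = true :=
  ⟨(a (a (b (l 3) (b (a (a (l 3) (b (l 3) (b (l 3) (l 352354482247)))) (b (c (l 344301878407) (l 343765005479)) (c (b (l 16692392) (l 16607168)) (b (l 16689416) (l 16601200))))) (c (b (a (b (l 16333712) (l 16027032)) (l 16054560)) (a (a (l 15582184) (l 15582184)) (a (l 15582184) (l 15582184)))) (a (b (b (l 16318144) (l 16000704)) (a (l 15540240) (l 15540240))) (b (l 16075552) (a (l 15540240) (l 15540240))))))) (a (b (b (l 3) (c (b (l 3) (l 16777216)) (l 378661765127))) (c (b (b (l 16720728) (l 16649992)) (b (l 16138448) (l 15582184))) (b (b (l 16762160) (l 16645528)) (b (l 16096528) (l 15540240))))) (b (b (l 1) (c (c (l 16777216) (l 16777216)) (l 218003144663))) (b (b (c (l 16762672) (l 16762160)) (c (l 16649992) (l 16645528))) (b (c (l 16180392) (l 16159440)) (l 15561248)))))) (b (a (a (a (b (l 1) (b (l 1) (l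 279206422087))) (l 1)) (l 1)) (l 1)) (a (b (a (a (b (c (l 16762648) (l 16762136)) (c (l 16649976) (l 16645512))) (b (l 253973364791) (b (l 16665784) (l 16587648)))) (a (b (c (l 16689544) (l 16686368)) (b (l 16593920) (l 16510104))) (b (l 1) (a (l 16490552) (l 16316632))))) (a (b (a (l 16169936) (l 16168896)) (a (l 15561296) (l 15588712))) (b (a (l 16139432) (l 15752120)) (a (l 15634088) (l 15536024))))) (a (b (b (l 1) (a (b (l 1) (l 16111624)) (l 1))) (b (a (l 15632256) (b (l 15397792) (l 15087576))) (a (l 15144552) (l 14571840)))) (b (l 1) (b (a (b (l 1) (l 14539800)) (l 1)) (a (b (l 14370808) (l 14118736)) (b (l 823050428071) (l 13634760))))))))), by decide +kernel⟩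

theorem c_pp_011 : CertNX 0 536870912 536870912 536870912 1046898278 26843546 3 false true true .pnn 0 1 1
    ndN7q0 ndN1q1 pcN1 Cut.none Ext.none :=
  certNX2 (fam := false) (s1 := true) (s2 := true) (a := 0) (b := 1) (c := 1) (cn := .pnn) (n1 := ndN7q0) (n2 := ndN1q1) (pc := pcN1) (cut := Cut.none) (xt := Ext.none) (P1 := 0) (W1 := 536870912) (P2 := 536870912) (W2 := 536870912) (P3 := 1046898278) (W3 := 26843546) (N0 := 3)
    rfl (fun _ => rfl) k0_pp_011

noncomputable def f_pp_012_a : ℕ → ℕ → ℕ → ℕ → Bool := onCell 536870912 536870912 0 420477299 1046898278 26843546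
    (rowNX 3 2 false true true .pnp 0 1 2 (qsf 0 536870912 0 420477299 1) ndN7q0 ndN1q2a pcN1 Cut.none Ext.none)

def k0_pp_012_a : ∃ t, chk3 f_pp_012_a t 2 1 1 = true :=
  ⟨(b (a (l 2) (b (a (b (l 16760792) (l 16777040)) (a (b (l 16670232) (l 16777040)) (b (l 16473560) (l 16748752)))) (l 16776040))) (b (a (l 16772600) (l 16772600)) (a (b (l 16707520) (l 16393072)) (b (l 16707520) (l 16393072))))), by decide +kernel⟩

def k1_pp_012_a : ∃ t, chk3 f_pp_012_a t 6 1 1 = true :=
  ⟨(b (a (a (b (b (b (l 15824672) (l 16280864)) (b (l 16677280) (l 16776568))) (l 16776264)) (b (b (a (b (l 15364760) (l 15737608)) (b (l 15130560) (l 15293616))) (b (a (l 16263056) (l 15658904)) (l 16180592))) (a (b (l 16602040) (l 16657704)) (c (b (l 16279552) (l 16440824)) (b (l 16156760) (l 16445848)))))) (a (b (b (a (l 15134488) (l 14701080)) (b (a (l 15139936) (l 14686184)) (l 15051832))) (b (b (l 15247880) (b (l 15411104) (c (a (l 15599448) (b (l 15329736) (l 15581432))) (b (a (l 15742008) (l 15277560))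 (l 15727416))))) (b (b (b (c (b (l 16025192) (a (l 16198216) (l 15924872))) (l 16029464)) (c (l 16176376) (l 16161328))) (l 16223520)) (l 16239392)))) (b (a (a (a (l 14544728) (l 14424072)) (l 14305752)) (l 14007256)) (b (b (a (l 14391360) (l 14046288)) (b (l 14434616) (b (a (b (l 14757192) (a (c (l 14977304) (l 14913256)) (l 14710216))) (l 14315544)) (a (a (c (l 15245688) (l 15191120)) (c (l 14967536) (l 14905312))) (c (b (l 14467272) (l 14685264)) (l 14487800)))))) (b (b (b (a (a (c (a (l 15709752) (l 15547288)) (l 15658296)) (b (l 15390432) (l 15514160))) (c (b (l 15030400) (l 15194392)) (l 15055928))) (b (c (a (a (l 15844536) (l 15732864)) (c (l 15417944) (l 15419480))) (a (a (l 15894304) (l 15711648)) (l 15376464))) (l 15680184))) (l 15693160)) (l 15724280)))))) (a (b (l 16699720) (b (l 16671736) (l 16429416))) (b (a (l 16292520) (l 15828024)) (a (b (l 16307936) (l 16149176)) (b (l 15898472) (l 15759392)))))), by decide +kernel⟩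

def k2_pp_012_a : ∃ t, chk3 f_pp_012_a t 14 1 1 = true :=
  ⟨(b (b (a (a (l 13741792) (c (l 13463608) (l 13476840))) (a (a (c (l 13488128) (l 13404800)) (l 4)) (l 4))) (b (a (b (a (l 13765104) (a (l 13576544) (c (l 13537232) (l 13422040)))) (b (a (l 13830384) (a (l 13567200) (l 13477064))) (a (b (l 13867944) (c (b (l 13977848) (l 14081992)) (b (l 13876552) (l 13986424)))) (b (l 13493800) (b (l 13480248) (a (c (l 13650336) (l 13539248)) (b (l 13411160) (c (l 13492872) (l 13375720))))))))) (c (c (a (c (l 13613008) (l 13575376)) (a (l 13501968) (c (l 13644144) (l 13641984)))) (a (l 13524256) (c (a (l 13560936) (c (l 13606592) (l 13555704))) (l 13524240)))) (l 13442640))) (b (b (a (b (b (a (c (l 14379368) (l 14295208)) (a (l 13867416) (c (l 13657624) (l 13548336)))) (a (c (l 14715024) (l 14646488)) (c (a (l 14328904) (l 14105400)) (l 14045464)))) (a (b (c (c (l 14989008) (l 14935336)) (l 14912704)) (l 15038352)) (a (b (c (l 14523392) (l 14548328)) (l 14699656)) (c (b (b (l 14294696)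 (l 14437576)) (l 14474024)) (b (l 14335792) (l 14417800)))))) (a (b (b (c (a (l 13653360) (l 13707104)) (a (l 13540368) (l 13593440))) (c (a (l 14014000) (l 13909224)) (l 13813896))) (c (b (c (a (l 14214176) (l 14156224)) (l 14163992)) (l 14335736)) (b (l 14114752) (b (l 14256704) (l 14307280))))) (a (c (b (l 13851936) (c (l 14159400) (l 14123384))) (b (l 13764480) (l 13880128))) (c (c (l 14078616) (l 14034088)) (l 13776352))))) (l 14513728)) (l 14461048)))) (b (a (l 15068960) (l 14512968)) (b (a (l 15215800) (l 14679352)) (a (l 15110200) (l 14569400))))), by decide +kernel⟩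

def k3_pp_012_a : ∃ t, chk3 f_pp_012_a t 15 1 1 = true :=
  ⟨(b (b (l 4) (a (b (c (c (a (a (l 13574888) (l 13429104)) (l 13214648)) (c (a (a (a (l 13516112) (l 13532104)) (l 13439856)) (l 13217792)) (a (a (l 13486312) (c (l 13416768) (l 13376424))) (l 13021128)))) (a (l 13352248) (c (c (a (l 13016944) (l 13136712)) (l 13141744)) (l 13091288)))) (b (a (b (c (c (a (l 13952760) (l 13760328)) (b (l 13736416) (l 13847976))) (b (l 13648880) (l 13771568))) (l 13859088)) (c (a (c (l 13561248) (l 13583848)) (a (l 13418192) (l 13237568))) (b (a (a (l 13542392) (l 13458024)) (b (b (l 13113144) (l 13187296)) (l 13326400))) (l 13455864)))) (l 13722576))) (a (c (b (l 12902128) (b (a (l 13135952) (l 12885784)) (l 13134968))) (c (c (b (l 12866752) (l 12861784)) (a (b (l 12901968) (b (b (b (l 12979312) (l 13148976)) (l 13203768)) (l 13281032))) (l 13003440))) (a (l 13143328) (c (c (a (l 13037944) (l 12950992)) (l 12977152)) (l 12952592))))) (b (l 4) (c (a (l 12795768) (l 12721640)) (c (a (l 12794144)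 (l 12635992)) (b (c (a (c (l 12777048) (l 12522664)) (l 12575304)) (a (l 12753608) (c (l 12568344) (a (l 12609096) (l 12514504))))) (l 12758928)))))))) (b (a (l 13808872) (a (l 13357440) (a (l 13103456) (l 12985064)))) (a (b (l 14119080) (l 14003728)) (b (c (l 13463936) (l 13320952)) (c (l 13363176) (l 13225656)))))), by decide +kernel⟩

theorem s4_pp_012_a : ∃ t, chk3 f_pp_012_a t 7 1 1 = true := ex3_a k2_pp_012_a k3_pp_012_a

theorem s5_pp_012_a : ∃ t, chk3 f_pp_012_a t 3 1 1 = true := ex3_a k1_pp_012_a s4_pp_012_a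

theorem s6_pp_012_a : ∃ t, chk3 f_pp_012_a t 1 1 1 = true := ex3_a k0_pp_012_a s5_pp_012_a

theorem c_pp_012_a : CertNX 0 536870912 0 420477299 1046898278 26843546 3 false true true .pnp 0 1 2
    ndN7q0 ndN1q2a pcN1 Cut.none Ext.none :=
  certNX2 (fam := false) (s1 := true) (s2 := true) (a := 0) (b := 1) (c := 2) (cn := .pnp) (n1 := ndN7q0) (n2 := ndN1q2a) (pc := pcN1) (cut := Cut.none) (xt := Ext.none) (P1 := 0) (W1 := 536870912) (P2 := 0) (W2 := 420477299) (P3 := 1046898278) (W3 := 26843546) (N0 := 3)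
    rfl (fun _ => rfl) s6_pp_012_a

noncomputable def f_pp_012_b : ℕ → ℕ → ℕ → ℕ → Bool := onCell 0 536870912 536870912 536870912 1046898278 26843546
    (rowNX 3 1 false true true .pnp 0 1 2 (qsf 0 536870912 1239849684 370763052 1) ndN7q0 ndN1q2b pcN1 Cut.none Ext.none)

def k0_pp_012_b : ∃ t, chk3 f_pp_012_b t 1 1 1 = true :=
  ⟨(b (a (l 1) (b (l 1) (a (l 1) (b (a (l 1) (l 491807678775)) (a (b (l 16402064) (l 16108368)) (l 16414560)))))) (b (a (l 1) (b (a (b (b (l 1) (l 4)) (l 4)) (b (a (l 15665000) (l 15868616)) (b (l 15292088) (l 15139144)))) (l 4))) (l 4))), by decide +kernel⟩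

theorem c_pp_012_b : CertNX 0 536870912 1239849684 370763052 1046898278 26843546 3 false true true .pnp 0 1 2
    ndN7q0 ndN1q2b pcN1 Cut.none Ext.none :=
  certNX1 (fam := false) (s1 := true) (s2 := true) (a := 0) (b := 1) (c := 2) (cn := .pnp) (n1 := ndN7q0) (n2 := ndN1q2b) (pc := pcN1) (cut := Cut.none) (xt := Ext.none) (P1 := 0) (W1 := 536870912) (P2 := 1239849684) (W2 := 370763052) (P3 := 1046898278) (W3 := 26843546) (N0 := 3)
    rfl (fun _ => rfl) k0_pp_012_b

noncomputable def f_pp_022_a : ℕ → ℕ → ℕ → ℕ → Bool := onCell 1073741824 536870912 0 420477299 1046898278 26843546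
    (rowNX 3 2 false true true .pp 0 2 2 (qsf 0 536870912 0 420477299 2) ndN7q0 ndN1q2a pcN2 Cut.none Ext.none)

def k0_pp_022_a : ∃ t, chk3 f_pp_022_a t 1 1 1 = true :=
  ⟨(a (a (b (a (b (l 4) (b (l 4) (c (a (l 12855144) (c (l 13212016) (a (l 13064024) (l 13255208)))) (a (c (l 12656880) (a (l 12608864) (l 12770800))) (l 13047064))))) (l 4)) (a (b (c (a (l 13083096) (c (l 13375392) (a (l 13249904) (l 13401864)))) (a (c (l 12784744) (a (l 12864200) (l 12997392))) (a (l 13153952) (l 13269224)))) (c (a (l 13203736) (c (l 13470480) (a (l 13353696) (b (l 13562848) (l 13409144))))) (a (c (b (l 13184080) (l 13043776)) (a (b (l 13060808) (l 12920320)) (l 13114904))) (b (l 13392736) (l 13241032))))) (b (a (c (c (a (l 13607776) (l 13712992)) (l 13549832)) (l 13457904)) (l 13679792)) (a (c (b (a (l 13700504) (l 13796800)) (a (l 13543680) (l 13626272))) (b (l 13600664) (l 13436648))) (b (l 13874200) (l 1)))))) (b (l 4) (b (b (l 4) (l 1)) (l 1)))) (l 1)), by decide +kernel⟩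

theorem c_pp_022_a : CertNX 0 536870912 0 420477299 1046898278 26843546 3 false true true .pp 0 2 2
    ndN7q0 ndN1q2a pcN2 Cut.none Ext.none :=
  certNX2 (fam := false) (s1 := true) (s2 := true) (a := 0) (b := 2) (c := 2) (cn := .pp) (n1 := ndN7q0) (n2 := ndN1q2a) (pc := pcN2) (cut := Cut.none) (xt := Ext.none) (P1 := 0) (W1 := 536870912) (P2 := 0) (W2 := 420477299) (P3 := 1046898278) (W3 := 26843546) (N0 := 3)
    rfl (fun _ => rfl) k0_pp_022_a

noncomputable def f_pp_022_b : ℕ → ℕ → ℕ → ℕ → Bool := onCell 0 536870912 1073741824 536870912 1046898278 26843546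
    (rowNX 3 1 false true true .pp 0 2 2 (qsf 0 536870912 1239849684 370763052 2) ndN7q0 ndN1q2b pcN2 Cut.none Ext.none)

def k0_pp_022_b : ∃ t, chk3 f_pp_022_b t 1 1 1 = true :=
  ⟨(l 4), by decide +kernel⟩

theorem c_pp_022_b : CertNX 0 536870912 1239849684 370763052 1046898278 26843546 3 false true true .pp 0 2 2
    ndN7q0 ndN1q2b pcN2 Cut.none Ext.none :=
  certNX1 (fam := false) (s1 := true) (s2 := true) (a := 0) (b := 2) (c := 2) (cn := .pp) (n1 := ndN7q0) (n2 := ndN1q2b) (pc := pcN2) (cut := Cut.none) (xt := Ext.none) (P1 := 0) (W1 := 536870912) (P2 := 1239849684) (W2 := 370763052) (P3 := 1046898278) (W3 := 26843546) (N0 := 3)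
    rfl (fun _ => rfl) k0_pp_022_b

noncomputable def f_pp_023 : ℕ → ℕ → ℕ → ℕ → Bool := onCell 0 536870912 1610612736 469762048 1046898278 26843546
    (rowNX 3 0 false true true .up 0 2 3 (qsf 0 536870912 1610612736 469762048 2) ndN7q0 ndN1q3 pcN2 Cut.none Ext.none)

def k0_pp_023 : ∃ t, chk3 f_pp_023 t 1 1 1 = true :=
  ⟨(l 4), by decide +kernel⟩

theorem c_pp_023 : CertNX 0 536870912 1610612736 469762048 1046898278 26843546 3 false true true .up 0 2 3
    ndN7q0 ndN1q3 pcN2 Cut.none Ext.none :=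
  certNX0 (fam := false) (s1 := true) (s2 := true) (a := 0) (b := 2) (c := 3) (cn := .up) (n1 := ndN7q0) (n2 := ndN1q3) (pc := pcN2) (cut := Cut.none) (xt := Ext.none) (P1 := 0) (W1 := 536870912) (P2 := 1610612736) (W2 := 469762048) (P3 := 1046898278) (W3 := 26843546) (N0 := 3)
    rfl k0_pp_023

noncomputable def f_pp_033 : ℕ → ℕ → ℕ → ℕ → Bool := onCell 0 536870912 1610612736 469762048 1046898278 26843546
    (rowNX 3 0 false true true .pnn 0 3 3 (qsf 0 536870912 1610612736 469762048 3) ndN7q0 ndN1q3 pcN3 Cut.none Ext.none)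

def k0_pp_033 : ∃ t, chk3 f_pp_033 t 1 1 1 = true :=
  ⟨(l 4), by decide +kernel⟩

theorem c_pp_033 : CertNX 0 536870912 1610612736 469762048 1046898278 26843546 3 false true true .pnn 0 3 3
    ndN7q0 ndN1q3 pcN3 Cut.none Ext.none :=
  certNX0 (fam := false) (s1 := true) (s2 := true) (a := 0) (b := 3) (c := 3) (cn := .pnn) (n1 := ndN7q0) (n2 := ndN1q3) (pc := pcN3) (cut := Cut.none) (xt := Ext.none) (P1 := 0) (W1 := 536870912) (P2 := 1610612736) (W2 := 469762048) (P3 := 1046898278) (W3 := 26843546) (N0 := 3)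
    rfl k0_pp_033

noncomputable def f_pp_101 : ℕ → ℕ → ℕ → ℕ → Bool := onCell 0 536870912 536870912 536870912 1046898278 26843546
    (rowNX 3 2 false true true .npn 1 0 1 (qsf 536870912 536870912 536870912 536870912 0) ndN7q1 ndN1q1 pcN0 Cut.none Ext.none)

def k0_pp_101 : ∃ t, chk3 f_pp_101 t 1 1 1 = true :=
  ⟨(a (l 3) (b (l 3) (b (l 3) (b (a (l 3) (a (l 3) (a (a (l 3) (l 1)) (l 1)))) (a (a (l 3) (l 3)) (c (a (b (l 280411988119) (a (l 15439536) (l 15439536))) (b (l 15726584) (l 15439536))) (a (b (l 15689704) (l 149951704231)) (b (l 15689704) (l 15392584))))))))), by decide +kernel⟩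

theorem c_pp_101 : CertNX 536870912 536870912 536870912 536870912 1046898278 26843546 3 false true true .npn 1 0 1
    ndN7q1 ndN1q1 pcN0 Cut.none Ext.none :=
  certNX2 (fam := false) (s1 := true) (s2 := true) (a := 1) (b := 0) (c := 1) (cn := .npn) (n1 := ndN7q1) (n2 := ndN1q1) (pc := pcN0) (cut := Cut.none) (xt := Ext.none) (P1 := 536870912) (W1 := 536870912) (P2 := 536870912) (W2 := 536870912) (P3 := 1046898278) (W3 := 26843546) (N0 := 3)
    rfl (fun _ => rfl) k0_pp_101

end Pool.Agent.Strip051.G.IE1.Tab.C.NB71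

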