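import Pool.Agent.Strip051.G.IE1.Tab

/-! # Certificates N85 (generated) -/

set_option linter.all false
set_option maxRecDepth 100000

namespace Pool.Agent.Strip051.G.IE1.Tab.C.NB71

open Pool.Agent.Strip051.PB Pool.Agent.Strip051.PB.T
open Pool.Agent.Strip051.G.IE1.Tab

noncomputable def f_pp_102_a : ℕ → ℕ → ℕ → ℕ → Bool := onCell 536870912 536870912 0 420477299 1046898278 26843546
    (rowNX 3 0 false true true .npp 1 0 2 (qsf 536870912 536870912 0 420477299 0) ndN7q1 ndN1q2a pcN0 Cut.none Ext.none)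

def k0_pp_102_a : ∃ t, chk3 f_pp_102_a t 2 1 1 = true :=
  ⟨(b (a (l 2) (a (l 16592272) (l 16041480))) (a (b (l 16772600) (b (l 16707520) (l 16393072))) (b (a (l 16591392) (l 16040040)) (a (b (l 16608800) (l 16533456)) (b (l 16067864) (l 16190528)))))), by decide +kernel⟩

def k1_pp_102_a : ∃ t, chk3 f_pp_102_a t 6 1 1 = true :=
  ⟨(b (a (l 15392952) (b (l 14504608) (l 14503928))) (b (a (l 15265128) (a (l 14794464) (l 14201592))) (a (b (l 15429080) (l 15573640)) (b (a (l 14840304) (b (l 14212376) (a (l 14445784) (l 14143384)))) (a (b (l 14976496) (l 15097856)) (b (a (l 14553208) (l 14260280)) (a (c (l 14719936) (l 14648824)) (l 14394096)))))))), by decide +kernel⟩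

def k2_pp_102_a : ∃ t, chk3 f_pp_102_a t 7 2 1 = true :=
  ⟨(a (a (c (l 13652512) (l 13565464)) (b (c (a (l 13488112) (l 13318312)) (l 13255000)) (c (b (c (l 13473568) (l 13387456)) (a (a (l 13479864) (c (l 13308368) (l 13386200))) (c (l 13477200) (l 13389952)))) (b (l 13267384) (a (l 13326936) (l 13250616)))))) (b (c (a (c (l 13269472) (l 12945344)) (l 13126656)) (a (l 13107272) (c (l 13042032) (a (l 13007136) (l 12953984))))) (c (a (c (l 13318552) (a (b (l 13300232) (l 13344976)) (l 13225624))) (b (l 13162376) (b (l 13196648) (l 13222456)))) (b (a (l 13146968) (c (l 13078736) (a (l 13045032) (l 12990648)))) (a (a (l 13205920) (c (l 13212832) (l 13129792))) (c (a (c (l 13171848) (l 13134912)) (l 13103080)) (a (l 13090080) (c (l 13061528) (a (l 13042120) (l 13020760)))))))))), by decide +kernel⟩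

def k3_pp_102_a : ∃ t, chk3 f_pp_102_a t 14 3 1 = true :=
  ⟨(b (a (b (a (l 13726784) (c (b (l 13564752) (l 13567944)) (l 13454104))) (a (b (l 13725448) (l 13727432)) (a (b (l 13544360) (l 13561160)) (c (l 13568144) (l 13455304))))) (b (c (a (b (c (l 13556312) (l 13432312)) (l 13406720)) (c (l 13514328) (l 13435240))) (l 13327720)) (c (c (a (c (l 13635336) (l 13536968)) (a (l 13582176) (l 13554704))) (a (l 13487024) (l 13466864))) (l 13362704)))) (a (b (a (b (c (l 13802792) (l 13698176)) (l 13849064)) (c (l 13677664) (l 13568976))) (c (a (l 14084528) (l 13903032)) (b (l 13827728) (l 13958400)))) (b (c (a (c (c (b (l 13672176) (l 13761736)) (l 13620296)) (l 13571824)) (c (b (c (l 13623688) (l 13579960)) (a (l 13704424) (l 13666512))) (b (l 13512480) (l 13594968)))) (b (l 13416752) (l 13495912))) (c (a (c (b (c (l 13868976) (l 13771896)) (a (l 13938016) (c (l 14000888) (l 13886128)))) (b (l 13725584) (l 13855936))) (a (c (b (c (l 13858616) (l 13785368)) (c (l 14014912) (l 13943120))) (b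 (l 13672760) (l 13832712))) (c (b (l 13795976) (l 13975056)) (b (l 13542392) (l 13892552))))) (b (l 13619432) (a (l 13780040) (l 13762512))))))), by decide +kernel⟩

def k4_pp_102_a : ∃ t, chk3 f_pp_102_a t 15 6 1 = true :=
  ⟨(c (a (a (c (b (l 13422664) (l 13457144)) (b (l 13382136) (c (l 13442264) (l 13386256)))) (b (l 13313664) (c (b (l 13329976) (l 13371920)) (b (l 13316280) (l 13341168))))) (b (a (l 13258296) (l 13249104)) (a (l 13314952) (l 13324952)))) (a (b (a (l 13244224) (l 12970104)) (a (l 13272320) (c (b (l 13266456) (a (l 13297888) (l 13291304))) (l 13202472)))) (c (c (b (l 13200064) (l 13269072)) (a (b (l 13174112) (l 13237752)) (l 13194664))) (b (a (l 13130000) (c (l 13120232) (l 13082648))) (a (l 13194464) (c (l 13202272) (l 12913736))))))), by decide +kernel⟩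

def k5_pp_102_a : ∃ t, chk3 f_pp_102_a t 30 7 1 = true :=
  ⟨(b (c (a (c (b (l 13451120) (l 13612752)) (b (a (l 13471032) (c (l 13479216) (l 13434280))) (a (l 13446160) (c (l 13616128) (l 13579056))))) (b (c (l 13433688) (l 13409216)) (c (l 13596480) (l 13580176)))) (a (b (l 13318288) (l 13446216)) (a (b (l 13327392) (l 13500560)) (c (b (l 13372912) (c (l 13577880) (l 13517072))) (l 13368112))))) (c (a (c (b (l 13768232) (l 13951920)) (c (a (b (l 13763488) (l 13949528)) (l 13877504)) (b (l 13710944) (l 13877880)))) (b (c (l 13767600) (l 13750288)) (a (c (l 13939160) (l 13929656)) (b (l 13914400) (a (b (l 13982200) (l 14045744)) (b (l 14010272) (l 14125512))))))) (a (l 13707176) (b (c (c (l 13625832) (l 13679328)) (l 13634240)) (a (c (l 13890120) (l 13812176)) (b (c (c (l 13898208) (l 13839608)) (l 13794536)) (c (c (a (l 14004168) (l 14073136)) (a (l 13933680) (l 14016352))) (l 13839104)))))))), by decide +kernel⟩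

def k6_pp_102_a : ∃ t, chk3 f_pp_102_a t 31 14 1 = true :=
  ⟨(a (c (b (l 13423536) (l 13603240)) (c (a (c (l 13467280) (b (l 13360000) (l 13546872))) (l 13451768)) (a (l 13380232) (l 13377424)))) (c (b (a (l 13428336) (b (l 13398576) (a (l 13473544) (b (l 13465480) (l 13549640))))) (a (b (b (l 13540864) (a (l 13589264) (l 13606344))) (a (l 13687792) (l 13748904))) (b (c (l 13694640) (l 13640472)) (l 13886816)))) (b (c (a (l 13347568) (l 13373008)) (a (c (l 13315176) (l 13288040)) (c (l 13330992) (a (l 13274744) (l 13306312))))) (a (c (b (l 13489040) (a (l 13612496) (l 13670744))) (c (a (c (l 13536112) (l 13527296)) (l 13559520)) (l 13523728))) (c (b (l 13586568) (l 13814272)) (c (l 13664336) (a (l 13583032) (l 13678720)))))))), by decide +kernel⟩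

def k7_pp_102_a : ∃ t, chk3 f_pp_102_a t 31 15 1 = true :=
  ⟨(a (c (b (a (b (l 13754848) (a (l 13831968) (l 13861648))) (b (a (l 13773312) (l 13813600)) (a (b (l 13881696) (l 13980624)) (l 14040392)))) (a (b (a (b (l 13905480) (l 13988208)) (l 14042896)) (l 14250536)) (b (l 14233080) (l 14511224)))) (b (a (c (c (b (l 13728248) (l 13825968)) (b (l 13712928) (a (l 13793904) (l 13828176)))) (b (l 13647248) (l 13746664))) (c (b (a (l 13717432) (l 13757512)) (a (l 13654184) (l 13989240))) (b (a (l 13679640) (b (l 13654872) (l 13755864))) (a (b (l 13793224) (l 13896440)) (l 13948096))))) (b (c (a (c (a (l 13940424) (l 14012384)) (a (b (l 13869728) (l 13955088)) (l 14015192))) (l 14189696)) (a (a (l 13854280) (l 13950856)) (l 14150296))) (c (a (c (l 14235424) (l 14223080)) (l 14475392)) (a (l 14165352) (l 14441120)))))) (a (c (b (b (l 13938536) (l 14195000)) (b (l 14469048) (l 14754888))) (b (b (c (l 13870120) (c (l 13841592) (l 13817648))) (c (l 14132944) (c (l 14047152) (l 14090760)))) (c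 (l 14313072) (c (a (c (l 14506040) (l 14501504)) (l 14603408)) (b (l 14378032) (l 14677984)))))) (b (c (l 14258640) (c (l 14197792) (c (l 14171536) (c (l 14159136) (l 14139208))))) (c (b (l 14673056) (a (l 14924336) (l 15019776))) (c (b (l 14615752) (l 14924064)) (a (c (l 14702920) (c (l 14570448) (l 14689104))) (c (l 14798968) (c (l 14791112) (l 14637512))))))))), by decide +kernel⟩

theorem s8_pp_102_a : ∃ t, chk3 f_pp_102_a t 31 7 1 = true := ex3_b k6_pp_102_a k7_pp_102_a

theorem s9_pp_102_a : ∃ t, chk3 f_pp_102_a t 15 7 1 = true := ex3_a k5_pp_102_a s8_pp_102_a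

theorem s10_pp_102_a : ∃ t, chk3 f_pp_102_a t 15 3 1 = true := ex3_b k4_pp_102_a s9_pp_102_a

theorem s11_pp_102_a : ∃ t, chk3 f_pp_102_a t 7 3 1 = true := ex3_a k3_pp_102_a s10_pp_102_a

theorem s12_pp_102_a : ∃ t, chk3 f_pp_102_a t 7 1 1 = true := ex3_b k2_pp_102_a s11_pp_102_a

theorem s13_pp_102_a : ∃ t, chk3 f_pp_102_a t 3 1 1 = true := ex3_a k1_pp_102_a s12_pp_102_a

theorem s14_pp_102_a : ∃ t, chk3 f_pp_102_a t 1 1 1 = true := ex3_a k0_pp_102_a s13_pp_102_a

theorem c_pp_102_a : CertNX 536870912 536870912 0 420477299 1046898278 26843546 3 false true true .npp 1 0 2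
    ndN7q1 ndN1q2a pcN0 Cut.none Ext.none :=
  certNX0 (fam := false) (s1 := true) (s2 := true) (a := 1) (b := 0) (c := 2) (cn := .npp) (n1 := ndN7q1) (n2 := ndN1q2a) (pc := pcN0) (cut := Cut.none) (xt := Ext.none) (P1 := 536870912) (W1 := 536870912) (P2 := 0) (W2 := 420477299) (P3 := 1046898278) (W3 := 26843546) (N0 := 3)
    rfl s14_pp_102_a

noncomputable def f_pp_102_b : ℕ → ℕ → ℕ → ℕ → Bool := onCell 536870912 536870912 1239849684 370763052 1046898278 26843546
    (rowNX 3 0 false true true .npp 1 0 2 (qsf 536870912 536870912 1239849684 370763052 0) ndN7q1 ndN1q2b pcN0 Cut.none Ext.none)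

def k0_pp_102_b : ∃ t, chk3 f_pp_102_b t 1 1 1 = true :=
  ⟨(a (a (l 2) (b (a (l 16592392) (l 16041696)) (l 2))) (b (a (a (l 15393264) (b (l 14504672) (l 14504672))) (a (a (b (l 13598760) (l 13598760)) (c (b (c (l 13456648) (l 13370216)) (l 13409360)) (l 13249560))) (b (c (a (c (l 13111256) (a (l 13172208) (l 13039976))) (b (l 12980112) (l 12821712))) (a (b (a (l 13057800) (l 12965312)) (l 12977160)) (a (c (b (l 12918008) (l 12786872)) (b (l 12855808) (l 12722064))) (c (l 12761808) (b (l 12795400) (c (l 12607520) (l 12565080))))))) (c (a (c (l 13145464) (l 13070576)) (l 12802264)) (a (l 12977160) (c (l 12708024) (a (l 12719832) (l 12559560)))))))) (a (a (l 2) (l 14483704)) (a (a (l 13598760) (b (l 13259736) (l 13322648))) (c (a (c (l 13145464) (l 13007664)) (l 12802264)) (a (l 12977160) (c (l 12708024) (a (l 12719832) (l 12559560))))))))), by decide +kernel⟩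

theorem c_pp_102_b : CertNX 536870912 536870912 1239849684 370763052 1046898278 26843546 3 false true true .npp 1 0 2
    ndN7q1 ndN1q2b pcN0 Cut.none Ext.none :=
  certNX0 (fam := false) (s1 := true) (s2 := true) (a := 1) (b := 0) (c := 2) (cn := .npp) (n1 := ndN7q1) (n2 := ndN1q2b) (pc := pcN0) (cut := Cut.none) (xt := Ext.none) (P1 := 536870912) (W1 := 536870912) (P2 := 1239849684) (W2 := 370763052) (P3 := 1046898278) (W3 := 26843546) (N0 := 3)
    rfl k0_pp_102_b

noncomputable def f_pp_112_a : ℕ → ℕ → ℕ → ℕ → Bool := onCell 536870912 536870912 0 420477299 1046898278 26843546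
    (rowNX 3 0 false true true .dn 1 1 2 (qsf 536870912 536870912 0 420477299 1) ndN7q1 ndN1q2a pcN1 Cut.none Ext.none)

def k0_pp_112_a : ∃ t, chk3 f_pp_112_a t 1 1 1 = true :=
  ⟨(a (a (b (b (a (l 16768720) (l 16777120)) (l 16776040)) (b (l 16772600) (b (l 16707520) (l 16393072)))) (a (b (l 16592272) (b (l 16591392) (l 1))) (l 1))) (l 1)), by decide +kernel⟩

theorem c_pp_112_a : CertNX 536870912 536870912 0 420477299 1046898278 26843546 3 false true true .dn 1 1 2
    ndN7q1 ndN1q2a pcN1 Cut.none Ext.none :=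
  certNX0 (fam := false) (s1 := true) (s2 := true) (a := 1) (b := 1) (c := 2) (cn := .dn) (n1 := ndN7q1) (n2 := ndN1q2a) (pc := pcN1) (cut := Cut.none) (xt := Ext.none) (P1 := 536870912) (W1 := 536870912) (P2 := 0) (W2 := 420477299) (P3 := 1046898278) (W3 := 26843546) (N0 := 3)
    rfl k0_pp_112_a

noncomputable def f_pp_112_b : ℕ → ℕ → ℕ → ℕ → Bool := onCell 536870912 536870912 536870912 536870912 1046898278 26843546
    (rowNX 3 1 false true true .dn 1 1 2 (qsf 536870912 536870912 1239849684 370763052 1) ndN7q1 ndN1q2b pcN1 Cut.none Ext.none)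

def k0_pp_112_b : ∃ t, chk3 f_pp_112_b t 1 1 1 = true :=
  ⟨(b (b (a (a (a (b (l 1) (l 16721456)) (l 383896556279)) (l 16326632)) (a (a (l 15393264) (l 14504672)) (a (c (a (l 13652976) (l 13409360)) (l 13409280)) (c (a (l 13098104) (l 12802264)) (a (l 12977160) (c (l 12708024) (l 12624584))))))) (a (a (b (l 16762768) (l 16644312)) (a (l 16566096) (l 16041696))) (a (l 14771544) (a (a (l 13598760) (l 2)) (l 2))))) (b (a (b (a (b (l 16313816) (l 581663605991)) (b (l 16263088) (a (l 15883208) (l 15474824)))) (a (b (l 738965016039) (l 14145624)) (b (a (l 14769936) (l 14349968)) (a (l 13966176) (l 2))))) (b (a (b (l 14959720) (l 2)) (l 2)) (l 2))) (a (a (l 4) (b (b (b (l 13307472) (l 2)) (l 2)) (l 2))) (l 2)))), by decide +kernel⟩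

theorem c_pp_112_b : CertNX 536870912 536870912 1239849684 370763052 1046898278 26843546 3 false true true .dn 1 1 2
    ndN7q1 ndN1q2b pcN1 Cut.none Ext.none :=
  certNX1 (fam := false) (s1 := true) (s2 := true) (a := 1) (b := 1) (c := 2) (cn := .dn) (n1 := ndN7q1) (n2 := ndN1q2b) (pc := pcN1) (cut := Cut.none) (xt := Ext.none) (P1 := 536870912) (W1 := 536870912) (P2 := 1239849684) (W2 := 370763052) (P3 := 1046898278) (W3 := 26843546) (N0 := 3)
    rfl (fun _ => rfl) k0_pp_112_b

noncomputable def f_pp_113 : ℕ → ℕ → ℕ → ℕ → Bool := onCell 536870912 536870912 536870912 536870912 1046898278 26843546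
    (rowNX 3 1 false true true .nn 1 1 3 (qsf 536870912 536870912 1610612736 469762048 1) ndN7q1 ndN1q3 pcN1 Cut.none Ext.none)

def k0_pp_113 : ∃ t, chk3 f_pp_113 t 1 2 1 = true :=
  ⟨(a (a (l 1) (a (l 1) (l 16041696))) (a (a (l 15393264) (l 527235741623)) (a (a (l 518643995207) (b (l 519717184807) (l 13238760))) (c (a (b (l 13098104) (l 13098104)) (l 12802264)) (a (l 527232686599) (b (c (l 12708024) (l 12624584)) (l 12602192))))))), by decide +kernel⟩

def k1_pp_113 : ∃ t, chk3 f_pp_113 t 1 6 1 = true :=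
  ⟨(a (b (a (l 1) (b (l 16263088) (a (l 15883208) (l 15474824)))) (a (b (l 1) (l 14145624)) (b (a (l 14769936) (l 14349968)) (a (l 13966176) (b (l 13543880) (l 13289376)))))) (b (a (b (l 14959720) (a (l 14908744) (l 14128464))) (a (b (l 13466032) (c (a (l 13403712) (l 13232192)) (l 13188968))) (c (l 12875008) (a (l 12888776) (l 12578968))))) (a (b (a (l 13893528) (a (l 13458792) (l 12881664))) (a (l 12908072) (a (l 12507912) (b (b (l 12614000) (l 12402432)) (l 12086952))))) (a (b (c (a (l 12922456) (l 12894768)) (l 12758264)) (a (b (b (a (l 12317616) (l 12444200)) (l 12354720)) (a (l 11698560) (l 11979928))) (a (b (c (l 12678336) (l 12380880)) (c (l 12228984) (l 11900344))) (l 12286240)))) (c (a (l 12442800) (l 12177696)) (a (l 12201792) (l 11910760))))))), by decide +kernel⟩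

def k2_pp_113 : ∃ t, chk3 f_pp_113 t 1 7 1 = true :=
  ⟨(a (a (l 4) (b (b (b (l 13307472) (c (l 13172632) (l 13027160))) (a (l 4) (b (b (l 12764952) (l 4)) (l 4)))) (l 4))) (a (b (b (b (l 12070408) (b (l 11861896) (c (l 11928352) (l 11632848)))) (c (c (b (l 12047648) (b (l 12088480) (l 12111768))) (a (l 12203592) (l 11529392))) (l 11659392))) (a (l 4) (b (c (c (l 11551920) (b (b (l 11537200) (l 11309952)) (l 11155976))) (b (l 11149120) (l 10821856))) (l 4)))) (a (b (b (c (a (b (l 11700376) (b (l 11057512) (l 10954680))) (b (a (l 11876584) (l 11968832)) (a (b (l 11608840) (l 11289240)) (l 11583560)))) (a (b (l 10999280) (l 10599952)) (b (l 11419560) (b (l 11096736) (l 10928200))))) (c (a (b (l 11064808) (l 11108360)) (b (a (c (l 11375376) (l 11062512)) (a (l 11347776) (l 11440592))) (c (l 11502568) (l 11172376)))) (b (a (l 10608848) (b (l 10862144) (l 10761536))) (l 10805272)))) (b (c (c (a (l 11101864) (b (l 11365600) (l 11094008))) (b (a (l 10823192) (l 11010872)) (l 10791216))) (b (l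 10518064) (b (l 10225440) (l 9980384)))) (b (c (a (l 10567296) (l 10761496)) (c (c (l 10157512) (l 9947624)) (l 9622552))) (l 4)))) (b (b (c (l 11554112) (l 11009344)) (a (a (b (l 11034952) (c (l 11269064) (l 10555800))) (l 10907264)) (l 10864720))) (a (b (c (c (l 11434680) (b (l 11009992) (l 10918632))) (a (l 10246168) (l 10184144))) (c (b (c (l 11525656) (l 10866936)) (l 11532568)) (c (b (c (l 10391800) (l 10040544)) (l 10150024)) (b (l 9493208) (b (l 9208176) (l 4)))))) (b (c (l 11592400) (l 10161400)) (b (b (b (l 11144832) (l 2)) (l 2)) (l 2)))))))), by decide +kernel⟩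

theorem s3_pp_113 : ∃ t, chk3 f_pp_113 t 1 3 1 = true := ex3_b k1_pp_113 k2_pp_113

theorem s4_pp_113 : ∃ t, chk3 f_pp_113 t 1 1 1 = true := ex3_b k0_pp_113 s3_pp_113

theorem c_pp_113 : CertNX 536870912 536870912 1610612736 469762048 1046898278 26843546 3 false true true .nn 1 1 3
    ndN7q1 ndN1q3 pcN1 Cut.none Ext.none :=
  certNX1 (fam := false) (s1 := true) (s2 := true) (a := 1) (b := 1) (c := 3) (cn := .nn) (n1 := ndN7q1) (n2 := ndN1q3) (pc := pcN1) (cut := Cut.none) (xt := Ext.none) (P1 := 536870912) (W1 := 536870912) (P2 := 1610612736) (W2 := 469762048) (P3 := 1046898278) (W3 := 26843546) (N0 := 3)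
    rfl (fun _ => rfl) s4_pp_113

noncomputable def f_pp_123 : ℕ → ℕ → ℕ → ℕ → Bool := onCell 1073741824 536870912 1610612736 469762048 1046898278 26843546
    (rowNX 3 2 false true true .npn 1 2 3 (qsf 536870912 536870912 1610612736 469762048 2) ndN7q1 ndN1q3 pcN2 Cut.none Ext.none)

def k0_pp_123 : ∃ t, chk3 f_pp_123 t 1 1 1 = true :=
  ⟨(a (a (l 4) (l 4)) (l 4)), by decide +kernel⟩

theorem c_pp_123 : CertNX 536870912 536870912 1610612736 469762048 1046898278 26843546 3 false true true .npn 1 2 3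
    ndN7q1 ndN1q3 pcN2 Cut.none Ext.none :=
  certNX2 (fam := false) (s1 := true) (s2 := true) (a := 1) (b := 2) (c := 3) (cn := .npn) (n1 := ndN7q1) (n2 := ndN1q3) (pc := pcN2) (cut := Cut.none) (xt := Ext.none) (P1 := 536870912) (W1 := 536870912) (P2 := 1610612736) (W2 := 469762048) (P3 := 1046898278) (W3 := 26843546) (N0 := 3)
    rfl (fun _ => rfl) k0_pp_123

noncomputable def f_pp_133 : ℕ → ℕ → ℕ → ℕ → Bool := onCell 536870912 536870912 1610612736 469762048 1046898278 26843546
    (rowNX 3 0 false true true .dn 1 3 3 (qsf 536870912 536870912 1610612736 469762048 3) ndN7q1 ndN1q3 pcN3 Cut.none Ext.none)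

def k0_pp_133 : ∃ t, chk3 f_pp_133 t 1 1 1 = true :=
  ⟨(l 1), by decide +kernel⟩

theorem c_pp_133 : CertNX 536870912 536870912 1610612736 469762048 1046898278 26843546 3 false true true .dn 1 3 3
    ndN7q1 ndN1q3 pcN3 Cut.none Ext.none :=
  certNX0 (fam := false) (s1 := true) (s2 := true) (a := 1) (b := 3) (c := 3) (cn := .dn) (n1 := ndN7q1) (n2 := ndN1q3) (pc := pcN3) (cut := Cut.none) (xt := Ext.none) (P1 := 536870912) (W1 := 536870912) (P2 := 1610612736) (W2 := 469762048) (P3 := 1046898278) (W3 := 26843546) (N0 := 3)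
    rfl k0_pp_133

noncomputable def f_pp_202_a : ℕ → ℕ → ℕ → ℕ → Bool := onCell 0 536870912 0 420477299 1046898278 26843546
    (rowNX 3 2 false true true .pp 2 0 2 (qsf 1073741824 536870912 0 420477299 0) ndN7q2 ndN1q2a pcN0 Cut.none Ext.none)

def k0_pp_202_a : ∃ t, chk3 f_pp_202_a t 8 2 1 = true :=
  ⟨(a (a (c (a (b (l 15834976) (l 15836192)) (a (b (l 15694504) (l 15585512)) (c (l 15602512) (a (l 15621328) (l 15501784))))) (a (a (c (l 15832216) (b (c (l 15830040) (l 15777928)) (c (l 15829600) (l 15672168)))) (c (b (l 15755360) (l 15753152)) (b (l 15738680) (l 15736512)))) (c (b (l 15631048) (l 15627488)) (l 15581992)))) (c (b (a (c (l 15519232) (l 15489840)) (l 15324136)) (a (c (l 15516528) (l 15485520)) (l 15322800))) (b (l 15333848) (l 15137784)))) (c (b (a (l 15026896) (c (l 14601216) (l 14701648))) (a (b (l 15072808) (c (l 15114856) (l 15051000))) (c (b (c (l 14903904) (l 14824368)) (c (a (l 15014712) (l 14912952)) (l 14905472))) (l 14811888)))) (b (a (l 14944920) (l 14649728))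 (a (l 15001144) (l 14763344))))), by decide +kernel⟩

def k1_pp_202_a : ∃ t, chk3 f_pp_202_a t 16 6 1 = true :=
  ⟨(a (a (c (b (l 15710952) (b (l 15600336) (b (l 15549152) (a (l 15571008) (c (l 15516344) (l 15479344)))))) (b (c (l 15440512) (c (l 15441944) (l 15533720))) (b (c (l 15556304) (a (l 15573760) (l 15483360))) (a (c (l 15528488) (a (c (l 15518480) (a (l 15509664) (l 15385216))) (c (l 15419424) (l 15471304)))) (c (b (l 15460536) (a (l 15466656) (l 15446792))) (c (l 15447912) (l 15427728))))))) (c (b (a (l 15558728) (l 15474160)) (b (a (l 15462120) (l 15408760)) (c (a (a (l 15464184) (l 15310344)) (l 15423328)) (a (l 15357000) (l 15402272))))) (b (c (l 15493504) (l 15454936)) (c (b (l 15413448) (a (c (l 15440672) (l 15424080)) (l 15385432))) (b (l 15372064) (l 15362208)))))) (c (a (b (l 15246984) (b (l 15206832) (a (c (l 15425880) (l 15390136)) (c (c (c (l 15477936) (l 15419824)) (l 15387792)) (l 15337664))))) (b (l 15276296) (c (c (b (a (l 15389136) (l 15382640)) (b (l 15257368)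 (l 15441008))) (l 15319184)) (l 15248672)))) (b (l 15247992) (c (a (l 15303440) (l 15191768)) (l 15213280))))), by decide +kernel⟩

def k2_pp_202_a : ∃ t, chk3 f_pp_202_a t 32 7 2 = true :=
  ⟨(a (b (c (b (l 15575768) (c (b (l 15697752) (l 15664968)) (l 15681640))) (a (l 15623368) (b (l 15498504) (l 15613984)))) (c (b (c (b (l 15797360) (l 15988984)) (b (l 15815064) (c (l 15954096) (l 15916168)))) (c (l 16018216) (b (c (l 16060224) (l 15923408)) (l 16091808)))) (c (b (l 15811632) (b (c (l 15888040) (l 15939288)) (c (a (l 16123712) (l 16082712)) (a (l 16085912) (l 16043904))))) (a (l 15919792) (b (l 15755616) (c (l 15856688) (l 15931000))))))) (b (b (c (a (c (l 15355424) (l 15461680)) (c (c (l 15325760) (l 15460664)) (l 15442848))) (a (l 15459368) (l 15444280))) (c (a (c (b (l 15490224) (l 15723984)) (a (l 15596352) (l 15498056))) (c (c (l 15663640) (l 15643680)) (l 15407008))) (a (l 15574296) (l 15559784)))) (c (c (a (b (l 15701024) (l 15935784)) (b (l 15761624) (l 15875104))) (b (a (a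 (c (l 15826400) (l 15536216)) (c (l 15780896) (l 15588048))) (b (l 15747800) (l 15835296))) (a (b (a (l 15955872) (l 15926136)) (l 16001880)) (l 15926152)))) (b (c (c (a (a (l 15733632) (l 15734544)) (l 15722800)) (l 15600936)) (a (l 15725664) (l 15711808))) (b (c (a (c (a (l 15920880) (l 15922552)) (l 15875568)) (l 15891768)) (a (l 15856848) (l 15748840))) (c (a (c (l 15967728) (a (l 15991584) (l 16018624))) (l 16007408)) (a (c (l 15990928) (l 15957336)) (c (a (l 16001536) (l 16004144)) (l 15955584))))))))), by decide +kernel⟩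

def k3_pp_202_a : ∃ t, chk3 f_pp_202_a t 33 7 2 = true :=
  ⟨(b (b (c (a (c (c (l 15530488) (a (l 15501168) (l 15493456))) (a (l 15447616) (a (l 15444744) (l 15418272)))) (c (c (l 15477408) (l 15453592)) (b (l 15373448) (l 15421872)))) (a (l 15153816) (l 15275608))) (c (a (c (c (l 15636488) (l 15619760)) (a (c (l 15632872) (l 15586768)) (c (l 15627592) (l 15591416)))) (c (l 15531624) (l 15511384))) (c (a (a (l 15549024) (l 15513808)) (b (l 15418928) (l 15495504))) (l 15427984)))) (c (a (b (c (l 15728504) (a (l 15777040) (c (l 15743456) (l 15751464)))) (a (c (l 15860888) (l 15904584)) (b (l 15810096) (c (l 15883144) (l 15827040))))) (b (l 15626136) (c (a (l 15798272) (l 15725616)) (l 15752352)))) (c (b (a (a (c (b (l 15717528) (l 15824640)) (b (l 15658248) (l 15785576))) (b (l 15664872) (l 15755136))) (b (l 15572704) (l 15624808))) (a (a (b (c (l 15913536) (l 15896368)) (l 15964208)) (l 15854008)) (l 15745592))) (b (a (b (l 15596096) (l 15571552)) (b (l 15510400) (c (l 15615352) (l 15577152))))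 (a (b (c (l 15827928) (l 15789968)) (c (l 15928112) (l 15710600))) (b (c (l 15679160) (l 15674912)) (l 15753000))))))), by decide +kernel⟩

def k4_pp_202_a : ∃ t, chk3 f_pp_202_a t 16 7 3 = true :=
  ⟨(a (a (c (b (a (b (l 15527136) (l 15646888)) (c (a (l 15543920) (l 15527728)) (a (l 15538792) (l 15530792)))) (a (b (l 15800808) (l 15983736)) (c (a (b (l 15755304) (l 15936056)) (l 15830056)) (a (l 15781432) (l 15773992))))) (b (a (c (a (l 15573360) (b (l 15490808) (l 15610016))) (a (c (b (l 15503064) (l 15624128)) (b (l 15495600) (l 15617048))) (c (l 15542472) (l 15532616)))) (c (b (l 15463856) (l 15582800)) (l 15501984))) (a (c (a (l 15884544) (b (l 15765064) (l 15844552))) (a (c (b (l 15780480) (l 15966336)) (b (l 15711008) (a (l 15966232) (l 15955312)))) (c (l 15853160) (l 15844104)))) (c (b (l 15737536) (l 15921528)) (l 15811656))))) (c (b (a (c (l 15287056) (l 15501328)) (l 15463264)) (a (c (b (l 15729712) (l 15910824)) (l 15575896)) (l 15660904))) (b (l 15355168) (b (l 15652632) (l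 15835488))))) (b (c (b (l 15267304) (l 15380832)) (l 15286288)) (c (c (b (l 15332160) (a (b (l 15729352) (c (l 15863960) (l 15816832))) (b (c (l 15642192) (l 15602072)) (c (a (l 15779648) (l 15715824)) (l 15552136))))) (a (l 15659472) (l 15361576))) (l 15585688)))), by decide +kernel⟩

def k5_pp_202_a : ∃ t, chk3 f_pp_202_a t 17 6 1 = true :=
  ⟨(c (a (b (c (c (b (l 15201608) (l 15225872)) (l 15125560)) (l 15068904)) (c (b (c (a (l 15309520) (l 15190472)) (a (l 15202672) (l 15124960))) (c (l 15202584) (a (l 15252768) (l 15135056)))) (c (a (l 15146600) (b (l 15029088) (l 15012680))) (a (l 15109760) (l 14998320))))) (c (b (b (c (l 14986960) (l 14934312)) (a (c (l 15066808) (l 14985400)) (c (l 14910264) (l 14903136)))) (a (c (l 15006872) (b (l 15011272) (l 14978592))) (c (l 14845432) (l 14847160)))) (b (c (b (l 14863016) (l 14902888)) (l 14846736)) (a (b (l 14946184) (c (l 14969776) (l 14933544))) (b (l 14671656) (c (l 14826608) (l 14823944))))))) (a (b (l 15013896) (l 15013888)) (b (l 14808792)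 (a (l 14851432) (l 14744112))))), by decide +kernel⟩

def k6_pp_202_a : ∃ t, chk3 f_pp_202_a t 17 7 2 = true :=
  ⟨(b (a (c (b (c (l 15217864) (a (l 15276872) (l 15116560))) (l 15279664)) (b (c (a (l 15067392) (b (l 15083824) (l 15117704))) (a (l 15128968) (l 15054528))) (c (a (b (l 15303984) (l 15364864)) (l 15171584)) (a (c (l 15243736) (l 15259592)) (b (l 15137352) (l 15201768)))))) (c (a (b (l 14962776) (l 15039120)) (b (l 14814832) (a (l 14952064) (l 14678248)))) (b (c (l 14878976) (a (l 14800512) (l 14804624))) (a (c (l 15027272) (l 15024016)) (l 14896456))))) (a (c (b (a (l 15477904) (l 15321368)) (a (l 15605104) (l 15457328))) (b (c (a (l 15440176) (l 15285368)) (a (b (c (l 15406312) (l 15379104)) (c (l 15463536) (l 15461960))) (l 15275664))) (a (c (l 15396872) (a (l 15599416) (l 15518904))) (c (b (l 15380376) (l 15463416)) (l 15433584))))) (c (a (b (c (l 15176272) (l 15151096)) (l 15325040)) (b (c (l 15040096) (l 15022488)) (l 15203720))) (b (a (l 15162760) (l 15022712)) (a (l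 15292560) (l 15160272)))))), by decide +kernel⟩

def k7_pp_202_a : ∃ t, chk3 f_pp_202_a t 17 7 3 = true :=
  ⟨(b (c (a (b (l 15045736) (c (l 15159888) (l 15149152))) (b (c (a (l 14919880) (l 14799072)) (l 14813640)) (c (a (b (l 14992920) (l 15057704)) (b (l 14852624) (l 14913104))) (a (l 15003440) (b (l 14845400) (l 14799880)))))) (a (l 15073216) (l 14840592))) (a (c (b (c (a (b (l 15356048) (l 15433792)) (b (l 15244368) (c (l 15312096) (l 15317776)))) (l 15050072)) (c (a (b (c (l 15506776) (l 15515688)) (c (l 15603200) (l 15529320))) (b (l 15381640) (l 15479728))) (a (b (l 15500528) (c (l 15534160) (l 15582128))) (b (c (a (l 15421056) (l 15345896)) (l 15372344)) (c (l 15463632) (a (l 15501072) (l 15428720))))))) (b (l 15275320) (a (l 15508440) (c (b (l 15349768) (l 15451160)) (l 15384448))))) (c (b (c (a (b (l 15106400) (l 15176584)) (l 15021248)) (a (b (l 15098968) (c (l 15168000) (l 15168344))) (b (c (l 14968680) (l 14952640)) (l 15032568)))) (a (c (l 15298792) (b (c (l 15253432) (l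 15240736)) (l 15338480))) (l 15158872))) (b (c (a (l 15107744) (b (l 14950984) (c (l 15018424) (l 15014640)))) (l 15026864)) (c (a (b (c (l 15182504) (l 15227184)) (c (a (l 15356064) (l 15298704)) (a (l 15351840) (l 15281912)))) (b (c (l 15102728) (a (l 15123632) (l 15061136))) (a (l 15160880) (l 15156024)))) (a (l 15253376) (b (l 15078752) (c (a (l 15205872) (l 15146888)) (l 15101408))))))))), by decide +kernel⟩

def k8_pp_202_a : ∃ t, chk3 f_pp_202_a t 9 2 1 = true :=
  ⟨(a (c (b (a (c (b (l 14529160) (l 14588936)) (l 14454456)) (c (c (l 14258048) (l 14253792)) (l 14194800))) (c (a (b (c (l 14652920) (l 14606696)) (c (l 14628088) (l 14505048))) (b (l 14239656) (l 14206496))) (a (b (l 14528264) (l 14496432)) (b (l 14208400) (c (a (l 14318208) (l 14084984)) (l 14167464)))))) (b (l 14243816) (a (l 14473360) (b (l 14101216) (l 14109104))))) (b (c (a (c (l 13918032) (a (l 13961336) (l 13620576))) (l 13635056)) (c (a (l 13833928) (c (l 13576832) (l 13555072))) (l 13628720))) (c (a (c (l 13831120)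 (b (c (l 13848840) (l 13770344)) (l 13761688))) (l 13556096)) (c (a (b (l 13783560) (a (l 13800352) (c (l 13649520) (l 13630464)))) (b (c (l 13526976) (l 13487368)) (c (l 13453776) (l 13295048)))) (a (l 13681288) (b (l 13465008) (c (l 13294264) (l 13351912)))))))), by decide +kernel⟩

def k9_pp_202_a : ∃ t, chk3 f_pp_202_a t 36 3 1 = true :=
  ⟨(b (c (b (c (b (l 14603736) (l 14588256)) (c (b (l 14600600) (a (l 14710056) (l 14467736))) (a (l 14662688) (l 14374040)))) (c (l 14539616) (a (c (l 14647960) (b (l 14664384) (l 14622736))) (b (l 14406416) (l 14386896))))) (b (b (l 14482672) (l 14309816)) (c (a (c (l 14505704) (l 14573840)) (c (b (l 14401168) (l 14349760)) (l 14341880))) (l 14426160)))) (c (b (b (c (l 14494120) (l 14484952)) (a (c (l 14725712) (l 14700096)) (l 14443776))) (a (b (c (l 14837432) (l 14815008)) (c (l 15004864) (l 14980496))) (b (l 14544112) (l 14682896)))) (b (c (b (c (a (b (l 14579744) (l 14610168)) (l 14331728)) (a (l 14582992) (b (l 14293920) (l 14317368)))) (c (l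 14541880) (a (b (l 14486328) (l 14691832)) (l 14380744)))) (b (a (l 14536704) (l 14279344)) (c (a (l 14591384) (b (l 14332112) (c (l 14393096) (l 14375592)))) (l 14468408)))) (b (c (a (b (l 14757264) (l 14835872)) (l 14499192)) (c (a (b (c (l 14738552) (l 14724336)) (c (l 14810576) (l 14800136))) (b (l 14441088) (l 14509136))) (a (b (l 14727544) (c (l 14784664) (l 14781376))) (b (c (l 14423448) (l 14409432)) (c (l 14490488) (a (l 14554312) (l 14401392))))))) (a (c (l 14949504) (c (l 14913544) (b (c (a (l 14944544) (l 14795352)) (a (l 14931912) (l 14784584))) (c (l 14963800) (a (l 14775872) (l 14875600)))))) (b (c (l 14604696) (a (c (l 14654344) (l 14636480)) (l 1))) (l 1))))))), by decide +kernel⟩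

def k10_pp_202_a : ∃ t, chk3 f_pp_202_a t 37 3 1 = true :=
  ⟨(b (c (b (c (l 14134816) (a (b (l 14059776) (l 14204000)) (l 13987768))) (c (l 14031160) (l 14009432))) (b (c (a (l 14189240) (c (b (l 14002304) (l 13937616)) (l 13931784))) (l 14005928)) (c (c (b (a (l 14137344) (l 13882680)) (l 13949528)) (b (a (l 14124568) (l 13848152)) (a (l 14059848) (l 13785760)))) (c (b (l 13955512) (a (l 14049096) (l 13753128))) (l 13901112))))) (b (c (b (l 13958208) (l 14012272)) (c (b (b (l 13887472) (l 13895624)) (l 13947960)) (b (c (a (b (l 13992272) (l 14003152)) (b (l 13705816) (l 13707472))) (a (l 13988576) (b (l 13675344) (l 13677624)))) (c (a (b (l 14042848) (l 14084744)) (l 13754768)) (a (b (l 14013392) (c (l 14067000) (l 14051632))) (b (l 13603336) (l 13745176))))))) (a (b (c (l 14250304) (c (l 14192616) (c (l 14163792) (b (c (l 14118320) (l 14104272)) (l 14171648))))) (l 1)) (l 1)))), by decide +kernel⟩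

def k11_pp_202_a : ∃ t, chk3 f_pp_202_a t 19 3 1 = true :=
  ⟨(b (c (a (a (b (l 13764504) (l 13617864)) (b (l 13588440) (l 13436416))) (b (l 13398640) (l 13235832))) (a (b (c (a (c (b (l 13749616) (l 13688944)) (b (l 13730352) (l 13653312))) (c (l 13541488) (l 13509224))) (a (l 13654584) (c (l 13469616) (l 13454496)))) (c (a (b (l 13586816) (l 13509648)) (l 13363616)) (a (c (b (l 13546016) (a (l 13539848) (l 13397224))) (b (l 13524488) (l 13434464))) (c (b (l 13363800) (l 13277928)) (b (l 13328552) (l 13243096)))))) (b (c (l 13320856) (b (c (l 13186720) (l 13273760)) (c (l 13236656) (a (l 13271352) (l 13132880))))) (c (l 13152472) (c (l 13111064) (b (a (l 13189032) (l 13048280)) (l 13029496))))))) (b (a (c (a (a (l 13614536) (l 1042092960663)) (l 13353960)) (c (a (l 13457456) (l 13260344)) (a (b (c (l 13404704) (b (l 13142928) (l 13368880))) (l 13420440)) (l 484820328711)))) (l 1)) (l 1))), by decide +kernel⟩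

def k12_pp_202_a : ∃ t, chk3 f_pp_202_a t 5 1 1 = true :=
  ⟨(a (a (b (c (b (l 13278224) (b (l 13213472) (l 13133816))) (b (b (c (l 13211064) (a (l 13266328) (l 13022000))) (c (l 13182704) (a (l 13235848) (l 12884448)))) (c (b (l 13129512) (l 13046216)) (b (a (c (l 13206360) (l 13166576)) (l 12931224)) (a (c (l 13127712) (a (l 13159056) (l 13026688))) (l 12846208)))))) (a (b (b (c (l 13141240) (b (c (l 13087560) (l 13022664)) (l 12972056))) (l 1)) (l 1)) (l 1))) (b (b (l 1) (l 1)) (l 1))) (l 1)), by decide +kernel⟩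

def k13_pp_202_a : ∃ t, chk3 f_pp_202_a t 3 1 1 = true :=
  ⟨(l 1), by decide +kernel⟩

theorem s14_pp_202_a : ∃ t, chk3 f_pp_202_a t 18 3 1 = true := ex3_a k9_pp_202_a k10_pp_202_a

theorem s15_pp_202_a : ∃ t, chk3 f_pp_202_a t 9 3 1 = true := ex3_a s14_pp_202_a k11_pp_202_a

theorem s16_pp_202_a : ∃ t, chk3 f_pp_202_a t 9 1 1 = true := ex3_b k8_pp_202_a s15_pp_202_a

theorem s17_pp_202_a : ∃ t, chk3 f_pp_202_a t 17 7 1 = true := ex3_c k6_pp_202_a k7_pp_202_a

theorem s18_pp_202_a : ∃ t, chk3 f_pp_202_a t 17 3 1 = true := ex3_b k5_pp_202_a s17_pp_202_a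

theorem s19_pp_202_a : ∃ t, chk3 f_pp_202_a t 16 7 2 = true := ex3_a k2_pp_202_a k3_pp_202_a

theorem s20_pp_202_a : ∃ t, chk3 f_pp_202_a t 16 7 1 = true := ex3_c s19_pp_202_a k4_pp_202_a

theorem s21_pp_202_a : ∃ t, chk3 f_pp_202_a t 16 3 1 = true := ex3_b k1_pp_202_a s20_pp_202_a

theorem s22_pp_202_a : ∃ t, chk3 f_pp_202_a t 8 3 1 = true := ex3_a s21_pp_202_a s18_pp_202_a

theorem s23_pp_202_a : ∃ t, chk3 f_pp_202_a t 8 1 1 = true := ex3_b k0_pp_202_a s22_pp_202_a

theorem s24_pp_202_a : ∃ t, chk3 f_pp_202_a t 4 1 1 = true := ex3_a s23_pp_202_a s16_pp_202_a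

theorem s25_pp_202_a : ∃ t, chk3 f_pp_202_a t 2 1 1 = true := ex3_a s24_pp_202_a k12_pp_202_a

theorem s26_pp_202_a : ∃ t, chk3 f_pp_202_a t 1 1 1 = true := ex3_a s25_pp_202_a k13_pp_202_a

theorem c_pp_202_a : CertNX 1073741824 536870912 0 420477299 1046898278 26843546 3 false true true .pp 2 0 2
    ndN7q2 ndN1q2a pcN0 Cut.none Ext.none :=
  certNX2 (fam := false) (s1 := true) (s2 := true) (a := 2) (b := 0) (c := 2) (cn := .pp) (n1 := ndN7q2) (n2 := ndN1q2a) (pc := pcN0) (cut := Cut.none) (xt := Ext.none) (P1 := 1073741824) (W1 := 536870912) (P2 := 0) (W2 := 420477299) (P3 := 1046898278) (W3 := 26843546) (N0 := 3)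
    rfl (fun _ => rfl) s26_pp_202_a

noncomputable def f_pp_202_b : ℕ → ℕ → ℕ → ℕ → Bool := onCell 1073741824 536870912 0 536870912 1046898278 26843546
    (rowNX 3 1 false true true .pp 2 0 2 (qsf 1073741824 536870912 1239849684 370763052 0) ndN7q2 ndN1q2b pcN0 Cut.none Ext.none)

def k0_pp_202_b : ∃ t, chk3 f_pp_202_b t 2 8 1 = true :=
  ⟨(a (a (l 1) (a (b (l 1) (c (c (b (l 1) (a (l 1) (l 14501544))) (l 447778796215)) (l 14406120))) (b (b (l 1) (c (b (l 1) (l 14927392)) (l 14843216))) (c (b (l 14865936) (l 14788152)) (l 14750152))))) (b (b (c (a (b (a (l 15578176) (l 16116216)) (a (c (l 15533856) (l 15310208)) (c (l 16087880) (l 15979320)))) (b (l 16145384) (c (l 16046552) (b (l 16164416) (l 16142232))))) (a (b (b (c (l 15598664) (a (c (l 15524568) (l 15427752)) (c (l 16087560) (l 16080232)))) (c (a (l 15530056) (l 16084648)) (a (l 15508984) (l 16074472)))) (c (a (l 15520192) (l 16074208)) (l 15589048))) (b (c (b (l 16149600) (l 16116456)) (b (c (l 16152944) (l 16028376)) (l 16153672)))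 (c (l 16152624) (l 16165648))))) (c (a (a (b (l 15312792) (l 15521232)) (b (l 15954616) (l 16058056))) (b (a (l 16358296) (l 15936936)) (l 16150128))) (a (a (l 15460944) (l 16020840)) (l 16183944)))) (a (c (a (b (l 15460592) (l 15384104)) (b (l 15998960) (l 15924544))) (a (l 15368272) (l 15929440))) (c (b (l 16203624) (l 16268880)) (l 16244520))))), by decide +kernel⟩

def k1_pp_202_b : ∃ t, chk3 f_pp_202_b t 3 8 1 = true :=
  ⟨(c (b (b (a (a (b (l 15319320) (c (l 15372032) (l 15340152))) (b (l 14749392) (c (l 14821792) (l 14777200)))) (a (a (l 14623784) (b (l 14510504) (c (l 14563664) (l 14408920)))) (b (l 14148296) (c (b (l 14455312) (l 14456064)) (l 14400736))))) (a (a (b (l 15327144) (l 15370832)) (l 14783896)) (a (b (a (l 14659584) (c (l 14572264) (l 14551704))) (l 14563080)) (a (l 14461448) (l 14332832))))) (a (a (b (l 15452304) (l 15554288)) (b (l 14939280) (a (l 15117680) (c (l 15026360) (l 15009952))))) (b (a (c (l 14752912) (l 14779928)) (l 14573816)) (a (c (l 14846912) (l 14912544))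 (c (l 14618864) (l 14704232)))))) (b (a (b (a (b (c (l 15092864) (b (l 15031848) (l 15292376))) (c (l 15319112) (l 15317304))) (b (c (l 14716016) (l 14481648)) (l 14731768))) (a (l 15368840) (l 14808856))) (a (b (b (a (l 14552600) (l 14457016)) (c (l 14392376) (l 14525800))) (c (l 14627472) (l 14605312))) (b (b (c (b (l 14321848) (l 14348720)) (b (l 14062304) (l 14308872))) (c (l 14361256) (l 14346384))) (l 14433456)))) (a (a (l 15481808) (b (l 14914624) (l 15006656))) (a (b (l 14744200) (l 14863848)) (b (l 14520816) (l 14638376)))))), by decide +kernel⟩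

def k2_pp_202_b : ∃ t, chk3 f_pp_202_b t 1 9 1 = true :=
  ⟨(a (a (a (a (a (l 1) (b (l 1) (c (l 13552288) (c (l 470862264215) (l 13437704))))) (a (b (l 1) (c (l 13709360) (l 403753648103))) (b (c (c (l 14144144) (l 13946536)) (l 13997920)) (c (c (l 13902912) (l 13868768)) (l 13745840))))) (b (c (a (c (a (l 14323272) (l 14440136)) (l 14278704)) (l 14618984)) (l 165384499191)) (a (c (c (a (l 14078656) (l 14193032)) (l 14028296)) (l 13950416)) (l 14326904)))) (b (a (b (a (l 15256264) (l 15807520)) (l 15395112)) (b (l 16178032) (l 16185600))) (a (l 14963120) (l 16018368)))) (a (b (a (b (l 15633776) (l 15996160)) (b (c (a (l 15334920) (l 15260032)) (l 15238192)) (l 15410600))) (b (a (b (l 16222696) (l 16322224)) (b (l 15916336) (l 16023504))) (a (l 16399472) (l 16164696)))) (a (b (b (c (l 15130928) (l 15118112)) (l 15570648)) (b (b (a (l 15927968) (l 15856120)) (l 16010120)) (l 16297408))) (b (b (c (l 14994032) (l 15027872)) (l 2)) (l 2))))), by decide +kernel⟩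

def k3_pp_202_b : ∃ t, chk3 f_pp_202_b t 1 5 1 = true :=
  ⟨(a (a (a (b (c (a (l 13212256) (c (l 13560120) (a (l 13426696) (l 13606232)))) (a (c (a (l 13049472) (l 13208920)) (a (c (l 13006792) (l 12968224)) (l 13152744))) (a (l 13336496) (l 13476080)))) (c (a (l 12872408) (c (l 13250360) (a (l 13103840) (l 13297016)))) (a (c (a (l 12692528) (l 12865736)) (a (b (l 12676848) (l 12570840)) (l 12802768))) (b (l 13135336) (l 13041624))))) (b (a (c (c (a (l 13827576) (l 13948952)) (l 13776088)) (l 13691176)) (l 14087024)) (a (c (b (l 13588576) (l 13507320)) (l 13393472)) (l 13822552)))) (b (a (l 14977688) (b (l 15893432) (l 15711440))) (b (a (l 14802112) (l 15688248)) (a (l 14745072) (l 15646480))))) (b (a (a (b (c (l 16504968) (l 16499184)) (l 16268656)) (b (b (l 16303200) (l 16468384)) (l 16599344))) (b (a (b (l 16386448) (l 2)) (l 2)) (l 2))) (a (b (a (l 16361752) (l 16727528)) (a (l 16342144) (l 2))) (l 2)))), by decide +kernel⟩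

def k4_pp_202_b : ∃ t, chk3 f_pp_202_b t 1 3 1 = true :=
  ⟨(a (a (a (c (b (a (l 12823936) (c (l 13206704) (a (l 13058136) (l 13253488)))) (a (l 12823936) (c (l 13206704) (l 13131520)))) (a (b (c (a (l 12641376) (l 12816816)) (a (l 12570688) (l 12752808))) (c (l 12729864) (l 12646720))) (b (l 13041488) (l 13041488)))) (b (a (c (c (l 13529664) (l 13447000)) (l 13351848)) (l 13786160)) (a (c (l 13507200) (l 13351848)) (l 13786160)))) (b (a (b (l 14744992) (l 14744992)) (l 15646432)) (a (l 14744992) (l 2)))) (a (a (b (l 16342120) (l 2)) (l 2)) (l 2))), by decide +kernel⟩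

theorem s5_pp_202_b : ∃ t, chk3 f_pp_202_b t 1 8 1 = true := ex3_a k0_pp_202_b k1_pp_202_b

theorem s6_pp_202_b : ∃ t, chk3 f_pp_202_b t 1 4 1 = true := ex3_b s5_pp_202_b k2_pp_202_b

theorem s7_pp_202_b : ∃ t, chk3 f_pp_202_b t 1 2 1 = true := ex3_b s6_pp_202_b k3_pp_202_b

theorem s8_pp_202_b : ∃ t, chk3 f_pp_202_b t 1 1 1 = true := ex3_b s7_pp_202_b k4_pp_202_b

theorem c_pp_202_b : CertNX 1073741824 536870912 1239849684 370763052 1046898278 26843546 3 false true true .pp 2 0 2
    ndN7q2 ndN1q2b pcN0 Cut.none Ext.none :=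
  certNX1 (fam := false) (s1 := true) (s2 := true) (a := 2) (b := 0) (c := 2) (cn := .pp) (n1 := ndN7q2) (n2 := ndN1q2b) (pc := pcN0) (cut := Cut.none) (xt := Ext.none) (P1 := 1073741824) (W1 := 536870912) (P2 := 1239849684) (W2 := 370763052) (P3 := 1046898278) (W3 := 26843546) (N0 := 3)
    rfl (fun _ => rfl) s8_pp_202_b

noncomputable def f_pp_203 : ℕ → ℕ → ℕ → ℕ → Bool := onCell 1073741824 536870912 0 536870912 1046898278 26843546
    (rowNX 3 1 false true true .up 2 0 3 (qsf 1073741824 536870912 1610612736 469762048 0) ndN7q2 ndN1q3 pcN0 Cut.none Ext.none)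

def k0_pp_203 : ∃ t, chk3 f_pp_203 t 1 1 1 = true :=
  ⟨(b (b (a (l 1) (b (a (l 1) (a (a (l 1) (b (l 1) (c (b (l 1) (l 14870232)) (l 14748016)))) (b (b (a (l 1) (c (b (l 14311712) (l 14370312)) (b (c (l 14270848) (l 14240672)) (l 14290456)))) (c (a (l 14461448) (l 14332832)) (l 14433456))) (c (b (l 14573816) (c (l 14618864) (l 14704232))) (b (l 14520816) (l 14638376)))))) (a (b (l 1) (b (l 1) (a (l 1) (l 16164696)))) (a (b (b (c (l 15130928) (l 15118112)) (l 15570648)) (b (b (a (l 15927968) (l 15856120)) (l 16010120)) (l 16297408))) (c (b (b (l 14994032) (l 15533632)) (b (a (l 16147784) (l 16387360)) (l 16303984))) (b (b (l 15027872) (l 15595864)) (b (a (l 16126760) (l 16373672)) (l 16287376)))))))) (a (a (l 1) (b (l 1) (b (l 1) (a (l 1) (l 15646480))))) (b (a (a (b (l 1) (l 16268656)) (b (b (l 16303200) (l 16468384)) (l 16599344))) (b (a (b (l 16386448) (l 16553928)) (a (l 16700008) (l 16696288))) (a (l 16709944) (l 16748760)))) (a (b (a (l 16361752) (l 16727528)) (a (l 16342144) (l 16763744)))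 (b (a (l 16770512) (l 16762080)) (l 16777144)))))) (b (a (a (a (l 1) (a (l 1) (l 13786160))) (a (l 433820683575) (l 15646432))) (a (a (l 16342120) (l 16763744)) (l 16777208))) (a (a (a (c (a (l 12823936) (l 495020795831)) (a (c (l 12729864) (l 12646720)) (l 13041488))) (a (c (l 13507200) (l 13351848)) (l 13786160))) (a (l 14744992) (l 15646432))) (a (l 16563520) (l 16761624))))), by decide +kernel⟩

theorem c_pp_203 : CertNX 1073741824 536870912 1610612736 469762048 1046898278 26843546 3 false true true .up 2 0 3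
    ndN7q2 ndN1q3 pcN0 Cut.none Ext.none :=
  certNX1 (fam := false) (s1 := true) (s2 := true) (a := 2) (b := 0) (c := 3) (cn := .up) (n1 := ndN7q2) (n2 := ndN1q3) (pc := pcN0) (cut := Cut.none) (xt := Ext.none) (P1 := 1073741824) (W1 := 536870912) (P2 := 1610612736) (W2 := 469762048) (P3 := 1046898278) (W3 := 26843546) (N0 := 3)
    rfl (fun _ => rfl) k0_pp_203

noncomputable def f_pp_213 : ℕ → ℕ → ℕ → ℕ → Bool := onCell 1073741824 536870912 1610612736 469762048 1046898278 26843546
    (rowNX 3 0 false true true .pnn 2 1 3 (qsf 1073741824 536870912 1610612736 469762048 1) ndN7q2 ndN1q3 pcN1 Cut.none Ext.none)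

def k0_pp_213 : ∃ t, chk3 f_pp_213 t 1 1 1 = true :=
  ⟨(b (a (a (a (c (a (l 12823936) (b (l 13159144) (l 13159144))) (a (b (l 522400268295) (l 12687112)) (l 13041488))) (a (c (l 473546655479) (l 13351848)) (l 13786160))) (a (l 474622768023) (l 461202902967))) (l 1)) (a (a (b (a (a (c (l 12764488) (b (l 12687112) (l 12573416))) (c (l 13154072) (l 13035576))) (a (l 13425120) (l 13786168))) (a (b (a (c (l 12386360) (b (l 12294784) (l 11997400))) (c (l 13042688) (l 12883688))) (a (c (l 12165904) (a (l 11136272) (l 11858896))) (c (a (l 12861184) (l 13188256)) (l 12743816)))) (a (b (l 13405944) (l 13275744)) (l 13784576)))) (a (b (l 14745000) (l 14741744)) (l 15637168))) (a (a (l 16332720) (l 16754016)) (l 428456737335)))), by decide +kernel⟩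

theorem c_pp_213 : CertNX 1073741824 536870912 1610612736 469762048 1046898278 26843546 3 false true true .pnn 2 1 3
    ndN7q2 ndN1q3 pcN1 Cut.none Ext.none :=
  certNX0 (fam := false) (s1 := true) (s2 := true) (a := 2) (b := 1) (c := 3) (cn := .pnn) (n1 := ndN7q2) (n2 := ndN1q3) (pc := pcN1) (cut := Cut.none) (xt := Ext.none) (P1 := 1073741824) (W1 := 536870912) (P2 := 1610612736) (W2 := 469762048) (P3 := 1046898278) (W3 := 26843546) (N0 := 3)
    rfl k0_pp_213

noncomputable def f_pp_303 : ℕ → ℕ → ℕ → ℕ → Bool := onCell 0 1230186008 0 536870912 1046898278 26843546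
    (rowNX 3 1 false true true .npn 3 0 3 (qsf 0 1230186008 1610612736 469762048 0) ndN7q3 ndN1q3 pcN0 Cut.none Ext.none)

def k0_pp_303 : ∃ t, chk3 f_pp_303 t 2 1 1 = true :=
  ⟨(a (l 2) (b (b (l 3) (l 2)) (l 2))), by decide +kernel⟩

def k1_pp_303 : ∃ t, chk3 f_pp_303 t 6 1 1 = true :=
  ⟨(b (l 3) (l 2)), by decide +kernel⟩

def k2_pp_303 : ∃ t, chk3 f_pp_303 t 14 1 1 = true :=
  ⟨(b (a (l 3) (b (l 3) (l 3))) (b (b (a (l 3) (l 16760440)) (l 2)) (l 2))), by decide +kernel⟩

def k3_pp_303 : ∃ t, chk3 f_pp_303 t 15 1 1 = true :=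
  ⟨(b (b (b (b (c (b (b (a (l 14069352) (a (a (l 14069352) (l 14130616)) (l 14180320))) (a (l 14127464) (a (c (l 14154440) (l 14118488)) (c (l 14279208) (l 14221392))))) (a (c (l 14252496) (l 264839530055)) (a (c (l 14273896) (l 14247392)) (c (l 14331024) (l 14305632))))) (b (c (b (a (l 273965880311) (a (l 14011120) (l 14155248))) (a (l 14071072) (l 14104680))) (b (a (c (l 13800704) (b (l 281481921319) (l 13890272))) (c (l 13796528) (b (l 13926368) (l 14022992)))) (a (c (b (l 279334625383) (l 14064160)) (l 14015056)) (a (c (l 13988952) (l 14031632)) (l 14176240))))) (c (b (a (c (l 14164328) (l 275576780263)) (c (l 14189672) (l 14171760))) (a (l 273429466919) (l 14136088))) (a (l 14134624) (l 14167520))))) (c (b (c (a (l 254102492103) (l 14449712)) (c (b (a (l 14377376) (l 14409032)) (a (l 14436112) (l 14469904))) (a (l 267524165687) (l 14244608)))) (c (c (b (l 14523632) (a (l 252492269687) (l 14632064))) (b (a (l 14527552) (l 14569064)) (l 14608272))) (l 248197178375))) (a (l 14366336)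 (a (l 14405112) (b (l 14385040) (l 14549736)))))) (b (a (b (c (l 260545518231) (l 14634408)) (c (l 15038672) (l 14977544))) (b (b (c (l 14745384) (l 14673792)) (a (l 14829920) (a (l 15162752) (l 15233968)))) (a (c (l 15206256) (l 15151048)) (c (l 15426208) (l 15533624))))) (a (c (l 269137477255) (l 278263693175)) (a (c (l 15629312) (a (l 15517688) (l 15758024))) (b (c (l 16208912) (l 16188960)) (l 16261256)))))) (b (a (c (l 16013400) (l 15986536)) (a (b (l 15913400) (l 16251912)) (l 16411376))) (b (a (l 16539248) (l 16614008)) (a (l 16771232) (l 16771328))))) (b (c (b (l 16767808) (l 16759024)) (b (l 16766992) (l 16758184))) (a (l 2) (l 16743992)))), by decide +kernel⟩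

theorem s4_pp_303 : ∃ t, chk3 f_pp_303 t 7 1 1 = true := ex3_a k2_pp_303 k3_pp_303

theorem s5_pp_303 : ∃ t, chk3 f_pp_303 t 3 1 1 = true := ex3_a k1_pp_303 s4_pp_303

theorem s6_pp_303 : ∃ t, chk3 f_pp_303 t 1 1 1 = true := ex3_a k0_pp_303 s5_pp_303

theorem c_pp_303 : CertNX 0 1230186008 1610612736 469762048 1046898278 26843546 3 false true true .npn 3 0 3
    ndN7q3 ndN1q3 pcN0 Cut.none Ext.none :=
  certNX1 (fam := false) (s1 := true) (s2 := true) (a := 3) (b := 0) (c := 3) (cn := .npn) (n1 := ndN7q3) (n2 := ndN1q3) (pc := pcN0) (cut := Cut.none) (xt := Ext.none) (P1 := 0) (W1 := 1230186008) (P2 := 1610612736) (W2 := 469762048) (P3 := 1046898278) (W3 := 26843546) (N0 := 3)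
    rfl (fun _ => rfl) s6_pp_303

noncomputable def f_pp_313 : ℕ → ℕ → ℕ → ℕ → Bool := onCell 0 1230186008 1610612736 469762048 1046898278 26843546
    (rowNX 3 0 false true true .dn 3 1 3 (qsf 0 1230186008 1610612736 469762048 1) ndN7q3 ndN1q3 pcN1 Cut.none Ext.none)

def k0_pp_313 : ∃ t, chk3 f_pp_313 t 1 1 1 = true :=
  ⟨(l 1), by decide +kernel⟩

theorem c_pp_313 : CertNX 0 1230186008 1610612736 469762048 1046898278 26843546 3 false true true .dn 3 1 3
    ndN7q3 ndN1q3 pcN1 Cut.none Ext.none :=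
  certNX0 (fam := false) (s1 := true) (s2 := true) (a := 3) (b := 1) (c := 3) (cn := .dn) (n1 := ndN7q3) (n2 := ndN1q3) (pc := pcN1) (cut := Cut.none) (xt := Ext.none) (P1 := 0) (W1 := 1230186008) (P2 := 1610612736) (W2 := 469762048) (P3 := 1046898278) (W3 := 26843546) (N0 := 3)
    rfl k0_pp_313

noncomputable def f_pm_001 : ℕ → ℕ → ℕ → ℕ → Bool := onCell 0 536870912 536870912 536870912 1046898278 26843546
    (rowNX 3 0 false true false .up 0 0 1 (qsf 0 536870912 536870912 536870912 0) ndN7q0 ndN1q1 pcN0 Cut.none Ext.none)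

def k0_pm_001 : ∃ t, chk3 f_pm_001 t 1 1 1 = true :=
  ⟨(l 4), by decide +kernel⟩

theorem c_pm_001 : CertNX 0 536870912 536870912 536870912 1046898278 26843546 3 false true false .up 0 0 1
    ndN7q0 ndN1q1 pcN0 Cut.none Ext.none :=
  certNX0 (fam := false) (s1 := true) (s2 := false) (a := 0) (b := 0) (c := 1) (cn := .up) (n1 := ndN7q0) (n2 := ndN1q1) (pc := pcN0) (cut := Cut.none) (xt := Ext.none) (P1 := 0) (W1 := 536870912) (P2 := 536870912) (W2 := 536870912) (P3 := 1046898278) (W3 := 26843546) (N0 := 3)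
    rfl k0_pm_001

noncomputable def f_pm_011 : ℕ → ℕ → ℕ → ℕ → Bool := onCell 0 536870912 536870912 536870912 1046898278 26843546
    (rowNX 3 0 false true false .pnn 0 1 1 (qsf 0 536870912 536870912 536870912 1) ndN7q0 ndN1q1 pcN1 Cut.none Ext.none)

def k0_pm_011 : ∃ t, chk3 f_pm_011 t 1 1 1 = true :=
  ⟨(l 4), by decide +kernel⟩

theorem c_pm_011 : CertNX 0 536870912 536870912 536870912 1046898278 26843546 3 false true false .pnn 0 1 1
    ndN7q0 ndN1q1 pcN1 Cut.none Ext.none :=
  certNX0 (fam := false) (s1 := true) (s2 := false) (a := 0) (b := 1) (c := 1) (cn := .pnn) (n1 := ndN7q0) (n2 := ndN1q1) (pc := pcN1) (cut := Cut.none) (xt := Ext.none) (P1 := 0) (W1 := 536870912) (P2 := 536870912) (W2 := 536870912) (P3 := 1046898278) (W3 := 26843546) (N0 := 3)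
    rfl k0_pm_011

noncomputable def f_pm_012_a : ℕ → ℕ → ℕ → ℕ → Bool := onCell 0 536870912 0 420477299 1046898278 26843546
    (rowNX 3 0 false true false .pnp 0 1 2 (qsf 0 536870912 0 420477299 1) ndN7q0 ndN1q2a pcN1 Cut.none Ext.none)

def k0_pm_012_a : ∃ t, chk3 f_pm_012_a t 1 1 1 = true :=
  ⟨(l 4), by decide +kernel⟩

theorem c_pm_012_a : CertNX 0 536870912 0 420477299 1046898278 26843546 3 false true false .pnp 0 1 2
    ndN7q0 ndN1q2a pcN1 Cut.none Ext.none :=
  certNX0 (fam := false) (s1 := true) (s2 := false) (a := 0) (b := 1) (c := 2) (cn := .pnp) (n1 := ndN7q0) (n2 := ndN1q2a) (pc := pcN1) (cut := Cut.none) (xt := Ext.none) (P1 := 0) (W1 := 536870912) (P2 := 0) (W2 := 420477299) (P3 := 1046898278) (W3 := 26843546) (N0 := 3)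
    rfl k0_pm_012_a

noncomputable def f_pm_012_b : ℕ → ℕ → ℕ → ℕ → Bool := onCell 0 536870912 1239849684 370763052 1046898278 26843546
    (rowNX 3 0 false true false .pnp 0 1 2 (qsf 0 536870912 1239849684 370763052 1) ndN7q0 ndN1q2b pcN1 Cut.none Ext.none)

def k0_pm_012_b : ∃ t, chk3 f_pm_012_b t 1 1 1 = true :=
  ⟨(l 4), by decide +kernel⟩

theorem c_pm_012_b : CertNX 0 536870912 1239849684 370763052 1046898278 26843546 3 false true false .pnp 0 1 2
    ndN7q0 ndN1q2b pcN1 Cut.none Ext.none :=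
  certNX0 (fam := false) (s1 := true) (s2 := false) (a := 0) (b := 1) (c := 2) (cn := .pnp) (n1 := ndN7q0) (n2 := ndN1q2b) (pc := pcN1) (cut := Cut.none) (xt := Ext.none) (P1 := 0) (W1 := 536870912) (P2 := 1239849684) (W2 := 370763052) (P3 := 1046898278) (W3 := 26843546) (N0 := 3)
    rfl k0_pm_012_b

noncomputable def f_pm_022_a : ℕ → ℕ → ℕ → ℕ → Bool := onCell 0 536870912 0 420477299 1046898278 26843546
    (rowNX 3 0 false true false .pp 0 2 2 (qsf 0 536870912 0 420477299 2) ndN7q0 ndN1q2a pcN2 Cut.none Ext.none)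

def k0_pm_022_a : ∃ t, chk3 f_pm_022_a t 1 1 1 = true :=
  ⟨(l 4), by decide +kernel⟩

theorem c_pm_022_a : CertNX 0 536870912 0 420477299 1046898278 26843546 3 false true false .pp 0 2 2
    ndN7q0 ndN1q2a pcN2 Cut.none Ext.none :=
  certNX0 (fam := false) (s1 := true) (s2 := false) (a := 0) (b := 2) (c := 2) (cn := .pp) (n1 := ndN7q0) (n2 := ndN1q2a) (pc := pcN2) (cut := Cut.none) (xt := Ext.none) (P1 := 0) (W1 := 536870912) (P2 := 0) (W2 := 420477299) (P3 := 1046898278) (W3 := 26843546) (N0 := 3)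
    rfl k0_pm_022_a

noncomputable def f_pm_022_b : ℕ → ℕ → ℕ → ℕ → Bool := onCell 0 536870912 1239849684 370763052 1046898278 26843546
    (rowNX 3 0 false true false .pp 0 2 2 (qsf 0 536870912 1239849684 370763052 2) ndN7q0 ndN1q2b pcN2 Cut.none Ext.none)

def k0_pm_022_b : ∃ t, chk3 f_pm_022_b t 1 1 1 = true :=
  ⟨(l 4), by decide +kernel⟩

theorem c_pm_022_b : CertNX 0 536870912 1239849684 370763052 1046898278 26843546 3 false true false .pp 0 2 2
    ndN7q0 ndN1q2b pcN2 Cut.none Ext.none :=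
  certNX0 (fam := false) (s1 := true) (s2 := false) (a := 0) (b := 2) (c := 2) (cn := .pp) (n1 := ndN7q0) (n2 := ndN1q2b) (pc := pcN2) (cut := Cut.none) (xt := Ext.none) (P1 := 0) (W1 := 536870912) (P2 := 1239849684) (W2 := 370763052) (P3 := 1046898278) (W3 := 26843546) (N0 := 3)
    rfl k0_pm_022_b

noncomputable def f_pm_023 : ℕ → ℕ → ℕ → ℕ → Bool := onCell 0 536870912 1610612736 469762048 1046898278 26843546
    (rowNX 3 0 false true false .up 0 2 3 (qsf 0 536870912 1610612736 469762048 2) ndN7q0 ndN1q3 pcN2 Cut.none Ext.none)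

def k0_pm_023 : ∃ t, chk3 f_pm_023 t 1 1 1 = true :=
  ⟨(l 4), by decide +kernel⟩

theorem c_pm_023 : CertNX 0 536870912 1610612736 469762048 1046898278 26843546 3 false true false .up 0 2 3
    ndN7q0 ndN1q3 pcN2 Cut.none Ext.none :=
  certNX0 (fam := false) (s1 := true) (s2 := false) (a := 0) (b := 2) (c := 3) (cn := .up) (n1 := ndN7q0) (n2 := ndN1q3) (pc := pcN2) (cut := Cut.none) (xt := Ext.none) (P1 := 0) (W1 := 536870912) (P2 := 1610612736) (W2 := 469762048) (P3 := 1046898278) (W3 := 26843546) (N0 := 3)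
    rfl k0_pm_023

noncomputable def f_pm_033 : ℕ → ℕ → ℕ → ℕ → Bool := onCell 0 536870912 1610612736 469762048 1046898278 26843546
    (rowNX 3 0 false true false .pnn 0 3 3 (qsf 0 536870912 1610612736 469762048 3) ndN7q0 ndN1q3 pcN3 Cut.none Ext.none)

def k0_pm_033 : ∃ t, chk3 f_pm_033 t 1 1 1 = true :=
  ⟨(l 4), by decide +kernel⟩

theorem c_pm_033 : CertNX 0 536870912 1610612736 469762048 1046898278 26843546 3 false true false .pnn 0 3 3
    ndN7q0 ndN1q3 pcN3 Cut.none Ext.none :=
  certNX0 (fam := false) (s1 := true) (s2 := false) (a := 0) (b := 3) (c := 3) (cn := .pnn) (n1 := ndN7q0) (n2 := ndN1q3) (pc := pcN3) (cut := Cut.none) (xt := Ext.none) (P1 := 0) (W1 := 536870912) (P2 := 1610612736) (W2 := 469762048) (P3 := 1046898278) (W3 := 26843546) (N0 := 3)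
    rfl k0_pm_033

noncomputable def f_pm_101 : ℕ → ℕ → ℕ → ℕ → Bool := onCell 536870912 536870912 536870912 536870912 1046898278 26843546
    (rowNX 3 0 false true false .npn 1 0 1 (qsf 536870912 536870912 536870912 536870912 0) ndN7q1 ndN1q1 pcN0 Cut.none Ext.none)

def k0_pm_101 : ∃ t, chk3 f_pm_101 t 1 1 1 = true :=
  ⟨(l 4), by decide +kernel⟩

theorem c_pm_101 : CertNX 536870912 536870912 536870912 536870912 1046898278 26843546 3 false true false .npn 1 0 1
    ndN7q1 ndN1q1 pcN0 Cut.none Ext.none :=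
  certNX0 (fam := false) (s1 := true) (s2 := false) (a := 1) (b := 0) (c := 1) (cn := .npn) (n1 := ndN7q1) (n2 := ndN1q1) (pc := pcN0) (cut := Cut.none) (xt := Ext.none) (P1 := 536870912) (W1 := 536870912) (P2 := 536870912) (W2 := 536870912) (P3 := 1046898278) (W3 := 26843546) (N0 := 3)
    rfl k0_pm_101

noncomputable def f_pm_102_a : ℕ → ℕ → ℕ → ℕ → Bool := onCell 536870912 536870912 0 420477299 1046898278 26843546
    (rowNX 3 0 false true false .npp 1 0 2 (qsf 536870912 536870912 0 420477299 0) ndN7q1 ndN1q2a pcN0 Cut.none Ext.none)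

def k0_pm_102_a : ∃ t, chk3 f_pm_102_a t 1 1 1 = true :=
  ⟨(b (a (a (l 2) (l 4)) (a (a (l 15393568) (l 14442160)) (a (a (l 6670472695) (c (b (l 13347896) (a (l 13489128) (l 13121904))) (b (l 13250968) (l 13250832)))) (a (c (a (b (l 13188000) (c (l 13231520) (l 13187384))) (l 12818368)) (b (l 13020408) (l 12985088))) (a (c (l 12938272) (c (b (l 12893320) (l 12804648)) (l 12794416))) (c (l 12836288) (c (l 12735952) (b (l 12724712) (l 12594768))))))))) (a (l 4) (l 4))), by decide +kernel⟩

theorem c_pm_102_a : CertNX 536870912 536870912 0 420477299 1046898278 26843546 3 false true false .npp 1 0 2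
    ndN7q1 ndN1q2a pcN0 Cut.none Ext.none :=
  certNX0 (fam := false) (s1 := true) (s2 := false) (a := 1) (b := 0) (c := 2) (cn := .npp) (n1 := ndN7q1) (n2 := ndN1q2a) (pc := pcN0) (cut := Cut.none) (xt := Ext.none) (P1 := 536870912) (W1 := 536870912) (P2 := 0) (W2 := 420477299) (P3 := 1046898278) (W3 := 26843546) (N0 := 3)
    rfl k0_pm_102_a

noncomputable def f_pm_102_b : ℕ → ℕ → ℕ → ℕ → Bool := onCell 536870912 536870912 1239849684 370763052 1046898278 26843546
    (rowNX 3 0 false true false .npp 1 0 2 (qsf 536870912 536870912 1239849684 370763052 0) ndN7q1 ndN1q2b pcN0 Cut.none Ext.none)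

def k0_pm_102_b : ∃ t, chk3 f_pm_102_b t 1 1 1 = true :=
  ⟨(a (a (l 2) (b (l 4) (l 2))) (a (b (a (b (l 15393264) (l 15393264)) (b (l 14504672) (l 14504672))) (a (l 2) (b (l 14504672) (l 2)))) (b (a (c (a (l 13652976) (b (c (l 13456552) (l 13370120)) (l 13409360))) (l 13325432)) (c (a (b (c (l 13161360) (a (l 13188632) (l 13025408))) (l 13035192)) (b (l 12870512) (l 12802264))) (a (b (b (l 13003696) (l 12977160)) (l 12977160)) (b (c (a (l 12788216) (l 12714240)) (a (l 12766224) (b (l 12706048) (l 12576752)))) (c (l 12708024) (l 12624584)))))) (a (c (a (l 13652976) (l 13409360)) (l 13409280)) (c (a (c (l 13145464) (l 13070576)) (l 12802264)) (a (l 12977160) (c (l 12708024) (l 12624584)))))))), by decide +kernel⟩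

theorem c_pm_102_b : CertNX 536870912 536870912 1239849684 370763052 1046898278 26843546 3 false true false .npp 1 0 2
    ndN7q1 ndN1q2b pcN0 Cut.none Ext.none :=
  certNX0 (fam := false) (s1 := true) (s2 := false) (a := 1) (b := 0) (c := 2) (cn := .npp) (n1 := ndN7q1) (n2 := ndN1q2b) (pc := pcN0) (cut := Cut.none) (xt := Ext.none) (P1 := 536870912) (W1 := 536870912) (P2 := 1239849684) (W2 := 370763052) (P3 := 1046898278) (W3 := 26843546) (N0 := 3)
    rfl k0_pm_102_b

noncomputable def f_pm_112_a : ℕ → ℕ → ℕ → ℕ → Bool := onCell 536870912 536870912 0 420477299 1046898278 26843546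
    (rowNX 3 2 false true false .dn 1 1 2 (qsf 536870912 536870912 0 420477299 1) ndN7q1 ndN1q2a pcN1 Cut.none Ext.none)

def k0_pm_112_a : ∃ t, chk3 f_pm_112_a t 1 1 1 = true :=
  ⟨(l 4), by decide +kernel⟩

theorem c_pm_112_a : CertNX 536870912 536870912 0 420477299 1046898278 26843546 3 false true false .dn 1 1 2
    ndN7q1 ndN1q2a pcN1 Cut.none Ext.none :=
  certNX2 (fam := false) (s1 := true) (s2 := false) (a := 1) (b := 1) (c := 2) (cn := .dn) (n1 := ndN7q1) (n2 := ndN1q2a) (pc := pcN1) (cut := Cut.none) (xt := Ext.none) (P1 := 536870912) (W1 := 536870912) (P2 := 0) (W2 := 420477299) (P3 := 1046898278) (W3 := 26843546) (N0 := 3)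
    rfl (fun _ => rfl) k0_pm_112_a

noncomputable def f_pm_112_b : ℕ → ℕ → ℕ → ℕ → Bool := onCell 536870912 536870912 536870912 536870912 1046898278 26843546
    (rowNX 3 1 false true false .dn 1 1 2 (qsf 536870912 536870912 1239849684 370763052 1) ndN7q1 ndN1q2b pcN1 Cut.none Ext.none)

def k0_pm_112_b : ∃ t, chk3 f_pm_112_b t 1 1 1 = true :=
  ⟨(a (b (l 4) (l 4)) (a (b (b (a (l 15393264) (l 14504672)) (b (a (l 4) (l 14328584)) (l 4))) (l 4)) (b (b (a (c (l 13575288) (l 13409280)) (c (l 12888816) (a (l 12977160) (l 12665104)))) (a (b (a (l 13444496) (l 2)) (l 2)) (l 2))) (l 2)))), by decide +kernel⟩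

theorem c_pm_112_b : CertNX 536870912 536870912 1239849684 370763052 1046898278 26843546 3 false true false .dn 1 1 2
    ndN7q1 ndN1q2b pcN1 Cut.none Ext.none :=
  certNX1 (fam := false) (s1 := true) (s2 := false) (a := 1) (b := 1) (c := 2) (cn := .dn) (n1 := ndN7q1) (n2 := ndN1q2b) (pc := pcN1) (cut := Cut.none) (xt := Ext.none) (P1 := 536870912) (W1 := 536870912) (P2 := 1239849684) (W2 := 370763052) (P3 := 1046898278) (W3 := 26843546) (N0 := 3)
    rfl (fun _ => rfl) k0_pm_112_b

noncomputable def f_pm_113 : ℕ → ℕ → ℕ → ℕ → Bool := onCell 536870912 536870912 536870912 536870912 1046898278 26843546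
    (rowNX 3 1 false true false .nn 1 1 3 (qsf 536870912 536870912 1610612736 469762048 1) ndN7q1 ndN1q3 pcN1 Cut.none Ext.none)

def k0_pm_113 : ∃ t, chk3 f_pm_113 t 1 1 1 = true :=
  ⟨(b (a (l 4) (a (b (l 558375165735) (b (a (l 4) (l 14328584)) (l 4))) (b (a (c (l 13575288) (l 13409280)) (c (l 12867848) (a (l 12977160) (l 12665104)))) (a (b (a (l 13444496) (l 13208424)) (a (l 12928408) (l 12780048))) (c (b (l 12907056) (l 12760832)) (a (l 12784176) (b (l 12638856) (l 12564024)))))))) (a (l 4) (a (l 4) (a (b (a (l 4) (b (b (l 12294192) (l 11904984)) (b (l 11499608) (l 4)))) (l 4)) (a (b (b (b (c (l 12494696) (l 12301824)) (c (l 12035016) (l 11771376))) (b (c (l 11477696) (l 11109424)) (c (l 10948824) (l 10446960)))) (b (b (b (l 63035303495) (c (l 10603280) (l 9909648))) (l 4)) (l 4))) (b (b (b (l 12537528) (c (l 12161744) (l 11926560))) (b (c (l 11355432) (l 10956664)) (a (l 10499248) (l 10131328)))) (b (b (c (b (l 10586736) (l 10541424)) (b (l 9842176) (l 9669368))) (c (c (b (l 10946312)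 (l 11239960)) (l 10557176)) (l 9745800))) (b (c (c (l 11783168) (b (l 10898800) (l 11211608))) (c (b (l 10187952) (l 10306696)) (l 9394568))) (a (l 4) (l 2)))))))))), by decide +kernel⟩

theorem c_pm_113 : CertNX 536870912 536870912 1610612736 469762048 1046898278 26843546 3 false true false .nn 1 1 3
    ndN7q1 ndN1q3 pcN1 Cut.none Ext.none :=
  certNX1 (fam := false) (s1 := true) (s2 := false) (a := 1) (b := 1) (c := 3) (cn := .nn) (n1 := ndN7q1) (n2 := ndN1q3) (pc := pcN1) (cut := Cut.none) (xt := Ext.none) (P1 := 536870912) (W1 := 536870912) (P2 := 1610612736) (W2 := 469762048) (P3 := 1046898278) (W3 := 26843546) (N0 := 3)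
    rfl (fun _ => rfl) k0_pm_113

noncomputable def f_pm_123 : ℕ → ℕ → ℕ → ℕ → Bool := onCell 1073741824 536870912 1610612736 469762048 1046898278 26843546
    (rowNX 3 2 false true false .npn 1 2 3 (qsf 536870912 536870912 1610612736 469762048 2) ndN7q1 ndN1q3 pcN2 Cut.none Ext.none)

def k0_pm_123 : ∃ t, chk3 f_pm_123 t 1 1 1 = true :=
  ⟨(l 4), by decide +kernel⟩

theorem c_pm_123 : CertNX 536870912 536870912 1610612736 469762048 1046898278 26843546 3 false true false .npn 1 2 3
    ndN7q1 ndN1q3 pcN2 Cut.none Ext.none :=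
  certNX2 (fam := false) (s1 := true) (s2 := false) (a := 1) (b := 2) (c := 3) (cn := .npn) (n1 := ndN7q1) (n2 := ndN1q3) (pc := pcN2) (cut := Cut.none) (xt := Ext.none) (P1 := 536870912) (W1 := 536870912) (P2 := 1610612736) (W2 := 469762048) (P3 := 1046898278) (W3 := 26843546) (N0 := 3)
    rfl (fun _ => rfl) k0_pm_123

noncomputable def f_pm_133 : ℕ → ℕ → ℕ → ℕ → Bool := onCell 536870912 536870912 1610612736 469762048 1046898278 26843546
    (rowNX 3 0 false true false .dn 1 3 3 (qsf 536870912 536870912 1610612736 469762048 3) ndN7q1 ndN1q3 pcN3 Cut.none Ext.none)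

def k0_pm_133 : ∃ t, chk3 f_pm_133 t 1 1 1 = true :=
  ⟨(l 1), by decide +kernel⟩

theorem c_pm_133 : CertNX 536870912 536870912 1610612736 469762048 1046898278 26843546 3 false true false .dn 1 3 3
    ndN7q1 ndN1q3 pcN3 Cut.none Ext.none :=
  certNX0 (fam := false) (s1 := true) (s2 := false) (a := 1) (b := 3) (c := 3) (cn := .dn) (n1 := ndN7q1) (n2 := ndN1q3) (pc := pcN3) (cut := Cut.none) (xt := Ext.none) (P1 := 536870912) (W1 := 536870912) (P2 := 1610612736) (W2 := 469762048) (P3 := 1046898278) (W3 := 26843546) (N0 := 3)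
    rfl k0_pm_133

noncomputable def f_pm_202_a : ℕ → ℕ → ℕ → ℕ → Bool := onCell 0 536870912 0 420477299 1046898278 26843546
    (rowNX 3 2 false true false .pp 2 0 2 (qsf 1073741824 536870912 0 420477299 0) ndN7q2 ndN1q2a pcN0 Cut.none Ext.none)

def k0_pm_202_a : ∃ t, chk3 f_pm_202_a t 1 1 1 = true :=
  ⟨(a (b (a (a (a (a (c (a (l 14876528) (b (l 14810832) (c (l 14504704) (l 14466256)))) (a (a (b (l 14925184) (a (l 14655912) (l 14504720))) (c (l 14714576) (l 14742560))) (c (l 14644472) (l 14603592)))) (c (b (l 14677288) (a (l 14309000) (l 14132680))) (b (l 14592648) (l 14126968)))) (c (b (a (l 14309656) (l 14032616)) (a (l 13660952) (c (b (l 13897472) (l 13708392)) (l 13685760)))) (b (l 14083736) (l 13720136)))) (a (c (b (c (a (l 13940792) (l 13736000)) (l 13763984)) (c (a (b (l 13728568) (l 13495232)) (l 13404592)) (a (l 13548872) (b (l 13471336) (l 13240584))))) (b (l 13663064) (a (l 13422720) (l 13274704)))) (c (b (c (l 13447080) (a (l 13401048) (l 13288720))) (a (b (l 13058512) (l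 13079832)) (l 13001128))) (b (c (a (l 13453216) (l 13214904)) (l 13260960)) (c (a (b (l 13208104) (l 12982416)) (b (l 12987896) (l 12804736))) (a (l 13024688) (l 12794448))))))) (a (a (c (l 12848504) (b (c (a (l 13015952) (l 12807968)) (a (l 12937952) (c (l 12759600) (l 12719584)))) (c (l 12627632) (a (b (l 12720032) (l 12549176)) (b (l 12529528) (l 12383424)))))) (b (l 1) (l 1))) (l 1))) (b (a (a (a (a (a (c (l 13986640) (c (a (l 13946872) (l 13826224)) (a (c (l 13909888) (l 13717240)) (l 13817568)))) (b (c (a (l 14019800) (l 13930520)) (l 13877840)) (l 4))) (c (b (a (l 13823840) (l 13707688)) (l 4)) (l 13573520))) (b (c (c (a (l 13669384) (c (l 13494576) (l 13491184))) (a (l 13554280) (l 13433416))) (l 13388696)) (l 4))) (b (a (c (c (l 13217264) (a (l 13224464) (l 13068728))) (a (l 13136016) (l 12912304))) (l 4)) (l 4))) (l 4)) (l 4))) (l 1)), by decide +kernel⟩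

theorem c_pm_202_a : CertNX 1073741824 536870912 0 420477299 1046898278 26843546 3 false true false .pp 2 0 2
    ndN7q2 ndN1q2a pcN0 Cut.none Ext.none :=
  certNX2 (fam := false) (s1 := true) (s2 := false) (a := 2) (b := 0) (c := 2) (cn := .pp) (n1 := ndN7q2) (n2 := ndN1q2a) (pc := pcN0) (cut := Cut.none) (xt := Ext.none) (P1 := 1073741824) (W1 := 536870912) (P2 := 0) (W2 := 420477299) (P3 := 1046898278) (W3 := 26843546) (N0 := 3)
    rfl (fun _ => rfl) k0_pm_202_a

noncomputable def f_pm_202_b : ℕ → ℕ → ℕ → ℕ → Bool := onCell 1073741824 536870912 0 536870912 1046898278 26843546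
    (rowNX 3 1 false true false .pp 2 0 2 (qsf 1073741824 536870912 1239849684 370763052 0) ndN7q2 ndN1q2b pcN0 Cut.none Ext.none)

def k0_pm_202_b : ∃ t, chk3 f_pm_202_b t 2 4 1 = true :=
  ⟨(a (b (a (l 1) (b (a (l 1) (b (l 1) (c (l 14380736) (l 14283096)))) (c (a (c (a (l 1) (l 14118712)) (l 13930592)) (l 14329632)) (l 14045696)))) (a (a (b (l 1) (c (l 13195040) (c (l 12964880) (a (l 1) (l 13146920))))) (b (c (c (l 13625800) (a (l 1) (l 13684640))) (l 13375728)) (c (c (l 13589072) (l 289399918983)) (l 13442664)))) (b (c (a (c (l 13981656) (l 13886272)) (l 14279248)) (l 14002648)) (a (c (c (l 13942672) (l 13846776)) (l 13763440)) (l 14194984))))) (b (b (a (b (c (b (l 15351384) (a (l 15034312) (l 15623968))) (b (c (l 387650872103) (a (l 14860552) (l 15540472))) (c (l 15300016) (l 15268584)))) (c (a (l 15024320) (l 15613320)) (l 15262416))) (b (b (c (l 16216584) (c (l 16199744) (l 16062912))) (c (b (l 16201712) (c (l 16202016) (l 16201552))) (c (l 16190888) (l 16176560)))) (c (a (l 16010000)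 (a (l 16273000) (l 16436848))) (l 16101480)))) (a (c (a (l 14972144) (l 15559976)) (l 15214936)) (c (b (l 16156392) (l 16029024)) (l 16048168)))) (b (a (c (l 15220456) (l 15168272)) (b (l 15923224) (l 16043936))) (a (a (l 14845768) (l 15439128)) (l 15987480))))), by decide +kernel⟩

def k1_pm_202_b : ∃ t, chk3 f_pm_202_b t 3 4 1 = true :=
  ⟨(b (b (a (b (c (b (a (l 16037456) (l 15434592)) (a (c (l 16059192) (l 16043008)) (c (l 15479856) (l 15450280)))) (b (a (c (l 15864792) (c (l 16029576) (l 16027504))) (c (l 15412512) (b (l 15391016) (l 15399464)))) (a (c (l 16033584) (l 16036128)) (l 15336384)))) (c (a (b (l 16034464) (l 16043024)) (l 15247800)) (a (l 16051536) (l 15467352)))) (c (b (b (l 15097672) (c (l 15154256) (l 15117224))) (a (l 15264992) (l 15043608))) (b (b (c (l 15069768) (b (l 15042688) (l 15053296))) (l 15037456)) (l 15138064)))) (a (c (a (b (l 16085592) (l 16138848)) (l 15418496)) (a (l 16105984) (l 15562608))) (c (a (l 15389736) (l 15185976)) (l 15256144)))) (b (a (a (l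 16029728) (l 15559184)) (c (l 15622560) (l 15581464))) (a (a (l 16377192) (l 16072464)) (a (l 16045544) (l 2))))), by decide +kernel⟩

def k2_pm_202_b : ∃ t, chk3 f_pm_202_b t 1 5 1 = true :=
  ⟨(a (a (a (c (a (b (l 13074776) (l 12858944)) (b (c (l 13464280) (a (l 13318776) (l 13518096))) (c (l 13242560) (l 13168160)))) (a (b (c (l 337717276887) (a (l 12621352) (l 13018992))) (c (l 12766000) (a (l 12607152) (l 12790088)))) (b (l 13312360) (l 13079328)))) (a (c (b (c (l 13814048) (l 13715888)) (l 13544104)) (l 13525256)) (b (l 14060016) (l 13823456)))) (b (a (l 15000296) (l 15845768)) (a (l 14755688) (l 15669424)))) (b (a (a (l 16475784) (l 16373496)) (b (l 16345256) (l 2))) (a (b (l 16585048) (l 16563536)) (l 2)))), by decide +kernel⟩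

def k3_pm_202_b : ∃ t, chk3 f_pm_202_b t 1 3 1 = true :=
  ⟨(a (a (a (c (a (l 12823936) (b (c (l 13206704) (l 13131520)) (l 13159144))) (a (b (c (l 12729864) (l 12646720)) (c (l 12729864) (l 12646720))) (b (l 13041488) (l 13041488)))) (a (b (c (l 13507200) (l 13351848)) (l 13425120)) (l 13639360))) (a (b (l 14744992) (l 14744992)) (b (l 15646432) (l 2)))) (a (b (a (l 16342120) (l 2)) (l 2)) (l 2))), by decide +kernel⟩

theorem s4_pm_202_b : ∃ t, chk3 f_pm_202_b t 1 4 1 = true := ex3_a k0_pm_202_b k1_pm_202_b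

theorem s5_pm_202_b : ∃ t, chk3 f_pm_202_b t 1 2 1 = true := ex3_b s4_pm_202_b k2_pm_202_b

theorem s6_pm_202_b : ∃ t, chk3 f_pm_202_b t 1 1 1 = true := ex3_b s5_pm_202_b k3_pm_202_b

theorem c_pm_202_b : CertNX 1073741824 536870912 1239849684 370763052 1046898278 26843546 3 false true false .pp 2 0 2
    ndN7q2 ndN1q2b pcN0 Cut.none Ext.none :=
  certNX1 (fam := false) (s1 := true) (s2 := false) (a := 2) (b := 0) (c := 2) (cn := .pp) (n1 := ndN7q2) (n2 := ndN1q2b) (pc := pcN0) (cut := Cut.none) (xt := Ext.none) (P1 := 1073741824) (W1 := 536870912) (P2 := 1239849684) (W2 := 370763052) (P3 := 1046898278) (W3 := 26843546) (N0 := 3)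
    rfl (fun _ => rfl) s6_pm_202_b

noncomputable def f_pm_203 : ℕ → ℕ → ℕ → ℕ → Bool := onCell 1073741824 536870912 0 536870912 1046898278 26843546
    (rowNX 3 1 false true false .up 2 0 3 (qsf 1073741824 536870912 1610612736 469762048 0) ndN7q2 ndN1q3 pcN0 Cut.none Ext.none)

def k0_pm_203 : ∃ t, chk3 f_pm_203 t 1 1 1 = true :=
  ⟨(a (b (b (l 1) (a (l 1) (b (l 1) (a (l 1) (l 15669424))))) (a (a (b (l 1) (c (a (l 12823936) (l 13159144)) (a (l 468176306183) (l 13041488)))) (a (b (l 1) (l 13425120)) (l 422007605847))) (a (l 428988845367) (b (l 15646432) (l 15646432))))) (a (b (b (b (l 1) (b (l 1) (a (l 1) (l 16072464)))) (b (a (l 16475784) (l 16373496)) (b (l 16585048) (l 16563536)))) (b (a (l 16342120) (l 16763744)) (a (l 16342120) (l 16763736)))) (b (b (b (a (b (l 1) (l 350606844039)) (b (b (c (l 14852656) (b (l 14795928) (l 14965488))) (c (l 15043608) (l 15028072))) (l 15167112))) (b (c (l 15622560) (l 15581464)) (c (l 16020544) (l 16041272)))) (b (b (l 16345256) (l 16628744)) (b (l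 16726488) (l 16777144)))) (b (l 16777208) (l 16761624))))), by decide +kernel⟩

theorem c_pm_203 : CertNX 1073741824 536870912 1610612736 469762048 1046898278 26843546 3 false true false .up 2 0 3
    ndN7q2 ndN1q3 pcN0 Cut.none Ext.none :=
  certNX1 (fam := false) (s1 := true) (s2 := false) (a := 2) (b := 0) (c := 3) (cn := .up) (n1 := ndN7q2) (n2 := ndN1q3) (pc := pcN0) (cut := Cut.none) (xt := Ext.none) (P1 := 1073741824) (W1 := 536870912) (P2 := 1610612736) (W2 := 469762048) (P3 := 1046898278) (W3 := 26843546) (N0 := 3)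
    rfl (fun _ => rfl) k0_pm_203

noncomputable def f_pm_213 : ℕ → ℕ → ℕ → ℕ → Bool := onCell 1073741824 536870912 1610612736 469762048 1046898278 26843546
    (rowNX 3 0 false true false .pnn 2 1 3 (qsf 1073741824 536870912 1610612736 469762048 1) ndN7q2 ndN1q3 pcN1 Cut.none Ext.none)

def k0_pm_213 : ∃ t, chk3 f_pm_213 t 1 2 1 = true :=
  ⟨(a (a (a (b (c (l 476229983783) (a (l 12687112) (l 13041488))) (a (c (l 12818264) (a (l 12590696) (l 12730512))) (c (l 13159144) (l 13041488)))) (a (c (l 13507200) (l 13351848)) (l 13786160))) (a (l 449926810935) (l 430601260983))) (l 1)), by decide +kernel⟩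

def k1_pm_213 : ∃ t, chk3 f_pm_213 t 1 3 1 = true :=
  ⟨(a (a (b (a (a (b (l 12735040) (a (b (l 12527064) (l 11935808)) (b (l 12809944) (l 12555888)))) (b (c (l 13159144) (l 13041488)) (c (l 13136376) (l 13014136)))) (a (l 13425120) (l 13786160))) (a (b (a (a (b (l 11219960) (c (l 11074664) (l 10453608))) (c (l 12035632) (b (l 11881408) (l 11412048)))) (a (c (l 12645808) (l 12391824)) (b (l 13013760) (c (l 13018864) (l 12804128))))) (a (b (a (b (l 10628048) (c (l 11067704) (l 10177840))) (l 11523824)) (a (c (a (l 11227368) (l 11597304)) (a (l 10070040) (l 10615784))) (a (c (l 11946016) (l 11095632)) (b (l 11810104) (c (b (l 12382504) (l 12552496)) (c (b (l 11875136) (l 12019920)) (l 11593504))))))) (b (b (a (a (l 12084696) (c (l 12689952) (a (l 12205096) (l 12362840)))) (c (c (l 13152112) (l 12988432)) (l 12730872))) (a (c (l 12609784) (l 12191504)) (c (a (b (l 12988344) (l 13069424)) (b (l 13184208) (a (l 13205808) (l 13272488)))) (a (l 12691088) (b (l 12935272) (l 12992936)))))) (a (c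 (a (b (l 12577008) (b (l 12791360) (l 12932264))) (l 13036472)) (a (b (l 12050336) (b (l 12129176) (l 12375664))) (l 12646416))) (c (c (l 13431680) (b (l 13212352) (l 13365848))) (l 12980152)))))) (b (a (b (a (l 13086584) (l 13533328)) (a (b (l 13278912) (l 13264280)) (b (l 13528648) (l 13518328)))) (l 13786400)) (a (b (a (c (l 13343912) (l 13193248)) (l 13538592)) (l 13550944)) (l 13844896))))) (a (b (l 14744992) (b (l 14744976) (l 14768800))) (l 15655680))) (a (b (l 16437680) (l 16572496)) (b (l 1) (l 16767352)))), by decide +kernel⟩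

theorem s2_pm_213 : ∃ t, chk3 f_pm_213 t 1 1 1 = true := ex3_b k0_pm_213 k1_pm_213

theorem c_pm_213 : CertNX 1073741824 536870912 1610612736 469762048 1046898278 26843546 3 false true false .pnn 2 1 3
    ndN7q2 ndN1q3 pcN1 Cut.none Ext.none :=
  certNX0 (fam := false) (s1 := true) (s2 := false) (a := 2) (b := 1) (c := 3) (cn := .pnn) (n1 := ndN7q2) (n2 := ndN1q3) (pc := pcN1) (cut := Cut.none) (xt := Ext.none) (P1 := 1073741824) (W1 := 536870912) (P2 := 1610612736) (W2 := 469762048) (P3 := 1046898278) (W3 := 26843546) (N0 := 3)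
    rfl s2_pm_213

noncomputable def f_pm_303 : ℕ → ℕ → ℕ → ℕ → Bool := onCell 0 1230186008 0 536870912 1046898278 26843546
    (rowNX 3 1 false true false .npn 3 0 3 (qsf 0 1230186008 1610612736 469762048 0) ndN7q3 ndN1q3 pcN0 Cut.none Ext.none)

def k0_pm_303 : ∃ t, chk3 f_pm_303 t 2 1 1 = true :=
  ⟨(a (l 2) (b (b (l 3) (l 2)) (l 2))), by decide +kernel⟩

def k1_pm_303 : ∃ t, chk3 f_pm_303 t 6 1 1 = true :=
  ⟨(b (l 3) (l 2)), by decide +kernel⟩

def k2_pm_303 : ∃ t, chk3 f_pm_303 t 14 1 1 = true :=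
  ⟨(b (a (l 3) (b (b (b (a (c (c (b (b (l 14096536) (l 14154440)) (l 14273896)) (b (b (l 14050656) (l 14115192)) (l 14247392))) (b (c (b (l 14007088) (l 14083600)) (b (c (l 13977152) (b (l 13938576) (l 13968032))) (c (b (l 14030792) (l 14075832)) (l 14028496)))) (c (b (c (l 14179464) (l 14158560)) (l 14224920)) (l 14157264)))) (b (c (b (l 14184776) (c (l 14281848) (l 14222904))) (b (c (l 14143928) (l 14125832)) (l 14167080))) (c (c (b (l 14285472) (l 14369744)) (l 14305328)) (l 14064968)))) (c (b (c (l 14198056) (c (b (l 14398984) (l 14469904)) (b (l 14316352) (l 14427232)))) (c (c (b (l 14607512) (l 272893443783)) (b (l 14569064) (l 14608272))) (l 14551304))) (a (l 14405112) (b (l 14396208) (l 14531728))))) (b (b (c (b (l 14493720) (a (l 287926390183) (l 15158632))) (b (l 14526992) (a (l 14658936) (l 15101712)))) (a (a (l 14861320) (c (l 15112208) (l 15053696))) (a (c (l 15240496) (l 15186488)) (l 15603448)))) (a (c (l 15469168) (l 15423176)) (b (c (l 15701048) (l 15663232)) (l 15781048)))))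 (b (a (l 309940651351) (b (l 15936776) (l 16227440))) (b (a (l 16501592) (l 16567720)) (l 16759176))))) (b (b (a (l 3) (l 16760440)) (l 2)) (l 2))), by decide +kernel⟩

def k3_pm_303 : ∃ t, chk3 f_pm_303 t 15 1 1 = true :=
  ⟨(a (b (b (b (b (b (c (b (l 14404648) (c (l 14329160) (a (l 14376152) (l 14518424)))) (b (c (b (l 14375176) (l 14216744)) (b (a (l 14268432) (l 14328248)) (l 14366776))) (c (l 14367632) (l 14409400)))) (c (b (a (l 14385992) (l 14548888)) (l 14469648)) (l 14312960))) (c (b (c (l 14548032) (l 14520744)) (c (l 14681784) (l 14704232))) (b (l 14455272) (l 14638376)))) (b (b (c (b (l 14958392) (l 15162224)) (a (l 14738352) (l 15043792))) (a (a (c (l 15791504) (l 15756848)) (l 15699536)) (l 15638184))) (a (b (b (a (l 16251216) (l 16307376)) (l 16433288)) (l 16453008)) (b (b (l 16026760) (l 16216728)) (l 16435920))))) (b (b (a (l 16362096) (b (l 16630288) (l 16758184))) (a (l 16481504) (l 16748184))) (b (l 16724584) (l 16771384)))) (b (b (l 16767336) (l 16759200)) (l 2))) (b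 (b (b (b (b (c (l 14733352) (b (l 14668184) (l 14694264))) (c (b (l 14760728) (l 14721584)) (l 14676472))) (c (b (l 14827984) (c (l 14996648) (l 14972632))) (l 14703128))) (b (b (c (l 15250520) (l 15185656)) (l 15583792)) (b (b (l 15922896) (l 16198864)) (l 16297408)))) (b (b (l 16489632) (l 16636264)) (b (l 16724576) (l 16777144)))) (b (l 16767624) (l 16743992)))), by decide +kernel⟩

theorem s4_pm_303 : ∃ t, chk3 f_pm_303 t 7 1 1 = true := ex3_a k2_pm_303 k3_pm_303

theorem s5_pm_303 : ∃ t, chk3 f_pm_303 t 3 1 1 = true := ex3_a k1_pm_303 s4_pm_303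

theorem s6_pm_303 : ∃ t, chk3 f_pm_303 t 1 1 1 = true := ex3_a k0_pm_303 s5_pm_303

theorem c_pm_303 : CertNX 0 1230186008 1610612736 469762048 1046898278 26843546 3 false true false .npn 3 0 3
    ndN7q3 ndN1q3 pcN0 Cut.none Ext.none :=
  certNX1 (fam := false) (s1 := true) (s2 := false) (a := 3) (b := 0) (c := 3) (cn := .npn) (n1 := ndN7q3) (n2 := ndN1q3) (pc := pcN0) (cut := Cut.none) (xt := Ext.none) (P1 := 0) (W1 := 1230186008) (P2 := 1610612736) (W2 := 469762048) (P3 := 1046898278) (W3 := 26843546) (N0 := 3)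
    rfl (fun _ => rfl) s6_pm_303

noncomputable def f_pm_313 : ℕ → ℕ → ℕ → ℕ → Bool := onCell 0 1230186008 1610612736 469762048 1046898278 26843546
    (rowNX 3 0 false true false .dn 3 1 3 (qsf 0 1230186008 1610612736 469762048 1) ndN7q3 ndN1q3 pcN1 Cut.none Ext.none)

def k0_pm_313 : ∃ t, chk3 f_pm_313 t 1 1 1 = true :=
  ⟨(l 1), by decide +kernel⟩

theorem c_pm_313 : CertNX 0 1230186008 1610612736 469762048 1046898278 26843546 3 false true false .dn 3 1 3
    ndN7q3 ndN1q3 pcN1 Cut.none Ext.none :=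
  certNX0 (fam := false) (s1 := true) (s2 := false) (a := 3) (b := 1) (c := 3) (cn := .dn) (n1 := ndN7q3) (n2 := ndN1q3) (pc := pcN1) (cut := Cut.none) (xt := Ext.none) (P1 := 0) (W1 := 1230186008) (P2 := 1610612736) (W2 := 469762048) (P3 := 1046898278) (W3 := 26843546) (N0 := 3)
    rfl k0_pm_313

noncomputable def f_mm_001 : ℕ → ℕ → ℕ → ℕ → Bool := onCell 0 536870912 536870912 536870912 1046898278 26843546
    (rowNX 3 0 false false false .up 0 0 1 (qsf 0 536870912 536870912 536870912 0) ndN7q0 ndN1q1 pcN0 Cut.none Ext.none)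

def k0_mm_001 : ∃ t, chk3 f_mm_001 t 1 1 1 = true :=
  ⟨(l 5), by decide +kernel⟩

theorem c_mm_001 : CertNX 0 536870912 536870912 536870912 1046898278 26843546 3 false false false .up 0 0 1
    ndN7q0 ndN1q1 pcN0 Cut.none Ext.none :=
  certNX0 (fam := false) (s1 := false) (s2 := false) (a := 0) (b := 0) (c := 1) (cn := .up) (n1 := ndN7q0) (n2 := ndN1q1) (pc := pcN0) (cut := Cut.none) (xt := Ext.none) (P1 := 0) (W1 := 536870912) (P2 := 536870912) (W2 := 536870912) (P3 := 1046898278) (W3 := 26843546) (N0 := 3)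
    rfl k0_mm_001

noncomputable def f_mm_011 : ℕ → ℕ → ℕ → ℕ → Bool := onCell 0 536870912 536870912 536870912 1046898278 26843546
    (rowNX 3 0 false false false .pnn 0 1 1 (qsf 0 536870912 536870912 536870912 1) ndN7q0 ndN1q1 pcN1 Cut.none Ext.none)

def k0_mm_011 : ∃ t, chk3 f_mm_011 t 1 1 1 = true :=
  ⟨(l 5), by decide +kernel⟩

theorem c_mm_011 : CertNX 0 536870912 536870912 536870912 1046898278 26843546 3 false false false .pnn 0 1 1
    ndN7q0 ndN1q1 pcN1 Cut.none Ext.none :=
  certNX0 (fam := false) (s1 := false) (s2 := false) (a := 0) (b := 1) (c := 1) (cn := .pnn) (n1 := ndN7q0) (n2 := ndN1q1) (pc := pcN1) (cut := Cut.none) (xt := Ext.none) (P1 := 0) (W1 := 536870912) (P2 := 536870912) (W2 := 536870912) (P3 := 1046898278) (W3 := 26843546) (N0 := 3)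
    rfl k0_mm_011

noncomputable def f_mm_012_a : ℕ → ℕ → ℕ → ℕ → Bool := onCell 0 536870912 0 420477299 1046898278 26843546
    (rowNX 3 0 false false false .pnp 0 1 2 (qsf 0 536870912 0 420477299 1) ndN7q0 ndN1q2a pcN1 Cut.none Ext.none)

def k0_mm_012_a : ∃ t, chk3 f_mm_012_a t 1 1 1 = true :=
  ⟨(l 5), by decide +kernel⟩

theorem c_mm_012_a : CertNX 0 536870912 0 420477299 1046898278 26843546 3 false false false .pnp 0 1 2
    ndN7q0 ndN1q2a pcN1 Cut.none Ext.none :=
  certNX0 (fam := false) (s1 := false) (s2 := false) (a := 0) (b := 1) (c := 2) (cn := .pnp) (n1 := ndN7q0) (n2 := ndN1q2a) (pc := pcN1) (cut := Cut.none) (xt := Ext.none) (P1 := 0) (W1 := 536870912) (P2 := 0) (W2 := 420477299) (P3 := 1046898278) (W3 := 26843546) (N0 := 3)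
    rfl k0_mm_012_a

noncomputable def f_mm_012_b : ℕ → ℕ → ℕ → ℕ → Bool := onCell 0 536870912 1239849684 370763052 1046898278 26843546
    (rowNX 3 0 false false false .pnp 0 1 2 (qsf 0 536870912 1239849684 370763052 1) ndN7q0 ndN1q2b pcN1 Cut.none Ext.none)

def k0_mm_012_b : ∃ t, chk3 f_mm_012_b t 1 1 1 = true :=
  ⟨(l 5), by decide +kernel⟩

theorem c_mm_012_b : CertNX 0 536870912 1239849684 370763052 1046898278 26843546 3 false false false .pnp 0 1 2
    ndN7q0 ndN1q2b pcN1 Cut.none Ext.none :=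
  certNX0 (fam := false) (s1 := false) (s2 := false) (a := 0) (b := 1) (c := 2) (cn := .pnp) (n1 := ndN7q0) (n2 := ndN1q2b) (pc := pcN1) (cut := Cut.none) (xt := Ext.none) (P1 := 0) (W1 := 536870912) (P2 := 1239849684) (W2 := 370763052) (P3 := 1046898278) (W3 := 26843546) (N0 := 3)
    rfl k0_mm_012_b

noncomputable def f_mm_022_a : ℕ → ℕ → ℕ → ℕ → Bool := onCell 0 536870912 0 420477299 1046898278 26843546
    (rowNX 3 0 false false false .pp 0 2 2 (qsf 0 536870912 0 420477299 2) ndN7q0 ndN1q2a pcN2 Cut.none Ext.none)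

def k0_mm_022_a : ∃ t, chk3 f_mm_022_a t 1 1 1 = true :=
  ⟨(l 5), by decide +kernel⟩

theorem c_mm_022_a : CertNX 0 536870912 0 420477299 1046898278 26843546 3 false false false .pp 0 2 2
    ndN7q0 ndN1q2a pcN2 Cut.none Ext.none :=
  certNX0 (fam := false) (s1 := false) (s2 := false) (a := 0) (b := 2) (c := 2) (cn := .pp) (n1 := ndN7q0) (n2 := ndN1q2a) (pc := pcN2) (cut := Cut.none) (xt := Ext.none) (P1 := 0) (W1 := 536870912) (P2 := 0) (W2 := 420477299) (P3 := 1046898278) (W3 := 26843546) (N0 := 3)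
    rfl k0_mm_022_a

noncomputable def f_mm_022_b : ℕ → ℕ → ℕ → ℕ → Bool := onCell 0 536870912 1239849684 370763052 1046898278 26843546
    (rowNX 3 0 false false false .pp 0 2 2 (qsf 0 536870912 1239849684 370763052 2) ndN7q0 ndN1q2b pcN2 Cut.none Ext.none)

def k0_mm_022_b : ∃ t, chk3 f_mm_022_b t 1 1 1 = true :=
  ⟨(l 5), by decide +kernel⟩

theorem c_mm_022_b : CertNX 0 536870912 1239849684 370763052 1046898278 26843546 3 false false false .pp 0 2 2
    ndN7q0 ndN1q2b pcN2 Cut.none Ext.none :=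
  certNX0 (fam := false) (s1 := false) (s2 := false) (a := 0) (b := 2) (c := 2) (cn := .pp) (n1 := ndN7q0) (n2 := ndN1q2b) (pc := pcN2) (cut := Cut.none) (xt := Ext.none) (P1 := 0) (W1 := 536870912) (P2 := 1239849684) (W2 := 370763052) (P3 := 1046898278) (W3 := 26843546) (N0 := 3)
    rfl k0_mm_022_b

noncomputable def f_mm_023 : ℕ → ℕ → ℕ → ℕ → Bool := onCell 0 536870912 1610612736 469762048 1046898278 26843546
    (rowNX 3 0 false false false .up 0 2 3 (qsf 0 536870912 1610612736 469762048 2) ndN7q0 ndN1q3 pcN2 Cut.none Ext.none)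

def k0_mm_023 : ∃ t, chk3 f_mm_023 t 1 1 1 = true :=
  ⟨(l 4), by decide +kernel⟩

theorem c_mm_023 : CertNX 0 536870912 1610612736 469762048 1046898278 26843546 3 false false false .up 0 2 3
    ndN7q0 ndN1q3 pcN2 Cut.none Ext.none :=
  certNX0 (fam := false) (s1 := false) (s2 := false) (a := 0) (b := 2) (c := 3) (cn := .up) (n1 := ndN7q0) (n2 := ndN1q3) (pc := pcN2) (cut := Cut.none) (xt := Ext.none) (P1 := 0) (W1 := 536870912) (P2 := 1610612736) (W2 := 469762048) (P3 := 1046898278) (W3 := 26843546) (N0 := 3)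
    rfl k0_mm_023

noncomputable def f_mm_033 : ℕ → ℕ → ℕ → ℕ → Bool := onCell 0 536870912 1610612736 469762048 1046898278 26843546
    (rowNX 3 0 false false false .pnn 0 3 3 (qsf 0 536870912 1610612736 469762048 3) ndN7q0 ndN1q3 pcN3 Cut.none Ext.none)

def k0_mm_033 : ∃ t, chk3 f_mm_033 t 1 1 1 = true :=
  ⟨(l 4), by decide +kernel⟩

theorem c_mm_033 : CertNX 0 536870912 1610612736 469762048 1046898278 26843546 3 false false false .pnn 0 3 3
    ndN7q0 ndN1q3 pcN3 Cut.none Ext.none :=
  certNX0 (fam := false) (s1 := false) (s2 := false) (a := 0) (b := 3) (c := 3) (cn := .pnn) (n1 := ndN7q0) (n2 := ndN1q3) (pc := pcN3) (cut := Cut.none) (xt := Ext.none) (P1 := 0) (W1 := 536870912) (P2 := 1610612736) (W2 := 469762048) (P3 := 1046898278) (W3 := 26843546) (N0 := 3)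
    rfl k0_mm_033

noncomputable def f_mm_101 : ℕ → ℕ → ℕ → ℕ → Bool := onCell 0 536870912 536870912 536870912 1046898278 26843546
    (rowNX 3 2 false false false .npn 1 0 1 (qsf 536870912 536870912 536870912 536870912 0) ndN7q1 ndN1q1 pcN0 Cut.none Ext.none)

def k0_mm_101 : ∃ t, chk3 f_mm_101 t 1 1 1 = true :=
  ⟨(l 5), by decide +kernel⟩

theorem c_mm_101 : CertNX 536870912 536870912 536870912 536870912 1046898278 26843546 3 false false false .npn 1 0 1
    ndN7q1 ndN1q1 pcN0 Cut.none Ext.none :=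
  certNX2 (fam := false) (s1 := false) (s2 := false) (a := 1) (b := 0) (c := 1) (cn := .npn) (n1 := ndN7q1) (n2 := ndN1q1) (pc := pcN0) (cut := Cut.none) (xt := Ext.none) (P1 := 536870912) (W1 := 536870912) (P2 := 536870912) (W2 := 536870912) (P3 := 1046898278) (W3 := 26843546) (N0 := 3)
    rfl (fun _ => rfl) k0_mm_101

noncomputable def f_mm_102_a : ℕ → ℕ → ℕ → ℕ → Bool := onCell 536870912 536870912 0 420477299 1046898278 26843546
    (rowNX 3 0 false false false .npp 1 0 2 (qsf 536870912 536870912 0 420477299 0) ndN7q1 ndN1q2a pcN0 Cut.none Ext.none)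

def k0_mm_102_a : ∃ t, chk3 f_mm_102_a t 1 1 1 = true :=
  ⟨(l 5), by decide +kernel⟩

theorem c_mm_102_a : CertNX 536870912 536870912 0 420477299 1046898278 26843546 3 false false false .npp 1 0 2
    ndN7q1 ndN1q2a pcN0 Cut.none Ext.none :=
  certNX0 (fam := false) (s1 := false) (s2 := false) (a := 1) (b := 0) (c := 2) (cn := .npp) (n1 := ndN7q1) (n2 := ndN1q2a) (pc := pcN0) (cut := Cut.none) (xt := Ext.none) (P1 := 536870912) (W1 := 536870912) (P2 := 0) (W2 := 420477299) (P3 := 1046898278) (W3 := 26843546) (N0 := 3)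
    rfl k0_mm_102_a

noncomputable def f_mm_102_b : ℕ → ℕ → ℕ → ℕ → Bool := onCell 536870912 536870912 1239849684 370763052 1046898278 26843546
    (rowNX 3 0 false false false .npp 1 0 2 (qsf 536870912 536870912 1239849684 370763052 0) ndN7q1 ndN1q2b pcN0 Cut.none Ext.none)

def k0_mm_102_b : ∃ t, chk3 f_mm_102_b t 1 1 1 = true :=
  ⟨(l 5), by decide +kernel⟩

theorem c_mm_102_b : CertNX 536870912 536870912 1239849684 370763052 1046898278 26843546 3 false false false .npp 1 0 2
    ndN7q1 ndN1q2b pcN0 Cut.none Ext.none :=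
  certNX0 (fam := false) (s1 := false) (s2 := false) (a := 1) (b := 0) (c := 2) (cn := .npp) (n1 := ndN7q1) (n2 := ndN1q2b) (pc := pcN0) (cut := Cut.none) (xt := Ext.none) (P1 := 536870912) (W1 := 536870912) (P2 := 1239849684) (W2 := 370763052) (P3 := 1046898278) (W3 := 26843546) (N0 := 3)
    rfl k0_mm_102_b

noncomputable def f_mm_112_a : ℕ → ℕ → ℕ → ℕ → Bool := onCell 536870912 536870912 0 420477299 1046898278 26843546
    (rowNX 3 0 false false false .dn 1 1 2 (qsf 536870912 536870912 0 420477299 1) ndN7q1 ndN1q2a pcN1 Cut.none Ext.none)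

def k0_mm_112_a : ∃ t, chk3 f_mm_112_a t 1 1 1 = true :=
  ⟨(l 5), by decide +kernel⟩

theorem c_mm_112_a : CertNX 536870912 536870912 0 420477299 1046898278 26843546 3 false false false .dn 1 1 2
    ndN7q1 ndN1q2a pcN1 Cut.none Ext.none :=
  certNX0 (fam := false) (s1 := false) (s2 := false) (a := 1) (b := 1) (c := 2) (cn := .dn) (n1 := ndN7q1) (n2 := ndN1q2a) (pc := pcN1) (cut := Cut.none) (xt := Ext.none) (P1 := 536870912) (W1 := 536870912) (P2 := 0) (W2 := 420477299) (P3 := 1046898278) (W3 := 26843546) (N0 := 3)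
    rfl k0_mm_112_a

noncomputable def f_mm_112_b : ℕ → ℕ → ℕ → ℕ → Bool := onCell 536870912 536870912 1239849684 370763052 1046898278 26843546
    (rowNX 3 0 false false false .dn 1 1 2 (qsf 536870912 536870912 1239849684 370763052 1) ndN7q1 ndN1q2b pcN1 Cut.none Ext.none)

def k0_mm_112_b : ∃ t, chk3 f_mm_112_b t 1 1 1 = true :=
  ⟨(l 5), by decide +kernel⟩

theorem c_mm_112_b : CertNX 536870912 536870912 1239849684 370763052 1046898278 26843546 3 false false false .dn 1 1 2
    ndN7q1 ndN1q2b pcN1 Cut.none Ext.none :=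
  certNX0 (fam := false) (s1 := false) (s2 := false) (a := 1) (b := 1) (c := 2) (cn := .dn) (n1 := ndN7q1) (n2 := ndN1q2b) (pc := pcN1) (cut := Cut.none) (xt := Ext.none) (P1 := 536870912) (W1 := 536870912) (P2 := 1239849684) (W2 := 370763052) (P3 := 1046898278) (W3 := 26843546) (N0 := 3)
    rfl k0_mm_112_b

noncomputable def f_mm_113 : ℕ → ℕ → ℕ → ℕ → Bool := onCell 536870912 536870912 1610612736 469762048 1046898278 26843546
    (rowNX 3 0 false false false .nn 1 1 3 (qsf 536870912 536870912 1610612736 469762048 1) ndN7q1 ndN1q3 pcN1 Cut.none Ext.none)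

def k0_mm_113 : ∃ t, chk3 f_mm_113 t 1 1 1 = true :=
  ⟨(l 5), by decide +kernel⟩

theorem c_mm_113 : CertNX 536870912 536870912 1610612736 469762048 1046898278 26843546 3 false false false .nn 1 1 3
    ndN7q1 ndN1q3 pcN1 Cut.none Ext.none :=
  certNX0 (fam := false) (s1 := false) (s2 := false) (a := 1) (b := 1) (c := 3) (cn := .nn) (n1 := ndN7q1) (n2 := ndN1q3) (pc := pcN1) (cut := Cut.none) (xt := Ext.none) (P1 := 536870912) (W1 := 536870912) (P2 := 1610612736) (W2 := 469762048) (P3 := 1046898278) (W3 := 26843546) (N0 := 3)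
    rfl k0_mm_113

noncomputable def f_mm_123 : ℕ → ℕ → ℕ → ℕ → Bool := onCell 536870912 536870912 1610612736 469762048 1046898278 26843546
    (rowNX 3 0 false false false .npn 1 2 3 (qsf 536870912 536870912 1610612736 469762048 2) ndN7q1 ndN1q3 pcN2 Cut.none Ext.none)

def k0_mm_123 : ∃ t, chk3 f_mm_123 t 1 1 1 = true :=
  ⟨(l 5), by decide +kernel⟩

theorem c_mm_123 : CertNX 536870912 536870912 1610612736 469762048 1046898278 26843546 3 false false false .npn 1 2 3
    ndN7q1 ndN1q3 pcN2 Cut.none Ext.none :=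
  certNX0 (fam := false) (s1 := false) (s2 := false) (a := 1) (b := 2) (c := 3) (cn := .npn) (n1 := ndN7q1) (n2 := ndN1q3) (pc := pcN2) (cut := Cut.none) (xt := Ext.none) (P1 := 536870912) (W1 := 536870912) (P2 := 1610612736) (W2 := 469762048) (P3 := 1046898278) (W3 := 26843546) (N0 := 3)
    rfl k0_mm_123

noncomputable def f_mm_133 : ℕ → ℕ → ℕ → ℕ → Bool := onCell 536870912 536870912 1610612736 469762048 1046898278 26843546
    (rowNX 3 0 false false false .dn 1 3 3 (qsf 536870912 536870912 1610612736 469762048 3) ndN7q1 ndN1q3 pcN3 Cut.none Ext.none)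

def k0_mm_133 : ∃ t, chk3 f_mm_133 t 1 1 1 = true :=
  ⟨(l 1), by decide +kernel⟩

theorem c_mm_133 : CertNX 536870912 536870912 1610612736 469762048 1046898278 26843546 3 false false false .dn 1 3 3
    ndN7q1 ndN1q3 pcN3 Cut.none Ext.none :=
  certNX0 (fam := false) (s1 := false) (s2 := false) (a := 1) (b := 3) (c := 3) (cn := .dn) (n1 := ndN7q1) (n2 := ndN1q3) (pc := pcN3) (cut := Cut.none) (xt := Ext.none) (P1 := 536870912) (W1 := 536870912) (P2 := 1610612736) (W2 := 469762048) (P3 := 1046898278) (W3 := 26843546) (N0 := 3)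
    rfl k0_mm_133

noncomputable def f_mm_202_a : ℕ → ℕ → ℕ → ℕ → Bool := onCell 1073741824 536870912 0 420477299 1046898278 26843546
    (rowNX 3 0 false false false .pp 2 0 2 (qsf 1073741824 536870912 0 420477299 0) ndN7q2 ndN1q2a pcN0 Cut.none Ext.none)

def k0_mm_202_a : ∃ t, chk3 f_mm_202_a t 1 1 1 = true :=
  ⟨(l 5), by decide +kernel⟩

theorem c_mm_202_a : CertNX 1073741824 536870912 0 420477299 1046898278 26843546 3 false false false .pp 2 0 2
    ndN7q2 ndN1q2a pcN0 Cut.none Ext.none :=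
  certNX0 (fam := false) (s1 := false) (s2 := false) (a := 2) (b := 0) (c := 2) (cn := .pp) (n1 := ndN7q2) (n2 := ndN1q2a) (pc := pcN0) (cut := Cut.none) (xt := Ext.none) (P1 := 1073741824) (W1 := 536870912) (P2 := 0) (W2 := 420477299) (P3 := 1046898278) (W3 := 26843546) (N0 := 3)
    rfl k0_mm_202_a

noncomputable def f_mm_202_b : ℕ → ℕ → ℕ → ℕ → Bool := onCell 1073741824 536870912 1239849684 370763052 1046898278 26843546
    (rowNX 3 0 false false false .pp 2 0 2 (qsf 1073741824 536870912 1239849684 370763052 0) ndN7q2 ndN1q2b pcN0 Cut.none Ext.none)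

def k0_mm_202_b : ∃ t, chk3 f_mm_202_b t 1 1 1 = true :=
  ⟨(l 5), by decide +kernel⟩

theorem c_mm_202_b : CertNX 1073741824 536870912 1239849684 370763052 1046898278 26843546 3 false false false .pp 2 0 2
    ndN7q2 ndN1q2b pcN0 Cut.none Ext.none :=
  certNX0 (fam := false) (s1 := false) (s2 := false) (a := 2) (b := 0) (c := 2) (cn := .pp) (n1 := ndN7q2) (n2 := ndN1q2b) (pc := pcN0) (cut := Cut.none) (xt := Ext.none) (P1 := 1073741824) (W1 := 536870912) (P2 := 1239849684) (W2 := 370763052) (P3 := 1046898278) (W3 := 26843546) (N0 := 3)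
    rfl k0_mm_202_b

noncomputable def f_mm_203 : ℕ → ℕ → ℕ → ℕ → Bool := onCell 1073741824 536870912 1610612736 469762048 1046898278 26843546
    (rowNX 3 0 false false false .up 2 0 3 (qsf 1073741824 536870912 1610612736 469762048 0) ndN7q2 ndN1q3 pcN0 Cut.none Ext.none)

def k0_mm_203 : ∃ t, chk3 f_mm_203 t 1 1 1 = true :=
  ⟨(l 5), by decide +kernel⟩

theorem c_mm_203 : CertNX 1073741824 536870912 1610612736 469762048 1046898278 26843546 3 false false false .up 2 0 3
    ndN7q2 ndN1q3 pcN0 Cut.none Ext.none :=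
  certNX0 (fam := false) (s1 := false) (s2 := false) (a := 2) (b := 0) (c := 3) (cn := .up) (n1 := ndN7q2) (n2 := ndN1q3) (pc := pcN0) (cut := Cut.none) (xt := Ext.none) (P1 := 1073741824) (W1 := 536870912) (P2 := 1610612736) (W2 := 469762048) (P3 := 1046898278) (W3 := 26843546) (N0 := 3)
    rfl k0_mm_203

noncomputable def f_mm_213 : ℕ → ℕ → ℕ → ℕ → Bool := onCell 1073741824 536870912 1610612736 469762048 1046898278 26843546
    (rowNX 3 0 false false false .pnn 2 1 3 (qsf 1073741824 536870912 1610612736 469762048 1) ndN7q2 ndN1q3 pcN1 Cut.none Ext.none)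

def k0_mm_213 : ∃ t, chk3 f_mm_213 t 1 1 1 = true :=
  ⟨(l 5), by decide +kernel⟩

theorem c_mm_213 : CertNX 1073741824 536870912 1610612736 469762048 1046898278 26843546 3 false false false .pnn 2 1 3
    ndN7q2 ndN1q3 pcN1 Cut.none Ext.none :=
  certNX0 (fam := false) (s1 := false) (s2 := false) (a := 2) (b := 1) (c := 3) (cn := .pnn) (n1 := ndN7q2) (n2 := ndN1q3) (pc := pcN1) (cut := Cut.none) (xt := Ext.none) (P1 := 1073741824) (W1 := 536870912) (P2 := 1610612736) (W2 := 469762048) (P3 := 1046898278) (W3 := 26843546) (N0 := 3)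
    rfl k0_mm_213

noncomputable def f_mm_303 : ℕ → ℕ → ℕ → ℕ → Bool := onCell 0 1230186008 1610612736 469762048 1046898278 26843546
    (rowNX 3 0 false false false .npn 3 0 3 (qsf 0 1230186008 1610612736 469762048 0) ndN7q3 ndN1q3 pcN0 Cut.none Ext.none)

def k0_mm_303 : ∃ t, chk3 f_mm_303 t 1 1 1 = true :=
  ⟨(a (l 3) (l 5)), by decide +kernel⟩

theorem c_mm_303 : CertNX 0 1230186008 1610612736 469762048 1046898278 26843546 3 false false false .npn 3 0 3
    ndN7q3 ndN1q3 pcN0 Cut.none Ext.none :=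
  certNX0 (fam := false) (s1 := false) (s2 := false) (a := 3) (b := 0) (c := 3) (cn := .npn) (n1 := ndN7q3) (n2 := ndN1q3) (pc := pcN0) (cut := Cut.none) (xt := Ext.none) (P1 := 0) (W1 := 1230186008) (P2 := 1610612736) (W2 := 469762048) (P3 := 1046898278) (W3 := 26843546) (N0 := 3)
    rfl k0_mm_303

noncomputable def f_mm_313 : ℕ → ℕ → ℕ → ℕ → Bool := onCell 0 1230186008 1610612736 469762048 1046898278 26843546
    (rowNX 3 0 false false false .dn 3 1 3 (qsf 0 1230186008 1610612736 469762048 1) ndN7q3 ndN1q3 pcN1 Cut.none Ext.none)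

def k0_mm_313 : ∃ t, chk3 f_mm_313 t 1 1 1 = true :=
  ⟨(l 1), by decide +kernel⟩

theorem c_mm_313 : CertNX 0 1230186008 1610612736 469762048 1046898278 26843546 3 false false false .dn 3 1 3
    ndN7q3 ndN1q3 pcN1 Cut.none Ext.none :=
  certNX0 (fam := false) (s1 := false) (s2 := false) (a := 3) (b := 1) (c := 3) (cn := .dn) (n1 := ndN7q3) (n2 := ndN1q3) (pc := pcN1) (cut := Cut.none) (xt := Ext.none) (P1 := 0) (W1 := 1230186008) (P2 := 1610612736) (W2 := 469762048) (P3 := 1046898278) (W3 := 26843546) (N0 := 3)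
    rfl k0_mm_313

end Pool.Agent.Strip051.G.IE1.Tab.C.NB71

namespace Pool.Agent.Strip051.G.IE1.Tab.C.NB72

open Pool.Agent.Strip051.PB Pool.Agent.Strip051.PB.T
open Pool.Agent.Strip051.G.IE1.Tab

noncomputable def f_pp_001 : ℕ → ℕ → ℕ → ℕ → Bool := onCell 0 536870912 0 536870912 1046898278 26843546
    (rowNX 3 1 false true true .up 0 0 1 (qsf 0 536870912 536870912 536870912 0) ndN7q0 ndN2q1 pcN0 Cut.none Ext.none)

def k0_pp_001 : ∃ t, chk3 f_pp_001 t 1 1 1 = true :=
  ⟨(l 3), by decide +kernel⟩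

theorem c_pp_001 : CertNX 0 536870912 536870912 536870912 1046898278 26843546 3 false true true .up 0 0 1
    ndN7q0 ndN2q1 pcN0 Cut.none Ext.none :=
  certNX1 (fam := false) (s1 := true) (s2 := true) (a := 0) (b := 0) (c := 1) (cn := .up) (n1 := ndN7q0) (n2 := ndN2q1) (pc := pcN0) (cut := Cut.none) (xt := Ext.none) (P1 := 0) (W1 := 536870912) (P2 := 536870912) (W2 := 536870912) (P3 := 1046898278) (W3 := 26843546) (N0 := 3)
    rfl (fun _ => rfl) k0_pp_001

noncomputable def f_pp_011 : ℕ → ℕ → ℕ → ℕ → Bool := onCell 536870912 536870912 536870912 536870912 1046898278 26843546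
    (rowNX 3 2 false true true .pnn 0 1 1 (qsf 0 536870912 536870912 536870912 1) ndN7q0 ndN2q1 pcN1 Cut.none Ext.none)

def k0_pp_011 : ∃ t, chk3 f_pp_011 t 1 1 1 = true :=
  ⟨(a (l 3) (a (l 3) (b (l 1) (b (a (l 3) (l 1)) (b (a (a (l 3) (b (l 15421528) (l 15082856))) (a (a (b (l 1) (l 14715088)) (l 1)) (l 1))) (a (a (l 15050056) (b (l 14765728) (l 14489048))) (a (a (l 14231040) (c (a (l 14049824) (l 13933104)) (l 13892784))) (a (c (a (c (l 13896984) (l 13830848)) (c (l 13811272) (l 315170238423))) (l 13709584)) (b (l 1) (c (l 13494872) (a (c (l 13450400) (l 13392896)) (c (l 13360760) (l 13256000))))))))))))), by decide +kernel⟩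

theorem c_pp_011 : CertNX 0 536870912 536870912 536870912 1046898278 26843546 3 false true true .pnn 0 1 1
    ndN7q0 ndN2q1 pcN1 Cut.none Ext.none :=
  certNX2 (fam := false) (s1 := true) (s2 := true) (a := 0) (b := 1) (c := 1) (cn := .pnn) (n1 := ndN7q0) (n2 := ndN2q1) (pc := pcN1) (cut := Cut.none) (xt := Ext.none) (P1 := 0) (W1 := 536870912) (P2 := 536870912) (W2 := 536870912) (P3 := 1046898278) (W3 := 26843546) (N0 := 3)
    rfl (fun _ => rfl) k0_pp_011

noncomputable def f_pp_012_a : ℕ → ℕ → ℕ → ℕ → Bool := onCell 536870912 536870912 0 420477299 1046898278 26843546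
    (rowNX 3 2 false true true .pnp 0 1 2 (qsf 0 536870912 0 420477299 1) ndN7q0 ndN2q2a pcN1 Cut.none Ext.none)

def k0_pp_012_a : ∃ t, chk3 f_pp_012_a t 1 1 1 = true :=
  ⟨(a (b (a (l 2) (l 16242960)) (b (a (l 16554784) (l 16554784)) (a (b (l 16713464) (l 16262632)) (b (l 16713464) (l 16262632))))) (a (b (a (b (l 16445360) (l 16441512)) (a (l 16552712) (b (l 16125120) (l 16210648)))) (b (a (l 16596632) (a (l 16533176) (l 16190272))) (a (b (l 16688304) (l 16310936)) (b (a (l 16389568) (l 16056064)) (a (l 16122760) (l 15780560)))))) (b (a (a (l 15236240) (l 14974480)) (a (b (l 14360952) (l 14532992)) (b (a (l 13817584) (l 13530904)) (a (l 14016120) (l 13735528))))) (a (b (a (l 15588952) (l 15089544)) (b (a (l 15475304) (l 14968616)) (a (l 15197416) (l 14669488)))) (b (a (l 14564672) (a (l 14066064) (l 13786176))) (a (b (l 14435824) (l 14114952)) (b (c (l 13834448) (l 13788352)) (c (l 13507144) (l 13442912))))))))), by decide +kernel⟩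

theorem c_pp_012_a : CertNX 0 536870912 0 420477299 1046898278 26843546 3 false true true .pnp 0 1 2
    ndN7q0 ndN2q2a pcN1 Cut.none Ext.none :=
  certNX2 (fam := false) (s1 := true) (s2 := true) (a := 0) (b := 1) (c := 2) (cn := .pnp) (n1 := ndN7q0) (n2 := ndN2q2a) (pc := pcN1) (cut := Cut.none) (xt := Ext.none) (P1 := 0) (W1 := 536870912) (P2 := 0) (W2 := 420477299) (P3 := 1046898278) (W3 := 26843546) (N0 := 3)
    rfl (fun _ => rfl) k0_pp_012_a

noncomputable def f_pp_012_b : ℕ → ℕ → ℕ → ℕ → Bool := onCell 536870912 536870912 1239849684 370763052 1046898278 26843546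
    (rowNX 3 2 false true true .pnp 0 1 2 (qsf 0 536870912 1239849684 370763052 1) ndN7q0 ndN2q2b pcN1 Cut.none Ext.none)

def k0_pp_012_b : ∃ t, chk3 f_pp_012_b t 1 1 1 = true :=
  ⟨(a (a (l 2) (b (b (l 16655936) (l 16777216)) (l 2))) (a (a (b (b (l 16567688) (l 16700784)) (l 2)) (b (a (b (l 16366752) (l 16305152)) (b (l 15791640) (l 15850208))) (a (l 16314944) (l 15865296)))) (a (b (b (a (l 15173312) (l 14624432)) (l 14871392)) (a (l 15117376) (l 14550208))) (b (a (b (l 13989368) (l 13951592)) (b (c (l 13360088) (a (l 13514840) (l 13150384))) (c (l 13247144) (l 13217864)))) (a (l 13957256) (c (l 13244256) (l 13215040))))))), by decide +kernel⟩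

theorem c_pp_012_b : CertNX 0 536870912 1239849684 370763052 1046898278 26843546 3 false true true .pnp 0 1 2
    ndN7q0 ndN2q2b pcN1 Cut.none Ext.none :=
  certNX2 (fam := false) (s1 := true) (s2 := true) (a := 0) (b := 1) (c := 2) (cn := .pnp) (n1 := ndN7q0) (n2 := ndN2q2b) (pc := pcN1) (cut := Cut.none) (xt := Ext.none) (P1 := 0) (W1 := 536870912) (P2 := 1239849684) (W2 := 370763052) (P3 := 1046898278) (W3 := 26843546) (N0 := 3)
    rfl (fun _ => rfl) k0_pp_012_b

noncomputable def f_pp_022_a : ℕ → ℕ → ℕ → ℕ → Bool := onCell 1073741824 536870912 0 420477299 1046898278 26843546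
    (rowNX 3 2 false true true .pp 0 2 2 (qsf 0 536870912 0 420477299 2) ndN7q0 ndN2q2a pcN2 Cut.none Ext.none)

def k0_pp_022_a : ∃ t, chk3 f_pp_022_a t 1 1 1 = true :=
  ⟨(a (a (b (a (c (a (l 13619304) (c (l 13891504) (a (l 13780376) (l 13816600)))) (a (b (c (l 13465768) (l 13398672)) (c (l 13646016) (l 13373544))) (b (l 13684768) (l 13855920)))) (a (c (c (a (l 14104752) (l 14190024)) (l 13796744)) (l 13970576)) (b (l 14223280) (l 14323576)))) (a (b (c (a (l 13741680) (c (l 13995440) (l 13938776))) (a (c (l 13668344) (l 13481064)) (l 13868160))) (c (a (b (l 13593216) (l 13238992)) (c (l 13455640) (b (l 13781216) (l 13418704)))) (a (b (c (l 13514728) (l 13451200)) (c (l 13150312) (l 13080824))) (b (l 13705776) (l 13333368))))) (b (a (c (a (l 14147064) (l 14228160)) (l 14060744)) (l 14268520)) (a (b (c (a (l 13982840) (l 14053600)) (l 13889344)) (c (a (l 13618144) (l 13681968)) (l 13511096))) (b (l 14058744) (l 1)))))) (a (b (a (a (l 14661488) (l 14980400)) (b (l 1) (l 1))) (b (a (a (l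 14564928) (l 1)) (l 1)) (l 1))) (l 1))) (l 1)), by decide +kernel⟩

theorem c_pp_022_a : CertNX 0 536870912 0 420477299 1046898278 26843546 3 false true true .pp 0 2 2
    ndN7q0 ndN2q2a pcN2 Cut.none Ext.none :=
  certNX2 (fam := false) (s1 := true) (s2 := true) (a := 0) (b := 2) (c := 2) (cn := .pp) (n1 := ndN7q0) (n2 := ndN2q2a) (pc := pcN2) (cut := Cut.none) (xt := Ext.none) (P1 := 0) (W1 := 536870912) (P2 := 0) (W2 := 420477299) (P3 := 1046898278) (W3 := 26843546) (N0 := 3)
    rfl (fun _ => rfl) k0_pp_022_a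

noncomputable def f_pp_022_b : ℕ → ℕ → ℕ → ℕ → Bool := onCell 1073741824 536870912 1239849684 370763052 1046898278 26843546
    (rowNX 3 2 false true true .pp 0 2 2 (qsf 0 536870912 1239849684 370763052 2) ndN7q0 ndN2q2b pcN2 Cut.none Ext.none)

def k0_pp_022_b : ∃ t, chk3 f_pp_022_b t 1 1 1 = true :=
  ⟨(a (a (a (b (c (a (l 13137512) (b (c (l 13487888) (a (l 13367048) (l 13515224))) (l 13085784))) (a (b (c (l 13117784) (a (l 12991120) (l 13121648))) (c (l 12990936) (l 12914184))) (b (l 13336464) (l 13203448)))) (c (a (l 13068936) (c (l 13343704) (l 13272016))) (a (c (l 12979960) (l 12902944)) (l 13185192)))) (b (a (b (c (a (l 13636968) (l 13773112)) (l 13558792)) (c (l 13572968) (l 13421792))) (b (l 13917992) (l 13791664))) (a (c (a (l 13504872) (l 13620800)) (l 13399984)) (l 13788752)))) (a (b (l 4) (l 4)) (l 4))) (l 4)), by decide +kernel⟩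

theorem c_pp_022_b : CertNX 0 536870912 1239849684 370763052 1046898278 26843546 3 false true true .pp 0 2 2
    ndN7q0 ndN2q2b pcN2 Cut.none Ext.none :=
  certNX2 (fam := false) (s1 := true) (s2 := true) (a := 0) (b := 2) (c := 2) (cn := .pp) (n1 := ndN7q0) (n2 := ndN2q2b) (pc := pcN2) (cut := Cut.none) (xt := Ext.none) (P1 := 0) (W1 := 536870912) (P2 := 1239849684) (W2 := 370763052) (P3 := 1046898278) (W3 := 26843546) (N0 := 3)
    rfl (fun _ => rfl) k0_pp_022_b

noncomputable def f_pp_023 : ℕ → ℕ → ℕ → ℕ → Bool := onCell 1073741824 536870912 1610612736 469762048 1046898278 26843546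
    (rowNX 3 2 false true true .up 0 2 3 (qsf 0 536870912 1610612736 469762048 2) ndN7q0 ndN2q3 pcN2 Cut.none Ext.none)

def k0_pp_023 : ∃ t, chk3 f_pp_023 t 1 1 1 = true :=
  ⟨(a (a (b (a (b (c (l 13056720) (a (l 12919504) (l 13156784))) (l 2)) (a (b (l 13301152) (l 2)) (l 13786216))) (l 2)) (b (l 4) (l 4))) (l 4)), by decide +kernel⟩

theorem c_pp_023 : CertNX 0 536870912 1610612736 469762048 1046898278 26843546 3 false true true .up 0 2 3
    ndN7q0 ndN2q3 pcN2 Cut.none Ext.none :=
  certNX2 (fam := false) (s1 := true) (s2 := true) (a := 0) (b := 2) (c := 3) (cn := .up) (n1 := ndN7q0) (n2 := ndN2q3) (pc := pcN2) (cut := Cut.none) (xt := Ext.none) (P1 := 0) (W1 := 536870912) (P2 := 1610612736) (W2 := 469762048) (P3 := 1046898278) (W3 := 26843546) (N0 := 3)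
    rfl (fun _ => rfl) k0_pp_023

noncomputable def f_pp_033 : ℕ → ℕ → ℕ → ℕ → Bool := onCell 1610612736 536870912 1610612736 469762048 1046898278 26843546
    (rowNX 3 2 false true true .pnn 0 3 3 (qsf 0 536870912 1610612736 469762048 3) ndN7q0 ndN2q3 pcN3 Cut.none Ext.none)

def k0_pp_033 : ∃ t, chk3 f_pp_033 t 1 1 1 = true :=
  ⟨(l 4), by decide +kernel⟩

theorem c_pp_033 : CertNX 0 536870912 1610612736 469762048 1046898278 26843546 3 false true true .pnn 0 3 3
    ndN7q0 ndN2q3 pcN3 Cut.none Ext.none :=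
  certNX2 (fam := false) (s1 := true) (s2 := true) (a := 0) (b := 3) (c := 3) (cn := .pnn) (n1 := ndN7q0) (n2 := ndN2q3) (pc := pcN3) (cut := Cut.none) (xt := Ext.none) (P1 := 0) (W1 := 536870912) (P2 := 1610612736) (W2 := 469762048) (P3 := 1046898278) (W3 := 26843546) (N0 := 3)
    rfl (fun _ => rfl) k0_pp_033

noncomputable def f_pp_101 : ℕ → ℕ → ℕ → ℕ → Bool := onCell 536870912 536870912 536870912 536870912 1046898278 26843546
    (rowNX 3 0 false true true .npn 1 0 1 (qsf 536870912 536870912 536870912 536870912 0) ndN7q1 ndN2q1 pcN0 Cut.none Ext.none)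

def k0_pp_101 : ∃ t, chk3 f_pp_101 t 1 1 1 = true :=
  ⟨(l 3), by decide +kernel⟩

theorem c_pp_101 : CertNX 536870912 536870912 536870912 536870912 1046898278 26843546 3 false true true .npn 1 0 1
    ndN7q1 ndN2q1 pcN0 Cut.none Ext.none :=
  certNX0 (fam := false) (s1 := true) (s2 := true) (a := 1) (b := 0) (c := 1) (cn := .npn) (n1 := ndN7q1) (n2 := ndN2q1) (pc := pcN0) (cut := Cut.none) (xt := Ext.none) (P1 := 536870912) (W1 := 536870912) (P2 := 536870912) (W2 := 536870912) (P3 := 1046898278) (W3 := 26843546) (N0 := 3)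
    rfl k0_pp_101

noncomputable def f_pp_102_a : ℕ → ℕ → ℕ → ℕ → Bool := onCell 536870912 536870912 0 420477299 1046898278 26843546
    (rowNX 3 0 false true true .npp 1 0 2 (qsf 536870912 536870912 0 420477299 0) ndN7q1 ndN2q2a pcN0 Cut.none Ext.none)

def k0_pp_102_a : ∃ t, chk3 f_pp_102_a t 2 1 1 = true :=
  ⟨(b (a (l 2) (a (b (l 16516808) (l 16512512)) (l 15833120))) (a (b (l 16554784) (b (l 16713464) (l 16094864))) (b (a (l 16542280) (l 15961568)) (a (b (l 16607416) (l 16382136)) (b (l 16065640) (l 16240512)))))), by decide +kernel⟩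

def k1_pp_102_a : ∃ t, chk3 f_pp_102_a t 3 2 1 = true :=
  ⟨(a (a (b (l 15212016) (l 15208648)) (b (l 14268152) (l 14265280))) (a (b (a (l 13320672) (c (a (l 13195256) (c (a (l 13153856) (b (l 13092032) (l 13063208))) (b (l 13030072) (l 12999800)))) (b (l 12955264) (l 12923776)))) (a (c (l 13377968) (l 13279776)) (c (a (b (l 13176320) (c (a (l 13245192) (l 13227464)) (l 13125936))) (b (c (a (l 13137080) (l 13064016)) (l 12999192)) (c (l 13128744) (l 13034592)))) (b (l 12921808) (l 12957256))))) (b (c (a (c (b (l 12907016) (l 12860976)) (a (b (l 12916808) (l 12878096)) (l 12762552))) (b (a (l 12705248) (l 12627248)) (l 12608488))) (a (a (l 12747568) (b (l 12677040) (l 12621560))) (a (c (b (l 12613752) (l 12550032)) (b (l 12544336) (l 12480472))) (c (b (l 12516960) (l 12457872)) (b (c (l 12467104) (l 12425096)) (c (l 12406040) (a (l 12392464) (l 12344424)))))))) (a (c (c (b (l 12847136) (l 12868048)) (a (b (l 12870840) (l 12897744)) (l 12722440))) (a (l 12734544) (c (b (l 12649936) (l 12665744))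 (l 12567336)))) (c (b (l 12560672) (a (l 12605824) (l 12535032))) (a (c (b (l 12512176) (c (l 12542296) (l 12499248))) (b (l 12441912) (l 12445408))) (c (b (l 12406600) (l 12425768)) (b (c (l 12354512) (a (l 12337656) (l 12293840))) (c (a (l 12383280) (l 12360104)) (a (l 12347376) (l 12322392))))))))))), by decide +kernel⟩

def k2_pp_102_a : ∃ t, chk3 f_pp_102_a t 6 3 1 = true :=
  ⟨(b (a (l 15281832) (a (l 14662256) (l 14053976))) (a (b (l 15426024) (l 15599816)) (b (a (l 14836632) (b (l 14184600) (a (l 14464288) (l 14074120)))) (a (b (l 15036056) (l 15201568)) (b (a (l 14617216) (l 14320544)) (a (a (l 14867952) (l 14730272)) (l 14523720))))))), by decide +kernel⟩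

def k3_pp_102_a : ∃ t, chk3 f_pp_102_a t 14 3 1 = true :=
  ⟨(a (b (a (b (l 13524728) (l 13608936)) (b (c (l 13356392) (l 13235120)) (c (l 13436872) (l 13318888)))) (b (a (b (b (l 13676040) (l 13726920)) (l 13836472)) (c (b (l 13520024) (l 13667520)) (l 13481000))) (a (b (l 14016968) (l 14243896)) (c (b (l 13866688) (l 14113784)) (l 13890624))))) (c (c (b (a (b (a (l 13302000) (l 13283400)) (c (l 13411728) (l 13310296))) (c (l 13247312) (b (l 13164248) (l 13230000)))) (b (a (b (c (a (l 13483032) (l 13473520)) (l 13389696)) (c (l 13651960) (l 13552864))) (b (c (l 13352232) (a (l 13339280) (l 13286136))) (c (l 13528840) (a (l 13514248) (l 13468768))))) (a (b (c (a (l 13854552) (l 13864704)) (l 13774160)) (a (l 14093312) (c (a (l 14145592) (l 14160616)) (l 14038104)))) (b (a (c (l 13832016) (l 13758560)) (c (l 13750008) (l 13747416))) (c (l 14123568) (a (c (l 14105664) (l 14031128)) (l 14101192))))))) (b (b (a (l 13183176) (l 13086648)) (l 13211312)) (a (b (l 13419688) (b (l 13727952) (l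 14011368))) (a (b (l 13307760) (b (l 13645648) (l 13974768))) (b (b (l 13188664) (l 13373904)) (c (b (l 13674912) (l 14031952)) (l 13774456))))))) (b (b (l 13013256) (l 13086144)) (b (b (l 13168520) (l 13345392)) (b (l 13600712) (a (l 13939928) (l 13898432))))))), by decide +kernel⟩

def k4_pp_102_a : ∃ t, chk3 f_pp_102_a t 15 6 1 = true :=
  ⟨(a (c (a (c (l 12937992) (b (c (l 12972456) (l 12913904)) (c (l 13030888) (l 12972944)))) (b (c (l 12795600) (l 12760008)) (c (l 12869216) (a (l 12862784) (l 12798976))))) (a (l 12823992) (b (c (l 12699552) (l 12606600)) (c (c (a (l 12827920) (l 12783728)) (l 12742848)) (l 12684784))))) (c (b (a (l 12652680) (l 12614320)) (b (l 12720112) (l 12803040))) (a (c (b (a (c (l 12614136) (l 12586896)) (l 12538384)) (c (l 12712256) (a (l 12701992) (l 12665152)))) (b (l 12494736) (l 12619600))) (c (l 12585008) (c (b (l 12456872) (a (l 12609056) (l 12593232))) (a (l 12508104) (b (l 12412856) (l 12494840)))))))), by decide +kernel⟩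

def k5_pp_102_a : ∃ t, chk3 f_pp_102_a t 15 14 1 = true :=
  ⟨(a (c (a (c (b (b (l 13091960) (l 13153400)) (l 13346176)) (b (c (a (l 13152576) (l 13082584)) (b (l 13018896) (l 13081824))) (a (c (l 13361136) (l 13264224)) (c (l 13321712) (l 13274680))))) (b (c (l 12991584) (b (l 12916960) (l 12998912))) (c (l 13235408) (l 13208296)))) (a (b (l 12935056) (l 13164160)) (b (c (c (a (l 12943736) (l 12927720)) (l 12870608)) (l 12814368)) (c (c (a (l 13199920) (l 13177784)) (l 13124880)) (l 13072200))))) (c (b (a (l 12922752) (b (l 12863248) (a (l 12944456) (l 12988440)))) (a (l 13155424) (a (b (a (l 13048760) (l 13058872)) (a (c (l 13250704) (l 13189528)) (c (l 13337928) (l 13278432)))) (b (l 13217128) (l 13543616))))) (a (c (b (c (l 12866984) (a (l 12858320) (l 12821392))) (c (l 13105128) (a (l 13101368) (l 13053880)))) (b (l 12778008) (b (l 12938984) (l 13101488)))) (b (c (b (l 12763552) (l 12875152)) (a (c (l 12766512) (l 12734272)) (c (l 12786160) (b (c (l 12685136) (l 12664304)) (a (l 12755224)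 (l 12825848)))))) (c (a (b (l 12964168) (a (l 13132336) (l 13218696))) (b (l 13124680) (l 13460312))) (a (c (b (a (l 12917440) (l 12924040)) (a (c (l 13113032) (l 13101888)) (l 13183872))) (b (l 12894328) (a (l 13065312) (l 13155320)))) (c (b (l 13079152) (l 13419424)) (b (a (c (l 12979288) (l 12964240)) (l 13119960)) (c (l 13400672) (l 13257304)))))))))), by decide +kernel⟩

def k6_pp_102_a : ∃ t, chk3 f_pp_102_a t 30 15 1 = true :=
  ⟨(c (a (c (b (l 13665016) (l 14032928)) (c (a (b (l 13677904) (l 14047072)) (l 13842112)) (a (l 13768344) (b (l 13611768) (l 13992232))))) (b (c (l 13574632) (l 13553832)) (a (c (l 13967760) (c (l 13969464) (l 13983168))) (b (c (l 13843600) (l 13827984)) (c (a (l 14062816) (l 14117088)) (a (l 14056256) (l 14097984))))))) (a (l 13478488) (b (c (c (a (l 13547360) (l 13532048)) (l 13478416)) (l 13430616)) (a (c (c (l 13939272) (l 13879648)) (l 13842656)) (c (b (c (l 13827048) (l 13767840)) (c (a (l 13827432) (l 14113192)) (a (l 13988160) (l 14056808)))) (b (l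 13721832) (l 13993768))))))), by decide +kernel⟩

def k7_pp_102_a : ∃ t, chk3 f_pp_102_a t 31 15 1 = true :=
  ⟨(a (c (b (c (a (b (l 13442560) (l 13637520)) (b (a (l 13428984) (l 13467768)) (a (l 13701616) (l 13829072)))) (a (l 13498088) (b (l 13402056) (l 13719064)))) (b (a (c (a (l 13864688) (l 13955088)) (a (l 13831752) (l 13914336))) (l 14147056)) (c (l 14444992) (l 14414616)))) (c (b (a (c (l 13489520) (a (l 13472184) (b (l 13364816) (l 13551896)))) (b (a (l 13335136) (l 13371464)) (a (l 13617896) (l 13746216)))) (a (c (b (l 13775872) (l 14275632)) (b (a (b (l 13727576) (l 13879936)) (l 13862304)) (c (l 14276904) (l 14253000)))) (c (l 14319552) (l 14191024)))) (b (a (l 13402552) (b (a (l 13290312) (c (c (l 13358128) (l 13325840)) (l 13300080))) (a (l 13557272) (l 13700264)))) (a (b (l 13802696) (l 14206568)) (c (c (a (l 14240336) (l 14391472)) (l 14288008)) (l 14269824)))))) (c (b (b (c (l 13798432) (l 13747536)) (c (l 14199904) (l 14156408))) (a (b (l 14442400) (l 14866056)) (b (l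 14745144) (a (l 15091696) (l 15244336))))) (b (c (b (l 13698760) (l 14115136)) (a (c (a (c (l 13664728) (l 13656104)) (l 13801736)) (a (l 13623320) (l 13778832))) (c (l 14030488) (c (a (l 13938568) (l 14094000)) (a (l 13927888) (l 13978336)))))) (c (a (l 14606744) (b (l 14694944) (l 15133064))) (a (c (a (c (l 14527856) (l 14523120)) (l 14665728)) (a (l 14496200) (l 14503808))) (c (b (l 14670896) (l 15114888)) (a (c (l 14555424) (l 14800288)) (b (c (l 14738232) (l 14730304)) (c (l 15180840) (l 15049048)))))))))), by decide +kernel⟩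

theorem s8_pp_102_a : ∃ t, chk3 f_pp_102_a t 15 15 1 = true := ex3_a k6_pp_102_a k7_pp_102_a

theorem s9_pp_102_a : ∃ t, chk3 f_pp_102_a t 15 7 1 = true := ex3_b k5_pp_102_a s8_pp_102_a

theorem s10_pp_102_a : ∃ t, chk3 f_pp_102_a t 15 3 1 = true := ex3_b k4_pp_102_a s9_pp_102_a

theorem s11_pp_102_a : ∃ t, chk3 f_pp_102_a t 7 3 1 = true := ex3_a k3_pp_102_a s10_pp_102_a

theorem s12_pp_102_a : ∃ t, chk3 f_pp_102_a t 3 3 1 = true := ex3_a k2_pp_102_a s11_pp_102_a

theorem s13_pp_102_a : ∃ t, chk3 f_pp_102_a t 3 1 1 = true := ex3_b k1_pp_102_a s12_pp_102_a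

theorem s14_pp_102_a : ∃ t, chk3 f_pp_102_a t 1 1 1 = true := ex3_a k0_pp_102_a s13_pp_102_a

theorem c_pp_102_a : CertNX 536870912 536870912 0 420477299 1046898278 26843546 3 false true true .npp 1 0 2
    ndN7q1 ndN2q2a pcN0 Cut.none Ext.none :=
  certNX0 (fam := false) (s1 := true) (s2 := true) (a := 1) (b := 0) (c := 2) (cn := .npp) (n1 := ndN7q1) (n2 := ndN2q2a) (pc := pcN0) (cut := Cut.none) (xt := Ext.none) (P1 := 536870912) (W1 := 536870912) (P2 := 0) (W2 := 420477299) (P3 := 1046898278) (W3 := 26843546) (N0 := 3)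
    rfl s14_pp_102_a

noncomputable def f_pp_102_b : ℕ → ℕ → ℕ → ℕ → Bool := onCell 536870912 536870912 1239849684 370763052 1046898278 26843546
    (rowNX 3 0 false true true .npp 1 0 2 (qsf 536870912 536870912 1239849684 370763052 0) ndN7q1 ndN2q2b pcN0 Cut.none Ext.none)

def k0_pp_102_b : ∃ t, chk3 f_pp_102_b t 1 1 1 = true :=
  ⟨(a (a (l 2) (b (b (a (l 16575112) (l 16006064)) (l 16326640)) (l 2))) (a (b (a (b (l 15338824) (l 15393264)) (b (b (l 14368016) (l 14488704)) (l 14504672))) (a (l 2) (l 14504672))) (b (a (b (a (c (l 13567408) (l 13476592)) (c (b (c (a (l 13362288) (l 12981712)) (l 13193920)) (c (l 13435800) (l 13348896))) (b (l 13068144) (l 13227624)))) (c (a (l 13652976) (c (l 13456464) (l 13370024))) (l 13409280))) (b (a (b (c (c (b (a (b (l 12989696) (l 13020760)) (l 12850568)) (l 12841704)) (a (b (b (a (l 12969048) (l 12920416)) (l 12972272)) (l 13043416)) (b (l 12814752) (l 12865944)))) (b (a (b (l 12790008) (l 12822184)) (a (l 12745192) (l 12682672))) (a (l 12895440)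 (c (a (l 12846456) (l 12713296)) (l 12716328))))) (c (c (l 13122696) (a (l 13160640) (l 12982136))) (l 12953136))) (b (c (b (a (l 12734072) (l 12669600)) (b (l 12709000) (l 12714792))) (a (c (a (b (l 12663864) (c (l 12723032) (l 12696760))) (l 12629288)) (b (l 12574168) (a (l 12617936) (l 12571168)))) (c (l 12552880) (b (c (l 12501896) (l 12459232)) (c (l 12511912) (l 12467520)))))) (c (b (a (l 12818464) (l 12698912)) (l 12802240)) (a (c (a (l 12794120) (l 12722528)) (l 12589864)) (b (c (l 12594432) (a (c (l 12576080) (l 12542024)) (c (l 12510216) (l 12473936)))) (c (l 12630296) (l 12559536))))))) (c (a (c (l 13145464) (a (l 13183368) (l 13005936))) (l 12802264)) (a (l 12977160) (c (a (l 12784696) (l 12630320)) (a (l 12719832) (c (l 12581536) (l 12538824)))))))) (a (a (l 13598760) (c (b (l 13409360) (l 13409360)) (l 13249456))) (c (a (c (l 13145464) (a (l 13183368) (l 13005936))) (l 12802264)) (a (l 12977160) (c (a (l 12784696) (l 12630320)) (a (l 12719832) (b (l 12559560) (l 12559560)))))))))),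 by decide +kernel⟩

theorem c_pp_102_b : CertNX 536870912 536870912 1239849684 370763052 1046898278 26843546 3 false true true .npp 1 0 2
    ndN7q1 ndN2q2b pcN0 Cut.none Ext.none :=
  certNX0 (fam := false) (s1 := true) (s2 := true) (a := 1) (b := 0) (c := 2) (cn := .npp) (n1 := ndN7q1) (n2 := ndN2q2b) (pc := pcN0) (cut := Cut.none) (xt := Ext.none) (P1 := 536870912) (W1 := 536870912) (P2 := 1239849684) (W2 := 370763052) (P3 := 1046898278) (W3 := 26843546) (N0 := 3)
    rfl k0_pp_102_b

noncomputable def f_pp_112_a : ℕ → ℕ → ℕ → ℕ → Bool := onCell 536870912 536870912 0 420477299 1046898278 26843546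
    (rowNX 3 2 false true true .dn 1 1 2 (qsf 536870912 536870912 0 420477299 1) ndN7q1 ndN2q2a pcN1 Cut.none Ext.none)

def k0_pp_112_a : ∃ t, chk3 f_pp_112_a t 1 1 1 = true :=
  ⟨(a (b (a (b (l 16414024) (l 16405952)) (l 16242960)) (b (a (l 16554792) (l 16554784)) (a (b (l 16713464) (l 16262632)) (l 1)))) (l 1)), by decide +kernel⟩

theorem c_pp_112_a : CertNX 536870912 536870912 0 420477299 1046898278 26843546 3 false true true .dn 1 1 2
    ndN7q1 ndN2q2a pcN1 Cut.none Ext.none :=
  certNX2 (fam := false) (s1 := true) (s2 := true) (a := 1) (b := 1) (c := 2) (cn := .dn) (n1 := ndN7q1) (n2 := ndN2q2a) (pc := pcN1) (cut := Cut.none) (xt := Ext.none) (P1 := 536870912) (W1 := 536870912) (P2 := 0) (W2 := 420477299) (P3 := 1046898278) (W3 := 26843546) (N0 := 3)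
    rfl (fun _ => rfl) k0_pp_112_a

noncomputable def f_pp_112_b : ℕ → ℕ → ℕ → ℕ → Bool := onCell 536870912 536870912 1239849684 370763052 1046898278 26843546
    (rowNX 3 0 false true true .dn 1 1 2 (qsf 536870912 536870912 1239849684 370763052 1) ndN7q1 ndN2q2b pcN1 Cut.none Ext.none)

def k0_pp_112_b : ∃ t, chk3 f_pp_112_b t 1 1 1 = true :=
  ⟨(b (a (a (b (l 16655936) (a (l 16712256) (l 16777216))) (a (b (l 16575112) (l 16592392)) (l 539586818295))) (a (a (l 396777840295) (b (l 1) (l 14504672))) (l 1))) (a (a (b (a (b (l 16367880) (a (l 15488384) (l 16054344))) (l 16560024)) (a (b (a (l 14604104) (l 15220832)) (a (b (l 13966832) (l 13488832)) (l 14359680))) (b (l 16074616) (a (l 15036328) (l 15573352))))) (b (l 16325360) (a (b (l 16483360) (l 16151736)) (l 16014192)))) (a (a (l 15393264) (l 14504672)) (a (c (a (l 13652976) (l 461735299719)) (l 13409280)) (b (l 1) (a (c (l 13098104) (l 12977160)) (c (l 12802264) (l 506830967831)))))))), by decide +kernel⟩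

theorem c_pp_112_b : CertNX 536870912 536870912 1239849684 370763052 1046898278 26843546 3 false true true .dn 1 1 2
    ndN7q1 ndN2q2b pcN1 Cut.none Ext.none :=
  certNX0 (fam := false) (s1 := true) (s2 := true) (a := 1) (b := 1) (c := 2) (cn := .dn) (n1 := ndN7q1) (n2 := ndN2q2b) (pc := pcN1) (cut := Cut.none) (xt := Ext.none) (P1 := 536870912) (W1 := 536870912) (P2 := 1239849684) (W2 := 370763052) (P3 := 1046898278) (W3 := 26843546) (N0 := 3)
    rfl k0_pp_112_b

noncomputable def f_pp_113 : ℕ → ℕ → ℕ → ℕ → Bool := onCell 536870912 536870912 536870912 536870912 1046898278 26843546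
    (rowNX 3 1 false true true .nn 1 1 3 (qsf 536870912 536870912 1610612736 469762048 1) ndN7q1 ndN2q3 pcN1 Cut.none Ext.none)

def k0_pp_113 : ∃ t, chk3 f_pp_113 t 1 1 1 = true :=
  ⟨(b (a (a (l 1) (l 476236648919)) (a (a (l 15393264) (l 14315928)) (a (a (l 13472936) (b (l 503074186535) (l 13196824))) (c (a (b (l 13098104) (l 13098104)) (l 12802264)) (a (l 537433233927) (b (c (l 12708024) (l 12624584)) (c (l 12708024) (l 12624584)))))))) (a (b (a (b (l 1) (l 16093704)) (b (l 16255144) (l 15664440))) (b (a (l 14886648) (l 14459184)) (a (b (l 13954480) (l 13223080)) (b (l 13515360) (l 12770792))))) (b (a (b (l 71433091607) (b (l 14536896) (l 14119024))) (a (b (l 13400856) (a (l 12996384) (l 12728176))) (b (c (l 12891824) (a (l 12908832) (l 12597248))) (c (a (l 12561176) (l 12278160)) (a (l 12340680) (b (l 12236968) (l 11815784))))))) (a (b (l 13171992) (b (l 12249328) (a (l 11898784) (l 11139248)))) (a (b (a (l 11914800) (l 11682984)) (b (l 11026016) (c (a (l 10820792) (l 10965120)) (l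 10050640)))) (a (b (c (l 11713976) (l 11192312)) (c (b (l 11360144) (l 11452136)) (l 10150560))) (b (c (l 11524112) (b (l 11114200) (l 10612024))) (b (c (l 11673456) (l 10284624)) (a (b (l 11093872) (l 2)) (l 2)))))))))), by decide +kernel⟩

theorem c_pp_113 : CertNX 536870912 536870912 1610612736 469762048 1046898278 26843546 3 false true true .nn 1 1 3
    ndN7q1 ndN2q3 pcN1 Cut.none Ext.none :=
  certNX1 (fam := false) (s1 := true) (s2 := true) (a := 1) (b := 1) (c := 3) (cn := .nn) (n1 := ndN7q1) (n2 := ndN2q3) (pc := pcN1) (cut := Cut.none) (xt := Ext.none) (P1 := 536870912) (W1 := 536870912) (P2 := 1610612736) (W2 := 469762048) (P3 := 1046898278) (W3 := 26843546) (N0 := 3)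
    rfl (fun _ => rfl) k0_pp_113

noncomputable def f_pp_123 : ℕ → ℕ → ℕ → ℕ → Bool := onCell 1073741824 536870912 1610612736 469762048 1046898278 26843546
    (rowNX 3 2 false true true .npn 1 2 3 (qsf 536870912 536870912 1610612736 469762048 2) ndN7q1 ndN2q3 pcN2 Cut.none Ext.none)

def k0_pp_123 : ∃ t, chk3 f_pp_123 t 1 1 1 = true :=
  ⟨(a (a (b (a (b (c (l 13056720) (a (l 12919504) (l 13156784))) (c (a (l 12854128) (l 13185608)) (a (b (l 12862744) (l 12575872)) (l 13065064)))) (a (c (b (l 13529264) (l 13508256)) (l 13369808)) (l 13786216))) (a (a (b (c (l 12148408) (c (l 11966664) (l 11825992))) (c (b (l 11603520) (b (l 11467416) (l 11848104))) (b (l 11133464) (a (l 10345216) (l 11229832))))) (b (c (l 12585776) (l 12566400)) (a (c (l 12409880) (l 11947088)) (b (l 12529376) (l 4))))) (b (a (c (l 13301352) (l 13108640)) (l 4)) (l 4)))) (b (l 4) (l 4))) (l 4)), by decide +kernel⟩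

theorem c_pp_123 : CertNX 536870912 536870912 1610612736 469762048 1046898278 26843546 3 false true true .npn 1 2 3
    ndN7q1 ndN2q3 pcN2 Cut.none Ext.none :=
  certNX2 (fam := false) (s1 := true) (s2 := true) (a := 1) (b := 2) (c := 3) (cn := .npn) (n1 := ndN7q1) (n2 := ndN2q3) (pc := pcN2) (cut := Cut.none) (xt := Ext.none) (P1 := 536870912) (W1 := 536870912) (P2 := 1610612736) (W2 := 469762048) (P3 := 1046898278) (W3 := 26843546) (N0 := 3)
    rfl (fun _ => rfl) k0_pp_123

noncomputable def f_pp_133 : ℕ → ℕ → ℕ → ℕ → Bool := onCell 536870912 536870912 1610612736 469762048 1046898278 26843546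
    (rowNX 3 0 false true true .dn 1 3 3 (qsf 536870912 536870912 1610612736 469762048 3) ndN7q1 ndN2q3 pcN3 Cut.none Ext.none)

def k0_pp_133 : ∃ t, chk3 f_pp_133 t 1 1 1 = true :=
  ⟨(l 1), by decide +kernel⟩

theorem c_pp_133 : CertNX 536870912 536870912 1610612736 469762048 1046898278 26843546 3 false true true .dn 1 3 3
    ndN7q1 ndN2q3 pcN3 Cut.none Ext.none :=
  certNX0 (fam := false) (s1 := true) (s2 := true) (a := 1) (b := 3) (c := 3) (cn := .dn) (n1 := ndN7q1) (n2 := ndN2q3) (pc := pcN3) (cut := Cut.none) (xt := Ext.none) (P1 := 536870912) (W1 := 536870912) (P2 := 1610612736) (W2 := 469762048) (P3 := 1046898278) (W3 := 26843546) (N0 := 3)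
    rfl k0_pp_133

noncomputable def f_pp_202_a : ℕ → ℕ → ℕ → ℕ → Bool := onCell 0 536870912 0 420477299 1046898278 26843546
    (rowNX 3 2 false true true .pp 2 0 2 (qsf 1073741824 536870912 0 420477299 0) ndN7q2 ndN2q2a pcN0 Cut.none Ext.none)

def k0_pp_202_a : ∃ t, chk3 f_pp_202_a t 16 2 1 = true :=
  ⟨(a (c (c (b (a (l 15936888) (a (b (l 15677040) (l 15769576)) (l 15706072))) (a (l 15855168) (b (a (l 15719952) (l 15645168)) (a (l 15666632) (l 15590760))))) (b (b (a (a (l 15988472) (l 15880440)) (a (l 15798032) (l 15736576))) (a (l 15859072) (a (l 15764544) (l 15703328)))) (a (b (l 15852784) (l 15801720)) (a (b (l 15714360) (l 15660392)) (b (l 15653160) (l 15598816)))))) (a (b (c (a (b (l 15961376) (l 15926056)) (c (b (l 15868792) (l 15834408)) (b (l 15782752) (l 15832112)))) (a (a (c (l 15941456) (b (c (l 15960304) (l 15955624)) (l 15795848))) (c (b (l 15921288) (l 15885552)) (l 15720744))) (c (b (l 15860128) (l 15825304)) (l 15819496)))) (a (c (b (l 15877128) (l 15825456)) (c (b (l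 15859776) (l 15785912)) (a (b (l 15829336) (l 15734128)) (l 15651608)))) (b (c (c (l 15784296) (l 15781696)) (l 15726712)) (c (c (l 15730832) (l 15727880)) (l 15588040))))) (b (c (a (b (l 15751664) (l 15759928)) (l 15683952)) (l 15626584)) (c (b (l 15473704) (a (l 15654592) (l 15565000))) (l 15406216))))) (c (b (b (a (c (l 15495544) (l 15612984)) (l 15449000)) (a (c (l 15608328) (l 15577808)) (l 15412104))) (a (c (b (l 15558344) (a (c (l 15538664) (l 15542424)) (c (l 15483512) (l 15470240)))) (b (l 15526296) (l 15469784))) (b (l 15359024) (c (l 15339216) (l 15277432))))) (b (c (b (l 15463608) (l 15426200)) (l 15407688)) (b (c (l 15370792) (l 15337192)) (c (l 15316264) (l 15281024)))))), by decide +kernel⟩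

def k1_pp_202_a : ∃ t, chk3 f_pp_202_a t 17 2 1 = true :=
  ⟨(c (a (b (c (l 15147936) (b (l 15105488) (l 15069608))) (b (c (l 15113520) (l 15039168)) (c (a (l 15170096) (c (l 15061040) (l 15017904))) (a (b (l 15094128) (l 15116088)) (l 14990616))))) (b (c (a (l 14876568) (b (l 14764144) (l 14762528))) (l 14776824)) (c (b (a (c (l 14903808) (l 14866664)) (c (b (l 14793904) (l 14830096)) (l 14752664))) (a (c (b (l 14947032) (l 15012336)) (l 14899576)) (c (b (l 14884232) (l 14915496)) (l 14720136)))) (b (l 14795936) (l 14812984))))) (b (a (l 15031616) (l 14728248)) (a (b (l 14983072) (a (l 15045632) (l 14953720))) (b (l 14732752) (l 14782056))))), by decide +kernel⟩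

def k2_pp_202_a : ∃ t, chk3 f_pp_202_a t 16 6 2 = true :=
  ⟨(a (a (b (c (a (l 15826224) (l 15710608)) (l 15626096)) (b (c (l 15680952) (c (l 15679544) (l 15659864))) (c (a (l 15728384) (l 15646104)) (a (c (l 15711376) (l 15691392)) (c (l 15621816) (a (l 15622296) (b (l 15572440) (l 15604080)))))))) (c (b (a (c (l 15558440) (b (l 15607120) (a (l 15590056) (l 15543096)))) (c (b (l 15536104) (l 15497560)) (l 15523736))) (a (b (c (l 15560616) (a (l 15554008) (l 15521096))) (c (l 15602728) (l 15586160))) (b (l 15512608) (c (l 15572672) (l 15558736))))) (a (b (l 15585768) (c (a (b (c (l 15543392) (l 15541208)) (l 15576072)) (l 15524872)) (b (l 15541288) (l 15576520)))) (b (c (l 15531144) (l 15526304)) (c (l 15531728) (a (b (l 15521256) (l 15566368)) (c (l 15530448) (l 15523664)))))))) (c (b (a (a (c (l 15468952) (l 15330016)) (c (l 15425152) (l 15418208))) (a (l 15353016) (l 15292736))) (a (c (b (l 15473800) (c (b (l 15530384) (l 15602704)) (l 15419240))) (a (l 15505304) (l 15457952))) (a (c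 (b (l 15417896) (c (l 15531968) (l 15471760))) (l 15402128)) (c (b (l 15259056) (b (l 15452200) (l 15486032))) (l 15269768))))) (b (a (a (b (l 15466208) (c (l 15459256) (l 15434768))) (l 15380232)) (l 15273480)) (a (c (a (l 15498136) (l 15441760)) (l 15449064)) (l 15329968))))), by decide +kernel⟩

def k3_pp_202_a : ∃ t, chk3 f_pp_202_a t 16 6 3 = true :=
  ⟨(a (a (c (a (b (l 15753880) (l 15615088)) (b (c (l 15656904) (l 15653400)) (c (b (l 15592896) (l 15597672)) (a (l 15604672) (l 15585560))))) (a (c (b (l 15607840) (a (l 15673656) (b (l 15641464) (l 15617896)))) (b (c (l 15661088) (l 15717600)) (a (c (l 15662624) (b (l 15674384) (l 15637032))) (l 15621216)))) (b (c (l 15644688) (l 15626080)) (c (l 15565336) (l 15566432))))) (c (c (b (l 15440672) (a (b (l 15542168) (c (l 15582104) (l 15578952))) (l 15516840))) (b (l 15523544) (l 15516928))) (b (l 15490928) (l 15482968)))) (b (c (a (l 15360344) (b (l 15201496) (l 15245400))) (l 15263024)) (c (a (c (l 15425736) (l 15403848)) (c (l 15301408)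 (l 15291688))) (l 15327304)))), by decide +kernel⟩

def k4_pp_202_a : ∃ t, chk3 f_pp_202_a t 32 14 2 = true :=
  ⟨(c (a (b (b (l 15723120) (c (l 15798176) (l 15776384))) (c (b (c (l 15874544) (l 15875048)) (c (a (l 16061176) (l 16045008)) (l 15824584))) (b (l 15857648) (l 15950200)))) (b (c (a (b (l 15661520) (c (l 15768640) (l 15719920))) (b (c (l 15660888) (l 15617360)) (c (l 15778816) (l 15707208)))) (a (b (l 15636888) (l 15701432)) (l 15635816))) (c (a (c (b (l 15907032) (l 16026272)) (b (l 15837496) (l 15982512))) (b (c (l 15896072) (l 15845832)) (l 15819816))) (a (c (b (l 15794824) (l 15853176)) (l 15810096)) (b (l 15765528) (c (l 15918296) (l 15852152))))))) (a (a (b (b (l 15729152) (l 15788216)) (l 15911680)) (b (c (l 15697864) (a (l 15696088) (b (l 15613560) (l 15697608)))) (c (l 15861192) (a (l 15855320) (l 15832592))))) (a (c (b (b (l 15624352) (l 15688472)) (l 15819560)) (b (l 15628768) (l 15810752))) (b (c (l 15626560) (b (l 15593832) (l 15649008))) (c (l 15777800) (l 15767296)))))),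 by decide +kernel⟩

def k5_pp_202_a : ∃ t, chk3 f_pp_202_a t 32 15 4 = true :=
  ⟨(a (b (b (c (a (c (l 16192856) (l 16039200)) (c (l 16159584) (l 16125112))) (c (a (l 16081920) (l 16064472)) (l 16042064))) (c (a (c (l 16300216) (l 16237944)) (l 16236448)) (c (a (b (l 16182136) (l 16270832)) (l 16173528)) (a (l 16176584) (b (l 16115112) (l 16207024)))))) (c (b (l 16257840) (l 16395088)) (b (c (a (l 16270864) (l 16340080)) (a (b (l 16282688) (l 16332272)) (l 16189032))) (a (c (l 16489704) (b (l 16410560) (l 16522136))) (l 16366800))))) (b (c (a (b (l 15976184) (l 16182504)) (l 15944368)) (a (b (c (a (l 16069360) (l 16067384)) (a (l 16002200) (l 15998904))) (c (l 16070696) (a (l 16122216) (l 16158088)))) (b (c (l 16043784) (l 15914128)) (l 16020104)))) (a (b (c (l 16249112) (a (l 16237776) (l 16277192))) (l 16228184)) (c (l 16081840) (b (l 16213336) (l 16285928)))))), by decide +kernel⟩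

def k6_pp_202_a : ∃ t, chk3 f_pp_202_a t 32 15 5 = true :=
  ⟨(a (b (a (l 16103632) (c (l 15996736) (l 15897200))) (c (b (c (a (l 16238696) (b (l 16218136) (l 16229440))) (l 16180824)) (c (b (a (l 16373008) (l 16370208)) (a (c (l 16502976) (l 16451104)) (l 16425992))) (a (l 16268848) (b (l 16331792) (c (l 16438904) (l 16401168)))))) (a (l 16318336) (b (l 16210504) (c (l 16193248) (l 16329216)))))) (b (c (a (b (l 15964848) (c (a (l 16100104) (l 16093160)) (l 16066504))) (b (l 15925600) (c (b (l 16049768) (l 16119568)) (l 16023072)))) (a (l 16003320) (l 15947248))) (c (b (a (c (a (b (l 16217848) (l 16309968)) (l 16234200)) (a (l 16164584) (l 16195000))) (c (l 16086664) (b (l 16078272) (l 16148856)))) (a (b (c (l 16309088) (c (l 16346664) (l 16308368))) (c (l 16427240) (l 16324920))) (c (l 16311216) (l 16137928)))) (c (b (a (l 16170560) (a (l 16128072) (l 16059552))) (a (b (l 16269928) (c (l 16373240) (l 16333264))) (a (b (l 16235416) (l 16327728)) (b (l 16181976) (l 16301280))))) (a (l 16200792)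 (b (l 16095984) (a (l 16190200) (l 16209192)))))))), by decide +kernel⟩

def k7_pp_202_a : ∃ t, chk3 f_pp_202_a t 33 14 2 = true :=
  ⟨(c (a (b (c (b (c (l 15655208) (a (l 15598064) (l 15592856))) (a (c (l 15763376) (l 15709736)) (l 15685448))) (b (a (l 15563040) (l 15516016)) (a (l 15631120) (c (l 15627640) (l 15562280))))) (c (c (l 15722408) (a (l 15773312) (l 15578400))) (a (c (b (l 15770952) (l 15884816)) (b (l 15703416) (l 15793640))) (b (c (l 15729984) (l 15669552)) (c (l 15824640) (l 15792760)))))) (b (c (b (a (l 15568616) (l 15512480)) (l 15412032)) (b (a (l 15477032) (l 15288832)) (c (l 15565104) (a (l 15527832) (l 15512208))))) (c (l 15649968) (b (a (l 15637920) (l 15606480)) (l 15701904))))) (a (b (c (l 15484808) (l 15533280)) (c (b (l 15651816) (a (l 15767288) (l 15725048))) (l 15683736))) (b (a (l 15451208) (b (l 15366112) (c (l 15441016) (l 15415520)))) (c (b (a (l 15578744) (c (l 15572704) (l 15513496))) (c (a (l 15715872) (l 15677128)) (a (l 15660560) (l 15642528)))) (a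 (l 15589744) (l 15370648)))))), by decide +kernel⟩

def k8_pp_202_a : ∃ t, chk3 f_pp_202_a t 33 15 2 = true :=
  ⟨(c (a (b (c (a (l 15988904) (l 15889712)) (a (b (c (l 15978408) (l 15867272)) (l 16045264)) (b (l 15886112) (l 15949136)))) (a (b (l 16102448) (l 16187088)) (l 15936936))) (b (c (l 15772856) (l 15799584)) (c (l 15952328) (l 15964024)))) (a (b (c (a (b (a (l 15867672) (c (l 15895280) (l 15836128))) (c (a (l 16047024) (l 16020784)) (a (l 15986952) (l 15980440)))) (b (c (l 15866984) (l 15809520)) (c (l 15975136) (l 15952680)))) (a (l 15888640) (b (l 15779728) (c (l 15815288) (l 15875288))))) (c (b (a (c (l 16134400) (a (l 16070712) (l 16111872))) (l 16053280)) (a (l 16143248) (l 16130976))) (b (c (a (b (l 16037592) (l 16123336)) (l 15943136)) (a (l 16042104) (b (l 15966296) (l 16032048)))) (c (a (l 16135944) (l 16161792)) (a (b (l 16078744) (l 16170976)) (b (l 16121616) (l 16187592))))))) (c (b (b (c (l 15785280) (a (l 15794384) (l 15748848))) (c (l 15855968) (l 15864536))) (l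 15978464)) (b (c (b (a (l 15743008) (l 15715848)) (a (l 15816720) (l 15826064))) (a (l 15779200) (b (l 15668936) (c (l 15808904) (l 15794024))))) (b (c (a (l 15993992) (l 15909648)) (a (l 15823824) (l 15915904))) (a (c (l 16075592) (l 16086032)) (l 15997472))))))), by decide +kernel⟩

def k9_pp_202_a : ∃ t, chk3 f_pp_202_a t 16 14 3 = true :=
  ⟨(a (a (c (a (b (l 15723232) (c (l 15896008) (l 15876792))) (c (c (b (a (l 15682488) (l 15579440)) (a (l 15842480) (l 15823216))) (a (b (l 15675000) (a (l 15843376) (l 15831152))) (b (l 15666464) (l 15826656)))) (b (a (l 15675608) (l 15669240)) (c (a (a (l 15836888) (l 15834624)) (l 15833224)) (l 15832128))))) (a (c (b (a (l 15712496) (l 15687136)) (a (l 15876984) (l 15851128))) (b (a (c (l 15701384) (l 15652656)) (l 15677912)) (a (c (l 15866728) (l 15860544)) (l 15843224)))) (c (b (l 15661072) (l 15824672)) (b (l 15641240) (l 15805856))))) (c (c (a (a (b (b (l 15632176) (l 15692848)) (l 15819912)) (b (c (l 15652224) (l 15650440)) (l 15802904)))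 (b (l 15608696) (l 15756832))) (b (b (l 15584784) (l 15603600)) (a (l 15758248) (l 15734960)))) (b (l 15578336) (c (l 15606504) (l 15732744))))) (c (a (c (b (l 15519168) (l 15567992)) (b (b (l 15469424) (l 15525456)) (a (l 15671376) (a (l 15639024) (l 15613936))))) (c (a (b (l 15429472) (c (l 15582928) (l 15579016))) (b (b (l 15346440) (l 15405368)) (l 15524016))) (b (l 15393304) (l 15537368)))) (b (a (l 15484112) (l 15378552)) (a (l 15648896) (l 15527496))))), by decide +kernel⟩

def k10_pp_202_a : ∃ t, chk3 f_pp_202_a t 16 30 3 = true :=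
  ⟨(a (a (c (a (a (l 16083976) (c (l 16068448) (c (l 16059192) (c (l 16053080) (l 16049296))))) (c (a (c (l 16043432) (l 16034784)) (l 16023272)) (a (c (a (l 15992808) (l 16029536)) (l 16037816)) (c (l 16024224) (a (l 16033040) (l 16023976)))))) (a (c (a (l 16076184) (l 16049784)) (a (c (l 16067000) (l 15998632)) (l 16043496))) (a (b (l 15974840) (l 15997624)) (c (l 16013648) (l 15992072))))) (c (a (c (l 15848272) (c (l 15991080) (l 15983992))) (l 15763584)) (c (a (l 15949016) (l 15910944)) (l 15932560)))) (c (a (c (a (l 15877352) (l 15799072)) (c (a (l 15871792) (l 15773160)) (a (a (l 15881512) (l 15854824)) (l 15812520)))) (c (a (l 15762744) (c (l 15503520) (l 15707808))) (l 15730352))) (a (l 15769560) (l 15718800)))), by decide +kernel⟩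

def k11_pp_202_a : ∃ t, chk3 f_pp_202_a t 16 31 3 = true :=
  ⟨(a (a (c (c (a (l 16266648) (a (l 16165720) (l 16250440))) (a (a (l 16197024) (c (l 16284632) (a (l 16287000) (b (l 16209960) (l 16331848))))) (a (c (l 16220992) (l 16240608)) (c (l 16246112) (l 16203952))))) (a (c (c (a (l 16230640) (a (c (l 16261064) (l 16278704)) (c (l 16250456) (l 16274880)))) (a (l 16301464) (l 16278112))) (a (c (l 16234440) (a (l 16214672) (l 16287712))) (l 16210960))) (c (a (c (a (l 16105872) (c (l 16264472) (l 16265072))) (l 16222072)) (l 16194592)) (l 16112760)))) (c (c (a (a (l 16225288) (l 16194120)) (l 16150208)) (a (l 16055144) (l 15956128))) (c (a (c (l 16191576) (l 16123616)) (c (a (a (l 16096680) (l 16062320)) (l 15978560)) (l 16138792))) (l 16058776)))) (c (a (c (a (b (l 16031480) (l 16151576)) (c (b (l 15976856) (b (l 16072704) (l 16075472))) (l 16030184))) (a (c (l 16085216) (a (l 16098472) (l 16072128))) (l 15923520))) (c (b (c (a (l 15931992) (c (l 15761952) (l 15857136))) (a (l 15916320)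 (l 15870248))) (c (a (b (c (l 16049760) (l 16032672)) (l 16067080)) (c (l 16025616) (l 16027184))) (a (c (a (l 16052232) (l 16051032)) (l 16037656)) (b (l 15981960) (l 16048224))))) (l 15843384))) (c (l 15797320) (l 15856696)))), by decide +kernel⟩

def k12_pp_202_a : ∃ t, chk3 f_pp_202_a t 17 6 1 = true :=
  ⟨(c (a (a (c (b (c (b (l 15207216) (c (l 15293704) (l 15228840))) (l 15186864)) (b (c (c (l 15352328) (l 15315328)) (l 15247048)) (c (a (l 15411072) (l 15353352)) (c (a (l 15369848) (l 15330464)) (b (l 15270984) (l 15332888)))))) (b (c (l 15158736) (l 15136008)) (b (l 15201920) (c (a (l 15280312) (l 15231176)) (a (l 15266008) (l 15211144)))))) (c (b (c (b (l 15147008) (l 15188704)) (l 15082472)) (c (b (l 15223984) (l 15226472)) (b (a (c (l 15216424) (l 15154976)) (c (l 15178672) (l 15139512))) (a (c (l 15283568) (l 15251928)) (l 15204160))))) (b (l 15020376) (c (b (a (l 15126176) (l 15077064)) (c (a (l 15154904) (l 15137528)) (a (l 15167384) (l 15129952)))) (l 15104184))))) (c (b (a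 (b (c (l 15050216) (l 14962936)) (b (a (l 14991592) (l 14940264)) (c (l 15093984) (c (l 14987456) (l 15031608))))) (c (a (b (l 14978720) (l 14977608)) (c (l 14890120) (l 14908360))) (b (l 14899392) (l 14931160)))) (a (c (b (l 15076136) (l 15067328)) (b (a (c (l 15133688) (l 15101376)) (l 15056600)) (a (l 15140248) (l 15063304)))) (c (a (l 14956368) (l 14885272)) (l 14936784)))) (b (c (a (l 14941896) (b (l 14819416) (l 14888616))) (l 14865568)) (a (b (c (c (l 15044328) (l 14996008)) (l 14969160)) (c (c (l 15101480) (l 15079632)) (c (l 15053768) (l 15011416)))) (c (b (c (l 14946752) (l 14923264)) (l 14940256)) (b (l 14895024) (c (l 14950800) (l 14927224)))))))) (a (b (c (l 15057968) (l 15036784)) (c (a (l 15160048) (l 15080656)) (l 15124568))) (b (l 14785528) (a (l 14945808) (l 14795776))))), by decide +kernel⟩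

def k13_pp_202_a : ∃ t, chk3 f_pp_202_a t 17 14 2 = true :=
  ⟨(c (a (b (a (c (l 15399824) (b (a (l 15371456) (l 15363768)) (l 15434360))) (c (l 15240608) (b (l 15256800) (l 15280368)))) (a (l 15312824) (c (l 15342544) (l 15355416)))) (a (b (c (l 15086984) (b (l 15092312) (l 15121312))) (c (l 15206224) (l 15216544))) (c (b (a (l 14988256) (l 14933400)) (l 15071896)) (b (l 14973288) (l 15096016))))) (a (a (b (c (b (a (l 15326304) (c (l 15319992) (l 15261696))) (c (l 15243240) (a (l 15375008) (l 15360072)))) (a (b (l 15303808) (l 15358976)) (l 15277760))) (c (c (l 15355312) (b (a (l 15495872) (l 15454912)) (a (l 15595856) (l 15542400)))) (c (a (b (l 15442064) (l 15482888)) (b (l 15407184) (l 15528384))) (a (l 15478496) (l 15453352))))) (b (c (b (c (a (l 15282744) (l 15241824)) (a (l 15231800) (l 15211512))) (a (c (l 15347024) (l 15324144)) (l 15272576))) (b (l 15173768) (c (l 15268984) (l 15224352)))) (c (c (l 15378448) (a (l 15435440) (l 15359896))) (b (c (l 15357832) (l 15332112)) (c (l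 15438480) (l 15425960)))))) (b (c (b (l 14903480) (l 15078448)) (a (b (l 14968280) (c (l 15164768) (l 15145552))) (b (c (l 14971784) (l 14975704)) (l 15007176)))) (a (c (l 15237944) (b (c (l 15220776) (l 15224904)) (l 15282896))) (l 15106232))))), by decide +kernel⟩

def k14_pp_202_a : ∃ t, chk3 f_pp_202_a t 17 15 2 = true :=
  ⟨(c (a (b (a (l 15647704) (c (l 15500288) (l 15495480))) (a (b (l 15771016) (l 15877896)) (c (l 15701144) (a (l 15589616) (c (l 15651384) (l 15657088)))))) (a (b (c (l 15372024) (l 15375608)) (c (a (l 15558872) (c (l 15540496) (l 15549608))) (a (c (l 15602856) (l 15616120)) (c (l 15563640) (l 15565400))))) (c (a (c (l 15395056) (b (l 15302224) (l 15511392))) (a (b (l 15263816) (l 15472520)) (b (l 15238832) (l 15447680)))) (l 15377536)))) (a (a (b (c (a (l 15694632) (l 15620568)) (c (a (b (l 15671016) (l 15762504)) (b (l 15621848) (l 15684160))) (b (a (c (l 15654160) (l 15625528)) (l 15607160)) (a (l 15634952) (l 15705536))))) (a (c (l 15858440) (c (l 15868144) (l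 15826248))) (b (l 15602928) (a (l 15860040) (a (l 15832128) (c (l 15805096) (l 15829304))))))) (b (c (a (l 15544640) (l 15485104)) (l 15383568)) (b (a (l 15642360) (l 15620208)) (c (a (c (l 15767760) (l 15782048)) (c (l 15725328) (l 15728256))) (l 15758760))))) (b (a (l 15395320) (l 15260480)) (l 15423448)))), by decide +kernel⟩

def k15_pp_202_a : ∃ t, chk3 f_pp_202_a t 17 14 3 = true :=
  ⟨(a (b (a (c (l 15276632) (l 15259912)) (l 15159120)) (c (c (a (l 15441448) (b (l 15287592) (c (l 15402864) (l 15367456)))) (l 15372504)) (l 15356048))) (c (b (c (b (a (l 15033552) (l 14944536)) (a (l 15120712) (c (l 15013200) (l 14991072)))) (l 14987808)) (c (a (b (l 15071696) (c (l 15291616) (l 15275272))) (b (c (l 15069192) (l 15073000)) (l 15135608))) (a (l 15031280) (b (l 15049736) (c (a (l 15175424) (l 15094672)) (l 15122552)))))) (b (l 14964496) (l 15112936)))), by decide +kernel⟩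

def k16_pp_202_a : ∃ t, chk3 f_pp_202_a t 34 15 3 = true :=
  ⟨(c (b (c (a (c (b (l 15605648) (a (l 15739152) (l 15691600))) (b (l 15572176) (l 15694280))) (b (c (a (l 15532216) (l 15478352)) (l 15481320)) (c (l 15577960) (a (l 15617112) (l 15559776))))) (a (l 15614192) (b (l 15448104) (c (l 15567608) (l 15543160))))) (c (a (b (c (a (l 15856648) (l 15779944)) (a (l 15835312) (l 15742128))) (c (l 15913296) (a (l 15893536) (l 15881256)))) (b (l 15668272) (l 15772736))) (a (b (c (l 15790856) (l 15767480)) (c (a (l 15877016) (b (l 15858984) (l 15918184))) (l 15749672))) (b (c (a (l 15710144) (l 15549472)) (a (l 15693304) (l 15635536))) (c (l 15771808) (a (b (l 15785336) (l 15845552)) (b (l 15709304) (l 15770376)))))))) (b (l 15540632) (a (l 15816472) (b (l 15637168) (c (c (a (l 15797928) (l 15548224)) (l 15753280)) (l 15745816)))))), by decide +kernel⟩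

def k17_pp_202_a : ∃ t, chk3 f_pp_202_a t 35 15 3 = true :=
  ⟨(c (b (c (a (b (c (l 15362280) (a (l 15403280) (l 15325304))) (l 15440472)) (l 15263160)) (a (b (c (l 15330440) (l 15336304)) (c (a (l 15485256) (l 15408232)) (a (l 15467184) (l 15409024)))) (b (c (l 15213280) (a (l 15248736) (l 15173160))) (a (l 15328896) (l 15267160))))) (a (c (l 15584944) (b (c (l 15539736) (a (b (l 15553288) (l 15593288)) (l 15498912))) (l 15637440))) (l 15456680))) (b (c (a (l 15366568) (b (l 15198408) (c (a (l 15332104) (l 15259104)) (l 15284216)))) (l 15289288)) (c (a (b (c (a (l 15561264) (b (l 15477120) (l 15519264))) (l 15517416)) (c (a (b (l 15636400) (l 15697712)) (l 15601544)) (a (l 15662736) (b (l 15563928) (l 15625136))))) (b (c (l 15265504) (a (b (l 15400464) (l 15445376)) (l 15142232))) (a (c (l 15531600) (l 15529408)) (l 15465616)))) (a (b (l 15505608) (l 15623240)) (b (c (a (l 15414096) (l 15340288)) (l 15373512)) (c (a (b (l 15492144) (l 15425344)) (b (l 15428568) (l 15487048))) (a (l 15516040)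 (b (l 15421728) (l 15375216))))))))), by decide +kernel⟩

def k18_pp_202_a : ∃ t, chk3 f_pp_202_a t 18 2 1 = true :=
  ⟨(c (b (a (c (b (a (l 14623856) (l 14456952)) (a (c (l 14674952) (l 14580424)) (c (l 14470712) (l 14420024)))) (l 14456176)) (c (b (a (l 14240576) (l 13988216)) (a (c (l 14227264) (l 14191432)) (l 13897528))) (a (l 14105048) (b (l 13912904) (l 13859416))))) (a (b (c (c (a (l 14685624) (l 14452800)) (a (l 14602960) (l 14406656))) (a (l 14561000) (l 14314176))) (c (a (c (l 14715128) (b (l 14667632) (l 14696752))) (b (l 14429392) (l 14396160))) (a (b (l 14570760) (l 14602312)) (c (b (l 14378256) (l 14392800)) (l 14311864))))) (b (c (c (l 14013040) (a (l 14159136) (l 13859712))) (c (a (l 14109104) (l 13845648)) (l 13925120))) (c (a (l 14102936) (l 13772080)) (a (b (c (l 14119336) (l 14043720)) (c (l 14100192) (l 14057184))) (c (l 13762072) (b (l 13779072) (l 13726592)))))))) (b (a (l 14387312) (l 13895480)) (a (b (l 14385320) (a (l 14536232) (l 14256544))) (b (l 13837784) (a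 (l 13959616) (b (l 13666120) (l 13634600))))))), by decide +kernel⟩

def k19_pp_202_a : ∃ t, chk3 f_pp_202_a t 19 2 1 = true :=
  ⟨(a (b (c (a (b (c (l 13702344) (l 13662144)) (c (l 13623632) (c (l 13620896) (l 13569600)))) (c (l 13452160) (c (l 13446088) (b (l 13476384) (l 13395752))))) (a (l 13490024) (b (l 13352336) (l 13297920)))) (c (a (b (c (l 13492488) (a (c (l 13598320) (l 13586400)) (b (l 13240712) (l 13327448)))) (c (l 13416264) (a (b (l 13515560) (l 13437104)) (l 13294344)))) (b (c (l 13321824) (l 13287208)) (l 13174880))) (a (b (a (l 13467696) (a (l 13352720) (l 13314296))) (c (a (l 13428912) (c (l 13066296) (l 13217264))) (l 13258776))) (b (c (c (l 13268016) (l 13205456)) (l 13157160)) (c (c (b (l 13151520) (l 13068048)) (l 13083256)) (l 13017872)))))) (b (c (c (l 13235232) (b (l 13237960) (l 13166680))) (c (b (c (l 13193856) (l 13173144)) (c (a (l 13212320) (l 13051352)) (l 13084520))) (l 13066624))) (c (b (l 13085328) (l 12922480)) (c (b (c (b (l 13043984) (l 12982912)) (a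 (l 13073880) (l 12688312))) (c (l 12853368) (a (b (l 12941696) (l 12863352)) (l 12736016)))) (b (l 12934464) (c (a (l 12873904) (b (l 12734888) (l 12658384))) (l 12734248))))))), by decide +kernel⟩

def k20_pp_202_a : ∃ t, chk3 f_pp_202_a t 36 6 1 = true :=
  ⟨(c (b (c (a (b (c (l 14708256) (l 14714088)) (l 14690552)) (l 14367952)) (a (b (c (l 14672600) (l 14599496)) (c (l 14696144) (l 14655456))) (c (b (l 14390136) (l 14349392)) (b (l 14346072) (l 14339888))))) (c (a (l 14693984) (l 14316896)) (a (c (b (l 14683736) (l 14693064)) (b (a (l 14760904) (l 14600384)) (b (l 14699536) (l 14690552)))) (b (c (l 14324376) (a (l 14424744) (l 14221064))) (l 14310920))))) (b (a (l 14555040) (b (l 14248040) (l 14243592))) (c (a (b (l 14610464) (c (c (l 14658576) (l 14657992)) (l 14622024))) (b (c (l 14295568) (l 14242912)) (c (b (l 14297720) (l 14278256)) (l 14261160)))) (l 14401720)))), by decide +kernel⟩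

def k21_pp_202_a : ∃ t, chk3 f_pp_202_a t 36 7 1 = true :=
  ⟨(b (c (b (a (c (l 14716544) (l 14726736)) (l 14318432)) (a (l 14836448) (l 14417152))) (c (b (c (a (b (c (l 14688080) (l 14692112)) (l 14702912)) (l 14291992)) (a (b (l 14668600) (l 14608336)) (b (c (l 14258608) (l 14256568)) (c (l 14294632) (l 14214968))))) (a (c (l 14821432) (b (c (l 14713120) (l 14774584)) (c (l 14848800) (a (l 14944960) (l 14733568))))) (b (l 14110448) (l 14404000)))) (b (a (l 14642640) (b (l 14214688) (l 14254576))) (a (c (c (b (l 14759056) (a (l 14947448) (l 14717072))) (l 14783232)) (l 14766160)) (c (b (c (a (l 14445272) (l 14213944)) (l 14312688)) (c (l 14383376) (a (l 14482648) (l 14256424)))) (l 14321832)))))) (c (a (b (c (l 15013456) (l 14985752)) (l 15213680)) (b (l 14554664) (l 14803936))) (c (a (b (b (l 14923360) (l 15010992)) (l 15176824)) (b (l 14522360) (l 14755568))) (b (a (c (b (c (a (l 15019944) (l 14799560)) (a (l 15015792) (l 14785096))) (c (l 14999976) (a (l 14851840) (l 14879952)))) (b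 (l 14897488) (a (l 15096488) (c (b (l 14843072) (l 14897040)) (l 14860664))))) (c (b (a (c (l 14568000) (l 14559736)) (l 14333032)) (l 14549768)) (b (c (a (l 14544728) (l 14254208)) (l 14312520)) (c (a (l 14646760) (l 14425008)) (a (l 14592288) (b (l 14383592) (l 14442296))))))) (a (c (l 15140928) (b (c (a (b (l 15173944) (l 15229856)) (l 14981672)) (a (l 15189112) (b (l 14943160) (l 15002128)))) (c (l 15211016) (a (b (l 15111832) (l 15340648)) (l 15095488))))) (b (a (c (l 14774384) (c (l 14762576) (l 14711192))) (l 1)) (l 1))))))), by decide +kernel⟩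

def k22_pp_202_a : ∃ t, chk3 f_pp_202_a t 37 3 1 = true :=
  ⟨(b (c (b (c (l 13831368) (c (a (l 14004840) (l 13622256)) (a (b (l 14023616) (l 13961480)) (l 13601040)))) (b (c (l 13749736) (l 13727856)) (l 13703112))) (b (c (a (b (l 13970760) (l 13757240)) (c (b (l 13623208) (c (l 13560328) (l 13533272))) (l 13543488))) (l 13685272)) (b (c (c (a (a (l 14017672) (l 13801448)) (l 13493096)) (a (l 13880136) (c (l 13468264) (l 13440960)))) (l 13573112)) (c (c (l 13652584) (a (c (b (l 13852816) (l 13847360)) (b (l 13850480) (l 13824584))) (l 13324328))) (c (a (l 13823360) (c (b (l 13392136) (l 13375960)) (l 13360216))) (l 13568808)))))) (b (c (b (a (l 13898904) (l 13469312)) (b (l 13737608) (a (l 14012168) (l 13564344)))) (c (b (a (b (c (l 13837592) (l 13825176)) (l 13853816)) (l 13392600)) (a (l 13919280) (l 13458104))) (b (c (a (b (c (l 13799696) (l 13793872)) (c (l 13825104) (l 13806504))) (b (c (l 13355344) (l 13336504)) (l 13355928))) (a (l 13791048) (b (l 13311288) (c (l 13332008) (l 13312728)))))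 (a (c (b (c (l 13868944) (l 13812336)) (l 13911752)) (b (c (l 13834488) (l 13827144)) (c (a (l 14009656) (l 13773968)) (a (l 13997752) (l 13759112))))) (c (l 13418712) (b (c (l 13367880) (a (l 13471072) (l 13230744))) (a (l 13526280) (l 13290792)))))))) (a (b (c (l 14147912) (c (l 14081568) (c (l 14048136) (b (c (l 13973960) (a (b (l 14047544) (l 14100808)) (l 13845264))) (l 14085152))))) (l 1)) (l 1)))), by decide +kernel⟩

def k23_pp_202_a : ∃ t, chk3 f_pp_202_a t 19 3 1 = true :=
  ⟨(a (b (c (a (b (c (l 13252528) (l 13216680)) (l 13095760)) (b (l 12999280) (l 12862992))) (b (c (a (c (b (a (l 13306784) (l 13127200)) (l 13147248)) (b (l 13199736) (a (l 13188272) (c (l 13025592) (l 12999320))))) (c (l 12938144) (b (l 12944928) (l 12863672)))) (a (a (l 13192832) (l 13008488)) (c (b (l 12918664) (l 12823216)) (l 12833944)))) (c (a (a (b (l 13146768) (l 13084152)) (l 12906864)) (l 12768000)) (a (b (c (a (l 13098040) (c (l 12905944) (l 12879856))) (l 12967912)) (c (a (c (l 13050608) (l 13029008))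 (l 12821904)) (a (l 13003328) (c (l 12792664) (l 12771424))))) (c (b (c (l 12761072) (l 12741224)) (l 12683168)) (b (l 12709224) (c (l 12653808) (b (l 12648800) (l 12617840))))))))) (b (b (c (a (l 13031464) (l 12794808)) (a (c (l 12933816) (c (l 12889584) (b (c (l 12734144) (a (l 12952864) (l 12728416))) (a (l 12962720) (l 12738760))))) (b (l 12652224) (l 1)))) (a (a (c (l 13199072) (l 311410774423)) (l 1)) (l 1))) (l 1))) (b (c (l 12716872) (c (b (l 12681168) (l 12548800)) (a (b (c (b (l 12738952) (l 12668344)) (b (l 12720432) (l 12626816))) (c (l 12570072) (b (c (l 12569960) (l 12548648)) (l 12498184)))) (b (c (l 12549400) (b (l 12543640) (l 12222928))) (l 12402824))))) (l 1))), by decide +kernel⟩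

def k24_pp_202_a : ∃ t, chk3 f_pp_202_a t 5 1 1 = true :=
  ⟨(a (b (a (c (b (b (l 12837864) (a (l 12875320) (l 12590968))) (a (b (l 12759200) (l 12615984)) (l 12392208))) (b (a (a (c (b (l 12955080) (c (l 12883736) (l 12852552))) (l 12842496)) (c (l 12745768) (b (l 12723368) (c (l 12653536) (l 12627976))))) (c (l 12477408) (b (c (l 12533736) (l 12495264)) (a (c (l 12498200) (l 12456240)) (l 12328640))))) (c (b (a (l 12660672) (l 12337624)) (l 12366464)) (a (b (c (a (l 12683552) (l 12518216)) (a (l 12667048) (l 12475672))) (c (a (l 12535752) (l 12379104)) (a (b (l 12531328) (l 12458664)) (b (l 12370448) (l 12302592))))) (b (a (c (l 12353568) (l 12311904)) (l 12188224)) (l 12135048)))))) (b (l 1) (l 1))) (b (a (b (c (l 12358000) (a (c (l 12380688) (a (c (l 12397352) (b (l 12389384) (l 12326920))) (l 1))) (l 1))) (l 1)) (l 1)) (l 1))) (l 1)), by decide +kernel⟩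

def k25_pp_202_a : ∃ t, chk3 f_pp_202_a t 3 1 1 = true :=
  ⟨(l 1), by decide +kernel⟩

theorem s26_pp_202_a : ∃ t, chk3 f_pp_202_a t 36 3 1 = true := ex3_b k20_pp_202_a k21_pp_202_a

theorem s27_pp_202_a : ∃ t, chk3 f_pp_202_a t 18 3 1 = true := ex3_a s26_pp_202_a k22_pp_202_a

theorem s28_pp_202_a : ∃ t, chk3 f_pp_202_a t 9 3 1 = true := ex3_a s27_pp_202_a k23_pp_202_a

theorem s29_pp_202_a : ∃ t, chk3 f_pp_202_a t 9 2 1 = true := ex3_a k18_pp_202_a k19_pp_202_a

theorem s30_pp_202_a : ∃ t, chk3 f_pp_202_a t 9 1 1 = true := ex3_b s29_pp_202_a s28_pp_202_a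

theorem s31_pp_202_a : ∃ t, chk3 f_pp_202_a t 17 15 3 = true := ex3_a k16_pp_202_a k17_pp_202_a

theorem s32_pp_202_a : ∃ t, chk3 f_pp_202_a t 17 7 3 = true := ex3_b k15_pp_202_a s31_pp_202_a

theorem s33_pp_202_a : ∃ t, chk3 f_pp_202_a t 17 7 2 = true := ex3_b k13_pp_202_a k14_pp_202_a

theorem s34_pp_202_a : ∃ t, chk3 f_pp_202_a t 17 7 1 = true := ex3_c s33_pp_202_a s32_pp_202_a

theorem s35_pp_202_a : ∃ t, chk3 f_pp_202_a t 17 3 1 = true := ex3_b k12_pp_202_a s34_pp_202_a

theorem s36_pp_202_a : ∃ t, chk3 f_pp_202_a t 16 15 3 = true := ex3_b k10_pp_202_a k11_pp_202_a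

theorem s37_pp_202_a : ∃ t, chk3 f_pp_202_a t 16 7 3 = true := ex3_b k9_pp_202_a s36_pp_202_a

theorem s38_pp_202_a : ∃ t, chk3 f_pp_202_a t 33 7 2 = true := ex3_b k7_pp_202_a k8_pp_202_a

theorem s39_pp_202_a : ∃ t, chk3 f_pp_202_a t 32 15 2 = true := ex3_c k5_pp_202_a k6_pp_202_a

theorem s40_pp_202_a : ∃ t, chk3 f_pp_202_a t 32 7 2 = true := ex3_b k4_pp_202_a s39_pp_202_a

theorem s41_pp_202_a : ∃ t, chk3 f_pp_202_a t 16 7 2 = true := ex3_a s40_pp_202_a s38_pp_202_a

theorem s42_pp_202_a : ∃ t, chk3 f_pp_202_a t 16 7 1 = true := ex3_c s41_pp_202_a s37_pp_202_a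

theorem s43_pp_202_a : ∃ t, chk3 f_pp_202_a t 16 6 1 = true := ex3_c k2_pp_202_a k3_pp_202_a

theorem s44_pp_202_a : ∃ t, chk3 f_pp_202_a t 16 3 1 = true := ex3_b s43_pp_202_a s42_pp_202_a

theorem s45_pp_202_a : ∃ t, chk3 f_pp_202_a t 8 3 1 = true := ex3_a s44_pp_202_a s35_pp_202_a

theorem s46_pp_202_a : ∃ t, chk3 f_pp_202_a t 8 2 1 = true := ex3_a k0_pp_202_a k1_pp_202_a

theorem s47_pp_202_a : ∃ t, chk3 f_pp_202_a t 8 1 1 = true := ex3_b s46_pp_202_a s45_pp_202_a

theorem s48_pp_202_a : ∃ t, chk3 f_pp_202_a t 4 1 1 = true := ex3_a s47_pp_202_a s30_pp_202_a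

theorem s49_pp_202_a : ∃ t, chk3 f_pp_202_a t 2 1 1 = true := ex3_a s48_pp_202_a k24_pp_202_a

theorem s50_pp_202_a : ∃ t, chk3 f_pp_202_a t 1 1 1 = true := ex3_a s49_pp_202_a k25_pp_202_a

theorem c_pp_202_a : CertNX 1073741824 536870912 0 420477299 1046898278 26843546 3 false true true .pp 2 0 2
    ndN7q2 ndN2q2a pcN0 Cut.none Ext.none :=
  certNX2 (fam := false) (s1 := true) (s2 := true) (a := 2) (b := 0) (c := 2) (cn := .pp) (n1 := ndN7q2) (n2 := ndN2q2a) (pc := pcN0) (cut := Cut.none) (xt := Ext.none) (P1 := 1073741824) (W1 := 536870912) (P2 := 0) (W2 := 420477299) (P3 := 1046898278) (W3 := 26843546) (N0 := 3)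
    rfl (fun _ => rfl) s50_pp_202_a

end Pool.Agent.Strip051.G.IE1.Tab.C.NB72

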