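import Pool.Agent.Strip051.G.IE1.Fact
import Pool.Agent.Strip051.PB.CFactX
import Pool.Agent.Strip051.PB.GoodT
import Pool.Agent.Strip051.LC.Box.Inst.IE1

/-! # The costs of the edges, IE1 (generated) -/

set_option linter.all false

namespace Pool.Agent.Strip051.G.IE1.Tab

open Pool.Agent.Strip051.PB Pool.Agent.StripNear Pool.Agent.StripSquare Pool.Agent.Strip051.Sweep
open Pool.Agent.Strip051.LC
open Pool.Agent.Strip051.LC.Box (Aff cbv Certs)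

/-- the costs, far vertices -/
def ccFC : List (List Aff) :=
  [[⟨.ofNat 1620, .ofNat 1208, .negSucc 1411⟩, ⟨.ofNat 1491, .negSucc 1098, .ofNat 301⟩, ⟨.ofNat 257, .negSucc 658, .ofNat 777⟩, ⟨.negSucc 2390, .negSucc 715, .ofNat 5525⟩],
   [⟨.ofNat 1183, .ofNat 1937, .negSucc 863⟩, ⟨.ofNat 811, .ofNat 1156, .negSucc 1295⟩, ⟨.negSucc 346, .negSucc 1222, .ofNat 151⟩],
   [⟨.ofNat 532, .ofNat 1674, .negSucc 1086⟩, ⟨.ofNat 871, .ofNat 1405, .negSucc 2221⟩, ⟨.negSucc 234, .negSucc 2441, .ofNat 1258⟩, ⟨.ofNat 498, .negSucc 1244, .ofNat 1315⟩],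
   [⟨.ofNat 913, .negSucc 150, .negSucc 287⟩, ⟨.ofNat 67, .negSucc 75, .negSucc 1072⟩, ⟨.ofNat 529, .negSucc 317, .ofNat 61⟩],
   [⟨.negSucc 45, .ofNat 710, .negSucc 391⟩, ⟨.ofNat 1306, .ofNat 2928, .negSucc 2915⟩, ⟨.ofNat 2477, .ofNat 69, .ofNat 23⟩],
   [⟨.negSucc 163, .ofNat 292, .ofNat 319⟩, ⟨.ofNat 2433, .ofNat 422, .negSucc 1440⟩],
   [⟨.ofNat 576, .ofNat 1297, .negSucc 957⟩, ⟨.ofNat 116, .negSucc 390, .negSucc 793⟩]]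

/-- the costs of unit edges, far vertices -/
def ccFU : List (List Aff) :=
  [[⟨.ofNat 445, .negSucc 436, .negSucc 307⟩, ⟨.negSucc 2601, .ofNat 91, .ofNat 2900⟩],
   [⟨.negSucc 319, .ofNat 1116, .ofNat 468⟩, ⟨.ofNat 2654, .ofNat 1262, .negSucc 2305⟩, ⟨.ofNat 1027, .negSucc 3, .negSucc 150⟩, ⟨.ofNat 1597, .ofNat 1873, .negSucc 1686⟩],
   [⟨.ofNat 1053, .ofNat 3598, .negSucc 3482⟩, ⟨.ofNat 2395, .ofNat 6601, .negSucc 6456⟩, ⟨.ofNat 852, .negSucc 409, .ofNat 437⟩]]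

theorem ccFC_eq : ccFC = LC.Box.IE1.C := rfl

theorem ccFU_eq : ccFU = LC.Box.IE1.U := rfl

/-- the costs, near vertices -/
def ccNC : List (List Aff) :=
  [[⟨.ofNat 1620, .ofNat 1208, .negSucc 1411⟩, ⟨.ofNat 1491, .negSucc 1098, .ofNat 301⟩, ⟨.ofNat 257, .negSucc 658, .ofNat 777⟩, ⟨.negSucc 2390, .negSucc 715, .ofNat 5525⟩],
   [⟨.ofNat 1183, .ofNat 1937, .negSucc 863⟩, ⟨.ofNat 811, .ofNat 1156, .negSucc 1295⟩, ⟨.negSucc 346, .negSucc 1222, .ofNat 151⟩],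
   [⟨.ofNat 532, .ofNat 1674, .negSucc 1086⟩, ⟨.ofNat 871, .ofNat 1405, .negSucc 2221⟩, ⟨.negSucc 234, .negSucc 2441, .ofNat 1258⟩, ⟨.ofNat 498, .negSucc 1244, .ofNat 1315⟩],
   [⟨.ofNat 913, .negSucc 150, .negSucc 287⟩, ⟨.ofNat 67, .negSucc 75, .negSucc 1072⟩, ⟨.ofNat 529, .negSucc 317, .ofNat 61⟩],
   [⟨.negSucc 45, .ofNat 710, .negSucc 391⟩, ⟨.ofNat 1306, .ofNat 2928, .negSucc 2915⟩, ⟨.ofNat 2477, .ofNat 69, .ofNat 23⟩],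
   [⟨.negSucc 163, .ofNat 292, .ofNat 319⟩, ⟨.ofNat 2433, .ofNat 422, .negSucc 1440⟩],
   [⟨.ofNat 576, .ofNat 1297, .negSucc 957⟩, ⟨.ofNat 116, .negSucc 390, .negSucc 793⟩]]

/-- the costs of unit edges, near vertices -/
def ccNU : List (List Aff) :=
  [[⟨.ofNat 445, .negSucc 436, .negSucc 307⟩, ⟨.negSucc 2601, .ofNat 91, .ofNat 2900⟩],
   [⟨.negSucc 319, .ofNat 1116, .ofNat 468⟩, ⟨.ofNat 2654, .ofNat 1262, .negSucc 2305⟩, ⟨.ofNat 1027, .negSucc 3, .negSucc 150⟩, ⟨.ofNat 1597, .ofNat 1873, .negSucc 1686⟩],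
   [⟨.ofNat 1053, .ofNat 3598, .negSucc 3482⟩, ⟨.ofNat 2395, .ofNat 6601, .negSucc 6456⟩, ⟨.ofNat 852, .negSucc 409, .ofNat 437⟩]]

theorem ccNC_eq : ccNC = LC.Box.IE1.C := rfl

theorem ccNU_eq : ccNU = LC.Box.IE1.U := rfl

theorem wallF {x : ℝ} (hx : 39 / 40 ≤ x) (hx' : x < 1) :
    4096 * we (h0 * x) ≤ (129 : ℤ) := by
  refine we_tan' (c := (2679 / 5000)) (by linarith) (by linarith) (by norm_num) ?_
  norm_num
  nlinarith [sq_nonneg (x - (39 / 40))]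

theorem wallN {x : ℝ} (hx : 39 / 40 ≤ x) (hx' : x < 1) :
    4096 * (we (h0 * x) + mu 3 (h0 * x) * wq (h0 * x)) ≤ (129 : ℤ) := by
  refine wn_tan' (c := (2679 / 5000)) (m := (10179 / 2500)) (by linarith) (by linarith) (by norm_num)
    (by norm_num) ?_
  norm_num
  nlinarith [sq_nonneg (x - (39 / 40))]

theorem cstF0_0 : CertX 0 536870912 1046898278 26843546 (CX.nd ndF0q0) (CX.nd ndF1q0) idf esF hfF 0 ccFC :=
  ⟨T.a (T.a (T.a (T.a (T.l 16) (T.l 16)) (T.l 16)) (T.a (T.l 16) (T.a (T.l 16) (T.l 16)))) (T.a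
    (T.c (T.l 16) (T.a (T.l 16) (T.l 16))) (T.c (T.a (T.l 16) (T.l 16)) (T.a (T.a (T.l 16) (T.l 16))
    (T.c (T.l 16) (T.a (T.l 16) (T.a (T.l 16) (T.l 16))))))), by decide +kernel⟩

theorem cstF0_1 : CertX 0 536870912 1046898278 26843546 (CX.nd ndF1q0) (CX.nd ndF2q0) idf esF hfF 0 ccFC :=
  ⟨T.a (T.a (T.a (T.a (T.l 16) (T.l 16)) (T.l 16)) (T.l 16)) (T.l 16), by decide +kernel⟩

theorem cstF0_2 : CertX 0 536870912 1046898278 26843546 (CX.nd ndF2q0) (CX.nd ndF3q0) idf esF hfF 0 ccFC :=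
  ⟨T.a (T.a (T.a (T.l 16) (T.l 16)) (T.l 16)) (T.a (T.l 16) (T.l 16)), by decide +kernel⟩

theorem cstF0_3 : CertX 0 536870912 1046898278 26843546 (CX.nd ndF3q0) (CX.nd ndF4q0) idf esF hfF 0 ccFC :=
  ⟨T.a (T.a (T.a (T.a (T.l 16) (T.l 16)) (T.l 16)) (T.a (T.l 16) (T.l 16))) (T.a (T.l 16) (T.a (T.l
    16) (T.l 16))), by decide +kernel⟩

theorem cstF0_4 : CertX 0 536870912 1046898278 26843546 (CX.nd ndF4q0) (CX.nd ndF5q0) idf esF hfF 0 ccFC :=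
  ⟨T.a (T.a (T.a (T.a (T.l 16) (T.l 16)) (T.l 16)) (T.a (T.l 16) (T.l 16))) (T.a (T.l 16) (T.a (T.l
    16) (T.l 16))), by decide +kernel⟩

theorem cstF0_5 : CertX 0 536870912 1046898278 26843546 (CX.nd ndF5q0) (CX.nd ndF6q0) idf esF hfF 0 ccFC :=
  ⟨T.a (T.a (T.a (T.a (T.l 16) (T.l 16)) (T.l 16)) (T.l 16)) (T.a (T.l 16) (T.l 16)), by decide +kernel⟩

theorem cstF0_6 : CertX 0 536870912 1046898278 26843546 (CX.nd ndF6q0) (CX.nd ndF7q0) idf esF hfF 0 ccFC :=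
  ⟨T.a (T.c (T.a (T.l 16) (T.l 16)) (T.c (T.a (T.l 16) (T.l 16)) (T.a (T.c (T.l 16) (T.a (T.a (T.l
    16) (T.l 16)) (T.a (T.a (T.l 16) (T.l 16)) (T.a (T.l 16) (T.a (T.l 16) (T.l 16)))))) (T.c (T.l
    16) (T.a (T.c (T.l 16) (T.a (T.a (T.l 16) (T.l 16)) (T.a (T.l 16) (T.l 16)))) (T.a (T.a (T.l 16)
    (T.l 16)) (T.l 16))))))) (T.c (T.a (T.l 16) (T.l 16)) (T.a (T.c (T.l 16) (T.a (T.a (T.l 16) (T.l
    16)) (T.l 16))) (T.a (T.a (T.l 16) (T.l 16)) (T.l 16)))), by decide +kernel⟩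

theorem cstF1_0 : CertX 536870912 536870912 1046898278 26843546 (CX.nd ndF0q1) (CX.nd ndF1q1) idf esF hfF 1 ccFC :=
  ⟨T.a (T.a (T.c (T.a (T.l 16) (T.l 16)) (T.c (T.a (T.l 16) (T.l 16)) (T.a (T.c (T.l 16) (T.a (T.a
    (T.l 16) (T.l 16)) (T.a (T.l 16) (T.a (T.l 16) (T.l 16))))) (T.c (T.l 16) (T.a (T.a (T.a (T.l
    16) (T.a (T.l 16) (T.l 16))) (T.a (T.l 16) (T.l 16))) (T.a (T.l 16) (T.l 16))))))) (T.a (T.c
    (T.l 16) (T.c (T.l 16) (T.a (T.a (T.l 16) (T.l 16)) (T.l 16)))) (T.c (T.l 16) (T.a (T.a (T.l 16)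
    (T.l 16)) (T.a (T.l 16) (T.l 16)))))) (T.a (T.a (T.c (T.l 16) (T.a (T.a (T.l 16) (T.l 16)) (T.a
    (T.l 16) (T.l 16)))) (T.a (T.c (T.l 16) (T.l 16)) (T.l 16))) (T.a (T.a (T.l 16) (T.l 16)) (T.a
    (T.l 176) (T.l 176)))), by decide +kernel⟩

theorem cstF1_1 : CertX 536870912 536870912 1046898278 26843546 (CX.nd ndF1q1) (CX.nd ndF2q1) idf esF hfF 1 ccFC :=
  ⟨T.a (T.a (T.a (T.l 16) (T.l 16)) (T.a (T.l 16) (T.l 16))) (T.a (T.l 16) (T.a (T.l 16) (T.a (T.l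
    16) (T.l 176)))), by decide +kernel⟩

theorem cstF1_2 : CertX 536870912 536870912 1046898278 26843546 (CX.nd ndF2q1) (CX.nd ndF3q1) idf esF hfF 1 ccFC :=
  ⟨T.a (T.a (T.l 16) (T.l 16)) (T.a (T.l 16) (T.a (T.l 16) (T.l 16))), by decide +kernel⟩

theorem cstF1_3 : CertX 536870912 536870912 1046898278 26843546 (CX.nd ndF3q1) (CX.nd ndF4q1) idf esF hfF 1 ccFC :=
  ⟨T.a (T.a (T.a (T.l 16) (T.l 16)) (T.l 16)) (T.a (T.l 16) (T.a (T.l 16) (T.l 16))), by decide +kernel⟩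

theorem cstF1_4 : CertX 536870912 536870912 1046898278 26843546 (CX.nd ndF4q1) (CX.nd ndF5q1) idf esF hfF 1 ccFC :=
  ⟨T.a (T.a (T.a (T.l 16) (T.l 16)) (T.l 16)) (T.a (T.l 16) (T.a (T.l 16) (T.l 16))), by decide +kernel⟩

theorem cstF1_5 : CertX 536870912 536870912 1046898278 26843546 (CX.nd ndF5q1) (CX.nd ndF6q1) idf esF hfF 1 ccFC :=
  ⟨T.a (T.l 16) (T.a (T.l 16) (T.l 16)), by decide +kernel⟩

theorem cstF1_6 : CertX 536870912 536870912 1046898278 26843546 (CX.nd ndF6q1) (CX.nd ndF7q1) idf esF hfF 1 ccFC :=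
  ⟨T.a (T.a (T.c (T.l 16) (T.a (T.l 16) (T.l 16))) (T.a (T.l 16) (T.l 16))) (T.a (T.a (T.l 16) (T.l
    16)) (T.l 16)), by decide +kernel⟩

theorem cstF2a_0 : CertX 0 536870912 1046898278 26843546 (CX.nd ndF0q2) (CX.nd ndF1q2a) yag esF hfF 2 ccFC :=
  ⟨T.a (T.a (T.c (T.a (T.a (T.c (T.a (T.a (T.l 144) (T.l 144)) (T.a (T.l 144) (T.l 144))) (T.a (T.a
    (T.l 144) (T.l 144)) (T.a (T.l 144) (T.l 144)))) (T.c (T.a (T.l 144) (T.l 144)) (T.a (T.l 144)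
    (T.l 144)))) (T.c (T.a (T.a (T.l 144) (T.l 144)) (T.a (T.l 144) (T.l 144))) (T.a (T.a (T.l 144)
    (T.l 144)) (T.a (T.l 144) (T.l 144))))) (T.a (T.a (T.c (T.a (T.c (T.l 144) (T.l 144)) (T.a (T.l
    144) (T.l 144))) (T.a (T.c (T.l 144) (T.l 144)) (T.a (T.l 144) (T.l 144)))) (T.c (T.a (T.l 144)
    (T.l 144)) (T.a (T.l 144) (T.l 144)))) (T.a (T.c (T.a (T.l 144) (T.l 144)) (T.l 144)) (T.c (T.l
    144) (T.l 144))))) (T.c (T.a (T.c (T.a (T.l 144) (T.l 144)) (T.a (T.l 144) (T.l 144))) (T.c (T.a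
    (T.a (T.l 144) (T.l 144)) (T.a (T.l 144) (T.a (T.l 144) (T.l 144)))) (T.a (T.l 144) (T.l 144))))
    (T.a (T.c (T.a (T.l 144) (T.l 144)) (T.l 144)) (T.c (T.a (T.l 144) (T.l 144)) (T.l 144))))) (T.a
    (T.a (T.c (T.a (T.c (T.c (T.a (T.l 144) (T.a (T.l 144) (T.l 144))) (T.a (T.l 144) (T.l 144)))
    (T.a (T.l 144) (T.l 144))) (T.c (T.c (T.a (T.a (T.l 144) (T.l 144)) (T.l 144)) (T.l 144)) (T.a
    (T.l 144) (T.l 144)))) (T.c (T.a (T.l 144) (T.l 144)) (T.a (T.l 144) (T.l 144)))) (T.c (T.a (T.c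
    (T.c (T.a (T.a (T.l 144) (T.l 144)) (T.a (T.l 144) (T.l 144))) (T.a (T.l 144) (T.l 144))) (T.a
    (T.l 144) (T.l 144))) (T.c (T.a (T.l 144) (T.l 144)) (T.l 144))) (T.a (T.c (T.l 144) (T.l 144))
    (T.a (T.l 144) (T.l 144))))) (T.a (T.c (T.a (T.a (T.a (T.l 144) (T.l 144)) (T.a (T.l 144) (T.l
    144))) (T.a (T.l 144) (T.l 144))) (T.a (T.a (T.l 144) (T.l 144)) (T.l 144))) (T.c (T.l 144) (T.l
    144)))), by decide +kernel⟩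

theorem cstF2a_1 : CertX 0 536870912 1046898278 26843546 (CX.nd ndF1q2a) (CX.nd ndF2q2a) yag esF hfF 2 ccFC :=
  ⟨T.a (T.a (T.c (T.l 144) (T.l 144)) (T.c (T.l 144) (T.l 144))) (T.a (T.c (T.a (T.c (T.l 144) (T.l
    144)) (T.a (T.l 144) (T.l 144))) (T.a (T.l 144) (T.l 144))) (T.a (T.c (T.a (T.l 144) (T.l 144))
    (T.a (T.l 144) (T.l 144))) (T.a (T.l 144) (T.l 144)))), by decide +kernel⟩

theorem cstF2a_2 : CertX 0 536870912 1046898278 26843546 (CX.nd ndF2q2a) (CX.ndc ndF3q2 yag) yag esF hfF 2 ccFC :=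
  ⟨T.a (T.a (T.l 144) (T.l 144)) (T.a (T.l 144) (T.a (T.a (T.l 144) (T.l 144)) (T.l 144))), by decide +kernel⟩

theorem cstF2a_3 : CertX 0 536870912 1046898278 26843546 (CX.ndc ndF3q2 yag) (CX.ndc ndF4q2 yag) yag esF hfF 2 ccFC :=
  ⟨T.a (T.a (T.l 144) (T.l 144)) (T.a (T.a (T.l 176) (T.l 176)) (T.a (T.l 176) (T.l 176))), by decide +kernel⟩

theorem cstF2a_4 : CertX 0 536870912 1046898278 26843546 (CX.ndc ndF4q2 yag) (CX.ndc ndF5q2 yag) yag esF hfF 2 ccFC :=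
  ⟨T.a (T.a (T.l 176) (T.l 176)) (T.a (T.a (T.l 176) (T.l 176)) (T.a (T.l 176) (T.l 176))), by decide +kernel⟩

theorem cstF2a_5 : CertX 0 536870912 1046898278 26843546 (CX.ndc ndF5q2 yag) (CX.ndc ndF6q2 yag) yag esF hfF 2 ccFC :=
  ⟨T.a (T.a (T.l 176) (T.l 176)) (T.a (T.l 176) (T.l 176)), by decide +kernel⟩

theorem cstF2a_6 : CertX 0 536870912 1046898278 26843546 (CX.ndc ndF6q2 yag) (CX.ndc ndF7q2 yag) yag esF hfF 2 ccFC :=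
  ⟨T.a (T.a (T.l 16) (T.l 16)) (T.a (T.l 16) (T.l 16)), by decide +kernel⟩

theorem cstF2b_0 : CertX 1239849684 370763052 1046898278 26843546 CX.zr (CX.nd ndF1q2b) idf esF hfF 2 ccFC :=
  ⟨T.a (T.c (T.a (T.l 144) (T.l 144)) (T.a (T.l 144) (T.l 144))) (T.l 144), by decide +kernel⟩

theorem cstF2b_1 : CertX 1239849684 370763052 1046898278 26843546 (CX.nd ndF1q2b) (CX.nd ndF2q2b) idf esF hfF 2 ccFC :=
  ⟨T.a (T.c (T.a (T.l 144) (T.l 144)) (T.a (T.l 144) (T.l 144))) (T.l 144), by decide +kernel⟩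

theorem cstF2b_2 : CertX 1239849684 370763052 1046898278 26843546 (CX.nd ndF2q2b) (CX.nd ndF3q2) idf esF hfF 2 ccFC :=
  ⟨T.a (T.c (T.l 144) (T.l 144)) (T.l 144), by decide +kernel⟩

theorem cstF2b_3 : CertX 1239849684 370763052 1046898278 26843546 (CX.nd ndF3q2) (CX.nd ndF4q2) idf esF hfF 2 ccFC :=
  ⟨T.a (T.a (T.a (T.l 144) (T.l 144)) (T.a (T.l 144) (T.l 144))) (T.l 144), by decide +kernel⟩

theorem cstF2b_4 : CertX 1239849684 370763052 1046898278 26843546 (CX.nd ndF4q2) (CX.nd ndF5q2) idf esF hfF 2 ccFC :=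
  ⟨T.a (T.a (T.a (T.l 176) (T.l 90242)) (T.a (T.l 144) (T.l 144))) (T.l 144), by decide +kernel⟩

theorem cstF2b_5 : CertX 1239849684 370763052 1046898278 26843546 (CX.nd ndF5q2) (CX.nd ndF6q2) idf esF hfF 2 ccFC :=
  ⟨T.a (T.a (T.a (T.l 176) (T.l 176)) (T.l 176)) (T.l 144), by decide +kernel⟩

theorem cstF2b_6 : CertX 1239849684 370763052 1046898278 26843546 (CX.nd ndF6q2) (CX.nd ndF7q2) idf esF hfF 2 ccFC :=
  ⟨T.a (T.c (T.a (T.l 16) (T.a (T.l 16) (T.l 16))) (T.a (T.l 16) (T.l 16))) (T.a (T.c (T.a (T.l 16)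
    (T.l 16)) (T.l 176)) (T.c (T.l 144) (T.a (T.l 144) (T.l 144)))), by decide +kernel⟩

theorem cstF3_0 : CertX 0 1230186008 1046898278 26843546 CX.zr (CX.ndc ndF1q3 ycg) ycg esF hfF 3 ccFC :=
  ⟨T.a (T.l 144) (T.a (T.l 144) (T.l 144)), by decide +kernel⟩

theorem cstF3_1 : CertX 0 1230186008 1046898278 26843546 (CX.ndc ndF1q3 ycg) (CX.ndc ndF2q3 ycg) ycg esF hfF 3 ccFC :=
  ⟨T.a (T.a (T.l 144) (T.l 144)) (T.a (T.l 144) (T.l 144)), by decide +kernel⟩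

theorem cstF3_2 : CertX 0 1230186008 1046898278 26843546 (CX.ndc ndF2q3 ycg) (CX.ndc ndF3q3 ycg) ycg esF hfF 3 ccFC :=
  ⟨T.a (T.a (T.l 144) (T.l 144)) (T.a (T.l 144) (T.l 144)), by decide +kernel⟩

theorem cstF3_3 : CertX 0 1230186008 1046898278 26843546 (CX.ndc ndF3q3 ycg) (CX.nd ndF4q3) ycg esF hfF 3 ccFC :=
  ⟨T.a (T.a (T.l 144) (T.a (T.l 144) (T.l 144))) (T.a (T.l 144) (T.a (T.l 144) (T.l 144))), by decide +kernel⟩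

theorem cstF3_4 : CertX 0 1230186008 1046898278 26843546 (CX.nd ndF4q3) (CX.nd ndF5q3) ycg esF hfF 3 ccFC :=
  ⟨T.a (T.a (T.l 144) (T.a (T.l 144) (T.l 144))) (T.a (T.l 144) (T.a (T.l 144) (T.l 144))), by decide +kernel⟩

theorem cstF3_5 : CertX 0 1230186008 1046898278 26843546 (CX.nd ndF5q3) (CX.nd ndF6q3) ycg esF hfF 3 ccFC :=
  ⟨T.a (T.a (T.l 144) (T.a (T.l 144) (T.l 144))) (T.a (T.a (T.l 144) (T.a (T.l 144) (T.l 144)))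
    (T.a (T.a (T.l 144) (T.l 144)) (T.l 144))), by decide +kernel⟩

theorem cstF3_6 : CertX 0 1230186008 1046898278 26843546 (CX.nd ndF6q3) (CX.nd ndF7q3) ycg esF hfF 3 ccFC :=
  ⟨T.a (T.a (T.a (T.a (T.l 144) (T.a (T.l 144) (T.l 144))) (T.a (T.a (T.l 144) (T.l 144)) (T.l
    144))) (T.a (T.c (T.a (T.l 144) (T.l 144)) (T.a (T.l 144) (T.l 144))) (T.c (T.a (T.l 144) (T.l
    144)) (T.a (T.l 144) (T.l 144))))) (T.a (T.c (T.a (T.a (T.l 144) (T.a (T.l 144) (T.l 144))) (T.a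
    (T.l 144) (T.l 144))) (T.a (T.a (T.a (T.l 144) (T.l 144)) (T.c (T.l 144) (T.a (T.l 144) (T.l
    144)))) (T.c (T.a (T.l 144) (T.l 144)) (T.a (T.a (T.l 144) (T.l 144)) (T.a (T.l 144) (T.l
    144)))))) (T.a (T.c (T.a (T.a (T.l 144) (T.l 144)) (T.l 144)) (T.a (T.c (T.l 144) (T.a (T.a (T.l
    144) (T.l 144)) (T.a (T.l 144) (T.l 144)))) (T.c (T.l 144) (T.a (T.a (T.l 144) (T.l 144)) (T.l
    144))))) (T.c (T.a (T.l 144) (T.l 144)) (T.a (T.a (T.a (T.l 144) (T.l 144)) (T.l 144)) (T.a (T.l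
    144) (T.l 144)))))), by decide +kernel⟩

theorem cstFU0_0 : CertX 0 536870912 1046898278 26843546 (CX.nd ndF0q0) (CX.nd ndF0q0) idf esF hfF 0 ccFU :=
  ⟨T.a (T.a (T.a (T.c (T.a (T.l 16) (T.l 16)) (T.l 16)) (T.c (T.a (T.l 16) (T.l 16)) (T.a (T.l 16)
    (T.a (T.l 16) (T.l 48))))) (T.a (T.c (T.a (T.l 48) (T.l 48)) (T.a (T.a (T.l 48) (T.l 48)) (T.l
    48))) (T.c (T.l 48) (T.c (T.l 48) (T.a (T.l 48) (T.a (T.l 48) (T.l 48))))))) (T.a (T.c (T.a (T.l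
    48) (T.l 48)) (T.a (T.c (T.l 48) (T.c (T.l 48) (T.a (T.a (T.l 48) (T.a (T.l 48) (T.l 48))) (T.a
    (T.a (T.l 48) (T.l 48)) (T.a (T.l 48) (T.l 48)))))) (T.c (T.l 48) (T.c (T.l 48) (T.a (T.a (T.a
    (T.l 48) (T.l 48)) (T.a (T.l 48) (T.l 48))) (T.a (T.l 48) (T.l 48))))))) (T.c (T.a (T.l 48) (T.l
    48)) (T.a (T.c (T.l 48) (T.c (T.l 48) (T.a (T.a (T.l 48) (T.l 48)) (T.l 48)))) (T.c (T.l 48)
    (T.c (T.l 48) (T.a (T.l 48) (T.a (T.l 48) (T.l 48)))))))), by decide +kernel⟩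

theorem cstFU1_0 : CertX 536870912 536870912 1046898278 26843546 (CX.nd ndF0q1) (CX.nd ndF0q1) idf esF hfF 1 ccFU :=
  ⟨T.a (T.a (T.c (T.a (T.l 48) (T.l 48)) (T.c (T.a (T.l 48) (T.l 48)) (T.a (T.a (T.a (T.l 48) (T.l
    48)) (T.a (T.l 48) (T.l 48))) (T.a (T.a (T.l 48) (T.l 48)) (T.a (T.l 48) (T.l 48)))))) (T.a (T.c
    (T.l 48) (T.c (T.l 48) (T.c (T.l 48) (T.a (T.l 48) (T.a (T.l 48) (T.l 48)))))) (T.c (T.l 48)
    (T.c (T.l 48) (T.a (T.a (T.l 48) (T.l 48)) (T.a (T.l 48) (T.l 48))))))) (T.a (T.a (T.c (T.a (T.l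
    48) (T.l 48)) (T.c (T.a (T.l 48) (T.l 48)) (T.a (T.a (T.a (T.l 48) (T.l 48)) (T.a (T.l 48) (T.l
    48))) (T.c (T.l 48) (T.a (T.l 48) (T.a (T.l 48) (T.l 48))))))) (T.c (T.a (T.l 48) (T.l 48)) (T.a
    (T.c (T.l 48) (T.a (T.a (T.l 48) (T.l 48)) (T.a (T.l 48) (T.l 48)))) (T.a (T.a (T.l 48) (T.l
    48)) (T.l 48))))) (T.a (T.a (T.c (T.l 48) (T.a (T.l 48) (T.l 48))) (T.a (T.l 48) (T.l 48))) (T.a
    (T.a (T.l 48) (T.l 48)) (T.l 48)))), by decide +kernel⟩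

theorem cstFU2_0 : CertX 0 536870912 1046898278 26843546 (CX.nd ndF0q2) (CX.nd ndF0q2) yag esF hfF 2 ccFU :=
  ⟨T.a (T.a (T.c (T.a (T.c (T.a (T.a (T.l 80) (T.l 80)) (T.a (T.l 80) (T.l 80))) (T.a (T.a (T.l 80)
    (T.l 80)) (T.a (T.l 80) (T.l 80)))) (T.c (T.a (T.a (T.l 80) (T.l 80)) (T.a (T.l 80) (T.l 80)))
    (T.a (T.a (T.l 80) (T.l 80)) (T.a (T.l 80) (T.l 80))))) (T.a (T.a (T.c (T.a (T.l 80) (T.l 80))
    (T.a (T.l 80) (T.l 80))) (T.c (T.a (T.l 80) (T.l 80)) (T.a (T.l 80) (T.l 80)))) (T.c (T.a (T.a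
    (T.l 80) (T.l 80)) (T.a (T.l 80) (T.l 80))) (T.a (T.a (T.l 80) (T.l 80)) (T.l 80))))) (T.c (T.a
    (T.c (T.a (T.a (T.l 80) (T.l 80)) (T.a (T.l 80) (T.l 80))) (T.a (T.a (T.l 80) (T.l 80)) (T.l
    80))) (T.c (T.a (T.a (T.l 80) (T.l 80)) (T.a (T.l 80) (T.l 80))) (T.a (T.a (T.l 80) (T.l 80))
    (T.l 80)))) (T.a (T.c (T.a (T.l 80) (T.l 80)) (T.a (T.l 80) (T.l 80))) (T.c (T.a (T.l 80) (T.l
    80)) (T.a (T.l 80) (T.l 80)))))) (T.a (T.a (T.c (T.a (T.c (T.a (T.l 80) (T.a (T.l 80) (T.l 80)))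
    (T.a (T.l 80) (T.l 80))) (T.c (T.c (T.a (T.a (T.l 80) (T.l 80)) (T.c (T.a (T.l 80) (T.l 80))
    (T.l 80))) (T.a (T.l 80) (T.l 80))) (T.a (T.l 80) (T.l 80)))) (T.c (T.a (T.l 80) (T.l 80)) (T.a
    (T.l 80) (T.l 80)))) (T.c (T.a (T.c (T.c (T.a (T.c (T.a (T.l 80) (T.l 80)) (T.l 80)) (T.a (T.a
    (T.l 80) (T.l 80)) (T.l 80))) (T.a (T.l 80) (T.l 80))) (T.a (T.l 80) (T.l 80))) (T.c (T.c (T.a
    (T.l 80) (T.l 80)) (T.l 80)) (T.l 80))) (T.a (T.c (T.l 80) (T.l 80)) (T.a (T.l 80) (T.l 80)))))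
    (T.a (T.c (T.a (T.a (T.a (T.l 80) (T.l 80)) (T.a (T.l 80) (T.l 80))) (T.a (T.l 80) (T.l 80)))
    (T.a (T.a (T.l 80) (T.l 80)) (T.a (T.l 80) (T.l 80)))) (T.c (T.l 80) (T.l 80)))), by decide +kernel⟩

theorem segF0_0 {x : ℝ} (hx : 39 / 40 ≤ x) (hx' : x < 1) :
    SegR (crv (PP x)) tKF tL zrT (esn x) (1 / 2) 0 ccFC 0 (0 : Fin 7) x :=
  SegV.all (cstF0_0.seg (c := fun y => y) ⟨x1 hx, x2 hx'⟩ (fun y h hv => rng_0 h) (fun _ _ _ => rfl) rfl rfl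
      (fun y h hv => (atF00 hx hx' ⟨h, fun _ => on_0 h⟩).atM)
      (fun y h hv => (atF10 hx hx' ⟨h, fun e => absurd e (by decide)⟩).atM))

theorem segF0_1 {x : ℝ} (hx : 39 / 40 ≤ x) (hx' : x < 1) :
    SegR (crv (PP x)) tKF tL zrT (esn x) (1 / 2) 0 ccFC 0 (1 : Fin 7) x :=
  SegV.all (cstF0_1.seg (c := fun y => y) ⟨x1 hx, x2 hx'⟩ (fun y h hv => rng_0 h) (fun _ _ _ => rfl) rfl rfl
      (fun y h hv => (atF10 hx hx' ⟨h, fun e => absurd e (by decide)⟩).atM)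
      (fun y h hv => (atF20 hx hx' ⟨h, fun e => absurd e (by decide)⟩).atM))

theorem segF0_2 {x : ℝ} (hx : 39 / 40 ≤ x) (hx' : x < 1) :
    SegR (crv (PP x)) tKF tL zrT (esn x) (1 / 2) 0 ccFC 0 (2 : Fin 7) x :=
  SegV.all (cstF0_2.seg (c := fun y => y) ⟨x1 hx, x2 hx'⟩ (fun y h hv => rng_0 h) (fun _ _ _ => rfl) rfl rfl
      (fun y h hv => (atF20 hx hx' ⟨h, fun e => absurd e (by decide)⟩).atM)
      (fun y h hv => (atF30 hx hx' ⟨h, fun e => absurd e (by decide)⟩).atM))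

theorem segF0_3 {x : ℝ} (hx : 39 / 40 ≤ x) (hx' : x < 1) :
    SegR (crv (PP x)) tKF tL zrT (esn x) (1 / 2) 0 ccFC 0 (3 : Fin 7) x :=
  SegV.all (cstF0_3.seg (c := fun y => y) ⟨x1 hx, x2 hx'⟩ (fun y h hv => rng_0 h) (fun _ _ _ => rfl) rfl rfl
      (fun y h hv => (atF30 hx hx' ⟨h, fun e => absurd e (by decide)⟩).atM)
      (fun y h hv => (atF40 hx hx' ⟨h, fun e => absurd e (by decide)⟩).atM))

theorem segF0_4 {x : ℝ} (hx : 39 / 40 ≤ x) (hx' : x < 1) :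
    SegR (crv (PP x)) tKF tL zrT (esn x) (1 / 2) 0 ccFC 0 (4 : Fin 7) x :=
  SegV.all (cstF0_4.seg (c := fun y => y) ⟨x1 hx, x2 hx'⟩ (fun y h hv => rng_0 h) (fun _ _ _ => rfl) rfl rfl
      (fun y h hv => (atF40 hx hx' ⟨h, fun e => absurd e (by decide)⟩).atM)
      (fun y h hv => (atF50 hx hx' ⟨h, fun e => absurd e (by decide)⟩).atM))

theorem segF0_5 {x : ℝ} (hx : 39 / 40 ≤ x) (hx' : x < 1) :
    SegR (crv (PP x)) tKF tL zrT (esn x) (1 / 2) 0 ccFC 0 (5 : Fin 7) x :=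
  SegV.all (cstF0_5.seg (c := fun y => y) ⟨x1 hx, x2 hx'⟩ (fun y h hv => rng_0 h) (fun _ _ _ => rfl) rfl rfl
      (fun y h hv => (atF50 hx hx' ⟨h, fun e => absurd e (by decide)⟩).atM)
      (fun y h hv => (atF60 hx hx' ⟨h, fun e => absurd e (by decide)⟩).atM))

theorem segF0_6 {x : ℝ} (hx : 39 / 40 ≤ x) (hx' : x < 1) :
    SegR (crv (PP x)) tKF tL zrT (esn x) (1 / 2) 0 ccFC 0 (6 : Fin 7) x :=
  SegV.all (cstF0_6.seg (c := fun y => y) ⟨x1 hx, x2 hx'⟩ (fun y h hv => rng_0 h) (fun _ _ _ => rfl) rfl rfl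
      (fun y h hv => (atF60 hx hx' ⟨h, fun e => absurd e (by decide)⟩).atM)
      (fun y h hv => (atF70 hx hx' ⟨h, fun e => absurd e (by decide)⟩).atM))

theorem segF1_0 {x : ℝ} (hx : 39 / 40 ≤ x) (hx' : x < 1) :
    SegR (crv (PP x)) tKF tL zrT (esn x) (1 / 2) 0 ccFC 1 (0 : Fin 7) x :=
  SegV.all (cstF1_0.seg (c := fun y => y) ⟨x1 hx, x2 hx'⟩ (fun y h hv => rng_1 h) (fun _ _ _ => rfl) rfl rfl
      (fun y h hv => (atF01 hx hx' ⟨h, fun _ => on_1 h⟩).atM)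
      (fun y h hv => (atF11 hx hx' ⟨h, fun e => absurd e (by decide)⟩).atM))

theorem segF1_1 {x : ℝ} (hx : 39 / 40 ≤ x) (hx' : x < 1) :
    SegR (crv (PP x)) tKF tL zrT (esn x) (1 / 2) 0 ccFC 1 (1 : Fin 7) x :=
  SegV.all (cstF1_1.seg (c := fun y => y) ⟨x1 hx, x2 hx'⟩ (fun y h hv => rng_1 h) (fun _ _ _ => rfl) rfl rfl
      (fun y h hv => (atF11 hx hx' ⟨h, fun e => absurd e (by decide)⟩).atM)
      (fun y h hv => (atF21 hx hx' ⟨h, fun e => absurd e (by decide)⟩).atM))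

theorem segF1_2 {x : ℝ} (hx : 39 / 40 ≤ x) (hx' : x < 1) :
    SegR (crv (PP x)) tKF tL zrT (esn x) (1 / 2) 0 ccFC 1 (2 : Fin 7) x :=
  SegV.all (cstF1_2.seg (c := fun y => y) ⟨x1 hx, x2 hx'⟩ (fun y h hv => rng_1 h) (fun _ _ _ => rfl) rfl rfl
      (fun y h hv => (atF21 hx hx' ⟨h, fun e => absurd e (by decide)⟩).atM)
      (fun y h hv => (atF31 hx hx' ⟨h, fun e => absurd e (by decide)⟩).atM))

theorem segF1_3 {x : ℝ} (hx : 39 / 40 ≤ x) (hx' : x < 1) :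
    SegR (crv (PP x)) tKF tL zrT (esn x) (1 / 2) 0 ccFC 1 (3 : Fin 7) x :=
  SegV.all (cstF1_3.seg (c := fun y => y) ⟨x1 hx, x2 hx'⟩ (fun y h hv => rng_1 h) (fun _ _ _ => rfl) rfl rfl
      (fun y h hv => (atF31 hx hx' ⟨h, fun e => absurd e (by decide)⟩).atM)
      (fun y h hv => (atF41 hx hx' ⟨h, fun e => absurd e (by decide)⟩).atM))

theorem segF1_4 {x : ℝ} (hx : 39 / 40 ≤ x) (hx' : x < 1) :
    SegR (crv (PP x)) tKF tL zrT (esn x) (1 / 2) 0 ccFC 1 (4 : Fin 7) x :=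
  SegV.all (cstF1_4.seg (c := fun y => y) ⟨x1 hx, x2 hx'⟩ (fun y h hv => rng_1 h) (fun _ _ _ => rfl) rfl rfl
      (fun y h hv => (atF41 hx hx' ⟨h, fun e => absurd e (by decide)⟩).atM)
      (fun y h hv => (atF51 hx hx' ⟨h, fun e => absurd e (by decide)⟩).atM))

theorem segF1_5 {x : ℝ} (hx : 39 / 40 ≤ x) (hx' : x < 1) :
    SegR (crv (PP x)) tKF tL zrT (esn x) (1 / 2) 0 ccFC 1 (5 : Fin 7) x :=
  SegV.all (cstF1_5.seg (c := fun y => y) ⟨x1 hx, x2 hx'⟩ (fun y h hv => rng_1 h) (fun _ _ _ => rfl) rfl rfl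
      (fun y h hv => (atF51 hx hx' ⟨h, fun e => absurd e (by decide)⟩).atM)
      (fun y h hv => (atF61 hx hx' ⟨h, fun e => absurd e (by decide)⟩).atM))

theorem segF1_6 {x : ℝ} (hx : 39 / 40 ≤ x) (hx' : x < 1) :
    SegR (crv (PP x)) tKF tL zrT (esn x) (1 / 2) 0 ccFC 1 (6 : Fin 7) x :=
  SegV.all (cstF1_6.seg (c := fun y => y) ⟨x1 hx, x2 hx'⟩ (fun y h hv => rng_1 h) (fun _ _ _ => rfl) rfl rfl
      (fun y h hv => (atF61 hx hx' ⟨h, fun e => absurd e (by decide)⟩).atM)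
      (fun y h hv => (atF71 hx hx' ⟨h, fun e => absurd e (by decide)⟩).atM))

theorem segF2_0 {x : ℝ} (hx : 39 / 40 ≤ x) (hx' : x < 1) :
    SegR (crv (PP x)) tKF tL zrT (esn x) (1 / 2) 0 ccFC 2 (0 : Fin 7) x :=
  SegV.join (cstF2a_0.seg (c := c1n) ⟨x1 hx, x2 hx'⟩ (fun y h hv => rng_2a h) (fun y h hv => yag_v h.nn hv) rfl rfl
      (fun y h hv => (atF02 hx hx' ⟨h, fun _ => hv⟩).atM)
      (fun y h hv => (atF12a hx hx' ⟨h, fun e => absurd e (by decide)⟩ hv).atM))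
    (cstF2b_0.seg (c := fun y => y) ⟨x1 hx, x2 hx'⟩ (fun y h hv => rng_2b h hv) (fun _ _ _ => rfl) rfl rfl
      (fun y h hv => atM_off (pinKF hx hx') (pinL hx hx') h hv)
      (fun y h hv => (atF12b hx hx' ⟨h, fun e => absurd e (by decide)⟩ hv).atM))

theorem segF2_1 {x : ℝ} (hx : 39 / 40 ≤ x) (hx' : x < 1) :
    SegR (crv (PP x)) tKF tL zrT (esn x) (1 / 2) 0 ccFC 2 (1 : Fin 7) x :=
  SegV.join (cstF2a_1.seg (c := c1n) ⟨x1 hx, x2 hx'⟩ (fun y h hv => rng_2a h) (fun y h hv => yag_v h.nn hv) rfl rfl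
      (fun y h hv => (atF12a hx hx' ⟨h, fun e => absurd e (by decide)⟩ hv).atM)
      (fun y h hv => (atF22a hx hx' ⟨h, fun e => absurd e (by decide)⟩ hv).atM))
    (cstF2b_1.seg (c := fun y => y) ⟨x1 hx, x2 hx'⟩ (fun y h hv => rng_2b h hv) (fun _ _ _ => rfl) rfl rfl
      (fun y h hv => (atF12b hx hx' ⟨h, fun e => absurd e (by decide)⟩ hv).atM)
      (fun y h hv => (atF22b hx hx' ⟨h, fun e => absurd e (by decide)⟩ hv).atM))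

theorem segF2_2 {x : ℝ} (hx : 39 / 40 ≤ x) (hx' : x < 1) :
    SegR (crv (PP x)) tKF tL zrT (esn x) (1 / 2) 0 ccFC 2 (2 : Fin 7) x :=
  SegV.join (cstF2a_2.seg (c := c1n) ⟨x1 hx, x2 hx'⟩ (fun y h hv => rng_2a h) (fun y h hv => yag_v h.nn hv) rfl rfl
      (fun y h hv => (atF22a hx hx' ⟨h, fun e => absurd e (by decide)⟩ hv).atM)
      (fun y h hv => (atF32 hx hx' ⟨h, fun e => absurd e (by decide)⟩).atMc (yag_v h.nn hv)))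
    (cstF2b_2.seg (c := fun y => y) ⟨x1 hx, x2 hx'⟩ (fun y h hv => rng_2b h hv) (fun _ _ _ => rfl) rfl rfl
      (fun y h hv => (atF22b hx hx' ⟨h, fun e => absurd e (by decide)⟩ hv).atM)
      (fun y h hv => (atF32 hx hx' ⟨h, fun e => absurd e (by decide)⟩).atM))

theorem segF2_3 {x : ℝ} (hx : 39 / 40 ≤ x) (hx' : x < 1) :
    SegR (crv (PP x)) tKF tL zrT (esn x) (1 / 2) 0 ccFC 2 (3 : Fin 7) x :=
  SegV.join (cstF2a_3.seg (c := c1n) ⟨x1 hx, x2 hx'⟩ (fun y h hv => rng_2a h) (fun y h hv => yag_v h.nn hv) rfl rfl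
      (fun y h hv => (atF32 hx hx' ⟨h, fun e => absurd e (by decide)⟩).atMc (yag_v h.nn hv))
      (fun y h hv => (atF42 hx hx' ⟨h, fun e => absurd e (by decide)⟩).atMc (yag_v h.nn hv)))
    (cstF2b_3.seg (c := fun y => y) ⟨x1 hx, x2 hx'⟩ (fun y h hv => rng_2b h hv) (fun _ _ _ => rfl) rfl rfl
      (fun y h hv => (atF32 hx hx' ⟨h, fun e => absurd e (by decide)⟩).atM)
      (fun y h hv => (atF42 hx hx' ⟨h, fun e => absurd e (by decide)⟩).atM))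

theorem segF2_4 {x : ℝ} (hx : 39 / 40 ≤ x) (hx' : x < 1) :
    SegR (crv (PP x)) tKF tL zrT (esn x) (1 / 2) 0 ccFC 2 (4 : Fin 7) x :=
  SegV.join (cstF2a_4.seg (c := c1n) ⟨x1 hx, x2 hx'⟩ (fun y h hv => rng_2a h) (fun y h hv => yag_v h.nn hv) rfl rfl
      (fun y h hv => (atF42 hx hx' ⟨h, fun e => absurd e (by decide)⟩).atMc (yag_v h.nn hv))
      (fun y h hv => (atF52 hx hx' ⟨h, fun e => absurd e (by decide)⟩).atMc (yag_v h.nn hv)))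
    (cstF2b_4.seg (c := fun y => y) ⟨x1 hx, x2 hx'⟩ (fun y h hv => rng_2b h hv) (fun _ _ _ => rfl) rfl rfl
      (fun y h hv => (atF42 hx hx' ⟨h, fun e => absurd e (by decide)⟩).atM)
      (fun y h hv => (atF52 hx hx' ⟨h, fun e => absurd e (by decide)⟩).atM))

theorem segF2_5 {x : ℝ} (hx : 39 / 40 ≤ x) (hx' : x < 1) :
    SegR (crv (PP x)) tKF tL zrT (esn x) (1 / 2) 0 ccFC 2 (5 : Fin 7) x :=
  SegV.join (cstF2a_5.seg (c := c1n) ⟨x1 hx, x2 hx'⟩ (fun y h hv => rng_2a h) (fun y h hv => yag_v h.nn hv) rfl rfl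
      (fun y h hv => (atF52 hx hx' ⟨h, fun e => absurd e (by decide)⟩).atMc (yag_v h.nn hv))
      (fun y h hv => (atF62 hx hx' ⟨h, fun e => absurd e (by decide)⟩).atMc (yag_v h.nn hv)))
    (cstF2b_5.seg (c := fun y => y) ⟨x1 hx, x2 hx'⟩ (fun y h hv => rng_2b h hv) (fun _ _ _ => rfl) rfl rfl
      (fun y h hv => (atF52 hx hx' ⟨h, fun e => absurd e (by decide)⟩).atM)
      (fun y h hv => (atF62 hx hx' ⟨h, fun e => absurd e (by decide)⟩).atM))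

theorem segF2_6 {x : ℝ} (hx : 39 / 40 ≤ x) (hx' : x < 1) :
    SegR (crv (PP x)) tKF tL zrT (esn x) (1 / 2) 0 ccFC 2 (6 : Fin 7) x :=
  SegV.join (cstF2a_6.seg (c := c1n) ⟨x1 hx, x2 hx'⟩ (fun y h hv => rng_2a h) (fun y h hv => yag_v h.nn hv) rfl rfl
      (fun y h hv => (atF62 hx hx' ⟨h, fun e => absurd e (by decide)⟩).atMc (yag_v h.nn hv))
      (fun y h hv => (atF72 hx hx' ⟨h, fun e => absurd e (by decide)⟩).atMc (yag_v h.nn hv)))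
    (cstF2b_6.seg (c := fun y => y) ⟨x1 hx, x2 hx'⟩ (fun y h hv => rng_2b h hv) (fun _ _ _ => rfl) rfl rfl
      (fun y h hv => (atF62 hx hx' ⟨h, fun e => absurd e (by decide)⟩).atM)
      (fun y h hv => (atF72 hx hx' ⟨h, fun e => absurd e (by decide)⟩).atM))

theorem segF3_0 {x : ℝ} (hx : 39 / 40 ≤ x) (hx' : x < 1) :
    SegR (crv (PP x)) tKF tL zrT (esn x) (1 / 2) 0 ccFC 3 (0 : Fin 7) x :=
  SegV.all (cstF3_0.seg (c := c3n) ⟨x1 hx, x2 hx'⟩ (fun y h hv => rng_3 h) (fun y h hv => ycg_v h.nn h.2) rfl rfl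
      (fun y h hv => atM_off (pinKF hx hx') (pinL hx hx') h (off_3 h))
      (fun y h hv => (atF13 hx hx' ⟨h, fun e => absurd e (by decide)⟩).atMc (ycg_v h.nn h.2)))

theorem segF3_1 {x : ℝ} (hx : 39 / 40 ≤ x) (hx' : x < 1) :
    SegR (crv (PP x)) tKF tL zrT (esn x) (1 / 2) 0 ccFC 3 (1 : Fin 7) x :=
  SegV.all (cstF3_1.seg (c := c3n) ⟨x1 hx, x2 hx'⟩ (fun y h hv => rng_3 h) (fun y h hv => ycg_v h.nn h.2) rfl rfl
      (fun y h hv => (atF13 hx hx' ⟨h, fun e => absurd e (by decide)⟩).atMc (ycg_v h.nn h.2))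
      (fun y h hv => (atF23 hx hx' ⟨h, fun e => absurd e (by decide)⟩).atMc (ycg_v h.nn h.2)))

theorem segF3_2 {x : ℝ} (hx : 39 / 40 ≤ x) (hx' : x < 1) :
    SegR (crv (PP x)) tKF tL zrT (esn x) (1 / 2) 0 ccFC 3 (2 : Fin 7) x :=
  SegV.all (cstF3_2.seg (c := c3n) ⟨x1 hx, x2 hx'⟩ (fun y h hv => rng_3 h) (fun y h hv => ycg_v h.nn h.2) rfl rfl
      (fun y h hv => (atF23 hx hx' ⟨h, fun e => absurd e (by decide)⟩).atMc (ycg_v h.nn h.2))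
      (fun y h hv => (atF33 hx hx' ⟨h, fun e => absurd e (by decide)⟩).atMc (ycg_v h.nn h.2)))

theorem segF3_3 {x : ℝ} (hx : 39 / 40 ≤ x) (hx' : x < 1) :
    SegR (crv (PP x)) tKF tL zrT (esn x) (1 / 2) 0 ccFC 3 (3 : Fin 7) x :=
  SegV.all (cstF3_3.seg (c := c3n) ⟨x1 hx, x2 hx'⟩ (fun y h hv => rng_3 h) (fun y h hv => ycg_v h.nn h.2) rfl rfl
      (fun y h hv => (atF33 hx hx' ⟨h, fun e => absurd e (by decide)⟩).atMc (ycg_v h.nn h.2))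
      (fun y h hv => (atF43 hx hx' ⟨h, fun e => absurd e (by decide)⟩).atM))

theorem segF3_4 {x : ℝ} (hx : 39 / 40 ≤ x) (hx' : x < 1) :
    SegR (crv (PP x)) tKF tL zrT (esn x) (1 / 2) 0 ccFC 3 (4 : Fin 7) x :=
  SegV.all (cstF3_4.seg (c := c3n) ⟨x1 hx, x2 hx'⟩ (fun y h hv => rng_3 h) (fun y h hv => ycg_v h.nn h.2) rfl rfl
      (fun y h hv => (atF43 hx hx' ⟨h, fun e => absurd e (by decide)⟩).atM)
      (fun y h hv => (atF53 hx hx' ⟨h, fun e => absurd e (by decide)⟩).atM))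

theorem segF3_5 {x : ℝ} (hx : 39 / 40 ≤ x) (hx' : x < 1) :
    SegR (crv (PP x)) tKF tL zrT (esn x) (1 / 2) 0 ccFC 3 (5 : Fin 7) x :=
  SegV.all (cstF3_5.seg (c := c3n) ⟨x1 hx, x2 hx'⟩ (fun y h hv => rng_3 h) (fun y h hv => ycg_v h.nn h.2) rfl rfl
      (fun y h hv => (atF53 hx hx' ⟨h, fun e => absurd e (by decide)⟩).atM)
      (fun y h hv => (atF63 hx hx' ⟨h, fun e => absurd e (by decide)⟩).atM))

theorem segF3_6 {x : ℝ} (hx : 39 / 40 ≤ x) (hx' : x < 1) :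
    SegR (crv (PP x)) tKF tL zrT (esn x) (1 / 2) 0 ccFC 3 (6 : Fin 7) x :=
  SegV.all (cstF3_6.seg (c := c3n) ⟨x1 hx, x2 hx'⟩ (fun y h hv => rng_3 h) (fun y h hv => ycg_v h.nn h.2) rfl rfl
      (fun y h hv => (atF63 hx hx' ⟨h, fun e => absurd e (by decide)⟩).atM)
      (fun y h hv => (atF73 hx hx' ⟨h, fun e => absurd e (by decide)⟩).atM))

theorem uniF0 {x : ℝ} (hx : 39 / 40 ≤ x) (hx' : x < 1) :
    UniR (crv (PP x)) tKF tL zrT (esn x) (1 / 2) 0 ccFU 0 x :=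
  cstFU0_0.uni (c := fun y => y) ⟨x1 hx, x2 hx'⟩ (fun y h hv => rng_0 h) (fun _ _ _ => rfl) rfl rfl
    (fun y h hv => (atF00 hx hx' ⟨h, fun _ => on_0 h⟩).atM)

theorem uniF1 {x : ℝ} (hx : 39 / 40 ≤ x) (hx' : x < 1) :
    UniR (crv (PP x)) tKF tL zrT (esn x) (1 / 2) 0 ccFU 1 x :=
  cstFU1_0.uni (c := fun y => y) ⟨x1 hx, x2 hx'⟩ (fun y h hv => rng_1 h) (fun _ _ _ => rfl) rfl rfl
    (fun y h hv => (atF01 hx hx' ⟨h, fun _ => on_1 h⟩).atM)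

theorem uniF2 {x : ℝ} (hx : 39 / 40 ≤ x) (hx' : x < 1) :
    UniR (crv (PP x)) tKF tL zrT (esn x) (1 / 2) 0 ccFU 2 x :=
  cstFU2_0.uni (c := c1n) ⟨x1 hx, x2 hx'⟩ (fun y h hv => rng_2a h) (fun y h hv => yag_v h.nn hv) rfl rfl
    (fun y h hv => (atF02 hx hx' ⟨h, fun _ => hv⟩).atM)

theorem segF {x : ℝ} (hx : 39 / 40 ≤ x) (hx' : x < 1) : ∀ a, a < 4 → ∀ i : Fin 7,
    SegR (crv (PP x)) tKF tL zrT (esn x) (1 / 2) 0 ccFC a i x := by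
  intro a ha i
  match a, ha with
  | 0, _ => exact match i with
    | 0 => segF0_0 hx hx'
    | 1 => segF0_1 hx hx'
    | 2 => segF0_2 hx hx'
    | 3 => segF0_3 hx hx'
    | 4 => segF0_4 hx hx'
    | 5 => segF0_5 hx hx'
    | 6 => segF0_6 hx hx'
  | 1, _ => exact match i with
    | 0 => segF1_0 hx hx'
    | 1 => segF1_1 hx hx'
    | 2 => segF1_2 hx hx'
    | 3 => segF1_3 hx hx'
    | 4 => segF1_4 hx hx'
    | 5 => segF1_5 hx hx'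
    | 6 => segF1_6 hx hx'
  | 2, _ => exact match i with
    | 0 => segF2_0 hx hx'
    | 1 => segF2_1 hx hx'
    | 2 => segF2_2 hx hx'
    | 3 => segF2_3 hx hx'
    | 4 => segF2_4 hx hx'
    | 5 => segF2_5 hx hx'
    | 6 => segF2_6 hx hx'
  | 3, _ => exact match i with
    | 0 => segF3_0 hx hx'
    | 1 => segF3_1 hx hx'
    | 2 => segF3_2 hx hx'
    | 3 => segF3_3 hx hx'
    | 4 => segF3_4 hx hx'
    | 5 => segF3_5 hx hx'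
    | 6 => segF3_6 hx hx'

theorem uniF {x : ℝ} (hx : 39 / 40 ≤ x) (hx' : x < 1) : ∀ a, a < 3 → UniR (crv (PP x)) tKF tL zrT (esn x) (1 / 2) 0 ccFU a x := by
  intro a ha
  match a, ha with
  | 0, _ => exact uniF0 hx hx'
  | 1, _ => exact uniF1 hx hx'
  | 2, _ => exact uniF2 hx hx'

theorem cstN0_0 : CertX 0 536870912 1046898278 26843546 (CX.nd ndN0q0) (CX.nd ndN1q0) idf esF (muF 3) 0 ccNC :=
  ⟨T.a (T.a (T.a (T.c (T.a (T.l 16) (T.l 16)) (T.l 16)) (T.a (T.l 16) (T.l 16))) (T.a (T.l 16) (T.a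
    (T.l 16) (T.l 16)))) (T.a (T.c (T.l 16) (T.a (T.l 16) (T.l 16))) (T.c (T.a (T.l 16) (T.l 16))
    (T.a (T.a (T.l 16) (T.l 16)) (T.c (T.l 16) (T.a (T.l 16) (T.a (T.l 16) (T.l 16))))))), by decide +kernel⟩

theorem cstN0_1 : CertX 0 536870912 1046898278 26843546 (CX.nd ndN1q0) (CX.nd ndN2q0) idf esF (muF 3) 0 ccNC :=
  ⟨T.a (T.a (T.a (T.c (T.a (T.l 16) (T.l 16)) (T.l 16)) (T.a (T.l 16) (T.l 16))) (T.l 16)) (T.l 16), by decide +kernel⟩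

theorem cstN0_2 : CertX 0 536870912 1046898278 26843546 (CX.nd ndN2q0) (CX.nd ndN3q0) idf esF (muF 3) 0 ccNC :=
  ⟨T.a (T.a (T.a (T.a (T.l 16) (T.l 16)) (T.l 16)) (T.l 16)) (T.a (T.l 16) (T.l 16)), by decide +kernel⟩

theorem cstN0_3 : CertX 0 536870912 1046898278 26843546 (CX.nd ndN3q0) (CX.nd ndN4q0) idf esF (muF 3) 0 ccNC :=
  ⟨T.a (T.a (T.a (T.a (T.a (T.l 16) (T.l 16)) (T.l 16)) (T.a (T.l 16) (T.l 16))) (T.a (T.l 16) (T.l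
    16))) (T.a (T.l 16) (T.a (T.l 16) (T.l 16))), by decide +kernel⟩

theorem cstN0_4 : CertX 0 536870912 1046898278 26843546 (CX.nd ndN4q0) (CX.nd ndN5q0) idf esF (muF 3) 0 ccNC :=
  ⟨T.a (T.a (T.a (T.a (T.a (T.l 16) (T.l 16)) (T.l 16)) (T.a (T.l 16) (T.l 16))) (T.a (T.l 16) (T.l
    16))) (T.a (T.l 16) (T.a (T.l 16) (T.l 16))), by decide +kernel⟩

theorem cstN0_5 : CertX 0 536870912 1046898278 26843546 (CX.nd ndN5q0) (CX.nd ndN6q0) idf esF (muF 3) 0 ccNC :=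
  ⟨T.a (T.a (T.a (T.a (T.a (T.l 16) (T.l 16)) (T.l 16)) (T.l 16)) (T.l 16)) (T.a (T.l 16) (T.l 16)), by decide +kernel⟩

theorem cstN0_6 : CertX 0 536870912 1046898278 26843546 (CX.nd ndN6q0) (CX.nd ndN7q0) idf esF (muF 3) 0 ccNC :=
  ⟨T.a (T.c (T.a (T.l 16) (T.l 16)) (T.c (T.a (T.l 16) (T.l 16)) (T.a (T.c (T.l 16) (T.a (T.a (T.l
    16) (T.l 16)) (T.a (T.a (T.l 16) (T.l 16)) (T.a (T.l 16) (T.a (T.l 16) (T.l 16)))))) (T.c (T.l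
    16) (T.a (T.c (T.l 16) (T.a (T.a (T.l 16) (T.l 16)) (T.a (T.l 16) (T.l 16)))) (T.a (T.a (T.l 16)
    (T.l 16)) (T.l 16))))))) (T.c (T.a (T.l 16) (T.l 16)) (T.a (T.c (T.l 16) (T.a (T.a (T.l 16) (T.l
    16)) (T.l 16))) (T.a (T.a (T.l 16) (T.l 16)) (T.l 16)))), by decide +kernel⟩

theorem cstN1_0 : CertX 536870912 536870912 1046898278 26843546 (CX.nd ndN0q1) (CX.nd ndN1q1) idf esF (muF 3) 1 ccNC :=
  ⟨T.a (T.a (T.c (T.a (T.l 16) (T.l 16)) (T.c (T.a (T.l 16) (T.l 16)) (T.a (T.c (T.l 16) (T.a (T.a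
    (T.l 16) (T.l 16)) (T.a (T.l 16) (T.a (T.l 16) (T.l 16))))) (T.c (T.l 16) (T.a (T.a (T.a (T.l
    16) (T.a (T.l 16) (T.l 16))) (T.a (T.l 16) (T.l 16))) (T.a (T.l 16) (T.l 16))))))) (T.a (T.c
    (T.l 16) (T.c (T.l 16) (T.a (T.a (T.l 16) (T.l 16)) (T.l 16)))) (T.c (T.l 16) (T.a (T.a (T.l 16)
    (T.l 16)) (T.a (T.l 16) (T.l 16)))))) (T.a (T.a (T.c (T.l 16) (T.a (T.a (T.l 16) (T.l 16)) (T.a
    (T.l 16) (T.l 16)))) (T.a (T.c (T.l 16) (T.l 16)) (T.a (T.l 16) (T.l 16)))) (T.a (T.a (T.l 16)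
    (T.l 16)) (T.a (T.l 176) (T.a (T.l 176) (T.l 176))))), by decide +kernel⟩

theorem cstN1_1 : CertX 536870912 536870912 1046898278 26843546 (CX.nd ndN1q1) (CX.nd ndN2q1) idf esF (muF 3) 1 ccNC :=
  ⟨T.a (T.a (T.a (T.l 16) (T.l 16)) (T.a (T.l 16) (T.l 16))) (T.a (T.l 16) (T.a (T.l 16) (T.a (T.l
    176) (T.l 176)))), by decide +kernel⟩

theorem cstN1_2 : CertX 536870912 536870912 1046898278 26843546 (CX.nd ndN2q1) (CX.nd ndN3q1) idf esF (muF 3) 1 ccNC :=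
  ⟨T.a (T.a (T.l 16) (T.l 16)) (T.a (T.l 16) (T.a (T.l 16) (T.l 16))), by decide +kernel⟩

theorem cstN1_3 : CertX 536870912 536870912 1046898278 26843546 (CX.nd ndN3q1) (CX.nd ndN4q1) idf esF (muF 3) 1 ccNC :=
  ⟨T.a (T.a (T.a (T.l 16) (T.l 16)) (T.l 16)) (T.a (T.a (T.l 16) (T.l 16)) (T.c (T.a (T.l 16) (T.l
    16)) (T.l 16))), by decide +kernel⟩

theorem cstN1_4 : CertX 536870912 536870912 1046898278 26843546 (CX.nd ndN4q1) (CX.nd ndN5q1) idf esF (muF 3) 1 ccNC :=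
  ⟨T.a (T.a (T.a (T.l 16) (T.l 16)) (T.l 16)) (T.a (T.a (T.l 16) (T.l 16)) (T.c (T.a (T.l 16) (T.l
    16)) (T.l 16))), by decide +kernel⟩

theorem cstN1_5 : CertX 536870912 536870912 1046898278 26843546 (CX.nd ndN5q1) (CX.nd ndN6q1) idf esF (muF 3) 1 ccNC :=
  ⟨T.a (T.l 16) (T.a (T.l 16) (T.a (T.l 16) (T.l 16))), by decide +kernel⟩

theorem cstN1_6 : CertX 536870912 536870912 1046898278 26843546 (CX.nd ndN6q1) (CX.nd ndN7q1) idf esF (muF 3) 1 ccNC :=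
  ⟨T.a (T.a (T.c (T.l 16) (T.a (T.l 16) (T.l 16))) (T.a (T.l 16) (T.l 16))) (T.a (T.a (T.l 16) (T.l
    16)) (T.a (T.l 16) (T.l 16))), by decide +kernel⟩

theorem cstN2a_0 : CertX 0 536870912 1046898278 26843546 (CX.nd ndN0q2) (CX.nd ndN1q2a) yag esF (muF 3) 2 ccNC :=
  ⟨T.a (T.a (T.c (T.a (T.a (T.c (T.a (T.a (T.l 144) (T.l 144)) (T.a (T.l 144) (T.l 144))) (T.a (T.a
    (T.l 144) (T.l 144)) (T.a (T.l 144) (T.l 144)))) (T.c (T.a (T.l 144) (T.l 144)) (T.a (T.l 144)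
    (T.l 144)))) (T.c (T.a (T.a (T.l 144) (T.l 144)) (T.a (T.l 144) (T.l 144))) (T.a (T.a (T.l 144)
    (T.l 144)) (T.l 144)))) (T.a (T.a (T.c (T.a (T.c (T.l 144) (T.l 144)) (T.a (T.l 144) (T.l 144)))
    (T.a (T.c (T.l 144) (T.l 144)) (T.a (T.l 144) (T.l 144)))) (T.c (T.a (T.l 144) (T.l 144)) (T.a
    (T.l 144) (T.l 144)))) (T.a (T.c (T.a (T.l 144) (T.l 144)) (T.l 144)) (T.c (T.l 144) (T.l
    144))))) (T.c (T.a (T.c (T.a (T.l 144) (T.l 144)) (T.a (T.l 144) (T.l 144))) (T.c (T.a (T.a (T.l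
    144) (T.l 144)) (T.a (T.l 144) (T.l 144))) (T.a (T.l 144) (T.l 144)))) (T.a (T.c (T.a (T.l 144)
    (T.l 144)) (T.l 144)) (T.c (T.a (T.l 144) (T.l 144)) (T.l 144))))) (T.a (T.a (T.c (T.a (T.c (T.a
    (T.l 144) (T.a (T.l 144) (T.l 144))) (T.a (T.l 144) (T.l 144))) (T.c (T.c (T.a (T.l 144) (T.l
    144)) (T.l 144)) (T.l 144))) (T.c (T.a (T.l 144) (T.l 144)) (T.a (T.l 144) (T.l 144)))) (T.c
    (T.a (T.c (T.c (T.a (T.l 144) (T.l 144)) (T.l 144)) (T.a (T.l 144) (T.l 144))) (T.c (T.a (T.l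
    144) (T.l 144)) (T.l 144))) (T.a (T.c (T.l 144) (T.l 144)) (T.a (T.l 144) (T.l 144))))) (T.a
    (T.c (T.a (T.a (T.a (T.l 144) (T.l 144)) (T.a (T.l 144) (T.l 144))) (T.a (T.l 144) (T.l 144)))
    (T.a (T.a (T.l 144) (T.l 144)) (T.a (T.l 144) (T.l 144)))) (T.c (T.a (T.l 144) (T.l 144)) (T.l
    144)))), by decide +kernel⟩

theorem cstN2a_1 : CertX 0 536870912 1046898278 26843546 (CX.nd ndN1q2a) (CX.nd ndN2q2a) yag esF (muF 3) 2 ccNC :=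
  ⟨T.a (T.a (T.c (T.l 144) (T.l 144)) (T.c (T.l 144) (T.l 144))) (T.a (T.c (T.a (T.a (T.l 144) (T.l
    144)) (T.a (T.l 144) (T.l 144))) (T.a (T.l 144) (T.l 144))) (T.a (T.c (T.a (T.l 144) (T.l 144))
    (T.a (T.l 144) (T.l 144))) (T.c (T.l 144) (T.l 144)))), by decide +kernel⟩

theorem cstN2a_2 : CertX 0 536870912 1046898278 26843546 (CX.nd ndN2q2a) (CX.ndc ndN3q2 yag) yag esF (muF 3) 2 ccNC :=
  ⟨T.a (T.a (T.a (T.l 144) (T.l 144)) (T.l 144)) (T.a (T.a (T.l 144) (T.l 144)) (T.a (T.a (T.l 144)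
    (T.l 144)) (T.l 144))), by decide +kernel⟩

theorem cstN2a_3 : CertX 0 536870912 1046898278 26843546 (CX.ndc ndN3q2 yag) (CX.ndc ndN4q2 yag) yag esF (muF 3) 2 ccNC :=
  ⟨T.a (T.a (T.l 144) (T.l 144)) (T.a (T.a (T.l 176) (T.l 176)) (T.a (T.a (T.l 144) (T.l 144)) (T.l
    176))), by decide +kernel⟩

theorem cstN2a_4 : CertX 0 536870912 1046898278 26843546 (CX.ndc ndN4q2 yag) (CX.ndc ndN5q2 yag) yag esF (muF 3) 2 ccNC :=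
  ⟨T.a (T.a (T.l 176) (T.a (T.l 176) (T.l 176))) (T.a (T.a (T.l 176) (T.l 176)) (T.a (T.a (T.l 176)
    (T.l 176)) (T.l 176))), by decide +kernel⟩

theorem cstN2a_5 : CertX 0 536870912 1046898278 26843546 (CX.ndc ndN5q2 yag) (CX.ndc ndN6q2 yag) yag esF (muF 3) 2 ccNC :=
  ⟨T.a (T.a (T.l 176) (T.a (T.l 176) (T.l 176))) (T.a (T.a (T.l 176) (T.l 176)) (T.l 176)), by decide +kernel⟩

theorem cstN2a_6 : CertX 0 536870912 1046898278 26843546 (CX.ndc ndN6q2 yag) (CX.ndc ndN7q2 yag) yag esF (muF 3) 2 ccNC :=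
  ⟨T.a (T.a (T.l 16) (T.l 16)) (T.a (T.l 16) (T.a (T.l 16) (T.l 16))), by decide +kernel⟩

theorem cstN2b_0 : CertX 1239849684 370763052 1046898278 26843546 CX.zr (CX.nd ndN1q2b) idf esF (muF 3) 2 ccNC :=
  ⟨T.a (T.c (T.a (T.l 144) (T.l 144)) (T.a (T.l 144) (T.l 144))) (T.l 144), by decide +kernel⟩

theorem cstN2b_1 : CertX 1239849684 370763052 1046898278 26843546 (CX.nd ndN1q2b) (CX.nd ndN2q2b) idf esF (muF 3) 2 ccNC :=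
  ⟨T.a (T.c (T.a (T.l 144) (T.l 144)) (T.a (T.l 144) (T.l 144))) (T.l 144), by decide +kernel⟩

theorem cstN2b_2 : CertX 1239849684 370763052 1046898278 26843546 (CX.nd ndN2q2b) (CX.nd ndN3q2) idf esF (muF 3) 2 ccNC :=
  ⟨T.a (T.c (T.a (T.l 144) (T.l 144)) (T.l 144)) (T.l 144), by decide +kernel⟩

theorem cstN2b_3 : CertX 1239849684 370763052 1046898278 26843546 (CX.nd ndN3q2) (CX.nd ndN4q2) idf esF (muF 3) 2 ccNC :=
  ⟨T.a (T.a (T.a (T.l 144) (T.l 144)) (T.a (T.l 144) (T.l 144))) (T.l 144), by decide +kernel⟩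

theorem cstN2b_4 : CertX 1239849684 370763052 1046898278 26843546 (CX.nd ndN4q2) (CX.nd ndN5q2) idf esF (muF 3) 2 ccNC :=
  ⟨T.a (T.a (T.a (T.l 176) (T.a (T.l 176) (T.l 176))) (T.a (T.l 144) (T.l 144))) (T.l 144), by decide +kernel⟩

theorem cstN2b_5 : CertX 1239849684 370763052 1046898278 26843546 (CX.nd ndN5q2) (CX.nd ndN6q2) idf esF (muF 3) 2 ccNC :=
  ⟨T.a (T.a (T.a (T.l 176) (T.l 176)) (T.l 176)) (T.l 144), by decide +kernel⟩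

theorem cstN2b_6 : CertX 1239849684 370763052 1046898278 26843546 (CX.nd ndN6q2) (CX.nd ndN7q2) idf esF (muF 3) 2 ccNC :=
  ⟨T.a (T.c (T.a (T.a (T.l 16) (T.l 16)) (T.a (T.l 16) (T.l 16))) (T.a (T.l 16) (T.a (T.l 16) (T.l
    16)))) (T.a (T.c (T.a (T.l 16) (T.l 16)) (T.l 176)) (T.c (T.l 144) (T.a (T.l 144) (T.l 144)))), by decide +kernel⟩

theorem cstN3_0 : CertX 0 1230186008 1046898278 26843546 CX.zr (CX.ndc ndN1q3 ycg) ycg esF (muF 3) 3 ccNC :=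
  ⟨T.a (T.l 144) (T.a (T.l 144) (T.l 144)), by decide +kernel⟩

theorem cstN3_1 : CertX 0 1230186008 1046898278 26843546 (CX.ndc ndN1q3 ycg) (CX.ndc ndN2q3 ycg) ycg esF (muF 3) 3 ccNC :=
  ⟨T.a (T.a (T.l 144) (T.l 144)) (T.a (T.l 144) (T.l 144)), by decide +kernel⟩

theorem cstN3_2 : CertX 0 1230186008 1046898278 26843546 (CX.ndc ndN2q3 ycg) (CX.ndc ndN3q3 ycg) ycg esF (muF 3) 3 ccNC :=
  ⟨T.a (T.a (T.l 144) (T.a (T.l 144) (T.l 144))) (T.a (T.l 144) (T.l 144)), by decide +kernel⟩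

theorem cstN3_3 : CertX 0 1230186008 1046898278 26843546 (CX.ndc ndN3q3 ycg) (CX.nd ndN4q3) ycg esF (muF 3) 3 ccNC :=
  ⟨T.a (T.a (T.l 144) (T.a (T.l 144) (T.l 144))) (T.a (T.l 144) (T.a (T.l 144) (T.l 144))), by decide +kernel⟩

theorem cstN3_4 : CertX 0 1230186008 1046898278 26843546 (CX.nd ndN4q3) (CX.nd ndN5q3) ycg esF (muF 3) 3 ccNC :=
  ⟨T.a (T.a (T.l 144) (T.a (T.l 144) (T.l 144))) (T.a (T.l 144) (T.a (T.l 144) (T.l 144))), by decide +kernel⟩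

theorem cstN3_5 : CertX 0 1230186008 1046898278 26843546 (CX.nd ndN5q3) (CX.nd ndN6q3) ycg esF (muF 3) 3 ccNC :=
  ⟨T.a (T.a (T.l 144) (T.a (T.l 144) (T.l 144))) (T.a (T.a (T.l 144) (T.a (T.l 144) (T.l 144)))
    (T.a (T.a (T.l 144) (T.l 144)) (T.l 144))), by decide +kernel⟩

theorem cstN3_6 : CertX 0 1230186008 1046898278 26843546 (CX.nd ndN6q3) (CX.nd ndN7q3) ycg esF (muF 3) 3 ccNC :=
  ⟨T.a (T.a (T.a (T.a (T.l 144) (T.a (T.l 144) (T.l 144))) (T.a (T.a (T.l 144) (T.l 144)) (T.l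
    144))) (T.a (T.c (T.a (T.l 144) (T.l 144)) (T.a (T.l 144) (T.l 144))) (T.c (T.a (T.l 144) (T.l
    144)) (T.a (T.l 144) (T.l 144))))) (T.a (T.c (T.a (T.a (T.l 144) (T.a (T.l 144) (T.l 144))) (T.a
    (T.l 144) (T.l 144))) (T.a (T.a (T.a (T.l 144) (T.l 144)) (T.c (T.l 144) (T.a (T.l 144) (T.l
    144)))) (T.c (T.a (T.l 144) (T.l 144)) (T.a (T.a (T.l 144) (T.l 144)) (T.a (T.l 144) (T.l
    144)))))) (T.a (T.c (T.a (T.a (T.l 144) (T.l 144)) (T.l 144)) (T.a (T.c (T.l 144) (T.a (T.a (T.l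
    144) (T.l 144)) (T.a (T.l 144) (T.l 144)))) (T.c (T.l 144) (T.a (T.a (T.l 144) (T.l 144)) (T.l
    144))))) (T.c (T.a (T.l 144) (T.l 144)) (T.a (T.a (T.a (T.l 144) (T.l 144)) (T.l 144)) (T.a (T.l
    144) (T.l 144)))))), by decide +kernel⟩

theorem cstNU0_0 : CertX 0 536870912 1046898278 26843546 (CX.nd ndN0q0) (CX.nd ndN0q0) idf esF (muF 3) 0 ccNU :=
  ⟨T.a (T.a (T.a (T.c (T.a (T.c (T.l 16) (T.l 16)) (T.c (T.a (T.l 16) (T.a (T.l 16) (T.l 16))) (T.l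
    16))) (T.a (T.l 16) (T.l 16))) (T.c (T.a (T.c (T.a (T.a (T.l 16) (T.l 16)) (T.l 16)) (T.l 16))
    (T.c (T.a (T.l 16) (T.l 16)) (T.l 16))) (T.a (T.l 16) (T.a (T.l 16) (T.l 48))))) (T.a (T.c (T.a
    (T.a (T.l 48) (T.l 48)) (T.l 48)) (T.a (T.a (T.l 48) (T.l 48)) (T.l 48))) (T.c (T.l 48) (T.c
    (T.l 48) (T.a (T.l 48) (T.a (T.l 48) (T.l 48))))))) (T.a (T.c (T.a (T.l 48) (T.l 48)) (T.a (T.c
    (T.l 48) (T.c (T.l 48) (T.a (T.a (T.l 48) (T.a (T.l 48) (T.l 48))) (T.a (T.a (T.l 48) (T.l 48))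
    (T.a (T.l 48) (T.l 48)))))) (T.c (T.l 48) (T.c (T.l 48) (T.a (T.a (T.a (T.l 48) (T.l 48)) (T.a
    (T.l 48) (T.l 48))) (T.a (T.l 48) (T.l 48))))))) (T.c (T.a (T.l 48) (T.l 48)) (T.a (T.c (T.l 48)
    (T.c (T.l 48) (T.a (T.a (T.l 48) (T.l 48)) (T.l 48)))) (T.c (T.l 48) (T.c (T.l 48) (T.a (T.l 48)
    (T.a (T.l 48) (T.l 48)))))))), by decide +kernel⟩

theorem cstNU1_0 : CertX 536870912 536870912 1046898278 26843546 (CX.nd ndN0q1) (CX.nd ndN0q1) idf esF (muF 3) 1 ccNU :=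
  ⟨T.a (T.a (T.c (T.a (T.l 48) (T.l 48)) (T.c (T.a (T.l 48) (T.l 48)) (T.a (T.a (T.a (T.l 48) (T.l
    48)) (T.a (T.l 48) (T.l 48))) (T.a (T.a (T.l 48) (T.l 48)) (T.a (T.l 48) (T.l 48)))))) (T.a (T.c
    (T.l 48) (T.c (T.l 48) (T.c (T.l 48) (T.a (T.a (T.l 48) (T.l 48)) (T.a (T.l 48) (T.l 48))))))
    (T.c (T.l 48) (T.c (T.l 48) (T.a (T.a (T.l 48) (T.l 48)) (T.a (T.l 48) (T.l 48))))))) (T.a (T.a
    (T.c (T.a (T.l 48) (T.l 48)) (T.c (T.a (T.l 48) (T.l 48)) (T.a (T.a (T.a (T.l 48) (T.l 48)) (T.a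
    (T.l 48) (T.l 48))) (T.c (T.l 48) (T.a (T.l 48) (T.a (T.l 48) (T.l 48))))))) (T.c (T.a (T.l 48)
    (T.l 48)) (T.a (T.c (T.l 48) (T.a (T.a (T.l 48) (T.a (T.l 48) (T.l 48))) (T.a (T.l 48) (T.l
    48)))) (T.a (T.a (T.l 48) (T.l 48)) (T.l 48))))) (T.a (T.a (T.c (T.l 48) (T.a (T.l 48) (T.l
    48))) (T.a (T.l 48) (T.l 48))) (T.a (T.a (T.l 48) (T.l 48)) (T.c (T.l 48) (T.l 48))))), by decide +kernel⟩

theorem cstNU2_0 : CertX 0 536870912 1046898278 26843546 (CX.nd ndN0q2) (CX.nd ndN0q2) yag esF (muF 3) 2 ccNU :=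
  ⟨T.a (T.a (T.c (T.a (T.c (T.a (T.a (T.l 80) (T.l 80)) (T.a (T.l 80) (T.l 80))) (T.a (T.a (T.l 80)
    (T.l 80)) (T.a (T.l 80) (T.l 80)))) (T.c (T.a (T.a (T.l 80) (T.l 80)) (T.a (T.l 80) (T.l 80)))
    (T.a (T.a (T.l 80) (T.l 80)) (T.a (T.l 80) (T.l 80))))) (T.a (T.a (T.c (T.a (T.l 80) (T.l 80))
    (T.a (T.l 80) (T.l 80))) (T.c (T.a (T.l 80) (T.l 80)) (T.a (T.l 80) (T.l 80)))) (T.c (T.a (T.a
    (T.l 80) (T.l 80)) (T.a (T.l 80) (T.l 80))) (T.a (T.a (T.l 80) (T.l 80)) (T.l 80))))) (T.c (T.a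
    (T.c (T.a (T.a (T.l 80) (T.l 80)) (T.a (T.l 80) (T.l 80))) (T.a (T.l 80) (T.l 80))) (T.c (T.a
    (T.a (T.l 80) (T.l 80)) (T.a (T.l 80) (T.l 80))) (T.a (T.l 80) (T.l 80)))) (T.a (T.c (T.a (T.l
    80) (T.l 80)) (T.a (T.l 80) (T.l 80))) (T.c (T.a (T.l 80) (T.l 80)) (T.a (T.l 80) (T.l 80))))))
    (T.a (T.a (T.c (T.a (T.c (T.a (T.l 80) (T.a (T.l 80) (T.l 80))) (T.l 80)) (T.c (T.c (T.a (T.l
    80) (T.l 80)) (T.l 80)) (T.a (T.l 80) (T.l 80)))) (T.c (T.a (T.l 80) (T.l 80)) (T.a (T.l 80)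
    (T.l 80)))) (T.c (T.a (T.c (T.c (T.a (T.l 80) (T.l 80)) (T.a (T.l 80) (T.l 80))) (T.a (T.l 80)
    (T.l 80))) (T.c (T.a (T.l 80) (T.l 80)) (T.l 80))) (T.a (T.c (T.l 80) (T.l 80)) (T.a (T.l 80)
    (T.l 80))))) (T.a (T.c (T.a (T.c (T.a (T.l 80) (T.l 80)) (T.a (T.l 80) (T.l 80))) (T.a (T.l 80)
    (T.l 80))) (T.a (T.a (T.l 80) (T.l 80)) (T.a (T.l 80) (T.l 80)))) (T.c (T.a (T.l 80) (T.l 80))
    (T.a (T.l 80) (T.l 80))))), by decide +kernel⟩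

theorem segN0_0 {x : ℝ} (hx : 39 / 40 ≤ x) (hx' : x < 1) :
    SegR (crv (PP x)) tKN tL zrT (esn x) (mun 3 x * ((((3 : ℕ) : ℝ) + x) / 2)) 0 ccNC 0 (0 : Fin 7) x :=
  SegV.all (cstN0_0.seg (c := fun y => y) ⟨x1 hx, x2 hx'⟩ (fun y h hv => rng_0 h) (fun _ _ _ => rfl) rfl rfl
      (fun y h hv => (atN00 hx hx' ⟨h, fun _ => on_0 h⟩).atM)
      (fun y h hv => (atN10 hx hx' ⟨h, fun e => absurd e (by decide)⟩).atM))

theorem segN0_1 {x : ℝ} (hx : 39 / 40 ≤ x) (hx' : x < 1) :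
    SegR (crv (PP x)) tKN tL zrT (esn x) (mun 3 x * ((((3 : ℕ) : ℝ) + x) / 2)) 0 ccNC 0 (1 : Fin 7) x :=
  SegV.all (cstN0_1.seg (c := fun y => y) ⟨x1 hx, x2 hx'⟩ (fun y h hv => rng_0 h) (fun _ _ _ => rfl) rfl rfl
      (fun y h hv => (atN10 hx hx' ⟨h, fun e => absurd e (by decide)⟩).atM)
      (fun y h hv => (atN20 hx hx' ⟨h, fun e => absurd e (by decide)⟩).atM))

theorem segN0_2 {x : ℝ} (hx : 39 / 40 ≤ x) (hx' : x < 1) :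
    SegR (crv (PP x)) tKN tL zrT (esn x) (mun 3 x * ((((3 : ℕ) : ℝ) + x) / 2)) 0 ccNC 0 (2 : Fin 7) x :=
  SegV.all (cstN0_2.seg (c := fun y => y) ⟨x1 hx, x2 hx'⟩ (fun y h hv => rng_0 h) (fun _ _ _ => rfl) rfl rfl
      (fun y h hv => (atN20 hx hx' ⟨h, fun e => absurd e (by decide)⟩).atM)
      (fun y h hv => (atN30 hx hx' ⟨h, fun e => absurd e (by decide)⟩).atM))

theorem segN0_3 {x : ℝ} (hx : 39 / 40 ≤ x) (hx' : x < 1) :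
    SegR (crv (PP x)) tKN tL zrT (esn x) (mun 3 x * ((((3 : ℕ) : ℝ) + x) / 2)) 0 ccNC 0 (3 : Fin 7) x :=
  SegV.all (cstN0_3.seg (c := fun y => y) ⟨x1 hx, x2 hx'⟩ (fun y h hv => rng_0 h) (fun _ _ _ => rfl) rfl rfl
      (fun y h hv => (atN30 hx hx' ⟨h, fun e => absurd e (by decide)⟩).atM)
      (fun y h hv => (atN40 hx hx' ⟨h, fun e => absurd e (by decide)⟩).atM))

theorem segN0_4 {x : ℝ} (hx : 39 / 40 ≤ x) (hx' : x < 1) :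
    SegR (crv (PP x)) tKN tL zrT (esn x) (mun 3 x * ((((3 : ℕ) : ℝ) + x) / 2)) 0 ccNC 0 (4 : Fin 7) x :=
  SegV.all (cstN0_4.seg (c := fun y => y) ⟨x1 hx, x2 hx'⟩ (fun y h hv => rng_0 h) (fun _ _ _ => rfl) rfl rfl
      (fun y h hv => (atN40 hx hx' ⟨h, fun e => absurd e (by decide)⟩).atM)
      (fun y h hv => (atN50 hx hx' ⟨h, fun e => absurd e (by decide)⟩).atM))

theorem segN0_5 {x : ℝ} (hx : 39 / 40 ≤ x) (hx' : x < 1) :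
    SegR (crv (PP x)) tKN tL zrT (esn x) (mun 3 x * ((((3 : ℕ) : ℝ) + x) / 2)) 0 ccNC 0 (5 : Fin 7) x :=
  SegV.all (cstN0_5.seg (c := fun y => y) ⟨x1 hx, x2 hx'⟩ (fun y h hv => rng_0 h) (fun _ _ _ => rfl) rfl rfl
      (fun y h hv => (atN50 hx hx' ⟨h, fun e => absurd e (by decide)⟩).atM)
      (fun y h hv => (atN60 hx hx' ⟨h, fun e => absurd e (by decide)⟩).atM))

theorem segN0_6 {x : ℝ} (hx : 39 / 40 ≤ x) (hx' : x < 1) :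
    SegR (crv (PP x)) tKN tL zrT (esn x) (mun 3 x * ((((3 : ℕ) : ℝ) + x) / 2)) 0 ccNC 0 (6 : Fin 7) x :=
  SegV.all (cstN0_6.seg (c := fun y => y) ⟨x1 hx, x2 hx'⟩ (fun y h hv => rng_0 h) (fun _ _ _ => rfl) rfl rfl
      (fun y h hv => (atN60 hx hx' ⟨h, fun e => absurd e (by decide)⟩).atM)
      (fun y h hv => (atN70 hx hx' ⟨h, fun e => absurd e (by decide)⟩).atM))

theorem segN1_0 {x : ℝ} (hx : 39 / 40 ≤ x) (hx' : x < 1) :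
    SegR (crv (PP x)) tKN tL zrT (esn x) (mun 3 x * ((((3 : ℕ) : ℝ) + x) / 2)) 0 ccNC 1 (0 : Fin 7) x :=
  SegV.all (cstN1_0.seg (c := fun y => y) ⟨x1 hx, x2 hx'⟩ (fun y h hv => rng_1 h) (fun _ _ _ => rfl) rfl rfl
      (fun y h hv => (atN01 hx hx' ⟨h, fun _ => on_1 h⟩).atM)
      (fun y h hv => (atN11 hx hx' ⟨h, fun e => absurd e (by decide)⟩).atM))

theorem segN1_1 {x : ℝ} (hx : 39 / 40 ≤ x) (hx' : x < 1) :
    SegR (crv (PP x)) tKN tL zrT (esn x) (mun 3 x * ((((3 : ℕ) : ℝ) + x) / 2)) 0 ccNC 1 (1 : Fin 7) x :=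
  SegV.all (cstN1_1.seg (c := fun y => y) ⟨x1 hx, x2 hx'⟩ (fun y h hv => rng_1 h) (fun _ _ _ => rfl) rfl rfl
      (fun y h hv => (atN11 hx hx' ⟨h, fun e => absurd e (by decide)⟩).atM)
      (fun y h hv => (atN21 hx hx' ⟨h, fun e => absurd e (by decide)⟩).atM))

theorem segN1_2 {x : ℝ} (hx : 39 / 40 ≤ x) (hx' : x < 1) :
    SegR (crv (PP x)) tKN tL zrT (esn x) (mun 3 x * ((((3 : ℕ) : ℝ) + x) / 2)) 0 ccNC 1 (2 : Fin 7) x :=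
  SegV.all (cstN1_2.seg (c := fun y => y) ⟨x1 hx, x2 hx'⟩ (fun y h hv => rng_1 h) (fun _ _ _ => rfl) rfl rfl
      (fun y h hv => (atN21 hx hx' ⟨h, fun e => absurd e (by decide)⟩).atM)
      (fun y h hv => (atN31 hx hx' ⟨h, fun e => absurd e (by decide)⟩).atM))

theorem segN1_3 {x : ℝ} (hx : 39 / 40 ≤ x) (hx' : x < 1) :
    SegR (crv (PP x)) tKN tL zrT (esn x) (mun 3 x * ((((3 : ℕ) : ℝ) + x) / 2)) 0 ccNC 1 (3 : Fin 7) x :=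
  SegV.all (cstN1_3.seg (c := fun y => y) ⟨x1 hx, x2 hx'⟩ (fun y h hv => rng_1 h) (fun _ _ _ => rfl) rfl rfl
      (fun y h hv => (atN31 hx hx' ⟨h, fun e => absurd e (by decide)⟩).atM)
      (fun y h hv => (atN41 hx hx' ⟨h, fun e => absurd e (by decide)⟩).atM))

theorem segN1_4 {x : ℝ} (hx : 39 / 40 ≤ x) (hx' : x < 1) :
    SegR (crv (PP x)) tKN tL zrT (esn x) (mun 3 x * ((((3 : ℕ) : ℝ) + x) / 2)) 0 ccNC 1 (4 : Fin 7) x :=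
  SegV.all (cstN1_4.seg (c := fun y => y) ⟨x1 hx, x2 hx'⟩ (fun y h hv => rng_1 h) (fun _ _ _ => rfl) rfl rfl
      (fun y h hv => (atN41 hx hx' ⟨h, fun e => absurd e (by decide)⟩).atM)
      (fun y h hv => (atN51 hx hx' ⟨h, fun e => absurd e (by decide)⟩).atM))

theorem segN1_5 {x : ℝ} (hx : 39 / 40 ≤ x) (hx' : x < 1) :
    SegR (crv (PP x)) tKN tL zrT (esn x) (mun 3 x * ((((3 : ℕ) : ℝ) + x) / 2)) 0 ccNC 1 (5 : Fin 7) x :=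
  SegV.all (cstN1_5.seg (c := fun y => y) ⟨x1 hx, x2 hx'⟩ (fun y h hv => rng_1 h) (fun _ _ _ => rfl) rfl rfl
      (fun y h hv => (atN51 hx hx' ⟨h, fun e => absurd e (by decide)⟩).atM)
      (fun y h hv => (atN61 hx hx' ⟨h, fun e => absurd e (by decide)⟩).atM))

theorem segN1_6 {x : ℝ} (hx : 39 / 40 ≤ x) (hx' : x < 1) :
    SegR (crv (PP x)) tKN tL zrT (esn x) (mun 3 x * ((((3 : ℕ) : ℝ) + x) / 2)) 0 ccNC 1 (6 : Fin 7) x :=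
  SegV.all (cstN1_6.seg (c := fun y => y) ⟨x1 hx, x2 hx'⟩ (fun y h hv => rng_1 h) (fun _ _ _ => rfl) rfl rfl
      (fun y h hv => (atN61 hx hx' ⟨h, fun e => absurd e (by decide)⟩).atM)
      (fun y h hv => (atN71 hx hx' ⟨h, fun e => absurd e (by decide)⟩).atM))

theorem segN2_0 {x : ℝ} (hx : 39 / 40 ≤ x) (hx' : x < 1) :
    SegR (crv (PP x)) tKN tL zrT (esn x) (mun 3 x * ((((3 : ℕ) : ℝ) + x) / 2)) 0 ccNC 2 (0 : Fin 7) x :=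
  SegV.join (cstN2a_0.seg (c := c1n) ⟨x1 hx, x2 hx'⟩ (fun y h hv => rng_2a h) (fun y h hv => yag_v h.nn hv) rfl rfl
      (fun y h hv => (atN02 hx hx' ⟨h, fun _ => hv⟩).atM)
      (fun y h hv => (atN12a hx hx' ⟨h, fun e => absurd e (by decide)⟩ hv).atM))
    (cstN2b_0.seg (c := fun y => y) ⟨x1 hx, x2 hx'⟩ (fun y h hv => rng_2b h hv) (fun _ _ _ => rfl) rfl rfl
      (fun y h hv => atM_off (pinKN hx hx') (pinL hx hx') h hv)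
      (fun y h hv => (atN12b hx hx' ⟨h, fun e => absurd e (by decide)⟩ hv).atM))

theorem segN2_1 {x : ℝ} (hx : 39 / 40 ≤ x) (hx' : x < 1) :
    SegR (crv (PP x)) tKN tL zrT (esn x) (mun 3 x * ((((3 : ℕ) : ℝ) + x) / 2)) 0 ccNC 2 (1 : Fin 7) x :=
  SegV.join (cstN2a_1.seg (c := c1n) ⟨x1 hx, x2 hx'⟩ (fun y h hv => rng_2a h) (fun y h hv => yag_v h.nn hv) rfl rfl
      (fun y h hv => (atN12a hx hx' ⟨h, fun e => absurd e (by decide)⟩ hv).atM)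
      (fun y h hv => (atN22a hx hx' ⟨h, fun e => absurd e (by decide)⟩ hv).atM))
    (cstN2b_1.seg (c := fun y => y) ⟨x1 hx, x2 hx'⟩ (fun y h hv => rng_2b h hv) (fun _ _ _ => rfl) rfl rfl
      (fun y h hv => (atN12b hx hx' ⟨h, fun e => absurd e (by decide)⟩ hv).atM)
      (fun y h hv => (atN22b hx hx' ⟨h, fun e => absurd e (by decide)⟩ hv).atM))

theorem segN2_2 {x : ℝ} (hx : 39 / 40 ≤ x) (hx' : x < 1) :
    SegR (crv (PP x)) tKN tL zrT (esn x) (mun 3 x * ((((3 : ℕ) : ℝ) + x) / 2)) 0 ccNC 2 (2 : Fin 7) x :=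
  SegV.join (cstN2a_2.seg (c := c1n) ⟨x1 hx, x2 hx'⟩ (fun y h hv => rng_2a h) (fun y h hv => yag_v h.nn hv) rfl rfl
      (fun y h hv => (atN22a hx hx' ⟨h, fun e => absurd e (by decide)⟩ hv).atM)
      (fun y h hv => (atN32 hx hx' ⟨h, fun e => absurd e (by decide)⟩).atMc (yag_v h.nn hv)))
    (cstN2b_2.seg (c := fun y => y) ⟨x1 hx, x2 hx'⟩ (fun y h hv => rng_2b h hv) (fun _ _ _ => rfl) rfl rfl
      (fun y h hv => (atN22b hx hx' ⟨h, fun e => absurd e (by decide)⟩ hv).atM)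
      (fun y h hv => (atN32 hx hx' ⟨h, fun e => absurd e (by decide)⟩).atM))

theorem segN2_3 {x : ℝ} (hx : 39 / 40 ≤ x) (hx' : x < 1) :
    SegR (crv (PP x)) tKN tL zrT (esn x) (mun 3 x * ((((3 : ℕ) : ℝ) + x) / 2)) 0 ccNC 2 (3 : Fin 7) x :=
  SegV.join (cstN2a_3.seg (c := c1n) ⟨x1 hx, x2 hx'⟩ (fun y h hv => rng_2a h) (fun y h hv => yag_v h.nn hv) rfl rfl
      (fun y h hv => (atN32 hx hx' ⟨h, fun e => absurd e (by decide)⟩).atMc (yag_v h.nn hv))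
      (fun y h hv => (atN42 hx hx' ⟨h, fun e => absurd e (by decide)⟩).atMc (yag_v h.nn hv)))
    (cstN2b_3.seg (c := fun y => y) ⟨x1 hx, x2 hx'⟩ (fun y h hv => rng_2b h hv) (fun _ _ _ => rfl) rfl rfl
      (fun y h hv => (atN32 hx hx' ⟨h, fun e => absurd e (by decide)⟩).atM)
      (fun y h hv => (atN42 hx hx' ⟨h, fun e => absurd e (by decide)⟩).atM))

theorem segN2_4 {x : ℝ} (hx : 39 / 40 ≤ x) (hx' : x < 1) :
    SegR (crv (PP x)) tKN tL zrT (esn x) (mun 3 x * ((((3 : ℕ) : ℝ) + x) / 2)) 0 ccNC 2 (4 : Fin 7) x :=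
  SegV.join (cstN2a_4.seg (c := c1n) ⟨x1 hx, x2 hx'⟩ (fun y h hv => rng_2a h) (fun y h hv => yag_v h.nn hv) rfl rfl
      (fun y h hv => (atN42 hx hx' ⟨h, fun e => absurd e (by decide)⟩).atMc (yag_v h.nn hv))
      (fun y h hv => (atN52 hx hx' ⟨h, fun e => absurd e (by decide)⟩).atMc (yag_v h.nn hv)))
    (cstN2b_4.seg (c := fun y => y) ⟨x1 hx, x2 hx'⟩ (fun y h hv => rng_2b h hv) (fun _ _ _ => rfl) rfl rfl
      (fun y h hv => (atN42 hx hx' ⟨h, fun e => absurd e (by decide)⟩).atM)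
      (fun y h hv => (atN52 hx hx' ⟨h, fun e => absurd e (by decide)⟩).atM))

theorem segN2_5 {x : ℝ} (hx : 39 / 40 ≤ x) (hx' : x < 1) :
    SegR (crv (PP x)) tKN tL zrT (esn x) (mun 3 x * ((((3 : ℕ) : ℝ) + x) / 2)) 0 ccNC 2 (5 : Fin 7) x :=
  SegV.join (cstN2a_5.seg (c := c1n) ⟨x1 hx, x2 hx'⟩ (fun y h hv => rng_2a h) (fun y h hv => yag_v h.nn hv) rfl rfl
      (fun y h hv => (atN52 hx hx' ⟨h, fun e => absurd e (by decide)⟩).atMc (yag_v h.nn hv))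
      (fun y h hv => (atN62 hx hx' ⟨h, fun e => absurd e (by decide)⟩).atMc (yag_v h.nn hv)))
    (cstN2b_5.seg (c := fun y => y) ⟨x1 hx, x2 hx'⟩ (fun y h hv => rng_2b h hv) (fun _ _ _ => rfl) rfl rfl
      (fun y h hv => (atN52 hx hx' ⟨h, fun e => absurd e (by decide)⟩).atM)
      (fun y h hv => (atN62 hx hx' ⟨h, fun e => absurd e (by decide)⟩).atM))

theorem segN2_6 {x : ℝ} (hx : 39 / 40 ≤ x) (hx' : x < 1) :
    SegR (crv (PP x)) tKN tL zrT (esn x) (mun 3 x * ((((3 : ℕ) : ℝ) + x) / 2)) 0 ccNC 2 (6 : Fin 7) x :=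
  SegV.join (cstN2a_6.seg (c := c1n) ⟨x1 hx, x2 hx'⟩ (fun y h hv => rng_2a h) (fun y h hv => yag_v h.nn hv) rfl rfl
      (fun y h hv => (atN62 hx hx' ⟨h, fun e => absurd e (by decide)⟩).atMc (yag_v h.nn hv))
      (fun y h hv => (atN72 hx hx' ⟨h, fun e => absurd e (by decide)⟩).atMc (yag_v h.nn hv)))
    (cstN2b_6.seg (c := fun y => y) ⟨x1 hx, x2 hx'⟩ (fun y h hv => rng_2b h hv) (fun _ _ _ => rfl) rfl rfl
      (fun y h hv => (atN62 hx hx' ⟨h, fun e => absurd e (by decide)⟩).atM)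
      (fun y h hv => (atN72 hx hx' ⟨h, fun e => absurd e (by decide)⟩).atM))

theorem segN3_0 {x : ℝ} (hx : 39 / 40 ≤ x) (hx' : x < 1) :
    SegR (crv (PP x)) tKN tL zrT (esn x) (mun 3 x * ((((3 : ℕ) : ℝ) + x) / 2)) 0 ccNC 3 (0 : Fin 7) x :=
  SegV.all (cstN3_0.seg (c := c3n) ⟨x1 hx, x2 hx'⟩ (fun y h hv => rng_3 h) (fun y h hv => ycg_v h.nn h.2) rfl rfl
      (fun y h hv => atM_off (pinKN hx hx') (pinL hx hx') h (off_3 h))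
      (fun y h hv => (atN13 hx hx' ⟨h, fun e => absurd e (by decide)⟩).atMc (ycg_v h.nn h.2)))

theorem segN3_1 {x : ℝ} (hx : 39 / 40 ≤ x) (hx' : x < 1) :
    SegR (crv (PP x)) tKN tL zrT (esn x) (mun 3 x * ((((3 : ℕ) : ℝ) + x) / 2)) 0 ccNC 3 (1 : Fin 7) x :=
  SegV.all (cstN3_1.seg (c := c3n) ⟨x1 hx, x2 hx'⟩ (fun y h hv => rng_3 h) (fun y h hv => ycg_v h.nn h.2) rfl rfl
      (fun y h hv => (atN13 hx hx' ⟨h, fun e => absurd e (by decide)⟩).atMc (ycg_v h.nn h.2))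
      (fun y h hv => (atN23 hx hx' ⟨h, fun e => absurd e (by decide)⟩).atMc (ycg_v h.nn h.2)))

theorem segN3_2 {x : ℝ} (hx : 39 / 40 ≤ x) (hx' : x < 1) :
    SegR (crv (PP x)) tKN tL zrT (esn x) (mun 3 x * ((((3 : ℕ) : ℝ) + x) / 2)) 0 ccNC 3 (2 : Fin 7) x :=
  SegV.all (cstN3_2.seg (c := c3n) ⟨x1 hx, x2 hx'⟩ (fun y h hv => rng_3 h) (fun y h hv => ycg_v h.nn h.2) rfl rfl
      (fun y h hv => (atN23 hx hx' ⟨h, fun e => absurd e (by decide)⟩).atMc (ycg_v h.nn h.2))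
      (fun y h hv => (atN33 hx hx' ⟨h, fun e => absurd e (by decide)⟩).atMc (ycg_v h.nn h.2)))

theorem segN3_3 {x : ℝ} (hx : 39 / 40 ≤ x) (hx' : x < 1) :
    SegR (crv (PP x)) tKN tL zrT (esn x) (mun 3 x * ((((3 : ℕ) : ℝ) + x) / 2)) 0 ccNC 3 (3 : Fin 7) x :=
  SegV.all (cstN3_3.seg (c := c3n) ⟨x1 hx, x2 hx'⟩ (fun y h hv => rng_3 h) (fun y h hv => ycg_v h.nn h.2) rfl rfl
      (fun y h hv => (atN33 hx hx' ⟨h, fun e => absurd e (by decide)⟩).atMc (ycg_v h.nn h.2))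
      (fun y h hv => (atN43 hx hx' ⟨h, fun e => absurd e (by decide)⟩).atM))

theorem segN3_4 {x : ℝ} (hx : 39 / 40 ≤ x) (hx' : x < 1) :
    SegR (crv (PP x)) tKN tL zrT (esn x) (mun 3 x * ((((3 : ℕ) : ℝ) + x) / 2)) 0 ccNC 3 (4 : Fin 7) x :=
  SegV.all (cstN3_4.seg (c := c3n) ⟨x1 hx, x2 hx'⟩ (fun y h hv => rng_3 h) (fun y h hv => ycg_v h.nn h.2) rfl rfl
      (fun y h hv => (atN43 hx hx' ⟨h, fun e => absurd e (by decide)⟩).atM)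
      (fun y h hv => (atN53 hx hx' ⟨h, fun e => absurd e (by decide)⟩).atM))

theorem segN3_5 {x : ℝ} (hx : 39 / 40 ≤ x) (hx' : x < 1) :
    SegR (crv (PP x)) tKN tL zrT (esn x) (mun 3 x * ((((3 : ℕ) : ℝ) + x) / 2)) 0 ccNC 3 (5 : Fin 7) x :=
  SegV.all (cstN3_5.seg (c := c3n) ⟨x1 hx, x2 hx'⟩ (fun y h hv => rng_3 h) (fun y h hv => ycg_v h.nn h.2) rfl rfl
      (fun y h hv => (atN53 hx hx' ⟨h, fun e => absurd e (by decide)⟩).atM)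
      (fun y h hv => (atN63 hx hx' ⟨h, fun e => absurd e (by decide)⟩).atM))

theorem segN3_6 {x : ℝ} (hx : 39 / 40 ≤ x) (hx' : x < 1) :
    SegR (crv (PP x)) tKN tL zrT (esn x) (mun 3 x * ((((3 : ℕ) : ℝ) + x) / 2)) 0 ccNC 3 (6 : Fin 7) x :=
  SegV.all (cstN3_6.seg (c := c3n) ⟨x1 hx, x2 hx'⟩ (fun y h hv => rng_3 h) (fun y h hv => ycg_v h.nn h.2) rfl rfl
      (fun y h hv => (atN63 hx hx' ⟨h, fun e => absurd e (by decide)⟩).atM)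
      (fun y h hv => (atN73 hx hx' ⟨h, fun e => absurd e (by decide)⟩).atM))

theorem uniN0 {x : ℝ} (hx : 39 / 40 ≤ x) (hx' : x < 1) :
    UniR (crv (PP x)) tKN tL zrT (esn x) (mun 3 x * ((((3 : ℕ) : ℝ) + x) / 2)) 0 ccNU 0 x :=
  cstNU0_0.uni (c := fun y => y) ⟨x1 hx, x2 hx'⟩ (fun y h hv => rng_0 h) (fun _ _ _ => rfl) rfl rfl
    (fun y h hv => (atN00 hx hx' ⟨h, fun _ => on_0 h⟩).atM)

theorem uniN1 {x : ℝ} (hx : 39 / 40 ≤ x) (hx' : x < 1) :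
    UniR (crv (PP x)) tKN tL zrT (esn x) (mun 3 x * ((((3 : ℕ) : ℝ) + x) / 2)) 0 ccNU 1 x :=
  cstNU1_0.uni (c := fun y => y) ⟨x1 hx, x2 hx'⟩ (fun y h hv => rng_1 h) (fun _ _ _ => rfl) rfl rfl
    (fun y h hv => (atN01 hx hx' ⟨h, fun _ => on_1 h⟩).atM)

theorem uniN2 {x : ℝ} (hx : 39 / 40 ≤ x) (hx' : x < 1) :
    UniR (crv (PP x)) tKN tL zrT (esn x) (mun 3 x * ((((3 : ℕ) : ℝ) + x) / 2)) 0 ccNU 2 x :=
  cstNU2_0.uni (c := c1n) ⟨x1 hx, x2 hx'⟩ (fun y h hv => rng_2a h) (fun y h hv => yag_v h.nn hv) rfl rfl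
    (fun y h hv => (atN02 hx hx' ⟨h, fun _ => hv⟩).atM)

theorem segN {x : ℝ} (hx : 39 / 40 ≤ x) (hx' : x < 1) : ∀ a, a < 4 → ∀ i : Fin 7,
    SegR (crv (PP x)) tKN tL zrT (esn x) (mun 3 x * ((((3 : ℕ) : ℝ) + x) / 2)) 0 ccNC a i x := by
  intro a ha i
  match a, ha with
  | 0, _ => exact match i with
    | 0 => segN0_0 hx hx'
    | 1 => segN0_1 hx hx'
    | 2 => segN0_2 hx hx'
    | 3 => segN0_3 hx hx'
    | 4 => segN0_4 hx hx'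
    | 5 => segN0_5 hx hx'
    | 6 => segN0_6 hx hx'
  | 1, _ => exact match i with
    | 0 => segN1_0 hx hx'
    | 1 => segN1_1 hx hx'
    | 2 => segN1_2 hx hx'
    | 3 => segN1_3 hx hx'
    | 4 => segN1_4 hx hx'
    | 5 => segN1_5 hx hx'
    | 6 => segN1_6 hx hx'
  | 2, _ => exact match i with
    | 0 => segN2_0 hx hx'
    | 1 => segN2_1 hx hx'
    | 2 => segN2_2 hx hx'
    | 3 => segN2_3 hx hx'
    | 4 => segN2_4 hx hx'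
    | 5 => segN2_5 hx hx'
    | 6 => segN2_6 hx hx'
  | 3, _ => exact match i with
    | 0 => segN3_0 hx hx'
    | 1 => segN3_1 hx hx'
    | 2 => segN3_2 hx hx'
    | 3 => segN3_3 hx hx'
    | 4 => segN3_4 hx hx'
    | 5 => segN3_5 hx hx'
    | 6 => segN3_6 hx hx'

theorem uniN {x : ℝ} (hx : 39 / 40 ≤ x) (hx' : x < 1) : ∀ a, a < 3 → UniR (crv (PP x)) tKN tL zrT (esn x) (mun 3 x * ((((3 : ℕ) : ℝ) + x) / 2)) 0 ccNU a x := by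
  intro a ha
  match a, ha with
  | 0, _ => exact uniN0 hx hx'
  | 1, _ => exact uniN1 hx hx'
  | 2, _ => exact uniN2 hx hx'

/-- **The costs of the edges.** -/
theorem costTab {x κ : ℝ} (hx : 39 / 40 ≤ x) (hx' : x < 1) (hκ : κ * h0 = ken x) :
    CostTab (tab (DD x).cur.nodes (tbl tKF x) (tbl tKN x) (tbl tL x)) 3 κ (h0 * x) (cbv LC.Box.IE1.C)
      (cbv LC.Box.IE1.U) (cbv LC.Box.IE1.C) (cbv LC.Box.IE1.U) := by
  have h1 : 0 < x := by linarith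
  have e := costTab_rows (DD x).linkX (pvKF hx hx').linkV (pvKN hx hx').linkV
    (pvL hx hx').linkV (DD x).Q.first h1 hx' hκ (segF hx hx') (segN hx hx') (uniF hx hx')
    (uniN hx hx') (okU_sound (by decide +kernel)) (okU_sound (by decide +kernel))
  rwa [ccFC_eq, ccFU_eq, ccNC_eq, ccNU_eq] at e

/-- **The exact count** from the certificates of the triangles and of the floor. -/
theorem good {x κ a : ℝ} (hx : 39 / 40 ≤ x) (hx' : x < 1) (hκ : κ * h0 = ken x)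
    (h : CertT (DD x).cur (tbl tKF x) (tbl tKN x) (tbl tL x) 3 a κ (h0 * x))
    (rows : RowOK ((tab (DD x).cur.nodes (tbl tKF x) (tbl tKN x) (tbl tL x)).flat3 (ker (DD x).cur.nodes (fun _ _ => 0) fun _ _ => 0) (fun _ => 0) 3 κ
      (h0 * x)) 3 (h0 * x)) :
    Good (h0 * x) :=
  goodT2 LC.Box.IE1.certs LC.Box.IE1.certs (wallF hx hx') (wallN hx hx') h (costTab hx hx' hκ) rows

end Pool.Agent.Strip051.G.IE1.Tab
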