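import Pool.Agent.Strip051.PB.Cuts
import Pool.Agent.Strip051.PB.RowX

/-! # Tables IE1 (generated) -/

namespace Pool.Agent.Strip051.G.IE1.Tab

open Pool.Agent.Strip051.PB

noncomputable def c1g : Fn1 := ⟨_, _, fun h1 => (enc_sqrtg (enc_sub (enc_pnc _ 1) (enc_scale 3 4 (enc_sq h1))))⟩
noncomputable def cx0m : Fn2 := ⟨_, _, fun h1 h2 => (c1g.enc h1)⟩
noncomputable def hhg : Fn1 := ⟨_, _, fun h1 => (enc_sqrt (enc_rat _ 3 4))⟩
noncomputable def gsg : Fn1 := ⟨_, _, fun h1 => (enc_sqrt (enc_sub (enc_pnc _ 1) (enc_scale 3 4 (enc_sq h1))))⟩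
noncomputable def cpg : Fn1 := ⟨_, _, fun h1 => (enc_norm (enc_mul (enc_norm (enc_scale 3 4 (enc_add (enc_pnc _ 1) h1))) (enc_inv (enc_add (gsg.enc h1) (enc_rat _ 1 2)))))⟩
noncomputable def ehg : Fn1 := ⟨_, _, fun h1 => (enc_norm (enc_subr 1 2 (cpg.enc h1)))⟩
noncomputable def dag_2 : Fn1 := ⟨_, _, fun h1 => (enc_sub (enc_pnc _ 1) h1)⟩
noncomputable def dag_8 : Fn1 := ⟨_, _, fun h1 => (enc_add (enc_sq (cpg.enc h1)) (enc_rat _ 3 4))⟩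
noncomputable def dag_14 : Fn1 := ⟨_, _, fun h1 => (enc_sq (enc_norm (dag_2.enc h1)))⟩
noncomputable def dag_23 : Fn1 := ⟨_, _, fun h1 => (enc_nat 2 (enc_mul (enc_norm (dag_8.enc h1)) (cpg.enc h1)))⟩
noncomputable def dag : Fn1 := ⟨_, _, fun h1 => (enc_norm (enc_mul (enc_norm (enc_add (enc_sub (enc_sub (enc_sub (enc_subn 5 (enc_scale 15 4 (dag_2.enc h1))) (enc_scale 3 4 (dag_14.enc h1))) (enc_add (enc_sub (enc_nat 2 (cpg.enc h1)) (dag_8.enc h1)) (ehg.enc h1))) (enc_mul (enc_norm (dag_2.enc h1)) (enc_norm (enc_add (enc_sub (enc_neg (dag_23.enc h1)) (enc_mul (enc_norm (dag_8.enc h1)) (ehg.enc h1))) (enc_nat 2 (enc_mul (cpg.enc h1) (ehg.enc h1))))))) (enc_mul (dag_14.enc h1) (enc_norm (enc_mul (enc_norm (dag_23.enc h1)) (ehg.enc h1)))))) (enc_inv (enc_mul (enc_norm (enc_nat 2 (enc_mul (gsg.enc h1) (ehg.enc h1)))) (enc_norm (enc_add (enc_pnc _ 1) (enc_mul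 (enc_norm (dag_2.enc h1)) (ehg.enc h1))))))))⟩
noncomputable def zsg : Fn1 := ⟨_, _, fun h1 => (enc_norm (enc_mul (enc_norm (enc_add (enc_pnc _ 1) h1)) (enc_inv (enc_add (gsg.enc h1) (enc_half h1)))))⟩
noncomputable def rkg_3 : Fn2 := ⟨_, _, fun h1 h2 => (enc_sub (enc_pnc _ 1) h2)⟩
noncomputable def rkg_5 : Fn2 := ⟨_, _, fun h1 h2 => (enc_mul (hhg.enc h2) h1)⟩
noncomputable def rkg_30 : Fn2 := ⟨_, _, fun h1 h2 => (enc_sub (dag.enc h2) (enc_scale 559209 100000 (enc_mul (hhg.enc h2) (enc_norm (enc_sub (enc_rat _ 11 5) (zsg.enc h2))))))⟩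
noncomputable def rkg_31 : Fn2 := ⟨_, _, fun h1 h2 => (enc_scale 109997 50000 (hhg.enc h2))⟩
noncomputable def rkg_36 : Fn2 := ⟨_, _, fun h1 h2 => (enc_sub h1 (rkg_3.enc h1 h2))⟩
noncomputable def rkg_50 : Fn2 := ⟨_, _, fun h1 h2 => (enc_sub h1 (enc_scale 11 5 (rkg_3.enc h1 h2)))⟩
noncomputable def rkg : Fn2 := ⟨_, _, fun h1 h2 => (enc_norm (enc_case (rkg_36.enc h1 h2) (enc_sub (enc_pnc _ 1) (enc_scale 109997 50000 (rkg_5.enc h1 h2))) (enc_case (enc_sub h1 (enc_scale 8 5 (rkg_3.enc h1 h2))) (enc_add (enc_sub (enc_pnc _ 1) (enc_mul (enc_norm (rkg_3.enc h1 h2)) (rkg_31.enc h1 h2))) (enc_mul (enc_norm (rkg_36.enc h1 h2)) (enc_norm (enc_scale 5 3 (enc_add (enc_sub (dag.enc h2) (enc_scale 559209 100000 (enc_mul (hhg.enc h2) (enc_norm (enc_sub (enc_rat _ 8 5) (zsg.enc h2)))))) (rkg_31.enc h1 h2)))))) (enc_case (rkg_50.enc h1 h2) (enc_sub (enc_add (enc_pnc _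 1) (enc_mul (enc_norm (rkg_3.enc h1 h2)) (dag.enc h2))) (enc_scale 559209 100000 (enc_sub (rkg_5.enc h1 h2) (enc_mul (enc_norm (enc_mul (hhg.enc h2) (enc_norm (rkg_3.enc h1 h2)))) (zsg.enc h2))))) (enc_case (enc_sub h1 (enc_scale 5 2 (rkg_3.enc h1 h2))) (enc_add (enc_add (enc_pnc _ 1) (enc_mul (enc_norm (rkg_3.enc h1 h2)) (enc_norm (rkg_30.enc h1 h2)))) (enc_mul (enc_norm (rkg_50.enc h1 h2)) (enc_norm (enc_scale 10 3 (enc_sub (enc_neg (enc_scale 6303 625 (hhg.enc h2))) (rkg_30.enc h1 h2)))))) (enc_case (enc_subr 1 16 (rkg_5.enc h1 h2)) (enc_sub (enc_pnc _ 1) (enc_scale 12606 3125 (rkg_5.enc h1 h2))) (enc_case (enc_subr 1 10 (rkg_5.enc h1 h2)) (enc_sub (enc_rat _ 28447 25000) (enc_scale 156 25 (rkg_5.enc h1 h2))) (enc_case (enc_subr 1 5 (rkg_5.enc h1 h2)) (enc_sub (enc_rat _ 12847 12500) (enc_scale 12847 2500 (rkg_5.enc h1 h2))) (enc_pnc _ 0)))))))))⟩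
noncomputable def kf0q0 : Fn2 := ⟨_, _, fun h1 h2 => (rkg.enc h1 h2)⟩
noncomputable def lamg : Fn1 := ⟨_, _, fun h1 => (enc_norm (enc_nat 2 (enc_sub (enc_pnc _ 1) (gsg.enc h1))))⟩
noncomputable def k167_50g : Fn1 := ⟨_, _, fun h1 => (enc_norm (enc_mul (hhg.enc h1) (enc_inv (enc_sub (enc_rat _ 1 2) (enc_scale 167 50 (enc_mul (hhg.enc h1) (enc_norm (enc_sub (enc_pnc _ 1) h1))))))))⟩
noncomputable def alg_3 : Fn2 := ⟨_, _, fun h1 h2 => (enc_sub (enc_pnc _ 1) h2)⟩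
noncomputable def alg_5 : Fn2 := ⟨_, _, fun h1 h2 => (enc_mul (hhg.enc h2) h1)⟩
noncomputable def alg_7 : Fn2 := ⟨_, _, fun h1 h2 => (enc_sub h1 (enc_scale 167 50 (alg_3.enc h1 h2)))⟩
noncomputable def alg_15 : Fn2 := ⟨_, _, fun h1 h2 => (enc_mul (enc_sq (enc_norm (enc_mul (enc_norm (alg_7.enc h1 h2)) (k167_50g.enc h2)))) (enc_norm (enc_sub (enc_rat _ 85937 100000) (enc_scale 10723 500 (alg_3.enc h1 h2)))))⟩
noncomputable def alg : Fn2 := ⟨_, _, fun h1 h2 => (enc_norm (enc_case (alg_7.enc h1 h2) (enc_pnc _ 0) (enc_case (enc_subr 29 400 (alg_5.enc h1 h2)) (alg_15.enc h1 h2) (enc_case (enc_subr 9 100 (alg_5.enc h1 h2)) (enc_add (alg_15.enc h1 h2) (enc_add (enc_sub (enc_rat _ 453299 116964000) (enc_scale 37586813 29241000 (alg_3.enc h1 h2))) (enc_mul (enc_norm (alg_5.enc h1 h2)) (enc_norm (enc_add (enc_subr 15631 146205 (enc_scale 5184388 146205 (alg_3.enc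 h1 h2))) (enc_mul (enc_norm (alg_5.enc h1 h2)) (enc_norm (enc_sub (enc_rat _ 21560 29241) (enc_scale 7150880 29241 (alg_3.enc h1 h2)))))))))) (enc_case (enc_subr 3 25 (alg_5.enc h1 h2)) (enc_add (alg_15.enc h1 h2) (enc_add (enc_subr 117286915327 4915412100000 (enc_scale 35353338563 9830824200 (alg_3.enc h1 h2))) (enc_mul (enc_norm (alg_5.enc h1 h2)) (enc_norm (enc_add (enc_sub (enc_rat _ 6260481439 12288530250) (enc_scale 17946168824 245770605 (alg_3.enc h1 h2))) (enc_mul (enc_norm (alg_5.enc h1 h2)) (enc_norm (enc_subr 660373421 245770605 (enc_scale 17602843000 49154121 (alg_3.enc h1 h2)))))))))) (enc_case (enc_subr 9 50 (alg_5.enc h1 h2)) (enc_add (alg_15.enc h1 h2) (enc_add (enc_sub (enc_rat _ 38797386853 983082420000) (enc_scale 24409358269 9830824200 (alg_3.enc h1 h2))) (enc_mul (enc_norm (alg_5.enc h1 h2)) (enc_norm (enc_add (enc_subr 3354631147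 6144265125 (enc_scale 6954954856 245770605 (alg_3.enc h1 h2))) (enc_mul (enc_norm (alg_5.enc h1 h2)) (enc_norm (enc_sub (enc_rat _ 1681754227 983082420) (enc_scale 3148093400 49154121 (alg_3.enc h1 h2)))))))))) (enc_case (enc_subr 1 4 (alg_5.enc h1 h2)) (enc_add (alg_15.enc h1 h2) (enc_add (enc_subr 482312425913 2457706050000 (enc_scale 119809535341819 12583454976000 (alg_3.enc h1 h2))) (enc_mul (enc_norm (alg_5.enc h1 h2)) (enc_norm (enc_add (enc_sub (enc_rat _ 101897593723 49154121000) (enc_scale 13222786883299 125834549760 (alg_3.enc h1 h2))) (enc_mul (enc_norm (alg_5.enc h1 h2)) (enc_norm (enc_subr 10940340757 1966164840 (enc_scale 7712467162295 25166909952 (alg_3.enc h1 h2)))))))))) (enc_case (enc_subr 8 25 (alg_5.enc h1 h2)) (enc_add (alg_15.enc h1 h2) (enc_add (enc_sub (enc_neg (enc_rat _ 73427015909 614426512500)) (enc_scale 107611246439429 12583454976000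 (alg_3.enc h1 h2))) (enc_mul (enc_norm (alg_5.enc h1 h2)) (enc_norm (enc_add (enc_add (enc_rat _ 1793022393967 1228853025000) (enc_scale 124271891480021 3145863744000 (alg_3.enc h1 h2))) (enc_mul (enc_norm (alg_5.enc h1 h2)) (enc_norm (enc_subr 5328878074909 1228853025000 (enc_scale 54375268161883 3145863744000 (alg_3.enc h1 h2)))))))))) (enc_case (enc_subr 2 5 (alg_5.enc h1 h2)) (enc_add (alg_15.enc h1 h2) (enc_add (enc_sub (enc_rat _ 1825990099 24577060500) (enc_scale 198962779728901 12583454976000 (alg_3.enc h1 h2))) (enc_mul (enc_norm (alg_5.enc h1 h2)) (enc_norm (enc_add (enc_add (enc_rat _ 304562789167 1228853025000) (enc_scale 267008662244821 3145863744000 (alg_3.enc h1 h2))) (enc_mul (enc_norm (alg_5.enc h1 h2)) (enc_norm (enc_sub (enc_neg (enc_rat _ 3003159942409 1228853025000)) (enc_scale 168650936158117 3145863744000 (alg_3.enc h1 h2))))))))))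 (enc_add (alg_15.enc h1 h2) (enc_add (enc_subr 194812207457 614426512500 (enc_scale 310012807140347 12583454976000 (alg_3.enc h1 h2))) (enc_mul (enc_norm (alg_5.enc h1 h2)) (enc_norm (enc_add (enc_sub (enc_rat _ 2709182388487 1228853025000) (enc_scale 369210821341739 3145863744000 (alg_3.enc h1 h2))) (enc_mul (enc_norm (alg_5.enc h1 h2)) (enc_norm (enc_subr 6008934441559 1228853025000 (enc_scale 626623418325083 3145863744000 (alg_3.enc h1 h2)))))))))))))))))))⟩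
noncomputable def xt0q0 : Fn2 := ⟨_, _, fun h1 h2 => (enc_norm (enc_subn 1 (alg.enc h1 h2)))⟩
noncomputable def l0q0 : Fn2 := ⟨_, _, fun h1 h2 => (enc_norm (enc_mul (lamg.enc h2) (enc_norm (enc_add (c1g.enc h1) (xt0q0.enc h1 h2)))))⟩
noncomputable def kf0q1_9 : Fn2 := ⟨_, _, fun h1 h2 => (enc_sub (c1g.enc h1) (enc_half h1))⟩
noncomputable def kf0q1 : Fn2 := ⟨_, _, fun h1 h2 => (enc_norm (enc_mul (rkg.enc (enc_norm (kf0q1_9.enc h1 h2)) h2) (enc_norm (enc_add (enc_rat _ 1 2) (enc_mul (enc_norm (enc_scale 3 4 (kf0q1_9.enc h1 h2))) (enc_inv (enc_add (enc_pnc _ 1) (enc_add (enc_half (c1g.enc h1)) (enc_scale 3 4 h1)))))))))⟩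
noncomputable def beg_3 : Fn2 := ⟨_, _, fun h1 h2 => (enc_sub (enc_pnc _ 1) h2)⟩
noncomputable def beg_5 : Fn2 := ⟨_, _, fun h1 h2 => (enc_mul (hhg.enc h2) h1)⟩
noncomputable def beg_7 : Fn2 := ⟨_, _, fun h1 h2 => (enc_sub h1 (enc_scale 167 50 (beg_3.enc h1 h2)))⟩
noncomputable def beg_15 : Fn2 := ⟨_, _, fun h1 h2 => (enc_mul (enc_sq (enc_norm (enc_mul (enc_norm (beg_7.enc h1 h2)) (k167_50g.enc h2)))) (enc_norm (enc_sub (enc_rat _ 2661 12500) (enc_scale 8863 1000 (beg_3.enc h1 h2)))))⟩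
noncomputable def beg : Fn2 := ⟨_, _, fun h1 h2 => (enc_norm (enc_case (beg_7.enc h1 h2) (enc_pnc _ 0) (enc_case (enc_subr 29 400 (beg_5.enc h1 h2)) (beg_15.enc h1 h2) (enc_case (enc_subr 9 100 (beg_5.enc h1 h2)) (enc_add (beg_15.enc h1 h2) (enc_add (enc_sub (enc_rat _ 4017457 487350000) (enc_scale 10918703 9747000 (beg_3.enc h1 h2))) (enc_mul (enc_norm (beg_5.enc h1 h2)) (enc_norm (enc_add (enc_subr 277066 1218375 (enc_scale 1506028 48735 (beg_3.enc h1 h2))) (enc_mul (enc_norm (beg_5.enc h1 h2)) (enc_norm (enc_sub (enc_rat _ 76432 48735) (enc_scale 2077280 9747 (beg_3.enc h1 h2)))))))))) (enc_case (enc_subr 3 25 (beg_5.enc h1 h2)) (enc_add (beg_15.enc h1 h2) (enc_add (enc_subr 15114419669 819235350000 (enc_scale 35292660907 16384707000 (beg_3.enc h1 h2))) (enc_mul (enc_norm (beg_5.enc h1 h2)) (enc_norm (enc_add (enc_sub (enc_rat _ 749127881 2048088375)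 (enc_scale 3429144782 81923535 (beg_3.enc h1 h2))) (enc_mul (enc_norm (beg_5.enc h1 h2)) (enc_norm (enc_subr 141490214 81923535 (enc_scale 3131178820 16384707 (beg_3.enc h1 h2)))))))))) (enc_case (enc_subr 9 50 (beg_5.enc h1 h2)) (enc_add (beg_15.enc h1 h2) (enc_add (enc_sub (enc_neg (enc_rat _ 6096748961 819235350000)) (enc_scale 7178133569 16384707000 (beg_3.enc h1 h2))) (enc_mul (enc_norm (beg_5.enc h1 h2)) (enc_norm (enc_add (enc_add (enc_rat _ 746783203 4096176750) (enc_scale 110088091 81923535 (beg_3.enc h1 h2))) (enc_mul (enc_norm (beg_5.enc h1 h2)) (enc_norm (enc_subr 315470003 327694140 (enc_scale 363636185 32769414 (beg_3.enc h1 h2)))))))))) (enc_case (enc_subr 1 4 (beg_5.enc h1 h2)) (enc_add (beg_15.enc h1 h2) (enc_add (enc_subr 38053747176739 419448499200000 (enc_scale 7318483387369 4194484992000 (beg_3.enc h1 h2))) (enc_mul (enc_norm (beg_5.enc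 h1 h2)) (enc_norm (enc_add (enc_sub (enc_rat _ 929212571279 838896998400) (enc_scale 192195547949 8388969984 (beg_3.enc h1 h2))) (enc_mul (enc_norm (beg_5.enc h1 h2)) (enc_norm (enc_subr 592782514483 167779399680 (enc_scale 658281331325 8388969984 (beg_3.enc h1 h2)))))))))) (enc_case (enc_subr 8 25 (beg_5.enc h1 h2)) (enc_add (beg_15.enc h1 h2) (enc_add (enc_sub (enc_rat _ 3040725753337 83889699840000) (enc_scale 34882230117143 4194484992000 (beg_3.enc h1 h2))) (enc_mul (enc_norm (beg_5.enc h1 h2)) (enc_norm (enc_add (enc_add (enc_rat _ 9636819523027 104862124800000) (enc_scale 60376983515399 1048621248000 (beg_3.enc h1 h2))) (enc_mul (enc_norm (beg_5.enc h1 h2)) (enc_norm (enc_sub (enc_neg (enc_rat _ 157459567778179 104862124800000)) (enc_scale 86517687602423 1048621248000 (beg_3.enc h1 h2)))))))))) (enc_case (enc_subr 2 5 (beg_5.enc h1 h2)) (enc_add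 (beg_15.enc h1 h2) (enc_add (enc_sub (enc_rat _ 38707658446301 419448499200000) (enc_scale 39941011351877 12583454976000 (beg_3.enc h1 h2))) (enc_mul (enc_norm (beg_5.enc h1 h2)) (enc_norm (enc_add (enc_subr 27088226851373 104862124800000 (enc_scale 80028327109397 3145863744000 (beg_3.enc h1 h2))) (enc_mul (enc_norm (beg_5.enc h1 h2)) (enc_norm (enc_sub (enc_neg (enc_rat _ 100076682818179 104862124800000)) (enc_scale 101580213687269 3145863744000 (beg_3.enc h1 h2)))))))))) (enc_add (beg_15.enc h1 h2) (enc_add (enc_subr 63637775358499 419448499200000 (enc_scale 301523622876859 12583454976000 (beg_3.enc h1 h2))) (enc_mul (enc_norm (beg_5.enc h1 h2)) (enc_norm (enc_add (enc_sub (enc_rat _ 100843565404627 104862124800000) (enc_scale 346802465676523 3145863744000 (beg_3.enc h1 h2))) (enc_mul (enc_norm (beg_5.enc h1 h2)) (enc_norm (enc_subr 259991423138179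 104862124800000 (enc_scale 431958277295131 3145863744000 (beg_3.enc h1 h2)))))))))))))))))))⟩
noncomputable def xt0q1 : Fn2 := ⟨_, _, fun h1 h2 => (enc_norm (enc_case (enc_subr 1 3 (enc_sq h1)) (enc_subn 1 (alg.enc h1 h2)) (enc_subr 1 2 (beg.enc (enc_norm (enc_sub (c1g.enc h1) (enc_half h1))) h2))))⟩
noncomputable def l0q1 : Fn2 := ⟨_, _, fun h1 h2 => (enc_norm (enc_mul (lamg.enc h2) (enc_norm (enc_add (c1g.enc h1) (xt0q1.enc h1 h2)))))⟩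
noncomputable def yag : Fn1 := ⟨_, _, fun h1 => (enc_sqrt (enc_scale 4 3 (enc_sub (enc_pnc _ 1) (enc_sq h1))))⟩
noncomputable def xc02 : Fn2 := ⟨_, _, fun h1 h2 => h1⟩
noncomputable def kfc02_9 : Fn2 := ⟨_, _, fun h1 h2 => (enc_sub (enc_half (yag.enc h1)) h1)⟩
noncomputable def kfc02 : Fn2 := ⟨_, _, fun h1 h2 => (enc_norm (enc_mul (rkg.enc (enc_norm (kfc02_9.enc h1 h2)) h2) (enc_norm (enc_sub (enc_rat _ 1 2) (enc_mul (enc_norm (enc_scale 3 4 (kfc02_9.enc h1 h2))) (enc_inv (enc_add (enc_pnc _ 1) (enc_add (enc_half h1) (enc_scale 3 4 (yag.enc h1))))))))))⟩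
noncomputable def lc02_7 : Fn2 := ⟨_, _, fun h1 h2 => (enc_sub (enc_half (yag.enc h1)) h1)⟩
noncomputable def lc02 : Fn2 := ⟨_, _, fun h1 h2 => (enc_norm (enc_mul (lamg.enc h2) (enc_norm (enc_add h1 (enc_subr 1 2 (enc_sub (alg.enc (enc_norm (lc02_7.enc h1 h2)) h2) (beg.enc (enc_norm (lc02_7.enc h1 h2)) h2)))))))⟩
noncomputable def swg : Fn1 := ⟨_, _, fun h1 => (enc_sqrt (enc_sub (enc_pnc _ 1) (enc_scale 3 4 (enc_sq (enc_norm (enc_subn 1 h1))))))⟩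
noncomputable def cv1m : Fn1 := ⟨_, _, fun h1 => (enc_norm (enc_add (enc_scale 4 5 (c1g.enc h1)) (enc_scale 1 5 (enc_add (swg.enc h1) (enc_rat _ 1 2)))))⟩
noncomputable def cx1m : Fn2 := ⟨_, _, fun h1 h2 => (cv1m.enc h1)⟩
noncomputable def jnK1q0_10 : Fn1 := ⟨_, _, fun h1 => (enc_add (swg.enc (enc_rat _ 1 16)) (enc_rat _ 1 2))⟩
noncomputable def jnK1q0 : Fn1 := ⟨_, _, fun h1 => (enc_norm (enc_mul (enc_norm (enc_add (enc_scale 4 5 (rkg.enc (enc_rat _ 1 16) h1)) (enc_scale 1 5 (enc_mul (enc_norm (jnK1q0_10.enc h1)) (enc_norm (enc_subr 3 8 (enc_pnc _ 1))))))) (enc_inv (enc_add (enc_scale 4 5 (c1g.enc (enc_rat _ 1 16))) (enc_scale 1 5 (jnK1q0_10.enc h1))))))⟩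
noncomputable def jnK3q0_8 : Fn1 := ⟨_, _, fun h1 => (enc_add (swg.enc (enc_rat _ 1 16)) (enc_rat _ 1 2))⟩
noncomputable def jnK3q0 : Fn1 := ⟨_, _, fun h1 => (enc_norm (enc_mul (enc_norm (enc_mul (enc_norm (jnK3q0_8.enc h1)) (enc_norm (enc_subr 3 8 (enc_pnc _ 1))))) (enc_inv (jnK3q0_8.enc h1))))⟩
noncomputable def cv3m : Fn1 := ⟨_, _, fun h1 => (enc_norm (enc_add (swg.enc h1) (enc_rat _ 1 2)))⟩
noncomputable def pig : Fn1 := ⟨_, _, fun h1 => (enc_norm (enc_neg (enc_mul (enc_norm (enc_scale 3 4 (enc_add (enc_rat _ 1 2) (enc_mul (cpg.enc h1) (enc_norm (enc_add (enc_pnc _ 1) h1)))))) (enc_inv (enc_mul (enc_norm (enc_mul (gsg.enc h1) (ehg.enc h1))) (enc_norm (enc_add (gsg.enc h1) (enc_rat _ 1 2))))))))⟩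
noncomputable def kf3q0_3 : Fn2 := ⟨_, _, fun h1 h2 => (enc_sub (enc_pnc _ 1) h2)⟩
noncomputable def kf3q0_11 : Fn2 := ⟨_, _, fun h1 h2 => (enc_subr 1 16 h1)⟩
noncomputable def kf3q0_39 : Fn2 := ⟨_, _, fun h1 h2 => (enc_add (pig.enc h2) (enc_pnc _ 6))⟩
noncomputable def kf3q0_42 : Fn2 := ⟨_, _, fun h1 h2 => (enc_sub (enc_pnc _ 1) (enc_nat 6 h1))⟩
noncomputable def kf3q0_50 : Fn2 := ⟨_, _, fun h1 h2 => (enc_sub h1 (enc_half (kf3q0_3.enc h1 h2)))⟩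
noncomputable def kf3q0_55 : Fn2 := ⟨_, _, fun h1 h2 => (enc_scale 5 2 (kf3q0_3.enc h1 h2))⟩
noncomputable def kf3q0 : Fn2 := ⟨_, _, fun h1 h2 => (enc_norm (enc_case (kf3q0_11.enc h1 h2) (enc_mul (cv3m.enc h1) (enc_norm (enc_case (kf3q0_50.enc h1 h2) (enc_add (kf3q0_42.enc h1 h2) (enc_scale 9207 2500 h1)) (enc_case (enc_sub h1 (kf3q0_3.enc h1 h2)) (enc_add (enc_add (kf3q0_42.enc h1 h2) (enc_scale 9207 5000 (kf3q0_3.enc h1 h2))) (enc_mul (enc_norm (kf3q0_50.enc h1 h2)) (enc_norm (enc_nat 2 (enc_subr 9207 5000 (kf3q0_39.enc h1 h2)))))) (enc_case (enc_sub h1 (kf3q0_55.enc h1 h2)) (enc_add (kf3q0_42.enc h1 h2) (enc_mul (enc_norm (enc_sub (kf3q0_55.enc h1 h2) h1)) (enc_norm (enc_scale 2 3 (kf3q0_39.enc h1 h2))))) (kf3q0_42.enc h1 h2)))))) (enc_mul (cv3m.enc h1) (enc_norm (enc_case (enc_subr 3 20 h1) (enc_case (enc_subr 1 10 h1) (enc_add (jnK3q0.enc h2) (enc_mul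 (enc_norm (kf3q0_11.enc h1 h2)) (enc_norm (enc_scale 80 3 (enc_sub (enc_rat _ 41 100) (jnK3q0.enc h2)))))) (enc_sub (enc_rat _ 3847 5000) (enc_scale 1797 500 h1))) (enc_case (enc_subr 11 50 h1) (enc_sub (enc_rat _ 3619 5000) (enc_scale 329 100 h1)) (enc_pnc _ 0)))))))⟩
noncomputable def kf1q0_11 : Fn2 := ⟨_, _, fun h1 h2 => (enc_subr 1 16 h1)⟩
noncomputable def kf1q0 : Fn2 := ⟨_, _, fun h1 h2 => (enc_norm (enc_case (kf1q0_11.enc h1 h2) (enc_add (enc_scale 4 5 (kf0q0.enc h1 h2)) (enc_scale 1 5 (kf3q0.enc h1 h2))) (enc_mul (cv1m.enc h1) (enc_norm (enc_case (enc_subr 3 20 h1) (enc_case (enc_subr 1 10 h1) (enc_add (jnK1q0.enc h2) (enc_mul (enc_norm (kf1q0_11.enc h1 h2)) (enc_norm (enc_scale 80 3 (enc_sub (enc_rat _ 328 625) (jnK1q0.enc h2)))))) (enc_sub (enc_rat _ 433 500) (enc_scale 853 250 h1))) (enc_case (enc_subr 11 50 h1) (enc_sub (enc_rat _ 2783 2500)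 (enc_scale 253 50 h1)) (enc_pnc _ 0)))))))⟩
noncomputable def jnX1q0 : Fn1 := ⟨_, _, fun h1 => (enc_norm (enc_mul (enc_norm (enc_add (enc_scale 4 5 (enc_subn 1 (alg.enc (enc_rat _ 1 16) h1))) (enc_scale 1 5 (enc_subn 1 (enc_scale 1 50 (enc_sub (enc_rat _ 1 16) (enc_scale 5 2 (enc_sub (enc_pnc _ 1) h1)))))))) (enc_inv (enc_add (enc_scale 4 5 (c1g.enc (enc_rat _ 1 16))) (enc_scale 1 5 (enc_add (swg.enc (enc_rat _ 1 16)) (enc_rat _ 1 2)))))))⟩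
noncomputable def jnX3q0 : Fn1 := ⟨_, _, fun h1 => (enc_norm (enc_mul (enc_norm (enc_subn 1 (enc_scale 1 50 (enc_sub (enc_rat _ 1 16) (enc_scale 5 2 (enc_sub (enc_pnc _ 1) h1)))))) (enc_inv (enc_add (swg.enc (enc_rat _ 1 16)) (enc_rat _ 1 2)))))⟩
noncomputable def xt3q0_3 : Fn2 := ⟨_, _, fun h1 h2 => (enc_sub (enc_pnc _ 1) h2)⟩
noncomputable def xt3q0_15 : Fn2 := ⟨_, _, fun h1 h2 => (enc_subr 1 16 h1)⟩
noncomputable def xt3q0_88 : Fn2 := ⟨_, _, fun h1 h2 => (enc_sub h1 (enc_scale 5 2 (xt3q0_3.enc h1 h2)))⟩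
noncomputable def xt3q0 : Fn2 := ⟨_, _, fun h1 h2 => (enc_norm (enc_case (xt3q0_15.enc h1 h2) (enc_case (xt3q0_88.enc h1 h2) (enc_neg (enc_pnc _ 1)) (enc_subn 1 (enc_scale 1 50 (xt3q0_88.enc h1 h2)))) (enc_mul (cv3m.enc h1) (enc_norm (enc_case (enc_subr 11 50 h1) (enc_case (enc_subr 1 10 h1) (enc_add (jnX3q0.enc h2) (enc_mul (enc_norm (xt3q0_15.enc h1 h2)) (enc_norm (enc_scale 80 3 (enc_sub (enc_sub (enc_neg (enc_rat _ 5677 6250)) (enc_scale 23 50 (xt3q0_3.enc h1 h2))) (jnX3q0.enc h2)))))) (enc_case (enc_subr 3 20 h1) (enc_add (enc_subr 49879 50000 (enc_scale 4463 5000 h1)) (enc_mul (enc_norm (xt3q0_3.enc h1 h2)) (enc_norm (enc_sub (enc_rat _ 649 250) (enc_scale 764 25 h1))))) (enc_add (enc_subr 346999 350000 (enc_scale 5961 7000 h1)) (enc_mul (enc_norm (xt3q0_3.enc h1 h2)) (enc_norm (enc_sub (enc_rat _ 4021 1750) (enc_scale 200 7 h1))))))) (enc_case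 (enc_subr 8 25 h1) (enc_add (enc_subr 223999 250000 (enc_scale 2089 5000 h1)) (enc_mul (enc_norm (xt3q0_3.enc h1 h2)) (enc_norm (enc_subr 4571 1000 (enc_scale 53 20 h1))))) (enc_case (enc_subr 21 50 h1) (enc_add (enc_subr 208327 250000 (enc_scale 2219 10000 h1)) (enc_mul (enc_norm (xt3q0_3.enc h1 h2)) (enc_norm (enc_sub (enc_rat _ 2581 1000) (enc_scale 197 10 h1))))) (enc_add (enc_subr 158333 200000 (enc_scale 491 4000 h1)) (enc_mul (enc_norm (xt3q0_3.enc h1 h2)) (enc_norm (enc_sub (enc_rat _ 793 400) (enc_scale 731 40 h1))))))))))))⟩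
noncomputable def xt1q0_3 : Fn2 := ⟨_, _, fun h1 h2 => (enc_sub (enc_pnc _ 1) h2)⟩
noncomputable def xt1q0_15 : Fn2 := ⟨_, _, fun h1 h2 => (enc_subr 1 16 h1)⟩
noncomputable def xt1q0 : Fn2 := ⟨_, _, fun h1 h2 => (enc_norm (enc_case (xt1q0_15.enc h1 h2) (enc_add (enc_scale 4 5 (xt0q0.enc h1 h2)) (enc_scale 1 5 (xt3q0.enc h1 h2))) (enc_mul (cv1m.enc h1) (enc_norm (enc_case (enc_subr 11 50 h1) (enc_case (enc_subr 1 10 h1) (enc_add (jnX1q0.enc h2) (enc_mul (enc_norm (xt1q0_15.enc h1 h2)) (enc_norm (enc_scale 80 3 (enc_sub (enc_sub (enc_neg (enc_rat _ 96811 100000)) (enc_scale 169 250 (xt1q0_3.enc h1 h2))) (jnX1q0.enc h2)))))) (enc_case (enc_subr 3 20 h1) (enc_add (enc_subr 102423 100000 (enc_scale 1403 2500 h1)) (enc_mul (enc_norm (xt1q0_3.enc h1 h2)) (enc_norm (enc_sub (enc_rat _ 178 125) (enc_nat 21 h1))))) (enc_add (enc_subr 29943 28000 (enc_scale 1509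 1750 h1)) (enc_mul (enc_norm (xt1q0_3.enc h1 h2)) (enc_norm (enc_sub (enc_rat _ 6019 3500) (enc_scale 804 35 h1))))))) (enc_case (enc_subr 8 25 h1) (enc_add (enc_subr 129753 125000 (enc_scale 7197 10000 h1)) (enc_mul (enc_norm (xt1q0_3.enc h1 h2)) (enc_norm (enc_subr 10169 5000 (enc_neg (enc_scale 591 100 h1)))))) (enc_case (enc_subr 21 50 h1) (enc_add (enc_subr 121769 125000 (enc_scale 5201 10000 h1)) (enc_mul (enc_norm (xt1q0_3.enc h1 h2)) (enc_norm (enc_subr 4361 5000 (enc_neg (enc_scale 477 50 h1)))))) (enc_add (enc_subr 194843 200000 (enc_scale 2081 4000 h1)) (enc_mul (enc_norm (xt1q0_3.enc h1 h2)) (enc_norm (enc_sub (enc_rat _ 8687 4000) (enc_scale 1343 80 h1))))))))))))⟩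
noncomputable def l1q0 : Fn2 := ⟨_, _, fun h1 h2 => (enc_norm (enc_mul (lamg.enc h2) (enc_norm (enc_add (cv1m.enc h1) (xt1q0.enc h1 h2)))))⟩
noncomputable def kf1q1 : Fn2 := ⟨_, _, fun h1 h2 => (enc_norm (enc_mul (cv1m.enc h1) (enc_norm (enc_case (enc_subr 43 50 h1) (enc_case (enc_subr 39 50 h1) (enc_pnc _ 0) (enc_sub (enc_rat _ 11973 40000) (enc_scale 307 800 h1))) (enc_case (enc_subr 23 25 h1) (enc_subr 58231 15000 (enc_scale 2687 600 h1)) (enc_subr 38813 10000 (enc_scale 1791 400 h1)))))))⟩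
noncomputable def xt1q1_3 : Fn2 := ⟨_, _, fun h1 h2 => (enc_sub (enc_pnc _ 1) h2)⟩
noncomputable def xt1q1 : Fn2 := ⟨_, _, fun h1 h2 => (enc_norm (enc_mul (cv1m.enc h1) (enc_norm (enc_case (enc_subr 39 50 h1) (enc_case (enc_subr 29 50 h1) (enc_add (enc_subr 42067 50000 (enc_scale 509 2000 h1)) (enc_mul (enc_norm (xt1q1_3.enc h1 h2)) (enc_norm (enc_subr 15813 4000 (enc_neg (enc_scale 363 80 h1)))))) (enc_case (enc_subr 17 25 h1) (enc_add (enc_subr 76907 125000 (enc_neg (enc_scale 1353 10000 h1))) (enc_mul (enc_norm (xt1q1_3.enc h1 h2)) (enc_norm (enc_subr 87793 5000 (enc_scale 473 25 h1))))) (enc_add (enc_subr 112249 250000 (enc_neg (enc_scale 1899 5000 h1))) (enc_mul (enc_norm (xt1q1_3.enc h1 h2)) (enc_norm (enc_subr 100033 5000 (enc_scale 563 25 h1))))))) (enc_case (enc_subr 23 25 h1) (enc_case (enc_subr 43 50 h1) (enc_add (enc_subr 90811 400000 (enc_neg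 (enc_scale 1063 1600 h1))) (enc_mul (enc_norm (xt1q1_3.enc h1 h2)) (enc_norm (enc_subr 93887 4000 (enc_scale 2157 80 h1))))) (enc_add (enc_subr 326807 300000 (enc_scale 203 600 h1)) (enc_mul (enc_norm (xt1q1_3.enc h1 h2)) (enc_norm (enc_subr 19729 3000 (enc_scale 439 60 h1)))))) (enc_case (enc_subr 24 25 h1) (enc_add (enc_subr 79879 100000 (enc_scale 9 400 h1)) (enc_mul (enc_norm (xt1q1_3.enc h1 h2)) (enc_norm (enc_subr 2962 125 (enc_scale 1037 40 h1))))) (enc_add (enc_subr 14599 100000 (enc_neg (enc_scale 263 400 h1))) (enc_mul (enc_norm (xt1q1_3.enc h1 h2)) (enc_norm (enc_subr 4303 125 (enc_scale 371 10 h1)))))))))))⟩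
noncomputable def l1q1 : Fn2 := ⟨_, _, fun h1 h2 => (enc_norm (enc_mul (lamg.enc h2) (enc_norm (enc_add (cv1m.enc h1) (xt1q1.enc h1 h2)))))⟩
noncomputable def xc12a : Fn2 := ⟨_, _, fun h1 h2 => (enc_norm (enc_add (enc_scale 4 5 h1) (enc_scale 1 5 (enc_subr 1 2 (swg.enc (yag.enc h1))))))⟩
noncomputable def jnK1q2_4 : Fn1 := ⟨_, _, fun h1 => (c1g.enc (enc_rat _ 17 16))⟩
noncomputable def jnK1q2_10 : Fn1 := ⟨_, _, fun h1 => (enc_sub (enc_rat _ 17 32) (jnK1q2_4.enc h1))⟩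
noncomputable def jnK1q2_22 : Fn1 := ⟨_, _, fun h1 => (enc_subr 1 2 (swg.enc (enc_rat _ 17 16)))⟩
noncomputable def jnK1q2 : Fn1 := ⟨_, _, fun h1 => (enc_norm (enc_mul (enc_norm (enc_add (enc_scale 4 5 (enc_mul (rkg.enc (enc_norm (jnK1q2_10.enc h1)) h1) (enc_norm (enc_sub (enc_rat _ 1 2) (enc_mul (enc_norm (enc_scale 3 4 (jnK1q2_10.enc h1))) (enc_inv (enc_add (enc_pnc _ 1) (enc_add (enc_half (jnK1q2_4.enc h1)) (enc_rat _ 51 64))))))))) (enc_scale 1 5 (enc_mul (enc_norm (jnK1q2_22.enc h1)) (enc_norm (enc_subr 693 2500 (enc_pnc _ 1))))))) (enc_inv (enc_add (enc_scale 4 5 (jnK1q2_4.enc h1)) (enc_scale 1 5 (jnK1q2_22.enc h1))))))⟩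
noncomputable def jnK3q2_9 : Fn1 := ⟨_, _, fun h1 => (enc_subr 1 2 (swg.enc (enc_rat _ 17 16)))⟩
noncomputable def jnK3q2 : Fn1 := ⟨_, _, fun h1 => (enc_norm (enc_mul (enc_norm (enc_mul (enc_norm (jnK3q2_9.enc h1)) (enc_norm (enc_subr 693 2500 (enc_pnc _ 1))))) (enc_inv (jnK3q2_9.enc h1))))⟩
noncomputable def cv3p : Fn1 := ⟨_, _, fun h1 => (enc_norm (enc_subr 1 2 (swg.enc h1)))⟩
noncomputable def kf3q2_3 : Fn2 := ⟨_, _, fun h1 h2 => (enc_sub (enc_pnc _ 1) h2)⟩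
noncomputable def kf3q2_33 : Fn2 := ⟨_, _, fun h1 h2 => (enc_subn 1 h1)⟩
noncomputable def kf3q2_38 : Fn2 := ⟨_, _, fun h1 h2 => (enc_sub (enc_pnc _ 1) (enc_scale 2772 625 (kf3q2_33.enc h1 h2)))⟩
noncomputable def kf3q2_50 : Fn2 := ⟨_, _, fun h1 h2 => (enc_sub (kf3q2_33.enc h1 h2) (enc_half (kf3q2_3.enc h1 h2)))⟩
noncomputable def kf3q2_57 : Fn2 := ⟨_, _, fun h1 h2 => (enc_scale 5 2 (kf3q2_3.enc h1 h2))⟩
noncomputable def kf3q2 : Fn2 := ⟨_, _, fun h1 h2 => (enc_norm (enc_case (enc_subr 1 16 (kf3q2_33.enc h1 h2)) (enc_mul (cv3p.enc h1) (enc_norm (enc_case (kf3q2_50.enc h1 h2) (enc_sub (kf3q2_38.enc h1 h2) (enc_scale 21419 2500 (kf3q2_33.enc h1 h2))) (enc_case (enc_sub (kf3q2_33.enc h1 h2) (kf3q2_3.enc h1 h2)) (enc_add (enc_sub (kf3q2_38.enc h1 h2) (enc_scale 21419 5000 (kf3q2_3.enc h1 h2))) (enc_mul (enc_norm (kf3q2_50.enc h1 h2)) (enc_norm (enc_nat 2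 (enc_subr 4383 1000 (enc_rat _ 21419 5000)))))) (enc_case (enc_sub (kf3q2_33.enc h1 h2) (kf3q2_57.enc h1 h2)) (enc_sub (kf3q2_38.enc h1 h2) (enc_scale 1461 500 (enc_sub (kf3q2_57.enc h1 h2) (kf3q2_33.enc h1 h2)))) (kf3q2_38.enc h1 h2)))))) (enc_mul (cv3p.enc h1) (enc_norm (enc_case (enc_subr 23 20 h1) (enc_case (enc_subr 11 10 h1) (enc_add (jnK3q2.enc h2) (enc_mul (enc_norm (enc_subr 17 16 h1)) (enc_norm (enc_scale 80 3 (enc_sub (enc_rat _ 329 400) (jnK3q2.enc h2)))))) (enc_subr 69963 10000 (enc_scale 1777 250 h1))) (enc_case (enc_subr 61 50 h1) (enc_sub (enc_rat _ 718519 35000) (enc_scale 11779 700 h1)) (enc_pnc _ 0)))))))⟩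
noncomputable def kfc12a_40 : Fn2 := ⟨_, _, fun h1 h2 => (enc_sub (enc_half (yag.enc h1)) h1)⟩
noncomputable def kfc12a : Fn2 := ⟨_, _, fun h1 h2 => (enc_norm (enc_case (enc_subr 1 16 (enc_subn 1 (yag.enc h1))) (enc_add (enc_scale 4 5 (enc_mul (rkg.enc (enc_norm (kfc12a_40.enc h1 h2)) h2) (enc_norm (enc_sub (enc_rat _ 1 2) (enc_mul (enc_norm (enc_scale 3 4 (kfc12a_40.enc h1 h2))) (enc_inv (enc_add (enc_pnc _ 1) (enc_add (enc_half h1) (enc_scale 3 4 (yag.enc h1)))))))))) (enc_scale 1 5 (kf3q2.enc (yag.enc h1) h2))) (enc_mul (enc_norm (enc_add (enc_scale 4 5 h1) (enc_scale 1 5 (enc_subr 1 2 (swg.enc (yag.enc h1)))))) (enc_norm (enc_case (enc_subr 11 10 (yag.enc h1)) (enc_add (jnK1q2.enc h2) (enc_mul (enc_norm (enc_subr 17 16 (yag.enc h1))) (enc_norm (enc_scale 80 3 (enc_sub (enc_rat _ 1 10000) (jnK1q2.enc h2)))))) (enc_case (enc_subr 577 500 (yag.enc h1))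 (enc_sub (enc_rat _ 577 270000) (enc_scale 1 540 (yag.enc h1))) (enc_pnc _ 0)))))))⟩
noncomputable def jnX1q2_4 : Fn1 := ⟨_, _, fun h1 => (c1g.enc (enc_rat _ 17 16))⟩
noncomputable def jnX1q2_7 : Fn1 := ⟨_, _, fun h1 => (enc_sub (enc_rat _ 17 32) (jnX1q2_4.enc h1))⟩
noncomputable def jnX1q2 : Fn1 := ⟨_, _, fun h1 => (enc_norm (enc_mul (enc_norm (enc_add (enc_scale 4 5 (enc_subr 1 2 (enc_sub (alg.enc (enc_norm (jnX1q2_7.enc h1)) h1) (beg.enc (enc_norm (jnX1q2_7.enc h1)) h1)))) (enc_scale 1 5 (enc_subr 1 2 (enc_scale 3097 10000 (enc_sub (enc_rat _ 1 16) (enc_scale 5 2 (enc_sub (enc_pnc _ 1) h1)))))))) (enc_inv (enc_add (enc_scale 4 5 (jnX1q2_4.enc h1)) (enc_scale 1 5 (enc_subr 1 2 (swg.enc (enc_rat _ 17 16))))))))⟩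
noncomputable def flg_2 : Fn1 := ⟨_, _, fun h1 => (enc_sub (enc_pnc _ 1) h1)⟩
noncomputable def flg : Fn1 := ⟨_, _, fun h1 => (enc_norm (enc_neg (enc_mul (hhg.enc h1) (enc_norm (enc_add (enc_subr 3274256101 2804400000 (enc_scale 95974621 1752750 (flg_2.enc h1))) (enc_mul (enc_norm (enc_sub (enc_rat _ 64649 50000) (enc_scale 12583 500 (flg_2.enc h1)))) (enc_inv (enc_sub (enc_rat _ 1 2) (enc_scale 167 50 (enc_mul (hhg.enc h1) (enc_norm (flg_2.enc h1))))))))))))⟩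
noncomputable def jnX3q2 : Fn1 := ⟨_, _, fun h1 => (enc_norm (enc_mul (enc_norm (enc_subr 1 2 (enc_scale 3097 10000 (enc_sub (enc_rat _ 1 16) (enc_scale 5 2 (enc_sub (enc_pnc _ 1) h1)))))) (enc_inv (enc_subr 1 2 (swg.enc (enc_rat _ 17 16))))))⟩
noncomputable def xt3q2_3 : Fn2 := ⟨_, _, fun h1 h2 => (enc_sub (enc_pnc _ 1) h2)⟩
noncomputable def xt3q2_21 : Fn2 := ⟨_, _, fun h1 h2 => (enc_scale 4889 5000 h1)⟩
noncomputable def xt3q2_82 : Fn2 := ⟨_, _, fun h1 h2 => (enc_subn 1 h1)⟩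
noncomputable def xt3q2_86 : Fn2 := ⟨_, _, fun h1 h2 => (enc_sub (xt3q2_82.enc h1 h2) (enc_scale 5 2 (xt3q2_3.enc h1 h2)))⟩
noncomputable def xt3q2 : Fn2 := ⟨_, _, fun h1 h2 => (enc_norm (enc_case (enc_subr 1 16 (xt3q2_82.enc h1 h2)) (enc_case (xt3q2_86.enc h1 h2) (enc_neg (enc_rat _ 1 2)) (enc_subr 1 2 (enc_scale 3097 10000 (xt3q2_86.enc h1 h2)))) (enc_mul (cv3p.enc h1) (enc_norm (enc_case (enc_subr 61 50 h1) (enc_case (enc_subr 11 10 h1) (enc_add (jnX3q2.enc h2) (enc_mul (enc_norm (enc_subr 17 16 h1)) (enc_norm (enc_scale 80 3 (enc_sub (enc_subr 104093 100000 (enc_scale 799 250 (xt3q2_3.enc h1 h2))) (jnX3q2.enc h2)))))) (enc_case (enc_subr 23 20 h1) (enc_add (enc_subr 211651 100000 (xt3q2_21.enc h1 h2)) (enc_mul (enc_norm (xt3q2_3.enc h1 h2)) (enc_norm (enc_sub (enc_rat _ 1299 20) (enc_scale 2807 50 h1))))) (enc_add (enc_subr 1481603 700000 (enc_scale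 1369 1400 h1)) (enc_mul (enc_norm (xt3q2_3.enc h1 h2)) (enc_norm (enc_subr 202667 7000 (enc_scale 893 35 h1))))))) (enc_case (enc_subr 33 25 h1) (enc_add (enc_subr 1058253 500000 (xt3q2_21.enc h1 h2)) (enc_mul (enc_norm (xt3q2_3.enc h1 h2)) (enc_norm (enc_sub (enc_rat _ 499607 5000) (enc_scale 2003 25 h1))))) (enc_case (enc_subr 71 50 h1) (enc_add (enc_subr 206727 100000 (enc_scale 1881 2000 h1)) (enc_mul (enc_norm (xt3q2_3.enc h1 h2)) (enc_norm (enc_subr 121453 5000 (enc_scale 699 50 h1))))) (enc_add (enc_subr 734253 400000 (enc_scale 6219 8000 h1)) (enc_mul (enc_norm (xt3q2_3.enc h1 h2)) (enc_norm (enc_subr 48567 2000 (enc_scale 559 40 h1))))))))))))⟩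
noncomputable def lc12a_10 : Fn2 := ⟨_, _, fun h1 h2 => (enc_add (enc_scale 4 5 h1) (enc_scale 1 5 (enc_subr 1 2 (swg.enc (yag.enc h1)))))⟩
noncomputable def lc12a_12 : Fn2 := ⟨_, _, fun h1 h2 => (enc_sub (enc_pnc _ 1) h2)⟩
noncomputable def lc12a_14 : Fn2 := ⟨_, _, fun h1 h2 => (enc_subr 231 200 (yag.enc h1))⟩
noncomputable def lc12a_16 : Fn2 := ⟨_, _, fun h1 h2 => (enc_subr 11 10 (yag.enc h1))⟩
noncomputable def lc12a_22 : Fn2 := ⟨_, _, fun h1 h2 => (enc_sub (enc_neg (enc_rat _ 2417 2000)) (enc_scale 6813 1000 (lc12a_12.enc h1 h2)))⟩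
noncomputable def lc12a_93 : Fn2 := ⟨_, _, fun h1 h2 => (enc_sub (enc_half (yag.enc h1)) h1)⟩
noncomputable def lc12a : Fn2 := ⟨_, _, fun h1 h2 => (enc_norm (enc_mul (lamg.enc h2) (enc_norm (enc_add (lc12a_10.enc h1 h2) (enc_case (enc_subr 1 16 (enc_subn 1 (yag.enc h1))) (enc_add (enc_scale 4 5 (enc_subr 1 2 (enc_sub (alg.enc (enc_norm (lc12a_93.enc h1 h2)) h2) (beg.enc (enc_norm (lc12a_93.enc h1 h2)) h2)))) (enc_scale 1 5 (xt3q2.enc (yag.enc h1) h2))) (enc_mul (enc_norm (lc12a_10.enc h1 h2)) (enc_norm (enc_case (lc12a_14.enc h1 h2) (enc_case (lc12a_16.enc h1 h2) (enc_add (jnX1q2.enc h2) (enc_mul (enc_norm (enc_subr 17 16 (yag.enc h1))) (enc_norm (enc_scale 80 3 (enc_sub (lc12a_22.enc h1 h2) (jnX1q2.enc h2)))))) (enc_case (enc_subr 577 500 (yag.enc h1)) (enc_add (lc12a_22.enc h1 h2) (enc_mul (enc_norm (lc12a_16.enc h1 h2)) (enc_norm (enc_scale 500 27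 (enc_sub (flg.enc h2) (lc12a_22.enc h1 h2)))))) (flg.enc h2))) (enc_case (enc_subr 33 25 (yag.enc h1)) (enc_case (enc_subr 61 50 (yag.enc h1)) (enc_add (flg.enc h2) (enc_mul (enc_norm (lc12a_14.enc h1 h2)) (enc_norm (enc_scale 200 13 (enc_sub (enc_sub (enc_neg (enc_rat _ 42261 50000)) (enc_scale 418 25 (lc12a_12.enc h1 h2))) (flg.enc h2)))))) (enc_add (enc_subr 201331 125000 (enc_scale 3137 5000 (yag.enc h1))) (enc_mul (enc_norm (lc12a_12.enc h1 h2)) (enc_norm (enc_subr 2567 20 (enc_scale 183 2 (yag.enc h1))))))) (enc_case (enc_subr 71 50 (yag.enc h1)) (enc_add (enc_subr 402629 250000 (enc_scale 6273 10000 (yag.enc h1))) (enc_mul (enc_norm (lc12a_12.enc h1 h2)) (enc_norm (enc_subr 26602 625 (enc_scale 2651 100 (yag.enc h1)))))) (enc_add (enc_subr 322089 200000 (enc_scale 2509 4000 (yag.enc h1))) (enc_mul (enc_norm (lc12a_12.enc h1 h2)) (enc_norm (enc_subr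 66567 2000 (enc_scale 799 40 (yag.enc h1))))))))))))))))⟩
noncomputable def xc12b : Fn2 := ⟨_, _, fun h1 h2 => (enc_norm (enc_scale 1 5 (enc_subr 1 2 (swg.enc h1))))⟩
noncomputable def kfc12b : Fn2 := ⟨_, _, fun h1 h2 => (enc_norm (enc_case (enc_subr 1 16 (enc_subn 1 h1)) (enc_scale 1 5 (kf3q2.enc h1 h2)) (enc_mul (enc_norm (enc_scale 1 5 (enc_subr 1 2 (swg.enc h1)))) (enc_norm (enc_case (enc_subr 11 10 h1) (enc_add (jnK1q2.enc h2) (enc_mul (enc_norm (enc_subr 17 16 h1)) (enc_norm (enc_scale 80 3 (enc_sub (enc_rat _ 1 10000) (jnK1q2.enc h2)))))) (enc_case (enc_subr 577 500 h1) (enc_sub (enc_rat _ 577 270000) (enc_scale 1 540 h1)) (enc_pnc _ 0)))))))⟩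
noncomputable def lc12b_8 : Fn2 := ⟨_, _, fun h1 h2 => (enc_scale 1 5 (enc_subr 1 2 (swg.enc h1)))⟩
noncomputable def lc12b_10 : Fn2 := ⟨_, _, fun h1 h2 => (enc_sub (enc_pnc _ 1) h2)⟩
noncomputable def lc12b_12 : Fn2 := ⟨_, _, fun h1 h2 => (enc_subr 231 200 h1)⟩
noncomputable def lc12b_14 : Fn2 := ⟨_, _, fun h1 h2 => (enc_subr 11 10 h1)⟩
noncomputable def lc12b_20 : Fn2 := ⟨_, _, fun h1 h2 => (enc_sub (enc_neg (enc_rat _ 2417 2000)) (enc_scale 6813 1000 (lc12b_10.enc h1 h2)))⟩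
noncomputable def lc12b : Fn2 := ⟨_, _, fun h1 h2 => (enc_norm (enc_mul (lamg.enc h2) (enc_norm (enc_add (lc12b_8.enc h1 h2) (enc_case (enc_subr 1 16 (enc_subn 1 h1)) (enc_scale 1 5 (xt3q2.enc h1 h2)) (enc_mul (enc_norm (lc12b_8.enc h1 h2)) (enc_norm (enc_case (lc12b_12.enc h1 h2) (enc_case (lc12b_14.enc h1 h2) (enc_add (jnX1q2.enc h2) (enc_mul (enc_norm (enc_subr 17 16 h1)) (enc_norm (enc_scale 80 3 (enc_sub (lc12b_20.enc h1 h2) (jnX1q2.enc h2)))))) (enc_case (enc_subr 577 500 h1) (enc_add (lc12b_20.enc h1 h2) (enc_mul (enc_norm (lc12b_14.enc h1 h2)) (enc_norm (enc_scale 500 27 (enc_sub (flg.enc h2) (lc12b_20.enc h1 h2)))))) (flg.enc h2))) (enc_case (enc_subr 33 25 h1) (enc_case (enc_subr 61 50 h1) (enc_add (flg.enc h2) (enc_mul (enc_norm (lc12b_12.enc h1 h2)) (enc_norm (enc_scale 200 13 (enc_sub (enc_sub (enc_neg (enc_rat _ 42261 50000)) (enc_scale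 418 25 (lc12b_10.enc h1 h2))) (flg.enc h2)))))) (enc_add (enc_subr 201331 125000 (enc_scale 3137 5000 h1)) (enc_mul (enc_norm (lc12b_10.enc h1 h2)) (enc_norm (enc_subr 2567 20 (enc_scale 183 2 h1)))))) (enc_case (enc_subr 71 50 h1) (enc_add (enc_subr 402629 250000 (enc_scale 6273 10000 h1)) (enc_mul (enc_norm (lc12b_10.enc h1 h2)) (enc_norm (enc_subr 26602 625 (enc_scale 2651 100 h1))))) (enc_add (enc_subr 322089 200000 (enc_scale 2509 4000 h1)) (enc_mul (enc_norm (lc12b_10.enc h1 h2)) (enc_norm (enc_subr 66567 2000 (enc_scale 799 40 h1)))))))))))))))⟩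
noncomputable def cv1r : Fn1 := ⟨_, _, fun h1 => (enc_norm (enc_scale 1 5 (enc_subr 1 2 (swg.enc h1))))⟩
noncomputable def cx1r : Fn2 := ⟨_, _, fun h1 h2 => (cv1r.enc h1)⟩
noncomputable def jnK1q3 : Fn1 := ⟨_, _, fun h1 => (enc_scale 1377 200000 (enc_inv (enc_scale 1 5 (enc_subr 1 2 (swg.enc (enc_rat _ 31 16))))))⟩
noncomputable def jnK3q3 : Fn1 := ⟨_, _, fun h1 => (enc_scale 1377 40000 (enc_inv (enc_subr 1 2 (swg.enc (enc_rat _ 31 16)))))⟩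
noncomputable def cv3r : Fn1 := ⟨_, _, fun h1 => (enc_norm (enc_subr 1 2 (swg.enc h1)))⟩
noncomputable def ptg : Fn1 := ⟨_, _, fun h1 => (enc_norm (enc_neg (enc_mul (cpg.enc h1) (enc_inv (enc_nat 2 (ehg.enc h1))))))⟩
noncomputable def kf3q3_3 : Fn2 := ⟨_, _, fun h1 h2 => (enc_sub (enc_pnc _ 1) h2)⟩
noncomputable def kf3q3_15 : Fn2 := ⟨_, _, fun h1 h2 => (enc_subr 19 10 h1)⟩
noncomputable def kf3q3_34 : Fn2 := ⟨_, _, fun h1 h2 => (enc_sub (enc_pnc _ 2) h1)⟩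
noncomputable def kf3q3_37 : Fn2 := ⟨_, _, fun h1 h2 => (enc_subr 1377 2500 (ptg.enc h2))⟩
noncomputable def kf3q3_38 : Fn2 := ⟨_, _, fun h1 h2 => (enc_scale 1377 2500 (kf3q3_34.enc h1 h2))⟩
noncomputable def kf3q3_50 : Fn2 := ⟨_, _, fun h1 h2 => (enc_sub (kf3q3_34.enc h1 h2) (enc_half (kf3q3_3.enc h1 h2)))⟩
noncomputable def kf3q3_55 : Fn2 := ⟨_, _, fun h1 h2 => (enc_scale 5 2 (kf3q3_3.enc h1 h2))⟩
noncomputable def kf3q3 : Fn2 := ⟨_, _, fun h1 h2 => (enc_norm (enc_case (enc_add (enc_subn 2 h1) (enc_rat _ 1 16)) (enc_mul (cv3r.enc h1) (enc_norm (enc_case (enc_subr 37 20 h1) (enc_case (enc_subr 89 50 h1) (enc_pnc _ 0) (enc_subr 267 35000 (enc_scale 3 700 h1))) (enc_case (kf3q3_15.enc h1 h2) (enc_sub (enc_rat _ 47 2500) (enc_scale 1 100 h1)) (enc_subr 1 5000 (enc_mul (enc_norm (kf3q3_15.enc h1 h2)) (enc_norm (enc_scale 80 3 (enc_add (jnK3q3.enc h2) (enc_rat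 _ 1 5000)))))))))) (enc_case (kf3q3_50.enc h1 h2) (enc_sub (kf3q3_38.enc h1 h2) (enc_scale 314 625 (kf3q3_34.enc h1 h2))) (enc_case (enc_sub (kf3q3_34.enc h1 h2) (kf3q3_3.enc h1 h2)) (enc_add (enc_sub (kf3q3_38.enc h1 h2) (enc_scale 157 625 (kf3q3_3.enc h1 h2))) (enc_mul (enc_norm (kf3q3_50.enc h1 h2)) (enc_norm (enc_nat 2 (enc_add (kf3q3_37.enc h1 h2) (enc_rat _ 157 625)))))) (enc_case (enc_sub (kf3q3_34.enc h1 h2) (kf3q3_55.enc h1 h2)) (enc_add (kf3q3_38.enc h1 h2) (enc_mul (enc_norm (enc_sub (kf3q3_55.enc h1 h2) (kf3q3_34.enc h1 h2))) (enc_norm (enc_scale 2 3 (kf3q3_37.enc h1 h2))))) (kf3q3_38.enc h1 h2))))))⟩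
noncomputable def kf1q3_15 : Fn2 := ⟨_, _, fun h1 h2 => (enc_subr 19 10 h1)⟩
noncomputable def kf1q3 : Fn2 := ⟨_, _, fun h1 h2 => (enc_norm (enc_case (enc_add (enc_subn 2 h1) (enc_rat _ 1 16)) (enc_mul (cv1r.enc h1) (enc_norm (enc_case (enc_subr 37 20 h1) (enc_case (enc_subr 89 50 h1) (enc_pnc _ 0) (enc_subr 267 35000 (enc_scale 3 700 h1))) (enc_case (kf1q3_15.enc h1 h2) (enc_sub (enc_rat _ 47 2500) (enc_scale 1 100 h1)) (enc_subr 1 5000 (enc_mul (enc_norm (kf1q3_15.enc h1 h2)) (enc_norm (enc_scale 80 3 (enc_add (jnK1q3.enc h2) (enc_rat _ 1 5000)))))))))) (enc_scale 1 5 (kf3q3.enc h1 h2))))⟩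
noncomputable def jnX1q3 : Fn1 := ⟨_, _, fun h1 => (enc_norm (enc_neg (enc_mul (enc_norm (enc_scale 9 6250 (enc_sub (enc_rat _ 1 16) (enc_scale 5 2 (enc_sub (enc_pnc _ 1) h1))))) (enc_inv (enc_scale 1 5 (enc_subr 1 2 (swg.enc (enc_rat _ 31 16))))))))⟩
noncomputable def jnX3q3 : Fn1 := ⟨_, _, fun h1 => (enc_norm (enc_neg (enc_mul (enc_norm (enc_scale 9 1250 (enc_sub (enc_rat _ 1 16) (enc_scale 5 2 (enc_sub (enc_pnc _ 1) h1))))) (enc_inv (enc_subr 1 2 (swg.enc (enc_rat _ 31 16)))))))⟩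
noncomputable def xt3q3_3 : Fn2 := ⟨_, _, fun h1 h2 => (enc_sub (enc_pnc _ 1) h2)⟩
noncomputable def xt3q3_20 : Fn2 := ⟨_, _, fun h1 h2 => (enc_scale 1501 1000 h1)⟩
noncomputable def xt3q3_54 : Fn2 := ⟨_, _, fun h1 h2 => (enc_subr 19 10 h1)⟩
noncomputable def xt3q3_69 : Fn2 := ⟨_, _, fun h1 h2 => (enc_sub (enc_neg (enc_rat _ 3457 50000)) (enc_scale 2037 500 (xt3q3_3.enc h1 h2)))⟩
noncomputable def xt3q3_85 : Fn2 := ⟨_, _, fun h1 h2 => (enc_sub (enc_sub (enc_pnc _ 2) h1) (enc_scale 5 2 (xt3q3_3.enc h1 h2)))⟩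
noncomputable def xt3q3 : Fn2 := ⟨_, _, fun h1 h2 => (enc_norm (enc_case (enc_add (enc_subn 2 h1) (enc_rat _ 1 16)) (enc_mul (cv3r.enc h1) (enc_norm (enc_case (enc_subr 89 50 h1) (enc_case (enc_subr 79 50 h1) (enc_add (enc_subr 1168503 400000 (enc_scale 12009 8000 h1)) (enc_mul (enc_norm (xt3q3_3.enc h1 h2)) (enc_norm (enc_sub (enc_rat _ 183591 4000) (enc_scale 525 16 h1))))) (enc_case (enc_subr 42 25 h1) (enc_add (enc_subr 146053 50000 (xt3q3_20.enc h1 h2)) (enc_mul (enc_norm (xt3q3_3.enc h1 h2)) (enc_norm (enc_subr 41659 5000 (enc_scale 151 100 h1))))) (enc_add (enc_subr 730307 250000 (enc_scale 15011 10000 h1)) (enc_mul (enc_norm (xt3q3_3.enc h1 h2)) (enc_norm (enc_subr 94579 5000 (enc_scale 781 100 h1))))))) (enc_case (enc_subr 37 20 h1) (enc_add (enc_subr 58421 20000 (xt3q3_20.enc h1 h2)) (enc_mul (enc_norm (xt3q3_3.enc h1 h2)) (enc_norm (enc_subr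 66321 3500 (enc_scale 274 35 h1))))) (enc_case (xt3q3_54.enc h1 h2) (enc_add (enc_subr 146071 50000 (enc_scale 3753 2500 h1)) (enc_mul (enc_norm (xt3q3_3.enc h1 h2)) (enc_norm (enc_subr 1897 100 (enc_scale 196 25 h1))))) (enc_add (xt3q3_69.enc h1 h2) (enc_mul (enc_norm (xt3q3_54.enc h1 h2)) (enc_norm (enc_scale 80 3 (enc_sub (jnX3q3.enc h2) (xt3q3_69.enc h1 h2))))))))))) (enc_case (xt3q3_85.enc h1 h2) (enc_pnc _ 0) (enc_neg (enc_scale 9 1250 (xt3q3_85.enc h1 h2))))))⟩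
noncomputable def xt1q3_3 : Fn2 := ⟨_, _, fun h1 h2 => (enc_sub (enc_pnc _ 1) h2)⟩
noncomputable def xt1q3_20 : Fn2 := ⟨_, _, fun h1 h2 => (enc_scale 1501 1000 h1)⟩
noncomputable def xt1q3_54 : Fn2 := ⟨_, _, fun h1 h2 => (enc_subr 19 10 h1)⟩
noncomputable def xt1q3_69 : Fn2 := ⟨_, _, fun h1 h2 => (enc_sub (enc_neg (enc_rat _ 3457 50000)) (enc_scale 2037 500 (xt1q3_3.enc h1 h2)))⟩
noncomputable def xt1q3 : Fn2 := ⟨_, _, fun h1 h2 => (enc_norm (enc_case (enc_add (enc_subn 2 h1) (enc_rat _ 1 16)) (enc_mul (cv1r.enc h1) (enc_norm (enc_case (enc_subr 89 50 h1) (enc_case (enc_subr 79 50 h1) (enc_add (enc_subr 1168503 400000 (enc_scale 12009 8000 h1)) (enc_mul (enc_norm (xt1q3_3.enc h1 h2)) (enc_norm (enc_sub (enc_rat _ 183591 4000) (enc_scale 525 16 h1))))) (enc_case (enc_subr 42 25 h1) (enc_add (enc_subr 146053 50000 (xt1q3_20.enc h1 h2)) (enc_mul (enc_norm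 (xt1q3_3.enc h1 h2)) (enc_norm (enc_subr 41659 5000 (enc_scale 151 100 h1))))) (enc_add (enc_subr 730307 250000 (enc_scale 15011 10000 h1)) (enc_mul (enc_norm (xt1q3_3.enc h1 h2)) (enc_norm (enc_subr 94579 5000 (enc_scale 781 100 h1))))))) (enc_case (enc_subr 37 20 h1) (enc_add (enc_subr 58421 20000 (xt1q3_20.enc h1 h2)) (enc_mul (enc_norm (xt1q3_3.enc h1 h2)) (enc_norm (enc_subr 66321 3500 (enc_scale 274 35 h1))))) (enc_case (xt1q3_54.enc h1 h2) (enc_add (enc_subr 146071 50000 (enc_scale 3753 2500 h1)) (enc_mul (enc_norm (xt1q3_3.enc h1 h2)) (enc_norm (enc_subr 1897 100 (enc_scale 196 25 h1))))) (enc_add (xt1q3_69.enc h1 h2) (enc_mul (enc_norm (xt1q3_54.enc h1 h2)) (enc_norm (enc_scale 80 3 (enc_sub (jnX1q3.enc h2) (xt1q3_69.enc h1 h2))))))))))) (enc_scale 1 5 (xt3q3.enc h1 h2))))⟩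
noncomputable def l1q3 : Fn2 := ⟨_, _, fun h1 h2 => (enc_norm (enc_mul (lamg.enc h2) (enc_norm (enc_add (cv1r.enc h1) (xt1q3.enc h1 h2)))))⟩
noncomputable def cv2m : Fn1 := ⟨_, _, fun h1 => (enc_norm (enc_add (enc_scale 2 5 (c1g.enc h1)) (enc_scale 3 5 (enc_add (swg.enc h1) (enc_rat _ 1 2)))))⟩
noncomputable def cx2m : Fn2 := ⟨_, _, fun h1 h2 => (cv2m.enc h1)⟩
noncomputable def jnK2q0_10 : Fn1 := ⟨_, _, fun h1 => (enc_add (swg.enc (enc_rat _ 1 16)) (enc_rat _ 1 2))⟩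
noncomputable def jnK2q0 : Fn1 := ⟨_, _, fun h1 => (enc_norm (enc_mul (enc_norm (enc_add (enc_scale 2 5 (rkg.enc (enc_rat _ 1 16) h1)) (enc_scale 3 5 (enc_mul (enc_norm (jnK2q0_10.enc h1)) (enc_norm (enc_subr 3 8 (enc_pnc _ 1))))))) (enc_inv (enc_add (enc_scale 2 5 (c1g.enc (enc_rat _ 1 16))) (enc_scale 3 5 (jnK2q0_10.enc h1))))))⟩
noncomputable def kf2q0_11 : Fn2 := ⟨_, _, fun h1 h2 => (enc_subr 1 16 h1)⟩
noncomputable def kf2q0 : Fn2 := ⟨_, _, fun h1 h2 => (enc_norm (enc_case (kf2q0_11.enc h1 h2) (enc_add (enc_scale 2 5 (kf0q0.enc h1 h2)) (enc_scale 3 5 (kf3q0.enc h1 h2))) (enc_mul (cv2m.enc h1) (enc_norm (enc_case (enc_subr 3 20 h1) (enc_case (enc_subr 1 10 h1) (enc_add (jnK2q0.enc h2) (enc_mul (enc_norm (kf2q0_11.enc h1 h2)) (enc_norm (enc_scale 80 3 (enc_sub (enc_rat _ 2323 5000) (jnK2q0.enc h2)))))) (enc_sub (enc_rat _ 2047 2500) (enc_scale 1771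 500 h1))) (enc_case (enc_subr 11 50 h1) (enc_sub (enc_rat _ 253 280) (enc_scale 115 28 h1)) (enc_pnc _ 0)))))))⟩
noncomputable def jnX2q0 : Fn1 := ⟨_, _, fun h1 => (enc_norm (enc_mul (enc_norm (enc_add (enc_scale 2 5 (enc_subn 1 (alg.enc (enc_rat _ 1 16) h1))) (enc_scale 3 5 (enc_subn 1 (enc_scale 1 50 (enc_sub (enc_rat _ 1 16) (enc_scale 5 2 (enc_sub (enc_pnc _ 1) h1)))))))) (enc_inv (enc_add (enc_scale 2 5 (c1g.enc (enc_rat _ 1 16))) (enc_scale 3 5 (enc_add (swg.enc (enc_rat _ 1 16)) (enc_rat _ 1 2)))))))⟩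
noncomputable def xt2q0_3 : Fn2 := ⟨_, _, fun h1 h2 => (enc_sub (enc_pnc _ 1) h2)⟩
noncomputable def xt2q0_15 : Fn2 := ⟨_, _, fun h1 h2 => (enc_subr 1 16 h1)⟩
noncomputable def xt2q0_30 : Fn2 := ⟨_, _, fun h1 h2 => (enc_mul (enc_norm (xt2q0_3.enc h1 h2)) (enc_norm (enc_sub (enc_rat _ 2051 1000) (enc_scale 261 10 h1))))⟩
noncomputable def xt2q0 : Fn2 := ⟨_, _, fun h1 h2 => (enc_norm (enc_case (xt2q0_15.enc h1 h2) (enc_add (enc_scale 2 5 (xt0q0.enc h1 h2)) (enc_scale 3 5 (xt3q0.enc h1 h2))) (enc_mul (cv2m.enc h1) (enc_norm (enc_case (enc_subr 11 50 h1) (enc_case (enc_subr 1 10 h1) (enc_add (jnX2q0.enc h2) (enc_mul (enc_norm (xt2q0_15.enc h1 h2)) (enc_norm (enc_scale 80 3 (enc_sub (enc_sub (enc_neg (enc_rat _ 18737 20000)) (enc_scale 559 1000 (xt2q0_3.enc h1 h2))) (jnX2q0.enc h2)))))) (enc_case (enc_subr 3 20 h1) (enc_add (enc_subr 101197 100000 (enc_scale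 939 1250 h1)) (xt2q0_30.enc h1 h2)) (enc_add (enc_subr 720763 700000 (enc_scale 1521 1750 h1)) (xt2q0_30.enc h1 h2)))) (enc_case (enc_subr 8 25 h1) (enc_add (enc_subr 480979 500000 (enc_scale 2807 5000 h1)) (enc_mul (enc_norm (xt2q0_3.enc h1 h2)) (enc_norm (enc_subr 17157 5000 (enc_neg (enc_scale 59 50 h1)))))) (enc_case (enc_subr 21 50 h1) (enc_add (enc_subr 451507 500000 (enc_scale 943 2500 h1)) (enc_mul (enc_norm (xt2q0_3.enc h1 h2)) (enc_norm (enc_sub (enc_rat _ 11067 5000) (enc_scale 941 50 h1))))) (enc_add (enc_subr 68383 80000 (enc_scale 2099 8000 h1)) (enc_mul (enc_norm (xt2q0_3.enc h1 h2)) (enc_norm (enc_subr 147 800 (enc_neg (enc_scale 1049 80 h1)))))))))))))⟩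
noncomputable def l2q0 : Fn2 := ⟨_, _, fun h1 h2 => (enc_norm (enc_mul (lamg.enc h2) (enc_norm (enc_add (cv2m.enc h1) (xt2q0.enc h1 h2)))))⟩
noncomputable def kf2q1_16 : Fn2 := ⟨_, _, fun h1 h2 => (enc_scale 287 200 h1)⟩
noncomputable def kf2q1 : Fn2 := ⟨_, _, fun h1 h2 => (enc_norm (enc_mul (cv2m.enc h1) (enc_norm (enc_case (enc_subr 43 50 h1) (enc_case (enc_subr 39 50 h1) (enc_pnc _ 0) (enc_sub (enc_rat _ 5889 40000) (enc_scale 151 800 h1))) (enc_case (enc_subr 23 25 h1) (enc_subr 3123 2500 (kf2q1_16.enc h1 h2)) (enc_case (enc_subr 24 25 h1) (enc_subr 12469 10000 (enc_scale 573 400 h1)) (enc_subr 12493 10000 (kf2q1_16.enc h1 h2))))))))⟩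
noncomputable def xt2q1_3 : Fn2 := ⟨_, _, fun h1 h2 => (enc_sub (enc_pnc _ 1) h2)⟩
noncomputable def xt2q1 : Fn2 := ⟨_, _, fun h1 h2 => (enc_norm (enc_mul (cv2m.enc h1) (enc_norm (enc_case (enc_subr 39 50 h1) (enc_case (enc_subr 29 50 h1) (enc_add (enc_subr 25789 40000 (enc_neg (enc_scale 631 4000 h1))) (enc_mul (enc_norm (xt2q1_3.enc h1 h2)) (enc_norm (enc_subr 4031 400 (enc_scale 267 40 h1))))) (enc_case (enc_subr 17 25 h1) (enc_add (enc_subr 3213 6250 (enc_neg (enc_scale 383 1000 h1))) (enc_mul (enc_norm (xt2q1_3.enc h1 h2)) (enc_norm (enc_subr 10092 625 (enc_scale 857 50 h1))))) (enc_add (enc_subr 969 2500 (enc_neg (enc_scale 569 1000 h1))) (enc_mul (enc_norm (xt2q1_3.enc h1 h2)) (enc_norm (enc_subr 721 50 (enc_scale 73 5 h1))))))) (enc_case (enc_subr 23 25 h1) (enc_case (enc_subr 43 50 h1) (enc_add (enc_subr 7623 25000 (enc_neg (enc_scale 27 40 h1)))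 (enc_mul (enc_norm (xt2q1_3.enc h1 h2)) (enc_norm (enc_subr 46487 4000 (enc_scale 881 80 h1))))) (enc_add (enc_subr 19749 25000 (enc_neg (enc_scale 111 1000 h1))) (enc_mul (enc_norm (xt2q1_3.enc h1 h2)) (enc_norm (enc_sub (enc_rat _ 19747 750) (enc_scale 1987 60 h1)))))) (enc_case (enc_subr 24 25 h1) (enc_add (enc_subr 14159 100000 (enc_neg (enc_scale 3263 4000 h1))) (enc_mul (enc_norm (xt2q1_3.enc h1 h2)) (enc_norm (enc_sub (enc_rat _ 13157 500) (enc_scale 331 10 h1))))) (enc_add (enc_sub (enc_rat _ 141481 100000) (enc_scale 2437 1000 h1)) (enc_mul (enc_norm (xt2q1_3.enc h1 h2)) (enc_norm (enc_subr 6263 100 (enc_scale 1191 20 h1)))))))))))⟩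
noncomputable def l2q1 : Fn2 := ⟨_, _, fun h1 h2 => (enc_norm (enc_mul (lamg.enc h2) (enc_norm (enc_add (cv2m.enc h1) (xt2q1.enc h1 h2)))))⟩
noncomputable def xc22a : Fn2 := ⟨_, _, fun h1 h2 => (enc_norm (enc_add (enc_scale 2 5 h1) (enc_scale 3 5 (enc_subr 1 2 (swg.enc (yag.enc h1))))))⟩
noncomputable def jnK2q2_4 : Fn1 := ⟨_, _, fun h1 => (c1g.enc (enc_rat _ 17 16))⟩
noncomputable def jnK2q2_10 : Fn1 := ⟨_, _, fun h1 => (enc_sub (enc_rat _ 17 32) (jnK2q2_4.enc h1))⟩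
noncomputable def jnK2q2_22 : Fn1 := ⟨_, _, fun h1 => (enc_subr 1 2 (swg.enc (enc_rat _ 17 16)))⟩
noncomputable def jnK2q2 : Fn1 := ⟨_, _, fun h1 => (enc_norm (enc_mul (enc_norm (enc_add (enc_scale 2 5 (enc_mul (rkg.enc (enc_norm (jnK2q2_10.enc h1)) h1) (enc_norm (enc_sub (enc_rat _ 1 2) (enc_mul (enc_norm (enc_scale 3 4 (jnK2q2_10.enc h1))) (enc_inv (enc_add (enc_pnc _ 1) (enc_add (enc_half (jnK2q2_4.enc h1)) (enc_rat _ 51 64))))))))) (enc_scale 3 5 (enc_mul (enc_norm (jnK2q2_22.enc h1)) (enc_norm (enc_subr 693 2500 (enc_pnc _ 1))))))) (enc_inv (enc_add (enc_scale 2 5 (jnK2q2_4.enc h1)) (enc_scale 3 5 (jnK2q2_22.enc h1))))))⟩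
noncomputable def kfc22a_47 : Fn2 := ⟨_, _, fun h1 h2 => (enc_sub (enc_half (yag.enc h1)) h1)⟩
noncomputable def kfc22a : Fn2 := ⟨_, _, fun h1 h2 => (enc_norm (enc_case (enc_subr 1 16 (enc_subn 1 (yag.enc h1))) (enc_add (enc_scale 2 5 (enc_mul (rkg.enc (enc_norm (kfc22a_47.enc h1 h2)) h2) (enc_norm (enc_sub (enc_rat _ 1 2) (enc_mul (enc_norm (enc_scale 3 4 (kfc22a_47.enc h1 h2))) (enc_inv (enc_add (enc_pnc _ 1) (enc_add (enc_half h1) (enc_scale 3 4 (yag.enc h1)))))))))) (enc_scale 3 5 (kf3q2.enc (yag.enc h1) h2))) (enc_mul (enc_norm (enc_add (enc_scale 2 5 h1) (enc_scale 3 5 (enc_subr 1 2 (swg.enc (yag.enc h1)))))) (enc_norm (enc_case (enc_subr 23 20 (yag.enc h1)) (enc_case (enc_subr 11 10 (yag.enc h1)) (enc_add (jnK2q2.enc h2) (enc_mul (enc_norm (enc_subr 17 16 (yag.enc h1))) (enc_norm (enc_scale 80 3 (enc_sub (enc_rat _ 2327 5000) (jnK2q2.enc h2))))))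 (enc_sub (enc_rat _ 34653 2500) (enc_scale 6089 500 (yag.enc h1)))) (enc_case (enc_subr 61 50 (yag.enc h1)) (enc_subr 2501 1000 (enc_scale 41 20 (yag.enc h1))) (enc_pnc _ 0)))))))⟩
noncomputable def jnX2q2_4 : Fn1 := ⟨_, _, fun h1 => (c1g.enc (enc_rat _ 17 16))⟩
noncomputable def jnX2q2_7 : Fn1 := ⟨_, _, fun h1 => (enc_sub (enc_rat _ 17 32) (jnX2q2_4.enc h1))⟩
noncomputable def jnX2q2 : Fn1 := ⟨_, _, fun h1 => (enc_norm (enc_mul (enc_norm (enc_add (enc_scale 2 5 (enc_subr 1 2 (enc_sub (alg.enc (enc_norm (jnX2q2_7.enc h1)) h1) (beg.enc (enc_norm (jnX2q2_7.enc h1)) h1)))) (enc_scale 3 5 (enc_subr 1 2 (enc_scale 3097 10000 (enc_sub (enc_rat _ 1 16) (enc_scale 5 2 (enc_sub (enc_pnc _ 1) h1)))))))) (enc_inv (enc_add (enc_scale 2 5 (jnX2q2_4.enc h1)) (enc_scale 3 5 (enc_subr 1 2 (swg.enc (enc_rat _ 17 16))))))))⟩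
noncomputable def lc22a_10 : Fn2 := ⟨_, _, fun h1 h2 => (enc_add (enc_scale 2 5 h1) (enc_scale 3 5 (enc_subr 1 2 (swg.enc (yag.enc h1)))))⟩
noncomputable def lc22a_12 : Fn2 := ⟨_, _, fun h1 h2 => (enc_sub (enc_pnc _ 1) h2)⟩
noncomputable def lc22a_97 : Fn2 := ⟨_, _, fun h1 h2 => (enc_sub (enc_half (yag.enc h1)) h1)⟩
noncomputable def lc22a : Fn2 := ⟨_, _, fun h1 h2 => (enc_norm (enc_mul (lamg.enc h2) (enc_norm (enc_add (lc22a_10.enc h1 h2) (enc_case (enc_subr 1 16 (enc_subn 1 (yag.enc h1))) (enc_add (enc_scale 2 5 (enc_subr 1 2 (enc_sub (alg.enc (enc_norm (lc22a_97.enc h1 h2)) h2) (beg.enc (enc_norm (lc22a_97.enc h1 h2)) h2)))) (enc_scale 3 5 (xt3q2.enc (yag.enc h1) h2))) (enc_mul (enc_norm (lc22a_10.enc h1 h2)) (enc_norm (enc_case (enc_subr 61 50 (yag.enc h1)) (enc_case (enc_subr 11 10 (yag.enc h1)) (enc_add (jnX2q2.enc h2) (enc_mul (enc_norm (enc_subr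 17 16 (yag.enc h1))) (enc_norm (enc_scale 80 3 (enc_sub (enc_sub (enc_neg (enc_rat _ 13821 12500)) (enc_scale 137 100 (lc22a_12.enc h1 h2))) (jnX2q2.enc h2)))))) (enc_case (enc_subr 23 20 (yag.enc h1)) (enc_add (enc_subr 3739 25000 (enc_neg (enc_scale 2173 2500 (yag.enc h1)))) (enc_mul (enc_norm (lc22a_12.enc h1 h2)) (enc_norm (enc_sub (enc_rat _ 85181 500) (enc_scale 3903 25 (yag.enc h1)))))) (enc_add (enc_subr 2149739 350000 (enc_scale 3799 875 (yag.enc h1))) (enc_mul (enc_norm (lc22a_12.enc h1 h2)) (enc_norm (enc_sub (enc_rat _ 100416 875) (enc_scale 3772 35 (yag.enc h1)))))))) (enc_case (enc_subr 33 25 (yag.enc h1)) (enc_add (enc_subr 805263 500000 (enc_scale 6273 10000 (yag.enc h1))) (enc_mul (enc_norm (lc22a_12.enc h1 h2)) (enc_norm (enc_subr 2567 20 (enc_scale 183 2 (yag.enc h1)))))) (enc_case (enc_subr 71 50 (yag.enc h1)) (enc_add (enc_subr 805329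 500000 (enc_scale 3137 5000 (yag.enc h1))) (enc_mul (enc_norm (lc22a_12.enc h1 h2)) (enc_norm (enc_subr 26602 625 (enc_scale 2651 100 (yag.enc h1)))))) (enc_add (enc_subr 322089 200000 (enc_scale 2509 4000 (yag.enc h1))) (enc_mul (enc_norm (lc22a_12.enc h1 h2)) (enc_norm (enc_subr 66567 2000 (enc_scale 799 40 (yag.enc h1))))))))))))))))⟩
noncomputable def xc22b : Fn2 := ⟨_, _, fun h1 h2 => (enc_norm (enc_scale 3 5 (enc_subr 1 2 (swg.enc h1))))⟩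
noncomputable def kfc22b : Fn2 := ⟨_, _, fun h1 h2 => (enc_norm (enc_case (enc_subr 1 16 (enc_subn 1 h1)) (enc_scale 3 5 (kf3q2.enc h1 h2)) (enc_mul (enc_norm (enc_scale 3 5 (enc_subr 1 2 (swg.enc h1)))) (enc_norm (enc_case (enc_subr 23 20 h1) (enc_case (enc_subr 11 10 h1) (enc_add (jnK2q2.enc h2) (enc_mul (enc_norm (enc_subr 17 16 h1)) (enc_norm (enc_scale 80 3 (enc_sub (enc_rat _ 2327 5000) (jnK2q2.enc h2)))))) (enc_sub (enc_rat _ 34653 2500) (enc_scale 6089 500 h1))) (enc_case (enc_subr 61 50 h1) (enc_subr 2501 1000 (enc_scale 41 20 h1)) (enc_pnc _ 0)))))))⟩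
noncomputable def lc22b_8 : Fn2 := ⟨_, _, fun h1 h2 => (enc_scale 3 5 (enc_subr 1 2 (swg.enc h1)))⟩
noncomputable def lc22b_10 : Fn2 := ⟨_, _, fun h1 h2 => (enc_sub (enc_pnc _ 1) h2)⟩
noncomputable def lc22b : Fn2 := ⟨_, _, fun h1 h2 => (enc_norm (enc_mul (lamg.enc h2) (enc_norm (enc_add (lc22b_8.enc h1 h2) (enc_case (enc_subr 1 16 (enc_subn 1 h1)) (enc_scale 3 5 (xt3q2.enc h1 h2)) (enc_mul (enc_norm (lc22b_8.enc h1 h2)) (enc_norm (enc_case (enc_subr 61 50 h1) (enc_case (enc_subr 11 10 h1) (enc_add (jnX2q2.enc h2) (enc_mul (enc_norm (enc_subr 17 16 h1)) (enc_norm (enc_scale 80 3 (enc_sub (enc_sub (enc_neg (enc_rat _ 13821 12500)) (enc_scale 137 100 (lc22b_10.enc h1 h2))) (jnX2q2.enc h2)))))) (enc_case (enc_subr 23 20 h1) (enc_add (enc_subr 3739 25000 (enc_neg (enc_scale 2173 2500 h1))) (enc_mul (enc_norm (lc22b_10.enc h1 h2)) (enc_norm (enc_sub (enc_rat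 _ 85181 500) (enc_scale 3903 25 h1))))) (enc_add (enc_subr 2149739 350000 (enc_scale 3799 875 h1)) (enc_mul (enc_norm (lc22b_10.enc h1 h2)) (enc_norm (enc_sub (enc_rat _ 100416 875) (enc_scale 3772 35 h1))))))) (enc_case (enc_subr 33 25 h1) (enc_add (enc_subr 805263 500000 (enc_scale 6273 10000 h1)) (enc_mul (enc_norm (lc22b_10.enc h1 h2)) (enc_norm (enc_subr 2567 20 (enc_scale 183 2 h1))))) (enc_case (enc_subr 71 50 h1) (enc_add (enc_subr 805329 500000 (enc_scale 3137 5000 h1)) (enc_mul (enc_norm (lc22b_10.enc h1 h2)) (enc_norm (enc_subr 26602 625 (enc_scale 2651 100 h1))))) (enc_add (enc_subr 322089 200000 (enc_scale 2509 4000 h1)) (enc_mul (enc_norm (lc22b_10.enc h1 h2)) (enc_norm (enc_subr 66567 2000 (enc_scale 799 40 h1)))))))))))))))⟩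
noncomputable def cv2r : Fn1 := ⟨_, _, fun h1 => (enc_norm (enc_scale 3 5 (enc_subr 1 2 (swg.enc h1))))⟩
noncomputable def cx2r : Fn2 := ⟨_, _, fun h1 h2 => (cv2r.enc h1)⟩
noncomputable def jnK2q3 : Fn1 := ⟨_, _, fun h1 => (enc_scale 4131 200000 (enc_inv (enc_scale 3 5 (enc_subr 1 2 (swg.enc (enc_rat _ 31 16))))))⟩
noncomputable def kf2q3_15 : Fn2 := ⟨_, _, fun h1 h2 => (enc_subr 19 10 h1)⟩
noncomputable def kf2q3 : Fn2 := ⟨_, _, fun h1 h2 => (enc_norm (enc_case (enc_add (enc_subn 2 h1) (enc_rat _ 1 16)) (enc_mul (cv2r.enc h1) (enc_norm (enc_case (enc_subr 37 20 h1) (enc_case (enc_subr 89 50 h1) (enc_pnc _ 0) (enc_subr 267 35000 (enc_scale 3 700 h1))) (enc_case (kf2q3_15.enc h1 h2) (enc_sub (enc_rat _ 47 2500) (enc_scale 1 100 h1)) (enc_subr 1 5000 (enc_mul (enc_norm (kf2q3_15.enc h1 h2)) (enc_norm (enc_scale 80 3 (enc_add (jnK2q3.enc h2) (enc_rat _ 1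 5000)))))))))) (enc_scale 3 5 (kf3q3.enc h1 h2))))⟩
noncomputable def jnX2q3 : Fn1 := ⟨_, _, fun h1 => (enc_norm (enc_neg (enc_mul (enc_norm (enc_scale 27 6250 (enc_sub (enc_rat _ 1 16) (enc_scale 5 2 (enc_sub (enc_pnc _ 1) h1))))) (enc_inv (enc_scale 3 5 (enc_subr 1 2 (swg.enc (enc_rat _ 31 16))))))))⟩
noncomputable def xt2q3_3 : Fn2 := ⟨_, _, fun h1 h2 => (enc_sub (enc_pnc _ 1) h2)⟩
noncomputable def xt2q3_20 : Fn2 := ⟨_, _, fun h1 h2 => (enc_scale 1501 1000 h1)⟩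
noncomputable def xt2q3_54 : Fn2 := ⟨_, _, fun h1 h2 => (enc_subr 19 10 h1)⟩
noncomputable def xt2q3_69 : Fn2 := ⟨_, _, fun h1 h2 => (enc_sub (enc_neg (enc_rat _ 3457 50000)) (enc_scale 2037 500 (xt2q3_3.enc h1 h2)))⟩
noncomputable def xt2q3 : Fn2 := ⟨_, _, fun h1 h2 => (enc_norm (enc_case (enc_add (enc_subn 2 h1) (enc_rat _ 1 16)) (enc_mul (cv2r.enc h1) (enc_norm (enc_case (enc_subr 89 50 h1) (enc_case (enc_subr 79 50 h1) (enc_add (enc_subr 1168503 400000 (enc_scale 12009 8000 h1)) (enc_mul (enc_norm (xt2q3_3.enc h1 h2)) (enc_norm (enc_sub (enc_rat _ 183591 4000) (enc_scale 525 16 h1))))) (enc_case (enc_subr 42 25 h1) (enc_add (enc_subr 146053 50000 (xt2q3_20.enc h1 h2)) (enc_mul (enc_norm (xt2q3_3.enc h1 h2)) (enc_norm (enc_subr 41659 5000 (enc_scale 151 100 h1))))) (enc_add (enc_subr 730307 250000 (enc_scale 15011 10000 h1)) (enc_mul (enc_norm (xt2q3_3.enc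 h1 h2)) (enc_norm (enc_subr 94579 5000 (enc_scale 781 100 h1))))))) (enc_case (enc_subr 37 20 h1) (enc_add (enc_subr 58421 20000 (xt2q3_20.enc h1 h2)) (enc_mul (enc_norm (xt2q3_3.enc h1 h2)) (enc_norm (enc_subr 66321 3500 (enc_scale 274 35 h1))))) (enc_case (xt2q3_54.enc h1 h2) (enc_add (enc_subr 146071 50000 (enc_scale 3753 2500 h1)) (enc_mul (enc_norm (xt2q3_3.enc h1 h2)) (enc_norm (enc_subr 1897 100 (enc_scale 196 25 h1))))) (enc_add (xt2q3_69.enc h1 h2) (enc_mul (enc_norm (xt2q3_54.enc h1 h2)) (enc_norm (enc_scale 80 3 (enc_sub (jnX2q3.enc h2) (xt2q3_69.enc h1 h2))))))))))) (enc_scale 3 5 (xt3q3.enc h1 h2))))⟩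
noncomputable def l2q3 : Fn2 := ⟨_, _, fun h1 h2 => (enc_norm (enc_mul (lamg.enc h2) (enc_norm (enc_add (cv2r.enc h1) (xt2q3.enc h1 h2)))))⟩
noncomputable def cx3m : Fn2 := ⟨_, _, fun h1 h2 => (cv3m.enc h1)⟩
noncomputable def l3q0 : Fn2 := ⟨_, _, fun h1 h2 => (enc_norm (enc_mul (lamg.enc h2) (enc_norm (enc_add (cv3m.enc h1) (xt3q0.enc h1 h2)))))⟩
noncomputable def jnK3q1_8 : Fn1 := ⟨_, _, fun h1 => (enc_add (swg.enc (enc_rat _ 15 16)) (enc_rat _ 1 2))⟩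
noncomputable def jnK3q1 : Fn1 := ⟨_, _, fun h1 => (enc_norm (enc_mul (enc_norm (enc_mul (enc_norm (jnK3q1_8.enc h1)) (enc_norm (enc_subr 3 8 (enc_pnc _ 1))))) (enc_inv (jnK3q1_8.enc h1))))⟩
noncomputable def kf3q1_3 : Fn2 := ⟨_, _, fun h1 h2 => (enc_sub (enc_pnc _ 1) h2)⟩
noncomputable def kf3q1_15 : Fn2 := ⟨_, _, fun h1 h2 => (enc_subr 9 10 h1)⟩
noncomputable def kf3q1_30 : Fn2 := ⟨_, _, fun h1 h2 => (enc_sub (enc_pnc _ 1) h1)⟩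
noncomputable def kf3q1_36 : Fn2 := ⟨_, _, fun h1 h2 => (enc_sub (enc_pnc _ 1) (enc_nat 6 (kf3q1_30.enc h1 h2)))⟩
noncomputable def kf3q1_44 : Fn2 := ⟨_, _, fun h1 h2 => (enc_sub (kf3q1_30.enc h1 h2) (enc_half (kf3q1_3.enc h1 h2)))⟩
noncomputable def kf3q1_50 : Fn2 := ⟨_, _, fun h1 h2 => (enc_scale 5 2 (kf3q1_3.enc h1 h2))⟩
noncomputable def kf3q1 : Fn2 := ⟨_, _, fun h1 h2 => (enc_norm (enc_case (enc_add (enc_subn 1 h1) (enc_rat _ 1 16)) (enc_mul (cv3m.enc h1) (enc_norm (enc_case (enc_subr 17 20 h1) (enc_case (enc_subr 39 50 h1) (enc_pnc _ 0) (enc_sub (enc_rat _ 2067 35000) (enc_scale 53 700 h1))) (enc_case (kf3q1_15.enc h1 h2) (enc_subr 34001 5000 (enc_scale 3997 500 h1)) (enc_add (enc_rat _ 493 1250) (enc_mul (enc_norm (kf3q1_15.enc h1 h2)) (enc_norm (enc_scale 80 3 (enc_subr 493 1250 (jnK3q1.enc h2)))))))))) (enc_mul (cv3m.enc h1) (enc_norm (enc_case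 (kf3q1_44.enc h1 h2) (enc_add (kf3q1_36.enc h1 h2) (enc_scale 21447 5000 (kf3q1_30.enc h1 h2))) (enc_case (enc_sub (kf3q1_30.enc h1 h2) (kf3q1_3.enc h1 h2)) (enc_add (enc_add (kf3q1_36.enc h1 h2) (enc_scale 21447 10000 (kf3q1_3.enc h1 h2))) (enc_mul (enc_norm (kf3q1_44.enc h1 h2)) (enc_norm (enc_nat 2 (enc_subr 21447 10000 (enc_rat _ 1527 400)))))) (enc_case (enc_sub (kf3q1_30.enc h1 h2) (kf3q1_50.enc h1 h2)) (enc_add (kf3q1_36.enc h1 h2) (enc_scale 509 200 (enc_sub (kf3q1_50.enc h1 h2) (kf3q1_30.enc h1 h2)))) (kf3q1_36.enc h1 h2))))))))⟩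
noncomputable def jnX3q1 : Fn1 := ⟨_, _, fun h1 => (enc_norm (enc_mul (enc_norm (enc_subr 3 2 (enc_neg (enc_scale 559 2000 (enc_sub (enc_rat _ 1 16) (enc_scale 5 2 (enc_sub (enc_pnc _ 1) h1))))))) (enc_inv (enc_add (swg.enc (enc_rat _ 15 16)) (enc_rat _ 1 2)))))⟩
noncomputable def xt3q1_3 : Fn2 := ⟨_, _, fun h1 h2 => (enc_sub (enc_pnc _ 1) h2)⟩
noncomputable def xt3q1_59 : Fn2 := ⟨_, _, fun h1 h2 => (enc_subr 9 10 h1)⟩
noncomputable def xt3q1_75 : Fn2 := ⟨_, _, fun h1 h2 => (enc_sub (enc_neg (enc_rat _ 96551 100000)) (enc_scale 263 125 (xt3q1_3.enc h1 h2)))⟩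
noncomputable def xt3q1_91 : Fn2 := ⟨_, _, fun h1 h2 => (enc_sub (enc_sub (enc_pnc _ 1) h1) (enc_scale 5 2 (xt3q1_3.enc h1 h2)))⟩
noncomputable def xt3q1 : Fn2 := ⟨_, _, fun h1 h2 => (enc_norm (enc_case (enc_add (enc_subn 1 h1) (enc_rat _ 1 16)) (enc_mul (cv3m.enc h1) (enc_norm (enc_case (enc_subr 39 50 h1) (enc_case (enc_subr 29 50 h1) (enc_add (enc_subr 50729 100000 (enc_neg (enc_scale 223 500 h1))) (enc_mul (enc_norm (xt3q1_3.enc h1 h2)) (enc_norm (enc_subr 769 50 (enc_scale 329 20 h1))))) (enc_case (enc_subr 17 25 h1) (enc_add (enc_subr 46553 100000 (enc_neg (enc_scale 259 500 h1))) (enc_mul (enc_norm (xt3q1_3.enc h1 h2)) (enc_norm (enc_subr 2873 200 (enc_scale 147 10 h1))))) (enc_add (enc_subr 37407 100000 (enc_neg (enc_scale 261 400 h1))) (enc_mul (enc_norm (xt3q1_3.enc h1 h2)) (enc_norm (enc_subr 55233 5000 (enc_scale 491 50 h1))))))) (enc_case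 (enc_subr 17 20 h1) (enc_add (enc_subr 65589 175000 (enc_neg (enc_scale 4561 7000 h1))) (enc_mul (enc_norm (xt3q1_3.enc h1 h2)) (enc_norm (enc_subr 5493 1000 (enc_scale 27 10 h1))))) (enc_case (xt3q1_59.enc h1 h2) (enc_add (enc_subr 30167 100000 (enc_neg (enc_scale 461 625 h1))) (enc_mul (enc_norm (xt3q1_3.enc h1 h2)) (enc_norm (enc_subr 5449 250 (enc_scale 547 25 h1))))) (enc_add (xt3q1_75.enc h1 h2) (enc_mul (enc_norm (xt3q1_59.enc h1 h2)) (enc_norm (enc_scale 80 3 (enc_sub (jnX3q1.enc h2) (xt3q1_75.enc h1 h2))))))))))) (enc_case (xt3q1_91.enc h1 h2) (enc_neg (enc_rat _ 3 2)) (enc_subr 3 2 (enc_neg (enc_scale 559 2000 (xt3q1_91.enc h1 h2)))))))⟩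
noncomputable def l3q1 : Fn2 := ⟨_, _, fun h1 h2 => (enc_norm (enc_mul (lamg.enc h2) (enc_norm (enc_add (cv3m.enc h1) (xt3q1.enc h1 h2)))))⟩
noncomputable def cx3p : Fn2 := ⟨_, _, fun h1 h2 => (cv3p.enc h1)⟩
noncomputable def l3q2 : Fn2 := ⟨_, _, fun h1 h2 => (enc_norm (enc_mul (lamg.enc h2) (enc_norm (enc_add (cv3p.enc h1) (xt3q2.enc h1 h2)))))⟩
noncomputable def cx3r : Fn2 := ⟨_, _, fun h1 h2 => (cv3r.enc h1)⟩
noncomputable def l3q3 : Fn2 := ⟨_, _, fun h1 h2 => (enc_norm (enc_mul (lamg.enc h2) (enc_norm (enc_add (cv3r.enc h1) (xt3q3.enc h1 h2)))))⟩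
noncomputable def c3g : Fn1 := ⟨_, _, fun h1 => (enc_sqrtg (enc_sub (enc_pnc _ 3) (enc_scale 3 4 (enc_sq h1))))⟩
noncomputable def cv4m_5 : Fn2 := ⟨_, _, fun h1 h2 => (enc_add (swg.enc h1) (enc_rat _ 1 2))⟩
noncomputable def cv4m : Fn2 := ⟨_, _, fun h1 h2 => (enc_norm (enc_add (cv4m_5.enc h1 h2) (enc_mul (enc_norm (enc_scale 11 5 (enc_sub (enc_pnc _ 1) h2))) (enc_norm (enc_sub (c3g.enc h1) (cv4m_5.enc h1 h2))))))⟩
noncomputable def kq4g_3 : Fn2 := ⟨_, _, fun h1 h2 => (enc_sub (enc_pnc _ 1) h2)⟩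
noncomputable def kq4g_9 : Fn2 := ⟨_, _, fun h1 h2 => (enc_sub h1 (enc_half (kq4g_3.enc h1 h2)))⟩
noncomputable def kq4g_19 : Fn2 := ⟨_, _, fun h1 h2 => (enc_scale 5 2 (kq4g_3.enc h1 h2))⟩
noncomputable def kq4g : Fn2 := ⟨_, _, fun h1 h2 => (enc_norm (enc_add (enc_mul (kf3q0.enc h1 h2) (enc_norm (enc_sub (enc_pnc _ 1) (enc_scale 11 5 (kq4g_3.enc h1 h2))))) (enc_case (kq4g_9.enc h1 h2) (enc_sub (enc_scale 8437 5000 (kq4g_3.enc h1 h2)) (enc_scale 41829 5000 h1)) (enc_case (enc_sub h1 (kq4g_3.enc h1 h2)) (enc_sub (enc_scale 48697 5000 (kq4g_9.enc h1 h2)) (enc_scale 4991 2000 (kq4g_3.enc h1 h2))) (enc_case (enc_sub h1 (kq4g_19.enc h1 h2)) (enc_scale 3957 2500 (enc_sub (kq4g_19.enc h1 h2) h1)) (enc_pnc _ 0))))))⟩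
noncomputable def jnK5q0_8 : Fn1 := ⟨_, _, fun h1 => (enc_add (swg.enc (enc_rat _ 1 16)) (enc_rat _ 1 2))⟩
noncomputable def jnK5q0 : Fn1 := ⟨_, _, fun h1 => (enc_norm (enc_mul (enc_norm (enc_scale 17 20 (enc_mul (enc_norm (jnK5q0_8.enc h1)) (enc_norm (enc_subr 3 8 (enc_pnc _ 1)))))) (enc_inv (enc_add (enc_scale 17 20 (jnK5q0_8.enc h1)) (enc_scale 3 20 (c3g.enc (enc_rat _ 1 16)))))))⟩
noncomputable def cv5m : Fn1 := ⟨_, _, fun h1 => (enc_norm (enc_add (enc_scale 17 20 (enc_add (swg.enc h1) (enc_rat _ 1 2))) (enc_scale 3 20 (c3g.enc h1))))⟩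
noncomputable def kf7q0 : Fn2 := ⟨_, _, fun h1 h2 => (enc_pnc _ 0)⟩
noncomputable def kf5q0_11 : Fn2 := ⟨_, _, fun h1 h2 => (enc_subr 1 16 h1)⟩
noncomputable def kf5q0_39 : Fn2 := ⟨_, _, fun h1 h2 => (enc_add (enc_pnc _ 1) (enc_scale 11 5 (enc_sub (enc_pnc _ 1) h2)))⟩
noncomputable def kf5q0 : Fn2 := ⟨_, _, fun h1 h2 => (enc_norm (enc_case (kf5q0_11.enc h1 h2) (enc_add (kq4g.enc h1 h2) (enc_mul (enc_norm (enc_mul (enc_norm (enc_sub (enc_rat _ 23 20) (kf5q0_39.enc h1 h2))) (enc_inv (enc_sub (enc_pnc _ 2) (kf5q0_39.enc h1 h2))))) (enc_norm (enc_sub (kf7q0.enc h1 h2) (kq4g.enc h1 h2))))) (enc_mul (cv5m.enc h1) (enc_norm (enc_case (enc_subr 3 20 h1) (enc_case (enc_subr 1 10 h1) (enc_add (jnK5q0.enc h2) (enc_mul (enc_norm (kf5q0_11.enc h1 h2)) (enc_norm (enc_scale 80 3 (enc_sub (enc_rat _ 1613 5000) (jnK5q0.enc h2)))))) (enc_sub (enc_rat _ 1501 2500) (enc_scale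 1389 500 h1))) (enc_case (enc_subr 11 50 h1) (enc_sub (enc_rat _ 20207 35000) (enc_scale 1837 700 h1)) (enc_pnc _ 0)))))))⟩
noncomputable def kf4q0 : Fn2 := ⟨_, _, fun h1 h2 => (enc_norm (enc_case (enc_subr 1 16 h1) (kq4g.enc h1 h2) (enc_add (kf3q0.enc h1 h2) (enc_mul (enc_norm (enc_scale 44 3 (enc_sub (enc_pnc _ 1) h2))) (enc_norm (enc_sub (kf5q0.enc h1 h2) (kf3q0.enc h1 h2)))))))⟩
noncomputable def jnX5q0 : Fn1 := ⟨_, _, fun h1 => (enc_norm (enc_mul (enc_norm (enc_subn 1 (enc_neg (enc_scale 1371 10000 (enc_sub (enc_rat _ 1 16) (enc_scale 5 2 (enc_sub (enc_pnc _ 1) h1))))))) (enc_inv (enc_add (enc_scale 17 20 (enc_add (swg.enc (enc_rat _ 1 16)) (enc_rat _ 1 2))) (enc_scale 3 20 (c3g.enc (enc_rat _ 1 16)))))))⟩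
noncomputable def xt5q0_3 : Fn2 := ⟨_, _, fun h1 h2 => (enc_sub (enc_pnc _ 1) h2)⟩
noncomputable def xt5q0_15 : Fn2 := ⟨_, _, fun h1 h2 => (enc_subr 1 16 h1)⟩
noncomputable def xt5q0_88 : Fn2 := ⟨_, _, fun h1 h2 => (enc_sub h1 (enc_scale 5 2 (xt5q0_3.enc h1 h2)))⟩
noncomputable def xt5q0 : Fn2 := ⟨_, _, fun h1 h2 => (enc_norm (enc_case (xt5q0_15.enc h1 h2) (enc_case (xt5q0_88.enc h1 h2) (enc_neg (enc_pnc _ 1)) (enc_subn 1 (enc_neg (enc_scale 1371 10000 (xt5q0_88.enc h1 h2))))) (enc_mul (cv5m.enc h1) (enc_norm (enc_case (enc_subr 11 50 h1) (enc_case (enc_subr 1 10 h1) (enc_add (jnX5q0.enc h2) (enc_mul (enc_norm (xt5q0_15.enc h1 h2)) (enc_norm (enc_scale 80 3 (enc_sub (enc_sub (enc_neg (enc_rat _ 86323 100000)) (enc_scale 121 125 (xt5q0_3.enc h1 h2))) (jnX5q0.enc h2)))))) (enc_case (enc_subr 3 20 h1) (enc_add (enc_subr 93043 100000 (enc_scale 84 125 h1))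 (enc_mul (enc_norm (xt5q0_3.enc h1 h2)) (enc_norm (enc_sub (enc_rat _ 212 125) (enc_scale 666 25 h1))))) (enc_add (enc_subr 325133 350000 (enc_scale 927 1400 h1)) (enc_mul (enc_norm (xt5q0_3.enc h1 h2)) (enc_norm (enc_sub (enc_rat _ 593 350) (enc_scale 932 35 h1))))))) (enc_case (enc_subr 8 25 h1) (enc_add (enc_subr 211429 250000 (enc_scale 1419 5000 h1)) (enc_mul (enc_norm (xt5q0_3.enc h1 h2)) (enc_norm (enc_subr 25737 5000 (enc_scale 447 100 h1))))) (enc_case (enc_subr 21 50 h1) (enc_add (enc_subr 199429 250000 (enc_scale 669 5000 h1)) (enc_mul (enc_norm (xt5q0_3.enc h1 h2)) (enc_norm (enc_sub (enc_rat _ 5207 5000) (enc_scale 1487 100 h1))))) (enc_add (enc_subr 152861 200000 (enc_scale 217 4000 h1)) (enc_mul (enc_norm (xt5q0_3.enc h1 h2)) (enc_norm (enc_sub (enc_rat _ 4153 4000) (enc_scale 1189 80 h1))))))))))))⟩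
noncomputable def xt4q0 : Fn2 := ⟨_, _, fun h1 h2 => (enc_norm (enc_add (xt3q0.enc h1 h2) (enc_mul (enc_norm (enc_scale 44 3 (enc_sub (enc_pnc _ 1) h2))) (enc_norm (enc_sub (xt5q0.enc h1 h2) (xt3q0.enc h1 h2))))))⟩
noncomputable def l4q0 : Fn2 := ⟨_, _, fun h1 h2 => (enc_norm (enc_mul (lamg.enc h2) (enc_norm (enc_add (cv4m.enc h1 h2) (xt4q0.enc h1 h2)))))⟩
noncomputable def cx5m : Fn2 := ⟨_, _, fun h1 h2 => (cv5m.enc h1)⟩
noncomputable def l5q0 : Fn2 := ⟨_, _, fun h1 h2 => (enc_norm (enc_mul (lamg.enc h2) (enc_norm (enc_add (cv5m.enc h1) (xt5q0.enc h1 h2)))))⟩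
noncomputable def jnK5q1_5 : Fn1 := ⟨_, _, fun h1 => (c3g.enc (enc_rat _ 15 16))⟩
noncomputable def jnK5q1_8 : Fn1 := ⟨_, _, fun h1 => (enc_add (swg.enc (enc_rat _ 15 16)) (enc_rat _ 1 2))⟩
noncomputable def jnK5q1_19 : Fn1 := ⟨_, _, fun h1 => (enc_subr 15 32 (enc_scale 1 3 (jnK5q1_5.enc h1)))⟩
noncomputable def jnK5q1 : Fn1 := ⟨_, _, fun h1 => (enc_norm (enc_mul (enc_norm (enc_add (enc_scale 17 20 (enc_mul (enc_norm (jnK5q1_8.enc h1)) (enc_norm (enc_subr 3 8 (enc_pnc _ 1))))) (enc_scale 3 20 (enc_mul (rkg.enc (enc_norm (jnK5q1_19.enc h1)) h1) (enc_norm (enc_add (enc_rat _ 3 2) (enc_mul (enc_norm (enc_scale 3 4 (jnK5q1_19.enc h1))) (enc_inv (enc_add (enc_pnc _ 1) (enc_add (enc_half (jnK5q1_5.enc h1)) (enc_rat _ 15 64))))))))))) (enc_inv (enc_add (enc_scale 17 20 (jnK5q1_8.enc h1)) (enc_scale 3 20 (jnK5q1_5.enc h1))))))⟩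
noncomputable def kf7q1_10 : Fn2 := ⟨_, _, fun h1 h2 => (enc_sub (enc_scale 1 3 (c3g.enc h1)) (enc_half h1))⟩
noncomputable def kf7q1 : Fn2 := ⟨_, _, fun h1 h2 => (enc_norm (enc_mul (rkg.enc (enc_norm (kf7q1_10.enc h1 h2)) h2) (enc_norm (enc_add (enc_rat _ 3 2) (enc_mul (enc_norm (enc_scale 3 4 (kf7q1_10.enc h1 h2))) (enc_inv (enc_add (enc_pnc _ 1) (enc_add (enc_half (c3g.enc h1)) (enc_scale 1 4 h1)))))))))⟩
noncomputable def kf5q1_15 : Fn2 := ⟨_, _, fun h1 h2 => (enc_subr 9 10 h1)⟩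
noncomputable def kf5q1 : Fn2 := ⟨_, _, fun h1 h2 => (enc_norm (enc_case (enc_add (enc_subn 1 h1) (enc_rat _ 1 16)) (enc_mul (cv5m.enc h1) (enc_norm (enc_case (enc_subr 17 20 h1) (enc_case (enc_subr 39 50 h1) (enc_pnc _ 0) (enc_subr 43563 35000 (enc_scale 1117 700 h1))) (enc_case (kf5q1_15.enc h1 h2) (enc_subr 54643 10000 (enc_scale 164 25 h1)) (enc_add (enc_rat _ 4397 10000) (enc_mul (enc_norm (kf5q1_15.enc h1 h2)) (enc_norm (enc_scale 80 3 (enc_subr 4397 10000 (jnK5q1.enc h2)))))))))) (enc_add (enc_scale 17 20 (kf3q1.enc h1 h2)) (enc_scale 3 20 (kf7q1.enc h1 h2)))))⟩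
noncomputable def jnX5q1_5 : Fn1 := ⟨_, _, fun h1 => (c3g.enc (enc_rat _ 15 16))⟩
noncomputable def jnX5q1_18 : Fn1 := ⟨_, _, fun h1 => (enc_subr 15 32 (enc_scale 1 3 (jnX5q1_5.enc h1)))⟩
noncomputable def jnX5q1 : Fn1 := ⟨_, _, fun h1 => (enc_norm (enc_mul (enc_norm (enc_add (enc_scale 17 20 (enc_subr 3 2 (enc_neg (enc_scale 559 2000 (enc_sub (enc_rat _ 1 16) (enc_scale 5 2 (enc_sub (enc_pnc _ 1) h1))))))) (enc_scale 3 20 (enc_subr 3 2 (enc_add (alg.enc (enc_norm (jnX5q1_18.enc h1)) h1) (beg.enc (enc_norm (jnX5q1_18.enc h1)) h1)))))) (enc_inv (enc_add (enc_scale 17 20 (enc_add (swg.enc (enc_rat _ 15 16)) (enc_rat _ 1 2))) (enc_scale 3 20 (jnX5q1_5.enc h1))))))⟩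
noncomputable def xt7q1_7 : Fn2 := ⟨_, _, fun h1 h2 => (enc_sub (enc_scale 1 3 (c3g.enc h1)) (enc_half h1))⟩
noncomputable def xt7q1 : Fn2 := ⟨_, _, fun h1 h2 => (enc_norm (enc_subr 3 2 (enc_add (alg.enc (enc_norm (xt7q1_7.enc h1 h2)) h2) (beg.enc (enc_norm (xt7q1_7.enc h1 h2)) h2))))⟩
noncomputable def xt5q1_3 : Fn2 := ⟨_, _, fun h1 h2 => (enc_sub (enc_pnc _ 1) h2)⟩
noncomputable def xt5q1_59 : Fn2 := ⟨_, _, fun h1 h2 => (enc_subr 9 10 h1)⟩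
noncomputable def xt5q1_75 : Fn2 := ⟨_, _, fun h1 h2 => (enc_sub (enc_neg (enc_rat _ 96567 100000)) (enc_scale 1777 1000 (xt5q1_3.enc h1 h2)))⟩
noncomputable def xt5q1 : Fn2 := ⟨_, _, fun h1 h2 => (enc_norm (enc_case (enc_add (enc_subn 1 h1) (enc_rat _ 1 16)) (enc_mul (cv5m.enc h1) (enc_norm (enc_case (enc_subr 39 50 h1) (enc_case (enc_subr 29 50 h1) (enc_add (enc_subr 6521 12500 (enc_neg (enc_scale 431 1000 h1))) (enc_mul (enc_norm (xt5q1_3.enc h1 h2)) (enc_norm (enc_subr 52197 4000 (enc_scale 213 16 h1))))) (enc_case (enc_subr 17 25 h1) (enc_add (enc_subr 58917 125000 (enc_neg (enc_scale 2589 5000 h1))) (enc_mul (enc_norm (xt5q1_3.enc h1 h2)) (enc_norm (enc_subr 65239 5000 (enc_scale 1331 100 h1))))) (enc_add (enc_subr 99491 250000 (enc_neg (enc_scale 6257 10000 h1))) (enc_mul (enc_norm (xt5q1_3.enc h1 h2)) (enc_norm (enc_subr 43751 5000 (enc_scale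 699 100 h1))))))) (enc_case (enc_subr 17 20 h1) (enc_add (enc_subr 271079 700000 (enc_neg (enc_scale 1119 1750 h1))) (enc_mul (enc_norm (xt5q1_3.enc h1 h2)) (enc_norm (enc_subr 15307 1750 (enc_scale 489 70 h1))))) (enc_case (xt5q1_59.enc h1 h2) (enc_add (enc_subr 33747 100000 (enc_neg (enc_scale 349 500 h1))) (enc_mul (enc_norm (xt5q1_3.enc h1 h2)) (enc_norm (enc_subr 20353 1000 (enc_scale 516 25 h1))))) (enc_add (xt5q1_75.enc h1 h2) (enc_mul (enc_norm (xt5q1_59.enc h1 h2)) (enc_norm (enc_scale 80 3 (enc_sub (jnX5q1.enc h2) (xt5q1_75.enc h1 h2))))))))))) (enc_add (enc_scale 17 20 (xt3q1.enc h1 h2)) (enc_scale 3 20 (xt7q1.enc h1 h2)))))⟩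
noncomputable def l5q1 : Fn2 := ⟨_, _, fun h1 h2 => (enc_norm (enc_mul (lamg.enc h2) (enc_norm (enc_add (cv5m.enc h1) (xt5q1.enc h1 h2)))))⟩
noncomputable def cv5p : Fn1 := ⟨_, _, fun h1 => (enc_norm (enc_add (enc_scale 17 20 (enc_subr 1 2 (swg.enc h1))) (enc_scale 3 20 (c3g.enc h1))))⟩
noncomputable def cx5p : Fn2 := ⟨_, _, fun h1 h2 => (cv5p.enc h1)⟩
noncomputable def kf5q2_8 : Fn2 := ⟨_, _, fun h1 h2 => (enc_scale 231 20 h1)⟩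
noncomputable def kf5q2 : Fn2 := ⟨_, _, fun h1 h2 => (enc_norm (enc_mul (cv5p.enc h1) (enc_norm (enc_case (enc_subr 27 25 h1) (enc_case (enc_subr 26 25 h1) (enc_subr 22649 2000 (kf5q2_8.enc h1 h2)) (enc_subr 113219 10000 (enc_scale 4619 400 h1))) (enc_case (enc_subr 57 50 h1) (enc_subr 56623 5000 (kf5q2_8.enc h1 h2)) (enc_case (enc_subr 61 50 h1) (enc_sub (enc_rat _ 140483 5000) (enc_scale 2303 100 h1)) (enc_pnc _ 0)))))))⟩
noncomputable def xt5q2_3 : Fn2 := ⟨_, _, fun h1 h2 => (enc_sub (enc_pnc _ 1) h2)⟩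
noncomputable def xt5q2 : Fn2 := ⟨_, _, fun h1 h2 => (enc_norm (enc_mul (cv5p.enc h1) (enc_norm (enc_case (enc_subr 57 50 h1) (enc_case (enc_subr 26 25 h1) (enc_add (enc_subr 31929 50000 (enc_neg (enc_scale 817 4000 h1))) (enc_mul (enc_norm (xt5q2_3.enc h1 h2)) (enc_norm (enc_subr 40663 1000 (enc_scale 349 8 h1))))) (enc_case (enc_subr 27 25 h1) (enc_add (enc_subr 15971 25000 (enc_neg (enc_scale 51 250 h1))) (enc_mul (enc_norm (xt5q2_3.enc h1 h2)) (enc_norm (enc_subr 1949 1000 (enc_scale 32 5 h1))))) (enc_add (enc_sub (enc_rat _ 39743 50000) (enc_scale 3063 2000 h1)) (enc_mul (enc_norm (xt5q2_3.enc h1 h2)) (enc_norm (enc_subr 10819 200 (enc_scale 3281 60 h1))))))) (enc_case (enc_subr 33 25 h1) (enc_case (enc_subr 61 50 h1) (enc_add (enc_subr 125857 200000 (enc_neg (enc_scale 1129 4000 h1))) (enc_mul (enc_norm (xt5q2_3.enc h1 h2)) (enc_norm (enc_subr 5523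 800 (enc_scale 1063 80 h1))))) (enc_add (enc_subr 604863 250000 (enc_scale 11851 10000 h1)) (enc_mul (enc_norm (xt5q2_3.enc h1 h2)) (enc_norm (enc_sub (enc_rat _ 225149 1250) (enc_scale 14001 100 h1)))))) (enc_case (enc_subr 71 50 h1) (enc_add (enc_subr 553977 250000 (enc_scale 10309 10000 h1)) (enc_mul (enc_norm (xt5q2_3.enc h1 h2)) (enc_norm (enc_subr 46913 2500 (enc_scale 533 50 h1))))) (enc_add (enc_subr 443139 200000 (enc_scale 4123 4000 h1)) (enc_mul (enc_norm (xt5q2_3.enc h1 h2)) (enc_norm (enc_subr 36309 4000 (enc_scale 307 80 h1)))))))))))⟩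
noncomputable def l5q2 : Fn2 := ⟨_, _, fun h1 h2 => (enc_norm (enc_mul (lamg.enc h2) (enc_norm (enc_add (cv5p.enc h1) (xt5q2.enc h1 h2)))))⟩
noncomputable def ycg : Fn1 := ⟨_, _, fun h1 => (enc_sqrtg (enc_scale 4 3 (enc_sub (enc_pnc _ 3) (enc_sq h1))))⟩
noncomputable def xc53 : Fn2 := ⟨_, _, fun h1 h2 => (enc_norm (enc_add (enc_scale 17 20 (enc_subr 1 2 (swg.enc (ycg.enc h1)))) (enc_scale 3 20 h1)))⟩
noncomputable def jnK5q3_4 : Fn1 := ⟨_, _, fun h1 => (c3g.enc (enc_rat _ 31 16))⟩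
noncomputable def jnK5q3 : Fn1 := ⟨_, _, fun h1 => (enc_norm (enc_mul (enc_norm (enc_add (enc_rat _ 23409 800000) (enc_scale 3 20 (enc_mul (rkg.enc (enc_scale 2 3 (jnK5q3_4.enc h1)) h1) (enc_norm (enc_mul (jnK5q3_4.enc h1) (enc_inv (enc_add (enc_pnc _ 1) (enc_rat _ 31 32))))))))) (enc_inv (enc_add (enc_scale 17 20 (enc_subr 1 2 (swg.enc (enc_rat _ 31 16)))) (enc_scale 3 20 (jnK5q3_4.enc h1))))))⟩
noncomputable def kfc53_16 : Fn2 := ⟨_, _, fun h1 h2 => (enc_subr 19 10 (ycg.enc h1))⟩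
noncomputable def kfc53 : Fn2 := ⟨_, _, fun h1 h2 => (enc_norm (enc_case (enc_add (enc_subn 2 (ycg.enc h1)) (enc_rat _ 1 16)) (enc_mul (enc_norm (enc_add (enc_scale 17 20 (enc_subr 1 2 (swg.enc (ycg.enc h1)))) (enc_scale 3 20 h1))) (enc_norm (enc_case (enc_subr 37 20 (ycg.enc h1)) (enc_case (enc_subr 89 50 (ycg.enc h1)) (enc_pnc _ 0) (enc_subr 89 17500 (enc_scale 1 350 (ycg.enc h1)))) (enc_case (kfc53_16.enc h1 h2) (enc_sub (enc_rat _ 113 10000) (enc_scale 3 500 (ycg.enc h1))) (enc_subr 1 10000 (enc_mul (enc_norm (kfc53_16.enc h1 h2)) (enc_norm (enc_scale 80 3 (enc_add (jnK5q3.enc h2) (enc_rat _ 1 10000)))))))))) (enc_add (enc_scale 17 20 (kf3q3.enc (ycg.enc h1) h2)) (enc_scale 3 20 (enc_mul (rkg.enc (enc_scale 2 3 h1) h2) (enc_norm (enc_mul h1 (enc_inv (enc_add (enc_pnc _ 1) (enc_half (ycg.enc h1)))))))))))⟩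
noncomputable def lc53_10 : Fn2 := ⟨_, _, fun h1 h2 => (enc_add (enc_scale 17 20 (enc_subr 1 2 (swg.enc (ycg.enc h1)))) (enc_scale 3 20 h1))⟩
noncomputable def lc53_12 : Fn2 := ⟨_, _, fun h1 h2 => (enc_sub (enc_pnc _ 1) h2)⟩
noncomputable def lc53_29 : Fn2 := ⟨_, _, fun h1 h2 => (enc_scale 1501 1000 (ycg.enc h1))⟩
noncomputable def lc53 : Fn2 := ⟨_, _, fun h1 h2 => (enc_norm (enc_mul (lamg.enc h2) (enc_norm (enc_add (lc53_10.enc h1 h2) (enc_mul (enc_norm (lc53_10.enc h1 h2)) (enc_norm (enc_case (enc_subr 89 50 (ycg.enc h1)) (enc_case (enc_subr 79 50 (ycg.enc h1)) (enc_add (enc_subr 1168503 400000 (enc_scale 12009 8000 (ycg.enc h1))) (enc_mul (enc_norm (lc53_12.enc h1 h2)) (enc_norm (enc_sub (enc_rat _ 183591 4000) (enc_scale 525 16 (ycg.enc h1)))))) (enc_case (enc_subr 42 25 (ycg.enc h1)) (enc_add (enc_subr 146053 50000 (lc53_29.enc h1 h2)) (enc_mul (enc_norm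 (lc53_12.enc h1 h2)) (enc_norm (enc_subr 41659 5000 (enc_scale 151 100 (ycg.enc h1)))))) (enc_add (enc_subr 730307 250000 (enc_scale 15011 10000 (ycg.enc h1))) (enc_mul (enc_norm (lc53_12.enc h1 h2)) (enc_norm (enc_subr 94579 5000 (enc_scale 781 100 (ycg.enc h1)))))))) (enc_case (enc_subr 19 10 (ycg.enc h1)) (enc_case (enc_subr 37 20 (ycg.enc h1)) (enc_add (enc_subr 58421 20000 (lc53_29.enc h1 h2)) (enc_mul (enc_norm (lc53_12.enc h1 h2)) (enc_norm (enc_subr 66321 3500 (enc_scale 274 35 (ycg.enc h1)))))) (enc_add (enc_subr 146071 50000 (enc_scale 3753 2500 (ycg.enc h1))) (enc_mul (enc_norm (lc53_12.enc h1 h2)) (enc_norm (enc_subr 1897 100 (enc_scale 196 25 (ycg.enc h1))))))) (enc_case (enc_subr 31 16 (ycg.enc h1)) (enc_add (enc_subr 146109 50000 (enc_scale 1877 1250 (ycg.enc h1))) (enc_mul (enc_norm (lc53_12.enc h1 h2)) (enc_norm (enc_subr 138153 500 (enc_scale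 3582 25 (ycg.enc h1)))))) (enc_add (enc_subr 1283 3125 (enc_scale 1283 6250 (ycg.enc h1))) (enc_mul (enc_norm (lc53_12.enc h1 h2)) (enc_norm (enc_sub (enc_rat _ 5196 125) (enc_scale 2598 125 (ycg.enc h1)))))))))))))))⟩
noncomputable def cv6m : Fn1 := ⟨_, _, fun h1 => (enc_norm (enc_add (enc_scale 2 5 (enc_add (swg.enc h1) (enc_rat _ 1 2))) (enc_scale 3 5 (c3g.enc h1))))⟩
noncomputable def cx6m : Fn2 := ⟨_, _, fun h1 h2 => (cv6m.enc h1)⟩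
noncomputable def jnK6q0_8 : Fn1 := ⟨_, _, fun h1 => (enc_add (swg.enc (enc_rat _ 1 16)) (enc_rat _ 1 2))⟩
noncomputable def jnK6q0 : Fn1 := ⟨_, _, fun h1 => (enc_norm (enc_mul (enc_norm (enc_scale 2 5 (enc_mul (enc_norm (jnK6q0_8.enc h1)) (enc_norm (enc_subr 3 8 (enc_pnc _ 1)))))) (enc_inv (enc_add (enc_scale 2 5 (jnK6q0_8.enc h1)) (enc_scale 3 5 (c3g.enc (enc_rat _ 1 16)))))))⟩
noncomputable def kf6q0_11 : Fn2 := ⟨_, _, fun h1 h2 => (enc_subr 1 16 h1)⟩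
noncomputable def kf6q0_39 : Fn2 := ⟨_, _, fun h1 h2 => (enc_add (enc_pnc _ 1) (enc_scale 11 5 (enc_sub (enc_pnc _ 1) h2)))⟩
noncomputable def kf6q0 : Fn2 := ⟨_, _, fun h1 h2 => (enc_norm (enc_case (kf6q0_11.enc h1 h2) (enc_add (kq4g.enc h1 h2) (enc_mul (enc_norm (enc_mul (enc_norm (enc_sub (enc_rat _ 8 5) (kf6q0_39.enc h1 h2))) (enc_inv (enc_sub (enc_pnc _ 2) (kf6q0_39.enc h1 h2))))) (enc_norm (enc_sub (kf7q0.enc h1 h2) (kq4g.enc h1 h2))))) (enc_mul (cv6m.enc h1) (enc_norm (enc_case (enc_subr 3 20 h1) (enc_case (enc_subr 1 10 h1) (enc_add (jnK6q0.enc h2) (enc_mul (enc_norm (kf6q0_11.enc h1 h2)) (enc_norm (enc_scale 80 3 (enc_sub (enc_rat _ 1241 10000) (jnK6q0.enc h2)))))) (enc_sub (enc_rat _ 453 2000) (enc_scale 128 125 h1))) (enc_case (enc_subr 11 50 h1) (enc_sub (enc_rat _ 8019 35000) (enc_scale 729 700 h1)) (enc_pnc _ 0)))))))⟩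
noncomputable def jnX6q0 : Fn1 := ⟨_, _, fun h1 => (enc_norm (enc_mul (enc_norm (enc_sub (enc_neg (enc_rat _ 876781 800000)) (enc_scale 3031 640 (enc_sub (enc_pnc _ 1) h1)))) (enc_inv (enc_add (enc_scale 2 5 (enc_add (swg.enc (enc_rat _ 1 16)) (enc_rat _ 1 2))) (enc_scale 3 5 (c3g.enc (enc_rat _ 1 16)))))))⟩
noncomputable def xt6q0_3 : Fn2 := ⟨_, _, fun h1 h2 => (enc_sub (enc_pnc _ 1) h2)⟩
noncomputable def xt6q0_15 : Fn2 := ⟨_, _, fun h1 h2 => (enc_subr 1 16 h1)⟩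
noncomputable def xt6q0 : Fn2 := ⟨_, _, fun h1 h2 => (enc_norm (enc_case (xt6q0_15.enc h1 h2) (enc_add (enc_sub (enc_neg (enc_rat _ 55141 50000)) (enc_scale 1293 500 (xt6q0_3.enc h1 h2))) (enc_mul (enc_norm (enc_sub (enc_rat _ 219 2000) (enc_scale 34399 1000 (xt6q0_3.enc h1 h2)))) h1)) (enc_mul (cv6m.enc h1) (enc_norm (enc_case (enc_subr 11 50 h1) (enc_case (enc_subr 1 10 h1) (enc_add (jnX6q0.enc h2) (enc_mul (enc_norm (xt6q0_15.enc h1 h2)) (enc_norm (enc_scale 80 3 (enc_sub (enc_sub (enc_neg (enc_rat _ 15091 20000)) (enc_scale 25 8 (xt6q0_3.enc h1 h2))) (jnX6q0.enc h2)))))) (enc_case (enc_subr 3 20 h1) (enc_add (enc_subr 15621 20000 (enc_scale 53 200 h1)) (enc_mul (enc_norm (xt6q0_3.enc h1 h2)) (enc_norm (enc_subr 717 1000 (enc_neg (enc_scale 602 25 h1)))))) (enc_add (enc_subr 3324 4375 (enc_scale 431 3500 h1)) (enc_mul (enc_norm (xt6q0_3.enc h1 h2))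 (enc_norm (enc_subr 6597 1750 (enc_neg (enc_scale 261 70 h1)))))))) (enc_case (enc_subr 8 25 h1) (enc_add (enc_subr 72509 100000 (enc_neg (enc_scale 69 2000 h1))) (enc_mul (enc_norm (xt6q0_3.enc h1 h2)) (enc_norm (enc_subr 4087 625 (enc_scale 443 50 h1))))) (enc_case (enc_subr 21 50 h1) (enc_add (enc_subr 354017 500000 (enc_neg (enc_scale 439 5000 h1))) (enc_mul (enc_norm (xt6q0_3.enc h1 h2)) (enc_norm (enc_subr 371 125 (enc_neg (enc_scale 23 10 h1)))))) (enc_add (enc_subr 86 125 (enc_neg (enc_scale 271 2000 h1))) (enc_mul (enc_norm (xt6q0_3.enc h1 h2)) (enc_norm (enc_subr 7147 4000 (enc_neg (enc_scale 409 80 h1)))))))))))))⟩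
noncomputable def l6q0 : Fn2 := ⟨_, _, fun h1 h2 => (enc_norm (enc_mul (lamg.enc h2) (enc_norm (enc_add (cv6m.enc h1) (xt6q0.enc h1 h2)))))⟩
noncomputable def jnK6q1_5 : Fn1 := ⟨_, _, fun h1 => (c3g.enc (enc_rat _ 15 16))⟩
noncomputable def jnK6q1_8 : Fn1 := ⟨_, _, fun h1 => (enc_add (swg.enc (enc_rat _ 15 16)) (enc_rat _ 1 2))⟩
noncomputable def jnK6q1_19 : Fn1 := ⟨_, _, fun h1 => (enc_subr 15 32 (enc_scale 1 3 (jnK6q1_5.enc h1)))⟩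
noncomputable def jnK6q1 : Fn1 := ⟨_, _, fun h1 => (enc_norm (enc_mul (enc_norm (enc_add (enc_scale 2 5 (enc_mul (enc_norm (jnK6q1_8.enc h1)) (enc_norm (enc_subr 3 8 (enc_pnc _ 1))))) (enc_scale 3 5 (enc_mul (rkg.enc (enc_norm (jnK6q1_19.enc h1)) h1) (enc_norm (enc_add (enc_rat _ 3 2) (enc_mul (enc_norm (enc_scale 3 4 (jnK6q1_19.enc h1))) (enc_inv (enc_add (enc_pnc _ 1) (enc_add (enc_half (jnK6q1_5.enc h1)) (enc_rat _ 15 64))))))))))) (enc_inv (enc_add (enc_scale 2 5 (jnK6q1_8.enc h1)) (enc_scale 3 5 (jnK6q1_5.enc h1))))))⟩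
noncomputable def kf6q1_15 : Fn2 := ⟨_, _, fun h1 h2 => (enc_subr 9 10 h1)⟩
noncomputable def kf6q1 : Fn2 := ⟨_, _, fun h1 h2 => (enc_norm (enc_case (enc_add (enc_subn 1 h1) (enc_rat _ 1 16)) (enc_mul (cv6m.enc h1) (enc_norm (enc_case (enc_subr 17 20 h1) (enc_case (enc_subr 39 50 h1) (enc_pnc _ 0) (enc_subr 44187 8750 (enc_scale 1133 175 h1))) (enc_case (kf6q1_15.enc h1 h2) (enc_subr 15851 10000 (enc_scale 1199 500 h1)) (enc_add (enc_rat _ 5731 10000) (enc_mul (enc_norm (kf6q1_15.enc h1 h2)) (enc_norm (enc_scale 80 3 (enc_subr 5731 10000 (jnK6q1.enc h2)))))))))) (enc_add (enc_scale 2 5 (kf3q1.enc h1 h2)) (enc_scale 3 5 (kf7q1.enc h1 h2)))))⟩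
noncomputable def jnX6q1_5 : Fn1 := ⟨_, _, fun h1 => (c3g.enc (enc_rat _ 15 16))⟩
noncomputable def jnX6q1_18 : Fn1 := ⟨_, _, fun h1 => (enc_subr 15 32 (enc_scale 1 3 (jnX6q1_5.enc h1)))⟩
noncomputable def jnX6q1 : Fn1 := ⟨_, _, fun h1 => (enc_norm (enc_mul (enc_norm (enc_add (enc_scale 2 5 (enc_subr 3 2 (enc_neg (enc_scale 559 2000 (enc_sub (enc_rat _ 1 16) (enc_scale 5 2 (enc_sub (enc_pnc _ 1) h1))))))) (enc_scale 3 5 (enc_subr 3 2 (enc_add (alg.enc (enc_norm (jnX6q1_18.enc h1)) h1) (beg.enc (enc_norm (jnX6q1_18.enc h1)) h1)))))) (enc_inv (enc_add (enc_scale 2 5 (enc_add (swg.enc (enc_rat _ 15 16)) (enc_rat _ 1 2))) (enc_scale 3 5 (jnX6q1_5.enc h1))))))⟩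
noncomputable def xt6q1_3 : Fn2 := ⟨_, _, fun h1 h2 => (enc_sub (enc_pnc _ 1) h2)⟩
noncomputable def xt6q1_59 : Fn2 := ⟨_, _, fun h1 h2 => (enc_subr 9 10 h1)⟩
noncomputable def xt6q1_75 : Fn2 := ⟨_, _, fun h1 h2 => (enc_sub (enc_neg (enc_rat _ 4831 5000)) (enc_scale 101 125 (xt6q1_3.enc h1 h2)))⟩
noncomputable def xt6q1 : Fn2 := ⟨_, _, fun h1 h2 => (enc_norm (enc_case (enc_add (enc_subn 1 h1) (enc_rat _ 1 16)) (enc_mul (cv6m.enc h1) (enc_norm (enc_case (enc_subr 39 50 h1) (enc_case (enc_subr 29 50 h1) (enc_add (enc_subr 8949 16000 (enc_neg (enc_scale 3143 8000 h1))) (enc_mul (enc_norm (xt6q1_3.enc h1 h2)) (enc_norm (enc_subr 13861 2000 (enc_scale 207 40 h1))))) (enc_case (enc_subr 17 25 h1) (enc_add (enc_subr 60567 125000 (enc_neg (enc_scale 2609 5000 h1))) (enc_mul (enc_norm (xt6q1_3.enc h1 h2)) (enc_norm (enc_subr 1198 125 (enc_scale 39 4 h1))))) (enc_add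 (enc_subr 54991 125000 (enc_neg (enc_scale 2937 5000 h1))) (enc_mul (enc_norm (xt6q1_3.enc h1 h2)) (enc_norm (enc_subr 5089 625 (enc_scale 763 100 h1))))))) (enc_case (enc_subr 17 20 h1) (enc_add (enc_subr 164419 350000 (enc_neg (enc_scale 961 1750 h1))) (enc_mul (enc_norm (xt6q1_3.enc h1 h2)) (enc_norm (enc_subr 53791 7000 (enc_scale 493 70 h1))))) (enc_case (xt6q1_59.enc h1 h2) (enc_add (enc_subr 1351 3125 (enc_neg (enc_scale 1483 2500 h1))) (enc_mul (enc_norm (xt6q1_3.enc h1 h2)) (enc_norm (enc_subr 4207 250 (enc_scale 89 5 h1))))) (enc_add (xt6q1_75.enc h1 h2) (enc_mul (enc_norm (xt6q1_59.enc h1 h2)) (enc_norm (enc_scale 80 3 (enc_sub (jnX6q1.enc h2) (xt6q1_75.enc h1 h2))))))))))) (enc_add (enc_scale 2 5 (xt3q1.enc h1 h2)) (enc_scale 3 5 (xt7q1.enc h1 h2)))))⟩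
noncomputable def l6q1 : Fn2 := ⟨_, _, fun h1 h2 => (enc_norm (enc_mul (lamg.enc h2) (enc_norm (enc_add (cv6m.enc h1) (xt6q1.enc h1 h2)))))⟩
noncomputable def cv6p : Fn1 := ⟨_, _, fun h1 => (enc_norm (enc_add (enc_scale 2 5 (enc_subr 1 2 (swg.enc h1))) (enc_scale 3 5 (c3g.enc h1))))⟩
noncomputable def cx6p : Fn2 := ⟨_, _, fun h1 h2 => (cv6p.enc h1)⟩
noncomputable def kf6q2 : Fn2 := ⟨_, _, fun h1 h2 => (enc_norm (enc_mul (cv6p.enc h1) (enc_norm (enc_case (enc_subr 27 25 h1) (enc_sub (enc_rat _ 1039 1250) (enc_scale 13 50 h1)) (enc_case (enc_subr 57 50 h1) (enc_subr 3319 625 (enc_scale 407 75 h1)) (enc_case (enc_subr 61 50 h1) (enc_sub (enc_rat _ 13359 1000) (enc_scale 219 20 h1)) (enc_pnc _ 0)))))))⟩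
noncomputable def xt6q2_3 : Fn2 := ⟨_, _, fun h1 h2 => (enc_sub (enc_pnc _ 1) h2)⟩
noncomputable def xt6q2 : Fn2 := ⟨_, _, fun h1 h2 => (enc_norm (enc_mul (cv6p.enc h1) (enc_norm (enc_case (enc_subr 57 50 h1) (enc_case (enc_subr 26 25 h1) (enc_add (enc_subr 6859 10000 (enc_neg (enc_scale 1407 4000 h1))) (enc_mul (enc_norm (xt6q2_3.enc h1 h2)) (enc_norm (enc_subr 42733 1000 (enc_scale 1593 40 h1))))) (enc_case (enc_subr 27 25 h1) (enc_add (enc_subr 26579 25000 (enc_scale 11 1000 h1)) (enc_mul (enc_norm (xt6q2_3.enc h1 h2)) (enc_norm (enc_sub (enc_rat _ 24503 1000) (enc_scale 993 40 h1))))) (enc_add (enc_subr 59251 50000 (enc_scale 743 6000 h1)) (enc_mul (enc_norm (xt6q2_3.enc h1 h2)) (enc_norm (enc_subr 623 500 (enc_neg (enc_scale 59 60 h1)))))))) (enc_case (enc_subr 33 25 h1) (enc_case (enc_subr 61 50 h1) (enc_add (enc_subr 135279 100000 (enc_scale 271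 1000 h1)) (enc_mul (enc_norm (xt6q2_3.enc h1 h2)) (enc_norm (enc_subr 723 160 (enc_scale 151 80 h1))))) (enc_add (enc_subr 979809 500000 (enc_scale 1921 2500 h1)) (enc_mul (enc_norm (xt6q2_3.enc h1 h2)) (enc_norm (enc_subr 22731 5000 (enc_scale 191 100 h1)))))) (enc_case (enc_subr 71 50 h1) (enc_add (enc_subr 37611 20000 (enc_scale 1417 2000 h1)) (enc_mul (enc_norm (xt6q2_3.enc h1 h2)) (enc_norm (enc_sub (enc_rat _ 30777 1000) (enc_scale 497 20 h1))))) (enc_add (enc_subr 752149 400000 (enc_scale 5667 8000 h1)) (enc_mul (enc_norm (xt6q2_3.enc h1 h2)) (enc_norm (enc_subr 39269 4000 (enc_scale 299 80 h1)))))))))))⟩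
noncomputable def l6q2 : Fn2 := ⟨_, _, fun h1 h2 => (enc_norm (enc_mul (lamg.enc h2) (enc_norm (enc_add (cv6p.enc h1) (xt6q2.enc h1 h2)))))⟩
noncomputable def xc63 : Fn2 := ⟨_, _, fun h1 h2 => (enc_norm (enc_add (enc_scale 2 5 (enc_subr 1 2 (swg.enc (ycg.enc h1)))) (enc_scale 3 5 h1)))⟩
noncomputable def jnK6q3_4 : Fn1 := ⟨_, _, fun h1 => (c3g.enc (enc_rat _ 31 16))⟩
noncomputable def jnK6q3 : Fn1 := ⟨_, _, fun h1 => (enc_norm (enc_mul (enc_norm (enc_add (enc_rat _ 1377 100000) (enc_scale 3 5 (enc_mul (rkg.enc (enc_scale 2 3 (jnK6q3_4.enc h1)) h1) (enc_norm (enc_mul (jnK6q3_4.enc h1) (enc_inv (enc_add (enc_pnc _ 1) (enc_rat _ 31 32))))))))) (enc_inv (enc_add (enc_scale 2 5 (enc_subr 1 2 (swg.enc (enc_rat _ 31 16)))) (enc_scale 3 5 (jnK6q3_4.enc h1))))))⟩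
noncomputable def kfc63_16 : Fn2 := ⟨_, _, fun h1 h2 => (enc_subr 19 10 (ycg.enc h1))⟩
noncomputable def kfc63 : Fn2 := ⟨_, _, fun h1 h2 => (enc_norm (enc_case (enc_add (enc_subn 2 (ycg.enc h1)) (enc_rat _ 1 16)) (enc_mul (enc_norm (enc_add (enc_scale 2 5 (enc_subr 1 2 (swg.enc (ycg.enc h1)))) (enc_scale 3 5 h1))) (enc_norm (enc_case (enc_subr 37 20 (ycg.enc h1)) (enc_case (enc_subr 89 50 (ycg.enc h1)) (enc_pnc _ 0) (enc_subr 89 35000 (enc_scale 1 700 (ycg.enc h1)))) (enc_case (kfc63_16.enc h1 h2) (enc_sub (enc_rat _ 19 5000) (enc_scale 1 500 (ycg.enc h1))) (enc_mul (enc_norm (kfc63_16.enc h1 h2)) (enc_scale 80 3 (jnK6q3.enc h2))))))) (enc_add (enc_scale 2 5 (kf3q3.enc (ycg.enc h1) h2)) (enc_scale 3 5 (enc_mul (rkg.enc (enc_scale 2 3 h1) h2) (enc_norm (enc_mul h1 (enc_inv (enc_add (enc_pnc _ 1) (enc_half (ycg.enc h1)))))))))))⟩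
noncomputable def lc63_10 : Fn2 := ⟨_, _, fun h1 h2 => (enc_add (enc_scale 2 5 (enc_subr 1 2 (swg.enc (ycg.enc h1)))) (enc_scale 3 5 h1))⟩
noncomputable def lc63_12 : Fn2 := ⟨_, _, fun h1 h2 => (enc_sub (enc_pnc _ 1) h2)⟩
noncomputable def lc63 : Fn2 := ⟨_, _, fun h1 h2 => (enc_norm (enc_mul (lamg.enc h2) (enc_norm (enc_add (lc63_10.enc h1 h2) (enc_mul (enc_norm (lc63_10.enc h1 h2)) (enc_norm (enc_case (enc_subr 89 50 (ycg.enc h1)) (enc_case (enc_subr 79 50 (ycg.enc h1)) (enc_add (enc_subr 219031 100000 (enc_scale 183 200 (ycg.enc h1))) (enc_mul (enc_norm (lc63_12.enc h1 h2)) (enc_norm (enc_sub (enc_rat _ 55981 4000) (enc_scale 971 80 (ycg.enc h1)))))) (enc_case (enc_subr 42 25 (ycg.enc h1)) (enc_add (enc_subr 1274801 500000 (enc_scale 714 625 (ycg.enc h1))) (enc_mul (enc_norm (lc63_12.enc h1 h2)) (enc_norm (enc_sub (enc_rat _ 69917 5000) (enc_scale 1213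 100 (ycg.enc h1)))))) (enc_add (enc_subr 1292861 500000 (enc_scale 11639 10000 (ycg.enc h1))) (enc_mul (enc_norm (lc63_12.enc h1 h2)) (enc_norm (enc_subr 300607 5000 (enc_scale 1599 50 (ycg.enc h1)))))))) (enc_case (enc_subr 19 10 (ycg.enc h1)) (enc_case (enc_subr 37 20 (ycg.enc h1)) (enc_add (enc_subr 606903 175000 (enc_scale 11617 7000 (ycg.enc h1))) (enc_mul (enc_norm (lc63_12.enc h1 h2)) (enc_norm (enc_subr 739719 7000 (enc_scale 403 7 (ycg.enc h1)))))) (enc_add (enc_subr 581757 100000 (enc_scale 1831 625 (ycg.enc h1))) (enc_mul (enc_norm (lc63_12.enc h1 h2)) (enc_norm (enc_subr 105727 1000 (enc_scale 288 5 (ycg.enc h1))))))) (enc_case (enc_subr 31 16 (ycg.enc h1)) (enc_add (enc_subr 3988487 300000 (enc_scale 12872 1875 (ycg.enc h1))) (enc_mul (enc_norm (lc63_12.enc h1 h2)) (enc_norm (enc_sub (enc_rat _ 421387 3000) (enc_scale 5398 75 (ycg.enc h1))))))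 (enc_add (enc_sub (enc_rat _ 611 3125) (enc_scale 611 6250 (ycg.enc h1))) (enc_mul (enc_norm (lc63_12.enc h1 h2)) (enc_norm (enc_sub (enc_rat _ 4056 125) (enc_scale 2028 125 (ycg.enc h1)))))))))))))))⟩
noncomputable def cx7m : Fn2 := ⟨_, _, fun h1 h2 => (c3g.enc h1)⟩
noncomputable def xt7q0_7 : Fn2 := ⟨_, _, fun h1 h2 => (enc_sub (enc_scale 1 3 (c3g.enc h1)) (enc_half h1))⟩
noncomputable def xt7q0 : Fn2 := ⟨_, _, fun h1 h2 => (enc_norm (enc_subr 3 2 (enc_add (alg.enc (enc_norm (xt7q0_7.enc h1 h2)) h2) (beg.enc (enc_norm (xt7q0_7.enc h1 h2)) h2))))⟩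
noncomputable def l7q0 : Fn2 := ⟨_, _, fun h1 h2 => (enc_norm (enc_mul (lamg.enc h2) (enc_norm (enc_add (c3g.enc h1) (xt7q0.enc h1 h2)))))⟩
noncomputable def l7q1 : Fn2 := ⟨_, _, fun h1 h2 => (enc_norm (enc_mul (lamg.enc h2) (enc_norm (enc_add (c3g.enc h1) (xt7q1.enc h1 h2)))))⟩
noncomputable def cx7p : Fn2 := ⟨_, _, fun h1 h2 => (c3g.enc h1)⟩
noncomputable def kf7q2_10 : Fn2 := ⟨_, _, fun h1 h2 => (enc_sub (enc_half h1) (enc_scale 1 3 (c3g.enc h1)))⟩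
noncomputable def kf7q2 : Fn2 := ⟨_, _, fun h1 h2 => (enc_norm (enc_mul (rkg.enc (enc_norm (kf7q2_10.enc h1 h2)) h2) (enc_norm (enc_sub (enc_rat _ 3 2) (enc_mul (enc_norm (enc_scale 3 4 (kf7q2_10.enc h1 h2))) (enc_inv (enc_add (enc_pnc _ 1) (enc_add (enc_half (c3g.enc h1)) (enc_scale 1 4 h1)))))))))⟩
noncomputable def xt7q2_7 : Fn2 := ⟨_, _, fun h1 h2 => (enc_sub (enc_half h1) (enc_scale 1 3 (c3g.enc h1)))⟩
noncomputable def xt7q2 : Fn2 := ⟨_, _, fun h1 h2 => (enc_norm (enc_subr 3 2 (enc_sub (enc_nat 2 (alg.enc (enc_norm (xt7q2_7.enc h1 h2)) h2)) (beg.enc (enc_norm (xt7q2_7.enc h1 h2)) h2))))⟩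
noncomputable def l7q2 : Fn2 := ⟨_, _, fun h1 h2 => (enc_norm (enc_mul (lamg.enc h2) (enc_norm (enc_add (c3g.enc h1) (xt7q2.enc h1 h2)))))⟩
noncomputable def xc73 : Fn2 := ⟨_, _, fun h1 h2 => h1⟩
noncomputable def kfc73 : Fn2 := ⟨_, _, fun h1 h2 => (enc_norm (enc_mul (rkg.enc (enc_scale 2 3 h1) h2) (enc_norm (enc_mul h1 (enc_inv (enc_add (enc_pnc _ 1) (enc_half (ycg.enc h1))))))))⟩
noncomputable def lc73_8 : Fn2 := ⟨_, _, fun h1 h2 => (enc_sub (enc_half (ycg.enc h1)) (enc_scale 1 3 h1))⟩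
noncomputable def lc73_15 : Fn2 := ⟨_, _, fun h1 h2 => (enc_scale 2 3 h1)⟩
noncomputable def lc73 : Fn2 := ⟨_, _, fun h1 h2 => (enc_norm (enc_mul (lamg.enc h2) (enc_norm (enc_add h1 (enc_case (enc_subn 3 (enc_sq (ycg.enc h1))) (enc_subr 3 2 (enc_sub (enc_nat 2 (alg.enc (enc_norm (lc73_8.enc h1 h2)) h2)) (beg.enc (enc_norm (lc73_8.enc h1 h2)) h2))) (enc_sub (enc_nat 2 (beg.enc (lc73_15.enc h1 h2) h2)) (alg.enc (lc73_15.enc h1 h2) h2)))))))⟩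
noncomputable def cv1p : Fn1 := ⟨_, _, fun h1 => (enc_norm (enc_add (enc_scale 4 5 (c1g.enc h1)) (enc_scale 1 5 (enc_subr 1 2 (swg.enc h1)))))⟩
noncomputable def cx1p : Fn2 := ⟨_, _, fun h1 h2 => (cv1p.enc h1)⟩
noncomputable def kf0q2_9 : Fn2 := ⟨_, _, fun h1 h2 => (enc_sub (enc_half h1) (c1g.enc h1))⟩
noncomputable def kf0q2 : Fn2 := ⟨_, _, fun h1 h2 => (enc_norm (enc_case (enc_sub (enc_pnc _ 1) (enc_scale 3 4 (enc_sq h1))) (enc_pnc _ 0) (enc_mul (rkg.enc (enc_norm (kf0q2_9.enc h1 h2)) h2) (enc_norm (enc_sub (enc_rat _ 1 2) (enc_mul (enc_norm (enc_scale 3 4 (kf0q2_9.enc h1 h2))) (enc_inv (enc_add (enc_pnc _ 1) (enc_add (enc_half (c1g.enc h1)) (enc_scale 3 4 h1))))))))))⟩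
noncomputable def kf1q2 : Fn2 := ⟨_, _, fun h1 h2 => (enc_norm (enc_case (enc_subr 1 16 (enc_subn 1 h1)) (enc_add (enc_scale 4 5 (kf0q2.enc h1 h2)) (enc_scale 1 5 (kf3q2.enc h1 h2))) (enc_mul (cv1p.enc h1) (enc_norm (enc_case (enc_subr 11 10 h1) (enc_add (jnK1q2.enc h2) (enc_mul (enc_norm (enc_subr 17 16 h1)) (enc_norm (enc_scale 80 3 (enc_sub (enc_rat _ 1 10000) (jnK1q2.enc h2)))))) (enc_case (enc_subr 577 500 h1) (enc_sub (enc_rat _ 577 270000) (enc_scale 1 540 h1)) (enc_pnc _ 0)))))))⟩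
noncomputable def xt0q2_6 : Fn2 := ⟨_, _, fun h1 h2 => (enc_sub (enc_half h1) (c1g.enc h1))⟩
noncomputable def xt0q2 : Fn2 := ⟨_, _, fun h1 h2 => (enc_norm (enc_case (enc_sub (enc_pnc _ 1) (enc_scale 3 4 (enc_sq h1))) (enc_pnc _ 0) (enc_subr 1 2 (enc_sub (alg.enc (enc_norm (xt0q2_6.enc h1 h2)) h2) (beg.enc (enc_norm (xt0q2_6.enc h1 h2)) h2)))))⟩
noncomputable def xt1q2_3 : Fn2 := ⟨_, _, fun h1 h2 => (enc_sub (enc_pnc _ 1) h2)⟩
noncomputable def xt1q2_5 : Fn2 := ⟨_, _, fun h1 h2 => (enc_subr 231 200 h1)⟩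
noncomputable def xt1q2_7 : Fn2 := ⟨_, _, fun h1 h2 => (enc_subr 11 10 h1)⟩
noncomputable def xt1q2_13 : Fn2 := ⟨_, _, fun h1 h2 => (enc_sub (enc_neg (enc_rat _ 2417 2000)) (enc_scale 6813 1000 (xt1q2_3.enc h1 h2)))⟩
noncomputable def xt1q2 : Fn2 := ⟨_, _, fun h1 h2 => (enc_norm (enc_case (enc_subr 1 16 (enc_subn 1 h1)) (enc_add (enc_scale 4 5 (xt0q2.enc h1 h2)) (enc_scale 1 5 (xt3q2.enc h1 h2))) (enc_mul (cv1p.enc h1) (enc_norm (enc_case (xt1q2_5.enc h1 h2) (enc_case (xt1q2_7.enc h1 h2) (enc_add (jnX1q2.enc h2) (enc_mul (enc_norm (enc_subr 17 16 h1)) (enc_norm (enc_scale 80 3 (enc_sub (xt1q2_13.enc h1 h2) (jnX1q2.enc h2)))))) (enc_case (enc_subr 577 500 h1) (enc_add (xt1q2_13.enc h1 h2) (enc_mul (enc_norm (xt1q2_7.enc h1 h2)) (enc_norm (enc_scale 500 27 (enc_sub (flg.enc h2) (xt1q2_13.enc h1 h2)))))) (flg.enc h2))) (enc_case (enc_subr 33 25 h1) (enc_case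 (enc_subr 61 50 h1) (enc_add (flg.enc h2) (enc_mul (enc_norm (xt1q2_5.enc h1 h2)) (enc_norm (enc_scale 200 13 (enc_sub (enc_sub (enc_neg (enc_rat _ 42261 50000)) (enc_scale 418 25 (xt1q2_3.enc h1 h2))) (flg.enc h2)))))) (enc_add (enc_subr 201331 125000 (enc_scale 3137 5000 h1)) (enc_mul (enc_norm (xt1q2_3.enc h1 h2)) (enc_norm (enc_subr 2567 20 (enc_scale 183 2 h1)))))) (enc_case (enc_subr 71 50 h1) (enc_add (enc_subr 402629 250000 (enc_scale 6273 10000 h1)) (enc_mul (enc_norm (xt1q2_3.enc h1 h2)) (enc_norm (enc_subr 26602 625 (enc_scale 2651 100 h1))))) (enc_add (enc_subr 322089 200000 (enc_scale 2509 4000 h1)) (enc_mul (enc_norm (xt1q2_3.enc h1 h2)) (enc_norm (enc_subr 66567 2000 (enc_scale 799 40 h1))))))))))))⟩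
noncomputable def l1q2 : Fn2 := ⟨_, _, fun h1 h2 => (enc_norm (enc_mul (lamg.enc h2) (enc_norm (enc_add (cv1p.enc h1) (xt1q2.enc h1 h2)))))⟩
noncomputable def cv2p : Fn1 := ⟨_, _, fun h1 => (enc_norm (enc_add (enc_scale 2 5 (c1g.enc h1)) (enc_scale 3 5 (enc_subr 1 2 (swg.enc h1)))))⟩
noncomputable def cx2p : Fn2 := ⟨_, _, fun h1 h2 => (cv2p.enc h1)⟩
noncomputable def kf2q2 : Fn2 := ⟨_, _, fun h1 h2 => (enc_norm (enc_case (enc_subr 1 16 (enc_subn 1 h1)) (enc_add (enc_scale 2 5 (kf0q2.enc h1 h2)) (enc_scale 3 5 (kf3q2.enc h1 h2))) (enc_mul (cv2p.enc h1) (enc_norm (enc_case (enc_subr 23 20 h1) (enc_case (enc_subr 11 10 h1) (enc_add (jnK2q2.enc h2) (enc_mul (enc_norm (enc_subr 17 16 h1)) (enc_norm (enc_scale 80 3 (enc_sub (enc_rat _ 2327 5000) (jnK2q2.enc h2)))))) (enc_sub (enc_rat _ 34653 2500) (enc_scale 6089 500 h1))) (enc_case (enc_subr 61 50 h1) (enc_subr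 2501 1000 (enc_scale 41 20 h1)) (enc_pnc _ 0)))))))⟩
noncomputable def xt2q2_3 : Fn2 := ⟨_, _, fun h1 h2 => (enc_sub (enc_pnc _ 1) h2)⟩
noncomputable def xt2q2 : Fn2 := ⟨_, _, fun h1 h2 => (enc_norm (enc_case (enc_subr 1 16 (enc_subn 1 h1)) (enc_add (enc_scale 2 5 (xt0q2.enc h1 h2)) (enc_scale 3 5 (xt3q2.enc h1 h2))) (enc_mul (cv2p.enc h1) (enc_norm (enc_case (enc_subr 61 50 h1) (enc_case (enc_subr 11 10 h1) (enc_add (jnX2q2.enc h2) (enc_mul (enc_norm (enc_subr 17 16 h1)) (enc_norm (enc_scale 80 3 (enc_sub (enc_sub (enc_neg (enc_rat _ 13821 12500)) (enc_scale 137 100 (xt2q2_3.enc h1 h2))) (jnX2q2.enc h2)))))) (enc_case (enc_subr 23 20 h1) (enc_add (enc_subr 3739 25000 (enc_neg (enc_scale 2173 2500 h1))) (enc_mul (enc_norm (xt2q2_3.enc h1 h2)) (enc_norm (enc_sub (enc_rat _ 85181 500) (enc_scale 3903 25 h1))))) (enc_add (enc_subr 2149739 350000 (enc_scale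 3799 875 h1)) (enc_mul (enc_norm (xt2q2_3.enc h1 h2)) (enc_norm (enc_sub (enc_rat _ 100416 875) (enc_scale 3772 35 h1))))))) (enc_case (enc_subr 33 25 h1) (enc_add (enc_subr 805263 500000 (enc_scale 6273 10000 h1)) (enc_mul (enc_norm (xt2q2_3.enc h1 h2)) (enc_norm (enc_subr 2567 20 (enc_scale 183 2 h1))))) (enc_case (enc_subr 71 50 h1) (enc_add (enc_subr 805329 500000 (enc_scale 3137 5000 h1)) (enc_mul (enc_norm (xt2q2_3.enc h1 h2)) (enc_norm (enc_subr 26602 625 (enc_scale 2651 100 h1))))) (enc_add (enc_subr 322089 200000 (enc_scale 2509 4000 h1)) (enc_mul (enc_norm (xt2q2_3.enc h1 h2)) (enc_norm (enc_subr 66567 2000 (enc_scale 799 40 h1))))))))))))⟩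
noncomputable def l2q2 : Fn2 := ⟨_, _, fun h1 h2 => (enc_norm (enc_mul (lamg.enc h2) (enc_norm (enc_add (cv2p.enc h1) (xt2q2.enc h1 h2)))))⟩
noncomputable def kf4q1_3 : Fn2 := ⟨_, _, fun h1 h2 => (enc_sub (enc_pnc _ 1) h2)⟩
noncomputable def kf4q1 : Fn2 := ⟨_, _, fun h1 h2 => (enc_norm (enc_case (enc_add (enc_subn 1 h1) (enc_rat _ 1 16)) (enc_add (kf3q1.enc h1 h2) (enc_mul (enc_norm (enc_scale 44 3 (kf4q1_3.enc h1 h2))) (enc_norm (enc_sub (kf5q1.enc h1 h2) (kf3q1.enc h1 h2))))) (enc_add (kf3q1.enc h1 h2) (enc_mul (enc_norm (enc_scale 11 5 (kf4q1_3.enc h1 h2))) (enc_norm (enc_sub (kf7q1.enc h1 h2) (kf3q1.enc h1 h2)))))))⟩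
noncomputable def xt4q1_3 : Fn2 := ⟨_, _, fun h1 h2 => (enc_sub (enc_pnc _ 1) h2)⟩
noncomputable def xt4q1 : Fn2 := ⟨_, _, fun h1 h2 => (enc_norm (enc_case (enc_add (enc_subn 1 h1) (enc_rat _ 1 16)) (enc_add (xt3q1.enc h1 h2) (enc_mul (enc_norm (enc_scale 44 3 (xt4q1_3.enc h1 h2))) (enc_norm (enc_sub (xt5q1.enc h1 h2) (xt3q1.enc h1 h2))))) (enc_add (xt3q1.enc h1 h2) (enc_mul (enc_norm (enc_scale 11 5 (xt4q1_3.enc h1 h2))) (enc_norm (enc_sub (xt7q1.enc h1 h2) (xt3q1.enc h1 h2)))))))⟩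
noncomputable def l4q1 : Fn2 := ⟨_, _, fun h1 h2 => (enc_norm (enc_mul (lamg.enc h2) (enc_norm (enc_add (cv4m.enc h1 h2) (xt4q1.enc h1 h2)))))⟩
noncomputable def cv4p_6 : Fn2 := ⟨_, _, fun h1 h2 => (enc_subr 1 2 (swg.enc h1))⟩
noncomputable def cv4p : Fn2 := ⟨_, _, fun h1 h2 => (enc_norm (enc_add (cv4p_6.enc h1 h2) (enc_mul (enc_norm (enc_scale 11 5 (enc_sub (enc_pnc _ 1) h2))) (enc_norm (enc_sub (c3g.enc h1) (cv4p_6.enc h1 h2))))))⟩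
noncomputable def kf4q2 : Fn2 := ⟨_, _, fun h1 h2 => (enc_norm (enc_add (kf3q2.enc h1 h2) (enc_mul (enc_norm (enc_scale 44 3 (enc_sub (enc_pnc _ 1) h2))) (enc_norm (enc_sub (kf5q2.enc h1 h2) (kf3q2.enc h1 h2))))))⟩
noncomputable def xt4q2 : Fn2 := ⟨_, _, fun h1 h2 => (enc_norm (enc_add (xt3q2.enc h1 h2) (enc_mul (enc_norm (enc_scale 44 3 (enc_sub (enc_pnc _ 1) h2))) (enc_norm (enc_sub (xt5q2.enc h1 h2) (xt3q2.enc h1 h2))))))⟩
noncomputable def l4q2 : Fn2 := ⟨_, _, fun h1 h2 => (enc_norm (enc_mul (lamg.enc h2) (enc_norm (enc_add (cv4p.enc h1 h2) (xt4q2.enc h1 h2)))))⟩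
noncomputable def xc43_6 : Fn2 := ⟨_, _, fun h1 h2 => (enc_subr 1 2 (swg.enc (ycg.enc h1)))⟩
noncomputable def xc43 : Fn2 := ⟨_, _, fun h1 h2 => (enc_norm (enc_add (xc43_6.enc h1 h2) (enc_mul (enc_norm (enc_scale 11 5 (enc_sub (enc_pnc _ 1) h2))) (enc_norm (enc_sub h1 (xc43_6.enc h1 h2))))))⟩
noncomputable def kfc43_9 : Fn2 := ⟨_, _, fun h1 h2 => (kf3q3.enc (ycg.enc h1) h2)⟩
noncomputable def kfc43_21 : Fn2 := ⟨_, _, fun h1 h2 => (enc_subr 19 10 (ycg.enc h1))⟩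
noncomputable def kfc43 : Fn2 := ⟨_, _, fun h1 h2 => (enc_norm (enc_add (kfc43_9.enc h1 h2) (enc_mul (enc_norm (enc_scale 44 3 (enc_sub (enc_pnc _ 1) h2))) (enc_norm (enc_sub (enc_case (enc_add (enc_subn 2 (ycg.enc h1)) (enc_rat _ 1 16)) (enc_mul (enc_norm (enc_add (enc_scale 17 20 (enc_subr 1 2 (swg.enc (ycg.enc h1)))) (enc_scale 3 20 h1))) (enc_norm (enc_case (enc_subr 37 20 (ycg.enc h1)) (enc_case (enc_subr 89 50 (ycg.enc h1)) (enc_pnc _ 0) (enc_subr 89 17500 (enc_scale 1 350 (ycg.enc h1)))) (enc_case (kfc43_21.enc h1 h2) (enc_sub (enc_rat _ 113 10000) (enc_scale 3 500 (ycg.enc h1))) (enc_subr 1 10000 (enc_mul (enc_norm (kfc43_21.enc h1 h2)) (enc_norm (enc_scale 80 3 (enc_add (jnK5q3.enc h2) (enc_rat _ 1 10000)))))))))) (enc_add (enc_scale 17 20 (kfc43_9.enc h1 h2)) (enc_scale 3 20 (enc_mul (rkg.enc (enc_scale 2 3 h1) h2) (enc_norm (enc_mul h1 (enc_inv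 (enc_add (enc_pnc _ 1) (enc_half (ycg.enc h1)))))))))) (kfc43_9.enc h1 h2))))))⟩
noncomputable def lc43_7 : Fn2 := ⟨_, _, fun h1 h2 => (enc_subr 1 2 (swg.enc (ycg.enc h1)))⟩
noncomputable def lc43_9 : Fn2 := ⟨_, _, fun h1 h2 => (enc_sub (enc_pnc _ 1) h2)⟩
noncomputable def lc43_18 : Fn2 := ⟨_, _, fun h1 h2 => (xt3q3.enc (ycg.enc h1) h2)⟩
noncomputable def lc43_35 : Fn2 := ⟨_, _, fun h1 h2 => (enc_scale 1501 1000 (ycg.enc h1))⟩
noncomputable def lc43 : Fn2 := ⟨_, _, fun h1 h2 => (enc_norm (enc_mul (lamg.enc h2) (enc_norm (enc_add (enc_add (lc43_7.enc h1 h2) (enc_mul (enc_norm (enc_scale 11 5 (lc43_9.enc h1 h2))) (enc_norm (enc_sub h1 (lc43_7.enc h1 h2))))) (enc_add (lc43_18.enc h1 h2) (enc_mul (enc_norm (enc_scale 44 3 (lc43_9.enc h1 h2))) (enc_norm (enc_sub (enc_mul (enc_norm (enc_add (enc_scale 17 20 (lc43_7.enc h1 h2)) (enc_scale 3 20 h1))) (enc_norm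 (enc_case (enc_subr 89 50 (ycg.enc h1)) (enc_case (enc_subr 79 50 (ycg.enc h1)) (enc_add (enc_subr 1168503 400000 (enc_scale 12009 8000 (ycg.enc h1))) (enc_mul (enc_norm (lc43_9.enc h1 h2)) (enc_norm (enc_sub (enc_rat _ 183591 4000) (enc_scale 525 16 (ycg.enc h1)))))) (enc_case (enc_subr 42 25 (ycg.enc h1)) (enc_add (enc_subr 146053 50000 (lc43_35.enc h1 h2)) (enc_mul (enc_norm (lc43_9.enc h1 h2)) (enc_norm (enc_subr 41659 5000 (enc_scale 151 100 (ycg.enc h1)))))) (enc_add (enc_subr 730307 250000 (enc_scale 15011 10000 (ycg.enc h1))) (enc_mul (enc_norm (lc43_9.enc h1 h2)) (enc_norm (enc_subr 94579 5000 (enc_scale 781 100 (ycg.enc h1)))))))) (enc_case (enc_subr 19 10 (ycg.enc h1)) (enc_case (enc_subr 37 20 (ycg.enc h1)) (enc_add (enc_subr 58421 20000 (lc43_35.enc h1 h2)) (enc_mul (enc_norm (lc43_9.enc h1 h2)) (enc_norm (enc_subr 66321 3500 (enc_scale 274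 35 (ycg.enc h1)))))) (enc_add (enc_subr 146071 50000 (enc_scale 3753 2500 (ycg.enc h1))) (enc_mul (enc_norm (lc43_9.enc h1 h2)) (enc_norm (enc_subr 1897 100 (enc_scale 196 25 (ycg.enc h1))))))) (enc_case (enc_subr 31 16 (ycg.enc h1)) (enc_add (enc_subr 146109 50000 (enc_scale 1877 1250 (ycg.enc h1))) (enc_mul (enc_norm (lc43_9.enc h1 h2)) (enc_norm (enc_subr 138153 500 (enc_scale 3582 25 (ycg.enc h1)))))) (enc_add (enc_subr 1283 3125 (enc_scale 1283 6250 (ycg.enc h1))) (enc_mul (enc_norm (lc43_9.enc h1 h2)) (enc_norm (enc_sub (enc_rat _ 5196 125) (enc_scale 2598 125 (ycg.enc h1))))))))))) (lc43_18.enc h1 h2)))))))))⟩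
noncomputable def lm6m : Fn2 := ⟨_, _, fun h1 h2 => (enc_lam (enc_norm (enc_sub h1 (cv6m.enc h2))) (enc_sub (c3g.enc h2) (cv6m.enc h2)))⟩
noncomputable def lm5m : Fn2 := ⟨_, _, fun h1 h2 => (enc_lam (enc_norm (enc_sub h1 (cv5m.enc h2))) (enc_sub (cv6m.enc h2) (cv5m.enc h2)))⟩
noncomputable def lm4m : Fn3 := ⟨_, _, fun h1 h2 h3 => (enc_lam (enc_norm (enc_sub h1 (cv4m.enc h2 h3))) (enc_sub (cv5m.enc h2) (cv4m.enc h2 h3)))⟩
noncomputable def lm3m : Fn3 := ⟨_, _, fun h1 h2 h3 => (enc_lam (enc_norm (enc_sub h1 (cv3m.enc h2))) (enc_sub (cv4m.enc h2 h3) (cv3m.enc h2)))⟩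
noncomputable def lm2m : Fn2 := ⟨_, _, fun h1 h2 => (enc_lam (enc_norm (enc_sub h1 (cv2m.enc h2))) (enc_sub (cv3m.enc h2) (cv2m.enc h2)))⟩
noncomputable def lm1m : Fn2 := ⟨_, _, fun h1 h2 => (enc_lam (enc_norm (enc_sub h1 (cv1m.enc h2))) (enc_sub (cv2m.enc h2) (cv1m.enc h2)))⟩
noncomputable def lm0m : Fn2 := ⟨_, _, fun h1 h2 => (enc_lam (enc_norm (enc_sub h1 (c1g.enc h2))) (enc_sub (cv1m.enc h2) (c1g.enc h2)))⟩
noncomputable def rkfq0 : Fn3 := ⟨_, _, fun h1 h2 h3 => (enc_case (enc_sub h1 (cv1m.enc h2)) (enc_add (kf0q0.enc h2 h3) (enc_mul (lm0m.enc h1 h2) (enc_norm (enc_sub (kf1q0.enc h2 h3) (kf0q0.enc h2 h3))))) (enc_case (enc_sub h1 (cv2m.enc h2)) (enc_add (kf1q0.enc h2 h3) (enc_mul (lm1m.enc h1 h2) (enc_norm (enc_sub (kf2q0.enc h2 h3) (kf1q0.enc h2 h3))))) (enc_case (enc_sub h1 (cv3m.enc h2)) (enc_add (kf2q0.enc h2 h3) (enc_mul (lm2m.enc h1 h2) (enc_norm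 (enc_sub (kf3q0.enc h2 h3) (kf2q0.enc h2 h3))))) (enc_case (enc_sub h1 (cv4m.enc h2 h3)) (enc_add (kf3q0.enc h2 h3) (enc_mul (lm3m.enc h1 h2 h3) (enc_norm (enc_sub (kf4q0.enc h2 h3) (kf3q0.enc h2 h3))))) (enc_case (enc_sub h1 (cv5m.enc h2)) (enc_add (kf4q0.enc h2 h3) (enc_mul (lm4m.enc h1 h2 h3) (enc_norm (enc_sub (kf5q0.enc h2 h3) (kf4q0.enc h2 h3))))) (enc_case (enc_sub h1 (cv6m.enc h2)) (enc_add (kf5q0.enc h2 h3) (enc_mul (lm5m.enc h1 h2) (enc_norm (enc_sub (kf6q0.enc h2 h3) (kf5q0.enc h2 h3))))) (enc_add (kf6q0.enc h2 h3) (enc_mul (lm6m.enc h1 h2) (enc_norm (enc_sub (kf7q0.enc h2 h3) (kf6q0.enc h2 h3)))))))))))⟩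
noncomputable def rsfq0 : Fn3 := ⟨_, _, fun h1 h2 h3 => (enc_case h1 (enc_neg (rkfq0.enc (enc_neg h1) h2 h3)) (rkfq0.enc h1 h2 h3))⟩
noncomputable def rkfq1 : Fn3 := ⟨_, _, fun h1 h2 h3 => (enc_case (enc_sub h1 (cv1m.enc h2)) (enc_add (kf0q1.enc h2 h3) (enc_mul (lm0m.enc h1 h2) (enc_norm (enc_sub (kf1q1.enc h2 h3) (kf0q1.enc h2 h3))))) (enc_case (enc_sub h1 (cv2m.enc h2)) (enc_add (kf1q1.enc h2 h3) (enc_mul (lm1m.enc h1 h2) (enc_norm (enc_sub (kf2q1.enc h2 h3) (kf1q1.enc h2 h3))))) (enc_case (enc_sub h1 (cv3m.enc h2)) (enc_add (kf2q1.enc h2 h3) (enc_mul (lm2m.enc h1 h2) (enc_norm (enc_sub (kf3q1.enc h2 h3) (kf2q1.enc h2 h3))))) (enc_case (enc_sub h1 (cv4m.enc h2 h3)) (enc_add (kf3q1.enc h2 h3) (enc_mul (lm3m.enc h1 h2 h3) (enc_norm (enc_sub (kf4q1.enc h2 h3) (kf3q1.enc h2 h3))))) (enc_case (enc_sub h1 (cv5m.enc h2)) (enc_add (kf4q1.enc h2 h3) (enc_mul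 (lm4m.enc h1 h2 h3) (enc_norm (enc_sub (kf5q1.enc h2 h3) (kf4q1.enc h2 h3))))) (enc_case (enc_sub h1 (cv6m.enc h2)) (enc_add (kf5q1.enc h2 h3) (enc_mul (lm5m.enc h1 h2) (enc_norm (enc_sub (kf6q1.enc h2 h3) (kf5q1.enc h2 h3))))) (enc_add (kf6q1.enc h2 h3) (enc_mul (lm6m.enc h1 h2) (enc_norm (enc_sub (kf7q1.enc h2 h3) (kf6q1.enc h2 h3)))))))))))⟩
noncomputable def rsfq1 : Fn3 := ⟨_, _, fun h1 h2 h3 => (enc_case h1 (enc_neg (rkfq1.enc (enc_neg h1) h2 h3)) (rkfq1.enc h1 h2 h3))⟩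
noncomputable def lm6p : Fn2 := ⟨_, _, fun h1 h2 => (enc_lam (enc_norm (enc_sub h1 (cv6p.enc h2))) (enc_sub (c3g.enc h2) (cv6p.enc h2)))⟩
noncomputable def lm5p : Fn2 := ⟨_, _, fun h1 h2 => (enc_lam (enc_norm (enc_sub h1 (cv5p.enc h2))) (enc_sub (cv6p.enc h2) (cv5p.enc h2)))⟩
noncomputable def lm4p : Fn3 := ⟨_, _, fun h1 h2 h3 => (enc_lam (enc_norm (enc_sub h1 (cv4p.enc h2 h3))) (enc_sub (cv5p.enc h2) (cv4p.enc h2 h3)))⟩
noncomputable def lm3p : Fn3 := ⟨_, _, fun h1 h2 h3 => (enc_lam (enc_norm (enc_sub h1 (cv3p.enc h2))) (enc_sub (cv4p.enc h2 h3) (cv3p.enc h2)))⟩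
noncomputable def lm2p : Fn2 := ⟨_, _, fun h1 h2 => (enc_lam (enc_norm (enc_sub h1 (cv2p.enc h2))) (enc_sub (cv3p.enc h2) (cv2p.enc h2)))⟩
noncomputable def lm1p : Fn2 := ⟨_, _, fun h1 h2 => (enc_lam (enc_norm (enc_sub h1 (cv1p.enc h2))) (enc_sub (cv2p.enc h2) (cv1p.enc h2)))⟩
noncomputable def lm0p : Fn2 := ⟨_, _, fun h1 h2 => (enc_lam (enc_norm (enc_sub h1 (c1g.enc h2))) (enc_sub (cv1p.enc h2) (c1g.enc h2)))⟩
noncomputable def rkfq2 : Fn3 := ⟨_, _, fun h1 h2 h3 => (enc_case (enc_sub h1 (cv1p.enc h2)) (enc_add (kf0q2.enc h2 h3) (enc_mul (lm0p.enc h1 h2) (enc_norm (enc_sub (kf1q2.enc h2 h3) (kf0q2.enc h2 h3))))) (enc_case (enc_sub h1 (cv2p.enc h2)) (enc_add (kf1q2.enc h2 h3) (enc_mul (lm1p.enc h1 h2) (enc_norm (enc_sub (kf2q2.enc h2 h3) (kf1q2.enc h2 h3))))) (enc_case (enc_sub h1 (cv3p.enc h2)) (enc_add (kf2q2.enc h2 h3) (enc_mul (lm2p.enc h1 h2) (enc_norm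 (enc_sub (kf3q2.enc h2 h3) (kf2q2.enc h2 h3))))) (enc_case (enc_sub h1 (cv4p.enc h2 h3)) (enc_add (kf3q2.enc h2 h3) (enc_mul (lm3p.enc h1 h2 h3) (enc_norm (enc_sub (kf4q2.enc h2 h3) (kf3q2.enc h2 h3))))) (enc_case (enc_sub h1 (cv5p.enc h2)) (enc_add (kf4q2.enc h2 h3) (enc_mul (lm4p.enc h1 h2 h3) (enc_norm (enc_sub (kf5q2.enc h2 h3) (kf4q2.enc h2 h3))))) (enc_case (enc_sub h1 (cv6p.enc h2)) (enc_add (kf5q2.enc h2 h3) (enc_mul (lm5p.enc h1 h2) (enc_norm (enc_sub (kf6q2.enc h2 h3) (kf5q2.enc h2 h3))))) (enc_add (kf6q2.enc h2 h3) (enc_mul (lm6p.enc h1 h2) (enc_norm (enc_sub (kf7q2.enc h2 h3) (kf6q2.enc h2 h3)))))))))))⟩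
noncomputable def rsfq2 : Fn3 := ⟨_, _, fun h1 h2 h3 => (enc_case h1 (enc_neg (rkfq2.enc (enc_neg h1) h2 h3)) (rkfq2.enc h1 h2 h3))⟩
noncomputable def cv6r : Fn1 := ⟨_, _, fun h1 => (enc_norm (enc_add (enc_scale 2 5 (enc_subr 1 2 (swg.enc h1))) (enc_scale 3 5 (c3g.enc h1))))⟩
noncomputable def kf7q3 : Fn2 := ⟨_, _, fun h1 h2 => (enc_norm (enc_mul (rkg.enc (enc_scale 2 3 (c3g.enc h1)) h2) (enc_norm (enc_mul (c3g.enc h1) (enc_inv (enc_add (enc_pnc _ 1) (enc_half h1)))))))⟩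
noncomputable def kf6q3_15 : Fn2 := ⟨_, _, fun h1 h2 => (enc_subr 19 10 h1)⟩
noncomputable def kf6q3 : Fn2 := ⟨_, _, fun h1 h2 => (enc_norm (enc_case (enc_add (enc_subn 2 h1) (enc_rat _ 1 16)) (enc_mul (cv6r.enc h1) (enc_norm (enc_case (enc_subr 37 20 h1) (enc_case (enc_subr 89 50 h1) (enc_pnc _ 0) (enc_subr 89 35000 (enc_scale 1 700 h1))) (enc_case (kf6q3_15.enc h1 h2) (enc_sub (enc_rat _ 19 5000) (enc_scale 1 500 h1)) (enc_mul (enc_norm (kf6q3_15.enc h1 h2)) (enc_scale 80 3 (jnK6q3.enc h2))))))) (enc_add (enc_scale 2 5 (kf3q3.enc h1 h2)) (enc_scale 3 5 (kf7q3.enc h1 h2)))))⟩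
noncomputable def lm6r : Fn2 := ⟨_, _, fun h1 h2 => (enc_lam (enc_norm (enc_sub h1 (cv6r.enc h2))) (enc_sub (c3g.enc h2) (cv6r.enc h2)))⟩
noncomputable def cv5r : Fn1 := ⟨_, _, fun h1 => (enc_norm (enc_add (enc_scale 17 20 (enc_subr 1 2 (swg.enc h1))) (enc_scale 3 20 (c3g.enc h1))))⟩
noncomputable def kf5q3_15 : Fn2 := ⟨_, _, fun h1 h2 => (enc_subr 19 10 h1)⟩
noncomputable def kf5q3 : Fn2 := ⟨_, _, fun h1 h2 => (enc_norm (enc_case (enc_add (enc_subn 2 h1) (enc_rat _ 1 16)) (enc_mul (cv5r.enc h1) (enc_norm (enc_case (enc_subr 37 20 h1) (enc_case (enc_subr 89 50 h1) (enc_pnc _ 0) (enc_subr 89 17500 (enc_scale 1 350 h1))) (enc_case (kf5q3_15.enc h1 h2) (enc_sub (enc_rat _ 113 10000) (enc_scale 3 500 h1)) (enc_subr 1 10000 (enc_mul (enc_norm (kf5q3_15.enc h1 h2)) (enc_norm (enc_scale 80 3 (enc_add (jnK5q3.enc h2) (enc_rat _ 1 10000)))))))))) (enc_add (enc_scale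 17 20 (kf3q3.enc h1 h2)) (enc_scale 3 20 (kf7q3.enc h1 h2)))))⟩
noncomputable def lm5r : Fn2 := ⟨_, _, fun h1 h2 => (enc_lam (enc_norm (enc_sub h1 (cv5r.enc h2))) (enc_sub (cv6r.enc h2) (cv5r.enc h2)))⟩
noncomputable def kf4q3 : Fn2 := ⟨_, _, fun h1 h2 => (enc_norm (enc_add (kf3q3.enc h1 h2) (enc_mul (enc_norm (enc_scale 44 3 (enc_sub (enc_pnc _ 1) h2))) (enc_norm (enc_sub (kf5q3.enc h1 h2) (kf3q3.enc h1 h2))))))⟩
noncomputable def cv4r_6 : Fn2 := ⟨_, _, fun h1 h2 => (enc_subr 1 2 (swg.enc h1))⟩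
noncomputable def cv4r : Fn2 := ⟨_, _, fun h1 h2 => (enc_norm (enc_add (cv4r_6.enc h1 h2) (enc_mul (enc_norm (enc_scale 11 5 (enc_sub (enc_pnc _ 1) h2))) (enc_norm (enc_sub (c3g.enc h1) (cv4r_6.enc h1 h2))))))⟩
noncomputable def lm4r : Fn3 := ⟨_, _, fun h1 h2 h3 => (enc_lam (enc_norm (enc_sub h1 (cv4r.enc h2 h3))) (enc_sub (cv5r.enc h2) (cv4r.enc h2 h3)))⟩
noncomputable def lm3r : Fn3 := ⟨_, _, fun h1 h2 h3 => (enc_lam (enc_norm (enc_sub h1 (cv3r.enc h2))) (enc_sub (cv4r.enc h2 h3) (cv3r.enc h2)))⟩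
noncomputable def lm2r : Fn2 := ⟨_, _, fun h1 h2 => (enc_lam (enc_norm (enc_sub h1 (cv2r.enc h2))) (enc_sub (cv3r.enc h2) (cv2r.enc h2)))⟩
noncomputable def lm1r : Fn2 := ⟨_, _, fun h1 h2 => (enc_lam (enc_norm (enc_sub h1 (cv1r.enc h2))) (enc_sub (cv2r.enc h2) (cv1r.enc h2)))⟩
noncomputable def lm0r : Fn2 := ⟨_, _, fun h1 h2 => (enc_lam h1 (cv1r.enc h2))⟩
noncomputable def rkfq3 : Fn3 := ⟨_, _, fun h1 h2 h3 => (enc_case (enc_sub h1 (cv1r.enc h2)) (enc_mul (lm0r.enc h1 h2) (kf1q3.enc h2 h3)) (enc_case (enc_sub h1 (cv2r.enc h2)) (enc_add (kf1q3.enc h2 h3) (enc_mul (lm1r.enc h1 h2) (enc_norm (enc_sub (kf2q3.enc h2 h3) (kf1q3.enc h2 h3))))) (enc_case (enc_sub h1 (cv3r.enc h2)) (enc_add (kf2q3.enc h2 h3) (enc_mul (lm2r.enc h1 h2) (enc_norm (enc_sub (kf3q3.enc h2 h3) (kf2q3.enc h2 h3))))) (enc_case (enc_sub h1 (cv4r.enc h2 h3)) (enc_add (kf3q3.enc h2 h3) (enc_mul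 (lm3r.enc h1 h2 h3) (enc_norm (enc_sub (kf4q3.enc h2 h3) (kf3q3.enc h2 h3))))) (enc_case (enc_sub h1 (cv5r.enc h2)) (enc_add (kf4q3.enc h2 h3) (enc_mul (lm4r.enc h1 h2 h3) (enc_norm (enc_sub (kf5q3.enc h2 h3) (kf4q3.enc h2 h3))))) (enc_case (enc_sub h1 (cv6r.enc h2)) (enc_add (kf5q3.enc h2 h3) (enc_mul (lm5r.enc h1 h2) (enc_norm (enc_sub (kf6q3.enc h2 h3) (kf5q3.enc h2 h3))))) (enc_add (kf6q3.enc h2 h3) (enc_mul (lm6r.enc h1 h2) (enc_norm (enc_sub (kf7q3.enc h2 h3) (kf6q3.enc h2 h3)))))))))))⟩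
noncomputable def rsfq3 : Fn3 := ⟨_, _, fun h1 h2 h3 => (enc_case h1 (enc_neg (rkfq3.enc (enc_neg h1) h2 h3)) (rkfq3.enc h1 h2 h3))⟩
noncomputable def rxq0 : Fn3 := ⟨_, _, fun h1 h2 h3 => (enc_case (enc_sub h1 (cv1m.enc h2)) (enc_add (xt0q0.enc h2 h3) (enc_mul (lm0m.enc h1 h2) (enc_norm (enc_sub (xt1q0.enc h2 h3) (xt0q0.enc h2 h3))))) (enc_case (enc_sub h1 (cv2m.enc h2)) (enc_add (xt1q0.enc h2 h3) (enc_mul (lm1m.enc h1 h2) (enc_norm (enc_sub (xt2q0.enc h2 h3) (xt1q0.enc h2 h3))))) (enc_case (enc_sub h1 (cv3m.enc h2)) (enc_add (xt2q0.enc h2 h3) (enc_mul (lm2m.enc h1 h2) (enc_norm (enc_sub (xt3q0.enc h2 h3) (xt2q0.enc h2 h3))))) (enc_case (enc_sub h1 (cv4m.enc h2 h3)) (enc_add (xt3q0.enc h2 h3) (enc_mul (lm3m.enc h1 h2 h3) (enc_norm (enc_sub (xt4q0.enc h2 h3) (xt3q0.enc h2 h3))))) (enc_case (enc_sub h1 (cv5m.enc h2)) (enc_add (xt4q0.enc h2 h3) (enc_mul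 (lm4m.enc h1 h2 h3) (enc_norm (enc_sub (xt5q0.enc h2 h3) (xt4q0.enc h2 h3))))) (enc_case (enc_sub h1 (cv6m.enc h2)) (enc_add (xt5q0.enc h2 h3) (enc_mul (lm5m.enc h1 h2) (enc_norm (enc_sub (xt6q0.enc h2 h3) (xt5q0.enc h2 h3))))) (enc_add (xt6q0.enc h2 h3) (enc_mul (lm6m.enc h1 h2) (enc_norm (enc_sub (xt7q0.enc h2 h3) (xt6q0.enc h2 h3)))))))))))⟩
noncomputable def rlq0 : Fn3 := ⟨_, _, fun h1 h2 h3 => (enc_mul (lamg.enc h3) (enc_norm (enc_add h1 (enc_case h1 (enc_neg (rxq0.enc (enc_neg h1) h2 h3)) (rxq0.enc h1 h2 h3)))))⟩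
noncomputable def rxq1 : Fn3 := ⟨_, _, fun h1 h2 h3 => (enc_case (enc_sub h1 (cv1m.enc h2)) (enc_add (xt0q1.enc h2 h3) (enc_mul (lm0m.enc h1 h2) (enc_norm (enc_sub (xt1q1.enc h2 h3) (xt0q1.enc h2 h3))))) (enc_case (enc_sub h1 (cv2m.enc h2)) (enc_add (xt1q1.enc h2 h3) (enc_mul (lm1m.enc h1 h2) (enc_norm (enc_sub (xt2q1.enc h2 h3) (xt1q1.enc h2 h3))))) (enc_case (enc_sub h1 (cv3m.enc h2)) (enc_add (xt2q1.enc h2 h3) (enc_mul (lm2m.enc h1 h2) (enc_norm (enc_sub (xt3q1.enc h2 h3) (xt2q1.enc h2 h3))))) (enc_case (enc_sub h1 (cv4m.enc h2 h3)) (enc_add (xt3q1.enc h2 h3) (enc_mul (lm3m.enc h1 h2 h3) (enc_norm (enc_sub (xt4q1.enc h2 h3) (xt3q1.enc h2 h3))))) (enc_case (enc_sub h1 (cv5m.enc h2)) (enc_add (xt4q1.enc h2 h3) (enc_mul (lm4m.enc h1 h2 h3) (enc_norm (enc_sub (xt5q1.enc h2 h3) (xt4q1.enc h2 h3))))) (enc_case (enc_sub h1 (cv6m.enc h2)) (enc_add (xt5q1.enc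 h2 h3) (enc_mul (lm5m.enc h1 h2) (enc_norm (enc_sub (xt6q1.enc h2 h3) (xt5q1.enc h2 h3))))) (enc_add (xt6q1.enc h2 h3) (enc_mul (lm6m.enc h1 h2) (enc_norm (enc_sub (xt7q1.enc h2 h3) (xt6q1.enc h2 h3)))))))))))⟩
noncomputable def rlq1 : Fn3 := ⟨_, _, fun h1 h2 h3 => (enc_mul (lamg.enc h3) (enc_norm (enc_add h1 (enc_case h1 (enc_neg (rxq1.enc (enc_neg h1) h2 h3)) (rxq1.enc h1 h2 h3)))))⟩
noncomputable def rxq2 : Fn3 := ⟨_, _, fun h1 h2 h3 => (enc_case (enc_sub h1 (cv1p.enc h2)) (enc_add (xt0q2.enc h2 h3) (enc_mul (lm0p.enc h1 h2) (enc_norm (enc_sub (xt1q2.enc h2 h3) (xt0q2.enc h2 h3))))) (enc_case (enc_sub h1 (cv2p.enc h2)) (enc_add (xt1q2.enc h2 h3) (enc_mul (lm1p.enc h1 h2) (enc_norm (enc_sub (xt2q2.enc h2 h3) (xt1q2.enc h2 h3))))) (enc_case (enc_sub h1 (cv3p.enc h2)) (enc_add (xt2q2.enc h2 h3) (enc_mul (lm2p.enc h1 h2) (enc_norm (enc_sub (xt3q2.enc h2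 h3) (xt2q2.enc h2 h3))))) (enc_case (enc_sub h1 (cv4p.enc h2 h3)) (enc_add (xt3q2.enc h2 h3) (enc_mul (lm3p.enc h1 h2 h3) (enc_norm (enc_sub (xt4q2.enc h2 h3) (xt3q2.enc h2 h3))))) (enc_case (enc_sub h1 (cv5p.enc h2)) (enc_add (xt4q2.enc h2 h3) (enc_mul (lm4p.enc h1 h2 h3) (enc_norm (enc_sub (xt5q2.enc h2 h3) (xt4q2.enc h2 h3))))) (enc_case (enc_sub h1 (cv6p.enc h2)) (enc_add (xt5q2.enc h2 h3) (enc_mul (lm5p.enc h1 h2) (enc_norm (enc_sub (xt6q2.enc h2 h3) (xt5q2.enc h2 h3))))) (enc_add (xt6q2.enc h2 h3) (enc_mul (lm6p.enc h1 h2) (enc_norm (enc_sub (xt7q2.enc h2 h3) (xt6q2.enc h2 h3)))))))))))⟩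
noncomputable def rlq2 : Fn3 := ⟨_, _, fun h1 h2 h3 => (enc_mul (lamg.enc h3) (enc_norm (enc_add h1 (enc_case h1 (enc_neg (rxq2.enc (enc_neg h1) h2 h3)) (rxq2.enc h1 h2 h3)))))⟩
noncomputable def xt6q3_3 : Fn2 := ⟨_, _, fun h1 h2 => (enc_sub (enc_pnc _ 1) h2)⟩
noncomputable def xt6q3 : Fn2 := ⟨_, _, fun h1 h2 => (enc_norm (enc_mul (cv6r.enc h1) (enc_norm (enc_case (enc_subr 89 50 h1) (enc_case (enc_subr 79 50 h1) (enc_add (enc_subr 219031 100000 (enc_scale 183 200 h1)) (enc_mul (enc_norm (xt6q3_3.enc h1 h2)) (enc_norm (enc_sub (enc_rat _ 55981 4000) (enc_scale 971 80 h1))))) (enc_case (enc_subr 42 25 h1) (enc_add (enc_subr 1274801 500000 (enc_scale 714 625 h1)) (enc_mul (enc_norm (xt6q3_3.enc h1 h2)) (enc_norm (enc_sub (enc_rat _ 69917 5000) (enc_scale 1213 100 h1))))) (enc_add (enc_subr 1292861 500000 (enc_scale 11639 10000 h1)) (enc_mul (enc_norm (xt6q3_3.enc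 h1 h2)) (enc_norm (enc_subr 300607 5000 (enc_scale 1599 50 h1))))))) (enc_case (enc_subr 19 10 h1) (enc_case (enc_subr 37 20 h1) (enc_add (enc_subr 606903 175000 (enc_scale 11617 7000 h1)) (enc_mul (enc_norm (xt6q3_3.enc h1 h2)) (enc_norm (enc_subr 739719 7000 (enc_scale 403 7 h1))))) (enc_add (enc_subr 581757 100000 (enc_scale 1831 625 h1)) (enc_mul (enc_norm (xt6q3_3.enc h1 h2)) (enc_norm (enc_subr 105727 1000 (enc_scale 288 5 h1)))))) (enc_case (enc_subr 31 16 h1) (enc_add (enc_subr 3988487 300000 (enc_scale 12872 1875 h1)) (enc_mul (enc_norm (xt6q3_3.enc h1 h2)) (enc_norm (enc_sub (enc_rat _ 421387 3000) (enc_scale 5398 75 h1))))) (enc_add (enc_sub (enc_rat _ 611 3125) (enc_scale 611 6250 h1)) (enc_mul (enc_norm (xt6q3_3.enc h1 h2)) (enc_norm (enc_sub (enc_rat _ 4056 125) (enc_scale 2028 125 h1)))))))))))⟩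
noncomputable def xt7q3_7 : Fn2 := ⟨_, _, fun h1 h2 => (enc_sub (enc_half h1) (enc_scale 1 3 (c3g.enc h1)))⟩
noncomputable def xt7q3_14 : Fn2 := ⟨_, _, fun h1 h2 => (enc_scale 2 3 (c3g.enc h1))⟩
noncomputable def xt7q3 : Fn2 := ⟨_, _, fun h1 h2 => (enc_norm (enc_case (enc_subn 3 (enc_sq h1)) (enc_subr 3 2 (enc_sub (enc_nat 2 (alg.enc (enc_norm (xt7q3_7.enc h1 h2)) h2)) (beg.enc (enc_norm (xt7q3_7.enc h1 h2)) h2))) (enc_sub (enc_nat 2 (beg.enc (xt7q3_14.enc h1 h2) h2)) (alg.enc (xt7q3_14.enc h1 h2) h2))))⟩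
noncomputable def xt5q3_3 : Fn2 := ⟨_, _, fun h1 h2 => (enc_sub (enc_pnc _ 1) h2)⟩
noncomputable def xt5q3_20 : Fn2 := ⟨_, _, fun h1 h2 => (enc_scale 1501 1000 h1)⟩
noncomputable def xt5q3 : Fn2 := ⟨_, _, fun h1 h2 => (enc_norm (enc_mul (cv5r.enc h1) (enc_norm (enc_case (enc_subr 89 50 h1) (enc_case (enc_subr 79 50 h1) (enc_add (enc_subr 1168503 400000 (enc_scale 12009 8000 h1)) (enc_mul (enc_norm (xt5q3_3.enc h1 h2)) (enc_norm (enc_sub (enc_rat _ 183591 4000) (enc_scale 525 16 h1))))) (enc_case (enc_subr 42 25 h1) (enc_add (enc_subr 146053 50000 (xt5q3_20.enc h1 h2)) (enc_mul (enc_norm (xt5q3_3.enc h1 h2)) (enc_norm (enc_subr 41659 5000 (enc_scale 151 100 h1))))) (enc_add (enc_subr 730307 250000 (enc_scale 15011 10000 h1)) (enc_mul (enc_norm (xt5q3_3.enc h1 h2)) (enc_norm (enc_subr 94579 5000 (enc_scale 781 100 h1))))))) (enc_case (enc_subr 19 10 h1)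 (enc_case (enc_subr 37 20 h1) (enc_add (enc_subr 58421 20000 (xt5q3_20.enc h1 h2)) (enc_mul (enc_norm (xt5q3_3.enc h1 h2)) (enc_norm (enc_subr 66321 3500 (enc_scale 274 35 h1))))) (enc_add (enc_subr 146071 50000 (enc_scale 3753 2500 h1)) (enc_mul (enc_norm (xt5q3_3.enc h1 h2)) (enc_norm (enc_subr 1897 100 (enc_scale 196 25 h1)))))) (enc_case (enc_subr 31 16 h1) (enc_add (enc_subr 146109 50000 (enc_scale 1877 1250 h1)) (enc_mul (enc_norm (xt5q3_3.enc h1 h2)) (enc_norm (enc_subr 138153 500 (enc_scale 3582 25 h1))))) (enc_add (enc_subr 1283 3125 (enc_scale 1283 6250 h1)) (enc_mul (enc_norm (xt5q3_3.enc h1 h2)) (enc_norm (enc_sub (enc_rat _ 5196 125) (enc_scale 2598 125 h1)))))))))))⟩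
noncomputable def xt4q3 : Fn2 := ⟨_, _, fun h1 h2 => (enc_norm (enc_add (xt3q3.enc h1 h2) (enc_mul (enc_norm (enc_scale 44 3 (enc_sub (enc_pnc _ 1) h2))) (enc_norm (enc_sub (xt5q3.enc h1 h2) (xt3q3.enc h1 h2))))))⟩
noncomputable def rxq3 : Fn3 := ⟨_, _, fun h1 h2 h3 => (enc_case (enc_sub h1 (cv1r.enc h2)) (enc_mul (lm0r.enc h1 h2) (xt1q3.enc h2 h3)) (enc_case (enc_sub h1 (cv2r.enc h2)) (enc_add (xt1q3.enc h2 h3) (enc_mul (lm1r.enc h1 h2) (enc_norm (enc_sub (xt2q3.enc h2 h3) (xt1q3.enc h2 h3))))) (enc_case (enc_sub h1 (cv3r.enc h2)) (enc_add (xt2q3.enc h2 h3) (enc_mul (lm2r.enc h1 h2) (enc_norm (enc_sub (xt3q3.enc h2 h3) (xt2q3.enc h2 h3))))) (enc_case (enc_sub h1 (cv4r.enc h2 h3)) (enc_add (xt3q3.enc h2 h3) (enc_mul (lm3r.enc h1 h2 h3) (enc_norm (enc_sub (xt4q3.enc h2 h3) (xt3q3.enc h2 h3))))) (enc_case (enc_sub h1 (cv5r.enc h2)) (enc_add (xt4q3.enc h2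 h3) (enc_mul (lm4r.enc h1 h2 h3) (enc_norm (enc_sub (xt5q3.enc h2 h3) (xt4q3.enc h2 h3))))) (enc_case (enc_sub h1 (cv6r.enc h2)) (enc_add (xt5q3.enc h2 h3) (enc_mul (lm5r.enc h1 h2) (enc_norm (enc_sub (xt6q3.enc h2 h3) (xt5q3.enc h2 h3))))) (enc_add (xt6q3.enc h2 h3) (enc_mul (lm6r.enc h1 h2) (enc_norm (enc_sub (xt7q3.enc h2 h3) (xt6q3.enc h2 h3)))))))))))⟩
noncomputable def rlq3 : Fn3 := ⟨_, _, fun h1 h2 h3 => (enc_mul (lamg.enc h3) (enc_norm (enc_add h1 (enc_case h1 (enc_neg (rxq3.enc (enc_neg h1) h2 h3)) (rxq3.enc h1 h2 h3)))))⟩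
noncomputable def mug3 : Fn1 := ⟨_, _, fun h1 => (enc_inv (enc_add (enc_nat 2 (gsg.enc h1)) (enc_pnc _ 3)))⟩
noncomputable def lmug : Fn1 := ⟨_, _, fun h1 => (enc_norm (enc_add (enc_pnc _ 1) (enc_mul (lamg.enc h1) (mug3.enc h1))))⟩
noncomputable def b0g : Fn1 := ⟨_, _, fun h1 => (enc_norm (enc_mul (enc_norm (enc_sub (enc_pnc _ 1) (gsg.enc h1))) (enc_inv (ehg.enc h1))))⟩
noncomputable def dbg : Fn1 := ⟨_, _, fun h1 => (enc_norm (enc_neg (enc_mul (enc_norm (enc_nat 2 (enc_mul (b0g.enc h1) (cpg.enc h1)))) (enc_inv (enc_add (enc_nat 2 (gsg.enc h1)) h1)))))⟩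
noncomputable def rbg_3 : Fn2 := ⟨_, _, fun h1 h2 => (enc_sub (enc_pnc _ 1) h2)⟩
noncomputable def rbg_5 : Fn2 := ⟨_, _, fun h1 h2 => (enc_mul (hhg.enc h2) h1)⟩
noncomputable def rbg_10 : Fn2 := ⟨_, _, fun h1 h2 => (enc_nat 2 (b0g.enc h2))⟩
noncomputable def rbg_12 : Fn2 := ⟨_, _, fun h1 h2 => (enc_sub (enc_rat _ 18757 20000) (rbg_10.enc h1 h2))⟩
noncomputable def rbg_21 : Fn2 := ⟨_, _, fun h1 h2 => (enc_sub (enc_neg (enc_rat _ 280683 50000)) (rbg_10.enc h1 h2))⟩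
noncomputable def rbg_33 : Fn2 := ⟨_, _, fun h1 h2 => (enc_add (dbg.enc h2) (enc_mul (enc_norm (rbg_21.enc h1 h2)) (enc_norm (enc_mul (hhg.enc h2) (enc_norm (enc_sub (enc_rat _ 11 5) (zsg.enc h2)))))))⟩
noncomputable def rbg_34 : Fn2 := ⟨_, _, fun h1 h2 => (enc_mul (enc_norm (rbg_12.enc h1 h2)) (hhg.enc h2))⟩
noncomputable def rbg_37 : Fn2 := ⟨_, _, fun h1 h2 => (enc_sub h1 (rbg_3.enc h1 h2))⟩
noncomputable def rbg_44 : Fn2 := ⟨_, _, fun h1 h2 => (enc_sub (enc_rat _ 23151 3125) (rbg_10.enc h1 h2))⟩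
noncomputable def rbg_51 : Fn2 := ⟨_, _, fun h1 h2 => (enc_sub h1 (enc_scale 11 5 (rbg_3.enc h1 h2)))⟩
noncomputable def rbg : Fn2 := ⟨_, _, fun h1 h2 => (enc_norm (enc_case (rbg_37.enc h1 h2) (enc_add (b0g.enc h2) (enc_mul (enc_norm (rbg_12.enc h1 h2)) (enc_norm (rbg_5.enc h1 h2)))) (enc_case (enc_sub h1 (enc_scale 8 5 (rbg_3.enc h1 h2))) (enc_add (enc_add (b0g.enc h2) (enc_mul (enc_norm (rbg_3.enc h1 h2)) (enc_norm (rbg_34.enc h1 h2)))) (enc_mul (enc_norm (rbg_37.enc h1 h2)) (enc_norm (enc_scale 5 3 (enc_sub (enc_add (dbg.enc h2) (enc_mul (enc_norm (rbg_21.enc h1 h2)) (enc_norm (enc_mul (hhg.enc h2) (enc_norm (enc_sub (enc_rat _ 8 5) (zsg.enc h2))))))) (rbg_34.enc h1 h2)))))) (enc_case (rbg_51.enc h1 h2) (enc_add (enc_add (b0g.enc h2) (enc_mul (enc_norm (rbg_3.enc h1 h2)) (dbg.enc h2))) (enc_mul (enc_norm (rbg_21.enc h1 h2)) (enc_norm (enc_sub (rbg_5.enc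 h1 h2) (enc_mul (enc_norm (enc_mul (hhg.enc h2) (enc_norm (rbg_3.enc h1 h2)))) (zsg.enc h2)))))) (enc_case (enc_sub h1 (enc_scale 5 2 (rbg_3.enc h1 h2))) (enc_add (enc_add (b0g.enc h2) (enc_mul (enc_norm (rbg_3.enc h1 h2)) (enc_norm (rbg_33.enc h1 h2)))) (enc_mul (enc_norm (rbg_51.enc h1 h2)) (enc_norm (enc_scale 10 3 (enc_sub (enc_mul (enc_norm (rbg_44.enc h1 h2)) (enc_scale 5 2 (hhg.enc h2))) (rbg_33.enc h1 h2)))))) (enc_case (enc_subr 1 16 (rbg_5.enc h1 h2)) (enc_add (b0g.enc h2) (enc_mul (enc_norm (rbg_44.enc h1 h2)) (enc_norm (rbg_5.enc h1 h2)))) (enc_case (enc_subr 1 10 (rbg_5.enc h1 h2)) (enc_add (enc_mul (b0g.enc h2) (enc_norm (enc_sub (enc_pnc _ 1) (enc_nat 2 (rbg_5.enc h1 h2))))) (enc_sub (enc_rat _ 137617 100000) (enc_scale 18263 1250 (rbg_5.enc h1 h2)))) (enc_case (enc_subr 1 5 (rbg_5.enc h1 h2)) (enc_mul (enc_norm (enc_subr 8487 100000 (enc_scale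 4 5 (b0g.enc h2)))) (enc_norm (enc_nat 10 (enc_sub (enc_rat _ 1 5) (rbg_5.enc h1 h2))))) (enc_pnc _ 0)))))))))⟩
noncomputable def kb0q0 : Fn2 := ⟨_, _, fun h1 h2 => (rbg.enc h1 h2)⟩
noncomputable def kn0q0 : Fn2 := ⟨_, _, fun h1 h2 => (enc_norm (enc_add (enc_mul (lmug.enc h2) (kf0q0.enc h1 h2)) (enc_mul (mug3.enc h2) (kb0q0.enc h1 h2))))⟩
noncomputable def kb0q1_9 : Fn2 := ⟨_, _, fun h1 h2 => (enc_sub (c1g.enc h1) (enc_half h1))⟩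
noncomputable def kb0q1 : Fn2 := ⟨_, _, fun h1 h2 => (enc_norm (enc_mul (rbg.enc (enc_norm (kb0q1_9.enc h1 h2)) h2) (enc_norm (enc_add (enc_rat _ 1 2) (enc_mul (enc_norm (enc_scale 3 4 (kb0q1_9.enc h1 h2))) (enc_inv (enc_add (enc_pnc _ 1) (enc_add (enc_half (c1g.enc h1)) (enc_scale 3 4 h1)))))))))⟩
noncomputable def kn0q1 : Fn2 := ⟨_, _, fun h1 h2 => (enc_norm (enc_add (enc_mul (lmug.enc h2) (kf0q1.enc h1 h2)) (enc_mul (mug3.enc h2) (kb0q1.enc h1 h2))))⟩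
noncomputable def kbc02_9 : Fn2 := ⟨_, _, fun h1 h2 => (enc_sub (enc_half (yag.enc h1)) h1)⟩
noncomputable def kbc02 : Fn2 := ⟨_, _, fun h1 h2 => (enc_norm (enc_mul (rbg.enc (enc_norm (kbc02_9.enc h1 h2)) h2) (enc_norm (enc_sub (enc_rat _ 1 2) (enc_mul (enc_norm (enc_scale 3 4 (kbc02_9.enc h1 h2))) (enc_inv (enc_add (enc_pnc _ 1) (enc_add (enc_half h1) (enc_scale 3 4 (yag.enc h1))))))))))⟩
noncomputable def knc02 : Fn2 := ⟨_, _, fun h1 h2 => (enc_norm (enc_add (enc_mul (lmug.enc h2) (kfc02.enc h1 h2)) (enc_mul (mug3.enc h2) (kbc02.enc h1 h2))))⟩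
noncomputable def jnB1q0_11 : Fn1 := ⟨_, _, fun h1 => (enc_add (swg.enc (enc_rat _ 1 16)) (enc_rat _ 1 2))⟩
noncomputable def jnB1q0 : Fn1 := ⟨_, _, fun h1 => (enc_norm (enc_mul (enc_norm (enc_add (enc_scale 4 5 (rbg.enc (enc_rat _ 1 16) h1)) (enc_scale 1 5 (enc_mul (enc_norm (jnB1q0_11.enc h1)) (enc_norm (enc_add (b0g.enc h1) (enc_rat _ 25647 80000))))))) (enc_inv (enc_add (enc_scale 4 5 (c1g.enc (enc_rat _ 1 16))) (enc_scale 1 5 (jnB1q0_11.enc h1))))))⟩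
noncomputable def jnB3q0_9 : Fn1 := ⟨_, _, fun h1 => (enc_add (swg.enc (enc_rat _ 1 16)) (enc_rat _ 1 2))⟩
noncomputable def jnB3q0 : Fn1 := ⟨_, _, fun h1 => (enc_norm (enc_mul (enc_norm (enc_mul (enc_norm (jnB3q0_9.enc h1)) (enc_norm (enc_add (b0g.enc h1) (enc_rat _ 25647 80000))))) (enc_inv (jnB3q0_9.enc h1))))⟩
noncomputable def pbg : Fn1 := ⟨_, _, fun h1 => (enc_norm (enc_neg (enc_mul (enc_norm (enc_mul (b0g.enc h1) (cpg.enc h1))) (enc_inv (enc_add (gsg.enc h1) (enc_rat _ 1 2))))))⟩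
noncomputable def kb3q0_3 : Fn2 := ⟨_, _, fun h1 h2 => (enc_sub (enc_pnc _ 1) h2)⟩
noncomputable def kb3q0_12 : Fn2 := ⟨_, _, fun h1 h2 => (enc_subr 1 16 h1)⟩
noncomputable def kb3q0_41 : Fn2 := ⟨_, _, fun h1 h2 => (enc_subr 25647 5000 (pbg.enc h2))⟩
noncomputable def kb3q0_43 : Fn2 := ⟨_, _, fun h1 h2 => (enc_add (b0g.enc h2) (enc_scale 25647 5000 h1))⟩
noncomputable def kb3q0_55 : Fn2 := ⟨_, _, fun h1 h2 => (enc_sub h1 (enc_half (kb3q0_3.enc h1 h2)))⟩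
noncomputable def kb3q0_60 : Fn2 := ⟨_, _, fun h1 h2 => (enc_scale 5 2 (kb3q0_3.enc h1 h2))⟩
noncomputable def kb3q0 : Fn2 := ⟨_, _, fun h1 h2 => (enc_norm (enc_case (kb3q0_12.enc h1 h2) (enc_mul (cv3m.enc h1) (enc_norm (enc_case (kb3q0_55.enc h1 h2) (enc_sub (kb3q0_43.enc h1 h2) (enc_scale 21201 5000 h1)) (enc_case (enc_sub h1 (kb3q0_3.enc h1 h2)) (enc_add (enc_sub (kb3q0_43.enc h1 h2) (enc_scale 21201 10000 (kb3q0_3.enc h1 h2))) (enc_mul (enc_norm (kb3q0_55.enc h1 h2)) (enc_norm (enc_nat 2 (enc_add (kb3q0_41.enc h1 h2) (enc_rat _ 21201 10000)))))) (enc_case (enc_sub h1 (kb3q0_60.enc h1 h2)) (enc_add (kb3q0_43.enc h1 h2) (enc_mul (enc_norm (enc_sub (kb3q0_60.enc h1 h2) h1)) (enc_norm (enc_scale 2 3 (kb3q0_41.enc h1 h2))))) (kb3q0_43.enc h1 h2)))))) (enc_mul (cv3m.enc h1) (enc_norm (enc_case (enc_subr 3 20 h1) (enc_case (enc_subr 1 10 h1) (enc_add (jnB3q0.enc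 h2) (enc_mul (enc_norm (kb3q0_12.enc h1 h2)) (enc_norm (enc_scale 80 3 (enc_sub (enc_neg (enc_rat _ 1179 2000)) (jnB3q0.enc h2)))))) (enc_subr 5511 10000 (enc_neg (enc_scale 48 125 h1)))) (enc_case (enc_subr 11 50 h1) (enc_subr 66957 35000 (enc_scale 6087 700 h1)) (enc_pnc _ 0)))))))⟩
noncomputable def kb1q0_11 : Fn2 := ⟨_, _, fun h1 h2 => (enc_subr 1 16 h1)⟩
noncomputable def kb1q0 : Fn2 := ⟨_, _, fun h1 h2 => (enc_norm (enc_case (kb1q0_11.enc h1 h2) (enc_add (enc_scale 4 5 (kb0q0.enc h1 h2)) (enc_scale 1 5 (kb3q0.enc h1 h2))) (enc_mul (cv1m.enc h1) (enc_norm (enc_case (enc_subr 3 20 h1) (enc_case (enc_subr 1 10 h1) (enc_add (jnB1q0.enc h2) (enc_mul (enc_norm (kb1q0_11.enc h1 h2)) (enc_norm (enc_scale 80 3 (enc_sub (enc_rat _ 2061 10000) (jnB1q0.enc h2)))))) (enc_sub (enc_rat _ 2699 10000) (enc_scale 319 500 h1))) (enc_case (enc_subr 11 50 h1) (enc_sub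 (enc_rat _ 9581 17500) (enc_scale 871 350 h1)) (enc_pnc _ 0)))))))⟩
noncomputable def kn1q0 : Fn2 := ⟨_, _, fun h1 h2 => (enc_norm (enc_add (enc_mul (lmug.enc h2) (kf1q0.enc h1 h2)) (enc_mul (mug3.enc h2) (kb1q0.enc h1 h2))))⟩
noncomputable def kb1q1 : Fn2 := ⟨_, _, fun h1 h2 => (enc_norm (enc_mul (cv1m.enc h1) (enc_norm (enc_case (enc_subr 43 50 h1) (enc_case (enc_subr 39 50 h1) (enc_pnc _ 0) (enc_subr 107913 20000 (enc_scale 2767 400 h1))) (enc_case (enc_subr 23 25 h1) (enc_subr 27863 7500 (enc_scale 1489 300 h1)) (enc_case (enc_subr 24 25 h1) (enc_subr 37143 10000 (enc_scale 397 80 h1)) (enc_subr 37167 10000 (enc_scale 993 200 h1))))))))⟩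
noncomputable def kn1q1 : Fn2 := ⟨_, _, fun h1 h2 => (enc_norm (enc_add (enc_mul (lmug.enc h2) (kf1q1.enc h1 h2)) (enc_mul (mug3.enc h2) (kb1q1.enc h1 h2))))⟩
noncomputable def jnB1q2_4 : Fn1 := ⟨_, _, fun h1 => (c1g.enc (enc_rat _ 17 16))⟩
noncomputable def jnB1q2_10 : Fn1 := ⟨_, _, fun h1 => (enc_sub (enc_rat _ 17 32) (jnB1q2_4.enc h1))⟩
noncomputable def jnB1q2_23 : Fn1 := ⟨_, _, fun h1 => (enc_subr 1 2 (swg.enc (enc_rat _ 17 16)))⟩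
noncomputable def jnB1q2 : Fn1 := ⟨_, _, fun h1 => (enc_norm (enc_mul (enc_norm (enc_add (enc_scale 4 5 (enc_mul (rbg.enc (enc_norm (jnB1q2_10.enc h1)) h1) (enc_norm (enc_sub (enc_rat _ 1 2) (enc_mul (enc_norm (enc_scale 3 4 (jnB1q2_10.enc h1))) (enc_inv (enc_add (enc_pnc _ 1) (enc_add (enc_half (jnB1q2_4.enc h1)) (enc_rat _ 51 64))))))))) (enc_scale 1 5 (enc_mul (enc_norm (jnB1q2_23.enc h1)) (enc_norm (enc_add (b0g.enc h1) (enc_rat _ 4367 80000))))))) (enc_inv (enc_add (enc_scale 4 5 (jnB1q2_4.enc h1)) (enc_scale 1 5 (jnB1q2_23.enc h1))))))⟩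
noncomputable def jnB3q2_10 : Fn1 := ⟨_, _, fun h1 => (enc_subr 1 2 (swg.enc (enc_rat _ 17 16)))⟩
noncomputable def jnB3q2 : Fn1 := ⟨_, _, fun h1 => (enc_norm (enc_mul (enc_norm (enc_mul (enc_norm (jnB3q2_10.enc h1)) (enc_norm (enc_add (b0g.enc h1) (enc_rat _ 4367 80000))))) (enc_inv (jnB3q2_10.enc h1))))⟩
noncomputable def kb3q2_3 : Fn2 := ⟨_, _, fun h1 h2 => (enc_sub (enc_pnc _ 1) h2)⟩
noncomputable def kb3q2_34 : Fn2 := ⟨_, _, fun h1 h2 => (enc_subn 1 h1)⟩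
noncomputable def kb3q2_39 : Fn2 := ⟨_, _, fun h1 h2 => (enc_add (b0g.enc h2) (enc_scale 4367 5000 (kb3q2_34.enc h1 h2)))⟩
noncomputable def kb3q2_47 : Fn2 := ⟨_, _, fun h1 h2 => (enc_sub (kb3q2_34.enc h1 h2) (enc_half (kb3q2_3.enc h1 h2)))⟩
noncomputable def kb3q2_53 : Fn2 := ⟨_, _, fun h1 h2 => (enc_scale 5 2 (kb3q2_3.enc h1 h2))⟩
noncomputable def kb3q2 : Fn2 := ⟨_, _, fun h1 h2 => (enc_norm (enc_case (enc_subr 1 16 (kb3q2_34.enc h1 h2)) (enc_mul (cv3p.enc h1) (enc_norm (enc_case (kb3q2_47.enc h1 h2) (enc_add (kb3q2_39.enc h1 h2) (enc_scale 55587 5000 (kb3q2_34.enc h1 h2))) (enc_case (enc_sub (kb3q2_34.enc h1 h2) (kb3q2_3.enc h1 h2)) (enc_add (enc_add (kb3q2_39.enc h1 h2) (enc_scale 55587 10000 (kb3q2_3.enc h1 h2))) (enc_mul (enc_norm (kb3q2_47.enc h1 h2)) (enc_norm (enc_nat 2 (enc_subr 55587 10000 (enc_rat _ 7049 5000)))))) (enc_case (enc_sub (kb3q2_34.enc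 h1 h2) (kb3q2_53.enc h1 h2)) (enc_add (kb3q2_39.enc h1 h2) (enc_scale 7049 7500 (enc_sub (kb3q2_53.enc h1 h2) (kb3q2_34.enc h1 h2)))) (kb3q2_39.enc h1 h2)))))) (enc_mul (cv3p.enc h1) (enc_norm (enc_case (enc_subr 23 20 h1) (enc_case (enc_subr 11 10 h1) (enc_add (jnB3q2.enc h2) (enc_mul (enc_norm (enc_subr 17 16 h1)) (enc_norm (enc_scale 80 3 (enc_sub (enc_neg (enc_rat _ 17677 5000)) (jnB3q2.enc h2)))))) (enc_subr 54263 5000 (enc_scale 1663 250 h1))) (enc_case (enc_subr 61 50 h1) (enc_subr 488427 8750 (enc_scale 8007 175 h1)) (enc_pnc _ 0)))))))⟩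
noncomputable def kbc12a_42 : Fn2 := ⟨_, _, fun h1 h2 => (enc_sub (enc_half (yag.enc h1)) h1)⟩
noncomputable def kbc12a : Fn2 := ⟨_, _, fun h1 h2 => (enc_norm (enc_case (enc_subr 1 16 (enc_subn 1 (yag.enc h1))) (enc_add (enc_scale 4 5 (enc_mul (rbg.enc (enc_norm (kbc12a_42.enc h1 h2)) h2) (enc_norm (enc_sub (enc_rat _ 1 2) (enc_mul (enc_norm (enc_scale 3 4 (kbc12a_42.enc h1 h2))) (enc_inv (enc_add (enc_pnc _ 1) (enc_add (enc_half h1) (enc_scale 3 4 (yag.enc h1)))))))))) (enc_scale 1 5 (kb3q2.enc (yag.enc h1) h2))) (enc_mul (enc_norm (enc_add (enc_scale 4 5 h1) (enc_scale 1 5 (enc_subr 1 2 (swg.enc (yag.enc h1)))))) (enc_norm (enc_case (enc_subr 11 10 (yag.enc h1)) (enc_add (jnB1q2.enc h2) (enc_mul (enc_norm (enc_subr 17 16 (yag.enc h1))) (enc_norm (enc_scale 80 3 (enc_sub (enc_neg (enc_rat _ 543 10000)) (jnB1q2.enc h2)))))) (enc_case (enc_subr 577 500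 (yag.enc h1)) (enc_subr 104437 90000 (enc_scale 181 180 (yag.enc h1))) (enc_pnc _ 0)))))))⟩
noncomputable def knc12a : Fn2 := ⟨_, _, fun h1 h2 => (enc_norm (enc_add (enc_mul (lmug.enc h2) (kfc12a.enc h1 h2)) (enc_mul (mug3.enc h2) (kbc12a.enc h1 h2))))⟩
noncomputable def kbc12b : Fn2 := ⟨_, _, fun h1 h2 => (enc_norm (enc_case (enc_subr 1 16 (enc_subn 1 h1)) (enc_scale 1 5 (kb3q2.enc h1 h2)) (enc_mul (enc_norm (enc_scale 1 5 (enc_subr 1 2 (swg.enc h1)))) (enc_norm (enc_case (enc_subr 11 10 h1) (enc_add (jnB1q2.enc h2) (enc_mul (enc_norm (enc_subr 17 16 h1)) (enc_norm (enc_scale 80 3 (enc_sub (enc_neg (enc_rat _ 543 10000)) (jnB1q2.enc h2)))))) (enc_case (enc_subr 577 500 h1) (enc_subr 104437 90000 (enc_scale 181 180 h1)) (enc_pnc _ 0)))))))⟩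
noncomputable def knc12b : Fn2 := ⟨_, _, fun h1 h2 => (enc_norm (enc_add (enc_mul (lmug.enc h2) (kfc12b.enc h1 h2)) (enc_mul (mug3.enc h2) (kbc12b.enc h1 h2))))⟩
noncomputable def jnB1q3 : Fn1 := ⟨_, _, fun h1 => (enc_scale 237 16000 (enc_inv (enc_scale 1 5 (enc_subr 1 2 (swg.enc (enc_rat _ 31 16))))))⟩
noncomputable def jnB3q3 : Fn1 := ⟨_, _, fun h1 => (enc_scale 237 3200 (enc_inv (enc_subr 1 2 (swg.enc (enc_rat _ 31 16)))))⟩
noncomputable def kb3q3_3 : Fn2 := ⟨_, _, fun h1 h2 => (enc_sub (enc_pnc _ 1) h2)⟩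
noncomputable def kb3q3_15 : Fn2 := ⟨_, _, fun h1 h2 => (enc_subr 19 10 h1)⟩
noncomputable def kb3q3_30 : Fn2 := ⟨_, _, fun h1 h2 => (enc_sub (enc_pnc _ 2) h1)⟩
noncomputable def kb3q3_34 : Fn2 := ⟨_, _, fun h1 h2 => (enc_scale 237 200 (kb3q3_30.enc h1 h2))⟩
noncomputable def kb3q3_46 : Fn2 := ⟨_, _, fun h1 h2 => (enc_sub (kb3q3_30.enc h1 h2) (enc_half (kb3q3_3.enc h1 h2)))⟩
noncomputable def kb3q3_51 : Fn2 := ⟨_, _, fun h1 h2 => (enc_scale 5 2 (kb3q3_3.enc h1 h2))⟩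
noncomputable def kb3q3 : Fn2 := ⟨_, _, fun h1 h2 => (enc_norm (enc_case (enc_add (enc_subn 2 h1) (enc_rat _ 1 16)) (enc_mul (cv3r.enc h1) (enc_norm (enc_case (enc_subr 37 20 h1) (enc_case (enc_subr 89 50 h1) (enc_pnc _ 0) (enc_sub (enc_rat _ 89 17500) (enc_scale 1 350 h1))) (enc_case (kb3q3_15.enc h1 h2) (enc_neg (enc_rat _ 1 5000)) (enc_subr 1 5000 (enc_mul (enc_norm (kb3q3_15.enc h1 h2)) (enc_norm (enc_scale 80 3 (enc_add (jnB3q3.enc h2) (enc_rat _ 1 5000)))))))))) (enc_case (kb3q3_46.enc h1 h2) (enc_sub (kb3q3_34.enc h1 h2) (enc_scale 12119 5000 (kb3q3_30.enc h1 h2))) (enc_case (enc_sub (kb3q3_30.enc h1 h2) (kb3q3_3.enc h1 h2)) (enc_add (enc_sub (kb3q3_34.enc h1 h2) (enc_scale 12119 10000 (kb3q3_3.enc h1 h2))) (enc_mul (enc_norm (kb3q3_46.enc h1 h2)) (enc_norm (enc_nat 2 (enc_subr 237 200 (enc_rat _ 12119 10000)))))) (enc_case (enc_sub (kb3q3_30.enc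 h1 h2) (kb3q3_51.enc h1 h2)) (enc_sub (kb3q3_34.enc h1 h2) (enc_scale 79 100 (enc_sub (kb3q3_51.enc h1 h2) (kb3q3_30.enc h1 h2)))) (kb3q3_34.enc h1 h2))))))⟩
noncomputable def kb1q3_15 : Fn2 := ⟨_, _, fun h1 h2 => (enc_subr 19 10 h1)⟩
noncomputable def kb1q3 : Fn2 := ⟨_, _, fun h1 h2 => (enc_norm (enc_case (enc_add (enc_subn 2 h1) (enc_rat _ 1 16)) (enc_mul (cv1r.enc h1) (enc_norm (enc_case (enc_subr 37 20 h1) (enc_case (enc_subr 89 50 h1) (enc_pnc _ 0) (enc_sub (enc_rat _ 1157 17500) (enc_scale 13 350 h1))) (enc_case (kb1q3_15.enc h1 h2) (enc_sub (enc_rat _ 61 5000) (enc_scale 1 125 h1)) (enc_subr 3 1000 (enc_mul (enc_norm (kb1q3_15.enc h1 h2)) (enc_norm (enc_scale 80 3 (enc_add (jnB1q3.enc h2) (enc_rat _ 3 1000)))))))))) (enc_scale 1 5 (kb3q3.enc h1 h2))))⟩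
noncomputable def kn1q3 : Fn2 := ⟨_, _, fun h1 h2 => (enc_norm (enc_add (enc_mul (lmug.enc h2) (kf1q3.enc h1 h2)) (enc_mul (mug3.enc h2) (kb1q3.enc h1 h2))))⟩
noncomputable def jnB2q0_11 : Fn1 := ⟨_, _, fun h1 => (enc_add (swg.enc (enc_rat _ 1 16)) (enc_rat _ 1 2))⟩
noncomputable def jnB2q0 : Fn1 := ⟨_, _, fun h1 => (enc_norm (enc_mul (enc_norm (enc_add (enc_scale 2 5 (rbg.enc (enc_rat _ 1 16) h1)) (enc_scale 3 5 (enc_mul (enc_norm (jnB2q0_11.enc h1)) (enc_norm (enc_add (b0g.enc h1) (enc_rat _ 25647 80000))))))) (enc_inv (enc_add (enc_scale 2 5 (c1g.enc (enc_rat _ 1 16))) (enc_scale 3 5 (jnB2q0_11.enc h1))))))⟩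
noncomputable def kb2q0_12 : Fn2 := ⟨_, _, fun h1 h2 => (enc_subr 1 16 h1)⟩
noncomputable def kb2q0 : Fn2 := ⟨_, _, fun h1 h2 => (enc_norm (enc_case (kb2q0_12.enc h1 h2) (enc_add (enc_scale 2 5 (kb0q0.enc h1 h2)) (enc_scale 3 5 (kb3q0.enc h1 h2))) (enc_mul (cv2m.enc h1) (enc_norm (enc_case (enc_subr 3 20 h1) (enc_case (enc_subr 1 10 h1) (enc_add (jnB2q0.enc h2) (enc_mul (enc_norm (kb2q0_12.enc h1 h2)) (enc_norm (enc_scale 80 3 (enc_sub (enc_neg (enc_rat _ 9593 5000)) (jnB2q0.enc h2)))))) (enc_subr 243 100 (enc_scale 2557 500 h1))) (enc_case (enc_subr 11 50 h1) (enc_subr 182919 35000 (enc_scale 16629 700 h1)) (enc_pnc _ 0)))))))⟩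
noncomputable def kn2q0 : Fn2 := ⟨_, _, fun h1 h2 => (enc_norm (enc_add (enc_mul (lmug.enc h2) (kf2q0.enc h1 h2)) (enc_mul (mug3.enc h2) (kb2q0.enc h1 h2))))⟩
noncomputable def kb2q1 : Fn2 := ⟨_, _, fun h1 h2 => (enc_norm (enc_mul (cv2m.enc h1) (enc_norm (enc_case (enc_subr 43 50 h1) (enc_case (enc_subr 39 50 h1) (enc_pnc _ 0) (enc_subr 158379 20000 (enc_scale 4061 400 h1))) (enc_case (enc_subr 23 25 h1) (enc_subr 35713 3000 (enc_scale 1109 75 h1)) (enc_subr 29757 2500 (enc_scale 2957 200 h1)))))))⟩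
noncomputable def kn2q1 : Fn2 := ⟨_, _, fun h1 h2 => (enc_norm (enc_add (enc_mul (lmug.enc h2) (kf2q1.enc h1 h2)) (enc_mul (mug3.enc h2) (kb2q1.enc h1 h2))))⟩
noncomputable def jnB2q2_4 : Fn1 := ⟨_, _, fun h1 => (c1g.enc (enc_rat _ 17 16))⟩
noncomputable def jnB2q2_10 : Fn1 := ⟨_, _, fun h1 => (enc_sub (enc_rat _ 17 32) (jnB2q2_4.enc h1))⟩
noncomputable def jnB2q2_23 : Fn1 := ⟨_, _, fun h1 => (enc_subr 1 2 (swg.enc (enc_rat _ 17 16)))⟩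
noncomputable def jnB2q2 : Fn1 := ⟨_, _, fun h1 => (enc_norm (enc_mul (enc_norm (enc_add (enc_scale 2 5 (enc_mul (rbg.enc (enc_norm (jnB2q2_10.enc h1)) h1) (enc_norm (enc_sub (enc_rat _ 1 2) (enc_mul (enc_norm (enc_scale 3 4 (jnB2q2_10.enc h1))) (enc_inv (enc_add (enc_pnc _ 1) (enc_add (enc_half (jnB2q2_4.enc h1)) (enc_rat _ 51 64))))))))) (enc_scale 3 5 (enc_mul (enc_norm (jnB2q2_23.enc h1)) (enc_norm (enc_add (b0g.enc h1) (enc_rat _ 4367 80000))))))) (enc_inv (enc_add (enc_scale 2 5 (jnB2q2_4.enc h1)) (enc_scale 3 5 (jnB2q2_23.enc h1))))))⟩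
noncomputable def kbc22a_49 : Fn2 := ⟨_, _, fun h1 h2 => (enc_sub (enc_half (yag.enc h1)) h1)⟩
noncomputable def kbc22a : Fn2 := ⟨_, _, fun h1 h2 => (enc_norm (enc_case (enc_subr 1 16 (enc_subn 1 (yag.enc h1))) (enc_add (enc_scale 2 5 (enc_mul (rbg.enc (enc_norm (kbc22a_49.enc h1 h2)) h2) (enc_norm (enc_sub (enc_rat _ 1 2) (enc_mul (enc_norm (enc_scale 3 4 (kbc22a_49.enc h1 h2))) (enc_inv (enc_add (enc_pnc _ 1) (enc_add (enc_half h1) (enc_scale 3 4 (yag.enc h1)))))))))) (enc_scale 3 5 (kb3q2.enc (yag.enc h1) h2))) (enc_mul (enc_norm (enc_add (enc_scale 2 5 h1) (enc_scale 3 5 (enc_subr 1 2 (swg.enc (yag.enc h1)))))) (enc_norm (enc_case (enc_subr 23 20 (yag.enc h1)) (enc_case (enc_subr 11 10 (yag.enc h1)) (enc_add (jnB2q2.enc h2) (enc_mul (enc_norm (enc_subr 17 16 (yag.enc h1))) (enc_norm (enc_scale 80 3 (enc_sub (enc_neg (enc_rat _ 5193 2000)) (jnB2q2.enc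 h2)))))) (enc_subr 115351 10000 (enc_scale 4063 500 (yag.enc h1)))) (enc_case (enc_subr 61 50 (yag.enc h1)) (enc_subr 668011 17500 (enc_scale 10951 350 (yag.enc h1))) (enc_pnc _ 0)))))))⟩
noncomputable def knc22a : Fn2 := ⟨_, _, fun h1 h2 => (enc_norm (enc_add (enc_mul (lmug.enc h2) (kfc22a.enc h1 h2)) (enc_mul (mug3.enc h2) (kbc22a.enc h1 h2))))⟩
noncomputable def kbc22b : Fn2 := ⟨_, _, fun h1 h2 => (enc_norm (enc_case (enc_subr 1 16 (enc_subn 1 h1)) (enc_scale 3 5 (kb3q2.enc h1 h2)) (enc_mul (enc_norm (enc_scale 3 5 (enc_subr 1 2 (swg.enc h1)))) (enc_norm (enc_case (enc_subr 23 20 h1) (enc_case (enc_subr 11 10 h1) (enc_add (jnB2q2.enc h2) (enc_mul (enc_norm (enc_subr 17 16 h1)) (enc_norm (enc_scale 80 3 (enc_sub (enc_neg (enc_rat _ 5193 2000)) (jnB2q2.enc h2)))))) (enc_subr 115351 10000 (enc_scale 4063 500 h1))) (enc_case (enc_subr 61 50 h1) (enc_subr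 668011 17500 (enc_scale 10951 350 h1)) (enc_pnc _ 0)))))))⟩
noncomputable def knc22b : Fn2 := ⟨_, _, fun h1 h2 => (enc_norm (enc_add (enc_mul (lmug.enc h2) (kfc22b.enc h1 h2)) (enc_mul (mug3.enc h2) (kbc22b.enc h1 h2))))⟩
noncomputable def jnB2q3 : Fn1 := ⟨_, _, fun h1 => (enc_scale 711 16000 (enc_inv (enc_scale 3 5 (enc_subr 1 2 (swg.enc (enc_rat _ 31 16))))))⟩
noncomputable def kb2q3_15 : Fn2 := ⟨_, _, fun h1 h2 => (enc_subr 19 10 h1)⟩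
noncomputable def kb2q3 : Fn2 := ⟨_, _, fun h1 h2 => (enc_norm (enc_case (enc_add (enc_subn 2 h1) (enc_rat _ 1 16)) (enc_mul (cv2r.enc h1) (enc_norm (enc_case (enc_subr 37 20 h1) (enc_case (enc_subr 89 50 h1) (enc_pnc _ 0) (enc_sub (enc_rat _ 267 1250) (enc_scale 3 25 h1))) (enc_case (kb2q3_15.enc h1 h2) (enc_sub (enc_rat _ 471 10000) (enc_scale 3 100 h1)) (enc_subr 99 10000 (enc_mul (enc_norm (kb2q3_15.enc h1 h2)) (enc_norm (enc_scale 80 3 (enc_add (jnB2q3.enc h2) (enc_rat _ 99 10000)))))))))) (enc_scale 3 5 (kb3q3.enc h1 h2))))⟩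
noncomputable def kn2q3 : Fn2 := ⟨_, _, fun h1 h2 => (enc_norm (enc_add (enc_mul (lmug.enc h2) (kf2q3.enc h1 h2)) (enc_mul (mug3.enc h2) (kb2q3.enc h1 h2))))⟩
noncomputable def kn3q0 : Fn2 := ⟨_, _, fun h1 h2 => (enc_norm (enc_add (enc_mul (lmug.enc h2) (kf3q0.enc h1 h2)) (enc_mul (mug3.enc h2) (kb3q0.enc h1 h2))))⟩
noncomputable def jnB3q1_9 : Fn1 := ⟨_, _, fun h1 => (enc_add (swg.enc (enc_rat _ 15 16)) (enc_rat _ 1 2))⟩
noncomputable def jnB3q1 : Fn1 := ⟨_, _, fun h1 => (enc_norm (enc_mul (enc_norm (enc_mul (enc_norm (jnB3q1_9.enc h1)) (enc_norm (enc_add (b0g.enc h1) (enc_rat _ 40881 160000))))) (enc_inv (jnB3q1_9.enc h1))))⟩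
noncomputable def kb3q1_3 : Fn2 := ⟨_, _, fun h1 h2 => (enc_sub (enc_pnc _ 1) h2)⟩
noncomputable def kb3q1_15 : Fn2 := ⟨_, _, fun h1 h2 => (enc_subr 9 10 h1)⟩
noncomputable def kb3q1_30 : Fn2 := ⟨_, _, fun h1 h2 => (enc_sub (enc_pnc _ 1) h1)⟩
noncomputable def kb3q1_36 : Fn2 := ⟨_, _, fun h1 h2 => (enc_add (b0g.enc h2) (enc_scale 40881 10000 (kb3q1_30.enc h1 h2)))⟩
noncomputable def kb3q1_44 : Fn2 := ⟨_, _, fun h1 h2 => (enc_sub (kb3q1_30.enc h1 h2) (enc_half (kb3q1_3.enc h1 h2)))⟩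
noncomputable def kb3q1_51 : Fn2 := ⟨_, _, fun h1 h2 => (enc_scale 5 2 (kb3q1_3.enc h1 h2))⟩
noncomputable def kb3q1 : Fn2 := ⟨_, _, fun h1 h2 => (enc_norm (enc_case (enc_add (enc_subn 1 h1) (enc_rat _ 1 16)) (enc_mul (cv3m.enc h1) (enc_norm (enc_case (enc_subr 17 20 h1) (enc_case (enc_subr 39 50 h1) (enc_pnc _ 0) (enc_subr 522483 35000 (enc_scale 13397 700 h1))) (enc_case (kb3q1_15.enc h1 h2) (enc_sub (enc_rat _ 16967 10000) (enc_scale 21 50 h1)) (enc_add (enc_rat _ 13187 10000) (enc_mul (enc_norm (kb3q1_15.enc h1 h2)) (enc_norm (enc_scale 80 3 (enc_subr 13187 10000 (jnB3q1.enc h2)))))))))) (enc_mul (cv3m.enc h1) (enc_norm (enc_case (kb3q1_44.enc h1 h2) (enc_add (kb3q1_36.enc h1 h2) (enc_scale 51331 5000 (kb3q1_30.enc h1 h2))) (enc_case (enc_sub (kb3q1_30.enc h1 h2) (kb3q1_3.enc h1 h2)) (enc_add (enc_add (kb3q1_36.enc h1 h2) (enc_scale 51331 10000 (kb3q1_3.enc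 h1 h2))) (enc_mul (enc_norm (kb3q1_44.enc h1 h2)) (enc_norm (enc_nat 2 (enc_subr 51331 10000 (enc_neg (enc_rat _ 3689 1250))))))) (enc_case (enc_sub (kb3q1_30.enc h1 h2) (kb3q1_51.enc h1 h2)) (enc_sub (kb3q1_36.enc h1 h2) (enc_scale 3689 1875 (enc_sub (kb3q1_51.enc h1 h2) (kb3q1_30.enc h1 h2)))) (kb3q1_36.enc h1 h2))))))))⟩
noncomputable def kn3q1 : Fn2 := ⟨_, _, fun h1 h2 => (enc_norm (enc_add (enc_mul (lmug.enc h2) (kf3q1.enc h1 h2)) (enc_mul (mug3.enc h2) (kb3q1.enc h1 h2))))⟩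
noncomputable def kn3q2 : Fn2 := ⟨_, _, fun h1 h2 => (enc_norm (enc_add (enc_mul (lmug.enc h2) (kf3q2.enc h1 h2)) (enc_mul (mug3.enc h2) (kb3q2.enc h1 h2))))⟩
noncomputable def kn3q3 : Fn2 := ⟨_, _, fun h1 h2 => (enc_norm (enc_add (enc_mul (lmug.enc h2) (kf3q3.enc h1 h2)) (enc_mul (mug3.enc h2) (kb3q3.enc h1 h2))))⟩
noncomputable def bq4g_3 : Fn2 := ⟨_, _, fun h1 h2 => (enc_sub (enc_pnc _ 1) h2)⟩
noncomputable def bq4g_9 : Fn2 := ⟨_, _, fun h1 h2 => (enc_sub h1 (enc_half (bq4g_3.enc h1 h2)))⟩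
noncomputable def bq4g_18 : Fn2 := ⟨_, _, fun h1 h2 => (enc_scale 5 2 (bq4g_3.enc h1 h2))⟩
noncomputable def bq4g : Fn2 := ⟨_, _, fun h1 h2 => (enc_norm (enc_add (enc_mul (kb3q0.enc h1 h2) (enc_norm (enc_sub (enc_pnc _ 1) (enc_scale 11 5 (bq4g_3.enc h1 h2))))) (enc_case (bq4g_9.enc h1 h2) (enc_add (enc_scale 1019 1250 (bq4g_3.enc h1 h2)) (enc_scale 4372 625 h1)) (enc_case (enc_sub h1 (bq4g_3.enc h1 h2)) (enc_sub (enc_scale 5391 1250 (bq4g_3.enc h1 h2)) (enc_scale 28627 5000 (bq4g_9.enc h1 h2))) (enc_case (enc_sub h1 (bq4g_18.enc h1 h2)) (enc_scale 14501 15000 (enc_sub (bq4g_18.enc h1 h2) h1)) (enc_pnc _ 0))))))⟩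
noncomputable def jnB5q0_9 : Fn1 := ⟨_, _, fun h1 => (enc_add (swg.enc (enc_rat _ 1 16)) (enc_rat _ 1 2))⟩
noncomputable def jnB5q0 : Fn1 := ⟨_, _, fun h1 => (enc_norm (enc_mul (enc_norm (enc_scale 17 20 (enc_mul (enc_norm (jnB5q0_9.enc h1)) (enc_norm (enc_add (b0g.enc h1) (enc_rat _ 25647 80000)))))) (enc_inv (enc_add (enc_scale 17 20 (jnB5q0_9.enc h1)) (enc_scale 3 20 (c3g.enc (enc_rat _ 1 16)))))))⟩
noncomputable def kb7q0 : Fn2 := ⟨_, _, fun h1 h2 => (enc_pnc _ 0)⟩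
noncomputable def kb5q0_12 : Fn2 := ⟨_, _, fun h1 h2 => (enc_subr 1 16 h1)⟩
noncomputable def kb5q0_41 : Fn2 := ⟨_, _, fun h1 h2 => (enc_add (enc_pnc _ 1) (enc_scale 11 5 (enc_sub (enc_pnc _ 1) h2)))⟩
noncomputable def kb5q0 : Fn2 := ⟨_, _, fun h1 h2 => (enc_norm (enc_case (kb5q0_12.enc h1 h2) (enc_add (bq4g.enc h1 h2) (enc_mul (enc_norm (enc_mul (enc_norm (enc_sub (enc_rat _ 23 20) (kb5q0_41.enc h1 h2))) (enc_inv (enc_sub (enc_pnc _ 2) (kb5q0_41.enc h1 h2))))) (enc_norm (enc_sub (kb7q0.enc h1 h2) (bq4g.enc h1 h2))))) (enc_mul (cv5m.enc h1) (enc_norm (enc_case (enc_subr 3 20 h1) (enc_case (enc_subr 1 10 h1) (enc_add (jnB5q0.enc h2) (enc_mul (enc_norm (kb5q0_12.enc h1 h2)) (enc_norm (enc_scale 80 3 (enc_sub (enc_neg (enc_rat _ 1311 10000)) (jnB5q0.enc h2)))))) (enc_subr 1641 10000 (enc_scale 33 100 h1))) (enc_case (enc_subr 11 50 h1) (enc_subr 6303 17500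 (enc_scale 573 350 h1)) (enc_pnc _ 0)))))))⟩
noncomputable def kb4q0 : Fn2 := ⟨_, _, fun h1 h2 => (enc_norm (enc_case (enc_subr 1 16 h1) (bq4g.enc h1 h2) (enc_add (kb3q0.enc h1 h2) (enc_mul (enc_norm (enc_scale 44 3 (enc_sub (enc_pnc _ 1) h2))) (enc_norm (enc_sub (kb5q0.enc h1 h2) (kb3q0.enc h1 h2)))))))⟩
noncomputable def kn4q0 : Fn2 := ⟨_, _, fun h1 h2 => (enc_norm (enc_add (enc_mul (lmug.enc h2) (kf4q0.enc h1 h2)) (enc_mul (mug3.enc h2) (kb4q0.enc h1 h2))))⟩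
noncomputable def kn5q0 : Fn2 := ⟨_, _, fun h1 h2 => (enc_norm (enc_add (enc_mul (lmug.enc h2) (kf5q0.enc h1 h2)) (enc_mul (mug3.enc h2) (kb5q0.enc h1 h2))))⟩
noncomputable def jnB5q1_5 : Fn1 := ⟨_, _, fun h1 => (c3g.enc (enc_rat _ 15 16))⟩
noncomputable def jnB5q1_9 : Fn1 := ⟨_, _, fun h1 => (enc_add (swg.enc (enc_rat _ 15 16)) (enc_rat _ 1 2))⟩
noncomputable def jnB5q1_19 : Fn1 := ⟨_, _, fun h1 => (enc_subr 15 32 (enc_scale 1 3 (jnB5q1_5.enc h1)))⟩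
noncomputable def jnB5q1 : Fn1 := ⟨_, _, fun h1 => (enc_norm (enc_mul (enc_norm (enc_add (enc_scale 17 20 (enc_mul (enc_norm (jnB5q1_9.enc h1)) (enc_norm (enc_add (b0g.enc h1) (enc_rat _ 40881 160000))))) (enc_scale 3 20 (enc_mul (rbg.enc (enc_norm (jnB5q1_19.enc h1)) h1) (enc_norm (enc_add (enc_rat _ 3 2) (enc_mul (enc_norm (enc_scale 3 4 (jnB5q1_19.enc h1))) (enc_inv (enc_add (enc_pnc _ 1) (enc_add (enc_half (jnB5q1_5.enc h1)) (enc_rat _ 15 64))))))))))) (enc_inv (enc_add (enc_scale 17 20 (jnB5q1_9.enc h1)) (enc_scale 3 20 (jnB5q1_5.enc h1))))))⟩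
noncomputable def kb7q1_10 : Fn2 := ⟨_, _, fun h1 h2 => (enc_sub (enc_scale 1 3 (c3g.enc h1)) (enc_half h1))⟩
noncomputable def kb7q1 : Fn2 := ⟨_, _, fun h1 h2 => (enc_norm (enc_mul (rbg.enc (enc_norm (kb7q1_10.enc h1 h2)) h2) (enc_norm (enc_add (enc_rat _ 3 2) (enc_mul (enc_norm (enc_scale 3 4 (kb7q1_10.enc h1 h2))) (enc_inv (enc_add (enc_pnc _ 1) (enc_add (enc_half (c3g.enc h1)) (enc_scale 1 4 h1)))))))))⟩
noncomputable def kb5q1_15 : Fn2 := ⟨_, _, fun h1 h2 => (enc_subr 9 10 h1)⟩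
noncomputable def kb5q1 : Fn2 := ⟨_, _, fun h1 h2 => (enc_norm (enc_case (enc_add (enc_subn 1 h1) (enc_rat _ 1 16)) (enc_mul (cv5m.enc h1) (enc_norm (enc_case (enc_subr 17 20 h1) (enc_case (enc_subr 39 50 h1) (enc_pnc _ 0) (enc_subr 941343 35000 (enc_scale 24137 700 h1))) (enc_case (kb5q1_15.enc h1 h2) (enc_subr 381 100 (enc_scale 3661 500 h1)) (enc_add (enc_rat _ 13899 5000) (enc_mul (enc_norm (kb5q1_15.enc h1 h2)) (enc_norm (enc_scale 80 3 (enc_subr 13899 5000 (jnB5q1.enc h2)))))))))) (enc_add (enc_scale 17 20 (kb3q1.enc h1 h2)) (enc_scale 3 20 (kb7q1.enc h1 h2)))))⟩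
noncomputable def kn5q1 : Fn2 := ⟨_, _, fun h1 h2 => (enc_norm (enc_add (enc_mul (lmug.enc h2) (kf5q1.enc h1 h2)) (enc_mul (mug3.enc h2) (kb5q1.enc h1 h2))))⟩
noncomputable def kb5q2 : Fn2 := ⟨_, _, fun h1 h2 => (enc_norm (enc_mul (cv5p.enc h1) (enc_norm (enc_case (enc_subr 27 25 h1) (enc_sub (enc_rat _ 32777 2500) (enc_scale 469 40 h1)) (enc_case (enc_subr 57 50 h1) (enc_sub (enc_rat _ 13109 1000) (enc_scale 3517 300 h1)) (enc_case (enc_subr 61 50 h1) (enc_subr 38979 10000 (enc_scale 639 200 h1)) (enc_pnc _ 0)))))))⟩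
noncomputable def kn5q2 : Fn2 := ⟨_, _, fun h1 h2 => (enc_norm (enc_add (enc_mul (lmug.enc h2) (kf5q2.enc h1 h2)) (enc_mul (mug3.enc h2) (kb5q2.enc h1 h2))))⟩
noncomputable def jnB5q3_4 : Fn1 := ⟨_, _, fun h1 => (c3g.enc (enc_rat _ 31 16))⟩
noncomputable def jnB5q3 : Fn1 := ⟨_, _, fun h1 => (enc_norm (enc_mul (enc_norm (enc_add (enc_rat _ 4029 64000) (enc_scale 3 20 (enc_mul (rbg.enc (enc_scale 2 3 (jnB5q3_4.enc h1)) h1) (enc_norm (enc_mul (jnB5q3_4.enc h1) (enc_inv (enc_add (enc_pnc _ 1) (enc_rat _ 31 32))))))))) (enc_inv (enc_add (enc_scale 17 20 (enc_subr 1 2 (swg.enc (enc_rat _ 31 16)))) (enc_scale 3 20 (jnB5q3_4.enc h1))))))⟩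
noncomputable def kbc53_16 : Fn2 := ⟨_, _, fun h1 h2 => (enc_subr 19 10 (ycg.enc h1))⟩
noncomputable def kbc53 : Fn2 := ⟨_, _, fun h1 h2 => (enc_norm (enc_case (enc_add (enc_subn 2 (ycg.enc h1)) (enc_rat _ 1 16)) (enc_mul (enc_norm (enc_add (enc_scale 17 20 (enc_subr 1 2 (swg.enc (ycg.enc h1)))) (enc_scale 3 20 h1))) (enc_norm (enc_case (enc_subr 37 20 (ycg.enc h1)) (enc_case (enc_subr 89 50 (ycg.enc h1)) (enc_pnc _ 0) (enc_sub (enc_rat _ 89 35000) (enc_scale 1 700 (ycg.enc h1)))) (enc_case (kbc53_16.enc h1 h2) (enc_sub (enc_rat _ 9 2500) (enc_scale 1 500 (ycg.enc h1))) (enc_subr 1 5000 (enc_mul (enc_norm (kbc53_16.enc h1 h2)) (enc_norm (enc_scale 80 3 (enc_add (jnB5q3.enc h2) (enc_rat _ 1 5000)))))))))) (enc_add (enc_scale 17 20 (kb3q3.enc (ycg.enc h1) h2)) (enc_scale 3 20 (enc_mul (rbg.enc (enc_scale 2 3 h1) h2) (enc_norm (enc_mul h1 (enc_inv (enc_add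 (enc_pnc _ 1) (enc_half (ycg.enc h1)))))))))))⟩
noncomputable def knc53 : Fn2 := ⟨_, _, fun h1 h2 => (enc_norm (enc_add (enc_mul (lmug.enc h2) (kfc53.enc h1 h2)) (enc_mul (mug3.enc h2) (kbc53.enc h1 h2))))⟩
noncomputable def jnB6q0_9 : Fn1 := ⟨_, _, fun h1 => (enc_add (swg.enc (enc_rat _ 1 16)) (enc_rat _ 1 2))⟩
noncomputable def jnB6q0 : Fn1 := ⟨_, _, fun h1 => (enc_norm (enc_mul (enc_norm (enc_scale 2 5 (enc_mul (enc_norm (jnB6q0_9.enc h1)) (enc_norm (enc_add (b0g.enc h1) (enc_rat _ 25647 80000)))))) (enc_inv (enc_add (enc_scale 2 5 (jnB6q0_9.enc h1)) (enc_scale 3 5 (c3g.enc (enc_rat _ 1 16)))))))⟩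
noncomputable def kb6q0_11 : Fn2 := ⟨_, _, fun h1 h2 => (enc_subr 1 16 h1)⟩
noncomputable def kb6q0_40 : Fn2 := ⟨_, _, fun h1 h2 => (enc_add (enc_pnc _ 1) (enc_scale 11 5 (enc_sub (enc_pnc _ 1) h2)))⟩
noncomputable def kb6q0 : Fn2 := ⟨_, _, fun h1 h2 => (enc_norm (enc_case (kb6q0_11.enc h1 h2) (enc_add (bq4g.enc h1 h2) (enc_mul (enc_norm (enc_mul (enc_norm (enc_sub (enc_rat _ 8 5) (kb6q0_40.enc h1 h2))) (enc_inv (enc_sub (enc_pnc _ 2) (kb6q0_40.enc h1 h2))))) (enc_norm (enc_sub (kb7q0.enc h1 h2) (bq4g.enc h1 h2))))) (enc_mul (cv6m.enc h1) (enc_norm (enc_case (enc_subr 3 20 h1) (enc_case (enc_subr 1 10 h1) (enc_add (jnB6q0.enc h2) (enc_mul (enc_norm (kb6q0_11.enc h1 h2)) (enc_norm (enc_scale 80 3 (enc_sub (enc_rat _ 4403 10000) (jnB6q0.enc h2)))))) (enc_sub (enc_rat _ 5557 10000) (enc_scale 577 500 h1))) (enc_case (enc_subr 11 50 h1) (enc_sub (enc_rat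 _ 21043 17500) (enc_scale 1913 350 h1)) (enc_pnc _ 0)))))))⟩
noncomputable def kn6q0 : Fn2 := ⟨_, _, fun h1 h2 => (enc_norm (enc_add (enc_mul (lmug.enc h2) (kf6q0.enc h1 h2)) (enc_mul (mug3.enc h2) (kb6q0.enc h1 h2))))⟩
noncomputable def jnB6q1_5 : Fn1 := ⟨_, _, fun h1 => (c3g.enc (enc_rat _ 15 16))⟩
noncomputable def jnB6q1_9 : Fn1 := ⟨_, _, fun h1 => (enc_add (swg.enc (enc_rat _ 15 16)) (enc_rat _ 1 2))⟩
noncomputable def jnB6q1_19 : Fn1 := ⟨_, _, fun h1 => (enc_subr 15 32 (enc_scale 1 3 (jnB6q1_5.enc h1)))⟩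
noncomputable def jnB6q1 : Fn1 := ⟨_, _, fun h1 => (enc_norm (enc_mul (enc_norm (enc_add (enc_scale 2 5 (enc_mul (enc_norm (jnB6q1_9.enc h1)) (enc_norm (enc_add (b0g.enc h1) (enc_rat _ 40881 160000))))) (enc_scale 3 5 (enc_mul (rbg.enc (enc_norm (jnB6q1_19.enc h1)) h1) (enc_norm (enc_add (enc_rat _ 3 2) (enc_mul (enc_norm (enc_scale 3 4 (jnB6q1_19.enc h1))) (enc_inv (enc_add (enc_pnc _ 1) (enc_add (enc_half (jnB6q1_5.enc h1)) (enc_rat _ 15 64))))))))))) (enc_inv (enc_add (enc_scale 2 5 (jnB6q1_9.enc h1)) (enc_scale 3 5 (jnB6q1_5.enc h1))))))⟩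
noncomputable def kb6q1_15 : Fn2 := ⟨_, _, fun h1 h2 => (enc_subr 9 10 h1)⟩
noncomputable def kb6q1 : Fn2 := ⟨_, _, fun h1 h2 => (enc_norm (enc_case (enc_add (enc_subn 1 h1) (enc_rat _ 1 16)) (enc_mul (cv6m.enc h1) (enc_norm (enc_case (enc_subr 17 20 h1) (enc_case (enc_subr 39 50 h1) (enc_pnc _ 0) (enc_subr 319371 17500 (enc_scale 8189 350 h1))) (enc_case (kb6q1_15.enc h1 h2) (enc_subr 908 625 (enc_scale 909 250 h1)) (enc_add (enc_rat _ 4549 2500) (enc_mul (enc_norm (kb6q1_15.enc h1 h2)) (enc_norm (enc_scale 80 3 (enc_subr 4549 2500 (jnB6q1.enc h2)))))))))) (enc_add (enc_scale 2 5 (kb3q1.enc h1 h2)) (enc_scale 3 5 (kb7q1.enc h1 h2)))))⟩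
noncomputable def kn6q1 : Fn2 := ⟨_, _, fun h1 h2 => (enc_norm (enc_add (enc_mul (lmug.enc h2) (kf6q1.enc h1 h2)) (enc_mul (mug3.enc h2) (kb6q1.enc h1 h2))))⟩
noncomputable def kb6q2 : Fn2 := ⟨_, _, fun h1 h2 => (enc_norm (enc_mul (cv6p.enc h1) (enc_norm (enc_case (enc_subr 27 25 h1) (enc_case (enc_subr 26 25 h1) (enc_sub (enc_rat _ 34371 5000) (enc_scale 2221 400 h1)) (enc_sub (enc_rat _ 17179 2500) (enc_scale 111 20 h1))) (enc_case (enc_subr 57 50 h1) (enc_sub (enc_rat _ 34367 5000) (enc_scale 3331 600 h1)) (enc_case (enc_subr 61 50 h1) (enc_sub (enc_rat _ 66429 8000) (enc_scale 1089 160 h1)) (enc_pnc _ 0)))))))⟩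
noncomputable def kn6q2 : Fn2 := ⟨_, _, fun h1 h2 => (enc_norm (enc_add (enc_mul (lmug.enc h2) (kf6q2.enc h1 h2)) (enc_mul (mug3.enc h2) (kb6q2.enc h1 h2))))⟩
noncomputable def jnB6q3_4 : Fn1 := ⟨_, _, fun h1 => (c3g.enc (enc_rat _ 31 16))⟩
noncomputable def jnB6q3 : Fn1 := ⟨_, _, fun h1 => (enc_norm (enc_mul (enc_norm (enc_add (enc_rat _ 237 8000) (enc_scale 3 5 (enc_mul (rbg.enc (enc_scale 2 3 (jnB6q3_4.enc h1)) h1) (enc_norm (enc_mul (jnB6q3_4.enc h1) (enc_inv (enc_add (enc_pnc _ 1) (enc_rat _ 31 32))))))))) (enc_inv (enc_add (enc_scale 2 5 (enc_subr 1 2 (swg.enc (enc_rat _ 31 16)))) (enc_scale 3 5 (jnB6q3_4.enc h1))))))⟩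
noncomputable def kbc63_6 : Fn2 := ⟨_, _, fun h1 h2 => (enc_subr 19 10 (ycg.enc h1))⟩
noncomputable def kbc63 : Fn2 := ⟨_, _, fun h1 h2 => (enc_norm (enc_case (enc_add (enc_subn 2 (ycg.enc h1)) (enc_rat _ 1 16)) (enc_mul (enc_norm (enc_add (enc_scale 2 5 (enc_subr 1 2 (swg.enc (ycg.enc h1)))) (enc_scale 3 5 h1))) (enc_norm (enc_case (kbc63_6.enc h1 h2) (enc_pnc _ 0) (enc_mul (enc_norm (kbc63_6.enc h1 h2)) (enc_scale 80 3 (jnB6q3.enc h2)))))) (enc_add (enc_scale 2 5 (kb3q3.enc (ycg.enc h1) h2)) (enc_scale 3 5 (enc_mul (rbg.enc (enc_scale 2 3 h1) h2) (enc_norm (enc_mul h1 (enc_inv (enc_add (enc_pnc _ 1) (enc_half (ycg.enc h1)))))))))))⟩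
noncomputable def knc63 : Fn2 := ⟨_, _, fun h1 h2 => (enc_norm (enc_add (enc_mul (lmug.enc h2) (kfc63.enc h1 h2)) (enc_mul (mug3.enc h2) (kbc63.enc h1 h2))))⟩
noncomputable def kn7q0 : Fn2 := ⟨_, _, fun h1 h2 => (enc_norm (enc_add (enc_mul (lmug.enc h2) (kf7q0.enc h1 h2)) (enc_mul (mug3.enc h2) (kb7q0.enc h1 h2))))⟩
noncomputable def kn7q1 : Fn2 := ⟨_, _, fun h1 h2 => (enc_norm (enc_add (enc_mul (lmug.enc h2) (kf7q1.enc h1 h2)) (enc_mul (mug3.enc h2) (kb7q1.enc h1 h2))))⟩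
noncomputable def kb7q2_10 : Fn2 := ⟨_, _, fun h1 h2 => (enc_sub (enc_half h1) (enc_scale 1 3 (c3g.enc h1)))⟩
noncomputable def kb7q2 : Fn2 := ⟨_, _, fun h1 h2 => (enc_norm (enc_mul (rbg.enc (enc_norm (kb7q2_10.enc h1 h2)) h2) (enc_norm (enc_sub (enc_rat _ 3 2) (enc_mul (enc_norm (enc_scale 3 4 (kb7q2_10.enc h1 h2))) (enc_inv (enc_add (enc_pnc _ 1) (enc_add (enc_half (c3g.enc h1)) (enc_scale 1 4 h1)))))))))⟩
noncomputable def kn7q2 : Fn2 := ⟨_, _, fun h1 h2 => (enc_norm (enc_add (enc_mul (lmug.enc h2) (kf7q2.enc h1 h2)) (enc_mul (mug3.enc h2) (kb7q2.enc h1 h2))))⟩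
noncomputable def kbc73 : Fn2 := ⟨_, _, fun h1 h2 => (enc_norm (enc_mul (rbg.enc (enc_scale 2 3 h1) h2) (enc_norm (enc_mul h1 (enc_inv (enc_add (enc_pnc _ 1) (enc_half (ycg.enc h1))))))))⟩
noncomputable def knc73 : Fn2 := ⟨_, _, fun h1 h2 => (enc_norm (enc_add (enc_mul (lmug.enc h2) (kfc73.enc h1 h2)) (enc_mul (mug3.enc h2) (kbc73.enc h1 h2))))⟩
noncomputable def kb0q2_9 : Fn2 := ⟨_, _, fun h1 h2 => (enc_sub (enc_half h1) (c1g.enc h1))⟩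
noncomputable def kb0q2 : Fn2 := ⟨_, _, fun h1 h2 => (enc_norm (enc_case (enc_sub (enc_pnc _ 1) (enc_scale 3 4 (enc_sq h1))) (enc_pnc _ 0) (enc_mul (rbg.enc (enc_norm (kb0q2_9.enc h1 h2)) h2) (enc_norm (enc_sub (enc_rat _ 1 2) (enc_mul (enc_norm (enc_scale 3 4 (kb0q2_9.enc h1 h2))) (enc_inv (enc_add (enc_pnc _ 1) (enc_add (enc_half (c1g.enc h1)) (enc_scale 3 4 h1))))))))))⟩
noncomputable def kb1q2 : Fn2 := ⟨_, _, fun h1 h2 => (enc_norm (enc_case (enc_subr 1 16 (enc_subn 1 h1)) (enc_add (enc_scale 4 5 (kb0q2.enc h1 h2)) (enc_scale 1 5 (kb3q2.enc h1 h2))) (enc_mul (cv1p.enc h1) (enc_norm (enc_case (enc_subr 11 10 h1) (enc_add (jnB1q2.enc h2) (enc_mul (enc_norm (enc_subr 17 16 h1)) (enc_norm (enc_scale 80 3 (enc_sub (enc_neg (enc_rat _ 543 10000)) (jnB1q2.enc h2)))))) (enc_case (enc_subr 577 500 h1) (enc_subr 104437 90000 (enc_scale 181 180 h1)) (enc_pnc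 _ 0)))))))⟩
noncomputable def kn1q2 : Fn2 := ⟨_, _, fun h1 h2 => (enc_norm (enc_add (enc_mul (lmug.enc h2) (kf1q2.enc h1 h2)) (enc_mul (mug3.enc h2) (kb1q2.enc h1 h2))))⟩
noncomputable def kb2q2 : Fn2 := ⟨_, _, fun h1 h2 => (enc_norm (enc_case (enc_subr 1 16 (enc_subn 1 h1)) (enc_add (enc_scale 2 5 (kb0q2.enc h1 h2)) (enc_scale 3 5 (kb3q2.enc h1 h2))) (enc_mul (cv2p.enc h1) (enc_norm (enc_case (enc_subr 23 20 h1) (enc_case (enc_subr 11 10 h1) (enc_add (jnB2q2.enc h2) (enc_mul (enc_norm (enc_subr 17 16 h1)) (enc_norm (enc_scale 80 3 (enc_sub (enc_neg (enc_rat _ 5193 2000)) (jnB2q2.enc h2)))))) (enc_subr 115351 10000 (enc_scale 4063 500 h1))) (enc_case (enc_subr 61 50 h1) (enc_subr 668011 17500 (enc_scale 10951 350 h1)) (enc_pnc _ 0)))))))⟩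
noncomputable def kn2q2 : Fn2 := ⟨_, _, fun h1 h2 => (enc_norm (enc_add (enc_mul (lmug.enc h2) (kf2q2.enc h1 h2)) (enc_mul (mug3.enc h2) (kb2q2.enc h1 h2))))⟩
noncomputable def kb4q1_3 : Fn2 := ⟨_, _, fun h1 h2 => (enc_sub (enc_pnc _ 1) h2)⟩
noncomputable def kb4q1 : Fn2 := ⟨_, _, fun h1 h2 => (enc_norm (enc_case (enc_add (enc_subn 1 h1) (enc_rat _ 1 16)) (enc_add (kb3q1.enc h1 h2) (enc_mul (enc_norm (enc_scale 44 3 (kb4q1_3.enc h1 h2))) (enc_norm (enc_sub (kb5q1.enc h1 h2) (kb3q1.enc h1 h2))))) (enc_add (kb3q1.enc h1 h2) (enc_mul (enc_norm (enc_scale 11 5 (kb4q1_3.enc h1 h2))) (enc_norm (enc_sub (kb7q1.enc h1 h2) (kb3q1.enc h1 h2)))))))⟩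
noncomputable def kn4q1 : Fn2 := ⟨_, _, fun h1 h2 => (enc_norm (enc_add (enc_mul (lmug.enc h2) (kf4q1.enc h1 h2)) (enc_mul (mug3.enc h2) (kb4q1.enc h1 h2))))⟩
noncomputable def kb4q2 : Fn2 := ⟨_, _, fun h1 h2 => (enc_norm (enc_add (kb3q2.enc h1 h2) (enc_mul (enc_norm (enc_scale 44 3 (enc_sub (enc_pnc _ 1) h2))) (enc_norm (enc_sub (kb5q2.enc h1 h2) (kb3q2.enc h1 h2))))))⟩
noncomputable def kn4q2 : Fn2 := ⟨_, _, fun h1 h2 => (enc_norm (enc_add (enc_mul (lmug.enc h2) (kf4q2.enc h1 h2)) (enc_mul (mug3.enc h2) (kb4q2.enc h1 h2))))⟩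
noncomputable def kbc43_10 : Fn2 := ⟨_, _, fun h1 h2 => (kb3q3.enc (ycg.enc h1) h2)⟩
noncomputable def kbc43_22 : Fn2 := ⟨_, _, fun h1 h2 => (enc_subr 19 10 (ycg.enc h1))⟩
noncomputable def kbc43 : Fn2 := ⟨_, _, fun h1 h2 => (enc_norm (enc_add (kbc43_10.enc h1 h2) (enc_mul (enc_norm (enc_scale 44 3 (enc_sub (enc_pnc _ 1) h2))) (enc_norm (enc_sub (enc_case (enc_add (enc_subn 2 (ycg.enc h1)) (enc_rat _ 1 16)) (enc_mul (enc_norm (enc_add (enc_scale 17 20 (enc_subr 1 2 (swg.enc (ycg.enc h1)))) (enc_scale 3 20 h1))) (enc_norm (enc_case (enc_subr 37 20 (ycg.enc h1)) (enc_case (enc_subr 89 50 (ycg.enc h1)) (enc_pnc _ 0) (enc_sub (enc_rat _ 89 35000) (enc_scale 1 700 (ycg.enc h1)))) (enc_case (kbc43_22.enc h1 h2) (enc_sub (enc_rat _ 9 2500) (enc_scale 1 500 (ycg.enc h1))) (enc_subr 1 5000 (enc_mul (enc_norm (kbc43_22.enc h1 h2)) (enc_norm (enc_scale 80 3 (enc_add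 (jnB5q3.enc h2) (enc_rat _ 1 5000)))))))))) (enc_add (enc_scale 17 20 (kbc43_10.enc h1 h2)) (enc_scale 3 20 (enc_mul (rbg.enc (enc_scale 2 3 h1) h2) (enc_norm (enc_mul h1 (enc_inv (enc_add (enc_pnc _ 1) (enc_half (ycg.enc h1)))))))))) (kbc43_10.enc h1 h2))))))⟩
noncomputable def knc43 : Fn2 := ⟨_, _, fun h1 h2 => (enc_norm (enc_add (enc_mul (lmug.enc h2) (kfc43.enc h1 h2)) (enc_mul (mug3.enc h2) (kbc43.enc h1 h2))))⟩
noncomputable def rknq0 : Fn3 := ⟨_, _, fun h1 h2 h3 => (enc_case (enc_sub h1 (cv1m.enc h2)) (enc_add (kn0q0.enc h2 h3) (enc_mul (lm0m.enc h1 h2) (enc_norm (enc_sub (kn1q0.enc h2 h3) (kn0q0.enc h2 h3))))) (enc_case (enc_sub h1 (cv2m.enc h2)) (enc_add (kn1q0.enc h2 h3) (enc_mul (lm1m.enc h1 h2) (enc_norm (enc_sub (kn2q0.enc h2 h3) (kn1q0.enc h2 h3))))) (enc_case (enc_sub h1 (cv3m.enc h2)) (enc_add (kn2q0.enc h2 h3) (enc_mul (lm2m.enc h1 h2)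 (enc_norm (enc_sub (kn3q0.enc h2 h3) (kn2q0.enc h2 h3))))) (enc_case (enc_sub h1 (cv4m.enc h2 h3)) (enc_add (kn3q0.enc h2 h3) (enc_mul (lm3m.enc h1 h2 h3) (enc_norm (enc_sub (kn4q0.enc h2 h3) (kn3q0.enc h2 h3))))) (enc_case (enc_sub h1 (cv5m.enc h2)) (enc_add (kn4q0.enc h2 h3) (enc_mul (lm4m.enc h1 h2 h3) (enc_norm (enc_sub (kn5q0.enc h2 h3) (kn4q0.enc h2 h3))))) (enc_case (enc_sub h1 (cv6m.enc h2)) (enc_add (kn5q0.enc h2 h3) (enc_mul (lm5m.enc h1 h2) (enc_norm (enc_sub (kn6q0.enc h2 h3) (kn5q0.enc h2 h3))))) (enc_add (kn6q0.enc h2 h3) (enc_mul (lm6m.enc h1 h2) (enc_norm (enc_sub (kn7q0.enc h2 h3) (kn6q0.enc h2 h3)))))))))))⟩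
noncomputable def rsnq0 : Fn3 := ⟨_, _, fun h1 h2 h3 => (enc_case h1 (enc_neg (rknq0.enc (enc_neg h1) h2 h3)) (rknq0.enc h1 h2 h3))⟩
noncomputable def rknq1 : Fn3 := ⟨_, _, fun h1 h2 h3 => (enc_case (enc_sub h1 (cv1m.enc h2)) (enc_add (kn0q1.enc h2 h3) (enc_mul (lm0m.enc h1 h2) (enc_norm (enc_sub (kn1q1.enc h2 h3) (kn0q1.enc h2 h3))))) (enc_case (enc_sub h1 (cv2m.enc h2)) (enc_add (kn1q1.enc h2 h3) (enc_mul (lm1m.enc h1 h2) (enc_norm (enc_sub (kn2q1.enc h2 h3) (kn1q1.enc h2 h3))))) (enc_case (enc_sub h1 (cv3m.enc h2)) (enc_add (kn2q1.enc h2 h3) (enc_mul (lm2m.enc h1 h2) (enc_norm (enc_sub (kn3q1.enc h2 h3) (kn2q1.enc h2 h3))))) (enc_case (enc_sub h1 (cv4m.enc h2 h3)) (enc_add (kn3q1.enc h2 h3) (enc_mul (lm3m.enc h1 h2 h3) (enc_norm (enc_sub (kn4q1.enc h2 h3) (kn3q1.enc h2 h3))))) (enc_case (enc_sub h1 (cv5m.enc h2)) (enc_add (kn4q1.enc h2 h3) (enc_mul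 (lm4m.enc h1 h2 h3) (enc_norm (enc_sub (kn5q1.enc h2 h3) (kn4q1.enc h2 h3))))) (enc_case (enc_sub h1 (cv6m.enc h2)) (enc_add (kn5q1.enc h2 h3) (enc_mul (lm5m.enc h1 h2) (enc_norm (enc_sub (kn6q1.enc h2 h3) (kn5q1.enc h2 h3))))) (enc_add (kn6q1.enc h2 h3) (enc_mul (lm6m.enc h1 h2) (enc_norm (enc_sub (kn7q1.enc h2 h3) (kn6q1.enc h2 h3)))))))))))⟩
noncomputable def rsnq1 : Fn3 := ⟨_, _, fun h1 h2 h3 => (enc_case h1 (enc_neg (rknq1.enc (enc_neg h1) h2 h3)) (rknq1.enc h1 h2 h3))⟩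
noncomputable def kn0q2 : Fn2 := ⟨_, _, fun h1 h2 => (enc_norm (enc_add (enc_mul (lmug.enc h2) (kf0q2.enc h1 h2)) (enc_mul (mug3.enc h2) (kb0q2.enc h1 h2))))⟩
noncomputable def rknq2 : Fn3 := ⟨_, _, fun h1 h2 h3 => (enc_case (enc_sub h1 (cv1p.enc h2)) (enc_add (kn0q2.enc h2 h3) (enc_mul (lm0p.enc h1 h2) (enc_norm (enc_sub (kn1q2.enc h2 h3) (kn0q2.enc h2 h3))))) (enc_case (enc_sub h1 (cv2p.enc h2)) (enc_add (kn1q2.enc h2 h3) (enc_mul (lm1p.enc h1 h2) (enc_norm (enc_sub (kn2q2.enc h2 h3) (kn1q2.enc h2 h3))))) (enc_case (enc_sub h1 (cv3p.enc h2)) (enc_add (kn2q2.enc h2 h3) (enc_mul (lm2p.enc h1 h2) (enc_norm (enc_sub (kn3q2.enc h2 h3) (kn2q2.enc h2 h3))))) (enc_case (enc_sub h1 (cv4p.enc h2 h3)) (enc_add (kn3q2.enc h2 h3) (enc_mul (lm3p.enc h1 h2 h3) (enc_norm (enc_sub (kn4q2.enc h2 h3) (kn3q2.enc h2 h3))))) (enc_case (enc_sub h1 (cv5p.enc h2)) (enc_add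 (kn4q2.enc h2 h3) (enc_mul (lm4p.enc h1 h2 h3) (enc_norm (enc_sub (kn5q2.enc h2 h3) (kn4q2.enc h2 h3))))) (enc_case (enc_sub h1 (cv6p.enc h2)) (enc_add (kn5q2.enc h2 h3) (enc_mul (lm5p.enc h1 h2) (enc_norm (enc_sub (kn6q2.enc h2 h3) (kn5q2.enc h2 h3))))) (enc_add (kn6q2.enc h2 h3) (enc_mul (lm6p.enc h1 h2) (enc_norm (enc_sub (kn7q2.enc h2 h3) (kn6q2.enc h2 h3)))))))))))⟩
noncomputable def rsnq2 : Fn3 := ⟨_, _, fun h1 h2 h3 => (enc_case h1 (enc_neg (rknq2.enc (enc_neg h1) h2 h3)) (rknq2.enc h1 h2 h3))⟩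
noncomputable def kb7q3 : Fn2 := ⟨_, _, fun h1 h2 => (enc_norm (enc_mul (rbg.enc (enc_scale 2 3 (c3g.enc h1)) h2) (enc_norm (enc_mul (c3g.enc h1) (enc_inv (enc_add (enc_pnc _ 1) (enc_half h1)))))))⟩
noncomputable def kb6q3_5 : Fn2 := ⟨_, _, fun h1 h2 => (enc_subr 19 10 h1)⟩
noncomputable def kb6q3 : Fn2 := ⟨_, _, fun h1 h2 => (enc_norm (enc_case (enc_add (enc_subn 2 h1) (enc_rat _ 1 16)) (enc_mul (cv6r.enc h1) (enc_norm (enc_case (kb6q3_5.enc h1 h2) (enc_pnc _ 0) (enc_mul (enc_norm (kb6q3_5.enc h1 h2)) (enc_scale 80 3 (jnB6q3.enc h2)))))) (enc_add (enc_scale 2 5 (kb3q3.enc h1 h2)) (enc_scale 3 5 (kb7q3.enc h1 h2)))))⟩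
noncomputable def kn6q3 : Fn2 := ⟨_, _, fun h1 h2 => (enc_norm (enc_add (enc_mul (lmug.enc h2) (kf6q3.enc h1 h2)) (enc_mul (mug3.enc h2) (kb6q3.enc h1 h2))))⟩
noncomputable def kn7q3 : Fn2 := ⟨_, _, fun h1 h2 => (enc_norm (enc_add (enc_mul (lmug.enc h2) (kf7q3.enc h1 h2)) (enc_mul (mug3.enc h2) (kb7q3.enc h1 h2))))⟩
noncomputable def kb5q3_15 : Fn2 := ⟨_, _, fun h1 h2 => (enc_subr 19 10 h1)⟩
noncomputable def kb5q3 : Fn2 := ⟨_, _, fun h1 h2 => (enc_norm (enc_case (enc_add (enc_subn 2 h1) (enc_rat _ 1 16)) (enc_mul (cv5r.enc h1) (enc_norm (enc_case (enc_subr 37 20 h1) (enc_case (enc_subr 89 50 h1) (enc_pnc _ 0) (enc_sub (enc_rat _ 89 35000) (enc_scale 1 700 h1))) (enc_case (kb5q3_15.enc h1 h2) (enc_sub (enc_rat _ 9 2500) (enc_scale 1 500 h1)) (enc_subr 1 5000 (enc_mul (enc_norm (kb5q3_15.enc h1 h2)) (enc_norm (enc_scale 80 3 (enc_add (jnB5q3.enc h2) (enc_rat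 _ 1 5000)))))))))) (enc_add (enc_scale 17 20 (kb3q3.enc h1 h2)) (enc_scale 3 20 (kb7q3.enc h1 h2)))))⟩
noncomputable def kn5q3 : Fn2 := ⟨_, _, fun h1 h2 => (enc_norm (enc_add (enc_mul (lmug.enc h2) (kf5q3.enc h1 h2)) (enc_mul (mug3.enc h2) (kb5q3.enc h1 h2))))⟩
noncomputable def kb4q3 : Fn2 := ⟨_, _, fun h1 h2 => (enc_norm (enc_add (kb3q3.enc h1 h2) (enc_mul (enc_norm (enc_scale 44 3 (enc_sub (enc_pnc _ 1) h2))) (enc_norm (enc_sub (kb5q3.enc h1 h2) (kb3q3.enc h1 h2))))))⟩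
noncomputable def kn4q3 : Fn2 := ⟨_, _, fun h1 h2 => (enc_norm (enc_add (enc_mul (lmug.enc h2) (kf4q3.enc h1 h2)) (enc_mul (mug3.enc h2) (kb4q3.enc h1 h2))))⟩
noncomputable def rknq3 : Fn3 := ⟨_, _, fun h1 h2 h3 => (enc_case (enc_sub h1 (cv1r.enc h2)) (enc_mul (lm0r.enc h1 h2) (kn1q3.enc h2 h3)) (enc_case (enc_sub h1 (cv2r.enc h2)) (enc_add (kn1q3.enc h2 h3) (enc_mul (lm1r.enc h1 h2) (enc_norm (enc_sub (kn2q3.enc h2 h3) (kn1q3.enc h2 h3))))) (enc_case (enc_sub h1 (cv3r.enc h2)) (enc_add (kn2q3.enc h2 h3) (enc_mul (lm2r.enc h1 h2) (enc_norm (enc_sub (kn3q3.enc h2 h3) (kn2q3.enc h2 h3))))) (enc_case (enc_sub h1 (cv4r.enc h2 h3)) (enc_add (kn3q3.enc h2 h3) (enc_mul (lm3r.enc h1 h2 h3) (enc_norm (enc_sub (kn4q3.enc h2 h3) (kn3q3.enc h2 h3))))) (enc_case (enc_sub h1 (cv5r.enc h2)) (enc_add (kn4q3.enc h2 h3) (enc_mul (lm4r.enc h1 h2 h3) (enc_norm (enc_sub (kn5q3.enc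 h2 h3) (kn4q3.enc h2 h3))))) (enc_case (enc_sub h1 (cv6r.enc h2)) (enc_add (kn5q3.enc h2 h3) (enc_mul (lm5r.enc h1 h2) (enc_norm (enc_sub (kn6q3.enc h2 h3) (kn5q3.enc h2 h3))))) (enc_add (kn6q3.enc h2 h3) (enc_mul (lm6r.enc h1 h2) (enc_norm (enc_sub (kn7q3.enc h2 h3) (kn6q3.enc h2 h3)))))))))))⟩
noncomputable def rsnq3 : Fn3 := ⟨_, _, fun h1 h2 h3 => (enc_case h1 (enc_neg (rknq3.enc (enc_neg h1) h2 h3)) (rknq3.enc h1 h2 h3))⟩

noncomputable def ndF0q0 : NodeX := ⟨idf, cx0m, kf0q0, l0q0⟩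
noncomputable def ndF0q1 : NodeX := ⟨idf, cx0m, kf0q1, l0q1⟩
noncomputable def ndF0q2 : NodeX := ⟨yag, xc02, kfc02, lc02⟩
noncomputable def ndF1q0 : NodeX := ⟨idf, cx1m, kf1q0, l1q0⟩
noncomputable def ndF1q1 : NodeX := ⟨idf, cx1m, kf1q1, l1q1⟩
noncomputable def ndF1q2 : NodeX := ⟨idf, cx1p, kf1q2, l1q2⟩
noncomputable def ndF1q2a : NodeX := ⟨yag, xc12a, kfc12a, lc12a⟩
noncomputable def ndF1q2b : NodeX := ⟨idf, xc12b, kfc12b, lc12b⟩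
noncomputable def ndF1q3 : NodeX := ⟨idf, cx1r, kf1q3, l1q3⟩
noncomputable def ndF2q0 : NodeX := ⟨idf, cx2m, kf2q0, l2q0⟩
noncomputable def ndF2q1 : NodeX := ⟨idf, cx2m, kf2q1, l2q1⟩
noncomputable def ndF2q2 : NodeX := ⟨idf, cx2p, kf2q2, l2q2⟩
noncomputable def ndF2q2a : NodeX := ⟨yag, xc22a, kfc22a, lc22a⟩
noncomputable def ndF2q2b : NodeX := ⟨idf, xc22b, kfc22b, lc22b⟩
noncomputable def ndF2q3 : NodeX := ⟨idf, cx2r, kf2q3, l2q3⟩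
noncomputable def ndF3q0 : NodeX := ⟨idf, cx3m, kf3q0, l3q0⟩
noncomputable def ndF3q1 : NodeX := ⟨idf, cx3m, kf3q1, l3q1⟩
noncomputable def ndF3q2 : NodeX := ⟨idf, cx3p, kf3q2, l3q2⟩
noncomputable def ndF3q3 : NodeX := ⟨idf, cx3r, kf3q3, l3q3⟩
noncomputable def ndF4q0 : NodeX := ⟨idf, cv4m, kf4q0, l4q0⟩
noncomputable def ndF4q1 : NodeX := ⟨idf, cv4m, kf4q1, l4q1⟩
noncomputable def ndF4q2 : NodeX := ⟨idf, cv4p, kf4q2, l4q2⟩
noncomputable def ndF4q3 : NodeX := ⟨ycg, xc43, kfc43, lc43⟩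
noncomputable def ndF5q0 : NodeX := ⟨idf, cx5m, kf5q0, l5q0⟩
noncomputable def ndF5q1 : NodeX := ⟨idf, cx5m, kf5q1, l5q1⟩
noncomputable def ndF5q2 : NodeX := ⟨idf, cx5p, kf5q2, l5q2⟩
noncomputable def ndF5q3 : NodeX := ⟨ycg, xc53, kfc53, lc53⟩
noncomputable def ndF6q0 : NodeX := ⟨idf, cx6m, kf6q0, l6q0⟩
noncomputable def ndF6q1 : NodeX := ⟨idf, cx6m, kf6q1, l6q1⟩
noncomputable def ndF6q2 : NodeX := ⟨idf, cx6p, kf6q2, l6q2⟩
noncomputable def ndF6q3 : NodeX := ⟨ycg, xc63, kfc63, lc63⟩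
noncomputable def ndF7q0 : NodeX := ⟨idf, cx7m, kf7q0, l7q0⟩
noncomputable def ndF7q1 : NodeX := ⟨idf, cx7m, kf7q1, l7q1⟩
noncomputable def ndF7q2 : NodeX := ⟨idf, cx7p, kf7q2, l7q2⟩
noncomputable def ndF7q3 : NodeX := ⟨ycg, xc73, kfc73, lc73⟩
noncomputable def pcF0 : Piece := ⟨rsfq0, rlq0⟩
noncomputable def pcF1 : Piece := ⟨rsfq1, rlq1⟩
noncomputable def pcF2 : Piece := ⟨rsfq2, rlq2⟩
noncomputable def pcF3 : Piece := ⟨rsfq3, rlq3⟩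
noncomputable def ndN0q0 : NodeX := ⟨idf, cx0m, kn0q0, l0q0⟩
noncomputable def ndN0q1 : NodeX := ⟨idf, cx0m, kn0q1, l0q1⟩
noncomputable def ndN0q2 : NodeX := ⟨yag, xc02, knc02, lc02⟩
noncomputable def ndN1q0 : NodeX := ⟨idf, cx1m, kn1q0, l1q0⟩
noncomputable def ndN1q1 : NodeX := ⟨idf, cx1m, kn1q1, l1q1⟩
noncomputable def ndN1q2 : NodeX := ⟨idf, cx1p, kn1q2, l1q2⟩
noncomputable def ndN1q2a : NodeX := ⟨yag, xc12a, knc12a, lc12a⟩
noncomputable def ndN1q2b : NodeX := ⟨idf, xc12b, knc12b, lc12b⟩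
noncomputable def ndN1q3 : NodeX := ⟨idf, cx1r, kn1q3, l1q3⟩
noncomputable def ndN2q0 : NodeX := ⟨idf, cx2m, kn2q0, l2q0⟩
noncomputable def ndN2q1 : NodeX := ⟨idf, cx2m, kn2q1, l2q1⟩
noncomputable def ndN2q2 : NodeX := ⟨idf, cx2p, kn2q2, l2q2⟩
noncomputable def ndN2q2a : NodeX := ⟨yag, xc22a, knc22a, lc22a⟩
noncomputable def ndN2q2b : NodeX := ⟨idf, xc22b, knc22b, lc22b⟩
noncomputable def ndN2q3 : NodeX := ⟨idf, cx2r, kn2q3, l2q3⟩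
noncomputable def ndN3q0 : NodeX := ⟨idf, cx3m, kn3q0, l3q0⟩
noncomputable def ndN3q1 : NodeX := ⟨idf, cx3m, kn3q1, l3q1⟩
noncomputable def ndN3q2 : NodeX := ⟨idf, cx3p, kn3q2, l3q2⟩
noncomputable def ndN3q3 : NodeX := ⟨idf, cx3r, kn3q3, l3q3⟩
noncomputable def ndN4q0 : NodeX := ⟨idf, cv4m, kn4q0, l4q0⟩
noncomputable def ndN4q1 : NodeX := ⟨idf, cv4m, kn4q1, l4q1⟩
noncomputable def ndN4q2 : NodeX := ⟨idf, cv4p, kn4q2, l4q2⟩
noncomputable def ndN4q3 : NodeX := ⟨ycg, xc43, knc43, lc43⟩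
noncomputable def ndN5q0 : NodeX := ⟨idf, cx5m, kn5q0, l5q0⟩
noncomputable def ndN5q1 : NodeX := ⟨idf, cx5m, kn5q1, l5q1⟩
noncomputable def ndN5q2 : NodeX := ⟨idf, cx5p, kn5q2, l5q2⟩
noncomputable def ndN5q3 : NodeX := ⟨ycg, xc53, knc53, lc53⟩
noncomputable def ndN6q0 : NodeX := ⟨idf, cx6m, kn6q0, l6q0⟩
noncomputable def ndN6q1 : NodeX := ⟨idf, cx6m, kn6q1, l6q1⟩
noncomputable def ndN6q2 : NodeX := ⟨idf, cx6p, kn6q2, l6q2⟩
noncomputable def ndN6q3 : NodeX := ⟨ycg, xc63, knc63, lc63⟩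
noncomputable def ndN7q0 : NodeX := ⟨idf, cx7m, kn7q0, l7q0⟩
noncomputable def ndN7q1 : NodeX := ⟨idf, cx7m, kn7q1, l7q1⟩
noncomputable def ndN7q2 : NodeX := ⟨idf, cx7p, kn7q2, l7q2⟩
noncomputable def ndN7q3 : NodeX := ⟨ycg, xc73, knc73, lc73⟩
noncomputable def pcN0 : Piece := ⟨rsnq0, rlq0⟩
noncomputable def pcN1 : Piece := ⟨rsnq1, rlq1⟩
noncomputable def pcN2 : Piece := ⟨rsnq2, rlq2⟩
noncomputable def pcN3 : Piece := ⟨rsnq3, rlq3⟩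
end Pool.Agent.Strip051.G.IE1.Tab
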