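import Pool.Agent.Strip051.PB.FactX
import Pool.Agent.Strip051.PB.ThirdM
import Pool.Agent.Strip051.G.IE1.Tab

/-! # Facts about the table near `x = 1` (generated) -/

set_option linter.all false

namespace Pool.Agent.Strip051.G.IE1.Tab

open Pool.Agent.Strip051.PB Pool.Agent.StripNear Pool.Agent.Strip051.LC

noncomputable def l0q2 : Fn2 := ⟨_, _, fun h1 h2 => (enc_norm (enc_mul (lamg.enc h2) (enc_norm (enc_add (c1g.enc h1) (xt0q2.enc h1 h2)))))⟩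
noncomputable def l4q3 : Fn2 := ⟨_, _, fun h1 h2 => (enc_norm (enc_mul (lamg.enc h2) (enc_norm (enc_add (cv4r.enc h1 h2) (xt4q3.enc h1 h2)))))⟩
noncomputable def l5q3 : Fn2 := ⟨_, _, fun h1 h2 => (enc_norm (enc_mul (lamg.enc h2) (enc_norm (enc_add (cv5r.enc h1) (xt5q3.enc h1 h2)))))⟩
noncomputable def l6q3 : Fn2 := ⟨_, _, fun h1 h2 => (enc_norm (enc_mul (lamg.enc h2) (enc_norm (enc_add (cv6r.enc h1) (xt6q3.enc h1 h2)))))⟩
noncomputable def l7q3 : Fn2 := ⟨_, _, fun h1 h2 => (enc_norm (enc_mul (lamg.enc h2) (enc_norm (enc_add (c3g.enc h1) (xt7q3.enc h1 h2)))))⟩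
theorem c1g_v : c1g.v = c1n := by funext y; simp [c1g, c1n]
theorem c3g_v : c3g.v = c3n := by funext y; simp [c3g, c3n]
theorem swg_v : swg.v = swn := by funext y; simp [swg, swn]
theorem gsg_v : gsg.v = c1n := by funext y; simp only [gsg, c1n]; push_cast; ring_nf
theorem yag_v {y : ℝ} (h0y : 0 ≤ y) (h : h0 * y < 1) : yag.v (c1n y) = y := by
  have := ya_eq h0y h
  simpa [yag] using this
theorem ycg_v {y : ℝ} (h0y : 0 ≤ y) (h : y ≤ 2) : ycg.v (c3n y) = y := by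
  have := yc_eq h0y h
  simpa [ycg] using this
theorem ya1 : yag.v (1/2) = 1 := by
  have := yag_v (y := 1) (by norm_num) (by rw [mul_one]; exact h0_lt_one)
  rwa [c1n_one] at this
theorem yc0 : ycg.v 0 = 2 := by
  have := ycg_v (y := 2) (by norm_num) le_rfl
  rwa [c3n_two] at this
open Classical in
/-- the position of the curve `4` -/
noncomputable def r4 (x : ℝ) : ℝ := if 39 / 40 ≤ x ∧ x < 1 then 1 + 11 / 5 * (1 - x) else 21 / 20

theorem r4_eq {x : ℝ} (hx : 39 / 40 ≤ x) (hx' : x < 1) : r4 x = 1 + 11 / 5 * (1 - x) :=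
  if_pos ⟨hx, hx'⟩

theorem r4_rng (x : ℝ) : 1 < r4 x ∧ r4 x < 23 / 20 := by
  unfold r4
  split_ifs with h
  · obtain ⟨h1, h2⟩ := h
    constructor <;> linarith
  · norm_num

/-- the positions of the curves -/
noncomputable def rh (x : ℝ) : Fin 8 → ℝ := ![0, 1 / 5, 3 / 5, 1, r4 x, 23 / 20, 8 / 5, 2]

/-- the constant positions at `x` -/
noncomputable def PP (x : ℝ) : Pos 7 where
  ρ := rh x
  zero := by simp [rh]
  last := by simp [rh, Fin.last]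
  mono := by
    intro i j h
    have h4 := r4_rng x
    fin_cases i <;> fin_cases j <;> simp_all [rh] <;> norm_num <;> linarith

/-- the heights where a curve is a node -/
def rl (x : ℝ) (j : Fin 8) (y : ℝ) : Prop :=
  match j with
  | 1 => (1 / 16 < y ∧ y < 1) ∨ (17 / 16 < y ∧ y ≤ 31 / 16)
  | 2 => (1 / 16 < y ∧ y < 1) ∨ (17 / 16 < y ∧ y ≤ 31 / 16)
  | 4 => y ≤ 1 / 16
  | 5 => y ≤ 15 / 16 ∨ 1 ≤ y
  | 6 => y ≤ 15 / 16 ∨ 1 ≤ y
  | _ => True

/-- the curves of the table at `x` -/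
noncomputable def DD (x : ℝ) : PV 7 where
  P := PP x
  r := rl x
  r0 _ := trivial
  rL _ := trivial

theorem cv1m_v (y : ℝ) : cv1m.v y = c1n y * (1 - 1 / 5) + (swn y + 1 / 2) * (1 / 5) := by
  simp only [cv1m, c1g_v, c3g_v, swg_v]
  push_cast
  ring
theorem cv2m_v (y : ℝ) : cv2m.v y = c1n y * (1 - 3 / 5) + (swn y + 1 / 2) * (3 / 5) := by
  simp only [cv2m, c1g_v, c3g_v, swg_v]
  push_cast
  ring
theorem cv3m_v (y : ℝ) : cv3m.v y = (swn y + 1 / 2) := by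
  simp only [cv3m, c1g_v, c3g_v, swg_v]
  push_cast
  ring
theorem cv5m_v (y : ℝ) : cv5m.v y = (swn y + 1 / 2) * (2 - 23 / 20) + c3n y * (23 / 20 - 1) := by
  simp only [cv5m, c1g_v, c3g_v, swg_v]
  push_cast
  ring
theorem cv6m_v (y : ℝ) : cv6m.v y = (swn y + 1 / 2) * (2 - 8 / 5) + c3n y * (8 / 5 - 1) := by
  simp only [cv6m, c1g_v, c3g_v, swg_v]
  push_cast
  ring
theorem cv4m_v (y x : ℝ) : cv4m.v y x = (swn y + 1 / 2) + 11 / 5 * (1 - x) * (c3n y - (swn y + 1 / 2)) := by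
  simp only [cv4m, cv4m_5, c1g_v, c3g_v, swg_v]
  push_cast
  ring
theorem cv1p_v (y : ℝ) : cv1p.v y = c1n y * (1 - 1 / 5) + (swn y - 1 / 2) * (1 / 5) := by
  simp only [cv1p, c1g_v, c3g_v, swg_v]
  push_cast
  ring
theorem cv2p_v (y : ℝ) : cv2p.v y = c1n y * (1 - 3 / 5) + (swn y - 1 / 2) * (3 / 5) := by
  simp only [cv2p, c1g_v, c3g_v, swg_v]
  push_cast
  ring
theorem cv3p_v (y : ℝ) : cv3p.v y = (swn y - 1 / 2) := by
  simp only [cv3p, c1g_v, c3g_v, swg_v]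
  push_cast
  ring
theorem cv5p_v (y : ℝ) : cv5p.v y = (swn y - 1 / 2) * (2 - 23 / 20) + c3n y * (23 / 20 - 1) := by
  simp only [cv5p, c1g_v, c3g_v, swg_v]
  push_cast
  ring
theorem cv6p_v (y : ℝ) : cv6p.v y = (swn y - 1 / 2) * (2 - 8 / 5) + c3n y * (8 / 5 - 1) := by
  simp only [cv6p, c1g_v, c3g_v, swg_v]
  push_cast
  ring
theorem cv4p_v (y x : ℝ) : cv4p.v y x = (swn y - 1 / 2) + 11 / 5 * (1 - x) * (c3n y - (swn y - 1 / 2)) := by
  simp only [cv4p, cv4p_6, c1g_v, c3g_v, swg_v]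
  push_cast
  ring
theorem cv1r_v (y : ℝ) : cv1r.v y = (swn y - 1 / 2) * (1 / 5) := by
  simp only [cv1r, c1g_v, c3g_v, swg_v]
  push_cast
  ring
theorem cv2r_v (y : ℝ) : cv2r.v y = (swn y - 1 / 2) * (3 / 5) := by
  simp only [cv2r, c1g_v, c3g_v, swg_v]
  push_cast
  ring
theorem cv3r_v (y : ℝ) : cv3r.v y = (swn y - 1 / 2) := by
  simp only [cv3r, c1g_v, c3g_v, swg_v]
  push_cast
  ring
theorem cv5r_v (y : ℝ) : cv5r.v y = (swn y - 1 / 2) * (2 - 23 / 20) + c3n y * (23 / 20 - 1) := by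
  simp only [cv5r, c1g_v, c3g_v, swg_v]
  push_cast
  ring
theorem cv6r_v (y : ℝ) : cv6r.v y = (swn y - 1 / 2) * (2 - 8 / 5) + c3n y * (8 / 5 - 1) := by
  simp only [cv6r, c1g_v, c3g_v, swg_v]
  push_cast
  ring
theorem cv4r_v (y x : ℝ) : cv4r.v y x = (swn y - 1 / 2) + 11 / 5 * (1 - x) * (c3n y - (swn y - 1 / 2)) := by
  simp only [cv4r, cv4r_6, c1g_v, c3g_v, swg_v]
  push_cast
  ring
theorem crv0 (x : ℝ) (q : ℕ) (y : ℝ) : crv (PP x) 0 q y = c1n y := by simp [crv, gamn, PP, rh]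
theorem crv1 (x : ℝ) (q : ℕ) (y : ℝ) : crv (PP x) 1 q y = c1n y * (1 - 1 / 5) + Wn (decide (2 ≤ q)) y * (1 / 5) := by
  have : (PP x).ρ 1 = 1 / 5 := rfl
  simp only [crv, gamn, this]
  rw [if_pos (by norm_num)]
  ring
theorem crv2 (x : ℝ) (q : ℕ) (y : ℝ) : crv (PP x) 2 q y = c1n y * (1 - 3 / 5) + Wn (decide (2 ≤ q)) y * (3 / 5) := by
  have : (PP x).ρ 2 = 3 / 5 := rfl
  simp only [crv, gamn, this]
  rw [if_pos (by norm_num)]
  ring
theorem crv3 (x : ℝ) (q : ℕ) (y : ℝ) : crv (PP x) 3 q y = c1n y * (1 - 1) + Wn (decide (2 ≤ q)) y * (1) := by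
  have : (PP x).ρ 3 = 1 := rfl
  simp only [crv, gamn, this]
  rw [if_pos (by norm_num)]
  ring
theorem crv5 (x : ℝ) (q : ℕ) (y : ℝ) : crv (PP x) 5 q y = Wn (decide (2 ≤ q)) y * (2 - 23 / 20) + c3n y * (23 / 20 - 1) := by
  have : (PP x).ρ 5 = 23 / 20 := rfl
  simp only [crv, gamn, this]
  rw [if_neg (by norm_num)]
  ring
theorem crv6 (x : ℝ) (q : ℕ) (y : ℝ) : crv (PP x) 6 q y = Wn (decide (2 ≤ q)) y * (2 - 8 / 5) + c3n y * (8 / 5 - 1) := by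
  have : (PP x).ρ 6 = 8 / 5 := rfl
  simp only [crv, gamn, this]
  rw [if_neg (by norm_num)]
  ring
theorem crv4 {x : ℝ} (hx : 39 / 40 ≤ x) (hx' : x < 1) (q : ℕ) (y : ℝ) : crv (PP x) 4 q y = Wn (decide (2 ≤ q)) y + 11 / 5 * (1 - x) * (c3n y - Wn (decide (2 ≤ q)) y) := by
  have : (PP x).ρ 4 = r4 x := rfl
  simp only [crv, gamn, this]
  rw [if_neg (by have := (r4_rng x).1; linarith), r4_eq hx hx']
  ring
theorem crv7 (x : ℝ) (q : ℕ) (y : ℝ) : crv (PP x) 7 q y = c3n y := by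
  have : (PP x).ρ 7 = 2 := rfl
  simp only [crv, gamn, this]
  rw [if_neg (by norm_num)]
  ring
noncomputable def crd (j : Fin 8) (q : ℕ) (y : ℝ) : ℝ :=
  match j, q with
  | 0, 2 => c1n y
  | 4, 3 => c3n y
  | 5, 3 => c3n y
  | 6, 3 => c3n y
  | 7, 3 => c3n y
  | _, _ => y
theorem onc {j : Fin 8} {q : ℕ} {y : ℝ} (hq : InQ q y) (hj : j ≠ 0) : OnC j q y := ⟨hq, fun h => absurd h hj⟩
theorem c1g_off {y : ℝ} (h : 1 ≤ h0 * y) : c1g.v y = 0 := by rw [c1g_v]; exact c1n_off h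
theorem c1g_sq {y : ℝ} (hy : 0 ≤ y) (h : h0 * y < 1) : 0 ≤ c1g.v y ∧ c1g.v y ^ 2 = 1 - 3 / 4 * y ^ 2 := by
  rw [c1g_v]
  exact ⟨Real.sqrt_nonneg _, c1n_sq (on_sq hy h).le⟩
theorem ecv1q0 (x : ℝ) {y : ℝ} : crv (PP x) 1 0 y = cv1m.v y := by
  rw [crv1, cv1m_v, wn0]
theorem ecv2q0 (x : ℝ) {y : ℝ} : crv (PP x) 2 0 y = cv2m.v y := by
  rw [crv2, cv2m_v, wn0]
theorem ecv3q0 (x : ℝ) {y : ℝ} : crv (PP x) 3 0 y = cv3m.v y := by
  rw [crv3, cv3m_v, wn0]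
  ring
theorem ecv5q0 (x : ℝ) {y : ℝ} : crv (PP x) 5 0 y = cv5m.v y := by
  rw [crv5, cv5m_v, wn0]
theorem ecv6q0 (x : ℝ) {y : ℝ} : crv (PP x) 6 0 y = cv6m.v y := by
  rw [crv6, cv6m_v, wn0]
theorem ecv4q0 {x : ℝ} (hx : 39 / 40 ≤ x) (hx' : x < 1) {y : ℝ} : crv (PP x) 4 0 y = cv4m.v y x := by
  rw [crv4 hx hx', cv4m_v, wn0]
theorem ecv1q1 (x : ℝ) {y : ℝ} : crv (PP x) 1 1 y = cv1m.v y := by
  rw [crv1, cv1m_v, wn1]
theorem ecv2q1 (x : ℝ) {y : ℝ} : crv (PP x) 2 1 y = cv2m.v y := by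
  rw [crv2, cv2m_v, wn1]
theorem ecv3q1 (x : ℝ) {y : ℝ} : crv (PP x) 3 1 y = cv3m.v y := by
  rw [crv3, cv3m_v, wn1]
  ring
theorem ecv5q1 (x : ℝ) {y : ℝ} : crv (PP x) 5 1 y = cv5m.v y := by
  rw [crv5, cv5m_v, wn1]
theorem ecv6q1 (x : ℝ) {y : ℝ} : crv (PP x) 6 1 y = cv6m.v y := by
  rw [crv6, cv6m_v, wn1]
theorem ecv4q1 {x : ℝ} (hx : 39 / 40 ≤ x) (hx' : x < 1) {y : ℝ} : crv (PP x) 4 1 y = cv4m.v y x := by
  rw [crv4 hx hx', cv4m_v, wn1]
theorem ecv1q2 (x : ℝ) {y : ℝ} : crv (PP x) 1 2 y = cv1p.v y := by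
  rw [crv1, cv1p_v, wn2]
theorem ecv2q2 (x : ℝ) {y : ℝ} : crv (PP x) 2 2 y = cv2p.v y := by
  rw [crv2, cv2p_v, wn2]
theorem ecv3q2 (x : ℝ) {y : ℝ} : crv (PP x) 3 2 y = cv3p.v y := by
  rw [crv3, cv3p_v, wn2]
  ring
theorem ecv5q2 (x : ℝ) {y : ℝ} : crv (PP x) 5 2 y = cv5p.v y := by
  rw [crv5, cv5p_v, wn2]
theorem ecv6q2 (x : ℝ) {y : ℝ} : crv (PP x) 6 2 y = cv6p.v y := by
  rw [crv6, cv6p_v, wn2]
theorem ecv4q2 {x : ℝ} (hx : 39 / 40 ≤ x) (hx' : x < 1) {y : ℝ} : crv (PP x) 4 2 y = cv4p.v y x := by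
  rw [crv4 hx hx', cv4p_v, wn2]
theorem ecv1q3 (x : ℝ) {y : ℝ} (hy : 3 / 2 ≤ y) : crv (PP x) 1 3 y = cv1r.v y := by
  rw [crv1, cv1r_v, wn3, c1n_off (off_y hy)]
  ring
theorem ecv2q3 (x : ℝ) {y : ℝ} (hy : 3 / 2 ≤ y) : crv (PP x) 2 3 y = cv2r.v y := by
  rw [crv2, cv2r_v, wn3, c1n_off (off_y hy)]
  ring
theorem ecv3q3 (x : ℝ) {y : ℝ} (hy : 3 / 2 ≤ y) : crv (PP x) 3 3 y = cv3r.v y := by
  rw [crv3, cv3r_v, wn3]
  ring
theorem ecv5q3 (x : ℝ) {y : ℝ} (hy : 3 / 2 ≤ y) : crv (PP x) 5 3 y = cv5r.v y := by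
  rw [crv5, cv5r_v, wn3]
theorem ecv6q3 (x : ℝ) {y : ℝ} (hy : 3 / 2 ≤ y) : crv (PP x) 6 3 y = cv6r.v y := by
  rw [crv6, cv6r_v, wn3]
theorem ecv4q3 {x : ℝ} (hx : 39 / 40 ≤ x) (hx' : x < 1) {y : ℝ} : crv (PP x) 4 3 y = cv4r.v y x := by
  rw [crv4 hx hx', cv4r_v, wn3]
theorem lm0m_v (X y : ℝ) : lm0m.v X y = lam (X - c1g.v y) (cv1m.v y - c1g.v y) := rfl
theorem lm0p_v (X y : ℝ) : lm0p.v X y = lam (X - c1g.v y) (cv1p.v y - c1g.v y) := rfl
theorem lm0r_v (X y : ℝ) : lm0r.v X y = lam (X - 0) (cv1r.v y - 0) := by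
  show lam X (cv1r.v y) = _
  rw [sub_zero, sub_zero]
theorem lm1m_v (X y : ℝ) : lm1m.v X y = lam (X - cv1m.v y) (cv2m.v y - cv1m.v y) := rfl
theorem lm1p_v (X y : ℝ) : lm1p.v X y = lam (X - cv1p.v y) (cv2p.v y - cv1p.v y) := rfl
theorem lm1r_v (X y : ℝ) : lm1r.v X y = lam (X - cv1r.v y) (cv2r.v y - cv1r.v y) := rfl
theorem lm2m_v (X y : ℝ) : lm2m.v X y = lam (X - cv2m.v y) (cv3m.v y - cv2m.v y) := rfl
theorem lm2p_v (X y : ℝ) : lm2p.v X y = lam (X - cv2p.v y) (cv3p.v y - cv2p.v y) := rfl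
theorem lm2r_v (X y : ℝ) : lm2r.v X y = lam (X - cv2r.v y) (cv3r.v y - cv2r.v y) := rfl
theorem lm3m_v (X y x : ℝ) : lm3m.v X y x = lam (X - cv3m.v y) (cv4m.v y x - cv3m.v y) := rfl
theorem lm3p_v (X y x : ℝ) : lm3p.v X y x = lam (X - cv3p.v y) (cv4p.v y x - cv3p.v y) := rfl
theorem lm3r_v (X y x : ℝ) : lm3r.v X y x = lam (X - cv3r.v y) (cv4r.v y x - cv3r.v y) := rfl
theorem lm4m_v (X y x : ℝ) : lm4m.v X y x = lam (X - cv4m.v y x) (cv5m.v y - cv4m.v y x) := rfl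
theorem lm4p_v (X y x : ℝ) : lm4p.v X y x = lam (X - cv4p.v y x) (cv5p.v y - cv4p.v y x) := rfl
theorem lm4r_v (X y x : ℝ) : lm4r.v X y x = lam (X - cv4r.v y x) (cv5r.v y - cv4r.v y x) := rfl
theorem lm5m_v (X y : ℝ) : lm5m.v X y = lam (X - cv5m.v y) (cv6m.v y - cv5m.v y) := rfl
theorem lm5p_v (X y : ℝ) : lm5p.v X y = lam (X - cv5p.v y) (cv6p.v y - cv5p.v y) := rfl
theorem lm5r_v (X y : ℝ) : lm5r.v X y = lam (X - cv5r.v y) (cv6r.v y - cv5r.v y) := rfl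
theorem lm6m_v (X y : ℝ) : lm6m.v X y = lam (X - cv6m.v y) (c3g.v y - cv6m.v y) := rfl
theorem lm6p_v (X y : ℝ) : lm6p.v X y = lam (X - cv6p.v y) (c3g.v y - cv6p.v y) := rfl
theorem lm6r_v (X y : ℝ) : lm6r.v X y = lam (X - cv6r.v y) (c3g.v y - cv6r.v y) := rfl
theorem lam_v (x : ℝ) : lamg.v x = 2 * (1 - c1n x) := by
  simp only [lamg, gsg_v]
  push_cast
  ring
theorem cp_v (x : ℝ) : cpg.v x = 3 / 4 * (1 + x) / (c1n x + 1 / 2) := by
  simp only [cpg, gsg_v]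
  push_cast
  rw [div_eq_mul_inv]
  ring_nf
theorem eh_v (x : ℝ) : ehg.v x = 3 / 4 * (1 + x) / (c1n x + 1 / 2) - 1 / 2 := by
  simp only [ehg, cp_v]
  push_cast
  ring
theorem b0_v (x : ℝ) : b0g.v x = (1 - c1n x) / (3 / 4 * (1 + x) / (c1n x + 1 / 2) - 1 / 2) := by
  simp only [b0g, gsg_v, eh_v]
  push_cast
  ring
theorem mu_v (x : ℝ) : mug3.v x = mun 3 x := by
  simp only [mug3, mun, gsg, c1n]
  push_cast
  rw [one_div]
  congr 1
  ring_nf
theorem lmu_v (x : ℝ) : lmug.v x = 1 + lamg.v x * mun 3 x := by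
  simp only [lmug, mu_v]
  push_cast
  ring
noncomputable def ndF (j : Fin 8) (q : ℕ) : NodeX :=
  match j, q with
  | 0, 0 => ndF0q0
  | 0, 1 => ndF0q1
  | 0, 2 => ndF0q2
  | 1, 0 => ndF1q0
  | 1, 1 => ndF1q1
  | 1, 2 => ndF1q2
  | 1, 3 => ndF1q3
  | 2, 0 => ndF2q0
  | 2, 1 => ndF2q1
  | 2, 2 => ndF2q2
  | 2, 3 => ndF2q3
  | 3, 0 => ndF3q0
  | 3, 1 => ndF3q1
  | 3, 2 => ndF3q2
  | 3, 3 => ndF3q3
  | 4, 0 => ndF4q0
  | 4, 1 => ndF4q1
  | 4, 2 => ndF4q2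
  | 4, 3 => ndF4q3
  | 5, 0 => ndF5q0
  | 5, 1 => ndF5q1
  | 5, 2 => ndF5q2
  | 5, 3 => ndF5q3
  | 6, 0 => ndF6q0
  | 6, 1 => ndF6q1
  | 6, 2 => ndF6q2
  | 6, 3 => ndF6q3
  | 7, 0 => ndF7q0
  | 7, 1 => ndF7q1
  | 7, 2 => ndF7q2
  | 7, 3 => ndF7q3
  | _, _ => ndF0q0
noncomputable def pcF (q : ℕ) : Piece :=
  match q with
  | 0 => pcF0
  | 1 => pcF1
  | 2 => pcF2
  | _ => pcF3
theorem nFY0 (q : ℕ) (y : ℝ) (h : OnC (0 : Fin 8) q y) : (ndF 0 q).Y.v (crd 0 q y) = y := by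
  have h1 := h.1.nonneg
  have h2 := h.1.le_two
  match q, h with
  | 0, _ => rfl
  | 1, _ => rfl
  | 2, h => exact yag_v h1 (h.2 rfl)
  | 3, h => exact absurd h.1.1 (by linarith [y_lt (h.2 rfl)])
  | _ + 4, h => exact h.1.elim
theorem nFX0 {x : ℝ} (hx : 39 / 40 ≤ x) (hx' : x < 1) (q : ℕ) (y : ℝ) (h : OnC (0 : Fin 8) q y) : (ndF 0 q).X.v (crd 0 q y) x = crv (PP x) 0 q y := by
  have h1 := h.1.nonneg
  have h2 := h.1.le_two
  match q, h with
  | 0, _ =>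
    rw [crv0]
    exact congrFun c1g_v y
  | 1, _ =>
    rw [crv0]
    exact congrFun c1g_v y
  | 2, _ =>
    rw [crv0]
    exact rfl
  | 3, h => exact absurd h.1.1 (by linarith [y_lt (h.2 rfl)])
  | _ + 4, h => exact h.1.elim
theorem nFY1 (q : ℕ) (y : ℝ) (h : OnC (1 : Fin 8) q y) : (ndF 1 q).Y.v (crd 1 q y) = y := by
  have h1 := h.1.nonneg
  have h2 := h.1.le_two
  match q, h with
  | 0, _ => rfl
  | 1, _ => rfl
  | 2, h => rfl
  | 3, h => rfl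
  | _ + 4, h => exact h.1.elim
theorem nFX1 {x : ℝ} (hx : 39 / 40 ≤ x) (hx' : x < 1) (q : ℕ) (y : ℝ) (h : OnC (1 : Fin 8) q y) : (ndF 1 q).X.v (crd 1 q y) x = crv (PP x) 1 q y := by
  have h1 := h.1.nonneg
  have h2 := h.1.le_two
  match q, h with
  | 0, h => exact (ecv1q0 x).symm
  | 1, h => exact (ecv1q1 x).symm
  | 2, h => exact (ecv1q2 x).symm
  | 3, h => exact (ecv1q3 x h.1.1).symm
  | _ + 4, h => exact h.1.elim
theorem nFY2 (q : ℕ) (y : ℝ) (h : OnC (2 : Fin 8) q y) : (ndF 2 q).Y.v (crd 2 q y) = y := by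
  have h1 := h.1.nonneg
  have h2 := h.1.le_two
  match q, h with
  | 0, _ => rfl
  | 1, _ => rfl
  | 2, h => rfl
  | 3, h => rfl
  | _ + 4, h => exact h.1.elim
theorem nFX2 {x : ℝ} (hx : 39 / 40 ≤ x) (hx' : x < 1) (q : ℕ) (y : ℝ) (h : OnC (2 : Fin 8) q y) : (ndF 2 q).X.v (crd 2 q y) x = crv (PP x) 2 q y := by
  have h1 := h.1.nonneg
  have h2 := h.1.le_two
  match q, h with
  | 0, h => exact (ecv2q0 x).symm
  | 1, h => exact (ecv2q1 x).symm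
  | 2, h => exact (ecv2q2 x).symm
  | 3, h => exact (ecv2q3 x h.1.1).symm
  | _ + 4, h => exact h.1.elim
theorem nFY3 (q : ℕ) (y : ℝ) (h : OnC (3 : Fin 8) q y) : (ndF 3 q).Y.v (crd 3 q y) = y := by
  have h1 := h.1.nonneg
  have h2 := h.1.le_two
  match q, h with
  | 0, _ => rfl
  | 1, _ => rfl
  | 2, h => rfl
  | 3, h => rfl
  | _ + 4, h => exact h.1.elim
theorem nFX3 {x : ℝ} (hx : 39 / 40 ≤ x) (hx' : x < 1) (q : ℕ) (y : ℝ) (h : OnC (3 : Fin 8) q y) : (ndF 3 q).X.v (crd 3 q y) x = crv (PP x) 3 q y := by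
  have h1 := h.1.nonneg
  have h2 := h.1.le_two
  match q, h with
  | 0, h => exact (ecv3q0 x).symm
  | 1, h => exact (ecv3q1 x).symm
  | 2, h => exact (ecv3q2 x).symm
  | 3, h => exact (ecv3q3 x h.1.1).symm
  | _ + 4, h => exact h.1.elim
theorem nFY4 (q : ℕ) (y : ℝ) (h : OnC (4 : Fin 8) q y) : (ndF 4 q).Y.v (crd 4 q y) = y := by
  have h1 := h.1.nonneg
  have h2 := h.1.le_two
  match q, h with
  | 0, _ => rfl
  | 1, _ => rfl
  | 2, h => rfl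
  | 3, h => exact ycg_v h1 h2
  | _ + 4, h => exact h.1.elim
theorem nFX4 {x : ℝ} (hx : 39 / 40 ≤ x) (hx' : x < 1) (q : ℕ) (y : ℝ) (h : OnC (4 : Fin 8) q y) : (ndF 4 q).X.v (crd 4 q y) x = crv (PP x) 4 q y := by
  have h1 := h.1.nonneg
  have h2 := h.1.le_two
  match q, h with
  | 0, h => exact (ecv4q0 hx hx').symm
  | 1, h => exact (ecv4q1 hx hx').symm
  | 2, h => exact (ecv4q2 hx hx').symm
  | 3, h =>
    rw [crv4 hx hx']
    show xc43.v (c3n y) x = _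
    simp only [xc43, xc43_6, c3g_v, swg_v, wn3, ycg_v h1 h2]
    push_cast
    ring
  | _ + 4, h => exact h.1.elim
theorem nFY5 (q : ℕ) (y : ℝ) (h : OnC (5 : Fin 8) q y) : (ndF 5 q).Y.v (crd 5 q y) = y := by
  have h1 := h.1.nonneg
  have h2 := h.1.le_two
  match q, h with
  | 0, _ => rfl
  | 1, _ => rfl
  | 2, h => rfl
  | 3, h => exact ycg_v h1 h2
  | _ + 4, h => exact h.1.elim
theorem nFX5 {x : ℝ} (hx : 39 / 40 ≤ x) (hx' : x < 1) (q : ℕ) (y : ℝ) (h : OnC (5 : Fin 8) q y) : (ndF 5 q).X.v (crd 5 q y) x = crv (PP x) 5 q y := by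
  have h1 := h.1.nonneg
  have h2 := h.1.le_two
  match q, h with
  | 0, h => exact (ecv5q0 x).symm
  | 1, h => exact (ecv5q1 x).symm
  | 2, h => exact (ecv5q2 x).symm
  | 3, h =>
    rw [crv5]
    show xc53.v (c3n y) x = _
    simp only [xc53, c3g_v, swg_v, wn3, ycg_v h1 h2]
    push_cast
    ring
  | _ + 4, h => exact h.1.elim
theorem nFY6 (q : ℕ) (y : ℝ) (h : OnC (6 : Fin 8) q y) : (ndF 6 q).Y.v (crd 6 q y) = y := by
  have h1 := h.1.nonneg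
  have h2 := h.1.le_two
  match q, h with
  | 0, _ => rfl
  | 1, _ => rfl
  | 2, h => rfl
  | 3, h => exact ycg_v h1 h2
  | _ + 4, h => exact h.1.elim
theorem nFX6 {x : ℝ} (hx : 39 / 40 ≤ x) (hx' : x < 1) (q : ℕ) (y : ℝ) (h : OnC (6 : Fin 8) q y) : (ndF 6 q).X.v (crd 6 q y) x = crv (PP x) 6 q y := by
  have h1 := h.1.nonneg
  have h2 := h.1.le_two
  match q, h with
  | 0, h => exact (ecv6q0 x).symm
  | 1, h => exact (ecv6q1 x).symm
  | 2, h => exact (ecv6q2 x).symm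
  | 3, h =>
    rw [crv6]
    show xc63.v (c3n y) x = _
    simp only [xc63, c3g_v, swg_v, wn3, ycg_v h1 h2]
    push_cast
    ring
  | _ + 4, h => exact h.1.elim
theorem nFY7 (q : ℕ) (y : ℝ) (h : OnC (7 : Fin 8) q y) : (ndF 7 q).Y.v (crd 7 q y) = y := by
  have h1 := h.1.nonneg
  have h2 := h.1.le_two
  match q, h with
  | 0, _ => rfl
  | 1, _ => rfl
  | 2, h => rfl
  | 3, h => exact ycg_v h1 h2
  | _ + 4, h => exact h.1.elim
theorem nFX7 {x : ℝ} (hx : 39 / 40 ≤ x) (hx' : x < 1) (q : ℕ) (y : ℝ) (h : OnC (7 : Fin 8) q y) : (ndF 7 q).X.v (crd 7 q y) x = crv (PP x) 7 q y := by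
  have h1 := h.1.nonneg
  have h2 := h.1.le_two
  match q, h with
  | 0, _ =>
    rw [crv7]
    exact congrFun c3g_v y
  | 1, _ =>
    rw [crv7]
    exact congrFun c3g_v y
  | 2, _ =>
    rw [crv7]
    exact congrFun c3g_v y
  | 3, _ =>
    rw [crv7]
    exact rfl
  | _ + 4, h => exact h.1.elim
noncomputable abbrev tKF : Fin 8 → ℕ → ℝ → ℝ → ℝ := tbF (fun j q => (ndF j q).K) crd
noncomputable abbrev tL : Fin 8 → ℕ → ℝ → ℝ → ℝ := tbF (fun j q => (ndF j q).L) crd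
noncomputable def ndN (j : Fin 8) (q : ℕ) : NodeX :=
  match j, q with
  | 0, 0 => ndN0q0
  | 0, 1 => ndN0q1
  | 0, 2 => ndN0q2
  | 1, 0 => ndN1q0
  | 1, 1 => ndN1q1
  | 1, 2 => ndN1q2
  | 1, 3 => ndN1q3
  | 2, 0 => ndN2q0
  | 2, 1 => ndN2q1
  | 2, 2 => ndN2q2
  | 2, 3 => ndN2q3
  | 3, 0 => ndN3q0
  | 3, 1 => ndN3q1
  | 3, 2 => ndN3q2
  | 3, 3 => ndN3q3
  | 4, 0 => ndN4q0
  | 4, 1 => ndN4q1
  | 4, 2 => ndN4q2
  | 4, 3 => ndN4q3
  | 5, 0 => ndN5q0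
  | 5, 1 => ndN5q1
  | 5, 2 => ndN5q2
  | 5, 3 => ndN5q3
  | 6, 0 => ndN6q0
  | 6, 1 => ndN6q1
  | 6, 2 => ndN6q2
  | 6, 3 => ndN6q3
  | 7, 0 => ndN7q0
  | 7, 1 => ndN7q1
  | 7, 2 => ndN7q2
  | 7, 3 => ndN7q3
  | _, _ => ndN0q0
noncomputable def pcN (q : ℕ) : Piece :=
  match q with
  | 0 => pcN0
  | 1 => pcN1
  | 2 => pcN2
  | _ => pcN3
theorem nNY0 (q : ℕ) (y : ℝ) (h : OnC (0 : Fin 8) q y) : (ndN 0 q).Y.v (crd 0 q y) = y := by
  have h1 := h.1.nonneg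
  have h2 := h.1.le_two
  match q, h with
  | 0, _ => rfl
  | 1, _ => rfl
  | 2, h => exact yag_v h1 (h.2 rfl)
  | 3, h => exact absurd h.1.1 (by linarith [y_lt (h.2 rfl)])
  | _ + 4, h => exact h.1.elim
theorem nNX0 {x : ℝ} (hx : 39 / 40 ≤ x) (hx' : x < 1) (q : ℕ) (y : ℝ) (h : OnC (0 : Fin 8) q y) : (ndN 0 q).X.v (crd 0 q y) x = crv (PP x) 0 q y := by
  have h1 := h.1.nonneg
  have h2 := h.1.le_two
  match q, h with
  | 0, _ =>
    rw [crv0]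
    exact congrFun c1g_v y
  | 1, _ =>
    rw [crv0]
    exact congrFun c1g_v y
  | 2, _ =>
    rw [crv0]
    exact rfl
  | 3, h => exact absurd h.1.1 (by linarith [y_lt (h.2 rfl)])
  | _ + 4, h => exact h.1.elim
theorem nNY1 (q : ℕ) (y : ℝ) (h : OnC (1 : Fin 8) q y) : (ndN 1 q).Y.v (crd 1 q y) = y := by
  have h1 := h.1.nonneg
  have h2 := h.1.le_two
  match q, h with
  | 0, _ => rfl
  | 1, _ => rfl
  | 2, h => rfl
  | 3, h => rfl
  | _ + 4, h => exact h.1.elim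
theorem nNX1 {x : ℝ} (hx : 39 / 40 ≤ x) (hx' : x < 1) (q : ℕ) (y : ℝ) (h : OnC (1 : Fin 8) q y) : (ndN 1 q).X.v (crd 1 q y) x = crv (PP x) 1 q y := by
  have h1 := h.1.nonneg
  have h2 := h.1.le_two
  match q, h with
  | 0, h => exact (ecv1q0 x).symm
  | 1, h => exact (ecv1q1 x).symm
  | 2, h => exact (ecv1q2 x).symm
  | 3, h => exact (ecv1q3 x h.1.1).symm
  | _ + 4, h => exact h.1.elim
theorem nNY2 (q : ℕ) (y : ℝ) (h : OnC (2 : Fin 8) q y) : (ndN 2 q).Y.v (crd 2 q y) = y := by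
  have h1 := h.1.nonneg
  have h2 := h.1.le_two
  match q, h with
  | 0, _ => rfl
  | 1, _ => rfl
  | 2, h => rfl
  | 3, h => rfl
  | _ + 4, h => exact h.1.elim
theorem nNX2 {x : ℝ} (hx : 39 / 40 ≤ x) (hx' : x < 1) (q : ℕ) (y : ℝ) (h : OnC (2 : Fin 8) q y) : (ndN 2 q).X.v (crd 2 q y) x = crv (PP x) 2 q y := by
  have h1 := h.1.nonneg
  have h2 := h.1.le_two
  match q, h with
  | 0, h => exact (ecv2q0 x).symm
  | 1, h => exact (ecv2q1 x).symm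
  | 2, h => exact (ecv2q2 x).symm
  | 3, h => exact (ecv2q3 x h.1.1).symm
  | _ + 4, h => exact h.1.elim
theorem nNY3 (q : ℕ) (y : ℝ) (h : OnC (3 : Fin 8) q y) : (ndN 3 q).Y.v (crd 3 q y) = y := by
  have h1 := h.1.nonneg
  have h2 := h.1.le_two
  match q, h with
  | 0, _ => rfl
  | 1, _ => rfl
  | 2, h => rfl
  | 3, h => rfl
  | _ + 4, h => exact h.1.elim
theorem nNX3 {x : ℝ} (hx : 39 / 40 ≤ x) (hx' : x < 1) (q : ℕ) (y : ℝ) (h : OnC (3 : Fin 8) q y) : (ndN 3 q).X.v (crd 3 q y) x = crv (PP x) 3 q y := by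
  have h1 := h.1.nonneg
  have h2 := h.1.le_two
  match q, h with
  | 0, h => exact (ecv3q0 x).symm
  | 1, h => exact (ecv3q1 x).symm
  | 2, h => exact (ecv3q2 x).symm
  | 3, h => exact (ecv3q3 x h.1.1).symm
  | _ + 4, h => exact h.1.elim
theorem nNY4 (q : ℕ) (y : ℝ) (h : OnC (4 : Fin 8) q y) : (ndN 4 q).Y.v (crd 4 q y) = y := by
  have h1 := h.1.nonneg
  have h2 := h.1.le_two
  match q, h with
  | 0, _ => rfl
  | 1, _ => rfl
  | 2, h => rfl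
  | 3, h => exact ycg_v h1 h2
  | _ + 4, h => exact h.1.elim
theorem nNX4 {x : ℝ} (hx : 39 / 40 ≤ x) (hx' : x < 1) (q : ℕ) (y : ℝ) (h : OnC (4 : Fin 8) q y) : (ndN 4 q).X.v (crd 4 q y) x = crv (PP x) 4 q y := by
  have h1 := h.1.nonneg
  have h2 := h.1.le_two
  match q, h with
  | 0, h => exact (ecv4q0 hx hx').symm
  | 1, h => exact (ecv4q1 hx hx').symm
  | 2, h => exact (ecv4q2 hx hx').symm
  | 3, h =>
    rw [crv4 hx hx']
    show xc43.v (c3n y) x = _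
    simp only [xc43, xc43_6, c3g_v, swg_v, wn3, ycg_v h1 h2]
    push_cast
    ring
  | _ + 4, h => exact h.1.elim
theorem nNY5 (q : ℕ) (y : ℝ) (h : OnC (5 : Fin 8) q y) : (ndN 5 q).Y.v (crd 5 q y) = y := by
  have h1 := h.1.nonneg
  have h2 := h.1.le_two
  match q, h with
  | 0, _ => rfl
  | 1, _ => rfl
  | 2, h => rfl
  | 3, h => exact ycg_v h1 h2
  | _ + 4, h => exact h.1.elim
theorem nNX5 {x : ℝ} (hx : 39 / 40 ≤ x) (hx' : x < 1) (q : ℕ) (y : ℝ) (h : OnC (5 : Fin 8) q y) : (ndN 5 q).X.v (crd 5 q y) x = crv (PP x) 5 q y := by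
  have h1 := h.1.nonneg
  have h2 := h.1.le_two
  match q, h with
  | 0, h => exact (ecv5q0 x).symm
  | 1, h => exact (ecv5q1 x).symm
  | 2, h => exact (ecv5q2 x).symm
  | 3, h =>
    rw [crv5]
    show xc53.v (c3n y) x = _
    simp only [xc53, c3g_v, swg_v, wn3, ycg_v h1 h2]
    push_cast
    ring
  | _ + 4, h => exact h.1.elim
theorem nNY6 (q : ℕ) (y : ℝ) (h : OnC (6 : Fin 8) q y) : (ndN 6 q).Y.v (crd 6 q y) = y := by
  have h1 := h.1.nonneg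
  have h2 := h.1.le_two
  match q, h with
  | 0, _ => rfl
  | 1, _ => rfl
  | 2, h => rfl
  | 3, h => exact ycg_v h1 h2
  | _ + 4, h => exact h.1.elim
theorem nNX6 {x : ℝ} (hx : 39 / 40 ≤ x) (hx' : x < 1) (q : ℕ) (y : ℝ) (h : OnC (6 : Fin 8) q y) : (ndN 6 q).X.v (crd 6 q y) x = crv (PP x) 6 q y := by
  have h1 := h.1.nonneg
  have h2 := h.1.le_two
  match q, h with
  | 0, h => exact (ecv6q0 x).symm
  | 1, h => exact (ecv6q1 x).symm
  | 2, h => exact (ecv6q2 x).symm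
  | 3, h =>
    rw [crv6]
    show xc63.v (c3n y) x = _
    simp only [xc63, c3g_v, swg_v, wn3, ycg_v h1 h2]
    push_cast
    ring
  | _ + 4, h => exact h.1.elim
theorem nNY7 (q : ℕ) (y : ℝ) (h : OnC (7 : Fin 8) q y) : (ndN 7 q).Y.v (crd 7 q y) = y := by
  have h1 := h.1.nonneg
  have h2 := h.1.le_two
  match q, h with
  | 0, _ => rfl
  | 1, _ => rfl
  | 2, h => rfl
  | 3, h => exact ycg_v h1 h2
  | _ + 4, h => exact h.1.elim
theorem nNX7 {x : ℝ} (hx : 39 / 40 ≤ x) (hx' : x < 1) (q : ℕ) (y : ℝ) (h : OnC (7 : Fin 8) q y) : (ndN 7 q).X.v (crd 7 q y) x = crv (PP x) 7 q y := by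
  have h1 := h.1.nonneg
  have h2 := h.1.le_two
  match q, h with
  | 0, _ =>
    rw [crv7]
    exact congrFun c3g_v y
  | 1, _ =>
    rw [crv7]
    exact congrFun c3g_v y
  | 2, _ =>
    rw [crv7]
    exact congrFun c3g_v y
  | 3, _ =>
    rw [crv7]
    exact rfl
  | _ + 4, h => exact h.1.elim
noncomputable abbrev tKN : Fin 8 → ℕ → ℝ → ℝ → ℝ := tbF (fun j q => (ndN j q).K) crd
theorem rk0 {x : ℝ} (hx' : x < 1) : rkg.v 0 x = 1 := by
  simp only [rkg, rkg_3, rkg_5, rkg_30, rkg_31, rkg_36, rkg_50]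
  ((try push_cast); (repeat first | rw [if_pos (by linarith)] | rw [if_neg (by linarith)] | erw [if_pos (by linarith)] | erw [if_neg (by linarith)]); (try ring1))
theorem rb0 {x : ℝ} (hx' : x < 1) : rbg.v 0 x = b0g.v x := by
  simp only [rbg, rbg_3, rbg_5, rbg_10, rbg_12, rbg_21, rbg_33, rbg_34, rbg_37, rbg_44, rbg_51]
  ((try push_cast); (repeat first | rw [if_pos (by linarith)] | rw [if_neg (by linarith)] | erw [if_pos (by linarith)] | erw [if_neg (by linarith)]); (try ring1))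
theorem al0 {x : ℝ} (hx' : x < 1) : alg.v 0 x = 0 := by
  simp only [alg, alg_3, alg_5, alg_7, alg_15]
  ((try push_cast); (repeat first | rw [if_pos (by linarith)] | rw [if_neg (by linarith)] | erw [if_pos (by linarith)] | erw [if_neg (by linarith)]); (try ring1))
theorem be0 {x : ℝ} (hx' : x < 1) : beg.v 0 x = 0 := by
  simp only [beg, beg_3, beg_5, beg_7, beg_15]
  ((try push_cast); (repeat first | rw [if_pos (by linarith)] | rw [if_neg (by linarith)] | erw [if_pos (by linarith)] | erw [if_neg (by linarith)]); (try ring1))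
theorem zkf0q0 {x : ℝ} (hx' : x < 1) : kf0q0.v 0 x = 1 := by
  simp only [kf0q0, c1g_v, swg_v, c3g_v, c1n_zero, swn_zero, c3n_zero]
  all_goals ((try push_cast); norm_num [rk0 hx', rb0 hx', al0 hx', be0 hx']; (repeat first | rw [if_pos (by linarith)] | rw [if_neg (by linarith)]); (try norm_num [rk0 hx', rb0 hx', al0 hx', be0 hx']); (try (intro hh; exfalso; linarith)); (try ring1))
theorem zkf0q1 {x : ℝ} (hx' : x < 1) : kf0q1.v 1 x = 1 / 2 := by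
  simp only [kf0q1, kf0q1_9, c1g_v, swg_v, c3g_v, c1n_one, swn_one, c3n_one]
  all_goals ((try push_cast); norm_num [rk0 hx', rb0 hx', al0 hx', be0 hx']; (repeat first | rw [if_pos (by linarith)] | rw [if_neg (by linarith)]); (try norm_num [rk0 hx', rb0 hx', al0 hx', be0 hx']); (try (intro hh; exfalso; linarith)); (try ring1))
theorem zkf0q2 {x : ℝ} (hx' : x < 1) : kf0q2.v 1 x = 1 / 2 := by
  simp only [kf0q2, kf0q2_9, c1g_v, swg_v, c3g_v, c1n_one, swn_one, c3n_one]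
  all_goals ((try push_cast); norm_num [rk0 hx', rb0 hx', al0 hx', be0 hx']; (repeat first | rw [if_pos (by linarith)] | rw [if_neg (by linarith)]); (try norm_num [rk0 hx', rb0 hx', al0 hx', be0 hx']); (try (intro hh; exfalso; linarith)); (try ring1))
theorem zkf7q1 {x : ℝ} (hx' : x < 1) : kf7q1.v 1 x = 3 / 2 := by
  simp only [kf7q1, kf7q1_10, c1g_v, swg_v, c3g_v, c1n_one, swn_one, c3n_one, zkf0q1 hx']
  all_goals ((try push_cast); norm_num [rk0 hx', rb0 hx', al0 hx', be0 hx']; (repeat first | rw [if_pos (by linarith)] | rw [if_neg (by linarith)]); (try norm_num [rk0 hx', rb0 hx', al0 hx', be0 hx']); (try (intro hh; exfalso; linarith)); (try ring1))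
theorem zkf7q2 {x : ℝ} (hx' : x < 1) : kf7q2.v 1 x = 3 / 2 := by
  simp only [kf7q2, kf7q2_10, c1g_v, swg_v, c3g_v, c1n_one, swn_one, c3n_one, zkf0q2 hx']
  all_goals ((try push_cast); norm_num [rk0 hx', rb0 hx', al0 hx', be0 hx']; (repeat first | rw [if_pos (by linarith)] | rw [if_neg (by linarith)]); (try norm_num [rk0 hx', rb0 hx', al0 hx', be0 hx']); (try (intro hh; exfalso; linarith)); (try ring1))
theorem zkf7q3 {x : ℝ} (hx' : x < 1) : kf7q3.v 2 x = 0 := by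
  simp only [kf7q3, c1g_v, swg_v, c3g_v, c1n_two, swn_two, c3n_two]
  all_goals ((try push_cast); norm_num [rk0 hx', rb0 hx', al0 hx', be0 hx']; (repeat first | rw [if_pos (by linarith)] | rw [if_neg (by linarith)]); (try norm_num [rk0 hx', rb0 hx', al0 hx', be0 hx']); (try (intro hh; exfalso; linarith)); (try ring1))
theorem zkf3q0 {x : ℝ} (hx' : x < 1) : kf3q0.v 0 x = 1 := by
  simp only [kf3q0, kf3q0_3, kf3q0_11, kf3q0_39, kf3q0_42, kf3q0_50, kf3q0_55, jnK3q0, jnK3q0_8, cv3m, c1g_v, swg_v, c3g_v, c1n_zero, swn_zero, c3n_zero, zkf0q0 hx']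
  all_goals ((try push_cast); norm_num [rk0 hx', rb0 hx', al0 hx', be0 hx']; (repeat first | rw [if_pos (by linarith)] | rw [if_neg (by linarith)]); (try norm_num [rk0 hx', rb0 hx', al0 hx', be0 hx']); (try (intro hh; exfalso; linarith)); (try ring1))
theorem zkf3q1 {x : ℝ} (hx' : x < 1) : kf3q1.v 1 x = 3 / 2 := by
  simp only [kf3q1, kf3q1_3, kf3q1_15, kf3q1_30, kf3q1_36, kf3q1_44, kf3q1_50, jnK3q1, jnK3q1_8, cv3m, c1g_v, swg_v, c3g_v, c1n_one, swn_one, c3n_one, zkf0q1 hx', zkf7q1 hx']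
  all_goals ((try push_cast); norm_num [rk0 hx', rb0 hx', al0 hx', be0 hx']; (repeat first | rw [if_pos (by linarith)] | rw [if_neg (by linarith)]); (try norm_num [rk0 hx', rb0 hx', al0 hx', be0 hx']); (try (intro hh; exfalso; linarith)); (try ring1))
theorem zkf3q2 {x : ℝ} (hx' : x < 1) : kf3q2.v 1 x = 1 / 2 := by
  simp only [kf3q2, kf3q2_3, kf3q2_33, kf3q2_38, kf3q2_50, kf3q2_57, jnK3q2, jnK3q2_9, cv3p, c1g_v, swg_v, c3g_v, c1n_one, swn_one, c3n_one, zkf0q2 hx', zkf7q2 hx']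
  all_goals ((try push_cast); norm_num [rk0 hx', rb0 hx', al0 hx', be0 hx']; (repeat first | rw [if_pos (by linarith)] | rw [if_neg (by linarith)]); (try norm_num [rk0 hx', rb0 hx', al0 hx', be0 hx']); (try (intro hh; exfalso; linarith)); (try ring1))
theorem zkf3q3 {x : ℝ} (hx' : x < 1) : kf3q3.v 2 x = 0 := by
  simp only [kf3q3, kf3q3_3, kf3q3_15, kf3q3_34, kf3q3_37, kf3q3_38, kf3q3_50, kf3q3_55, jnK3q3, cv3r, c1g_v, swg_v, c3g_v, c1n_two, swn_two, c3n_two, zkf7q3 hx']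
  all_goals ((try push_cast); norm_num [rk0 hx', rb0 hx', al0 hx', be0 hx']; (repeat first | rw [if_pos (by linarith)] | rw [if_neg (by linarith)]); (try norm_num [rk0 hx', rb0 hx', al0 hx', be0 hx']); (try (intro hh; exfalso; linarith)); (try ring1))
theorem zkf6q1 {x : ℝ} (hx' : x < 1) : kf6q1.v 1 x = 3 / 2 := by
  simp only [kf6q1, kf6q1_15, jnK6q1, jnK6q1_5, jnK6q1_8, jnK6q1_19, cv6m, c1g_v, swg_v, c3g_v, c1n_one, swn_one, c3n_one, zkf0q1 hx', zkf7q1 hx', zkf3q1 hx']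
  all_goals ((try push_cast); norm_num [rk0 hx', rb0 hx', al0 hx', be0 hx']; (repeat first | rw [if_pos (by linarith)] | rw [if_neg (by linarith)]); (try norm_num [rk0 hx', rb0 hx', al0 hx', be0 hx']); (try (intro hh; exfalso; linarith)); (try ring1))
theorem zkf6q3 {x : ℝ} (hx' : x < 1) : kf6q3.v 2 x = 0 := by
  simp only [kf6q3, kf6q3_15, jnK6q3, jnK6q3_4, cv6r, c1g_v, swg_v, c3g_v, c1n_two, swn_two, c3n_two, zkf7q3 hx', zkf3q3 hx']
  all_goals ((try push_cast); norm_num [rk0 hx', rb0 hx', al0 hx', be0 hx']; (repeat first | rw [if_pos (by linarith)] | rw [if_neg (by linarith)]); (try norm_num [rk0 hx', rb0 hx', al0 hx', be0 hx']); (try (intro hh; exfalso; linarith)); (try ring1))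
theorem zkf5q1 {x : ℝ} (hx' : x < 1) : kf5q1.v 1 x = 3 / 2 := by
  simp only [kf5q1, kf5q1_15, jnK5q1, jnK5q1_5, jnK5q1_8, jnK5q1_19, cv5m, c1g_v, swg_v, c3g_v, c1n_one, swn_one, c3n_one, zkf0q1 hx', zkf7q1 hx', zkf3q1 hx', zkf6q1 hx']
  all_goals ((try push_cast); norm_num [rk0 hx', rb0 hx', al0 hx', be0 hx']; (repeat first | rw [if_pos (by linarith)] | rw [if_neg (by linarith)]); (try norm_num [rk0 hx', rb0 hx', al0 hx', be0 hx']); (try (intro hh; exfalso; linarith)); (try ring1))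
theorem zkf5q3 {x : ℝ} (hx' : x < 1) : kf5q3.v 2 x = 0 := by
  simp only [kf5q3, kf5q3_15, jnK5q3, jnK5q3_4, cv5r, c1g_v, swg_v, c3g_v, c1n_two, swn_two, c3n_two, zkf7q3 hx', zkf3q3 hx', zkf6q3 hx']
  all_goals ((try push_cast); norm_num [rk0 hx', rb0 hx', al0 hx', be0 hx']; (repeat first | rw [if_pos (by linarith)] | rw [if_neg (by linarith)]); (try norm_num [rk0 hx', rb0 hx', al0 hx', be0 hx']); (try (intro hh; exfalso; linarith)); (try ring1))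
theorem zkf4q1 {x : ℝ} (hx' : x < 1) : kf4q1.v 1 x = 3 / 2 := by
  simp only [kf4q1, kf4q1_3, c1g_v, swg_v, c3g_v, c1n_one, swn_one, c3n_one, zkf0q1 hx', zkf7q1 hx', zkf3q1 hx', zkf6q1 hx', zkf5q1 hx']
  all_goals ((try push_cast); norm_num [rk0 hx', rb0 hx', al0 hx', be0 hx']; (repeat first | rw [if_pos (by linarith)] | rw [if_neg (by linarith)]); (try norm_num [rk0 hx', rb0 hx', al0 hx', be0 hx']); (try (intro hh; exfalso; linarith)); (try ring1))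
theorem zkf4q3 {x : ℝ} (hx' : x < 1) : kf4q3.v 2 x = 0 := by
  simp only [kf4q3, c1g_v, swg_v, c3g_v, c1n_two, swn_two, c3n_two, zkf7q3 hx', zkf3q3 hx', zkf6q3 hx', zkf5q3 hx']
  all_goals ((try push_cast); norm_num [rk0 hx', rb0 hx', al0 hx', be0 hx']; (repeat first | rw [if_pos (by linarith)] | rw [if_neg (by linarith)]); (try norm_num [rk0 hx', rb0 hx', al0 hx', be0 hx']); (try (intro hh; exfalso; linarith)); (try ring1))
theorem zkf1q0 {x : ℝ} (hx' : x < 1) : kf1q0.v 0 x = 1 := by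
  simp only [kf1q0, kf1q0_11, jnK1q0, jnK1q0_10, cv1m, c1g_v, swg_v, c3g_v, c1n_zero, swn_zero, c3n_zero, zkf0q0 hx', zkf3q0 hx']
  all_goals ((try push_cast); norm_num [rk0 hx', rb0 hx', al0 hx', be0 hx']; (repeat first | rw [if_pos (by linarith)] | rw [if_neg (by linarith)]); (try norm_num [rk0 hx', rb0 hx', al0 hx', be0 hx']); (try (intro hh; exfalso; linarith)); (try ring1))
theorem zkf1q2 {x : ℝ} (hx' : x < 1) : kf1q2.v 1 x = 1 / 2 := by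
  simp only [kf1q2, jnK1q2, jnK1q2_4, jnK1q2_10, jnK1q2_22, cv1p, c1g_v, swg_v, c3g_v, c1n_one, swn_one, c3n_one, zkf0q2 hx', zkf7q2 hx', zkf3q2 hx']
  all_goals ((try push_cast); norm_num [rk0 hx', rb0 hx', al0 hx', be0 hx']; (repeat first | rw [if_pos (by linarith)] | rw [if_neg (by linarith)]); (try norm_num [rk0 hx', rb0 hx', al0 hx', be0 hx']); (try (intro hh; exfalso; linarith)); (try ring1))
theorem zkf1q3 {x : ℝ} (hx' : x < 1) : kf1q3.v 2 x = 0 := by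
  simp only [kf1q3, kf1q3_15, jnK1q3, cv1r, c1g_v, swg_v, c3g_v, c1n_two, swn_two, c3n_two, zkf7q3 hx', zkf3q3 hx', zkf6q3 hx', zkf5q3 hx', zkf4q3 hx']
  all_goals ((try push_cast); norm_num [rk0 hx', rb0 hx', al0 hx', be0 hx']; (repeat first | rw [if_pos (by linarith)] | rw [if_neg (by linarith)]); (try norm_num [rk0 hx', rb0 hx', al0 hx', be0 hx']); (try (intro hh; exfalso; linarith)); (try ring1))
theorem zkf2q0 {x : ℝ} (hx' : x < 1) : kf2q0.v 0 x = 1 := by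
  simp only [kf2q0, kf2q0_11, jnK2q0, jnK2q0_10, cv2m, c1g_v, swg_v, c3g_v, c1n_zero, swn_zero, c3n_zero, zkf0q0 hx', zkf3q0 hx', zkf1q0 hx']
  all_goals ((try push_cast); norm_num [rk0 hx', rb0 hx', al0 hx', be0 hx']; (repeat first | rw [if_pos (by linarith)] | rw [if_neg (by linarith)]); (try norm_num [rk0 hx', rb0 hx', al0 hx', be0 hx']); (try (intro hh; exfalso; linarith)); (try ring1))
theorem zkf2q2 {x : ℝ} (hx' : x < 1) : kf2q2.v 1 x = 1 / 2 := by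
  simp only [kf2q2, jnK2q2, jnK2q2_4, jnK2q2_10, jnK2q2_22, cv2p, c1g_v, swg_v, c3g_v, c1n_one, swn_one, c3n_one, zkf0q2 hx', zkf7q2 hx', zkf3q2 hx', zkf1q2 hx']
  all_goals ((try push_cast); norm_num [rk0 hx', rb0 hx', al0 hx', be0 hx']; (repeat first | rw [if_pos (by linarith)] | rw [if_neg (by linarith)]); (try norm_num [rk0 hx', rb0 hx', al0 hx', be0 hx']); (try (intro hh; exfalso; linarith)); (try ring1))
theorem zkf2q3 {x : ℝ} (hx' : x < 1) : kf2q3.v 2 x = 0 := by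
  simp only [kf2q3, kf2q3_15, jnK2q3, cv2r, c1g_v, swg_v, c3g_v, c1n_two, swn_two, c3n_two, zkf7q3 hx', zkf3q3 hx', zkf6q3 hx', zkf5q3 hx', zkf4q3 hx', zkf1q3 hx']
  all_goals ((try push_cast); norm_num [rk0 hx', rb0 hx', al0 hx', be0 hx']; (repeat first | rw [if_pos (by linarith)] | rw [if_neg (by linarith)]); (try norm_num [rk0 hx', rb0 hx', al0 hx', be0 hx']); (try (intro hh; exfalso; linarith)); (try ring1))
theorem zkb0q0 {x : ℝ} (hx' : x < 1) : kb0q0.v 0 x = b0g.v x * (1) := by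
  simp only [kb0q0, c1g_v, swg_v, c3g_v, c1n_zero, swn_zero, c3n_zero]
  all_goals ((try push_cast); norm_num [rk0 hx', rb0 hx', al0 hx', be0 hx']; (repeat first | rw [if_pos (by linarith)] | rw [if_neg (by linarith)]); (try norm_num [rk0 hx', rb0 hx', al0 hx', be0 hx']); (try (intro hh; exfalso; linarith)); (try ring1))
theorem zkb0q1 {x : ℝ} (hx' : x < 1) : kb0q1.v 1 x = b0g.v x * (1 / 2) := by
  simp only [kb0q1, kb0q1_9, c1g_v, swg_v, c3g_v, c1n_one, swn_one, c3n_one]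
  all_goals ((try push_cast); norm_num [rk0 hx', rb0 hx', al0 hx', be0 hx']; (repeat first | rw [if_pos (by linarith)] | rw [if_neg (by linarith)]); (try norm_num [rk0 hx', rb0 hx', al0 hx', be0 hx']); (try (intro hh; exfalso; linarith)); (try ring1))
theorem zkb0q2 {x : ℝ} (hx' : x < 1) : kb0q2.v 1 x = b0g.v x * (1 / 2) := by
  simp only [kb0q2, kb0q2_9, c1g_v, swg_v, c3g_v, c1n_one, swn_one, c3n_one]
  all_goals ((try push_cast); norm_num [rk0 hx', rb0 hx', al0 hx', be0 hx']; (repeat first | rw [if_pos (by linarith)] | rw [if_neg (by linarith)]); (try norm_num [rk0 hx', rb0 hx', al0 hx', be0 hx']); (try (intro hh; exfalso; linarith)); (try ring1))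
theorem zkb7q1 {x : ℝ} (hx' : x < 1) : kb7q1.v 1 x = b0g.v x * (3 / 2) := by
  simp only [kb7q1, kb7q1_10, c1g_v, swg_v, c3g_v, c1n_one, swn_one, c3n_one, zkb0q1 hx']
  all_goals ((try push_cast); norm_num [rk0 hx', rb0 hx', al0 hx', be0 hx']; (repeat first | rw [if_pos (by linarith)] | rw [if_neg (by linarith)]); (try norm_num [rk0 hx', rb0 hx', al0 hx', be0 hx']); (try (intro hh; exfalso; linarith)); (try ring1))
theorem zkb7q2 {x : ℝ} (hx' : x < 1) : kb7q2.v 1 x = b0g.v x * (3 / 2) := by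
  simp only [kb7q2, kb7q2_10, c1g_v, swg_v, c3g_v, c1n_one, swn_one, c3n_one, zkb0q2 hx']
  all_goals ((try push_cast); norm_num [rk0 hx', rb0 hx', al0 hx', be0 hx']; (repeat first | rw [if_pos (by linarith)] | rw [if_neg (by linarith)]); (try norm_num [rk0 hx', rb0 hx', al0 hx', be0 hx']); (try (intro hh; exfalso; linarith)); (try ring1))
theorem zkb7q3 {x : ℝ} (hx' : x < 1) : kb7q3.v 2 x = b0g.v x * (0) := by
  simp only [kb7q3, c1g_v, swg_v, c3g_v, c1n_two, swn_two, c3n_two]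
  all_goals ((try push_cast); norm_num [rk0 hx', rb0 hx', al0 hx', be0 hx']; (repeat first | rw [if_pos (by linarith)] | rw [if_neg (by linarith)]); (try norm_num [rk0 hx', rb0 hx', al0 hx', be0 hx']); (try (intro hh; exfalso; linarith)); (try ring1))
theorem zkb3q0 {x : ℝ} (hx' : x < 1) : kb3q0.v 0 x = b0g.v x * (1) := by
  simp only [kb3q0, kb3q0_3, kb3q0_12, kb3q0_41, kb3q0_43, kb3q0_55, kb3q0_60, jnB3q0, jnB3q0_9, cv3m, c1g_v, swg_v, c3g_v, c1n_zero, swn_zero, c3n_zero, zkb0q0 hx']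
  all_goals ((try push_cast); norm_num [rk0 hx', rb0 hx', al0 hx', be0 hx']; (repeat first | rw [if_pos (by linarith)] | rw [if_neg (by linarith)]); (try norm_num [rk0 hx', rb0 hx', al0 hx', be0 hx']); (try (intro hh; exfalso; linarith)); (try ring1))
theorem zkb3q1 {x : ℝ} (hx' : x < 1) : kb3q1.v 1 x = b0g.v x * (3 / 2) := by
  simp only [kb3q1, kb3q1_3, kb3q1_15, kb3q1_30, kb3q1_36, kb3q1_44, kb3q1_51, jnB3q1, jnB3q1_9, cv3m, c1g_v, swg_v, c3g_v, c1n_one, swn_one, c3n_one, zkb0q1 hx', zkb7q1 hx']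
  all_goals ((try push_cast); norm_num [rk0 hx', rb0 hx', al0 hx', be0 hx']; (repeat first | rw [if_pos (by linarith)] | rw [if_neg (by linarith)]); (try norm_num [rk0 hx', rb0 hx', al0 hx', be0 hx']); (try (intro hh; exfalso; linarith)); (try ring1))
theorem zkb3q2 {x : ℝ} (hx' : x < 1) : kb3q2.v 1 x = b0g.v x * (1 / 2) := by
  simp only [kb3q2, kb3q2_3, kb3q2_34, kb3q2_39, kb3q2_47, kb3q2_53, jnB3q2, jnB3q2_10, cv3p, c1g_v, swg_v, c3g_v, c1n_one, swn_one, c3n_one, zkb0q2 hx', zkb7q2 hx']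
  all_goals ((try push_cast); norm_num [rk0 hx', rb0 hx', al0 hx', be0 hx']; (repeat first | rw [if_pos (by linarith)] | rw [if_neg (by linarith)]); (try norm_num [rk0 hx', rb0 hx', al0 hx', be0 hx']); (try (intro hh; exfalso; linarith)); (try ring1))
theorem zkb3q3 {x : ℝ} (hx' : x < 1) : kb3q3.v 2 x = b0g.v x * (0) := by
  simp only [kb3q3, kb3q3_3, kb3q3_15, kb3q3_30, kb3q3_34, kb3q3_46, kb3q3_51, jnB3q3, cv3r, c1g_v, swg_v, c3g_v, c1n_two, swn_two, c3n_two, zkb7q3 hx']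
  all_goals ((try push_cast); norm_num [rk0 hx', rb0 hx', al0 hx', be0 hx']; (repeat first | rw [if_pos (by linarith)] | rw [if_neg (by linarith)]); (try norm_num [rk0 hx', rb0 hx', al0 hx', be0 hx']); (try (intro hh; exfalso; linarith)); (try ring1))
theorem zkb6q1 {x : ℝ} (hx' : x < 1) : kb6q1.v 1 x = b0g.v x * (3 / 2) := by
  simp only [kb6q1, kb6q1_15, jnB6q1, jnB6q1_5, jnB6q1_9, jnB6q1_19, cv6m, c1g_v, swg_v, c3g_v, c1n_one, swn_one, c3n_one, zkb0q1 hx', zkb7q1 hx', zkb3q1 hx']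
  all_goals ((try push_cast); norm_num [rk0 hx', rb0 hx', al0 hx', be0 hx']; (repeat first | rw [if_pos (by linarith)] | rw [if_neg (by linarith)]); (try norm_num [rk0 hx', rb0 hx', al0 hx', be0 hx']); (try (intro hh; exfalso; linarith)); (try ring1))
theorem zkb6q3 {x : ℝ} (hx' : x < 1) : kb6q3.v 2 x = b0g.v x * (0) := by
  simp only [kb6q3, kb6q3_5, jnB6q3, jnB6q3_4, cv6r, c1g_v, swg_v, c3g_v, c1n_two, swn_two, c3n_two, zkb7q3 hx', zkb3q3 hx']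
  all_goals ((try push_cast); norm_num [rk0 hx', rb0 hx', al0 hx', be0 hx']; (repeat first | rw [if_pos (by linarith)] | rw [if_neg (by linarith)]); (try norm_num [rk0 hx', rb0 hx', al0 hx', be0 hx']); (try (intro hh; exfalso; linarith)); (try ring1))
theorem zkb5q1 {x : ℝ} (hx' : x < 1) : kb5q1.v 1 x = b0g.v x * (3 / 2) := by
  simp only [kb5q1, kb5q1_15, jnB5q1, jnB5q1_5, jnB5q1_9, jnB5q1_19, cv5m, c1g_v, swg_v, c3g_v, c1n_one, swn_one, c3n_one, zkb0q1 hx', zkb7q1 hx', zkb3q1 hx', zkb6q1 hx']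
  all_goals ((try push_cast); norm_num [rk0 hx', rb0 hx', al0 hx', be0 hx']; (repeat first | rw [if_pos (by linarith)] | rw [if_neg (by linarith)]); (try norm_num [rk0 hx', rb0 hx', al0 hx', be0 hx']); (try (intro hh; exfalso; linarith)); (try ring1))
theorem zkb5q3 {x : ℝ} (hx' : x < 1) : kb5q3.v 2 x = b0g.v x * (0) := by
  simp only [kb5q3, kb5q3_15, jnB5q3, jnB5q3_4, cv5r, c1g_v, swg_v, c3g_v, c1n_two, swn_two, c3n_two, zkb7q3 hx', zkb3q3 hx', zkb6q3 hx']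
  all_goals ((try push_cast); norm_num [rk0 hx', rb0 hx', al0 hx', be0 hx']; (repeat first | rw [if_pos (by linarith)] | rw [if_neg (by linarith)]); (try norm_num [rk0 hx', rb0 hx', al0 hx', be0 hx']); (try (intro hh; exfalso; linarith)); (try ring1))
theorem zkb4q1 {x : ℝ} (hx' : x < 1) : kb4q1.v 1 x = b0g.v x * (3 / 2) := by
  simp only [kb4q1, kb4q1_3, c1g_v, swg_v, c3g_v, c1n_one, swn_one, c3n_one, zkb0q1 hx', zkb7q1 hx', zkb3q1 hx', zkb6q1 hx', zkb5q1 hx']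
  all_goals ((try push_cast); norm_num [rk0 hx', rb0 hx', al0 hx', be0 hx']; (repeat first | rw [if_pos (by linarith)] | rw [if_neg (by linarith)]); (try norm_num [rk0 hx', rb0 hx', al0 hx', be0 hx']); (try (intro hh; exfalso; linarith)); (try ring1))
theorem zkb4q3 {x : ℝ} (hx' : x < 1) : kb4q3.v 2 x = b0g.v x * (0) := by
  simp only [kb4q3, c1g_v, swg_v, c3g_v, c1n_two, swn_two, c3n_two, zkb7q3 hx', zkb3q3 hx', zkb6q3 hx', zkb5q3 hx']
  all_goals ((try push_cast); norm_num [rk0 hx', rb0 hx', al0 hx', be0 hx']; (repeat first | rw [if_pos (by linarith)] | rw [if_neg (by linarith)]); (try norm_num [rk0 hx', rb0 hx', al0 hx', be0 hx']); (try (intro hh; exfalso; linarith)); (try ring1))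
theorem zkb1q0 {x : ℝ} (hx' : x < 1) : kb1q0.v 0 x = b0g.v x * (1) := by
  simp only [kb1q0, kb1q0_11, jnB1q0, jnB1q0_11, cv1m, c1g_v, swg_v, c3g_v, c1n_zero, swn_zero, c3n_zero, zkb0q0 hx', zkb3q0 hx']
  all_goals ((try push_cast); norm_num [rk0 hx', rb0 hx', al0 hx', be0 hx']; (repeat first | rw [if_pos (by linarith)] | rw [if_neg (by linarith)]); (try norm_num [rk0 hx', rb0 hx', al0 hx', be0 hx']); (try (intro hh; exfalso; linarith)); (try ring1))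
theorem zkb1q2 {x : ℝ} (hx' : x < 1) : kb1q2.v 1 x = b0g.v x * (1 / 2) := by
  simp only [kb1q2, jnB1q2, jnB1q2_4, jnB1q2_10, jnB1q2_23, cv1p, c1g_v, swg_v, c3g_v, c1n_one, swn_one, c3n_one, zkb0q2 hx', zkb7q2 hx', zkb3q2 hx']
  all_goals ((try push_cast); norm_num [rk0 hx', rb0 hx', al0 hx', be0 hx']; (repeat first | rw [if_pos (by linarith)] | rw [if_neg (by linarith)]); (try norm_num [rk0 hx', rb0 hx', al0 hx', be0 hx']); (try (intro hh; exfalso; linarith)); (try ring1))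
theorem zkb1q3 {x : ℝ} (hx' : x < 1) : kb1q3.v 2 x = b0g.v x * (0) := by
  simp only [kb1q3, kb1q3_15, jnB1q3, cv1r, c1g_v, swg_v, c3g_v, c1n_two, swn_two, c3n_two, zkb7q3 hx', zkb3q3 hx', zkb6q3 hx', zkb5q3 hx', zkb4q3 hx']
  all_goals ((try push_cast); norm_num [rk0 hx', rb0 hx', al0 hx', be0 hx']; (repeat first | rw [if_pos (by linarith)] | rw [if_neg (by linarith)]); (try norm_num [rk0 hx', rb0 hx', al0 hx', be0 hx']); (try (intro hh; exfalso; linarith)); (try ring1))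
theorem zkb2q0 {x : ℝ} (hx' : x < 1) : kb2q0.v 0 x = b0g.v x * (1) := by
  simp only [kb2q0, kb2q0_12, jnB2q0, jnB2q0_11, cv2m, c1g_v, swg_v, c3g_v, c1n_zero, swn_zero, c3n_zero, zkb0q0 hx', zkb3q0 hx', zkb1q0 hx']
  all_goals ((try push_cast); norm_num [rk0 hx', rb0 hx', al0 hx', be0 hx']; (repeat first | rw [if_pos (by linarith)] | rw [if_neg (by linarith)]); (try norm_num [rk0 hx', rb0 hx', al0 hx', be0 hx']); (try (intro hh; exfalso; linarith)); (try ring1))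
theorem zkb2q2 {x : ℝ} (hx' : x < 1) : kb2q2.v 1 x = b0g.v x * (1 / 2) := by
  simp only [kb2q2, jnB2q2, jnB2q2_4, jnB2q2_10, jnB2q2_23, cv2p, c1g_v, swg_v, c3g_v, c1n_one, swn_one, c3n_one, zkb0q2 hx', zkb7q2 hx', zkb3q2 hx', zkb1q2 hx']
  all_goals ((try push_cast); norm_num [rk0 hx', rb0 hx', al0 hx', be0 hx']; (repeat first | rw [if_pos (by linarith)] | rw [if_neg (by linarith)]); (try norm_num [rk0 hx', rb0 hx', al0 hx', be0 hx']); (try (intro hh; exfalso; linarith)); (try ring1))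
theorem zkb2q3 {x : ℝ} (hx' : x < 1) : kb2q3.v 2 x = b0g.v x * (0) := by
  simp only [kb2q3, kb2q3_15, jnB2q3, cv2r, c1g_v, swg_v, c3g_v, c1n_two, swn_two, c3n_two, zkb7q3 hx', zkb3q3 hx', zkb6q3 hx', zkb5q3 hx', zkb4q3 hx', zkb1q3 hx']
  all_goals ((try push_cast); norm_num [rk0 hx', rb0 hx', al0 hx', be0 hx']; (repeat first | rw [if_pos (by linarith)] | rw [if_neg (by linarith)]); (try norm_num [rk0 hx', rb0 hx', al0 hx', be0 hx']); (try (intro hh; exfalso; linarith)); (try ring1))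
theorem zxt0q0 {x : ℝ} (hx' : x < 1) : xt0q0.v 0 x = -(1) := by
  simp only [xt0q0, c1g_v, swg_v, c3g_v, c1n_zero, swn_zero, c3n_zero]
  all_goals ((try push_cast); norm_num [rk0 hx', rb0 hx', al0 hx', be0 hx']; (repeat first | rw [if_pos (by linarith)] | rw [if_neg (by linarith)]); (try norm_num [rk0 hx', rb0 hx', al0 hx', be0 hx']); (try (intro hh; exfalso; linarith)); (try ring1))
theorem zxt0q1 {x : ℝ} (hx' : x < 1) : xt0q1.v 1 x = -(1 / 2) := by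
  simp only [xt0q1, c1g_v, swg_v, c3g_v, c1n_one, swn_one, c3n_one]
  all_goals ((try push_cast); norm_num [rk0 hx', rb0 hx', al0 hx', be0 hx']; (repeat first | rw [if_pos (by linarith)] | rw [if_neg (by linarith)]); (try norm_num [rk0 hx', rb0 hx', al0 hx', be0 hx']); (try (intro hh; exfalso; linarith)); (try ring1))
theorem zxt0q2 {x : ℝ} (hx' : x < 1) : xt0q2.v 1 x = -(1 / 2) := by
  simp only [xt0q2, xt0q2_6, c1g_v, swg_v, c3g_v, c1n_one, swn_one, c3n_one]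
  all_goals ((try push_cast); norm_num [rk0 hx', rb0 hx', al0 hx', be0 hx']; (repeat first | rw [if_pos (by linarith)] | rw [if_neg (by linarith)]); (try norm_num [rk0 hx', rb0 hx', al0 hx', be0 hx']); (try (intro hh; exfalso; linarith)); (try ring1))
theorem zxt7q1 {x : ℝ} (hx' : x < 1) : xt7q1.v 1 x = -(3 / 2) := by
  simp only [xt7q1, xt7q1_7, c1g_v, swg_v, c3g_v, c1n_one, swn_one, c3n_one, zxt0q1 hx']
  all_goals ((try push_cast); norm_num [rk0 hx', rb0 hx', al0 hx', be0 hx']; (repeat first | rw [if_pos (by linarith)] | rw [if_neg (by linarith)]); (try norm_num [rk0 hx', rb0 hx', al0 hx', be0 hx']); (try (intro hh; exfalso; linarith)); (try ring1))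
theorem zxt7q2 {x : ℝ} (hx' : x < 1) : xt7q2.v 1 x = -(3 / 2) := by
  simp only [xt7q2, xt7q2_7, c1g_v, swg_v, c3g_v, c1n_one, swn_one, c3n_one, zxt0q2 hx']
  all_goals ((try push_cast); norm_num [rk0 hx', rb0 hx', al0 hx', be0 hx']; (repeat first | rw [if_pos (by linarith)] | rw [if_neg (by linarith)]); (try norm_num [rk0 hx', rb0 hx', al0 hx', be0 hx']); (try (intro hh; exfalso; linarith)); (try ring1))
theorem zxt7q3 {x : ℝ} (hx' : x < 1) : xt7q3.v 2 x = -(0) := by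
  simp only [xt7q3, xt7q3_7, xt7q3_14, c1g_v, swg_v, c3g_v, c1n_two, swn_two, c3n_two]
  all_goals ((try push_cast); norm_num [rk0 hx', rb0 hx', al0 hx', be0 hx']; (repeat first | rw [if_pos (by linarith)] | rw [if_neg (by linarith)]); (try norm_num [rk0 hx', rb0 hx', al0 hx', be0 hx']); (try (intro hh; exfalso; linarith)); (try ring1))
theorem zxt3q0 {x : ℝ} (hx' : x < 1) : xt3q0.v 0 x = -(1) := by
  simp only [xt3q0, xt3q0_3, xt3q0_15, xt3q0_88, jnX3q0, cv3m, c1g_v, swg_v, c3g_v, c1n_zero, swn_zero, c3n_zero, zxt0q0 hx']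
  all_goals ((try push_cast); norm_num [rk0 hx', rb0 hx', al0 hx', be0 hx']; (repeat first | rw [if_pos (by linarith)] | rw [if_neg (by linarith)]); (try norm_num [rk0 hx', rb0 hx', al0 hx', be0 hx']); (try (intro hh; exfalso; linarith)); (try ring1))
theorem zxt3q1 {x : ℝ} (hx' : x < 1) : xt3q1.v 1 x = -(3 / 2) := by
  simp only [xt3q1, xt3q1_3, xt3q1_59, xt3q1_75, xt3q1_91, jnX3q1, cv3m, c1g_v, swg_v, c3g_v, c1n_one, swn_one, c3n_one, zxt0q1 hx', zxt7q1 hx']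
  all_goals ((try push_cast); norm_num [rk0 hx', rb0 hx', al0 hx', be0 hx']; (repeat first | rw [if_pos (by linarith)] | rw [if_neg (by linarith)]); (try norm_num [rk0 hx', rb0 hx', al0 hx', be0 hx']); (try (intro hh; exfalso; linarith)); (try ring1))
theorem zxt3q2 {x : ℝ} (hx' : x < 1) : xt3q2.v 1 x = -(1 / 2) := by
  simp only [xt3q2, xt3q2_3, xt3q2_21, xt3q2_82, xt3q2_86, jnX3q2, cv3p, c1g_v, swg_v, c3g_v, c1n_one, swn_one, c3n_one, zxt0q2 hx', zxt7q2 hx']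
  all_goals ((try push_cast); norm_num [rk0 hx', rb0 hx', al0 hx', be0 hx']; (repeat first | rw [if_pos (by linarith)] | rw [if_neg (by linarith)]); (try norm_num [rk0 hx', rb0 hx', al0 hx', be0 hx']); (try (intro hh; exfalso; linarith)); (try ring1))
theorem zxt3q3 {x : ℝ} (hx' : x < 1) : xt3q3.v 2 x = -(0) := by
  simp only [xt3q3, xt3q3_3, xt3q3_20, xt3q3_54, xt3q3_69, xt3q3_85, jnX3q3, cv3r, c1g_v, swg_v, c3g_v, c1n_two, swn_two, c3n_two, zxt7q3 hx']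
  all_goals ((try push_cast); norm_num [rk0 hx', rb0 hx', al0 hx', be0 hx']; (repeat first | rw [if_pos (by linarith)] | rw [if_neg (by linarith)]); (try norm_num [rk0 hx', rb0 hx', al0 hx', be0 hx']); (try (intro hh; exfalso; linarith)); (try ring1))
theorem zxt6q1 {x : ℝ} (hx' : x < 1) : xt6q1.v 1 x = -(3 / 2) := by
  simp only [xt6q1, xt6q1_3, xt6q1_59, xt6q1_75, jnX6q1, jnX6q1_5, jnX6q1_18, cv6m, c1g_v, swg_v, c3g_v, c1n_one, swn_one, c3n_one, zxt0q1 hx', zxt7q1 hx', zxt3q1 hx']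
  all_goals ((try push_cast); norm_num [rk0 hx', rb0 hx', al0 hx', be0 hx']; (repeat first | rw [if_pos (by linarith)] | rw [if_neg (by linarith)]); (try norm_num [rk0 hx', rb0 hx', al0 hx', be0 hx']); (try (intro hh; exfalso; linarith)); (try ring1))
theorem zxt6q3 {x : ℝ} (hx' : x < 1) : xt6q3.v 2 x = -(0) := by
  simp only [xt6q3, xt6q3_3, cv6r, c1g_v, swg_v, c3g_v, c1n_two, swn_two, c3n_two, zxt7q3 hx', zxt3q3 hx']
  all_goals ((try push_cast); norm_num [rk0 hx', rb0 hx', al0 hx', be0 hx']; (repeat first | rw [if_pos (by linarith)] | rw [if_neg (by linarith)]); (try norm_num [rk0 hx', rb0 hx', al0 hx', be0 hx']); (try (intro hh; exfalso; linarith)); (try ring1))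
theorem zxt5q1 {x : ℝ} (hx' : x < 1) : xt5q1.v 1 x = -(3 / 2) := by
  simp only [xt5q1, xt5q1_3, xt5q1_59, xt5q1_75, jnX5q1, jnX5q1_5, jnX5q1_18, cv5m, c1g_v, swg_v, c3g_v, c1n_one, swn_one, c3n_one, zxt0q1 hx', zxt7q1 hx', zxt3q1 hx', zxt6q1 hx']
  all_goals ((try push_cast); norm_num [rk0 hx', rb0 hx', al0 hx', be0 hx']; (repeat first | rw [if_pos (by linarith)] | rw [if_neg (by linarith)]); (try norm_num [rk0 hx', rb0 hx', al0 hx', be0 hx']); (try (intro hh; exfalso; linarith)); (try ring1))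
theorem zxt5q3 {x : ℝ} (hx' : x < 1) : xt5q3.v 2 x = -(0) := by
  simp only [xt5q3, xt5q3_3, xt5q3_20, cv5r, c1g_v, swg_v, c3g_v, c1n_two, swn_two, c3n_two, zxt7q3 hx', zxt3q3 hx', zxt6q3 hx']
  all_goals ((try push_cast); norm_num [rk0 hx', rb0 hx', al0 hx', be0 hx']; (repeat first | rw [if_pos (by linarith)] | rw [if_neg (by linarith)]); (try norm_num [rk0 hx', rb0 hx', al0 hx', be0 hx']); (try (intro hh; exfalso; linarith)); (try ring1))
theorem zxt4q1 {x : ℝ} (hx' : x < 1) : xt4q1.v 1 x = -(3 / 2) := by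
  simp only [xt4q1, xt4q1_3, c1g_v, swg_v, c3g_v, c1n_one, swn_one, c3n_one, zxt0q1 hx', zxt7q1 hx', zxt3q1 hx', zxt6q1 hx', zxt5q1 hx']
  all_goals ((try push_cast); norm_num [rk0 hx', rb0 hx', al0 hx', be0 hx']; (repeat first | rw [if_pos (by linarith)] | rw [if_neg (by linarith)]); (try norm_num [rk0 hx', rb0 hx', al0 hx', be0 hx']); (try (intro hh; exfalso; linarith)); (try ring1))
theorem zxt4q3 {x : ℝ} (hx' : x < 1) : xt4q3.v 2 x = -(0) := by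
  simp only [xt4q3, c1g_v, swg_v, c3g_v, c1n_two, swn_two, c3n_two, zxt7q3 hx', zxt3q3 hx', zxt6q3 hx', zxt5q3 hx']
  all_goals ((try push_cast); norm_num [rk0 hx', rb0 hx', al0 hx', be0 hx']; (repeat first | rw [if_pos (by linarith)] | rw [if_neg (by linarith)]); (try norm_num [rk0 hx', rb0 hx', al0 hx', be0 hx']); (try (intro hh; exfalso; linarith)); (try ring1))
theorem zxt1q0 {x : ℝ} (hx' : x < 1) : xt1q0.v 0 x = -(1) := by
  simp only [xt1q0, xt1q0_3, xt1q0_15, jnX1q0, cv1m, c1g_v, swg_v, c3g_v, c1n_zero, swn_zero, c3n_zero, zxt0q0 hx', zxt3q0 hx']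
  all_goals ((try push_cast); norm_num [rk0 hx', rb0 hx', al0 hx', be0 hx']; (repeat first | rw [if_pos (by linarith)] | rw [if_neg (by linarith)]); (try norm_num [rk0 hx', rb0 hx', al0 hx', be0 hx']); (try (intro hh; exfalso; linarith)); (try ring1))
theorem zxt1q2 {x : ℝ} (hx' : x < 1) : xt1q2.v 1 x = -(1 / 2) := by
  simp only [xt1q2, xt1q2_3, xt1q2_5, xt1q2_7, xt1q2_13, jnX1q2, jnX1q2_4, jnX1q2_7, cv1p, c1g_v, swg_v, c3g_v, c1n_one, swn_one, c3n_one, zxt0q2 hx', zxt7q2 hx', zxt3q2 hx']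
  all_goals ((try push_cast); norm_num [rk0 hx', rb0 hx', al0 hx', be0 hx']; (repeat first | rw [if_pos (by linarith)] | rw [if_neg (by linarith)]); (try norm_num [rk0 hx', rb0 hx', al0 hx', be0 hx']); (try (intro hh; exfalso; linarith)); (try ring1))
theorem zxt1q3 {x : ℝ} (hx' : x < 1) : xt1q3.v 2 x = -(0) := by
  simp only [xt1q3, xt1q3_3, xt1q3_20, xt1q3_54, xt1q3_69, jnX1q3, cv1r, c1g_v, swg_v, c3g_v, c1n_two, swn_two, c3n_two, zxt7q3 hx', zxt3q3 hx', zxt6q3 hx', zxt5q3 hx', zxt4q3 hx']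
  all_goals ((try push_cast); norm_num [rk0 hx', rb0 hx', al0 hx', be0 hx']; (repeat first | rw [if_pos (by linarith)] | rw [if_neg (by linarith)]); (try norm_num [rk0 hx', rb0 hx', al0 hx', be0 hx']); (try (intro hh; exfalso; linarith)); (try ring1))
theorem zxt2q0 {x : ℝ} (hx' : x < 1) : xt2q0.v 0 x = -(1) := by
  simp only [xt2q0, xt2q0_3, xt2q0_15, xt2q0_30, jnX2q0, cv2m, c1g_v, swg_v, c3g_v, c1n_zero, swn_zero, c3n_zero, zxt0q0 hx', zxt3q0 hx', zxt1q0 hx']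
  all_goals ((try push_cast); norm_num [rk0 hx', rb0 hx', al0 hx', be0 hx']; (repeat first | rw [if_pos (by linarith)] | rw [if_neg (by linarith)]); (try norm_num [rk0 hx', rb0 hx', al0 hx', be0 hx']); (try (intro hh; exfalso; linarith)); (try ring1))
theorem zxt2q2 {x : ℝ} (hx' : x < 1) : xt2q2.v 1 x = -(1 / 2) := by
  simp only [xt2q2, xt2q2_3, jnX2q2, jnX2q2_4, jnX2q2_7, cv2p, c1g_v, swg_v, c3g_v, c1n_one, swn_one, c3n_one, zxt0q2 hx', zxt7q2 hx', zxt3q2 hx', zxt1q2 hx']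
  all_goals ((try push_cast); norm_num [rk0 hx', rb0 hx', al0 hx', be0 hx']; (repeat first | rw [if_pos (by linarith)] | rw [if_neg (by linarith)]); (try norm_num [rk0 hx', rb0 hx', al0 hx', be0 hx']); (try (intro hh; exfalso; linarith)); (try ring1))
theorem zxt2q3 {x : ℝ} (hx' : x < 1) : xt2q3.v 2 x = -(0) := by
  simp only [xt2q3, xt2q3_3, xt2q3_20, xt2q3_54, xt2q3_69, jnX2q3, cv2r, c1g_v, swg_v, c3g_v, c1n_two, swn_two, c3n_two, zxt7q3 hx', zxt3q3 hx', zxt6q3 hx', zxt5q3 hx', zxt4q3 hx', zxt1q3 hx']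
  all_goals ((try push_cast); norm_num [rk0 hx', rb0 hx', al0 hx', be0 hx']; (repeat first | rw [if_pos (by linarith)] | rw [if_neg (by linarith)]); (try norm_num [rk0 hx', rb0 hx', al0 hx', be0 hx']); (try (intro hh; exfalso; linarith)); (try ring1))
theorem corF00 {x : ℝ} (hx' : x < 1) : (ndF 0 0).X.v 0 x = 1 ∧ (ndF 0 0).K.v 0 x = 1 * (1) ∧
    (ndF 0 0).L.v 0 x = 0 := by
  refine ⟨?_, ?_, ?_⟩
  · show cx0m.v 0 x = _
    simp only [cx0m, cv1m, cv2m, cv3m, cv4m, cv4m_5, cv5m, cv6m, cv1p, cv2p, cv3p, cv4p, cv4p_6, cv5p, cv6p, cv1r, cv2r, cv3r, cv4r, cv4r_6, cv5r, cv6r, c1g_v, swg_v, c3g_v, c1n_zero, swn_zero, c3n_zero, ya1]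
    all_goals norm_num
  · show kf0q0.v 0 x = _
    rw [zkf0q0 hx']
    all_goals norm_num
  · show l0q0.v 0 x = _
    simp only [l0q0, cv1m, cv2m, cv3m, cv4m, cv4m_5, cv5m, cv6m, cv1p, cv2p, cv3p, cv4p, cv4p_6, cv5p, cv6p, cv1r, cv2r, cv3r, cv4r, cv4r_6, cv5r, cv6r, c1g_v, swg_v, c3g_v, c1n_zero, swn_zero, c3n_zero, zxt0q0 hx']
    all_goals ((try push_cast) <;> (try ring1) <;> (try norm_num) <;> (try ring1))
theorem corF01 {x : ℝ} (hx' : x < 1) : (ndF 0 1).X.v 1 x = 1 / 2 ∧ (ndF 0 1).K.v 1 x = 1 * (1 / 2) ∧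
    (ndF 0 1).L.v 1 x = 0 := by
  refine ⟨?_, ?_, ?_⟩
  · show cx0m.v 1 x = _
    simp only [cx0m, cv1m, cv2m, cv3m, cv4m, cv4m_5, cv5m, cv6m, cv1p, cv2p, cv3p, cv4p, cv4p_6, cv5p, cv6p, cv1r, cv2r, cv3r, cv4r, cv4r_6, cv5r, cv6r, c1g_v, swg_v, c3g_v, c1n_one, swn_one, c3n_one, ya1]
    all_goals norm_num
  · show kf0q1.v 1 x = _
    rw [zkf0q1 hx']
    all_goals norm_num
  · show l0q1.v 1 x = _
    simp only [l0q1, cv1m, cv2m, cv3m, cv4m, cv4m_5, cv5m, cv6m, cv1p, cv2p, cv3p, cv4p, cv4p_6, cv5p, cv6p, cv1r, cv2r, cv3r, cv4r, cv4r_6, cv5r, cv6r, c1g_v, swg_v, c3g_v, c1n_one, swn_one, c3n_one, zxt0q1 hx']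
    all_goals ((try push_cast) <;> (try ring1) <;> (try norm_num) <;> (try ring1))
theorem corF02 {x : ℝ} (hx' : x < 1) : (ndF 0 2).X.v (1 / 2) x = 1 / 2 ∧ (ndF 0 2).K.v (1 / 2) x = 1 * (1 / 2) ∧
    (ndF 0 2).L.v (1 / 2) x = 0 := by
  refine ⟨?_, ?_, ?_⟩
  · show xc02.v (1 / 2) x = _
    simp only [xc02, cv1m, cv2m, cv3m, cv4m, cv4m_5, cv5m, cv6m, cv1p, cv2p, cv3p, cv4p, cv4p_6, cv5p, cv6p, cv1r, cv2r, cv3r, cv4r, cv4r_6, cv5r, cv6r, c1g_v, swg_v, c3g_v, c1n_one, swn_one, c3n_one, ya1]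
    all_goals norm_num
  · show kfc02.v (1 / 2) x = _
    simp only [kfc02, kfc02_9, c1g_v, swg_v, c3g_v, c1n_one, swn_one, c3n_one, ya1, zkf0q2 hx', zkf7q2 hx', zkf3q2 hx', zkf1q2 hx', zkf2q2 hx']
    all_goals ((try push_cast); norm_num [rk0 hx', rb0 hx', al0 hx', be0 hx']; (repeat first | rw [if_pos (by linarith)] | rw [if_neg (by linarith)]); (try norm_num [rk0 hx', rb0 hx', al0 hx', be0 hx']); (try (intro hh; exfalso; linarith)); (try ring1))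
  · show lc02.v (1 / 2) x = _
    simp only [lc02, lc02_7, c1g_v, swg_v, c3g_v, c1n_one, swn_one, c3n_one, ya1, zxt0q2 hx', zxt7q2 hx', zxt3q2 hx', zxt1q2 hx', zxt2q2 hx']
    all_goals ((try push_cast); norm_num [rk0 hx', rb0 hx', al0 hx', be0 hx']; (repeat first | rw [if_pos (by linarith)] | rw [if_neg (by linarith)]); (try norm_num [rk0 hx', rb0 hx', al0 hx', be0 hx']); (try (intro hh; exfalso; linarith)); (try ring1))
theorem corF10 {x : ℝ} (hx' : x < 1) : (ndF 1 0).X.v 0 x = 1 ∧ (ndF 1 0).K.v 0 x = 1 * (1) ∧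
    (ndF 1 0).L.v 0 x = 0 := by
  refine ⟨?_, ?_, ?_⟩
  · show cx1m.v 0 x = _
    simp only [cx1m, cv1m, cv2m, cv3m, cv4m, cv4m_5, cv5m, cv6m, cv1p, cv2p, cv3p, cv4p, cv4p_6, cv5p, cv6p, cv1r, cv2r, cv3r, cv4r, cv4r_6, cv5r, cv6r, c1g_v, swg_v, c3g_v, c1n_zero, swn_zero, c3n_zero, ya1]
    all_goals norm_num
  · show kf1q0.v 0 x = _
    rw [zkf1q0 hx']
    all_goals norm_num
  · show l1q0.v 0 x = _
    simp only [l1q0, cv1m, cv2m, cv3m, cv4m, cv4m_5, cv5m, cv6m, cv1p, cv2p, cv3p, cv4p, cv4p_6, cv5p, cv6p, cv1r, cv2r, cv3r, cv4r, cv4r_6, cv5r, cv6r, c1g_v, swg_v, c3g_v, c1n_zero, swn_zero, c3n_zero, zxt1q0 hx']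
    all_goals ((try push_cast) <;> (try ring1) <;> (try norm_num) <;> (try ring1))
theorem corF12 {x : ℝ} (hx' : x < 1) : (ndF 1 2).X.v 1 x = 1 / 2 ∧ (ndF 1 2).K.v 1 x = 1 * (1 / 2) ∧
    (ndF 1 2).L.v 1 x = 0 := by
  refine ⟨?_, ?_, ?_⟩
  · show cx1p.v 1 x = _
    simp only [cx1p, cv1m, cv2m, cv3m, cv4m, cv4m_5, cv5m, cv6m, cv1p, cv2p, cv3p, cv4p, cv4p_6, cv5p, cv6p, cv1r, cv2r, cv3r, cv4r, cv4r_6, cv5r, cv6r, c1g_v, swg_v, c3g_v, c1n_one, swn_one, c3n_one, ya1]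
    all_goals norm_num
  · show kf1q2.v 1 x = _
    rw [zkf1q2 hx']
    all_goals norm_num
  · show l1q2.v 1 x = _
    simp only [l1q2, cv1m, cv2m, cv3m, cv4m, cv4m_5, cv5m, cv6m, cv1p, cv2p, cv3p, cv4p, cv4p_6, cv5p, cv6p, cv1r, cv2r, cv3r, cv4r, cv4r_6, cv5r, cv6r, c1g_v, swg_v, c3g_v, c1n_one, swn_one, c3n_one, zxt1q2 hx']
    all_goals ((try push_cast) <;> (try ring1) <;> (try norm_num) <;> (try ring1))
theorem corF13 {x : ℝ} (hx' : x < 1) : (ndF 1 3).X.v 2 x = 0 ∧ (ndF 1 3).K.v 2 x = 1 * (0) ∧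
    (ndF 1 3).L.v 2 x = 0 := by
  refine ⟨?_, ?_, ?_⟩
  · show cx1r.v 2 x = _
    simp only [cx1r, cv1m, cv2m, cv3m, cv4m, cv4m_5, cv5m, cv6m, cv1p, cv2p, cv3p, cv4p, cv4p_6, cv5p, cv6p, cv1r, cv2r, cv3r, cv4r, cv4r_6, cv5r, cv6r, c1g_v, swg_v, c3g_v, c1n_two, swn_two, c3n_two, yc0, ya1]
    all_goals norm_num
  · show kf1q3.v 2 x = _
    rw [zkf1q3 hx']
    all_goals norm_num
  · show l1q3.v 2 x = _
    simp only [l1q3, cv1m, cv2m, cv3m, cv4m, cv4m_5, cv5m, cv6m, cv1p, cv2p, cv3p, cv4p, cv4p_6, cv5p, cv6p, cv1r, cv2r, cv3r, cv4r, cv4r_6, cv5r, cv6r, c1g_v, swg_v, c3g_v, c1n_two, swn_two, c3n_two, yc0, zxt1q3 hx']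
    all_goals ((try push_cast) <;> (try ring1) <;> (try norm_num) <;> (try ring1))
theorem corF20 {x : ℝ} (hx' : x < 1) : (ndF 2 0).X.v 0 x = 1 ∧ (ndF 2 0).K.v 0 x = 1 * (1) ∧
    (ndF 2 0).L.v 0 x = 0 := by
  refine ⟨?_, ?_, ?_⟩
  · show cx2m.v 0 x = _
    simp only [cx2m, cv1m, cv2m, cv3m, cv4m, cv4m_5, cv5m, cv6m, cv1p, cv2p, cv3p, cv4p, cv4p_6, cv5p, cv6p, cv1r, cv2r, cv3r, cv4r, cv4r_6, cv5r, cv6r, c1g_v, swg_v, c3g_v, c1n_zero, swn_zero, c3n_zero, ya1]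
    all_goals norm_num
  · show kf2q0.v 0 x = _
    rw [zkf2q0 hx']
    all_goals norm_num
  · show l2q0.v 0 x = _
    simp only [l2q0, cv1m, cv2m, cv3m, cv4m, cv4m_5, cv5m, cv6m, cv1p, cv2p, cv3p, cv4p, cv4p_6, cv5p, cv6p, cv1r, cv2r, cv3r, cv4r, cv4r_6, cv5r, cv6r, c1g_v, swg_v, c3g_v, c1n_zero, swn_zero, c3n_zero, zxt2q0 hx']
    all_goals ((try push_cast) <;> (try ring1) <;> (try norm_num) <;> (try ring1))
theorem corF22 {x : ℝ} (hx' : x < 1) : (ndF 2 2).X.v 1 x = 1 / 2 ∧ (ndF 2 2).K.v 1 x = 1 * (1 / 2) ∧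
    (ndF 2 2).L.v 1 x = 0 := by
  refine ⟨?_, ?_, ?_⟩
  · show cx2p.v 1 x = _
    simp only [cx2p, cv1m, cv2m, cv3m, cv4m, cv4m_5, cv5m, cv6m, cv1p, cv2p, cv3p, cv4p, cv4p_6, cv5p, cv6p, cv1r, cv2r, cv3r, cv4r, cv4r_6, cv5r, cv6r, c1g_v, swg_v, c3g_v, c1n_one, swn_one, c3n_one, ya1]
    all_goals norm_num
  · show kf2q2.v 1 x = _
    rw [zkf2q2 hx']
    all_goals norm_num
  · show l2q2.v 1 x = _
    simp only [l2q2, cv1m, cv2m, cv3m, cv4m, cv4m_5, cv5m, cv6m, cv1p, cv2p, cv3p, cv4p, cv4p_6, cv5p, cv6p, cv1r, cv2r, cv3r, cv4r, cv4r_6, cv5r, cv6r, c1g_v, swg_v, c3g_v, c1n_one, swn_one, c3n_one, zxt2q2 hx']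
    all_goals ((try push_cast) <;> (try ring1) <;> (try norm_num) <;> (try ring1))
theorem corF23 {x : ℝ} (hx' : x < 1) : (ndF 2 3).X.v 2 x = 0 ∧ (ndF 2 3).K.v 2 x = 1 * (0) ∧
    (ndF 2 3).L.v 2 x = 0 := by
  refine ⟨?_, ?_, ?_⟩
  · show cx2r.v 2 x = _
    simp only [cx2r, cv1m, cv2m, cv3m, cv4m, cv4m_5, cv5m, cv6m, cv1p, cv2p, cv3p, cv4p, cv4p_6, cv5p, cv6p, cv1r, cv2r, cv3r, cv4r, cv4r_6, cv5r, cv6r, c1g_v, swg_v, c3g_v, c1n_two, swn_two, c3n_two, yc0, ya1]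
    all_goals norm_num
  · show kf2q3.v 2 x = _
    rw [zkf2q3 hx']
    all_goals norm_num
  · show l2q3.v 2 x = _
    simp only [l2q3, cv1m, cv2m, cv3m, cv4m, cv4m_5, cv5m, cv6m, cv1p, cv2p, cv3p, cv4p, cv4p_6, cv5p, cv6p, cv1r, cv2r, cv3r, cv4r, cv4r_6, cv5r, cv6r, c1g_v, swg_v, c3g_v, c1n_two, swn_two, c3n_two, yc0, zxt2q3 hx']
    all_goals ((try push_cast) <;> (try ring1) <;> (try norm_num) <;> (try ring1))
theorem corF30 {x : ℝ} (hx' : x < 1) : (ndF 3 0).X.v 0 x = 1 ∧ (ndF 3 0).K.v 0 x = 1 * (1) ∧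
    (ndF 3 0).L.v 0 x = 0 := by
  refine ⟨?_, ?_, ?_⟩
  · show cx3m.v 0 x = _
    simp only [cx3m, cv1m, cv2m, cv3m, cv4m, cv4m_5, cv5m, cv6m, cv1p, cv2p, cv3p, cv4p, cv4p_6, cv5p, cv6p, cv1r, cv2r, cv3r, cv4r, cv4r_6, cv5r, cv6r, c1g_v, swg_v, c3g_v, c1n_zero, swn_zero, c3n_zero, ya1]
    all_goals norm_num
  · show kf3q0.v 0 x = _
    rw [zkf3q0 hx']
    all_goals norm_num
  · show l3q0.v 0 x = _
    simp only [l3q0, cv1m, cv2m, cv3m, cv4m, cv4m_5, cv5m, cv6m, cv1p, cv2p, cv3p, cv4p, cv4p_6, cv5p, cv6p, cv1r, cv2r, cv3r, cv4r, cv4r_6, cv5r, cv6r, c1g_v, swg_v, c3g_v, c1n_zero, swn_zero, c3n_zero, zxt3q0 hx']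
    all_goals ((try push_cast) <;> (try ring1) <;> (try norm_num) <;> (try ring1))
theorem corF31 {x : ℝ} (hx' : x < 1) : (ndF 3 1).X.v 1 x = 3 / 2 ∧ (ndF 3 1).K.v 1 x = 1 * (3 / 2) ∧
    (ndF 3 1).L.v 1 x = 0 := by
  refine ⟨?_, ?_, ?_⟩
  · show cx3m.v 1 x = _
    simp only [cx3m, cv1m, cv2m, cv3m, cv4m, cv4m_5, cv5m, cv6m, cv1p, cv2p, cv3p, cv4p, cv4p_6, cv5p, cv6p, cv1r, cv2r, cv3r, cv4r, cv4r_6, cv5r, cv6r, c1g_v, swg_v, c3g_v, c1n_one, swn_one, c3n_one, ya1]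
    all_goals norm_num
  · show kf3q1.v 1 x = _
    rw [zkf3q1 hx']
    all_goals norm_num
  · show l3q1.v 1 x = _
    simp only [l3q1, cv1m, cv2m, cv3m, cv4m, cv4m_5, cv5m, cv6m, cv1p, cv2p, cv3p, cv4p, cv4p_6, cv5p, cv6p, cv1r, cv2r, cv3r, cv4r, cv4r_6, cv5r, cv6r, c1g_v, swg_v, c3g_v, c1n_one, swn_one, c3n_one, zxt3q1 hx']
    all_goals ((try push_cast) <;> (try ring1) <;> (try norm_num) <;> (try ring1))
theorem corF32 {x : ℝ} (hx' : x < 1) : (ndF 3 2).X.v 1 x = 1 / 2 ∧ (ndF 3 2).K.v 1 x = 1 * (1 / 2) ∧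
    (ndF 3 2).L.v 1 x = 0 := by
  refine ⟨?_, ?_, ?_⟩
  · show cx3p.v 1 x = _
    simp only [cx3p, cv1m, cv2m, cv3m, cv4m, cv4m_5, cv5m, cv6m, cv1p, cv2p, cv3p, cv4p, cv4p_6, cv5p, cv6p, cv1r, cv2r, cv3r, cv4r, cv4r_6, cv5r, cv6r, c1g_v, swg_v, c3g_v, c1n_one, swn_one, c3n_one, ya1]
    all_goals norm_num
  · show kf3q2.v 1 x = _
    rw [zkf3q2 hx']
    all_goals norm_num
  · show l3q2.v 1 x = _
    simp only [l3q2, cv1m, cv2m, cv3m, cv4m, cv4m_5, cv5m, cv6m, cv1p, cv2p, cv3p, cv4p, cv4p_6, cv5p, cv6p, cv1r, cv2r, cv3r, cv4r, cv4r_6, cv5r, cv6r, c1g_v, swg_v, c3g_v, c1n_one, swn_one, c3n_one, zxt3q2 hx']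
    all_goals ((try push_cast) <;> (try ring1) <;> (try norm_num) <;> (try ring1))
theorem corF33 {x : ℝ} (hx' : x < 1) : (ndF 3 3).X.v 2 x = 0 ∧ (ndF 3 3).K.v 2 x = 1 * (0) ∧
    (ndF 3 3).L.v 2 x = 0 := by
  refine ⟨?_, ?_, ?_⟩
  · show cx3r.v 2 x = _
    simp only [cx3r, cv1m, cv2m, cv3m, cv4m, cv4m_5, cv5m, cv6m, cv1p, cv2p, cv3p, cv4p, cv4p_6, cv5p, cv6p, cv1r, cv2r, cv3r, cv4r, cv4r_6, cv5r, cv6r, c1g_v, swg_v, c3g_v, c1n_two, swn_two, c3n_two, yc0, ya1]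
    all_goals norm_num
  · show kf3q3.v 2 x = _
    rw [zkf3q3 hx']
    all_goals norm_num
  · show l3q3.v 2 x = _
    simp only [l3q3, cv1m, cv2m, cv3m, cv4m, cv4m_5, cv5m, cv6m, cv1p, cv2p, cv3p, cv4p, cv4p_6, cv5p, cv6p, cv1r, cv2r, cv3r, cv4r, cv4r_6, cv5r, cv6r, c1g_v, swg_v, c3g_v, c1n_two, swn_two, c3n_two, yc0, zxt3q3 hx']
    all_goals ((try push_cast) <;> (try ring1) <;> (try norm_num) <;> (try ring1))
theorem corF41 {x : ℝ} (hx' : x < 1) : (ndF 4 1).X.v 1 x = 3 / 2 ∧ (ndF 4 1).K.v 1 x = 1 * (3 / 2) ∧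
    (ndF 4 1).L.v 1 x = 0 := by
  refine ⟨?_, ?_, ?_⟩
  · show cv4m.v 1 x = _
    simp only [cv4m, cv4m_5, cv1m, cv2m, cv3m, cv4m, cv4m_5, cv5m, cv6m, cv1p, cv2p, cv3p, cv4p, cv4p_6, cv5p, cv6p, cv1r, cv2r, cv3r, cv4r, cv4r_6, cv5r, cv6r, c1g_v, swg_v, c3g_v, c1n_one, swn_one, c3n_one, ya1]
    all_goals norm_num
  · show kf4q1.v 1 x = _
    rw [zkf4q1 hx']
    all_goals norm_num
  · show l4q1.v 1 x = _
    simp only [l4q1, cv1m, cv2m, cv3m, cv4m, cv4m_5, cv5m, cv6m, cv1p, cv2p, cv3p, cv4p, cv4p_6, cv5p, cv6p, cv1r, cv2r, cv3r, cv4r, cv4r_6, cv5r, cv6r, c1g_v, swg_v, c3g_v, c1n_one, swn_one, c3n_one, zxt4q1 hx']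
    all_goals ((try push_cast) <;> (try ring1) <;> (try norm_num) <;> (try ring1))
theorem corF43 {x : ℝ} (hx' : x < 1) : (ndF 4 3).X.v 0 x = 0 ∧ (ndF 4 3).K.v 0 x = 1 * (0) ∧
    (ndF 4 3).L.v 0 x = 0 := by
  refine ⟨?_, ?_, ?_⟩
  · show xc43.v 0 x = _
    simp only [xc43, xc43_6, cv1m, cv2m, cv3m, cv4m, cv4m_5, cv5m, cv6m, cv1p, cv2p, cv3p, cv4p, cv4p_6, cv5p, cv6p, cv1r, cv2r, cv3r, cv4r, cv4r_6, cv5r, cv6r, c1g_v, swg_v, c3g_v, c1n_two, swn_two, c3n_two, yc0, ya1]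
    all_goals norm_num
  · show kfc43.v 0 x = _
    simp only [kfc43, kfc43_9, kfc43_21, jnK5q3, jnK5q3_4, c1g_v, swg_v, c3g_v, c1n_two, swn_two, c3n_two, yc0, ya1, zkf7q3 hx', zkf3q3 hx', zkf6q3 hx', zkf5q3 hx', zkf4q3 hx', zkf1q3 hx', zkf2q3 hx']
    all_goals ((try push_cast); norm_num [rk0 hx', rb0 hx', al0 hx', be0 hx']; (repeat first | rw [if_pos (by linarith)] | rw [if_neg (by linarith)]); (try norm_num [rk0 hx', rb0 hx', al0 hx', be0 hx']); (try (intro hh; exfalso; linarith)); (try ring1))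
  · show lc43.v 0 x = _
    simp only [lc43, lc43_7, lc43_9, lc43_18, lc43_35, c1g_v, swg_v, c3g_v, c1n_two, swn_two, c3n_two, yc0, ya1, zxt7q3 hx', zxt3q3 hx', zxt6q3 hx', zxt5q3 hx', zxt4q3 hx', zxt1q3 hx', zxt2q3 hx']
    all_goals ((try push_cast); norm_num [rk0 hx', rb0 hx', al0 hx', be0 hx']; (repeat first | rw [if_pos (by linarith)] | rw [if_neg (by linarith)]); (try norm_num [rk0 hx', rb0 hx', al0 hx', be0 hx']); (try (intro hh; exfalso; linarith)); (try ring1))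
theorem corF51 {x : ℝ} (hx' : x < 1) : (ndF 5 1).X.v 1 x = 3 / 2 ∧ (ndF 5 1).K.v 1 x = 1 * (3 / 2) ∧
    (ndF 5 1).L.v 1 x = 0 := by
  refine ⟨?_, ?_, ?_⟩
  · show cx5m.v 1 x = _
    simp only [cx5m, cv1m, cv2m, cv3m, cv4m, cv4m_5, cv5m, cv6m, cv1p, cv2p, cv3p, cv4p, cv4p_6, cv5p, cv6p, cv1r, cv2r, cv3r, cv4r, cv4r_6, cv5r, cv6r, c1g_v, swg_v, c3g_v, c1n_one, swn_one, c3n_one, ya1]
    all_goals norm_num
  · show kf5q1.v 1 x = _
    rw [zkf5q1 hx']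
    all_goals norm_num
  · show l5q1.v 1 x = _
    simp only [l5q1, cv1m, cv2m, cv3m, cv4m, cv4m_5, cv5m, cv6m, cv1p, cv2p, cv3p, cv4p, cv4p_6, cv5p, cv6p, cv1r, cv2r, cv3r, cv4r, cv4r_6, cv5r, cv6r, c1g_v, swg_v, c3g_v, c1n_one, swn_one, c3n_one, zxt5q1 hx']
    all_goals ((try push_cast) <;> (try ring1) <;> (try norm_num) <;> (try ring1))
theorem corF53 {x : ℝ} (hx' : x < 1) : (ndF 5 3).X.v 0 x = 0 ∧ (ndF 5 3).K.v 0 x = 1 * (0) ∧
    (ndF 5 3).L.v 0 x = 0 := by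
  refine ⟨?_, ?_, ?_⟩
  · show xc53.v 0 x = _
    simp only [xc53, cv1m, cv2m, cv3m, cv4m, cv4m_5, cv5m, cv6m, cv1p, cv2p, cv3p, cv4p, cv4p_6, cv5p, cv6p, cv1r, cv2r, cv3r, cv4r, cv4r_6, cv5r, cv6r, c1g_v, swg_v, c3g_v, c1n_two, swn_two, c3n_two, yc0, ya1]
    all_goals norm_num
  · show kfc53.v 0 x = _
    simp only [kfc53, kfc53_16, jnK5q3, jnK5q3_4, c1g_v, swg_v, c3g_v, c1n_two, swn_two, c3n_two, yc0, ya1, zkf7q3 hx', zkf3q3 hx', zkf6q3 hx', zkf5q3 hx', zkf4q3 hx', zkf1q3 hx', zkf2q3 hx']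
    all_goals ((try push_cast); norm_num [rk0 hx', rb0 hx', al0 hx', be0 hx']; (repeat first | rw [if_pos (by linarith)] | rw [if_neg (by linarith)]); (try norm_num [rk0 hx', rb0 hx', al0 hx', be0 hx']); (try (intro hh; exfalso; linarith)); (try ring1))
  · show lc53.v 0 x = _
    simp only [lc53, lc53_10, lc53_12, lc53_29, c1g_v, swg_v, c3g_v, c1n_two, swn_two, c3n_two, yc0, ya1, zxt7q3 hx', zxt3q3 hx', zxt6q3 hx', zxt5q3 hx', zxt4q3 hx', zxt1q3 hx', zxt2q3 hx']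
    all_goals ((try push_cast); norm_num [rk0 hx', rb0 hx', al0 hx', be0 hx']; (repeat first | rw [if_pos (by linarith)] | rw [if_neg (by linarith)]); (try norm_num [rk0 hx', rb0 hx', al0 hx', be0 hx']); (try (intro hh; exfalso; linarith)); (try ring1))
theorem corF61 {x : ℝ} (hx' : x < 1) : (ndF 6 1).X.v 1 x = 3 / 2 ∧ (ndF 6 1).K.v 1 x = 1 * (3 / 2) ∧
    (ndF 6 1).L.v 1 x = 0 := by
  refine ⟨?_, ?_, ?_⟩
  · show cx6m.v 1 x = _
    simp only [cx6m, cv1m, cv2m, cv3m, cv4m, cv4m_5, cv5m, cv6m, cv1p, cv2p, cv3p, cv4p, cv4p_6, cv5p, cv6p, cv1r, cv2r, cv3r, cv4r, cv4r_6, cv5r, cv6r, c1g_v, swg_v, c3g_v, c1n_one, swn_one, c3n_one, ya1]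
    all_goals norm_num
  · show kf6q1.v 1 x = _
    rw [zkf6q1 hx']
    all_goals norm_num
  · show l6q1.v 1 x = _
    simp only [l6q1, cv1m, cv2m, cv3m, cv4m, cv4m_5, cv5m, cv6m, cv1p, cv2p, cv3p, cv4p, cv4p_6, cv5p, cv6p, cv1r, cv2r, cv3r, cv4r, cv4r_6, cv5r, cv6r, c1g_v, swg_v, c3g_v, c1n_one, swn_one, c3n_one, zxt6q1 hx']
    all_goals ((try push_cast) <;> (try ring1) <;> (try norm_num) <;> (try ring1))
theorem corF63 {x : ℝ} (hx' : x < 1) : (ndF 6 3).X.v 0 x = 0 ∧ (ndF 6 3).K.v 0 x = 1 * (0) ∧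
    (ndF 6 3).L.v 0 x = 0 := by
  refine ⟨?_, ?_, ?_⟩
  · show xc63.v 0 x = _
    simp only [xc63, cv1m, cv2m, cv3m, cv4m, cv4m_5, cv5m, cv6m, cv1p, cv2p, cv3p, cv4p, cv4p_6, cv5p, cv6p, cv1r, cv2r, cv3r, cv4r, cv4r_6, cv5r, cv6r, c1g_v, swg_v, c3g_v, c1n_two, swn_two, c3n_two, yc0, ya1]
    all_goals norm_num
  · show kfc63.v 0 x = _
    simp only [kfc63, kfc63_16, jnK6q3, jnK6q3_4, c1g_v, swg_v, c3g_v, c1n_two, swn_two, c3n_two, yc0, ya1, zkf7q3 hx', zkf3q3 hx', zkf6q3 hx', zkf5q3 hx', zkf4q3 hx', zkf1q3 hx', zkf2q3 hx']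
    all_goals ((try push_cast); norm_num [rk0 hx', rb0 hx', al0 hx', be0 hx']; (repeat first | rw [if_pos (by linarith)] | rw [if_neg (by linarith)]); (try norm_num [rk0 hx', rb0 hx', al0 hx', be0 hx']); (try (intro hh; exfalso; linarith)); (try ring1))
  · show lc63.v 0 x = _
    simp only [lc63, lc63_10, lc63_12, c1g_v, swg_v, c3g_v, c1n_two, swn_two, c3n_two, yc0, ya1, zxt7q3 hx', zxt3q3 hx', zxt6q3 hx', zxt5q3 hx', zxt4q3 hx', zxt1q3 hx', zxt2q3 hx']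
    all_goals ((try push_cast); norm_num [rk0 hx', rb0 hx', al0 hx', be0 hx']; (repeat first | rw [if_pos (by linarith)] | rw [if_neg (by linarith)]); (try norm_num [rk0 hx', rb0 hx', al0 hx', be0 hx']); (try (intro hh; exfalso; linarith)); (try ring1))
theorem corF71 {x : ℝ} (hx' : x < 1) : (ndF 7 1).X.v 1 x = 3 / 2 ∧ (ndF 7 1).K.v 1 x = 1 * (3 / 2) ∧
    (ndF 7 1).L.v 1 x = 0 := by
  refine ⟨?_, ?_, ?_⟩
  · show cx7m.v 1 x = _
    simp only [cx7m, cv1m, cv2m, cv3m, cv4m, cv4m_5, cv5m, cv6m, cv1p, cv2p, cv3p, cv4p, cv4p_6, cv5p, cv6p, cv1r, cv2r, cv3r, cv4r, cv4r_6, cv5r, cv6r, c1g_v, swg_v, c3g_v, c1n_one, swn_one, c3n_one, ya1]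
    all_goals norm_num
  · show kf7q1.v 1 x = _
    rw [zkf7q1 hx']
    all_goals norm_num
  · show l7q1.v 1 x = _
    simp only [l7q1, cv1m, cv2m, cv3m, cv4m, cv4m_5, cv5m, cv6m, cv1p, cv2p, cv3p, cv4p, cv4p_6, cv5p, cv6p, cv1r, cv2r, cv3r, cv4r, cv4r_6, cv5r, cv6r, c1g_v, swg_v, c3g_v, c1n_one, swn_one, c3n_one, zxt7q1 hx']
    all_goals ((try push_cast) <;> (try ring1) <;> (try norm_num) <;> (try ring1))
theorem corF72 {x : ℝ} (hx' : x < 1) : (ndF 7 2).X.v 1 x = 3 / 2 ∧ (ndF 7 2).K.v 1 x = 1 * (3 / 2) ∧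
    (ndF 7 2).L.v 1 x = 0 := by
  refine ⟨?_, ?_, ?_⟩
  · show cx7p.v 1 x = _
    simp only [cx7p, cv1m, cv2m, cv3m, cv4m, cv4m_5, cv5m, cv6m, cv1p, cv2p, cv3p, cv4p, cv4p_6, cv5p, cv6p, cv1r, cv2r, cv3r, cv4r, cv4r_6, cv5r, cv6r, c1g_v, swg_v, c3g_v, c1n_one, swn_one, c3n_one, ya1]
    all_goals norm_num
  · show kf7q2.v 1 x = _
    rw [zkf7q2 hx']
    all_goals norm_num
  · show l7q2.v 1 x = _
    simp only [l7q2, cv1m, cv2m, cv3m, cv4m, cv4m_5, cv5m, cv6m, cv1p, cv2p, cv3p, cv4p, cv4p_6, cv5p, cv6p, cv1r, cv2r, cv3r, cv4r, cv4r_6, cv5r, cv6r, c1g_v, swg_v, c3g_v, c1n_one, swn_one, c3n_one, zxt7q2 hx']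
    all_goals ((try push_cast) <;> (try ring1) <;> (try norm_num) <;> (try ring1))
theorem corF73 {x : ℝ} (hx' : x < 1) : (ndF 7 3).X.v 0 x = 0 ∧ (ndF 7 3).K.v 0 x = 1 * (0) ∧
    (ndF 7 3).L.v 0 x = 0 := by
  refine ⟨?_, ?_, ?_⟩
  · show xc73.v 0 x = _
    simp only [xc73, cv1m, cv2m, cv3m, cv4m, cv4m_5, cv5m, cv6m, cv1p, cv2p, cv3p, cv4p, cv4p_6, cv5p, cv6p, cv1r, cv2r, cv3r, cv4r, cv4r_6, cv5r, cv6r, c1g_v, swg_v, c3g_v, c1n_two, swn_two, c3n_two, yc0, ya1]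
    all_goals norm_num
  · show kfc73.v 0 x = _
    simp only [kfc73, c1g_v, swg_v, c3g_v, c1n_two, swn_two, c3n_two, yc0, ya1, zkf7q3 hx', zkf3q3 hx', zkf6q3 hx', zkf5q3 hx', zkf4q3 hx', zkf1q3 hx', zkf2q3 hx']
    all_goals ((try push_cast); norm_num [rk0 hx', rb0 hx', al0 hx', be0 hx']; (repeat first | rw [if_pos (by linarith)] | rw [if_neg (by linarith)]); (try norm_num [rk0 hx', rb0 hx', al0 hx', be0 hx']); (try (intro hh; exfalso; linarith)); (try ring1))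
  · show lc73.v 0 x = _
    simp only [lc73, lc73_8, lc73_15, c1g_v, swg_v, c3g_v, c1n_two, swn_two, c3n_two, yc0, ya1, zxt7q3 hx', zxt3q3 hx', zxt6q3 hx', zxt5q3 hx', zxt4q3 hx', zxt1q3 hx', zxt2q3 hx']
    all_goals ((try push_cast); norm_num [rk0 hx', rb0 hx', al0 hx', be0 hx']; (repeat first | rw [if_pos (by linarith)] | rw [if_neg (by linarith)]); (try norm_num [rk0 hx', rb0 hx', al0 hx', be0 hx']); (try (intro hh; exfalso; linarith)); (try ring1))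
theorem corN00 {x : ℝ} (hx' : x < 1) : (ndN 0 0).X.v 0 x = 1 ∧ (ndN 0 0).K.v 0 x = (lmug.v x + mug3.v x * b0g.v x) * (1) ∧
    (ndN 0 0).L.v 0 x = 0 := by
  refine ⟨?_, ?_, ?_⟩
  · show cx0m.v 0 x = _
    simp only [cx0m, cv1m, cv2m, cv3m, cv4m, cv4m_5, cv5m, cv6m, cv1p, cv2p, cv3p, cv4p, cv4p_6, cv5p, cv6p, cv1r, cv2r, cv3r, cv4r, cv4r_6, cv5r, cv6r, c1g_v, swg_v, c3g_v, c1n_zero, swn_zero, c3n_zero, ya1]
    all_goals norm_num
  · show kn0q0.v 0 x = _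
    simp only [kn0q0, cv1m, cv2m, cv3m, cv4m, cv4m_5, cv5m, cv6m, cv1p, cv2p, cv3p, cv4p, cv4p_6, cv5p, cv6p, cv1r, cv2r, cv3r, cv4r, cv4r_6, cv5r, cv6r, c1g_v, swg_v, c3g_v, c1n_zero, swn_zero, c3n_zero, zkf0q0 hx', zkb0q0 hx']
    all_goals ((try push_cast) <;> (try ring1) <;> (try norm_num) <;> (try ring1))
  · show l0q0.v 0 x = _
    simp only [l0q0, cv1m, cv2m, cv3m, cv4m, cv4m_5, cv5m, cv6m, cv1p, cv2p, cv3p, cv4p, cv4p_6, cv5p, cv6p, cv1r, cv2r, cv3r, cv4r, cv4r_6, cv5r, cv6r, c1g_v, swg_v, c3g_v, c1n_zero, swn_zero, c3n_zero, zxt0q0 hx']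
    all_goals ((try push_cast) <;> (try ring1) <;> (try norm_num) <;> (try ring1))
theorem corN01 {x : ℝ} (hx' : x < 1) : (ndN 0 1).X.v 1 x = 1 / 2 ∧ (ndN 0 1).K.v 1 x = (lmug.v x + mug3.v x * b0g.v x) * (1 / 2) ∧
    (ndN 0 1).L.v 1 x = 0 := by
  refine ⟨?_, ?_, ?_⟩
  · show cx0m.v 1 x = _
    simp only [cx0m, cv1m, cv2m, cv3m, cv4m, cv4m_5, cv5m, cv6m, cv1p, cv2p, cv3p, cv4p, cv4p_6, cv5p, cv6p, cv1r, cv2r, cv3r, cv4r, cv4r_6, cv5r, cv6r, c1g_v, swg_v, c3g_v, c1n_one, swn_one, c3n_one, ya1]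
    all_goals norm_num
  · show kn0q1.v 1 x = _
    simp only [kn0q1, cv1m, cv2m, cv3m, cv4m, cv4m_5, cv5m, cv6m, cv1p, cv2p, cv3p, cv4p, cv4p_6, cv5p, cv6p, cv1r, cv2r, cv3r, cv4r, cv4r_6, cv5r, cv6r, c1g_v, swg_v, c3g_v, c1n_one, swn_one, c3n_one, zkf0q1 hx', zkb0q1 hx']
    all_goals ((try push_cast) <;> (try ring1) <;> (try norm_num) <;> (try ring1))
  · show l0q1.v 1 x = _
    simp only [l0q1, cv1m, cv2m, cv3m, cv4m, cv4m_5, cv5m, cv6m, cv1p, cv2p, cv3p, cv4p, cv4p_6, cv5p, cv6p, cv1r, cv2r, cv3r, cv4r, cv4r_6, cv5r, cv6r, c1g_v, swg_v, c3g_v, c1n_one, swn_one, c3n_one, zxt0q1 hx']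
    all_goals ((try push_cast) <;> (try ring1) <;> (try norm_num) <;> (try ring1))
theorem corN02 {x : ℝ} (hx' : x < 1) : (ndN 0 2).X.v (1 / 2) x = 1 / 2 ∧ (ndN 0 2).K.v (1 / 2) x = (lmug.v x + mug3.v x * b0g.v x) * (1 / 2) ∧
    (ndN 0 2).L.v (1 / 2) x = 0 := by
  refine ⟨?_, ?_, ?_⟩
  · show xc02.v (1 / 2) x = _
    simp only [xc02, cv1m, cv2m, cv3m, cv4m, cv4m_5, cv5m, cv6m, cv1p, cv2p, cv3p, cv4p, cv4p_6, cv5p, cv6p, cv1r, cv2r, cv3r, cv4r, cv4r_6, cv5r, cv6r, c1g_v, swg_v, c3g_v, c1n_one, swn_one, c3n_one, ya1]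
    all_goals norm_num
  · show knc02.v (1 / 2) x = _
    simp only [knc02, kfc02, kfc02_9, kbc02, kbc02_9, c1g_v, swg_v, c3g_v, c1n_one, swn_one, c3n_one, ya1, zkf0q2 hx', zkf7q2 hx', zkf3q2 hx', zkf1q2 hx', zkf2q2 hx', zkb0q2 hx', zkb7q2 hx', zkb3q2 hx', zkb1q2 hx', zkb2q2 hx']
    all_goals ((try push_cast); norm_num [rk0 hx', rb0 hx', al0 hx', be0 hx']; (repeat first | rw [if_pos (by linarith)] | rw [if_neg (by linarith)]); (try norm_num [rk0 hx', rb0 hx', al0 hx', be0 hx']); (try (intro hh; exfalso; linarith)); (try ring1))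
  · show lc02.v (1 / 2) x = _
    simp only [lc02, lc02_7, c1g_v, swg_v, c3g_v, c1n_one, swn_one, c3n_one, ya1, zxt0q2 hx', zxt7q2 hx', zxt3q2 hx', zxt1q2 hx', zxt2q2 hx']
    all_goals ((try push_cast); norm_num [rk0 hx', rb0 hx', al0 hx', be0 hx']; (repeat first | rw [if_pos (by linarith)] | rw [if_neg (by linarith)]); (try norm_num [rk0 hx', rb0 hx', al0 hx', be0 hx']); (try (intro hh; exfalso; linarith)); (try ring1))
theorem corN10 {x : ℝ} (hx' : x < 1) : (ndN 1 0).X.v 0 x = 1 ∧ (ndN 1 0).K.v 0 x = (lmug.v x + mug3.v x * b0g.v x) * (1) ∧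
    (ndN 1 0).L.v 0 x = 0 := by
  refine ⟨?_, ?_, ?_⟩
  · show cx1m.v 0 x = _
    simp only [cx1m, cv1m, cv2m, cv3m, cv4m, cv4m_5, cv5m, cv6m, cv1p, cv2p, cv3p, cv4p, cv4p_6, cv5p, cv6p, cv1r, cv2r, cv3r, cv4r, cv4r_6, cv5r, cv6r, c1g_v, swg_v, c3g_v, c1n_zero, swn_zero, c3n_zero, ya1]
    all_goals norm_num
  · show kn1q0.v 0 x = _
    simp only [kn1q0, cv1m, cv2m, cv3m, cv4m, cv4m_5, cv5m, cv6m, cv1p, cv2p, cv3p, cv4p, cv4p_6, cv5p, cv6p, cv1r, cv2r, cv3r, cv4r, cv4r_6, cv5r, cv6r, c1g_v, swg_v, c3g_v, c1n_zero, swn_zero, c3n_zero, zkf1q0 hx', zkb1q0 hx']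
    all_goals ((try push_cast) <;> (try ring1) <;> (try norm_num) <;> (try ring1))
  · show l1q0.v 0 x = _
    simp only [l1q0, cv1m, cv2m, cv3m, cv4m, cv4m_5, cv5m, cv6m, cv1p, cv2p, cv3p, cv4p, cv4p_6, cv5p, cv6p, cv1r, cv2r, cv3r, cv4r, cv4r_6, cv5r, cv6r, c1g_v, swg_v, c3g_v, c1n_zero, swn_zero, c3n_zero, zxt1q0 hx']
    all_goals ((try push_cast) <;> (try ring1) <;> (try norm_num) <;> (try ring1))
theorem corN12 {x : ℝ} (hx' : x < 1) : (ndN 1 2).X.v 1 x = 1 / 2 ∧ (ndN 1 2).K.v 1 x = (lmug.v x + mug3.v x * b0g.v x) * (1 / 2) ∧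
    (ndN 1 2).L.v 1 x = 0 := by
  refine ⟨?_, ?_, ?_⟩
  · show cx1p.v 1 x = _
    simp only [cx1p, cv1m, cv2m, cv3m, cv4m, cv4m_5, cv5m, cv6m, cv1p, cv2p, cv3p, cv4p, cv4p_6, cv5p, cv6p, cv1r, cv2r, cv3r, cv4r, cv4r_6, cv5r, cv6r, c1g_v, swg_v, c3g_v, c1n_one, swn_one, c3n_one, ya1]
    all_goals norm_num
  · show kn1q2.v 1 x = _
    simp only [kn1q2, cv1m, cv2m, cv3m, cv4m, cv4m_5, cv5m, cv6m, cv1p, cv2p, cv3p, cv4p, cv4p_6, cv5p, cv6p, cv1r, cv2r, cv3r, cv4r, cv4r_6, cv5r, cv6r, c1g_v, swg_v, c3g_v, c1n_one, swn_one, c3n_one, zkf1q2 hx', zkb1q2 hx']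
    all_goals ((try push_cast) <;> (try ring1) <;> (try norm_num) <;> (try ring1))
  · show l1q2.v 1 x = _
    simp only [l1q2, cv1m, cv2m, cv3m, cv4m, cv4m_5, cv5m, cv6m, cv1p, cv2p, cv3p, cv4p, cv4p_6, cv5p, cv6p, cv1r, cv2r, cv3r, cv4r, cv4r_6, cv5r, cv6r, c1g_v, swg_v, c3g_v, c1n_one, swn_one, c3n_one, zxt1q2 hx']
    all_goals ((try push_cast) <;> (try ring1) <;> (try norm_num) <;> (try ring1))
theorem corN13 {x : ℝ} (hx' : x < 1) : (ndN 1 3).X.v 2 x = 0 ∧ (ndN 1 3).K.v 2 x = (lmug.v x + mug3.v x * b0g.v x) * (0) ∧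
    (ndN 1 3).L.v 2 x = 0 := by
  refine ⟨?_, ?_, ?_⟩
  · show cx1r.v 2 x = _
    simp only [cx1r, cv1m, cv2m, cv3m, cv4m, cv4m_5, cv5m, cv6m, cv1p, cv2p, cv3p, cv4p, cv4p_6, cv5p, cv6p, cv1r, cv2r, cv3r, cv4r, cv4r_6, cv5r, cv6r, c1g_v, swg_v, c3g_v, c1n_two, swn_two, c3n_two, yc0, ya1]
    all_goals norm_num
  · show kn1q3.v 2 x = _
    simp only [kn1q3, cv1m, cv2m, cv3m, cv4m, cv4m_5, cv5m, cv6m, cv1p, cv2p, cv3p, cv4p, cv4p_6, cv5p, cv6p, cv1r, cv2r, cv3r, cv4r, cv4r_6, cv5r, cv6r, c1g_v, swg_v, c3g_v, c1n_two, swn_two, c3n_two, yc0, zkf1q3 hx', zkb1q3 hx']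
    all_goals ((try push_cast) <;> (try ring1) <;> (try norm_num) <;> (try ring1))
  · show l1q3.v 2 x = _
    simp only [l1q3, cv1m, cv2m, cv3m, cv4m, cv4m_5, cv5m, cv6m, cv1p, cv2p, cv3p, cv4p, cv4p_6, cv5p, cv6p, cv1r, cv2r, cv3r, cv4r, cv4r_6, cv5r, cv6r, c1g_v, swg_v, c3g_v, c1n_two, swn_two, c3n_two, yc0, zxt1q3 hx']
    all_goals ((try push_cast) <;> (try ring1) <;> (try norm_num) <;> (try ring1))
theorem corN20 {x : ℝ} (hx' : x < 1) : (ndN 2 0).X.v 0 x = 1 ∧ (ndN 2 0).K.v 0 x = (lmug.v x + mug3.v x * b0g.v x) * (1) ∧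
    (ndN 2 0).L.v 0 x = 0 := by
  refine ⟨?_, ?_, ?_⟩
  · show cx2m.v 0 x = _
    simp only [cx2m, cv1m, cv2m, cv3m, cv4m, cv4m_5, cv5m, cv6m, cv1p, cv2p, cv3p, cv4p, cv4p_6, cv5p, cv6p, cv1r, cv2r, cv3r, cv4r, cv4r_6, cv5r, cv6r, c1g_v, swg_v, c3g_v, c1n_zero, swn_zero, c3n_zero, ya1]
    all_goals norm_num
  · show kn2q0.v 0 x = _
    simp only [kn2q0, cv1m, cv2m, cv3m, cv4m, cv4m_5, cv5m, cv6m, cv1p, cv2p, cv3p, cv4p, cv4p_6, cv5p, cv6p, cv1r, cv2r, cv3r, cv4r, cv4r_6, cv5r, cv6r, c1g_v, swg_v, c3g_v, c1n_zero, swn_zero, c3n_zero, zkf2q0 hx', zkb2q0 hx']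
    all_goals ((try push_cast) <;> (try ring1) <;> (try norm_num) <;> (try ring1))
  · show l2q0.v 0 x = _
    simp only [l2q0, cv1m, cv2m, cv3m, cv4m, cv4m_5, cv5m, cv6m, cv1p, cv2p, cv3p, cv4p, cv4p_6, cv5p, cv6p, cv1r, cv2r, cv3r, cv4r, cv4r_6, cv5r, cv6r, c1g_v, swg_v, c3g_v, c1n_zero, swn_zero, c3n_zero, zxt2q0 hx']
    all_goals ((try push_cast) <;> (try ring1) <;> (try norm_num) <;> (try ring1))
theorem corN22 {x : ℝ} (hx' : x < 1) : (ndN 2 2).X.v 1 x = 1 / 2 ∧ (ndN 2 2).K.v 1 x = (lmug.v x + mug3.v x * b0g.v x) * (1 / 2) ∧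
    (ndN 2 2).L.v 1 x = 0 := by
  refine ⟨?_, ?_, ?_⟩
  · show cx2p.v 1 x = _
    simp only [cx2p, cv1m, cv2m, cv3m, cv4m, cv4m_5, cv5m, cv6m, cv1p, cv2p, cv3p, cv4p, cv4p_6, cv5p, cv6p, cv1r, cv2r, cv3r, cv4r, cv4r_6, cv5r, cv6r, c1g_v, swg_v, c3g_v, c1n_one, swn_one, c3n_one, ya1]
    all_goals norm_num
  · show kn2q2.v 1 x = _
    simp only [kn2q2, cv1m, cv2m, cv3m, cv4m, cv4m_5, cv5m, cv6m, cv1p, cv2p, cv3p, cv4p, cv4p_6, cv5p, cv6p, cv1r, cv2r, cv3r, cv4r, cv4r_6, cv5r, cv6r, c1g_v, swg_v, c3g_v, c1n_one, swn_one, c3n_one, zkf2q2 hx', zkb2q2 hx']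
    all_goals ((try push_cast) <;> (try ring1) <;> (try norm_num) <;> (try ring1))
  · show l2q2.v 1 x = _
    simp only [l2q2, cv1m, cv2m, cv3m, cv4m, cv4m_5, cv5m, cv6m, cv1p, cv2p, cv3p, cv4p, cv4p_6, cv5p, cv6p, cv1r, cv2r, cv3r, cv4r, cv4r_6, cv5r, cv6r, c1g_v, swg_v, c3g_v, c1n_one, swn_one, c3n_one, zxt2q2 hx']
    all_goals ((try push_cast) <;> (try ring1) <;> (try norm_num) <;> (try ring1))
theorem corN23 {x : ℝ} (hx' : x < 1) : (ndN 2 3).X.v 2 x = 0 ∧ (ndN 2 3).K.v 2 x = (lmug.v x + mug3.v x * b0g.v x) * (0) ∧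
    (ndN 2 3).L.v 2 x = 0 := by
  refine ⟨?_, ?_, ?_⟩
  · show cx2r.v 2 x = _
    simp only [cx2r, cv1m, cv2m, cv3m, cv4m, cv4m_5, cv5m, cv6m, cv1p, cv2p, cv3p, cv4p, cv4p_6, cv5p, cv6p, cv1r, cv2r, cv3r, cv4r, cv4r_6, cv5r, cv6r, c1g_v, swg_v, c3g_v, c1n_two, swn_two, c3n_two, yc0, ya1]
    all_goals norm_num
  · show kn2q3.v 2 x = _
    simp only [kn2q3, cv1m, cv2m, cv3m, cv4m, cv4m_5, cv5m, cv6m, cv1p, cv2p, cv3p, cv4p, cv4p_6, cv5p, cv6p, cv1r, cv2r, cv3r, cv4r, cv4r_6, cv5r, cv6r, c1g_v, swg_v, c3g_v, c1n_two, swn_two, c3n_two, yc0, zkf2q3 hx', zkb2q3 hx']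
    all_goals ((try push_cast) <;> (try ring1) <;> (try norm_num) <;> (try ring1))
  · show l2q3.v 2 x = _
    simp only [l2q3, cv1m, cv2m, cv3m, cv4m, cv4m_5, cv5m, cv6m, cv1p, cv2p, cv3p, cv4p, cv4p_6, cv5p, cv6p, cv1r, cv2r, cv3r, cv4r, cv4r_6, cv5r, cv6r, c1g_v, swg_v, c3g_v, c1n_two, swn_two, c3n_two, yc0, zxt2q3 hx']
    all_goals ((try push_cast) <;> (try ring1) <;> (try norm_num) <;> (try ring1))
theorem corN30 {x : ℝ} (hx' : x < 1) : (ndN 3 0).X.v 0 x = 1 ∧ (ndN 3 0).K.v 0 x = (lmug.v x + mug3.v x * b0g.v x) * (1) ∧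
    (ndN 3 0).L.v 0 x = 0 := by
  refine ⟨?_, ?_, ?_⟩
  · show cx3m.v 0 x = _
    simp only [cx3m, cv1m, cv2m, cv3m, cv4m, cv4m_5, cv5m, cv6m, cv1p, cv2p, cv3p, cv4p, cv4p_6, cv5p, cv6p, cv1r, cv2r, cv3r, cv4r, cv4r_6, cv5r, cv6r, c1g_v, swg_v, c3g_v, c1n_zero, swn_zero, c3n_zero, ya1]
    all_goals norm_num
  · show kn3q0.v 0 x = _
    simp only [kn3q0, cv1m, cv2m, cv3m, cv4m, cv4m_5, cv5m, cv6m, cv1p, cv2p, cv3p, cv4p, cv4p_6, cv5p, cv6p, cv1r, cv2r, cv3r, cv4r, cv4r_6, cv5r, cv6r, c1g_v, swg_v, c3g_v, c1n_zero, swn_zero, c3n_zero, zkf3q0 hx', zkb3q0 hx']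
    all_goals ((try push_cast) <;> (try ring1) <;> (try norm_num) <;> (try ring1))
  · show l3q0.v 0 x = _
    simp only [l3q0, cv1m, cv2m, cv3m, cv4m, cv4m_5, cv5m, cv6m, cv1p, cv2p, cv3p, cv4p, cv4p_6, cv5p, cv6p, cv1r, cv2r, cv3r, cv4r, cv4r_6, cv5r, cv6r, c1g_v, swg_v, c3g_v, c1n_zero, swn_zero, c3n_zero, zxt3q0 hx']
    all_goals ((try push_cast) <;> (try ring1) <;> (try norm_num) <;> (try ring1))
theorem corN31 {x : ℝ} (hx' : x < 1) : (ndN 3 1).X.v 1 x = 3 / 2 ∧ (ndN 3 1).K.v 1 x = (lmug.v x + mug3.v x * b0g.v x) * (3 / 2) ∧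
    (ndN 3 1).L.v 1 x = 0 := by
  refine ⟨?_, ?_, ?_⟩
  · show cx3m.v 1 x = _
    simp only [cx3m, cv1m, cv2m, cv3m, cv4m, cv4m_5, cv5m, cv6m, cv1p, cv2p, cv3p, cv4p, cv4p_6, cv5p, cv6p, cv1r, cv2r, cv3r, cv4r, cv4r_6, cv5r, cv6r, c1g_v, swg_v, c3g_v, c1n_one, swn_one, c3n_one, ya1]
    all_goals norm_num
  · show kn3q1.v 1 x = _
    simp only [kn3q1, cv1m, cv2m, cv3m, cv4m, cv4m_5, cv5m, cv6m, cv1p, cv2p, cv3p, cv4p, cv4p_6, cv5p, cv6p, cv1r, cv2r, cv3r, cv4r, cv4r_6, cv5r, cv6r, c1g_v, swg_v, c3g_v, c1n_one, swn_one, c3n_one, zkf3q1 hx', zkb3q1 hx']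
    all_goals ((try push_cast) <;> (try ring1) <;> (try norm_num) <;> (try ring1))
  · show l3q1.v 1 x = _
    simp only [l3q1, cv1m, cv2m, cv3m, cv4m, cv4m_5, cv5m, cv6m, cv1p, cv2p, cv3p, cv4p, cv4p_6, cv5p, cv6p, cv1r, cv2r, cv3r, cv4r, cv4r_6, cv5r, cv6r, c1g_v, swg_v, c3g_v, c1n_one, swn_one, c3n_one, zxt3q1 hx']
    all_goals ((try push_cast) <;> (try ring1) <;> (try norm_num) <;> (try ring1))
theorem corN32 {x : ℝ} (hx' : x < 1) : (ndN 3 2).X.v 1 x = 1 / 2 ∧ (ndN 3 2).K.v 1 x = (lmug.v x + mug3.v x * b0g.v x) * (1 / 2) ∧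
    (ndN 3 2).L.v 1 x = 0 := by
  refine ⟨?_, ?_, ?_⟩
  · show cx3p.v 1 x = _
    simp only [cx3p, cv1m, cv2m, cv3m, cv4m, cv4m_5, cv5m, cv6m, cv1p, cv2p, cv3p, cv4p, cv4p_6, cv5p, cv6p, cv1r, cv2r, cv3r, cv4r, cv4r_6, cv5r, cv6r, c1g_v, swg_v, c3g_v, c1n_one, swn_one, c3n_one, ya1]
    all_goals norm_num
  · show kn3q2.v 1 x = _
    simp only [kn3q2, cv1m, cv2m, cv3m, cv4m, cv4m_5, cv5m, cv6m, cv1p, cv2p, cv3p, cv4p, cv4p_6, cv5p, cv6p, cv1r, cv2r, cv3r, cv4r, cv4r_6, cv5r, cv6r, c1g_v, swg_v, c3g_v, c1n_one, swn_one, c3n_one, zkf3q2 hx', zkb3q2 hx']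
    all_goals ((try push_cast) <;> (try ring1) <;> (try norm_num) <;> (try ring1))
  · show l3q2.v 1 x = _
    simp only [l3q2, cv1m, cv2m, cv3m, cv4m, cv4m_5, cv5m, cv6m, cv1p, cv2p, cv3p, cv4p, cv4p_6, cv5p, cv6p, cv1r, cv2r, cv3r, cv4r, cv4r_6, cv5r, cv6r, c1g_v, swg_v, c3g_v, c1n_one, swn_one, c3n_one, zxt3q2 hx']
    all_goals ((try push_cast) <;> (try ring1) <;> (try norm_num) <;> (try ring1))
theorem corN33 {x : ℝ} (hx' : x < 1) : (ndN 3 3).X.v 2 x = 0 ∧ (ndN 3 3).K.v 2 x = (lmug.v x + mug3.v x * b0g.v x) * (0) ∧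
    (ndN 3 3).L.v 2 x = 0 := by
  refine ⟨?_, ?_, ?_⟩
  · show cx3r.v 2 x = _
    simp only [cx3r, cv1m, cv2m, cv3m, cv4m, cv4m_5, cv5m, cv6m, cv1p, cv2p, cv3p, cv4p, cv4p_6, cv5p, cv6p, cv1r, cv2r, cv3r, cv4r, cv4r_6, cv5r, cv6r, c1g_v, swg_v, c3g_v, c1n_two, swn_two, c3n_two, yc0, ya1]
    all_goals norm_num
  · show kn3q3.v 2 x = _
    simp only [kn3q3, cv1m, cv2m, cv3m, cv4m, cv4m_5, cv5m, cv6m, cv1p, cv2p, cv3p, cv4p, cv4p_6, cv5p, cv6p, cv1r, cv2r, cv3r, cv4r, cv4r_6, cv5r, cv6r, c1g_v, swg_v, c3g_v, c1n_two, swn_two, c3n_two, yc0, zkf3q3 hx', zkb3q3 hx']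
    all_goals ((try push_cast) <;> (try ring1) <;> (try norm_num) <;> (try ring1))
  · show l3q3.v 2 x = _
    simp only [l3q3, cv1m, cv2m, cv3m, cv4m, cv4m_5, cv5m, cv6m, cv1p, cv2p, cv3p, cv4p, cv4p_6, cv5p, cv6p, cv1r, cv2r, cv3r, cv4r, cv4r_6, cv5r, cv6r, c1g_v, swg_v, c3g_v, c1n_two, swn_two, c3n_two, yc0, zxt3q3 hx']
    all_goals ((try push_cast) <;> (try ring1) <;> (try norm_num) <;> (try ring1))
theorem corN41 {x : ℝ} (hx' : x < 1) : (ndN 4 1).X.v 1 x = 3 / 2 ∧ (ndN 4 1).K.v 1 x = (lmug.v x + mug3.v x * b0g.v x) * (3 / 2) ∧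
    (ndN 4 1).L.v 1 x = 0 := by
  refine ⟨?_, ?_, ?_⟩
  · show cv4m.v 1 x = _
    simp only [cv4m, cv4m_5, cv1m, cv2m, cv3m, cv4m, cv4m_5, cv5m, cv6m, cv1p, cv2p, cv3p, cv4p, cv4p_6, cv5p, cv6p, cv1r, cv2r, cv3r, cv4r, cv4r_6, cv5r, cv6r, c1g_v, swg_v, c3g_v, c1n_one, swn_one, c3n_one, ya1]
    all_goals norm_num
  · show kn4q1.v 1 x = _
    simp only [kn4q1, cv1m, cv2m, cv3m, cv4m, cv4m_5, cv5m, cv6m, cv1p, cv2p, cv3p, cv4p, cv4p_6, cv5p, cv6p, cv1r, cv2r, cv3r, cv4r, cv4r_6, cv5r, cv6r, c1g_v, swg_v, c3g_v, c1n_one, swn_one, c3n_one, zkf4q1 hx', zkb4q1 hx']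
    all_goals ((try push_cast) <;> (try ring1) <;> (try norm_num) <;> (try ring1))
  · show l4q1.v 1 x = _
    simp only [l4q1, cv1m, cv2m, cv3m, cv4m, cv4m_5, cv5m, cv6m, cv1p, cv2p, cv3p, cv4p, cv4p_6, cv5p, cv6p, cv1r, cv2r, cv3r, cv4r, cv4r_6, cv5r, cv6r, c1g_v, swg_v, c3g_v, c1n_one, swn_one, c3n_one, zxt4q1 hx']
    all_goals ((try push_cast) <;> (try ring1) <;> (try norm_num) <;> (try ring1))
theorem corN43 {x : ℝ} (hx' : x < 1) : (ndN 4 3).X.v 0 x = 0 ∧ (ndN 4 3).K.v 0 x = (lmug.v x + mug3.v x * b0g.v x) * (0) ∧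
    (ndN 4 3).L.v 0 x = 0 := by
  refine ⟨?_, ?_, ?_⟩
  · show xc43.v 0 x = _
    simp only [xc43, xc43_6, cv1m, cv2m, cv3m, cv4m, cv4m_5, cv5m, cv6m, cv1p, cv2p, cv3p, cv4p, cv4p_6, cv5p, cv6p, cv1r, cv2r, cv3r, cv4r, cv4r_6, cv5r, cv6r, c1g_v, swg_v, c3g_v, c1n_two, swn_two, c3n_two, yc0, ya1]
    all_goals norm_num
  · show knc43.v 0 x = _
    simp only [knc43, kfc43, kfc43_9, kfc43_21, jnK5q3, jnK5q3_4, kbc43, kbc43_10, kbc43_22, jnB5q3, jnB5q3_4, c1g_v, swg_v, c3g_v, c1n_two, swn_two, c3n_two, yc0, ya1, zkf7q3 hx', zkf3q3 hx', zkf6q3 hx', zkf5q3 hx', zkf4q3 hx', zkf1q3 hx', zkf2q3 hx', zkb7q3 hx', zkb3q3 hx', zkb6q3 hx', zkb5q3 hx', zkb4q3 hx', zkb1q3 hx', zkb2q3 hx']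
    all_goals ((try push_cast); norm_num [rk0 hx', rb0 hx', al0 hx', be0 hx']; (repeat first | rw [if_pos (by linarith)] | rw [if_neg (by linarith)]); (try norm_num [rk0 hx', rb0 hx', al0 hx', be0 hx']); (try (intro hh; exfalso; linarith)); (try ring1))
  · show lc43.v 0 x = _
    simp only [lc43, lc43_7, lc43_9, lc43_18, lc43_35, c1g_v, swg_v, c3g_v, c1n_two, swn_two, c3n_two, yc0, ya1, zxt7q3 hx', zxt3q3 hx', zxt6q3 hx', zxt5q3 hx', zxt4q3 hx', zxt1q3 hx', zxt2q3 hx']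
    all_goals ((try push_cast); norm_num [rk0 hx', rb0 hx', al0 hx', be0 hx']; (repeat first | rw [if_pos (by linarith)] | rw [if_neg (by linarith)]); (try norm_num [rk0 hx', rb0 hx', al0 hx', be0 hx']); (try (intro hh; exfalso; linarith)); (try ring1))
theorem corN51 {x : ℝ} (hx' : x < 1) : (ndN 5 1).X.v 1 x = 3 / 2 ∧ (ndN 5 1).K.v 1 x = (lmug.v x + mug3.v x * b0g.v x) * (3 / 2) ∧
    (ndN 5 1).L.v 1 x = 0 := by
  refine ⟨?_, ?_, ?_⟩
  · show cx5m.v 1 x = _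
    simp only [cx5m, cv1m, cv2m, cv3m, cv4m, cv4m_5, cv5m, cv6m, cv1p, cv2p, cv3p, cv4p, cv4p_6, cv5p, cv6p, cv1r, cv2r, cv3r, cv4r, cv4r_6, cv5r, cv6r, c1g_v, swg_v, c3g_v, c1n_one, swn_one, c3n_one, ya1]
    all_goals norm_num
  · show kn5q1.v 1 x = _
    simp only [kn5q1, cv1m, cv2m, cv3m, cv4m, cv4m_5, cv5m, cv6m, cv1p, cv2p, cv3p, cv4p, cv4p_6, cv5p, cv6p, cv1r, cv2r, cv3r, cv4r, cv4r_6, cv5r, cv6r, c1g_v, swg_v, c3g_v, c1n_one, swn_one, c3n_one, zkf5q1 hx', zkb5q1 hx']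
    all_goals ((try push_cast) <;> (try ring1) <;> (try norm_num) <;> (try ring1))
  · show l5q1.v 1 x = _
    simp only [l5q1, cv1m, cv2m, cv3m, cv4m, cv4m_5, cv5m, cv6m, cv1p, cv2p, cv3p, cv4p, cv4p_6, cv5p, cv6p, cv1r, cv2r, cv3r, cv4r, cv4r_6, cv5r, cv6r, c1g_v, swg_v, c3g_v, c1n_one, swn_one, c3n_one, zxt5q1 hx']
    all_goals ((try push_cast) <;> (try ring1) <;> (try norm_num) <;> (try ring1))
theorem corN53 {x : ℝ} (hx' : x < 1) : (ndN 5 3).X.v 0 x = 0 ∧ (ndN 5 3).K.v 0 x = (lmug.v x + mug3.v x * b0g.v x) * (0) ∧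
    (ndN 5 3).L.v 0 x = 0 := by
  refine ⟨?_, ?_, ?_⟩
  · show xc53.v 0 x = _
    simp only [xc53, cv1m, cv2m, cv3m, cv4m, cv4m_5, cv5m, cv6m, cv1p, cv2p, cv3p, cv4p, cv4p_6, cv5p, cv6p, cv1r, cv2r, cv3r, cv4r, cv4r_6, cv5r, cv6r, c1g_v, swg_v, c3g_v, c1n_two, swn_two, c3n_two, yc0, ya1]
    all_goals norm_num
  · show knc53.v 0 x = _
    simp only [knc53, kfc53, kfc53_16, jnK5q3, jnK5q3_4, kbc53, kbc53_16, jnB5q3, jnB5q3_4, c1g_v, swg_v, c3g_v, c1n_two, swn_two, c3n_two, yc0, ya1, zkf7q3 hx', zkf3q3 hx', zkf6q3 hx', zkf5q3 hx', zkf4q3 hx', zkf1q3 hx', zkf2q3 hx', zkb7q3 hx', zkb3q3 hx', zkb6q3 hx', zkb5q3 hx', zkb4q3 hx', zkb1q3 hx', zkb2q3 hx']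
    all_goals ((try push_cast); norm_num [rk0 hx', rb0 hx', al0 hx', be0 hx']; (repeat first | rw [if_pos (by linarith)] | rw [if_neg (by linarith)]); (try norm_num [rk0 hx', rb0 hx', al0 hx', be0 hx']); (try (intro hh; exfalso; linarith)); (try ring1))
  · show lc53.v 0 x = _
    simp only [lc53, lc53_10, lc53_12, lc53_29, c1g_v, swg_v, c3g_v, c1n_two, swn_two, c3n_two, yc0, ya1, zxt7q3 hx', zxt3q3 hx', zxt6q3 hx', zxt5q3 hx', zxt4q3 hx', zxt1q3 hx', zxt2q3 hx']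
    all_goals ((try push_cast); norm_num [rk0 hx', rb0 hx', al0 hx', be0 hx']; (repeat first | rw [if_pos (by linarith)] | rw [if_neg (by linarith)]); (try norm_num [rk0 hx', rb0 hx', al0 hx', be0 hx']); (try (intro hh; exfalso; linarith)); (try ring1))
theorem corN61 {x : ℝ} (hx' : x < 1) : (ndN 6 1).X.v 1 x = 3 / 2 ∧ (ndN 6 1).K.v 1 x = (lmug.v x + mug3.v x * b0g.v x) * (3 / 2) ∧
    (ndN 6 1).L.v 1 x = 0 := by
  refine ⟨?_, ?_, ?_⟩
  · show cx6m.v 1 x = _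
    simp only [cx6m, cv1m, cv2m, cv3m, cv4m, cv4m_5, cv5m, cv6m, cv1p, cv2p, cv3p, cv4p, cv4p_6, cv5p, cv6p, cv1r, cv2r, cv3r, cv4r, cv4r_6, cv5r, cv6r, c1g_v, swg_v, c3g_v, c1n_one, swn_one, c3n_one, ya1]
    all_goals norm_num
  · show kn6q1.v 1 x = _
    simp only [kn6q1, cv1m, cv2m, cv3m, cv4m, cv4m_5, cv5m, cv6m, cv1p, cv2p, cv3p, cv4p, cv4p_6, cv5p, cv6p, cv1r, cv2r, cv3r, cv4r, cv4r_6, cv5r, cv6r, c1g_v, swg_v, c3g_v, c1n_one, swn_one, c3n_one, zkf6q1 hx', zkb6q1 hx']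
    all_goals ((try push_cast) <;> (try ring1) <;> (try norm_num) <;> (try ring1))
  · show l6q1.v 1 x = _
    simp only [l6q1, cv1m, cv2m, cv3m, cv4m, cv4m_5, cv5m, cv6m, cv1p, cv2p, cv3p, cv4p, cv4p_6, cv5p, cv6p, cv1r, cv2r, cv3r, cv4r, cv4r_6, cv5r, cv6r, c1g_v, swg_v, c3g_v, c1n_one, swn_one, c3n_one, zxt6q1 hx']
    all_goals ((try push_cast) <;> (try ring1) <;> (try norm_num) <;> (try ring1))
theorem corN63 {x : ℝ} (hx' : x < 1) : (ndN 6 3).X.v 0 x = 0 ∧ (ndN 6 3).K.v 0 x = (lmug.v x + mug3.v x * b0g.v x) * (0) ∧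
    (ndN 6 3).L.v 0 x = 0 := by
  refine ⟨?_, ?_, ?_⟩
  · show xc63.v 0 x = _
    simp only [xc63, cv1m, cv2m, cv3m, cv4m, cv4m_5, cv5m, cv6m, cv1p, cv2p, cv3p, cv4p, cv4p_6, cv5p, cv6p, cv1r, cv2r, cv3r, cv4r, cv4r_6, cv5r, cv6r, c1g_v, swg_v, c3g_v, c1n_two, swn_two, c3n_two, yc0, ya1]
    all_goals norm_num
  · show knc63.v 0 x = _
    simp only [knc63, kfc63, kfc63_16, jnK6q3, jnK6q3_4, kbc63, kbc63_6, jnB6q3, jnB6q3_4, c1g_v, swg_v, c3g_v, c1n_two, swn_two, c3n_two, yc0, ya1, zkf7q3 hx', zkf3q3 hx', zkf6q3 hx', zkf5q3 hx', zkf4q3 hx', zkf1q3 hx', zkf2q3 hx', zkb7q3 hx', zkb3q3 hx', zkb6q3 hx', zkb5q3 hx', zkb4q3 hx', zkb1q3 hx', zkb2q3 hx']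
    all_goals ((try push_cast); norm_num [rk0 hx', rb0 hx', al0 hx', be0 hx']; (repeat first | rw [if_pos (by linarith)] | rw [if_neg (by linarith)]); (try norm_num [rk0 hx', rb0 hx', al0 hx', be0 hx']); (try (intro hh; exfalso; linarith)); (try ring1))
  · show lc63.v 0 x = _
    simp only [lc63, lc63_10, lc63_12, c1g_v, swg_v, c3g_v, c1n_two, swn_two, c3n_two, yc0, ya1, zxt7q3 hx', zxt3q3 hx', zxt6q3 hx', zxt5q3 hx', zxt4q3 hx', zxt1q3 hx', zxt2q3 hx']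
    all_goals ((try push_cast); norm_num [rk0 hx', rb0 hx', al0 hx', be0 hx']; (repeat first | rw [if_pos (by linarith)] | rw [if_neg (by linarith)]); (try norm_num [rk0 hx', rb0 hx', al0 hx', be0 hx']); (try (intro hh; exfalso; linarith)); (try ring1))
theorem corN71 {x : ℝ} (hx' : x < 1) : (ndN 7 1).X.v 1 x = 3 / 2 ∧ (ndN 7 1).K.v 1 x = (lmug.v x + mug3.v x * b0g.v x) * (3 / 2) ∧
    (ndN 7 1).L.v 1 x = 0 := by
  refine ⟨?_, ?_, ?_⟩
  · show cx7m.v 1 x = _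
    simp only [cx7m, cv1m, cv2m, cv3m, cv4m, cv4m_5, cv5m, cv6m, cv1p, cv2p, cv3p, cv4p, cv4p_6, cv5p, cv6p, cv1r, cv2r, cv3r, cv4r, cv4r_6, cv5r, cv6r, c1g_v, swg_v, c3g_v, c1n_one, swn_one, c3n_one, ya1]
    all_goals norm_num
  · show kn7q1.v 1 x = _
    simp only [kn7q1, cv1m, cv2m, cv3m, cv4m, cv4m_5, cv5m, cv6m, cv1p, cv2p, cv3p, cv4p, cv4p_6, cv5p, cv6p, cv1r, cv2r, cv3r, cv4r, cv4r_6, cv5r, cv6r, c1g_v, swg_v, c3g_v, c1n_one, swn_one, c3n_one, zkf7q1 hx', zkb7q1 hx']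
    all_goals ((try push_cast) <;> (try ring1) <;> (try norm_num) <;> (try ring1))
  · show l7q1.v 1 x = _
    simp only [l7q1, cv1m, cv2m, cv3m, cv4m, cv4m_5, cv5m, cv6m, cv1p, cv2p, cv3p, cv4p, cv4p_6, cv5p, cv6p, cv1r, cv2r, cv3r, cv4r, cv4r_6, cv5r, cv6r, c1g_v, swg_v, c3g_v, c1n_one, swn_one, c3n_one, zxt7q1 hx']
    all_goals ((try push_cast) <;> (try ring1) <;> (try norm_num) <;> (try ring1))
theorem corN72 {x : ℝ} (hx' : x < 1) : (ndN 7 2).X.v 1 x = 3 / 2 ∧ (ndN 7 2).K.v 1 x = (lmug.v x + mug3.v x * b0g.v x) * (3 / 2) ∧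
    (ndN 7 2).L.v 1 x = 0 := by
  refine ⟨?_, ?_, ?_⟩
  · show cx7p.v 1 x = _
    simp only [cx7p, cv1m, cv2m, cv3m, cv4m, cv4m_5, cv5m, cv6m, cv1p, cv2p, cv3p, cv4p, cv4p_6, cv5p, cv6p, cv1r, cv2r, cv3r, cv4r, cv4r_6, cv5r, cv6r, c1g_v, swg_v, c3g_v, c1n_one, swn_one, c3n_one, ya1]
    all_goals norm_num
  · show kn7q2.v 1 x = _
    simp only [kn7q2, cv1m, cv2m, cv3m, cv4m, cv4m_5, cv5m, cv6m, cv1p, cv2p, cv3p, cv4p, cv4p_6, cv5p, cv6p, cv1r, cv2r, cv3r, cv4r, cv4r_6, cv5r, cv6r, c1g_v, swg_v, c3g_v, c1n_one, swn_one, c3n_one, zkf7q2 hx', zkb7q2 hx']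
    all_goals ((try push_cast) <;> (try ring1) <;> (try norm_num) <;> (try ring1))
  · show l7q2.v 1 x = _
    simp only [l7q2, cv1m, cv2m, cv3m, cv4m, cv4m_5, cv5m, cv6m, cv1p, cv2p, cv3p, cv4p, cv4p_6, cv5p, cv6p, cv1r, cv2r, cv3r, cv4r, cv4r_6, cv5r, cv6r, c1g_v, swg_v, c3g_v, c1n_one, swn_one, c3n_one, zxt7q2 hx']
    all_goals ((try push_cast) <;> (try ring1) <;> (try norm_num) <;> (try ring1))
theorem corN73 {x : ℝ} (hx' : x < 1) : (ndN 7 3).X.v 0 x = 0 ∧ (ndN 7 3).K.v 0 x = (lmug.v x + mug3.v x * b0g.v x) * (0) ∧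
    (ndN 7 3).L.v 0 x = 0 := by
  refine ⟨?_, ?_, ?_⟩
  · show xc73.v 0 x = _
    simp only [xc73, cv1m, cv2m, cv3m, cv4m, cv4m_5, cv5m, cv6m, cv1p, cv2p, cv3p, cv4p, cv4p_6, cv5p, cv6p, cv1r, cv2r, cv3r, cv4r, cv4r_6, cv5r, cv6r, c1g_v, swg_v, c3g_v, c1n_two, swn_two, c3n_two, yc0, ya1]
    all_goals norm_num
  · show knc73.v 0 x = _
    simp only [knc73, kfc73, kbc73, c1g_v, swg_v, c3g_v, c1n_two, swn_two, c3n_two, yc0, ya1, zkf7q3 hx', zkf3q3 hx', zkf6q3 hx', zkf5q3 hx', zkf4q3 hx', zkf1q3 hx', zkf2q3 hx', zkb7q3 hx', zkb3q3 hx', zkb6q3 hx', zkb5q3 hx', zkb4q3 hx', zkb1q3 hx', zkb2q3 hx']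
    all_goals ((try push_cast); norm_num [rk0 hx', rb0 hx', al0 hx', be0 hx']; (repeat first | rw [if_pos (by linarith)] | rw [if_neg (by linarith)]); (try norm_num [rk0 hx', rb0 hx', al0 hx', be0 hx']); (try (intro hh; exfalso; linarith)); (try ring1))
  · show lc73.v 0 x = _
    simp only [lc73, lc73_8, lc73_15, c1g_v, swg_v, c3g_v, c1n_two, swn_two, c3n_two, yc0, ya1, zxt7q3 hx', zxt3q3 hx', zxt6q3 hx', zxt5q3 hx', zxt4q3 hx', zxt1q3 hx', zxt2q3 hx']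
    all_goals ((try push_cast); norm_num [rk0 hx', rb0 hx', al0 hx', be0 hx']; (repeat first | rw [if_pos (by linarith)] | rw [if_neg (by linarith)]); (try norm_num [rk0 hx', rb0 hx', al0 hx', be0 hx']); (try (intro hh; exfalso; linarith)); (try ring1))
theorem pzeroKF {x : ℝ} (hx' : x < 1) : ∀ j, (PP x).ρ j ≤ 1 → (ndF j 0).K.v (crd j 0 0) x = (ndF 0 0).K.v (crd 0 0 0) x := by
  intro j hj
  have h4 := (r4_rng x).1
  fin_cases j
  · rfl
  · exact (corF10 hx').2.1.trans (corF00 hx').2.1.symm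
  · exact (corF20 hx').2.1.trans (corF00 hx').2.1.symm
  · exact (corF30 hx').2.1.trans (corF00 hx').2.1.symm
  · exact absurd (show r4 x ≤ 1 from hj) (by linarith)
  · exact absurd (show (23 / 20 : ℝ) ≤ 1 from hj) (by norm_num)
  · exact absurd (show (8 / 5 : ℝ) ≤ 1 from hj) (by norm_num)
  · exact absurd (show (2 : ℝ) ≤ 1 from hj) (by norm_num)
theorem pmidKF {x : ℝ} (hx' : x < 1) : ∀ j, (PP x).ρ j ≤ 1 → (ndF j 2).K.v (crd j 2 1) x = (ndF 0 2).K.v (crd 0 2 1) x := by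
  intro j hj
  have h4 := (r4_rng x).1
  fin_cases j
  · rfl
  · show _ = (ndF 0 2).K.v (c1n 1) x
    rw [c1n_one]
    exact (corF12 hx').2.1.trans (corF02 hx').2.1.symm
  · show _ = (ndF 0 2).K.v (c1n 1) x
    rw [c1n_one]
    exact (corF22 hx').2.1.trans (corF02 hx').2.1.symm
  · show _ = (ndF 0 2).K.v (c1n 1) x
    rw [c1n_one]
    exact (corF32 hx').2.1.trans (corF02 hx').2.1.symm
  · exact absurd (show r4 x ≤ 1 from hj) (by linarith)
  · exact absurd (show (23 / 20 : ℝ) ≤ 1 from hj) (by norm_num)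
  · exact absurd (show (8 / 5 : ℝ) ≤ 1 from hj) (by norm_num)
  · exact absurd (show (2 : ℝ) ≤ 1 from hj) (by norm_num)
theorem ptopKF {x : ℝ} (hx' : x < 1) : ∀ j, j ≠ 0 → (ndF j 3).K.v (crd j 3 2) x = 0 := by
  intro j hj
  fin_cases j
  · exact absurd rfl hj
  · show (ndF 1 3).K.v 2 x = 0
    rw [(corF13 hx').2.1]
    ring
  · show (ndF 2 3).K.v 2 x = 0
    rw [(corF23 hx').2.1]
    ring
  · show (ndF 3 3).K.v 2 x = 0
    rw [(corF33 hx').2.1]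
    ring
  · show (ndF 4 3).K.v (c3n 2) x = 0
    rw [c3n_two]
    rw [(corF43 hx').2.1]
    ring
  · show (ndF 5 3).K.v (c3n 2) x = 0
    rw [c3n_two]
    rw [(corF53 hx').2.1]
    ring
  · show (ndF 6 3).K.v (c3n 2) x = 0
    rw [c3n_two]
    rw [(corF63 hx').2.1]
    ring
  · show (ndF 7 3).K.v (c3n 2) x = 0
    rw [c3n_two]
    rw [(corF73 hx').2.1]
    ring
theorem pzeroKN {x : ℝ} (hx' : x < 1) : ∀ j, (PP x).ρ j ≤ 1 → (ndN j 0).K.v (crd j 0 0) x = (ndN 0 0).K.v (crd 0 0 0) x := by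
  intro j hj
  have h4 := (r4_rng x).1
  fin_cases j
  · rfl
  · exact (corN10 hx').2.1.trans (corN00 hx').2.1.symm
  · exact (corN20 hx').2.1.trans (corN00 hx').2.1.symm
  · exact (corN30 hx').2.1.trans (corN00 hx').2.1.symm
  · exact absurd (show r4 x ≤ 1 from hj) (by linarith)
  · exact absurd (show (23 / 20 : ℝ) ≤ 1 from hj) (by norm_num)
  · exact absurd (show (8 / 5 : ℝ) ≤ 1 from hj) (by norm_num)
  · exact absurd (show (2 : ℝ) ≤ 1 from hj) (by norm_num)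
theorem pmidKN {x : ℝ} (hx' : x < 1) : ∀ j, (PP x).ρ j ≤ 1 → (ndN j 2).K.v (crd j 2 1) x = (ndN 0 2).K.v (crd 0 2 1) x := by
  intro j hj
  have h4 := (r4_rng x).1
  fin_cases j
  · rfl
  · show _ = (ndN 0 2).K.v (c1n 1) x
    rw [c1n_one]
    exact (corN12 hx').2.1.trans (corN02 hx').2.1.symm
  · show _ = (ndN 0 2).K.v (c1n 1) x
    rw [c1n_one]
    exact (corN22 hx').2.1.trans (corN02 hx').2.1.symm
  · show _ = (ndN 0 2).K.v (c1n 1) x
    rw [c1n_one]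
    exact (corN32 hx').2.1.trans (corN02 hx').2.1.symm
  · exact absurd (show r4 x ≤ 1 from hj) (by linarith)
  · exact absurd (show (23 / 20 : ℝ) ≤ 1 from hj) (by norm_num)
  · exact absurd (show (8 / 5 : ℝ) ≤ 1 from hj) (by norm_num)
  · exact absurd (show (2 : ℝ) ≤ 1 from hj) (by norm_num)
theorem ptopKN {x : ℝ} (hx' : x < 1) : ∀ j, j ≠ 0 → (ndN j 3).K.v (crd j 3 2) x = 0 := by
  intro j hj
  fin_cases j
  · exact absurd rfl hj
  · show (ndN 1 3).K.v 2 x = 0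
    rw [(corN13 hx').2.1]
    ring
  · show (ndN 2 3).K.v 2 x = 0
    rw [(corN23 hx').2.1]
    ring
  · show (ndN 3 3).K.v 2 x = 0
    rw [(corN33 hx').2.1]
    ring
  · show (ndN 4 3).K.v (c3n 2) x = 0
    rw [c3n_two]
    rw [(corN43 hx').2.1]
    ring
  · show (ndN 5 3).K.v (c3n 2) x = 0
    rw [c3n_two]
    rw [(corN53 hx').2.1]
    ring
  · show (ndN 6 3).K.v (c3n 2) x = 0
    rw [c3n_two]
    rw [(corN63 hx').2.1]
    ring
  · show (ndN 7 3).K.v (c3n 2) x = 0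
    rw [c3n_two]
    rw [(corN73 hx').2.1]
    ring
theorem pzeroL {x : ℝ} (hx' : x < 1) : ∀ j, (PP x).ρ j ≤ 1 → (ndF j 0).L.v (crd j 0 0) x = (ndF 0 0).L.v (crd 0 0 0) x := by
  intro j hj
  have h4 := (r4_rng x).1
  fin_cases j
  · rfl
  · exact (corF10 hx').2.2.trans (corF00 hx').2.2.symm
  · exact (corF20 hx').2.2.trans (corF00 hx').2.2.symm
  · exact (corF30 hx').2.2.trans (corF00 hx').2.2.symm
  · exact absurd (show r4 x ≤ 1 from hj) (by linarith)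
  · exact absurd (show (23 / 20 : ℝ) ≤ 1 from hj) (by norm_num)
  · exact absurd (show (8 / 5 : ℝ) ≤ 1 from hj) (by norm_num)
  · exact absurd (show (2 : ℝ) ≤ 1 from hj) (by norm_num)
theorem pmidL {x : ℝ} (hx' : x < 1) : ∀ j, (PP x).ρ j ≤ 1 → (ndF j 2).L.v (crd j 2 1) x = (ndF 0 2).L.v (crd 0 2 1) x := by
  intro j hj
  have h4 := (r4_rng x).1
  fin_cases j
  · rfl
  · show _ = (ndF 0 2).L.v (c1n 1) x
    rw [c1n_one]
    exact (corF12 hx').2.2.trans (corF02 hx').2.2.symm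
  · show _ = (ndF 0 2).L.v (c1n 1) x
    rw [c1n_one]
    exact (corF22 hx').2.2.trans (corF02 hx').2.2.symm
  · show _ = (ndF 0 2).L.v (c1n 1) x
    rw [c1n_one]
    exact (corF32 hx').2.2.trans (corF02 hx').2.2.symm
  · exact absurd (show r4 x ≤ 1 from hj) (by linarith)
  · exact absurd (show (23 / 20 : ℝ) ≤ 1 from hj) (by norm_num)
  · exact absurd (show (8 / 5 : ℝ) ≤ 1 from hj) (by norm_num)
  · exact absurd (show (2 : ℝ) ≤ 1 from hj) (by norm_num)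
theorem ptopL {x : ℝ} (hx' : x < 1) : ∀ j, j ≠ 0 → (ndF j 3).L.v (crd j 3 2) x = 0 := by
  intro j hj
  fin_cases j
  · exact absurd rfl hj
  · show (ndF 1 3).L.v 2 x = 0
    rw [(corF13 hx').2.2]
  · show (ndF 2 3).L.v 2 x = 0
    rw [(corF23 hx').2.2]
  · show (ndF 3 3).L.v 2 x = 0
    rw [(corF33 hx').2.2]
  · show (ndF 4 3).L.v (c3n 2) x = 0
    rw [c3n_two]
    rw [(corF43 hx').2.2]
  · show (ndF 5 3).L.v (c3n 2) x = 0
    rw [c3n_two]
    rw [(corF53 hx').2.2]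
  · show (ndF 6 3).L.v (c3n 2) x = 0
    rw [c3n_two]
    rw [(corF63 hx').2.2]
  · show (ndF 7 3).L.v (c3n 2) x = 0
    rw [c3n_two]
    rw [(corF73 hx').2.2]
theorem x1 {x : ℝ} (hx : 39 / 40 ≤ x) : ((1046898278 : ℕ) : ℝ) / S ≤ x := by
  rw [S_num]
  norm_num
  linarith
theorem x2 {x : ℝ} (hx' : x < 1) : x ≤ (((1046898278 : ℕ) : ℝ) + (26843546 : ℕ)) / S := by
  rw [S_num]
  norm_num
  linarith
theorem bx00 : BoxC crd (0 : Fin 8) 0 0 536870912 := by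
  refine boxC_of (lo := 0) (hi := 1 / 2) ?_ (by norm_num) (by norm_num)
  intro y h
  obtain ⟨h1, h2⟩ := onC_rng h
  push_cast at h1 h2
  show 0 ≤ y ∧ y ≤ 1 / 2
  constructor <;> linarith
theorem rx00 {x : ℝ} (hx : 39 / 40 ≤ x) : ∀ y, OnC (0 : Fin 8) 0 y → rl x 0 y → InRt 0 536870912 (crd 0 0 y) := by
  exact fun y h _ => bx00 y h
theorem bx01 : BoxC crd (0 : Fin 8) 1 536870912 536870912 := by
  refine boxC_of (lo := 1 / 2) (hi := 1) ?_ (by norm_num) (by norm_num)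
  intro y h
  obtain ⟨h1, h2⟩ := onC_rng h
  push_cast at h1 h2
  show 1 / 2 ≤ y ∧ y ≤ 1
  constructor <;> linarith
theorem rx01 {x : ℝ} (hx : 39 / 40 ≤ x) : ∀ y, OnC (0 : Fin 8) 1 y → rl x 0 y → InRt 536870912 536870912 (crd 0 1 y) := by
  exact fun y h _ => bx01 y h
theorem bx02 : BoxC crd (0 : Fin 8) 2 0 536870912 := by
  refine boxC_of (lo := 0) (hi := 1 / 2) ?_ (by norm_num) (by norm_num)
  intro y h
  obtain ⟨h1, h2⟩ := onC_rng h
  push_cast at h1 h2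
  exact c1n_half (by linarith)
theorem rx02 {x : ℝ} (hx : 39 / 40 ≤ x) : ∀ y, OnC (0 : Fin 8) 2 y → rl x 0 y → InRt 0 536870912 (crd 0 2 y) := by
  exact fun y h _ => bx02 y h
theorem bx10 : BoxC crd (1 : Fin 8) 0 0 536870912 := by
  refine boxC_of (lo := 0) (hi := 1 / 2) ?_ (by norm_num) (by norm_num)
  intro y h
  obtain ⟨h1, h2⟩ := onC_rng h
  push_cast at h1 h2
  show 0 ≤ y ∧ y ≤ 1 / 2
  constructor <;> linarith
theorem rx10 {x : ℝ} (hx : 39 / 40 ≤ x) : ∀ y, OnC (1 : Fin 8) 0 y → rl x 1 y → InRt 67108864 469762048 (crd 1 0 y) := by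
  intro y h hr
  obtain ⟨h1, h2⟩ := onC_rng h
  push_cast at h1 h2
  refine inRt_of (lo := 1 / 16) (hi := 1 / 2) ?_ (by norm_num) (by norm_num)
  show 1 / 16 ≤ y ∧ y ≤ 1 / 2
  have hr' : (1 / 16 < y ∧ y < 1) ∨ (17 / 16 < y ∧ y ≤ 31 / 16) := hr
  rcases hr' with hr' | hr'
  · constructor <;> linarith
  · constructor <;> linarith
theorem bx11 : BoxC crd (1 : Fin 8) 1 536870912 536870912 := by
  refine boxC_of (lo := 1 / 2) (hi := 1) ?_ (by norm_num) (by norm_num)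
  intro y h
  obtain ⟨h1, h2⟩ := onC_rng h
  push_cast at h1 h2
  show 1 / 2 ≤ y ∧ y ≤ 1
  constructor <;> linarith
theorem rx11 {x : ℝ} (hx : 39 / 40 ≤ x) : ∀ y, OnC (1 : Fin 8) 1 y → rl x 1 y → InRt 536870912 536870912 (crd 1 1 y) := by
  exact fun y h _ => bx11 y h
theorem bx12 : BoxC crd (1 : Fin 8) 2 1073741824 536870912 := by
  refine boxC_of (lo := 1) (hi := 3 / 2) ?_ (by norm_num) (by norm_num)
  intro y h
  obtain ⟨h1, h2⟩ := onC_rng h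
  push_cast at h1 h2
  show 1 ≤ y ∧ y ≤ 3 / 2
  constructor <;> linarith
theorem bx13 : BoxC crd (1 : Fin 8) 3 1610612736 536870912 := by
  refine boxC_of (lo := 3 / 2) (hi := 2) ?_ (by norm_num) (by norm_num)
  intro y h
  obtain ⟨h1, h2⟩ := onC_rng h
  push_cast at h1 h2
  show 3 / 2 ≤ y ∧ y ≤ 2
  constructor <;> linarith
theorem rx13 {x : ℝ} (hx : 39 / 40 ≤ x) : ∀ y, OnC (1 : Fin 8) 3 y → rl x 1 y → InRt 1610612736 469762048 (crd 1 3 y) := by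
  intro y h hr
  obtain ⟨h1, h2⟩ := onC_rng h
  push_cast at h1 h2
  refine inRt_of (lo := 3 / 2) (hi := 31 / 16) ?_ (by norm_num) (by norm_num)
  show 3 / 2 ≤ y ∧ y ≤ 31 / 16
  have hr' : (1 / 16 < y ∧ y < 1) ∨ (17 / 16 < y ∧ y ≤ 31 / 16) := hr
  rcases hr' with hr' | hr'
  · constructor <;> linarith
  · constructor <;> linarith
theorem bx20 : BoxC crd (2 : Fin 8) 0 0 536870912 := by
  refine boxC_of (lo := 0) (hi := 1 / 2) ?_ (by norm_num) (by norm_num)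
  intro y h
  obtain ⟨h1, h2⟩ := onC_rng h
  push_cast at h1 h2
  show 0 ≤ y ∧ y ≤ 1 / 2
  constructor <;> linarith
theorem rx20 {x : ℝ} (hx : 39 / 40 ≤ x) : ∀ y, OnC (2 : Fin 8) 0 y → rl x 2 y → InRt 67108864 469762048 (crd 2 0 y) := by
  intro y h hr
  obtain ⟨h1, h2⟩ := onC_rng h
  push_cast at h1 h2
  refine inRt_of (lo := 1 / 16) (hi := 1 / 2) ?_ (by norm_num) (by norm_num)
  show 1 / 16 ≤ y ∧ y ≤ 1 / 2
  have hr' : (1 / 16 < y ∧ y < 1) ∨ (17 / 16 < y ∧ y ≤ 31 / 16) := hr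
  rcases hr' with hr' | hr'
  · constructor <;> linarith
  · constructor <;> linarith
theorem bx21 : BoxC crd (2 : Fin 8) 1 536870912 536870912 := by
  refine boxC_of (lo := 1 / 2) (hi := 1) ?_ (by norm_num) (by norm_num)
  intro y h
  obtain ⟨h1, h2⟩ := onC_rng h
  push_cast at h1 h2
  show 1 / 2 ≤ y ∧ y ≤ 1
  constructor <;> linarith
theorem rx21 {x : ℝ} (hx : 39 / 40 ≤ x) : ∀ y, OnC (2 : Fin 8) 1 y → rl x 2 y → InRt 536870912 536870912 (crd 2 1 y) := by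
  exact fun y h _ => bx21 y h
theorem bx22 : BoxC crd (2 : Fin 8) 2 1073741824 536870912 := by
  refine boxC_of (lo := 1) (hi := 3 / 2) ?_ (by norm_num) (by norm_num)
  intro y h
  obtain ⟨h1, h2⟩ := onC_rng h
  push_cast at h1 h2
  show 1 ≤ y ∧ y ≤ 3 / 2
  constructor <;> linarith
theorem bx23 : BoxC crd (2 : Fin 8) 3 1610612736 536870912 := by
  refine boxC_of (lo := 3 / 2) (hi := 2) ?_ (by norm_num) (by norm_num)
  intro y h
  obtain ⟨h1, h2⟩ := onC_rng h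
  push_cast at h1 h2
  show 3 / 2 ≤ y ∧ y ≤ 2
  constructor <;> linarith
theorem rx23 {x : ℝ} (hx : 39 / 40 ≤ x) : ∀ y, OnC (2 : Fin 8) 3 y → rl x 2 y → InRt 1610612736 469762048 (crd 2 3 y) := by
  intro y h hr
  obtain ⟨h1, h2⟩ := onC_rng h
  push_cast at h1 h2
  refine inRt_of (lo := 3 / 2) (hi := 31 / 16) ?_ (by norm_num) (by norm_num)
  show 3 / 2 ≤ y ∧ y ≤ 31 / 16
  have hr' : (1 / 16 < y ∧ y < 1) ∨ (17 / 16 < y ∧ y ≤ 31 / 16) := hr
  rcases hr' with hr' | hr'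
  · constructor <;> linarith
  · constructor <;> linarith
theorem bx30 : BoxC crd (3 : Fin 8) 0 0 536870912 := by
  refine boxC_of (lo := 0) (hi := 1 / 2) ?_ (by norm_num) (by norm_num)
  intro y h
  obtain ⟨h1, h2⟩ := onC_rng h
  push_cast at h1 h2
  show 0 ≤ y ∧ y ≤ 1 / 2
  constructor <;> linarith
theorem rx30 {x : ℝ} (hx : 39 / 40 ≤ x) : ∀ y, OnC (3 : Fin 8) 0 y → rl x 3 y → InRt 0 536870912 (crd 3 0 y) := by
  exact fun y h _ => bx30 y h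
theorem bx31 : BoxC crd (3 : Fin 8) 1 536870912 536870912 := by
  refine boxC_of (lo := 1 / 2) (hi := 1) ?_ (by norm_num) (by norm_num)
  intro y h
  obtain ⟨h1, h2⟩ := onC_rng h
  push_cast at h1 h2
  show 1 / 2 ≤ y ∧ y ≤ 1
  constructor <;> linarith
theorem rx31 {x : ℝ} (hx : 39 / 40 ≤ x) : ∀ y, OnC (3 : Fin 8) 1 y → rl x 3 y → InRt 536870912 536870912 (crd 3 1 y) := by
  exact fun y h _ => bx31 y h
theorem bx32 : BoxC crd (3 : Fin 8) 2 1073741824 536870912 := by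
  refine boxC_of (lo := 1) (hi := 3 / 2) ?_ (by norm_num) (by norm_num)
  intro y h
  obtain ⟨h1, h2⟩ := onC_rng h
  push_cast at h1 h2
  show 1 ≤ y ∧ y ≤ 3 / 2
  constructor <;> linarith
theorem rx32 {x : ℝ} (hx : 39 / 40 ≤ x) : ∀ y, OnC (3 : Fin 8) 2 y → rl x 3 y → InRt 1073741824 536870912 (crd 3 2 y) := by
  exact fun y h _ => bx32 y h
theorem bx33 : BoxC crd (3 : Fin 8) 3 1610612736 536870912 := by
  refine boxC_of (lo := 3 / 2) (hi := 2) ?_ (by norm_num) (by norm_num)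
  intro y h
  obtain ⟨h1, h2⟩ := onC_rng h
  push_cast at h1 h2
  show 3 / 2 ≤ y ∧ y ≤ 2
  constructor <;> linarith
theorem rx33 {x : ℝ} (hx : 39 / 40 ≤ x) : ∀ y, OnC (3 : Fin 8) 3 y → rl x 3 y → InRt 1610612736 536870912 (crd 3 3 y) := by
  exact fun y h _ => bx33 y h
theorem bx40 : BoxC crd (4 : Fin 8) 0 0 536870912 := by
  refine boxC_of (lo := 0) (hi := 1 / 2) ?_ (by norm_num) (by norm_num)
  intro y h
  obtain ⟨h1, h2⟩ := onC_rng h
  push_cast at h1 h2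
  show 0 ≤ y ∧ y ≤ 1 / 2
  constructor <;> linarith
theorem rx40 {x : ℝ} (hx : 39 / 40 ≤ x) : ∀ y, OnC (4 : Fin 8) 0 y → rl x 4 y → InRt 0 67108864 (crd 4 0 y) := by
  intro y h hr
  obtain ⟨h1, h2⟩ := onC_rng h
  push_cast at h1 h2
  refine inRt_of (lo := 0) (hi := 1 / 16) ?_ (by norm_num) (by norm_num)
  show 0 ≤ y ∧ y ≤ 1 / 16
  have hr' : y ≤ 1 / 16 := hr
  constructor <;> linarith
theorem bx41 : BoxC crd (4 : Fin 8) 1 536870912 536870912 := by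
  refine boxC_of (lo := 1 / 2) (hi := 1) ?_ (by norm_num) (by norm_num)
  intro y h
  obtain ⟨h1, h2⟩ := onC_rng h
  push_cast at h1 h2
  show 1 / 2 ≤ y ∧ y ≤ 1
  constructor <;> linarith
theorem bx42 : BoxC crd (4 : Fin 8) 2 1073741824 536870912 := by
  refine boxC_of (lo := 1) (hi := 3 / 2) ?_ (by norm_num) (by norm_num)
  intro y h
  obtain ⟨h1, h2⟩ := onC_rng h
  push_cast at h1 h2
  show 1 ≤ y ∧ y ≤ 3 / 2
  constructor <;> linarith
theorem bx43 : BoxC crd (4 : Fin 8) 3 0 1230186008 := by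
  refine boxC_of (lo := 0) (hi := 11457 / 10000) ?_ (by norm_num) (by norm_num)
  intro y h
  obtain ⟨h1, h2⟩ := onC_rng h
  push_cast at h1 h2
  exact c3n_box (by linarith)
theorem bx50 : BoxC crd (5 : Fin 8) 0 0 536870912 := by
  refine boxC_of (lo := 0) (hi := 1 / 2) ?_ (by norm_num) (by norm_num)
  intro y h
  obtain ⟨h1, h2⟩ := onC_rng h
  push_cast at h1 h2
  show 0 ≤ y ∧ y ≤ 1 / 2
  constructor <;> linarith
theorem rx50 {x : ℝ} (hx : 39 / 40 ≤ x) : ∀ y, OnC (5 : Fin 8) 0 y → rl x 5 y → InRt 0 536870912 (crd 5 0 y) := by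
  exact fun y h _ => bx50 y h
theorem bx51 : BoxC crd (5 : Fin 8) 1 536870912 536870912 := by
  refine boxC_of (lo := 1 / 2) (hi := 1) ?_ (by norm_num) (by norm_num)
  intro y h
  obtain ⟨h1, h2⟩ := onC_rng h
  push_cast at h1 h2
  show 1 / 2 ≤ y ∧ y ≤ 1
  constructor <;> linarith
theorem rx51 {x : ℝ} (hx : 39 / 40 ≤ x) : ∀ y, OnC (5 : Fin 8) 1 y → rl x 5 y → InRt 536870912 469762048 (crd 5 1 y) := by
  intro y h hr
  obtain ⟨h1, h2⟩ := onC_rng h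
  push_cast at h1 h2
  refine inRt_of (lo := 1 / 2) (hi := 15 / 16) ?_ (by norm_num) (by norm_num)
  show 1 / 2 ≤ y ∧ y ≤ 15 / 16
  have hr' : y ≤ 15 / 16 ∨ 1 ≤ y := hr
  have hlt := h.1.2
  rcases hr' with hr' | hr'
  · constructor <;> linarith
  · constructor <;> linarith
theorem bx52 : BoxC crd (5 : Fin 8) 2 1073741824 536870912 := by
  refine boxC_of (lo := 1) (hi := 3 / 2) ?_ (by norm_num) (by norm_num)
  intro y h
  obtain ⟨h1, h2⟩ := onC_rng h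
  push_cast at h1 h2
  show 1 ≤ y ∧ y ≤ 3 / 2
  constructor <;> linarith
theorem rx52 {x : ℝ} (hx : 39 / 40 ≤ x) : ∀ y, OnC (5 : Fin 8) 2 y → rl x 5 y → InRt 1073741824 536870912 (crd 5 2 y) := by
  exact fun y h _ => bx52 y h
theorem bx53 : BoxC crd (5 : Fin 8) 3 0 1230186008 := by
  refine boxC_of (lo := 0) (hi := 11457 / 10000) ?_ (by norm_num) (by norm_num)
  intro y h
  obtain ⟨h1, h2⟩ := onC_rng h
  push_cast at h1 h2
  exact c3n_box (by linarith)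
theorem rx53 {x : ℝ} (hx : 39 / 40 ≤ x) : ∀ y, OnC (5 : Fin 8) 3 y → rl x 5 y → InRt 0 1230186008 (crd 5 3 y) := by
  exact fun y h _ => bx53 y h
theorem bx60 : BoxC crd (6 : Fin 8) 0 0 536870912 := by
  refine boxC_of (lo := 0) (hi := 1 / 2) ?_ (by norm_num) (by norm_num)
  intro y h
  obtain ⟨h1, h2⟩ := onC_rng h
  push_cast at h1 h2
  show 0 ≤ y ∧ y ≤ 1 / 2
  constructor <;> linarith
theorem rx60 {x : ℝ} (hx : 39 / 40 ≤ x) : ∀ y, OnC (6 : Fin 8) 0 y → rl x 6 y → InRt 0 536870912 (crd 6 0 y) := by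
  exact fun y h _ => bx60 y h
theorem bx61 : BoxC crd (6 : Fin 8) 1 536870912 536870912 := by
  refine boxC_of (lo := 1 / 2) (hi := 1) ?_ (by norm_num) (by norm_num)
  intro y h
  obtain ⟨h1, h2⟩ := onC_rng h
  push_cast at h1 h2
  show 1 / 2 ≤ y ∧ y ≤ 1
  constructor <;> linarith
theorem rx61 {x : ℝ} (hx : 39 / 40 ≤ x) : ∀ y, OnC (6 : Fin 8) 1 y → rl x 6 y → InRt 536870912 469762048 (crd 6 1 y) := by
  intro y h hr
  obtain ⟨h1, h2⟩ := onC_rng h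
  push_cast at h1 h2
  refine inRt_of (lo := 1 / 2) (hi := 15 / 16) ?_ (by norm_num) (by norm_num)
  show 1 / 2 ≤ y ∧ y ≤ 15 / 16
  have hr' : y ≤ 15 / 16 ∨ 1 ≤ y := hr
  have hlt := h.1.2
  rcases hr' with hr' | hr'
  · constructor <;> linarith
  · constructor <;> linarith
theorem bx62 : BoxC crd (6 : Fin 8) 2 1073741824 536870912 := by
  refine boxC_of (lo := 1) (hi := 3 / 2) ?_ (by norm_num) (by norm_num)
  intro y h
  obtain ⟨h1, h2⟩ := onC_rng h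
  push_cast at h1 h2
  show 1 ≤ y ∧ y ≤ 3 / 2
  constructor <;> linarith
theorem rx62 {x : ℝ} (hx : 39 / 40 ≤ x) : ∀ y, OnC (6 : Fin 8) 2 y → rl x 6 y → InRt 1073741824 536870912 (crd 6 2 y) := by
  exact fun y h _ => bx62 y h
theorem bx63 : BoxC crd (6 : Fin 8) 3 0 1230186008 := by
  refine boxC_of (lo := 0) (hi := 11457 / 10000) ?_ (by norm_num) (by norm_num)
  intro y h
  obtain ⟨h1, h2⟩ := onC_rng h
  push_cast at h1 h2
  exact c3n_box (by linarith)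
theorem rx63 {x : ℝ} (hx : 39 / 40 ≤ x) : ∀ y, OnC (6 : Fin 8) 3 y → rl x 6 y → InRt 0 1230186008 (crd 6 3 y) := by
  exact fun y h _ => bx63 y h
theorem bx70 : BoxC crd (7 : Fin 8) 0 0 536870912 := by
  refine boxC_of (lo := 0) (hi := 1 / 2) ?_ (by norm_num) (by norm_num)
  intro y h
  obtain ⟨h1, h2⟩ := onC_rng h
  push_cast at h1 h2
  show 0 ≤ y ∧ y ≤ 1 / 2
  constructor <;> linarith
theorem rx70 {x : ℝ} (hx : 39 / 40 ≤ x) : ∀ y, OnC (7 : Fin 8) 0 y → rl x 7 y → InRt 0 536870912 (crd 7 0 y) := by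
  exact fun y h _ => bx70 y h
theorem bx71 : BoxC crd (7 : Fin 8) 1 536870912 536870912 := by
  refine boxC_of (lo := 1 / 2) (hi := 1) ?_ (by norm_num) (by norm_num)
  intro y h
  obtain ⟨h1, h2⟩ := onC_rng h
  push_cast at h1 h2
  show 1 / 2 ≤ y ∧ y ≤ 1
  constructor <;> linarith
theorem rx71 {x : ℝ} (hx : 39 / 40 ≤ x) : ∀ y, OnC (7 : Fin 8) 1 y → rl x 7 y → InRt 536870912 536870912 (crd 7 1 y) := by
  exact fun y h _ => bx71 y h
theorem bx72 : BoxC crd (7 : Fin 8) 2 1073741824 536870912 := by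
  refine boxC_of (lo := 1) (hi := 3 / 2) ?_ (by norm_num) (by norm_num)
  intro y h
  obtain ⟨h1, h2⟩ := onC_rng h
  push_cast at h1 h2
  show 1 ≤ y ∧ y ≤ 3 / 2
  constructor <;> linarith
theorem rx72 {x : ℝ} (hx : 39 / 40 ≤ x) : ∀ y, OnC (7 : Fin 8) 2 y → rl x 7 y → InRt 1073741824 536870912 (crd 7 2 y) := by
  exact fun y h _ => bx72 y h
theorem bx73 : BoxC crd (7 : Fin 8) 3 0 1230186008 := by
  refine boxC_of (lo := 0) (hi := 11457 / 10000) ?_ (by norm_num) (by norm_num)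
  intro y h
  obtain ⟨h1, h2⟩ := onC_rng h
  push_cast at h1 h2
  exact c3n_box (by linarith)
theorem rx73 {x : ℝ} (hx : 39 / 40 ≤ x) : ∀ y, OnC (7 : Fin 8) 3 y → rl x 7 y → InRt 0 1230186008 (crd 7 3 y) := by
  exact fun y h _ => bx73 y h
def bdKF00 : ∃ t, chk3 (onCell 0 536870912 0 0 1046898278 26843546 (bndR ((ndF 0 0).K))) t 1 1 1 = true := ⟨fullT 4 1, by decide +kernel⟩
def bdKF01 : ∃ t, chk3 (onCell 536870912 536870912 0 0 1046898278 26843546 (bndR ((ndF 0 1).K))) t 1 1 1 = true := ⟨fullT 4 1, by decide +kernel⟩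
def bdKF02 : ∃ t, chk3 (onCell 0 536870912 0 0 1046898278 26843546 (bndR ((ndF 0 2).K))) t 1 1 1 = true := ⟨fullT 4 1, by decide +kernel⟩
def bdKF10 : ∃ t, chk3 (onCell 0 536870912 0 0 1046898278 26843546 (bndR ((ndF 1 0).K))) t 1 1 1 = true := ⟨fullT 4 1, by decide +kernel⟩
def bdKF11 : ∃ t, chk3 (onCell 536870912 536870912 0 0 1046898278 26843546 (bndR ((ndF 1 1).K))) t 1 1 1 = true := ⟨fullT 4 1, by decide +kernel⟩
def bdKF12 : ∃ t, chk3 (onCell 1073741824 536870912 0 0 1046898278 26843546 (bndR ((ndF 1 2).K))) t 1 1 1 = true := ⟨fullT 4 1, by decide +kernel⟩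
def bdKF13 : ∃ t, chk3 (onCell 1610612736 536870912 0 0 1046898278 26843546 (bndR ((ndF 1 3).K))) t 1 1 1 = true := ⟨fullT 4 1, by decide +kernel⟩
def bdKF20 : ∃ t, chk3 (onCell 0 536870912 0 0 1046898278 26843546 (bndR ((ndF 2 0).K))) t 1 1 1 = true := ⟨fullT 4 1, by decide +kernel⟩
def bdKF21 : ∃ t, chk3 (onCell 536870912 536870912 0 0 1046898278 26843546 (bndR ((ndF 2 1).K))) t 1 1 1 = true := ⟨fullT 4 1, by decide +kernel⟩
def bdKF22 : ∃ t, chk3 (onCell 1073741824 536870912 0 0 1046898278 26843546 (bndR ((ndF 2 2).K))) t 1 1 1 = true := ⟨fullT 4 1, by decide +kernel⟩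
def bdKF23 : ∃ t, chk3 (onCell 1610612736 536870912 0 0 1046898278 26843546 (bndR ((ndF 2 3).K))) t 1 1 1 = true := ⟨fullT 4 1, by decide +kernel⟩
def bdKF30 : ∃ t, chk3 (onCell 0 536870912 0 0 1046898278 26843546 (bndR ((ndF 3 0).K))) t 1 1 1 = true := ⟨fullT 4 1, by decide +kernel⟩
def bdKF31 : ∃ t, chk3 (onCell 536870912 536870912 0 0 1046898278 26843546 (bndR ((ndF 3 1).K))) t 1 1 1 = true := ⟨fullT 4 1, by decide +kernel⟩
def bdKF32 : ∃ t, chk3 (onCell 1073741824 536870912 0 0 1046898278 26843546 (bndR ((ndF 3 2).K))) t 1 1 1 = true := ⟨fullT 4 1, by decide +kernel⟩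
def bdKF33 : ∃ t, chk3 (onCell 1610612736 536870912 0 0 1046898278 26843546 (bndR ((ndF 3 3).K))) t 1 1 1 = true := ⟨fullT 4 1, by decide +kernel⟩
def bdKF40 : ∃ t, chk3 (onCell 0 536870912 0 0 1046898278 26843546 (bndR ((ndF 4 0).K))) t 1 1 1 = true := ⟨fullT 4 1, by decide +kernel⟩
def bdKF41 : ∃ t, chk3 (onCell 536870912 536870912 0 0 1046898278 26843546 (bndR ((ndF 4 1).K))) t 1 1 1 = true := ⟨fullT 4 1, by decide +kernel⟩
def bdKF42 : ∃ t, chk3 (onCell 1073741824 536870912 0 0 1046898278 26843546 (bndR ((ndF 4 2).K))) t 1 1 1 = true := ⟨fullT 4 1, by decide +kernel⟩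
def bdKF43 : ∃ t, chk3 (onCell 0 1230186008 0 0 1046898278 26843546 (bndR ((ndF 4 3).K))) t 1 1 1 = true := ⟨fullT 4 1, by decide +kernel⟩
def bdKF50 : ∃ t, chk3 (onCell 0 536870912 0 0 1046898278 26843546 (bndR ((ndF 5 0).K))) t 1 1 1 = true := ⟨fullT 4 1, by decide +kernel⟩
def bdKF51 : ∃ t, chk3 (onCell 536870912 536870912 0 0 1046898278 26843546 (bndR ((ndF 5 1).K))) t 1 1 1 = true := ⟨fullT 4 1, by decide +kernel⟩
def bdKF52 : ∃ t, chk3 (onCell 1073741824 536870912 0 0 1046898278 26843546 (bndR ((ndF 5 2).K))) t 1 1 1 = true := ⟨fullT 4 1, by decide +kernel⟩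
def bdKF53 : ∃ t, chk3 (onCell 0 1230186008 0 0 1046898278 26843546 (bndR ((ndF 5 3).K))) t 1 1 1 = true := ⟨fullT 4 1, by decide +kernel⟩
def bdKF60 : ∃ t, chk3 (onCell 0 536870912 0 0 1046898278 26843546 (bndR ((ndF 6 0).K))) t 1 1 1 = true := ⟨fullT 4 1, by decide +kernel⟩
def bdKF61 : ∃ t, chk3 (onCell 536870912 536870912 0 0 1046898278 26843546 (bndR ((ndF 6 1).K))) t 1 1 1 = true := ⟨fullT 4 1, by decide +kernel⟩
def bdKF62 : ∃ t, chk3 (onCell 1073741824 536870912 0 0 1046898278 26843546 (bndR ((ndF 6 2).K))) t 1 1 1 = true := ⟨fullT 4 1, by decide +kernel⟩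
def bdKF63 : ∃ t, chk3 (onCell 0 1230186008 0 0 1046898278 26843546 (bndR ((ndF 6 3).K))) t 1 1 1 = true := ⟨fullT 4 1, by decide +kernel⟩
def bdKF70 : ∃ t, chk3 (onCell 0 536870912 0 0 1046898278 26843546 (bndR ((ndF 7 0).K))) t 1 1 1 = true := ⟨fullT 4 1, by decide +kernel⟩
def bdKF71 : ∃ t, chk3 (onCell 536870912 536870912 0 0 1046898278 26843546 (bndR ((ndF 7 1).K))) t 1 1 1 = true := ⟨fullT 4 1, by decide +kernel⟩
def bdKF72 : ∃ t, chk3 (onCell 1073741824 536870912 0 0 1046898278 26843546 (bndR ((ndF 7 2).K))) t 1 1 1 = true := ⟨fullT 4 1, by decide +kernel⟩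
def bdKF73 : ∃ t, chk3 (onCell 0 1230186008 0 0 1046898278 26843546 (bndR ((ndF 7 3).K))) t 1 1 1 = true := ⟨fullT 4 1, by decide +kernel⟩
theorem bddKF {x : ℝ} (hx : 39 / 40 ≤ x) (hx' : x < 1) : ∃ C, ∀ j q y, OnC j q y → |(ndF j q).K.v (crd j q y) x| ≤ C := by
  refine ⟨64, ?_⟩
  intro j q y h
  fin_cases j
  · match q, h with
    | 0, h => exact bnd_sound bdKF00 (bx00 y h).1 (bx00 y h).2 (x1 hx) (x2 hx')
    | 1, h => exact bnd_sound bdKF01 (bx01 y h).1 (bx01 y h).2 (x1 hx) (x2 hx')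
    | 2, h => exact bnd_sound bdKF02 (bx02 y h).1 (bx02 y h).2 (x1 hx) (x2 hx')
    | 3, h => exact absurd h.1.1 (by linarith [y_lt (h.2 rfl)])
    | _ + 4, h => exact h.1.elim
  · match q, h with
    | 0, h => exact bnd_sound bdKF10 (bx10 y h).1 (bx10 y h).2 (x1 hx) (x2 hx')
    | 1, h => exact bnd_sound bdKF11 (bx11 y h).1 (bx11 y h).2 (x1 hx) (x2 hx')
    | 2, h => exact bnd_sound bdKF12 (bx12 y h).1 (bx12 y h).2 (x1 hx) (x2 hx')
    | 3, h => exact bnd_sound bdKF13 (bx13 y h).1 (bx13 y h).2 (x1 hx) (x2 hx')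
    | _ + 4, h => exact h.1.elim
  · match q, h with
    | 0, h => exact bnd_sound bdKF20 (bx20 y h).1 (bx20 y h).2 (x1 hx) (x2 hx')
    | 1, h => exact bnd_sound bdKF21 (bx21 y h).1 (bx21 y h).2 (x1 hx) (x2 hx')
    | 2, h => exact bnd_sound bdKF22 (bx22 y h).1 (bx22 y h).2 (x1 hx) (x2 hx')
    | 3, h => exact bnd_sound bdKF23 (bx23 y h).1 (bx23 y h).2 (x1 hx) (x2 hx')
    | _ + 4, h => exact h.1.elim
  · match q, h with
    | 0, h => exact bnd_sound bdKF30 (bx30 y h).1 (bx30 y h).2 (x1 hx) (x2 hx')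
    | 1, h => exact bnd_sound bdKF31 (bx31 y h).1 (bx31 y h).2 (x1 hx) (x2 hx')
    | 2, h => exact bnd_sound bdKF32 (bx32 y h).1 (bx32 y h).2 (x1 hx) (x2 hx')
    | 3, h => exact bnd_sound bdKF33 (bx33 y h).1 (bx33 y h).2 (x1 hx) (x2 hx')
    | _ + 4, h => exact h.1.elim
  · match q, h with
    | 0, h => exact bnd_sound bdKF40 (bx40 y h).1 (bx40 y h).2 (x1 hx) (x2 hx')
    | 1, h => exact bnd_sound bdKF41 (bx41 y h).1 (bx41 y h).2 (x1 hx) (x2 hx')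
    | 2, h => exact bnd_sound bdKF42 (bx42 y h).1 (bx42 y h).2 (x1 hx) (x2 hx')
    | 3, h => exact bnd_sound bdKF43 (bx43 y h).1 (bx43 y h).2 (x1 hx) (x2 hx')
    | _ + 4, h => exact h.1.elim
  · match q, h with
    | 0, h => exact bnd_sound bdKF50 (bx50 y h).1 (bx50 y h).2 (x1 hx) (x2 hx')
    | 1, h => exact bnd_sound bdKF51 (bx51 y h).1 (bx51 y h).2 (x1 hx) (x2 hx')
    | 2, h => exact bnd_sound bdKF52 (bx52 y h).1 (bx52 y h).2 (x1 hx) (x2 hx')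
    | 3, h => exact bnd_sound bdKF53 (bx53 y h).1 (bx53 y h).2 (x1 hx) (x2 hx')
    | _ + 4, h => exact h.1.elim
  · match q, h with
    | 0, h => exact bnd_sound bdKF60 (bx60 y h).1 (bx60 y h).2 (x1 hx) (x2 hx')
    | 1, h => exact bnd_sound bdKF61 (bx61 y h).1 (bx61 y h).2 (x1 hx) (x2 hx')
    | 2, h => exact bnd_sound bdKF62 (bx62 y h).1 (bx62 y h).2 (x1 hx) (x2 hx')
    | 3, h => exact bnd_sound bdKF63 (bx63 y h).1 (bx63 y h).2 (x1 hx) (x2 hx')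
    | _ + 4, h => exact h.1.elim
  · match q, h with
    | 0, h => exact bnd_sound bdKF70 (bx70 y h).1 (bx70 y h).2 (x1 hx) (x2 hx')
    | 1, h => exact bnd_sound bdKF71 (bx71 y h).1 (bx71 y h).2 (x1 hx) (x2 hx')
    | 2, h => exact bnd_sound bdKF72 (bx72 y h).1 (bx72 y h).2 (x1 hx) (x2 hx')
    | 3, h => exact bnd_sound bdKF73 (bx73 y h).1 (bx73 y h).2 (x1 hx) (x2 hx')
    | _ + 4, h => exact h.1.elim
def bdKN00 : ∃ t, chk3 (onCell 0 536870912 0 0 1046898278 26843546 (bndR ((ndN 0 0).K))) t 1 1 1 = true := ⟨fullT 4 1, by decide +kernel⟩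
def bdKN01 : ∃ t, chk3 (onCell 536870912 536870912 0 0 1046898278 26843546 (bndR ((ndN 0 1).K))) t 1 1 1 = true := ⟨fullT 4 1, by decide +kernel⟩
def bdKN02 : ∃ t, chk3 (onCell 0 536870912 0 0 1046898278 26843546 (bndR ((ndN 0 2).K))) t 1 1 1 = true := ⟨fullT 4 1, by decide +kernel⟩
def bdKN10 : ∃ t, chk3 (onCell 0 536870912 0 0 1046898278 26843546 (bndR ((ndN 1 0).K))) t 1 1 1 = true := ⟨fullT 4 1, by decide +kernel⟩
def bdKN11 : ∃ t, chk3 (onCell 536870912 536870912 0 0 1046898278 26843546 (bndR ((ndN 1 1).K))) t 1 1 1 = true := ⟨fullT 4 1, by decide +kernel⟩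
def bdKN12 : ∃ t, chk3 (onCell 1073741824 536870912 0 0 1046898278 26843546 (bndR ((ndN 1 2).K))) t 1 1 1 = true := ⟨fullT 4 1, by decide +kernel⟩
def bdKN13 : ∃ t, chk3 (onCell 1610612736 536870912 0 0 1046898278 26843546 (bndR ((ndN 1 3).K))) t 1 1 1 = true := ⟨fullT 4 1, by decide +kernel⟩
def bdKN20 : ∃ t, chk3 (onCell 0 536870912 0 0 1046898278 26843546 (bndR ((ndN 2 0).K))) t 1 1 1 = true := ⟨fullT 4 1, by decide +kernel⟩
def bdKN21 : ∃ t, chk3 (onCell 536870912 536870912 0 0 1046898278 26843546 (bndR ((ndN 2 1).K))) t 1 1 1 = true := ⟨fullT 4 1, by decide +kernel⟩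
def bdKN22 : ∃ t, chk3 (onCell 1073741824 536870912 0 0 1046898278 26843546 (bndR ((ndN 2 2).K))) t 1 1 1 = true := ⟨fullT 4 1, by decide +kernel⟩
def bdKN23 : ∃ t, chk3 (onCell 1610612736 536870912 0 0 1046898278 26843546 (bndR ((ndN 2 3).K))) t 1 1 1 = true := ⟨fullT 4 1, by decide +kernel⟩
def bdKN30 : ∃ t, chk3 (onCell 0 536870912 0 0 1046898278 26843546 (bndR ((ndN 3 0).K))) t 1 1 1 = true := ⟨fullT 4 1, by decide +kernel⟩
def bdKN31 : ∃ t, chk3 (onCell 536870912 536870912 0 0 1046898278 26843546 (bndR ((ndN 3 1).K))) t 1 1 1 = true := ⟨fullT 4 1, by decide +kernel⟩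
def bdKN32 : ∃ t, chk3 (onCell 1073741824 536870912 0 0 1046898278 26843546 (bndR ((ndN 3 2).K))) t 1 1 1 = true := ⟨fullT 4 1, by decide +kernel⟩
def bdKN33 : ∃ t, chk3 (onCell 1610612736 536870912 0 0 1046898278 26843546 (bndR ((ndN 3 3).K))) t 1 1 1 = true := ⟨fullT 4 1, by decide +kernel⟩
def bdKN40 : ∃ t, chk3 (onCell 0 536870912 0 0 1046898278 26843546 (bndR ((ndN 4 0).K))) t 1 1 1 = true := ⟨fullT 4 1, by decide +kernel⟩
def bdKN41 : ∃ t, chk3 (onCell 536870912 536870912 0 0 1046898278 26843546 (bndR ((ndN 4 1).K))) t 1 1 1 = true := ⟨fullT 4 1, by decide +kernel⟩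
def bdKN42 : ∃ t, chk3 (onCell 1073741824 536870912 0 0 1046898278 26843546 (bndR ((ndN 4 2).K))) t 1 1 1 = true := ⟨fullT 4 1, by decide +kernel⟩
def bdKN43 : ∃ t, chk3 (onCell 0 1230186008 0 0 1046898278 26843546 (bndR ((ndN 4 3).K))) t 1 1 1 = true := ⟨fullT 4 1, by decide +kernel⟩
def bdKN50 : ∃ t, chk3 (onCell 0 536870912 0 0 1046898278 26843546 (bndR ((ndN 5 0).K))) t 1 1 1 = true := ⟨fullT 4 1, by decide +kernel⟩
def bdKN51 : ∃ t, chk3 (onCell 536870912 536870912 0 0 1046898278 26843546 (bndR ((ndN 5 1).K))) t 1 1 1 = true := ⟨fullT 4 1, by decide +kernel⟩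
def bdKN52 : ∃ t, chk3 (onCell 1073741824 536870912 0 0 1046898278 26843546 (bndR ((ndN 5 2).K))) t 1 1 1 = true := ⟨fullT 4 1, by decide +kernel⟩
def bdKN53 : ∃ t, chk3 (onCell 0 1230186008 0 0 1046898278 26843546 (bndR ((ndN 5 3).K))) t 1 1 1 = true := ⟨fullT 4 1, by decide +kernel⟩
def bdKN60 : ∃ t, chk3 (onCell 0 536870912 0 0 1046898278 26843546 (bndR ((ndN 6 0).K))) t 1 1 1 = true := ⟨fullT 4 1, by decide +kernel⟩
def bdKN61 : ∃ t, chk3 (onCell 536870912 536870912 0 0 1046898278 26843546 (bndR ((ndN 6 1).K))) t 1 1 1 = true := ⟨fullT 4 1, by decide +kernel⟩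
def bdKN62 : ∃ t, chk3 (onCell 1073741824 536870912 0 0 1046898278 26843546 (bndR ((ndN 6 2).K))) t 1 1 1 = true := ⟨fullT 4 1, by decide +kernel⟩
def bdKN63 : ∃ t, chk3 (onCell 0 1230186008 0 0 1046898278 26843546 (bndR ((ndN 6 3).K))) t 1 1 1 = true := ⟨fullT 4 1, by decide +kernel⟩
def bdKN70 : ∃ t, chk3 (onCell 0 536870912 0 0 1046898278 26843546 (bndR ((ndN 7 0).K))) t 1 1 1 = true := ⟨fullT 4 1, by decide +kernel⟩
def bdKN71 : ∃ t, chk3 (onCell 536870912 536870912 0 0 1046898278 26843546 (bndR ((ndN 7 1).K))) t 1 1 1 = true := ⟨fullT 4 1, by decide +kernel⟩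
def bdKN72 : ∃ t, chk3 (onCell 1073741824 536870912 0 0 1046898278 26843546 (bndR ((ndN 7 2).K))) t 1 1 1 = true := ⟨fullT 4 1, by decide +kernel⟩
def bdKN73 : ∃ t, chk3 (onCell 0 1230186008 0 0 1046898278 26843546 (bndR ((ndN 7 3).K))) t 1 1 1 = true := ⟨fullT 4 1, by decide +kernel⟩
theorem bddKN {x : ℝ} (hx : 39 / 40 ≤ x) (hx' : x < 1) : ∃ C, ∀ j q y, OnC j q y → |(ndN j q).K.v (crd j q y) x| ≤ C := by
  refine ⟨64, ?_⟩
  intro j q y h
  fin_cases j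
  · match q, h with
    | 0, h => exact bnd_sound bdKN00 (bx00 y h).1 (bx00 y h).2 (x1 hx) (x2 hx')
    | 1, h => exact bnd_sound bdKN01 (bx01 y h).1 (bx01 y h).2 (x1 hx) (x2 hx')
    | 2, h => exact bnd_sound bdKN02 (bx02 y h).1 (bx02 y h).2 (x1 hx) (x2 hx')
    | 3, h => exact absurd h.1.1 (by linarith [y_lt (h.2 rfl)])
    | _ + 4, h => exact h.1.elim
  · match q, h with
    | 0, h => exact bnd_sound bdKN10 (bx10 y h).1 (bx10 y h).2 (x1 hx) (x2 hx')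
    | 1, h => exact bnd_sound bdKN11 (bx11 y h).1 (bx11 y h).2 (x1 hx) (x2 hx')
    | 2, h => exact bnd_sound bdKN12 (bx12 y h).1 (bx12 y h).2 (x1 hx) (x2 hx')
    | 3, h => exact bnd_sound bdKN13 (bx13 y h).1 (bx13 y h).2 (x1 hx) (x2 hx')
    | _ + 4, h => exact h.1.elim
  · match q, h with
    | 0, h => exact bnd_sound bdKN20 (bx20 y h).1 (bx20 y h).2 (x1 hx) (x2 hx')
    | 1, h => exact bnd_sound bdKN21 (bx21 y h).1 (bx21 y h).2 (x1 hx) (x2 hx')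
    | 2, h => exact bnd_sound bdKN22 (bx22 y h).1 (bx22 y h).2 (x1 hx) (x2 hx')
    | 3, h => exact bnd_sound bdKN23 (bx23 y h).1 (bx23 y h).2 (x1 hx) (x2 hx')
    | _ + 4, h => exact h.1.elim
  · match q, h with
    | 0, h => exact bnd_sound bdKN30 (bx30 y h).1 (bx30 y h).2 (x1 hx) (x2 hx')
    | 1, h => exact bnd_sound bdKN31 (bx31 y h).1 (bx31 y h).2 (x1 hx) (x2 hx')
    | 2, h => exact bnd_sound bdKN32 (bx32 y h).1 (bx32 y h).2 (x1 hx) (x2 hx')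
    | 3, h => exact bnd_sound bdKN33 (bx33 y h).1 (bx33 y h).2 (x1 hx) (x2 hx')
    | _ + 4, h => exact h.1.elim
  · match q, h with
    | 0, h => exact bnd_sound bdKN40 (bx40 y h).1 (bx40 y h).2 (x1 hx) (x2 hx')
    | 1, h => exact bnd_sound bdKN41 (bx41 y h).1 (bx41 y h).2 (x1 hx) (x2 hx')
    | 2, h => exact bnd_sound bdKN42 (bx42 y h).1 (bx42 y h).2 (x1 hx) (x2 hx')
    | 3, h => exact bnd_sound bdKN43 (bx43 y h).1 (bx43 y h).2 (x1 hx) (x2 hx')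
    | _ + 4, h => exact h.1.elim
  · match q, h with
    | 0, h => exact bnd_sound bdKN50 (bx50 y h).1 (bx50 y h).2 (x1 hx) (x2 hx')
    | 1, h => exact bnd_sound bdKN51 (bx51 y h).1 (bx51 y h).2 (x1 hx) (x2 hx')
    | 2, h => exact bnd_sound bdKN52 (bx52 y h).1 (bx52 y h).2 (x1 hx) (x2 hx')
    | 3, h => exact bnd_sound bdKN53 (bx53 y h).1 (bx53 y h).2 (x1 hx) (x2 hx')
    | _ + 4, h => exact h.1.elim
  · match q, h with
    | 0, h => exact bnd_sound bdKN60 (bx60 y h).1 (bx60 y h).2 (x1 hx) (x2 hx')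
    | 1, h => exact bnd_sound bdKN61 (bx61 y h).1 (bx61 y h).2 (x1 hx) (x2 hx')
    | 2, h => exact bnd_sound bdKN62 (bx62 y h).1 (bx62 y h).2 (x1 hx) (x2 hx')
    | 3, h => exact bnd_sound bdKN63 (bx63 y h).1 (bx63 y h).2 (x1 hx) (x2 hx')
    | _ + 4, h => exact h.1.elim
  · match q, h with
    | 0, h => exact bnd_sound bdKN70 (bx70 y h).1 (bx70 y h).2 (x1 hx) (x2 hx')
    | 1, h => exact bnd_sound bdKN71 (bx71 y h).1 (bx71 y h).2 (x1 hx) (x2 hx')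
    | 2, h => exact bnd_sound bdKN72 (bx72 y h).1 (bx72 y h).2 (x1 hx) (x2 hx')
    | 3, h => exact bnd_sound bdKN73 (bx73 y h).1 (bx73 y h).2 (x1 hx) (x2 hx')
    | _ + 4, h => exact h.1.elim
def bdL00 : ∃ t, chk3 (onCell 0 536870912 0 0 1046898278 26843546 (bndR ((ndF 0 0).L))) t 1 1 1 = true := ⟨fullT 4 1, by decide +kernel⟩
def bdL01 : ∃ t, chk3 (onCell 536870912 536870912 0 0 1046898278 26843546 (bndR ((ndF 0 1).L))) t 1 1 1 = true := ⟨fullT 4 1, by decide +kernel⟩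
def bdL02 : ∃ t, chk3 (onCell 0 536870912 0 0 1046898278 26843546 (bndR ((ndF 0 2).L))) t 1 1 1 = true := ⟨fullT 4 1, by decide +kernel⟩
def bdL10 : ∃ t, chk3 (onCell 0 536870912 0 0 1046898278 26843546 (bndR ((ndF 1 0).L))) t 1 1 1 = true := ⟨fullT 4 1, by decide +kernel⟩
def bdL11 : ∃ t, chk3 (onCell 536870912 536870912 0 0 1046898278 26843546 (bndR ((ndF 1 1).L))) t 1 1 1 = true := ⟨fullT 4 1, by decide +kernel⟩
def bdL12 : ∃ t, chk3 (onCell 1073741824 536870912 0 0 1046898278 26843546 (bndR ((ndF 1 2).L))) t 1 1 1 = true := ⟨fullT 4 1, by decide +kernel⟩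
def bdL13 : ∃ t, chk3 (onCell 1610612736 536870912 0 0 1046898278 26843546 (bndR ((ndF 1 3).L))) t 1 1 1 = true := ⟨fullT 4 1, by decide +kernel⟩
def bdL20 : ∃ t, chk3 (onCell 0 536870912 0 0 1046898278 26843546 (bndR ((ndF 2 0).L))) t 1 1 1 = true := ⟨fullT 4 1, by decide +kernel⟩
def bdL21 : ∃ t, chk3 (onCell 536870912 536870912 0 0 1046898278 26843546 (bndR ((ndF 2 1).L))) t 1 1 1 = true := ⟨fullT 4 1, by decide +kernel⟩
def bdL22 : ∃ t, chk3 (onCell 1073741824 536870912 0 0 1046898278 26843546 (bndR ((ndF 2 2).L))) t 1 1 1 = true := ⟨fullT 4 1, by decide +kernel⟩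
def bdL23 : ∃ t, chk3 (onCell 1610612736 536870912 0 0 1046898278 26843546 (bndR ((ndF 2 3).L))) t 1 1 1 = true := ⟨fullT 4 1, by decide +kernel⟩
def bdL30 : ∃ t, chk3 (onCell 0 536870912 0 0 1046898278 26843546 (bndR ((ndF 3 0).L))) t 1 1 1 = true := ⟨fullT 4 1, by decide +kernel⟩
def bdL31 : ∃ t, chk3 (onCell 536870912 536870912 0 0 1046898278 26843546 (bndR ((ndF 3 1).L))) t 1 1 1 = true := ⟨fullT 4 1, by decide +kernel⟩
def bdL32 : ∃ t, chk3 (onCell 1073741824 536870912 0 0 1046898278 26843546 (bndR ((ndF 3 2).L))) t 1 1 1 = true := ⟨fullT 4 1, by decide +kernel⟩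
def bdL33 : ∃ t, chk3 (onCell 1610612736 536870912 0 0 1046898278 26843546 (bndR ((ndF 3 3).L))) t 1 1 1 = true := ⟨fullT 4 1, by decide +kernel⟩
def bdL40 : ∃ t, chk3 (onCell 0 536870912 0 0 1046898278 26843546 (bndR ((ndF 4 0).L))) t 1 1 1 = true := ⟨fullT 4 1, by decide +kernel⟩
def bdL41 : ∃ t, chk3 (onCell 536870912 536870912 0 0 1046898278 26843546 (bndR ((ndF 4 1).L))) t 1 1 1 = true := ⟨fullT 4 1, by decide +kernel⟩
def bdL42 : ∃ t, chk3 (onCell 1073741824 536870912 0 0 1046898278 26843546 (bndR ((ndF 4 2).L))) t 1 1 1 = true := ⟨fullT 4 1, by decide +kernel⟩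
def bdL43 : ∃ t, chk3 (onCell 0 1230186008 0 0 1046898278 26843546 (bndR ((ndF 4 3).L))) t 1 1 1 = true := ⟨fullT 4 1, by decide +kernel⟩
def bdL50 : ∃ t, chk3 (onCell 0 536870912 0 0 1046898278 26843546 (bndR ((ndF 5 0).L))) t 1 1 1 = true := ⟨fullT 4 1, by decide +kernel⟩
def bdL51 : ∃ t, chk3 (onCell 536870912 536870912 0 0 1046898278 26843546 (bndR ((ndF 5 1).L))) t 1 1 1 = true := ⟨fullT 4 1, by decide +kernel⟩
def bdL52 : ∃ t, chk3 (onCell 1073741824 536870912 0 0 1046898278 26843546 (bndR ((ndF 5 2).L))) t 1 1 1 = true := ⟨fullT 4 1, by decide +kernel⟩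
def bdL53 : ∃ t, chk3 (onCell 0 1230186008 0 0 1046898278 26843546 (bndR ((ndF 5 3).L))) t 1 1 1 = true := ⟨fullT 4 1, by decide +kernel⟩
def bdL60 : ∃ t, chk3 (onCell 0 536870912 0 0 1046898278 26843546 (bndR ((ndF 6 0).L))) t 1 1 1 = true := ⟨fullT 4 1, by decide +kernel⟩
def bdL61 : ∃ t, chk3 (onCell 536870912 536870912 0 0 1046898278 26843546 (bndR ((ndF 6 1).L))) t 1 1 1 = true := ⟨fullT 4 1, by decide +kernel⟩
def bdL62 : ∃ t, chk3 (onCell 1073741824 536870912 0 0 1046898278 26843546 (bndR ((ndF 6 2).L))) t 1 1 1 = true := ⟨fullT 4 1, by decide +kernel⟩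
def bdL63 : ∃ t, chk3 (onCell 0 1230186008 0 0 1046898278 26843546 (bndR ((ndF 6 3).L))) t 1 1 1 = true := ⟨fullT 4 1, by decide +kernel⟩
def bdL70 : ∃ t, chk3 (onCell 0 536870912 0 0 1046898278 26843546 (bndR ((ndF 7 0).L))) t 1 1 1 = true := ⟨fullT 4 1, by decide +kernel⟩
def bdL71 : ∃ t, chk3 (onCell 536870912 536870912 0 0 1046898278 26843546 (bndR ((ndF 7 1).L))) t 1 1 1 = true := ⟨fullT 4 1, by decide +kernel⟩
def bdL72 : ∃ t, chk3 (onCell 1073741824 536870912 0 0 1046898278 26843546 (bndR ((ndF 7 2).L))) t 1 1 1 = true := ⟨fullT 4 1, by decide +kernel⟩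
def bdL73 : ∃ t, chk3 (onCell 0 1230186008 0 0 1046898278 26843546 (bndR ((ndF 7 3).L))) t 1 1 1 = true := ⟨fullT 4 1, by decide +kernel⟩
theorem bddL {x : ℝ} (hx : 39 / 40 ≤ x) (hx' : x < 1) : ∃ C, ∀ j q y, OnC j q y → |(ndF j q).L.v (crd j q y) x| ≤ C := by
  refine ⟨64, ?_⟩
  intro j q y h
  fin_cases j
  · match q, h with
    | 0, h => exact bnd_sound bdL00 (bx00 y h).1 (bx00 y h).2 (x1 hx) (x2 hx')
    | 1, h => exact bnd_sound bdL01 (bx01 y h).1 (bx01 y h).2 (x1 hx) (x2 hx')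
    | 2, h => exact bnd_sound bdL02 (bx02 y h).1 (bx02 y h).2 (x1 hx) (x2 hx')
    | 3, h => exact absurd h.1.1 (by linarith [y_lt (h.2 rfl)])
    | _ + 4, h => exact h.1.elim
  · match q, h with
    | 0, h => exact bnd_sound bdL10 (bx10 y h).1 (bx10 y h).2 (x1 hx) (x2 hx')
    | 1, h => exact bnd_sound bdL11 (bx11 y h).1 (bx11 y h).2 (x1 hx) (x2 hx')
    | 2, h => exact bnd_sound bdL12 (bx12 y h).1 (bx12 y h).2 (x1 hx) (x2 hx')
    | 3, h => exact bnd_sound bdL13 (bx13 y h).1 (bx13 y h).2 (x1 hx) (x2 hx')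
    | _ + 4, h => exact h.1.elim
  · match q, h with
    | 0, h => exact bnd_sound bdL20 (bx20 y h).1 (bx20 y h).2 (x1 hx) (x2 hx')
    | 1, h => exact bnd_sound bdL21 (bx21 y h).1 (bx21 y h).2 (x1 hx) (x2 hx')
    | 2, h => exact bnd_sound bdL22 (bx22 y h).1 (bx22 y h).2 (x1 hx) (x2 hx')
    | 3, h => exact bnd_sound bdL23 (bx23 y h).1 (bx23 y h).2 (x1 hx) (x2 hx')
    | _ + 4, h => exact h.1.elim
  · match q, h with
    | 0, h => exact bnd_sound bdL30 (bx30 y h).1 (bx30 y h).2 (x1 hx) (x2 hx')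
    | 1, h => exact bnd_sound bdL31 (bx31 y h).1 (bx31 y h).2 (x1 hx) (x2 hx')
    | 2, h => exact bnd_sound bdL32 (bx32 y h).1 (bx32 y h).2 (x1 hx) (x2 hx')
    | 3, h => exact bnd_sound bdL33 (bx33 y h).1 (bx33 y h).2 (x1 hx) (x2 hx')
    | _ + 4, h => exact h.1.elim
  · match q, h with
    | 0, h => exact bnd_sound bdL40 (bx40 y h).1 (bx40 y h).2 (x1 hx) (x2 hx')
    | 1, h => exact bnd_sound bdL41 (bx41 y h).1 (bx41 y h).2 (x1 hx) (x2 hx')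
    | 2, h => exact bnd_sound bdL42 (bx42 y h).1 (bx42 y h).2 (x1 hx) (x2 hx')
    | 3, h => exact bnd_sound bdL43 (bx43 y h).1 (bx43 y h).2 (x1 hx) (x2 hx')
    | _ + 4, h => exact h.1.elim
  · match q, h with
    | 0, h => exact bnd_sound bdL50 (bx50 y h).1 (bx50 y h).2 (x1 hx) (x2 hx')
    | 1, h => exact bnd_sound bdL51 (bx51 y h).1 (bx51 y h).2 (x1 hx) (x2 hx')
    | 2, h => exact bnd_sound bdL52 (bx52 y h).1 (bx52 y h).2 (x1 hx) (x2 hx')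
    | 3, h => exact bnd_sound bdL53 (bx53 y h).1 (bx53 y h).2 (x1 hx) (x2 hx')
    | _ + 4, h => exact h.1.elim
  · match q, h with
    | 0, h => exact bnd_sound bdL60 (bx60 y h).1 (bx60 y h).2 (x1 hx) (x2 hx')
    | 1, h => exact bnd_sound bdL61 (bx61 y h).1 (bx61 y h).2 (x1 hx) (x2 hx')
    | 2, h => exact bnd_sound bdL62 (bx62 y h).1 (bx62 y h).2 (x1 hx) (x2 hx')
    | 3, h => exact bnd_sound bdL63 (bx63 y h).1 (bx63 y h).2 (x1 hx) (x2 hx')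
    | _ + 4, h => exact h.1.elim
  · match q, h with
    | 0, h => exact bnd_sound bdL70 (bx70 y h).1 (bx70 y h).2 (x1 hx) (x2 hx')
    | 1, h => exact bnd_sound bdL71 (bx71 y h).1 (bx71 y h).2 (x1 hx) (x2 hx')
    | 2, h => exact bnd_sound bdL72 (bx72 y h).1 (bx72 y h).2 (x1 hx) (x2 hx')
    | 3, h => exact bnd_sound bdL73 (bx73 y h).1 (bx73 y h).2 (x1 hx) (x2 hx')
    | _ + 4, h => exact h.1.elim
theorem viKF1003 {x : ℝ} (hx : 39 / 40 ≤ x) (hx' : x < 1) {y : ℝ} (hq : InQ 0 y) (h : y ≤ 1 / 16) :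
    tKF 1 0 y x * ((PP x).ρ 3 - (PP x).ρ 0) = tKF 0 0 y x * ((PP x).ρ 3 - (PP x).ρ 1) + tKF 3 0 y x * ((PP x).ρ 1 - (PP x).ρ 0) := by
  have hy0 := hq.nonneg
  have hy2 := hq.le_two
  have hq1 := hq.1
  have hq2 := hq.2
  show _ * (1 - 0) = _ * (1 - 1 / 5) + _ * (1 / 5 - 0)
  have e1 : tKF 1 0 y x = kf1q0.v y x := tbF_on (onc hq (by decide))
  have e0 : tKF 0 0 y x = kf0q0.v y x := tbF_on (⟨hq, fun _ => on_half (by linarith)⟩)
  have e3 : tKF 3 0 y x = kf3q0.v y x := tbF_on (onc hq (by decide))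
  rw [e1, e0, e3]
  simp only [kf1q0, kf1q0_11, jnK1q0, jnK1q0_10, cv1m, kf0q0, kf3q0, kf3q0_3, kf3q0_11, kf3q0_39, kf3q0_42, kf3q0_50, kf3q0_55, jnK3q0, jnK3q0_8, cv3m, c1g_v, swg_v, c3g_v]
  all_goals ((try push_cast); (try simp only [sub_self]); (repeat first | rw [if_pos (by linarith)] | rw [if_neg (by linarith)] | erw [if_pos (by linarith)] | erw [if_neg (by linarith)]); (try ring1))
theorem viKF1203 {x : ℝ} (hx : 39 / 40 ≤ x) (hx' : x < 1) {y : ℝ} (hq : InQ 2 y) (h : y ≤ 17 / 16) :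
    tKF 1 2 y x * ((PP x).ρ 3 - (PP x).ρ 0) = tKF 0 2 y x * ((PP x).ρ 3 - (PP x).ρ 1) + tKF 3 2 y x * ((PP x).ρ 1 - (PP x).ρ 0) := by
  have hy0 := hq.nonneg
  have hy2 := hq.le_two
  have hq1 := hq.1
  have hq2 := hq.2
  show _ * (1 - 0) = _ * (1 - 1 / 5) + _ * (1 / 5 - 0)
  have e1 : tKF 1 2 y x = kf1q2.v y x := tbF_on (onc hq (by decide))
  have on : h0 * y < 1 := by nlinarith [h0_sq, h0_pos]
  have e0 : tKF 0 2 y x = kfc02.v (c1n y) x := tbF_on ⟨hq, fun _ => on⟩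
  have ya := yag_v hy0 on
  have e3 : tKF 3 2 y x = kf3q2.v y x := tbF_on (onc hq (by decide))
  rw [e1, e0, e3]
  simp only [kf1q2, jnK1q2, jnK1q2_4, jnK1q2_10, jnK1q2_22, cv1p, kfc02, kfc02_9, kf0q2, kf0q2_9, kf3q2, kf3q2_3, kf3q2_33, kf3q2_38, kf3q2_50, kf3q2_57, jnK3q2, jnK3q2_9, cv3p, c1g_v, swg_v, c3g_v, ya]
  have hc : ¬ ((1 : ℝ) - 3 / 4 * y ^ 2 ≤ 0) := not_le.2 (by have := on_sq hy0 on; linarith)
  all_goals ((try push_cast); (try simp only [if_neg hc]); (repeat first | rw [if_pos (by linarith)] | rw [if_neg (by linarith)] | erw [if_pos (by linarith)] | erw [if_neg (by linarith)]); (try ring1))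
theorem viKF1303 {x : ℝ} (hx : 39 / 40 ≤ x) (hx' : x < 1) {y : ℝ} (hq : InQ 3 y) (h : 31 / 16 < y) :
    tKF 1 3 y x * ((PP x).ρ 3 - (PP x).ρ 0) = tKF 0 3 y x * ((PP x).ρ 3 - (PP x).ρ 1) + tKF 3 3 y x * ((PP x).ρ 1 - (PP x).ρ 0) := by
  have hy0 := hq.nonneg
  have hy2 := hq.le_two
  have hq1 := hq.1
  have hq2 := hq.2
  show _ * (1 - 0) = _ * (1 - 1 / 5) + _ * (1 / 5 - 0)
  have e1 : tKF 1 3 y x = kf1q3.v y x := tbF_on (onc hq (by decide))
  have e0 : tKF 0 3 y x = 0 := tbF_off (off_y hq.1)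
  have e3 : tKF 3 3 y x = kf3q3.v y x := tbF_on (onc hq (by decide))
  rw [e1, e0, e3]
  simp only [kf1q3, kf1q3_15, jnK1q3, cv1r, kf3q3, kf3q3_3, kf3q3_15, kf3q3_34, kf3q3_37, kf3q3_38, kf3q3_50, kf3q3_55, jnK3q3, cv3r, c1g_v, swg_v, c3g_v, c1n_off (off_y hq.1)]
  all_goals ((try push_cast); (try simp only [sub_self]); (repeat first | rw [if_pos (by linarith)] | rw [if_neg (by linarith)] | erw [if_pos (by linarith)] | erw [if_neg (by linarith)]); (try ring1))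
theorem viKF2003 {x : ℝ} (hx : 39 / 40 ≤ x) (hx' : x < 1) {y : ℝ} (hq : InQ 0 y) (h : y ≤ 1 / 16) :
    tKF 2 0 y x * ((PP x).ρ 3 - (PP x).ρ 0) = tKF 0 0 y x * ((PP x).ρ 3 - (PP x).ρ 2) + tKF 3 0 y x * ((PP x).ρ 2 - (PP x).ρ 0) := by
  have hy0 := hq.nonneg
  have hy2 := hq.le_two
  have hq1 := hq.1
  have hq2 := hq.2
  show _ * (1 - 0) = _ * (1 - 3 / 5) + _ * (3 / 5 - 0)
  have e2 : tKF 2 0 y x = kf2q0.v y x := tbF_on (onc hq (by decide))
  have e0 : tKF 0 0 y x = kf0q0.v y x := tbF_on (⟨hq, fun _ => on_half (by linarith)⟩)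
  have e3 : tKF 3 0 y x = kf3q0.v y x := tbF_on (onc hq (by decide))
  rw [e2, e0, e3]
  simp only [kf2q0, kf2q0_11, jnK2q0, jnK2q0_10, cv2m, kf0q0, kf3q0, kf3q0_3, kf3q0_11, kf3q0_39, kf3q0_42, kf3q0_50, kf3q0_55, jnK3q0, jnK3q0_8, cv3m, c1g_v, swg_v, c3g_v]
  all_goals ((try push_cast); (try simp only [sub_self]); (repeat first | rw [if_pos (by linarith)] | rw [if_neg (by linarith)] | erw [if_pos (by linarith)] | erw [if_neg (by linarith)]); (try ring1))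
theorem viKF2203 {x : ℝ} (hx : 39 / 40 ≤ x) (hx' : x < 1) {y : ℝ} (hq : InQ 2 y) (h : y ≤ 17 / 16) :
    tKF 2 2 y x * ((PP x).ρ 3 - (PP x).ρ 0) = tKF 0 2 y x * ((PP x).ρ 3 - (PP x).ρ 2) + tKF 3 2 y x * ((PP x).ρ 2 - (PP x).ρ 0) := by
  have hy0 := hq.nonneg
  have hy2 := hq.le_two
  have hq1 := hq.1
  have hq2 := hq.2
  show _ * (1 - 0) = _ * (1 - 3 / 5) + _ * (3 / 5 - 0)
  have e2 : tKF 2 2 y x = kf2q2.v y x := tbF_on (onc hq (by decide))
  have on : h0 * y < 1 := by nlinarith [h0_sq, h0_pos]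
  have e0 : tKF 0 2 y x = kfc02.v (c1n y) x := tbF_on ⟨hq, fun _ => on⟩
  have ya := yag_v hy0 on
  have e3 : tKF 3 2 y x = kf3q2.v y x := tbF_on (onc hq (by decide))
  rw [e2, e0, e3]
  simp only [kf2q2, jnK2q2, jnK2q2_4, jnK2q2_10, jnK2q2_22, cv2p, kfc02, kfc02_9, kf0q2, kf0q2_9, kf3q2, kf3q2_3, kf3q2_33, kf3q2_38, kf3q2_50, kf3q2_57, jnK3q2, jnK3q2_9, cv3p, c1g_v, swg_v, c3g_v, ya]
  have hc : ¬ ((1 : ℝ) - 3 / 4 * y ^ 2 ≤ 0) := not_le.2 (by have := on_sq hy0 on; linarith)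
  all_goals ((try push_cast); (try simp only [if_neg hc]); (repeat first | rw [if_pos (by linarith)] | rw [if_neg (by linarith)] | erw [if_pos (by linarith)] | erw [if_neg (by linarith)]); (try ring1))
theorem viKF2303 {x : ℝ} (hx : 39 / 40 ≤ x) (hx' : x < 1) {y : ℝ} (hq : InQ 3 y) (h : 31 / 16 < y) :
    tKF 2 3 y x * ((PP x).ρ 3 - (PP x).ρ 0) = tKF 0 3 y x * ((PP x).ρ 3 - (PP x).ρ 2) + tKF 3 3 y x * ((PP x).ρ 2 - (PP x).ρ 0) := by
  have hy0 := hq.nonneg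
  have hy2 := hq.le_two
  have hq1 := hq.1
  have hq2 := hq.2
  show _ * (1 - 0) = _ * (1 - 3 / 5) + _ * (3 / 5 - 0)
  have e2 : tKF 2 3 y x = kf2q3.v y x := tbF_on (onc hq (by decide))
  have e0 : tKF 0 3 y x = 0 := tbF_off (off_y hq.1)
  have e3 : tKF 3 3 y x = kf3q3.v y x := tbF_on (onc hq (by decide))
  rw [e2, e0, e3]
  simp only [kf2q3, kf2q3_15, jnK2q3, cv2r, kf3q3, kf3q3_3, kf3q3_15, kf3q3_34, kf3q3_37, kf3q3_38, kf3q3_50, kf3q3_55, jnK3q3, cv3r, c1g_v, swg_v, c3g_v, c1n_off (off_y hq.1)]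
  all_goals ((try push_cast); (try simp only [sub_self]); (repeat first | rw [if_pos (by linarith)] | rw [if_neg (by linarith)] | erw [if_pos (by linarith)] | erw [if_neg (by linarith)]); (try ring1))
theorem viKF4035 {x : ℝ} (hx : 39 / 40 ≤ x) (hx' : x < 1) {y : ℝ} (hq : InQ 0 y) (h : 1 / 16 < y) :
    tKF 4 0 y x * ((PP x).ρ 5 - (PP x).ρ 3) = tKF 3 0 y x * ((PP x).ρ 5 - (PP x).ρ 4) + tKF 5 0 y x * ((PP x).ρ 4 - (PP x).ρ 3) := by
  have hy0 := hq.nonneg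
  have hy2 := hq.le_two
  have hq1 := hq.1
  have hq2 := hq.2
  show _ * (23 / 20 - 1) = _ * (23 / 20 - r4 x) + _ * (r4 x - 1)
  have e4 : tKF 4 0 y x = kf4q0.v y x := tbF_on (onc hq (by decide))
  have e3 : tKF 3 0 y x = kf3q0.v y x := tbF_on (onc hq (by decide))
  have e5 : tKF 5 0 y x = kf5q0.v y x := tbF_on (onc hq (by decide))
  rw [e4, e3, e5]
  simp only [kf4q0, kf3q0, kf3q0_3, kf3q0_11, kf3q0_39, kf3q0_42, kf3q0_50, kf3q0_55, jnK3q0, jnK3q0_8, cv3m, kf5q0, kf5q0_11, kf5q0_39, jnK5q0, jnK5q0_8, cv5m, c1g_v, swg_v, c3g_v]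
  rw [r4_eq hx hx']
  all_goals ((try push_cast); (try simp only [sub_self]); (repeat first | rw [if_pos (by linarith)] | rw [if_neg (by linarith)] | erw [if_pos (by linarith)] | erw [if_neg (by linarith)]); (try ring1))
theorem viKF4135 {x : ℝ} (hx : 39 / 40 ≤ x) (hx' : x < 1) {y : ℝ} (hq : InQ 1 y) (h : y ≤ 15 / 16) :
    tKF 4 1 y x * ((PP x).ρ 5 - (PP x).ρ 3) = tKF 3 1 y x * ((PP x).ρ 5 - (PP x).ρ 4) + tKF 5 1 y x * ((PP x).ρ 4 - (PP x).ρ 3) := by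
  have hy0 := hq.nonneg
  have hy2 := hq.le_two
  have hq1 := hq.1
  have hq2 := hq.2
  show _ * (23 / 20 - 1) = _ * (23 / 20 - r4 x) + _ * (r4 x - 1)
  have e4 : tKF 4 1 y x = kf4q1.v y x := tbF_on (onc hq (by decide))
  have e3 : tKF 3 1 y x = kf3q1.v y x := tbF_on (onc hq (by decide))
  have e5 : tKF 5 1 y x = kf5q1.v y x := tbF_on (onc hq (by decide))
  rw [e4, e3, e5]
  simp only [kf4q1, kf4q1_3, kf3q1, kf3q1_3, kf3q1_15, kf3q1_30, kf3q1_36, kf3q1_44, kf3q1_50, jnK3q1, jnK3q1_8, cv3m, kf5q1, kf5q1_15, jnK5q1, jnK5q1_5, jnK5q1_8, jnK5q1_19, cv5m, c1g_v, swg_v, c3g_v]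
  rw [r4_eq hx hx']
  all_goals ((try push_cast); (try simp only [sub_self]); (repeat first | rw [if_pos (by linarith)] | rw [if_neg (by linarith)] | erw [if_pos (by linarith)] | erw [if_neg (by linarith)]); (try ring1))
theorem viKF4137 {x : ℝ} (hx : 39 / 40 ≤ x) (hx' : x < 1) {y : ℝ} (hq : InQ 1 y) (h : 15 / 16 < y) :
    tKF 4 1 y x * ((PP x).ρ 7 - (PP x).ρ 3) = tKF 3 1 y x * ((PP x).ρ 7 - (PP x).ρ 4) + tKF 7 1 y x * ((PP x).ρ 4 - (PP x).ρ 3) := by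
  have hy0 := hq.nonneg
  have hy2 := hq.le_two
  have hq1 := hq.1
  have hq2 := hq.2
  show _ * (2 - 1) = _ * (2 - r4 x) + _ * (r4 x - 1)
  have e4 : tKF 4 1 y x = kf4q1.v y x := tbF_on (onc hq (by decide))
  have e3 : tKF 3 1 y x = kf3q1.v y x := tbF_on (onc hq (by decide))
  have e7 : tKF 7 1 y x = kf7q1.v y x := tbF_on (onc hq (by decide))
  rw [e4, e3, e7]
  simp only [kf4q1, kf4q1_3, kf3q1, kf3q1_3, kf3q1_15, kf3q1_30, kf3q1_36, kf3q1_44, kf3q1_50, jnK3q1, jnK3q1_8, cv3m, kf7q1, kf7q1_10, c1g_v, swg_v, c3g_v]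
  rw [r4_eq hx hx']
  all_goals ((try push_cast); (try simp only [sub_self]); (repeat first | rw [if_pos (by linarith)] | rw [if_neg (by linarith)] | erw [if_pos (by linarith)] | erw [if_neg (by linarith)]); (try ring1))
theorem viKF4235 {x : ℝ} (hx : 39 / 40 ≤ x) (hx' : x < 1) {y : ℝ} (hq : InQ 2 y)  :
    tKF 4 2 y x * ((PP x).ρ 5 - (PP x).ρ 3) = tKF 3 2 y x * ((PP x).ρ 5 - (PP x).ρ 4) + tKF 5 2 y x * ((PP x).ρ 4 - (PP x).ρ 3) := by
  have hy0 := hq.nonneg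
  have hy2 := hq.le_two
  have hq1 := hq.1
  have hq2 := hq.2
  show _ * (23 / 20 - 1) = _ * (23 / 20 - r4 x) + _ * (r4 x - 1)
  have e4 : tKF 4 2 y x = kf4q2.v y x := tbF_on (onc hq (by decide))
  have e3 : tKF 3 2 y x = kf3q2.v y x := tbF_on (onc hq (by decide))
  have e5 : tKF 5 2 y x = kf5q2.v y x := tbF_on (onc hq (by decide))
  rw [e4, e3, e5]
  simp only [kf4q2, kf3q2, kf3q2_3, kf3q2_33, kf3q2_38, kf3q2_50, kf3q2_57, jnK3q2, jnK3q2_9, cv3p, kf5q2, kf5q2_8, cv5p, c1g_v, swg_v, c3g_v]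
  rw [r4_eq hx hx']
  all_goals ((try push_cast); (try simp only [sub_self]); (repeat first | rw [if_pos (by linarith)] | rw [if_neg (by linarith)] | erw [if_pos (by linarith)] | erw [if_neg (by linarith)]); (try ring1))
theorem viKF4335 {x : ℝ} (hx : 39 / 40 ≤ x) (hx' : x < 1) {y : ℝ} (hq : InQ 3 y)  :
    tKF 4 3 y x * ((PP x).ρ 5 - (PP x).ρ 3) = tKF 3 3 y x * ((PP x).ρ 5 - (PP x).ρ 4) + tKF 5 3 y x * ((PP x).ρ 4 - (PP x).ρ 3) := by
  have hy0 := hq.nonneg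
  have hy2 := hq.le_two
  have hq1 := hq.1
  have hq2 := hq.2
  show _ * (23 / 20 - 1) = _ * (23 / 20 - r4 x) + _ * (r4 x - 1)
  have e4 : tKF 4 3 y x = kfc43.v (c3n y) x := tbF_on (onc hq (by decide))
  have e3 : tKF 3 3 y x = kf3q3.v y x := tbF_on (onc hq (by decide))
  have e5 : tKF 5 3 y x = kfc53.v (c3n y) x := tbF_on (onc hq (by decide))
  have yc := ycg_v hy0 hy2
  rw [e4, e3, e5]
  simp only [kfc43, kfc43_9, kfc43_21, jnK5q3, jnK5q3_4, kf3q3, kf3q3_3, kf3q3_15, kf3q3_34, kf3q3_37, kf3q3_38, kf3q3_50, kf3q3_55, jnK3q3, cv3r, kfc53, kfc53_16, c1g_v, swg_v, c3g_v, yc, c1n_off (off_y hq.1)]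
  rw [r4_eq hx hx']
  all_goals ((try push_cast); (try simp only [sub_self]); (repeat first | rw [if_pos (by linarith)] | rw [if_neg (by linarith)] | erw [if_pos (by linarith)] | erw [if_neg (by linarith)]); (try ring1))
theorem viKF5137 {x : ℝ} (hx : 39 / 40 ≤ x) (hx' : x < 1) {y : ℝ} (hq : InQ 1 y) (h : 15 / 16 < y) :
    tKF 5 1 y x * ((PP x).ρ 7 - (PP x).ρ 3) = tKF 3 1 y x * ((PP x).ρ 7 - (PP x).ρ 5) + tKF 7 1 y x * ((PP x).ρ 5 - (PP x).ρ 3) := by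
  have hy0 := hq.nonneg
  have hy2 := hq.le_two
  have hq1 := hq.1
  have hq2 := hq.2
  show _ * (2 - 1) = _ * (2 - 23 / 20) + _ * (23 / 20 - 1)
  have e5 : tKF 5 1 y x = kf5q1.v y x := tbF_on (onc hq (by decide))
  have e3 : tKF 3 1 y x = kf3q1.v y x := tbF_on (onc hq (by decide))
  have e7 : tKF 7 1 y x = kf7q1.v y x := tbF_on (onc hq (by decide))
  rw [e5, e3, e7]
  simp only [kf5q1, kf5q1_15, jnK5q1, jnK5q1_5, jnK5q1_8, jnK5q1_19, cv5m, kf3q1, kf3q1_3, kf3q1_15, kf3q1_30, kf3q1_36, kf3q1_44, kf3q1_50, jnK3q1, jnK3q1_8, cv3m, kf7q1, kf7q1_10, c1g_v, swg_v, c3g_v]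
  all_goals ((try push_cast); (try simp only [sub_self]); (repeat first | rw [if_pos (by linarith)] | rw [if_neg (by linarith)] | erw [if_pos (by linarith)] | erw [if_neg (by linarith)]); (try ring1))
theorem viKF6137 {x : ℝ} (hx : 39 / 40 ≤ x) (hx' : x < 1) {y : ℝ} (hq : InQ 1 y) (h : 15 / 16 < y) :
    tKF 6 1 y x * ((PP x).ρ 7 - (PP x).ρ 3) = tKF 3 1 y x * ((PP x).ρ 7 - (PP x).ρ 6) + tKF 7 1 y x * ((PP x).ρ 6 - (PP x).ρ 3) := by
  have hy0 := hq.nonneg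
  have hy2 := hq.le_two
  have hq1 := hq.1
  have hq2 := hq.2
  show _ * (2 - 1) = _ * (2 - 8 / 5) + _ * (8 / 5 - 1)
  have e6 : tKF 6 1 y x = kf6q1.v y x := tbF_on (onc hq (by decide))
  have e3 : tKF 3 1 y x = kf3q1.v y x := tbF_on (onc hq (by decide))
  have e7 : tKF 7 1 y x = kf7q1.v y x := tbF_on (onc hq (by decide))
  rw [e6, e3, e7]
  simp only [kf6q1, kf6q1_15, jnK6q1, jnK6q1_5, jnK6q1_8, jnK6q1_19, cv6m, kf3q1, kf3q1_3, kf3q1_15, kf3q1_30, kf3q1_36, kf3q1_44, kf3q1_50, jnK3q1, jnK3q1_8, cv3m, kf7q1, kf7q1_10, c1g_v, swg_v, c3g_v]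
  all_goals ((try push_cast); (try simp only [sub_self]); (repeat first | rw [if_pos (by linarith)] | rw [if_neg (by linarith)] | erw [if_pos (by linarith)] | erw [if_neg (by linarith)]); (try ring1))
theorem viKN1003 {x : ℝ} (hx : 39 / 40 ≤ x) (hx' : x < 1) {y : ℝ} (hq : InQ 0 y) (h : y ≤ 1 / 16) :
    tKN 1 0 y x * ((PP x).ρ 3 - (PP x).ρ 0) = tKN 0 0 y x * ((PP x).ρ 3 - (PP x).ρ 1) + tKN 3 0 y x * ((PP x).ρ 1 - (PP x).ρ 0) := by
  have hy0 := hq.nonneg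
  have hy2 := hq.le_two
  have hq1 := hq.1
  have hq2 := hq.2
  show _ * (1 - 0) = _ * (1 - 1 / 5) + _ * (1 / 5 - 0)
  have e1 : tKN 1 0 y x = kn1q0.v y x := tbF_on (onc hq (by decide))
  have e0 : tKN 0 0 y x = kn0q0.v y x := tbF_on (⟨hq, fun _ => on_half (by linarith)⟩)
  have e3 : tKN 3 0 y x = kn3q0.v y x := tbF_on (onc hq (by decide))
  rw [e1, e0, e3]
  simp only [kn1q0, kf1q0, kf1q0_11, jnK1q0, jnK1q0_10, cv1m, kb1q0, kb1q0_11, jnB1q0, jnB1q0_11, kn0q0, kn3q0, c1g_v, swg_v, c3g_v]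
  all_goals ((try push_cast); (try simp only [sub_self]); (repeat first | rw [if_pos (by linarith)] | rw [if_neg (by linarith)] | erw [if_pos (by linarith)] | erw [if_neg (by linarith)]); (try ring1))
theorem viKN1203 {x : ℝ} (hx : 39 / 40 ≤ x) (hx' : x < 1) {y : ℝ} (hq : InQ 2 y) (h : y ≤ 17 / 16) :
    tKN 1 2 y x * ((PP x).ρ 3 - (PP x).ρ 0) = tKN 0 2 y x * ((PP x).ρ 3 - (PP x).ρ 1) + tKN 3 2 y x * ((PP x).ρ 1 - (PP x).ρ 0) := by
  have hy0 := hq.nonneg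
  have hy2 := hq.le_two
  have hq1 := hq.1
  have hq2 := hq.2
  show _ * (1 - 0) = _ * (1 - 1 / 5) + _ * (1 / 5 - 0)
  have e1 : tKN 1 2 y x = kn1q2.v y x := tbF_on (onc hq (by decide))
  have on : h0 * y < 1 := by nlinarith [h0_sq, h0_pos]
  have e0 : tKN 0 2 y x = knc02.v (c1n y) x := tbF_on ⟨hq, fun _ => on⟩
  have ya := yag_v hy0 on
  have e3 : tKN 3 2 y x = kn3q2.v y x := tbF_on (onc hq (by decide))
  rw [e1, e0, e3]
  simp only [kn1q2, kf1q2, jnK1q2, jnK1q2_4, jnK1q2_10, jnK1q2_22, cv1p, kb1q2, jnB1q2, jnB1q2_4, jnB1q2_10, jnB1q2_23, knc02, kfc02, kfc02_9, kbc02, kbc02_9, kf0q2, kf0q2_9, kb0q2, kb0q2_9, kn3q2, c1g_v, swg_v, c3g_v, ya]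
  have hc : ¬ ((1 : ℝ) - 3 / 4 * y ^ 2 ≤ 0) := not_le.2 (by have := on_sq hy0 on; linarith)
  all_goals ((try push_cast); (try simp only [if_neg hc]); (repeat first | rw [if_pos (by linarith)] | rw [if_neg (by linarith)] | erw [if_pos (by linarith)] | erw [if_neg (by linarith)]); (try ring1))
theorem viKN1303 {x : ℝ} (hx : 39 / 40 ≤ x) (hx' : x < 1) {y : ℝ} (hq : InQ 3 y) (h : 31 / 16 < y) :
    tKN 1 3 y x * ((PP x).ρ 3 - (PP x).ρ 0) = tKN 0 3 y x * ((PP x).ρ 3 - (PP x).ρ 1) + tKN 3 3 y x * ((PP x).ρ 1 - (PP x).ρ 0) := by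
  have hy0 := hq.nonneg
  have hy2 := hq.le_two
  have hq1 := hq.1
  have hq2 := hq.2
  show _ * (1 - 0) = _ * (1 - 1 / 5) + _ * (1 / 5 - 0)
  have e1 : tKN 1 3 y x = kn1q3.v y x := tbF_on (onc hq (by decide))
  have e0 : tKN 0 3 y x = 0 := tbF_off (off_y hq.1)
  have e3 : tKN 3 3 y x = kn3q3.v y x := tbF_on (onc hq (by decide))
  rw [e1, e0, e3]
  simp only [kn1q3, kf1q3, kf1q3_15, jnK1q3, cv1r, kb1q3, kb1q3_15, jnB1q3, kn3q3, c1g_v, swg_v, c3g_v, c1n_off (off_y hq.1)]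
  all_goals ((try push_cast); (try simp only [sub_self]); (repeat first | rw [if_pos (by linarith)] | rw [if_neg (by linarith)] | erw [if_pos (by linarith)] | erw [if_neg (by linarith)]); (try ring1))
theorem viKN2003 {x : ℝ} (hx : 39 / 40 ≤ x) (hx' : x < 1) {y : ℝ} (hq : InQ 0 y) (h : y ≤ 1 / 16) :
    tKN 2 0 y x * ((PP x).ρ 3 - (PP x).ρ 0) = tKN 0 0 y x * ((PP x).ρ 3 - (PP x).ρ 2) + tKN 3 0 y x * ((PP x).ρ 2 - (PP x).ρ 0) := by
  have hy0 := hq.nonneg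
  have hy2 := hq.le_two
  have hq1 := hq.1
  have hq2 := hq.2
  show _ * (1 - 0) = _ * (1 - 3 / 5) + _ * (3 / 5 - 0)
  have e2 : tKN 2 0 y x = kn2q0.v y x := tbF_on (onc hq (by decide))
  have e0 : tKN 0 0 y x = kn0q0.v y x := tbF_on (⟨hq, fun _ => on_half (by linarith)⟩)
  have e3 : tKN 3 0 y x = kn3q0.v y x := tbF_on (onc hq (by decide))
  rw [e2, e0, e3]
  simp only [kn2q0, kf2q0, kf2q0_11, jnK2q0, jnK2q0_10, cv2m, kb2q0, kb2q0_12, jnB2q0, jnB2q0_11, kn0q0, kn3q0, c1g_v, swg_v, c3g_v]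
  all_goals ((try push_cast); (try simp only [sub_self]); (repeat first | rw [if_pos (by linarith)] | rw [if_neg (by linarith)] | erw [if_pos (by linarith)] | erw [if_neg (by linarith)]); (try ring1))
theorem viKN2203 {x : ℝ} (hx : 39 / 40 ≤ x) (hx' : x < 1) {y : ℝ} (hq : InQ 2 y) (h : y ≤ 17 / 16) :
    tKN 2 2 y x * ((PP x).ρ 3 - (PP x).ρ 0) = tKN 0 2 y x * ((PP x).ρ 3 - (PP x).ρ 2) + tKN 3 2 y x * ((PP x).ρ 2 - (PP x).ρ 0) := by
  have hy0 := hq.nonneg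
  have hy2 := hq.le_two
  have hq1 := hq.1
  have hq2 := hq.2
  show _ * (1 - 0) = _ * (1 - 3 / 5) + _ * (3 / 5 - 0)
  have e2 : tKN 2 2 y x = kn2q2.v y x := tbF_on (onc hq (by decide))
  have on : h0 * y < 1 := by nlinarith [h0_sq, h0_pos]
  have e0 : tKN 0 2 y x = knc02.v (c1n y) x := tbF_on ⟨hq, fun _ => on⟩
  have ya := yag_v hy0 on
  have e3 : tKN 3 2 y x = kn3q2.v y x := tbF_on (onc hq (by decide))
  rw [e2, e0, e3]
  simp only [kn2q2, kf2q2, jnK2q2, jnK2q2_4, jnK2q2_10, jnK2q2_22, cv2p, kb2q2, jnB2q2, jnB2q2_4, jnB2q2_10, jnB2q2_23, knc02, kfc02, kfc02_9, kbc02, kbc02_9, kf0q2, kf0q2_9, kb0q2, kb0q2_9, kn3q2, c1g_v, swg_v, c3g_v, ya]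
  have hc : ¬ ((1 : ℝ) - 3 / 4 * y ^ 2 ≤ 0) := not_le.2 (by have := on_sq hy0 on; linarith)
  all_goals ((try push_cast); (try simp only [if_neg hc]); (repeat first | rw [if_pos (by linarith)] | rw [if_neg (by linarith)] | erw [if_pos (by linarith)] | erw [if_neg (by linarith)]); (try ring1))
theorem viKN2303 {x : ℝ} (hx : 39 / 40 ≤ x) (hx' : x < 1) {y : ℝ} (hq : InQ 3 y) (h : 31 / 16 < y) :
    tKN 2 3 y x * ((PP x).ρ 3 - (PP x).ρ 0) = tKN 0 3 y x * ((PP x).ρ 3 - (PP x).ρ 2) + tKN 3 3 y x * ((PP x).ρ 2 - (PP x).ρ 0) := by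
  have hy0 := hq.nonneg
  have hy2 := hq.le_two
  have hq1 := hq.1
  have hq2 := hq.2
  show _ * (1 - 0) = _ * (1 - 3 / 5) + _ * (3 / 5 - 0)
  have e2 : tKN 2 3 y x = kn2q3.v y x := tbF_on (onc hq (by decide))
  have e0 : tKN 0 3 y x = 0 := tbF_off (off_y hq.1)
  have e3 : tKN 3 3 y x = kn3q3.v y x := tbF_on (onc hq (by decide))
  rw [e2, e0, e3]
  simp only [kn2q3, kf2q3, kf2q3_15, jnK2q3, cv2r, kb2q3, kb2q3_15, jnB2q3, kn3q3, c1g_v, swg_v, c3g_v, c1n_off (off_y hq.1)]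
  all_goals ((try push_cast); (try simp only [sub_self]); (repeat first | rw [if_pos (by linarith)] | rw [if_neg (by linarith)] | erw [if_pos (by linarith)] | erw [if_neg (by linarith)]); (try ring1))
theorem viKN4035 {x : ℝ} (hx : 39 / 40 ≤ x) (hx' : x < 1) {y : ℝ} (hq : InQ 0 y) (h : 1 / 16 < y) :
    tKN 4 0 y x * ((PP x).ρ 5 - (PP x).ρ 3) = tKN 3 0 y x * ((PP x).ρ 5 - (PP x).ρ 4) + tKN 5 0 y x * ((PP x).ρ 4 - (PP x).ρ 3) := by
  have hy0 := hq.nonneg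
  have hy2 := hq.le_two
  have hq1 := hq.1
  have hq2 := hq.2
  show _ * (23 / 20 - 1) = _ * (23 / 20 - r4 x) + _ * (r4 x - 1)
  have e4 : tKN 4 0 y x = kn4q0.v y x := tbF_on (onc hq (by decide))
  have e3 : tKN 3 0 y x = kn3q0.v y x := tbF_on (onc hq (by decide))
  have e5 : tKN 5 0 y x = kn5q0.v y x := tbF_on (onc hq (by decide))
  rw [e4, e3, e5]
  simp only [kn4q0, kf4q0, kb4q0, kn3q0, kn5q0, c1g_v, swg_v, c3g_v]
  rw [r4_eq hx hx']
  all_goals ((try push_cast); (try simp only [sub_self]); (repeat first | rw [if_pos (by linarith)] | rw [if_neg (by linarith)] | erw [if_pos (by linarith)] | erw [if_neg (by linarith)]); (try ring1))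
theorem viKN4135 {x : ℝ} (hx : 39 / 40 ≤ x) (hx' : x < 1) {y : ℝ} (hq : InQ 1 y) (h : y ≤ 15 / 16) :
    tKN 4 1 y x * ((PP x).ρ 5 - (PP x).ρ 3) = tKN 3 1 y x * ((PP x).ρ 5 - (PP x).ρ 4) + tKN 5 1 y x * ((PP x).ρ 4 - (PP x).ρ 3) := by
  have hy0 := hq.nonneg
  have hy2 := hq.le_two
  have hq1 := hq.1
  have hq2 := hq.2
  show _ * (23 / 20 - 1) = _ * (23 / 20 - r4 x) + _ * (r4 x - 1)
  have e4 : tKN 4 1 y x = kn4q1.v y x := tbF_on (onc hq (by decide))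
  have e3 : tKN 3 1 y x = kn3q1.v y x := tbF_on (onc hq (by decide))
  have e5 : tKN 5 1 y x = kn5q1.v y x := tbF_on (onc hq (by decide))
  rw [e4, e3, e5]
  simp only [kn4q1, kf4q1, kf4q1_3, kb4q1, kb4q1_3, kn3q1, kn5q1, c1g_v, swg_v, c3g_v]
  rw [r4_eq hx hx']
  all_goals ((try push_cast); (try simp only [sub_self]); (repeat first | rw [if_pos (by linarith)] | rw [if_neg (by linarith)] | erw [if_pos (by linarith)] | erw [if_neg (by linarith)]); (try ring1))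
theorem viKN4137 {x : ℝ} (hx : 39 / 40 ≤ x) (hx' : x < 1) {y : ℝ} (hq : InQ 1 y) (h : 15 / 16 < y) :
    tKN 4 1 y x * ((PP x).ρ 7 - (PP x).ρ 3) = tKN 3 1 y x * ((PP x).ρ 7 - (PP x).ρ 4) + tKN 7 1 y x * ((PP x).ρ 4 - (PP x).ρ 3) := by
  have hy0 := hq.nonneg
  have hy2 := hq.le_two
  have hq1 := hq.1
  have hq2 := hq.2
  show _ * (2 - 1) = _ * (2 - r4 x) + _ * (r4 x - 1)
  have e4 : tKN 4 1 y x = kn4q1.v y x := tbF_on (onc hq (by decide))
  have e3 : tKN 3 1 y x = kn3q1.v y x := tbF_on (onc hq (by decide))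
  have e7 : tKN 7 1 y x = kn7q1.v y x := tbF_on (onc hq (by decide))
  rw [e4, e3, e7]
  simp only [kn4q1, kf4q1, kf4q1_3, kb4q1, kb4q1_3, kn3q1, kn7q1, c1g_v, swg_v, c3g_v]
  rw [r4_eq hx hx']
  all_goals ((try push_cast); (try simp only [sub_self]); (repeat first | rw [if_pos (by linarith)] | rw [if_neg (by linarith)] | erw [if_pos (by linarith)] | erw [if_neg (by linarith)]); (try ring1))
theorem viKN4235 {x : ℝ} (hx : 39 / 40 ≤ x) (hx' : x < 1) {y : ℝ} (hq : InQ 2 y)  :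
    tKN 4 2 y x * ((PP x).ρ 5 - (PP x).ρ 3) = tKN 3 2 y x * ((PP x).ρ 5 - (PP x).ρ 4) + tKN 5 2 y x * ((PP x).ρ 4 - (PP x).ρ 3) := by
  have hy0 := hq.nonneg
  have hy2 := hq.le_two
  have hq1 := hq.1
  have hq2 := hq.2
  show _ * (23 / 20 - 1) = _ * (23 / 20 - r4 x) + _ * (r4 x - 1)
  have e4 : tKN 4 2 y x = kn4q2.v y x := tbF_on (onc hq (by decide))
  have e3 : tKN 3 2 y x = kn3q2.v y x := tbF_on (onc hq (by decide))
  have e5 : tKN 5 2 y x = kn5q2.v y x := tbF_on (onc hq (by decide))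
  rw [e4, e3, e5]
  simp only [kn4q2, kf4q2, kb4q2, kn3q2, kn5q2, c1g_v, swg_v, c3g_v]
  rw [r4_eq hx hx']
  all_goals ((try push_cast); (try simp only [sub_self]); (repeat first | rw [if_pos (by linarith)] | rw [if_neg (by linarith)] | erw [if_pos (by linarith)] | erw [if_neg (by linarith)]); (try ring1))
theorem viKN4335 {x : ℝ} (hx : 39 / 40 ≤ x) (hx' : x < 1) {y : ℝ} (hq : InQ 3 y)  :
    tKN 4 3 y x * ((PP x).ρ 5 - (PP x).ρ 3) = tKN 3 3 y x * ((PP x).ρ 5 - (PP x).ρ 4) + tKN 5 3 y x * ((PP x).ρ 4 - (PP x).ρ 3) := by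
  have hy0 := hq.nonneg
  have hy2 := hq.le_two
  have hq1 := hq.1
  have hq2 := hq.2
  show _ * (23 / 20 - 1) = _ * (23 / 20 - r4 x) + _ * (r4 x - 1)
  have e4 : tKN 4 3 y x = knc43.v (c3n y) x := tbF_on (onc hq (by decide))
  have e3 : tKN 3 3 y x = kn3q3.v y x := tbF_on (onc hq (by decide))
  have e5 : tKN 5 3 y x = knc53.v (c3n y) x := tbF_on (onc hq (by decide))
  have yc := ycg_v hy0 hy2
  rw [e4, e3, e5]
  simp only [knc43, kfc43, kfc43_9, kfc43_21, jnK5q3, jnK5q3_4, kbc43, kbc43_10, kbc43_22, jnB5q3, jnB5q3_4, kn3q3, knc53, kfc53, kfc53_16, kbc53, kbc53_16, c1g_v, swg_v, c3g_v, yc, c1n_off (off_y hq.1)]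
  rw [r4_eq hx hx']
  all_goals ((try push_cast); (try simp only [sub_self]); (repeat first | rw [if_pos (by linarith)] | rw [if_neg (by linarith)] | erw [if_pos (by linarith)] | erw [if_neg (by linarith)]); (try ring1))
theorem viKN5137 {x : ℝ} (hx : 39 / 40 ≤ x) (hx' : x < 1) {y : ℝ} (hq : InQ 1 y) (h : 15 / 16 < y) :
    tKN 5 1 y x * ((PP x).ρ 7 - (PP x).ρ 3) = tKN 3 1 y x * ((PP x).ρ 7 - (PP x).ρ 5) + tKN 7 1 y x * ((PP x).ρ 5 - (PP x).ρ 3) := by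
  have hy0 := hq.nonneg
  have hy2 := hq.le_two
  have hq1 := hq.1
  have hq2 := hq.2
  show _ * (2 - 1) = _ * (2 - 23 / 20) + _ * (23 / 20 - 1)
  have e5 : tKN 5 1 y x = kn5q1.v y x := tbF_on (onc hq (by decide))
  have e3 : tKN 3 1 y x = kn3q1.v y x := tbF_on (onc hq (by decide))
  have e7 : tKN 7 1 y x = kn7q1.v y x := tbF_on (onc hq (by decide))
  rw [e5, e3, e7]
  simp only [kn5q1, kf5q1, kf5q1_15, jnK5q1, jnK5q1_5, jnK5q1_8, jnK5q1_19, cv5m, kb5q1, kb5q1_15, jnB5q1, jnB5q1_5, jnB5q1_9, jnB5q1_19, kn3q1, kn7q1, c1g_v, swg_v, c3g_v]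
  all_goals ((try push_cast); (try simp only [sub_self]); (repeat first | rw [if_pos (by linarith)] | rw [if_neg (by linarith)] | erw [if_pos (by linarith)] | erw [if_neg (by linarith)]); (try ring1))
theorem viKN6137 {x : ℝ} (hx : 39 / 40 ≤ x) (hx' : x < 1) {y : ℝ} (hq : InQ 1 y) (h : 15 / 16 < y) :
    tKN 6 1 y x * ((PP x).ρ 7 - (PP x).ρ 3) = tKN 3 1 y x * ((PP x).ρ 7 - (PP x).ρ 6) + tKN 7 1 y x * ((PP x).ρ 6 - (PP x).ρ 3) := by
  have hy0 := hq.nonneg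
  have hy2 := hq.le_two
  have hq1 := hq.1
  have hq2 := hq.2
  show _ * (2 - 1) = _ * (2 - 8 / 5) + _ * (8 / 5 - 1)
  have e6 : tKN 6 1 y x = kn6q1.v y x := tbF_on (onc hq (by decide))
  have e3 : tKN 3 1 y x = kn3q1.v y x := tbF_on (onc hq (by decide))
  have e7 : tKN 7 1 y x = kn7q1.v y x := tbF_on (onc hq (by decide))
  rw [e6, e3, e7]
  simp only [kn6q1, kf6q1, kf6q1_15, jnK6q1, jnK6q1_5, jnK6q1_8, jnK6q1_19, cv6m, kb6q1, kb6q1_15, jnB6q1, jnB6q1_5, jnB6q1_9, jnB6q1_19, kn3q1, kn7q1, c1g_v, swg_v, c3g_v]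
  all_goals ((try push_cast); (try simp only [sub_self]); (repeat first | rw [if_pos (by linarith)] | rw [if_neg (by linarith)] | erw [if_pos (by linarith)] | erw [if_neg (by linarith)]); (try ring1))
theorem viL1003 {x : ℝ} (hx : 39 / 40 ≤ x) (hx' : x < 1) {y : ℝ} (hq : InQ 0 y) (h : y ≤ 1 / 16) :
    tL 1 0 y x * ((PP x).ρ 3 - (PP x).ρ 0) = tL 0 0 y x * ((PP x).ρ 3 - (PP x).ρ 1) + tL 3 0 y x * ((PP x).ρ 1 - (PP x).ρ 0) := by
  have hy0 := hq.nonneg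
  have hy2 := hq.le_two
  have hq1 := hq.1
  have hq2 := hq.2
  show _ * (1 - 0) = _ * (1 - 1 / 5) + _ * (1 / 5 - 0)
  have e1 : tL 1 0 y x = l1q0.v y x := tbF_on (onc hq (by decide))
  have e0 : tL 0 0 y x = l0q0.v y x := tbF_on (⟨hq, fun _ => on_half (by linarith)⟩)
  have e3 : tL 3 0 y x = l3q0.v y x := tbF_on (onc hq (by decide))
  rw [e1, e0, e3]
  simp only [l1q0, cv1m, xt1q0, xt1q0_3, xt1q0_15, jnX1q0, l0q0, l3q0, cv3m, c1g_v, swg_v, c3g_v]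
  all_goals ((try push_cast); (try simp only [sub_self]); (repeat first | rw [if_pos (by linarith)] | rw [if_neg (by linarith)] | erw [if_pos (by linarith)] | erw [if_neg (by linarith)]); (try ring1))
theorem viL1203 {x : ℝ} (hx : 39 / 40 ≤ x) (hx' : x < 1) {y : ℝ} (hq : InQ 2 y) (h : y ≤ 17 / 16) :
    tL 1 2 y x * ((PP x).ρ 3 - (PP x).ρ 0) = tL 0 2 y x * ((PP x).ρ 3 - (PP x).ρ 1) + tL 3 2 y x * ((PP x).ρ 1 - (PP x).ρ 0) := by
  have hy0 := hq.nonneg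
  have hy2 := hq.le_two
  have hq1 := hq.1
  have hq2 := hq.2
  show _ * (1 - 0) = _ * (1 - 1 / 5) + _ * (1 / 5 - 0)
  have e1 : tL 1 2 y x = l1q2.v y x := tbF_on (onc hq (by decide))
  have on : h0 * y < 1 := by nlinarith [h0_sq, h0_pos]
  have e0 : tL 0 2 y x = lc02.v (c1n y) x := tbF_on ⟨hq, fun _ => on⟩
  have ya := yag_v hy0 on
  have e3 : tL 3 2 y x = l3q2.v y x := tbF_on (onc hq (by decide))
  rw [e1, e0, e3]
  simp only [l1q2, cv1p, xt1q2, xt1q2_3, xt1q2_5, xt1q2_7, xt1q2_13, jnX1q2, jnX1q2_4, jnX1q2_7, lc02, lc02_7, xt0q2, xt0q2_6, l3q2, cv3p, c1g_v, swg_v, c3g_v, ya]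
  have hc : ¬ ((1 : ℝ) - 3 / 4 * y ^ 2 ≤ 0) := not_le.2 (by have := on_sq hy0 on; linarith)
  all_goals ((try push_cast); (try simp only [if_neg hc]); (repeat first | rw [if_pos (by linarith)] | rw [if_neg (by linarith)] | erw [if_pos (by linarith)] | erw [if_neg (by linarith)]); (try ring1))
theorem viL1303 {x : ℝ} (hx : 39 / 40 ≤ x) (hx' : x < 1) {y : ℝ} (hq : InQ 3 y) (h : 31 / 16 < y) :
    tL 1 3 y x * ((PP x).ρ 3 - (PP x).ρ 0) = tL 0 3 y x * ((PP x).ρ 3 - (PP x).ρ 1) + tL 3 3 y x * ((PP x).ρ 1 - (PP x).ρ 0) := by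
  have hy0 := hq.nonneg
  have hy2 := hq.le_two
  have hq1 := hq.1
  have hq2 := hq.2
  show _ * (1 - 0) = _ * (1 - 1 / 5) + _ * (1 / 5 - 0)
  have e1 : tL 1 3 y x = l1q3.v y x := tbF_on (onc hq (by decide))
  have e0 : tL 0 3 y x = 0 := tbF_off (off_y hq.1)
  have e3 : tL 3 3 y x = l3q3.v y x := tbF_on (onc hq (by decide))
  rw [e1, e0, e3]
  simp only [l1q3, cv1r, xt1q3, xt1q3_3, xt1q3_20, xt1q3_54, xt1q3_69, jnX1q3, l3q3, cv3r, c1g_v, swg_v, c3g_v, c1n_off (off_y hq.1)]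
  all_goals ((try push_cast); (try simp only [sub_self]); (repeat first | rw [if_pos (by linarith)] | rw [if_neg (by linarith)] | erw [if_pos (by linarith)] | erw [if_neg (by linarith)]); (try ring1))
theorem viL2003 {x : ℝ} (hx : 39 / 40 ≤ x) (hx' : x < 1) {y : ℝ} (hq : InQ 0 y) (h : y ≤ 1 / 16) :
    tL 2 0 y x * ((PP x).ρ 3 - (PP x).ρ 0) = tL 0 0 y x * ((PP x).ρ 3 - (PP x).ρ 2) + tL 3 0 y x * ((PP x).ρ 2 - (PP x).ρ 0) := by
  have hy0 := hq.nonneg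
  have hy2 := hq.le_two
  have hq1 := hq.1
  have hq2 := hq.2
  show _ * (1 - 0) = _ * (1 - 3 / 5) + _ * (3 / 5 - 0)
  have e2 : tL 2 0 y x = l2q0.v y x := tbF_on (onc hq (by decide))
  have e0 : tL 0 0 y x = l0q0.v y x := tbF_on (⟨hq, fun _ => on_half (by linarith)⟩)
  have e3 : tL 3 0 y x = l3q0.v y x := tbF_on (onc hq (by decide))
  rw [e2, e0, e3]
  simp only [l2q0, cv2m, xt2q0, xt2q0_3, xt2q0_15, xt2q0_30, jnX2q0, l0q0, l3q0, cv3m, c1g_v, swg_v, c3g_v]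
  all_goals ((try push_cast); (try simp only [sub_self]); (repeat first | rw [if_pos (by linarith)] | rw [if_neg (by linarith)] | erw [if_pos (by linarith)] | erw [if_neg (by linarith)]); (try ring1))
theorem viL2203 {x : ℝ} (hx : 39 / 40 ≤ x) (hx' : x < 1) {y : ℝ} (hq : InQ 2 y) (h : y ≤ 17 / 16) :
    tL 2 2 y x * ((PP x).ρ 3 - (PP x).ρ 0) = tL 0 2 y x * ((PP x).ρ 3 - (PP x).ρ 2) + tL 3 2 y x * ((PP x).ρ 2 - (PP x).ρ 0) := by
  have hy0 := hq.nonneg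
  have hy2 := hq.le_two
  have hq1 := hq.1
  have hq2 := hq.2
  show _ * (1 - 0) = _ * (1 - 3 / 5) + _ * (3 / 5 - 0)
  have e2 : tL 2 2 y x = l2q2.v y x := tbF_on (onc hq (by decide))
  have on : h0 * y < 1 := by nlinarith [h0_sq, h0_pos]
  have e0 : tL 0 2 y x = lc02.v (c1n y) x := tbF_on ⟨hq, fun _ => on⟩
  have ya := yag_v hy0 on
  have e3 : tL 3 2 y x = l3q2.v y x := tbF_on (onc hq (by decide))
  rw [e2, e0, e3]
  simp only [l2q2, cv2p, xt2q2, xt2q2_3, jnX2q2, jnX2q2_4, jnX2q2_7, lc02, lc02_7, xt0q2, xt0q2_6, l3q2, cv3p, c1g_v, swg_v, c3g_v, ya]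
  have hc : ¬ ((1 : ℝ) - 3 / 4 * y ^ 2 ≤ 0) := not_le.2 (by have := on_sq hy0 on; linarith)
  all_goals ((try push_cast); (try simp only [if_neg hc]); (repeat first | rw [if_pos (by linarith)] | rw [if_neg (by linarith)] | erw [if_pos (by linarith)] | erw [if_neg (by linarith)]); (try ring1))
theorem viL2303 {x : ℝ} (hx : 39 / 40 ≤ x) (hx' : x < 1) {y : ℝ} (hq : InQ 3 y) (h : 31 / 16 < y) :
    tL 2 3 y x * ((PP x).ρ 3 - (PP x).ρ 0) = tL 0 3 y x * ((PP x).ρ 3 - (PP x).ρ 2) + tL 3 3 y x * ((PP x).ρ 2 - (PP x).ρ 0) := by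
  have hy0 := hq.nonneg
  have hy2 := hq.le_two
  have hq1 := hq.1
  have hq2 := hq.2
  show _ * (1 - 0) = _ * (1 - 3 / 5) + _ * (3 / 5 - 0)
  have e2 : tL 2 3 y x = l2q3.v y x := tbF_on (onc hq (by decide))
  have e0 : tL 0 3 y x = 0 := tbF_off (off_y hq.1)
  have e3 : tL 3 3 y x = l3q3.v y x := tbF_on (onc hq (by decide))
  rw [e2, e0, e3]
  simp only [l2q3, cv2r, xt2q3, xt2q3_3, xt2q3_20, xt2q3_54, xt2q3_69, jnX2q3, l3q3, cv3r, c1g_v, swg_v, c3g_v, c1n_off (off_y hq.1)]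
  all_goals ((try push_cast); (try simp only [sub_self]); (repeat first | rw [if_pos (by linarith)] | rw [if_neg (by linarith)] | erw [if_pos (by linarith)] | erw [if_neg (by linarith)]); (try ring1))
theorem viL4035 {x : ℝ} (hx : 39 / 40 ≤ x) (hx' : x < 1) {y : ℝ} (hq : InQ 0 y) (h : 1 / 16 < y) :
    tL 4 0 y x * ((PP x).ρ 5 - (PP x).ρ 3) = tL 3 0 y x * ((PP x).ρ 5 - (PP x).ρ 4) + tL 5 0 y x * ((PP x).ρ 4 - (PP x).ρ 3) := by
  have hy0 := hq.nonneg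
  have hy2 := hq.le_two
  have hq1 := hq.1
  have hq2 := hq.2
  show _ * (23 / 20 - 1) = _ * (23 / 20 - r4 x) + _ * (r4 x - 1)
  have e4 : tL 4 0 y x = l4q0.v y x := tbF_on (onc hq (by decide))
  have e3 : tL 3 0 y x = l3q0.v y x := tbF_on (onc hq (by decide))
  have e5 : tL 5 0 y x = l5q0.v y x := tbF_on (onc hq (by decide))
  rw [e4, e3, e5]
  simp only [l4q0, cv4m, cv4m_5, xt4q0, l3q0, cv3m, l5q0, cv5m, c1g_v, swg_v, c3g_v]
  rw [r4_eq hx hx']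
  all_goals ((try push_cast); (try simp only [sub_self]); (repeat first | rw [if_pos (by linarith)] | rw [if_neg (by linarith)] | erw [if_pos (by linarith)] | erw [if_neg (by linarith)]); (try ring1))
theorem viL4135 {x : ℝ} (hx : 39 / 40 ≤ x) (hx' : x < 1) {y : ℝ} (hq : InQ 1 y) (h : y ≤ 15 / 16) :
    tL 4 1 y x * ((PP x).ρ 5 - (PP x).ρ 3) = tL 3 1 y x * ((PP x).ρ 5 - (PP x).ρ 4) + tL 5 1 y x * ((PP x).ρ 4 - (PP x).ρ 3) := by
  have hy0 := hq.nonneg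
  have hy2 := hq.le_two
  have hq1 := hq.1
  have hq2 := hq.2
  show _ * (23 / 20 - 1) = _ * (23 / 20 - r4 x) + _ * (r4 x - 1)
  have e4 : tL 4 1 y x = l4q1.v y x := tbF_on (onc hq (by decide))
  have e3 : tL 3 1 y x = l3q1.v y x := tbF_on (onc hq (by decide))
  have e5 : tL 5 1 y x = l5q1.v y x := tbF_on (onc hq (by decide))
  rw [e4, e3, e5]
  simp only [l4q1, cv4m, cv4m_5, xt4q1, xt4q1_3, l3q1, cv3m, l5q1, cv5m, c1g_v, swg_v, c3g_v]
  rw [r4_eq hx hx']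
  all_goals ((try push_cast); (try simp only [sub_self]); (repeat first | rw [if_pos (by linarith)] | rw [if_neg (by linarith)] | erw [if_pos (by linarith)] | erw [if_neg (by linarith)]); (try ring1))
theorem viL4137 {x : ℝ} (hx : 39 / 40 ≤ x) (hx' : x < 1) {y : ℝ} (hq : InQ 1 y) (h : 15 / 16 < y) :
    tL 4 1 y x * ((PP x).ρ 7 - (PP x).ρ 3) = tL 3 1 y x * ((PP x).ρ 7 - (PP x).ρ 4) + tL 7 1 y x * ((PP x).ρ 4 - (PP x).ρ 3) := by
  have hy0 := hq.nonneg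
  have hy2 := hq.le_two
  have hq1 := hq.1
  have hq2 := hq.2
  show _ * (2 - 1) = _ * (2 - r4 x) + _ * (r4 x - 1)
  have e4 : tL 4 1 y x = l4q1.v y x := tbF_on (onc hq (by decide))
  have e3 : tL 3 1 y x = l3q1.v y x := tbF_on (onc hq (by decide))
  have e7 : tL 7 1 y x = l7q1.v y x := tbF_on (onc hq (by decide))
  rw [e4, e3, e7]
  simp only [l4q1, cv4m, cv4m_5, xt4q1, xt4q1_3, l3q1, cv3m, l7q1, c1g_v, swg_v, c3g_v]
  rw [r4_eq hx hx']
  all_goals ((try push_cast); (try simp only [sub_self]); (repeat first | rw [if_pos (by linarith)] | rw [if_neg (by linarith)] | erw [if_pos (by linarith)] | erw [if_neg (by linarith)]); (try ring1))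
theorem viL4235 {x : ℝ} (hx : 39 / 40 ≤ x) (hx' : x < 1) {y : ℝ} (hq : InQ 2 y)  :
    tL 4 2 y x * ((PP x).ρ 5 - (PP x).ρ 3) = tL 3 2 y x * ((PP x).ρ 5 - (PP x).ρ 4) + tL 5 2 y x * ((PP x).ρ 4 - (PP x).ρ 3) := by
  have hy0 := hq.nonneg
  have hy2 := hq.le_two
  have hq1 := hq.1
  have hq2 := hq.2
  show _ * (23 / 20 - 1) = _ * (23 / 20 - r4 x) + _ * (r4 x - 1)
  have e4 : tL 4 2 y x = l4q2.v y x := tbF_on (onc hq (by decide))
  have e3 : tL 3 2 y x = l3q2.v y x := tbF_on (onc hq (by decide))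
  have e5 : tL 5 2 y x = l5q2.v y x := tbF_on (onc hq (by decide))
  rw [e4, e3, e5]
  simp only [l4q2, cv4p, cv4p_6, xt4q2, l3q2, cv3p, l5q2, cv5p, c1g_v, swg_v, c3g_v]
  rw [r4_eq hx hx']
  all_goals ((try push_cast); (try simp only [sub_self]); (repeat first | rw [if_pos (by linarith)] | rw [if_neg (by linarith)] | erw [if_pos (by linarith)] | erw [if_neg (by linarith)]); (try ring1))
theorem viL4335 {x : ℝ} (hx : 39 / 40 ≤ x) (hx' : x < 1) {y : ℝ} (hq : InQ 3 y)  :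
    tL 4 3 y x * ((PP x).ρ 5 - (PP x).ρ 3) = tL 3 3 y x * ((PP x).ρ 5 - (PP x).ρ 4) + tL 5 3 y x * ((PP x).ρ 4 - (PP x).ρ 3) := by
  have hy0 := hq.nonneg
  have hy2 := hq.le_two
  have hq1 := hq.1
  have hq2 := hq.2
  show _ * (23 / 20 - 1) = _ * (23 / 20 - r4 x) + _ * (r4 x - 1)
  have e4 : tL 4 3 y x = lc43.v (c3n y) x := tbF_on (onc hq (by decide))
  have e3 : tL 3 3 y x = l3q3.v y x := tbF_on (onc hq (by decide))
  have e5 : tL 5 3 y x = lc53.v (c3n y) x := tbF_on (onc hq (by decide))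
  have yc := ycg_v hy0 hy2
  rw [e4, e3, e5]
  simp only [lc43, lc43_7, lc43_9, lc43_18, lc43_35, l3q3, cv3r, lc53, lc53_10, lc53_12, lc53_29, c1g_v, swg_v, c3g_v, yc, c1n_off (off_y hq.1)]
  rw [r4_eq hx hx']
  all_goals ((try push_cast); (try simp only [sub_self]); (repeat first | rw [if_pos (by linarith)] | rw [if_neg (by linarith)] | erw [if_pos (by linarith)] | erw [if_neg (by linarith)]); (try ring1))
theorem viL5137 {x : ℝ} (hx : 39 / 40 ≤ x) (hx' : x < 1) {y : ℝ} (hq : InQ 1 y) (h : 15 / 16 < y) :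
    tL 5 1 y x * ((PP x).ρ 7 - (PP x).ρ 3) = tL 3 1 y x * ((PP x).ρ 7 - (PP x).ρ 5) + tL 7 1 y x * ((PP x).ρ 5 - (PP x).ρ 3) := by
  have hy0 := hq.nonneg
  have hy2 := hq.le_two
  have hq1 := hq.1
  have hq2 := hq.2
  show _ * (2 - 1) = _ * (2 - 23 / 20) + _ * (23 / 20 - 1)
  have e5 : tL 5 1 y x = l5q1.v y x := tbF_on (onc hq (by decide))
  have e3 : tL 3 1 y x = l3q1.v y x := tbF_on (onc hq (by decide))
  have e7 : tL 7 1 y x = l7q1.v y x := tbF_on (onc hq (by decide))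
  rw [e5, e3, e7]
  simp only [l5q1, cv5m, xt5q1, xt5q1_3, xt5q1_59, xt5q1_75, jnX5q1, jnX5q1_5, jnX5q1_18, l3q1, cv3m, l7q1, c1g_v, swg_v, c3g_v]
  all_goals ((try push_cast); (try simp only [sub_self]); (repeat first | rw [if_pos (by linarith)] | rw [if_neg (by linarith)] | erw [if_pos (by linarith)] | erw [if_neg (by linarith)]); (try ring1))
theorem viL6137 {x : ℝ} (hx : 39 / 40 ≤ x) (hx' : x < 1) {y : ℝ} (hq : InQ 1 y) (h : 15 / 16 < y) :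
    tL 6 1 y x * ((PP x).ρ 7 - (PP x).ρ 3) = tL 3 1 y x * ((PP x).ρ 7 - (PP x).ρ 6) + tL 7 1 y x * ((PP x).ρ 6 - (PP x).ρ 3) := by
  have hy0 := hq.nonneg
  have hy2 := hq.le_two
  have hq1 := hq.1
  have hq2 := hq.2
  show _ * (2 - 1) = _ * (2 - 8 / 5) + _ * (8 / 5 - 1)
  have e6 : tL 6 1 y x = l6q1.v y x := tbF_on (onc hq (by decide))
  have e3 : tL 3 1 y x = l3q1.v y x := tbF_on (onc hq (by decide))
  have e7 : tL 7 1 y x = l7q1.v y x := tbF_on (onc hq (by decide))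
  rw [e6, e3, e7]
  simp only [l6q1, cv6m, xt6q1, xt6q1_3, xt6q1_59, xt6q1_75, jnX6q1, jnX6q1_5, jnX6q1_18, l3q1, cv3m, l7q1, c1g_v, swg_v, c3g_v]
  all_goals ((try push_cast); (try simp only [sub_self]); (repeat first | rw [if_pos (by linarith)] | rw [if_neg (by linarith)] | erw [if_pos (by linarith)] | erw [if_neg (by linarith)]); (try ring1))
theorem thKF0 {x : ℝ} (hx : 39 / 40 ≤ x) (hx' : x < 1) (h : Pins (PP x) tKF x) : ∀ X y, InQ 0 y → 1 ≤ qqn X y → qqn X y ≤ 3 →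
    thd (PP x) tKF 0 X y x = (pcF 0).K.v X y x := by
  intro X y hq k1 k3
  have hy0 := hq.nonneg
  have hy2 := hq.le_two
  have hyl := hq.1
  have hyr := hq.2
  refine third7 h hq (F := fun X => rkfq0.v X y x) (x0 := c1g.v y) (x1 := cv1m.v y) (x2 := cv2m.v y) (x3 := cv3m.v y) (x4 := cv4m.v y x) (x5 := cv5m.v y) (x6 := cv6m.v y) (x7 := c3g.v y)
    (v0 := kf0q0.v y x) (v1 := kf1q0.v y x) (v2 := kf2q0.v y x) (v3 := kf3q0.v y x) (v4 := kf4q0.v y x) (v5 := kf5q0.v y x) (v6 := kf6q0.v y x) (v7 := kf7q0.v y x)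
    ?_ ?_ ?_ ?_ ?_ ?_ ?_ ?_ ?_ ?_ ?_ ?_ ?_ ?_ ?_ ?_ (fun X => rfl) ?_ ?_ ?_ ?_ ?_ ?_ ?_ k1 k3
  · rw [crv0]; rw [c1g_v]
  · exact ecv1q0 x
  · exact ecv2q0 x
  · exact ecv3q0 x
  · exact ecv4q0 hx hx'
  · exact ecv5q0 x
  · exact ecv6q0 x
  · rw [crv7, c3g_v]
  · exact tbF_on ⟨hq, fun _ => on_half (by linarith)⟩
  · exact tbF_on (onc hq (by decide))
  · exact tbF_on (onc hq (by decide))
  · exact tbF_on (onc hq (by decide))
  · exact tbF_on (onc hq (by decide))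
  · exact tbF_on (onc hq (by decide))
  · exact tbF_on (onc hq (by decide))
  · exact tbF_on (onc hq (by decide))
  · intro X g0 g1
    refine lin_of g0 g1 fun L hL hX => ?_
    simp only [lm0m_v, hL]
    all_goals ((try push_cast) <;> (try ring1))
  · intro X g0 g1
    refine lin_of g0 g1 fun L hL hX => ?_
    simp only [lm1m_v, hL]
    all_goals ((try push_cast) <;> (try ring1))
  · intro X g0 g1
    refine lin_of g0 g1 fun L hL hX => ?_
    simp only [lm2m_v, hL]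
    all_goals ((try push_cast) <;> (try ring1))
  · intro X g0 g1
    refine lin_of g0 g1 fun L hL hX => ?_
    simp only [lm3m_v, hL]
    all_goals ((try push_cast) <;> (try ring1))
  · intro X g0 g1
    refine lin_of g0 g1 fun L hL hX => ?_
    simp only [lm4m_v, hL]
    all_goals ((try push_cast) <;> (try ring1))
  · intro X g0 g1
    refine lin_of g0 g1 fun L hL hX => ?_
    simp only [lm5m_v, hL]
    all_goals ((try push_cast) <;> (try ring1))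
  · intro X g0 g1
    refine lin_of g0 g1 fun L hL hX => ?_
    simp only [lm6m_v, hL]
    all_goals ((try push_cast) <;> (try ring1))
theorem thKF1 {x : ℝ} (hx : 39 / 40 ≤ x) (hx' : x < 1) (h : Pins (PP x) tKF x) : ∀ X y, InQ 1 y → 1 ≤ qqn X y → qqn X y ≤ 3 →
    thd (PP x) tKF 1 X y x = (pcF 1).K.v X y x := by
  intro X y hq k1 k3
  have hy0 := hq.nonneg
  have hy2 := hq.le_two
  have hyl := hq.1
  have hyr := hq.2
  refine third7 h hq (F := fun X => rkfq1.v X y x) (x0 := c1g.v y) (x1 := cv1m.v y) (x2 := cv2m.v y) (x3 := cv3m.v y) (x4 := cv4m.v y x) (x5 := cv5m.v y) (x6 := cv6m.v y) (x7 := c3g.v y)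
    (v0 := kf0q1.v y x) (v1 := kf1q1.v y x) (v2 := kf2q1.v y x) (v3 := kf3q1.v y x) (v4 := kf4q1.v y x) (v5 := kf5q1.v y x) (v6 := kf6q1.v y x) (v7 := kf7q1.v y x)
    ?_ ?_ ?_ ?_ ?_ ?_ ?_ ?_ ?_ ?_ ?_ ?_ ?_ ?_ ?_ ?_ (fun X => rfl) ?_ ?_ ?_ ?_ ?_ ?_ ?_ k1 k3
  · rw [crv0]; rw [c1g_v]
  · exact ecv1q1 x
  · exact ecv2q1 x
  · exact ecv3q1 x
  · exact ecv4q1 hx hx'
  · exact ecv5q1 x
  · exact ecv6q1 x
  · rw [crv7, c3g_v]
  · exact tbF_on ⟨hq, fun _ => on_half (by linarith)⟩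
  · exact tbF_on (onc hq (by decide))
  · exact tbF_on (onc hq (by decide))
  · exact tbF_on (onc hq (by decide))
  · exact tbF_on (onc hq (by decide))
  · exact tbF_on (onc hq (by decide))
  · exact tbF_on (onc hq (by decide))
  · exact tbF_on (onc hq (by decide))
  · intro X g0 g1
    refine lin_of g0 g1 fun L hL hX => ?_
    simp only [lm0m_v, hL]
    all_goals ((try push_cast) <;> (try ring1))
  · intro X g0 g1
    refine lin_of g0 g1 fun L hL hX => ?_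
    simp only [lm1m_v, hL]
    all_goals ((try push_cast) <;> (try ring1))
  · intro X g0 g1
    refine lin_of g0 g1 fun L hL hX => ?_
    simp only [lm2m_v, hL]
    all_goals ((try push_cast) <;> (try ring1))
  · intro X g0 g1
    refine lin_of g0 g1 fun L hL hX => ?_
    simp only [lm3m_v, hL]
    all_goals ((try push_cast) <;> (try ring1))
  · intro X g0 g1
    refine lin_of g0 g1 fun L hL hX => ?_
    simp only [lm4m_v, hL]
    all_goals ((try push_cast) <;> (try ring1))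
  · intro X g0 g1
    refine lin_of g0 g1 fun L hL hX => ?_
    simp only [lm5m_v, hL]
    all_goals ((try push_cast) <;> (try ring1))
  · intro X g0 g1
    refine lin_of g0 g1 fun L hL hX => ?_
    simp only [lm6m_v, hL]
    all_goals ((try push_cast) <;> (try ring1))
theorem thKF2 {x : ℝ} (hx : 39 / 40 ≤ x) (hx' : x < 1) (h : Pins (PP x) tKF x) : ∀ X y, InQ 2 y → 1 ≤ qqn X y → qqn X y ≤ 3 →
    thd (PP x) tKF 2 X y x = (pcF 2).K.v X y x := by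
  intro X y hq k1 k3
  have hy0 := hq.nonneg
  have hy2 := hq.le_two
  have hyl := hq.1
  have hyr := hq.2
  refine third7 h hq (F := fun X => rkfq2.v X y x) (x0 := c1g.v y) (x1 := cv1p.v y) (x2 := cv2p.v y) (x3 := cv3p.v y) (x4 := cv4p.v y x) (x5 := cv5p.v y) (x6 := cv6p.v y) (x7 := c3g.v y)
    (v0 := kf0q2.v y x) (v1 := kf1q2.v y x) (v2 := kf2q2.v y x) (v3 := kf3q2.v y x) (v4 := kf4q2.v y x) (v5 := kf5q2.v y x) (v6 := kf6q2.v y x) (v7 := kf7q2.v y x)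
    ?_ ?_ ?_ ?_ ?_ ?_ ?_ ?_ ?_ ?_ ?_ ?_ ?_ ?_ ?_ ?_ (fun X => rfl) ?_ ?_ ?_ ?_ ?_ ?_ ?_ k1 k3
  · rw [crv0]; rw [c1g_v]
  · exact ecv1q2 x
  · exact ecv2q2 x
  · exact ecv3q2 x
  · exact ecv4q2 hx hx'
  · exact ecv5q2 x
  · exact ecv6q2 x
  · rw [crv7, c3g_v]
  · by_cases on : h0 * y < 1
    · refine (tbF_on ⟨hq, fun _ => on⟩).trans ?_
      show kfc02.v (c1n y) x = kf0q2.v y x
      have ya := yag_v hy0 on
      have hc : ¬ ((1 : ℝ) - 3 / 4 * y ^ 2 ≤ 0) := not_le.2 (by have := on_sq hy0 on; linarith)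
      simp only [kfc02, kfc02_9, kf0q2, kf0q2_9, ya, c1g_v]
      all_goals ((try push_cast) <;> (try simp only [if_neg hc]) <;> (try ring1))
    · have off : 1 ≤ h0 * y := not_lt.1 on
      have hc : (1 : ℝ) - 3 / 4 * y ^ 2 ≤ 0 := by have := off_sq off; linarith
      refine (tbF_off off).trans ?_
      simp only [kf0q2, kf0q2_9, c1g_v, c1n_off off]
      all_goals ((try push_cast) <;> (try simp only [if_pos hc]) <;> (try ring1))
  · exact tbF_on (onc hq (by decide))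
  · exact tbF_on (onc hq (by decide))
  · exact tbF_on (onc hq (by decide))
  · exact tbF_on (onc hq (by decide))
  · exact tbF_on (onc hq (by decide))
  · exact tbF_on (onc hq (by decide))
  · exact tbF_on (onc hq (by decide))
  · intro X g0 g1
    refine lin_of g0 g1 fun L hL hX => ?_
    simp only [lm0p_v, hL]
    all_goals ((try push_cast) <;> (try ring1))
  · intro X g0 g1
    refine lin_of g0 g1 fun L hL hX => ?_
    simp only [lm1p_v, hL]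
    all_goals ((try push_cast) <;> (try ring1))
  · intro X g0 g1
    refine lin_of g0 g1 fun L hL hX => ?_
    simp only [lm2p_v, hL]
    all_goals ((try push_cast) <;> (try ring1))
  · intro X g0 g1
    refine lin_of g0 g1 fun L hL hX => ?_
    simp only [lm3p_v, hL]
    all_goals ((try push_cast) <;> (try ring1))
  · intro X g0 g1
    refine lin_of g0 g1 fun L hL hX => ?_
    simp only [lm4p_v, hL]
    all_goals ((try push_cast) <;> (try ring1))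
  · intro X g0 g1
    refine lin_of g0 g1 fun L hL hX => ?_
    simp only [lm5p_v, hL]
    all_goals ((try push_cast) <;> (try ring1))
  · intro X g0 g1
    refine lin_of g0 g1 fun L hL hX => ?_
    simp only [lm6p_v, hL]
    all_goals ((try push_cast) <;> (try ring1))
theorem thKF3 {x : ℝ} (hx : 39 / 40 ≤ x) (hx' : x < 1) (h : Pins (PP x) tKF x) : ∀ X y, InQ 3 y → 1 ≤ qqn X y → qqn X y ≤ 3 →
    thd (PP x) tKF 3 X y x = (pcF 3).K.v X y x := by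
  intro X y hq k1 k3
  have hy0 := hq.nonneg
  have hy2 := hq.le_two
  have hyl := hq.1
  have hyr := hq.2
  refine third7 h hq (F := fun X => rkfq3.v X y x) (x0 := 0) (x1 := cv1r.v y) (x2 := cv2r.v y) (x3 := cv3r.v y) (x4 := cv4r.v y x) (x5 := cv5r.v y) (x6 := cv6r.v y) (x7 := c3g.v y)
    (v0 := 0) (v1 := kf1q3.v y x) (v2 := kf2q3.v y x) (v3 := kf3q3.v y x) (v4 := kf4q3.v y x) (v5 := kf5q3.v y x) (v6 := kf6q3.v y x) (v7 := kf7q3.v y x)
    ?_ ?_ ?_ ?_ ?_ ?_ ?_ ?_ ?_ ?_ ?_ ?_ ?_ ?_ ?_ ?_ (fun X => rfl) ?_ ?_ ?_ ?_ ?_ ?_ ?_ k1 k3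
  · rw [crv0]; exact c1n_off (off_y hyl)
  · exact ecv1q3 x hyl
  · exact ecv2q3 x hyl
  · exact ecv3q3 x hyl
  · exact ecv4q3 hx hx'
  · exact ecv5q3 x hyl
  · exact ecv6q3 x hyl
  · rw [crv7, c3g_v]
  · exact tbF_off (off_y hyl)
  · exact tbF_on (onc hq (by decide))
  · exact tbF_on (onc hq (by decide))
  · exact tbF_on (onc hq (by decide))
  · refine (tbF_on (onc hq (by decide))).trans ?_
    show kfc43.v (c3n y) x = kf4q3.v y x
    simp only [kfc43, kfc43_9, kfc43_21, jnK5q3, jnK5q3_4, kf4q3, kf5q3, kf5q3_15, kf7q3, ycg_v hy0 hy2, c3g_v, swg_v, cv4r_v, cv5r_v, cv6r_v]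
    all_goals ((try push_cast); (try ring1); (try (split_ifs <;> ring1)))
  · refine (tbF_on (onc hq (by decide))).trans ?_
    show kfc53.v (c3n y) x = kf5q3.v y x
    simp only [kfc53, kfc53_16, jnK5q3, jnK5q3_4, kf5q3, kf5q3_15, kf7q3, ycg_v hy0 hy2, c3g_v, swg_v, cv4r_v, cv5r_v, cv6r_v]
    all_goals ((try push_cast); (try ring1); (try (split_ifs <;> ring1)))
  · refine (tbF_on (onc hq (by decide))).trans ?_
    show kfc63.v (c3n y) x = kf6q3.v y x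
    simp only [kfc63, kfc63_16, jnK6q3, jnK6q3_4, kf6q3, kf6q3_15, kf7q3, ycg_v hy0 hy2, c3g_v, swg_v, cv4r_v, cv5r_v, cv6r_v]
    all_goals ((try push_cast); (try ring1); (try (split_ifs <;> ring1)))
  · refine (tbF_on (onc hq (by decide))).trans ?_
    show kfc73.v (c3n y) x = kf7q3.v y x
    simp only [kfc73, kf7q3, ycg_v hy0 hy2, c3g_v, swg_v, cv4r_v, cv5r_v, cv6r_v]
    all_goals ((try push_cast); (try ring1); (try (split_ifs <;> ring1)))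
  · intro X g0 g1
    refine lin_of g0 g1 fun L hL hX => ?_
    simp only [lm0r_v, hL]
    all_goals ((try push_cast) <;> (try ring1))
  · intro X g0 g1
    refine lin_of g0 g1 fun L hL hX => ?_
    simp only [lm1r_v, hL]
    all_goals ((try push_cast) <;> (try ring1))
  · intro X g0 g1
    refine lin_of g0 g1 fun L hL hX => ?_
    simp only [lm2r_v, hL]
    all_goals ((try push_cast) <;> (try ring1))
  · intro X g0 g1
    refine lin_of g0 g1 fun L hL hX => ?_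
    simp only [lm3r_v, hL]
    all_goals ((try push_cast) <;> (try ring1))
  · intro X g0 g1
    refine lin_of g0 g1 fun L hL hX => ?_
    simp only [lm4r_v, hL]
    all_goals ((try push_cast) <;> (try ring1))
  · intro X g0 g1
    refine lin_of g0 g1 fun L hL hX => ?_
    simp only [lm5r_v, hL]
    all_goals ((try push_cast) <;> (try ring1))
  · intro X g0 g1
    refine lin_of g0 g1 fun L hL hX => ?_
    simp only [lm6r_v, hL]
    all_goals ((try push_cast) <;> (try ring1))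
theorem thKN0 {x : ℝ} (hx : 39 / 40 ≤ x) (hx' : x < 1) (h : Pins (PP x) tKN x) : ∀ X y, InQ 0 y → 1 ≤ qqn X y → qqn X y ≤ 3 →
    thd (PP x) tKN 0 X y x = (pcN 0).K.v X y x := by
  intro X y hq k1 k3
  have hy0 := hq.nonneg
  have hy2 := hq.le_two
  have hyl := hq.1
  have hyr := hq.2
  refine third7 h hq (F := fun X => rknq0.v X y x) (x0 := c1g.v y) (x1 := cv1m.v y) (x2 := cv2m.v y) (x3 := cv3m.v y) (x4 := cv4m.v y x) (x5 := cv5m.v y) (x6 := cv6m.v y) (x7 := c3g.v y)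
    (v0 := kn0q0.v y x) (v1 := kn1q0.v y x) (v2 := kn2q0.v y x) (v3 := kn3q0.v y x) (v4 := kn4q0.v y x) (v5 := kn5q0.v y x) (v6 := kn6q0.v y x) (v7 := kn7q0.v y x)
    ?_ ?_ ?_ ?_ ?_ ?_ ?_ ?_ ?_ ?_ ?_ ?_ ?_ ?_ ?_ ?_ (fun X => rfl) ?_ ?_ ?_ ?_ ?_ ?_ ?_ k1 k3
  · rw [crv0]; rw [c1g_v]
  · exact ecv1q0 x
  · exact ecv2q0 x
  · exact ecv3q0 x
  · exact ecv4q0 hx hx'
  · exact ecv5q0 x
  · exact ecv6q0 x
  · rw [crv7, c3g_v]
  · exact tbF_on ⟨hq, fun _ => on_half (by linarith)⟩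
  · exact tbF_on (onc hq (by decide))
  · exact tbF_on (onc hq (by decide))
  · exact tbF_on (onc hq (by decide))
  · exact tbF_on (onc hq (by decide))
  · exact tbF_on (onc hq (by decide))
  · exact tbF_on (onc hq (by decide))
  · exact tbF_on (onc hq (by decide))
  · intro X g0 g1
    refine lin_of g0 g1 fun L hL hX => ?_
    simp only [lm0m_v, hL]
    all_goals ((try push_cast) <;> (try ring1))
  · intro X g0 g1
    refine lin_of g0 g1 fun L hL hX => ?_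
    simp only [lm1m_v, hL]
    all_goals ((try push_cast) <;> (try ring1))
  · intro X g0 g1
    refine lin_of g0 g1 fun L hL hX => ?_
    simp only [lm2m_v, hL]
    all_goals ((try push_cast) <;> (try ring1))
  · intro X g0 g1
    refine lin_of g0 g1 fun L hL hX => ?_
    simp only [lm3m_v, hL]
    all_goals ((try push_cast) <;> (try ring1))
  · intro X g0 g1
    refine lin_of g0 g1 fun L hL hX => ?_
    simp only [lm4m_v, hL]
    all_goals ((try push_cast) <;> (try ring1))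
  · intro X g0 g1
    refine lin_of g0 g1 fun L hL hX => ?_
    simp only [lm5m_v, hL]
    all_goals ((try push_cast) <;> (try ring1))
  · intro X g0 g1
    refine lin_of g0 g1 fun L hL hX => ?_
    simp only [lm6m_v, hL]
    all_goals ((try push_cast) <;> (try ring1))
theorem thKN1 {x : ℝ} (hx : 39 / 40 ≤ x) (hx' : x < 1) (h : Pins (PP x) tKN x) : ∀ X y, InQ 1 y → 1 ≤ qqn X y → qqn X y ≤ 3 →
    thd (PP x) tKN 1 X y x = (pcN 1).K.v X y x := by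
  intro X y hq k1 k3
  have hy0 := hq.nonneg
  have hy2 := hq.le_two
  have hyl := hq.1
  have hyr := hq.2
  refine third7 h hq (F := fun X => rknq1.v X y x) (x0 := c1g.v y) (x1 := cv1m.v y) (x2 := cv2m.v y) (x3 := cv3m.v y) (x4 := cv4m.v y x) (x5 := cv5m.v y) (x6 := cv6m.v y) (x7 := c3g.v y)
    (v0 := kn0q1.v y x) (v1 := kn1q1.v y x) (v2 := kn2q1.v y x) (v3 := kn3q1.v y x) (v4 := kn4q1.v y x) (v5 := kn5q1.v y x) (v6 := kn6q1.v y x) (v7 := kn7q1.v y x)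
    ?_ ?_ ?_ ?_ ?_ ?_ ?_ ?_ ?_ ?_ ?_ ?_ ?_ ?_ ?_ ?_ (fun X => rfl) ?_ ?_ ?_ ?_ ?_ ?_ ?_ k1 k3
  · rw [crv0]; rw [c1g_v]
  · exact ecv1q1 x
  · exact ecv2q1 x
  · exact ecv3q1 x
  · exact ecv4q1 hx hx'
  · exact ecv5q1 x
  · exact ecv6q1 x
  · rw [crv7, c3g_v]
  · exact tbF_on ⟨hq, fun _ => on_half (by linarith)⟩
  · exact tbF_on (onc hq (by decide))
  · exact tbF_on (onc hq (by decide))
  · exact tbF_on (onc hq (by decide))
  · exact tbF_on (onc hq (by decide))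
  · exact tbF_on (onc hq (by decide))
  · exact tbF_on (onc hq (by decide))
  · exact tbF_on (onc hq (by decide))
  · intro X g0 g1
    refine lin_of g0 g1 fun L hL hX => ?_
    simp only [lm0m_v, hL]
    all_goals ((try push_cast) <;> (try ring1))
  · intro X g0 g1
    refine lin_of g0 g1 fun L hL hX => ?_
    simp only [lm1m_v, hL]
    all_goals ((try push_cast) <;> (try ring1))
  · intro X g0 g1
    refine lin_of g0 g1 fun L hL hX => ?_
    simp only [lm2m_v, hL]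
    all_goals ((try push_cast) <;> (try ring1))
  · intro X g0 g1
    refine lin_of g0 g1 fun L hL hX => ?_
    simp only [lm3m_v, hL]
    all_goals ((try push_cast) <;> (try ring1))
  · intro X g0 g1
    refine lin_of g0 g1 fun L hL hX => ?_
    simp only [lm4m_v, hL]
    all_goals ((try push_cast) <;> (try ring1))
  · intro X g0 g1
    refine lin_of g0 g1 fun L hL hX => ?_
    simp only [lm5m_v, hL]
    all_goals ((try push_cast) <;> (try ring1))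
  · intro X g0 g1
    refine lin_of g0 g1 fun L hL hX => ?_
    simp only [lm6m_v, hL]
    all_goals ((try push_cast) <;> (try ring1))
theorem thKN2 {x : ℝ} (hx : 39 / 40 ≤ x) (hx' : x < 1) (h : Pins (PP x) tKN x) : ∀ X y, InQ 2 y → 1 ≤ qqn X y → qqn X y ≤ 3 →
    thd (PP x) tKN 2 X y x = (pcN 2).K.v X y x := by
  intro X y hq k1 k3
  have hy0 := hq.nonneg
  have hy2 := hq.le_two
  have hyl := hq.1
  have hyr := hq.2
  refine third7 h hq (F := fun X => rknq2.v X y x) (x0 := c1g.v y) (x1 := cv1p.v y) (x2 := cv2p.v y) (x3 := cv3p.v y) (x4 := cv4p.v y x) (x5 := cv5p.v y) (x6 := cv6p.v y) (x7 := c3g.v y)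
    (v0 := kn0q2.v y x) (v1 := kn1q2.v y x) (v2 := kn2q2.v y x) (v3 := kn3q2.v y x) (v4 := kn4q2.v y x) (v5 := kn5q2.v y x) (v6 := kn6q2.v y x) (v7 := kn7q2.v y x)
    ?_ ?_ ?_ ?_ ?_ ?_ ?_ ?_ ?_ ?_ ?_ ?_ ?_ ?_ ?_ ?_ (fun X => rfl) ?_ ?_ ?_ ?_ ?_ ?_ ?_ k1 k3
  · rw [crv0]; rw [c1g_v]
  · exact ecv1q2 x
  · exact ecv2q2 x
  · exact ecv3q2 x
  · exact ecv4q2 hx hx'
  · exact ecv5q2 x
  · exact ecv6q2 x
  · rw [crv7, c3g_v]
  · by_cases on : h0 * y < 1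
    · refine (tbF_on ⟨hq, fun _ => on⟩).trans ?_
      show knc02.v (c1n y) x = kn0q2.v y x
      have ya := yag_v hy0 on
      have hc : ¬ ((1 : ℝ) - 3 / 4 * y ^ 2 ≤ 0) := not_le.2 (by have := on_sq hy0 on; linarith)
      simp only [knc02, kfc02, kfc02_9, kbc02, kbc02_9, kn0q2, kf0q2, kf0q2_9, kb0q2, kb0q2_9, ya, c1g_v]
      all_goals ((try push_cast) <;> (try simp only [if_neg hc]) <;> (try ring1))
    · have off : 1 ≤ h0 * y := not_lt.1 on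
      have hc : (1 : ℝ) - 3 / 4 * y ^ 2 ≤ 0 := by have := off_sq off; linarith
      refine (tbF_off off).trans ?_
      simp only [kn0q2, kf0q2, kf0q2_9, kb0q2, kb0q2_9, c1g_v, c1n_off off]
      all_goals ((try push_cast) <;> (try simp only [if_pos hc]) <;> (try ring1))
  · exact tbF_on (onc hq (by decide))
  · exact tbF_on (onc hq (by decide))
  · exact tbF_on (onc hq (by decide))
  · exact tbF_on (onc hq (by decide))
  · exact tbF_on (onc hq (by decide))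
  · exact tbF_on (onc hq (by decide))
  · exact tbF_on (onc hq (by decide))
  · intro X g0 g1
    refine lin_of g0 g1 fun L hL hX => ?_
    simp only [lm0p_v, hL]
    all_goals ((try push_cast) <;> (try ring1))
  · intro X g0 g1
    refine lin_of g0 g1 fun L hL hX => ?_
    simp only [lm1p_v, hL]
    all_goals ((try push_cast) <;> (try ring1))
  · intro X g0 g1
    refine lin_of g0 g1 fun L hL hX => ?_
    simp only [lm2p_v, hL]
    all_goals ((try push_cast) <;> (try ring1))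
  · intro X g0 g1
    refine lin_of g0 g1 fun L hL hX => ?_
    simp only [lm3p_v, hL]
    all_goals ((try push_cast) <;> (try ring1))
  · intro X g0 g1
    refine lin_of g0 g1 fun L hL hX => ?_
    simp only [lm4p_v, hL]
    all_goals ((try push_cast) <;> (try ring1))
  · intro X g0 g1
    refine lin_of g0 g1 fun L hL hX => ?_
    simp only [lm5p_v, hL]
    all_goals ((try push_cast) <;> (try ring1))
  · intro X g0 g1
    refine lin_of g0 g1 fun L hL hX => ?_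
    simp only [lm6p_v, hL]
    all_goals ((try push_cast) <;> (try ring1))
theorem thKN3 {x : ℝ} (hx : 39 / 40 ≤ x) (hx' : x < 1) (h : Pins (PP x) tKN x) : ∀ X y, InQ 3 y → 1 ≤ qqn X y → qqn X y ≤ 3 →
    thd (PP x) tKN 3 X y x = (pcN 3).K.v X y x := by
  intro X y hq k1 k3
  have hy0 := hq.nonneg
  have hy2 := hq.le_two
  have hyl := hq.1
  have hyr := hq.2
  refine third7 h hq (F := fun X => rknq3.v X y x) (x0 := 0) (x1 := cv1r.v y) (x2 := cv2r.v y) (x3 := cv3r.v y) (x4 := cv4r.v y x) (x5 := cv5r.v y) (x6 := cv6r.v y) (x7 := c3g.v y)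
    (v0 := 0) (v1 := kn1q3.v y x) (v2 := kn2q3.v y x) (v3 := kn3q3.v y x) (v4 := kn4q3.v y x) (v5 := kn5q3.v y x) (v6 := kn6q3.v y x) (v7 := kn7q3.v y x)
    ?_ ?_ ?_ ?_ ?_ ?_ ?_ ?_ ?_ ?_ ?_ ?_ ?_ ?_ ?_ ?_ (fun X => rfl) ?_ ?_ ?_ ?_ ?_ ?_ ?_ k1 k3
  · rw [crv0]; exact c1n_off (off_y hyl)
  · exact ecv1q3 x hyl
  · exact ecv2q3 x hyl
  · exact ecv3q3 x hyl
  · exact ecv4q3 hx hx'
  · exact ecv5q3 x hyl
  · exact ecv6q3 x hyl
  · rw [crv7, c3g_v]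
  · exact tbF_off (off_y hyl)
  · exact tbF_on (onc hq (by decide))
  · exact tbF_on (onc hq (by decide))
  · exact tbF_on (onc hq (by decide))
  · refine (tbF_on (onc hq (by decide))).trans ?_
    show knc43.v (c3n y) x = kn4q3.v y x
    simp only [knc43, kfc43, kfc43_9, kfc43_21, jnK5q3, jnK5q3_4, kbc43, kbc43_10, kbc43_22, jnB5q3, jnB5q3_4, kn4q3, kf4q3, kf5q3, kf5q3_15, kf7q3, kb4q3, kb5q3, kb5q3_15, kb7q3, ycg_v hy0 hy2, c3g_v, swg_v, cv4r_v, cv5r_v, cv6r_v]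
    all_goals ((try push_cast); (try ring1); (try (split_ifs <;> ring1)))
  · refine (tbF_on (onc hq (by decide))).trans ?_
    show knc53.v (c3n y) x = kn5q3.v y x
    simp only [knc53, kfc53, kfc53_16, jnK5q3, jnK5q3_4, kbc53, kbc53_16, jnB5q3, jnB5q3_4, kn5q3, kf5q3, kf5q3_15, kf7q3, kb5q3, kb5q3_15, kb7q3, ycg_v hy0 hy2, c3g_v, swg_v, cv4r_v, cv5r_v, cv6r_v]
    all_goals ((try push_cast); (try ring1); (try (split_ifs <;> ring1)))
  · refine (tbF_on (onc hq (by decide))).trans ?_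
    show knc63.v (c3n y) x = kn6q3.v y x
    simp only [knc63, kfc63, kfc63_16, jnK6q3, jnK6q3_4, kbc63, kbc63_6, jnB6q3, jnB6q3_4, kn6q3, kf6q3, kf6q3_15, kf7q3, kb6q3, kb6q3_5, kb7q3, ycg_v hy0 hy2, c3g_v, swg_v, cv4r_v, cv5r_v, cv6r_v]
    all_goals ((try push_cast); (try ring1); (try (split_ifs <;> ring1)))
  · refine (tbF_on (onc hq (by decide))).trans ?_
    show knc73.v (c3n y) x = kn7q3.v y x
    simp only [knc73, kfc73, kbc73, kn7q3, kf7q3, kb7q3, ycg_v hy0 hy2, c3g_v, swg_v, cv4r_v, cv5r_v, cv6r_v]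
    all_goals ((try push_cast); (try ring1); (try (split_ifs <;> ring1)))
  · intro X g0 g1
    refine lin_of g0 g1 fun L hL hX => ?_
    simp only [lm0r_v, hL]
    all_goals ((try push_cast) <;> (try ring1))
  · intro X g0 g1
    refine lin_of g0 g1 fun L hL hX => ?_
    simp only [lm1r_v, hL]
    all_goals ((try push_cast) <;> (try ring1))
  · intro X g0 g1
    refine lin_of g0 g1 fun L hL hX => ?_
    simp only [lm2r_v, hL]
    all_goals ((try push_cast) <;> (try ring1))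
  · intro X g0 g1
    refine lin_of g0 g1 fun L hL hX => ?_
    simp only [lm3r_v, hL]
    all_goals ((try push_cast) <;> (try ring1))
  · intro X g0 g1
    refine lin_of g0 g1 fun L hL hX => ?_
    simp only [lm4r_v, hL]
    all_goals ((try push_cast) <;> (try ring1))
  · intro X g0 g1
    refine lin_of g0 g1 fun L hL hX => ?_
    simp only [lm5r_v, hL]
    all_goals ((try push_cast) <;> (try ring1))
  · intro X g0 g1
    refine lin_of g0 g1 fun L hL hX => ?_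
    simp only [lm6r_v, hL]
    all_goals ((try push_cast) <;> (try ring1))
theorem thL0 {x : ℝ} (hx : 39 / 40 ≤ x) (hx' : x < 1) (h : Pins (PP x) tL x) : ∀ X y, InQ 0 y → 1 ≤ qqn X y → qqn X y ≤ 3 →
    thd (PP x) tL 0 X y x = (pcF 0).L.v X y x := by
  intro X y hq k1 k3
  have hy0 := hq.nonneg
  have hy2 := hq.le_two
  have hyl := hq.1
  have hyr := hq.2
  have hodd : (pcF 0).L.v X y x = if X ≤ 0 then -(lamg.v x * (-X + rxq0.v (-X) y x)) else lamg.v x * (X + rxq0.v X y x) := by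
    show rlq0.v X y x = _
    simp only [rlq0]
    split_ifs <;> ring
  rw [hodd]
  refine third7 h hq (F := fun X => lamg.v x * (X + rxq0.v X y x)) (x0 := c1g.v y) (x1 := cv1m.v y) (x2 := cv2m.v y) (x3 := cv3m.v y) (x4 := cv4m.v y x) (x5 := cv5m.v y) (x6 := cv6m.v y) (x7 := c3g.v y)
    (v0 := l0q0.v y x) (v1 := l1q0.v y x) (v2 := l2q0.v y x) (v3 := l3q0.v y x) (v4 := l4q0.v y x) (v5 := l5q0.v y x) (v6 := l6q0.v y x) (v7 := l7q0.v y x)
    (S0 := fun X => lamg.v x * (X + (xt0q0.v y x + lm0m.v X y * (xt1q0.v y x - xt0q0.v y x)))) (S1 := fun X => lamg.v x * (X + (xt1q0.v y x + lm1m.v X y * (xt2q0.v y x - xt1q0.v y x)))) (S2 := fun X => lamg.v x * (X + (xt2q0.v y x + lm2m.v X y * (xt3q0.v y x - xt2q0.v y x)))) (S3 := fun X => lamg.v x * (X + (xt3q0.v y x + lm3m.v X y x * (xt4q0.v y x - xt3q0.v y x)))) (S4 := fun X => lamg.v x * (X + (xt4q0.v y x + lm4m.v X y x * (xt5q0.v y x - xt4q0.v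 y x)))) (S5 := fun X => lamg.v x * (X + (xt5q0.v y x + lm5m.v X y * (xt6q0.v y x - xt5q0.v y x)))) (S6 := fun X => lamg.v x * (X + (xt6q0.v y x + lm6m.v X y * (xt7q0.v y x - xt6q0.v y x))))
    ?_ ?_ ?_ ?_ ?_ ?_ ?_ ?_ ?_ ?_ ?_ ?_ ?_ ?_ ?_ ?_ ?_ ?_ ?_ ?_ ?_ ?_ ?_ ?_ k1 k3
  · rw [crv0]; rw [c1g_v]
  · exact ecv1q0 x
  · exact ecv2q0 x
  · exact ecv3q0 x
  · exact ecv4q0 hx hx'
  · exact ecv5q0 x
  · exact ecv6q0 x
  · rw [crv7, c3g_v]
  · exact tbF_on ⟨hq, fun _ => on_half (by linarith)⟩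
  · exact tbF_on (onc hq (by decide))
  · exact tbF_on (onc hq (by decide))
  · exact tbF_on (onc hq (by decide))
  · exact tbF_on (onc hq (by decide))
  · exact tbF_on (onc hq (by decide))
  · exact tbF_on (onc hq (by decide))
  · exact tbF_on (onc hq (by decide))
  · intro X
    simp only [rxq0]
    (try split_ifs) <;> first | rfl | ring1
  · intro X g0 g1
    refine lin_of g0 g1 fun L hL hX => ?_
    simp only [l0q0, l1q0, lm0m_v, hL]
    all_goals (clear hL; subst hX; ((try push_cast) <;> (try ring1)))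
  · intro X g0 g1
    refine lin_of g0 g1 fun L hL hX => ?_
    simp only [l1q0, l2q0, lm1m_v, hL]
    all_goals (clear hL; subst hX; ((try push_cast) <;> (try ring1)))
  · intro X g0 g1
    refine lin_of g0 g1 fun L hL hX => ?_
    simp only [l2q0, l3q0, lm2m_v, hL]
    all_goals (clear hL; subst hX; ((try push_cast) <;> (try ring1)))
  · intro X g0 g1
    refine lin_of g0 g1 fun L hL hX => ?_
    simp only [l3q0, l4q0, lm3m_v, hL]
    all_goals (clear hL; subst hX; ((try push_cast) <;> (try ring1)))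
  · intro X g0 g1
    refine lin_of g0 g1 fun L hL hX => ?_
    simp only [l4q0, l5q0, lm4m_v, hL]
    all_goals (clear hL; subst hX; ((try push_cast) <;> (try ring1)))
  · intro X g0 g1
    refine lin_of g0 g1 fun L hL hX => ?_
    simp only [l5q0, l6q0, lm5m_v, hL]
    all_goals (clear hL; subst hX; ((try push_cast) <;> (try ring1)))
  · intro X g0 g1
    refine lin_of g0 g1 fun L hL hX => ?_
    simp only [l6q0, l7q0, lm6m_v, hL]
    all_goals (clear hL; subst hX; ((try push_cast) <;> (try ring1)))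
theorem thL1 {x : ℝ} (hx : 39 / 40 ≤ x) (hx' : x < 1) (h : Pins (PP x) tL x) : ∀ X y, InQ 1 y → 1 ≤ qqn X y → qqn X y ≤ 3 →
    thd (PP x) tL 1 X y x = (pcF 1).L.v X y x := by
  intro X y hq k1 k3
  have hy0 := hq.nonneg
  have hy2 := hq.le_two
  have hyl := hq.1
  have hyr := hq.2
  have hodd : (pcF 1).L.v X y x = if X ≤ 0 then -(lamg.v x * (-X + rxq1.v (-X) y x)) else lamg.v x * (X + rxq1.v X y x) := by
    show rlq1.v X y x = _
    simp only [rlq1]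
    split_ifs <;> ring
  rw [hodd]
  refine third7 h hq (F := fun X => lamg.v x * (X + rxq1.v X y x)) (x0 := c1g.v y) (x1 := cv1m.v y) (x2 := cv2m.v y) (x3 := cv3m.v y) (x4 := cv4m.v y x) (x5 := cv5m.v y) (x6 := cv6m.v y) (x7 := c3g.v y)
    (v0 := l0q1.v y x) (v1 := l1q1.v y x) (v2 := l2q1.v y x) (v3 := l3q1.v y x) (v4 := l4q1.v y x) (v5 := l5q1.v y x) (v6 := l6q1.v y x) (v7 := l7q1.v y x)
    (S0 := fun X => lamg.v x * (X + (xt0q1.v y x + lm0m.v X y * (xt1q1.v y x - xt0q1.v y x)))) (S1 := fun X => lamg.v x * (X + (xt1q1.v y x + lm1m.v X y * (xt2q1.v y x - xt1q1.v y x)))) (S2 := fun X => lamg.v x * (X + (xt2q1.v y x + lm2m.v X y * (xt3q1.v y x - xt2q1.v y x)))) (S3 := fun X => lamg.v x * (X + (xt3q1.v y x + lm3m.v X y x * (xt4q1.v y x - xt3q1.v y x)))) (S4 := fun X => lamg.v x * (X + (xt4q1.v y x + lm4m.v X y x * (xt5q1.v y x - xt4q1.v y x)))) (S5 := fun X => lamg.v x * (X + (xt5q1.v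 y x + lm5m.v X y * (xt6q1.v y x - xt5q1.v y x)))) (S6 := fun X => lamg.v x * (X + (xt6q1.v y x + lm6m.v X y * (xt7q1.v y x - xt6q1.v y x))))
    ?_ ?_ ?_ ?_ ?_ ?_ ?_ ?_ ?_ ?_ ?_ ?_ ?_ ?_ ?_ ?_ ?_ ?_ ?_ ?_ ?_ ?_ ?_ ?_ k1 k3
  · rw [crv0]; rw [c1g_v]
  · exact ecv1q1 x
  · exact ecv2q1 x
  · exact ecv3q1 x
  · exact ecv4q1 hx hx'
  · exact ecv5q1 x
  · exact ecv6q1 x
  · rw [crv7, c3g_v]
  · exact tbF_on ⟨hq, fun _ => on_half (by linarith)⟩
  · exact tbF_on (onc hq (by decide))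
  · exact tbF_on (onc hq (by decide))
  · exact tbF_on (onc hq (by decide))
  · exact tbF_on (onc hq (by decide))
  · exact tbF_on (onc hq (by decide))
  · exact tbF_on (onc hq (by decide))
  · exact tbF_on (onc hq (by decide))
  · intro X
    simp only [rxq1]
    (try split_ifs) <;> first | rfl | ring1
  · intro X g0 g1
    refine lin_of g0 g1 fun L hL hX => ?_
    simp only [l0q1, l1q1, lm0m_v, hL]
    all_goals (clear hL; subst hX; ((try push_cast) <;> (try ring1)))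
  · intro X g0 g1
    refine lin_of g0 g1 fun L hL hX => ?_
    simp only [l1q1, l2q1, lm1m_v, hL]
    all_goals (clear hL; subst hX; ((try push_cast) <;> (try ring1)))
  · intro X g0 g1
    refine lin_of g0 g1 fun L hL hX => ?_
    simp only [l2q1, l3q1, lm2m_v, hL]
    all_goals (clear hL; subst hX; ((try push_cast) <;> (try ring1)))
  · intro X g0 g1
    refine lin_of g0 g1 fun L hL hX => ?_
    simp only [l3q1, l4q1, lm3m_v, hL]
    all_goals (clear hL; subst hX; ((try push_cast) <;> (try ring1)))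
  · intro X g0 g1
    refine lin_of g0 g1 fun L hL hX => ?_
    simp only [l4q1, l5q1, lm4m_v, hL]
    all_goals (clear hL; subst hX; ((try push_cast) <;> (try ring1)))
  · intro X g0 g1
    refine lin_of g0 g1 fun L hL hX => ?_
    simp only [l5q1, l6q1, lm5m_v, hL]
    all_goals (clear hL; subst hX; ((try push_cast) <;> (try ring1)))
  · intro X g0 g1
    refine lin_of g0 g1 fun L hL hX => ?_
    simp only [l6q1, l7q1, lm6m_v, hL]
    all_goals (clear hL; subst hX; ((try push_cast) <;> (try ring1)))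
theorem thL2 {x : ℝ} (hx : 39 / 40 ≤ x) (hx' : x < 1) (h : Pins (PP x) tL x) : ∀ X y, InQ 2 y → 1 ≤ qqn X y → qqn X y ≤ 3 →
    thd (PP x) tL 2 X y x = (pcF 2).L.v X y x := by
  intro X y hq k1 k3
  have hy0 := hq.nonneg
  have hy2 := hq.le_two
  have hyl := hq.1
  have hyr := hq.2
  have hodd : (pcF 2).L.v X y x = if X ≤ 0 then -(lamg.v x * (-X + rxq2.v (-X) y x)) else lamg.v x * (X + rxq2.v X y x) := by
    show rlq2.v X y x = _
    simp only [rlq2]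
    split_ifs <;> ring
  rw [hodd]
  refine third7 h hq (F := fun X => lamg.v x * (X + rxq2.v X y x)) (x0 := c1g.v y) (x1 := cv1p.v y) (x2 := cv2p.v y) (x3 := cv3p.v y) (x4 := cv4p.v y x) (x5 := cv5p.v y) (x6 := cv6p.v y) (x7 := c3g.v y)
    (v0 := l0q2.v y x) (v1 := l1q2.v y x) (v2 := l2q2.v y x) (v3 := l3q2.v y x) (v4 := l4q2.v y x) (v5 := l5q2.v y x) (v6 := l6q2.v y x) (v7 := l7q2.v y x)
    (S0 := fun X => lamg.v x * (X + (xt0q2.v y x + lm0p.v X y * (xt1q2.v y x - xt0q2.v y x)))) (S1 := fun X => lamg.v x * (X + (xt1q2.v y x + lm1p.v X y * (xt2q2.v y x - xt1q2.v y x)))) (S2 := fun X => lamg.v x * (X + (xt2q2.v y x + lm2p.v X y * (xt3q2.v y x - xt2q2.v y x)))) (S3 := fun X => lamg.v x * (X + (xt3q2.v y x + lm3p.v X y x * (xt4q2.v y x - xt3q2.v y x)))) (S4 := fun X => lamg.v x * (X + (xt4q2.v y x + lm4p.v X y x * (xt5q2.v y x - xt4q2.v y x)))) (S5 := fun X => lamg.v x * (X + (xt5q2.v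 y x + lm5p.v X y * (xt6q2.v y x - xt5q2.v y x)))) (S6 := fun X => lamg.v x * (X + (xt6q2.v y x + lm6p.v X y * (xt7q2.v y x - xt6q2.v y x))))
    ?_ ?_ ?_ ?_ ?_ ?_ ?_ ?_ ?_ ?_ ?_ ?_ ?_ ?_ ?_ ?_ ?_ ?_ ?_ ?_ ?_ ?_ ?_ ?_ k1 k3
  · rw [crv0]; rw [c1g_v]
  · exact ecv1q2 x
  · exact ecv2q2 x
  · exact ecv3q2 x
  · exact ecv4q2 hx hx'
  · exact ecv5q2 x
  · exact ecv6q2 x
  · rw [crv7, c3g_v]
  · by_cases on : h0 * y < 1
    · refine (tbF_on ⟨hq, fun _ => on⟩).trans ?_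
      show lc02.v (c1n y) x = l0q2.v y x
      have ya := yag_v hy0 on
      have hc : ¬ ((1 : ℝ) - 3 / 4 * y ^ 2 ≤ 0) := not_le.2 (by have := on_sq hy0 on; linarith)
      simp only [lc02, lc02_7, l0q2, xt0q2, xt0q2_6, ya, c1g_v]
      all_goals ((try push_cast) <;> (try simp only [if_neg hc]) <;> (try ring1))
    · have off : 1 ≤ h0 * y := not_lt.1 on
      have hc : (1 : ℝ) - 3 / 4 * y ^ 2 ≤ 0 := by have := off_sq off; linarith
      refine (tbF_off off).trans ?_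
      simp only [l0q2, xt0q2, xt0q2_6, c1g_v, c1n_off off]
      all_goals ((try push_cast) <;> (try simp only [if_pos hc]) <;> (try ring1))
  · exact tbF_on (onc hq (by decide))
  · exact tbF_on (onc hq (by decide))
  · exact tbF_on (onc hq (by decide))
  · exact tbF_on (onc hq (by decide))
  · exact tbF_on (onc hq (by decide))
  · exact tbF_on (onc hq (by decide))
  · exact tbF_on (onc hq (by decide))
  · intro X
    simp only [rxq2]
    (try split_ifs) <;> first | rfl | ring1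
  · intro X g0 g1
    refine lin_of g0 g1 fun L hL hX => ?_
    simp only [l0q2, l1q2, lm0p_v, hL]
    all_goals (clear hL; subst hX; ((try push_cast) <;> (try ring1)))
  · intro X g0 g1
    refine lin_of g0 g1 fun L hL hX => ?_
    simp only [l1q2, l2q2, lm1p_v, hL]
    all_goals (clear hL; subst hX; ((try push_cast) <;> (try ring1)))
  · intro X g0 g1
    refine lin_of g0 g1 fun L hL hX => ?_
    simp only [l2q2, l3q2, lm2p_v, hL]
    all_goals (clear hL; subst hX; ((try push_cast) <;> (try ring1)))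
  · intro X g0 g1
    refine lin_of g0 g1 fun L hL hX => ?_
    simp only [l3q2, l4q2, lm3p_v, hL]
    all_goals (clear hL; subst hX; ((try push_cast) <;> (try ring1)))
  · intro X g0 g1
    refine lin_of g0 g1 fun L hL hX => ?_
    simp only [l4q2, l5q2, lm4p_v, hL]
    all_goals (clear hL; subst hX; ((try push_cast) <;> (try ring1)))
  · intro X g0 g1
    refine lin_of g0 g1 fun L hL hX => ?_
    simp only [l5q2, l6q2, lm5p_v, hL]
    all_goals (clear hL; subst hX; ((try push_cast) <;> (try ring1)))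
  · intro X g0 g1
    refine lin_of g0 g1 fun L hL hX => ?_
    simp only [l6q2, l7q2, lm6p_v, hL]
    all_goals (clear hL; subst hX; ((try push_cast) <;> (try ring1)))
theorem thL3 {x : ℝ} (hx : 39 / 40 ≤ x) (hx' : x < 1) (h : Pins (PP x) tL x) : ∀ X y, InQ 3 y → 1 ≤ qqn X y → qqn X y ≤ 3 →
    thd (PP x) tL 3 X y x = (pcF 3).L.v X y x := by
  intro X y hq k1 k3
  have hy0 := hq.nonneg
  have hy2 := hq.le_two
  have hyl := hq.1
  have hyr := hq.2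
  have hodd : (pcF 3).L.v X y x = if X ≤ 0 then -(lamg.v x * (-X + rxq3.v (-X) y x)) else lamg.v x * (X + rxq3.v X y x) := by
    show rlq3.v X y x = _
    simp only [rlq3]
    split_ifs <;> ring
  rw [hodd]
  refine third7 h hq (F := fun X => lamg.v x * (X + rxq3.v X y x)) (x0 := 0) (x1 := cv1r.v y) (x2 := cv2r.v y) (x3 := cv3r.v y) (x4 := cv4r.v y x) (x5 := cv5r.v y) (x6 := cv6r.v y) (x7 := c3g.v y)
    (v0 := 0) (v1 := l1q3.v y x) (v2 := l2q3.v y x) (v3 := l3q3.v y x) (v4 := l4q3.v y x) (v5 := l5q3.v y x) (v6 := l6q3.v y x) (v7 := l7q3.v y x)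
    (S0 := fun X => lamg.v x * (X + (0 + lm0r.v X y * (xt1q3.v y x - 0)))) (S1 := fun X => lamg.v x * (X + (xt1q3.v y x + lm1r.v X y * (xt2q3.v y x - xt1q3.v y x)))) (S2 := fun X => lamg.v x * (X + (xt2q3.v y x + lm2r.v X y * (xt3q3.v y x - xt2q3.v y x)))) (S3 := fun X => lamg.v x * (X + (xt3q3.v y x + lm3r.v X y x * (xt4q3.v y x - xt3q3.v y x)))) (S4 := fun X => lamg.v x * (X + (xt4q3.v y x + lm4r.v X y x * (xt5q3.v y x - xt4q3.v y x)))) (S5 := fun X => lamg.v x * (X + (xt5q3.v y x + lm5r.v X y * (xt6q3.v y x - xt5q3.v y x)))) (S6 := fun X => lamg.v x * (X + (xt6q3.v y x + lm6r.v X y * (xt7q3.v y x - xt6q3.v y x))))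
    ?_ ?_ ?_ ?_ ?_ ?_ ?_ ?_ ?_ ?_ ?_ ?_ ?_ ?_ ?_ ?_ ?_ ?_ ?_ ?_ ?_ ?_ ?_ ?_ k1 k3
  · rw [crv0]; exact c1n_off (off_y hyl)
  · exact ecv1q3 x hyl
  · exact ecv2q3 x hyl
  · exact ecv3q3 x hyl
  · exact ecv4q3 hx hx'
  · exact ecv5q3 x hyl
  · exact ecv6q3 x hyl
  · rw [crv7, c3g_v]
  · exact tbF_off (off_y hyl)
  · exact tbF_on (onc hq (by decide))
  · exact tbF_on (onc hq (by decide))
  · exact tbF_on (onc hq (by decide))
  · refine (tbF_on (onc hq (by decide))).trans ?_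
    show lc43.v (c3n y) x = l4q3.v y x
    simp only [lc43, lc43_7, lc43_9, lc43_18, lc43_35, l4q3, xt4q3, xt5q3, xt5q3_3, xt5q3_20, ycg_v hy0 hy2, c3g_v, swg_v, cv4r_v, cv5r_v, cv6r_v]
    all_goals ((try push_cast); (try ring1); (try (split_ifs <;> ring1)))
  · refine (tbF_on (onc hq (by decide))).trans ?_
    show lc53.v (c3n y) x = l5q3.v y x
    simp only [lc53, lc53_10, lc53_12, lc53_29, l5q3, xt5q3, xt5q3_3, xt5q3_20, ycg_v hy0 hy2, c3g_v, swg_v, cv4r_v, cv5r_v, cv6r_v]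
    all_goals ((try push_cast); (try ring1); (try (split_ifs <;> ring1)))
  · refine (tbF_on (onc hq (by decide))).trans ?_
    show lc63.v (c3n y) x = l6q3.v y x
    simp only [lc63, lc63_10, lc63_12, l6q3, xt6q3, xt6q3_3, ycg_v hy0 hy2, c3g_v, swg_v, cv4r_v, cv5r_v, cv6r_v]
    all_goals ((try push_cast); (try ring1); (try (split_ifs <;> ring1)))
  · refine (tbF_on (onc hq (by decide))).trans ?_
    show lc73.v (c3n y) x = l7q3.v y x
    simp only [lc73, lc73_8, lc73_15, l7q3, xt7q3, xt7q3_7, xt7q3_14, ycg_v hy0 hy2, c3g_v, swg_v, cv4r_v, cv5r_v, cv6r_v]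
    all_goals ((try push_cast); (try ring1); (try (split_ifs <;> ring1)))
  · intro X
    simp only [rxq3]
    (try split_ifs) <;> first | rfl | ring1
  · intro X g0 g1
    refine lin_of g0 g1 fun L hL hX => ?_
    simp only [l1q3, lm0r_v, hL]
    all_goals (clear hL; subst hX; ((try push_cast) <;> (try ring1)))
  · intro X g0 g1
    refine lin_of g0 g1 fun L hL hX => ?_
    simp only [l1q3, l2q3, lm1r_v, hL]
    all_goals (clear hL; subst hX; ((try push_cast) <;> (try ring1)))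
  · intro X g0 g1
    refine lin_of g0 g1 fun L hL hX => ?_
    simp only [l2q3, l3q3, lm2r_v, hL]
    all_goals (clear hL; subst hX; ((try push_cast) <;> (try ring1)))
  · intro X g0 g1
    refine lin_of g0 g1 fun L hL hX => ?_
    simp only [l3q3, l4q3, lm3r_v, hL]
    all_goals (clear hL; subst hX; ((try push_cast) <;> (try ring1)))
  · intro X g0 g1
    refine lin_of g0 g1 fun L hL hX => ?_
    simp only [l4q3, l5q3, lm4r_v, hL]
    all_goals (clear hL; subst hX; ((try push_cast) <;> (try ring1)))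
  · intro X g0 g1
    refine lin_of g0 g1 fun L hL hX => ?_
    simp only [l5q3, l6q3, lm5r_v, hL]
    all_goals (clear hL; subst hX; ((try push_cast) <;> (try ring1)))
  · intro X g0 g1
    refine lin_of g0 g1 fun L hL hX => ?_
    simp only [l6q3, l7q3, lm6r_v, hL]
    all_goals (clear hL; subst hX; ((try push_cast) <;> (try ring1)))
theorem pinKF {x : ℝ} (hx : 39 / 40 ≤ x) (hx' : x < 1) : Pins (PP x) tKF x :=
  pins_of (fn := fun j q => (ndF j q).K) (pzeroKF hx') (pmidKF hx') (ptopKF hx') (bddKF hx hx')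
theorem thKF {x : ℝ} (hx : 39 / 40 ≤ x) (hx' : x < 1) : ∀ q X y, InQ q y → 1 ≤ qqn X y → qqn X y ≤ 3 →
    thd (PP x) tKF q X y x = (pcF q).K.v X y x
  | 0 => thKF0 hx hx' (pinKF hx hx')
  | 1 => thKF1 hx hx' (pinKF hx hx')
  | 2 => thKF2 hx hx' (pinKF hx hx')
  | 3 => thKF3 hx hx' (pinKF hx hx')
  | _ + 4 => fun _ _ h => h.elim
theorem virKF {x : ℝ} (hx : 39 / 40 ≤ x) (hx' : x < 1) : ∀ (j : Fin 8) q y, InQ q y → y < 2 → ¬rl x j y → ∃ i k : Fin 8, i < j ∧ j < k ∧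
    ((PP x).ρ k ≤ 1 ∨ 1 ≤ (PP x).ρ i) ∧ rl x i y ∧ rl x k y ∧ (∀ l, i < l → l < k → ¬rl x l y) ∧
      tKF j q y x * ((PP x).ρ k - (PP x).ρ i) =
        tKF i q y x * ((PP x).ρ k - (PP x).ρ j) + tKF k q y x * ((PP x).ρ j - (PP x).ρ i) := by
  intro j q y hq hy hr
  have hy0 := hq.nonneg
  fin_cases j
  · exact absurd trivial hr
  · have hr' : ¬((1 / 16 < y ∧ y < 1) ∨ (17 / 16 < y ∧ y ≤ 31 / 16)) := hr
    refine ⟨0, 3, by decide, by decide, Or.inl le_rfl, trivial, trivial, ?_, ?_⟩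
    · intro l h1 h2
      have : l = 1 ∨ l = 2 := by
        revert h1 h2
        revert l
        decide
      rcases this with rfl | rfl <;> exact hr
    · match q, hq with
      | 0, hq => exact viKF1003 hx hx' hq (by by_contra h; exact hr' (Or.inl ⟨not_le.1 h, by linarith [hq.2]⟩))
      | 1, hq => exact absurd (Or.inl ⟨by linarith [hq.1], hq.2⟩) hr'
      | 2, hq => exact viKF1203 hx hx' hq (by by_contra h; exact hr' (Or.inr ⟨not_le.1 h, by linarith [hq.2]⟩))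
      | 3, hq => exact viKF1303 hx hx' hq (by by_contra h; exact hr' (Or.inr ⟨by linarith [hq.1], not_lt.1 h⟩))
      | _ + 4, hq => exact hq.elim
  · have hr' : ¬((1 / 16 < y ∧ y < 1) ∨ (17 / 16 < y ∧ y ≤ 31 / 16)) := hr
    refine ⟨0, 3, by decide, by decide, Or.inl le_rfl, trivial, trivial, ?_, ?_⟩
    · intro l h1 h2
      have : l = 1 ∨ l = 2 := by
        revert h1 h2
        revert l
        decide
      rcases this with rfl | rfl <;> exact hr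
    · match q, hq with
      | 0, hq => exact viKF2003 hx hx' hq (by by_contra h; exact hr' (Or.inl ⟨not_le.1 h, by linarith [hq.2]⟩))
      | 1, hq => exact absurd (Or.inl ⟨by linarith [hq.1], hq.2⟩) hr'
      | 2, hq => exact viKF2203 hx hx' hq (by by_contra h; exact hr' (Or.inr ⟨not_le.1 h, by linarith [hq.2]⟩))
      | 3, hq => exact viKF2303 hx hx' hq (by by_contra h; exact hr' (Or.inr ⟨by linarith [hq.1], not_lt.1 h⟩))
      | _ + 4, hq => exact hq.elim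
  · exact absurd trivial hr
  · have hr' : ¬(y ≤ 1 / 16) := hr
    have g : 1 / 16 < y := not_le.1 hr'
    by_cases h5 : y ≤ 15 / 16 ∨ 1 ≤ y
    · refine ⟨3, 5, by decide, by decide, Or.inr le_rfl, trivial, h5, ?_, ?_⟩
      · intro l h1 h2
        have : l = 4 := by
          revert h1 h2
          revert l
          decide
        rw [this]
        exact hr
      · match q, hq with
        | 0, hq => exact viKF4035 hx hx' hq g
        | 1, hq => exact viKF4135 hx hx' hq (h5.elim id fun h => absurd hq.2 (not_lt.2 h))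
        | 2, hq => exact viKF4235 hx hx' hq
        | 3, hq => exact viKF4335 hx hx' hq
        | _ + 4, hq => exact hq.elim
    · refine ⟨3, 7, by decide, by decide, Or.inr le_rfl, trivial, trivial, ?_, ?_⟩
      · intro l h1 h2
        have : l = 4 ∨ l = 5 ∨ l = 6 := by
          revert h1 h2
          revert l
          decide
        rcases this with rfl | rfl | rfl
        · exact hr
        · exact h5
        · exact h5
      · push Not at h5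
        match q, hq with
        | 0, hq => exact absurd h5.1 (by linarith [hq.2])
        | 1, hq => exact viKF4137 hx hx' hq h5.1
        | 2, hq => exact absurd h5.2 (not_lt.2 hq.1)
        | 3, hq => exact absurd h5.2 (by linarith [hq.1])
        | _ + 4, hq => exact hq.elim
  · have h5 : ¬(y ≤ 15 / 16 ∨ 1 ≤ y) := hr
    refine ⟨3, 7, by decide, by decide, Or.inr le_rfl, trivial, trivial, ?_, ?_⟩
    · intro l h1 h2
      have : l = 4 ∨ l = 5 ∨ l = 6 := by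
        revert h1 h2
        revert l
        decide
      rcases this with rfl | rfl | rfl
      · show ¬(y ≤ 1 / 16)
        push Not at h5 ⊢
        linarith [h5.1]
      · exact h5
      · exact h5
    · push Not at h5
      match q, hq with
      | 0, hq => exact absurd h5.1 (by linarith [hq.2])
      | 1, hq => exact viKF5137 hx hx' hq h5.1
      | 2, hq => exact absurd h5.2 (not_lt.2 hq.1)
      | 3, hq => exact absurd h5.2 (by linarith [hq.1])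
      | _ + 4, hq => exact hq.elim
  · have h5 : ¬(y ≤ 15 / 16 ∨ 1 ≤ y) := hr
    refine ⟨3, 7, by decide, by decide, Or.inr le_rfl, trivial, trivial, ?_, ?_⟩
    · intro l h1 h2
      have : l = 4 ∨ l = 5 ∨ l = 6 := by
        revert h1 h2
        revert l
        decide
      rcases this with rfl | rfl | rfl
      · show ¬(y ≤ 1 / 16)
        push Not at h5 ⊢
        linarith [h5.1]
      · exact h5
      · exact h5
    · push Not at h5
      match q, hq with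
      | 0, hq => exact absurd h5.1 (by linarith [hq.2])
      | 1, hq => exact viKF6137 hx hx' hq h5.1
      | 2, hq => exact absurd h5.2 (not_lt.2 hq.1)
      | 3, hq => exact absurd h5.2 (by linarith [hq.1])
      | _ + 4, hq => exact hq.elim
  · exact absurd trivial hr
theorem pvKF {x : ℝ} (hx : 39 / 40 ≤ x) (hx' : x < 1) : PinsV (DD x) tKF x := ⟨pinKF hx hx', virKF hx hx'⟩
theorem pinKN {x : ℝ} (hx : 39 / 40 ≤ x) (hx' : x < 1) : Pins (PP x) tKN x :=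
  pins_of (fn := fun j q => (ndN j q).K) (pzeroKN hx') (pmidKN hx') (ptopKN hx') (bddKN hx hx')
theorem thKN {x : ℝ} (hx : 39 / 40 ≤ x) (hx' : x < 1) : ∀ q X y, InQ q y → 1 ≤ qqn X y → qqn X y ≤ 3 →
    thd (PP x) tKN q X y x = (pcN q).K.v X y x
  | 0 => thKN0 hx hx' (pinKN hx hx')
  | 1 => thKN1 hx hx' (pinKN hx hx')
  | 2 => thKN2 hx hx' (pinKN hx hx')
  | 3 => thKN3 hx hx' (pinKN hx hx')
  | _ + 4 => fun _ _ h => h.elim
theorem virKN {x : ℝ} (hx : 39 / 40 ≤ x) (hx' : x < 1) : ∀ (j : Fin 8) q y, InQ q y → y < 2 → ¬rl x j y → ∃ i k : Fin 8, i < j ∧ j < k ∧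
    ((PP x).ρ k ≤ 1 ∨ 1 ≤ (PP x).ρ i) ∧ rl x i y ∧ rl x k y ∧ (∀ l, i < l → l < k → ¬rl x l y) ∧
      tKN j q y x * ((PP x).ρ k - (PP x).ρ i) =
        tKN i q y x * ((PP x).ρ k - (PP x).ρ j) + tKN k q y x * ((PP x).ρ j - (PP x).ρ i) := by
  intro j q y hq hy hr
  have hy0 := hq.nonneg
  fin_cases j
  · exact absurd trivial hr
  · have hr' : ¬((1 / 16 < y ∧ y < 1) ∨ (17 / 16 < y ∧ y ≤ 31 / 16)) := hr
    refine ⟨0, 3, by decide, by decide, Or.inl le_rfl, trivial, trivial, ?_, ?_⟩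
    · intro l h1 h2
      have : l = 1 ∨ l = 2 := by
        revert h1 h2
        revert l
        decide
      rcases this with rfl | rfl <;> exact hr
    · match q, hq with
      | 0, hq => exact viKN1003 hx hx' hq (by by_contra h; exact hr' (Or.inl ⟨not_le.1 h, by linarith [hq.2]⟩))
      | 1, hq => exact absurd (Or.inl ⟨by linarith [hq.1], hq.2⟩) hr'
      | 2, hq => exact viKN1203 hx hx' hq (by by_contra h; exact hr' (Or.inr ⟨not_le.1 h, by linarith [hq.2]⟩))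
      | 3, hq => exact viKN1303 hx hx' hq (by by_contra h; exact hr' (Or.inr ⟨by linarith [hq.1], not_lt.1 h⟩))
      | _ + 4, hq => exact hq.elim
  · have hr' : ¬((1 / 16 < y ∧ y < 1) ∨ (17 / 16 < y ∧ y ≤ 31 / 16)) := hr
    refine ⟨0, 3, by decide, by decide, Or.inl le_rfl, trivial, trivial, ?_, ?_⟩
    · intro l h1 h2
      have : l = 1 ∨ l = 2 := by
        revert h1 h2
        revert l
        decide
      rcases this with rfl | rfl <;> exact hr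
    · match q, hq with
      | 0, hq => exact viKN2003 hx hx' hq (by by_contra h; exact hr' (Or.inl ⟨not_le.1 h, by linarith [hq.2]⟩))
      | 1, hq => exact absurd (Or.inl ⟨by linarith [hq.1], hq.2⟩) hr'
      | 2, hq => exact viKN2203 hx hx' hq (by by_contra h; exact hr' (Or.inr ⟨not_le.1 h, by linarith [hq.2]⟩))
      | 3, hq => exact viKN2303 hx hx' hq (by by_contra h; exact hr' (Or.inr ⟨by linarith [hq.1], not_lt.1 h⟩))
      | _ + 4, hq => exact hq.elim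
  · exact absurd trivial hr
  · have hr' : ¬(y ≤ 1 / 16) := hr
    have g : 1 / 16 < y := not_le.1 hr'
    by_cases h5 : y ≤ 15 / 16 ∨ 1 ≤ y
    · refine ⟨3, 5, by decide, by decide, Or.inr le_rfl, trivial, h5, ?_, ?_⟩
      · intro l h1 h2
        have : l = 4 := by
          revert h1 h2
          revert l
          decide
        rw [this]
        exact hr
      · match q, hq with
        | 0, hq => exact viKN4035 hx hx' hq g
        | 1, hq => exact viKN4135 hx hx' hq (h5.elim id fun h => absurd hq.2 (not_lt.2 h))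
        | 2, hq => exact viKN4235 hx hx' hq
        | 3, hq => exact viKN4335 hx hx' hq
        | _ + 4, hq => exact hq.elim
    · refine ⟨3, 7, by decide, by decide, Or.inr le_rfl, trivial, trivial, ?_, ?_⟩
      · intro l h1 h2
        have : l = 4 ∨ l = 5 ∨ l = 6 := by
          revert h1 h2
          revert l
          decide
        rcases this with rfl | rfl | rfl
        · exact hr
        · exact h5
        · exact h5
      · push Not at h5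
        match q, hq with
        | 0, hq => exact absurd h5.1 (by linarith [hq.2])
        | 1, hq => exact viKN4137 hx hx' hq h5.1
        | 2, hq => exact absurd h5.2 (not_lt.2 hq.1)
        | 3, hq => exact absurd h5.2 (by linarith [hq.1])
        | _ + 4, hq => exact hq.elim
  · have h5 : ¬(y ≤ 15 / 16 ∨ 1 ≤ y) := hr
    refine ⟨3, 7, by decide, by decide, Or.inr le_rfl, trivial, trivial, ?_, ?_⟩
    · intro l h1 h2
      have : l = 4 ∨ l = 5 ∨ l = 6 := by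
        revert h1 h2
        revert l
        decide
      rcases this with rfl | rfl | rfl
      · show ¬(y ≤ 1 / 16)
        push Not at h5 ⊢
        linarith [h5.1]
      · exact h5
      · exact h5
    · push Not at h5
      match q, hq with
      | 0, hq => exact absurd h5.1 (by linarith [hq.2])
      | 1, hq => exact viKN5137 hx hx' hq h5.1
      | 2, hq => exact absurd h5.2 (not_lt.2 hq.1)
      | 3, hq => exact absurd h5.2 (by linarith [hq.1])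
      | _ + 4, hq => exact hq.elim
  · have h5 : ¬(y ≤ 15 / 16 ∨ 1 ≤ y) := hr
    refine ⟨3, 7, by decide, by decide, Or.inr le_rfl, trivial, trivial, ?_, ?_⟩
    · intro l h1 h2
      have : l = 4 ∨ l = 5 ∨ l = 6 := by
        revert h1 h2
        revert l
        decide
      rcases this with rfl | rfl | rfl
      · show ¬(y ≤ 1 / 16)
        push Not at h5 ⊢
        linarith [h5.1]
      · exact h5
      · exact h5
    · push Not at h5
      match q, hq with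
      | 0, hq => exact absurd h5.1 (by linarith [hq.2])
      | 1, hq => exact viKN6137 hx hx' hq h5.1
      | 2, hq => exact absurd h5.2 (not_lt.2 hq.1)
      | 3, hq => exact absurd h5.2 (by linarith [hq.1])
      | _ + 4, hq => exact hq.elim
  · exact absurd trivial hr
theorem pvKN {x : ℝ} (hx : 39 / 40 ≤ x) (hx' : x < 1) : PinsV (DD x) tKN x := ⟨pinKN hx hx', virKN hx hx'⟩
theorem pinL {x : ℝ} (hx : 39 / 40 ≤ x) (hx' : x < 1) : Pins (PP x) tL x :=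
  pins_of (fn := fun j q => (ndF j q).L) (pzeroL hx') (pmidL hx') (ptopL hx') (bddL hx hx')
theorem thL {x : ℝ} (hx : 39 / 40 ≤ x) (hx' : x < 1) : ∀ q X y, InQ q y → 1 ≤ qqn X y → qqn X y ≤ 3 →
    thd (PP x) tL q X y x = (pcF q).L.v X y x
  | 0 => thL0 hx hx' (pinL hx hx')
  | 1 => thL1 hx hx' (pinL hx hx')
  | 2 => thL2 hx hx' (pinL hx hx')
  | 3 => thL3 hx hx' (pinL hx hx')
  | _ + 4 => fun _ _ h => h.elim
theorem virL {x : ℝ} (hx : 39 / 40 ≤ x) (hx' : x < 1) : ∀ (j : Fin 8) q y, InQ q y → y < 2 → ¬rl x j y → ∃ i k : Fin 8, i < j ∧ j < k ∧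
    ((PP x).ρ k ≤ 1 ∨ 1 ≤ (PP x).ρ i) ∧ rl x i y ∧ rl x k y ∧ (∀ l, i < l → l < k → ¬rl x l y) ∧
      tL j q y x * ((PP x).ρ k - (PP x).ρ i) =
        tL i q y x * ((PP x).ρ k - (PP x).ρ j) + tL k q y x * ((PP x).ρ j - (PP x).ρ i) := by
  intro j q y hq hy hr
  have hy0 := hq.nonneg
  fin_cases j
  · exact absurd trivial hr
  · have hr' : ¬((1 / 16 < y ∧ y < 1) ∨ (17 / 16 < y ∧ y ≤ 31 / 16)) := hr
    refine ⟨0, 3, by decide, by decide, Or.inl le_rfl, trivial, trivial, ?_, ?_⟩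
    · intro l h1 h2
      have : l = 1 ∨ l = 2 := by
        revert h1 h2
        revert l
        decide
      rcases this with rfl | rfl <;> exact hr
    · match q, hq with
      | 0, hq => exact viL1003 hx hx' hq (by by_contra h; exact hr' (Or.inl ⟨not_le.1 h, by linarith [hq.2]⟩))
      | 1, hq => exact absurd (Or.inl ⟨by linarith [hq.1], hq.2⟩) hr'
      | 2, hq => exact viL1203 hx hx' hq (by by_contra h; exact hr' (Or.inr ⟨not_le.1 h, by linarith [hq.2]⟩))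
      | 3, hq => exact viL1303 hx hx' hq (by by_contra h; exact hr' (Or.inr ⟨by linarith [hq.1], not_lt.1 h⟩))
      | _ + 4, hq => exact hq.elim
  · have hr' : ¬((1 / 16 < y ∧ y < 1) ∨ (17 / 16 < y ∧ y ≤ 31 / 16)) := hr
    refine ⟨0, 3, by decide, by decide, Or.inl le_rfl, trivial, trivial, ?_, ?_⟩
    · intro l h1 h2
      have : l = 1 ∨ l = 2 := by
        revert h1 h2
        revert l
        decide
      rcases this with rfl | rfl <;> exact hr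
    · match q, hq with
      | 0, hq => exact viL2003 hx hx' hq (by by_contra h; exact hr' (Or.inl ⟨not_le.1 h, by linarith [hq.2]⟩))
      | 1, hq => exact absurd (Or.inl ⟨by linarith [hq.1], hq.2⟩) hr'
      | 2, hq => exact viL2203 hx hx' hq (by by_contra h; exact hr' (Or.inr ⟨not_le.1 h, by linarith [hq.2]⟩))
      | 3, hq => exact viL2303 hx hx' hq (by by_contra h; exact hr' (Or.inr ⟨by linarith [hq.1], not_lt.1 h⟩))
      | _ + 4, hq => exact hq.elim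
  · exact absurd trivial hr
  · have hr' : ¬(y ≤ 1 / 16) := hr
    have g : 1 / 16 < y := not_le.1 hr'
    by_cases h5 : y ≤ 15 / 16 ∨ 1 ≤ y
    · refine ⟨3, 5, by decide, by decide, Or.inr le_rfl, trivial, h5, ?_, ?_⟩
      · intro l h1 h2
        have : l = 4 := by
          revert h1 h2
          revert l
          decide
        rw [this]
        exact hr
      · match q, hq with
        | 0, hq => exact viL4035 hx hx' hq g
        | 1, hq => exact viL4135 hx hx' hq (h5.elim id fun h => absurd hq.2 (not_lt.2 h))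
        | 2, hq => exact viL4235 hx hx' hq
        | 3, hq => exact viL4335 hx hx' hq
        | _ + 4, hq => exact hq.elim
    · refine ⟨3, 7, by decide, by decide, Or.inr le_rfl, trivial, trivial, ?_, ?_⟩
      · intro l h1 h2
        have : l = 4 ∨ l = 5 ∨ l = 6 := by
          revert h1 h2
          revert l
          decide
        rcases this with rfl | rfl | rfl
        · exact hr
        · exact h5
        · exact h5
      · push Not at h5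
        match q, hq with
        | 0, hq => exact absurd h5.1 (by linarith [hq.2])
        | 1, hq => exact viL4137 hx hx' hq h5.1
        | 2, hq => exact absurd h5.2 (not_lt.2 hq.1)
        | 3, hq => exact absurd h5.2 (by linarith [hq.1])
        | _ + 4, hq => exact hq.elim
  · have h5 : ¬(y ≤ 15 / 16 ∨ 1 ≤ y) := hr
    refine ⟨3, 7, by decide, by decide, Or.inr le_rfl, trivial, trivial, ?_, ?_⟩
    · intro l h1 h2
      have : l = 4 ∨ l = 5 ∨ l = 6 := by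
        revert h1 h2
        revert l
        decide
      rcases this with rfl | rfl | rfl
      · show ¬(y ≤ 1 / 16)
        push Not at h5 ⊢
        linarith [h5.1]
      · exact h5
      · exact h5
    · push Not at h5
      match q, hq with
      | 0, hq => exact absurd h5.1 (by linarith [hq.2])
      | 1, hq => exact viL5137 hx hx' hq h5.1
      | 2, hq => exact absurd h5.2 (not_lt.2 hq.1)
      | 3, hq => exact absurd h5.2 (by linarith [hq.1])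
      | _ + 4, hq => exact hq.elim
  · have h5 : ¬(y ≤ 15 / 16 ∨ 1 ≤ y) := hr
    refine ⟨3, 7, by decide, by decide, Or.inr le_rfl, trivial, trivial, ?_, ?_⟩
    · intro l h1 h2
      have : l = 4 ∨ l = 5 ∨ l = 6 := by
        revert h1 h2
        revert l
        decide
      rcases this with rfl | rfl | rfl
      · show ¬(y ≤ 1 / 16)
        push Not at h5 ⊢
        linarith [h5.1]
      · exact h5
      · exact h5
    · push Not at h5
      match q, hq with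
      | 0, hq => exact absurd h5.1 (by linarith [hq.2])
      | 1, hq => exact viL6137 hx hx' hq h5.1
      | 2, hq => exact absurd h5.2 (not_lt.2 hq.1)
      | 3, hq => exact absurd h5.2 (by linarith [hq.1])
      | _ + 4, hq => exact hq.elim
  · exact absurd trivial hr
theorem pvL {x : ℝ} (hx : 39 / 40 ≤ x) (hx' : x < 1) : PinsV (DD x) tL x := ⟨pinL hx hx', virL hx hx'⟩
theorem sideF {x : ℝ} (hx : 39 / 40 ≤ x) (hx' : x < 1) : SideV (DD x) tKF tL pcF x :=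
  ⟨pvKF hx hx', pvL hx hx', thKF hx hx', thL hx hx'⟩
theorem sideN {x : ℝ} (hx : 39 / 40 ≤ x) (hx' : x < 1) : SideV (DD x) tKN tL pcN x := by
  refine ⟨pvKN hx hx', pvL hx hx', thKN hx hx', ?_⟩
  intro q X y hq k1 k3
  refine (thL hx hx' q X y hq k1 k3).trans ?_
  match q, hq with
  | 0, _ => rfl
  | 1, _ => rfl
  | 2, _ => rfl
  | 3, _ => rfl
  | _ + 4, h => exact h.elim
theorem atF00 {y x : ℝ} (hx : 39 / 40 ≤ x) (hx' : x < 1) (h : OnC (0 : Fin 8) 0 y) : AtX (PP x) tKF tL ndF0q0 0 0 y (y) x :=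
  atX_main (nFY0 0) (nFX0 hx hx' 0) rfl rfl h
theorem covF00 {x : ℝ} (hx : 39 / 40 ≤ x) (hx' : x < 1) : CovX (PP x) tKF tL ndF0q0 0 0 0 536870912 (rl x 0) x :=
  covX_main (nFY0 0) (nFX0 hx hx' 0) rfl rfl (rx00 hx)
theorem atF01 {y x : ℝ} (hx : 39 / 40 ≤ x) (hx' : x < 1) (h : OnC (0 : Fin 8) 1 y) : AtX (PP x) tKF tL ndF0q1 0 1 y (y) x :=
  atX_main (nFY0 1) (nFX0 hx hx' 1) rfl rfl h
theorem covF01 {x : ℝ} (hx : 39 / 40 ≤ x) (hx' : x < 1) : CovX (PP x) tKF tL ndF0q1 0 1 536870912 536870912 (rl x 0) x :=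
  covX_main (nFY0 1) (nFX0 hx hx' 1) rfl rfl (rx01 hx)
theorem atF02 {y x : ℝ} (hx : 39 / 40 ≤ x) (hx' : x < 1) (h : OnC (0 : Fin 8) 2 y) : AtX (PP x) tKF tL ndF0q2 0 2 y (c1n y) x :=
  atX_main (nFY0 2) (nFX0 hx hx' 2) rfl rfl h
theorem covF02 {x : ℝ} (hx : 39 / 40 ≤ x) (hx' : x < 1) : CovX (PP x) tKF tL ndF0q2 0 2 0 536870912 (rl x 0) x :=
  covX_main (nFY0 2) (nFX0 hx hx' 2) rfl rfl (rx02 hx)
theorem atF10 {y x : ℝ} (hx : 39 / 40 ≤ x) (hx' : x < 1) (h : OnC (1 : Fin 8) 0 y) : AtX (PP x) tKF tL ndF1q0 1 0 y (y) x :=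
  atX_main (nFY1 0) (nFX1 hx hx' 0) rfl rfl h
theorem covF10 {x : ℝ} (hx : 39 / 40 ≤ x) (hx' : x < 1) : CovX (PP x) tKF tL ndF1q0 1 0 67108864 469762048 (rl x 1) x :=
  covX_main (nFY1 0) (nFX1 hx hx' 0) rfl rfl (rx10 hx)
theorem atF11 {y x : ℝ} (hx : 39 / 40 ≤ x) (hx' : x < 1) (h : OnC (1 : Fin 8) 1 y) : AtX (PP x) tKF tL ndF1q1 1 1 y (y) x :=
  atX_main (nFY1 1) (nFX1 hx hx' 1) rfl rfl h
theorem covF11 {x : ℝ} (hx : 39 / 40 ≤ x) (hx' : x < 1) : CovX (PP x) tKF tL ndF1q1 1 1 536870912 536870912 (rl x 1) x :=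
  covX_main (nFY1 1) (nFX1 hx hx' 1) rfl rfl (rx11 hx)
theorem atF12 {y x : ℝ} (hx : 39 / 40 ≤ x) (hx' : x < 1) (h : OnC (1 : Fin 8) 2 y) : AtX (PP x) tKF tL ndF1q2 1 2 y (y) x :=
  atX_main (nFY1 2) (nFX1 hx hx' 2) rfl rfl h
theorem atF13 {y x : ℝ} (hx : 39 / 40 ≤ x) (hx' : x < 1) (h : OnC (1 : Fin 8) 3 y) : AtX (PP x) tKF tL ndF1q3 1 3 y (y) x :=
  atX_main (nFY1 3) (nFX1 hx hx' 3) rfl rfl h
theorem covF13 {x : ℝ} (hx : 39 / 40 ≤ x) (hx' : x < 1) : CovX (PP x) tKF tL ndF1q3 1 3 1610612736 469762048 (rl x 1) x :=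
  covX_main (nFY1 3) (nFX1 hx hx' 3) rfl rfl (rx13 hx)
theorem atF20 {y x : ℝ} (hx : 39 / 40 ≤ x) (hx' : x < 1) (h : OnC (2 : Fin 8) 0 y) : AtX (PP x) tKF tL ndF2q0 2 0 y (y) x :=
  atX_main (nFY2 0) (nFX2 hx hx' 0) rfl rfl h
theorem covF20 {x : ℝ} (hx : 39 / 40 ≤ x) (hx' : x < 1) : CovX (PP x) tKF tL ndF2q0 2 0 67108864 469762048 (rl x 2) x :=
  covX_main (nFY2 0) (nFX2 hx hx' 0) rfl rfl (rx20 hx)
theorem atF21 {y x : ℝ} (hx : 39 / 40 ≤ x) (hx' : x < 1) (h : OnC (2 : Fin 8) 1 y) : AtX (PP x) tKF tL ndF2q1 2 1 y (y) x :=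
  atX_main (nFY2 1) (nFX2 hx hx' 1) rfl rfl h
theorem covF21 {x : ℝ} (hx : 39 / 40 ≤ x) (hx' : x < 1) : CovX (PP x) tKF tL ndF2q1 2 1 536870912 536870912 (rl x 2) x :=
  covX_main (nFY2 1) (nFX2 hx hx' 1) rfl rfl (rx21 hx)
theorem atF22 {y x : ℝ} (hx : 39 / 40 ≤ x) (hx' : x < 1) (h : OnC (2 : Fin 8) 2 y) : AtX (PP x) tKF tL ndF2q2 2 2 y (y) x :=
  atX_main (nFY2 2) (nFX2 hx hx' 2) rfl rfl h
theorem atF23 {y x : ℝ} (hx : 39 / 40 ≤ x) (hx' : x < 1) (h : OnC (2 : Fin 8) 3 y) : AtX (PP x) tKF tL ndF2q3 2 3 y (y) x :=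
  atX_main (nFY2 3) (nFX2 hx hx' 3) rfl rfl h
theorem covF23 {x : ℝ} (hx : 39 / 40 ≤ x) (hx' : x < 1) : CovX (PP x) tKF tL ndF2q3 2 3 1610612736 469762048 (rl x 2) x :=
  covX_main (nFY2 3) (nFX2 hx hx' 3) rfl rfl (rx23 hx)
theorem atF30 {y x : ℝ} (hx : 39 / 40 ≤ x) (hx' : x < 1) (h : OnC (3 : Fin 8) 0 y) : AtX (PP x) tKF tL ndF3q0 3 0 y (y) x :=
  atX_main (nFY3 0) (nFX3 hx hx' 0) rfl rfl h
theorem covF30 {x : ℝ} (hx : 39 / 40 ≤ x) (hx' : x < 1) : CovX (PP x) tKF tL ndF3q0 3 0 0 536870912 (rl x 3) x :=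
  covX_main (nFY3 0) (nFX3 hx hx' 0) rfl rfl (rx30 hx)
theorem atF31 {y x : ℝ} (hx : 39 / 40 ≤ x) (hx' : x < 1) (h : OnC (3 : Fin 8) 1 y) : AtX (PP x) tKF tL ndF3q1 3 1 y (y) x :=
  atX_main (nFY3 1) (nFX3 hx hx' 1) rfl rfl h
theorem covF31 {x : ℝ} (hx : 39 / 40 ≤ x) (hx' : x < 1) : CovX (PP x) tKF tL ndF3q1 3 1 536870912 536870912 (rl x 3) x :=
  covX_main (nFY3 1) (nFX3 hx hx' 1) rfl rfl (rx31 hx)
theorem atF32 {y x : ℝ} (hx : 39 / 40 ≤ x) (hx' : x < 1) (h : OnC (3 : Fin 8) 2 y) : AtX (PP x) tKF tL ndF3q2 3 2 y (y) x :=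
  atX_main (nFY3 2) (nFX3 hx hx' 2) rfl rfl h
theorem covF32 {x : ℝ} (hx : 39 / 40 ≤ x) (hx' : x < 1) : CovX (PP x) tKF tL ndF3q2 3 2 1073741824 536870912 (rl x 3) x :=
  covX_main (nFY3 2) (nFX3 hx hx' 2) rfl rfl (rx32 hx)
theorem atF33 {y x : ℝ} (hx : 39 / 40 ≤ x) (hx' : x < 1) (h : OnC (3 : Fin 8) 3 y) : AtX (PP x) tKF tL ndF3q3 3 3 y (y) x :=
  atX_main (nFY3 3) (nFX3 hx hx' 3) rfl rfl h
theorem covF33 {x : ℝ} (hx : 39 / 40 ≤ x) (hx' : x < 1) : CovX (PP x) tKF tL ndF3q3 3 3 1610612736 536870912 (rl x 3) x :=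
  covX_main (nFY3 3) (nFX3 hx hx' 3) rfl rfl (rx33 hx)
theorem atF40 {y x : ℝ} (hx : 39 / 40 ≤ x) (hx' : x < 1) (h : OnC (4 : Fin 8) 0 y) : AtX (PP x) tKF tL ndF4q0 4 0 y (y) x :=
  atX_main (nFY4 0) (nFX4 hx hx' 0) rfl rfl h
theorem covF40 {x : ℝ} (hx : 39 / 40 ≤ x) (hx' : x < 1) : CovX (PP x) tKF tL ndF4q0 4 0 0 67108864 (rl x 4) x :=
  covX_main (nFY4 0) (nFX4 hx hx' 0) rfl rfl (rx40 hx)
theorem atF41 {y x : ℝ} (hx : 39 / 40 ≤ x) (hx' : x < 1) (h : OnC (4 : Fin 8) 1 y) : AtX (PP x) tKF tL ndF4q1 4 1 y (y) x :=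
  atX_main (nFY4 1) (nFX4 hx hx' 1) rfl rfl h
theorem atF42 {y x : ℝ} (hx : 39 / 40 ≤ x) (hx' : x < 1) (h : OnC (4 : Fin 8) 2 y) : AtX (PP x) tKF tL ndF4q2 4 2 y (y) x :=
  atX_main (nFY4 2) (nFX4 hx hx' 2) rfl rfl h
theorem atF43 {y x : ℝ} (hx : 39 / 40 ≤ x) (hx' : x < 1) (h : OnC (4 : Fin 8) 3 y) : AtX (PP x) tKF tL ndF4q3 4 3 y (c3n y) x :=
  atX_main (nFY4 3) (nFX4 hx hx' 3) rfl rfl h
theorem atF50 {y x : ℝ} (hx : 39 / 40 ≤ x) (hx' : x < 1) (h : OnC (5 : Fin 8) 0 y) : AtX (PP x) tKF tL ndF5q0 5 0 y (y) x :=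
  atX_main (nFY5 0) (nFX5 hx hx' 0) rfl rfl h
theorem covF50 {x : ℝ} (hx : 39 / 40 ≤ x) (hx' : x < 1) : CovX (PP x) tKF tL ndF5q0 5 0 0 536870912 (rl x 5) x :=
  covX_main (nFY5 0) (nFX5 hx hx' 0) rfl rfl (rx50 hx)
theorem atF51 {y x : ℝ} (hx : 39 / 40 ≤ x) (hx' : x < 1) (h : OnC (5 : Fin 8) 1 y) : AtX (PP x) tKF tL ndF5q1 5 1 y (y) x :=
  atX_main (nFY5 1) (nFX5 hx hx' 1) rfl rfl h
theorem covF51 {x : ℝ} (hx : 39 / 40 ≤ x) (hx' : x < 1) : CovX (PP x) tKF tL ndF5q1 5 1 536870912 469762048 (rl x 5) x :=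
  covX_main (nFY5 1) (nFX5 hx hx' 1) rfl rfl (rx51 hx)
theorem atF52 {y x : ℝ} (hx : 39 / 40 ≤ x) (hx' : x < 1) (h : OnC (5 : Fin 8) 2 y) : AtX (PP x) tKF tL ndF5q2 5 2 y (y) x :=
  atX_main (nFY5 2) (nFX5 hx hx' 2) rfl rfl h
theorem covF52 {x : ℝ} (hx : 39 / 40 ≤ x) (hx' : x < 1) : CovX (PP x) tKF tL ndF5q2 5 2 1073741824 536870912 (rl x 5) x :=
  covX_main (nFY5 2) (nFX5 hx hx' 2) rfl rfl (rx52 hx)
theorem atF53 {y x : ℝ} (hx : 39 / 40 ≤ x) (hx' : x < 1) (h : OnC (5 : Fin 8) 3 y) : AtX (PP x) tKF tL ndF5q3 5 3 y (c3n y) x :=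
  atX_main (nFY5 3) (nFX5 hx hx' 3) rfl rfl h
theorem covF53 {x : ℝ} (hx : 39 / 40 ≤ x) (hx' : x < 1) : CovX (PP x) tKF tL ndF5q3 5 3 0 1230186008 (rl x 5) x :=
  covX_main (nFY5 3) (nFX5 hx hx' 3) rfl rfl (rx53 hx)
theorem atF60 {y x : ℝ} (hx : 39 / 40 ≤ x) (hx' : x < 1) (h : OnC (6 : Fin 8) 0 y) : AtX (PP x) tKF tL ndF6q0 6 0 y (y) x :=
  atX_main (nFY6 0) (nFX6 hx hx' 0) rfl rfl h
theorem covF60 {x : ℝ} (hx : 39 / 40 ≤ x) (hx' : x < 1) : CovX (PP x) tKF tL ndF6q0 6 0 0 536870912 (rl x 6) x :=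
  covX_main (nFY6 0) (nFX6 hx hx' 0) rfl rfl (rx60 hx)
theorem atF61 {y x : ℝ} (hx : 39 / 40 ≤ x) (hx' : x < 1) (h : OnC (6 : Fin 8) 1 y) : AtX (PP x) tKF tL ndF6q1 6 1 y (y) x :=
  atX_main (nFY6 1) (nFX6 hx hx' 1) rfl rfl h
theorem covF61 {x : ℝ} (hx : 39 / 40 ≤ x) (hx' : x < 1) : CovX (PP x) tKF tL ndF6q1 6 1 536870912 469762048 (rl x 6) x :=
  covX_main (nFY6 1) (nFX6 hx hx' 1) rfl rfl (rx61 hx)
theorem atF62 {y x : ℝ} (hx : 39 / 40 ≤ x) (hx' : x < 1) (h : OnC (6 : Fin 8) 2 y) : AtX (PP x) tKF tL ndF6q2 6 2 y (y) x :=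
  atX_main (nFY6 2) (nFX6 hx hx' 2) rfl rfl h
theorem covF62 {x : ℝ} (hx : 39 / 40 ≤ x) (hx' : x < 1) : CovX (PP x) tKF tL ndF6q2 6 2 1073741824 536870912 (rl x 6) x :=
  covX_main (nFY6 2) (nFX6 hx hx' 2) rfl rfl (rx62 hx)
theorem atF63 {y x : ℝ} (hx : 39 / 40 ≤ x) (hx' : x < 1) (h : OnC (6 : Fin 8) 3 y) : AtX (PP x) tKF tL ndF6q3 6 3 y (c3n y) x :=
  atX_main (nFY6 3) (nFX6 hx hx' 3) rfl rfl h
theorem covF63 {x : ℝ} (hx : 39 / 40 ≤ x) (hx' : x < 1) : CovX (PP x) tKF tL ndF6q3 6 3 0 1230186008 (rl x 6) x :=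
  covX_main (nFY6 3) (nFX6 hx hx' 3) rfl rfl (rx63 hx)
theorem atF70 {y x : ℝ} (hx : 39 / 40 ≤ x) (hx' : x < 1) (h : OnC (7 : Fin 8) 0 y) : AtX (PP x) tKF tL ndF7q0 7 0 y (y) x :=
  atX_main (nFY7 0) (nFX7 hx hx' 0) rfl rfl h
theorem covF70 {x : ℝ} (hx : 39 / 40 ≤ x) (hx' : x < 1) : CovX (PP x) tKF tL ndF7q0 7 0 0 536870912 (rl x 7) x :=
  covX_main (nFY7 0) (nFX7 hx hx' 0) rfl rfl (rx70 hx)
theorem atF71 {y x : ℝ} (hx : 39 / 40 ≤ x) (hx' : x < 1) (h : OnC (7 : Fin 8) 1 y) : AtX (PP x) tKF tL ndF7q1 7 1 y (y) x :=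
  atX_main (nFY7 1) (nFX7 hx hx' 1) rfl rfl h
theorem covF71 {x : ℝ} (hx : 39 / 40 ≤ x) (hx' : x < 1) : CovX (PP x) tKF tL ndF7q1 7 1 536870912 536870912 (rl x 7) x :=
  covX_main (nFY7 1) (nFX7 hx hx' 1) rfl rfl (rx71 hx)
theorem atF72 {y x : ℝ} (hx : 39 / 40 ≤ x) (hx' : x < 1) (h : OnC (7 : Fin 8) 2 y) : AtX (PP x) tKF tL ndF7q2 7 2 y (y) x :=
  atX_main (nFY7 2) (nFX7 hx hx' 2) rfl rfl h
theorem covF72 {x : ℝ} (hx : 39 / 40 ≤ x) (hx' : x < 1) : CovX (PP x) tKF tL ndF7q2 7 2 1073741824 536870912 (rl x 7) x :=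
  covX_main (nFY7 2) (nFX7 hx hx' 2) rfl rfl (rx72 hx)
theorem atF73 {y x : ℝ} (hx : 39 / 40 ≤ x) (hx' : x < 1) (h : OnC (7 : Fin 8) 3 y) : AtX (PP x) tKF tL ndF7q3 7 3 y (c3n y) x :=
  atX_main (nFY7 3) (nFX7 hx hx' 3) rfl rfl h
theorem covF73 {x : ℝ} (hx : 39 / 40 ≤ x) (hx' : x < 1) : CovX (PP x) tKF tL ndF7q3 7 3 0 1230186008 (rl x 7) x :=
  covX_main (nFY7 3) (nFX7 hx hx' 3) rfl rfl (rx73 hx)
theorem atN00 {y x : ℝ} (hx : 39 / 40 ≤ x) (hx' : x < 1) (h : OnC (0 : Fin 8) 0 y) : AtX (PP x) tKN tL ndN0q0 0 0 y (y) x :=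
  atX_main (nNY0 0) (nNX0 hx hx' 0) rfl rfl h
theorem covN00 {x : ℝ} (hx : 39 / 40 ≤ x) (hx' : x < 1) : CovX (PP x) tKN tL ndN0q0 0 0 0 536870912 (rl x 0) x :=
  covX_main (nNY0 0) (nNX0 hx hx' 0) rfl rfl (rx00 hx)
theorem atN01 {y x : ℝ} (hx : 39 / 40 ≤ x) (hx' : x < 1) (h : OnC (0 : Fin 8) 1 y) : AtX (PP x) tKN tL ndN0q1 0 1 y (y) x :=
  atX_main (nNY0 1) (nNX0 hx hx' 1) rfl rfl h
theorem covN01 {x : ℝ} (hx : 39 / 40 ≤ x) (hx' : x < 1) : CovX (PP x) tKN tL ndN0q1 0 1 536870912 536870912 (rl x 0) x :=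
  covX_main (nNY0 1) (nNX0 hx hx' 1) rfl rfl (rx01 hx)
theorem atN02 {y x : ℝ} (hx : 39 / 40 ≤ x) (hx' : x < 1) (h : OnC (0 : Fin 8) 2 y) : AtX (PP x) tKN tL ndN0q2 0 2 y (c1n y) x :=
  atX_main (nNY0 2) (nNX0 hx hx' 2) rfl rfl h
theorem covN02 {x : ℝ} (hx : 39 / 40 ≤ x) (hx' : x < 1) : CovX (PP x) tKN tL ndN0q2 0 2 0 536870912 (rl x 0) x :=
  covX_main (nNY0 2) (nNX0 hx hx' 2) rfl rfl (rx02 hx)
theorem atN10 {y x : ℝ} (hx : 39 / 40 ≤ x) (hx' : x < 1) (h : OnC (1 : Fin 8) 0 y) : AtX (PP x) tKN tL ndN1q0 1 0 y (y) x :=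
  atX_main (nNY1 0) (nNX1 hx hx' 0) rfl rfl h
theorem covN10 {x : ℝ} (hx : 39 / 40 ≤ x) (hx' : x < 1) : CovX (PP x) tKN tL ndN1q0 1 0 67108864 469762048 (rl x 1) x :=
  covX_main (nNY1 0) (nNX1 hx hx' 0) rfl rfl (rx10 hx)
theorem atN11 {y x : ℝ} (hx : 39 / 40 ≤ x) (hx' : x < 1) (h : OnC (1 : Fin 8) 1 y) : AtX (PP x) tKN tL ndN1q1 1 1 y (y) x :=
  atX_main (nNY1 1) (nNX1 hx hx' 1) rfl rfl h
theorem covN11 {x : ℝ} (hx : 39 / 40 ≤ x) (hx' : x < 1) : CovX (PP x) tKN tL ndN1q1 1 1 536870912 536870912 (rl x 1) x :=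
  covX_main (nNY1 1) (nNX1 hx hx' 1) rfl rfl (rx11 hx)
theorem atN12 {y x : ℝ} (hx : 39 / 40 ≤ x) (hx' : x < 1) (h : OnC (1 : Fin 8) 2 y) : AtX (PP x) tKN tL ndN1q2 1 2 y (y) x :=
  atX_main (nNY1 2) (nNX1 hx hx' 2) rfl rfl h
theorem atN13 {y x : ℝ} (hx : 39 / 40 ≤ x) (hx' : x < 1) (h : OnC (1 : Fin 8) 3 y) : AtX (PP x) tKN tL ndN1q3 1 3 y (y) x :=
  atX_main (nNY1 3) (nNX1 hx hx' 3) rfl rfl h
theorem covN13 {x : ℝ} (hx : 39 / 40 ≤ x) (hx' : x < 1) : CovX (PP x) tKN tL ndN1q3 1 3 1610612736 469762048 (rl x 1) x :=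
  covX_main (nNY1 3) (nNX1 hx hx' 3) rfl rfl (rx13 hx)
theorem atN20 {y x : ℝ} (hx : 39 / 40 ≤ x) (hx' : x < 1) (h : OnC (2 : Fin 8) 0 y) : AtX (PP x) tKN tL ndN2q0 2 0 y (y) x :=
  atX_main (nNY2 0) (nNX2 hx hx' 0) rfl rfl h
theorem covN20 {x : ℝ} (hx : 39 / 40 ≤ x) (hx' : x < 1) : CovX (PP x) tKN tL ndN2q0 2 0 67108864 469762048 (rl x 2) x :=
  covX_main (nNY2 0) (nNX2 hx hx' 0) rfl rfl (rx20 hx)
theorem atN21 {y x : ℝ} (hx : 39 / 40 ≤ x) (hx' : x < 1) (h : OnC (2 : Fin 8) 1 y) : AtX (PP x) tKN tL ndN2q1 2 1 y (y) x :=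
  atX_main (nNY2 1) (nNX2 hx hx' 1) rfl rfl h
theorem covN21 {x : ℝ} (hx : 39 / 40 ≤ x) (hx' : x < 1) : CovX (PP x) tKN tL ndN2q1 2 1 536870912 536870912 (rl x 2) x :=
  covX_main (nNY2 1) (nNX2 hx hx' 1) rfl rfl (rx21 hx)
theorem atN22 {y x : ℝ} (hx : 39 / 40 ≤ x) (hx' : x < 1) (h : OnC (2 : Fin 8) 2 y) : AtX (PP x) tKN tL ndN2q2 2 2 y (y) x :=
  atX_main (nNY2 2) (nNX2 hx hx' 2) rfl rfl h
theorem atN23 {y x : ℝ} (hx : 39 / 40 ≤ x) (hx' : x < 1) (h : OnC (2 : Fin 8) 3 y) : AtX (PP x) tKN tL ndN2q3 2 3 y (y) x :=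
  atX_main (nNY2 3) (nNX2 hx hx' 3) rfl rfl h
theorem covN23 {x : ℝ} (hx : 39 / 40 ≤ x) (hx' : x < 1) : CovX (PP x) tKN tL ndN2q3 2 3 1610612736 469762048 (rl x 2) x :=
  covX_main (nNY2 3) (nNX2 hx hx' 3) rfl rfl (rx23 hx)
theorem atN30 {y x : ℝ} (hx : 39 / 40 ≤ x) (hx' : x < 1) (h : OnC (3 : Fin 8) 0 y) : AtX (PP x) tKN tL ndN3q0 3 0 y (y) x :=
  atX_main (nNY3 0) (nNX3 hx hx' 0) rfl rfl h
theorem covN30 {x : ℝ} (hx : 39 / 40 ≤ x) (hx' : x < 1) : CovX (PP x) tKN tL ndN3q0 3 0 0 536870912 (rl x 3) x :=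
  covX_main (nNY3 0) (nNX3 hx hx' 0) rfl rfl (rx30 hx)
theorem atN31 {y x : ℝ} (hx : 39 / 40 ≤ x) (hx' : x < 1) (h : OnC (3 : Fin 8) 1 y) : AtX (PP x) tKN tL ndN3q1 3 1 y (y) x :=
  atX_main (nNY3 1) (nNX3 hx hx' 1) rfl rfl h
theorem covN31 {x : ℝ} (hx : 39 / 40 ≤ x) (hx' : x < 1) : CovX (PP x) tKN tL ndN3q1 3 1 536870912 536870912 (rl x 3) x :=
  covX_main (nNY3 1) (nNX3 hx hx' 1) rfl rfl (rx31 hx)
theorem atN32 {y x : ℝ} (hx : 39 / 40 ≤ x) (hx' : x < 1) (h : OnC (3 : Fin 8) 2 y) : AtX (PP x) tKN tL ndN3q2 3 2 y (y) x :=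
  atX_main (nNY3 2) (nNX3 hx hx' 2) rfl rfl h
theorem covN32 {x : ℝ} (hx : 39 / 40 ≤ x) (hx' : x < 1) : CovX (PP x) tKN tL ndN3q2 3 2 1073741824 536870912 (rl x 3) x :=
  covX_main (nNY3 2) (nNX3 hx hx' 2) rfl rfl (rx32 hx)
theorem atN33 {y x : ℝ} (hx : 39 / 40 ≤ x) (hx' : x < 1) (h : OnC (3 : Fin 8) 3 y) : AtX (PP x) tKN tL ndN3q3 3 3 y (y) x :=
  atX_main (nNY3 3) (nNX3 hx hx' 3) rfl rfl h
theorem covN33 {x : ℝ} (hx : 39 / 40 ≤ x) (hx' : x < 1) : CovX (PP x) tKN tL ndN3q3 3 3 1610612736 536870912 (rl x 3) x :=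
  covX_main (nNY3 3) (nNX3 hx hx' 3) rfl rfl (rx33 hx)
theorem atN40 {y x : ℝ} (hx : 39 / 40 ≤ x) (hx' : x < 1) (h : OnC (4 : Fin 8) 0 y) : AtX (PP x) tKN tL ndN4q0 4 0 y (y) x :=
  atX_main (nNY4 0) (nNX4 hx hx' 0) rfl rfl h
theorem covN40 {x : ℝ} (hx : 39 / 40 ≤ x) (hx' : x < 1) : CovX (PP x) tKN tL ndN4q0 4 0 0 67108864 (rl x 4) x :=
  covX_main (nNY4 0) (nNX4 hx hx' 0) rfl rfl (rx40 hx)
theorem atN41 {y x : ℝ} (hx : 39 / 40 ≤ x) (hx' : x < 1) (h : OnC (4 : Fin 8) 1 y) : AtX (PP x) tKN tL ndN4q1 4 1 y (y) x :=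
  atX_main (nNY4 1) (nNX4 hx hx' 1) rfl rfl h
theorem atN42 {y x : ℝ} (hx : 39 / 40 ≤ x) (hx' : x < 1) (h : OnC (4 : Fin 8) 2 y) : AtX (PP x) tKN tL ndN4q2 4 2 y (y) x :=
  atX_main (nNY4 2) (nNX4 hx hx' 2) rfl rfl h
theorem atN43 {y x : ℝ} (hx : 39 / 40 ≤ x) (hx' : x < 1) (h : OnC (4 : Fin 8) 3 y) : AtX (PP x) tKN tL ndN4q3 4 3 y (c3n y) x :=
  atX_main (nNY4 3) (nNX4 hx hx' 3) rfl rfl h
theorem atN50 {y x : ℝ} (hx : 39 / 40 ≤ x) (hx' : x < 1) (h : OnC (5 : Fin 8) 0 y) : AtX (PP x) tKN tL ndN5q0 5 0 y (y) x :=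
  atX_main (nNY5 0) (nNX5 hx hx' 0) rfl rfl h
theorem covN50 {x : ℝ} (hx : 39 / 40 ≤ x) (hx' : x < 1) : CovX (PP x) tKN tL ndN5q0 5 0 0 536870912 (rl x 5) x :=
  covX_main (nNY5 0) (nNX5 hx hx' 0) rfl rfl (rx50 hx)
theorem atN51 {y x : ℝ} (hx : 39 / 40 ≤ x) (hx' : x < 1) (h : OnC (5 : Fin 8) 1 y) : AtX (PP x) tKN tL ndN5q1 5 1 y (y) x :=
  atX_main (nNY5 1) (nNX5 hx hx' 1) rfl rfl h
theorem covN51 {x : ℝ} (hx : 39 / 40 ≤ x) (hx' : x < 1) : CovX (PP x) tKN tL ndN5q1 5 1 536870912 469762048 (rl x 5) x :=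
  covX_main (nNY5 1) (nNX5 hx hx' 1) rfl rfl (rx51 hx)
theorem atN52 {y x : ℝ} (hx : 39 / 40 ≤ x) (hx' : x < 1) (h : OnC (5 : Fin 8) 2 y) : AtX (PP x) tKN tL ndN5q2 5 2 y (y) x :=
  atX_main (nNY5 2) (nNX5 hx hx' 2) rfl rfl h
theorem covN52 {x : ℝ} (hx : 39 / 40 ≤ x) (hx' : x < 1) : CovX (PP x) tKN tL ndN5q2 5 2 1073741824 536870912 (rl x 5) x :=
  covX_main (nNY5 2) (nNX5 hx hx' 2) rfl rfl (rx52 hx)
theorem atN53 {y x : ℝ} (hx : 39 / 40 ≤ x) (hx' : x < 1) (h : OnC (5 : Fin 8) 3 y) : AtX (PP x) tKN tL ndN5q3 5 3 y (c3n y) x :=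
  atX_main (nNY5 3) (nNX5 hx hx' 3) rfl rfl h
theorem covN53 {x : ℝ} (hx : 39 / 40 ≤ x) (hx' : x < 1) : CovX (PP x) tKN tL ndN5q3 5 3 0 1230186008 (rl x 5) x :=
  covX_main (nNY5 3) (nNX5 hx hx' 3) rfl rfl (rx53 hx)
theorem atN60 {y x : ℝ} (hx : 39 / 40 ≤ x) (hx' : x < 1) (h : OnC (6 : Fin 8) 0 y) : AtX (PP x) tKN tL ndN6q0 6 0 y (y) x :=
  atX_main (nNY6 0) (nNX6 hx hx' 0) rfl rfl h
theorem covN60 {x : ℝ} (hx : 39 / 40 ≤ x) (hx' : x < 1) : CovX (PP x) tKN tL ndN6q0 6 0 0 536870912 (rl x 6) x :=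
  covX_main (nNY6 0) (nNX6 hx hx' 0) rfl rfl (rx60 hx)
theorem atN61 {y x : ℝ} (hx : 39 / 40 ≤ x) (hx' : x < 1) (h : OnC (6 : Fin 8) 1 y) : AtX (PP x) tKN tL ndN6q1 6 1 y (y) x :=
  atX_main (nNY6 1) (nNX6 hx hx' 1) rfl rfl h
theorem covN61 {x : ℝ} (hx : 39 / 40 ≤ x) (hx' : x < 1) : CovX (PP x) tKN tL ndN6q1 6 1 536870912 469762048 (rl x 6) x :=
  covX_main (nNY6 1) (nNX6 hx hx' 1) rfl rfl (rx61 hx)
theorem atN62 {y x : ℝ} (hx : 39 / 40 ≤ x) (hx' : x < 1) (h : OnC (6 : Fin 8) 2 y) : AtX (PP x) tKN tL ndN6q2 6 2 y (y) x :=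
  atX_main (nNY6 2) (nNX6 hx hx' 2) rfl rfl h
theorem covN62 {x : ℝ} (hx : 39 / 40 ≤ x) (hx' : x < 1) : CovX (PP x) tKN tL ndN6q2 6 2 1073741824 536870912 (rl x 6) x :=
  covX_main (nNY6 2) (nNX6 hx hx' 2) rfl rfl (rx62 hx)
theorem atN63 {y x : ℝ} (hx : 39 / 40 ≤ x) (hx' : x < 1) (h : OnC (6 : Fin 8) 3 y) : AtX (PP x) tKN tL ndN6q3 6 3 y (c3n y) x :=
  atX_main (nNY6 3) (nNX6 hx hx' 3) rfl rfl h
theorem covN63 {x : ℝ} (hx : 39 / 40 ≤ x) (hx' : x < 1) : CovX (PP x) tKN tL ndN6q3 6 3 0 1230186008 (rl x 6) x :=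
  covX_main (nNY6 3) (nNX6 hx hx' 3) rfl rfl (rx63 hx)
theorem atN70 {y x : ℝ} (hx : 39 / 40 ≤ x) (hx' : x < 1) (h : OnC (7 : Fin 8) 0 y) : AtX (PP x) tKN tL ndN7q0 7 0 y (y) x :=
  atX_main (nNY7 0) (nNX7 hx hx' 0) rfl rfl h
theorem covN70 {x : ℝ} (hx : 39 / 40 ≤ x) (hx' : x < 1) : CovX (PP x) tKN tL ndN7q0 7 0 0 536870912 (rl x 7) x :=
  covX_main (nNY7 0) (nNX7 hx hx' 0) rfl rfl (rx70 hx)
theorem atN71 {y x : ℝ} (hx : 39 / 40 ≤ x) (hx' : x < 1) (h : OnC (7 : Fin 8) 1 y) : AtX (PP x) tKN tL ndN7q1 7 1 y (y) x :=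
  atX_main (nNY7 1) (nNX7 hx hx' 1) rfl rfl h
theorem covN71 {x : ℝ} (hx : 39 / 40 ≤ x) (hx' : x < 1) : CovX (PP x) tKN tL ndN7q1 7 1 536870912 536870912 (rl x 7) x :=
  covX_main (nNY7 1) (nNX7 hx hx' 1) rfl rfl (rx71 hx)
theorem atN72 {y x : ℝ} (hx : 39 / 40 ≤ x) (hx' : x < 1) (h : OnC (7 : Fin 8) 2 y) : AtX (PP x) tKN tL ndN7q2 7 2 y (y) x :=
  atX_main (nNY7 2) (nNX7 hx hx' 2) rfl rfl h
theorem covN72 {x : ℝ} (hx : 39 / 40 ≤ x) (hx' : x < 1) : CovX (PP x) tKN tL ndN7q2 7 2 1073741824 536870912 (rl x 7) x :=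
  covX_main (nNY7 2) (nNX7 hx hx' 2) rfl rfl (rx72 hx)
theorem atN73 {y x : ℝ} (hx : 39 / 40 ≤ x) (hx' : x < 1) (h : OnC (7 : Fin 8) 3 y) : AtX (PP x) tKN tL ndN7q3 7 3 y (c3n y) x :=
  atX_main (nNY7 3) (nNX7 hx hx' 3) rfl rfl h
theorem covN73 {x : ℝ} (hx : 39 / 40 ≤ x) (hx' : x < 1) : CovX (PP x) tKN tL ndN7q3 7 3 0 1230186008 (rl x 7) x :=
  covX_main (nNY7 3) (nNX7 hx hx' 3) rfl rfl (rx73 hx)
noncomputable def opF5 : Fn2 := ⟨_, _, fun h1 h2 => (enc_add (l5q2.enc h1 h2) (enc_rat _ 9 20))⟩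
def opk5 : ∃ t, chk3 (onCell 1073741824 0 0 0 1046898278 26843546 (posRX opF5)) t 1 1 1 = true := ⟨fullC 4, by decide +kernel⟩
theorem oneP5 {x p : ℝ} (hx : 39 / 40 ≤ x) (hx' : x < 1) (hp : p = 1 := by rfl) : 0 < l5q2.v 1 x + 9 / 20 := by
  have := posX_sound opk5 (p := 1) (by rw [S_num]; norm_num) (by rw [S_num]; norm_num) (x1 hx) (x2 hx')
  simp only [opF5] at this
  push_cast at this
  linarith
noncomputable def opF6 : Fn2 := ⟨_, _, fun h1 h2 => (enc_add (l6q2.enc h1 h2) (enc_rat _ 9 5))⟩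
def opk6 : ∃ t, chk3 (onCell 1073741824 0 0 0 1046898278 26843546 (posRX opF6)) t 1 1 1 = true := ⟨fullC 4, by decide +kernel⟩
theorem oneP6 {x p : ℝ} (hx : 39 / 40 ≤ x) (hx' : x < 1) (hp : p = 1 := by rfl) : 0 < l6q2.v 1 x + 9 / 5 := by
  have := posX_sound opk6 (p := 1) (by rw [S_num]; norm_num) (by rw [S_num]; norm_num) (x1 hx) (x2 hx')
  simp only [opF6] at this
  push_cast at this
  linarith
theorem one0 {x : ℝ} (hx : 39 / 40 ≤ x) (hx' : x < 1) : 0 ≤ crv (PP x) 0 2 1 - 1 / 2 + mun 3 x * tL 0 2 1 x := by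
  have e1 : crv (PP x) 0 2 1 - 1 / 2 = 0 := by
    rw [crv0]
    simp only [c1n_one, swn_one]
    norm_num
  have e2 : tL 0 2 1 x = 0 := by
    refine (tbF_on (onC_one 0)).trans ?_
    show (ndF 0 2).L.v (c1n 1) x = 0
    rw [c1n_one]
    exact (corF02 hx').2.2
  rw [e1, e2]
  norm_num
theorem one1 {x : ℝ} (hx : 39 / 40 ≤ x) (hx' : x < 1) : 0 ≤ crv (PP x) 1 2 1 - 1 / 2 + mun 3 x * tL 1 2 1 x := by
  have e1 : crv (PP x) 1 2 1 - 1 / 2 = 0 := by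
    rw [crv1]
    simp only [wn2, c1n_one, swn_one]
    norm_num
  have e2 : tL 1 2 1 x = 0 := by
    refine (tbF_on (onC_one 1)).trans ?_
    show (ndF 1 2).L.v 1 x = 0
    exact (corF12 hx').2.2
  rw [e1, e2]
  norm_num
theorem one2 {x : ℝ} (hx : 39 / 40 ≤ x) (hx' : x < 1) : 0 ≤ crv (PP x) 2 2 1 - 1 / 2 + mun 3 x * tL 2 2 1 x := by
  have e1 : crv (PP x) 2 2 1 - 1 / 2 = 0 := by
    rw [crv2]
    simp only [wn2, c1n_one, swn_one]
    norm_num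
  have e2 : tL 2 2 1 x = 0 := by
    refine (tbF_on (onC_one 2)).trans ?_
    show (ndF 2 2).L.v 1 x = 0
    exact (corF22 hx').2.2
  rw [e1, e2]
  norm_num
theorem one3 {x : ℝ} (hx : 39 / 40 ≤ x) (hx' : x < 1) : 0 ≤ crv (PP x) 3 2 1 - 1 / 2 + mun 3 x * tL 3 2 1 x := by
  have e1 : crv (PP x) 3 2 1 - 1 / 2 = 0 := by
    rw [crv3]
    simp only [wn2, c1n_one, swn_one]
    norm_num
  have e2 : tL 3 2 1 x = 0 := by
    refine (tbF_on (onC_one 3)).trans ?_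
    show (ndF 3 2).L.v 1 x = 0
    exact (corF32 hx').2.2
  rw [e1, e2]
  norm_num
theorem one4 {x : ℝ} (hx : 39 / 40 ≤ x) (hx' : x < 1) : 0 ≤ crv (PP x) 4 2 1 - 1 / 2 + mun 3 x * tL 4 2 1 x := by
  have e1 : crv (PP x) 4 2 1 - 1 / 2 = 11 / 5 * (1 - x) := by
    rw [crv4 hx hx']
    simp only [wn2, c1n_one, swn_one, c3n_one]
    ring
  have e2 : tL 4 2 1 x = l4q2.v 1 x := tbF_on (onC_one 4)
  rw [e1, e2]
  refine one_of (by norm_num) (by linarith) ?_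
  have v5 : 0 ≤ l5q2.v 1 x + 3 * (3 / 20) := by
    have := oneP5 (p := 1) hx hx'
    linarith
  have e3 : l4q2.v 1 x = l5q2.v 1 x * (11 / 5 * (1 - x) * (20 / 3)) := by
    simp only [l4q2, l5q2, xt4q2, cv4p_v, cv5p_v, zxt3q2 hx', swn_one, c3n_one]
    (try push_cast)
    ring
  rw [e3]
  push_cast
  nlinarith
theorem one5 {x : ℝ} (hx : 39 / 40 ≤ x) (hx' : x < 1) : 0 ≤ crv (PP x) 5 2 1 - 1 / 2 + mun 3 x * tL 5 2 1 x := by
  have e1 : crv (PP x) 5 2 1 - 1 / 2 = 3 / 20 := by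
    rw [crv5]
    simp only [wn2, c1n_one, swn_one, c3n_one]
    norm_num
  have e2 : tL 5 2 1 x = l5q2.v 1 x := tbF_on (onC_one 5)
  rw [e1, e2]
  refine one_of (by norm_num) (by linarith) ?_
  have := oneP5 (p := 1) hx hx'
  push_cast
  linarith
theorem one6 {x : ℝ} (hx : 39 / 40 ≤ x) (hx' : x < 1) : 0 ≤ crv (PP x) 6 2 1 - 1 / 2 + mun 3 x * tL 6 2 1 x := by
  have e1 : crv (PP x) 6 2 1 - 1 / 2 = 3 / 5 := by
    rw [crv6]
    simp only [wn2, c1n_one, swn_one, c3n_one]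
    norm_num
  have e2 : tL 6 2 1 x = l6q2.v 1 x := tbF_on (onC_one 6)
  rw [e1, e2]
  refine one_of (by norm_num) (by linarith) ?_
  have := oneP6 (p := 1) hx hx'
  push_cast
  linarith
theorem one7 {x : ℝ} (hx : 39 / 40 ≤ x) (hx' : x < 1) : 0 ≤ crv (PP x) 7 2 1 - 1 / 2 + mun 3 x * tL 7 2 1 x := by
  have e1 : crv (PP x) 7 2 1 - 1 / 2 = 1 := by
    rw [crv7]
    simp only [c3n_one]
    norm_num
  have e2 : tL 7 2 1 x = l7q2.v 1 x := tbF_on (onC_one 7)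
  rw [e1, e2]
  refine one_of (by norm_num) (by linarith) ?_
  simp only [l7q2, zxt7q2 hx', c3g_v, c3n_one]
  norm_num
theorem c1n_17 {y : ℝ} (hq : InQ 2 y) (hr : (1 / 16 < y ∧ y < 1) ∨ (17 / 16 < y ∧ y ≤ 31 / 16))
    (h : h0 * y < 1) : 0 ≤ c1n y ∧ c1n y ≤ 979 / 2500 := by
  have h1 := hq.1
  have h2 : 17 / 16 < y := by
    rcases hr with hr | hr
    · linarith [hr.2]
    · exact hr.1
  refine ⟨Real.sqrt_nonneg _, ?_⟩
  unfold c1n
  rw [show (979 : ℝ) / 2500 = Real.sqrt ((979 / 2500) ^ 2) by rw [Real.sqrt_sq (by norm_num)]]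
  exact Real.sqrt_le_sqrt (by nlinarith)
theorem atF12a {y x : ℝ} (hx : 39 / 40 ≤ x) (hx' : x < 1) (h : OnC (1 : Fin 8) 2 y) (hv : h0 * y < 1) : AtX (PP x) tKF tL ndF1q2a 1 2 y (c1n y) x := by
  have h1 := h.1.nonneg
  have e := yag_v h1 hv
  have hc : ¬((1 : ℝ) - 3 / 4 * y ^ 2 ≤ 0) := not_le.2 (by have := on_sq h1 hv; linarith)
  refine ⟨?_, ?_, ?_, ?_⟩
  · exact e
  · rw [← nFX1 hx hx' 2 y h]
    show xc12a.v (c1n y) x = cx1p.v y x
    simp only [xc12a, cx1p, cv1p, e, c1g_v]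
    all_goals ((try push_cast) <;> (try simp only [if_neg hc]) <;> (first | done | ring1 | (simp only [mul_zero, zero_add, add_zero, zero_mul]; ring1) | (split_ifs <;> first | ring1 | (exfalso; linarith))))
  · refine Eq.trans ?_ (tbF_on h).symm
    show kfc12a.v (c1n y) x = kf1q2.v y x
    simp only [kfc12a, kfc12a_40, jnK1q2, jnK1q2_4, jnK1q2_10, jnK1q2_22, kf1q2, cv1p, kf0q2, kf0q2_9, e, c1g_v]
    all_goals ((try push_cast) <;> (try simp only [if_neg hc]) <;> (first | done | ring1 | (simp only [mul_zero, zero_add, add_zero, zero_mul]; ring1) | (split_ifs <;> first | ring1 | (exfalso; linarith))))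
  · refine Eq.trans ?_ (tbF_on h).symm
    show lc12a.v (c1n y) x = l1q2.v y x
    simp only [lc12a, lc12a_10, lc12a_12, lc12a_14, lc12a_16, lc12a_22, lc12a_93, jnX1q2, jnX1q2_4, jnX1q2_7, l1q2, cv1p, xt1q2, xt1q2_3, xt1q2_5, xt1q2_7, xt1q2_13, xt0q2, xt0q2_6, e, c1g_v]
    all_goals ((try push_cast) <;> (try simp only [if_neg hc]) <;> (first | done | ring1 | (simp only [mul_zero, zero_add, add_zero, zero_mul]; ring1) | (split_ifs <;> first | ring1 | (exfalso; linarith))))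
theorem covF12a {x : ℝ} (hx : 39 / 40 ≤ x) (hx' : x < 1) : CovX (PP x) tKF tL ndF1q2a 1 2 0 420477299 (fun y => rl x 1 y ∧ h0 * y < 1) x :=
  covX_var (lo := 0) (hi := 979 / 2500) (fun y => c1n y) (fun y h hv => atF12a hx hx' h hv.2)
    (fun y h hv => c1n_17 h.1 hv.1 hv.2) (by norm_num) (by norm_num)
theorem atF12b {y x : ℝ} (hx : 39 / 40 ≤ x) (hx' : x < 1) (h : OnC (1 : Fin 8) 2 y) (hv : 1 ≤ h0 * y) : AtX (PP x) tKF tL ndF1q2b 1 2 y (y) x := by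
  have h1 := h.1.nonneg
  have e := c1g_off hv
  have hc : (1 : ℝ) - 3 / 4 * y ^ 2 ≤ 0 := by have := off_sq hv; linarith
  refine ⟨?_, ?_, ?_, ?_⟩
  · exact rfl
  · rw [← nFX1 hx hx' 2 y h]
    show xc12b.v (y) x = cx1p.v y x
    simp only [xc12b, cx1p, cv1p, e]
    all_goals ((try push_cast) <;> (try simp only [if_pos hc]) <;> (first | done | ring1 | (simp only [mul_zero, zero_add, add_zero, zero_mul]; ring1) | (split_ifs <;> first | ring1 | (exfalso; linarith))))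
  · refine Eq.trans ?_ (tbF_on h).symm
    show kfc12b.v (y) x = kf1q2.v y x
    simp only [kfc12b, jnK1q2, jnK1q2_4, jnK1q2_10, jnK1q2_22, kf1q2, cv1p, kf0q2, kf0q2_9, e]
    all_goals ((try push_cast) <;> (try simp only [if_pos hc]) <;> (first | done | ring1 | (simp only [mul_zero, zero_add, add_zero, zero_mul]; ring1) | (split_ifs <;> first | ring1 | (exfalso; linarith))))
  · refine Eq.trans ?_ (tbF_on h).symm
    show lc12b.v (y) x = l1q2.v y x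
    simp only [lc12b, lc12b_8, lc12b_10, lc12b_12, lc12b_14, lc12b_20, jnX1q2, jnX1q2_4, jnX1q2_7, l1q2, cv1p, xt1q2, xt1q2_3, xt1q2_5, xt1q2_7, xt1q2_13, xt0q2, xt0q2_6, e]
    all_goals ((try push_cast) <;> (try simp only [if_pos hc]) <;> (first | done | ring1 | (simp only [mul_zero, zero_add, add_zero, zero_mul]; ring1) | (split_ifs <;> first | ring1 | (exfalso; linarith))))
theorem covF12b {x : ℝ} (hx : 39 / 40 ≤ x) (hx' : x < 1) : CovX (PP x) tKF tL ndF1q2b 1 2 1239849684 370763052 (fun y => rl x 1 y ∧ 1 ≤ h0 * y) x :=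
  covX_var (lo := 11547 / 10000) (hi := 3 / 2) (fun y => y) (fun y h hv => atF12b hx hx' h hv.2)
    (fun y h hv => ⟨(lt_off hv.2).le, by have := h.1.2; linarith⟩) (by norm_num) (by norm_num)
theorem atF22a {y x : ℝ} (hx : 39 / 40 ≤ x) (hx' : x < 1) (h : OnC (2 : Fin 8) 2 y) (hv : h0 * y < 1) : AtX (PP x) tKF tL ndF2q2a 2 2 y (c1n y) x := by
  have h1 := h.1.nonneg
  have e := yag_v h1 hv
  have hc : ¬((1 : ℝ) - 3 / 4 * y ^ 2 ≤ 0) := not_le.2 (by have := on_sq h1 hv; linarith)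
  refine ⟨?_, ?_, ?_, ?_⟩
  · exact e
  · rw [← nFX2 hx hx' 2 y h]
    show xc22a.v (c1n y) x = cx2p.v y x
    simp only [xc22a, cx2p, cv2p, e, c1g_v]
    all_goals ((try push_cast) <;> (try simp only [if_neg hc]) <;> (first | done | ring1 | (simp only [mul_zero, zero_add, add_zero, zero_mul]; ring1) | (split_ifs <;> first | ring1 | (exfalso; linarith))))
  · refine Eq.trans ?_ (tbF_on h).symm
    show kfc22a.v (c1n y) x = kf2q2.v y x
    simp only [kfc22a, kfc22a_47, jnK2q2, jnK2q2_4, jnK2q2_10, jnK2q2_22, kf2q2, cv2p, kf0q2, kf0q2_9, e, c1g_v]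
    all_goals ((try push_cast) <;> (try simp only [if_neg hc]) <;> (first | done | ring1 | (simp only [mul_zero, zero_add, add_zero, zero_mul]; ring1) | (split_ifs <;> first | ring1 | (exfalso; linarith))))
  · refine Eq.trans ?_ (tbF_on h).symm
    show lc22a.v (c1n y) x = l2q2.v y x
    simp only [lc22a, lc22a_10, lc22a_12, lc22a_97, jnX2q2, jnX2q2_4, jnX2q2_7, l2q2, cv2p, xt2q2, xt2q2_3, xt0q2, xt0q2_6, e, c1g_v]
    all_goals ((try push_cast) <;> (try simp only [if_neg hc]) <;> (first | done | ring1 | (simp only [mul_zero, zero_add, add_zero, zero_mul]; ring1) | (split_ifs <;> first | ring1 | (exfalso; linarith))))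
theorem covF22a {x : ℝ} (hx : 39 / 40 ≤ x) (hx' : x < 1) : CovX (PP x) tKF tL ndF2q2a 2 2 0 420477299 (fun y => rl x 2 y ∧ h0 * y < 1) x :=
  covX_var (lo := 0) (hi := 979 / 2500) (fun y => c1n y) (fun y h hv => atF22a hx hx' h hv.2)
    (fun y h hv => c1n_17 h.1 hv.1 hv.2) (by norm_num) (by norm_num)
theorem atF22b {y x : ℝ} (hx : 39 / 40 ≤ x) (hx' : x < 1) (h : OnC (2 : Fin 8) 2 y) (hv : 1 ≤ h0 * y) : AtX (PP x) tKF tL ndF2q2b 2 2 y (y) x := by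
  have h1 := h.1.nonneg
  have e := c1g_off hv
  have hc : (1 : ℝ) - 3 / 4 * y ^ 2 ≤ 0 := by have := off_sq hv; linarith
  refine ⟨?_, ?_, ?_, ?_⟩
  · exact rfl
  · rw [← nFX2 hx hx' 2 y h]
    show xc22b.v (y) x = cx2p.v y x
    simp only [xc22b, cx2p, cv2p, e]
    all_goals ((try push_cast) <;> (try simp only [if_pos hc]) <;> (first | done | ring1 | (simp only [mul_zero, zero_add, add_zero, zero_mul]; ring1) | (split_ifs <;> first | ring1 | (exfalso; linarith))))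
  · refine Eq.trans ?_ (tbF_on h).symm
    show kfc22b.v (y) x = kf2q2.v y x
    simp only [kfc22b, jnK2q2, jnK2q2_4, jnK2q2_10, jnK2q2_22, kf2q2, cv2p, kf0q2, kf0q2_9, e]
    all_goals ((try push_cast) <;> (try simp only [if_pos hc]) <;> (first | done | ring1 | (simp only [mul_zero, zero_add, add_zero, zero_mul]; ring1) | (split_ifs <;> first | ring1 | (exfalso; linarith))))
  · refine Eq.trans ?_ (tbF_on h).symm
    show lc22b.v (y) x = l2q2.v y x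
    simp only [lc22b, lc22b_8, lc22b_10, jnX2q2, jnX2q2_4, jnX2q2_7, l2q2, cv2p, xt2q2, xt2q2_3, xt0q2, xt0q2_6, e]
    all_goals ((try push_cast) <;> (try simp only [if_pos hc]) <;> (first | done | ring1 | (simp only [mul_zero, zero_add, add_zero, zero_mul]; ring1) | (split_ifs <;> first | ring1 | (exfalso; linarith))))
theorem covF22b {x : ℝ} (hx : 39 / 40 ≤ x) (hx' : x < 1) : CovX (PP x) tKF tL ndF2q2b 2 2 1239849684 370763052 (fun y => rl x 2 y ∧ 1 ≤ h0 * y) x :=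
  covX_var (lo := 11547 / 10000) (hi := 3 / 2) (fun y => y) (fun y h hv => atF22b hx hx' h hv.2)
    (fun y h hv => ⟨(lt_off hv.2).le, by have := h.1.2; linarith⟩) (by norm_num) (by norm_num)
theorem atN12a {y x : ℝ} (hx : 39 / 40 ≤ x) (hx' : x < 1) (h : OnC (1 : Fin 8) 2 y) (hv : h0 * y < 1) : AtX (PP x) tKN tL ndN1q2a 1 2 y (c1n y) x := by
  have h1 := h.1.nonneg
  have e := yag_v h1 hv
  have hc : ¬((1 : ℝ) - 3 / 4 * y ^ 2 ≤ 0) := not_le.2 (by have := on_sq h1 hv; linarith)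
  refine ⟨?_, ?_, ?_, ?_⟩
  · exact e
  · rw [← nNX1 hx hx' 2 y h]
    show xc12a.v (c1n y) x = cx1p.v y x
    simp only [xc12a, cx1p, cv1p, e, c1g_v]
    all_goals ((try push_cast) <;> (try simp only [if_neg hc]) <;> (first | done | ring1 | (simp only [mul_zero, zero_add, add_zero, zero_mul]; ring1) | (split_ifs <;> first | ring1 | (exfalso; linarith))))
  · refine Eq.trans ?_ (tbF_on h).symm
    show knc12a.v (c1n y) x = kn1q2.v y x
    simp only [knc12a, kfc12a, kfc12a_40, jnK1q2, jnK1q2_4, jnK1q2_10, jnK1q2_22, kbc12a, kbc12a_42, jnB1q2, jnB1q2_4, jnB1q2_10, jnB1q2_23, kn1q2, kf1q2, cv1p, kf0q2, kf0q2_9, kb1q2, kb0q2, kb0q2_9, e, c1g_v]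
    all_goals ((try push_cast) <;> (try simp only [if_neg hc]) <;> (first | done | ring1 | (simp only [mul_zero, zero_add, add_zero, zero_mul]; ring1) | (split_ifs <;> first | ring1 | (exfalso; linarith))))
  · refine Eq.trans ?_ (tbF_on h).symm
    show lc12a.v (c1n y) x = l1q2.v y x
    simp only [lc12a, lc12a_10, lc12a_12, lc12a_14, lc12a_16, lc12a_22, lc12a_93, jnX1q2, jnX1q2_4, jnX1q2_7, l1q2, cv1p, xt1q2, xt1q2_3, xt1q2_5, xt1q2_7, xt1q2_13, xt0q2, xt0q2_6, e, c1g_v]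
    all_goals ((try push_cast) <;> (try simp only [if_neg hc]) <;> (first | done | ring1 | (simp only [mul_zero, zero_add, add_zero, zero_mul]; ring1) | (split_ifs <;> first | ring1 | (exfalso; linarith))))
theorem covN12a {x : ℝ} (hx : 39 / 40 ≤ x) (hx' : x < 1) : CovX (PP x) tKN tL ndN1q2a 1 2 0 420477299 (fun y => rl x 1 y ∧ h0 * y < 1) x :=
  covX_var (lo := 0) (hi := 979 / 2500) (fun y => c1n y) (fun y h hv => atN12a hx hx' h hv.2)
    (fun y h hv => c1n_17 h.1 hv.1 hv.2) (by norm_num) (by norm_num)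
theorem atN12b {y x : ℝ} (hx : 39 / 40 ≤ x) (hx' : x < 1) (h : OnC (1 : Fin 8) 2 y) (hv : 1 ≤ h0 * y) : AtX (PP x) tKN tL ndN1q2b 1 2 y (y) x := by
  have h1 := h.1.nonneg
  have e := c1g_off hv
  have hc : (1 : ℝ) - 3 / 4 * y ^ 2 ≤ 0 := by have := off_sq hv; linarith
  refine ⟨?_, ?_, ?_, ?_⟩
  · exact rfl
  · rw [← nNX1 hx hx' 2 y h]
    show xc12b.v (y) x = cx1p.v y x
    simp only [xc12b, cx1p, cv1p, e]
    all_goals ((try push_cast) <;> (try simp only [if_pos hc]) <;> (first | done | ring1 | (simp only [mul_zero, zero_add, add_zero, zero_mul]; ring1) | (split_ifs <;> first | ring1 | (exfalso; linarith))))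
  · refine Eq.trans ?_ (tbF_on h).symm
    show knc12b.v (y) x = kn1q2.v y x
    simp only [knc12b, kfc12b, jnK1q2, jnK1q2_4, jnK1q2_10, jnK1q2_22, kbc12b, jnB1q2, jnB1q2_4, jnB1q2_10, jnB1q2_23, kn1q2, kf1q2, cv1p, kf0q2, kf0q2_9, kb1q2, kb0q2, kb0q2_9, e]
    all_goals ((try push_cast) <;> (try simp only [if_pos hc]) <;> (first | done | ring1 | (simp only [mul_zero, zero_add, add_zero, zero_mul]; ring1) | (split_ifs <;> first | ring1 | (exfalso; linarith))))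
  · refine Eq.trans ?_ (tbF_on h).symm
    show lc12b.v (y) x = l1q2.v y x
    simp only [lc12b, lc12b_8, lc12b_10, lc12b_12, lc12b_14, lc12b_20, jnX1q2, jnX1q2_4, jnX1q2_7, l1q2, cv1p, xt1q2, xt1q2_3, xt1q2_5, xt1q2_7, xt1q2_13, xt0q2, xt0q2_6, e]
    all_goals ((try push_cast) <;> (try simp only [if_pos hc]) <;> (first | done | ring1 | (simp only [mul_zero, zero_add, add_zero, zero_mul]; ring1) | (split_ifs <;> first | ring1 | (exfalso; linarith))))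
theorem covN12b {x : ℝ} (hx : 39 / 40 ≤ x) (hx' : x < 1) : CovX (PP x) tKN tL ndN1q2b 1 2 1239849684 370763052 (fun y => rl x 1 y ∧ 1 ≤ h0 * y) x :=
  covX_var (lo := 11547 / 10000) (hi := 3 / 2) (fun y => y) (fun y h hv => atN12b hx hx' h hv.2)
    (fun y h hv => ⟨(lt_off hv.2).le, by have := h.1.2; linarith⟩) (by norm_num) (by norm_num)
theorem atN22a {y x : ℝ} (hx : 39 / 40 ≤ x) (hx' : x < 1) (h : OnC (2 : Fin 8) 2 y) (hv : h0 * y < 1) : AtX (PP x) tKN tL ndN2q2a 2 2 y (c1n y) x := by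
  have h1 := h.1.nonneg
  have e := yag_v h1 hv
  have hc : ¬((1 : ℝ) - 3 / 4 * y ^ 2 ≤ 0) := not_le.2 (by have := on_sq h1 hv; linarith)
  refine ⟨?_, ?_, ?_, ?_⟩
  · exact e
  · rw [← nNX2 hx hx' 2 y h]
    show xc22a.v (c1n y) x = cx2p.v y x
    simp only [xc22a, cx2p, cv2p, e, c1g_v]
    all_goals ((try push_cast) <;> (try simp only [if_neg hc]) <;> (first | done | ring1 | (simp only [mul_zero, zero_add, add_zero, zero_mul]; ring1) | (split_ifs <;> first | ring1 | (exfalso; linarith))))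
  · refine Eq.trans ?_ (tbF_on h).symm
    show knc22a.v (c1n y) x = kn2q2.v y x
    simp only [knc22a, kfc22a, kfc22a_47, jnK2q2, jnK2q2_4, jnK2q2_10, jnK2q2_22, kbc22a, kbc22a_49, jnB2q2, jnB2q2_4, jnB2q2_10, jnB2q2_23, kn2q2, kf2q2, cv2p, kf0q2, kf0q2_9, kb2q2, kb0q2, kb0q2_9, e, c1g_v]
    all_goals ((try push_cast) <;> (try simp only [if_neg hc]) <;> (first | done | ring1 | (simp only [mul_zero, zero_add, add_zero, zero_mul]; ring1) | (split_ifs <;> first | ring1 | (exfalso; linarith))))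
  · refine Eq.trans ?_ (tbF_on h).symm
    show lc22a.v (c1n y) x = l2q2.v y x
    simp only [lc22a, lc22a_10, lc22a_12, lc22a_97, jnX2q2, jnX2q2_4, jnX2q2_7, l2q2, cv2p, xt2q2, xt2q2_3, xt0q2, xt0q2_6, e, c1g_v]
    all_goals ((try push_cast) <;> (try simp only [if_neg hc]) <;> (first | done | ring1 | (simp only [mul_zero, zero_add, add_zero, zero_mul]; ring1) | (split_ifs <;> first | ring1 | (exfalso; linarith))))
theorem covN22a {x : ℝ} (hx : 39 / 40 ≤ x) (hx' : x < 1) : CovX (PP x) tKN tL ndN2q2a 2 2 0 420477299 (fun y => rl x 2 y ∧ h0 * y < 1) x :=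
  covX_var (lo := 0) (hi := 979 / 2500) (fun y => c1n y) (fun y h hv => atN22a hx hx' h hv.2)
    (fun y h hv => c1n_17 h.1 hv.1 hv.2) (by norm_num) (by norm_num)
theorem atN22b {y x : ℝ} (hx : 39 / 40 ≤ x) (hx' : x < 1) (h : OnC (2 : Fin 8) 2 y) (hv : 1 ≤ h0 * y) : AtX (PP x) tKN tL ndN2q2b 2 2 y (y) x := by
  have h1 := h.1.nonneg
  have e := c1g_off hv
  have hc : (1 : ℝ) - 3 / 4 * y ^ 2 ≤ 0 := by have := off_sq hv; linarith
  refine ⟨?_, ?_, ?_, ?_⟩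
  · exact rfl
  · rw [← nNX2 hx hx' 2 y h]
    show xc22b.v (y) x = cx2p.v y x
    simp only [xc22b, cx2p, cv2p, e]
    all_goals ((try push_cast) <;> (try simp only [if_pos hc]) <;> (first | done | ring1 | (simp only [mul_zero, zero_add, add_zero, zero_mul]; ring1) | (split_ifs <;> first | ring1 | (exfalso; linarith))))
  · refine Eq.trans ?_ (tbF_on h).symm
    show knc22b.v (y) x = kn2q2.v y x
    simp only [knc22b, kfc22b, jnK2q2, jnK2q2_4, jnK2q2_10, jnK2q2_22, kbc22b, jnB2q2, jnB2q2_4, jnB2q2_10, jnB2q2_23, kn2q2, kf2q2, cv2p, kf0q2, kf0q2_9, kb2q2, kb0q2, kb0q2_9, e]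
    all_goals ((try push_cast) <;> (try simp only [if_pos hc]) <;> (first | done | ring1 | (simp only [mul_zero, zero_add, add_zero, zero_mul]; ring1) | (split_ifs <;> first | ring1 | (exfalso; linarith))))
  · refine Eq.trans ?_ (tbF_on h).symm
    show lc22b.v (y) x = l2q2.v y x
    simp only [lc22b, lc22b_8, lc22b_10, jnX2q2, jnX2q2_4, jnX2q2_7, l2q2, cv2p, xt2q2, xt2q2_3, xt0q2, xt0q2_6, e]
    all_goals ((try push_cast) <;> (try simp only [if_pos hc]) <;> (first | done | ring1 | (simp only [mul_zero, zero_add, add_zero, zero_mul]; ring1) | (split_ifs <;> first | ring1 | (exfalso; linarith))))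
theorem covN22b {x : ℝ} (hx : 39 / 40 ≤ x) (hx' : x < 1) : CovX (PP x) tKN tL ndN2q2b 2 2 1239849684 370763052 (fun y => rl x 2 y ∧ 1 ≤ h0 * y) x :=
  covX_var (lo := 11547 / 10000) (hi := 3 / 2) (fun y => y) (fun y h hv => atN22b hx hx' h hv.2)
    (fun y h hv => ⟨(lt_off hv.2).le, by have := h.1.2; linarith⟩) (by norm_num) (by norm_num)

end Pool.Agent.Strip051.G.IE1.Tab
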