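import Pool.Agent.Strip051.G.IE1.FlC
import Pool.Agent.Strip051.G.IE1.FlD

/-! # The rows at the floor near `x = 1` -/

namespace Pool.Agent.Strip051.G.IE1.Tab

open Pool.Agent.StripNear Pool.Agent.StripSquare Pool.Agent.Strip051 Pool.Agent.Strip051.Sweep
open Pool.Agent.Strip051.PB Pool.Agent.Strip051.LC Pool.Agent.Strip051.LC.Exact Pool.Agent.Strip051.LC.E1

theorem um_ok {x : ℝ} (hx : 39 / 40 ≤ x) (hx' : x < 1) : 2 + 29 / 10 * (h0 * (7 / 20 * (1 - x))) ≤
    (1 + 3 / 2 * (1 - x)) ^ 2 + 2 * (1 + 3 / 2 * (1 - x)) * (1 / 2 - 7 / 4 * (1 - x)) := by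
  have hp := h0_pos
  have hs := h0_sq
  have h86 : h0 ≤ 8661 / 10000 := by
    by_contra hc
    push Not at hc
    nlinarith
  have e0 : 0 ≤ 1 - x := by linarith
  have k : h0 * (7 / 20 * (1 - x)) ≤ 8661 / 10000 * (7 / 20 * (1 - x)) :=
    mul_le_mul_of_nonneg_right h86 (by linarith)
  nlinarith

/-- **The rows at the floor.** -/
theorem flRow {a κ x : ℝ} (hx : 39 / 40 ≤ x) (hx' : x < 1)
    (h : CertT (DD x).cur (tbl tKF x) (tbl tKN x) (tbl tL x) 3 a κ (h0 * x)) (hκ : κ = kE (h0 * x)) :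
    RowOK ((tab (DD x).cur.nodes (tbl tKF x) (tbl tKN x) (tbl tL x)).flat3
      (ker (DD x).cur.nodes (fun _ _ => 0) fun _ _ => 0) (fun _ => 0) 3 κ (h0 * x)) 3 (h0 * x) :=
  certT_winE h hκ le_rfl (by linarith) hx' (sideF hx hx').linkK (sideN hx hx').linkK
    (sideF hx hx').linkL (sideN hx hx').linkL
    (winEF hx hx' (par2_far (by linarith) hx')) (winEN hx hx' (par2_near (by linarith) hx' 3))
    (by linarith) (by linarith) (by linarith) (by linarith) (by linarith) (by linarith)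
    (um_ok hx hx')

end Pool.Agent.Strip051.G.IE1.Tab
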