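import Pool.Agent.Strip051.G.IE1.Rows
import Pool.Agent.Strip051.PB.GoodT
import Pool.Agent.Strip051.PB.FinS
import Pool.Agent.Strip051.G.IE1.Fl
import Pool.Agent.Strip051.G.IE1.Cost

/-! # The exact count near the full period (generated) -/

set_option linter.all false

namespace Pool.Agent.Strip051.G.IE1.Tab

open Pool.Agent.Strip051.PB Pool.Agent.StripNear Pool.Agent.Strip051.LC

theorem done {x : ℝ} (hx : 39 / 40 ≤ x) (hx' : x < 1) : Good (h0 * x) := by
  have x0 : 0 < x := by linarith
  have h := (rowsV (κ := ken x / h0) ((ken_h0 x).trans (kenE_eq x0 hx').symm) hx hx').certT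
  exact good hx hx' (ken_h0 x) h (flRow hx hx' h (kE_eq x0 hx'))

end Pool.Agent.Strip051.G.IE1.Tab

namespace Pool.Agent.Strip051.G.IE1

open Pool.Agent.Strip051.PB Pool.Agent.StripNear Pool.Agent.Strip051.LC

theorem good1 (x : ℝ) (hx : 39 / 40 ≤ x) (hx1 : x < 1) : Good (h0 * x) := Tab.done hx hx1

end Pool.Agent.Strip051.G.IE1
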