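import Pool.Agent.Strip051.G.IE1.FxG

/-! # Certificates at the floor near `x = 1` (generated) -/

set_option linter.all false

namespace Pool.Agent.Strip051.G.IE1.Tab

open Pool.Agent.Strip051.PB Pool.Agent.Strip051.PB.Fx


theorem k_w00F : CertX 29826161 507044751 1046898278 26843546 [fuF0] ndF0q0 :=
  certX ⟨T.a (T.a (T.a (T.a (T.c (T.l 0) (T.l 0)) (T.l 0)) (T.a (T.l 0) (T.l 0))) (T.c (T.l 0) (T.a (T.l 0) (T.l 0)))) (T.a (T.c (T.l 0) (T.a (T.l 0) (T.l 0))) (T.c (T.l 0) (T.a (T.l 0) (T.l 0)))),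
    by decide +kernel⟩
theorem k_w30F : CertX 29826161 507044751 1046898278 26843546 [fuF0] ndF3q0 :=
  certX ⟨T.a (T.a (T.a (T.a (T.l 0) (T.l 0)) (T.l 0)) (T.l 0)) (T.l 0),
    by decide +kernel⟩
theorem k_w40F : CertX 29826161 37282703 1046898278 26843546 [fuF0] ndF4q0 :=
  certX ⟨T.a (T.l 0) (T.l 0),
    by decide +kernel⟩
theorem k_w50F : CertX 29826161 507044751 1046898278 26843546 [fuF0] ndF5q0 :=
  certX ⟨T.a (T.a (T.a (T.a (T.l 0) (T.l 0)) (T.l 0)) (T.l 0)) (T.l 0),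
    by decide +kernel⟩
theorem k_w10F : CertX 67108864 469762048 1046898278 26843546 [fuF0] ndF1q0 :=
  certX ⟨T.a (T.a (T.a (T.a (T.l 0) (T.l 0)) (T.l 0)) (T.l 0)) (T.l 0),
    by decide +kernel⟩
theorem k_w20F : CertX 67108864 469762048 1046898278 26843546 [fuF0] ndF2q0 :=
  certX ⟨T.a (T.a (T.a (T.a (T.l 0) (T.l 0)) (T.l 0)) (T.l 0)) (T.l 0),
    by decide +kernel⟩
theorem k_w60F : CertX 0 536870912 1046898278 26843546 [fuF0] ndF6q0 :=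
  certX ⟨T.a (T.a (T.a (T.l 0) (T.l 0)) (T.l 0)) (T.l 0),
    by decide +kernel⟩
theorem k_w70F : CertX 0 536870912 1046898278 26843546 [fuF0] ndF7q0 :=
  certX ⟨T.a (T.a (T.a (T.l 0) (T.l 0)) (T.l 0)) (T.l 0),
    by decide +kernel⟩
theorem k_w01F : CertX 536870912 507044751 1046898278 26843546 [fuF1] ndF0q1 :=
  certX ⟨T.a (T.a (T.c (T.l 0) (T.a (T.l 0) (T.l 0))) (T.c (T.l 0) (T.a (T.l 0) (T.l 0)))) (T.a (T.a (T.l 0) (T.a (T.l 0) (T.l 0))) (T.a (T.a (T.l 0) (T.l 0)) (T.a (T.c (T.l 0) (T.l 0)) (T.a (T.c (T.a (T.l 0) (T.l 0)) (T.l 0)) (T.c (T.c (T.a (T.l 0) (T.a (T.c (T.l 0) (T.l 0)) (T.c (T.a (T.l 0) (T.c (T.l 0) (T.l 0))) (T.l 0)))) (T.a (T.l 0) (T.l 0))) (T.l 0)))))),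
    by decide +kernel⟩
theorem k_w11F : CertX 536870912 507044751 1046898278 26843546 [fuF1] ndF1q1 :=
  certX ⟨T.a (T.l 0) (T.a (T.l 0) (T.l 0)),
    by decide +kernel⟩
theorem k_wb11F : CertX 1043915662 29826162 1046898278 26843546 [fbF1] ndF1q1 :=
  certX ⟨T.l 0,
    by decide +kernel⟩
theorem k_w21F : CertX 536870912 507044751 1046898278 26843546 [fuF1] ndF2q1 :=
  certX ⟨T.a (T.l 0) (T.l 0),
    by decide +kernel⟩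
theorem k_wb21F : CertX 1043915662 29826162 1046898278 26843546 [fbF1] ndF2q1 :=
  certX ⟨T.l 0,
    by decide +kernel⟩
theorem k_w31F : CertX 536870912 507044751 1046898278 26843546 [fuF1] ndF3q1 :=
  certX ⟨T.a (T.l 0) (T.a (T.l 0) (T.l 0)),
    by decide +kernel⟩
theorem k_wb31F : CertX 1043915662 29826162 1046898278 26843546 [fbF1] ndF3q1 :=
  certX ⟨T.l 0,
    by decide +kernel⟩
theorem k_w71F : CertX 536870912 507044751 1046898278 26843546 [fuF1] ndF7q1 :=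
  certX ⟨T.a (T.l 0) (T.a (T.l 0) (T.l 0)),
    by decide +kernel⟩
theorem k_wb71F : CertX 1043915662 29826162 1046898278 26843546 [fbF1] ndF7q1 :=
  certX ⟨T.l 0,
    by decide +kernel⟩
theorem k_w51F : CertX 536870912 469762048 1046898278 26843546 [fuF1] ndF5q1 :=
  certX ⟨T.a (T.l 0) (T.l 0),
    by decide +kernel⟩
theorem k_w61F : CertX 536870912 469762048 1046898278 26843546 [fuF1] ndF6q1 :=
  certX ⟨T.a (T.l 0) (T.l 0),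
    by decide +kernel⟩
theorem k_w52F : CertX 1073741824 166215235 1046898278 26843546 [fuF2, fxst] ndF5q2 :=
  certX ⟨T.l 0,
    by decide +kernel⟩
theorem k_w62F : CertX 1073741824 166215235 1046898278 26843546 [fuF2, fxst] ndF6q2 :=
  certX ⟨T.l 0,
    by decide +kernel⟩
theorem k_w72F : CertX 1073741824 166215235 1046898278 26843546 [fuF2, fxst] ndF7q2 :=
  certX ⟨T.l 0,
    by decide +kernel⟩
theorem k_g00F : CertX 0 536870912 1046898278 26843546 [flF] ndF0q0 :=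
  certX ⟨T.a (T.l 0) (T.l 0),
    by decide +kernel⟩
theorem k_g01F : CertX 536870912 536870912 1046898278 26843546 [flF] ndF0q1 :=
  certX ⟨T.a (T.l 0) (T.a (T.l 0) (T.l 0)),
    by decide +kernel⟩
theorem k_g10F : CertX 67108864 469762048 1046898278 26843546 [flF] ndF1q0 :=
  certX ⟨T.a (T.l 0) (T.l 0),
    by decide +kernel⟩
theorem k_g11F : CertX 536870912 536870912 1046898278 26843546 [flF] ndF1q1 :=
  certX ⟨T.a (T.l 0) (T.l 0),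
    by decide +kernel⟩
theorem k_g20F : CertX 67108864 469762048 1046898278 26843546 [flF] ndF2q0 :=
  certX ⟨T.a (T.l 0) (T.l 0),
    by decide +kernel⟩
theorem k_g21F : CertX 536870912 536870912 1046898278 26843546 [flF] ndF2q1 :=
  certX ⟨T.l 0,
    by decide +kernel⟩
theorem k_g30F : CertX 0 536870912 1046898278 26843546 [flF] ndF3q0 :=
  certX ⟨T.a (T.l 0) (T.l 0),
    by decide +kernel⟩
theorem k_g31F : CertX 536870912 536870912 1046898278 26843546 [flF] ndF3q1 :=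
  certX ⟨T.a (T.l 0) (T.a (T.l 0) (T.l 0)),
    by decide +kernel⟩
theorem k_g32F : CertX 1073741824 29826162 1046898278 26843546 [flF] ndF3q2 :=
  certX ⟨T.l 0,
    by decide +kernel⟩
theorem k_g40F : CertX 0 67108864 1046898278 26843546 [flF] ndF4q0 :=
  certX ⟨T.l 0,
    by decide +kernel⟩
theorem k_g50F : CertX 0 536870912 1046898278 26843546 [flF] ndF5q0 :=
  certX ⟨T.a (T.a (T.l 0) (T.l 0)) (T.l 0),
    by decide +kernel⟩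
theorem k_g51F : CertX 536870912 536870912 1046898278 26843546 [flF] ndF5q1 :=
  certX ⟨T.a (T.l 0) (T.a (T.l 0) (T.l 0)),
    by decide +kernel⟩
theorem k_g52F : CertX 1073741824 166215235 1046898278 26843546 [flF] ndF5q2 :=
  certX ⟨T.l 0,
    by decide +kernel⟩
theorem k_g60F : CertX 0 536870912 1046898278 26843546 [flF] ndF6q0 :=
  certX ⟨T.a (T.a (T.l 0) (T.l 0)) (T.l 0),
    by decide +kernel⟩
theorem k_g61F : CertX 536870912 536870912 1046898278 26843546 [flF] ndF6q1 :=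
  certX ⟨T.a (T.l 0) (T.a (T.l 0) (T.l 0)),
    by decide +kernel⟩
theorem k_g62F : CertX 1073741824 166215235 1046898278 26843546 [flF] ndF6q2 :=
  certX ⟨T.l 0,
    by decide +kernel⟩
theorem k_g70F : CertX 0 536870912 1046898278 26843546 [flF] ndF7q0 :=
  certX ⟨T.l 0,
    by decide +kernel⟩
theorem k_g71F : CertX 536870912 536870912 1046898278 26843546 [flF] ndF7q1 :=
  certX ⟨T.a (T.l 0) (T.l 0),
    by decide +kernel⟩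
theorem k_g72F : CertX 1073741824 166215235 1046898278 26843546 [flF] ndF7q2 :=
  certX ⟨T.l 0,
    by decide +kernel⟩
theorem k_g02F : CertX 489304149 47566763 1046898278 26843546 [flF] ndF0q2 :=
  certX ⟨T.l 0,
    by decide +kernel⟩
theorem k_swF : CertP 0 489518898 1046898278 26843546 [fuF2] yag xsg pcF2 :=
  certP ⟨T.a (T.l 0) (T.a (T.l 0) (T.a (T.a (T.l 0) (T.l 0)) (T.c (T.a (T.l 0) (T.l 0)) (T.l 0)))),
    by decide +kernel⟩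
theorem k_sgF : CertP 0 489518898 1046898278 26843546 [flF] yag xsg pcF2 :=
  certP ⟨T.a (T.l 0) (T.a (T.l 0) (T.a (T.l 0) (T.l 0))),
    by decide +kernel⟩
theorem k_hb11F : CertX 1064335845 9405979 1046898278 26843546 [fhbF1] ndF1q1 :=
  certX ⟨T.l 0,
    by decide +kernel⟩
theorem k_hb21F : CertX 1064335845 9405979 1046898278 26843546 [fhbF1] ndF2q1 :=
  certX ⟨T.l 0,
    by decide +kernel⟩
theorem k_hb31F : CertX 1064335845 9405979 1046898278 26843546 [fhbF1] ndF3q1 :=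
  certX ⟨T.l 0,
    by decide +kernel⟩
theorem k_hb71F : CertX 1064335845 9405979 1046898278 26843546 [fhbF1] ndF7q1 :=
  certX ⟨T.l 0,
    by decide +kernel⟩
theorem k_h52F : CertX 1073741824 536870912 1046898278 26843546 [fhF2] ndF5q2 :=
  certX ⟨T.a (T.a (T.a (T.c (T.a (T.l 0) (T.l 0)) (T.l 0)) (T.c (T.a (T.a (T.l 0) (T.l 0)) (T.a (T.l 0) (T.l 0))) (T.l 0))) (T.a (T.a (T.c (T.a (T.c (T.l 0) (T.l 0)) (T.c (T.a (T.a (T.l 0) (T.c (T.a (T.l 0) (T.l 0)) (T.l 0))) (T.c (T.c (T.a (T.l 0) (T.a (T.a (T.l 0) (T.l 0)) (T.l 0))) (T.l 0)) (T.l 0))) (T.a (T.l 0) (T.l 0)))) (T.a (T.l 0) (T.l 0))) (T.c (T.c (T.c (T.c (T.c (T.a (T.a (T.l 0) (T.l 0)) (T.l 0)) (T.l 0)) (T.l 0)) (T.l 0)) (T.l 0)) (T.l 0))) (T.a (T.c (T.c (T.c (T.a (T.a (T.l 0) (T.l 0)) (T.l 0)) (T.l 0)) (T.l 0)) (T.l 0)) (T.c (T.a (T.c (T.a (T.a (T.a (T.l 0) (T.l 0)) (T.l 0)) (T.l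 0)) (T.l 0)) (T.l 0)) (T.l 0))))) (T.a (T.a (T.l 0) (T.a (T.l 0) (T.l 0))) (T.l 0)),
    by decide +kernel⟩
theorem k_h62F : CertX 1073741824 536870912 1046898278 26843546 [fhF2] ndF6q2 :=
  certX ⟨T.a (T.a (T.a (T.l 0) (T.l 0)) (T.a (T.a (T.a (T.l 0) (T.l 0)) (T.l 0)) (T.l 0))) (T.a (T.a (T.l 0) (T.l 0)) (T.l 0)),
    by decide +kernel⟩
theorem k_h72F : CertX 1073741824 536870912 1046898278 26843546 [fhF2] ndF7q2 :=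
  certX ⟨T.a (T.a (T.a (T.l 0) (T.l 0)) (T.a (T.a (T.a (T.l 0) (T.c (T.l 0) (T.l 0))) (T.a (T.l 0) (T.l 0))) (T.l 0))) (T.a (T.a (T.a (T.l 0) (T.l 0)) (T.a (T.l 0) (T.l 0))) (T.a (T.l 0) (T.l 0))),
    by decide +kernel⟩
theorem k_h32F : CertX 1103567985 507044751 1046898278 26843546 [fhF2] ndF3q2 :=
  certX ⟨T.a (T.a (T.a (T.a (T.c (T.l 0) (T.l 0)) (T.a (T.c (T.l 0) (T.l 0)) (T.l 0))) (T.a (T.l 0) (T.l 0))) (T.a (T.a (T.l 0) (T.l 0)) (T.l 0))) (T.a (T.a (T.l 0) (T.l 0)) (T.l 0)),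
    by decide +kernel⟩
theorem k_h02F : CertX 0 489518898 1046898278 26843546 [fhF2] ndF0q2 :=
  certX ⟨T.a (T.a (T.a (T.c (T.a (T.c (T.a (T.a (T.a (T.c (T.l 0) (T.l 0)) (T.l 0)) (T.l 0)) (T.a (T.l 0) (T.l 0))) (T.a (T.a (T.c (T.a (T.l 0) (T.l 0)) (T.l 0)) (T.l 0)) (T.l 0))) (T.c (T.a (T.l 0) (T.l 0)) (T.a (T.l 0) (T.l 0)))) (T.a (T.c (T.a (T.c (T.a (T.l 0) (T.l 0)) (T.l 0)) (T.l 0)) (T.c (T.a (T.l 0) (T.l 0)) (T.l 0))) (T.c (T.l 0) (T.l 0)))) (T.c (T.a (T.a (T.l 0) (T.l 0)) (T.a (T.l 0) (T.l 0))) (T.a (T.a (T.l 0) (T.l 0)) (T.a (T.l 0) (T.l 0))))) (T.a (T.c (T.a (T.l 0) (T.l 0)) (T.a (T.a (T.l 0) (T.l 0)) (T.c (T.l 0) (T.a (T.l 0) (T.l 0))))) (T.c (T.a (T.l 0) (T.l 0)) (T.c (T.a (T.l 0) (T.l 0)) (T.a (T.l 0) (T.a (T.l 0) (T.l 0))))))) (T.a (T.a (T.c (T.a (T.l 0) (T.l 0)) (T.a (T.c (T.l 0) (T.a (T.l 0) (T.l 0))) (T.c (T.l 0) (T.a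 (T.l 0) (T.l 0))))) (T.c (T.a (T.l 0) (T.l 0)) (T.a (T.c (T.l 0) (T.a (T.l 0) (T.l 0))) (T.c (T.l 0) (T.a (T.l 0) (T.l 0)))))) (T.a (T.c (T.a (T.l 0) (T.a (T.l 0) (T.l 0))) (T.a (T.a (T.l 0) (T.l 0)) (T.a (T.l 0) (T.c (T.l 0) (T.l 0))))) (T.c (T.a (T.a (T.l 0) (T.l 0)) (T.a (T.l 0) (T.l 0))) (T.a (T.c (T.l 0) (T.a (T.l 0) (T.l 0))) (T.c (T.l 0) (T.a (T.l 0) (T.l 0))))))),
    by decide +kernel⟩
theorem k_h12aF : CertX 0 420477299 1046898278 26843546 [fhF2] ndF1q2a :=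
  certX ⟨T.a (T.a (T.a (T.a (T.l 0) (T.l 0)) (T.a (T.l 0) (T.l 0))) (T.a (T.a (T.l 0) (T.l 0)) (T.a (T.l 0) (T.l 0)))) (T.a (T.a (T.l 0) (T.l 0)) (T.a (T.c (T.l 0) (T.a (T.l 0) (T.l 0))) (T.c (T.a (T.l 0) (T.l 0)) (T.a (T.l 0) (T.a (T.l 0) (T.l 0)))))),
    by decide +kernel⟩
theorem k_h12bF : CertX 1239849684 370763052 1046898278 26843546 [fhF2] ndF1q2b :=
  certX ⟨T.a (T.a (T.a (T.a (T.c (T.l 0) (T.l 0)) (T.l 0)) (T.a (T.l 0) (T.l 0))) (T.a (T.c (T.l 0) (T.a (T.l 0) (T.l 0))) (T.l 0))) (T.a (T.l 0) (T.l 0)),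
    by decide +kernel⟩
theorem k_h22aF : CertX 0 420477299 1046898278 26843546 [fhF2] ndF2q2a :=
  certX ⟨T.a (T.a (T.l 0) (T.a (T.l 0) (T.l 0))) (T.a (T.l 0) (T.a (T.a (T.l 0) (T.l 0)) (T.c (T.l 0) (T.a (T.l 0) (T.l 0))))),
    by decide +kernel⟩
theorem k_h22bF : CertX 1239849684 370763052 1046898278 26843546 [fhF2] ndF2q2b :=
  certX ⟨T.a (T.a (T.a (T.a (T.l 0) (T.l 0)) (T.l 0)) (T.a (T.l 0) (T.l 0))) (T.a (T.l 0) (T.l 0)),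
    by decide +kernel⟩
theorem k_h13F : CertX 1610612736 469762048 1046898278 26843546 [fhF3] ndF1q3 :=
  certX ⟨T.a (T.l 0) (T.l 0),
    by decide +kernel⟩
theorem k_h23F : CertX 1610612736 469762048 1046898278 26843546 [fhF3] ndF2q3 :=
  certX ⟨T.a (T.l 0) (T.a (T.l 0) (T.l 0)),
    by decide +kernel⟩
theorem k_h33F : CertX 1610612736 497249839 1046898278 26843546 [fhF3] ndF3q3 :=
  certX ⟨T.a (T.a (T.l 0) (T.l 0)) (T.a (T.l 0) (T.a (T.l 0) (T.l 0))),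
    by decide +kernel⟩
theorem k_h53F : CertX 355515917 874670091 1046898278 26843546 [fhF3] ndF5q3 :=
  certX ⟨T.a (T.a (T.a (T.l 0) (T.l 0)) (T.a (T.l 0) (T.l 0))) (T.a (T.a (T.l 0) (T.l 0)) (T.a (T.l 0) (T.l 0))),
    by decide +kernel⟩
theorem k_h63F : CertX 355515917 874670091 1046898278 26843546 [fhF3] ndF6q3 :=
  certX ⟨T.a (T.a (T.a (T.l 0) (T.l 0)) (T.a (T.l 0) (T.l 0))) (T.a (T.l 0) (T.l 0)),
    by decide +kernel⟩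
theorem k_h73F : CertX 355515917 874670091 1046898278 26843546 [fhF3] ndF7q3 :=
  certX ⟨T.a (T.a (T.a (T.a (T.l 0) (T.l 0)) (T.a (T.l 0) (T.l 0))) (T.a (T.a (T.l 0) (T.l 0)) (T.a (T.l 0) (T.l 0)))) (T.a (T.a (T.a (T.l 0) (T.l 0)) (T.a (T.l 0) (T.l 0))) (T.a (T.a (T.l 0) (T.l 0)) (T.a (T.l 0) (T.l 0)))),
    by decide +kernel⟩
theorem k_r62F : CertX 1073741824 536870912 1046898278 26843546 [frF2, fxd0, fxumf] ndF6q2 :=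
  certX ⟨T.a (T.a (T.a (T.l 0) (T.l 0)) (T.l 0)) (T.l 0),
    by decide +kernel⟩
theorem k_r72F : CertX 1103567985 507044751 1046898278 26843546 [frF2] ndF7q2 :=
  certX ⟨T.a (T.a (T.a (T.c (T.a (T.c (T.a (T.l 0) (T.l 0)) (T.a (T.l 0) (T.l 0))) (T.c (T.a (T.l 0) (T.l 0)) (T.a (T.a (T.l 0) (T.l 0)) (T.l 0)))) (T.a (T.c (T.a (T.c (T.l 0) (T.l 0)) (T.a (T.l 0) (T.l 0))) (T.c (T.a (T.a (T.l 0) (T.l 0)) (T.l 0)) (T.a (T.c (T.l 0) (T.a (T.c (T.l 0) (T.c (T.l 0) (T.c (T.l 0) (T.a (T.a (T.l 0) (T.l 0)) (T.l 0))))) (T.c (T.l 0) (T.c (T.l 0) (T.a (T.a (T.l 0) (T.l 0)) (T.l 0)))))) (T.c (T.l 0) (T.c (T.l 0) (T.a (T.c (T.l 0) (T.a (T.l 0) (T.l 0))) (T.a (T.l 0) (T.l 0)))))))) (T.c (T.a (T.l 0) (T.l 0)) (T.a (T.c (T.l 0) (T.c (T.l 0) (T.c (T.l 0) (T.c (T.l 0) (T.a (T.a (T.l 0) (T.l 0)) (T.a (T.l 0) (T.l 0))))))) (T.c (T.l 0) (T.a (T.c (T.l 0)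 (T.a (T.a (T.l 0) (T.a (T.l 0) (T.l 0))) (T.l 0))) (T.l 0))))))) (T.c (T.a (T.a (T.l 0) (T.l 0)) (T.l 0)) (T.a (T.c (T.l 0) (T.a (T.a (T.l 0) (T.l 0)) (T.l 0))) (T.a (T.l 0) (T.l 0))))) (T.a (T.c (T.a (T.l 0) (T.l 0)) (T.a (T.a (T.l 0) (T.l 0)) (T.l 0))) (T.a (T.l 0) (T.l 0)))) (T.a (T.a (T.l 0) (T.l 0)) (T.a (T.l 0) (T.l 0))),
    by decide +kernel⟩
theorem k_r73F : CertX 1073741824 156444184 1046898278 26843546 [frF3, fxd0] ndF7q3 :=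
  certX ⟨T.a (T.l 0) (T.l 0),
    by decide +kernel⟩
theorem k_rd2F : CertP 1073741824 536870912 1046898278 26843546 [frF2, fxumf] idf xdg pcF2 :=
  certP ⟨T.a (T.a (T.a (T.a (T.c (T.l 0) (T.l 0)) (T.l 0)) (T.l 0)) (T.a (T.l 0) (T.a (T.l 0) (T.l 0)))) (T.a (T.a (T.l 0) (T.l 0)) (T.a (T.l 0) (T.l 0))),
    by decide +kernel⟩
theorem k_rd3F : CertP 1610612736 142915037 1046898278 26843546 [frF3, fxq3] idf xdg pcF3 :=
  certP ⟨T.a (T.l 0) (T.a (T.l 0) (T.l 0)),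
    by decide +kernel⟩
theorem k_n02F : CertX 107374182 382144716 1046898278 26843546 [fnF2] ndF0q2 :=
  certX ⟨T.a (T.a (T.a (T.c (T.a (T.c (T.a (T.l 0) (T.l 0)) (T.a (T.l 0) (T.l 0))) (T.c (T.l 0) (T.a (T.l 0) (T.l 0)))) (T.a (T.c (T.a (T.l 0) (T.l 0)) (T.a (T.l 0) (T.l 0))) (T.c (T.a (T.l 0) (T.l 0)) (T.a (T.l 0) (T.l 0))))) (T.c (T.c (T.a (T.l 0) (T.l 0)) (T.a (T.a (T.l 0) (T.l 0)) (T.l 0))) (T.c (T.a (T.a (T.l 0) (T.l 0)) (T.l 0)) (T.a (T.l 0) (T.l 0))))) (T.c (T.a (T.c (T.a (T.a (T.l 0) (T.l 0)) (T.a (T.l 0) (T.l 0))) (T.a (T.a (T.l 0) (T.l 0)) (T.a (T.l 0) (T.l 0)))) (T.a (T.c (T.a (T.l 0) (T.l 0)) (T.a (T.l 0) (T.l 0))) (T.c (T.a (T.l 0) (T.a (T.l 0) (T.l 0))) (T.a (T.l 0) (T.a (T.l 0) (T.l 0)))))) (T.a (T.c (T.a (T.a (T.l 0) (T.l 0)) (T.a (T.l 0) (T.l 0))) (T.a (T.l 0) (T.l 0))) (T.c (T.a (T.a (T.l 0) (T.l 0)) (T.c (T.l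 0) (T.l 0))) (T.a (T.l 0) (T.a (T.l 0) (T.l 0))))))) (T.a (T.c (T.a (T.c (T.a (T.c (T.l 0) (T.l 0)) (T.a (T.l 0) (T.l 0))) (T.a (T.c (T.l 0) (T.l 0)) (T.c (T.l 0) (T.l 0)))) (T.a (T.c (T.a (T.l 0) (T.l 0)) (T.c (T.l 0) (T.l 0))) (T.c (T.l 0) (T.a (T.l 0) (T.l 0))))) (T.a (T.c (T.a (T.c (T.l 0) (T.l 0)) (T.c (T.a (T.l 0) (T.l 0)) (T.a (T.l 0) (T.l 0)))) (T.a (T.a (T.l 0) (T.l 0)) (T.a (T.l 0) (T.l 0)))) (T.a (T.c (T.a (T.a (T.l 0) (T.l 0)) (T.a (T.l 0) (T.l 0))) (T.a (T.a (T.l 0) (T.l 0)) (T.a (T.l 0) (T.l 0)))) (T.c (T.c (T.l 0) (T.a (T.l 0) (T.l 0))) (T.a (T.a (T.l 0) (T.l 0)) (T.c (T.l 0) (T.l 0))))))) (T.a (T.c (T.a (T.c (T.l 0) (T.l 0)) (T.c (T.l 0) (T.a (T.l 0) (T.l 0)))) (T.a (T.c (T.c (T.l 0) (T.a (T.l 0) (T.l 0))) (T.c (T.a (T.a (T.l 0) (T.l 0)) (T.a (T.l 0) (T.l 0))) (T.a (T.a (T.l 0) (T.c (T.l 0) (T.l 0))) (T.c (T.a (T.l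 0) (T.l 0)) (T.a (T.a (T.l 0) (T.a (T.l 0) (T.l 0))) (T.c (T.l 0) (T.a (T.l 0) (T.l 0)))))))) (T.c (T.c (T.l 0) (T.a (T.l 0) (T.l 0))) (T.c (T.a (T.a (T.l 0) (T.l 0)) (T.a (T.l 0) (T.l 0))) (T.a (T.c (T.a (T.l 0) (T.l 0)) (T.a (T.c (T.l 0) (T.a (T.l 0) (T.l 0))) (T.a (T.a (T.l 0) (T.l 0)) (T.l 0)))) (T.c (T.a (T.l 0) (T.l 0)) (T.c (T.l 0) (T.a (T.l 0) (T.l 0))))))))) (T.c (T.a (T.c (T.l 0) (T.l 0)) (T.a (T.l 0) (T.l 0))) (T.a (T.c (T.c (T.l 0) (T.l 0)) (T.c (T.a (T.l 0) (T.l 0)) (T.a (T.c (T.l 0) (T.a (T.l 0) (T.l 0))) (T.c (T.l 0) (T.a (T.l 0) (T.l 0)))))) (T.c (T.a (T.l 0) (T.l 0)) (T.c (T.a (T.l 0) (T.l 0)) (T.a (T.c (T.l 0) (T.a (T.l 0) (T.l 0))) (T.c (T.l 0) (T.a (T.l 0) (T.l 0)))))))))),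
    by decide +kernel⟩
theorem k_nqF : CertF2 0 107374183 1046898278 26843546 [nqF] :=
  certF2 ⟨T.c (T.c (T.a (T.c (T.a (T.l 0) (T.l 0)) (T.a (T.l 0) (T.l 0))) (T.c (T.a (T.l 0) (T.l 0)) (T.a (T.l 0) (T.l 0)))) (T.a (T.c (T.a (T.l 0) (T.l 0)) (T.a (T.l 0) (T.l 0))) (T.c (T.a (T.l 0) (T.l 0)) (T.a (T.l 0) (T.l 0))))) (T.c (T.a (T.c (T.a (T.l 0) (T.l 0)) (T.a (T.l 0) (T.l 0))) (T.c (T.a (T.l 0) (T.l 0)) (T.a (T.l 0) (T.l 0)))) (T.a (T.c (T.a (T.l 0) (T.l 0)) (T.a (T.l 0) (T.l 0))) (T.c (T.a (T.l 0) (T.l 0)) (T.a (T.l 0) (T.l 0))))),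
    by decide +kernel⟩
theorem k_n12aF : CertX 0 420477299 1046898278 26843546 [fnF2] ndF1q2a :=
  certX ⟨T.a (T.a (T.c (T.a (T.l 0) (T.l 0)) (T.a (T.a (T.l 0) (T.l 0)) (T.l 0))) (T.c (T.a (T.l 0) (T.l 0)) (T.a (T.l 0) (T.l 0)))) (T.a (T.c (T.l 0) (T.l 0)) (T.a (T.c (T.l 0) (T.l 0)) (T.c (T.l 0) (T.a (T.l 0) (T.l 0))))),
    by decide +kernel⟩
theorem k_n12bF : CertX 1239849684 370763052 1046898278 26843546 [fnF2] ndF1q2b :=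
  certX ⟨T.a (T.a (T.a (T.c (T.l 0) (T.l 0)) (T.a (T.l 0) (T.l 0))) (T.l 0)) (T.l 0),
    by decide +kernel⟩
theorem k_n22aF : CertX 0 420477299 1046898278 26843546 [fnF2] ndF2q2a :=
  certX ⟨T.a (T.a (T.l 0) (T.l 0)) (T.a (T.l 0) (T.a (T.l 0) (T.l 0))),
    by decide +kernel⟩
theorem k_n22bF : CertX 1239849684 370763052 1046898278 26843546 [fnF2] ndF2q2b :=
  certX ⟨T.a (T.a (T.l 0) (T.l 0)) (T.l 0),
    by decide +kernel⟩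
theorem k_n32F : CertX 1103567985 507044751 1046898278 26843546 [fnF2] ndF3q2 :=
  certX ⟨T.a (T.a (T.a (T.a (T.l 0) (T.l 0)) (T.l 0)) (T.l 0)) (T.l 0),
    by decide +kernel⟩
theorem k_n52F : CertX 1103567985 507044751 1046898278 26843546 [fnF2] ndF5q2 :=
  certX ⟨T.a (T.a (T.a (T.l 0) (T.l 0)) (T.l 0)) (T.a (T.l 0) (T.l 0)),
    by decide +kernel⟩
theorem k_nb52F : CertX 1073741824 29826162 1046898278 26843546 [fnbF2] ndF5q2 :=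
  certX ⟨T.l 0,
    by decide +kernel⟩
theorem k_n13F : CertX 1610612736 187260575 1046898278 26843546 [fnF3] ndF1q3 :=
  certX ⟨T.l 0,
    by decide +kernel⟩
theorem k_n23F : CertX 1610612736 187260575 1046898278 26843546 [fnF3] ndF2q3 :=
  certX ⟨T.l 0,
    by decide +kernel⟩
theorem k_n33F : CertX 1610612736 187260575 1046898278 26843546 [fnF3] ndF3q3 :=
  certX ⟨T.l 0,
    by decide +kernel⟩
theorem k_n53F : CertX 1017048255 213137753 1046898278 26843546 [fnF3] ndF5q3 :=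
  certX ⟨T.l 0,
    by decide +kernel⟩
theorem k_n63F : CertX 1017048255 213137753 1046898278 26843546 [fnF3] ndF6q3 :=
  certX ⟨T.a (T.l 0) (T.l 0),
    by decide +kernel⟩

end Pool.Agent.Strip051.G.IE1.Tab
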