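import Pool.Agent.Strip051.G.IE1.FxG

/-! # Certificates at the floor near `x = 1` (generated) -/

set_option linter.all false

namespace Pool.Agent.Strip051.G.IE1.Tab

open Pool.Agent.Strip051.PB Pool.Agent.Strip051.PB.Fx


theorem k_w00N : CertX 29826161 507044751 1046898278 26843546 [fuN0] ndN0q0 :=
  certX ⟨T.a (T.a (T.a (T.a (T.c (T.a (T.l 0) (T.l 0)) (T.l 0)) (T.l 0)) (T.a (T.l 0) (T.l 0))) (T.a (T.l 0) (T.a (T.l 0) (T.l 0)))) (T.a (T.a (T.l 0) (T.l 0)) (T.a (T.l 0) (T.l 0))),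
    by decide +kernel⟩
theorem k_w30N : CertX 29826161 507044751 1046898278 26843546 [fuN0] ndN3q0 :=
  certX ⟨T.a (T.a (T.a (T.a (T.l 0) (T.l 0)) (T.l 0)) (T.l 0)) (T.l 0),
    by decide +kernel⟩
theorem k_w40N : CertX 29826161 37282703 1046898278 26843546 [fuN0] ndN4q0 :=
  certX ⟨T.a (T.l 0) (T.l 0),
    by decide +kernel⟩
theorem k_w50N : CertX 29826161 507044751 1046898278 26843546 [fuN0] ndN5q0 :=
  certX ⟨T.a (T.a (T.a (T.a (T.l 0) (T.l 0)) (T.l 0)) (T.l 0)) (T.l 0),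
    by decide +kernel⟩
theorem k_w10N : CertX 67108864 469762048 1046898278 26843546 [fuN0] ndN1q0 :=
  certX ⟨T.a (T.a (T.a (T.a (T.l 0) (T.l 0)) (T.l 0)) (T.l 0)) (T.l 0),
    by decide +kernel⟩
theorem k_w20N : CertX 67108864 469762048 1046898278 26843546 [fuN0] ndN2q0 :=
  certX ⟨T.a (T.a (T.a (T.a (T.l 0) (T.l 0)) (T.l 0)) (T.l 0)) (T.l 0),
    by decide +kernel⟩
theorem k_w60N : CertX 0 536870912 1046898278 26843546 [fuN0] ndN6q0 :=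
  certX ⟨T.a (T.a (T.a (T.a (T.l 0) (T.l 0)) (T.l 0)) (T.l 0)) (T.l 0),
    by decide +kernel⟩
theorem k_w70N : CertX 0 536870912 1046898278 26843546 [fuN0] ndN7q0 :=
  certX ⟨T.a (T.a (T.a (T.l 0) (T.l 0)) (T.l 0)) (T.l 0),
    by decide +kernel⟩
theorem k_w01N : CertX 536870912 507044751 1046898278 26843546 [fuN1] ndN0q1 :=
  certX ⟨T.a (T.a (T.a (T.l 0) (T.l 0)) (T.a (T.l 0) (T.l 0))) (T.a (T.a (T.l 0) (T.l 0)) (T.a (T.a (T.l 0) (T.l 0)) (T.a (T.a (T.l 0) (T.l 0)) (T.a (T.c (T.a (T.l 0) (T.l 0)) (T.l 0)) (T.c (T.c (T.a (T.a (T.l 0) (T.l 0)) (T.c (T.a (T.l 0) (T.c (T.a (T.l 0) (T.l 0)) (T.l 0))) (T.a (T.l 0) (T.l 0)))) (T.a (T.l 0) (T.l 0))) (T.a (T.l 0) (T.l 0))))))),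
    by decide +kernel⟩
theorem k_w11N : CertX 536870912 507044751 1046898278 26843546 [fuN1] ndN1q1 :=
  certX ⟨T.a (T.l 0) (T.a (T.l 0) (T.a (T.l 0) (T.l 0))),
    by decide +kernel⟩
theorem k_wb11N : CertX 1043915662 29826162 1046898278 26843546 [fbN1] ndN1q1 :=
  certX ⟨T.l 0,
    by decide +kernel⟩
theorem k_w21N : CertX 536870912 507044751 1046898278 26843546 [fuN1] ndN2q1 :=
  certX ⟨T.a (T.l 0) (T.a (T.l 0) (T.l 0)),
    by decide +kernel⟩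
theorem k_wb21N : CertX 1043915662 29826162 1046898278 26843546 [fbN1] ndN2q1 :=
  certX ⟨T.l 0,
    by decide +kernel⟩
theorem k_w31N : CertX 536870912 507044751 1046898278 26843546 [fuN1] ndN3q1 :=
  certX ⟨T.a (T.l 0) (T.a (T.l 0) (T.l 0)),
    by decide +kernel⟩
theorem k_wb31N : CertX 1043915662 29826162 1046898278 26843546 [fbN1] ndN3q1 :=
  certX ⟨T.l 0,
    by decide +kernel⟩
theorem k_w71N : CertX 536870912 507044751 1046898278 26843546 [fuN1] ndN7q1 :=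
  certX ⟨T.a (T.l 0) (T.a (T.l 0) (T.l 0)),
    by decide +kernel⟩
theorem k_wb71N : CertX 1043915662 29826162 1046898278 26843546 [fbN1] ndN7q1 :=
  certX ⟨T.l 0,
    by decide +kernel⟩
theorem k_w51N : CertX 536870912 469762048 1046898278 26843546 [fuN1] ndN5q1 :=
  certX ⟨T.a (T.l 0) (T.a (T.l 0) (T.l 0)),
    by decide +kernel⟩
theorem k_w61N : CertX 536870912 469762048 1046898278 26843546 [fuN1] ndN6q1 :=
  certX ⟨T.a (T.l 0) (T.a (T.l 0) (T.l 0)),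
    by decide +kernel⟩
theorem k_w52N : CertX 1073741824 166215235 1046898278 26843546 [fuN2, fxst] ndN5q2 :=
  certX ⟨T.l 0,
    by decide +kernel⟩
theorem k_w62N : CertX 1073741824 166215235 1046898278 26843546 [fuN2, fxst] ndN6q2 :=
  certX ⟨T.l 0,
    by decide +kernel⟩
theorem k_w72N : CertX 1073741824 166215235 1046898278 26843546 [fuN2, fxst] ndN7q2 :=
  certX ⟨T.l 0,
    by decide +kernel⟩
theorem k_g00N : CertX 0 536870912 1046898278 26843546 [flN] ndN0q0 :=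
  certX ⟨T.a (T.a (T.l 0) (T.l 0)) (T.l 0),
    by decide +kernel⟩
theorem k_g01N : CertX 536870912 536870912 1046898278 26843546 [flN] ndN0q1 :=
  certX ⟨T.a (T.l 0) (T.a (T.l 0) (T.a (T.l 0) (T.l 0))),
    by decide +kernel⟩
theorem k_g10N : CertX 67108864 469762048 1046898278 26843546 [flN] ndN1q0 :=
  certX ⟨T.a (T.a (T.l 0) (T.l 0)) (T.l 0),
    by decide +kernel⟩
theorem k_g11N : CertX 536870912 536870912 1046898278 26843546 [flN] ndN1q1 :=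
  certX ⟨T.a (T.l 0) (T.a (T.l 0) (T.l 0)),
    by decide +kernel⟩
theorem k_g20N : CertX 67108864 469762048 1046898278 26843546 [flN] ndN2q0 :=
  certX ⟨T.a (T.a (T.a (T.l 0) (T.l 0)) (T.l 0)) (T.l 0),
    by decide +kernel⟩
theorem k_g21N : CertX 536870912 536870912 1046898278 26843546 [flN] ndN2q1 :=
  certX ⟨T.a (T.l 0) (T.l 0),
    by decide +kernel⟩
theorem k_g30N : CertX 0 536870912 1046898278 26843546 [flN] ndN3q0 :=
  certX ⟨T.a (T.a (T.l 0) (T.l 0)) (T.l 0),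
    by decide +kernel⟩
theorem k_g31N : CertX 536870912 536870912 1046898278 26843546 [flN] ndN3q1 :=
  certX ⟨T.a (T.l 0) (T.a (T.l 0) (T.l 0)),
    by decide +kernel⟩
theorem k_g32N : CertX 1073741824 29826162 1046898278 26843546 [flN] ndN3q2 :=
  certX ⟨T.l 0,
    by decide +kernel⟩
theorem k_g40N : CertX 0 67108864 1046898278 26843546 [flN] ndN4q0 :=
  certX ⟨T.l 0,
    by decide +kernel⟩
theorem k_g50N : CertX 0 536870912 1046898278 26843546 [flN] ndN5q0 :=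
  certX ⟨T.a (T.a (T.a (T.l 0) (T.l 0)) (T.l 0)) (T.l 0),
    by decide +kernel⟩
theorem k_g51N : CertX 536870912 536870912 1046898278 26843546 [flN] ndN5q1 :=
  certX ⟨T.a (T.l 0) (T.a (T.l 0) (T.l 0)),
    by decide +kernel⟩
theorem k_g52N : CertX 1073741824 166215235 1046898278 26843546 [flN] ndN5q2 :=
  certX ⟨T.l 0,
    by decide +kernel⟩
theorem k_g60N : CertX 0 536870912 1046898278 26843546 [flN] ndN6q0 :=
  certX ⟨T.a (T.a (T.a (T.l 0) (T.l 0)) (T.l 0)) (T.l 0),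
    by decide +kernel⟩
theorem k_g61N : CertX 536870912 536870912 1046898278 26843546 [flN] ndN6q1 :=
  certX ⟨T.a (T.l 0) (T.a (T.l 0) (T.l 0)),
    by decide +kernel⟩
theorem k_g62N : CertX 1073741824 166215235 1046898278 26843546 [flN] ndN6q2 :=
  certX ⟨T.l 0,
    by decide +kernel⟩
theorem k_g70N : CertX 0 536870912 1046898278 26843546 [flN] ndN7q0 :=
  certX ⟨T.l 0,
    by decide +kernel⟩
theorem k_g71N : CertX 536870912 536870912 1046898278 26843546 [flN] ndN7q1 :=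
  certX ⟨T.a (T.l 0) (T.a (T.l 0) (T.l 0)),
    by decide +kernel⟩
theorem k_g72N : CertX 1073741824 166215235 1046898278 26843546 [flN] ndN7q2 :=
  certX ⟨T.l 0,
    by decide +kernel⟩
theorem k_g02N : CertX 489304149 47566763 1046898278 26843546 [flN] ndN0q2 :=
  certX ⟨T.l 0,
    by decide +kernel⟩
theorem k_swN : CertP 0 489518898 1046898278 26843546 [fuN2] yag xsg pcN2 :=
  certP ⟨T.a (T.l 0) (T.a (T.l 0) (T.a (T.a (T.l 0) (T.l 0)) (T.c (T.l 0) (T.l 0)))),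
    by decide +kernel⟩
theorem k_sgN : CertP 0 489518898 1046898278 26843546 [flN] yag xsg pcN2 :=
  certP ⟨T.a (T.l 0) (T.a (T.l 0) (T.a (T.l 0) (T.l 0))),
    by decide +kernel⟩
theorem k_hb11N : CertX 1064335845 9405979 1046898278 26843546 [fhbN1] ndN1q1 :=
  certX ⟨T.l 0,
    by decide +kernel⟩
theorem k_hb21N : CertX 1064335845 9405979 1046898278 26843546 [fhbN1] ndN2q1 :=
  certX ⟨T.l 0,
    by decide +kernel⟩
theorem k_hb31N : CertX 1064335845 9405979 1046898278 26843546 [fhbN1] ndN3q1 :=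
  certX ⟨T.l 0,
    by decide +kernel⟩
theorem k_hb71N : CertX 1064335845 9405979 1046898278 26843546 [fhbN1] ndN7q1 :=
  certX ⟨T.l 0,
    by decide +kernel⟩
theorem k_h52N : CertX 1073741824 536870912 1046898278 26843546 [fhN2] ndN5q2 :=
  certX ⟨T.a (T.a (T.a (T.a (T.l 0) (T.l 0)) (T.a (T.l 0) (T.l 0))) (T.a (T.a (T.a (T.l 0) (T.l 0)) (T.l 0)) (T.a (T.l 0) (T.a (T.l 0) (T.l 0))))) (T.a (T.a (T.l 0) (T.l 0)) (T.l 0)),
    by decide +kernel⟩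
theorem k_h62N : CertX 1073741824 536870912 1046898278 26843546 [fhN2] ndN6q2 :=
  certX ⟨T.a (T.a (T.a (T.l 0) (T.l 0)) (T.a (T.a (T.l 0) (T.l 0)) (T.l 0))) (T.a (T.l 0) (T.l 0)),
    by decide +kernel⟩
theorem k_h72N : CertX 1073741824 536870912 1046898278 26843546 [fhN2] ndN7q2 :=
  certX ⟨T.a (T.a (T.a (T.l 0) (T.l 0)) (T.a (T.a (T.a (T.l 0) (T.l 0)) (T.l 0)) (T.l 0))) (T.a (T.a (T.l 0) (T.l 0)) (T.a (T.l 0) (T.l 0))),
    by decide +kernel⟩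
theorem k_h32N : CertX 1103567985 507044751 1046898278 26843546 [fhN2] ndN3q2 :=
  certX ⟨T.a (T.a (T.a (T.a (T.a (T.l 0) (T.l 0)) (T.a (T.l 0) (T.l 0))) (T.a (T.l 0) (T.l 0))) (T.a (T.l 0) (T.l 0))) (T.a (T.l 0) (T.l 0)),
    by decide +kernel⟩
theorem k_h02N : CertX 0 489518898 1046898278 26843546 [fhN2] ndN0q2 :=
  certX ⟨T.a (T.a (T.a (T.c (T.a (T.l 0) (T.l 0)) (T.a (T.a (T.l 0) (T.l 0)) (T.l 0))) (T.c (T.a (T.l 0) (T.l 0)) (T.a (T.l 0) (T.l 0)))) (T.a (T.c (T.l 0) (T.a (T.l 0) (T.l 0))) (T.c (T.a (T.l 0) (T.l 0)) (T.a (T.l 0) (T.l 0))))) (T.a (T.a (T.c (T.a (T.l 0) (T.l 0)) (T.a (T.a (T.l 0) (T.l 0)) (T.a (T.l 0) (T.l 0)))) (T.c (T.a (T.l 0) (T.l 0)) (T.a (T.a (T.l 0) (T.l 0)) (T.a (T.l 0) (T.l 0))))) (T.a (T.c (T.a (T.l 0) (T.l 0)) (T.a (T.l 0) (T.a (T.l 0) (T.l 0)))) (T.a (T.c (T.l 0) (T.a (T.l 0) (T.a (T.l 0) (T.l 0)))) (T.c (T.a (T.l 0) (T.l 0)) (T.c (T.l 0)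 (T.a (T.l 0) (T.l 0))))))),
    by decide +kernel⟩
theorem k_h12aN : CertX 0 420477299 1046898278 26843546 [fhN2] ndN1q2a :=
  certX ⟨T.a (T.a (T.l 0) (T.a (T.l 0) (T.l 0))) (T.a (T.a (T.l 0) (T.l 0)) (T.a (T.c (T.l 0) (T.l 0)) (T.c (T.l 0) (T.a (T.l 0) (T.l 0))))),
    by decide +kernel⟩
theorem k_h12bN : CertX 1239849684 370763052 1046898278 26843546 [fhN2] ndN1q2b :=
  certX ⟨T.a (T.a (T.l 0) (T.l 0)) (T.l 0),
    by decide +kernel⟩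
theorem k_h22aN : CertX 0 420477299 1046898278 26843546 [fhN2] ndN2q2a :=
  certX ⟨T.a (T.a (T.l 0) (T.l 0)) (T.a (T.l 0) (T.a (T.a (T.l 0) (T.l 0)) (T.c (T.l 0) (T.a (T.l 0) (T.l 0))))),
    by decide +kernel⟩
theorem k_h22bN : CertX 1239849684 370763052 1046898278 26843546 [fhN2] ndN2q2b :=
  certX ⟨T.a (T.a (T.l 0) (T.l 0)) (T.l 0),
    by decide +kernel⟩
theorem k_h13N : CertX 1610612736 469762048 1046898278 26843546 [fhN3] ndN1q3 :=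
  certX ⟨T.a (T.l 0) (T.l 0),
    by decide +kernel⟩
theorem k_h23N : CertX 1610612736 469762048 1046898278 26843546 [fhN3] ndN2q3 :=
  certX ⟨T.a (T.l 0) (T.a (T.l 0) (T.l 0)),
    by decide +kernel⟩
theorem k_h33N : CertX 1610612736 497249839 1046898278 26843546 [fhN3] ndN3q3 :=
  certX ⟨T.a (T.l 0) (T.a (T.l 0) (T.a (T.l 0) (T.l 0))),
    by decide +kernel⟩
theorem k_h53N : CertX 355515917 874670091 1046898278 26843546 [fhN3] ndN5q3 :=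
  certX ⟨T.a (T.a (T.l 0) (T.l 0)) (T.a (T.l 0) (T.l 0)),
    by decide +kernel⟩
theorem k_h63N : CertX 355515917 874670091 1046898278 26843546 [fhN3] ndN6q3 :=
  certX ⟨T.a (T.a (T.l 0) (T.l 0)) (T.a (T.l 0) (T.l 0)),
    by decide +kernel⟩
theorem k_h73N : CertX 355515917 874670091 1046898278 26843546 [fhN3] ndN7q3 :=
  certX ⟨T.a (T.a (T.a (T.l 0) (T.l 0)) (T.a (T.l 0) (T.l 0))) (T.a (T.a (T.l 0) (T.l 0)) (T.a (T.l 0) (T.l 0))),
    by decide +kernel⟩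
theorem k_r62N : CertX 1073741824 536870912 1046898278 26843546 [frN2, fxd0, fxumf] ndN6q2 :=
  certX ⟨T.a (T.a (T.a (T.l 0) (T.l 0)) (T.l 0)) (T.l 0),
    by decide +kernel⟩
theorem k_r72N : CertX 1103567985 507044751 1046898278 26843546 [frN2] ndN7q2 :=
  certX ⟨T.a (T.a (T.a (T.c (T.a (T.c (T.l 0) (T.a (T.l 0) (T.l 0))) (T.c (T.l 0) (T.l 0))) (T.a (T.c (T.a (T.l 0) (T.l 0)) (T.a (T.l 0) (T.l 0))) (T.a (T.l 0) (T.l 0)))) (T.c (T.a (T.l 0) (T.l 0)) (T.a (T.l 0) (T.a (T.l 0) (T.l 0))))) (T.a (T.c (T.l 0) (T.a (T.l 0) (T.l 0))) (T.l 0))) (T.a (T.a (T.l 0) (T.l 0)) (T.a (T.l 0) (T.l 0))),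
    by decide +kernel⟩
theorem k_r73N : CertX 1073741824 156444184 1046898278 26843546 [frN3, fxd0] ndN7q3 :=
  certX ⟨T.a (T.l 0) (T.l 0),
    by decide +kernel⟩
theorem k_rd2N : CertP 1073741824 536870912 1046898278 26843546 [frN2, fxumf] idf xdg pcN2 :=
  certP ⟨T.a (T.a (T.a (T.c (T.l 0) (T.a (T.l 0) (T.l 0))) (T.l 0)) (T.a (T.l 0) (T.a (T.l 0) (T.l 0)))) (T.a (T.a (T.l 0) (T.l 0)) (T.a (T.l 0) (T.l 0))),
    by decide +kernel⟩
theorem k_rd3N : CertP 1610612736 142915037 1046898278 26843546 [frN3, fxq3] idf xdg pcN3 :=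
  certP ⟨T.a (T.l 0) (T.l 0),
    by decide +kernel⟩
theorem k_n02N : CertX 107374182 382144716 1046898278 26843546 [fnN2] ndN0q2 :=
  certX ⟨T.a (T.a (T.a (T.c (T.a (T.a (T.l 0) (T.l 0)) (T.l 0)) (T.a (T.a (T.l 0) (T.l 0)) (T.l 0))) (T.c (T.a (T.l 0) (T.l 0)) (T.a (T.l 0) (T.l 0)))) (T.c (T.a (T.a (T.l 0) (T.l 0)) (T.a (T.l 0) (T.l 0))) (T.a (T.a (T.l 0) (T.l 0)) (T.c (T.l 0) (T.l 0))))) (T.a (T.c (T.a (T.a (T.l 0) (T.l 0)) (T.a (T.a (T.l 0) (T.l 0)) (T.l 0))) (T.a (T.c (T.l 0) (T.a (T.l 0) (T.l 0))) (T.a (T.a (T.l 0) (T.l 0)) (T.c (T.l 0) (T.l 0))))) (T.a (T.c (T.a (T.l 0) (T.a (T.l 0) (T.l 0))) (T.c (T.a (T.l 0) (T.l 0)) (T.a (T.l 0) (T.a (T.l 0) (T.l 0))))) (T.c (T.a (T.a (T.l 0) (T.l 0)) (T.a (T.l 0) (T.l 0))) (T.a (T.c (T.l 0) (T.a (T.l 0) (T.l 0))) (T.c (T.l 0) (T.a (T.l 0) (T.l 0))))))),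
    by decide +kernel⟩
theorem k_nqN : CertF2 0 107374183 1046898278 26843546 [nqN] :=
  certF2 ⟨T.c (T.c (T.a (T.a (T.l 0) (T.l 0)) (T.a (T.l 0) (T.l 0))) (T.a (T.a (T.l 0) (T.l 0)) (T.a (T.l 0) (T.l 0)))) (T.c (T.c (T.a (T.l 0) (T.l 0)) (T.a (T.l 0) (T.l 0))) (T.c (T.a (T.l 0) (T.l 0)) (T.a (T.l 0) (T.l 0)))),
    by decide +kernel⟩
theorem k_n12aN : CertX 0 420477299 1046898278 26843546 [fnN2] ndN1q2a :=
  certX ⟨T.a (T.a (T.c (T.l 0) (T.l 0)) (T.a (T.l 0) (T.l 0))) (T.a (T.a (T.l 0) (T.l 0)) (T.a (T.c (T.l 0) (T.l 0)) (T.c (T.l 0) (T.a (T.l 0) (T.l 0))))),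
    by decide +kernel⟩
theorem k_n12bN : CertX 1239849684 370763052 1046898278 26843546 [fnN2] ndN1q2b :=
  certX ⟨T.a (T.a (T.c (T.l 0) (T.l 0)) (T.l 0)) (T.l 0),
    by decide +kernel⟩
theorem k_n22aN : CertX 0 420477299 1046898278 26843546 [fnN2] ndN2q2a :=
  certX ⟨T.a (T.l 0) (T.a (T.l 0) (T.a (T.l 0) (T.l 0))),
    by decide +kernel⟩
theorem k_n22bN : CertX 1239849684 370763052 1046898278 26843546 [fnN2] ndN2q2b :=
  certX ⟨T.a (T.a (T.l 0) (T.l 0)) (T.l 0),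
    by decide +kernel⟩
theorem k_n32N : CertX 1103567985 507044751 1046898278 26843546 [fnN2] ndN3q2 :=
  certX ⟨T.a (T.a (T.a (T.a (T.l 0) (T.l 0)) (T.l 0)) (T.l 0)) (T.a (T.l 0) (T.l 0)),
    by decide +kernel⟩
theorem k_n52N : CertX 1103567985 507044751 1046898278 26843546 [fnN2] ndN5q2 :=
  certX ⟨T.a (T.a (T.a (T.l 0) (T.l 0)) (T.l 0)) (T.a (T.l 0) (T.l 0)),
    by decide +kernel⟩
theorem k_nb52N : CertX 1073741824 29826162 1046898278 26843546 [fnbN2] ndN5q2 :=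
  certX ⟨T.l 0,
    by decide +kernel⟩
theorem k_n13N : CertX 1610612736 187260575 1046898278 26843546 [fnN3] ndN1q3 :=
  certX ⟨T.l 0,
    by decide +kernel⟩
theorem k_n23N : CertX 1610612736 187260575 1046898278 26843546 [fnN3] ndN2q3 :=
  certX ⟨T.l 0,
    by decide +kernel⟩
theorem k_n33N : CertX 1610612736 187260575 1046898278 26843546 [fnN3] ndN3q3 :=
  certX ⟨T.l 0,
    by decide +kernel⟩
theorem k_n53N : CertX 1017048255 213137753 1046898278 26843546 [fnN3] ndN5q3 :=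
  certX ⟨T.a (T.l 0) (T.l 0),
    by decide +kernel⟩
theorem k_n63N : CertX 1017048255 213137753 1046898278 26843546 [fnN3] ndN6q3 :=
  certX ⟨T.a (T.a (T.l 0) (T.l 0)) (T.l 0),
    by decide +kernel⟩

end Pool.Agent.Strip051.G.IE1.Tab
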