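import Pool.Agent.Strip051.PB.FxFn

/-! # The coefficients at the floor near `x = 1` (generated) -/

set_option linter.all false

namespace Pool.Agent.Strip051.G.IE1.Tab

open Pool.Agent.Strip051.PB Pool.Agent.Strip051.PB.Fx Pool.Agent.StripNear Pool.Agent.Strip051.LC


noncomputable def befg_3 : Fn2 := ⟨_, _, fun h1 h2 => (enc_sub (enc_pnc _ 1) h2)⟩
noncomputable def befg_33 : Fn2 := ⟨_, _, fun h1 h2 => (enc_subn 1 h1)⟩
noncomputable def befg : Fn2 := ⟨_, _, fun h1 h2 => (enc_norm (enc_case (enc_subr 43 40 h1) (enc_add (enc_add (enc_mul (enc_norm (befg_33.enc h1 h2)) (enc_norm (enc_add (enc_mul (enc_norm (befg_33.enc h1 h2)) (enc_norm (enc_subr 217 1000 (enc_scale 2 5 (befg_33.enc h1 h2))))) (enc_pnc _ 2)))) (enc_pnc _ 1)) (enc_mul (enc_norm (befg_3.enc h1 h2)) (enc_norm (enc_add (enc_nat 12 (befg_33.enc h1 h2)) (enc_rat _ 19 10))))) (enc_case (enc_subr 11 10 h1) (enc_add (enc_subr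 246513 400000 (enc_scale 65683 40000 h1)) (enc_mul (enc_norm (befg_3.enc h1 h2)) (enc_norm (enc_subr 29 5 (enc_nat 8 h1))))) (enc_case (enc_subr 231 200 h1) (enc_add (enc_subr 1 4 (enc_scale 72 55 h1)) (enc_mul (enc_norm (befg_3.enc h1 h2)) (enc_norm (enc_subn 11 (enc_scale 140 11 h1))))) (enc_add (enc_rat _ 631 500) (enc_scale 37 10 (befg_3.enc h1 h2)))))))⟩
theorem befg_f (t x : ℝ) : befg.v t x = if t - 43 / 40 ≤ 0 then ((t - 1) * ((t - 1) * ((t - 1) * (2 / 5) + (-(217 / 1000))) + 2) + 1) + (1 - x) * ((t - 1) * (12) + 19 / 10) else if t - 11 / 10 ≤ 0 then 65683 / 40000 * t + (-(246513 / 400000)) + (1 - x) * (8 * t + (-(29 / 5))) else if t - 231 / 200 ≤ 0 then 72 / 55 * t + (-(1 / 4)) + (1 - x) * (140 / 11 * t + (-(11))) else 0 * t + 631 / 500 + (1 - x) * (0 * t + 37 / 10) := by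
  simp only [befg, befg_3, befg_33]
  push_cast
  refine ite_congr rfl (fun _ => by ring) fun _ => ?_
  refine ite_congr rfl (fun _ => by ring) fun _ => ?_
  refine ite_congr rfl (fun _ => by ring) fun _ => ?_
  ring
theorem befg_m3 {x : ℝ} : MonoFrom (231 / 200) fun t => 0 * t + 631 / 500 + (1 - x) * (0 * t + 37 / 10) := fun _ _ _ _ => by linarith
theorem befg_m2 {x : ℝ} (hx : 39 / 40 ≤ x) (hx' : x < 1) : MonoFrom (11 / 10) fun t => if t - 231 / 200 ≤ 0 then 72 / 55 * t + (-(1 / 4)) + (1 - x) * (140 / 11 * t + (-(11))) else 0 * t + 631 / 500 + (1 - x) * (0 * t + 37 / 10) := by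
  refine MonoFrom.ite (f := fun t => 72 / 55 * t + (-(1 / 4)) + (1 - x) * (140 / 11 * t + (-(11)))) (g := fun t => 0 * t + 631 / 500 + (1 - x) * (0 * t + 37 / 10)) ?_ befg_m3 ?_
  · intro a b _ hab _
    have h := mul_nonneg (show (0 : ℝ) ≤ 72 / 55 + 140 / 11 * (1 - x) by linarith) (show 0 ≤ b - a by linarith)
    nlinarith [h]
  · show 72 / 55 * (231 / 200) + (-(1 / 4)) + (1 - x) * (140 / 11 * (231 / 200) + (-(11))) ≤ 0 * (231 / 200) + 631 / 500 + (1 - x) * (0 * (231 / 200) + 37 / 10)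
    skip
    all_goals nlinarith
theorem befg_m1 {x : ℝ} (hx : 39 / 40 ≤ x) (hx' : x < 1) : MonoFrom (43 / 40) fun t => if t - 11 / 10 ≤ 0 then 65683 / 40000 * t + (-(246513 / 400000)) + (1 - x) * (8 * t + (-(29 / 5))) else if t - 231 / 200 ≤ 0 then 72 / 55 * t + (-(1 / 4)) + (1 - x) * (140 / 11 * t + (-(11))) else 0 * t + 631 / 500 + (1 - x) * (0 * t + 37 / 10) := by
  refine MonoFrom.ite (f := fun t => 65683 / 40000 * t + (-(246513 / 400000)) + (1 - x) * (8 * t + (-(29 / 5)))) (g := fun t => if t - 231 / 200 ≤ 0 then 72 / 55 * t + (-(1 / 4)) + (1 - x) * (140 / 11 * t + (-(11))) else 0 * t + 631 / 500 + (1 - x) * (0 * t + 37 / 10)) ?_ (befg_m2 hx hx') ?_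
  · intro a b _ hab _
    have h := mul_nonneg (show (0 : ℝ) ≤ 65683 / 40000 + 8 * (1 - x) by linarith) (show 0 ≤ b - a by linarith)
    nlinarith [h]
  · show 65683 / 40000 * (11 / 10) + (-(246513 / 400000)) + (1 - x) * (8 * (11 / 10) + (-(29 / 5))) ≤ if (11 / 10) - 231 / 200 ≤ 0 then 72 / 55 * (11 / 10) + (-(1 / 4)) + (1 - x) * (140 / 11 * (11 / 10) + (-(11))) else 0 * (11 / 10) + 631 / 500 + (1 - x) * (0 * (11 / 10) + 37 / 10)
    rw [if_pos (by norm_num)]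
    all_goals nlinarith
theorem befg_m0 {x : ℝ} (hx : 39 / 40 ≤ x) (hx' : x < 1) : MonoFrom (9 / 10) fun t => if t - 43 / 40 ≤ 0 then ((t - 1) * ((t - 1) * ((t - 1) * (2 / 5) + (-(217 / 1000))) + 2) + 1) + (1 - x) * ((t - 1) * (12) + 19 / 10) else if t - 11 / 10 ≤ 0 then 65683 / 40000 * t + (-(246513 / 400000)) + (1 - x) * (8 * t + (-(29 / 5))) else if t - 231 / 200 ≤ 0 then 72 / 55 * t + (-(1 / 4)) + (1 - x) * (140 / 11 * t + (-(11))) else 0 * t + 631 / 500 + (1 - x) * (0 * t + 37 / 10) := by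
  refine MonoFrom.ite (f := fun t => ((t - 1) * ((t - 1) * ((t - 1) * (2 / 5) + (-(217 / 1000))) + 2) + 1) + (1 - x) * ((t - 1) * (12) + 19 / 10)) (g := fun t => if t - 11 / 10 ≤ 0 then 65683 / 40000 * t + (-(246513 / 400000)) + (1 - x) * (8 * t + (-(29 / 5))) else if t - 231 / 200 ≤ 0 then 72 / 55 * t + (-(1 / 4)) + (1 - x) * (140 / 11 * t + (-(11))) else 0 * t + 631 / 500 + (1 - x) * (0 * t + 37 / 10)) ?_ (befg_m1 hx hx') ?_
  · intro a b ha hab hb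
    have h : 0 ≤ (b - a) * (2 * ((b - 1) ^ 0 * (a - 1) ^ 0) + (-(217 / 1000)) * ((b - 1) ^ 0 * (a - 1) ^ 1 + (b - 1) ^ 1 * (a - 1) ^ 0) + 2 / 5 * ((b - 1) ^ 0 * (a - 1) ^ 2 + (b - 1) ^ 1 * (a - 1) ^ 1 + (b - 1) ^ 2 * (a - 1) ^ 0) + (1 - x) * (12 * ((b - 1) ^ 0 * (a - 1) ^ 0))) :=
      mul_nonneg (by linarith) (by nlinarith [mul_nonneg (sub_nonneg.2 ha) (sub_nonneg.2 hb), mul_nonneg (sub_nonneg.2 ha) (sub_nonneg.2 hab), sq_nonneg (a - 1), sq_nonneg (b - 1)])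
    nlinarith [h]
  · show (((43 / 40) - 1) * (((43 / 40) - 1) * (((43 / 40) - 1) * (2 / 5) + (-(217 / 1000))) + 2) + 1) + (1 - x) * (((43 / 40) - 1) * (12) + 19 / 10) ≤ if (43 / 40) - 11 / 10 ≤ 0 then 65683 / 40000 * (43 / 40) + (-(246513 / 400000)) + (1 - x) * (8 * (43 / 40) + (-(29 / 5))) else if (43 / 40) - 231 / 200 ≤ 0 then 72 / 55 * (43 / 40) + (-(1 / 4)) + (1 - x) * (140 / 11 * (43 / 40) + (-(11))) else 0 * (43 / 40) + 631 / 500 + (1 - x) * (0 * (43 / 40) + 37 / 10)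
    rw [if_pos (by norm_num)]
    all_goals nlinarith
theorem befg_mono {x a b : ℝ} (hx : 39 / 40 ≤ x) (hx' : x < 1) (ha : 9 / 10 ≤ a) (hab : a ≤ b) :
    befg.v a x ≤ befg.v b x := by
  rw [befg_f, befg_f]
  exact befg_m0 hx hx' a b ha hab
noncomputable def beng_5 : Fn2 := ⟨_, _, fun h1 h2 => (enc_scale 21 10 (enc_sub (enc_pnc _ 1) h2))⟩
noncomputable def beng : Fn2 := ⟨_, _, fun h1 h2 => (enc_norm (enc_case (enc_subn 1 h1) (enc_add (enc_pnc _ 1) (beng_5.enc h1 h2)) (enc_case (enc_subr 1147 1000 h1) (enc_add (enc_subr 7 10 (enc_scale 17 10 h1)) (beng_5.enc h1 h2)) (enc_add (enc_rat _ 12499 10000) (beng_5.enc h1 h2)))))⟩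
theorem beng_f (t x : ℝ) : beng.v t x = if t - 1 ≤ 0 then 0 * t + 1 + (1 - x) * (0 * t + 21 / 10) else if t - 1147 / 1000 ≤ 0 then 17 / 10 * t + (-(7 / 10)) + (1 - x) * (0 * t + 21 / 10) else 0 * t + 12499 / 10000 + (1 - x) * (0 * t + 21 / 10) := by
  simp only [beng, beng_5]
  push_cast
  refine ite_congr rfl (fun _ => by ring) fun _ => ?_
  refine ite_congr rfl (fun _ => by ring) fun _ => ?_
  ring
theorem beng_m2 {x : ℝ} : MonoFrom (1147 / 1000) fun t => 0 * t + 12499 / 10000 + (1 - x) * (0 * t + 21 / 10) := fun _ _ _ _ => by linarith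
theorem beng_m1 {x : ℝ} (hx : 39 / 40 ≤ x) (hx' : x < 1) : MonoFrom (1) fun t => if t - 1147 / 1000 ≤ 0 then 17 / 10 * t + (-(7 / 10)) + (1 - x) * (0 * t + 21 / 10) else 0 * t + 12499 / 10000 + (1 - x) * (0 * t + 21 / 10) := by
  refine MonoFrom.ite (f := fun t => 17 / 10 * t + (-(7 / 10)) + (1 - x) * (0 * t + 21 / 10)) (g := fun t => 0 * t + 12499 / 10000 + (1 - x) * (0 * t + 21 / 10)) ?_ beng_m2 ?_
  · intro a b _ hab _
    have h := mul_nonneg (show (0 : ℝ) ≤ 17 / 10 + 0 * (1 - x) by linarith) (show 0 ≤ b - a by linarith)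
    nlinarith [h]
  · show 17 / 10 * (1147 / 1000) + (-(7 / 10)) + (1 - x) * (0 * (1147 / 1000) + 21 / 10) ≤ 0 * (1147 / 1000) + 12499 / 10000 + (1 - x) * (0 * (1147 / 1000) + 21 / 10)
    skip
    all_goals nlinarith
theorem beng_m0 {x : ℝ} (hx : 39 / 40 ≤ x) (hx' : x < 1) : MonoFrom (9 / 10) fun t => if t - 1 ≤ 0 then 0 * t + 1 + (1 - x) * (0 * t + 21 / 10) else if t - 1147 / 1000 ≤ 0 then 17 / 10 * t + (-(7 / 10)) + (1 - x) * (0 * t + 21 / 10) else 0 * t + 12499 / 10000 + (1 - x) * (0 * t + 21 / 10) := by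
  refine MonoFrom.ite (f := fun t => 0 * t + 1 + (1 - x) * (0 * t + 21 / 10)) (g := fun t => if t - 1147 / 1000 ≤ 0 then 17 / 10 * t + (-(7 / 10)) + (1 - x) * (0 * t + 21 / 10) else 0 * t + 12499 / 10000 + (1 - x) * (0 * t + 21 / 10)) ?_ (beng_m1 hx hx') ?_
  · intro a b _ _ _
    linarith
  · show 0 * (1) + 1 + (1 - x) * (0 * (1) + 21 / 10) ≤ if (1) - 1147 / 1000 ≤ 0 then 17 / 10 * (1) + (-(7 / 10)) + (1 - x) * (0 * (1) + 21 / 10) else 0 * (1) + 12499 / 10000 + (1 - x) * (0 * (1) + 21 / 10)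
    rw [if_pos (by norm_num)]
    all_goals nlinarith
theorem beng_mono {x a b : ℝ} (hx : 39 / 40 ≤ x) (hx' : x < 1) (ha : 9 / 10 ≤ a) (hab : a ≤ b) :
    beng.v a x ≤ beng.v b x := by
  rw [beng_f, beng_f]
  exact beng_m0 hx hx' a b ha hab
noncomputable def alfg_3 : Fn2 := ⟨_, _, fun h1 h2 => (enc_sub (enc_pnc _ 1) h2)⟩
noncomputable def alfg_56 : Fn2 := ⟨_, _, fun h1 h2 => (enc_subr 39 10 (enc_scale 17 4 h1))⟩
noncomputable def alfg : Fn2 := ⟨_, _, fun h1 h2 => (enc_norm (enc_case (enc_subn 1 h1) (enc_rat _ 23 50) (enc_case (enc_subr 103 100 h1) (enc_subr 77 50 (enc_nat 2 h1)) (enc_case (enc_subr 53 50 h1) (enc_subr 113 60 (enc_scale 7 3 h1)) (enc_case (enc_subr 27 25 h1) (enc_subr 209 50 (enc_scale 9 2 h1)) (enc_case (enc_subr 11 10 h1) (enc_subr 89 20 (enc_scale 19 4 h1)) (enc_case (enc_subr 28 25 h1) (alfg_56.enc h1 h2) (enc_case (enc_subr 57 50 h1) (alfg_56.enc h1 h2) (enc_case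 (enc_subr 2291 2000 h1) (enc_add (enc_subr 18441 2200 (enc_scale 90 11 h1)) (enc_mul (enc_norm (alfg_3.enc h1 h2)) (enc_norm (enc_sub (enc_rat _ 10716 55) (enc_scale 1880 11 h1))))) (enc_case (enc_subr 11547 10000 h1) (enc_add (enc_subr 43641 18400 (enc_scale 135 46 h1)) (enc_mul (enc_norm (alfg_3.enc h1 h2)) (enc_norm (enc_sub (enc_rat _ 307123 2300) (enc_scale 2700 23 h1))))) (enc_case (enc_subr 249 200 h1) (enc_sub (enc_rat _ 1017 1000) (enc_scale 101 50 (alfg_3.enc h1 h2))) (enc_case (enc_subr 27 20 h1) (enc_add (enc_subr 143 700 (enc_scale 103 105 h1)) (enc_mul (enc_norm (alfg_3.enc h1 h2)) (enc_norm (enc_subr 909 35 (enc_scale 404 21 h1))))) (enc_rat _ 28 25)))))))))))))⟩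
theorem alfg_f (t x : ℝ) : alfg.v t x = if t - 1 ≤ 0 then 0 * t + 23 / 50 + (1 - x) * (0 * t + 0) else if t - 103 / 100 ≤ 0 then 2 * t + (-(77 / 50)) + (1 - x) * (0 * t + 0) else if t - 53 / 50 ≤ 0 then 7 / 3 * t + (-(113 / 60)) + (1 - x) * (0 * t + 0) else if t - 27 / 25 ≤ 0 then 9 / 2 * t + (-(209 / 50)) + (1 - x) * (0 * t + 0) else if t - 11 / 10 ≤ 0 then 19 / 4 * t + (-(89 / 20)) + (1 - x) * (0 * t + 0) else if t - 28 / 25 ≤ 0 then 17 / 4 * t + (-(39 / 10)) + (1 - x) * (0 * t + 0) else if t - 57 / 50 ≤ 0 then 17 / 4 * t + (-(39 / 10)) + (1 - x) * (0 * t + 0) else if t - 2291 / 2000 ≤ 0 then 90 / 11 * t + (-(18441 / 2200)) + (1 - x) * ((-(1880 / 11)) * t + 10716 / 55) else if t - 11547 / 10000 ≤ 0 then 135 / 46 * t + (-(43641 / 18400)) + (1 - x) * ((-(2700 / 23)) * t + 307123 / 2300) else if t - 249 / 200 ≤ 0 then 0 * t + 1017 / 1000 + (1 - x) * (0 * t + (-(101 / 50))) else if t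 - 27 / 20 ≤ 0 then 103 / 105 * t + (-(143 / 700)) + (1 - x) * (404 / 21 * t + (-(909 / 35))) else 0 * t + 28 / 25 + (1 - x) * (0 * t + 0) := by
  simp only [alfg, alfg_3, alfg_56]
  push_cast
  refine ite_congr rfl (fun _ => by ring) fun _ => ?_
  refine ite_congr rfl (fun _ => by ring) fun _ => ?_
  refine ite_congr rfl (fun _ => by ring) fun _ => ?_
  refine ite_congr rfl (fun _ => by ring) fun _ => ?_
  refine ite_congr rfl (fun _ => by ring) fun _ => ?_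
  refine ite_congr rfl (fun _ => by ring) fun _ => ?_
  refine ite_congr rfl (fun _ => by ring) fun _ => ?_
  refine ite_congr rfl (fun _ => by ring) fun _ => ?_
  refine ite_congr rfl (fun _ => by ring) fun _ => ?_
  refine ite_congr rfl (fun _ => by ring) fun _ => ?_
  refine ite_congr rfl (fun _ => by ring) fun _ => ?_
  ring
theorem alfg_m11 {x : ℝ} : MonoFrom (27 / 20) fun t => 0 * t + 28 / 25 + (1 - x) * (0 * t + 0) := fun _ _ _ _ => by linarith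
theorem alfg_m10 {x : ℝ} (hx : 39 / 40 ≤ x) (hx' : x < 1) : MonoFrom (249 / 200) fun t => if t - 27 / 20 ≤ 0 then 103 / 105 * t + (-(143 / 700)) + (1 - x) * (404 / 21 * t + (-(909 / 35))) else 0 * t + 28 / 25 + (1 - x) * (0 * t + 0) := by
  refine MonoFrom.ite (f := fun t => 103 / 105 * t + (-(143 / 700)) + (1 - x) * (404 / 21 * t + (-(909 / 35)))) (g := fun t => 0 * t + 28 / 25 + (1 - x) * (0 * t + 0)) ?_ alfg_m11 ?_
  · intro a b _ hab _
    have h := mul_nonneg (show (0 : ℝ) ≤ 103 / 105 + 404 / 21 * (1 - x) by linarith) (show 0 ≤ b - a by linarith)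
    nlinarith [h]
  · show 103 / 105 * (27 / 20) + (-(143 / 700)) + (1 - x) * (404 / 21 * (27 / 20) + (-(909 / 35))) ≤ 0 * (27 / 20) + 28 / 25 + (1 - x) * (0 * (27 / 20) + 0)
    skip
    all_goals nlinarith
theorem alfg_m9 {x : ℝ} (hx : 39 / 40 ≤ x) (hx' : x < 1) : MonoFrom (11547 / 10000) fun t => if t - 249 / 200 ≤ 0 then 0 * t + 1017 / 1000 + (1 - x) * (0 * t + (-(101 / 50))) else if t - 27 / 20 ≤ 0 then 103 / 105 * t + (-(143 / 700)) + (1 - x) * (404 / 21 * t + (-(909 / 35))) else 0 * t + 28 / 25 + (1 - x) * (0 * t + 0) := by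
  refine MonoFrom.ite (f := fun t => 0 * t + 1017 / 1000 + (1 - x) * (0 * t + (-(101 / 50)))) (g := fun t => if t - 27 / 20 ≤ 0 then 103 / 105 * t + (-(143 / 700)) + (1 - x) * (404 / 21 * t + (-(909 / 35))) else 0 * t + 28 / 25 + (1 - x) * (0 * t + 0)) ?_ (alfg_m10 hx hx') ?_
  · intro a b _ _ _
    linarith
  · show 0 * (249 / 200) + 1017 / 1000 + (1 - x) * (0 * (249 / 200) + (-(101 / 50))) ≤ if (249 / 200) - 27 / 20 ≤ 0 then 103 / 105 * (249 / 200) + (-(143 / 700)) + (1 - x) * (404 / 21 * (249 / 200) + (-(909 / 35))) else 0 * (249 / 200) + 28 / 25 + (1 - x) * (0 * (249 / 200) + 0)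
    rw [if_pos (by norm_num)]
    all_goals nlinarith
theorem alfg_m8 {x : ℝ} (hx : 39 / 40 ≤ x) (hx' : x < 1) : MonoFrom (2291 / 2000) fun t => if t - 11547 / 10000 ≤ 0 then 135 / 46 * t + (-(43641 / 18400)) + (1 - x) * ((-(2700 / 23)) * t + 307123 / 2300) else if t - 249 / 200 ≤ 0 then 0 * t + 1017 / 1000 + (1 - x) * (0 * t + (-(101 / 50))) else if t - 27 / 20 ≤ 0 then 103 / 105 * t + (-(143 / 700)) + (1 - x) * (404 / 21 * t + (-(909 / 35))) else 0 * t + 28 / 25 + (1 - x) * (0 * t + 0) := by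
  refine MonoFrom.ite (f := fun t => 135 / 46 * t + (-(43641 / 18400)) + (1 - x) * ((-(2700 / 23)) * t + 307123 / 2300)) (g := fun t => if t - 249 / 200 ≤ 0 then 0 * t + 1017 / 1000 + (1 - x) * (0 * t + (-(101 / 50))) else if t - 27 / 20 ≤ 0 then 103 / 105 * t + (-(143 / 700)) + (1 - x) * (404 / 21 * t + (-(909 / 35))) else 0 * t + 28 / 25 + (1 - x) * (0 * t + 0)) ?_ (alfg_m9 hx hx') ?_
  · intro a b _ hab _
    have h := mul_nonneg (show (0 : ℝ) ≤ 135 / 46 + (-(2700 / 23)) * (1 - x) by linarith) (show 0 ≤ b - a by linarith)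
    nlinarith [h]
  · show 135 / 46 * (11547 / 10000) + (-(43641 / 18400)) + (1 - x) * ((-(2700 / 23)) * (11547 / 10000) + 307123 / 2300) ≤ if (11547 / 10000) - 249 / 200 ≤ 0 then 0 * (11547 / 10000) + 1017 / 1000 + (1 - x) * (0 * (11547 / 10000) + (-(101 / 50))) else if (11547 / 10000) - 27 / 20 ≤ 0 then 103 / 105 * (11547 / 10000) + (-(143 / 700)) + (1 - x) * (404 / 21 * (11547 / 10000) + (-(909 / 35))) else 0 * (11547 / 10000) + 28 / 25 + (1 - x) * (0 * (11547 / 10000) + 0)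
    rw [if_pos (by norm_num)]
    all_goals nlinarith
theorem alfg_m7 {x : ℝ} (hx : 39 / 40 ≤ x) (hx' : x < 1) : MonoFrom (57 / 50) fun t => if t - 2291 / 2000 ≤ 0 then 90 / 11 * t + (-(18441 / 2200)) + (1 - x) * ((-(1880 / 11)) * t + 10716 / 55) else if t - 11547 / 10000 ≤ 0 then 135 / 46 * t + (-(43641 / 18400)) + (1 - x) * ((-(2700 / 23)) * t + 307123 / 2300) else if t - 249 / 200 ≤ 0 then 0 * t + 1017 / 1000 + (1 - x) * (0 * t + (-(101 / 50))) else if t - 27 / 20 ≤ 0 then 103 / 105 * t + (-(143 / 700)) + (1 - x) * (404 / 21 * t + (-(909 / 35))) else 0 * t + 28 / 25 + (1 - x) * (0 * t + 0) := by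
  refine MonoFrom.ite (f := fun t => 90 / 11 * t + (-(18441 / 2200)) + (1 - x) * ((-(1880 / 11)) * t + 10716 / 55)) (g := fun t => if t - 11547 / 10000 ≤ 0 then 135 / 46 * t + (-(43641 / 18400)) + (1 - x) * ((-(2700 / 23)) * t + 307123 / 2300) else if t - 249 / 200 ≤ 0 then 0 * t + 1017 / 1000 + (1 - x) * (0 * t + (-(101 / 50))) else if t - 27 / 20 ≤ 0 then 103 / 105 * t + (-(143 / 700)) + (1 - x) * (404 / 21 * t + (-(909 / 35))) else 0 * t + 28 / 25 + (1 - x) * (0 * t + 0)) ?_ (alfg_m8 hx hx') ?_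
  · intro a b _ hab _
    have h := mul_nonneg (show (0 : ℝ) ≤ 90 / 11 + (-(1880 / 11)) * (1 - x) by linarith) (show 0 ≤ b - a by linarith)
    nlinarith [h]
  · show 90 / 11 * (2291 / 2000) + (-(18441 / 2200)) + (1 - x) * ((-(1880 / 11)) * (2291 / 2000) + 10716 / 55) ≤ if (2291 / 2000) - 11547 / 10000 ≤ 0 then 135 / 46 * (2291 / 2000) + (-(43641 / 18400)) + (1 - x) * ((-(2700 / 23)) * (2291 / 2000) + 307123 / 2300) else if (2291 / 2000) - 249 / 200 ≤ 0 then 0 * (2291 / 2000) + 1017 / 1000 + (1 - x) * (0 * (2291 / 2000) + (-(101 / 50))) else if (2291 / 2000) - 27 / 20 ≤ 0 then 103 / 105 * (2291 / 2000) + (-(143 / 700)) + (1 - x) * (404 / 21 * (2291 / 2000) + (-(909 / 35))) else 0 * (2291 / 2000) + 28 / 25 + (1 - x) * (0 * (2291 / 2000) + 0)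
    rw [if_pos (by norm_num)]
    all_goals nlinarith
theorem alfg_m6 {x : ℝ} (hx : 39 / 40 ≤ x) (hx' : x < 1) : MonoFrom (28 / 25) fun t => if t - 57 / 50 ≤ 0 then 17 / 4 * t + (-(39 / 10)) + (1 - x) * (0 * t + 0) else if t - 2291 / 2000 ≤ 0 then 90 / 11 * t + (-(18441 / 2200)) + (1 - x) * ((-(1880 / 11)) * t + 10716 / 55) else if t - 11547 / 10000 ≤ 0 then 135 / 46 * t + (-(43641 / 18400)) + (1 - x) * ((-(2700 / 23)) * t + 307123 / 2300) else if t - 249 / 200 ≤ 0 then 0 * t + 1017 / 1000 + (1 - x) * (0 * t + (-(101 / 50))) else if t - 27 / 20 ≤ 0 then 103 / 105 * t + (-(143 / 700)) + (1 - x) * (404 / 21 * t + (-(909 / 35))) else 0 * t + 28 / 25 + (1 - x) * (0 * t + 0) := by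
  refine MonoFrom.ite (f := fun t => 17 / 4 * t + (-(39 / 10)) + (1 - x) * (0 * t + 0)) (g := fun t => if t - 2291 / 2000 ≤ 0 then 90 / 11 * t + (-(18441 / 2200)) + (1 - x) * ((-(1880 / 11)) * t + 10716 / 55) else if t - 11547 / 10000 ≤ 0 then 135 / 46 * t + (-(43641 / 18400)) + (1 - x) * ((-(2700 / 23)) * t + 307123 / 2300) else if t - 249 / 200 ≤ 0 then 0 * t + 1017 / 1000 + (1 - x) * (0 * t + (-(101 / 50))) else if t - 27 / 20 ≤ 0 then 103 / 105 * t + (-(143 / 700)) + (1 - x) * (404 / 21 * t + (-(909 / 35))) else 0 * t + 28 / 25 + (1 - x) * (0 * t + 0)) ?_ (alfg_m7 hx hx') ?_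
  · intro a b _ hab _
    have h := mul_nonneg (show (0 : ℝ) ≤ 17 / 4 + 0 * (1 - x) by linarith) (show 0 ≤ b - a by linarith)
    nlinarith [h]
  · show 17 / 4 * (57 / 50) + (-(39 / 10)) + (1 - x) * (0 * (57 / 50) + 0) ≤ if (57 / 50) - 2291 / 2000 ≤ 0 then 90 / 11 * (57 / 50) + (-(18441 / 2200)) + (1 - x) * ((-(1880 / 11)) * (57 / 50) + 10716 / 55) else if (57 / 50) - 11547 / 10000 ≤ 0 then 135 / 46 * (57 / 50) + (-(43641 / 18400)) + (1 - x) * ((-(2700 / 23)) * (57 / 50) + 307123 / 2300) else if (57 / 50) - 249 / 200 ≤ 0 then 0 * (57 / 50) + 1017 / 1000 + (1 - x) * (0 * (57 / 50) + (-(101 / 50))) else if (57 / 50) - 27 / 20 ≤ 0 then 103 / 105 * (57 / 50) + (-(143 / 700)) + (1 - x) * (404 / 21 * (57 / 50) + (-(909 / 35))) else 0 * (57 / 50) + 28 / 25 + (1 - x) * (0 * (57 / 50) + 0)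
    rw [if_pos (by norm_num)]
    all_goals nlinarith
theorem alfg_m5 {x : ℝ} (hx : 39 / 40 ≤ x) (hx' : x < 1) : MonoFrom (11 / 10) fun t => if t - 28 / 25 ≤ 0 then 17 / 4 * t + (-(39 / 10)) + (1 - x) * (0 * t + 0) else if t - 57 / 50 ≤ 0 then 17 / 4 * t + (-(39 / 10)) + (1 - x) * (0 * t + 0) else if t - 2291 / 2000 ≤ 0 then 90 / 11 * t + (-(18441 / 2200)) + (1 - x) * ((-(1880 / 11)) * t + 10716 / 55) else if t - 11547 / 10000 ≤ 0 then 135 / 46 * t + (-(43641 / 18400)) + (1 - x) * ((-(2700 / 23)) * t + 307123 / 2300) else if t - 249 / 200 ≤ 0 then 0 * t + 1017 / 1000 + (1 - x) * (0 * t + (-(101 / 50))) else if t - 27 / 20 ≤ 0 then 103 / 105 * t + (-(143 / 700)) + (1 - x) * (404 / 21 * t + (-(909 / 35))) else 0 * t + 28 / 25 + (1 - x) * (0 * t + 0) := by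
  refine MonoFrom.ite (f := fun t => 17 / 4 * t + (-(39 / 10)) + (1 - x) * (0 * t + 0)) (g := fun t => if t - 57 / 50 ≤ 0 then 17 / 4 * t + (-(39 / 10)) + (1 - x) * (0 * t + 0) else if t - 2291 / 2000 ≤ 0 then 90 / 11 * t + (-(18441 / 2200)) + (1 - x) * ((-(1880 / 11)) * t + 10716 / 55) else if t - 11547 / 10000 ≤ 0 then 135 / 46 * t + (-(43641 / 18400)) + (1 - x) * ((-(2700 / 23)) * t + 307123 / 2300) else if t - 249 / 200 ≤ 0 then 0 * t + 1017 / 1000 + (1 - x) * (0 * t + (-(101 / 50))) else if t - 27 / 20 ≤ 0 then 103 / 105 * t + (-(143 / 700)) + (1 - x) * (404 / 21 * t + (-(909 / 35))) else 0 * t + 28 / 25 + (1 - x) * (0 * t + 0)) ?_ (alfg_m6 hx hx') ?_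
  · intro a b _ hab _
    have h := mul_nonneg (show (0 : ℝ) ≤ 17 / 4 + 0 * (1 - x) by linarith) (show 0 ≤ b - a by linarith)
    nlinarith [h]
  · show 17 / 4 * (28 / 25) + (-(39 / 10)) + (1 - x) * (0 * (28 / 25) + 0) ≤ if (28 / 25) - 57 / 50 ≤ 0 then 17 / 4 * (28 / 25) + (-(39 / 10)) + (1 - x) * (0 * (28 / 25) + 0) else if (28 / 25) - 2291 / 2000 ≤ 0 then 90 / 11 * (28 / 25) + (-(18441 / 2200)) + (1 - x) * ((-(1880 / 11)) * (28 / 25) + 10716 / 55) else if (28 / 25) - 11547 / 10000 ≤ 0 then 135 / 46 * (28 / 25) + (-(43641 / 18400)) + (1 - x) * ((-(2700 / 23)) * (28 / 25) + 307123 / 2300) else if (28 / 25) - 249 / 200 ≤ 0 then 0 * (28 / 25) + 1017 / 1000 + (1 - x) * (0 * (28 / 25) + (-(101 / 50))) else if (28 / 25) - 27 / 20 ≤ 0 then 103 / 105 * (28 / 25) + (-(143 / 700)) + (1 - x) * (404 / 21 * (28 / 25) + (-(909 / 35))) else 0 * (28 / 25) + 28 / 25 + (1 - x) * (0 * (28 / 25) + 0)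
    rw [if_pos (by norm_num)]
    all_goals nlinarith
theorem alfg_m4 {x : ℝ} (hx : 39 / 40 ≤ x) (hx' : x < 1) : MonoFrom (27 / 25) fun t => if t - 11 / 10 ≤ 0 then 19 / 4 * t + (-(89 / 20)) + (1 - x) * (0 * t + 0) else if t - 28 / 25 ≤ 0 then 17 / 4 * t + (-(39 / 10)) + (1 - x) * (0 * t + 0) else if t - 57 / 50 ≤ 0 then 17 / 4 * t + (-(39 / 10)) + (1 - x) * (0 * t + 0) else if t - 2291 / 2000 ≤ 0 then 90 / 11 * t + (-(18441 / 2200)) + (1 - x) * ((-(1880 / 11)) * t + 10716 / 55) else if t - 11547 / 10000 ≤ 0 then 135 / 46 * t + (-(43641 / 18400)) + (1 - x) * ((-(2700 / 23)) * t + 307123 / 2300) else if t - 249 / 200 ≤ 0 then 0 * t + 1017 / 1000 + (1 - x) * (0 * t + (-(101 / 50))) else if t - 27 / 20 ≤ 0 then 103 / 105 * t + (-(143 / 700)) + (1 - x) * (404 / 21 * t + (-(909 / 35))) else 0 * t + 28 / 25 + (1 - x) * (0 * t + 0) := by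
  refine MonoFrom.ite (f := fun t => 19 / 4 * t + (-(89 / 20)) + (1 - x) * (0 * t + 0)) (g := fun t => if t - 28 / 25 ≤ 0 then 17 / 4 * t + (-(39 / 10)) + (1 - x) * (0 * t + 0) else if t - 57 / 50 ≤ 0 then 17 / 4 * t + (-(39 / 10)) + (1 - x) * (0 * t + 0) else if t - 2291 / 2000 ≤ 0 then 90 / 11 * t + (-(18441 / 2200)) + (1 - x) * ((-(1880 / 11)) * t + 10716 / 55) else if t - 11547 / 10000 ≤ 0 then 135 / 46 * t + (-(43641 / 18400)) + (1 - x) * ((-(2700 / 23)) * t + 307123 / 2300) else if t - 249 / 200 ≤ 0 then 0 * t + 1017 / 1000 + (1 - x) * (0 * t + (-(101 / 50))) else if t - 27 / 20 ≤ 0 then 103 / 105 * t + (-(143 / 700)) + (1 - x) * (404 / 21 * t + (-(909 / 35))) else 0 * t + 28 / 25 + (1 - x) * (0 * t + 0)) ?_ (alfg_m5 hx hx') ?_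
  · intro a b _ hab _
    have h := mul_nonneg (show (0 : ℝ) ≤ 19 / 4 + 0 * (1 - x) by linarith) (show 0 ≤ b - a by linarith)
    nlinarith [h]
  · show 19 / 4 * (11 / 10) + (-(89 / 20)) + (1 - x) * (0 * (11 / 10) + 0) ≤ if (11 / 10) - 28 / 25 ≤ 0 then 17 / 4 * (11 / 10) + (-(39 / 10)) + (1 - x) * (0 * (11 / 10) + 0) else if (11 / 10) - 57 / 50 ≤ 0 then 17 / 4 * (11 / 10) + (-(39 / 10)) + (1 - x) * (0 * (11 / 10) + 0) else if (11 / 10) - 2291 / 2000 ≤ 0 then 90 / 11 * (11 / 10) + (-(18441 / 2200)) + (1 - x) * ((-(1880 / 11)) * (11 / 10) + 10716 / 55) else if (11 / 10) - 11547 / 10000 ≤ 0 then 135 / 46 * (11 / 10) + (-(43641 / 18400)) + (1 - x) * ((-(2700 / 23)) * (11 / 10) + 307123 / 2300) else if (11 / 10) - 249 / 200 ≤ 0 then 0 * (11 / 10) + 1017 / 1000 + (1 - x) * (0 * (11 / 10) + (-(101 / 50))) else if (11 / 10) - 27 / 20 ≤ 0 then 103 / 105 * (11 / 10) + (-(143 / 700)) + (1 - x)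 * (404 / 21 * (11 / 10) + (-(909 / 35))) else 0 * (11 / 10) + 28 / 25 + (1 - x) * (0 * (11 / 10) + 0)
    rw [if_pos (by norm_num)]
    all_goals nlinarith
theorem alfg_m3 {x : ℝ} (hx : 39 / 40 ≤ x) (hx' : x < 1) : MonoFrom (53 / 50) fun t => if t - 27 / 25 ≤ 0 then 9 / 2 * t + (-(209 / 50)) + (1 - x) * (0 * t + 0) else if t - 11 / 10 ≤ 0 then 19 / 4 * t + (-(89 / 20)) + (1 - x) * (0 * t + 0) else if t - 28 / 25 ≤ 0 then 17 / 4 * t + (-(39 / 10)) + (1 - x) * (0 * t + 0) else if t - 57 / 50 ≤ 0 then 17 / 4 * t + (-(39 / 10)) + (1 - x) * (0 * t + 0) else if t - 2291 / 2000 ≤ 0 then 90 / 11 * t + (-(18441 / 2200)) + (1 - x) * ((-(1880 / 11)) * t + 10716 / 55) else if t - 11547 / 10000 ≤ 0 then 135 / 46 * t + (-(43641 / 18400)) + (1 - x) * ((-(2700 / 23)) * t + 307123 / 2300) else if t - 249 / 200 ≤ 0 then 0 * t + 1017 / 1000 + (1 - x) * (0 * t + (-(101 / 50))) else if t - 27 / 20 ≤ 0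 then 103 / 105 * t + (-(143 / 700)) + (1 - x) * (404 / 21 * t + (-(909 / 35))) else 0 * t + 28 / 25 + (1 - x) * (0 * t + 0) := by
  refine MonoFrom.ite (f := fun t => 9 / 2 * t + (-(209 / 50)) + (1 - x) * (0 * t + 0)) (g := fun t => if t - 11 / 10 ≤ 0 then 19 / 4 * t + (-(89 / 20)) + (1 - x) * (0 * t + 0) else if t - 28 / 25 ≤ 0 then 17 / 4 * t + (-(39 / 10)) + (1 - x) * (0 * t + 0) else if t - 57 / 50 ≤ 0 then 17 / 4 * t + (-(39 / 10)) + (1 - x) * (0 * t + 0) else if t - 2291 / 2000 ≤ 0 then 90 / 11 * t + (-(18441 / 2200)) + (1 - x) * ((-(1880 / 11)) * t + 10716 / 55) else if t - 11547 / 10000 ≤ 0 then 135 / 46 * t + (-(43641 / 18400)) + (1 - x) * ((-(2700 / 23)) * t + 307123 / 2300) else if t - 249 / 200 ≤ 0 then 0 * t + 1017 / 1000 + (1 - x) * (0 * t + (-(101 / 50))) else if t - 27 / 20 ≤ 0 then 103 / 105 * t + (-(143 / 700)) + (1 - x) * (404 / 21 * t + (-(909 / 35))) else 0 * t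 + 28 / 25 + (1 - x) * (0 * t + 0)) ?_ (alfg_m4 hx hx') ?_
  · intro a b _ hab _
    have h := mul_nonneg (show (0 : ℝ) ≤ 9 / 2 + 0 * (1 - x) by linarith) (show 0 ≤ b - a by linarith)
    nlinarith [h]
  · show 9 / 2 * (27 / 25) + (-(209 / 50)) + (1 - x) * (0 * (27 / 25) + 0) ≤ if (27 / 25) - 11 / 10 ≤ 0 then 19 / 4 * (27 / 25) + (-(89 / 20)) + (1 - x) * (0 * (27 / 25) + 0) else if (27 / 25) - 28 / 25 ≤ 0 then 17 / 4 * (27 / 25) + (-(39 / 10)) + (1 - x) * (0 * (27 / 25) + 0) else if (27 / 25) - 57 / 50 ≤ 0 then 17 / 4 * (27 / 25) + (-(39 / 10)) + (1 - x) * (0 * (27 / 25) + 0) else if (27 / 25) - 2291 / 2000 ≤ 0 then 90 / 11 * (27 / 25) + (-(18441 / 2200)) + (1 - x) * ((-(1880 / 11)) * (27 / 25) + 10716 / 55) else if (27 / 25) - 11547 / 10000 ≤ 0 then 135 / 46 * (27 / 25) + (-(43641 / 18400)) + (1 - x) * ((-(2700 / 23)) * (27 / 25) + 307123 / 2300) else if (27 / 25) - 249 / 200 ≤ 0 then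 0 * (27 / 25) + 1017 / 1000 + (1 - x) * (0 * (27 / 25) + (-(101 / 50))) else if (27 / 25) - 27 / 20 ≤ 0 then 103 / 105 * (27 / 25) + (-(143 / 700)) + (1 - x) * (404 / 21 * (27 / 25) + (-(909 / 35))) else 0 * (27 / 25) + 28 / 25 + (1 - x) * (0 * (27 / 25) + 0)
    rw [if_pos (by norm_num)]
    all_goals nlinarith
theorem alfg_m2 {x : ℝ} (hx : 39 / 40 ≤ x) (hx' : x < 1) : MonoFrom (103 / 100) fun t => if t - 53 / 50 ≤ 0 then 7 / 3 * t + (-(113 / 60)) + (1 - x) * (0 * t + 0) else if t - 27 / 25 ≤ 0 then 9 / 2 * t + (-(209 / 50)) + (1 - x) * (0 * t + 0) else if t - 11 / 10 ≤ 0 then 19 / 4 * t + (-(89 / 20)) + (1 - x) * (0 * t + 0) else if t - 28 / 25 ≤ 0 then 17 / 4 * t + (-(39 / 10)) + (1 - x) * (0 * t + 0) else if t - 57 / 50 ≤ 0 then 17 / 4 * t + (-(39 / 10)) + (1 - x) * (0 * t + 0) else if t - 2291 / 2000 ≤ 0 then 90 / 11 * t + (-(18441 / 2200)) + (1 - x) * ((-(1880 / 11)) * t + 10716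 / 55) else if t - 11547 / 10000 ≤ 0 then 135 / 46 * t + (-(43641 / 18400)) + (1 - x) * ((-(2700 / 23)) * t + 307123 / 2300) else if t - 249 / 200 ≤ 0 then 0 * t + 1017 / 1000 + (1 - x) * (0 * t + (-(101 / 50))) else if t - 27 / 20 ≤ 0 then 103 / 105 * t + (-(143 / 700)) + (1 - x) * (404 / 21 * t + (-(909 / 35))) else 0 * t + 28 / 25 + (1 - x) * (0 * t + 0) := by
  refine MonoFrom.ite (f := fun t => 7 / 3 * t + (-(113 / 60)) + (1 - x) * (0 * t + 0)) (g := fun t => if t - 27 / 25 ≤ 0 then 9 / 2 * t + (-(209 / 50)) + (1 - x) * (0 * t + 0) else if t - 11 / 10 ≤ 0 then 19 / 4 * t + (-(89 / 20)) + (1 - x) * (0 * t + 0) else if t - 28 / 25 ≤ 0 then 17 / 4 * t + (-(39 / 10)) + (1 - x) * (0 * t + 0) else if t - 57 / 50 ≤ 0 then 17 / 4 * t + (-(39 / 10)) + (1 - x) * (0 * t + 0) else if t - 2291 / 2000 ≤ 0 then 90 / 11 * t + (-(18441 / 2200)) + (1 - x) * ((-(1880 / 11)) * t + 10716 / 55) else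 if t - 11547 / 10000 ≤ 0 then 135 / 46 * t + (-(43641 / 18400)) + (1 - x) * ((-(2700 / 23)) * t + 307123 / 2300) else if t - 249 / 200 ≤ 0 then 0 * t + 1017 / 1000 + (1 - x) * (0 * t + (-(101 / 50))) else if t - 27 / 20 ≤ 0 then 103 / 105 * t + (-(143 / 700)) + (1 - x) * (404 / 21 * t + (-(909 / 35))) else 0 * t + 28 / 25 + (1 - x) * (0 * t + 0)) ?_ (alfg_m3 hx hx') ?_
  · intro a b _ hab _
    have h := mul_nonneg (show (0 : ℝ) ≤ 7 / 3 + 0 * (1 - x) by linarith) (show 0 ≤ b - a by linarith)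
    nlinarith [h]
  · show 7 / 3 * (53 / 50) + (-(113 / 60)) + (1 - x) * (0 * (53 / 50) + 0) ≤ if (53 / 50) - 27 / 25 ≤ 0 then 9 / 2 * (53 / 50) + (-(209 / 50)) + (1 - x) * (0 * (53 / 50) + 0) else if (53 / 50) - 11 / 10 ≤ 0 then 19 / 4 * (53 / 50) + (-(89 / 20)) + (1 - x) * (0 * (53 / 50) + 0) else if (53 / 50) - 28 / 25 ≤ 0 then 17 / 4 * (53 / 50) + (-(39 / 10)) + (1 - x) * (0 * (53 / 50) + 0) else if (53 / 50) - 57 / 50 ≤ 0 then 17 / 4 * (53 / 50) + (-(39 / 10)) + (1 - x) * (0 * (53 / 50) + 0) else if (53 / 50) - 2291 / 2000 ≤ 0 then 90 / 11 * (53 / 50) + (-(18441 / 2200)) + (1 - x) * ((-(1880 / 11)) * (53 / 50) + 10716 / 55) else if (53 / 50) - 11547 / 10000 ≤ 0 then 135 / 46 * (53 / 50) + (-(43641 / 18400)) + (1 - x) * ((-(2700 / 23)) * (53 / 50) + 307123 / 2300) else if (53 / 50) - 249 / 200 ≤ 0 then 0 * (53 / 50) + 1017 / 1000 + (1 - x) * (0 * (53 / 50) + (-(101 / 50))) else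 if (53 / 50) - 27 / 20 ≤ 0 then 103 / 105 * (53 / 50) + (-(143 / 700)) + (1 - x) * (404 / 21 * (53 / 50) + (-(909 / 35))) else 0 * (53 / 50) + 28 / 25 + (1 - x) * (0 * (53 / 50) + 0)
    rw [if_pos (by norm_num)]
    all_goals nlinarith
theorem alfg_m1 {x : ℝ} (hx : 39 / 40 ≤ x) (hx' : x < 1) : MonoFrom (1) fun t => if t - 103 / 100 ≤ 0 then 2 * t + (-(77 / 50)) + (1 - x) * (0 * t + 0) else if t - 53 / 50 ≤ 0 then 7 / 3 * t + (-(113 / 60)) + (1 - x) * (0 * t + 0) else if t - 27 / 25 ≤ 0 then 9 / 2 * t + (-(209 / 50)) + (1 - x) * (0 * t + 0) else if t - 11 / 10 ≤ 0 then 19 / 4 * t + (-(89 / 20)) + (1 - x) * (0 * t + 0) else if t - 28 / 25 ≤ 0 then 17 / 4 * t + (-(39 / 10)) + (1 - x) * (0 * t + 0) else if t - 57 / 50 ≤ 0 then 17 / 4 * t + (-(39 / 10)) + (1 - x) * (0 * t + 0) else if t - 2291 / 2000 ≤ 0 then 90 / 11 * t + (-(18441 / 2200)) + (1 - x) * ((-(1880 / 11)) * t + 10716 / 55)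 else if t - 11547 / 10000 ≤ 0 then 135 / 46 * t + (-(43641 / 18400)) + (1 - x) * ((-(2700 / 23)) * t + 307123 / 2300) else if t - 249 / 200 ≤ 0 then 0 * t + 1017 / 1000 + (1 - x) * (0 * t + (-(101 / 50))) else if t - 27 / 20 ≤ 0 then 103 / 105 * t + (-(143 / 700)) + (1 - x) * (404 / 21 * t + (-(909 / 35))) else 0 * t + 28 / 25 + (1 - x) * (0 * t + 0) := by
  refine MonoFrom.ite (f := fun t => 2 * t + (-(77 / 50)) + (1 - x) * (0 * t + 0)) (g := fun t => if t - 53 / 50 ≤ 0 then 7 / 3 * t + (-(113 / 60)) + (1 - x) * (0 * t + 0) else if t - 27 / 25 ≤ 0 then 9 / 2 * t + (-(209 / 50)) + (1 - x) * (0 * t + 0) else if t - 11 / 10 ≤ 0 then 19 / 4 * t + (-(89 / 20)) + (1 - x) * (0 * t + 0) else if t - 28 / 25 ≤ 0 then 17 / 4 * t + (-(39 / 10)) + (1 - x) * (0 * t + 0) else if t - 57 / 50 ≤ 0 then 17 / 4 * t + (-(39 / 10)) + (1 - x) * (0 * t + 0) else if t - 2291 / 2000 ≤ 0 then 90 / 11 * t +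 (-(18441 / 2200)) + (1 - x) * ((-(1880 / 11)) * t + 10716 / 55) else if t - 11547 / 10000 ≤ 0 then 135 / 46 * t + (-(43641 / 18400)) + (1 - x) * ((-(2700 / 23)) * t + 307123 / 2300) else if t - 249 / 200 ≤ 0 then 0 * t + 1017 / 1000 + (1 - x) * (0 * t + (-(101 / 50))) else if t - 27 / 20 ≤ 0 then 103 / 105 * t + (-(143 / 700)) + (1 - x) * (404 / 21 * t + (-(909 / 35))) else 0 * t + 28 / 25 + (1 - x) * (0 * t + 0)) ?_ (alfg_m2 hx hx') ?_
  · intro a b _ hab _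
    have h := mul_nonneg (show (0 : ℝ) ≤ 2 + 0 * (1 - x) by linarith) (show 0 ≤ b - a by linarith)
    nlinarith [h]
  · show 2 * (103 / 100) + (-(77 / 50)) + (1 - x) * (0 * (103 / 100) + 0) ≤ if (103 / 100) - 53 / 50 ≤ 0 then 7 / 3 * (103 / 100) + (-(113 / 60)) + (1 - x) * (0 * (103 / 100) + 0) else if (103 / 100) - 27 / 25 ≤ 0 then 9 / 2 * (103 / 100) + (-(209 / 50)) + (1 - x) * (0 * (103 / 100) + 0) else if (103 / 100) - 11 / 10 ≤ 0 then 19 / 4 * (103 / 100) + (-(89 / 20)) + (1 - x) * (0 * (103 / 100) + 0) else if (103 / 100) - 28 / 25 ≤ 0 then 17 / 4 * (103 / 100) + (-(39 / 10)) + (1 - x) * (0 * (103 / 100) + 0) else if (103 / 100) - 57 / 50 ≤ 0 then 17 / 4 * (103 / 100) + (-(39 / 10)) + (1 - x) * (0 * (103 / 100) + 0) else if (103 / 100) - 2291 / 2000 ≤ 0 then 90 / 11 * (103 / 100) + (-(18441 / 2200)) + (1 - x) * ((-(1880 / 11)) * (103 / 100) + 10716 / 55) else if (103 / 100)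 - 11547 / 10000 ≤ 0 then 135 / 46 * (103 / 100) + (-(43641 / 18400)) + (1 - x) * ((-(2700 / 23)) * (103 / 100) + 307123 / 2300) else if (103 / 100) - 249 / 200 ≤ 0 then 0 * (103 / 100) + 1017 / 1000 + (1 - x) * (0 * (103 / 100) + (-(101 / 50))) else if (103 / 100) - 27 / 20 ≤ 0 then 103 / 105 * (103 / 100) + (-(143 / 700)) + (1 - x) * (404 / 21 * (103 / 100) + (-(909 / 35))) else 0 * (103 / 100) + 28 / 25 + (1 - x) * (0 * (103 / 100) + 0)
    rw [if_pos (by norm_num)]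
    all_goals nlinarith
theorem alfg_m0 {x : ℝ} (hx : 39 / 40 ≤ x) (hx' : x < 1) : MonoFrom (9 / 10) fun t => if t - 1 ≤ 0 then 0 * t + 23 / 50 + (1 - x) * (0 * t + 0) else if t - 103 / 100 ≤ 0 then 2 * t + (-(77 / 50)) + (1 - x) * (0 * t + 0) else if t - 53 / 50 ≤ 0 then 7 / 3 * t + (-(113 / 60)) + (1 - x) * (0 * t + 0) else if t - 27 / 25 ≤ 0 then 9 / 2 * t + (-(209 / 50)) + (1 - x) * (0 * t + 0) else if t - 11 / 10 ≤ 0 then 19 / 4 * t + (-(89 / 20)) + (1 - x) * (0 * t + 0) else if t - 28 / 25 ≤ 0 then 17 / 4 * t + (-(39 / 10)) + (1 - x) * (0 * t + 0) else if t - 57 / 50 ≤ 0 then 17 / 4 * t + (-(39 / 10)) + (1 - x) * (0 * t + 0) else if t - 2291 / 2000 ≤ 0 then 90 / 11 * t + (-(18441 / 2200)) + (1 - x) * ((-(1880 / 11)) * t + 10716 / 55) else if t - 11547 / 10000 ≤ 0 then 135 / 46 * t + (-(43641 / 18400)) + (1 - x) * ((-(2700 / 23)) * t + 307123 / 2300) else if t - 249 / 200 ≤ 0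 then 0 * t + 1017 / 1000 + (1 - x) * (0 * t + (-(101 / 50))) else if t - 27 / 20 ≤ 0 then 103 / 105 * t + (-(143 / 700)) + (1 - x) * (404 / 21 * t + (-(909 / 35))) else 0 * t + 28 / 25 + (1 - x) * (0 * t + 0) := by
  refine MonoFrom.ite (f := fun t => 0 * t + 23 / 50 + (1 - x) * (0 * t + 0)) (g := fun t => if t - 103 / 100 ≤ 0 then 2 * t + (-(77 / 50)) + (1 - x) * (0 * t + 0) else if t - 53 / 50 ≤ 0 then 7 / 3 * t + (-(113 / 60)) + (1 - x) * (0 * t + 0) else if t - 27 / 25 ≤ 0 then 9 / 2 * t + (-(209 / 50)) + (1 - x) * (0 * t + 0) else if t - 11 / 10 ≤ 0 then 19 / 4 * t + (-(89 / 20)) + (1 - x) * (0 * t + 0) else if t - 28 / 25 ≤ 0 then 17 / 4 * t + (-(39 / 10)) + (1 - x) * (0 * t + 0) else if t - 57 / 50 ≤ 0 then 17 / 4 * t + (-(39 / 10)) + (1 - x) * (0 * t + 0) else if t - 2291 / 2000 ≤ 0 then 90 / 11 * t + (-(18441 / 2200)) + (1 - x) * ((-(1880 / 11)) * t + 10716 / 55) else if t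 - 11547 / 10000 ≤ 0 then 135 / 46 * t + (-(43641 / 18400)) + (1 - x) * ((-(2700 / 23)) * t + 307123 / 2300) else if t - 249 / 200 ≤ 0 then 0 * t + 1017 / 1000 + (1 - x) * (0 * t + (-(101 / 50))) else if t - 27 / 20 ≤ 0 then 103 / 105 * t + (-(143 / 700)) + (1 - x) * (404 / 21 * t + (-(909 / 35))) else 0 * t + 28 / 25 + (1 - x) * (0 * t + 0)) ?_ (alfg_m1 hx hx') ?_
  · intro a b _ _ _
    linarith
  · show 0 * (1) + 23 / 50 + (1 - x) * (0 * (1) + 0) ≤ if (1) - 103 / 100 ≤ 0 then 2 * (1) + (-(77 / 50)) + (1 - x) * (0 * (1) + 0) else if (1) - 53 / 50 ≤ 0 then 7 / 3 * (1) + (-(113 / 60)) + (1 - x) * (0 * (1) + 0) else if (1) - 27 / 25 ≤ 0 then 9 / 2 * (1) + (-(209 / 50)) + (1 - x) * (0 * (1) + 0) else if (1) - 11 / 10 ≤ 0 then 19 / 4 * (1) + (-(89 / 20)) + (1 - x) * (0 * (1) + 0) else if (1) - 28 / 25 ≤ 0 then 17 / 4 * (1) + (-(39 / 10)) + (1 - x) * (0 * (1) + 0) else if (1) - 57 / 50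 ≤ 0 then 17 / 4 * (1) + (-(39 / 10)) + (1 - x) * (0 * (1) + 0) else if (1) - 2291 / 2000 ≤ 0 then 90 / 11 * (1) + (-(18441 / 2200)) + (1 - x) * ((-(1880 / 11)) * (1) + 10716 / 55) else if (1) - 11547 / 10000 ≤ 0 then 135 / 46 * (1) + (-(43641 / 18400)) + (1 - x) * ((-(2700 / 23)) * (1) + 307123 / 2300) else if (1) - 249 / 200 ≤ 0 then 0 * (1) + 1017 / 1000 + (1 - x) * (0 * (1) + (-(101 / 50))) else if (1) - 27 / 20 ≤ 0 then 103 / 105 * (1) + (-(143 / 700)) + (1 - x) * (404 / 21 * (1) + (-(909 / 35))) else 0 * (1) + 28 / 25 + (1 - x) * (0 * (1) + 0)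
    rw [if_pos (by norm_num)]
    all_goals nlinarith
theorem alfg_mono {x a b : ℝ} (hx : 39 / 40 ≤ x) (hx' : x < 1) (ha : 9 / 10 ≤ a) (hab : a ≤ b) :
    alfg.v a x ≤ alfg.v b x := by
  rw [alfg_f, alfg_f]
  exact alfg_m0 hx hx' a b ha hab
noncomputable def alng : Fn2 := ⟨_, _, fun h1 h2 => (enc_norm (enc_case (enc_subn 1 h1) (enc_rat _ 13 25) (enc_case (enc_subr 103 100 h1) (enc_subr 236 75 (enc_scale 11 3 h1)) (enc_case (enc_subr 53 50 h1) (enc_subr 133 75 (enc_scale 7 3 h1)) (enc_case (enc_subr 28 25 h1) (enc_subr 301 100 (enc_scale 7 2 h1)) (enc_case (enc_subr 229 200 h1) (enc_subr 2009 500 (enc_scale 22 5 h1)) (enc_case (enc_subr 13 10 h1) (enc_add (enc_scale 16 31 h1) (enc_rat _ 133 310)) (enc_rat _ 11 10))))))))⟩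
theorem alng_f (t x : ℝ) : alng.v t x = if t - 1 ≤ 0 then 0 * t + 13 / 25 + (1 - x) * (0 * t + 0) else if t - 103 / 100 ≤ 0 then 11 / 3 * t + (-(236 / 75)) + (1 - x) * (0 * t + 0) else if t - 53 / 50 ≤ 0 then 7 / 3 * t + (-(133 / 75)) + (1 - x) * (0 * t + 0) else if t - 28 / 25 ≤ 0 then 7 / 2 * t + (-(301 / 100)) + (1 - x) * (0 * t + 0) else if t - 229 / 200 ≤ 0 then 22 / 5 * t + (-(2009 / 500)) + (1 - x) * (0 * t + 0) else if t - 13 / 10 ≤ 0 then 16 / 31 * t + 133 / 310 + (1 - x) * (0 * t + 0) else 0 * t + 11 / 10 + (1 - x) * (0 * t + 0) := by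
  simp only [alng]
  push_cast
  refine ite_congr rfl (fun _ => by ring) fun _ => ?_
  refine ite_congr rfl (fun _ => by ring) fun _ => ?_
  refine ite_congr rfl (fun _ => by ring) fun _ => ?_
  refine ite_congr rfl (fun _ => by ring) fun _ => ?_
  refine ite_congr rfl (fun _ => by ring) fun _ => ?_
  refine ite_congr rfl (fun _ => by ring) fun _ => ?_
  ring
theorem alng_m6 {x : ℝ} : MonoFrom (13 / 10) fun t => 0 * t + 11 / 10 + (1 - x) * (0 * t + 0) := fun _ _ _ _ => by linarith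
theorem alng_m5 {x : ℝ} (hx : 39 / 40 ≤ x) (hx' : x < 1) : MonoFrom (229 / 200) fun t => if t - 13 / 10 ≤ 0 then 16 / 31 * t + 133 / 310 + (1 - x) * (0 * t + 0) else 0 * t + 11 / 10 + (1 - x) * (0 * t + 0) := by
  refine MonoFrom.ite (f := fun t => 16 / 31 * t + 133 / 310 + (1 - x) * (0 * t + 0)) (g := fun t => 0 * t + 11 / 10 + (1 - x) * (0 * t + 0)) ?_ alng_m6 ?_
  · intro a b _ hab _
    have h := mul_nonneg (show (0 : ℝ) ≤ 16 / 31 + 0 * (1 - x) by linarith) (show 0 ≤ b - a by linarith)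
    nlinarith [h]
  · show 16 / 31 * (13 / 10) + 133 / 310 + (1 - x) * (0 * (13 / 10) + 0) ≤ 0 * (13 / 10) + 11 / 10 + (1 - x) * (0 * (13 / 10) + 0)
    skip
    all_goals nlinarith
theorem alng_m4 {x : ℝ} (hx : 39 / 40 ≤ x) (hx' : x < 1) : MonoFrom (28 / 25) fun t => if t - 229 / 200 ≤ 0 then 22 / 5 * t + (-(2009 / 500)) + (1 - x) * (0 * t + 0) else if t - 13 / 10 ≤ 0 then 16 / 31 * t + 133 / 310 + (1 - x) * (0 * t + 0) else 0 * t + 11 / 10 + (1 - x) * (0 * t + 0) := by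
  refine MonoFrom.ite (f := fun t => 22 / 5 * t + (-(2009 / 500)) + (1 - x) * (0 * t + 0)) (g := fun t => if t - 13 / 10 ≤ 0 then 16 / 31 * t + 133 / 310 + (1 - x) * (0 * t + 0) else 0 * t + 11 / 10 + (1 - x) * (0 * t + 0)) ?_ (alng_m5 hx hx') ?_
  · intro a b _ hab _
    have h := mul_nonneg (show (0 : ℝ) ≤ 22 / 5 + 0 * (1 - x) by linarith) (show 0 ≤ b - a by linarith)
    nlinarith [h]
  · show 22 / 5 * (229 / 200) + (-(2009 / 500)) + (1 - x) * (0 * (229 / 200) + 0) ≤ if (229 / 200) - 13 / 10 ≤ 0 then 16 / 31 * (229 / 200) + 133 / 310 + (1 - x) * (0 * (229 / 200) + 0) else 0 * (229 / 200) + 11 / 10 + (1 - x) * (0 * (229 / 200) + 0)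
    rw [if_pos (by norm_num)]
    all_goals nlinarith
theorem alng_m3 {x : ℝ} (hx : 39 / 40 ≤ x) (hx' : x < 1) : MonoFrom (53 / 50) fun t => if t - 28 / 25 ≤ 0 then 7 / 2 * t + (-(301 / 100)) + (1 - x) * (0 * t + 0) else if t - 229 / 200 ≤ 0 then 22 / 5 * t + (-(2009 / 500)) + (1 - x) * (0 * t + 0) else if t - 13 / 10 ≤ 0 then 16 / 31 * t + 133 / 310 + (1 - x) * (0 * t + 0) else 0 * t + 11 / 10 + (1 - x) * (0 * t + 0) := by
  refine MonoFrom.ite (f := fun t => 7 / 2 * t + (-(301 / 100)) + (1 - x) * (0 * t + 0)) (g := fun t => if t - 229 / 200 ≤ 0 then 22 / 5 * t + (-(2009 / 500)) + (1 - x) * (0 * t + 0) else if t - 13 / 10 ≤ 0 then 16 / 31 * t + 133 / 310 + (1 - x) * (0 * t + 0) else 0 * t + 11 / 10 + (1 - x) * (0 * t + 0)) ?_ (alng_m4 hx hx') ?_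
  · intro a b _ hab _
    have h := mul_nonneg (show (0 : ℝ) ≤ 7 / 2 + 0 * (1 - x) by linarith) (show 0 ≤ b - a by linarith)
    nlinarith [h]
  · show 7 / 2 * (28 / 25) + (-(301 / 100)) + (1 - x) * (0 * (28 / 25) + 0) ≤ if (28 / 25) - 229 / 200 ≤ 0 then 22 / 5 * (28 / 25) + (-(2009 / 500)) + (1 - x) * (0 * (28 / 25) + 0) else if (28 / 25) - 13 / 10 ≤ 0 then 16 / 31 * (28 / 25) + 133 / 310 + (1 - x) * (0 * (28 / 25) + 0) else 0 * (28 / 25) + 11 / 10 + (1 - x) * (0 * (28 / 25) + 0)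
    rw [if_pos (by norm_num)]
    all_goals nlinarith
theorem alng_m2 {x : ℝ} (hx : 39 / 40 ≤ x) (hx' : x < 1) : MonoFrom (103 / 100) fun t => if t - 53 / 50 ≤ 0 then 7 / 3 * t + (-(133 / 75)) + (1 - x) * (0 * t + 0) else if t - 28 / 25 ≤ 0 then 7 / 2 * t + (-(301 / 100)) + (1 - x) * (0 * t + 0) else if t - 229 / 200 ≤ 0 then 22 / 5 * t + (-(2009 / 500)) + (1 - x) * (0 * t + 0) else if t - 13 / 10 ≤ 0 then 16 / 31 * t + 133 / 310 + (1 - x) * (0 * t + 0) else 0 * t + 11 / 10 + (1 - x) * (0 * t + 0) := by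
  refine MonoFrom.ite (f := fun t => 7 / 3 * t + (-(133 / 75)) + (1 - x) * (0 * t + 0)) (g := fun t => if t - 28 / 25 ≤ 0 then 7 / 2 * t + (-(301 / 100)) + (1 - x) * (0 * t + 0) else if t - 229 / 200 ≤ 0 then 22 / 5 * t + (-(2009 / 500)) + (1 - x) * (0 * t + 0) else if t - 13 / 10 ≤ 0 then 16 / 31 * t + 133 / 310 + (1 - x) * (0 * t + 0) else 0 * t + 11 / 10 + (1 - x) * (0 * t + 0)) ?_ (alng_m3 hx hx') ?_
  · intro a b _ hab _
    have h := mul_nonneg (show (0 : ℝ) ≤ 7 / 3 + 0 * (1 - x) by linarith) (show 0 ≤ b - a by linarith)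
    nlinarith [h]
  · show 7 / 3 * (53 / 50) + (-(133 / 75)) + (1 - x) * (0 * (53 / 50) + 0) ≤ if (53 / 50) - 28 / 25 ≤ 0 then 7 / 2 * (53 / 50) + (-(301 / 100)) + (1 - x) * (0 * (53 / 50) + 0) else if (53 / 50) - 229 / 200 ≤ 0 then 22 / 5 * (53 / 50) + (-(2009 / 500)) + (1 - x) * (0 * (53 / 50) + 0) else if (53 / 50) - 13 / 10 ≤ 0 then 16 / 31 * (53 / 50) + 133 / 310 + (1 - x) * (0 * (53 / 50) + 0) else 0 * (53 / 50) + 11 / 10 + (1 - x) * (0 * (53 / 50) + 0)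
    rw [if_pos (by norm_num)]
    all_goals nlinarith
theorem alng_m1 {x : ℝ} (hx : 39 / 40 ≤ x) (hx' : x < 1) : MonoFrom (1) fun t => if t - 103 / 100 ≤ 0 then 11 / 3 * t + (-(236 / 75)) + (1 - x) * (0 * t + 0) else if t - 53 / 50 ≤ 0 then 7 / 3 * t + (-(133 / 75)) + (1 - x) * (0 * t + 0) else if t - 28 / 25 ≤ 0 then 7 / 2 * t + (-(301 / 100)) + (1 - x) * (0 * t + 0) else if t - 229 / 200 ≤ 0 then 22 / 5 * t + (-(2009 / 500)) + (1 - x) * (0 * t + 0) else if t - 13 / 10 ≤ 0 then 16 / 31 * t + 133 / 310 + (1 - x) * (0 * t + 0) else 0 * t + 11 / 10 + (1 - x) * (0 * t + 0) := by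
  refine MonoFrom.ite (f := fun t => 11 / 3 * t + (-(236 / 75)) + (1 - x) * (0 * t + 0)) (g := fun t => if t - 53 / 50 ≤ 0 then 7 / 3 * t + (-(133 / 75)) + (1 - x) * (0 * t + 0) else if t - 28 / 25 ≤ 0 then 7 / 2 * t + (-(301 / 100)) + (1 - x) * (0 * t + 0) else if t - 229 / 200 ≤ 0 then 22 / 5 * t + (-(2009 / 500)) + (1 - x) * (0 * t + 0) else if t - 13 / 10 ≤ 0 then 16 / 31 * t + 133 / 310 + (1 - x) * (0 * t + 0) else 0 * t + 11 / 10 + (1 - x) * (0 * t + 0)) ?_ (alng_m2 hx hx') ?_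
  · intro a b _ hab _
    have h := mul_nonneg (show (0 : ℝ) ≤ 11 / 3 + 0 * (1 - x) by linarith) (show 0 ≤ b - a by linarith)
    nlinarith [h]
  · show 11 / 3 * (103 / 100) + (-(236 / 75)) + (1 - x) * (0 * (103 / 100) + 0) ≤ if (103 / 100) - 53 / 50 ≤ 0 then 7 / 3 * (103 / 100) + (-(133 / 75)) + (1 - x) * (0 * (103 / 100) + 0) else if (103 / 100) - 28 / 25 ≤ 0 then 7 / 2 * (103 / 100) + (-(301 / 100)) + (1 - x) * (0 * (103 / 100) + 0) else if (103 / 100) - 229 / 200 ≤ 0 then 22 / 5 * (103 / 100) + (-(2009 / 500)) + (1 - x) * (0 * (103 / 100) + 0) else if (103 / 100) - 13 / 10 ≤ 0 then 16 / 31 * (103 / 100) + 133 / 310 + (1 - x) * (0 * (103 / 100) + 0) else 0 * (103 / 100) + 11 / 10 + (1 - x) * (0 * (103 / 100) + 0)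
    rw [if_pos (by norm_num)]
    all_goals nlinarith
theorem alng_m0 {x : ℝ} (hx : 39 / 40 ≤ x) (hx' : x < 1) : MonoFrom (9 / 10) fun t => if t - 1 ≤ 0 then 0 * t + 13 / 25 + (1 - x) * (0 * t + 0) else if t - 103 / 100 ≤ 0 then 11 / 3 * t + (-(236 / 75)) + (1 - x) * (0 * t + 0) else if t - 53 / 50 ≤ 0 then 7 / 3 * t + (-(133 / 75)) + (1 - x) * (0 * t + 0) else if t - 28 / 25 ≤ 0 then 7 / 2 * t + (-(301 / 100)) + (1 - x) * (0 * t + 0) else if t - 229 / 200 ≤ 0 then 22 / 5 * t + (-(2009 / 500)) + (1 - x) * (0 * t + 0) else if t - 13 / 10 ≤ 0 then 16 / 31 * t + 133 / 310 + (1 - x) * (0 * t + 0) else 0 * t + 11 / 10 + (1 - x) * (0 * t + 0) := by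
  refine MonoFrom.ite (f := fun t => 0 * t + 13 / 25 + (1 - x) * (0 * t + 0)) (g := fun t => if t - 103 / 100 ≤ 0 then 11 / 3 * t + (-(236 / 75)) + (1 - x) * (0 * t + 0) else if t - 53 / 50 ≤ 0 then 7 / 3 * t + (-(133 / 75)) + (1 - x) * (0 * t + 0) else if t - 28 / 25 ≤ 0 then 7 / 2 * t + (-(301 / 100)) + (1 - x) * (0 * t + 0) else if t - 229 / 200 ≤ 0 then 22 / 5 * t + (-(2009 / 500)) + (1 - x) * (0 * t + 0) else if t - 13 / 10 ≤ 0 then 16 / 31 * t + 133 / 310 + (1 - x) * (0 * t + 0) else 0 * t + 11 / 10 + (1 - x) * (0 * t + 0)) ?_ (alng_m1 hx hx') ?_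
  · intro a b _ _ _
    linarith
  · show 0 * (1) + 13 / 25 + (1 - x) * (0 * (1) + 0) ≤ if (1) - 103 / 100 ≤ 0 then 11 / 3 * (1) + (-(236 / 75)) + (1 - x) * (0 * (1) + 0) else if (1) - 53 / 50 ≤ 0 then 7 / 3 * (1) + (-(133 / 75)) + (1 - x) * (0 * (1) + 0) else if (1) - 28 / 25 ≤ 0 then 7 / 2 * (1) + (-(301 / 100)) + (1 - x) * (0 * (1) + 0) else if (1) - 229 / 200 ≤ 0 then 22 / 5 * (1) + (-(2009 / 500)) + (1 - x) * (0 * (1) + 0) else if (1) - 13 / 10 ≤ 0 then 16 / 31 * (1) + 133 / 310 + (1 - x) * (0 * (1) + 0) else 0 * (1) + 11 / 10 + (1 - x) * (0 * (1) + 0)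
    rw [if_pos (by norm_num)]
    all_goals nlinarith
theorem alng_mono {x a b : ℝ} (hx : 39 / 40 ≤ x) (hx' : x < 1) (ha : 9 / 10 ≤ a) (hab : a ≤ b) :
    alng.v a x ≤ alng.v b x := by
  rw [alng_f, alng_f]
  exact alng_m0 hx hx' a b ha hab

end Pool.Agent.Strip051.G.IE1.Tab
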