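import Pool.Agent.Strip051.PB.FxLib
import Pool.Agent.Strip051.LC.E1.FxX

/-! # Functions in the windows at the floor near `x = 1` (generated) -/

set_option linter.all false

namespace Pool.Agent.Strip051.G.IE1.Tab.W

open Pool.Agent.Strip051.PB Pool.Agent.Strip051.PB.Fx Pool.Agent.StripNear Pool.Agent.Strip051.LC
open Pool.Agent.Strip051.LC.E1

noncomputable def egsg : Fn1 := ⟨_, _, fun h1 => (enc_sqrt (enc_sub (enc_add (enc_rat _ 1 4) (enc_scale 3 2 h1)) (enc_scale 3 4 (enc_sq h1))))⟩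
theorem egsg_v (e : ℝ) : egsg.v e = G.gs e := by
  unfold G.gs
  simp only [egsg]
  all_goals (push_cast; ring_nf)
noncomputable def eigg : Fn1 := ⟨_, _, fun h1 => (enc_inv (enc_add (egsg.enc h1) (enc_rat _ 1 2)))⟩
theorem eigg_v (e : ℝ) : eigg.v e = G.ig e := by
  unfold G.ig
  simp only [eigg, egsg_v]
  all_goals (push_cast; ring_nf)
noncomputable def eehg : Fn1 := ⟨_, _, fun h1 => (enc_norm (enc_subr 1 2 (enc_mul (enc_norm (enc_sub (enc_rat _ 3 2) (enc_scale 3 4 h1))) (eigg.enc h1))))⟩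
theorem eehg_v (e : ℝ) : eehg.v e = G.eh e := by
  unfold G.eh
  simp only [eehg, eigg_v]
  all_goals (push_cast; ring_nf)
noncomputable def eomg_2 : Fn2 := ⟨_, _, fun h1 h2 => (enc_sq h1)⟩
noncomputable def eomg : Fn2 := ⟨_, _, fun h1 h2 => (enc_norm (enc_mul (enc_scale 3 4 (eomg_2.enc h1 h2)) (enc_inv (enc_add (enc_pnc _ 1) (enc_sqrt (enc_sub (enc_pnc _ 1) (enc_mul (enc_scale 3 4 (enc_sq h2)) (eomg_2.enc h1 h2))))))))⟩
theorem eomg_v (w x : ℝ) : eomg.v w x = E0.G.om w x := by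
  unfold E0.G.om E0.G.qw
  simp only [eomg, eomg_2]
  all_goals (push_cast; ring_nf)
noncomputable def eq1g : Fn1 := ⟨_, _, fun h1 => (enc_norm (enc_mul (enc_norm (enc_scale 3 2 (enc_add (enc_pnc _ 1) (eehg.enc h1)))) (eigg.enc h1)))⟩
theorem eq1g_v (e : ℝ) : eq1g.v e = G.q1 e := by
  unfold G.q1
  simp only [eq1g, eehg_v, eigg_v]
  all_goals (push_cast; ring_nf)
noncomputable def epKg : Fn1 := ⟨_, _, fun h1 => (enc_norm (enc_mul (enc_norm (enc_sub (enc_sub (enc_half (eq1g.enc h1)) (enc_mul (enc_norm (enc_add (eehg.enc h1) (enc_pnc _ 1))) (enc_norm (enc_sub (enc_rat _ 9 4) (enc_scale 3 4 h1))))) (enc_mul (eehg.enc h1) (enc_norm (enc_add (enc_nat 2 (eehg.enc h1)) (enc_pnc _ 1)))))) (enc_inv (enc_nat 2 (enc_mul (eehg.enc h1) (egsg.enc h1))))))⟩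
theorem epKg_v (e : ℝ) : epKg.v e = G.pK e := by
  unfold G.pK
  simp only [epKg, eq1g_v, eehg_v, egsg_v]
  all_goals (push_cast; ring_nf)
noncomputable def ehhg : Fn1 := ⟨_, _, fun h1 => (enc_sqrt (enc_rat _ 3 4))⟩
theorem ehhg_v (x : ℝ) : ehhg.v x = Real.sqrt 3 / 2 := by
  simp only [ehhg]
  push_cast
  exact sqrt_34
noncomputable def hgg : Fn1 := ⟨_, _, fun h1 => (enc_case h1 (enc_pnc _ 0) h1)⟩
theorem hgg_v (x : ℝ) : hgg.v x = G.hg x := by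
  simp only [hgg]
  exact hg_ite x
noncomputable def ekUg_3 : Fn3 := ⟨_, _, fun h1 h2 h3 => (enc_mul h2 h1)⟩
noncomputable def ekUg_4 : Fn3 := ⟨_, _, fun h1 h2 h3 => (epKg.enc (enc_norm (ekUg_3.enc h1 h2 h3)))⟩
noncomputable def ekUg_5 : Fn3 := ⟨_, _, fun h1 h2 h3 => (eehg.enc (enc_norm (ekUg_3.enc h1 h2 h3)))⟩
noncomputable def ekUg_7 : Fn3 := ⟨_, _, fun h1 h2 h3 => (ehhg.enc (enc_pnc _ 0))⟩
noncomputable def ekUg_8 : Fn3 := ⟨_, _, fun h1 h2 h3 => (enc_scale 109997 50000 (ekUg_7.enc h1 h2 h3))⟩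
noncomputable def ekUg_12 : Fn3 := ⟨_, _, fun h1 h2 h3 => (enc_scale 559209 100000 (ekUg_7.enc h1 h2 h3))⟩
noncomputable def ekUg_20 : Fn3 := ⟨_, _, fun h1 h2 h3 => (enc_scale 5 3 (enc_add (enc_sub (ekUg_4.enc h1 h2 h3) (enc_mul (ekUg_12.enc h1 h2 h3) (enc_norm (enc_sub (enc_rat _ 3 5) (ekUg_5.enc h1 h2 h3))))) (ekUg_8.enc h1 h2 h3)))⟩
noncomputable def ekUg_42 : Fn3 := ⟨_, _, fun h1 h2 h3 => (enc_scale 10 3 (enc_add (enc_sub (enc_neg (enc_scale 6303 625 (ekUg_7.enc h1 h2 h3))) (ekUg_4.enc h1 h2 h3)) (enc_mul (ekUg_12.enc h1 h2 h3) (enc_norm (enc_sub (enc_rat _ 6 5) (ekUg_5.enc h1 h2 h3))))))⟩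
noncomputable def ekUg : Fn3 := ⟨_, _, fun h1 h2 h3 => (enc_add (enc_add (enc_add (enc_sub (enc_mul (enc_norm (enc_add (ekUg_20.enc h1 h2 h3) (ekUg_8.enc h1 h2 h3))) (hgg.enc (enc_norm (enc_sub h3 h2)))) (enc_mul (ekUg_8.enc h1 h2 h3) h3)) (enc_mul (enc_norm (enc_sub (enc_neg (ekUg_12.enc h1 h2 h3)) (ekUg_20.enc h1 h2 h3))) (hgg.enc (enc_norm (enc_sub h3 (enc_scale 8 5 h2)))))) (enc_mul (enc_norm (enc_add (ekUg_42.enc h1 h2 h3) (ekUg_12.enc h1 h2 h3))) (hgg.enc (enc_norm (enc_sub h3 (enc_scale 11 5 h2)))))) (enc_mul (enc_norm (enc_sub (enc_neg (enc_scale 12606 3125 (ekUg_7.enc h1 h2 h3))) (ekUg_42.enc h1 h2 h3))) (hgg.enc (enc_norm (enc_sub h3 (enc_scale 5 2 h2))))))⟩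
theorem ekUg_v {r lam t : ℝ} (h0 : 0 < r) (h1 : r ≤ 1 / 36) (ht : t ≤ 21 / 10) :
    ekUg.v r lam t = G.kU r lam t := by
  unfold G.kU G.uR
  rw [hg_fix h0 h1 ht (a := 1) (b := 16) (by norm_num) (by norm_num), hg_fix h0 h1 ht (a := 1) (b := 10) (by norm_num) (by norm_num)]
  simp only [ekUg, ekUg_3, ekUg_4, ekUg_5, ekUg_7, ekUg_8, ekUg_12, ekUg_20, ekUg_42, epKg_v, eehg_v, ehhg_v, hgg_v]
  simp only [G.u1, G.u2, G.u3, G.u4, G.u5]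
  all_goals (push_cast; ring_nf)
noncomputable def eS1gk : Fn3 := ⟨_, _, fun h1 h2 h3 => (ekUg.enc h1 h2 h3)⟩
theorem eS1gk_v {r lam w : ℝ} (s : Scl r lam w) :
    eS1gk.v r lam w = (G.S1 r lam w).k := by
  simp only [eS1gk, ekUg_v s.r0 s.r1 s.b0, G.S1]
  all_goals (push_cast; ring_nf)
noncomputable def eS1gcA : Fn3 := ⟨_, _, fun h1 h2 h3 => (enc_pnc _ 0)⟩
theorem eS1gcA_v (r lam w : ℝ) : eS1gcA.v r lam w = (G.S1 r lam w).cA := by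
  simp only [eS1gcA, G.S1, G.nt]
  all_goals (push_cast; ring_nf)
noncomputable def eLAMg : Fn1 := ⟨_, _, fun h1 => (enc_norm (enc_nat 2 (enc_sub (enc_pnc _ 1) (egsg.enc h1))))⟩
theorem eLAMg_v (e : ℝ) : eLAMg.v e = G.LAM e := by
  unfold G.LAM
  simp only [eLAMg, egsg_v]
  all_goals (push_cast; ring_nf)
noncomputable def eS1gcB_3 : Fn3 := ⟨_, _, fun h1 h2 h3 => (enc_mul h2 h1)⟩
noncomputable def eS1gcB_10 : Fn3 := ⟨_, _, fun h1 h2 h3 => (ehhg.enc (enc_pnc _ 0))⟩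
noncomputable def eS1gcB : Fn3 := ⟨_, _, fun h1 h2 h3 => (enc_mul (eLAMg.enc (enc_norm (eS1gcB_3.enc h1 h2 h3))) (enc_norm (enc_mul (enc_norm (enc_sub (enc_rat _ 85937 100000) (enc_scale 10723 500 (eS1gcB_3.enc h1 h2 h3)))) (enc_sq (enc_norm (enc_mul (enc_norm (enc_mul (eS1gcB_10.enc h1 h2 h3) (hgg.enc (enc_norm (enc_sub h3 (enc_scale 167 50 h2)))))) (enc_inv (enc_sub (enc_rat _ 1 2) (enc_mul (enc_scale 167 50 (eS1gcB_10.enc h1 h2 h3)) (enc_norm (eS1gcB_3.enc h1 h2 h3)))))))))))⟩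
theorem eS1gcB_v {r lam w : ℝ} (s : Scl r lam w) :
    eS1gcB.v r lam w = (G.S1 r lam w).cB := by
  simp only [G.S1]
  unfold G.aL
  simp only [hg_fix s.r0 s.r1 s.b0 (a := 29) (b := 400) (by norm_num) (by norm_num), hg_fix s.r0 s.r1 s.b0 (a := 9) (b := 100) (by norm_num) (by norm_num), hg_fix s.r0 s.r1 s.b0 (a := 3) (b := 25) (by norm_num) (by norm_num)]
  simp only [eS1gcB, eS1gcB_3, eS1gcB_10, eLAMg_v, ehhg_v, hgg_v]
  all_goals (push_cast; ring_nf)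
noncomputable def ecc1g : Fn2 := ⟨_, _, fun h1 h2 => (enc_sqrt (enc_sub (enc_pnc _ 1) (enc_scale 3 4 (enc_sq (enc_norm (enc_add (enc_pnc _ 1) (enc_mul h2 h1)))))))⟩
theorem ecc1g_v (z x : ℝ) : ecc1g.v z x = E0.G.cc1 z x := by
  unfold E0.G.cc1
  simp only [ecc1g]
  all_goals (push_cast; ring_nf)
noncomputable def exi1g : Fn2 := ⟨_, _, fun h1 h2 => (enc_norm (enc_neg (enc_mul (enc_norm (enc_mul (enc_scale 3 4 h1) (enc_norm (enc_add (enc_pnc _ 2) (enc_mul h2 h1))))) (enc_inv (enc_add (enc_rat _ 1 2) (ecc1g.enc h1 h2))))))⟩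
theorem exi1g_v (z x : ℝ) : exi1g.v z x = E0.G.xi1 z x := by
  unfold E0.G.xi1
  simp only [exi1g, ecc1g_v]
  all_goals (push_cast; ring_nf)
noncomputable def edWg_3 : Fn1 := ⟨_, _, fun h1 => (enc_add (eehg.enc h1) (enc_rat _ 1 2))⟩
noncomputable def edWg : Fn1 := ⟨_, _, fun h1 => (enc_norm (enc_mul (enc_norm (enc_add (enc_add (enc_rat _ 3 4) (enc_half (edWg_3.enc h1))) (enc_half (enc_sub (enc_sub (enc_nat 2 (edWg_3.enc h1)) (eq1g.enc h1)) (enc_mul (enc_norm (enc_mul (enc_nat 2 h1) (enc_norm (edWg_3.enc h1)))) (eq1g.enc h1)))))) (enc_inv (enc_nat 2 (enc_mul (egsg.enc h1) (eehg.enc h1))))))⟩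
theorem edWg_v (e : ℝ) : edWg.v e = G.dW e := by
  unfold G.dW
  simp only [edWg, edWg_3, eehg_v, eq1g_v, egsg_v]
  all_goals (push_cast; ring_nf)
noncomputable def evW0g : Fn1 := ⟨_, _, fun h1 => (enc_norm (enc_mul (enc_norm (enc_sub (enc_sub (enc_mul (enc_norm (enc_add (enc_half (eq1g.enc h1)) (epKg.enc h1))) (enc_inv (enc_add (eehg.enc h1) (enc_pnc _ 1)))) (edWg.enc h1)) (enc_add (eehg.enc h1) (enc_rat _ 1 2)))) (eigg.enc h1)))⟩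
theorem evW0g_v (e : ℝ) : evW0g.v e = G.vW0 e := by
  unfold G.vW0
  simp only [evW0g, eq1g_v, epKg_v, eehg_v, edWg_v, eigg_v]
  all_goals (push_cast; ring_nf)
noncomputable def ewK0g_9 : Fn3 := ⟨_, _, fun h1 h2 h3 => (enc_add (evW0g.enc (enc_norm (enc_mul h2 h1))) (enc_pnc _ 6))⟩
noncomputable def ewK0g : Fn3 := ⟨_, _, fun h1 h2 h3 => (enc_sub (enc_add (enc_add (enc_add (enc_scale 9207 2500 h3) (enc_mul (enc_norm (enc_subr 9207 1250 (enc_nat 2 (ewK0g_9.enc h1 h2 h3)))) (hgg.enc (enc_norm (enc_sub h3 (enc_half h2)))))) (enc_mul (enc_norm (enc_sub (enc_rat _ 9207 2500) (enc_scale 8 3 (ewK0g_9.enc h1 h2 h3)))) (hgg.enc (enc_norm (enc_sub h3 h2))))) (enc_mul (enc_norm (enc_scale 2 3 (ewK0g_9.enc h1 h2 h3))) (hgg.enc (enc_norm (enc_sub h3 (enc_scale 5 2 h2)))))) (enc_nat 6 h3))⟩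
theorem ewK0g_v (r lam a : ℝ) : ewK0g.v r lam a = G.wK0 r lam a := by
  unfold G.wK0 G.tl
  simp only [ewK0g, ewK0g_9, evW0g_v, hgg_v]
  all_goals (push_cast; ring_nf)
noncomputable def eW0gk : Fn3 := ⟨_, _, fun h1 h2 h3 => (enc_add (ewK0g.enc h1 h2 h3) (enc_mul (exi1g.enc (enc_neg h3) h1) (enc_norm (enc_add (enc_pnc _ 1) (enc_mul h1 (enc_norm (ewK0g.enc h1 h2 h3)))))))⟩
theorem eW0gk_v (r lam w : ℝ) : eW0gk.v r lam w = (G.W0 r lam w).k := by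
  simp only [eW0gk, ewK0g_v, exi1g_v, G.W0, G.nt]
  all_goals (push_cast; ring_nf)
noncomputable def eW0gcA : Fn3 := ⟨_, _, fun h1 h2 h3 => (enc_mul (enc_scale 1 50 (eLAMg.enc (enc_norm (enc_mul h2 h1)))) (hgg.enc (enc_norm (enc_sub h3 (enc_scale 5 2 h2)))))⟩
theorem eW0gcA_v (r lam w : ℝ) : eW0gcA.v r lam w = (G.W0 r lam w).cA := by
  simp only [eW0gcA, eLAMg_v, hgg_v, G.W0, G.nt]
  all_goals (push_cast; ring_nf)
noncomputable def eW0gcB : Fn3 := ⟨_, _, fun h1 h2 h3 => (enc_pnc _ 0)⟩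
theorem eW0gcB_v (r lam w : ℝ) : eW0gcB.v r lam w = (G.W0 r lam w).cB := by
  simp only [eW0gcB, G.W0, G.nt]
  all_goals (push_cast; ring_nf)
noncomputable def edQg : Fn2 := ⟨_, _, fun h1 h2 => (enc_norm (enc_sub (enc_subn 1 (enc_sqrt (enc_sub (enc_pnc _ 3) (enc_scale 3 4 (enc_sq (enc_norm (enc_mul h1 h2))))))) (enc_mul h1 (exi1g.enc (enc_neg h2) h1))))⟩
theorem edQg_v (r w : ℝ) : edQg.v r w = G.dQ r w := by
  unfold G.dQ
  simp only [edQg, exi1g_v]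
  all_goals (push_cast; ring_nf)
noncomputable def exiqg : Fn3 := ⟨_, _, fun h1 h2 h3 => (enc_add (exi1g.enc (enc_neg h3) h1) (enc_mul (enc_scale 11 5 h2) (edQg.enc h1 h3)))⟩
theorem exiqg_v (r lam w : ℝ) : exiqg.v r lam w = G.xiq r lam w := by
  unfold G.xiq
  simp only [exiqg, exi1g_v, edQg_v]
  all_goals (push_cast; ring_nf)
noncomputable def eQ0gk : Fn3 := ⟨_, _, fun h1 h2 h3 => (enc_add (enc_sub (eW0gk.enc h1 h2 h3) (enc_mul (enc_scale 11 5 h2) (enc_norm (enc_add (enc_pnc _ 1) (enc_mul h1 (enc_norm (eW0gk.enc h1 h2 h3))))))) (enc_add (enc_sub (enc_add (enc_sub (enc_scale 8437 5000 h2) (enc_scale 41829 5000 h3)) (enc_scale 45263 2500 (hgg.enc (enc_norm (enc_sub h3 (enc_half h2)))))) (enc_scale 56611 5000 (hgg.enc (enc_norm (enc_sub h3 h2))))) (enc_scale 3957 2500 (hgg.enc (enc_norm (enc_sub h3 (enc_scale 5 2 h2)))))))⟩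
theorem eQ0gk_v (r lam w : ℝ) : eQ0gk.v r lam w = (G.Q0 r lam w).k := by
  simp only [eQ0gk, eW0gk_v, hgg_v, G.Q0, G.nt]
  all_goals (push_cast; ring_nf)
noncomputable def ec5g : Fn3 := ⟨_, _, fun h1 h2 h3 => (enc_neg (enc_mul (enc_scale 1371 10000 (eLAMg.enc (enc_norm (enc_mul h2 h1)))) (hgg.enc (enc_norm (enc_sub h3 (enc_scale 5 2 h2))))))⟩
theorem ec5g_v (r lam w : ℝ) : ec5g.v r lam w = G.c5 r lam w := by
  unfold G.c5
  simp only [ec5g, eLAMg_v, hgg_v]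
  all_goals (push_cast; ring_nf)
noncomputable def eQ0gcA : Fn3 := ⟨_, _, fun h1 h2 h3 => (enc_add (eW0gcA.enc h1 h2 h3) (enc_mul (enc_norm (enc_scale 44 3 (enc_mul h2 h1))) (enc_norm (enc_sub (ec5g.enc h1 h2 h3) (eW0gcA.enc h1 h2 h3)))))⟩
theorem eQ0gcA_v (r lam w : ℝ) : eQ0gcA.v r lam w = (G.Q0 r lam w).cA := by
  simp only [eQ0gcA, eW0gcA_v, ec5g_v, G.Q0, G.nt]
  all_goals (push_cast; ring_nf)
noncomputable def eQ0gcB : Fn3 := ⟨_, _, fun h1 h2 h3 => (enc_pnc _ 0)⟩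
theorem eQ0gcB_v (r lam w : ℝ) : eQ0gcB.v r lam w = (G.Q0 r lam w).cB := by
  simp only [eQ0gcB, G.Q0, G.nt]
  all_goals (push_cast; ring_nf)
noncomputable def esg1g : Fn2 := ⟨_, _, fun h1 h2 => (enc_norm (enc_sub (enc_half h1) (exi1g.enc h1 h2)))⟩
theorem esg1g_v (z x : ℝ) : esg1g.v z x = E0.G.sg1 z x := by
  unfold E0.G.sg1
  simp only [esg1g, exi1g_v]
  all_goals (push_cast; ring_nf)
noncomputable def eg1g : Fn2 := ⟨_, _, fun h1 h2 => (enc_norm (enc_mul (enc_scale 3 4 (esg1g.enc h1 h2)) (enc_inv (enc_add (enc_pnc _ 1) (enc_add (enc_half (ecc1g.enc h1 h2)) (enc_scale 3 4 (enc_add (enc_pnc _ 1) (enc_mul h2 h1))))))))⟩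
theorem eg1g_v (z r : ℝ) : eg1g.v z r = G.g1 z r := by
  unfold G.g1
  simp only [eg1g, esg1g_v, ecc1g_v]
  all_goals (push_cast; ring_nf)
noncomputable def eC1dgk : Fn3 := ⟨_, _, fun h1 h2 h3 => (enc_sub (enc_mul (enc_norm (ekUg.enc h1 h2 (enc_neg (esg1g.enc h3 h1)))) (enc_norm (enc_sub (enc_rat _ 1 2) (enc_mul h1 (eg1g.enc h3 h1))))) (eg1g.enc h3 h1))⟩
theorem eC1dgk_v {r lam w : ℝ} (s : Scl r lam w) :
    eC1dgk.v r lam (-w) = (G.C1d r lam (-w)).k := by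
  simp only [eC1dgk, esg1g_v, ekUg_v s.r0 s.r1 s.bd, eg1g_v, G.C1d]
  all_goals (push_cast; ring_nf)
noncomputable def eC1dgcB_3 : Fn3 := ⟨_, _, fun h1 h2 h3 => (enc_mul h2 h1)⟩
noncomputable def eC1dgcB_12 : Fn3 := ⟨_, _, fun h1 h2 h3 => (ehhg.enc (enc_pnc _ 0))⟩
noncomputable def eC1dgcB : Fn3 := ⟨_, _, fun h1 h2 h3 => (enc_mul (eLAMg.enc (enc_norm (eC1dgcB_3.enc h1 h2 h3))) (enc_norm (enc_mul (enc_norm (enc_sub (enc_rat _ 2661 12500) (enc_scale 8863 1000 (eC1dgcB_3.enc h1 h2 h3)))) (enc_sq (enc_norm (enc_mul (enc_norm (enc_mul (eC1dgcB_12.enc h1 h2 h3) (hgg.enc (enc_norm (enc_sub (enc_neg (esg1g.enc h3 h1)) (enc_scale 167 50 h2)))))) (enc_inv (enc_sub (enc_rat _ 1 2) (enc_mul (enc_scale 167 50 (eC1dgcB_12.enc h1 h2 h3)) (enc_norm (eC1dgcB_3.enc h1 h2 h3)))))))))))⟩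
theorem eC1dgcB_v {r lam w : ℝ} (s : Scl r lam w) :
    eC1dgcB.v r lam (-w) = (G.C1d r lam (-w)).cB := by
  simp only [G.C1d]
  unfold G.bL
  simp only [hg_fix s.r0 s.r1 s.bd (a := 29) (b := 400) (by norm_num) (by norm_num), hg_fix s.r0 s.r1 s.bd (a := 9) (b := 100) (by norm_num) (by norm_num), hg_fix s.r0 s.r1 s.bd (a := 3) (b := 25) (by norm_num) (by norm_num)]
  simp only [eC1dgcB, eC1dgcB_3, eC1dgcB_12, eLAMg_v, esg1g_v, ehhg_v, hgg_v]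
  all_goals (push_cast; ring_nf)
noncomputable def exiwg : Fn2 := ⟨_, _, fun h1 h2 => (enc_norm (enc_neg (enc_mul h2 (eomg.enc h1 h2))))⟩
theorem exiwg_v (z x : ℝ) : exiwg.v z x = E0.G.xiw z x := by
  unfold E0.G.xiw
  simp only [exiwg, eomg_v]
  all_goals (push_cast; ring_nf)
noncomputable def ewK2g : Fn3 := ⟨_, _, fun h1 h2 h3 => (enc_sub (enc_sub (enc_add (enc_sub (enc_scale 20923 2500 (hgg.enc (enc_norm (enc_sub h3 (enc_half h2))))) (enc_scale 21419 2500 h3)) (enc_scale 7801 2500 (hgg.enc (enc_norm (enc_sub h3 h2))))) (enc_scale 1461 500 (hgg.enc (enc_norm (enc_sub h3 (enc_scale 5 2 h2)))))) (enc_scale 2772 625 h3))⟩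
theorem ewK2g_v (r lam a : ℝ) : ewK2g.v r lam a = G.wK2 r lam a := by
  unfold G.wK2 G.tl
  simp only [ewK2g, hgg_v]
  all_goals (push_cast; ring_nf)
noncomputable def eW2gk : Fn3 := ⟨_, _, fun h1 h2 h3 => (enc_add (enc_half (ewK2g.enc h1 h2 h3)) (enc_mul (exiwg.enc h3 h1) (enc_norm (enc_add (enc_pnc _ 1) (enc_mul h1 (enc_norm (ewK2g.enc h1 h2 h3)))))))⟩
theorem eW2gk_v (r lam z : ℝ) : eW2gk.v r lam z = (G.W2 r lam z).k := by
  simp only [eW2gk, ewK2g_v, exiwg_v, G.W2, G.nt]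
  all_goals (push_cast; ring_nf)
noncomputable def eW2gcA : Fn3 := ⟨_, _, fun h1 h2 h3 => (enc_mul (enc_scale 3097 10000 (eLAMg.enc (enc_norm (enc_mul h2 h1)))) (hgg.enc (enc_norm (enc_sub h3 (enc_scale 5 2 h2)))))⟩
theorem eW2gcA_v (r lam z : ℝ) : eW2gcA.v r lam z = (G.W2 r lam z).cA := by
  simp only [eW2gcA, eLAMg_v, hgg_v, G.W2, G.nt]
  all_goals (push_cast; ring_nf)
noncomputable def eW2gcB : Fn3 := ⟨_, _, fun h1 h2 h3 => (enc_pnc _ 0)⟩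
theorem eW2gcB_v (r lam z : ℝ) : eW2gcB.v r lam z = (G.W2 r lam z).cB := by
  simp only [eW2gcB, G.W2, G.nt]
  all_goals (push_cast; ring_nf)
noncomputable def eC1ugk : Fn3 := ⟨_, _, fun h1 h2 h3 => (enc_sub (enc_mul (enc_norm (ekUg.enc h1 h2 (esg1g.enc h3 h1))) (enc_norm (enc_sub (enc_rat _ 1 2) (enc_mul h1 (eg1g.enc h3 h1))))) (eg1g.enc h3 h1))⟩
theorem eC1ugk_v {r lam w : ℝ} (s : Scl r lam w) :
    eC1ugk.v r lam w = (G.C1u r lam w).k := by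
  simp only [eC1ugk, esg1g_v, ekUg_v s.r0 s.r1 s.b1, eg1g_v, G.C1u]
  all_goals (push_cast; ring_nf)
noncomputable def eC1ugcA : Fn3 := ⟨_, _, fun h1 h2 h3 => (enc_pnc _ 0)⟩
theorem eC1ugcA_v (r lam z : ℝ) : eC1ugcA.v r lam z = (G.C1u r lam z).cA := by
  simp only [eC1ugcA, G.C1u, G.nt]
  all_goals (push_cast; ring_nf)
noncomputable def eC1ugcB_3 : Fn3 := ⟨_, _, fun h1 h2 h3 => (enc_mul h2 h1)⟩
noncomputable def eC1ugcB_11 : Fn3 := ⟨_, _, fun h1 h2 h3 => (ehhg.enc (enc_pnc _ 0))⟩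
noncomputable def eC1ugcB_22 : Fn3 := ⟨_, _, fun h1 h2 h3 => (enc_sq (enc_norm (enc_mul (enc_norm (enc_mul (eC1ugcB_11.enc h1 h2 h3) (hgg.enc (enc_norm (enc_sub (esg1g.enc h3 h1) (enc_scale 167 50 h2)))))) (enc_inv (enc_sub (enc_rat _ 1 2) (enc_mul (enc_scale 167 50 (eC1ugcB_11.enc h1 h2 h3)) (enc_norm (eC1ugcB_3.enc h1 h2 h3))))))))⟩
noncomputable def eC1ugcB : Fn3 := ⟨_, _, fun h1 h2 h3 => (enc_mul (eLAMg.enc (enc_norm (eC1ugcB_3.enc h1 h2 h3))) (enc_norm (enc_sub (enc_mul (enc_norm (enc_sub (enc_rat _ 85937 100000) (enc_scale 10723 500 (eC1ugcB_3.enc h1 h2 h3)))) (eC1ugcB_22.enc h1 h2 h3)) (enc_mul (enc_norm (enc_sub (enc_rat _ 2661 12500) (enc_scale 8863 1000 (eC1ugcB_3.enc h1 h2 h3)))) (eC1ugcB_22.enc h1 h2 h3)))))⟩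
theorem eC1ugcB_v {r lam w : ℝ} (s : Scl r lam w) :
    eC1ugcB.v r lam w = (G.C1u r lam w).cB := by
  simp only [G.C1u]
  unfold G.aL G.bL
  simp only [hg_fix s.r0 s.r1 s.b1 (a := 29) (b := 400) (by norm_num) (by norm_num), hg_fix s.r0 s.r1 s.b1 (a := 9) (b := 100) (by norm_num) (by norm_num), hg_fix s.r0 s.r1 s.b1 (a := 3) (b := 25) (by norm_num) (by norm_num)]
  simp only [eC1ugcB, eC1ugcB_3, eC1ugcB_11, eC1ugcB_22, eLAMg_v, esg1g_v, ehhg_v, hgg_v]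
  all_goals (push_cast; ring_nf)
noncomputable def ecc3g : Fn2 := ⟨_, _, fun h1 h2 => (enc_sqrt (enc_sub (enc_pnc _ 3) (enc_scale 3 4 (enc_sq (enc_norm (enc_add (enc_pnc _ 1) (enc_mul h2 h1)))))))⟩
theorem ecc3g_v (z x : ℝ) : ecc3g.v z x = E0.G.cc3 z x := by
  unfold E0.G.cc3
  simp only [ecc3g]
  all_goals (push_cast; ring_nf)
noncomputable def exi3g : Fn2 := ⟨_, _, fun h1 h2 => (enc_norm (enc_neg (enc_mul (enc_norm (enc_mul (enc_scale 3 4 h1) (enc_norm (enc_add (enc_pnc _ 2) (enc_mul h2 h1))))) (enc_inv (enc_add (enc_rat _ 3 2) (ecc3g.enc h1 h2))))))⟩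
theorem exi3g_v (z x : ℝ) : exi3g.v z x = E0.G.xi3 z x := by
  unfold E0.G.xi3
  simp only [exi3g, ecc3g_v]
  all_goals (push_cast; ring_nf)
noncomputable def esg3g : Fn2 := ⟨_, _, fun h1 h2 => (enc_norm (enc_sub (enc_half h1) (enc_scale 1 3 (exi3g.enc h1 h2))))⟩
theorem esg3g_v (z x : ℝ) : esg3g.v z x = E0.G.sg3 z x := by
  unfold E0.G.sg3
  simp only [esg3g, exi3g_v]
  all_goals (push_cast; ring_nf)
noncomputable def eg3g : Fn2 := ⟨_, _, fun h1 h2 => (enc_norm (enc_mul (enc_scale 3 4 (esg3g.enc h1 h2)) (enc_inv (enc_add (enc_pnc _ 1) (enc_add (enc_half (ecc3g.enc h1 h2)) (enc_scale 1 4 (enc_add (enc_pnc _ 1) (enc_mul h2 h1))))))))⟩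
theorem eg3g_v (z r : ℝ) : eg3g.v z r = G.g3 z r := by
  unfold G.g3
  simp only [eg3g, esg3g_v, ecc3g_v]
  all_goals (push_cast; ring_nf)
noncomputable def eC3ugk : Fn3 := ⟨_, _, fun h1 h2 h3 => (enc_sub (enc_mul (enc_norm (ekUg.enc h1 h2 (esg3g.enc h3 h1))) (enc_norm (enc_sub (enc_rat _ 3 2) (enc_mul h1 (eg3g.enc h3 h1))))) (eg3g.enc h3 h1))⟩
theorem eC3ugk_v {r lam w : ℝ} (s : Scl r lam w) :
    eC3ugk.v r lam w = (G.C3u r lam w).k := by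
  simp only [eC3ugk, esg3g_v, ekUg_v s.r0 s.r1 s.b3, eg3g_v, G.C3u]
  all_goals (push_cast; ring_nf)
noncomputable def eC3ugcA : Fn3 := ⟨_, _, fun h1 h2 h3 => (enc_pnc _ 0)⟩
theorem eC3ugcA_v (r lam z : ℝ) : eC3ugcA.v r lam z = (G.C3u r lam z).cA := by
  simp only [eC3ugcA, G.C3u, G.nt]
  all_goals (push_cast; ring_nf)
noncomputable def eC3ugcB_3 : Fn3 := ⟨_, _, fun h1 h2 h3 => (enc_mul h2 h1)⟩
noncomputable def eC3ugcB_11 : Fn3 := ⟨_, _, fun h1 h2 h3 => (ehhg.enc (enc_pnc _ 0))⟩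
noncomputable def eC3ugcB_22 : Fn3 := ⟨_, _, fun h1 h2 h3 => (enc_sq (enc_norm (enc_mul (enc_norm (enc_mul (eC3ugcB_11.enc h1 h2 h3) (hgg.enc (enc_norm (enc_sub (esg3g.enc h3 h1) (enc_scale 167 50 h2)))))) (enc_inv (enc_sub (enc_rat _ 1 2) (enc_mul (enc_scale 167 50 (eC3ugcB_11.enc h1 h2 h3)) (enc_norm (eC3ugcB_3.enc h1 h2 h3))))))))⟩
noncomputable def eC3ugcB : Fn3 := ⟨_, _, fun h1 h2 h3 => (enc_mul (eLAMg.enc (enc_norm (eC3ugcB_3.enc h1 h2 h3))) (enc_norm (enc_sub (enc_nat 2 (enc_mul (enc_norm (enc_sub (enc_rat _ 85937 100000) (enc_scale 10723 500 (eC3ugcB_3.enc h1 h2 h3)))) (eC3ugcB_22.enc h1 h2 h3))) (enc_mul (enc_norm (enc_sub (enc_rat _ 2661 12500) (enc_scale 8863 1000 (eC3ugcB_3.enc h1 h2 h3)))) (eC3ugcB_22.enc h1 h2 h3)))))⟩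
theorem eC3ugcB_v {r lam w : ℝ} (s : Scl r lam w) :
    eC3ugcB.v r lam w = (G.C3u r lam w).cB := by
  simp only [G.C3u]
  unfold G.aL G.bL
  simp only [hg_fix s.r0 s.r1 s.b3 (a := 29) (b := 400) (by norm_num) (by norm_num), hg_fix s.r0 s.r1 s.b3 (a := 9) (b := 100) (by norm_num) (by norm_num), hg_fix s.r0 s.r1 s.b3 (a := 3) (b := 25) (by norm_num) (by norm_num)]
  simp only [eC3ugcB, eC3ugcB_3, eC3ugcB_11, eC3ugcB_22, eLAMg_v, esg3g_v, ehhg_v, hgg_v]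
  all_goals (push_cast; ring_nf)
noncomputable def ex2g : Fn2 := ⟨_, _, fun h1 h2 => (enc_norm (enc_mul (enc_norm (enc_mul h1 (enc_norm (enc_sub (enc_scale 3 2 (exi1g.enc h1 h2)) (enc_scale 3 4 h1))))) (enc_inv (enc_add (enc_rat _ 1 2) (ecc1g.enc h1 h2)))))⟩
theorem ex2g_v (z r : ℝ) : ex2g.v z r = G.x2 z r := by
  unfold G.x2
  simp only [ex2g, exi1g_v, ecc1g_v]
  all_goals (push_cast; ring_nf)
noncomputable def emug : Fn1 := ⟨_, _, fun h1 => (enc_inv (enc_add (enc_pnc _ 3) (enc_nat 2 (egsg.enc h1))))⟩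
theorem emug_v (e : ℝ) : emug.v e = G.mu e := by
  unfold G.mu
  simp only [emug, egsg_v]
  all_goals (push_cast; ring_nf)
noncomputable def eB0g : Fn1 := ⟨_, _, fun h1 => (enc_norm (enc_mul (eLAMg.enc h1) (enc_inv (enc_nat 2 (eehg.enc h1)))))⟩
theorem eB0g_v (e : ℝ) : eB0g.v e = G.B0 e := by
  unfold G.B0
  simp only [eB0g, eLAMg_v, eehg_v]
  all_goals (push_cast; ring_nf)
noncomputable def ebeg : Fn1 := ⟨_, _, fun h1 => (enc_norm (enc_add (enc_add (enc_pnc _ 1) (enc_mul (eLAMg.enc h1) (emug.enc h1))) (enc_mul (emug.enc h1) (eB0g.enc h1))))⟩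
theorem ebeg_v (e : ℝ) : ebeg.v e = G.be e := by
  unfold G.be
  simp only [ebeg, eLAMg_v, emug_v, eB0g_v]
  all_goals (push_cast; ring_nf)
noncomputable def epBg : Fn1 := ⟨_, _, fun h1 => (enc_norm (enc_neg (enc_half (enc_mul (eB0g.enc h1) (eq1g.enc h1)))))⟩
theorem epBg_v (e : ℝ) : epBg.v e = G.pB e := by
  unfold G.pB
  simp only [epBg, eB0g_v, eq1g_v]
  all_goals (push_cast; ring_nf)
noncomputable def ebUg_3 : Fn3 := ⟨_, _, fun h1 h2 h3 => (enc_mul h2 h1)⟩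
noncomputable def ebUg_5 : Fn3 := ⟨_, _, fun h1 h2 h3 => (epBg.enc (enc_norm (ebUg_3.enc h1 h2 h3)))⟩
noncomputable def ebUg_6 : Fn3 := ⟨_, _, fun h1 h2 h3 => (eehg.enc (enc_norm (ebUg_3.enc h1 h2 h3)))⟩
noncomputable def ebUg_7 : Fn3 := ⟨_, _, fun h1 h2 h3 => (enc_nat 2 (eB0g.enc (enc_norm (ebUg_3.enc h1 h2 h3))))⟩
noncomputable def ebUg_11 : Fn3 := ⟨_, _, fun h1 h2 h3 => (ehhg.enc (enc_pnc _ 0))⟩
noncomputable def ebUg_12 : Fn3 := ⟨_, _, fun h1 h2 h3 => (enc_mul (enc_norm (enc_sub (enc_rat _ 18757 20000) (ebUg_7.enc h1 h2 h3))) (ebUg_11.enc h1 h2 h3))⟩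
noncomputable def ebUg_17 : Fn3 := ⟨_, _, fun h1 h2 h3 => (enc_mul (enc_norm (enc_sub (enc_neg (enc_rat _ 280683 50000)) (ebUg_7.enc h1 h2 h3))) (ebUg_11.enc h1 h2 h3))⟩
noncomputable def ebUg_23 : Fn3 := ⟨_, _, fun h1 h2 h3 => (enc_scale 5 3 (enc_sub (enc_add (ebUg_5.enc h1 h2 h3) (enc_mul (enc_norm (ebUg_17.enc h1 h2 h3)) (enc_norm (enc_sub (enc_rat _ 3 5) (ebUg_6.enc h1 h2 h3))))) (ebUg_12.enc h1 h2 h3)))⟩
noncomputable def ebUg_37 : Fn3 := ⟨_, _, fun h1 h2 h3 => (enc_mul (enc_norm (enc_sub (enc_rat _ 23151 3125) (ebUg_7.enc h1 h2 h3))) (ebUg_11.enc h1 h2 h3))⟩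
noncomputable def ebUg_44 : Fn3 := ⟨_, _, fun h1 h2 h3 => (enc_scale 10 3 (enc_sub (enc_sub (enc_scale 5 2 (ebUg_37.enc h1 h2 h3)) (ebUg_5.enc h1 h2 h3)) (enc_mul (enc_norm (ebUg_17.enc h1 h2 h3)) (enc_norm (enc_sub (enc_rat _ 6 5) (ebUg_6.enc h1 h2 h3))))))⟩
noncomputable def ebUg : Fn3 := ⟨_, _, fun h1 h2 h3 => (enc_add (enc_add (enc_add (enc_add (enc_mul (enc_norm (ebUg_12.enc h1 h2 h3)) h3) (enc_mul (enc_norm (enc_sub (ebUg_23.enc h1 h2 h3) (ebUg_12.enc h1 h2 h3))) (hgg.enc (enc_norm (enc_sub h3 h2))))) (enc_mul (enc_norm (enc_sub (ebUg_17.enc h1 h2 h3) (ebUg_23.enc h1 h2 h3))) (hgg.enc (enc_norm (enc_sub h3 (enc_scale 8 5 h2)))))) (enc_mul (enc_norm (enc_sub (ebUg_44.enc h1 h2 h3) (ebUg_17.enc h1 h2 h3))) (hgg.enc (enc_norm (enc_sub h3 (enc_scale 11 5 h2)))))) (enc_mul (enc_norm (enc_sub (ebUg_37.enc h1 h2 h3) (ebUg_44.enc h1 h2 h3))) (hgg.enc (enc_norm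 (enc_sub h3 (enc_scale 5 2 h2))))))⟩
theorem ebUg_v {r lam t : ℝ} (h0 : 0 < r) (h1 : r ≤ 1 / 36) (ht : t ≤ 21 / 10) :
    ebUg.v r lam t = G.bU r lam t := by
  unfold G.bU G.uR
  rw [hg_fix h0 h1 ht (a := 1) (b := 16) (by norm_num) (by norm_num), hg_fix h0 h1 ht (a := 1) (b := 10) (by norm_num) (by norm_num)]
  simp only [ebUg, ebUg_3, ebUg_5, ebUg_6, ebUg_7, ebUg_11, ebUg_12, ebUg_17, ebUg_23, ebUg_37, ebUg_44, eB0g_v, epBg_v, eehg_v, ehhg_v, hgg_v]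
  simp only [G.u1, G.u2, G.u3, G.u4, G.u5]
  all_goals (push_cast; ring_nf)
noncomputable def eS1gb : Fn3 := ⟨_, _, fun h1 h2 h3 => (ebUg.enc h1 h2 h3)⟩
theorem eS1gb_v {r lam w : ℝ} (s : Scl r lam w) :
    eS1gb.v r lam w = (G.S1 r lam w).b := by
  simp only [eS1gb, ebUg_v s.r0 s.r1 s.b0, G.S1]
  all_goals (push_cast; ring_nf)
noncomputable def ewB0g_4 : Fn3 := ⟨_, _, fun h1 h2 h3 => (enc_mul h2 h1)⟩
noncomputable def ewB0g_14 : Fn3 := ⟨_, _, fun h1 h2 h3 => (enc_subr 25647 5000 (enc_neg (enc_mul (enc_norm (enc_mul (eB0g.enc (enc_norm (ewB0g_4.enc h1 h2 h3))) (enc_norm (enc_add (eehg.enc (enc_norm (ewB0g_4.enc h1 h2 h3))) (enc_rat _ 1 2))))) (eigg.enc (enc_norm (ewB0g_4.enc h1 h2 h3))))))⟩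
noncomputable def ewB0g : Fn3 := ⟨_, _, fun h1 h2 h3 => (enc_add (enc_scale 25647 5000 h3) (enc_add (enc_add (enc_sub (enc_mul (enc_norm (enc_add (enc_nat 2 (ewB0g_14.enc h1 h2 h3)) (enc_rat _ 21201 2500))) (hgg.enc (enc_norm (enc_sub h3 (enc_half h2))))) (enc_scale 21201 5000 h3)) (enc_mul (enc_norm (enc_sub (enc_neg (enc_rat _ 21201 5000)) (enc_scale 8 3 (ewB0g_14.enc h1 h2 h3)))) (hgg.enc (enc_norm (enc_sub h3 h2))))) (enc_mul (enc_norm (enc_scale 2 3 (ewB0g_14.enc h1 h2 h3))) (hgg.enc (enc_norm (enc_sub h3 (enc_scale 5 2 h2)))))))⟩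
theorem ewB0g_v (r lam a : ℝ) : ewB0g.v r lam a = G.wB0 r lam a := by
  unfold G.wB0 G.tl
  simp only [ewB0g, ewB0g_4, ewB0g_14, eB0g_v, eehg_v, eigg_v, hgg_v]
  all_goals (push_cast; ring_nf)
noncomputable def eW0gb : Fn3 := ⟨_, _, fun h1 h2 h3 => (enc_add (ewB0g.enc h1 h2 h3) (enc_mul (exi1g.enc (enc_neg h3) h1) (enc_norm (enc_add (eB0g.enc (enc_norm (enc_mul h2 h1))) (enc_mul h1 (enc_norm (ewB0g.enc h1 h2 h3)))))))⟩
theorem eW0gb_v (r lam w : ℝ) : eW0gb.v r lam w = (G.W0 r lam w).b := by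
  simp only [eW0gb, ewB0g_v, exi1g_v, eB0g_v, G.W0, G.nt]
  all_goals (push_cast; ring_nf)
noncomputable def eQ0gb : Fn3 := ⟨_, _, fun h1 h2 h3 => (enc_add (enc_sub (eW0gb.enc h1 h2 h3) (enc_mul (enc_scale 11 5 h2) (enc_norm (enc_add (eB0g.enc (enc_norm (enc_mul h2 h1))) (enc_mul h1 (enc_norm (eW0gb.enc h1 h2 h3))))))) (enc_add (enc_add (enc_sub (enc_add (enc_scale 1019 1250 h2) (enc_scale 4372 625 h3)) (enc_scale 63603 5000 (hgg.enc (enc_norm (enc_sub h3 (enc_half h2)))))) (enc_scale 3569 750 (hgg.enc (enc_norm (enc_sub h3 h2))))) (enc_scale 14501 15000 (hgg.enc (enc_norm (enc_sub h3 (enc_scale 5 2 h2)))))))⟩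
theorem eQ0gb_v (r lam w : ℝ) : eQ0gb.v r lam w = (G.Q0 r lam w).b := by
  simp only [eQ0gb, eW0gb_v, eB0g_v, hgg_v, G.Q0, G.nt]
  all_goals (push_cast; ring_nf)
noncomputable def eC1dgb : Fn3 := ⟨_, _, fun h1 h2 h3 => (enc_sub (enc_mul (enc_norm (ebUg.enc h1 h2 (enc_neg (esg1g.enc h3 h1)))) (enc_norm (enc_sub (enc_rat _ 1 2) (enc_mul h1 (eg1g.enc h3 h1))))) (enc_mul (eB0g.enc (enc_norm (enc_mul h2 h1))) (eg1g.enc h3 h1)))⟩
theorem eC1dgb_v {r lam w : ℝ} (s : Scl r lam w) :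
    eC1dgb.v r lam (-w) = (G.C1d r lam (-w)).b := by
  simp only [eC1dgb, esg1g_v, ebUg_v s.r0 s.r1 s.bd, eg1g_v, eB0g_v, G.C1d]
  all_goals (push_cast; ring_nf)
noncomputable def ewB2g : Fn3 := ⟨_, _, fun h1 h2 h3 => (enc_add (enc_scale 4367 5000 h3) (enc_add (enc_add (enc_sub (enc_scale 55587 5000 h3) (enc_scale 24269 1250 (hgg.enc (enc_norm (enc_sub h3 (enc_half h2)))))) (enc_scale 110369 15000 (hgg.enc (enc_norm (enc_sub h3 h2))))) (enc_scale 7049 7500 (hgg.enc (enc_norm (enc_sub h3 (enc_scale 5 2 h2)))))))⟩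
theorem ewB2g_v (r lam a : ℝ) : ewB2g.v r lam a = G.wB2 r lam a := by
  unfold G.wB2 G.tl
  simp only [ewB2g, hgg_v]
  all_goals (push_cast; ring_nf)
noncomputable def eW2gb : Fn3 := ⟨_, _, fun h1 h2 h3 => (enc_add (enc_half (ewB2g.enc h1 h2 h3)) (enc_mul (exiwg.enc h3 h1) (enc_norm (enc_add (eB0g.enc (enc_norm (enc_mul h2 h1))) (enc_mul h1 (enc_norm (ewB2g.enc h1 h2 h3)))))))⟩
theorem eW2gb_v (r lam z : ℝ) : eW2gb.v r lam z = (G.W2 r lam z).b := by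
  simp only [eW2gb, ewB2g_v, exiwg_v, eB0g_v, G.W2, G.nt]
  all_goals (push_cast; ring_nf)
noncomputable def eC1ugb : Fn3 := ⟨_, _, fun h1 h2 h3 => (enc_sub (enc_mul (enc_norm (ebUg.enc h1 h2 (esg1g.enc h3 h1))) (enc_norm (enc_sub (enc_rat _ 1 2) (enc_mul h1 (eg1g.enc h3 h1))))) (enc_mul (eB0g.enc (enc_norm (enc_mul h2 h1))) (eg1g.enc h3 h1)))⟩
theorem eC1ugb_v {r lam w : ℝ} (s : Scl r lam w) :
    eC1ugb.v r lam w = (G.C1u r lam w).b := by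
  simp only [eC1ugb, esg1g_v, ebUg_v s.r0 s.r1 s.b1, eg1g_v, eB0g_v, G.C1u]
  all_goals (push_cast; ring_nf)
noncomputable def eC3ugb : Fn3 := ⟨_, _, fun h1 h2 h3 => (enc_sub (enc_mul (enc_norm (ebUg.enc h1 h2 (esg3g.enc h3 h1))) (enc_norm (enc_sub (enc_rat _ 3 2) (enc_mul h1 (eg3g.enc h3 h1))))) (enc_mul (eB0g.enc (enc_norm (enc_mul h2 h1))) (eg3g.enc h3 h1)))⟩
theorem eC3ugb_v {r lam w : ℝ} (s : Scl r lam w) :
    eC3ugb.v r lam w = (G.C3u r lam w).b := by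
  simp only [eC3ugb, esg3g_v, ebUg_v s.r0 s.r1 s.b3, eg3g_v, eB0g_v, G.C3u]
  all_goals (push_cast; ring_nf)

end Pool.Agent.Strip051.G.IE1.Tab.W
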