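import Pool.Agent.Strip051.PB.FxLib
import Pool.Agent.Strip051.LC.E1.FxY
import Pool.Agent.Strip051.G.IE1.FxW0

/-! # Rows in the windows at the floor near `x = 1` (generated) -/

set_option linter.all false

namespace Pool.Agent.Strip051.G.IE1.Tab.W

open Pool.Agent.Strip051.PB Pool.Agent.Strip051.PB.Fx Pool.Agent.StripNear Pool.Agent.Strip051.LC
open Pool.Agent.Strip051.LC.E1
open Pool.Agent.Strip051.LC.E0.G (om qw cc1 xi1 sg1 cc3 xi3 sg3 xiw)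
open Pool.Agent.Strip051.LC.E1.G hiding mu g1

theorem kU_lin {r lam t : ℝ} (h0 : 0 < r) (h1 : r ≤ 1 / 36) (ht : t ≤ 21 / 10) (hl : 0 ≤ lam)
    (h : t ≤ lam) : kU r lam t = ((-(9997 / 50000)) - 2 * 1) * (Real.sqrt 3 / 2) * t := by
  unfold kU
  exact uR_lin h0 h1 ht hl h
theorem bU_lin {r lam t : ℝ} (h0 : 0 < r) (h1 : r ≤ 1 / 36) (ht : t ≤ 21 / 10) (hl : 0 ≤ lam)
    (h : t ≤ lam) : bU r lam t = (18757 / 20000 - 2 * B0 (lam * r)) * (Real.sqrt 3 / 2) * t := by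
  unfold bU
  exact uR_lin h0 h1 ht hl h
theorem kU_pin {r lam t : ℝ} (h0 : 0 < r) (h1 : r ≤ 1 / 36) (ht : t ≤ 21 / 10) (hl : 0 ≤ lam)
    (h : 8 / 5 * lam ≤ t) (h' : t ≤ 11 / 5 * lam) : kU r lam t =
      lam * pK (lam * r) + ((-(359209 / 100000)) - 2 * 1) * (Real.sqrt 3 / 2) * (t - lam * (1 + eh (lam * r))) := by
  unfold kU
  exact uR_pin h0 h1 ht hl h h'
theorem bU_pin {r lam t : ℝ} (h0 : 0 < r) (h1 : r ≤ 1 / 36) (ht : t ≤ 21 / 10) (hl : 0 ≤ lam)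
    (h : 8 / 5 * lam ≤ t) (h' : t ≤ 11 / 5 * lam) : bU r lam t =
      lam * pB (lam * r) + ((-(280683 / 50000)) - 2 * B0 (lam * r)) * (Real.sqrt 3 / 2) * (t - lam * (1 + eh (lam * r))) := by
  unfold bU
  exact uR_pin h0 h1 ht hl h h'
theorem aL_zero {e r lam t : ℝ} (h0 : 0 < r) (h1 : r ≤ 1 / 36) (ht : t ≤ 21 / 10)
    (h : t ≤ 167 / 50 * lam) : aL e r lam t = 0 := by
  unfold aL
  rw [hg_neg (by linarith : t - 167 / 50 * lam ≤ 0), hg_fix h0 h1 ht (a := 29) (b := 400) (by norm_num) (by norm_num), hg_fix h0 h1 ht (a := 9) (b := 100) (by norm_num) (by norm_num), hg_fix h0 h1 ht (a := 3) (b := 25) (by norm_num) (by norm_num)]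
  ring
theorem bL_zero {e r lam t : ℝ} (h0 : 0 < r) (h1 : r ≤ 1 / 36) (ht : t ≤ 21 / 10)
    (h : t ≤ 167 / 50 * lam) : bL e r lam t = 0 := by
  unfold bL
  rw [hg_neg (by linarith : t - 167 / 50 * lam ≤ 0), hg_fix h0 h1 ht (a := 29) (b := 400) (by norm_num) (by norm_num), hg_fix h0 h1 ht (a := 9) (b := 100) (by norm_num) (by norm_num), hg_fix h0 h1 ht (a := 3) (b := 25) (by norm_num) (by norm_num)]
  ring
theorem wK0_lin {r lam a : ℝ} (hl : 0 ≤ lam) (h : a ≤ lam / 2) : wK0 r lam a = (-(5793 / 2500)) * a := by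
  unfold wK0 tl
  rw [hg_neg (by linarith : a - lam / 2 ≤ 0), hg_neg (by linarith : a - lam ≤ 0),
    hg_neg (by linarith : a - 5 / 2 * lam ≤ 0)]
  ring
theorem wB0_lin {r lam a : ℝ} (hl : 0 ≤ lam) (h : a ≤ lam / 2) : wB0 r lam a = 2223 / 2500 * a := by
  unfold wB0 tl
  rw [hg_neg (by linarith : a - lam / 2 ≤ 0), hg_neg (by linarith : a - lam ≤ 0),
    hg_neg (by linarith : a - 5 / 2 * lam ≤ 0)]
  ring
theorem wK2_lin {r lam a : ℝ} (hl : 0 ≤ lam) (h : a ≤ lam / 2) : wK2 r lam a = (-(32507 / 2500)) * a := by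
  unfold wK2 tl
  rw [hg_neg (by linarith : a - lam / 2 ≤ 0), hg_neg (by linarith : a - lam ≤ 0),
    hg_neg (by linarith : a - 5 / 2 * lam ≤ 0)]
  ring
theorem wB2_lin {r lam a : ℝ} (hl : 0 ≤ lam) (h : a ≤ lam / 2) : wB2 r lam a = 29977 / 2500 * a := by
  unfold wB2 tl
  rw [hg_neg (by linarith : a - lam / 2 ≤ 0), hg_neg (by linarith : a - lam ≤ 0),
    hg_neg (by linarith : a - 5 / 2 * lam ≤ 0)]
  ring
noncomputable def s0c1F_3 : Fn3 := ⟨_, _, fun h1 h2 h3 => (enc_mul h2 h3)⟩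
noncomputable def s0c1F_7 : Fn3 := ⟨_, _, fun h1 h2 h3 => (eehg.enc (enc_norm (s0c1F_3.enc h1 h2 h3)))⟩
noncomputable def s0c1F_13 : Fn3 := ⟨_, _, fun h1 h2 h3 => (enc_mul h3 (eomg.enc h1 h3))⟩
noncomputable def s0c1F : Fn3 := ⟨_, _, fun h1 h2 h3 => (enc_sub (enc_sub (enc_sub (enc_sub (enc_half (enc_mul (enc_norm (enc_sub (enc_pnc _ 1) (enc_mul h3 (enc_norm (s0c1F_13.enc h1 h2 h3))))) h1)) (enc_mul h2 (enc_norm (enc_mul (s0c1F_7.enc h1 h2 h3) (enc_norm (enc_mul h3 (enc_norm (enc_sub (enc_neg (s0c1F_13.enc h1 h2 h3)) (eS1gk.enc h3 h2 h1))))))))) (enc_mul (enc_norm (enc_mul h2 (enc_norm (enc_mul (s0c1F_7.enc h1 h2 h3) (enc_norm (enc_mul (enc_norm (enc_add (enc_pnc _ 1) (enc_mul h3 (enc_norm (eS1gk.enc h3 h2 h1))))) (enc_norm (enc_mul h3 h1)))))))) (enc_inv (enc_sub (enc_pnc _ 1) (s0c1F_3.enc h1 h2 h3))))) (enc_mul h3 (enc_norm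 (enc_mul (enc_norm (enc_mul h2 (enc_norm (enc_add (s0c1F_7.enc h1 h2 h3) (enc_rat _ 1 2))))) (enc_norm (s0c1F_13.enc h1 h2 h3)))))) (enc_half (enc_add (eS1gcA.enc h3 h2 h1) (enc_mul h3 (enc_norm (eS1gcB.enc h3 h2 h1))))))⟩
theorem s0c1F_v {r lam w : ℝ} (s : Scl r lam w) : s0c1F.v w lam r = g0 .far r lam w (1 + r * -(r * om w r))
      (vA .far (lam * r) 1 r (S1 r lam w)) ((S1 r lam w).cA + r * (S1 r lam w).cB) := by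
  simp only [s0c1F, s0c1F_3, s0c1F_7, s0c1F_13, eehg_v, eomg_v, eS1gk_v s, eS1gcA_v, eS1gcB_v s, g0, vA, nk]
  push_cast
  ring
noncomputable def s0WF_3 : Fn3 := ⟨_, _, fun h1 h2 h3 => (enc_mul h2 h3)⟩
noncomputable def s0WF_7 : Fn3 := ⟨_, _, fun h1 h2 h3 => (eehg.enc (enc_norm (s0WF_3.enc h1 h2 h3)))⟩
noncomputable def s0WF_13 : Fn3 := ⟨_, _, fun h1 h2 h3 => (exi1g.enc (enc_neg h1) h3)⟩
noncomputable def s0WF : Fn3 := ⟨_, _, fun h1 h2 h3 => (enc_sub (enc_add (enc_sub (enc_sub (enc_half (enc_mul (enc_norm (enc_add (enc_pnc _ 1) (enc_mul h3 (s0WF_13.enc h1 h2 h3)))) h1)) (enc_mul h2 (enc_norm (enc_mul (s0WF_7.enc h1 h2 h3) (enc_norm (enc_mul h3 (enc_norm (enc_sub (s0WF_13.enc h1 h2 h3) (eW0gk.enc h3 h2 h1))))))))) (enc_mul (enc_norm (enc_mul h2 (enc_norm (enc_mul (s0WF_7.enc h1 h2 h3) (enc_norm (enc_mul (enc_norm (enc_add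 (enc_pnc _ 1) (enc_mul h3 (enc_norm (eW0gk.enc h3 h2 h1))))) (enc_norm (enc_mul h3 h1)))))))) (enc_inv (enc_sub (enc_pnc _ 1) (s0WF_3.enc h1 h2 h3))))) (enc_mul h3 (enc_norm (enc_mul (enc_norm (enc_mul h2 (enc_norm (enc_add (s0WF_7.enc h1 h2 h3) (enc_rat _ 1 2))))) (s0WF_13.enc h1 h2 h3))))) (enc_half (enc_add (eW0gcA.enc h3 h2 h1) (enc_mul h3 (eW0gcB.enc h3 h2 h1)))))⟩
theorem s0WF_v {r lam w : ℝ} (s : Scl r lam w) : s0WF.v w lam r = g0 .far r lam w (1 + r * xi1 (-w) r)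
      (vA .far (lam * r) 1 r (W0 r lam w)) ((W0 r lam w).cA + r * (W0 r lam w).cB) := by
  simp only [s0WF, s0WF_3, s0WF_7, s0WF_13, eehg_v, exi1g_v, eW0gk_v, eW0gcA_v, eW0gcB_v, g0, vA, nk]
  push_cast
  ring
noncomputable def s0nF_3 : Fn3 := ⟨_, _, fun h1 h2 h3 => (enc_mul h2 h3)⟩
noncomputable def s0nF_7 : Fn3 := ⟨_, _, fun h1 h2 h3 => (eehg.enc (enc_norm (s0nF_3.enc h1 h2 h3)))⟩
noncomputable def s0nF : Fn3 := ⟨_, _, fun h1 h2 h3 => (enc_sub (enc_add (enc_sub (enc_sub (enc_half (enc_mul (enc_norm (enc_add (enc_pnc _ 1) (enc_mul h3 (enc_norm (exiqg.enc h3 h2 h1))))) h1)) (enc_mul h2 (enc_norm (enc_mul (s0nF_7.enc h1 h2 h3) (enc_norm (enc_mul h3 (enc_norm (enc_sub (exiqg.enc h3 h2 h1) (eQ0gk.enc h3 h2 h1))))))))) (enc_mul (enc_norm (enc_mul h2 (enc_norm (enc_mul (s0nF_7.enc h1 h2 h3) (enc_norm (enc_mul (enc_norm (enc_add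 (enc_pnc _ 1) (enc_mul h3 (enc_norm (eQ0gk.enc h3 h2 h1))))) (enc_norm (enc_mul h3 h1)))))))) (enc_inv (enc_sub (enc_pnc _ 1) (s0nF_3.enc h1 h2 h3))))) (enc_mul h3 (enc_norm (enc_mul (enc_norm (enc_mul h2 (enc_norm (enc_add (s0nF_7.enc h1 h2 h3) (enc_rat _ 1 2))))) (enc_norm (exiqg.enc h3 h2 h1)))))) (enc_half (enc_add (eQ0gcA.enc h3 h2 h1) (enc_mul h3 (eQ0gcB.enc h3 h2 h1)))))⟩
theorem s0nF_v {r lam w : ℝ} (s : Scl r lam w) : s0nF.v w lam r = g0 .far r lam w (1 + r * xiq r lam w)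
      (vA .far (lam * r) 1 r (Q0 r lam w)) ((Q0 r lam w).cA + r * (Q0 r lam w).cB) := by
  simp only [s0nF, s0nF_3, s0nF_7, eehg_v, exiqg_v, eQ0gk_v, eQ0gcA_v, eQ0gcB_v, g0, vA, nk]
  push_cast
  ring
noncomputable def s0qc1F_3 : Fn3 := ⟨_, _, fun h1 h2 h3 => (enc_mul h2 h3)⟩
noncomputable def s0qc1F_7 : Fn3 := ⟨_, _, fun h1 h2 h3 => (eehg.enc (enc_norm (s0qc1F_3.enc h1 h2 h3)))⟩
noncomputable def s0qc1F_23 : Fn3 := ⟨_, _, fun h1 h2 h3 => (enc_mul h3 (enc_norm (enc_mul (enc_scale 3 4 h1) (enc_inv (enc_add (enc_pnc _ 1) (enc_sqrt (enc_sub (enc_pnc _ 1) (enc_scale 3 4 (enc_sq (enc_norm (enc_mul h3 h1)))))))))))⟩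
noncomputable def s0qc1F_25 : Fn3 := ⟨_, _, fun h1 h2 h3 => (enc_scale 109997 50000 (ehhg.enc (enc_pnc _ 0)))⟩
noncomputable def s0qc1F : Fn3 := ⟨_, _, fun h1 h2 h3 => (enc_sub (enc_sub (enc_sub (enc_half (enc_sub (enc_pnc _ 1) (enc_mul h3 (enc_norm (enc_mul (enc_norm (s0qc1F_23.enc h1 h2 h3)) h1))))) (enc_mul h2 (enc_norm (enc_mul (s0qc1F_7.enc h1 h2 h3) (enc_norm (enc_mul h3 (enc_norm (enc_sub (s0qc1F_25.enc h1 h2 h3) (s0qc1F_23.enc h1 h2 h3))))))))) (enc_mul (enc_norm (enc_mul h2 (enc_norm (enc_mul (s0qc1F_7.enc h1 h2 h3) (enc_norm (enc_mul (enc_norm (enc_sub (enc_pnc _ 1) (enc_mul h3 (enc_norm (enc_mul (s0qc1F_25.enc h1 h2 h3) h1))))) h3)))))) (enc_inv (enc_sub (enc_pnc _ 1) (s0qc1F_3.enc h1 h2 h3))))) (enc_mul h3 (enc_norm (enc_mul (enc_norm (enc_mul h2 (enc_norm (enc_add (s0qc1F_7.enc h1 h2 h3) (enc_rat _ 1 2))))) (enc_norm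 (s0qc1F_23.enc h1 h2 h3))))))⟩
theorem s0qc1F_v {r lam w : ℝ} (s : Scl r lam w) (hw : w ≤ lam) : w * s0qc1F.v w lam r = g0 .far r lam w (1 + r * -(r * om w r))
      (vA .far (lam * r) 1 r (S1 r lam w)) ((S1 r lam w).cA + r * (S1 r lam w).cB) := by
  simp only [s0qc1F, s0qc1F_3, s0qc1F_7, s0qc1F_23, s0qc1F_25, eehg_v, ehhg_v, S1, aL_zero s.r0 s.r1 s.b0 (by linarith [s.l0] : w ≤ 167 / 50 * lam), kU_lin s.r0 s.r1 s.b0 s.l0.le hw, bU_lin s.r0 s.r1 s.b0 s.l0.le hw, g0, vA, nk, om, qw]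
  push_cast
  ring_nf
noncomputable def s0qWF_3 : Fn3 := ⟨_, _, fun h1 h2 h3 => (enc_mul h2 h3)⟩
noncomputable def s0qWF_7 : Fn3 := ⟨_, _, fun h1 h2 h3 => (eehg.enc (enc_norm (s0qWF_3.enc h1 h2 h3)))⟩
noncomputable def s0qWF_22 : Fn3 := ⟨_, _, fun h1 h2 h3 => (enc_mul (enc_norm (enc_scale 3 4 (enc_sub (enc_pnc _ 2) (enc_mul h3 h1)))) (enc_inv (enc_add (enc_rat _ 1 2) (ecc1g.enc (enc_neg h1) h3))))⟩
noncomputable def s0qWF_31 : Fn3 := ⟨_, _, fun h1 h2 h3 => (enc_subr 5793 2500 (enc_mul (enc_norm (s0qWF_22.enc h1 h2 h3)) (enc_norm (enc_sub (enc_pnc _ 1) (enc_mul h3 (enc_scale 5793 2500 h1))))))⟩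
noncomputable def s0qWF : Fn3 := ⟨_, _, fun h1 h2 h3 => (enc_add (enc_sub (enc_sub (enc_half (enc_add (enc_pnc _ 1) (enc_mul h3 (enc_norm (enc_mul (enc_norm (s0qWF_22.enc h1 h2 h3)) h1))))) (enc_mul h2 (enc_norm (enc_mul (s0qWF_7.enc h1 h2 h3) (enc_norm (enc_mul h3 (enc_norm (enc_sub (s0qWF_22.enc h1 h2 h3) (s0qWF_31.enc h1 h2 h3))))))))) (enc_mul (enc_norm (enc_mul h2 (enc_norm (enc_mul (s0qWF_7.enc h1 h2 h3) (enc_norm (enc_mul (enc_norm (enc_add (enc_pnc _ 1) (enc_mul h3 (enc_norm (enc_mul (enc_norm (s0qWF_31.enc h1 h2 h3)) h1))))) h3)))))) (enc_inv (enc_sub (enc_pnc _ 1) (s0qWF_3.enc h1 h2 h3))))) (enc_mul h3 (enc_norm (enc_mul (enc_norm (enc_mul h2 (enc_norm (enc_add (s0qWF_7.enc h1 h2 h3) (enc_rat _ 1 2))))) (enc_norm (s0qWF_22.enc h1 h2 h3))))))⟩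
theorem s0qWF_v {r lam w : ℝ} (s : Scl r lam w) (hw : w ≤ 1 / 2 * lam) : w * s0qWF.v w lam r = g0 .far r lam w (1 + r * xi1 (-w) r)
      (vA .far (lam * r) 1 r (W0 r lam w)) ((W0 r lam w).cA + r * (W0 r lam w).cB) := by
  have w2 : w ≤ lam / 2 := by linarith
  simp only [s0qWF, s0qWF_3, s0qWF_7, s0qWF_22, s0qWF_31, eehg_v, ecc1g_v, W0, wK0_lin s.l0.le w2, wB0_lin s.l0.le w2, hg_neg (by linarith [s.l0] : w - 5 / 2 * lam ≤ 0), g0, vA, nk, xi1_xh, xh]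
  push_cast
  ring
noncomputable def s0pF_3 : Fn3 := ⟨_, _, fun h1 h2 h3 => (enc_mul h2 h3)⟩
noncomputable def s0pF_7 : Fn3 := ⟨_, _, fun h1 h2 h3 => (eehg.enc (enc_norm (s0pF_3.enc h1 h2 h3)))⟩
noncomputable def s0pF : Fn3 := ⟨_, _, fun h1 h2 h3 => (enc_add (enc_sub (enc_sub (enc_nat 20 (enc_mul (enc_norm (enc_add (enc_pnc _ 1) (enc_mul h3 (enc_norm (exiqg.enc h3 h2 h1))))) h1)) (enc_mul h2 (enc_norm (enc_mul (s0pF_7.enc h1 h2 h3) (enc_norm (enc_sub (exiqg.enc h3 h2 h1) (eQ0gk.enc h3 h2 h1))))))) (enc_mul (enc_norm (enc_mul h2 (enc_norm (enc_mul (s0pF_7.enc h1 h2 h3) (enc_norm (enc_mul (enc_norm (enc_add (enc_pnc _ 1) (enc_mul h3 (enc_norm (eQ0gk.enc h3 h2 h1))))) h1)))))) (enc_inv (enc_sub (enc_pnc _ 1) (s0pF_3.enc h1 h2 h3))))) (enc_mul (enc_norm (enc_mul h2 (enc_norm (enc_add (s0pF_7.enc h1 h2 h3) (enc_rat _ 1 2)))))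 (enc_norm (exiqg.enc h3 h2 h1))))⟩
theorem s0pF_v {r lam w : ℝ} (s : Scl r lam w) (hw : w ≤ 5 / 2 * lam) : g0 .far r lam w (1 + r * xiq r lam w)
      (vA .far (lam * r) 1 r (Q0 r lam w)) ((Q0 r lam w).cA + r * (Q0 r lam w).cB) =
      (1 + r * xiq r lam w) * w * (1 / 2 - 20 * r) + r * s0pF.v w lam r := by
  have hc : (Q0 r lam w).cA = 0 := by
    show (W0 r lam w).cA + 44 / 3 * (lam * r) * (c5 r lam w - (W0 r lam w).cA) = 0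
    have h1 : (W0 r lam w).cA = 0 := by
      simp only [W0, hg_neg (by linarith : w - 5 / 2 * lam ≤ 0)]
      ring
    have h2 : c5 r lam w = 0 := by
      simp only [c5, hg_neg (by linarith : w - 5 / 2 * lam ≤ 0)]
      ring
    rw [h1, h2]
    ring
  have hd : (Q0 r lam w).cB = 0 := rfl
  simp only [s0pF, s0pF_3, s0pF_7, eehg_v, exiqg_v, eQ0gk_v, hc, hd, g0, vA, nk]
  push_cast
  ring
noncomputable def s05F_3 : Fn3 := ⟨_, _, fun h1 h2 h3 => (enc_mul h2 h3)⟩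
noncomputable def s05F_7 : Fn3 := ⟨_, _, fun h1 h2 h3 => (eehg.enc (enc_norm (s05F_3.enc h1 h2 h3)))⟩
noncomputable def s05F_18 : Fn3 := ⟨_, _, fun h1 h2 h3 => (enc_add (enc_add (enc_pnc _ 1) (enc_mul h3 (exi1g.enc (enc_neg h1) h3))) (enc_scale 3 20 (edQg.enc h3 h1)))⟩
noncomputable def s05F_19 : Fn3 := ⟨_, _, fun h1 h2 h3 => (enc_scale 11 5 (s05F_3.enc h1 h2 h3))⟩
noncomputable def s05F_29 : Fn3 := ⟨_, _, fun h1 h2 h3 => (enc_mul (enc_norm (enc_add (enc_pnc _ 1) (enc_mul h3 (enc_norm (eQ0gk.enc h3 h2 h1))))) (enc_norm (enc_sub (enc_pnc _ 1) (enc_mul (enc_norm (enc_sub (enc_rat _ 3 20) (s05F_19.enc h1 h2 h3))) (enc_inv (enc_sub (enc_pnc _ 1) (s05F_19.enc h1 h2 h3)))))))⟩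
noncomputable def s05F : Fn3 := ⟨_, _, fun h1 h2 h3 => (enc_sub (enc_add (enc_sub (enc_sub (enc_half (enc_mul (enc_norm (s05F_18.enc h1 h2 h3)) h1)) (enc_mul h2 (enc_norm (enc_mul (s05F_7.enc h1 h2 h3) (enc_norm (enc_sub (s05F_18.enc h1 h2 h3) (s05F_29.enc h1 h2 h3))))))) (enc_mul (enc_norm (enc_mul h2 (enc_norm (enc_mul (s05F_7.enc h1 h2 h3) (enc_norm (enc_mul (enc_norm (s05F_29.enc h1 h2 h3)) (enc_norm (enc_mul h3 h1)))))))) (enc_inv (enc_sub (enc_pnc _ 1) (s05F_3.enc h1 h2 h3))))) (enc_mul (enc_norm (enc_mul h2 (enc_norm (enc_add (s05F_7.enc h1 h2 h3) (enc_rat _ 1 2))))) (enc_norm (enc_subn 1 (s05F_18.enc h1 h2 h3))))) (enc_half (ec5g.enc h3 h2 h1)))⟩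
theorem s05F_v {r lam w : ℝ} (s : Scl r lam w) : s05F.v w lam r = g0 .far r lam w (1 + r * xi1 (-w) r + 3 / 20 * dQ r w)
      (v5A .far r lam w) (c5 r lam w) := by
  simp only [s05F, s05F_3, s05F_7, s05F_18, s05F_19, s05F_29, eehg_v, edQg_v, exi1g_v, eQ0gk_v, ec5g_v, g0, v5A, rho5]
  push_cast
  ring
noncomputable def s0f5F_3 : Fn3 := ⟨_, _, fun h1 h2 h3 => (enc_mul h2 h3)⟩
noncomputable def s0f5F_7 : Fn3 := ⟨_, _, fun h1 h2 h3 => (eehg.enc (enc_norm (s0f5F_3.enc h1 h2 h3)))⟩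
noncomputable def s0f5F_18 : Fn3 := ⟨_, _, fun h1 h2 h3 => (enc_add (enc_add (enc_pnc _ 1) (enc_mul h3 (exi1g.enc (enc_neg h1) h3))) (enc_scale 3 20 (edQg.enc h3 h1)))⟩
noncomputable def s0f5F_19 : Fn3 := ⟨_, _, fun h1 h2 h3 => (enc_scale 11 5 (s0f5F_3.enc h1 h2 h3))⟩
noncomputable def s0f5F_29 : Fn3 := ⟨_, _, fun h1 h2 h3 => (enc_mul (enc_norm (enc_add (enc_pnc _ 1) (enc_mul h3 (enc_norm (eQ0gk.enc h3 h2 h1))))) (enc_norm (enc_sub (enc_pnc _ 1) (enc_mul (enc_norm (enc_sub (enc_rat _ 3 20) (s0f5F_19.enc h1 h2 h3))) (enc_inv (enc_sub (enc_pnc _ 1) (s0f5F_19.enc h1 h2 h3)))))))⟩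
noncomputable def s0f5F_45 : Fn3 := ⟨_, _, fun h1 h2 h3 => (enc_inv (enc_sub (enc_pnc _ 1) (s0f5F_3.enc h1 h2 h3)))⟩
noncomputable def s0f5F : Fn3 := ⟨_, _, fun h1 h2 h3 => (enc_add (enc_sub (enc_add (enc_sub (enc_sub (enc_half (enc_mul (enc_norm (s0f5F_18.enc h1 h2 h3)) h1)) (enc_mul h2 (enc_norm (enc_mul (s0f5F_7.enc h1 h2 h3) (enc_norm (enc_sub (s0f5F_18.enc h1 h2 h3) (s0f5F_29.enc h1 h2 h3))))))) (enc_mul (enc_norm (enc_mul h2 (enc_norm (enc_mul (s0f5F_7.enc h1 h2 h3) (enc_norm (enc_mul (enc_norm (s0f5F_29.enc h1 h2 h3)) (enc_norm (enc_mul h3 h1)))))))) (s0f5F_45.enc h1 h2 h3))) (enc_mul (enc_norm (enc_mul h2 (enc_norm (enc_add (s0f5F_7.enc h1 h2 h3) (enc_rat _ 1 2))))) (enc_norm (enc_subn 1 (s0f5F_18.enc h1 h2 h3))))) (enc_half (ec5g.enc h3 h2 h1))) (enc_scale 1 5 (enc_mul h2 (enc_norm (enc_sub (s0f5F_18.enc h1 h2 h3)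 (enc_nat 2 (enc_mul (s0f5F_7.enc h1 h2 h3) (enc_norm (enc_add (enc_mul (enc_norm (s0f5F_3.enc h1 h2 h3)) (enc_norm (enc_mul (enc_pos (s0f5F_29.enc h1 h2 h3)) (s0f5F_45.enc h1 h2 h3)))) (enc_pos (enc_neg (s0f5F_29.enc h1 h2 h3))))))))))))⟩
theorem s0f5F_v {r lam w : ℝ} (s : Scl r lam w) : s0f5F.v w lam r = g0 .far r lam w (1 + r * xi1 (-w) r + 3 / 20 * dQ r w)
      (v5A .far r lam w) (c5 r lam w) + 1 / 5 * (lam * glW .far r lam (1 + r * xi1 (-w) r + 3 / 20 * dQ r w) (v5A .far r lam w)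
      (LAM (lam * r) * (1 + r * xi1 (-w) r + 3 / 20 * dQ r w - 1) + r * c5 r lam w)) := by
  simp only [s0f5F, s0f5F_3, s0f5F_7, s0f5F_18, s0f5F_19, s0f5F_29, s0f5F_45, eehg_v, edQg_v, exi1g_v, eQ0gk_v, ec5g_v, g0, v5A, rho5, glW]
  push_cast
  ring_nf
noncomputable def s0c1N_3 : Fn3 := ⟨_, _, fun h1 h2 h3 => (enc_mul h2 h3)⟩
noncomputable def s0c1N_7 : Fn3 := ⟨_, _, fun h1 h2 h3 => (eehg.enc (enc_norm (s0c1N_3.enc h1 h2 h3)))⟩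
noncomputable def s0c1N_9 : Fn3 := ⟨_, _, fun h1 h2 h3 => (emug.enc (enc_norm (s0c1N_3.enc h1 h2 h3)))⟩
noncomputable def s0c1N_10 : Fn3 := ⟨_, _, fun h1 h2 h3 => (ebeg.enc (enc_norm (s0c1N_3.enc h1 h2 h3)))⟩
noncomputable def s0c1N_17 : Fn3 := ⟨_, _, fun h1 h2 h3 => (enc_mul h3 (eomg.enc h1 h3))⟩
noncomputable def s0c1N_25 : Fn3 := ⟨_, _, fun h1 h2 h3 => (enc_add (enc_mul (enc_norm (enc_add (enc_pnc _ 1) (enc_mul (eLAMg.enc (enc_norm (s0c1N_3.enc h1 h2 h3))) (s0c1N_9.enc h1 h2 h3)))) (enc_norm (eS1gk.enc h3 h2 h1))) (enc_mul (s0c1N_9.enc h1 h2 h3) (enc_norm (eS1gb.enc h3 h2 h1))))⟩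
noncomputable def s0c1N_40 : Fn3 := ⟨_, _, fun h1 h2 h3 => (enc_mul h3 h1)⟩
noncomputable def s0c1N_47 : Fn3 := ⟨_, _, fun h1 h2 h3 => (enc_nat 2 (enc_add (s0c1N_7.enc h1 h2 h3) (enc_rat _ 1 2)))⟩
noncomputable def s0c1N_51 : Fn3 := ⟨_, _, fun h1 h2 h3 => (enc_sub (enc_sub (enc_pnc _ 4) (s0c1N_3.enc h1 h2 h3)) (s0c1N_40.enc h1 h2 h3))⟩
noncomputable def s0c1N : Fn3 := ⟨_, _, fun h1 h2 h3 => (enc_sub (enc_sub (enc_sub (enc_sub (enc_half (enc_mul (enc_norm (enc_sub (enc_pnc _ 1) (enc_mul h3 (enc_norm (s0c1N_17.enc h1 h2 h3))))) h1)) (enc_mul h2 (enc_norm (enc_mul (s0c1N_7.enc h1 h2 h3) (enc_norm (enc_mul h3 (enc_norm (enc_sub (enc_neg (enc_mul (s0c1N_10.enc h1 h2 h3) (enc_norm (s0c1N_17.enc h1 h2 h3)))) (s0c1N_25.enc h1 h2 h3))))))))) (enc_mul (enc_norm (enc_mul h2 (enc_norm (enc_mul (s0c1N_7.enc h1 h2 h3) (enc_norm (enc_mul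 (enc_norm (enc_add (s0c1N_10.enc h1 h2 h3) (enc_mul h3 (enc_norm (s0c1N_25.enc h1 h2 h3))))) (enc_norm (s0c1N_40.enc h1 h2 h3)))))))) (enc_inv (enc_sub (enc_pnc _ 1) (s0c1N_3.enc h1 h2 h3))))) (enc_mul h3 (enc_norm (enc_mul (enc_norm (enc_half (enc_mul (s0c1N_9.enc h1 h2 h3) (enc_norm (enc_add h1 (enc_mul h2 (enc_norm (enc_add (enc_add (enc_pnc _ 1) (s0c1N_47.enc h1 h2 h3)) (enc_mul (enc_norm (s0c1N_47.enc h1 h2 h3)) (enc_norm (s0c1N_51.enc h1 h2 h3))))))))))) (enc_norm (s0c1N_17.enc h1 h2 h3)))))) (enc_mul (enc_norm (enc_half (enc_mul (s0c1N_9.enc h1 h2 h3) (enc_norm (s0c1N_51.enc h1 h2 h3))))) (enc_norm (enc_add (eS1gcA.enc h3 h2 h1) (enc_mul h3 (enc_norm (eS1gcB.enc h3 h2 h1)))))))⟩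
theorem s0c1N_v {r lam w : ℝ} (s : Scl r lam w) : s0c1N.v w lam r = g0 .near r lam w (1 + r * -(r * om w r))
      (vA .near (lam * r) 1 r (S1 r lam w)) ((S1 r lam w).cA + r * (S1 r lam w).cB) := by
  simp only [s0c1N, s0c1N_3, s0c1N_7, s0c1N_9, s0c1N_10, s0c1N_17, s0c1N_25, s0c1N_40, s0c1N_47, s0c1N_51, eehg_v, eLAMg_v, emug_v, ebeg_v, eomg_v, eS1gk_v s, eS1gcA_v, eS1gcB_v s, eS1gb_v s, g0, vA, nk]
  push_cast
  ring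
noncomputable def s0WN_3 : Fn3 := ⟨_, _, fun h1 h2 h3 => (enc_mul h2 h3)⟩
noncomputable def s0WN_7 : Fn3 := ⟨_, _, fun h1 h2 h3 => (eehg.enc (enc_norm (s0WN_3.enc h1 h2 h3)))⟩
noncomputable def s0WN_9 : Fn3 := ⟨_, _, fun h1 h2 h3 => (emug.enc (enc_norm (s0WN_3.enc h1 h2 h3)))⟩
noncomputable def s0WN_10 : Fn3 := ⟨_, _, fun h1 h2 h3 => (ebeg.enc (enc_norm (s0WN_3.enc h1 h2 h3)))⟩
noncomputable def s0WN_17 : Fn3 := ⟨_, _, fun h1 h2 h3 => (exi1g.enc (enc_neg h1) h3)⟩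
noncomputable def s0WN_24 : Fn3 := ⟨_, _, fun h1 h2 h3 => (enc_add (enc_mul (enc_norm (enc_add (enc_pnc _ 1) (enc_mul (eLAMg.enc (enc_norm (s0WN_3.enc h1 h2 h3))) (s0WN_9.enc h1 h2 h3)))) (enc_norm (eW0gk.enc h3 h2 h1))) (enc_mul (s0WN_9.enc h1 h2 h3) (enc_norm (eW0gb.enc h3 h2 h1))))⟩
noncomputable def s0WN_37 : Fn3 := ⟨_, _, fun h1 h2 h3 => (enc_mul h3 h1)⟩
noncomputable def s0WN_44 : Fn3 := ⟨_, _, fun h1 h2 h3 => (enc_nat 2 (enc_add (s0WN_7.enc h1 h2 h3) (enc_rat _ 1 2)))⟩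
noncomputable def s0WN_48 : Fn3 := ⟨_, _, fun h1 h2 h3 => (enc_sub (enc_sub (enc_pnc _ 4) (s0WN_3.enc h1 h2 h3)) (s0WN_37.enc h1 h2 h3))⟩
noncomputable def s0WN : Fn3 := ⟨_, _, fun h1 h2 h3 => (enc_sub (enc_add (enc_sub (enc_sub (enc_half (enc_mul (enc_norm (enc_add (enc_pnc _ 1) (enc_mul h3 (s0WN_17.enc h1 h2 h3)))) h1)) (enc_mul h2 (enc_norm (enc_mul (s0WN_7.enc h1 h2 h3) (enc_norm (enc_mul h3 (enc_norm (enc_sub (enc_mul (s0WN_10.enc h1 h2 h3) (s0WN_17.enc h1 h2 h3)) (s0WN_24.enc h1 h2 h3))))))))) (enc_mul (enc_norm (enc_mul h2 (enc_norm (enc_mul (s0WN_7.enc h1 h2 h3) (enc_norm (enc_mul (enc_norm (enc_add (s0WN_10.enc h1 h2 h3) (enc_mul h3 (enc_norm (s0WN_24.enc h1 h2 h3))))) (enc_norm (s0WN_37.enc h1 h2 h3)))))))) (enc_inv (enc_sub (enc_pnc _ 1) (s0WN_3.enc h1 h2 h3))))) (enc_mul h3 (enc_norm (enc_mul (enc_norm (enc_half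 (enc_mul (s0WN_9.enc h1 h2 h3) (enc_norm (enc_add h1 (enc_mul h2 (enc_norm (enc_add (enc_add (enc_pnc _ 1) (s0WN_44.enc h1 h2 h3)) (enc_mul (enc_norm (s0WN_44.enc h1 h2 h3)) (enc_norm (s0WN_48.enc h1 h2 h3))))))))))) (s0WN_17.enc h1 h2 h3))))) (enc_mul (enc_norm (enc_half (enc_mul (s0WN_9.enc h1 h2 h3) (enc_norm (s0WN_48.enc h1 h2 h3))))) (enc_norm (enc_add (eW0gcA.enc h3 h2 h1) (enc_mul h3 (eW0gcB.enc h3 h2 h1))))))⟩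
theorem s0WN_v {r lam w : ℝ} (s : Scl r lam w) : s0WN.v w lam r = g0 .near r lam w (1 + r * xi1 (-w) r)
      (vA .near (lam * r) 1 r (W0 r lam w)) ((W0 r lam w).cA + r * (W0 r lam w).cB) := by
  simp only [s0WN, s0WN_3, s0WN_7, s0WN_9, s0WN_10, s0WN_17, s0WN_24, s0WN_37, s0WN_44, s0WN_48, eehg_v, eLAMg_v, emug_v, ebeg_v, exi1g_v, eW0gk_v, eW0gcA_v, eW0gcB_v, eW0gb_v, g0, vA, nk]
  push_cast
  ring
noncomputable def s0nN_3 : Fn3 := ⟨_, _, fun h1 h2 h3 => (enc_mul h2 h3)⟩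
noncomputable def s0nN_7 : Fn3 := ⟨_, _, fun h1 h2 h3 => (eehg.enc (enc_norm (s0nN_3.enc h1 h2 h3)))⟩
noncomputable def s0nN_9 : Fn3 := ⟨_, _, fun h1 h2 h3 => (emug.enc (enc_norm (s0nN_3.enc h1 h2 h3)))⟩
noncomputable def s0nN_10 : Fn3 := ⟨_, _, fun h1 h2 h3 => (ebeg.enc (enc_norm (s0nN_3.enc h1 h2 h3)))⟩
noncomputable def s0nN_23 : Fn3 := ⟨_, _, fun h1 h2 h3 => (enc_add (enc_mul (enc_norm (enc_add (enc_pnc _ 1) (enc_mul (eLAMg.enc (enc_norm (s0nN_3.enc h1 h2 h3))) (s0nN_9.enc h1 h2 h3)))) (enc_norm (eQ0gk.enc h3 h2 h1))) (enc_mul (s0nN_9.enc h1 h2 h3) (enc_norm (eQ0gb.enc h3 h2 h1))))⟩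
noncomputable def s0nN_36 : Fn3 := ⟨_, _, fun h1 h2 h3 => (enc_mul h3 h1)⟩
noncomputable def s0nN_43 : Fn3 := ⟨_, _, fun h1 h2 h3 => (enc_nat 2 (enc_add (s0nN_7.enc h1 h2 h3) (enc_rat _ 1 2)))⟩
noncomputable def s0nN_47 : Fn3 := ⟨_, _, fun h1 h2 h3 => (enc_sub (enc_sub (enc_pnc _ 4) (s0nN_3.enc h1 h2 h3)) (s0nN_36.enc h1 h2 h3))⟩
noncomputable def s0nN : Fn3 := ⟨_, _, fun h1 h2 h3 => (enc_sub (enc_add (enc_sub (enc_sub (enc_half (enc_mul (enc_norm (enc_add (enc_pnc _ 1) (enc_mul h3 (enc_norm (exiqg.enc h3 h2 h1))))) h1)) (enc_mul h2 (enc_norm (enc_mul (s0nN_7.enc h1 h2 h3) (enc_norm (enc_mul h3 (enc_norm (enc_sub (enc_mul (s0nN_10.enc h1 h2 h3) (enc_norm (exiqg.enc h3 h2 h1))) (s0nN_23.enc h1 h2 h3))))))))) (enc_mul (enc_norm (enc_mul h2 (enc_norm (enc_mul (s0nN_7.enc h1 h2 h3) (enc_norm (enc_mul (enc_norm (enc_add (s0nN_10.enc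 h1 h2 h3) (enc_mul h3 (enc_norm (s0nN_23.enc h1 h2 h3))))) (enc_norm (s0nN_36.enc h1 h2 h3)))))))) (enc_inv (enc_sub (enc_pnc _ 1) (s0nN_3.enc h1 h2 h3))))) (enc_mul h3 (enc_norm (enc_mul (enc_norm (enc_half (enc_mul (s0nN_9.enc h1 h2 h3) (enc_norm (enc_add h1 (enc_mul h2 (enc_norm (enc_add (enc_add (enc_pnc _ 1) (s0nN_43.enc h1 h2 h3)) (enc_mul (enc_norm (s0nN_43.enc h1 h2 h3)) (enc_norm (s0nN_47.enc h1 h2 h3))))))))))) (enc_norm (exiqg.enc h3 h2 h1)))))) (enc_mul (enc_norm (enc_half (enc_mul (s0nN_9.enc h1 h2 h3) (enc_norm (s0nN_47.enc h1 h2 h3))))) (enc_norm (enc_add (eQ0gcA.enc h3 h2 h1) (enc_mul h3 (eQ0gcB.enc h3 h2 h1))))))⟩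
theorem s0nN_v {r lam w : ℝ} (s : Scl r lam w) : s0nN.v w lam r = g0 .near r lam w (1 + r * xiq r lam w)
      (vA .near (lam * r) 1 r (Q0 r lam w)) ((Q0 r lam w).cA + r * (Q0 r lam w).cB) := by
  simp only [s0nN, s0nN_3, s0nN_7, s0nN_9, s0nN_10, s0nN_23, s0nN_36, s0nN_43, s0nN_47, eehg_v, eLAMg_v, emug_v, ebeg_v, exiqg_v, eQ0gk_v, eQ0gcA_v, eQ0gcB_v, eQ0gb_v, g0, vA, nk]
  push_cast
  ring
noncomputable def s0qc1N_3 : Fn3 := ⟨_, _, fun h1 h2 h3 => (enc_mul h2 h3)⟩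
noncomputable def s0qc1N_7 : Fn3 := ⟨_, _, fun h1 h2 h3 => (eehg.enc (enc_norm (s0qc1N_3.enc h1 h2 h3)))⟩
noncomputable def s0qc1N_9 : Fn3 := ⟨_, _, fun h1 h2 h3 => (emug.enc (enc_norm (s0qc1N_3.enc h1 h2 h3)))⟩
noncomputable def s0qc1N_10 : Fn3 := ⟨_, _, fun h1 h2 h3 => (ebeg.enc (enc_norm (s0qc1N_3.enc h1 h2 h3)))⟩
noncomputable def s0qc1N_17 : Fn3 := ⟨_, _, fun h1 h2 h3 => (ehhg.enc (enc_pnc _ 0))⟩
noncomputable def s0qc1N_19 : Fn3 := ⟨_, _, fun h1 h2 h3 => (enc_mul h3 h1)⟩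
noncomputable def s0qc1N_27 : Fn3 := ⟨_, _, fun h1 h2 h3 => (enc_mul h3 (enc_norm (enc_mul (enc_scale 3 4 h1) (enc_inv (enc_add (enc_pnc _ 1) (enc_sqrt (enc_sub (enc_pnc _ 1) (enc_scale 3 4 (enc_sq (enc_norm (s0qc1N_19.enc h1 h2 h3)))))))))))⟩
noncomputable def s0qc1N_38 : Fn3 := ⟨_, _, fun h1 h2 h3 => (enc_sub (enc_mul (s0qc1N_9.enc h1 h2 h3) (enc_norm (enc_mul (enc_norm (enc_sub (enc_rat _ 18757 20000) (enc_nat 2 (eB0g.enc (enc_norm (s0qc1N_3.enc h1 h2 h3)))))) (s0qc1N_17.enc h1 h2 h3)))) (enc_mul (enc_norm (enc_add (enc_pnc _ 1) (enc_mul (eLAMg.enc (enc_norm (s0qc1N_3.enc h1 h2 h3))) (s0qc1N_9.enc h1 h2 h3)))) (enc_scale 109997 50000 (s0qc1N_17.enc h1 h2 h3))))⟩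
noncomputable def s0qc1N_61 : Fn3 := ⟨_, _, fun h1 h2 h3 => (enc_nat 2 (enc_add (s0qc1N_7.enc h1 h2 h3) (enc_rat _ 1 2)))⟩
noncomputable def s0qc1N : Fn3 := ⟨_, _, fun h1 h2 h3 => (enc_sub (enc_sub (enc_sub (enc_half (enc_sub (enc_pnc _ 1) (enc_mul h3 (enc_norm (enc_mul (enc_norm (s0qc1N_27.enc h1 h2 h3)) h1))))) (enc_mul h2 (enc_norm (enc_mul (s0qc1N_7.enc h1 h2 h3) (enc_norm (enc_mul h3 (enc_norm (enc_sub (enc_neg (enc_mul (s0qc1N_10.enc h1 h2 h3) (enc_norm (s0qc1N_27.enc h1 h2 h3)))) (s0qc1N_38.enc h1 h2 h3))))))))) (enc_mul (enc_norm (enc_mul h2 (enc_norm (enc_mul (s0qc1N_7.enc h1 h2 h3) (enc_norm (enc_mul (enc_norm (enc_add (s0qc1N_10.enc h1 h2 h3) (enc_mul h3 (enc_norm (enc_mul (enc_norm (s0qc1N_38.enc h1 h2 h3)) h1))))) h3)))))) (enc_inv (enc_sub (enc_pnc _ 1) (s0qc1N_3.enc h1 h2 h3))))) (enc_mul h3 (enc_norm (enc_mul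 (enc_norm (enc_half (enc_mul (s0qc1N_9.enc h1 h2 h3) (enc_norm (enc_add h1 (enc_mul h2 (enc_norm (enc_add (enc_add (enc_pnc _ 1) (s0qc1N_61.enc h1 h2 h3)) (enc_mul (enc_norm (s0qc1N_61.enc h1 h2 h3)) (enc_norm (enc_sub (enc_sub (enc_pnc _ 4) (s0qc1N_3.enc h1 h2 h3)) (s0qc1N_19.enc h1 h2 h3)))))))))))) (enc_norm (s0qc1N_27.enc h1 h2 h3))))))⟩
theorem s0qc1N_v {r lam w : ℝ} (s : Scl r lam w) (hw : w ≤ lam) : w * s0qc1N.v w lam r = g0 .near r lam w (1 + r * -(r * om w r))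
      (vA .near (lam * r) 1 r (S1 r lam w)) ((S1 r lam w).cA + r * (S1 r lam w).cB) := by
  simp only [s0qc1N, s0qc1N_3, s0qc1N_7, s0qc1N_9, s0qc1N_10, s0qc1N_17, s0qc1N_19, s0qc1N_27, s0qc1N_38, s0qc1N_61, eehg_v, eLAMg_v, emug_v, ebeg_v, eB0g_v, ehhg_v, S1, aL_zero s.r0 s.r1 s.b0 (by linarith [s.l0] : w ≤ 167 / 50 * lam), kU_lin s.r0 s.r1 s.b0 s.l0.le hw, bU_lin s.r0 s.r1 s.b0 s.l0.le hw, g0, vA, nk, om, qw]
  push_cast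
  ring_nf
noncomputable def s0qWN_3 : Fn3 := ⟨_, _, fun h1 h2 h3 => (enc_mul h2 h3)⟩
noncomputable def s0qWN_7 : Fn3 := ⟨_, _, fun h1 h2 h3 => (eehg.enc (enc_norm (s0qWN_3.enc h1 h2 h3)))⟩
noncomputable def s0qWN_9 : Fn3 := ⟨_, _, fun h1 h2 h3 => (emug.enc (enc_norm (s0qWN_3.enc h1 h2 h3)))⟩
noncomputable def s0qWN_10 : Fn3 := ⟨_, _, fun h1 h2 h3 => (ebeg.enc (enc_norm (s0qWN_3.enc h1 h2 h3)))⟩
noncomputable def s0qWN_18 : Fn3 := ⟨_, _, fun h1 h2 h3 => (enc_mul h3 h1)⟩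
noncomputable def s0qWN_26 : Fn3 := ⟨_, _, fun h1 h2 h3 => (enc_mul (enc_norm (enc_scale 3 4 (enc_sub (enc_pnc _ 2) (s0qWN_18.enc h1 h2 h3)))) (enc_inv (enc_add (enc_rat _ 1 2) (ecc1g.enc (enc_neg h1) h3))))⟩
noncomputable def s0qWN_44 : Fn3 := ⟨_, _, fun h1 h2 h3 => (enc_add (enc_mul (enc_norm (enc_add (enc_pnc _ 1) (enc_mul (eLAMg.enc (enc_norm (s0qWN_3.enc h1 h2 h3))) (s0qWN_9.enc h1 h2 h3)))) (enc_norm (enc_subr 5793 2500 (enc_mul (enc_norm (s0qWN_26.enc h1 h2 h3)) (enc_norm (enc_sub (enc_pnc _ 1) (enc_mul h3 (enc_scale 5793 2500 h1)))))))) (enc_mul (s0qWN_9.enc h1 h2 h3) (enc_norm (enc_add (enc_rat _ 2223 2500) (enc_mul (enc_norm (s0qWN_26.enc h1 h2 h3)) (enc_norm (enc_add (eB0g.enc (enc_norm (s0qWN_3.enc h1 h2 h3))) (enc_mul h3 (enc_scale 2223 2500 h1)))))))))⟩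
noncomputable def s0qWN_64 : Fn3 := ⟨_, _, fun h1 h2 h3 => (enc_nat 2 (enc_add (s0qWN_7.enc h1 h2 h3) (enc_rat _ 1 2)))⟩
noncomputable def s0qWN : Fn3 := ⟨_, _, fun h1 h2 h3 => (enc_add (enc_sub (enc_sub (enc_half (enc_add (enc_pnc _ 1) (enc_mul h3 (enc_norm (enc_mul (enc_norm (s0qWN_26.enc h1 h2 h3)) h1))))) (enc_mul h2 (enc_norm (enc_mul (s0qWN_7.enc h1 h2 h3) (enc_norm (enc_mul h3 (enc_norm (enc_sub (enc_mul (s0qWN_10.enc h1 h2 h3) (enc_norm (s0qWN_26.enc h1 h2 h3))) (s0qWN_44.enc h1 h2 h3))))))))) (enc_mul (enc_norm (enc_mul h2 (enc_norm (enc_mul (s0qWN_7.enc h1 h2 h3) (enc_norm (enc_mul (enc_norm (enc_add (s0qWN_10.enc h1 h2 h3) (enc_mul h3 (enc_norm (enc_mul (enc_norm (s0qWN_44.enc h1 h2 h3)) h1))))) h3)))))) (enc_inv (enc_sub (enc_pnc _ 1) (s0qWN_3.enc h1 h2 h3))))) (enc_mul h3 (enc_norm (enc_mul (enc_norm (enc_half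 (enc_mul (s0qWN_9.enc h1 h2 h3) (enc_norm (enc_add h1 (enc_mul h2 (enc_norm (enc_add (enc_add (enc_pnc _ 1) (s0qWN_64.enc h1 h2 h3)) (enc_mul (enc_norm (s0qWN_64.enc h1 h2 h3)) (enc_norm (enc_sub (enc_sub (enc_pnc _ 4) (s0qWN_3.enc h1 h2 h3)) (s0qWN_18.enc h1 h2 h3)))))))))))) (enc_norm (s0qWN_26.enc h1 h2 h3))))))⟩
theorem s0qWN_v {r lam w : ℝ} (s : Scl r lam w) (hw : w ≤ 1 / 2 * lam) : w * s0qWN.v w lam r = g0 .near r lam w (1 + r * xi1 (-w) r)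
      (vA .near (lam * r) 1 r (W0 r lam w)) ((W0 r lam w).cA + r * (W0 r lam w).cB) := by
  have w2 : w ≤ lam / 2 := by linarith
  simp only [s0qWN, s0qWN_3, s0qWN_7, s0qWN_9, s0qWN_10, s0qWN_18, s0qWN_26, s0qWN_44, s0qWN_64, eehg_v, eLAMg_v, emug_v, ebeg_v, eB0g_v, ecc1g_v, W0, wK0_lin s.l0.le w2, wB0_lin s.l0.le w2, hg_neg (by linarith [s.l0] : w - 5 / 2 * lam ≤ 0), g0, vA, nk, xi1_xh, xh]
  push_cast
  ring
noncomputable def s0pN_3 : Fn3 := ⟨_, _, fun h1 h2 h3 => (enc_mul h2 h3)⟩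
noncomputable def s0pN_7 : Fn3 := ⟨_, _, fun h1 h2 h3 => (eehg.enc (enc_norm (s0pN_3.enc h1 h2 h3)))⟩
noncomputable def s0pN_9 : Fn3 := ⟨_, _, fun h1 h2 h3 => (emug.enc (enc_norm (s0pN_3.enc h1 h2 h3)))⟩
noncomputable def s0pN_10 : Fn3 := ⟨_, _, fun h1 h2 h3 => (ebeg.enc (enc_norm (s0pN_3.enc h1 h2 h3)))⟩
noncomputable def s0pN_21 : Fn3 := ⟨_, _, fun h1 h2 h3 => (enc_add (enc_mul (enc_norm (enc_add (enc_pnc _ 1) (enc_mul (eLAMg.enc (enc_norm (s0pN_3.enc h1 h2 h3))) (s0pN_9.enc h1 h2 h3)))) (enc_norm (eQ0gk.enc h3 h2 h1))) (enc_mul (s0pN_9.enc h1 h2 h3) (enc_norm (eQ0gb.enc h3 h2 h1))))⟩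
noncomputable def s0pN_39 : Fn3 := ⟨_, _, fun h1 h2 h3 => (enc_nat 2 (enc_add (s0pN_7.enc h1 h2 h3) (enc_rat _ 1 2)))⟩
noncomputable def s0pN : Fn3 := ⟨_, _, fun h1 h2 h3 => (enc_add (enc_sub (enc_sub (enc_nat 20 (enc_mul (enc_norm (enc_add (enc_pnc _ 1) (enc_mul h3 (enc_norm (exiqg.enc h3 h2 h1))))) h1)) (enc_mul h2 (enc_norm (enc_mul (s0pN_7.enc h1 h2 h3) (enc_norm (enc_sub (enc_mul (s0pN_10.enc h1 h2 h3) (enc_norm (exiqg.enc h3 h2 h1))) (s0pN_21.enc h1 h2 h3))))))) (enc_mul (enc_norm (enc_mul h2 (enc_norm (enc_mul (s0pN_7.enc h1 h2 h3) (enc_norm (enc_mul (enc_norm (enc_add (s0pN_10.enc h1 h2 h3) (enc_mul h3 (enc_norm (s0pN_21.enc h1 h2 h3))))) h1)))))) (enc_inv (enc_sub (enc_pnc _ 1) (s0pN_3.enc h1 h2 h3))))) (enc_mul (enc_norm (enc_half (enc_mul (s0pN_9.enc h1 h2 h3) (enc_norm (enc_add h1 (enc_mul h2 (enc_norm (enc_add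 (enc_add (enc_pnc _ 1) (s0pN_39.enc h1 h2 h3)) (enc_mul (enc_norm (s0pN_39.enc h1 h2 h3)) (enc_norm (enc_sub (enc_sub (enc_pnc _ 4) (s0pN_3.enc h1 h2 h3)) (enc_mul h3 h1)))))))))))) (enc_norm (exiqg.enc h3 h2 h1))))⟩
theorem s0pN_v {r lam w : ℝ} (s : Scl r lam w) (hw : w ≤ 5 / 2 * lam) : g0 .near r lam w (1 + r * xiq r lam w)
      (vA .near (lam * r) 1 r (Q0 r lam w)) ((Q0 r lam w).cA + r * (Q0 r lam w).cB) =
      (1 + r * xiq r lam w) * w * (1 / 2 - 20 * r) + r * s0pN.v w lam r := by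
  have hc : (Q0 r lam w).cA = 0 := by
    show (W0 r lam w).cA + 44 / 3 * (lam * r) * (c5 r lam w - (W0 r lam w).cA) = 0
    have h1 : (W0 r lam w).cA = 0 := by
      simp only [W0, hg_neg (by linarith : w - 5 / 2 * lam ≤ 0)]
      ring
    have h2 : c5 r lam w = 0 := by
      simp only [c5, hg_neg (by linarith : w - 5 / 2 * lam ≤ 0)]
      ring
    rw [h1, h2]
    ring
  have hd : (Q0 r lam w).cB = 0 := rfl
  simp only [s0pN, s0pN_3, s0pN_7, s0pN_9, s0pN_10, s0pN_21, s0pN_39, eehg_v, eLAMg_v, emug_v, ebeg_v, exiqg_v, eQ0gk_v, eQ0gb_v, hc, hd, g0, vA, nk]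
  push_cast
  ring
noncomputable def s05N_3 : Fn3 := ⟨_, _, fun h1 h2 h3 => (enc_mul h2 h3)⟩
noncomputable def s05N_7 : Fn3 := ⟨_, _, fun h1 h2 h3 => (eehg.enc (enc_norm (s05N_3.enc h1 h2 h3)))⟩
noncomputable def s05N_9 : Fn3 := ⟨_, _, fun h1 h2 h3 => (emug.enc (enc_norm (s05N_3.enc h1 h2 h3)))⟩
noncomputable def s05N_22 : Fn3 := ⟨_, _, fun h1 h2 h3 => (enc_add (enc_add (enc_pnc _ 1) (enc_mul h3 (exi1g.enc (enc_neg h1) h3))) (enc_scale 3 20 (edQg.enc h3 h1)))⟩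
noncomputable def s05N_23 : Fn3 := ⟨_, _, fun h1 h2 h3 => (enc_scale 11 5 (s05N_3.enc h1 h2 h3))⟩
noncomputable def s05N_39 : Fn3 := ⟨_, _, fun h1 h2 h3 => (enc_mul (enc_norm (enc_add (enc_mul (enc_norm (enc_add (enc_pnc _ 1) (enc_mul (eLAMg.enc (enc_norm (s05N_3.enc h1 h2 h3))) (s05N_9.enc h1 h2 h3)))) (enc_norm (enc_add (enc_pnc _ 1) (enc_mul h3 (enc_norm (eQ0gk.enc h3 h2 h1)))))) (enc_mul (s05N_9.enc h1 h2 h3) (enc_norm (enc_add (eB0g.enc (enc_norm (s05N_3.enc h1 h2 h3))) (enc_mul h3 (enc_norm (eQ0gb.enc h3 h2 h1)))))))) (enc_norm (enc_sub (enc_pnc _ 1) (enc_mul (enc_norm (enc_sub (enc_rat _ 3 20) (s05N_23.enc h1 h2 h3))) (enc_inv (enc_sub (enc_pnc _ 1) (s05N_23.enc h1 h2 h3)))))))⟩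
noncomputable def s05N_47 : Fn3 := ⟨_, _, fun h1 h2 h3 => (enc_mul h3 h1)⟩
noncomputable def s05N_54 : Fn3 := ⟨_, _, fun h1 h2 h3 => (enc_nat 2 (enc_add (s05N_7.enc h1 h2 h3) (enc_rat _ 1 2)))⟩
noncomputable def s05N_58 : Fn3 := ⟨_, _, fun h1 h2 h3 => (enc_sub (enc_sub (enc_pnc _ 4) (s05N_3.enc h1 h2 h3)) (s05N_47.enc h1 h2 h3))⟩
noncomputable def s05N : Fn3 := ⟨_, _, fun h1 h2 h3 => (enc_sub (enc_add (enc_sub (enc_sub (enc_half (enc_mul (enc_norm (s05N_22.enc h1 h2 h3)) h1)) (enc_mul h2 (enc_norm (enc_mul (s05N_7.enc h1 h2 h3) (enc_norm (enc_sub (enc_mul (ebeg.enc (enc_norm (s05N_3.enc h1 h2 h3))) (enc_norm (s05N_22.enc h1 h2 h3))) (s05N_39.enc h1 h2 h3))))))) (enc_mul (enc_norm (enc_mul h2 (enc_norm (enc_mul (s05N_7.enc h1 h2 h3) (enc_norm (enc_mul (enc_norm (s05N_39.enc h1 h2 h3)) (enc_norm (s05N_47.enc h1 h2 h3))))))))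 (enc_inv (enc_sub (enc_pnc _ 1) (s05N_3.enc h1 h2 h3))))) (enc_mul (enc_norm (enc_half (enc_mul (s05N_9.enc h1 h2 h3) (enc_norm (enc_add h1 (enc_mul h2 (enc_norm (enc_add (enc_add (enc_pnc _ 1) (s05N_54.enc h1 h2 h3)) (enc_mul (enc_norm (s05N_54.enc h1 h2 h3)) (enc_norm (s05N_58.enc h1 h2 h3))))))))))) (enc_norm (enc_subn 1 (s05N_22.enc h1 h2 h3))))) (enc_mul (enc_norm (enc_half (enc_mul (s05N_9.enc h1 h2 h3) (enc_norm (s05N_58.enc h1 h2 h3))))) (enc_norm (ec5g.enc h3 h2 h1))))⟩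
theorem s05N_v {r lam w : ℝ} (s : Scl r lam w) : s05N.v w lam r = g0 .near r lam w (1 + r * xi1 (-w) r + 3 / 20 * dQ r w)
      (v5A .near r lam w) (c5 r lam w) := by
  simp only [s05N, s05N_3, s05N_7, s05N_9, s05N_22, s05N_23, s05N_39, s05N_47, s05N_54, s05N_58, eehg_v, eLAMg_v, emug_v, ebeg_v, eB0g_v, edQg_v, exi1g_v, eQ0gk_v, eQ0gb_v, ec5g_v, g0, v5A, rho5]
  push_cast
  ring
noncomputable def s0f5N_3 : Fn3 := ⟨_, _, fun h1 h2 h3 => (enc_mul h2 h3)⟩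
noncomputable def s0f5N_7 : Fn3 := ⟨_, _, fun h1 h2 h3 => (eehg.enc (enc_norm (s0f5N_3.enc h1 h2 h3)))⟩
noncomputable def s0f5N_8 : Fn3 := ⟨_, _, fun h1 h2 h3 => (eLAMg.enc (enc_norm (s0f5N_3.enc h1 h2 h3)))⟩
noncomputable def s0f5N_9 : Fn3 := ⟨_, _, fun h1 h2 h3 => (emug.enc (enc_norm (s0f5N_3.enc h1 h2 h3)))⟩
noncomputable def s0f5N_22 : Fn3 := ⟨_, _, fun h1 h2 h3 => (enc_add (enc_add (enc_pnc _ 1) (enc_mul h3 (exi1g.enc (enc_neg h1) h3))) (enc_scale 3 20 (edQg.enc h3 h1)))⟩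
noncomputable def s0f5N_23 : Fn3 := ⟨_, _, fun h1 h2 h3 => (enc_scale 11 5 (s0f5N_3.enc h1 h2 h3))⟩
noncomputable def s0f5N_40 : Fn3 := ⟨_, _, fun h1 h2 h3 => (enc_mul (enc_norm (enc_add (enc_mul (enc_norm (enc_add (enc_pnc _ 1) (enc_mul (s0f5N_8.enc h1 h2 h3) (s0f5N_9.enc h1 h2 h3)))) (enc_norm (enc_add (enc_pnc _ 1) (enc_mul h3 (enc_norm (eQ0gk.enc h3 h2 h1)))))) (enc_mul (s0f5N_9.enc h1 h2 h3) (enc_norm (enc_add (eB0g.enc (enc_norm (s0f5N_3.enc h1 h2 h3))) (enc_mul h3 (enc_norm (eQ0gb.enc h3 h2 h1)))))))) (enc_norm (enc_sub (enc_pnc _ 1) (enc_mul (enc_norm (enc_sub (enc_rat _ 3 20) (s0f5N_23.enc h1 h2 h3))) (enc_inv (enc_sub (enc_pnc _ 1) (s0f5N_23.enc h1 h2 h3)))))))⟩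
noncomputable def s0f5N_41 : Fn3 := ⟨_, _, fun h1 h2 h3 => (enc_subn 1 (s0f5N_22.enc h1 h2 h3))⟩
noncomputable def s0f5N_53 : Fn3 := ⟨_, _, fun h1 h2 h3 => (enc_mul h3 h1)⟩
noncomputable def s0f5N_57 : Fn3 := ⟨_, _, fun h1 h2 h3 => (enc_inv (enc_sub (enc_pnc _ 1) (s0f5N_3.enc h1 h2 h3)))⟩
noncomputable def s0f5N_60 : Fn3 := ⟨_, _, fun h1 h2 h3 => (enc_nat 2 (enc_add (s0f5N_7.enc h1 h2 h3) (enc_rat _ 1 2)))⟩
noncomputable def s0f5N_64 : Fn3 := ⟨_, _, fun h1 h2 h3 => (enc_sub (enc_sub (enc_pnc _ 4) (s0f5N_3.enc h1 h2 h3)) (s0f5N_53.enc h1 h2 h3))⟩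
noncomputable def s0f5N : Fn3 := ⟨_, _, fun h1 h2 h3 => (enc_add (enc_sub (enc_add (enc_sub (enc_sub (enc_half (enc_mul (enc_norm (s0f5N_22.enc h1 h2 h3)) h1)) (enc_mul h2 (enc_norm (enc_mul (s0f5N_7.enc h1 h2 h3) (enc_norm (enc_sub (enc_mul (ebeg.enc (enc_norm (s0f5N_3.enc h1 h2 h3))) (enc_norm (s0f5N_22.enc h1 h2 h3))) (s0f5N_40.enc h1 h2 h3))))))) (enc_mul (enc_norm (enc_mul h2 (enc_norm (enc_mul (s0f5N_7.enc h1 h2 h3) (enc_norm (enc_mul (enc_norm (s0f5N_40.enc h1 h2 h3)) (enc_norm (s0f5N_53.enc h1 h2 h3)))))))) (s0f5N_57.enc h1 h2 h3))) (enc_mul (enc_norm (enc_half (enc_mul (s0f5N_9.enc h1 h2 h3) (enc_norm (enc_add h1 (enc_mul h2 (enc_norm (enc_add (enc_add (enc_pnc _ 1) (s0f5N_60.enc h1 h2 h3)) (enc_mul (enc_norm (s0f5N_60.enc h1 h2 h3)) (enc_norm (s0f5N_64.enc h1 h2 h3))))))))))) (enc_norm (s0f5N_41.enc h1 h2 h3))))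 (enc_mul (enc_norm (enc_half (enc_mul (s0f5N_9.enc h1 h2 h3) (enc_norm (s0f5N_64.enc h1 h2 h3))))) (enc_norm (ec5g.enc h3 h2 h1)))) (enc_scale 1 5 (enc_mul h2 (enc_norm (enc_sub (enc_add (s0f5N_22.enc h1 h2 h3) (enc_mul (s0f5N_9.enc h1 h2 h3) (enc_norm (enc_add (enc_mul (s0f5N_8.enc h1 h2 h3) (enc_norm (s0f5N_41.enc h1 h2 h3))) (enc_mul h3 (enc_norm (ec5g.enc h3 h2 h1))))))) (enc_nat 2 (enc_mul (s0f5N_7.enc h1 h2 h3) (enc_norm (enc_add (enc_mul (enc_norm (s0f5N_3.enc h1 h2 h3)) (enc_norm (enc_mul (enc_pos (s0f5N_40.enc h1 h2 h3)) (s0f5N_57.enc h1 h2 h3)))) (enc_pos (enc_neg (s0f5N_40.enc h1 h2 h3))))))))))))⟩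
theorem s0f5N_v {r lam w : ℝ} (s : Scl r lam w) : s0f5N.v w lam r = g0 .near r lam w (1 + r * xi1 (-w) r + 3 / 20 * dQ r w)
      (v5A .near r lam w) (c5 r lam w) + 1 / 5 * (lam * glW .near r lam (1 + r * xi1 (-w) r + 3 / 20 * dQ r w) (v5A .near r lam w)
      (LAM (lam * r) * (1 + r * xi1 (-w) r + 3 / 20 * dQ r w - 1) + r * c5 r lam w)) := by
  simp only [s0f5N, s0f5N_3, s0f5N_7, s0f5N_8, s0f5N_9, s0f5N_22, s0f5N_23, s0f5N_40, s0f5N_41, s0f5N_53, s0f5N_57, s0f5N_60, s0f5N_64, eehg_v, eLAMg_v, emug_v, ebeg_v, eB0g_v, edQg_v, exi1g_v, eQ0gk_v, eQ0gb_v, ec5g_v, g0, v5A, rho5, glW]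
  push_cast
  ring_nf

end Pool.Agent.Strip051.G.IE1.Tab.W
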