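import Pool.Agent.Strip051.PB.FxLib
import Pool.Agent.Strip051.LC.E1.FxY
import Pool.Agent.Strip051.G.IE1.FxW1

/-! # Rows in the windows at the floor near `x = 1` (generated) -/

set_option linter.all false

namespace Pool.Agent.Strip051.G.IE1.Tab.W

open Pool.Agent.Strip051.PB Pool.Agent.Strip051.PB.Fx Pool.Agent.StripNear Pool.Agent.Strip051.LC
open Pool.Agent.Strip051.LC.E1
open Pool.Agent.Strip051.LC.E0.G (om qw cc1 xi1 sg1 cc3 xi3 sg3 xiw)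
open Pool.Agent.Strip051.LC.E1.G hiding mu g1

noncomputable def s1q0F_3 : Fn3 := ⟨_, _, fun h1 h2 h3 => (enc_mul h2 h3)⟩
noncomputable def s1q0F_6 : Fn3 := ⟨_, _, fun h1 h2 h3 => (egsg.enc (enc_norm (s1q0F_3.enc h1 h2 h3)))⟩
noncomputable def s1q0F_15 : Fn3 := ⟨_, _, fun h1 h2 h3 => (enc_add (enc_rat _ 1 2) (enc_mul h3 (exi1g.enc (enc_neg h1) h3)))⟩
noncomputable def s1q0F_16 : Fn3 := ⟨_, _, fun h1 h2 h3 => (enc_mul h3 h1)⟩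
noncomputable def s1q0F_42 : Fn3 := ⟨_, _, fun h1 h2 h3 => (enc_mul (enc_norm (enc_scale 3 4 (enc_sub (enc_pnc _ 2) (s1q0F_16.enc h1 h2 h3)))) (enc_inv (enc_add (enc_rat _ 1 2) (s1q0F_15.enc h1 h2 h3))))⟩
noncomputable def s1q0F_43 : Fn3 := ⟨_, _, fun h1 h2 h3 => (enc_add (enc_rat _ 1 2) (s1q0F_42.enc h1 h2 h3))⟩
noncomputable def s1q0F_50 : Fn3 := ⟨_, _, fun h1 h2 h3 => (enc_mul (enc_norm (enc_scale 3 4 (s1q0F_43.enc h1 h2 h3))) (enc_inv (enc_add (enc_add (enc_pnc _ 1) (enc_half (s1q0F_15.enc h1 h2 h3))) (enc_scale 3 4 (enc_sub (enc_pnc _ 1) (s1q0F_16.enc h1 h2 h3))))))⟩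
noncomputable def s1q0F : Fn3 := ⟨_, _, fun h1 h2 h3 => (enc_add (enc_sub (s1q0F_50.enc h1 h2 h3) (enc_mul (enc_scale 109997 50000 (ehhg.enc (enc_pnc _ 0))) (enc_norm (enc_mul (enc_norm (s1q0F_43.enc h1 h2 h3)) (enc_norm (enc_add (enc_rat _ 1 2) (enc_mul h3 (enc_norm (enc_mul h1 (enc_norm (s1q0F_50.enc h1 h2 h3))))))))))) (enc_mul (enc_norm (enc_add (enc_scale 3 4 (enc_mul (enc_norm (enc_mul (enc_norm (enc_add (enc_add (s1q0F_6.enc h1 h2 h3) (enc_rat _ 1 2)) (enc_mul (enc_norm (enc_add (enc_sub (enc_pnc _ 1) (s1q0F_3.enc h1 h2 h3)) (enc_pnc _ 1))) (enc_norm (s1q0F_42.enc h1 h2 h3))))) (enc_inv (enc_add (s1q0F_6.enc h1 h2 h3) (s1q0F_15.enc h1 h2 h3))))) (eigg.enc (enc_norm (s1q0F_3.enc h1 h2 h3))))) (s1q0F_42.enc h1 h2 h3))) (enc_half (enc_inv (eehg.enc (enc_norm (s1q0F_3.enc h1 h2 h3)))))))⟩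
theorem s1q0F_v {r lam w : ℝ} (s : Scl r lam w) : s1q0F.v w lam r = q0R .far (((-(9997 / 50000)) - 2 * 1) * (Real.sqrt 3 / 2)) ((18757 / 20000 - 2 * B0 (lam * r)) * (Real.sqrt 3 / 2)) r lam w := by
  simp only [q0R, gh, ksh, xh, cc1_dn s]
  simp only [s1q0F, s1q0F_3, s1q0F_6, s1q0F_15, s1q0F_16, s1q0F_42, s1q0F_43, s1q0F_50, egsg_v, eehg_v, exi1g_v, eigg_v, ehhg_v]
  push_cast
  ring
noncomputable def s1dkF_3 : Fn3 := ⟨_, _, fun h1 h2 h3 => (enc_mul h2 h3)⟩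
noncomputable def s1dkF_6 : Fn3 := ⟨_, _, fun h1 h2 h3 => (egsg.enc (enc_norm (s1dkF_3.enc h1 h2 h3)))⟩
noncomputable def s1dkF_12 : Fn3 := ⟨_, _, fun h1 h2 h3 => (enc_neg h1)⟩
noncomputable def s1dkF_13 : Fn3 := ⟨_, _, fun h1 h2 h3 => (exi1g.enc (s1dkF_12.enc h1 h2 h3) h3)⟩
noncomputable def s1dkF : Fn3 := ⟨_, _, fun h1 h2 h3 => (enc_add (eC1dgk.enc h3 h2 (s1dkF_12.enc h1 h2 h3)) (enc_mul (enc_norm (enc_add (enc_scale 3 4 (enc_mul (enc_norm (enc_mul (enc_norm (enc_add (enc_mul h1 (enc_norm (enc_add (s1dkF_6.enc h1 h2 h3) (enc_rat _ 1 2)))) (enc_mul (enc_norm (enc_add (enc_sub (enc_pnc _ 1) (s1dkF_3.enc h1 h2 h3)) (enc_pnc _ 1))) (s1dkF_13.enc h1 h2 h3)))) (enc_inv (enc_add (s1dkF_6.enc h1 h2 h3) (enc_add (enc_rat _ 1 2) (enc_mul h3 (s1dkF_13.enc h1 h2 h3))))))) (eigg.enc (enc_norm (s1dkF_3.enc h1 h2 h3))))) (s1dkF_13.enc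 h1 h2 h3))) (enc_half (enc_inv (eehg.enc (enc_norm (s1dkF_3.enc h1 h2 h3)))))))⟩
theorem s1dkF_v {r lam w : ℝ} (s : Scl r lam w) : s1dkF.v w lam r = dkR .far r lam w (xi1 (-w) r) (C1d r lam (-w)) := by
  simp only [s1dkF, s1dkF_3, s1dkF_6, s1dkF_12, s1dkF_13, egsg_v, eehg_v, exi1g_v, eigg_v, eC1dgk_v s, dkR, ksR]
  push_cast
  ring
noncomputable def s1qpF_3 : Fn3 := ⟨_, _, fun h1 h2 h3 => (enc_mul h2 h3)⟩
noncomputable def s1qpF_5 : Fn3 := ⟨_, _, fun h1 h2 h3 => (enc_sub (enc_pnc _ 1) (s1qpF_3.enc h1 h2 h3))⟩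
noncomputable def s1qpF_6 : Fn3 := ⟨_, _, fun h1 h2 h3 => (egsg.enc (enc_norm (s1qpF_3.enc h1 h2 h3)))⟩
noncomputable def s1qpF_7 : Fn3 := ⟨_, _, fun h1 h2 h3 => (eehg.enc (enc_norm (s1qpF_3.enc h1 h2 h3)))⟩
noncomputable def s1qpF_13 : Fn3 := ⟨_, _, fun h1 h2 h3 => (exi1g.enc (enc_neg h1) h3)⟩
noncomputable def s1qpF_15 : Fn3 := ⟨_, _, fun h1 h2 h3 => (enc_add (enc_rat _ 1 2) (enc_mul h3 (s1qpF_13.enc h1 h2 h3)))⟩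
noncomputable def s1qpF_17 : Fn3 := ⟨_, _, fun h1 h2 h3 => (enc_sub (enc_pnc _ 1) (enc_mul h3 h1))⟩
noncomputable def s1qpF_21 : Fn3 := ⟨_, _, fun h1 h2 h3 => (enc_add (s1qpF_6.enc h1 h2 h3) (s1qpF_15.enc h1 h2 h3))⟩
noncomputable def s1qpF_23 : Fn3 := ⟨_, _, fun h1 h2 h3 => (enc_mul (enc_norm (enc_scale 3 4 (enc_add (s1qpF_5.enc h1 h2 h3) (s1qpF_17.enc h1 h2 h3)))) (enc_inv (s1qpF_21.enc h1 h2 h3)))⟩
noncomputable def s1qpF_37 : Fn3 := ⟨_, _, fun h1 h2 h3 => (enc_add (s1qpF_23.enc h1 h2 h3) (enc_rat _ 1 2))⟩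
noncomputable def s1qpF_48 : Fn3 := ⟨_, _, fun h1 h2 h3 => (enc_inv (enc_add (enc_add (enc_pnc _ 1) (enc_half (s1qpF_15.enc h1 h2 h3))) (enc_scale 3 4 (s1qpF_17.enc h1 h2 h3))))⟩
noncomputable def s1qpF_59 : Fn3 := ⟨_, _, fun h1 h2 h3 => (enc_scale 3 4 (enc_sub (enc_mul (enc_norm (s1qpF_37.enc h1 h2 h3)) (s1qpF_48.enc h1 h2 h3)) (enc_mul h3 (enc_norm (enc_mul (enc_norm (enc_mul h2 (enc_norm (enc_add (enc_pnc _ 1) (s1qpF_7.enc h1 h2 h3))))) (enc_norm (enc_mul (enc_norm (enc_subr 3 4 (enc_half (s1qpF_23.enc h1 h2 h3)))) (enc_norm (enc_mul (s1qpF_48.enc h1 h2 h3) (enc_inv (enc_add (enc_add (enc_pnc _ 1) (enc_half (s1qpF_6.enc h1 h2 h3))) (enc_scale 3 4 (s1qpF_5.enc h1 h2 h3)))))))))))))⟩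
noncomputable def s1qpF : Fn3 := ⟨_, _, fun h1 h2 h3 => (enc_neg (enc_add (enc_add (enc_sub (enc_mul (enc_norm (enc_mul h2 (enc_norm (enc_mul h3 (epKg.enc (enc_norm (s1qpF_3.enc h1 h2 h3))))))) (enc_norm (s1qpF_59.enc h1 h2 h3))) (enc_mul (enc_scale 559209 100000 (ehhg.enc (enc_pnc _ 0))) (enc_norm (enc_mul (enc_norm (s1qpF_37.enc h1 h2 h3)) (enc_norm (enc_add (enc_rat _ 1 2) (enc_mul h3 (enc_norm (enc_scale 3 4 (enc_mul (enc_norm (enc_add (s1qpF_13.enc h1 h2 h3) (enc_half h1))) (s1qpF_48.enc h1 h2 h3))))))))))) (s1qpF_59.enc h1 h2 h3)) (enc_mul (enc_norm (enc_add (enc_scale 3 4 (enc_mul (enc_norm (enc_add (s1qpF_6.enc h1 h2 h3) (enc_mul (enc_norm (s1qpF_5.enc h1 h2 h3)) (enc_norm (s1qpF_23.enc h1 h2 h3))))) (enc_inv (enc_mul (s1qpF_6.enc h1 h2 h3) (enc_norm (s1qpF_21.enc h1 h2 h3)))))) (s1qpF_23.enc h1 h2 h3))) (enc_half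 (enc_inv (s1qpF_7.enc h1 h2 h3))))))⟩
theorem s1qpF_v {r lam w : ℝ} (s : Scl r lam w) : s1qpF.v w lam r = -qpR .far (((-(359209 / 100000)) - 2 * 1) * (Real.sqrt 3 / 2)) (((-(280683 / 50000)) - 2 * B0 (lam * r)) * (Real.sqrt 3 / 2)) r lam w := by
  simp only [qpR, qpK, qpB, gst, gq, ksq, iN, iNs, Sqv, cc1_dn s]
  simp only [s1qpF, s1qpF_3, s1qpF_5, s1qpF_6, s1qpF_7, s1qpF_13, s1qpF_15, s1qpF_17, s1qpF_21, s1qpF_23, s1qpF_37, s1qpF_48, s1qpF_59, egsg_v, eehg_v, exi1g_v, epKg_v, ehhg_v]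
  push_cast
  ring
noncomputable def s1qbF_3 : Fn3 := ⟨_, _, fun h1 h2 h3 => (enc_mul h2 h3)⟩
noncomputable def s1qbF_5 : Fn3 := ⟨_, _, fun h1 h2 h3 => (enc_sub (enc_pnc _ 1) (s1qbF_3.enc h1 h2 h3))⟩
noncomputable def s1qbF_6 : Fn3 := ⟨_, _, fun h1 h2 h3 => (egsg.enc (enc_norm (s1qbF_3.enc h1 h2 h3)))⟩
noncomputable def s1qbF_7 : Fn3 := ⟨_, _, fun h1 h2 h3 => (eehg.enc (enc_norm (s1qbF_3.enc h1 h2 h3)))⟩
noncomputable def s1qbF_12 : Fn3 := ⟨_, _, fun h1 h2 h3 => (enc_neg h1)⟩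
noncomputable def s1qbF_13 : Fn3 := ⟨_, _, fun h1 h2 h3 => (exi1g.enc (s1qbF_12.enc h1 h2 h3) h3)⟩
noncomputable def s1qbF_15 : Fn3 := ⟨_, _, fun h1 h2 h3 => (enc_add (enc_rat _ 1 2) (enc_mul h3 (s1qbF_13.enc h1 h2 h3)))⟩
noncomputable def s1qbF_17 : Fn3 := ⟨_, _, fun h1 h2 h3 => (enc_sub (enc_pnc _ 1) (enc_mul h3 h1))⟩
noncomputable def s1qbF_21 : Fn3 := ⟨_, _, fun h1 h2 h3 => (enc_add (s1qbF_6.enc h1 h2 h3) (s1qbF_15.enc h1 h2 h3))⟩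
noncomputable def s1qbF_23 : Fn3 := ⟨_, _, fun h1 h2 h3 => (enc_mul (enc_norm (enc_scale 3 4 (enc_add (s1qbF_5.enc h1 h2 h3) (s1qbF_17.enc h1 h2 h3)))) (enc_inv (s1qbF_21.enc h1 h2 h3)))⟩
noncomputable def s1qbF_45 : Fn3 := ⟨_, _, fun h1 h2 h3 => (enc_add (s1qbF_23.enc h1 h2 h3) (enc_rat _ 1 2))⟩
noncomputable def s1qbF_56 : Fn3 := ⟨_, _, fun h1 h2 h3 => (enc_inv (enc_add (enc_add (enc_pnc _ 1) (enc_half (s1qbF_15.enc h1 h2 h3))) (enc_scale 3 4 (s1qbF_17.enc h1 h2 h3))))⟩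
noncomputable def s1qbF_67 : Fn3 := ⟨_, _, fun h1 h2 h3 => (enc_scale 3 4 (enc_sub (enc_mul (enc_norm (s1qbF_45.enc h1 h2 h3)) (s1qbF_56.enc h1 h2 h3)) (enc_mul h3 (enc_norm (enc_mul (enc_norm (enc_mul h2 (enc_norm (enc_add (enc_pnc _ 1) (s1qbF_7.enc h1 h2 h3))))) (enc_norm (enc_mul (enc_norm (enc_subr 3 4 (enc_half (s1qbF_23.enc h1 h2 h3)))) (enc_norm (enc_mul (s1qbF_56.enc h1 h2 h3) (enc_inv (enc_add (enc_add (enc_pnc _ 1) (enc_half (s1qbF_6.enc h1 h2 h3))) (enc_scale 3 4 (s1qbF_5.enc h1 h2 h3)))))))))))))⟩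
noncomputable def s1qbF : Fn3 := ⟨_, _, fun h1 h2 h3 => (enc_sub (enc_mul (enc_norm (enc_add (enc_rat _ 1 2) (enc_mul h3 (enc_norm (eC1dgk.enc h3 h2 (s1qbF_12.enc h1 h2 h3)))))) (enc_inv (enc_mul h1 (enc_norm (s1qbF_5.enc h1 h2 h3))))) (enc_mul h3 (enc_norm (enc_add (enc_add (enc_sub (enc_mul (enc_norm (enc_mul h2 (enc_norm (enc_mul h3 (epKg.enc (enc_norm (s1qbF_3.enc h1 h2 h3))))))) (enc_norm (s1qbF_67.enc h1 h2 h3))) (enc_mul (enc_scale 559209 100000 (ehhg.enc (enc_pnc _ 0))) (enc_norm (enc_mul (enc_norm (s1qbF_45.enc h1 h2 h3)) (enc_norm (enc_add (enc_rat _ 1 2) (enc_mul h3 (enc_norm (enc_scale 3 4 (enc_mul (enc_norm (enc_add (s1qbF_13.enc h1 h2 h3) (enc_half h1))) (s1qbF_56.enc h1 h2 h3))))))))))) (s1qbF_67.enc h1 h2 h3)) (enc_mul (enc_norm (enc_add (enc_scale 3 4 (enc_mul (enc_norm (enc_add (s1qbF_6.enc h1 h2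 h3) (enc_mul (enc_norm (s1qbF_5.enc h1 h2 h3)) (enc_norm (s1qbF_23.enc h1 h2 h3))))) (enc_inv (enc_mul (s1qbF_6.enc h1 h2 h3) (enc_norm (s1qbF_21.enc h1 h2 h3)))))) (s1qbF_23.enc h1 h2 h3))) (enc_half (enc_inv (s1qbF_7.enc h1 h2 h3))))))))⟩
theorem s1qbF_v {r lam w : ℝ} (s : Scl r lam w) : s1qbF.v w lam r = vA .far (lam * r) (1 / 2) r (C1d r lam (-w)) * (w * (1 - lam * r))⁻¹ -
      r * qpR .far (((-(359209 / 100000)) - 2 * 1) * (Real.sqrt 3 / 2)) (((-(280683 / 50000)) - 2 * B0 (lam * r)) * (Real.sqrt 3 / 2)) r lam w := by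
  simp only [qpR, qpK, qpB, gst, gq, ksq, iN, iNs, Sqv, cc1_dn s]
  simp only [s1qbF, s1qbF_3, s1qbF_5, s1qbF_6, s1qbF_7, s1qbF_12, s1qbF_13, s1qbF_15, s1qbF_17, s1qbF_21, s1qbF_23, s1qbF_45, s1qbF_56, s1qbF_67, egsg_v, eehg_v, exi1g_v, eC1dgk_v s, epKg_v, ehhg_v, vA, nk]
  push_cast
  ring
noncomputable def s1bF_3 : Fn3 := ⟨_, _, fun h1 h2 h3 => (enc_mul h2 h3)⟩
noncomputable def s1bF_5 : Fn3 := ⟨_, _, fun h1 h2 h3 => (enc_sub (enc_pnc _ 1) (s1bF_3.enc h1 h2 h3))⟩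
noncomputable def s1bF_6 : Fn3 := ⟨_, _, fun h1 h2 h3 => (egsg.enc (enc_norm (s1bF_3.enc h1 h2 h3)))⟩
noncomputable def s1bF_7 : Fn3 := ⟨_, _, fun h1 h2 h3 => (eehg.enc (enc_norm (s1bF_3.enc h1 h2 h3)))⟩
noncomputable def s1bF_12 : Fn3 := ⟨_, _, fun h1 h2 h3 => (enc_neg h1)⟩
noncomputable def s1bF_13 : Fn3 := ⟨_, _, fun h1 h2 h3 => (exi1g.enc (s1bF_12.enc h1 h2 h3) h3)⟩
noncomputable def s1bF_37 : Fn3 := ⟨_, _, fun h1 h2 h3 => (eC1dgk.enc h3 h2 (s1bF_12.enc h1 h2 h3))⟩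
noncomputable def s1bF_42 : Fn3 := ⟨_, _, fun h1 h2 h3 => (enc_sub h1 h2)⟩
noncomputable def s1bF : Fn3 := ⟨_, _, fun h1 h2 h3 => (enc_sub (enc_mul (enc_norm (s1bF_42.enc h1 h2 h3)) (enc_norm (enc_mul (s1bF_7.enc h1 h2 h3) (enc_norm (enc_sub (enc_mul (enc_norm (s1bF_42.enc h1 h2 h3)) (enc_norm (enc_mul (enc_norm (enc_add (enc_rat _ 1 2) (enc_mul h3 (enc_norm (s1bF_37.enc h1 h2 h3))))) (enc_inv (enc_mul h1 (enc_norm (s1bF_5.enc h1 h2 h3))))))) (enc_mul h3 (enc_norm (enc_add (s1bF_37.enc h1 h2 h3) (enc_mul (enc_norm (enc_add (enc_scale 3 4 (enc_mul (enc_norm (enc_mul (enc_norm (enc_add (enc_mul h1 (enc_norm (enc_add (s1bF_6.enc h1 h2 h3) (enc_rat _ 1 2)))) (enc_mul (enc_norm (enc_add (s1bF_5.enc h1 h2 h3) (enc_pnc _ 1))) (s1bF_13.enc h1 h2 h3)))) (enc_inv (enc_add (s1bF_6.enc h1 h2 h3) (enc_add (enc_rat _ 1 2) (enc_mul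 h3 (s1bF_13.enc h1 h2 h3))))))) (eigg.enc (enc_norm (s1bF_3.enc h1 h2 h3))))) (s1bF_13.enc h1 h2 h3))) (enc_half (enc_inv (s1bF_7.enc h1 h2 h3)))))))))))) (enc_half (enc_mul h3 (enc_norm (eC1dgcB.enc h3 h2 (s1bF_12.enc h1 h2 h3))))))⟩
theorem s1bF_v {r lam w : ℝ} (s : Scl r lam w) : s1bF.v w lam r = (w - lam) * (eh (lam * r) * ((w - lam) *
      (vA .far (lam * r) (1 / 2) r (C1d r lam (-w)) * (w * (1 - lam * r))⁻¹) -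
        r * dkR .far r lam w (xi1 (-w) r) (C1d r lam (-w)))) -
        l1V .far r lam w * (r * (C1d r lam (-w)).cB) := by
  simp only [s1bF, s1bF_3, s1bF_5, s1bF_6, s1bF_7, s1bF_12, s1bF_13, s1bF_37, s1bF_42, egsg_v, eehg_v, exi1g_v, eigg_v, eC1dgk_v s, eC1dgcB_v s, dkR, ksR, vA, nk, l1V]
  push_cast
  ring
noncomputable def s1wF_3 : Fn3 := ⟨_, _, fun h1 h2 h3 => (enc_mul h2 h3)⟩
noncomputable def s1wF_7 : Fn3 := ⟨_, _, fun h1 h2 h3 => (eehg.enc (enc_norm (s1wF_3.enc h1 h2 h3)))⟩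
noncomputable def s1wF : Fn3 := ⟨_, _, fun h1 h2 h3 => (enc_sub (enc_sub (enc_sub (enc_add (exiwg.enc h1 h3) (enc_half (enc_mul (enc_norm (enc_add (enc_rat _ 1 2) (enc_mul h3 (exiwg.enc h1 h3)))) h1))) (enc_mul h2 (enc_norm (enc_mul (s1wF_7.enc h1 h2 h3) (enc_norm (enc_mul h3 (enc_norm (enc_sub (exiwg.enc h1 h3) (eW2gk.enc h3 h2 h1))))))))) (enc_mul (enc_norm (enc_mul h2 (enc_norm (enc_mul (s1wF_7.enc h1 h2 h3) (enc_norm (enc_mul (enc_norm (enc_add (enc_rat _ 1 2) (enc_mul h3 (enc_norm (eW2gk.enc h3 h2 h1))))) (enc_norm (enc_mul h3 h1)))))))) (enc_inv (enc_sub (enc_pnc _ 1) (s1wF_3.enc h1 h2 h3))))) (enc_half (enc_add (enc_add (enc_mul (eLAMg.enc (enc_norm (s1wF_3.enc h1 h2 h3))) (exiwg.enc h1 h3)) (eW2gcA.enc h3 h2 h1)) (enc_mul h3 (eW2gcB.enc h3 h2 h1)))))⟩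
theorem s1wF_v {r lam w : ℝ} (s : Scl r lam w) : s1wF.v w lam r = g1 .far r lam w (1 / 2) (xiw w r)
      (vA .far (lam * r) (1 / 2) r (W2 r lam w)) ((W2 r lam w).cA + r * (W2 r lam w).cB) := by
  simp only [s1wF, s1wF_3, s1wF_7, eehg_v, eLAMg_v, exiwg_v, eW2gk_v, eW2gcA_v, eW2gcB_v, g1, vA, nk]
  push_cast
  ring
noncomputable def s1wqF_3 : Fn3 := ⟨_, _, fun h1 h2 h3 => (enc_mul h2 h3)⟩
noncomputable def s1wqF_7 : Fn3 := ⟨_, _, fun h1 h2 h3 => (eehg.enc (enc_norm (s1wqF_3.enc h1 h2 h3)))⟩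
noncomputable def s1wqF_23 : Fn3 := ⟨_, _, fun h1 h2 h3 => (enc_mul h3 (enc_norm (enc_mul (enc_scale 3 4 h1) (enc_inv (enc_add (enc_pnc _ 1) (enc_sqrt (enc_sub (enc_pnc _ 1) (enc_scale 3 4 (enc_sq (enc_norm (enc_mul h3 h1)))))))))))⟩
noncomputable def s1wqF_34 : Fn3 := ⟨_, _, fun h1 h2 h3 => (enc_sub (enc_neg (enc_rat _ 32507 5000)) (enc_mul (enc_norm (s1wqF_23.enc h1 h2 h3)) (enc_norm (enc_sub (enc_pnc _ 1) (enc_mul h3 (enc_scale 32507 2500 h1))))))⟩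
noncomputable def s1wqF : Fn3 := ⟨_, _, fun h1 h2 h3 => (enc_add (enc_sub (enc_sub (enc_sub (enc_half (enc_sub (enc_rat _ 1 2) (enc_mul h3 (enc_norm (enc_mul (enc_norm (s1wqF_23.enc h1 h2 h3)) h1))))) (s1wqF_23.enc h1 h2 h3)) (enc_mul h2 (enc_norm (enc_mul (s1wqF_7.enc h1 h2 h3) (enc_norm (enc_mul h3 (enc_norm (enc_sub (enc_neg (s1wqF_23.enc h1 h2 h3)) (s1wqF_34.enc h1 h2 h3))))))))) (enc_mul (enc_norm (enc_mul h2 (enc_norm (enc_mul (s1wqF_7.enc h1 h2 h3) (enc_norm (enc_mul (enc_norm (enc_add (enc_rat _ 1 2) (enc_mul h3 (enc_norm (enc_mul (enc_norm (s1wqF_34.enc h1 h2 h3)) h1))))) h3)))))) (enc_inv (enc_sub (enc_pnc _ 1) (s1wqF_3.enc h1 h2 h3))))) (enc_half (enc_mul (eLAMg.enc (enc_norm (s1wqF_3.enc h1 h2 h3))) (enc_norm (s1wqF_23.enc h1 h2 h3)))))⟩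
theorem s1wqF_v {r lam w : ℝ} (s : Scl r lam w) (hw : w ≤ 1 / 2 * lam) : w * s1wqF.v w lam r = g1 .far r lam w (1 / 2) (xiw w r)
      (vA .far (lam * r) (1 / 2) r (W2 r lam w)) ((W2 r lam w).cA + r * (W2 r lam w).cB) := by
  have w2 : w ≤ lam / 2 := by linarith
  simp only [s1wqF, s1wqF_3, s1wqF_7, s1wqF_23, s1wqF_34, eehg_v, eLAMg_v, W2, wK2_lin s.l0.le w2, wB2_lin s.l0.le w2, hg_neg (by linarith [s.l0] : w - 5 / 2 * lam ≤ 0), g1, vA, nk, xiw, om, qw]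
  push_cast
  ring_nf
/-- `(be - 1) / r`. -/
noncomputable def bhF (r lam w : ℝ) : ℝ :=
  w * (2 + r * w * ((-(217 / 1000)) + r * w * 2 / 5)) + lam * (19 / 10 + r * w * 12)
noncomputable def s1nc1F_3 : Fn3 := ⟨_, _, fun h1 h2 h3 => (enc_mul h2 h3)⟩
noncomputable def s1nc1F_7 : Fn3 := ⟨_, _, fun h1 h2 h3 => (eehg.enc (enc_norm (s1nc1F_3.enc h1 h2 h3)))⟩
noncomputable def s1nc1F_17 : Fn3 := ⟨_, _, fun h1 h2 h3 => (enc_add (enc_rat _ 1 2) (enc_mul h3 (enc_norm (eC1ugk.enc h3 h2 h1))))⟩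
noncomputable def s1nc1F_23 : Fn3 := ⟨_, _, fun h1 h2 h3 => (enc_add (enc_rat _ 1 2) (enc_mul h3 (exi1g.enc h1 h3)))⟩
noncomputable def s1nc1F_32 : Fn3 := ⟨_, _, fun h1 h2 h3 => (enc_mul h3 h1)⟩
noncomputable def s1nc1F_36 : Fn3 := ⟨_, _, fun h1 h2 h3 => (enc_inv (enc_sub (enc_pnc _ 1) (s1nc1F_3.enc h1 h2 h3)))⟩
noncomputable def s1nc1F : Fn3 := ⟨_, _, fun h1 h2 h3 => (enc_sub (enc_sub (enc_add (exi1g.enc h1 h3) (enc_mul (enc_norm (enc_add (enc_mul h1 (enc_norm (enc_add (enc_mul (enc_norm (s1nc1F_32.enc h1 h2 h3)) (enc_norm (enc_subr 217 1000 (enc_scale 2 5 (s1nc1F_32.enc h1 h2 h3))))) (enc_pnc _ 2)))) (enc_mul h2 (enc_norm (enc_add (enc_nat 12 (s1nc1F_32.enc h1 h2 h3)) (enc_rat _ 19 10)))))) (enc_norm (s1nc1F_23.enc h1 h2 h3)))) (enc_sub (enc_sub (enc_sub (enc_add (exi1g.enc h1 h3) (enc_half (enc_mul (enc_norm (s1nc1F_23.enc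 h1 h2 h3)) h1))) (enc_mul h2 (enc_norm (enc_mul (s1nc1F_7.enc h1 h2 h3) (enc_norm (enc_mul h3 (enc_norm (enc_sub (exi1g.enc h1 h3) (eC1ugk.enc h3 h2 h1))))))))) (enc_mul (enc_norm (enc_mul h2 (enc_norm (enc_mul (s1nc1F_7.enc h1 h2 h3) (enc_norm (enc_mul (enc_norm (s1nc1F_17.enc h1 h2 h3)) (enc_norm (s1nc1F_32.enc h1 h2 h3)))))))) (s1nc1F_36.enc h1 h2 h3))) (enc_half (enc_add (enc_add (enc_mul (eLAMg.enc (enc_norm (s1nc1F_3.enc h1 h2 h3))) (exi1g.enc h1 h3)) (eC1ugcA.enc h3 h2 h1)) (enc_mul h3 (enc_norm (eC1ugcB.enc h3 h2 h1))))))) (enc_scale 11 20 (enc_mul h2 (enc_pos (enc_add (s1nc1F_23.enc h1 h2 h3) (enc_nat 2 (enc_mul (s1nc1F_7.enc h1 h2 h3) (enc_norm (enc_add (enc_mul h2 (enc_norm (enc_mul (enc_pos (s1nc1F_17.enc h1 h2 h3)) (enc_inv (enc_max h2 h1))))) (enc_mul (enc_norm (s1nc1F_3.enc h1 h2 h3)) (enc_norm (enc_mul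 (enc_pos (enc_neg (s1nc1F_17.enc h1 h2 h3))) (s1nc1F_36.enc h1 h2 h3)))))))))))))⟩
theorem s1nc1F_v {r lam w : ℝ} (s : Scl r lam w) : s1nc1F.v w lam r = xi1 w r + bhF r lam (w) * (1 / 2 + r * xi1 w r) -
      g1 .far r lam w (1 / 2) (xi1 w r)
      (vA .far (lam * r) (1 / 2) r (C1u r lam w)) ((C1u r lam w).cA + r * (C1u r lam w).cB) -
      11 / 20 * (lam * max (grR .far r lam w (1 / 2 + r * xi1 w r) (vA .far (lam * r) (1 / 2) r (C1u r lam w))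
      (LAM (lam * r) * xi1 w r + ((C1u r lam w).cA + r * (C1u r lam w).cB))) 0) := by
  simp only [s1nc1F, s1nc1F_3, s1nc1F_7, s1nc1F_17, s1nc1F_23, s1nc1F_32, s1nc1F_36, eehg_v, eLAMg_v, exi1g_v, eC1ugk_v s, eC1ugcA_v, eC1ugcB_v s, g1, vA, nk, grR, bhF]
  push_cast
  ring_nf
noncomputable def s1nWF_3 : Fn3 := ⟨_, _, fun h1 h2 h3 => (enc_mul h2 h3)⟩
noncomputable def s1nWF_7 : Fn3 := ⟨_, _, fun h1 h2 h3 => (eehg.enc (enc_norm (s1nWF_3.enc h1 h2 h3)))⟩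
noncomputable def s1nWF_17 : Fn3 := ⟨_, _, fun h1 h2 h3 => (enc_add (enc_rat _ 1 2) (enc_mul h3 (enc_norm (eW2gk.enc h3 h2 h1))))⟩
noncomputable def s1nWF_23 : Fn3 := ⟨_, _, fun h1 h2 h3 => (enc_add (enc_rat _ 1 2) (enc_mul h3 (exiwg.enc h1 h3)))⟩
noncomputable def s1nWF_32 : Fn3 := ⟨_, _, fun h1 h2 h3 => (enc_mul h3 h1)⟩
noncomputable def s1nWF_36 : Fn3 := ⟨_, _, fun h1 h2 h3 => (enc_inv (enc_sub (enc_pnc _ 1) (s1nWF_3.enc h1 h2 h3)))⟩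
noncomputable def s1nWF : Fn3 := ⟨_, _, fun h1 h2 h3 => (enc_sub (enc_sub (enc_add (exiwg.enc h1 h3) (enc_mul (enc_norm (enc_add (enc_mul h1 (enc_norm (enc_add (enc_mul (enc_norm (s1nWF_32.enc h1 h2 h3)) (enc_norm (enc_subr 217 1000 (enc_scale 2 5 (s1nWF_32.enc h1 h2 h3))))) (enc_pnc _ 2)))) (enc_mul h2 (enc_norm (enc_add (enc_nat 12 (s1nWF_32.enc h1 h2 h3)) (enc_rat _ 19 10)))))) (enc_norm (s1nWF_23.enc h1 h2 h3)))) (enc_sub (enc_sub (enc_sub (enc_add (exiwg.enc h1 h3) (enc_half (enc_mul (enc_norm (s1nWF_23.enc h1 h2 h3)) h1))) (enc_mul h2 (enc_norm (enc_mul (s1nWF_7.enc h1 h2 h3) (enc_norm (enc_mul h3 (enc_norm (enc_sub (exiwg.enc h1 h3) (eW2gk.enc h3 h2 h1))))))))) (enc_mul (enc_norm (enc_mul h2 (enc_norm (enc_mul (s1nWF_7.enc h1 h2 h3) (enc_norm (enc_mul (enc_norm (s1nWF_17.enc h1 h2 h3)) (enc_norm (s1nWF_32.enc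 h1 h2 h3)))))))) (s1nWF_36.enc h1 h2 h3))) (enc_half (enc_add (enc_add (enc_mul (eLAMg.enc (enc_norm (s1nWF_3.enc h1 h2 h3))) (exiwg.enc h1 h3)) (eW2gcA.enc h3 h2 h1)) (enc_mul h3 (eW2gcB.enc h3 h2 h1)))))) (enc_scale 11 20 (enc_mul h2 (enc_pos (enc_add (s1nWF_23.enc h1 h2 h3) (enc_nat 2 (enc_mul (s1nWF_7.enc h1 h2 h3) (enc_norm (enc_add (enc_mul h2 (enc_norm (enc_mul (enc_pos (s1nWF_17.enc h1 h2 h3)) (enc_inv (enc_max h2 h1))))) (enc_mul (enc_norm (s1nWF_3.enc h1 h2 h3)) (enc_norm (enc_mul (enc_pos (enc_neg (s1nWF_17.enc h1 h2 h3))) (s1nWF_36.enc h1 h2 h3)))))))))))))⟩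
theorem s1nWF_v {r lam w : ℝ} (s : Scl r lam w) : s1nWF.v w lam r = xiw w r + bhF r lam (w) * (1 / 2 + r * xiw w r) -
      g1 .far r lam w (1 / 2) (xiw w r)
      (vA .far (lam * r) (1 / 2) r (W2 r lam w)) ((W2 r lam w).cA + r * (W2 r lam w).cB) -
      11 / 20 * (lam * max (grR .far r lam w (1 / 2 + r * xiw w r) (vA .far (lam * r) (1 / 2) r (W2 r lam w))
      (LAM (lam * r) * xiw w r + ((W2 r lam w).cA + r * (W2 r lam w).cB))) 0) := by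
  simp only [s1nWF, s1nWF_3, s1nWF_7, s1nWF_17, s1nWF_23, s1nWF_32, s1nWF_36, eehg_v, eLAMg_v, exiwg_v, eW2gk_v, eW2gcA_v, eW2gcB_v, g1, vA, nk, grR, bhF]
  push_cast
  ring_nf
noncomputable def s1rF_3 : Fn3 := ⟨_, _, fun h1 h2 h3 => (enc_mul h2 h3)⟩
noncomputable def s1rF_7 : Fn3 := ⟨_, _, fun h1 h2 h3 => (eehg.enc (enc_norm (s1rF_3.enc h1 h2 h3)))⟩
noncomputable def s1rF_43 : Fn3 := ⟨_, _, fun h1 h2 h3 => (enc_add h1 (enc_scale 7 20 h2))⟩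
noncomputable def s1rF_44 : Fn3 := ⟨_, _, fun h1 h2 h3 => (enc_mul h3 (enc_norm (s1rF_43.enc h1 h2 h3)))⟩
noncomputable def s1rF_61 : Fn3 := ⟨_, _, fun h1 h2 h3 => (enc_scale 3 2 h2)⟩
noncomputable def s1rF : Fn3 := ⟨_, _, fun h1 h2 h3 => (enc_sub (enc_add (enc_sub (enc_sub (enc_sub (enc_sub (enc_add (exi3g.enc h1 h3) (enc_half (enc_mul (enc_norm (enc_add (enc_rat _ 3 2) (enc_mul h3 (exi3g.enc h1 h3)))) h1))) (enc_mul h2 (enc_norm (enc_mul (s1rF_7.enc h1 h2 h3) (enc_norm (enc_mul h3 (enc_norm (enc_sub (exi3g.enc h1 h3) (eC3ugk.enc h3 h2 h1))))))))) (enc_mul (enc_norm (enc_mul h2 (enc_norm (enc_mul (s1rF_7.enc h1 h2 h3) (enc_norm (enc_mul (enc_norm (enc_add (enc_rat _ 3 2) (enc_mul h3 (enc_norm (eC3ugk.enc h3 h2 h1))))) (enc_norm (enc_mul h3 h1)))))))) (enc_inv (enc_sub (enc_pnc _ 1) (s1rF_3.enc h1 h2 h3))))) (enc_half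 (enc_add (enc_add (enc_mul (eLAMg.enc (enc_norm (s1rF_3.enc h1 h2 h3))) (exi3g.enc h1 h3)) (eC3ugcA.enc h3 h2 h1)) (enc_mul h3 (enc_norm (eC3ugcB.enc h3 h2 h1)))))) (exi3g.enc h1 h3)) (s1rF_61.enc h1 h2 h3)) (enc_mul (enc_norm (enc_add (enc_mul (enc_norm (s1rF_43.enc h1 h2 h3)) (enc_norm (enc_add (enc_mul (enc_norm (s1rF_44.enc h1 h2 h3)) (enc_norm (enc_subr 217 1000 (enc_scale 2 5 (s1rF_44.enc h1 h2 h3))))) (enc_pnc _ 2)))) (enc_mul h2 (enc_norm (enc_add (enc_nat 12 (s1rF_44.enc h1 h2 h3)) (enc_rat _ 19 10)))))) (enc_norm (enc_add (enc_rat _ 1 2) (enc_mul h3 (enc_norm (enc_sub (exi3g.enc h1 h3) (s1rF_61.enc h1 h2 h3))))))))⟩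
theorem s1rF_v {r lam w : ℝ} (s : Scl r lam w) : s1rF.v w lam r = g1 .far r lam w (3 / 2) (xi3 w r)
      (vA .far (lam * r) (3 / 2) r (C3u r lam w)) ((C3u r lam w).cA + r * (C3u r lam w).cB) -
      xi3 w r + 3 / 2 * lam - bhF r lam (w + 7 / 20 * lam) * (1 / 2 + r * (xi3 w r - 3 / 2 * lam)) := by
  simp only [s1rF, s1rF_3, s1rF_7, s1rF_43, s1rF_44, s1rF_61, eehg_v, eLAMg_v, exi3g_v, eC3ugk_v s, eC3ugcA_v, eC3ugcB_v s, g1, vA, nk, bhF]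
  push_cast
  ring
noncomputable def sumF : Fn3 := ⟨_, _, fun h1 h2 h3 => (enc_sub (enc_sub (enc_sub (enc_scale 7 3 h2) (enc_scale 49 12 (enc_mul (enc_sq h2) h3))) (enc_nat 2 h1)) (enc_mul h3 (enc_sq h1)))⟩
theorem sumF_v {r lam w : ℝ} : 3 / 4 * (r * sumF.v w lam r) =
      1 - (1 / 2 - 7 / 4 * (lam * r)) ^ 2 - 3 / 4 * (1 + r * w) ^ 2 := by
  simp only [sumF]
  push_cast
  ring
noncomputable def sumfF_4 : Fn3 := ⟨_, _, fun h1 h2 h3 => (enc_add h1 (enc_scale 7 20 h2))⟩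
noncomputable def sumfF : Fn3 := ⟨_, _, fun h1 h2 h3 => (enc_sub (enc_sub (enc_sub (enc_scale 7 3 h2) (enc_scale 49 12 (enc_mul (enc_sq h2) h3))) (enc_nat 2 (sumfF_4.enc h1 h2 h3))) (enc_mul h3 (enc_sq (enc_norm (sumfF_4.enc h1 h2 h3)))))⟩
theorem sumfF_v {r lam w : ℝ} : 3 / 4 * (r * sumfF.v w lam r) =
      1 - (1 / 2 - 7 / 4 * (lam * r)) ^ 2 - 3 / 4 * (1 + r * w + 7 / 20 * (lam * r)) ^ 2 := by
  simp only [sumfF, sumfF_4]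
  push_cast
  ring
noncomputable def s1naF_3 : Fn3 := ⟨_, _, fun h1 h2 h3 => (enc_mul h2 h3)⟩
noncomputable def s1naF_7 : Fn3 := ⟨_, _, fun h1 h2 h3 => (eehg.enc (enc_norm (s1naF_3.enc h1 h2 h3)))⟩
noncomputable def s1naF_17 : Fn3 := ⟨_, _, fun h1 h2 h3 => (enc_add (enc_rat _ 1 2) (enc_mul h3 (enc_norm (eC1ugk.enc h3 h2 h1))))⟩
noncomputable def s1naF_23 : Fn3 := ⟨_, _, fun h1 h2 h3 => (enc_add (enc_rat _ 1 2) (enc_mul h3 (exi1g.enc h1 h3)))⟩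
noncomputable def s1naF_31 : Fn3 := ⟨_, _, fun h1 h2 h3 => (enc_inv (enc_sub (enc_pnc _ 1) (s1naF_3.enc h1 h2 h3)))⟩
noncomputable def s1naF_38 : Fn3 := ⟨_, _, fun h1 h2 h3 => (enc_mul h3 h1)⟩
noncomputable def s1naF : Fn3 := ⟨_, _, fun h1 h2 h3 => (enc_sub (enc_sub (enc_sub (enc_add (enc_mul (enc_norm (enc_add (enc_rat _ 19 10) (enc_nat 12 (s1naF_38.enc h1 h2 h3)))) (enc_norm (s1naF_23.enc h1 h2 h3))) (enc_mul (s1naF_7.enc h1 h2 h3) (enc_norm (enc_add (enc_mul h3 (enc_norm (enc_sub (exi1g.enc h1 h3) (eC1ugk.enc h3 h2 h1)))) (enc_mul (enc_norm (enc_mul (enc_norm (s1naF_17.enc h1 h2 h3)) (enc_norm (s1naF_38.enc h1 h2 h3)))) (s1naF_31.enc h1 h2 h3)))))) (enc_mul h3 (enc_norm (enc_mul (enc_norm (enc_add (s1naF_7.enc h1 h2 h3) (enc_rat _ 1 2))) (exi1g.enc h1 h3))))) (enc_scale 11 20 (enc_pos (enc_add (s1naF_23.enc h1 h2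 h3) (enc_nat 2 (enc_mul (s1naF_7.enc h1 h2 h3) (enc_norm (enc_add (enc_mul h2 (enc_norm (enc_mul (enc_pos (s1naF_17.enc h1 h2 h3)) (enc_inv (enc_max h2 h1))))) (enc_mul (enc_norm (s1naF_3.enc h1 h2 h3)) (enc_norm (enc_mul (enc_pos (enc_neg (s1naF_17.enc h1 h2 h3))) (s1naF_31.enc h1 h2 h3)))))))))))) (enc_nat 14 h3))⟩
noncomputable def s1nbF : Fn3 := ⟨_, _, fun h1 h2 h3 => (enc_add (enc_add (enc_add (enc_add (enc_scale 3 2 (enc_mul h1 (exi1g.enc h1 h3))) (enc_mul (enc_norm (enc_mul (enc_sq h1) (enc_norm (enc_subr 217 1000 (enc_scale 2 5 (enc_mul h3 h1)))))) (enc_norm (enc_add (enc_rat _ 1 2) (enc_mul h3 (exi1g.enc h1 h3)))))) (enc_half (ex2g.enc h1 h3))) (enc_half (eC1ugcB.enc h3 h2 h1))) (enc_nat 14 h2))⟩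
theorem s1n_split {r lam w : ℝ} (s : Scl r lam w) : s1nc1F.v w lam r = lam * s1naF.v w lam r + r * s1nbF.v w lam r := by
  have hx := xi1_x2 (r := r) (z := w) (by linarith [s.v0]) (by linarith [s.v1])
  have hL := LAM_e s.e0.le s.e1'.le
  simp only [s1nc1F, s1nc1F_3, s1nc1F_7, s1nc1F_17, s1nc1F_23, s1nc1F_32, s1nc1F_36, s1naF, s1naF_3, s1naF_7, s1naF_17, s1naF_23, s1naF_31, s1naF_38, s1nbF, eC1ugcA_v, eC1ugcB_v s, eC1ugk_v s, eLAMg_v, eehg_v, ex2g_v, exi1g_v]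
  push_cast
  rw [hL, show (C1u r lam w).cA = 0 from rfl]
  skip
  linear_combination (1 / 2) * hx
noncomputable def s1raF_3 : Fn3 := ⟨_, _, fun h1 h2 h3 => (enc_mul h2 h3)⟩
noncomputable def s1raF_7 : Fn3 := ⟨_, _, fun h1 h2 h3 => (eehg.enc (enc_norm (s1raF_3.enc h1 h2 h3)))⟩
noncomputable def s1raF_27 : Fn3 := ⟨_, _, fun h1 h2 h3 => (enc_mul h3 (enc_norm (enc_sub (exi3g.enc h1 h3) (enc_scale 3 2 h2))))⟩
noncomputable def s1raF_34 : Fn3 := ⟨_, _, fun h1 h2 h3 => (enc_mul h3 h1)⟩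
noncomputable def s1raF : Fn3 := ⟨_, _, fun h1 h2 h3 => (enc_add (enc_sub (enc_sub (enc_add (enc_sub (enc_add (enc_rat _ 3 2) (enc_mul h3 (enc_norm (enc_mul (enc_norm (enc_add (s1raF_7.enc h1 h2 h3) (enc_rat _ 1 2))) (exi3g.enc h1 h3))))) (enc_mul (s1raF_7.enc h1 h2 h3) (enc_norm (enc_add (enc_mul h3 (enc_norm (enc_sub (exi3g.enc h1 h3) (eC3ugk.enc h3 h2 h1)))) (enc_mul (enc_norm (enc_mul (enc_norm (enc_add (enc_rat _ 3 2) (enc_mul h3 (enc_norm (eC3ugk.enc h3 h2 h1))))) (enc_norm (s1raF_34.enc h1 h2 h3)))) (enc_inv (enc_sub (enc_pnc _ 1) (s1raF_3.enc h1 h2 h3)))))))) (enc_nat 3 (s1raF_34.enc h1 h2 h3))) (enc_scale 7 20 (enc_add (enc_pnc _ 1) (enc_nat 2 (s1raF_27.enc h1 h2 h3))))) (enc_mul (enc_norm (enc_add (enc_rat _ 19 10) (enc_nat 12 (enc_mul h3 (enc_norm (enc_add h1 (enc_scale 7 20 h2))))))) (enc_norm (enc_add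 (enc_rat _ 1 2) (s1raF_27.enc h1 h2 h3))))) (enc_nat 4 h3))⟩
noncomputable def s1rbF_24 : Fn3 := ⟨_, _, fun h1 h2 h3 => (enc_add h1 (enc_scale 7 20 h2))⟩
noncomputable def s1rbF_29 : Fn3 := ⟨_, _, fun h1 h2 h3 => (enc_mul h1 (exi3g.enc h1 h3))⟩
noncomputable def s1rbF : Fn3 := ⟨_, _, fun h1 h2 h3 => (enc_sub (enc_sub (enc_sub (enc_sub (enc_sub (enc_half (s1rbF_29.enc h1 h2 h3)) (enc_half (enc_mul (enc_norm (enc_mul h1 (enc_norm (enc_sub (enc_half (exi3g.enc h1 h3)) (enc_scale 3 4 h1))))) (enc_inv (enc_add (enc_rat _ 3 2) (ecc3g.enc h1 h3)))))) (enc_half (eC3ugcB.enc h3 h2 h1))) (enc_nat 2 (s1rbF_29.enc h1 h2 h3))) (enc_mul (enc_norm (enc_mul (enc_sq (enc_norm (s1rbF_24.enc h1 h2 h3))) (enc_norm (enc_subr 217 1000 (enc_scale 2 5 (enc_mul h3 (enc_norm (s1rbF_24.enc h1 h2 h3)))))))) (enc_norm (enc_add (enc_rat _ 1 2)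 (enc_mul h3 (enc_norm (enc_sub (exi3g.enc h1 h3) (enc_scale 3 2 h2)))))))) (enc_nat 4 h2))⟩
theorem s1r_split {r lam w : ℝ} (s : Scl r lam w) : s1rF.v w lam r = lam * s1raF.v w lam r + r * s1rbF.v w lam r := by
  have hx := xi3_x3q (r := r) (w := w) (by linarith [s.v0]) (by linarith [s.v1])
  have hL := LAM_e s.e0.le s.e1'.le
  simp only [s1rF, s1rF_3, s1rF_7, s1rF_43, s1rF_44, s1rF_61, s1raF, s1raF_3, s1raF_7, s1raF_27, s1raF_34, s1rbF, s1rbF_24, s1rbF_29, eC3ugcA_v, eC3ugcB_v s, eC3ugk_v s, eLAMg_v, ecc3g_v, eehg_v, exi3g_v]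
  push_cast
  rw [hL, show (C3u r lam w).cA = 0 from rfl]
  unfold x3q at hx
  linear_combination (-(1 / 2)) * hx
noncomputable def s1q0N_3 : Fn3 := ⟨_, _, fun h1 h2 h3 => (enc_mul h2 h3)⟩
noncomputable def s1q0N_6 : Fn3 := ⟨_, _, fun h1 h2 h3 => (egsg.enc (enc_norm (s1q0N_3.enc h1 h2 h3)))⟩
noncomputable def s1q0N_9 : Fn3 := ⟨_, _, fun h1 h2 h3 => (emug.enc (enc_norm (s1q0N_3.enc h1 h2 h3)))⟩
noncomputable def s1q0N_11 : Fn3 := ⟨_, _, fun h1 h2 h3 => (eB0g.enc (enc_norm (s1q0N_3.enc h1 h2 h3)))⟩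
noncomputable def s1q0N_19 : Fn3 := ⟨_, _, fun h1 h2 h3 => (enc_add (enc_rat _ 1 2) (enc_mul h3 (exi1g.enc (enc_neg h1) h3)))⟩
noncomputable def s1q0N_20 : Fn3 := ⟨_, _, fun h1 h2 h3 => (enc_mul h3 h1)⟩
noncomputable def s1q0N_46 : Fn3 := ⟨_, _, fun h1 h2 h3 => (enc_mul (enc_norm (enc_scale 3 4 (enc_sub (enc_pnc _ 2) (s1q0N_20.enc h1 h2 h3)))) (enc_inv (enc_add (enc_rat _ 1 2) (s1q0N_19.enc h1 h2 h3))))⟩
noncomputable def s1q0N_47 : Fn3 := ⟨_, _, fun h1 h2 h3 => (enc_add (enc_rat _ 1 2) (s1q0N_46.enc h1 h2 h3))⟩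
noncomputable def s1q0N_54 : Fn3 := ⟨_, _, fun h1 h2 h3 => (enc_mul (enc_norm (enc_scale 3 4 (s1q0N_47.enc h1 h2 h3))) (enc_inv (enc_add (enc_add (enc_pnc _ 1) (enc_half (s1q0N_19.enc h1 h2 h3))) (enc_scale 3 4 (enc_sub (enc_pnc _ 1) (s1q0N_20.enc h1 h2 h3))))))⟩
noncomputable def s1q0N_67 : Fn3 := ⟨_, _, fun h1 h2 h3 => (ehhg.enc (enc_pnc _ 0))⟩
noncomputable def s1q0N_70 : Fn3 := ⟨_, _, fun h1 h2 h3 => (enc_mul (enc_norm (s1q0N_47.enc h1 h2 h3)) (enc_norm (enc_add (enc_rat _ 1 2) (enc_mul h3 (enc_norm (enc_mul h1 (enc_norm (s1q0N_54.enc h1 h2 h3))))))))⟩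
noncomputable def s1q0N : Fn3 := ⟨_, _, fun h1 h2 h3 => (enc_add (enc_mul (enc_norm (enc_add (enc_pnc _ 1) (enc_mul (eLAMg.enc (enc_norm (s1q0N_3.enc h1 h2 h3))) (s1q0N_9.enc h1 h2 h3)))) (enc_norm (enc_add (enc_sub (s1q0N_54.enc h1 h2 h3) (enc_mul (enc_scale 109997 50000 (s1q0N_67.enc h1 h2 h3)) (enc_norm (s1q0N_70.enc h1 h2 h3)))) (enc_mul (enc_norm (enc_add (enc_scale 3 4 (enc_mul (enc_norm (enc_mul (enc_norm (enc_add (enc_add (s1q0N_6.enc h1 h2 h3) (enc_rat _ 1 2)) (enc_mul (enc_norm (enc_add (enc_sub (enc_pnc _ 1) (s1q0N_3.enc h1 h2 h3)) (enc_pnc _ 1))) (enc_norm (s1q0N_46.enc h1 h2 h3))))) (enc_inv (enc_add (s1q0N_6.enc h1 h2 h3) (s1q0N_19.enc h1 h2 h3))))) (eigg.enc (enc_norm (s1q0N_3.enc h1 h2 h3))))) (s1q0N_46.enc h1 h2 h3))) (enc_half (enc_inv (eehg.enc (enc_norm (s1q0N_3.enc h1 h2 h3))))))))) (enc_mul (s1q0N_9.enc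 h1 h2 h3) (enc_norm (enc_add (enc_mul (enc_norm (enc_mul (enc_norm (enc_sub (enc_rat _ 18757 20000) (enc_nat 2 (s1q0N_11.enc h1 h2 h3)))) (s1q0N_67.enc h1 h2 h3))) (enc_norm (s1q0N_70.enc h1 h2 h3))) (enc_mul (s1q0N_11.enc h1 h2 h3) (enc_norm (s1q0N_54.enc h1 h2 h3)))))))⟩
theorem s1q0N_v {r lam w : ℝ} (s : Scl r lam w) : s1q0N.v w lam r = q0R .near (((-(9997 / 50000)) - 2 * 1) * (Real.sqrt 3 / 2)) ((18757 / 20000 - 2 * B0 (lam * r)) * (Real.sqrt 3 / 2)) r lam w := by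
  simp only [q0R, gh, ksh, xh, cc1_dn s]
  simp only [s1q0N, s1q0N_3, s1q0N_6, s1q0N_9, s1q0N_11, s1q0N_19, s1q0N_20, s1q0N_46, s1q0N_47, s1q0N_54, s1q0N_67, s1q0N_70, egsg_v, eehg_v, eLAMg_v, emug_v, eB0g_v, exi1g_v, eigg_v, ehhg_v]
  push_cast
  ring
noncomputable def s1dkN_3 : Fn3 := ⟨_, _, fun h1 h2 h3 => (enc_mul h2 h3)⟩
noncomputable def s1dkN_6 : Fn3 := ⟨_, _, fun h1 h2 h3 => (egsg.enc (enc_norm (s1dkN_3.enc h1 h2 h3)))⟩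
noncomputable def s1dkN_9 : Fn3 := ⟨_, _, fun h1 h2 h3 => (emug.enc (enc_norm (s1dkN_3.enc h1 h2 h3)))⟩
noncomputable def s1dkN_16 : Fn3 := ⟨_, _, fun h1 h2 h3 => (enc_neg h1)⟩
noncomputable def s1dkN_17 : Fn3 := ⟨_, _, fun h1 h2 h3 => (exi1g.enc (s1dkN_16.enc h1 h2 h3) h3)⟩
noncomputable def s1dkN : Fn3 := ⟨_, _, fun h1 h2 h3 => (enc_add (enc_mul (enc_norm (enc_add (enc_pnc _ 1) (enc_mul (eLAMg.enc (enc_norm (s1dkN_3.enc h1 h2 h3))) (s1dkN_9.enc h1 h2 h3)))) (enc_norm (enc_add (eC1dgk.enc h3 h2 (s1dkN_16.enc h1 h2 h3)) (enc_mul (enc_norm (enc_add (enc_scale 3 4 (enc_mul (enc_norm (enc_mul (enc_norm (enc_add (enc_mul h1 (enc_norm (enc_add (s1dkN_6.enc h1 h2 h3) (enc_rat _ 1 2)))) (enc_mul (enc_norm (enc_add (enc_sub (enc_pnc _ 1) (s1dkN_3.enc h1 h2 h3)) (enc_pnc _ 1))) (s1dkN_17.enc h1 h2 h3)))) (enc_inv (enc_add (s1dkN_6.enc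 h1 h2 h3) (enc_add (enc_rat _ 1 2) (enc_mul h3 (s1dkN_17.enc h1 h2 h3))))))) (eigg.enc (enc_norm (s1dkN_3.enc h1 h2 h3))))) (s1dkN_17.enc h1 h2 h3))) (enc_half (enc_inv (eehg.enc (enc_norm (s1dkN_3.enc h1 h2 h3))))))))) (enc_mul (s1dkN_9.enc h1 h2 h3) (enc_norm (eC1dgb.enc h3 h2 (s1dkN_16.enc h1 h2 h3)))))⟩
theorem s1dkN_v {r lam w : ℝ} (s : Scl r lam w) : s1dkN.v w lam r = dkR .near r lam w (xi1 (-w) r) (C1d r lam (-w)) := by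
  simp only [s1dkN, s1dkN_3, s1dkN_6, s1dkN_9, s1dkN_16, s1dkN_17, egsg_v, eehg_v, eLAMg_v, emug_v, exi1g_v, eigg_v, eC1dgk_v s, eC1dgb_v s, dkR, ksR]
  push_cast
  ring
noncomputable def s1qpN_3 : Fn3 := ⟨_, _, fun h1 h2 h3 => (enc_mul h2 h3)⟩
noncomputable def s1qpN_5 : Fn3 := ⟨_, _, fun h1 h2 h3 => (enc_sub (enc_pnc _ 1) (s1qpN_3.enc h1 h2 h3))⟩
noncomputable def s1qpN_6 : Fn3 := ⟨_, _, fun h1 h2 h3 => (egsg.enc (enc_norm (s1qpN_3.enc h1 h2 h3)))⟩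
noncomputable def s1qpN_7 : Fn3 := ⟨_, _, fun h1 h2 h3 => (eehg.enc (enc_norm (s1qpN_3.enc h1 h2 h3)))⟩
noncomputable def s1qpN_9 : Fn3 := ⟨_, _, fun h1 h2 h3 => (emug.enc (enc_norm (s1qpN_3.enc h1 h2 h3)))⟩
noncomputable def s1qpN_11 : Fn3 := ⟨_, _, fun h1 h2 h3 => (eB0g.enc (enc_norm (s1qpN_3.enc h1 h2 h3)))⟩
noncomputable def s1qpN_17 : Fn3 := ⟨_, _, fun h1 h2 h3 => (exi1g.enc (enc_neg h1) h3)⟩
noncomputable def s1qpN_19 : Fn3 := ⟨_, _, fun h1 h2 h3 => (enc_add (enc_rat _ 1 2) (enc_mul h3 (s1qpN_17.enc h1 h2 h3)))⟩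
noncomputable def s1qpN_21 : Fn3 := ⟨_, _, fun h1 h2 h3 => (enc_sub (enc_pnc _ 1) (enc_mul h3 h1))⟩
noncomputable def s1qpN_25 : Fn3 := ⟨_, _, fun h1 h2 h3 => (enc_add (s1qpN_6.enc h1 h2 h3) (s1qpN_19.enc h1 h2 h3))⟩
noncomputable def s1qpN_27 : Fn3 := ⟨_, _, fun h1 h2 h3 => (enc_mul (enc_norm (enc_scale 3 4 (enc_add (s1qpN_5.enc h1 h2 h3) (s1qpN_21.enc h1 h2 h3)))) (enc_inv (s1qpN_25.enc h1 h2 h3)))⟩
noncomputable def s1qpN_41 : Fn3 := ⟨_, _, fun h1 h2 h3 => (enc_add (s1qpN_27.enc h1 h2 h3) (enc_rat _ 1 2))⟩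
noncomputable def s1qpN_52 : Fn3 := ⟨_, _, fun h1 h2 h3 => (enc_inv (enc_add (enc_add (enc_pnc _ 1) (enc_half (s1qpN_19.enc h1 h2 h3))) (enc_scale 3 4 (s1qpN_21.enc h1 h2 h3))))⟩
noncomputable def s1qpN_63 : Fn3 := ⟨_, _, fun h1 h2 h3 => (enc_scale 3 4 (enc_sub (enc_mul (enc_norm (s1qpN_41.enc h1 h2 h3)) (s1qpN_52.enc h1 h2 h3)) (enc_mul h3 (enc_norm (enc_mul (enc_norm (enc_mul h2 (enc_norm (enc_add (enc_pnc _ 1) (s1qpN_7.enc h1 h2 h3))))) (enc_norm (enc_mul (enc_norm (enc_subr 3 4 (enc_half (s1qpN_27.enc h1 h2 h3)))) (enc_norm (enc_mul (s1qpN_52.enc h1 h2 h3) (enc_inv (enc_add (enc_add (enc_pnc _ 1) (enc_half (s1qpN_6.enc h1 h2 h3))) (enc_scale 3 4 (s1qpN_5.enc h1 h2 h3)))))))))))))⟩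
noncomputable def s1qpN_74 : Fn3 := ⟨_, _, fun h1 h2 h3 => (ehhg.enc (enc_pnc _ 0))⟩
noncomputable def s1qpN_77 : Fn3 := ⟨_, _, fun h1 h2 h3 => (enc_mul (enc_norm (s1qpN_41.enc h1 h2 h3)) (enc_norm (enc_add (enc_rat _ 1 2) (enc_mul h3 (enc_norm (enc_scale 3 4 (enc_mul (enc_norm (enc_add (s1qpN_17.enc h1 h2 h3) (enc_half h1))) (s1qpN_52.enc h1 h2 h3))))))))⟩
noncomputable def s1qpN : Fn3 := ⟨_, _, fun h1 h2 h3 => (enc_neg (enc_add (enc_mul (enc_norm (enc_add (enc_pnc _ 1) (enc_mul (eLAMg.enc (enc_norm (s1qpN_3.enc h1 h2 h3))) (s1qpN_9.enc h1 h2 h3)))) (enc_norm (enc_add (enc_add (enc_sub (enc_mul (enc_norm (enc_mul h2 (enc_norm (enc_mul h3 (epKg.enc (enc_norm (s1qpN_3.enc h1 h2 h3))))))) (enc_norm (s1qpN_63.enc h1 h2 h3))) (enc_mul (enc_scale 559209 100000 (s1qpN_74.enc h1 h2 h3)) (enc_norm (s1qpN_77.enc h1 h2 h3))))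 (s1qpN_63.enc h1 h2 h3)) (enc_mul (enc_norm (enc_add (enc_scale 3 4 (enc_mul (enc_norm (enc_add (s1qpN_6.enc h1 h2 h3) (enc_mul (enc_norm (s1qpN_5.enc h1 h2 h3)) (enc_norm (s1qpN_27.enc h1 h2 h3))))) (enc_inv (enc_mul (s1qpN_6.enc h1 h2 h3) (enc_norm (s1qpN_25.enc h1 h2 h3)))))) (s1qpN_27.enc h1 h2 h3))) (enc_half (enc_inv (s1qpN_7.enc h1 h2 h3))))))) (enc_mul (s1qpN_9.enc h1 h2 h3) (enc_norm (enc_add (enc_add (enc_mul (enc_norm (enc_mul (enc_norm (enc_sub (enc_neg (enc_rat _ 280683 50000)) (enc_nat 2 (s1qpN_11.enc h1 h2 h3)))) (s1qpN_74.enc h1 h2 h3))) (enc_norm (s1qpN_77.enc h1 h2 h3))) (enc_mul (enc_norm (enc_mul h2 (enc_norm (enc_mul h3 (epBg.enc (enc_norm (s1qpN_3.enc h1 h2 h3))))))) (enc_norm (s1qpN_63.enc h1 h2 h3)))) (enc_mul (s1qpN_11.enc h1 h2 h3) (enc_norm (s1qpN_63.enc h1 h2 h3))))))))⟩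
theorem s1qpN_v {r lam w : ℝ} (s : Scl r lam w) : s1qpN.v w lam r = -qpR .near (((-(359209 / 100000)) - 2 * 1) * (Real.sqrt 3 / 2)) (((-(280683 / 50000)) - 2 * B0 (lam * r)) * (Real.sqrt 3 / 2)) r lam w := by
  simp only [qpR, qpK, qpB, gst, gq, ksq, iN, iNs, Sqv, cc1_dn s]
  simp only [s1qpN, s1qpN_3, s1qpN_5, s1qpN_6, s1qpN_7, s1qpN_9, s1qpN_11, s1qpN_17, s1qpN_19, s1qpN_21, s1qpN_25, s1qpN_27, s1qpN_41, s1qpN_52, s1qpN_63, s1qpN_74, s1qpN_77, egsg_v, eehg_v, eLAMg_v, emug_v, eB0g_v, exi1g_v, epKg_v, ehhg_v, epBg_v]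
  push_cast
  ring
noncomputable def s1qbN_3 : Fn3 := ⟨_, _, fun h1 h2 h3 => (enc_mul h2 h3)⟩
noncomputable def s1qbN_5 : Fn3 := ⟨_, _, fun h1 h2 h3 => (enc_sub (enc_pnc _ 1) (s1qbN_3.enc h1 h2 h3))⟩
noncomputable def s1qbN_6 : Fn3 := ⟨_, _, fun h1 h2 h3 => (egsg.enc (enc_norm (s1qbN_3.enc h1 h2 h3)))⟩
noncomputable def s1qbN_7 : Fn3 := ⟨_, _, fun h1 h2 h3 => (eehg.enc (enc_norm (s1qbN_3.enc h1 h2 h3)))⟩
noncomputable def s1qbN_9 : Fn3 := ⟨_, _, fun h1 h2 h3 => (emug.enc (enc_norm (s1qbN_3.enc h1 h2 h3)))⟩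
noncomputable def s1qbN_11 : Fn3 := ⟨_, _, fun h1 h2 h3 => (eB0g.enc (enc_norm (s1qbN_3.enc h1 h2 h3)))⟩
noncomputable def s1qbN_15 : Fn3 := ⟨_, _, fun h1 h2 h3 => (enc_add (enc_pnc _ 1) (enc_mul (eLAMg.enc (enc_norm (s1qbN_3.enc h1 h2 h3))) (s1qbN_9.enc h1 h2 h3)))⟩
noncomputable def s1qbN_16 : Fn3 := ⟨_, _, fun h1 h2 h3 => (enc_neg h1)⟩
noncomputable def s1qbN_17 : Fn3 := ⟨_, _, fun h1 h2 h3 => (exi1g.enc (s1qbN_16.enc h1 h2 h3) h3)⟩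
noncomputable def s1qbN_19 : Fn3 := ⟨_, _, fun h1 h2 h3 => (enc_add (enc_rat _ 1 2) (enc_mul h3 (s1qbN_17.enc h1 h2 h3)))⟩
noncomputable def s1qbN_21 : Fn3 := ⟨_, _, fun h1 h2 h3 => (enc_sub (enc_pnc _ 1) (enc_mul h3 h1))⟩
noncomputable def s1qbN_25 : Fn3 := ⟨_, _, fun h1 h2 h3 => (enc_add (s1qbN_6.enc h1 h2 h3) (s1qbN_19.enc h1 h2 h3))⟩
noncomputable def s1qbN_27 : Fn3 := ⟨_, _, fun h1 h2 h3 => (enc_mul (enc_norm (enc_scale 3 4 (enc_add (s1qbN_5.enc h1 h2 h3) (s1qbN_21.enc h1 h2 h3)))) (enc_inv (s1qbN_25.enc h1 h2 h3)))⟩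
noncomputable def s1qbN_54 : Fn3 := ⟨_, _, fun h1 h2 h3 => (enc_add (s1qbN_27.enc h1 h2 h3) (enc_rat _ 1 2))⟩
noncomputable def s1qbN_65 : Fn3 := ⟨_, _, fun h1 h2 h3 => (enc_inv (enc_add (enc_add (enc_pnc _ 1) (enc_half (s1qbN_19.enc h1 h2 h3))) (enc_scale 3 4 (s1qbN_21.enc h1 h2 h3))))⟩
noncomputable def s1qbN_76 : Fn3 := ⟨_, _, fun h1 h2 h3 => (enc_scale 3 4 (enc_sub (enc_mul (enc_norm (s1qbN_54.enc h1 h2 h3)) (s1qbN_65.enc h1 h2 h3)) (enc_mul h3 (enc_norm (enc_mul (enc_norm (enc_mul h2 (enc_norm (enc_add (enc_pnc _ 1) (s1qbN_7.enc h1 h2 h3))))) (enc_norm (enc_mul (enc_norm (enc_subr 3 4 (enc_half (s1qbN_27.enc h1 h2 h3)))) (enc_norm (enc_mul (s1qbN_65.enc h1 h2 h3) (enc_inv (enc_add (enc_add (enc_pnc _ 1) (enc_half (s1qbN_6.enc h1 h2 h3))) (enc_scale 3 4 (s1qbN_5.enc h1 h2 h3)))))))))))))⟩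
noncomputable def s1qbN_87 : Fn3 := ⟨_, _, fun h1 h2 h3 => (ehhg.enc (enc_pnc _ 0))⟩
noncomputable def s1qbN_90 : Fn3 := ⟨_, _, fun h1 h2 h3 => (enc_mul (enc_norm (s1qbN_54.enc h1 h2 h3)) (enc_norm (enc_add (enc_rat _ 1 2) (enc_mul h3 (enc_norm (enc_scale 3 4 (enc_mul (enc_norm (enc_add (s1qbN_17.enc h1 h2 h3) (enc_half h1))) (s1qbN_65.enc h1 h2 h3))))))))⟩
noncomputable def s1qbN : Fn3 := ⟨_, _, fun h1 h2 h3 => (enc_sub (enc_mul (enc_norm (enc_add (enc_half (ebeg.enc (enc_norm (s1qbN_3.enc h1 h2 h3)))) (enc_mul h3 (enc_norm (enc_add (enc_mul (enc_norm (s1qbN_15.enc h1 h2 h3)) (enc_norm (eC1dgk.enc h3 h2 (s1qbN_16.enc h1 h2 h3)))) (enc_mul (s1qbN_9.enc h1 h2 h3) (enc_norm (eC1dgb.enc h3 h2 (s1qbN_16.enc h1 h2 h3))))))))) (enc_inv (enc_mul h1 (enc_norm (s1qbN_5.enc h1 h2 h3))))) (enc_mul h3 (enc_norm (enc_add (enc_mul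 (enc_norm (s1qbN_15.enc h1 h2 h3)) (enc_norm (enc_add (enc_add (enc_sub (enc_mul (enc_norm (enc_mul h2 (enc_norm (enc_mul h3 (epKg.enc (enc_norm (s1qbN_3.enc h1 h2 h3))))))) (enc_norm (s1qbN_76.enc h1 h2 h3))) (enc_mul (enc_scale 559209 100000 (s1qbN_87.enc h1 h2 h3)) (enc_norm (s1qbN_90.enc h1 h2 h3)))) (s1qbN_76.enc h1 h2 h3)) (enc_mul (enc_norm (enc_add (enc_scale 3 4 (enc_mul (enc_norm (enc_add (s1qbN_6.enc h1 h2 h3) (enc_mul (enc_norm (s1qbN_5.enc h1 h2 h3)) (enc_norm (s1qbN_27.enc h1 h2 h3))))) (enc_inv (enc_mul (s1qbN_6.enc h1 h2 h3) (enc_norm (s1qbN_25.enc h1 h2 h3)))))) (s1qbN_27.enc h1 h2 h3))) (enc_half (enc_inv (s1qbN_7.enc h1 h2 h3))))))) (enc_mul (s1qbN_9.enc h1 h2 h3) (enc_norm (enc_add (enc_add (enc_mul (enc_norm (enc_mul (enc_norm (enc_sub (enc_neg (enc_rat _ 280683 50000)) (enc_nat 2 (s1qbN_11.enc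 h1 h2 h3)))) (s1qbN_87.enc h1 h2 h3))) (enc_norm (s1qbN_90.enc h1 h2 h3))) (enc_mul (enc_norm (enc_mul h2 (enc_norm (enc_mul h3 (epBg.enc (enc_norm (s1qbN_3.enc h1 h2 h3))))))) (enc_norm (s1qbN_76.enc h1 h2 h3)))) (enc_mul (s1qbN_11.enc h1 h2 h3) (enc_norm (s1qbN_76.enc h1 h2 h3))))))))))⟩
theorem s1qbN_v {r lam w : ℝ} (s : Scl r lam w) : s1qbN.v w lam r = vA .near (lam * r) (1 / 2) r (C1d r lam (-w)) * (w * (1 - lam * r))⁻¹ -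
      r * qpR .near (((-(359209 / 100000)) - 2 * 1) * (Real.sqrt 3 / 2)) (((-(280683 / 50000)) - 2 * B0 (lam * r)) * (Real.sqrt 3 / 2)) r lam w := by
  simp only [qpR, qpK, qpB, gst, gq, ksq, iN, iNs, Sqv, cc1_dn s]
  simp only [s1qbN, s1qbN_3, s1qbN_5, s1qbN_6, s1qbN_7, s1qbN_9, s1qbN_11, s1qbN_15, s1qbN_16, s1qbN_17, s1qbN_19, s1qbN_21, s1qbN_25, s1qbN_27, s1qbN_54, s1qbN_65, s1qbN_76, s1qbN_87, s1qbN_90, egsg_v, eehg_v, eLAMg_v, emug_v, ebeg_v, eB0g_v, exi1g_v, eC1dgk_v s, eC1dgb_v s, epKg_v, ehhg_v, epBg_v, vA, nk]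
  push_cast
  ring
noncomputable def s1bN_3 : Fn3 := ⟨_, _, fun h1 h2 h3 => (enc_mul h2 h3)⟩
noncomputable def s1bN_5 : Fn3 := ⟨_, _, fun h1 h2 h3 => (enc_sub (enc_pnc _ 1) (s1bN_3.enc h1 h2 h3))⟩
noncomputable def s1bN_6 : Fn3 := ⟨_, _, fun h1 h2 h3 => (egsg.enc (enc_norm (s1bN_3.enc h1 h2 h3)))⟩
noncomputable def s1bN_7 : Fn3 := ⟨_, _, fun h1 h2 h3 => (eehg.enc (enc_norm (s1bN_3.enc h1 h2 h3)))⟩
noncomputable def s1bN_9 : Fn3 := ⟨_, _, fun h1 h2 h3 => (emug.enc (enc_norm (s1bN_3.enc h1 h2 h3)))⟩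
noncomputable def s1bN_15 : Fn3 := ⟨_, _, fun h1 h2 h3 => (enc_add (enc_pnc _ 1) (enc_mul (eLAMg.enc (enc_norm (s1bN_3.enc h1 h2 h3))) (s1bN_9.enc h1 h2 h3)))⟩
noncomputable def s1bN_16 : Fn3 := ⟨_, _, fun h1 h2 h3 => (enc_neg h1)⟩
noncomputable def s1bN_17 : Fn3 := ⟨_, _, fun h1 h2 h3 => (exi1g.enc (s1bN_16.enc h1 h2 h3) h3)⟩
noncomputable def s1bN_41 : Fn3 := ⟨_, _, fun h1 h2 h3 => (eC1dgk.enc h3 h2 (s1bN_16.enc h1 h2 h3))⟩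
noncomputable def s1bN_46 : Fn3 := ⟨_, _, fun h1 h2 h3 => (enc_mul (s1bN_9.enc h1 h2 h3) (enc_norm (eC1dgb.enc h3 h2 (s1bN_16.enc h1 h2 h3))))⟩
noncomputable def s1bN_51 : Fn3 := ⟨_, _, fun h1 h2 h3 => (enc_sub h1 h2)⟩
noncomputable def s1bN : Fn3 := ⟨_, _, fun h1 h2 h3 => (enc_sub (enc_mul (enc_norm (s1bN_51.enc h1 h2 h3)) (enc_norm (enc_mul (s1bN_7.enc h1 h2 h3) (enc_norm (enc_sub (enc_mul (enc_norm (s1bN_51.enc h1 h2 h3)) (enc_norm (enc_mul (enc_norm (enc_add (enc_half (ebeg.enc (enc_norm (s1bN_3.enc h1 h2 h3)))) (enc_mul h3 (enc_norm (enc_add (enc_mul (enc_norm (s1bN_15.enc h1 h2 h3)) (enc_norm (s1bN_41.enc h1 h2 h3))) (s1bN_46.enc h1 h2 h3)))))) (enc_inv (enc_mul h1 (enc_norm (s1bN_5.enc h1 h2 h3))))))) (enc_mul h3 (enc_norm (enc_add (enc_mul (enc_norm (s1bN_15.enc h1 h2 h3)) (enc_norm (enc_add (s1bN_41.enc h1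 h2 h3) (enc_mul (enc_norm (enc_add (enc_scale 3 4 (enc_mul (enc_norm (enc_mul (enc_norm (enc_add (enc_mul h1 (enc_norm (enc_add (s1bN_6.enc h1 h2 h3) (enc_rat _ 1 2)))) (enc_mul (enc_norm (enc_add (s1bN_5.enc h1 h2 h3) (enc_pnc _ 1))) (s1bN_17.enc h1 h2 h3)))) (enc_inv (enc_add (s1bN_6.enc h1 h2 h3) (enc_add (enc_rat _ 1 2) (enc_mul h3 (s1bN_17.enc h1 h2 h3))))))) (eigg.enc (enc_norm (s1bN_3.enc h1 h2 h3))))) (s1bN_17.enc h1 h2 h3))) (enc_half (enc_inv (s1bN_7.enc h1 h2 h3))))))) (s1bN_46.enc h1 h2 h3))))))))) (enc_mul (enc_norm (enc_half (enc_mul (s1bN_9.enc h1 h2 h3) (enc_norm (enc_sub (enc_add (enc_pnc _ 3) (enc_mul h3 h1)) (s1bN_3.enc h1 h2 h3)))))) (enc_norm (enc_mul h3 (enc_norm (eC1dgcB.enc h3 h2 (s1bN_16.enc h1 h2 h3)))))))⟩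
theorem s1bN_v {r lam w : ℝ} (s : Scl r lam w) : s1bN.v w lam r = (w - lam) * (eh (lam * r) * ((w - lam) *
      (vA .near (lam * r) (1 / 2) r (C1d r lam (-w)) * (w * (1 - lam * r))⁻¹) -
        r * dkR .near r lam w (xi1 (-w) r) (C1d r lam (-w)))) -
        l1V .near r lam w * (r * (C1d r lam (-w)).cB) := by
  simp only [s1bN, s1bN_3, s1bN_5, s1bN_6, s1bN_7, s1bN_9, s1bN_15, s1bN_16, s1bN_17, s1bN_41, s1bN_46, s1bN_51, egsg_v, eehg_v, eLAMg_v, emug_v, ebeg_v, exi1g_v, eigg_v, eC1dgk_v s, eC1dgcB_v s, eC1dgb_v s, dkR, ksR, vA, nk, l1V]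
  push_cast
  ring
noncomputable def s1wN_3 : Fn3 := ⟨_, _, fun h1 h2 h3 => (enc_mul h2 h3)⟩
noncomputable def s1wN_7 : Fn3 := ⟨_, _, fun h1 h2 h3 => (eehg.enc (enc_norm (s1wN_3.enc h1 h2 h3)))⟩
noncomputable def s1wN_8 : Fn3 := ⟨_, _, fun h1 h2 h3 => (eLAMg.enc (enc_norm (s1wN_3.enc h1 h2 h3)))⟩
noncomputable def s1wN_9 : Fn3 := ⟨_, _, fun h1 h2 h3 => (emug.enc (enc_norm (s1wN_3.enc h1 h2 h3)))⟩
noncomputable def s1wN_10 : Fn3 := ⟨_, _, fun h1 h2 h3 => (ebeg.enc (enc_norm (s1wN_3.enc h1 h2 h3)))⟩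
noncomputable def s1wN_23 : Fn3 := ⟨_, _, fun h1 h2 h3 => (enc_add (enc_mul (enc_norm (enc_add (enc_pnc _ 1) (enc_mul (s1wN_8.enc h1 h2 h3) (s1wN_9.enc h1 h2 h3)))) (enc_norm (eW2gk.enc h3 h2 h1))) (enc_mul (s1wN_9.enc h1 h2 h3) (enc_norm (eW2gb.enc h3 h2 h1))))⟩
noncomputable def s1wN : Fn3 := ⟨_, _, fun h1 h2 h3 => (enc_sub (enc_sub (enc_sub (enc_add (exiwg.enc h1 h3) (enc_half (enc_mul (enc_norm (enc_add (enc_rat _ 1 2) (enc_mul h3 (exiwg.enc h1 h3)))) h1))) (enc_mul h2 (enc_norm (enc_mul (s1wN_7.enc h1 h2 h3) (enc_norm (enc_mul h3 (enc_norm (enc_sub (enc_mul (s1wN_10.enc h1 h2 h3) (exiwg.enc h1 h3)) (s1wN_23.enc h1 h2 h3))))))))) (enc_mul (enc_norm (enc_mul h2 (enc_norm (enc_mul (s1wN_7.enc h1 h2 h3) (enc_norm (enc_mul (enc_norm (enc_add (enc_half (s1wN_10.enc h1 h2 h3)) (enc_mul h3 (enc_norm (s1wN_23.enc h1 h2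 h3))))) (enc_norm (enc_mul h3 h1)))))))) (enc_inv (enc_sub (enc_pnc _ 1) (s1wN_3.enc h1 h2 h3))))) (enc_mul (enc_norm (enc_half (enc_mul (s1wN_9.enc h1 h2 h3) (enc_norm (enc_sub (enc_pnc _ 3) (enc_mul h3 (enc_norm (enc_add h1 h2)))))))) (enc_norm (enc_add (enc_add (enc_mul (s1wN_8.enc h1 h2 h3) (exiwg.enc h1 h3)) (eW2gcA.enc h3 h2 h1)) (enc_mul h3 (eW2gcB.enc h3 h2 h1))))))⟩
theorem s1wN_v {r lam w : ℝ} (s : Scl r lam w) : s1wN.v w lam r = g1 .near r lam w (1 / 2) (xiw w r)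
      (vA .near (lam * r) (1 / 2) r (W2 r lam w)) ((W2 r lam w).cA + r * (W2 r lam w).cB) := by
  simp only [s1wN, s1wN_3, s1wN_7, s1wN_8, s1wN_9, s1wN_10, s1wN_23, eehg_v, eLAMg_v, emug_v, ebeg_v, exiwg_v, eW2gk_v, eW2gcA_v, eW2gcB_v, eW2gb_v, g1, vA, nk]
  push_cast
  ring
noncomputable def s1wqN_3 : Fn3 := ⟨_, _, fun h1 h2 h3 => (enc_mul h2 h3)⟩
noncomputable def s1wqN_7 : Fn3 := ⟨_, _, fun h1 h2 h3 => (eehg.enc (enc_norm (s1wqN_3.enc h1 h2 h3)))⟩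
noncomputable def s1wqN_8 : Fn3 := ⟨_, _, fun h1 h2 h3 => (eLAMg.enc (enc_norm (s1wqN_3.enc h1 h2 h3)))⟩
noncomputable def s1wqN_9 : Fn3 := ⟨_, _, fun h1 h2 h3 => (emug.enc (enc_norm (s1wqN_3.enc h1 h2 h3)))⟩
noncomputable def s1wqN_10 : Fn3 := ⟨_, _, fun h1 h2 h3 => (ebeg.enc (enc_norm (s1wqN_3.enc h1 h2 h3)))⟩
noncomputable def s1wqN_27 : Fn3 := ⟨_, _, fun h1 h2 h3 => (enc_mul h3 (enc_norm (enc_mul (enc_scale 3 4 h1) (enc_inv (enc_add (enc_pnc _ 1) (enc_sqrt (enc_sub (enc_pnc _ 1) (enc_scale 3 4 (enc_sq (enc_norm (enc_mul h3 h1)))))))))))⟩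
noncomputable def s1wqN_48 : Fn3 := ⟨_, _, fun h1 h2 h3 => (enc_add (enc_mul (enc_norm (enc_add (enc_pnc _ 1) (enc_mul (s1wqN_8.enc h1 h2 h3) (s1wqN_9.enc h1 h2 h3)))) (enc_norm (enc_sub (enc_neg (enc_rat _ 32507 5000)) (enc_mul (enc_norm (s1wqN_27.enc h1 h2 h3)) (enc_norm (enc_sub (enc_pnc _ 1) (enc_mul h3 (enc_scale 32507 2500 h1)))))))) (enc_mul (s1wqN_9.enc h1 h2 h3) (enc_norm (enc_sub (enc_rat _ 29977 5000) (enc_mul (enc_norm (s1wqN_27.enc h1 h2 h3)) (enc_norm (enc_add (eB0g.enc (enc_norm (s1wqN_3.enc h1 h2 h3))) (enc_mul h3 (enc_scale 29977 2500 h1)))))))))⟩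
noncomputable def s1wqN : Fn3 := ⟨_, _, fun h1 h2 h3 => (enc_add (enc_sub (enc_sub (enc_sub (enc_half (enc_sub (enc_rat _ 1 2) (enc_mul h3 (enc_norm (enc_mul (enc_norm (s1wqN_27.enc h1 h2 h3)) h1))))) (s1wqN_27.enc h1 h2 h3)) (enc_mul h2 (enc_norm (enc_mul (s1wqN_7.enc h1 h2 h3) (enc_norm (enc_mul h3 (enc_norm (enc_sub (enc_neg (enc_mul (s1wqN_10.enc h1 h2 h3) (enc_norm (s1wqN_27.enc h1 h2 h3)))) (s1wqN_48.enc h1 h2 h3))))))))) (enc_mul (enc_norm (enc_mul h2 (enc_norm (enc_mul (s1wqN_7.enc h1 h2 h3) (enc_norm (enc_mul (enc_norm (enc_add (enc_half (s1wqN_10.enc h1 h2 h3)) (enc_mul h3 (enc_norm (enc_mul (enc_norm (s1wqN_48.enc h1 h2 h3)) h1))))) h3)))))) (enc_inv (enc_sub (enc_pnc _ 1) (s1wqN_3.enc h1 h2 h3))))) (enc_mul (enc_norm (enc_half (enc_mul (s1wqN_9.enc h1 h2 h3) (enc_norm (enc_sub (enc_pnc _ 3) (enc_mul h3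 (enc_norm (enc_add h1 h2)))))))) (enc_norm (enc_mul (s1wqN_8.enc h1 h2 h3) (enc_norm (s1wqN_27.enc h1 h2 h3))))))⟩
theorem s1wqN_v {r lam w : ℝ} (s : Scl r lam w) (hw : w ≤ 1 / 2 * lam) : w * s1wqN.v w lam r = g1 .near r lam w (1 / 2) (xiw w r)
      (vA .near (lam * r) (1 / 2) r (W2 r lam w)) ((W2 r lam w).cA + r * (W2 r lam w).cB) := by
  have w2 : w ≤ lam / 2 := by linarith
  simp only [s1wqN, s1wqN_3, s1wqN_7, s1wqN_8, s1wqN_9, s1wqN_10, s1wqN_27, s1wqN_48, eehg_v, eLAMg_v, emug_v, ebeg_v, eB0g_v, W2, wK2_lin s.l0.le w2, wB2_lin s.l0.le w2, hg_neg (by linarith [s.l0] : w - 5 / 2 * lam ≤ 0), g1, vA, nk, xiw, om, qw]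
  push_cast
  ring_nf
/-- `(be - 1) / r`. -/
noncomputable def bhN (r lam w : ℝ) : ℝ :=
  w * 17 / 10 + lam * 21 / 10
noncomputable def s1nc1N_3 : Fn3 := ⟨_, _, fun h1 h2 h3 => (enc_mul h2 h3)⟩
noncomputable def s1nc1N_7 : Fn3 := ⟨_, _, fun h1 h2 h3 => (eehg.enc (enc_norm (s1nc1N_3.enc h1 h2 h3)))⟩
noncomputable def s1nc1N_8 : Fn3 := ⟨_, _, fun h1 h2 h3 => (eLAMg.enc (enc_norm (s1nc1N_3.enc h1 h2 h3)))⟩
noncomputable def s1nc1N_9 : Fn3 := ⟨_, _, fun h1 h2 h3 => (emug.enc (enc_norm (s1nc1N_3.enc h1 h2 h3)))⟩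
noncomputable def s1nc1N_10 : Fn3 := ⟨_, _, fun h1 h2 h3 => (ebeg.enc (enc_norm (s1nc1N_3.enc h1 h2 h3)))⟩
noncomputable def s1nc1N_23 : Fn3 := ⟨_, _, fun h1 h2 h3 => (enc_add (enc_mul (enc_norm (enc_add (enc_pnc _ 1) (enc_mul (s1nc1N_8.enc h1 h2 h3) (s1nc1N_9.enc h1 h2 h3)))) (enc_norm (eC1ugk.enc h3 h2 h1))) (enc_mul (s1nc1N_9.enc h1 h2 h3) (enc_norm (eC1ugb.enc h3 h2 h1))))⟩
noncomputable def s1nc1N_26 : Fn3 := ⟨_, _, fun h1 h2 h3 => (enc_add (enc_half (s1nc1N_10.enc h1 h2 h3)) (enc_mul h3 (enc_norm (s1nc1N_23.enc h1 h2 h3))))⟩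
noncomputable def s1nc1N_30 : Fn3 := ⟨_, _, fun h1 h2 h3 => (enc_add (enc_add (enc_mul (s1nc1N_8.enc h1 h2 h3) (exi1g.enc h1 h3)) (eC1ugcA.enc h3 h2 h1)) (enc_mul h3 (enc_norm (eC1ugcB.enc h3 h2 h1))))⟩
noncomputable def s1nc1N_38 : Fn3 := ⟨_, _, fun h1 h2 h3 => (enc_add (enc_rat _ 1 2) (enc_mul h3 (exi1g.enc h1 h3)))⟩
noncomputable def s1nc1N_52 : Fn3 := ⟨_, _, fun h1 h2 h3 => (enc_inv (enc_sub (enc_pnc _ 1) (s1nc1N_3.enc h1 h2 h3)))⟩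
noncomputable def s1nc1N : Fn3 := ⟨_, _, fun h1 h2 h3 => (enc_sub (enc_sub (enc_add (exi1g.enc h1 h3) (enc_mul (enc_norm (enc_add (enc_scale 17 10 h1) (enc_scale 21 10 h2))) (enc_norm (s1nc1N_38.enc h1 h2 h3)))) (enc_sub (enc_sub (enc_sub (enc_add (exi1g.enc h1 h3) (enc_half (enc_mul (enc_norm (s1nc1N_38.enc h1 h2 h3)) h1))) (enc_mul h2 (enc_norm (enc_mul (s1nc1N_7.enc h1 h2 h3) (enc_norm (enc_mul h3 (enc_norm (enc_sub (enc_mul (s1nc1N_10.enc h1 h2 h3) (exi1g.enc h1 h3)) (s1nc1N_23.enc h1 h2 h3))))))))) (enc_mul (enc_norm (enc_mul h2 (enc_norm (enc_mul (s1nc1N_7.enc h1 h2 h3) (enc_norm (enc_mul (enc_norm (s1nc1N_26.enc h1 h2 h3)) (enc_norm (enc_mul h3 h1)))))))) (s1nc1N_52.enc h1 h2 h3))) (enc_mul (enc_norm (enc_half (enc_mul (s1nc1N_9.enc h1 h2 h3) (enc_norm (enc_sub (enc_pnc _ 3) (enc_mul h3 (enc_norm (enc_add h1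 h2)))))))) (enc_norm (s1nc1N_30.enc h1 h2 h3))))) (enc_scale 11 20 (enc_mul h2 (enc_pos (enc_add (enc_add (s1nc1N_38.enc h1 h2 h3) (enc_mul (s1nc1N_9.enc h1 h2 h3) (enc_norm (enc_mul h3 (enc_norm (s1nc1N_30.enc h1 h2 h3)))))) (enc_nat 2 (enc_mul (s1nc1N_7.enc h1 h2 h3) (enc_norm (enc_add (enc_mul h2 (enc_norm (enc_mul (enc_pos (s1nc1N_26.enc h1 h2 h3)) (enc_inv (enc_max h2 h1))))) (enc_mul (enc_norm (s1nc1N_3.enc h1 h2 h3)) (enc_norm (enc_mul (enc_pos (enc_neg (s1nc1N_26.enc h1 h2 h3))) (s1nc1N_52.enc h1 h2 h3)))))))))))))⟩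
theorem s1nc1N_v {r lam w : ℝ} (s : Scl r lam w) : s1nc1N.v w lam r = xi1 w r + bhN r lam (w) * (1 / 2 + r * xi1 w r) -
      g1 .near r lam w (1 / 2) (xi1 w r)
      (vA .near (lam * r) (1 / 2) r (C1u r lam w)) ((C1u r lam w).cA + r * (C1u r lam w).cB) -
      11 / 20 * (lam * max (grR .near r lam w (1 / 2 + r * xi1 w r) (vA .near (lam * r) (1 / 2) r (C1u r lam w))
      (LAM (lam * r) * xi1 w r + ((C1u r lam w).cA + r * (C1u r lam w).cB))) 0) := by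
  simp only [s1nc1N, s1nc1N_3, s1nc1N_7, s1nc1N_8, s1nc1N_9, s1nc1N_10, s1nc1N_23, s1nc1N_26, s1nc1N_30, s1nc1N_38, s1nc1N_52, eehg_v, eLAMg_v, emug_v, ebeg_v, exi1g_v, eC1ugk_v s, eC1ugcA_v, eC1ugcB_v s, eC1ugb_v s, g1, vA, nk, grR, bhN]
  push_cast
  ring_nf
noncomputable def s1nWN_3 : Fn3 := ⟨_, _, fun h1 h2 h3 => (enc_mul h2 h3)⟩
noncomputable def s1nWN_7 : Fn3 := ⟨_, _, fun h1 h2 h3 => (eehg.enc (enc_norm (s1nWN_3.enc h1 h2 h3)))⟩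
noncomputable def s1nWN_8 : Fn3 := ⟨_, _, fun h1 h2 h3 => (eLAMg.enc (enc_norm (s1nWN_3.enc h1 h2 h3)))⟩
noncomputable def s1nWN_9 : Fn3 := ⟨_, _, fun h1 h2 h3 => (emug.enc (enc_norm (s1nWN_3.enc h1 h2 h3)))⟩
noncomputable def s1nWN_10 : Fn3 := ⟨_, _, fun h1 h2 h3 => (ebeg.enc (enc_norm (s1nWN_3.enc h1 h2 h3)))⟩
noncomputable def s1nWN_23 : Fn3 := ⟨_, _, fun h1 h2 h3 => (enc_add (enc_mul (enc_norm (enc_add (enc_pnc _ 1) (enc_mul (s1nWN_8.enc h1 h2 h3) (s1nWN_9.enc h1 h2 h3)))) (enc_norm (eW2gk.enc h3 h2 h1))) (enc_mul (s1nWN_9.enc h1 h2 h3) (enc_norm (eW2gb.enc h3 h2 h1))))⟩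
noncomputable def s1nWN_26 : Fn3 := ⟨_, _, fun h1 h2 h3 => (enc_add (enc_half (s1nWN_10.enc h1 h2 h3)) (enc_mul h3 (enc_norm (s1nWN_23.enc h1 h2 h3))))⟩
noncomputable def s1nWN_30 : Fn3 := ⟨_, _, fun h1 h2 h3 => (enc_add (enc_add (enc_mul (s1nWN_8.enc h1 h2 h3) (exiwg.enc h1 h3)) (eW2gcA.enc h3 h2 h1)) (enc_mul h3 (eW2gcB.enc h3 h2 h1)))⟩
noncomputable def s1nWN_38 : Fn3 := ⟨_, _, fun h1 h2 h3 => (enc_add (enc_rat _ 1 2) (enc_mul h3 (exiwg.enc h1 h3)))⟩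
noncomputable def s1nWN_52 : Fn3 := ⟨_, _, fun h1 h2 h3 => (enc_inv (enc_sub (enc_pnc _ 1) (s1nWN_3.enc h1 h2 h3)))⟩
noncomputable def s1nWN : Fn3 := ⟨_, _, fun h1 h2 h3 => (enc_sub (enc_sub (enc_add (exiwg.enc h1 h3) (enc_mul (enc_norm (enc_add (enc_scale 17 10 h1) (enc_scale 21 10 h2))) (enc_norm (s1nWN_38.enc h1 h2 h3)))) (enc_sub (enc_sub (enc_sub (enc_add (exiwg.enc h1 h3) (enc_half (enc_mul (enc_norm (s1nWN_38.enc h1 h2 h3)) h1))) (enc_mul h2 (enc_norm (enc_mul (s1nWN_7.enc h1 h2 h3) (enc_norm (enc_mul h3 (enc_norm (enc_sub (enc_mul (s1nWN_10.enc h1 h2 h3) (exiwg.enc h1 h3)) (s1nWN_23.enc h1 h2 h3))))))))) (enc_mul (enc_norm (enc_mul h2 (enc_norm (enc_mul (s1nWN_7.enc h1 h2 h3) (enc_norm (enc_mul (enc_norm (s1nWN_26.enc h1 h2 h3)) (enc_norm (enc_mul h3 h1)))))))) (s1nWN_52.enc h1 h2 h3))) (enc_mul (enc_norm (enc_half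 (enc_mul (s1nWN_9.enc h1 h2 h3) (enc_norm (enc_sub (enc_pnc _ 3) (enc_mul h3 (enc_norm (enc_add h1 h2)))))))) (enc_norm (s1nWN_30.enc h1 h2 h3))))) (enc_scale 11 20 (enc_mul h2 (enc_pos (enc_add (enc_add (s1nWN_38.enc h1 h2 h3) (enc_mul (s1nWN_9.enc h1 h2 h3) (enc_norm (enc_mul h3 (enc_norm (s1nWN_30.enc h1 h2 h3)))))) (enc_nat 2 (enc_mul (s1nWN_7.enc h1 h2 h3) (enc_norm (enc_add (enc_mul h2 (enc_norm (enc_mul (enc_pos (s1nWN_26.enc h1 h2 h3)) (enc_inv (enc_max h2 h1))))) (enc_mul (enc_norm (s1nWN_3.enc h1 h2 h3)) (enc_norm (enc_mul (enc_pos (enc_neg (s1nWN_26.enc h1 h2 h3))) (s1nWN_52.enc h1 h2 h3)))))))))))))⟩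
theorem s1nWN_v {r lam w : ℝ} (s : Scl r lam w) : s1nWN.v w lam r = xiw w r + bhN r lam (w) * (1 / 2 + r * xiw w r) -
      g1 .near r lam w (1 / 2) (xiw w r)
      (vA .near (lam * r) (1 / 2) r (W2 r lam w)) ((W2 r lam w).cA + r * (W2 r lam w).cB) -
      11 / 20 * (lam * max (grR .near r lam w (1 / 2 + r * xiw w r) (vA .near (lam * r) (1 / 2) r (W2 r lam w))
      (LAM (lam * r) * xiw w r + ((W2 r lam w).cA + r * (W2 r lam w).cB))) 0) := by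
  simp only [s1nWN, s1nWN_3, s1nWN_7, s1nWN_8, s1nWN_9, s1nWN_10, s1nWN_23, s1nWN_26, s1nWN_30, s1nWN_38, s1nWN_52, eehg_v, eLAMg_v, emug_v, ebeg_v, exiwg_v, eW2gk_v, eW2gcA_v, eW2gcB_v, eW2gb_v, g1, vA, nk, grR, bhN]
  push_cast
  ring_nf
noncomputable def s1rN_3 : Fn3 := ⟨_, _, fun h1 h2 h3 => (enc_mul h2 h3)⟩
noncomputable def s1rN_7 : Fn3 := ⟨_, _, fun h1 h2 h3 => (eehg.enc (enc_norm (s1rN_3.enc h1 h2 h3)))⟩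
noncomputable def s1rN_8 : Fn3 := ⟨_, _, fun h1 h2 h3 => (eLAMg.enc (enc_norm (s1rN_3.enc h1 h2 h3)))⟩
noncomputable def s1rN_9 : Fn3 := ⟨_, _, fun h1 h2 h3 => (emug.enc (enc_norm (s1rN_3.enc h1 h2 h3)))⟩
noncomputable def s1rN_10 : Fn3 := ⟨_, _, fun h1 h2 h3 => (ebeg.enc (enc_norm (s1rN_3.enc h1 h2 h3)))⟩
noncomputable def s1rN_23 : Fn3 := ⟨_, _, fun h1 h2 h3 => (enc_add (enc_mul (enc_norm (enc_add (enc_pnc _ 1) (enc_mul (s1rN_8.enc h1 h2 h3) (s1rN_9.enc h1 h2 h3)))) (enc_norm (eC3ugk.enc h3 h2 h1))) (enc_mul (s1rN_9.enc h1 h2 h3) (enc_norm (eC3ugb.enc h3 h2 h1))))⟩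
noncomputable def s1rN_64 : Fn3 := ⟨_, _, fun h1 h2 h3 => (enc_scale 3 2 h2)⟩
noncomputable def s1rN : Fn3 := ⟨_, _, fun h1 h2 h3 => (enc_sub (enc_add (enc_sub (enc_sub (enc_sub (enc_sub (enc_add (exi3g.enc h1 h3) (enc_half (enc_mul (enc_norm (enc_add (enc_rat _ 3 2) (enc_mul h3 (exi3g.enc h1 h3)))) h1))) (enc_mul h2 (enc_norm (enc_mul (s1rN_7.enc h1 h2 h3) (enc_norm (enc_mul h3 (enc_norm (enc_sub (enc_mul (s1rN_10.enc h1 h2 h3) (exi3g.enc h1 h3)) (s1rN_23.enc h1 h2 h3))))))))) (enc_mul (enc_norm (enc_mul h2 (enc_norm (enc_mul (s1rN_7.enc h1 h2 h3) (enc_norm (enc_mul (enc_norm (enc_add (enc_scale 3 2 (s1rN_10.enc h1 h2 h3)) (enc_mul h3 (enc_norm (s1rN_23.enc h1 h2 h3))))) (enc_norm (enc_mul h3 h1)))))))) (enc_inv (enc_sub (enc_pnc _ 1) (s1rN_3.enc h1 h2 h3))))) (enc_mul (enc_norm (enc_half (enc_mul (s1rN_9.enc h1 h2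 h3) (enc_norm (enc_sub (enc_pnc _ 3) (enc_mul h3 (enc_norm (enc_add h1 h2)))))))) (enc_norm (enc_add (enc_add (enc_mul (s1rN_8.enc h1 h2 h3) (exi3g.enc h1 h3)) (eC3ugcA.enc h3 h2 h1)) (enc_mul h3 (enc_norm (eC3ugcB.enc h3 h2 h1))))))) (exi3g.enc h1 h3)) (s1rN_64.enc h1 h2 h3)) (enc_mul (enc_norm (enc_add (enc_scale 17 10 (enc_add h1 (enc_scale 7 20 h2))) (enc_scale 21 10 h2))) (enc_norm (enc_add (enc_rat _ 1 2) (enc_mul h3 (enc_norm (enc_sub (exi3g.enc h1 h3) (s1rN_64.enc h1 h2 h3))))))))⟩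
theorem s1rN_v {r lam w : ℝ} (s : Scl r lam w) : s1rN.v w lam r = g1 .near r lam w (3 / 2) (xi3 w r)
      (vA .near (lam * r) (3 / 2) r (C3u r lam w)) ((C3u r lam w).cA + r * (C3u r lam w).cB) -
      xi3 w r + 3 / 2 * lam - bhN r lam (w + 7 / 20 * lam) * (1 / 2 + r * (xi3 w r - 3 / 2 * lam)) := by
  simp only [s1rN, s1rN_3, s1rN_7, s1rN_8, s1rN_9, s1rN_10, s1rN_23, s1rN_64, eehg_v, eLAMg_v, emug_v, ebeg_v, exi3g_v, eC3ugk_v s, eC3ugcA_v, eC3ugcB_v s, eC3ugb_v s, g1, vA, nk, bhN]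
  push_cast
  ring
noncomputable def sumN : Fn3 := ⟨_, _, fun h1 h2 h3 => (enc_sub (enc_sub (enc_sub (enc_scale 7 3 h2) (enc_scale 49 12 (enc_mul (enc_sq h2) h3))) (enc_nat 2 h1)) (enc_mul h3 (enc_sq h1)))⟩
theorem sumN_v {r lam w : ℝ} : 3 / 4 * (r * sumN.v w lam r) =
      1 - (1 / 2 - 7 / 4 * (lam * r)) ^ 2 - 3 / 4 * (1 + r * w) ^ 2 := by
  simp only [sumN]
  push_cast
  ring
noncomputable def sumfN_4 : Fn3 := ⟨_, _, fun h1 h2 h3 => (enc_add h1 (enc_scale 7 20 h2))⟩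
noncomputable def sumfN : Fn3 := ⟨_, _, fun h1 h2 h3 => (enc_sub (enc_sub (enc_sub (enc_scale 7 3 h2) (enc_scale 49 12 (enc_mul (enc_sq h2) h3))) (enc_nat 2 (sumfN_4.enc h1 h2 h3))) (enc_mul h3 (enc_sq (enc_norm (sumfN_4.enc h1 h2 h3)))))⟩
theorem sumfN_v {r lam w : ℝ} : 3 / 4 * (r * sumfN.v w lam r) =
      1 - (1 / 2 - 7 / 4 * (lam * r)) ^ 2 - 3 / 4 * (1 + r * w + 7 / 20 * (lam * r)) ^ 2 := by
  simp only [sumfN, sumfN_4]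
  push_cast
  ring

end Pool.Agent.Strip051.G.IE1.Tab.W
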