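import Pool.Agent.Strip051.G.IE1.FxW2

/-! # Certificates in the windows at the floor near `x = 1` (generated) -/

set_option linter.all false

namespace Pool.Agent.Strip051.G.IE1.Tab.W

open Pool.Agent.Strip051.PB Pool.Agent.Strip051.PB.Fx Pool.Agent.Strip051.LC

theorem k_s0c1AN : CertF3 375809638 697932186 1073741824 0 0 26843546 [s0c1N] :=
  certF3 ⟨T.l 0,
    by decide +kernel⟩
theorem k_s0c1BN : CertF3 1073741824 0 0 1073741824 0 29826162 [s0c1N] :=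
  certF3 ⟨T.b (T.b (T.l 0) (T.l 0)) (T.l 0),
    by decide +kernel⟩
theorem k_s0qc1AN : CertF3 0 375809639 1073741824 0 0 26843546 [s0qc1N] :=
  certF3 ⟨T.l 0,
    by decide +kernel⟩
theorem k_s0WAN : CertF3 375809638 697932186 1073741824 0 0 26843546 [s0WN] :=
  certF3 ⟨T.a (T.l 0) (T.l 0),
    by decide +kernel⟩
theorem k_s0WBN : CertF3 1073741824 0 0 1073741824 0 29826162 [s0WN] :=
  certF3 ⟨T.b (T.l 0) (T.l 0),
    by decide +kernel⟩
theorem k_s0qWAN : CertF3 0 375809639 1073741824 0 0 26843546 [s0qWN] :=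
  certF3 ⟨T.l 0,
    by decide +kernel⟩
theorem k_s0nAN : CertF3 375809638 697932186 1073741824 0 0 26843546 [s0nN] :=
  certF3 ⟨T.a (T.a (T.l 0) (T.l 0)) (T.l 0),
    by decide +kernel⟩
theorem k_s0nBN : CertF3 1073741824 0 0 1073741824 0 29826162 [s0nN] :=
  certF3 ⟨T.b (T.l 0) (T.l 0),
    by decide +kernel⟩
theorem k_s0pAN : CertF3 0 375809639 1073741824 0 0 26843546 [s0pN] :=
  certF3 ⟨T.a (T.l 0) (T.l 0),
    by decide +kernel⟩
theorem k_s05AN : CertF3 375809638 697932186 1073741824 0 0 26843546 [s05N] :=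
  certF3 ⟨T.a (T.a (T.l 0) (T.l 0)) (T.l 0),
    by decide +kernel⟩
theorem k_s05BN : CertF3 1073741824 0 0 1073741824 0 29826162 [s05N] :=
  certF3 ⟨T.b (T.l 0) (T.l 0),
    by decide +kernel⟩
theorem k_s0f5AN : CertF3 0 375809639 1073741824 0 0 26843546 [s0f5N] :=
  certF3 ⟨T.l 0,
    by decide +kernel⟩
theorem k_s1q0AN : CertF3 0 483183821 1073741824 0 0 26843546 [s1q0N] :=
  certF3 ⟨T.l 0,
    by decide +kernel⟩
theorem k_s1dkAN : CertF3 483183820 429496731 1073741824 0 0 26843546 [s1dkN] :=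
  certF3 ⟨T.a (T.l 0) (T.l 0),
    by decide +kernel⟩
theorem k_s1qpAN : CertF3 912680550 161061274 1073741824 0 0 26843546 [s1qpN] :=
  certF3 ⟨T.l 0,
    by decide +kernel⟩
theorem k_s1qbBN : CertF3 1073741824 0 987842478 85899346 0 29826162 [s1qbN] :=
  certF3 ⟨T.l 0,
    by decide +kernel⟩
theorem k_s1bBN : CertF3 1073741824 0 0 987842479 0 29826162 [s1bN] :=
  certF3 ⟨T.b (T.b (T.l 0) (T.b (T.l 0) (T.l 0))) (T.b (T.b (T.l 0) (T.l 0)) (T.b (T.b (T.l 0) (T.l 0)) (T.b (T.l 0) (T.b (T.l 0) (T.l 0))))),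
    by decide +kernel⟩
theorem k_s1wAN : CertF3 375809638 697932186 1073741824 0 0 26843546 [s1wN] :=
  certF3 ⟨T.a (T.a (T.l 0) (T.l 0)) (T.l 0),
    by decide +kernel⟩
theorem k_s1wBN : CertF3 1073741824 0 0 1073741824 0 29826162 [s1wN] :=
  certF3 ⟨T.b (T.l 0) (T.l 0),
    by decide +kernel⟩
theorem k_s1wqAN : CertF3 0 375809639 1073741824 0 0 26843546 [s1wqN] :=
  certF3 ⟨T.l 0,
    by decide +kernel⟩
theorem k_s1nc1AN : CertF3 0 1073741824 1073741824 0 0 26843546 [s1nc1N, sumN] :=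
  certF3 ⟨T.l 1,
    by decide +kernel⟩
theorem k_s1nc1BN : CertF3 1073741824 0 0 1073741824 0 29826162 [s1nc1N] :=
  certF3 ⟨T.b (T.b (T.b (T.b (T.l 0) (T.l 0)) (T.l 0)) (T.b (T.l 0) (T.l 0))) (T.b (T.b (T.l 0) (T.l 0)) (T.b (T.l 0) (T.c (T.l 0) (T.l 0)))),
    by decide +kernel⟩
theorem k_s1nWAN : CertF3 0 1073741824 1073741824 0 0 26843546 [s1nWN, sumN] :=
  certF3 ⟨T.l 1,
    by decide +kernel⟩
theorem k_s1nWBN : CertF3 1073741824 0 0 1073741824 0 29826162 [s1nWN] :=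
  certF3 ⟨T.l 0,
    by decide +kernel⟩
theorem k_s1rAN : CertF3 0 1073741824 1073741824 0 0 26843546 [s1rN, sumfN] :=
  certF3 ⟨T.l 0,
    by decide +kernel⟩
theorem k_s1rBN : CertF3 1073741824 0 0 1073741824 0 29826162 [s1rN] :=
  certF3 ⟨T.b (T.b (T.b (T.l 0) (T.l 0)) (T.b (T.l 0) (T.l 0))) (T.b (T.l 0) (T.l 0)),
    by decide +kernel⟩

end Pool.Agent.Strip051.G.IE1.Tab.W
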