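import Pool.Agent.Strip051.G.IE1.FxWCF
import Pool.Agent.Strip051.G.IE1.FxWCN

/-! # The windows at the floor near `x = 1` (generated) -/

set_option linter.all false

namespace Pool.Agent.Strip051.G.IE1.Tab.W

open Pool.Agent.Strip051.PB Pool.Agent.Strip051.PB.Fx Pool.Agent.StripNear Pool.Agent.Strip051.LC
open Pool.Agent.Strip051.LC.E1
open Pool.Agent.Strip051.LC.E0.G (om qw cc1 xi1 sg1 cc3 xi3 sg3 xiw)
open Pool.Agent.Strip051.LC.E1.G hiding mu g1

variable {T : Tbs 7} {r lam w : ℝ}

theorem w00F (h : Nod .far T (lam * r)) (s : Scl r lam w) : 0 ≤ usN .far T (lam * r) 0 0 (r * w) := by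
  rw [h.us00 s]
  refine mul_nonneg s.r0.le ?_
  rcases s.c with ⟨hl, hw, hr⟩ | ⟨hw, hl, hr, he⟩
  · subst hl
    rcases le_total (7 / 20) w with k | k
    · have c := pos3_one (k_s0c1AF w 1 r (rgM k hw (by norm_num) (by norm_num)) (rgM le_rfl le_rfl (by norm_num) (by norm_num)) (rgM s.r0.le hr (by norm_num) (by norm_num)))
      rw [s0c1F_v s] at c
      exact c.le
    · have c := pos3_one (k_s0qc1AF w 1 r (rgM s.w0 k (by norm_num) (by norm_num)) (rgM le_rfl le_rfl (by norm_num) (by norm_num)) (rgM s.r0.le hr (by norm_num) (by norm_num)))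
      rw [← s0qc1F_v s (by linarith)]
      exact mul_nonneg s.w0 c.le
  · subst hw
    have c := pos3_one (k_s0c1BF 1 lam r (rgM le_rfl le_rfl (by norm_num) (by norm_num)) (rgM s.l0.le hl.le (by norm_num) (by norm_num)) (rgM s.r0.le hr (by norm_num) (by norm_num)))
    rw [s0c1F_v s] at c
    exact c.le

theorem w30F (h : Nod .far T (lam * r)) (s : Scl r lam w) : 0 ≤ usN .far T (lam * r) 3 0 (r * w) := by
  rw [h.us30 s]
  refine mul_nonneg s.r0.le ?_
  rcases s.c with ⟨hl, hw, hr⟩ | ⟨hw, hl, hr, he⟩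
  · subst hl
    rcases le_total (7 / 20) w with k | k
    · have c := pos3_one (k_s0WAF w 1 r (rgM k hw (by norm_num) (by norm_num)) (rgM le_rfl le_rfl (by norm_num) (by norm_num)) (rgM s.r0.le hr (by norm_num) (by norm_num)))
      rw [s0WF_v s] at c
      exact c.le
    · have c := pos3_one (k_s0qWAF w 1 r (rgM s.w0 k (by norm_num) (by norm_num)) (rgM le_rfl le_rfl (by norm_num) (by norm_num)) (rgM s.r0.le hr (by norm_num) (by norm_num)))
      rw [← s0qWF_v s (by linarith)]
      exact mul_nonneg s.w0 c.le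
  · subst hw
    have c := pos3_one (k_s0WBF 1 lam r (rgM le_rfl le_rfl (by norm_num) (by norm_num)) (rgM s.l0.le hl.le (by norm_num) (by norm_num)) (rgM s.r0.le hr (by norm_num) (by norm_num)))
    rw [s0WF_v s] at c
    exact c.le

theorem w40F (h : Nod .far T (lam * r)) (s : Scl r lam w) : 0 ≤ usN .far T (lam * r) 4 0 (r * w) := by
  rw [h.us40 s]
  refine mul_nonneg s.r0.le ?_
  rcases s.c with ⟨hl, hw, hr⟩ | ⟨hw, hl, hr, he⟩
  · subst hl
    rcases le_total (7 / 20) w with k | k
    · have c := pos3_one (k_s0nAF w 1 r (rgM k hw (by norm_num) (by norm_num)) (rgM le_rfl le_rfl (by norm_num) (by norm_num)) (rgM s.r0.le hr (by norm_num) (by norm_num)))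
      rw [s0nF_v s] at c
      exact c.le
    · have c := pos3_one (k_s0pAF w 1 r (rgM s.w0 k (by norm_num) (by norm_num)) (rgM le_rfl le_rfl (by norm_num) (by norm_num)) (rgM s.r0.le hr (by norm_num) (by norm_num)))
      rw [s0pF_v s (by linarith)]
      have := xiq_nn s
      have := s.w0
      have := s.r0
      refine add_nonneg (mul_nonneg (mul_nonneg (by positivity) s.w0) (by linarith)) (mul_nonneg s.r0.le c.le)
  · subst hw
    have c := pos3_one (k_s0nBF 1 lam r (rgM le_rfl le_rfl (by norm_num) (by norm_num)) (rgM s.l0.le hl.le (by norm_num) (by norm_num)) (rgM s.r0.le hr (by norm_num) (by norm_num)))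
    rw [s0nF_v s] at c
    exact c.le

theorem w50F (h : Nod .far T (lam * r)) (s : Scl r lam w) (k : 7 / 20 * lam ≤ w) :
    0 ≤ usN .far T (lam * r) 5 0 (r * w) := by
  rw [h.us50 s]
  refine mul_nonneg s.r0.le ?_
  rcases s.c with ⟨hl, hw, hr⟩ | ⟨hw, hl, hr, he⟩
  · subst hl
    have c := pos3_one (k_s05AF w 1 r (rgM (by linarith : (7 : ℝ) / 20 ≤ w) hw (by norm_num) (by norm_num)) (rgM le_rfl le_rfl (by norm_num) (by norm_num)) (rgM s.r0.le hr (by norm_num) (by norm_num)))
    rw [s05F_v s] at c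
    exact c.le
  · subst hw
    have c := pos3_one (k_s05BF 1 lam r (rgM le_rfl le_rfl (by norm_num) (by norm_num)) (rgM s.l0.le hl.le (by norm_num) (by norm_num)) (rgM s.r0.le hr (by norm_num) (by norm_num)))
    rw [s05F_v s] at c
    exact c.le

theorem f50F (h : Nod .far T (lam * r)) (s : Scl r lam w) (hl : lam = 1) (k : w ≤ 7 / 20) :
    0 ≤ us2 (1 - lam * r) (μv .far (lam * r)) 0 (r * w) (crv T.D.P 5 0 (r * w))
        (T.R .far 5 0 (r * w) (1 - lam * r)) (T.RL 5 0 (r * w) (1 - lam * r)) +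
      1 / 5 * (lam * r) * gl2 (1 - lam * r) (μv .far (lam * r)) 0 (r * w) (crv T.D.P 5 0 (r * w))
        (T.R .far 5 0 (r * w) (1 - lam * r)) (T.RL 5 0 (r * w) (1 - lam * r)) := by
  obtain ⟨hX, hA, hL⟩ := h.val50 s
  refine flat_win s (h.us50 s) hX hA hL ?_
  subst hl
  have hr : r ≤ 1 / 40 := by linarith [s.e1]
  have c := pos3_one (k_s0f5AF w 1 r (rgM s.w0 k (by norm_num) (by norm_num)) (rgM le_rfl le_rfl (by norm_num) (by norm_num)) (rgM s.r0.le hr (by norm_num) (by norm_num)))
  rw [s0f5F_v s] at c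
  exact c.le

theorem w01F (h : Nod .far T (lam * r)) (s : Scl r lam w) (hw0 : 0 < w) :
    0 ≤ usN .far T (lam * r) 0 1 (1 + r * -w) := by
  have he := (eh_pos s.e0 s.e1').le
  have tw := sg1_dn s.r0 s.w0 s.v1
  rcases s.c with ⟨hl, hw, hr⟩ | ⟨hw, hl, hr, he'⟩
  · have hB : (C1d r lam (-w)).cB = 0 := by
      show LAM (lam * r) * bL (lam * r) r lam (-sg1 (-w) r) = 0
      rw [bL_zero s.r0 s.r1 s.bd (by linarith)]
      ring
    rw [h.us01 s hw0 (by linarith) hB]
    refine mul_nonneg s.r0.le (mul_nonneg he (mul_nonneg (by linarith) (mul_nonneg s.r0.le ?_)))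
    subst hl
    rcases le_total (9 / 20) w with k | k
    · rcases le_total w (17 / 20) with k' | k'
      · have c := pos3_one (k_s1dkAF w 1 r (rgM k k' (by norm_num) (by norm_num)) (rgM le_rfl le_rfl (by norm_num) (by norm_num)) (rgM s.r0.le hr (by norm_num) (by norm_num)))
        rw [s1dkF_v s] at c
        exact c.le
      · have c := pos3_one (k_s1qpAF w 1 r (rgM k' hw (by norm_num) (by norm_num)) (rgM le_rfl le_rfl (by norm_num) (by norm_num)) (rgM s.r0.le hr (by norm_num) (by norm_num)))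
        rw [s1qpF_v s] at c
        rw [dk_qp s (kU_pin s.r0 s.r1 s.bd s.l0.le (t_pin_dn s s.w0 (by linarith))
          (t_pin_up s (by linarith))) (bU_pin s.r0 s.r1 s.bd s.l0.le (t_pin_dn s s.w0 (by linarith))
          (t_pin_up s (by linarith)))]
        nlinarith
    · have c := pos3_one (k_s1q0AF w 1 r (rgM s.w0 k (by norm_num) (by norm_num)) (rgM le_rfl le_rfl (by norm_num) (by norm_num)) (rgM s.r0.le hr (by norm_num) (by norm_num)))
      rw [s1q0F_v s] at c
      rw [dk_q0 s (kU_lin s.r0 s.r1 s.bd s.l0.le (by linarith))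
        (bU_lin s.r0 s.r1 s.bd s.l0.le (by linarith))]
      exact mul_nonneg s.w0 c.le
  · subst hw
    rw [h.us01' s hl.le]
    refine mul_nonneg s.r0.le ?_
    rcases le_total lam (23 / 25) with k | k
    · have c := pos3_one (k_s1bBF 1 lam r (rgM le_rfl le_rfl (by norm_num) (by norm_num)) (rgM s.l0.le k (by norm_num) (by norm_num)) (rgM s.r0.le hr (by norm_num) (by norm_num)))
      rw [s1bF_v s] at c
      exact c.le
    · have hB : (C1d r lam (-1)).cB = 0 := by
        show LAM (lam * r) * bL (lam * r) r lam (-sg1 (-1) r) = 0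
        rw [bL_zero s.r0 s.r1 s.bd (by linarith)]
        ring
      have c := pos3_one (k_s1qbBF 1 lam r (rgM le_rfl le_rfl (by norm_num) (by norm_num)) (rgM k hl.le (by norm_num) (by norm_num)) (rgM s.r0.le hr (by norm_num) (by norm_num)))
      rw [s1qbF_v s] at c
      rw [hB, dk_qp s (kU_pin s.r0 s.r1 s.bd s.l0.le (t_pin_dn s s.w0 (by linarith))
          (t_pin_up s (by linarith))) (bU_pin s.r0 s.r1 s.bd s.l0.le (t_pin_dn s s.w0 (by linarith))
          (t_pin_up s (by linarith)))]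
      have c2 := mul_nonneg he (mul_nonneg (mul_nonneg (sub_nonneg.2 hl.le) (sub_nonneg.2 hl.le)) c.le)
      nlinarith

theorem w32F (h : Nod .far T (lam * r)) (s : Scl r lam w) : 0 ≤ usN .far T (lam * r) 3 2 (1 + r * w) := by
  rw [h.us32 s, sub_self, zero_add]
  refine mul_nonneg s.r0.le ?_
  rcases s.c with ⟨hl, hw, hr⟩ | ⟨hw, hl, hr, he⟩
  · subst hl
    rcases le_total (7 / 20) w with k | k
    · have c := pos3_one (k_s1wAF w 1 r (rgM k hw (by norm_num) (by norm_num)) (rgM le_rfl le_rfl (by norm_num) (by norm_num)) (rgM s.r0.le hr (by norm_num) (by norm_num)))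
      rw [s1wF_v s] at c
      exact c.le
    · have c := pos3_one (k_s1wqAF w 1 r (rgM s.w0 k (by norm_num) (by norm_num)) (rgM le_rfl le_rfl (by norm_num) (by norm_num)) (rgM s.r0.le hr (by norm_num) (by norm_num)))
      rw [← s1wqF_v s (by linarith)]
      exact mul_nonneg s.w0 c.le
  · subst hw
    have c := pos3_one (k_s1wBF 1 lam r (rgM le_rfl le_rfl (by norm_num) (by norm_num)) (rgM s.l0.le hl.le (by norm_num) (by norm_num)) (rgM s.r0.le hr (by norm_num) (by norm_num)))
    rw [s1wF_v s] at c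
    exact c.le

theorem w00N (h : Nod .near T (lam * r)) (s : Scl r lam w) : 0 ≤ usN .near T (lam * r) 0 0 (r * w) := by
  rw [h.us00 s]
  refine mul_nonneg s.r0.le ?_
  rcases s.c with ⟨hl, hw, hr⟩ | ⟨hw, hl, hr, he⟩
  · subst hl
    rcases le_total (7 / 20) w with k | k
    · have c := pos3_one (k_s0c1AN w 1 r (rgM k hw (by norm_num) (by norm_num)) (rgM le_rfl le_rfl (by norm_num) (by norm_num)) (rgM s.r0.le hr (by norm_num) (by norm_num)))
      rw [s0c1N_v s] at c
      exact c.le
    · have c := pos3_one (k_s0qc1AN w 1 r (rgM s.w0 k (by norm_num) (by norm_num)) (rgM le_rfl le_rfl (by norm_num) (by norm_num)) (rgM s.r0.le hr (by norm_num) (by norm_num)))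
      rw [← s0qc1N_v s (by linarith)]
      exact mul_nonneg s.w0 c.le
  · subst hw
    have c := pos3_one (k_s0c1BN 1 lam r (rgM le_rfl le_rfl (by norm_num) (by norm_num)) (rgM s.l0.le hl.le (by norm_num) (by norm_num)) (rgM s.r0.le hr (by norm_num) (by norm_num)))
    rw [s0c1N_v s] at c
    exact c.le

theorem w30N (h : Nod .near T (lam * r)) (s : Scl r lam w) : 0 ≤ usN .near T (lam * r) 3 0 (r * w) := by
  rw [h.us30 s]
  refine mul_nonneg s.r0.le ?_
  rcases s.c with ⟨hl, hw, hr⟩ | ⟨hw, hl, hr, he⟩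
  · subst hl
    rcases le_total (7 / 20) w with k | k
    · have c := pos3_one (k_s0WAN w 1 r (rgM k hw (by norm_num) (by norm_num)) (rgM le_rfl le_rfl (by norm_num) (by norm_num)) (rgM s.r0.le hr (by norm_num) (by norm_num)))
      rw [s0WN_v s] at c
      exact c.le
    · have c := pos3_one (k_s0qWAN w 1 r (rgM s.w0 k (by norm_num) (by norm_num)) (rgM le_rfl le_rfl (by norm_num) (by norm_num)) (rgM s.r0.le hr (by norm_num) (by norm_num)))
      rw [← s0qWN_v s (by linarith)]
      exact mul_nonneg s.w0 c.le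
  · subst hw
    have c := pos3_one (k_s0WBN 1 lam r (rgM le_rfl le_rfl (by norm_num) (by norm_num)) (rgM s.l0.le hl.le (by norm_num) (by norm_num)) (rgM s.r0.le hr (by norm_num) (by norm_num)))
    rw [s0WN_v s] at c
    exact c.le

theorem w40N (h : Nod .near T (lam * r)) (s : Scl r lam w) : 0 ≤ usN .near T (lam * r) 4 0 (r * w) := by
  rw [h.us40 s]
  refine mul_nonneg s.r0.le ?_
  rcases s.c with ⟨hl, hw, hr⟩ | ⟨hw, hl, hr, he⟩
  · subst hl
    rcases le_total (7 / 20) w with k | k
    · have c := pos3_one (k_s0nAN w 1 r (rgM k hw (by norm_num) (by norm_num)) (rgM le_rfl le_rfl (by norm_num) (by norm_num)) (rgM s.r0.le hr (by norm_num) (by norm_num)))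
      rw [s0nN_v s] at c
      exact c.le
    · have c := pos3_one (k_s0pAN w 1 r (rgM s.w0 k (by norm_num) (by norm_num)) (rgM le_rfl le_rfl (by norm_num) (by norm_num)) (rgM s.r0.le hr (by norm_num) (by norm_num)))
      rw [s0pN_v s (by linarith)]
      have := xiq_nn s
      have := s.w0
      have := s.r0
      refine add_nonneg (mul_nonneg (mul_nonneg (by positivity) s.w0) (by linarith)) (mul_nonneg s.r0.le c.le)
  · subst hw
    have c := pos3_one (k_s0nBN 1 lam r (rgM le_rfl le_rfl (by norm_num) (by norm_num)) (rgM s.l0.le hl.le (by norm_num) (by norm_num)) (rgM s.r0.le hr (by norm_num) (by norm_num)))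
    rw [s0nN_v s] at c
    exact c.le

theorem w50N (h : Nod .near T (lam * r)) (s : Scl r lam w) (k : 7 / 20 * lam ≤ w) :
    0 ≤ usN .near T (lam * r) 5 0 (r * w) := by
  rw [h.us50 s]
  refine mul_nonneg s.r0.le ?_
  rcases s.c with ⟨hl, hw, hr⟩ | ⟨hw, hl, hr, he⟩
  · subst hl
    have c := pos3_one (k_s05AN w 1 r (rgM (by linarith : (7 : ℝ) / 20 ≤ w) hw (by norm_num) (by norm_num)) (rgM le_rfl le_rfl (by norm_num) (by norm_num)) (rgM s.r0.le hr (by norm_num) (by norm_num)))
    rw [s05N_v s] at c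
    exact c.le
  · subst hw
    have c := pos3_one (k_s05BN 1 lam r (rgM le_rfl le_rfl (by norm_num) (by norm_num)) (rgM s.l0.le hl.le (by norm_num) (by norm_num)) (rgM s.r0.le hr (by norm_num) (by norm_num)))
    rw [s05N_v s] at c
    exact c.le

theorem f50N (h : Nod .near T (lam * r)) (s : Scl r lam w) (hl : lam = 1) (k : w ≤ 7 / 20) :
    0 ≤ us2 (1 - lam * r) (μv .near (lam * r)) 0 (r * w) (crv T.D.P 5 0 (r * w))
        (T.R .near 5 0 (r * w) (1 - lam * r)) (T.RL 5 0 (r * w) (1 - lam * r)) +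
      1 / 5 * (lam * r) * gl2 (1 - lam * r) (μv .near (lam * r)) 0 (r * w) (crv T.D.P 5 0 (r * w))
        (T.R .near 5 0 (r * w) (1 - lam * r)) (T.RL 5 0 (r * w) (1 - lam * r)) := by
  obtain ⟨hX, hA, hL⟩ := h.val50 s
  refine flat_win s (h.us50 s) hX hA hL ?_
  subst hl
  have hr : r ≤ 1 / 40 := by linarith [s.e1]
  have c := pos3_one (k_s0f5AN w 1 r (rgM s.w0 k (by norm_num) (by norm_num)) (rgM le_rfl le_rfl (by norm_num) (by norm_num)) (rgM s.r0.le hr (by norm_num) (by norm_num)))
  rw [s0f5N_v s] at c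
  exact c.le

theorem w01N (h : Nod .near T (lam * r)) (s : Scl r lam w) (hw0 : 0 < w) :
    0 ≤ usN .near T (lam * r) 0 1 (1 + r * -w) := by
  have he := (eh_pos s.e0 s.e1').le
  have tw := sg1_dn s.r0 s.w0 s.v1
  rcases s.c with ⟨hl, hw, hr⟩ | ⟨hw, hl, hr, he'⟩
  · have hB : (C1d r lam (-w)).cB = 0 := by
      show LAM (lam * r) * bL (lam * r) r lam (-sg1 (-w) r) = 0
      rw [bL_zero s.r0 s.r1 s.bd (by linarith)]
      ring
    rw [h.us01 s hw0 (by linarith) hB]
    refine mul_nonneg s.r0.le (mul_nonneg he (mul_nonneg (by linarith) (mul_nonneg s.r0.le ?_)))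
    subst hl
    rcases le_total (9 / 20) w with k | k
    · rcases le_total w (17 / 20) with k' | k'
      · have c := pos3_one (k_s1dkAN w 1 r (rgM k k' (by norm_num) (by norm_num)) (rgM le_rfl le_rfl (by norm_num) (by norm_num)) (rgM s.r0.le hr (by norm_num) (by norm_num)))
        rw [s1dkN_v s] at c
        exact c.le
      · have c := pos3_one (k_s1qpAN w 1 r (rgM k' hw (by norm_num) (by norm_num)) (rgM le_rfl le_rfl (by norm_num) (by norm_num)) (rgM s.r0.le hr (by norm_num) (by norm_num)))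
        rw [s1qpN_v s] at c
        rw [dk_qp s (kU_pin s.r0 s.r1 s.bd s.l0.le (t_pin_dn s s.w0 (by linarith))
          (t_pin_up s (by linarith))) (bU_pin s.r0 s.r1 s.bd s.l0.le (t_pin_dn s s.w0 (by linarith))
          (t_pin_up s (by linarith)))]
        nlinarith
    · have c := pos3_one (k_s1q0AN w 1 r (rgM s.w0 k (by norm_num) (by norm_num)) (rgM le_rfl le_rfl (by norm_num) (by norm_num)) (rgM s.r0.le hr (by norm_num) (by norm_num)))
      rw [s1q0N_v s] at c
      rw [dk_q0 s (kU_lin s.r0 s.r1 s.bd s.l0.le (by linarith))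
        (bU_lin s.r0 s.r1 s.bd s.l0.le (by linarith))]
      exact mul_nonneg s.w0 c.le
  · subst hw
    rw [h.us01' s hl.le]
    refine mul_nonneg s.r0.le ?_
    rcases le_total lam (23 / 25) with k | k
    · have c := pos3_one (k_s1bBN 1 lam r (rgM le_rfl le_rfl (by norm_num) (by norm_num)) (rgM s.l0.le k (by norm_num) (by norm_num)) (rgM s.r0.le hr (by norm_num) (by norm_num)))
      rw [s1bN_v s] at c
      exact c.le
    · have hB : (C1d r lam (-1)).cB = 0 := by
        show LAM (lam * r) * bL (lam * r) r lam (-sg1 (-1) r) = 0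
        rw [bL_zero s.r0 s.r1 s.bd (by linarith)]
        ring
      have c := pos3_one (k_s1qbBN 1 lam r (rgM le_rfl le_rfl (by norm_num) (by norm_num)) (rgM k hl.le (by norm_num) (by norm_num)) (rgM s.r0.le hr (by norm_num) (by norm_num)))
      rw [s1qbN_v s] at c
      rw [hB, dk_qp s (kU_pin s.r0 s.r1 s.bd s.l0.le (t_pin_dn s s.w0 (by linarith))
          (t_pin_up s (by linarith))) (bU_pin s.r0 s.r1 s.bd s.l0.le (t_pin_dn s s.w0 (by linarith))
          (t_pin_up s (by linarith)))]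
      have c2 := mul_nonneg he (mul_nonneg (mul_nonneg (sub_nonneg.2 hl.le) (sub_nonneg.2 hl.le)) c.le)
      nlinarith

theorem w32N (h : Nod .near T (lam * r)) (s : Scl r lam w) : 0 ≤ usN .near T (lam * r) 3 2 (1 + r * w) := by
  rw [h.us32 s, sub_self, zero_add]
  refine mul_nonneg s.r0.le ?_
  rcases s.c with ⟨hl, hw, hr⟩ | ⟨hw, hl, hr, he⟩
  · subst hl
    rcases le_total (7 / 20) w with k | k
    · have c := pos3_one (k_s1wAN w 1 r (rgM k hw (by norm_num) (by norm_num)) (rgM le_rfl le_rfl (by norm_num) (by norm_num)) (rgM s.r0.le hr (by norm_num) (by norm_num)))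
      rw [s1wN_v s] at c
      exact c.le
    · have c := pos3_one (k_s1wqAN w 1 r (rgM s.w0 k (by norm_num) (by norm_num)) (rgM le_rfl le_rfl (by norm_num) (by norm_num)) (rgM s.r0.le hr (by norm_num) (by norm_num)))
      rw [← s1wqN_v s (by linarith)]
      exact mul_nonneg s.w0 c.le
  · subst hw
    have c := pos3_one (k_s1wBN 1 lam r (rgM le_rfl le_rfl (by norm_num) (by norm_num)) (rgM s.l0.le hl.le (by norm_num) (by norm_num)) (rgM s.r0.le hr (by norm_num) (by norm_num)))
    rw [s1wN_v s] at c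
    exact c.le


end Pool.Agent.Strip051.G.IE1.Tab.W
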