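import Pool.Agent.Strip051.G.IE1.FxWHF
import Pool.Agent.Strip051.G.IE1.FxWHN
import Pool.Agent.Strip051.G.IE1.FxWT

/-! # The windows at the floor near `x = 1` (generated) -/

set_option linter.all false

namespace Pool.Agent.Strip051.G.IE1.Tab.W

open Pool.Agent.Strip051.PB Pool.Agent.Strip051.PB.Fx Pool.Agent.StripNear Pool.Agent.Strip051.LC
open Pool.Agent.Strip051.LC.E1
open Pool.Agent.Strip051.LC.E0.G (om qw cc1 xi1 sg1 cc3 xi3 sg3 xiw)
open Pool.Agent.Strip051.LC.E1.G hiding mu g1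

variable {T : Tbs 7} {r lam w : ℝ}

theorem befg_w (hw : r * w ≤ 3 / 40) : befg.v (1 + r * w) (1 - lam * r) = 1 + r * bhF r lam w := by
  rw [befg_f, if_pos (by linarith)]
  unfold bhF
  ring

theorem h02F (h : Nod .far T (lam * r)) (s : Scl r lam w) {a : ℝ}
    (hg : 0 ≤ gl2 (1 - lam * r) (μv .far (lam * r)) 2 (1 + r * w) (crv T.D.P 0 2 (1 + r * w))
      (T.R .far 0 2 (1 + r * w) (1 - lam * r)) (T.RL 0 2 (1 + r * w) (1 - lam * r)))
    (ha : alfg.v (1 + r * (w - 7 / 20 * lam)) (1 - lam * r) ≤ a) :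
    NHi T.D (1 - lam * r) (μv .far (lam * r)) (T.R .far) T.RL (7 / 20 * (lam * r)) (1 / 5 * (lam * r))
      (1 + 3 / 2 * (lam * r)) 0 2 (1 + r * w) a := by
  have hX : crv T.D.P 0 2 (1 + r * w) = 1 / 2 + r * xi1 w r := by
    rw [h.x01 2 (by linarith [s.v0]) s.v1', xi1_h]
  refine high_win s (h.us02 s) hX hg (xi1_up_np s.w0 s.v0) ha ?_
  rcases s.c with ⟨hl, hw, hr⟩ | ⟨hw, hl, hr, he⟩
  · subst hl
    have c := pos3_one (k_s1hAF w 1 r (rgM s.w0 hw (by norm_num) (by norm_num)) (rgM le_rfl le_rfl (by norm_num) (by norm_num)) (rgM s.r0.le hr (by norm_num) (by norm_num)))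
    rw [s1hF_v s] at c
    exact c.le
  · subst hw
    have c := pos3_one (k_s1hBF 1 lam r (rgM le_rfl le_rfl (by norm_num) (by norm_num)) (rgM s.l0.le hl.le (by norm_num) (by norm_num)) (rgM s.r0.le hr (by norm_num) (by norm_num)))
    rw [s1hF_v s] at c
    exact c.le

theorem n02F (h : Nod .far T (lam * r)) (s : Scl r lam w)
    (hum : 1 - (1 / 2 - 7 / 4 * (lam * r)) ^ 2 - 3 / 4 * (1 + r * w) ^ 2 ≤ 0) :
    NNr (1 - lam * r) (μv .far (lam * r)) (7 / 20 * (lam * r)) (1 / 5 * (lam * r)) 2 (1 + r * w)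
      (crv T.D.P 0 2 (1 + r * w)) (T.R .far 0 2 (1 + r * w) (1 - lam * r))
      (T.RL 0 2 (1 + r * w) (1 - lam * r)) (befg.v (1 + r * w) (1 - lam * r)) := by
  have hX : crv T.D.P 0 2 (1 + r * w) = 1 / 2 + r * xi1 w r := by
    rw [h.x01 2 (by linarith [s.v0]) s.v1', xi1_h]
  have v := h.n02 _ s.v0 s.v1'
  rw [befg_w (by linarith [s.v1])]
  refine near_win s (h.us02 s) hX (v.valR (C1u_h s.r0)) (v.valL (C1u_h s.r0) hX) ?_
  have hs : sumF.v w lam r ≤ 0 := by
    rw [← sumF_v] at hum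
    by_contra hc
    push Not at hc
    have := mul_pos s.r0 hc
    linarith
  rcases s.c with ⟨hl, hw, hr⟩ | ⟨hw, hl, hr, he⟩
  · subst hl
    have c := pos3_two (k_s1nc1AF w 1 r (rgM s.w0 hw (by norm_num) (by norm_num)) (rgM le_rfl le_rfl (by norm_num) (by norm_num)) (rgM s.r0.le hr (by norm_num) (by norm_num))) hs
    rw [s1nc1F_v s] at c
    exact c.le
  · subst hw
    rcases le_total (1 / 8) lam with k | k
    · have c := pos3_one (k_s1nc1BF 1 lam r (rgM le_rfl le_rfl (by norm_num) (by norm_num)) (rgM k hl.le (by norm_num) (by norm_num)) (rgM s.r0.le hr (by norm_num) (by norm_num)))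
      rw [s1nc1F_v s] at c
      exact c.le
    · have ca := pos3_one (k_s1naBF 1 lam r (rgM le_rfl le_rfl (by norm_num) (by norm_num)) (rgM s.l0.le k (by norm_num) (by norm_num)) (rgM s.r0.le hr (by norm_num) (by norm_num)))
      have cb := pos3_one (k_s1nbBF 1 lam r (rgM le_rfl le_rfl (by norm_num) (by norm_num)) (rgM s.l0.le k (by norm_num) (by norm_num)) (rgM s.r0.le hr (by norm_num) (by norm_num)))
      have c := add_nonneg (mul_nonneg s.l0.le ca.le) (mul_nonneg s.r0.le cb.le)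
      rw [← s1n_split s, s1nc1F_v s] at c
      exact c

theorem n32F (h : Nod .far T (lam * r)) (s : Scl r lam w)
    (hum : 1 - (1 / 2 - 7 / 4 * (lam * r)) ^ 2 - 3 / 4 * (1 + r * w) ^ 2 ≤ 0) :
    NNr (1 - lam * r) (μv .far (lam * r)) (7 / 20 * (lam * r)) (1 / 5 * (lam * r)) 2 (1 + r * w)
      (crv T.D.P 3 2 (1 + r * w)) (T.R .far 3 2 (1 + r * w) (1 - lam * r))
      (T.RL 3 2 (1 + r * w) (1 - lam * r)) (befg.v (1 + r * w) (1 - lam * r)) := by
  have hX : crv T.D.P 3 2 (1 + r * w) = 1 / 2 + r * xiw w r := by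
    rw [h.x32 (by linarith [s.v0]) s.v1', xiw_h]
  have v := h.n32 _ s.v0 s.v1'
  rw [befg_w (by linarith [s.v1])]
  refine near_win s (h.us32 s) hX (v.valR (W2_h s.r0)) (v.valL (W2_h s.r0) hX) ?_
  have hs : sumF.v w lam r ≤ 0 := by
    rw [← sumF_v] at hum
    by_contra hc
    push Not at hc
    have := mul_pos s.r0 hc
    linarith
  rcases s.c with ⟨hl, hw, hr⟩ | ⟨hw, hl, hr, he⟩
  · subst hl
    have c := pos3_two (k_s1nWAF w 1 r (rgM s.w0 hw (by norm_num) (by norm_num)) (rgM le_rfl le_rfl (by norm_num) (by norm_num)) (rgM s.r0.le hr (by norm_num) (by norm_num))) hs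
    rw [s1nWF_v s] at c
    exact c.le
  · subst hw
    have c := pos3_one (k_s1nWBF 1 lam r (rgM le_rfl le_rfl (by norm_num) (by norm_num)) (rgM s.l0.le hl.le (by norm_num) (by norm_num)) (rgM s.r0.le hr (by norm_num) (by norm_num)))
    rw [s1nWF_v s] at c
    exact c.le

theorem r72F (h : Nod .far T (lam * r)) (s : Scl r lam w) {b : ℝ}
    (hg : 0 ≤ gl2 (1 - lam * r) (μv .far (lam * r)) 2 (1 + r * w) (crv T.D.P 7 2 (1 + r * w))
      (T.R .far 7 2 (1 + r * w) (1 - lam * r)) (T.RL 7 2 (1 + r * w) (1 - lam * r)))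
    (hum : 1 - (1 / 2 - 7 / 4 * (lam * r)) ^ 2 - 3 / 4 * (1 + r * w + 7 / 20 * (lam * r)) ^ 2 ≤ 0)
    (hD : 1 + 3 / 2 * (lam * r) ≤ crv T.D.P 7 2 (1 + r * w))
    (hb : b ≤ befg.v (1 + r * w + 7 / 20 * (lam * r)) (1 - lam * r)) :
    NFar (1 - lam * r) (μv .far (lam * r)) (7 / 20 * (lam * r)) (1 / 5 * (lam * r))
      (1 + 3 / 2 * (lam * r)) 2 (1 + r * w) (crv T.D.P 7 2 (1 + r * w))
      (T.R .far 7 2 (1 + r * w) (1 - lam * r)) (T.RL 7 2 (1 + r * w) (1 - lam * r)) b := by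
  have hX : crv T.D.P 7 2 (1 + r * w) = 3 / 2 + r * xi3 w r := by
    rw [h.x71 2 (by linarith [s.v0]) s.v1', xi3_h]
  have e0 := s.e0
  have e1 := s.e1
  have v0 := s.v0
  have v1 := s.v1
  rw [show 1 + r * w + 7 / 20 * (lam * r) = 1 + r * (w + 7 / 20 * lam) by ring,
    befg_w (by nlinarith)] at hb
  refine far_win s (h.us72 s) hX hg hD hb ?_
  have hs : sumfF.v w lam r ≤ 0 := by
    rw [← sumfF_v] at hum
    by_contra hc
    push Not at hc
    have := mul_pos s.r0 hc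
    linarith
  rcases s.c with ⟨hl, hw, hr⟩ | ⟨hw, hl, hr, he⟩
  · subst hl
    have c := pos3_two (k_s1rAF w 1 r (rgM s.w0 hw (by norm_num) (by norm_num)) (rgM le_rfl le_rfl (by norm_num) (by norm_num)) (rgM s.r0.le hr (by norm_num) (by norm_num))) hs
    rw [s1rF_v s] at c
    exact c.le
  · subst hw
    rcases le_total (1 / 8) lam with k | k
    · have c := pos3_one (k_s1rBF 1 lam r (rgM le_rfl le_rfl (by norm_num) (by norm_num)) (rgM k hl.le (by norm_num) (by norm_num)) (rgM s.r0.le hr (by norm_num) (by norm_num)))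
      rw [s1rF_v s] at c
      exact c.le
    · have ca := pos3_one (k_s1raBF 1 lam r (rgM le_rfl le_rfl (by norm_num) (by norm_num)) (rgM s.l0.le k (by norm_num) (by norm_num)) (rgM s.r0.le hr (by norm_num) (by norm_num)))
      have cb := pos3_one (k_s1rbBF 1 lam r (rgM le_rfl le_rfl (by norm_num) (by norm_num)) (rgM s.l0.le k (by norm_num) (by norm_num)) (rgM s.r0.le hr (by norm_num) (by norm_num)))
      have c := add_nonneg (mul_nonneg s.l0.le ca.le) (mul_nonneg s.r0.le cb.le)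
      rw [← s1r_split s, s1rF_v s] at c
      exact c

theorem beng_w (hw0 : 0 ≤ r * w) (hw : r * w ≤ 3 / 40) :
    beng.v (1 + r * w) (1 - lam * r) = 1 + r * bhN r lam w := by
  rw [beng_f]
  unfold bhN
  split_ifs with h1 h2
  · have : r * w = 0 := le_antisymm (by linarith) hw0
    linear_combination (-(17 / 10)) * this
  · ring
  · exfalso
    linarith

theorem h02N (h : Nod .near T (lam * r)) (s : Scl r lam w) {a : ℝ}
    (hg : 0 ≤ gl2 (1 - lam * r) (μv .near (lam * r)) 2 (1 + r * w) (crv T.D.P 0 2 (1 + r * w))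
      (T.R .near 0 2 (1 + r * w) (1 - lam * r)) (T.RL 0 2 (1 + r * w) (1 - lam * r)))
    (ha : alng.v (1 + r * (w - 7 / 20 * lam)) (1 - lam * r) ≤ a) :
    NHi T.D (1 - lam * r) (μv .near (lam * r)) (T.R .near) T.RL (7 / 20 * (lam * r)) (1 / 5 * (lam * r))
      (1 + 3 / 2 * (lam * r)) 0 2 (1 + r * w) a := by
  have hX : crv T.D.P 0 2 (1 + r * w) = 1 / 2 + r * xi1 w r := by
    rw [h.x01 2 (by linarith [s.v0]) s.v1', xi1_h]
  refine high_win s (h.us02 s) hX hg (xi1_up_np s.w0 s.v0) ha ?_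
  rcases s.c with ⟨hl, hw, hr⟩ | ⟨hw, hl, hr, he⟩
  · subst hl
    have c := pos3_one (k_s1hAN w 1 r (rgM s.w0 hw (by norm_num) (by norm_num)) (rgM le_rfl le_rfl (by norm_num) (by norm_num)) (rgM s.r0.le hr (by norm_num) (by norm_num)))
    rw [s1hN_v s] at c
    exact c.le
  · subst hw
    have c := pos3_one (k_s1hBN 1 lam r (rgM le_rfl le_rfl (by norm_num) (by norm_num)) (rgM s.l0.le hl.le (by norm_num) (by norm_num)) (rgM s.r0.le hr (by norm_num) (by norm_num)))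
    rw [s1hN_v s] at c
    exact c.le

theorem n02N (h : Nod .near T (lam * r)) (s : Scl r lam w)
    (hum : 1 - (1 / 2 - 7 / 4 * (lam * r)) ^ 2 - 3 / 4 * (1 + r * w) ^ 2 ≤ 0) :
    NNr (1 - lam * r) (μv .near (lam * r)) (7 / 20 * (lam * r)) (1 / 5 * (lam * r)) 2 (1 + r * w)
      (crv T.D.P 0 2 (1 + r * w)) (T.R .near 0 2 (1 + r * w) (1 - lam * r))
      (T.RL 0 2 (1 + r * w) (1 - lam * r)) (beng.v (1 + r * w) (1 - lam * r)) := by
  have hX : crv T.D.P 0 2 (1 + r * w) = 1 / 2 + r * xi1 w r := by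
    rw [h.x01 2 (by linarith [s.v0]) s.v1', xi1_h]
  have v := h.n02 _ s.v0 s.v1'
  rw [beng_w s.v0 (by linarith [s.v1])]
  refine near_win s (h.us02 s) hX (v.valR (C1u_h s.r0)) (v.valL (C1u_h s.r0) hX) ?_
  have hs : sumN.v w lam r ≤ 0 := by
    rw [← sumN_v] at hum
    by_contra hc
    push Not at hc
    have := mul_pos s.r0 hc
    linarith
  rcases s.c with ⟨hl, hw, hr⟩ | ⟨hw, hl, hr, he⟩
  · subst hl
    have c := pos3_two (k_s1nc1AN w 1 r (rgM s.w0 hw (by norm_num) (by norm_num)) (rgM le_rfl le_rfl (by norm_num) (by norm_num)) (rgM s.r0.le hr (by norm_num) (by norm_num))) hs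
    rw [s1nc1N_v s] at c
    exact c.le
  · subst hw
    have c := pos3_one (k_s1nc1BN 1 lam r (rgM le_rfl le_rfl (by norm_num) (by norm_num)) (rgM s.l0.le hl.le (by norm_num) (by norm_num)) (rgM s.r0.le hr (by norm_num) (by norm_num)))
    rw [s1nc1N_v s] at c
    exact c.le

theorem n32N (h : Nod .near T (lam * r)) (s : Scl r lam w)
    (hum : 1 - (1 / 2 - 7 / 4 * (lam * r)) ^ 2 - 3 / 4 * (1 + r * w) ^ 2 ≤ 0) :
    NNr (1 - lam * r) (μv .near (lam * r)) (7 / 20 * (lam * r)) (1 / 5 * (lam * r)) 2 (1 + r * w)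
      (crv T.D.P 3 2 (1 + r * w)) (T.R .near 3 2 (1 + r * w) (1 - lam * r))
      (T.RL 3 2 (1 + r * w) (1 - lam * r)) (beng.v (1 + r * w) (1 - lam * r)) := by
  have hX : crv T.D.P 3 2 (1 + r * w) = 1 / 2 + r * xiw w r := by
    rw [h.x32 (by linarith [s.v0]) s.v1', xiw_h]
  have v := h.n32 _ s.v0 s.v1'
  rw [beng_w s.v0 (by linarith [s.v1])]
  refine near_win s (h.us32 s) hX (v.valR (W2_h s.r0)) (v.valL (W2_h s.r0) hX) ?_
  have hs : sumN.v w lam r ≤ 0 := by
    rw [← sumN_v] at hum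
    by_contra hc
    push Not at hc
    have := mul_pos s.r0 hc
    linarith
  rcases s.c with ⟨hl, hw, hr⟩ | ⟨hw, hl, hr, he⟩
  · subst hl
    have c := pos3_two (k_s1nWAN w 1 r (rgM s.w0 hw (by norm_num) (by norm_num)) (rgM le_rfl le_rfl (by norm_num) (by norm_num)) (rgM s.r0.le hr (by norm_num) (by norm_num))) hs
    rw [s1nWN_v s] at c
    exact c.le
  · subst hw
    have c := pos3_one (k_s1nWBN 1 lam r (rgM le_rfl le_rfl (by norm_num) (by norm_num)) (rgM s.l0.le hl.le (by norm_num) (by norm_num)) (rgM s.r0.le hr (by norm_num) (by norm_num)))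
    rw [s1nWN_v s] at c
    exact c.le

theorem r72N (h : Nod .near T (lam * r)) (s : Scl r lam w) {b : ℝ}
    (hg : 0 ≤ gl2 (1 - lam * r) (μv .near (lam * r)) 2 (1 + r * w) (crv T.D.P 7 2 (1 + r * w))
      (T.R .near 7 2 (1 + r * w) (1 - lam * r)) (T.RL 7 2 (1 + r * w) (1 - lam * r)))
    (hum : 1 - (1 / 2 - 7 / 4 * (lam * r)) ^ 2 - 3 / 4 * (1 + r * w + 7 / 20 * (lam * r)) ^ 2 ≤ 0)
    (hD : 1 + 3 / 2 * (lam * r) ≤ crv T.D.P 7 2 (1 + r * w))
    (hb : b ≤ beng.v (1 + r * w + 7 / 20 * (lam * r)) (1 - lam * r)) :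
    NFar (1 - lam * r) (μv .near (lam * r)) (7 / 20 * (lam * r)) (1 / 5 * (lam * r))
      (1 + 3 / 2 * (lam * r)) 2 (1 + r * w) (crv T.D.P 7 2 (1 + r * w))
      (T.R .near 7 2 (1 + r * w) (1 - lam * r)) (T.RL 7 2 (1 + r * w) (1 - lam * r)) b := by
  have hX : crv T.D.P 7 2 (1 + r * w) = 3 / 2 + r * xi3 w r := by
    rw [h.x71 2 (by linarith [s.v0]) s.v1', xi3_h]
  have e0 := s.e0
  have e1 := s.e1
  have v0 := s.v0
  have v1 := s.v1
  rw [show 1 + r * w + 7 / 20 * (lam * r) = 1 + r * (w + 7 / 20 * lam) by ring,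
    beng_w (by nlinarith) (by nlinarith)] at hb
  refine far_win s (h.us72 s) hX hg hD hb ?_
  have hs : sumfN.v w lam r ≤ 0 := by
    rw [← sumfN_v] at hum
    by_contra hc
    push Not at hc
    have := mul_pos s.r0 hc
    linarith
  rcases s.c with ⟨hl, hw, hr⟩ | ⟨hw, hl, hr, he⟩
  · subst hl
    have c := pos3_two (k_s1rAN w 1 r (rgM s.w0 hw (by norm_num) (by norm_num)) (rgM le_rfl le_rfl (by norm_num) (by norm_num)) (rgM s.r0.le hr (by norm_num) (by norm_num))) hs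
    rw [s1rN_v s] at c
    exact c.le
  · subst hw
    have c := pos3_one (k_s1rBN 1 lam r (rgM le_rfl le_rfl (by norm_num) (by norm_num)) (rgM s.l0.le hl.le (by norm_num) (by norm_num)) (rgM s.r0.le hr (by norm_num) (by norm_num)))
    rw [s1rN_v s] at c
    exact c.le


end Pool.Agent.Strip051.G.IE1.Tab.W
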