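import Pool.Agent.Strip051.G.IE1.Fact
import Pool.Agent.Strip051.LC.E1.NodP

/-! # The values of the tables in the windows (generated) -/

set_option linter.all false

namespace Pool.Agent.Strip051.G.IE1.Tab

open Pool.Agent.Strip051.PB Pool.Agent.StripNear Pool.Agent.StripSquare Pool.Agent.Strip051.LC
open Pool.Agent.Strip051.LC.E1 Pool.Agent.Strip051.LC.E1.G
open Pool.Agent.Strip051.LC.E0.G (om qw cc1 xi1 sg1 cc3 xi3 sg3 xiw dwl dwu)

section

variable {e : ℝ}

theorem gsv (e : ℝ) : gsg.v (1 - e) = gs e := by rw [gsg_v, gs_eq]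

theorem lamv (e : ℝ) : lamg.v (1 - e) = LAM e := by
  rw [lam_v, gs_eq]
  rfl

theorem cpv (e : ℝ) : cpg.v (1 - e) = eh e + 1 / 2 := by
  rw [cp_v, gs_eq]
  unfold eh ig
  ring

theorem ehv (e : ℝ) : ehg.v (1 - e) = eh e := by
  rw [eh_v, gs_eq]
  unfold eh ig
  ring

theorem muv (e : ℝ) : mug3.v (1 - e) = G.mu e := by rw [mu_v, mu_eq]

theorem lmuv (e : ℝ) : lmug.v (1 - e) = 1 + LAM e * G.mu e := by rw [lmu_v, lamv, mu_eq]

theorem b0v (e : ℝ) : b0g.v (1 - e) = B0 e := by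
  have h : b0g.v (1 - e) = (1 - gs e) / eh e := by
    rw [b0_v, gs_eq]
    congr 1
    unfold eh ig
    ring
  rw [h]
  unfold B0 LAM
  rw [mul_div_mul_left _ _ (by norm_num : (2 : ℝ) ≠ 0)]

theorem hhv (x : ℝ) : hhg.v x = Real.sqrt 3 / 2 := by
  simp only [hhg]
  push_cast
  rw [show (3 : ℝ) / 4 = 3 / 2 ^ 2 by norm_num, Real.sqrt_div' _ (by norm_num), Real.sqrt_sq (by norm_num)]

/-- all functions of the gap as rational functions of one parameter -/
theorem hpar (e0 : 0 < e) (e1 : e ≤ 1 / 40) : ∃ h : ℝ, 1 < h ∧ h < 3 / 2 ∧ eh e = h - 1 / 2 ∧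
    e = (3 / 2 - h) / (h ^ 2 + 3 / 4) ∧ gs e = 3 / 4 * (1 + 2 * h) / (h ^ 2 + 3 / 4) - 1 / 2 ∧
    ig e = (h ^ 2 + 3 / 4) / (3 / 4 * (1 + 2 * h)) := by
  have s1 := gs_sub e0.le (by linarith : e ≤ 1)
  have i1 := @ig_mul e
  have g1 := gs_ge e0.le (by linarith : e ≤ 1)
  have g2 := @gs_le e e0.le
  set h := (3 / 2 - 3 / 4 * e) * ig e with hh
  have r1 : h * (gs e + 1 / 2) = 3 / 2 - 3 / 4 * e := by
    rw [hh, mul_assoc, i1, mul_one]
  have r2 : gs e = 1 / 2 + e * h := by linarith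
  have r3 : e * (h ^ 2 + 3 / 4) = 3 / 2 - h := by
    rw [r2] at r1
    nlinarith
  have hD : (0 : ℝ) < h ^ 2 + 3 / 4 := by positivity
  have hlt : h < 3 / 2 := by nlinarith
  have hgt : 1 < h := by
    by_contra hc
    push Not at hc
    nlinarith
  have e2 : e = (3 / 2 - h) / (h ^ 2 + 3 / 4) := by
    rw [eq_div_iff hD.ne']
    exact r3
  have e3 : gs e + 1 / 2 = 3 / 4 * (1 + 2 * h) / (h ^ 2 + 3 / 4) := by
    rw [eq_div_iff hD.ne', r2]
    nlinarith
  refine ⟨h, hgt, hlt, ?_, e2, by linarith, ?_⟩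
  · unfold eh
    rw [← hh]
  · have : ig e = 1 / (gs e + 1 / 2) := rfl
    rw [this, e3, one_div_div]

/-- all functions of the gap as rational functions of one parameter, in factored form -/
theorem hpar2 (e0 : 0 < e) (e1 : e ≤ 1 / 40) : ∃ h : ℝ, 1 < h ∧ h < 3 / 2 ∧ eh e = (2 * h - 1) / 2 ∧
    e = (3 - 2 * h) / (2 * (h ^ 2 + 3 / 4)) ∧ gs e = (3 + 12 * h - 4 * h ^ 2) / (8 * (h ^ 2 + 3 / 4)) ∧
    ig e = 4 * (h ^ 2 + 3 / 4) / (3 * (2 * h + 1)) ∧ q1 e = h ^ 2 + 3 / 4 := by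
  obtain ⟨h, h1, h2, a1, a2, a3, a4⟩ := hpar e0 e1
  have hD : h ^ 2 + 3 / 4 ≠ 0 := by positivity
  have hE : (2 : ℝ) * h + 1 ≠ 0 := by linarith
  refine ⟨h, h1, h2, by rw [a1]; ring, ?_, ?_, ?_, ?_⟩
  · rw [a2]
    field_simp
  · rw [a3]
    field_simp
    ring
  · rw [a4]
    field_simp
    ring
  · unfold q1
    rw [a1, a4]
    field_simp
    ring

section

variable {h : ℝ}

theorem hz1 (a2 : e = (3 - 2 * h) / (2 * (h ^ 2 + 3 / 4)))
    (a3 : gs e = (3 + 12 * h - 4 * h ^ 2) / (8 * (h ^ 2 + 3 / 4))) :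
    gs e + (1 - e) / 2 = 2 * h / (h ^ 2 + 3 / 4) := by
  have hD : h ^ 2 + 3 / 4 ≠ 0 := by positivity
  rw [a3, a2]
  field_simp
  ring

theorem hz2 (a1 : eh e = (2 * h - 1) / 2) (a2 : e = (3 - 2 * h) / (2 * (h ^ 2 + 3 / 4))) :
    1 + e * eh e = 2 * h / (h ^ 2 + 3 / 4) := by
  have hD : h ^ 2 + 3 / 4 ≠ 0 := by positivity
  rw [a1, a2]
  field_simp
  ring

theorem hz3 (a2 : e = (3 - 2 * h) / (2 * (h ^ 2 + 3 / 4)))
    (a3 : gs e = (3 + 12 * h - 4 * h ^ 2) / (8 * (h ^ 2 + 3 / 4))) :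
    2 * gs e + (1 - e) = 4 * h / (h ^ 2 + 3 / 4) := by
  have := hz1 a2 a3
  rw [show 2 * gs e + (1 - e) = 2 * (gs e + (1 - e) / 2) by ring, this]
  ring

theorem hz4 (a1 : eh e = (2 * h - 1) / 2) : eh e + 1 = (2 * h + 1) / 2 := by
  rw [a1]
  ring

theorem hz5 (a1 : eh e = (2 * h - 1) / 2) : eh e + 1 / 2 = h := by
  rw [a1]
  ring

end

theorem zsv (e0 : 0 < e) (e1 : e ≤ 1 / 40) : zsg.v (1 - e) = 1 + eh e := by
  obtain ⟨h, h1, h2, a1, a2, a3, a4, a5⟩ := hpar2 e0 e1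
  simp only [zsg, gsv, cpv, ehv, b0v]
  push_cast
  rw [hz1 a2 a3, add_comm 1 (eh e), hz4 a1]
  clear a1 a3 a4 a5 e0 e1
  subst a2
  have hp : h ≠ 0 := by linarith
  have hD : h ^ 2 + 3 / 4 ≠ 0 := by positivity
  field_simp
  ring

theorem pbv (e : ℝ) : pbg.v (1 - e) = -(B0 e * (eh e + 1 / 2) * ig e) := by
  simp only [pbg, gsv, cpv, ehv, b0v]
  push_cast
  unfold ig
  rw [one_div (gs e + 1 / 2)]

theorem dbv (e0 : 0 < e) (e1 : e ≤ 1 / 40) : dbg.v (1 - e) = pB e := by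
  obtain ⟨h, h1, h2, a1, a2, a3, a4, a5⟩ := hpar2 e0 e1
  simp only [dbg, gsv, cpv, ehv, b0v]
  push_cast
  unfold pB
  rw [hz3 a2 a3, hz5 a1, a5]
  have hp : h ≠ 0 := by linarith
  have hD : h ^ 2 + 3 / 4 ≠ 0 := by positivity
  generalize B0 e = B
  field_simp
  ring

/-- the pin of the unit kernel in closed form -/
theorem pKh {h : ℝ} (a1 : eh e = (2 * h - 1) / 2)
    (a2 : e = (3 - 2 * h) / (2 * (h ^ 2 + 3 / 4)))
    (a3 : gs e = (3 + 12 * h - 4 * h ^ 2) / (8 * (h ^ 2 + 3 / 4))) (a5 : q1 e = h ^ 2 + 3 / 4) :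
    pK e = ((h ^ 2 + 3 / 4) / 2 - (2 * h + 1) / 2 * (9 / 4 - 3 / 4 * ((3 - 2 * h) / (2 * (h ^ 2 + 3 / 4)))) -
      (2 * h - 1) / 2 * (2 * h)) / ((2 * h - 1) * ((3 + 12 * h - 4 * h ^ 2) / (8 * (h ^ 2 + 3 / 4)))) := by
  unfold pK
  rw [hz4 a1, a1, a3, a5, ← a2]
  congr 1
  all_goals ring

theorem dav (e0 : 0 < e) (e1 : e ≤ 1 / 40) : dag.v (1 - e) = pK e := by
  obtain ⟨h, h1, h2, a1, a2, a3, a4, a5⟩ := hpar2 e0 e1
  simp only [dag, dag_2, dag_8, dag_14, dag_23, gsv, cpv, ehv, b0v]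
  push_cast
  rw [pKh a1 a2 a3 a5]
  simp only [sub_sub_cancel]
  rw [hz2 a1 a2, hz5 a1, a1, a3]
  clear a1 a3 a4 a5 e0 e1
  subst a2
  have hp : h ≠ 0 := by linarith
  have hD : h ^ 2 + 3 / 4 ≠ 0 := by positivity
  have hN : 3 + 12 * h - 4 * h ^ 2 ≠ 0 := by nlinarith
  have hG : 2 * h - 1 ≠ 0 := by linarith
  field_simp
  ring

theorem dWh {h : ℝ} (a1 : eh e = (2 * h - 1) / 2)
    (a2 : e = (3 - 2 * h) / (2 * (h ^ 2 + 3 / 4)))
    (a3 : gs e = (3 + 12 * h - 4 * h ^ 2) / (8 * (h ^ 2 + 3 / 4))) (a5 : q1 e = h ^ 2 + 3 / 4) :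
    dW e = (3 / 4 + h / 2 + (2 * h - (h ^ 2 + 3 / 4) - 2 * ((3 - 2 * h) / (2 * (h ^ 2 + 3 / 4))) * h * (h ^ 2 + 3 / 4)) / 2) /
      ((3 + 12 * h - 4 * h ^ 2) / (8 * (h ^ 2 + 3 / 4)) * (2 * h - 1)) := by
  unfold dW
  rw [hz5 a1, a1, a3, a5, ← a2]
  congr 1
  all_goals ring

theorem ptv (e0 : 0 < e) (e1 : e ≤ 1 / 40) : ptg.v (1 - e) = vW3 e := by
  obtain ⟨h, h1, h2, a1, a2, a3, a4, a5⟩ := hpar2 e0 e1
  simp only [ptg, gsv, cpv, ehv, b0v]
  push_cast
  unfold vW3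
  rw [pKh a1 a2 a3 a5, dWh a1 a2 a3 a5, hz4 a1, hz5 a1, a1, a5]
  clear a1 a3 a4 a5 a2
  have hp : h ≠ 0 := by linarith
  have hD : h ^ 2 + 3 / 4 ≠ 0 := by positivity
  have hN : 3 + 12 * h - 4 * h ^ 2 ≠ 0 := by nlinarith
  have hG : 2 * h - 1 ≠ 0 := by linarith
  have hH : 2 * h + 1 ≠ 0 := by linarith
  generalize hNe : 3 + 12 * h - 4 * h ^ 2 = N at *
  generalize hGe : 2 * h - 1 = K at *
  generalize hHe : 2 * h + 1 = H at *
  generalize hDe : h ^ 2 + 3 / 4 = D at *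
  field_simp
  subst hNe hGe hHe hDe
  ring

theorem piv (e0 : 0 < e) (e1 : e ≤ 1 / 40) : pig.v (1 - e) = vW0 e := by
  obtain ⟨h, h1, h2, a1, a2, a3, a4, a5⟩ := hpar2 e0 e1
  simp only [pig, gsv, cpv, ehv, b0v]
  push_cast
  unfold vW0
  have hi : gs e + 1 / 2 = 1 / ig e := by
    unfold ig
    rw [one_div_one_div]
  rw [pKh a1 a2 a3 a5, dWh a1 a2 a3 a5, hz4 a1, hz5 a1, hi, a1, a5, a4, a3]
  clear a1 a3 a4 a5 e0 e1 hi
  subst a2
  have hp : h ≠ 0 := by linarith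
  have hD : h ^ 2 + 3 / 4 ≠ 0 := by positivity
  have hN : 3 + 12 * h - 4 * h ^ 2 ≠ 0 := by nlinarith
  have hG : 2 * h - 1 ≠ 0 := by linarith
  have hH : 2 * h + 1 ≠ 0 := by linarith
  generalize hNe : 3 + 12 * h - 4 * h ^ 2 = N at *
  generalize hGe : 2 * h - 1 = K at *
  generalize hHe : 2 * h + 1 = H at *
  generalize hDe : h ^ 2 + 3 / 4 = D at *
  field_simp
  subst hNe hGe hHe hDe
  ring

theorem hgn {x : ℝ} (h : x ≤ 0) : hg x = 0 := max_eq_right h

theorem hgp {x : ℝ} (h : 0 ≤ x) : hg x = x := max_eq_left h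

theorem s3pos : 0 < Real.sqrt 3 / 2 := by positivity

theorem s3le : Real.sqrt 3 / 2 ≤ 1 := by
  have : Real.sqrt 3 ≤ 2 := by
    rw [Real.sqrt_le_left (by norm_num)]
    norm_num
  linarith

theorem s3lt : Real.sqrt 3 / 2 ≤ 8661 / 10000 := by
  have : Real.sqrt 3 ≤ 8661 / 5000 := by
    rw [Real.sqrt_le_left (by norm_num)]
    norm_num
  linarith

/-- an argument below `5 / 2 e` is small -/
theorem s3u {u : ℝ} (h : u ≤ 1 / 16) : Real.sqrt 3 / 2 * u ≤ 1 / 16 := by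
  have h1 := s3pos
  have h2 := s3le
  rcases le_total u 0 with h3 | h3
  · nlinarith
  · nlinarith

theorem s3sq : (Real.sqrt 3 / 2) ^ 2 = 3 / 4 := by
  rw [div_pow, Real.sq_sqrt (by norm_num)]
  norm_num


theorem rkv' (e0 : 0 < e) (e1 : e ≤ 1 / 40) (u : ℝ) : rkg.v u (1 - e) = 1 + kU' 1 e u := by
  simp only [rkg, rkg_3, rkg_5, rkg_30, rkg_31, rkg_36, rkg_50, hhv, dav e0 e1, dbv e0 e1, zsv e0 e1, b0v]
  push_cast
  simp only [sub_sub_cancel]
  simp only [kU', kU, uR, u1, u2, u3, u4, u5, u6, u7, mul_one]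
  have hA : u ≤ 5 / 2 * e → Real.sqrt 3 / 2 * u ≤ 1 / 16 := fun h => s3u (by linarith)
  generalize Real.sqrt 3 / 2 = s at *
  generalize pK e = P
  generalize eh e = E
  generalize B0 e = B
  split_ifs with g0 g1 g2 g3 g4 g5 g6
  · have hB := hA (by linarith)
    have q0 : hg (u - e) = 0 := hgn (by linarith)
    have q1 : hg (u - 8 / 5 * e) = 0 := hgn (by linarith)
    have q2 : hg (u - 11 / 5 * e) = 0 := hgn (by linarith)
    have q3 : hg (u - 5 / 2 * e) = 0 := hgn (by linarith)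
    have q4 : hg (s * u - 1 / 16) = 0 := hgn (by linarith)
    have q5 : hg (s * u - 1 / 10) = 0 := hgn (by linarith)
    have q6 : hg (s * u - 1 / 5) = 0 := hgn (by linarith)
    simp only [q0, q1, q2, q3, q4, q5, q6]
    ring
  · have hB := hA (by linarith)
    have q0 : hg (u - e) = u - e := hgp (by linarith)
    have q1 : hg (u - 8 / 5 * e) = 0 := hgn (by linarith)
    have q2 : hg (u - 11 / 5 * e) = 0 := hgn (by linarith)
    have q3 : hg (u - 5 / 2 * e) = 0 := hgn (by linarith)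
    have q4 : hg (s * u - 1 / 16) = 0 := hgn (by linarith)
    have q5 : hg (s * u - 1 / 10) = 0 := hgn (by linarith)
    have q6 : hg (s * u - 1 / 5) = 0 := hgn (by linarith)
    simp only [q0, q1, q2, q3, q4, q5, q6]
    ring
  · have hB := hA (by linarith)
    have q0 : hg (u - e) = u - e := hgp (by linarith)
    have q1 : hg (u - 8 / 5 * e) = u - 8 / 5 * e := hgp (by linarith)
    have q2 : hg (u - 11 / 5 * e) = 0 := hgn (by linarith)
    have q3 : hg (u - 5 / 2 * e) = 0 := hgn (by linarith)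
    have q4 : hg (s * u - 1 / 16) = 0 := hgn (by linarith)
    have q5 : hg (s * u - 1 / 10) = 0 := hgn (by linarith)
    have q6 : hg (s * u - 1 / 5) = 0 := hgn (by linarith)
    simp only [q0, q1, q2, q3, q4, q5, q6]
    ring
  · have hB := hA (by linarith)
    have q0 : hg (u - e) = u - e := hgp (by linarith)
    have q1 : hg (u - 8 / 5 * e) = u - 8 / 5 * e := hgp (by linarith)
    have q2 : hg (u - 11 / 5 * e) = u - 11 / 5 * e := hgp (by linarith)
    have q3 : hg (u - 5 / 2 * e) = 0 := hgn (by linarith)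
    have q4 : hg (s * u - 1 / 16) = 0 := hgn (by linarith)
    have q5 : hg (s * u - 1 / 10) = 0 := hgn (by linarith)
    have q6 : hg (s * u - 1 / 5) = 0 := hgn (by linarith)
    simp only [q0, q1, q2, q3, q4, q5, q6]
    ring
  · have q0 : hg (u - e) = u - e := hgp (by linarith)
    have q1 : hg (u - 8 / 5 * e) = u - 8 / 5 * e := hgp (by linarith)
    have q2 : hg (u - 11 / 5 * e) = u - 11 / 5 * e := hgp (by linarith)
    have q3 : hg (u - 5 / 2 * e) = u - 5 / 2 * e := hgp (by linarith)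
    have q4 : hg (s * u - 1 / 16) = 0 := hgn (by linarith)
    have q5 : hg (s * u - 1 / 10) = 0 := hgn (by linarith)
    have q6 : hg (s * u - 1 / 5) = 0 := hgn (by linarith)
    simp only [q0, q1, q2, q3, q4, q5, q6]
    ring
  · have q0 : hg (u - e) = u - e := hgp (by linarith)
    have q1 : hg (u - 8 / 5 * e) = u - 8 / 5 * e := hgp (by linarith)
    have q2 : hg (u - 11 / 5 * e) = u - 11 / 5 * e := hgp (by linarith)
    have q3 : hg (u - 5 / 2 * e) = u - 5 / 2 * e := hgp (by linarith)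
    have q4 : hg (s * u - 1 / 16) = s * u - 1 / 16 := hgp (by linarith)
    have q5 : hg (s * u - 1 / 10) = 0 := hgn (by linarith)
    have q6 : hg (s * u - 1 / 5) = 0 := hgn (by linarith)
    simp only [q0, q1, q2, q3, q4, q5, q6]
    ring
  · have q0 : hg (u - e) = u - e := hgp (by linarith)
    have q1 : hg (u - 8 / 5 * e) = u - 8 / 5 * e := hgp (by linarith)
    have q2 : hg (u - 11 / 5 * e) = u - 11 / 5 * e := hgp (by linarith)
    have q3 : hg (u - 5 / 2 * e) = u - 5 / 2 * e := hgp (by linarith)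
    have q4 : hg (s * u - 1 / 16) = s * u - 1 / 16 := hgp (by linarith)
    have q5 : hg (s * u - 1 / 10) = s * u - 1 / 10 := hgp (by linarith)
    have q6 : hg (s * u - 1 / 5) = 0 := hgn (by linarith)
    simp only [q0, q1, q2, q3, q4, q5, q6]
    ring
  · have q0 : hg (u - e) = u - e := hgp (by linarith)
    have q1 : hg (u - 8 / 5 * e) = u - 8 / 5 * e := hgp (by linarith)
    have q2 : hg (u - 11 / 5 * e) = u - 11 / 5 * e := hgp (by linarith)
    have q3 : hg (u - 5 / 2 * e) = u - 5 / 2 * e := hgp (by linarith)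
    have q4 : hg (s * u - 1 / 16) = s * u - 1 / 16 := hgp (by linarith)
    have q5 : hg (s * u - 1 / 10) = s * u - 1 / 10 := hgp (by linarith)
    have q6 : hg (s * u - 1 / 5) = s * u - 1 / 5 := hgp (by linarith)
    simp only [q0, q1, q2, q3, q4, q5, q6]
    ring

theorem rkv (e0 : 0 < e) (e1 : e ≤ 1 / 40) {u : ℝ} (h : Real.sqrt 3 / 2 * u ≤ 1 / 5) :
    rkg.v u (1 - e) = 1 + kU 1 e u := by
  rw [rkv' e0 e1]
  unfold kU'
  simp only [mul_one]
  rw [hgn (by linarith : Real.sqrt 3 / 2 * u - 1 / 5 ≤ 0)]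
  ring

theorem rbv' (e0 : 0 < e) (e1 : e ≤ 1 / 40) (u : ℝ) : rbg.v u (1 - e) = B0 e + bU' 1 e u := by
  simp only [rbg, rbg_3, rbg_5, rbg_10, rbg_12, rbg_21, rbg_33, rbg_34, rbg_37, rbg_44, rbg_51, hhv, dav e0 e1, dbv e0 e1, zsv e0 e1, b0v]
  push_cast
  simp only [sub_sub_cancel]
  simp only [bU', bU, uR, u1, u2, u3, u4, u5, u6, u7, mul_one]
  have hA : u ≤ 5 / 2 * e → Real.sqrt 3 / 2 * u ≤ 1 / 16 := fun h => s3u (by linarith)
  generalize Real.sqrt 3 / 2 = s at *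
  generalize pB e = P
  generalize eh e = E
  generalize B0 e = B
  split_ifs with g0 g1 g2 g3 g4 g5 g6
  · have hB := hA (by linarith)
    have q0 : hg (u - e) = 0 := hgn (by linarith)
    have q1 : hg (u - 8 / 5 * e) = 0 := hgn (by linarith)
    have q2 : hg (u - 11 / 5 * e) = 0 := hgn (by linarith)
    have q3 : hg (u - 5 / 2 * e) = 0 := hgn (by linarith)
    have q4 : hg (s * u - 1 / 16) = 0 := hgn (by linarith)
    have q5 : hg (s * u - 1 / 10) = 0 := hgn (by linarith)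
    have q6 : hg (s * u - 1 / 5) = 0 := hgn (by linarith)
    simp only [q0, q1, q2, q3, q4, q5, q6]
    ring
  · have hB := hA (by linarith)
    have q0 : hg (u - e) = u - e := hgp (by linarith)
    have q1 : hg (u - 8 / 5 * e) = 0 := hgn (by linarith)
    have q2 : hg (u - 11 / 5 * e) = 0 := hgn (by linarith)
    have q3 : hg (u - 5 / 2 * e) = 0 := hgn (by linarith)
    have q4 : hg (s * u - 1 / 16) = 0 := hgn (by linarith)
    have q5 : hg (s * u - 1 / 10) = 0 := hgn (by linarith)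
    have q6 : hg (s * u - 1 / 5) = 0 := hgn (by linarith)
    simp only [q0, q1, q2, q3, q4, q5, q6]
    ring
  · have hB := hA (by linarith)
    have q0 : hg (u - e) = u - e := hgp (by linarith)
    have q1 : hg (u - 8 / 5 * e) = u - 8 / 5 * e := hgp (by linarith)
    have q2 : hg (u - 11 / 5 * e) = 0 := hgn (by linarith)
    have q3 : hg (u - 5 / 2 * e) = 0 := hgn (by linarith)
    have q4 : hg (s * u - 1 / 16) = 0 := hgn (by linarith)
    have q5 : hg (s * u - 1 / 10) = 0 := hgn (by linarith)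
    have q6 : hg (s * u - 1 / 5) = 0 := hgn (by linarith)
    simp only [q0, q1, q2, q3, q4, q5, q6]
    ring
  · have hB := hA (by linarith)
    have q0 : hg (u - e) = u - e := hgp (by linarith)
    have q1 : hg (u - 8 / 5 * e) = u - 8 / 5 * e := hgp (by linarith)
    have q2 : hg (u - 11 / 5 * e) = u - 11 / 5 * e := hgp (by linarith)
    have q3 : hg (u - 5 / 2 * e) = 0 := hgn (by linarith)
    have q4 : hg (s * u - 1 / 16) = 0 := hgn (by linarith)
    have q5 : hg (s * u - 1 / 10) = 0 := hgn (by linarith)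
    have q6 : hg (s * u - 1 / 5) = 0 := hgn (by linarith)
    simp only [q0, q1, q2, q3, q4, q5, q6]
    ring
  · have q0 : hg (u - e) = u - e := hgp (by linarith)
    have q1 : hg (u - 8 / 5 * e) = u - 8 / 5 * e := hgp (by linarith)
    have q2 : hg (u - 11 / 5 * e) = u - 11 / 5 * e := hgp (by linarith)
    have q3 : hg (u - 5 / 2 * e) = u - 5 / 2 * e := hgp (by linarith)
    have q4 : hg (s * u - 1 / 16) = 0 := hgn (by linarith)
    have q5 : hg (s * u - 1 / 10) = 0 := hgn (by linarith)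
    have q6 : hg (s * u - 1 / 5) = 0 := hgn (by linarith)
    simp only [q0, q1, q2, q3, q4, q5, q6]
    ring
  · have q0 : hg (u - e) = u - e := hgp (by linarith)
    have q1 : hg (u - 8 / 5 * e) = u - 8 / 5 * e := hgp (by linarith)
    have q2 : hg (u - 11 / 5 * e) = u - 11 / 5 * e := hgp (by linarith)
    have q3 : hg (u - 5 / 2 * e) = u - 5 / 2 * e := hgp (by linarith)
    have q4 : hg (s * u - 1 / 16) = s * u - 1 / 16 := hgp (by linarith)
    have q5 : hg (s * u - 1 / 10) = 0 := hgn (by linarith)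
    have q6 : hg (s * u - 1 / 5) = 0 := hgn (by linarith)
    simp only [q0, q1, q2, q3, q4, q5, q6]
    ring
  · have q0 : hg (u - e) = u - e := hgp (by linarith)
    have q1 : hg (u - 8 / 5 * e) = u - 8 / 5 * e := hgp (by linarith)
    have q2 : hg (u - 11 / 5 * e) = u - 11 / 5 * e := hgp (by linarith)
    have q3 : hg (u - 5 / 2 * e) = u - 5 / 2 * e := hgp (by linarith)
    have q4 : hg (s * u - 1 / 16) = s * u - 1 / 16 := hgp (by linarith)
    have q5 : hg (s * u - 1 / 10) = s * u - 1 / 10 := hgp (by linarith)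
    have q6 : hg (s * u - 1 / 5) = 0 := hgn (by linarith)
    simp only [q0, q1, q2, q3, q4, q5, q6]
    ring
  · have q0 : hg (u - e) = u - e := hgp (by linarith)
    have q1 : hg (u - 8 / 5 * e) = u - 8 / 5 * e := hgp (by linarith)
    have q2 : hg (u - 11 / 5 * e) = u - 11 / 5 * e := hgp (by linarith)
    have q3 : hg (u - 5 / 2 * e) = u - 5 / 2 * e := hgp (by linarith)
    have q4 : hg (s * u - 1 / 16) = s * u - 1 / 16 := hgp (by linarith)
    have q5 : hg (s * u - 1 / 10) = s * u - 1 / 10 := hgp (by linarith)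
    have q6 : hg (s * u - 1 / 5) = s * u - 1 / 5 := hgp (by linarith)
    simp only [q0, q1, q2, q3, q4, q5, q6]
    ring

theorem rbv (e0 : 0 < e) (e1 : e ≤ 1 / 40) {u : ℝ} (h : Real.sqrt 3 / 2 * u ≤ 1 / 5) :
    rbg.v u (1 - e) = B0 e + bU 1 e u := by
  rw [rbv' e0 e1]
  unfold bU'
  simp only [mul_one]
  rw [hgn (by linarith : Real.sqrt 3 / 2 * u - 1 / 5 ≤ 0)]
  ring

theorem alv' (e0 : 0 < e) (e1 : e ≤ 1 / 40) {u : ℝ} (hu : Real.sqrt 3 / 2 * u ≤ 1 / 4) :
    alg.v u (1 - e) = aL' e 1 e u := by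
  simp only [alg, alg_3, alg_5, alg_7, alg_15, k167_50g, hhv]
  push_cast
  simp only [sub_sub_cancel]
  unfold aL' aL
  simp only [mul_one]
  have hA : u ≤ 167 / 50 * e → Real.sqrt 3 / 2 * u ≤ 29 / 400 := fun h => by
    have h1 := s3pos
    have h2 := s3lt
    rcases le_total u 0 with h3 | h3
    · nlinarith
    · nlinarith [mul_le_mul_of_nonneg_left h h1.le]
  generalize Real.sqrt 3 / 2 = s at *
  rcases le_or_gt (u - 167 / 50 * e) 0 with g0 | g0
  · rw [if_pos g0]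
    have hB := hA (by linarith)
    have q0 : hg (u - 167 / 50 * e) = 0 := hgn (by linarith)
    have q1 : hg (s * u - 29 / 400) = 0 := hgn (by linarith)
    have q2 : hg (s * u - 9 / 100) = 0 := hgn (by linarith)
    have q3 : hg (s * u - 3 / 25) = 0 := hgn (by linarith)
    have q4 : hg (s * u - 9 / 50) = 0 := hgn (by linarith)
    simp only [q0, q1, q2, q3, q4]
    ring
  · rw [if_neg (not_le.2 g0)]
    rcases le_or_gt (s * u - 29 / 400) 0 with g1 | g1
    · rw [if_pos g1]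
      have q0 : hg (u - 167 / 50 * e) = u - 167 / 50 * e := hgp (by linarith)
      have q1 : hg (s * u - 29 / 400) = 0 := hgn (by linarith)
      have q2 : hg (s * u - 9 / 100) = 0 := hgn (by linarith)
      have q3 : hg (s * u - 3 / 25) = 0 := hgn (by linarith)
      have q4 : hg (s * u - 9 / 50) = 0 := hgn (by linarith)
      simp only [q0, q1, q2, q3, q4]
      ring
    · rw [if_neg (not_le.2 g1)]
      rcases le_or_gt (s * u - 9 / 100) 0 with g2 | g2
      · rw [if_pos g2]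
        have q0 : hg (u - 167 / 50 * e) = u - 167 / 50 * e := hgp (by linarith)
        have q1 : hg (s * u - 29 / 400) = s * u - 29 / 400 := hgp (by linarith)
        have q2 : hg (s * u - 9 / 100) = 0 := hgn (by linarith)
        have q3 : hg (s * u - 3 / 25) = 0 := hgn (by linarith)
        have q4 : hg (s * u - 9 / 50) = 0 := hgn (by linarith)
        simp only [q0, q1, q2, q3, q4]
        ring
      · rw [if_neg (not_le.2 g2)]
        rcases le_or_gt (s * u - 3 / 25) 0 with g3 | g3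
        · rw [if_pos g3]
          have q0 : hg (u - 167 / 50 * e) = u - 167 / 50 * e := hgp (by linarith)
          have q1 : hg (s * u - 29 / 400) = s * u - 29 / 400 := hgp (by linarith)
          have q2 : hg (s * u - 9 / 100) = s * u - 9 / 100 := hgp (by linarith)
          have q3 : hg (s * u - 3 / 25) = 0 := hgn (by linarith)
          have q4 : hg (s * u - 9 / 50) = 0 := hgn (by linarith)
          simp only [q0, q1, q2, q3, q4]
          ring
        · rw [if_neg (not_le.2 g3)]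
          rcases le_or_gt (s * u - 9 / 50) 0 with g4 | g4
          · rw [if_pos g4]
            have q0 : hg (u - 167 / 50 * e) = u - 167 / 50 * e := hgp (by linarith)
            have q1 : hg (s * u - 29 / 400) = s * u - 29 / 400 := hgp (by linarith)
            have q2 : hg (s * u - 9 / 100) = s * u - 9 / 100 := hgp (by linarith)
            have q3 : hg (s * u - 3 / 25) = s * u - 3 / 25 := hgp (by linarith)
            have q4 : hg (s * u - 9 / 50) = 0 := hgn (by linarith)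
            simp only [q0, q1, q2, q3, q4]
            ring
          · rw [if_neg (not_le.2 g4)]
            rcases le_or_gt (s * u - 1 / 4) 0 with g5 | g5
            · rw [if_pos g5]
              have q0 : hg (u - 167 / 50 * e) = u - 167 / 50 * e := hgp (by linarith)
              have q1 : hg (s * u - 29 / 400) = s * u - 29 / 400 := hgp (by linarith)
              have q2 : hg (s * u - 9 / 100) = s * u - 9 / 100 := hgp (by linarith)
              have q3 : hg (s * u - 3 / 25) = s * u - 3 / 25 := hgp (by linarith)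
              have q4 : hg (s * u - 9 / 50) = s * u - 9 / 50 := hgp (by linarith)
              simp only [q0, q1, q2, q3, q4]
              ring
            · rw [if_neg (not_le.2 g5)]
              exfalso
              linarith

theorem alv (e0 : 0 < e) (e1 : e ≤ 1 / 40) {u : ℝ} (hu : Real.sqrt 3 / 2 * u ≤ 9 / 50) : alg.v u (1 - e) = aL e 1 e u := by
  rw [alv' e0 e1 (by linarith)]
  unfold aL'
  simp only [mul_one]
  rw [hgn (by linarith : Real.sqrt 3 / 2 * u - 9 / 50 ≤ 0)]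
  ring

theorem bev' (e0 : 0 < e) (e1 : e ≤ 1 / 40) {u : ℝ} (hu : Real.sqrt 3 / 2 * u ≤ 1 / 4) :
    beg.v u (1 - e) = bL' e 1 e u := by
  simp only [beg, beg_3, beg_5, beg_7, beg_15, k167_50g, hhv]
  push_cast
  simp only [sub_sub_cancel]
  unfold bL' bL
  simp only [mul_one]
  have hA : u ≤ 167 / 50 * e → Real.sqrt 3 / 2 * u ≤ 29 / 400 := fun h => by
    have h1 := s3pos
    have h2 := s3lt
    rcases le_total u 0 with h3 | h3
    · nlinarith
    · nlinarith [mul_le_mul_of_nonneg_left h h1.le]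
  generalize Real.sqrt 3 / 2 = s at *
  rcases le_or_gt (u - 167 / 50 * e) 0 with g0 | g0
  · rw [if_pos g0]
    have hB := hA (by linarith)
    have q0 : hg (u - 167 / 50 * e) = 0 := hgn (by linarith)
    have q1 : hg (s * u - 29 / 400) = 0 := hgn (by linarith)
    have q2 : hg (s * u - 9 / 100) = 0 := hgn (by linarith)
    have q3 : hg (s * u - 3 / 25) = 0 := hgn (by linarith)
    have q4 : hg (s * u - 9 / 50) = 0 := hgn (by linarith)
    simp only [q0, q1, q2, q3, q4]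
    ring
  · rw [if_neg (not_le.2 g0)]
    rcases le_or_gt (s * u - 29 / 400) 0 with g1 | g1
    · rw [if_pos g1]
      have q0 : hg (u - 167 / 50 * e) = u - 167 / 50 * e := hgp (by linarith)
      have q1 : hg (s * u - 29 / 400) = 0 := hgn (by linarith)
      have q2 : hg (s * u - 9 / 100) = 0 := hgn (by linarith)
      have q3 : hg (s * u - 3 / 25) = 0 := hgn (by linarith)
      have q4 : hg (s * u - 9 / 50) = 0 := hgn (by linarith)
      simp only [q0, q1, q2, q3, q4]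
      ring
    · rw [if_neg (not_le.2 g1)]
      rcases le_or_gt (s * u - 9 / 100) 0 with g2 | g2
      · rw [if_pos g2]
        have q0 : hg (u - 167 / 50 * e) = u - 167 / 50 * e := hgp (by linarith)
        have q1 : hg (s * u - 29 / 400) = s * u - 29 / 400 := hgp (by linarith)
        have q2 : hg (s * u - 9 / 100) = 0 := hgn (by linarith)
        have q3 : hg (s * u - 3 / 25) = 0 := hgn (by linarith)
        have q4 : hg (s * u - 9 / 50) = 0 := hgn (by linarith)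
        simp only [q0, q1, q2, q3, q4]
        ring
      · rw [if_neg (not_le.2 g2)]
        rcases le_or_gt (s * u - 3 / 25) 0 with g3 | g3
        · rw [if_pos g3]
          have q0 : hg (u - 167 / 50 * e) = u - 167 / 50 * e := hgp (by linarith)
          have q1 : hg (s * u - 29 / 400) = s * u - 29 / 400 := hgp (by linarith)
          have q2 : hg (s * u - 9 / 100) = s * u - 9 / 100 := hgp (by linarith)
          have q3 : hg (s * u - 3 / 25) = 0 := hgn (by linarith)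
          have q4 : hg (s * u - 9 / 50) = 0 := hgn (by linarith)
          simp only [q0, q1, q2, q3, q4]
          ring
        · rw [if_neg (not_le.2 g3)]
          rcases le_or_gt (s * u - 9 / 50) 0 with g4 | g4
          · rw [if_pos g4]
            have q0 : hg (u - 167 / 50 * e) = u - 167 / 50 * e := hgp (by linarith)
            have q1 : hg (s * u - 29 / 400) = s * u - 29 / 400 := hgp (by linarith)
            have q2 : hg (s * u - 9 / 100) = s * u - 9 / 100 := hgp (by linarith)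
            have q3 : hg (s * u - 3 / 25) = s * u - 3 / 25 := hgp (by linarith)
            have q4 : hg (s * u - 9 / 50) = 0 := hgn (by linarith)
            simp only [q0, q1, q2, q3, q4]
            ring
          · rw [if_neg (not_le.2 g4)]
            rcases le_or_gt (s * u - 1 / 4) 0 with g5 | g5
            · rw [if_pos g5]
              have q0 : hg (u - 167 / 50 * e) = u - 167 / 50 * e := hgp (by linarith)
              have q1 : hg (s * u - 29 / 400) = s * u - 29 / 400 := hgp (by linarith)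
              have q2 : hg (s * u - 9 / 100) = s * u - 9 / 100 := hgp (by linarith)
              have q3 : hg (s * u - 3 / 25) = s * u - 3 / 25 := hgp (by linarith)
              have q4 : hg (s * u - 9 / 50) = s * u - 9 / 50 := hgp (by linarith)
              simp only [q0, q1, q2, q3, q4]
              ring
            · rw [if_neg (not_le.2 g5)]
              exfalso
              linarith

theorem bev (e0 : 0 < e) (e1 : e ≤ 1 / 40) {u : ℝ} (hu : Real.sqrt 3 / 2 * u ≤ 9 / 50) : beg.v u (1 - e) = bL e 1 e u := by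
  rw [bev' e0 e1 (by linarith)]
  unfold bL'
  simp only [mul_one]
  rw [hgn (by linarith : Real.sqrt 3 / 2 * u - 9 / 50 ≤ 0)]
  ring

/-! ### The arguments of the circle functions -/

theorem a01 {z : ℝ} (h0 : -1 ≤ z) (h1 : z ≤ 1 / 8) : c1g.v (1 + z) - (1 + z) / 2 = -sg1 z 1 := by
  rw [c1g_v, c1n_cc1, cc1_half h0 h1]
  unfold sg1
  ring

theorem a02 {z : ℝ} (h0 : -1 ≤ z) (h1 : z ≤ 1 / 8) : (1 + z) / 2 - c1g.v (1 + z) = sg1 z 1 := by
  have := a01 h0 h1
  linarith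

theorem a02n {z : ℝ} (h0 : -1 ≤ z) (h1 : z ≤ 1 / 8) : (1 + z) / 2 - c1n (1 + z) = sg1 z 1 := by
  have := a02 h0 h1
  rwa [c1g_v] at this

theorem a71 {z : ℝ} (h0 : -1 ≤ z) (h1 : z ≤ 1 / 2) : c3g.v (1 + z) / 3 - (1 + z) / 2 = -sg3 z 1 := by
  rw [c3g_v, c3n_cc3, cc3_half h0 h1]
  unfold sg3
  ring

theorem a72 {z : ℝ} (h0 : -1 ≤ z) (h1 : z ≤ 1 / 2) : (1 + z) / 2 - c3g.v (1 + z) / 3 = sg3 z 1 := by
  have := a71 h0 h1
  linarith

theorem a71' {z : ℝ} (h0 : -1 ≤ z) (h1 : z ≤ 1 / 2) : 1 / 3 * c3g.v (1 + z) - (1 + z) / 2 = -sg3 z 1 := by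
  have := a71 h0 h1
  linarith

theorem a72' {z : ℝ} (h0 : -1 ≤ z) (h1 : z ≤ 1 / 2) : (1 + z) / 2 - 1 / 3 * c3g.v (1 + z) = sg3 z 1 := by
  have := a71 h0 h1
  linarith

theorem b01 {z : ℝ} (h0 : -(1 / 16) < z) (h1 : z < 0) : Real.sqrt 3 / 2 * (-sg1 z 1) ≤ 9 / 50 := by
  have h2 : 1 / 2 ≤ cc1 z 1 := by
    unfold cc1
    refine Real.le_sqrt_of_sq_le ?_
    nlinarith
  have h3 : xi1 z 1 ≤ 3 / 4 * (1 / 16) * 2 := by
    unfold xi1
    rw [← neg_div, div_le_iff₀ (by linarith)]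
    nlinarith
  have h4 : -sg1 z 1 ≤ 1 / 5 := by
    unfold sg1
    linarith
  have h5 := s3lt
  have h6 := s3pos
  rcases le_total (-sg1 z 1) 0 with h7 | h7
  · nlinarith
  · nlinarith

theorem b02 {z : ℝ} (h0 : 0 ≤ z) (h1 : z < 1 / 16) : Real.sqrt 3 / 2 * (sg1 z 1) ≤ 9 / 50 := by
  have h2 : 3 / 8 ≤ cc1 z 1 := by
    unfold cc1
    refine Real.le_sqrt_of_sq_le ?_
    nlinarith
  have h3 : -xi1 z 1 ≤ 1 / 8 := by
    unfold xi1
    rw [neg_neg, div_le_iff₀ (by linarith)]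
    nlinarith
  have h4 : sg1 z 1 ≤ 1 / 5 := by
    unfold sg1
    linarith
  have h5 := s3lt
  have h6 := s3pos
  rcases le_total (sg1 z 1) 0 with h7 | h7
  · nlinarith
  · nlinarith

theorem b71 {z : ℝ} (h0 : -(1 / 16) < z) (h1 : z < 0) : Real.sqrt 3 / 2 * (-sg3 z 1) ≤ 9 / 50 := by
  have h2 : 0 ≤ cc3 z 1 := Real.sqrt_nonneg _
  have h3 : xi3 z 1 ≤ 1 / 8 := by
    unfold xi3
    rw [← neg_div, div_le_iff₀ (by linarith)]
    nlinarith
  have h4 : -sg3 z 1 ≤ 1 / 5 := by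
    unfold sg3
    linarith
  have h5 := s3lt
  have h6 := s3pos
  rcases le_total (-sg3 z 1) 0 with h7 | h7
  · nlinarith
  · nlinarith

theorem b72 {z : ℝ} (h0 : 0 ≤ z) (h1 : z < 1 / 16) : Real.sqrt 3 / 2 * (sg3 z 1) ≤ 9 / 50 := by
  have h2 : 0 ≤ cc3 z 1 := Real.sqrt_nonneg _
  have h3 : -xi3 z 1 ≤ 1 / 8 := by
    unfold xi3
    rw [neg_neg, div_le_iff₀ (by linarith)]
    nlinarith
  have h4 : sg3 z 1 ≤ 1 / 5 := by
    unfold sg3
    linarith
  have h5 := s3lt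
  have h6 := s3pos
  rcases le_total (sg3 z 1) 0 with h7 | h7
  · nlinarith
  · nlinarith

theorem b73 {u : ℝ} (h0 : -(1 / 16) < u) (h1 : u ≤ 0) : Real.sqrt 3 / 2 * (2 / 3 * x3v u 1) ≤ 1 / 4 := by
  have h2 : x3v u 1 ≤ Real.sqrt (3 / 16) := by
    unfold x3v
    refine Real.sqrt_le_sqrt ?_
    nlinarith
  have h3 : Real.sqrt (3 / 16) = Real.sqrt 3 / 4 := by
    rw [show (3 : ℝ) / 16 = 3 / 4 ^ 2 by norm_num, Real.sqrt_div' _ (by norm_num), Real.sqrt_sq (by norm_num)]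
  have h4 : Real.sqrt 3 * Real.sqrt 3 = 3 := Real.mul_self_sqrt (by norm_num)
  have h5 : 0 ≤ Real.sqrt 3 := Real.sqrt_nonneg _
  have h6 : 0 ≤ x3v u 1 := Real.sqrt_nonneg _
  rw [h3] at h2
  nlinarith

/-! ### The positions of the curves -/

theorem p30 {y : ℝ} (h0 : 0 ≤ y) (h1 : y < 1 / 16) : cv3m.v y = 1 + xi1 (-y) 1 := by
  rw [cv3m_v, swn_cc1, cc1_half (by linarith) (by linarith)]
  ring

theorem p31 {z : ℝ} (h0 : -1 ≤ z) (h1 : z ≤ 1) : cv3m.v (1 + z) = 3 / 2 + xiw z 1 := by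
  rw [cv3m_v, swn_c1n, c1n_om (by nlinarith)]
  unfold xiw
  ring

theorem p32 {z : ℝ} (h0 : -1 ≤ z) (h1 : z ≤ 1) : cv3p.v (1 + z) = 1 / 2 + xiw z 1 := by
  rw [cv3p_v, swn_c1n, c1n_om (by nlinarith)]
  unfold xiw
  ring

theorem p33 {u : ℝ} (h0 : -1 ≤ u) (h1 : u ≤ 1 / 8) : cv3r.v (2 + u) = xi1 u 1 := by
  rw [cv3r_v, E1.swn_two, cc1_half h0 h1]
  ring

theorem p53 {u : ℝ} (h0 : -1 ≤ u) (h1 : u ≤ 1 / 8) : cv5r.v (2 + u) = xi1 u 1 + 3 / 20 * (x3v u 1 - xi1 u 1) := by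
  rw [cv5r_v, E1.swn_two, cc1_half h0 h1, E1.c3n_two]
  ring

theorem p63 {u : ℝ} (h0 : -1 ≤ u) (h1 : u ≤ 1 / 8) : cv6r.v (2 + u) = xi1 u 1 + 3 / 5 * (x3v u 1 - xi1 u 1) := by
  rw [cv6r_v, E1.swn_two, cc1_half h0 h1, E1.c3n_two]
  ring

theorem p11 {z : ℝ} (h0 : -(1 / 16) < z) (h1 : z < 0) : cv1m.v (1 + z) = xa z 1 := by
  rw [cv1m_v, swn_c1n, c1n_cc1, c1n_om (y := z) (by nlinarith), cc1_half (by linarith) (by linarith)]
  unfold xa dwl xiw
  ring

theorem p21 {z : ℝ} (h0 : -(1 / 16) < z) (h1 : z < 0) : cv2m.v (1 + z) = xc z 1 := by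
  rw [cv2m_v, swn_c1n, c1n_cc1, c1n_om (y := z) (by nlinarith), cc1_half (by linarith) (by linarith)]
  unfold xc dwl xiw
  ring

theorem p52 {z : ℝ} (h0 : 0 ≤ z) (h1 : z < 1 / 16) : cv5p.v (1 + z) = xb z 1 := by
  rw [cv5p_v, swn_c1n, c1n_om (by nlinarith), c3n_cc3, cc3_half (by linarith) (by linarith)]
  unfold xb dwu xiw
  ring

theorem p62 {z : ℝ} (h0 : 0 ≤ z) (h1 : z < 1 / 16) : cv6p.v (1 + z) = xd z 1 := by
  rw [cv6p_v, swn_c1n, c1n_om (by nlinarith), c3n_cc3, cc3_half (by linarith) (by linarith)]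
  unfold xd dwu xiw
  ring

theorem kf3w0 (e0 : 0 < e) (e1 : e ≤ 1 / 40) {y : ℝ} (h0y : 0 ≤ y) (h1y : y < 1 / 16) : kf3q0.v y (1 - e) = cv3m.v y * (1 + wK0 1 e (y)) := by
  simp only [kf3q0, kf3q0_3, kf3q0_11, kf3q0_39, kf3q0_42, kf3q0_50, kf3q0_55, piv e0 e1, pbv, ptv e0 e1, b0v]
  push_cast
  simp only [sub_sub_cancel]
  have hc : (y - 1 / 16 ≤ 0) := by linarith
  simp only [if_pos hc]
  simp only [wK0, tl, mul_one]
  generalize vW0 e = P
  generalize vW3 e = P3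
  generalize B0 e = B
  rcases le_or_gt (y - e / 2) 0 with g0 | g0
  · skip
    have q0 : hg (y - e / 2) = 0 := hgn (by linarith)
    have q1 : hg (y - e) = 0 := hgn (by linarith)
    have q2 : hg (y - 5 / 2 * e) = 0 := hgn (by linarith)
    simp only [q0, q1, q2]
    split_ifs <;> first | (exfalso; linarith) | ring
  · skip
    rcases le_or_gt (y - e) 0 with g1 | g1
    · skip
      have q0 : hg (y - e / 2) = y - e / 2 := hgp (by linarith)
      have q1 : hg (y - e) = 0 := hgn (by linarith)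
      have q2 : hg (y - 5 / 2 * e) = 0 := hgn (by linarith)
      simp only [q0, q1, q2]
      split_ifs <;> first | (exfalso; linarith) | ring
    · skip
      rcases le_or_gt (y - 5 / 2 * e) 0 with g2 | g2
      · skip
        have q0 : hg (y - e / 2) = y - e / 2 := hgp (by linarith)
        have q1 : hg (y - e) = y - e := hgp (by linarith)
        have q2 : hg (y - 5 / 2 * e) = 0 := hgn (by linarith)
        simp only [q0, q1, q2]
        split_ifs <;> first | (exfalso; linarith) | ring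
      · skip
        have q0 : hg (y - e / 2) = y - e / 2 := hgp (by linarith)
        have q1 : hg (y - e) = y - e := hgp (by linarith)
        have q2 : hg (y - 5 / 2 * e) = y - 5 / 2 * e := hgp (by linarith)
        simp only [q0, q1, q2]
        split_ifs <;> first | (exfalso; linarith) | ring

theorem kf3w1 (e0 : 0 < e) (e1 : e ≤ 1 / 40) {y : ℝ} (h0y : 15 / 16 < y) (h1y : y < 1) : kf3q1.v y (1 - e) = cv3m.v y * (1 + wK1 1 e (1 - y)) := by
  simp only [kf3q1, kf3q1_3, kf3q1_15, kf3q1_30, kf3q1_36, kf3q1_44, kf3q1_50, piv e0 e1, pbv, ptv e0 e1, b0v]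
  push_cast
  simp only [sub_sub_cancel]
  have hc : ¬ (y - 1 + 1 / 16 ≤ 0) := by rw [not_le]; linarith
  simp only [if_neg hc]
  simp only [wK1, tl, mul_one]
  generalize vW0 e = P
  generalize vW3 e = P3
  generalize B0 e = B
  rcases le_or_gt (1 - y - e / 2) 0 with g0 | g0
  · skip
    have q0 : hg (1 - y - e / 2) = 0 := hgn (by linarith)
    have q1 : hg (1 - y - e) = 0 := hgn (by linarith)
    have q2 : hg (1 - y - 5 / 2 * e) = 0 := hgn (by linarith)
    simp only [q0, q1, q2]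
    split_ifs <;> first | (exfalso; linarith) | ring
  · skip
    rcases le_or_gt (1 - y - e) 0 with g1 | g1
    · skip
      have q0 : hg (1 - y - e / 2) = 1 - y - e / 2 := hgp (by linarith)
      have q1 : hg (1 - y - e) = 0 := hgn (by linarith)
      have q2 : hg (1 - y - 5 / 2 * e) = 0 := hgn (by linarith)
      simp only [q0, q1, q2]
      split_ifs <;> first | (exfalso; linarith) | ring
    · skip
      rcases le_or_gt (1 - y - 5 / 2 * e) 0 with g2 | g2
      · skip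
        have q0 : hg (1 - y - e / 2) = 1 - y - e / 2 := hgp (by linarith)
        have q1 : hg (1 - y - e) = 1 - y - e := hgp (by linarith)
        have q2 : hg (1 - y - 5 / 2 * e) = 0 := hgn (by linarith)
        simp only [q0, q1, q2]
        split_ifs <;> first | (exfalso; linarith) | ring
      · skip
        have q0 : hg (1 - y - e / 2) = 1 - y - e / 2 := hgp (by linarith)
        have q1 : hg (1 - y - e) = 1 - y - e := hgp (by linarith)
        have q2 : hg (1 - y - 5 / 2 * e) = 1 - y - 5 / 2 * e := hgp (by linarith)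
        simp only [q0, q1, q2]
        split_ifs <;> first | (exfalso; linarith) | ring

theorem kf3w2 (e0 : 0 < e) (e1 : e ≤ 1 / 40) {y : ℝ} (h0y : 1 ≤ y) (h1y : y < 17 / 16) : kf3q2.v y (1 - e) = cv3p.v y * (1 + wK2 1 e (y - 1)) := by
  simp only [kf3q2, kf3q2_3, kf3q2_33, kf3q2_38, kf3q2_50, kf3q2_57, piv e0 e1, pbv, ptv e0 e1, b0v]
  push_cast
  simp only [sub_sub_cancel]
  have hc : (y - 1 - 1 / 16 ≤ 0) := by linarith
  simp only [if_pos hc]
  simp only [wK2, tl, mul_one]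
  generalize vW0 e = P
  generalize vW3 e = P3
  generalize B0 e = B
  rcases le_or_gt (y - 1 - e / 2) 0 with g0 | g0
  · skip
    have q0 : hg (y - 1 - e / 2) = 0 := hgn (by linarith)
    have q1 : hg (y - 1 - e) = 0 := hgn (by linarith)
    have q2 : hg (y - 1 - 5 / 2 * e) = 0 := hgn (by linarith)
    simp only [q0, q1, q2]
    split_ifs <;> first | (exfalso; linarith) | ring
  · skip
    rcases le_or_gt (y - 1 - e) 0 with g1 | g1
    · skip
      have q0 : hg (y - 1 - e / 2) = y - 1 - e / 2 := hgp (by linarith)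
      have q1 : hg (y - 1 - e) = 0 := hgn (by linarith)
      have q2 : hg (y - 1 - 5 / 2 * e) = 0 := hgn (by linarith)
      simp only [q0, q1, q2]
      split_ifs <;> first | (exfalso; linarith) | ring
    · skip
      rcases le_or_gt (y - 1 - 5 / 2 * e) 0 with g2 | g2
      · skip
        have q0 : hg (y - 1 - e / 2) = y - 1 - e / 2 := hgp (by linarith)
        have q1 : hg (y - 1 - e) = y - 1 - e := hgp (by linarith)
        have q2 : hg (y - 1 - 5 / 2 * e) = 0 := hgn (by linarith)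
        simp only [q0, q1, q2]
        split_ifs <;> first | (exfalso; linarith) | ring
      · skip
        have q0 : hg (y - 1 - e / 2) = y - 1 - e / 2 := hgp (by linarith)
        have q1 : hg (y - 1 - e) = y - 1 - e := hgp (by linarith)
        have q2 : hg (y - 1 - 5 / 2 * e) = y - 1 - 5 / 2 * e := hgp (by linarith)
        simp only [q0, q1, q2]
        split_ifs <;> first | (exfalso; linarith) | ring

theorem kf3w3 (e0 : 0 < e) (e1 : e ≤ 1 / 40) {y : ℝ} (h0y : 31 / 16 < y) (h1y : y ≤ 2) : kf3q3.v y (1 - e) = wK3 1 e (2 - y) := by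
  simp only [kf3q3, kf3q3_3, kf3q3_15, kf3q3_34, kf3q3_37, kf3q3_38, kf3q3_50, kf3q3_55, piv e0 e1, pbv, ptv e0 e1, b0v]
  push_cast
  simp only [sub_sub_cancel]
  have hc : ¬ (y - 2 + 1 / 16 ≤ 0) := by rw [not_le]; linarith
  simp only [if_neg hc]
  simp only [wK3, tl, mul_one]
  generalize vW0 e = P
  generalize vW3 e = P3
  generalize B0 e = B
  rcases le_or_gt (2 - y - e / 2) 0 with g0 | g0
  · skip
    have q0 : hg (2 - y - e / 2) = 0 := hgn (by linarith)
    have q1 : hg (2 - y - e) = 0 := hgn (by linarith)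
    have q2 : hg (2 - y - 5 / 2 * e) = 0 := hgn (by linarith)
    simp only [q0, q1, q2]
    split_ifs <;> first | (exfalso; linarith) | ring
  · skip
    rcases le_or_gt (2 - y - e) 0 with g1 | g1
    · skip
      have q0 : hg (2 - y - e / 2) = 2 - y - e / 2 := hgp (by linarith)
      have q1 : hg (2 - y - e) = 0 := hgn (by linarith)
      have q2 : hg (2 - y - 5 / 2 * e) = 0 := hgn (by linarith)
      simp only [q0, q1, q2]
      split_ifs <;> first | (exfalso; linarith) | ring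
    · skip
      rcases le_or_gt (2 - y - 5 / 2 * e) 0 with g2 | g2
      · skip
        have q0 : hg (2 - y - e / 2) = 2 - y - e / 2 := hgp (by linarith)
        have q1 : hg (2 - y - e) = 2 - y - e := hgp (by linarith)
        have q2 : hg (2 - y - 5 / 2 * e) = 0 := hgn (by linarith)
        simp only [q0, q1, q2]
        split_ifs <;> first | (exfalso; linarith) | ring
      · skip
        have q0 : hg (2 - y - e / 2) = 2 - y - e / 2 := hgp (by linarith)
        have q1 : hg (2 - y - e) = 2 - y - e := hgp (by linarith)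
        have q2 : hg (2 - y - 5 / 2 * e) = 2 - y - 5 / 2 * e := hgp (by linarith)
        simp only [q0, q1, q2]
        split_ifs <;> first | (exfalso; linarith) | ring

theorem kb3w0 (e0 : 0 < e) (e1 : e ≤ 1 / 40) {y : ℝ} (h0y : 0 ≤ y) (h1y : y < 1 / 16) : kb3q0.v y (1 - e) = cv3m.v y * (B0 e + wB0 1 e (y)) := by
  simp only [kb3q0, kb3q0_3, kb3q0_12, kb3q0_41, kb3q0_43, kb3q0_55, kb3q0_60, piv e0 e1, pbv, ptv e0 e1, b0v]
  push_cast
  simp only [sub_sub_cancel]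
  have hc : (y - 1 / 16 ≤ 0) := by linarith
  simp only [if_pos hc]
  simp only [wB0, tl, mul_one]
  generalize vW0 e = P
  generalize vW3 e = P3
  generalize B0 e = B
  rcases le_or_gt (y - e / 2) 0 with g0 | g0
  · skip
    have q0 : hg (y - e / 2) = 0 := hgn (by linarith)
    have q1 : hg (y - e) = 0 := hgn (by linarith)
    have q2 : hg (y - 5 / 2 * e) = 0 := hgn (by linarith)
    simp only [q0, q1, q2]
    split_ifs <;> first | (exfalso; linarith) | ring
  · skip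
    rcases le_or_gt (y - e) 0 with g1 | g1
    · skip
      have q0 : hg (y - e / 2) = y - e / 2 := hgp (by linarith)
      have q1 : hg (y - e) = 0 := hgn (by linarith)
      have q2 : hg (y - 5 / 2 * e) = 0 := hgn (by linarith)
      simp only [q0, q1, q2]
      split_ifs <;> first | (exfalso; linarith) | ring
    · skip
      rcases le_or_gt (y - 5 / 2 * e) 0 with g2 | g2
      · skip
        have q0 : hg (y - e / 2) = y - e / 2 := hgp (by linarith)
        have q1 : hg (y - e) = y - e := hgp (by linarith)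
        have q2 : hg (y - 5 / 2 * e) = 0 := hgn (by linarith)
        simp only [q0, q1, q2]
        split_ifs <;> first | (exfalso; linarith) | ring
      · skip
        have q0 : hg (y - e / 2) = y - e / 2 := hgp (by linarith)
        have q1 : hg (y - e) = y - e := hgp (by linarith)
        have q2 : hg (y - 5 / 2 * e) = y - 5 / 2 * e := hgp (by linarith)
        simp only [q0, q1, q2]
        split_ifs <;> first | (exfalso; linarith) | ring

theorem kb3w1 (e0 : 0 < e) (e1 : e ≤ 1 / 40) {y : ℝ} (h0y : 15 / 16 < y) (h1y : y < 1) : kb3q1.v y (1 - e) = cv3m.v y * (B0 e + wB1 1 e (1 - y)) := by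
  simp only [kb3q1, kb3q1_3, kb3q1_15, kb3q1_30, kb3q1_36, kb3q1_44, kb3q1_51, piv e0 e1, pbv, ptv e0 e1, b0v]
  push_cast
  simp only [sub_sub_cancel]
  have hc : ¬ (y - 1 + 1 / 16 ≤ 0) := by rw [not_le]; linarith
  simp only [if_neg hc]
  simp only [wB1, tl, mul_one]
  generalize vW0 e = P
  generalize vW3 e = P3
  generalize B0 e = B
  rcases le_or_gt (1 - y - e / 2) 0 with g0 | g0
  · skip
    have q0 : hg (1 - y - e / 2) = 0 := hgn (by linarith)
    have q1 : hg (1 - y - e) = 0 := hgn (by linarith)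
    have q2 : hg (1 - y - 5 / 2 * e) = 0 := hgn (by linarith)
    simp only [q0, q1, q2]
    split_ifs <;> first | (exfalso; linarith) | ring
  · skip
    rcases le_or_gt (1 - y - e) 0 with g1 | g1
    · skip
      have q0 : hg (1 - y - e / 2) = 1 - y - e / 2 := hgp (by linarith)
      have q1 : hg (1 - y - e) = 0 := hgn (by linarith)
      have q2 : hg (1 - y - 5 / 2 * e) = 0 := hgn (by linarith)
      simp only [q0, q1, q2]
      split_ifs <;> first | (exfalso; linarith) | ring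
    · skip
      rcases le_or_gt (1 - y - 5 / 2 * e) 0 with g2 | g2
      · skip
        have q0 : hg (1 - y - e / 2) = 1 - y - e / 2 := hgp (by linarith)
        have q1 : hg (1 - y - e) = 1 - y - e := hgp (by linarith)
        have q2 : hg (1 - y - 5 / 2 * e) = 0 := hgn (by linarith)
        simp only [q0, q1, q2]
        split_ifs <;> first | (exfalso; linarith) | ring
      · skip
        have q0 : hg (1 - y - e / 2) = 1 - y - e / 2 := hgp (by linarith)
        have q1 : hg (1 - y - e) = 1 - y - e := hgp (by linarith)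
        have q2 : hg (1 - y - 5 / 2 * e) = 1 - y - 5 / 2 * e := hgp (by linarith)
        simp only [q0, q1, q2]
        split_ifs <;> first | (exfalso; linarith) | ring

theorem kb3w2 (e0 : 0 < e) (e1 : e ≤ 1 / 40) {y : ℝ} (h0y : 1 ≤ y) (h1y : y < 17 / 16) : kb3q2.v y (1 - e) = cv3p.v y * (B0 e + wB2 1 e (y - 1)) := by
  simp only [kb3q2, kb3q2_3, kb3q2_34, kb3q2_39, kb3q2_47, kb3q2_53, piv e0 e1, pbv, ptv e0 e1, b0v]
  push_cast
  simp only [sub_sub_cancel]
  have hc : (y - 1 - 1 / 16 ≤ 0) := by linarith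
  simp only [if_pos hc]
  simp only [wB2, tl, mul_one]
  generalize vW0 e = P
  generalize vW3 e = P3
  generalize B0 e = B
  rcases le_or_gt (y - 1 - e / 2) 0 with g0 | g0
  · skip
    have q0 : hg (y - 1 - e / 2) = 0 := hgn (by linarith)
    have q1 : hg (y - 1 - e) = 0 := hgn (by linarith)
    have q2 : hg (y - 1 - 5 / 2 * e) = 0 := hgn (by linarith)
    simp only [q0, q1, q2]
    split_ifs <;> first | (exfalso; linarith) | ring
  · skip
    rcases le_or_gt (y - 1 - e) 0 with g1 | g1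
    · skip
      have q0 : hg (y - 1 - e / 2) = y - 1 - e / 2 := hgp (by linarith)
      have q1 : hg (y - 1 - e) = 0 := hgn (by linarith)
      have q2 : hg (y - 1 - 5 / 2 * e) = 0 := hgn (by linarith)
      simp only [q0, q1, q2]
      split_ifs <;> first | (exfalso; linarith) | ring
    · skip
      rcases le_or_gt (y - 1 - 5 / 2 * e) 0 with g2 | g2
      · skip
        have q0 : hg (y - 1 - e / 2) = y - 1 - e / 2 := hgp (by linarith)
        have q1 : hg (y - 1 - e) = y - 1 - e := hgp (by linarith)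
        have q2 : hg (y - 1 - 5 / 2 * e) = 0 := hgn (by linarith)
        simp only [q0, q1, q2]
        split_ifs <;> first | (exfalso; linarith) | ring
      · skip
        have q0 : hg (y - 1 - e / 2) = y - 1 - e / 2 := hgp (by linarith)
        have q1 : hg (y - 1 - e) = y - 1 - e := hgp (by linarith)
        have q2 : hg (y - 1 - 5 / 2 * e) = y - 1 - 5 / 2 * e := hgp (by linarith)
        simp only [q0, q1, q2]
        split_ifs <;> first | (exfalso; linarith) | ring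

theorem kb3w3 (e0 : 0 < e) (e1 : e ≤ 1 / 40) {y : ℝ} (h0y : 31 / 16 < y) (h1y : y ≤ 2) : kb3q3.v y (1 - e) = wB3 1 e (2 - y) := by
  simp only [kb3q3, kb3q3_3, kb3q3_15, kb3q3_30, kb3q3_34, kb3q3_46, kb3q3_51, piv e0 e1, pbv, ptv e0 e1, b0v]
  push_cast
  simp only [sub_sub_cancel]
  have hc : ¬ (y - 2 + 1 / 16 ≤ 0) := by rw [not_le]; linarith
  simp only [if_neg hc]
  simp only [wB3, tl, mul_one]
  generalize vW0 e = P
  generalize vW3 e = P3
  generalize B0 e = B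
  rcases le_or_gt (2 - y - e / 2) 0 with g0 | g0
  · skip
    have q0 : hg (2 - y - e / 2) = 0 := hgn (by linarith)
    have q1 : hg (2 - y - e) = 0 := hgn (by linarith)
    have q2 : hg (2 - y - 5 / 2 * e) = 0 := hgn (by linarith)
    simp only [q0, q1, q2]
    split_ifs <;> first | (exfalso; linarith) | ring
  · skip
    rcases le_or_gt (2 - y - e) 0 with g1 | g1
    · skip
      have q0 : hg (2 - y - e / 2) = 2 - y - e / 2 := hgp (by linarith)
      have q1 : hg (2 - y - e) = 0 := hgn (by linarith)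
      have q2 : hg (2 - y - 5 / 2 * e) = 0 := hgn (by linarith)
      simp only [q0, q1, q2]
      split_ifs <;> first | (exfalso; linarith) | ring
    · skip
      rcases le_or_gt (2 - y - 5 / 2 * e) 0 with g2 | g2
      · skip
        have q0 : hg (2 - y - e / 2) = 2 - y - e / 2 := hgp (by linarith)
        have q1 : hg (2 - y - e) = 2 - y - e := hgp (by linarith)
        have q2 : hg (2 - y - 5 / 2 * e) = 0 := hgn (by linarith)
        simp only [q0, q1, q2]
        split_ifs <;> first | (exfalso; linarith) | ring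
      · skip
        have q0 : hg (2 - y - e / 2) = 2 - y - e / 2 := hgp (by linarith)
        have q1 : hg (2 - y - e) = 2 - y - e := hgp (by linarith)
        have q2 : hg (2 - y - 5 / 2 * e) = 2 - y - 5 / 2 * e := hgp (by linarith)
        simp only [q0, q1, q2]
        split_ifs <;> first | (exfalso; linarith) | ring

theorem xt3w0 (e0 : 0 < e) (e1 : e ≤ 1 / 40) {y : ℝ} (h0y : 0 ≤ y) (h1y : y < 1 / 16) :
    xt3q0.v y (1 - e) + 1 = ((1 / 50) + (0) * e) * hg (y - 5 / 2 * e) := by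
  simp only [xt3q0, xt3q0_3, xt3q0_15, xt3q0_88]
  push_cast
  simp only [sub_sub_cancel]
  have hc : (y - 1 / 16 ≤ 0) := by linarith
  simp only [if_pos hc]
  rcases le_or_gt (y - 5 / 2 * e) 0 with g0 | g0
  · skip
    have q0 : hg (y - 5 / 2 * e) = 0 := hgn (by linarith)
    simp only [q0]
    split_ifs <;> first | (exfalso; linarith) | ring
  · skip
    have q0 : hg (y - 5 / 2 * e) = y - 5 / 2 * e := hgp (by linarith)
    simp only [q0]
    split_ifs <;> first | (exfalso; linarith) | ring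

theorem xt3w1 (e0 : 0 < e) (e1 : e ≤ 1 / 40) {y : ℝ} (h0y : 15 / 16 < y) (h1y : y < 1) :
    xt3q1.v y (1 - e) + 3 / 2 = ((-559 / 2000) + (0) * e) * hg (1 - y - 5 / 2 * e) := by
  simp only [xt3q1, xt3q1_3, xt3q1_59, xt3q1_75, xt3q1_91]
  push_cast
  simp only [sub_sub_cancel]
  have hc : ¬ (y - 1 + 1 / 16 ≤ 0) := by rw [not_le]; linarith
  simp only [if_neg hc]
  rcases le_or_gt (1 - y - 5 / 2 * e) 0 with g0 | g0
  · skip
    have q0 : hg (1 - y - 5 / 2 * e) = 0 := hgn (by linarith)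
    simp only [q0]
    split_ifs <;> first | (exfalso; linarith) | ring
  · skip
    have q0 : hg (1 - y - 5 / 2 * e) = 1 - y - 5 / 2 * e := hgp (by linarith)
    simp only [q0]
    split_ifs <;> first | (exfalso; linarith) | ring

theorem xt3w2 (e0 : 0 < e) (e1 : e ≤ 1 / 40) {y : ℝ} (h0y : 1 ≤ y) (h1y : y < 17 / 16) :
    xt3q2.v y (1 - e) + 1 / 2 = ((3097 / 10000) + (0) * e) * hg (y - 1 - 5 / 2 * e) := by
  simp only [xt3q2, xt3q2_3, xt3q2_21, xt3q2_82, xt3q2_86]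
  push_cast
  simp only [sub_sub_cancel]
  have hc : (y - 1 - 1 / 16 ≤ 0) := by linarith
  simp only [if_pos hc]
  rcases le_or_gt (y - 1 - 5 / 2 * e) 0 with g0 | g0
  · skip
    have q0 : hg (y - 1 - 5 / 2 * e) = 0 := hgn (by linarith)
    simp only [q0]
    split_ifs <;> first | (exfalso; linarith) | ring
  · skip
    have q0 : hg (y - 1 - 5 / 2 * e) = y - 1 - 5 / 2 * e := hgp (by linarith)
    simp only [q0]
    split_ifs <;> first | (exfalso; linarith) | ring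

theorem xt3w3 (e0 : 0 < e) (e1 : e ≤ 1 / 40) {y : ℝ} (h0y : 31 / 16 < y) (h1y : y ≤ 2) :
    xt3q3.v y (1 - e) + 0 = ((-9 / 1250) + (0) * e) * hg (2 - y - 5 / 2 * e) := by
  simp only [xt3q3, xt3q3_3, xt3q3_20, xt3q3_54, xt3q3_69, xt3q3_85]
  push_cast
  simp only [sub_sub_cancel]
  have hc : ¬ (y - 2 + 1 / 16 ≤ 0) := by rw [not_le]; linarith
  simp only [if_neg hc]
  rcases le_or_gt (2 - y - 5 / 2 * e) 0 with g0 | g0
  · skip
    have q0 : hg (2 - y - 5 / 2 * e) = 0 := hgn (by linarith)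
    simp only [q0]
    split_ifs <;> first | (exfalso; linarith) | ring
  · skip
    have q0 : hg (2 - y - 5 / 2 * e) = 2 - y - 5 / 2 * e := hgp (by linarith)
    simp only [q0]
    split_ifs <;> first | (exfalso; linarith) | ring

theorem kf4w (e0 : 0 < e) (e1 : e ≤ 1 / 40) {y : ℝ} (h0y : 0 ≤ y) (h1y : y < 1 / 16) :
    kf4q0.v y (1 - e) = cv3m.v y * (1 + wK0 1 e y) * (1 - 11 / 5 * e) + nt (8437 / 5000) (-4991 / 2000) (11871 / 5000) e y := by
  simp only [kf4q0, kq4g, kq4g_3, kq4g_9, kq4g_19]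
  push_cast
  simp only [sub_sub_cancel]
  have hc : (y - 1 / 16 ≤ 0) := by linarith
  simp only [if_pos hc]
  rw [kf3w0 e0 e1 h0y h1y]
  unfold nt
  generalize cv3m.v y * (1 + wK0 1 e y) = W
  rcases le_or_gt (y - e / 2) 0 with g0 | g0
  · skip
    have q0 : hg (y - e / 2) = 0 := hgn (by linarith)
    have q1 : hg (y - e) = 0 := hgn (by linarith)
    have q2 : hg (y - 5 / 2 * e) = 0 := hgn (by linarith)
    simp only [q0, q1, q2]
    split_ifs <;> first | (exfalso; linarith) | ring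
  · skip
    rcases le_or_gt (y - e) 0 with g1 | g1
    · skip
      have q0 : hg (y - e / 2) = y - e / 2 := hgp (by linarith)
      have q1 : hg (y - e) = 0 := hgn (by linarith)
      have q2 : hg (y - 5 / 2 * e) = 0 := hgn (by linarith)
      simp only [q0, q1, q2]
      split_ifs <;> first | (exfalso; linarith) | ring
    · skip
      rcases le_or_gt (y - 5 / 2 * e) 0 with g2 | g2
      · skip
        have q0 : hg (y - e / 2) = y - e / 2 := hgp (by linarith)
        have q1 : hg (y - e) = y - e := hgp (by linarith)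
        have q2 : hg (y - 5 / 2 * e) = 0 := hgn (by linarith)
        simp only [q0, q1, q2]
        split_ifs <;> first | (exfalso; linarith) | ring
      · skip
        have q0 : hg (y - e / 2) = y - e / 2 := hgp (by linarith)
        have q1 : hg (y - e) = y - e := hgp (by linarith)
        have q2 : hg (y - 5 / 2 * e) = y - 5 / 2 * e := hgp (by linarith)
        simp only [q0, q1, q2]
        split_ifs <;> first | (exfalso; linarith) | ring

theorem kb4w (e0 : 0 < e) (e1 : e ≤ 1 / 40) {y : ℝ} (h0y : 0 ≤ y) (h1y : y < 1 / 16) :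
    kb4q0.v y (1 - e) = cv3m.v y * (B0 e + wB0 1 e y) * (1 - 11 / 5 * e) + nt (1019 / 1250) (5391 / 1250) (14501 / 10000) e y := by
  simp only [kb4q0, bq4g, bq4g_3, bq4g_9, bq4g_18]
  push_cast
  simp only [sub_sub_cancel]
  have hc : (y - 1 / 16 ≤ 0) := by linarith
  simp only [if_pos hc]
  rw [kb3w0 e0 e1 h0y h1y]
  unfold nt
  generalize cv3m.v y * (B0 e + wB0 1 e y) = W
  rcases le_or_gt (y - e / 2) 0 with g0 | g0
  · skip
    have q0 : hg (y - e / 2) = 0 := hgn (by linarith)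
    have q1 : hg (y - e) = 0 := hgn (by linarith)
    have q2 : hg (y - 5 / 2 * e) = 0 := hgn (by linarith)
    simp only [q0, q1, q2]
    split_ifs <;> first | (exfalso; linarith) | ring
  · skip
    rcases le_or_gt (y - e) 0 with g1 | g1
    · skip
      have q0 : hg (y - e / 2) = y - e / 2 := hgp (by linarith)
      have q1 : hg (y - e) = 0 := hgn (by linarith)
      have q2 : hg (y - 5 / 2 * e) = 0 := hgn (by linarith)
      simp only [q0, q1, q2]
      split_ifs <;> first | (exfalso; linarith) | ring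
    · skip
      rcases le_or_gt (y - 5 / 2 * e) 0 with g2 | g2
      · skip
        have q0 : hg (y - e / 2) = y - e / 2 := hgp (by linarith)
        have q1 : hg (y - e) = y - e := hgp (by linarith)
        have q2 : hg (y - 5 / 2 * e) = 0 := hgn (by linarith)
        simp only [q0, q1, q2]
        split_ifs <;> first | (exfalso; linarith) | ring
      · skip
        have q0 : hg (y - e / 2) = y - e / 2 := hgp (by linarith)
        have q1 : hg (y - e) = y - e := hgp (by linarith)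
        have q2 : hg (y - 5 / 2 * e) = y - 5 / 2 * e := hgp (by linarith)
        simp only [q0, q1, q2]
        split_ifs <;> first | (exfalso; linarith) | ring

/-- the values at a node from the values of the table -/
theorem mkNV {V : Vx} {j : Fin 8} {q : ℕ} {p y : ℝ} {s : Sv} {kf kb cv xt : ℝ}
    (hF : tKF j q y (1 - e) = kf)
    (hN : tKN j q y (1 - e) = (1 + LAM e * G.mu e) * kf + G.mu e * kb)
    (hL : tL j q y (1 - e) = LAM e * (cv + xt)) (hc : crv (PP (1 - e)) j q y = cv)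
    (h1 : kf = p + s.k) (h2 : kb = B0 e * p + s.b) (h3 : LAM e * (xt + p) = s.c 1) :
    NV V ⟨DD (1 - e), tKF, tKN, tL⟩ e j q p y s := by
  subst hc
  refine ⟨?_, ?_⟩
  · cases V
    · exact hF.trans h1
    · show tKN j q y (1 - e) = be e * p + nk e s.k s.b
      rw [hN, h1, h2]
      unfold be nk
      ring
  · show tL j q y (1 - e) = LAM e * (crv (PP (1 - e)) j q y - p) + s.c 1
    rw [hL, ← h3]
    ring


theorem k00 (e0 : 0 < e) (e1 : e ≤ 1 / 40) {y : ℝ} (h0y : 0 ≤ y) (h1y : y < 1 / 16) :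
    kf0q0.v (y) (1 - e) = 1 + (S1 1 e y).k := by
  simp only [kf0q0]
  rw [rkv e0 e1 (by linarith [s3u (h1y.le)])]
  rfl

theorem b00x (e0 : 0 < e) (e1 : e ≤ 1 / 40) {y : ℝ} (h0y : 0 ≤ y) (h1y : y < 1 / 16) :
    kb0q0.v (y) (1 - e) = B0 e * (1) + (S1 1 e y).b := by
  simp only [kb0q0]
  rw [rbv e0 e1 (by linarith [s3u (h1y.le)])]
  rw [mul_one]
  rfl

theorem x00 (e0 : 0 < e) (e1 : e ≤ 1 / 40) {y : ℝ} (h0y : 0 ≤ y) (h1y : y < 1 / 16) :
    LAM e * (xt0q0.v (y) (1 - e) + 1) = (S1 1 e y).c 1 := by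
  simp only [xt0q0]
  rw [alv e0 e1 (by linarith [s3u (h1y.le)])]
  push_cast
  simp only [Sv.c, S1, mul_one, one_mul, div_one, zero_div, zero_add, add_zero]
  all_goals ring

theorem nv00 {V : Vx} (e0 : 0 < e) (e1 : e ≤ 1 / 40) {y : ℝ} (h0y : 0 ≤ y) (h1y : y < 1 / 16) : NV V ⟨DD (1 - e), tKF, tKN, tL⟩ e 0 0 (1) (y) (S1 1 e y) := by
  have hq : InQ 0 (y) := inq0 h0y h1y
  refine mkNV (kf := kf0q0.v (y) (1 - e)) (kb := kb0q0.v (y) (1 - e)) (cv := c1g.v y) (xt := xt0q0.v (y) (1 - e)) ?_ ?_ ?_ ?_ (k00 e0 e1 h0y h1y) (b00x e0 e1 h0y h1y) (x00 e0 e1 h0y h1y)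
  all_goals have on : h0 * (y) < 1 := on_half (by linarith)
  · exact tbF_on (⟨hq, fun _ => on⟩)
  · rw [show tKN 0 0 (y) (1 - e) = kn0q0.v (y) (1 - e) from tbF_on (⟨hq, fun _ => on⟩)]
    simp only [kn0q0, lmuv, muv]
  · rw [show tL 0 0 (y) (1 - e) = l0q0.v (y) (1 - e) from tbF_on (⟨hq, fun _ => on⟩)]
    simp only [l0q0, lamv]
  · rw [crv0]
    rw [c1g_v]

theorem k30 (e0 : 0 < e) (e1 : e ≤ 1 / 40) {y : ℝ} (h0y : 0 ≤ y) (h1y : y < 1 / 16) :
    kf3q0.v (y) (1 - e) = 1 + (W0 1 e y).k := by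
  rw [kf3w0 e0 e1 h0y h1y, p30 h0y h1y]
  simp only [W0]
  all_goals ring

theorem b30x (e0 : 0 < e) (e1 : e ≤ 1 / 40) {y : ℝ} (h0y : 0 ≤ y) (h1y : y < 1 / 16) :
    kb3q0.v (y) (1 - e) = B0 e * (1) + (W0 1 e y).b := by
  rw [kb3w0 e0 e1 h0y h1y, p30 h0y h1y]
  simp only [W0, mul_one, one_mul]
  all_goals ring

theorem x30 (e0 : 0 < e) (e1 : e ≤ 1 / 40) {y : ℝ} (h0y : 0 ≤ y) (h1y : y < 1 / 16) :
    LAM e * (xt3q0.v (y) (1 - e) + 1) = (W0 1 e y).c 1 := by
  rw [xt3w0 e0 e1 h0y h1y]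
  simp only [Sv.c, W0, mul_one, one_mul, div_one, zero_div, zero_add, add_zero]
  all_goals ring

theorem nv30 {V : Vx} (e0 : 0 < e) (e1 : e ≤ 1 / 40) {y : ℝ} (h0y : 0 ≤ y) (h1y : y < 1 / 16) : NV V ⟨DD (1 - e), tKF, tKN, tL⟩ e 3 0 (1) (y) (W0 1 e y) := by
  have hq : InQ 0 (y) := inq0 h0y h1y
  refine mkNV (kf := kf3q0.v (y) (1 - e)) (kb := kb3q0.v (y) (1 - e)) (cv := cv3m.v y) (xt := xt3q0.v (y) (1 - e)) ?_ ?_ ?_ ?_ (k30 e0 e1 h0y h1y) (b30x e0 e1 h0y h1y) (x30 e0 e1 h0y h1y)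
  · exact tbF_on (onc hq (by decide))
  · rw [show tKN 3 0 (y) (1 - e) = kn3q0.v (y) (1 - e) from tbF_on (onc hq (by decide))]
    simp only [kn3q0, lmuv, muv]
  · rw [show tL 3 0 (y) (1 - e) = l3q0.v (y) (1 - e) from tbF_on (onc hq (by decide))]
    simp only [l3q0, lamv]
  · exact ecv3q0 (1 - e)

theorem xt5w0 (e0 : 0 < e) (e1 : e ≤ 1 / 40) {y : ℝ} (h0y : 0 ≤ y) (h1y : y < 1 / 16) :
    xt5q0.v y (1 - e) + 1 = ((-1371 / 10000) + (0) * e) * hg (y - 5 / 2 * e) := by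
  simp only [xt5q0, xt5q0_3, xt5q0_15, xt5q0_88]
  push_cast
  simp only [sub_sub_cancel]
  have hc : y - 1 / 16 ≤ 0 := by linarith
  simp only [if_pos hc]
  rcases le_or_gt (y - 5 / 2 * e) 0 with g0 | g0
  · skip
    have q0 : hg (y - 5 / 2 * e) = 0 := hgn (by linarith)
    simp only [q0]
    split_ifs <;> first | (exfalso; linarith) | ring
  · skip
    have q0 : hg (y - 5 / 2 * e) = y - 5 / 2 * e := hgp (by linarith)
    simp only [q0]
    split_ifs <;> first | (exfalso; linarith) | ring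

theorem k40 (e0 : 0 < e) (e1 : e ≤ 1 / 40) {y : ℝ} (h0y : 0 ≤ y) (h1y : y < 1 / 16) :
    kf4q0.v (y) (1 - e) = 1 + (Q0 1 e y).k := by
  rw [kf4w e0 e1 h0y h1y, p30 h0y h1y]
  simp only [Q0, W0, mul_one, one_mul]
  all_goals ring

theorem b40x (e0 : 0 < e) (e1 : e ≤ 1 / 40) {y : ℝ} (h0y : 0 ≤ y) (h1y : y < 1 / 16) :
    kb4q0.v (y) (1 - e) = B0 e * (1) + (Q0 1 e y).b := by
  rw [kb4w e0 e1 h0y h1y, p30 h0y h1y]
  simp only [Q0, W0, mul_one, one_mul]
  all_goals ring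

theorem x40 (e0 : 0 < e) (e1 : e ≤ 1 / 40) {y : ℝ} (h0y : 0 ≤ y) (h1y : y < 1 / 16) :
    LAM e * (xt4q0.v (y) (1 - e) + 1) = (Q0 1 e y).c 1 := by
  simp only [xt4q0]
  push_cast
  simp only [sub_sub_cancel]
  have h3 := xt3w0 e0 e1 h0y h1y
  have h5 := xt5w0 e0 e1 h0y h1y
  rw [eq_sub_of_add_eq h3, eq_sub_of_add_eq h5]
  simp only [Sv.c, Q0, W0, c5, mul_one, one_mul, div_one, zero_div, zero_add, add_zero]
  all_goals ring

theorem nv40 {V : Vx} (e0 : 0 < e) (e1 : e ≤ 1 / 40) {y : ℝ} (h0y : 0 ≤ y) (h1y : y < 1 / 16) : NV V ⟨DD (1 - e), tKF, tKN, tL⟩ e 4 0 (1) (y) (Q0 1 e y) := by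
  have hq : InQ 0 (y) := inq0 h0y h1y
  refine mkNV (kf := kf4q0.v (y) (1 - e)) (kb := kb4q0.v (y) (1 - e)) (cv := cv4m.v y (1 - e)) (xt := xt4q0.v (y) (1 - e)) ?_ ?_ ?_ ?_ (k40 e0 e1 h0y h1y) (b40x e0 e1 h0y h1y) (x40 e0 e1 h0y h1y)
  · exact tbF_on (onc hq (by decide))
  · rw [show tKN 4 0 (y) (1 - e) = kn4q0.v (y) (1 - e) from tbF_on (onc hq (by decide))]
    simp only [kn4q0, lmuv, muv]
  · rw [show tL 4 0 (y) (1 - e) = l4q0.v (y) (1 - e) from tbF_on (onc hq (by decide))]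
    simp only [l4q0, lamv]
  · exact ecv4q0 (by linarith) (by linarith)

theorem k50 (e0 : 0 < e) (e1 : e ≤ 1 / 40) {y : ℝ} (h0y : 0 ≤ y) (h1y : y < 1 / 16) :
    kf5q0.v (y) (1 - e) = 1 + (n5 e y).k := by
  have h4 := k40 e0 e1 h0y h1y
  have hd : (1 : ℝ) - 11 / 5 * e ≠ 0 := by linarith
  simp only [kf5q0, kf5q0_11, kf5q0_39, kf7q0]
  push_cast
  simp only [sub_sub_cancel]
  have hc : y - 1 / 16 ≤ 0 := by linarith
  simp only [if_pos hc]
  rw [show kf4q0.v y (1 - e) = kq4g.v y (1 - e) from by simp only [kf4q0]; push_cast; rw [if_pos hc]] at h4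
  rw [h4]
  simp only [n5]
  rw [show (2 : ℝ) - (1 + 11 / 5 * e) = 1 - 11 / 5 * e by ring]
  all_goals ring

theorem b50x (e0 : 0 < e) (e1 : e ≤ 1 / 40) {y : ℝ} (h0y : 0 ≤ y) (h1y : y < 1 / 16) :
    kb5q0.v (y) (1 - e) = B0 e * (1) + (n5 e y).b := by
  have h4 := b40x e0 e1 h0y h1y
  have hd : (1 : ℝ) - 11 / 5 * e ≠ 0 := by linarith
  simp only [kb5q0, kb5q0_12, kb5q0_41, kb7q0]
  push_cast
  simp only [sub_sub_cancel]
  have hc : y - 1 / 16 ≤ 0 := by linarith
  simp only [if_pos hc]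
  rw [show kb4q0.v y (1 - e) = bq4g.v y (1 - e) from by simp only [kb4q0]; push_cast; rw [if_pos hc]] at h4
  rw [h4]
  simp only [n5]
  rw [show (2 : ℝ) - (1 + 11 / 5 * e) = 1 - 11 / 5 * e by ring]
  all_goals ring

theorem x50 (e0 : 0 < e) (e1 : e ≤ 1 / 40) {y : ℝ} (h0y : 0 ≤ y) (h1y : y < 1 / 16) :
    LAM e * (xt5q0.v (y) (1 - e) + 1) = (n5 e y).c 1 := by
  rw [xt5w0 e0 e1 h0y h1y]
  simp only [Sv.c, n5, c5, mul_one, one_mul, div_one, zero_div, zero_add, add_zero]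
  all_goals ring

theorem nv50 {V : Vx} (e0 : 0 < e) (e1 : e ≤ 1 / 40) {y : ℝ} (h0y : 0 ≤ y) (h1y : y < 1 / 16) : NV V ⟨DD (1 - e), tKF, tKN, tL⟩ e 5 0 (1) (y) (n5 e y) := by
  have hq : InQ 0 (y) := inq0 h0y h1y
  refine mkNV (kf := kf5q0.v (y) (1 - e)) (kb := kb5q0.v (y) (1 - e)) (cv := cv5m.v y) (xt := xt5q0.v (y) (1 - e)) ?_ ?_ ?_ ?_ (k50 e0 e1 h0y h1y) (b50x e0 e1 h0y h1y) (x50 e0 e1 h0y h1y)
  · exact tbF_on (onc hq (by decide))
  · rw [show tKN 5 0 (y) (1 - e) = kn5q0.v (y) (1 - e) from tbF_on (onc hq (by decide))]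
    simp only [kn5q0, lmuv, muv]
  · rw [show tL 5 0 (y) (1 - e) = l5q0.v (y) (1 - e) from tbF_on (onc hq (by decide))]
    simp only [l5q0, lamv]
  · exact ecv5q0 (1 - e)

theorem k01 (e0 : 0 < e) (e1 : e ≤ 1 / 40) {z : ℝ} (h0z : -(1 / 16) < z) (h1z : z < 0) :
    kf0q1.v (1 + z) (1 - e) = 1 / 2 + (C1d 1 e z).k := by
  simp only [kf0q1, kf0q1_9]
  push_cast
  simp only [a01 (by linarith) (by linarith)]
  rw [rkv e0 e1 (by linarith [b01 h0z h1z])]
  simp only [C1d, g1, c1g_v, c1n_cc1, mul_one, one_mul]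
  all_goals ring

theorem b01x (e0 : 0 < e) (e1 : e ≤ 1 / 40) {z : ℝ} (h0z : -(1 / 16) < z) (h1z : z < 0) :
    kb0q1.v (1 + z) (1 - e) = B0 e * (1 / 2) + (C1d 1 e z).b := by
  simp only [kb0q1, kb0q1_9]
  push_cast
  simp only [a01 (by linarith) (by linarith)]
  rw [rbv e0 e1 (by linarith [b01 h0z h1z])]
  simp only [C1d, g1, c1g_v, c1n_cc1, mul_one, one_mul]
  all_goals ring

theorem x01 (e0 : 0 < e) (e1 : e ≤ 1 / 40) {z : ℝ} (h0z : -(1 / 16) < z) (h1z : z < 0) :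
    LAM e * (xt0q1.v (1 + z) (1 - e) + 1 / 2) = (C1d 1 e z).c 1 := by
  simp only [xt0q1]
  push_cast
  have hc : ¬ ((1 + z) ^ 2 - 1 / 3 ≤ 0) := by nlinarith
  simp only [if_neg hc]
  simp only [a01 (by linarith) (by linarith)]
  rw [bev e0 e1 (b01 h0z h1z)]
  simp only [Sv.c, C1d, mul_one, one_mul, div_one, zero_div, zero_add, add_zero]
  all_goals ring

theorem nv01 {V : Vx} (e0 : 0 < e) (e1 : e ≤ 1 / 40) {z : ℝ} (h0z : -(1 / 16) < z) (h1z : z < 0) : NV V ⟨DD (1 - e), tKF, tKN, tL⟩ e 0 1 (1 / 2) (1 + z) (C1d 1 e z) := by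
  have hq : InQ 1 (1 + z) := inq1 h0z h1z
  refine mkNV (kf := kf0q1.v (1 + z) (1 - e)) (kb := kb0q1.v (1 + z) (1 - e)) (cv := c1g.v (1 + z)) (xt := xt0q1.v (1 + z) (1 - e)) ?_ ?_ ?_ ?_ (k01 e0 e1 h0z h1z) (b01x e0 e1 h0z h1z) (x01 e0 e1 h0z h1z)
  all_goals have on : h0 * (1 + z) < 1 := on_half (by linarith)
  · exact tbF_on (⟨hq, fun _ => on⟩)
  · rw [show tKN 0 1 (1 + z) (1 - e) = kn0q1.v (1 + z) (1 - e) from tbF_on (⟨hq, fun _ => on⟩)]
    simp only [kn0q1, lmuv, muv]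
  · rw [show tL 0 1 (1 + z) (1 - e) = l0q1.v (1 + z) (1 - e) from tbF_on (⟨hq, fun _ => on⟩)]
    simp only [l0q1, lamv]
  · rw [crv0]
    rw [c1g_v]

theorem k71 (e0 : 0 < e) (e1 : e ≤ 1 / 40) {z : ℝ} (h0z : -(1 / 16) < z) (h1z : z < 0) :
    kf7q1.v (1 + z) (1 - e) = 3 / 2 + (C3d 1 e z).k := by
  simp only [kf7q1, kf7q1_10]
  push_cast
  simp only [a71' (by linarith) (by linarith), a71 (by linarith) (by linarith)]
  rw [rkv e0 e1 (by linarith [b71 h0z h1z])]
  simp only [C3d, g3, c3g_v, c3n_cc3, mul_one, one_mul]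
  all_goals ring

theorem b71x (e0 : 0 < e) (e1 : e ≤ 1 / 40) {z : ℝ} (h0z : -(1 / 16) < z) (h1z : z < 0) :
    kb7q1.v (1 + z) (1 - e) = B0 e * (3 / 2) + (C3d 1 e z).b := by
  simp only [kb7q1, kb7q1_10]
  push_cast
  simp only [a71' (by linarith) (by linarith), a71 (by linarith) (by linarith)]
  rw [rbv e0 e1 (by linarith [b71 h0z h1z])]
  simp only [C3d, g3, c3g_v, c3n_cc3, mul_one, one_mul]
  all_goals ring

theorem x71 (e0 : 0 < e) (e1 : e ≤ 1 / 40) {z : ℝ} (h0z : -(1 / 16) < z) (h1z : z < 0) :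
    LAM e * (xt7q1.v (1 + z) (1 - e) + 3 / 2) = (C3d 1 e z).c 1 := by
  simp only [xt7q1, xt7q1_7]
  push_cast
  simp only [a71' (by linarith) (by linarith), a71 (by linarith) (by linarith)]
  rw [alv e0 e1 (b71 h0z h1z), bev e0 e1 (b71 h0z h1z)]
  simp only [Sv.c, C3d, mul_one, one_mul, div_one, zero_div, zero_add, add_zero]
  all_goals ring

theorem nv71 {V : Vx} (e0 : 0 < e) (e1 : e ≤ 1 / 40) {z : ℝ} (h0z : -(1 / 16) < z) (h1z : z < 0) : NV V ⟨DD (1 - e), tKF, tKN, tL⟩ e 7 1 (3 / 2) (1 + z) (C3d 1 e z) := by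
  have hq : InQ 1 (1 + z) := inq1 h0z h1z
  refine mkNV (kf := kf7q1.v (1 + z) (1 - e)) (kb := kb7q1.v (1 + z) (1 - e)) (cv := c3g.v (1 + z)) (xt := xt7q1.v (1 + z) (1 - e)) ?_ ?_ ?_ ?_ (k71 e0 e1 h0z h1z) (b71x e0 e1 h0z h1z) (x71 e0 e1 h0z h1z)
  · exact tbF_on (onc hq (by decide))
  · rw [show tKN 7 1 (1 + z) (1 - e) = kn7q1.v (1 + z) (1 - e) from tbF_on (onc hq (by decide))]
    simp only [kn7q1, lmuv, muv]
  · rw [show tL 7 1 (1 + z) (1 - e) = l7q1.v (1 + z) (1 - e) from tbF_on (onc hq (by decide))]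
    simp only [l7q1, lamv]
  · rw [crv7]
    rw [c3g_v]

theorem k72 (e0 : 0 < e) (e1 : e ≤ 1 / 40) {z : ℝ} (h0z : 0 ≤ z) (h1z : z < 1 / 16) :
    kf7q2.v (1 + z) (1 - e) = 3 / 2 + (C3u 1 e z).k := by
  simp only [kf7q2, kf7q2_10]
  push_cast
  simp only [a72' (by linarith) (by linarith), a72 (by linarith) (by linarith)]
  rw [rkv e0 e1 (by linarith [b72 h0z h1z])]
  simp only [C3u, g3, c3g_v, c3n_cc3, mul_one, one_mul]
  all_goals ring

theorem b72x (e0 : 0 < e) (e1 : e ≤ 1 / 40) {z : ℝ} (h0z : 0 ≤ z) (h1z : z < 1 / 16) :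
    kb7q2.v (1 + z) (1 - e) = B0 e * (3 / 2) + (C3u 1 e z).b := by
  simp only [kb7q2, kb7q2_10]
  push_cast
  simp only [a72' (by linarith) (by linarith), a72 (by linarith) (by linarith)]
  rw [rbv e0 e1 (by linarith [b72 h0z h1z])]
  simp only [C3u, g3, c3g_v, c3n_cc3, mul_one, one_mul]
  all_goals ring

theorem x72 (e0 : 0 < e) (e1 : e ≤ 1 / 40) {z : ℝ} (h0z : 0 ≤ z) (h1z : z < 1 / 16) :
    LAM e * (xt7q2.v (1 + z) (1 - e) + 3 / 2) = (C3u 1 e z).c 1 := by
  simp only [xt7q2, xt7q2_7]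
  push_cast
  simp only [a72' (by linarith) (by linarith), a72 (by linarith) (by linarith)]
  rw [alv e0 e1 (b72 h0z h1z), bev e0 e1 (b72 h0z h1z)]
  simp only [Sv.c, C3u, mul_one, one_mul, div_one, zero_div, zero_add, add_zero]
  all_goals ring

theorem nv72 {V : Vx} (e0 : 0 < e) (e1 : e ≤ 1 / 40) {z : ℝ} (h0z : 0 ≤ z) (h1z : z < 1 / 16) : NV V ⟨DD (1 - e), tKF, tKN, tL⟩ e 7 2 (3 / 2) (1 + z) (C3u 1 e z) := by
  have hq : InQ 2 (1 + z) := inq2 h0z h1z
  refine mkNV (kf := kf7q2.v (1 + z) (1 - e)) (kb := kb7q2.v (1 + z) (1 - e)) (cv := c3g.v (1 + z)) (xt := xt7q2.v (1 + z) (1 - e)) ?_ ?_ ?_ ?_ (k72 e0 e1 h0z h1z) (b72x e0 e1 h0z h1z) (x72 e0 e1 h0z h1z)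
  · exact tbF_on (onc hq (by decide))
  · rw [show tKN 7 2 (1 + z) (1 - e) = kn7q2.v (1 + z) (1 - e) from tbF_on (onc hq (by decide))]
    simp only [kn7q2, lmuv, muv]
  · rw [show tL 7 2 (1 + z) (1 - e) = l7q2.v (1 + z) (1 - e) from tbF_on (onc hq (by decide))]
    simp only [l7q2, lamv]
  · rw [crv7]
    rw [c3g_v]

theorem k31 (e0 : 0 < e) (e1 : e ≤ 1 / 40) {z : ℝ} (h0z : -(1 / 16) < z) (h1z : z < 0) :
    kf3q1.v (1 + z) (1 - e) = 3 / 2 + (W1 1 e z).k := by
  rw [kf3w1 e0 e1 (by linarith) (by linarith), p31 (by linarith) (by linarith), show (1 : ℝ) - (1 + z) = -z by ring]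
  simp only [W1, mul_one, one_mul]
  all_goals ring

theorem b31x (e0 : 0 < e) (e1 : e ≤ 1 / 40) {z : ℝ} (h0z : -(1 / 16) < z) (h1z : z < 0) :
    kb3q1.v (1 + z) (1 - e) = B0 e * (3 / 2) + (W1 1 e z).b := by
  rw [kb3w1 e0 e1 (by linarith) (by linarith), p31 (by linarith) (by linarith), show (1 : ℝ) - (1 + z) = -z by ring]
  simp only [W1, mul_one, one_mul]
  all_goals ring

theorem x31 (e0 : 0 < e) (e1 : e ≤ 1 / 40) {z : ℝ} (h0z : -(1 / 16) < z) (h1z : z < 0) :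
    LAM e * (xt3q1.v (1 + z) (1 - e) + 3 / 2) = (W1 1 e z).c 1 := by
  rw [xt3w1 e0 e1 (by linarith) (by linarith), show (1 : ℝ) - (1 + z) = -z by ring]
  simp only [Sv.c, W1, mul_one, one_mul, div_one, zero_div, zero_add, add_zero]
  all_goals ring

theorem nv31 {V : Vx} (e0 : 0 < e) (e1 : e ≤ 1 / 40) {z : ℝ} (h0z : -(1 / 16) < z) (h1z : z < 0) : NV V ⟨DD (1 - e), tKF, tKN, tL⟩ e 3 1 (3 / 2) (1 + z) (W1 1 e z) := by
  have hq : InQ 1 (1 + z) := inq1 h0z h1z
  refine mkNV (kf := kf3q1.v (1 + z) (1 - e)) (kb := kb3q1.v (1 + z) (1 - e)) (cv := cv3m.v (1 + z)) (xt := xt3q1.v (1 + z) (1 - e)) ?_ ?_ ?_ ?_ (k31 e0 e1 h0z h1z) (b31x e0 e1 h0z h1z) (x31 e0 e1 h0z h1z)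
  · exact tbF_on (onc hq (by decide))
  · rw [show tKN 3 1 (1 + z) (1 - e) = kn3q1.v (1 + z) (1 - e) from tbF_on (onc hq (by decide))]
    simp only [kn3q1, lmuv, muv]
  · rw [show tL 3 1 (1 + z) (1 - e) = l3q1.v (1 + z) (1 - e) from tbF_on (onc hq (by decide))]
    simp only [l3q1, lamv]
  · exact ecv3q1 (1 - e)

theorem k32 (e0 : 0 < e) (e1 : e ≤ 1 / 40) {z : ℝ} (h0z : 0 ≤ z) (h1z : z < 1 / 16) :
    kf3q2.v (1 + z) (1 - e) = 1 / 2 + (W2 1 e z).k := by
  rw [kf3w2 e0 e1 (by linarith) (by linarith), p32 (by linarith) (by linarith), show (1 : ℝ) + z - 1 = z by ring]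
  simp only [W2, mul_one, one_mul]
  all_goals ring

theorem b32x (e0 : 0 < e) (e1 : e ≤ 1 / 40) {z : ℝ} (h0z : 0 ≤ z) (h1z : z < 1 / 16) :
    kb3q2.v (1 + z) (1 - e) = B0 e * (1 / 2) + (W2 1 e z).b := by
  rw [kb3w2 e0 e1 (by linarith) (by linarith), p32 (by linarith) (by linarith), show (1 : ℝ) + z - 1 = z by ring]
  simp only [W2, mul_one, one_mul]
  all_goals ring

theorem x32 (e0 : 0 < e) (e1 : e ≤ 1 / 40) {z : ℝ} (h0z : 0 ≤ z) (h1z : z < 1 / 16) :
    LAM e * (xt3q2.v (1 + z) (1 - e) + 1 / 2) = (W2 1 e z).c 1 := by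
  rw [xt3w2 e0 e1 (by linarith) (by linarith), show (1 : ℝ) + z - 1 = z by ring]
  simp only [Sv.c, W2, mul_one, one_mul, div_one, zero_div, zero_add, add_zero]
  all_goals ring

theorem nv32 {V : Vx} (e0 : 0 < e) (e1 : e ≤ 1 / 40) {z : ℝ} (h0z : 0 ≤ z) (h1z : z < 1 / 16) : NV V ⟨DD (1 - e), tKF, tKN, tL⟩ e 3 2 (1 / 2) (1 + z) (W2 1 e z) := by
  have hq : InQ 2 (1 + z) := inq2 h0z h1z
  refine mkNV (kf := kf3q2.v (1 + z) (1 - e)) (kb := kb3q2.v (1 + z) (1 - e)) (cv := cv3p.v (1 + z)) (xt := xt3q2.v (1 + z) (1 - e)) ?_ ?_ ?_ ?_ (k32 e0 e1 h0z h1z) (b32x e0 e1 h0z h1z) (x32 e0 e1 h0z h1z)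
  · exact tbF_on (onc hq (by decide))
  · rw [show tKN 3 2 (1 + z) (1 - e) = kn3q2.v (1 + z) (1 - e) from tbF_on (onc hq (by decide))]
    simp only [kn3q2, lmuv, muv]
  · rw [show tL 3 2 (1 + z) (1 - e) = l3q2.v (1 + z) (1 - e) from tbF_on (onc hq (by decide))]
    simp only [l3q2, lamv]
  · exact ecv3q2 (1 - e)

theorem k11 (e0 : 0 < e) (e1 : e ≤ 1 / 40) {z : ℝ} (h0z : -(1 / 16) < z) (h1z : z < 0) :
    kf1q1.v (1 + z) (1 - e) = 1 / 2 + (na e z).k := by
  simp only [kf1q1]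
  push_cast
  try simp only [sub_sub_cancel]
  rw [p11 h0z h1z]
  simp only [na, fKa, mul_one, one_mul]
  rcases lt_or_ge (-z - 1 / 25) 0 with g0 | g0
  · skip
    have q0 : hg (-z - 1 / 25) = 0 := hgn (by linarith)
    simp only [q0]
    try split_ifs
    all_goals first | (exfalso; linarith) | ring
  · skip
    have q0 : hg (-z - 1 / 25) = -z - 1 / 25 := hgp (by linarith)
    simp only [q0]
    try split_ifs
    all_goals first | (exfalso; linarith) | ring

theorem b11x (e0 : 0 < e) (e1 : e ≤ 1 / 40) {z : ℝ} (h0z : -(1 / 16) < z) (h1z : z < 0) :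
    kb1q1.v (1 + z) (1 - e) = B0 e * (1 / 2) + (na e z).b := by
  simp only [kb1q1]
  push_cast
  try simp only [sub_sub_cancel]
  rw [p11 h0z h1z]
  simp only [na, fBa, mul_one, one_mul]
  rcases lt_or_ge (-z - 1 / 25) 0 with g0 | g0
  · skip
    have q0 : hg (-z - 1 / 25) = 0 := hgn (by linarith)
    simp only [q0]
    try split_ifs
    all_goals first | (exfalso; linarith) | ring
  · skip
    have q0 : hg (-z - 1 / 25) = -z - 1 / 25 := hgp (by linarith)
    simp only [q0]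
    try split_ifs
    all_goals first | (exfalso; linarith) | ring

theorem x11 (e0 : 0 < e) (e1 : e ≤ 1 / 40) {z : ℝ} (h0z : -(1 / 16) < z) (h1z : z < 0) :
    LAM e * (xt1q1.v (1 + z) (1 - e) + 1 / 2) = (na e z).c 1 := by
  simp only [xt1q1, xt1q1_3]
  push_cast
  try simp only [sub_sub_cancel]
  rw [p11 h0z h1z]
  simp only [Sv.c, na, fXa, mul_one, one_mul, div_one, add_zero]
  rcases lt_or_ge (-z - 1 / 25) 0 with g0 | g0
  · skip
    have q0 : hg (-z - 1 / 25) = 0 := hgn (by linarith)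
    simp only [q0]
    try split_ifs
    all_goals first | (exfalso; linarith) | ring
  · skip
    have q0 : hg (-z - 1 / 25) = -z - 1 / 25 := hgp (by linarith)
    simp only [q0]
    try split_ifs
    all_goals first | (exfalso; linarith) | ring

theorem nv11 {V : Vx} (e0 : 0 < e) (e1 : e ≤ 1 / 40) {z : ℝ} (h0z : -(1 / 16) < z) (h1z : z < 0) : NV V ⟨DD (1 - e), tKF, tKN, tL⟩ e 1 1 (1 / 2) (1 + z) (na e z) := by
  have hq : InQ 1 (1 + z) := inq1 h0z h1z
  refine mkNV (kf := kf1q1.v (1 + z) (1 - e)) (kb := kb1q1.v (1 + z) (1 - e)) (cv := cv1m.v (1 + z)) (xt := xt1q1.v (1 + z) (1 - e)) ?_ ?_ ?_ ?_ (k11 e0 e1 h0z h1z) (b11x e0 e1 h0z h1z) (x11 e0 e1 h0z h1z)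
  · exact tbF_on (onc hq (by decide))
  · rw [show tKN 1 1 (1 + z) (1 - e) = kn1q1.v (1 + z) (1 - e) from tbF_on (onc hq (by decide))]
    simp only [kn1q1, lmuv, muv]
  · rw [show tL 1 1 (1 + z) (1 - e) = l1q1.v (1 + z) (1 - e) from tbF_on (onc hq (by decide))]
    simp only [l1q1, lamv]
  · exact ecv1q1 (1 - e)

theorem k21 (e0 : 0 < e) (e1 : e ≤ 1 / 40) {z : ℝ} (h0z : -(1 / 16) < z) (h1z : z < 0) :
    kf2q1.v (1 + z) (1 - e) = 3 / 2 + (nc e z).k := by
  simp only [kf2q1, kf2q1_16]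
  push_cast
  try simp only [sub_sub_cancel]
  rw [p21 h0z h1z]
  simp only [nc, fKc, mul_one, one_mul]
  rcases lt_or_ge (-z - 1 / 25) 0 with g0 | g0
  · skip
    have q0 : hg (-z - 1 / 25) = 0 := hgn (by linarith)
    simp only [q0]
    try split_ifs
    all_goals first | (exfalso; linarith) | ring
  · skip
    have q0 : hg (-z - 1 / 25) = -z - 1 / 25 := hgp (by linarith)
    simp only [q0]
    try split_ifs
    all_goals first | (exfalso; linarith) | ring

theorem b21x (e0 : 0 < e) (e1 : e ≤ 1 / 40) {z : ℝ} (h0z : -(1 / 16) < z) (h1z : z < 0) :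
    kb2q1.v (1 + z) (1 - e) = B0 e * (3 / 2) + (nc e z).b := by
  simp only [kb2q1]
  push_cast
  try simp only [sub_sub_cancel]
  rw [p21 h0z h1z]
  simp only [nc, fBc, mul_one, one_mul]
  rcases lt_or_ge (-z - 1 / 25) 0 with g0 | g0
  · skip
    have q0 : hg (-z - 1 / 25) = 0 := hgn (by linarith)
    simp only [q0]
    try split_ifs
    all_goals first | (exfalso; linarith) | ring
  · skip
    have q0 : hg (-z - 1 / 25) = -z - 1 / 25 := hgp (by linarith)
    simp only [q0]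
    try split_ifs
    all_goals first | (exfalso; linarith) | ring

theorem x21 (e0 : 0 < e) (e1 : e ≤ 1 / 40) {z : ℝ} (h0z : -(1 / 16) < z) (h1z : z < 0) :
    LAM e * (xt2q1.v (1 + z) (1 - e) + 3 / 2) = (nc e z).c 1 := by
  simp only [xt2q1, xt2q1_3]
  push_cast
  try simp only [sub_sub_cancel]
  rw [p21 h0z h1z]
  simp only [Sv.c, nc, fXc, mul_one, one_mul, div_one, add_zero]
  rcases lt_or_ge (-z - 1 / 25) 0 with g0 | g0
  · skip
    have q0 : hg (-z - 1 / 25) = 0 := hgn (by linarith)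
    simp only [q0]
    try split_ifs
    all_goals first | (exfalso; linarith) | ring
  · skip
    have q0 : hg (-z - 1 / 25) = -z - 1 / 25 := hgp (by linarith)
    simp only [q0]
    try split_ifs
    all_goals first | (exfalso; linarith) | ring

theorem nv21 {V : Vx} (e0 : 0 < e) (e1 : e ≤ 1 / 40) {z : ℝ} (h0z : -(1 / 16) < z) (h1z : z < 0) : NV V ⟨DD (1 - e), tKF, tKN, tL⟩ e 2 1 (3 / 2) (1 + z) (nc e z) := by
  have hq : InQ 1 (1 + z) := inq1 h0z h1z
  refine mkNV (kf := kf2q1.v (1 + z) (1 - e)) (kb := kb2q1.v (1 + z) (1 - e)) (cv := cv2m.v (1 + z)) (xt := xt2q1.v (1 + z) (1 - e)) ?_ ?_ ?_ ?_ (k21 e0 e1 h0z h1z) (b21x e0 e1 h0z h1z) (x21 e0 e1 h0z h1z)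
  · exact tbF_on (onc hq (by decide))
  · rw [show tKN 2 1 (1 + z) (1 - e) = kn2q1.v (1 + z) (1 - e) from tbF_on (onc hq (by decide))]
    simp only [kn2q1, lmuv, muv]
  · rw [show tL 2 1 (1 + z) (1 - e) = l2q1.v (1 + z) (1 - e) from tbF_on (onc hq (by decide))]
    simp only [l2q1, lamv]
  · exact ecv2q1 (1 - e)

theorem k52 (e0 : 0 < e) (e1 : e ≤ 1 / 40) {z : ℝ} (h0z : 0 ≤ z) (h1z : z < 1 / 16) :
    kf5q2.v (1 + z) (1 - e) = 1 / 2 + (nb e z).k := by
  simp only [kf5q2, kf5q2_8]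
  push_cast
  try simp only [sub_sub_cancel]
  rw [p52 h0z h1z]
  simp only [nb, fKb, mul_one, one_mul]
  rcases le_or_gt (z - 1 / 25) 0 with g0 | g0
  · skip
    have q0 : hg (z - 1 / 25) = 0 := hgn (by linarith)
    simp only [q0]
    try split_ifs
    all_goals first | (exfalso; linarith) | ring
  · skip
    have q0 : hg (z - 1 / 25) = z - 1 / 25 := hgp (by linarith)
    simp only [q0]
    try split_ifs
    all_goals first | (exfalso; linarith) | ring

theorem b52x (e0 : 0 < e) (e1 : e ≤ 1 / 40) {z : ℝ} (h0z : 0 ≤ z) (h1z : z < 1 / 16) :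
    kb5q2.v (1 + z) (1 - e) = B0 e * (1 / 2) + (nb e z).b := by
  simp only [kb5q2]
  push_cast
  try simp only [sub_sub_cancel]
  rw [p52 h0z h1z]
  simp only [nb, fBb, mul_one, one_mul]
  rcases le_or_gt (z - 1 / 25) 0 with g0 | g0
  · skip
    have q0 : hg (z - 1 / 25) = 0 := hgn (by linarith)
    simp only [q0]
    try split_ifs
    all_goals first | (exfalso; linarith) | ring
  · skip
    have q0 : hg (z - 1 / 25) = z - 1 / 25 := hgp (by linarith)
    simp only [q0]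
    try split_ifs
    all_goals first | (exfalso; linarith) | ring

theorem x52 (e0 : 0 < e) (e1 : e ≤ 1 / 40) {z : ℝ} (h0z : 0 ≤ z) (h1z : z < 1 / 16) :
    LAM e * (xt5q2.v (1 + z) (1 - e) + 1 / 2) = (nb e z).c 1 := by
  simp only [xt5q2, xt5q2_3]
  push_cast
  try simp only [sub_sub_cancel]
  rw [p52 h0z h1z]
  simp only [Sv.c, nb, fXb, mul_one, one_mul, div_one, add_zero]
  rcases le_or_gt (z - 1 / 25) 0 with g0 | g0
  · skip
    have q0 : hg (z - 1 / 25) = 0 := hgn (by linarith)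
    simp only [q0]
    try split_ifs
    all_goals first | (exfalso; linarith) | ring
  · skip
    have q0 : hg (z - 1 / 25) = z - 1 / 25 := hgp (by linarith)
    simp only [q0]
    try split_ifs
    all_goals first | (exfalso; linarith) | ring

theorem nv52 {V : Vx} (e0 : 0 < e) (e1 : e ≤ 1 / 40) {z : ℝ} (h0z : 0 ≤ z) (h1z : z < 1 / 16) : NV V ⟨DD (1 - e), tKF, tKN, tL⟩ e 5 2 (1 / 2) (1 + z) (nb e z) := by
  have hq : InQ 2 (1 + z) := inq2 h0z h1z
  refine mkNV (kf := kf5q2.v (1 + z) (1 - e)) (kb := kb5q2.v (1 + z) (1 - e)) (cv := cv5p.v (1 + z)) (xt := xt5q2.v (1 + z) (1 - e)) ?_ ?_ ?_ ?_ (k52 e0 e1 h0z h1z) (b52x e0 e1 h0z h1z) (x52 e0 e1 h0z h1z)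
  · exact tbF_on (onc hq (by decide))
  · rw [show tKN 5 2 (1 + z) (1 - e) = kn5q2.v (1 + z) (1 - e) from tbF_on (onc hq (by decide))]
    simp only [kn5q2, lmuv, muv]
  · rw [show tL 5 2 (1 + z) (1 - e) = l5q2.v (1 + z) (1 - e) from tbF_on (onc hq (by decide))]
    simp only [l5q2, lamv]
  · exact ecv5q2 (1 - e)

theorem k62 (e0 : 0 < e) (e1 : e ≤ 1 / 40) {z : ℝ} (h0z : 0 ≤ z) (h1z : z < 1 / 16) :
    kf6q2.v (1 + z) (1 - e) = 3 / 2 + (nd e z).k := by
  simp only [kf6q2]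
  push_cast
  try simp only [sub_sub_cancel]
  rw [p62 h0z h1z]
  simp only [nd, fKd, mul_one, one_mul]
  rcases le_or_gt (z - 1 / 25) 0 with g0 | g0
  · skip
    have q0 : hg (z - 1 / 25) = 0 := hgn (by linarith)
    simp only [q0]
    try split_ifs
    all_goals first | (exfalso; linarith) | ring
  · skip
    have q0 : hg (z - 1 / 25) = z - 1 / 25 := hgp (by linarith)
    simp only [q0]
    try split_ifs
    all_goals first | (exfalso; linarith) | ring

theorem b62x (e0 : 0 < e) (e1 : e ≤ 1 / 40) {z : ℝ} (h0z : 0 ≤ z) (h1z : z < 1 / 16) :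
    kb6q2.v (1 + z) (1 - e) = B0 e * (3 / 2) + (nd e z).b := by
  simp only [kb6q2]
  push_cast
  try simp only [sub_sub_cancel]
  rw [p62 h0z h1z]
  simp only [nd, fBd, mul_one, one_mul]
  rcases le_or_gt (z - 1 / 25) 0 with g0 | g0
  · skip
    have q0 : hg (z - 1 / 25) = 0 := hgn (by linarith)
    simp only [q0]
    try split_ifs
    all_goals first | (exfalso; linarith) | ring
  · skip
    have q0 : hg (z - 1 / 25) = z - 1 / 25 := hgp (by linarith)
    simp only [q0]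
    try split_ifs
    all_goals first | (exfalso; linarith) | ring

theorem x62 (e0 : 0 < e) (e1 : e ≤ 1 / 40) {z : ℝ} (h0z : 0 ≤ z) (h1z : z < 1 / 16) :
    LAM e * (xt6q2.v (1 + z) (1 - e) + 3 / 2) = (nd e z).c 1 := by
  simp only [xt6q2, xt6q2_3]
  push_cast
  try simp only [sub_sub_cancel]
  rw [p62 h0z h1z]
  simp only [Sv.c, nd, fXd, mul_one, one_mul, div_one, add_zero]
  rcases le_or_gt (z - 1 / 25) 0 with g0 | g0
  · skip
    have q0 : hg (z - 1 / 25) = 0 := hgn (by linarith)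
    simp only [q0]
    try split_ifs
    all_goals first | (exfalso; linarith) | ring
  · skip
    have q0 : hg (z - 1 / 25) = z - 1 / 25 := hgp (by linarith)
    simp only [q0]
    try split_ifs
    all_goals first | (exfalso; linarith) | ring

theorem nv62 {V : Vx} (e0 : 0 < e) (e1 : e ≤ 1 / 40) {z : ℝ} (h0z : 0 ≤ z) (h1z : z < 1 / 16) : NV V ⟨DD (1 - e), tKF, tKN, tL⟩ e 6 2 (3 / 2) (1 + z) (nd e z) := by
  have hq : InQ 2 (1 + z) := inq2 h0z h1z
  refine mkNV (kf := kf6q2.v (1 + z) (1 - e)) (kb := kb6q2.v (1 + z) (1 - e)) (cv := cv6p.v (1 + z)) (xt := xt6q2.v (1 + z) (1 - e)) ?_ ?_ ?_ ?_ (k62 e0 e1 h0z h1z) (b62x e0 e1 h0z h1z) (x62 e0 e1 h0z h1z)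
  · exact tbF_on (onc hq (by decide))
  · rw [show tKN 6 2 (1 + z) (1 - e) = kn6q2.v (1 + z) (1 - e) from tbF_on (onc hq (by decide))]
    simp only [kn6q2, lmuv, muv]
  · rw [show tL 6 2 (1 + z) (1 - e) = l6q2.v (1 + z) (1 - e) from tbF_on (onc hq (by decide))]
    simp only [l6q2, lamv]
  · exact ecv6q2 (1 - e)

theorem k33 (e0 : 0 < e) (e1 : e ≤ 1 / 40) {u : ℝ} (h0u : -(1 / 16) < u) (h1u : u ≤ 0) :
    kf3q3.v (2 + u) (1 - e) = 0 + (W3 1 e u).k := by
  rw [kf3w3 e0 e1 (by linarith) (by linarith), show (2 : ℝ) - (2 + u) = -u by ring]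
  simp only [W3]
  all_goals ring

theorem b33x (e0 : 0 < e) (e1 : e ≤ 1 / 40) {u : ℝ} (h0u : -(1 / 16) < u) (h1u : u ≤ 0) :
    kb3q3.v (2 + u) (1 - e) = B0 e * (0) + (W3 1 e u).b := by
  rw [kb3w3 e0 e1 (by linarith) (by linarith), show (2 : ℝ) - (2 + u) = -u by ring]
  simp only [W3]
  all_goals ring

theorem x33 (e0 : 0 < e) (e1 : e ≤ 1 / 40) {u : ℝ} (h0u : -(1 / 16) < u) (h1u : u ≤ 0) :
    LAM e * (xt3q3.v (2 + u) (1 - e) + 0) = (W3 1 e u).c 1 := by
  rw [xt3w3 e0 e1 (by linarith) (by linarith), show (2 : ℝ) - (2 + u) = -u by ring]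
  simp only [Sv.c, W3, mul_one, one_mul, div_one, zero_div, zero_add, add_zero]
  all_goals ring

theorem nv33 {V : Vx} (e0 : 0 < e) (e1 : e ≤ 1 / 40) {u : ℝ} (h0u : -(1 / 16) < u) (h1u : u ≤ 0) : NV V ⟨DD (1 - e), tKF, tKN, tL⟩ e 3 3 (0) (2 + u) (W3 1 e u) := by
  have hq : InQ 3 (2 + u) := inq3 h0u h1u
  refine mkNV (kf := kf3q3.v (2 + u) (1 - e)) (kb := kb3q3.v (2 + u) (1 - e)) (cv := cv3r.v (2 + u)) (xt := xt3q3.v (2 + u) (1 - e)) ?_ ?_ ?_ ?_ (k33 e0 e1 h0u h1u) (b33x e0 e1 h0u h1u) (x33 e0 e1 h0u h1u)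
  · exact tbF_on (onc hq (by decide))
  · rw [show tKN 3 3 (2 + u) (1 - e) = kn3q3.v (2 + u) (1 - e) from tbF_on (onc hq (by decide))]
    simp only [kn3q3, lmuv, muv]
  · rw [show tL 3 3 (2 + u) (1 - e) = l3q3.v (2 + u) (1 - e) from tbF_on (onc hq (by decide))]
    simp only [l3q3, lamv]
  · exact ecv3q3 (1 - e) (by linarith)

theorem k02 (e0 : 0 < e) (e1 : e ≤ 1 / 40) {z : ℝ} (h0z : 0 ≤ z) (h1z : z < 1 / 16) :
    kfc02.v (c1n (1 + z)) (1 - e) = 1 / 2 + (C1u 1 e z).k := by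
  have on : h0 * (1 + z) < 1 := by nlinarith [h0_sq, h0_pos]
  have ya := yag_v (by linarith : (0 : ℝ) ≤ 1 + z) on
  simp only [kfc02, kfc02_9, ya]
  push_cast
  rw [a02n (by linarith) (by linarith)]
  rw [rkv e0 e1 (by linarith [b02 h0z h1z])]
  simp only [C1u, g1, c1n_cc1, mul_one, one_mul]
  all_goals ring

theorem b02x (e0 : 0 < e) (e1 : e ≤ 1 / 40) {z : ℝ} (h0z : 0 ≤ z) (h1z : z < 1 / 16) :
    kbc02.v (c1n (1 + z)) (1 - e) = B0 e * (1 / 2) + (C1u 1 e z).b := by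
  have on : h0 * (1 + z) < 1 := by nlinarith [h0_sq, h0_pos]
  have ya := yag_v (by linarith : (0 : ℝ) ≤ 1 + z) on
  simp only [kbc02, kbc02_9, ya]
  push_cast
  rw [a02n (by linarith) (by linarith)]
  rw [rbv e0 e1 (by linarith [b02 h0z h1z])]
  simp only [C1u, g1, c1n_cc1, mul_one, one_mul]
  all_goals ring

theorem x02 (e0 : 0 < e) (e1 : e ≤ 1 / 40) {z : ℝ} (h0z : 0 ≤ z) (h1z : z < 1 / 16) :
    LAM e * ((alg.v (sg1 z 1) (1 - e) - beg.v (sg1 z 1) (1 - e) - 1 / 2) + 1 / 2) = (C1u 1 e z).c 1 := by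
  rw [alv e0 e1 (b02 h0z h1z), bev e0 e1 (b02 h0z h1z)]
  simp only [Sv.c, C1u, mul_one, one_mul, div_one, zero_div, zero_add, add_zero]
  all_goals ring

theorem nv02 {V : Vx} (e0 : 0 < e) (e1 : e ≤ 1 / 40) {z : ℝ} (h0z : 0 ≤ z) (h1z : z < 1 / 16) : NV V ⟨DD (1 - e), tKF, tKN, tL⟩ e 0 2 (1 / 2) (1 + z) (C1u 1 e z) := by
  have hq : InQ 2 (1 + z) := inq2 h0z h1z
  have on : h0 * (1 + z) < 1 := by nlinarith [h0_sq, h0_pos]
  have ya := yag_v (by linarith : (0 : ℝ) ≤ 1 + z) on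
  refine mkNV (kf := kfc02.v (c1n (1 + z)) (1 - e)) (kb := kbc02.v (c1n (1 + z)) (1 - e)) (cv := c1n (1 + z)) (xt := (alg.v (sg1 z 1) (1 - e) - beg.v (sg1 z 1) (1 - e) - 1 / 2)) ?_ ?_ ?_ ?_ (k02 e0 e1 h0z h1z) (b02x e0 e1 h0z h1z) (x02 e0 e1 h0z h1z)
  · exact tbF_on (⟨hq, fun _ => on⟩)
  · rw [show tKN 0 2 (1 + z) (1 - e) = knc02.v (c1n (1 + z)) (1 - e) from tbF_on (⟨hq, fun _ => on⟩)]
    simp only [knc02, lmuv, muv]
  · rw [show tL 0 2 (1 + z) (1 - e) = lc02.v (c1n (1 + z)) (1 - e) from tbF_on (⟨hq, fun _ => on⟩)]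
    simp only [lc02, lc02_7, ya, lamv]
    push_cast
    rw [a02n (by linarith) (by linarith)]
  · exact crv0 _ _ _

theorem k73 (e0 : 0 < e) (e1 : e ≤ 1 / 40) {u : ℝ} (h0u : -(1 / 16) < u) (h1u : u ≤ 0) :
    kfc73.v (c3n (2 + u)) (1 - e) = 0 + (C33 1 e u).k := by
  have yc := ycg_v (by linarith : (0 : ℝ) ≤ 2 + u) (by linarith : 2 + u ≤ 2)
  simp only [kfc73, yc]
  push_cast
  rw [E1.c3n_two, rkv' e0 e1]
  simp only [C33, mul_one, one_mul]
  all_goals ring

theorem b73x (e0 : 0 < e) (e1 : e ≤ 1 / 40) {u : ℝ} (h0u : -(1 / 16) < u) (h1u : u ≤ 0) :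
    kbc73.v (c3n (2 + u)) (1 - e) = B0 e * (0) + (C33 1 e u).b := by
  have yc := ycg_v (by linarith : (0 : ℝ) ≤ 2 + u) (by linarith : 2 + u ≤ 2)
  simp only [kbc73, yc]
  push_cast
  rw [E1.c3n_two, rbv' e0 e1]
  simp only [C33, mul_one, one_mul]
  all_goals ring

theorem x73 (e0 : 0 < e) (e1 : e ≤ 1 / 40) {u : ℝ} (h0u : -(1 / 16) < u) (h1u : u ≤ 0) :
    LAM e * ((2 * beg.v (2 / 3 * x3v u 1) (1 - e) - alg.v (2 / 3 * x3v u 1) (1 - e)) + 0) = (C33 1 e u).c 1 := by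
  rw [alv' e0 e1 (b73 h0u h1u), bev' e0 e1 (b73 h0u h1u)]
  simp only [Sv.c, C33, mul_one, one_mul, div_one, zero_div, zero_add, add_zero]
  all_goals ring

theorem nv73 {V : Vx} (e0 : 0 < e) (e1 : e ≤ 1 / 40) {u : ℝ} (h0u : -(1 / 16) < u) (h1u : u ≤ 0) : NV V ⟨DD (1 - e), tKF, tKN, tL⟩ e 7 3 (0) (2 + u) (C33 1 e u) := by
  have hq : InQ 3 (2 + u) := inq3 h0u h1u
  have yc := ycg_v (by linarith : (0 : ℝ) ≤ 2 + u) (by linarith : 2 + u ≤ 2)
  refine mkNV (kf := kfc73.v (c3n (2 + u)) (1 - e)) (kb := kbc73.v (c3n (2 + u)) (1 - e)) (cv := x3v u 1) (xt := (2 * beg.v (2 / 3 * x3v u 1) (1 - e) - alg.v (2 / 3 * x3v u 1) (1 - e))) ?_ ?_ ?_ ?_ (k73 e0 e1 h0u h1u) (b73x e0 e1 h0u h1u) (x73 e0 e1 h0u h1u)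
  · exact tbF_on (onc hq (by decide))
  · rw [show tKN 7 3 (2 + u) (1 - e) = knc73.v (c3n (2 + u)) (1 - e) from tbF_on (onc hq (by decide))]
    simp only [knc73, lmuv, muv]
  · rw [show tL 7 3 (2 + u) (1 - e) = lc73.v (c3n (2 + u)) (1 - e) from tbF_on (onc hq (by decide))]
    simp only [lc73, lc73_8, lc73_15, yc, lamv]
    push_cast
    have hc : ¬ ((2 + u) ^ 2 - 3 ≤ 0) := by nlinarith
    rw [if_neg hc, E1.c3n_two]
  · rw [crv7, E1.c3n_two]

theorem k53 (e0 : 0 < e) (e1 : e ≤ 1 / 40) {u : ℝ} (h0u : -(1 / 16) < u) (h1u : u ≤ 0) :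
    kfc53.v (c3n (2 + u)) (1 - e) = 0 + (n53 e u).k := by
  have yc := ycg_v (by linarith : (0 : ℝ) ≤ 2 + u) (by linarith : 2 + u ≤ 2)
  simp only [kfc53, kfc53_16, yc]
  push_cast
  have hc : ¬ (2 + u - 2 + 1 / 16 ≤ 0) := by linarith
  rw [if_neg hc, kf3w3 e0 e1 (by linarith) (by linarith), E1.c3n_two, rkv' e0 e1, show (2 : ℝ) - (2 + u) = -u by ring]
  simp only [n53, W3, C33, mul_one, one_mul]
  all_goals ring

theorem b53x (e0 : 0 < e) (e1 : e ≤ 1 / 40) {u : ℝ} (h0u : -(1 / 16) < u) (h1u : u ≤ 0) :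
    kbc53.v (c3n (2 + u)) (1 - e) = B0 e * (0) + (n53 e u).b := by
  have yc := ycg_v (by linarith : (0 : ℝ) ≤ 2 + u) (by linarith : 2 + u ≤ 2)
  simp only [kbc53, kbc53_16, yc]
  push_cast
  have hc : ¬ (2 + u - 2 + 1 / 16 ≤ 0) := by linarith
  rw [if_neg hc, kb3w3 e0 e1 (by linarith) (by linarith), E1.c3n_two, rbv' e0 e1, show (2 : ℝ) - (2 + u) = -u by ring]
  simp only [n53, W3, C33, mul_one, one_mul]
  all_goals ring

theorem x53 (e0 : 0 < e) (e1 : e ≤ 1 / 40) {u : ℝ} (h0u : -(1 / 16) < u) (h1u : u ≤ 0) :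
    LAM e * (xt5q3.v (2 + u) (1 - e) + 0) = (n53 e u).c 1 := by
  simp only [xt5q3, xt5q3_3, xt5q3_20]
  push_cast
  try simp only [sub_sub_cancel]
  rw [p53 (by linarith) (by linarith)]
  simp only [Sv.c, n53, v5, xv5, mul_one, one_mul, div_one, zero_div, zero_add, add_zero]
  split_ifs
  all_goals first | (exfalso; linarith) | ring

theorem nv53 {V : Vx} (e0 : 0 < e) (e1 : e ≤ 1 / 40) {u : ℝ} (h0u : -(1 / 16) < u) (h1u : u ≤ 0) : NV V ⟨DD (1 - e), tKF, tKN, tL⟩ e 5 3 (0) (2 + u) (n53 e u) := by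
  have hq : InQ 3 (2 + u) := inq3 h0u h1u
  have yc := ycg_v (by linarith : (0 : ℝ) ≤ 2 + u) (by linarith : 2 + u ≤ 2)
  refine mkNV (kf := kfc53.v (c3n (2 + u)) (1 - e)) (kb := kbc53.v (c3n (2 + u)) (1 - e)) (cv := cv5r.v (2 + u)) (xt := xt5q3.v (2 + u) (1 - e)) ?_ ?_ ?_ ?_ (k53 e0 e1 h0u h1u) (b53x e0 e1 h0u h1u) (x53 e0 e1 h0u h1u)
  · exact tbF_on (onc hq (by decide))
  · rw [show tKN 5 3 (2 + u) (1 - e) = knc53.v (c3n (2 + u)) (1 - e) from tbF_on (onc hq (by decide))]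
    simp only [knc53, lmuv, muv]
  · rw [show tL 5 3 (2 + u) (1 - e) = lc53.v (c3n (2 + u)) (1 - e) from tbF_on (onc hq (by decide))]
    simp only [lc53, lc53_10, lc53_12, lc53_29, xt5q3, xt5q3_3, xt5q3_20, yc, lamv]
    push_cast
    try simp only [sub_sub_cancel, cv5r, c3g_v]
    try push_cast
    ring_nf
  · exact ecv5q3 (1 - e) (by linarith)

theorem k63 (e0 : 0 < e) (e1 : e ≤ 1 / 40) {u : ℝ} (h0u : -(1 / 16) < u) (h1u : u ≤ 0) :
    kfc63.v (c3n (2 + u)) (1 - e) = 0 + (n63 e u).k := by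
  have yc := ycg_v (by linarith : (0 : ℝ) ≤ 2 + u) (by linarith : 2 + u ≤ 2)
  simp only [kfc63, kfc63_16, yc]
  push_cast
  have hc : ¬ (2 + u - 2 + 1 / 16 ≤ 0) := by linarith
  rw [if_neg hc, kf3w3 e0 e1 (by linarith) (by linarith), E1.c3n_two, rkv' e0 e1, show (2 : ℝ) - (2 + u) = -u by ring]
  simp only [n63, W3, C33, mul_one, one_mul]
  all_goals ring

theorem b63x (e0 : 0 < e) (e1 : e ≤ 1 / 40) {u : ℝ} (h0u : -(1 / 16) < u) (h1u : u ≤ 0) :
    kbc63.v (c3n (2 + u)) (1 - e) = B0 e * (0) + (n63 e u).b := by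
  have yc := ycg_v (by linarith : (0 : ℝ) ≤ 2 + u) (by linarith : 2 + u ≤ 2)
  simp only [kbc63, kbc63_6, yc]
  push_cast
  have hc : ¬ (2 + u - 2 + 1 / 16 ≤ 0) := by linarith
  rw [if_neg hc, kb3w3 e0 e1 (by linarith) (by linarith), E1.c3n_two, rbv' e0 e1, show (2 : ℝ) - (2 + u) = -u by ring]
  simp only [n63, W3, C33, mul_one, one_mul]
  all_goals ring

theorem x63 (e0 : 0 < e) (e1 : e ≤ 1 / 40) {u : ℝ} (h0u : -(1 / 16) < u) (h1u : u ≤ 0) :
    LAM e * (xt6q3.v (2 + u) (1 - e) + 0) = (n63 e u).c 1 := by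
  simp only [xt6q3, xt6q3_3]
  push_cast
  try simp only [sub_sub_cancel]
  rw [p63 (by linarith) (by linarith)]
  simp only [Sv.c, n63, v6, xv6, mul_one, one_mul, div_one, zero_div, zero_add, add_zero]
  split_ifs
  all_goals first | (exfalso; linarith) | ring

theorem nv63 {V : Vx} (e0 : 0 < e) (e1 : e ≤ 1 / 40) {u : ℝ} (h0u : -(1 / 16) < u) (h1u : u ≤ 0) : NV V ⟨DD (1 - e), tKF, tKN, tL⟩ e 6 3 (0) (2 + u) (n63 e u) := by
  have hq : InQ 3 (2 + u) := inq3 h0u h1u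
  have yc := ycg_v (by linarith : (0 : ℝ) ≤ 2 + u) (by linarith : 2 + u ≤ 2)
  refine mkNV (kf := kfc63.v (c3n (2 + u)) (1 - e)) (kb := kbc63.v (c3n (2 + u)) (1 - e)) (cv := cv6r.v (2 + u)) (xt := xt6q3.v (2 + u) (1 - e)) ?_ ?_ ?_ ?_ (k63 e0 e1 h0u h1u) (b63x e0 e1 h0u h1u) (x63 e0 e1 h0u h1u)
  · exact tbF_on (onc hq (by decide))
  · rw [show tKN 6 3 (2 + u) (1 - e) = knc63.v (c3n (2 + u)) (1 - e) from tbF_on (onc hq (by decide))]
    simp only [knc63, lmuv, muv]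
  · rw [show tL 6 3 (2 + u) (1 - e) = lc63.v (c3n (2 + u)) (1 - e) from tbF_on (onc hq (by decide))]
    simp only [lc63, lc63_10, lc63_12, xt6q3, xt6q3_3, yc, lamv]
    push_cast
    try simp only [sub_sub_cancel, cv6r, c3g_v]
    try push_cast
    ring_nf
  · exact ecv6q3 (1 - e) (by linarith)

/-- the values of the tables in the windows -/
theorem nodF {x : ℝ} (hx : 39 / 40 ≤ x) (hx' : x < 1) : Nod .far ⟨DD x, tKF, tKN, tL⟩ (1 - x) := by
  obtain ⟨e, rfl⟩ : ∃ e, x = 1 - e := ⟨1 - x, by ring⟩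
  have e0 : 0 < e := by linarith
  have e1 : e ≤ 1 / 40 := by linarith
  rw [sub_sub_cancel]
  exact
    { e0 := e0, e1 := e1, pK := pvKF hx hx', pL := pvL hx hx'
      cv0 := fun q y => crv0 _ _ _, cv1 := fun q y => crv1 _ _ _, cv2 := fun q y => crv2 _ _ _
      cv3 := fun q y => (crv3 _ _ _).trans (by ring), cv4 := fun q y => (crv4 hx hx' _ _).trans (by ring)
      cv5 := fun q y => crv5 _ _ _, cv6 := fun q y => crv6 _ _ _, cv7 := fun q y => crv7 _ _ _
      r1 := fun y h => h, r2 := fun y h => h, r4 := fun y h => h, r5 := fun y h => h, r6 := fun y h => h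
      n00 := fun y a b => nv00 e0 e1 a b, n30 := fun y a b => nv30 e0 e1 a b, n40 := fun y a b => nv40 e0 e1 a b, n50 := fun y a b => nv50 e0 e1 a b
      n01 := fun y a b => nv01 e0 e1 a b, n11 := fun y a b => nv11 e0 e1 a b, n21 := fun y a b => nv21 e0 e1 a b, n31 := fun y a b => nv31 e0 e1 a b, n71 := fun y a b => nv71 e0 e1 a b
      n02 := fun y a b => nv02 e0 e1 a b, n32 := fun y a b => nv32 e0 e1 a b, n52 := fun y a b => nv52 e0 e1 a b, n62 := fun y a b => nv62 e0 e1 a b, n72 := fun y a b => nv72 e0 e1 a b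
      n33 := fun y a b => nv33 e0 e1 a b, n53 := fun y a b => nv53 e0 e1 a b, n63 := fun y a b => nv63 e0 e1 a b, n73 := fun y a b => nv73 e0 e1 a b }

/-- the values of the tables in the windows -/
theorem nodN {x : ℝ} (hx : 39 / 40 ≤ x) (hx' : x < 1) : Nod .near ⟨DD x, tKF, tKN, tL⟩ (1 - x) := by
  obtain ⟨e, rfl⟩ : ∃ e, x = 1 - e := ⟨1 - x, by ring⟩
  have e0 : 0 < e := by linarith
  have e1 : e ≤ 1 / 40 := by linarith
  rw [sub_sub_cancel]
  exact
    { e0 := e0, e1 := e1, pK := pvKN hx hx', pL := pvL hx hx'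
      cv0 := fun q y => crv0 _ _ _, cv1 := fun q y => crv1 _ _ _, cv2 := fun q y => crv2 _ _ _
      cv3 := fun q y => (crv3 _ _ _).trans (by ring), cv4 := fun q y => (crv4 hx hx' _ _).trans (by ring)
      cv5 := fun q y => crv5 _ _ _, cv6 := fun q y => crv6 _ _ _, cv7 := fun q y => crv7 _ _ _
      r1 := fun y h => h, r2 := fun y h => h, r4 := fun y h => h, r5 := fun y h => h, r6 := fun y h => h
      n00 := fun y a b => nv00 e0 e1 a b, n30 := fun y a b => nv30 e0 e1 a b, n40 := fun y a b => nv40 e0 e1 a b, n50 := fun y a b => nv50 e0 e1 a b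
      n01 := fun y a b => nv01 e0 e1 a b, n11 := fun y a b => nv11 e0 e1 a b, n21 := fun y a b => nv21 e0 e1 a b, n31 := fun y a b => nv31 e0 e1 a b, n71 := fun y a b => nv71 e0 e1 a b
      n02 := fun y a b => nv02 e0 e1 a b, n32 := fun y a b => nv32 e0 e1 a b, n52 := fun y a b => nv52 e0 e1 a b, n62 := fun y a b => nv62 e0 e1 a b, n72 := fun y a b => nv72 e0 e1 a b
      n33 := fun y a b => nv33 e0 e1 a b, n53 := fun y a b => nv53 e0 e1 a b, n63 := fun y a b => nv63 e0 e1 a b, n73 := fun y a b => nv73 e0 e1 a b }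

end

end Pool.Agent.Strip051.G.IE1.Tab
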