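import Pool.Agent.Strip051.LC.E1.FxZ
import Pool.Agent.Strip051.G.IE1.Nod
import Pool.Agent.Strip051.G.IE1.FxF
import Pool.Agent.Strip051.G.IE1.FxN
import Pool.Agent.Strip051.G.IE1.FxWU

/-! # The inequalities at the nodes at the floor near `x = 1` (generated) -/

set_option linter.all false

namespace Pool.Agent.Strip051.G.IE1.Tab

open Pool.Agent.StripNear Pool.Agent.StripSquare Pool.Agent.Strip051 Pool.Agent.Strip051.Sweep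
open Pool.Agent.Strip051.PB Pool.Agent.Strip051.PB.Fx Pool.Agent.Strip051.LC Pool.Agent.Strip051.LC.E1
open Pool.Agent.Strip051.LC.Floor (G)


/-- The first coefficient. -/
noncomputable def alF (x t : ℝ) : ℝ := alfg.v (max t (9 / 10)) x
noncomputable def alN (x t : ℝ) : ℝ := alng.v (max t (9 / 10)) x
noncomputable def beF (x t : ℝ) : ℝ := befg.v (max t (9 / 10)) x
noncomputable def beN (x t : ℝ) : ℝ := beng.v (max t (9 / 10)) x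
theorem alF_eq {x t : ℝ} (h : 99 / 100 ≤ t) : alF x t = alfg.v t x := by unfold alF; rw [max_eq_left (by linarith)]
theorem alN_eq {x t : ℝ} (h : 99 / 100 ≤ t) : alN x t = alng.v t x := by unfold alN; rw [max_eq_left (by linarith)]
theorem beF_eq {x t : ℝ} (h : 99 / 100 ≤ t) : beF x t = befg.v t x := by unfold beF; rw [max_eq_left (by linarith)]
theorem beN_eq {x t : ℝ} (h : 99 / 100 ≤ t) : beN x t = beng.v t x := by unfold beN; rw [max_eq_left (by linarith)]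
theorem umf {x y t : ℝ} (hx' : x < 1) (hT : InT (1 / 2 - 7 / 4 * (1 - x)) t) (t1 : t ≤ y + 7 / 20 * (1 - x)) :
    1 - (1 / 2 - 7 / 4 * (1 - x)) ^ 2 - 3 / 4 * (y + 7 / 20 * (1 - x)) ^ 2 ≤ 0 := by
  have k := inT_um hT
  have k0 := inT_pos hT
  nlinarith
theorem yag_le {y : ℝ} (h0y : 0 ≤ y) (h : h0 * y ≤ 1) : yag.v (c1n y) = y := by
  have hp := h0_pos
  have h2 : (h0 * y) ^ 2 ≤ 1 := by nlinarith [mul_nonneg hp.le h0y]
  rw [mul_pow, h0_sq] at h2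
  have e : √(4 / 3 * (1 - c1n y ^ 2)) = y := by
    rw [c1n_sq h2, show (4 : ℝ) / 3 * (1 - (1 - 3 / 4 * y ^ 2)) = y ^ 2 by ring, Real.sqrt_sq h0y]
  simpa [yag] using e
theorem xsg_v (p x : ℝ) : xsg.v p x = 1 - p := by
  simp only [xsg]
  push_cast
  ring
theorem xdg_v (p x : ℝ) : xdg.v p x = 1 + 3 / 2 * (1 - x) := by
  simp only [xdg]
  push_cast
  ring

theorem x00F {x y : ℝ} (hx : 39 / 40 ≤ x) (hx' : x < 1) (y0 : 0 ≤ y) (y1 : y ≤ 1 / 36) :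
    0 ≤ us2 x 0 0 (y) (crv (PP x) 0 0 (y)) (tKF 0 0 (y) x) (tL 0 0 (y) x) := by
  obtain ⟨r, lam, w, s, rfl, rfl⟩ := win_use hx hx' y0 y1
  have h := nodF hx hx'
  rw [sub_sub_cancel] at h
  exact W.w00F h s
theorem x30F {x y : ℝ} (hx : 39 / 40 ≤ x) (hx' : x < 1) (y0 : 0 ≤ y) (y1 : y ≤ 1 / 36) :
    0 ≤ us2 x 0 0 (y) (crv (PP x) 3 0 (y)) (tKF 3 0 (y) x) (tL 3 0 (y) x) := by
  obtain ⟨r, lam, w, s, rfl, rfl⟩ := win_use hx hx' y0 y1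
  have h := nodF hx hx'
  rw [sub_sub_cancel] at h
  exact W.w30F h s
theorem x40F {x y : ℝ} (hx : 39 / 40 ≤ x) (hx' : x < 1) (y0 : 0 ≤ y) (y1 : y ≤ 1 / 36) :
    0 ≤ us2 x 0 0 (y) (crv (PP x) 4 0 (y)) (tKF 4 0 (y) x) (tL 4 0 (y) x) := by
  obtain ⟨r, lam, w, s, rfl, rfl⟩ := win_use hx hx' y0 y1
  have h := nodF hx hx'
  rw [sub_sub_cancel] at h
  exact W.w40F h s
theorem x50F {x y : ℝ} (hx : 39 / 40 ≤ x) (hx' : x < 1) (y0 : 7 / 20 * (1 - x) ≤ y) (y1 : y ≤ 1 / 36) :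
    0 ≤ us2 x 0 0 (y) (crv (PP x) 5 0 (y)) (tKF 5 0 (y) x) (tL 5 0 (y) x) := by
  obtain ⟨r, lam, w, s, rfl, rfl⟩ := win_use hx hx' (by linarith) y1
  have h := nodF hx hx'
  rw [sub_sub_cancel] at h
  exact W.w50F h s (s.of_high (by linarith))
theorem x5fF {x y : ℝ} (hx : 39 / 40 ≤ x) (hx' : x < 1) (y0 : 0 ≤ y) (y1 : y ≤ 7 / 20 * (1 - x)) :
    0 ≤ us2 x 0 0 y (crv (PP x) 5 0 y) (tKF 5 0 y x) (tL 5 0 y x) + 1 / 5 * (1 - x) * gl2 x 0 0 y (crv (PP x) 5 0 y) (tKF 5 0 y x) (tL 5 0 y x) := by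
  obtain ⟨r, lam, w, s, rfl, rfl⟩ := win_use hx hx' y0 (by linarith)
  have h := nodF hx hx'
  rw [sub_sub_cancel] at h
  obtain ⟨k1, k2⟩ := s.of_low (by linarith)
  have k := W.f50F h s k1 k2
  rw [sub_sub_cancel]
  exact k
theorem x01F {x v : ℝ} (hx : 39 / 40 ≤ x) (hx' : x < 1) (v0 : 0 < v) (v1 : v ≤ 1 / 36) :
    0 ≤ us2 x 0 1 (1 - v) (crv (PP x) 0 1 (1 - v)) (tKF 0 1 (1 - v) x) (tL 0 1 (1 - v) x) := by
  obtain ⟨r, lam, w, s, rfl, rfl⟩ := win_use hx hx' v0.le v1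
  have h := nodF hx hx'
  rw [sub_sub_cancel] at h
  have hw : 0 < w := by
    rcases s.w0.eq_or_lt with k | k
    · rw [← k, mul_zero] at v0
      exact absurd v0 (lt_irrefl _)
    · exact k
  have k := W.w01F h s hw
  unfold usN at k
  rw [show 1 + r * -w = 1 - r * w by ring] at k
  exact k
theorem x32F {x v : ℝ} (hx : 39 / 40 ≤ x) (hx' : x < 1) (v0 : 0 ≤ v) (v1 : v ≤ 1 / 36) :
    0 ≤ us2 x 0 2 (1 + v) (crv (PP x) 3 2 (1 + v)) (tKF 3 2 (1 + v) x) (tL 3 2 (1 + v) x) := by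
  obtain ⟨r, lam, w, s, rfl, rfl⟩ := win_use hx hx' v0 v1
  have h := nodF hx hx'
  rw [sub_sub_cancel] at h
  exact W.w32F h s
theorem xh2F {x v a : ℝ} (hx : 39 / 40 ≤ x) (hx' : x < 1) (v0 : 0 ≤ v) (v1 : v ≤ 1 / 36)
    (hg : 0 ≤ gl2 x 0 2 (1 + v) (crv (PP x) 0 2 (1 + v)) (tKF 0 2 (1 + v) x) (tL 0 2 (1 + v) x)) (ha : alfg.v (1 + (v - 7 / 20 * (1 - x))) x ≤ a) :
    NHi (DD x) x 0 tKF tL (7 / 20 * (1 - x)) (1 / 5 * (1 - x))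
      (1 + 3 / 2 * (1 - x)) 0 2 (1 + v) a := by
  obtain ⟨r, lam, w, s, rfl, rfl⟩ := win_use hx hx' v0 v1
  rw [sub_sub_cancel, show r * w - 7 / 20 * (lam * r) = r * (w - 7 / 20 * lam) by ring] at ha
  have h := nodF hx hx'
  rw [sub_sub_cancel] at h
  have k := W.h02F h s (a := a) (by exact hg) ha
  rw [sub_sub_cancel]
  exact k
theorem xn0F {x v : ℝ} (hx : 39 / 40 ≤ x) (hx' : x < 1) (v0 : 0 ≤ v) (v1 : v ≤ 1 / 36)
    (hum : 1 - (1 / 2 - 7 / 4 * (1 - x)) ^ 2 - 3 / 4 * (1 + v) ^ 2 ≤ 0) :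
    NNr x 0 (7 / 20 * (1 - x)) (1 / 5 * (1 - x)) 2 (1 + v) (crv (PP x) 0 2 (1 + v)) (tKF 0 2 (1 + v) x) (tL 0 2 (1 + v) x)
      (befg.v (1 + v) x) := by
  obtain ⟨r, lam, w, s, rfl, rfl⟩ := win_use hx hx' v0 v1
  rw [sub_sub_cancel] at hum
  have h := nodF hx hx'
  rw [sub_sub_cancel] at h
  have k := W.n02F h s hum
  rw [sub_sub_cancel]
  exact k
theorem xn3F {x v : ℝ} (hx : 39 / 40 ≤ x) (hx' : x < 1) (v0 : 0 ≤ v) (v1 : v ≤ 1 / 36)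
    (hum : 1 - (1 / 2 - 7 / 4 * (1 - x)) ^ 2 - 3 / 4 * (1 + v) ^ 2 ≤ 0) :
    NNr x 0 (7 / 20 * (1 - x)) (1 / 5 * (1 - x)) 2 (1 + v) (crv (PP x) 3 2 (1 + v)) (tKF 3 2 (1 + v) x) (tL 3 2 (1 + v) x)
      (befg.v (1 + v) x) := by
  obtain ⟨r, lam, w, s, rfl, rfl⟩ := win_use hx hx' v0 v1
  rw [sub_sub_cancel] at hum
  have h := nodF hx hx'
  rw [sub_sub_cancel] at h
  have k := W.n32F h s hum
  rw [sub_sub_cancel]
  exact k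
theorem xr7F {x v b : ℝ} (hx : 39 / 40 ≤ x) (hx' : x < 1) (v0 : 0 ≤ v) (v1 : v ≤ 1 / 36)
    (hg : 0 ≤ gl2 x 0 2 (1 + v) (crv (PP x) 7 2 (1 + v)) (tKF 7 2 (1 + v) x) (tL 7 2 (1 + v) x))
    (hum : 1 - (1 / 2 - 7 / 4 * (1 - x)) ^ 2 - 3 / 4 * (1 + v + 7 / 20 * (1 - x)) ^ 2 ≤ 0)
    (hD : 1 + 3 / 2 * (1 - x) ≤ crv (PP x) 7 2 (1 + v)) (hb : b ≤ befg.v (1 + v + 7 / 20 * (1 - x)) x) :
    NFar x 0 (7 / 20 * (1 - x)) (1 / 5 * (1 - x)) (1 + 3 / 2 * (1 - x)) 2 (1 + v) (crv (PP x) 7 2 (1 + v)) (tKF 7 2 (1 + v) x) (tL 7 2 (1 + v) x) b := by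
  obtain ⟨r, lam, w, s, rfl, rfl⟩ := win_use hx hx' v0 v1
  rw [sub_sub_cancel] at hum hD hb
  have h := nodF hx hx'
  rw [sub_sub_cancel] at h
  have k := W.r72F h s (by exact hg) hum hD hb
  rw [sub_sub_cancel]
  exact k
theorem b_w00F {x y : ℝ} (hx : 39 / 40 ≤ x) (hx' : x < 1) (h : OnC (0 : Fin 8) 0 y)
    (h1 : 1 / 36 ≤ y) (h2 : y ≤ 1 / 2) (hy : y < x) :
    0 ≤ us2 x 0 0 y (crv (PP x) 0 0 y) (tKF 0 0 y x) (tL 0 0 y x) := by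
  have c := pos5_one (k_w00F.at (atF00 hx hx' h) (rgM h1 h2 (by norm_num) (by norm_num)) (rgM hx hx'.le (by norm_num) (by norm_num)))
  rw [← us_F0 (by linarith) hx' hy] at c
  exact c.le
theorem b_w30F {x y : ℝ} (hx : 39 / 40 ≤ x) (hx' : x < 1) (h : OnC (3 : Fin 8) 0 y)
    (h1 : 1 / 36 ≤ y) (h2 : y ≤ 1 / 2) (hy : y < x) :
    0 ≤ us2 x 0 0 y (crv (PP x) 3 0 y) (tKF 3 0 y x) (tL 3 0 y x) := by
  have c := pos5_one (k_w30F.at (atF30 hx hx' h) (rgM h1 h2 (by norm_num) (by norm_num)) (rgM hx hx'.le (by norm_num) (by norm_num)))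
  rw [← us_F0 (by linarith) hx' hy] at c
  exact c.le
theorem b_w40F {x y : ℝ} (hx : 39 / 40 ≤ x) (hx' : x < 1) (h : OnC (4 : Fin 8) 0 y)
    (h1 : 1 / 36 ≤ y) (h2 : y ≤ 1 / 16) (hy : y < x) :
    0 ≤ us2 x 0 0 y (crv (PP x) 4 0 y) (tKF 4 0 y x) (tL 4 0 y x) := by
  have c := pos5_one (k_w40F.at (atF40 hx hx' h) (rgM h1 h2 (by norm_num) (by norm_num)) (rgM hx hx'.le (by norm_num) (by norm_num)))
  rw [← us_F0 (by linarith) hx' hy] at c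
  exact c.le
theorem b_w50F {x y : ℝ} (hx : 39 / 40 ≤ x) (hx' : x < 1) (h : OnC (5 : Fin 8) 0 y)
    (h1 : 1 / 36 ≤ y) (h2 : y ≤ 1 / 2) (hy : y < x) :
    0 ≤ us2 x 0 0 y (crv (PP x) 5 0 y) (tKF 5 0 y x) (tL 5 0 y x) := by
  have c := pos5_one (k_w50F.at (atF50 hx hx' h) (rgM h1 h2 (by norm_num) (by norm_num)) (rgM hx hx'.le (by norm_num) (by norm_num)))
  rw [← us_F0 (by linarith) hx' hy] at c
  exact c.le
theorem b_w10F {x y : ℝ} (hx : 39 / 40 ≤ x) (hx' : x < 1) (h : OnC (1 : Fin 8) 0 y)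
    (h1 : 1 / 16 ≤ y) (h2 : y ≤ 1 / 2) (hy : y < x) :
    0 ≤ us2 x 0 0 y (crv (PP x) 1 0 y) (tKF 1 0 y x) (tL 1 0 y x) := by
  have c := pos5_one (k_w10F.at (atF10 hx hx' h) (rgM h1 h2 (by norm_num) (by norm_num)) (rgM hx hx'.le (by norm_num) (by norm_num)))
  rw [← us_F0 (by linarith) hx' hy] at c
  exact c.le
theorem b_w20F {x y : ℝ} (hx : 39 / 40 ≤ x) (hx' : x < 1) (h : OnC (2 : Fin 8) 0 y)
    (h1 : 1 / 16 ≤ y) (h2 : y ≤ 1 / 2) (hy : y < x) :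
    0 ≤ us2 x 0 0 y (crv (PP x) 2 0 y) (tKF 2 0 y x) (tL 2 0 y x) := by
  have c := pos5_one (k_w20F.at (atF20 hx hx' h) (rgM h1 h2 (by norm_num) (by norm_num)) (rgM hx hx'.le (by norm_num) (by norm_num)))
  rw [← us_F0 (by linarith) hx' hy] at c
  exact c.le
theorem b_w60F {x y : ℝ} (hx : 39 / 40 ≤ x) (hx' : x < 1) (h : OnC (6 : Fin 8) 0 y)
    (h1 : 0 ≤ y) (h2 : y ≤ 1 / 2) (hy : y < x) :
    0 ≤ us2 x 0 0 y (crv (PP x) 6 0 y) (tKF 6 0 y x) (tL 6 0 y x) := by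
  have c := pos5_one (k_w60F.at (atF60 hx hx' h) (rgM h1 h2 (by norm_num) (by norm_num)) (rgM hx hx'.le (by norm_num) (by norm_num)))
  rw [← us_F0 (by linarith) hx' hy] at c
  exact c.le
theorem b_w70F {x y : ℝ} (hx : 39 / 40 ≤ x) (hx' : x < 1) (h : OnC (7 : Fin 8) 0 y)
    (h1 : 0 ≤ y) (h2 : y ≤ 1 / 2) (hy : y < x) :
    0 ≤ us2 x 0 0 y (crv (PP x) 7 0 y) (tKF 7 0 y x) (tL 7 0 y x) := by
  have c := pos5_one (k_w70F.at (atF70 hx hx' h) (rgM h1 h2 (by norm_num) (by norm_num)) (rgM hx hx'.le (by norm_num) (by norm_num)))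
  rw [← us_F0 (by linarith) hx' hy] at c
  exact c.le
theorem b_w01F {x y : ℝ} (hx : 39 / 40 ≤ x) (hx' : x < 1) (h : OnC (0 : Fin 8) 1 y)
    (h1 : 1 / 2 ≤ y) (h2 : y ≤ 35 / 36) (hy : y < x) :
    0 ≤ us2 x 0 1 y (crv (PP x) 0 1 y) (tKF 0 1 y x) (tL 0 1 y x) := by
  have c := pos5_one (k_w01F.at (atF01 hx hx' h) (rgM h1 h2 (by norm_num) (by norm_num)) (rgM hx hx'.le (by norm_num) (by norm_num)))
  rw [← us_F1 (by linarith) hx' hy] at c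
  exact c.le
theorem b_w11F {x y : ℝ} (hx : 39 / 40 ≤ x) (hx' : x < 1) (h : OnC (1 : Fin 8) 1 y)
    (h1 : 1 / 2 ≤ y) (h2 : y ≤ 35 / 36) (hy : y < x) :
    0 ≤ us2 x 0 1 y (crv (PP x) 1 1 y) (tKF 1 1 y x) (tL 1 1 y x) := by
  have c := pos5_one (k_w11F.at (atF11 hx hx' h) (rgM h1 h2 (by norm_num) (by norm_num)) (rgM hx hx'.le (by norm_num) (by norm_num)))
  rw [← us_F1 (by linarith) hx' hy] at c
  exact c.le
theorem b_wb11F {x y : ℝ} (hx : 39 / 40 ≤ x) (hx' : x < 1) (h : OnC (1 : Fin 8) 1 y)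
    (h1 : 35 / 36 ≤ y) (h2 : y ≤ 1) :
    0 ≤ us2 x 0 1 y (crv (PP x) 1 1 y) (tKF 1 1 y x) (tL 1 1 y x) := by
  have c := pos5_one (k_wb11F.at (atF11 hx hx' h) (rgM h1 h2 (by norm_num) (by norm_num)) (rgM hx hx'.le (by norm_num) (by norm_num)))
  exact c.le.trans (ub_F (by linarith) hx' (by linarith) (by linarith))
theorem b_w21F {x y : ℝ} (hx : 39 / 40 ≤ x) (hx' : x < 1) (h : OnC (2 : Fin 8) 1 y)
    (h1 : 1 / 2 ≤ y) (h2 : y ≤ 35 / 36) (hy : y < x) :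
    0 ≤ us2 x 0 1 y (crv (PP x) 2 1 y) (tKF 2 1 y x) (tL 2 1 y x) := by
  have c := pos5_one (k_w21F.at (atF21 hx hx' h) (rgM h1 h2 (by norm_num) (by norm_num)) (rgM hx hx'.le (by norm_num) (by norm_num)))
  rw [← us_F1 (by linarith) hx' hy] at c
  exact c.le
theorem b_wb21F {x y : ℝ} (hx : 39 / 40 ≤ x) (hx' : x < 1) (h : OnC (2 : Fin 8) 1 y)
    (h1 : 35 / 36 ≤ y) (h2 : y ≤ 1) :
    0 ≤ us2 x 0 1 y (crv (PP x) 2 1 y) (tKF 2 1 y x) (tL 2 1 y x) := by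
  have c := pos5_one (k_wb21F.at (atF21 hx hx' h) (rgM h1 h2 (by norm_num) (by norm_num)) (rgM hx hx'.le (by norm_num) (by norm_num)))
  exact c.le.trans (ub_F (by linarith) hx' (by linarith) (by linarith))
theorem b_w31F {x y : ℝ} (hx : 39 / 40 ≤ x) (hx' : x < 1) (h : OnC (3 : Fin 8) 1 y)
    (h1 : 1 / 2 ≤ y) (h2 : y ≤ 35 / 36) (hy : y < x) :
    0 ≤ us2 x 0 1 y (crv (PP x) 3 1 y) (tKF 3 1 y x) (tL 3 1 y x) := by
  have c := pos5_one (k_w31F.at (atF31 hx hx' h) (rgM h1 h2 (by norm_num) (by norm_num)) (rgM hx hx'.le (by norm_num) (by norm_num)))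
  rw [← us_F1 (by linarith) hx' hy] at c
  exact c.le
theorem b_wb31F {x y : ℝ} (hx : 39 / 40 ≤ x) (hx' : x < 1) (h : OnC (3 : Fin 8) 1 y)
    (h1 : 35 / 36 ≤ y) (h2 : y ≤ 1) :
    0 ≤ us2 x 0 1 y (crv (PP x) 3 1 y) (tKF 3 1 y x) (tL 3 1 y x) := by
  have c := pos5_one (k_wb31F.at (atF31 hx hx' h) (rgM h1 h2 (by norm_num) (by norm_num)) (rgM hx hx'.le (by norm_num) (by norm_num)))
  exact c.le.trans (ub_F (by linarith) hx' (by linarith) (by linarith))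
theorem b_w71F {x y : ℝ} (hx : 39 / 40 ≤ x) (hx' : x < 1) (h : OnC (7 : Fin 8) 1 y)
    (h1 : 1 / 2 ≤ y) (h2 : y ≤ 35 / 36) (hy : y < x) :
    0 ≤ us2 x 0 1 y (crv (PP x) 7 1 y) (tKF 7 1 y x) (tL 7 1 y x) := by
  have c := pos5_one (k_w71F.at (atF71 hx hx' h) (rgM h1 h2 (by norm_num) (by norm_num)) (rgM hx hx'.le (by norm_num) (by norm_num)))
  rw [← us_F1 (by linarith) hx' hy] at c
  exact c.le
theorem b_wb71F {x y : ℝ} (hx : 39 / 40 ≤ x) (hx' : x < 1) (h : OnC (7 : Fin 8) 1 y)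
    (h1 : 35 / 36 ≤ y) (h2 : y ≤ 1) :
    0 ≤ us2 x 0 1 y (crv (PP x) 7 1 y) (tKF 7 1 y x) (tL 7 1 y x) := by
  have c := pos5_one (k_wb71F.at (atF71 hx hx' h) (rgM h1 h2 (by norm_num) (by norm_num)) (rgM hx hx'.le (by norm_num) (by norm_num)))
  exact c.le.trans (ub_F (by linarith) hx' (by linarith) (by linarith))
theorem b_w51F {x y : ℝ} (hx : 39 / 40 ≤ x) (hx' : x < 1) (h : OnC (5 : Fin 8) 1 y)
    (h1 : 1 / 2 ≤ y) (h2 : y ≤ 15 / 16) (hy : y < x) :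
    0 ≤ us2 x 0 1 y (crv (PP x) 5 1 y) (tKF 5 1 y x) (tL 5 1 y x) := by
  have c := pos5_one (k_w51F.at (atF51 hx hx' h) (rgM h1 h2 (by norm_num) (by norm_num)) (rgM hx hx'.le (by norm_num) (by norm_num)))
  rw [← us_F1 (by linarith) hx' hy] at c
  exact c.le
theorem b_w61F {x y : ℝ} (hx : 39 / 40 ≤ x) (hx' : x < 1) (h : OnC (6 : Fin 8) 1 y)
    (h1 : 1 / 2 ≤ y) (h2 : y ≤ 15 / 16) (hy : y < x) :
    0 ≤ us2 x 0 1 y (crv (PP x) 6 1 y) (tKF 6 1 y x) (tL 6 1 y x) := by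
  have c := pos5_one (k_w61F.at (atF61 hx hx' h) (rgM h1 h2 (by norm_num) (by norm_num)) (rgM hx hx'.le (by norm_num) (by norm_num)))
  rw [← us_F1 (by linarith) hx' hy] at c
  exact c.le
theorem b_w52F {x y : ℝ} (hx : 39 / 40 ≤ x) (hx' : x < 1) (h : OnC (5 : Fin 8) 2 y)
    (h1 : 1 ≤ y) (h2 : y ≤ 2887 / 2500) (hy : y - 1 < x)
    (k : 1 - G y ≤ crv (PP x) 5 2 y) : 0 ≤ us2 x 0 2 y (crv (PP x) 5 2 y) (tKF 5 2 y x) (tL 5 2 y x) := by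
  have c := pos5_two (k_w52F.at (atF52 hx hx' h) (rgM h1 h2 (by norm_num) (by norm_num)) (rgM hx hx'.le (by norm_num) (by norm_num))) (by rw [fxst_v]; linarith)
  rw [← us_F2 (by linarith) hx' hy] at c
  exact c.le
theorem b_w62F {x y : ℝ} (hx : 39 / 40 ≤ x) (hx' : x < 1) (h : OnC (6 : Fin 8) 2 y)
    (h1 : 1 ≤ y) (h2 : y ≤ 2887 / 2500) (hy : y - 1 < x)
    (k : 1 - G y ≤ crv (PP x) 6 2 y) : 0 ≤ us2 x 0 2 y (crv (PP x) 6 2 y) (tKF 6 2 y x) (tL 6 2 y x) := by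
  have c := pos5_two (k_w62F.at (atF62 hx hx' h) (rgM h1 h2 (by norm_num) (by norm_num)) (rgM hx hx'.le (by norm_num) (by norm_num))) (by rw [fxst_v]; linarith)
  rw [← us_F2 (by linarith) hx' hy] at c
  exact c.le
theorem b_w72F {x y : ℝ} (hx : 39 / 40 ≤ x) (hx' : x < 1) (h : OnC (7 : Fin 8) 2 y)
    (h1 : 1 ≤ y) (h2 : y ≤ 2887 / 2500) (hy : y - 1 < x)
    (k : 1 - G y ≤ crv (PP x) 7 2 y) : 0 ≤ us2 x 0 2 y (crv (PP x) 7 2 y) (tKF 7 2 y x) (tL 7 2 y x) := by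
  have c := pos5_two (k_w72F.at (atF72 hx hx' h) (rgM h1 h2 (by norm_num) (by norm_num)) (rgM hx hx'.le (by norm_num) (by norm_num))) (by rw [fxst_v]; linarith)
  rw [← us_F2 (by linarith) hx' hy] at c
  exact c.le
theorem b_g00F {x y : ℝ} (hx : 39 / 40 ≤ x) (hx' : x < 1) (h : OnC (0 : Fin 8) 0 y)
    (h1 : 0 ≤ y) (h2 : y ≤ 1 / 2) :
    0 ≤ gl2 x 0 0 y (crv (PP x) 0 0 y) (tKF 0 0 y x) (tL 0 0 y x) := by
  exact gl_F (by linarith) hx' (pos5_one (k_g00F.at (atF00 hx hx' h) (rgM h1 h2 (by norm_num) (by norm_num)) (rgM hx hx'.le (by norm_num) (by norm_num))))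
theorem b_g01F {x y : ℝ} (hx : 39 / 40 ≤ x) (hx' : x < 1) (h : OnC (0 : Fin 8) 1 y)
    (h1 : 1 / 2 ≤ y) (h2 : y ≤ 1) :
    0 ≤ gl2 x 0 1 y (crv (PP x) 0 1 y) (tKF 0 1 y x) (tL 0 1 y x) := by
  exact gl_F (by linarith) hx' (pos5_one (k_g01F.at (atF01 hx hx' h) (rgM h1 h2 (by norm_num) (by norm_num)) (rgM hx hx'.le (by norm_num) (by norm_num))))
theorem b_g10F {x y : ℝ} (hx : 39 / 40 ≤ x) (hx' : x < 1) (h : OnC (1 : Fin 8) 0 y)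
    (h1 : 1 / 16 ≤ y) (h2 : y ≤ 1 / 2) :
    0 ≤ gl2 x 0 0 y (crv (PP x) 1 0 y) (tKF 1 0 y x) (tL 1 0 y x) := by
  exact gl_F (by linarith) hx' (pos5_one (k_g10F.at (atF10 hx hx' h) (rgM h1 h2 (by norm_num) (by norm_num)) (rgM hx hx'.le (by norm_num) (by norm_num))))
theorem b_g11F {x y : ℝ} (hx : 39 / 40 ≤ x) (hx' : x < 1) (h : OnC (1 : Fin 8) 1 y)
    (h1 : 1 / 2 ≤ y) (h2 : y ≤ 1) :
    0 ≤ gl2 x 0 1 y (crv (PP x) 1 1 y) (tKF 1 1 y x) (tL 1 1 y x) := by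
  exact gl_F (by linarith) hx' (pos5_one (k_g11F.at (atF11 hx hx' h) (rgM h1 h2 (by norm_num) (by norm_num)) (rgM hx hx'.le (by norm_num) (by norm_num))))
theorem b_g20F {x y : ℝ} (hx : 39 / 40 ≤ x) (hx' : x < 1) (h : OnC (2 : Fin 8) 0 y)
    (h1 : 1 / 16 ≤ y) (h2 : y ≤ 1 / 2) :
    0 ≤ gl2 x 0 0 y (crv (PP x) 2 0 y) (tKF 2 0 y x) (tL 2 0 y x) := by
  exact gl_F (by linarith) hx' (pos5_one (k_g20F.at (atF20 hx hx' h) (rgM h1 h2 (by norm_num) (by norm_num)) (rgM hx hx'.le (by norm_num) (by norm_num))))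
theorem b_g21F {x y : ℝ} (hx : 39 / 40 ≤ x) (hx' : x < 1) (h : OnC (2 : Fin 8) 1 y)
    (h1 : 1 / 2 ≤ y) (h2 : y ≤ 1) :
    0 ≤ gl2 x 0 1 y (crv (PP x) 2 1 y) (tKF 2 1 y x) (tL 2 1 y x) := by
  exact gl_F (by linarith) hx' (pos5_one (k_g21F.at (atF21 hx hx' h) (rgM h1 h2 (by norm_num) (by norm_num)) (rgM hx hx'.le (by norm_num) (by norm_num))))
theorem b_g30F {x y : ℝ} (hx : 39 / 40 ≤ x) (hx' : x < 1) (h : OnC (3 : Fin 8) 0 y)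
    (h1 : 0 ≤ y) (h2 : y ≤ 1 / 2) :
    0 ≤ gl2 x 0 0 y (crv (PP x) 3 0 y) (tKF 3 0 y x) (tL 3 0 y x) := by
  exact gl_F (by linarith) hx' (pos5_one (k_g30F.at (atF30 hx hx' h) (rgM h1 h2 (by norm_num) (by norm_num)) (rgM hx hx'.le (by norm_num) (by norm_num))))
theorem b_g31F {x y : ℝ} (hx : 39 / 40 ≤ x) (hx' : x < 1) (h : OnC (3 : Fin 8) 1 y)
    (h1 : 1 / 2 ≤ y) (h2 : y ≤ 1) :
    0 ≤ gl2 x 0 1 y (crv (PP x) 3 1 y) (tKF 3 1 y x) (tL 3 1 y x) := by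
  exact gl_F (by linarith) hx' (pos5_one (k_g31F.at (atF31 hx hx' h) (rgM h1 h2 (by norm_num) (by norm_num)) (rgM hx hx'.le (by norm_num) (by norm_num))))
theorem b_g32F {x y : ℝ} (hx : 39 / 40 ≤ x) (hx' : x < 1) (h : OnC (3 : Fin 8) 2 y)
    (h1 : 1 ≤ y) (h2 : y ≤ 37 / 36) :
    0 ≤ gl2 x 0 2 y (crv (PP x) 3 2 y) (tKF 3 2 y x) (tL 3 2 y x) := by
  exact gl_F (by linarith) hx' (pos5_one (k_g32F.at (atF32 hx hx' h) (rgM h1 h2 (by norm_num) (by norm_num)) (rgM hx hx'.le (by norm_num) (by norm_num))))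
theorem b_g40F {x y : ℝ} (hx : 39 / 40 ≤ x) (hx' : x < 1) (h : OnC (4 : Fin 8) 0 y)
    (h1 : 0 ≤ y) (h2 : y ≤ 1 / 16) :
    0 ≤ gl2 x 0 0 y (crv (PP x) 4 0 y) (tKF 4 0 y x) (tL 4 0 y x) := by
  exact gl_F (by linarith) hx' (pos5_one (k_g40F.at (atF40 hx hx' h) (rgM h1 h2 (by norm_num) (by norm_num)) (rgM hx hx'.le (by norm_num) (by norm_num))))
theorem b_g50F {x y : ℝ} (hx : 39 / 40 ≤ x) (hx' : x < 1) (h : OnC (5 : Fin 8) 0 y)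
    (h1 : 0 ≤ y) (h2 : y ≤ 1 / 2) :
    0 ≤ gl2 x 0 0 y (crv (PP x) 5 0 y) (tKF 5 0 y x) (tL 5 0 y x) := by
  exact gl_F (by linarith) hx' (pos5_one (k_g50F.at (atF50 hx hx' h) (rgM h1 h2 (by norm_num) (by norm_num)) (rgM hx hx'.le (by norm_num) (by norm_num))))
theorem b_g51F {x y : ℝ} (hx : 39 / 40 ≤ x) (hx' : x < 1) (h : OnC (5 : Fin 8) 1 y)
    (h1 : 1 / 2 ≤ y) (h2 : y ≤ 1) :
    0 ≤ gl2 x 0 1 y (crv (PP x) 5 1 y) (tKF 5 1 y x) (tL 5 1 y x) := by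
  exact gl_F (by linarith) hx' (pos5_one (k_g51F.at (atF51 hx hx' h) (rgM h1 h2 (by norm_num) (by norm_num)) (rgM hx hx'.le (by norm_num) (by norm_num))))
theorem b_g52F {x y : ℝ} (hx : 39 / 40 ≤ x) (hx' : x < 1) (h : OnC (5 : Fin 8) 2 y)
    (h1 : 1 ≤ y) (h2 : y ≤ 2887 / 2500) :
    0 ≤ gl2 x 0 2 y (crv (PP x) 5 2 y) (tKF 5 2 y x) (tL 5 2 y x) := by
  exact gl_F (by linarith) hx' (pos5_one (k_g52F.at (atF52 hx hx' h) (rgM h1 h2 (by norm_num) (by norm_num)) (rgM hx hx'.le (by norm_num) (by norm_num))))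
theorem b_g60F {x y : ℝ} (hx : 39 / 40 ≤ x) (hx' : x < 1) (h : OnC (6 : Fin 8) 0 y)
    (h1 : 0 ≤ y) (h2 : y ≤ 1 / 2) :
    0 ≤ gl2 x 0 0 y (crv (PP x) 6 0 y) (tKF 6 0 y x) (tL 6 0 y x) := by
  exact gl_F (by linarith) hx' (pos5_one (k_g60F.at (atF60 hx hx' h) (rgM h1 h2 (by norm_num) (by norm_num)) (rgM hx hx'.le (by norm_num) (by norm_num))))
theorem b_g61F {x y : ℝ} (hx : 39 / 40 ≤ x) (hx' : x < 1) (h : OnC (6 : Fin 8) 1 y)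
    (h1 : 1 / 2 ≤ y) (h2 : y ≤ 1) :
    0 ≤ gl2 x 0 1 y (crv (PP x) 6 1 y) (tKF 6 1 y x) (tL 6 1 y x) := by
  exact gl_F (by linarith) hx' (pos5_one (k_g61F.at (atF61 hx hx' h) (rgM h1 h2 (by norm_num) (by norm_num)) (rgM hx hx'.le (by norm_num) (by norm_num))))
theorem b_g62F {x y : ℝ} (hx : 39 / 40 ≤ x) (hx' : x < 1) (h : OnC (6 : Fin 8) 2 y)
    (h1 : 1 ≤ y) (h2 : y ≤ 2887 / 2500) :
    0 ≤ gl2 x 0 2 y (crv (PP x) 6 2 y) (tKF 6 2 y x) (tL 6 2 y x) := by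
  exact gl_F (by linarith) hx' (pos5_one (k_g62F.at (atF62 hx hx' h) (rgM h1 h2 (by norm_num) (by norm_num)) (rgM hx hx'.le (by norm_num) (by norm_num))))
theorem b_g70F {x y : ℝ} (hx : 39 / 40 ≤ x) (hx' : x < 1) (h : OnC (7 : Fin 8) 0 y)
    (h1 : 0 ≤ y) (h2 : y ≤ 1 / 2) :
    0 ≤ gl2 x 0 0 y (crv (PP x) 7 0 y) (tKF 7 0 y x) (tL 7 0 y x) := by
  exact gl_F (by linarith) hx' (pos5_one (k_g70F.at (atF70 hx hx' h) (rgM h1 h2 (by norm_num) (by norm_num)) (rgM hx hx'.le (by norm_num) (by norm_num))))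
theorem b_g71F {x y : ℝ} (hx : 39 / 40 ≤ x) (hx' : x < 1) (h : OnC (7 : Fin 8) 1 y)
    (h1 : 1 / 2 ≤ y) (h2 : y ≤ 1) :
    0 ≤ gl2 x 0 1 y (crv (PP x) 7 1 y) (tKF 7 1 y x) (tL 7 1 y x) := by
  exact gl_F (by linarith) hx' (pos5_one (k_g71F.at (atF71 hx hx' h) (rgM h1 h2 (by norm_num) (by norm_num)) (rgM hx hx'.le (by norm_num) (by norm_num))))
theorem b_g72F {x y : ℝ} (hx : 39 / 40 ≤ x) (hx' : x < 1) (h : OnC (7 : Fin 8) 2 y)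
    (h1 : 1 ≤ y) (h2 : y ≤ 2887 / 2500) :
    0 ≤ gl2 x 0 2 y (crv (PP x) 7 2 y) (tKF 7 2 y x) (tL 7 2 y x) := by
  exact gl_F (by linarith) hx' (pos5_one (k_g72F.at (atF72 hx hx' h) (rgM h1 h2 (by norm_num) (by norm_num)) (rgM hx hx'.le (by norm_num) (by norm_num))))
theorem b_g02F {x y : ℝ} (hx : 39 / 40 ≤ x) (hx' : x < 1) (h : OnC (0 : Fin 8) 2 y)
    (h1 : 4557 / 10000 ≤ c1n y) (h2 : c1n y ≤ 1 / 2) :
    0 ≤ gl2 x 0 2 y (crv (PP x) 0 2 y) (tKF 0 2 y x) (tL 0 2 y x) := by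
  exact gl_F (by linarith) hx' (pos5_one (k_g02F.at (atF02 hx hx' h) (rgM h1 h2 (by norm_num) (by norm_num)) (rgM hx hx'.le (by norm_num) (by norm_num))))
theorem b_swF {x y : ℝ} (hx : 39 / 40 ≤ x) (hx' : x < 1) (y0 : 0 ≤ y) (h : h0 * y ≤ 1)
    (h1 : 0 ≤ c1n y) (h2 : c1n y ≤ 4559 / 10000) (hy : y - 1 < x) :
    0 ≤ us2 x 0 2 y (1 - c1n y) ((pcF 2).K.v (1 - c1n y) y x) ((pcF 2).L.v (1 - c1n y) y x) := by
  have c := k_swF (c1n y) x (rgM h1 h2 (by norm_num) (by norm_num)) (rgM hx hx'.le (by norm_num) (by norm_num))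
  beta_reduce at c
  rw [yag_le y0 h, xsg_v] at c
  have c2 := pos5_one c
  rw [← us_F2 (by linarith) hx' hy] at c2
  exact c2.le
theorem b_sgF {x y : ℝ} (hx : 39 / 40 ≤ x) (hx' : x < 1) (y0 : 0 ≤ y) (h : h0 * y ≤ 1)
    (h1 : 0 ≤ c1n y) (h2 : c1n y ≤ 4559 / 10000) :
    0 ≤ gl2 x 0 2 y (1 - c1n y) ((pcF 2).K.v (1 - c1n y) y x) ((pcF 2).L.v (1 - c1n y) y x) := by
  have c := k_sgF (c1n y) x (rgM h1 h2 (by norm_num) (by norm_num)) (rgM hx hx'.le (by norm_num) (by norm_num))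
  beta_reduce at c
  rw [yag_le y0 h, xsg_v] at c
  exact gl_F (by linarith) hx' (pos5_one c)
theorem b_hb11F {x y t : ℝ} (hx : 39 / 40 ≤ x) (hx' : x < 1) (h : OnC (1 : Fin 8) 1 y)
    (h1 : 24781 / 25000 ≤ y) (h2 : y ≤ 1)
    (t1 : t ≤ y) (t2 : y ≤ t + 7 / 20 * (1 - x)) (t3 : 99 / 100 ≤ t) :
    NHi (DD x) x 0 tKF tL (7 / 20 * (1 - x)) (1 / 5 * (1 - x))
      (1 + 3 / 2 * (1 - x)) 1 1 y (alF x t) := by
  have c := pos5_one (k_hb11F.at (atF11 hx hx' h) (rgM h1 h2 (by norm_num) (by norm_num)) (rgM hx hx'.le (by norm_num) (by norm_num)))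
  have k := hi_F1 (a := alF x t) (by linarith) hx' (by linarith) (by linarith) (by rw [alF_eq t3]; exact alfg_mono hx hx' (by linarith) t1) (by rw [alF_eq t3]; exact alfg_mono hx hx' (by linarith) (by linarith)) c
  unfold NHi
  show 0 ≤ us2 x 0 1 y (crv (PP x) 1 1 y) (tKF 1 1 y x) (tL 1 1 y x) + _ * min (gl2 x 0 1 y (crv (PP x) 1 1 y) (tKF 1 1 y x) (tL 1 1 y x)) 0 - _ * (crv (PP x) 1 1 y - _)
  linarith
theorem b_hb21F {x y t : ℝ} (hx : 39 / 40 ≤ x) (hx' : x < 1) (h : OnC (2 : Fin 8) 1 y)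
    (h1 : 24781 / 25000 ≤ y) (h2 : y ≤ 1)
    (t1 : t ≤ y) (t2 : y ≤ t + 7 / 20 * (1 - x)) (t3 : 99 / 100 ≤ t) :
    NHi (DD x) x 0 tKF tL (7 / 20 * (1 - x)) (1 / 5 * (1 - x))
      (1 + 3 / 2 * (1 - x)) 2 1 y (alF x t) := by
  have c := pos5_one (k_hb21F.at (atF21 hx hx' h) (rgM h1 h2 (by norm_num) (by norm_num)) (rgM hx hx'.le (by norm_num) (by norm_num)))
  have k := hi_F1 (a := alF x t) (by linarith) hx' (by linarith) (by linarith) (by rw [alF_eq t3]; exact alfg_mono hx hx' (by linarith) t1) (by rw [alF_eq t3]; exact alfg_mono hx hx' (by linarith) (by linarith)) c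
  unfold NHi
  show 0 ≤ us2 x 0 1 y (crv (PP x) 2 1 y) (tKF 2 1 y x) (tL 2 1 y x) + _ * min (gl2 x 0 1 y (crv (PP x) 2 1 y) (tKF 2 1 y x) (tL 2 1 y x)) 0 - _ * (crv (PP x) 2 1 y - _)
  linarith
theorem b_hb31F {x y t : ℝ} (hx : 39 / 40 ≤ x) (hx' : x < 1) (h : OnC (3 : Fin 8) 1 y)
    (h1 : 24781 / 25000 ≤ y) (h2 : y ≤ 1)
    (t1 : t ≤ y) (t2 : y ≤ t + 7 / 20 * (1 - x)) (t3 : 99 / 100 ≤ t) :
    NHi (DD x) x 0 tKF tL (7 / 20 * (1 - x)) (1 / 5 * (1 - x))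
      (1 + 3 / 2 * (1 - x)) 3 1 y (alF x t) := by
  have c := pos5_one (k_hb31F.at (atF31 hx hx' h) (rgM h1 h2 (by norm_num) (by norm_num)) (rgM hx hx'.le (by norm_num) (by norm_num)))
  have k := hi_F1 (a := alF x t) (by linarith) hx' (by linarith) (by linarith) (by rw [alF_eq t3]; exact alfg_mono hx hx' (by linarith) t1) (by rw [alF_eq t3]; exact alfg_mono hx hx' (by linarith) (by linarith)) c
  unfold NHi
  show 0 ≤ us2 x 0 1 y (crv (PP x) 3 1 y) (tKF 3 1 y x) (tL 3 1 y x) + _ * min (gl2 x 0 1 y (crv (PP x) 3 1 y) (tKF 3 1 y x) (tL 3 1 y x)) 0 - _ * (crv (PP x) 3 1 y - _)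
  linarith
theorem b_hb71F {x y t : ℝ} (hx : 39 / 40 ≤ x) (hx' : x < 1) (h : OnC (7 : Fin 8) 1 y)
    (h1 : 24781 / 25000 ≤ y) (h2 : y ≤ 1)
    (t1 : t ≤ y) (t2 : y ≤ t + 7 / 20 * (1 - x)) (t3 : 99 / 100 ≤ t) :
    NHi (DD x) x 0 tKF tL (7 / 20 * (1 - x)) (1 / 5 * (1 - x))
      (1 + 3 / 2 * (1 - x)) 7 1 y (alF x t) := by
  have c := pos5_one (k_hb71F.at (atF71 hx hx' h) (rgM h1 h2 (by norm_num) (by norm_num)) (rgM hx hx'.le (by norm_num) (by norm_num)))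
  have k := hi_F1 (a := alF x t) (by linarith) hx' (by linarith) (by linarith) (by rw [alF_eq t3]; exact alfg_mono hx hx' (by linarith) t1) (by rw [alF_eq t3]; exact alfg_mono hx hx' (by linarith) (by linarith)) c
  unfold NHi
  show 0 ≤ us2 x 0 1 y (crv (PP x) 7 1 y) (tKF 7 1 y x) (tL 7 1 y x) + _ * min (gl2 x 0 1 y (crv (PP x) 7 1 y) (tKF 7 1 y x) (tL 7 1 y x)) 0 - _ * (crv (PP x) 7 1 y - _)
  linarith
theorem b_h52F {x y t : ℝ} (hx : 39 / 40 ≤ x) (hx' : x < 1) (h : OnC (5 : Fin 8) 2 y)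
    (h1 : 1 ≤ y) (h2 : y ≤ 3 / 2) (hy : y - 1 < x)
    (t1 : t ≤ y) (t2 : y ≤ t + 7 / 20 * (1 - x)) (t3 : 99 / 100 ≤ t) :
    NHi (DD x) x 0 tKF tL (7 / 20 * (1 - x)) (1 / 5 * (1 - x))
      (1 + 3 / 2 * (1 - x)) 5 2 y (alF x t) := by
  have c := pos5_one (k_h52F.at (atF52 hx hx' h) (rgM h1 h2 (by norm_num) (by norm_num)) (rgM hx hx'.le (by norm_num) (by norm_num)))
  have k := hi_F2 (a := alF x t) (by linarith) hx' hy (by rw [alF_eq t3]; exact alfg_mono hx hx' (by linarith) t1) (by rw [alF_eq t3]; exact alfg_mono hx hx' (by linarith) (by linarith)) c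
  unfold NHi
  show 0 ≤ us2 x 0 2 y (crv (PP x) 5 2 y) (tKF 5 2 y x) (tL 5 2 y x) + _ * min (gl2 x 0 2 y (crv (PP x) 5 2 y) (tKF 5 2 y x) (tL 5 2 y x)) 0 - _ * (crv (PP x) 5 2 y - _)
  linarith
theorem b_h62F {x y t : ℝ} (hx : 39 / 40 ≤ x) (hx' : x < 1) (h : OnC (6 : Fin 8) 2 y)
    (h1 : 1 ≤ y) (h2 : y ≤ 3 / 2) (hy : y - 1 < x)
    (t1 : t ≤ y) (t2 : y ≤ t + 7 / 20 * (1 - x)) (t3 : 99 / 100 ≤ t) :
    NHi (DD x) x 0 tKF tL (7 / 20 * (1 - x)) (1 / 5 * (1 - x))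
      (1 + 3 / 2 * (1 - x)) 6 2 y (alF x t) := by
  have c := pos5_one (k_h62F.at (atF62 hx hx' h) (rgM h1 h2 (by norm_num) (by norm_num)) (rgM hx hx'.le (by norm_num) (by norm_num)))
  have k := hi_F2 (a := alF x t) (by linarith) hx' hy (by rw [alF_eq t3]; exact alfg_mono hx hx' (by linarith) t1) (by rw [alF_eq t3]; exact alfg_mono hx hx' (by linarith) (by linarith)) c
  unfold NHi
  show 0 ≤ us2 x 0 2 y (crv (PP x) 6 2 y) (tKF 6 2 y x) (tL 6 2 y x) + _ * min (gl2 x 0 2 y (crv (PP x) 6 2 y) (tKF 6 2 y x) (tL 6 2 y x)) 0 - _ * (crv (PP x) 6 2 y - _)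
  linarith
theorem b_h72F {x y t : ℝ} (hx : 39 / 40 ≤ x) (hx' : x < 1) (h : OnC (7 : Fin 8) 2 y)
    (h1 : 1 ≤ y) (h2 : y ≤ 3 / 2) (hy : y - 1 < x)
    (t1 : t ≤ y) (t2 : y ≤ t + 7 / 20 * (1 - x)) (t3 : 99 / 100 ≤ t) :
    NHi (DD x) x 0 tKF tL (7 / 20 * (1 - x)) (1 / 5 * (1 - x))
      (1 + 3 / 2 * (1 - x)) 7 2 y (alF x t) := by
  have c := pos5_one (k_h72F.at (atF72 hx hx' h) (rgM h1 h2 (by norm_num) (by norm_num)) (rgM hx hx'.le (by norm_num) (by norm_num)))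
  have k := hi_F2 (a := alF x t) (by linarith) hx' hy (by rw [alF_eq t3]; exact alfg_mono hx hx' (by linarith) t1) (by rw [alF_eq t3]; exact alfg_mono hx hx' (by linarith) (by linarith)) c
  unfold NHi
  show 0 ≤ us2 x 0 2 y (crv (PP x) 7 2 y) (tKF 7 2 y x) (tL 7 2 y x) + _ * min (gl2 x 0 2 y (crv (PP x) 7 2 y) (tKF 7 2 y x) (tL 7 2 y x)) 0 - _ * (crv (PP x) 7 2 y - _)
  linarith
theorem b_h32F {x y t : ℝ} (hx : 39 / 40 ≤ x) (hx' : x < 1) (h : OnC (3 : Fin 8) 2 y)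
    (h1 : 37 / 36 ≤ y) (h2 : y ≤ 3 / 2) (hy : y - 1 < x)
    (t1 : t ≤ y) (t2 : y ≤ t + 7 / 20 * (1 - x)) (t3 : 99 / 100 ≤ t) :
    NHi (DD x) x 0 tKF tL (7 / 20 * (1 - x)) (1 / 5 * (1 - x))
      (1 + 3 / 2 * (1 - x)) 3 2 y (alF x t) := by
  have c := pos5_one (k_h32F.at (atF32 hx hx' h) (rgM h1 h2 (by norm_num) (by norm_num)) (rgM hx hx'.le (by norm_num) (by norm_num)))
  have k := hi_F2 (a := alF x t) (by linarith) hx' hy (by rw [alF_eq t3]; exact alfg_mono hx hx' (by linarith) t1) (by rw [alF_eq t3]; exact alfg_mono hx hx' (by linarith) (by linarith)) c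
  unfold NHi
  show 0 ≤ us2 x 0 2 y (crv (PP x) 3 2 y) (tKF 3 2 y x) (tL 3 2 y x) + _ * min (gl2 x 0 2 y (crv (PP x) 3 2 y) (tKF 3 2 y x) (tL 3 2 y x)) 0 - _ * (crv (PP x) 3 2 y - _)
  linarith
theorem b_h02F {x y t : ℝ} (hx : 39 / 40 ≤ x) (hx' : x < 1) (h : OnC (0 : Fin 8) 2 y)
    (h1 : 0 ≤ c1n y) (h2 : c1n y ≤ 4559 / 10000) (hy : y - 1 < x)
    (t1 : t ≤ y) (t2 : y ≤ t + 7 / 20 * (1 - x)) (t3 : 99 / 100 ≤ t) :
    NHi (DD x) x 0 tKF tL (7 / 20 * (1 - x)) (1 / 5 * (1 - x))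
      (1 + 3 / 2 * (1 - x)) 0 2 y (alF x t) := by
  have c := pos5_one (k_h02F.at (atF02 hx hx' h) (rgM h1 h2 (by norm_num) (by norm_num)) (rgM hx hx'.le (by norm_num) (by norm_num)))
  have k := hi_F2 (a := alF x t) (by linarith) hx' hy (by rw [alF_eq t3]; exact alfg_mono hx hx' (by linarith) t1) (by rw [alF_eq t3]; exact alfg_mono hx hx' (by linarith) (by linarith)) c
  unfold NHi
  show 0 ≤ us2 x 0 2 y (crv (PP x) 0 2 y) (tKF 0 2 y x) (tL 0 2 y x) + _ * min (gl2 x 0 2 y (crv (PP x) 0 2 y) (tKF 0 2 y x) (tL 0 2 y x)) 0 - _ * (crv (PP x) 0 2 y - _)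
  linarith
theorem b_h12aF {x y t : ℝ} (hx : 39 / 40 ≤ x) (hx' : x < 1) (h : OnC (1 : Fin 8) 2 y) (hv : h0 * y < 1)
    (h1 : 0 ≤ c1n y) (h2 : c1n y ≤ 979 / 2500) (hy : y - 1 < x)
    (t1 : t ≤ y) (t2 : y ≤ t + 7 / 20 * (1 - x)) (t3 : 99 / 100 ≤ t) :
    NHi (DD x) x 0 tKF tL (7 / 20 * (1 - x)) (1 / 5 * (1 - x))
      (1 + 3 / 2 * (1 - x)) 1 2 y (alF x t) := by
  have c := pos5_one (k_h12aF.at (atF12a hx hx' h hv) (rgM h1 h2 (by norm_num) (by norm_num)) (rgM hx hx'.le (by norm_num) (by norm_num)))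
  have k := hi_F2 (a := alF x t) (by linarith) hx' hy (by rw [alF_eq t3]; exact alfg_mono hx hx' (by linarith) t1) (by rw [alF_eq t3]; exact alfg_mono hx hx' (by linarith) (by linarith)) c
  unfold NHi
  show 0 ≤ us2 x 0 2 y (crv (PP x) 1 2 y) (tKF 1 2 y x) (tL 1 2 y x) + _ * min (gl2 x 0 2 y (crv (PP x) 1 2 y) (tKF 1 2 y x) (tL 1 2 y x)) 0 - _ * (crv (PP x) 1 2 y - _)
  linarith
theorem b_h12bF {x y t : ℝ} (hx : 39 / 40 ≤ x) (hx' : x < 1) (h : OnC (1 : Fin 8) 2 y) (hv : 1 ≤ h0 * y)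
    (h1 : 11547 / 10000 ≤ y) (h2 : y ≤ 3 / 2) (hy : y - 1 < x)
    (t1 : t ≤ y) (t2 : y ≤ t + 7 / 20 * (1 - x)) (t3 : 99 / 100 ≤ t) :
    NHi (DD x) x 0 tKF tL (7 / 20 * (1 - x)) (1 / 5 * (1 - x))
      (1 + 3 / 2 * (1 - x)) 1 2 y (alF x t) := by
  have c := pos5_one (k_h12bF.at (atF12b hx hx' h hv) (rgM h1 h2 (by norm_num) (by norm_num)) (rgM hx hx'.le (by norm_num) (by norm_num)))
  have k := hi_F2 (a := alF x t) (by linarith) hx' hy (by rw [alF_eq t3]; exact alfg_mono hx hx' (by linarith) t1) (by rw [alF_eq t3]; exact alfg_mono hx hx' (by linarith) (by linarith)) c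
  unfold NHi
  show 0 ≤ us2 x 0 2 y (crv (PP x) 1 2 y) (tKF 1 2 y x) (tL 1 2 y x) + _ * min (gl2 x 0 2 y (crv (PP x) 1 2 y) (tKF 1 2 y x) (tL 1 2 y x)) 0 - _ * (crv (PP x) 1 2 y - _)
  linarith
theorem b_h22aF {x y t : ℝ} (hx : 39 / 40 ≤ x) (hx' : x < 1) (h : OnC (2 : Fin 8) 2 y) (hv : h0 * y < 1)
    (h1 : 0 ≤ c1n y) (h2 : c1n y ≤ 979 / 2500) (hy : y - 1 < x)
    (t1 : t ≤ y) (t2 : y ≤ t + 7 / 20 * (1 - x)) (t3 : 99 / 100 ≤ t) :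
    NHi (DD x) x 0 tKF tL (7 / 20 * (1 - x)) (1 / 5 * (1 - x))
      (1 + 3 / 2 * (1 - x)) 2 2 y (alF x t) := by
  have c := pos5_one (k_h22aF.at (atF22a hx hx' h hv) (rgM h1 h2 (by norm_num) (by norm_num)) (rgM hx hx'.le (by norm_num) (by norm_num)))
  have k := hi_F2 (a := alF x t) (by linarith) hx' hy (by rw [alF_eq t3]; exact alfg_mono hx hx' (by linarith) t1) (by rw [alF_eq t3]; exact alfg_mono hx hx' (by linarith) (by linarith)) c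
  unfold NHi
  show 0 ≤ us2 x 0 2 y (crv (PP x) 2 2 y) (tKF 2 2 y x) (tL 2 2 y x) + _ * min (gl2 x 0 2 y (crv (PP x) 2 2 y) (tKF 2 2 y x) (tL 2 2 y x)) 0 - _ * (crv (PP x) 2 2 y - _)
  linarith
theorem b_h22bF {x y t : ℝ} (hx : 39 / 40 ≤ x) (hx' : x < 1) (h : OnC (2 : Fin 8) 2 y) (hv : 1 ≤ h0 * y)
    (h1 : 11547 / 10000 ≤ y) (h2 : y ≤ 3 / 2) (hy : y - 1 < x)
    (t1 : t ≤ y) (t2 : y ≤ t + 7 / 20 * (1 - x)) (t3 : 99 / 100 ≤ t) :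
    NHi (DD x) x 0 tKF tL (7 / 20 * (1 - x)) (1 / 5 * (1 - x))
      (1 + 3 / 2 * (1 - x)) 2 2 y (alF x t) := by
  have c := pos5_one (k_h22bF.at (atF22b hx hx' h hv) (rgM h1 h2 (by norm_num) (by norm_num)) (rgM hx hx'.le (by norm_num) (by norm_num)))
  have k := hi_F2 (a := alF x t) (by linarith) hx' hy (by rw [alF_eq t3]; exact alfg_mono hx hx' (by linarith) t1) (by rw [alF_eq t3]; exact alfg_mono hx hx' (by linarith) (by linarith)) c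
  unfold NHi
  show 0 ≤ us2 x 0 2 y (crv (PP x) 2 2 y) (tKF 2 2 y x) (tL 2 2 y x) + _ * min (gl2 x 0 2 y (crv (PP x) 2 2 y) (tKF 2 2 y x) (tL 2 2 y x)) 0 - _ * (crv (PP x) 2 2 y - _)
  linarith
theorem b_h13F {x y t : ℝ} (hx : 39 / 40 ≤ x) (hx' : x < 1) (h : OnC (1 : Fin 8) 3 y)
    (h1 : 3 / 2 ≤ y) (h2 : y ≤ 31 / 16) (hy : y - 1 < x)
    (t1 : t ≤ y) (t2 : y ≤ t + 7 / 20 * (1 - x)) (t3 : 99 / 100 ≤ t) :
    NHi (DD x) x 0 tKF tL (7 / 20 * (1 - x)) (1 / 5 * (1 - x))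
      (1 + 3 / 2 * (1 - x)) 1 3 y (alF x t) := by
  have c := pos5_one (k_h13F.at (atF13 hx hx' h) (rgM h1 h2 (by norm_num) (by norm_num)) (rgM hx hx'.le (by norm_num) (by norm_num)))
  have k := hi_F3 (a := alF x t) (by linarith) hx' hy (by rw [alF_eq t3]; exact alfg_mono hx hx' (by linarith) t1) (by rw [alF_eq t3]; exact alfg_mono hx hx' (by linarith) (by linarith)) c
  unfold NHi
  show 0 ≤ us2 x 0 3 y (crv (PP x) 1 3 y) (tKF 1 3 y x) (tL 1 3 y x) + _ * min (gl2 x 0 3 y (crv (PP x) 1 3 y) (tKF 1 3 y x) (tL 1 3 y x)) 0 - _ * (crv (PP x) 1 3 y - _)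
  linarith
theorem b_h23F {x y t : ℝ} (hx : 39 / 40 ≤ x) (hx' : x < 1) (h : OnC (2 : Fin 8) 3 y)
    (h1 : 3 / 2 ≤ y) (h2 : y ≤ 31 / 16) (hy : y - 1 < x)
    (t1 : t ≤ y) (t2 : y ≤ t + 7 / 20 * (1 - x)) (t3 : 99 / 100 ≤ t) :
    NHi (DD x) x 0 tKF tL (7 / 20 * (1 - x)) (1 / 5 * (1 - x))
      (1 + 3 / 2 * (1 - x)) 2 3 y (alF x t) := by
  have c := pos5_one (k_h23F.at (atF23 hx hx' h) (rgM h1 h2 (by norm_num) (by norm_num)) (rgM hx hx'.le (by norm_num) (by norm_num)))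
  have k := hi_F3 (a := alF x t) (by linarith) hx' hy (by rw [alF_eq t3]; exact alfg_mono hx hx' (by linarith) t1) (by rw [alF_eq t3]; exact alfg_mono hx hx' (by linarith) (by linarith)) c
  unfold NHi
  show 0 ≤ us2 x 0 3 y (crv (PP x) 2 3 y) (tKF 2 3 y x) (tL 2 3 y x) + _ * min (gl2 x 0 3 y (crv (PP x) 2 3 y) (tKF 2 3 y x) (tL 2 3 y x)) 0 - _ * (crv (PP x) 2 3 y - _)
  linarith
theorem b_h33F {x y t : ℝ} (hx : 39 / 40 ≤ x) (hx' : x < 1) (h : OnC (3 : Fin 8) 3 y)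
    (h1 : 3 / 2 ≤ y) (h2 : y ≤ 19631 / 10000) (hy : y - 1 < x)
    (t1 : t ≤ y) (t2 : y ≤ t + 7 / 20 * (1 - x)) (t3 : 99 / 100 ≤ t) :
    NHi (DD x) x 0 tKF tL (7 / 20 * (1 - x)) (1 / 5 * (1 - x))
      (1 + 3 / 2 * (1 - x)) 3 3 y (alF x t) := by
  have c := pos5_one (k_h33F.at (atF33 hx hx' h) (rgM h1 h2 (by norm_num) (by norm_num)) (rgM hx hx'.le (by norm_num) (by norm_num)))
  have k := hi_F3 (a := alF x t) (by linarith) hx' hy (by rw [alF_eq t3]; exact alfg_mono hx hx' (by linarith) t1) (by rw [alF_eq t3]; exact alfg_mono hx hx' (by linarith) (by linarith)) c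
  unfold NHi
  show 0 ≤ us2 x 0 3 y (crv (PP x) 3 3 y) (tKF 3 3 y x) (tL 3 3 y x) + _ * min (gl2 x 0 3 y (crv (PP x) 3 3 y) (tKF 3 3 y x) (tL 3 3 y x)) 0 - _ * (crv (PP x) 3 3 y - _)
  linarith
theorem b_h53F {x y t : ℝ} (hx : 39 / 40 ≤ x) (hx' : x < 1) (h : OnC (5 : Fin 8) 3 y)
    (h1 : 3311 / 10000 ≤ c3n y) (h2 : c3n y ≤ 11457 / 10000) (hy : y - 1 < x)
    (t1 : t ≤ y) (t2 : y ≤ t + 7 / 20 * (1 - x)) (t3 : 99 / 100 ≤ t) :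
    NHi (DD x) x 0 tKF tL (7 / 20 * (1 - x)) (1 / 5 * (1 - x))
      (1 + 3 / 2 * (1 - x)) 5 3 y (alF x t) := by
  have c := pos5_one (k_h53F.at (atF53 hx hx' h) (rgM h1 h2 (by norm_num) (by norm_num)) (rgM hx hx'.le (by norm_num) (by norm_num)))
  have k := hi_F3 (a := alF x t) (by linarith) hx' hy (by rw [alF_eq t3]; exact alfg_mono hx hx' (by linarith) t1) (by rw [alF_eq t3]; exact alfg_mono hx hx' (by linarith) (by linarith)) c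
  unfold NHi
  show 0 ≤ us2 x 0 3 y (crv (PP x) 5 3 y) (tKF 5 3 y x) (tL 5 3 y x) + _ * min (gl2 x 0 3 y (crv (PP x) 5 3 y) (tKF 5 3 y x) (tL 5 3 y x)) 0 - _ * (crv (PP x) 5 3 y - _)
  linarith
theorem b_h63F {x y t : ℝ} (hx : 39 / 40 ≤ x) (hx' : x < 1) (h : OnC (6 : Fin 8) 3 y)
    (h1 : 3311 / 10000 ≤ c3n y) (h2 : c3n y ≤ 11457 / 10000) (hy : y - 1 < x)
    (t1 : t ≤ y) (t2 : y ≤ t + 7 / 20 * (1 - x)) (t3 : 99 / 100 ≤ t) :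
    NHi (DD x) x 0 tKF tL (7 / 20 * (1 - x)) (1 / 5 * (1 - x))
      (1 + 3 / 2 * (1 - x)) 6 3 y (alF x t) := by
  have c := pos5_one (k_h63F.at (atF63 hx hx' h) (rgM h1 h2 (by norm_num) (by norm_num)) (rgM hx hx'.le (by norm_num) (by norm_num)))
  have k := hi_F3 (a := alF x t) (by linarith) hx' hy (by rw [alF_eq t3]; exact alfg_mono hx hx' (by linarith) t1) (by rw [alF_eq t3]; exact alfg_mono hx hx' (by linarith) (by linarith)) c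
  unfold NHi
  show 0 ≤ us2 x 0 3 y (crv (PP x) 6 3 y) (tKF 6 3 y x) (tL 6 3 y x) + _ * min (gl2 x 0 3 y (crv (PP x) 6 3 y) (tKF 6 3 y x) (tL 6 3 y x)) 0 - _ * (crv (PP x) 6 3 y - _)
  linarith
theorem b_h73F {x y t : ℝ} (hx : 39 / 40 ≤ x) (hx' : x < 1) (h : OnC (7 : Fin 8) 3 y)
    (h1 : 3311 / 10000 ≤ c3n y) (h2 : c3n y ≤ 11457 / 10000) (hy : y - 1 < x)
    (t1 : t ≤ y) (t2 : y ≤ t + 7 / 20 * (1 - x)) (t3 : 99 / 100 ≤ t) :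
    NHi (DD x) x 0 tKF tL (7 / 20 * (1 - x)) (1 / 5 * (1 - x))
      (1 + 3 / 2 * (1 - x)) 7 3 y (alF x t) := by
  have c := pos5_one (k_h73F.at (atF73 hx hx' h) (rgM h1 h2 (by norm_num) (by norm_num)) (rgM hx hx'.le (by norm_num) (by norm_num)))
  have k := hi_F3 (a := alF x t) (by linarith) hx' hy (by rw [alF_eq t3]; exact alfg_mono hx hx' (by linarith) t1) (by rw [alF_eq t3]; exact alfg_mono hx hx' (by linarith) (by linarith)) c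
  unfold NHi
  show 0 ≤ us2 x 0 3 y (crv (PP x) 7 3 y) (tKF 7 3 y x) (tL 7 3 y x) + _ * min (gl2 x 0 3 y (crv (PP x) 7 3 y) (tKF 7 3 y x) (tL 7 3 y x)) 0 - _ * (crv (PP x) 7 3 y - _)
  linarith
theorem b_r62F {x y t : ℝ} (hx : 39 / 40 ≤ x) (hx' : x < 1) (h : OnC (6 : Fin 8) 2 y)
    (h1 : 1 ≤ y) (h2 : y ≤ 3 / 2) (hy : y - 1 < x)
    (hT : InT (1 / 2 - 7 / 4 * (1 - x)) t) (t1 : t ≤ y + 7 / 20 * (1 - x)) (hX : 1 + 3 / 2 * (1 - x) ≤ crv (PP x) 6 2 y) :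
    NFar x 0 (7 / 20 * (1 - x)) (1 / 5 * (1 - x)) (1 + 3 / 2 * (1 - x)) 2 y (crv (PP x) 6 2 y) (tKF 6 2 y x) (tL 6 2 y x) (beF x t) := by
  have g1 := inT_gt (by linarith) (by linarith) hT
  have c := pos5_three (k_r62F.at (atF62 hx hx' h) (rgM h1 h2 (by norm_num) (by norm_num)) (rgM hx hx'.le (by norm_num) (by norm_num))) (by rw [fxd0_v]; linarith) (by rw [fxumf_v]; exact umf hx' hT t1)
  have k := far_F2 (b := beF x t) (by linarith) hx' hy hX (by rw [beF_eq (by linarith)]; exact befg_mono hx hx' (by linarith) t1) c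
  unfold NFar
  linarith
theorem b_r72F {x y t : ℝ} (hx : 39 / 40 ≤ x) (hx' : x < 1) (h : OnC (7 : Fin 8) 2 y)
    (h1 : 37 / 36 ≤ y) (h2 : y ≤ 3 / 2) (hy : y - 1 < x)
    (hT : InT (1 / 2 - 7 / 4 * (1 - x)) t) (t1 : t ≤ y + 7 / 20 * (1 - x)) (hX : 1 + 3 / 2 * (1 - x) ≤ crv (PP x) 7 2 y) :
    NFar x 0 (7 / 20 * (1 - x)) (1 / 5 * (1 - x)) (1 + 3 / 2 * (1 - x)) 2 y (crv (PP x) 7 2 y) (tKF 7 2 y x) (tL 7 2 y x) (beF x t) := by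
  have g1 := inT_gt (by linarith) (by linarith) hT
  have c := pos5_one (k_r72F.at (atF72 hx hx' h) (rgM h1 h2 (by norm_num) (by norm_num)) (rgM hx hx'.le (by norm_num) (by norm_num)))
  have k := far_F2 (b := beF x t) (by linarith) hx' hy hX (by rw [beF_eq (by linarith)]; exact befg_mono hx hx' (by linarith) t1) c
  unfold NFar
  linarith
theorem b_r73F {x y t : ℝ} (hx : 39 / 40 ≤ x) (hx' : x < 1) (h : OnC (7 : Fin 8) 3 y)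
    (h1 : 1 ≤ c3n y) (h2 : c3n y ≤ 11457 / 10000) (hy : y - 1 < x)
    (hT : InT (1 / 2 - 7 / 4 * (1 - x)) t) (t1 : t ≤ y + 7 / 20 * (1 - x)) (hX : 1 + 3 / 2 * (1 - x) ≤ crv (PP x) 7 3 y) :
    NFar x 0 (7 / 20 * (1 - x)) (1 / 5 * (1 - x)) (1 + 3 / 2 * (1 - x)) 3 y (crv (PP x) 7 3 y) (tKF 7 3 y x) (tL 7 3 y x) (beF x t) := by
  have g1 := inT_gt (by linarith) (by linarith) hT
  have c := pos5_two (k_r73F.at (atF73 hx hx' h) (rgM h1 h2 (by norm_num) (by norm_num)) (rgM hx hx'.le (by norm_num) (by norm_num))) (by rw [fxd0_v]; linarith)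
  have k := far_F3 (b := beF x t) (by linarith) hx' hy hX (by rw [beF_eq (by linarith)]; exact befg_mono hx hx' (by linarith) t1) c
  unfold NFar
  linarith
theorem b_rd2F {x y t : ℝ} (hx : 39 / 40 ≤ x) (hx' : x < 1) (h1 : 1 ≤ y) (h2 : y ≤ 3 / 2)
    (hy : y - 1 < x) (h3 : qqn (1 + 3 / 2 * (1 - x)) y ≤ 3)
    (hT : InT (1 / 2 - 7 / 4 * (1 - x)) t) (t1 : t ≤ y + 7 / 20 * (1 - x)) :
    NFar x 0 (7 / 20 * (1 - x)) (1 / 5 * (1 - x)) (1 + 3 / 2 * (1 - x)) 2 y (1 + 3 / 2 * (1 - x)) (pcF2.K.v (1 + 3 / 2 * (1 - x)) y x) (pcF2.L.v (1 + 3 / 2 * (1 - x)) y x) (beF x t) := by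
  have g1 := inT_gt (by linarith) (by linarith) hT
  have c := k_rd2F y x (rgM h1 h2 (by norm_num) (by norm_num)) (rgM hx hx'.le (by norm_num) (by norm_num))
  beta_reduce at c
  rw [show idf.v y = y from rfl, xdg_v] at c
  have c2 := pos5_two c (by rw [fxumf_v]; exact umf hx' hT t1)
  have k := far_F2 (b := beF x t) (by linarith) hx' hy le_rfl (by rw [beF_eq (by linarith)]; exact befg_mono hx hx' (by linarith) t1) c2
  unfold NFar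
  linarith
theorem b_rd3F {x y t : ℝ} (hx : 39 / 40 ≤ x) (hx' : x < 1) (h1 : 3 / 2 ≤ y) (h2 : y ≤ 16331 / 10000)
    (hy : y - 1 < x) (h3 : qqn (1 + 3 / 2 * (1 - x)) y ≤ 3)
    (hT : InT (1 / 2 - 7 / 4 * (1 - x)) t) (t1 : t ≤ y + 7 / 20 * (1 - x)) :
    NFar x 0 (7 / 20 * (1 - x)) (1 / 5 * (1 - x)) (1 + 3 / 2 * (1 - x)) 3 y (1 + 3 / 2 * (1 - x)) (pcF3.K.v (1 + 3 / 2 * (1 - x)) y x) (pcF3.L.v (1 + 3 / 2 * (1 - x)) y x) (beF x t) := by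
  have g1 := inT_gt (by linarith) (by linarith) hT
  have c := k_rd3F y x (rgM h1 h2 (by norm_num) (by norm_num)) (rgM hx hx'.le (by norm_num) (by norm_num))
  beta_reduce at c
  rw [show idf.v y = y from rfl, xdg_v] at c
  have c2 := pos5_two c (by rw [fxq3_v]; unfold qqn at h3; linarith)
  have k := far_F3 (b := beF x t) (by linarith) hx' hy le_rfl (by rw [beF_eq (by linarith)]; exact befg_mono hx hx' (by linarith) t1) c2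
  unfold NFar
  linarith
theorem b_n02F {x y : ℝ} (hx : 39 / 40 ≤ x) (hx' : x < 1) (h : OnC (0 : Fin 8) 2 y)
    (h1 : 1 / 10 ≤ c1n y) (h2 : c1n y ≤ 4559 / 10000) (hy : y - 1 < x) (hy1 : 1 < y) :
    NNr x 0 (7 / 20 * (1 - x)) (1 / 5 * (1 - x)) 2 y (crv (PP x) 0 2 y) (tKF 0 2 y x) (tL 0 2 y x) (beF x y) := by
  have hyq := h.1.1
  have c := pos5_one (k_n02F.at (atF02 hx hx' h) (rgM h1 h2 (by norm_num) (by norm_num)) (rgM hx hx'.le (by norm_num) (by norm_num)))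
  have k := near_F2 (by linarith) hx' hy (by linarith) c
  unfold NNr
  rw [beF_eq (by linarith)]
  linarith
theorem b_n12aF {x y : ℝ} (hx : 39 / 40 ≤ x) (hx' : x < 1) (h : OnC (1 : Fin 8) 2 y) (hv : h0 * y < 1)
    (h1 : 0 ≤ c1n y) (h2 : c1n y ≤ 979 / 2500) (hy : y - 1 < x) (hy1 : 1 < y) :
    NNr x 0 (7 / 20 * (1 - x)) (1 / 5 * (1 - x)) 2 y (crv (PP x) 1 2 y) (tKF 1 2 y x) (tL 1 2 y x) (beF x y) := by
  have hyq := h.1.1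
  have c := pos5_one (k_n12aF.at (atF12a hx hx' h hv) (rgM h1 h2 (by norm_num) (by norm_num)) (rgM hx hx'.le (by norm_num) (by norm_num)))
  have k := near_F2 (by linarith) hx' hy (by linarith) c
  unfold NNr
  rw [beF_eq (by linarith)]
  linarith
theorem b_n12bF {x y : ℝ} (hx : 39 / 40 ≤ x) (hx' : x < 1) (h : OnC (1 : Fin 8) 2 y) (hv : 1 ≤ h0 * y)
    (h1 : 11547 / 10000 ≤ y) (h2 : y ≤ 3 / 2) (hy : y - 1 < x) (hy1 : 1 < y) :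
    NNr x 0 (7 / 20 * (1 - x)) (1 / 5 * (1 - x)) 2 y (crv (PP x) 1 2 y) (tKF 1 2 y x) (tL 1 2 y x) (beF x y) := by
  have hyq := h.1.1
  have c := pos5_one (k_n12bF.at (atF12b hx hx' h hv) (rgM h1 h2 (by norm_num) (by norm_num)) (rgM hx hx'.le (by norm_num) (by norm_num)))
  have k := near_F2 (by linarith) hx' hy (by linarith) c
  unfold NNr
  rw [beF_eq (by linarith)]
  linarith
theorem b_n22aF {x y : ℝ} (hx : 39 / 40 ≤ x) (hx' : x < 1) (h : OnC (2 : Fin 8) 2 y) (hv : h0 * y < 1)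
    (h1 : 0 ≤ c1n y) (h2 : c1n y ≤ 979 / 2500) (hy : y - 1 < x) (hy1 : 1 < y) :
    NNr x 0 (7 / 20 * (1 - x)) (1 / 5 * (1 - x)) 2 y (crv (PP x) 2 2 y) (tKF 2 2 y x) (tL 2 2 y x) (beF x y) := by
  have hyq := h.1.1
  have c := pos5_one (k_n22aF.at (atF22a hx hx' h hv) (rgM h1 h2 (by norm_num) (by norm_num)) (rgM hx hx'.le (by norm_num) (by norm_num)))
  have k := near_F2 (by linarith) hx' hy (by linarith) c
  unfold NNr
  rw [beF_eq (by linarith)]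
  linarith
theorem b_n22bF {x y : ℝ} (hx : 39 / 40 ≤ x) (hx' : x < 1) (h : OnC (2 : Fin 8) 2 y) (hv : 1 ≤ h0 * y)
    (h1 : 11547 / 10000 ≤ y) (h2 : y ≤ 3 / 2) (hy : y - 1 < x) (hy1 : 1 < y) :
    NNr x 0 (7 / 20 * (1 - x)) (1 / 5 * (1 - x)) 2 y (crv (PP x) 2 2 y) (tKF 2 2 y x) (tL 2 2 y x) (beF x y) := by
  have hyq := h.1.1
  have c := pos5_one (k_n22bF.at (atF22b hx hx' h hv) (rgM h1 h2 (by norm_num) (by norm_num)) (rgM hx hx'.le (by norm_num) (by norm_num)))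
  have k := near_F2 (by linarith) hx' hy (by linarith) c
  unfold NNr
  rw [beF_eq (by linarith)]
  linarith
theorem b_n32F {x y : ℝ} (hx : 39 / 40 ≤ x) (hx' : x < 1) (h : OnC (3 : Fin 8) 2 y)
    (h1 : 37 / 36 ≤ y) (h2 : y ≤ 3 / 2) (hy : y - 1 < x) (hy1 : 1 < y) :
    NNr x 0 (7 / 20 * (1 - x)) (1 / 5 * (1 - x)) 2 y (crv (PP x) 3 2 y) (tKF 3 2 y x) (tL 3 2 y x) (beF x y) := by
  have hyq := h.1.1
  have c := pos5_one (k_n32F.at (atF32 hx hx' h) (rgM h1 h2 (by norm_num) (by norm_num)) (rgM hx hx'.le (by norm_num) (by norm_num)))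
  have k := near_F2 (by linarith) hx' hy (by linarith) c
  unfold NNr
  rw [beF_eq (by linarith)]
  linarith
theorem b_n52F {x y : ℝ} (hx : 39 / 40 ≤ x) (hx' : x < 1) (h : OnC (5 : Fin 8) 2 y)
    (h1 : 37 / 36 ≤ y) (h2 : y ≤ 3 / 2) (hy : y - 1 < x) (hy1 : 1 < y) :
    NNr x 0 (7 / 20 * (1 - x)) (1 / 5 * (1 - x)) 2 y (crv (PP x) 5 2 y) (tKF 5 2 y x) (tL 5 2 y x) (beF x y) := by
  have hyq := h.1.1
  have c := pos5_one (k_n52F.at (atF52 hx hx' h) (rgM h1 h2 (by norm_num) (by norm_num)) (rgM hx hx'.le (by norm_num) (by norm_num)))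
  have k := near_F2 (by linarith) hx' hy (by linarith) c
  unfold NNr
  rw [beF_eq (by linarith)]
  linarith
theorem b_nb52F {x y : ℝ} (hx : 39 / 40 ≤ x) (hx' : x < 1) (h : OnC (5 : Fin 8) 2 y)
    (h1 : 1 ≤ y) (h2 : y ≤ 37 / 36) (hy : y - 1 < x) :
    NNr x 0 (7 / 20 * (1 - x)) (1 / 5 * (1 - x)) 2 y (crv (PP x) 5 2 y) (tKF 5 2 y x) (tL 5 2 y x) (beF x y) := by
  have hyq := h.1.1
  have c := pos5_one (k_nb52F.at (atF52 hx hx' h) (rgM h1 h2 (by norm_num) (by norm_num)) (rgM hx hx'.le (by norm_num) (by norm_num)))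
  have k := near_Fb (by linarith) hx' hy c
  unfold NNr
  rw [beF_eq (by linarith)]
  linarith
theorem b_n13F {x y : ℝ} (hx : 39 / 40 ≤ x) (hx' : x < 1) (h : OnC (1 : Fin 8) 3 y)
    (h1 : 3 / 2 ≤ y) (h2 : y ≤ 2093 / 1250) (hy : y - 1 < x) :
    NNr x 0 (7 / 20 * (1 - x)) (1 / 5 * (1 - x)) 3 y (crv (PP x) 1 3 y) (tKF 1 3 y x) (tL 1 3 y x) (beF x y) := by
  have hyq := h.1.1
  have c := pos5_one (k_n13F.at (atF13 hx hx' h) (rgM h1 h2 (by norm_num) (by norm_num)) (rgM hx hx'.le (by norm_num) (by norm_num)))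
  have k := near_F3 (by linarith) hx' hy (by linarith) c
  unfold NNr
  rw [beF_eq (by linarith)]
  linarith
theorem b_n23F {x y : ℝ} (hx : 39 / 40 ≤ x) (hx' : x < 1) (h : OnC (2 : Fin 8) 3 y)
    (h1 : 3 / 2 ≤ y) (h2 : y ≤ 2093 / 1250) (hy : y - 1 < x) :
    NNr x 0 (7 / 20 * (1 - x)) (1 / 5 * (1 - x)) 3 y (crv (PP x) 2 3 y) (tKF 2 3 y x) (tL 2 3 y x) (beF x y) := by
  have hyq := h.1.1
  have c := pos5_one (k_n23F.at (atF23 hx hx' h) (rgM h1 h2 (by norm_num) (by norm_num)) (rgM hx hx'.le (by norm_num) (by norm_num)))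
  have k := near_F3 (by linarith) hx' hy (by linarith) c
  unfold NNr
  rw [beF_eq (by linarith)]
  linarith
theorem b_n33F {x y : ℝ} (hx : 39 / 40 ≤ x) (hx' : x < 1) (h : OnC (3 : Fin 8) 3 y)
    (h1 : 3 / 2 ≤ y) (h2 : y ≤ 2093 / 1250) (hy : y - 1 < x) :
    NNr x 0 (7 / 20 * (1 - x)) (1 / 5 * (1 - x)) 3 y (crv (PP x) 3 3 y) (tKF 3 3 y x) (tL 3 3 y x) (beF x y) := by
  have hyq := h.1.1
  have c := pos5_one (k_n33F.at (atF33 hx hx' h) (rgM h1 h2 (by norm_num) (by norm_num)) (rgM hx hx'.le (by norm_num) (by norm_num)))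
  have k := near_F3 (by linarith) hx' hy (by linarith) c
  unfold NNr
  rw [beF_eq (by linarith)]
  linarith
theorem b_n53F {x y : ℝ} (hx : 39 / 40 ≤ x) (hx' : x < 1) (h : OnC (5 : Fin 8) 3 y)
    (h1 : 592 / 625 ≤ c3n y) (h2 : c3n y ≤ 11457 / 10000) (hy : y - 1 < x) :
    NNr x 0 (7 / 20 * (1 - x)) (1 / 5 * (1 - x)) 3 y (crv (PP x) 5 3 y) (tKF 5 3 y x) (tL 5 3 y x) (beF x y) := by
  have hyq := h.1.1
  have c := pos5_one (k_n53F.at (atF53 hx hx' h) (rgM h1 h2 (by norm_num) (by norm_num)) (rgM hx hx'.le (by norm_num) (by norm_num)))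
  have k := near_F3 (by linarith) hx' hy (by linarith) c
  unfold NNr
  rw [beF_eq (by linarith)]
  linarith
theorem b_n63F {x y : ℝ} (hx : 39 / 40 ≤ x) (hx' : x < 1) (h : OnC (6 : Fin 8) 3 y)
    (h1 : 592 / 625 ≤ c3n y) (h2 : c3n y ≤ 11457 / 10000) (hy : y - 1 < x) :
    NNr x 0 (7 / 20 * (1 - x)) (1 / 5 * (1 - x)) 3 y (crv (PP x) 6 3 y) (tKF 6 3 y x) (tL 6 3 y x) (beF x y) := by
  have hyq := h.1.1
  have c := pos5_one (k_n63F.at (atF63 hx hx' h) (rgM h1 h2 (by norm_num) (by norm_num)) (rgM hx hx'.le (by norm_num) (by norm_num)))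
  have k := near_F3 (by linarith) hx' hy (by linarith) c
  unfold NNr
  rw [beF_eq (by linarith)]
  linarith
theorem x00N {x y : ℝ} (hx : 39 / 40 ≤ x) (hx' : x < 1) (y0 : 0 ≤ y) (y1 : y ≤ 1 / 36) :
    0 ≤ us2 x (mun 3 x) 0 (y) (crv (PP x) 0 0 (y)) (tKN 0 0 (y) x) (tL 0 0 (y) x) := by
  obtain ⟨r, lam, w, s, rfl, rfl⟩ := win_use hx hx' y0 y1
  have h := nodN hx hx'
  rw [sub_sub_cancel] at h
  rw [mun_mu]
  exact W.w00N h s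
theorem x30N {x y : ℝ} (hx : 39 / 40 ≤ x) (hx' : x < 1) (y0 : 0 ≤ y) (y1 : y ≤ 1 / 36) :
    0 ≤ us2 x (mun 3 x) 0 (y) (crv (PP x) 3 0 (y)) (tKN 3 0 (y) x) (tL 3 0 (y) x) := by
  obtain ⟨r, lam, w, s, rfl, rfl⟩ := win_use hx hx' y0 y1
  have h := nodN hx hx'
  rw [sub_sub_cancel] at h
  rw [mun_mu]
  exact W.w30N h s
theorem x40N {x y : ℝ} (hx : 39 / 40 ≤ x) (hx' : x < 1) (y0 : 0 ≤ y) (y1 : y ≤ 1 / 36) :
    0 ≤ us2 x (mun 3 x) 0 (y) (crv (PP x) 4 0 (y)) (tKN 4 0 (y) x) (tL 4 0 (y) x) := by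
  obtain ⟨r, lam, w, s, rfl, rfl⟩ := win_use hx hx' y0 y1
  have h := nodN hx hx'
  rw [sub_sub_cancel] at h
  rw [mun_mu]
  exact W.w40N h s
theorem x50N {x y : ℝ} (hx : 39 / 40 ≤ x) (hx' : x < 1) (y0 : 7 / 20 * (1 - x) ≤ y) (y1 : y ≤ 1 / 36) :
    0 ≤ us2 x (mun 3 x) 0 (y) (crv (PP x) 5 0 (y)) (tKN 5 0 (y) x) (tL 5 0 (y) x) := by
  obtain ⟨r, lam, w, s, rfl, rfl⟩ := win_use hx hx' (by linarith) y1
  have h := nodN hx hx'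
  rw [sub_sub_cancel] at h
  rw [mun_mu]
  exact W.w50N h s (s.of_high (by linarith))
theorem x5fN {x y : ℝ} (hx : 39 / 40 ≤ x) (hx' : x < 1) (y0 : 0 ≤ y) (y1 : y ≤ 7 / 20 * (1 - x)) :
    0 ≤ us2 x (mun 3 x) 0 y (crv (PP x) 5 0 y) (tKN 5 0 y x) (tL 5 0 y x) + 1 / 5 * (1 - x) * gl2 x (mun 3 x) 0 y (crv (PP x) 5 0 y) (tKN 5 0 y x) (tL 5 0 y x) := by
  obtain ⟨r, lam, w, s, rfl, rfl⟩ := win_use hx hx' y0 (by linarith)
  have h := nodN hx hx'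
  rw [sub_sub_cancel] at h
  rw [mun_mu]
  obtain ⟨k1, k2⟩ := s.of_low (by linarith)
  have k := W.f50N h s k1 k2
  rw [sub_sub_cancel]
  exact k
theorem x01N {x v : ℝ} (hx : 39 / 40 ≤ x) (hx' : x < 1) (v0 : 0 < v) (v1 : v ≤ 1 / 36) :
    0 ≤ us2 x (mun 3 x) 1 (1 - v) (crv (PP x) 0 1 (1 - v)) (tKN 0 1 (1 - v) x) (tL 0 1 (1 - v) x) := by
  obtain ⟨r, lam, w, s, rfl, rfl⟩ := win_use hx hx' v0.le v1
  have h := nodN hx hx'
  rw [sub_sub_cancel] at h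
  rw [mun_mu]
  have hw : 0 < w := by
    rcases s.w0.eq_or_lt with k | k
    · rw [← k, mul_zero] at v0
      exact absurd v0 (lt_irrefl _)
    · exact k
  have k := W.w01N h s hw
  unfold usN at k
  rw [show 1 + r * -w = 1 - r * w by ring] at k
  exact k
theorem x32N {x v : ℝ} (hx : 39 / 40 ≤ x) (hx' : x < 1) (v0 : 0 ≤ v) (v1 : v ≤ 1 / 36) :
    0 ≤ us2 x (mun 3 x) 2 (1 + v) (crv (PP x) 3 2 (1 + v)) (tKN 3 2 (1 + v) x) (tL 3 2 (1 + v) x) := by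
  obtain ⟨r, lam, w, s, rfl, rfl⟩ := win_use hx hx' v0 v1
  have h := nodN hx hx'
  rw [sub_sub_cancel] at h
  rw [mun_mu]
  exact W.w32N h s
theorem xh2N {x v a : ℝ} (hx : 39 / 40 ≤ x) (hx' : x < 1) (v0 : 0 ≤ v) (v1 : v ≤ 1 / 36)
    (hg : 0 ≤ gl2 x (mun 3 x) 2 (1 + v) (crv (PP x) 0 2 (1 + v)) (tKN 0 2 (1 + v) x) (tL 0 2 (1 + v) x)) (ha : alng.v (1 + (v - 7 / 20 * (1 - x))) x ≤ a) :
    NHi (DD x) x (mun 3 x) tKN tL (7 / 20 * (1 - x)) (1 / 5 * (1 - x))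
      (1 + 3 / 2 * (1 - x)) 0 2 (1 + v) a := by
  obtain ⟨r, lam, w, s, rfl, rfl⟩ := win_use hx hx' v0 v1
  rw [sub_sub_cancel, show r * w - 7 / 20 * (lam * r) = r * (w - 7 / 20 * lam) by ring] at ha
  have h := nodN hx hx'
  rw [sub_sub_cancel] at h
  rw [mun_mu]
  have k := W.h02N h s (a := a) (by rw [mun_mu] at hg; exact hg) ha
  rw [sub_sub_cancel]
  exact k
theorem xn0N {x v : ℝ} (hx : 39 / 40 ≤ x) (hx' : x < 1) (v0 : 0 ≤ v) (v1 : v ≤ 1 / 36)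
    (hum : 1 - (1 / 2 - 7 / 4 * (1 - x)) ^ 2 - 3 / 4 * (1 + v) ^ 2 ≤ 0) :
    NNr x (mun 3 x) (7 / 20 * (1 - x)) (1 / 5 * (1 - x)) 2 (1 + v) (crv (PP x) 0 2 (1 + v)) (tKN 0 2 (1 + v) x) (tL 0 2 (1 + v) x)
      (beng.v (1 + v) x) := by
  obtain ⟨r, lam, w, s, rfl, rfl⟩ := win_use hx hx' v0 v1
  rw [sub_sub_cancel] at hum
  have h := nodN hx hx'
  rw [sub_sub_cancel] at h
  rw [mun_mu]
  have k := W.n02N h s hum
  rw [sub_sub_cancel]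
  exact k
theorem xn3N {x v : ℝ} (hx : 39 / 40 ≤ x) (hx' : x < 1) (v0 : 0 ≤ v) (v1 : v ≤ 1 / 36)
    (hum : 1 - (1 / 2 - 7 / 4 * (1 - x)) ^ 2 - 3 / 4 * (1 + v) ^ 2 ≤ 0) :
    NNr x (mun 3 x) (7 / 20 * (1 - x)) (1 / 5 * (1 - x)) 2 (1 + v) (crv (PP x) 3 2 (1 + v)) (tKN 3 2 (1 + v) x) (tL 3 2 (1 + v) x)
      (beng.v (1 + v) x) := by
  obtain ⟨r, lam, w, s, rfl, rfl⟩ := win_use hx hx' v0 v1
  rw [sub_sub_cancel] at hum
  have h := nodN hx hx'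
  rw [sub_sub_cancel] at h
  rw [mun_mu]
  have k := W.n32N h s hum
  rw [sub_sub_cancel]
  exact k
theorem xr7N {x v b : ℝ} (hx : 39 / 40 ≤ x) (hx' : x < 1) (v0 : 0 ≤ v) (v1 : v ≤ 1 / 36)
    (hg : 0 ≤ gl2 x (mun 3 x) 2 (1 + v) (crv (PP x) 7 2 (1 + v)) (tKN 7 2 (1 + v) x) (tL 7 2 (1 + v) x))
    (hum : 1 - (1 / 2 - 7 / 4 * (1 - x)) ^ 2 - 3 / 4 * (1 + v + 7 / 20 * (1 - x)) ^ 2 ≤ 0)
    (hD : 1 + 3 / 2 * (1 - x) ≤ crv (PP x) 7 2 (1 + v)) (hb : b ≤ beng.v (1 + v + 7 / 20 * (1 - x)) x) :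
    NFar x (mun 3 x) (7 / 20 * (1 - x)) (1 / 5 * (1 - x)) (1 + 3 / 2 * (1 - x)) 2 (1 + v) (crv (PP x) 7 2 (1 + v)) (tKN 7 2 (1 + v) x) (tL 7 2 (1 + v) x) b := by
  obtain ⟨r, lam, w, s, rfl, rfl⟩ := win_use hx hx' v0 v1
  rw [sub_sub_cancel] at hum hD hb
  have h := nodN hx hx'
  rw [sub_sub_cancel] at h
  rw [mun_mu]
  have k := W.r72N h s (by rw [mun_mu] at hg; exact hg) hum hD hb
  rw [sub_sub_cancel]
  exact k
theorem b_w00N {x y : ℝ} (hx : 39 / 40 ≤ x) (hx' : x < 1) (h : OnC (0 : Fin 8) 0 y)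
    (h1 : 1 / 36 ≤ y) (h2 : y ≤ 1 / 2) (hy : y < x) :
    0 ≤ us2 x (mun 3 x) 0 y (crv (PP x) 0 0 y) (tKN 0 0 y x) (tL 0 0 y x) := by
  have c := pos5_one (k_w00N.at (atN00 hx hx' h) (rgM h1 h2 (by norm_num) (by norm_num)) (rgM hx hx'.le (by norm_num) (by norm_num)))
  rw [← us_N0 (by linarith) hx' hy] at c
  exact c.le
theorem b_w30N {x y : ℝ} (hx : 39 / 40 ≤ x) (hx' : x < 1) (h : OnC (3 : Fin 8) 0 y)
    (h1 : 1 / 36 ≤ y) (h2 : y ≤ 1 / 2) (hy : y < x) :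
    0 ≤ us2 x (mun 3 x) 0 y (crv (PP x) 3 0 y) (tKN 3 0 y x) (tL 3 0 y x) := by
  have c := pos5_one (k_w30N.at (atN30 hx hx' h) (rgM h1 h2 (by norm_num) (by norm_num)) (rgM hx hx'.le (by norm_num) (by norm_num)))
  rw [← us_N0 (by linarith) hx' hy] at c
  exact c.le
theorem b_w40N {x y : ℝ} (hx : 39 / 40 ≤ x) (hx' : x < 1) (h : OnC (4 : Fin 8) 0 y)
    (h1 : 1 / 36 ≤ y) (h2 : y ≤ 1 / 16) (hy : y < x) :
    0 ≤ us2 x (mun 3 x) 0 y (crv (PP x) 4 0 y) (tKN 4 0 y x) (tL 4 0 y x) := by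
  have c := pos5_one (k_w40N.at (atN40 hx hx' h) (rgM h1 h2 (by norm_num) (by norm_num)) (rgM hx hx'.le (by norm_num) (by norm_num)))
  rw [← us_N0 (by linarith) hx' hy] at c
  exact c.le
theorem b_w50N {x y : ℝ} (hx : 39 / 40 ≤ x) (hx' : x < 1) (h : OnC (5 : Fin 8) 0 y)
    (h1 : 1 / 36 ≤ y) (h2 : y ≤ 1 / 2) (hy : y < x) :
    0 ≤ us2 x (mun 3 x) 0 y (crv (PP x) 5 0 y) (tKN 5 0 y x) (tL 5 0 y x) := by
  have c := pos5_one (k_w50N.at (atN50 hx hx' h) (rgM h1 h2 (by norm_num) (by norm_num)) (rgM hx hx'.le (by norm_num) (by norm_num)))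
  rw [← us_N0 (by linarith) hx' hy] at c
  exact c.le
theorem b_w10N {x y : ℝ} (hx : 39 / 40 ≤ x) (hx' : x < 1) (h : OnC (1 : Fin 8) 0 y)
    (h1 : 1 / 16 ≤ y) (h2 : y ≤ 1 / 2) (hy : y < x) :
    0 ≤ us2 x (mun 3 x) 0 y (crv (PP x) 1 0 y) (tKN 1 0 y x) (tL 1 0 y x) := by
  have c := pos5_one (k_w10N.at (atN10 hx hx' h) (rgM h1 h2 (by norm_num) (by norm_num)) (rgM hx hx'.le (by norm_num) (by norm_num)))
  rw [← us_N0 (by linarith) hx' hy] at c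
  exact c.le
theorem b_w20N {x y : ℝ} (hx : 39 / 40 ≤ x) (hx' : x < 1) (h : OnC (2 : Fin 8) 0 y)
    (h1 : 1 / 16 ≤ y) (h2 : y ≤ 1 / 2) (hy : y < x) :
    0 ≤ us2 x (mun 3 x) 0 y (crv (PP x) 2 0 y) (tKN 2 0 y x) (tL 2 0 y x) := by
  have c := pos5_one (k_w20N.at (atN20 hx hx' h) (rgM h1 h2 (by norm_num) (by norm_num)) (rgM hx hx'.le (by norm_num) (by norm_num)))
  rw [← us_N0 (by linarith) hx' hy] at c
  exact c.le
theorem b_w60N {x y : ℝ} (hx : 39 / 40 ≤ x) (hx' : x < 1) (h : OnC (6 : Fin 8) 0 y)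
    (h1 : 0 ≤ y) (h2 : y ≤ 1 / 2) (hy : y < x) :
    0 ≤ us2 x (mun 3 x) 0 y (crv (PP x) 6 0 y) (tKN 6 0 y x) (tL 6 0 y x) := by
  have c := pos5_one (k_w60N.at (atN60 hx hx' h) (rgM h1 h2 (by norm_num) (by norm_num)) (rgM hx hx'.le (by norm_num) (by norm_num)))
  rw [← us_N0 (by linarith) hx' hy] at c
  exact c.le
theorem b_w70N {x y : ℝ} (hx : 39 / 40 ≤ x) (hx' : x < 1) (h : OnC (7 : Fin 8) 0 y)
    (h1 : 0 ≤ y) (h2 : y ≤ 1 / 2) (hy : y < x) :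
    0 ≤ us2 x (mun 3 x) 0 y (crv (PP x) 7 0 y) (tKN 7 0 y x) (tL 7 0 y x) := by
  have c := pos5_one (k_w70N.at (atN70 hx hx' h) (rgM h1 h2 (by norm_num) (by norm_num)) (rgM hx hx'.le (by norm_num) (by norm_num)))
  rw [← us_N0 (by linarith) hx' hy] at c
  exact c.le
theorem b_w01N {x y : ℝ} (hx : 39 / 40 ≤ x) (hx' : x < 1) (h : OnC (0 : Fin 8) 1 y)
    (h1 : 1 / 2 ≤ y) (h2 : y ≤ 35 / 36) (hy : y < x) :
    0 ≤ us2 x (mun 3 x) 1 y (crv (PP x) 0 1 y) (tKN 0 1 y x) (tL 0 1 y x) := by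
  have c := pos5_one (k_w01N.at (atN01 hx hx' h) (rgM h1 h2 (by norm_num) (by norm_num)) (rgM hx hx'.le (by norm_num) (by norm_num)))
  rw [← us_N1 (by linarith) hx' hy] at c
  exact c.le
theorem b_w11N {x y : ℝ} (hx : 39 / 40 ≤ x) (hx' : x < 1) (h : OnC (1 : Fin 8) 1 y)
    (h1 : 1 / 2 ≤ y) (h2 : y ≤ 35 / 36) (hy : y < x) :
    0 ≤ us2 x (mun 3 x) 1 y (crv (PP x) 1 1 y) (tKN 1 1 y x) (tL 1 1 y x) := by
  have c := pos5_one (k_w11N.at (atN11 hx hx' h) (rgM h1 h2 (by norm_num) (by norm_num)) (rgM hx hx'.le (by norm_num) (by norm_num)))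
  rw [← us_N1 (by linarith) hx' hy] at c
  exact c.le
theorem b_wb11N {x y : ℝ} (hx : 39 / 40 ≤ x) (hx' : x < 1) (h : OnC (1 : Fin 8) 1 y)
    (h1 : 35 / 36 ≤ y) (h2 : y ≤ 1) :
    0 ≤ us2 x (mun 3 x) 1 y (crv (PP x) 1 1 y) (tKN 1 1 y x) (tL 1 1 y x) := by
  have c := pos5_one (k_wb11N.at (atN11 hx hx' h) (rgM h1 h2 (by norm_num) (by norm_num)) (rgM hx hx'.le (by norm_num) (by norm_num)))
  exact c.le.trans (ub_N (by linarith) hx' (by linarith) (by linarith))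
theorem b_w21N {x y : ℝ} (hx : 39 / 40 ≤ x) (hx' : x < 1) (h : OnC (2 : Fin 8) 1 y)
    (h1 : 1 / 2 ≤ y) (h2 : y ≤ 35 / 36) (hy : y < x) :
    0 ≤ us2 x (mun 3 x) 1 y (crv (PP x) 2 1 y) (tKN 2 1 y x) (tL 2 1 y x) := by
  have c := pos5_one (k_w21N.at (atN21 hx hx' h) (rgM h1 h2 (by norm_num) (by norm_num)) (rgM hx hx'.le (by norm_num) (by norm_num)))
  rw [← us_N1 (by linarith) hx' hy] at c
  exact c.le
theorem b_wb21N {x y : ℝ} (hx : 39 / 40 ≤ x) (hx' : x < 1) (h : OnC (2 : Fin 8) 1 y)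
    (h1 : 35 / 36 ≤ y) (h2 : y ≤ 1) :
    0 ≤ us2 x (mun 3 x) 1 y (crv (PP x) 2 1 y) (tKN 2 1 y x) (tL 2 1 y x) := by
  have c := pos5_one (k_wb21N.at (atN21 hx hx' h) (rgM h1 h2 (by norm_num) (by norm_num)) (rgM hx hx'.le (by norm_num) (by norm_num)))
  exact c.le.trans (ub_N (by linarith) hx' (by linarith) (by linarith))
theorem b_w31N {x y : ℝ} (hx : 39 / 40 ≤ x) (hx' : x < 1) (h : OnC (3 : Fin 8) 1 y)
    (h1 : 1 / 2 ≤ y) (h2 : y ≤ 35 / 36) (hy : y < x) :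
    0 ≤ us2 x (mun 3 x) 1 y (crv (PP x) 3 1 y) (tKN 3 1 y x) (tL 3 1 y x) := by
  have c := pos5_one (k_w31N.at (atN31 hx hx' h) (rgM h1 h2 (by norm_num) (by norm_num)) (rgM hx hx'.le (by norm_num) (by norm_num)))
  rw [← us_N1 (by linarith) hx' hy] at c
  exact c.le
theorem b_wb31N {x y : ℝ} (hx : 39 / 40 ≤ x) (hx' : x < 1) (h : OnC (3 : Fin 8) 1 y)
    (h1 : 35 / 36 ≤ y) (h2 : y ≤ 1) :
    0 ≤ us2 x (mun 3 x) 1 y (crv (PP x) 3 1 y) (tKN 3 1 y x) (tL 3 1 y x) := by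
  have c := pos5_one (k_wb31N.at (atN31 hx hx' h) (rgM h1 h2 (by norm_num) (by norm_num)) (rgM hx hx'.le (by norm_num) (by norm_num)))
  exact c.le.trans (ub_N (by linarith) hx' (by linarith) (by linarith))
theorem b_w71N {x y : ℝ} (hx : 39 / 40 ≤ x) (hx' : x < 1) (h : OnC (7 : Fin 8) 1 y)
    (h1 : 1 / 2 ≤ y) (h2 : y ≤ 35 / 36) (hy : y < x) :
    0 ≤ us2 x (mun 3 x) 1 y (crv (PP x) 7 1 y) (tKN 7 1 y x) (tL 7 1 y x) := by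
  have c := pos5_one (k_w71N.at (atN71 hx hx' h) (rgM h1 h2 (by norm_num) (by norm_num)) (rgM hx hx'.le (by norm_num) (by norm_num)))
  rw [← us_N1 (by linarith) hx' hy] at c
  exact c.le
theorem b_wb71N {x y : ℝ} (hx : 39 / 40 ≤ x) (hx' : x < 1) (h : OnC (7 : Fin 8) 1 y)
    (h1 : 35 / 36 ≤ y) (h2 : y ≤ 1) :
    0 ≤ us2 x (mun 3 x) 1 y (crv (PP x) 7 1 y) (tKN 7 1 y x) (tL 7 1 y x) := by
  have c := pos5_one (k_wb71N.at (atN71 hx hx' h) (rgM h1 h2 (by norm_num) (by norm_num)) (rgM hx hx'.le (by norm_num) (by norm_num)))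
  exact c.le.trans (ub_N (by linarith) hx' (by linarith) (by linarith))
theorem b_w51N {x y : ℝ} (hx : 39 / 40 ≤ x) (hx' : x < 1) (h : OnC (5 : Fin 8) 1 y)
    (h1 : 1 / 2 ≤ y) (h2 : y ≤ 15 / 16) (hy : y < x) :
    0 ≤ us2 x (mun 3 x) 1 y (crv (PP x) 5 1 y) (tKN 5 1 y x) (tL 5 1 y x) := by
  have c := pos5_one (k_w51N.at (atN51 hx hx' h) (rgM h1 h2 (by norm_num) (by norm_num)) (rgM hx hx'.le (by norm_num) (by norm_num)))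
  rw [← us_N1 (by linarith) hx' hy] at c
  exact c.le
theorem b_w61N {x y : ℝ} (hx : 39 / 40 ≤ x) (hx' : x < 1) (h : OnC (6 : Fin 8) 1 y)
    (h1 : 1 / 2 ≤ y) (h2 : y ≤ 15 / 16) (hy : y < x) :
    0 ≤ us2 x (mun 3 x) 1 y (crv (PP x) 6 1 y) (tKN 6 1 y x) (tL 6 1 y x) := by
  have c := pos5_one (k_w61N.at (atN61 hx hx' h) (rgM h1 h2 (by norm_num) (by norm_num)) (rgM hx hx'.le (by norm_num) (by norm_num)))
  rw [← us_N1 (by linarith) hx' hy] at c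
  exact c.le
theorem b_w52N {x y : ℝ} (hx : 39 / 40 ≤ x) (hx' : x < 1) (h : OnC (5 : Fin 8) 2 y)
    (h1 : 1 ≤ y) (h2 : y ≤ 2887 / 2500) (hy : y - 1 < x)
    (k : 1 - G y ≤ crv (PP x) 5 2 y) : 0 ≤ us2 x (mun 3 x) 2 y (crv (PP x) 5 2 y) (tKN 5 2 y x) (tL 5 2 y x) := by
  have c := pos5_two (k_w52N.at (atN52 hx hx' h) (rgM h1 h2 (by norm_num) (by norm_num)) (rgM hx hx'.le (by norm_num) (by norm_num))) (by rw [fxst_v]; linarith)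
  rw [← us_N2 (by linarith) hx' hy] at c
  exact c.le
theorem b_w62N {x y : ℝ} (hx : 39 / 40 ≤ x) (hx' : x < 1) (h : OnC (6 : Fin 8) 2 y)
    (h1 : 1 ≤ y) (h2 : y ≤ 2887 / 2500) (hy : y - 1 < x)
    (k : 1 - G y ≤ crv (PP x) 6 2 y) : 0 ≤ us2 x (mun 3 x) 2 y (crv (PP x) 6 2 y) (tKN 6 2 y x) (tL 6 2 y x) := by
  have c := pos5_two (k_w62N.at (atN62 hx hx' h) (rgM h1 h2 (by norm_num) (by norm_num)) (rgM hx hx'.le (by norm_num) (by norm_num))) (by rw [fxst_v]; linarith)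
  rw [← us_N2 (by linarith) hx' hy] at c
  exact c.le
theorem b_w72N {x y : ℝ} (hx : 39 / 40 ≤ x) (hx' : x < 1) (h : OnC (7 : Fin 8) 2 y)
    (h1 : 1 ≤ y) (h2 : y ≤ 2887 / 2500) (hy : y - 1 < x)
    (k : 1 - G y ≤ crv (PP x) 7 2 y) : 0 ≤ us2 x (mun 3 x) 2 y (crv (PP x) 7 2 y) (tKN 7 2 y x) (tL 7 2 y x) := by
  have c := pos5_two (k_w72N.at (atN72 hx hx' h) (rgM h1 h2 (by norm_num) (by norm_num)) (rgM hx hx'.le (by norm_num) (by norm_num))) (by rw [fxst_v]; linarith)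
  rw [← us_N2 (by linarith) hx' hy] at c
  exact c.le
theorem b_g00N {x y : ℝ} (hx : 39 / 40 ≤ x) (hx' : x < 1) (h : OnC (0 : Fin 8) 0 y)
    (h1 : 0 ≤ y) (h2 : y ≤ 1 / 2) :
    0 ≤ gl2 x (mun 3 x) 0 y (crv (PP x) 0 0 y) (tKN 0 0 y x) (tL 0 0 y x) := by
  exact gl_N (by linarith) hx' (pos5_one (k_g00N.at (atN00 hx hx' h) (rgM h1 h2 (by norm_num) (by norm_num)) (rgM hx hx'.le (by norm_num) (by norm_num))))
theorem b_g01N {x y : ℝ} (hx : 39 / 40 ≤ x) (hx' : x < 1) (h : OnC (0 : Fin 8) 1 y)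
    (h1 : 1 / 2 ≤ y) (h2 : y ≤ 1) :
    0 ≤ gl2 x (mun 3 x) 1 y (crv (PP x) 0 1 y) (tKN 0 1 y x) (tL 0 1 y x) := by
  exact gl_N (by linarith) hx' (pos5_one (k_g01N.at (atN01 hx hx' h) (rgM h1 h2 (by norm_num) (by norm_num)) (rgM hx hx'.le (by norm_num) (by norm_num))))
theorem b_g10N {x y : ℝ} (hx : 39 / 40 ≤ x) (hx' : x < 1) (h : OnC (1 : Fin 8) 0 y)
    (h1 : 1 / 16 ≤ y) (h2 : y ≤ 1 / 2) :
    0 ≤ gl2 x (mun 3 x) 0 y (crv (PP x) 1 0 y) (tKN 1 0 y x) (tL 1 0 y x) := by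
  exact gl_N (by linarith) hx' (pos5_one (k_g10N.at (atN10 hx hx' h) (rgM h1 h2 (by norm_num) (by norm_num)) (rgM hx hx'.le (by norm_num) (by norm_num))))
theorem b_g11N {x y : ℝ} (hx : 39 / 40 ≤ x) (hx' : x < 1) (h : OnC (1 : Fin 8) 1 y)
    (h1 : 1 / 2 ≤ y) (h2 : y ≤ 1) :
    0 ≤ gl2 x (mun 3 x) 1 y (crv (PP x) 1 1 y) (tKN 1 1 y x) (tL 1 1 y x) := by
  exact gl_N (by linarith) hx' (pos5_one (k_g11N.at (atN11 hx hx' h) (rgM h1 h2 (by norm_num) (by norm_num)) (rgM hx hx'.le (by norm_num) (by norm_num))))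
theorem b_g20N {x y : ℝ} (hx : 39 / 40 ≤ x) (hx' : x < 1) (h : OnC (2 : Fin 8) 0 y)
    (h1 : 1 / 16 ≤ y) (h2 : y ≤ 1 / 2) :
    0 ≤ gl2 x (mun 3 x) 0 y (crv (PP x) 2 0 y) (tKN 2 0 y x) (tL 2 0 y x) := by
  exact gl_N (by linarith) hx' (pos5_one (k_g20N.at (atN20 hx hx' h) (rgM h1 h2 (by norm_num) (by norm_num)) (rgM hx hx'.le (by norm_num) (by norm_num))))
theorem b_g21N {x y : ℝ} (hx : 39 / 40 ≤ x) (hx' : x < 1) (h : OnC (2 : Fin 8) 1 y)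
    (h1 : 1 / 2 ≤ y) (h2 : y ≤ 1) :
    0 ≤ gl2 x (mun 3 x) 1 y (crv (PP x) 2 1 y) (tKN 2 1 y x) (tL 2 1 y x) := by
  exact gl_N (by linarith) hx' (pos5_one (k_g21N.at (atN21 hx hx' h) (rgM h1 h2 (by norm_num) (by norm_num)) (rgM hx hx'.le (by norm_num) (by norm_num))))
theorem b_g30N {x y : ℝ} (hx : 39 / 40 ≤ x) (hx' : x < 1) (h : OnC (3 : Fin 8) 0 y)
    (h1 : 0 ≤ y) (h2 : y ≤ 1 / 2) :
    0 ≤ gl2 x (mun 3 x) 0 y (crv (PP x) 3 0 y) (tKN 3 0 y x) (tL 3 0 y x) := by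
  exact gl_N (by linarith) hx' (pos5_one (k_g30N.at (atN30 hx hx' h) (rgM h1 h2 (by norm_num) (by norm_num)) (rgM hx hx'.le (by norm_num) (by norm_num))))
theorem b_g31N {x y : ℝ} (hx : 39 / 40 ≤ x) (hx' : x < 1) (h : OnC (3 : Fin 8) 1 y)
    (h1 : 1 / 2 ≤ y) (h2 : y ≤ 1) :
    0 ≤ gl2 x (mun 3 x) 1 y (crv (PP x) 3 1 y) (tKN 3 1 y x) (tL 3 1 y x) := by
  exact gl_N (by linarith) hx' (pos5_one (k_g31N.at (atN31 hx hx' h) (rgM h1 h2 (by norm_num) (by norm_num)) (rgM hx hx'.le (by norm_num) (by norm_num))))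
theorem b_g32N {x y : ℝ} (hx : 39 / 40 ≤ x) (hx' : x < 1) (h : OnC (3 : Fin 8) 2 y)
    (h1 : 1 ≤ y) (h2 : y ≤ 37 / 36) :
    0 ≤ gl2 x (mun 3 x) 2 y (crv (PP x) 3 2 y) (tKN 3 2 y x) (tL 3 2 y x) := by
  exact gl_N (by linarith) hx' (pos5_one (k_g32N.at (atN32 hx hx' h) (rgM h1 h2 (by norm_num) (by norm_num)) (rgM hx hx'.le (by norm_num) (by norm_num))))
theorem b_g40N {x y : ℝ} (hx : 39 / 40 ≤ x) (hx' : x < 1) (h : OnC (4 : Fin 8) 0 y)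
    (h1 : 0 ≤ y) (h2 : y ≤ 1 / 16) :
    0 ≤ gl2 x (mun 3 x) 0 y (crv (PP x) 4 0 y) (tKN 4 0 y x) (tL 4 0 y x) := by
  exact gl_N (by linarith) hx' (pos5_one (k_g40N.at (atN40 hx hx' h) (rgM h1 h2 (by norm_num) (by norm_num)) (rgM hx hx'.le (by norm_num) (by norm_num))))
theorem b_g50N {x y : ℝ} (hx : 39 / 40 ≤ x) (hx' : x < 1) (h : OnC (5 : Fin 8) 0 y)
    (h1 : 0 ≤ y) (h2 : y ≤ 1 / 2) :
    0 ≤ gl2 x (mun 3 x) 0 y (crv (PP x) 5 0 y) (tKN 5 0 y x) (tL 5 0 y x) := by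
  exact gl_N (by linarith) hx' (pos5_one (k_g50N.at (atN50 hx hx' h) (rgM h1 h2 (by norm_num) (by norm_num)) (rgM hx hx'.le (by norm_num) (by norm_num))))
theorem b_g51N {x y : ℝ} (hx : 39 / 40 ≤ x) (hx' : x < 1) (h : OnC (5 : Fin 8) 1 y)
    (h1 : 1 / 2 ≤ y) (h2 : y ≤ 1) :
    0 ≤ gl2 x (mun 3 x) 1 y (crv (PP x) 5 1 y) (tKN 5 1 y x) (tL 5 1 y x) := by
  exact gl_N (by linarith) hx' (pos5_one (k_g51N.at (atN51 hx hx' h) (rgM h1 h2 (by norm_num) (by norm_num)) (rgM hx hx'.le (by norm_num) (by norm_num))))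
theorem b_g52N {x y : ℝ} (hx : 39 / 40 ≤ x) (hx' : x < 1) (h : OnC (5 : Fin 8) 2 y)
    (h1 : 1 ≤ y) (h2 : y ≤ 2887 / 2500) :
    0 ≤ gl2 x (mun 3 x) 2 y (crv (PP x) 5 2 y) (tKN 5 2 y x) (tL 5 2 y x) := by
  exact gl_N (by linarith) hx' (pos5_one (k_g52N.at (atN52 hx hx' h) (rgM h1 h2 (by norm_num) (by norm_num)) (rgM hx hx'.le (by norm_num) (by norm_num))))
theorem b_g60N {x y : ℝ} (hx : 39 / 40 ≤ x) (hx' : x < 1) (h : OnC (6 : Fin 8) 0 y)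
    (h1 : 0 ≤ y) (h2 : y ≤ 1 / 2) :
    0 ≤ gl2 x (mun 3 x) 0 y (crv (PP x) 6 0 y) (tKN 6 0 y x) (tL 6 0 y x) := by
  exact gl_N (by linarith) hx' (pos5_one (k_g60N.at (atN60 hx hx' h) (rgM h1 h2 (by norm_num) (by norm_num)) (rgM hx hx'.le (by norm_num) (by norm_num))))
theorem b_g61N {x y : ℝ} (hx : 39 / 40 ≤ x) (hx' : x < 1) (h : OnC (6 : Fin 8) 1 y)
    (h1 : 1 / 2 ≤ y) (h2 : y ≤ 1) :
    0 ≤ gl2 x (mun 3 x) 1 y (crv (PP x) 6 1 y) (tKN 6 1 y x) (tL 6 1 y x) := by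
  exact gl_N (by linarith) hx' (pos5_one (k_g61N.at (atN61 hx hx' h) (rgM h1 h2 (by norm_num) (by norm_num)) (rgM hx hx'.le (by norm_num) (by norm_num))))
theorem b_g62N {x y : ℝ} (hx : 39 / 40 ≤ x) (hx' : x < 1) (h : OnC (6 : Fin 8) 2 y)
    (h1 : 1 ≤ y) (h2 : y ≤ 2887 / 2500) :
    0 ≤ gl2 x (mun 3 x) 2 y (crv (PP x) 6 2 y) (tKN 6 2 y x) (tL 6 2 y x) := by
  exact gl_N (by linarith) hx' (pos5_one (k_g62N.at (atN62 hx hx' h) (rgM h1 h2 (by norm_num) (by norm_num)) (rgM hx hx'.le (by norm_num) (by norm_num))))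
theorem b_g70N {x y : ℝ} (hx : 39 / 40 ≤ x) (hx' : x < 1) (h : OnC (7 : Fin 8) 0 y)
    (h1 : 0 ≤ y) (h2 : y ≤ 1 / 2) :
    0 ≤ gl2 x (mun 3 x) 0 y (crv (PP x) 7 0 y) (tKN 7 0 y x) (tL 7 0 y x) := by
  exact gl_N (by linarith) hx' (pos5_one (k_g70N.at (atN70 hx hx' h) (rgM h1 h2 (by norm_num) (by norm_num)) (rgM hx hx'.le (by norm_num) (by norm_num))))
theorem b_g71N {x y : ℝ} (hx : 39 / 40 ≤ x) (hx' : x < 1) (h : OnC (7 : Fin 8) 1 y)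
    (h1 : 1 / 2 ≤ y) (h2 : y ≤ 1) :
    0 ≤ gl2 x (mun 3 x) 1 y (crv (PP x) 7 1 y) (tKN 7 1 y x) (tL 7 1 y x) := by
  exact gl_N (by linarith) hx' (pos5_one (k_g71N.at (atN71 hx hx' h) (rgM h1 h2 (by norm_num) (by norm_num)) (rgM hx hx'.le (by norm_num) (by norm_num))))
theorem b_g72N {x y : ℝ} (hx : 39 / 40 ≤ x) (hx' : x < 1) (h : OnC (7 : Fin 8) 2 y)
    (h1 : 1 ≤ y) (h2 : y ≤ 2887 / 2500) :
    0 ≤ gl2 x (mun 3 x) 2 y (crv (PP x) 7 2 y) (tKN 7 2 y x) (tL 7 2 y x) := by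
  exact gl_N (by linarith) hx' (pos5_one (k_g72N.at (atN72 hx hx' h) (rgM h1 h2 (by norm_num) (by norm_num)) (rgM hx hx'.le (by norm_num) (by norm_num))))
theorem b_g02N {x y : ℝ} (hx : 39 / 40 ≤ x) (hx' : x < 1) (h : OnC (0 : Fin 8) 2 y)
    (h1 : 4557 / 10000 ≤ c1n y) (h2 : c1n y ≤ 1 / 2) :
    0 ≤ gl2 x (mun 3 x) 2 y (crv (PP x) 0 2 y) (tKN 0 2 y x) (tL 0 2 y x) := by
  exact gl_N (by linarith) hx' (pos5_one (k_g02N.at (atN02 hx hx' h) (rgM h1 h2 (by norm_num) (by norm_num)) (rgM hx hx'.le (by norm_num) (by norm_num))))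
theorem b_swN {x y : ℝ} (hx : 39 / 40 ≤ x) (hx' : x < 1) (y0 : 0 ≤ y) (h : h0 * y ≤ 1)
    (h1 : 0 ≤ c1n y) (h2 : c1n y ≤ 4559 / 10000) (hy : y - 1 < x) :
    0 ≤ us2 x (mun 3 x) 2 y (1 - c1n y) ((pcN 2).K.v (1 - c1n y) y x) ((pcN 2).L.v (1 - c1n y) y x) := by
  have c := k_swN (c1n y) x (rgM h1 h2 (by norm_num) (by norm_num)) (rgM hx hx'.le (by norm_num) (by norm_num))
  beta_reduce at c
  rw [yag_le y0 h, xsg_v] at c
  have c2 := pos5_one c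
  rw [← us_N2 (by linarith) hx' hy] at c2
  exact c2.le
theorem b_sgN {x y : ℝ} (hx : 39 / 40 ≤ x) (hx' : x < 1) (y0 : 0 ≤ y) (h : h0 * y ≤ 1)
    (h1 : 0 ≤ c1n y) (h2 : c1n y ≤ 4559 / 10000) :
    0 ≤ gl2 x (mun 3 x) 2 y (1 - c1n y) ((pcN 2).K.v (1 - c1n y) y x) ((pcN 2).L.v (1 - c1n y) y x) := by
  have c := k_sgN (c1n y) x (rgM h1 h2 (by norm_num) (by norm_num)) (rgM hx hx'.le (by norm_num) (by norm_num))
  beta_reduce at c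
  rw [yag_le y0 h, xsg_v] at c
  exact gl_N (by linarith) hx' (pos5_one c)
theorem b_hb11N {x y t : ℝ} (hx : 39 / 40 ≤ x) (hx' : x < 1) (h : OnC (1 : Fin 8) 1 y)
    (h1 : 24781 / 25000 ≤ y) (h2 : y ≤ 1)
    (t1 : t ≤ y) (t2 : y ≤ t + 7 / 20 * (1 - x)) (t3 : 99 / 100 ≤ t) :
    NHi (DD x) x (mun 3 x) tKN tL (7 / 20 * (1 - x)) (1 / 5 * (1 - x))
      (1 + 3 / 2 * (1 - x)) 1 1 y (alN x t) := by
  have c := pos5_one (k_hb11N.at (atN11 hx hx' h) (rgM h1 h2 (by norm_num) (by norm_num)) (rgM hx hx'.le (by norm_num) (by norm_num)))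
  have k := hi_N1 (a := alN x t) (by linarith) hx' (by linarith) (by linarith) (by rw [alN_eq t3]; exact alng_mono hx hx' (by linarith) t1) (by rw [alN_eq t3]; exact alng_mono hx hx' (by linarith) (by linarith)) c
  unfold NHi
  show 0 ≤ us2 x (mun 3 x) 1 y (crv (PP x) 1 1 y) (tKN 1 1 y x) (tL 1 1 y x) + _ * min (gl2 x (mun 3 x) 1 y (crv (PP x) 1 1 y) (tKN 1 1 y x) (tL 1 1 y x)) 0 - _ * (crv (PP x) 1 1 y - _)
  linarith
theorem b_hb21N {x y t : ℝ} (hx : 39 / 40 ≤ x) (hx' : x < 1) (h : OnC (2 : Fin 8) 1 y)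
    (h1 : 24781 / 25000 ≤ y) (h2 : y ≤ 1)
    (t1 : t ≤ y) (t2 : y ≤ t + 7 / 20 * (1 - x)) (t3 : 99 / 100 ≤ t) :
    NHi (DD x) x (mun 3 x) tKN tL (7 / 20 * (1 - x)) (1 / 5 * (1 - x))
      (1 + 3 / 2 * (1 - x)) 2 1 y (alN x t) := by
  have c := pos5_one (k_hb21N.at (atN21 hx hx' h) (rgM h1 h2 (by norm_num) (by norm_num)) (rgM hx hx'.le (by norm_num) (by norm_num)))
  have k := hi_N1 (a := alN x t) (by linarith) hx' (by linarith) (by linarith) (by rw [alN_eq t3]; exact alng_mono hx hx' (by linarith) t1) (by rw [alN_eq t3]; exact alng_mono hx hx' (by linarith) (by linarith)) c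
  unfold NHi
  show 0 ≤ us2 x (mun 3 x) 1 y (crv (PP x) 2 1 y) (tKN 2 1 y x) (tL 2 1 y x) + _ * min (gl2 x (mun 3 x) 1 y (crv (PP x) 2 1 y) (tKN 2 1 y x) (tL 2 1 y x)) 0 - _ * (crv (PP x) 2 1 y - _)
  linarith
theorem b_hb31N {x y t : ℝ} (hx : 39 / 40 ≤ x) (hx' : x < 1) (h : OnC (3 : Fin 8) 1 y)
    (h1 : 24781 / 25000 ≤ y) (h2 : y ≤ 1)
    (t1 : t ≤ y) (t2 : y ≤ t + 7 / 20 * (1 - x)) (t3 : 99 / 100 ≤ t) :
    NHi (DD x) x (mun 3 x) tKN tL (7 / 20 * (1 - x)) (1 / 5 * (1 - x))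
      (1 + 3 / 2 * (1 - x)) 3 1 y (alN x t) := by
  have c := pos5_one (k_hb31N.at (atN31 hx hx' h) (rgM h1 h2 (by norm_num) (by norm_num)) (rgM hx hx'.le (by norm_num) (by norm_num)))
  have k := hi_N1 (a := alN x t) (by linarith) hx' (by linarith) (by linarith) (by rw [alN_eq t3]; exact alng_mono hx hx' (by linarith) t1) (by rw [alN_eq t3]; exact alng_mono hx hx' (by linarith) (by linarith)) c
  unfold NHi
  show 0 ≤ us2 x (mun 3 x) 1 y (crv (PP x) 3 1 y) (tKN 3 1 y x) (tL 3 1 y x) + _ * min (gl2 x (mun 3 x) 1 y (crv (PP x) 3 1 y) (tKN 3 1 y x) (tL 3 1 y x)) 0 - _ * (crv (PP x) 3 1 y - _)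
  linarith
theorem b_hb71N {x y t : ℝ} (hx : 39 / 40 ≤ x) (hx' : x < 1) (h : OnC (7 : Fin 8) 1 y)
    (h1 : 24781 / 25000 ≤ y) (h2 : y ≤ 1)
    (t1 : t ≤ y) (t2 : y ≤ t + 7 / 20 * (1 - x)) (t3 : 99 / 100 ≤ t) :
    NHi (DD x) x (mun 3 x) tKN tL (7 / 20 * (1 - x)) (1 / 5 * (1 - x))
      (1 + 3 / 2 * (1 - x)) 7 1 y (alN x t) := by
  have c := pos5_one (k_hb71N.at (atN71 hx hx' h) (rgM h1 h2 (by norm_num) (by norm_num)) (rgM hx hx'.le (by norm_num) (by norm_num)))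
  have k := hi_N1 (a := alN x t) (by linarith) hx' (by linarith) (by linarith) (by rw [alN_eq t3]; exact alng_mono hx hx' (by linarith) t1) (by rw [alN_eq t3]; exact alng_mono hx hx' (by linarith) (by linarith)) c
  unfold NHi
  show 0 ≤ us2 x (mun 3 x) 1 y (crv (PP x) 7 1 y) (tKN 7 1 y x) (tL 7 1 y x) + _ * min (gl2 x (mun 3 x) 1 y (crv (PP x) 7 1 y) (tKN 7 1 y x) (tL 7 1 y x)) 0 - _ * (crv (PP x) 7 1 y - _)
  linarith
theorem b_h52N {x y t : ℝ} (hx : 39 / 40 ≤ x) (hx' : x < 1) (h : OnC (5 : Fin 8) 2 y)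
    (h1 : 1 ≤ y) (h2 : y ≤ 3 / 2) (hy : y - 1 < x)
    (t1 : t ≤ y) (t2 : y ≤ t + 7 / 20 * (1 - x)) (t3 : 99 / 100 ≤ t) :
    NHi (DD x) x (mun 3 x) tKN tL (7 / 20 * (1 - x)) (1 / 5 * (1 - x))
      (1 + 3 / 2 * (1 - x)) 5 2 y (alN x t) := by
  have c := pos5_one (k_h52N.at (atN52 hx hx' h) (rgM h1 h2 (by norm_num) (by norm_num)) (rgM hx hx'.le (by norm_num) (by norm_num)))
  have k := hi_N2 (a := alN x t) (by linarith) hx' hy (by rw [alN_eq t3]; exact alng_mono hx hx' (by linarith) t1) (by rw [alN_eq t3]; exact alng_mono hx hx' (by linarith) (by linarith)) c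
  unfold NHi
  show 0 ≤ us2 x (mun 3 x) 2 y (crv (PP x) 5 2 y) (tKN 5 2 y x) (tL 5 2 y x) + _ * min (gl2 x (mun 3 x) 2 y (crv (PP x) 5 2 y) (tKN 5 2 y x) (tL 5 2 y x)) 0 - _ * (crv (PP x) 5 2 y - _)
  linarith
theorem b_h62N {x y t : ℝ} (hx : 39 / 40 ≤ x) (hx' : x < 1) (h : OnC (6 : Fin 8) 2 y)
    (h1 : 1 ≤ y) (h2 : y ≤ 3 / 2) (hy : y - 1 < x)
    (t1 : t ≤ y) (t2 : y ≤ t + 7 / 20 * (1 - x)) (t3 : 99 / 100 ≤ t) :
    NHi (DD x) x (mun 3 x) tKN tL (7 / 20 * (1 - x)) (1 / 5 * (1 - x))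
      (1 + 3 / 2 * (1 - x)) 6 2 y (alN x t) := by
  have c := pos5_one (k_h62N.at (atN62 hx hx' h) (rgM h1 h2 (by norm_num) (by norm_num)) (rgM hx hx'.le (by norm_num) (by norm_num)))
  have k := hi_N2 (a := alN x t) (by linarith) hx' hy (by rw [alN_eq t3]; exact alng_mono hx hx' (by linarith) t1) (by rw [alN_eq t3]; exact alng_mono hx hx' (by linarith) (by linarith)) c
  unfold NHi
  show 0 ≤ us2 x (mun 3 x) 2 y (crv (PP x) 6 2 y) (tKN 6 2 y x) (tL 6 2 y x) + _ * min (gl2 x (mun 3 x) 2 y (crv (PP x) 6 2 y) (tKN 6 2 y x) (tL 6 2 y x)) 0 - _ * (crv (PP x) 6 2 y - _)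
  linarith
theorem b_h72N {x y t : ℝ} (hx : 39 / 40 ≤ x) (hx' : x < 1) (h : OnC (7 : Fin 8) 2 y)
    (h1 : 1 ≤ y) (h2 : y ≤ 3 / 2) (hy : y - 1 < x)
    (t1 : t ≤ y) (t2 : y ≤ t + 7 / 20 * (1 - x)) (t3 : 99 / 100 ≤ t) :
    NHi (DD x) x (mun 3 x) tKN tL (7 / 20 * (1 - x)) (1 / 5 * (1 - x))
      (1 + 3 / 2 * (1 - x)) 7 2 y (alN x t) := by
  have c := pos5_one (k_h72N.at (atN72 hx hx' h) (rgM h1 h2 (by norm_num) (by norm_num)) (rgM hx hx'.le (by norm_num) (by norm_num)))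
  have k := hi_N2 (a := alN x t) (by linarith) hx' hy (by rw [alN_eq t3]; exact alng_mono hx hx' (by linarith) t1) (by rw [alN_eq t3]; exact alng_mono hx hx' (by linarith) (by linarith)) c
  unfold NHi
  show 0 ≤ us2 x (mun 3 x) 2 y (crv (PP x) 7 2 y) (tKN 7 2 y x) (tL 7 2 y x) + _ * min (gl2 x (mun 3 x) 2 y (crv (PP x) 7 2 y) (tKN 7 2 y x) (tL 7 2 y x)) 0 - _ * (crv (PP x) 7 2 y - _)
  linarith
theorem b_h32N {x y t : ℝ} (hx : 39 / 40 ≤ x) (hx' : x < 1) (h : OnC (3 : Fin 8) 2 y)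
    (h1 : 37 / 36 ≤ y) (h2 : y ≤ 3 / 2) (hy : y - 1 < x)
    (t1 : t ≤ y) (t2 : y ≤ t + 7 / 20 * (1 - x)) (t3 : 99 / 100 ≤ t) :
    NHi (DD x) x (mun 3 x) tKN tL (7 / 20 * (1 - x)) (1 / 5 * (1 - x))
      (1 + 3 / 2 * (1 - x)) 3 2 y (alN x t) := by
  have c := pos5_one (k_h32N.at (atN32 hx hx' h) (rgM h1 h2 (by norm_num) (by norm_num)) (rgM hx hx'.le (by norm_num) (by norm_num)))
  have k := hi_N2 (a := alN x t) (by linarith) hx' hy (by rw [alN_eq t3]; exact alng_mono hx hx' (by linarith) t1) (by rw [alN_eq t3]; exact alng_mono hx hx' (by linarith) (by linarith)) c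
  unfold NHi
  show 0 ≤ us2 x (mun 3 x) 2 y (crv (PP x) 3 2 y) (tKN 3 2 y x) (tL 3 2 y x) + _ * min (gl2 x (mun 3 x) 2 y (crv (PP x) 3 2 y) (tKN 3 2 y x) (tL 3 2 y x)) 0 - _ * (crv (PP x) 3 2 y - _)
  linarith
theorem b_h02N {x y t : ℝ} (hx : 39 / 40 ≤ x) (hx' : x < 1) (h : OnC (0 : Fin 8) 2 y)
    (h1 : 0 ≤ c1n y) (h2 : c1n y ≤ 4559 / 10000) (hy : y - 1 < x)
    (t1 : t ≤ y) (t2 : y ≤ t + 7 / 20 * (1 - x)) (t3 : 99 / 100 ≤ t) :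
    NHi (DD x) x (mun 3 x) tKN tL (7 / 20 * (1 - x)) (1 / 5 * (1 - x))
      (1 + 3 / 2 * (1 - x)) 0 2 y (alN x t) := by
  have c := pos5_one (k_h02N.at (atN02 hx hx' h) (rgM h1 h2 (by norm_num) (by norm_num)) (rgM hx hx'.le (by norm_num) (by norm_num)))
  have k := hi_N2 (a := alN x t) (by linarith) hx' hy (by rw [alN_eq t3]; exact alng_mono hx hx' (by linarith) t1) (by rw [alN_eq t3]; exact alng_mono hx hx' (by linarith) (by linarith)) c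
  unfold NHi
  show 0 ≤ us2 x (mun 3 x) 2 y (crv (PP x) 0 2 y) (tKN 0 2 y x) (tL 0 2 y x) + _ * min (gl2 x (mun 3 x) 2 y (crv (PP x) 0 2 y) (tKN 0 2 y x) (tL 0 2 y x)) 0 - _ * (crv (PP x) 0 2 y - _)
  linarith
theorem b_h12aN {x y t : ℝ} (hx : 39 / 40 ≤ x) (hx' : x < 1) (h : OnC (1 : Fin 8) 2 y) (hv : h0 * y < 1)
    (h1 : 0 ≤ c1n y) (h2 : c1n y ≤ 979 / 2500) (hy : y - 1 < x)
    (t1 : t ≤ y) (t2 : y ≤ t + 7 / 20 * (1 - x)) (t3 : 99 / 100 ≤ t) :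
    NHi (DD x) x (mun 3 x) tKN tL (7 / 20 * (1 - x)) (1 / 5 * (1 - x))
      (1 + 3 / 2 * (1 - x)) 1 2 y (alN x t) := by
  have c := pos5_one (k_h12aN.at (atN12a hx hx' h hv) (rgM h1 h2 (by norm_num) (by norm_num)) (rgM hx hx'.le (by norm_num) (by norm_num)))
  have k := hi_N2 (a := alN x t) (by linarith) hx' hy (by rw [alN_eq t3]; exact alng_mono hx hx' (by linarith) t1) (by rw [alN_eq t3]; exact alng_mono hx hx' (by linarith) (by linarith)) c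
  unfold NHi
  show 0 ≤ us2 x (mun 3 x) 2 y (crv (PP x) 1 2 y) (tKN 1 2 y x) (tL 1 2 y x) + _ * min (gl2 x (mun 3 x) 2 y (crv (PP x) 1 2 y) (tKN 1 2 y x) (tL 1 2 y x)) 0 - _ * (crv (PP x) 1 2 y - _)
  linarith
theorem b_h12bN {x y t : ℝ} (hx : 39 / 40 ≤ x) (hx' : x < 1) (h : OnC (1 : Fin 8) 2 y) (hv : 1 ≤ h0 * y)
    (h1 : 11547 / 10000 ≤ y) (h2 : y ≤ 3 / 2) (hy : y - 1 < x)
    (t1 : t ≤ y) (t2 : y ≤ t + 7 / 20 * (1 - x)) (t3 : 99 / 100 ≤ t) :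
    NHi (DD x) x (mun 3 x) tKN tL (7 / 20 * (1 - x)) (1 / 5 * (1 - x))
      (1 + 3 / 2 * (1 - x)) 1 2 y (alN x t) := by
  have c := pos5_one (k_h12bN.at (atN12b hx hx' h hv) (rgM h1 h2 (by norm_num) (by norm_num)) (rgM hx hx'.le (by norm_num) (by norm_num)))
  have k := hi_N2 (a := alN x t) (by linarith) hx' hy (by rw [alN_eq t3]; exact alng_mono hx hx' (by linarith) t1) (by rw [alN_eq t3]; exact alng_mono hx hx' (by linarith) (by linarith)) c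
  unfold NHi
  show 0 ≤ us2 x (mun 3 x) 2 y (crv (PP x) 1 2 y) (tKN 1 2 y x) (tL 1 2 y x) + _ * min (gl2 x (mun 3 x) 2 y (crv (PP x) 1 2 y) (tKN 1 2 y x) (tL 1 2 y x)) 0 - _ * (crv (PP x) 1 2 y - _)
  linarith
theorem b_h22aN {x y t : ℝ} (hx : 39 / 40 ≤ x) (hx' : x < 1) (h : OnC (2 : Fin 8) 2 y) (hv : h0 * y < 1)
    (h1 : 0 ≤ c1n y) (h2 : c1n y ≤ 979 / 2500) (hy : y - 1 < x)
    (t1 : t ≤ y) (t2 : y ≤ t + 7 / 20 * (1 - x)) (t3 : 99 / 100 ≤ t) :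
    NHi (DD x) x (mun 3 x) tKN tL (7 / 20 * (1 - x)) (1 / 5 * (1 - x))
      (1 + 3 / 2 * (1 - x)) 2 2 y (alN x t) := by
  have c := pos5_one (k_h22aN.at (atN22a hx hx' h hv) (rgM h1 h2 (by norm_num) (by norm_num)) (rgM hx hx'.le (by norm_num) (by norm_num)))
  have k := hi_N2 (a := alN x t) (by linarith) hx' hy (by rw [alN_eq t3]; exact alng_mono hx hx' (by linarith) t1) (by rw [alN_eq t3]; exact alng_mono hx hx' (by linarith) (by linarith)) c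
  unfold NHi
  show 0 ≤ us2 x (mun 3 x) 2 y (crv (PP x) 2 2 y) (tKN 2 2 y x) (tL 2 2 y x) + _ * min (gl2 x (mun 3 x) 2 y (crv (PP x) 2 2 y) (tKN 2 2 y x) (tL 2 2 y x)) 0 - _ * (crv (PP x) 2 2 y - _)
  linarith
theorem b_h22bN {x y t : ℝ} (hx : 39 / 40 ≤ x) (hx' : x < 1) (h : OnC (2 : Fin 8) 2 y) (hv : 1 ≤ h0 * y)
    (h1 : 11547 / 10000 ≤ y) (h2 : y ≤ 3 / 2) (hy : y - 1 < x)
    (t1 : t ≤ y) (t2 : y ≤ t + 7 / 20 * (1 - x)) (t3 : 99 / 100 ≤ t) :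
    NHi (DD x) x (mun 3 x) tKN tL (7 / 20 * (1 - x)) (1 / 5 * (1 - x))
      (1 + 3 / 2 * (1 - x)) 2 2 y (alN x t) := by
  have c := pos5_one (k_h22bN.at (atN22b hx hx' h hv) (rgM h1 h2 (by norm_num) (by norm_num)) (rgM hx hx'.le (by norm_num) (by norm_num)))
  have k := hi_N2 (a := alN x t) (by linarith) hx' hy (by rw [alN_eq t3]; exact alng_mono hx hx' (by linarith) t1) (by rw [alN_eq t3]; exact alng_mono hx hx' (by linarith) (by linarith)) c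
  unfold NHi
  show 0 ≤ us2 x (mun 3 x) 2 y (crv (PP x) 2 2 y) (tKN 2 2 y x) (tL 2 2 y x) + _ * min (gl2 x (mun 3 x) 2 y (crv (PP x) 2 2 y) (tKN 2 2 y x) (tL 2 2 y x)) 0 - _ * (crv (PP x) 2 2 y - _)
  linarith
theorem b_h13N {x y t : ℝ} (hx : 39 / 40 ≤ x) (hx' : x < 1) (h : OnC (1 : Fin 8) 3 y)
    (h1 : 3 / 2 ≤ y) (h2 : y ≤ 31 / 16) (hy : y - 1 < x)
    (t1 : t ≤ y) (t2 : y ≤ t + 7 / 20 * (1 - x)) (t3 : 99 / 100 ≤ t) :
    NHi (DD x) x (mun 3 x) tKN tL (7 / 20 * (1 - x)) (1 / 5 * (1 - x))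
      (1 + 3 / 2 * (1 - x)) 1 3 y (alN x t) := by
  have c := pos5_one (k_h13N.at (atN13 hx hx' h) (rgM h1 h2 (by norm_num) (by norm_num)) (rgM hx hx'.le (by norm_num) (by norm_num)))
  have k := hi_N3 (a := alN x t) (by linarith) hx' hy (by rw [alN_eq t3]; exact alng_mono hx hx' (by linarith) t1) (by rw [alN_eq t3]; exact alng_mono hx hx' (by linarith) (by linarith)) c
  unfold NHi
  show 0 ≤ us2 x (mun 3 x) 3 y (crv (PP x) 1 3 y) (tKN 1 3 y x) (tL 1 3 y x) + _ * min (gl2 x (mun 3 x) 3 y (crv (PP x) 1 3 y) (tKN 1 3 y x) (tL 1 3 y x)) 0 - _ * (crv (PP x) 1 3 y - _)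
  linarith
theorem b_h23N {x y t : ℝ} (hx : 39 / 40 ≤ x) (hx' : x < 1) (h : OnC (2 : Fin 8) 3 y)
    (h1 : 3 / 2 ≤ y) (h2 : y ≤ 31 / 16) (hy : y - 1 < x)
    (t1 : t ≤ y) (t2 : y ≤ t + 7 / 20 * (1 - x)) (t3 : 99 / 100 ≤ t) :
    NHi (DD x) x (mun 3 x) tKN tL (7 / 20 * (1 - x)) (1 / 5 * (1 - x))
      (1 + 3 / 2 * (1 - x)) 2 3 y (alN x t) := by
  have c := pos5_one (k_h23N.at (atN23 hx hx' h) (rgM h1 h2 (by norm_num) (by norm_num)) (rgM hx hx'.le (by norm_num) (by norm_num)))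
  have k := hi_N3 (a := alN x t) (by linarith) hx' hy (by rw [alN_eq t3]; exact alng_mono hx hx' (by linarith) t1) (by rw [alN_eq t3]; exact alng_mono hx hx' (by linarith) (by linarith)) c
  unfold NHi
  show 0 ≤ us2 x (mun 3 x) 3 y (crv (PP x) 2 3 y) (tKN 2 3 y x) (tL 2 3 y x) + _ * min (gl2 x (mun 3 x) 3 y (crv (PP x) 2 3 y) (tKN 2 3 y x) (tL 2 3 y x)) 0 - _ * (crv (PP x) 2 3 y - _)
  linarith
theorem b_h33N {x y t : ℝ} (hx : 39 / 40 ≤ x) (hx' : x < 1) (h : OnC (3 : Fin 8) 3 y)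
    (h1 : 3 / 2 ≤ y) (h2 : y ≤ 19631 / 10000) (hy : y - 1 < x)
    (t1 : t ≤ y) (t2 : y ≤ t + 7 / 20 * (1 - x)) (t3 : 99 / 100 ≤ t) :
    NHi (DD x) x (mun 3 x) tKN tL (7 / 20 * (1 - x)) (1 / 5 * (1 - x))
      (1 + 3 / 2 * (1 - x)) 3 3 y (alN x t) := by
  have c := pos5_one (k_h33N.at (atN33 hx hx' h) (rgM h1 h2 (by norm_num) (by norm_num)) (rgM hx hx'.le (by norm_num) (by norm_num)))
  have k := hi_N3 (a := alN x t) (by linarith) hx' hy (by rw [alN_eq t3]; exact alng_mono hx hx' (by linarith) t1) (by rw [alN_eq t3]; exact alng_mono hx hx' (by linarith) (by linarith)) c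
  unfold NHi
  show 0 ≤ us2 x (mun 3 x) 3 y (crv (PP x) 3 3 y) (tKN 3 3 y x) (tL 3 3 y x) + _ * min (gl2 x (mun 3 x) 3 y (crv (PP x) 3 3 y) (tKN 3 3 y x) (tL 3 3 y x)) 0 - _ * (crv (PP x) 3 3 y - _)
  linarith
theorem b_h53N {x y t : ℝ} (hx : 39 / 40 ≤ x) (hx' : x < 1) (h : OnC (5 : Fin 8) 3 y)
    (h1 : 3311 / 10000 ≤ c3n y) (h2 : c3n y ≤ 11457 / 10000) (hy : y - 1 < x)
    (t1 : t ≤ y) (t2 : y ≤ t + 7 / 20 * (1 - x)) (t3 : 99 / 100 ≤ t) :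
    NHi (DD x) x (mun 3 x) tKN tL (7 / 20 * (1 - x)) (1 / 5 * (1 - x))
      (1 + 3 / 2 * (1 - x)) 5 3 y (alN x t) := by
  have c := pos5_one (k_h53N.at (atN53 hx hx' h) (rgM h1 h2 (by norm_num) (by norm_num)) (rgM hx hx'.le (by norm_num) (by norm_num)))
  have k := hi_N3 (a := alN x t) (by linarith) hx' hy (by rw [alN_eq t3]; exact alng_mono hx hx' (by linarith) t1) (by rw [alN_eq t3]; exact alng_mono hx hx' (by linarith) (by linarith)) c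
  unfold NHi
  show 0 ≤ us2 x (mun 3 x) 3 y (crv (PP x) 5 3 y) (tKN 5 3 y x) (tL 5 3 y x) + _ * min (gl2 x (mun 3 x) 3 y (crv (PP x) 5 3 y) (tKN 5 3 y x) (tL 5 3 y x)) 0 - _ * (crv (PP x) 5 3 y - _)
  linarith
theorem b_h63N {x y t : ℝ} (hx : 39 / 40 ≤ x) (hx' : x < 1) (h : OnC (6 : Fin 8) 3 y)
    (h1 : 3311 / 10000 ≤ c3n y) (h2 : c3n y ≤ 11457 / 10000) (hy : y - 1 < x)
    (t1 : t ≤ y) (t2 : y ≤ t + 7 / 20 * (1 - x)) (t3 : 99 / 100 ≤ t) :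
    NHi (DD x) x (mun 3 x) tKN tL (7 / 20 * (1 - x)) (1 / 5 * (1 - x))
      (1 + 3 / 2 * (1 - x)) 6 3 y (alN x t) := by
  have c := pos5_one (k_h63N.at (atN63 hx hx' h) (rgM h1 h2 (by norm_num) (by norm_num)) (rgM hx hx'.le (by norm_num) (by norm_num)))
  have k := hi_N3 (a := alN x t) (by linarith) hx' hy (by rw [alN_eq t3]; exact alng_mono hx hx' (by linarith) t1) (by rw [alN_eq t3]; exact alng_mono hx hx' (by linarith) (by linarith)) c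
  unfold NHi
  show 0 ≤ us2 x (mun 3 x) 3 y (crv (PP x) 6 3 y) (tKN 6 3 y x) (tL 6 3 y x) + _ * min (gl2 x (mun 3 x) 3 y (crv (PP x) 6 3 y) (tKN 6 3 y x) (tL 6 3 y x)) 0 - _ * (crv (PP x) 6 3 y - _)
  linarith
theorem b_h73N {x y t : ℝ} (hx : 39 / 40 ≤ x) (hx' : x < 1) (h : OnC (7 : Fin 8) 3 y)
    (h1 : 3311 / 10000 ≤ c3n y) (h2 : c3n y ≤ 11457 / 10000) (hy : y - 1 < x)
    (t1 : t ≤ y) (t2 : y ≤ t + 7 / 20 * (1 - x)) (t3 : 99 / 100 ≤ t) :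
    NHi (DD x) x (mun 3 x) tKN tL (7 / 20 * (1 - x)) (1 / 5 * (1 - x))
      (1 + 3 / 2 * (1 - x)) 7 3 y (alN x t) := by
  have c := pos5_one (k_h73N.at (atN73 hx hx' h) (rgM h1 h2 (by norm_num) (by norm_num)) (rgM hx hx'.le (by norm_num) (by norm_num)))
  have k := hi_N3 (a := alN x t) (by linarith) hx' hy (by rw [alN_eq t3]; exact alng_mono hx hx' (by linarith) t1) (by rw [alN_eq t3]; exact alng_mono hx hx' (by linarith) (by linarith)) c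
  unfold NHi
  show 0 ≤ us2 x (mun 3 x) 3 y (crv (PP x) 7 3 y) (tKN 7 3 y x) (tL 7 3 y x) + _ * min (gl2 x (mun 3 x) 3 y (crv (PP x) 7 3 y) (tKN 7 3 y x) (tL 7 3 y x)) 0 - _ * (crv (PP x) 7 3 y - _)
  linarith
theorem b_r62N {x y t : ℝ} (hx : 39 / 40 ≤ x) (hx' : x < 1) (h : OnC (6 : Fin 8) 2 y)
    (h1 : 1 ≤ y) (h2 : y ≤ 3 / 2) (hy : y - 1 < x)
    (hT : InT (1 / 2 - 7 / 4 * (1 - x)) t) (t1 : t ≤ y + 7 / 20 * (1 - x)) (hX : 1 + 3 / 2 * (1 - x) ≤ crv (PP x) 6 2 y) :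
    NFar x (mun 3 x) (7 / 20 * (1 - x)) (1 / 5 * (1 - x)) (1 + 3 / 2 * (1 - x)) 2 y (crv (PP x) 6 2 y) (tKN 6 2 y x) (tL 6 2 y x) (beN x t) := by
  have g1 := inT_gt (by linarith) (by linarith) hT
  have c := pos5_three (k_r62N.at (atN62 hx hx' h) (rgM h1 h2 (by norm_num) (by norm_num)) (rgM hx hx'.le (by norm_num) (by norm_num))) (by rw [fxd0_v]; linarith) (by rw [fxumf_v]; exact umf hx' hT t1)
  have k := far_N2 (b := beN x t) (by linarith) hx' hy hX (by rw [beN_eq (by linarith)]; exact beng_mono hx hx' (by linarith) t1) c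
  unfold NFar
  linarith
theorem b_r72N {x y t : ℝ} (hx : 39 / 40 ≤ x) (hx' : x < 1) (h : OnC (7 : Fin 8) 2 y)
    (h1 : 37 / 36 ≤ y) (h2 : y ≤ 3 / 2) (hy : y - 1 < x)
    (hT : InT (1 / 2 - 7 / 4 * (1 - x)) t) (t1 : t ≤ y + 7 / 20 * (1 - x)) (hX : 1 + 3 / 2 * (1 - x) ≤ crv (PP x) 7 2 y) :
    NFar x (mun 3 x) (7 / 20 * (1 - x)) (1 / 5 * (1 - x)) (1 + 3 / 2 * (1 - x)) 2 y (crv (PP x) 7 2 y) (tKN 7 2 y x) (tL 7 2 y x) (beN x t) := by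
  have g1 := inT_gt (by linarith) (by linarith) hT
  have c := pos5_one (k_r72N.at (atN72 hx hx' h) (rgM h1 h2 (by norm_num) (by norm_num)) (rgM hx hx'.le (by norm_num) (by norm_num)))
  have k := far_N2 (b := beN x t) (by linarith) hx' hy hX (by rw [beN_eq (by linarith)]; exact beng_mono hx hx' (by linarith) t1) c
  unfold NFar
  linarith
theorem b_r73N {x y t : ℝ} (hx : 39 / 40 ≤ x) (hx' : x < 1) (h : OnC (7 : Fin 8) 3 y)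
    (h1 : 1 ≤ c3n y) (h2 : c3n y ≤ 11457 / 10000) (hy : y - 1 < x)
    (hT : InT (1 / 2 - 7 / 4 * (1 - x)) t) (t1 : t ≤ y + 7 / 20 * (1 - x)) (hX : 1 + 3 / 2 * (1 - x) ≤ crv (PP x) 7 3 y) :
    NFar x (mun 3 x) (7 / 20 * (1 - x)) (1 / 5 * (1 - x)) (1 + 3 / 2 * (1 - x)) 3 y (crv (PP x) 7 3 y) (tKN 7 3 y x) (tL 7 3 y x) (beN x t) := by
  have g1 := inT_gt (by linarith) (by linarith) hT
  have c := pos5_two (k_r73N.at (atN73 hx hx' h) (rgM h1 h2 (by norm_num) (by norm_num)) (rgM hx hx'.le (by norm_num) (by norm_num))) (by rw [fxd0_v]; linarith)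
  have k := far_N3 (b := beN x t) (by linarith) hx' hy hX (by rw [beN_eq (by linarith)]; exact beng_mono hx hx' (by linarith) t1) c
  unfold NFar
  linarith
theorem b_rd2N {x y t : ℝ} (hx : 39 / 40 ≤ x) (hx' : x < 1) (h1 : 1 ≤ y) (h2 : y ≤ 3 / 2)
    (hy : y - 1 < x) (h3 : qqn (1 + 3 / 2 * (1 - x)) y ≤ 3)
    (hT : InT (1 / 2 - 7 / 4 * (1 - x)) t) (t1 : t ≤ y + 7 / 20 * (1 - x)) :
    NFar x (mun 3 x) (7 / 20 * (1 - x)) (1 / 5 * (1 - x)) (1 + 3 / 2 * (1 - x)) 2 y (1 + 3 / 2 * (1 - x)) (pcN2.K.v (1 + 3 / 2 * (1 - x)) y x) (pcN2.L.v (1 + 3 / 2 * (1 - x)) y x) (beN x t) := by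
  have g1 := inT_gt (by linarith) (by linarith) hT
  have c := k_rd2N y x (rgM h1 h2 (by norm_num) (by norm_num)) (rgM hx hx'.le (by norm_num) (by norm_num))
  beta_reduce at c
  rw [show idf.v y = y from rfl, xdg_v] at c
  have c2 := pos5_two c (by rw [fxumf_v]; exact umf hx' hT t1)
  have k := far_N2 (b := beN x t) (by linarith) hx' hy le_rfl (by rw [beN_eq (by linarith)]; exact beng_mono hx hx' (by linarith) t1) c2
  unfold NFar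
  linarith
theorem b_rd3N {x y t : ℝ} (hx : 39 / 40 ≤ x) (hx' : x < 1) (h1 : 3 / 2 ≤ y) (h2 : y ≤ 16331 / 10000)
    (hy : y - 1 < x) (h3 : qqn (1 + 3 / 2 * (1 - x)) y ≤ 3)
    (hT : InT (1 / 2 - 7 / 4 * (1 - x)) t) (t1 : t ≤ y + 7 / 20 * (1 - x)) :
    NFar x (mun 3 x) (7 / 20 * (1 - x)) (1 / 5 * (1 - x)) (1 + 3 / 2 * (1 - x)) 3 y (1 + 3 / 2 * (1 - x)) (pcN3.K.v (1 + 3 / 2 * (1 - x)) y x) (pcN3.L.v (1 + 3 / 2 * (1 - x)) y x) (beN x t) := by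
  have g1 := inT_gt (by linarith) (by linarith) hT
  have c := k_rd3N y x (rgM h1 h2 (by norm_num) (by norm_num)) (rgM hx hx'.le (by norm_num) (by norm_num))
  beta_reduce at c
  rw [show idf.v y = y from rfl, xdg_v] at c
  have c2 := pos5_two c (by rw [fxq3_v]; unfold qqn at h3; linarith)
  have k := far_N3 (b := beN x t) (by linarith) hx' hy le_rfl (by rw [beN_eq (by linarith)]; exact beng_mono hx hx' (by linarith) t1) c2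
  unfold NFar
  linarith
theorem b_n02N {x y : ℝ} (hx : 39 / 40 ≤ x) (hx' : x < 1) (h : OnC (0 : Fin 8) 2 y)
    (h1 : 1 / 10 ≤ c1n y) (h2 : c1n y ≤ 4559 / 10000) (hy : y - 1 < x) (hy1 : 1 < y) :
    NNr x (mun 3 x) (7 / 20 * (1 - x)) (1 / 5 * (1 - x)) 2 y (crv (PP x) 0 2 y) (tKN 0 2 y x) (tL 0 2 y x) (beN x y) := by
  have hyq := h.1.1
  have c := pos5_one (k_n02N.at (atN02 hx hx' h) (rgM h1 h2 (by norm_num) (by norm_num)) (rgM hx hx'.le (by norm_num) (by norm_num)))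
  have k := near_N2 (by linarith) hx' hy (by linarith) c
  unfold NNr
  rw [beN_eq (by linarith)]
  linarith
theorem b_n12aN {x y : ℝ} (hx : 39 / 40 ≤ x) (hx' : x < 1) (h : OnC (1 : Fin 8) 2 y) (hv : h0 * y < 1)
    (h1 : 0 ≤ c1n y) (h2 : c1n y ≤ 979 / 2500) (hy : y - 1 < x) (hy1 : 1 < y) :
    NNr x (mun 3 x) (7 / 20 * (1 - x)) (1 / 5 * (1 - x)) 2 y (crv (PP x) 1 2 y) (tKN 1 2 y x) (tL 1 2 y x) (beN x y) := by
  have hyq := h.1.1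
  have c := pos5_one (k_n12aN.at (atN12a hx hx' h hv) (rgM h1 h2 (by norm_num) (by norm_num)) (rgM hx hx'.le (by norm_num) (by norm_num)))
  have k := near_N2 (by linarith) hx' hy (by linarith) c
  unfold NNr
  rw [beN_eq (by linarith)]
  linarith
theorem b_n12bN {x y : ℝ} (hx : 39 / 40 ≤ x) (hx' : x < 1) (h : OnC (1 : Fin 8) 2 y) (hv : 1 ≤ h0 * y)
    (h1 : 11547 / 10000 ≤ y) (h2 : y ≤ 3 / 2) (hy : y - 1 < x) (hy1 : 1 < y) :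
    NNr x (mun 3 x) (7 / 20 * (1 - x)) (1 / 5 * (1 - x)) 2 y (crv (PP x) 1 2 y) (tKN 1 2 y x) (tL 1 2 y x) (beN x y) := by
  have hyq := h.1.1
  have c := pos5_one (k_n12bN.at (atN12b hx hx' h hv) (rgM h1 h2 (by norm_num) (by norm_num)) (rgM hx hx'.le (by norm_num) (by norm_num)))
  have k := near_N2 (by linarith) hx' hy (by linarith) c
  unfold NNr
  rw [beN_eq (by linarith)]
  linarith
theorem b_n22aN {x y : ℝ} (hx : 39 / 40 ≤ x) (hx' : x < 1) (h : OnC (2 : Fin 8) 2 y) (hv : h0 * y < 1)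
    (h1 : 0 ≤ c1n y) (h2 : c1n y ≤ 979 / 2500) (hy : y - 1 < x) (hy1 : 1 < y) :
    NNr x (mun 3 x) (7 / 20 * (1 - x)) (1 / 5 * (1 - x)) 2 y (crv (PP x) 2 2 y) (tKN 2 2 y x) (tL 2 2 y x) (beN x y) := by
  have hyq := h.1.1
  have c := pos5_one (k_n22aN.at (atN22a hx hx' h hv) (rgM h1 h2 (by norm_num) (by norm_num)) (rgM hx hx'.le (by norm_num) (by norm_num)))
  have k := near_N2 (by linarith) hx' hy (by linarith) c
  unfold NNr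
  rw [beN_eq (by linarith)]
  linarith
theorem b_n22bN {x y : ℝ} (hx : 39 / 40 ≤ x) (hx' : x < 1) (h : OnC (2 : Fin 8) 2 y) (hv : 1 ≤ h0 * y)
    (h1 : 11547 / 10000 ≤ y) (h2 : y ≤ 3 / 2) (hy : y - 1 < x) (hy1 : 1 < y) :
    NNr x (mun 3 x) (7 / 20 * (1 - x)) (1 / 5 * (1 - x)) 2 y (crv (PP x) 2 2 y) (tKN 2 2 y x) (tL 2 2 y x) (beN x y) := by
  have hyq := h.1.1
  have c := pos5_one (k_n22bN.at (atN22b hx hx' h hv) (rgM h1 h2 (by norm_num) (by norm_num)) (rgM hx hx'.le (by norm_num) (by norm_num)))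
  have k := near_N2 (by linarith) hx' hy (by linarith) c
  unfold NNr
  rw [beN_eq (by linarith)]
  linarith
theorem b_n32N {x y : ℝ} (hx : 39 / 40 ≤ x) (hx' : x < 1) (h : OnC (3 : Fin 8) 2 y)
    (h1 : 37 / 36 ≤ y) (h2 : y ≤ 3 / 2) (hy : y - 1 < x) (hy1 : 1 < y) :
    NNr x (mun 3 x) (7 / 20 * (1 - x)) (1 / 5 * (1 - x)) 2 y (crv (PP x) 3 2 y) (tKN 3 2 y x) (tL 3 2 y x) (beN x y) := by
  have hyq := h.1.1
  have c := pos5_one (k_n32N.at (atN32 hx hx' h) (rgM h1 h2 (by norm_num) (by norm_num)) (rgM hx hx'.le (by norm_num) (by norm_num)))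
  have k := near_N2 (by linarith) hx' hy (by linarith) c
  unfold NNr
  rw [beN_eq (by linarith)]
  linarith
theorem b_n52N {x y : ℝ} (hx : 39 / 40 ≤ x) (hx' : x < 1) (h : OnC (5 : Fin 8) 2 y)
    (h1 : 37 / 36 ≤ y) (h2 : y ≤ 3 / 2) (hy : y - 1 < x) (hy1 : 1 < y) :
    NNr x (mun 3 x) (7 / 20 * (1 - x)) (1 / 5 * (1 - x)) 2 y (crv (PP x) 5 2 y) (tKN 5 2 y x) (tL 5 2 y x) (beN x y) := by
  have hyq := h.1.1
  have c := pos5_one (k_n52N.at (atN52 hx hx' h) (rgM h1 h2 (by norm_num) (by norm_num)) (rgM hx hx'.le (by norm_num) (by norm_num)))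
  have k := near_N2 (by linarith) hx' hy (by linarith) c
  unfold NNr
  rw [beN_eq (by linarith)]
  linarith
theorem b_nb52N {x y : ℝ} (hx : 39 / 40 ≤ x) (hx' : x < 1) (h : OnC (5 : Fin 8) 2 y)
    (h1 : 1 ≤ y) (h2 : y ≤ 37 / 36) (hy : y - 1 < x) :
    NNr x (mun 3 x) (7 / 20 * (1 - x)) (1 / 5 * (1 - x)) 2 y (crv (PP x) 5 2 y) (tKN 5 2 y x) (tL 5 2 y x) (beN x y) := by
  have hyq := h.1.1
  have c := pos5_one (k_nb52N.at (atN52 hx hx' h) (rgM h1 h2 (by norm_num) (by norm_num)) (rgM hx hx'.le (by norm_num) (by norm_num)))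
  have k := near_Nb (by linarith) hx' hy c
  unfold NNr
  rw [beN_eq (by linarith)]
  linarith
theorem b_n13N {x y : ℝ} (hx : 39 / 40 ≤ x) (hx' : x < 1) (h : OnC (1 : Fin 8) 3 y)
    (h1 : 3 / 2 ≤ y) (h2 : y ≤ 2093 / 1250) (hy : y - 1 < x) :
    NNr x (mun 3 x) (7 / 20 * (1 - x)) (1 / 5 * (1 - x)) 3 y (crv (PP x) 1 3 y) (tKN 1 3 y x) (tL 1 3 y x) (beN x y) := by
  have hyq := h.1.1
  have c := pos5_one (k_n13N.at (atN13 hx hx' h) (rgM h1 h2 (by norm_num) (by norm_num)) (rgM hx hx'.le (by norm_num) (by norm_num)))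
  have k := near_N3 (by linarith) hx' hy (by linarith) c
  unfold NNr
  rw [beN_eq (by linarith)]
  linarith
theorem b_n23N {x y : ℝ} (hx : 39 / 40 ≤ x) (hx' : x < 1) (h : OnC (2 : Fin 8) 3 y)
    (h1 : 3 / 2 ≤ y) (h2 : y ≤ 2093 / 1250) (hy : y - 1 < x) :
    NNr x (mun 3 x) (7 / 20 * (1 - x)) (1 / 5 * (1 - x)) 3 y (crv (PP x) 2 3 y) (tKN 2 3 y x) (tL 2 3 y x) (beN x y) := by
  have hyq := h.1.1
  have c := pos5_one (k_n23N.at (atN23 hx hx' h) (rgM h1 h2 (by norm_num) (by norm_num)) (rgM hx hx'.le (by norm_num) (by norm_num)))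
  have k := near_N3 (by linarith) hx' hy (by linarith) c
  unfold NNr
  rw [beN_eq (by linarith)]
  linarith
theorem b_n33N {x y : ℝ} (hx : 39 / 40 ≤ x) (hx' : x < 1) (h : OnC (3 : Fin 8) 3 y)
    (h1 : 3 / 2 ≤ y) (h2 : y ≤ 2093 / 1250) (hy : y - 1 < x) :
    NNr x (mun 3 x) (7 / 20 * (1 - x)) (1 / 5 * (1 - x)) 3 y (crv (PP x) 3 3 y) (tKN 3 3 y x) (tL 3 3 y x) (beN x y) := by
  have hyq := h.1.1
  have c := pos5_one (k_n33N.at (atN33 hx hx' h) (rgM h1 h2 (by norm_num) (by norm_num)) (rgM hx hx'.le (by norm_num) (by norm_num)))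
  have k := near_N3 (by linarith) hx' hy (by linarith) c
  unfold NNr
  rw [beN_eq (by linarith)]
  linarith
theorem b_n53N {x y : ℝ} (hx : 39 / 40 ≤ x) (hx' : x < 1) (h : OnC (5 : Fin 8) 3 y)
    (h1 : 592 / 625 ≤ c3n y) (h2 : c3n y ≤ 11457 / 10000) (hy : y - 1 < x) :
    NNr x (mun 3 x) (7 / 20 * (1 - x)) (1 / 5 * (1 - x)) 3 y (crv (PP x) 5 3 y) (tKN 5 3 y x) (tL 5 3 y x) (beN x y) := by
  have hyq := h.1.1
  have c := pos5_one (k_n53N.at (atN53 hx hx' h) (rgM h1 h2 (by norm_num) (by norm_num)) (rgM hx hx'.le (by norm_num) (by norm_num)))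
  have k := near_N3 (by linarith) hx' hy (by linarith) c
  unfold NNr
  rw [beN_eq (by linarith)]
  linarith
theorem b_n63N {x y : ℝ} (hx : 39 / 40 ≤ x) (hx' : x < 1) (h : OnC (6 : Fin 8) 3 y)
    (h1 : 592 / 625 ≤ c3n y) (h2 : c3n y ≤ 11457 / 10000) (hy : y - 1 < x) :
    NNr x (mun 3 x) (7 / 20 * (1 - x)) (1 / 5 * (1 - x)) 3 y (crv (PP x) 6 3 y) (tKN 6 3 y x) (tL 6 3 y x) (beN x y) := by
  have hyq := h.1.1
  have c := pos5_one (k_n63N.at (atN63 hx hx' h) (rgM h1 h2 (by norm_num) (by norm_num)) (rgM hx hx'.le (by norm_num) (by norm_num)))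
  have k := near_N3 (by linarith) hx' hy (by linarith) c
  unfold NNr
  rw [beN_eq (by linarith)]
  linarith
end Pool.Agent.Strip051.G.IE1.Tab
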