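import Pool.Agent.Strip051.G.IE1.FlP

/-! # The rows at the floor near `x = 1`: far vertex (generated) -/

set_option linter.all false

namespace Pool.Agent.Strip051.G.IE1.Tab

open Pool.Agent.StripNear Pool.Agent.StripSquare Pool.Agent.Strip051 Pool.Agent.Strip051.Sweep
open Pool.Agent.Strip051.PB Pool.Agent.Strip051.PB.Fx Pool.Agent.Strip051.LC Pool.Agent.Strip051.LC.E1
open Pool.Agent.Strip051.LC.Floor (G)

theorem hzF {x : ℝ} (hx : 39 / 40 ≤ x) (hx' : x < 1) (t : ℝ) (h1 : 1 ≤ h0 * (t + 7 / 20 * (1 - x))) :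
    1 ≤ alF x t * (1 + 3 / 2 * (1 - x)) := by
  have hp := h0_pos
  have k0 : 0 ≤ t + 7 / 20 * (1 - x) := by
    by_contra hc
    push Not at hc
    nlinarith
  have k := y_of_one' h1 k0
  rw [alF_eq (by linarith)]
  have m := alfg_mono (a := 11547 / 10000 - 7 / 20 * (1 - x)) (b := t) hx hx' (by linarith) (by linarith)
  have m2 := mul_le_mul_of_nonneg_right m (show 0 ≤ 1 + 3 / 2 * (1 - x) by linarith)
  refine le_trans ?_ m2
  rw [alfg_f]
  repeat rw [if_neg (by linarith)]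
  rw [if_pos (by linarith)]
  have e0 : 0 ≤ 1 - x := by linarith
  have e1 : 1 - x ≤ 1 / 40 := by linarith
  generalize 1 - x = e at *
  nlinarith [sq_nonneg (e - 1 / 48), mul_nonneg e0 (mul_nonneg e0 e0)]

theorem al0F {x : ℝ} (hx : 39 / 40 ≤ x) (hx' : x < 1) (t : ℝ) : 0 ≤ alF x t := by
  have k := alfg_mono (a := 9 / 10) (b := max t (9 / 10)) hx hx' le_rfl (le_max_right _ _)
  refine le_trans ?_ k
  rw [alfg_f, if_pos (by norm_num)]
  nlinarith
theorem be0F {x : ℝ} (hx : 39 / 40 ≤ x) (hx' : x < 1) (t : ℝ) : 0 ≤ beF x t := by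
  have k := befg_mono (a := 9 / 10) (b := max t (9 / 10)) hx hx' le_rfl (le_max_right _ _)
  refine le_trans ?_ k
  rw [befg_f, if_pos (by norm_num)]
  nlinarith
theorem nd0F {x : ℝ} (hx : 39 / 40 ≤ x) (hx' : x < 1) : ∀ (j : Fin 8) (y : ℝ), OnC j 0 y → rl x j y →
    7 / 20 * (1 - x) ≤ y → NWal (DD x) x 0 tKF tL j 0 y := by
  refine fin8 ?_ ?_ ?_ ?_ ?_ ?_ ?_ ?_ <;> intro y o r ht <;> have y0 : 0 ≤ y := o.1.1 <;> have y1 : y < 1 / 2 := o.1.2
  · exact And.intro (b_g00F hx hx' o y0 y1.le) ((le_total y (1 / 36)).elim (fun k => x00F hx hx' y0 k)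
      fun k => b_w00F hx hx' o k y1.le (by linarith))
  · have k := r_one (Or.inl rfl) r (by linarith)
    exact And.intro (b_g10F hx hx' o k y1.le) (b_w10F hx hx' o k y1.le (by linarith))
  · have k := r_one (Or.inr rfl) r (by linarith)
    exact And.intro (b_g20F hx hx' o k y1.le) (b_w20F hx hx' o k y1.le (by linarith))
  · exact And.intro (b_g30F hx hx' o y0 y1.le) ((le_total y (1 / 36)).elim (fun k => x30F hx hx' y0 k)
      fun k => b_w30F hx hx' o k y1.le (by linarith))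
  · exact And.intro (b_g40F hx hx' o y0 (r_four r)) ((le_total y (1 / 36)).elim (fun k => x40F hx hx' y0 k)
      fun k => b_w40F hx hx' o k (r_four r) (by linarith))
  · exact And.intro (b_g50F hx hx' o y0 y1.le) ((le_total y (1 / 36)).elim (fun k => x50F hx hx' ht k)
      fun k => b_w50F hx hx' o k y1.le (by linarith))
  · exact And.intro (b_g60F hx hx' o y0 y1.le) (b_w60F hx hx' o y0 y1.le (by linarith))
  · exact And.intro (b_g70F hx hx' o y0 y1.le) (b_w70F hx hx' o y0 y1.le (by linarith))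
theorem nd1F {x : ℝ} (hx : 39 / 40 ≤ x) (hx' : x < 1) : ∀ (j : Fin 8) (y : ℝ), OnC j 1 y → rl x j y →
    NWal (DD x) x 0 tKF tL j 1 y := by
  refine fin8 ?_ ?_ ?_ ?_ ?_ ?_ ?_ ?_ <;> intro y o r <;> have y0 : 1 / 2 ≤ y := o.1.1 <;> have y1 : y < 1 := o.1.2
  · refine And.intro (b_g01F hx hx' o y0 y1.le) ?_
    rcases le_total y (35 / 36) with k | k
    · exact b_w01F hx hx' o y0 k (by linarith)
    · have h := x01F hx hx' (v := 1 - y) (by linarith) (by linarith)
      rwa [e_back'] at h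
  · refine And.intro (b_g11F hx hx' o y0 y1.le) ?_
    rcases le_total y (35 / 36) with k | k
    · exact b_w11F hx hx' o y0 k (by linarith)
    · exact b_wb11F hx hx' o k y1.le
  · refine And.intro (b_g21F hx hx' o y0 y1.le) ?_
    rcases le_total y (35 / 36) with k | k
    · exact b_w21F hx hx' o y0 k (by linarith)
    · exact b_wb21F hx hx' o k y1.le
  · refine And.intro (b_g31F hx hx' o y0 y1.le) ?_
    rcases le_total y (35 / 36) with k | k
    · exact b_w31F hx hx' o y0 k (by linarith)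
    · exact b_wb31F hx hx' o k y1.le
  · exfalso
    linarith [r_four r]
  · have k := r_five (Or.inl rfl) r y1
    exact And.intro (b_g51F hx hx' o y0 y1.le) (b_w51F hx hx' o y0 k (by linarith))
  · have k := r_five (Or.inr rfl) r y1
    exact And.intro (b_g61F hx hx' o y0 y1.le) (b_w61F hx hx' o y0 k (by linarith))
  · refine And.intro (b_g71F hx hx' o y0 y1.le) ?_
    rcases le_total y (35 / 36) with k | k
    · exact b_w71F hx hx' o y0 k (by linarith)
    · exact b_wb71F hx hx' o k y1.le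
theorem nd2F {x : ℝ} (hx : 39 / 40 ≤ x) (hx' : x < 1) : ∀ (j : Fin 8) (y : ℝ), OnC j 2 y → rl x j y →
    h0 * y ≤ 1 → 1 < (PP x).ρ j → 1 - G y ≤ crv (PP x) j 2 y → NWal (DD x) x 0 tKF tL j 2 y := by
  refine fin8 ?_ ?_ ?_ ?_ ?_ ?_ ?_ ?_ <;> intro y o r hT hρ k <;> have y0 : 1 ≤ y := o.1.1 <;>
    have y2 := y_of_one hT (by linarith)
  · have e : (PP x).ρ 0 = 0 := rfl
    rw [e] at hρ
    exfalso
    linarith
  · have e : (PP x).ρ 1 = 1 / 5 := rfl
    rw [e] at hρ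
    exfalso
    linarith
  · have e : (PP x).ρ 2 = 3 / 5 := rfl
    rw [e] at hρ
    exfalso
    linarith
  · have e : (PP x).ρ 3 = 1 := rfl
    rw [e] at hρ
    exfalso
    linarith
  · exfalso
    linarith [r_four r]
  · exact And.intro (b_g52F hx hx' o y0 y2) (b_w52F hx hx' o y0 y2 (by linarith) k)
  · exact And.intro (b_g62F hx hx' o y0 y2) (b_w62F hx hx' o y0 y2 (by linarith) k)
  · exact And.intro (b_g72F hx hx' o y0 y2) (b_w72F hx hx' o y0 y2 (by linarith) k)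
theorem nodeF {x : ℝ} (hx : 39 / 40 ≤ x) (hx' : x < 1) (j : Fin 8) (q : ℕ) (y : ℝ) (hq : InQ q y)
    (hd : (PP x).dm j (h0 * y)) (hr : rl x j y) (ht : 7 / 20 * (1 - x) ≤ y) (hT : h0 * y ≤ 1)
    (h : y < 1 ∨ (j ≠ 0 ∧ 1 - G y ≤ crv (PP x) j q y)) : NWal (DD x) x 0 tKF tL j q y := by
  have q3 := q_lt_three hq hT
  have o := dm_onC hq hd
  match q, hq, q3, o, h with
  | 0, hq, _, o, _ => exact nd0F hx hx' j y o hr ht
  | 1, hq, _, o, _ => exact nd1F hx hx' j y o hr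
  | 2, hq, _, o, h =>
    obtain ⟨-, k1, k2⟩ := node_two hq hd hT h
    exact nd2F hx hx' j y o hr hT k1 k2
  | q + 3, _, q3, _, _ => exact absurd q3 (by omega)
theorem stpF {x : ℝ} (hx : 39 / 40 ≤ x) (hx' : x < 1) (H : Par2 x 0)
    (hE : EdgeU (UD (DD x) x 0 (tbl tKF x) (tbl tL x)) (NodeAt (DD x).cur.nodes)) (y : ℝ) (hy : 1 ≤ y)
    (hT : h0 * y ≤ 1) (d : ℝ) (hd : 0 ≤ d) :
    1 / 2 ≤ UD (DD x) x 0 (tbl tKF x) (tbl tL x) (1 - G y) d (d + h0 * y) := by
  have hp := h0_pos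
  have hq := inQ_two hy hT
  have lR := (sideF hx hx').linkK
  have lL := (sideF hx hx').linkL
  have y2 := y_of_one hT (by linarith)
  obtain ⟨s1, s2⟩ := steep_len hy hT
  rcases le_total (37 / 36) y with h37 | h37
  · have g := b_sgF hx hx' (by linarith) hT (Real.sqrt_nonneg _) (c1n_w h37)
    have w := b_swF hx hx' (by linarith) hT (Real.sqrt_nonneg _) (c1n_w h37) (by linarith)
    exact ud_wall H hq (lR.third 2 _ y hq s1 s2) (lL.third 2 _ y hq s1 s2) hd g w
  · have hW : 1 / 2 ≤ UD (DD x) x 0 (tbl tKF x) (tbl tL x) (crv (PP x) 3 2 y) d (d + h0 * y) := by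
      rcases hy.eq_or_lt with h1 | h1
      · subst h1
        have e3 : crv (PP x) 3 2 1 = crv (PP x) 0 2 1 := by
          have e1 : c1n 1 = 1 / 2 := G_at_one
          have e2 : swn 1 = 1 := by
            unfold swn
            norm_num
          rw [crv3, crv0, Wn_up, e1, e2]
          norm_num
        have o0 : OnC (0 : Fin 8) 2 1 := ⟨hq, fun _ => by rw [mul_one]; exact h0_lt_one⟩
        have hm : (DD x).P.dm 0 (h0 * 1) := dm_zero (by norm_num) (by rw [mul_one]; exact h0_lt_one)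
        have ρ3 : (DD x).P.ρ 3 ≤ 1 := le_rfl
        have pK : tKF 3 2 1 x = tKF 0 2 1 x := (sideF hx hx').pinK.pins.mid 3 ρ3
        have pL : tL 3 2 1 x = tL 0 2 1 x := (sideF hx hx').pinL.pins.mid 3 ρ3
        have w := x32F hx hx' (v := 0) le_rfl (by norm_num)
        rw [add_zero, pK, pL, e3] at w
        rw [e3]
        have e1 : c1n 1 = 1 / 2 := G_at_one
        exact ud_wall H hq (lR.atV hq hm trivial) (lL.atV hq hm trivial) hd
          (b_g02F hx hx' o0 (by rw [e1]; norm_num) (by rw [e1])) w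
      · have hm : (DD x).P.dm 3 (h0 * y) := dm_three h1 hT
        have w := x32F hx hx' (v := y - 1) (by linarith) (by linarith)
        rw [e_back] at w
        exact ud_wall H hq (lR.atV hq hm trivial) (lL.atV hq hm trivial) hd
          (b_g32F hx hx' (onc hq (by decide)) hy h37) w
    have hA : crv (PP x) 3 2 y ≤ 1 - G y := by
      have k := c1n_le hy
      have e : G y = c1n y := rfl
      have k2 := cl3 (x := x) (y := y)
      rw [e]
      linarith
    have hW0 : 0 < crv (PP x) 3 2 y := by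
      have := swn_w hy h37
      rw [crv3, Wn_up]
      linarith
    have hG0 := Pool.Agent.Strip051.LC.Floor.G_nonneg y
    have hT0 : 0 ≤ h0 * y := by positivity
    have nod : ∀ j : Fin 8, (DD x).P.dm j (h0 * y) → (DD x).r j y → crv (PP x) 3 2 y ≤ crv (PP x) j 2 y →
        1 / 2 ≤ UD (DD x) x 0 (tbl tKF x) (tbl tL x) (crv (PP x) j 2 y) d (d + h0 * y) := by
      have same : ∀ j : Fin 8, j ≤ 3 → crv (PP x) 3 2 y ≤ crv (PP x) j 2 y →
          1 / 2 ≤ UD (DD x) x 0 (tbl tKF x) (tbl tL x) (crv (PP x) j 2 y) d (d + h0 * y) := by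
        intro j hj k
        rw [le_antisymm (crv_le hq hj) k]
        exact hW
      have use : ∀ j : Fin 8, (DD x).P.dm j (h0 * y) → (DD x).r j y → 1 < (PP x).ρ j →
          1 - G y ≤ crv (PP x) j 2 y →
          1 / 2 ≤ UD (DD x) x 0 (tbl tKF x) (tbl tL x) (crv (PP x) j 2 y) d (d + h0 * y) := by
        intro j hm hl k1 k2
        have k := nd2F hx hx' j y (dm_onC hq hm) hl hT k1 k2
        exact ud_wall H hq (lR.atV hq hm hl) (lL.atV hq hm hl) hd k.1 k.2
      refine fin8 ?_ ?_ ?_ ?_ ?_ ?_ ?_ ?_ <;> intro hm hl k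
      · exact same 0 (by decide) k
      · exact same 1 (by decide) k
      · exact same 2 (by decide) k
      · exact same 3 (by decide) k
      · exfalso
        have := r_four (x := x) (y := y) hl
        linarith
      · exact use 5 hm hl (show (1 : ℝ) < 23 / 20 by norm_num) (st5 hy h37)
      · exact use 6 hm hl (show (1 : ℝ) < 8 / 5 by norm_num) (st6 hy h37)
      · exact use 7 hm hl (show (1 : ℝ) < 2 by norm_num) (st7 hy h37)
    have := hE.between (X := 1 - G y) (X0 := crv (PP x) 3 2 y) (X1 := 2) (T := h0 * y) (y := d) (σ := 1)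
      (α := 0) (β := -(1 / 2)) hA (by linarith) hT0 (by rw [qqn_eq]; exact s1) (by rw [qqn_eq]; exact s2)
      (fun u u0 u1 u2 u3 un => by
        rcases un with un | un | un
        · obtain ⟨j, q', y', e, hq', hm, hl, rfl⟩ := node_casesV hT0 (hW0.trans_le u0) u3 un
          obtain rfl : y = y' := mul_left_cancel₀ hp.ne' e
          obtain rfl : q' = 2 := (qr_eq hq').symm.trans (qr_eq hq)
          have k := nod j hm hl u0
          have e2 : crv (DD x).P j 2 y = crv (PP x) j 2 y := rfl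
          rw [e2]
          linarith
        · rw [un]
          linarith
        · exfalso
          rw [un] at u3
          nlinarith [sq_nonneg (h0 * y)])
    linarith
theorem fltF {x : ℝ} (hx : 39 / 40 ≤ x) (hx' : x < 1) : ∀ (j : Fin 8) (y : ℝ), OnC j 0 y → rl x j y →
    y ≤ 7 / 20 * (1 - x) → NFla (DD x) x 0 tKF tL (1 / 5 * (1 - x)) j 0 y := by
  have hg : 0 ≤ 1 / 5 * (1 - x) := by linarith
  refine fin8 ?_ ?_ ?_ ?_ ?_ ?_ ?_ ?_ <;> intro y o r ht <;> have y0 : 0 ≤ y := o.1.1 <;> have y1 : y < 1 / 2 := o.1.2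
  · exact fla_of hg (b_g00F hx hx' o y0 y1.le) (x00F hx hx' y0 (by linarith))
  · exfalso
    linarith [r_one (Or.inl rfl) r (by linarith)]
  · exfalso
    linarith [r_one (Or.inr rfl) r (by linarith)]
  · exact fla_of hg (b_g30F hx hx' o y0 y1.le) (x30F hx hx' y0 (by linarith))
  · exact fla_of hg (b_g40F hx hx' o y0 (r_four r)) (x40F hx hx' y0 (by linarith))
  · exact And.intro (b_g50F hx hx' o y0 y1.le) (x5fF hx hx' y0 ht)
  · exact fla_of hg (b_g60F hx hx' o y0 y1.le) (b_w60F hx hx' o y0 y1.le (by linarith))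
  · exact fla_of hg (b_g70F hx hx' o y0 y1.le) (b_w70F hx hx' o y0 y1.le (by linarith))
theorem lftF {x : ℝ} (hx : 39 / 40 ≤ x) (hx' : x < 1) : ∀ (j : Fin 8) (y : ℝ), OnC j 0 y → rl x j y →
    y ≤ 7 / 20 * (1 - x) → crv (PP x) j 0 y ≤ crv (PP x) 4 0 y → NWal (DD x) x 0 tKF tL j 0 y := by
  refine fin8 ?_ ?_ ?_ ?_ ?_ ?_ ?_ ?_ <;> intro y o r ht hc <;> have y0 : 0 ≤ y := o.1.1 <;> have y1 : y < 1 / 2 := o.1.2
  · exact And.intro (b_g00F hx hx' o y0 y1.le) (x00F hx hx' y0 (by linarith))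
  · exfalso
    linarith [r_one (Or.inl rfl) r (by linarith)]
  · exfalso
    linarith [r_one (Or.inr rfl) r (by linarith)]
  · exact And.intro (b_g30F hx hx' o y0 y1.le) (x30F hx hx' y0 (by linarith))
  · exact And.intro (b_g40F hx hx' o y0 (r_four r)) (x40F hx hx' y0 (by linarith))
  · exfalso
    linarith [cg5 hx hx' y0 ht]
  · exact And.intro (b_g60F hx hx' o y0 y1.le) (b_w60F hx hx' o y0 y1.le (by linarith))
  · exact And.intro (b_g70F hx hx' o y0 y1.le) (b_w70F hx hx' o y0 y1.le (by linarith))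
theorem hi1F {x : ℝ} (hx : 39 / 40 ≤ x) (hx' : x < 1) : ∀ (j : Fin 8) (y t : ℝ), OnC j 1 y → rl x j y →
    1 - 7 / 20 * (1 - x) ≤ t → t ≤ y → y ≤ t + 7 / 20 * (1 - x) →
    NHi (DD x) x 0 tKF tL (7 / 20 * (1 - x)) (1 / 5 * (1 - x)) (1 + 3 / 2 * (1 - x)) j 1 y (alF x t) := by
  refine fin8 ?_ ?_ ?_ ?_ ?_ ?_ ?_ ?_ <;> intro y t o r t0 t1 t2 <;> have y0 : 24781 / 25000 ≤ y := by linarith
  · have y1 : y < 1 := o.1.2
    have w := x01F hx hx' (v := 1 - y) (by linarith) (by linarith)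
    rw [e_back'] at w
    have g := b_g01F hx hx' o (by linarith) y1.le
    refine hi_of w g (al0F hx hx' t) ?_
    show crv (PP x) 0 1 y ≤ _
    rw [crv0]
    have := c1n_low (e := 1 - x) (y := y) (by linarith) (by linarith) (by linarith)
    linarith
  · exact b_hb11F hx hx' o y0 o.1.2.le t1 t2 (by linarith)
  · exact b_hb21F hx hx' o y0 o.1.2.le t1 t2 (by linarith)
  · exact b_hb31F hx hx' o y0 o.1.2.le t1 t2 (by linarith)
  · exfalso
    linarith [r_four r]
  · exfalso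
    linarith [r_five (Or.inl rfl) r o.1.2]
  · exfalso
    linarith [r_five (Or.inr rfl) r o.1.2]
  · exact b_hb71F hx hx' o y0 o.1.2.le t1 t2 (by linarith)
theorem hi2F {x : ℝ} (hx : 39 / 40 ≤ x) (hx' : x < 1) : ∀ (j : Fin 8) (y t : ℝ), OnC j 2 y → rl x j y →
    t ≤ y → y ≤ t + 7 / 20 * (1 - x) →
    NHi (DD x) x 0 tKF tL (7 / 20 * (1 - x)) (1 / 5 * (1 - x)) (1 + 3 / 2 * (1 - x)) j 2 y (alF x t) := by
  refine fin8 ?_ ?_ ?_ ?_ ?_ ?_ ?_ ?_ <;> intro y t o r t1 t2 <;> have y0 : 1 ≤ y := o.1.1 <;>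
    have y1 : y < 3 / 2 := o.1.2 <;> have t3 : 99 / 100 ≤ t := by linarith
  · rcases le_total y (37 / 36) with h37 | h37
    · have k := xh2F (x := x) (v := y - 1) (a := alF x t) hx hx' (by linarith) (by linarith)
      rw [e_back] at k
      exact k (b_g02F hx hx' o (c1n_w' (by linarith) h37) (c1n_le y0))
        (by rw [alF_eq t3]; exact alfg_mono hx hx' (by linarith) (by linarith))
    · exact b_h02F hx hx' o (Real.sqrt_nonneg _) (c1n_w h37) (by linarith) t1 t2 t3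
  · obtain ⟨k1, k2⟩ := r_two (Or.inl rfl) r y0
    rcases lt_or_ge (h0 * y) 1 with hv | hv
    · exact b_h12aF hx hx' o hv (Real.sqrt_nonneg _) (c1n_lo17 k1) (by linarith) t1 t2 t3
    · exact b_h12bF hx hx' o hv (y_of_one' hv (by linarith)) y1.le (by linarith) t1 t2 t3
  · obtain ⟨k1, k2⟩ := r_two (Or.inr rfl) r y0
    rcases lt_or_ge (h0 * y) 1 with hv | hv
    · exact b_h22aF hx hx' o hv (Real.sqrt_nonneg _) (c1n_lo17 k1) (by linarith) t1 t2 t3
    · exact b_h22bF hx hx' o hv (y_of_one' hv (by linarith)) y1.le (by linarith) t1 t2 t3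
  · rcases le_total y (37 / 36) with h37 | h37
    · have w := x32F hx hx' (v := y - 1) (by linarith) (by linarith)
      rw [e_back] at w
      refine hi_of w (b_g32F hx hx' o y0 h37) (al0F hx hx' t) ?_
      have := cl3 (x := x) (y := y)
      show crv (PP x) 3 2 y ≤ _
      linarith
    · exact b_h32F hx hx' o h37 y1.le (by linarith) t1 t2 t3
  · exfalso
    linarith [r_four r]
  · exact b_h52F hx hx' o y0 y1.le (by linarith) t1 t2 t3
  · exact b_h62F hx hx' o y0 y1.le (by linarith) t1 t2 t3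
  · exact b_h72F hx hx' o y0 y1.le (by linarith) t1 t2 t3
theorem hi3F {x : ℝ} (hx : 39 / 40 ≤ x) (hx' : x < 1) : ∀ (j : Fin 8) (y t : ℝ), OnC j 3 y → rl x j y →
    t ≤ y → y ≤ t + 7 / 20 * (1 - x) → h0 * y ≤ 17 / 10 →
    NHi (DD x) x 0 tKF tL (7 / 20 * (1 - x)) (1 / 5 * (1 - x)) (1 + 3 / 2 * (1 - x)) j 3 y (alF x t) := by
  refine fin8 ?_ ?_ ?_ ?_ ?_ ?_ ?_ ?_ <;> intro y t o r t1 t2 hT <;> have y0 : 3 / 2 ≤ y := o.1.1 <;>
    have y1 := y_of_17 hT (by linarith) <;> have t3 : 99 / 100 ≤ t := by linarith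
  · exfalso
    have := y_of_one (o.2 rfl).le (by linarith)
    linarith
  · exact b_h13F hx hx' o y0 (r_two (Or.inl rfl) r (by linarith)).2 (by linarith) t1 t2 t3
  · exact b_h23F hx hx' o y0 (r_two (Or.inr rfl) r (by linarith)).2 (by linarith) t1 t2 t3
  · exact b_h33F hx hx' o y0 y1 (by linarith) t1 t2 t3
  · exfalso
    linarith [r_four r]
  · exact b_h53F hx hx' o (c3n_top (by linarith) y1) (c3n_le' y0) (by linarith) t1 t2 t3
  · exact b_h63F hx hx' o (c3n_top (by linarith) y1) (c3n_le' y0) (by linarith) t1 t2 t3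
  · exact b_h73F hx hx' o (c3n_top (by linarith) y1) (c3n_le' y0) (by linarith) t1 t2 t3
theorem highF {x : ℝ} (hx : 39 / 40 ≤ x) (hx' : x < 1) (j : Fin 8) (q : ℕ) (y t : ℝ) (hq : InQ q y)
    (hd : (PP x).dm j (h0 * y)) (hr : rl x j y) (t0 : 1 - 7 / 20 * (1 - x) ≤ t) (t1 : t ≤ y)
    (t2 : y ≤ t + 7 / 20 * (1 - x)) (hT : h0 * y ≤ 17 / 10) :
    NHi (DD x) x 0 tKF tL (7 / 20 * (1 - x)) (1 / 5 * (1 - x)) (1 + 3 / 2 * (1 - x)) j q y (alF x t) := by
  have o := dm_onC hq hd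
  match q, hq, o with
  | 0, hq, _ => exact absurd hq.2 (by linarith)
  | 1, _, o => exact hi1F hx hx' j y t o hr t0 t1 t2
  | 2, _, o => exact hi2F hx hx' j y t o hr t1 t2
  | 3, _, o => exact hi3F hx hx' j y t o hr t1 t2 hT
  | _ + 4, h, _ => exact h.elim
theorem fa2F {x : ℝ} (hx : 39 / 40 ≤ x) (hx' : x < 1) : ∀ (j : Fin 8) (y t : ℝ), OnC j 2 y → rl x j y →
    InT (1 / 2 - 7 / 4 * (1 - x)) t → t ≤ y + 7 / 20 * (1 - x) → 1 + 3 / 2 * (1 - x) ≤ crv (PP x) j 2 y →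
    NFar x 0 (7 / 20 * (1 - x)) (1 / 5 * (1 - x)) (1 + 3 / 2 * (1 - x)) 2 y (crv (PP x) j 2 y) (tKF j 2 y x)
      (tL j 2 y x) (beF x t) := by
  refine fin8 ?_ ?_ ?_ ?_ ?_ ?_ ?_ ?_ <;> intro y t o r hT t1 hX <;> have y0 : 1 ≤ y := o.1.1 <;>
    have y1 : y < 3 / 2 := o.1.2
  · exfalso
    linarith [cl0 (x := x) 2 y0]
  · exfalso
    linarith [cl1 (x := x) y0]
  · exfalso
    linarith [cl2 (x := x) y0]
  · exfalso
    linarith [cl3 (x := x) (y := y)]
  · exfalso
    linarith [r_four r]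
  · exfalso
    linarith [cl5 (x := x) y0]
  · exact b_r62F hx hx' o y0 y1.le (by linarith) hT t1 hX
  · rcases le_total y (37 / 36) with h37 | h37
    · have g1 := inT_gt (by linarith) (by linarith) hT
      have k := xr7F (x := x) (v := y - 1) (b := beF x t) hx hx' (by linarith) (by linarith)
      rw [e_back] at k
      exact k (b_g72F hx hx' o y0 (by linarith)) (umf hx' hT t1) hX
        (by rw [beF_eq (by linarith)]; exact befg_mono hx hx' (by linarith) t1)
    · exact b_r72F hx hx' o h37 y1.le (by linarith) hT t1 hX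
theorem fa3F {x : ℝ} (hx : 39 / 40 ≤ x) (hx' : x < 1) : ∀ (j : Fin 8) (y t : ℝ), OnC j 3 y → rl x j y →
    InT (1 / 2 - 7 / 4 * (1 - x)) t → t ≤ y + 7 / 20 * (1 - x) → y ≤ t + 7 / 20 * (1 - x) →
    1 + 3 / 2 * (1 - x) ≤ crv (PP x) j 3 y →
    NFar x 0 (7 / 20 * (1 - x)) (1 / 5 * (1 - x)) (1 + 3 / 2 * (1 - x)) 3 y (crv (PP x) j 3 y) (tKF j 3 y x)
      (tL j 3 y x) (beF x t) := by
  refine fin8 ?_ ?_ ?_ ?_ ?_ ?_ ?_ ?_ <;> intro y t o r hT t1 t2 hX <;> have y0 : 3 / 2 ≤ y := o.1.1 <;>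
    have h29 := y_of_29 hT.hi (inT_pos hT).le
  · exfalso
    linarith [cl0 (x := x) (y := y) 3 (by linarith)]
  · exfalso
    linarith [dl1 (x := x) (y := y) (by linarith)]
  · exfalso
    linarith [dl2 (x := x) (y := y) (by linarith)]
  · exfalso
    linarith [dl3 (x := x) (y := y)]
  · exfalso
    linarith [r_four r]
  · exfalso
    linarith [dl5 (x := x) y0]
  · exfalso
    linarith [dl6 (x := x) y0]
  · refine b_r73F hx hx' o ?_ (c3n_le' y0) (by linarith) hT t1 hX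
    rw [crv7] at hX
    linarith
theorem farF {x : ℝ} (hx : 39 / 40 ≤ x) (hx' : x < 1) (j : Fin 8) (q : ℕ) (y t : ℝ) (hq : InQ q y)
    (hd : (PP x).dm j (h0 * y)) (hr : rl x j y) (hT : InT (1 / 2 - 7 / 4 * (1 - x)) t)
    (t1 : t - 7 / 20 * (1 - x) ≤ y) (t2 : y ≤ t + 7 / 20 * (1 - x)) (hX : 1 + 3 / 2 * (1 - x) ≤ crv (PP x) j q y) :
    NFar x 0 (7 / 20 * (1 - x)) (1 / 5 * (1 - x)) (1 + 3 / 2 * (1 - x)) q y (crv (PP x) j q y) (tKF j q y x)
      (tL j q y x) (beF x t) := by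
  have g1 := inT_gt (by linarith) (by linarith) hT
  have o := dm_onC hq hd
  rcases nlt_three hq (by linarith) with ⟨rfl, -, -⟩ | ⟨rfl, -⟩
  · exact fa2F hx hx' j y t o hr hT (by linarith) hX
  · exact fa3F hx hx' j y t o hr hT (by linarith) t2 hX
theorem fadF {x : ℝ} (hx : 39 / 40 ≤ x) (hx' : x < 1) (q : ℕ) (y t : ℝ) (hq : InQ q y)
    (hT : InT (1 / 2 - 7 / 4 * (1 - x)) t) (t1 : t - 7 / 20 * (1 - x) ≤ y) (t2 : y ≤ t + 7 / 20 * (1 - x))
    (h3 : qqn (1 + 3 / 2 * (1 - x)) y ≤ 3) :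
    NFar x 0 (7 / 20 * (1 - x)) (1 / 5 * (1 - x)) (1 + 3 / 2 * (1 - x)) q y (1 + 3 / 2 * (1 - x))
      ((pcF q).K.v (1 + 3 / 2 * (1 - x)) y x) ((pcF q).L.v (1 + 3 / 2 * (1 - x)) y x) (beF x t) := by
  have g1 := inT_gt (by linarith) (by linarith) hT
  rcases nlt_three hq (by linarith) with ⟨rfl, y0, y1⟩ | ⟨rfl, y0⟩
  · exact b_rd2F hx hx' y0 y1.le (by linarith) h3 hT (by linarith)
  · have k : y ≤ 16331 / 10000 := by
      have h3' := h3
      unfold qqn at h3'
      by_contra hc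
      push Not at hc
      nlinarith
    exact b_rd3F hx hx' y0 k (by linarith) h3 hT (by linarith)
theorem ne2F {x : ℝ} (hx : 39 / 40 ≤ x) (hx' : x < 1) : ∀ (j : Fin 8) (y : ℝ), OnC j 2 y → rl x j y →
    InT (1 / 2 - 7 / 4 * (1 - x)) y → crv (PP x) j 2 y ≤ crv (PP x) 5 2 y →
    NNr x 0 (7 / 20 * (1 - x)) (1 / 5 * (1 - x)) 2 y (crv (PP x) j 2 y) (tKF j 2 y x) (tL j 2 y x) (beF x y) := by
  refine fin8 ?_ ?_ ?_ ?_ ?_ ?_ ?_ ?_ <;> intro y o r hT hX <;> have y0 : 1 ≤ y := o.1.1 <;>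
    have y1 : y < 3 / 2 := o.1.2 <;> have g1 := inT_gt (by linarith) (by linarith) hT
  · rcases le_total y (37 / 36) with h37 | h37
    · have k := xn0F (x := x) (v := y - 1) hx hx' (by linarith) (by linarith)
      rw [e_back] at k
      rw [beF_eq (by linarith)]
      exact k (inT_um hT)
    · rcases le_total (1 / 10) (c1n y) with h10 | h10
      · exact b_n02F hx hx' o h10 (c1n_w h37) (by linarith) (by linarith)
      · exact q_F hx hx' (by linarith) (o.2 rfl) o h10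
  · obtain ⟨k1, k2⟩ := r_two (Or.inl rfl) r y0
    rcases lt_or_ge (h0 * y) 1 with hv | hv
    · exact b_n12aF hx hx' o hv (Real.sqrt_nonneg _) (c1n_lo17 k1) (by linarith) (by linarith)
    · exact b_n12bF hx hx' o hv (y_of_one' hv (by linarith)) y1.le (by linarith) (by linarith)
  · obtain ⟨k1, k2⟩ := r_two (Or.inr rfl) r y0
    rcases lt_or_ge (h0 * y) 1 with hv | hv
    · exact b_n22aF hx hx' o hv (Real.sqrt_nonneg _) (c1n_lo17 k1) (by linarith) (by linarith)
    · exact b_n22bF hx hx' o hv (y_of_one' hv (by linarith)) y1.le (by linarith) (by linarith)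
  · rcases le_total y (37 / 36) with h37 | h37
    · have k := xn3F (x := x) (v := y - 1) hx hx' (by linarith) (by linarith)
      rw [e_back] at k
      rw [beF_eq (by linarith)]
      exact k (inT_um hT)
    · exact b_n32F hx hx' o h37 y1.le (by linarith) (by linarith)
  · exfalso
    linarith [r_four r]
  · rcases le_total y (37 / 36) with h37 | h37
    · exact b_nb52F hx hx' o y0 h37 (by linarith)
    · exact b_n52F hx hx' o h37 y1.le (by linarith) (by linarith)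
  · exfalso
    linarith [cj6 (x := x) y0 y1.le]
  · exfalso
    linarith [cj7 (x := x) y0 y1.le]
theorem ne3F {x : ℝ} (hx : 39 / 40 ≤ x) (hx' : x < 1) : ∀ (j : Fin 8) (y : ℝ), OnC j 3 y → rl x j y →
    InT (1 / 2 - 7 / 4 * (1 - x)) y → crv (PP x) j 3 y ≤ crv (PP x) 6 3 y →
    NNr x 0 (7 / 20 * (1 - x)) (1 / 5 * (1 - x)) 3 y (crv (PP x) j 3 y) (tKF j 3 y x) (tL j 3 y x) (beF x y) := by
  refine fin8 ?_ ?_ ?_ ?_ ?_ ?_ ?_ ?_ <;> intro y o r hT hX <;> have y0 : 3 / 2 ≤ y := o.1.1 <;>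
    have h29 := y_of_29 hT.hi (inT_pos hT).le
  · exfalso
    have := y_of_one (o.2 rfl).le (by linarith)
    linarith
  · exact b_n13F hx hx' o y0 h29 (by linarith)
  · exact b_n23F hx hx' o y0 h29 (by linarith)
  · exact b_n33F hx hx' o y0 h29 (by linarith)
  · exfalso
    linarith [r_four r]
  · exact b_n53F hx hx' o (c3n_ge' (by linarith) h29) (c3n_le' y0) (by linarith)
  · exact b_n63F hx hx' o (c3n_ge' (by linarith) h29) (c3n_le' y0) (by linarith)
  · exfalso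
    linarith [ck7 (x := x) (y := y) (by linarith) h29]
theorem nearF {x : ℝ} (hx : 39 / 40 ≤ x) (hx' : x < 1) (q : ℕ) (y : ℝ) (hq : InQ q y)
    (hT : InT (1 / 2 - 7 / 4 * (1 - x)) y) : ∃ j1 : Fin 8, 1 / 2 - 7 / 4 * (1 - x) ≤ crv (PP x) j1 q y ∧
    (PP x).dm j1 (h0 * y) ∧ rl x j1 y ∧ ∀ j, (PP x).dm j (h0 * y) → rl x j y → 0 < crv (PP x) j q y →
      crv (PP x) j q y ≤ crv (PP x) j1 q y →
      NNr x 0 (7 / 20 * (1 - x)) (1 / 5 * (1 - x)) q y (crv (PP x) j q y) (tKF j q y x) (tL j q y x) (beF x y) := by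
  have g1 := inT_gt (by linarith) (by linarith) hT
  have h29 := y_of_29 hT.hi (inT_pos hT).le
  rcases nlt_three hq (by linarith) with ⟨rfl, y0, y1⟩ | ⟨rfl, y0⟩
  · refine ⟨5, ?_, dm_hi (Or.inl rfl) (by linarith) h29, Or.inr (by linarith), ?_⟩
    · linarith [ch5 (x := x) y0 y1.le]
    · intro j hd hr _ hc
      exact ne2F hx hx' j y (dm_onC hq hd) hr hT hc
  · refine ⟨6, ?_, dm_hi (Or.inr rfl) (by linarith) h29, Or.inr (by linarith), ?_⟩
    · linarith [ch6 (x := x) (y := y) (by linarith) h29]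
    · intro j hd hr _ hc
      exact ne3F hx hx' j y (dm_onC hq hd) hr hT hc
/-- **The inequalities at the floor.** -/
theorem winEF {x : ℝ} (hx : 39 / 40 ≤ x) (hx' : x < 1) (H : Par2 x 0)
    (hE : EdgeU (UD (DD x) x 0 (tbl tKF x) (tbl tL x)) (NodeAt (DD x).cur.nodes)) :
    WinE (DD x) x 0 (tbl tKF x) (tbl tL x) tKF tL (fun q => (pcF q).K.v) (fun q => (pcF q).L.v)
      (7 / 20 * (1 - x)) (1 / 5 * (1 - x)) (1 + 3 / 2 * (1 - x)) (1 / 2 - 7 / 4 * (1 - x)) (alF x) (beF x) where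
  al0 := al0F hx hx'
  be0 := be0F hx hx'
  node j q y hq hd hr ht hT h := nodeF hx hx' j q y hq hd hr ht hT h
  steep y hy hT d hd := stpF hx hx' H hE y hy hT d hd
  flat j y hq hd hr ht := fltF hx hx' j y (dm_onC hq hd) hr ht
  left := ⟨4, fun y y0 y1 => ⟨cg4 hx hx' y0 y1, dm_four hx hx' y0 (by linarith), show y ≤ 1 / 16 by linarith,
    fun j hd hr hc => lftF hx hx' j y (dm_onC ⟨y0, by linarith⟩ hd) hr y1 hc⟩⟩
  high j q y t hq hd hr t0 t1 t2 hT := highF hx hx' j q y t hq hd hr t0 t1 t2 hT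
  high0 t h1 h2 := hzF hx hx' t h1
  far j q y t hq hd hr hT t1 t2 hX := farF hx hx' j q y t hq hd hr hT t1 t2 hX
  far0 q y t hq hT t1 t2 h3 := fadF hx hx' q y t hq hT t1 t2 h3
  near q y hq hT := nearF hx hx' q y hq hT

end Pool.Agent.Strip051.G.IE1.Tab
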