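import Pool.Agent.Strip051.G.IE1.FlQ
import Pool.Agent.Strip051.PB.FxEnd

/-! # The rows at the floor near `x = 1`: positions of the curves (generated) -/

set_option linter.all false

namespace Pool.Agent.Strip051.G.IE1.Tab

open Pool.Agent.StripNear Pool.Agent.StripSquare Pool.Agent.Strip051 Pool.Agent.Strip051.Sweep
open Pool.Agent.Strip051.PB Pool.Agent.Strip051.PB.Fx Pool.Agent.Strip051.LC Pool.Agent.Strip051.LC.E1
open Pool.Agent.Strip051.LC.Floor (G)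

theorem fla_of {us gl g : ℝ} (hg : 0 ≤ g) (h1 : 0 ≤ gl) (h2 : 0 ≤ us) :
    0 ≤ gl ∧ 0 ≤ us + g * gl := ⟨h1, by have := mul_nonneg hg h1; linarith⟩
theorem hi_of {us gl c a X D : ℝ} (h1 : 0 ≤ us) (h2 : 0 ≤ gl) (h3 : 0 ≤ a) (h4 : X ≤ D / 2) :
    0 ≤ us + c * min gl 0 - a * (X - D / 2) := by
  rw [min_eq_right h2]
  nlinarith
theorem r_one {x y : ℝ} {j : Fin 8} (hj : j = 1 ∨ j = 2) (r : rl x j y) (h : y < 1) : 1 / 16 ≤ y := by
  have r' : (1 / 16 < y ∧ y < 1) ∨ (17 / 16 < y ∧ y ≤ 31 / 16) := by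
    rcases hj with rfl | rfl <;> exact r
  rcases r' with r' | r' <;> linarith [r'.1]
theorem r_two {x y : ℝ} {j : Fin 8} (hj : j = 1 ∨ j = 2) (r : rl x j y) (h : 1 ≤ y) :
    17 / 16 ≤ y ∧ y ≤ 31 / 16 := by
  have r' : (1 / 16 < y ∧ y < 1) ∨ (17 / 16 < y ∧ y ≤ 31 / 16) := by
    rcases hj with rfl | rfl <;> exact r
  rcases r' with r' | r'
  · exfalso
    linarith [r'.2]
  · exact ⟨r'.1.le, r'.2⟩
theorem r_four {x y : ℝ} (r : rl x 4 y) : y ≤ 1 / 16 := r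
theorem r_five {x y : ℝ} {j : Fin 8} (hj : j = 5 ∨ j = 6) (r : rl x j y) (h : y < 1) : y ≤ 15 / 16 := by
  have r' : y ≤ 15 / 16 ∨ 1 ≤ y := by
    rcases hj with rfl | rfl <;> exact r
  rcases r' with r' | r'
  · exact r'
  · exfalso
    linarith
theorem e_back (y : ℝ) : 1 + (y - 1) = y := by ring
theorem e_back' (y : ℝ) : 1 - (1 - y) = y := by ring
/-- the curve 5 is right of the steep pairs -/
theorem st5 {x y : ℝ} (hy : 1 ≤ y) (h : y ≤ 37 / 36) : 1 - G y ≤ crv (PP x) 5 2 y := by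
  have k1 := c1n_w' (by linarith) h
  have k2 := swn_w hy h
  have k3 := c3n_w (by linarith) h
  have e : G y = c1n y := rfl
  rw [crv5, Wn_up, e]
  linarith
theorem st6 {x y : ℝ} (hy : 1 ≤ y) (h : y ≤ 37 / 36) : 1 - G y ≤ crv (PP x) 6 2 y := by
  have k1 := c1n_w' (by linarith) h
  have k2 := swn_w hy h
  have k3 := c3n_w (by linarith) h
  have e : G y = c1n y := rfl
  rw [crv6, Wn_up, e]
  linarith
theorem st7 {x y : ℝ} (hy : 1 ≤ y) (h : y ≤ 37 / 36) : 1 - G y ≤ crv (PP x) 7 2 y := by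
  have k1 := c1n_w' (by linarith) h
  have k3 := c3n_w (by linarith) h
  have e : G y = c1n y := rfl
  rw [crv7, e]
  linarith
theorem cl3 {x y : ℝ} : crv (PP x) 3 2 y ≤ 1 / 2 := by
  have := swnz_le y
  rw [crv3, Wn_up]
  linarith
theorem cl0 {x y : ℝ} (q : ℕ) (hy : 1 ≤ y) : crv (PP x) 0 q y ≤ 1 / 2 := by
  rw [crv0]
  exact c1n_le hy
theorem cl1 {x y : ℝ} (hy : 1 ≤ y) : crv (PP x) 1 2 y ≤ 1 / 2 := by
  have := swnz_le y
  have := c1n_le hy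
  rw [crv1, Wn_up]
  linarith
theorem cl2 {x y : ℝ} (hy : 1 ≤ y) : crv (PP x) 2 2 y ≤ 1 / 2 := by
  have := swnz_le y
  have := c1n_le hy
  rw [crv2, Wn_up]
  linarith
theorem cl5 {x y : ℝ} (hy : 1 ≤ y) : crv (PP x) 5 2 y ≤ 13 / 20 := by
  have := swnz_le y
  have := c3n_le hy
  rw [crv5, Wn_up]
  linarith
theorem dl1 {x y : ℝ} (hy : 1 ≤ y) : crv (PP x) 1 3 y ≤ 1 / 2 := by
  have := swnz_le y
  have := c1n_le hy
  rw [crv1, Wn_up']
  linarith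
theorem dl2 {x y : ℝ} (hy : 1 ≤ y) : crv (PP x) 2 3 y ≤ 1 / 2 := by
  have := swnz_le y
  have := c1n_le hy
  rw [crv2, Wn_up']
  linarith
theorem dl3 {x y : ℝ} : crv (PP x) 3 3 y ≤ 1 / 2 := by
  have := swnz_le y
  rw [crv3, Wn_up']
  linarith
theorem dl5 {x y : ℝ} (hy : 3 / 2 ≤ y) : crv (PP x) 5 3 y ≤ 13 / 20 := by
  have := swnz_le y
  have := c3n_le' hy
  rw [crv5, Wn_up']
  linarith
theorem dl6 {x y : ℝ} (hy : 3 / 2 ≤ y) : crv (PP x) 6 3 y ≤ 9 / 10 := by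
  have := swnz_le y
  have := c3n_le' hy
  rw [crv6, Wn_up']
  linarith
theorem nlt_three {q : ℕ} {y : ℝ} (h : InQ q y) (h1 : 1 < y) : (q = 2 ∧ 1 ≤ y ∧ y < 3 / 2) ∨ (q = 3 ∧ 3 / 2 ≤ y) := by
  match q, h with
  | 0, h => exact absurd h.2 (by linarith)
  | 1, h => exact absurd h.2 (by linarith)
  | 2, h => exact Or.inl ⟨rfl, h.1, h.2⟩
  | 3, h => exact Or.inr ⟨rfl, h.1⟩
  | _ + 4, h => exact h.elim
theorem crv_le {x : ℝ} {q : ℕ} {y : ℝ} (hq : InQ q y) {i j : Fin 8} (h : i ≤ j) :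
    crv (PP x) i q y ≤ crv (PP x) j q y := by
  have hp := h0_pos
  have hh := h0_sq
  have hT : 0 ≤ h0 * y := mul_nonneg hp.le hq.nonneg
  have h3 : (h0 * y) ^ 2 ≤ 3 := by
    rw [mul_pow, hh]
    nlinarith [hq.le_two, hq.nonneg]
  have := (PP x).cv_mono hT h3 h
  rwa [show (PP x).cv i (h0 * y) = crv (PP x) i q y from linkX (PP x) i q y hq,
    show (PP x).cv j (h0 * y) = crv (PP x) j q y from linkX (PP x) j q y hq] at this
theorem dm_zero {x y : ℝ} (h0y : 0 ≤ y) (h : h0 * y < 1) : (PP x).dm 0 (h0 * y) := by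
  have hp := h0_pos
  have k := mul_nonneg hp.le h0y
  exact ⟨fun _ => h, fun k => absurd rfl k, fun _ => by nlinarith, by nlinarith⟩
theorem dm_three {x y : ℝ} (h1 : 1 < y) (h : h0 * y ≤ 1) : (PP x).dm 3 (h0 * y) := by
  have hp := h0_pos
  have k : 0 < h0 * y := by positivity
  have k2 : h0 < h0 * y := by nlinarith
  exact ⟨fun k => absurd k (by decide), fun _ _ => ⟨k, k2.ne'⟩, fun _ => by nlinarith, by nlinarith⟩
theorem dm_four {x y : ℝ} (hx : 39 / 40 ≤ x) (hx' : x < 1) (h0y : 0 ≤ y) (h : y ≤ 1 / 16) :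
    (PP x).dm 4 (h0 * y) := by
  have hp := h0_pos
  have hl := h0_lt_one
  have k := mul_nonneg hp.le h0y
  have k1 : h0 * y ≤ 1 := by nlinarith
  refine ⟨fun k => absurd k (by decide), fun _ k2 => ?_, fun _ => by nlinarith, by nlinarith⟩
  exfalso
  have e : (PP x).ρ 4 = r4 x := rfl
  rw [e, r4_eq hx hx'] at k2
  linarith
theorem dm_hi {x y : ℝ} {j : Fin 8} (hj : j = 5 ∨ j = 6) (h0y : 0 ≤ y) (h : y ≤ 2093 / 1250) :
    (PP x).dm j (h0 * y) := by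
  have hp := h0_pos
  have hs := h0_sq
  have k : (h0 * y) ^ 2 < 3 := by
    rw [mul_pow, hs]
    nlinarith
  refine ⟨fun k => ?_, fun _ k2 => ?_, fun _ => k, k.le⟩
  · rcases hj with rfl | rfl <;> exact absurd k (by decide)
  · exfalso
    rcases hj with rfl | rfl
    · have e : (PP x).ρ 5 = 23 / 20 := rfl
      rw [e] at k2
      linarith
    · have e : (PP x).ρ 6 = 8 / 5 := rfl
      rw [e] at k2
      linarith
/-- the first window curve -/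
theorem cg4 {x y : ℝ} (hx : 39 / 40 ≤ x) (hx' : x < 1) (h0y : 0 ≤ y) (h : y ≤ 7 / 20 * (1 - x)) :
    1 + 3 / 2 * (1 - x) ≤ crv (PP x) 4 0 y := by
  have k1 := swn_half h0y (by linarith)
  have k2 := swn_zero h0y (by linarith)
  have k3 := c3n_zero h0y (by linarith)
  have k4 : 0 ≤ (1 - x) * (c3n y - (swn y + 1 / 2) - 15 / 22) := mul_nonneg (by linarith) (by linarith)
  rw [crv4 hx hx', Wn_dn]
  nlinarith
theorem cg5 {x y : ℝ} (hx : 39 / 40 ≤ x) (hx' : x < 1) (h0y : 0 ≤ y) (h : y ≤ 7 / 20 * (1 - x)) :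
    crv (PP x) 4 0 y < crv (PP x) 5 0 y := by
  have k2 := swn_zero h0y (by linarith)
  have k3 := c3n_zero h0y (by linarith)
  have k4 : 0 ≤ (x - 39 / 40) * (c3n y - (swn y + 1 / 2)) := mul_nonneg (by linarith) (by linarith)
  rw [crv4 hx hx', crv5, Wn_dn]
  nlinarith
theorem ch5 {x y : ℝ} (h1 : 1 ≤ y) (h : y ≤ 3 / 2) : 1 / 2 ≤ crv (PP x) 5 2 y := by
  have k2 := swnz_ge h1 h
  have k3 := c3n_ge (by linarith) h
  rw [crv5, Wn_up]
  linarith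
theorem ch6 {x y : ℝ} (h1 : 1 ≤ y) (h : y ≤ 2093 / 1250) : 1 / 2 ≤ crv (PP x) 6 3 y := by
  have k2 := swn_ge' h1 h
  have k3 := c3n_ge' (by linarith) h
  rw [crv6, Wn_up']
  linarith
theorem cj6 {x y : ℝ} (h1 : 1 ≤ y) (h : y ≤ 3 / 2) : crv (PP x) 5 2 y < crv (PP x) 6 2 y := by
  have k2 := swnz_le y
  have k3 := c3n_ge (by linarith) h
  rw [crv5, crv6, Wn_up]
  linarith
theorem cj7 {x y : ℝ} (h1 : 1 ≤ y) (h : y ≤ 3 / 2) : crv (PP x) 5 2 y < crv (PP x) 7 2 y := by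
  have k2 := swnz_le y
  have k3 := c3n_ge (by linarith) h
  rw [crv5, crv7, Wn_up]
  linarith
theorem ck7 {x y : ℝ} (h1 : 1 ≤ y) (h : y ≤ 2093 / 1250) : crv (PP x) 6 3 y < crv (PP x) 7 3 y := by
  have k2 := swnz_le y
  have k3 := c3n_ge' (by linarith) h
  rw [crv6, crv7, Wn_up']
  linarith

end Pool.Agent.Strip051.G.IE1.Tab
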