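import Pool.Agent.Strip051.G.IE1.FlB

/-! # The inequalities at the nodes at the floor near `x = 1` (generated) -/

set_option linter.all false

namespace Pool.Agent.Strip051.G.IE1.Tab

open Pool.Agent.StripNear Pool.Agent.StripSquare Pool.Agent.Strip051 Pool.Agent.Strip051.Sweep
open Pool.Agent.Strip051.PB Pool.Agent.Strip051.PB.Fx Pool.Agent.Strip051.LC Pool.Agent.Strip051.LC.E1
open Pool.Agent.Strip051.LC.Floor (G)

theorem hh_sq (x : ℝ) : hhg.v x ^ 2 = 3 / 4 := by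
  simp only [hhg]
  push_cast
  exact Real.sq_sqrt (by norm_num)
theorem hh_nn (x : ℝ) : 0 ≤ hhg.v x := by
  simp only [hhg]
  exact Real.sqrt_nonneg _
theorem hh_lo (x : ℝ) : 866 / 1000 ≤ hhg.v x := by
  have := hh_sq x
  have := hh_nn x
  by_contra hc
  push Not at hc
  nlinarith
theorem hh_hi (x : ℝ) : hhg.v x ≤ 8661 / 10000 := by
  have := hh_sq x
  have := hh_nn x
  by_contra hc
  push Not at hc
  nlinarith
section
variable {x y : ℝ} (y0 : 0 ≤ y) (h : h0 * y < 1)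
include y0 h
theorem c1_sq : c1n y ^ 2 = 1 - 3 / 4 * y ^ 2 := by
  have hs := h0_sq
  have hp := h0_pos
  refine c1n_sq ?_
  have : (h0 * y) ^ 2 ≤ 1 := by nlinarith [mul_nonneg hp.le y0]
  rw [mul_pow, hs] at this
  linarith
theorem s_eq : Real.sqrt (1 - c1n y ^ 2) = hhg.v x * y := by
  rw [c1_sq y0 h, show 1 - (1 - 3 / 4 * y ^ 2) = (hhg.v x * y) ^ 2 by rw [mul_pow, hh_sq]; ring]
  exact Real.sqrt_sq (mul_nonneg (hh_nn x) y0)
theorem hy_lo (hp : c1n y ≤ 1 / 10) : 2487 / 2500 ≤ hhg.v x * y := by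
  have h1 := c1_sq y0 h
  have h2 := hh_sq x
  have h3 := mul_nonneg (hh_nn x) y0
  have h4 : (hhg.v x * y) ^ 2 = 1 - c1n y ^ 2 := by rw [mul_pow, hh_sq, h1]; ring
  have h5 : 0 ≤ c1n y := Real.sqrt_nonneg _
  by_contra hc
  push Not at hc
  nlinarith
omit y0 h in
theorem hp_hi (hp : c1n y ≤ 1 / 10) : hhg.v x * c1n y ≤ 8661 / 100000 := by
  have h1 := hh_hi x
  have h2 := hh_nn x
  have h5 : 0 ≤ c1n y := Real.sqrt_nonneg _
  nlinarith
theorem hT_eq : hhg.v x * (y / 2 - c1n y) - 1 / 2 =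
    c1n y * -(hhg.v x + c1n y * (1 + hhg.v x * y)⁻¹ / 2) := by
  have h1 := c1_sq y0 h
  have h2 := hh_sq x
  have h3 := mul_nonneg (hh_nn x) y0
  have hj : (1 + hhg.v x * y) * (1 + hhg.v x * y)⁻¹ = 1 := mul_inv_cancel₀ (by linarith)
  have h4 : (hhg.v x * y) ^ 2 = 1 - c1n y ^ 2 := by rw [mul_pow, hh_sq, h1]; ring
  linear_combination (-(hhg.v x * y - 1) / 2) * hj + (1 + hhg.v x * y)⁻¹ / 2 * h4
theorem lq_v (hx : 39 / 40 ≤ x) (hx' : x < 1) (hp : c1n y ≤ 1 / 10) :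
    lc02.v (c1n y) x = c1n y * lqg.v (c1n y) x := by
  have hY := yag_v y0 h
  have a1 := hy_lo (x := x) y0 h hp
  have a2 := hp_hi (x := x) hp
  have hs := s_eq (x := x) y0 h
  have hT := hT_eq (x := x) y0 h
  have hi : (1 / 2 - 167 / 50 * (hhg.v x * (1 - x))) * (1 / 2 - 167 / 50 * (hhg.v x * (1 - x)))⁻¹ = 1 := by
    refine mul_inv_cancel₀ ?_
    have := hh_hi x
    have := hh_nn x
    nlinarith
  simp only [lc02, lc02_7, alg, alg_3, alg_5, alg_7, alg_15, beg, beg_3, beg_5, beg_7, beg_15, lqg, lqg_3, lqg_7, lqg_10, lqg_22, lqg_31, lqg_39, lqg_48, lqg_57, lqg_66, lqg_74, lqg_83, lqg_93, k167_50g, hY]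
  push_cast
  rw [hs]
  repeat first
    | rw [if_neg (by have := hh_hi x; nlinarith)]
    | rw [if_neg (by linarith)]
  linear_combination (lamg.v x * (((85937 / 100000 + (-(10723 / 500)) * (1 - x)) * (((hhg.v x * (y / 2 - c1n y)) + 1 / 2 - 2 * (167 / 50 * (hhg.v x * (1 - x)))) * ((1 / 2 - 167 / 50 * (hhg.v x * (1 - x)))⁻¹) ^ 2) + (539 / 4000 + (-(44693 / 1000)) * (1 - x)) * (((hhg.v x * (y / 2 - c1n y)) + 71 / 200) * 160000 / 29241) + ((-(28781 / 50000)) + 25327 / 250 * (1 - x)) * (((hhg.v x * (y / 2 - c1n y)) + 8 / 25) * 10000 / 1681) + (31751 / 50000 + (-(1524 / 25)) * (1 - x)) * (((hhg.v x * (y / 2 - c1n y)) + 13 / 50) * 2500 / 361) + ((-(2328 / 3125)) + 37939 / 1000 * (1 - x)) * (((hhg.v x * (y / 2 - c1n y)) + 7 / 50) * 625 / 64) + (3837 / 50000 + (-(18073 / 1000)) * (1 - x)) * (((hhg.v x * (y / 2 - c1n y)) + 0) * 16) + (1533 / 25000 + (-(2297 / 1000)) * (1 - x)) * (((hhg.v x * (y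 / 2 - c1n y)) + (-(7 / 50))) * 2500 / 81) + ((-(1223 / 50000)) + 316 / 125 * (1 - x)) * (((hhg.v x * (y / 2 - c1n y)) + (-(3 / 10))) * 100)) - ((2661 / 12500 + (-(8863 / 1000)) * (1 - x)) * (((hhg.v x * (y / 2 - c1n y)) + 1 / 2 - 2 * (167 / 50 * (hhg.v x * (1 - x)))) * ((1 / 2 - 167 / 50 * (hhg.v x * (1 - x)))⁻¹) ^ 2) + (14331 / 50000 + (-(38949 / 1000)) * (1 - x)) * (((hhg.v x * (y / 2 - c1n y)) + 71 / 200) * 160000 / 29241) + ((-(13849 / 25000)) + 1359 / 20 * (1 - x)) * (((hhg.v x * (y / 2 - c1n y)) + 8 / 25) * 10000 / 1681) + (5519 / 50000 + (-(25993 / 1000)) * (1 - x)) * (((hhg.v x * (y / 2 - c1n y)) + 13 / 50) * 2500 / 361) + ((-(26321 / 100000)) + 6899 / 1000 * (1 - x)) * (((hhg.v x * (y / 2 - c1n y)) + 7 / 50) * 625 / 64) + (12697 / 100000 + (-(10061 / 1000)) * (1 - x)) * (((hhg.v x * (y / 2 - c1n y)) + 0) * 16) + (1773 / 100000 + 1627 / 1000 * (1 - x)) * (((hhg.v x * (y / 2 - c1n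 y)) + (-(7 / 50))) * 2500 / 81) + ((-(61 / 4000)) + 212 / 125 * (1 - x)) * (((hhg.v x * (y / 2 - c1n y)) + (-(3 / 10))) * 100)))) * hT + (lamg.v x * ((85937 / 100000 + (-(10723 / 500)) * (1 - x)) - (2661 / 12500 + (-(8863 / 1000)) * (1 - x))) * ((1 / 2 - 167 / 50 * (hhg.v x * (1 - x))) * ((1 / 2 - 167 / 50 * (hhg.v x * (1 - x)))⁻¹) + 1)) * hi
omit y0 h in
theorem rk_off {t : ℝ} (hx : 39 / 40 ≤ x) (hx' : x < 1) (ht : 24 / 100 ≤ t) : rkg.v t x = 0 := by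
  have a1 := hh_lo x
  have a2 : 2 / 10 < hhg.v x * t := by nlinarith
  simp only [rkg, rkg_3, rkg_5, rkg_30, rkg_31, rkg_36, rkg_50]
  push_cast
  repeat first
    | rw [if_neg (by linarith)]
omit y0 h in
theorem rb_off {t : ℝ} (hx : 39 / 40 ≤ x) (hx' : x < 1) (ht : 24 / 100 ≤ t) : rbg.v t x = 0 := by
  have a1 := hh_lo x
  have a2 : 2 / 10 < hhg.v x * t := by nlinarith
  simp only [rbg, rbg_3, rbg_5, rbg_10, rbg_12, rbg_21, rbg_33, rbg_34, rbg_37, rbg_44, rbg_51]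
  push_cast
  repeat first
    | rw [if_neg (by linarith)]
theorem t_lo (hp : c1n y ≤ 1 / 10) : 24 / 100 ≤ 1 / 2 * y - c1n y := by
  have h1 := c1_sq y0 h
  have h5 : 0 ≤ c1n y := Real.sqrt_nonneg _
  have h6 : 1 ≤ y := by
    by_contra hc
    push Not at hc
    nlinarith
  linarith
theorem k02F (hx : 39 / 40 ≤ x) (hx' : x < 1) (hp : c1n y ≤ 1 / 10) : kfc02.v (c1n y) x = 0 := by
  have hY := yag_v y0 h
  simp only [kfc02, kfc02_9, hY]
  push_cast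
  have e : rkg.v (y / 2 - c1n y) x = 0 := rk_off hx hx' (by have := t_lo y0 h hp; linarith)
  rw [e, zero_mul]
theorem k02B (hx : 39 / 40 ≤ x) (hx' : x < 1) (hp : c1n y ≤ 1 / 10) : kbc02.v (c1n y) x = 0 := by
  have hY := yag_v y0 h
  simp only [kbc02, kbc02_9, hY]
  push_cast
  have e : rbg.v (y / 2 - c1n y) x = 0 := rb_off hx hx' (by have := t_lo y0 h hp; linarith)
  rw [e, zero_mul]
theorem k02N (hx : 39 / 40 ≤ x) (hx' : x < 1) (hp : c1n y ≤ 1 / 10) : knc02.v (c1n y) x = 0 := by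
  simp only [knc02, k02F y0 h hx hx' hp, k02B y0 h hx hx' hp]
  ring
end
theorem mx_mul {a b : ℝ} (ha : 0 ≤ a) : max (a * b) 0 = a * max b 0 := by
  rw [mul_max_of_nonneg _ _ ha, mul_zero]
theorem q_F {x y : ℝ} (hx : 39 / 40 ≤ x) (hx' : x < 1) (hy : 1 < y) (h : h0 * y < 1) (hq : OnC (0 : Fin 8) 2 y)
    (hp : c1n y ≤ 1 / 10) :
    NNr x 0 (7 / 20 * (1 - x)) (1 / 5 * (1 - x)) 2 y (crv (PP x) 0 2 y) (tKF 0 2 y x) (tL 0 2 y x) (beF x y) := by
  have y0 : 0 ≤ y := by linarith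
  have h5 : 0 ≤ c1n y := Real.sqrt_nonneg _
  have A := atF02 hx hx' hq
  have hX : crv (PP x) 0 2 y = c1n y := crv0 x 2 y
  have hK : tKF 0 2 y x = 0 := by
    rw [← A.K]
    exact k02F y0 h hx hx' hp
  have hL : tL 0 2 y x = c1n y * lqg.v (c1n y) x := by
    rw [← A.L]
    exact lq_v y0 h hx hx' hp
  have c := pos2_one (k_nqF (c1n y) x (rgM h5 hp (by norm_num) (by norm_num)) (rgM hx hx'.le (by norm_num) (by norm_num)))
  have hy2 : y - 1 < x := by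
    have := y_of_one h.le y0
    linarith
  have g := gu2_le (x := x) (μ := 0) (y := y) (q := 2) (X := c1n y) (A := 0) (L := c1n y * lqg.v (c1n y) x) (t := y - 1) (by linarith) hx' (by linarith) le_rfl
  unfold guE at g
  rw [show max (0 : ℝ) 0 = 0 from max_self 0, show max (-(0 : ℝ)) 0 = 0 by norm_num] at g
  have g2 : max (gu2 x 0 2 y (c1n y) 0 (c1n y * lqg.v (c1n y) x)) 0 ≤ c1n y * max (1 + 0 * lqg.v (c1n y) x) 0 := by
    rw [← mx_mul h5]
    refine max_le_max_right 0 ?_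
    linarith
  have g3 := mul_le_mul_of_nonneg_left g2 (show (0 : ℝ) ≤ 11 / 20 * (1 - x) by linarith)
  have e : c1n y * nqF.v (c1n y) x = befg.v y x * c1n y - us2 x 0 2 y (c1n y) 0 (c1n y * lqg.v (c1n y) x) - 1 / 2 -
      11 / 20 * (1 - x) * (c1n y * max (1 + 0 * lqg.v (c1n y) x) 0) := by
    rw [us2_e (by linarith) hx'.le]
    unfold usE
    simp only [nqF, nqF_3, yag_v y0 h, lk_gs, lk_cp, lk_eh, lk_lam, lk_mu]
    push_cast
    rw [show max (1 : ℝ) 0 = 1 by norm_num, show (1 : ℝ) + 0 * lqg.v (c1n y) x = 1 by ring, show max (1 : ℝ) 0 = 1 by norm_num]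
    ring
  have c2 := mul_nonneg h5 c.le
  rw [e] at c2
  rw [hX, hK, hL]
  unfold NNr
  rw [beF_eq (by linarith)]
  linarith
theorem q_N {x y : ℝ} (hx : 39 / 40 ≤ x) (hx' : x < 1) (hy : 1 < y) (h : h0 * y < 1) (hq : OnC (0 : Fin 8) 2 y)
    (hp : c1n y ≤ 1 / 10) :
    NNr x (mun 3 x) (7 / 20 * (1 - x)) (1 / 5 * (1 - x)) 2 y (crv (PP x) 0 2 y) (tKN 0 2 y x) (tL 0 2 y x) (beN x y) := by
  have y0 : 0 ≤ y := by linarith
  have h5 : 0 ≤ c1n y := Real.sqrt_nonneg _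
  have A := atN02 hx hx' hq
  have hX : crv (PP x) 0 2 y = c1n y := crv0 x 2 y
  have hK : tKN 0 2 y x = 0 := by
    rw [← A.K]
    exact k02N y0 h hx hx' hp
  have hL : tL 0 2 y x = c1n y * lqg.v (c1n y) x := by
    rw [← A.L]
    exact lq_v y0 h hx hx' hp
  have c := pos2_one (k_nqN (c1n y) x (rgM h5 hp (by norm_num) (by norm_num)) (rgM hx hx'.le (by norm_num) (by norm_num)))
  have hy2 : y - 1 < x := by
    have := y_of_one h.le y0
    linarith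
  have g := gu2_le (x := x) (μ := (mun 3 x)) (y := y) (q := 2) (X := c1n y) (A := 0) (L := c1n y * lqg.v (c1n y) x) (t := y - 1) (by linarith) hx' (by linarith) le_rfl
  unfold guE at g
  rw [show max (0 : ℝ) 0 = 0 from max_self 0, show max (-(0 : ℝ)) 0 = 0 by norm_num] at g
  have g2 : max (gu2 x (mun 3 x) 2 y (c1n y) 0 (c1n y * lqg.v (c1n y) x)) 0 ≤ c1n y * max (1 + (mun 3 x) * lqg.v (c1n y) x) 0 := by
    rw [← mx_mul h5]
    refine max_le_max_right 0 ?_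
    linarith
  have g3 := mul_le_mul_of_nonneg_left g2 (show (0 : ℝ) ≤ 11 / 20 * (1 - x) by linarith)
  have e : c1n y * nqN.v (c1n y) x = beng.v y x * c1n y - us2 x (mun 3 x) 2 y (c1n y) 0 (c1n y * lqg.v (c1n y) x) - 1 / 2 -
      11 / 20 * (1 - x) * (c1n y * max (1 + (mun 3 x) * lqg.v (c1n y) x) 0) := by
    rw [us2_e (by linarith) hx'.le]
    unfold usE
    simp only [nqN, nqN_3, yag_v y0 h, lk_gs, lk_cp, lk_eh, lk_lam, lk_mu]
    push_cast
    ring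
  have c2 := mul_nonneg h5 c.le
  rw [e] at c2
  rw [hX, hK, hL]
  unfold NNr
  rw [beN_eq (by linarith)]
  linarith

end Pool.Agent.Strip051.G.IE1.Tab
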