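import Pool.Agent.Strip051.G.IE1.FxA
import Pool.Agent.Strip051.G.IE1.Fact

/-! # Functions at the floor near `x = 1` (generated) -/

set_option linter.all false

namespace Pool.Agent.Strip051.G.IE1.Tab

open Pool.Agent.Strip051.PB Pool.Agent.Strip051.PB.Fx Pool.Agent.StripNear Pool.Agent.Strip051.LC
open Pool.Agent.Strip051.PB.Dg (Fn5)
open Pool.Agent.Strip051.LC.Floor (G)


noncomputable def fxst : Fn5 := ⟨_, _, fun h1 h2 h3 h4 h5 => (enc_sub (enc_sub (enc_pnc _ 1) (gsg.enc h1)) h2)⟩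
noncomputable def fbF1 : Fn5 := ⟨_, _, fun h1 h2 h3 h4 h5 => (enc_sub (enc_half (enc_sub (enc_subn 1 (enc_mul h2 (enc_norm (enc_add (enc_pnc _ 1) h1)))) h4)) (enc_mul (enc_norm (enc_sub (enc_pnc _ 1) h5)) (enc_norm (enc_add (enc_mul h2 (ehg.enc h5)) (enc_mul (ehg.enc h5) (enc_abs h3))))))⟩
noncomputable def flF : Fn5 := ⟨_, _, fun h1 h2 h3 h4 h5 => (enc_sub h2 (enc_nat 2 (enc_mul (ehg.enc h5) (enc_norm (enc_add (enc_mul (enc_norm (enc_sub (enc_pnc _ 1) h5)) (enc_norm (enc_mul (enc_pos h3) (enc_inv h5)))) (enc_pos (enc_neg h3)))))))⟩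
noncomputable def fhbF1_6 : Fn5 := ⟨_, _, fun h1 h2 h3 h4 h5 => (enc_sub (enc_pnc _ 1) h5)⟩
noncomputable def fhbF1_11 : Fn5 := ⟨_, _, fun h1 h2 h3 h4 h5 => (enc_sub (enc_subr 1 2 h2) (enc_scale 3 4 (fhbF1_6.enc h1 h2 h3 h4 h5)))⟩
noncomputable def fhbF1 : Fn5 := ⟨_, _, fun h1 h2 h3 h4 h5 => (enc_sub (enc_add (fbF1.enc h1 h2 h3 h4 h5) (enc_scale 11 20 (enc_mul (enc_norm (fhbF1_6.enc h1 h2 h3 h4 h5)) (enc_norm (enc_min (flF.enc h1 h2 h3 h4 h5) (enc_pnc _ 0)))))) (enc_max (enc_mul (alfg.enc h1 h5) (enc_norm (fhbF1_11.enc h1 h2 h3 h4 h5))) (enc_mul (alfg.enc (enc_norm (enc_sub h1 (enc_scale 7 20 (fhbF1_6.enc h1 h2 h3 h4 h5)))) h5) (enc_norm (fhbF1_11.enc h1 h2 h3 h4 h5)))))⟩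
noncomputable def fuF2 : Fn5 := ⟨_, _, fun h1 h2 h3 h4 h5 => (enc_sub (enc_half (enc_sub (enc_subn 1 (enc_mul h2 (enc_norm (enc_add (enc_pnc _ 1) h1)))) h4)) (enc_mul (enc_norm (enc_sub (enc_pnc _ 1) h5)) (enc_norm (enc_add (enc_mul h2 (ehg.enc h5)) (enc_mul (ehg.enc h5) (enc_norm (enc_mul h3 (enc_norm (enc_subn 1 (enc_mul (enc_norm (enc_subn 1 h1)) (enc_inv h5)))))))))))⟩
noncomputable def fhF2_6 : Fn5 := ⟨_, _, fun h1 h2 h3 h4 h5 => (enc_sub (enc_pnc _ 1) h5)⟩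
noncomputable def fhF2_11 : Fn5 := ⟨_, _, fun h1 h2 h3 h4 h5 => (enc_sub (enc_subr 1 2 h2) (enc_scale 3 4 (fhF2_6.enc h1 h2 h3 h4 h5)))⟩
noncomputable def fhF2 : Fn5 := ⟨_, _, fun h1 h2 h3 h4 h5 => (enc_sub (enc_add (fuF2.enc h1 h2 h3 h4 h5) (enc_scale 11 20 (enc_mul (enc_norm (fhF2_6.enc h1 h2 h3 h4 h5)) (enc_norm (enc_min (flF.enc h1 h2 h3 h4 h5) (enc_pnc _ 0)))))) (enc_max (enc_mul (alfg.enc h1 h5) (enc_norm (fhF2_11.enc h1 h2 h3 h4 h5))) (enc_mul (alfg.enc (enc_norm (enc_sub h1 (enc_scale 7 20 (fhF2_6.enc h1 h2 h3 h4 h5)))) h5) (enc_norm (fhF2_11.enc h1 h2 h3 h4 h5)))))⟩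
noncomputable def fuF3_10 : Fn5 := ⟨_, _, fun h1 h2 h3 h4 h5 => (enc_subn 1 h1)⟩
noncomputable def fuF3 : Fn5 := ⟨_, _, fun h1 h2 h3 h4 h5 => (enc_sub (enc_half (enc_sub (enc_subn 1 (enc_mul h2 (enc_norm (enc_add (enc_pnc _ 1) h1)))) h4)) (enc_mul (enc_norm (enc_sub (enc_pnc _ 1) h5)) (enc_norm (enc_add (enc_mul h2 (ehg.enc h5)) (enc_mul (ehg.enc h5) (enc_norm (enc_mul h3 (enc_norm (enc_mul (enc_norm (enc_sub h5 (fuF3_10.enc h1 h2 h3 h4 h5))) (enc_norm (enc_mul (enc_norm (fuF3_10.enc h1 h2 h3 h4 h5)) (enc_inv (enc_mul h5 (enc_norm (enc_sub (enc_pnc _ 1) (fuF3_10.enc h1 h2 h3 h4 h5))))))))))))))))⟩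
noncomputable def fhF3_6 : Fn5 := ⟨_, _, fun h1 h2 h3 h4 h5 => (enc_sub (enc_pnc _ 1) h5)⟩
noncomputable def fhF3_11 : Fn5 := ⟨_, _, fun h1 h2 h3 h4 h5 => (enc_sub (enc_subr 1 2 h2) (enc_scale 3 4 (fhF3_6.enc h1 h2 h3 h4 h5)))⟩
noncomputable def fhF3 : Fn5 := ⟨_, _, fun h1 h2 h3 h4 h5 => (enc_sub (enc_add (fuF3.enc h1 h2 h3 h4 h5) (enc_scale 11 20 (enc_mul (enc_norm (fhF3_6.enc h1 h2 h3 h4 h5)) (enc_norm (enc_min (flF.enc h1 h2 h3 h4 h5) (enc_pnc _ 0)))))) (enc_max (enc_mul (alfg.enc h1 h5) (enc_norm (fhF3_11.enc h1 h2 h3 h4 h5))) (enc_mul (alfg.enc (enc_norm (enc_sub h1 (enc_scale 7 20 (fhF3_6.enc h1 h2 h3 h4 h5)))) h5) (enc_norm (fhF3_11.enc h1 h2 h3 h4 h5)))))⟩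
noncomputable def frF2_6 : Fn5 := ⟨_, _, fun h1 h2 h3 h4 h5 => (enc_sub (enc_pnc _ 1) h5)⟩
noncomputable def frF2 : Fn5 := ⟨_, _, fun h1 h2 h3 h4 h5 => (enc_subr 1 2 (enc_sub (enc_add (fuF2.enc h1 h2 h3 h4 h5) (enc_scale 11 20 (enc_mul (enc_norm (frF2_6.enc h1 h2 h3 h4 h5)) (enc_norm (enc_min (flF.enc h1 h2 h3 h4 h5) (enc_pnc _ 0)))))) (enc_mul (befg.enc (enc_norm (enc_add h1 (enc_scale 7 20 (frF2_6.enc h1 h2 h3 h4 h5)))) h5) (enc_norm (enc_sub (enc_subn 1 h2) (enc_scale 3 2 (frF2_6.enc h1 h2 h3 h4 h5)))))))⟩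
noncomputable def fxd0 : Fn5 := ⟨_, _, fun h1 h2 h3 h4 h5 => (enc_sub (enc_add (enc_pnc _ 1) (enc_scale 3 2 (enc_sub (enc_pnc _ 1) h5))) h2)⟩
noncomputable def fxumf_6 : Fn5 := ⟨_, _, fun h1 h2 h3 h4 h5 => (enc_sub (enc_pnc _ 1) h5)⟩
noncomputable def fxumf : Fn5 := ⟨_, _, fun h1 h2 h3 h4 h5 => (enc_sub (enc_sub (enc_pnc _ 1) (enc_sq (enc_norm (enc_sub (enc_rat _ 1 2) (enc_scale 7 4 (fxumf_6.enc h1 h2 h3 h4 h5)))))) (enc_scale 3 4 (enc_sq (enc_norm (enc_add h1 (enc_scale 7 20 (fxumf_6.enc h1 h2 h3 h4 h5)))))))⟩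
noncomputable def frF3_6 : Fn5 := ⟨_, _, fun h1 h2 h3 h4 h5 => (enc_sub (enc_pnc _ 1) h5)⟩
noncomputable def frF3 : Fn5 := ⟨_, _, fun h1 h2 h3 h4 h5 => (enc_subr 1 2 (enc_sub (enc_add (fuF3.enc h1 h2 h3 h4 h5) (enc_scale 11 20 (enc_mul (enc_norm (frF3_6.enc h1 h2 h3 h4 h5)) (enc_norm (enc_min (flF.enc h1 h2 h3 h4 h5) (enc_pnc _ 0)))))) (enc_mul (befg.enc (enc_norm (enc_add h1 (enc_scale 7 20 (frF3_6.enc h1 h2 h3 h4 h5)))) h5) (enc_norm (enc_sub (enc_subn 1 h2) (enc_scale 3 2 (frF3_6.enc h1 h2 h3 h4 h5)))))))⟩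
noncomputable def fxq3 : Fn5 := ⟨_, _, fun h1 h2 h3 h4 h5 => (enc_subn 3 (enc_add (enc_sq h2) (enc_scale 3 4 (enc_sq h1))))⟩
noncomputable def fvF2 : Fn5 := ⟨_, _, fun h1 h2 h3 h4 h5 => (enc_add h2 (enc_nat 2 (enc_mul (enc_norm (enc_sub (enc_pnc _ 1) h5)) (enc_norm (enc_mul (ehg.enc h5) (enc_norm (enc_add (enc_mul (enc_pos h3) (enc_inv (enc_subn 1 h1))) (enc_mul (enc_pos (enc_neg h3)) (enc_inv h5)))))))))⟩
noncomputable def fnF2 : Fn5 := ⟨_, _, fun h1 h2 h3 h4 h5 => (enc_sub (enc_subr 1 2 (enc_sub (enc_mul (befg.enc h1 h5) h2) (fuF2.enc h1 h2 h3 h4 h5))) (enc_scale 11 20 (enc_mul (enc_norm (enc_sub (enc_pnc _ 1) h5)) (enc_pos (fvF2.enc h1 h2 h3 h4 h5)))))⟩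
noncomputable def fvFb : Fn5 := ⟨_, _, fun h1 h2 h3 h4 h5 => (enc_add h2 (enc_nat 2 (enc_mul (ehg.enc h5) (enc_norm (enc_add (enc_pos h3) (enc_mul (enc_norm (enc_sub (enc_pnc _ 1) h5)) (enc_norm (enc_mul (enc_pos (enc_neg h3)) (enc_inv h5)))))))))⟩
noncomputable def fnbF2 : Fn5 := ⟨_, _, fun h1 h2 h3 h4 h5 => (enc_sub (enc_subr 1 2 (enc_sub (enc_mul (befg.enc h1 h5) h2) (fuF2.enc h1 h2 h3 h4 h5))) (enc_scale 11 20 (enc_mul (enc_norm (enc_sub (enc_pnc _ 1) h5)) (enc_pos (fvFb.enc h1 h2 h3 h4 h5)))))⟩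
noncomputable def fvF3 : Fn5 := ⟨_, _, fun h1 h2 h3 h4 h5 => (enc_add h2 (enc_nat 2 (enc_mul (enc_norm (enc_sub (enc_pnc _ 1) h5)) (enc_norm (enc_mul (ehg.enc h5) (enc_norm (enc_add (enc_mul (enc_pos h3) (enc_inv (enc_sub (enc_pnc _ 1) (enc_subn 1 h1)))) (enc_mul (enc_pos (enc_neg h3)) (enc_inv h5)))))))))⟩
noncomputable def fnF3 : Fn5 := ⟨_, _, fun h1 h2 h3 h4 h5 => (enc_sub (enc_subr 1 2 (enc_sub (enc_mul (befg.enc h1 h5) h2) (fuF3.enc h1 h2 h3 h4 h5))) (enc_scale 11 20 (enc_mul (enc_norm (enc_sub (enc_pnc _ 1) h5)) (enc_pos (fvF3.enc h1 h2 h3 h4 h5)))))⟩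
noncomputable def fbN1 : Fn5 := ⟨_, _, fun h1 h2 h3 h4 h5 => (enc_sub (enc_sub (enc_half (enc_subn 1 (enc_mul h2 (enc_norm (enc_add (enc_pnc _ 1) h1))))) (enc_mul (enc_norm (enc_sub (enc_sub (enc_rat _ 1 2) (enc_mul (mug3.enc h5) (gsg.enc h5))) (enc_mul (mug3.enc h5) (enc_norm (enc_half (enc_sub h1 h5)))))) h4)) (enc_mul (enc_norm (enc_sub (enc_pnc _ 1) h5)) (enc_norm (enc_add (enc_mul h2 (enc_norm (enc_add (ehg.enc h5) (enc_mul (mug3.enc h5) (enc_norm (enc_mul (lamg.enc h5) (cpg.enc h5))))))) (enc_mul (ehg.enc h5) (enc_abs h3))))))⟩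
noncomputable def flN : Fn5 := ⟨_, _, fun h1 h2 h3 h4 h5 => (enc_sub (enc_add h2 (enc_mul (mug3.enc h5) h4)) (enc_nat 2 (enc_mul (ehg.enc h5) (enc_norm (enc_add (enc_mul (enc_norm (enc_sub (enc_pnc _ 1) h5)) (enc_norm (enc_mul (enc_pos h3) (enc_inv h5)))) (enc_pos (enc_neg h3)))))))⟩
noncomputable def fhbN1_6 : Fn5 := ⟨_, _, fun h1 h2 h3 h4 h5 => (enc_sub (enc_pnc _ 1) h5)⟩
noncomputable def fhbN1_11 : Fn5 := ⟨_, _, fun h1 h2 h3 h4 h5 => (enc_sub (enc_subr 1 2 h2) (enc_scale 3 4 (fhbN1_6.enc h1 h2 h3 h4 h5)))⟩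
noncomputable def fhbN1 : Fn5 := ⟨_, _, fun h1 h2 h3 h4 h5 => (enc_sub (enc_add (fbN1.enc h1 h2 h3 h4 h5) (enc_scale 11 20 (enc_mul (enc_norm (fhbN1_6.enc h1 h2 h3 h4 h5)) (enc_norm (enc_min (flN.enc h1 h2 h3 h4 h5) (enc_pnc _ 0)))))) (enc_max (enc_mul (alng.enc h1 h5) (enc_norm (fhbN1_11.enc h1 h2 h3 h4 h5))) (enc_mul (alng.enc (enc_norm (enc_sub h1 (enc_scale 7 20 (fhbN1_6.enc h1 h2 h3 h4 h5)))) h5) (enc_norm (fhbN1_11.enc h1 h2 h3 h4 h5)))))⟩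
noncomputable def fuN2 : Fn5 := ⟨_, _, fun h1 h2 h3 h4 h5 => (enc_sub (enc_sub (enc_half (enc_subn 1 (enc_mul h2 (enc_norm (enc_add (enc_pnc _ 1) h1))))) (enc_mul (enc_norm (enc_sub (enc_sub (enc_rat _ 1 2) (enc_mul (mug3.enc h5) (gsg.enc h5))) (enc_mul (mug3.enc h5) (enc_norm (enc_half (enc_sub h1 h5)))))) h4)) (enc_mul (enc_norm (enc_sub (enc_pnc _ 1) h5)) (enc_norm (enc_add (enc_mul h2 (enc_norm (enc_add (ehg.enc h5) (enc_mul (mug3.enc h5) (enc_norm (enc_mul (lamg.enc h5) (cpg.enc h5))))))) (enc_mul (ehg.enc h5) (enc_norm (enc_mul h3 (enc_norm (enc_subn 1 (enc_mul (enc_norm (enc_subn 1 h1)) (enc_inv h5)))))))))))⟩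
noncomputable def fhN2_6 : Fn5 := ⟨_, _, fun h1 h2 h3 h4 h5 => (enc_sub (enc_pnc _ 1) h5)⟩
noncomputable def fhN2_11 : Fn5 := ⟨_, _, fun h1 h2 h3 h4 h5 => (enc_sub (enc_subr 1 2 h2) (enc_scale 3 4 (fhN2_6.enc h1 h2 h3 h4 h5)))⟩
noncomputable def fhN2 : Fn5 := ⟨_, _, fun h1 h2 h3 h4 h5 => (enc_sub (enc_add (fuN2.enc h1 h2 h3 h4 h5) (enc_scale 11 20 (enc_mul (enc_norm (fhN2_6.enc h1 h2 h3 h4 h5)) (enc_norm (enc_min (flN.enc h1 h2 h3 h4 h5) (enc_pnc _ 0)))))) (enc_max (enc_mul (alng.enc h1 h5) (enc_norm (fhN2_11.enc h1 h2 h3 h4 h5))) (enc_mul (alng.enc (enc_norm (enc_sub h1 (enc_scale 7 20 (fhN2_6.enc h1 h2 h3 h4 h5)))) h5) (enc_norm (fhN2_11.enc h1 h2 h3 h4 h5)))))⟩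
noncomputable def fuN3_12 : Fn5 := ⟨_, _, fun h1 h2 h3 h4 h5 => (enc_subn 1 h1)⟩
noncomputable def fuN3 : Fn5 := ⟨_, _, fun h1 h2 h3 h4 h5 => (enc_sub (enc_sub (enc_half (enc_subn 1 (enc_mul h2 (enc_norm (enc_add (enc_pnc _ 1) h1))))) (enc_mul (enc_norm (enc_sub (enc_sub (enc_rat _ 1 2) (enc_mul (mug3.enc h5) (gsg.enc h5))) (enc_mul (mug3.enc h5) (enc_norm (enc_half (enc_sub h1 h5)))))) h4)) (enc_mul (enc_norm (enc_sub (enc_pnc _ 1) h5)) (enc_norm (enc_add (enc_mul h2 (enc_norm (enc_add (ehg.enc h5) (enc_mul (mug3.enc h5) (enc_norm (enc_mul (lamg.enc h5) (cpg.enc h5))))))) (enc_mul (ehg.enc h5) (enc_norm (enc_mul h3 (enc_norm (enc_mul (enc_norm (enc_sub h5 (fuN3_12.enc h1 h2 h3 h4 h5))) (enc_norm (enc_mul (enc_norm (fuN3_12.enc h1 h2 h3 h4 h5)) (enc_inv (enc_mul h5 (enc_norm (enc_sub (enc_pnc _ 1) (fuN3_12.enc h1 h2 h3 h4 h5))))))))))))))))⟩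
noncomputable def fhN3_6 : Fn5 := ⟨_, _, fun h1 h2 h3 h4 h5 => (enc_sub (enc_pnc _ 1) h5)⟩
noncomputable def fhN3_11 : Fn5 := ⟨_, _, fun h1 h2 h3 h4 h5 => (enc_sub (enc_subr 1 2 h2) (enc_scale 3 4 (fhN3_6.enc h1 h2 h3 h4 h5)))⟩
noncomputable def fhN3 : Fn5 := ⟨_, _, fun h1 h2 h3 h4 h5 => (enc_sub (enc_add (fuN3.enc h1 h2 h3 h4 h5) (enc_scale 11 20 (enc_mul (enc_norm (fhN3_6.enc h1 h2 h3 h4 h5)) (enc_norm (enc_min (flN.enc h1 h2 h3 h4 h5) (enc_pnc _ 0)))))) (enc_max (enc_mul (alng.enc h1 h5) (enc_norm (fhN3_11.enc h1 h2 h3 h4 h5))) (enc_mul (alng.enc (enc_norm (enc_sub h1 (enc_scale 7 20 (fhN3_6.enc h1 h2 h3 h4 h5)))) h5) (enc_norm (fhN3_11.enc h1 h2 h3 h4 h5)))))⟩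
noncomputable def frN2_6 : Fn5 := ⟨_, _, fun h1 h2 h3 h4 h5 => (enc_sub (enc_pnc _ 1) h5)⟩
noncomputable def frN2 : Fn5 := ⟨_, _, fun h1 h2 h3 h4 h5 => (enc_subr 1 2 (enc_sub (enc_add (fuN2.enc h1 h2 h3 h4 h5) (enc_scale 11 20 (enc_mul (enc_norm (frN2_6.enc h1 h2 h3 h4 h5)) (enc_norm (enc_min (flN.enc h1 h2 h3 h4 h5) (enc_pnc _ 0)))))) (enc_mul (beng.enc (enc_norm (enc_add h1 (enc_scale 7 20 (frN2_6.enc h1 h2 h3 h4 h5)))) h5) (enc_norm (enc_sub (enc_subn 1 h2) (enc_scale 3 2 (frN2_6.enc h1 h2 h3 h4 h5)))))))⟩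
noncomputable def frN3_6 : Fn5 := ⟨_, _, fun h1 h2 h3 h4 h5 => (enc_sub (enc_pnc _ 1) h5)⟩
noncomputable def frN3 : Fn5 := ⟨_, _, fun h1 h2 h3 h4 h5 => (enc_subr 1 2 (enc_sub (enc_add (fuN3.enc h1 h2 h3 h4 h5) (enc_scale 11 20 (enc_mul (enc_norm (frN3_6.enc h1 h2 h3 h4 h5)) (enc_norm (enc_min (flN.enc h1 h2 h3 h4 h5) (enc_pnc _ 0)))))) (enc_mul (beng.enc (enc_norm (enc_add h1 (enc_scale 7 20 (frN3_6.enc h1 h2 h3 h4 h5)))) h5) (enc_norm (enc_sub (enc_subn 1 h2) (enc_scale 3 2 (frN3_6.enc h1 h2 h3 h4 h5)))))))⟩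
noncomputable def fvN2 : Fn5 := ⟨_, _, fun h1 h2 h3 h4 h5 => (enc_add (enc_add h2 (enc_mul (mug3.enc h5) h4)) (enc_nat 2 (enc_mul (enc_norm (enc_sub (enc_pnc _ 1) h5)) (enc_norm (enc_mul (ehg.enc h5) (enc_norm (enc_add (enc_mul (enc_pos h3) (enc_inv (enc_subn 1 h1))) (enc_mul (enc_pos (enc_neg h3)) (enc_inv h5)))))))))⟩
noncomputable def fnN2 : Fn5 := ⟨_, _, fun h1 h2 h3 h4 h5 => (enc_sub (enc_subr 1 2 (enc_sub (enc_mul (beng.enc h1 h5) h2) (fuN2.enc h1 h2 h3 h4 h5))) (enc_scale 11 20 (enc_mul (enc_norm (enc_sub (enc_pnc _ 1) h5)) (enc_pos (fvN2.enc h1 h2 h3 h4 h5)))))⟩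
noncomputable def fvNb : Fn5 := ⟨_, _, fun h1 h2 h3 h4 h5 => (enc_add (enc_add h2 (enc_mul (mug3.enc h5) h4)) (enc_nat 2 (enc_mul (ehg.enc h5) (enc_norm (enc_add (enc_pos h3) (enc_mul (enc_norm (enc_sub (enc_pnc _ 1) h5)) (enc_norm (enc_mul (enc_pos (enc_neg h3)) (enc_inv h5)))))))))⟩
noncomputable def fnbN2 : Fn5 := ⟨_, _, fun h1 h2 h3 h4 h5 => (enc_sub (enc_subr 1 2 (enc_sub (enc_mul (beng.enc h1 h5) h2) (fuN2.enc h1 h2 h3 h4 h5))) (enc_scale 11 20 (enc_mul (enc_norm (enc_sub (enc_pnc _ 1) h5)) (enc_pos (fvNb.enc h1 h2 h3 h4 h5)))))⟩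
noncomputable def fvN3 : Fn5 := ⟨_, _, fun h1 h2 h3 h4 h5 => (enc_add (enc_add h2 (enc_mul (mug3.enc h5) h4)) (enc_nat 2 (enc_mul (enc_norm (enc_sub (enc_pnc _ 1) h5)) (enc_norm (enc_mul (ehg.enc h5) (enc_norm (enc_add (enc_mul (enc_pos h3) (enc_inv (enc_sub (enc_pnc _ 1) (enc_subn 1 h1)))) (enc_mul (enc_pos (enc_neg h3)) (enc_inv h5)))))))))⟩
noncomputable def fnN3 : Fn5 := ⟨_, _, fun h1 h2 h3 h4 h5 => (enc_sub (enc_subr 1 2 (enc_sub (enc_mul (beng.enc h1 h5) h2) (fuN3.enc h1 h2 h3 h4 h5))) (enc_scale 11 20 (enc_mul (enc_norm (enc_sub (enc_pnc _ 1) h5)) (enc_pos (fvN3.enc h1 h2 h3 h4 h5)))))⟩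
noncomputable def fuF0 : Fn5 := ⟨_, _, fun h1 h2 h3 h4 h5 => (enc_sub (enc_half (enc_sub (enc_subn 1 (enc_mul h2 (enc_norm (enc_add (enc_pnc _ 1) h1)))) h4)) (enc_mul (enc_norm (enc_sub (enc_pnc _ 1) h5)) (enc_norm (enc_add (enc_mul h2 (ehg.enc h5)) (enc_mul (ehg.enc h5) (enc_norm (enc_mul h3 (enc_norm (enc_subn 1 (enc_mul h1 (enc_inv h5)))))))))))⟩
noncomputable def fuF1 : Fn5 := ⟨_, _, fun h1 h2 h3 h4 h5 => (enc_sub (enc_half (enc_sub (enc_subn 1 (enc_mul h2 (enc_norm (enc_add (enc_pnc _ 1) h1)))) h4)) (enc_mul (enc_norm (enc_sub (enc_pnc _ 1) h5)) (enc_norm (enc_add (enc_mul h2 (ehg.enc h5)) (enc_mul (ehg.enc h5) (enc_norm (enc_mul h3 (enc_norm (enc_mul (enc_norm (enc_sub h5 h1)) (enc_norm (enc_mul h1 (enc_inv (enc_mul h5 (enc_norm (enc_sub (enc_pnc _ 1) h1)))))))))))))))⟩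
noncomputable def fuN0 : Fn5 := ⟨_, _, fun h1 h2 h3 h4 h5 => (enc_sub (enc_sub (enc_half (enc_subn 1 (enc_mul h2 (enc_norm (enc_add (enc_pnc _ 1) h1))))) (enc_mul (enc_norm (enc_sub (enc_sub (enc_rat _ 1 2) (enc_mul (mug3.enc h5) (gsg.enc h5))) (enc_mul (mug3.enc h5) (enc_norm (enc_half (enc_sub h1 h5)))))) h4)) (enc_mul (enc_norm (enc_sub (enc_pnc _ 1) h5)) (enc_norm (enc_add (enc_mul h2 (enc_norm (enc_add (ehg.enc h5) (enc_mul (mug3.enc h5) (enc_norm (enc_mul (lamg.enc h5) (cpg.enc h5))))))) (enc_mul (ehg.enc h5) (enc_norm (enc_mul h3 (enc_norm (enc_subn 1 (enc_mul h1 (enc_inv h5)))))))))))⟩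
noncomputable def fuN1 : Fn5 := ⟨_, _, fun h1 h2 h3 h4 h5 => (enc_sub (enc_sub (enc_half (enc_subn 1 (enc_mul h2 (enc_norm (enc_add (enc_pnc _ 1) h1))))) (enc_mul (enc_norm (enc_sub (enc_sub (enc_rat _ 1 2) (enc_mul (mug3.enc h5) (gsg.enc h5))) (enc_mul (mug3.enc h5) (enc_norm (enc_half (enc_sub h1 h5)))))) h4)) (enc_mul (enc_norm (enc_sub (enc_pnc _ 1) h5)) (enc_norm (enc_add (enc_mul h2 (enc_norm (enc_add (ehg.enc h5) (enc_mul (mug3.enc h5) (enc_norm (enc_mul (lamg.enc h5) (cpg.enc h5))))))) (enc_mul (ehg.enc h5) (enc_norm (enc_mul h3 (enc_norm (enc_mul (enc_norm (enc_sub h5 h1)) (enc_norm (enc_mul h1 (enc_inv (enc_mul h5 (enc_norm (enc_sub (enc_pnc _ 1) h1)))))))))))))))⟩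
noncomputable def xsg : Fn2 := ⟨_, _, fun h1 h2 => (enc_norm (enc_sub (enc_pnc _ 1) h1))⟩
noncomputable def xdg : Fn2 := ⟨_, _, fun h1 h2 => (enc_norm (enc_add (enc_pnc _ 1) (enc_scale 3 2 (enc_sub (enc_pnc _ 1) h2))))⟩
noncomputable def lqg_3 : Fn2 := ⟨_, _, fun h1 h2 => (enc_sub (enc_pnc _ 1) h2)⟩
noncomputable def lqg_7 : Fn2 := ⟨_, _, fun h1 h2 => (enc_sqrt (enc_sub (enc_pnc _ 1) (enc_sq h1)))⟩
noncomputable def lqg_10 : Fn2 := ⟨_, _, fun h1 h2 => (enc_sub (enc_half (lqg_7.enc h1 h2)) (enc_mul (hhg.enc h2) h1))⟩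
noncomputable def lqg_22 : Fn2 := ⟨_, _, fun h1 h2 => (enc_mul (hhg.enc h2) (enc_norm (lqg_3.enc h1 h2)))⟩
noncomputable def lqg_31 : Fn2 := ⟨_, _, fun h1 h2 => (enc_mul (enc_norm (enc_sub (enc_add (lqg_10.enc h1 h2) (enc_rat _ 1 2)) (enc_scale 167 25 (lqg_22.enc h1 h2)))) (enc_sq (enc_inv (enc_sub (enc_rat _ 1 2) (enc_scale 167 50 (lqg_22.enc h1 h2))))))⟩
noncomputable def lqg_39 : Fn2 := ⟨_, _, fun h1 h2 => (enc_scale 160000 29241 (enc_add (lqg_10.enc h1 h2) (enc_rat _ 71 200)))⟩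
noncomputable def lqg_48 : Fn2 := ⟨_, _, fun h1 h2 => (enc_scale 10000 1681 (enc_add (lqg_10.enc h1 h2) (enc_rat _ 8 25)))⟩
noncomputable def lqg_57 : Fn2 := ⟨_, _, fun h1 h2 => (enc_scale 2500 361 (enc_add (lqg_10.enc h1 h2) (enc_rat _ 13 50)))⟩
noncomputable def lqg_66 : Fn2 := ⟨_, _, fun h1 h2 => (enc_scale 625 64 (enc_add (lqg_10.enc h1 h2) (enc_rat _ 7 50)))⟩
noncomputable def lqg_74 : Fn2 := ⟨_, _, fun h1 h2 => (enc_nat 16 (lqg_10.enc h1 h2))⟩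
noncomputable def lqg_83 : Fn2 := ⟨_, _, fun h1 h2 => (enc_scale 2500 81 (enc_subr 7 50 (lqg_10.enc h1 h2)))⟩
noncomputable def lqg_93 : Fn2 := ⟨_, _, fun h1 h2 => (enc_nat 100 (enc_subr 3 10 (lqg_10.enc h1 h2)))⟩
noncomputable def lqg : Fn2 := ⟨_, _, fun h1 h2 => (enc_norm (enc_mul (lamg.enc h2) (enc_norm (enc_sub (enc_pnc _ 1) (enc_mul (enc_norm (enc_add (hhg.enc h2) (enc_half (enc_mul h1 (enc_inv (enc_add (enc_pnc _ 1) (lqg_7.enc h1 h2))))))) (enc_norm (enc_sub (enc_add (enc_add (enc_add (enc_add (enc_add (enc_add (enc_add (enc_mul (enc_norm (enc_sub (enc_rat _ 85937 100000) (enc_scale 10723 500 (lqg_3.enc h1 h2)))) (enc_norm (lqg_31.enc h1 h2))) (enc_mul (enc_norm (enc_sub (enc_rat _ 539 4000) (enc_scale 44693 1000 (lqg_3.enc h1 h2)))) (enc_norm (lqg_39.enc h1 h2)))) (enc_mul (enc_norm (enc_subr 28781 50000 (enc_scale 25327 250 (lqg_3.enc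 h1 h2)))) (enc_norm (lqg_48.enc h1 h2)))) (enc_mul (enc_norm (enc_sub (enc_rat _ 31751 50000) (enc_scale 1524 25 (lqg_3.enc h1 h2)))) (enc_norm (lqg_57.enc h1 h2)))) (enc_mul (enc_norm (enc_subr 2328 3125 (enc_scale 37939 1000 (lqg_3.enc h1 h2)))) (enc_norm (lqg_66.enc h1 h2)))) (enc_mul (enc_norm (enc_sub (enc_rat _ 3837 50000) (enc_scale 18073 1000 (lqg_3.enc h1 h2)))) (enc_norm (lqg_74.enc h1 h2)))) (enc_mul (enc_norm (enc_sub (enc_rat _ 1533 25000) (enc_scale 2297 1000 (lqg_3.enc h1 h2)))) (enc_norm (lqg_83.enc h1 h2)))) (enc_mul (enc_norm (enc_subr 1223 50000 (enc_scale 316 125 (lqg_3.enc h1 h2)))) (enc_norm (lqg_93.enc h1 h2)))) (enc_add (enc_add (enc_add (enc_add (enc_add (enc_add (enc_add (enc_mul (enc_norm (enc_sub (enc_rat _ 2661 12500) (enc_scale 8863 1000 (lqg_3.enc h1 h2)))) (enc_norm (lqg_31.enc h1 h2))) (enc_mul (enc_norm (enc_sub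 (enc_rat _ 14331 50000) (enc_scale 38949 1000 (lqg_3.enc h1 h2)))) (enc_norm (lqg_39.enc h1 h2)))) (enc_mul (enc_norm (enc_subr 13849 25000 (enc_scale 1359 20 (lqg_3.enc h1 h2)))) (enc_norm (lqg_48.enc h1 h2)))) (enc_mul (enc_norm (enc_sub (enc_rat _ 5519 50000) (enc_scale 25993 1000 (lqg_3.enc h1 h2)))) (enc_norm (lqg_57.enc h1 h2)))) (enc_mul (enc_norm (enc_subr 26321 100000 (enc_scale 6899 1000 (lqg_3.enc h1 h2)))) (enc_norm (lqg_66.enc h1 h2)))) (enc_mul (enc_norm (enc_sub (enc_rat _ 12697 100000) (enc_scale 10061 1000 (lqg_3.enc h1 h2)))) (enc_norm (lqg_74.enc h1 h2)))) (enc_mul (enc_norm (enc_add (enc_rat _ 1773 100000) (enc_scale 1627 1000 (lqg_3.enc h1 h2)))) (enc_norm (lqg_83.enc h1 h2)))) (enc_mul (enc_norm (enc_subr 61 4000 (enc_scale 212 125 (lqg_3.enc h1 h2)))) (enc_norm (lqg_93.enc h1 h2)))))))))))⟩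
noncomputable def nqF_3 : Fn2 := ⟨_, _, fun h1 h2 => (enc_sub (enc_pnc _ 1) h2)⟩
noncomputable def nqF : Fn2 := ⟨_, _, fun h1 h2 => (enc_norm (enc_sub (enc_add (enc_add (enc_sub (befg.enc (yag.enc h1) h2) (enc_half (enc_add (enc_pnc _ 1) (yag.enc h1)))) (enc_mul (enc_norm (nqF_3.enc h1 h2)) (ehg.enc h2))) (enc_half (lqg.enc h1 h2))) (enc_scale 11 20 (enc_mul (enc_norm (nqF_3.enc h1 h2)) (enc_pos (enc_pnc _ 1))))))⟩
noncomputable def nqN_3 : Fn2 := ⟨_, _, fun h1 h2 => (enc_sub (enc_pnc _ 1) h2)⟩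
noncomputable def nqN : Fn2 := ⟨_, _, fun h1 h2 => (enc_norm (enc_sub (enc_add (enc_add (enc_sub (beng.enc (yag.enc h1) h2) (enc_half (enc_add (enc_pnc _ 1) (yag.enc h1)))) (enc_mul (enc_norm (nqN_3.enc h1 h2)) (enc_norm (enc_add (ehg.enc h2) (enc_mul (mug3.enc h2) (enc_norm (enc_mul (lamg.enc h2) (cpg.enc h2)))))))) (enc_mul (enc_norm (enc_sub (enc_sub (enc_rat _ 1 2) (enc_mul (mug3.enc h2) (gsg.enc h2))) (enc_mul (mug3.enc h2) (enc_norm (enc_half (enc_sub (yag.enc h1) h2)))))) (lqg.enc h1 h2))) (enc_scale 11 20 (enc_mul (enc_norm (nqN_3.enc h1 h2)) (enc_pos (enc_add (enc_pnc _ 1) (enc_mul (mug3.enc h2) (lqg.enc h1 h2))))))))⟩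

theorem lk_gs (x : ℝ) : gsg.v x = G x := by rw [gsg_v, c1n_G']
theorem lk_cp (x : ℝ) : cpg.v x = cpR x := by rw [cp_v, c1n_G']; rfl
theorem lk_eh (x : ℝ) : ehg.v x = ehR x := by rw [eh_v, c1n_G']; rfl
theorem lk_lam (x : ℝ) : lamg.v x = lamR x := by rw [lam_v, c1n_G']; rfl
theorem lk_mu (x : ℝ) : mug3.v x = mun 3 x := mu_v x
theorem fbF1_v (y X A L x : ℝ) : fbF1.v y X A L x = ubE x 0 y X A L := by
  unfold ubE
  simp only [fbF1, lk_gs, lk_cp, lk_eh, lk_lam, lk_mu]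
  push_cast
  ring
theorem fbN1_v (y X A L x : ℝ) : fbN1.v y X A L x = ubE x (mun 3 x) y X A L := by
  unfold ubE
  simp only [fbN1, lk_gs, lk_cp, lk_eh, lk_lam, lk_mu]
  push_cast
  ring
theorem fuF0_v (y X A L x : ℝ) : fuF0.v y X A L x = usE x 0 y X A L (y * x⁻¹ - 1) := by
  unfold usE
  simp only [fuF0, lk_gs, lk_cp, lk_eh, lk_lam, lk_mu]
  push_cast
  ring
theorem fuF1_v (y X A L x : ℝ) : fuF1.v y X A L x = usE x 0 y X A L ((x - y) * (y * (x * (1 - y))⁻¹)) := by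
  unfold usE
  simp only [fuF1, lk_gs, lk_cp, lk_eh, lk_lam, lk_mu]
  push_cast
  ring
theorem fuF2_v (y X A L x : ℝ) : fuF2.v y X A L x = usE x 0 y X A L ((y - 1) * x⁻¹ - 1) := by
  unfold usE
  simp only [fuF2, lk_gs, lk_cp, lk_eh, lk_lam, lk_mu]
  push_cast
  ring
theorem fuF3_v (y X A L x : ℝ) : fuF3.v y X A L x = usE x 0 y X A L ((x - (y - 1)) * ((y - 1) * (x * (1 - (y - 1)))⁻¹)) := by
  unfold usE
  simp only [fuF3, fuF3_10, lk_gs, lk_cp, lk_eh, lk_lam, lk_mu]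
  push_cast
  ring
theorem fuN0_v (y X A L x : ℝ) : fuN0.v y X A L x = usE x (mun 3 x) y X A L (y * x⁻¹ - 1) := by
  unfold usE
  simp only [fuN0, lk_gs, lk_cp, lk_eh, lk_lam, lk_mu]
  push_cast
  ring
theorem fuN1_v (y X A L x : ℝ) : fuN1.v y X A L x = usE x (mun 3 x) y X A L ((x - y) * (y * (x * (1 - y))⁻¹)) := by
  unfold usE
  simp only [fuN1, lk_gs, lk_cp, lk_eh, lk_lam, lk_mu]
  push_cast
  ring
theorem fuN2_v (y X A L x : ℝ) : fuN2.v y X A L x = usE x (mun 3 x) y X A L ((y - 1) * x⁻¹ - 1) := by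
  unfold usE
  simp only [fuN2, lk_gs, lk_cp, lk_eh, lk_lam, lk_mu]
  push_cast
  ring
theorem fuN3_v (y X A L x : ℝ) : fuN3.v y X A L x = usE x (mun 3 x) y X A L ((x - (y - 1)) * ((y - 1) * (x * (1 - (y - 1)))⁻¹)) := by
  unfold usE
  simp only [fuN3, fuN3_12, lk_gs, lk_cp, lk_eh, lk_lam, lk_mu]
  push_cast
  ring
theorem flF_v (y X A L x : ℝ) : flF.v y X A L x = glE x 0 X A L := by
  unfold glE
  simp only [flF, lk_gs, lk_cp, lk_eh, lk_lam, lk_mu]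
  push_cast
  ring
theorem flN_v (y X A L x : ℝ) : flN.v y X A L x = glE x (mun 3 x) X A L := by
  unfold glE
  simp only [flN, lk_gs, lk_cp, lk_eh, lk_lam, lk_mu]
  push_cast
  ring
theorem fvF2_v (y X A L x : ℝ) : fvF2.v y X A L x = guE x 0 X A L (y - 1) := by
  unfold guE
  simp only [fvF2, lk_gs, lk_cp, lk_eh, lk_lam, lk_mu]
  push_cast
  ring
theorem fvF3_v (y X A L x : ℝ) : fvF3.v y X A L x = guE x 0 X A L (1 - (y - 1)) := by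
  unfold guE
  simp only [fvF3, lk_gs, lk_cp, lk_eh, lk_lam, lk_mu]
  push_cast
  ring
theorem fvFb_v (y X A L x : ℝ) : fvFb.v y X A L x = gbE x 0 X A L := by
  unfold gbE
  simp only [fvFb, lk_gs, lk_cp, lk_eh, lk_lam, lk_mu]
  push_cast
  ring
theorem fvN2_v (y X A L x : ℝ) : fvN2.v y X A L x = guE x (mun 3 x) X A L (y - 1) := by
  unfold guE
  simp only [fvN2, lk_gs, lk_cp, lk_eh, lk_lam, lk_mu]
  push_cast
  ring
theorem fvN3_v (y X A L x : ℝ) : fvN3.v y X A L x = guE x (mun 3 x) X A L (1 - (y - 1)) := by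
  unfold guE
  simp only [fvN3, lk_gs, lk_cp, lk_eh, lk_lam, lk_mu]
  push_cast
  ring
theorem fvNb_v (y X A L x : ℝ) : fvNb.v y X A L x = gbE x (mun 3 x) X A L := by
  unfold gbE
  simp only [fvNb, lk_gs, lk_cp, lk_eh, lk_lam, lk_mu]
  push_cast
  ring
theorem fxst_v (y X A L x : ℝ) : fxst.v y X A L x = 1 - G y - X := by
  simp only [fxst, lk_gs]
  push_cast
  ring
theorem fxd0_v (y X A L x : ℝ) : fxd0.v y X A L x = 1 + 3 / 2 * (1 - x) - X := by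
  simp only [fxd0, lk_gs]
  push_cast
  ring
theorem fxq3_v (y X A L x : ℝ) : fxq3.v y X A L x = X ^ 2 + 3 / 4 * y ^ 2 - 3 := by
  simp only [fxq3, lk_gs]
  push_cast
  ring
theorem fxumf_v (y X A L x : ℝ) : fxumf.v y X A L x = 1 - (1 / 2 - 7 / 4 * (1 - x)) ^ 2 - 3 / 4 * (y + 7 / 20 * (1 - x)) ^ 2 := by
  simp only [fxumf, fxumf_6, lk_gs]
  push_cast
  ring
theorem us_F2 {y X A L x : ℝ} (h0 : 0 < x) (h1 : x < 1) (hv : y - 1 < x) : us2 x 0 2 y X A L = fuF2.v y X A L x := by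
  rw [us2_e h0.le h1.le, mnQ_two hv.le h0.ne', fuF2_v]
theorem hi_F2 {y X A L x a : ℝ} (h0 : 0 < x) (h1 : x < 1) (hv : y - 1 < x) (ha : a ≤ alfg.v y x)
    (ha' : alfg.v (y - 7 / 20 * (1 - x)) x ≤ a) (h : 0 < fhF2.v y X A L x) :
    0 ≤ us2 x 0 2 y X A L + 11 / 20 * (1 - x) * min (gl2 x 0 2 y X A L) 0 - a * (X - 1 / 2 - 3 / 4 * (1 - x)) := by
  have e : fhF2.v y X A L x = fuF2.v y X A L x + 11 / 20 * (1 - x) * min (flF.v y X A L x) 0 -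
      max (alfg.v y x * (X - 1 / 2 - 3 / 4 * (1 - x))) (alfg.v (y - 7 / 20 * (1 - x)) x * (X - 1 / 2 - 3 / 4 * (1 - x))) := by
    simp only [fhF2, fhF2_6, fhF2_11]
    push_cast
    ring
  rw [e] at h
  exact hi_real (by linarith) (us_F2 h0 h1 hv).ge (by rw [flF_v]; exact gl2_ge h0 h1) h ha ha'
theorem far_F2 {y X A L x b : ℝ} (h0 : 0 < x) (h1 : x < 1) (hv : y - 1 < x) (hX : 1 + 3 / 2 * (1 - x) ≤ X)
    (hb : b ≤ befg.v (y + 7 / 20 * (1 - x)) x) (h : 0 < frF2.v y X A L x) :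
    1 / 2 ≤ us2 x 0 2 y X A L + 11 / 20 * (1 - x) * min (gl2 x 0 2 y X A L) 0 - b * (X - 1 - 3 / 2 * (1 - x)) := by
  have e : frF2.v y X A L x = fuF2.v y X A L x + 11 / 20 * (1 - x) * min (flF.v y X A L x) 0 -
      befg.v (y + 7 / 20 * (1 - x)) x * (X - 1 - 3 / 2 * (1 - x)) - 1 / 2 := by
    simp only [frF2, frF2_6]
    push_cast
    ring
  rw [e] at h
  exact far_real (by linarith) (us_F2 h0 h1 hv).ge (by rw [flF_v]; exact gl2_ge h0 h1) (by linarith) h hb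
theorem near_F2 {y X A L x : ℝ} (h0 : 0 < x) (h1 : x < 1) (hv : y - 1 < x) (ht : 0 < y - 1) (h : 0 < fnF2.v y X A L x) :
    us2 x 0 2 y X A L + 1 / 2 + 11 / 20 * (1 - x) * max (gu2 x 0 2 y X A L) 0 ≤ befg.v y x * X := by
  have e : fnF2.v y X A L x = befg.v y x * X - fuF2.v y X A L x - 1 / 2 -
      11 / 20 * (1 - x) * max (fvF2.v y X A L x) 0 := by
    simp only [fnF2]
    push_cast
    ring
  rw [e, ← us_F2 h0 h1 hv] at h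
  exact near_real (by linarith) (by rw [fvF2_v]; exact gu2_le h0 h1 ht le_rfl) h
theorem us_F3 {y X A L x : ℝ} (h0 : 0 < x) (h1 : x < 1) (hv : y - 1 < x) : us2 x 0 3 y X A L = fuF3.v y X A L x := by
  rw [us2_e h0.le h1.le, mnQ_three hv, fuF3_v]
theorem hi_F3 {y X A L x a : ℝ} (h0 : 0 < x) (h1 : x < 1) (hv : y - 1 < x) (ha : a ≤ alfg.v y x)
    (ha' : alfg.v (y - 7 / 20 * (1 - x)) x ≤ a) (h : 0 < fhF3.v y X A L x) :
    0 ≤ us2 x 0 3 y X A L + 11 / 20 * (1 - x) * min (gl2 x 0 3 y X A L) 0 - a * (X - 1 / 2 - 3 / 4 * (1 - x)) := by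
  have e : fhF3.v y X A L x = fuF3.v y X A L x + 11 / 20 * (1 - x) * min (flF.v y X A L x) 0 -
      max (alfg.v y x * (X - 1 / 2 - 3 / 4 * (1 - x))) (alfg.v (y - 7 / 20 * (1 - x)) x * (X - 1 / 2 - 3 / 4 * (1 - x))) := by
    simp only [fhF3, fhF3_6, fhF3_11]
    push_cast
    ring
  rw [e] at h
  exact hi_real (by linarith) (us_F3 h0 h1 hv).ge (by rw [flF_v]; exact gl2_ge h0 h1) h ha ha'
theorem far_F3 {y X A L x b : ℝ} (h0 : 0 < x) (h1 : x < 1) (hv : y - 1 < x) (hX : 1 + 3 / 2 * (1 - x) ≤ X)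
    (hb : b ≤ befg.v (y + 7 / 20 * (1 - x)) x) (h : 0 < frF3.v y X A L x) :
    1 / 2 ≤ us2 x 0 3 y X A L + 11 / 20 * (1 - x) * min (gl2 x 0 3 y X A L) 0 - b * (X - 1 - 3 / 2 * (1 - x)) := by
  have e : frF3.v y X A L x = fuF3.v y X A L x + 11 / 20 * (1 - x) * min (flF.v y X A L x) 0 -
      befg.v (y + 7 / 20 * (1 - x)) x * (X - 1 - 3 / 2 * (1 - x)) - 1 / 2 := by
    simp only [frF3, frF3_6]
    push_cast
    ring
  rw [e] at h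
  exact far_real (by linarith) (us_F3 h0 h1 hv).ge (by rw [flF_v]; exact gl2_ge h0 h1) (by linarith) h hb
theorem near_F3 {y X A L x : ℝ} (h0 : 0 < x) (h1 : x < 1) (hv : y - 1 < x) (ht : 0 < 1 - (y - 1)) (h : 0 < fnF3.v y X A L x) :
    us2 x 0 3 y X A L + 1 / 2 + 11 / 20 * (1 - x) * max (gu2 x 0 3 y X A L) 0 ≤ befg.v y x * X := by
  have e : fnF3.v y X A L x = befg.v y x * X - fuF3.v y X A L x - 1 / 2 -
      11 / 20 * (1 - x) * max (fvF3.v y X A L x) 0 := by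
    simp only [fnF3]
    push_cast
    ring
  rw [e, ← us_F3 h0 h1 hv] at h
  exact near_real (by linarith) (by rw [fvF3_v]; exact gu2_le h0 h1 ht le_rfl) h
theorem ub_F {y X A L x : ℝ} (h0 : 0 < x) (h1 : x < 1) (hy : 0 ≤ y) (hy' : y ≤ 1) :
    fbF1.v y X A L x ≤ us2 x 0 1 y X A L := by
  rw [us2_e h0.le h1.le, fbF1_v]
  exact ub_le h0 h1 (mnQ_abs h0 h1 hy hy')
theorem hi_F1 {y X A L x a : ℝ} (h0 : 0 < x) (h1 : x < 1) (hy : 0 ≤ y) (hy' : y ≤ 1) (ha : a ≤ alfg.v y x)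
    (ha' : alfg.v (y - 7 / 20 * (1 - x)) x ≤ a) (h : 0 < fhbF1.v y X A L x) :
    0 ≤ us2 x 0 1 y X A L + 11 / 20 * (1 - x) * min (gl2 x 0 1 y X A L) 0 - a * (X - 1 / 2 - 3 / 4 * (1 - x)) := by
  have e : fhbF1.v y X A L x = fbF1.v y X A L x + 11 / 20 * (1 - x) * min (flF.v y X A L x) 0 -
      max (alfg.v y x * (X - 1 / 2 - 3 / 4 * (1 - x))) (alfg.v (y - 7 / 20 * (1 - x)) x * (X - 1 / 2 - 3 / 4 * (1 - x))) := by
    simp only [fhbF1, fhbF1_6, fhbF1_11]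
    push_cast
    ring
  rw [e] at h
  exact hi_real (by linarith) (ub_F h0 h1 hy hy') (by rw [flF_v]; exact gl2_ge h0 h1) h ha ha'
theorem near_Fb {y X A L x : ℝ} (h0 : 0 < x) (h1 : x < 1) (hv : y - 1 < x) (h : 0 < fnbF2.v y X A L x) :
    us2 x 0 2 y X A L + 1 / 2 + 11 / 20 * (1 - x) * max (gu2 x 0 2 y X A L) 0 ≤ befg.v y x * X := by
  have e : fnbF2.v y X A L x = befg.v y x * X - fuF2.v y X A L x - 1 / 2 -
      11 / 20 * (1 - x) * max (fvFb.v y X A L x) 0 := by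
    simp only [fnbF2]
    push_cast
    ring
  rw [e, ← us_F2 h0 h1 hv] at h
  exact near_real (by linarith) (by rw [fvFb_v]; exact gu2_le' h0 h1) h
theorem us_F0 {y X A L x : ℝ} (h0 : 0 < x) (h1 : x < 1) (hv : y < x) : us2 x 0 0 y X A L = fuF0.v y X A L x := by
  rw [us2_e h0.le h1.le, mnQ_zero hv.le h0.ne', fuF0_v]
theorem us_F1 {y X A L x : ℝ} (h0 : 0 < x) (h1 : x < 1) (hv : y < x) : us2 x 0 1 y X A L = fuF1.v y X A L x := by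
  rw [us2_e h0.le h1.le, mnQ_one hv, fuF1_v]
theorem gl_F {y X A L x : ℝ} {q : ℕ} (h0 : 0 < x) (h1 : x < 1) (h : 0 < flF.v y X A L x) :
    0 ≤ gl2 x 0 q y X A L := by
  rw [flF_v] at h
  exact h.le.trans (gl2_ge h0 h1)
theorem us_N2 {y X A L x : ℝ} (h0 : 0 < x) (h1 : x < 1) (hv : y - 1 < x) : us2 x (mun 3 x) 2 y X A L = fuN2.v y X A L x := by
  rw [us2_e h0.le h1.le, mnQ_two hv.le h0.ne', fuN2_v]
theorem hi_N2 {y X A L x a : ℝ} (h0 : 0 < x) (h1 : x < 1) (hv : y - 1 < x) (ha : a ≤ alng.v y x)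
    (ha' : alng.v (y - 7 / 20 * (1 - x)) x ≤ a) (h : 0 < fhN2.v y X A L x) :
    0 ≤ us2 x (mun 3 x) 2 y X A L + 11 / 20 * (1 - x) * min (gl2 x (mun 3 x) 2 y X A L) 0 - a * (X - 1 / 2 - 3 / 4 * (1 - x)) := by
  have e : fhN2.v y X A L x = fuN2.v y X A L x + 11 / 20 * (1 - x) * min (flN.v y X A L x) 0 -
      max (alng.v y x * (X - 1 / 2 - 3 / 4 * (1 - x))) (alng.v (y - 7 / 20 * (1 - x)) x * (X - 1 / 2 - 3 / 4 * (1 - x))) := by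
    simp only [fhN2, fhN2_6, fhN2_11]
    push_cast
    ring
  rw [e] at h
  exact hi_real (by linarith) (us_N2 h0 h1 hv).ge (by rw [flN_v]; exact gl2_ge h0 h1) h ha ha'
theorem far_N2 {y X A L x b : ℝ} (h0 : 0 < x) (h1 : x < 1) (hv : y - 1 < x) (hX : 1 + 3 / 2 * (1 - x) ≤ X)
    (hb : b ≤ beng.v (y + 7 / 20 * (1 - x)) x) (h : 0 < frN2.v y X A L x) :
    1 / 2 ≤ us2 x (mun 3 x) 2 y X A L + 11 / 20 * (1 - x) * min (gl2 x (mun 3 x) 2 y X A L) 0 - b * (X - 1 - 3 / 2 * (1 - x)) := by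
  have e : frN2.v y X A L x = fuN2.v y X A L x + 11 / 20 * (1 - x) * min (flN.v y X A L x) 0 -
      beng.v (y + 7 / 20 * (1 - x)) x * (X - 1 - 3 / 2 * (1 - x)) - 1 / 2 := by
    simp only [frN2, frN2_6]
    push_cast
    ring
  rw [e] at h
  exact far_real (by linarith) (us_N2 h0 h1 hv).ge (by rw [flN_v]; exact gl2_ge h0 h1) (by linarith) h hb
theorem near_N2 {y X A L x : ℝ} (h0 : 0 < x) (h1 : x < 1) (hv : y - 1 < x) (ht : 0 < y - 1) (h : 0 < fnN2.v y X A L x) :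
    us2 x (mun 3 x) 2 y X A L + 1 / 2 + 11 / 20 * (1 - x) * max (gu2 x (mun 3 x) 2 y X A L) 0 ≤ beng.v y x * X := by
  have e : fnN2.v y X A L x = beng.v y x * X - fuN2.v y X A L x - 1 / 2 -
      11 / 20 * (1 - x) * max (fvN2.v y X A L x) 0 := by
    simp only [fnN2]
    push_cast
    ring
  rw [e, ← us_N2 h0 h1 hv] at h
  exact near_real (by linarith) (by rw [fvN2_v]; exact gu2_le h0 h1 ht le_rfl) h
theorem us_N3 {y X A L x : ℝ} (h0 : 0 < x) (h1 : x < 1) (hv : y - 1 < x) : us2 x (mun 3 x) 3 y X A L = fuN3.v y X A L x := by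
  rw [us2_e h0.le h1.le, mnQ_three hv, fuN3_v]
theorem hi_N3 {y X A L x a : ℝ} (h0 : 0 < x) (h1 : x < 1) (hv : y - 1 < x) (ha : a ≤ alng.v y x)
    (ha' : alng.v (y - 7 / 20 * (1 - x)) x ≤ a) (h : 0 < fhN3.v y X A L x) :
    0 ≤ us2 x (mun 3 x) 3 y X A L + 11 / 20 * (1 - x) * min (gl2 x (mun 3 x) 3 y X A L) 0 - a * (X - 1 / 2 - 3 / 4 * (1 - x)) := by
  have e : fhN3.v y X A L x = fuN3.v y X A L x + 11 / 20 * (1 - x) * min (flN.v y X A L x) 0 -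
      max (alng.v y x * (X - 1 / 2 - 3 / 4 * (1 - x))) (alng.v (y - 7 / 20 * (1 - x)) x * (X - 1 / 2 - 3 / 4 * (1 - x))) := by
    simp only [fhN3, fhN3_6, fhN3_11]
    push_cast
    ring
  rw [e] at h
  exact hi_real (by linarith) (us_N3 h0 h1 hv).ge (by rw [flN_v]; exact gl2_ge h0 h1) h ha ha'
theorem far_N3 {y X A L x b : ℝ} (h0 : 0 < x) (h1 : x < 1) (hv : y - 1 < x) (hX : 1 + 3 / 2 * (1 - x) ≤ X)
    (hb : b ≤ beng.v (y + 7 / 20 * (1 - x)) x) (h : 0 < frN3.v y X A L x) :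
    1 / 2 ≤ us2 x (mun 3 x) 3 y X A L + 11 / 20 * (1 - x) * min (gl2 x (mun 3 x) 3 y X A L) 0 - b * (X - 1 - 3 / 2 * (1 - x)) := by
  have e : frN3.v y X A L x = fuN3.v y X A L x + 11 / 20 * (1 - x) * min (flN.v y X A L x) 0 -
      beng.v (y + 7 / 20 * (1 - x)) x * (X - 1 - 3 / 2 * (1 - x)) - 1 / 2 := by
    simp only [frN3, frN3_6]
    push_cast
    ring
  rw [e] at h
  exact far_real (by linarith) (us_N3 h0 h1 hv).ge (by rw [flN_v]; exact gl2_ge h0 h1) (by linarith) h hb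
theorem near_N3 {y X A L x : ℝ} (h0 : 0 < x) (h1 : x < 1) (hv : y - 1 < x) (ht : 0 < 1 - (y - 1)) (h : 0 < fnN3.v y X A L x) :
    us2 x (mun 3 x) 3 y X A L + 1 / 2 + 11 / 20 * (1 - x) * max (gu2 x (mun 3 x) 3 y X A L) 0 ≤ beng.v y x * X := by
  have e : fnN3.v y X A L x = beng.v y x * X - fuN3.v y X A L x - 1 / 2 -
      11 / 20 * (1 - x) * max (fvN3.v y X A L x) 0 := by
    simp only [fnN3]
    push_cast
    ring
  rw [e, ← us_N3 h0 h1 hv] at h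
  exact near_real (by linarith) (by rw [fvN3_v]; exact gu2_le h0 h1 ht le_rfl) h
theorem ub_N {y X A L x : ℝ} (h0 : 0 < x) (h1 : x < 1) (hy : 0 ≤ y) (hy' : y ≤ 1) :
    fbN1.v y X A L x ≤ us2 x (mun 3 x) 1 y X A L := by
  rw [us2_e h0.le h1.le, fbN1_v]
  exact ub_le h0 h1 (mnQ_abs h0 h1 hy hy')
theorem hi_N1 {y X A L x a : ℝ} (h0 : 0 < x) (h1 : x < 1) (hy : 0 ≤ y) (hy' : y ≤ 1) (ha : a ≤ alng.v y x)
    (ha' : alng.v (y - 7 / 20 * (1 - x)) x ≤ a) (h : 0 < fhbN1.v y X A L x) :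
    0 ≤ us2 x (mun 3 x) 1 y X A L + 11 / 20 * (1 - x) * min (gl2 x (mun 3 x) 1 y X A L) 0 - a * (X - 1 / 2 - 3 / 4 * (1 - x)) := by
  have e : fhbN1.v y X A L x = fbN1.v y X A L x + 11 / 20 * (1 - x) * min (flN.v y X A L x) 0 -
      max (alng.v y x * (X - 1 / 2 - 3 / 4 * (1 - x))) (alng.v (y - 7 / 20 * (1 - x)) x * (X - 1 / 2 - 3 / 4 * (1 - x))) := by
    simp only [fhbN1, fhbN1_6, fhbN1_11]
    push_cast
    ring
  rw [e] at h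
  exact hi_real (by linarith) (ub_N h0 h1 hy hy') (by rw [flN_v]; exact gl2_ge h0 h1) h ha ha'
theorem near_Nb {y X A L x : ℝ} (h0 : 0 < x) (h1 : x < 1) (hv : y - 1 < x) (h : 0 < fnbN2.v y X A L x) :
    us2 x (mun 3 x) 2 y X A L + 1 / 2 + 11 / 20 * (1 - x) * max (gu2 x (mun 3 x) 2 y X A L) 0 ≤ beng.v y x * X := by
  have e : fnbN2.v y X A L x = beng.v y x * X - fuN2.v y X A L x - 1 / 2 -
      11 / 20 * (1 - x) * max (fvNb.v y X A L x) 0 := by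
    simp only [fnbN2]
    push_cast
    ring
  rw [e, ← us_N2 h0 h1 hv] at h
  exact near_real (by linarith) (by rw [fvNb_v]; exact gu2_le' h0 h1) h
theorem us_N0 {y X A L x : ℝ} (h0 : 0 < x) (h1 : x < 1) (hv : y < x) : us2 x (mun 3 x) 0 y X A L = fuN0.v y X A L x := by
  rw [us2_e h0.le h1.le, mnQ_zero hv.le h0.ne', fuN0_v]
theorem us_N1 {y X A L x : ℝ} (h0 : 0 < x) (h1 : x < 1) (hv : y < x) : us2 x (mun 3 x) 1 y X A L = fuN1.v y X A L x := by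
  rw [us2_e h0.le h1.le, mnQ_one hv, fuN1_v]
theorem gl_N {y X A L x : ℝ} {q : ℕ} (h0 : 0 < x) (h1 : x < 1) (h : 0 < flN.v y X A L x) :
    0 ≤ gl2 x (mun 3 x) q y X A L := by
  rw [flN_v] at h
  exact h.le.trans (gl2_ge h0 h1)

end Pool.Agent.Strip051.G.IE1.Tab
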