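import Pool.Agent.Strip051.G.IE1.FxW2

/-! # Certificates in the windows at the floor near `x = 1` (generated) -/

set_option linter.all false

namespace Pool.Agent.Strip051.G.IE1.Tab.W

open Pool.Agent.Strip051.PB Pool.Agent.Strip051.PB.Fx Pool.Agent.Strip051.LC

theorem k_s0c1AF : CertF3 375809638 697932186 1073741824 0 0 26843546 [s0c1F] :=
  certF3 ⟨T.l 0,
    by decide +kernel⟩
theorem k_s0c1BF : CertF3 1073741824 0 0 1073741824 0 29826162 [s0c1F] :=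
  certF3 ⟨T.b (T.b (T.l 0) (T.l 0)) (T.l 0),
    by decide +kernel⟩
theorem k_s0qc1AF : CertF3 0 375809639 1073741824 0 0 26843546 [s0qc1F] :=
  certF3 ⟨T.l 0,
    by decide +kernel⟩
theorem k_s0WAF : CertF3 375809638 697932186 1073741824 0 0 26843546 [s0WF] :=
  certF3 ⟨T.l 0,
    by decide +kernel⟩
theorem k_s0WBF : CertF3 1073741824 0 0 1073741824 0 29826162 [s0WF] :=
  certF3 ⟨T.b (T.l 0) (T.l 0),
    by decide +kernel⟩
theorem k_s0qWAF : CertF3 0 375809639 1073741824 0 0 26843546 [s0qWF] :=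
  certF3 ⟨T.l 0,
    by decide +kernel⟩
theorem k_s0nAF : CertF3 375809638 697932186 1073741824 0 0 26843546 [s0nF] :=
  certF3 ⟨T.a (T.l 0) (T.l 0),
    by decide +kernel⟩
theorem k_s0nBF : CertF3 1073741824 0 0 1073741824 0 29826162 [s0nF] :=
  certF3 ⟨T.b (T.l 0) (T.l 0),
    by decide +kernel⟩
theorem k_s0pAF : CertF3 0 375809639 1073741824 0 0 26843546 [s0pF] :=
  certF3 ⟨T.a (T.l 0) (T.l 0),
    by decide +kernel⟩
theorem k_s05AF : CertF3 375809638 697932186 1073741824 0 0 26843546 [s05F] :=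
  certF3 ⟨T.a (T.a (T.l 0) (T.l 0)) (T.l 0),
    by decide +kernel⟩
theorem k_s05BF : CertF3 1073741824 0 0 1073741824 0 29826162 [s05F] :=
  certF3 ⟨T.b (T.l 0) (T.l 0),
    by decide +kernel⟩
theorem k_s0f5AF : CertF3 0 375809639 1073741824 0 0 26843546 [s0f5F] :=
  certF3 ⟨T.l 0,
    by decide +kernel⟩
theorem k_s1q0AF : CertF3 0 483183821 1073741824 0 0 26843546 [s1q0F] :=
  certF3 ⟨T.l 0,
    by decide +kernel⟩
theorem k_s1dkAF : CertF3 483183820 429496731 1073741824 0 0 26843546 [s1dkF] :=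
  certF3 ⟨T.a (T.l 0) (T.l 0),
    by decide +kernel⟩
theorem k_s1qpAF : CertF3 912680550 161061274 1073741824 0 0 26843546 [s1qpF] :=
  certF3 ⟨T.l 0,
    by decide +kernel⟩
theorem k_s1qbBF : CertF3 1073741824 0 987842478 85899346 0 29826162 [s1qbF] :=
  certF3 ⟨T.l 0,
    by decide +kernel⟩
theorem k_s1bBF : CertF3 1073741824 0 0 987842479 0 29826162 [s1bF] :=
  certF3 ⟨T.b (T.b (T.l 0) (T.b (T.l 0) (T.l 0))) (T.b (T.b (T.l 0) (T.l 0)) (T.b (T.b (T.l 0) (T.l 0)) (T.b (T.l 0) (T.b (T.l 0) (T.l 0))))),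
    by decide +kernel⟩
theorem k_s1wAF : CertF3 375809638 697932186 1073741824 0 0 26843546 [s1wF] :=
  certF3 ⟨T.a (T.a (T.l 0) (T.l 0)) (T.l 0),
    by decide +kernel⟩
theorem k_s1wBF : CertF3 1073741824 0 0 1073741824 0 29826162 [s1wF] :=
  certF3 ⟨T.b (T.l 0) (T.l 0),
    by decide +kernel⟩
theorem k_s1wqAF : CertF3 0 375809639 1073741824 0 0 26843546 [s1wqF] :=
  certF3 ⟨T.l 0,
    by decide +kernel⟩
theorem k_s1nc1AF : CertF3 0 1073741824 1073741824 0 0 26843546 [s1nc1F, sumF] :=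
  certF3 ⟨T.l 1,
    by decide +kernel⟩
theorem k_s1nc1BF : CertF3 1073741824 0 134217728 939524096 0 29826162 [s1nc1F] :=
  certF3 ⟨T.b (T.b (T.b (T.l 0) (T.l 0)) (T.b (T.l 0) (T.l 0))) (T.b (T.l 0) (T.b (T.l 0) (T.l 0))),
    by decide +kernel⟩
theorem k_s1nWAF : CertF3 0 1073741824 1073741824 0 0 26843546 [s1nWF, sumF] :=
  certF3 ⟨T.l 1,
    by decide +kernel⟩
theorem k_s1nWBF : CertF3 1073741824 0 0 1073741824 0 29826162 [s1nWF] :=
  certF3 ⟨T.l 0,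
    by decide +kernel⟩
theorem k_s1rAF : CertF3 0 1073741824 1073741824 0 0 26843546 [s1rF, sumfF] :=
  certF3 ⟨T.l 0,
    by decide +kernel⟩
theorem k_s1rBF : CertF3 1073741824 0 134217728 939524096 0 29826162 [s1rF] :=
  certF3 ⟨T.b (T.b (T.b (T.b (T.l 0) (T.l 0)) (T.b (T.l 0) (T.l 0))) (T.b (T.l 0) (T.l 0))) (T.b (T.l 0) (T.l 0)),
    by decide +kernel⟩
theorem k_s1naBF : CertF3 1073741824 0 0 134217728 0 29826162 [s1naF] :=
  certF3 ⟨T.l 0,
    by decide +kernel⟩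
theorem k_s1raBF : CertF3 1073741824 0 0 134217728 0 29826162 [s1raF] :=
  certF3 ⟨T.l 0,
    by decide +kernel⟩
theorem k_s1nbBF : CertF3 1073741824 0 0 134217728 0 29826162 [s1nbF] :=
  certF3 ⟨T.b (T.b (T.c (T.b (T.l 0) (T.l 0)) (T.l 0)) (T.b (T.l 0) (T.l 0))) (T.b (T.l 0) (T.l 0)),
    by decide +kernel⟩
theorem k_s1rbBF : CertF3 1073741824 0 0 134217728 0 29826162 [s1rbF] :=
  certF3 ⟨T.b (T.b (T.l 0) (T.l 0)) (T.l 0),
    by decide +kernel⟩

end Pool.Agent.Strip051.G.IE1.Tab.W
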