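import Pool.Agent.Strip051.PB.FxLib
import Pool.Agent.Strip051.LC.E1.FxY
import Pool.Agent.Strip051.G.IE1.FxW2
import Pool.Agent.Strip051.G.IE1.FxA

/-! # Rows in the windows at the floor near `x = 1` (generated) -/

set_option linter.all false

namespace Pool.Agent.Strip051.G.IE1.Tab.W

open Pool.Agent.Strip051.PB Pool.Agent.Strip051.PB.Fx Pool.Agent.StripNear Pool.Agent.Strip051.LC
open Pool.Agent.Strip051.LC.E1
open Pool.Agent.Strip051.LC.E0.G (om qw cc1 xi1 sg1 cc3 xi3 sg3 xiw)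
open Pool.Agent.Strip051.LC.E1.G hiding mu g1

noncomputable def s1hF_3 : Fn3 := ⟨_, _, fun h1 h2 h3 => (enc_mul h2 h3)⟩
noncomputable def s1hF_5 : Fn3 := ⟨_, _, fun h1 h2 h3 => (enc_sub (enc_pnc _ 1) (s1hF_3.enc h1 h2 h3))⟩
noncomputable def s1hF_7 : Fn3 := ⟨_, _, fun h1 h2 h3 => (eehg.enc (enc_norm (s1hF_3.enc h1 h2 h3)))⟩
noncomputable def s1hF : Fn3 := ⟨_, _, fun h1 h2 h3 => (enc_add (enc_sub (enc_sub (enc_sub (enc_add (exi1g.enc h1 h3) (enc_half (enc_mul (enc_norm (enc_add (enc_rat _ 1 2) (enc_mul h3 (exi1g.enc h1 h3)))) h1))) (enc_mul h2 (enc_norm (enc_mul (s1hF_7.enc h1 h2 h3) (enc_norm (enc_mul h3 (enc_norm (enc_sub (exi1g.enc h1 h3) (eC1ugk.enc h3 h2 h1))))))))) (enc_mul (enc_norm (enc_mul h2 (enc_norm (enc_mul (s1hF_7.enc h1 h2 h3) (enc_norm (enc_mul (enc_norm (enc_add (enc_rat _ 1 2) (enc_mul h3 (enc_norm (eC1ugk.enc h3 h2 h1))))) (enc_norm (enc_mul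 h3 h1)))))))) (enc_inv (s1hF_5.enc h1 h2 h3)))) (enc_half (enc_add (enc_add (enc_mul (eLAMg.enc (enc_norm (s1hF_3.enc h1 h2 h3))) (exi1g.enc h1 h3)) (eC1ugcA.enc h3 h2 h1)) (enc_mul h3 (enc_norm (eC1ugcB.enc h3 h2 h1)))))) (enc_mul (alfg.enc (enc_norm (enc_add (enc_pnc _ 1) (enc_mul h3 (enc_norm (enc_sub h1 (enc_scale 7 20 h2)))))) (enc_norm (s1hF_5.enc h1 h2 h3))) (enc_norm (enc_sub (enc_scale 3 4 h2) (exi1g.enc h1 h3)))))⟩
theorem s1hF_v {r lam w : ℝ} (s : Scl r lam w) : s1hF.v w lam r = E1.g1 .far r lam w (1 / 2) (xi1 w r)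
      (vA .far (lam * r) (1 / 2) r (C1u r lam w)) ((C1u r lam w).cA + r * (C1u r lam w).cB) +
      alfg.v (1 + r * (w - 7 / 20 * lam)) (1 - lam * r) * (3 / 4 * lam - xi1 w r) := by
  simp only [s1hF, s1hF_3, s1hF_5, s1hF_7, eehg_v, eLAMg_v, exi1g_v, eC1ugk_v s, eC1ugcA_v, eC1ugcB_v s, E1.g1, vA, nk]
  push_cast
  ring_nf
theorem k_s1hAF : CertF3 0 1073741824 1073741824 0 0 26843546 [s1hF] :=
  certF3 ⟨T.a (T.l 0) (T.l 0),
    by decide +kernel⟩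
theorem k_s1hBF : CertF3 1073741824 0 0 1073741824 0 29826162 [s1hF] :=
  certF3 ⟨T.b (T.b (T.l 0) (T.l 0)) (T.b (T.l 0) (T.l 0)),
    by decide +kernel⟩

end Pool.Agent.Strip051.G.IE1.Tab.W
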