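import Pool.Agent.Strip051.LC.E1.Wrap
import Pool.Agent.Strip051.LC.E1.VertO
import Pool.Agent.Strip051.LC.E1.RowsF
import Pool.Agent.Strip051.LC.E1.RowsN
import Pool.Agent.Strip051.G.IE1.Nod

/-! # Rests near the full period: the hypotheses for the table -/

namespace Pool.Agent.Strip051.G.IE1.Tab

open Pool.Agent.StripNear Pool.Agent.StripSquare Pool.Agent.Strip051 Pool.Agent.Strip051.Sweep
open Pool.Agent.Strip051.PB
open Pool.Agent.Strip051.LC
open Pool.Agent.Strip051.LC.E1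

variable {κ x : ℝ}


theorem sdF (hx : 39 / 40 ≤ x) (hx' : x < 1) : SideV (DD x) tKF tL pcF (1 - (1 - x)) := by
  rw [sub_sub_cancel]
  exact sideF hx hx'

theorem sdN (hx : 39 / 40 ≤ x) (hx' : x < 1) : SideV (DD x) tKN tL pcN (1 - (1 - x)) := by
  rw [sub_sub_cancel]
  exact sideN hx hx'

/-- The bounds of the slopes. -/
noncomputable def kk (V : Vx) (e : ℝ) : ℝ := kVx V (17 / 200 / e) (3 / 20 / e)

theorem hypF (hκ : κ * h0 = kenE x) (hx : 39 / 40 ≤ x) (hx' : x < 1) :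
    Hyp .far ⟨DD x, tKF, tKN, tL⟩ κ (1 - x) (kk .far (1 - x)) (G.LAM (1 - x) + -(3 / 20))
      (G.LAM (1 - x) + 1 / 40) where
  N := nodF hx hx'
  R := rowsF
  S := slo_V (nodF hx hx')
  hκ := by rw [sub_sub_cancel]; exact hκ
  hκ0 := kap0 hκ (by linarith) hx'

theorem hypN (hκ : κ * h0 = kenE x) (hx : 39 / 40 ≤ x) (hx' : x < 1) :
    Hyp .near ⟨DD x, tKF, tKN, tL⟩ κ (1 - x) (kk .near (1 - x)) (G.LAM (1 - x) + -(3 / 20))
      (G.LAM (1 - x) + 1 / 40) where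
  N := nodN hx hx'
  R := rowsN
  S := slo_V (nodN hx hx')
  hκ := by rw [sub_sub_cancel]; exact hκ
  hκ0 := kap0 hκ (by linarith) hx'

theorem vcF (hκ : κ * h0 = kenE x) (hx : 39 / 40 ≤ x) (hx' : x < 1) :
    VCube .far ⟨DD x, tKF, tKN, tL⟩ κ (1 - x) :=
  vcube rowsF (nodF hx hx') (by rw [sub_sub_cancel]; exact hκ)

theorem vcN (hκ : κ * h0 = kenE x) (hx : 39 / 40 ≤ x) (hx' : x < 1) :
    VCube .near ⟨DD x, tKF, tKN, tL⟩ κ (1 - x) :=
  vcube rowsN (nodN hx hx') (by rw [sub_sub_cancel]; exact hκ)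

end Pool.Agent.Strip051.G.IE1.Tab
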