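import Pool.Agent.Strip051.G.IE1.Hyp

/-! # Rests near the full period: the alternatives of the table -/

set_option linter.all false

namespace Pool.Agent.Strip051.G.IE1.Tab

open Pool.Agent.StripNear Pool.Agent.StripSquare Pool.Agent.Strip051 Pool.Agent.Strip051.Sweep
open Pool.Agent.Strip051.PB
open Pool.Agent.Strip051.LC
open Pool.Agent.Strip051.LC.E1

variable {κ x : ℝ} {a b c : ℕ} {j k : Fin 8}

lemma aFA1 (hκ : κ * h0 = kenE x) (hx : 39 / 40 ≤ x) (hx' : x < 1)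
    (hj : j = 0 ∨ j = 3 ∨ j = 4) (hk : k = 0 ∨ (k = 3 ∧ b = 2)) :
    AltVA (VFD κ) (DD x) tKF tL pcF t011 a b c j k 1 (-1) x := by
  have h := fA1 (j := j) (k := k) (a := a) (b := b) (c := c) (sdF hx hx')
    (hypF hκ hx hx') hj hk
  rwa [sub_sub_cancel] at h

lemma aFA2 (hκ : κ * h0 = kenE x) (hx : 39 / 40 ≤ x) (hx' : x < 1)
    (hk : k = 7 ∨ (k = 3 ∧ b = 1)) :
    AltVA (VFD κ) (DD x) tKF tL pcF w011 a b c j k 1 (-1) x := by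
  have h := fA2 (j := j) (k := k) (a := a) (b := b) (c := c) (sdF hx hx')
    (hypF hκ hx hx') hk
  rwa [sub_sub_cancel] at h

lemma aFA3 (hκ : κ * h0 = kenE x) (hx : 39 / 40 ≤ x) (hx' : x < 1)
    (hk : k = 0 ∨ (k = 3 ∧ b = 2)) :
    AltVA (VFD κ) (DD x) tKF tL pcF w011 a b c j k 1 1 x := by
  have h := fA3 (j := j) (k := k) (a := a) (b := b) (c := c) (sdF hx hx')
    (hypF hκ hx hx') hk
  rwa [sub_sub_cancel] at h

lemma aFB1 (hκ : κ * h0 = kenE x) (hx : 39 / 40 ≤ x) (hx' : x < 1)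
    (hj : j = 0 ∨ j = 3 ∨ j = 4) (hk : k = 0 ∨ (k = 3 ∧ c = 2)) :
    AltVB (VFD κ) (DD x) tKF tL pcF t011 a b c j k 1 1 x := by
  have h := fB1 (j := j) (k := k) (a := a) (b := b) (c := c) (sdF hx hx')
    (hypF hκ hx hx') hj hk
  rwa [sub_sub_cancel] at h

lemma aFB2 (hκ : κ * h0 = kenE x) (hx : 39 / 40 ≤ x) (hx' : x < 1)
    (hk : k = 0 ∨ (k = 3 ∧ c = 2)) :
    AltVB (VFD κ) (DD x) tKF tL pcF w011 a b c j k 1 (-1) x := by
  have h := fB2 (j := j) (k := k) (a := a) (b := b) (c := c) (sdF hx hx')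
    (hypF hκ hx hx') hk
  rwa [sub_sub_cancel] at h

lemma aFB3 (hκ : κ * h0 = kenE x) (hx : 39 / 40 ≤ x) (hx' : x < 1)
    (hk : k = 7 ∨ (k = 3 ∧ c = 1)) :
    AltVB (VFD κ) (DD x) tKF tL pcF w011 a b c j k 1 1 x := by
  have h := fB3 (j := j) (k := k) (a := a) (b := b) (c := c) (sdF hx hx')
    (hypF hκ hx hx') hk
  rwa [sub_sub_cancel] at h

lemma aFA1m (hκ : κ * h0 = kenE x) (hx : 39 / 40 ≤ x) (hx' : x < 1)
    (hk : k = 0 ∨ k = 3 ∨ k = 4) (hj : j = 0 ∨ (j = 3 ∧ a = 2)) :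
    AltVA (VFD κ) (DD x) tKF tL pcF t101 a b c j k 1 (-1) x := by
  have h := fA1m (j := j) (k := k) (a := a) (b := b) (c := c) (sdF hx hx')
    (hypF hκ hx hx') hk hj
  rwa [sub_sub_cancel] at h

lemma aFA2m (hκ : κ * h0 = kenE x) (hx : 39 / 40 ≤ x) (hx' : x < 1)
    (hj : j = 7 ∨ (j = 3 ∧ a = 1)) :
    AltVA (VFD κ) (DD x) tKF tL pcF w101 a b c j k 1 (-1) x := by
  have h := fA2m (j := j) (k := k) (a := a) (b := b) (c := c) (sdF hx hx')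
    (hypF hκ hx hx') hj
  rwa [sub_sub_cancel] at h

lemma aFA3m (hκ : κ * h0 = kenE x) (hx : 39 / 40 ≤ x) (hx' : x < 1)
    (hj : j = 0 ∨ (j = 3 ∧ a = 2)) :
    AltVA (VFD κ) (DD x) tKF tL pcF w101 a b c j k (-1) (-1) x := by
  have h := fA3m (j := j) (k := k) (a := a) (b := b) (c := c) (sdF hx hx')
    (hypF hκ hx hx') hj
  rwa [sub_sub_cancel] at h

lemma aFB1m (hκ : κ * h0 = kenE x) (hx : 39 / 40 ≤ x) (hx' : x < 1)
    (hj : j = 0 ∨ (j = 3 ∧ a = 2)) (hk : k = 0 ∨ (k = 3 ∧ c = 2)) :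
    AltVB (VFD κ) (DD x) tKF tL pcF s101 a b c j k 1 (-1) x := by
  have h := fB1m (j := j) (k := k) (a := a) (b := b) (c := c) (sdF hx hx')
    (hypF hκ hx hx') hj hk
  rwa [sub_sub_cancel] at h

lemma aFB2m (hκ : κ * h0 = kenE x) (hx : 39 / 40 ≤ x) (hx' : x < 1)
    (hj : j = 7 ∨ (j = 3 ∧ a = 1)) (hk : k = 0 ∨ (k = 3 ∧ c = 2)) :
    AltVB (VFD κ) (DD x) tKF tL pcF w101 a b c j k 1 1 x := by
  have h := fB2m (j := j) (k := k) (a := a) (b := b) (c := c) (sdF hx hx')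
    (hypF hκ hx hx') hj hk
  rwa [sub_sub_cancel] at h

lemma aFB3m (hκ : κ * h0 = kenE x) (hx : 39 / 40 ≤ x) (hx' : x < 1)
    (hj : j = 0 ∨ (j = 3 ∧ a = 2)) (hk : k = 7 ∨ (k = 3 ∧ c = 1)) :
    AltVB (VFD κ) (DD x) tKF tL pcF w101 a b c j k (-1) (-1) x := by
  have h := fB3m (j := j) (k := k) (a := a) (b := b) (c := c) (sdF hx hx')
    (hypF hκ hx hx') hj hk
  rwa [sub_sub_cancel] at h

lemma aFAv (hκ : κ * h0 = kenE x) (hx : 39 / 40 ≤ x) (hx' : x < 1)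
    (hj : j = 0 ∨ (j = 3 ∧ a = 2)) (hk : k = 0 ∨ (k = 3 ∧ b = 2)) :
    AltVA (VFD κ) (DD x) tKF tL pcF w112 a b c j k 1 (-1) x := by
  have h := fAv (j := j) (k := k) (a := a) (b := b) (c := c) (sdF hx hx')
    (hypF hκ hx hx') (vcF hκ hx hx') hj hk
  rwa [sub_sub_cancel] at h

lemma aFBvp (hκ : κ * h0 = kenE x) (hx : 39 / 40 ≤ x) (hx' : x < 1)
    (hj : j = 0 ∨ (j = 3 ∧ a = 2)) :
    AltVB (VFD κ) (DD x) tKF tL pcF t112 a b c j k 1 1 x := by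
  have h := fBvp (j := j) (k := k) (a := a) (b := b) (c := c) (sdF hx hx')
    (hypF hκ hx hx') (vcF hκ hx hx') hj
  rwa [sub_sub_cancel] at h

lemma aFBvm (hκ : κ * h0 = kenE x) (hx : 39 / 40 ≤ x) (hx' : x < 1)
    (hj : j = 0 ∨ (j = 3 ∧ a = 2)) :
    AltVB (VFD κ) (DD x) tKF tL pcF t112 a b c j k 1 (-1) x := by
  have h := fBvm (j := j) (k := k) (a := a) (b := b) (c := c) (sdF hx hx')
    (hypF hκ hx hx') (vcF hκ hx hx') hj
  rwa [sub_sub_cancel] at h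

lemma aNA1 (hκ : κ * h0 = kenE x) (hx : 39 / 40 ≤ x) (hx' : x < 1)
    (hj : j = 0 ∨ j = 3 ∨ j = 4) (hk : k = 0 ∨ (k = 3 ∧ b = 2)) :
    AltVA (VND 3 κ) (DD x) tKN tL pcN t011 a b c j k 1 (-1) x := by
  have h := nA1 (j := j) (k := k) (a := a) (b := b) (c := c) (sdN hx hx')
    (hypN hκ hx hx') hj hk
  rwa [sub_sub_cancel] at h

lemma aNA2 (hκ : κ * h0 = kenE x) (hx : 39 / 40 ≤ x) (hx' : x < 1)
    (hk : k = 7 ∨ (k = 3 ∧ b = 1)) :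
    AltVA (VND 3 κ) (DD x) tKN tL pcN w011 a b c j k 1 (-1) x := by
  have h := nA2 (j := j) (k := k) (a := a) (b := b) (c := c) (sdN hx hx')
    (hypN hκ hx hx') hk
  rwa [sub_sub_cancel] at h

lemma aNA3 (hκ : κ * h0 = kenE x) (hx : 39 / 40 ≤ x) (hx' : x < 1)
    (hk : k = 0 ∨ (k = 3 ∧ b = 2)) :
    AltVA (VND 3 κ) (DD x) tKN tL pcN w011 a b c j k 1 1 x := by
  have h := nA3 (j := j) (k := k) (a := a) (b := b) (c := c) (sdN hx hx')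
    (hypN hκ hx hx') hk
  rwa [sub_sub_cancel] at h

lemma aNB1 (hκ : κ * h0 = kenE x) (hx : 39 / 40 ≤ x) (hx' : x < 1)
    (hj : j = 0 ∨ j = 3 ∨ j = 4) (hk : k = 0 ∨ (k = 3 ∧ c = 2)) :
    AltVB (VND 3 κ) (DD x) tKN tL pcN t011 a b c j k 1 1 x := by
  have h := nB1 (j := j) (k := k) (a := a) (b := b) (c := c) (sdN hx hx')
    (hypN hκ hx hx') hj hk
  rwa [sub_sub_cancel] at h

lemma aNB2 (hκ : κ * h0 = kenE x) (hx : 39 / 40 ≤ x) (hx' : x < 1)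
    (hk : k = 0 ∨ (k = 3 ∧ c = 2)) :
    AltVB (VND 3 κ) (DD x) tKN tL pcN w011 a b c j k 1 (-1) x := by
  have h := nB2 (j := j) (k := k) (a := a) (b := b) (c := c) (sdN hx hx')
    (hypN hκ hx hx') hk
  rwa [sub_sub_cancel] at h

lemma aNB3 (hκ : κ * h0 = kenE x) (hx : 39 / 40 ≤ x) (hx' : x < 1)
    (hk : k = 7 ∨ (k = 3 ∧ c = 1)) :
    AltVB (VND 3 κ) (DD x) tKN tL pcN w011 a b c j k 1 1 x := by
  have h := nB3 (j := j) (k := k) (a := a) (b := b) (c := c) (sdN hx hx')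
    (hypN hκ hx hx') hk
  rwa [sub_sub_cancel] at h

lemma aNA1m (hκ : κ * h0 = kenE x) (hx : 39 / 40 ≤ x) (hx' : x < 1)
    (hk : k = 0 ∨ k = 3 ∨ k = 4) (hj : j = 0 ∨ (j = 3 ∧ a = 2)) :
    AltVA (VND 3 κ) (DD x) tKN tL pcN t101 a b c j k 1 (-1) x := by
  have h := nA1m (j := j) (k := k) (a := a) (b := b) (c := c) (sdN hx hx')
    (hypN hκ hx hx') hk hj
  rwa [sub_sub_cancel] at h

lemma aNA2m (hκ : κ * h0 = kenE x) (hx : 39 / 40 ≤ x) (hx' : x < 1)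
    (hj : j = 7 ∨ (j = 3 ∧ a = 1)) :
    AltVA (VND 3 κ) (DD x) tKN tL pcN w101 a b c j k 1 (-1) x := by
  have h := nA2m (j := j) (k := k) (a := a) (b := b) (c := c) (sdN hx hx')
    (hypN hκ hx hx') hj
  rwa [sub_sub_cancel] at h

lemma aNA3m (hκ : κ * h0 = kenE x) (hx : 39 / 40 ≤ x) (hx' : x < 1)
    (hj : j = 0 ∨ (j = 3 ∧ a = 2)) :
    AltVA (VND 3 κ) (DD x) tKN tL pcN w101 a b c j k (-1) (-1) x := by
  have h := nA3m (j := j) (k := k) (a := a) (b := b) (c := c) (sdN hx hx')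
    (hypN hκ hx hx') hj
  rwa [sub_sub_cancel] at h

lemma aNB1m (hκ : κ * h0 = kenE x) (hx : 39 / 40 ≤ x) (hx' : x < 1)
    (hj : j = 0 ∨ (j = 3 ∧ a = 2)) (hk : k = 0 ∨ (k = 3 ∧ c = 2)) :
    AltVB (VND 3 κ) (DD x) tKN tL pcN s101 a b c j k 1 (-1) x := by
  have h := nB1m (j := j) (k := k) (a := a) (b := b) (c := c) (sdN hx hx')
    (hypN hκ hx hx') hj hk
  rwa [sub_sub_cancel] at h

lemma aNB2m (hκ : κ * h0 = kenE x) (hx : 39 / 40 ≤ x) (hx' : x < 1)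
    (hj : j = 7 ∨ (j = 3 ∧ a = 1)) (hk : k = 0 ∨ (k = 3 ∧ c = 2)) :
    AltVB (VND 3 κ) (DD x) tKN tL pcN w101 a b c j k 1 1 x := by
  have h := nB2m (j := j) (k := k) (a := a) (b := b) (c := c) (sdN hx hx')
    (hypN hκ hx hx') hj hk
  rwa [sub_sub_cancel] at h

lemma aNB3m (hκ : κ * h0 = kenE x) (hx : 39 / 40 ≤ x) (hx' : x < 1)
    (hj : j = 0 ∨ (j = 3 ∧ a = 2)) (hk : k = 7 ∨ (k = 3 ∧ c = 1)) :
    AltVB (VND 3 κ) (DD x) tKN tL pcN w101 a b c j k (-1) (-1) x := by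
  have h := nB3m (j := j) (k := k) (a := a) (b := b) (c := c) (sdN hx hx')
    (hypN hκ hx hx') hj hk
  rwa [sub_sub_cancel] at h

lemma aNAv (hκ : κ * h0 = kenE x) (hx : 39 / 40 ≤ x) (hx' : x < 1)
    (hj : j = 0 ∨ (j = 3 ∧ a = 2)) (hk : k = 0 ∨ (k = 3 ∧ b = 2)) :
    AltVA (VND 3 κ) (DD x) tKN tL pcN w112 a b c j k 1 (-1) x := by
  have h := nAv (j := j) (k := k) (a := a) (b := b) (c := c) (sdN hx hx')
    (hypN hκ hx hx') (vcN hκ hx hx') hj hk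
  rwa [sub_sub_cancel] at h

lemma aNBvp (hκ : κ * h0 = kenE x) (hx : 39 / 40 ≤ x) (hx' : x < 1)
    (hj : j = 0 ∨ (j = 3 ∧ a = 2)) :
    AltVB (VND 3 κ) (DD x) tKN tL pcN t112 a b c j k 1 1 x := by
  have h := nBvp (j := j) (k := k) (a := a) (b := b) (c := c) (sdN hx hx')
    (hypN hκ hx hx') (vcN hκ hx hx') hj
  rwa [sub_sub_cancel] at h

lemma aNBvm (hκ : κ * h0 = kenE x) (hx : 39 / 40 ≤ x) (hx' : x < 1)
    (hj : j = 0 ∨ (j = 3 ∧ a = 2)) :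
    AltVB (VND 3 κ) (DD x) tKN tL pcN t112 a b c j k 1 (-1) x := by
  have h := nBvm (j := j) (k := k) (a := a) (b := b) (c := c) (sdN hx hx')
    (hypN hκ hx hx') (vcN hκ hx hx') hj
  rwa [sub_sub_cancel] at h

end Pool.Agent.Strip051.G.IE1.Tab
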