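import Pool.Agent.Strip051.G.IE1.AsmFA0
import Pool.Agent.Strip051.G.IE1.AsmFA1
import Pool.Agent.Strip051.G.IE1.AsmFA2
import Pool.Agent.Strip051.G.IE1.AsmFA3
import Pool.Agent.Strip051.G.IE1.AsmFA4
import Pool.Agent.Strip051.G.IE1.AsmFA5
import Pool.Agent.Strip051.G.IE1.AsmFB0
import Pool.Agent.Strip051.G.IE1.AsmFB1
import Pool.Agent.Strip051.G.IE1.AsmFB2
import Pool.Agent.Strip051.G.IE1.AsmFB3
import Pool.Agent.Strip051.G.IE1.AsmFB4
import Pool.Agent.Strip051.G.IE1.AsmFB5
import Pool.Agent.Strip051.G.IE1.AsmFB6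
import Pool.Agent.Strip051.G.IE1.AsmFB7
import Pool.Agent.Strip051.G.IE1.AsmFB8
import Pool.Agent.Strip051.G.IE1.AsmFB9
import Pool.Agent.Strip051.G.IE1.AsmFB10
import Pool.Agent.Strip051.G.IE1.AsmNA0
import Pool.Agent.Strip051.G.IE1.AsmNA1
import Pool.Agent.Strip051.G.IE1.AsmNA2
import Pool.Agent.Strip051.G.IE1.AsmNA3
import Pool.Agent.Strip051.G.IE1.AsmNA4
import Pool.Agent.Strip051.G.IE1.AsmNA5
import Pool.Agent.Strip051.G.IE1.AsmNB0
import Pool.Agent.Strip051.G.IE1.AsmNB1
import Pool.Agent.Strip051.G.IE1.AsmNB2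
import Pool.Agent.Strip051.G.IE1.AsmNB3
import Pool.Agent.Strip051.G.IE1.AsmNB4
import Pool.Agent.Strip051.G.IE1.AsmNB5
import Pool.Agent.Strip051.G.IE1.AsmNB6
import Pool.Agent.Strip051.G.IE1.AsmNB7
import Pool.Agent.Strip051.G.IE1.AsmNB8
import Pool.Agent.Strip051.G.IE1.AsmNB9
import Pool.Agent.Strip051.G.IE1.AsmNB10

/-! # Rows from certificates (generated) -/

set_option linter.all false
set_option maxRecDepth 100000

namespace Pool.Agent.Strip051.G.IE1.Tab

open Pool.Agent.Strip051.PB Pool.Agent.StripNear Pool.Agent.Strip051.LC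

theorem rowsV {κ x : ℝ} (hκ : κ * h0 = kenE x) (hx : 39 / 40 ≤ x) (hx' : x < 1) : RowsV (DD x) tKF tKN tL 3 κ x where
  two := by norm_num
  κ0 := ka0 hκ hx hx'
  x0 := xa0 hx
  x1 := hx'
  pinA := pvKF hx hx'
  pinB := pvKN hx hx'
  pinL := pvL hx hx'
  one := fun j => by
    fin_cases j
    · exact one0 hx hx'
    · exact one1 hx hx'
    · exact one2 hx hx'
    · exact one3 hx hx'
    · exact one4 hx hx'
    · exact one5 hx hx'
    · exact one6 hx hx'
    · exact one7 hx hx'
  farA := fun j k hjk => by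
    fin_cases j <;> fin_cases k
    · exact FA00 hκ hx hx'
    · exact FA01 hκ hx hx'
    · exact FA02 hκ hx hx'
    · exact FA03 hκ hx hx'
    · exact FA04 hκ hx hx'
    · exact FA05 hκ hx hx'
    · exact FA06 hκ hx hx'
    · exact FA07 hκ hx hx'
    · exact absurd hjk (by decide)
    · exact FA11 hκ hx hx'
    · exact FA12 hκ hx hx'
    · exact FA13 hκ hx hx'
    · exact FA14 hκ hx hx'
    · exact FA15 hκ hx hx'
    · exact FA16 hκ hx hx'
    · exact FA17 hκ hx hx'
    · exact absurd hjk (by decide)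
    · exact absurd hjk (by decide)
    · exact FA22 hκ hx hx'
    · exact FA23 hκ hx hx'
    · exact FA24 hκ hx hx'
    · exact FA25 hκ hx hx'
    · exact FA26 hκ hx hx'
    · exact FA27 hκ hx hx'
    · exact absurd hjk (by decide)
    · exact absurd hjk (by decide)
    · exact absurd hjk (by decide)
    · exact FA33 hκ hx hx'
    · exact FA34 hκ hx hx'
    · exact FA35 hκ hx hx'
    · exact FA36 hκ hx hx'
    · exact FA37 hκ hx hx'
    · exact absurd hjk (by decide)
    · exact absurd hjk (by decide)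
    · exact absurd hjk (by decide)
    · exact absurd hjk (by decide)
    · exact FA44 hκ hx hx'
    · exact FA45 hκ hx hx'
    · exact FA46 hκ hx hx'
    · exact FA47 hκ hx hx'
    · exact absurd hjk (by decide)
    · exact absurd hjk (by decide)
    · exact absurd hjk (by decide)
    · exact absurd hjk (by decide)
    · exact absurd hjk (by decide)
    · exact FA55 hκ hx hx'
    · exact FA56 hκ hx hx'
    · exact FA57 hκ hx hx'
    · exact absurd hjk (by decide)
    · exact absurd hjk (by decide)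
    · exact absurd hjk (by decide)
    · exact absurd hjk (by decide)
    · exact absurd hjk (by decide)
    · exact absurd hjk (by decide)
    · exact FA66 hκ hx hx'
    · exact FA67 hκ hx hx'
    · exact absurd hjk (by decide)
    · exact absurd hjk (by decide)
    · exact absurd hjk (by decide)
    · exact absurd hjk (by decide)
    · exact absurd hjk (by decide)
    · exact absurd hjk (by decide)
    · exact absurd hjk (by decide)
    · exact FA77 hκ hx hx'
  farB := fun j k => by
    fin_cases j <;> fin_cases k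
    · exact FB00 hκ hx hx'
    · exact FB01 hκ hx hx'
    · exact FB02 hκ hx hx'
    · exact FB03 hκ hx hx'
    · exact FB04 hκ hx hx'
    · exact FB05 hκ hx hx'
    · exact FB06 hκ hx hx'
    · exact FB07 hκ hx hx'
    · exact FB10 hκ hx hx'
    · exact FB11 hκ hx hx'
    · exact FB12 hκ hx hx'
    · exact FB13 hκ hx hx'
    · exact FB14 hκ hx hx'
    · exact FB15 hκ hx hx'
    · exact FB16 hκ hx hx'
    · exact FB17 hκ hx hx'
    · exact FB20 hκ hx hx'
    · exact FB21 hκ hx hx'
    · exact FB22 hκ hx hx'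
    · exact FB23 hκ hx hx'
    · exact FB24 hκ hx hx'
    · exact FB25 hκ hx hx'
    · exact FB26 hκ hx hx'
    · exact FB27 hκ hx hx'
    · exact FB30 hκ hx hx'
    · exact FB31 hκ hx hx'
    · exact FB32 hκ hx hx'
    · exact FB33 hκ hx hx'
    · exact FB34 hκ hx hx'
    · exact FB35 hκ hx hx'
    · exact FB36 hκ hx hx'
    · exact FB37 hκ hx hx'
    · exact FB40 hκ hx hx'
    · exact FB41 hκ hx hx'
    · exact FB42 hκ hx hx'
    · exact FB43 hκ hx hx'
    · exact FB44 hκ hx hx'
    · exact FB45 hκ hx hx'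
    · exact FB46 hκ hx hx'
    · exact FB47 hκ hx hx'
    · exact FB50 hκ hx hx'
    · exact FB51 hκ hx hx'
    · exact FB52 hκ hx hx'
    · exact FB53 hκ hx hx'
    · exact FB54 hκ hx hx'
    · exact FB55 hκ hx hx'
    · exact FB56 hκ hx hx'
    · exact FB57 hκ hx hx'
    · exact FB60 hκ hx hx'
    · exact FB61 hκ hx hx'
    · exact FB62 hκ hx hx'
    · exact FB63 hκ hx hx'
    · exact FB64 hκ hx hx'
    · exact FB65 hκ hx hx'
    · exact FB66 hκ hx hx'
    · exact FB67 hκ hx hx'
    · exact FB70 hκ hx hx'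
    · exact FB71 hκ hx hx'
    · exact FB72 hκ hx hx'
    · exact FB73 hκ hx hx'
    · exact FB74 hκ hx hx'
    · exact FB75 hκ hx hx'
    · exact FB76 hκ hx hx'
    · exact FB77 hκ hx hx'
  nearA := fun j k hjk => by
    fin_cases j <;> fin_cases k
    · exact NA00 hκ hx hx'
    · exact NA01 hκ hx hx'
    · exact NA02 hκ hx hx'
    · exact NA03 hκ hx hx'
    · exact NA04 hκ hx hx'
    · exact NA05 hκ hx hx'
    · exact NA06 hκ hx hx'
    · exact NA07 hκ hx hx'
    · exact absurd hjk (by decide)
    · exact NA11 hκ hx hx'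
    · exact NA12 hκ hx hx'
    · exact NA13 hκ hx hx'
    · exact NA14 hκ hx hx'
    · exact NA15 hκ hx hx'
    · exact NA16 hκ hx hx'
    · exact NA17 hκ hx hx'
    · exact absurd hjk (by decide)
    · exact absurd hjk (by decide)
    · exact NA22 hκ hx hx'
    · exact NA23 hκ hx hx'
    · exact NA24 hκ hx hx'
    · exact NA25 hκ hx hx'
    · exact NA26 hκ hx hx'
    · exact NA27 hκ hx hx'
    · exact absurd hjk (by decide)
    · exact absurd hjk (by decide)
    · exact absurd hjk (by decide)
    · exact NA33 hκ hx hx'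
    · exact NA34 hκ hx hx'
    · exact NA35 hκ hx hx'
    · exact NA36 hκ hx hx'
    · exact NA37 hκ hx hx'
    · exact absurd hjk (by decide)
    · exact absurd hjk (by decide)
    · exact absurd hjk (by decide)
    · exact absurd hjk (by decide)
    · exact NA44 hκ hx hx'
    · exact NA45 hκ hx hx'
    · exact NA46 hκ hx hx'
    · exact NA47 hκ hx hx'
    · exact absurd hjk (by decide)
    · exact absurd hjk (by decide)
    · exact absurd hjk (by decide)
    · exact absurd hjk (by decide)
    · exact absurd hjk (by decide)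
    · exact NA55 hκ hx hx'
    · exact NA56 hκ hx hx'
    · exact NA57 hκ hx hx'
    · exact absurd hjk (by decide)
    · exact absurd hjk (by decide)
    · exact absurd hjk (by decide)
    · exact absurd hjk (by decide)
    · exact absurd hjk (by decide)
    · exact absurd hjk (by decide)
    · exact NA66 hκ hx hx'
    · exact NA67 hκ hx hx'
    · exact absurd hjk (by decide)
    · exact absurd hjk (by decide)
    · exact absurd hjk (by decide)
    · exact absurd hjk (by decide)
    · exact absurd hjk (by decide)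
    · exact absurd hjk (by decide)
    · exact absurd hjk (by decide)
    · exact NA77 hκ hx hx'
  nearB := fun j k => by
    fin_cases j <;> fin_cases k
    · exact NB00 hκ hx hx'
    · exact NB01 hκ hx hx'
    · exact NB02 hκ hx hx'
    · exact NB03 hκ hx hx'
    · exact NB04 hκ hx hx'
    · exact NB05 hκ hx hx'
    · exact NB06 hκ hx hx'
    · exact NB07 hκ hx hx'
    · exact NB10 hκ hx hx'
    · exact NB11 hκ hx hx'
    · exact NB12 hκ hx hx'
    · exact NB13 hκ hx hx'
    · exact NB14 hκ hx hx'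
    · exact NB15 hκ hx hx'
    · exact NB16 hκ hx hx'
    · exact NB17 hκ hx hx'
    · exact NB20 hκ hx hx'
    · exact NB21 hκ hx hx'
    · exact NB22 hκ hx hx'
    · exact NB23 hκ hx hx'
    · exact NB24 hκ hx hx'
    · exact NB25 hκ hx hx'
    · exact NB26 hκ hx hx'
    · exact NB27 hκ hx hx'
    · exact NB30 hκ hx hx'
    · exact NB31 hκ hx hx'
    · exact NB32 hκ hx hx'
    · exact NB33 hκ hx hx'
    · exact NB34 hκ hx hx'
    · exact NB35 hκ hx hx'
    · exact NB36 hκ hx hx'
    · exact NB37 hκ hx hx'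
    · exact NB40 hκ hx hx'
    · exact NB41 hκ hx hx'
    · exact NB42 hκ hx hx'
    · exact NB43 hκ hx hx'
    · exact NB44 hκ hx hx'
    · exact NB45 hκ hx hx'
    · exact NB46 hκ hx hx'
    · exact NB47 hκ hx hx'
    · exact NB50 hκ hx hx'
    · exact NB51 hκ hx hx'
    · exact NB52 hκ hx hx'
    · exact NB53 hκ hx hx'
    · exact NB54 hκ hx hx'
    · exact NB55 hκ hx hx'
    · exact NB56 hκ hx hx'
    · exact NB57 hκ hx hx'
    · exact NB60 hκ hx hx'
    · exact NB61 hκ hx hx'
    · exact NB62 hκ hx hx'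
    · exact NB63 hκ hx hx'
    · exact NB64 hκ hx hx'
    · exact NB65 hκ hx hx'
    · exact NB66 hκ hx hx'
    · exact NB67 hκ hx hx'
    · exact NB70 hκ hx hx'
    · exact NB71 hκ hx hx'
    · exact NB72 hκ hx hx'
    · exact NB73 hκ hx hx'
    · exact NB74 hκ hx hx'
    · exact NB75 hκ hx hx'
    · exact NB76 hκ hx hx'
    · exact NB77 hκ hx hx'

end Pool.Agent.Strip051.G.IE1.Tab
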