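import Pool.Agent.Strip051.PB.StripYG
import Pool.Agent.Strip051.G.IE1.Fact

/-! # Unit strips of the table IE1: level functions (generated) -/

set_option linter.all false
set_option maxRecDepth 4000

namespace Pool.Agent.Strip051.G.IE1.Tab.St

open Pool.Agent.Strip051.PB Pool.Agent.StripNear Pool.Agent.Strip051.LC
open Pool.Agent.Strip051.G.IE1.Tab

noncomputable def xs4 : Fn1 := ⟨_, _, fun h1 => (enc_pnc _ 0)⟩
noncomputable def xv4 : Fn1 := ⟨_, _, fun h1 => (enc_pnc _ 0)⟩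
noncomputable def x2a_2 : Fn1 := ⟨_, _, fun h1 => (enc_sub (enc_pnc _ 1) h1)⟩
noncomputable def x2a : Fn1 := ⟨_, _, fun h1 => (enc_norm (enc_mul (enc_sq (enc_inv (enc_sub (enc_rat _ 1 2) (enc_scale 167 50 (enc_mul (hhg.enc h1) (enc_norm (x2a_2.enc h1))))))) (enc_norm (enc_sub (enc_rat _ 85937 100000) (enc_scale 10723 500 (x2a_2.enc h1))))))⟩
noncomputable def x1a : Fn1 := ⟨_, _, fun h1 => (enc_norm (enc_neg (enc_mul (enc_norm (enc_scale 167 25 (enc_mul (hhg.enc h1) (enc_norm (enc_sub (enc_pnc _ 1) h1))))) (x2a.enc h1))))⟩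
noncomputable def x0a : Fn1 := ⟨_, _, fun h1 => (enc_norm (enc_mul (enc_sq (enc_norm (enc_scale 167 50 (enc_mul (hhg.enc h1) (enc_norm (enc_sub (enc_pnc _ 1) h1)))))) (x2a.enc h1)))⟩
noncomputable def x2b_2 : Fn1 := ⟨_, _, fun h1 => (enc_sub (enc_pnc _ 1) h1)⟩
noncomputable def x2b : Fn1 := ⟨_, _, fun h1 => (enc_norm (enc_mul (enc_sq (enc_inv (enc_sub (enc_rat _ 1 2) (enc_scale 167 50 (enc_mul (hhg.enc h1) (enc_norm (x2b_2.enc h1))))))) (enc_norm (enc_sub (enc_rat _ 2661 12500) (enc_scale 8863 1000 (x2b_2.enc h1))))))⟩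
noncomputable def x1b : Fn1 := ⟨_, _, fun h1 => (enc_norm (enc_neg (enc_mul (enc_norm (enc_scale 167 25 (enc_mul (hhg.enc h1) (enc_norm (enc_sub (enc_pnc _ 1) h1))))) (x2b.enc h1))))⟩
noncomputable def x0b : Fn1 := ⟨_, _, fun h1 => (enc_norm (enc_mul (enc_sq (enc_norm (enc_scale 167 50 (enc_mul (hhg.enc h1) (enc_norm (enc_sub (enc_pnc _ 1) h1)))))) (x2b.enc h1)))⟩
noncomputable def xw8 : Fn1 := ⟨_, _, fun h1 => (x2a.enc h1)⟩
noncomputable def xs8 : Fn1 := ⟨_, _, fun h1 => (x1a.enc h1)⟩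
noncomputable def xv8 : Fn1 := ⟨_, _, fun h1 => (enc_norm (enc_subn 1 (x0a.enc h1)))⟩
noncomputable def xw9 : Fn1 := ⟨_, _, fun h1 => (enc_norm (enc_add (x2a.enc h1) (enc_sub (enc_rat _ 21560 29241) (enc_scale 7150880 29241 (enc_sub (enc_pnc _ 1) h1)))))⟩
noncomputable def xs9 : Fn1 := ⟨_, _, fun h1 => (enc_norm (enc_add (x1a.enc h1) (enc_subr 15631 146205 (enc_scale 5184388 146205 (enc_sub (enc_pnc _ 1) h1)))))⟩
noncomputable def xv9 : Fn1 := ⟨_, _, fun h1 => (enc_norm (enc_add (x0a.enc h1) (enc_sub (enc_neg (enc_rat _ 116510701 116964000)) (enc_scale 37586813 29241000 (enc_sub (enc_pnc _ 1) h1)))))⟩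
noncomputable def xw10 : Fn1 := ⟨_, _, fun h1 => (enc_norm (enc_add (x2a.enc h1) (enc_subr 660373421 245770605 (enc_scale 17602843000 49154121 (enc_sub (enc_pnc _ 1) h1)))))⟩
noncomputable def xs10 : Fn1 := ⟨_, _, fun h1 => (enc_norm (enc_add (x1a.enc h1) (enc_sub (enc_rat _ 6260481439 12288530250) (enc_scale 17946168824 245770605 (enc_sub (enc_pnc _ 1) h1)))))⟩
noncomputable def xv10 : Fn1 := ⟨_, _, fun h1 => (enc_norm (enc_add (x0a.enc h1) (enc_subr 5032699015327 4915412100000 (enc_scale 35353338563 9830824200 (enc_sub (enc_pnc _ 1) h1)))))⟩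
noncomputable def xw11 : Fn1 := ⟨_, _, fun h1 => (enc_norm (enc_add (x2a.enc h1) (enc_sub (enc_rat _ 1681754227 983082420) (enc_scale 3148093400 49154121 (enc_sub (enc_pnc _ 1) h1)))))⟩
noncomputable def xs11 : Fn1 := ⟨_, _, fun h1 => (enc_norm (enc_add (x1a.enc h1) (enc_subr 3354631147 6144265125 (enc_scale 6954954856 245770605 (enc_sub (enc_pnc _ 1) h1)))))⟩
noncomputable def xv11 : Fn1 := ⟨_, _, fun h1 => (enc_norm (enc_add (x0a.enc h1) (enc_sub (enc_neg (enc_rat _ 944285033147 983082420000)) (enc_scale 24409358269 9830824200 (enc_sub (enc_pnc _ 1) h1)))))⟩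
noncomputable def xw12 : Fn1 := ⟨_, _, fun h1 => (enc_norm (enc_add (x2a.enc h1) (enc_subr 10940340757 1966164840 (enc_scale 7712467162295 25166909952 (enc_sub (enc_pnc _ 1) h1)))))⟩
noncomputable def xs12 : Fn1 := ⟨_, _, fun h1 => (enc_norm (enc_add (x1a.enc h1) (enc_sub (enc_rat _ 101897593723 49154121000) (enc_scale 13222786883299 125834549760 (enc_sub (enc_pnc _ 1) h1)))))⟩
noncomputable def xv12 : Fn1 := ⟨_, _, fun h1 => (enc_norm (enc_add (x0a.enc h1) (enc_subr 2940018475913 2457706050000 (enc_scale 119809535341819 12583454976000 (enc_sub (enc_pnc _ 1) h1)))))⟩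
noncomputable def xw13 : Fn1 := ⟨_, _, fun h1 => (enc_norm (enc_add (x2a.enc h1) (enc_subr 5328878074909 1228853025000 (enc_scale 54375268161883 3145863744000 (enc_sub (enc_pnc _ 1) h1)))))⟩
noncomputable def xs13 : Fn1 := ⟨_, _, fun h1 => (enc_norm (enc_add (x1a.enc h1) (enc_add (enc_rat _ 1793022393967 1228853025000) (enc_scale 124271891480021 3145863744000 (enc_sub (enc_pnc _ 1) h1)))))⟩
noncomputable def xv13 : Fn1 := ⟨_, _, fun h1 => (enc_norm (enc_add (x0a.enc h1) (enc_sub (enc_neg (enc_rat _ 687853528409 614426512500)) (enc_scale 107611246439429 12583454976000 (enc_sub (enc_pnc _ 1) h1)))))⟩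
noncomputable def xw14 : Fn1 := ⟨_, _, fun h1 => (enc_norm (enc_add (x2a.enc h1) (enc_sub (enc_neg (enc_rat _ 3003159942409 1228853025000)) (enc_scale 168650936158117 3145863744000 (enc_sub (enc_pnc _ 1) h1)))))⟩
noncomputable def xs14 : Fn1 := ⟨_, _, fun h1 => (enc_norm (enc_add (x1a.enc h1) (enc_add (enc_rat _ 304562789167 1228853025000) (enc_scale 267008662244821 3145863744000 (enc_sub (enc_pnc _ 1) h1)))))⟩
noncomputable def xv14 : Fn1 := ⟨_, _, fun h1 => (enc_norm (enc_add (x0a.enc h1) (enc_sub (enc_neg (enc_rat _ 22751070401 24577060500)) (enc_scale 198962779728901 12583454976000 (enc_sub (enc_pnc _ 1) h1)))))⟩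
noncomputable def xw15 : Fn1 := ⟨_, _, fun h1 => (enc_norm (enc_add (x2a.enc h1) (enc_subr 6008934441559 1228853025000 (enc_scale 626623418325083 3145863744000 (enc_sub (enc_pnc _ 1) h1)))))⟩
noncomputable def xs15 : Fn1 := ⟨_, _, fun h1 => (enc_norm (enc_add (x1a.enc h1) (enc_sub (enc_rat _ 2709182388487 1228853025000) (enc_scale 369210821341739 3145863744000 (enc_sub (enc_pnc _ 1) h1)))))⟩
noncomputable def xv15 : Fn1 := ⟨_, _, fun h1 => (enc_norm (enc_add (x0a.enc h1) (enc_subr 809238719957 614426512500 (enc_scale 310012807140347 12583454976000 (enc_sub (enc_pnc _ 1) h1)))))⟩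
noncomputable def xw16 : Fn1 := ⟨_, _, fun h1 => (enc_norm (enc_add (x2b.enc h1) (enc_subr 259991423138179 104862124800000 (enc_scale 431958277295131 3145863744000 (enc_sub (enc_pnc _ 1) h1)))))⟩
noncomputable def xs16 : Fn1 := ⟨_, _, fun h1 => (enc_norm (enc_sub (enc_sub (enc_rat _ 419139280871731 104862124800000) (enc_scale 517114088913739 3145863744000 (enc_sub (enc_pnc _ 1) h1))) (enc_add (enc_nat 2 (x2b.enc h1)) (x1b.enc h1))))⟩
noncomputable def xv16 : Fn1 := ⟨_, _, fun h1 => (enc_norm (enc_add (enc_add (enc_add (x2b.enc h1) (x1b.enc h1)) (x0b.enc h1)) (enc_subr 909953455892707 419448499200000 (enc_scale 642146869351291 12583454976000 (enc_sub (enc_pnc _ 1) h1)))))⟩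
noncomputable def xw17 : Fn1 := ⟨_, _, fun h1 => (enc_norm (enc_add (x2b.enc h1) (enc_sub (enc_neg (enc_rat _ 100076682818179 104862124800000)) (enc_scale 101580213687269 3145863744000 (enc_sub (enc_pnc _ 1) h1)))))⟩
noncomputable def xs17 : Fn1 := ⟨_, _, fun h1 => (enc_norm (enc_sub (enc_add (enc_rat _ 227241592487731 104862124800000) (enc_scale 123132100265141 3145863744000 (enc_sub (enc_pnc _ 1) h1))) (enc_add (enc_nat 2 (x2b.enc h1)) (x1b.enc h1))))⟩
noncomputable def xv17 : Fn1 := ⟨_, _, fun h1 => (enc_norm (enc_add (enc_add (enc_add (x2b.enc h1) (x1b.enc h1)) (x0b.enc h1)) (enc_sub (enc_neg (enc_rat _ 679676229831907 419448499200000)) (enc_scale 25229711532673 2516690995200 (enc_sub (enc_pnc _ 1) h1)))))⟩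
noncomputable def xw18 : Fn1 := ⟨_, _, fun h1 => (enc_norm (enc_add (x2b.enc h1) (enc_sub (enc_neg (enc_rat _ 157459567778179 104862124800000)) (enc_scale 86517687602423 1048621248000 (enc_sub (enc_pnc _ 1) h1)))))⟩
noncomputable def xs18 : Fn1 := ⟨_, _, fun h1 => (enc_norm (enc_sub (enc_add (enc_rat _ 305282316033331 104862124800000) (enc_scale 112658391689447 1048621248000 (enc_sub (enc_pnc _ 1) h1))) (enc_add (enc_nat 2 (x2b.enc h1)) (x1b.enc h1))))⟩
noncomputable def xv18 : Fn1 := ⟨_, _, fun h1 => (enc_norm (enc_add (enc_add (enc_add (x2b.enc h1) (x1b.enc h1)) (x0b.enc h1)) (enc_sub (enc_neg (enc_rat _ 785811613853923 419448499200000)) (enc_scale 139445046465239 4194484992000 (enc_sub (enc_pnc _ 1) h1)))))⟩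
noncomputable def xw19 : Fn1 := ⟨_, _, fun h1 => (enc_norm (enc_add (x2b.enc h1) (enc_subr 592782514483 167779399680 (enc_scale 658281331325 8388969984 (enc_sub (enc_pnc _ 1) h1)))))⟩
noncomputable def xs19 : Fn1 := ⟨_, _, fun h1 => (enc_norm (enc_sub (enc_sub (enc_rat _ 4998612573551 838896998400) (enc_scale 1124367114701 8388969984 (enc_sub (enc_pnc _ 1) h1))) (enc_add (enc_nat 2 (x2b.enc h1)) (x1b.enc h1))))⟩
noncomputable def xv19 : Fn1 := ⟨_, _, fun h1 => (enc_norm (enc_add (enc_add (enc_add (x2b.enc h1) (x1b.enc h1)) (x0b.enc h1)) (enc_subr 1265127997344739 419448499200000 (enc_scale 240361375075369 4194484992000 (enc_sub (enc_pnc _ 1) h1)))))⟩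
noncomputable def xw20 : Fn1 := ⟨_, _, fun h1 => (enc_norm (enc_add (x2b.enc h1) (enc_subr 315470003 327694140 (enc_scale 363636185 32769414 (enc_sub (enc_pnc _ 1) h1)))))⟩
noncomputable def xs20 : Fn1 := ⟨_, _, fun h1 => (enc_norm (enc_sub (enc_sub (enc_rat _ 3569983436 2048088375) (enc_scale 1928269016 81923535 (enc_sub (enc_pnc _ 1) h1))) (enc_add (enc_nat 2 (x2b.enc h1)) (x1b.enc h1))))⟩
noncomputable def xv20 : Fn1 := ⟨_, _, fun h1 => (enc_norm (enc_add (enc_add (enc_add (x2b.enc h1) (x1b.enc h1)) (x0b.enc h1)) (enc_subr 1055032790861 819235350000 (enc_scale 196657577131 16384707000 (enc_sub (enc_pnc _ 1) h1)))))⟩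
noncomputable def xw21 : Fn1 := ⟨_, _, fun h1 => (enc_norm (enc_add (x2b.enc h1) (enc_subr 141490214 81923535 (enc_scale 3131178820 16384707 (enc_sub (enc_pnc _ 1) h1)))))⟩
noncomputable def xs21 : Fn1 := ⟨_, _, fun h1 => (enc_norm (enc_sub (enc_sub (enc_rat _ 6325382819 2048088375) (enc_scale 27882643418 81923535 (enc_sub (enc_pnc _ 1) h1))) (enc_add (enc_nat 2 (x2b.enc h1)) (x1b.enc h1))))⟩
noncomputable def xv21 : Fn1 := ⟨_, _, fun h1 => (enc_norm (enc_add (enc_add (enc_add (x2b.enc h1) (x1b.enc h1)) (x0b.enc h1)) (enc_subr 1539983082269 819235350000 (enc_scale 2480642524507 16384707000 (enc_sub (enc_pnc _ 1) h1)))))⟩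
noncomputable def xw22 : Fn1 := ⟨_, _, fun h1 => (enc_norm (enc_add (x2b.enc h1) (enc_sub (enc_rat _ 76432 48735) (enc_scale 2077280 9747 (enc_sub (enc_pnc _ 1) h1)))))⟩
noncomputable def xs22 : Fn1 := ⟨_, _, fun h1 => (enc_norm (enc_sub (enc_subr 3544534 1218375 (enc_scale 19266772 48735 (enc_sub (enc_pnc _ 1) h1))) (enc_add (enc_nat 2 (x2b.enc h1)) (x1b.enc h1))))⟩
noncomputable def xv22 : Fn1 := ⟨_, _, fun h1 => (enc_norm (enc_add (enc_add (enc_add (x2b.enc h1) (x1b.enc h1)) (x0b.enc h1)) (enc_sub (enc_rat _ 413836057 487350000) (enc_scale 1786993103 9747000 (enc_sub (enc_pnc _ 1) h1)))))⟩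
noncomputable def xw23 : Fn1 := ⟨_, _, fun h1 => (x2b.enc h1)⟩
noncomputable def xs23 : Fn1 := ⟨_, _, fun h1 => (enc_norm (enc_neg (enc_add (enc_nat 2 (x2b.enc h1)) (x1b.enc h1))))⟩
noncomputable def xv23 : Fn1 := ⟨_, _, fun h1 => (enc_norm (enc_subr 1 2 (enc_add (enc_add (x2b.enc h1) (x1b.enc h1)) (x0b.enc h1))))⟩
noncomputable def xm1_3 : Fn1 := ⟨_, _, fun h1 => (enc_sub (enc_pnc _ 1) h1)⟩
noncomputable def xm1 : Fn1 := ⟨_, _, fun h1 => (enc_norm (enc_add (enc_subr 3274256101 2804400000 (enc_scale 95974621 1752750 (xm1_3.enc h1))) (enc_mul (enc_norm (enc_sub (enc_rat _ 64649 50000) (enc_scale 12583 500 (xm1_3.enc h1)))) (enc_inv (enc_sub (enc_rat _ 1 2) (enc_scale 167 50 (enc_mul (hhg.enc h1) (enc_norm (xm1_3.enc h1)))))))))⟩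
noncomputable def xm2 : Fn1 := ⟨_, _, fun h1 => (enc_norm (enc_add (enc_sub (x2a.enc h1) (x2b.enc h1)) (enc_subr 758312947624567 314586374400000 (enc_scale 3041642828593 49154121000 (enc_sub (enc_pnc _ 1) h1)))))⟩
noncomputable def xss : Fn1 := ⟨_, _, fun h1 => (enc_norm (enc_scale 200 13 (enc_sub (enc_sub (enc_neg (enc_rat _ 42261 50000)) (enc_scale 418 25 (enc_sub (enc_pnc _ 1) h1))) (flg.enc h1))))⟩
noncomputable def sxf0 : Fn2 := ⟨_, _, fun h1 h2 => (enc_norm (enc_mul (enc_norm (enc_sub (xt1q0.enc h1 h2) (xt0q0.enc h1 h2))) (enc_inv (enc_sub (cv1m.enc h1) (c1g.enc h1)))))⟩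
noncomputable def sxl0 : Fn2 := ⟨_, _, fun h1 h2 => (enc_norm (enc_mul (enc_norm (enc_sub (xt7q0.enc h1 h2) (xt6q0.enc h1 h2))) (enc_inv (enc_sub (c3g.enc h1) (cv6m.enc h1)))))⟩
noncomputable def sxf1 : Fn2 := ⟨_, _, fun h1 h2 => (enc_norm (enc_mul (enc_norm (enc_sub (xt1q1.enc h1 h2) (xt0q1.enc h1 h2))) (enc_inv (enc_sub (cv1m.enc h1) (c1g.enc h1)))))⟩
noncomputable def sxl1 : Fn2 := ⟨_, _, fun h1 h2 => (enc_norm (enc_mul (enc_norm (enc_sub (xt7q1.enc h1 h2) (xt6q1.enc h1 h2))) (enc_inv (enc_sub (c3g.enc h1) (cv6m.enc h1)))))⟩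
noncomputable def sxf2 : Fn2 := ⟨_, _, fun h1 h2 => (enc_norm (enc_mul (enc_norm (enc_sub (xt1q2.enc h1 h2) (xt0q2.enc h1 h2))) (enc_inv (enc_sub (cv1p.enc h1) (c1g.enc h1)))))⟩
noncomputable def sxl2 : Fn2 := ⟨_, _, fun h1 h2 => (enc_norm (enc_mul (enc_norm (enc_sub (xt7q2.enc h1 h2) (xt6q2.enc h1 h2))) (enc_inv (enc_sub (c3g.enc h1) (cv6p.enc h1)))))⟩
noncomputable def sxl3 : Fn2 := ⟨_, _, fun h1 h2 => (enc_norm (enc_mul (enc_norm (enc_sub (xt7q3.enc h1 h2) (xt6q3.enc h1 h2))) (enc_inv (enc_sub (c3g.enc h1) (cv6r.enc h1)))))⟩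
noncomputable def sxe2 : Fn2 := ⟨_, _, fun h1 h2 => (enc_norm (enc_mul (enc_norm (enc_sub (xt2q2.enc h1 h2) (xt1q2.enc h1 h2))) (enc_inv (enc_sub (cv2p.enc h1) (cv1p.enc h1)))))⟩
noncomputable def dx8 : DT := .quad xw8 xs8 xv8
noncomputable def dx9 : DT := .quad xw9 xs9 xv9
noncomputable def dx10 : DT := .quad xw10 xs10 xv10
noncomputable def dx11 : DT := .quad xw11 xs11 xv11
noncomputable def dx12 : DT := .quad xw12 xs12 xv12
noncomputable def dx13 : DT := .quad xw13 xs13 xv13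
noncomputable def dx14 : DT := .quad xw14 xs14 xv14
noncomputable def dx15 : DT := .quad xw15 xs15 xv15
noncomputable def dx16 : DT := .quad xw16 xs16 xv16
noncomputable def dx17 : DT := .quad xw17 xs17 xv17
noncomputable def dx18 : DT := .quad xw18 xs18 xv18
noncomputable def dx19 : DT := .quad xw19 xs19 xv19
noncomputable def dx20 : DT := .quad xw20 xs20 xv20
noncomputable def dx21 : DT := .quad xw21 xs21 xv21
noncomputable def dx22 : DT := .quad xw22 xs22 xv22
noncomputable def dx23 : DT := .quad xw23 xs23 xv23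
noncomputable def dx24 : DT := .node (Cn.rt 29 400) dx8 dx9
noncomputable def dx25 : DT := .node (Cn.rt 3 25) dx10 dx11
noncomputable def dx26 : DT := .node (Cn.rt 9 100) dx24 dx25
noncomputable def dx27 : DT := .node (Cn.rt 1 4) dx12 dx13
noncomputable def dx28 : DT := .node (Cn.rt 2 5) dx14 dx15
noncomputable def dx29 : DT := .node (Cn.rt 8 25) dx27 dx28
noncomputable def dx30 : DT := .node (Cn.rt 9 50) dx26 dx29
noncomputable def dx31 : DT := .node (Cn.rt 3 5) dx16 dx17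
noncomputable def dx32 : DT := .node (Cn.rt 3 4) dx18 dx19
noncomputable def dx33 : DT := .node (Cn.rt 17 25) dx31 dx32
noncomputable def dx34 : DT := .node (Cn.rt 22 25) dx20 dx21
noncomputable def dx35 : DT := .node (Cn.rt 371 400) dx22 dx23
noncomputable def dx36 : DT := .node (Cn.rt 91 100) dx34 dx35
noncomputable def dx37 : DT := .node (Cn.rt 41 50) dx33 dx36
noncomputable def dx38 : DT := .node (Cn.rt 1 2) dx30 dx37

theorem hh (x : ℝ) : hhg.v x = h0 := by
  show Real.sqrt _ = h0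
  unfold h0
  norm_num

theorem e3s {x : ℝ} (hx : 39 / 40 ≤ x) (hx' : x < 1) : 0 < e3R x ∧ e3R x ≤ 29 / 400 := by
  have h1 := h0_pos
  have h2 := h0_lt'
  unfold e3R
  constructor
  · have : 0 < h0 * (1 - x) := mul_pos h1 (by linarith)
    linarith
  · nlinarith

theorem iv {x : ℝ} (hx : 39 / 40 ≤ x) (hx' : x < 1) :
    (1 / 2 - 167 / 50 * (h0 * (1 - x)))⁻¹ * (1 / 2 - 167 / 50 * (h0 * (1 - x))) = 1 := by
  have h := (e3s hx hx').2
  unfold e3R at h
  exact inv_mul_cancel₀ (by linarith)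

theorem cL0 {t x : ℝ} (h2 : t ≤ 29 / 400) : dx38.kv t x = x2a.v x * t ^ 2 + x1a.v x * t + x0a.v x + ((0 + 0 * (1 - x)) + (0 + 0 * (1 - x)) * t + (0 + 0 * (1 - x)) * t ^ 2) - 1 := by
  refine (DT.kv_le (by simp only [Cn.rt_v]; push_cast; linarith)).trans ?_
  refine (DT.kv_le (by simp only [Cn.rt_v]; push_cast; linarith)).trans ?_
  refine (DT.kv_le (by simp only [Cn.rt_v]; push_cast; linarith)).trans ?_
  refine (DT.kv_le (by simp only [Cn.rt_v]; push_cast; linarith)).trans ?_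
  simp only [DT.kv, dx8, xw8, xs8, xv8]
  push_cast
  ring1
theorem cL1 {t x : ℝ} (h1 : 29 / 400 < t) (h2 : t ≤ 9 / 100) : dx38.kv t x = x2a.v x * t ^ 2 + x1a.v x * t + x0a.v x + ((453299 / 116964000 + -(37586813 / 29241000) * (1 - x)) + (-(15631 / 146205) + 5184388 / 146205 * (1 - x)) * t + (21560 / 29241 + -(7150880 / 29241) * (1 - x)) * t ^ 2) - 1 := by
  refine (DT.kv_le (by simp only [Cn.rt_v]; push_cast; linarith)).trans ?_
  refine (DT.kv_le (by simp only [Cn.rt_v]; push_cast; linarith)).trans ?_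
  refine (DT.kv_le (by simp only [Cn.rt_v]; push_cast; linarith)).trans ?_
  refine (DT.kv_gt (by simp only [Cn.rt_v]; push_cast; linarith)).trans ?_
  simp only [DT.kv, dx9, xw9, xs9, xv9]
  push_cast
  ring1
theorem cL2 {t x : ℝ} (h1 : 9 / 100 < t) (h2 : t ≤ 3 / 25) : dx38.kv t x = x2a.v x * t ^ 2 + x1a.v x * t + x0a.v x + ((-(117286915327 / 4915412100000) + 35353338563 / 9830824200 * (1 - x)) + (6260481439 / 12288530250 + -(17946168824 / 245770605) * (1 - x)) * t + (-(660373421 / 245770605) + 17602843000 / 49154121 * (1 - x)) * t ^ 2) - 1 := by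
  refine (DT.kv_le (by simp only [Cn.rt_v]; push_cast; linarith)).trans ?_
  refine (DT.kv_le (by simp only [Cn.rt_v]; push_cast; linarith)).trans ?_
  refine (DT.kv_gt (by simp only [Cn.rt_v]; push_cast; linarith)).trans ?_
  refine (DT.kv_le (by simp only [Cn.rt_v]; push_cast; linarith)).trans ?_
  simp only [DT.kv, dx10, xw10, xs10, xv10]
  push_cast
  ring1
theorem cL3 {t x : ℝ} (h1 : 3 / 25 < t) (h2 : t ≤ 9 / 50) : dx38.kv t x = x2a.v x * t ^ 2 + x1a.v x * t + x0a.v x + ((38797386853 / 983082420000 + -(24409358269 / 9830824200) * (1 - x)) + (-(3354631147 / 6144265125) + 6954954856 / 245770605 * (1 - x)) * t + (1681754227 / 983082420 + -(3148093400 / 49154121) * (1 - x)) * t ^ 2) - 1 := by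
  refine (DT.kv_le (by simp only [Cn.rt_v]; push_cast; linarith)).trans ?_
  refine (DT.kv_le (by simp only [Cn.rt_v]; push_cast; linarith)).trans ?_
  refine (DT.kv_gt (by simp only [Cn.rt_v]; push_cast; linarith)).trans ?_
  refine (DT.kv_gt (by simp only [Cn.rt_v]; push_cast; linarith)).trans ?_
  simp only [DT.kv, dx11, xw11, xs11, xv11]
  push_cast
  ring1
theorem cL4 {t x : ℝ} (h1 : 9 / 50 < t) (h2 : t ≤ 1 / 4) : dx38.kv t x = x2a.v x * t ^ 2 + x1a.v x * t + x0a.v x + ((-(482312425913 / 2457706050000) + 119809535341819 / 12583454976000 * (1 - x)) + (101897593723 / 49154121000 + -(13222786883299 / 125834549760) * (1 - x)) * t + (-(10940340757 / 1966164840) + 7712467162295 / 25166909952 * (1 - x)) * t ^ 2) - 1 := by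
  refine (DT.kv_le (by simp only [Cn.rt_v]; push_cast; linarith)).trans ?_
  refine (DT.kv_gt (by simp only [Cn.rt_v]; push_cast; linarith)).trans ?_
  refine (DT.kv_le (by simp only [Cn.rt_v]; push_cast; linarith)).trans ?_
  refine (DT.kv_le (by simp only [Cn.rt_v]; push_cast; linarith)).trans ?_
  simp only [DT.kv, dx12, xw12, xs12, xv12]
  push_cast
  ring1
theorem cL5 {t x : ℝ} (h1 : 1 / 4 < t) (h2 : t ≤ 8 / 25) : dx38.kv t x = x2a.v x * t ^ 2 + x1a.v x * t + x0a.v x + ((-(73427015909 / 614426512500) + -(107611246439429 / 12583454976000) * (1 - x)) + (1793022393967 / 1228853025000 + 124271891480021 / 3145863744000 * (1 - x)) * t + (-(5328878074909 / 1228853025000) + 54375268161883 / 3145863744000 * (1 - x)) * t ^ 2) - 1 := by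
  refine (DT.kv_le (by simp only [Cn.rt_v]; push_cast; linarith)).trans ?_
  refine (DT.kv_gt (by simp only [Cn.rt_v]; push_cast; linarith)).trans ?_
  refine (DT.kv_le (by simp only [Cn.rt_v]; push_cast; linarith)).trans ?_
  refine (DT.kv_gt (by simp only [Cn.rt_v]; push_cast; linarith)).trans ?_
  simp only [DT.kv, dx13, xw13, xs13, xv13]
  push_cast
  ring1
theorem cL6 {t x : ℝ} (h1 : 8 / 25 < t) (h2 : t ≤ 2 / 5) : dx38.kv t x = x2a.v x * t ^ 2 + x1a.v x * t + x0a.v x + ((1825990099 / 24577060500 + -(198962779728901 / 12583454976000) * (1 - x)) + (304562789167 / 1228853025000 + 267008662244821 / 3145863744000 * (1 - x)) * t + (-(3003159942409 / 1228853025000) + -(168650936158117 / 3145863744000) * (1 - x)) * t ^ 2) - 1 := by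
  refine (DT.kv_le (by simp only [Cn.rt_v]; push_cast; linarith)).trans ?_
  refine (DT.kv_gt (by simp only [Cn.rt_v]; push_cast; linarith)).trans ?_
  refine (DT.kv_gt (by simp only [Cn.rt_v]; push_cast; linarith)).trans ?_
  refine (DT.kv_le (by simp only [Cn.rt_v]; push_cast; linarith)).trans ?_
  simp only [DT.kv, dx14, xw14, xs14, xv14]
  push_cast
  ring1
theorem cL7 {t x : ℝ} (h1 : 2 / 5 < t) (h2 : t ≤ 1 / 2) : dx38.kv t x = x2a.v x * t ^ 2 + x1a.v x * t + x0a.v x + ((-(194812207457 / 614426512500) + 310012807140347 / 12583454976000 * (1 - x)) + (2709182388487 / 1228853025000 + -(369210821341739 / 3145863744000) * (1 - x)) * t + (-(6008934441559 / 1228853025000) + 626623418325083 / 3145863744000 * (1 - x)) * t ^ 2) - 1 := by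
  refine (DT.kv_le (by simp only [Cn.rt_v]; push_cast; linarith)).trans ?_
  refine (DT.kv_gt (by simp only [Cn.rt_v]; push_cast; linarith)).trans ?_
  refine (DT.kv_gt (by simp only [Cn.rt_v]; push_cast; linarith)).trans ?_
  refine (DT.kv_gt (by simp only [Cn.rt_v]; push_cast; linarith)).trans ?_
  simp only [DT.kv, dx15, xw15, xs15, xv15]
  push_cast
  ring1
theorem cR0 {t x : ℝ} (h2 : t < 29 / 400) : dx38.kv (1 - t) x = x2b.v x * t ^ 2 + x1b.v x * t + x0b.v x + ((0 + 0 * (1 - x)) + (0 + 0 * (1 - x)) * t + (0 + 0 * (1 - x)) * t ^ 2) - 1 / 2 := by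
  refine (DT.kv_gt (by simp only [Cn.rt_v]; push_cast; linarith)).trans ?_
  refine (DT.kv_gt (by simp only [Cn.rt_v]; push_cast; linarith)).trans ?_
  refine (DT.kv_gt (by simp only [Cn.rt_v]; push_cast; linarith)).trans ?_
  refine (DT.kv_gt (by simp only [Cn.rt_v]; push_cast; linarith)).trans ?_
  simp only [DT.kv, dx23, xw23, xs23, xv23]
  push_cast
  ring1
theorem cR1 {t x : ℝ} (h1 : 29 / 400 ≤ t) (h2 : t < 9 / 100) : dx38.kv (1 - t) x = x2b.v x * t ^ 2 + x1b.v x * t + x0b.v x + ((4017457 / 487350000 + -(10918703 / 9747000) * (1 - x)) + (-(277066 / 1218375) + 1506028 / 48735 * (1 - x)) * t + (76432 / 48735 + -(2077280 / 9747) * (1 - x)) * t ^ 2) - 1 / 2 := by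
  refine (DT.kv_gt (by simp only [Cn.rt_v]; push_cast; linarith)).trans ?_
  refine (DT.kv_gt (by simp only [Cn.rt_v]; push_cast; linarith)).trans ?_
  refine (DT.kv_gt (by simp only [Cn.rt_v]; push_cast; linarith)).trans ?_
  refine (DT.kv_le (by simp only [Cn.rt_v]; push_cast; linarith)).trans ?_
  simp only [DT.kv, dx22, xw22, xs22, xv22]
  push_cast
  ring1
theorem cR2 {t x : ℝ} (h1 : 9 / 100 ≤ t) (h2 : t < 3 / 25) : dx38.kv (1 - t) x = x2b.v x * t ^ 2 + x1b.v x * t + x0b.v x + ((-(15114419669 / 819235350000) + 35292660907 / 16384707000 * (1 - x)) + (749127881 / 2048088375 + -(3429144782 / 81923535) * (1 - x)) * t + (-(141490214 / 81923535) + 3131178820 / 16384707 * (1 - x)) * t ^ 2) - 1 / 2 := by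
  refine (DT.kv_gt (by simp only [Cn.rt_v]; push_cast; linarith)).trans ?_
  refine (DT.kv_gt (by simp only [Cn.rt_v]; push_cast; linarith)).trans ?_
  refine (DT.kv_le (by simp only [Cn.rt_v]; push_cast; linarith)).trans ?_
  refine (DT.kv_gt (by simp only [Cn.rt_v]; push_cast; linarith)).trans ?_
  simp only [DT.kv, dx21, xw21, xs21, xv21]
  push_cast
  ring1
theorem cR3 {t x : ℝ} (h1 : 3 / 25 ≤ t) (h2 : t < 9 / 50) : dx38.kv (1 - t) x = x2b.v x * t ^ 2 + x1b.v x * t + x0b.v x + ((-(6096748961 / 819235350000) + -(7178133569 / 16384707000) * (1 - x)) + (746783203 / 4096176750 + 110088091 / 81923535 * (1 - x)) * t + (-(315470003 / 327694140) + 363636185 / 32769414 * (1 - x)) * t ^ 2) - 1 / 2 := by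
  refine (DT.kv_gt (by simp only [Cn.rt_v]; push_cast; linarith)).trans ?_
  refine (DT.kv_gt (by simp only [Cn.rt_v]; push_cast; linarith)).trans ?_
  refine (DT.kv_le (by simp only [Cn.rt_v]; push_cast; linarith)).trans ?_
  refine (DT.kv_le (by simp only [Cn.rt_v]; push_cast; linarith)).trans ?_
  simp only [DT.kv, dx20, xw20, xs20, xv20]
  push_cast
  ring1
theorem cR4 {t x : ℝ} (h1 : 9 / 50 ≤ t) (h2 : t < 1 / 4) : dx38.kv (1 - t) x = x2b.v x * t ^ 2 + x1b.v x * t + x0b.v x + ((-(38053747176739 / 419448499200000) + 7318483387369 / 4194484992000 * (1 - x)) + (929212571279 / 838896998400 + -(192195547949 / 8388969984) * (1 - x)) * t + (-(592782514483 / 167779399680) + 658281331325 / 8388969984 * (1 - x)) * t ^ 2) - 1 / 2 := by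
  refine (DT.kv_gt (by simp only [Cn.rt_v]; push_cast; linarith)).trans ?_
  refine (DT.kv_le (by simp only [Cn.rt_v]; push_cast; linarith)).trans ?_
  refine (DT.kv_gt (by simp only [Cn.rt_v]; push_cast; linarith)).trans ?_
  refine (DT.kv_gt (by simp only [Cn.rt_v]; push_cast; linarith)).trans ?_
  simp only [DT.kv, dx19, xw19, xs19, xv19]
  push_cast
  ring1
theorem cR5 {t x : ℝ} (h1 : 1 / 4 ≤ t) (h2 : t < 8 / 25) : dx38.kv (1 - t) x = x2b.v x * t ^ 2 + x1b.v x * t + x0b.v x + ((3040725753337 / 83889699840000 + -(34882230117143 / 4194484992000) * (1 - x)) + (9636819523027 / 104862124800000 + 60376983515399 / 1048621248000 * (1 - x)) * t + (-(157459567778179 / 104862124800000) + -(86517687602423 / 1048621248000) * (1 - x)) * t ^ 2) - 1 / 2 := by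
  refine (DT.kv_gt (by simp only [Cn.rt_v]; push_cast; linarith)).trans ?_
  refine (DT.kv_le (by simp only [Cn.rt_v]; push_cast; linarith)).trans ?_
  refine (DT.kv_gt (by simp only [Cn.rt_v]; push_cast; linarith)).trans ?_
  refine (DT.kv_le (by simp only [Cn.rt_v]; push_cast; linarith)).trans ?_
  simp only [DT.kv, dx18, xw18, xs18, xv18]
  push_cast
  ring1
theorem cR6 {t x : ℝ} (h1 : 8 / 25 ≤ t) (h2 : t < 2 / 5) : dx38.kv (1 - t) x = x2b.v x * t ^ 2 + x1b.v x * t + x0b.v x + ((38707658446301 / 419448499200000 + -(39941011351877 / 12583454976000) * (1 - x)) + (-(27088226851373 / 104862124800000) + 80028327109397 / 3145863744000 * (1 - x)) * t + (-(100076682818179 / 104862124800000) + -(101580213687269 / 3145863744000) * (1 - x)) * t ^ 2) - 1 / 2 := by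
  refine (DT.kv_gt (by simp only [Cn.rt_v]; push_cast; linarith)).trans ?_
  refine (DT.kv_le (by simp only [Cn.rt_v]; push_cast; linarith)).trans ?_
  refine (DT.kv_le (by simp only [Cn.rt_v]; push_cast; linarith)).trans ?_
  refine (DT.kv_gt (by simp only [Cn.rt_v]; push_cast; linarith)).trans ?_
  simp only [DT.kv, dx17, xw17, xs17, xv17]
  push_cast
  ring1
theorem cR7 {t x : ℝ} (h1 : 2 / 5 ≤ t) (h2 : t < 1 / 2) : dx38.kv (1 - t) x = x2b.v x * t ^ 2 + x1b.v x * t + x0b.v x + ((-(63637775358499 / 419448499200000) + 301523622876859 / 12583454976000 * (1 - x)) + (100843565404627 / 104862124800000 + -(346802465676523 / 3145863744000) * (1 - x)) * t + (-(259991423138179 / 104862124800000) + 431958277295131 / 3145863744000 * (1 - x)) * t ^ 2) - 1 / 2 := by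
  refine (DT.kv_gt (by simp only [Cn.rt_v]; push_cast; linarith)).trans ?_
  refine (DT.kv_le (by simp only [Cn.rt_v]; push_cast; linarith)).trans ?_
  refine (DT.kv_le (by simp only [Cn.rt_v]; push_cast; linarith)).trans ?_
  refine (DT.kv_le (by simp only [Cn.rt_v]; push_cast; linarith)).trans ?_
  simp only [DT.kv, dx16, xw16, xs16, xv16]
  push_cast
  ring1

theorem half_a {x : ℝ} (hx : 39 / 40 ≤ x) (hx' : x < 1) : x2a.v x * (1 / 2) ^ 2 + x1a.v x * (1 / 2) + x0a.v x = (85937 / 100000 + -(10723 / 500) * (1 - x)) := by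
  have h := iv hx hx'
  simp only [x2a_2, x2a, x1a, x0a, hh]
  push_cast
  generalize (1 / 2 - 167 / 50 * (h0 * (1 - x)))⁻¹ = I at *
  linear_combination ((85937 / 100000 + -(10723 / 500) * (1 - x))) * (I * (1 / 2 - 167 / 50 * (h0 * (1 - x))) + 1) * h

theorem half_b {x : ℝ} (hx : 39 / 40 ≤ x) (hx' : x < 1) : x2b.v x * (1 / 2) ^ 2 + x1b.v x * (1 / 2) + x0b.v x = (2661 / 12500 + -(8863 / 1000) * (1 - x)) := by
  have h := iv hx hx'
  simp only [x2b_2, x2b, x1b, x0b, hh]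
  push_cast
  generalize (1 / 2 - 167 / 50 * (h0 * (1 - x)))⁻¹ = I at *
  linear_combination ((2661 / 12500 + -(8863 / 1000) * (1 - x))) * (I * (1 / 2 - 167 / 50 * (h0 * (1 - x))) + 1) * h

theorem dL0 {t x : ℝ} (h2 : t ≤ 29 / 400) : dx38.kv t x = x2a.v x * t ^ 2 + x1a.v x * t + x0a.v x + ((0 + 0 * (1 - x)) + (0 + 0 * (1 - x)) * t + (0 + 0 * (1 - x)) * t ^ 2) - 1 := cL0 h2
theorem dL1 {t x : ℝ} (h1 : 29 / 400 ≤ t) (h2 : t ≤ 9 / 100) : dx38.kv t x = x2a.v x * t ^ 2 + x1a.v x * t + x0a.v x + ((453299 / 116964000 + -(37586813 / 29241000) * (1 - x)) + (-(15631 / 146205) + 5184388 / 146205 * (1 - x)) * t + (21560 / 29241 + -(7150880 / 29241) * (1 - x)) * t ^ 2) - 1 := by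
  rcases h1.eq_or_lt with h | h
  · subst h
    rw [cL0 (by norm_num)]
    ring1
  · exact cL1 h h2
theorem dL2 {t x : ℝ} (h1 : 9 / 100 ≤ t) (h2 : t ≤ 3 / 25) : dx38.kv t x = x2a.v x * t ^ 2 + x1a.v x * t + x0a.v x + ((-(117286915327 / 4915412100000) + 35353338563 / 9830824200 * (1 - x)) + (6260481439 / 12288530250 + -(17946168824 / 245770605) * (1 - x)) * t + (-(660373421 / 245770605) + 17602843000 / 49154121 * (1 - x)) * t ^ 2) - 1 := by
  rcases h1.eq_or_lt with h | h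
  · subst h
    rw [cL1 (by norm_num) (by norm_num)]
    ring1
  · exact cL2 h h2
theorem dL3 {t x : ℝ} (h1 : 3 / 25 ≤ t) (h2 : t ≤ 9 / 50) : dx38.kv t x = x2a.v x * t ^ 2 + x1a.v x * t + x0a.v x + ((38797386853 / 983082420000 + -(24409358269 / 9830824200) * (1 - x)) + (-(3354631147 / 6144265125) + 6954954856 / 245770605 * (1 - x)) * t + (1681754227 / 983082420 + -(3148093400 / 49154121) * (1 - x)) * t ^ 2) - 1 := by
  rcases h1.eq_or_lt with h | h
  · subst h
    rw [cL2 (by norm_num) (by norm_num)]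
    ring1
  · exact cL3 h h2
theorem dL4 {t x : ℝ} (h1 : 9 / 50 ≤ t) (h2 : t ≤ 1 / 4) : dx38.kv t x = x2a.v x * t ^ 2 + x1a.v x * t + x0a.v x + ((-(482312425913 / 2457706050000) + 119809535341819 / 12583454976000 * (1 - x)) + (101897593723 / 49154121000 + -(13222786883299 / 125834549760) * (1 - x)) * t + (-(10940340757 / 1966164840) + 7712467162295 / 25166909952 * (1 - x)) * t ^ 2) - 1 := by
  rcases h1.eq_or_lt with h | h
  · subst h
    rw [cL3 (by norm_num) (by norm_num)]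
    ring1
  · exact cL4 h h2
theorem dL5 {t x : ℝ} (h1 : 1 / 4 ≤ t) (h2 : t ≤ 8 / 25) : dx38.kv t x = x2a.v x * t ^ 2 + x1a.v x * t + x0a.v x + ((-(73427015909 / 614426512500) + -(107611246439429 / 12583454976000) * (1 - x)) + (1793022393967 / 1228853025000 + 124271891480021 / 3145863744000 * (1 - x)) * t + (-(5328878074909 / 1228853025000) + 54375268161883 / 3145863744000 * (1 - x)) * t ^ 2) - 1 := by
  rcases h1.eq_or_lt with h | h
  · subst h
    rw [cL4 (by norm_num) (by norm_num)]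
    ring1
  · exact cL5 h h2
theorem dL6 {t x : ℝ} (h1 : 8 / 25 ≤ t) (h2 : t ≤ 2 / 5) : dx38.kv t x = x2a.v x * t ^ 2 + x1a.v x * t + x0a.v x + ((1825990099 / 24577060500 + -(198962779728901 / 12583454976000) * (1 - x)) + (304562789167 / 1228853025000 + 267008662244821 / 3145863744000 * (1 - x)) * t + (-(3003159942409 / 1228853025000) + -(168650936158117 / 3145863744000) * (1 - x)) * t ^ 2) - 1 := by
  rcases h1.eq_or_lt with h | h
  · subst h
    rw [cL5 (by norm_num) (by norm_num)]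
    ring1
  · exact cL6 h h2
theorem dL7 {t x : ℝ} (h1 : 2 / 5 ≤ t) (h2 : t ≤ 1 / 2) : dx38.kv t x = x2a.v x * t ^ 2 + x1a.v x * t + x0a.v x + ((-(194812207457 / 614426512500) + 310012807140347 / 12583454976000 * (1 - x)) + (2709182388487 / 1228853025000 + -(369210821341739 / 3145863744000) * (1 - x)) * t + (-(6008934441559 / 1228853025000) + 626623418325083 / 3145863744000 * (1 - x)) * t ^ 2) - 1 := by
  rcases h1.eq_or_lt with h | h
  · subst h
    rw [cL6 (by norm_num) (by norm_num)]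
    ring1
  · exact cL7 h h2
theorem dR0 {t x : ℝ} (h2 : t ≤ 29 / 400) : dx38.kv (1 - t) x = x2b.v x * t ^ 2 + x1b.v x * t + x0b.v x + ((0 + 0 * (1 - x)) + (0 + 0 * (1 - x)) * t + (0 + 0 * (1 - x)) * t ^ 2) - 1 / 2 := by
  rcases h2.eq_or_lt with h | h
  · subst h
    rw [cR1 le_rfl (by norm_num)]
    ring1
  · exact cR0 h
theorem dR1 {t x : ℝ} (h1 : 29 / 400 ≤ t) (h2 : t ≤ 9 / 100) : dx38.kv (1 - t) x = x2b.v x * t ^ 2 + x1b.v x * t + x0b.v x + ((4017457 / 487350000 + -(10918703 / 9747000) * (1 - x)) + (-(277066 / 1218375) + 1506028 / 48735 * (1 - x)) * t + (76432 / 48735 + -(2077280 / 9747) * (1 - x)) * t ^ 2) - 1 / 2 := by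
  rcases h2.eq_or_lt with h | h
  · subst h
    rw [cR2 le_rfl (by norm_num)]
    ring1
  · exact cR1 h1 h
theorem dR2 {t x : ℝ} (h1 : 9 / 100 ≤ t) (h2 : t ≤ 3 / 25) : dx38.kv (1 - t) x = x2b.v x * t ^ 2 + x1b.v x * t + x0b.v x + ((-(15114419669 / 819235350000) + 35292660907 / 16384707000 * (1 - x)) + (749127881 / 2048088375 + -(3429144782 / 81923535) * (1 - x)) * t + (-(141490214 / 81923535) + 3131178820 / 16384707 * (1 - x)) * t ^ 2) - 1 / 2 := by
  rcases h2.eq_or_lt with h | h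
  · subst h
    rw [cR3 le_rfl (by norm_num)]
    ring1
  · exact cR2 h1 h
theorem dR3 {t x : ℝ} (h1 : 3 / 25 ≤ t) (h2 : t ≤ 9 / 50) : dx38.kv (1 - t) x = x2b.v x * t ^ 2 + x1b.v x * t + x0b.v x + ((-(6096748961 / 819235350000) + -(7178133569 / 16384707000) * (1 - x)) + (746783203 / 4096176750 + 110088091 / 81923535 * (1 - x)) * t + (-(315470003 / 327694140) + 363636185 / 32769414 * (1 - x)) * t ^ 2) - 1 / 2 := by
  rcases h2.eq_or_lt with h | h
  · subst h
    rw [cR4 le_rfl (by norm_num)]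
    ring1
  · exact cR3 h1 h
theorem dR4 {t x : ℝ} (h1 : 9 / 50 ≤ t) (h2 : t ≤ 1 / 4) : dx38.kv (1 - t) x = x2b.v x * t ^ 2 + x1b.v x * t + x0b.v x + ((-(38053747176739 / 419448499200000) + 7318483387369 / 4194484992000 * (1 - x)) + (929212571279 / 838896998400 + -(192195547949 / 8388969984) * (1 - x)) * t + (-(592782514483 / 167779399680) + 658281331325 / 8388969984 * (1 - x)) * t ^ 2) - 1 / 2 := by
  rcases h2.eq_or_lt with h | h
  · subst h
    rw [cR5 le_rfl (by norm_num)]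
    ring1
  · exact cR4 h1 h
theorem dR5 {t x : ℝ} (h1 : 1 / 4 ≤ t) (h2 : t ≤ 8 / 25) : dx38.kv (1 - t) x = x2b.v x * t ^ 2 + x1b.v x * t + x0b.v x + ((3040725753337 / 83889699840000 + -(34882230117143 / 4194484992000) * (1 - x)) + (9636819523027 / 104862124800000 + 60376983515399 / 1048621248000 * (1 - x)) * t + (-(157459567778179 / 104862124800000) + -(86517687602423 / 1048621248000) * (1 - x)) * t ^ 2) - 1 / 2 := by
  rcases h2.eq_or_lt with h | h
  · subst h
    rw [cR6 le_rfl (by norm_num)]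
    ring1
  · exact cR5 h1 h
theorem dR6 {t x : ℝ} (h1 : 8 / 25 ≤ t) (h2 : t ≤ 2 / 5) : dx38.kv (1 - t) x = x2b.v x * t ^ 2 + x1b.v x * t + x0b.v x + ((38707658446301 / 419448499200000 + -(39941011351877 / 12583454976000) * (1 - x)) + (-(27088226851373 / 104862124800000) + 80028327109397 / 3145863744000 * (1 - x)) * t + (-(100076682818179 / 104862124800000) + -(101580213687269 / 3145863744000) * (1 - x)) * t ^ 2) - 1 / 2 := by
  rcases h2.eq_or_lt with h | h
  · subst h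
    rw [cR7 le_rfl (by norm_num)]
    ring1
  · exact cR6 h1 h
theorem dR7 {t x : ℝ} (hx : 39 / 40 ≤ x) (hx' : x < 1) (h1 : 2 / 5 ≤ t) (h2 : t ≤ 1 / 2) : dx38.kv (1 - t) x = x2b.v x * t ^ 2 + x1b.v x * t + x0b.v x + ((-(63637775358499 / 419448499200000) + 301523622876859 / 12583454976000 * (1 - x)) + (100843565404627 / 104862124800000 + -(346802465676523 / 3145863744000) * (1 - x)) * t + (-(259991423138179 / 104862124800000) + 431958277295131 / 3145863744000 * (1 - x)) * t ^ 2) - 1 / 2 := by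
  rcases h2.eq_or_lt with h | h
  · subst h
    rw [show (1 : ℝ) - 1 / 2 = 1 / 2 by norm_num, cL7 (by norm_num) (by norm_num)]
    linear_combination half_a hx hx' - half_b hx hx'
  · exact cR7 h1 h

theorem alg15 (y x : ℝ) : alg_15.v y x = x2a.v x * (h0 * y) ^ 2 + x1a.v x * (h0 * y) + x0a.v x := by
  simp only [alg_15, alg_7, alg_3, k167_50g, x2a_2, x2a, x1a, x0a, hh]
  push_cast
  ring1

theorem alglo {y x : ℝ} (h : y ≤ 167 / 50 * (1 - x)) : alg.v y x = 0 := by
  simp only [alg_3, alg_5, alg_7, alg, alg15, hh]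
  push_cast
  rw [if_pos (by linarith)]
theorem algc0 {y x : ℝ} (h0y : 167 / 50 * (1 - x) < y) (h2 : h0 * y ≤ 29 / 400) : alg.v y x = x2a.v x * (h0 * y) ^ 2 + x1a.v x * (h0 * y) + x0a.v x + ((0 + 0 * (1 - x)) + (0 + 0 * (1 - x)) * (h0 * y) + (0 + 0 * (1 - x)) * (h0 * y) ^ 2) := by
  simp only [alg_3, alg_5, alg_7, alg, alg15, hh]
  push_cast
  rw [if_neg (by linarith)]
  rw [if_pos (by linarith)]
  ring1
theorem algc1 {y x : ℝ} (h0y : 167 / 50 * (1 - x) < y) (h1 : 29 / 400 < h0 * y) (h2 : h0 * y ≤ 9 / 100) : alg.v y x = x2a.v x * (h0 * y) ^ 2 + x1a.v x * (h0 * y) + x0a.v x + ((453299 / 116964000 + -(37586813 / 29241000) * (1 - x)) + (-(15631 / 146205) + 5184388 / 146205 * (1 - x)) * (h0 * y) + (21560 / 29241 + -(7150880 / 29241) * (1 - x)) * (h0 * y) ^ 2) := by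
  simp only [alg_3, alg_5, alg_7, alg, alg15, hh]
  push_cast
  rw [if_neg (by linarith)]
  rw [if_neg (by linarith)]
  rw [if_pos (by linarith)]
  ring1
theorem algc2 {y x : ℝ} (h0y : 167 / 50 * (1 - x) < y) (h1 : 9 / 100 < h0 * y) (h2 : h0 * y ≤ 3 / 25) : alg.v y x = x2a.v x * (h0 * y) ^ 2 + x1a.v x * (h0 * y) + x0a.v x + ((-(117286915327 / 4915412100000) + 35353338563 / 9830824200 * (1 - x)) + (6260481439 / 12288530250 + -(17946168824 / 245770605) * (1 - x)) * (h0 * y) + (-(660373421 / 245770605) + 17602843000 / 49154121 * (1 - x)) * (h0 * y) ^ 2) := by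
  simp only [alg_3, alg_5, alg_7, alg, alg15, hh]
  push_cast
  rw [if_neg (by linarith)]
  rw [if_neg (by linarith)]
  rw [if_neg (by linarith)]
  rw [if_pos (by linarith)]
  ring1
theorem algc3 {y x : ℝ} (h0y : 167 / 50 * (1 - x) < y) (h1 : 3 / 25 < h0 * y) (h2 : h0 * y ≤ 9 / 50) : alg.v y x = x2a.v x * (h0 * y) ^ 2 + x1a.v x * (h0 * y) + x0a.v x + ((38797386853 / 983082420000 + -(24409358269 / 9830824200) * (1 - x)) + (-(3354631147 / 6144265125) + 6954954856 / 245770605 * (1 - x)) * (h0 * y) + (1681754227 / 983082420 + -(3148093400 / 49154121) * (1 - x)) * (h0 * y) ^ 2) := by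
  simp only [alg_3, alg_5, alg_7, alg, alg15, hh]
  push_cast
  rw [if_neg (by linarith)]
  rw [if_neg (by linarith)]
  rw [if_neg (by linarith)]
  rw [if_neg (by linarith)]
  rw [if_pos (by linarith)]
  ring1
theorem algc4 {y x : ℝ} (h0y : 167 / 50 * (1 - x) < y) (h1 : 9 / 50 < h0 * y) (h2 : h0 * y ≤ 1 / 4) : alg.v y x = x2a.v x * (h0 * y) ^ 2 + x1a.v x * (h0 * y) + x0a.v x + ((-(482312425913 / 2457706050000) + 119809535341819 / 12583454976000 * (1 - x)) + (101897593723 / 49154121000 + -(13222786883299 / 125834549760) * (1 - x)) * (h0 * y) + (-(10940340757 / 1966164840) + 7712467162295 / 25166909952 * (1 - x)) * (h0 * y) ^ 2) := by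
  simp only [alg_3, alg_5, alg_7, alg, alg15, hh]
  push_cast
  rw [if_neg (by linarith)]
  rw [if_neg (by linarith)]
  rw [if_neg (by linarith)]
  rw [if_neg (by linarith)]
  rw [if_neg (by linarith)]
  rw [if_pos (by linarith)]
  ring1
theorem algc5 {y x : ℝ} (h0y : 167 / 50 * (1 - x) < y) (h1 : 1 / 4 < h0 * y) (h2 : h0 * y ≤ 8 / 25) : alg.v y x = x2a.v x * (h0 * y) ^ 2 + x1a.v x * (h0 * y) + x0a.v x + ((-(73427015909 / 614426512500) + -(107611246439429 / 12583454976000) * (1 - x)) + (1793022393967 / 1228853025000 + 124271891480021 / 3145863744000 * (1 - x)) * (h0 * y) + (-(5328878074909 / 1228853025000) + 54375268161883 / 3145863744000 * (1 - x)) * (h0 * y) ^ 2) := by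
  simp only [alg_3, alg_5, alg_7, alg, alg15, hh]
  push_cast
  rw [if_neg (by linarith)]
  rw [if_neg (by linarith)]
  rw [if_neg (by linarith)]
  rw [if_neg (by linarith)]
  rw [if_neg (by linarith)]
  rw [if_neg (by linarith)]
  rw [if_pos (by linarith)]
  ring1
theorem algc6 {y x : ℝ} (h0y : 167 / 50 * (1 - x) < y) (h1 : 8 / 25 < h0 * y) (h2 : h0 * y ≤ 2 / 5) : alg.v y x = x2a.v x * (h0 * y) ^ 2 + x1a.v x * (h0 * y) + x0a.v x + ((1825990099 / 24577060500 + -(198962779728901 / 12583454976000) * (1 - x)) + (304562789167 / 1228853025000 + 267008662244821 / 3145863744000 * (1 - x)) * (h0 * y) + (-(3003159942409 / 1228853025000) + -(168650936158117 / 3145863744000) * (1 - x)) * (h0 * y) ^ 2) := by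
  simp only [alg_3, alg_5, alg_7, alg, alg15, hh]
  push_cast
  rw [if_neg (by linarith)]
  rw [if_neg (by linarith)]
  rw [if_neg (by linarith)]
  rw [if_neg (by linarith)]
  rw [if_neg (by linarith)]
  rw [if_neg (by linarith)]
  rw [if_neg (by linarith)]
  rw [if_pos (by linarith)]
  ring1
theorem algc7 {y x : ℝ} (h0y : 167 / 50 * (1 - x) < y) (h1 : 2 / 5 < h0 * y)  : alg.v y x = x2a.v x * (h0 * y) ^ 2 + x1a.v x * (h0 * y) + x0a.v x + ((-(194812207457 / 614426512500) + 310012807140347 / 12583454976000 * (1 - x)) + (2709182388487 / 1228853025000 + -(369210821341739 / 3145863744000) * (1 - x)) * (h0 * y) + (-(6008934441559 / 1228853025000) + 626623418325083 / 3145863744000 * (1 - x)) * (h0 * y) ^ 2) := by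
  simp only [alg_3, alg_5, alg_7, alg, alg15, hh]
  push_cast
  rw [if_neg (by linarith)]
  rw [if_neg (by linarith)]
  rw [if_neg (by linarith)]
  rw [if_neg (by linarith)]
  rw [if_neg (by linarith)]
  rw [if_neg (by linarith)]
  rw [if_neg (by linarith)]
  rw [if_neg (by linarith)]
  ring1

theorem beg15 (y x : ℝ) : beg_15.v y x = x2b.v x * (h0 * y) ^ 2 + x1b.v x * (h0 * y) + x0b.v x := by
  simp only [beg_15, beg_7, beg_3, k167_50g, x2b_2, x2b, x1b, x0b, hh]
  push_cast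
  ring1

theorem beglo {y x : ℝ} (h : y ≤ 167 / 50 * (1 - x)) : beg.v y x = 0 := by
  simp only [beg_3, beg_5, beg_7, beg, beg15, hh]
  push_cast
  rw [if_pos (by linarith)]
theorem begc0 {y x : ℝ} (h0y : 167 / 50 * (1 - x) < y) (h2 : h0 * y ≤ 29 / 400) : beg.v y x = x2b.v x * (h0 * y) ^ 2 + x1b.v x * (h0 * y) + x0b.v x + ((0 + 0 * (1 - x)) + (0 + 0 * (1 - x)) * (h0 * y) + (0 + 0 * (1 - x)) * (h0 * y) ^ 2) := by
  simp only [beg_3, beg_5, beg_7, beg, beg15, hh]
  push_cast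
  rw [if_neg (by linarith)]
  rw [if_pos (by linarith)]
  ring1
theorem begc1 {y x : ℝ} (h0y : 167 / 50 * (1 - x) < y) (h1 : 29 / 400 < h0 * y) (h2 : h0 * y ≤ 9 / 100) : beg.v y x = x2b.v x * (h0 * y) ^ 2 + x1b.v x * (h0 * y) + x0b.v x + ((4017457 / 487350000 + -(10918703 / 9747000) * (1 - x)) + (-(277066 / 1218375) + 1506028 / 48735 * (1 - x)) * (h0 * y) + (76432 / 48735 + -(2077280 / 9747) * (1 - x)) * (h0 * y) ^ 2) := by
  simp only [beg_3, beg_5, beg_7, beg, beg15, hh]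
  push_cast
  rw [if_neg (by linarith)]
  rw [if_neg (by linarith)]
  rw [if_pos (by linarith)]
  ring1
theorem begc2 {y x : ℝ} (h0y : 167 / 50 * (1 - x) < y) (h1 : 9 / 100 < h0 * y) (h2 : h0 * y ≤ 3 / 25) : beg.v y x = x2b.v x * (h0 * y) ^ 2 + x1b.v x * (h0 * y) + x0b.v x + ((-(15114419669 / 819235350000) + 35292660907 / 16384707000 * (1 - x)) + (749127881 / 2048088375 + -(3429144782 / 81923535) * (1 - x)) * (h0 * y) + (-(141490214 / 81923535) + 3131178820 / 16384707 * (1 - x)) * (h0 * y) ^ 2) := by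
  simp only [beg_3, beg_5, beg_7, beg, beg15, hh]
  push_cast
  rw [if_neg (by linarith)]
  rw [if_neg (by linarith)]
  rw [if_neg (by linarith)]
  rw [if_pos (by linarith)]
  ring1
theorem begc3 {y x : ℝ} (h0y : 167 / 50 * (1 - x) < y) (h1 : 3 / 25 < h0 * y) (h2 : h0 * y ≤ 9 / 50) : beg.v y x = x2b.v x * (h0 * y) ^ 2 + x1b.v x * (h0 * y) + x0b.v x + ((-(6096748961 / 819235350000) + -(7178133569 / 16384707000) * (1 - x)) + (746783203 / 4096176750 + 110088091 / 81923535 * (1 - x)) * (h0 * y) + (-(315470003 / 327694140) + 363636185 / 32769414 * (1 - x)) * (h0 * y) ^ 2) := by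
  simp only [beg_3, beg_5, beg_7, beg, beg15, hh]
  push_cast
  rw [if_neg (by linarith)]
  rw [if_neg (by linarith)]
  rw [if_neg (by linarith)]
  rw [if_neg (by linarith)]
  rw [if_pos (by linarith)]
  ring1
theorem begc4 {y x : ℝ} (h0y : 167 / 50 * (1 - x) < y) (h1 : 9 / 50 < h0 * y) (h2 : h0 * y ≤ 1 / 4) : beg.v y x = x2b.v x * (h0 * y) ^ 2 + x1b.v x * (h0 * y) + x0b.v x + ((-(38053747176739 / 419448499200000) + 7318483387369 / 4194484992000 * (1 - x)) + (929212571279 / 838896998400 + -(192195547949 / 8388969984) * (1 - x)) * (h0 * y) + (-(592782514483 / 167779399680) + 658281331325 / 8388969984 * (1 - x)) * (h0 * y) ^ 2) := by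
  simp only [beg_3, beg_5, beg_7, beg, beg15, hh]
  push_cast
  rw [if_neg (by linarith)]
  rw [if_neg (by linarith)]
  rw [if_neg (by linarith)]
  rw [if_neg (by linarith)]
  rw [if_neg (by linarith)]
  rw [if_pos (by linarith)]
  ring1
theorem begc5 {y x : ℝ} (h0y : 167 / 50 * (1 - x) < y) (h1 : 1 / 4 < h0 * y) (h2 : h0 * y ≤ 8 / 25) : beg.v y x = x2b.v x * (h0 * y) ^ 2 + x1b.v x * (h0 * y) + x0b.v x + ((3040725753337 / 83889699840000 + -(34882230117143 / 4194484992000) * (1 - x)) + (9636819523027 / 104862124800000 + 60376983515399 / 1048621248000 * (1 - x)) * (h0 * y) + (-(157459567778179 / 104862124800000) + -(86517687602423 / 1048621248000) * (1 - x)) * (h0 * y) ^ 2) := by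
  simp only [beg_3, beg_5, beg_7, beg, beg15, hh]
  push_cast
  rw [if_neg (by linarith)]
  rw [if_neg (by linarith)]
  rw [if_neg (by linarith)]
  rw [if_neg (by linarith)]
  rw [if_neg (by linarith)]
  rw [if_neg (by linarith)]
  rw [if_pos (by linarith)]
  ring1
theorem begc6 {y x : ℝ} (h0y : 167 / 50 * (1 - x) < y) (h1 : 8 / 25 < h0 * y) (h2 : h0 * y ≤ 2 / 5) : beg.v y x = x2b.v x * (h0 * y) ^ 2 + x1b.v x * (h0 * y) + x0b.v x + ((38707658446301 / 419448499200000 + -(39941011351877 / 12583454976000) * (1 - x)) + (-(27088226851373 / 104862124800000) + 80028327109397 / 3145863744000 * (1 - x)) * (h0 * y) + (-(100076682818179 / 104862124800000) + -(101580213687269 / 3145863744000) * (1 - x)) * (h0 * y) ^ 2) := by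
  simp only [beg_3, beg_5, beg_7, beg, beg15, hh]
  push_cast
  rw [if_neg (by linarith)]
  rw [if_neg (by linarith)]
  rw [if_neg (by linarith)]
  rw [if_neg (by linarith)]
  rw [if_neg (by linarith)]
  rw [if_neg (by linarith)]
  rw [if_neg (by linarith)]
  rw [if_pos (by linarith)]
  ring1
theorem begc7 {y x : ℝ} (h0y : 167 / 50 * (1 - x) < y) (h1 : 2 / 5 < h0 * y)  : beg.v y x = x2b.v x * (h0 * y) ^ 2 + x1b.v x * (h0 * y) + x0b.v x + ((-(63637775358499 / 419448499200000) + 301523622876859 / 12583454976000 * (1 - x)) + (100843565404627 / 104862124800000 + -(346802465676523 / 3145863744000) * (1 - x)) * (h0 * y) + (-(259991423138179 / 104862124800000) + 431958277295131 / 3145863744000 * (1 - x)) * (h0 * y) ^ 2) := by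
  simp only [beg_3, beg_5, beg_7, beg, beg15, hh]
  push_cast
  rw [if_neg (by linarith)]
  rw [if_neg (by linarith)]
  rw [if_neg (by linarith)]
  rw [if_neg (by linarith)]
  rw [if_neg (by linarith)]
  rw [if_neg (by linarith)]
  rw [if_neg (by linarith)]
  rw [if_neg (by linarith)]
  ring1

theorem clr_mid {x t : ℝ} (hx : 39 / 40 ≤ x) (hx' : x < 1) (h1 : e3R x ≤ t) (h2 : t ≤ 1 - e3R x) :
    clR (e3R x) t = t := by
  unfold clR
  rw [min_eq_left (by linarith), max_eq_left h1]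

theorem x0z {x : ℝ} (hx : 39 / 40 ≤ x) (hx' : x < 1) :
    x2a.v x * e3R x ^ 2 + x1a.v x * e3R x + x0a.v x = 0 ∧
      x2b.v x * e3R x ^ 2 + x1b.v x * e3R x + x0b.v x = 0 := by
  unfold e3R
  constructor
  · simp only [x2a_2, x2a, x1a, x0a, hh]
    push_cast
    ring1
  · simp only [x2b_2, x2b, x1b, x0b, hh]
    push_cast
    ring1

theorem alE {x : ℝ} (hx : 39 / 40 ≤ x) (hx' : x < 1) {y : ℝ} (h : h0 * y ≤ 1 / 2) :
    alg.v y x = dx38.kv (clR (e3R x) (h0 * y)) x + 1 := by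
  obtain ⟨p1, p2⟩ := e3s hx hx'
  have hp := h0_pos
  have e3 : e3R x = h0 * (167 / 50 * (1 - x)) := by
    unfold e3R
    ring
  rcases le_or_gt y (167 / 50 * (1 - x)) with g | g
  · have h1 : h0 * y ≤ e3R x := by
      rw [e3]
      exact mul_le_mul_of_nonneg_left g hp.le
    have h2 : clR (e3R x) (h0 * y) = e3R x := by
      unfold clR
      rw [min_eq_left (by linarith), max_eq_right h1]
    rw [alglo g, h2, dL0 p2, (x0z hx hx').1]
    ring
  have h1 : e3R x < h0 * y := by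
    rw [e3]
    exact mul_lt_mul_of_pos_left g hp
  rw [clr_mid hx hx' h1.le (by linarith)]
  rcases le_or_gt (h0 * y) (29 / 400) with g0 | g0
  · rw [algc0 (by linarith) g0, dL0 g0]
    ring1
  rcases le_or_gt (h0 * y) (9 / 100) with g1 | g1
  · rw [algc1 (by linarith) g0 g1, dL1 g0.le g1]
    ring1
  rcases le_or_gt (h0 * y) (3 / 25) with g2 | g2
  · rw [algc2 (by linarith) g1 g2, dL2 g1.le g2]
    ring1
  rcases le_or_gt (h0 * y) (9 / 50) with g3 | g3
  · rw [algc3 (by linarith) g2 g3, dL3 g2.le g3]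
    ring1
  rcases le_or_gt (h0 * y) (1 / 4) with g4 | g4
  · rw [algc4 (by linarith) g3 g4, dL4 g3.le g4]
    ring1
  rcases le_or_gt (h0 * y) (8 / 25) with g5 | g5
  · rw [algc5 (by linarith) g4 g5, dL5 g4.le g5]
    ring1
  rcases le_or_gt (h0 * y) (2 / 5) with g6 | g6
  · rw [algc6 (by linarith) g5 g6, dL6 g5.le g6]
    ring1
  rw [algc7 (by linarith) g6, dL7 g6.le h]
  ring1

theorem beE {x : ℝ} (hx : 39 / 40 ≤ x) (hx' : x < 1) {y : ℝ} (h : h0 * y ≤ 1 / 2) :
    beg.v y x = dx38.kv (clR (e3R x) (1 - h0 * y)) x + 1 / 2 := by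
  obtain ⟨p1, p2⟩ := e3s hx hx'
  have hp := h0_pos
  have e3 : e3R x = h0 * (167 / 50 * (1 - x)) := by
    unfold e3R
    ring
  rcases le_or_gt y (167 / 50 * (1 - x)) with g | g
  · have h1 : h0 * y ≤ e3R x := by
      rw [e3]
      exact mul_le_mul_of_nonneg_left g hp.le
    have h2 : clR (e3R x) (1 - h0 * y) = 1 - e3R x := by
      unfold clR
      rw [min_eq_right (by linarith), max_eq_left (by linarith)]
    rw [beglo g, h2, dR0 p2, (x0z hx hx').2]
    ring
  have h1 : e3R x < h0 * y := by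
    rw [e3]
    exact mul_lt_mul_of_pos_left g hp
  rw [clr_mid hx hx' (by linarith) (by linarith)]
  rcases le_or_gt (h0 * y) (29 / 400) with g0 | g0
  · rw [begc0 (by linarith) g0, dR0 g0]
    ring1
  rcases le_or_gt (h0 * y) (9 / 100) with g1 | g1
  · rw [begc1 (by linarith) g0 g1, dR1 g0.le g1]
    ring1
  rcases le_or_gt (h0 * y) (3 / 25) with g2 | g2
  · rw [begc2 (by linarith) g1 g2, dR2 g1.le g2]
    ring1
  rcases le_or_gt (h0 * y) (9 / 50) with g3 | g3
  · rw [begc3 (by linarith) g2 g3, dR3 g2.le g3]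
    ring1
  rcases le_or_gt (h0 * y) (1 / 4) with g4 | g4
  · rw [begc4 (by linarith) g3 g4, dR4 g3.le g4]
    ring1
  rcases le_or_gt (h0 * y) (8 / 25) with g5 | g5
  · rw [begc5 (by linarith) g4 g5, dR5 g4.le g5]
    ring1
  rcases le_or_gt (h0 * y) (2 / 5) with g6 | g6
  · rw [begc6 (by linarith) g5 g6, dR6 g5.le g6]
    ring1
  rw [begc7 (by linarith) g6, dR7 hx hx' g6.le h]
  ring1

theorem j_dx24 {x : ℝ} (hx : 39 / 40 ≤ x) (hx' : x < 1) : dx8.kv (Cn.rt 29 400).v x = dx9.kv (Cn.rt 29 400).v x := by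
  have el : dx8.kv (Cn.rt 29 400).v x = dx8.kv (Cn.rt 29 400).v x := by
    rfl
  have er : dx9.kv (Cn.rt 29 400).v x = dx9.kv (Cn.rt 29 400).v x := by
    rfl
  rw [el, er]
  simp only [DT.kv, dx8, xw8, xs8, xv8, dx9, xw9, xs9, xv9, Cn.rt_v]
  push_cast
  ring1
theorem j_dx25 {x : ℝ} (hx : 39 / 40 ≤ x) (hx' : x < 1) : dx10.kv (Cn.rt 3 25).v x = dx11.kv (Cn.rt 3 25).v x := by
  have el : dx10.kv (Cn.rt 3 25).v x = dx10.kv (Cn.rt 3 25).v x := by
    rfl
  have er : dx11.kv (Cn.rt 3 25).v x = dx11.kv (Cn.rt 3 25).v x := by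
    rfl
  rw [el, er]
  simp only [DT.kv, dx10, xw10, xs10, xv10, dx11, xw11, xs11, xv11, Cn.rt_v]
  push_cast
  ring1
theorem j_dx26 {x : ℝ} (hx : 39 / 40 ≤ x) (hx' : x < 1) : dx24.kv (Cn.rt 9 100).v x = dx25.kv (Cn.rt 9 100).v x := by
  have el : dx24.kv (Cn.rt 9 100).v x = dx9.kv (Cn.rt 9 100).v x := by
    refine (DT.kv_gt (by simp only [Cn.rt_v]; norm_num)).trans ?_
    rfl
  have er : dx25.kv (Cn.rt 9 100).v x = dx10.kv (Cn.rt 9 100).v x := by
    refine (DT.kv_le (by simp only [Cn.rt_v]; norm_num)).trans ?_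
    rfl
  rw [el, er]
  simp only [DT.kv, dx9, xw9, xs9, xv9, dx10, xw10, xs10, xv10, Cn.rt_v]
  push_cast
  ring1
theorem j_dx27 {x : ℝ} (hx : 39 / 40 ≤ x) (hx' : x < 1) : dx12.kv (Cn.rt 1 4).v x = dx13.kv (Cn.rt 1 4).v x := by
  have el : dx12.kv (Cn.rt 1 4).v x = dx12.kv (Cn.rt 1 4).v x := by
    rfl
  have er : dx13.kv (Cn.rt 1 4).v x = dx13.kv (Cn.rt 1 4).v x := by
    rfl
  rw [el, er]
  simp only [DT.kv, dx12, xw12, xs12, xv12, dx13, xw13, xs13, xv13, Cn.rt_v]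
  push_cast
  ring1
theorem j_dx28 {x : ℝ} (hx : 39 / 40 ≤ x) (hx' : x < 1) : dx14.kv (Cn.rt 2 5).v x = dx15.kv (Cn.rt 2 5).v x := by
  have el : dx14.kv (Cn.rt 2 5).v x = dx14.kv (Cn.rt 2 5).v x := by
    rfl
  have er : dx15.kv (Cn.rt 2 5).v x = dx15.kv (Cn.rt 2 5).v x := by
    rfl
  rw [el, er]
  simp only [DT.kv, dx14, xw14, xs14, xv14, dx15, xw15, xs15, xv15, Cn.rt_v]
  push_cast
  ring1
theorem j_dx29 {x : ℝ} (hx : 39 / 40 ≤ x) (hx' : x < 1) : dx27.kv (Cn.rt 8 25).v x = dx28.kv (Cn.rt 8 25).v x := by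
  have el : dx27.kv (Cn.rt 8 25).v x = dx13.kv (Cn.rt 8 25).v x := by
    refine (DT.kv_gt (by simp only [Cn.rt_v]; norm_num)).trans ?_
    rfl
  have er : dx28.kv (Cn.rt 8 25).v x = dx14.kv (Cn.rt 8 25).v x := by
    refine (DT.kv_le (by simp only [Cn.rt_v]; norm_num)).trans ?_
    rfl
  rw [el, er]
  simp only [DT.kv, dx13, xw13, xs13, xv13, dx14, xw14, xs14, xv14, Cn.rt_v]
  push_cast
  ring1
theorem j_dx30 {x : ℝ} (hx : 39 / 40 ≤ x) (hx' : x < 1) : dx26.kv (Cn.rt 9 50).v x = dx29.kv (Cn.rt 9 50).v x := by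
  have el : dx26.kv (Cn.rt 9 50).v x = dx11.kv (Cn.rt 9 50).v x := by
    refine (DT.kv_gt (by simp only [Cn.rt_v]; norm_num)).trans ?_
    refine (DT.kv_gt (by simp only [Cn.rt_v]; norm_num)).trans ?_
    rfl
  have er : dx29.kv (Cn.rt 9 50).v x = dx12.kv (Cn.rt 9 50).v x := by
    refine (DT.kv_le (by simp only [Cn.rt_v]; norm_num)).trans ?_
    refine (DT.kv_le (by simp only [Cn.rt_v]; norm_num)).trans ?_
    rfl
  rw [el, er]
  simp only [DT.kv, dx11, xw11, xs11, xv11, dx12, xw12, xs12, xv12, Cn.rt_v]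
  push_cast
  ring1
theorem j_dx31 {x : ℝ} (hx : 39 / 40 ≤ x) (hx' : x < 1) : dx16.kv (Cn.rt 3 5).v x = dx17.kv (Cn.rt 3 5).v x := by
  have el : dx16.kv (Cn.rt 3 5).v x = dx16.kv (Cn.rt 3 5).v x := by
    rfl
  have er : dx17.kv (Cn.rt 3 5).v x = dx17.kv (Cn.rt 3 5).v x := by
    rfl
  rw [el, er]
  simp only [DT.kv, dx16, xw16, xs16, xv16, dx17, xw17, xs17, xv17, Cn.rt_v]
  push_cast
  ring1
theorem j_dx32 {x : ℝ} (hx : 39 / 40 ≤ x) (hx' : x < 1) : dx18.kv (Cn.rt 3 4).v x = dx19.kv (Cn.rt 3 4).v x := by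
  have el : dx18.kv (Cn.rt 3 4).v x = dx18.kv (Cn.rt 3 4).v x := by
    rfl
  have er : dx19.kv (Cn.rt 3 4).v x = dx19.kv (Cn.rt 3 4).v x := by
    rfl
  rw [el, er]
  simp only [DT.kv, dx18, xw18, xs18, xv18, dx19, xw19, xs19, xv19, Cn.rt_v]
  push_cast
  ring1
theorem j_dx33 {x : ℝ} (hx : 39 / 40 ≤ x) (hx' : x < 1) : dx31.kv (Cn.rt 17 25).v x = dx32.kv (Cn.rt 17 25).v x := by
  have el : dx31.kv (Cn.rt 17 25).v x = dx17.kv (Cn.rt 17 25).v x := by
    refine (DT.kv_gt (by simp only [Cn.rt_v]; norm_num)).trans ?_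
    rfl
  have er : dx32.kv (Cn.rt 17 25).v x = dx18.kv (Cn.rt 17 25).v x := by
    refine (DT.kv_le (by simp only [Cn.rt_v]; norm_num)).trans ?_
    rfl
  rw [el, er]
  simp only [DT.kv, dx17, xw17, xs17, xv17, dx18, xw18, xs18, xv18, Cn.rt_v]
  push_cast
  ring1
theorem j_dx34 {x : ℝ} (hx : 39 / 40 ≤ x) (hx' : x < 1) : dx20.kv (Cn.rt 22 25).v x = dx21.kv (Cn.rt 22 25).v x := by
  have el : dx20.kv (Cn.rt 22 25).v x = dx20.kv (Cn.rt 22 25).v x := by
    rfl
  have er : dx21.kv (Cn.rt 22 25).v x = dx21.kv (Cn.rt 22 25).v x := by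
    rfl
  rw [el, er]
  simp only [DT.kv, dx20, xw20, xs20, xv20, dx21, xw21, xs21, xv21, Cn.rt_v]
  push_cast
  ring1
theorem j_dx35 {x : ℝ} (hx : 39 / 40 ≤ x) (hx' : x < 1) : dx22.kv (Cn.rt 371 400).v x = dx23.kv (Cn.rt 371 400).v x := by
  have el : dx22.kv (Cn.rt 371 400).v x = dx22.kv (Cn.rt 371 400).v x := by
    rfl
  have er : dx23.kv (Cn.rt 371 400).v x = dx23.kv (Cn.rt 371 400).v x := by
    rfl
  rw [el, er]
  simp only [DT.kv, dx22, xw22, xs22, xv22, dx23, xw23, xs23, xv23, Cn.rt_v]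
  push_cast
  ring1
theorem j_dx36 {x : ℝ} (hx : 39 / 40 ≤ x) (hx' : x < 1) : dx34.kv (Cn.rt 91 100).v x = dx35.kv (Cn.rt 91 100).v x := by
  have el : dx34.kv (Cn.rt 91 100).v x = dx21.kv (Cn.rt 91 100).v x := by
    refine (DT.kv_gt (by simp only [Cn.rt_v]; norm_num)).trans ?_
    rfl
  have er : dx35.kv (Cn.rt 91 100).v x = dx22.kv (Cn.rt 91 100).v x := by
    refine (DT.kv_le (by simp only [Cn.rt_v]; norm_num)).trans ?_
    rfl
  rw [el, er]
  simp only [DT.kv, dx21, xw21, xs21, xv21, dx22, xw22, xs22, xv22, Cn.rt_v]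
  push_cast
  ring1
theorem j_dx37 {x : ℝ} (hx : 39 / 40 ≤ x) (hx' : x < 1) : dx33.kv (Cn.rt 41 50).v x = dx36.kv (Cn.rt 41 50).v x := by
  have el : dx33.kv (Cn.rt 41 50).v x = dx19.kv (Cn.rt 41 50).v x := by
    refine (DT.kv_gt (by simp only [Cn.rt_v]; norm_num)).trans ?_
    refine (DT.kv_gt (by simp only [Cn.rt_v]; norm_num)).trans ?_
    rfl
  have er : dx36.kv (Cn.rt 41 50).v x = dx20.kv (Cn.rt 41 50).v x := by
    refine (DT.kv_le (by simp only [Cn.rt_v]; norm_num)).trans ?_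
    refine (DT.kv_le (by simp only [Cn.rt_v]; norm_num)).trans ?_
    rfl
  rw [el, er]
  simp only [DT.kv, dx19, xw19, xs19, xv19, dx20, xw20, xs20, xv20, Cn.rt_v]
  push_cast
  ring1
theorem j_dx38 {x : ℝ} (hx : 39 / 40 ≤ x) (hx' : x < 1) : dx30.kv (Cn.rt 1 2).v x = dx37.kv (Cn.rt 1 2).v x := by
  have el : dx30.kv (Cn.rt 1 2).v x = dx38.kv (1 / 2) x := by
    have e : (Cn.rt 1 2).v = 1 / 2 := by simp only [Cn.rt_v]; push_cast; norm_num
    rw [e]
    exact (DT.kv_le (by simp only [Cn.rt_v]; norm_num)).symm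
  rw [el, cL7 (by norm_num) (by norm_num)]
  symm
  refine (DT.kv_le (by simp only [Cn.rt_v]; norm_num)).trans ?_
  refine (DT.kv_le (by simp only [Cn.rt_v]; norm_num)).trans ?_
  refine (DT.kv_le (by simp only [Cn.rt_v]; norm_num)).trans ?_
  simp only [DT.kv, dx16, xw16, xs16, xv16, Cn.rt_v]
  push_cast
  linear_combination half_b hx hx' - half_a hx hx'
theorem lok {x : ℝ} (hx : 39 / 40 ≤ x) (hx' : x < 1) : dx38.KOk x :=
  ⟨j_dx38 hx hx', ⟨j_dx30 hx hx', ⟨j_dx26 hx hx', ⟨j_dx24 hx hx', trivial, trivial⟩, ⟨j_dx25 hx hx', trivial, trivial⟩⟩, ⟨j_dx29 hx hx', ⟨j_dx27 hx hx', trivial, trivial⟩, ⟨j_dx28 hx hx', trivial, trivial⟩⟩⟩, ⟨j_dx37 hx hx', ⟨j_dx33 hx hx', ⟨j_dx31 hx hx', trivial, trivial⟩, ⟨j_dx32 hx hx', trivial, trivial⟩⟩, ⟨j_dx36 hx hx', ⟨j_dx34 hx hx', trivial, trivial⟩, ⟨j_dx35 hx hx', trivial, trivial⟩⟩⟩⟩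

theorem yaV : (Cn.rt 577 500).v = 577 / 500 := by simp only [Cn.rt_v]; norm_num
theorem ybV : (Cn.rt 231 200).v = 231 / 200 := by simp only [Cn.rt_v]; norm_num
theorem ykV : (Cn.rt 61 50).v = 61 / 50 := by simp only [Cn.rt_v]; norm_num
theorem k5V : (Cn.rt 2 5).v = 2 / 5 := by simp only [Cn.rt_v]; norm_num

noncomputable def vv : VX := ⟨Cn.rt 577 500, Cn.rt 231 200, Cn.rt 61 50, Cn.rt 2 5, xm1, xm2, xss⟩

theorem mid_pos {x : ℝ} (hx : 39 / 40 ≤ x) (hx' : x < 1) {v : ℝ} (v0 : 0 ≤ v) (v1 : v ≤ 1 / 10) :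
    dx38.kv (1 / 2 - v) x - dx38.kv (1 / 2 + v) x = -(xm1.v x * v) + xm2.v x * v ^ 2 := by
  have h := iv hx hx'
  rw [dL7 (by linarith) (by linarith), show (1 : ℝ) / 2 + v = 1 - (1 / 2 - v) by ring,
    dR7 hx hx' (by linarith) (by linarith)]
  simp only [xm1_3, xm1, xm2, x2a_2, x2a, x1a, x0a, x2b_2, x2b, x1b, x0b, hh]
  push_cast
  generalize (1 / 2 - 167 / 50 * (h0 * (1 - x)))⁻¹ = I at *
  linear_combination ((85937 / 100000 + -(10723 / 500) * (1 - x)) - (2661 / 12500 + -(8863 / 1000) * (1 - x))) * (I * (1 / 2 - 167 / 50 * (h0 * (1 - x))) + 1 - 2 * v * I) * h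

theorem mid_ {x : ℝ} (hx : 39 / 40 ≤ x) (hx' : x < 1) {v : ℝ} (hv : |v| ≤ 1 / 10) :
    dx38.kv (clR (e3R x) (1 / 2 - v)) x - dx38.kv (clR (e3R x) (1 - (1 / 2 - v))) x =
      -(xm1.v x * v) + xm2.v x * (v * |v|) := by
  obtain ⟨p1, p2⟩ := e3s hx hx'
  obtain ⟨v1, v2⟩ := abs_le.1 hv
  rw [clr_mid hx hx' (by linarith) (by linarith), clr_mid hx hx' (by linarith) (by linarith),
    show (1 : ℝ) - (1 / 2 - v) = 1 / 2 + v by ring]
  rcases le_total 0 v with v0 | v0
  · rw [mid_pos hx hx' v0 v2, abs_of_nonneg v0]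
    ring
  · have h := mid_pos hx hx' (v := -v) (by linarith) (by linarith)
    rw [abs_of_nonpos v0, show (1 : ℝ) / 2 - v = 1 / 2 + -v by ring,
      show (1 : ℝ) / 2 + v = 1 / 2 - -v by ring]
    linear_combination -h

theorem cya_ {y : ℝ} (h : 577 / 500 ≤ y) : c1n y * (h0 + c1n y * (268 / 1000)) ≤ 1 / 10 := by
  have h1 := h0_lt'
  have hp := h0_pos
  have h2 : c1n y ≤ 7 / 200 := by
    have h3 := c1n_nn y
    rcases le_or_gt (3 / 4 * y ^ 2) 1 with g | g
    · have := c1n_sq g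
      nlinarith
    · have : c1n y = 0 := Real.sqrt_eq_zero_of_nonpos (by linarith)
      rw [this]
      norm_num
  have h3 := c1n_nn y
  nlinarith [mul_le_mul_of_nonneg_left h2 h3, mul_le_mul h2 h1.le hp.le (by norm_num : (0 : ℝ) ≤ 7 / 200)]

theorem flm (x : ℝ) : flg.v x = -(h0 * xm1.v x) := by
  simp only [flg, flg_2, xm1_3, xm1, hh]


/-- the slope is nonnegative -/
theorem κ0 {κ x : ℝ} (hκ : κ * h0 = kenE x) (hx : 39 / 40 ≤ x) : 0 ≤ κ := by
  have c1 : c1n x ≤ 1 := by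
    unfold c1n
    exact Real.sqrt_le_iff.2 ⟨zero_le_one, by nlinarith [sq_nonneg x]⟩
  have c0 := c1n_nn x
  have h : 0 ≤ kenE x := by
    unfold kenE
    have h1 : 1 / 2 ≤ 3 / 4 * (1 + x) / (c1n x + 1 / 2) := by
      rw [le_div_iff₀ (by linarith)]
      nlinarith
    have h2 : 0 ≤ (3 / 4 * (1 + x) / (c1n x + 1 / 2) - 1 / 2) / x :=
      div_nonneg (by linarith) (by linarith)
    linarith
  by_contra hn
  push Not at hn
  nlinarith [h0_pos]

theorem x0 {x : ℝ} (hx : 39 / 40 ≤ x) : 0 ≤ x := by linarith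

end Pool.Agent.Strip051.G.IE1.Tab.St
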