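import Pool.Agent.Strip051.G.IE1.StC

/-! # Unit strips of the table IE1: facts, near vertex (generated) -/

set_option linter.all false
set_option maxRecDepth 4000

namespace Pool.Agent.Strip051.G.IE1.Tab.StN

open Pool.Agent.Strip051.PB Pool.Agent.StripNear Pool.Agent.Strip051.LC
open Pool.Agent.Strip051.G.IE1.Tab Pool.Agent.Strip051.G.IE1.Tab.St

noncomputable def ns1 : Fn1 := ⟨_, _, fun h1 => (enc_norm (enc_sub (enc_mul (mug3.enc h1) (enc_norm (enc_sub (enc_rat _ 23151 3125) (enc_nat 2 (b0g.enc h1))))) (enc_scale 12606 3125 (lmug.enc h1))))⟩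
noncomputable def nv1 : Fn1 := ⟨_, _, fun h1 => (enc_norm (enc_add (lmug.enc h1) (enc_mul (mug3.enc h1) (b0g.enc h1))))⟩
noncomputable def ns2 : Fn1 := ⟨_, _, fun h1 => (enc_norm (enc_sub (enc_mul (mug3.enc h1) (enc_norm (enc_sub (enc_neg (enc_rat _ 18263 1250)) (enc_nat 2 (b0g.enc h1))))) (enc_scale 156 25 (lmug.enc h1))))⟩
noncomputable def nv2 : Fn1 := ⟨_, _, fun h1 => (enc_norm (enc_add (enc_scale 28447 25000 (lmug.enc h1)) (enc_mul (mug3.enc h1) (enc_norm (enc_add (b0g.enc h1) (enc_rat _ 137617 100000))))))⟩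
noncomputable def ns3 : Fn1 := ⟨_, _, fun h1 => (enc_norm (enc_sub (enc_neg (enc_scale 12847 2500 (lmug.enc h1))) (enc_mul (mug3.enc h1) (enc_norm (enc_nat 10 (enc_subr 8487 100000 (enc_scale 4 5 (b0g.enc h1))))))))⟩
noncomputable def nv3 : Fn1 := ⟨_, _, fun h1 => (enc_norm (enc_add (enc_scale 12847 12500 (lmug.enc h1)) (enc_mul (mug3.enc h1) (enc_norm (enc_nat 2 (enc_subr 8487 100000 (enc_scale 4 5 (b0g.enc h1))))))))⟩
noncomputable def xnr_8 : Fn1 := ⟨_, _, fun h1 => (enc_scale 4 3 (hhg.enc h1))⟩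
noncomputable def xnr_12 : Fn1 := ⟨_, _, fun h1 => (enc_sub (enc_rat _ 11 5) (zsg.enc h1))⟩
noncomputable def xnr_22 : Fn1 := ⟨_, _, fun h1 => (enc_nat 2 (b0g.enc h1))⟩
noncomputable def xnr_24 : Fn1 := ⟨_, _, fun h1 => (enc_sub (enc_rat _ 23151 3125) (xnr_22.enc h1))⟩
noncomputable def xnr : Fn1 := ⟨_, _, fun h1 => (enc_norm (enc_add (enc_mul (lmug.enc h1) (enc_norm (enc_add (enc_scale 10 3 (enc_sub (enc_neg (enc_rat _ 6303 625)) (enc_sub (enc_mul (dag.enc h1) (xnr_8.enc h1)) (enc_scale 559209 100000 (xnr_12.enc h1))))) (enc_rat _ 12606 3125)))) (enc_mul (mug3.enc h1) (enc_norm (enc_sub (enc_scale 10 3 (enc_sub (enc_scale 5 2 (xnr_24.enc h1)) (enc_add (enc_mul (dbg.enc h1) (xnr_8.enc h1)) (enc_mul (enc_norm (enc_sub (enc_neg (enc_rat _ 280683 50000)) (xnr_22.enc h1))) (enc_norm (xnr_12.enc h1)))))) (xnr_24.enc h1))))))⟩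
noncomputable def xnq : Fn1 := ⟨_, _, fun h1 => (enc_norm (enc_sub (enc_sub (enc_mul (mug3.enc h1) (enc_norm (enc_sub (enc_neg (enc_rat _ 280683 50000)) (enc_nat 2 (b0g.enc h1))))) (enc_scale 559209 100000 (lmug.enc h1))) (enc_add (xnr.enc h1) (ns1.enc h1))))⟩
noncomputable def nkf0 : Fn2 := ⟨_, _, fun h1 h2 => (enc_norm (enc_mul (enc_norm (enc_sub (kn1q0.enc h1 h2) (kn0q0.enc h1 h2))) (enc_inv (enc_sub (cv1m.enc h1) (c1g.enc h1)))))⟩
noncomputable def nkl0 : Fn2 := ⟨_, _, fun h1 h2 => (enc_norm (enc_mul (enc_norm (enc_sub (kn7q0.enc h1 h2) (kn6q0.enc h1 h2))) (enc_inv (enc_sub (c3g.enc h1) (cv6m.enc h1)))))⟩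
noncomputable def nkf1 : Fn2 := ⟨_, _, fun h1 h2 => (enc_norm (enc_mul (enc_norm (enc_sub (kn1q1.enc h1 h2) (kn0q1.enc h1 h2))) (enc_inv (enc_sub (cv1m.enc h1) (c1g.enc h1)))))⟩
noncomputable def nkl1 : Fn2 := ⟨_, _, fun h1 h2 => (enc_norm (enc_mul (enc_norm (enc_sub (kn7q1.enc h1 h2) (kn6q1.enc h1 h2))) (enc_inv (enc_sub (c3g.enc h1) (cv6m.enc h1)))))⟩
noncomputable def nkf2 : Fn2 := ⟨_, _, fun h1 h2 => (enc_norm (enc_mul (enc_norm (enc_sub (kn1q2.enc h1 h2) (kn0q2.enc h1 h2))) (enc_inv (enc_sub (cv1p.enc h1) (c1g.enc h1)))))⟩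
noncomputable def nkl2 : Fn2 := ⟨_, _, fun h1 h2 => (enc_norm (enc_mul (enc_norm (enc_sub (kn7q2.enc h1 h2) (kn6q2.enc h1 h2))) (enc_inv (enc_sub (c3g.enc h1) (cv6p.enc h1)))))⟩
noncomputable def nkl3 : Fn2 := ⟨_, _, fun h1 h2 => (enc_norm (enc_mul (enc_norm (enc_sub (kn7q3.enc h1 h2) (kn6q3.enc h1 h2))) (enc_inv (enc_sub (c3g.enc h1) (cv6r.enc h1)))))⟩
noncomputable def nke2 : Fn2 := ⟨_, _, fun h1 h2 => (enc_norm (enc_mul (enc_norm (enc_sub (kn2q2.enc h1 h2) (kn1q2.enc h1 h2))) (enc_inv (enc_sub (cv2p.enc h1) (cv1p.enc h1)))))⟩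
noncomputable def dn1 : DT := .lin ns1 nv1
noncomputable def dn2 : DT := .lin ns2 nv2
noncomputable def dn3 : DT := .lin ns3 nv3
noncomputable def dn4 : DT := .lin xs4 xv4
noncomputable def dn5 : DT := .node (Cn.rt 1 16) dn1 dn2
noncomputable def dn6 : DT := .node (Cn.rt 1 5) dn3 dn4
noncomputable def dn7 : DT := .node (Cn.rt 1 10) dn5 dn6
noncomputable def dd : YDat := ⟨dn7, xnr, xnq, dx38, lamg, Kh.X⟩
noncomputable def gf0 : Sg := ⟨cv1m, nkf0, sxf0⟩
noncomputable def gf1 : Sg := ⟨cv1m, nkf1, sxf1⟩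
noncomputable def gf2 : Sg := ⟨cv1p, nkf2, sxf2⟩
noncomputable def gf3 : Sg := ⟨cv1r, nkf2, sxf2⟩
noncomputable def gl0 : Sg := ⟨cv6m, nkl0, sxl0⟩
noncomputable def gl1 : Sg := ⟨cv6m, nkl1, sxl1⟩
noncomputable def gl2 : Sg := ⟨cv6p, nkl2, sxl2⟩
noncomputable def gl3 : Sg := ⟨cv6r, nkl3, sxl3⟩
noncomputable def ge : Sg := ⟨cv2p, nke2, sxe2⟩
noncomputable def ff (q : ℕ) : Sg := match q with
  | 0 => gf0
  | 1 => gf1
  | 2 => gf2
  | _ => gf3
noncomputable def fl (q : ℕ) : Sg := match q with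
  | 0 => gl0
  | 1 => gl1
  | 2 => gl2
  | _ => gl3
noncomputable def tt : STabY 7 := ⟨dd, 0, 1, 6, ff, fl, ge, vv⟩

theorem k0 {t x : ℝ} (h2 : t ≤ 1 / 16) : dn7.kv t x = ns1.v x * t + nv1.v x := by
  refine (DT.kv_le (by simp only [Cn.rt_v]; push_cast; linarith)).trans ?_
  exact DT.kv_le (by simp only [Cn.rt_v]; push_cast; linarith)
theorem k1 {t x : ℝ} (h1 : 1 / 16 < t) (h2 : t ≤ 1 / 10) : dn7.kv t x = ns2.v x * t + nv2.v x := by
  refine (DT.kv_le (by simp only [Cn.rt_v]; push_cast; linarith)).trans ?_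
  exact DT.kv_gt (by simp only [Cn.rt_v]; push_cast; linarith)
theorem k2 {t x : ℝ} (h1 : 1 / 10 < t) (h2 : t ≤ 1 / 5) : dn7.kv t x = ns3.v x * t + nv3.v x := by
  refine (DT.kv_gt (by simp only [Cn.rt_v]; push_cast; linarith)).trans ?_
  exact DT.kv_le (by simp only [Cn.rt_v]; push_cast; linarith)
theorem k3 {t x : ℝ} (h1 : 1 / 5 < t) : dn7.kv t x = xs4.v x * t + xv4.v x := by
  refine (DT.kv_gt (by simp only [Cn.rt_v]; push_cast; linarith)).trans ?_
  exact DT.kv_gt (by simp only [Cn.rt_v]; push_cast; linarith)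

theorem kz {x : ℝ} (t : ℝ) (h : 1 / 5 ≤ t) : dn7.kv t x = 0 := by
  rcases h.eq_or_lt with h | h
  · subst h
    rw [k2 (by norm_num) le_rfl]
    simp only [ns3, nv3]
    push_cast
    ring1
  · rw [k3 h]
    simp only [xs4, xv4]
    push_cast
    ring1

theorem kok (x : ℝ) : dn7.KOk x := by
  refine ⟨?_, ⟨?_, trivial, trivial⟩, ⟨?_, trivial, trivial⟩⟩
  · refine (DT.kv_gt (by simp only [Cn.rt_v]; norm_num)).trans ?_
    symm
    refine (DT.kv_le (by simp only [Cn.rt_v]; norm_num)).trans ?_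
    simp only [DT.kv, dn2, ns2, nv2, dn3, ns3, nv3, Cn.rt_v]
    push_cast
    ring1
  · simp only [DT.kv, dn1, ns1, nv1, dn2, ns2, nv2, Cn.rt_v]
    push_cast
    ring1
  · simp only [DT.kv, dn3, ns3, nv3, dn4, xs4, xv4, Cn.rt_v]
    push_cast
    ring1

theorem a3 {y x : ℝ} (hx' : x < 1) (h1 : 8 / 5 * (1 - x) ≤ y) (h2 : y ≤ 11 / 5 * (1 - x)) : rkg.v y x = 1 + (1 - x) * dag.v x - 559209 / 100000 * (h0 * y - h0 * (1 - x) * zsg.v x) := by
  rcases h1.eq_or_lt with h | h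
  · subst h
    simp only [rkg_3, rkg_5, rkg_30, rkg_31, rkg_36, rkg_50, rkg, hh]
    push_cast
    rw [if_neg (by linarith), if_pos (by linarith)]
    ring1
  · simp only [rkg_3, rkg_5, rkg_30, rkg_31, rkg_36, rkg_50, rkg, hh]
    push_cast
    rw [if_neg (by linarith), if_neg (by linarith), if_pos (by linarith)]
    (try ring1)
theorem a4 {y x : ℝ} (hx' : x < 1) (h1 : 11 / 5 * (1 - x) < y) (h2 : y ≤ 5 / 2 * (1 - x)) : rkg.v y x = 1 + (1 - x) * (dag.v x - 559209 / 100000 * (h0 * (11 / 5 - zsg.v x))) + (y - 11 / 5 * (1 - x)) * (10 / 3 * (5 / 2 * (-(12606 / 3125)) * h0 - (dag.v x - 559209 / 100000 * (h0 * (11 / 5 - zsg.v x))))) := by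
  simp only [rkg_3, rkg_5, rkg_30, rkg_31, rkg_36, rkg_50, rkg, hh]
  push_cast
  rw [if_neg (by linarith), if_neg (by linarith), if_neg (by linarith), if_pos (by linarith)]
  ring1
theorem a50 {y x : ℝ} (hx' : x < 1) (h0y : 5 / 2 * (1 - x) < y) (h2 : h0 * y ≤ 1 / 16) : rkg.v y x = (-(12606 / 3125)) * (h0 * y) + 1 := by
  simp only [rkg_3, rkg_5, rkg_30, rkg_31, rkg_36, rkg_50, rkg, hh]
  push_cast
  rw [if_neg (by linarith), if_neg (by linarith), if_neg (by linarith), if_neg (by linarith), if_pos (by linarith)]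
  ring1
theorem a51 {y x : ℝ} (hx' : x < 1) (h0y : 5 / 2 * (1 - x) < y) (h1 : 1 / 16 < h0 * y) (h2 : h0 * y ≤ 1 / 10) : rkg.v y x = (-(156 / 25)) * (h0 * y) + 28447 / 25000 := by
  simp only [rkg_3, rkg_5, rkg_30, rkg_31, rkg_36, rkg_50, rkg, hh]
  push_cast
  rw [if_neg (by linarith), if_neg (by linarith), if_neg (by linarith), if_neg (by linarith), if_neg (by linarith), if_pos (by linarith)]
  ring1
theorem a52 {y x : ℝ} (hx' : x < 1) (h0y : 5 / 2 * (1 - x) < y) (h1 : 1 / 10 < h0 * y) (h2 : h0 * y ≤ 1 / 5) : rkg.v y x = (-(12847 / 2500)) * (h0 * y) + 12847 / 12500 := by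
  simp only [rkg_3, rkg_5, rkg_30, rkg_31, rkg_36, rkg_50, rkg, hh]
  push_cast
  rw [if_neg (by linarith), if_neg (by linarith), if_neg (by linarith), if_neg (by linarith), if_neg (by linarith), if_neg (by linarith), if_pos (by linarith)]
  ring1
theorem a53 {y x : ℝ} (hx' : x < 1) (h0y : 5 / 2 * (1 - x) < y) (h1 : 1 / 5 < h0 * y) : rkg.v y x = (0) * (h0 * y) + 0 := by
  simp only [rkg_3, rkg_5, rkg_30, rkg_31, rkg_36, rkg_50, rkg, hh]
  push_cast
  rw [if_neg (by linarith), if_neg (by linarith), if_neg (by linarith), if_neg (by linarith), if_neg (by linarith), if_neg (by linarith), if_neg (by linarith)]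
  ring1
theorem b3 {y x : ℝ} (hx' : x < 1) (h1 : 8 / 5 * (1 - x) ≤ y) (h2 : y ≤ 11 / 5 * (1 - x)) : rbg.v y x = b0g.v x + (1 - x) * dbg.v x + (-(280683 / 50000) - 2 * b0g.v x) * (h0 * y - h0 * (1 - x) * zsg.v x) := by
  rcases h1.eq_or_lt with h | h
  · subst h
    simp only [rbg_3, rbg_5, rbg_10, rbg_12, rbg_21, rbg_33, rbg_34, rbg_37, rbg_44, rbg_51, rbg, hh]
    push_cast
    rw [if_neg (by linarith), if_pos (by linarith)]
    ring1
  · simp only [rbg_3, rbg_5, rbg_10, rbg_12, rbg_21, rbg_33, rbg_34, rbg_37, rbg_44, rbg_51, rbg, hh]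
    push_cast
    rw [if_neg (by linarith), if_neg (by linarith), if_pos (by linarith)]
    (try ring1)
theorem b4 {y x : ℝ} (hx' : x < 1) (h1 : 11 / 5 * (1 - x) < y) (h2 : y ≤ 5 / 2 * (1 - x)) : rbg.v y x = b0g.v x + (1 - x) * (dbg.v x + (-(280683 / 50000) - 2 * b0g.v x) * (h0 * (11 / 5 - zsg.v x))) + (y - 11 / 5 * (1 - x)) * (10 / 3 * (5 / 2 * (23151 / 3125 - 2 * b0g.v x) * h0 - (dbg.v x + (-(280683 / 50000) - 2 * b0g.v x) * (h0 * (11 / 5 - zsg.v x))))) := by
  simp only [rbg_3, rbg_5, rbg_10, rbg_12, rbg_21, rbg_33, rbg_34, rbg_37, rbg_44, rbg_51, rbg, hh]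
  push_cast
  rw [if_neg (by linarith), if_neg (by linarith), if_neg (by linarith), if_pos (by linarith)]
  ring1
theorem b50 {y x : ℝ} (hx' : x < 1) (h0y : 5 / 2 * (1 - x) < y) (h2 : h0 * y ≤ 1 / 16) : rbg.v y x = (23151 / 3125 - 2 * b0g.v x) * (h0 * y) + b0g.v x := by
  simp only [rbg_3, rbg_5, rbg_10, rbg_12, rbg_21, rbg_33, rbg_34, rbg_37, rbg_44, rbg_51, rbg, hh]
  push_cast
  rw [if_neg (by linarith), if_neg (by linarith), if_neg (by linarith), if_neg (by linarith), if_pos (by linarith)]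
  ring1
theorem b51 {y x : ℝ} (hx' : x < 1) (h0y : 5 / 2 * (1 - x) < y) (h1 : 1 / 16 < h0 * y) (h2 : h0 * y ≤ 1 / 10) : rbg.v y x = (-(18263 / 1250) - 2 * b0g.v x) * (h0 * y) + (b0g.v x + 137617 / 100000) := by
  simp only [rbg_3, rbg_5, rbg_10, rbg_12, rbg_21, rbg_33, rbg_34, rbg_37, rbg_44, rbg_51, rbg, hh]
  push_cast
  rw [if_neg (by linarith), if_neg (by linarith), if_neg (by linarith), if_neg (by linarith), if_neg (by linarith), if_pos (by linarith)]
  ring1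
theorem b52 {y x : ℝ} (hx' : x < 1) (h0y : 5 / 2 * (1 - x) < y) (h1 : 1 / 10 < h0 * y) (h2 : h0 * y ≤ 1 / 5) : rbg.v y x = (-(((4 / 5) * b0g.v x + -(8487 / 100000)) * 10)) * (h0 * y) + ((4 / 5) * b0g.v x + -(8487 / 100000)) * 2 := by
  simp only [rbg_3, rbg_5, rbg_10, rbg_12, rbg_21, rbg_33, rbg_34, rbg_37, rbg_44, rbg_51, rbg, hh]
  push_cast
  rw [if_neg (by linarith), if_neg (by linarith), if_neg (by linarith), if_neg (by linarith), if_neg (by linarith), if_neg (by linarith), if_pos (by linarith)]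
  ring1
theorem b53 {y x : ℝ} (hx' : x < 1) (h0y : 5 / 2 * (1 - x) < y) (h1 : 1 / 5 < h0 * y) : rbg.v y x = 0 * (h0 * y) + 0 := by
  simp only [rbg_3, rbg_5, rbg_10, rbg_12, rbg_21, rbg_33, rbg_34, rbg_37, rbg_44, rbg_51, rbg, hh]
  push_cast
  rw [if_neg (by linarith), if_neg (by linarith), if_neg (by linarith), if_neg (by linarith), if_neg (by linarith), if_neg (by linarith), if_neg (by linarith)]
  ring1

theorem krE {x : ℝ} (hx : 39 / 40 ≤ x) (hx' : x < 1) {y : ℝ} (h : e4Y x ≤ h0 * y) :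
    lmug.v x * rkg.v y x + mug3.v x * rbg.v y x = ruY dn7 (xnr.v x) (xnq.v x) (e5R x) (e4R x) x (h0 * y) := by
  have hp := h0_pos
  have hl := h0_lt'
  have hs := h0_sq
  have E : 8 / 5 * (1 - x) ≤ y := by
    unfold e4Y at h
    by_contra hh'
    rw [not_le] at hh'
    nlinarith [mul_lt_mul_of_pos_left hh' hp]
  have m1 : e5R x = 5 / 2 * (h0 * (1 - x)) := rfl
  have m2 : e4R x = 11 / 5 * (h0 * (1 - x)) := rfl
  have m3 : 0 < h0 * (1 - x) := mul_pos hp (by linarith)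
  have m4 : h0 * (1 - x) ≤ 1 / 40 := by nlinarith
  unfold ruY
  rcases le_or_gt y (11 / 5 * (1 - x)) with g | g
  · have q := mul_le_mul_of_nonneg_left g hp.le
    rw [a3 hx' E g, b3 hx' E g, k0 (by nlinarith), min_eq_left (by rw [m1]; nlinarith), min_eq_left (by rw [m2]; nlinarith), m1, m2]
    simp only [xnr_8, xnr_12, xnr_22, xnr_24, xnr, xnq, ns1, nv1, hh]
    push_cast
    linear_combination (-(4 / 3) * (1 - x) * (lmug.v x * dag.v x + mug3.v x * dbg.v x)) * hs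
  have q := mul_lt_mul_of_pos_left g hp
  rcases le_or_gt y (5 / 2 * (1 - x)) with g2 | g2
  · have q2 := mul_le_mul_of_nonneg_left g2 hp.le
    rw [a4 hx' g g2, b4 hx' g g2, k0 (by nlinarith), min_eq_left (by rw [m1]; nlinarith), min_eq_right (by rw [m2]; nlinarith), m1]
    simp only [xnr_8, xnr_12, xnr_22, xnr_24, xnr, xnq, ns1, nv1, hh]
    push_cast
    linear_combination (40 / 9 * (y - 5 / 2 * (1 - x)) * (lmug.v x * dag.v x + mug3.v x * dbg.v x)) * hs
  have q2 := mul_lt_mul_of_pos_left g2 hp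
  rw [min_eq_right (by rw [m1]; nlinarith), min_eq_right (by rw [m2]; nlinarith)]
  rcases le_or_gt (h0 * y) (1 / 16) with t0 | t0
  · rw [a50 hx' g2 t0, b50 hx' g2 t0, k0 t0]
    · simp only [ns1, nv1]
      push_cast
      ring1
  rcases le_or_gt (h0 * y) (1 / 10) with t1 | t1
  · rw [a51 hx' g2 t0 t1, b51 hx' g2 t0 t1, k1 t0 t1]
    · simp only [ns2, nv2]
      push_cast
      ring1
  rcases le_or_gt (h0 * y) (1 / 5) with t2 | t2
  · rw [a52 hx' g2 t1 t2, b52 hx' g2 t1 t2, k2 t1 t2]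
    · simp only [ns3, nv3]
      push_cast
      ring1
  · rw [a53 hx' g2 t2, b53 hx' g2 t2, k3 t2]
    · simp only [xs4, xv4]
      push_cast
      ring1

theorem dok {x : ℝ} (hx : 39 / 40 ≤ x) (hx' : x < 1) : dd.Ok x := ⟨kok x, kz, lok hx hx', hx', hx⟩

theorem rab {x : ℝ} (hx : 39 / 40 ≤ x) (hx' : x < 1) : RAB dd x (fun y => lmug.v x * rkg.v y x + mug3.v x * rbg.v y x) (fun y => alg.v y x) (fun y => beg.v y x) :=
  ⟨fun _ h => krE hx hx' h, fun _ h => alE hx hx' h, fun _ h => beE hx hx' h⟩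

theorem hon0 {q : ℕ} {y : ℝ} (h : OnC (0 : Fin 8) q y) : h0 * y < 1 := h.2 rfl
theorem tg0_ {x : ℝ} (hx : 39 / 40 ≤ x) (hx' : x < 1) : ∀ q y, OnC (0 : Fin 8) q y →
    TgY dd (tyO q) q x (c1n y) y (tKN 0 q y x) (tL 0 q y x) := by
  intro q y h
  have on := hon0 h
  have y0 := h.1.nonneg
  rcases onC_q h with rfl | rfl | rfl
  · refine tgO0 (rab hx hx') (dok hx hx') h.1 on ?_ ?_
    · refine (tbF_on h).trans ?_
      show kn0q0.v y x = _
      simp only [kn0q0, kf0q0, kb0q0, c1g_v]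
      all_goals ((try push_cast); (try ring1); (try (split_ifs <;> ring1)))
    · refine (tbF_on h).trans ?_
      show l0q0.v y x = lamg.v x * _
      simp only [l0q0, xt0q0, c1g_v]
      all_goals ((try push_cast); (try ring1); (try (split_ifs <;> ring1)))
  · refine tgO1 (rab hx hx') (dok hx hx') h.1 on ?_ ?_
    · refine (tbF_on h).trans ?_
      show kn0q1.v y x = _
      simp only [kn0q1, kf0q1, kf0q1_9, kb0q1, kb0q1_9, c1g_v]
      all_goals ((try push_cast); (try ring1); (try (split_ifs <;> ring1)))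
    · refine (tbF_on h).trans ?_
      show l0q1.v y x = lamg.v x * _
      simp only [l0q1, xt0q1, c1g_v]
      all_goals ((try push_cast); (try ring1); (try (split_ifs <;> ring1)))
  · refine tgO2 (rab hx hx') (dok hx hx') h.1 on ?_ ?_
    · refine (tbF_on h).trans ?_
      show knc02.v (c1n y) x = _
      simp only [knc02, kfc02, kfc02_9, kbc02, kbc02_9, yag_v y0 on, c1g_v]
      all_goals ((try push_cast); (try ring1); (try (split_ifs <;> ring1)))
    · refine (tbF_on h).trans ?_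
      show lc02.v (c1n y) x = lamg.v x * _
      simp only [lc02, lc02_7, yag_v y0 on, c1g_v]
      all_goals ((try push_cast); (try ring1); (try (split_ifs <;> ring1)))
theorem tgn_ {x : ℝ} (hx : 39 / 40 ≤ x) (hx' : x < 1) : ∀ q y, InQ q y →
    TgY dd (tyN q) q x (c3n y) y (tKN (Fin.last 7) q y x) (tL (Fin.last 7) q y x) := by
  intro q y h
  have y0 := h.nonneg
  have y2 := h.le_two
  have hw : (1 : ℝ) / 3 * c3n y = c3n y / 3 := by ring
  match q, h with
  | 0, h =>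
    refine tgN0 (rab hx hx') (dok hx hx') h ?_ ?_
    · refine (tbF_on (onc h (by decide))).trans ?_
      show kn7q0.v y x = _
      simp only [kn7q0, kf7q0, kb7q0, c3g_v]
      push_cast
      (try simp only [hw])
      all_goals ((try push_cast); (try ring1); (try (split_ifs <;> ring1)))
    · refine (tbF_on (onc h (by decide))).trans ?_
      show l7q0.v y x = lamg.v x * _
      simp only [l7q0, xt7q0, xt7q0_7, c3g_v]
      push_cast
      (try simp only [hw])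
      all_goals ((try push_cast); (try ring1); (try (split_ifs <;> ring1)))
  | 1, h =>
    refine tgN1 (rab hx hx') (dok hx hx') h ?_ ?_
    · refine (tbF_on (onc h (by decide))).trans ?_
      show kn7q1.v y x = _
      simp only [kn7q1, kf7q1, kf7q1_10, kb7q1, kb7q1_10, c3g_v]
      push_cast
      (try simp only [hw])
      all_goals ((try push_cast); (try ring1); (try (split_ifs <;> ring1)))
    · refine (tbF_on (onc h (by decide))).trans ?_
      show l7q1.v y x = lamg.v x * _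
      simp only [l7q1, xt7q1, xt7q1_7, c3g_v]
      push_cast
      (try simp only [hw])
      all_goals ((try push_cast); (try ring1); (try (split_ifs <;> ring1)))
  | 2, h =>
    refine tgN2 (rab hx hx') (dok hx hx') h ?_ ?_
    · refine (tbF_on (onc h (by decide))).trans ?_
      show kn7q2.v y x = _
      simp only [kn7q2, kf7q2, kf7q2_10, kb7q2, kb7q2_10, c3g_v]
      push_cast
      (try simp only [hw])
      all_goals ((try push_cast); (try ring1); (try (split_ifs <;> ring1)))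
    · refine (tbF_on (onc h (by decide))).trans ?_
      show l7q2.v y x = lamg.v x * _
      simp only [l7q2, xt7q2, xt7q2_7, c3g_v]
      push_cast
      (try simp only [hw])
      all_goals ((try push_cast); (try ring1); (try (split_ifs <;> ring1)))
  | 3, h =>
    refine tgN3 (rab hx hx') (dok hx hx') h ?_ ?_
    · refine (tbF_on (onc h (by decide))).trans ?_
      show knc73.v (c3n y) x = _
      simp only [knc73, kfc73, kbc73, ycg_v y0 y2, c3g_v]
      push_cast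
      (try simp only [hw])
      all_goals ((try push_cast); (try ring1); (try (split_ifs <;> ring1)))
    · refine (tbF_on (onc h (by decide))).trans ?_
      show lc73.v (c3n y) x = lamg.v x * _
      simp only [lc73, lc73_8, lc73_15, ycg_v y0 y2, c3g_v]
      push_cast
      (try simp only [hw])
      all_goals ((try push_cast); (try ring1); (try (split_ifs <;> ring1)))
theorem vK02 {y x : ℝ} (h : OnC (0 : Fin 8) 2 y) : tKN 0 2 y x = kn0q2.v y x := by
  have on := hon0 h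
  have y0 := h.1.nonneg
  have hc : ¬ ((1 : ℝ) - 3 / 4 * y ^ 2 ≤ 0) := not_le.2 (by have := on_sq y0 on; linarith)
  refine (tbF_on h).trans ?_
  show knc02.v (c1n y) x = _
  simp only [knc02, kfc02, kfc02_9, kbc02, kbc02_9, kn0q2, kf0q2, kf0q2_9, kb0q2, kb0q2_9, yag_v y0 on, c1g_v]
  all_goals ((try push_cast); (try simp only [if_neg hc]); (try ring1); (try (split_ifs <;> ring1)))
theorem vL02 {y x : ℝ} (h : OnC (0 : Fin 8) 2 y) : tL 0 2 y x = lamg.v x * (c1n y + xt0q2.v y x) := by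
  have on := hon0 h
  have y0 := h.1.nonneg
  have hc : ¬ ((1 : ℝ) - 3 / 4 * y ^ 2 ≤ 0) := not_le.2 (by have := on_sq y0 on; linarith)
  refine (tbF_on h).trans ?_
  show lc02.v (c1n y) x = _
  simp only [lc02, lc02_7, xt0q2, xt0q2_6, yag_v y0 on, c1g_v]
  all_goals ((try push_cast); (try simp only [if_neg hc]); (try ring1); (try (split_ifs <;> ring1)))
theorem vK63 {y x : ℝ} (h : InQ 3 y) : tKN 6 3 y x = kn6q3.v y x := by
  have y0 := h.nonneg
  have y2 := h.le_two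
  refine (tbF_on (onc h (by decide))).trans ?_
  show knc63.v (c3n y) x = _
  simp only [knc63, kfc63, kfc63_16, kbc63, kbc63_6, kn6q3, kf6q3, kf6q3_15, kb6q3, kb6q3_5, kf7q3, kb7q3, ycg_v y0 y2, c3g_v, swg_v, cv6r_v]
  all_goals ((try push_cast); (try ring1); (try (split_ifs <;> ring1)))
theorem vL63 {y x : ℝ} (h : InQ 3 y) : tL 6 3 y x = lamg.v x * (cv6r.v y + xt6q3.v y x) := by
  have y0 := h.nonneg
  have y2 := h.le_two
  refine (tbF_on (onc h (by decide))).trans ?_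
  show lc63.v (c3n y) x = _
  simp only [lc63, lc63_10, lc63_12, xt6q3, xt6q3_3, ycg_v y0 y2, c3g_v, swg_v, cv6r_v]
  all_goals ((try push_cast); (try ring1); (try (split_ifs <;> ring1)))
theorem vK73 {y x : ℝ} (h : InQ 3 y) : tKN 7 3 y x = kn7q3.v y x := by
  have y0 := h.nonneg
  have y2 := h.le_two
  refine (tbF_on (onc h (by decide))).trans ?_
  show knc73.v (c3n y) x = _
  simp only [knc73, kfc73, kbc73, kn7q3, kf7q3, kb7q3, ycg_v y0 y2, c3g_v, swg_v, cv6r_v]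
  all_goals ((try push_cast); (try ring1); (try (split_ifs <;> ring1)))
theorem vL73 {y x : ℝ} (h : InQ 3 y) : tL 7 3 y x = lamg.v x * (c3g.v y + xt7q3.v y x) := by
  have y0 := h.nonneg
  have y2 := h.le_two
  refine (tbF_on (onc h (by decide))).trans ?_
  show lc73.v (c3n y) x = _
  simp only [lc73, lc73_8, lc73_15, xt7q3, xt7q3_7, xt7q3_14, ycg_v y0 y2, c3g_v, swg_v, cv6r_v]
  all_goals ((try push_cast); (try ring1); (try (split_ifs <;> ring1)))
theorem f0_ (x : ℝ) : ∀ q y, InQ q y → (ff q).f.v y = crv (PP x) 1 q y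
  | 0, _, _ => (ecv1q0 x).symm
  | 1, _, _ => (ecv1q1 x).symm
  | 2, _, _ => (ecv1q2 x).symm
  | 3, _, h => (ecv1q3 x h.1).symm
theorem fn_ (x : ℝ) : ∀ q y, InQ q y → (fl q).f.v y = crv (PP x) 6 q y
  | 0, _, _ => (ecv6q0 x).symm
  | 1, _, _ => (ecv6q1 x).symm
  | 2, _, _ => (ecv6q2 x).symm
  | 3, _, h => (ecv6q3 x h.1).symm
theorem sK0_ (x : ℝ) : ∀ q y, OnC (0 : Fin 8) q y → c1n y < crv (PP x) 1 q y →
    (ff q).SK.v y x * (crv (PP x) 1 q y - c1n y) = tKN 1 q y x - tKN 0 q y x := by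
  intro q y h hlt
  rcases onC_q h with rfl | rfl | rfl
  · rw [(show tKN 1 0 y x = kn1q0.v y x from tbF_on (onc h.1 (by decide))), (show tKN 0 0 y x = kn0q0.v y x from tbF_on h)]
    rw [ecv1q0, ← c1g_v] at hlt ⊢
    have hd : cv1m.v y - c1g.v y ≠ 0 := (sub_pos.2 hlt).ne'
    show nkf0.v y x * _ = _
    simp only [nkf0]
    exact inv_mul_cancel_right₀ hd _
  · rw [(show tKN 1 1 y x = kn1q1.v y x from tbF_on (onc h.1 (by decide))), (show tKN 0 1 y x = kn0q1.v y x from tbF_on h)]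
    rw [ecv1q1, ← c1g_v] at hlt ⊢
    have hd : cv1m.v y - c1g.v y ≠ 0 := (sub_pos.2 hlt).ne'
    show nkf1.v y x * _ = _
    simp only [nkf1]
    exact inv_mul_cancel_right₀ hd _
  · rw [(show tKN 1 2 y x = kn1q2.v y x from tbF_on (onc h.1 (by decide))), vK02 h]
    rw [ecv1q2, ← c1g_v] at hlt ⊢
    have hd : cv1p.v y - c1g.v y ≠ 0 := (sub_pos.2 hlt).ne'
    show nkf2.v y x * _ = _
    simp only [nkf2]
    exact inv_mul_cancel_right₀ hd _
theorem sX0_ (x : ℝ) : ∀ q y, OnC (0 : Fin 8) q y → c1n y < crv (PP x) 1 q y →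
    dd.la.v x * (1 + (ff q).SX.v y x) * (crv (PP x) 1 q y - c1n y) = tL 1 q y x - tL 0 q y x := by
  intro q y h hlt
  rcases onC_q h with rfl | rfl | rfl
  · rw [(show tL 1 0 y x = lamg.v x * (cv1m.v y + xt1q0.v y x) from (tbF_on (onc h.1 (by decide))).trans (by show l1q0.v y x = _; simp only [l1q0])), (show tL 0 0 y x = lamg.v x * (c1n y + xt0q0.v y x) from (tbF_on h).trans (by show l0q0.v y x = _; simp only [l0q0, c1g_v]))]
    rw [ecv1q0, ← c1g_v] at hlt ⊢
    have hd : cv1m.v y - c1g.v y ≠ 0 := (sub_pos.2 hlt).ne'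
    have he : sxf0.v y x * (cv1m.v y - c1g.v y) = xt1q0.v y x - xt0q0.v y x := by
      simp only [sxf0]
      exact inv_mul_cancel_right₀ hd _
    show lamg.v x * (1 + sxf0.v y x) * _ = _
    linear_combination lamg.v x * he
  · rw [(show tL 1 1 y x = lamg.v x * (cv1m.v y + xt1q1.v y x) from (tbF_on (onc h.1 (by decide))).trans (by show l1q1.v y x = _; simp only [l1q1])), (show tL 0 1 y x = lamg.v x * (c1n y + xt0q1.v y x) from (tbF_on h).trans (by show l0q1.v y x = _; simp only [l0q1, c1g_v]))]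
    rw [ecv1q1, ← c1g_v] at hlt ⊢
    have hd : cv1m.v y - c1g.v y ≠ 0 := (sub_pos.2 hlt).ne'
    have he : sxf1.v y x * (cv1m.v y - c1g.v y) = xt1q1.v y x - xt0q1.v y x := by
      simp only [sxf1]
      exact inv_mul_cancel_right₀ hd _
    show lamg.v x * (1 + sxf1.v y x) * _ = _
    linear_combination lamg.v x * he
  · rw [(show tL 1 2 y x = lamg.v x * (cv1p.v y + xt1q2.v y x) from (tbF_on (onc h.1 (by decide))).trans (by show l1q2.v y x = _; simp only [l1q2])), vL02 h]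
    rw [ecv1q2, ← c1g_v] at hlt ⊢
    have hd : cv1p.v y - c1g.v y ≠ 0 := (sub_pos.2 hlt).ne'
    have he : sxf2.v y x * (cv1p.v y - c1g.v y) = xt1q2.v y x - xt0q2.v y x := by
      simp only [sxf2]
      exact inv_mul_cancel_right₀ hd _
    show lamg.v x * (1 + sxf2.v y x) * _ = _
    linear_combination lamg.v x * he
theorem sKn_ (x : ℝ) : ∀ q y, InQ q y → crv (PP x) 6 q y < c3n y →
    (fl q).SK.v y x * (c3n y - crv (PP x) 6 q y) = tKN 7 q y x - tKN 6 q y x := by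
  intro q y h hlt
  match q, h with
  | 0, h =>
    rw [(show tKN 7 0 y x = kn7q0.v y x from tbF_on (onc h (by decide))), (show tKN 6 0 y x = kn6q0.v y x from tbF_on (onc h (by decide)))]
    rw [ecv6q0, ← c3g_v] at hlt ⊢
    have hd : c3g.v y - cv6m.v y ≠ 0 := (sub_pos.2 hlt).ne'
    show nkl0.v y x * _ = _
    simp only [nkl0]
    exact inv_mul_cancel_right₀ hd _
  | 1, h =>
    rw [(show tKN 7 1 y x = kn7q1.v y x from tbF_on (onc h (by decide))), (show tKN 6 1 y x = kn6q1.v y x from tbF_on (onc h (by decide)))]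
    rw [ecv6q1, ← c3g_v] at hlt ⊢
    have hd : c3g.v y - cv6m.v y ≠ 0 := (sub_pos.2 hlt).ne'
    show nkl1.v y x * _ = _
    simp only [nkl1]
    exact inv_mul_cancel_right₀ hd _
  | 2, h =>
    rw [(show tKN 7 2 y x = kn7q2.v y x from tbF_on (onc h (by decide))), (show tKN 6 2 y x = kn6q2.v y x from tbF_on (onc h (by decide)))]
    rw [ecv6q2, ← c3g_v] at hlt ⊢
    have hd : c3g.v y - cv6p.v y ≠ 0 := (sub_pos.2 hlt).ne'
    show nkl2.v y x * _ = _
    simp only [nkl2]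
    exact inv_mul_cancel_right₀ hd _
  | 3, h =>
    rw [vK73 h, vK63 h]
    rw [ecv6q3 x h.1, ← c3g_v] at hlt ⊢
    have hd : c3g.v y - cv6r.v y ≠ 0 := (sub_pos.2 hlt).ne'
    show nkl3.v y x * _ = _
    simp only [nkl3]
    exact inv_mul_cancel_right₀ hd _
theorem sXn_ (x : ℝ) : ∀ q y, InQ q y → crv (PP x) 6 q y < c3n y →
    dd.la.v x * (1 + (fl q).SX.v y x) * (c3n y - crv (PP x) 6 q y) = tL 7 q y x - tL 6 q y x := by
  intro q y h hlt
  match q, h with
  | 0, h =>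
    rw [(show tL 7 0 y x = lamg.v x * (c3g.v y + xt7q0.v y x) from (tbF_on (onc h (by decide))).trans (by show l7q0.v y x = _; simp only [l7q0])), (show tL 6 0 y x = lamg.v x * (cv6m.v y + xt6q0.v y x) from (tbF_on (onc h (by decide))).trans (by show l6q0.v y x = _; simp only [l6q0]))]
    rw [ecv6q0, ← c3g_v] at hlt ⊢
    have hd : c3g.v y - cv6m.v y ≠ 0 := (sub_pos.2 hlt).ne'
    have he : sxl0.v y x * (c3g.v y - cv6m.v y) = xt7q0.v y x - xt6q0.v y x := by
      simp only [sxl0]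
      exact inv_mul_cancel_right₀ hd _
    show lamg.v x * (1 + sxl0.v y x) * _ = _
    linear_combination lamg.v x * he
  | 1, h =>
    rw [(show tL 7 1 y x = lamg.v x * (c3g.v y + xt7q1.v y x) from (tbF_on (onc h (by decide))).trans (by show l7q1.v y x = _; simp only [l7q1])), (show tL 6 1 y x = lamg.v x * (cv6m.v y + xt6q1.v y x) from (tbF_on (onc h (by decide))).trans (by show l6q1.v y x = _; simp only [l6q1]))]
    rw [ecv6q1, ← c3g_v] at hlt ⊢
    have hd : c3g.v y - cv6m.v y ≠ 0 := (sub_pos.2 hlt).ne'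
    have he : sxl1.v y x * (c3g.v y - cv6m.v y) = xt7q1.v y x - xt6q1.v y x := by
      simp only [sxl1]
      exact inv_mul_cancel_right₀ hd _
    show lamg.v x * (1 + sxl1.v y x) * _ = _
    linear_combination lamg.v x * he
  | 2, h =>
    rw [(show tL 7 2 y x = lamg.v x * (c3g.v y + xt7q2.v y x) from (tbF_on (onc h (by decide))).trans (by show l7q2.v y x = _; simp only [l7q2])), (show tL 6 2 y x = lamg.v x * (cv6p.v y + xt6q2.v y x) from (tbF_on (onc h (by decide))).trans (by show l6q2.v y x = _; simp only [l6q2]))]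
    rw [ecv6q2, ← c3g_v] at hlt ⊢
    have hd : c3g.v y - cv6p.v y ≠ 0 := (sub_pos.2 hlt).ne'
    have he : sxl2.v y x * (c3g.v y - cv6p.v y) = xt7q2.v y x - xt6q2.v y x := by
      simp only [sxl2]
      exact inv_mul_cancel_right₀ hd _
    show lamg.v x * (1 + sxl2.v y x) * _ = _
    linear_combination lamg.v x * he
  | 3, h =>
    rw [vL73 h, vL63 h]
    rw [ecv6q3 x h.1, ← c3g_v] at hlt ⊢
    have hd : c3g.v y - cv6r.v y ≠ 0 := (sub_pos.2 hlt).ne'
    have he : sxl3.v y x * (c3g.v y - cv6r.v y) = xt7q3.v y x - xt6q3.v y x := by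
      simp only [sxl3]
      exact inv_mul_cancel_right₀ hd _
    show lamg.v x * (1 + sxl3.v y x) * _ = _
    linear_combination lamg.v x * he
theorem e12K {y x : ℝ} (h : InQ 2 y) : tKN 1 2 y x = kn1q2.v y x := tbF_on (onc h (by decide))
theorem e22K {y x : ℝ} (h : InQ 2 y) : tKN 2 2 y x = kn2q2.v y x := tbF_on (onc h (by decide))
theorem e12L {y x : ℝ} (h : InQ 2 y) : tL 1 2 y x = lamg.v x * (cv1p.v y + xt1q2.v y x) :=
  (tbF_on (onc h (by decide))).trans (by show l1q2.v y x = _; simp only [l1q2])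
theorem e22L {y x : ℝ} (h : InQ 2 y) : tL 2 2 y x = lamg.v x * (cv2p.v y + xt2q2.v y x) :=
  (tbF_on (onc h (by decide))).trans (by show l2q2.v y x = _; simp only [l2q2])
theorem vK_ (x : ℝ) : ∀ y, InQ 2 y → vv.ya.v ≤ y → y ≤ vv.yk.v → tKN 1 2 y x = 0 := by
  intro y h h1 h2
  rw [show vv.ya.v = 577 / 500 from yaV] at h1
  rw [show vv.yk.v = 61 / 50 from ykV] at h2
  rw [e12K h]
  simp only [kn1q2, kf1q2, kb1q2]
  push_cast
  rcases h1.eq_or_lt with g | g
  · subst g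
    norm_num
  · (repeat first | rw [if_pos (by linarith)] | rw [if_neg (by linarith)])
    (try ring1)
theorem vL_ (x : ℝ) : ∀ y, InQ 2 y → vv.ya.v ≤ y → y ≤ vv.yk.v →
    tL 1 2 y x = dd.la.v x * (crv (PP x) 1 2 y * (1 - h0 * vv.m1.v x + vv.s.v x * max (y - vv.yb.v) 0)) := by
  intro y h h1 h2
  rw [show vv.ya.v = 577 / 500 from yaV] at h1
  rw [show vv.yk.v = 61 / 50 from ykV] at h2
  rw [show vv.yb.v = 231 / 200 from ybV]
  rw [e12L h, ecv1q2]
  show lamg.v x * _ = lamg.v x * (_ * (1 - h0 * xm1.v x + xss.v x * _))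
  have hf := flm x
  simp only [xt1q2, xt1q2_3, xt1q2_5, xt1q2_7, xt1q2_13, xss]
  push_cast
  rcases h1.eq_or_lt with g | g
  · subst g
    rw [max_eq_right (by norm_num)]
    norm_num
    left
    linear_combination (cv1p.v (577 / 500)) * hf
  rcases le_or_gt y (231 / 200) with g2 | g2
  · rw [max_eq_right (by linarith)]
    (repeat first | rw [if_pos (by linarith)] | rw [if_neg (by linarith)])
    linear_combination (lamg.v x * cv1p.v y) * hf
  · rw [max_eq_left (by linarith)]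
    (repeat first | rw [if_pos (by linarith)] | rw [if_neg (by linarith)])
    linear_combination (lamg.v x * cv1p.v y) * hf
theorem f2_ (x : ℝ) : ∀ y, InQ 2 y → vv.ya.v ≤ y → ge.f.v y = crv (PP x) 2 2 y := fun _ _ _ => (ecv2q2 x).symm
theorem sK2_ (x : ℝ) : ∀ y, InQ 2 y → vv.ya.v ≤ y → crv (PP x) 1 2 y < crv (PP x) 2 2 y →
    ge.SK.v y x * (crv (PP x) 2 2 y - crv (PP x) 1 2 y) = tKN 2 2 y x - tKN 1 2 y x := by
  intro y h _ hlt
  rw [e22K h, e12K h]
  rw [ecv1q2, ecv2q2] at hlt ⊢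
  have hd : cv2p.v y - cv1p.v y ≠ 0 := (sub_pos.2 hlt).ne'
  show nke2.v y x * _ = _
  simp only [nke2]
  exact inv_mul_cancel_right₀ hd _
theorem sX2_ (x : ℝ) : ∀ y, InQ 2 y → vv.ya.v ≤ y → crv (PP x) 1 2 y < crv (PP x) 2 2 y →
    dd.la.v x * (1 + ge.SX.v y x) * (crv (PP x) 2 2 y - crv (PP x) 1 2 y) = tL 2 2 y x - tL 1 2 y x := by
  intro y h _ hlt
  rw [e22L h, e12L h]
  rw [ecv1q2, ecv2q2] at hlt ⊢
  have hd : cv2p.v y - cv1p.v y ≠ 0 := (sub_pos.2 hlt).ne'
  have he : sxe2.v y x * (cv2p.v y - cv1p.v y) = xt2q2.v y x - xt1q2.v y x := by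
    simp only [sxe2]
    exact inv_mul_cancel_right₀ hd _
  show lamg.v x * (1 + sxe2.v y x) * _ = _
  linear_combination lamg.v x * he
theorem sXo_ (x : ℝ) : ∀ y, InQ 2 y → vv.ya.v ≤ y → y ≤ vv.yk.v → 1 ≤ h0 * y → 0 < crv (PP x) 1 2 y →
    dd.la.v x * (1 + (ff 2).SX.v y x) * crv (PP x) 1 2 y = tL 1 2 y x := by
  intro y h _ _ hge hlt
  have hz := off_sq hge
  rw [e12L h]
  rw [ecv1q2] at hlt ⊢
  have hx0 : xt0q2.v y x = 0 := by
    simp only [xt0q2, xt0q2_6]
    push_cast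
    rw [if_pos (by linarith)]
  have hd : cv1p.v y - c1g.v y ≠ 0 := by
    rw [c1g_off hge, sub_zero]
    exact hlt.ne'
  have he : sxf2.v y x * (cv1p.v y - c1g.v y) = xt1q2.v y x - xt0q2.v y x := by
    simp only [sxf2]
    exact inv_mul_cancel_right₀ hd _
  rw [c1g_off hge, sub_zero, hx0, sub_zero] at he
  show lamg.v x * (1 + sxf2.v y x) * _ = _
  linear_combination lamg.v x * he

/-- **The facts about the table IE1.** -/
theorem ok {x : ℝ} (hx : 39 / 40 ≤ x) (hx' : x < 1) : tt.Ok (PP x) tKN tL x where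
  i0 := rfl
  i1 := rfl
  il := rfl
  rl := by
    show 1 < (PP x).ρ 6
    have e : (PP x).ρ 6 = 8 / 5 := rfl
    rw [e]
    norm_num
  ok := dok hx hx'
  kh := rfl
  tg0 := tg0_ hx hx'
  tgn := tgn_ hx hx'
  f0 := f0_ x
  fn := fn_ x
  sK0 := sK0_ x
  sX0 := sX0_ x
  sKn := sKn_ x
  sXn := sXn_ x
  k5 := by
    show _ ≤ (Cn.rt 2 5).v
    rw [k5V]
    norm_num
  yb := by
    show 0 ≤ (Cn.rt 231 200).v ∧ 1 ≤ 3 / 4 * (Cn.rt 231 200).v ^ 2
    rw [ybV]
    norm_num
  mid := by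
    intro v hv
    have h5 : vv.k5.v = 2 / 5 := k5V
    have hv' : |v| ≤ 1 / 10 := by
      refine hv.trans ?_
      show 1 / 2 - vv.k5.v ≤ _
      rw [h5]
      norm_num
    have h := mid_ hx hx' hv'
    show Ty.la .u2 * _ + Ty.lb .u2 * _ = _
    simp only [Ty.la, Ty.lb]
    refine Eq.trans ?_ h
    show 1 * dx38.kv (clR (e3R x) (1 / 2 - v)) x + -1 * dx38.kv (clR (e3R x) (1 - (1 / 2 - v))) x = _
    ring
  cya := by
    intro y h
    have h5 : vv.k5.v = 2 / 5 := k5V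
    have ha : vv.ya.v = 577 / 500 := yaV
    show _ ≤ 1 / 2 - vv.k5.v
    rw [h5]
    refine (cya_ (by rw [← ha]; exact h)).trans (by norm_num)
  vK := vK_ x
  vL := vL_ x
  f2 := f2_ x
  sK2 := sK2_ x
  sX2 := sX2_ x
  sXo := sXo_ x

end Pool.Agent.Strip051.G.IE1.Tab.StN
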