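import Pool.Agent.Strip051.G.IE1.StNF

/-! # Strips StNaD (generated) -/

set_option linter.all false
set_option maxRecDepth 100000

namespace Pool.Agent.Strip051.G.IE1.Tab.StN.C

open Pool.Agent.Strip051.PB Pool.Agent.Strip051.PB.T
open Pool.Agent.StripNear Pool.Agent.Strip051.LC
open Pool.Agent.Strip051.G.IE1.Tab Pool.Agent.Strip051.G.IE1.Tab.St Pool.Agent.Strip051.G.IE1.Tab.StN

noncomputable def cut_B70pp_101_s1 : Cut := Cut.of [[⟨4, 0, 0, 1140850688⟩], [⟨0, 1, 0, 67108864⟩, ⟨1, 0, 0, 67108864⟩, ⟨2, 1, 0, 67108864⟩]]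

noncomputable def xt_B70pp_101_s1 : Ext := strExtYN dd 3 false true true .s0 .u0 .u0m .npn 1 0 1 rfl rfl gf0 ge vv ndN7q1 ndN0q1

noncomputable def f_B70pp_101_s1 : ℕ → ℕ → ℕ → ℕ → Bool := onCell 0 536870912 536870912 536870912 1046898278 26843546
    (rowNX 3 2 false true true .npn 1 0 1 (qsf 536870912 536870912 536870912 536870912 0) ndN7q1 ndN0q1 pcN0 cut_B70pp_101_s1 xt_B70pp_101_s1)

end Pool.Agent.Strip051.G.IE1.Tab.StN.C
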