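import Pool.Agent.Strip051.G.IE1.StNF

/-! # Strips StNbD (generated) -/

set_option linter.all false
set_option maxRecDepth 100000

namespace Pool.Agent.Strip051.G.IE1.Tab.StN.C

open Pool.Agent.Strip051.PB Pool.Agent.Strip051.PB.T
open Pool.Agent.StripNear Pool.Agent.Strip051.LC
open Pool.Agent.Strip051.G.IE1.Tab Pool.Agent.Strip051.G.IE1.Tab.St Pool.Agent.Strip051.G.IE1.Tab.StN

noncomputable def cut_B07mm_202_s1 : Cut := Cut.of [[⟨4, 0, 0, 1140850688⟩], [⟨0, 1, 0, 67108864⟩, ⟨1, 0, 0, 67108864⟩, ⟨2, 1, 0, 67108864⟩]]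

noncomputable def xt_B07mm_202_s1 : Ext := strExtYN dd 3 false false false .u2 .s2m .u0m .pp 2 0 2 rfl rfl gf0 ge vv ndN0q2 ndN7q2

noncomputable def f_B07mm_202_s1 : ℕ → ℕ → ℕ → ℕ → Bool := onCell 0 536870912 0 536870912 1046898278 26843546
    (rowNX 3 1 false false false .pp 2 0 2 (qsf 0 536870912 1073741824 536870912 0) ndN0q2 ndN7q2 pcN0 cut_B07mm_202_s1 xt_B07mm_202_s1)

end Pool.Agent.Strip051.G.IE1.Tab.StN.C
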