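import Pool.Agent.Strip051.G.IE1.StNeD

/-! # Strips StNe33 (generated) -/

set_option linter.all false
set_option maxRecDepth 100000

namespace Pool.Agent.Strip051.G.IE1.Tab.StN.C

open Pool.Agent.Strip051.PB Pool.Agent.Strip051.PB.T
open Pool.Agent.StripNear Pool.Agent.Strip051.LC
open Pool.Agent.Strip051.G.IE1.Tab Pool.Agent.Strip051.G.IE1.Tab.St Pool.Agent.Strip051.G.IE1.Tab.StN

def k2593_B00pm_011_s3 : ∃ t, chk3 f_B00pm_011_s3 t 478 2003 13 = true :=
  ⟨(a (c (a (l 16728144) (b (l 16738016) (l 16750248))) (a (l 16707056) (l 16733552))) (b (a (c (a (l 16742360) (l 16755816)) (a (l 16742296) (l 16745280))) (b (a (c (l 16761104) (l 16750592)) (b (c (a (l 16764568) (a (b (b (c (a (l 16766400) (l 16776960)) (l 16771744)) (l 16766040)) (l 16765184)) (c (c (c (l 484882959) (l 484856335)) (c (l 484829455) (l 484802831))) (b (a (l 84523602551) (l 16770224)) (l 16765960))))) (a (l 16754080) (b (a (b (l 79691765063) (l 16755552)) (c (l 100629728695) (l 16770760))) (l 16765560)))) (c (l 16763080)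 (l 16752576)))) (c (a (l 16746096) (l 16759648)) (c (l 16747600) (l 16726608))))) (c (a (l 16734920) (l 16751288)) (a (l 16713864) (l 16740744))))), by decide +kernel⟩

def k2594_B00pm_011_s3 : ∃ t, chk3 f_B00pm_011_s3 t 958 2002 13 = true :=
  ⟨(l 4), by decide +kernel⟩

def k2595_B00pm_011_s3 : ∃ t, chk3 f_B00pm_011_s3 t 1916 4006 13 = true :=
  ⟨(b (c (c (c (c (l 484306191) (l 484279055)) (c (l 484252175) (l 484225039))) (c (c (l 484197903) (l 484170767)) (c (l 484143631) (l 484116495)))) (b (a (c (c (c (l 484346127) (l 484319247)) (c (l 484292111) (l 484265231))) (a (b (l 4) (b (l 16764504) (l 82912989959))) (l 4))) (l 4)) (b (a (a (a (l 16755128) (c (b (l 16771792) (l 16755640)) (l 16766304))) (c (l 97945371175) (l 99019102439))) (l 4)) (a (a (l 16754376) (a (a (l 16755376) (l 74323044919)) (b (l 99019115783) (a (l 16766368) (l 16777040))))) (c (l 97408482263) (l 98482223895)))))) (c (a (a (l 16761992) (a (l 16763176) (b (l 16765128) (l 16773304)))) (b (a (a (b (b (c (a (l 16771776)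 (l 16776416)) (l 82912990487)) (c (l 16766208) (l 16766208))) (l 16765352)) (a (b (b (l 4) (c (l 83986732215) (l 16776912))) (l 16765952)) (b (l 4) (b (c (l 16771808) (l 16766568)) (l 16766064))))) (c (c (c (l 483911183) (l 483884047)) (c (l 483856655) (l 483829519))) (c (c (l 483802127) (l 483774735)) (c (l 483747343) (l 483720207))))) (a (l 16764008) (b (a (c (l 16765800) (l 16755312)) (b (a (c (l 16771832) (l 16771832)) (l 96334761623)) (c (b (l 16771664) (l 16766168)) (l 16766288)))) (l 16765032))))) (b (a (c (l 16753440) (l 16732464)) (b (c (a (a (b (l 16771720) (l 16755720)) (l 98482243911)) (l 4)) (a (a (l 78081141575) (l 16764936)) (l 4))) (a (c (l 73249302071) (l 16765720)) (a (b (l 16770392) (c (l 16771776) (l 16766528))) (l 4))))) (a (l 16751120) (a (l 16753512) (b (a (l 16755304) (c (b (l 16771448) (l 16766288)) (l 79154883511))) (l 16754544))))))), by decide +kernel⟩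

def k2596_B00pm_011_s3 : ∃ t, chk3 f_B00pm_011_s3 t 1917 4006 13 = true :=
  ⟨(c (a (b (l 4) (c (c (c (l 483519503) (l 483492111)) (c (l 483464463) (l 483437071))) (c (c (l 483409423) (l 483382031)) (c (l 483354383) (l 483326735))))) (l 4)) (b (l 4) (a (c (c (c (l 483299343) (l 483271695)) (c (l 483244047) (l 483216399))) (c (c (l 483188751) (l 483161103)) (c (l 483133455) (l 483105807)))) (l 4)))), by decide +kernel⟩

def k2597_B00pm_011_s3 : ∃ t, chk3 f_B00pm_011_s3 t 958 4007 13 = true :=
  ⟨(a (b (a (c (l 16758168) (l 16747648)) (c (a (l 16760528) (l 16762120)) (l 16750808))) (c (l 16755104) (l 16744568))) (b (c (a (a (a (l 16763320) (b (c (l 72712430311) (l 16765296)) (l 16773440))) (b (a (b (b (c (a (l 82912990583) (l 16775864)) (l 100629729495)) (a (l 16766208) (b (l 82376125111) (l 16771704)))) (l 16765528)) (b (c (l 95261017415) (l 95797888263)) (b (c (a (l 16766408) (l 83986732135)) (l 79691765079)) (l 16766048)))) (l 16764168))) (b (c (c (c (l 482991375) (l 482963471)) (c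 (l 482935823) (l 482907919))) (c (c (l 482880271) (l 482852367)) (c (l 482824463) (l 482796559)))) (a (b (a (c (a (l 16765776) (b (l 16771688) (l 16776376))) (l 16765960)) (b (a (c (l 100092859223) (l 16776736)) (l 4)) (c (a (l 16766296) (l 81302377991)) (a (l 16755808) (l 16771840))))) (l 16765208)) (c (c (c (l 482857487) (l 482829583)) (c (l 482801679) (l 482773775))) (c (c (l 482745871) (l 482717967)) (c (l 482690063) (l 482662159))))))) (a (b (a (c (l 16754400) (l 16754400)) (a (b (c (b (l 16771168) (l 16766360)) (b (l 16776392) (l 16755872))) (l 16755032)) (b (l 96871629975) (b (c (l 16771752) (l 16766512)) (l 16755560))))) (l 16752856)) (b (a (a (b (l 4) (c (l 100629728503) (l 16770656))) (l 4)) (l 4)) (a (b (a (c (l 16765960) (l 16755472)) (b (l 100629728887) (a (l 16766296) (l 16771840)))) (l 16754712)) (b (l 99019100103) (c (a (b (l 16771808) (l 16755648)) (l 100092857015)) (a (l 75933657815) (l 16770368)))))))) (a (c (l 16759824) (l 16749312)) (b (c (a (l 16763424) (b (b (a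 (l 16765544) (a (l 16766160) (c (l 16771760) (l 16766512)))) (l 16765360)) (l 16764472))) (a (l 16752928) (a (l 16754160) (c (l 16765456) (l 69491184167))))) (c (l 16761864) (l 16751360)))))), by decide +kernel⟩

def k2598_B00pm_011_s3 : ∃ t, chk3 f_B00pm_011_s3 t 959 1001 13 = true :=
  ⟨(b (l 4) (a (c (b (l 4) (c (b (l 4) (a (c (c (l 482458639) (l 482430479)) (c (l 482402575) (l 482374415))) (c (c (l 481923087) (l 481894671)) (c (l 481866255) (l 481837839))))) (b (l 4) (a (c (c (l 482346255) (l 482318095)) (c (l 482289935) (l 482261775))) (c (c (l 481809423) (l 481781263)) (c (l 481752591) (l 481724175))))))) (b (l 4) (a (b (l 4) (b (c (c (c (l 482233871) (l 482205711)) (c (l 482177295) (l 482149135))) (c (c (l 482120975) (l 482092815)) (c (l 482064399) (l 482036239)))) (a (l 16753824) (b (a (c (a (l 16755472) (l 74859915991)) (l 16766112)) (b (l 16770296) (c (l 16771784) (l 16766536)))) (l 16765368))))) (b (l 4) (c (c (c (l 481695759) (l 481667343)) (c (l 481638927) (l 481610255)))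 (c (c (l 481581839) (l 481553423)) (c (l 481524751) (l 481496335)))))))) (l 4))), by decide +kernel⟩

def k2599_B00pm_011_s3 : ∃ t, chk3 f_B00pm_011_s3 t 119 1000 14 = true :=
  ⟨(a (a (b (a (c (l 16737760) (l 16716720)) (b (a (c (b (l 16729880) (l 16768016)) (l 16686008)) (b (a (c (a (l 16754120) (b (a (l 85597334311) (l 100092845863)) (l 16733536))) (b (a (l 16734088) (l 16755424)) (l 16690920))) (c (c (c (l 492417807) (l 492372751)) (c (l 492327439) (l 492282127))) (b (l 16727288) (a (l 16755624) (l 16752768))))) (c (a (l 16729968) (c (l 16753576) (l 16753568))) (l 16752224)))) (c (l 16743848) (l 16722832)))) (a (l 16701928) (c (l 16711320) (l 16669280)))) (c (b (a (c (a (b (c (l 491732751) (l 491686671)) (b (a (l 16731408) (c (l 491496719) (l 491450639))) (l 16728800))) (c (c (l 490815247) (l 490791951)) (l 490756623))) (c (l 491189263) (l 491142927))) (c (c (l 489395215) (l 489346831)) (c (l 489298191) (l 489249807)))) (a (b (a (l 16722840) (b (b (l 16731264) (l 16729240)) (l 16726192)))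 (l 16717472)) (b (c (c (c (l 489400079) (l 489376015)) (c (l 489351695) (l 489327375))) (c (l 489291023) (l 489242383))) (a (l 16725552) (b (a (l 16752864) (a (b (b (l 102777201623) (l 16765992)) (l 16733016)) (b (l 98482228199) (c (l 79691753191) (l 16755320))))) (l 16729120)))))) (b (a (c (c (l 491096335) (l 491049743)) (c (l 491003151) (l 490956303))) (c (c (l 489201167) (l 489152527)) (c (l 489103631) (l 489054991)))) (c (c (c (l 490206991) (l 490183183)) (a (l 491044623) (l 489146895))) (c (l 490099983) (l 490052111)))))) (a (a (b (l 4) (a (c (c (c (c (l 487934991) (l 487909903)) (c (l 487884815) (l 487859983))) (c (l 487822351) (l 487771919))) (c (c (l 487721743) (l 487671567)) (c (l 487621135) (l 487570703)))) (l 4))) (l 4)) (l 4))), by decide +kernel⟩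

def k2600_B00pm_011_s3 : ∃ t, chk3 f_B00pm_011_s3 t 238 1001 14 = true :=
  ⟨(a (a (l 16637704) (b (l 16695800) (l 16722248))) (b (a (c (l 16705408) (l 16663344)) (b (c (l 16740968) (l 16719936)) (c (l 16711624) (l 16669584)))) (a (l 16689216) (c (l 16699048) (l 16656960))))), by decide +kernel⟩

def k2601_B00pm_011_s3 : ∃ t, chk3 f_B00pm_011_s3 t 478 1001 14 = true :=
  ⟨(b (a (b (a (b (c (a (l 16729208) (c (l 70028051383) (l 16753104))) (l 16751616)) (c (l 16726368) (l 16684384))) (c (c (c (c (l 486940431) (l 486914831)) (c (l 486889231) (l 486863631))) (c (l 486825231) (l 486774031))) (c (c (l 486722575) (l 486671119)) (c (l 486619663) (l 486568207))))) (a (c (l 16719896) (l 16677888)) (c (b (l 16727896) (l 16723496)) (l 16683712)))) (b (a (a (c (c (c (c (l 486184975) (l 486159119)) (l 486119951)) (c (l 486067983) (l 486015759))) (c (c (l 485963535) (l 485911311)) (c (l 485859087) (l 485806863)))) (l 4)) (l 4)) (a (c (b (b (a (a (l 16732784) (b (a (l 16755464) (l 16766504)) (l 16733768)))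 (a (b (l 16763016) (a (l 16766296) (l 16765312))) (l 4))) (a (l 16731320) (a (l 16754600) (b (a (l 16771600) (l 16753456)) (l 75396786279))))) (a (l 16727976) (l 16731032))) (b (b (c (c (l 485710095) (l 485657615)) (a (l 16733464) (l 103850936855))) (a (l 16773248) (a (l 16733624) (b (l 16754616) (l 16734544))))) (b (l 16688656) (l 16686400)))) (c (c (c (c (l 484912143) (l 484885263)) (c (l 484858639) (l 484832015))) (c (l 484791823) (l 484738319))) (c (c (l 484684815) (l 484631055)) (c (l 484577551) (l 484523791))))))) (a (c (a (l 16665000) (l 16712488)) (l 16709576)) (b (a (c (l 16722760) (l 16680768)) (b (a (c (l 16729600) (l 16687632)) (c (b (a (l 16733096) (b (a (l 16766240) (l 16770736)) (l 16755072))) (l 16731592)) (b (a (l 16691144) (b (l 16766400) (l 16734096))) (l 16689632)))) (c (l 16726584) (l 16684600)))) (c (a (l 16755712) (l 16719704)) (l 16716632))))), by decide +kernel⟩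

def k2602_B00pm_011_s3 : ∃ t, chk3 f_B00pm_011_s3 t 479 1001 14 = true :=
  ⟨(a (b (l 4) (b (a (c (c (c (c (l 483871759) (l 483844623)) (c (l 483817231) (l 483790095))) (c (c (l 483762703) (l 483735311)) (l 483694351))) (c (c (l 483639567) (l 483584783)) (c (l 483529999) (l 483475215)))) (a (a (b (l 4) (b (l 4) (b (c (l 98482230183) (l 16773736)) (c (a (l 16766176) (l 104387825367)) (l 16766352))))) (l 4)) (l 4))) (a (b (c (l 16749192) (l 16728192)) (c (l 16723544) (l 16681552))) (c (c (b (c (c (l 482814479) (l 482786831)) (c (l 482758927) (l 482731023))) (a (l 16728320) (l 16752536))) (b (c (c (l 482703119) (l 482675215)) (l 482633231)) (a (l 16686360) (l 16752528)))) (b (a (b (a (l 16733416) (b (l 16765472) (l 16755376))) (l 16689912)) (c (c (l 482306831) (l 482250511)) (c (l 482194191) (l 482137871)))) (l 16750872)))))) (a (b (l 4) (c (c (c (c (l 481746959) (l 481718543)) (c (l 481690127) (l 481661455))) (c (c (l 481633039) (l 481604623)) (l 481561871))) (c (c (l 481504783) (l 481447695))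 (c (l 481390607) (l 481333263))))) (l 4))), by decide +kernel⟩

def k2603_B00pm_011_s3 : ∃ t, chk3 f_B00pm_011_s3 t 119 1000 15 = true :=
  ⟨(a (a (b (a (l 16716608) (b (a (l 16685960) (b (a (c (l 80228601591) (l 16691632)) (a (c (l 86671051399) (l 16691016)) (l 102240297927))) (c (l 16689296) (l 16689280)))) (l 16722752))) (a (l 16659720) (l 16669128))) (b (a (b (b (l 4) (a (a (c (b (l 16731352) (l 16734144)) (l 16755496)) (l 100629678759)) (l 4))) (a (b (c (a (l 16689432) (b (l 16755608) (l 16691176))) (l 75396761191)) (l 16686784)) (a (b (c (l 104387783991) (l 16729104)) (c (l 16690864) (l 16690856))) (b (l 4) (c (b (l 16730064) (l 16755328)) (l 82912955927)))))) (b (l 4) (a (a (a (l 99555924583) (l 4)) (l 4)) (l 4)))) (a (b (a (l 16680768) (l 16728152)) (l 16717288)) (a (b (b (a (b (c (l 83449828583) (l 16692376)) (l 71101795687)) (c (l 103314039543) (l 16727752))) (c (b (l 74323019703) (l 16688752)) (l 16689680))) (l 16683512)) (b (a (b (l 4) (c (b (l 16728752) (l 80228603527))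 (l 83449824279))) (l 4)) (b (a (l 16731856) (c (b (l 108682758983) (l 16691696)) (l 77544248183))) (l 16687112))))))) (a (a (b (l 4) (b (l 4) (a (a (c (b (l 102240295063) (b (l 76470506535) (l 16690456))) (b (l 16684440) (l 16691304))) (b (l 4) (b (l 100629683719) (c (a (l 16692512) (l 16774152)) (l 16692688))))) (l 4)))) (l 4)) (l 4))), by decide +kernel⟩

def k2604_B00pm_011_s3 : ∃ t, chk3 f_B00pm_011_s3 t 119 1001 15 = true :=
  ⟨(a (a (a (l 16637248) (l 16645720)) (b (a (l 16663160) (c (l 16673704) (l 16673624))) (a (l 16730784) (l 16656736)))) (a (b (a (a (b (c (l 16686512) (l 16686480)) (l 16677792)) (a (b (b (b (c (l 107072143735) (l 16689816)) (c (l 16754848) (l 16691928))) (l 16688800)) (l 16682168)) (b (c (b (l 101166550535) (b (a (l 16692128) (l 16733784)) (l 16690744))) (b (l 16683056) (l 16754440))) (l 16685160)))) (b (b (l 4) (a (a (b (l 4) (a (c (l 16734680) (l 16776616)) (l 103850937271))) (l 4)) (l 4))) (a (b (a (c (l 16732360) (l 16690400)) (b (c (l 105461528439) (l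 16688496)) (a (l 16733608) (c (l 16734776) (l 16776720))))) (l 16729440)) (c (c (c (l 484470031) (l 484416015)) (c (l 484362255) (l 484308239))) (b (l 16739144) (a (b (l 16734632) (l 16691024)) (l 108145878295))))))) (a (c (l 16667528) (l 16667424)) (a (l 16718088) (b (a (l 16685296) (c (c (l 66269951383) (l 16730320)) (l 16688360))) (l 16677600))))) (a (b (l 4) (b (b (b (a (c (l 101703418871) (l 103314030983)) (l 4)) (a (a (c (a (l 16691968) (l 16755120)) (l 16734320)) (l 105461519655)) (l 4))) (a (a (l 16731248) (b (c (a (l 16755536) (l 16731256)) (l 16754712)) (c (l 16733256) (l 16691304)))) (c (a (a (b (l 4) (l 16754496)) (l 4)) (l 4)) (l 104387768231)))) (b (b (a (l 16729328) (a (c (a (l 16691464) (l 16755648)) (l 16692008)) (c (l 16748912) (l 16769680)))) (a (l 16726968) (a (l 16731832) (c (a (l 16734184) (l 16753872)) (l 73249281623))))) (a (l 16681480) (c (l 16687936) (l 16687920)))))) (a (b (l 4) (b (l 4) (b (l 4) (b (a (a (c (l 75396765783) (l 16692832)) (l 102240322551))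 (l 4)) (a (c (l 65196215943) (l 16691576)) (c (l 105461526487) (l 16687496))))))) (l 4))))), by decide +kernel⟩

def k2605_B00pm_011_s3 : ∃ t, chk3 f_B00pm_011_s3 t 238 501 3 = true :=
  ⟨(c (a (b (c (a (l 16693168) (l 16658272)) (a (l 16692480) (l 16615696))) (c (l 16624624) (l 16665664))) (b (c (a (b (l 16716000) (l 16700072)) (b (c (l 16683120) (l 16682912)) (l 16708384))) (a (l 16665528) (b (l 16703560) (l 16707816)))) (c (a (l 16676128) (l 16641512)) (b (l 16645168) (l 16670672))))) (a (c (b (l 16674304) (l 16664752)) (a (l 16592128) (l 16598712))) (c (b (a (l 16623008) (l 16694696)) (a (l 16674464) (l 16681904))) (b (a (l 16622440) (l 16631272)) (l 16593384))))), by decide +kernel⟩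

def k2606_B00pm_011_s3 : ∃ t, chk3 f_B00pm_011_s3 t 478 1002 3 = true :=
  ⟨(a (c (c (b (a (l 16711264) (c (l 16716472) (l 16695336))) (l 16696552)) (b (a (l 16689920) (l 16716064)) (l 16696056))) (c (c (l 16704432) (l 16641304)) (l 16682928))) (c (b (c (a (c (l 16721816) (l 16721672)) (b (c (l 16742392) (l 16731808)) (l 16733296))) (a (c (l 16721528) (l 16700416)) (c (l 16727152) (l 16727032)))) (c (a (l 16703984) (l 16719704)) (c (l 16706264) (l 16685080)))) (c (b (c (l 16724048) (l 16702944)) (l 16705744)) (c (l 16693632) (l 16651520))))), by decide +kernel⟩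

def k2607_B00pm_011_s3 : ∃ t, chk3 f_B00pm_011_s3 t 958 2004 3 = true :=
  ⟨(c (b (c (a (c (b (l 16750592) (l 16745992)) (a (l 16736232) (l 16749736))) (a (c (b (l 16755216) (l 16761032)) (l 16752824)) (c (b (b (l 16764792) (l 16757192)) (l 16753656)) (b (c (l 16758344) (l 16758328)) (l 16753600))))) (a (c (l 16748144) (l 16737576)) (c (b (a (l 16744632) (l 16758304)) (l 16751968)) (a (l 16742224) (l 16745392))))) (c (a (c (l 16728600) (l 16728488)) (c (a (l 16733048) (l 16746576)) (l 16744960))) (c (a (l 16728368) (l 16734384)) (a (l 16749224) (l 16734296))))) (c (b (a (c (l 16716528) (l 16674512)) (c (l 16743752) (l 16722728))) (c (l 16731144) (l 16710064))) (b (c (l 16677552) (l 16677488)) (l 16730880)))), by decide +kernel⟩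

def k2608_B00pm_011_s3 : ∃ t, chk3 f_B00pm_011_s3 t 3836 8016 12 = true :=
  ⟨(b (a (c (l 16767216) (l 16767192)) (b (c (a (l 16774272) (l 16769848)) (l 16769432)) (c (l 16768248) (l 16768232)))) (c (l 16765648) (c (l 16760384) (l 16760368)))), by decide +kernel⟩

def k2609_B00pm_011_s3 : ∃ t, chk3 f_B00pm_011_s3 t 3837 16032 12 = true :=
  ⟨(c (b (a (b (a (c (l 16770976) (l 16765736)) (a (c (c (l 16771592) (l 16771592)) (l 75933668375)) (b (c (l 95261026183) (l 95797897079)) (c (a (l 16771760) (l 16774528)) (b (l 16774504) (l 16771776)))))) (a (l 16770376) (a (l 16771000) (c (l 16771416) (l 16766168))))) (c (c (c (c (c (l 482249999) (l 482243087)) (l 482232591)) (l 482211343)) (c (l 482183183) (l 482154767))) (c (c (l 482126607) (l 482098447)) (c (l 482070031) (l 482041871))))) (a (a (l 16769480) (a (l 16770096) (l 16770512))) (a (c (a (l 16770928) (b (a (l 16771544) (b (l 16774488) (l 16776840))) (l 16776288))) (c (c (l 482192911) (l 482164751)) (c (l 482136335) (l 482108175))))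 (c (b (a (b (l 94187284103) (a (l 16771800) (l 16777088))) (l 16773240)) (a (l 16771464) (b (a (l 16774504) (l 16776784)) (l 77007410455)))) (b (c (c (l 482059023) (l 482030863)) (c (l 482002447) (l 481974031))) (a (l 16771464) (b (l 83986737719) (l 16771720)))))))) (b (a (b (a (l 16770976) (c (a (l 16771584) (a (b (l 16776968) (l 16777000)) (l 85597349975))) (a (l 16771584) (b (l 16776672) (l 16771824))))) (c (l 16765544) (l 16765544))) (c (c (c (l 482013455) (l 481985039)) (c (l 481956879) (l 481928463))) (c (c (l 481900047) (l 481871631)) (c (l 481843215) (l 481814799))))) (b (a (l 16770184) (c (a (b (a (l 16776624) (l 16771768)) (l 16766040)) (a (a (b (l 16776840) (l 16777040)) (l 96871638855)) (l 16770576))) (c (c (l 481899791) (l 481871375)) (c (l 481842959) (l 481814799))))) (a (l 16769584) (a (l 16770832) (a (l 16771456) (b (c (l 83449866807) (l 16777040)) (c (l 16771720) (l 16771720))))))))), by decide +kernel⟩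

def k2610_B00pm_011_s3 : ∃ t, chk3 f_B00pm_011_s3 t 3837 16033 12 = true :=
  ⟨(a (c (c (l 16768096) (l 16762848)) (c (l 16762840) (l 16762832))) (b (c (a (l 16769936) (a (l 16770560) (c (l 16770976) (l 16765728)))) (c (l 16765104) (l 16765096))) (c (c (l 16769144) (l 16763896)) (l 16769136)))), by decide +kernel⟩

def k2611_B00pm_011_s3 : ∃ t, chk3 f_B00pm_011_s3 t 1919 8016 12 = true :=
  ⟨(c (c (a (c (c (c (c (l 481848847) (a (b (a (l 482042127) (l 4)) (a (l 482041359) (l 481907215))) (l 481706255))) (a (l 481964559) (c (b (l 4) (l 481698831)) (l 481691919)))) (c (l 481816847) (l 481802511))) (c (c (l 481788431) (l 481774095)) (a (l 481886479) (l 481617167)))) (l 4)) (a (a (c (c (l 481858063) (l 481829647)) (c (l 481801231) (l 481772815))) (c (c (l 481588495) (l 481560079)) (c (l 481531407) (l 481502991)))) (l 4))) (c (b (c (c (l 481342991) (l 481314319)) (c (l 481285647) (l 481256975))) (c (c (l 481342223) (l 481313551)) (c (l 481284879) (l 481256207)))) (c (c (l 481228303) (l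 481199631)) (c (l 481170703) (l 481142031))))), by decide +kernel⟩

def k2612_B00pm_011_s3 : ∃ t, chk3 f_B00pm_011_s3 t 959 8016 13 = true :=
  ⟨(a (a (c (b (c (l 16762752) (l 16752264)) (l 16760352)) (c (l 16751048) (l 16751040))) (c (b (b (a (a (l 16765424) (b (a (l 16771584) (b (l 98482251575) (a (l 16771760) (l 80228636295)))) (l 16765960))) (a (a (b (l 94724148423) (c (l 77544281463) (l 16771760))) (c (l 96334760519) (l 96871631383))) (l 4))) (b (a (l 16764936) (a (a (l 16765984) (c (l 16771624) (l 16766384))) (c (a (b (l 16776528) (l 16771848)) (l 16765288)) (l 100629729335)))) (a (l 16764328) (a (l 16765584) (a (l 16766216) (c (l 78618023335) (l 16771792))))))) (a (l 16762816) (c (l 16764488) (l 16754000)))) (b (b (a (a (l 16754936) (b (c (l 77007399927) (l 16766456)) (l 16755472))) (a (b (l 16770000) (a (l 16771760) (l 16771152))) (l 4))) (a (l 16754136) (a (l 16765872) (c (b (l 16771080) (l 16766360)) (b (l 16776312) (l 16766360)))))) (a (l 16752320) (l 16753992))))) (c (c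 (c (c (l 481113103) (l 481084431)) (c (l 481055503) (l 481026831))) (c (c (l 480997903) (l 480968975)) (c (l 480940303) (l 480911375)))) (a (c (c (c (l 481152015) (l 481123343)) (c (l 481094415) (l 481065743))) (c (c (l 481036815) (l 481008143)) (c (l 480979215) (l 480950287)))) (l 4)))), by decide +kernel⟩

def k2613_B00pm_011_s3 : ∃ t, chk3 f_B00pm_011_s3 t 1918 8017 6 = true :=
  ⟨(c (a (c (c (l 16756840) (l 16756824)) (l 16756792)) (b (a (c (l 16765696) (l 16770912)) (c (l 16767336) (l 16767320))) (c (l 16764112) (l 16758832)))) (c (a (l 16756752) (c (l 16760024) (l 16749520))) (c (l 16747864) (l 16747848)))), by decide +kernel⟩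

def k2614_B00pm_011_s3 : ∃ t, chk3 f_B00pm_011_s3 t 1919 16034 12 = true :=
  ⟨(a (c (a (a (l 16768576) (b (l 16770016) (l 16774048))) (b (b (a (a (l 16770952) (c (l 16771368) (l 16766128))) (c (c (c (c (l 481641231) (l 481627151)) (l 481605647)) (c (l 481577231) (l 481548559))) (c (c (l 481519887) (l 481491471)) (c (l 481462799) (l 481434127))))) (a (l 16770552) (c (a (l 16776424) (a (l 16771496) (c (l 77007410407) (l 16771696)))) (a (l 16776424) (c (l 16771592) (l 16771592)))))) (a (l 16769640) (c (l 16770480) (l 16770480))))) (a (c (l 16763744) (l 16763736)) (b (a (c (l 16765608) (l 16765608)) (a (b (b (c (a (l 16771824) (l 16777000)) (l 80228636215)) (l 71638701175)) (l 16771176)) (b (b (l 4) (c (l 83986737559) (l 16776960))) (c (l 16771592) (l 16771592))))) (c (l 16764808) (l 16764808))))) (c (c (c (c (c (l 481304335) (c (a (a (l 481495567) (l 481360143)) (l 4)) (a (l 481421071) (l 4)))) (l 481268239)) (c (l 481239567) (l 481210895))) (c (c (l 481181967) (l 481153295)) (c (l 481124623)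 (l 481095695)))) (a (a (b (b (l 4) (c (c (c (l 481269775) (l 481240847)) (c (l 481212175) (l 481183503))) (a (b (l 16776640) (l 78081152487)) (l 16775896)))) (b (a (l 16771416) (a (c (l 75396797703) (l 16771712)) (b (l 226794405191) (c (l 16771784) (l 16777024))))) (l 16771016))) (c (c (c (l 481133839) (l 481105167)) (c (l 481076239) (l 481047567))) (c (c (l 481018639) (l 480989711)) (c (l 480961039) (l 480932111))))) (l 4)))), by decide +kernel⟩

def k2615_B00pm_011_s3 : ∃ t, chk3 f_B00pm_011_s3 t 1919 16034 13 = true :=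
  ⟨(c (a (a (l 16763728) (b (a (l 16765600) (b (a (c (l 76470539575) (l 16771736)) (c (l 99019116983) (l 16776520))) (c (l 71101819255) (l 16766136)))) (l 16764800))) (a (a (a (b (b (l 4) (c (b (l 16776632) (l 16771824)) (l 16771784))) (l 16765864)) (b (l 93650404791) (b (c (a (l 16771712) (l 16771856)) (l 16771768)) (l 16765984)))) (b (l 4) (b (c (l 96871631863) (l 97408502743)) (a (c (l 16771632) (l 16766384)) (c (b (l 16776496) (l 16771856)) (l 16771656)))))) (l 4))) (a (a (l 16753232) (b (a (l 16755112) (b (a (l 16771736) (l 16771256)) (l 16766136))) (l 16754304))) (c (c (c (l 480603919) (l 480574735)) (c (l 480545551) (l 480516623))) (c (c (l 480487439) (l 480458255)) (c (l 480429327) (l 480400143)))))), by decide +kernel⟩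

def k2616_B00pm_011_s3 : ∃ t, chk3 f_B00pm_011_s3 t 3838 16035 6 = true :=
  ⟨(c (a (c (l 16766576) (l 16766552)) (a (c (l 16767816) (l 16767800)) (c (l 16768656) (l 16768640)))) (c (c (l 16762128) (l 16751632)) (l 16751616))), by decide +kernel⟩

def k2617_B00pm_011_s3 : ∃ t, chk3 f_B00pm_011_s3 t 3839 16035 12 = true :=
  ⟨(a (b (c (c (a (l 16770104) (a (l 16770736) (b (l 16771464) (l 16776096)))) (a (l 16764856) (a (l 16765488) (b (l 16771464) (l 16776096))))) (c (c (l 16765280) (l 16765272)) (l 16765272))) (c (c (l 16769304) (l 16764056)) (l 16769288))) (c (b (b (c (c (c (c (l 481167375) (c (l 481156623) (l 481149455))) (l 481131279)) (c (l 481102607) (l 481073679))) (c (c (l 481044751) (l 481016079)) (c (l 480987151) (l 480958223)))) (c (a (a (l 16771280) (b (a (l 16771744) (l 16774520)) (l 16771552))) (c (a (a (b (l 16776688) (l 16771840)) (l 94187284023)) (l 4)) (c (l 481034255) (l 481005327)))) (a (a (l 16766032) (b (a (l 16771744) (l 16774520)) (l 16766304))) (a (b (l 16776392)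 (a (l 78081152519) (l 16776928))) (l 4))))) (a (c (l 16770568) (c (l 16765328) (l 16765320))) (b (a (c (l 16771512) (l 16771512)) (a (c (b (l 16774536) (l 16776920)) (b (l 16774536) (l 16776920))) (b (l 233773726551) (a (b (l 78081157895) (l 16771760)) (b (l 16777080) (l 16774488)))))) (c (l 16771112) (c (l 16765864) (l 16765864)))))) (b (b (c (c (c (l 480929295) (l 480900367)) (c (l 480871439) (l 480842511))) (a (a (b (l 16774384) (l 16771720)) (l 96334761895)) (l 4))) (c (a (a (l 16766032) (a (l 16771592) (b (l 16777144) (l 16776896)))) (a (b (l 16776384) (a (l 16771840) (l 16776920))) (l 4))) (c (c (l 480813327) (l 480784399)) (c (l 480755471) (l 480726543))))) (b (a (l 16770872) (a (c (l 16771512) (l 16766264)) (b (c (l 99019122935) (l 16774256)) (c (l 75933668711) (l 16771760))))) (c (l 16765440) (l 16765432)))))), by decide +kernel⟩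

def k2618_B00pm_011_s3 : ∃ t, chk3 f_B00pm_011_s3 t 3839 16035 13 = true :=
  ⟨(c (a (a (l 16764232) (c (l 16765080) (l 16754592))) (a (a (b (b (c (a (l 16771752) (l 16771872)) (l 16771800)) (l 16766024)) (l 16775584)) (b (b (a (l 98482251351) (l 4)) (c (l 16771672) (l 16766424))) (l 16765528))) (a (b (b (l 4) (c (b (l 16776352) (l 16771880)) (l 16771520))) (c (l 16765952) (l 16765952))) (b (l 4) (b (c (b (l 16776872) (l 16771760)) (l 16771824)) (l 16766072)))))) (b (a (l 16765264) (b (a (a (l 76470539703) (l 16770976)) (l 4)) (c (a (l 16766216) (l 16770904)) (a (l 16755728) (l 16776128))))) (a (l 16753536) (a (l 16754824) (a (l 16765952) (b (l 77544281575) (l 16755584))))))), by decide +kernel⟩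

def k2619_B00pm_011_s3 : ∃ t, chk3 f_B00pm_011_s3 t 959 4009 6 = true :=
  ⟨(a (c (c (a (l 16749688) (c (l 16752872) (l 16752840))) (a (l 16749616) (b (l 16755216) (l 16760864)))) (c (a (l 16739056) (l 16752736)) (a (l 16738984) (l 16742192)))) (b (a (c (c (b (l 16764976) (l 16762544)) (c (l 16758488) (l 16758472))) (c (l 16758448) (l 16747928))) (a (c (c (b (l 16767464) (l 16765024)) (c (l 16760984) (l 16760968))) (c (l 16760952) (l 16750440))) (c (b (c (a (l 16768728) (a (l 16769360) (b (l 16770400) (l 16774416)))) (c (l 16763896) (l 16763888))) (c (l 16766688) (l 16766672))) (c (b (c (l 16763888) (l 16753392)) (l 16761408)) (c (l 16752144) (l 16752136)))))) (c (c (a (l 16753656) (c (l 16756944) (l 16756920))) (a (l 16753608) (c (l 16756904) (l 16756880)))) (c (a (l 16743064) (l 16756848)) (l 16755144))))), by decide +kernel⟩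

def k2620_B00pm_011_s3 : ∃ t, chk3 f_B00pm_011_s3 t 959 2004 7 = true :=
  ⟨(b (c (b (a (a (c (l 16730048) (l 16688088)) (b (c (b (c (a (l 16765784) (l 101703457655)) (a (l 16755296) (l 16764304))) (a (l 16733160) (a (l 16755384) (c (l 16766480) (l 16755992))))) (a (l 16754696) (b (l 16764256) (l 16766128)))) (c (l 16753136) (l 16690208)))) (a (c (c (c (c (l 480921615) (l 480892687)) (c (l 480863759) (l 480834831))) (c (c (l 480805903) (l 480776975)) (l 480733455))) (c (c (l 480675599) (l 480617487)) (c (l 480559375) (l 480501263)))) (l 4))) (a (c (l 16747816) (l 16726816)) (c (b (a (a (l 16732248) (b (c (l 71101818839) (l 16755440)) (l 16733328))) (c (a (b (l 100092843719) (a (l 16755552) (l 16771336))) (l 4)) (a (b (l 16763704) (l 74859915863)) (l 4)))) (a (l 16730624) (a (l 16754152) (a (b (c (l 16766376) (l 16755888)) (l 16775784)) (b (l 16769944) (l 16766112)))))) (b (c (c (l 480401935) (l 480343567)) (c (l 480285199) (l 480226831))) (c (c (l 480401167) (l 480342799)) (c (l 480284431)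 (l 480225807))))))) (c (c (c (l 480734991) (l 480677135)) (c (l 480619023) (l 480560911))) (b (b (a (a (l 16773152) (l 16755152)) (l 16678840)) (a (l 16688496) (a (l 74859893623) (l 4)))) (a (l 16684800) (a (l 16689840) (b (l 111903980551) (l 16733776))))))) (a (c (c (l 16740520) (l 16677536)) (l 16719384)) (b (a (c (c (l 16726920) (l 16684944)) (l 16684896)) (c (c (l 16751272) (l 16730280)) (l 16730248))) (c (c (l 16744608) (l 16681648)) (l 16723520))))), by decide +kernel⟩

def k2621_B00pm_011_s3 : ∃ t, chk3 f_B00pm_011_s3 t 479 2005 3 = true :=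
  ⟨(c (a (c (a (c (l 16714768) (l 16714600)) (b (c (l 16725168) (l 16746008)) (l 16726160))) (a (c (l 16693456) (l 16693280)) (c (l 16720168) (l 16699048)))) (c (b (c (a (l 16741680) (a (l 16746368) (b (l 16752024) (l 16757600)))) (a (l 16741576) (a (l 16746280) (l 16749496)))) (a (b (l 16734424) (l 16740104)) (c (l 16738184) (l 16738064)))) (b (c (a (l 16730984) (a (l 16735712) (l 16749424))) (a (l 16730880) (a (l 16714656) (l 16738872)))) (a (l 16731728) (c (l 16727464) (l 16706368)))))) (c (a (c (l 16716944) (l 16695808)) (a (b (l 16741208) (l 16699984)) (c (l 16732192) (l 16711120)))) (a (l 16695560) (c (l 16707816) (l 16665760))))), by decide +kernel⟩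

def k2622_B00pm_011_s3 : ∃ t, chk3 f_B00pm_011_s3 t 239 1003 3 = true :=
  ⟨(c (a (c (a (l 16670616) (b (l 16688600) (l 16691568))) (a (l 16648936) (b (l 16667064) (l 16690856)))) (a (c (b (c (l 16698936) (l 16698704)) (l 16680104)) (b (c (l 16698464) (l 16677256)) (l 16658496))) (c (a (b (c (l 16707200) (l 16707000)) (l 16708800)) (b (c (l 16723504) (l 16712840)) (l 16693280))) (a (b (l 16717176) (l 16708232)) (b (c (l 16712656) (l 16691504)) (l 16692760)))))) (a (c (a (l 16606280) (l 16678320)) (a (l 16689456) (l 16614760))) (a (c (a (l 16664784) (l 16670032)) (l 16666816)) (c (b (c (l 16709312) (l 16688144)) (l 16689432)) (c (l 16677992) (l 16635808)))))), by decide +kernel⟩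

def k2623_B00pm_011_s3 : ∃ t, chk3 f_B00pm_011_s3 t 119 251 3 = true :=
  ⟨(a (c (b (a (b (l 16614896) (l 16605512)) (b (c (l 16605080) (l 16645952)) (c (l 16614240) (l 16612896)))) (b (a (l 16575056) (l 16580544)) (c (b (l 16554528) (c (a (l 16538768) (c (l 16541560) (l 16540320))) (l 16538168))) (l 16544696)))) (a (b (b (l 16633552) (l 16602696)) (l 16556200)) (b (c (b (l 16644872) (l 16611552)) (l 16543088)) (b (l 16577296) (l 16543600))))) (b (c (a (b (c (a (l 16656912) (l 16622552)) (a (l 16655920) (l 16663568))) (c (l 16583168) (l 16581912))) (a (b (c (b (l 16682320) (l 16663536)) (l 16630120)) (c (l 16635296) (l 16634120))) (c (b (b (l 16671032) (l 16672480)) (l 16601176)) (b (b (l 16670328) (l 16671608)) (l 16600064))))) (a (c (a (l 16553328) (l 16602272)) (a (l 16552176) (l 16559232))) (c (b (a (l 16587304) (a (l 16594320) (l 16599280))) (a (l 16632928) (l 16640888))) (a (l 16609064) (b (l 16595968) (l 16639752)))))) (c (b (a (a (l 16586408) (l 16591216)) (c (a (l 16597528)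 (l 16603864)) (l 16578152))) (c (b (a (l 16562712) (l 16571632)) (c (c (c (a (l 16546792) (b (l 16558088) (l 16549776))) (l 16548776)) (l 16548416)) (l 16526736))) (a (l 16551904) (l 16560160)))) (a (a (l 16481464) (l 16527568)) (a (c (l 16491368) (l 16573584)) (c (l 16497040) (l 16495408))))))), by decide +kernel⟩

def k2624_B00pm_011_s3 : ∃ t, chk3 f_B00pm_011_s3 t 58 126 3 = true :=
  ⟨(b (c (a (a (l 6) (b (a (l 6) (b (c (c (c (l 16620520) (l 16612984)) (l 16612120)) (l 16611272)) (l 6))) (l 6))) (c (b (c (b (a (l 16504936) (c (l 16561704) (l 16554024))) (c (l 16496160) (a (l 16583288) (l 16548696)))) (a (l 16579424) (l 16547016))) (a (l 6) (c (b (l 16467824) (l 16539488)) (b (l 16533120) (c (l 16535992) (l 16522592)))))) (a (b (l 16578176) (l 6)) (l 16449424)))) (a (a (l 6) (b (l 16549376) (l 6))) (a (b (l 16576000) (l 6)) (l 16530456)))) (l 6)), by decide +kernel⟩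

def k2625_B00pm_011_s3 : ∃ t, chk3 f_B00pm_011_s3 t 118 252 3 = true :=
  ⟨(a (c (b (c (b (c (a (b (c (l 16544984) (l 16540392)) (l 16538000)) (b (c (l 16536216) (l 16531600)) (c (l 16533144) (l 16523040)))) (a (l 16536312) (l 16526152))) (c (c (l 16535560) (l 16520632)) (l 16512832))) (b (a (l 16534888) (l 16524648)) (l 16511040))) (c (c (b (c (l 16523488) (l 16516648)) (l 16501184)) (b (c (l 16502384) (l 16495256)) (c (l 16497544) (l 16484048)))) (l 16484928))) (b (b (a (l 16532024) (l 16479680)) (l 16507880)) (l 16481392))) (b (a (c (c (b (c (b (l 16530008) (c (l 16524336) (l 16472256))) (l 16518672)) (c (b (c (l 16522672) (l 16507480)) (l 16510304)) (l 16498056))) (b (l 16517112) (l 16496144))) (b (b (l 16521968) (l 16507992)) (l 16492744))) (c (b (c (c (c (l 16525248) (l 16517464)) (l 16516232)) (l 16514640)) (c (c (b (c (l 16514432) (b (l 16501088) (l 16497296))) (c (l 16510048) (l 16493544))) (b (l 16494624) (l 16483328))) (b (l 16492904) (l 16481264)))) (b (l 16511432) (b (a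 (l 16491360) (l 16487912)) (l 16477656))))) (c (c (c (b (c (l 16497504) (l 16490600)) (l 16469432)) (b (c (l 16434320) (l 16469072)) (c (l 16465680) (l 16452104)))) (l 16371792)) (l 16451704)))), by decide +kernel⟩

def k2626_B00pm_011_s3 : ∃ t, chk3 f_B00pm_011_s3 t 238 252 3 = true :=
  ⟨(c (b (b (c (c (b (c (c (l 16529888) (l 16524408)) (l 16523008)) (c (l 16517832) (l 16507680))) (l 16514240)) (l 16512616)) (c (b (c (c (l 16510112) (c (l 16496928) (l 16491776))) (l 16490264)) (c (a (b (b (l 16497576) (l 16475056)) (a (l 16494688) (l 16491896))) (b (l 16495192) (c (l 16497520) (l 16481008)))) (a (b (l 16479208) (a (l 16474456) (l 16471640))) (b (l 16477216) (l 16468912))))) (a (b (l 16489608) (a (l 16476152) (l 16472568))) (l 16478816)))) (c (a (c (b (c (l 16483520) (l 16476576)) (l 16450688)) (b (c (l 16462208) (l 16454976)) (c (l 16446864) (l 16433240)))) (b (c (b (c (b (a (l 16492328) (l 16489632)) (a (l 16484432) (l 16482808))) (a (l 16477384) (l 16474304))) (c (l 16469208) (l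 16466152))) (b (c (b (a (l 16464104) (c (l 16462824) (l 16459352))) (c (l 16461064) (l 16454760))) (a (l 16458352) (l 16455256))) (c (l 16450264) (l 16440864)))) (c (l 16440952) (c (l 16437088) (l 16402472))))) (b (a (l 16453080) (b (a (l 16456720) (l 16453600)) (l 16438792))) (l 16377904)))) (b (b (l 16509360) (b (l 16484944) (a (a (l 16472456) (l 16468816)) (l 16466760)))) (a (l 16434864) (b (b (a (l 16452760) (b (l 16453256) (l 16446152))) (l 16434608)) (l 16410656))))), by decide +kernel⟩

def k2627_B00pm_011_s3 : ∃ t, chk3 f_B00pm_011_s3 t 239 504 3 = true :=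
  ⟨(c (c (c (b (b (c (a (c (l 16534008) (l 16528536)) (c (l 16540000) (b (l 16538472) (l 16530016)))) (l 16529784)) (a (c (l 16519936) (l 16509784)) (c (l 16524472) (b (l 16518632) (l 16509584))))) (c (b (l 16511392) (a (l 16499336) (c (l 16504856) (l 16497680)))) (b (a (c (l 16496992) (l 16491848)) (c (l 16500072) (l 16494928))) (a (l 16482800) (l 16484416))))) (b (a (l 16517360) (l 16522640)) (a (l 16460544) (b (l 16493416) (c (l 16474648) (l 16473568)))))) (a (l 16497584) (l 16459472))) (a (l 16410224) (b (l 16475912) (l 16478120)))), by decide +kernel⟩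

def k2628_B00pm_011_s3 : ∃ t, chk3 f_B00pm_011_s3 t 239 505 6 = true :=
  ⟨(c (b (c (b (a (c (b (l 16489144) (a (b (l 16483280) (l 16478328)) (l 16479992))) (a (l 16472136) (l 16472704))) (c (c (l 16485536) (l 16484312)) (l 16473040))) (a (c (b (a (l 16471536) (l 16469216)) (l 16460088)) (b (a (l 16466712) (b (l 16465872) (l 16463624))) (l 16459776))) (b (c (l 16469056) (l 16464216)) (a (c (l 16457424) (c (b (l 16462352) (l 16458528)) (l 16454840))) (c (l 16456624) (c (l 16459352) (l 16454040))))))) (a (b (b (c (l 16460904) (l 16458368)) (c (a (c (l 16456704) (l 16450392)) (l 16453736)) (l 16448368))) (c (b (a (l 16449472) (b (l 16448296) (l 16446136))) (l 16443920)) (b (a (l 16441776) (l 16439424)) (l 16432808)))) (b (c (c (l 16459912) (l 16455064)) (l 16453976)) (b (c (l 16446976) (l 16439264)) (c (a (l 16441240) (l 16440432)) (a (b (l 16431736) (l 16428280)) (l 16429312))))))) (a (c (b (l 16444376) (l 16423752)) (c (b (l 16436280) (l 16424568)) (b (l 16421512) (l 16409472)))) (c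 (b (b (a (l 16447072) (c (l 16445464) (c (l 16449312) (b (l 16449768) (l 16446592))))) (l 16435752)) (l 16418232)) (b (c (a (l 16433304) (b (l 16435608) (l 16429368))) (b (a (l 16421816) (c (b (a (l 16424304) (l 16423416)) (l 16420952)) (l 16419672))) (l 16413632))) (c (c (l 16422312) (l 16417048)) (l 16403920)))))) (b (a (b (a (l 16451400) (l 16451976)) (a (l 16435944) (b (l 16437680) (l 16429304)))) (b (l 16452296) (b (l 16437512) (a (l 16427912) (l 16427096))))) (a (l 16407856) (b (a (l 16413576) (b (a (l 16418288) (l 16417456)) (l 16407488))) (l 16393464))))), by decide +kernel⟩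

def k2629_B00pm_011_s3 : ∃ t, chk3 f_B00pm_011_s3 t 239 505 7 = true :=
  ⟨(b (a (b (a (b (l 16452992) (l 16443312)) (l 16447920)) (a (l 16431704) (b (l 16433448) (l 16424968)))) (b (l 16448240) (b (l 16433264) (a (a (l 16424152) (l 16422960)) (l 16422712))))) (a (l 16403176) (a (l 16399376) (b (b (a (l 16413800) (l 16412944)) (l 16402864)) (l 16387616))))), by decide +kernel⟩

def k2630_B00pm_011_s3 : ∃ t, chk3 f_B00pm_011_s3 t 59 253 3 = true :=
  ⟨(a (b (a (b (c (c (c (l 16476064) (l 16479144)) (c (l 16463272) (l 16457960))) (l 16454824)) (l 6)) (c (c (c (l 16422752) (b (c (l 16445384) (l 16440504)) (l 16416488))) (c (b (c (l 16427808) (l 16421112)) (c (l 16415072) (l 16403384))) (l 16408200))) (l 16404424))) (l 6)) (c (c (a (b (c (l 16305272) (b (c (l 16414920) (b (l 16415704) (l 16405808))) (l 16379488))) (a (l 16332384) (l 16310584))) (b (c (a (l 16369280) (l 16275048)) (b (c (b (a (l 16408296) (l 16400832)) (l 16382584)) (b (l 16395672) (a (l 16387152) (l 16377720)))) (a (l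 16356800) (l 16344464)))) (a (l 16206624) (b (l 16293888) (l 16249560))))) (a (b (c (b (c (b (l 16401336) (l 16391736)) (l 16390416)) (c (b (l 16384256) (l 16373448)) (b (l 16370392) (l 16360560)))) (l 16290224)) (c (b (c (l 16348392) (l 16261680)) (l 16312128)) (b (c (l 16251040) (l 16328520)) (c (l 16228976) (b (l 16307920) (l 6)))))) (b (c (b (c (b (c (l 16340928) (l 16378560)) (a (l 16373032) (l 16363576))) (a (l 16373032) (l 16364520))) (b (c (l 16356832) (a (l 16348936) (l 16337496))) (c (a (l 16349320) (l 16335960)) (l 16287440)))) (a (l 16353936) (l 16301488))) (c (b (c (l 16227864) (b (l 16317576) (a (l 16311056) (l 16293728)))) (l 16268032)) (b (c (a (l 16306576) (b (l 16296888) (l 16282120))) (l 16291616)) (b (c (l 16277880) (l 16223496)) (c (l 16261448) (c (l 16255184) (l 16247224))))))))) (a (b (a (l 16377832) (l 16362560)) (a (l 16320472) (l 16298152))) (b (a (l 16349496) (a (l 16341280) (l 16336616))) (a (l 16193704) (b (l 16278984) (l 16238936))))))), by decide +kernel⟩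

def k2631_B00pm_011_s3 : ∃ t, chk3 f_B00pm_011_s3 t 29 127 3 = true :=
  ⟨(a (l 6) (b (a (l 6) (a (l 6) (b (b (c (c (l 16218864) (c (l 16222464) (b (c (l 16240328) (l 16237744)) (l 16218464)))) (c (c (c (b (l 16226296) (c (l 16215576) (l 16207896))) (l 16213640)) (l 16211864)) (l 16208344))) (l 6)) (l 6)))) (l 6))), by decide +kernel⟩

def k2632_B00pm_011_s3 : ∃ t, chk3 f_B00pm_011_s3 t 15 14 1 = true :=
  ⟨(l 4), by decide +kernel⟩

def k2633_B00pm_011_s3 : ∃ t, chk3 f_B00pm_011_s3 t 30 30 2 = true :=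
  ⟨(l 4), by decide +kernel⟩

def k2634_B00pm_011_s3 : ∃ t, chk3 f_B00pm_011_s3 t 60 124 4 = true :=
  ⟨(l 4), by decide +kernel⟩

def k2635_B00pm_011_s3 : ∃ t, chk3 f_B00pm_011_s3 t 240 500 8 = true :=
  ⟨(l 4), by decide +kernel⟩

def k2636_B00pm_011_s3 : ∃ t, chk3 f_B00pm_011_s3 t 1920 2004 8 = true :=
  ⟨(b (a (c (a (b (l 4) (c (c (c (c (l 483076111) (l 483177487)) (c (l 483288335) (l 483399439))) (c (c (l 483510287) (l 483621391)) (c (l 483732751) (l 483843855)))) (c (c (c (l 483955215) (l 484066575)) (c (l 484177935) (l 484289551))) (c (c (l 484401167) (l 484512783)) (c (l 484624655) (l 484736527)))))) (l 4)) (a (b (l 4) (c (c (c (c (l 484848399) (l 484960271)) (c (l 485072399) (l 485184527))) (c (c (l 485296655) (l 485408783)) (c (l 485521167) (l 485633551)))) (c (c (c (l 485745935) (l 485858575)) (c (l 485971215) (l 486083855))) (c (c (l 486196751) (l 486309391)) (l 486478863))))) (l 4))) (l 4)) (a (b (c (a (b (a (a (a (a (a (b (c (c (l 16773320) (l 16775952)) (b (l 16776256)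 (l 16775672))) (c (c (l 16774760) (l 16774776)) (l 16774808))) (l 14)) (l 14)) (l 14)) (l 14)) (l 14)) (a (a (c (c (a (a (l 16770392) (l 14)) (l 14)) (l 16773200)) (b (l 16773832) (l 16772672))) (l 14)) (l 14))) (l 14)) (b (a (a (a (b (c (c (b (l 16773816) (l 16775872)) (b (l 16773824) (l 16775880))) (c (b (l 16773832) (l 16775888)) (b (l 16773840) (l 16775904)))) (c (b (l 16775304) (l 16774736)) (b (l 16775336) (l 16774784)))) (l 14)) (l 14)) (l 14)) (a (a (a (c (b (l 16773888) (l 16772752)) (b (l 16773944) (l 16772824))) (l 14)) (l 14)) (l 14)))) (b (a (a (c (c (c (c (c (l 483084303) (l 16771000)) (l 16771024)) (l 16771056)) (l 16768512)) (c (l 16768616) (l 16768720))) (l 14)) (l 14)) (a (a (c (c (c (c (c (l 483083791) (l 16768640)) (l 16768664)) (l 16768720)) (l 16768824)) (c (l 16768968) (l 16769112))) (l 14)) (l 14)))) (l 14))), by decide +kernel⟩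

def k2637_B00pm_011_s3 : ∃ t, chk3 f_B00pm_011_s3 t 1920 2005 8 = true :=
  ⟨(b (b (a (a (a (a (c (a (c (c (l 16762176) (l 16764896)) (l 16765056)) (l 14)) (c (l 16765360) (l 16765568))) (l 14)) (l 14)) (l 14)) (l 14)) (a (a (a (c (a (a (c (l 16757520) (l 16760424)) (l 14)) (l 14)) (c (l 16761000) (l 16761288))) (l 14)) (l 14)) (l 14))) (c (a (a (c (c (c (c (a (a (a (b (l 16755272) (l 16750672)) (l 14)) (l 14)) (l 14)) (l 16748416)) (l 16748488)) (l 16748632)) (b (l 16756488) (l 16751848))) (l 14)) (l 14)) (a (c (b (l 16752376) (l 16753056)) (b (l 16752712) (l 16753480))) (l 14)))), by decide +kernel⟩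

def k2638_B00pm_011_s3 : ∃ t, chk3 f_B00pm_011_s3 t 1921 1002 8 = true :=
  ⟨(l 14), by decide +kernel⟩

def k2639_B00pm_011_s3 : ∃ t, chk3 f_B00pm_011_s3 t 961 1002 8 = true :=
  ⟨(l 14), by decide +kernel⟩

def k2640_B00pm_011_s3 : ∃ t, chk3 f_B00pm_011_s3 t 480 1003 8 = true :=
  ⟨(b (a (c (c (a (a (a (a (c (b (c (b (c (l 16746848) (l 16746432)) (l 16742688)) (b (l 16746272) (l 16741864))) (l 16731096)) (b (l 16744088) (b (l 16737160) (l 16732808)))) (l 14)) (l 14)) (l 14)) (l 14)) (a (a (a (b (l 16744896) (l 16735616)) (l 14)) (l 14)) (l 14))) (a (a (b (c (l 16740976) (l 16741512)) (b (l 16734456) (l 16735176))) (l 14)) (l 14))) (l 14)) (a (a (a (a (a (c (c (b (c (l 16728520) (l 16726736)) (l 16719824)) (b (l 16726040) (c (l 16717368) (l 16716936)))) (b (l 16727248) (l 16718192))) (l 14)) (l 14)) (l 14)) (l 14)) (l 14))), by decide +kernel⟩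

def k2641_B00pm_011_s3 : ∃ t, chk3 f_B00pm_011_s3 t 481 501 8 = true :=
  ⟨(l 14), by decide +kernel⟩

def k2642_B00pm_011_s3 : ∃ t, chk3 f_B00pm_011_s3 t 241 250 8 = true :=
  ⟨(l 14), by decide +kernel⟩

def k2643_B00pm_011_s3 : ∃ t, chk3 f_B00pm_011_s3 t 120 500 9 = true :=
  ⟨(l 4), by decide +kernel⟩

def k2644_B00pm_011_s3 : ∃ t, chk3 f_B00pm_011_s3 t 240 501 18 = true :=
  ⟨(b (a (a (b (a (b (a (c (c (c (l 486676495) (l 486903055)) (c (l 487130127) (l 487357199))) (c (c (l 487584783) (l 487812367)) (c (l 488040463) (l 488268815)))) (l 4)) (a (b (b (a (a (a (a (a (b (c (c (l 16776048) (l 16776056)) (b (l 16773720) (l 16775808))) (c (l 16774960) (l 16775000))) (l 14)) (l 14)) (l 14)) (l 14)) (l 14)) (c (a (a (a (a (l 16770736) (l 14)) (l 14)) (l 14)) (l 14)) (a (a (b (l 16771624) (l 16773168)) (l 14)) (l 14)))) (a (a (c (b (l 16768824) (l 16769256)) (b (l 16768936) (l 16769400))) (l 14)) (l 14))) (l 14))) (l 14)) (a (a (a (a (b (c (b (l 16760720) (l 16761568)) (b (l 16760928)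 (l 16761856))) (c (l 16749736) (l 16744896))) (l 14)) (l 14)) (l 14)) (l 14))) (l 14)) (l 14)) (a (a (a (a (b (b (c (l 16736816) (l 16737360)) (c (l 16738488) (l 16739200))) (c (l 16714776) (l 16705232))) (l 14)) (l 14)) (l 14)) (l 14))), by decide +kernel⟩

def k2645_B00pm_011_s3 : ∃ t, chk3 f_B00pm_011_s3 t 240 501 38 = true :=
  ⟨(b (a (b (a (a (a (a (a (a (a (b (c (c (l 488549135) (l 488777487)) (c (l 489006351) (l 489235215))) (b (b (b (b (l 16773784) (l 16775880)) (l 16775088)) (l 16770880)) (b (l 16771384) (l 16769272)))) (l 14)) (l 14)) (l 14)) (l 14)) (l 14)) (l 14)) (l 4)) (a (a (a (a (b (b (b (l 16767792) (l 16765680)) (l 16762504)) (l 16750912)) (l 14)) (l 14)) (l 14)) (l 14))) (l 14)) (a (a (a (a (a (b (l 16732952) (l 16726456)) (l 14)) (l 14)) (l 14)) (l 14)) (l 14))), by decide +kernel⟩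

def k2646_B00pm_011_s3 : ∃ t, chk3 f_B00pm_011_s3 t 240 501 78 = true :=
  ⟨(a (a (b (c (b (c (l 489213455) (l 489329167)) (a (a (a (b (l 16759528) (l 16756400)) (l 14)) (l 14)) (l 14))) (b (c (l 489444879) (l 489560847)) (a (a (a (b (l 16759592) (l 16756504)) (l 14)) (l 14)) (l 14)))) (b (a (c (b (l 16739672) (l 16741760)) (b (a (b (l 16750960) (a (a (c (l 16745696) (c (l 16745736) (b (c (l 16746816) (l 16746544)) (c (l 16744376) (l 16743656))))) (l 14)) (l 14))) (l 14)) (a (a (a (a (c (b (l 16741312) (c (l 16737040) (b (l 16737688) (l 16734672)))) (b (c (b (l 16739440) (l 16739160)) (l 16738584)) (l 16732752))) (l 14)) (l 14)) (l 14)) (l 14)))) (l 14)) (a (c (a (a (a (a (b (c (l 16730680) (b (l 16732752) (c (l 16728384) (l 16727136)))) (c (b (c (l 16724344) (l 16724016)) (c (l 16719608) (l 16718072))) (b (l 16721408) (l 16714384)))) (l 14)) (l 14)) (l 14)) (l 14)) (b (a (a (a (b (c (c (b (c (l 16733960) (l 16733376)) (l 16730560)) (l 16729984)) (l 16726184)) (l 16721608)) (l 14))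 (l 14)) (l 14)) (a (a (l 16712000) (l 14)) (l 14)))) (l 14)))) (l 14)) (l 14)), by decide +kernel⟩

def k2647_B00pm_011_s3 : ∃ t, chk3 f_B00pm_011_s3 t 960 501 79 = true :=
  ⟨(b (a (c (b (c (l 489768719) (l 489884175)) (b (a (b (l 16762432) (a (b (l 16763856) (c (l 16761768) (c (l 16761792) (a (a (a (c (l 16761168) (b (l 16761544) (l 16760120))) (l 14)) (l 14)) (l 14))))) (l 14))) (l 14)) (a (c (b (l 16759368) (a (a (a (b (l 16752336) (c (l 16752928) (c (l 16752784) (l 16752168)))) (l 14)) (l 14)) (l 14))) (b (a (a (a (c (b (l 16759168) (c (l 16757048) (b (l 16757360) (l 16755888)))) (b (c (b (l 16759512) (l 16758096)) (l 16757832)) (l 16754952))) (l 14)) (l 14)) (l 14)) (a (a (a (b (c (c (b (l 16755192) (l 16753672)) (l 16753344)) (l 16751416)) (l 16749160)) (l 14)) (l 14)) (l 14)))) (l 14)))) (b (c (l 469264847) (b (l 471386063) (l 461322191))) (b (a (b (a (a (a (c (c (c (l 16766456) (l 471369935)) (c (l 471396815) (l 471423439))) (b (l 16753136) (l 16749608))) (l 14)) (l 14)) (l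 14)) (a (a (a (a (c (c (b (c (b (l 16763680) (l 16759688)) (l 16762064)) (l 16759192)) (l 16747904)) (l 16744048)) (l 14)) (l 14)) (l 14)) (l 14))) (l 14)) (a (c (b (a (a (l 16742936) (l 14)) (l 14)) (a (l 16736952) (l 14))) (b (c (l 16742344) (l 16739776)) (l 16733992))) (l 14))))) (l 14)) (b (a (c (a (a (a (a (b (c (b (c (b (l 16748064) (c (l 16748480) (l 16747736))) (b (l 16744112) (l 16745912))) (l 16731360)) (l 16719336)) (l 16707704)) (l 14)) (l 14)) (l 14)) (l 14)) (a (a (a (a (b (l 16722152) (l 16708000)) (l 14)) (l 14)) (l 14)) (l 14))) (l 14)) (a (a (b (c (l 16697296) (b (l 16690680) (l 16683592))) (l 16678024)) (l 14)) (l 14)))), by decide +kernel⟩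

def k2648_B00pm_011_s3 : ∃ t, chk3 f_B00pm_011_s3 t 961 501 79 = true :=
  ⟨(l 14), by decide +kernel⟩

def k2649_B00pm_011_s3 : ∃ t, chk3 f_B00pm_011_s3 t 481 501 79 = true :=
  ⟨(l 14), by decide +kernel⟩

def k2650_B00pm_011_s3 : ∃ t, chk3 f_B00pm_011_s3 t 241 501 9 = true :=
  ⟨(l 14), by decide +kernel⟩

def k2651_B00pm_011_s3 : ∃ t, chk3 f_B00pm_011_s3 t 120 251 8 = true :=
  ⟨(a (b (a (c (a (a (a (a (a (b (b (c (l 16708136) (b (l 16708944) (l 16701064))) (l 16691064)) (b (l 16675584) (l 16660080))) (l 14)) (l 14)) (l 14)) (l 14)) (l 14)) (a (a (b (b (b (l 16701240) (c (l 16702192) (l 16703296))) (c (b (l 16693672) (l 16685608)) (l 16689776))) (b (c (l 16674208) (c (l 16672512) (l 16672368))) (l 16658008))) (l 14)) (l 14))) (l 14)) (a (a (a (a (a (b (c (l 16637120) (l 16633520)) (l 16615272)) (l 14)) (l 14)) (l 14)) (l 14)) (l 14))) (l 14)), by decide +kernel⟩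

def k2652_B00pm_011_s3 : ∃ t, chk3 f_B00pm_011_s3 t 240 502 9 = true :=
  ⟨(a (c (a (a (a (b (b (l 16697744) (l 16690696)) (b (l 16673128) (c (l 16654856) (b (l 16661024) (c (l 16651720) (c (l 16652592) (c (l 16653024) (b (l 16655224) (l 16650016))))))))) (l 14)) (l 14)) (l 14)) (b (c (a (c (b (l 16703544) (b (l 16701152) (a (a (b (l 16690552) (c (l 16686048) (l 16686272))) (l 14)) (l 14)))) (b (a (a (a (a (c (l 16698736) (b (c (l 16713712) (b (c (l 16715952) (l 16715416)) (c (l 16710968) (l 16709344)))) (c (b (c (l 16707272) (l 16706488)) (l 16690416)) (l 16699928)))) (l 14)) (l 14)) (l 14)) (l 14)) (a (a (a (a (c (b (c (l 16696248) (b (c (l 16698472) (l 16697432)) (l 16691720))) (c (b (l 16688704) (l 16682448)) (l 16681216))) (l 16680936)) (l 14)) (l 14)) (l 14)) (l 14)))) (l 14)) (a (a (a (a (a (a (c (b (b (l 16680184) (l 16686888)) (l 16623504)) (b (b (l 16660048) (l 16645840)) (l 16624504))) (l 14)) (l 14)) (l 14)) (l 14)) (l 14)) (l 14))) (c (a (c (a (b (a (a (a (c (b (l 16678576)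 (c (l 16669848) (l 16669384))) (b (c (l 16678424) (b (l 16679560) (l 16673072))) (l 16653984))) (l 14)) (l 14)) (l 14)) (a (a (c (b (c (b (l 16663544) (l 16658312)) (l 16658184)) (l 16646416)) (l 16644136)) (l 14)) (l 14))) (l 14)) (b (a (a (a (l 16616288) (l 14)) (l 14)) (l 14)) (a (l 16593888) (l 14)))) (l 14)) (a (a (b (c (l 16602912) (b (l 16611168) (l 16575928))) (b (l 16571536) (l 16557208))) (l 14)) (l 14))))) (l 14)), by decide +kernel⟩

def k2653_B00pm_011_s3 : ∃ t, chk3 f_B00pm_011_s3 t 240 503 9 = true :=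
  ⟨(c (a (c (a (a (b (l 16632992) (b (l 16611144) (c (l 16596896) (c (l 16596504) (b (l 16599336) (a (c (l 16590336) (l 16587560)) (l 14))))))) (l 14)) (l 14)) (b (a (a (a (a (c (b (l 16638080) (c (l 16622568) (b (l 16625624) (c (l 16618328) (l 16615960))))) (b (c (b (l 16643176) (c (l 16634208) (l 16632888))) (b (c (l 16642240) (l 16639248)) (l 16627264))) (b (c (c (l 16623624) (l 16620000)) (l 16612776)) (l 16603856)))) (l 14)) (l 14)) (l 14)) (l 14)) (a (a (a (a (a (b (c (c (b (l 16611120) (l 16601696)) (l 16599000)) (l 16583200)) (l 16526016)) (l 14)) (l 14)) (l 14)) (l 14)) (l 14)))) (l 14)) (a (c (a (a (a (b (b (l 16570504) (l 16541544)) (b (b (l 16520112) (l 16506376)) (l 16486672))) (l 14)) (l 14)) (l 14)) (a (a (b (a (b (l 16531472) (l 16502784)) (l 14)) (b (l 16478256) (c (l 16459616) (l 16481840)))) (l 14)) (l 14))) (l 14))), by decide +kernel⟩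

def k2654_B00pm_011_s3 : ∃ t, chk3 f_B00pm_011_s3 t 241 251 9 = true :=
  ⟨(l 14), by decide +kernel⟩

def k2655_B00pm_011_s3 : ∃ t, chk3 f_B00pm_011_s3 t 121 125 4 = true :=
  ⟨(l 14), by decide +kernel⟩

def k2656_B00pm_011_s3 : ∃ t, chk3 f_B00pm_011_s3 t 120 252 8 = true :=
  ⟨(a (b (a (a (a (c (b (l 16587144) (l 16545160)) (b (l 16575600) (c (l 16545344) (c (l 16545464) (b (l 16552680) (c (l 16537440) (b (l 16539688) (l 16529336)))))))) (l 14)) (l 14)) (l 14)) (c (a (a (a (a (b (l 16512240) (b (b (b (l 16494472) (a (l 16448032) (l 14))) (l 16463904)) (l 16473688))) (l 14)) (l 14)) (l 14)) (l 14)) (b (a (c (l 16522096) (a (a (a (c (b (l 16520840) (c (l 16504904) (l 16499768))) (b (c (l 16515920) (l 16507400)) (l 16485824))) (l 14)) (l 14)) (l 14))) (l 14)) (a (a (a (a (a (c (b (b (l 16472096) (l 16484896)) (c (l 16474144) (l 16467760))) (b (b (l 16452248) (l 16460392)) (l 16440272))) (l 14)) (l 14)) (l 14)) (l 14)) (l 14))))) (l 14)), by decide +kernel⟩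

def k2657_B00pm_011_s3 : ∃ t, chk3 f_B00pm_011_s3 t 240 504 9 = true :=
  ⟨(c (a (c (a (a (a (b (c (b (l 16580928) (c (l 16566176) (b (l 16568464) (l 16558192)))) (b (c (b (l 16583320) (l 16573488)) (l 16571096)) (l 16550416))) (b (c (c (b (l 16553312) (l 16542616)) (l 16539784)) (l 16524320)) (l 16508304))) (l 14)) (l 14)) (l 14)) (b (a (a (l 16452496) (l 14)) (l 14)) (a (l 16408688) (l 14)))) (l 14)) (a (c (a (a (b (l 16452264) (l 16358784)) (l 14)) (l 14)) (a (b (c (b (l 16483568) (l 16458016)) (b (a (a (a (a (c (l 16452048) (b (c (l 16450760) (b (l 16428728) (b (l 16423808) (l 16420824)))) (c (b (l 16420120) (l 16414632)) (l 16393880)))) (l 14)) (l 14)) (l 14)) (l 14)) (a (a (a (c (b (c (l 16436632) (b (l 16413776) (c (l 16387864) (l 16386200)))) (c (b (l 16385400) (l 16400752)) (l 16400800))) (l 16424000)) (l 14)) (l 14)) (l 14)))) (c (a (a (a (b (c (l 16423200) (b (c (l 16421720) (b (l 16377952) (l 16393288))) (c (b (l 16370456) (l 16364800)) (l 16364904)))) (c (b (c (l 16406616)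 (l 16381216)) (c (l 16373608) (l 16349792))) (l 16352200))) (l 14)) (l 14)) (l 14)) (a (a (a (b (l 16407800) (l 16390136)) (l 14)) (l 14)) (l 14)))) (l 14))) (l 14))), by decide +kernel⟩

def k2658_B00pm_011_s3 : ∃ t, chk3 f_B00pm_011_s3 t 240 505 9 = true :=
  ⟨(c (a (a (a (b (l 16368520) (b (b (b (l 16422776) (l 16332016)) (l 16322736)) (l 16386472))) (l 14)) (l 14)) (l 14)) (b (a (a (a (a (a (c (c (l 16395096) (b (c (l 16392608) (b (l 16368320) (b (l 16359576) (l 16333312)))) (c (b (l 16352840) (b (l 16323088) (l 16317760))) (l 16321552)))) (l 16366216)) (l 14)) (l 14)) (l 14)) (l 14)) (l 14)) (a (c (a (a (a (a (b (c (b (b (l 16366000) (b (l 16319192) (l 16337344))) (c (l 16354728) (l 16325856))) (b (b (l 16353456) (l 16348864)) (l 16342096))) (c (c (b (l 16300312) (l 16288960)) (l 16332064)) (l 16328568))) (l 14)) (l 14)) (l 14)) (l 14)) (a (a (b (b (l 16325648) (l 16338576)) (l 16324896)) (l 14)) (l 14))) (l 14)))), by decide +kernel⟩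

def k2659_B00pm_011_s3 : ∃ t, chk3 f_B00pm_011_s3 t 241 252 9 = true :=
  ⟨(l 14), by decide +kernel⟩

def k2660_B00pm_011_s3 : ∃ t, chk3 f_B00pm_011_s3 t 120 253 4 = true :=
  ⟨(c (a (c (a (c (a (a (a (b (l 16436360) (a (a (b (l 16390168) (c (l 16358472) (l 16349376))) (l 14)) (l 14))) (l 14)) (l 14)) (l 14)) (a (a (a (b (b (l 16452072) (c (l 16422272) (b (l 16427408) (l 16406136)))) (b (c (b (l 16396080) (l 16373712)) (l 16368120)) (l 16325128))) (l 14)) (l 14)) (l 14))) (l 14)) (a (a (a (a (b (c (b (c (b (l 16457728) (l 16437552)) (l 16432432)) (l 16390800)) (l 16292936)) (l 16209416)) (l 14)) (l 14)) (l 14)) (l 14))) (l 14)) (a (c (b (a (c (b (l 16307152) (l 16255216)) (a (a (a (a (b (c (l 16330808) (b (c (l 16329056) (b (l 16242304) (l 16272824))) (c (l 16304520) (l 16299832)))) (c (b (c (l 16296584) (l 16288320)) (c (l 16231176) (l 16268320))) (l 16273768))) (l 14)) (l 14)) (l 14)) (l 14))) (l 14)) (a (a (a (a (c (b (c (l 16270088) (b (c (l 16267992) (l 16259648)) (c (l 16202216)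 (l 16155120)))) (c (b (l 16232888) (c (l 16128688) (l 16207600))) (l 16213448))) (l 16245936)) (l 14)) (l 14)) (l 14)) (l 14))) (a (a (a (a (a (b (b (l 16299336) (l 16263456)) (l 16211952)) (l 14)) (l 14)) (l 14)) (l 14)) (l 14))) (l 14))), by decide +kernel⟩

def k2661_B00pm_011_s3 : ∃ t, chk3 f_B00pm_011_s3 t 121 126 4 = true :=
  ⟨(l 14), by decide +kernel⟩

def k2662_B00pm_011_s3 : ∃ t, chk3 f_B00pm_011_s3 t 60 127 4 = true :=
  ⟨(b (a (c (a (a (a (a (a (a (b (b (c (c (c (l 16316248) (l 16298560)) (l 16270264)) (c (l 16232400) (c (l 16203904) (b (l 16198968) (l 16134816))))) (l 6)) (l 6)) (l 14)) (l 14)) (l 14)) (l 14)) (l 14)) (l 14)) (a (a (a (b (b (a (a (l 16169304) (l 14)) (l 14)) (l 16140272)) (l 6)) (l 14)) (l 14)) (l 14))) (l 14)) (a (l 6) (l 14))), by decide +kernel⟩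

def k2663_B00pm_011_s3 : ∃ t, chk3 f_B00pm_011_s3 t 120 124 10 = true :=
  ⟨(l 4), by decide +kernel⟩

def k2664_B00pm_011_s3 : ∃ t, chk3 f_B00pm_011_s3 t 120 500 40 = true :=
  ⟨(l 4), by decide +kernel⟩

def k2665_B00pm_011_s3 : ∃ t, chk3 f_B00pm_011_s3 t 240 501 160 = true :=
  ⟨(c (a (a (b (a (b (a (a (a (a (l 459274575) (l 14)) (l 14)) (l 14)) (l 14)) (b (a (a (a (a (a (a (a (c (b (c (l 471488335) (l 16754232)) (c (c (c (c (l 16751672) (b (l 16753320) (l 16749792))) (l 16751648)) (l 16751904)) (l 16752416))) (b (l 16755272) (l 16753440))) (l 14)) (l 14)) (l 14)) (l 14)) (l 14)) (l 14)) (l 14)) (a (a (a (a (a (a (c (c (b (c (c (c (l 16744688) (b (l 16746328) (l 16742800))) (l 16744608)) (l 16744864)) (c (c (b (l 16739336) (l 16735808)) (l 16737552)) (l 16737800))) (b (l 16745368) (l 16738296))) (b (l 16746376) (l 16739296))) (l 14)) (l 14)) (l 14)) (l 14)) (l 14)) (l 14)))) (l 14)) (b (a (a (a (a (a (a (a (b (c (c (c (c (b (c (l 16730568) (l 16730440)) (l 16723448)) (l 16726960))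 (l 16727200)) (l 16727688)) (l 16728664)) (c (c (c (c (b (l 16716376) (l 16709312)) (l 16712824)) (l 16713064)) (l 16713536)) (l 16714488))) (l 14)) (l 14)) (l 14)) (l 14)) (l 14)) (l 14)) (l 14)) (a (a (a (a (a (a (a (b (c (c (c (c (l 16698704) (l 16698680)) (l 16698912)) (l 16699368)) (l 16700296)) (c (c (c (c (l 16684552) (l 16684528)) (l 16684752)) (l 16685200)) (l 16686096))) (l 14)) (l 14)) (l 14)) (l 14)) (l 14)) (l 14)) (l 14)))) (l 14)) (l 14)) (a (a (a (a (a (b (b (l 467676303) (b (b (b (l 16759816) (l 16756264)) (l 16750936)) (b (l 16738592) (l 16741976)))) (b (b (b (l 16734872) (l 16727760)) (l 16706608)) (b (l 16702856) (l 16688616)))) (l 14)) (l 14)) (l 14)) (l 14)) (l 14))), by decide +kernel⟩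

def k2666_B00pm_011_s3 : ∃ t, chk3 f_B00pm_011_s3 t 240 501 161 = true :=
  ⟨(c (a (a (a (a (a (b (b (l 471305871) (b (b (c (b (l 471404687) (l 16763576)) (c (l 471255183) (l 471155599))) (l 16748432)) (b (l 16741296) (l 16744640)))) (b (b (l 16723440) (l 16719632)) (b (l 16705328) (l 16691016)))) (l 14)) (l 14)) (l 14)) (l 14)) (l 14)) (c (a (a (a (a (a (b (b (l 490405135) (b (b (c (l 471056015) (l 470956431)) (l 16755720)) (l 16739744))) (b (b (l 16725400) (l 16721544)) (b (l 16707184) (l 16692816)))) (l 14)) (l 14)) (l 14)) (l 14)) (l 14)) (a (a (b (a (a (a (b (l 490208015) (b (b (l 16767032) (b (b (l 16764400) (c (l 16762888) (l 16763304))) (l 16760544))) (l 16741080))) (l 14)) (l 14)) (l 14)) (a (a (b (b (l 16727464) (l 16723576)) (b (l 16709192) (l 16694800))) (l 14)) (l 14))) (l 14)) (l 14)))), by decide +kernel⟩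

def k2667_B00pm_011_s3 : ∃ t, chk3 f_B00pm_011_s3 t 240 501 162 = true :=
  ⟨(c (c (a (a (a (a (a (b (b (l 490010895) (b (b (l 16766984) (b (l 16763888) (b (l 16762248) (l 16760864)))) (l 16742424))) (b (b (l 16728016) (l 16724088)) (l 16686704))) (l 14)) (l 14)) (l 14)) (l 14)) (l 14)) (c (a (a (a (a (b (b (l 489928975) (b (b (l 16762440) (l 16763544)) (b (b (b (l 16760784) (l 16759176)) (l 16756472)) (l 16751064)))) (b (b (l 16729760) (l 16725808)) (b (l 16711360) (l 16696904)))) (l 14)) (l 14)) (l 14)) (l 14)) (a (a (a (a (a (b (b (l 489764623) (b (b (l 16766936) (l 16762776)) (b (b (l 16759528) (l 16756400)) (l 16750984)))) (b (b (l 16740136) (l 16725672)) (l 16688224))) (l 14)) (l 14)) (l 14)) (l 14)) (l 14)))) (c (c (a (a (a (a (b (b (l 489731855) (b (b (l 16762400) (l 16763488)) (b (b (l 16760368) (l 16752480)) (l 16752400)))) (b (b (l 16731064) (l 16727080)) (b (l 16712600) (l 16698112)))) (l 14)) (l 14)) (l 14)) (l 14)) (a (a (a (a (a (b (b (l 489567503) (b (b (l 16766888)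 (l 16762720)) (b (b (l 16759592) (l 16757328)) (l 16752312)))) (b (b (l 16741448) (l 16726944)) (l 16684200))) (l 14)) (l 14)) (l 14)) (l 14)) (l 14))) (a (a (a (a (b (b (l 489485071) (b (b (l 16762352) (l 16763416)) (b (l 16759232) (b (b (l 16756424) (l 16754920)) (l 16752256))))) (b (b (l 16732704) (l 16728680)) (b (l 16714152) (l 16699616)))) (l 14)) (l 14)) (l 14)) (l 14)))), by decide +kernel⟩

def k2668_B00pm_011_s3 : ∃ t, chk3 f_B00pm_011_s3 t 240 501 163 = true :=
  ⟨(c (c (a (a (a (a (a (b (b (l 489222159) (b (b (l 16766816) (l 16762616)) (b (l 16758408) (b (l 16755240) (l 16752608))))) (b (b (l 16743736) (l 16729176)) (l 16686336))) (l 14)) (l 14)) (l 14)) (l 14)) (l 14)) (a (a (a (a (a (b (b (l 489025039) (b (b (l 16766768) (l 16762552)) (l 16750968))) (b (b (b (b (l 16750328) (l 16746872)) (l 16741400)) (l 16730448)) (l 16687560))) (l 14)) (l 14)) (l 14)) (l 14)) (l 14))) (c (a (a (a (a (b (b (l 488892431) (b (b (l 16762232) (l 16763248)) (l 16746408))) (b (b (b (b (l 16751560)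 (l 16748800)) (l 16743472)) (l 16732504)) (l 16689576))) (l 14)) (l 14)) (l 14)) (l 14)) (a (a (a (a (b (b (l 488694799) (b (b (l 16762192) (l 16763184)) (l 16746328))) (b (b (b (l 16750392) (l 16739456)) (l 16733784)) (l 16690800))) (l 14)) (l 14)) (l 14)) (l 14)))), by decide +kernel⟩

def k2669_B00pm_011_s3 : ∃ t, chk3 f_B00pm_011_s3 t 241 501 40 = true :=
  ⟨(l 14), by decide +kernel⟩

def k2670_B00pm_011_s3 : ∃ t, chk3 f_B00pm_011_s3 t 240 502 40 = true :=
  ⟨(a (b (a (c (a (c (a (a (a (a (b (a (c (c (a (a (b (b (l 16674264) (l 16667176)) (l 16659152)) (l 14)) (l 14)) (l 16664824)) (l 16645560)) (l 14)) (c (a (a (a (b (l 16642872) (l 16628648)) (l 14)) (l 14)) (l 14)) (l 16638064))) (l 14)) (l 14)) (l 14)) (l 14)) (a (a (a (b (l 16654536) (l 16641488)) (l 14)) (l 14)) (l 14))) (l 14)) (a (a (b (b (l 16664680) (l 16671080)) (b (l 16656496) (l 16641896))) (l 14)) (l 14))) (l 14)) (a (c (a (a (a (a (a (b (c (a (a (b (l 16615448) (l 16601168)) (l 14)) (l 14)) (l 16612456)) (a (a (b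 (l 16588768) (l 16574392)) (l 14)) (l 14))) (l 14)) (l 14)) (l 14)) (l 14)) (l 14)) (a (a (b (l 16599008) (l 16590728)) (l 14)) (l 14))) (l 14))) (l 14)), by decide +kernel⟩

def k2671_B00pm_011_s3 : ∃ t, chk3 f_B00pm_011_s3 t 240 503 40 = true :=
  ⟨(a (a (c (b (a (a (a (a (c (c (c (a (a (b (l 16549920) (l 16521368)) (l 14)) (l 14)) (b (l 16551064) (l 16522448))) (b (l 16552344) (l 16523624))) (b (l 16554912) (l 16525968))) (l 14)) (l 14)) (l 14)) (l 14)) (c (a (c (a (a (a (a (b (l 16498488) (a (b (l 16471608) (c (c (l 16446456) (l 16436480)) (l 16448312))) (l 14))) (l 14)) (l 14)) (l 14)) (l 14)) (a (a (a (b (l 16494856) (b (b (l 16466648) (b (l 16461704) (l 16448184))) (l 16420368))) (l 14)) (l 14)) (l 14))) (l 14)) (a (a (a (a (a (b (b (c (l 16503272) (b (l 16498184) (l 16491816))) (c (b (l 16482240) (l 16475904)) (l 16493872))) (l 16475304)) (l 14)) (l 14)) (l 14)) (l 14)) (l 14)))) (b (b (a (a (a (c (l 16558792) (b (c (l 16568728) (b (c (l 16573736) (l 16564456)) (c (l 16556192)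 (l 16558040)))) (a (c (c (l 16553416) (b (l 16537080) (l 16551856))) (l 16558712)) (l 14)))) (l 14)) (l 14)) (l 14)) (a (a (a (a (c (b (c (l 16535624) (b (l 16530688) (b (l 16525640) (l 16512064)))) (c (b (l 16514472) (b (l 16509456) (l 16495888))) (l 16526040))) (l 16539608)) (l 14)) (l 14)) (l 14)) (l 14))) (a (a (a (a (b (l 16491552) (l 16490872)) (l 14)) (l 14)) (l 14)) (l 14)))) (l 14)) (l 14)), by decide +kernel⟩

def k2672_B00pm_011_s3 : ∃ t, chk3 f_B00pm_011_s3 t 241 251 40 = true :=
  ⟨(l 14), by decide +kernel⟩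

def k2673_B00pm_011_s3 : ∃ t, chk3 f_B00pm_011_s3 t 120 250 41 = true :=
  ⟨(a (b (l 4) (c (c (c (a (a (a (a (b (b (l 488398351) (b (b (l 16762128) (l 16763104)) (l 16746200))) (b (b (b (l 16750264) (b (l 16747000) (c (l 16744152) (l 16744744)))) (b (l 16728856) (l 16732024))) (l 16692640))) (l 14)) (l 14)) (l 14)) (l 14)) (a (a (a (a (b (b (l 488002831) (b (b (l 16762048) (l 16762984)) (l 16746032))) (b (b (l 16747888) (b (b (l 16742400) (c (l 16739416) (l 16740088))) (l 16734544))) (l 16695088))) (l 14)) (l 14)) (l 14)) (l 14))) (c (a (a (a (a (b (b (l 487607311) (b (b (l 16761968) (l 16762872)) (l 16745864))) (b (b (l 16747648) (b (l 16741120) (b (l 16737720) (l 16734888)))) (b (l 16725944) (l 16711072)))) (l 14)) (l 14)) (l 14)) (l 14)) (a (a (a (a (b (b (l 487211279) (b (b (l 16761888) (l 16752272)) (l 16745696))) (b (l 16732536) (b (b (b (l 16732952) (l 16730024)) (l 16724696)) (l 16713480)))) (l 14)) (l 14)) (l 14)) (l 14)))) (c (a (a (b (b (c (l 487203599) (l 486805007)) (a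 (a (a (a (b (l 16758376) (l 16754736)) (l 14)) (l 14)) (l 14)) (l 14))) (a (b (b (b (l 16740392) (l 16746448)) (l 16729320)) (b (b (l 16733152) (c (b (l 16724512) (l 16726744)) (l 16728528))) (b (c (l 16721320) (b (l 16724840) (l 16721736))) (l 16715024)))) (l 14))) (l 14)) (l 14)) (a (a (b (b (c (l 486406415) (l 486007311)) (a (a (a (b (b (l 16760816) (l 16761552)) (l 16744304)) (l 14)) (l 14)) (l 14))) (a (a (b (b (l 16746584) (l 16737560)) (b (l 16728528) (b (l 16721744) (c (l 16711192) (l 16716960))))) (l 14)) (l 14))) (l 14)) (l 14))))) (l 14)), by decide +kernel⟩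

def k2674_B00pm_011_s3 : ∃ t, chk3 f_B00pm_011_s3 t 120 251 41 = true :=
  ⟨(a (b (b (a (c (a (a (a (a (b (l 16665768) (l 16635992)) (l 14)) (l 14)) (l 14)) (l 14)) (b (c (a (a (a (l 16673528) (l 14)) (l 14)) (l 14)) (a (a (a (a (a (b (c (l 16704272) (b (c (l 16709768) (b (l 16712208) (l 16709512))) (c (l 16702600) (l 16704936)))) (c (b (c (l 16692296) (l 16693832)) (c (l 16685088) (l 16687384))) (l 16694808))) (l 14)) (l 14)) (l 14)) (l 14)) (l 14))) (a (c (a (a (a (a (b (c (l 16669464) (b (c (l 16674888) (l 16676384)) (c (l 16667712) (l 16669976)))) (c (b (c (l 16657616) (l 16659080)) (c (l 16650472) (l 16652696))) (l 16659976))) (l 14)) (l 14)) (l 14)) (l 14)) (a (a (a (a (a (l 16632728) (l 14)) (l 14)) (l 14)) (l 14)) (l 14))) (l 14)))) (l 14)) (a (c (a (c (a (a (a (a (b (l 16624696) (b (c (l 16601464) (b (l 16607368) (c (l 16589072) (l 16559728)))) (c (b (c (l 16589872) (l 16580704)) (c (l 16561880) (l 16542984))) (l 16591928)))) (l 14)) (l 14)) (l 14)) (l 14)) (a (a (a (a (b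 (b (c (l 16635192) (b (c (l 16640480) (l 16641904)) (c (l 16633368) (l 16635552)))) (c (b (c (l 16623480) (l 16624864)) (c (l 16605912) (l 16597576))) (l 16625680))) (l 16585088)) (l 14)) (l 14)) (l 14)) (l 14))) (l 14)) (b (a (a (a (a (a (a (l 16604072) (l 14)) (l 14)) (l 14)) (l 14)) (l 14)) (l 14)) (a (a (l 16581264) (l 14)) (l 14)))) (l 14))) (a (a (a (a (a (a (a (b (b (l 16547504) (l 16483144)) (l 16491392)) (l 14)) (l 14)) (l 14)) (l 14)) (l 14)) (l 14)) (l 14))) (l 14)), by decide +kernel⟩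

def k2675_B00pm_011_s3 : ∃ t, chk3 f_B00pm_011_s3 t 120 250 84 = true :=
  ⟨(a (b (l 4) (c (a (b (a (b (c (l 485608207) (l 485208847)) (a (a (a (b (b (l 16760640) (l 16761312)) (l 16743952)) (l 14)) (l 14)) (l 14))) (l 14)) (b (a (a (b (b (l 16744800) (l 16745472)) (l 16728136)) (l 14)) (l 14)) (a (a (a (a (a (b (c (l 16726688) (b (c (l 16728696) (b (l 16729792) (l 16727848))) (c (b (l 16725368) (l 16723432)) (l 16725456)))) (c (b (c (l 16719928) (b (l 16720976) (l 16719048))) (c (l 16715744) (l 16716680))) (l 16720544))) (l 14)) (l 14)) (l 14)) (l 14)) (l 14)))) (l 14)) (a (b (a (b (c (l 484809231) (l 484409359)) (a (a (a (b (b (l 16760472) (l 16761064)) (l 16743608)) (l 14)) (l 14)) (l 14))) (l 14)) (b (a (a (b (a (a (a (a (c (l 16744280) (b (c (l 16746424) (b (c (l 16747512) (l 16747648)) (c (l 16745368) (l 16745888)))) (c (b (l 16743064) (c (l 16740824) (l 16741336))) (l 16743360)))) (l 14)) (l 14)) (l 14)) (l 14)) (a (a (a (a (c (b (c (l 16737392) (b (l 16738544) (l 16736632)))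 (c (b (l 16734056) (l 16732152)) (l 16734320))) (l 16738352)) (l 14)) (l 14)) (l 14)) (l 14))) (l 14)) (l 14)) (a (a (a (a (a (a (l 16707440) (l 14)) (l 14)) (l 14)) (l 14)) (l 14)) (l 14)))) (l 14)))) (l 14)), by decide +kernel⟩

def k2676_B00pm_011_s3 : ∃ t, chk3 f_B00pm_011_s3 t 120 251 84 = true :=
  ⟨(a (b (b (a (a (a (a (a (b (b (c (a (a (b (l 16714792) (b (l 16712440) (l 16710448))) (l 14)) (l 14)) (l 16720192)) (c (l 16682864) (b (l 16716024) (l 16691344)))) (l 16671816)) (l 14)) (l 14)) (l 14)) (l 14)) (l 14)) (a (a (b (a (l 16627608) (l 14)) (l 16625336)) (l 14)) (l 14))) (a (a (b (a (l 16569760) (l 14)) (l 16523504)) (l 14)) (l 14))) (l 14)), by decide +kernel⟩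

def k2677_B00pm_011_s3 : ∃ t, chk3 f_B00pm_011_s3 t 240 500 85 = true :=
  ⟨(l 4), by decide +kernel⟩

def k2678_B00pm_011_s3 : ∃ t, chk3 f_B00pm_011_s3 t 240 501 170 = true :=
  ⟨(a (b (a (a (b (c (l 483760399) (l 494452687)) (b (b (a (a (c (l 16765584) (c (l 16765520) (c (l 494208975) (l 494110927)))) (l 14)) (l 14)) (a (c (l 16756472) (a (a (a (a (c (b (c (l 16761256) (b (l 16761888) (c (l 16760744) (l 16761016)))) (c (b (l 16759552) (l 16758584)) (l 16759728))) (l 16761832)) (l 14)) (l 14)) (l 14)) (l 14))) (l 14))) (a (c (b (a (a (a (c (l 16755592) (b (c (l 16756712) (b (l 16757328) (c (l 16756176) (l 16756400)))) (c (b (l 16755008) (l 16754008)) (l 16755096)))) (l 14)) (l 14)) (l 14)) (a (a (a (c (b (c (l 16752096) (b (l 16752696) (l 16751704))) (c (b (l 16750392) (l 16749400)) (l 16750480))) (l 16752536)) (l 14)) (l 14)) (l 14))) (a (a (a (a (l 16746216) (l 14)) (l 14)) (l 14)) (l 14))) (l 14)))) (l 14)) (l 14)) (a (a (a (a (a (a (a (b (l 16736032) (l 16735392)) (l 14)) (l 14))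 (l 14)) (l 14)) (l 14)) (l 14)) (l 14))) (l 14)), by decide +kernel⟩

def k2679_B00pm_011_s3 : ∃ t, chk3 f_B00pm_011_s3 t 240 501 171 = true :=
  ⟨(c (a (a (a (a (a (a (b (b (l 493844943) (b (b (b (c (l 493934799) (l 16769096)) (l 16766728)) (l 16764616)) (l 16760384))) (l 16725280)) (l 14)) (l 14)) (l 14)) (l 14)) (l 14)) (l 14)) (a (a (b (a (a (a (a (a (a (a (b (l 489598031) (c (c (c (b (c (l 16768096) (b (l 504233743) (l 16766824))) (l 16757240)) (l 16754760)) (l 16754352)) (l 16753544))) (l 14)) (l 14)) (l 14)) (l 14)) (l 14)) (l 14)) (l 14)) (a (a (a (a (c (c (a (a (b (c (l 16743464) (l 16753920)) (l 16742512)) (l 14)) (l 14)) (l 16727152)) (l 16726344)) (l 14)) (l 14)) (l 14)) (l 14))) (l 14)) (l 14))), by decide +kernel⟩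

def k2680_B00pm_011_s3 : ∃ t, chk3 f_B00pm_011_s3 t 241 250 85 = true :=
  ⟨(l 14), by decide +kernel⟩

def k2681_B00pm_011_s3 : ∃ t, chk3 f_B00pm_011_s3 t 120 251 85 = true :=
  ⟨(a (b (b (c (a (a (b (l 16713128) (b (b (l 16706096) (c (l 16710416) (l 16715320))) (l 16683824))) (l 14)) (l 14)) (a (a (a (c (b (l 16729016) (b (l 16720544) (l 16713368))) (a (a (a (a (a (b (l 16730368) (b (l 16721776) (l 16705240))) (l 14)) (l 14)) (l 14)) (l 14)) (l 14))) (l 14)) (l 14)) (l 14))) (a (a (a (c (l 16633720) (c (l 16600624) (a (a (a (a (a (l 16646368) (l 14)) (l 14)) (l 14)) (l 14)) (l 14)))) (l 14)) (l 14)) (l 14))) (a (a (c (b (l 16586640) (l 16581472)) (a (c (l 16550160) (a (a (a (b (l 16619672) (l 16592592)) (l 14)) (l 14)) (l 14))) (l 14))) (l 14)) (l 14))) (l 14)), by decide +kernel⟩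

def k2682_B00pm_011_s3 : ∃ t, chk3 f_B00pm_011_s3 t 240 500 43 = true :=
  ⟨(l 4), by decide +kernel⟩

def k2683_B00pm_011_s3 : ∃ t, chk3 f_B00pm_011_s3 t 240 501 86 = true :=
  ⟨(c (c (a (a (a (a (b (b (l 493132431) (b (b (l 16757824) (l 16754984)) (l 16740232))) (l 16725984)) (l 14)) (l 14)) (l 14)) (l 14)) (a (a (a (a (a (b (b (l 493121679) (b (b (c (b (l 493118095) (l 16765136)) (c (l 493113487) (l 493110671))) (l 16762464)) (l 16758200))) (l 16722976)) (l 14)) (l 14)) (l 14)) (l 14)) (l 14))) (b (a (a (a (b (c (l 493105807) (l 481553423)) (b (a (a (b (l 16759904) (c (b (c (b (c (l 16762272) (l 16762104)) (l 16761272)) (l 16761488)) (c (l 16760136) (b (l 16759752) (l 16758784)))) (l 16760264))) (l 14)) (l 14)) (a (b (c (l 16758304) (b (c (c (b (l 16758176) (l 16757312)) (l 16752272)) (l 16757448)) (c (l 16755976) (b (l 16755672) (l 16754672))))) (l 16754376)) (l 14)))) (l 14)) (l 14)) (l 14)) (a (a (b (a (l 16738456) (l 14)) (l 16719920)) (l 14)) (l 14)))), by decide +kernel⟩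

def k2684_B00pm_011_s3 : ∃ t, chk3 f_B00pm_011_s3 t 240 501 87 = true :=
  ⟨(c (b (a (a (b (c (l 493084815) (l 481524239)) (a (a (a (b (l 16752208) (b (l 16755376) (c (b (c (l 16749280) (l 16751720)) (c (l 16750128) (l 16749432))) (l 16750488)))) (l 14)) (l 14)) (l 14))) (l 14)) (l 14)) (a (a (a (a (b (b (b (c (l 16748288) (b (c (l 16747808) (l 16747672)) (c (l 16745968) (l 16745336)))) (l 16744360)) (l 16740072)) (l 16731496)) (l 14)) (l 14)) (l 14)) (l 14))) (c (a (a (a (a (b (b (l 481513999) (b (b (l 16755488) (l 16761096)) (l 16743288))) (b (b (b (l 16746440) (b (l 16742832) (c (l 16740976) (l 16740400)))) (l 16736840)) (l 16728240))) (l 14)) (l 14)) (l 14)) (l 14)) (a (a (a (a (a (b (b (l 481502223) (b (l 16752200) (l 16752920))) (b (b (l 16743144) (b (b (l 16737072) (l 16734952)) (l 16732424))) (l 16725232))) (l 14)) (l 14)) (l 14)) (l 14)) (l 14)))), by decide +kernel⟩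

def k2685_B00pm_011_s3 : ∃ t, chk3 f_B00pm_011_s3 t 241 250 43 = true :=
  ⟨(l 14), by decide +kernel⟩

def k2686_B00pm_011_s3 : ∃ t, chk3 f_B00pm_011_s3 t 120 251 43 = true :=
  ⟨(a (b (a (a (a (a (b (l 16674536) (b (c (b (c (l 16707280) (l 16704304)) (l 16686224)) (l 16694888)) (c (l 16679704) (b (c (l 16686592) (l 16684040)) (l 16675824))))) (l 14)) (l 14)) (l 14)) (l 14)) (a (a (a (a (l 16537136) (l 14)) (l 14)) (l 14)) (l 14))) (l 14)), by decide +kernel⟩

def k2687_B00pm_011_s3 : ∃ t, chk3 f_B00pm_011_s3 t 120 124 11 = true :=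
  ⟨(l 4), by decide +kernel⟩

def k2688_B00pm_011_s3 : ∃ t, chk3 f_B00pm_011_s3 t 120 250 44 = true :=
  ⟨(a (b (l 4) (c (c (c (a (a (a (a (a (b (b (l 481487887) (b (l 16752200) (l 16752912))) (b (b (l 16743136) (b (l 16735792) (b (l 16732144) (l 16729984)))) (l 16712600))) (l 14)) (l 14)) (l 14)) (l 14)) (l 14)) (c (a (a (a (a (b (b (l 481474575) (b (b (l 16755480) (l 16761088)) (l 16743264))) (b (l 16718104) (b (b (l 16727096) (l 16723704)) (l 16719408)))) (l 14)) (l 14)) (l 14)) (l 14)) (a (a (a (a (b (b (l 481467407) (b (b (l 16755480) (l 16761080)) (l 16743264))) (b (l 16718096) (b (b (l 16726832) (l 16722736)) (l 16718320)))) (l 14)) (l 14)) (l 14)) (l 14)))) (a (b (a (b (c (l 481452559) (l 481438223)) (a (a (a (b (l 16752192) (l 16752896)) (l 14)) (l 14)) (l 14))) (l 14)) (a (a (a (b (l 16718088) (b (b (l 16726808) (l 16716776)) (b (c (l 16718240) (l 16717128)) (l 16714264)))) (l 14)) (l 14)) (l 14))) (l 14))) (a (b (c (a (b (c (l 481423887) (l 481409551)) (a (a (a (b (l 16752184)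 (l 16752888)) (l 14)) (l 14)) (l 14))) (l 14)) (a (b (c (l 481395215) (l 481380879)) (a (a (a (b (l 16752176) (l 16752872)) (l 14)) (l 14)) (l 14))) (l 14))) (a (a (a (b (l 16718056) (b (l 16724320) (l 16714536))) (l 14)) (l 14)) (l 14))) (l 14)))) (l 14)), by decide +kernel⟩

def k2689_B00pm_011_s3 : ∃ t, chk3 f_B00pm_011_s3 t 120 251 44 = true :=
  ⟨(a (b (a (a (a (b (b (c (l 16710864) (b (c (b (c (l 16709904) (l 16708904)) (l 16705904)) (l 16706368)) (c (l 16701456) (b (c (l 16699872) (l 16698992)) (l 16695848))))) (l 16695008)) (l 16635752)) (l 14)) (l 14)) (l 14)) (a (a (a (b (b (c (b (l 16655536) (l 16656480)) (l 16655872)) (c (l 16638872) (b (l 16645240) (l 16635336)))) (l 16604048)) (l 14)) (l 14)) (l 14))) (l 14)), by decide +kernel⟩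

end Pool.Agent.Strip051.G.IE1.Tab.StN.C
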