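import Pool.Agent.Strip051.G.IE1.StNgD

/-! # Strips StNg0 (generated) -/

set_option linter.all false
set_option maxRecDepth 100000

namespace Pool.Agent.Strip051.G.IE1.Tab.StN.C

open Pool.Agent.Strip051.PB Pool.Agent.Strip051.PB.T
open Pool.Agent.StripNear Pool.Agent.Strip051.LC
open Pool.Agent.Strip051.G.IE1.Tab Pool.Agent.Strip051.G.IE1.Tab.St Pool.Agent.Strip051.G.IE1.Tab.StN

def k0_A00pp_022_s3 : ∃ t, chk3 f_A00pp_022_s3 t 4 2 1 = true :=
  ⟨(l 6), by decide +kernel⟩

def k1_A00pp_022_s3 : ∃ t, chk3 f_A00pp_022_s3 t 4 6 1 = true :=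
  ⟨(l 6), by decide +kernel⟩

def k2_A00pp_022_s3 : ∃ t, chk3 f_A00pp_022_s3 t 8 14 1 = true :=
  ⟨(l 6), by decide +kernel⟩

def k3_A00pp_022_s3 : ∃ t, chk3 f_A00pp_022_s3 t 16 15 1 = true :=
  ⟨(l 14), by decide +kernel⟩

def k4_A00pp_022_s3 : ∃ t, chk3 f_A00pp_022_s3 t 34 30 2 = true :=
  ⟨(l 14), by decide +kernel⟩

def k5_A00pp_022_s3 : ∃ t, chk3 f_A00pp_022_s3 t 35 60 4 = true :=
  ⟨(b (l 6) (c (a (l 14) (a (l 14) (a (l 14) (b (l 16522720) (c (b (l 16637128) (b (l 16646016) (c (c (b (l 16660384) (l 16665192)) (l 16655184)) (l 16645456)))) (l 16575168)))))) (a (l 14) (a (l 14) (c (b (l 16529160) (b (l 16588520) (a (l 14) (a (l 14) (b (l 16592040) (c (l 16604432) (l 16591720))))))) (a (l 14) (c (a (l 14) (a (l 14) (b (l 16545584) (b (l 16563392) (b (l 16573952) (l 16582488)))))) (a (l 14) (a (l 14) (a (l 14) (a (l 14) (a (l 14) (c (b (l 16535024) (b (l 16555648) (l 16574696))) (b (b (l 16536888) (l 16528744)) (l 16535176))))))))))))))), by decide +kernel⟩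

def k6_A00pp_022_s3 : ∃ t, chk3 f_A00pp_022_s3 t 35 244 8 = true :=
  ⟨(c (a (l 14) (a (l 14) (a (l 14) (a (l 14) (b (c (b (c (l 16673912) (b (l 16658744) (l 16664376))) (l 16682352)) (b (l 16649720) (c (b (l 16648672) (l 16665624)) (b (l 16650816) (l 16643968))))) (c (c (l 16628248) (l 16614552)) (b (b (c (l 16673248) (l 16638952)) (l 16674016)) (l 16685488)))))))) (a (l 14) (a (l 14) (a (l 14) (b (l 16634720) (c (b (c (b (l 16652040) (c (l 16658848) (l 16653656))) (l 16646848)) (c (l 16624696) (b (c (b (l 16652328) (l 16654776)) (l 16649624)) (c (l 16660064) (b (l 16652312) (l 16655184)))))) (b (l 16636952) (c (l 16646184) (l 16629256))))))))), by decide +kernel⟩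

def k7_A00pp_022_s3 : ∃ t, chk3 f_A00pp_022_s3 t 35 245 8 = true :=
  ⟨(c (a (l 14) (b (a (l 14) (a (l 14) (c (b (c (l 16653072) (l 16639360)) (c (b (l 16705920) (l 16725296)) (l 16696584))) (c (c (l 16636736) (l 16629856)) (l 16619528))))) (a (l 14) (a (l 14) (c (b (c (l 16664680) (b (c (l 16708136) (l 16703984)) (l 16666080))) (l 16669048)) (c (b (b (l 16652504) (c (l 16724720) (l 16698560))) (l 16725552)) (b (l 16642568) (b (b (l 16652168) (l 16718304)) (c (l 16743864) (b (l 16718880) (l 16720856))))))))))) (b (a (l 14) (c (a (l 14) (a (l 14) (a (l 14) (b (l 16589304) (l 16667696))))) (a (l 14) (a (l 14) (b (a (l 14) (a (l 14) (a (l 14) (c (b (c (l 16640584) (b (l 16645000) (l 16646928))) (c (l 16658360) (b (l 16649984) (l 16654104)))) (b (l 16642400) (c (b (l 16625336) (l 16649520)) (l 16646248))))))) (a (l 14) (a (l 14) (c (b (l 16664152) (l 16673016)) (b (c (l 16655784) (b (l 16649896) (l 16653616))) (l 16663032)))))))))) (a (l 14) (a (l 14) (a (l 14) (a (l 14) (a (l 14) (a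 (l 14) (c (b (c (l 16667648) (l 16676664)) (b (l 16695928) (b (l 16681784) (l 16707440)))) (c (l 16655240) (l 16645680))))))))))), by decide +kernel⟩

def k8_A00pp_022_s3 : ∃ t, chk3 f_A00pp_022_s3 t 35 122 9 = true :=
  ⟨(b (a (l 14) (a (l 14) (a (l 14) (c (a (l 14) (a (l 14) (a (l 14) (b (c (l 16601728) (b (l 16598168) (l 16606888))) (c (b (c (l 16624472) (l 16620264)) (l 16631248)) (l 16621496)))))) (a (l 14) (a (l 14) (a (l 14) (c (l 16607104) (c (l 16603656) (c (a (l 14) (a (l 14) (a (l 14) (l 16588584)))) (l 16578736))))))))))) (c (a (l 14) (a (l 14) (b (a (l 14) (a (l 14) (a (l 14) (a (l 14) (b (l 16638584) (c (c (b (l 16649488) (c (b (l 16654544) (l 16658688)) (l 16654032))) (l 16649624)) (l 16646128))))))) (c (a (l 14) (a (l 14) (b (c (b (b (c (l 16662336) (l 16657824)) (l 16664784)) (l 16672048)) (b (c (b (l 16655248) (c (l 16658984) (l 16636576))) (l 16655304)) (c (l 16664880) (b (l 16659232) (c (l 16663672) (l 16661752)))))) (l 16639848)))) (a (l 14) (b (l 16653312) (c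 (b (c (b (c (l 16665056) (l 16661072)) (l 16665888)) (b (l 16660096) (c (b (l 16662264) (l 16663832)) (l 16662288)))) (b (c (l 16670664) (c (l 16667064) (b (l 16664248) (l 16666032)))) (l 16673112))) (b (l 16659576) (c (b (l 16663888) (c (b (l 16666328) (l 16668328)) (l 16666128))) (l 16663944)))))))))) (a (l 14) (a (l 14) (a (l 14) (a (l 14) (a (l 14) (a (l 14) (a (l 14) (a (l 14) (a (l 14) (b (c (l 16636872) (c (l 16633360) (l 16604056))) (c (l 16656560) (c (l 16653008) (b (l 16618824) (l 16649656)))))))))))))))), by decide +kernel⟩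

def k9_A00pp_022_s3 : ∃ t, chk3 f_A00pp_022_s3 t 70 123 8 = true :=
  ⟨(l 14), by decide +kernel⟩

def k10_A00pp_022_s3 : ∃ t, chk3 f_A00pp_022_s3 t 71 246 8 = true :=
  ⟨(b (c (a (l 14) (a (l 14) (c (l 16733800) (a (l 14) (a (l 14) (b (c (l 16745144) (l 16742368)) (c (l 16737096) (l 16746280)))))))) (c (a (l 14) (a (l 14) (a (l 14) (a (l 14) (b (c (b (c (b (l 16738640) (l 16740424)) (l 16726616)) (l 16742352)) (b (l 16730592) (c (b (l 16739840) (l 16742832)) (l 16737840)))) (b (b (c (l 16744320) (l 16733496)) (l 16745672)) (l 16747616))))))) (a (l 14) (a (l 14) (a (l 14) (b (l 16678440) (c (b (b (l 16737312) (c (l 16722792) (l 16739784))) (c (l 16746976) (b (l 16744304) (l 16747376)))) (l 16714040)))))))) (a (l 14) (c (a (l 14) (a (l 14) (a (l 14) (a (l 14) (c (b (c (l 16755360) (l 16747336)) (c (b (l 16756832) (l 16748016)) (l 16756792))) (l 16754288)))))) (a (l 14) (a (l 14) (c (l 16753376) (c (l 16753504) (b (b (c (b (l 16737776) (l 16750352)) (b (l 16744800) (c (l 16749856)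 (l 16748368)))) (l 16752248)) (l 16756160))))))))), by decide +kernel⟩

def k11_A00pp_022_s3 : ∃ t, chk3 f_A00pp_022_s3 t 71 247 8 = true :=
  ⟨(a (l 14) (b (a (l 14) (a (l 14) (a (l 14) (a (l 14) (b (c (l 16756832) (l 16762272)) (c (l 16762064) (l 16756960))))))) (c (a (l 14) (b (a (l 14) (b (c (l 16764936) (l 16764984)) (a (l 14) (a (l 14) (c (l 16768624) (l 16768648)))))) (a (l 14) (b (a (l 14) (b (a (l 14) (c (c (l 16770600) (l 16770608)) (c (l 16770608) (l 16770616)))) (a (l 14) (a (l 14) (a (l 14) (b (b (c (l 16776928) (l 16776936)) (c (a (l 14) (b (l 68417481495) (l 4))) (a (l 14) (b (l 68417481495) (l 4))))) (l 4))))))) (a (l 14) (a (l 14) (l 4))))))) (a (l 14) (b (a (l 14) (a (l 14) (a (l 14) (b (l 16766088) (c (l 16768672) (l 16768696)))))) (a (l 14) (b (a (l 14) (b (a (l 14) (c (c (l 16770624) (l 16770624)) (c (l 16770632) (l 16770632)))) (a (l 14) (a (l 14) (a (l 14) (b (b (c (l 16776936) (l 16776936)) (c (a (l 14) (b (l 67880610567) (l 4))) (a (l 14) (b (l 67880610567)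 (l 4))))) (l 4))))))) (a (l 14) (a (l 14) (l 4)))))))))), by decide +kernel⟩

def k12_A00pp_022_s3 : ∃ t, chk3 f_A00pp_022_s3 t 70 246 9 = true :=
  ⟨(l 14), by decide +kernel⟩

def k13_A00pp_022_s3 : ∃ t, chk3 f_A00pp_022_s3 t 71 246 18 = true :=
  ⟨(b (a (l 14) (a (l 14) (a (l 14) (c (b (l 16659256) (l 16678688)) (b (b (c (l 16681896) (c (b (b (l 16671152) (l 16673440)) (l 16677080)) (b (c (l 16669648) (l 16668880)) (c (l 16673496) (b (l 16649824) (l 16672496)))))) (l 16665808)) (l 16680376)))))) (c (b (a (l 14) (a (l 14) (c (b (l 16696656) (c (b (l 16737536) (c (l 16751584) (l 16740552))) (l 16724936))) (l 16712872)))) (a (l 14) (a (l 14) (a (l 14) (a (l 14) (c (b (c (l 16755632) (b (c (l 16754848) (l 16753784)) (l 16756304))) (l 16758216)) (b (b (l 16748144) (c (c (l 16755720) (l 16754152)) (l 16750600))) (c (l 16747680) (b (c (l 16745848) (l 16754264)) (c (l 16758920) (l 16753040))))))))))) (a (l 14) (a (l 14) (a (l 14) (a (l 14) (b (c (l 16705368) (l 16695704)) (c (b (l 16698992)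 (l 16729680)) (l 16715160))))))))), by decide +kernel⟩

def k14_A00pp_022_s3 : ∃ t, chk3 f_A00pp_022_s3 t 71 492 19 = true :=
  ⟨(c (a (l 14) (b (a (l 14) (b (l 16665936) (c (c (b (c (b (c (l 16671576) (l 16670984)) (l 16673256)) (l 16671168)) (c (l 16676824) (b (c (l 16673832) (l 16673000)) (l 16675624)))) (b (l 16670248) (b (l 16672104) (c (c (l 16674064) (l 16673504)) (l 16673048))))) (l 16669696)))) (c (a (l 14) (a (l 14) (b (c (l 16684392) (b (c (l 16678400) (b (l 16665320) (c (l 16667296) (l 16666496)))) (l 16681976))) (l 16691680)))) (a (l 14) (b (a (l 14) (a (l 14) (b (l 16675640) (c (c (b (c (l 16668280) (l 16678248)) (c (l 16680888) (b (l 16668824) (l 16680304)))) (l 16678424)) (l 16677512))))) (a (l 14) (a (l 14) (c (b (c (l 16683920) (b (c (l 16670480) (l 16669720)) (l 16682720))) (l 16687560)) (b (b (l 16679368) (c (c (c (l 16670880) (l 16670544)) (l 16680752)) (l 16680304))) (c (b (b (c (l 16682704) (l 16671296)) (l 16672848)) (l 16685128)) (b (l 16681552) (c (b (l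 16672360) (l 16683912)) (l 16677448))))))))))))) (a (l 14) (a (l 14) (c (b (l 16664832) (l 16679976)) (a (l 14) (a (l 14) (a (l 14) (a (l 14) (a (l 14) (a (l 14) (a (l 14) (b (l 16659728) (l 16669616))))))))))))), by decide +kernel⟩

def k15_A00pp_022_s3 : ∃ t, chk3 f_A00pp_022_s3 t 142 493 19 = true :=
  ⟨(l 14), by decide +kernel⟩

def k16_A00pp_022_s3 : ∃ t, chk3 f_A00pp_022_s3 t 143 493 38 = true :=
  ⟨(a (l 14) (a (l 14) (a (l 14) (b (c (l 16686016) (b (b (b (l 16678296) (l 16691200)) (l 16694840)) (l 16702128))) (c (l 16705464) (b (l 16690880) (l 16700608))))))), by decide +kernel⟩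

def k17_A00pp_022_s3 : ∃ t, chk3 f_A00pp_022_s3 t 286 493 39 = true :=
  ⟨(l 14), by decide +kernel⟩

def k18_A00pp_022_s3 : ∃ t, chk3 f_A00pp_022_s3 t 287 493 78 = true :=
  ⟨(b (b (a (l 14) (a (l 14) (c (b (c (b (b (l 16683104) (c (l 16678832) (l 16683568))) (c (l 16685728) (b (l 16679016) (l 16674696)))) (l 16683424)) (c (l 16688760) (b (c (b (l 16680064) (l 16686336)) (l 16679928)) (l 16687576)))) (b (l 16682512) (c (b (l 16684672) (c (b (l 16685752) (b (l 16681040) (l 16681480))) (l 16685752))) (l 16684680)))))) (a (l 14) (a (l 14) (c (l 16694824) (b (c (b (c (l 16688144) (b (l 16681488) (c (l 16687832) (l 16682112)))) (l 16689960)) (b (l 16686536) (c (b (b (l 16682272) (l 16682704)) (l 16683512)) (c (l 16682488) (l 16687544))))) (b (c (l 16692384) (c (l 16690560) (b (c (l 16689040) (b (l 16683096) (l 16683536))) (l 16689944)))) (l 16693592))))))) (a (l 14) (a (l 14) (a (l 14) (a (l 14) (b (l 16692160) (l 16701880))))))), by decide +kernel⟩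

def k19_A00pp_022_s3 : ∃ t, chk3 f_A00pp_022_s3 t 287 493 79 = true :=
  ⟨(a (l 14) (c (b (a (l 14) (c (a (l 14) (c (b (a (l 14) (a (l 14) (a (l 14) (a (l 14) (l 16685496))))) (b (a (l 14) (a (l 14) (a (l 14) (a (l 14) (l 16689200))))) (a (l 14) (a (l 14) (a (l 14) (a (l 14) (a (l 14) (b (b (l 16690832) (c (c (l 16685104) (l 16685848)) (l 16692360))) (c (l 16692472) (l 16688584)))))))))) (a (l 14) (b (l 16687584) (b (l 16691288) (b (l 16693144) (b (l 16694104) (c (l 16694176) (l 16695680))))))))) (a (l 14) (l 16683264)))) (a (l 14) (c (a (l 14) (a (l 14) (a (l 14) (a (l 14) (a (l 14) (a (l 14) (a (l 14) (b (l 16690104) (l 16699832))))))))) (a (l 14) (a (l 14) (b (b (b (c (b (l 16693760) (l 16699968)) (l 16702808)) (c (l 16701752) (b (l 16703968) (l 16705040)))) (l 16706736)) (l 16703552))))))) (a (l 14) (a (l 14) (a (l 14) (a (l 14) (b (l 16686056) (b (b (b (l 16712616) (l 16703400)) (c (b (c (l 16710416) (l 16713456)) (l 16714152)) (b (l 16718688) (c (l 16718416) (l 16721736)))))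 (b (b (c (l 16716584) (l 16716792)) (l 16721704)) (l 16725360)))))))))), by decide +kernel⟩

def k20_A00pp_022_s3 : ∃ t, chk3 f_A00pp_022_s3 t 70 247 9 = true :=
  ⟨(l 14), by decide +kernel⟩

def k21_A00pp_022_s3 : ∃ t, chk3 f_A00pp_022_s3 t 71 247 18 = true :=
  ⟨(b (c (a (l 14) (a (l 14) (b (l 16739040) (b (l 16753376) (l 16755952))))) (b (c (a (l 14) (a (l 14) (a (l 14) (b (c (b (c (l 16748832) (b (l 16757264) (l 16759264))) (l 16760816)) (b (l 16754864) (c (b (l 16759528) (l 16761024)) (l 16737520)))) (b (b (c (l 16761784) (c (l 16761808) (l 16750976))) (l 16762440)) (l 16763392)))))) (a (l 14) (a (l 14) (a (l 14) (b (l 16729072) (c (b (b (l 16758560) (c (l 16756560) (l 16759784))) (c (l 16763400) (b (l 16751560) (l 16753096)))) (c (l 16748080) (l 16735184)))))))) (a (l 14) (a (l 14) (b (a (l 14) (c (l 16765304) (c (l 16765336) (b (c (b (c (l 16764336) (l 16753360)) (l 16765040)) (b (l 16762256) (b (l 16753488) (l 16759592)))) (l 16755488))))) (l 16756032)))))) (a (l 14) (a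 (l 14) (b (a (l 14) (b (c (l 16759888) (l 16759944)) (a (l 14) (a (l 14) (c (l 16768720) (l 16768744)))))) (a (l 14) (b (a (l 14) (b (a (l 14) (c (c (l 16770640) (l 16770648)) (c (l 16770648) (l 16770656)))) (a (l 14) (a (l 14) (a (l 14) (a (l 14) (b (b (c (l 16776984) (l 16776984)) (b (c (l 67880610567) (l 67343739655)) (l 4))) (l 4)))))))) (a (l 14) (a (l 14) (l 4))))))))), by decide +kernel⟩

def k22_A00pp_022_s3 : ∃ t, chk3 f_A00pp_022_s3 t 142 494 19 = true :=
  ⟨(l 14), by decide +kernel⟩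

def k23_A00pp_022_s3 : ∃ t, chk3 f_A00pp_022_s3 t 143 988 19 = true :=
  ⟨(a (l 14) (c (c (b (l 16728464) (c (l 16730168) (l 16735792))) (a (l 14) (b (l 16720128) (l 16729880)))) (c (b (a (l 14) (a (l 14) (b (l 16708648) (l 16713520)))) (a (l 14) (a (l 14) (b (l 16718384) (l 16723256))))) (a (l 14) (c (a (l 14) (c (a (l 14) (a (l 14) (a (l 14) (a (l 14) (a (l 14) (a (l 14) (b (b (l 16717560) (l 16722424)) (b (l 16722048) (l 16726920))))))))) (a (l 14) (b (l 16711608) (l 16721352))))) (a (l 14) (a (l 14) (b (l 16709168) (c (l 16726728) (l 16721616)))))))))), by decide +kernel⟩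

def k24_A00pp_022_s3 : ∃ t, chk3 f_A00pp_022_s3 t 143 989 19 = true :=
  ⟨(a (l 14) (c (c (b (a (l 14) (c (b (l 16738864) (c (b (c (l 16754616) (l 16764104)) (c (l 16766328) (l 16760808))) (l 16752992))) (l 16736448))) (a (l 14) (a (l 14) (a (l 14) (c (b (c (l 16768296) (b (c (l 16767896) (l 16756888)) (l 16768616))) (l 16769568)) (b (b (l 16764536) (c (c (l 16763080) (l 16767544)) (l 16765752))) (c (l 16764288) (b (c (l 16763376) (l 16767584)) (c (l 16769888) (b (l 16769288) (l 16770000))))))))))) (a (l 14) (a (l 14) (b (c (l 16732264) (l 16737880)) (c (b (l 16739576) (b (l 16743240) (l 16756152))) (l 16747632)))))) (a (l 14) (b (c (a (l 14) (a (l 14) (b (l 16728472) (l 16733344)))) (a (l 14) (a (l 14) (a (l 14) (a (l 14) (a (l 14) (c (c (c (c (c (a (l 14) (a (l 14) (b (l 16734688) (l 16739560)))) (l 16737472)) (l 16733232)) (l 16730008)) (l 16734048)) (c (l 16728952) (l 16734336))))))))) (a (l 14) (c (c (l 16742760) (b (l 16740680) (l 16745560))) (c (a (l 14) (a (l 14) (a (l 14)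 (a (l 14) (a (l 14) (a (l 14) (c (b (l 16741536) (l 16746408)) (l 16744120)))))))) (a (l 14) (a (l 14) (c (c (l 16746584) (l 16749280)) (b (l 16740400) (c (l 16743936) (b (l 16745416) (a (l 14) (c (l 16758488) (b (l 16764384) (c (l 16765160) (l 16765504)))))))))))))))))), by decide +kernel⟩

def k25_A00pp_022_s3 : ∃ t, chk3 f_A00pp_022_s3 t 142 495 19 = true :=
  ⟨(l 14), by decide +kernel⟩

def k26_A00pp_022_s3 : ∃ t, chk3 f_A00pp_022_s3 t 143 495 38 = true :=
  ⟨(b (b (c (a (l 14) (a (l 14) (l 16759976))) (a (l 14) (c (a (l 14) (a (l 14) (b (c (b (c (l 16764848) (b (l 16769080) (l 16764824))) (l 16770824)) (b (l 16767872) (c (b (l 16764952) (l 16770928)) (l 16759192)))) (b (b (c (l 16771304) (c (l 16771312) (l 16765904))) (l 16771624)) (l 16772096))))) (a (l 14) (a (l 14) (a (l 14) (b (l 16755288) (c (b (c (b (l 16770648) (c (l 16771864) (l 16771520))) (l 16770040)) (c (l 16772424) (b (l 16766528) (l 16772520)))) (c (b (l 16768824) (l 16766000)) (l 16758336)))))))))) (a (l 14)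 (a (l 14) (a (l 14) (b (c (l 16773032) (c (l 16773048) (b (c (l 16772736) (c (b (c (l 16772560) (l 16767080)) (l 16772896)) (b (l 16771544) (c (l 16767544) (l 16767184))))) (l 16768120)))) (l 16769064)))))) (a (l 14) (a (l 14) (a (l 14) (a (l 14) (a (l 14) (a (l 14) (b (b (l 16770912) (b (b (l 16776944) (a (l 14) (b (l 67343739655) (l 4)))) (l 4))) (l 4))))))))), by decide +kernel⟩

def k27_A00pp_022_s3 : ∃ t, chk3 f_A00pp_022_s3 t 286 495 39 = true :=
  ⟨(l 14), by decide +kernel⟩

def k28_A00pp_022_s3 : ∃ t, chk3 f_A00pp_022_s3 t 287 495 78 = true :=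
  ⟨(b (b (a (l 14) (a (l 14) (c (b (l 16750080) (l 16754960)) (c (b (l 16746416) (l 16756536)) (b (l 16749216) (l 16754096)))))) (c (b (a (l 14) (a (l 14) (a (l 14) (b (l 16758952) (c (c (b (c (l 16768032) (l 16772792)) (c (l 16773864) (b (l 16773608) (l 16773928)))) (b (l 16771880) (l 16767832))) (l 16760168)))))) (a (l 14) (a (l 14) (a (l 14) (a (l 14) (c (c (l 16774816) (l 504605903)) (c (l 504608719) (l 504611791)))))))) (a (l 14) (a (l 14) (a (l 14) (c (a (l 14) (b (l 16756672) (b (l 16760336) (l 504615375)))) (b (l 16759312) (b (l 16762968) (l 16765408))))))))) (a (l 14) (c (c (a (l 14) (a (l 14) (l 526107919))) (a (l 14) (a (l 14) (l 526117903)))) (a (l 14) (a (l 14) (c (b (l 502591183) (l 4)) (l 494051919))))))), by decide +kernel⟩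

def k29_A00pp_022_s3 : ∃ t, chk3 f_A00pp_022_s3 t 574 990 79 = true :=
  ⟨(l 14), by decide +kernel⟩

def k30_A00pp_022_s3 : ∃ t, chk3 f_A00pp_022_s3 t 575 1980 79 = true :=
  ⟨(a (l 14) (c (c (a (l 14) (a (l 14) (a (l 14) (a (l 14) (a (l 14) (a (l 14) (a (l 14) (b (l 16751336) (b (l 16755000) (l 16757440)))))))))) (a (l 14) (a (l 14) (b (l 16749864) (c (l 16753392) (l 16756096)))))) (a (l 14) (c (b (a (l 14) (c (l 16753912) (l 16756608))) (a (l 14) (a (l 14) (a (l 14) (a (l 14) (a (l 14) (c (c (l 16759704) (b (l 16770320) (b (l 16772128) (c (l 16772944) (l 16773280))))) (b (c (b (l 16771056) (l 16766936)) (b (c (l 16772016) (l 16772392)) (l 16772768))) (b (c (l 16770328) (l 16773080)) (l 16773368)))))))))) (b (a (l 14) (a (l 14) (a (l 14) (a (l 14) (c (b (c (l 16769376) (b (l 16770112) (l 16765896))) (c (b (l 16771144) (c (l 16771904) (l 16772168))) (l 16772008))) (b (c (b (l 16771080) (l 16771632)) (l 16771496)) (l 16772064))))))) (a (l 14) (a (l 14) (a (l 14) (a (l 14) (l 16772920)))))))))),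 by decide +kernel⟩

def k31_A00pp_022_s3 : ∃ t, chk3 f_A00pp_022_s3 t 575 1981 79 = true :=
  ⟨(a (l 14) (c (b (a (l 14) (c (a (l 14) (c (c (a (l 14) (a (l 14) (a (l 14) (a (l 14) (b (l 16760424) (l 16762864)))))) (a (l 14) (l 16759632))) (b (l 16754352) (l 16756792)))) (a (l 14) (a (l 14) (a (l 14) (a (l 14) (c (l 16759752) (b (b (l 16771112) (c (l 16771656) (l 16767728))) (b (c (l 16772872) (c (b (l 16773568) (l 16774048)) (l 16771488))) (l 503135887)))))))))) (a (l 14) (a (l 14) (c (c (l 504130639) (l 503173519)) (c (l 501141391) (l 501121935)))))) (a (l 14) (b (a (l 14) (a (l 14) (a (l 14) (a (l 14) (a (l 14) (b (c (c (c (b (c (l 16772896) (l 16773392)) (c (l 16773792) (l 16773936))) (l 16773784)) (l 16773792)) (l 16773776)) (l 16774352))))))) (a (l 14) (a (l 14) (l 16775136))))))), by decide +kernel⟩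

def k32_A00pp_022_s3 : ∃ t, chk3 f_A00pp_022_s3 t 287 991 79 = true :=
  ⟨(a (l 14) (a (l 14) (a (l 14) (a (l 14) (b (c (c (l 498078543) (l 501125007)) (c (l 527235855) (l 527198223))) (l 4)))))), by decide +kernel⟩

def k33_A00pp_022_s3 : ∃ t, chk3 f_A00pp_022_s3 t 35 60 5 = true :=
  ⟨(a (l 14) (c (a (l 14) (c (a (l 14) (a (l 14) (b (l 6) (b (a (l 14) (c (b (l 16484616) (l 16500488)) (l 16545872))) (a (l 14) (c (l 16529232) (c (l 16571216) (l 16599280)))))))) (a (l 14) (a (l 14) (a (l 14) (b (l 6) (b (c (c (l 16587176) (l 16604696)) (l 16613328)) (c (a (l 14) (a (l 14) (c (b (l 16622200) (l 16642320)) (l 16647488)))) (l 16648696))))))))) (b (l 6) (a (l 14) (c (a (l 14) (a (l 14) (a (l 14) (a (l 14) (b (l 16631296) (c (c (l 16639888) (b (l 16723560) (b (l 16716088) (c (l 16712432) (l 16701616))))) (b (c (l 16718576) (b (l 16675456) (c (l 16673912) (l 16720336)))) (c (b (c (l 16713336) (l 16673456)) (l 16677016)) (l 16645440))))))))) (b (a (l 14) (a (l 14) (a (l 14) (a (l 14) (a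 (l 14) (c (b (l 16700320) (c (b (l 16720264) (l 16698752)) (l 16685712))) (b (c (b (l 16636344) (l 16719960)) (l 16705696)) (l 16621120)))))))) (a (l 14) (a (l 14) (a (l 14) (a (l 14) (a (l 14) (c (l 16640744) (b (c (l 16704264) (b (l 16689960) (c (l 16689928) (l 16685136)))) (c (b (l 16614136) (c (l 16698344) (l 16694736))) (l 16671088))))))))))))))), by decide +kernel⟩

def k34_A00pp_022_s3 : ∃ t, chk3 f_A00pp_022_s3 t 70 61 10 = true :=
  ⟨(l 14), by decide +kernel⟩

def k35_A00pp_022_s3 : ∃ t, chk3 f_A00pp_022_s3 t 71 122 20 = true :=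
  ⟨(a (l 14) (c (a (l 14) (a (l 14) (a (l 14) (c (b (l 16554560) (c (b (l 16660960) (l 16638800)) (l 16643136))) (b (l 16582768) (b (l 16612560) (c (l 16625368) (l 16639648)))))))) (a (l 14) (b (a (l 14) (a (l 14) (a (l 14) (c (c (l 16607312) (l 16621464)) (b (c (l 16709464) (l 16639728)) (c (l 16645640) (l 16659856))))))) (a (l 14) (a (l 14) (a (l 14) (c (b (c (l 16637264) (l 16651504)) (c (b (l 16652280) (l 16662320)) (l 16671608))) (l 16659976))))))))), by decide +kernel⟩

def k36_A00pp_022_s3 : ∃ t, chk3 f_A00pp_022_s3 t 71 122 21 = true :=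
  ⟨(a (l 14) (b (a (l 14) (a (l 14) (a (l 14) (a (l 14) (a (l 14) (c (c (l 16692064) (l 16718984)) (b (l 16716152) (c (l 16698568) (b (c (l 16707408) (b (l 16706616) (l 16707040))) (c (b (l 16705432) (l 16707096)) (l 16712088))))))))))) (c (a (l 14) (c (a (l 14) (c (a (l 14) (a (l 14) (a (l 14) (b (l 16726080) (b (l 16718648) (b (l 16673136) (c (b (l 16716648) (l 16705728)) (b (l 16705840) (l 16712208))))))))) (a (l 14) (a (l 14) (a (l 14) (a (l 14) (b (l 16690520) (b (c (l 16707256) (b (l 16701968) (c (l 16701144) (b (l 16699104) (l 16699752))))) (c (b (b (l 16704992) (l 16705808)) (l 16708928)) (c (l 16705208) (l 16705232))))))))))) (b (a (l 14) (a (l 14) (a (l 14) (a (l 14) (b (l 16706528) (c (l 16702920) (b (l 16702208) (c (b (l 16658928) (l 16701304)) (l 16703472))))))))) (a (l 14) (a (l 14) (a (l 14) (a (l 14) (a (l 14) (b (c (b (c (l 16700072) (l 16701256)) (l 16703296)) (l 16708584)) (l 16713792)))))))))) (a (l 14) (b (a (l 14) (a (l 14) (a (l 14) (a (l 14) (a (l 14) (c (b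 (c (b (l 16703688) (c (l 16702240) (l 16703304))) (b (l 16704936) (l 16708264))) (l 16669336)) (l 16722144))))))) (a (l 14) (a (l 14) (c (l 16637472) (c (l 16649120) (c (l 16654952) (l 16658840))))))))))), by decide +kernel⟩

def k37_A00pp_022_s3 : ∃ t, chk3 f_A00pp_022_s3 t 142 123 20 = true :=
  ⟨(l 14), by decide +kernel⟩

def k38_A00pp_022_s3 : ∃ t, chk3 f_A00pp_022_s3 t 143 246 40 = true :=
  ⟨(a (l 14) (c (a (l 14) (a (l 14) (a (l 14) (c (b (l 16662000) (b (l 16676912) (b (l 16705352) (b (c (b (l 16715384) (c (l 16725928) (l 16718528))) (l 16733664)) (c (l 16709912) (b (c (l 16723488) (l 16737336)) (l 16727096))))))) (b (l 16676320) (c (b (l 16729632) (l 16718648)) (l 16699872))))))) (a (l 14) (b (a (l 14) (a (l 14) (c (l 16690648) (b (l 16658024) (c (l 16664464) (l 16671648)))))) (c (a (l 14) (a (l 14) (a (l 14) (b (l 16707344) (c (l 16713768) (b (l 16718464) (b (l 16722208) (c (l 16743752) (b (l 16756936) (a (l 14) (l 16747376))))))))))) (a (l 14) (b (a (l 14) (a (l 14) (l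 16721728))) (b (b (b (a (l 14) (l 16746536)) (b (a (l 14) (c (l 16681096) (a (l 14) (c (l 16723352) (l 16762408))))) (a (l 14) (c (l 16681720) (a (l 14) (c (l 16723168) (l 16762584))))))) (b (b (a (l 14) (c (l 16682352) (a (l 14) (c (l 16744080) (l 16762888))))) (a (l 14) (c (l 16724912) (a (l 14) (c (l 16744144) (l 16763304)))))) (a (l 14) (a (l 14) (c (l 16748248) (l 16754456)))))) (a (l 14) (a (l 14) (a (l 14) (c (b (c (l 16759208) (l 16747104)) (l 16770184)) (l 16725624))))))))))))), by decide +kernel⟩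

def k39_A00pp_022_s3 : ∃ t, chk3 f_A00pp_022_s3 t 143 246 41 = true :=
  ⟨(a (l 14) (b (a (l 14) (c (a (l 14) (a (l 14) (a (l 14) (b (l 16674672) (c (l 16676928) (b (l 16663904) (c (l 16707056) (b (l 16732368) (c (l 16743944) (l 16741960)))))))))) (c (a (l 14) (a (l 14) (a (l 14) (a (l 14) (a (l 14) (b (l 16725792) (b (c (b (l 16736688) (l 16736648)) (l 16732768)) (l 16738080)))))))) (a (l 14) (a (l 14) (a (l 14) (a (l 14) (b (b (c (l 16727064) (b (l 16720888) (l 16721224))) (c (b (l 16726232) (l 16727232)) (l 16723936))) (l 16731824))))))))) (a (l 14) (c (b (c (a (l 14) (a (l 14) (a (l 14) (a (l 14) (a (l 14) (b (b (l 16672776) (c (l 16759016) (l 16742072))) (c (b (l 16737032) (c (l 16759000) (l 16757016))) (l 16743960)))))))) (b (a (l 14) (a (l 14) (a (l 14) (c (b (c (l 16749248) (l 16736304)) (l 16738664)) (l 16745712))))) (a (l 14) (a (l 14) (b (l 16739808) (l 16752488)))))) (a (l 14) (a (l 14) (a (l 14) (a (l 14) (a (l 14) (l 16718328))))))) (a (l 14) (a (l 14) (l 16705808))))))),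 by decide +kernel⟩

def k40_A00pp_022_s3 : ∃ t, chk3 f_A00pp_022_s3 t 286 494 40 = true :=
  ⟨(l 14), by decide +kernel⟩

def k41_A00pp_022_s3 : ∃ t, chk3 f_A00pp_022_s3 t 574 494 40 = true :=
  ⟨(l 14), by decide +kernel⟩

def k42_A00pp_022_s3 : ∃ t, chk3 f_A00pp_022_s3 t 575 494 80 = true :=
  ⟨(b (a (l 14) (c (a (l 14) (b (l 16719912) (c (l 16727000) (l 16732384)))) (b (a (l 14) (c (b (b (b (l 16734632) (l 16735560)) (l 16726768)) (l 16709456)) (b (l 16742688) (b (l 16745208) (l 16747472))))) (a (l 14) (a (l 14) (a (l 14) (a (l 14) (c (b (l 16759248) (c (l 16762784) (b (l 16764112) (c (l 16765640) (l 16766160))))) (b (c (b (l 16762056) (l 16758856)) (b (l 16763944) (l 16765040))) (l 16760600)))))))))) (a (l 14) (c (b (a (l 14) (a (l 14) (a (l 14) (a (l 14) (a (l 14) (c (l 16739936) (b (b (l 16762632) (c (l 16763728) (l 16760968))) (c (b (l 16766136) (c (l 16767768) (l 16768440))) (b (l 16762512) (l 16768600)))))))))) (a (l 14) (c (a (l 14) (a (l 14) (a (l 14) (a (l 14) (b (c (b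 (l 16765672) (l 16757568)) (b (c (l 16767680) (l 16763424)) (c (l 16764248) (l 16769768)))) (c (b (c (b (l 16769248) (l 16770160)) (l 16770232)) (l 16770904)) (l 16770624))))))) (a (l 14) (a (l 14) (a (l 14) (a (l 14) (l 16770024)))))))) (a (l 14) (a (l 14) (a (l 14) (b (b (c (c (b (c (l 16765280) (l 16760920)) (c (l 16761744) (l 16767344))) (l 16767000)) (l 16767056)) (l 16768216)) (l 16769936)))))))), by decide +kernel⟩

def k43_A00pp_022_s3 : ∃ t, chk3 f_A00pp_022_s3 t 575 494 81 = true :=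
  ⟨(b (c (a (l 14) (c (a (l 14) (a (l 14) (a (l 14) (a (l 14) (b (b (c (l 16761440) (b (l 16764344) (l 16764968))) (c (b (l 16757752) (b (l 16758360) (l 16763992))) (l 16764680))) (l 16765336)))))) (a (l 14) (a (l 14) (b (a (l 14) (a (l 14) (a (l 14) (l 16756088)))) (b (b (l 16765096) (l 16765040)) (l 16765744))))))) (a (l 14) (b (a (l 14) (a (l 14) (l 16727248))) (b (l 16745944) (c (b (l 16765416) (l 16765584)) (l 16766640)))))) (a (l 14) (a (l 14) (b (b (b (c (l 16766488) (c (l 16766424) (l 16766576))) (l 16767024)) (l 16767896)) (l 16769632))))), by decide +kernel⟩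

def k44_A00pp_022_s3 : ∃ t, chk3 f_A00pp_022_s3 t 143 495 40 = true :=
  ⟨(a (l 14) (a (l 14) (c (a (l 14) (a (l 14) (a (l 14) (a (l 14) (b (b (l 16772256) (l 16769296)) (c (c (l 503007119) (l 527120399)) (c (l 527083023) (l 527045391)))))))) (a (l 14) (a (l 14) (a (l 14) (b (b (l 16772104) (l 16769176)) (b (c (c (l 527010319) (l 526972687)) (c (l 526935055) (l 526897423))) (l 4))))))))), by decide +kernel⟩

def k45_A00pp_022_s3 : ∃ t, chk3 f_A00pp_022_s3 t 143 247 41 = true :=
  ⟨(a (l 14) (b (a (l 14) (b (a (l 14) (c (l 16727832) (c (l 16721880) (l 16717896)))) (a (l 14) (b (c (c (b (c (b (l 16767448) (l 16761872)) (l 16768936)) (c (l 16767544) (b (l 16768096) (c (l 16767792) (l 16768072))))) (l 16750056)) (c (l 16728944) (l 16745920))) (c (c (l 16769248) (b (c (b (c (l 16768512) (l 16769072)) (l 16768968)) (b (l 16770408) (l 16759368))) (b (c (l 16769496) (c (l 16769496) (l 16764584))) (l 16770072)))) (b (l 16751456) (c (b (l 16750936) (c (c (b (l 16770192) (l 16770232)) (l 16770856))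 (l 16772208))) (l 16751816)))))))) (b (c (a (l 14) (b (l 16760480) (a (l 14) (l 16768680)))) (b (b (a (l 14) (c (c (b (c (l 16770024) (b (l 16764776) (l 16770160))) (l 16770616)) (b (c (l 16765360) (l 16771448)) (c (l 16765392) (b (l 16771008) (a (l 14) (l 16771512)))))) (l 16752440))) (a (l 14) (c (l 16771488) (c (b (c (b (l 16766128) (l 16766136)) (l 16761576)) (c (l 16771760) (b (c (l 16771648) (l 16761384)) (l 16771912)))) (b (l 16752448) (b (l 16751992) (c (b (l 16761808) (l 16766968)) (l 16752152)))))))) (a (l 14) (c (a (l 14) (l 16768640)) (b (c (l 16772656) (b (c (b (c (l 16772192) (l 16767056)) (l 16772488)) (b (l 16762336) (c (l 16767296) (l 16767536)))) (l 16767696))) (l 16768600)))))) (a (l 14) (a (l 14) (a (l 14) (a (l 14) (a (l 14) (a (l 14) (b (b (c (l 16771024) (l 16771008)) (b (b (l 16774376) (c (l 107072185927) (l 107072185895))) (l 4))) (l 4))))))))))), by decide +kernel⟩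

def k46_A00pp_022_s3 : ∃ t, chk3 f_A00pp_022_s3 t 142 123 21 = true :=
  ⟨(l 14), by decide +kernel⟩

def k47_A00pp_022_s3 : ∃ t, chk3 f_A00pp_022_s3 t 143 246 21 = true :=
  ⟨(c (a (l 14) (c (c (a (l 14) (a (l 14) (a (l 14) (b (a (l 14) (a (l 14) (a (l 14) (l 16712840)))) (l 16699880))))) (a (l 14) (a (l 14) (a (l 14) (a (l 14) (a (l 14) (c (b (l 16720368) (l 16738808)) (c (b (l 16718896) (l 16737328)) (b (l 16718936) (b (l 16732728) (l 16731504))))))))))) (a (l 14) (a (l 14) (a (l 14) (a (l 14) (b (l 16685080) (c (l 16699632) (l 16707408))))))))) (a (l 14) (b (a (l 14) (a (l 14) (a (l 14) (a (l 14) (c (b (l 16654072) (l 16663264)) (l 16674240)))))) (a (l 14) (c (a (l 14) (a (l 14) (a (l 14) (b (c (l 16668616) (l 16676400)) (b (l 16679464) (b (l 16682960) (c (l 16723328) (c (l 16723824) (c (l 16762688) (b (l 16760952) (l 16750112))))))))))) (b (a (l 14) (a (l 14) (a (l 14) (a (l 14) (c (l 16677664) (b (c (l 16756560) (b (l 16753064) (c (l 16752992) (l 16751728)))) (c (b (l 16754952)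 (c (l 16754992) (l 16754040))) (l 16748120)))))))) (a (l 14) (a (l 14) (a (l 14) (a (l 14) (c (b (c (l 16718160) (b (c (l 16757592) (l 16756040)) (c (l 16757120) (l 16756488)))) (c (b (c (l 16759464) (l 16752992)) (c (l 16754144) (l 16759064))) (l 16758416))) (l 16746640)))))))))))), by decide +kernel⟩

def k48_A00pp_022_s3 : ∃ t, chk3 f_A00pp_022_s3 t 286 247 21 = true :=
  ⟨(l 14), by decide +kernel⟩

def k49_A00pp_022_s3 : ∃ t, chk3 f_A00pp_022_s3 t 287 494 42 = true :=
  ⟨(b (a (l 14) (a (l 14) (a (l 14) (a (l 14) (a (l 14) (a (l 14) (c (c (l 16755752) (c (l 16752760) (c (l 16751264) (l 16740952)))) (c (l 16714312) (c (l 16720152) (l 16724048)))))))))) (a (l 14) (c (a (l 14) (a (l 14) (c (l 16744216) (c (l 16741208) (c (l 16739704) (a (l 14) (a (l 14) (a (l 14) (a (l 14) (a (l 14) (l 16750448))))))))))) (a (l 14) (c (a (l 14) (a (l 14) (c (l 16741960) (b (l 16743512) (c (l 16747232) (l 16749184)))))) (b (a (l 14) (a (l 14) (l 16749368))) (c (a (l 14) (b (l 16749960) (b (l 16751728)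 (a (l 14) (c (l 16752472) (a (l 14) (c (l 16771480) (b (l 16770640) (a (l 14) (l 16770360)))))))))) (a (l 14) (a (l 14) (a (l 14) (a (l 14) (b (c (l 16759744) (b (c (l 16768976) (l 16768288)) (c (l 16766224) (l 16768616)))) (c (b (c (l 16764696) (l 16769416)) (l 16769984)) (l 16769600)))))))))))))), by decide +kernel⟩

def k50_A00pp_022_s3 : ∃ t, chk3 f_A00pp_022_s3 t 287 990 84 = true :=
  ⟨(b (a (l 14) (a (l 14) (c (b (l 16750168) (l 16752528)) (c (l 16758816) (a (l 14) (c (l 16767728) (a (l 14) (a (l 14) (a (l 14) (c (c (c (l 16761904) (l 16761968)) (l 16767544)) (l 16768280))))))))))) (c (a (l 14) (b (a (l 14) (b (l 16754304) (c (c (b (c (l 16768360) (l 16773976)) (c (l 16773696) (a (l 14) (l 16774128)))) (l 16764032)) (l 16764968)))) (a (l 14) (a (l 14) (a (l 14) (c (c (l 16774920) (l 521593551)) (c (l 521587663) (l 521581775)))))))) (a (l 14) (c (b (l 16762496) (l 16764856)) (a (l 14) (a (l 14) (c (l 16761960) (a (l 14) (a (l 14) (a (l 14) (b (a (l 14) (a (l 14) (l 16766272)))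 (l 522930255)))))))))))), by decide +kernel⟩

def k51_A00pp_022_s3 : ∃ t, chk3 f_A00pp_022_s3 t 287 990 85 = true :=
  ⟨(a (l 14) (a (l 14) (c (b (a (l 14) (a (l 14) (a (l 14) (a (l 14) (c (c (l 16748768) (l 16750720)) (b (l 16752464) (c (l 16753848) (b (c (l 16752608) (b (l 16772712) (c (l 16772680) (l 16772320)))) (c (b (l 16773160) (c (l 16773160) (l 16772864))) (b (c (l 16772584) (l 16772416)) (l 16772720))))))))))) (a (l 14) (c (a (l 14) (a (l 14) (b (b (l 16752448) (b (l 16753328) (b (l 16764256) (c (l 16763576) (l 521168783))))) (c (l 521170063) (l 521166223))))) (a (l 14) (a (l 14) (a (l 14) (a (l 14) (b (c (b (c (l 16763856) (b (c (l 16773720) (l 16773320)) (c (l 16773584) (l 16773408)))) (c (b (c (l 16774176) (l 16773856)) (l 521165711)) (l 16773880))) (b (l 16773240) (l 16773880))) (l 16774864))))))))) (b (b (a (l 14) (a (l 14) (a (l 14) (a (l 14) (c (c (b (l 16761736) (c (l 16766928) (b (c (l 16771560) (l 16771248)) (l 16771496)))) (b (c (b (l 16770928) (l 16770920))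 (l 16770616)) (l 16771248))) (l 16770912)))))) (a (l 14) (a (l 14) (a (l 14) (a (l 14) (b (c (c (c (b (c (l 16772056) (l 16771816)) (l 16772096)) (l 16771896)) (l 16771896)) (l 16771888)) (l 16772544))))))) (a (l 14) (a (l 14) (l 16768816))))))), by decide +kernel⟩

def k52_A00pp_022_s3 : ∃ t, chk3 f_A00pp_022_s3 t 287 991 42 = true :=
  ⟨(a (l 14) (c (a (l 14) (a (l 14) (a (l 14) (b (c (c (l 526557967) (l 521574863)) (c (l 521563087) (l 522928719))) (l 4))))) (a (l 14) (a (l 14) (b (b (c (c (l 522920271) (l 521157519)) (l 16770616)) (c (c (l 522917455) (l 525661711)) (c (l 525659663) (l 525657615)))) (l 4)))))), by decide +kernel⟩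

def k53_A00pp_022_s3 : ∃ t, chk3 f_A00pp_022_s3 t 287 247 43 = true :=
  ⟨(b (a (l 14) (b (c (a (l 14) (b (a (l 14) (a (l 14) (a (l 14) (c (l 16727320) (c (b (l 16764160) (c (l 16764032) (b (l 16762440) (l 16762392)))) (b (c (b (l 16761464) (l 16761288)) (l 16760568)) (l 16761752))))))) (c (a (l 14) (a (l 14) (a (l 14) (c (l 16727472) (b (l 16755472) (c (b (l 16766048) (l 16760424)) (b (c (l 16764704) (l 16764184)) (l 16764736)))))))) (a (l 14) (a (l 14) (a (l 14) (b (c (c (b (l 16758224) (l 16763544)) (l 16763024)) (l 16763000)) (l 16764312)))))))) (a (l 14) (a (l 14) (a (l 14) (l 16762256))))) (c (a (l 14) (c (b (a (l 14) (a (l 14) (a (l 14) (a (l 14) (c (b (c (l 16768456) (b (l 16766744) (c (l 16766728) (l 16766168)))) (c (b (l 16762456) (c (l 16767752) (l 16767360))) (l 16767032))) (b (b (c (l 16765536) (l 16765336)) (l 16765992)) (l 16766976))))))) (a (l 14) (a (l 14) (a (l 14) (a (l 14) (l 16768944)))))) (b (a (l 14) (l 16760784)) (l 16768296)))) (a (l 14) (l 16766976)))))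 (a (l 14) (a (l 14) (a (l 14) (a (l 14) (b (l 16762256) (b (b (l 16770784) (b (a (l 14) (a (l 14) (b (l 16776976) (l 107609050983)))) (l 233773717639))) (l 4)))))))), by decide +kernel⟩

def k54_A00pp_022_s3 : ∃ t, chk3 f_A00pp_022_s3 t 70 61 11 = true :=
  ⟨(l 14), by decide +kernel⟩

def k55_A00pp_022_s3 : ∃ t, chk3 f_A00pp_022_s3 t 71 122 11 = true :=
  ⟨(a (l 14) (b (c (a (l 14) (b (a (l 14) (a (l 14) (a (l 14) (a (l 14) (c (c (b (l 16711144) (c (l 16708440) (l 16690040))) (b (c (l 16700712) (l 16716392)) (l 16721344))) (l 16656328)))))) (a (l 14) (a (l 14) (a (l 14) (a (l 14) (c (l 16695680) (b (l 16653448) (c (l 16657112) (c (l 16728560) (l 16699904))))))))))) (c (a (l 14) (b (a (l 14) (a (l 14) (a (l 14) (c (l 16636344) (b (c (l 16709984) (b (l 16703224) (l 16702712))) (c (b (l 16707360) (l 16707264)) (l 16704800))))))) (a (l 14) (a (l 14) (a (l 14) (c (b (c (l 16717696) (b (l 16690640) (l 16711936))) (c (b (c (l 16716712) (l 16714536)) (l 16716736)) (l 16714952))) (l 16712368)))))))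 (a (l 14) (a (l 14) (a (l 14) (a (l 14) (a (l 14) (l 16686312)))))))) (c (a (l 14) (c (a (l 14) (a (l 14) (a (l 14) (a (l 14) (b (l 16661088) (c (l 16671480) (b (l 16659760) (c (b (l 16744248) (l 16731736)) (b (c (l 16738280) (l 16725272)) (c (l 16727568) (l 16737360))))))))))) (b (a (l 14) (a (l 14) (a (l 14) (a (l 14) (a (l 14) (c (b (l 16735936) (c (l 16735432) (b (l 16728664) (c (l 16728848) (l 16727184))))) (b (c (b (l 16724752) (l 16713360)) (l 16720936)) (l 16725808)))))))) (a (l 14) (a (l 14) (a (l 14) (a (l 14) (c (b (c (b (c (l 16734456) (l 16731328)) (c (l 16733520) (l 16732224))) (l 16730936)) (l 16736048)) (l 16733400))))))))) (a (l 14) (a (l 14) (a (l 14) (a (l 14) (l 16727928)))))))), by decide +kernel⟩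

def k56_A00pp_022_s3 : ∃ t, chk3 f_A00pp_022_s3 t 71 123 11 = true :=
  ⟨(c (a (l 14) (b (a (l 14) (c (b (c (a (l 14) (a (l 14) (a (l 14) (a (l 14) (b (b (l 16668064) (c (l 16669840) (c (l 16747568) (b (l 16744312) (l 16744144))))) (c (b (l 16709512) (c (l 16740856) (b (c (l 16748872) (l 16747720)) (l 16748784)))) (b (c (b (l 16735864) (l 16746424)) (l 16745312)) (l 16747848)))))))) (a (l 14) (a (l 14) (a (l 14) (a (l 14) (b (c (b (c (b (l 16742344) (l 16741944)) (l 16740416)) (l 16742768)) (l 16741280)) (l 16746512))))))) (a (l 14) (a (l 14) (a (l 14) (a (l 14) (b (b (c (c (c (b (c (l 16750936) (l 16750056)) (l 16751224)) (l 16750456)) (l 16750448)) (l 16750440)) (l 16753064)) (l 16756992))))))) (a (l 14) (a (l 14) (l 16706648))))) (a (l 14) (b (a (l 14) (l 16753152)) (b (a (l 14) (a (l 14) (b (l 16770904) (l 16763048)))) (a (l 14) (a (l 14) (a (l 14) (a (l 14) (a (l 14) (a (l 14) (b (b (l 16770912) (b (b (l 16771736) (b (l 16777152) (l 4))) (l 4))) (l 4))))))))))))) (a (l 14)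 (b (a (l 14) (b (l 16741168) (l 16709736))) (b (a (l 14) (b (l 16759576) (l 16754360))) (a (l 14) (b (a (l 14) (a (l 14) (c (l 16761720) (l 16761712)))) (a (l 14) (a (l 14) (a (l 14) (a (l 14) (a (l 14) (a (l 14) (b (b (l 16770904) (b (b (l 16771728) (b (l 16774528) (l 4))) (l 4))) (l 4)))))))))))))), by decide +kernel⟩

def k57_A00pp_022_s3 : ∃ t, chk3 f_A00pp_022_s3 t 17 31 2 = true :=
  ⟨(a (l 14) (c (b (b (a (l 14) (a (l 14) (a (l 14) (a (l 14) (l 4))))) (l 4)) (l 4)) (b (b (b (c (c (a (l 14) (a (l 14) (a (l 14) (a (l 14) (l 4))))) (a (l 14) (a (l 14) (a (l 14) (a (l 14) (l 4)))))) (a (l 14) (a (l 14) (a (l 14) (a (l 14) (l 4)))))) (a (l 14) (l 4))) (l 4)) (l 4)))), by decide +kernel⟩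

def k58_A00pp_022_s3 : ∃ t, chk3 f_A00pp_022_s3 t 34 30 3 = true :=
  ⟨(l 14), by decide +kernel⟩

def k59_A00pp_022_s3 : ∃ t, chk3 f_A00pp_022_s3 t 35 30 6 = true :=
  ⟨(b (a (l 14) (c (b (l 6) (a (l 14) (c (b (a (l 14) (a (l 14) (a (l 14) (a (l 14) (c (b (l 16597944) (c (b (l 16682960) (l 16659120)) (b (l 16660456) (l 16673392)))) (b (c (b (l 16661784) (l 16663408)) (l 16660088)) (l 16670464))))))) (a (l 14) (a (l 14) (a (l 14) (b (c (c (b (c (l 16661320) (l 16678848)) (l 16683616)) (l 16680560)) (l 16680456)) (l 16690904)))))) (a (l 14) (a (l 14) (l 16674368)))))) (b (l 6) (a (l 14) (l 16585640))))) (c (a (l 14) (b (a (l 14) (a (l 14) (a (l 14) (b (l 16705712) (l 16726656))))) (b (a (l 14) (b (l 16717216) (a (l 14) (l 16730592)))) (a (l 14) (b (a (l 14) (b (l 16749016) (c (l 16754328) (l 16743808)))) (a (l 14) (b (a (l 14) (a (l 14) (b (l 16765616) (c (l 16763024) (l 16763016))))) (a (l 14) (b (a (l 14) (b (c (c (l 16765016) (l 16765008)) (c (l 16765008) (l 16765008))) (a (l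 14) (a (l 14) (a (l 14) (b (c (b (l 16771688) (c (b (l 16777160) (l 98482244343)) (l 68954346167))) (b (l 16771688) (c (l 68954346151) (l 16771400)))) (l 4))))))) (a (l 14) (a (l 14) (l 4)))))))))))) (b (a (l 14) (a (l 14) (b (l 16700968) (l 16680128)))) (b (a (l 14) (a (l 14) (b (l 16696024) (a (l 14) (l 16730448))))) (a (l 14) (a (l 14) (a (l 14) (a (l 14) (a (l 14) (a (l 14) (a (l 14) (a (l 14) (b (l 16754288) (b (c (l 16751800) (l 16751784)) (b (b (c (l 16765608) (l 16776096)) (b (c (c (l 16771816) (l 16766568)) (l 16771808)) (l 4))) (l 4)))))))))))))))), by decide +kernel⟩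

def k60_A00pp_022_s3 : ∃ t, chk3 f_A00pp_022_s3 t 35 30 7 = true :=
  ⟨(b (a (l 14) (a (l 14) (a (l 14) (b (l 6) (l 16587648))))) (b (a (l 14) (a (l 14) (a (l 14) (a (l 14) (c (l 16673552) (l 16631248)))))) (a (l 14) (b (a (l 14) (a (l 14) (a (l 14) (c (l 16705416) (l 16663296))))) (a (l 14) (a (l 14) (b (c (c (l 16720056) (l 16678064)) (l 16719944)) (b (c (c (l 16749056) (l 16728064)) (l 16749000)) (a (l 14) (a (l 14) (a (l 14) (b (c (b (c (l 16775824) (l 16775824)) (c (b (l 16776808) (l 76470521751)) (l 61974993527))) (c (l 16734448) (l 16692496))) (l 4))))))))))))), by decide +kernel⟩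

def k61_A00pp_022_s3 : ∃ t, chk3 f_A00pp_022_s3 t 17 31 3 = true :=
  ⟨(b (c (c (a (l 14) (b (a (l 14) (a (l 14) (a (l 14) (a (l 14) (l 4))))) (l 4))) (a (l 14) (a (l 14) (b (a (l 14) (a (l 14) (a (l 14) (l 4)))) (l 4))))) (a (l 14) (a (l 14) (b (a (l 14) (a (l 14) (a (l 14) (l 4)))) (l 4))))) (l 4)), by decide +kernel⟩

def k62_A00pp_022_s3 : ∃ t, chk3 f_A00pp_022_s3 t 36 14 2 = true :=
  ⟨(l 6), by decide +kernel⟩

def k63_A00pp_022_s3 : ∃ t, chk3 f_A00pp_022_s3 t 37 28 2 = true :=
  ⟨(l 6), by decide +kernel⟩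

def k64_A00pp_022_s3 : ∃ t, chk3 f_A00pp_022_s3 t 37 58 4 = true :=
  ⟨(l 6), by decide +kernel⟩

def k65_A00pp_022_s3 : ∃ t, chk3 f_A00pp_022_s3 t 74 59 8 = true :=
  ⟨(a (c (a (b (l 6) (b (l 6) (b (l 6) (b (l 6) (c (c (l 16533704) (a (l 16550744) (c (a (l 16574488) (a (l 16577224) (l 16581072))) (a (l 16578880) (l 16590184))))) (a (a (l 6) (l 16556192)) (l 16533240))))))) (b (l 6) (b (l 6) (b (l 6) (c (c (a (c (l 16580680) (a (l 16569608) (l 16589080))) (a (l 16574912) (l 16608360))) (l 16531416)) (c (l 16558072) (l 16584776))))))) (b (l 6) (b (l 6) (a (c (c (l 16557496) (a (l 16655288) (l 16597016))) (l 16624384)) (c (l 16622840) (c (a (l 16619160) (l 16595952)) (a (l 16592800) (c (l 16618808) (a (l 16655088) (l 16648872)))))))))) (c (b (l 6) (b (l 6) (a (c (c (l 16555312) (a (l 16652712) (l 16594960))) (a (c (l 16595456) (l 16622136)) (l 16634952))) (c (c (a (l 16594424) (l 16620424)) (l 16634056)) (c (a (l 16632176) (l 16609280)) (a (l 16605880) (l 16582952))))))) (c (b (l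 6) (b (l 6) (a (c (a (l 16625584) (l 16602528)) (a (l 16599224) (l 16576304))) (c (c (l 16574648) (a (l 16656816) (a (l 16640048) (c (l 16632864) (l 16629944))))) (a (c (a (l 16649360) (l 16618408)) (a (l 16618384) (l 16633744))) (l 16628960)))))) (b (l 6) (b (l 6) (a (c (a (c (l 16663296) (a (l 16656072) (l 16605200))) (c (a (l 16605296) (l 16639968)) (l 16639136))) (a (l 16602104) (l 16635384))) (l 16625432))))))), by decide +kernel⟩

def k66_A00pp_022_s3 : ∃ t, chk3 f_A00pp_022_s3 t 74 118 9 = true :=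
  ⟨(l 6), by decide +kernel⟩

def k67_A00pp_022_s3 : ∃ t, chk3 f_A00pp_022_s3 t 148 119 9 = true :=
  ⟨(c (b (l 6) (a (c (c (a (l 16611728) (a (l 16594880) (c (l 16674080) (l 16621112)))) (a (c (l 16592352) (l 16625408)) (l 16638424))) (l 16655312)) (c (a (c (c (a (l 16663432) (l 16655560)) (l 16654520)) (l 16650704)) (l 16644696)) (l 16638904)))) (a (b (l 6) (b (l 6) (a (l 16647400) (a (l 16641544) (b (l 6) (c (l 16644360) (c (l 16636768) (c (l 16632992) (a (l 16632008) (l 16631800)))))))))) (b (l 6) (b (l 6) (c (a (l 16636424) (c (l 16630464) (b (l 16623880) (a (l 16629584) (c (l 16626992) (b (l 16624920) (l 16629792))))))) (a (c (b (l 16627176) (a (l 16632728) (c (l 16629920) (l 16619616)))) (b (a (l 6) (c (l 16623168) (l 16625464))) (a (c (l 16631280) (l 16633976)) (l 16594632)))) (c (b (a (c (l 16622152) (l 16621936)) (c (b (l 16618072) (l 16622304)) (l 16623848))) (a (c (b (l 16626120) (l 16630672)) (l 16632480)) (l 16635360))) (b (a (l 16606928) (l 16633520)) (l 16646040))))))))),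 by decide +kernel⟩

def k68_A00pp_022_s3 : ∃ t, chk3 f_A00pp_022_s3 t 149 238 9 = true :=
  ⟨(l 6), by decide +kernel⟩

def k69_A00pp_022_s3 : ∃ t, chk3 f_A00pp_022_s3 t 149 239 18 = true :=
  ⟨(a (b (l 16623600) (c (l 16635504) (a (l 16629624) (c (l 16623832) (b (a (l 16619088) (c (l 16616176) (l 16615040))) (a (c (l 16623840) (b (l 16620840) (l 16624392))) (c (b (l 16619472) (l 16623344)) (b (l 16620912) (l 16627048))))))))) (c (b (l 16611912) (a (l 16623208) (c (b (l 16615568) (a (l 16621176) (c (l 16618352) (b (l 16614984) (l 16617864))))) (b (a (l 16612752) (c (l 16610136) (b (l 16607720) (a (l 16611168) (l 16612256))))) (a (c (l 16618040) (b (l 16615856) (a (l 16619472) (l 16620912)))) (c (b (a (l 16572280) (l 16614400)) (a (l 16618608) (l 16620400))) (l 16622064))))))) (b (a (c (l 16608488) (b (l 16602152) (a (l 16608064) (c (l 16605752) (b (l 16604176) (l 16609672)))))) (c (b (a (l 16600496) (c (l 16597600) (l 16596480))) (a (c (l 16605288) (b (l 16518392) (l 16605832)))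 (c (b (l 16517040) (l 16604800)) (b (l 16602368) (l 16608488))))) (b (a (c (l 16597744) (b (l 16595920) (l 16601112))) (c (b (l 16594912) (l 16600408)) (l 16602872))) (a (c (b (l 16603232) (l 16609040)) (l 16611696)) (l 16614968))))) (a (c (b (a (l 16615824) (c (l 16613024) (b (l 16610200) (l 16614064)))) (a (c (l 16620808) (b (l 16618184) (a (l 16621480) (l 16622224)))) (c (b (l 16616976) (a (l 16620432) (l 16621520))) (b (l 16619376) (l 16626144))))) (b (a (c (b (l 16611552) (l 16615104)) (b (l 16612504) (l 16618312))) (c (b (l 16611624) (l 16617752)) (l 16620608))) (a (c (b (l 16620104) (l 16626552)) (l 16629592)) (l 16632984)))) (c (b (a (c (b (l 16608920) (a (l 16612216) (l 16612952))) (b (l 16610832) (l 16617264))) (c (b (l 16610112) (l 16616864)) (l 16620032))) (a (l 16605064) (l 16632472))) (l 16635504)))))), by decide +kernel⟩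

def k70_A00pp_022_s3 : ∃ t, chk3 f_A00pp_022_s3 t 149 239 19 = true :=
  ⟨(b (c (b (a (l 6) (b (a (l 6) (l 16613584)) (a (c (a (c (l 16601456) (l 16602744)) (l 16584040)) (l 16614712)) (l 16621344)))) (a (a (c (l 16616912) (a (l 16614064) (c (l 16611272) (b (l 6) (l 16612984))))) (c (a (l 16610952) (c (l 16608376) (b (l 16606304) (l 16611168)))) (a (c (b (l 16607488) (l 16612040)) (l 16613824)) (l 16616696)))) (a (c (a (c (b (l 16605200) (l 16610376)) (l 16612632)) (l 16615728)) (l 16626656)) (l 16633344)))) (b (a (l 6) (l 16639648)) (a (a (c (a (c (l 16612600) (l 16615288)) (l 16575944)) (l 16628048)) (l 16634664)) (l 16655664)))) (c (a (a (c (b (l 16620768) (a (l 16626656) (c (l 16624328) (b (l 16622752) (l 16628256))))) (b (a (c (l 16619104) (b (l 16616800) (l 16621344))) (c (b (l 16615608) (l 16620472)) (l 16622504))) (a (c (b (l 16623800) (l 16628984)) (l 16631256)) (l 16634352)))) (c (b (a (c (l 16616328) (b (l 16614488) (l 16619672))) (c (b (l 16613456) (l 16618952)) (l 16621424)))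 (a (c (b (l 16621792) (l 16627616)) (l 16630296)) (l 16633568))) (l 16594960))) (l 16566584)) (a (b (a (l 16605664) (l 16650696)) (l 16575872)) (c (l 16588584) (b (l 16595152) (a (l 16688248) (a (l 16614696) (c (l 16701864) (l 16664920))))))))), by decide +kernel⟩

def k71_A00pp_022_s3 : ∃ t, chk3 f_A00pp_022_s3 t 75 118 8 = true :=
  ⟨(c (a (l 6) (a (l 6) (a (l 6) (l 16544704)))) (a (l 6) (b (l 6) (b (l 6) (b (l 6) (b (l 6) (a (l 6) (a (l 6) (c (c (a (l 16548168) (c (l 16545424) (c (l 16501912) (b (l 16500680) (l 16523704))))) (a (a (l 6) (c (l 16523648) (l 16547576))) (c (a (l 16524216) (l 16547168)) (l 16552336)))) (l 16566688)))))))))), by decide +kernel⟩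

def k72_A00pp_022_s3 : ∃ t, chk3 f_A00pp_022_s3 t 150 119 16 = true :=
  ⟨(c (a (c (b (l 16612496) (l 16627552)) (a (c (a (l 16617472) (l 16606072)) (l 16598704)) (l 16582456))) (a (c (l 16585888) (l 16559720)) (a (l 16597744) (c (l 16557568) (c (l 16621816) (c (l 16570056) (b (l 16599504) (a (l 16616000) (l 16612032))))))))) (a (c (a (l 16579064) (l 16556256)) (a (b (l 16587960) (b (l 16598704) (l 16616456))) (a (c (l 16584264) (b (l 16609904) (c (l 16625296) (l 16622648)))) (c (b (l 16588704) (c (l 16625768) (l 16621712))) (l 16611936))))) (c (a (c (b (l 16616744) (l 16589480)) (b (a (l 16610072) (l 16602336)) (a (c (l 16627136) (l 16600696)) (c (a (l 16619360) (l 16615928)) (l 16615528))))) (c (a (b (c (l 16603520) (l 16599776)) (c (l 16597264) (l 16614456))) (b (l 16595944) (l 16610712))) (l 16602744))) (b (l 16595824) (l 16589488))))), by decide +kernel⟩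

def k73_A00pp_022_s3 : ∃ t, chk3 f_A00pp_022_s3 t 302 119 32 = true :=
  ⟨(c (a (l 16582560) (c (b (l 16580216) (a (l 16621768) (c (l 16613792) (a (l 16610024) (b (l 16601200) (l 16608864)))))) (b (a (c (l 16596888) (l 16592040)) (l 16577200)) (a (c (l 16611968) (a (l 16608632) (l 16604968))) (c (a (b (l 16601040) (l 16608664)) (l 16602000)) (l 16601728)))))) (a (a (c (b (l 16603296) (l 16597240)) (b (l 16594936) (c (a (l 16612008) (l 16608872)) (l 16608560)))) (c (b (c (l 16595912) (l 16592440)) (c (a (l 16612888) (l 16608400)) (l 16607376))) (l 16597704))) (b (l 16585528) (b (l 16596792) (b (l 16602496) (a (l 16608272) (b (l 16603416) (a (l 16606312) (c (l 16605616) (c (l 16603752) (b (l 16602072) (l 16582680)))))))))))), by decide +kernel⟩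

def k74_A00pp_022_s3 : ∃ t, chk3 f_A00pp_022_s3 t 302 238 33 = true :=
  ⟨(l 16582072), by decide +kernel⟩

def k75_A00pp_022_s3 : ∃ t, chk3 f_A00pp_022_s3 t 302 478 33 = true :=
  ⟨(a (l 16597232) (c (l 16591816) (b (b (l 16583992) (a (l 16587856) (c (l 16585152) (a (l 16583648) (c (l 16582336) (l 16561176)))))) (a (c (l 16591936) (b (l 16588520) (a (l 16591448) (b (l 16547472) (a (l 16549088) (l 16570128)))))) (c (b (l 16545224) (a (l 16548216) (c (l 16547088) (b (l 16567048) (l 16569616))))) (c (b (a (l 16586264) (b (l 16542448) (l 16565688))) (a (b (l 16546528) (l 16569920)) (l 16591584))) (b (a (l 16565280) (l 16545480)) (l 16593432)))))))), by decide +kernel⟩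

def k76_A00pp_022_s3 : ∃ t, chk3 f_A00pp_022_s3 t 604 479 33 = true :=
  ⟨(c (l 16607272) (b (a (l 16602352) (c (l 16599656) (a (l 16556376) (c (l 16576144) (b (l 16594784) (b (l 16576192) (l 16557792))))))) (a (c (l 16607376) (b (l 16583224) (a (l 16586296) (c (l 16585288) (l 16607216))))) (c (b (a (l 16603480) (c (l 16602144) (l 16580712))) (a (c (l 16606032) (a (l 16563632) (l 16584504))) (c (b (l 16562048) (l 16585096)) (l 16606648)))) (b (a (c (l 16581232) (b (l 16580344) (l 16562096))) (c (b (l 16579952) (l 16561856)) (l 16605008))) (a (c (l 16606920) (l 16609488)) (l 16611208))))))), by decide +kernel⟩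

def k77_A00pp_022_s3 : ∃ t, chk3 f_A00pp_022_s3 t 605 479 33 = true :=
  ⟨(c (b (a (l 16599472) (c (l 16596840) (b (a (l 16594336) (c (l 16593008) (l 16571568))) (a (c (l 16596896) (a (l 16554488) (l 16575360))) (c (b (l 16552904) (l 16575952)) (a (l 16575808) (l 16555832))))))) (a (c (l 16583688) (c (a (l 16561808) (b (l 16600808) (b (l 16582008) (l 16584392)))) (b (a (l 16601464) (b (l 16557472) (l 16580520))) (a (b (l 16582496) (l 16584728)) (l 16606192))))) (c (b (a (l 16558824) (c (l 16557640) (b (l 16577440) (a (l 16579240) (l 16558936))))) (a (c (l 16582608) (b (l 16581552) (l 16584088))) (c (b (a (l 16559808) (l 16580992)) (l 16583824)) (l 16605856)))) (b (a (c (b (l 16577928) (l 16580152)) (l 16601832)) (l 16603304)) (l 16609456))))) (b (a (c (b (l 16574072) (a (l 16577144) (c (l 16576136) (b (l 16575376) (l 16557280))))) (b (a (c (l 16552240) (b (l 16551104) (l 16574496))) (c (b (l 16571616) (l 16553216)) (l 16596152))) (a (c (b (l 16575768) (l 16557520)) (l 16600568))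 (l 16602208)))) (c (b (a (c (l 16572088) (b (l 16571192) (l 16552944))) (c (b (l 16570808) (l 16552712)) (l 16595856))) (a (c (b (l 16575016) (l 16557080)) (l 16600328)) (l 16602040))) (l 16603496))) (a (c (b (a (c (a (l 16559064) (l 16579928)) (l 16602336)) (c (l 16602072) (l 16604824))) (a (l 16608056) (l 16611112))) (l 16612504)) (l 16615984)))), by decide +kernel⟩

def k78_A00pp_022_s3 : ∃ t, chk3 f_A00pp_022_s3 t 303 238 16 = true :=
  ⟨(c (a (c (a (c (c (a (l 16590312) (l 16586104)) (l 16585280)) (l 16583264)) (l 16580536)) (l 16577552)) (l 16572128)) (b (a (l 16566336) (c (l 16560872) (b (l 16554008) (c (l 16538208) (a (l 16558592) (c (a (l 16514424) (b (l 16553424) (l 16536384))) (a (b (l 16554064) (l 16536776)) (b (l 16532640) (l 16559320))))))))) (a (c (l 16576352) (b (l 16569592) (a (l 16575496) (c (b (l 16571584) (a (l 16574480) (c (l 16573176) (l 16552032)))) (b (a (l 16528536) (c (l 16527488) (l 16549336))) (a (c (l 16552520) (l 16553576)) (l 16575832))))))) (c (b (a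 (l 16568536) (b (l 16563648) (c (l 16566808) (a (l 16565304) (c (l 16564016) (l 16542904)))))) (a (c (l 16573600) (b (l 16570184) (c (l 16530888) (a (l 16572528) (b (l 16528744) (l 16552008)))))) (c (b (l 16526912) (a (l 16529928) (c (l 16549784) (b (l 16548792) (l 16551392))))) (b (a (b (l 16525176) (c (l 16568456) (l 16547816))) (c (b (l 16524176) (l 16547456)) (l 16548240))) (a (c (b (l 16549240) (l 16551680)) (l 16531608)) (l 16575096)))))) (b (a (c (b (l 16563840) (l 16545216)) (b (a (l 16520600) (c (l 16519440) (l 16540936))) (a (c (l 16523456) (l 16545128)) (b (l 16544440) (l 16526592))))) (c (b (a (l 16540352) (c (l 16539320) (l 16540232))) (a (c (l 16543384) (l 16544464)) (l 16566736))) (a (b (c (l 16540568) (l 16563680)) (l 16569712)) (l 16569256)))) (a (c (b (a (c (l 16569272) (l 16547952)) (c (l 16547464) (l 16548728))) (a (c (b (l 16529256) (l 16552368)) (l 16553016)) (l 16575416))) (b (a (l 16571520) (l 16574160)) (l 16580384))) (b (c (l 16572712) (l 16579416)) (l 16583840)))))))),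 by decide +kernel⟩

def k79_A00pp_022_s3 : ∃ t, chk3 f_A00pp_022_s3 t 606 239 32 = true :=
  ⟨(c (a (c (c (a (l 16605504) (b (l 16597488) (l 16605184))) (l 16600464)) (l 16598448)) (b (l 16591960) (b (l 16597744) (c (l 16602864) (b (l 16599416) (c (l 16581096) (a (l 16601744) (b (l 16589328) (a (l 16580552) (l 16581008)))))))))) (b (l 16588960) (b (a (l 16575776) (c (b (l 16593048) (a (l 16595944) (c (l 16594632) (b (l 16592952) (l 16573560))))) (b (a (l 16549696) (c (l 16569488) (b (l 16568312) (a (l 16570120) (l 16549808))))) (a (c (l 16573488) (b (c (l 16551096) (l 16572344)) (c (l 16574272) (l 16554248)))) (c (b (a (l 16550688) (l 16571864)) (l 16574696)) (l 16596720)))))) (a (c (b (l 16600784) (a (l 16603680) (c (l 16602392) (b (l 16558928) (a (l 16560520) (l 16581600)))))) (b (a (l 16578584) (c (b (l 16597512) (l 16578120)) (b (a (l 16555248) (l 16576424)) (l 16579256)))) (a (c (c (l 16560400) (b (l 16601168) (l 16582096))) (b (a (l 16580304) (l 16580688)) (l 16583600))) (c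 (b (a (l 16579880) (l 16580432)) (l 16583408)) (l 16605640))))) (c (b (a (c (l 16598504) (c (l 16555840) (b (l 16596608) (l 16577536)))) (c (b (l 16554368) (a (l 16555960) (l 16577040))) (b (a (l 16575320) (l 16575872)) (l 16578840)))) (a (c (b (l 16579352) (a (l 16581000) (l 16581280))) (b (a (l 16579496) (l 16559248)) (l 16562272))) (c (a (c (l 16590704) (l 16560272)) (l 16561056)) (l 16605536)))) (b (a (c (b (a (l 16575744) (l 16576128)) (l 16579032)) (l 16601160)) (l 16602848)) (l 16609136))))))), by decide +kernel⟩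

def k80_A00pp_022_s3 : ∃ t, chk3 f_A00pp_022_s3 t 607 478 32 = true :=
  ⟨(c (b (l 16584200) (a (l 16590000) (b (l 16585160) (a (l 16588072) (c (l 16587384) (c (l 16585520) (b (l 16583840) (l 16574936)))))))) (b (a (l 16581168) (c (l 16578568) (b (a (l 16576040) (c (l 16574720) (c (l 16532112) (l 16553136)))) (a (c (l 16578624) (b (l 16535200) (l 16558112))) (c (b (l 16555624) (a (l 16536320) (l 16557632))) (a (l 16557568) (l 16537608))))))) (a (c (l 16565424) (b (a (l 16583808) (b (l 16560696) (c (l 16583048) (a (l 16540880) (l 16562184))))) (a (c (l 16544544) (b (l 16564232) (a (l 16565960) (l 16545488)))) (c (b (l 16563752) (a (l 16565560) (l 16545256))) (l 16566960))))) (c (b (a (l 16540576) (c (l 16560368) (b (l 16559200) (a (l 16561008) (l 16540704))))) (a (c (l 16564368) (b (a (l 16542080) (l 16563096)) (c (l 16565160) (l 16545136)))) (c (b (a (l 16562544) (l 16562760)) (l 16576072)) (l 16545664)))) (b (a (c (b (l 16559672) (a (l 16561408) (l 16540936))) (b (l 16560744) (l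 16585048))) (l 16585056)) (l 16591184)))))), by decide +kernel⟩

def k81_A00pp_022_s3 : ∃ t, chk3 f_A00pp_022_s3 t 607 479 64 = true :=
  ⟨(b (a (b (l 16592904) (c (l 16596096) (a (l 16594576) (c (l 16593280) (b (l 16549816) (a (l 16572384) (l 16572480))))))) (c (b (l 16590304) (c (l 16571992) (a (l 16592648) (b (l 16580224) (a (l 16571448) (l 16571896)))))) (b (a (c (l 16589392) (a (l 16546856) (c (l 16546304) (l 16577912)))) (c (b (l 16566232) (a (l 16567832) (l 16567936))) (b (a (l 16566208) (l 16566768)) (l 16569728)))) (a (c (b (l 16570248) (a (l 16571896) (l 16572168))) (b (a (l 16570384) (l 16571104)) (l 16574120))) (c (a (c (l 16581592) (l 16572128)) (l 16551944)) (l 16596408)))))) (a (c (b (l 16577144) (a (l 16580152) (c (l 16589512) (b (a (l 16577696) (l 16588176)) (a (l 16590280) (l 16580584)))))) (b (a (c (l 16597192) (b (l 16574800) (a (l 16576448) (l 16576720)))) (c (b (l 16584776) (a (l 16576000) (l 16576448))) (a (c (l 16586152) (l 16555712)) (l 16556496)))) (a (c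 (b (c (l 16557160) (l 16588696)) (a (l 16590640) (l 16580776))) (b (l 16590064) (l 16604008))) (c (l 16602288) (l 16605496))))) (c (b (a (c (l 16575032) (b (c (l 16552608) (l 16584144)) (a (l 16586088) (l 16576216)))) (c (b (a (l 16573152) (l 16583632)) (a (l 16585728) (l 16576032))) (b (l 16585304) (l 16599392)))) (a (c (b (a (l 16577192) (l 16587840)) (a (l 16589968) (l 16559472))) (l 16602152)) (l 16603792))) (b (c (a (b (l 16585512) (l 16599448)) (l 16600928)) (l 16602728)) (l 16609048))))), by decide +kernel⟩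

def k82_A00pp_022_s3 : ∃ t, chk3 f_A00pp_022_s3 t 607 479 65 = true :=
  ⟨(b (a (c (b (a (l 16569464) (c (b (l 16588392) (l 16569008)) (b (a (l 16546128) (l 16567312)) (l 16570136)))) (a (c (a (l 16551408) (c (l 16550856) (l 16571984))) (b (a (l 16571184) (l 16571568)) (l 16574472))) (c (b (a (l 16570760) (l 16571312)) (l 16574280)) (l 16596504)))) (b (a (c (b (a (l 16546640) (l 16567648)) (c (l 16569712) (l 16549688))) (l 16571336)) (l 16593896)) (l 16600112))) (c (c (b (a (b (a (l 16566632) (l 16567016)) (l 16569912)) (l 16591952)) (l 16598216)) (l 16597800)) (l 16603096))) (b (a (c (a (c (b (a (l 16574936) (l 16554688)) (l 16557712)) (l 16601008)) (l 16602752)) (l 16608136)) (l 16611656)) (l 16616216))), by decide +kernel⟩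

def k83_A00pp_022_s3 : ∃ t, chk3 f_A00pp_022_s3 t 303 478 66 = true :=
  ⟨(a (b (a (l 16584016) (c (l 16581336) (b (l 16536064) (a (l 16539072) (c (l 16558920) (b (l 16557912) (l 16560496))))))) (a (c (l 16589072) (b (l 16564920) (a (l 16568000) (c (c (l 16545808) (l 16566824)) (b (l 16566240) (l 16548144)))))) (c (b (a (l 16585184) (c (l 16583864) (c (l 16541240) (l 16562256)))) (a (c (l 16587760) (b (l 16544328) (l 16567224))) (c (b (l 16543776) (a (l 16545440) (l 16545760))) (a (l 16566680) (l 16546704))))) (b (a (c (l 16562944) (b (l 16562056) (l 16543816))) (c (b (l 16561680) (l 16543584)) (l 16586736))) (a (c (b (l 16565888) (l 16547944)) (l 16591192)) (l 16592904)))))) (b (a (c (b (l 16555776) (a (c (l 16579992) (l 16558376)) (c (c (l 16536672) (l 16557696)) (b (l 16557120) (l 16539032))))) (c (b (a (l 16533944) (b (l 16553352) (l 16555944))) (a (b (l 16557496) (l 16539264)) (l 16582184))) (b (a (b (l 16553800) (l 16556232)) (l 16535968)) (l 16584032)))) (c (b (a (c (l 16553816)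 (b (l 16552944) (l 16555680))) (c (b (l 16552568) (l 16534488)) (l 16577640))) (a (c (b (l 16556776) (l 16538840)) (l 16582088)) (l 16583808))) (l 16585240))) (a (c (b (a (c (b (l 16539760) (l 16562664)) (b (l 16561328) (l 16543392))) (a (l 16584624) (l 16585824))) (c (l 16589744) (l 16592840))) (l 16594192)) (l 16597672)))), by decide +kernel⟩

def k84_A00pp_022_s3 : ∃ t, chk3 f_A00pp_022_s3 t 303 479 66 = true :=
  ⟨(a (b (a (c (b (a (l 16592944) (b (l 16569824) (c (l 16592168) (l 16571384)))) (a (b (l 16573824) (a (l 16575440) (c (l 16595696) (l 16554608)))) (c (b (l 16572872) (a (l 16574680) (l 16554368))) (l 16597048)))) (b (a (c (b (l 16548896) (l 16571792)) (b (l 16570448) (l 16552512))) (a (l 16593744) (l 16594936))) (c (l 16598872) (l 16601976)))) (c (b (c (a (b (l 16568792) (a (l 16570520) (l 16550040))) (l 16571512)) (l 16594304)) (l 16600304)) (l 16603232))) (a (c (b (a (c (b (l 16576984) (l 16579520)) (l 16601440)) (l 16603032)) (l 16609256)) (l 16612312)) (l 16615824)))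 (l 16618376)), by decide +kernel⟩

def k85_A00pp_022_s3 : ∃ t, chk3 f_A00pp_022_s3 t 303 239 67 = true :=
  ⟨(b (a (b (a (c (b (l 16579344) (a (l 16582280) (b (l 16559296) (a (l 16560912) (l 16560992))))) (b (a (l 16557520) (c (l 16556600) (l 16557840))) (a (c (l 16560712) (l 16562128)) (l 16584520)))) (c (b (a (b (l 16534320) (c (l 16577608) (l 16556928))) (c (b (l 16533312) (l 16556568)) (l 16536360))) (a (c (b (l 16537392) (l 16560792)) (l 16540704)) (l 16584192))) (b (l 16581808) (l 16589376)))) (a (c (b (a (c (l 16543088) (b (l 16541960) (l 16565352))) (c (b (l 16562480) (l 16565056)) (l 16587016))) (a (c (b (l 16566624) (l 16548376)) (l 16591424)) (l 16593064))) (l 16594576)) (l 16597912))) (b (l 16571496) (l 16608440))) (l 16583688)), by decide +kernel⟩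

def k86_A00pp_022_s3 : ∃ t, chk3 f_A00pp_022_s3 t 150 238 17 = true :=
  ⟨(a (c (a (c (c (a (l 16617472) (l 16610760)) (l 16610160)) (l 16606416)) (l 16600624)) (l 16594768)) (c (l 16588304) (b (l 16574728) (a (l 16586144) (c (a (l 16582384) (a (l 16579400) (b (l 16575488) (c (l 16580416) (l 16579032))))) (b (a (l 16575736) (c (l 16531224) (b (l 16549824) (a (l 16553312) (l 16575432))))) (a (c (l 16581096) (b (a (l 16494648) (l 16578416)) (a (l 16582568) (l 16584032)))) (c (b (a (l 16535376) (l 16577552)) (a (l 16581744) (l 16583560))) (l 16585184))))))))), by decide +kernel⟩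

def k87_A00pp_022_s3 : ∃ t, chk3 f_A00pp_022_s3 t 302 238 34 = true :=
  ⟨(b (b (l 16566568) (a (l 16574288) (c (l 16568720) (a (l 16565720) (c (l 16562952) (c (l 16477384) (b (l 16558984) (l 16541280)))))))) (a (b (l 16577960) (c (l 16584160) (a (l 16581160) (c (l 16578416) (b (l 16533384) (a (l 16536472) (c (l 16535488) (l 16536608)))))))) (c (b (l 16572448) (c (l 16577560) (a (l 16576984) (b (a (l 16573048) (b (l 16529024) (l 16551856))) (a (b (l 16533032) (l 16555968)) (c (l 16554632) (l 16535560))))))) (b (a (c (l 16570680) (a (l 16527496) (c (l 16526296) (b (l 16565928) (l 16528160))))) (c (b (l 16524184) (a (l 16527288) (c (l 16526320) (l 16527472)))) (b (a (c (l 16481432) (l 16523976)) (l 16566976)) (l 16572792)))) (a (c (b (l 16553112) (a (l 16556304) (c (l 16555480) (l 16536024)))) (b (a (c (l 16531424) (l 16532368)) (l 16575536)) (l 16581464))) (c (b (a (c (l 16530400) (l 16531736)) (l 16575048)) (l 16581080)) (l 16583960))))))), by decide +kernel⟩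

def k88_A00pp_022_s3 : ∃ t, chk3 f_A00pp_022_s3 t 303 476 34 = true :=
  ⟨(a (c (b (l 16556976) (a (l 16562712) (c (l 16559992) (b (l 16514992) (a (l 16518112) (c (l 16517160) (l 16518360))))))) (b (a (c (l 16555224) (b (l 16551800) (l 16533584))) (c (a (l 16552360) (b (l 16549400) (l 16531792))) (b (a (l 16507800) (l 16529136)) (a (l 16533320) (l 16556224))))) (a (c (b (l 16474344) (a (l 16519304) (c (l 16518216) (l 16519024)))) (b (a (l 16536872) (l 16558504)) (a (l 16562728) (l 16564952)))) (c (b (a (c (l 16514192) (l 16514840)) (l 16557864)) (l 16563680)) (l 16566224))))) (c (b (a (c (l 16552232) (b (l 16507080) (a (l 16510120) (c (l 16509048) (l 16509912))))) (c (b (l 16505808) (a (l 16529912) (c (l 16508024) (l 16509264)))) (b (a (c (l 16505024) (l 16505720)) (l 16548776)) (l 16554600)))) (a (c (b (a (l 16556056) (l 16533936)) (a (l 16537976) (c (l 16537200) (l 16517808)))) (b (a (c (l 16513096) (l 16514120)) (l 16557320)) (l 16563248))) (c (b (a (c (l 16533088) (l 16513528))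 (l 16556872)) (l 16562888)) (l 16565792)))) (b (a (c (b (a (l 16527712) (l 16528424)) (a (l 16553616) (l 16555888))) (l 16557456)) (l 16560704)) (l 16573024)))), by decide +kernel⟩

def k89_A00pp_022_s3 : ∃ t, chk3 f_A00pp_022_s3 t 303 477 34 = true :=
  ⟨(a (c (b (a (c (l 16567784) (b (l 16543928) (a (l 16547136) (c (l 16546336) (l 16526904))))) (c (b (a (l 16563856) (b (l 16519856) (l 16542712))) (a (b (l 16523864) (l 16546824)) (c (l 16545496) (l 16526456)))) (b (a (c (l 16521248) (l 16522616)) (l 16565944)) (l 16571968)))) (a (a (c (c (l 16531528) (b (l 16571144) (l 16554248))) (b (c (l 16550472) (l 16531216)) (l 16579048))) (c (b (c (l 16528600) (l 16550064)) (b (l 16553552) (l 16535688))) (l 16578592))) (c (b (a (b (l 16549312) (l 16531344)) (l 16574360)) (l 16580544)) (l 16583664)))) (b (a (c (b (a (c (l 16522256) (l 16523232)) (l 16566416)) (l 16572344)) (l 16575056)) (l 16578440)) (l 16590896))) (b (c (a (c (b (a (c (l 16541336) (l 16522120)) (l 16565568)) (l 16571680))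 (l 16574712)) (l 16578144)) (l 16588928)) (l 16597768))), by decide +kernel⟩

def k90_A00pp_022_s3 : ∃ t, chk3 f_A00pp_022_s3 t 151 238 35 = true :=
  ⟨(a (b (a (c (l 16565168) (b (l 6) (a (c (l 16481400) (b (l 6) (a (l 16524136) (l 16566920)))) (c (b (c (l 16477208) (l 16540336)) (a (l 16544128) (l 16566288))) (b (l 16564128) (l 16570920)))))) (c (b (a (l 6) (c (l 16512776) (b (l 6) (a (l 16534960) (l 16557168))))) (a (c (b (l 16561048) (l 16542776)) (b (a (l 16518152) (l 16539088)) (a (l 16543240) (l 16565752)))) (c (b (a (l 16516984) (l 16538264)) (a (l 16563424) (l 16565304))) (l 16566912)))) (b (a (l 6) (b (l 6) (l 16565384))) (a (c (l 16567352) (l 16573848)) (l 16577224))))) (a (c (b (a (l 16572976) (c (b (l 16568824) (b (l 16528712) (l 16551432))) (b (a (l 16526176) (l 16568384)) (a (l 16572576) (l 16574416))))) (a (c (a (l 16536704) (c (l 16535496) (l 16577632))) (b (a (l 16555232) (l 16576784)) (a (l 16581016) (l 16583176)))) (c (b (a (l 16554216) (l 16576112)) (l 16581920))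 (l 16584448)))) (b (a (c (b (a (l 16485424) (l 16548256)) (a (l 16573376) (l 16574880))) (l 16576488)) (l 16579520)) (l 16591768))) (c (b (a (c (b (a (l 16546048) (l 16567632)) (a (l 16571864) (l 16574048))) (l 16575648)) (l 16578872)) (l 16591248)) (l 16597616)))) (b (a (c (b (a (c (b (a (l 6) (l 16529936)) (a (l 16534096) (l 16556648))) (l 16558248)) (l 16561296)) (l 16573504)) (l 16579744)) (l 16586504)) (l 16527536))), by decide +kernel⟩

def k91_A00pp_022_s3 : ∃ t, chk3 f_A00pp_022_s3 t 300 239 17 = true :=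
  ⟨(c (a (c (c (a (c (l 16633472) (l 16629128)) (l 16625016)) (l 16624368)) (l 16620624)) (l 16615000)) (b (b (l 16603656) (a (l 16611328) (a (l 16605208) (c (l 16603656) (c (l 16599888) (b (l 16596512) (l 16578440))))))) (a (b (l 16614920) (c (l 16621040) (a (l 16618056) (c (l 16615264) (b (l 16570224) (a (l 16573288) (l 16615192))))))) (c (b (l 16609320) (a (l 16615032) (c (l 16612392) (b (a (l 16609840) (l 16587920)) (a (l 16592000) (l 16613632)))))) (b (a (c (l 16607576) (a (l 16522416) (c (l 16563128) (l 16605240)))) (c (b (l 16561008) (a (l 16564072) (l 16605976))) (b (a (l 16581808) (l 16603648)) (l 16609480)))) (a (c (b (l 16568936) (a (l 16572104) (l 16614368))) (b (a (l 16611032) (l 16612256)) (l 16618216))) (c (b (a (l 16610160) (l 16611728)) (l 16617800)) (l 16620696)))))))), by decide +kernel⟩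

def k92_A00pp_022_s3 : ∃ t, chk3 f_A00pp_022_s3 t 301 239 34 = true :=
  ⟨(b (a (l 16603272) (b (l 16593384) (c (l 16599576) (a (l 16596624) (c (l 16552056) (a (c (l 16593104) (l 16592944)) (b (l 16569536) (c (l 16572944) (l 16595784))))))))) (a (c (l 16613128) (b (l 16606384) (a (l 16612232) (a (c (l 16610240) (b (l 16565232) (c (l 16568208) (l 16611176)))) (c (l 16608896) (b (c (l 16564152) (l 16606928)) (l 16612448))))))) (c (b (a (l 16605288) (c (l 16602560) (c (l 16600712) (c (l 16558048) (l 16599816))))) (a (a (l 16610056) (b (l 16607112) (c (l 16610216) (c (l 16608528) (l 16587744))))) (c (a (l 16565536) (c (l 16585304) (b (l 16603944) (b (l 16564376) (l 16566952))))) (b (a (b (l 16561800) (l 16584568)) (c (l 16583160) (l 16605736))) (a (c (b (l 16564848) (l 16567264)) (l 16610096)) (l 16611640)))))) (b (a (c (l 16601864) (b (c (l 16557040) (b (l 16555752) (l 16578736))) (a (c (l 16560128) (l 16581728)) (l 16603792)))) (c (b (a (l 16556048) (c (l 16554968) (l 16576768)))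 (a (c (l 16559024) (l 16601992)) (l 16603256))) (b (a (l 16599504) (l 16601760)) (l 16607976)))) (a (c (b (a (l 16585016) (c (l 16584080) (l 16606272))) (a (c (l 16588192) (l 16610584)) (l 16612000))) (b (a (l 16608112) (l 16610712)) (l 16617000))) (b (l 16591768) (l 16620472))))))), by decide +kernel⟩

def k93_A00pp_022_s3 : ∃ t, chk3 f_A00pp_022_s3 t 301 239 35 = true :=
  ⟨(b (a (c (b (l 16593936) (a (l 16599608) (c (l 16596840) (b (l 16551792) (a (l 16554864) (l 16596776)))))) (b (a (l 16591432) (a (c (l 16589248) (b (l 16544592) (l 16590928))) (c (l 16588240) (b (l 16586736) (l 16592728))))) (a (c (a (l 16513200) (c (l 16553912) (l 16596024))) (b (a (l 16552672) (l 16595144)) (l 16590344))) (c (b (a (l 16572600) (l 16594448)) (l 16600272)) (l 16602784))))) (c (b (a (c (l 16589128) (a (l 16503976) (c (l 16544696) (l 16586824)))) (c (b (l 16542584) (a (l 16545664) (l 16587584))) (b (a (l 16563400) (l 16585272)) (l 16591080)))) (a (c (b (l 16571496) (a (l 16574672) (c (l 16552856)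 (l 16596280)))) (b (a (l 16592616) (l 16593848)) (l 16599784))) (c (b (a (c (l 16548744) (l 16591984)) (l 16593336)) (l 16599384)) (l 16602264)))) (b (a (c (b (a (l 16543464) (l 16585952)) (a (l 16590192) (l 16592336))) (l 16593952)) (l 16597168)) (l 16609600)))) (a (c (b (a (c (l 16604584) (b (l 16559728) (a (l 16583872) (l 16605152)))) (c (a (c (l 16602304) (l 16602144)) (b (l 16578728) (l 16599184))) (b (a (l 16600952) (l 16602520)) (l 16608576)))) (a (c (b (c (l 16566232) (b (l 16564944) (l 16587928))) (a (c (l 16569312) (l 16611896)) (l 16612992))) (b (a (l 16609384) (l 16611296)) (l 16617456))) (c (b (a (l 16608696) (l 16610960)) (l 16617192)) (l 16620344)))) (b (a (c (b (a (l 16601816) (l 16603040)) (l 16608984)) (l 16611704)) (l 16615080)) (l 16627672))) (b (c (a (c (b (a (c (l 16556992) (l 16600608)) (l 16602096)) (l 16608240)) (l 16611288)) (l 16614736)) (l 16625664)) (l 16634584)))), by decide +kernel⟩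

def k94_A00pp_022_s3 : ∃ t, chk3 f_A00pp_022_s3 t 302 478 34 = true :=
  ⟨(a (c (b (l 16587984) (a (l 16593856) (c (b (l 16589944) (a (l 16592824) (c (l 16591504) (l 16570328)))) (b (a (l 16546872) (c (l 16545800) (l 16567608))) (a (c (l 16570824) (l 16571848)) (l 16594088)))))) (b (a (c (l 16586184) (b (l 16562304) (a (l 16565488) (c (l 16543680) (l 16587112))))) (c (a (c (l 16583912) (l 16583768)) (b (l 16560360) (c (l 16563784) (l 16586632)))) (b (a (c (l 16539568) (l 16540872)) (l 16584176)) (l 16590216)))) (a (c (b (c (l 16547856) (b (l 16546576) (l 16569560))) (a (c (l 16550944) (l 16572552)) (l 16594616))) (b (a (c (l 16568784) (l 16591432)) (l 16592920)) (l 16599056))) (c (b (a (c (l 16567968) (l 16591008)) (l 16592600)) (l 16598800)) (l 16601936))))) (c (b (a (c (l 16562528) (a (c (l 16540696) (b (l 16580320) (l 16563392))) (b (c (l 16537768) (l 16559200)) (l 16585464)))) (c (b (a (l 16537704) (c (l 16536640) (l 16558464))) (a (c (l 16561664) (l 16562704)) (l 16584944)))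 (b (a (c (l 16558816) (l 16581864)) (l 16583464)) (l 16589656)))) (a (c (b (a (l 16566672) (c (l 16565752) (l 16566968))) (a (c (l 16569856) (l 16592240)) (l 16593656))) (b (a (l 16589768) (l 16592368)) (l 16598624))) (b (c (l 16590928) (l 16597640)) (l 16602096)))) (b (a (c (b (a (c (l 16559616) (l 16582280)) (l 16583776)) (l 16589896)) (l 16592936)) (l 16596376)) (l 16608912)))), by decide +kernel⟩

def k95_A00pp_022_s3 : ∃ t, chk3 f_A00pp_022_s3 t 302 479 34 = true :=
  ⟨(a (c (b (a (c (b (l 16597688) (a (l 16600608) (b (l 16556632) (a (l 16558248) (l 16579280))))) (b (a (l 16575840) (c (l 16574912) (l 16597096))) (a (c (l 16579016) (l 16601400)) (l 16602816)))) (c (c (b (a (l 16595424) (b (l 16551600) (l 16553864))) (a (b (l 16555680) (l 16558096)) (l 16600728))) (b (a (l 16574440) (l 16596568)) (l 16602584))) (b (l 16600080) (l 16607664)))) (a (c (b (a (c (l 16561392) (b (l 16560264) (l 16562680))) (c (b (l 16559800) (l 16562368)) (l 16605312))) (a (c (b (l 16584920) (l 16566680))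 (l 16609736)) (l 16611376))) (l 16612912)) (l 16616256))) (b (a (b (c (a (l 16598928) (l 16601528)) (l 16606944)) (l 16611400)) (l 16614440)) (l 16627064))) (b (b (l 16592936) (l 16621880)) (l 16634024))), by decide +kernel⟩

def k96_A00pp_022_s3 : ∃ t, chk3 f_A00pp_022_s3 t 303 239 34 = true :=
  ⟨(b (b (a (c (a (b (c (a (l 16580632) (l 16583248)) (l 16588640)) (l 16593072)) (l 16596096)) (l 16606920)) (l 16613816)) (l 16539000)) (l 16563296)), by decide +kernel⟩

def k97_A00pp_022_s3 : ∃ t, chk3 f_A00pp_022_s3 t 151 239 35 = true :=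
  ⟨(a (c (b (b (a (a (c (b (a (c (l 16540608) (l 16541528)) (l 16584680)) (l 16590608)) (l 16593320)) (l 16596696)) (l 16607232)) (l 16616264)) (l 16556608)) (l 16554896)) (b (l 16559696) (c (l 16584920) (a (l 16592296) (b (l 16598192) (a (l 16652792) (c (l 16656200) (b (l 16679352) (l 16696072))))))))), by decide +kernel⟩

def k98_A00pp_022_s3 : ∃ t, chk3 f_A00pp_022_s3 t 75 118 9 = true :=
  ⟨(a (l 6) (a (l 6) (a (l 6) (b (l 6) (b (l 6) (b (l 6) (b (l 6) (c (l 16567576) (c (c (a (c (l 16638048) (l 16642096)) (l 16642128)) (l 16643096)) (l 16642944)))))))))), by decide +kernel⟩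

end Pool.Agent.Strip051.G.IE1.Tab.StN.C
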