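import Pool.Agent.Strip051.G.IE1.StNF

/-! # Strips StNgD (generated) -/

set_option linter.all false
set_option maxRecDepth 100000

namespace Pool.Agent.Strip051.G.IE1.Tab.StN.C

open Pool.Agent.Strip051.PB Pool.Agent.Strip051.PB.T
open Pool.Agent.StripNear Pool.Agent.Strip051.LC
open Pool.Agent.Strip051.G.IE1.Tab Pool.Agent.Strip051.G.IE1.Tab.St Pool.Agent.Strip051.G.IE1.Tab.StN

noncomputable def cut_A00pp_022_s3 : Cut := Cut.of [[⟨3, 0, 0, 3154116608⟩], [⟨0, 0, 0, 67108864⟩, ⟨1, 1, 0, 67108864⟩, ⟨2, 1, 0, 67108864⟩]]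

noncomputable def xt_A00pp_022_s3 : Ext := strExtYN dd 3 true true true .u0 .u2 .s2 .pp 0 2 2 rfl rfl gl2 ge vv ndN0q0 ndN0q2

noncomputable def f_A00pp_022_s3 : ℕ → ℕ → ℕ → ℕ → Bool := onCell 1073741824 536870912 0 536870912 1046898278 26843546
    (rowNX 3 2 true true true .pp 0 2 2 (qsf 0 536870912 0 536870912 2) ndN0q0 ndN0q2 pcN2 cut_A00pp_022_s3 xt_A00pp_022_s3)

end Pool.Agent.Strip051.G.IE1.Tab.StN.C
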