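import Pool.Agent.Strip051.G.IE1.Tab

/-! # Certificates F31 (generated) -/

set_option linter.all false
set_option maxRecDepth 100000

namespace Pool.Agent.Strip051.G.IE1.Tab.C.FB02

open Pool.Agent.Strip051.PB Pool.Agent.Strip051.PB.T
open Pool.Agent.Strip051.G.IE1.Tab

noncomputable def f_pm_022_b : ℕ → ℕ → ℕ → ℕ → Bool := onCell 0 536870912 1073741824 536870912 1046898278 26843546
    (rowFX 1 false true false .pp 0 2 2 (qsf 0 536870912 1239849684 370763052 2) ndF0q0 ndF2q2b pcF2 Cut.none Ext.none)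

def k0_pm_022_b : ∃ t, chk3 f_pm_022_b t 2 4 1 = true :=
  ⟨(a (b (a (l 1) (a (a (l 1) (b (l 1) (b (l 1) (c (l 15793272) (l 15974224))))) (b (b (l 1) (c (l 100425768007) (l 325374696151))) (c (b (a (l 15725976) (l 362418702999)) (a (l 362419004039) (l 15638576))) (b (a (l 15778256) (l 15585960)) (l 15710192)))))) (a (b (b (l 1) (a (l 1) (c (a (l 1) (c (l 16132720) (l 16272280))) (l 16194768)))) (a (a (l 1) (a (l 1) (c (l 16267424) (l 16380240)))) (c (a (b (a (l 1) (l 16251232)) (c (l 16307944) (l 16300224))) (l 420401954183)) (a (l 356514495319) (l 16184576))))) (b (a (b (c (a (l 16064344) (l 15900080)) (l 15876840)) (c (a (l 377452110231) (l 15984192)) (l 16045944))) (c (b (l 15769056) (l 15805968)) (b (l 15764456) (l 15795104)))) (a (c (l 16008144) (l 16029240)) (c (l 15807280) (l 15787208)))))) (b (a (c (b (a (b (l 328058429367) (l 346848999143)) (l 15148072)) (a (c (l 15454168) (l 15461808)) (l 15194944))) (b (a (b (c (l 15336824) (l 15330136)) (c (l 15358112) (l 15354800))) (c (l 15128808)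 (l 15122792))) (a (l 15456888) (l 15247432)))) (c (b (a (l 14973064) (l 14843288)) (a (l 15103264) (l 14977144))) (b (a (c (l 14949208) (b (l 14899784) (l 14973368))) (c (l 14815512) (a (l 14809800) (l 14796592)))) (a (l 14939232) (c (l 14965864) (l 14945400)))))) (a (b (c (b (l 15413096) (l 15511744)) (b (l 15461976) (l 15491528))) (c (l 15509104) (l 15458728))) (b (c (b (l 15132200) (l 15131624)) (a (l 15144096) (b (l 15066592) (l 15104232)))) (c (l 15197064) (a (l 15218312) (l 15098624))))))), by decide +kernel⟩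

def k1_pm_022_b : ∃ t, chk3 f_pm_022_b t 2 5 1 = true :=
  ⟨(a (b (a (b (b (a (c (a (l 16396976) (l 16336504)) (a (c (l 16403928) (l 16252888)) (l 16326248))) (c (a (l 16333344) (l 16234488)) (l 16257920))) (a (c (a (l 16259072) (l 16333832)) (a (c (l 16284952) (l 16195472)) (l 16351336))) (c (l 16216048) (l 16387632)))) (a (c (a (l 15944952) (l 15958112)) (a (c (l 15942832) (l 15890608)) (l 15882072))) (c (b (l 15988288) (l 15906672)) (l 15993432)))) (a (b (b (c (l 16089472) (l 16071088)) (c (l 16213680) (l 16199808))) (c (l 16191952) (l 16221176))) (b (b (l 15771624) (l 15963448)) (l 16019696)))) (a (b (a (c (l 15441080) (a (c (l 15554904) (l 15560024)) (l 15636704))) (c (a (l 15751984) (l 15868768)) (l 15819976))) (a (c (l 15365936) (c (l 15154240) (l 15220792))) (c (l 15491872) (l 15594536)))) (b (a (c (l 16037720) (l 16035696)) (l 16192120)) (c (a (l 15836264) (l 16136232)) (l 15828928))))) (b (b (b (a (c (l 15546376) (l 15518104)) (a (l 15280128) (l 15161176))) (a (l 15464144) (a (l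 15433544) (l 15320488)))) (a (c (l 15977192) (l 15919400)) (a (l 15779784) (l 15685168)))) (b (a (c (l 16341384) (l 16335616)) (a (l 16169840) (l 16101024))) (a (l 16289448) (a (l 16414272) (l 16362920)))))), by decide +kernel⟩

def k2_pm_022_b : ∃ t, chk3 f_pm_022_b t 3 2 1 = true :=
  ⟨(b (b (a (c (a (b (l 14893384) (l 14855144)) (b (l 14998296) (l 15118216))) (a (b (c (l 14865584) (b (l 14814176) (l 14883152))) (c (l 15010232) (l 14990032))) (b (c (l 14971104) (l 14852864)) (c (l 15103904) (l 15084520))))) (c (a (b (l 15126112) (l 15233728)) (b (l 15278256) (l 15370784))) (a (b (c (l 15099656) (l 15085656)) (l 15207384)) (b (c (l 15252688) (l 15237944)) (l 38752133511))))) (a (b (c (a (b (l 15135896) (l 15172416)) (l 15128192)) (a (b (l 15106688) (l 15138256)) (b (l 15191928) (l 15212584)))) (a (c (l 15156952) (l 15114872)) (c (l 15200160) (l 15159200)))) (a (b (c (l 15329016) (l 15277408)) (c (l 15252072) (l 15212456))) (b (c (l 15442536) (b (l 15416776) (l 2))) (l 2))))) (b (a (a (b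 (b (l 15156456) (l 15314032)) (c (l 15706816) (l 15679016))) (b (b (l 15165840) (l 15319616)) (l 15572240))) (b (a (b (l 15177072) (l 2)) (l 2)) (l 2))) (a (b (c (l 16145576) (l 15940968)) (c (l 16434464) (l 16425560))) (l 2)))), by decide +kernel⟩

def k3_pm_022_b : ∃ t, chk3 f_pm_022_b t 1 3 1 = true :=
  ⟨(a (b (a (b (a (c (a (b (l 15200888) (l 15030952)) (b (l 15446960) (l 15294352))) (a (b (a (l 15128776) (l 15250256)) (c (l 15020608) (l 15018672))) (l 15297816))) (c (a (l 15508424) (l 15958648)) (b (l 15845040) (l 15713856)))) (a (a (c (b (l 14884784) (l 14867920)) (b (c (l 14870280) (l 14865560)) (l 14854024))) (c (b (l 15164416) (l 15149528)) (l 15138968))) (c (a (l 15404920) (l 15797208)) (b (l 15603848) (l 15591368))))) (b (a (b (l 16360744) (l 16204144)) (b (l 16521992) (l 16639344))) (a (c (l 16215168) (l 16200688)) (c (l 16673552) (l 16670968))))) (a (b (a (a (l 4) (c (l 14918840) (l 15131104))) (c (a (l 15440344) (l 15791688)) (l 15591368))) (l 4)) (b (a (c (l 16211104) (l 16196400))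 (l 2)) (l 2)))) (b (a (b (c (l 16607472) (b (l 16542816) (l 2))) (l 2)) (l 2)) (l 2))), by decide +kernel⟩

theorem s4_pm_022_b : ∃ t, chk3 f_pm_022_b t 2 2 1 = true := ex3_b k0_pm_022_b k1_pm_022_b

theorem s5_pm_022_b : ∃ t, chk3 f_pm_022_b t 1 2 1 = true := ex3_a s4_pm_022_b k2_pm_022_b

theorem s6_pm_022_b : ∃ t, chk3 f_pm_022_b t 1 1 1 = true := ex3_b s5_pm_022_b k3_pm_022_b

theorem c_pm_022_b : CertFX 0 536870912 1239849684 370763052 1046898278 26843546 false true false .pp 0 2 2
    ndF0q0 ndF2q2b pcF2 Cut.none Ext.none :=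
  certFX1 (fam := false) (s1 := true) (s2 := false) (a := 0) (b := 2) (c := 2) (cn := .pp) (n1 := ndF0q0) (n2 := ndF2q2b) (pc := pcF2) (cut := Cut.none) (xt := Ext.none) (P1 := 0) (W1 := 536870912) (P2 := 1239849684) (W2 := 370763052) (P3 := 1046898278) (W3 := 26843546)
    rfl (fun _ => rfl) s6_pm_022_b

noncomputable def f_pm_023 : ℕ → ℕ → ℕ → ℕ → Bool := onCell 0 536870912 1073741824 536870912 1046898278 26843546
    (rowFX 1 false true false .up 0 2 3 (qsf 0 536870912 1610612736 469762048 2) ndF0q0 ndF2q3 pcF2 Cut.none Ext.none)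

def k0_pm_023 : ∃ t, chk3 f_pm_023 t 1 1 1 = true :=
  ⟨(b (b (a (l 1) (b (a (l 1) (a (a (l 1) (c (l 15214888) (l 379060736407))) (c (b (l 15278256) (l 15370784)) (c (b (l 15252688) (l 15352144)) (b (l 15237944) (l 15334936)))))) (a (b (l 1) (a (l 1) (l 417715698215))) (a (b (c (l 15329016) (l 15277408)) (c (l 15252072) (l 15212456))) (b (c (l 15442536) (b (l 15416776) (l 15408064))) (c (l 15313312) (l 15275288))))))) (a (a (l 1) (b (l 1) (b (l 1) (a (l 1) (l 16240376))))) (b (a (a (b (l 1) (l 15483200)) (b (b (l 15165840) (l 15319616)) (l 15551264))) (b (a (b (l 15177072) (l 15326288)) (b (c (l 15210648) (l 15169960)) (c (l 15352640) (l 15315640)))) (a (c (l 15763368) (l 15737040)) (c (l 15799512) (l 15774120))))) (a (a (b (l 16087600) (l 16397368)) (b (l 16101856) (l 16460472))) (b (a (l 16126768) (c (l 16336728) (l 16304312))) (a (l 16535344) (l 16602088))))))) (a (b (a (b (l 1) (a (l 1) (c (l 341480705111) (l 15408912)))) (b (a (b (l 1) (l 16204144)) (b (l 16521992) (l 16618368))) (a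 (c (l 16215168) (l 16200688)) (c (l 16673552) (l 16670968))))) (a (b (a (c (l 584145083879) (l 544416621559)) (c (l 520795577719) (l 15591368))) (l 4)) (b (a (c (l 16211104) (l 16196400)) (c (l 16671272) (l 16668520))) (a (l 16056952) (l 16669896))))) (b (a (b (c (l 16607472) (b (l 16542816) (l 16662696))) (c (l 16771376) (l 16771224))) (a (b (l 16636848) (l 16773128)) (b (l 16701664) (l 16774640)))) (a (c (l 16777192) (l 16777192)) (b (a (l 16777192) (l 16761248)) (a (l 16761248) (l 16748960))))))), by decide +kernel⟩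

theorem c_pm_023 : CertFX 0 536870912 1610612736 469762048 1046898278 26843546 false true false .up 0 2 3
    ndF0q0 ndF2q3 pcF2 Cut.none Ext.none :=
  certFX1 (fam := false) (s1 := true) (s2 := false) (a := 0) (b := 2) (c := 3) (cn := .up) (n1 := ndF0q0) (n2 := ndF2q3) (pc := pcF2) (cut := Cut.none) (xt := Ext.none) (P1 := 0) (W1 := 536870912) (P2 := 1610612736) (W2 := 469762048) (P3 := 1046898278) (W3 := 26843546)
    rfl (fun _ => rfl) k0_pm_023

noncomputable def f_pm_033 : ℕ → ℕ → ℕ → ℕ → Bool := onCell 1610612736 536870912 1610612736 469762048 1046898278 26843546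
    (rowFX 2 false true false .pnn 0 3 3 (qsf 0 536870912 1610612736 469762048 3) ndF0q0 ndF2q3 pcF3 Cut.none Ext.none)

def k0_pm_033 : ∃ t, chk3 f_pm_033 t 1 1 1 = true :=
  ⟨(a (b (a (l 4) (l 4)) (a (a (b (c (a (l 16732496) (l 16639416)) (b (l 16604976) (l 16765744))) (c (l 16760688) (l 16760256))) (b (l 4) (a (l 16760472) (a (l 16757888) (l 202634650023))))) (b (l 4) (a (l 4) (l 4))))) (l 4)), by decide +kernel⟩

theorem c_pm_033 : CertFX 0 536870912 1610612736 469762048 1046898278 26843546 false true false .pnn 0 3 3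
    ndF0q0 ndF2q3 pcF3 Cut.none Ext.none :=
  certFX2 (fam := false) (s1 := true) (s2 := false) (a := 0) (b := 3) (c := 3) (cn := .pnn) (n1 := ndF0q0) (n2 := ndF2q3) (pc := pcF3) (cut := Cut.none) (xt := Ext.none) (P1 := 0) (W1 := 536870912) (P2 := 1610612736) (W2 := 469762048) (P3 := 1046898278) (W3 := 26843546)
    rfl (fun _ => rfl) k0_pm_033

noncomputable def f_pm_101 : ℕ → ℕ → ℕ → ℕ → Bool := onCell 0 536870912 536870912 536870912 1046898278 26843546
    (rowFX 2 false true false .npn 1 0 1 (qsf 536870912 536870912 536870912 536870912 0) ndF0q1 ndF2q1 pcF0 Cut.none Ext.none)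

def k0_pm_101 : ∃ t, chk3 f_pm_101 t 2 2 1 = true :=
  ⟨(l 4), by decide +kernel⟩

def k1_pm_101 : ∃ t, chk3 f_pm_101 t 2 6 1 = true :=
  ⟨(l 4), by decide +kernel⟩

def k2_pm_101 : ∃ t, chk3 f_pm_101 t 16 7 1 = true :=
  ⟨(b (b (l 4) (b (l 4) (a (c (a (l 16164344) (c (l 16201952) (l 16027264))) (a (c (a (l 16138096) (l 16144768)) (a (c (l 16131952) (l 15961336)) (l 16158376))) (c (l 16209080) (l 16202120)))) (l 4)))) (a (c (a (b (c (l 15984848) (l 15966096)) (a (b (l 15811960) (l 15748848)) (b (l 15819456) (b (l 15760840) (l 15729048))))) (b (c (a (l 16012152) (l 16041368)) (a (l 16005528) (l 16034504))) (c (a (b (l 15842952) (l 15754536)) (b (l 15870040) (l 15773816))) (a (b (l 15843016) (l 15593032)) (b (l 15861440) (l 15779848)))))) (b (a (c (a (l 15945432) (c (l 15966824) (l 15962176))) (a (c (l 15793080) (a (l 15655776) (l 15835168))) (l 15760040))) (c (a (l 15999104) (l 16025232)) (l 16002344))) (a (c (a (b (l 15798296) (b (l 15746336) (l 15715280))) (a (b (l 15802160) (b (l 15749976)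 (l 15719024))) (c (l 15751488) (l 15621144)))) (a (c (b (l 15756880) (a (l 15729384) (b (l 15739128) (l 15712784)))) (a (b (l 15513032) (c (l 15724992) (a (l 15719408) (l 15719544)))) (b (l 15594712) (l 15726016)))) (c (b (l 15767504) (l 15740616)) (l 15767464)))) (c (b (l 15819760) (a (c (l 15762568) (l 15756880)) (l 15770264))) (b (l 15826944) (l 15747600)))))) (c (b (a (c (l 16080256) (l 16071336)) (l 16082928)) (c (a (b (l 15913400) (l 15742408)) (l 15840920)) (a (b (l 15893544) (l 15800816)) (l 15895432)))) (b (c (l 16002880) (l 16078040)) (b (c (l 15901608) (l 15889448)) (c (a (l 15784360) (l 15808392)) (l 15782288))))))), by decide +kernel⟩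

def k3_pm_101 : ∃ t, chk3 f_pm_101 t 17 7 1 = true :=
  ⟨(b (l 4) (c (b (a (c (l 16206184) (l 16198600)) (c (l 16292920) (l 16308360))) (a (c (l 15962920) (b (l 16007624) (l 15884112))) (c (l 16048032) (l 16038080)))) (b (a (l 16103984) (l 16300112)) (a (b (l 15992264) (l 15844280)) (b (l 16085928) (l 15965416)))))), by decide +kernel⟩

def k4_pm_101 : ∃ t, chk3 f_pm_101 t 9 7 1 = true :=
  ⟨(b (l 4) (b (l 4) (a (c (a (l 16142048) (l 16247688)) (a (l 15958880) (l 16235552))) (a (c (l 16357720) (l 16245016)) (l 4))))), by decide +kernel⟩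

def k5_pm_101 : ∃ t, chk3 f_pm_101 t 5 7 1 = true :=
  ⟨(l 4), by decide +kernel⟩

def k6_pm_101 : ∃ t, chk3 f_pm_101 t 3 1 1 = true :=
  ⟨(l 4), by decide +kernel⟩

theorem s7_pm_101 : ∃ t, chk3 f_pm_101 t 8 7 1 = true := ex3_a k2_pm_101 k3_pm_101

theorem s8_pm_101 : ∃ t, chk3 f_pm_101 t 4 7 1 = true := ex3_a s7_pm_101 k4_pm_101

theorem s9_pm_101 : ∃ t, chk3 f_pm_101 t 2 7 1 = true := ex3_a s8_pm_101 k5_pm_101

theorem s10_pm_101 : ∃ t, chk3 f_pm_101 t 2 3 1 = true := ex3_b k1_pm_101 s9_pm_101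

theorem s11_pm_101 : ∃ t, chk3 f_pm_101 t 2 1 1 = true := ex3_b k0_pm_101 s10_pm_101

theorem s12_pm_101 : ∃ t, chk3 f_pm_101 t 1 1 1 = true := ex3_a s11_pm_101 k6_pm_101

theorem c_pm_101 : CertFX 536870912 536870912 536870912 536870912 1046898278 26843546 false true false .npn 1 0 1
    ndF0q1 ndF2q1 pcF0 Cut.none Ext.none :=
  certFX2 (fam := false) (s1 := true) (s2 := false) (a := 1) (b := 0) (c := 1) (cn := .npn) (n1 := ndF0q1) (n2 := ndF2q1) (pc := pcF0) (cut := Cut.none) (xt := Ext.none) (P1 := 536870912) (W1 := 536870912) (P2 := 536870912) (W2 := 536870912) (P3 := 1046898278) (W3 := 26843546)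
    rfl (fun _ => rfl) s12_pm_101

noncomputable def f_pm_102_a : ℕ → ℕ → ℕ → ℕ → Bool := onCell 536870912 536870912 0 420477299 1046898278 26843546
    (rowFX 0 false true false .npp 1 0 2 (qsf 536870912 536870912 0 420477299 0) ndF0q1 ndF2q2a pcF0 Cut.none Ext.none)

def k0_pm_102_a : ∃ t, chk3 f_pm_102_a t 2 1 1 = true :=
  ⟨(b (a (l 2) (c (b (a (a (l 16703352) (l 16703352)) (a (l 16703352) (l 16703352))) (a (b (l 16722096) (l 37681530871)) (b (l 16722096) (l 16771272)))) (b (a (a (l 16701432) (l 16701432)) (a (l 16701432) (l 16701432))) (a (b (l 16720664) (a (l 16771112) (l 16771112))) (b (l 16720664) (l 16771112)))))) (a (a (a (l 2) (b (l 2) (b (l 2) (c (l 16291480) (l 16278864))))) (b (a (l 2) (b (l 16676272) (l 16520368))) (c (b (l 16398928) (l 16291480)) (b (a (l 16389104) (l 16389104)) (c (l 16282016) (l 16275712)))))) (c (b (a (b (a (l 16677568) (l 16677568)) (l 16544360)) (b (l 16677568) (a (l 16544360) (l 16544360)))) (b (a (l 16398928) (l 16398928)) (a (l 16291480) (l 16291480))))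 (b (a (b (a (l 16674976) (l 16674976)) (l 16538312)) (b (l 16633032) (a (l 16538312) (l 16538312)))) (b (a (a (l 16389104) (l 16389104)) (a (l 16389104) (l 16389104))) (a (l 16278864) (l 16278864))))))), by decide +kernel⟩

def k1_pm_102_a : ∃ t, chk3 f_pm_102_a t 12 2 1 = true :=
  ⟨(a (b (c (l 16703352) (l 16701432)) (b (c (l 16722096) (l 16720664)) (c (l 16771272) (l 16771112)))) (a (b (b (a (c (l 16707088) (l 16705272)) (c (l 16707088) (l 16705272))) (l 16698760)) (b (l 16721384) (l 16771192))) (b (a (b (c (l 16707088) (l 16705272)) (l 16698760)) (b (c (l 16707088) (l 16705272)) (b (c (l 16701640) (l 16699680)) (l 16696808)))) (b (l 16721384) (l 16750224))))), by decide +kernel⟩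

def k2_pm_102_a : ∃ t, chk3 f_pm_102_a t 13 4 1 = true :=
  ⟨(a (c (b (a (c (l 16707544) (l 16706632)) (c (l 16707544) (l 16706632))) (a (c (b (l 16702136) (l 16698352)) (l 16699256)) (c (l 16700264) (l 16699256)))) (b (c (a (l 16705720) (l 16705720)) (a (l 16704816) (l 16704816))) (a (c (l 16698256) (l 16697248)) (c (l 16698256) (l 16697248))))) (a (c (b (c (l 16707544) (l 16706632)) (c (b (l 16702136) (l 16698352)) (l 16699256))) (b (c (l 16705720) (l 16704816)) (c (l 16698256) (l 16697248)))) (a (c (b (b (a (l 16708664) (l 210621020775)) (c (l 16708312) (l 16707416))) (c (b (l 16704392) (a (l 16698352) (l 16702888))) (b (l 16703448) (l 16699632)))) (b (c (b (l 184314336231) (l 16706528)) (b (l 22179319111) (l 16705632))) (c (b (l 16702504) (l 16698632)) (b (l 16701560) (l 16697640))))) (b (b (l 3) (c (c (l 16735072) (l 16734688)) (c (l 16734296) (l 16733904)))) (c (c (b (l 16731296) (l 16706776)) (b (l 16730856) (l 16706280))) (c (b (l 16730416) (l 16726760)) (b (l 16729968) (l 16705296)))))))),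 by decide +kernel⟩

def k3_pm_102_a : ∃ t, chk3 f_pm_102_a t 13 5 1 = true :=
  ⟨(c (a (b (a (l 16722096) (c (b (l 16710752) (l 16733944)) (l 16700768))) (l 16750296)) (b (a (c (b (l 16710752) (l 16733944)) (b (l 16709880) (l 16733376))) (c (a (b (l 16713040) (l 16736264)) (b (l 16719432) (l 16740176))) (a (a (l 16721736) (l 16705456)) (l 16710160)))) (a (c (b (l 16764136) (l 16752392)) (b (l 16763968) (l 16752064))) (c (a (l 16727680) (l 16685480)) (a (l 16727592) (l 16684816)))))) (a (b (a (l 16720664) (c (l 16700056) (l 16699336))) (l 16771112)) (b (a (c (b (l 16709008) (l 16732808)) (a (l 16720304) (l 16720304))) (c (a (a (l 16721024) (l 16704816)) (l 16710008)) (a (a (l 16720304) (l 16704176)) (c (l 16709896) (l 16709824))))) (a (c (b (l 16763792) (l 16751744)) (b (l 16763624) (l 16751416))) (c (a (l 16727504) (l 16684160)) (a (b (l 16766096) (l 16754960)) (l 16662520))))))), by decide +kernel⟩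

def k4_pm_102_a : ∃ t, chk3 f_pm_102_a t 6 3 1 = true :=
  ⟨(b (a (a (b (c (l 16677568) (l 16674976)) (c (l 16544360) (l 16538312))) (b (c (l 16677568) (l 16674976)) (c (l 16544360) (l 16538312)))) (a (b (c (l 16677568) (l 16674976)) (c (l 16544360) (l 16538312))) (a (b (l 16676272) (l 16541336)) (a (b (l 16658456) (l 16544488)) (b (c (c (l 16639976) (l 16638688)) (c (l 16616432) (l 16594176))) (l 16559624)))))) (a (b (a (c (l 16398928) (l 16389104)) (c (l 16398928) (l 16389104))) (a (c (l 16291480) (l 16278864)) (c (l 16291480) (l 16278864)))) (b (a (c (l 16398928) (l 16389104)) (a (c (l 16398928) (l 16389104)) (b (c (a (l 16426912) (l 16459432)) (l 16438616)) (a (c (l 16354792) (l 16365704)) (c (b (l 16420600) (l 16395032)) (l 16403192)))))) (a (a (c (l 16291480) (l 16278864)) (b (l 16314912) (c (b (l 16277656) (l 16246480)) (l 16248648)))) (a (a (b (l 16314912) (b (c (l 16277024) (l 16263776)) (c (a (l 16222928) (l 16238672)) (l 16224752)))) (b (c (b (l 16334632) (a (l 16306840) (l 16305144)))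 (l 16307552)) (c (b (l 16270904) (l 16228784)) (l 16231160)))) (b (a (c (b (a (l 16333936) (l 16337752)) (l 16302800)) (l 16262504)) (c (l 16348752) (l 16335392))) (c (a (l 16242896) (l 16270264)) (l 16232056)))))))), by decide +kernel⟩

def k5_pm_102_a : ∃ t, chk3 f_pm_102_a t 56 2 1 = true :=
  ⟨(b (b (l 3) (b (a (c (c (l 16709696) (l 16709384)) (c (l 16709072) (l 16687792))) (l 3)) (a (c (c (b (l 16691240) (a (l 16725680) (l 16699576))) (b (l 16711952) (l 16712376))) (c (a (l 16725312) (l 16698456)) (c (l 16690720) (b (l 16711368) (l 16690840))))) (c (c (b (l 13052423191) (c (a (l 16673424) (l 16810518359)) (l 16659664))) (b (l 16679456) (l 34527254951))) (c (b (l 16678464) (l 37211605879)) (b (l 17884253127) (c (l 16657192) (a (l 16670592) (l 16642816))))))))) (b (c (a (c (b (c (l 16703936) (l 16703720)) (l 16687640)) (b (l 16703384) (l 16707856))) (c (b (c (b (l 62981402503) (l 16647584)) (l 62981385351)) (c (l 16634512) (l 16654744))) (b (l 59760158135) (l 16632672)))) (a (c (b (l 16702952)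 (l 16686120)) (b (c (l 16702616) (l 16702400)) (l 16685360))) (c (b (c (l 16648784) (l 16648200)) (l 16631192)) (b (c (l 59760152903) (a (l 16681968) (l 58686409399))) (c (l 16651064) (l 16629352)))))) (c (c (b (a (l 16687328) (l 16633232)) (l 16590936)) (b (a (l 16686184) (l 16631384)) (l 16589008))) (c (b (a (l 16685040) (l 16629536)) (l 16566104)) (b (a (l 16683904) (l 16606712)) (a (l 16655600) (l 16598664))))))), by decide +kernel⟩

def k6_pm_102_a : ∃ t, chk3 f_pm_102_a t 57 2 1 = true :=
  ⟨(b (l 3) (a (b (c (c (b (c (a (l 44727723671) (b (l 3) (l 25400317255))) (l 35063988455)) (c (c (b (l 70497452663) (l 16575720)) (l 72108042695)) (l 67813074087))) (b (c (l 16574536) (l 16594560)) (c (l 16557160) (l 16577040)))) (c (b (c (l 16593616) (l 16592672)) (c (l 16575944) (l 65665579703))) (b (c (l 33990235879) (a (b (l 16629824) (l 47412063863)) (l 14662881031))) (c (a (l 16608928) (l 62444352519)) (c (l 70497414407) (a (l 16607672) (l 66202446263))))))) (c (c (b (b (l 16563656) (l 16571976))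 (l 16549920)) (b (l 16554752) (l 16546896))) (c (b (c (l 16573800) (l 16572512)) (l 16543880)) (b (c (l 16571232) (l 16528000)) (l 16519888))))) (b (b (l 3) (a (c (c (c (b (l 32916437639) (c (l 64054929607) (l 16533832))) (l 54391248903)) (l 46875053015)) (c (l 39895719463) (c (l 37748232695) (b (l 16534920) (l 53854357079))))) (l 3))) (c (b (c (c (b (a (l 16543784) (b (l 70497313271) (l 76402881063))) (a (l 16530952) (l 100025175751))) (b (l 67276067383) (l 16515192))) (b (l 59759871127) (l 16491672))) (a (c (b (l 16515712) (l 16499952)) (l 16504344)) (b (c (a (l 16494504) (b (l 16463776) (l 16480296))) (a (l 16490776) (l 16479264))) (c (a (l 16482656) (l 16477032)) (l 16476144))))) (b (c (c (l 16474808) (l 62444183943)) (c (b (l 59759855367) (l 16506688)) (b (a (l 16512280) (l 55464885191)) (a (l 16519680) (l 16469344))))) (a (c (b (l 16508816) (l 16492568)) (b (l 16505376) (l 16488880))) (b (c (a (l 16487056) (l 16475400)) (a (l 16483328) (b (l 16473216) (l 16468544)))) (c (l 16472200)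 (a (l 16470920) (l 16465104)))))))))), by decide +kernel⟩

def k7_pm_102_a : ∃ t, chk3 f_pm_102_a t 29 2 1 = true :=
  ⟨(b (l 3) (a (b (l 3) (a (b (b (l 3) (a (a (c (c (b (c (l 81771560327) (l 16483352)) (c (a (l 16461224) (b (l 90898336663) (l 16477648))) (l 16457688))) (b (l 16480496) (l 16454776))) (c (b (l 16476688) (l 16471856)) (b (c (l 16473832) (l 53317357639)) (c (l 16468944) (a (l 16468656) (l 75865934087)))))) (b (l 3) (c (c (c (l 90361457671) (l 16474832)) (l 16471896)) (c (l 16467976) (c (l 16465032) (l 16463072)))))) (l 3))) (c (b (c (a (b (a (l 16466912) (c (l 16477224) (l 16475264))) (l 16455056)) (c (b (l 84455878919) (a (l 16476720) (l 94656425255))) (l 91435203639))) (a (b (l 16451776) (l 16472080)) (l 79624043287))) (c (a (l 16452536) (b (a (l 16474112) (l 89824588999)) (l 16451096))) (a (l 16469504) (l 77476564007)))) (a (c (b (b (l 16468824) (l 16468136)) (l 16465504)) (a (b (b (c (l 16466592) (l 16464632)) (l 16464920)) (l 16462384)) (b (c (l 16465232) (l 78550290215))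 (l 16460984)))) (c (b (l 68349747623) (a (l 16464944) (l 16466296))) (c (b (l 62981034279) (l 69423472695)) (b (b (l 44727422471) (a (l 16463000) (l 16463312))) (a (l 16459976) (b (l 16462568) (l 16460008))))))))) (a (b (l 3) (b (l 3) (c (c (c (b (l 90361458343) (l 78013429911)) (l 97877655079)) (l 85529623847)) (c (l 16462320) (c (l 16464648) (b (l 16463080) (l 40432452935))))))) (l 3)))) (l 3))), by decide +kernel⟩

def k8_pm_102_a : ∃ t, chk3 f_pm_102_a t 15 2 1 = true :=
  ⟨(l 3), by decide +kernel⟩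

def k9_pm_102_a : ∃ t, chk3 f_pm_102_a t 28 6 1 = true :=
  ⟨(b (a (c (c (b (l 16578064) (a (l 16585968) (l 16508744))) (b (l 16575664) (a (l 16583528) (l 16505456)))) (b (c (l 16552288) (a (l 16620760) (l 16562984))) (a (b (l 16591296) (l 16568400)) (a (l 16536256) (b (l 16518592) (l 16495056)))))) (b (c (a (b (l 16522848) (c (l 16506272) (l 16502624))) (b (a (c (l 16486064) (l 16482168)) (l 16449608)) (c (l 16467008) (l 16462840)))) (a (b (c (l 16517752) (l 16514360)) (a (l 16510848) (c (l 16485104) (l 16481272)))) (b (a (c (l 16478264) (l 16453392)) (c (l 16464488) (l 16460424))) (c (l 16458672) (l 16454512))))) (c (a (b (a (l 16497200) (l 16473360)) (c (l 16465640) (l 16461456))) (b (a (l 16456048) (l 16446632)) (c (l 16440592) (l 16436056)))) (a (b (a (c (l 16491584) (l 16487840)) (l 16465224)) (c (l 16457280) (l 16453104))) (c (b (l 16444784) (l 16431520)) (b (a (l 16445304) (l 16435584)) (l 16426984))))))) (a (b (a (l 16532640) (b (a (l 16502664) (c (l 16477304) (a (l 16476896) (l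 16462064)))) (l 16460496))) (a (l 16473728) (c (l 16388504) (l 16422192)))) (b (c (a (b (a (l 16449152) (l 16428728)) (a (l 16423848) (l 16414016))) (c (l 16428544) (l 16423864))) (a (b (a (l 16440520) (l 16419488)) (a (b (l 16418928) (l 16408192)) (l 16404488))) (c (l 16419192) (b (l 16417000) (l 16411272))))) (a (c (l 16413656) (l 16404464)) (c (c (c (l 16424336) (l 16422008)) (l 16418512)) (c (l 16413856) (l 16409200))))))), by decide +kernel⟩

def k10_pm_102_a : ∃ t, chk3 f_pm_102_a t 29 12 1 = true :=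
  ⟨(b (b (a (c (a (a (c (l 16466656) (l 16462536)) (c (l 16446856) (l 16463768))) (c (c (a (l 16463528) (l 113446910023)) (l 74792211607)) (a (l 16469080) (l 16450592)))) (a (c (a (l 16458424) (l 16459704)) (a (l 16454304) (c (l 16456656) (l 16454624)))) (c (a (l 16465136) (l 16446736)) (a (c (l 16462176) (l 66202244919)) (c (l 16464808) (l 68349740791)))))) (l 3)) (a (c (a (c (a (l 16458008) (l 16462376)) (l 16456136)) (c (a (l 16468304) (l 96267042599)) (l 16467472))) (a (c (a (l 16449488) (l 16454048)) (a (l 16445232) (l 16449888))) (c (l 65665370743) (a (l 16456176) (c (l 16462560) (l 16460600)))))) (a (a (c (c (l 115057520887) (l 16471288)) (c (l 16467440) (l 71034096135))) (l 3)) (l 3)))) (a (c (a (c (l 16451912) (l 16447560)) (c (b (l 16466208) (l 16461496)) (b (l 16462128) (l 16457328)))) (c (a (l 16443200) (b (l 16458056) (l 16453160))) (a (b (l 16441344) (l 16436320)) (b (a (l 16451064) (l 16456800)) (l 16448984))))) (c (a (c (b (a (l 16452208) (l 16463216)) (l 96803913959)) (a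 (l 16467008) (l 117205011079))) (c (l 120963102519) (l 100025136871))) (a (c (b (l 50632997367) (l 16462712)) (b (a (l 16461456) (l 16462840)) (a (l 16456904) (l 16460728)))) (c (l 80697768567) (b (l 3) (l 65128507847))))))), by decide +kernel⟩

def k11_pm_102_a : ∃ t, chk3 f_pm_102_a t 29 13 1 = true :=
  ⟨(a (c (b (a (c (l 16442608) (l 16438112)) (c (l 16454688) (l 16450392))) (a (c (l 16433944) (l 16429344)) (c (l 16446152) (l 16441712)))) (b (a (c (l 16433608) (l 16429112)) (c (l 16446088) (l 16441792))) (a (c (l 16424752) (l 16420160)) (c (l 16437264) (l 16432824))))) (c (b (a (c (l 16464176) (l 16460072)) (c (b (l 69960362247) (l 16467872)) (l 65128519111))) (a (c (l 16455576) (l 16451304)) (c (l 16440816) (l 16457672)))) (b (a (c (l 16455976) (b (l 16454256) (l 16449512))) (c (b (l 16442016) (l 16459936)) (b (l 52780469751) (l 72107812375)))) (a (c (l 16447024) (l 16442752)) (c (l 16453552) (b (l 16451728) (l 16447200))))))), by decide +kernel⟩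

def k12_pm_102_a : ∃ t, chk3 f_pm_102_a t 14 7 1 = true :=
  ⟨(a (b (a (b (c (a (b (l 16430152) (l 16422344)) (l 16415640)) (a (b (l 16424232) (l 16417296)) (l 16408200))) (c (l 16444976) (l 16442176))) (c (b (c (l 16424832) (l 16420552)) (l 16458264)) (b (l 16414136) (l 16451576)))) (c (b (a (l 16411104) (l 16493872)) (a (c (l 16336576) (l 16326168)) (b (l 16450528) (l 16403912)))) (b (a (l 16402680) (l 16491968)) (a (l 16310568) (l 16414024))))) (b (c (a (b (c (a (b (l 16408936) (l 16441888)) (b (l 16440528) (l 16450944))) (a (l 16411008) (b (l 16436024) (l 16446608)))) (a (l 16470144) (b (c (l 16471936) (l 16467912)) (l 16490256)))) (b (c (b (a (l 16449944) (l 16434968)) (a (l 16460776) (l 16466896))) (a (l 16451056) (b (l 16451696) (l 16462776)))) (a (c (b (l 16480888) (l 16503768)) (b (l 16476928) (l 16500128))) (c (b (l 16488096) (l 16511208)) (l 16474768))))) (a (a (b (c (l 16427520) (l 16423064)) (l 16462512)) (b (b (l 16429272) (l 16440096)) (b (l 16461872) (l 16482832)))) (b (c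 (a (l 16446752) (l 16453056)) (b (a (l 16436800) (l 16443200)) (l 16451600))) (a (c (l 16484768) (l 16480968)) (c (l 16492048) (l 16488360)))))) (a (b (c (l 16515328) (l 16509280)) (c (a (l 16513080) (b (l 16548536) (l 16552560))) (a (l 16508120) (l 16465680)))) (b (c (a (b (c (l 16525952) (l 16522632)) (l 16541192)) (b (c (a (l 16533000) (l 16530176)) (l 16527312)) (a (l 16542808) (c (l 16541184) (l 16538040))))) (a (b (a (l 16513608) (l 16520744)) (l 16535104)) (b (c (l 16524032) (l 16520752)) (c (l 16536688) (l 16533576))))) (c (a (l 16534216) (l 16550400)) (a (l 16549960) (l 16544512))))))), by decide +kernel⟩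

def k13_pm_102_a : ∃ t, chk3 f_pm_102_a t 15 6 1 = true :=
  ⟨(a (a (b (l 3) (a (c (b (l 126331786519) (c (a (l 16439072) (l 16432080)) (a (l 16455984) (l 16448952)))) (b (c (l 16453560) (l 61907242087)) (c (l 64591584167) (b (l 66739074375) (l 82308322279))))) (l 3))) (l 3)) (l 3)), by decide +kernel⟩

def k14_pm_102_a : ∃ t, chk3 f_pm_102_a t 15 14 1 = true :=
  ⟨(a (b (a (b (c (a (c (a (l 16433312) (b (l 16448496) (l 16425912))) (c (l 16447896) (l 16445784))) (a (c (b (l 16430264) (c (l 120426163671) (l 16417040))) (l 131163583047)) (l 3))) (a (c (l 16442616) (a (l 16441656) (l 16434944))) (c (l 132237293607) (l 80160797991)))) (c (a (c (a (l 16465232) (l 16458560)) (l 16457880)) (c (a (c (a (l 16453632) (l 16428352)) (l 16449328)) (c (l 125794876423) (l 127942376807))) (a (l 16446192) (l 126868601767)))) (a (c (l 16453784) (l 16449680)) (c (l 113983684615) (l 89824477127))))) (l 3)) (b (a (c (a (c (a (l 16486360) (l 16478208)) (l 16478080)) (c (a (l 16468912) (a (l 16441728) (c (l 82845234007)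 (l 16437056)))) (a (l 16464968) (l 68349709575)))) (a (c (l 16474232) (l 16470384)) (c (l 37211183031) (l 111299353223)))) (a (a (c (c (c (l 120963081911) (l 123647432423)) (l 123647398839)) (c (l 16445400) (l 16441360))) (l 3)) (l 3))) (a (c (a (c (a (l 16506120) (l 16495368)) (l 16496784)) (c (a (l 16485816) (c (l 16458200) (l 16477280))) (a (l 16482072) (l 16474432)))) (a (c (l 16493168) (l 16489552)) (c (l 16474160) (l 16470384)))) (a (c (c (b (a (a (l 16459112) (l 111836288183)) (l 3)) (a (c (l 16456888) (l 16455008)) (l 120426223751))) (a (c (l 78550280439) (l 16467616)) (l 122036839431))) (c (a (l 16464760) (l 124721158151)) (l 86066429799))) (l 3))))) (l 3)), by decide +kernel⟩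

def k15_pm_102_a : ∃ t, chk3 f_pm_102_a t 15 30 1 = true :=
  ⟨(a (a (c (a (b (c (l 16515288) (l 16511848)) (c (a (l 16532352) (l 16522376)) (l 16524080))) (c (b (a (l 16500856) (l 16493736)) (a (l 16513520) (l 16506840))) (b (a (l 16497288) (l 16490120)) (l 16506384)))) (a (c (b (l 16508416) (l 16520784)) (b (l 16504976) (l 16517488))) (c (b (l 16489776) (l 16502928)) (b (l 16486176) (l 16499472))))) (a (a (c (c (b (c (l 16468856) (l 16488016)) (l 16481640)) (b (l 16485304) (l 16499144))) (c (b (l 16481688) (l 16495672)) (l 16485664))) (c (b (c (b (a (l 93045838487) (l 116131283975)) (a (l 16490768) (l 92508983223))) (a (l 16472688) (l 84992760167))) (c (b (l 16476768) (l 16483816)) (b (l 16494280) (l 16501400)))) (c (b (l 45264303383) (l 16494696)) (b (l 16474680) (l 16491272))))) (a (c (a (b (c (l 127942460359) (l 115594398951)) (c (b (a (l 16477064) (l 116131325063)) (l 16509136)) (b (l 100562052039) (l 16505856)))) (b (l 3) (b (l 3) (c (l 113447000887) (l 16515440))))) (b (c (l 123110579415)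 (l 16473256)) (c (a (b (l 16491840) (l 16502576)) (l 110762591687)) (a (l 16494000) (l 16501464))))) (l 3)))) (l 3)), by decide +kernel⟩

def k16_pm_102_a : ∃ t, chk3 f_pm_102_a t 15 62 1 = true :=
  ⟨(a (a (a (a (b (c (l 16538192) (l 16531888)) (l 16537992)) (c (c (l 16531112) (l 16527856)) (c (l 16524608) (l 16521352)))) (c (c (a (l 16523144) (l 16516872)) (l 16516296)) (c (l 16512944) (l 16509584)))) (c (a (a (c (a (l 16493128) (l 16492752)) (l 16510560)) (c (b (l 16491288) (l 16519472)) (b (l 16508952) (l 16516240)))) (a (c (b (a (l 16518824) (l 16530560)) (l 16532792)) (a (l 16520000) (l 72107947415))) (c (a (b (l 16541808) (l 16553784)) (a (l 120426362359) (l 3))) (a (b (l 16539024) (l 16551136)) (l 100025270151))))) (a (c (a (l 16507208) (l 16509648)) (a (l 16503848) (l 16506376))) (a (c (a (l 16516880) (l 16529248)) (a (l 16513760) (l 16526320))) (c (a (b (l 16536232) (l 16548488)) (l 110225812375)) (a (l 16539248) (l 16549808))))))) (l 3)), by decide +kernel⟩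

def k17_pm_102_a : ∃ t, chk3 f_pm_102_a t 15 63 1 = true :=
  ⟨(a (a (a (a (a (l 16544992) (l 16540320)) (b (c (l 16535256) (l 16528888)) (l 16534824))) (a (a (b (c (l 16528176) (l 16521648)) (l 16527888)) (c (c (l 16527048) (l 16523752)) (c (l 16520456) (l 16517160)))) (b (c (c (l 16522072) (l 16518744)) (l 16513752)) (c (c (l 16503096) (l 16520752)) (c (l 16517432) (l 16514120)))))) (a (c (c (a (l 16501400) (l 16526984)) (a (l 16519088) (l 16523816))) (c (a (l 16515800) (l 16520648)) (a (l 16512512) (l 16517480)))) (c (c (a (b (l 16539144) (l 16544040)) (a (l 16544184) (a (l 16557368) (b (l 16581888) (l 16590896))))) (a (b (l 16536216) (l 16541160)) (b (a (l 16558832) (l 16575800)) (l 16575200)))) (a (c (b (l 16533296) (l 16538272)) (b (l 16530368) (l 16535384))) (c (b (a (l 16556256) (l 16573496)) (l 16572840)) (b (a (l 16553688) (l 16571192)) (l 16570480))))))) (a (a (a (c (c (c (a (b (l 115594590551) (l 16578784)) (l 113983974615)) (a (l 97340990631) (l 104320328375))) (b (l 102709706663)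 (a (l 16601912) (l 16613424)))) (c (b (l 111836507767) (a (l 16599960) (l 16611672))) (b (l 119352696455) (a (l 16598016) (l 16609912))))) (l 3)) (l 3)) (l 3))), by decide +kernel⟩

theorem s18_pm_102_a : ∃ t, chk3 f_pm_102_a t 15 31 1 = true := ex3_b k16_pm_102_a k17_pm_102_a

theorem s19_pm_102_a : ∃ t, chk3 f_pm_102_a t 15 15 1 = true := ex3_b k15_pm_102_a s18_pm_102_a

theorem s20_pm_102_a : ∃ t, chk3 f_pm_102_a t 15 7 1 = true := ex3_b k14_pm_102_a s19_pm_102_a

theorem s21_pm_102_a : ∃ t, chk3 f_pm_102_a t 15 3 1 = true := ex3_b k13_pm_102_a s20_pm_102_a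

theorem s22_pm_102_a : ∃ t, chk3 f_pm_102_a t 29 6 1 = true := ex3_b k10_pm_102_a k11_pm_102_a

theorem s23_pm_102_a : ∃ t, chk3 f_pm_102_a t 14 6 1 = true := ex3_a k9_pm_102_a s22_pm_102_a

theorem s24_pm_102_a : ∃ t, chk3 f_pm_102_a t 14 3 1 = true := ex3_b s23_pm_102_a k12_pm_102_a

theorem s25_pm_102_a : ∃ t, chk3 f_pm_102_a t 7 3 1 = true := ex3_a s24_pm_102_a s21_pm_102_a

theorem s26_pm_102_a : ∃ t, chk3 f_pm_102_a t 28 2 1 = true := ex3_a k5_pm_102_a k6_pm_102_a

theorem s27_pm_102_a : ∃ t, chk3 f_pm_102_a t 14 2 1 = true := ex3_a s26_pm_102_a k7_pm_102_a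

theorem s28_pm_102_a : ∃ t, chk3 f_pm_102_a t 7 2 1 = true := ex3_a s27_pm_102_a k8_pm_102_a

theorem s29_pm_102_a : ∃ t, chk3 f_pm_102_a t 7 1 1 = true := ex3_b s28_pm_102_a s25_pm_102_a

theorem s30_pm_102_a : ∃ t, chk3 f_pm_102_a t 13 2 1 = true := ex3_b k2_pm_102_a k3_pm_102_a

theorem s31_pm_102_a : ∃ t, chk3 f_pm_102_a t 6 2 1 = true := ex3_a k1_pm_102_a s30_pm_102_a

theorem s32_pm_102_a : ∃ t, chk3 f_pm_102_a t 6 1 1 = true := ex3_b s31_pm_102_a k4_pm_102_a

theorem s33_pm_102_a : ∃ t, chk3 f_pm_102_a t 3 1 1 = true := ex3_a s32_pm_102_a s29_pm_102_a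

theorem s34_pm_102_a : ∃ t, chk3 f_pm_102_a t 1 1 1 = true := ex3_a k0_pm_102_a s33_pm_102_a

theorem c_pm_102_a : CertFX 536870912 536870912 0 420477299 1046898278 26843546 false true false .npp 1 0 2
    ndF0q1 ndF2q2a pcF0 Cut.none Ext.none :=
  certFX0 (fam := false) (s1 := true) (s2 := false) (a := 1) (b := 0) (c := 2) (cn := .npp) (n1 := ndF0q1) (n2 := ndF2q2a) (pc := pcF0) (cut := Cut.none) (xt := Ext.none) (P1 := 536870912) (W1 := 536870912) (P2 := 0) (W2 := 420477299) (P3 := 1046898278) (W3 := 26843546)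
    rfl s34_pm_102_a

noncomputable def f_pm_102_b : ℕ → ℕ → ℕ → ℕ → Bool := onCell 536870912 536870912 1239849684 370763052 1046898278 26843546
    (rowFX 0 false true false .npp 1 0 2 (qsf 536870912 536870912 1239849684 370763052 0) ndF0q1 ndF2q2b pcF0 Cut.none Ext.none)

def k0_pm_102_b : ∃ t, chk3 f_pm_102_b t 2 1 1 = true :=
  ⟨(a (l 2) (b (a (b (b (c (l 16712592) (a (l 16732432) (l 16732432))) (l 2)) (l 2)) (b (b (c (l 16712592) (a (l 16732432) (l 16732432))) (c (l 16771920) (l 16771776))) (c (l 16777216) (l 16777216)))) (l 2))), by decide +kernel⟩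

def k1_pm_102_b : ∃ t, chk3 f_pm_102_b t 12 1 1 = true :=
  ⟨(b (a (b (b (c (l 16733568) (l 16732432)) (l 16771848)) (c (l 16777216) (l 16777216))) (b (c (b (b (c (a (l 16722272) (l 16722272)) (a (l 16721560) (l 16721560))) (c (l 16745072) (l 16744656))) (c (a (l 16771952) (l 16771952)) (a (l 16771880) (l 16771880)))) (b (c (b (a (l 16720840) (l 16720840)) (l 16744232)) (b (a (l 16720120) (l 16720120)) (a (l 16743816) (l 16743816)))) (c (a (l 16771816) (l 16771816)) (a (a (l 16771744) (l 16771744)) (l 16750776))))) (b (c (c (a (l 16777216) (l 16777216)) (a (l 16777216) (l 16777216))) (c (a (l 16777216) (l 16777216)) (a (l 16777216) (l 16777216)))) (a (l 16777216) (c (c (l 16777216) (l 16777216)) (c (l 16777216) (l 16777216))))))) (l 2)), by decide +kernel⟩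

def k2_pm_102_b : ∃ t, chk3 f_pm_102_b t 13 2 1 = true :=
  ⟨(b (b (b (a (c (c (a (l 16722272) (l 16722272)) (a (l 16721560) (l 16721560))) (c (a (l 16720840) (l 16720840)) (a (l 16720120) (l 16720120)))) (a (c (c (c (l 16722456) (l 16722096)) (l 16700584)) (c (l 16720840) (l 60834045143))) (l 3))) (a (c (c (a (l 16745072) (l 16745072)) (a (l 16744656) (l 16744656))) (c (l 16744232) (a (l 16743816) (l 16743816)))) (a (c (c (l 16745072) (l 16744656)) (c (l 16744232) (l 16743816))) (a (a (c (l 16744864) (l 200957402631)) (l 3)) (l 3))))) (a (c (c (b (l 16745536) (l 16777208)) (b (l 16766368) (l 16777208))) (c (b (l 16745256) (l 16777208)) (b (a (l 16766088) (l 16766088)) (a (l 16777208) (l 16777208))))) (c (c (a (b (l 16766504) (l 16777208)) (b (l 38822325703) (l 16710600))) (a (b (l 16766368) (l 16777208)) (b (l 170355698791) (l 146196507335)))) (a (c (b (l 16766224) (l 16777208)) (b (l 16766088) (l 16777208))) (a (b (c (l 16747112) (l 142975375639)) (c (l 16773600) (b (l 16752592) (l 16773552))))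 (b (l 3) (l 702931643303))))))) (c (a (c (b (l 16777216) (l 16777216)) (b (a (l 16777216) (l 16777216)) (l 16777216))) (b (a (c (l 16777216) (l 16777216)) (c (l 16710592) (l 115057995095))) (a (c (l 16777216) (l 16777216)) (c (l 16752536) (l 16731240))))) (a (b (c (a (l 16777216) (l 16777216)) (a (l 16777216) (l 16777216))) (c (l 16777216) (l 16777216))) (b (a (c (l 16777216) (l 16777216)) (b (a (l 16773576) (l 149954604903)) (a (l 16773576) (l 16730032)))) (a (c (l 16777216) (l 16777216)) (c (l 16730920) (l 16730592))))))), by decide +kernel⟩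

def k3_pm_102_b : ∃ t, chk3 f_pm_102_b t 13 3 1 = true :=
  ⟨(b (b (c (a (c (l 16777216) (l 16777216)) (a (c (l 16777216) (l 16777216)) (c (l 16752536) (l 16752216)))) (a (c (l 16777216) (l 16777216)) (a (l 16777216) (c (l 16751888) (l 16751568))))) (b (a (l 2) (a (l 2) (c (l 16752376) (l 16751728)))) (l 2))) (l 2)), by decide +kernel⟩

def k4_pm_102_b : ∃ t, chk3 f_pm_102_b t 7 1 1 = true :=
  ⟨(a (a (b (b (l 3) (b (l 3) (a (a (c (l 268602973479) (l 595020483431)) (l 3)) (l 3)))) (b (b (a (c (c (l 16650832) (l 16649184)) (c (l 16647528) (l 16645880))) (l 3)) (a (b (c (l 16650008) (l 16646704)) (l 2)) (c (l 402820364231) (l 84455890551)))) (l 2))) (b (l 3) (b (l 3) (b (l 3) (l 2))))) (l 3)), by decide +kernel⟩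

theorem s5_pm_102_b : ∃ t, chk3 f_pm_102_b t 13 1 1 = true := ex3_b k2_pm_102_b k3_pm_102_b

theorem s6_pm_102_b : ∃ t, chk3 f_pm_102_b t 6 1 1 = true := ex3_a k1_pm_102_b s5_pm_102_b

theorem s7_pm_102_b : ∃ t, chk3 f_pm_102_b t 3 1 1 = true := ex3_a s6_pm_102_b k4_pm_102_b

theorem s8_pm_102_b : ∃ t, chk3 f_pm_102_b t 1 1 1 = true := ex3_a k0_pm_102_b s7_pm_102_b

theorem c_pm_102_b : CertFX 536870912 536870912 1239849684 370763052 1046898278 26843546 false true false .npp 1 0 2
    ndF0q1 ndF2q2b pcF0 Cut.none Ext.none :=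
  certFX0 (fam := false) (s1 := true) (s2 := false) (a := 1) (b := 0) (c := 2) (cn := .npp) (n1 := ndF0q1) (n2 := ndF2q2b) (pc := pcF0) (cut := Cut.none) (xt := Ext.none) (P1 := 536870912) (W1 := 536870912) (P2 := 1239849684) (W2 := 370763052) (P3 := 1046898278) (W3 := 26843546)
    rfl s8_pm_102_b

noncomputable def f_pm_112_a : ℕ → ℕ → ℕ → ℕ → Bool := onCell 536870912 536870912 0 420477299 1046898278 26843546
    (rowFX 0 false true false .dn 1 1 2 (qsf 536870912 536870912 0 420477299 1) ndF0q1 ndF2q2a pcF1 Cut.none Ext.none)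

def k0_pm_112_a : ∃ t, chk3 f_pm_112_a t 1 1 1 = true :=
  ⟨(a (a (b (a (b (c (a (b (l 16707088) (l 16699760)) (b (l 16707088) (l 16699760))) (a (l 16701432) (l 16701432))) (c (b (l 16722096) (l 16771272)) (b (l 16720664) (l 16771112)))) (b (a (c (l 16703352) (l 16701432)) (c (l 16703352) (l 16701432))) (a (c (b (l 16722096) (l 16771272)) (b (l 16720664) (l 16771112))) (b (l 16721384) (l 16771192))))) (b (a (c (b (l 16677568) (l 16544360)) (a (l 16565112) (l 16565112))) (c (b (l 16677568) (l 16544360)) (a (l 16565112) (l 16565112)))) (c (b (a (l 16398928) (l 16398928)) (a (l 16291480) (l 16291480))) (b (a (a (l 16389104) (l 16389104)) (a (l 16389104) (l 16389104))) (a (c (l 16282016) (l 16275712)) (c (l 16282016) (l 16275712))))))) (a (a (b (b (c (l 16703352) (l 16701432)) (b (l 16721384) (l 16729248))) (b (c (l 16485528) (b (l 16674976) (l 1))) (l 1))) (b (b (l 1) (l 1)) (l 1))) (l 1))) (l 1)), by decide +kernel⟩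

theorem c_pm_112_a : CertFX 536870912 536870912 0 420477299 1046898278 26843546 false true false .dn 1 1 2
    ndF0q1 ndF2q2a pcF1 Cut.none Ext.none :=
  certFX0 (fam := false) (s1 := true) (s2 := false) (a := 1) (b := 1) (c := 2) (cn := .dn) (n1 := ndF0q1) (n2 := ndF2q2a) (pc := pcF1) (cut := Cut.none) (xt := Ext.none) (P1 := 536870912) (W1 := 536870912) (P2 := 0) (W2 := 420477299) (P3 := 1046898278) (W3 := 26843546)
    rfl k0_pm_112_a

noncomputable def f_pm_112_b : ℕ → ℕ → ℕ → ℕ → Bool := onCell 536870912 536870912 536870912 536870912 1046898278 26843546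
    (rowFX 1 false true false .dn 1 1 2 (qsf 536870912 536870912 1239849684 370763052 1) ndF0q1 ndF2q2b pcF1 Cut.none Ext.none)

def k0_pm_112_b : ∃ t, chk3 f_pm_112_b t 2 2 1 = true :=
  ⟨(a (b (a (b (l 1) (a (b (l 1) (c (a (l 1) (l 143914845863)) (l 364568569479))) (a (b (l 1) (c (l 125661200247) (l 323229696455))) (b (c (l 117071285847) (l 302828621431)) (c (l 16706000) (l 16725664)))))) (b (a (b (l 1) (a (l 1) (b (l 1) (l 16735144)))) (b (a (l 1) (b (l 1) (l 42983143911))) (a (b (l 54794300039) (l 275985010151)) (b (l 266858204647) (l 16728224))))) (a (b (c (a (l 109018201639) (l 16726976)) (a (l 278669410103) (l 16725664))) (c (l 16745320) (l 16744488))) (c (l 16714520) (l 16713976))))) (a (b (c (a (b (a (l 138009231719) (l 16706000)) (l 16745320)) (b (l 16745320) (l 16769320))) (a (b (a (l 350610131975) (l 16725664)) (l 16744488)) (l 16713976))) (c (l 16773472) (l 16773376))) (c (b (a (l 16772088) (l 16777208)) (l 16777216)) (b (l 16773376) (l 16777216))))) (b (a (b (a (a (b (b (l 16682720)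 (l 257194528231)) (l 16736656)) (c (l 296923090583) (l 360273858199))) (c (l 16756464) (l 16713976))) (c (l 16773472) (l 16773376))) (b (c (l 16773472) (l 16773376)) (l 16777216))) (a (c (l 16777216) (l 16777216)) (l 16777216)))), by decide +kernel⟩

def k1_pm_112_b : ∃ t, chk3 f_pm_112_b t 3 2 1 = true :=
  ⟨(a (a (b (a (c (l 16777216) (l 16777216)) (b (a (l 16777216) (c (c (l 16777216) (l 16777216)) (b (l 16777216) (l 16777216)))) (c (b (l 16777216) (l 16777216)) (b (l 16777216) (l 16777216))))) (b (l 16777216) (l 16777216))) (b (b (b (c (a (l 16777216) (c (l 16764768) (l 16764600))) (a (l 16777216) (l 16764360))) (c (a (l 16777216) (l 16764680)) (a (l 16777216) (l 16764360)))) (c (b (a (l 16777216) (l 16764680)) (a (l 16777216) (l 16764680))) (b (a (l 16777216) (l 16764360)) (l 16770664)))) (b (c (a (b (l 16777216) (l 16777216)) (l 16764680)) (a (l 16777216) (l 16764360))) (a (c (l 16777216) (l 16777216)) (l 2))))) (b (a (b (a (b (c (l 64591682391) (l 140290458375)) (c (l 16552320) (l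 173576454919))) (l 3)) (c (a (b (l 16594264) (l 16594264)) (b (l 398524918695) (l 16365336))) (a (b (c (l 16590704) (l 16567352)) (l 16568544)) (b (l 120425743911) (l 359266190887))))) (l 3)) (a (b (a (c (l 16594264) (l 590121173767)) (l 2)) (l 2)) (l 2)))), by decide +kernel⟩

def k2_pm_112_b : ∃ t, chk3 f_pm_112_b t 1 3 1 = true :=
  ⟨(a (b (a (c (b (a (l 16774152) (l 16773936)) (a (b (l 16759088) (l 16760536)) (l 16758344))) (b (a (l 16774072) (l 16773848)) (a (b (l 16758616) (b (l 16749480) (l 16770608))) (b (l 16757384) (l 16758264))))) (a (b (l 16773640) (b (l 16756296) (l 11374710471))) (b (l 16773352) (b (l 16754744) (l 2))))) (a (b (a (a (b (l 16703680) (l 16580928)) (b (l 16712232) (l 16609688))) (c (l 16649496) (l 16646176))) (a (a (b (l 16407480) (c (l 16251872) (l 16243528))) (b (c (l 16503032) (l 16496328)) (c (l 16334656) (l 398457661943)))) (c (l 237933429271) (b (l 16481232) (l 2))))) (b (a (c (l 16627512) (l 16623624)) (l 2)) (l 2)))) (b (a (b (a (l 16773024) (l 2)) (l 2))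 (l 2)) (l 2))), by decide +kernel⟩

theorem s3_pm_112_b : ∃ t, chk3 f_pm_112_b t 1 2 1 = true := ex3_a k0_pm_112_b k1_pm_112_b

theorem s4_pm_112_b : ∃ t, chk3 f_pm_112_b t 1 1 1 = true := ex3_b s3_pm_112_b k2_pm_112_b

theorem c_pm_112_b : CertFX 536870912 536870912 1239849684 370763052 1046898278 26843546 false true false .dn 1 1 2
    ndF0q1 ndF2q2b pcF1 Cut.none Ext.none :=
  certFX1 (fam := false) (s1 := true) (s2 := false) (a := 1) (b := 1) (c := 2) (cn := .dn) (n1 := ndF0q1) (n2 := ndF2q2b) (pc := pcF1) (cut := Cut.none) (xt := Ext.none) (P1 := 536870912) (W1 := 536870912) (P2 := 1239849684) (W2 := 370763052) (P3 := 1046898278) (W3 := 26843546)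
    rfl (fun _ => rfl) s4_pm_112_b

noncomputable def f_pm_113 : ℕ → ℕ → ℕ → ℕ → Bool := onCell 536870912 536870912 536870912 536870912 1046898278 26843546
    (rowFX 1 false true false .nn 1 1 3 (qsf 536870912 536870912 1610612736 469762048 1) ndF0q1 ndF2q3 pcF1 Cut.none Ext.none)

def k0_pm_113 : ∃ t, chk3 f_pm_113 t 1 2 1 = true :=
  ⟨(a (a (l 1) (b (l 1) (a (l 1) (l 16777216)))) (a (b (a (l 1) (a (l 1) (a (l 1) (b (l 1) (b (l 1) (l 16752048)))))) (b (a (l 16777216) (c (a (l 144451829767) (l 16764680)) (a (l 16777216) (l 16764360)))) (a (l 16777216) (a (c (l 16777216) (l 16777216)) (l 16722576))))) (b (a (a (b (l 1) (c (b (l 16594264) (l 16594264)) (b (c (l 16590704) (l 16546384)) (l 16568544)))) (b (l 3) (c (b (l 414631046055) (l 16365336)) (b (l 134384387623) (l 137605613095))))) (l 3)) (a (b (a (c (l 16594264) (b (l 16589512) (l 16589512))) (c (l 186460887479) (b (l 172502222375) (l 208472573479)))) (a (c (l 16594264) (l 16589512)) (c (l 16365336) (l 264844019239)))) (a (b (l 3) (a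 (c (l 16172304) (l 16156592)) (l 3))) (l 3)))))), by decide +kernel⟩

def k1_pm_113 : ∃ t, chk3 f_pm_113 t 2 3 1 = true :=
  ⟨(b (a (a (l 1) (a (l 1) (a (l 1) (b (l 1) (l 16757864))))) (a (b (l 16773640) (c (l 16757664) (b (l 16756024) (l 16758216)))) (b (l 16773352) (b (l 16754744) (l 16758408))))) (a (b (a (a (l 1) (b (l 1) (l 16609688))) (c (l 16649496) (l 16646176))) (a (a (b (l 16428448) (c (l 16251872) (l 16222552))) (b (c (l 16503032) (l 16496328)) (c (l 16334656) (a (l 16345200) (l 16349016))))) (c (b (l 16488720) (l 16384960)) (b (l 16481232) (a (l 16388136) (l 16361848)))))) (b (a (c (l 16627512) (l 16623624)) (b (l 16671864) (l 16528568))) (a (b (l 16399080) (c (l 16329824) (l 16318200))) (b (l 16390368) (l 16259672)))))), by decide +kernel⟩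

def k2_pm_113 : ∃ t, chk3 f_pm_113 t 3 6 1 = true :=
  ⟨(a (b (a (l 16773024) (c (a (l 16772856) (l 16745856)) (a (l 16772744) (l 16682864)))) (a (b (l 16752952) (l 16674464)) (a (l 16712968) (b (c (l 16744976) (l 16744112)) (b (l 16730448) (a (l 16775600) (l 16728504))))))) (a (b (a (c (l 16596656) (l 16592160)) (b (l 16255128) (l 16320704))) (b (a (l 16608440) (l 16369248)) (b (l 16243768) (a (l 16585320) (l 16347688))))) (a (c (b (a (l 135457862247) (l 196123966487)) (b (a (l 16175480) (l 276654604199)) (a (l 16167872) (b (l 16024832) (l 260011461927))))) (b (a (l 207935388279) (l 207935102167)) (b (l 335173508999) (b (l 15960288) (a (l 16138136) (l 15985312)))))) (b (l 3) (a (b (l 3) (c (b (l 3) (a (l 243368328855) (l 3))) (l 252495066583))) (l 3)))))), by decide +kernel⟩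

def k3_pm_113 : ∃ t, chk3 f_pm_113 t 6 7 1 = true :=
  ⟨(b (a (b (l 16652808) (l 16488776)) (a (l 16545376) (a (l 16531800) (b (l 16599544) (l 16402040))))) (a (b (l 16331960) (l 16143520)) (a (l 16055184) (b (l 16235488) (l 16065888))))), by decide +kernel⟩

def k4_pm_113 : ∃ t, chk3 f_pm_113 t 7 14 1 = true :=
  ⟨(a (b (a (l 16444048) (l 16212664)) (a (b (l 16297176) (l 16199520)) (c (l 16062264) (l 15991032)))) (a (b (a (l 16015936) (c (l 15807952) (l 15839320))) (a (l 15840440) (c (a (l 15788144) (l 15729760)) (l 15640864)))) (a (b (c (c (a (l 15816928) (l 15794744)) (l 311550421687)) (l 324972242663)) (c (a (b (l 15706032) (l 15657656)) (b (c (l 15671672) (l 15631584)) (c (l 15644432) (l 15579536)))) (b (l 364700593511) (a (l 15510568) (l 15465640))))) (a (a (b (l 3) (b (l 3) (c (l 358258537799) (l 15431344)))) (l 3)) (l 3))))), by decide +kernel⟩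

def k5_pm_113 : ∃ t, chk3 f_pm_113 t 7 15 1 = true :=
  ⟨(a (b (b (a (l 16102328) (l 15884472)) (a (c (l 16033640) (l 15981536)) (c (l 15845696) (l 15731992)))) (a (a (l 15934256) (b (c (l 15902288) (l 15830360)) (c (l 15821160) (b (l 15764000) (l 15720280))))) (b (c (a (l 15812952) (l 15736184)) (l 15640944)) (c (l 15490072) (b (l 15570992) (c (l 15562896) (l 15483936))))))) (a (a (b (b (l 15710824) (c (l 15716232) (l 15531928))) (b (c (b (l 15683104) (l 15664360)) (l 15447832)) (c (l 15778880) (b (l 15384896) (l 510661537271))))) (b (b (c (l 15675840) (l 15492216)) (c (b (l 15644608) (l 15637168)) (l 15391400))) (b (c (a (b (l 15647264) (l 15652472)) (b (l 15646696) (l 848891876599))) (l 15324512)) (b (c (l 816679657751) (l 928347987527)) (l 2))))) (b (b (a (c (a (l 15624336) (c (l 15644080) (l 15542064))) (a (l 15415184) (l 15373512))) (a (c (c (b (l 335709994919) (a (l 15641176) (l 341078849863))) (a (l 15514744) (l 350742223751))) (c (a (l 15402744) (l 351815725415)) (l 15269232)))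 (l 3))) (b (a (c (a (l 15615832) (c (l 15677408) (l 15533544))) (l 15323040)) (a (a (a (c (l 15707464) (l 15277720)) (l 2)) (l 2)) (l 2))) (a (c (c (a (l 15712520) (l 946065626295)) (l 630922036247)) (l 15287680)) (l 2)))) (b (b (a (c (c (a (l 15850032) (l 2)) (l 939622888423)) (l 15271440)) (l 2)) (l 2)) (l 2))))), by decide +kernel⟩

theorem s6_pm_113 : ∃ t, chk3 f_pm_113 t 7 7 1 = true := ex3_b k4_pm_113 k5_pm_113

theorem s7_pm_113 : ∃ t, chk3 f_pm_113 t 3 7 1 = true := ex3_a k3_pm_113 s6_pm_113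

theorem s8_pm_113 : ∃ t, chk3 f_pm_113 t 3 3 1 = true := ex3_b k2_pm_113 s7_pm_113

theorem s9_pm_113 : ∃ t, chk3 f_pm_113 t 1 3 1 = true := ex3_a k1_pm_113 s8_pm_113

theorem s10_pm_113 : ∃ t, chk3 f_pm_113 t 1 1 1 = true := ex3_b k0_pm_113 s9_pm_113

theorem c_pm_113 : CertFX 536870912 536870912 1610612736 469762048 1046898278 26843546 false true false .nn 1 1 3
    ndF0q1 ndF2q3 pcF1 Cut.none Ext.none :=
  certFX1 (fam := false) (s1 := true) (s2 := false) (a := 1) (b := 1) (c := 3) (cn := .nn) (n1 := ndF0q1) (n2 := ndF2q3) (pc := pcF1) (cut := Cut.none) (xt := Ext.none) (P1 := 536870912) (W1 := 536870912) (P2 := 1610612736) (W2 := 469762048) (P3 := 1046898278) (W3 := 26843546)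
    rfl (fun _ => rfl) s10_pm_113

noncomputable def f_pm_123 : ℕ → ℕ → ℕ → ℕ → Bool := onCell 536870912 536870912 1073741824 536870912 1046898278 26843546
    (rowFX 1 false true false .npn 1 2 3 (qsf 536870912 536870912 1610612736 469762048 2) ndF0q1 ndF2q3 pcF2 Cut.none Ext.none)

def k0_pm_123 : ∃ t, chk3 f_pm_123 t 2 2 1 = true :=
  ⟨(b (a (b (a (c (a (l 15448760) (b (l 15506400) (l 15575112))) (a (c (l 15426168) (l 15410984)) (a (l 15443080) (b (l 15497312) (l 15565920))))) (c (b (l 15588576) (l 15624344)) (a (c (l 15569712) (l 15512384)) (b (l 15578848) (l 15601064))))) (a (b (c (a (l 15538816) (l 15610840)) (a (l 15508944) (b (l 15597800) (l 15564968)))) (c (l 15384968) (a (l 15328504) (l 15367952)))) (b (c (l 15564208) (b (l 15621288) (a (l 15583664) (l 15564488)))) (c (l 15396280) (l 15192640))))) (b (a (c (b (l 15678760) (l 15652760)) (b (a (l 15625032) (l 15674592)) (a (l 15615616) (l 15631232)))) (b (c (l 15782640) (l 15756808)) (c (l 15685504) (l 15657144)))) (a (b (c (l 15597840)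 (b (l 15602448) (l 15532696))) (c (l 15345536) (l 15308352))) (b (b (l 15595856) (l 15501456)) (l 15267560))))) (b (a (b (b (a (c (l 15225496) (a (l 15181320) (l 15189376))) (c (l 15204200) (l 15163344))) (a (c (l 15361280) (l 15324504)) (c (l 15338496) (l 15301128)))) (a (c (l 15841616) (l 15607600)) (a (l 15757680) (l 15823024)))) (b (b (a (c (l 15142944) (l 15100496)) (l 15049968)) (a (l 15261064) (l 15191336))) (a (c (l 15804744) (l 15695600)) (a (l 15756248) (l 15719904))))) (a (b (a (a (l 16334312) (l 16320928)) (c (l 16465728) (l 16407832))) (a (c (l 16726952) (l 16725648)) (c (l 16776272) (l 16776248)))) (b (a (c (l 16450600) (l 16358064)) (a (l 16359000) (l 16278832))) (c (a (l 16758456) (l 16745448)) (a (l 16757936) (l 16744976))))))), by decide +kernel⟩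

def k1_pm_123 : ∃ t, chk3 f_pm_123 t 2 3 1 = true :=
  ⟨(a (b (b (a (c (l 16753920) (l 16753312)) (a (l 16775432) (l 16758560))) (a (b (l 16773936) (l 16758560)) (c (l 16750120) (l 16749256)))) (a (b (l 16748960) (l 16672224)) (b (l 16672224) (l 2)))) (b (b (a (c (l 16750136) (l 16749272)) (b (l 16708184) (l 2))) (a (b (l 16708184) (l 2)) (l 2))) (l 2))), by decide +kernel⟩

def k2_pm_123 : ∃ t, chk3 f_pm_123 t 3 1 1 = true :=
  ⟨(b (a (b (b (a (b (a (l 15857968) (l 15923120)) (c (l 15723328) (l 15674976))) (a (b (l 15930496) (b (l 15805144) (l 15677664))) (b (a (l 16049408) (l 16073384)) (a (l 15753448) (l 15753944))))) (a (b (b (l 15571032) (a (l 15461912) (l 15432072))) (a (l 15215432) (l 15146400))) (b (a (b (l 15543720) (l 15385528)) (a (l 15436312) (l 15432552))) (a (l 15120624) (a (l 15092336) (l 2)))))) (b (b (b (a (a (l 14982848) (l 14922776)) (a (l 14878824) (l 2))) (a (a (l 15119496) (l 15071256)) (l 2))) (a (a (l 15580616) (b (l 15468048) (l 2))) (l 2))) (b (a (b (a (l 16224944)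 (l 2)) (l 2)) (l 2)) (l 2)))) (b (b (a (a (b (b (l 16113624) (l 15977712)) (b (l 15844352) (l 15715248))) (a (b (a (l 16048000) (a (l 16056664) (b (l 16097824) (b (c (l 16111032) (l 15981968)) (l 2))))) (b (c (c (l 16026768) (l 15904904)) (l 916000142823)) (l 2))) (b (b (c (b (a (l 16195080) (l 16171728)) (c (l 16297176) (l 16106872))) (b (c (a (l 16072992) (l 16019000)) (a (l 15823264) (l 15916160))) (c (l 16021776) (l 15936808)))) (c (b (l 626628237767) (l 2)) (c (l 762455359527) (l 15931048)))) (l 2)))) (b (b (b (a (a (c (l 718433148263) (c (l 15909248) (l 898820036007))) (l 2)) (l 2)) (l 2)) (l 2)) (l 2))) (a (a (a (b (l 15479848) (l 2)) (l 2)) (l 2)) (l 2))) (l 2))) (l 2)), by decide +kernel⟩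

theorem s3_pm_123 : ∃ t, chk3 f_pm_123 t 2 1 1 = true := ex3_b k0_pm_123 k1_pm_123

theorem s4_pm_123 : ∃ t, chk3 f_pm_123 t 1 1 1 = true := ex3_a s3_pm_123 k2_pm_123

theorem c_pm_123 : CertFX 536870912 536870912 1610612736 469762048 1046898278 26843546 false true false .npn 1 2 3
    ndF0q1 ndF2q3 pcF2 Cut.none Ext.none :=
  certFX1 (fam := false) (s1 := true) (s2 := false) (a := 1) (b := 2) (c := 3) (cn := .npn) (n1 := ndF0q1) (n2 := ndF2q3) (pc := pcF2) (cut := Cut.none) (xt := Ext.none) (P1 := 536870912) (W1 := 536870912) (P2 := 1610612736) (W2 := 469762048) (P3 := 1046898278) (W3 := 26843546)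
    rfl (fun _ => rfl) s4_pm_123

noncomputable def f_pm_133 : ℕ → ℕ → ℕ → ℕ → Bool := onCell 536870912 536870912 1610612736 469762048 1046898278 26843546
    (rowFX 0 false true false .dn 1 3 3 (qsf 536870912 536870912 1610612736 469762048 3) ndF0q1 ndF2q3 pcF3 Cut.none Ext.none)

def k0_pm_133 : ∃ t, chk3 f_pm_133 t 1 1 1 = true :=
  ⟨(l 1), by decide +kernel⟩

theorem c_pm_133 : CertFX 536870912 536870912 1610612736 469762048 1046898278 26843546 false true false .dn 1 3 3
    ndF0q1 ndF2q3 pcF3 Cut.none Ext.none :=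
  certFX0 (fam := false) (s1 := true) (s2 := false) (a := 1) (b := 3) (c := 3) (cn := .dn) (n1 := ndF0q1) (n2 := ndF2q3) (pc := pcF3) (cut := Cut.none) (xt := Ext.none) (P1 := 536870912) (W1 := 536870912) (P2 := 1610612736) (W2 := 469762048) (P3 := 1046898278) (W3 := 26843546)
    rfl k0_pm_133

noncomputable def f_pm_202_a : ℕ → ℕ → ℕ → ℕ → Bool := onCell 0 536870912 0 420477299 1046898278 26843546
    (rowFX 0 false true false .pp 2 0 2 (qsf 0 536870912 0 420477299 0) ndF0q2 ndF2q2a pcF0 Cut.none Ext.none)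

def k0_pm_202_a : ∃ t, chk3 f_pm_202_a t 1 1 1 = true :=
  ⟨(l 3), by decide +kernel⟩

theorem c_pm_202_a : CertFX 0 536870912 0 420477299 1046898278 26843546 false true false .pp 2 0 2
    ndF0q2 ndF2q2a pcF0 Cut.none Ext.none :=
  certFX0 (fam := false) (s1 := true) (s2 := false) (a := 2) (b := 0) (c := 2) (cn := .pp) (n1 := ndF0q2) (n2 := ndF2q2a) (pc := pcF0) (cut := Cut.none) (xt := Ext.none) (P1 := 0) (W1 := 536870912) (P2 := 0) (W2 := 420477299) (P3 := 1046898278) (W3 := 26843546)
    rfl k0_pm_202_a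

noncomputable def f_pm_202_b : ℕ → ℕ → ℕ → ℕ → Bool := onCell 0 536870912 1239849684 370763052 1046898278 26843546
    (rowFX 0 false true false .pp 2 0 2 (qsf 0 536870912 1239849684 370763052 0) ndF0q2 ndF2q2b pcF0 Cut.none Ext.none)

def k0_pm_202_b : ∃ t, chk3 f_pm_202_b t 1 1 1 = true :=
  ⟨(l 3), by decide +kernel⟩

theorem c_pm_202_b : CertFX 0 536870912 1239849684 370763052 1046898278 26843546 false true false .pp 2 0 2
    ndF0q2 ndF2q2b pcF0 Cut.none Ext.none :=
  certFX0 (fam := false) (s1 := true) (s2 := false) (a := 2) (b := 0) (c := 2) (cn := .pp) (n1 := ndF0q2) (n2 := ndF2q2b) (pc := pcF0) (cut := Cut.none) (xt := Ext.none) (P1 := 0) (W1 := 536870912) (P2 := 1239849684) (W2 := 370763052) (P3 := 1046898278) (W3 := 26843546)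
    rfl k0_pm_202_b

noncomputable def f_pm_203 : ℕ → ℕ → ℕ → ℕ → Bool := onCell 0 536870912 0 536870912 1046898278 26843546
    (rowFX 1 false true false .up 2 0 3 (qsf 0 536870912 1610612736 469762048 0) ndF0q2 ndF2q3 pcF0 Cut.none Ext.none)

def k0_pm_203 : ∃ t, chk3 f_pm_203 t 1 1 1 = true :=
  ⟨(l 3), by decide +kernel⟩

theorem c_pm_203 : CertFX 0 536870912 1610612736 469762048 1046898278 26843546 false true false .up 2 0 3
    ndF0q2 ndF2q3 pcF0 Cut.none Ext.none :=
  certFX1 (fam := false) (s1 := true) (s2 := false) (a := 2) (b := 0) (c := 3) (cn := .up) (n1 := ndF0q2) (n2 := ndF2q3) (pc := pcF0) (cut := Cut.none) (xt := Ext.none) (P1 := 0) (W1 := 536870912) (P2 := 1610612736) (W2 := 469762048) (P3 := 1046898278) (W3 := 26843546)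
    rfl (fun _ => rfl) k0_pm_203

noncomputable def f_pm_213 : ℕ → ℕ → ℕ → ℕ → Bool := onCell 0 536870912 1610612736 469762048 1046898278 26843546
    (rowFX 0 false true false .pnn 2 1 3 (qsf 0 536870912 1610612736 469762048 1) ndF0q2 ndF2q3 pcF1 Cut.none Ext.none)

def k0_pm_213 : ∃ t, chk3 f_pm_213 t 1 1 1 = true :=
  ⟨(a (l 3) (b (l 3) (a (l 3) (l 3)))), by decide +kernel⟩

theorem c_pm_213 : CertFX 0 536870912 1610612736 469762048 1046898278 26843546 false true false .pnn 2 1 3
    ndF0q2 ndF2q3 pcF1 Cut.none Ext.none :=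
  certFX0 (fam := false) (s1 := true) (s2 := false) (a := 2) (b := 1) (c := 3) (cn := .pnn) (n1 := ndF0q2) (n2 := ndF2q3) (pc := pcF1) (cut := Cut.none) (xt := Ext.none) (P1 := 0) (W1 := 536870912) (P2 := 1610612736) (W2 := 469762048) (P3 := 1046898278) (W3 := 26843546)
    rfl k0_pm_213

noncomputable def f_mm_001 : ℕ → ℕ → ℕ → ℕ → Bool := onCell 0 536870912 536870912 536870912 1046898278 26843546
    (rowFX 0 false false false .up 0 0 1 (qsf 0 536870912 536870912 536870912 0) ndF0q0 ndF2q1 pcF0 Cut.none Ext.none)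

def k0_mm_001 : ∃ t, chk3 f_mm_001 t 1 1 1 = true :=
  ⟨(l 3), by decide +kernel⟩

theorem c_mm_001 : CertFX 0 536870912 536870912 536870912 1046898278 26843546 false false false .up 0 0 1
    ndF0q0 ndF2q1 pcF0 Cut.none Ext.none :=
  certFX0 (fam := false) (s1 := false) (s2 := false) (a := 0) (b := 0) (c := 1) (cn := .up) (n1 := ndF0q0) (n2 := ndF2q1) (pc := pcF0) (cut := Cut.none) (xt := Ext.none) (P1 := 0) (W1 := 536870912) (P2 := 536870912) (W2 := 536870912) (P3 := 1046898278) (W3 := 26843546)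
    rfl k0_mm_001

noncomputable def f_mm_011 : ℕ → ℕ → ℕ → ℕ → Bool := onCell 0 536870912 536870912 536870912 1046898278 26843546
    (rowFX 0 false false false .pnn 0 1 1 (qsf 0 536870912 536870912 536870912 1) ndF0q0 ndF2q1 pcF1 Cut.none Ext.none)

def k0_mm_011 : ∃ t, chk3 f_mm_011 t 1 1 1 = true :=
  ⟨(l 3), by decide +kernel⟩

theorem c_mm_011 : CertFX 0 536870912 536870912 536870912 1046898278 26843546 false false false .pnn 0 1 1
    ndF0q0 ndF2q1 pcF1 Cut.none Ext.none :=
  certFX0 (fam := false) (s1 := false) (s2 := false) (a := 0) (b := 1) (c := 1) (cn := .pnn) (n1 := ndF0q0) (n2 := ndF2q1) (pc := pcF1) (cut := Cut.none) (xt := Ext.none) (P1 := 0) (W1 := 536870912) (P2 := 536870912) (W2 := 536870912) (P3 := 1046898278) (W3 := 26843546)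
    rfl k0_mm_011

noncomputable def f_mm_012_a : ℕ → ℕ → ℕ → ℕ → Bool := onCell 0 536870912 0 420477299 1046898278 26843546
    (rowFX 0 false false false .pnp 0 1 2 (qsf 0 536870912 0 420477299 1) ndF0q0 ndF2q2a pcF1 Cut.none Ext.none)

def k0_mm_012_a : ∃ t, chk3 f_mm_012_a t 1 1 1 = true :=
  ⟨(l 5), by decide +kernel⟩

theorem c_mm_012_a : CertFX 0 536870912 0 420477299 1046898278 26843546 false false false .pnp 0 1 2
    ndF0q0 ndF2q2a pcF1 Cut.none Ext.none :=
  certFX0 (fam := false) (s1 := false) (s2 := false) (a := 0) (b := 1) (c := 2) (cn := .pnp) (n1 := ndF0q0) (n2 := ndF2q2a) (pc := pcF1) (cut := Cut.none) (xt := Ext.none) (P1 := 0) (W1 := 536870912) (P2 := 0) (W2 := 420477299) (P3 := 1046898278) (W3 := 26843546)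
    rfl k0_mm_012_a

noncomputable def f_mm_012_b : ℕ → ℕ → ℕ → ℕ → Bool := onCell 0 536870912 1239849684 370763052 1046898278 26843546
    (rowFX 0 false false false .pnp 0 1 2 (qsf 0 536870912 1239849684 370763052 1) ndF0q0 ndF2q2b pcF1 Cut.none Ext.none)

def k0_mm_012_b : ∃ t, chk3 f_mm_012_b t 1 1 1 = true :=
  ⟨(l 5), by decide +kernel⟩

theorem c_mm_012_b : CertFX 0 536870912 1239849684 370763052 1046898278 26843546 false false false .pnp 0 1 2
    ndF0q0 ndF2q2b pcF1 Cut.none Ext.none :=
  certFX0 (fam := false) (s1 := false) (s2 := false) (a := 0) (b := 1) (c := 2) (cn := .pnp) (n1 := ndF0q0) (n2 := ndF2q2b) (pc := pcF1) (cut := Cut.none) (xt := Ext.none) (P1 := 0) (W1 := 536870912) (P2 := 1239849684) (W2 := 370763052) (P3 := 1046898278) (W3 := 26843546)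
    rfl k0_mm_012_b

noncomputable def f_mm_022_a : ℕ → ℕ → ℕ → ℕ → Bool := onCell 0 536870912 0 420477299 1046898278 26843546
    (rowFX 0 false false false .pp 0 2 2 (qsf 0 536870912 0 420477299 2) ndF0q0 ndF2q2a pcF2 Cut.none Ext.none)

def k0_mm_022_a : ∃ t, chk3 f_mm_022_a t 1 1 1 = true :=
  ⟨(l 5), by decide +kernel⟩

theorem c_mm_022_a : CertFX 0 536870912 0 420477299 1046898278 26843546 false false false .pp 0 2 2
    ndF0q0 ndF2q2a pcF2 Cut.none Ext.none :=
  certFX0 (fam := false) (s1 := false) (s2 := false) (a := 0) (b := 2) (c := 2) (cn := .pp) (n1 := ndF0q0) (n2 := ndF2q2a) (pc := pcF2) (cut := Cut.none) (xt := Ext.none) (P1 := 0) (W1 := 536870912) (P2 := 0) (W2 := 420477299) (P3 := 1046898278) (W3 := 26843546)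
    rfl k0_mm_022_a

noncomputable def f_mm_022_b : ℕ → ℕ → ℕ → ℕ → Bool := onCell 0 536870912 1239849684 370763052 1046898278 26843546
    (rowFX 0 false false false .pp 0 2 2 (qsf 0 536870912 1239849684 370763052 2) ndF0q0 ndF2q2b pcF2 Cut.none Ext.none)

def k0_mm_022_b : ∃ t, chk3 f_mm_022_b t 1 1 1 = true :=
  ⟨(l 5), by decide +kernel⟩

theorem c_mm_022_b : CertFX 0 536870912 1239849684 370763052 1046898278 26843546 false false false .pp 0 2 2
    ndF0q0 ndF2q2b pcF2 Cut.none Ext.none :=
  certFX0 (fam := false) (s1 := false) (s2 := false) (a := 0) (b := 2) (c := 2) (cn := .pp) (n1 := ndF0q0) (n2 := ndF2q2b) (pc := pcF2) (cut := Cut.none) (xt := Ext.none) (P1 := 0) (W1 := 536870912) (P2 := 1239849684) (W2 := 370763052) (P3 := 1046898278) (W3 := 26843546)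
    rfl k0_mm_022_b

noncomputable def f_mm_023 : ℕ → ℕ → ℕ → ℕ → Bool := onCell 0 536870912 1610612736 469762048 1046898278 26843546
    (rowFX 0 false false false .up 0 2 3 (qsf 0 536870912 1610612736 469762048 2) ndF0q0 ndF2q3 pcF2 Cut.none Ext.none)

def k0_mm_023 : ∃ t, chk3 f_mm_023 t 1 1 1 = true :=
  ⟨(l 5), by decide +kernel⟩

theorem c_mm_023 : CertFX 0 536870912 1610612736 469762048 1046898278 26843546 false false false .up 0 2 3
    ndF0q0 ndF2q3 pcF2 Cut.none Ext.none :=
  certFX0 (fam := false) (s1 := false) (s2 := false) (a := 0) (b := 2) (c := 3) (cn := .up) (n1 := ndF0q0) (n2 := ndF2q3) (pc := pcF2) (cut := Cut.none) (xt := Ext.none) (P1 := 0) (W1 := 536870912) (P2 := 1610612736) (W2 := 469762048) (P3 := 1046898278) (W3 := 26843546)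
    rfl k0_mm_023

noncomputable def f_mm_033 : ℕ → ℕ → ℕ → ℕ → Bool := onCell 0 536870912 1610612736 469762048 1046898278 26843546
    (rowFX 0 false false false .pnn 0 3 3 (qsf 0 536870912 1610612736 469762048 3) ndF0q0 ndF2q3 pcF3 Cut.none Ext.none)

def k0_mm_033 : ∃ t, chk3 f_mm_033 t 1 1 1 = true :=
  ⟨(l 5), by decide +kernel⟩

theorem c_mm_033 : CertFX 0 536870912 1610612736 469762048 1046898278 26843546 false false false .pnn 0 3 3
    ndF0q0 ndF2q3 pcF3 Cut.none Ext.none :=
  certFX0 (fam := false) (s1 := false) (s2 := false) (a := 0) (b := 3) (c := 3) (cn := .pnn) (n1 := ndF0q0) (n2 := ndF2q3) (pc := pcF3) (cut := Cut.none) (xt := Ext.none) (P1 := 0) (W1 := 536870912) (P2 := 1610612736) (W2 := 469762048) (P3 := 1046898278) (W3 := 26843546)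
    rfl k0_mm_033

noncomputable def f_mm_101 : ℕ → ℕ → ℕ → ℕ → Bool := onCell 536870912 536870912 536870912 536870912 1046898278 26843546
    (rowFX 0 false false false .npn 1 0 1 (qsf 536870912 536870912 536870912 536870912 0) ndF0q1 ndF2q1 pcF0 Cut.none Ext.none)

def k0_mm_101 : ∃ t, chk3 f_mm_101 t 1 1 1 = true :=
  ⟨(l 3), by decide +kernel⟩

theorem c_mm_101 : CertFX 536870912 536870912 536870912 536870912 1046898278 26843546 false false false .npn 1 0 1
    ndF0q1 ndF2q1 pcF0 Cut.none Ext.none :=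
  certFX0 (fam := false) (s1 := false) (s2 := false) (a := 1) (b := 0) (c := 1) (cn := .npn) (n1 := ndF0q1) (n2 := ndF2q1) (pc := pcF0) (cut := Cut.none) (xt := Ext.none) (P1 := 536870912) (W1 := 536870912) (P2 := 536870912) (W2 := 536870912) (P3 := 1046898278) (W3 := 26843546)
    rfl k0_mm_101

noncomputable def f_mm_102_a : ℕ → ℕ → ℕ → ℕ → Bool := onCell 536870912 536870912 0 420477299 1046898278 26843546
    (rowFX 0 false false false .npp 1 0 2 (qsf 536870912 536870912 0 420477299 0) ndF0q1 ndF2q2a pcF0 Cut.none Ext.none)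

def k0_mm_102_a : ∃ t, chk3 f_mm_102_a t 1 1 1 = true :=
  ⟨(l 3), by decide +kernel⟩

theorem c_mm_102_a : CertFX 536870912 536870912 0 420477299 1046898278 26843546 false false false .npp 1 0 2
    ndF0q1 ndF2q2a pcF0 Cut.none Ext.none :=
  certFX0 (fam := false) (s1 := false) (s2 := false) (a := 1) (b := 0) (c := 2) (cn := .npp) (n1 := ndF0q1) (n2 := ndF2q2a) (pc := pcF0) (cut := Cut.none) (xt := Ext.none) (P1 := 536870912) (W1 := 536870912) (P2 := 0) (W2 := 420477299) (P3 := 1046898278) (W3 := 26843546)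
    rfl k0_mm_102_a

noncomputable def f_mm_102_b : ℕ → ℕ → ℕ → ℕ → Bool := onCell 536870912 536870912 1239849684 370763052 1046898278 26843546
    (rowFX 0 false false false .npp 1 0 2 (qsf 536870912 536870912 1239849684 370763052 0) ndF0q1 ndF2q2b pcF0 Cut.none Ext.none)

def k0_mm_102_b : ∃ t, chk3 f_mm_102_b t 1 1 1 = true :=
  ⟨(l 5), by decide +kernel⟩

theorem c_mm_102_b : CertFX 536870912 536870912 1239849684 370763052 1046898278 26843546 false false false .npp 1 0 2
    ndF0q1 ndF2q2b pcF0 Cut.none Ext.none :=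
  certFX0 (fam := false) (s1 := false) (s2 := false) (a := 1) (b := 0) (c := 2) (cn := .npp) (n1 := ndF0q1) (n2 := ndF2q2b) (pc := pcF0) (cut := Cut.none) (xt := Ext.none) (P1 := 536870912) (W1 := 536870912) (P2 := 1239849684) (W2 := 370763052) (P3 := 1046898278) (W3 := 26843546)
    rfl k0_mm_102_b

noncomputable def f_mm_112_a : ℕ → ℕ → ℕ → ℕ → Bool := onCell 536870912 536870912 0 420477299 1046898278 26843546
    (rowFX 0 false false false .dn 1 1 2 (qsf 536870912 536870912 0 420477299 1) ndF0q1 ndF2q2a pcF1 Cut.none Ext.none)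

def k0_mm_112_a : ∃ t, chk3 f_mm_112_a t 1 1 1 = true :=
  ⟨(l 3), by decide +kernel⟩

theorem c_mm_112_a : CertFX 536870912 536870912 0 420477299 1046898278 26843546 false false false .dn 1 1 2
    ndF0q1 ndF2q2a pcF1 Cut.none Ext.none :=
  certFX0 (fam := false) (s1 := false) (s2 := false) (a := 1) (b := 1) (c := 2) (cn := .dn) (n1 := ndF0q1) (n2 := ndF2q2a) (pc := pcF1) (cut := Cut.none) (xt := Ext.none) (P1 := 536870912) (W1 := 536870912) (P2 := 0) (W2 := 420477299) (P3 := 1046898278) (W3 := 26843546)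
    rfl k0_mm_112_a

noncomputable def f_mm_112_b : ℕ → ℕ → ℕ → ℕ → Bool := onCell 536870912 536870912 1239849684 370763052 1046898278 26843546
    (rowFX 0 false false false .dn 1 1 2 (qsf 536870912 536870912 1239849684 370763052 1) ndF0q1 ndF2q2b pcF1 Cut.none Ext.none)

def k0_mm_112_b : ∃ t, chk3 f_mm_112_b t 1 1 1 = true :=
  ⟨(l 5), by decide +kernel⟩

theorem c_mm_112_b : CertFX 536870912 536870912 1239849684 370763052 1046898278 26843546 false false false .dn 1 1 2
    ndF0q1 ndF2q2b pcF1 Cut.none Ext.none :=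
  certFX0 (fam := false) (s1 := false) (s2 := false) (a := 1) (b := 1) (c := 2) (cn := .dn) (n1 := ndF0q1) (n2 := ndF2q2b) (pc := pcF1) (cut := Cut.none) (xt := Ext.none) (P1 := 536870912) (W1 := 536870912) (P2 := 1239849684) (W2 := 370763052) (P3 := 1046898278) (W3 := 26843546)
    rfl k0_mm_112_b

noncomputable def f_mm_113 : ℕ → ℕ → ℕ → ℕ → Bool := onCell 536870912 536870912 1610612736 469762048 1046898278 26843546
    (rowFX 0 false false false .nn 1 1 3 (qsf 536870912 536870912 1610612736 469762048 1) ndF0q1 ndF2q3 pcF1 Cut.none Ext.none)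

def k0_mm_113 : ∃ t, chk3 f_mm_113 t 1 1 1 = true :=
  ⟨(l 5), by decide +kernel⟩

theorem c_mm_113 : CertFX 536870912 536870912 1610612736 469762048 1046898278 26843546 false false false .nn 1 1 3
    ndF0q1 ndF2q3 pcF1 Cut.none Ext.none :=
  certFX0 (fam := false) (s1 := false) (s2 := false) (a := 1) (b := 1) (c := 3) (cn := .nn) (n1 := ndF0q1) (n2 := ndF2q3) (pc := pcF1) (cut := Cut.none) (xt := Ext.none) (P1 := 536870912) (W1 := 536870912) (P2 := 1610612736) (W2 := 469762048) (P3 := 1046898278) (W3 := 26843546)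
    rfl k0_mm_113

noncomputable def f_mm_123 : ℕ → ℕ → ℕ → ℕ → Bool := onCell 536870912 536870912 1610612736 469762048 1046898278 26843546
    (rowFX 0 false false false .npn 1 2 3 (qsf 536870912 536870912 1610612736 469762048 2) ndF0q1 ndF2q3 pcF2 Cut.none Ext.none)

def k0_mm_123 : ∃ t, chk3 f_mm_123 t 1 1 1 = true :=
  ⟨(l 5), by decide +kernel⟩

theorem c_mm_123 : CertFX 536870912 536870912 1610612736 469762048 1046898278 26843546 false false false .npn 1 2 3
    ndF0q1 ndF2q3 pcF2 Cut.none Ext.none :=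
  certFX0 (fam := false) (s1 := false) (s2 := false) (a := 1) (b := 2) (c := 3) (cn := .npn) (n1 := ndF0q1) (n2 := ndF2q3) (pc := pcF2) (cut := Cut.none) (xt := Ext.none) (P1 := 536870912) (W1 := 536870912) (P2 := 1610612736) (W2 := 469762048) (P3 := 1046898278) (W3 := 26843546)
    rfl k0_mm_123

noncomputable def f_mm_133 : ℕ → ℕ → ℕ → ℕ → Bool := onCell 536870912 536870912 1610612736 469762048 1046898278 26843546
    (rowFX 0 false false false .dn 1 3 3 (qsf 536870912 536870912 1610612736 469762048 3) ndF0q1 ndF2q3 pcF3 Cut.none Ext.none)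

def k0_mm_133 : ∃ t, chk3 f_mm_133 t 1 1 1 = true :=
  ⟨(l 1), by decide +kernel⟩

theorem c_mm_133 : CertFX 536870912 536870912 1610612736 469762048 1046898278 26843546 false false false .dn 1 3 3
    ndF0q1 ndF2q3 pcF3 Cut.none Ext.none :=
  certFX0 (fam := false) (s1 := false) (s2 := false) (a := 1) (b := 3) (c := 3) (cn := .dn) (n1 := ndF0q1) (n2 := ndF2q3) (pc := pcF3) (cut := Cut.none) (xt := Ext.none) (P1 := 536870912) (W1 := 536870912) (P2 := 1610612736) (W2 := 469762048) (P3 := 1046898278) (W3 := 26843546)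
    rfl k0_mm_133

noncomputable def f_mm_202_a : ℕ → ℕ → ℕ → ℕ → Bool := onCell 0 536870912 0 420477299 1046898278 26843546
    (rowFX 0 false false false .pp 2 0 2 (qsf 0 536870912 0 420477299 0) ndF0q2 ndF2q2a pcF0 Cut.none Ext.none)

def k0_mm_202_a : ∃ t, chk3 f_mm_202_a t 1 1 1 = true :=
  ⟨(l 3), by decide +kernel⟩

theorem c_mm_202_a : CertFX 0 536870912 0 420477299 1046898278 26843546 false false false .pp 2 0 2
    ndF0q2 ndF2q2a pcF0 Cut.none Ext.none :=
  certFX0 (fam := false) (s1 := false) (s2 := false) (a := 2) (b := 0) (c := 2) (cn := .pp) (n1 := ndF0q2) (n2 := ndF2q2a) (pc := pcF0) (cut := Cut.none) (xt := Ext.none) (P1 := 0) (W1 := 536870912) (P2 := 0) (W2 := 420477299) (P3 := 1046898278) (W3 := 26843546)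
    rfl k0_mm_202_a

noncomputable def f_mm_202_b : ℕ → ℕ → ℕ → ℕ → Bool := onCell 0 536870912 1239849684 370763052 1046898278 26843546
    (rowFX 0 false false false .pp 2 0 2 (qsf 0 536870912 1239849684 370763052 0) ndF0q2 ndF2q2b pcF0 Cut.none Ext.none)

def k0_mm_202_b : ∃ t, chk3 f_mm_202_b t 1 1 1 = true :=
  ⟨(l 3), by decide +kernel⟩

theorem c_mm_202_b : CertFX 0 536870912 1239849684 370763052 1046898278 26843546 false false false .pp 2 0 2
    ndF0q2 ndF2q2b pcF0 Cut.none Ext.none :=
  certFX0 (fam := false) (s1 := false) (s2 := false) (a := 2) (b := 0) (c := 2) (cn := .pp) (n1 := ndF0q2) (n2 := ndF2q2b) (pc := pcF0) (cut := Cut.none) (xt := Ext.none) (P1 := 0) (W1 := 536870912) (P2 := 1239849684) (W2 := 370763052) (P3 := 1046898278) (W3 := 26843546)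
    rfl k0_mm_202_b

noncomputable def f_mm_203 : ℕ → ℕ → ℕ → ℕ → Bool := onCell 0 536870912 1610612736 469762048 1046898278 26843546
    (rowFX 0 false false false .up 2 0 3 (qsf 0 536870912 1610612736 469762048 0) ndF0q2 ndF2q3 pcF0 Cut.none Ext.none)

def k0_mm_203 : ∃ t, chk3 f_mm_203 t 1 1 1 = true :=
  ⟨(l 3), by decide +kernel⟩

theorem c_mm_203 : CertFX 0 536870912 1610612736 469762048 1046898278 26843546 false false false .up 2 0 3
    ndF0q2 ndF2q3 pcF0 Cut.none Ext.none :=
  certFX0 (fam := false) (s1 := false) (s2 := false) (a := 2) (b := 0) (c := 3) (cn := .up) (n1 := ndF0q2) (n2 := ndF2q3) (pc := pcF0) (cut := Cut.none) (xt := Ext.none) (P1 := 0) (W1 := 536870912) (P2 := 1610612736) (W2 := 469762048) (P3 := 1046898278) (W3 := 26843546)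
    rfl k0_mm_203

noncomputable def f_mm_213 : ℕ → ℕ → ℕ → ℕ → Bool := onCell 0 536870912 1610612736 469762048 1046898278 26843546
    (rowFX 0 false false false .pnn 2 1 3 (qsf 0 536870912 1610612736 469762048 1) ndF0q2 ndF2q3 pcF1 Cut.none Ext.none)

def k0_mm_213 : ∃ t, chk3 f_mm_213 t 1 1 1 = true :=
  ⟨(l 3), by decide +kernel⟩

theorem c_mm_213 : CertFX 0 536870912 1610612736 469762048 1046898278 26843546 false false false .pnn 2 1 3
    ndF0q2 ndF2q3 pcF1 Cut.none Ext.none :=
  certFX0 (fam := false) (s1 := false) (s2 := false) (a := 2) (b := 1) (c := 3) (cn := .pnn) (n1 := ndF0q2) (n2 := ndF2q3) (pc := pcF1) (cut := Cut.none) (xt := Ext.none) (P1 := 0) (W1 := 536870912) (P2 := 1610612736) (W2 := 469762048) (P3 := 1046898278) (W3 := 26843546)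
    rfl k0_mm_213

end Pool.Agent.Strip051.G.IE1.Tab.C.FB02

namespace Pool.Agent.Strip051.G.IE1.Tab.C.FB03

open Pool.Agent.Strip051.PB Pool.Agent.Strip051.PB.T
open Pool.Agent.Strip051.G.IE1.Tab

noncomputable def f_pp_001 : ℕ → ℕ → ℕ → ℕ → Bool := onCell 0 536870912 0 536870912 1046898278 26843546
    (rowFX 1 false true true .up 0 0 1 (qsf 0 536870912 536870912 536870912 0) ndF0q0 ndF3q1 pcF0 Cut.none Ext.none)

def k0_pp_001 : ∃ t, chk3 f_pp_001 t 1 1 1 = true :=
  ⟨(l 3), by decide +kernel⟩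

theorem c_pp_001 : CertFX 0 536870912 536870912 536870912 1046898278 26843546 false true true .up 0 0 1
    ndF0q0 ndF3q1 pcF0 Cut.none Ext.none :=
  certFX1 (fam := false) (s1 := true) (s2 := true) (a := 0) (b := 0) (c := 1) (cn := .up) (n1 := ndF0q0) (n2 := ndF3q1) (pc := pcF0) (cut := Cut.none) (xt := Ext.none) (P1 := 0) (W1 := 536870912) (P2 := 536870912) (W2 := 536870912) (P3 := 1046898278) (W3 := 26843546)
    rfl (fun _ => rfl) k0_pp_001

noncomputable def cut_pp_011 : Cut := Cut.of [[⟨0, 0, 0, 67108864⟩, ⟨1, 1, 0, 67108864⟩, ⟨2, 1, 0, 67108864⟩]]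

noncomputable def f_pp_011 : ℕ → ℕ → ℕ → ℕ → Bool := onCell 0 536870912 536870912 536870912 1046898278 26843546
    (rowFX 0 false true true .pnn 0 1 1 (qsf 0 536870912 536870912 536870912 1) ndF0q0 ndF3q1 pcF1 cut_pp_011 Ext.none)

def k0_pp_011 : ∃ t, chk3 f_pp_011 t 1 1 1 = true :=
  ⟨(b (l 3) (a (b (l 3) (a (b (l 3) (a (a (a (b (l 3) (l 6)) (l 3)) (l 3)) (l 3))) (l 3))) (l 3))), by decide +kernel⟩

theorem c_pp_011 : CertFX 0 536870912 536870912 536870912 1046898278 26843546 false true true .pnn 0 1 1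
    ndF0q0 ndF3q1 pcF1 cut_pp_011 Ext.none :=
  certFX0 (fam := false) (s1 := true) (s2 := true) (a := 0) (b := 1) (c := 1) (cn := .pnn) (n1 := ndF0q0) (n2 := ndF3q1) (pc := pcF1) (cut := cut_pp_011) (xt := Ext.none) (P1 := 0) (W1 := 536870912) (P2 := 536870912) (W2 := 536870912) (P3 := 1046898278) (W3 := 26843546)
    rfl k0_pp_011

noncomputable def cut_pp_012 : Cut := Cut.of [[⟨0, 0, 0, 67108864⟩, ⟨1, 1, 0, 67108864⟩, ⟨2, 1, 0, 67108864⟩, ⟨3, 0, 0, 1233125376⟩]]

noncomputable def f_pp_012 : ℕ → ℕ → ℕ → ℕ → Bool := onCell 536870912 536870912 1073741824 536870912 1046898278 26843546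
    (rowFX 2 false true true .pnp 0 1 2 (qsf 0 536870912 1073741824 536870912 1) ndF0q0 ndF3q2 pcF1 cut_pp_012 Ext.none)

def k0_pp_012 : ∃ t, chk3 f_pp_012 t 1 1 1 = true :=
  ⟨(a (l 3) (a (l 3) (a (l 3) (a (l 3) (b (a (l 3) (a (l 3) (b (a (l 3) (a (l 3) (b (a (l 3) (b (l 6) (b (l 6) (b (l 6) (b (l 6) (b (l 6) (c (l 16543488) (l 16561424)))))))) (a (l 3) (a (l 3) (b (c (b (b (l 16522672) (l 16438808)) (l 16202952)) (b (b (l 16519080) (l 16431864)) (c (l 16278272) (l 16210048)))) (c (b (b (c (l 16141448) (l 16133680)) (l 16039360)) (b (l 153711145655) (l 15781224))) (a (l 3) (a (l 3) (c (b (l 16066560) (l 15820400)) (b (b (b (l 16145384) (b (l 16107392) (l 16079632))) (l 15934376)) (b (l 15867672) (l 15749704))))))))))))) (a (l 3) (a (l 3) (a (b (l 3) (l 3)) (b (b (c (b (l 83917453719) (b (l 15464688) (b (l 15444944) (l 15424632)))) (b (c (l 15596992) (l 200954841847)) (b (l 15430016) (c (l 15385984) (l 218671322519))))) (c (c (l 15554344) (l 15537712)) (c (l 15521088) (l 15400544)))) (a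 (l 3) (b (c (c (l 15751976) (l 15738488)) (c (l 15725000) (l 15711920))) (c (b (c (l 15806104) (l 15793528)) (l 15768776)) (b (b (l 15799056) (l 15730168)) (l 15722016)))))))))))) (a (l 3) (a (l 3) (a (b (l 3) (l 3)) (a (b (l 3) (l 3)) (b (c (b (b (l 15771224) (l 15771224)) (b (l 15771224) (l 15771224))) (b (c (b (l 15751624) (l 15751624)) (c (l 15741920) (b (l 15738008) (l 15738008)))) (c (l 241757598983) (b (l 251958100247) (l 15740904))))) (c (b (b (l 15771224) (l 15771224)) (c (l 15777776) (l 15764712))) (b (c (l 15751648) (c (l 15741920) (l 248200010567))) (c (l 15751648) (c (l 15741928) (b (l 15738008) (l 263232396727)))))))))))))))), by decide +kernel⟩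

theorem c_pp_012 : CertFX 0 536870912 1073741824 536870912 1046898278 26843546 false true true .pnp 0 1 2
    ndF0q0 ndF3q2 pcF1 cut_pp_012 Ext.none :=
  certFX2 (fam := false) (s1 := true) (s2 := true) (a := 0) (b := 1) (c := 2) (cn := .pnp) (n1 := ndF0q0) (n2 := ndF3q2) (pc := pcF1) (cut := cut_pp_012) (xt := Ext.none) (P1 := 0) (W1 := 536870912) (P2 := 1073741824) (W2 := 536870912) (P3 := 1046898278) (W3 := 26843546)
    rfl (fun _ => rfl) k0_pp_012

noncomputable def cut_pp_022 : Cut := Cut.of [[⟨0, 0, 0, 67108864⟩, ⟨1, 1, 0, 67108864⟩, ⟨2, 1, 0, 67108864⟩, ⟨3, 0, 0, 1233125376⟩]]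

noncomputable def f_pp_022 : ℕ → ℕ → ℕ → ℕ → Bool := onCell 1073741824 536870912 1073741824 536870912 1046898278 26843546
    (rowFX 2 false true true .pp 0 2 2 (qsf 0 536870912 1073741824 536870912 2) ndF0q0 ndF3q2 pcF2 cut_pp_022 Ext.none)

def k0_pp_022 : ∃ t, chk3 f_pp_022 t 16 8 1 = true :=
  ⟨(b (l 6) (b (l 6) (b (l 6) (b (l 6) (b (l 6) (c (a (a (a (c (c (l 16548752) (l 16604232)) (l 16603072)) (c (l 16589032) (l 16656016))) (c (c (l 16524992) (l 16532480)) (l 16583888))) (c (a (l 16424672) (l 16412200)) (a (c (l 16540344) (l 16593240)) (l 16384576)))) (a (c (a (a (a (l 16582448) (l 16620368)) (l 16622008)) (l 16655208)) (a (c (a (a (l 16580280) (l 16612832)) (l 16642256)) (a (c (a (a (l 16570312) (l 16586728)) (l 16601640)) (a (c (a (l 16568608) (l 16581040)) (a (c (l 16566960) (l 16566080)) (l 16579064))) (c (l 16594560) (l 16594544)))) (c (l 16628392) (l 16628200)))) (c (l 16652656) (c (l 16667696) (l 16627640))))) (c (a (l 16599344) (l 16496232)) (c (l 16544912) (a (c (l 16633192)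 (l 16611280)) (l 16516824))))))))))), by decide +kernel⟩

def k1_pp_022 : ∃ t, chk3 f_pp_022 t 16 9 2 = true :=
  ⟨(a (b (a (b (a (b (c (a (l 16523528) (l 16562248)) (l 16518976)) (a (l 16460696) (l 16502096))) (c (c (b (l 16545048) (l 16561960)) (l 16512640)) (l 16512400))) (a (a (c (l 16208272) (l 16286776)) (l 16271568)) (c (l 16360560) (l 16334288)))) (b (c (a (c (c (l 16521160) (l 16515608)) (l 16544184)) (c (l 16491600) (l 16555800))) (b (l 16597408) (l 16551784))) (b (c (a (l 16510760) (l 16589008)) (l 16451712)) (c (l 16363328) (l 16402744))))) (b (a (a (b (c (a (c (a (l 16134880) (l 16178144)) (l 16163168)) (l 16209584)) (l 16179936)) (c (a (a (l 16036864) (l 16059256)) (l 16092536)) (l 16061208))) (c (b (l 16275616) (l 16158616)) (b (l 16268280) (l 16149616)))) (c (b (a (l 16317504) (l 16425768)) (a (l 16242472) (l 16308800))) (c (l 16190432) (l 16235952)))) (a (a (a (c (b (a (l 15912584) (l 15934760)) (l 15809056)) (l 15854448)) (b (l 15962872) (l 15844840))) (c (b (l 16034120)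 (l 15914320)) (l 15962472))) (c (a (b (l 16117992) (l 15996176)) (l 16123008)) (l 15933416))))) (a (b (b (c (c (b (l 16475184) (l 16516032)) (a (l 16507312) (l 16438312))) (a (l 16543160) (c (l 16510744) (l 16601256)))) (c (b (c (l 16561536) (l 16639472)) (l 16508712)) (l 16486584))) (b (c (b (l 16439664) (l 16385968)) (l 16257280)) (c (l 16095288) (l 16156848)))) (b (b (c (b (l 16355056) (c (l 16481432) (l 16477528))) (c (b (l 16431888) (l 16532392)) (l 16459160))) (c (c (l 16454760) (l 16525008)) (l 16585720))) (b (b (b (l 16516784) (l 16476336)) (l 16387856)) (l 16138064))))), by decide +kernel⟩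

def k2_pp_022 : ∃ t, chk3 f_pp_022 t 16 9 6 = true :=
  ⟨(a (b (a (b (a (a (b (l 16539832) (l 16455648)) (l 16453464)) (a (l 16487048) (l 16532664))) (a (a (l 16302360) (l 16347800)) (l 16296952))) (b (l 16514128) (b (l 16479320) (l 16408184)))) (a (a (b (a (b (l 16150120) (l 16029712)) (l 16051120)) (a (l 15842688) (l 15886640))) (b (b (l 16249864) (l 16129544)) (l 15855856))) (b (b (l 16307392) (l 16208112)) (l 15975176)))) (b (a (b (l 16561704) (l 16423512)) (c (l 16481880) (l 16507824))) (b (a (b (l 16377816) (l 16299920)) (b (l 16462168) (l 16393728))) (a (l 16087872) (l 16202944))))), by decide +kernel⟩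

def k3_pp_022 : ∃ t, chk3 f_pp_022 t 16 9 14 = true :=
  ⟨(a (b (a (b (a (a (b (l 16516312) (l 16452304)) (l 16445160)) (l 16496904)) (a (a (l 16192664) (l 16316672)) (l 16335672))) (b (l 16486816) (b (l 16450888) (l 16357888)))) (a (a (a (b (b (a (l 16133072) (l 16156056)) (a (l 16011392) (l 16034408))) (a (l 15822688) (l 15844920))) (b (b (l 16183760) (l 16062144)) (l 15850728))) (b (b (l 16224144) (l 16102584)) (l 15910784))) (b (b (l 16214144) (l 16134608)) (l 15815800)))) (b (b (l 16487600) (l 16426616)) (b (a (l 16256960) (l 16336176)) (l 16057496)))), by decide +kernel⟩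

def k4_pp_022 : ∃ t, chk3 f_pp_022 t 16 18 15 = true :=
  ⟨(c (a (a (b (a (a (a (l 16399744) (l 16459496)) (l 16475528)) (l 16482664)) (a (a (a (l 16242512) (l 16304728)) (l 16325144)) (l 16299592))) (b (l 16522456) (l 16332592))) (b (l 16487408) (l 16426072))) (a (b (a (a (a (c (a (b (l 16525392) (l 16439040)) (l 16495560)) (a (b (c (l 16523736) (l 16501880)) (c (l 16437280) (l 16415344))) (l 16388584))) (c (l 16489232) (l 16468080))) (l 16419248)) (b (l 16563512) (l 16547552))) (a (a (a (c (a (a (l 16256920) (l 16288104)) (l 16298376)) (c (a (a (l 16234800) (l 16284896)) (l 16294464)) (a (a (a (c (l 16253072) (l 16189632)) (l 16194336)) (l 16241720)) (l 16273216)))) (c (l 16296440) (l 16253928))) (c (l 16316768) (l 16275216))) (b (l 16423952) (l 16309080)))) (b (a (l 16563576) (l 16524800)) (l 16404728)))), by decide +kernel⟩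

def k5_pp_022 : ∃ t, chk3 f_pp_022 t 32 19 15 = true :=
  ⟨(a (a (c (a (b (a (b (a (l 16124448) (l 16136040)) (l 16007504)) (b (l 16150016) (l 16027736))) (a (b (l 15877576) (l 15758504)) (l 15837256))) (b (b (l 16170488) (l 16048248)) (l 15856808))) (b (a (c (a (b (a (b (l 16148944) (l 16075872)) (l 16112000)) (a (l 16000184) (l 16010360))) (b (l 16122304) (l 16020688))) (b (a (c (a (a (b (l 16145464) (l 16093288)) (l 16082456)) (l 16108600)) (a (b (c (l 16146520) (c (l 16145936) (l 16145680))) (c (a (b (l 16106568) (l 16078632)) (l 16096648)) (a (b (c (l 16106016) (l 16105696)) (c (l 16078072) (c (l 16077768) (l 16077624)))) (b (l 16109936) (l 16081984))))) (b (l 16154352) (c (l 16101464) (l 16059288))))) (c (l 16076264) (b (l 16164888) (b (l 16126664) (l 16098728))))) (a (a (c (a (l 15996512) (l 16001624)) (c (a (l 15995752) (l 15999848)) (c (a (l 15995184) (l 15998768)) (c (l 15954688) (l 15975536))))) (c (l 16006808) (c (l 16004672) (l 16004384)))) (c (l 16016432) (l 16015864))))) (c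 (b (l 16120432) (l 16039824)) (b (c (l 16139248) (b (l 16186376) (l 16092224))) (c (l 16037512) (l 16037360))))) (a (c (a (a (l 15705320) (l 15819944)) (l 15829712)) (c (a (a (b (l 15868224) (l 15749088)) (l 15816144)) (l 15783256)) (b (a (a (c (l 15846016) (c (l 15866328) (l 15866008))) (l 15874624)) (l 15885072)) (a (c (l 15708800) (l 15750032)) (l 15763952))))) (c (l 15784976) (b (l 15907896) (l 15784744)))))) (c (b (b (l 16166328) (l 16086096)) (l 15788440)) (b (b (c (l 16204096) (c (l 16182512) (l 16140024))) (c (l 16081608) (l 16039360))) (c (l 15888312) (b (l 15950552) (l 15824632)))))) (b (c (b (l 16269232) (l 16168112)) (b (c (l 16268232) (l 16204432)) (c (l 16166800) (l 16144608)))) (c (l 15974136) (a (l 15819032) (l 16000128))))), by decide +kernel⟩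

def k6_pp_022 : ∃ t, chk3 f_pp_022 t 33 19 15 = true :=
  ⟨(b (a (c (l 16234264) (b (l 16336480) (l 16277144))) (b (l 16435152) (l 16385672))) (a (l 15938520) (l 16191400))), by decide +kernel⟩

def k7_pp_022 : ∃ t, chk3 f_pp_022 t 17 8 1 = true :=
  ⟨(b (a (l 6) (l 1)) (b (a (l 6) (a (l 6) (l 1))) (a (b (l 6) (b (l 6) (b (l 6) (b (l 6) (c (c (l 16307976) (a (l 16379304) (l 16309752))) (c (a (l 16378528) (c (l 16329496) (l 16345616))) (c (l 16399112) (l 16292672)))))))) (b (a (l 6) (a (l 6) (l 1))) (c (c (a (l 16220504) (l 16161496)) (l 16197520)) (b (a (l 6) (a (l 6) (a (l 6) (l 1)))) (a (b (l 6) (c (l 16194392) (c (a (l 16273184) (l 16222072)) (c (l 16252352) (l 16250152))))) (c (l 16154232) (c (l 16152944) (a (b (l 6) (c (l 16177024) (l 16177784))) (c (l 16130216) (c (c (l 16130088) (l 16130336)) (l 16131120))))))))))))), by decide +kernel⟩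

def k8_pp_022 : ∃ t, chk3 f_pp_022 t 17 9 2 = true :=
  ⟨(b (a (b (c (a (b (l 16378216) (l 16393272)) (l 16259952)) (a (b (c (l 16428656) (c (l 16393584) (l 16427176))) (c (l 16449048) (l 16478392))) (c (b (l 16341792) (l 16420544)) (b (l 16362584) (l 16401712))))) (c (a (c (l 16372984) (l 16449008)) (c (l 16392080) (l 16346016))) (a (c (l 16499176) (l 16604792)) (c (l 16375048) (l 16452872))))) (b (c (a (l 16234088) (l 16211400)) (a (b (l 16262744) (l 16312672)) (l 16173416))) (c (a (c (l 16375840) (l 16341128)) (c (l 16299352) (l 16333632))) (a (b (l 16307360) (l 16428568)) (b (l 16312656) (l 16286832)))))) (a (a (b (c (b (l 16502544) (l 16501168)) (l 16400392)) (c (l 16344280) (l 16299864))) (b (c (b (l 16467040) (l 16501960)) (l 16505032)) (c (l 16270904) (l 16338216)))) (b (c (a (c (b (l 16473680) (l 16535136)) (l 16387464)) (c (b (l 16424464) (l 16447232)) (l 16293400))) (c (a (l 16464976) (l 16349744)) (l 16361592))) (c (c (a (l 16359096) (l 16422016)) (a (l 16395392) (l 16470912)))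 (l 16384976))))), by decide +kernel⟩

def k9_pp_022 : ∃ t, chk3 f_pp_022 t 17 9 3 = true :=
  ⟨(c (b (b (a (a (c (l 16389104) (l 16496936)) (b (c (b (l 16332504) (l 16396584)) (l 16322888)) (l 16391552))) (b (a (c (l 16272008) (b (a (l 16286864) (l 16234368)) (l 16282136))) (c (l 16182600) (l 16123856))) (a (c (l 16310464) (l 16363024)) (c (l 16250464) (a (l 16286824) (l 16235544)))))) (a (l 16483400) (a (l 16345352) (c (l 16205072) (l 16316256))))) (a (b (l 16400664) (l 16262552)) (b (l 16388824) (l 16362856)))) (a (b (b (c (l 16344400) (a (l 16431688) (l 16317296))) (l 16417992)) (b (c (l 16399696) (l 16357120)) (a (l 16275528) (l 16305296)))) (b (b (a (c (b (c (l 16207024) (l 16292208)) (l 16366128)) (c (l 16327920) (l 16262664))) (c (b (a (c (l 16171216) (l 16156024)) (b (l 16147472) (l 16141728))) (c (l 16269248) (l 16270512))) (b (c (a (l 16199568) (b (c (l 16149088) (l 16151096)) (l 16190088))) (a (l 16216400) (c (c (l 16151896) (l 16173072)) (l 16172872)))) (l 16164352)))) (c (l 16341504)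 (a (l 16427136) (l 16334568)))) (b (c (l 16427744) (l 16383712)) (c (l 16382448) (l 16342176)))))), by decide +kernel⟩

def k10_pp_022 : ∃ t, chk3 f_pp_022 t 16 10 2 = true :=
  ⟨(a (b (a (b (a (c (a (b (l 15702280) (l 15597744)) (l 15691160)) (l 15655256)) (c (l 15752448) (l 15737472))) (b (a (c (l 15515952) (l 15498816)) (l 15589280)) (a (c (b (l 15454800) (l 15476328)) (l 15447536)) (c (l 15547832) (l 15529664))))) (b (c (a (l 15704272) (l 15891360)) (l 15743192)) (b (c (l 15704080) (l 15669216)) (c (b (l 15642864) (l 15664480)) (l 15618040))))) (c (a (a (b (l 15543928) (l 15648160)) (l 15679552)) (b (l 15732616) (l 15837224))) (a (a (l 15580312) (l 15663328)) (l 15709960)))) (b (b (c (a (l 15859184) (l 16049288)) (l 15852872)) (b (c (l 15799352) (l 15790064)) (c (a (l 15752640) (l 15828176)) (l 15737568)))) (c (b (l 15847520) (l 15973112)) (l 15724688)))), by decide +kernel⟩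

def k11_pp_022 : ∃ t, chk3 f_pp_022 t 32 10 3 = true :=
  ⟨(c (a (b (a (b (a (l 15619536) (l 15661848)) (b (l 15480008) (a (l 15408472) (l 15450728)))) (b (l 15711432) (b (l 15552464) (l 15500440)))) (a (a (l 15543392) (l 15586256)) (l 15636112))) (b (b (l 15781600) (b (l 15621384) (l 15569424))) (l 15705304))) (b (a (c (a (b (a (l 15607464) (l 15644456)) (b (a (l 15446704) (l 15483624)) (a (l 15393960) (l 15430936)))) (b (l 15680008) (b (l 15519272) (l 15466640)))) (a (c (b (a (a (l 15591560) (l 15610272)) (l 15628336)) (a (b (l 15437512) (a (l 15376776) (l 15395456))) (b (l 15466616) (l 15413616)))) (b (a (c (a (l 15587440) (l 15602112)) (a (c (l 15521704) (c (l 15562144) (l 15582344))) (l 15577336))) (c (l 15618808) (l 15616752))) (b (a (c (a (l 15425224) (l 15439888)) (a (c (l 15422128) (l 15420208)) (l 15435736))) (l 15374416)) (a (c (a (l 15372000) (l 15386696)) (b (a (c (l 15357520) (b (l 15354736) (l 15356264))) (l 15371096)) (c (l 15386000) (l 15384144)))) (c (l 15403480) (l 15400904))))))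 (b (c (l 15661288) (l 15636160)) (b (c (l 15499664) (l 15494768)) (c (l 15446728) (l 15441536)))))) (c (b (l 15682624) (b (l 15583576) (l 15531024))) (b (c (l 15734840) (l 15648376)) (b (l 15573616) (c (l 15519144) (l 15515384)))))) (a (c (a (a (l 15488448) (l 15567920)) (l 15603768)) (a (c (a (a (l 15514080) (l 15533112)) (l 15551344)) (c (a (a (l 15509760) (l 15524712)) (l 15541576)) (a (a (a (b (l 15447504) (l 15557080)) (l 15406056)) (l 15520608)) (l 15539112)))) (c (l 15584600) (l 15558720)))) (c (l 15584488) (c (l 15657216) (l 15632664)))))), by decide +kernel⟩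

def k12_pp_022 : ∃ t, chk3 f_pp_022 t 33 10 3 = true :=
  ⟨(b (c (b (a (l 15865920) (l 15956776)) (b (l 15681368) (a (l 15648264) (l 15729232)))) (b (c (l 15874048) (a (l 15774848) (l 15940624))) (b (c (l 15723088) (l 15716944)) (c (l 15669232) (l 15620592))))) (c (a (l 15763232) (l 15865064)) (c (l 15764680) (b (l 15745024) (l 15854512))))), by decide +kernel⟩

def k13_pp_022 : ∃ t, chk3 f_pp_022 t 16 11 2 = true :=
  ⟨(a (b (a (a (c (b (l 15746824) (l 15839792)) (l 15780688)) (c (l 15856264) (l 15864104))) (c (b (l 15936264) (l 16029600)) (l 15890112))) (a (b (a (c (b (l 15871576) (l 15822728)) (l 15835144)) (c (l 15928592) (l 15916320))) (a (l 15796352) (l 15856560))) (b (c (b (l 16061432) (l 16009280)) (l 16005472)) (c (l 15949016) (l 15917848))))) (b (c (a (l 16040808) (l 16157904)) (l 16009792)) (c (b (a (l 16134320) (l 16209232)) (l 16068208)) (b (l 16125176) (l 16020688))))), by decide +kernel⟩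

def k14_pp_022 : ∃ t, chk3 f_pp_022 t 16 11 3 = true :=
  ⟨(a (c (a (b (a (a (l 15746776) (l 15789872)) (l 15839984)) (a (b (l 15758544) (l 15775616)) (b (l 15893016) (l 15825728)))) (b (l 15909552) (b (l 15962856) (l 15873792)))) (b (a (c (a (a (l 15736112) (l 15773872)) (l 15809992)) (a (c (a (a (l 15720912) (l 15740072)) (l 15758464)) (c (a (a (l 15717184) (l 15732264)) (l 15749280)) (a (a (c (l 15714584) (b (l 15663072) (l 15761256))) (l 15728456)) (l 15747008)))) (c (l 15791992) (l 15787504)))) (c (l 15833032) (c (l 15864984) (l 15861624)))) (a (c (a (b (a (l 15792088) (l 15827784)) (a (l 15752256) (l 15776280))) (b (l 15863672) (l 15795560))) (a (c (b (a (a (l 15777216) (l 15795032)) (l 15812696)) (a (l 15744792) (l 15760880))) (b (a (c (a (b (l 15798832) (l 15748424)) (l 15787392)) (a (b (c (l 15796256) (l 15794600)) (c (l 15745768) (l 15744048))) (b (l 15810120) (l 15757256)))) (c (l 15803680) (l 15801376))) (a (c (l 15739504) (c (l 15736672) (l 15735024))) (l 15753080)))) (b (c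 (l 15846000) (l 15841440)) (c (l 15777480) (l 15772456))))) (c (b (l 15928960) (a (l 15819520) (l 15850624))) (b (l 15794192) (b (l 15819000) (l 15769200))))))) (b (c (c (l 16037232) (l 16021544)) (c (l 16013312) (l 15924288))) (c (a (l 15904976) (l 16068256)) (c (l 15845528) (b (l 16062184) (l 15932672)))))), by decide +kernel⟩

def k15_pp_022 : ∃ t, chk3 f_pp_022 t 17 5 1 = true :=
  ⟨(b (c (b (a (b (c (l 16141936) (l 16018336)) (b (c (l 15989408) (l 15947200)) (c (l 15929320) (l 15844304)))) (b (c (a (l 16273392) (b (l 16403312) (l 16292696))) (l 16232040)) (c (b (l 16140400) (l 15951000)) (b (l 16122576) (l 16058048))))) (a (c (b (l 16002408) (l 16105568)) (b (l 15939464) (l 16065200))) (c (a (b (l 16099008) (l 16196080)) (b (l 16172984) (l 16261712))) (b (l 16120936) (l 16214824))))) (b (a (b (c (l 16104584) (l 15991520)) (c (b (l 15926040) (l 15864192)) (b (l 15915352) (l 15852640)))) (c (b (l 16185144) (b (l 16115096) (l 16049600))) (b (c (l 16223368) (l 16182240)) (b (l 15982104)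 (c (l 16042592) (l 16043072)))))) (a (c (l 15993480) (l 15774088)) (c (b (l 16113336) (l 16208560)) (c (c (l 16158832) (l 16093848)) (l 16033264)))))) (c (b (a (c (l 16188272) (c (l 16176416) (l 16204488))) (c (a (l 16256528) (l 16256888)) (l 16255152))) (a (c (b (l 16301744) (l 16196992)) (b (l 16222824) (l 16158392))) (c (c (b (l 16364064) (l 16321392)) (l 16216488)) (l 16250280)))) (b (a (c (l 16196040) (l 16147600)) (c (l 16167200) (a (l 16294128) (l 16248640)))) (a (c (l 16193888) (l 16103664)) (c (l 16162248) (c (l 16225744) (l 16345816))))))), by decide +kernel⟩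

def k16_pp_022 : ∃ t, chk3 f_pp_022 t 36 4 1 = true :=
  ⟨(b (b (l 1) (b (l 1) (a (b (l 1) (c (l 16118712) (c (l 16110040) (c (l 16104624) (c (l 16101912) (l 16097160)))))) (l 1)))) (c (b (b (c (l 16162168) (l 16156000)) (c (l 16263136) (a (b (l 16246152) (l 16317520)) (l 16250648)))) (b (c (b (l 16308952) (l 16321448)) (b (a (l 16313280) (l 16347888)) (a (c (l 16472544) (l 16507872)) (l 16363752)))) (c (a (l 16417976) (l 16351048)) (a (l 16505112) (l 16438544))))) (b (c (b (a (b (l 16133504) (c (l 16187608) (l 16191904))) (l 16140408)) (a (c (b (l 16255496) (l 16336368)) (b (l 16226288) (l 16347048))) (c (l 16256200) (b (l 16223320) (l 16299200))))) (b (c (a (b (l 16089768) (c (l 16174752) (a (l 16211032) (l 16186496)))) (l 16138400)) (a (b (b (c (l 16114840) (c (c (l 16113680) (l 16114208)) (l 16093704))) (c (a (l 16153488) (l 16135920)) (a (c (l 16152544) (l 16156032)) (l 16070216)))) (c (a (l 16213136) (c (l 16189232) (l 16191224))) (a (l 16207320) (l 16192840)))) (b (l 206727350823)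 (c (c (l 16163680) (l 16164112)) (l 16166112))))) (c (a (b (l 16255352) (l 16350208)) (b (c (l 16227368) (l 16231688)) (l 16307600))) (a (l 16245272) (c (b (c (l 16234576) (l 16234888)) (l 16302688)) (l 16275136)))))) (b (c (b (c (l 16309528) (l 16379048)) (c (l 16448648) (l 16493792))) (c (l 16363248) (l 16294064))) (c (l 16504624) (a (l 16416288) (l 16430864))))))), by decide +kernel⟩

def k17_pp_022 : ∃ t, chk3 f_pp_022 t 37 4 1 = true :=
  ⟨(b (l 1) (c (b (c (l 16155320) (l 33318044023)) (b (c (b (l 16295656) (l 16369136)) (b (l 16298000) (l 16278344))) (c (a (l 16367800) (l 16386120)) (a (l 16333936) (b (l 16419160) (l 16505784)))))) (b (c (b (l 16114376) (c (l 16217008) (l 16219720))) (b (c (l 16109312) (l 219075280503)) (c (a (b (l 16196560) (l 16241664)) (l 16205336)) (a (c (b (l 16129552) (l 16240792)) (l 16196512)) (b (l 16165856) (c (l 16180648) (l 16232976))))))) (c (b (c (b (l 16304264) (l 16314424)) (b (l 16186400) (l 16327480))) (c (l 16372144) (l 16481776))) (b (b (c (c (l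 16276504) (l 16176808)) (c (c (l 16260264) (l 16324696)) (l 16324760))) (c (a (l 16435872) (l 16291200)) (l 16341400))) (c (c (l 16566872) (l 16483056)) (l 16410376))))))), by decide +kernel⟩

def k18_pp_022 : ∃ t, chk3 f_pp_022 t 19 4 1 = true :=
  ⟨(b (l 1) (b (b (l 1) (a (a (a (c (l 16202536) (c (l 16194416) (c (l 16191472) (l 16177504)))) (l 1)) (l 1)) (l 1))) (c (a (c (b (a (l 16307416) (l 16314160)) (c (l 16376792) (l 16379672))) (b (a (l 16304104) (l 16310592)) (a (l 16330472) (l 16445616)))) (c (l 16224632) (l 16223120))) (c (a (b (a (c (l 16303384) (l 16286512)) (l 16307160)) (a (c (l 16367824) (l 16339776)) (c (l 16475088) (l 16379672)))) (c (l 16265040) (l 69288675895))) (a (b (a (c (c (l 16205144) (b (l 16266024) (a (l 16363952) (l 16300368)))) (b (l 16268784) (l 16339808))) (c (c (l 16305624) (l 16264480)) (l 2716670679))) (c (a (c (l 16427480) (l 16342256)) (c (l 16388224) (a (l 16391168) (l 16342928)))) (a (l 16511248) (l 16397344)))) (b (c (c (l 16333544) (c (l 16330888) (l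 16328616))) (l 16330120)) (c (c (l 16327968) (c (l 16347160) (l 16413920))) (a (l 16371776) (l 16480000))))))))), by decide +kernel⟩

def k19_pp_022 : ∃ t, chk3 f_pp_022 t 18 10 1 = true :=
  ⟨(c (b (b (c (a (b (l 16393936) (l 16353288)) (c (l 16282624) (l 16288272))) (a (l 16391760) (l 16231792))) (a (b (a (l 16230744) (l 16256232)) (c (l 16186328) (l 16179960))) (c (b (l 16285688) (l 16214136)) (b (l 16268680) (l 16224520))))) (c (a (b (l 16245152) (l 16325504)) (b (a (l 16291128) (l 16319000)) (l 16382224))) (a (b (l 16239584) (l 16321088)) (b (l 16297304) (l 16379096))))) (b (c (b (a (l 16326272) (l 16346216)) (a (b (l 16234040) (l 16173584)) (b (l 16265064) (l 16219200)))) (b (c (a (c (l 16387168) (l 16385672)) (l 16267432)) (a (l 16329776) (l 16407824))) (a (a (b (l 16199216) (l 16112320)) (b (l 16207624) (l 16087136))) (c (b (l 16248536) (c (l 16214600) (l 16217480))) (l 16235288))))) (a (c (c (l 16277664) (l 16275176)) (c (c (l 16272104) (l 16112456)) (l 16270192))) (c (c (l 16314480)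 (l 16269776)) (c (a (l 16183544) (b (l 16254480) (l 16362880))) (l 16329872)))))), by decide +kernel⟩

def k20_pp_022 : ∃ t, chk3 f_pp_022 t 19 10 1 = true :=
  ⟨(c (b (c (b (a (c (l 16341872) (l 16308384)) (l 16387888)) (a (b (a (l 16308896) (l 16306984)) (a (l 16255368) (l 16250072))) (b (l 16276264) (l 16225672)))) (b (a (a (l 16252152) (l 16265976)) (b (l 16447208) (l 16331464))) (a (b (a (l 16286728) (l 16277848)) (a (l 16234528) (l 16227632))) (b (l 16166832) (l 16114928))))) (c (a (b (a (l 16290512) (l 16324304)) (a (l 16420040) (l 16403024))) (b (c (l 16307248) (l 16292488)) (c (l 16356360) (l 16369416)))) (a (b (l 16253032) (a (l 16417856) (l 16417360))) (b (l 16215176) (l 16365464))))) (b (a (c (b (a (l 16276360) (l 16223272)) (c (l 16204408) (a (l 16251336) (l 16236480)))) (c (b (a (c (l 16419232) (l 16402264)) (c (l 16405976) (l 16409440))) (a (c (l 16249288) (l 16248496)) (c (l 16236120) (l 16233648)))) (b (l 16412608) (l 16239536)))) (c (b (c (b (l 16439200) (l 16337424)) (b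 (l 16430968) (l 16302656))) (c (b (l 16232704) (l 16182088)) (b (l 16221744) (l 16173688)))) (b (c (c (b (l 16425376) (l 16323040)) (l 16366208)) (l 16362336)) (c (c (l 16201416) (l 16196464)) (l 16194688))))) (a (c (b (a (l 16276640) (l 16260800)) (c (l 16394032) (a (l 16412792) (l 16412904)))) (c (c (a (b (l 16319632) (l 16417064)) (b (l 16307176) (l 16414216))) (l 16359400)) (l 16316384))) (c (c (l 16281704) (b (l 16265304) (c (l 16382584) (l 16387264)))) (b (c (l 16143920) (l 16263168)) (l 16382976)))))), by decide +kernel⟩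

def k21_pp_022 : ∃ t, chk3 f_pp_022 t 9 11 1 = true :=
  ⟨(a (c (b (c (a (b (l 16411160) (l 16500096)) (b (l 16455952) (l 16513368))) (a (l 16349328) (b (l 16453928) (l 16533576)))) (c (b (a (l 16502048) (l 16533600)) (l 16347664)) (b (a (l 16500416) (l 16532848)) (l 16302728)))) (b (c (c (a (l 16410448) (l 16452896)) (a (l 16409248) (c (l 16494328) (l 16429688)))) (c (a (b (l 16326944) (l 16421720)) (c (l 16391944) (l 16493304))) (l 16326920))) (c (c (a (l 16443320) (l 16475472)) (a (l 16419184) (c (l 16472904) (l 16475808)))) (c (a (c (l 16442824) (l 16440472)) (b (l 16488088) (l 16416936))) (l 16457720))))) (c (b (c (a (a (b (l 16490304) (l 16558088)) (l 16484560)) (b (a (l 16486920) (l 16478976)) (l 16486232))) (a (a (l 16440680) (l 16526232)) (b (l 16479136) (l 16485728)))) (c (a (b (a (l 16530128) (l 16522400)) (l 16372368)) (b (l 16427704) (l 16401600))) (a (a (l 16431024) (l 16443456)) (b (l 16448576) (l 16378640))))) (b (a (c (c (l 16400072) (a (c (l 16522576) (l 16524848)) (l 16464464)))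 (b (l 16489360) (l 16545896))) (c (c (l 16383808) (c (l 16451208) (l 16451672))) (l 16513000))) (c (a (c (a (l 16493112) (l 16481760)) (a (c (l 16492184) (l 16495656)) (l 16406336))) (c (b (l 16471736) (l 16397128)) (c (l 16445208) (l 16461296)))) (a (l 16488120) (l 16460720)))))), by decide +kernel⟩

def k22_pp_022 : ∃ t, chk3 f_pp_022 t 16 6 2 = true :=
  ⟨(a (b (a (b (a (l 15796024) (l 15853712)) (a (b (l 15796560) (l 15796648)) (l 15854256))) (c (l 15929080) (b (l 15897256) (l 15898096)))) (a (b (a (b (l 15796728) (l 15796816)) (l 15854816)) (a (l 15796520) (l 15855392))) (c (b (l 15930336) (l 15931160)) (b (l 15898944) (l 15899824))))) (b (b (c (b (l 16003544) (l 15988848)) (l 15949952)) (c (l 15989320) (l 15940704))) (c (l 15969312) (l 15941912)))), by decide +kernel⟩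

def k23_pp_022 : ∃ t, chk3 f_pp_022 t 16 6 3 = true :=
  ⟨(a (c (a (b (a (b (l 15754360) (a (l 15762648) (l 15792808))) (b (l 15822808) (l 15823376))) (a (b (a (l 15762736) (l 15793136)) (l 15775832)) (b (l 15823960) (l 15824560)))) (b (c (l 15866888) (l 15840984)) (b (l 15854784) (l 15855736)))) (a (a (a (b (c (b (l 15752080) (l 15752168)) (c (b (l 15744720) (l 15744800)) (c (a (b (l 15736680) (l 15736720)) (l 15743824)) (b (a (c (l 15734104) (l 15732456)) (l 15741072)) (c (l 15715872) (l 15714208)))))) (c (b (l 15752256) (l 15752344)) (b (c (l 15744888) (c (l 15739696) (a (b (l 15733520) (l 15733528)) (l 15741216)))) (c (l 15744976) (c (l 15739776) (c (l 15736488) (l 15735232))))))) (b (c (b (l 15776520) (l 15776848)) (c (b (l 15761128) (l 15761456)) (c (b (l 15751960) (l 15752296)) (l 15747984)))) (c (b (l 15777176) (l 15777520)) (b (c (l 15761800) (l 15753456)) (c (l 15762152) (l 15753592)))))) (b (c (b (l 15792624) (l 15793224)) (b (c (l 15774536) (l 15769240)) (c (l 15775152) (l 15769480))))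 (c (b (l 15793832) (l 15794456)) (c (b (l 15775776) (l 15776416)) (l 15770056))))) (b (c (b (l 15817752) (l 15818728)) (b (l 15807216) (l 15807592))) (c (b (l 15819720) (l 15820744)) (b (l 15807992) (l 15808416)))))) (c (b (b (a (l 15881424) (l 15857936)) (c (l 15903904) (l 15887240))) (c (l 15905296) (a (l 15870328) (l 15904272)))) (b (b (a (c (l 15857784) (l 15850640)) (b (l 15914936) (l 15894112))) (c (l 15880200) (l 15870080))) (b (a (l 15856920) (l 15894712)) (a (l 15857352) (l 15895072)))))), by decide +kernel⟩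

def k24_pp_022 : ∃ t, chk3 f_pp_022 t 16 7 1 = true :=
  ⟨(c (a (b (a (b (a (l 15796688) (l 15855976)) (a (l 15796864) (l 15856584))) (c (l 15932368) (l 15901112))) (a (c (l 15830936) (a (l 15790088) (l 15851032))) (c (l 15934160) (l 15903024)))) (b (c (l 15991704) (l 15943688)) (c (l 15993208) (l 15945584)))) (a (c (a (b (a (b (l 15776000) (l 15776176)) (c (l 15834720) (l 15818256))) (a (b (l 15776352) (l 15776528)) (c (l 15836016) (l 15819568)))) (b (c (l 15870616) (l 15844896)) (c (l 15872656) (l 15847040)))) (a (a (b (c (a (b (l 15752432) (l 15752528)) (l 15778392)) (c (a (b (l 15745064) (l 15745152)) (l 15763040)) (c (a (b (l 15739864) (l 15739952)) (l 15756216)) (a (a (b (l 15733584) (l 15733600)) (l 15739880)) (l 15750160))))) (c (a (b (l 15752616) (l 15752712)) (b (l 15778608) (l 15779000))) (b (c (a (l 15745240) (l 15763264)) (a (c (l 15740040) (c (l 15736480) (l 15735328))) (l 15754024))) (c (a (l 15745336) (l 15763664)) (c (a (a (l 15736976) (l 15746384)) (l 15756384)) (a (a (c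 (l 15734392) (l 15732544)) (l 15741600)) (l 15750408))))))) (b (c (l 15795664) (c (b (l 15777080) (l 15777760)) (l 15770632))) (c (b (l 15796448) (l 15797160)) (b (c (l 15778464) (l 15770904)) (c (l 15780144) (l 15771256)))))) (b (c (b (l 15821792) (l 15822872)) (b (l 15808864) (l 15809344))) (c (b (l 15823992) (c (l 15828496) (l 15819816))) (b (l 15809864) (l 15810432)))))) (c (b (c (l 15907352) (a (l 15872680) (l 15906064))) (c (l 15909536) (a (l 15875184) (l 15907976)))) (b (c (l 15839960) (l 15872408)) (a (c (l 15864128) (l 15853560)) (l 15896728)))))), by decide +kernel⟩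

def k25_pp_022 : ∃ t, chk3 f_pp_022 t 17 3 1 = true :=
  ⟨(b (c (b (a (b (c (b (l 16097264) (l 16034768)) (b (l 16057072) (l 15993608))) (c (l 16019968) (l 15978696))) (c (b (a (l 16133888) (l 16193000)) (l 16051496)) (b (l 16148432) (l 16032048)))) (c (a (l 16019048) (l 16037608)) (a (l 15978104) (l 16018088)))) (b (a (b (c (l 15968408) (b (l 16028704) (l 15963192))) (c (l 15957808) (l 15947944))) (b (c (l 16014184) (l 15951224)) (c (a (l 16002192) (l 16033616)) (c (l 16022528) (l 16010520))))) (a (c (l 15893488) (l 15947664)) (c (c (l 16010736) (l 16009944)) (c (l 16009936) (l 15996048)))))) (c (c (a (b (l 16017728) (l 16016328)) (b (l 16030672) (l 16023320))) (a (b (l 15977256) (l 15976344)) (b (l 16011288) (l 16004072)))) (a (b (c (l 15956096) (l 15947256)) (c (l 15955808) (l 15946760))) (c (b (c (l 16002352) (l 16007320)) (l 15918848)) (b (l 16002152) (l 15984120)))))), by decide +kernel⟩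

def k26_pp_022 : ∃ t, chk3 f_pp_022 t 9 6 1 = true :=
  ⟨(a (b (c (c (b (a (l 16240248) (l 16267072)) (a (l 16071416) (l 16073448))) (b (a (l 16234200) (l 16261808)) (a (l 16062424) (l 16064808)))) (c (b (c (l 16107216) (a (l 16225344) (l 16216528))) (a (c (l 16055680) (l 16051808)) (c (l 16055488) (l 15932504)))) (a (b (l 16111480) (b (l 16071176) (l 16008000))) (l 16147456)))) (b (c (c (l 15993496) (l 15941344)) (c (a (l 16007680) (c (l 15942368) (l 15966648))) (l 15962872))) (c (c (l 15978336) (l 15964008)) (c (c (l 15955704) (l 15898960)) (l 15947008))))) (b (c (c (a (b (l 16170152) (l 16076176)) (b (l 16237432) (l 16034272))) (a (b (a (l 16275600) (l 16264304)) (l 15939472)) (b (l 16060160) (c (l 16028048) (l 16020656))))) (c (a (c (a (b (l 16269096) (l 16068088)) (l 15947304)) (b (c (l 16162336) (l 16263808)) (l 16057784))) (c (b (l 16169744) (l 16027416)) (l 16119200))) (b (l 16242896) (l 16031512)))) (c (c (b (a (l 15913880) (l 15848824)) (a (l 15856784) (l 15737960))) (a (b (a (l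 15910800) (l 15877312)) (c (l 15847760) (l 15840928))) (b (c (l 15837056) (l 15836336)) (c (l 15723824) (l 15727864))))) (c (c (a (b (a (l 15910224) (l 15880560)) (l 15842736)) (b (l 15833768) (l 15714272))) (b (l 15861464) (l 15771144))) (b (l 15643336) (l 15761584)))))), by decide +kernel⟩

def k27_pp_022 : ∃ t, chk3 f_pp_022 t 9 7 1 = true :=
  ⟨(a (c (c (b (l 15964848) (l 15945352)) (b (c (l 15956880) (l 15920088)) (a (l 15971024) (l 15849656)))) (c (a (b (c (l 15983608) (l 16001192)) (l 15844728)) (c (b (l 15913112) (l 15922432)) (l 15888240))) (b (l 15932984) (l 15912728)))) (c (b (c (a (l 15832464) (l 15543672)) (a (c (l 15819096) (l 15781512)) (c (l 15693344) (l 15690560)))) (c (a (c (l 15801264) (l 15789816)) (l 15486824)) (c (a (l 15793272) (l 15652360)) (a (l 15789512) (l 15637208))))) (b (a (l 15801584) (l 15664304)) (c (l 15700520) (l 15686800))))), by decide +kernel⟩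

def k28_pp_022 : ∃ t, chk3 f_pp_022 t 10 4 1 = true :=
  ⟨(a (b (l 1) (a (a (b (l 1) (b (l 1) (c (l 16408776) (c (l 16513616) (c (l 16324392) (l 16513600)))))) (l 1)) (l 1))) (l 1)), by decide +kernel⟩

def k29_pp_022 : ∃ t, chk3 f_pp_022 t 40 5 1 = true :=
  ⟨(b (c (b (b (c (l 16329672) (l 16305856)) (c (b (l 16208800) (l 16175136)) (b (l 16199744) (l 16157952)))) (c (b (l 16176232) (b (l 16295888) (l 16381192))) (b (c (l 16221096) (l 16227872)) (c (l 16343320) (l 16336680))))) (b (c (c (b (l 16323648) (b (l 16189656) (l 16141696))) (b (c (l 16320904) (l 16274416)) (b (c (l 16183432) (l 16178792)) (c (l 16129984) (l 16127936))))) (b (c (c (b (l 16368136) (l 16275104)) (l 16270400)) (b (l 16358408) (l 16261928))) (b (l 16164264) (l 16117272)))) (c (c (b (l 16220728) (l 16329560)) (c (l 16127552) (l 16153432))) (l 16271168)))) (c (b (c (b (c (l 16449552) (l 16442664)) (a (l 16443144) (l 16415192))) (b (l 16439856) (l 16432984))) (c (b (l 16396240) (l 16346776)) (c (l 16412584) (l 16324704))))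 (b (c (c (b (l 16436352) (l 16391664)) (c (l 16328624) (l 16479616))) (l 16458640)) (c (c (b (l 16352112) (l 16369632)) (l 16432352)) (l 16431752))))), by decide +kernel⟩

def k30_pp_022 : ∃ t, chk3 f_pp_022 t 41 5 1 = true :=
  ⟨(a (b (c (b (b (l 16156888) (c (l 16150288) (l 16145064))) (c (b (l 16241352) (l 16352928)) (b (l 16225928) (l 16267704)))) (b (c (c (l 16061784) (b (l 16276056) (b (l 16154560) (l 16119696)))) (b (l 16275320) (b (l 16144688) (l 16102232)))) (c (c (b (l 16210192) (l 16293088)) (b (c (l 16202832) (l 16196328)) (l 16277024))) (b (l 16188912) (l 16311248))))) (c (b (b (c (l 16399888) (l 16427584)) (c (l 16306416) (l 16385192))) (c (l 16276480) (c (l 16423144) (l 16293664)))) (b (c (c (l 16207776) (l 16439096)) (l 16438880)) (c (c (c (l 16383888) (l 16443896)) (l 16443824)) (l 16443688))))) (b (b (b (l 1) (c (c (b (l 16200832) (l 16173608)) (a (l 16110704) (l 16213328))) (c (c (l 16054144) (a (a (l 16033064) (l 16160880)) (l 16211928))) (b (l 16188920) (l 16155048)))))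 (c (c (b (l 16201456) (l 16268752)) (b (a (l 16205024) (l 16311944)) (a (l 16193656) (l 16433240)))) (c (c (b (a (l 16193448) (l 16304032)) (a (l 16195336) (l 16417432))) (b (c (a (l 16127216) (l 16303240)) (l 16259872)) (l 16375144))) (a (l 16122384) (l 16152408))))) (c (b (c (b (a (l 16267688) (l 16309280)) (a (a (l 16346352) (l 16315000)) (l 16252320))) (a (c (l 16199288) (l 16268064)) (b (l 16361184) (l 16268048)))) (c (a (a (l 16317592) (l 16304464)) (l 16090552)) (a (a (c (l 16401168) (l 16318856)) (l 16160184)) (c (l 16282632) (l 16198552))))) (b (c (c (a (a (l 16303304) (l 16355704)) (l 16231112)) (l 16334344)) (l 16333248)) (c (c (a (a (l 16250472) (l 16320672)) (l 16215000)) (l 16280160)) (l 16258168)))))), by decide +kernel⟩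

def k31_pp_022 : ∃ t, chk3 f_pp_022 t 21 5 1 = true :=
  ⟨(a (b (b (b (l 1) (b (l 1) (c (l 16112120) (c (c (l 16360496) (l 16260896)) (l 16360944))))) (c (c (b (l 16262896) (l 16066512)) (b (l 16241648) (c (l 16092160) (l 16079040)))) (c (b (c (l 16202296) (a (l 16326584) (l 16307392))) (c (c (l 16043504) (l 16003392)) (l 16034640))) (b (a (l 16313728) (l 16249928)) (a (l 16364232) (l 16121280)))))) (b (c (c (b (a (l 16139584) (l 16026928)) (c (l 15819408) (l 15896656))) (b (a (c (l 16200344) (l 16215072)) (c (l 16041648) (l 16058704))) (c (l 15968304) (l 15932624)))) (c (c (a (c (l 16106080) (l 16146560)) (b (l 16041224) (l 15973072))) (l 15981088)) (l 16039992))) (c (c (b (c (l 15817616) (l 15907688)) (a (l 16242352) (l 16086600))) (c (a (l 16115880) (l 15918616)) (b (l 15945608) (l 16025752)))) (b (l 15916816) (a (l 16234504) (l 16077920)))))) (b (b (l 1) (c (c (l 15744968) (b (l 16047384) (l 15791016))) (c (c (b (l 16021672) (l 15845152)) (l 15841784)) (b (l 16057960) (a (l 15980376)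 (l 15823624)))))) (b (c (c (b (l 15700608) (c (l 15573864) (l 15583080))) (b (c (l 15783968) (l 15621496)) (c (a (l 15784984) (l 15602640)) (a (l 15796176) (l 15613608))))) (c (b (c (a (l 15857512) (l 15698880)) (l 15737000)) (l 15629592)) (b (l 15682520) (l 15706496)))) (c (c (b (c (a (l 15766728) (l 15605592)) (a (l 15797904) (l 15618584))) (c (l 15732888) (l 15821208))) (c (b (l 15464944) (l 15846208)) (b (l 15568208) (l 15832824)))) (c (l 15735792) (l 15760384)))))), by decide +kernel⟩

def k32_pp_022 : ∃ t, chk3 f_pp_022 t 11 2 1 = true :=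
  ⟨(b (l 1) (a (a (b (b (l 1) (b (l 1) (b (l 1) (c (c (l 15567448) (l 15555832)) (l 15535296))))) (c (b (c (b (l 15466976) (a (l 15425016) (l 15263296))) (b (c (l 15456296) (l 15448256)) (c (l 15299904) (a (l 15424608) (l 15246944))))) (c (b (c (a (l 15426200) (l 15250464)) (a (l 15433464) (l 15251720))) (c (l 15229360) (l 15282016))) (c (b (a (l 15423216) (l 15258272)) (l 15368440)) (b (a (l 15451376) (l 15267704)) (l 15495296))))) (b (c (b (l 15444464) (a (l 15436144) (l 15249736))) (b (l 15252064) (l 15328616))) (c (b (l 15217080) (l 15490992)) (l 15411544))))) (b (l 1) (c (b (c (b (l 15141864) (l 14918888)) (c (l 14835656) (l 14824672))) (c (b (c (a (l 15083984) (l 14922456)) (l 14787904)) (c (l 15056168) (l 14893168))) (c (b (a (l 15074392) (l 14901712)) (a (l 15218560) (l 15030752))) (b (l 14990360) (l 15136432))))) (b (c (l 14899536) (b (l 15082872) (l 14892112))) (c (b (a (l 15081992) (l 14892472)) (l 15133136)) (b (l 14946312) (l 15116944))))))) (b (l 1) (a (b (b (l 1) (a (c (a (a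 (c (l 14841488) (l 14816632)) (l 1)) (l 1)) (l 14757048)) (l 1))) (c (a (a (c (a (b (c (l 14803464) (l 14811656)) (l 14917088)) (l 14849872)) (b (c (l 14790136) (l 14777992)) (l 14903120))) (c (l 14831448) (l 14815000))) (c (l 14795584) (l 14774712))) (c (b (l 14727880) (a (l 14887736) (l 14813128))) (b (a (l 14740440) (l 14677080)) (l 14848792))))) (b (l 1) (c (c (l 14726368) (l 14699864)) (c (l 14678976) (l 14514304)))))))), by decide +kernel⟩

def k33_pp_022 : ∃ t, chk3 f_pp_022 t 10 6 1 = true :=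
  ⟨(a (a (c (b (c (b (l 16192520) (l 15984264)) (c (b (l 16188800) (l 15973344)) (b (l 16099560) (l 15977408)))) (c (b (l 15793480) (c (l 15640536) (l 15627840))) (c (b (l 15781864) (l 15629992)) (b (l 15786640) (l 15618528))))) (b (b (c (c (l 15982560) (l 16181368)) (l 16177656)) (l 15962944)) (b (l 15763800) (l 15600192)))) (b (c (a (c (b (l 16193600) (l 15983728)) (c (b (l 16189504) (l 15974440)) (b (l 16126720) (l 15979376)))) (c (b (b (l 16271232) (l 16176344)) (l 16004032)) (b (c (b (l 16332600) (l 16149680)) (a (a (l 16196992) (l 16251016)) (l 16315744))) (c (l 15851968) (a (l 16021424) (l 16097800)))))) (a (b (l 16098272) (l 15963216)) (b (c (l 16270120) (l 16267008)) (l 16049880)))) (c (a (c (b (l 15788832) (l 15614976)) (c (l 15512360) (l 15688920))) (c (b (l 15687072) (c (l 15713192) (l 15710648))) (c (b (l 15814912) (l 15702344)) (l 15779952)))) (a (b (l 15764728) (l 15584448)) (b (l 15855720) (l 15679160)))))) (b (c (a (c (b (c (l 16203816) (l 16203224)) (a (l 16224496) (l 16385896)))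 (b (c (a (l 16375176) (l 16203472)) (c (l 16179240) (l 16285776))) (c (l 16205608) (l 16305784)))) (c (b (c (l 15836928) (l 15844000)) (b (l 16108576) (l 16278544))) (c (b (l 15795480) (l 16124440)) (b (l 15982184) (l 16271736))))) (a (b (c (l 16222120) (l 16262880)) (l 16155272)) (b (l 15784752) (l 16079600)))) (c (a (c (b (l 15956096) (l 15795336)) (c (b (l 16125120) (l 15953336)) (l 16031432))) (c (a (b (l 16370600) (l 16212224)) (l 16200288)) (l 16217840))) (a (b (l 16110280) (l 15936488)) (b (l 16384008) (l 16277624)))))), by decide +kernel⟩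

def k34_pp_022 : ∃ t, chk3 f_pp_022 t 10 7 1 = true :=
  ⟨(b (a (a (c (c (c (l 15557760) (l 15558880)) (c (l 15559064) (l 15541864))) (l 15522000)) (c (c (c (a (l 15514232) (b (l 15599392) (l 15576000))) (a (l 15516032) (b (l 15576592) (l 15564552)))) (a (l 15496992) (l 15567656))) (a (l 15472224) (b (l 15558824) (l 15529000))))) (a (c (c (b (c (l 15832376) (l 15823448)) (l 15782896)) (l 15602616)) (b (l 15796024) (l 15743320))) (b (c (c (l 15981896) (l 16137768)) (l 16126296)) (c (l 16056840) (l 16038224))))) (a (c (a (c (c (l 15514560) (l 15512544)) (l 15490920)) (c (c (a (l 15471760) (l 15542792)) (l 15493216)) (l 15480672))) (a (l 15466024) (a (l 15417208) (l 15495056)))) (c (c (l 15723176) (l 15879368)) (c (l 15867776) (l 15856192))))), by decide +kernel⟩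

def k35_pp_022 : ∃ t, chk3 f_pp_022 t 11 3 1 = true :=
  ⟨(b (a (b (c (a (b (c (c (b (l 15608448) (l 15789360)) (b (l 15611792) (l 15772472))) (b (c (l 15632336) (l 15621136)) (l 15763968))) (c (a (l 16076184) (l 15925088)) (l 15982248))) (b (c (b (c (l 15057064) (l 15106520)) (a (l 15506008) (l 15330552))) (b (l 15276064) (l 15413656))) (c (a (l 15746704) (l 15521360)) (l 15645664)))) (b (a (l 15490792) (l 15308056)) (a (l 15885808) (l 15582664)))) (c (a (c (b (l 16076256) (l 16393216)) (b (l 16241472) (l 16519528))) (b (c (l 15871024) (l 15966704)) (l 16178208))) (a (b (l 16150872) (l 16476208)) (b (l 15951920) (l 16228528))))) (b (c (c (b (c (a (a (b (l 14982728) (l 15122176)) (l 15032784)) (l 14937192)) (a (b (a (l 14944640) (l 14951800)) (l 15150104)) (l 14935568))) (a (a (b (a (l 15358736) (l 15316072)) (l 15500080)) (l 15345936)) (l 15205568))) (b (a (b (a (l 15037872) (l 14959608)) (l 15150032)) (b (l 14858336) (l 15001952))) (a (l 15346040) (l 15225112)))) (b (a (c (l 14884616)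 (l 15048600)) (c (b (l 14852888) (l 14999960)) (l 14924448))) (a (l 15343768) (l 15201264)))) (c (a (b (l 15624040) (l 16012696)) (b (l 15516496) (l 15866568))) (b (a (l 15680160) (l 15505960)) (l 15727904))))) (a (b (c (a (b (l 16408352) (l 16214144)) (a (l 16422264) (l 16325920))) (a (b (l 16466008) (l 16329664)) (b (l 16477784) (l 16614688)))) (c (a (l 16297888) (b (l 16552656) (l 16607120))) (a (l 16306960) (l 16523576)))) (b (c (a (b (l 16275504) (l 16457200)) (l 16212104)) (b (l 16112776) (l 16326328))) (c (b (a (l 16594416) (l 16634544)) (a (l 16776280) (l 16766424))) (b (l 16459000) (l 16769160)))))), by decide +kernel⟩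

def k36_pp_022 : ∃ t, chk3 f_pp_022 t 3 2 1 = true :=
  ⟨(b (l 1) (b (l 1) (a (a (a (a (b (l 1) (c (l 183638878487) (l 14563376))) (l 1)) (l 1)) (l 1)) (l 1)))), by decide +kernel⟩

def k37_pp_022 : ∃ t, chk3 f_pp_022 t 6 3 1 = true :=
  ⟨(b (a (b (c (c (a (b (l 14775992) (a (l 15076792) (l 14939440))) (l 14683024)) (a (b (l 14760536) (a (l 15082824) (l 14935056))) (l 14665400))) (a (b (c (a (l 14733816) (l 14678656)) (a (l 14765896) (l 14660784))) (a (l 15070688) (b (l 14851872) (l 14981024)))) (b (l 14514352) (c (l 14640744) (a (l 14786872) (l 14660784)))))) (c (a (b (c (l 15102232) (l 15312392)) (a (l 15707320) (l 15516496))) (b (c (l 15014824) (l 14804104)) (a (l 15375888) (l 15227696)))) (a (b (l 15276544) (l 15591368)) (b (c (l 14843216) (l 14998360)) (l 15276544))))) (c (b (l 238935806871) (a (b (l 14772616) (a (l 15081056) (l 14940856))) (l 14678560))) (b (a (l 14289760) (l 1)) (a (b (c (l 14745600) (a (l 14786872) (l 14660784))) (a (l 15070688) (l 14891304))) (b (l 14514352) (c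 (l 14745600) (l 14543360))))))) (a (b (c (a (b (l 15938152) (l 16211104)) (b (l 15422704) (l 15938152))) (a (l 15868880) (l 15496336))) (a (c (b (l 16460160) (l 16671272)) (b (l 16451920) (l 16668520))) (c (l 16212000) (l 16221552)))) (a (b (b (c (a (l 15375888) (l 15227696)) (l 15276544)) (a (l 15693424) (l 15401624))) (c (l 15866128) (l 15847904))) (b (c (b (l 14807712) (l 15078800)) (b (a (l 15070688) (l 14933248)) (l 15276544))) (b (c (l 15590480) (l 15591368)) (l 15927256)))))), by decide +kernel⟩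

def k38_pp_022 : ∃ t, chk3 f_pp_022 t 7 3 1 = true :=
  ⟨(b (a (a (b (l 1) (c (l 14475376) (l 14415584))) (l 1)) (l 1)) (b (a (c (a (b (l 14772616) (a (l 15081056) (l 14940856))) (l 14678560)) (a (b (c (l 14745600) (l 14543360)) (a (l 15070688) (l 14933248))) (b (l 14514352) (b (l 14673032) (l 14795600))))) (c (l 14377176) (l 14209976))) (a (c (b (a (l 15246568) (l 14996456)) (a (l 15590480) (l 15309480))) (b (a (l 15276544) (l 14884832)) (a (l 15591368) (l 15276544)))) (c (b (l 14678560) (a (l 15017424) (l 14772616))) (b (a (l 14532880) (l 14514352)) (a (l 14989688) (l 14721624))))))), by decide +kernel⟩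

theorem s39_pp_022 : ∃ t, chk3 f_pp_022 t 3 3 1 = true := ex3_a k37_pp_022 k38_pp_022

theorem s40_pp_022 : ∃ t, chk3 f_pp_022 t 3 1 1 = true := ex3_b k36_pp_022 s39_pp_022

theorem s41_pp_022 : ∃ t, chk3 f_pp_022 t 10 3 1 = true := ex3_b k33_pp_022 k34_pp_022

theorem s42_pp_022 : ∃ t, chk3 f_pp_022 t 5 3 1 = true := ex3_a s41_pp_022 k35_pp_022

theorem s43_pp_022 : ∃ t, chk3 f_pp_022 t 20 5 1 = true := ex3_a k29_pp_022 k30_pp_022

theorem s44_pp_022 : ∃ t, chk3 f_pp_022 t 10 5 1 = true := ex3_a s43_pp_022 k31_pp_022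

theorem s45_pp_022 : ∃ t, chk3 f_pp_022 t 10 2 1 = true := ex3_b k28_pp_022 s44_pp_022

theorem s46_pp_022 : ∃ t, chk3 f_pp_022 t 5 2 1 = true := ex3_a s45_pp_022 k32_pp_022

theorem s47_pp_022 : ∃ t, chk3 f_pp_022 t 5 1 1 = true := ex3_b s46_pp_022 s42_pp_022

theorem s48_pp_022 : ∃ t, chk3 f_pp_022 t 9 3 1 = true := ex3_b k26_pp_022 k27_pp_022

theorem s49_pp_022 : ∃ t, chk3 f_pp_022 t 16 6 1 = true := ex3_c k22_pp_022 k23_pp_022

theorem s50_pp_022 : ∃ t, chk3 f_pp_022 t 16 3 1 = true := ex3_b s49_pp_022 k24_pp_022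

theorem s51_pp_022 : ∃ t, chk3 f_pp_022 t 8 3 1 = true := ex3_a s50_pp_022 k25_pp_022

theorem s52_pp_022 : ∃ t, chk3 f_pp_022 t 4 3 1 = true := ex3_a s51_pp_022 s48_pp_022

theorem s53_pp_022 : ∃ t, chk3 f_pp_022 t 9 10 1 = true := ex3_a k19_pp_022 k20_pp_022

theorem s54_pp_022 : ∃ t, chk3 f_pp_022 t 9 5 1 = true := ex3_b s53_pp_022 k21_pp_022

theorem s55_pp_022 : ∃ t, chk3 f_pp_022 t 18 4 1 = true := ex3_a k16_pp_022 k17_pp_022

theorem s56_pp_022 : ∃ t, chk3 f_pp_022 t 9 4 1 = true := ex3_a s55_pp_022 k18_pp_022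

theorem s57_pp_022 : ∃ t, chk3 f_pp_022 t 9 2 1 = true := ex3_b s56_pp_022 s54_pp_022

theorem s58_pp_022 : ∃ t, chk3 f_pp_022 t 16 11 1 = true := ex3_c k13_pp_022 k14_pp_022

theorem s59_pp_022 : ∃ t, chk3 f_pp_022 t 16 10 3 = true := ex3_a k11_pp_022 k12_pp_022

theorem s60_pp_022 : ∃ t, chk3 f_pp_022 t 16 10 1 = true := ex3_c k10_pp_022 s59_pp_022

theorem s61_pp_022 : ∃ t, chk3 f_pp_022 t 16 5 1 = true := ex3_b s60_pp_022 s58_pp_022

theorem s62_pp_022 : ∃ t, chk3 f_pp_022 t 8 5 1 = true := ex3_a s61_pp_022 k15_pp_022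

theorem s63_pp_022 : ∃ t, chk3 f_pp_022 t 17 9 1 = true := ex3_c k8_pp_022 k9_pp_022

theorem s64_pp_022 : ∃ t, chk3 f_pp_022 t 17 4 1 = true := ex3_b k7_pp_022 s63_pp_022

theorem s65_pp_022 : ∃ t, chk3 f_pp_022 t 16 19 15 = true := ex3_a k5_pp_022 k6_pp_022

theorem s66_pp_022 : ∃ t, chk3 f_pp_022 t 16 9 15 = true := ex3_b k4_pp_022 s65_pp_022

theorem s67_pp_022 : ∃ t, chk3 f_pp_022 t 16 9 7 = true := ex3_c k3_pp_022 s66_pp_022

theorem s68_pp_022 : ∃ t, chk3 f_pp_022 t 16 9 3 = true := ex3_c k2_pp_022 s67_pp_022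

theorem s69_pp_022 : ∃ t, chk3 f_pp_022 t 16 9 1 = true := ex3_c k1_pp_022 s68_pp_022

theorem s70_pp_022 : ∃ t, chk3 f_pp_022 t 16 4 1 = true := ex3_b k0_pp_022 s69_pp_022

theorem s71_pp_022 : ∃ t, chk3 f_pp_022 t 8 4 1 = true := ex3_a s70_pp_022 s64_pp_022

theorem s72_pp_022 : ∃ t, chk3 f_pp_022 t 8 2 1 = true := ex3_b s71_pp_022 s62_pp_022

theorem s73_pp_022 : ∃ t, chk3 f_pp_022 t 4 2 1 = true := ex3_a s72_pp_022 s57_pp_022

theorem s74_pp_022 : ∃ t, chk3 f_pp_022 t 4 1 1 = true := ex3_b s73_pp_022 s52_pp_022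

theorem s75_pp_022 : ∃ t, chk3 f_pp_022 t 2 1 1 = true := ex3_a s74_pp_022 s47_pp_022

theorem s76_pp_022 : ∃ t, chk3 f_pp_022 t 1 1 1 = true := ex3_a s75_pp_022 s40_pp_022

theorem c_pp_022 : CertFX 0 536870912 1073741824 536870912 1046898278 26843546 false true true .pp 0 2 2
    ndF0q0 ndF3q2 pcF2 cut_pp_022 Ext.none :=
  certFX2 (fam := false) (s1 := true) (s2 := true) (a := 0) (b := 2) (c := 2) (cn := .pp) (n1 := ndF0q0) (n2 := ndF3q2) (pc := pcF2) (cut := cut_pp_022) (xt := Ext.none) (P1 := 0) (W1 := 536870912) (P2 := 1073741824) (W2 := 536870912) (P3 := 1046898278) (W3 := 26843546)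
    rfl (fun _ => rfl) s76_pp_022

noncomputable def f_pp_023 : ℕ → ℕ → ℕ → ℕ → Bool := onCell 0 536870912 1073741824 536870912 1046898278 26843546
    (rowFX 1 false true true .up 0 2 3 (qsf 0 536870912 1610612736 536870912 2) ndF0q0 ndF3q3 pcF2 Cut.none Ext.none)

def k0_pp_023 : ∃ t, chk3 f_pp_023 t 1 4 1 = true :=
  ⟨(a (l 1) (a (a (l 1) (a (l 1) (b (l 1) (b (l 1) (b (l 1) (c (c (l 15649456) (l 15633912)) (l 15611784))))))) (a (b (b (l 1) (a (l 1) (a (l 1) (b (l 1) (c (l 524017616663) (l 575020420663)))))) (b (c (c (l 60697732279) (b (l 15968432) (c (l 15877176) (l 15878768)))) (c (b (l 401611054151) (l 15867080)) (l 15904720))) (c (b (c (b (l 15803792) (l 15736112)) (c (l 15769104) (l 15757336))) (c (c (l 15618112) (l 15615184)) (l 15597512))) (b (l 15740936) (l 15574680))))) (b (b (b (a (l 1) (b (a (l 1) (c (l 15823480) (c (b (l 15777112) (l 15827504)) (c (b (b (l 15753104) (l 15779144)) (l 15797536)) (b (c (b (l 15745600) (l 15763808)) (b (c (l 15740280) (c (l 571798923191) (l 15735280)))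 (l 15754184))) (c (l 15780144) (l 15771408))))))) (c (l 15917704) (c (l 15860504) (c (c (l 15829168) (l 15820672)) (l 15810784)))))) (c (c (l 15994112) (l 15946720)) (c (c (l 15910840) (b (l 15876296) (l 15909464))) (c (l 32243852439) (l 29559500887))))) (c (b (c (l 16015224) (l 15975632)) (c (l 16015760) (l 15993888))) (b (c (l 15955584) (l 15946312)) (c (l 15957328) (l 15976512))))) (b (c (c (b (l 15965936) (l 15857328)) (b (l 15745320) (c (l 15856808) (l 15846000)))) (c (b (l 15956072) (l 15839512)) (l 15882312))) (c (c (b (b (l 15776840) (l 15706144)) (c (l 15572280) (l 15558152))) (l 15633608)) (b (l 15700808) (l 15522416)))))))), by decide +kernel⟩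

def k1_pp_023 : ∃ t, chk3 f_pp_023 t 1 5 1 = true :=
  ⟨(a (b (l 1) (b (l 1) (a (l 1) (a (l 1) (c (a (l 1) (l 325377082423)) (l 462278867623)))))) (b (b (a (a (l 1) (c (b (c (c (l 15506704) (l 15501024)) (l 15481888)) (b (c (l 128342594471) (l 15424824)) (l 15506832))) (b (l 15456816) (l 58012424183)))) (b (c (a (c (c (l 15449664) (l 15435688)) (l 15422576)) (l 15367368)) (a (l 15396360) (l 15330744))) (c (a (b (l 15375576) (l 15458544)) (b (l 15312576) (l 15406016))) (a (l 15295896) (b (l 15274528) (l 15370400)))))) (a (c (a (b (l 1) (l 15969240)) (c (l 15841112) (l 15850128))) (a (l 533144049975) (l 15748296))) (c (a (b (l 15671896) (l 15967552)) (b (l 15625400) (l 15930976))) (a (l 15771800) (l 15665856))))) (b (a (c (b (a (l 16294960) (l 16295376)) (a (l 184716747063) (l 16597912))) (b (l 147134754599) (a (l 16601544) (l 16593248)))) (c (b (a (l 16273224) (l 16248952)) (a (l 16589176) (l 16579288))) (b (l 16142288) (a (l 16584288) (l 16574152))))) (c (a (a (l 205118308055) (l 16776712))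 (c (b (l 16776152) (l 16777216)) (l 16776688))) (a (a (l 16776720) (l 16776696)) (a (l 16776888) (l 16776696))))))), by decide +kernel⟩

def k2_pp_023 : ∃ t, chk3 f_pp_023 t 1 3 1 = true :=
  ⟨(a (a (b (b (l 1) (a (l 1) (a (l 1) (b (l 1) (l 15778896))))) (a (b (a (l 1) (b (l 1) (l 15134176))) (a (c (l 14867920) (l 14854024)) (l 15008344))) (a (c (l 15440344) (l 15416312)) (l 15778896)))) (a (b (b (c (l 354903591735) (l 16133488)) (b (c (l 16211104) (l 16196400)) (l 16203752))) (a (l 16070944) (l 16332120))) (a (b (b (c (l 16536160) (l 16572936)) (b (b (l 16575520) (l 16575520)) (l 16575520))) (l 16575520)) (b (b (c (l 235182837015) (l 16760440)) (l 16760648)) (l 16760648))))) (a (b (b (c (c (l 16777216) (l 16777216)) (c (l 16777216) (l 16777216))) (c (l 16777216) (l 16777216))) (a (l 16777208) (l 16777176))) (b (b (a (c (l 16777216) (l 16777216)) (l 16777208)) (l 16777176)) (b (a (l 16777168) (l 16748168)) (a (l 16748168) (l 16732456)))))), by decide +kernel⟩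

theorem s3_pp_023 : ∃ t, chk3 f_pp_023 t 1 2 1 = true := ex3_b k0_pp_023 k1_pp_023

theorem s4_pp_023 : ∃ t, chk3 f_pp_023 t 1 1 1 = true := ex3_b s3_pp_023 k2_pp_023

theorem c_pp_023 : CertFX 0 536870912 1610612736 536870912 1046898278 26843546 false true true .up 0 2 3
    ndF0q0 ndF3q3 pcF2 Cut.none Ext.none :=
  certFX1 (fam := false) (s1 := true) (s2 := true) (a := 0) (b := 2) (c := 3) (cn := .up) (n1 := ndF0q0) (n2 := ndF3q3) (pc := pcF2) (cut := Cut.none) (xt := Ext.none) (P1 := 0) (W1 := 536870912) (P2 := 1610612736) (W2 := 536870912) (P3 := 1046898278) (W3 := 26843546)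
    rfl (fun _ => rfl) s4_pp_023

noncomputable def f_pp_033 : ℕ → ℕ → ℕ → ℕ → Bool := onCell 0 536870912 1610612736 536870912 1046898278 26843546
    (rowFX 1 false true true .pnn 0 3 3 (qsf 0 536870912 1610612736 536870912 3) ndF0q0 ndF3q3 pcF3 Cut.none Ext.none)

def k0_pp_033 : ∃ t, chk3 f_pp_033 t 2 1 1 = true :=
  ⟨(b (b (a (a (c (a (l 14867920) (b (l 15149528) (l 15149528))) (a (b (l 14854024) (l 14854024)) (l 15131104))) (a (b (l 15428120) (l 15428120)) (b (l 15778896) (l 15778896)))) (a (b (l 16203752) (l 16077920)) (b (l 16669888) (c (l 16671232) (l 16668472))))) (a (b (a (c (a (l 14867920) (l 15149528)) (a (b (l 14854024) (l 14854024)) (l 15131104))) (c (a (l 15440344) (l 15791680)) (b (l 15591368) (l 15591360)))) (a (c (a (l 14867920) (l 15128544)) (a (b (l 14854024) (l 14854024)) (l 15131096))) (c (a (l 15440320) (l 15791648)) (b (l 15591336) (l 15591320))))) (b (a (c (l 16211064) (l 16133440)) (b (l 16562320) (a (l 16571664) (l 16734544)))) (a (b (c (l 16208640) (l 16193552))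 (c (l 16187616) (a (l 16057808) (l 16301296)))) (c (b (l 16644160) (l 16487792)) (b (l 16607784) (l 16391768))))))) (a (b (b (b (a (c (a (l 14867904) (l 15149488)) (a (l 14854008) (l 15131064))) (c (a (l 15440296) (l 15788336)) (b (l 15591320) (l 15588248)))) (a (b (a (c (l 14867888) (l 14853992)) (l 4)) (l 4)) (l 4))) (l 4)) (l 4)) (b (b (a (a (b (l 4) (l 4)) (l 4)) (l 4)) (l 4)) (a (b (l 4) (l 2)) (l 2))))), by decide +kernel⟩

def k1_pp_033 : ∃ t, chk3 f_pp_033 t 3 1 1 = true :=
  ⟨(b (a (b (b (a (l 16777168) (l 16748168)) (a (b (l 16774248) (l 16747184)) (b (l 16742784) (l 16729344)))) (b (b (a (l 16742784) (l 16820064)) (a (c (l 16732488) (l 16728408)) (c (l 16767104) (l 16761888)))) (b (a (c (l 16695536) (l 16695304)) (l 4)) (l 4)))) (b (b (a (b (l 16742784) (l 16729344)) (b (l 16694240) (l 16762288))) (a (b (l 16694240) (l 16762288)) (c (l 16770728) (l 16770560)))) (a (b (c (l 16770728) (l 16770560)) (l 2)) (l 2)))) (a (b (a (b (l 4) (l 2)) (l 2)) (l 2)) (l 2))), by decide +kernel⟩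

theorem s2_pp_033 : ∃ t, chk3 f_pp_033 t 1 1 1 = true := ex3_a k0_pp_033 k1_pp_033

theorem c_pp_033 : CertFX 0 536870912 1610612736 536870912 1046898278 26843546 false true true .pnn 0 3 3
    ndF0q0 ndF3q3 pcF3 Cut.none Ext.none :=
  certFX1 (fam := false) (s1 := true) (s2 := true) (a := 0) (b := 3) (c := 3) (cn := .pnn) (n1 := ndF0q0) (n2 := ndF3q3) (pc := pcF3) (cut := Cut.none) (xt := Ext.none) (P1 := 0) (W1 := 536870912) (P2 := 1610612736) (W2 := 536870912) (P3 := 1046898278) (W3 := 26843546)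
    rfl (fun _ => rfl) s2_pp_033

noncomputable def f_pp_101 : ℕ → ℕ → ℕ → ℕ → Bool := onCell 536870912 536870912 536870912 536870912 1046898278 26843546
    (rowFX 0 false true true .npn 1 0 1 (qsf 536870912 536870912 536870912 536870912 0) ndF0q1 ndF3q1 pcF0 Cut.none Ext.none)

def k0_pp_101 : ∃ t, chk3 f_pp_101 t 1 1 1 = true :=
  ⟨(a (l 3) (l 5)), by decide +kernel⟩

theorem c_pp_101 : CertFX 536870912 536870912 536870912 536870912 1046898278 26843546 false true true .npn 1 0 1
    ndF0q1 ndF3q1 pcF0 Cut.none Ext.none :=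
  certFX0 (fam := false) (s1 := true) (s2 := true) (a := 1) (b := 0) (c := 1) (cn := .npn) (n1 := ndF0q1) (n2 := ndF3q1) (pc := pcF0) (cut := Cut.none) (xt := Ext.none) (P1 := 536870912) (W1 := 536870912) (P2 := 536870912) (W2 := 536870912) (P3 := 1046898278) (W3 := 26843546)
    rfl k0_pp_101

noncomputable def f_pp_102 : ℕ → ℕ → ℕ → ℕ → Bool := onCell 536870912 536870912 0 536870912 1046898278 26843546
    (rowFX 1 false true true .npp 1 0 2 (qsf 536870912 536870912 1073741824 536870912 0) ndF0q1 ndF3q2 pcF0 Cut.none Ext.none)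

def k0_pp_102 : ∃ t, chk3 f_pp_102 t 1 1 1 = true :=
  ⟨(l 3), by decide +kernel⟩

theorem c_pp_102 : CertFX 536870912 536870912 1073741824 536870912 1046898278 26843546 false true true .npp 1 0 2
    ndF0q1 ndF3q2 pcF0 Cut.none Ext.none :=
  certFX1 (fam := false) (s1 := true) (s2 := true) (a := 1) (b := 0) (c := 2) (cn := .npp) (n1 := ndF0q1) (n2 := ndF3q2) (pc := pcF0) (cut := Cut.none) (xt := Ext.none) (P1 := 536870912) (W1 := 536870912) (P2 := 1073741824) (W2 := 536870912) (P3 := 1046898278) (W3 := 26843546)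
    rfl (fun _ => rfl) k0_pp_102

end Pool.Agent.Strip051.G.IE1.Tab.C.FB03

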