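import Pool.Agent.Strip051.G.IE1.Tab

/-! # Certificates F6 (generated) -/

set_option linter.all false
set_option maxRecDepth 100000

namespace Pool.Agent.Strip051.G.IE1.Tab.C.FA01

open Pool.Agent.Strip051.PB Pool.Agent.Strip051.PB.T
open Pool.Agent.Strip051.G.IE1.Tab

noncomputable def f_pm_213 : ℕ → ℕ → ℕ → ℕ → Bool := onCell 0 536870912 1610612736 536870912 1046898278 26843546
    (rowFX 1 true true false .pnn 2 1 3 (qsf 0 536870912 536870912 536870912 3) ndF0q2 ndF1q1 pcF3 Cut.none Ext.none)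

def k0_pm_213 : ∃ t, chk3 f_pm_213 t 2 2 1 = true :=
  ⟨(a (b (l 1) (a (b (b (c (c (l 16777216) (l 16777216)) (c (l 16777216) (l 139619991559))) (a (b (c (l 16777216) (l 16777216)) (l 4)) (c (c (l 16777216) (l 16777216)) (c (l 16777216) (l 16777216))))) (a (l 4) (b (b (c (l 16777216) (l 16777216)) (l 4)) (l 4)))) (b (c (c (b (l 16777216) (l 16777216)) (b (l 16777216) (l 16777216))) (c (b (l 16777216) (l 16777216)) (b (l 16777216) (l 16777216)))) (b (c (c (l 16777216) (l 16777216)) (c (l 16777216) (a (l 16777216) (l 16777216)))) (a (l 4) (c (c (l 16777216) (l 16777216)) (b (l 16777216) (l 16777216)))))))) (a (b (l 1) (b (c (c (l 16777216) (l 16777216)) (c (l 16777216) (l 16777216))) (c (c (b (l 16777216) (l 16777216)) (b (l 16777216) (l 16777216))) (b (c (l 16777216) (l 16777216)) (c (l 16777216) (l 16777216)))))) (b (a (l 1) (b (l 1) (c (l 168074149895) (l 185790889991)))) (b (c (c (l 16777216) (l 16777216)) (c (l 16777216) (l 16777216))) (c (c (l 16777216) (l 16777216)) (c (b (l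 16777216) (l 16777216)) (b (l 16777216) (l 16777216)))))))), by decide +kernel⟩

def k1_pm_213 : ∃ t, chk3 f_pm_213 t 3 2 1 = true :=
  ⟨(a (b (b (l 1) (a (c (a (l 16777216) (l 16777216)) (a (l 129419444231) (l 16777216))) (a (c (l 16729216) (l 16727968)) (c (l 16592424) (l 16587624))))) (a (b (a (c (b (l 16777216) (l 16777216)) (b (l 16777216) (l 16777216))) (b (l 16777216) (c (l 16777216) (l 16777216)))) (c (b (a (l 16777216) (l 16777216)) (l 16777216)) (b (a (l 16777216) (l 16777216)) (c (l 16777216) (l 16777216))))) (b (a (c (l 16729216) (l 16727968)) (c (l 16592424) (l 16587624))) (a (c (b (l 16729216) (l 16729216)) (b (l 16727968) (l 16727968))) (l 16590024))))) (a (a (b (c (l 92374488183) (b (l 16429248) (l 16429248))) (b (c (l 16438056) (l 16429248)) (l 16433656))) (b (c (b (l 16253288) (l 16253288)) (b (l 16239680) (l 16239680))) (b (c (l 16253288) (l 16239680)) (l 16246480)))) (b (b (a (c (l 16045520) (l 16026520)) (c (l 15850352) (a (l 15886904) (l 15791176)))) (a (c (l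 16045520) (l 16026520)) (c (l 15850352) (l 15845824)))) (a (c (l 16003576) (l 16026520)) (c (l 15850352) (b (l 15845824) (l 15845824))))))), by decide +kernel⟩

def k2_pm_213 : ∃ t, chk3 f_pm_213 t 2 3 1 = true :=
  ⟨(b (a (l 4) (a (b (b (c (c (l 16777216) (l 16777216)) (c (l 16777216) (l 16777216))) (a (l 4) (c (b (l 16777216) (l 16777216)) (b (l 16777216) (l 16777216))))) (l 4)) (b (c (b (c (l 16777216) (l 16777216)) (c (l 16777216) (l 16777216))) (b (c (l 16777216) (l 16777216)) (c (l 16777216) (l 16777216)))) (a (b (b (c (l 16777216) (l 16777216)) (l 4)) (l 4)) (b (c (b (l 16777208) (l 16777216)) (b (l 16777208) (l 16777216))) (b (c (l 16777216) (l 16777216)) (l 4))))))) (l 4)), by decide +kernel⟩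

def k3_pm_213 : ∃ t, chk3 f_pm_213 t 3 6 1 = true :=
  ⟨(a (b (b (a (c (c (l 16777216) (l 16777216)) (c (l 16777216) (l 16777216))) (a (c (l 16729216) (l 16727968)) (l 16590024))) (a (c (c (l 16777208) (l 16777208)) (c (l 16777208) (l 16777208))) (c (a (l 16729232) (l 16592440)) (a (l 16727984) (l 16587640))))) (c (b (a (c (l 16777200) (l 16777200)) (a (l 16729240) (l 16592456))) (a (c (l 16777208) (l 16777208)) (a (l 16729296) (l 16592984)))) (b (a (c (l 16777200) (l 16777200)) (a (l 16728000) (l 16587664))) (a (c (l 16777208) (b (l 16777200) (l 16777208))) (a (l 16728112) (l 16588552)))))) (a (b (a (c (l 16438072) (l 16429256)) (l 16246496)) (c (b (l 16327576) (a (l 16440192) (l 16259184))) (b (l 16337664) (a (l 16432432) (l 16247832))))) (b (a (l 16030872) (c (l 15853008) (l 15848864))) (a (c (l 16055272) (l 16038776)) (c (b (l 15865200) (l 15865200)) (b (l 15863592) (a (l 15912280) (l 15810592)))))))), by decide +kernel⟩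

def k4_pm_213 : ∃ t, chk3 f_pm_213 t 3 14 1 = true :=
  ⟨(a (a (a (l 4) (b (c (b (l 16775336) (l 286387028183)) (b (l 16775288) (l 367991406039))) (l 4))) (a (b (c (b (l 16729016) (l 16723488)) (b (l 16728488) (l 16722984))) (b (c (l 359401361863) (l 351885148295)) (l 4))) (b (c (l 16592440) (l 16589896)) (b (c (l 16587544) (l 16587432)) (b (c (l 16578264) (l 16577144)) (l 4)))))) (b (a (a (c (l 16440304) (l 16435128)) (b (c (l 16260288) (l 16251184)) (c (l 16258464) (l 16250384)))) (a (b (c (l 16056336) (l 16042240)) (c (a (l 16090536) (l 15977128)) (l 16017184))) (c (b (l 15826984) (l 15779648)) (a (l 15847560) (l 15691056))))) (a (b (c (a (l 16437720) (l 16257232)) (a (l 16435504) (l 16243536))) (c (a (b (l 16437752) (l 16444984)) (l 16266040)) (a (b (l 16432496) (l 16432632)) (l 16235952)))) (a (b (c (a (l 16080496) (l 15961504)) (l 15988280)) (c (a (l 16088160) (l 15967016)) (l 15971760))) (c (b (l 15586592) (a (l 15824040) (l 15665752))) (b (a (l 15771488) (l 15590128)) (a (l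 15740272) (l 15538784)))))))), by decide +kernel⟩

def k5_pm_213 : ∃ t, chk3 f_pm_213 t 3 15 1 = true :=
  ⟨(a (l 4) (b (a (a (b (c (b (l 16459864) (l 254710872807)) (b (l 16438848) (l 275648824583))) (l 4)) (b (c (b (l 16286624) (l 16310016)) (b (l 16241032) (l 16253928))) (a (l 4) (b (c (l 16291360) (l 16214968)) (l 4))))) (b (a (c (c (l 16087288) (l 16049280)) (l 15975704)) (c (a (b (l 15845192) (l 15874120)) (b (l 15682776) (l 15713296))) (a (l 15727384) (b (l 15506960) (l 15492720))))) (c (a (b (l 16125336) (a (l 16243208) (l 16133504))) (a (b (l 15923072) (l 16004672)) (l 15858912))) (a (b (l 16005208) (l 16063984)) (b (a (l 15743480) (l 15491792)) (a (l 15793264) (l 15523368))))))) (a (l 4) (a (a (l 4) (b (b (c (l 16234584) (l 16078080)) (l 4)) (l 4))) (b (a (b (c (l 16122808) (l 15880944)) (a (l 4) (c (l 16268288) (l 160220405511)))) (c (b (l 16027800) (l 16279424)) (b (l 15594360) (b (l 15679544) (l 15764984))))) (l 4)))))), by decide +kernel⟩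

theorem s6_pm_213 : ∃ t, chk3 f_pm_213 t 3 7 1 = true := ex3_b k4_pm_213 k5_pm_213

theorem s7_pm_213 : ∃ t, chk3 f_pm_213 t 3 3 1 = true := ex3_b k3_pm_213 s6_pm_213

theorem s8_pm_213 : ∃ t, chk3 f_pm_213 t 1 3 1 = true := ex3_a k2_pm_213 s7_pm_213

theorem s9_pm_213 : ∃ t, chk3 f_pm_213 t 1 2 1 = true := ex3_a k0_pm_213 k1_pm_213

theorem s10_pm_213 : ∃ t, chk3 f_pm_213 t 1 1 1 = true := ex3_b s9_pm_213 s8_pm_213

theorem c_pm_213 : CertFX 0 536870912 536870912 536870912 1046898278 26843546 true true false .pnn 2 1 3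
    ndF0q2 ndF1q1 pcF3 Cut.none Ext.none :=
  certFX1 (fam := true) (s1 := true) (s2 := false) (a := 2) (b := 1) (c := 3) (cn := .pnn) (n1 := ndF0q2) (n2 := ndF1q1) (pc := pcF3) (cut := Cut.none) (xt := Ext.none) (P1 := 0) (W1 := 536870912) (P2 := 536870912) (W2 := 536870912) (P3 := 1046898278) (W3 := 26843546)
    rfl (fun _ => rfl) s10_pm_213

noncomputable def f_mm_001 : ℕ → ℕ → ℕ → ℕ → Bool := onCell 0 536870912 67108864 469762048 1046898278 26843546
    (rowFX 0 true false false .up 0 0 1 (qsf 0 536870912 67108864 469762048 1) ndF0q0 ndF1q0 pcF1 Cut.none Ext.none)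

def k0_mm_001 : ∃ t, chk3 f_mm_001 t 1 1 1 = true :=
  ⟨(l 4), by decide +kernel⟩

theorem c_mm_001 : CertFX 0 536870912 67108864 469762048 1046898278 26843546 true false false .up 0 0 1
    ndF0q0 ndF1q0 pcF1 Cut.none Ext.none :=
  certFX0 (fam := true) (s1 := false) (s2 := false) (a := 0) (b := 0) (c := 1) (cn := .up) (n1 := ndF0q0) (n2 := ndF1q0) (pc := pcF1) (cut := Cut.none) (xt := Ext.none) (P1 := 0) (W1 := 536870912) (P2 := 67108864) (W2 := 469762048) (P3 := 1046898278) (W3 := 26843546)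
    rfl k0_mm_001

noncomputable def f_mm_011 : ℕ → ℕ → ℕ → ℕ → Bool := onCell 0 536870912 536870912 536870912 1046898278 26843546
    (rowFX 0 true false false .pnn 0 1 1 (qsf 0 536870912 536870912 536870912 1) ndF0q0 ndF1q1 pcF1 Cut.none Ext.none)

def k0_mm_011 : ∃ t, chk3 f_mm_011 t 1 1 1 = true :=
  ⟨(l 4), by decide +kernel⟩

theorem c_mm_011 : CertFX 0 536870912 536870912 536870912 1046898278 26843546 true false false .pnn 0 1 1
    ndF0q0 ndF1q1 pcF1 Cut.none Ext.none :=
  certFX0 (fam := true) (s1 := false) (s2 := false) (a := 0) (b := 1) (c := 1) (cn := .pnn) (n1 := ndF0q0) (n2 := ndF1q1) (pc := pcF1) (cut := Cut.none) (xt := Ext.none) (P1 := 0) (W1 := 536870912) (P2 := 536870912) (W2 := 536870912) (P3 := 1046898278) (W3 := 26843546)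
    rfl k0_mm_011

noncomputable def f_mm_012 : ℕ → ℕ → ℕ → ℕ → Bool := onCell 0 536870912 536870912 536870912 1046898278 26843546
    (rowFX 0 true false false .pnp 0 1 2 (qsf 0 536870912 536870912 536870912 2) ndF0q0 ndF1q1 pcF2 Cut.none Ext.none)

def k0_mm_012 : ∃ t, chk3 f_mm_012 t 1 1 1 = true :=
  ⟨(l 4), by decide +kernel⟩

theorem c_mm_012 : CertFX 0 536870912 536870912 536870912 1046898278 26843546 true false false .pnp 0 1 2
    ndF0q0 ndF1q1 pcF2 Cut.none Ext.none :=
  certFX0 (fam := true) (s1 := false) (s2 := false) (a := 0) (b := 1) (c := 2) (cn := .pnp) (n1 := ndF0q0) (n2 := ndF1q1) (pc := pcF2) (cut := Cut.none) (xt := Ext.none) (P1 := 0) (W1 := 536870912) (P2 := 536870912) (W2 := 536870912) (P3 := 1046898278) (W3 := 26843546)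
    rfl k0_mm_012

noncomputable def f_mm_022_a : ℕ → ℕ → ℕ → ℕ → Bool := onCell 0 536870912 0 420477299 1046898278 26843546
    (rowFX 0 true false false .pp 0 2 2 (qsf 0 536870912 0 420477299 2) ndF0q0 ndF1q2a pcF2 Cut.none Ext.none)

def k0_mm_022_a : ∃ t, chk3 f_mm_022_a t 1 1 1 = true :=
  ⟨(l 5), by decide +kernel⟩

theorem c_mm_022_a : CertFX 0 536870912 0 420477299 1046898278 26843546 true false false .pp 0 2 2
    ndF0q0 ndF1q2a pcF2 Cut.none Ext.none :=
  certFX0 (fam := true) (s1 := false) (s2 := false) (a := 0) (b := 2) (c := 2) (cn := .pp) (n1 := ndF0q0) (n2 := ndF1q2a) (pc := pcF2) (cut := Cut.none) (xt := Ext.none) (P1 := 0) (W1 := 536870912) (P2 := 0) (W2 := 420477299) (P3 := 1046898278) (W3 := 26843546)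
    rfl k0_mm_022_a

noncomputable def f_mm_022_b : ℕ → ℕ → ℕ → ℕ → Bool := onCell 0 536870912 1239849684 370763052 1046898278 26843546
    (rowFX 0 true false false .pp 0 2 2 (qsf 0 536870912 1239849684 370763052 2) ndF0q0 ndF1q2b pcF2 Cut.none Ext.none)

def k0_mm_022_b : ∃ t, chk3 f_mm_022_b t 1 1 1 = true :=
  ⟨(l 5), by decide +kernel⟩

theorem c_mm_022_b : CertFX 0 536870912 1239849684 370763052 1046898278 26843546 true false false .pp 0 2 2
    ndF0q0 ndF1q2b pcF2 Cut.none Ext.none :=
  certFX0 (fam := true) (s1 := false) (s2 := false) (a := 0) (b := 2) (c := 2) (cn := .pp) (n1 := ndF0q0) (n2 := ndF1q2b) (pc := pcF2) (cut := Cut.none) (xt := Ext.none) (P1 := 0) (W1 := 536870912) (P2 := 1239849684) (W2 := 370763052) (P3 := 1046898278) (W3 := 26843546)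
    rfl k0_mm_022_b

noncomputable def f_mm_023_a : ℕ → ℕ → ℕ → ℕ → Bool := onCell 0 536870912 0 420477299 1046898278 26843546
    (rowFX 0 true false false .up 0 2 3 (qsf 0 536870912 0 420477299 3) ndF0q0 ndF1q2a pcF3 Cut.none Ext.none)

def k0_mm_023_a : ∃ t, chk3 f_mm_023_a t 1 1 1 = true :=
  ⟨(l 5), by decide +kernel⟩

theorem c_mm_023_a : CertFX 0 536870912 0 420477299 1046898278 26843546 true false false .up 0 2 3
    ndF0q0 ndF1q2a pcF3 Cut.none Ext.none :=
  certFX0 (fam := true) (s1 := false) (s2 := false) (a := 0) (b := 2) (c := 3) (cn := .up) (n1 := ndF0q0) (n2 := ndF1q2a) (pc := pcF3) (cut := Cut.none) (xt := Ext.none) (P1 := 0) (W1 := 536870912) (P2 := 0) (W2 := 420477299) (P3 := 1046898278) (W3 := 26843546)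
    rfl k0_mm_023_a

noncomputable def f_mm_023_b : ℕ → ℕ → ℕ → ℕ → Bool := onCell 0 536870912 1239849684 370763052 1046898278 26843546
    (rowFX 0 true false false .up 0 2 3 (qsf 0 536870912 1239849684 370763052 3) ndF0q0 ndF1q2b pcF3 Cut.none Ext.none)

def k0_mm_023_b : ∃ t, chk3 f_mm_023_b t 1 1 1 = true :=
  ⟨(l 5), by decide +kernel⟩

theorem c_mm_023_b : CertFX 0 536870912 1239849684 370763052 1046898278 26843546 true false false .up 0 2 3
    ndF0q0 ndF1q2b pcF3 Cut.none Ext.none :=
  certFX0 (fam := true) (s1 := false) (s2 := false) (a := 0) (b := 2) (c := 3) (cn := .up) (n1 := ndF0q0) (n2 := ndF1q2b) (pc := pcF3) (cut := Cut.none) (xt := Ext.none) (P1 := 0) (W1 := 536870912) (P2 := 1239849684) (W2 := 370763052) (P3 := 1046898278) (W3 := 26843546)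
    rfl k0_mm_023_b

noncomputable def f_mm_033 : ℕ → ℕ → ℕ → ℕ → Bool := onCell 0 536870912 1610612736 469762048 1046898278 26843546
    (rowFX 0 true false false .pnn 0 3 3 (qsf 0 536870912 1610612736 469762048 3) ndF0q0 ndF1q3 pcF3 Cut.none Ext.none)

def k0_mm_033 : ∃ t, chk3 f_mm_033 t 1 1 1 = true :=
  ⟨(l 5), by decide +kernel⟩

theorem c_mm_033 : CertFX 0 536870912 1610612736 469762048 1046898278 26843546 true false false .pnn 0 3 3
    ndF0q0 ndF1q3 pcF3 Cut.none Ext.none :=
  certFX0 (fam := true) (s1 := false) (s2 := false) (a := 0) (b := 3) (c := 3) (cn := .pnn) (n1 := ndF0q0) (n2 := ndF1q3) (pc := pcF3) (cut := Cut.none) (xt := Ext.none) (P1 := 0) (W1 := 536870912) (P2 := 1610612736) (W2 := 469762048) (P3 := 1046898278) (W3 := 26843546)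
    rfl k0_mm_033

noncomputable def f_mm_101 : ℕ → ℕ → ℕ → ℕ → Bool := onCell 536870912 536870912 67108864 469762048 1046898278 26843546
    (rowFX 2 true false false .npn 1 0 1 (qsf 536870912 536870912 67108864 469762048 1) ndF0q1 ndF1q0 pcF1 Cut.none Ext.none)

def k0_mm_101 : ∃ t, chk3 f_mm_101 t 1 1 1 = true :=
  ⟨(l 4), by decide +kernel⟩

theorem c_mm_101 : CertFX 536870912 536870912 67108864 469762048 1046898278 26843546 true false false .npn 1 0 1
    ndF0q1 ndF1q0 pcF1 Cut.none Ext.none :=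
  certFX2 (fam := true) (s1 := false) (s2 := false) (a := 1) (b := 0) (c := 1) (cn := .npn) (n1 := ndF0q1) (n2 := ndF1q0) (pc := pcF1) (cut := Cut.none) (xt := Ext.none) (P1 := 536870912) (W1 := 536870912) (P2 := 67108864) (W2 := 469762048) (P3 := 1046898278) (W3 := 26843546)
    rfl (fun _ => rfl) k0_mm_101

noncomputable def f_mm_102 : ℕ → ℕ → ℕ → ℕ → Bool := onCell 536870912 536870912 67108864 469762048 1046898278 26843546
    (rowFX 0 true false false .npp 1 0 2 (qsf 536870912 536870912 67108864 469762048 2) ndF0q1 ndF1q0 pcF2 Cut.none Ext.none)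

def k0_mm_102 : ∃ t, chk3 f_mm_102 t 1 1 1 = true :=
  ⟨(a (l 4) (l 4)), by decide +kernel⟩

theorem c_mm_102 : CertFX 536870912 536870912 67108864 469762048 1046898278 26843546 true false false .npp 1 0 2
    ndF0q1 ndF1q0 pcF2 Cut.none Ext.none :=
  certFX0 (fam := true) (s1 := false) (s2 := false) (a := 1) (b := 0) (c := 2) (cn := .npp) (n1 := ndF0q1) (n2 := ndF1q0) (pc := pcF2) (cut := Cut.none) (xt := Ext.none) (P1 := 536870912) (W1 := 536870912) (P2 := 67108864) (W2 := 469762048) (P3 := 1046898278) (W3 := 26843546)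
    rfl k0_mm_102

noncomputable def f_mm_112 : ℕ → ℕ → ℕ → ℕ → Bool := onCell 536870912 536870912 536870912 536870912 1046898278 26843546
    (rowFX 0 true false false .dn 1 1 2 (qsf 536870912 536870912 536870912 536870912 2) ndF0q1 ndF1q1 pcF2 Cut.none Ext.none)

def k0_mm_112 : ∃ t, chk3 f_mm_112 t 1 1 1 = true :=
  ⟨(l 4), by decide +kernel⟩

theorem c_mm_112 : CertFX 536870912 536870912 536870912 536870912 1046898278 26843546 true false false .dn 1 1 2
    ndF0q1 ndF1q1 pcF2 Cut.none Ext.none :=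
  certFX0 (fam := true) (s1 := false) (s2 := false) (a := 1) (b := 1) (c := 2) (cn := .dn) (n1 := ndF0q1) (n2 := ndF1q1) (pc := pcF2) (cut := Cut.none) (xt := Ext.none) (P1 := 536870912) (W1 := 536870912) (P2 := 536870912) (W2 := 536870912) (P3 := 1046898278) (W3 := 26843546)
    rfl k0_mm_112

noncomputable def f_mm_113 : ℕ → ℕ → ℕ → ℕ → Bool := onCell 536870912 536870912 536870912 536870912 1046898278 26843546
    (rowFX 0 true false false .nn 1 1 3 (qsf 536870912 536870912 536870912 536870912 3) ndF0q1 ndF1q1 pcF3 Cut.none Ext.none)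

def k0_mm_113 : ∃ t, chk3 f_mm_113 t 1 1 1 = true :=
  ⟨(l 4), by decide +kernel⟩

theorem c_mm_113 : CertFX 536870912 536870912 536870912 536870912 1046898278 26843546 true false false .nn 1 1 3
    ndF0q1 ndF1q1 pcF3 Cut.none Ext.none :=
  certFX0 (fam := true) (s1 := false) (s2 := false) (a := 1) (b := 1) (c := 3) (cn := .nn) (n1 := ndF0q1) (n2 := ndF1q1) (pc := pcF3) (cut := Cut.none) (xt := Ext.none) (P1 := 536870912) (W1 := 536870912) (P2 := 536870912) (W2 := 536870912) (P3 := 1046898278) (W3 := 26843546)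
    rfl k0_mm_113

noncomputable def f_mm_123_a : ℕ → ℕ → ℕ → ℕ → Bool := onCell 536870912 536870912 0 420477299 1046898278 26843546
    (rowFX 0 true false false .npn 1 2 3 (qsf 536870912 536870912 0 420477299 3) ndF0q1 ndF1q2a pcF3 Cut.none Ext.none)

def k0_mm_123_a : ∃ t, chk3 f_mm_123_a t 1 1 1 = true :=
  ⟨(l 5), by decide +kernel⟩

theorem c_mm_123_a : CertFX 536870912 536870912 0 420477299 1046898278 26843546 true false false .npn 1 2 3
    ndF0q1 ndF1q2a pcF3 Cut.none Ext.none :=
  certFX0 (fam := true) (s1 := false) (s2 := false) (a := 1) (b := 2) (c := 3) (cn := .npn) (n1 := ndF0q1) (n2 := ndF1q2a) (pc := pcF3) (cut := Cut.none) (xt := Ext.none) (P1 := 536870912) (W1 := 536870912) (P2 := 0) (W2 := 420477299) (P3 := 1046898278) (W3 := 26843546)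
    rfl k0_mm_123_a

noncomputable def f_mm_123_b : ℕ → ℕ → ℕ → ℕ → Bool := onCell 536870912 536870912 1239849684 370763052 1046898278 26843546
    (rowFX 0 true false false .npn 1 2 3 (qsf 536870912 536870912 1239849684 370763052 3) ndF0q1 ndF1q2b pcF3 Cut.none Ext.none)

def k0_mm_123_b : ∃ t, chk3 f_mm_123_b t 1 1 1 = true :=
  ⟨(l 5), by decide +kernel⟩

theorem c_mm_123_b : CertFX 536870912 536870912 1239849684 370763052 1046898278 26843546 true false false .npn 1 2 3
    ndF0q1 ndF1q2b pcF3 Cut.none Ext.none :=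
  certFX0 (fam := true) (s1 := false) (s2 := false) (a := 1) (b := 2) (c := 3) (cn := .npn) (n1 := ndF0q1) (n2 := ndF1q2b) (pc := pcF3) (cut := Cut.none) (xt := Ext.none) (P1 := 536870912) (W1 := 536870912) (P2 := 1239849684) (W2 := 370763052) (P3 := 1046898278) (W3 := 26843546)
    rfl k0_mm_123_b

noncomputable def f_mm_133 : ℕ → ℕ → ℕ → ℕ → Bool := onCell 536870912 536870912 1610612736 469762048 1046898278 26843546
    (rowFX 0 true false false .dn 1 3 3 (qsf 536870912 536870912 1610612736 469762048 3) ndF0q1 ndF1q3 pcF3 Cut.none Ext.none)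

def k0_mm_133 : ∃ t, chk3 f_mm_133 t 1 1 1 = true :=
  ⟨(l 4), by decide +kernel⟩

theorem c_mm_133 : CertFX 536870912 536870912 1610612736 469762048 1046898278 26843546 true false false .dn 1 3 3
    ndF0q1 ndF1q3 pcF3 Cut.none Ext.none :=
  certFX0 (fam := true) (s1 := false) (s2 := false) (a := 1) (b := 3) (c := 3) (cn := .dn) (n1 := ndF0q1) (n2 := ndF1q3) (pc := pcF3) (cut := Cut.none) (xt := Ext.none) (P1 := 536870912) (W1 := 536870912) (P2 := 1610612736) (W2 := 469762048) (P3 := 1046898278) (W3 := 26843546)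
    rfl k0_mm_133

noncomputable def f_mm_202 : ℕ → ℕ → ℕ → ℕ → Bool := onCell 0 536870912 1073741824 536870912 1046898278 26843546
    (rowFX 1 true false false .pp 2 0 2 (qsf 0 536870912 67108864 469762048 2) ndF0q2 ndF1q0 pcF2 Cut.none Ext.none)

def k0_mm_202 : ∃ t, chk3 f_mm_202 t 2 2 1 = true :=
  ⟨(b (l 1) (b (a (l 1) (b (l 1) (b (l 1) (a (l 1) (a (l 1) (b (l 1) (c (l 16173992) (l 16254024)))))))) (a (b (b (l 1) (a (b (l 1) (b (l 1) (c (a (c (l 15429776) (l 15412824)) (l 15502808)) (a (l 15386664) (l 15469952))))) (c (c (a (l 15599200) (l 15721368)) (l 15603720)) (a (l 15592832) (l 15695040))))) (a (c (a (b (a (b (c (b (l 15412952) (l 15463736)) (l 15420656)) (l 15535312)) (l 15519048)) (l 15705392)) (c (l 15622240) (l 15671008))) (a (b (c (l 15475648) (l 15459144)) (l 15677552)) (l 15566008))) (c (c (a (l 15751432) (l 15809680)) (a (l 15759520) (l 15861136))) (a (l 15635424) (b (l 15756984) (l 15928600)))))) (b (b (a (b (l 1) (c (a (l 15795000) (l 15950408)) (l 15904112)))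 (c (a (c (l 16113040) (l 16111104)) (l 16218136)) (a (l 16100256) (l 16247952)))) (a (c (a (l 15792976) (l 15969024)) (a (l 15812560) (l 15947168))) (c (a (l 16120776) (l 16284960)) (a (l 16105368) (l 16274080))))) (c (a (a (b (l 15904856) (l 16051600)) (b (l 16041664) (l 16159008))) (a (b (l 16144552) (l 16268392)) (b (l 16268264) (l 16381688)))) (a (a (l 15770120) (b (l 16023680) (l 16144048))) (a (b (l 16172544) (l 16256432)) (b (l 16321208) (l 16372800))))))))), by decide +kernel⟩

def k1_mm_202 : ∃ t, chk3 f_mm_202 t 2 6 1 = true :=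
  ⟨(a (b (c (a (b (c (l 15923712) (l 15955176)) (a (l 16141944) (l 16168952))) (b (a (l 16039192) (l 16102480)) (a (l 16205008) (l 16250704)))) (a (b (a (l 15915248) (l 15963424)) (a (l 16125568) (l 16153336))) (b (a (l 16020480) (l 16085536)) (a (l 16190384) (l 16237320))))) (c (b (a (c (l 16388136) (l 16383064)) (a (l 16413424) (l 16362144))) (a (a (l 16650416) (l 16596392)) (c (l 16559632) (b (l 16626824) (l 16743632))))) (b (a (c (l 16377984) (l 16372904)) (c (l 16423672) (l 16419184))) (a (b (l 16583808) (l 16656048)) (a (l 16589272) (b (l 16638232) (l 16754144))))))) (b (a (c (b (a (l 16173440) (l 16252408)) (a (l 16306840) (l 16374328))) (b (a (l 16158456) (l 16239584)) (a (l 16294952) (l 16364240)))) (b (c (a (l 16340040) (l 16356304)) (a (l 16329584) (b (l 16410184) (l 16450520)))) (c (a (c (l 16456200) (l 16452208)) (b (l 16516944) (l 16574832))) (a (c (l 16448224) (l 16444232)) (c (l 16542704) (l 16539944)))))) (c (b (a (c (b (l 16460472) (l 16572680)) (b (l 16456368) (l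 16570008))) (b (c (l 16505824) (l 16461464)) (a (l 16633792) (a (l 16704392) (l 16650496))))) (a (c (b (l 16701672) (l 16770328)) (b (l 16700680) (l 16770240))) (a (b (c (l 16757416) (l 16757160)) (l 16777216)) (c (l 16776232) (l 16776224))))) (b (a (c (b (l 16452256) (l 16567336)) (l 16360448)) (b (c (a (l 16546000) (l 16622040)) (l 16498576)) (a (l 16630608) (c (l 16716408) (l 16715632))))) (a (a (b (l 16677952) (l 16768952)) (b (l 16701120) (l 16776904))) (a (c (b (l 16756904) (l 16777216)) (l 16723088)) (c (l 16776208) (l 16776192)))))))), by decide +kernel⟩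

def k2_mm_202 : ∃ t, chk3 f_mm_202 t 2 7 1 = true :=
  ⟨(a (c (b (a (c (l 16777208) (l 16777208)) (c (b (l 16777216) (l 16777216)) (c (l 16777216) (l 16777216)))) (c (a (l 16777216) (c (l 16777216) (l 16777216))) (a (l 16777216) (c (l 16777216) (l 16777216))))) (b (a (c (l 16777208) (l 16777208)) (c (c (l 16777216) (l 16777216)) (c (l 16777216) (l 16777216)))) (c (a (l 16777216) (c (l 16777216) (l 16777216))) (a (l 16777216) (c (l 16777216) (l 16777216)))))) (a (b (c (c (b (l 16777216) (l 16777216)) (b (l 16777216) (l 16777216))) (c (b (l 16777216) (l 16777216)) (b (l 16777216) (l 16777216)))) (b (c (c (l 16777216) (l 16777216)) (c (l 16777216) (l 16777216))) (a (b (c (l 16777216) (l 16777216)) (c (l 16777216) (l 16777216))) (l 4)))) (b (a (c (b (c (l 16777216) (l 16777216)) (c (l 16777216) (l 16777216))) (b (c (l 16777216) (l 16777216)) (c (l 16777216) (l 16777216)))) (a (b (b (c (l 16777216) (l 16777216)) (l 4)) (l 4)) (l 4))) (l 4)))), by decide +kernel⟩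

def k3_mm_202 : ∃ t, chk3 f_mm_202 t 3 4 1 = true :=
  ⟨(a (l 1) (b (a (l 1) (a (l 1) (a (l 1) (b (l 1) (l 4))))) (a (a (a (l 1) (b (l 1) (b (l 1) (b (l 1) (c (c (c (a (l 16610216) (l 16635040)) (l 16626840)) (l 16625760)) (c (l 16624536) (l 16623320))))))) (b (l 1) (a (b (l 1) (c (b (c (a (b (l 1) (l 16638408)) (l 16626288)) (l 16616048)) (a (c (l 16638456) (l 16637536)) (c (l 16649048) (l 16647736)))) (b (c (l 16614736) (l 16613416)) (a (l 16635536) (l 73249034407))))) (b (b (a (l 1) (a (l 1) (b (l 1) (l 4)))) (a (c (c (b (c (l 16644400) (l 16655872)) (l 16635528)) (l 16654200)) (b (l 16653160) (l 46942362583))) (b (c (c (l 16657872) (l 16676744)) (l 49089888807)) (l 4)))) (a (a (b (c (l 16655056) (l 16653080)) (l 4)) (l 4)) (l 4)))))) (b (a (b (l 1) (a (a (l 1) (a (l 1) (l 4))) (l 4))) (l 4)) (l 4))))), by decide +kernel⟩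

def k4_mm_202 : ∃ t, chk3 f_mm_202 t 6 10 1 = true :=
  ⟨(a (b (l 1) (c (a (b (c (a (l 1) (l 16416632)) (l 16335768)) (c (a (l 16369032) (l 16447408)) (l 16410056))) (b (c (a (l 16487688) (b (l 16586976) (l 16602840))) (l 16534400)) (c (l 16576960) (l 16576000)))) (a (b (l 16382680) (a (l 16365824) (l 16441928))) (b (a (l 16537824) (l 16567408)) (a (l 16529176) (l 16619456)))))) (a (b (b (l 1) (a (a (l 1) (c (c (l 342556740023) (l 16540096)) (l 16538272))) (c (c (b (l 109554638343) (l 16582136)) (l 16540072)) (b (l 16542000) (l 16578008))))) (c (b (a (c (b (l 16592272) (l 16608744)) (l 16601440)) (c (l 16607008) (l 16606248))) (c (a (l 16615392) (l 16614520)) (l 16614056))) (b (a (b (l 16589896) (l 16607480)) (l 16605008)) (a (l 16613792) (l 16612016))))) (b (b (b (l 1) (a (a (l 1) (b (l 1) (c (c (l 16570936) (l 16566264)) (l 16564168)))) (c (c (b (l 16592408) (l 16570016)) (l 16566280)) (c (l 16564968) (l 16563656))))) (c (a (b (c (l 16578824) (l 16575256)) (l 16596216)) (c (l 16605320)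 (l 16604120))) (a (b (l 16573344) (l 16594360)) (l 16581240)))) (c (b (c (l 16598528) (l 16597384)) (a (c (l 16622672) (l 16621456)) (b (l 16598872) (l 16646296)))) (b (c (l 16596216) (a (l 16612384) (l 16620352))) (a (c (l 16620224) (l 16618992)) (b (l 16627568) (l 16643792)))))))), by decide +kernel⟩

def k5_mm_202 : ∃ t, chk3 f_mm_202 t 7 10 1 = true :=
  ⟨(a (a (a (b (b (c (b (c (c (b (l 16598000) (l 16616040)) (l 16611336)) (l 16610480)) (b (l 16612096) (c (l 16610808) (l 16609504)))) (b (l 16587704) (b (l 16610488) (l 16586464)))) (c (c (l 16621448) (l 16620096)) (c (l 16618688) (l 16617280)))) (c (b (c (b (l 16631672) (l 16645088)) (b (l 16630216) (l 16643696))) (a (l 16642608) (l 4))) (b (b (l 16628008) (c (l 16642296) (l 16640896))) (c (l 16631720) (l 87207636615))))) (b (b (c (b (c (l 16630328) (l 16629984)) (c (b (l 16628792) (l 16630040)) (l 16606936))) (b (c (l 16628696) (l 16627408)) (c (l 16605472) (l 16604016)))) (c (c (b (l 16634904) (l 16641216)) (l 51774143703))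 (c (l 54458492567) (b (l 16630392) (l 16636544))))) (b (a (a (b (c (l 16640864) (l 16637792)) (l 4)) (l 4)) (l 4)) (l 4)))) (a (b (b (b (c (c (l 16625568) (l 16645144)) (c (l 16643680) (l 16621240))) (b (c (c (l 16650368) (l 16648904)) (l 82912691831)) (l 4))) (l 4)) (l 4)) (l 4))) (l 4)), by decide +kernel⟩

def k6_mm_202 : ∃ t, chk3 f_mm_202 t 3 11 1 = true :=
  ⟨(a (b (b (a (c (a (l 16344816) (a (l 16541112) (l 16609416))) (a (l 16422200) (a (l 16559256) (l 16651032)))) (c (a (c (a (l 16624416) (l 16631752)) (a (l 16623624) (l 16630760))) (a (l 16648368) (b (l 16665936) (l 16686144)))) (a (a (l 16580488) (l 16608296)) (a (l 16646288) (c (l 16654648) (l 16632752)))))) (a (c (a (c (l 16453992) (l 16450888)) (a (l 16554528) (l 16650928))) (a (l 16425272) (l 16547784))) (a (c (a (l 16657648) (l 16664336)) (a (l 16656728) (l 16663016))) (a (c (l 16639776) (c (l 16680648) (l 16679936))) (l 4))))) (b (a (c (a (l 16429912) (c (l 16614552) (l 16613464))) (a (l 16444768) (a (l 16574144) (l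 16649160)))) (a (c (a (l 16637312) (b (l 16681184) (l 16692736))) (a (c (l 16678824) (l 16678536)) (c (l 16687120) (l 16686648)))) (a (a (b (c (l 16696568) (l 16695496)) (l 4)) (l 4)) (l 4)))) (a (c (a (l 16502880) (l 16611176)) (a (l 16497296) (l 16609192))) (a (a (c (c (l 16689984) (l 16689672)) (c (l 16689360) (l 16689048))) (a (c (l 16678328) (l 16677504)) (l 4))) (l 4))))) (l 4)), by decide +kernel⟩

def k7_mm_202 : ∃ t, chk3 f_mm_202 t 3 3 1 = true :=
  ⟨(b (a (b (a (c (b (a (c (l 16492832) (l 16490496)) (b (a (l 16623872) (l 16695272)) (a (l 16670664) (l 16696952)))) (a (b (c (l 16626992) (l 16625376)) (a (l 16645664) (l 16674776))) (b (a (l 16691352) (l 16679208)) (a (l 16702912) (l 4))))) (c (b (a (l 16467192) (a (l 16646968) (l 41036741527))) (a (b (l 16623752) (l 16669112)) (b (l 16696984) (l 16723848)))) (b (a (l 16464856) (a (l 16645936) (l 34057419559))) (a (b (l 16622136) (l 16667920)) (b (l 16696968) (l 16681680)))))) (b (a (a (b (c (l 35131275127) (c (l 16690512) (l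 16689960))) (l 4)) (l 4)) (l 4)) (l 4))) (a (a (b (c (b (c (l 16666640) (l 16644816)) (c (l 16698264) (l 16698048))) (b (c (l 16643960) (a (l 16683512) (l 16728240))) (c (l 16697840) (l 16697632)))) (a (b (l 4) (l 4)) (l 4))) (l 4)) (l 4))) (l 4)) (l 4)), by decide +kernel⟩

theorem s8_mm_202 : ∃ t, chk3 f_mm_202 t 3 10 1 = true := ex3_a k4_mm_202 k5_mm_202

theorem s9_mm_202 : ∃ t, chk3 f_mm_202 t 3 5 1 = true := ex3_b s8_mm_202 k6_mm_202

theorem s10_mm_202 : ∃ t, chk3 f_mm_202 t 3 2 1 = true := ex3_b k3_mm_202 s9_mm_202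

theorem s11_mm_202 : ∃ t, chk3 f_mm_202 t 3 1 1 = true := ex3_b s10_mm_202 k7_mm_202

theorem s12_mm_202 : ∃ t, chk3 f_mm_202 t 2 3 1 = true := ex3_b k1_mm_202 k2_mm_202

theorem s13_mm_202 : ∃ t, chk3 f_mm_202 t 2 1 1 = true := ex3_b k0_mm_202 s12_mm_202

theorem s14_mm_202 : ∃ t, chk3 f_mm_202 t 1 1 1 = true := ex3_a s13_mm_202 s11_mm_202

theorem c_mm_202 : CertFX 0 536870912 67108864 469762048 1046898278 26843546 true false false .pp 2 0 2
    ndF0q2 ndF1q0 pcF2 Cut.none Ext.none :=
  certFX1 (fam := true) (s1 := false) (s2 := false) (a := 2) (b := 0) (c := 2) (cn := .pp) (n1 := ndF0q2) (n2 := ndF1q0) (pc := pcF2) (cut := Cut.none) (xt := Ext.none) (P1 := 0) (W1 := 536870912) (P2 := 67108864) (W2 := 469762048) (P3 := 1046898278) (W3 := 26843546)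
    rfl (fun _ => rfl) s14_mm_202

noncomputable def f_mm_203 : ℕ → ℕ → ℕ → ℕ → Bool := onCell 0 536870912 1610612736 536870912 1046898278 26843546
    (rowFX 1 true false false .up 2 0 3 (qsf 0 536870912 67108864 469762048 3) ndF0q2 ndF1q0 pcF3 Cut.none Ext.none)

def k0_mm_203 : ∃ t, chk3 f_mm_203 t 1 1 1 = true :=
  ⟨(b (a (a (a (b (b (c (c (l 16777216) (c (l 16777216) (l 16777216))) (c (c (l 16777216) (l 16777216)) (c (l 16777216) (l 16777216)))) (b (c (c (l 16777216) (l 16777216)) (c (l 16777216) (l 16777216))) (a (c (c (l 16777216) (l 16777216)) (c (l 16777216) (l 16777216))) (b (c (l 16777216) (l 16777216)) (l 4))))) (a (b (b (b (c (l 16777216) (l 16777216)) (l 4)) (l 2)) (l 2)) (l 4))) (b (b (b (c (c (l 16777216) (l 16777216)) (c (l 16777216) (l 16777216))) (a (b (c (l 16777216) (l 16777216)) (c (l 16777216) (l 16777216))) (l 4))) (l 4)) (l 4))) (b (l 4) (l 4))) (l 4)) (l 2)), by decide +kernel⟩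

theorem c_mm_203 : CertFX 0 536870912 67108864 469762048 1046898278 26843546 true false false .up 2 0 3
    ndF0q2 ndF1q0 pcF3 Cut.none Ext.none :=
  certFX1 (fam := true) (s1 := false) (s2 := false) (a := 2) (b := 0) (c := 3) (cn := .up) (n1 := ndF0q2) (n2 := ndF1q0) (pc := pcF3) (cut := Cut.none) (xt := Ext.none) (P1 := 0) (W1 := 536870912) (P2 := 67108864) (W2 := 469762048) (P3 := 1046898278) (W3 := 26843546)
    rfl (fun _ => rfl) k0_mm_203

noncomputable def f_mm_213 : ℕ → ℕ → ℕ → ℕ → Bool := onCell 0 536870912 536870912 536870912 1046898278 26843546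
    (rowFX 0 true false false .pnn 2 1 3 (qsf 0 536870912 536870912 536870912 3) ndF0q2 ndF1q1 pcF3 Cut.none Ext.none)

def k0_mm_213 : ∃ t, chk3 f_mm_213 t 1 1 1 = true :=
  ⟨(a (b (l 4) (l 4)) (l 4)), by decide +kernel⟩

theorem c_mm_213 : CertFX 0 536870912 536870912 536870912 1046898278 26843546 true false false .pnn 2 1 3
    ndF0q2 ndF1q1 pcF3 Cut.none Ext.none :=
  certFX0 (fam := true) (s1 := false) (s2 := false) (a := 2) (b := 1) (c := 3) (cn := .pnn) (n1 := ndF0q2) (n2 := ndF1q1) (pc := pcF3) (cut := Cut.none) (xt := Ext.none) (P1 := 0) (W1 := 536870912) (P2 := 536870912) (W2 := 536870912) (P3 := 1046898278) (W3 := 26843546)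
    rfl k0_mm_213

end Pool.Agent.Strip051.G.IE1.Tab.C.FA01

namespace Pool.Agent.Strip051.G.IE1.Tab.C.FA02

open Pool.Agent.Strip051.PB Pool.Agent.Strip051.PB.T
open Pool.Agent.Strip051.G.IE1.Tab

noncomputable def f_pp_001 : ℕ → ℕ → ℕ → ℕ → Bool := onCell 0 536870912 67108864 469762048 1046898278 26843546
    (rowFX 0 true true true .up 0 0 1 (qsf 0 536870912 67108864 469762048 1) ndF0q0 ndF2q0 pcF1 Cut.none Ext.none)

def k0_pp_001 : ∃ t, chk3 f_pp_001 t 1 1 1 = true :=
  ⟨(l 4), by decide +kernel⟩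

theorem c_pp_001 : CertFX 0 536870912 67108864 469762048 1046898278 26843546 true true true .up 0 0 1
    ndF0q0 ndF2q0 pcF1 Cut.none Ext.none :=
  certFX0 (fam := true) (s1 := true) (s2 := true) (a := 0) (b := 0) (c := 1) (cn := .up) (n1 := ndF0q0) (n2 := ndF2q0) (pc := pcF1) (cut := Cut.none) (xt := Ext.none) (P1 := 0) (W1 := 536870912) (P2 := 67108864) (W2 := 469762048) (P3 := 1046898278) (W3 := 26843546)
    rfl k0_pp_001

noncomputable def f_pp_011 : ℕ → ℕ → ℕ → ℕ → Bool := onCell 0 536870912 536870912 536870912 1046898278 26843546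
    (rowFX 0 true true true .pnn 0 1 1 (qsf 0 536870912 536870912 536870912 1) ndF0q0 ndF2q1 pcF1 Cut.none Ext.none)

def k0_pp_011 : ∃ t, chk3 f_pp_011 t 1 1 1 = true :=
  ⟨(l 4), by decide +kernel⟩

theorem c_pp_011 : CertFX 0 536870912 536870912 536870912 1046898278 26843546 true true true .pnn 0 1 1
    ndF0q0 ndF2q1 pcF1 Cut.none Ext.none :=
  certFX0 (fam := true) (s1 := true) (s2 := true) (a := 0) (b := 1) (c := 1) (cn := .pnn) (n1 := ndF0q0) (n2 := ndF2q1) (pc := pcF1) (cut := Cut.none) (xt := Ext.none) (P1 := 0) (W1 := 536870912) (P2 := 536870912) (W2 := 536870912) (P3 := 1046898278) (W3 := 26843546)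
    rfl k0_pp_011

noncomputable def f_pp_012 : ℕ → ℕ → ℕ → ℕ → Bool := onCell 0 536870912 536870912 536870912 1046898278 26843546
    (rowFX 0 true true true .pnp 0 1 2 (qsf 0 536870912 536870912 536870912 2) ndF0q0 ndF2q1 pcF2 Cut.none Ext.none)

def k0_pp_012 : ∃ t, chk3 f_pp_012 t 1 1 1 = true :=
  ⟨(l 4), by decide +kernel⟩

theorem c_pp_012 : CertFX 0 536870912 536870912 536870912 1046898278 26843546 true true true .pnp 0 1 2
    ndF0q0 ndF2q1 pcF2 Cut.none Ext.none :=
  certFX0 (fam := true) (s1 := true) (s2 := true) (a := 0) (b := 1) (c := 2) (cn := .pnp) (n1 := ndF0q0) (n2 := ndF2q1) (pc := pcF2) (cut := Cut.none) (xt := Ext.none) (P1 := 0) (W1 := 536870912) (P2 := 536870912) (W2 := 536870912) (P3 := 1046898278) (W3 := 26843546)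
    rfl k0_pp_012

noncomputable def f_pp_022_a : ℕ → ℕ → ℕ → ℕ → Bool := onCell 0 536870912 0 420477299 1046898278 26843546
    (rowFX 0 true true true .pp 0 2 2 (qsf 0 536870912 0 420477299 2) ndF0q0 ndF2q2a pcF2 Cut.none Ext.none)

def k0_pp_022_a : ∃ t, chk3 f_pp_022_a t 4 2 1 = true :=
  ⟨(a (b (a (c (a (b (l 16131136) (l 16185904)) (b (l 16049704) (l 16065440))) (a (b (l 16078936) (c (l 16188448) (l 16202240))) (b (l 16078304) (l 16116696)))) (c (a (b (l 16024592) (c (l 16073568) (l 16102064))) (b (l 16016472) (l 16043648))) (b (l 16032016) (l 16058352)))) (a (b (c (a (l 16246032) (l 16041264)) (a (c (l 16249744) (l 16243336)) (l 16094104))) (a (a (c (b (l 16292648) (a (l 16343320) (l 16304240))) (b (a (l 16284904) (l 16304920)) (a (l 16321568) (c (l 16321616) (l 16271576))))) (c (l 16273456) (l 16171656))) (c (c (l 16208728) (l 16227336)) (c (l 16252816) (l 16260032))))) (c (b (a (c (l 16134744) (l 16164072)) (l 16067720)) (a (c (l 16184792) (l 16214672)) (c (l 16203216) (l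 16216720)))) (b (a (l 16174680) (l 16153608)) (a (l 16226120) (l 16208120)))))) (b (a (a (b (c (a (l 16022968) (l 16045456)) (l 16017808)) (c (a (b (l 16071528) (l 16112112)) (l 16107840)) (a (l 16077408) (l 16093824)))) (c (l 16140432) (l 16126800))) (c (b (l 16228072) (a (l 16243456) (l 16306288))) (b (l 16215944) (l 16244016)))) (a (a (b (c (a (l 16160256) (b (l 16154872) (l 16182000))) (a (l 16146864) (b (l 16142200) (l 16170008)))) (c (b (l 16204872) (l 16231336)) (b (l 16194000) (l 16221024)))) (b (c (l 16222904) (l 16211640)) (c (a (b (l 16241296) (l 16267048)) (l 16203880)) (a (b (l 16230520) (l 16256824)) (l 16214984))))) (c (b (a (l 16292848) (l 16348640)) (a (l 16331256) (l 163979623431))) (b (a (l 16282952) (l 16339712)) (a (l 16322136) (l 174717005063))))))), by decide +kernel⟩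

def k1_pp_022_a : ∃ t, chk3 f_pp_022_a t 8 6 1 = true :=
  ⟨(a (b (a (c (a (l 16286672) (b (a (b (l 16319416) (l 16327184)) (l 16301736)) (l 16264296))) (a (b (l 16328656) (l 16358872)) (b (c (a (l 16303112) (l 16316616)) (a (l 16260176) (l 16335392))) (c (l 16314896) (l 16291544))))) (c (a (b (l 16273392) (a (b (l 16300472) (l 16310472)) (l 16290912))) (l 16246336)) (a (b (l 16310592) (a (b (l 16316608) (c (l 16336456) (l 16354760))) (l 16331896))) (l 16301816)))) (a (c (l 16359064) (c (l 16342904) (a (l 16355688) (l 16372096)))) (c (b (a (b (a (l 16316824) (l 16286992)) (l 16320952)) (a (b (l 16300064) (l 16268680)) (l 16297072))) (a (l 16330904) (a (l 16321616) (b (b (l 16311632) (l 16316024)) (l 16321520))))) (b (a (a (l 16356896) (b (c (l 16344272) (l 16354768)) (l 16356176))) (b (l 16335624) (a (c (l 16350384) (l 16355088)) (l 16341000)))) (a (l 16347624) (b (a (l 16360104) (c (l 16331416) (l 16355272))) (l 16364016))))))) (b (c (a (c (l 16234640) (l 16244000)) (c (l 16206248)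 (l 16262088))) (a (l 16256128) (l 16254064))) (a (c (b (c (l 16271304) (l 16301904)) (a (a (b (l 16309584) (a (l 16277864) (b (l 16316736) (l 16300456)))) (c (l 16291376) (l 16330472))) (c (l 16294472) (l 16322320)))) (b (l 16314440) (a (b (l 16343056) (a (b (l 16356416) (l 16360816)) (l 16347304))) (l 16326344)))) (c (b (c (l 16254944) (l 16289936)) (c (a (l 16294552) (l 16270552)) (l 16308056))) (b (l 16282112) (l 72174548807)))))), by decide +kernel⟩

def k2_pp_022_a : ∃ t, chk3 f_pp_022_a t 16 7 1 = true :=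
  ⟨(b (c (a (b (l 16381472) (a (l 16431360) (l 16426392))) (b (c (l 16340160) (a (l 16357128) (l 16355440))) (a (l 16419200) (c (l 16395880) (l 16422936))))) (a (c (b (l 16365280) (l 16413144)) (b (a (l 16395072) (l 16401672)) (a (l 16435480) (l 16454920)))) (c (b (a (l 16384040) (l 16383048)) (a (l 16428536) (l 16451280))) (b (l 16394152) (l 16461040))))) (c (c (a (b (a (b (l 16484808) (a (c (l 16528392) (l 16496968)) (l 16448232))) (l 16481560)) (a (b (c (l 16566432) (l 16475464)) (l 16555352)) (b (a (c (b (l 16534952) (l 16535472)) (l 16517712)) (l 16511600)) (b (a (l 16545608) (c (l 16544528) (l 16535632))) (l 16499704))))) (b (a (l 16472112) (l 16470136)) (a (b (l 16515856) (a (c (l 16502288) (l 16539168)) (l 16546048))) (b (l 16516024) (l 16543840))))) (a (b (a (b (l 16464168) (l 16489784)) (l 16474696)) (a (b (l 16516952) (l 16549696)) (b (l 16493072) (a (l 16542776) (l 16520512))))) (a (b (l 16482608) (a (l 16467728) (l 16538912))) (b (l 16456056) (l 255784825127))))) (a (b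 (a (c (b (l 16462416) (l 16488248)) (b (l 16470904) (a (l 16449560) (l 16458976)))) (c (l 16485224) (l 16483776))) (a (c (l 16489032) (a (l 16514232) (c (l 16493304) (l 16482472)))) (c (b (a (l 16518040) (l 16530432)) (a (l 16547072) (b (l 16530624) (l 16566344)))) (b (a (c (l 16513400) (l 16542424)) (l 16550648)) (a (l 16547472) (b (l 16551016) (l 16586856))))))) (b (c (a (l 16447872) (l 107071506247)) (l 102239720551)) (c (a (a (a (b (l 16538472) (l 16524912)) (l 16539912)) (l 16509584)) (l 312693207047)) (a (b (l 16567384) (l 16553832)) (l 16592672))))))), by decide +kernel⟩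

def k3_pp_022_a : ∃ t, chk3 f_pp_022_a t 17 7 1 = true :=
  ⟨(a (a (b (c (b (b (a (l 16328152) (c (b (l 16304416) (l 16309328)) (b (l 16259664) (l 16348464)))) (c (l 16333208) (l 16368640))) (c (l 16387160) (l 16423200))) (b (b (a (l 16366984) (b (l 16354904) (l 16359840))) (l 16388112)) (l 16443592))) (b (c (c (l 16465704) (l 210687527495)) (c (l 16524024) (l 16521640))) (l 4))) (b (a (b (a (c (b (c (l 16305864) (b (l 16342168) (l 16347680))) (c (l 16330568) (l 16369896))) (b (l 16350328) (l 16375648))) (c (b (l 16302952) (b (c (l 16323168) (l 16337248)) (l 16357568))) (b (l 16345344) (b (l 16362272) (l 16379688))))) (c (c (l 16385352) (l 16421960)) (l 16428080))) (b (a (c (b (l 16302640) (b (l 16340256) (c (l 16341432) (l 16378272)))) (b (l 16340432) (b (l 16357392) (l 16374848)))) (c (c (l 16301536) (l 16354328)) (l 16348720))) (b (l 4) (l 4)))) (l 4))) (a (b (b (c (c (l 184917397271) (l 16343680)) (l 16336840)) (l 4)) (l 4)) (l 4))), by decide +kernel⟩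

def k4_pp_022_a : ∃ t, chk3 f_pp_022_a t 9 3 1 = true :=
  ⟨(b (a (a (b (c (b (l 16255176) (l 16274248)) (b (l 16245288) (l 16264600))) (b (c (l 209076618375) (l 16277592)) (l 4))) (b (a (c (l 16296776) (l 16286976)) (a (b (c (l 16311032) (l 16301552)) (l 4)) (l 4))) (l 4))) (l 4)) (l 4)), by decide +kernel⟩

def k5_pp_022_a : ∃ t, chk3 f_pp_022_a t 5 1 1 = true :=
  ⟨(b (b (b (a (a (c (l 16322656) (a (l 16293936) (l 16328952))) (c (a (l 16367752) (l 16439464)) (a (l 16357728) (l 103313257111)))) (a (a (c (l 151095037287) (l 164516798887)) (l 4)) (l 4))) (a (a (c (a (l 16342664) (l 117808718247)) (a (l 16333056) (l 115124320647))) (a (a (c (l 16386672) (l 179012023607)) (l 4)) (l 4))) (l 4))) (b (a (a (a (c (l 132841128759) (l 169348310343)) (l 4)) (l 4)) (l 4)) (l 4))) (l 4)), by decide +kernel⟩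

def k6_pp_022_a : ∃ t, chk3 f_pp_022_a t 3 1 1 = true :=
  ⟨(l 4), by decide +kernel⟩

theorem s7_pp_022_a : ∃ t, chk3 f_pp_022_a t 8 7 1 = true := ex3_a k2_pp_022_a k3_pp_022_a

theorem s8_pp_022_a : ∃ t, chk3 f_pp_022_a t 8 3 1 = true := ex3_b k1_pp_022_a s7_pp_022_a

theorem s9_pp_022_a : ∃ t, chk3 f_pp_022_a t 4 3 1 = true := ex3_a s8_pp_022_a k4_pp_022_a

theorem s10_pp_022_a : ∃ t, chk3 f_pp_022_a t 4 1 1 = true := ex3_b k0_pp_022_a s9_pp_022_a

theorem s11_pp_022_a : ∃ t, chk3 f_pp_022_a t 2 1 1 = true := ex3_a s10_pp_022_a k5_pp_022_a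

theorem s12_pp_022_a : ∃ t, chk3 f_pp_022_a t 1 1 1 = true := ex3_a s11_pp_022_a k6_pp_022_a

theorem c_pp_022_a : CertFX 0 536870912 0 420477299 1046898278 26843546 true true true .pp 0 2 2
    ndF0q0 ndF2q2a pcF2 Cut.none Ext.none :=
  certFX0 (fam := true) (s1 := true) (s2 := true) (a := 0) (b := 2) (c := 2) (cn := .pp) (n1 := ndF0q0) (n2 := ndF2q2a) (pc := pcF2) (cut := Cut.none) (xt := Ext.none) (P1 := 0) (W1 := 536870912) (P2 := 0) (W2 := 420477299) (P3 := 1046898278) (W3 := 26843546)
    rfl s12_pp_022_a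

noncomputable def f_pp_022_b : ℕ → ℕ → ℕ → ℕ → Bool := onCell 0 536870912 1073741824 536870912 1046898278 26843546
    (rowFX 1 true true true .pp 0 2 2 (qsf 0 536870912 1239849684 370763052 2) ndF0q0 ndF2q2b pcF2 Cut.none Ext.none)

def k0_pp_022_b : ∃ t, chk3 f_pp_022_b t 1 2 1 = true :=
  ⟨(a (b (l 1) (a (b (a (b (a (a (b (l 1) (c (l 16263120) (l 426307555159))) (l 1)) (l 1)) (a (c (a (l 291015485687) (b (l 416106890967) (l 15833920))) (a (b (c (l 16083184) (l 16011608)) (l 15840840)) (b (l 415033127703) (l 15798176)))) (a (b (l 1) (c (l 427917874807) (l 16133240))) (l 1)))) (l 1)) (a (b (a (c (a (l 15596336) (l 15645024)) (a (c (l 15586248) (l 15591616)) (l 15622480))) (c (a (c (l 295310247847) (l 236254498647)) (b (l 442413426359) (l 335038917303))) (a (l 15695560) (b (l 16085848) (l 15961264))))) (a (c (a (l 15332632) (l 15458680)) (a (c (l 15316640) (l 15318080)) (c (l 15474008) (l 15470408)))) (c (a (c (l 15610600) (l 15632328)) (l 15556696)) (l 15708816)))) (b (a (a (c (l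 481068222951) (l 507374869335)) (l 1)) (l 1)) (a (c (a (b (l 15988128) (l 15896448)) (b (l 481605238807) (l 16070704))) (b (a (l 15971040) (l 497174463159)) (l 15797320))) (b (l 1) (c (l 517038924119) (l 549788020455))))))) (l 1))) (l 1)), by decide +kernel⟩

def k1_pp_022_b : ∃ t, chk3 f_pp_022_b t 2 3 1 = true :=
  ⟨(b (a (b (a (c (a (b (l 15221152) (l 15041432)) (b (a (l 15428296) (l 15587320)) (c (l 15320064) (l 15326424)))) (a (b (a (l 15139016) (l 15280816)) (c (l 15031160) (l 15029264))) (b (l 15507360) (l 15312960)))) (a (c (b (a (l 15744248) (l 15926256)) (a (l 15544576) (l 15720520))) (b (l 15813856) (l 15501024))) (b (c (a (l 344166070903) (b (l 486437457143) (l 16228752))) (a (l 15945168) (b (l 432213468743) (l 16216216)))) (c (a (l 15904704) (l 16079552)) (l 15847736))))) (a (c (a (b (c (l 14886688) (l 14876528)) (l 14867920)) (b (c (l 15163872) (l 15167536)) (c (l 15145760) (l 15149096)))) (b (a (c (l 14871432) (l 14866720)) (l 15150032)) (a (l 14854024) (l 15131104))))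 (c (b (a (b (l 15477152) (l 15440344)) (b (l 15836288) (l 15793672))) (a (l 15440344) (l 15791696))) (b (a (b (l 15454344) (l 15416312)) (b (l 15812136) (l 15768144))) (a (l 15416312) (l 15766104)))))) (b (a (b (a (a (c (l 520797294599) (l 471405149031)) (l 1)) (l 1)) (b (a (c (a (l 16275032) (l 494490715271)) (a (l 16263272) (l 473015857047))) (l 1)) (a (c (a (l 16176704) (l 16312976)) (a (l 16162000) (l 16238856))) (c (l 678100729463) (a (l 481605860615) (l 1)))))) (l 1)) (b (b (a (a (c (l 16143000) (l 16126944)) (c (a (b (l 16369376) (l 16325272)) (l 687764367287)) (a (l 288332087031) (b (l 1) (l 449930542103))))) (l 1)) (a (c (a (l 16095344) (c (l 258267359463) (l 241087479911))) (a (l 16077792) (b (l 366715251063) (l 16357792)))) (a (a (a (c (l 668437206023) (l 453151956679)) (l 1)) (l 1)) (l 1)))) (b (a (c (a (l 16086752) (l 16360720)) (a (l 16068896) (l 16350160))) (a (b (a (c (l 532072040695) (l 313028697463)) (l 1)) (l 4)) (l 1))) (l 4))))) (a (l 4) (l 4))), by decide +kernel⟩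

def k2_pp_022_b : ∃ t, chk3 f_pp_022_b t 3 3 1 = true :=
  ⟨(b (l 1) (a (b (a (l 4) (l 1)) (l 4)) (l 1))), by decide +kernel⟩

theorem s3_pp_022_b : ∃ t, chk3 f_pp_022_b t 1 3 1 = true := ex3_a k1_pp_022_b k2_pp_022_b

theorem s4_pp_022_b : ∃ t, chk3 f_pp_022_b t 1 1 1 = true := ex3_b k0_pp_022_b s3_pp_022_b

theorem c_pp_022_b : CertFX 0 536870912 1239849684 370763052 1046898278 26843546 true true true .pp 0 2 2
    ndF0q0 ndF2q2b pcF2 Cut.none Ext.none :=
  certFX1 (fam := true) (s1 := true) (s2 := true) (a := 0) (b := 2) (c := 2) (cn := .pp) (n1 := ndF0q0) (n2 := ndF2q2b) (pc := pcF2) (cut := Cut.none) (xt := Ext.none) (P1 := 0) (W1 := 536870912) (P2 := 1239849684) (W2 := 370763052) (P3 := 1046898278) (W3 := 26843546)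
    rfl (fun _ => rfl) s4_pp_022_b

noncomputable def f_pp_023_a : ℕ → ℕ → ℕ → ℕ → Bool := onCell 1610612736 536870912 0 420477299 1046898278 26843546
    (rowFX 2 true true true .up 0 2 3 (qsf 0 536870912 0 420477299 3) ndF0q0 ndF2q2a pcF3 Cut.none Ext.none)

def k0_pp_023_a : ∃ t, chk3 f_pp_023_a t 1 1 1 = true :=
  ⟨(l 4), by decide +kernel⟩

theorem c_pp_023_a : CertFX 0 536870912 0 420477299 1046898278 26843546 true true true .up 0 2 3
    ndF0q0 ndF2q2a pcF3 Cut.none Ext.none :=
  certFX2 (fam := true) (s1 := true) (s2 := true) (a := 0) (b := 2) (c := 3) (cn := .up) (n1 := ndF0q0) (n2 := ndF2q2a) (pc := pcF3) (cut := Cut.none) (xt := Ext.none) (P1 := 0) (W1 := 536870912) (P2 := 0) (W2 := 420477299) (P3 := 1046898278) (W3 := 26843546)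
    rfl (fun _ => rfl) k0_pp_023_a

noncomputable def f_pp_023_b : ℕ → ℕ → ℕ → ℕ → Bool := onCell 0 536870912 1610612736 536870912 1046898278 26843546
    (rowFX 1 true true true .up 0 2 3 (qsf 0 536870912 1239849684 370763052 3) ndF0q0 ndF2q2b pcF3 Cut.none Ext.none)

def k0_pp_023_b : ∃ t, chk3 f_pp_023_b t 1 1 1 = true :=
  ⟨(b (l 4) (l 4)), by decide +kernel⟩

theorem c_pp_023_b : CertFX 0 536870912 1239849684 370763052 1046898278 26843546 true true true .up 0 2 3
    ndF0q0 ndF2q2b pcF3 Cut.none Ext.none :=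
  certFX1 (fam := true) (s1 := true) (s2 := true) (a := 0) (b := 2) (c := 3) (cn := .up) (n1 := ndF0q0) (n2 := ndF2q2b) (pc := pcF3) (cut := Cut.none) (xt := Ext.none) (P1 := 0) (W1 := 536870912) (P2 := 1239849684) (W2 := 370763052) (P3 := 1046898278) (W3 := 26843546)
    rfl (fun _ => rfl) k0_pp_023_b

noncomputable def f_pp_033 : ℕ → ℕ → ℕ → ℕ → Bool := onCell 0 536870912 1610612736 469762048 1046898278 26843546
    (rowFX 0 true true true .pnn 0 3 3 (qsf 0 536870912 1610612736 469762048 3) ndF0q0 ndF2q3 pcF3 Cut.none Ext.none)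

def k0_pp_033 : ∃ t, chk3 f_pp_033 t 1 1 1 = true :=
  ⟨(a (l 4) (l 4)), by decide +kernel⟩

theorem c_pp_033 : CertFX 0 536870912 1610612736 469762048 1046898278 26843546 true true true .pnn 0 3 3
    ndF0q0 ndF2q3 pcF3 Cut.none Ext.none :=
  certFX0 (fam := true) (s1 := true) (s2 := true) (a := 0) (b := 3) (c := 3) (cn := .pnn) (n1 := ndF0q0) (n2 := ndF2q3) (pc := pcF3) (cut := Cut.none) (xt := Ext.none) (P1 := 0) (W1 := 536870912) (P2 := 1610612736) (W2 := 469762048) (P3 := 1046898278) (W3 := 26843546)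
    rfl k0_pp_033

noncomputable def f_pp_101 : ℕ → ℕ → ℕ → ℕ → Bool := onCell 536870912 536870912 67108864 469762048 1046898278 26843546
    (rowFX 0 true true true .npn 1 0 1 (qsf 536870912 536870912 67108864 469762048 1) ndF0q1 ndF2q0 pcF1 Cut.none Ext.none)

def k0_pp_101 : ∃ t, chk3 f_pp_101 t 1 1 1 = true :=
  ⟨(l 5), by decide +kernel⟩

theorem c_pp_101 : CertFX 536870912 536870912 67108864 469762048 1046898278 26843546 true true true .npn 1 0 1
    ndF0q1 ndF2q0 pcF1 Cut.none Ext.none :=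
  certFX0 (fam := true) (s1 := true) (s2 := true) (a := 1) (b := 0) (c := 1) (cn := .npn) (n1 := ndF0q1) (n2 := ndF2q0) (pc := pcF1) (cut := Cut.none) (xt := Ext.none) (P1 := 536870912) (W1 := 536870912) (P2 := 67108864) (W2 := 469762048) (P3 := 1046898278) (W3 := 26843546)
    rfl k0_pp_101

noncomputable def f_pp_102 : ℕ → ℕ → ℕ → ℕ → Bool := onCell 536870912 536870912 67108864 469762048 1046898278 26843546
    (rowFX 0 true true true .npp 1 0 2 (qsf 536870912 536870912 67108864 469762048 2) ndF0q1 ndF2q0 pcF2 Cut.none Ext.none)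

def k0_pp_102 : ∃ t, chk3 f_pp_102 t 1 1 1 = true :=
  ⟨(l 5), by decide +kernel⟩

theorem c_pp_102 : CertFX 536870912 536870912 67108864 469762048 1046898278 26843546 true true true .npp 1 0 2
    ndF0q1 ndF2q0 pcF2 Cut.none Ext.none :=
  certFX0 (fam := true) (s1 := true) (s2 := true) (a := 1) (b := 0) (c := 2) (cn := .npp) (n1 := ndF0q1) (n2 := ndF2q0) (pc := pcF2) (cut := Cut.none) (xt := Ext.none) (P1 := 536870912) (W1 := 536870912) (P2 := 67108864) (W2 := 469762048) (P3 := 1046898278) (W3 := 26843546)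
    rfl k0_pp_102

noncomputable def f_pp_112 : ℕ → ℕ → ℕ → ℕ → Bool := onCell 536870912 536870912 536870912 536870912 1046898278 26843546
    (rowFX 0 true true true .dn 1 1 2 (qsf 536870912 536870912 536870912 536870912 2) ndF0q1 ndF2q1 pcF2 Cut.none Ext.none)

def k0_pp_112 : ∃ t, chk3 f_pp_112 t 1 1 1 = true :=
  ⟨(l 4), by decide +kernel⟩

theorem c_pp_112 : CertFX 536870912 536870912 536870912 536870912 1046898278 26843546 true true true .dn 1 1 2
    ndF0q1 ndF2q1 pcF2 Cut.none Ext.none :=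
  certFX0 (fam := true) (s1 := true) (s2 := true) (a := 1) (b := 1) (c := 2) (cn := .dn) (n1 := ndF0q1) (n2 := ndF2q1) (pc := pcF2) (cut := Cut.none) (xt := Ext.none) (P1 := 536870912) (W1 := 536870912) (P2 := 536870912) (W2 := 536870912) (P3 := 1046898278) (W3 := 26843546)
    rfl k0_pp_112

noncomputable def f_pp_113 : ℕ → ℕ → ℕ → ℕ → Bool := onCell 536870912 536870912 536870912 536870912 1046898278 26843546
    (rowFX 0 true true true .nn 1 1 3 (qsf 536870912 536870912 536870912 536870912 3) ndF0q1 ndF2q1 pcF3 Cut.none Ext.none)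

def k0_pp_113 : ∃ t, chk3 f_pp_113 t 1 1 1 = true :=
  ⟨(l 4), by decide +kernel⟩

theorem c_pp_113 : CertFX 536870912 536870912 536870912 536870912 1046898278 26843546 true true true .nn 1 1 3
    ndF0q1 ndF2q1 pcF3 Cut.none Ext.none :=
  certFX0 (fam := true) (s1 := true) (s2 := true) (a := 1) (b := 1) (c := 3) (cn := .nn) (n1 := ndF0q1) (n2 := ndF2q1) (pc := pcF3) (cut := Cut.none) (xt := Ext.none) (P1 := 536870912) (W1 := 536870912) (P2 := 536870912) (W2 := 536870912) (P3 := 1046898278) (W3 := 26843546)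
    rfl k0_pp_113

noncomputable def f_pp_123_a : ℕ → ℕ → ℕ → ℕ → Bool := onCell 536870912 536870912 0 420477299 1046898278 26843546
    (rowFX 0 true true true .npn 1 2 3 (qsf 536870912 536870912 0 420477299 3) ndF0q1 ndF2q2a pcF3 Cut.none Ext.none)

def k0_pp_123_a : ∃ t, chk3 f_pp_123_a t 1 1 1 = true :=
  ⟨(l 4), by decide +kernel⟩

theorem c_pp_123_a : CertFX 536870912 536870912 0 420477299 1046898278 26843546 true true true .npn 1 2 3
    ndF0q1 ndF2q2a pcF3 Cut.none Ext.none :=
  certFX0 (fam := true) (s1 := true) (s2 := true) (a := 1) (b := 2) (c := 3) (cn := .npn) (n1 := ndF0q1) (n2 := ndF2q2a) (pc := pcF3) (cut := Cut.none) (xt := Ext.none) (P1 := 536870912) (W1 := 536870912) (P2 := 0) (W2 := 420477299) (P3 := 1046898278) (W3 := 26843546)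
    rfl k0_pp_123_a

noncomputable def f_pp_123_b : ℕ → ℕ → ℕ → ℕ → Bool := onCell 536870912 536870912 1239849684 370763052 1046898278 26843546
    (rowFX 0 true true true .npn 1 2 3 (qsf 536870912 536870912 1239849684 370763052 3) ndF0q1 ndF2q2b pcF3 Cut.none Ext.none)

def k0_pp_123_b : ∃ t, chk3 f_pp_123_b t 1 1 1 = true :=
  ⟨(l 4), by decide +kernel⟩

theorem c_pp_123_b : CertFX 536870912 536870912 1239849684 370763052 1046898278 26843546 true true true .npn 1 2 3
    ndF0q1 ndF2q2b pcF3 Cut.none Ext.none :=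
  certFX0 (fam := true) (s1 := true) (s2 := true) (a := 1) (b := 2) (c := 3) (cn := .npn) (n1 := ndF0q1) (n2 := ndF2q2b) (pc := pcF3) (cut := Cut.none) (xt := Ext.none) (P1 := 536870912) (W1 := 536870912) (P2 := 1239849684) (W2 := 370763052) (P3 := 1046898278) (W3 := 26843546)
    rfl k0_pp_123_b

noncomputable def f_pp_133 : ℕ → ℕ → ℕ → ℕ → Bool := onCell 536870912 536870912 1610612736 469762048 1046898278 26843546
    (rowFX 0 true true true .dn 1 3 3 (qsf 536870912 536870912 1610612736 469762048 3) ndF0q1 ndF2q3 pcF3 Cut.none Ext.none)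

def k0_pp_133 : ∃ t, chk3 f_pp_133 t 1 1 1 = true :=
  ⟨(l 4), by decide +kernel⟩

theorem c_pp_133 : CertFX 536870912 536870912 1610612736 469762048 1046898278 26843546 true true true .dn 1 3 3
    ndF0q1 ndF2q3 pcF3 Cut.none Ext.none :=
  certFX0 (fam := true) (s1 := true) (s2 := true) (a := 1) (b := 3) (c := 3) (cn := .dn) (n1 := ndF0q1) (n2 := ndF2q3) (pc := pcF3) (cut := Cut.none) (xt := Ext.none) (P1 := 536870912) (W1 := 536870912) (P2 := 1610612736) (W2 := 469762048) (P3 := 1046898278) (W3 := 26843546)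
    rfl k0_pp_133

noncomputable def f_pp_202 : ℕ → ℕ → ℕ → ℕ → Bool := onCell 0 536870912 67108864 469762048 1046898278 26843546
    (rowFX 0 true true true .pp 2 0 2 (qsf 0 536870912 67108864 469762048 2) ndF0q2 ndF2q0 pcF2 Cut.none Ext.none)

def k0_pp_202 : ∃ t, chk3 f_pp_202 t 1 1 1 = true :=
  ⟨(l 5), by decide +kernel⟩

theorem c_pp_202 : CertFX 0 536870912 67108864 469762048 1046898278 26843546 true true true .pp 2 0 2
    ndF0q2 ndF2q0 pcF2 Cut.none Ext.none :=
  certFX0 (fam := true) (s1 := true) (s2 := true) (a := 2) (b := 0) (c := 2) (cn := .pp) (n1 := ndF0q2) (n2 := ndF2q0) (pc := pcF2) (cut := Cut.none) (xt := Ext.none) (P1 := 0) (W1 := 536870912) (P2 := 67108864) (W2 := 469762048) (P3 := 1046898278) (W3 := 26843546)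
    rfl k0_pp_202

noncomputable def f_pp_203 : ℕ → ℕ → ℕ → ℕ → Bool := onCell 0 536870912 67108864 469762048 1046898278 26843546
    (rowFX 0 true true true .up 2 0 3 (qsf 0 536870912 67108864 469762048 3) ndF0q2 ndF2q0 pcF3 Cut.none Ext.none)

def k0_pp_203 : ∃ t, chk3 f_pp_203 t 1 1 1 = true :=
  ⟨(l 5), by decide +kernel⟩

theorem c_pp_203 : CertFX 0 536870912 67108864 469762048 1046898278 26843546 true true true .up 2 0 3
    ndF0q2 ndF2q0 pcF3 Cut.none Ext.none :=
  certFX0 (fam := true) (s1 := true) (s2 := true) (a := 2) (b := 0) (c := 3) (cn := .up) (n1 := ndF0q2) (n2 := ndF2q0) (pc := pcF3) (cut := Cut.none) (xt := Ext.none) (P1 := 0) (W1 := 536870912) (P2 := 67108864) (W2 := 469762048) (P3 := 1046898278) (W3 := 26843546)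
    rfl k0_pp_203

noncomputable def f_pp_213 : ℕ → ℕ → ℕ → ℕ → Bool := onCell 0 536870912 536870912 536870912 1046898278 26843546
    (rowFX 0 true true true .pnn 2 1 3 (qsf 0 536870912 536870912 536870912 3) ndF0q2 ndF2q1 pcF3 Cut.none Ext.none)

def k0_pp_213 : ∃ t, chk3 f_pp_213 t 1 1 1 = true :=
  ⟨(l 4), by decide +kernel⟩

theorem c_pp_213 : CertFX 0 536870912 536870912 536870912 1046898278 26843546 true true true .pnn 2 1 3
    ndF0q2 ndF2q1 pcF3 Cut.none Ext.none :=
  certFX0 (fam := true) (s1 := true) (s2 := true) (a := 2) (b := 1) (c := 3) (cn := .pnn) (n1 := ndF0q2) (n2 := ndF2q1) (pc := pcF3) (cut := Cut.none) (xt := Ext.none) (P1 := 0) (W1 := 536870912) (P2 := 536870912) (W2 := 536870912) (P3 := 1046898278) (W3 := 26843546)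
    rfl k0_pp_213

noncomputable def f_pm_001 : ℕ → ℕ → ℕ → ℕ → Bool := onCell 0 536870912 67108864 469762048 1046898278 26843546
    (rowFX 0 true true false .up 0 0 1 (qsf 0 536870912 67108864 469762048 1) ndF0q0 ndF2q0 pcF1 Cut.none Ext.none)

def k0_pm_001 : ∃ t, chk3 f_pm_001 t 1 1 1 = true :=
  ⟨(l 3), by decide +kernel⟩

theorem c_pm_001 : CertFX 0 536870912 67108864 469762048 1046898278 26843546 true true false .up 0 0 1
    ndF0q0 ndF2q0 pcF1 Cut.none Ext.none :=
  certFX0 (fam := true) (s1 := true) (s2 := false) (a := 0) (b := 0) (c := 1) (cn := .up) (n1 := ndF0q0) (n2 := ndF2q0) (pc := pcF1) (cut := Cut.none) (xt := Ext.none) (P1 := 0) (W1 := 536870912) (P2 := 67108864) (W2 := 469762048) (P3 := 1046898278) (W3 := 26843546)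
    rfl k0_pm_001

noncomputable def f_pm_011 : ℕ → ℕ → ℕ → ℕ → Bool := onCell 0 536870912 536870912 536870912 1046898278 26843546
    (rowFX 1 true true false .pnn 0 1 1 (qsf 0 536870912 536870912 536870912 1) ndF0q0 ndF2q1 pcF1 Cut.none Ext.none)

def k0_pm_011 : ∃ t, chk3 f_pm_011 t 1 1 1 = true :=
  ⟨(l 3), by decide +kernel⟩

theorem c_pm_011 : CertFX 0 536870912 536870912 536870912 1046898278 26843546 true true false .pnn 0 1 1
    ndF0q0 ndF2q1 pcF1 Cut.none Ext.none :=
  certFX1 (fam := true) (s1 := true) (s2 := false) (a := 0) (b := 1) (c := 1) (cn := .pnn) (n1 := ndF0q0) (n2 := ndF2q1) (pc := pcF1) (cut := Cut.none) (xt := Ext.none) (P1 := 0) (W1 := 536870912) (P2 := 536870912) (W2 := 536870912) (P3 := 1046898278) (W3 := 26843546)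
    rfl (fun _ => rfl) k0_pm_011

noncomputable def f_pm_012 : ℕ → ℕ → ℕ → ℕ → Bool := onCell 0 536870912 1073741824 536870912 1046898278 26843546
    (rowFX 1 true true false .pnp 0 1 2 (qsf 0 536870912 536870912 536870912 2) ndF0q0 ndF2q1 pcF2 Cut.none Ext.none)

def k0_pm_012 : ∃ t, chk3 f_pm_012 t 1 8 1 = true :=
  ⟨(l 3), by decide +kernel⟩

def k1_pm_012 : ∃ t, chk3 f_pm_012 t 2 9 1 = true :=
  ⟨(b (l 3) (l 3)), by decide +kernel⟩

def k2_pm_012 : ∃ t, chk3 f_pm_012 t 3 18 1 = true :=
  ⟨(l 3), by decide +kernel⟩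

def k3_pm_012 : ∃ t, chk3 f_pm_012 t 3 38 1 = true :=
  ⟨(a (l 3) (a (l 3) (a (b (l 3) (a (b (l 3) (b (l 3) (c (c (l 578377744343) (c (l 599852580823) (l 612200611799))) (c (l 626696126423) (l 16777216))))) (c (b (b (l 3) (c (l 646560350215) (l 687899410439))) (c (c (l 385641086967) (l 401210343415)) (c (l 407115923447) (l 404968439799)))) (c (b (l 719037923335) (c (l 393694150647) (l 16777208))) (b (l 763598209031) (l 326585286631)))))) (b (a (l 3) (a (l 3) (b (l 3) (b (l 3) (c (c (l 525227524247) (l 519858815127)) (c (l 562271617175) (l 16777208))))))) (c (c (c (b (a (l 480130367447) (l 16777208)) (l 16777200)) (b (a (l 503215816711) (l 358260670455)) (l 16777200))) (c (b (a (l 524153782279) (l 362555637751)) (l 16777200)) (b (a (l 543481135111) (l 341617672183)) (l 16777200)))) (c (b (c (a (l 560124133303) (l 16777208)) (a (l 574619647927) (l 16777208))) (c (l 16777200) (l 16777200))) (b (c (l 323900932055) (l 16777208)) (c (l 16777200) (l 16777200))))))))), by decide +kernel⟩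

def k4_pm_012 : ∃ t, chk3 f_pm_012 t 3 78 1 = true :=
  ⟨(a (l 3) (a (a (a (l 3) (b (l 3) (c (c (l 701321183191) (l 709911117783)) (c (l 713132343255) (l 16777216))))) (c (b (a (c (l 784536174599) (l 801179172871)) (c (b (l 679309475799) (l 261623906263)) (c (l 600926322647) (l 606831902679)))) (c (c (l 16777208) (l 16777208)) (c (l 16777208) (l 16777208)))) (c (b (c (a (l 812453461975) (l 610589999031)) (l 687899410359)) (c (l 16777208) (l 16777208))) (b (c (l 689510023095) (l 16777216)) (l 16777208))))) (c (b (c (a (c (a (l 16777208) (l 16777200)) (a (l 16777208) (l 16777200))) (c (l 16777192) (l 16777192))) (a (c (a (l 16777208) (l 16777200)) (a (l 16777208) (l 16777200))) (c (l 16777192) (l 16777192)))) (c (a (c (l 16777200) (l 16777200)) (c (l 16776104) (l 16776096))) (a (c (l 16777200) (l 16777200)) (c (l 16776088) (l 16776080))))) (b (c (c (a (l 16777208) (l 16777192)) (a (l 16777208) (l 16777192))) (c (a (l 16777208) (l 16777192)) (l 16777200))) (c (a (c (l 16777200) (l 16777200))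 (c (l 16776072) (l 16776064))) (a (l 16777200) (c (l 16776056) (l 16776048)))))))), by decide +kernel⟩

def k5_pm_012 : ∃ t, chk3 f_pm_012 t 3 79 1 = true :=
  ⟨(a (a (l 3) (a (c (b (l 3) (c (l 940765599319) (l 945060553047))) (c (l 914458925463) (l 914995781511))) (c (b (c (l 831780814855) (l 836075782151)) (c (a (l 648707832855) (l 16777208)) (c (l 16777208) (l 16777208)))) (c (b (l 836612653015) (l 16777208)) (b (l 16777216) (l 16777208)))))) (c (a (b (c (a (c (l 16777208) (l 16777208)) (l 16777200)) (a (c (l 16777208) (l 16777208)) (l 16777200))) (c (c (l 16777200) (l 16777200)) (c (l 16777200) (l 16777200)))) (a (a (c (b (l 16777192) (l 16776608)) (b (l 16777192) (l 16776600))) (b (c (l 16777192) (l 16777192)) (c (b (l 16776216) (l 16774048)) (b (l 16776200) (l 16774000))))) (b (c (a (b (l 16777184) (l 16775416)) (b (l 16774064) (l 16768432))) (a (b (l 16777184) (l 16775400)) (b (l 16774024) (l 16768320)))) (b (c (l 16767464) (l 16767336)) (l 16762360))))) (b (a (c (c (l 16777208)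 (l 16777208)) (c (l 16777208) (l 16777208))) (c (a (l 16777192) (c (a (l 16775336) (l 16771272)) (a (l 16775328) (l 16771240)))) (a (l 16777192) (c (l 16772024) (l 16771992))))) (a (c (c (l 16777200) (l 16777200)) (l 16777200)) (b (c (a (l 16776120) (l 16767208)) (a (l 16776104) (l 16767080))) (a (c (a (l 16776712) (l 16773960)) (l 16774688)) (l 16761968))))))), by decide +kernel⟩

def k6_pm_012 : ∃ t, chk3 f_pm_012 t 4 5 1 = true :=
  ⟨(b (b (b (l 3) (l 2)) (l 2)) (l 2)), by decide +kernel⟩

def k7_pm_012 : ∃ t, chk3 f_pm_012 t 10 5 1 = true :=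
  ⟨(b (b (b (l 3) (a (a (b (l 3) (l 2)) (b (b (l 3) (c (l 16431448) (l 16423352))) (b (c (b (l 16436256) (l 16439400)) (b (l 16428344) (l 16410664))) (a (l 2) (b (b (c (l 16464784) (l 16457672)) (c (l 294842128663) (b (l 16458896) (l 16459704)))) (a (l 2) (b (b (b (c (l 16478744) (l 16472032)) (b (c (l 16479592) (l 16472904)) (l 16478448))) (l 16479944)) (l 16480936)))))))) (b (b (c (l 16558776) (l 1594673734679)) (c (c (l 16566744) (l 16564368)) (b (l 16559072) (l 16562560)))) (b (c (b (l 16570552) (c (l 16574944) (l 16572744))) (b (l 16566016) (l 16485552))) (b (b (c (l 16576288) (l 16571984)) (b (c (l 16577776) (l 16573536)) (c (c (l 16580504) (l 16578416)) (c (l 16576328) (l 16574232))))) (a (b (b (b (c (l 16535912) (l 16530632)) (b (c (l 16537888) (l 16532664)) (l 16537816))) (l 16539280)) (l 16540272)) (l 16628088))))))) (a (a (l 2) (c (l 16470896) (l 267998459207))) (c (l 189615504791) (l 343160572039)))) (a (l 2) (a (l 2) (b (b (l 228807354775) (l 2)) (l 2))))), by decide +kernel⟩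

def k8_pm_012 : ∃ t, chk3 f_pm_012 t 11 5 1 = true :=
  ⟨(a (b (b (b (b (l 3) (b (l 3) (c (l 1478173090263) (l 1332681076503)))) (b (b (c (a (l 16684632) (l 16709904)) (a (l 16682904) (l 16709360))) (c (c (l 16710872) (l 16689752)) (c (l 16689600) (l 16689456)))) (b (c (b (c (l 16736944) (l 16736912)) (c (l 16712960) (l 16691936))) (b (c (l 16736880) (l 16736848)) (c (l 16670904) (l 16691816)))) (b (b (c (c (l 16728248) (l 16728112)) (c (l 16707008) (l 16727848))) (a (b (c (l 16705472) (l 16704632)) (l 16709056)) (l 16687752))) (c (l 16669560) (l 16668792)))))) (c (l 16659232) (l 16657224))) (b (c (l 227733229943) (a (l 445166078823) (l 16524304))) (a (l 2) (c (l 16425824) (l 273367050151))))) (b (b (b (b (l 3) (a (b (l 3) (c (l 1010021697415) (l 889225741543))) (c (b (l 1267719803175) (l 16699712)) (b (l 1334291793175) (l 550460237319))))) (b (b (c (a (c (l 16672912) (l 16671608)) (l 16687784)) (c (l 16678144) (l 16676912))) (c (c (a (l 16660736) (l 16676440)) (a (l 16659272) (l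 16675120))) (c (a (l 16657808) (l 16673800)) (a (l 16656344) (l 16672488))))) (b (a (b (c (a (l 16663064) (l 16638632)) (a (l 16660336) (l 16635056))) (c (c (l 16623264) (l 16621584)) (c (l 16598936) (l 16618232)))) (b (c (c (l 16667032) (l 16665592)) (c (l 16664144) (l 16662704))) (b (c (l 16660624) (l 16657584)) (l 16653096)))) (b (c (l 16637608) (l 16633984)) (c (a (l 16618416) (l 16632704)) (a (l 16614328) (l 16628856))))))) (a (c (l 16568288) (l 16562944)) (l 16581488))) (b (c (l 16482680) (a (l 16465872) (l 16484360))) (c (l 257260828711) (a (l 394162899511) (l 16381320)))))), by decide +kernel⟩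

def k9_pm_012 : ∃ t, chk3 f_pm_012 t 3 40 2 = true :=
  ⟨(a (b (a (a (b (l 3) (c (l 1198463537319) (l 1141018349847))) (b (c (l 1044381659143) (l 1033107355095)) (c (l 518248147943) (l 407115868631)))) (b (c (a (l 324437776487) (l 16777096)) (a (l 16749440) (l 16777088))) (c (a (l 16769080) (l 16776824)) (a (l 16768976) (l 16776816))))) (a (b (a (c (a (l 16758448) (l 16756672)) (a (l 16758200) (l 16756408))) (c (l 16755752) (l 16755472))) (a (c (l 16747944) (l 16768808)) (c (l 16754224) (l 16753920)))) (b (c (a (l 16767640) (b (l 16776592) (l 16776432))) (a (l 16767520) (l 16755488))) (c (a (l 16766176) (b (l 16776120) (l 16775256))) (a (l 16766032) (b (l 16776112) (l 16775216))))))) (a (a (b (b (c (l 16777200) (l 16777200)) (c (b (l 16777200) (l 16776784)) (b (l 16777200) (l 16776776)))) (b (c (b (l 16776416) (l 16776176)) (b (l 16776408) (l 16776168))) (l 16776744))) (b (b (c (b (l 16777056) (l 16776128)) (b (l 16777056) (l 16776120))) (c (b (l 16775168) (l 16773776)) (b (l 16775136)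 (l 16773736)))) (l 16774832))) (b (b (a (a (b (c (l 16775304) (l 16775280)) (l 16772048)) (l 16767808)) (l 16758696)) (a (l 16767120) (l 16759680))) (c (l 16772824) (l 16751792))))), by decide +kernel⟩

def k10_pm_012 : ∃ t, chk3 f_pm_012 t 3 40 3 = true :=
  ⟨(a (b (a (a (c (l 1054045310263) (l 1105047991575)) (c (b (l 1015390614519) (l 16756752)) (l 778630538631))) (b (c (a (l 16770328) (l 16777088)) (l 16773584)) (c (a (l 16768864) (l 16776808)) (l 16772744)))) (a (a (c (b (l 16713600) (l 16768696)) (b (l 16776504) (l 16768584))) (c (b (l 16755192) (l 16753624)) (l 16754120))) (b (c (a (l 16767392) (l 16776456)) (l 16772048)) (c (a (l 16765888) (b (l 16776096) (l 16775176))) (a (l 16765744) (l 16775624)))))) (a (b (b (c (a (l 16777200) (b (l 16777056) (l 16776104))) (a (l 16777200) (l 16775912))) (c (a (l 16776648) (b (l 16775112) (l 16773688))) (a (l 16776640) (b (l 16775088) (l 16773640))))) (b (a (c (b (l 16776392) (l 16776152)) (l 16776024)) (l 16773048)) (l 16776528))) (b (b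 (a (b (c (l 16772536) (l 16772480)) (l 16769104)) (l 16758216)) (c (l 16763144) (l 16762968))) (c (l 16772712) (l 16772648))))), by decide +kernel⟩

def k11_pm_012 : ∃ t, chk3 f_pm_012 t 6 41 1 = true :=
  ⟨(a (a (b (b (c (c (l 16758432) (l 16758184)) (c (l 16757936) (l 16757696))) (c (b (c (l 16749832) (l 16749472)) (c (l 16701496) (l 16701048))) (b (l 16706992) (c (l 16721576) (l 16742104))))) (b (b (c (c (l 16672816) (l 16672264)) (c (l 16692688) (l 16713104))) (c (l 16724712) (l 16723304))) (b (c (l 16712768) (l 16711024)) (c (a (l 16679184) (l 16724800)) (l 16679128))))) (b (c (b (c (b (l 16753152) (l 16752592)) (b (l 16752840) (l 16752256))) (b (c (a (l 16750504) (l 16753024)) (l 16751352)) (a (c (l 16749744) (l 16749232)) (l 16747712)))) (b (c (l 16752264) (l 16751928)) (b (c (l 16750952) (l 16750552)) (c (l 16748080) (l 16747504))))) (b (c (c (l 16741504) (l 16740560)) (l 16739136)) (b (c (l 16732592) (l 16730216)) (c (c (a (l 16737528) (l 16720736)) (l 16707512)) (a (l 16735016)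 (l 16717016))))))) (c (b (b (a (c (b (l 16764688) (l 16762616)) (b (l 16764504) (l 16762336))) (l 16770776)) (c (l 16757336) (l 16756872))) (c (b (l 16741336) (b (l 16731888) (a (l 16724712) (a (l 16728272) (l 16730464))))) (b (l 16740584) (b (l 16730968) (a (l 16723496) (l 16728592)))))) (b (b (a (c (b (l 16764320) (l 16762064)) (l 16762600)) (l 16770504)) (l 16756176)) (b (l 16739456) (b (l 16729592) (c (l 16725152) (l 16724144))))))), by decide +kernel⟩

def k12_pm_012 : ∃ t, chk3 f_pm_012 t 7 41 1 = true :=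
  ⟨(b (c (a (c (l 16760456) (l 16760240)) (c (l 16750800) (l 16750456))) (a (c (l 16760024) (l 16759800)) (c (l 16750104) (l 16749760)))) (b (c (a (c (l 16734936) (l 16734384)) (c (l 16720248) (l 16719504))) (a (l 16712584) (c (l 16718760) (l 16718016)))) (a (b (c (c (l 16728424) (l 16727792)) (l 16726832)) (b (c (b (b (l 16725856) (a (l 16727368) (l 16721808))) (l 16724128)) (c (a (l 16727080) (l 16721328)) (l 16723536))) (c (l 16724808) (l 16723448)))) (b (c (c (l 16715864) (l 16715056)) (c (l 16714256) (l 16713456))) (b (b (b (c (l 16714304) (l 16712672)) (b (c (a (l 16716568) (l 16714704)) (l 16716576)) (c (a (l 16716072) (a (l 16712232) (l 16697544))) (a (l 16714488) (l 16695696))))) (c (a (l 16716120) (l 16718312)) (l 16698272))) (c (a (l 16716888) (l 16719040)) (l 16699008))))))), by decide +kernel⟩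

def k13_pm_012 : ∃ t, chk3 f_pm_012 t 3 21 1 = true :=
  ⟨(a (a (c (a (l 16655672) (l 16720072)) (a (l 16652416) (l 16740088))) (c (a (l 16733128) (l 16734672)) (l 16691096))) (a (c (l 16737648) (l 16736520)) (c (a (l 16733376) (a (l 16730384) (l 16736336))) (a (l 16732240) (l 16733984))))), by decide +kernel⟩

def k14_pm_012 : ∃ t, chk3 f_pm_012 t 3 11 1 = true :=
  ⟨(a (a (a (c (l 16435192) (b (l 16561584) (l 16461584))) (c (l 16555816) (l 16467792))) (c (b (l 16764112) (l 16670872)) (b (l 16679880) (a (l 16667008) (l 16756544))))) (c (c (a (l 16760056) (l 16769664)) (a (l 16759712) (l 16769536))) (c (a (l 16759376) (l 16769416)) (a (l 16759040) (l 16769296))))), by decide +kernel⟩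

def k15_pm_012 : ∃ t, chk3 f_pm_012 t 1 3 1 = true :=
  ⟨(a (a (l 2) (b (a (l 2) (b (b (a (l 2) (a (l 2) (a (l 2) (l 307726561783)))) (l 2)) (l 2))) (l 2))) (a (b (a (a (b (c (b (l 16365192) (l 123579691399)) (b (l 411879566183) (c (l 262629242679) (l 371614265543)))) (l 2)) (b (c (l 247597094407) (b (l 16461592) (l 417248275303))) (a (l 2) (a (l 2) (b (l 290009821687) (l 2)))))) (b (a (c (l 16500048) (l 16388536)) (c (l 16579232) (l 16575184))) (a (c (l 200889099511) (b (l 430133177191) (l 409195236103))) (c (l 210553006727) (b (l 16461592) (l 445165562727)))))) (a (l 2) (a (l 2) (a (l 2) (b (c (l 203036476775) (l 418321988327)) (l 2)))))) (b (a (b (c (a (l 16712816) (l 16770080)) (a (l 16711144) (l 16769888))) (c (a (l 16500048) (l 16600208)) (a (l 16430480) (l 16596152)))) (b (c (l 16765408) (a (l 16762880) (l 16769256))) (a (c (l 16712816) (l 16711144)) (c (l 16770080) (l 16769888))))) (a (a (b (c (l 233638225143) (b (l 445702433639) (l 424227621639))) (l 2)) (b (c (l 16376008)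 (l 350676275127)) (c (l 215384393783) (b (l 419932654343) (l 2))))) (b (c (a (l 16521024) (l 16621176)) (a (l 16451448) (l 16596152))) (a (c (l 259408028919) (b (l 436038757223) (l 414563945223))) (c (l 16417944) (l 362487435191)))))))), by decide +kernel⟩

theorem s16_pm_012 : ∃ t, chk3 f_pm_012 t 3 41 1 = true := ex3_a k11_pm_012 k12_pm_012

theorem s17_pm_012 : ∃ t, chk3 f_pm_012 t 3 40 1 = true := ex3_c k9_pm_012 k10_pm_012

theorem s18_pm_012 : ∃ t, chk3 f_pm_012 t 3 20 1 = true := ex3_b s17_pm_012 s16_pm_012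

theorem s19_pm_012 : ∃ t, chk3 f_pm_012 t 3 10 1 = true := ex3_b s18_pm_012 k13_pm_012

theorem s20_pm_012 : ∃ t, chk3 f_pm_012 t 3 5 1 = true := ex3_b s19_pm_012 k14_pm_012

theorem s21_pm_012 : ∃ t, chk3 f_pm_012 t 5 5 1 = true := ex3_a k7_pm_012 k8_pm_012

theorem s22_pm_012 : ∃ t, chk3 f_pm_012 t 2 5 1 = true := ex3_a k6_pm_012 s21_pm_012

theorem s23_pm_012 : ∃ t, chk3 f_pm_012 t 1 5 1 = true := ex3_a s22_pm_012 s20_pm_012

theorem s24_pm_012 : ∃ t, chk3 f_pm_012 t 3 39 1 = true := ex3_b k4_pm_012 k5_pm_012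

theorem s25_pm_012 : ∃ t, chk3 f_pm_012 t 3 19 1 = true := ex3_b k3_pm_012 s24_pm_012

theorem s26_pm_012 : ∃ t, chk3 f_pm_012 t 3 9 1 = true := ex3_b k2_pm_012 s25_pm_012

theorem s27_pm_012 : ∃ t, chk3 f_pm_012 t 1 9 1 = true := ex3_a k1_pm_012 s26_pm_012

theorem s28_pm_012 : ∃ t, chk3 f_pm_012 t 1 4 1 = true := ex3_b k0_pm_012 s27_pm_012

theorem s29_pm_012 : ∃ t, chk3 f_pm_012 t 1 2 1 = true := ex3_b s28_pm_012 s23_pm_012

theorem s30_pm_012 : ∃ t, chk3 f_pm_012 t 1 1 1 = true := ex3_b s29_pm_012 k15_pm_012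

theorem c_pm_012 : CertFX 0 536870912 536870912 536870912 1046898278 26843546 true true false .pnp 0 1 2
    ndF0q0 ndF2q1 pcF2 Cut.none Ext.none :=
  certFX1 (fam := true) (s1 := true) (s2 := false) (a := 0) (b := 1) (c := 2) (cn := .pnp) (n1 := ndF0q0) (n2 := ndF2q1) (pc := pcF2) (cut := Cut.none) (xt := Ext.none) (P1 := 0) (W1 := 536870912) (P2 := 536870912) (W2 := 536870912) (P3 := 1046898278) (W3 := 26843546)
    rfl (fun _ => rfl) s30_pm_012

noncomputable def f_pm_022_a : ℕ → ℕ → ℕ → ℕ → Bool := onCell 1073741824 536870912 0 420477299 1046898278 26843546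
    (rowFX 2 true true false .pp 0 2 2 (qsf 0 536870912 0 420477299 2) ndF0q0 ndF2q2a pcF2 Cut.none Ext.none)

def k0_pm_022_a : ∃ t, chk3 f_pm_022_a t 4 2 1 = true :=
  ⟨(l 1), by decide +kernel⟩

def k1_pm_022_a : ∃ t, chk3 f_pm_022_a t 4 6 1 = true :=
  ⟨(a (l 1) (a (l 1) (b (a (l 1) (a (l 1) (b (l 1) (c (l 16514120) (l 16384008))))) (a (a (l 1) (b (l 1) (c (l 16246128) (c (l 16368048) (l 16328392))))) (c (c (b (l 16414120) (l 16401272)) (b (l 16455528) (l 16405408))) (c (b (l 16437856) (a (l 16493552) (l 16416584))) (b (a (l 16437672) (l 16413240)) (a (l 16381344) (l 16400288))))))))), by decide +kernel⟩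

def k2_pm_022_a : ∃ t, chk3 f_pm_022_a t 4 14 1 = true :=
  ⟨(a (l 1) (b (a (l 1) (c (a (a (c (b (l 16313984) (l 16338672)) (l 16322808)) (c (l 16393136) (l 16412472))) (c (a (l 16484280) (l 16411728)) (a (l 16490880) (l 16373600)))) (a (a (c (l 16319304) (c (l 16318728) (l 16259056))) (c (b (l 16421520) (l 16450856)) (a (l 16331120) (l 16411472)))) (a (c (l 16360920) (l 16450832)) (c (b (l 16442840) (l 16406224)) (l 16404144)))))) (a (a (l 1) (c (c (a (l 16176400) (l 16271064)) (l 16197568)) (c (l 16192696) (a (l 16159424) (c (l 16263328) (l 16245856)))))) (c (a (a (c (l 16365112) (l 16363088)) (c (l 16428208) (a (l 16444696) (l 16506816)))) (c (a (l 16502936) (l 16400728)) (c (l 16360648) (l 16282912)))) (a (c (a (l 16265112) (b (l 16394128) (l 16389072))) (a (c (l 16315664) (l 16323600)) (l 16426416))) (c (a (l 16464616) (l 16415176)) (l 16386848))))))), by decide +kernel⟩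

def k3_pm_022_a : ∃ t, chk3 f_pm_022_a t 4 30 1 = true :=
  ⟨(a (l 1) (a (a (a (l 1) (c (c (l 16144144) (l 16137504)) (c (l 16130872) (b (l 1) (l 16144624))))) (c (c (a (l 16232128) (l 16319304)) (a (l 16226728) (l 16318424))) (c (a (l 16224248) (c (l 16322064) (l 16266968))) (a (c (l 16163880) (b (l 16206376) (l 16250912))) (c (l 16255368) (l 16324976)))))) (c (a (c (a (l 16326688) (l 16417096)) (a (l 16316016) (c (l 16475064) (l 16469192)))) (c (c (l 16336616) (l 16282104)) (c (l 16266360) (l 16316456)))) (a (c (c (a (l 16331448) (l 16485928)) (b (l 16265752) (l 16347056))) (c (l 16311480) (l 16413968))) (c (l 16327928) (l 16408768)))))), by decide +kernel⟩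

def k4_pm_022_a : ∃ t, chk3 f_pm_022_a t 4 31 1 = true :=
  ⟨(a (b (l 1) (b (l 1) (a (l 1) (a (l 1) (a (l 1) (c (c (c (c (l 16101008) (l 16102968)) (l 16099456)) (l 16095440)) (c (l 16087888) (l 16080408)))))))) (a (c (c (a (c (b (c (l 16050304) (l 16155352)) (c (l 16197728) (l 16130800))) (b (l 16152848) (c (l 16170072) (l 16191144)))) (c (a (b (l 16276320) (l 16228840)) (b (l 16337912) (c (l 16397728) (l 16395680)))) (l 16174296))) (a (a (l 16126528) (l 16209368)) (a (b (l 16275312) (l 16317640)) (b (l 16371584) (l 16360848))))) (a (c (a (l 16119656) (b (l 16184800) (l 16169088))) (a (b (l 16092464) (c (l 16138896) (a (l 16114600) (l 16164408)))) (b (c (l 16186104) (l 16127848)) (c (l 16135608) (l 16226856))))) (a (c (c (l 16243472) (b (l 16284976) (l 16341928))) (c (b (l 16295832) (l 16351688)) (l 16327728))) (c (c (b (l 16388888) (l 16423880)) (l 16345752)) (l 16366944))))) (c (c (c (b (a (a (a (l 16425720) (l 16476568)) (l 16547176)) (l 16348480)) (a (a (c (l 16408032) (l 16409664))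 (l 16465200)) (a (l 16369568) (c (l 16363528) (l 16374952))))) (a (a (l 16403560) (l 16507952)) (l 16214440))) (a (a (a (l 16333504) (b (l 16470048) (l 16482192))) (a (l 16438200) (l 16504928))) (c (l 16285440) (l 16382032)))) (a (c (a (c (l 16407464) (l 16496560)) (l 16547960)) (l 16431608)) (c (l 16399864) (l 16396872)))))), by decide +kernel⟩

def k5_pm_022_a : ∃ t, chk3 f_pm_022_a t 5 2 1 = true :=
  ⟨(a (a (b (a (l 1) (b (l 16119848) (c (l 16397520) (l 16191808)))) (b (a (l 1) (c (l 16429696) (c (l 16428864) (l 16210208)))) (a (c (b (l 16324648) (b (a (l 1) (l 16132712)) (l 16157456))) (b (l 16276544) (a (l 16344600) (c (l 16233144) (b (l 16223800) (l 16225904)))))) (b (c (l 16351584) (c (l 16341168) (l 16242992))) (c (a (c (l 16206824) (l 16223832)) (a (b (l 16318704) (l 16372616)) (l 16412984))) (a (c (l 16192040) (b (l 16223624) (l 16252808))) (c (a (l 16351344) (l 16472656)) (l 16274512)))))))) (b (c (a (l 16074512) (b (l 15792664) (l 15823416))) (a (b (l 15987448) (c (l 16094808)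 (l 16089856))) (l 15595936))) (b (a (c (l 16061144) (c (l 16080968) (l 16157472))) (c (c (l 15896664) (l 15917744)) (l 15923728))) (c (a (a (b (l 16328872) (b (l 16390880) (l 16266928))) (c (l 16011080) (l 16016976))) (a (c (l 15910904) (l 16041384)) (l 15869392))) (b (c (l 15933592) (l 16075552)) (a (a (l 16239000) (l 16246640)) (l 16087864))))))) (c (a (b (a (b (l 15574912) (l 15601840)) (l 15384680)) (b (a (l 15679784) (l 15460624)) (a (l 15650168) (l 15603528)))) (b (l 15432640) (b (l 15521512) (l 15641872)))) (a (b (l 15473912) (b (l 15556720) (l 15672864))) (b (l 15334456) (b (l 15488656) (l 15633928)))))), by decide +kernel⟩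

def k6_pm_022_a : ∃ t, chk3 f_pm_022_a t 5 12 1 = true :=
  ⟨(a (a (a (c (a (c (l 16389224) (l 16387336)) (c (l 16229336) (l 16264360))) (c (a (l 16361256) (b (l 16250408) (l 16253768))) (a (b (l 16372480) (l 16343032)) (b (l 16234264) (l 16237008))))) (c (a (c (l 16236080) (l 16180072)) (c (b (l 16362968) (l 16300696)) (c (l 16274376) (l 16262736)))) (a (c (b (l 16271432) (l 16259448)) (l 16163984)) (c (b (l 16386600) (l 16380408)) (l 16342688))))) (c (a (c (b (l 16255880) (l 16260504)) (a (l 16378288) (l 16317040))) (c (b (a (l 16232376) (l 16121336)) (l 16150360)) (a (l 16223280) (l 16171944)))) (a (a (l 16345488) (l 16397048)) (b (l 16168528) (l 16260328))))) (a (c (c (a (b (l 15849280) (l 16041464)) (b (l 15752240) (l 15862072))) (a (l 15891576) (l 15796056))) (a (b (l 15934384) (l 16025064)) (b (l 15719896) (l 15833592)))) (c (a (a (a (c (l 15657168) (l 15706472)) (l 15751368)) (l 15814440)) (l 15931720)) (a (b (l 15542832) (l 15804624)) (l 15910184))))), by decide +kernel⟩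

def k7_pm_022_a : ∃ t, chk3 f_pm_022_a t 5 13 1 = true :=
  ⟨(a (a (a (c (c (b (l 16190544) (a (l 16382248) (l 16195520))) (a (b (l 16391488) (l 16365928)) (b (l 16262816) (l 16146864)))) (a (c (b (l 16376088) (l 16321504)) (b (l 16337584) (l 16330528))) (c (b (l 16238080) (l 16205848)) (l 16208104)))) (c (a (c (b (l 16284064) (l 16223064)) (b (l 16257304) (l 16212328))) (c (b (a (l 16358688) (l 16417560)) (a (l 16193912) (l 16354736))) (a (b (l 16326488) (l 16269904)) (l 16294832)))) (a (c (l 16127992) (l 16204200)) (c (l 16230000) (l 16246896))))) (c (a (c (b (c (l 16422928) (l 16473128)) (a (l 16354544) (l 16469232))) (a (l 16304008) (l 16530448))) (a (c (b (l 16355400) (l 16503128)) (l 16435632)) (b (l 16294816) (l 16362008)))) (a (c (l 16404384) (l 16361496)) (b (l 16282240) (l 16304328))))) (a (c (b (a (l 15981128) (l 15937336)) (c (a (l 16279576) (l 16119632)) (l 15961784))) (a (l 15950760) (l 15926136))) (c (a (a (c (b (l 15919632) (l 15992344)) (l 15977984)) (l 16054152))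 (l 16154064)) (a (a (l 15816448) (l 16036376)) (l 16138936))))), by decide +kernel⟩

def k8_pm_022_a : ∃ t, chk3 f_pm_022_a t 20 7 1 = true :=
  ⟨(c (a (b (a (c (b (l 16266528) (l 16248144)) (b (l 16175992) (l 16302600))) (c (b (c (l 16230400) (l 16212152)) (c (l 16207912) (l 16189720))) (b (c (l 16192688) (l 16178016)) (l 16173888)))) (c (c (b (a (l 16311096) (l 16179152)) (b (l 16153360) (c (a (l 16254368) (l 16135616)) (l 16184392)))) (b (a (l 16292144) (l 16167448)) (l 16043184))) (b (a (l 16281616) (l 16154792)) (l 16083136)))) (b (a (c (b (c (l 16199480) (l 16180688)) (c (l 16167048) (l 16152272))) (b (l 16099552) (l 16138288))) (c (b (a (a (l 16220208) (l 16242048)) (l 16283048)) (a (c (l 16195712) (l 16182512)) (l 16238912))) (b (l 16172000) (l 16204928)))) (c (c (a (b (l 16129480) (b (l 16099288) (l 15988288))) (b (l 16170072) (b (l 16119104) (a (a (l 16057272) (l 16068008)) (l 16095808))))) (a (b (l 16123560) (l 16078536)) (b (l 16166704) (l 16093712)))) (a (b (l 16118104)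 (l 16072424)) (b (l 16161664) (l 16087704)))))) (a (b (c (b (a (l 16299400) (l 16165736)) (l 16220088)) (b (l 16224624) (l 16215936))) (c (b (l 16207976) (l 16181576)) (b (l 16202144) (l 16175152)))) (b (a (c (l 16140520) (l 16071072)) (c (l 16089096) (b (l 16224680) (l 16193176)))) (a (c (b (l 16110824) (l 16064280)) (b (l 16103552) (l 16056128))) (c (b (l 16154944) (l 16079696)) (b (l 16148216) (l 16071688))))))), by decide +kernel⟩

def k9_pm_022_a : ∃ t, chk3 f_pm_022_a t 21 7 1 = true :=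
  ⟨(c (b (a (b (c (a (l 16242192) (l 16409784)) (l 16327856)) (c (a (l 16318736) (l 16413712)) (l 16339544))) (c (b (l 16427880) (l 16460168)) (b (l 16511384) (l 16521984)))) (a (c (c (b (l 16297584) (b (l 16233344) (l 16187744))) (l 16082952)) (b (l 16291384) (l 16201352))) (c (b (l 16394200) (l 16274112)) (b (l 16433472) (l 16353640))))) (b (a (c (b (l 16367080) (l 16356808)) (b (l 16343392) (l 16353096))) (c (l 16393448) (l 16351136))) (a (c (l 16093904) (b (l 16281472) (l 16188392))) (c (l 16254296) (b (l 16428136) (l 16344936)))))), by decide +kernel⟩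

def k10_pm_022_a : ∃ t, chk3 f_pm_022_a t 11 7 1 = true :=
  ⟨(a (b (c (a (c (b (l 16331112) (l 16425936)) (b (l 16390920) (l 16508352))) (c (b (l 16175312) (l 16353248)) (b (l 16253488) (l 16370152)))) (a (c (l 16343096) (l 16277896)) (c (l 16222320) (l 16133528)))) (c (a (c (b (l 16512512) (l 16409648)) (b (l 16554216) (l 16428616))) (c (b (l 16424344) (l 16500488)) (l 16378040))) (a (c (l 16375968) (l 16332912)) (b (l 16397368) (l 16478128))))) (a (b (c (c (a (b (a (l 16175896) (l 16203304)) (l 16301184)) (l 16304864)) (b (l 16213264) (l 16325368))) (c (l 16222256) (l 16069784))) (c (c (b (l 16318424) (l 16438848)) (b (l 16441088) (l 16521472))) (c (l 16396176) (l 16331048)))) (b (c (b (l 16337896) (l 16444776)) (l 16320976)) (c (l 16467136) (l 16487136))))), by decide +kernel⟩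

def k11_pm_022_a : ∃ t, chk3 f_pm_022_a t 3 2 1 = true :=
  ⟨(a (a (b (a (c (l 15773440) (l 15747032)) (c (l 16062592) (l 16043712))) (a (b (l 15841920) (l 15964864)) (c (b (l 16132504) (l 16240952)) (l 16152536)))) (b (c (a (l 16239888) (l 16546320)) (a (l 16311712) (l 16561672))) (a (c (b (l 16388488) (l 16445840)) (l 16242568)) (b (l 16498648) (c (l 16621624) (l 16703680)))))) (b (a (a (c (l 16673192) (l 16714344)) (l 16702392)) (c (l 16703352) (l 16701432))) (a (c (b (l 16723408) (l 16771272)) (b (l 16722080) (l 16771112))) (c (b (l 16722096) (l 16771272)) (l 16731416))))), by decide +kernel⟩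

def k12_pm_022_a : ∃ t, chk3 f_pm_022_a t 3 3 1 = true :=
  ⟨(a (b (a (a (c (b (l 16116384) (l 16236088)) (b (l 16100216) (l 16267904))) (c (b (b (l 16346264) (l 16429784)) (l 16385664)) (b (l 16379032) (l 16423968)))) (a (b (c (l 16496368) (l 16576888)) (a (c (l 16530976) (l 16592368)) (c (l 16500208) (l 16516664)))) (b (a (l 16624664) (l 16656752)) (c (l 16525904) (l 16498984))))) (a (b (c (a (l 16353816) (a (l 16554952) (l 16446128))) (a (l 16350832) (b (l 16494552) (l 16454752)))) (c (a (a (l 16506624) (l 16409792)) (a (l 16297208) (b (l 16357896) (l 16269008)))) (a (c (l 16370496) (l 16347336)) (b (a (l 16432720) (l 16347392)) (a (l 16310192) (l 16255880)))))) (b (a (c (a (b (l 16475528) (l 16390840)) (l 16402440)) (a (b (l 16468288) (l 16381000)) (l 16392752))) (c (l 16398928) (l 16389104))) (c (a (c (l 16253344) (l 16288992)) (l 16291480)) (a (c (l 16282696) (l 16276400)) (l 16278864)))))) (b (a (c (b (l 16677568) (b (l 16583080) (l 16505320))) (b (l 16674976) (a (l 16538312)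 (l 16538312)))) (c (b (l 16677568) (l 16544360)) (b (l 16674976) (l 16496368)))) (c (b (a (a (l 16398928) (l 16398928)) (a (l 16398928) (l 16398928))) (a (c (l 16294640) (l 16288328)) (c (l 16294640) (l 16288328)))) (b (a (a (l 16389104) (l 16389104)) (c (l 16391560) (l 16386648))) (a (c (l 16282016) (l 16275712)) (c (l 16282016) (l 16275712))))))), by decide +kernel⟩

theorem s13_pm_022_a : ∃ t, chk3 f_pm_022_a t 3 1 1 = true := ex3_b k11_pm_022_a k12_pm_022_a

theorem s14_pm_022_a : ∃ t, chk3 f_pm_022_a t 10 7 1 = true := ex3_a k8_pm_022_a k9_pm_022_a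

theorem s15_pm_022_a : ∃ t, chk3 f_pm_022_a t 5 7 1 = true := ex3_a s14_pm_022_a k10_pm_022_a

theorem s16_pm_022_a : ∃ t, chk3 f_pm_022_a t 5 6 1 = true := ex3_b k6_pm_022_a k7_pm_022_a

theorem s17_pm_022_a : ∃ t, chk3 f_pm_022_a t 5 3 1 = true := ex3_b s16_pm_022_a s15_pm_022_a

theorem s18_pm_022_a : ∃ t, chk3 f_pm_022_a t 5 1 1 = true := ex3_b k5_pm_022_a s17_pm_022_a

theorem s19_pm_022_a : ∃ t, chk3 f_pm_022_a t 4 15 1 = true := ex3_b k3_pm_022_a k4_pm_022_a

theorem s20_pm_022_a : ∃ t, chk3 f_pm_022_a t 4 7 1 = true := ex3_b k2_pm_022_a s19_pm_022_a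

theorem s21_pm_022_a : ∃ t, chk3 f_pm_022_a t 4 3 1 = true := ex3_b k1_pm_022_a s20_pm_022_a

theorem s22_pm_022_a : ∃ t, chk3 f_pm_022_a t 4 1 1 = true := ex3_b k0_pm_022_a s21_pm_022_a

theorem s23_pm_022_a : ∃ t, chk3 f_pm_022_a t 2 1 1 = true := ex3_a s22_pm_022_a s18_pm_022_a

theorem s24_pm_022_a : ∃ t, chk3 f_pm_022_a t 1 1 1 = true := ex3_a s23_pm_022_a s13_pm_022_a

theorem c_pm_022_a : CertFX 0 536870912 0 420477299 1046898278 26843546 true true false .pp 0 2 2
    ndF0q0 ndF2q2a pcF2 Cut.none Ext.none :=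
  certFX2 (fam := true) (s1 := true) (s2 := false) (a := 0) (b := 2) (c := 2) (cn := .pp) (n1 := ndF0q0) (n2 := ndF2q2a) (pc := pcF2) (cut := Cut.none) (xt := Ext.none) (P1 := 0) (W1 := 536870912) (P2 := 0) (W2 := 420477299) (P3 := 1046898278) (W3 := 26843546)
    rfl (fun _ => rfl) s24_pm_022_a

noncomputable def f_pm_022_b : ℕ → ℕ → ℕ → ℕ → Bool := onCell 0 536870912 1239849684 370763052 1046898278 26843546
    (rowFX 0 true true false .pp 0 2 2 (qsf 0 536870912 1239849684 370763052 2) ndF0q0 ndF2q2b pcF2 Cut.none Ext.none)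

def k0_pm_022_b : ∃ t, chk3 f_pm_022_b t 2 1 1 = true :=
  ⟨(b (a (b (a (b (a (b (c (a (l 15819064) (l 15560872)) (a (c (l 15813480) (l 15675048)) (l 15532488))) (a (c (l 15325704) (l 15228224)) (c (b (l 15206784) (a (l 15029168) (l 14982008))) (b (l 15209488) (a (l 15029368) (l 14978256)))))) (b (a (c (c (l 15264792) (l 15240064)) (l 15253440)) (b (c (a (l 15328224) (l 15265640)) (l 15280152)) (c (a (l 15175696) (l 15211744)) (l 15173384)))) (b (a (c (a (l 15082792) (l 15087704)) (l 15089992)) (l 15172632)) (c (l 14938000) (l 15107560))))) (a (b (a (c (b (l 14987096) (a (l 14848840) (l 14829040))) (b (a (l 15007624) (l 14912368)) (a (l 14808672) (l 14809296)))) (c (a (l 14887608) (l 14945936)) (c (l 14924112) (l 14911648)))) (c (l 14867968) (a (l 14774600) (l 14914104)))) (c (c (l 15141192) (l 15144456)) (l 15126344)))) (a (b (a (c (l 15330728) (l 15293352)) (l 15483736)) (c (a (l 15360944) (l 15530552)) (l 15411984))) (c (b (l 15655128) (l 15787936)) (b (l 15733320) (l 15762200)))))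 (a (c (a (b (l 14867920) (l 14867920)) (b (l 15149528) (l 15149528))) (a (c (a (l 14775440) (l 14922416)) (a (l 14767936) (l 14909936))) (l 15131104))) (a (b (c (l 15440344) (l 15416312)) (l 15428120)) (l 15778896)))) (a (b (b (c (c (a (l 16056376) (l 16315792)) (l 16012672)) (a (l 16032512) (l 16300432))) (c (l 16207984) (l 16193160))) (c (l 16211104) (l 16112520))) (b (a (b (l 16469408) (l 16572984)) (b (c (l 16741216) (l 16740864)) (l 16758536))) (a (l 16575520) (l 16760648))))) (a (a (b (a (c (l 14867920) (l 14686256)) (c (l 15149528) (l 15131104))) (a (c (l 14867920) (l 14854024)) (c (l 15149528) (l 15131104)))) (b (a (c (l 15440344) (l 15416312)) (l 15778896)) (a (l 15428120) (l 2)))) (b (a (l 15952096) (l 2)) (l 2)))), by decide +kernel⟩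

def k1_pm_022_b : ∃ t, chk3 f_pm_022_b t 3 1 1 = true :=
  ⟨(b (a (b (b (a (c (l 16733568) (l 16732432)) (c (l 16733568) (l 16732432))) (a (l 16771848) (l 2))) (a (l 16777216) (l 2))) (l 2)) (l 2)), by decide +kernel⟩

theorem s2_pm_022_b : ∃ t, chk3 f_pm_022_b t 1 1 1 = true := ex3_a k0_pm_022_b k1_pm_022_b

theorem c_pm_022_b : CertFX 0 536870912 1239849684 370763052 1046898278 26843546 true true false .pp 0 2 2
    ndF0q0 ndF2q2b pcF2 Cut.none Ext.none :=
  certFX0 (fam := true) (s1 := true) (s2 := false) (a := 0) (b := 2) (c := 2) (cn := .pp) (n1 := ndF0q0) (n2 := ndF2q2b) (pc := pcF2) (cut := Cut.none) (xt := Ext.none) (P1 := 0) (W1 := 536870912) (P2 := 1239849684) (W2 := 370763052) (P3 := 1046898278) (W3 := 26843546)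
    rfl s2_pm_022_b

noncomputable def f_pm_023_a : ℕ → ℕ → ℕ → ℕ → Bool := onCell 0 536870912 0 420477299 1046898278 26843546
    (rowFX 0 true true false .up 0 2 3 (qsf 0 536870912 0 420477299 3) ndF0q0 ndF2q2a pcF3 Cut.none Ext.none)

def k0_pm_023_a : ∃ t, chk3 f_pm_023_a t 1 1 1 = true :=
  ⟨(a (l 1) (a (a (l 1) (b (b (c (l 16703352) (l 16701432)) (c (b (l 16722096) (l 16771272)) (l 16752392))) (b (a (l 1) (c (l 16611360) (l 16586080))) (l 1)))) (a (b (b (c (l 16703352) (l 16701432)) (c (b (l 16722096) (l 16771272)) (l 16741904))) (b (c (l 16527472) (l 16523168)) (a (b (c (l 16398928) (l 374768509639)) (l 1)) (b (c (l 16398928) (l 16347160)) (c (l 16291480) (l 16278864)))))) (b (b (c (l 16703352) (l 16701432)) (c (b (l 16722096) (l 16771272)) (b (l 16720664) (l 16771112)))) (b (c (b (l 16677568) (l 16544360)) (b (l 16674976) (l 16538312))) (c (b (b (l 16424056) (a (l 16373008) (l 16373008))) (a (l 16291480) (l 16291480))) (b (b (l 16414880) (a (l 16362504) (l 16362504))) (c (l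 16282016) (a (l 16275712) (l 16275712)))))))))), by decide +kernel⟩

theorem c_pm_023_a : CertFX 0 536870912 0 420477299 1046898278 26843546 true true false .up 0 2 3
    ndF0q0 ndF2q2a pcF3 Cut.none Ext.none :=
  certFX0 (fam := true) (s1 := true) (s2 := false) (a := 0) (b := 2) (c := 3) (cn := .up) (n1 := ndF0q0) (n2 := ndF2q2a) (pc := pcF3) (cut := Cut.none) (xt := Ext.none) (P1 := 0) (W1 := 536870912) (P2 := 0) (W2 := 420477299) (P3 := 1046898278) (W3 := 26843546)
    rfl k0_pm_023_a

noncomputable def f_pm_023_b : ℕ → ℕ → ℕ → ℕ → Bool := onCell 1610612736 536870912 1239849684 370763052 1046898278 26843546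
    (rowFX 2 true true false .up 0 2 3 (qsf 0 536870912 1239849684 370763052 3) ndF0q0 ndF2q2b pcF3 Cut.none Ext.none)

def k0_pm_023_b : ∃ t, chk3 f_pm_023_b t 1 2 1 = true :=
  ⟨(b (a (a (c (b (a (c (l 16733848) (l 16733288)) (c (l 16733848) (l 16733288))) (a (l 16771920) (l 16771920))) (b (a (l 16732432) (b (l 16720480) (l 16744024))) (a (l 16771776) (l 16771776)))) (c (a (b (c (l 16733848) (l 16733288)) (l 16771920)) (b (l 547708858071) (l 16771920))) (a (b (c (l 16732720) (l 16732152)) (l 16771776)) (b (l 677631616839) (l 16771776))))) (l 2)) (a (a (a (b (c (l 16770104) (l 16769920)) (a (b (l 16686768) (l 16544904)) (c (l 16743720) (l 16742856)))) (c (l 16777216) (l 16777216))) (a (c (l 16777216) (l 16777216)) (c (c (l 16777216) (l 16777216)) (a (l 16777216) (l 16777216))))) (a (a (c (a (l 16777216) (l 16777200)) (a (l 16777216) (l 119286005575))) (a (c (l 135929003895) (l 142371454759)) (l 2))) (l 2)))), by decide +kernel⟩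

def k1_pm_023_b : ∃ t, chk3 f_pm_023_b t 1 3 1 = true :=
  ⟨(b (a (a (a (b (a (l 16269072) (c (l 16538624) (l 16532424))) (a (l 15910808) (l 16191464))) (b (a (c (l 16706624) (l 16704792)) (l 16774536)) (a (l 16381664) (c (l 16654984) (l 16651808))))) (a (c (a (l 16766488) (l 16777216)) (a (l 16766208) (l 16777216))) (c (a (l 16777216) (l 16777216)) (a (l 16777216) (l 16777216))))) (a (a (c (a (l 16777216) (l 16777208)) (a (l 16777216) (l 16777208))) (a (c (l 16777200) (l 16777200)) (c (a (l 16777208) (l 83315654615)) (c (l 16777208) (l 16777208))))) (b (l 2) (l 4)))) (a (a (a (a (b (c (l 15507632) (l 15457312)) (c (l 15076808) (l 15069008))) (b (l 15793000) (c (l 15383800) (l 15367120)))) (b (a (l 16089208) (l 16350192)) (c (a (l 15705232) (l 15991376)) (l 15595528)))) (a (a (b (c (l 16588192) (l 16583280)) (l 16253208)) (b (c (l 16731416) (l 16730224)) (l 16355312))) (a (b (l 16777216) (c (l 16688912) (l 16686616))) (c (l 16773112) (l 16773008))))) (a (a (c (a (l 16777216) (l 16777208))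 (a (l 16777216) (l 16777208))) (b (a (c (l 16777208) (l 16777208)) (c (l 255248564247) (l 185992216599))) (a (c (l 16777216) (l 16777216)) (l 4)))) (l 4)))), by decide +kernel⟩

theorem s2_pm_023_b : ∃ t, chk3 f_pm_023_b t 1 1 1 = true := ex3_b k0_pm_023_b k1_pm_023_b

theorem c_pm_023_b : CertFX 0 536870912 1239849684 370763052 1046898278 26843546 true true false .up 0 2 3
    ndF0q0 ndF2q2b pcF3 Cut.none Ext.none :=
  certFX2 (fam := true) (s1 := true) (s2 := false) (a := 0) (b := 2) (c := 3) (cn := .up) (n1 := ndF0q0) (n2 := ndF2q2b) (pc := pcF3) (cut := Cut.none) (xt := Ext.none) (P1 := 0) (W1 := 536870912) (P2 := 1239849684) (W2 := 370763052) (P3 := 1046898278) (W3 := 26843546)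
    rfl (fun _ => rfl) s2_pm_023_b

noncomputable def f_pm_033 : ℕ → ℕ → ℕ → ℕ → Bool := onCell 0 536870912 1610612736 536870912 1046898278 26843546
    (rowFX 1 true true false .pnn 0 3 3 (qsf 0 536870912 1610612736 469762048 3) ndF0q0 ndF2q3 pcF3 Cut.none Ext.none)

def k0_pm_033 : ∃ t, chk3 f_pm_033 t 1 1 1 = true :=
  ⟨(a (b (b (a (a (b (c (l 14870672) (l 151427113975)) (c (a (l 14867920) (l 15149528)) (a (l 14854024) (l 15131104)))) (c (b (l 15648192) (l 15648192)) (b (l 15591368) (l 15591368)))) (a (b (l 1) (l 16182784)) (l 1))) (a (b (a (c (a (l 14867920) (l 15149528)) (a (l 14623336) (l 15131104))) (c (a (l 15440344) (l 15791688)) (l 15444568))) (a (a (c (l 14867920) (b (l 14854024) (l 14854024))) (c (l 15149528) (l 15131104))) (c (c (l 15644928) (l 15613880)) (b (l 15591368) (l 15591368))))) (b (a (c (l 16211104) (l 16175432)) (c (l 16608352) (a (l 16572936) (l 1)))) (c (a (l 16169168) (b (l 16671272) (l 16671272))) (a (b (l 16196400) (l 16196400)) (b (l 16668520) (l 16668520)))))))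 (b (b (b (a (a (b (c (l 15017472) (l 14863256)) (l 4)) (c (l 15459448) (l 15591368))) (a (c (l 16211104) (l 16196400)) (c (l 16671272) (l 16668520)))) (a (l 4) (c (a (l 16127224) (l 16503496)) (a (l 100628076631) (a (l 16572936) (l 16760440)))))) (l 4)) (l 4))) (b (b (l 1) (a (a (b (l 1) (b (l 1) (l 16777216))) (l 1)) (l 1))) (b (a (b (c (b (l 16777216) (l 16777208)) (b (l 16777216) (l 16777208))) (b (c (c (l 16777216) (l 16777216)) (c (l 16777216) (l 16777216))) (l 4))) (b (l 1) (a (a (b (l 1) (l 4)) (l 1)) (l 1)))) (l 4)))), by decide +kernel⟩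

theorem c_pm_033 : CertFX 0 536870912 1610612736 469762048 1046898278 26843546 true true false .pnn 0 3 3
    ndF0q0 ndF2q3 pcF3 Cut.none Ext.none :=
  certFX1 (fam := true) (s1 := true) (s2 := false) (a := 0) (b := 3) (c := 3) (cn := .pnn) (n1 := ndF0q0) (n2 := ndF2q3) (pc := pcF3) (cut := Cut.none) (xt := Ext.none) (P1 := 0) (W1 := 536870912) (P2 := 1610612736) (W2 := 469762048) (P3 := 1046898278) (W3 := 26843546)
    rfl (fun _ => rfl) k0_pm_033

noncomputable def f_pm_101 : ℕ → ℕ → ℕ → ℕ → Bool := onCell 536870912 536870912 67108864 469762048 1046898278 26843546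
    (rowFX 2 true true false .npn 1 0 1 (qsf 536870912 536870912 67108864 469762048 1) ndF0q1 ndF2q0 pcF1 Cut.none Ext.none)

def k0_pm_101 : ∃ t, chk3 f_pm_101 t 1 1 1 = true :=
  ⟨(a (l 3) (b (l 3) (l 3))), by decide +kernel⟩

theorem c_pm_101 : CertFX 536870912 536870912 67108864 469762048 1046898278 26843546 true true false .npn 1 0 1
    ndF0q1 ndF2q0 pcF1 Cut.none Ext.none :=
  certFX2 (fam := true) (s1 := true) (s2 := false) (a := 1) (b := 0) (c := 1) (cn := .npn) (n1 := ndF0q1) (n2 := ndF2q0) (pc := pcF1) (cut := Cut.none) (xt := Ext.none) (P1 := 536870912) (W1 := 536870912) (P2 := 67108864) (W2 := 469762048) (P3 := 1046898278) (W3 := 26843546)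
    rfl (fun _ => rfl) k0_pm_101

end Pool.Agent.Strip051.G.IE1.Tab.C.FA02

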