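import Pool.Agent.Strip051.G.IE1.Tab

/-! # Certificates N17 (generated) -/

set_option linter.all false
set_option maxRecDepth 100000

namespace Pool.Agent.Strip051.G.IE1.Tab.C.NA02

open Pool.Agent.Strip051.PB Pool.Agent.Strip051.PB.T
open Pool.Agent.Strip051.G.IE1.Tab

noncomputable def f_pm_202 : ℕ → ℕ → ℕ → ℕ → Bool := onCell 0 536870912 1073741824 536870912 1046898278 26843546
    (rowNX 3 1 true true false .pp 2 0 2 (qsf 0 536870912 67108864 469762048 2) ndN0q2 ndN2q0 pcN2 Cut.none Ext.none)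

def k0_pm_202 : ∃ t, chk3 f_pm_202 t 4 1 1 = true :=
  ⟨(b (b (l 1) (b (l 1) (b (b (l 1) (b (a (l 1) (a (l 1) (c (c (b (l 1) (a (l 14964040) (l 15009168))) (l 14979672)) (l 14933304)))) (a (b (l 1) (a (c (c (l 14851840) (l 14817352)) (l 14766168)) (c (c (l 14852240) (l 14817880)) (l 14766584)))) (c (a (b (a (l 14857536) (l 14896272)) (l 14935224)) (a (l 15011728) (l 15107088))) (a (l 14851904) (l 15002456)))))) (c (b (a (a (l 15071392) (b (c (b (l 14965128) (l 15160352)) (l 15013352)) (l 15387712))) (b (a (l 14925536) (l 15202992)) (l 15450472))) (a (a (l 15993592) (b (l 15856200) (l 16264680))) (b (l 15885224) (a (l 16295888) (l 16342448))))) (a (b (a (l 15207088) (b (l 14820752) (l 15404032))) (a (l 16053288) (l 15888704))) (b (a (l 15072576) (b (l 15277880) (l 15684128))) (b (l 15984848) (a (l 16322400) (l 16394512))))))))) (b (a (b (b (c (b (b (l 16362792) (l 16724512)) (l 16730512)) (b (a (l 16606192) (l 16603112)) (l 16729000))) (c (l 16669952) (l 16666728))) (c (b (l 16708256)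 (l 16756256)) (b (l 16706440) (l 16755520)))) (b (b (b (a (b (c (l 16531920) (l 16567488)) (l 16660216)) (l 16642304)) (a (l 16745952) (l 16742904))) (a (l 16698504) (b (l 16721344) (l 16681584)))) (b (c (l 16715752) (l 16713896)) (c (l 16761336) (l 16760776))))) (c (b (a (l 16777216) (l 16777216)) (l 16777216)) (b (a (l 16777216) (l 16777216)) (l 16777216))))), by decide +kernel⟩

def k1_pm_202 : ∃ t, chk3 f_pm_202 t 5 2 1 = true :=
  ⟨(b (l 1) (b (b (l 1) (b (l 1) (b (l 1) (a (l 1) (a (l 1) (c (a (b (l 1) (a (l 15592792) (l 15635000))) (b (a (l 15712912) (l 15767208)) (l 15771144))) (a (l 15607568) (l 15546840)))))))) (b (a (b (b (l 1) (c (a (c (c (l 15132792) (l 15172440)) (l 15144680)) (c (b (a (l 1) (l 15304544)) (a (l 15217152) (l 15338496))) (a (l 15207768) (l 15304768)))) (a (l 15103240) (a (l 15167920) (l 15267424))))) (b (a (c (b (a (l 155722432807) (l 15131328)) (l 15147624)) (b (l 15043296) (l 15090624))) (c (l 15384232) (l 15333928))) (c (l 15187208) (l 15392208)))) (b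 (a (c (b (a (c (b (l 1) (l 15403640)) (l 15404832)) (b (c (l 15449040) (l 15486984)) (l 15518328))) (a (l 15459968) (l 15644920))) (b (a (l 15370688) (l 15475696)) (l 15512504))) (c (b (a (l 15617384) (l 15894720)) (l 15964216)) (a (l 15626040) (l 15958120)))) (a (c (l 15748888) (l 15800256)) (c (a (l 16130864) (l 16265192)) (l 16012976))))) (a (a (b (c (b (l 15517072) (l 15949928)) (l 15467232)) (b (c (l 16251976) (l 16299376)) (c (l 16579176) (l 16551248)))) (b (c (b (l 15762936) (l 16193704)) (b (l 15814112) (l 16216616))) (b (c (b (l 16429760) (l 16587832)) (b (l 16461712) (l 16581184))) (l 16633216)))) (b (a (b (c (l 16024368) (l 16066720)) (c (a (l 16395024) (l 16520416)) (a (l 16404776) (l 16533848)))) (b (c (a (l 16267944) (b (l 16510520) (l 16609032))) (b (l 16222376) (l 16495016))) (c (l 16631600) (l 16626496)))) (a (l 16651760) (l 16701728))))))), by decide +kernel⟩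

def k2_pm_202 : ∃ t, chk3 f_pm_202 t 5 3 1 = true :=
  ⟨(b (b (a (b (c (l 16737168) (l 16735760)) (a (b (l 16701664) (l 16688272)) (l 16693992))) (b (c (l 16643896) (l 16663864)) (c (l 16704840) (l 16702304)))) (a (b (c (l 16730128) (l 16728536)) (c (l 16768920) (l 16768632))) (b (a (l 16744168) (l 16755640)) (a (l 16775136) (l 16777040))))) (c (b (a (l 16777216) (l 16777216)) (l 16777216)) (b (l 16777216) (l 16777216)))), by decide +kernel⟩

def k3_pm_202 : ∃ t, chk3 f_pm_202 t 3 8 1 = true :=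
  ⟨(a (l 1) (a (l 1) (a (l 1) (a (l 1) (a (l 1) (a (l 1) (b (l 1) (b (l 1) (b (l 1) (c (c (c (b (l 1) (c (l 16286472) (l 16336936))) (l 423086739015)) (l 16358768)) (c (l 16352320) (c (l 16347888) (l 442414017015))))))))))))), by decide +kernel⟩

def k4_pm_202 : ∃ t, chk3 f_pm_202 t 6 9 1 = true :=
  ⟨(l 1), by decide +kernel⟩

def k5_pm_202 : ∃ t, chk3 f_pm_202 t 14 18 1 = true :=
  ⟨(l 1), by decide +kernel⟩

def k6_pm_202 : ∃ t, chk3 f_pm_202 t 30 18 1 = true :=
  ⟨(b (l 1) (b (b (l 1) (a (l 1) (a (l 1) (c (c (c (a (b (l 1) (l 16319624)) (l 16127600)) (a (l 16320824) (l 16217496))) (a (l 16291200) (c (l 16135384) (l 16239680)))) (c (l 16147976) (l 16098152)))))) (a (a (l 1) (a (l 1) (b (l 1) (b (l 1) (c (c (l 16151232) (l 16142336)) (l 16127656)))))) (c (c (a (b (c (a (l 16219736) (a (l 261488328887) (l 16130856))) (l 16132856)) (a (c (b (l 16189504) (l 16096632)) (l 16123080)) (l 15879672))) (c (b (l 15930720) (l 15930776)) (a (b (l 16137664) (l 15966952)) (l 15984152)))) (a (b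 (l 16208280) (l 16069168)) (a (l 15933712) (c (l 15941232) (l 15937896))))) (b (a (b (l 16249224) (l 133712884759)) (l 15829024)) (c (l 15708008) (l 137470301031))))))), by decide +kernel⟩

def k7_pm_202 : ∃ t, chk3 f_pm_202 t 31 36 1 = true :=
  ⟨(a (b (l 1) (b (a (l 1) (a (l 1) (c (c (b (l 1) (l 16264744)) (l 16347136)) (c (c (l 16312712) (l 16340160)) (l 16332776))))) (c (b (a (l 1) (c (a (l 16317320) (l 16264368)) (a (l 16346672) (l 16268432)))) (a (a (l 1) (c (l 16346640) (l 16296752))) (c (l 16078272) (l 16081896)))) (a (l 16291872) (c (c (a (l 16186920) (l 16226000)) (l 16037152)) (l 16071192)))))) (b (a (b (l 1) (c (c (a (l 312491358695) (b (l 16334744) (l 16292624))) (a (l 16353232) (l 16304176))) (c (c (l 16225080) (a (l 16359640) (l 16283072))) (a (l 16346504) (b (l 16325528) (l 16132712)))))) (c (a (b (b (l 1) (c (l 16253368) (l 16310704))) (c (l 16159024) (l 16213680))) (b (c (c (b (c (l 16250184) (l 16291200)) (l 16234280)) (l 16252800)) (l 16246568)) (l 16012632))) (c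 (b (a (l 16312832) (l 16238152)) (l 16119528)) (a (c (b (l 251824775399) (l 16055864)) (b (l 16308064) (l 16198888))) (c (l 16000400) (b (c (l 16145976) (a (l 16259328) (l 16206568))) (l 16045120))))))) (c (a (c (b (a (b (l 16249768) (l 16243128)) (l 16171256)) (l 16043328)) (b (l 16021944) (l 16034264))) (c (l 15767480) (l 15857448))) (a (c (a (c (l 16036416) (b (l 199211195959) (l 16096840))) (l 15999672)) (a (l 204042733351) (l 15842624))) (c (l 15864264) (c (a (l 15880312) (l 15786440)) (a (l 15915952) (l 15610544)))))))), by decide +kernel⟩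

def k8_pm_202 : ∃ t, chk3 f_pm_202 t 31 37 1 = true :=
  ⟨(c (a (b (a (c (b (a (b (l 16353632) (l 16228800)) (b (l 16234880) (l 16214816))) (l 16038456)) (b (a (c (l 16274824) (l 16312072)) (c (l 16267928) (l 16195456))) (c (l 16041912) (l 16070280)))) (c (l 15797376) (c (l 15985736) (l 15901312)))) (c (a (l 15577744) (l 15342960)) (a (c (l 15639424) (l 15685816)) (c (l 15567512) (l 15563104))))) (c (b (c (l 15406592) (l 15459848)) (c (l 14984968) (l 15097392))) (b (c (l 15471640) (l 15505280)) (c (l 15168320) (l 15198176))))) (a (b (a (b (c (l 16052216) (l 16065320)) (l 15918240)) (c (c (a (l 16041888) (l 15925768)) (l 15966376)) (l 15954624))) (c (a (l 15765288) (c (l 15387576) (l 15536464))) (l 15529064))) (c (c (b (l 15458312) (l 15168352)) (a (a (b (l 15791448) (l 15366656)) (l 15284480)) (l 15111832))) (a (b (c (l 15628560) (l 15702928)) (l 15049488)) (c (b (l 15286544) (l 14992304)) (a (l 15132520) (c (l 15129840) (l 14954016)))))))), by decide +kernel⟩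

def k9_pm_202 : ∃ t, chk3 f_pm_202 t 14 19 1 = true :=
  ⟨(b (a (l 1) (a (l 1) (b (b (l 1) (b (l 1) (c (c (a (l 1) (c (l 16082200) (l 16083040))) (l 16106528)) (l 15965216)))) (c (a (c (a (b (l 1) (l 15827640)) (b (l 16035576) (l 15863096))) (l 347923717831)) (b (c (a (l 288868092503) (l 15912960)) (l 15933488)) (l 15704680))) (a (b (l 16025896) (a (l 15900320) (l 15826224))) (b (a (l 15961336) (l 15878224)) (l 15668640))))))) (a (a (l 1) (b (l 1) (c (a (b (l 1) (c (l 15814680) (l 15801344))) (b (c (l 15723584) (l 15794000)) (l 15631464))) (a (l 15616952) (l 58012774039))))) (a (a (b (b (l 1) (a (c (l 15834104) (l 15804792)) (b (c (c (l 15812824) (l 15797840)) (l 15774128)) (l 15697864)))) (c (l 15509608) (l 15467528))) (b (c (b (c (a (l 15846120) (l 15805152)) (l 15816328)) (c (l 15610288) (l 15590856))) (b (l 227127477991) (l 15477176))) (c (b (c (l 15378264) (l 15354160)) (l 15142592)) (b (l 15276104) (l 15085360))))) (c (b (c (a (l 15536512) (l 15321200)) (l 15326024)) (c (a (b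 (l 15144168) (l 14899208)) (l 14801888)) (a (l 14991944) (l 14767072)))) (b (c (l 15302680) (l 15257992)) (a (b (l 15071888) (l 14816112)) (l 14713864))))))), by decide +kernel⟩

def k10_pm_202 : ∃ t, chk3 f_pm_202 t 30 19 1 = true :=
  ⟨(b (b (c (a (b (a (c (c (b (l 1) (l 16115632)) (l 16140272)) (l 16133008)) (c (a (b (l 16120080) (l 16031464)) (l 16002576)) (l 16019432))) (a (b (c (a (l 16086384) (l 16010416)) (l 16033008)) (c (l 15922344) (l 15930424))) (c (l 15686808) (l 15796600)))) (c (a (c (b (l 15853888) (b (l 15724232) (l 15603376))) (b (l 15864512) (l 15630440))) (c (b (l 15709496) (l 15313024)) (b (l 15695016) (b (l 15524448) (l 15403624))))) (b (c (l 15643856) (l 15748904)) (c (a (l 15618336) (l 15335608)) (l 15512080))))) (a (b (a (l 215317052663) (b (l 15953232) (l 15955768))) (a (b (l 15868584) (l 15888928)) (l 15562480))) (b (l 15538584) (b (l 15548088) (l 15421512))))) (c (a (c (a (l 15620488) (l 15421336)) (l 15374096)) (c (a (c (a (l 15305304) (l 15235984)) (l 15237560))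 (c (l 15091824) (l 14861856))) (c (a (l 15221792) (l 15044208)) (l 15112056)))) (a (c (l 15394320) (l 15351288)) (c (l 15090296) (l 15060896))))) (c (a (c (a (b (l 15096120) (l 14576320)) (b (l 14896416) (l 14376184))) (b (l 14944472) (l 14435736))) (c (a (c (b (a (l 14782440) (l 14712880)) (a (l 14264336) (l 14194752))) (b (l 14709696) (l 14186816))) (b (c (l 14568400) (l 14312568)) (c (b (l 14160848) (a (c (l 14007032) (l 13997272)) (l 13947224))) (b (a (l 14197152) (l 14111976)) (a (l 13959456) (l 13929584)))))) (b (b (l 14475432) (l 14208912)) (a (l 14149640) (a (l 14019896) (b (l 14058776) (l 13873808))))))) (a (b (a (l 15021920) (l 14812576)) (a (l 14477632) (l 14267864))) (b (l 14378296) (a (l 14078912) (b (l 14018768) (l 13806280))))))), by decide +kernel⟩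

def k11_pm_202 : ∃ t, chk3 f_pm_202 t 31 38 1 = true :=
  ⟨(c (a (b (c (b (a (l 15481728) (l 15252104)) (b (l 14975064) (a (l 15195496) (l 14969720)))) (a (c (b (l 15475920) (l 14994528)) (b (l 15456320) (l 15224448))) (b (l 15236904) (b (l 15069336) (l 14949208))))) (a (c (l 14780832) (c (l 14850248) (l 14824816))) (c (l 14533872) (l 14591008)))) (b (c (b (c (l 14924328) (l 14907976)) (b (l 14734752) (a (l 14750736) (b (l 14561856) (l 14503576))))) (b (l 14885080) (b (l 14721544) (a (l 14717456) (l 14494736))))) (c (a (b (l 14552184) (a (l 14351008) (c (l 14302112) (l 14279728)))) (b (a (b (l 14456320) (l 14337528)) (l 14370048)) (l 14269664))) (a (b (l 14515136) (l 14182968)) (b (l 14356072) (l 14224040)))))) (a (b (c (a (l 15099640) (c (b (l 15223208) (l 14887664)) (l 15085464))) (b (l 15291272) (l 15053496))) (c (a (l 14785944) (c (l 14589520) (l 14561664))) (l 14640976))) (b (c (a (c (l 14873488) (a (l 14732184) (l 14796704))) (b (l 14732208) (l 14513112))) (a (b (l 14945720)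 (l 14608168)) (c (a (l 14425136) (l 14535520)) (a (l 14637832) (b (l 14624672) (b (l 14456256) (l 14345960))))))) (c (a (c (l 14386688) (a (l 14404664) (l 14313328))) (l 14252352)) (a (a (l 14364424) (b (l 14381608) (l 14162856))) (c (a (l 13977992) (l 14195408)) (a (l 14207640) (l 14172472)))))))), by decide +kernel⟩

def k12_pm_202 : ∃ t, chk3 f_pm_202 t 31 39 1 = true :=
  ⟨(c (b (a (c (c (a (b (l 14471312) (l 14136576)) (b (a (l 14307496) (l 14228320)) (l 14105400))) (a (l 14193280) (b (l 14255944) (l 14085352)))) (a (a (l 14227768) (c (l 14275496) (l 14247400))) (b (a (l 14267024) (l 14183856)) (c (l 14068752) (l 14050296))))) (c (c (l 14138040) (l 14114144)) (l 14079816))) (a (c (a (b (c (a (l 14046184) (l 14008888)) (l 14023488)) (l 13912632)) (l 13939544)) (a (c (c (l 13958048) (l 13921808)) (a (l 13907896) (l 13905008))) (l 13899424))) (c (l 13929784) (l 13879544)))) (c (a (a (b (l 14246864) (l 13862416)) (b (c (a (l 14144472) (l 14095792)) (l 14095456)) (l 13850616))) (a (c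 (l 13954032) (a (l 13936512) (l 13924072))) (l 13924224))) (a (b (a (l 14201616) (l 14057616)) (l 13803744)) (a (l 13699912) (c (l 13887080) (l 13858784)))))), by decide +kernel⟩

def k13_pm_202 : ∃ t, chk3 f_pm_202 t 6 20 1 = true :=
  ⟨(a (l 1) (b (a (l 1) (b (l 1) (a (c (c (b (l 1) (a (l 1) (l 15924136))) (l 15984224)) (l 15966096)) (c (b (a (l 15916040) (c (l 15821680) (l 15808048))) (a (b (l 15853856) (l 15785160)) (l 15648168))) (b (a (l 15892824) (l 15784592)) (a (l 15699712) (l 15610384))))))) (b (a (a (l 1) (c (c (b (l 1) (a (l 1) (l 16183800))) (l 16167736)) (l 16092024))) (a (c (b (a (l 266319674695) (l 15829216)) (a (l 16064144) (l 15898120))) (b (a (l 16004008) (l 15886528)) (l 15951976))) (c (l 15632448) (l 15593664)))) (a (a (a (l 1) (b (l 1) (c (l 228739643831) (l 16470856)))) (c (a (b (c (l 16270288) (l 16330360)) (l 16346304)) (l 16192072)) (a (l 16174496) (l 16175736)))) (c (l 15641592) (l 15606576)))))), by decide +kernel⟩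

def k14_pm_202 : ∃ t, chk3 f_pm_202 t 6 21 1 = true :=
  ⟨(b (a (b (a (l 1) (a (l 1) (b (a (l 1) (c (l 779569338263) (l 16430176))) (c (a (l 16205904) (l 16359888)) (l 16270672))))) (a (a (l 1) (a (l 1) (b (l 1) (c (l 16034520) (l 16053736))))) (a (c (b (a (l 16182712) (l 16151320)) (l 15987360)) (b (l 16194280) (l 16201512))) (c (l 16264864) (l 16297848))))) (a (a (a (b (b (c (l 16350576) (l 16513440)) (l 16415976)) (l 16389440)) (c (l 16319464) (l 16355496))) (c (l 16174040) (l 16154904))) (c (a (l 15820120) (l 15440688)) (a (l 15786968) (l 15393192))))) (a (a (c (b (a (a (b (l 1) (l 15842576)) (b (l 15940280) (l 15914488))) (b (a (l 15944904) (l 16080720)) (l 16089424))) (a (l 15963280) (l 16215600))) (b (a (l 15734288) (l 15907160)) (l 15878664))) (c (a (b (l 16320744) (l 16444264)) (l 16489592)) (a (l 16246560) (l 16507488)))) (b (a (c (l 16012792) (l 16015280)) (c (a (l 15704864) (l 15270656)) (a (l 15666648) (l 15284888)))) (a (c (a (l 16307688) (l 15988152)) (a (l 16291776)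 (l 15960072))) (a (c (l 15734936) (l 15697648)) (l 15550416)))))), by decide +kernel⟩

def k15_pm_202 : ∃ t, chk3 f_pm_202 t 6 11 1 = true :=
  ⟨(b (b (a (a (a (c (l 16179768) (l 16204184)) (c (b (l 16387040) (l 16561896)) (l 16318712))) (c (b (l 16476360) (a (l 16606256) (l 16421832))) (a (l 16538736) (b (l 16467096) (l 16430992))))) (a (c (a (b (l 16167248) (l 16327456)) (l 15978448)) (a (b (l 16190512) (l 16311384)) (l 15997056))) (l 15842976))) (a (a (c (b (a (l 16491312) (l 16663360)) (a (l 16622608) (l 16731768))) (b (a (l 16482272) (l 16662848)) (a (l 16617552) (l 16730624)))) (a (c (l 16472928) (l 16490816)) (l 16572520))) (a (a (l 16478824) (l 16422944)) (l 16161936)))) (a (c (b (l 16635712) (l 16764448)) (b (l 16611984) (l 16764000))) (a (b (c (l 16691904) (l 16667856)) (a (l 16688584) (l 16591608))) (b (b (l 16329688) (l 16442496)) (l 16449096))))), by decide +kernel⟩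

def k16_pm_202 : ∃ t, chk3 f_pm_202 t 14 20 1 = true :=
  ⟨(b (b (a (a (c (a (b (l 1) (c (l 15821824) (l 15808384))) (b (c (l 15819456) (l 15806128)) (l 15646336))) (a (l 218537625799) (b (l 15782520) (l 15608712)))) (c (l 15323752) (l 15363672))) (a (c (l 14956688) (l 14892408)) (c (c (a (b (l 14675352) (l 14459664)) (b (l 14415824) (l 14183448))) (a (l 14531720) (l 14258536))) (a (b (l 14582120) (l 14355600)) (b (l 14309824) (l 14066936)))))) (a (c (a (l 15278288) (l 15016704)) (a (l 15297840) (l 14954640))) (c (a (l 14539576) (a (l 14124576) (a (l 13907200) (a (l 13799528) (b (l 13828192) (l 13638352)))))) (a (l 14459720) (b (a (l 14137008) (l 13838592)) (l 13779768)))))) (a (c (a (l 15191496) (l 14758512)) (a (l 15135520) (l 14686424))) (b (c (a (l 14319696) (a (b (l 13928752) (l 13957320)) (l 13771328))) (a (l 14231592) (a (l 13851400) (l 13662808)))) (a (c (a (l 14410392) (l 14237896)) (a (l 14325400) (l 14146488))) (l 13994624))))), by decide +kernel⟩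

def k17_pm_202 : ∃ t, chk3 f_pm_202 t 15 40 1 = true :=
  ⟨(a (b (c (a (a (c (l 14061760) (l 14013128)) (c (b (l 13989144) (a (l 13781192) (l 13727408))) (l 13828192))) (c (a (a (b (c (l 13890072) (l 13852888)) (l 13691640)) (c (c (l 13828056) (l 13796568)) (l 13754016))) (c (l 13780280) (l 13768904))) (a (b (l 13797144) (l 13650728)) (l 13718128)))) (a (a (l 13939520) (b (l 13862672) (l 13623888))) (a (b (l 13716552) (l 13565992)) (l 13618080)))) (c (a (a (b (c (a (l 13750304) (c (l 13658992) (l 13631072))) (l 13460752)) (a (l 13569776) (c (b (l 13544688) (b (l 13518784) (l 13511672))) (l 13474264)))) (c (a (c (b (l 13619248) (b (l 13541616) (b (l 13504112) (l 13490584)))) (l 13581064)) (l 13555928)) (b (l 13548392) (l 13424448)))) (c (c (a (a (l 13583744) (c (l 13604256) (l 13592776))) (l 13586368)) (a (l 13547024) (c (l 13585720) (l 13563384)))) (c (l 13529128) (l 13487472)))) (a (a (b (a (l 13613376) (l 13502440)) (a (l 13453968) (l 13385472))) (b (l 13461072) (l 13355008))) (l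 13412936)))) (c (c (c (c (a (a (l 13677864) (l 13666256)) (l 13663496)) (a (b (l 13760640) (l 13547440)) (l 13649112))) (a (b (l 13750016) (l 13556352)) (l 13627560))) (a (a (c (b (l 13735272) (l 13538992)) (l 13600288)) (c (l 13614624) (l 13591728))) (b (l 13682568) (l 13488888)))) (a (c (a (l 13544072) (c (l 13565352) (l 13527728))) (l 13483936)) (c (a (c (l 13552384) (l 13520896)) (l 13524232)) (a (l 13477008) (c (l 13481056) (l 13343840))))))), by decide +kernel⟩

def k18_pm_202 : ∃ t, chk3 f_pm_202 t 15 41 1 = true :=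
  ⟨(a (a (a (l 13690888) (b (c (c (c (a (l 13605944) (a (l 13584864) (l 13574384))) (l 13568448)) (l 13525464)) (b (l 13381472) (l 13484984))) (c (l 13758288) (l 13648072)))) (c (a (b (c (c (a (c (l 13568088) (l 13539552)) (l 13575400)) (l 13538536)) (l 13492040)) (c (b (a (b (l 13643008) (l 13715456)) (c (c (b (l 13719888) (l 13743360)) (l 13648336)) (l 13646848))) (c (l 13812080) (l 13760960))) (b (l 13616808) (l 13717856)))) (b (c (c (c (l 13597616) (l 13588744)) (l 13557208)) (l 13503192)) (c (c (b (b (l 13671704) (l 13706736)) (l 13743608)) (b (c (l 13646960) (l 13645856)) (l 13731512))) (b (b (l 13584848) (l 13620648)) (l 13679800))))) (b (b (l 13366448) (l 13430280)) (b (b (l 13489976) (l 13535448)) (l 13610856))))) (c (b (c (c (a (a (l 13556888) (l 13537784)) (l 13526688)) (a (l 13511032) (l 13496496))) (a (a (c (l 13517128) (l 13478960)) (l 13476672)) (l 13452640))) (b (a (a (c (b (l 13624104) (l 13657344)) (c (l 13608320) (l 13570896))) (c (b (l 13592040) (l 13623352)) (l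 13560368))) (c (b (c (l 13583032) (l 13553296)) (l 13598208)) (l 13525912))) (a (c (c (l 13703144) (l 13686136)) (a (l 13658976) (l 13627192))) (c (a (l 13652128) (l 13649720)) (l 13596384))))) (a (b (c (a (l 13420792) (l 13419264)) (l 13355216)) (c (a (l 13549248) (c (l 13555904) (l 13517880))) (l 13480856))) (b (c (a (l 13380416) (l 13385632)) (a (l 13340568) (c (l 13340160) (l 13306256)))) (c (a (c (l 13528568) (l 13433624)) (l 13496344)) (a (l 13451808) (c (l 13452272) (a (l 13422456) (l 13417496))))))))), by decide +kernel⟩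

def k19_pm_202 : ∃ t, chk3 f_pm_202 t 7 21 1 = true :=
  ⟨(a (a (a (b (c (b (l 15072416) (a (l 15135320) (l 15007176))) (b (l 15011496) (a (l 15076528) (l 14943696)))) (l 15304968)) (b (b (c (a (l 14785480) (l 14646864)) (a (l 14714072) (l 14570344))) (l 14845240)) (l 15148608))) (a (b (l 14558416) (l 14966000)) (c (l 14562432) (l 14481616)))) (a (b (a (c (l 14113984) (l 14024128)) (c (a (c (l 14031760) (l 13980112)) (b (c (c (l 13908688) (l 13876848)) (l 13827336)) (c (l 14089280) (l 14029736)))) (b (a (l 13795760) (l 13729736)) (l 13973200)))) (c (a (l 14523936) (c (a (l 14477416) (l 14435736)) (l 14401776))) (a (l 14448640) (l 14325560)))) (c (b (a (c (b (a (l 13780528) (l 13760864)) (a (l 13934416) (l 13967424))) (a (b (c (l 13792280) (l 13756408)) (c (l 13990344) (l 13956208))) (b (l 13737584) (l 13926472)))) (c (b (l 13779528) (l 13969920)) (l 13821928))) (a (c (b (l 14131968) (l 14478976)) (a (l 14341912) (l 14293440))) (c (b (l 14172744) (l 14398304)) (b (l 14125768) (l 14355640)))))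 (b (a (c (a (b (l 13701864) (l 13904568)) (b (l 13684592) (l 13876832))) (b (l 13631568) (l 13839136))) (c (a (c (l 13784904) (l 13755144)) (l 13768584)) (a (l 13713872) (c (l 13728232) (l 13697776))))) (a (a (l 14257584) (c (b (l 14121496) (l 14373800)) (l 14196448))) (c (a (c (l 14224808) (l 14115240)) (l 14185400)) (a (b (l 14037408) (l 14284064)) (c (l 14150840) (a (l 14129720) (l 14123120)))))))))), by decide +kernel⟩

def k20_pm_202 : ∃ t, chk3 f_pm_202 t 7 11 1 = true :=
  ⟨(b (a (a (b (l 15444072) (a (l 16055512) (l 15899824))) (b (a (l 15356352) (l 15138656)) (a (l 15778648) (l 15592240)))) (a (c (a (l 15139392) (c (a (l 15157032) (l 15081888)) (l 15117528))) (b (l 14866088) (l 15342296))) (a (c (c (l 15067552) (a (l 15066384) (l 15014528))) (c (l 14811048) (l 14966392))) (c (b (b (l 14571792) (l 14846584)) (l 15189416)) (a (c (l 14895832) (l 14905776)) (b (c (l 14655272) (c (l 14627304) (l 14605432))) (c (l 15127536) (l 15098400)))))))) (a (a (c (l 16246992) (l 16227944))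 (c (l 15977592) (l 15949144))) (a (a (c (l 15700936) (l 15670576)) (c (b (l 15582328) (c (l 15659736) (l 15630672))) (l 15432848))) (c (a (c (l 15556784) (b (l 15379432) (l 15538928))) (l 15449136)) (b (a (a (l 15511960) (l 15410864)) (c (a (l 15440016) (l 15392088)) (a (l 15418264) (c (l 15375784) (l 15361512))))) (a (l 15507712) (c (l 15420544) (l 15392720)))))))), by decide +kernel⟩

def k21_pm_202 : ∃ t, chk3 f_pm_202 t 3 3 1 = true :=
  ⟨(a (b (b (b (a (a (a (l 16704112) (l 16696152)) (l 16675944)) (a (l 16636008) (l 16478856))) (a (c (l 16732168) (l 16730592)) (a (b (l 16685104) (l 16617752)) (b (l 16506304) (l 16515752))))) (a (b (a (b (l 16758472) (l 16774376)) (b (l 16770568) (l 16777216))) (l 16777216)) (a (b (l 16604480) (l 16709592)) (l 16516872)))) (a (b (c (l 16777216) (l 16777216)) (c (l 16777216) (l 16777216))) (a (b (l 16709592) (l 16709592)) (l 16516872)))) (a (b (b (a (b (a (l 16330600) (l 16224176)) (a (l 16354992) (l 16241320))) (b (b (a (l 16086408) (l 15900048))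 (a (l 16100760) (l 15907608))) (l 16006360))) (a (l 16299392) (l 15922472))) (a (l 16299392) (l 16006360))) (a (a (b (b (a (l 15687872) (l 15680472)) (l 15708848)) (l 15708848)) (b (c (b (l 15649840) (l 15649840)) (l 15596320)) (c (l 15649840) (l 15596320)))) (b (c (a (c (l 15564784) (b (l 15539776) (l 15539776))) (l 15451960)) (b (a (l 15508592) (c (l 15420544) (l 15392720))) (a (l 15508592) (c (l 15420544) (l 15392720))))) (c (a (l 15548968) (l 15451960)) (a (l 15508592) (c (l 15420544) (l 15392720)))))))), by decide +kernel⟩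

theorem s22_pm_202 : ∃ t, chk3 f_pm_202 t 15 20 1 = true := ex3_b k17_pm_202 k18_pm_202

theorem s23_pm_202 : ∃ t, chk3 f_pm_202 t 7 20 1 = true := ex3_a k16_pm_202 s22_pm_202

theorem s24_pm_202 : ∃ t, chk3 f_pm_202 t 7 10 1 = true := ex3_b s23_pm_202 k19_pm_202

theorem s25_pm_202 : ∃ t, chk3 f_pm_202 t 7 5 1 = true := ex3_b s24_pm_202 k20_pm_202

theorem s26_pm_202 : ∃ t, chk3 f_pm_202 t 6 10 1 = true := ex3_b k13_pm_202 k14_pm_202

theorem s27_pm_202 : ∃ t, chk3 f_pm_202 t 6 5 1 = true := ex3_b s26_pm_202 k15_pm_202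

theorem s28_pm_202 : ∃ t, chk3 f_pm_202 t 3 5 1 = true := ex3_a s27_pm_202 s25_pm_202

theorem s29_pm_202 : ∃ t, chk3 f_pm_202 t 31 19 1 = true := ex3_b k11_pm_202 k12_pm_202

theorem s30_pm_202 : ∃ t, chk3 f_pm_202 t 15 19 1 = true := ex3_a k10_pm_202 s29_pm_202

theorem s31_pm_202 : ∃ t, chk3 f_pm_202 t 7 19 1 = true := ex3_a k9_pm_202 s30_pm_202

theorem s32_pm_202 : ∃ t, chk3 f_pm_202 t 31 18 1 = true := ex3_b k7_pm_202 k8_pm_202

theorem s33_pm_202 : ∃ t, chk3 f_pm_202 t 15 18 1 = true := ex3_a k6_pm_202 s32_pm_202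

theorem s34_pm_202 : ∃ t, chk3 f_pm_202 t 7 18 1 = true := ex3_a k5_pm_202 s33_pm_202

theorem s35_pm_202 : ∃ t, chk3 f_pm_202 t 7 9 1 = true := ex3_b s34_pm_202 s31_pm_202

theorem s36_pm_202 : ∃ t, chk3 f_pm_202 t 3 9 1 = true := ex3_a k4_pm_202 s35_pm_202

theorem s37_pm_202 : ∃ t, chk3 f_pm_202 t 3 4 1 = true := ex3_b k3_pm_202 s36_pm_202

theorem s38_pm_202 : ∃ t, chk3 f_pm_202 t 3 2 1 = true := ex3_b s37_pm_202 s28_pm_202

theorem s39_pm_202 : ∃ t, chk3 f_pm_202 t 3 1 1 = true := ex3_b s38_pm_202 k21_pm_202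

theorem s40_pm_202 : ∃ t, chk3 f_pm_202 t 5 1 1 = true := ex3_b k1_pm_202 k2_pm_202

theorem s41_pm_202 : ∃ t, chk3 f_pm_202 t 2 1 1 = true := ex3_a k0_pm_202 s40_pm_202

theorem s42_pm_202 : ∃ t, chk3 f_pm_202 t 1 1 1 = true := ex3_a s41_pm_202 s39_pm_202

theorem c_pm_202 : CertNX 0 536870912 67108864 469762048 1046898278 26843546 3 true true false .pp 2 0 2
    ndN0q2 ndN2q0 pcN2 Cut.none Ext.none :=
  certNX1 (fam := true) (s1 := true) (s2 := false) (a := 2) (b := 0) (c := 2) (cn := .pp) (n1 := ndN0q2) (n2 := ndN2q0) (pc := pcN2) (cut := Cut.none) (xt := Ext.none) (P1 := 0) (W1 := 536870912) (P2 := 67108864) (W2 := 469762048) (P3 := 1046898278) (W3 := 26843546) (N0 := 3)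
    rfl (fun _ => rfl) s42_pm_202

noncomputable def f_pm_203 : ℕ → ℕ → ℕ → ℕ → Bool := onCell 0 536870912 1610612736 536870912 1046898278 26843546
    (rowNX 3 1 true true false .up 2 0 3 (qsf 0 536870912 67108864 469762048 3) ndN0q2 ndN2q0 pcN3 Cut.none Ext.none)

def k0_pm_203 : ∃ t, chk3 f_pm_203 t 1 1 1 = true :=
  ⟨(b (a (a (b (a (b (c (l 16777216) (l 16777216)) (l 4)) (b (c (l 16777216) (l 16777216)) (c (l 16777216) (l 16777216)))) (l 4)) (b (b (c (l 16777216) (l 16777216)) (c (l 16777216) (l 16777216))) (b (a (l 4) (b (l 16777216) (l 2))) (l 2)))) (a (b (a (b (l 16777216) (l 16777216)) (b (a (l 16709592) (l 16516872)) (l 16615176))) (l 2)) (b (b (a (l 16071800) (a (l 15666704) (c (l 15501008) (l 15447880)))) (a (a (l 16299392) (l 2)) (l 2))) (l 2)))) (l 2)), by decide +kernel⟩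

theorem c_pm_203 : CertNX 0 536870912 67108864 469762048 1046898278 26843546 3 true true false .up 2 0 3
    ndN0q2 ndN2q0 pcN3 Cut.none Ext.none :=
  certNX1 (fam := true) (s1 := true) (s2 := false) (a := 2) (b := 0) (c := 3) (cn := .up) (n1 := ndN0q2) (n2 := ndN2q0) (pc := pcN3) (cut := Cut.none) (xt := Ext.none) (P1 := 0) (W1 := 536870912) (P2 := 67108864) (W2 := 469762048) (P3 := 1046898278) (W3 := 26843546) (N0 := 3)
    rfl (fun _ => rfl) k0_pm_203

noncomputable def f_pm_213 : ℕ → ℕ → ℕ → ℕ → Bool := onCell 0 536870912 1610612736 536870912 1046898278 26843546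
    (rowNX 3 1 true true false .pnn 2 1 3 (qsf 0 536870912 536870912 536870912 3) ndN0q2 ndN2q1 pcN3 Cut.none Ext.none)

def k0_pm_213 : ∃ t, chk3 f_pm_213 t 1 1 1 = true :=
  ⟨(b (a (b (a (l 1) (b (l 1) (c (l 16777216) (l 16777216)))) (a (l 4) (b (a (l 4) (c (l 16777216) (l 16777216))) (l 4)))) (a (b (b (l 1) (a (l 16777216) (l 16615176))) (c (b (a (l 16777216) (l 16617984)) (a (l 16777216) (l 16617984))) (b (a (l 16777216) (l 16612376)) (a (l 16777216) (l 16612376))))) (c (b (a (l 279204703863) (a (l 15493536) (l 15501008))) (a (b (l 16166464) (l 16166464)) (a (b (l 15703248) (l 15703248)) (b (l 15501008) (l 15501008))))) (b (a (l 315711882855) (a (l 15647568) (a (l 15508592) (l 15406232)))) (a (b (l 16144952) (l 16144952)) (a (l 15647568) (b (l 15363992) (l 15343016)))))))) (a (l 4) (b (a (a (l 4) (b (b (l 16615176) (l 4)) (l 4))) (a (b (c (l 16166464) (l 16103008)) (l 4)) (a (b (c (l 15700688) (l 15644592)) (b (c (l 15657008) (l 15590840)) (l 4))) (b (c (l 15480168) (a (l 15496304)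 (l 15251608))) (c (b (l 15381296) (l 192968398551)) (b (a (l 15391192) (l 15232240)) (a (l 4) (l 15049368)))))))) (l 4)))), by decide +kernel⟩

theorem c_pm_213 : CertNX 0 536870912 536870912 536870912 1046898278 26843546 3 true true false .pnn 2 1 3
    ndN0q2 ndN2q1 pcN3 Cut.none Ext.none :=
  certNX1 (fam := true) (s1 := true) (s2 := false) (a := 2) (b := 1) (c := 3) (cn := .pnn) (n1 := ndN0q2) (n2 := ndN2q1) (pc := pcN3) (cut := Cut.none) (xt := Ext.none) (P1 := 0) (W1 := 536870912) (P2 := 536870912) (W2 := 536870912) (P3 := 1046898278) (W3 := 26843546) (N0 := 3)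
    rfl (fun _ => rfl) k0_pm_213

noncomputable def f_mm_001 : ℕ → ℕ → ℕ → ℕ → Bool := onCell 0 536870912 67108864 469762048 1046898278 26843546
    (rowNX 3 0 true false false .up 0 0 1 (qsf 0 536870912 67108864 469762048 1) ndN0q0 ndN2q0 pcN1 Cut.none Ext.none)

def k0_mm_001 : ∃ t, chk3 f_mm_001 t 1 1 1 = true :=
  ⟨(l 4), by decide +kernel⟩

theorem c_mm_001 : CertNX 0 536870912 67108864 469762048 1046898278 26843546 3 true false false .up 0 0 1
    ndN0q0 ndN2q0 pcN1 Cut.none Ext.none :=
  certNX0 (fam := true) (s1 := false) (s2 := false) (a := 0) (b := 0) (c := 1) (cn := .up) (n1 := ndN0q0) (n2 := ndN2q0) (pc := pcN1) (cut := Cut.none) (xt := Ext.none) (P1 := 0) (W1 := 536870912) (P2 := 67108864) (W2 := 469762048) (P3 := 1046898278) (W3 := 26843546) (N0 := 3)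
    rfl k0_mm_001

noncomputable def f_mm_011 : ℕ → ℕ → ℕ → ℕ → Bool := onCell 0 536870912 536870912 536870912 1046898278 26843546
    (rowNX 3 0 true false false .pnn 0 1 1 (qsf 0 536870912 536870912 536870912 1) ndN0q0 ndN2q1 pcN1 Cut.none Ext.none)

def k0_mm_011 : ∃ t, chk3 f_mm_011 t 1 1 1 = true :=
  ⟨(l 4), by decide +kernel⟩

theorem c_mm_011 : CertNX 0 536870912 536870912 536870912 1046898278 26843546 3 true false false .pnn 0 1 1
    ndN0q0 ndN2q1 pcN1 Cut.none Ext.none :=
  certNX0 (fam := true) (s1 := false) (s2 := false) (a := 0) (b := 1) (c := 1) (cn := .pnn) (n1 := ndN0q0) (n2 := ndN2q1) (pc := pcN1) (cut := Cut.none) (xt := Ext.none) (P1 := 0) (W1 := 536870912) (P2 := 536870912) (W2 := 536870912) (P3 := 1046898278) (W3 := 26843546) (N0 := 3)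
    rfl k0_mm_011

noncomputable def f_mm_012 : ℕ → ℕ → ℕ → ℕ → Bool := onCell 0 536870912 536870912 536870912 1046898278 26843546
    (rowNX 3 0 true false false .pnp 0 1 2 (qsf 0 536870912 536870912 536870912 2) ndN0q0 ndN2q1 pcN2 Cut.none Ext.none)

def k0_mm_012 : ∃ t, chk3 f_mm_012 t 1 1 1 = true :=
  ⟨(l 4), by decide +kernel⟩

theorem c_mm_012 : CertNX 0 536870912 536870912 536870912 1046898278 26843546 3 true false false .pnp 0 1 2
    ndN0q0 ndN2q1 pcN2 Cut.none Ext.none :=
  certNX0 (fam := true) (s1 := false) (s2 := false) (a := 0) (b := 1) (c := 2) (cn := .pnp) (n1 := ndN0q0) (n2 := ndN2q1) (pc := pcN2) (cut := Cut.none) (xt := Ext.none) (P1 := 0) (W1 := 536870912) (P2 := 536870912) (W2 := 536870912) (P3 := 1046898278) (W3 := 26843546) (N0 := 3)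
    rfl k0_mm_012

noncomputable def f_mm_022_a : ℕ → ℕ → ℕ → ℕ → Bool := onCell 0 536870912 0 420477299 1046898278 26843546
    (rowNX 3 0 true false false .pp 0 2 2 (qsf 0 536870912 0 420477299 2) ndN0q0 ndN2q2a pcN2 Cut.none Ext.none)

def k0_mm_022_a : ∃ t, chk3 f_mm_022_a t 1 1 1 = true :=
  ⟨(l 5), by decide +kernel⟩

theorem c_mm_022_a : CertNX 0 536870912 0 420477299 1046898278 26843546 3 true false false .pp 0 2 2
    ndN0q0 ndN2q2a pcN2 Cut.none Ext.none :=
  certNX0 (fam := true) (s1 := false) (s2 := false) (a := 0) (b := 2) (c := 2) (cn := .pp) (n1 := ndN0q0) (n2 := ndN2q2a) (pc := pcN2) (cut := Cut.none) (xt := Ext.none) (P1 := 0) (W1 := 536870912) (P2 := 0) (W2 := 420477299) (P3 := 1046898278) (W3 := 26843546) (N0 := 3)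
    rfl k0_mm_022_a

noncomputable def f_mm_022_b : ℕ → ℕ → ℕ → ℕ → Bool := onCell 0 536870912 1239849684 370763052 1046898278 26843546
    (rowNX 3 0 true false false .pp 0 2 2 (qsf 0 536870912 1239849684 370763052 2) ndN0q0 ndN2q2b pcN2 Cut.none Ext.none)

def k0_mm_022_b : ∃ t, chk3 f_mm_022_b t 1 1 1 = true :=
  ⟨(l 5), by decide +kernel⟩

theorem c_mm_022_b : CertNX 0 536870912 1239849684 370763052 1046898278 26843546 3 true false false .pp 0 2 2
    ndN0q0 ndN2q2b pcN2 Cut.none Ext.none :=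
  certNX0 (fam := true) (s1 := false) (s2 := false) (a := 0) (b := 2) (c := 2) (cn := .pp) (n1 := ndN0q0) (n2 := ndN2q2b) (pc := pcN2) (cut := Cut.none) (xt := Ext.none) (P1 := 0) (W1 := 536870912) (P2 := 1239849684) (W2 := 370763052) (P3 := 1046898278) (W3 := 26843546) (N0 := 3)
    rfl k0_mm_022_b

noncomputable def f_mm_023_a : ℕ → ℕ → ℕ → ℕ → Bool := onCell 0 536870912 0 420477299 1046898278 26843546
    (rowNX 3 0 true false false .up 0 2 3 (qsf 0 536870912 0 420477299 3) ndN0q0 ndN2q2a pcN3 Cut.none Ext.none)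

def k0_mm_023_a : ∃ t, chk3 f_mm_023_a t 1 1 1 = true :=
  ⟨(l 5), by decide +kernel⟩

theorem c_mm_023_a : CertNX 0 536870912 0 420477299 1046898278 26843546 3 true false false .up 0 2 3
    ndN0q0 ndN2q2a pcN3 Cut.none Ext.none :=
  certNX0 (fam := true) (s1 := false) (s2 := false) (a := 0) (b := 2) (c := 3) (cn := .up) (n1 := ndN0q0) (n2 := ndN2q2a) (pc := pcN3) (cut := Cut.none) (xt := Ext.none) (P1 := 0) (W1 := 536870912) (P2 := 0) (W2 := 420477299) (P3 := 1046898278) (W3 := 26843546) (N0 := 3)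
    rfl k0_mm_023_a

noncomputable def f_mm_023_b : ℕ → ℕ → ℕ → ℕ → Bool := onCell 0 536870912 1239849684 370763052 1046898278 26843546
    (rowNX 3 0 true false false .up 0 2 3 (qsf 0 536870912 1239849684 370763052 3) ndN0q0 ndN2q2b pcN3 Cut.none Ext.none)

def k0_mm_023_b : ∃ t, chk3 f_mm_023_b t 1 1 1 = true :=
  ⟨(l 5), by decide +kernel⟩

theorem c_mm_023_b : CertNX 0 536870912 1239849684 370763052 1046898278 26843546 3 true false false .up 0 2 3
    ndN0q0 ndN2q2b pcN3 Cut.none Ext.none :=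
  certNX0 (fam := true) (s1 := false) (s2 := false) (a := 0) (b := 2) (c := 3) (cn := .up) (n1 := ndN0q0) (n2 := ndN2q2b) (pc := pcN3) (cut := Cut.none) (xt := Ext.none) (P1 := 0) (W1 := 536870912) (P2 := 1239849684) (W2 := 370763052) (P3 := 1046898278) (W3 := 26843546) (N0 := 3)
    rfl k0_mm_023_b

noncomputable def f_mm_033 : ℕ → ℕ → ℕ → ℕ → Bool := onCell 0 536870912 1610612736 469762048 1046898278 26843546
    (rowNX 3 0 true false false .pnn 0 3 3 (qsf 0 536870912 1610612736 469762048 3) ndN0q0 ndN2q3 pcN3 Cut.none Ext.none)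

def k0_mm_033 : ∃ t, chk3 f_mm_033 t 1 1 1 = true :=
  ⟨(l 5), by decide +kernel⟩

theorem c_mm_033 : CertNX 0 536870912 1610612736 469762048 1046898278 26843546 3 true false false .pnn 0 3 3
    ndN0q0 ndN2q3 pcN3 Cut.none Ext.none :=
  certNX0 (fam := true) (s1 := false) (s2 := false) (a := 0) (b := 3) (c := 3) (cn := .pnn) (n1 := ndN0q0) (n2 := ndN2q3) (pc := pcN3) (cut := Cut.none) (xt := Ext.none) (P1 := 0) (W1 := 536870912) (P2 := 1610612736) (W2 := 469762048) (P3 := 1046898278) (W3 := 26843546) (N0 := 3)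
    rfl k0_mm_033

noncomputable def f_mm_101 : ℕ → ℕ → ℕ → ℕ → Bool := onCell 536870912 536870912 67108864 469762048 1046898278 26843546
    (rowNX 3 2 true false false .npn 1 0 1 (qsf 536870912 536870912 67108864 469762048 1) ndN0q1 ndN2q0 pcN1 Cut.none Ext.none)

def k0_mm_101 : ∃ t, chk3 f_mm_101 t 1 1 1 = true :=
  ⟨(l 4), by decide +kernel⟩

theorem c_mm_101 : CertNX 536870912 536870912 67108864 469762048 1046898278 26843546 3 true false false .npn 1 0 1
    ndN0q1 ndN2q0 pcN1 Cut.none Ext.none :=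
  certNX2 (fam := true) (s1 := false) (s2 := false) (a := 1) (b := 0) (c := 1) (cn := .npn) (n1 := ndN0q1) (n2 := ndN2q0) (pc := pcN1) (cut := Cut.none) (xt := Ext.none) (P1 := 536870912) (W1 := 536870912) (P2 := 67108864) (W2 := 469762048) (P3 := 1046898278) (W3 := 26843546) (N0 := 3)
    rfl (fun _ => rfl) k0_mm_101

noncomputable def f_mm_102 : ℕ → ℕ → ℕ → ℕ → Bool := onCell 536870912 536870912 67108864 469762048 1046898278 26843546
    (rowNX 3 0 true false false .npp 1 0 2 (qsf 536870912 536870912 67108864 469762048 2) ndN0q1 ndN2q0 pcN2 Cut.none Ext.none)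

def k0_mm_102 : ∃ t, chk3 f_mm_102 t 1 1 1 = true :=
  ⟨(a (l 4) (l 4)), by decide +kernel⟩

theorem c_mm_102 : CertNX 536870912 536870912 67108864 469762048 1046898278 26843546 3 true false false .npp 1 0 2
    ndN0q1 ndN2q0 pcN2 Cut.none Ext.none :=
  certNX0 (fam := true) (s1 := false) (s2 := false) (a := 1) (b := 0) (c := 2) (cn := .npp) (n1 := ndN0q1) (n2 := ndN2q0) (pc := pcN2) (cut := Cut.none) (xt := Ext.none) (P1 := 536870912) (W1 := 536870912) (P2 := 67108864) (W2 := 469762048) (P3 := 1046898278) (W3 := 26843546) (N0 := 3)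
    rfl k0_mm_102

noncomputable def f_mm_112 : ℕ → ℕ → ℕ → ℕ → Bool := onCell 536870912 536870912 536870912 536870912 1046898278 26843546
    (rowNX 3 0 true false false .dn 1 1 2 (qsf 536870912 536870912 536870912 536870912 2) ndN0q1 ndN2q1 pcN2 Cut.none Ext.none)

def k0_mm_112 : ∃ t, chk3 f_mm_112 t 1 1 1 = true :=
  ⟨(l 4), by decide +kernel⟩

theorem c_mm_112 : CertNX 536870912 536870912 536870912 536870912 1046898278 26843546 3 true false false .dn 1 1 2
    ndN0q1 ndN2q1 pcN2 Cut.none Ext.none :=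
  certNX0 (fam := true) (s1 := false) (s2 := false) (a := 1) (b := 1) (c := 2) (cn := .dn) (n1 := ndN0q1) (n2 := ndN2q1) (pc := pcN2) (cut := Cut.none) (xt := Ext.none) (P1 := 536870912) (W1 := 536870912) (P2 := 536870912) (W2 := 536870912) (P3 := 1046898278) (W3 := 26843546) (N0 := 3)
    rfl k0_mm_112

noncomputable def f_mm_113 : ℕ → ℕ → ℕ → ℕ → Bool := onCell 536870912 536870912 536870912 536870912 1046898278 26843546
    (rowNX 3 0 true false false .nn 1 1 3 (qsf 536870912 536870912 536870912 536870912 3) ndN0q1 ndN2q1 pcN3 Cut.none Ext.none)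

def k0_mm_113 : ∃ t, chk3 f_mm_113 t 1 1 1 = true :=
  ⟨(l 4), by decide +kernel⟩

theorem c_mm_113 : CertNX 536870912 536870912 536870912 536870912 1046898278 26843546 3 true false false .nn 1 1 3
    ndN0q1 ndN2q1 pcN3 Cut.none Ext.none :=
  certNX0 (fam := true) (s1 := false) (s2 := false) (a := 1) (b := 1) (c := 3) (cn := .nn) (n1 := ndN0q1) (n2 := ndN2q1) (pc := pcN3) (cut := Cut.none) (xt := Ext.none) (P1 := 536870912) (W1 := 536870912) (P2 := 536870912) (W2 := 536870912) (P3 := 1046898278) (W3 := 26843546) (N0 := 3)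
    rfl k0_mm_113

noncomputable def f_mm_123_a : ℕ → ℕ → ℕ → ℕ → Bool := onCell 536870912 536870912 0 420477299 1046898278 26843546
    (rowNX 3 0 true false false .npn 1 2 3 (qsf 536870912 536870912 0 420477299 3) ndN0q1 ndN2q2a pcN3 Cut.none Ext.none)

def k0_mm_123_a : ∃ t, chk3 f_mm_123_a t 1 1 1 = true :=
  ⟨(l 4), by decide +kernel⟩

theorem c_mm_123_a : CertNX 536870912 536870912 0 420477299 1046898278 26843546 3 true false false .npn 1 2 3
    ndN0q1 ndN2q2a pcN3 Cut.none Ext.none :=
  certNX0 (fam := true) (s1 := false) (s2 := false) (a := 1) (b := 2) (c := 3) (cn := .npn) (n1 := ndN0q1) (n2 := ndN2q2a) (pc := pcN3) (cut := Cut.none) (xt := Ext.none) (P1 := 536870912) (W1 := 536870912) (P2 := 0) (W2 := 420477299) (P3 := 1046898278) (W3 := 26843546) (N0 := 3)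
    rfl k0_mm_123_a

noncomputable def f_mm_123_b : ℕ → ℕ → ℕ → ℕ → Bool := onCell 536870912 536870912 1239849684 370763052 1046898278 26843546
    (rowNX 3 0 true false false .npn 1 2 3 (qsf 536870912 536870912 1239849684 370763052 3) ndN0q1 ndN2q2b pcN3 Cut.none Ext.none)

def k0_mm_123_b : ∃ t, chk3 f_mm_123_b t 1 1 1 = true :=
  ⟨(l 4), by decide +kernel⟩

theorem c_mm_123_b : CertNX 536870912 536870912 1239849684 370763052 1046898278 26843546 3 true false false .npn 1 2 3
    ndN0q1 ndN2q2b pcN3 Cut.none Ext.none :=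
  certNX0 (fam := true) (s1 := false) (s2 := false) (a := 1) (b := 2) (c := 3) (cn := .npn) (n1 := ndN0q1) (n2 := ndN2q2b) (pc := pcN3) (cut := Cut.none) (xt := Ext.none) (P1 := 536870912) (W1 := 536870912) (P2 := 1239849684) (W2 := 370763052) (P3 := 1046898278) (W3 := 26843546) (N0 := 3)
    rfl k0_mm_123_b

noncomputable def f_mm_133 : ℕ → ℕ → ℕ → ℕ → Bool := onCell 536870912 536870912 1610612736 469762048 1046898278 26843546
    (rowNX 3 0 true false false .dn 1 3 3 (qsf 536870912 536870912 1610612736 469762048 3) ndN0q1 ndN2q3 pcN3 Cut.none Ext.none)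

def k0_mm_133 : ∃ t, chk3 f_mm_133 t 1 1 1 = true :=
  ⟨(l 4), by decide +kernel⟩

theorem c_mm_133 : CertNX 536870912 536870912 1610612736 469762048 1046898278 26843546 3 true false false .dn 1 3 3
    ndN0q1 ndN2q3 pcN3 Cut.none Ext.none :=
  certNX0 (fam := true) (s1 := false) (s2 := false) (a := 1) (b := 3) (c := 3) (cn := .dn) (n1 := ndN0q1) (n2 := ndN2q3) (pc := pcN3) (cut := Cut.none) (xt := Ext.none) (P1 := 536870912) (W1 := 536870912) (P2 := 1610612736) (W2 := 469762048) (P3 := 1046898278) (W3 := 26843546) (N0 := 3)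
    rfl k0_mm_133

noncomputable def f_mm_202 : ℕ → ℕ → ℕ → ℕ → Bool := onCell 0 536870912 67108864 469762048 1046898278 26843546
    (rowNX 3 0 true false false .pp 2 0 2 (qsf 0 536870912 67108864 469762048 2) ndN0q2 ndN2q0 pcN2 Cut.none Ext.none)

def k0_mm_202 : ∃ t, chk3 f_mm_202 t 2 4 1 = true :=
  ⟨(b (a (b (b (a (c (b (a (l 15040200) (l 15148720)) (l 15428984)) (a (l 15092072) (l 15028752))) (c (a (b (l 15275048) (l 15570376)) (b (l 15424904) (l 15688632))) (a (b (l 15223608) (l 15529352)) (b (l 15379336) (l 15652240))))) (c (a (l 15786256) (l 15897080)) (a (l 15863048) (l 15938792)))) (c (b (a (b (l 16404216) (l 16689264)) (b (l 16560176) (l 16546776))) (a (l 16658776) (l 16531920))) (b (a (b (l 16457192) (l 16708712)) (b (l 16577624) (l 16560568))) (a (l 16654712) (l 16523168))))) (b (a (b (a (c (b (l 15590968) (l 15838216)) (l 15571048)) (c (l 15806032) (l 15859840))) (a (b (c (l 16123208) (l 16102504)) (c (l 16444072) (l 16434760))) (c (b (l 16148832) (l 16480760)) (b (l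 16176056) (l 16497304))))) (b (a (c (l 15929424) (l 15969480)) (b (c (l 16144104) (l 16126328)) (c (l 16396672) (l 16387920)))) (a (c (b (l 16459552) (l 16424800)) (b (l 16452184) (l 16420392))) (c (l 16375504) (l 16367880))))) (a (b (c (b (l 16543128) (l 16384688)) (b (l 16557968) (l 16370728))) (c (l 16362328) (l 16347480))) (b (a (b (c (l 16300144) (l 16307848)) (c (l 16207408) (l 16187048))) (c (b (l 16115576) (b (l 16081056) (l 16039000))) (b (l 16138056) (b (l 16056184) (l 16012632))))) (c (l 16125408) (l 16102136)))))) (a (a (b (c (l 16622144) (l 16616656)) (c (l 16654656) (l 16651792))) (b (c (l 16527456) (l 16518624)) (c (l 16561184) (l 16556064)))) (a (b (c (l 16386120) (l 16372312)) (c (b (l 16447120) (l 16554968)) (b (l 16436224) (l 16547912)))) (b (c (a (l 16236752) (l 16109776)) (a (l 16217688) (l 16086232))) (a (c (l 16337504) (l 16324136)) (c (l 16157632) (l 16119864))))))), by decide +kernel⟩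

def k1_mm_202 : ∃ t, chk3 f_mm_202 t 2 5 1 = true :=
  ⟨(a (b (c (a (l 16683648) (b (l 16725384) (l 16765936))) (a (l 16619672) (b (l 16724008) (l 16765536)))) (c (a (l 16777216) (l 16777216)) (a (l 16777216) (l 16777216)))) (b (b (b (a (c (l 16671120) (l 16668248)) (c (l 16478064) (l 16470272))) (a (c (l 16735384) (l 16734328)) (l 4))) (a (c (l 16765936) (l 16765536)) (l 4))) (a (l 4) (l 4)))), by decide +kernel⟩

def k2_mm_202 : ∃ t, chk3 f_mm_202 t 3 2 1 = true :=
  ⟨(b (a (b (a (b (b (a (c (b (l 16255776) (l 16565104)) (b (l 16266360) (l 16541720))) (c (b (l 16423488) (l 16361304)) (b (l 16420944) (l 16351800)))) (c (a (l 16177984) (l 16045392)) (a (l 16184096) (l 16065560)))) (b (a (a (c (a (l 15965200) (l 15980048)) (l 15787464)) (c (l 15907568) (l 15876488))) (c (b (l 15844928) (l 15681104)) (b (l 15811672) (l 15642000)))) (a (a (c (l 15933360) (l 15903288)) (b (c (l 15831544) (l 15797848)) (l 15837584))) (a (b (l 15714640) (c (l 15764128) (l 15728104))) (c (l 15668280) (l 15628840))))))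 (b (b (a (c (a (l 16222832) (l 16282072)) (a (l 16234824) (l 16313592))) (b (a (c (l 16395064) (l 16384944)) (c (a (b (l 16376920) (l 16342520)) (b (l 16410448) (l 16312304))) (a (b (l 16409440) (l 16329504)) (b (l 16400400) (l 16319632))))) (c (l 16129184) (l 16153432)))) (b (a (c (l 16071072) (l 16090664)) (c (l 16083024) (l 16058888))) (a (c (l 15929064) (l 15899144)) (l 4)))) (b (a (b (c (l 15736160) (l 15698912)) (a (c (l 15571968) (l 15529032)) (l 4))) (l 4)) (l 4)))) (a (b (a (c (l 15953904) (l 15883664)) (b (a (l 15809464) (l 4)) (l 4))) (l 4)) (l 4))) (a (b (b (a (a (b (b (c (l 16358336) (l 16345640)) (l 4)) (l 4)) (l 4)) (l 4)) (l 4)) (l 4)) (l 4))) (l 4)), by decide +kernel⟩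

def k3_mm_202 : ∃ t, chk3 f_mm_202 t 1 3 1 = true :=
  ⟨(b (a (a (a (b (c (l 16777216) (l 16777216)) (l 4)) (l 4)) (l 4)) (l 4)) (l 4)), by decide +kernel⟩

theorem s4_mm_202 : ∃ t, chk3 f_mm_202 t 2 2 1 = true := ex3_b k0_mm_202 k1_mm_202

theorem s5_mm_202 : ∃ t, chk3 f_mm_202 t 1 2 1 = true := ex3_a s4_mm_202 k2_mm_202

theorem s6_mm_202 : ∃ t, chk3 f_mm_202 t 1 1 1 = true := ex3_b s5_mm_202 k3_mm_202

theorem c_mm_202 : CertNX 0 536870912 67108864 469762048 1046898278 26843546 3 true false false .pp 2 0 2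
    ndN0q2 ndN2q0 pcN2 Cut.none Ext.none :=
  certNX0 (fam := true) (s1 := false) (s2 := false) (a := 2) (b := 0) (c := 2) (cn := .pp) (n1 := ndN0q2) (n2 := ndN2q0) (pc := pcN2) (cut := Cut.none) (xt := Ext.none) (P1 := 0) (W1 := 536870912) (P2 := 67108864) (W2 := 469762048) (P3 := 1046898278) (W3 := 26843546) (N0 := 3)
    rfl s6_mm_202

noncomputable def f_mm_203 : ℕ → ℕ → ℕ → ℕ → Bool := onCell 0 536870912 1610612736 536870912 1046898278 26843546
    (rowNX 3 1 true false false .up 2 0 3 (qsf 0 536870912 67108864 469762048 3) ndN0q2 ndN2q0 pcN3 Cut.none Ext.none)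

def k0_mm_203 : ∃ t, chk3 f_mm_203 t 1 1 1 = true :=
  ⟨(a (b (l 4) (l 2)) (l 4)), by decide +kernel⟩

theorem c_mm_203 : CertNX 0 536870912 67108864 469762048 1046898278 26843546 3 true false false .up 2 0 3
    ndN0q2 ndN2q0 pcN3 Cut.none Ext.none :=
  certNX1 (fam := true) (s1 := false) (s2 := false) (a := 2) (b := 0) (c := 3) (cn := .up) (n1 := ndN0q2) (n2 := ndN2q0) (pc := pcN3) (cut := Cut.none) (xt := Ext.none) (P1 := 0) (W1 := 536870912) (P2 := 67108864) (W2 := 469762048) (P3 := 1046898278) (W3 := 26843546) (N0 := 3)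
    rfl (fun _ => rfl) k0_mm_203

noncomputable def f_mm_213 : ℕ → ℕ → ℕ → ℕ → Bool := onCell 0 536870912 536870912 536870912 1046898278 26843546
    (rowNX 3 0 true false false .pnn 2 1 3 (qsf 0 536870912 536870912 536870912 3) ndN0q2 ndN2q1 pcN3 Cut.none Ext.none)

def k0_mm_213 : ∃ t, chk3 f_mm_213 t 1 1 1 = true :=
  ⟨(l 4), by decide +kernel⟩

theorem c_mm_213 : CertNX 0 536870912 536870912 536870912 1046898278 26843546 3 true false false .pnn 2 1 3
    ndN0q2 ndN2q1 pcN3 Cut.none Ext.none :=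
  certNX0 (fam := true) (s1 := false) (s2 := false) (a := 2) (b := 1) (c := 3) (cn := .pnn) (n1 := ndN0q2) (n2 := ndN2q1) (pc := pcN3) (cut := Cut.none) (xt := Ext.none) (P1 := 0) (W1 := 536870912) (P2 := 536870912) (W2 := 536870912) (P3 := 1046898278) (W3 := 26843546) (N0 := 3)
    rfl k0_mm_213

end Pool.Agent.Strip051.G.IE1.Tab.C.NA02

namespace Pool.Agent.Strip051.G.IE1.Tab.C.NA03

open Pool.Agent.Strip051.PB Pool.Agent.Strip051.PB.T
open Pool.Agent.Strip051.G.IE1.Tab

noncomputable def f_pp_001 : ℕ → ℕ → ℕ → ℕ → Bool := onCell 0 536870912 0 536870912 1046898278 26843546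
    (rowNX 3 0 true true true .up 0 0 1 (qsf 0 536870912 0 536870912 1) ndN0q0 ndN3q0 pcN1 Cut.none Ext.none)

def k0_pp_001 : ∃ t, chk3 f_pp_001 t 1 1 1 = true :=
  ⟨(l 4), by decide +kernel⟩

theorem c_pp_001 : CertNX 0 536870912 0 536870912 1046898278 26843546 3 true true true .up 0 0 1
    ndN0q0 ndN3q0 pcN1 Cut.none Ext.none :=
  certNX0 (fam := true) (s1 := true) (s2 := true) (a := 0) (b := 0) (c := 1) (cn := .up) (n1 := ndN0q0) (n2 := ndN3q0) (pc := pcN1) (cut := Cut.none) (xt := Ext.none) (P1 := 0) (W1 := 536870912) (P2 := 0) (W2 := 536870912) (P3 := 1046898278) (W3 := 26843546) (N0 := 3)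
    rfl k0_pp_001

noncomputable def f_pp_011 : ℕ → ℕ → ℕ → ℕ → Bool := onCell 0 536870912 536870912 536870912 1046898278 26843546
    (rowNX 3 0 true true true .pnn 0 1 1 (qsf 0 536870912 536870912 536870912 1) ndN0q0 ndN3q1 pcN1 Cut.none Ext.none)

def k0_pp_011 : ∃ t, chk3 f_pp_011 t 1 1 1 = true :=
  ⟨(l 4), by decide +kernel⟩

theorem c_pp_011 : CertNX 0 536870912 536870912 536870912 1046898278 26843546 3 true true true .pnn 0 1 1
    ndN0q0 ndN3q1 pcN1 Cut.none Ext.none :=
  certNX0 (fam := true) (s1 := true) (s2 := true) (a := 0) (b := 1) (c := 1) (cn := .pnn) (n1 := ndN0q0) (n2 := ndN3q1) (pc := pcN1) (cut := Cut.none) (xt := Ext.none) (P1 := 0) (W1 := 536870912) (P2 := 536870912) (W2 := 536870912) (P3 := 1046898278) (W3 := 26843546) (N0 := 3)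
    rfl k0_pp_011

noncomputable def f_pp_012 : ℕ → ℕ → ℕ → ℕ → Bool := onCell 0 536870912 536870912 536870912 1046898278 26843546
    (rowNX 3 0 true true true .pnp 0 1 2 (qsf 0 536870912 536870912 536870912 2) ndN0q0 ndN3q1 pcN2 Cut.none Ext.none)

def k0_pp_012 : ∃ t, chk3 f_pp_012 t 1 1 1 = true :=
  ⟨(l 4), by decide +kernel⟩

theorem c_pp_012 : CertNX 0 536870912 536870912 536870912 1046898278 26843546 3 true true true .pnp 0 1 2
    ndN0q0 ndN3q1 pcN2 Cut.none Ext.none :=
  certNX0 (fam := true) (s1 := true) (s2 := true) (a := 0) (b := 1) (c := 2) (cn := .pnp) (n1 := ndN0q0) (n2 := ndN3q1) (pc := pcN2) (cut := Cut.none) (xt := Ext.none) (P1 := 0) (W1 := 536870912) (P2 := 536870912) (W2 := 536870912) (P3 := 1046898278) (W3 := 26843546) (N0 := 3)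
    rfl k0_pp_012

noncomputable def cut_pp_022 : Cut := Cut.of [[⟨0, 0, 0, 67108864⟩, ⟨1, 1, 0, 67108864⟩, ⟨2, 1, 0, 67108864⟩]]

noncomputable def f_pp_022 : ℕ → ℕ → ℕ → ℕ → Bool := onCell 0 536870912 1073741824 536870912 1046898278 26843546
    (rowNX 3 0 true true true .pp 0 2 2 (qsf 0 536870912 1073741824 536870912 2) ndN0q0 ndN3q2 pcN2 cut_pp_022 Ext.none)

def k0_pp_022 : ∃ t, chk3 f_pp_022 t 1 1 1 = true :=
  ⟨(b (a (b (a (a (b (b (a (a (l 6) (l 4)) (l 4)) (l 4)) (l 4)) (l 4)) (l 4)) (l 4)) (l 4)) (l 4)), by decide +kernel⟩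

theorem c_pp_022 : CertNX 0 536870912 1073741824 536870912 1046898278 26843546 3 true true true .pp 0 2 2
    ndN0q0 ndN3q2 pcN2 cut_pp_022 Ext.none :=
  certNX0 (fam := true) (s1 := true) (s2 := true) (a := 0) (b := 2) (c := 2) (cn := .pp) (n1 := ndN0q0) (n2 := ndN3q2) (pc := pcN2) (cut := cut_pp_022) (xt := Ext.none) (P1 := 0) (W1 := 536870912) (P2 := 1073741824) (W2 := 536870912) (P3 := 1046898278) (W3 := 26843546) (N0 := 3)
    rfl k0_pp_022

noncomputable def f_pp_023 : ℕ → ℕ → ℕ → ℕ → Bool := onCell 0 536870912 1610612736 536870912 1046898278 26843546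
    (rowNX 3 1 true true true .up 0 2 3 (qsf 0 536870912 1073741824 536870912 3) ndN0q0 ndN3q2 pcN3 Cut.none Ext.none)

def k0_pp_023 : ∃ t, chk3 f_pp_023 t 1 1 1 = true :=
  ⟨(a (l 4) (l 4)), by decide +kernel⟩

theorem c_pp_023 : CertNX 0 536870912 1073741824 536870912 1046898278 26843546 3 true true true .up 0 2 3
    ndN0q0 ndN3q2 pcN3 Cut.none Ext.none :=
  certNX1 (fam := true) (s1 := true) (s2 := true) (a := 0) (b := 2) (c := 3) (cn := .up) (n1 := ndN0q0) (n2 := ndN3q2) (pc := pcN3) (cut := Cut.none) (xt := Ext.none) (P1 := 0) (W1 := 536870912) (P2 := 1073741824) (W2 := 536870912) (P3 := 1046898278) (W3 := 26843546) (N0 := 3)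
    rfl (fun _ => rfl) k0_pp_023

noncomputable def f_pp_033 : ℕ → ℕ → ℕ → ℕ → Bool := onCell 0 536870912 1610612736 536870912 1046898278 26843546
    (rowNX 3 0 true true true .pnn 0 3 3 (qsf 0 536870912 1610612736 536870912 3) ndN0q0 ndN3q3 pcN3 Cut.none Ext.none)

def k0_pp_033 : ∃ t, chk3 f_pp_033 t 1 1 1 = true :=
  ⟨(l 4), by decide +kernel⟩

theorem c_pp_033 : CertNX 0 536870912 1610612736 536870912 1046898278 26843546 3 true true true .pnn 0 3 3
    ndN0q0 ndN3q3 pcN3 Cut.none Ext.none :=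
  certNX0 (fam := true) (s1 := true) (s2 := true) (a := 0) (b := 3) (c := 3) (cn := .pnn) (n1 := ndN0q0) (n2 := ndN3q3) (pc := pcN3) (cut := Cut.none) (xt := Ext.none) (P1 := 0) (W1 := 536870912) (P2 := 1610612736) (W2 := 536870912) (P3 := 1046898278) (W3 := 26843546) (N0 := 3)
    rfl k0_pp_033

noncomputable def f_pp_101 : ℕ → ℕ → ℕ → ℕ → Bool := onCell 536870912 536870912 0 536870912 1046898278 26843546
    (rowNX 3 0 true true true .npn 1 0 1 (qsf 536870912 536870912 0 536870912 1) ndN0q1 ndN3q0 pcN1 Cut.none Ext.none)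

def k0_pp_101 : ∃ t, chk3 f_pp_101 t 1 1 1 = true :=
  ⟨(l 5), by decide +kernel⟩

theorem c_pp_101 : CertNX 536870912 536870912 0 536870912 1046898278 26843546 3 true true true .npn 1 0 1
    ndN0q1 ndN3q0 pcN1 Cut.none Ext.none :=
  certNX0 (fam := true) (s1 := true) (s2 := true) (a := 1) (b := 0) (c := 1) (cn := .npn) (n1 := ndN0q1) (n2 := ndN3q0) (pc := pcN1) (cut := Cut.none) (xt := Ext.none) (P1 := 536870912) (W1 := 536870912) (P2 := 0) (W2 := 536870912) (P3 := 1046898278) (W3 := 26843546) (N0 := 3)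
    rfl k0_pp_101

noncomputable def f_pp_102 : ℕ → ℕ → ℕ → ℕ → Bool := onCell 536870912 536870912 0 536870912 1046898278 26843546
    (rowNX 3 0 true true true .npp 1 0 2 (qsf 536870912 536870912 0 536870912 2) ndN0q1 ndN3q0 pcN2 Cut.none Ext.none)

def k0_pp_102 : ∃ t, chk3 f_pp_102 t 1 1 1 = true :=
  ⟨(l 5), by decide +kernel⟩

theorem c_pp_102 : CertNX 536870912 536870912 0 536870912 1046898278 26843546 3 true true true .npp 1 0 2
    ndN0q1 ndN3q0 pcN2 Cut.none Ext.none :=
  certNX0 (fam := true) (s1 := true) (s2 := true) (a := 1) (b := 0) (c := 2) (cn := .npp) (n1 := ndN0q1) (n2 := ndN3q0) (pc := pcN2) (cut := Cut.none) (xt := Ext.none) (P1 := 536870912) (W1 := 536870912) (P2 := 0) (W2 := 536870912) (P3 := 1046898278) (W3 := 26843546) (N0 := 3)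
    rfl k0_pp_102

noncomputable def f_pp_112 : ℕ → ℕ → ℕ → ℕ → Bool := onCell 536870912 536870912 536870912 536870912 1046898278 26843546
    (rowNX 3 0 true true true .dn 1 1 2 (qsf 536870912 536870912 536870912 536870912 2) ndN0q1 ndN3q1 pcN2 Cut.none Ext.none)

def k0_pp_112 : ∃ t, chk3 f_pp_112 t 1 1 1 = true :=
  ⟨(l 4), by decide +kernel⟩

theorem c_pp_112 : CertNX 536870912 536870912 536870912 536870912 1046898278 26843546 3 true true true .dn 1 1 2
    ndN0q1 ndN3q1 pcN2 Cut.none Ext.none :=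
  certNX0 (fam := true) (s1 := true) (s2 := true) (a := 1) (b := 1) (c := 2) (cn := .dn) (n1 := ndN0q1) (n2 := ndN3q1) (pc := pcN2) (cut := Cut.none) (xt := Ext.none) (P1 := 536870912) (W1 := 536870912) (P2 := 536870912) (W2 := 536870912) (P3 := 1046898278) (W3 := 26843546) (N0 := 3)
    rfl k0_pp_112

noncomputable def f_pp_113 : ℕ → ℕ → ℕ → ℕ → Bool := onCell 536870912 536870912 536870912 536870912 1046898278 26843546
    (rowNX 3 0 true true true .nn 1 1 3 (qsf 536870912 536870912 536870912 536870912 3) ndN0q1 ndN3q1 pcN3 Cut.none Ext.none)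

def k0_pp_113 : ∃ t, chk3 f_pp_113 t 1 1 1 = true :=
  ⟨(l 4), by decide +kernel⟩

theorem c_pp_113 : CertNX 536870912 536870912 536870912 536870912 1046898278 26843546 3 true true true .nn 1 1 3
    ndN0q1 ndN3q1 pcN3 Cut.none Ext.none :=
  certNX0 (fam := true) (s1 := true) (s2 := true) (a := 1) (b := 1) (c := 3) (cn := .nn) (n1 := ndN0q1) (n2 := ndN3q1) (pc := pcN3) (cut := Cut.none) (xt := Ext.none) (P1 := 536870912) (W1 := 536870912) (P2 := 536870912) (W2 := 536870912) (P3 := 1046898278) (W3 := 26843546) (N0 := 3)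
    rfl k0_pp_113

noncomputable def f_pp_123 : ℕ → ℕ → ℕ → ℕ → Bool := onCell 536870912 536870912 1073741824 536870912 1046898278 26843546
    (rowNX 3 0 true true true .npn 1 2 3 (qsf 536870912 536870912 1073741824 536870912 3) ndN0q1 ndN3q2 pcN3 Cut.none Ext.none)

def k0_pp_123 : ∃ t, chk3 f_pp_123 t 1 1 1 = true :=
  ⟨(l 4), by decide +kernel⟩

theorem c_pp_123 : CertNX 536870912 536870912 1073741824 536870912 1046898278 26843546 3 true true true .npn 1 2 3
    ndN0q1 ndN3q2 pcN3 Cut.none Ext.none :=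
  certNX0 (fam := true) (s1 := true) (s2 := true) (a := 1) (b := 2) (c := 3) (cn := .npn) (n1 := ndN0q1) (n2 := ndN3q2) (pc := pcN3) (cut := Cut.none) (xt := Ext.none) (P1 := 536870912) (W1 := 536870912) (P2 := 1073741824) (W2 := 536870912) (P3 := 1046898278) (W3 := 26843546) (N0 := 3)
    rfl k0_pp_123

noncomputable def f_pp_133 : ℕ → ℕ → ℕ → ℕ → Bool := onCell 536870912 536870912 1610612736 536870912 1046898278 26843546
    (rowNX 3 0 true true true .dn 1 3 3 (qsf 536870912 536870912 1610612736 536870912 3) ndN0q1 ndN3q3 pcN3 Cut.none Ext.none)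

def k0_pp_133 : ∃ t, chk3 f_pp_133 t 1 1 1 = true :=
  ⟨(l 4), by decide +kernel⟩

theorem c_pp_133 : CertNX 536870912 536870912 1610612736 536870912 1046898278 26843546 3 true true true .dn 1 3 3
    ndN0q1 ndN3q3 pcN3 Cut.none Ext.none :=
  certNX0 (fam := true) (s1 := true) (s2 := true) (a := 1) (b := 3) (c := 3) (cn := .dn) (n1 := ndN0q1) (n2 := ndN3q3) (pc := pcN3) (cut := Cut.none) (xt := Ext.none) (P1 := 536870912) (W1 := 536870912) (P2 := 1610612736) (W2 := 536870912) (P3 := 1046898278) (W3 := 26843546) (N0 := 3)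
    rfl k0_pp_133

noncomputable def f_pp_202 : ℕ → ℕ → ℕ → ℕ → Bool := onCell 0 536870912 0 536870912 1046898278 26843546
    (rowNX 3 0 true true true .pp 2 0 2 (qsf 0 536870912 0 536870912 2) ndN0q2 ndN3q0 pcN2 Cut.none Ext.none)

def k0_pp_202 : ∃ t, chk3 f_pp_202 t 1 1 1 = true :=
  ⟨(l 5), by decide +kernel⟩

theorem c_pp_202 : CertNX 0 536870912 0 536870912 1046898278 26843546 3 true true true .pp 2 0 2
    ndN0q2 ndN3q0 pcN2 Cut.none Ext.none :=
  certNX0 (fam := true) (s1 := true) (s2 := true) (a := 2) (b := 0) (c := 2) (cn := .pp) (n1 := ndN0q2) (n2 := ndN3q0) (pc := pcN2) (cut := Cut.none) (xt := Ext.none) (P1 := 0) (W1 := 536870912) (P2 := 0) (W2 := 536870912) (P3 := 1046898278) (W3 := 26843546) (N0 := 3)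
    rfl k0_pp_202

noncomputable def f_pp_203 : ℕ → ℕ → ℕ → ℕ → Bool := onCell 0 536870912 0 536870912 1046898278 26843546
    (rowNX 3 0 true true true .up 2 0 3 (qsf 0 536870912 0 536870912 3) ndN0q2 ndN3q0 pcN3 Cut.none Ext.none)

def k0_pp_203 : ∃ t, chk3 f_pp_203 t 1 1 1 = true :=
  ⟨(l 5), by decide +kernel⟩

theorem c_pp_203 : CertNX 0 536870912 0 536870912 1046898278 26843546 3 true true true .up 2 0 3
    ndN0q2 ndN3q0 pcN3 Cut.none Ext.none :=
  certNX0 (fam := true) (s1 := true) (s2 := true) (a := 2) (b := 0) (c := 3) (cn := .up) (n1 := ndN0q2) (n2 := ndN3q0) (pc := pcN3) (cut := Cut.none) (xt := Ext.none) (P1 := 0) (W1 := 536870912) (P2 := 0) (W2 := 536870912) (P3 := 1046898278) (W3 := 26843546) (N0 := 3)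
    rfl k0_pp_203

noncomputable def f_pp_213 : ℕ → ℕ → ℕ → ℕ → Bool := onCell 0 536870912 536870912 536870912 1046898278 26843546
    (rowNX 3 0 true true true .pnn 2 1 3 (qsf 0 536870912 536870912 536870912 3) ndN0q2 ndN3q1 pcN3 Cut.none Ext.none)

def k0_pp_213 : ∃ t, chk3 f_pp_213 t 1 1 1 = true :=
  ⟨(l 4), by decide +kernel⟩

theorem c_pp_213 : CertNX 0 536870912 536870912 536870912 1046898278 26843546 3 true true true .pnn 2 1 3
    ndN0q2 ndN3q1 pcN3 Cut.none Ext.none :=
  certNX0 (fam := true) (s1 := true) (s2 := true) (a := 2) (b := 1) (c := 3) (cn := .pnn) (n1 := ndN0q2) (n2 := ndN3q1) (pc := pcN3) (cut := Cut.none) (xt := Ext.none) (P1 := 0) (W1 := 536870912) (P2 := 536870912) (W2 := 536870912) (P3 := 1046898278) (W3 := 26843546) (N0 := 3)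
    rfl k0_pp_213

noncomputable def f_pm_001 : ℕ → ℕ → ℕ → ℕ → Bool := onCell 536870912 536870912 0 536870912 1046898278 26843546
    (rowNX 3 2 true true false .up 0 0 1 (qsf 0 536870912 0 536870912 1) ndN0q0 ndN3q0 pcN1 Cut.none Ext.none)

def k0_pm_001 : ∃ t, chk3 f_pm_001 t 1 1 1 = true :=
  ⟨(a (l 3) (a (l 3) (b (l 2) (a (l 3) (a (l 3) (b (l 2) (b (l 2) (a (l 3) (a (l 3) (a (l 3) (a (l 3) (c (l 15412096) (l 15363008))))))))))))), by decide +kernel⟩

theorem c_pm_001 : CertNX 0 536870912 0 536870912 1046898278 26843546 3 true true false .up 0 0 1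
    ndN0q0 ndN3q0 pcN1 Cut.none Ext.none :=
  certNX2 (fam := true) (s1 := true) (s2 := false) (a := 0) (b := 0) (c := 1) (cn := .up) (n1 := ndN0q0) (n2 := ndN3q0) (pc := pcN1) (cut := Cut.none) (xt := Ext.none) (P1 := 0) (W1 := 536870912) (P2 := 0) (W2 := 536870912) (P3 := 1046898278) (W3 := 26843546) (N0 := 3)
    rfl (fun _ => rfl) k0_pm_001

noncomputable def cut_pm_011 : Cut := Cut.of [[⟨0, 0, 0, 67108864⟩, ⟨1, 1, 0, 67108864⟩, ⟨2, 1, 0, 67108864⟩]]

noncomputable def f_pm_011 : ℕ → ℕ → ℕ → ℕ → Bool := onCell 536870912 536870912 536870912 536870912 1046898278 26843546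
    (rowNX 3 2 true true false .pnn 0 1 1 (qsf 0 536870912 536870912 536870912 1) ndN0q0 ndN3q1 pcN1 cut_pm_011 Ext.none)

def k0_pm_011 : ∃ t, chk3 f_pm_011 t 2 1 1 = true :=
  ⟨(l 3), by decide +kernel⟩

def k1_pm_011 : ∃ t, chk3 f_pm_011 t 6 1 1 = true :=
  ⟨(l 3), by decide +kernel⟩

def k2_pm_011 : ∃ t, chk3 f_pm_011 t 14 1 1 = true :=
  ⟨(l 3), by decide +kernel⟩

def k3_pm_011 : ∃ t, chk3 f_pm_011 t 15 1 1 = true :=
  ⟨(a (l 3) (b (a (l 3) (a (l 3) (a (b (l 3) (l 3)) (a (b (l 3) (l 3)) (b (c (b (l 15412104) (l 15412104)) (b (l 15363008) (c (l 15376248) (l 15350976)))) (c (b (l 15412104) (l 15412104)) (b (c (l 15376256) (l 15309032)) (c (l 15376256) (c (l 15358096) (l 15345664)))))))))) (a (l 3) (a (l 3) (b (a (l 3) (a (l 3) (a (b (l 3) (l 3)) (a (b (l 3) (l 3)) (a (b (l 3) (l 3)) (b (b (c (b (l 15408624) (l 15362840)) (b (l 15360368) (c (l 15325416) (l 15299880)))) (c (l 15319144) (c (l 15280360) (l 15253904)))) (b (c (l 15353824) (c (l 15316152) (l 15290464))) (b (c (b (b (l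 15375480) (l 15363584)) (l 15459904)) (b (b (l 15325784) (b (l 15329680) (l 15340784))) (l 15413568))) (c (l 15632888) (c (l 15603416) (l 15583312))))))))))) (a (l 3) (a (l 3) (b (a (l 3) (a (l 3) (a (l 3) (a (b (l 3) (l 3)) (b (c (b (b (l 15811456) (l 15916520)) (b (l 15987776) (c (b (l 16015072) (l 16014688)) (l 16012992)))) (b (b (l 15778760) (l 15887760)) (b (l 15961600) (c (l 16000456) (l 15987736))))) (b (c (c (c (l 15951248) (l 15944328)) (l 15933872)) (c (l 15919792) (l 15905480))) (c (b (b (l 15871632) (b (l 15850536) (l 15848832))) (c (l 15879504) (l 15870416))) (b (c (l 15837488) (l 15821584)) (c (l 15855080) (l 15839456)))))))))) (b (a (l 3) (a (l 3) (a (l 3) (b (b (a (l 3) (b (b (c (c (c (b (b (b (b (l 15913344) (l 6)) (l 6)) (l 6)) (l 6)) (l 15918024)) (l 15907152)) (c (l 15892472) (l 15877504))) (l 6)) (l 6))) (l 6)) (l 6))))) (l 6)))))))))), by decide +kernel⟩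

theorem s4_pm_011 : ∃ t, chk3 f_pm_011 t 7 1 1 = true := ex3_a k2_pm_011 k3_pm_011

theorem s5_pm_011 : ∃ t, chk3 f_pm_011 t 3 1 1 = true := ex3_a k1_pm_011 s4_pm_011

theorem s6_pm_011 : ∃ t, chk3 f_pm_011 t 1 1 1 = true := ex3_a k0_pm_011 s5_pm_011

theorem c_pm_011 : CertNX 0 536870912 536870912 536870912 1046898278 26843546 3 true true false .pnn 0 1 1
    ndN0q0 ndN3q1 pcN1 cut_pm_011 Ext.none :=
  certNX2 (fam := true) (s1 := true) (s2 := false) (a := 0) (b := 1) (c := 1) (cn := .pnn) (n1 := ndN0q0) (n2 := ndN3q1) (pc := pcN1) (cut := cut_pm_011) (xt := Ext.none) (P1 := 0) (W1 := 536870912) (P2 := 536870912) (W2 := 536870912) (P3 := 1046898278) (W3 := 26843546) (N0 := 3)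
    rfl (fun _ => rfl) s6_pm_011

noncomputable def cut_pm_012 : Cut := Cut.of [[⟨0, 0, 0, 67108864⟩, ⟨1, 1, 0, 67108864⟩, ⟨2, 1, 0, 67108864⟩]]

noncomputable def f_pm_012 : ℕ → ℕ → ℕ → ℕ → Bool := onCell 1073741824 536870912 536870912 536870912 1046898278 26843546
    (rowNX 3 2 true true false .pnp 0 1 2 (qsf 0 536870912 536870912 536870912 2) ndN0q0 ndN3q1 pcN2 cut_pm_012 Ext.none)

def k0_pm_012 : ∃ t, chk3 f_pm_012 t 16 2 1 = true :=
  ⟨(a (c (b (a (b (l 15463984) (a (l 15437160) (l 15497752))) (b (l 15565408) (l 15522312))) (a (b (a (l 15436936) (l 15496904)) (a (b (l 15437184) (l 15437056)) (b (l 15496072) (l 15495680)))) (b (c (l 15583040) (l 15546464)) (c (l 15582064) (l 15545408))))) (a (b (c (a (b (l 15401104) (l 15400864)) (b (l 15455800) (l 15454832))) (a (c (b (l 15379048) (l 15378808)) (a (c (l 15357720) (a (b (l 15343776) (l 15259864)) (b (l 15354232) (l 15354128)))) (b (l 15377192) (l 15376936)))) (b (l 15416416) (c (l 15418648) (l 15392936))))) (c (a (b (l 15400640)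 (b (l 15400848) (l 15400720))) (b (l 15453944) (l 15453104))) (a (b (c (a (l 15368384) (l 15396024)) (a (c (l 15357176) (a (a (l 15341632) (l 15346480)) (l 15354032))) (l 15376704))) (c (a (l 15368280) (b (l 15395344) (l 15395096))) (a (c (l 15357072) (a (c (l 15346368) (a (l 15339624) (l 15343888))) (l 15353928))) (b (l 15376336) (l 15376224))))) (b (c (l 15417696) (l 15392552)) (c (l 15416808) (l 15392184)))))) (b (c (b (l 15497000) (l 15495632)) (b (l 15445832) (l 15445240))) (c (b (l 15494360) (l 15493168)) (b (c (l 15448808) (l 15430176)) (c (l 15447472) (l 15429608))))))) (b (c (c (l 15663904) (l 15604712)) (c (b (l 15550656) (c (l 15557016) (l 15533816))) (l 15513144))) (c (b (c (l 15664040) (l 15604216)) (c (l 15664120) (l 15603944))) (c (b (l 15484040) (c (l 15555848) (l 15532400))) (b (l 15512392) (l 15512088)))))), by decide +kernel⟩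

def k1_pm_012 : ∃ t, chk3 f_pm_012 t 17 2 1 = true :=
  ⟨(b (c (c (a (l 15694152) (b (l 15696320) (l 15708240))) (a (b (l 15638984) (l 15642760)) (b (l 15662544) (l 15678656)))) (a (b (l 15601056) (l 15602592)) (c (b (l 15666880) (l 15672224)) (l 15632832)))) (c (c (a (l 15639376) (b (l 15719328) (l 15729776))) (a (b (l 15646272) (l 15649592)) (l 15694416))) (a (b (c (l 15611528) (l 15598984)) (c (l 15612984) (l 15600744))) (c (b (l 15676456) (l 15575304)) (b (l 15667920) (l 15676480)))))), by decide +kernel⟩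

def k2_pm_012 : ∃ t, chk3 f_pm_012 t 32 6 2 = true :=
  ⟨(b (a (b (a (b (l 15437216) (b (l 15429552) (l 15377928))) (b (l 15495344) (b (l 15495096) (l 15468360)))) (a (b (l 15359784) (l 15375736)) (c (l 15474960) (l 15451096)))) (b (a (c (l 15558944) (l 15528040)) (l 15579400)) (a (c (l 15565720) (l 15534968)) (c (l 15642528) (l 15603288))))) (a (a (b (b (l 15392928) (l 15411336)) (b (b (b (l 15423584) (b (l 15427320) (l 15437936))) (l 15507552)) (c (b (l 15631680) (l 15747088)) (l 15670336)))) (b (c (l 15508376) (l 15485216)) (b (b (c (l 15533656) (l 15427120)) (l 15600848)) (c (l 15780448) (l 15762624))))) (b (c (a (l 15598696) (l 15676784)) (a (l 15568632) (l 15638216))) (b (b (c (b (l 15657376) (a (l 15628064) (l 15705880))) (a (l 15594112) (l 15663456))) (c (l 15738512) (l 15704920))) (c (a (l 15868120) (l 15943680)) (l 15748808)))))), by decide +kernel⟩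

def k3_pm_012 : ∃ t, chk3 f_pm_012 t 32 12 3 = true :=
  ⟨(a (c (b (a (b (l 15400856) (a (l 15346192) (l 15388600))) (b (l 15452304) (b (l 15452048) (l 15424448)))) (a (a (l 15305464) (l 15355120)) (c (l 15429664) (l 15409752)))) (a (c (b (a (b (l 15368456) (l 15326880)) (b (l 15394864) (l 15365680))) (a (l 15285560) (l 15331696))) (b (b (a (a (a (a (l 15343976) (l 15353352)) (l 15357616)) (l 15364304)) (l 15376080)) (a (c (a (l 15307584) (l 15327896)) (a (c (l 15301712) (a (b (l 15327952) (l 15258976)) (l 15303384))) (l 15318344))) (c (l 15346816) (l 15334632)))) (a (c (a (l 15263592) (l 15287000)) (a (c (l 15257608) (a (a (b (l 15237456) (l 15254616)) (l 15251624)) (l 15258512))) (l 15277280))) (c (l 15312576) (l 15300328))))) (b (c (l 15406616) (c (l 15382880) (l 15374192))) (c (l 15381968) (c (l 15358040) (l 15349496)))))) (b (c (b (l 15492200) (l 15488488)) (c (l 15444176) (l 15426928))) (c (b (l 15505480) (l 15523776)) (c (b (l 15459840) (l 15478408)) (l 15410232))))), by decide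 +kernel⟩

def k4_pm_012 : ∃ t, chk3 f_pm_012 t 64 13 3 = true :=
  ⟨(c (b (a (a (l 15341096) (l 15390400)) (c (l 15464320) (l 15444768))) (a (b (b (a (b (l 15363608) (l 15372928)) (l 15375016)) (a (l 15450288) (l 15498600))) (a (l 15627784) (l 15675352))) (b (b (b (l 15475360) (b (l 15479128) (l 15489936))) (l 15560976)) (l 15631600)))) (b (a (c (a (l 15258840) (l 15367536)) (a (c (a (l 15300168) (l 15323384)) (c (a (l 15294328) (l 15313792)) (a (a (a (a (l 15281632) (a (l 15283880) (l 15285728))) (l 15288464)) (b (l 15286552) (l 15306208))) (l 15307792)))) (c (l 15348704) (l 15336784)))) (c (l 15417344) (c (l 15393688) (l 15385600)))) (a (c (b (a (b (a (l 15337472) (l 15362280)) (l 15432528)) (b (b (l 15389808) (l 15399200)) (l 15477336))) (a (l 15612608) (l 15656640))) (a (c (b (b (a (b (l 15323104) (l 15332640)) (l 15350696)) (a (l 15411816) (l 15434464))) (a (l 15593416) (l 15615704))) (a (b (c (b (a (l 15317024) (l 15328528)) (l 15406312)) (b (a (c (b (l 15309336) (l 15318936))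 (a (b (l 15304712) (c (l 15314976) (b (l 15308104) (l 15319416)))) (l 15315048))) (b (l 15319096) (l 15328688))) (a (c (l 15398600) (a (l 15394128) (l 15399624))) (l 15408320)))) (c (l 15588600) (a (a (a (l 15576848) (l 15454384)) (l 15499752)) (l 15590992)))) (b (b (c (l 15341208) (l 15293400)) (l 15425616)) (c (l 15607168) (l 15601984))))) (b (b (c (l 15375856) (c (l 15363824) (l 15359912))) (c (l 15459304) (l 15448048))) (c (l 15639888) (l 15629552))))) (c (b (b (l 15443992) (l 15526216)) (l 15704232)) (b (b (c (l 15420520) (l 15412744)) (c (l 15503344) (l 15496040))) (c (l 15682640) (l 15676288))))))), by decide +kernel⟩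

def k5_pm_012 : ∃ t, chk3 f_pm_012 t 65 13 3 = true :=
  ⟨(b (c (l 15528912) (c (l 15504896) (l 15489080))) (c (b (b (b (l 15571144) (l 15580160)) (l 15655504)) (l 15807544)) (b (c (b (b (l 15526440) (l 15535576)) (l 15612024)) (b (b (l 15511072) (l 15520352)) (l 15597616))) (c (l 15787536) (l 15774960))))), by decide +kernel⟩

def k6_pm_012 : ∃ t, chk3 f_pm_012 t 33 6 1 = true :=
  ⟨(b (c (b (c (l 15664424) (l 15603976)) (b (a (c (l 15710264) (l 15655808)) (l 15736944)) (a (l 15721504) (l 15822208)))) (b (c (a (l 15526080) (l 15560800)) (l 15512080)) (c (b (a (l 15590568) (l 15650672)) (a (l 15632432) (l 15738520))) (b (a (l 15554248) (l 15627112)) (l 15530984))))) (c (b (c (a (l 15775216) (l 15881800)) (l 15769592)) (b (b (c (a (l 15799744) (l 15906184)) (l 15794400)) (c (l 15926016) (l 15870560))) (c (l 15857192) (l 16014616)))) (b (c (a (l 15657992) (l 15766336)) (a (l 15623496) (l 15745216))) (c (b (b (a (l 15683336) (l 15791456)) (l 15691936)) (a (l 15931488) (l 16035112))) (b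 (b (a (l 15586592) (l 15770856)) (l 15747912)) (a (l 15902720) (l 16019352))))))), by decide +kernel⟩

def k7_pm_012 : ∃ t, chk3 f_pm_012 t 17 6 1 = true :=
  ⟨(b (c (a (b (c (l 15707472) (l 15652296)) (c (l 15858840) (b (l 15742416) (l 15838176)))) (b (c (l 15737712) (l 15707920)) (c (l 15899544) (l 15873144)))) (b (a (c (l 15620320) (l 15602304)) (c (l 15579080) (l 15682192))) (a (c (b (l 15712304) (l 15852872)) (b (l 15695640) (l 15796776))) (c (l 15856576) (l 15852552))))) (c (b (a (c (l 16008592) (l 15749624)) (c (b (l 16029536) (l 16163024)) (l 15929800))) (a (b (b (c (l 16034320) (l 15985432)) (c (l 16106416) (l 16058952))) (a (l 16112712) (l 16115472))) (b (c (b (l 16138976) (l 16250688)) (b (l 16181712) (l 16252944))) (c (l 16254480) (l 16385720))))) (b (a (c (l 15933696) (a (l 15863856) (l 15977696))) (c (b (l 16081000) (l 16154504)) (b (l 15889856) (l 16047536)))) (a (b (c (b (l 15960264) (l 16035264)) (b (l 15905160) (l 16023408))) (c (l 16197616) (l 16062840))) (c (b (b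 (l 16173104) (l 16245848)) (l 16339928)) (b (b (l 16044656) (l 16160216)) (l 16151640))))))), by decide +kernel⟩

def k8_pm_012 : ∃ t, chk3 f_pm_012 t 32 14 2 = true :=
  ⟨(a (b (b (a (a (b (l 15834480) (b (l 15922592) (l 15965008))) (b (l 15880096) (l 15911088))) (c (l 15908000) (l 15957512))) (a (b (c (a (l 16023680) (l 16081144)) (l 16040472)) (c (b (a (b (l 16067032) (l 16063800)) (l 16122624)) (a (l 16044088) (l 16101400))) (b (l 16082840) (l 16061152)))) (b (c (l 16165648) (l 16155072)) (c (l 16155248) (l 16187152))))) (b (a (c (a (b (l 15983224) (a (l 15935712) (l 15964680))) (l 16013952)) (a (l 15900912) (l 16022696))) (c (l 16078656) (l 16025168))) (a (b (a (b (c (l 15908920) (l 15894272)) (c (a (b (l 15873584) (l 15846296)) (l 15875712)) (b (l 15873040) (l 15864656)))) (l 15946064)) (a (c (c (l 15905192) (l 15897928)) (l 15886800)) (b (b (l 15916680) (l 15921200)) (l 15938672)))) (b (c (l 16039160) (l 16026064)) (b (a (l 15944944) (l 16019184)) (a (l 15971104) (c (l 16014336)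 (l 16000416)))))))) (b (b (c (a (l 16015304) (l 16172640)) (l 15962240)) (c (b (a (a (l 16246288) (l 16293064)) (l 16348968)) (a (b (l 16317752) (l 16296888)) (l 16383416))) (b (a (l 16250552) (l 16323304)) (a (l 16290800) (l 16379704))))) (b (c (a (a (l 16205400) (l 16258704)) (l 16330168)) (a (l 16192464) (l 16303992))) (a (b (c (l 16150816) (l 16131200)) (a (c (l 16071552) (l 16011448)) (l 16068984))) (c (l 16223112) (l 16194840)))))), by decide +kernel⟩

def k9_pm_012 : ∃ t, chk3 f_pm_012 t 64 14 6 = true :=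
  ⟨(b (a (b (a (b (l 15810784) (l 15922272)) (l 15873872)) (b (a (l 15998824) (l 16058208)) (a (l 16030928) (l 16090152)))) (b (a (l 15939624) (l 15996472)) (b (l 16094320) (a (l 16145376) (l 16193168))))) (a (b (a (l 15950320) (l 16010000)) (a (b (b (l 15879424) (l 15854496)) (l 15871784)) (b (l 15924856) (b (l 15898152) (l 15917208))))) (b (c (l 16096976) (l 16083336)) (b (a (l 15980776) (l 16029288)) (a (b (b (l 15944728) (l 15936160)) (l 15946760)) (b (l 15986160) (c (l 15984344) (l 15967656)))))))), by decide +kernel⟩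

def k10_pm_012 : ∃ t, chk3 f_pm_012 t 64 28 7 = true :=
  ⟨(a (a (c (b (b (l 15798176) (l 15911208)) (b (l 15988792) (a (l 16006816) (l 16036960)))) (c (b (a (l 15773016) (l 15859992)) (a (b (l 15969128) (l 16001864)) (b (l 15997448) (l 16030104)))) (a (b (a (c (l 15827016) (c (l 15783088) (a (c (l 15821552) (b (l 15765096) (l 15876992))) (l 15784600)))) (c (l 15839224) (b (l 15778984) (l 15893584)))) (c (b (l 15965584) (a (l 15992056) (l 16006264))) (a (b (a (a (l 15951960) (l 15956960)) (l 15961552)) (a (a (a (l 15984088) (l 15986520)) (l 15989896)) (l 15994472))) (b (l 15970352) (l 16003240))))) (b (c (l 15852312) (l 15826760)) (b (l 15928384) (c (l 16022984) (l 16018824))))))) (c (b (l 15837576) (b (l 16044832) (l 16077176))) (b (c (l 15885456) (c (l 15875232) (l 15872696))) (c (b (l 16030776) (l 16063320)) (b (l 16022352) (c (l 16053688) (l 16051632))))))) (c (b (l 15948960) (b (l 16109616) (l 16142640))) (b (c (l 15929080) (l 15924008)) (c (b (l 16090832) (l 16124056)) (b (l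 16086600) (l 16120016)))))), by decide +kernel⟩

def k11_pm_012 : ∃ t, chk3 f_pm_012 t 64 29 7 = true :=
  ⟨(a (c (b (a (l 15939512) (l 15995832)) (a (b (a (l 15840936) (l 15869336)) (a (l 15851864) (l 15868912))) (b (l 15909456) (b (l 15840424) (l 15901664))))) (a (c (b (a (l 15919424) (l 15947904)) (a (b (l 15834776) (l 15845760)) (b (l 15861248) (l 15860808)))) (b (a (c (l 15915712) (a (a (a (l 15901952) (l 15864160)) (l 15889736)) (l 15920424))) (c (l 15940480) (l 15936144))) (a (c (b (a (l 15824432) (l 15837488)) (a (l 15838680) (l 15846256))) (a (b (c (l 15822392) (a (a (a (l 15815504) (l 15817400)) (l 15819952)) (l 15824024))) (c (a (l 15835128) (l 15838936)) (a (c (l 15834128) (a (a (a (l 15832104) (l 15832728)) (l 15833248)) (l 15834200))) (l 15837248)))) (b (l 15834080) (c (l 15842352) (l 15840096))))) (b (c (l 15853512) (l 15848984)) (c (l 15853056) (c (l 15847840) (l 15846664))))))) (b (c (l 15981368) (l 15972744)) (c (b (l 15894368) (b (l 15867080) (l 15886496))) (b (l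 15864392) (c (b (l 15856728) (l 15876208)) (b (l 15854312) (l 15873848)))))))) (c (b (l 16061816) (b (l 15975968) (b (l 15935144) (a (l 15921704) (l 15940712))))) (b (c (l 16042624) (l 16038272)) (c (b (l 15956152) (b (l 15915032) (a (l 15900048) (l 15919576)))) (b (l 15951472) (b (l 15868248) (a (l 15894168) (b (l 15913272) (l 15918008))))))))), by decide +kernel⟩

def k12_pm_012 : ∃ t, chk3 f_pm_012 t 65 14 3 = true :=
  ⟨(b (c (b (l 16004448) (b (l 16160352) (l 16211368))) (b (c (l 15987816) (l 15977704)) (c (b (l 16146160) (l 16197832)) (b (l 16095904) (c (l 16251144) (l 16249968)))))) (c (b (l 16112544) (a (b (l 16095736) (b (l 16052888) (l 15985016))) (l 16146168))) (c (b (l 16160728) (b (l 16096984) (a (b (l 16011872) (l 15985568)) (l 16078456)))) (b (l 16131320) (b (l 16045904) (a (c (l 15985400) (c (l 15983000) (l 15939720))) (l 16052264))))))), by decide +kernel⟩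

def k13_pm_012 : ∃ t, chk3 f_pm_012 t 33 14 1 = true :=
  ⟨(c (b (b (a (c (l 16201448) (l 16220568)) (l 16208720)) (b (c (l 16296760) (l 16335920)) (a (c (l 16387856) (a (l 16450640) (l 16503384))) (l 16504944)))) (a (b (c (l 16333176) (l 16334784)) (c (l 16270192) (l 16248712))) (b (c (l 16467968) (l 16458096)) (l 16330424)))) (b (c (b (a (l 16145064) (l 16244560)) (b (l 16231112) (a (l 16361744) (l 16528016)))) (b (a (l 16078992) (l 16254256)) (b (l 16193648) (c (l 16336232) (l 16292928))))) (c (b (a (l 16262752) (l 16358464)) (a (c (l 16269056) (l 16182504)) (l 16285752))) (a (b (l 16200576) (c (l 16213856) (b (l 16260504) (l 16140360)))) (b (l 16372576) (c (l 16361896) (l 16317696))))))), by decide +kernel⟩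

def k14_pm_012 : ∃ t, chk3 f_pm_012 t 64 60 1 = true :=
  ⟨(a (b (a (b (c (c (c (c (b (c (b (c (a (a (c (a (l 15910056) (l 15912112)) (l 15906624)) (l 15915568)) (l 15947752)) (l 15937056)) (a (a (l 6) (c (l 15939872) (l 15927344))) (c (l 15947408) (l 15959520)))) (l 15942048)) (a (l 6) (a (l 6) (b (c (l 15983408) (l 15974320)) (l 6))))) (l 15952112)) (l 15946952)) (l 15936480)) (c (l 15922344) (c (a (l 15903136) (l 15920016)) (c (a (l 15897360) (l 15912240)) (a (c (a (l 15890464) (l 15897952)) (a (c (a (l 15887008) (l 15890768)) (a (a (a (a (l 15884344) (l 15885144)) (l 15886200)) (l 15887240)) (l 15889128))) (c (l 15894136) (l 15891936)))) (c (l 15904664) (c (l 15899528) (l 15898424)))))))) (l 6)) (c (c (c (b (c (b (l 15977296) (c (a (b (l 15999456) (c (l 16031784) (l 15995008))) (l 16024808)) (l 16002960))) (l 15984256)) (a (l 6) (b (b (c (c (l 16060856) (l 16037112)) (l 16024712)) (l 6)) (l 6)))) (l 16004888)) (l 15995248)) (c (l 15981888) (c (l 15946224) (c (l 15952456) (c (l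 15942384) (l 15940192))))))) (l 6)) (c (b (c (c (b (b (l 16022376) (l 16030800)) (c (a (a (b (c (b (l 16070688) (l 16096424)) (l 16062832)) (l 6)) (b (l 16087544) (c (l 16148112) (l 16119888)))) (b (l 16109840) (c (l 16141496) (l 16141656)))) (l 16089752))) (l 16052808)) (l 16000968)) (a (l 6) (b (b (c (c (c (c (l 16196944) (l 16165744)) (l 16158040)) (l 16133992)) (l 16123352)) (l 6)) (l 6)))) (c (c (a (l 16028016) (l 16095736)) (a (l 16038240) (l 16080024))) (c (b (l 15993208) (l 16100488)) (c (l 15901424) (c (l 16021496) (l 15957936))))))), by decide +kernel⟩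

def k15_pm_012 : ∃ t, chk3 f_pm_012 t 65 60 1 = true :=
  ⟨(c (a (c (b (c (b (c (b (l 16092240) (l 16119552)) (l 16098072)) (c (l 16175984) (l 16151872))) (a (l 16100152) (l 16130200))) (b (c (c (a (c (b (l 16232864) (l 16288312)) (l 16173152)) (l 16231432)) (l 16223968)) (c (l 16199152) (l 16187840))) (a (l 6) (a (l 6) (b (b (c (l 16251840) (l 16251496)) (l 6)) (l 6)))))) (a (l 16031904) (l 16055656))) (b (c (c (b (b (l 16175624) (l 16162128)) (c (l 16231832) (l 16204624))) (l 16179000)) (b (l 16140984) (l 16165176))) (c (c (c (b (l 16306680) (a (c (b (l 16369720) (l 16425168)) (l 16371720)) (l 16398792))) (l 16312192)) (l 16211576)) (l 16238512)))) (c (b (a (a (l 16053360) (l 16050656)) (b (l 16091240) (l 16115848))) (l 16113600)) (c (b (a (a (l 16012136) (l 16027664)) (b (l 16051632) (l 16076544))) (l 16077072)) (b (a (c (l 16007752) (a (l 15994992) (b (l 15990624) (l 16038920)))) (c (b (l 16045040) (l 16070112)) (b (l 16042976) (l 16068208)))) (c (l 16129368) (l 16086152)))))),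 by decide +kernel⟩

def k16_pm_012 : ∃ t, chk3 f_pm_012 t 32 61 1 = true :=
  ⟨(b (b (b (a (l 6) (a (l 6) (c (c (c (c (a (l 6) (l 16429032)) (l 16414968)) (l 16360192)) (l 16304144)) (c (l 16256408) (c (l 16218936) (l 16215144)))))) (l 6)) (l 6)) (l 6)), by decide +kernel⟩

def k17_pm_012 : ∃ t, chk3 f_pm_012 t 32 31 1 = true :=
  ⟨(l 6), by decide +kernel⟩

def k18_pm_012 : ∃ t, chk3 f_pm_012 t 33 15 1 = true :=
  ⟨(a (b (c (b (b (c (c (b (l 16271512) (l 16223368)) (l 16292944)) (l 16214640)) (b (c (c (l 16304120) (a (l 16282496) (l 16339320))) (l 16209288)) (c (a (l 16334008) (l 16306968)) (l 16305432)))) (b (c (c (a (a (b (c (l 16401568) (l 16460248)) (l 6)) (b (l 16456000) (c (l 16494392) (l 16520000)))) (b (l 16522320) (c (l 16503472) (l 16584832)))) (l 16388224)) (c (a (l 16314848) (l 16398296)) (l 16367736))) (a (l 6) (a (l 6) (a (l 6) (b (b (c (l 16470584) (l 16481608)) (l 6)) (l 6))))))) (c (b (b (a (l 16163656) (l 16237280)) (a (l 16213400) (b (l 16238424) (l 16263032))))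 (c (l 16391064) (l 16284480))) (b (b (c (l 16177792) (c (l 16174392) (l 16109424))) (c (a (l 16185392) (l 16236176)) (a (c (l 16182000) (l 16180208)) (b (l 16217184) (l 16242352))))) (c (l 16337792) (c (l 16314600) (l 16271600)))))) (l 6)) (b (c (b (c (b (b (l 16390224) (l 16376520)) (c (l 16412976) (l 16366096))) (l 16373920)) (c (b (a (l 16379520) (l 16476392)) (c (b (a (a (l 16409256) (l 16477872)) (l 16533016)) (a (a (l 6) (b (l 16412280) (l 6))) (l 16301592))) (l 16513960))) (b (b (l 16328928) (l 16349784)) (l 16388624)))) (c (b (b (l 16355200) (l 16291472)) (b (a (l 16363968) (l 16407984)) (l 16459320))) (b (c (l 16325448) (a (l 16301408) (l 16384720))) (b (a (l 16332944) (l 16338520)) (l 16430584))))) (a (l 6) (a (l 6) (a (l 6) (b (b (b (b (b (c (l 16304952) (l 16535888)) (l 6)) (l 6)) (l 6)) (l 6)) (l 6))))))), by decide +kernel⟩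

def k19_pm_012 : ∃ t, chk3 f_pm_012 t 17 14 1 = true :=
  ⟨(c (b (a (a (b (l 16248824) (b (l 16444080) (l 16368920))) (b (l 16310696) (b (l 16309704) (l 16232416)))) (c (b (l 16249480) (b (l 16179224) (l 16120152))) (b (l 16381360) (l 16099960)))) (a (b (a (c (l 16462584) (l 16487040)) (l 16261136)) (b (a (l 16435832) (l 16279600)) (c (l 16394800) (l 16340792)))) (c (a (l 16168864) (l 16133000)) (b (l 16187808) (l 16157304))))) (b (a (b (c (l 16296360) (l 16186576)) (c (l 16285712) (a (l 16393816) (l 16238640)))) (c (b (l 16315680) (l 16009184)) (b (c (l 16250824) (l 16327688)) (b (l 16084536) (a (l 16233432) (l 16103824)))))) (b (a (c (a (l 16519888) (l 16377640)) (a (l 16414496) (l 16354000))) (c (l 16180144) (a (l 16218024) (l 16001080)))) (b (a (c (l 16330216) (a (l 16468528) (a (l 16391288) (l 16352920)))) (c (l 16185640) (c (l 16179840) (l 16108904)))) (a (c (l 16370896) (a (l 16391584) (a (l 16404592) (l 16305616)))) (c (l 16069120) (c (l 16042448) (a (l 16213056) (l 16106208))))))))),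 by decide +kernel⟩

def k20_pm_012 : ∃ t, chk3 f_pm_012 t 34 15 1 = true :=
  ⟨(b (b (c (c (b (c (l 16341328) (l 16502336)) (c (l 16346264) (l 16390296))) (a (l 16469448) (l 16455840))) (c (l 16390512) (c (l 16389760) (a (l 16446856) (l 16390104))))) (c (c (a (b (l 16422424) (a (l 16367408) (l 16349744))) (l 16216496)) (b (b (l 16345648) (a (l 16374264) (l 16387192))) (a (a (l 16393224) (a (l 16414192) (l 16401264))) (c (l 16346208) (l 16406656))))) (c (a (b (l 16469512) (l 16464432)) (l 16427608)) (a (b (c (l 16467648) (l 16423928)) (a (l 16454024) (c (l 16566184) (l 16501872)))) (c (l 16425688) (l 16340776)))))) (b (c (a (b (c (c (b (a (l 16203640) (l 16296296)) (c (a (b (l 16230224) (l 6)) (b (l 16214224) (c (l 16155896) (l 16184824)))) (a (l 16226624) (l 16237656)))) (l 16358696)) (l 16332128)) (a (l 6) (b (a (l 6) (c (c (c (l 16102032) (l 16156152)) (l 16211528)) (l 16326264))) (l 6)))) (c (b (b (l 16234792) (l 16049496)) (c (b (c (l 16029488) (l 16107944)) (c (a (b (l 16035176)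 (l 6)) (l 16000088)) (l 15986952))) (b (l 16159760) (l 16098920)))) (b (a (l 16323032) (l 16276760)) (c (b (l 16231864) (l 16135736)) (l 16255888))))) (c (a (c (l 16265256) (l 16316368)) (b (a (l 16386200) (l 16314272)) (l 16230088))) (b (a (l 16461496) (a (l 16398128) (c (l 16426856) (l 16383608)))) (c (l 16366296) (l 16260608))))) (a (l 6) (a (l 6) (b (b (b (c (a (l 6) (c (l 15934576) (l 16096832))) (c (l 16214816) (l 16263456))) (l 6)) (l 6)) (l 6)))))), by decide +kernel⟩

def k21_pm_012 : ∃ t, chk3 f_pm_012 t 35 15 1 = true :=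
  ⟨(b (c (b (c (b (a (l 16140064) (c (l 16105224) (l 16120496))) (c (l 16084344) (l 16007424))) (l 16009872)) (c (a (l 16120840) (l 15979256)) (b (l 16033816) (l 15962888)))) (c (b (a (l 16278960) (l 16097896)) (l 16016152)) (c (b (a (l 16274336) (l 16090952)) (l 16031328)) (b (a (l 16185360) (c (l 15958232) (l 16085104))) (a (l 16255648) (l 16068672)))))) (c (b (c (b (a (b (l 16089880) (l 15933592)) (l 15803488)) (a (b (c (l 15994136) (l 15906120)) (l 15901376)) (c (l 15826472) (l 15721360)))) (b (l 15974944) (b (l 15877056) (a (l 15975800) (l 15882208))))) (c (a (b (c (b (c (l 15810640) (l 15927248)) (c (a (a (l 6) (l 15886104)) (l 15873696)) (l 15864728))) (l 15948472)) (a (l 6) (a (l 6) (b (b (l 15841912) (l 6)) (l 6))))) (b (b (l 15826408) (c (l 15823032) (l 15830992))) (c (a (b (l 15877360) (a (l 6) (l 15893496))) (l 15852616)) (l 15880384)))) (b (b (a (l 16016840) (c (l 15872992) (l 15908688))) (l 15911880)) (l 15884568)))) (b (c (b (c (l 16004064) (l 16162648)) (a (c (l 16192384)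 (l 16131264)) (l 15935408))) (c (a (b (l 16284568) (l 16248688)) (l 16075816)) (a (b (l 16239336) (a (l 16286384) (l 16212968))) (a (l 16122240) (l 16017032))))) (c (b (b (a (l 16112544) (l 15985664)) (c (l 15852120) (l 15919352))) (b (c (l 15915400) (l 15854680)) (l 15933016))) (b (c (a (l 16143504) (l 15852104)) (a (l 16156400) (a (l 16070816) (l 15997640)))) (c (b (l 15853880) (l 15768144)) (b (c (l 15970912) (l 16016312)) (a (l 6) (c (l 15893240) (a (l 15846136) (l 15832256))))))))))), by decide +kernel⟩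

def k22_pm_012 : ∃ t, chk3 f_pm_012 t 9 2 1 = true :=
  ⟨(b (b (a (a (a (c (c (l 15747168) (l 15725920)) (l 15681760)) (l 2)) (l 2)) (l 2)) (a (c (c (a (l 15823440) (l 15926408)) (a (c (l 15785440) (l 15791024)) (c (l 15979232) (l 15923264)))) (a (c (a (l 15769616) (l 15857336)) (l 15772680)) (l 15966664))) (c (a (c (a (c (l 16090224) (l 16056776)) (l 15864288)) (c (a (l 15903784) (l 16016328)) (l 16034384))) (c (c (l 15828872) (l 15832472)) (l 15802456))) (a (l 15808480) (l 15776904))))) (b (a (c (c (a (l 15849064) (l 16051048)) (a (l 15784032) (c (l 16016272) (l 15944680)))) (c (a (c (l 15822832) (l 15747128)) (c (b (l 16008976) (l 16055704)) (l 16022248))) (l 15828232))) (c (a (c (a (l 16132848) (l 16079976)) (a (c (l 16001208) (a (l 16147072) (l 16172408))) (c (l 16097088) (l 16091608)))) (c (c (l 15900304) (l 15913528)) (c (l 15918760) (l 15894240)))) (a (a (l 16132576) (l 16066752)) (l 15874992)))) (a (c (c (a (l 15873176) (l 16098120)) (a (l 15857352) (c (l 16089232) (l 16054216))))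 (c (a (c (l 15841392) (b (l 15865304) (l 15829864))) (a (c (l 16028200) (l 15969800)) (c (l 16139512) (l 16121648)))) (l 15781080))) (c (a (c (a (l 16227952) (l 16174432)) (a (c (l 16214992) (a (l 16197504) (l 16172320))) (c (l 16156928) (l 16173592)))) (c (c (l 16004440) (l 15981608)) (c (l 15974376) (l 15937464)))) (a (a (c (c (c (l 16095704) (l 16209872)) (l 16206192)) (l 16198768)) (l 16147840)) (l 15966840)))))), by decide +kernel⟩

def k23_pm_012 : ∃ t, chk3 f_pm_012 t 18 6 1 = true :=
  ⟨(b (c (a (b (c (l 15891064) (l 15875560)) (c (l 16051960) (l 16039960))) (b (c (l 16132688) (l 16121424)) (c (l 16233952) (a (l 16231728) (l 16344496))))) (a (b (c (c (l 15862744) (l 15688360)) (l 15745736)) (c (c (l 16030856) (l 15834872)) (a (l 15964512) (l 16084856)))) (c (b (c (l 16110504) (c (l 16110288) (l 16105672))) (c (a (l 16222600) (l 16334072)) (a (l 16143776) (l 16244024)))) (b (l 16098408) (l 16273544))))) (c (b (a (c (a (l 16173304) (l 16424904)) (a (l 16166440) (l 16420792)))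 (c (l 16427520) (l 16384728))) (a (b (b (c (l 16345256) (l 16321816)) (a (l 16415928) (l 16396416))) (c (l 16186680) (l 16182296))) (b (c (b (l 16331344) (l 16173864)) (b (l 16305040) (l 16145024))) (c (l 15920576) (l 15866984))))) (b (a (c (c (l 16149328) (a (l 16176968) (l 16370632))) (c (a (c (l 16261472) (l 16258176)) (l 16231472)) (l 16224616))) (c (c (l 16470120) (c (l 16449168) (l 16382424))) (l 16529752))) (b (b (a (c (a (l 16381968) (l 16462704)) (c (a (l 16371912) (l 16442360)) (l 16483904))) (c (c (l 16363896) (a (l 16409488) (l 16291496))) (l 16356992))) (a (a (c (l 16453432) (l 16361184)) (c (l 16456424) (l 16329336))) (c (c (l 16222920) (a (l 16283184) (l 16148672))) (a (a (l 16252336) (l 16233440)) (l 16142128))))) (a (c (c (l 16283808) (l 16260568)) (c (c (l 16198384) (l 16097512)) (l 16339840))) (c (c (l 16004936) (a (l 16088192) (l 15893400))) (a (c (l 15888864) (l 16075040)) (l 15902976)))))))), by decide +kernel⟩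

def k24_pm_012 : ∃ t, chk3 f_pm_012 t 19 6 1 = true :=
  ⟨(b (b (a (c (c (a (l 16277432) (l 16230736)) (a (c (l 16270904) (l 16259496)) (l 16146576))) (c (c (a (a (l 16250240) (l 16250008)) (l 16226864)) (l 16233352)) (l 16226288))) (c (c (l 16065080) (c (l 16046416) (l 16062512))) (l 16033672))) (a (c (a (c (l 16445784) (l 16314960)) (c (l 16399864) (l 16382976))) (c (c (a (a (l 16415600) (l 16354976)) (l 16400520)) (l 16410528)) (l 16406344))) (c (c (l 16233560) (c (l 16220208) (l 16098672))) (c (c (c (l 16227440) (l 16217096)) (l 16213744)) (l 16206984))))) (b (a (c (a (c (l 16346744) (a (l 16503992) (l 16392480))) (c (l 16514536) (l 16511728))) (c (a (c (a (l 16505296) (l 16288000)) (c (a (l 16497032) (l 16405320)) (l 16485232))) (c (l 16467128) (l 16508144))) (l 16389680))) (c (c (l 16530960) (c (l 16529664) (l 16436984))) (c (c (l 16291816) (l 16526992)) (l 16525616)))) (b (c (a (a (c (b (l 16256384) (l 16089152)) (b (l 16227432) (l 16078128))) (c (l 16089848) (l 16059944)))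 (c (b (l 16373264) (l 16208600)) (b (l 16332496) (l 16204552)))) (c (c (a (a (b (l 16244208) (l 16069752)) (l 16036032)) (b (l 16359096) (l 16169664))) (a (c (a (b (l 16195416) (l 16065000)) (l 16150408)) (l 16036008)) (l 16276848))) (a (b (l 16243536) (l 16067048)) (l 16271824)))) (c (a (a (c (l 15581296) (a (l 15819552) (l 15765352))) (c (l 15807360) (l 15791440))) (c (l 15905080) (l 15891464))) (c (a (a (c (l 15741976) (a (l 15797408) (c (l 15746960) (l 15742200)))) (c (l 15783560) (l 15678184))) (c (l 15796144) (c (l 15873512) (l 15872416)))) (a (l 15599096) (l 15863600))))))), by decide +kernel⟩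

def k25_pm_012 : ∃ t, chk3 f_pm_012 t 18 14 1 = true :=
  ⟨(c (b (a (b (c (l 16010096) (l 15980336)) (c (b (l 15949952) (l 15862736)) (b (l 15937824) (l 15849064)))) (c (b (l 15764600) (b (l 15563896) (l 15466872))) (b (l 15706472) (b (l 15544256) (l 15445584))))) (a (c (l 15788200) (a (l 15949848) (l 15726376))) (c (l 15430696) (a (l 15512096) (l 15307368))))) (b (a (c (b (a (l 16178488) (l 16017896)) (c (l 15820984) (l 15751448))) (c (b (a (c (l 16216776) (l 16191440)) (l 15870296)) (c (l 15727016) (a (l 15977096) (l 15758552)))) (b (l 16106736) (l 15863848)))) (c (c (b (l 15736120) (l 15479688)) (c (l 15350592) (a (l 15611224) (l 15316560)))) (c (b (c (l 15636272) (l 15717376)) (c (a (l 15559672) (l 15360224)) (l 15455992))) (l 15371200)))) (a (c (c (l 15784736) (a (l 15934840) (l 15706112))) (c (c (l 15584400) (a (l 15885800) (b (l 15699872) (l 15688496)))) (a (b (l 15914864) (l 15786384)) (l 15689600)))) (c (c (l 15392272) (a (l 15486784) (l 15279000))) (c (c (a (l 15481056) (l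 15266928)) (b (c (l 15382008) (l 15379600)) (c (l 15352760) (l 15353480)))) (l 15358536)))))), by decide +kernel⟩

def k26_pm_012 : ∃ t, chk3 f_pm_012 t 18 15 2 = true :=
  ⟨(b (a (b (c (b (l 15615232) (a (l 15842048) (l 15596944))) (l 15521344)) (c (a (l 15735136) (l 15449440)) (a (l 15558960) (b (l 15552232) (l 15491048))))) (c (b (b (l 15253328) (l 15258464)) (a (l 15190888) (l 14958992))) (b (l 15309728) (a (b (l 15306512) (l 15213440)) (l 14978416))))) (a (b (c (b (a (l 15635664) (l 15327992)) (b (a (l 15596376) (l 15284032)) (l 15427120))) (b (l 15499216) (a (l 15571096) (l 15314544)))) (b (c (a (l 15541456) (l 15285656)) (b (c (l 15461888) (l 15389184)) (l 15223112))) (a (a (l 15662936) (l 15633464)) (c (l 15413064) (l 15394816))))) (b (c (b (a (l 15030768) (l 14762112)) (c (l 14812152) (b (l 14848512) (l 14825832)))) (a (c (l 14958040) (l 15109120)) (b (l 14851432) (l 14685392)))) (c (b (a (l 14975208) (l 14674920)) (l 14943264)) (b (c (l 14834352) (b (l 14862656) (l 14847384)))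 (l 14706968)))))), by decide +kernel⟩

def k27_pm_012 : ∃ t, chk3 f_pm_012 t 18 15 3 = true :=
  ⟨(b (b (c (a (a (l 15818848) (l 15633048)) (c (l 15292008) (l 15280072))) (c (a (c (l 15643400) (a (l 15871104) (l 15618576))) (c (l 15273840) (a (l 15378056) (l 15146440)))) (a (a (a (l 15776112) (l 15788096)) (l 15367416)) (l 15255960)))) (c (a (a (l 15827248) (l 15510160)) (c (l 15149800) (l 15115768))) (a (a (c (l 15816800) (c (l 15742944) (l 15807992))) (a (c (l 15586824) (l 15503232)) (c (l 15444632) (l 15293128)))) (c (c (l 15127720) (a (l 15242600) (l 14994344))) (a (a (l 15238200) (l 15166992)) (l 14986944)))))) (c (b (a (c (a (l 15778616) (l 15458096)) (b (l 15654664) (l 15463008))) (c (b (l 15004552) (l 14965280)) (a (l 15166720) (l 14877208)))) (a (b (c (b (l 15538688) (l 15283680)) (a (l 15741760) (l 15410288))) (a (b (c (l 15670672) (l 15587024)) (l 15703296)) (b (c (l 15354880) (l 15373360)) (l 15416000)))) (b (c (b (l 14901712) (l 14872104)) (l 14908928)) (c (l 14904256)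 (b (l 14843640) (l 14920464)))))) (c (a (b (a (l 15806432) (l 15480232)) (b (a (l 15718696) (l 15447248)) (b (a (l 15542312) (l 15409784)) (a (l 15682504) (l 15412496))))) (b (c (l 15024256) (a (l 15163448) (l 14868768))) (c (b (l 14960840) (b (l 14906168) (l 14914440))) (b (l 14762544) (b (l 14929504) (l 14917528)))))) (a (b (c (a (l 15797920) (l 15464096)) (l 15631696)) (b (a (a (l 15873464) (l 15701616)) (l 15444832)) (b (a (a (l 15797112) (l 15689344)) (l 15285256)) (a (b (c (l 15724528) (l 15734824)) (c (l 15704328) (l 15644456))) (c (c (l 15416960) (l 15422592)) (l 15431416)))))) (b (c (c (a (l 15154144) (l 14860352)) (l 15008520)) (l 15003240)) (b (a (l 15110096) (l 14786096)) (c (b (c (l 14943176) (l 14943280)) (c (l 14773216) (a (l 15076048) (l 14762768)))) (l 14938552)))))))), by decide +kernel⟩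

def k28_pm_012 : ∃ t, chk3 f_pm_012 t 19 14 1 = true :=
  ⟨(c (b (a (a (c (b (l 15513464) (a (l 15290160) (l 15210864))) (b (l 15387512) (a (l 15265352) (l 15100656)))) (c (b (l 15461080) (l 15192136)) (b (l 15439104) (l 15165584)))) (c (b (l 15507816) (l 15187880)) (b (l 15424168) (l 14972840)))) (a (a (c (a (l 15186616) (l 15100552)) (a (l 15160136) (l 15072448))) (c (l 15079912) (l 15051552))) (c (l 15072640) (l 15044480)))) (c (b (a (a (c (b (l 15476344) (l 15163384)) (c (b (l 15471104) (l 15195528)) (a (l 15366448) (a (l 15298816) (l 15205072))))) (c (l 15265680) (c (l 15172440) (l 15095912)))) (c (b (c (l 15478752) (l 15468920)) (c (l 15144960) (l 15142232))) (c (b (l 15457888) (l 15126864)) (l 15176088)))) (a (a (a (c (l 15140048) (l 15130648)) (c (l 15051128) (a (l 15057968) (l 14961872)))) (c (l 15030040) (c (l 15022048) (l 15010600)))) (c (l 15029216) (c (l 15013376) (l 14997904))))) (a (b (a (l 15144400) (l 15254360)) (c (c (a (a (l 15111824) (a (l 15037048) (l 15003328)))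 (l 14997800)) (l 15030552)) (a (l 15053336) (l 14986280)))) (b (b (l 15444664) (l 15107768)) (l 14986952))))), by decide +kernel⟩

def k29_pm_012 : ∃ t, chk3 f_pm_012 t 19 15 2 = true :=
  ⟨(b (a (a (c (b (c (l 14823872) (l 14959464)) (l 14662272)) (b (l 14994248) (c (l 14801624) (l 14815864)))) (c (b (l 14924776) (l 14672936)) (b (l 14923840) (l 14729168)))) (c (b (l 14810816) (l 14662520)) (b (l 14914904) (l 14697912)))) (a (b (a (c (b (a (l 14584456) (l 14482816)) (c (a (l 14462984) (l 14350008)) (b (l 14449752) (l 14405808)))) (c (a (l 14585192) (l 14307464)) (l 14573184))) (c (b (l 14457120) (l 14335192)) (l 14469072))) (a (c (b (a (l 14456560) (a (l 14349672) (l 14276648))) (l 14499304)) (b (c (l 14394712) (b (l 14421712) (l 14400720))) (a (l 14534432) (l 14395464)))) (c (b (l 14254616) (l 14363216)) (b (c (l 14278592) (l 14298992)) (l 14326264))))) (b (c (b (l 14445536) (l 14301872)) (c (l 14436264) (l 14477040))) (c (b (l 14233432) (l 14312408)) (b (c (l 14257352) (l 14277720))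 (l 14274824)))))), by decide +kernel⟩

def k30_pm_012 : ∃ t, chk3 f_pm_012 t 19 15 3 = true :=
  ⟨(b (a (a (c (c (a (l 14941240) (l 14842624)) (a (l 14926176) (l 14637912))) (c (c (a (l 14916904) (a (l 14833936) (l 14795480))) (b (l 14938520) (c (a (l 14824760) (l 14721384)) (l 14771432)))) (l 14844936))) (c (c (l 14818520) (l 14807704)) (c (c (l 14785640) (l 14782104)) (l 14769824)))) (c (c (l 14809192) (c (l 14804072) (l 14788552))) (c (c (b (l 14860744) (l 14688032)) (l 14772952)) (l 14760736)))) (b (a (a (c (c (a (l 14661656) (l 14549704)) (a (l 14675952) (l 14521048))) (c (c (a (l 14673720) (l 14562000)) (a (l 14662008) (c (l 14551776) (l 14548648)))) (l 14596400))) (c (c (l 14522176) (l 14535280)) (c (c (l 14534584) (c (l 14521160) (l 14520696))) (l 14509184)))) (c (c (l 14510480) (c (l 14526096) (l 14530840))) (c (c (l 14514008) (l 14511416)) (l 14497656)))) (a (b (c (a (c (a (l 14509568) (l 14372712)) (a (l 14547360) (l 14409272))) (c (l 14323008) (l 14359184))) (c (a (c (l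 14506208) (a (l 14583304) (a (l 14469016) (l 14412856)))) (c (l 14388952) (l 14386512))) (l 14447024))) (c (a (c (l 14446216) (a (l 14516104) (a (l 14402288) (l 14345776)))) (c (l 14305976) (l 14303368))) (a (c (c (a (l 14519784) (l 14250896)) (a (l 14530696) (a (l 14414520) (b (l 14362296) (l 14346000))))) (b (l 14475352) (l 14455744))) (c (c (l 14305664) (b (l 14316064) (l 14298328))) (l 14322112))))) (c (b (c (l 14301704) (l 14340952)) (c (l 14254056) (l 14251120))) (c (c (b (l 14362672) (b (l 14258912) (l 14239192))) (c (b (l 14370216) (l 14252720)) (l 14314976))) (b (l 14362224) (l 14269208))))))), by decide +kernel⟩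

def k31_pm_012 : ∃ t, chk3 f_pm_012 t 5 2 1 = true :=
  ⟨(b (b (l 2) (a (a (a (c (c (c (l 15579000) (l 15553424)) (l 15537448)) (l 15504944)) (l 2)) (l 2)) (l 2))) (b (a (a (c (a (c (c (l 15682024) (l 15679960)) (l 15648512)) (a (c (c (l 15576896) (l 15555440)) (l 15539488)) (l 15596544))) (a (l 15618928) (a (l 15507048) (l 15555104)))) (c (a (l 15757744) (l 16002008)) (a (l 15721968) (l 15974800)))) (a (a (c (l 16277216) (l 16259664)) (l 2)) (l 2))) (a (a (c (a (c (c (l 15759512) (l 15751080)) (c (l 15754368) (l 15747912))) (c (a (c (l 15669336) (l 15671416)) (c (a (l 15689512) (l 15735776)) (l 15693016))) (l 15574616))) (a (l 15725472) (a (l 15613272) (l 15650072)))) (c (a (c (c (l 15861128) (l 15843016)) (l 15830824)) (l 16065672)) (a (l 15806016) (l 16040696)))) (a (c (a (l 16319288) (l 16600816)) (a (l 16303216) (l 16594624))) (c (l 16776696) (l 16776672)))))), by decide +kernel⟩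

def k32_pm_012 : ∃ t, chk3 f_pm_012 t 10 3 4 = true :=
  ⟨(b (a (b (a (b (c (l 15847960) (l 15827976)) (l 16001616)) (a (b (l 15625600) (l 15842576)) (b (c (l 15763096) (l 15747424)) (c (l 15914960) (l 15726576))))) (b (a (l 16302280) (a (l 16172760) (c (l 16166224) (a (l 16160344) (l 16195208))))) (a (b (l 16165680) (l 16037720)) (a (b (l 16429264) (l 16107088)) (b (b (l 16367768) (l 16389912)) (a (l 16088560) (l 16082992))))))) (b (a (b (c (l 15921384) (l 15901408)) (c (l 16053376) (l 16061608))) (b (l 16117320) (a (l 16183984) (l 16297656)))) (b (a (c (l 16301064) (l 16307432)) (c (l 16482744) (l 16490768))) (a (b (c (l 16384872) (l 16217592)) (c (l 16010424) (l 16009288))) (b (b (l 16296560) (l 16156616)) (l 15691136)))))) (a (b (b (a (b (l 15624280) (b (l 15306792) (l 15153256))) (a (l 15288184) (b (l 15689560) (l 15117848)))) (a (l 15067888) (a (l 15053536) (a (l 14897192) (l 14975040))))) (b (a (b (l 14907744) (l 14653016)) (a (b (l 14879328) (l 14624584)) (b (a (l 14833744)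 (l 14765040)) (l 14544120)))) (a (b (b (l 14434712) (l 14311064)) (l 14270896)) (b (a (b (l 14406344) (l 14282680)) (b (l 14325504) (l 13970952))) (a (l 14242408) (a (l 14198232) (l 14123728))))))) (b (b (a (b (l 15603040) (l 15191552)) (c (l 15145472) (b (l 15460120) (l 15050496)))) (a (l 14851384) (l 14722112))) (b (b (a (l 14480432) (b (l 14425496) (l 14260048))) (a (l 14321648) (l 14020696))) (b (a (b (l 14098248) (l 13971272)) (b (l 13789176) (l 13658048))) (a (l 13926192) (l 13606832))))))), by decide +kernel⟩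

def k33_pm_012 : ∃ t, chk3 f_pm_012 t 10 6 5 = true :=
  ⟨(a (b (a (c (b (l 15843200) (l 16000816)) (b (l 15823544) (l 15949856))) (b (l 15729632) (c (a (l 15898224) (l 15700880)) (l 15887336)))) (a (b (c (l 16287672) (l 16159168)) (c (b (l 16394216) (l 16030064)) (b (b (l 16494312) (l 16331264)) (l 15923592)))) (a (b (c (l 16173472) (l 16175608)) (c (b (l 16421272) (l 16104352)) (b (l 16352952) (l 16049640)))) (b (c (a (l 16169424) (l 16205152)) (l 16175312)) (c (b (a (l 16220240) (l 16443304)) (a (l 16106944) (l 16078160))) (b (l 16424120) (b (l 16121584) (l 15852784)))))))) (b (b (l 15993984) (l 16027824)) (b (c (a (l 16315400) (l 16473608)) (l 16379968)) (c (a (b (l 16187560) (l 15953696)) (b (l 16256208) (l 15869728))) (b (l 16255344) (l 15930616)))))), by decide +kernel⟩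

def k34_pm_012 : ∃ t, chk3 f_pm_012 t 10 7 5 = true :=
  ⟨(a (b (a (b (b (c (l 15610912) (l 15608040)) (c (l 15217432) (l 15168120))) (c (l 15047112) (l 15033136))) (b (a (c (l 15483224) (b (l 15677488) (l 15266824))) (c (b (l 15660680) (l 15268136)) (a (a (l 15229368) (l 15407432)) (l 15319400)))) (a (c (l 15032800) (l 15024768)) (c (a (l 15001928) (l 14953248)) (a (b (l 15039528) (l 14935248)) (l 14940680)))))) (b (a (b (l 14907288) (l 14709664)) (a (b (l 14878664) (l 14681016)) (b (a (l 14832304) (l 14766328)) (a (l 14635016) (l 14562984))))) (a (b (c (l 14425152) (l 14466048)) (b (c (l 14244736) (l 14265208)) (l 14255760))) (a (b (l 14417568) (c (l 14228888) (l 14230936))) (b (c (l 14314520) (l 14354600)) (c (l 14146552) (b (l 14153576) (l 14134352)))))))) (b (b (a (c (b (l 15583128) (l 15174568)) (a (l 15186224) (l 15336176))) (c (b (l 15446552) (l 15029800)) (l 15231992))) (a (c (l 14665544) (a (l 14868528) (l 14779328))) (c (l 14688840) (l 14668224)))) (b (a (c (b (l 14587984)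 (l 14372072)) (b (l 14571384) (l 14387424))) (b (c (l 14345480) (l 14317096)) (c (l 14070272) (l 14071080)))) (b (c (a (l 14082488) (l 13766744)) (a (l 14124576) (l 13801504))) (c (a (l 13908312) (l 13584320)) (a (l 13907432) (b (l 13592056) (l 13566608)))))))), by decide +kernel⟩

def k35_pm_012 : ∃ t, chk3 f_pm_012 t 10 6 3 = true :=
  ⟨(a (b (a (b (l 15802760) (l 15979728)) (b (a (l 15689832) (l 15718464)) (a (l 15860928) (l 15880528)))) (a (b (l 16245416) (c (c (b (b (l 16495064) (l 16320520)) (a (l 15976896) (l 16053624))) (b (l 16410784) (l 16014456))) (b (l 16408512) (l 16006496)))) (b (a (l 16157808) (l 16144200)) (a (b (l 16361264) (l 16086128)) (b (l 16274824) (l 16033272)))))) (b (b (l 15805680) (a (l 16017984) (l 16223448))) (b (a (l 16286864) (l 16469608)) (b (a (l 16229424) (l 16182096)) (a (l 15981560) (l 15845912)))))), by decide +kernel⟩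

def k36_pm_012 : ∃ t, chk3 f_pm_012 t 20 7 3 = true :=
  ⟨(b (a (b (c (c (b (l 15415376) (c (l 15196464) (l 15183048))) (l 15219952)) (b (l 15569832) (l 15160312))) (c (c (c (l 15029112) (l 15013840)) (c (l 15000688) (l 15001320))) (l 14983400))) (b (a (b (l 15658256) (c (c (l 15244768) (l 15239816)) (l 15221704))) (c (l 15366224) (l 15408864))) (a (c (c (c (l 15006736) (l 14996184)) (l 14990664)) (l 14969232)) (c (c (c (a (a (l 14981096) (l 14960560)) (l 14924064)) (l 14949424)) (l 14938472)) (l 14916368))))) (a (b (c (c (c (l 14805008) (l 14804032)) (c (l 14787064) (l 14688808))) (l 14761112)) (c (c (b (l 14499616) (b (l 14289296) (l 14235056))) (b (c (l 14520864) (l 14510648)) (b (c (l 14318696) (l 14334848)) (c (l 14228544) (l 14232072))))) (b (l 14496272) (c (c (b (l 14346848) (c (l 14226328) (l 14234176))) (l 14297040)) (l 14301488))))) (b (c (a (c (l 14585568) (c (l 14754064) (l 14752088))) (c (a (a (l 14738832) (l 14707312)) (l 14648152)) (l 14672688))) (a (l 14731880) (l 14647368)))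 (b (c (c (a (l 14475664) (a (l 14261392) (l 14352392))) (c (a (l 14482944) (a (l 14435944) (l 14364528))) (l 14445544))) (l 14278664)) (c (a (c (b (l 14260528) (l 14206272)) (b (l 14247824) (c (l 14202824) (l 14195376)))) (c (b (a (l 14216728) (l 14142408)) (l 14124640)) (c (a (b (l 14237040) (l 14153696)) (l 14119736)) (l 14172056)))) (a (c (l 14223776) (l 14272296)) (b (l 14234472) (c (l 14126864) (l 14135296))))))))), by decide +kernel⟩

def k37_pm_012 : ∃ t, chk3 f_pm_012 t 21 7 3 = true :=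
  ⟨(b (b (c (b (l 15494632) (l 15071472)) (b (l 15474688) (l 15043968))) (a (c (l 14809576) (l 14777520)) (l 14629600))) (b (a (c (c (a (l 14530920) (l 14379976)) (l 14445088)) (l 14416488)) (b (l 14270784) (l 14028088))) (c (b (c (a (l 13894512) (l 13823264)) (l 13999880)) (b (c (a (l 13934768) (l 13601456)) (l 13804344)) (c (a (l 13879696) (l 13540136)) (c (a (l 13861664) (l 13534736)) (l 13702168))))) (b (l 13976296) (b (l 13820784) (c (l 13709896) (l 13714456))))))), by decide +kernel⟩

def k38_pm_012 : ∃ t, chk3 f_pm_012 t 11 6 1 = true :=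
  ⟨(a (b (c (a (b (l 16349608) (l 16461104)) (b (l 16612792) (l 16663960))) (a (b (l 16334600) (l 16451872)) (b (l 16607024) (l 16662064)))) (b (c (a (c (l 16271272) (l 16438328)) (l 16305520)) (a (l 16432576) (l 16290304))) (c (a (c (b (a (l 16032712) (l 16093608)) (l 15696008)) (b (l 16118672) (l 15725288))) (b (l 15916464) (l 15583864))) (b (a (l 16040968) (l 15952552)) (l 15497184))))) (b (b (c (l 16776824) (l 16776816)) (c (l 16590984) (l 16584456))) (b (c (l 16223240) (l 16203800)) (c (b (a (l 15891656) (l 15891152)) (l 15492464)) (b (l 15860320) (l 15447376)))))), by decide +kernel⟩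

def k39_pm_012 : ∃ t, chk3 f_pm_012 t 11 7 1 = true :=
  ⟨(a (b (b (c (c (a (c (l 14871128) (b (l 15310072) (l 14895424))) (c (l 14817720) (l 14954936))) (a (l 15090400) (l 14931528))) (a (b (l 15262528) (l 14829584)) (l 14820984))) (c (a (c (l 14377304) (c (l 14533008) (l 14517488))) (c (l 14399608) (l 14359840))) (a (l 14469544) (l 14297024)))) (b (c (a (c (b (l 13979752) (l 13768456)) (b (c (l 14158624) (l 14139096)) (c (l 13806720) (l 13810736)))) (c (b (l 13996344) (l 13572664)) (c (l 13617024) (l 13781352)))) (a (b (l 14082720) (l 13759880)) (l 13731840))) (c (b (c (a (b (l 13477656) (l 13340008)) (b (l 13228368) (c (l 13034152) (l 13045336)))) (a (c (l 13448976) (l 13475776)) (c (l 13172664) (l 13202664)))) (c (a (l 13282720) (l 12955472)) (a (c (l 13257776) (b (l 13256480) (l 13226912))) (c (l 12921176) (l 12911088))))) (c (b (a (l 13500288) (l 13219264)) (b (a (l 13289240) (l 12949760)) (l 13034816))) (b (l 13301600) (b (l 13138120) (c (l 13020800) (l 13018624)))))))) (b (b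 (c (a (b (l 15062264) (l 14636784)) (l 14850792)) (a (l 14783744) (l 14783168))) (c (a (a (l 14258864) (l 14278840)) (l 14278840)) (l 14191272))) (b (c (a (c (b (c (l 13895968) (l 13895616)) (l 13257360)) (l 13672832)) (b (l 13877408) (l 13477664))) (l 13621824)) (c (b (a (a (c (b (l 13117944) (l 12905232)) (l 13058176)) (l 13038704)) (l 13038704)) (a (a (b (c (l 12751368) (l 12738016)) (a (l 12733824) (l 12698952))) (b (l 12743424) (l 12676952))) (l 12718256))) (b (l 13063296) (c (b (l 12755520) (l 12605600)) (b (l 12765152) (a (l 12597536) (l 12565248))))))))), by decide +kernel⟩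

def k40_pm_012 : ∃ t, chk3 f_pm_012 t 3 1 1 = true :=
  ⟨(b (b (l 2) (a (a (c (l 16777216) (l 16777216)) (l 2)) (l 2))) (b (a (a (b (c (b (l 16776952) (l 16590776)) (b (l 16776944) (l 16584232))) (b (c (l 16223008) (l 16203552)) (c (b (l 15891152) (l 15492200)) (l 15403816)))) (b (b (l 2) (a (l 16587504) (l 2))) (b (a (l 16213288) (l 16213288)) (a (c (l 15693512) (l 15655472)) (l 15674520))))) (b (l 2) (b (l 2) (a (l 15653544) (l 2))))) (a (b (a (b (c (a (l 14850792) (l 14850792)) (l 14783168)) (c (l 14278840) (l 14190960))) (b (a (l 14691200) (l 14817032)) (a (l 14234872) (l 14234872)))) (b (c (a (c (l 13655296) (l 13672216)) (a (l 13669032) (l 13669032))) (a (l 13621504) (l 13621504))) (c (a (b (c (l 13014048) (l 13056936)) (c (l 12728040) (l 12691264))) (b (l 13038704) (l 12718256))) (a (b (l 13062960) (c (l 12677608) (l 12434256))) (b (l 13062960) (c (l 12677608) (l 12664944))))))) (a (b (b (l 14817032) (l 14234872)) (b (c (l 13669032) (l 13621504)) (c (b (l 13038704) (l 12718256))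 (b (l 13062960) (c (l 12677608) (l 12664944)))))) (b (b (l 2) (l 14234872)) (b (c (l 13669032) (l 13621504)) (b (l 12932424) (a (l 12581608) (l 12707432))))))))), by decide +kernel⟩

theorem s41_pm_012 : ∃ t, chk3 f_pm_012 t 11 3 1 = true := ex3_b k38_pm_012 k39_pm_012

theorem s42_pm_012 : ∃ t, chk3 f_pm_012 t 10 7 3 = true := ex3_a k36_pm_012 k37_pm_012

theorem s43_pm_012 : ∃ t, chk3 f_pm_012 t 10 3 3 = true := ex3_b k35_pm_012 s42_pm_012

theorem s44_pm_012 : ∃ t, chk3 f_pm_012 t 10 3 5 = true := ex3_b k33_pm_012 k34_pm_012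

theorem s45_pm_012 : ∃ t, chk3 f_pm_012 t 10 3 2 = true := ex3_c k32_pm_012 s44_pm_012

theorem s46_pm_012 : ∃ t, chk3 f_pm_012 t 10 3 1 = true := ex3_c s45_pm_012 s43_pm_012

theorem s47_pm_012 : ∃ t, chk3 f_pm_012 t 5 3 1 = true := ex3_a s46_pm_012 s41_pm_012

theorem s48_pm_012 : ∃ t, chk3 f_pm_012 t 5 1 1 = true := ex3_b k31_pm_012 s47_pm_012

theorem s49_pm_012 : ∃ t, chk3 f_pm_012 t 19 15 1 = true := ex3_c k29_pm_012 k30_pm_012

theorem s50_pm_012 : ∃ t, chk3 f_pm_012 t 19 7 1 = true := ex3_b k28_pm_012 s49_pm_012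

theorem s51_pm_012 : ∃ t, chk3 f_pm_012 t 18 15 1 = true := ex3_c k26_pm_012 k27_pm_012

theorem s52_pm_012 : ∃ t, chk3 f_pm_012 t 18 7 1 = true := ex3_b k25_pm_012 s51_pm_012

theorem s53_pm_012 : ∃ t, chk3 f_pm_012 t 9 7 1 = true := ex3_a s52_pm_012 s50_pm_012

theorem s54_pm_012 : ∃ t, chk3 f_pm_012 t 9 6 1 = true := ex3_a k23_pm_012 k24_pm_012

theorem s55_pm_012 : ∃ t, chk3 f_pm_012 t 9 3 1 = true := ex3_b s54_pm_012 s53_pm_012

theorem s56_pm_012 : ∃ t, chk3 f_pm_012 t 9 1 1 = true := ex3_b k22_pm_012 s55_pm_012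

theorem s57_pm_012 : ∃ t, chk3 f_pm_012 t 17 15 1 = true := ex3_a k20_pm_012 k21_pm_012

theorem s58_pm_012 : ∃ t, chk3 f_pm_012 t 17 7 1 = true := ex3_b k19_pm_012 s57_pm_012

theorem s59_pm_012 : ∃ t, chk3 f_pm_012 t 32 60 1 = true := ex3_a k14_pm_012 k15_pm_012

theorem s60_pm_012 : ∃ t, chk3 f_pm_012 t 32 30 1 = true := ex3_b s59_pm_012 k16_pm_012

theorem s61_pm_012 : ∃ t, chk3 f_pm_012 t 32 15 1 = true := ex3_b s60_pm_012 k17_pm_012

theorem s62_pm_012 : ∃ t, chk3 f_pm_012 t 16 15 1 = true := ex3_a s61_pm_012 k18_pm_012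

theorem s63_pm_012 : ∃ t, chk3 f_pm_012 t 64 14 7 = true := ex3_b k10_pm_012 k11_pm_012

theorem s64_pm_012 : ∃ t, chk3 f_pm_012 t 64 14 3 = true := ex3_c k9_pm_012 s63_pm_012

theorem s65_pm_012 : ∃ t, chk3 f_pm_012 t 32 14 3 = true := ex3_a s64_pm_012 k12_pm_012

theorem s66_pm_012 : ∃ t, chk3 f_pm_012 t 32 14 1 = true := ex3_c k8_pm_012 s65_pm_012

theorem s67_pm_012 : ∃ t, chk3 f_pm_012 t 16 14 1 = true := ex3_a s66_pm_012 k13_pm_012

theorem s68_pm_012 : ∃ t, chk3 f_pm_012 t 16 7 1 = true := ex3_b s67_pm_012 s62_pm_012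

theorem s69_pm_012 : ∃ t, chk3 f_pm_012 t 8 7 1 = true := ex3_a s68_pm_012 s58_pm_012

theorem s70_pm_012 : ∃ t, chk3 f_pm_012 t 32 13 3 = true := ex3_a k4_pm_012 k5_pm_012

theorem s71_pm_012 : ∃ t, chk3 f_pm_012 t 32 6 3 = true := ex3_b k3_pm_012 s70_pm_012

theorem s72_pm_012 : ∃ t, chk3 f_pm_012 t 32 6 1 = true := ex3_c k2_pm_012 s71_pm_012

theorem s73_pm_012 : ∃ t, chk3 f_pm_012 t 16 6 1 = true := ex3_a s72_pm_012 k6_pm_012

theorem s74_pm_012 : ∃ t, chk3 f_pm_012 t 8 6 1 = true := ex3_a s73_pm_012 k7_pm_012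

theorem s75_pm_012 : ∃ t, chk3 f_pm_012 t 8 3 1 = true := ex3_b s74_pm_012 s69_pm_012

theorem s76_pm_012 : ∃ t, chk3 f_pm_012 t 8 2 1 = true := ex3_a k0_pm_012 k1_pm_012

theorem s77_pm_012 : ∃ t, chk3 f_pm_012 t 8 1 1 = true := ex3_b s76_pm_012 s75_pm_012

theorem s78_pm_012 : ∃ t, chk3 f_pm_012 t 4 1 1 = true := ex3_a s77_pm_012 s56_pm_012

theorem s79_pm_012 : ∃ t, chk3 f_pm_012 t 2 1 1 = true := ex3_a s78_pm_012 s48_pm_012

theorem s80_pm_012 : ∃ t, chk3 f_pm_012 t 1 1 1 = true := ex3_a s79_pm_012 k40_pm_012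

theorem c_pm_012 : CertNX 0 536870912 536870912 536870912 1046898278 26843546 3 true true false .pnp 0 1 2
    ndN0q0 ndN3q1 pcN2 cut_pm_012 Ext.none :=
  certNX2 (fam := true) (s1 := true) (s2 := false) (a := 0) (b := 1) (c := 2) (cn := .pnp) (n1 := ndN0q0) (n2 := ndN3q1) (pc := pcN2) (cut := cut_pm_012) (xt := Ext.none) (P1 := 0) (W1 := 536870912) (P2 := 536870912) (W2 := 536870912) (P3 := 1046898278) (W3 := 26843546) (N0 := 3)
    rfl (fun _ => rfl) s80_pm_012

end Pool.Agent.Strip051.G.IE1.Tab.C.NA03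

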