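import Pool.Agent.Strip051.G.IE1.Tab

/-! # Certificates N45 (generated) -/

set_option linter.all false
set_option maxRecDepth 100000

namespace Pool.Agent.Strip051.G.IE1.Tab.C.NB01

open Pool.Agent.Strip051.PB Pool.Agent.Strip051.PB.T
open Pool.Agent.Strip051.G.IE1.Tab

noncomputable def f_pp_023 : ℕ → ℕ → ℕ → ℕ → Bool := onCell 0 536870912 1073741824 536870912 1046898278 26843546
    (rowNX 3 1 false true true .up 0 2 3 (qsf 0 536870912 1610612736 469762048 2) ndN0q0 ndN1q3 pcN2 Cut.none Ext.none)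

def k0_pp_023 : ∃ t, chk3 f_pp_023 t 1 1 1 = true :=
  ⟨(b (b (a (l 1) (a (b (l 1) (a (l 1) (l 237326032327))) (b (a (l 281350102567) (l 15053056)) (a (l 224441127591) (l 14772160))))) (a (a (l 1) (b (l 1) (b (l 1) (a (l 1) (l 16502384))))) (b (b (b (a (l 204576909575) (l 14476824)) (a (l 121361742855) (l 14698112))) (a (a (l 15441344) (l 15438232)) (a (l 15434344) (l 15429640)))) (b (a (a (l 16333464) (l 16332424)) (a (l 16331112) (l 16329528))) (a (l 16776592) (l 16776592)))))) (a (a (b (a (l 1) (a (l 1) (l 364028683047))) (a (a (b (l 1) (c (l 14169840) (a (c (l 14034608) (l 13981696)) (l 14117520)))) (c (c (a (l 14407656) (l 14555336)) (l 159479002535)) (l 14350976))) (a (b (l 14693480) (l 14693480)) (l 15354008)))) (b (a (l 304974134023) (b (l 16627952) (l 16627952))) (a (l 15769944) (b (l 16627952) (l 16627952))))) (b (a (c (l 16777216) (l 16777216)) (l 16777208)) (a (l 16777208) (b (l 16767744) (l 16760248)))))), by decide +kernel⟩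

theorem c_pp_023 : CertNX 0 536870912 1610612736 469762048 1046898278 26843546 3 false true true .up 0 2 3
    ndN0q0 ndN1q3 pcN2 Cut.none Ext.none :=
  certNX1 (fam := false) (s1 := true) (s2 := true) (a := 0) (b := 2) (c := 3) (cn := .up) (n1 := ndN0q0) (n2 := ndN1q3) (pc := pcN2) (cut := Cut.none) (xt := Ext.none) (P1 := 0) (W1 := 536870912) (P2 := 1610612736) (W2 := 469762048) (P3 := 1046898278) (W3 := 26843546) (N0 := 3)
    rfl (fun _ => rfl) k0_pp_023

noncomputable def f_pp_033 : ℕ → ℕ → ℕ → ℕ → Bool := onCell 0 536870912 1610612736 536870912 1046898278 26843546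
    (rowNX 3 1 false true true .pnn 0 3 3 (qsf 0 536870912 1610612736 469762048 3) ndN0q0 ndN1q3 pcN3 Cut.none Ext.none)

def k0_pp_033 : ∃ t, chk3 f_pp_033 t 1 1 1 = true :=
  ⟨(a (b (b (a (a (c (a (b (l 14169840) (l 14169840)) (c (a (l 14407656) (l 14555336)) (l 14338600))) (a (c (a (l 14034608) (l 14018904)) (b (l 13978016) (l 13915104))) (l 14350976))) (a (c (l 14644768) (l 14707832)) (b (l 15354008) (l 15354008)))) (a (b (l 15979656) (l 15979656)) (b (l 16627952) (l 16627968)))) (b (a (a (c (a (l 14169840) (c (l 14415240) (l 14422488))) (a (a (b (l 13960352) (l 13855496)) (l 14075576)) (l 14350976))) (a (c (l 14728656) (l 14707832)) (l 15354008))) (a (l 15979664) (l 16451648))) (l 4))) (a (l 4) (b (l 4) (l 2)))) (b (a (b (b (l 16767744) (l 16760248)) (b (c (l 16746848) (l 16746248)) (l 4))) (b (b (l 16746272) (a (l 16716472) (l 2))) (l 2))) (l 2))), by decide +kernel⟩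

theorem c_pp_033 : CertNX 0 536870912 1610612736 469762048 1046898278 26843546 3 false true true .pnn 0 3 3
    ndN0q0 ndN1q3 pcN3 Cut.none Ext.none :=
  certNX1 (fam := false) (s1 := true) (s2 := true) (a := 0) (b := 3) (c := 3) (cn := .pnn) (n1 := ndN0q0) (n2 := ndN1q3) (pc := pcN3) (cut := Cut.none) (xt := Ext.none) (P1 := 0) (W1 := 536870912) (P2 := 1610612736) (W2 := 469762048) (P3 := 1046898278) (W3 := 26843546) (N0 := 3)
    rfl (fun _ => rfl) k0_pp_033

noncomputable def f_pp_101 : ℕ → ℕ → ℕ → ℕ → Bool := onCell 536870912 536870912 536870912 536870912 1046898278 26843546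
    (rowNX 3 0 false true true .npn 1 0 1 (qsf 536870912 536870912 536870912 536870912 0) ndN0q1 ndN1q1 pcN0 Cut.none Ext.none)

def k0_pp_101 : ∃ t, chk3 f_pp_101 t 1 1 1 = true :=
  ⟨(l 3), by decide +kernel⟩

theorem c_pp_101 : CertNX 536870912 536870912 536870912 536870912 1046898278 26843546 3 false true true .npn 1 0 1
    ndN0q1 ndN1q1 pcN0 Cut.none Ext.none :=
  certNX0 (fam := false) (s1 := true) (s2 := true) (a := 1) (b := 0) (c := 1) (cn := .npn) (n1 := ndN0q1) (n2 := ndN1q1) (pc := pcN0) (cut := Cut.none) (xt := Ext.none) (P1 := 536870912) (W1 := 536870912) (P2 := 536870912) (W2 := 536870912) (P3 := 1046898278) (W3 := 26843546) (N0 := 3)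
    rfl k0_pp_101

noncomputable def f_pp_102_a : ℕ → ℕ → ℕ → ℕ → Bool := onCell 0 536870912 0 420477299 1046898278 26843546
    (rowNX 3 2 false true true .npp 1 0 2 (qsf 536870912 536870912 0 420477299 0) ndN0q1 ndN1q2a pcN0 Cut.none Ext.none)

def k0_pp_102_a : ∃ t, chk3 f_pp_102_a t 1 1 1 = true :=
  ⟨(a (l 3) (l 3)), by decide +kernel⟩

theorem c_pp_102_a : CertNX 536870912 536870912 0 420477299 1046898278 26843546 3 false true true .npp 1 0 2
    ndN0q1 ndN1q2a pcN0 Cut.none Ext.none :=
  certNX2 (fam := false) (s1 := true) (s2 := true) (a := 1) (b := 0) (c := 2) (cn := .npp) (n1 := ndN0q1) (n2 := ndN1q2a) (pc := pcN0) (cut := Cut.none) (xt := Ext.none) (P1 := 536870912) (W1 := 536870912) (P2 := 0) (W2 := 420477299) (P3 := 1046898278) (W3 := 26843546) (N0 := 3)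
    rfl (fun _ => rfl) k0_pp_102_a

noncomputable def f_pp_102_b : ℕ → ℕ → ℕ → ℕ → Bool := onCell 536870912 536870912 0 536870912 1046898278 26843546
    (rowNX 3 1 false true true .npp 1 0 2 (qsf 536870912 536870912 1239849684 370763052 0) ndN0q1 ndN1q2b pcN0 Cut.none Ext.none)

def k0_pp_102_b : ∃ t, chk3 f_pp_102_b t 1 1 1 = true :=
  ⟨(l 3), by decide +kernel⟩

theorem c_pp_102_b : CertNX 536870912 536870912 1239849684 370763052 1046898278 26843546 3 false true true .npp 1 0 2
    ndN0q1 ndN1q2b pcN0 Cut.none Ext.none :=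
  certNX1 (fam := false) (s1 := true) (s2 := true) (a := 1) (b := 0) (c := 2) (cn := .npp) (n1 := ndN0q1) (n2 := ndN1q2b) (pc := pcN0) (cut := Cut.none) (xt := Ext.none) (P1 := 536870912) (W1 := 536870912) (P2 := 1239849684) (W2 := 370763052) (P3 := 1046898278) (W3 := 26843546) (N0 := 3)
    rfl (fun _ => rfl) k0_pp_102_b

noncomputable def f_pp_112_a : ℕ → ℕ → ℕ → ℕ → Bool := onCell 536870912 536870912 0 420477299 1046898278 26843546
    (rowNX 3 0 false true true .dn 1 1 2 (qsf 536870912 536870912 0 420477299 1) ndN0q1 ndN1q2a pcN1 Cut.none Ext.none)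

def k0_pp_112_a : ∃ t, chk3 f_pp_112_a t 1 1 1 = true :=
  ⟨(a (b (l 3) (l 3)) (l 1)), by decide +kernel⟩

theorem c_pp_112_a : CertNX 536870912 536870912 0 420477299 1046898278 26843546 3 false true true .dn 1 1 2
    ndN0q1 ndN1q2a pcN1 Cut.none Ext.none :=
  certNX0 (fam := false) (s1 := true) (s2 := true) (a := 1) (b := 1) (c := 2) (cn := .dn) (n1 := ndN0q1) (n2 := ndN1q2a) (pc := pcN1) (cut := Cut.none) (xt := Ext.none) (P1 := 536870912) (W1 := 536870912) (P2 := 0) (W2 := 420477299) (P3 := 1046898278) (W3 := 26843546) (N0 := 3)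
    rfl k0_pp_112_a

noncomputable def f_pp_112_b : ℕ → ℕ → ℕ → ℕ → Bool := onCell 536870912 536870912 536870912 536870912 1046898278 26843546
    (rowNX 3 1 false true true .dn 1 1 2 (qsf 536870912 536870912 1239849684 370763052 1) ndN0q1 ndN1q2b pcN1 Cut.none Ext.none)

def k0_pp_112_b : ∃ t, chk3 f_pp_112_b t 1 1 1 = true :=
  ⟨(b (a (a (b (l 3) (b (a (a (b (l 3) (c (l 497847107591) (l 463487369223))) (l 3)) (l 3)) (c (a (c (b (l 16777216) (l 16777216)) (l 16777216)) (l 129016791047)) (a (c (l 16777216) (l 16777216)) (l 175724560391))))) (l 3)) (l 3)) (b (b (a (a (c (c (b (l 16777208) (l 16765984)) (b (l 16777208) (l 16765792))) (c (b (l 16777208) (l 16765592)) (b (l 16777208) (l 16765392)))) (a (c (l 16775992) (l 16775952)) (l 176798318631))) (l 3)) (a (a (b (c (a (l 16723192) (l 16737296)) (l 16728712)) (a (b (l 16679192) (c (l 16593000) (l 16586536))) (c (l 16661952) (l 16657912)))) (b (a (l 16753096) (l 16769480)) (a (b (l 16723640) (l 16650536)) (l 2)))) (l 2))) (a (a (a (b (b (c (l 16340656)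 (l 16325336)) (c (l 16005832) (l 15978752))) (b (l 15643192) (l 15286744))) (b (b (l 16278296) (c (l 16029344) (l 16003096))) (a (l 15489424) (l 2)))) (b (b (a (l 16395400) (l 2)) (l 2)) (l 2))) (l 2)))), by decide +kernel⟩

theorem c_pp_112_b : CertNX 536870912 536870912 1239849684 370763052 1046898278 26843546 3 false true true .dn 1 1 2
    ndN0q1 ndN1q2b pcN1 Cut.none Ext.none :=
  certNX1 (fam := false) (s1 := true) (s2 := true) (a := 1) (b := 1) (c := 2) (cn := .dn) (n1 := ndN0q1) (n2 := ndN1q2b) (pc := pcN1) (cut := Cut.none) (xt := Ext.none) (P1 := 536870912) (W1 := 536870912) (P2 := 1239849684) (W2 := 370763052) (P3 := 1046898278) (W3 := 26843546) (N0 := 3)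
    rfl (fun _ => rfl) k0_pp_112_b

noncomputable def f_pp_113 : ℕ → ℕ → ℕ → ℕ → Bool := onCell 536870912 536870912 1610612736 469762048 1046898278 26843546
    (rowNX 3 2 false true true .nn 1 1 3 (qsf 536870912 536870912 1610612736 469762048 1) ndN0q1 ndN1q3 pcN1 Cut.none Ext.none)

def k0_pp_113 : ∃ t, chk3 f_pp_113 t 2 1 1 = true :=
  ⟨(b (a (l 3) (l 3)) (l 3)), by decide +kernel⟩

def k1_pp_113 : ∃ t, chk3 f_pp_113 t 3 2 1 = true :=
  ⟨(b (a (a (a (l 3) (b (l 16776944) (l 3))) (a (b (l 16764640) (l 16774016)) (a (l 16765528) (c (l 16671576) (l 16667864))))) (b (a (a (l 16384936) (c (l 16033736) (l 16007632))) (a (l 15663312) (l 15293336))) (a (a (l 16416704) (l 16048664)) (a (a (l 15778560) (l 15600424)) (l 15324328))))) (a (a (l 3) (a (b (l 3) (l 3)) (b (a (l 16773784) (l 16720848)) (a (l 3) (l 16740336))))) (a (a (b (l 16431680) (a (l 16582440) (l 16399032))) (b (l 16078576) (l 16049616))) (a (a (b (l 15796760) (l 15815552)) (a (l 15666584) (c (l 15606480) (l 15565376)))) (a (c (a (c (b (l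 15529824) (l 15531920)) (l 15519248)) (b (l 15428632) (c (l 15475600) (l 15327120)))) (l 15443040)) (a (a (c (l 15381728) (l 15081096)) (l 15309968)) (l 15240600))))))), by decide +kernel⟩

def k2_pp_113 : ∃ t, chk3 f_pp_113 t 6 3 1 = true :=
  ⟨(b (a (l 3) (l 3)) (a (l 2) (l 3))), by decide +kernel⟩

def k3_pp_113 : ∃ t, chk3 f_pp_113 t 14 3 1 = true :=
  ⟨(b (a (b (b (a (l 16593088) (l 16428520)) (a (l 3) (l 16237072))) (l 3)) (b (a (l 16248280) (l 16054600)) (b (a (l 186460371255) (l 16063760)) (a (l 15922192) (l 15867600))))) (b (a (l 3) (b (a (l 3) (l 403892260183)) (l 3))) (l 3))), by decide +kernel⟩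

def k4_pp_113 : ∃ t, chk3 f_pp_113 t 15 6 1 = true :=
  ⟨(a (a (b (l 15835600) (b (l 15852240) (b (l 15838592) (l 15770280)))) (a (b (l 15672504) (l 15665776)) (b (l 15588840) (c (l 15603928) (l 15562544))))) (a (c (a (c (b (l 15519704) (a (l 15582856) (l 15554704))) (l 15536024)) (c (l 15495640) (b (l 15427568) (a (l 15496232) (l 15463952))))) (l 15449168)) (c (a (c (l 15420032) (l 15377040)) (l 15334848)) (a (c (a (l 15332232) (b (l 15350336) (l 15324816))) (l 15349288)) (c (l 15297384) (b (a (l 15285600) (l 14992720)) (a (l 15305344) (l 15122928)))))))), by decide +kernel⟩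

def k5_pp_113 : ∃ t, chk3 f_pp_113 t 30 7 1 = true :=
  ⟨(b (a (b (l 196122861591) (a (l 451136360967) (l 279874827463))) (c (a (l 15220592) (b (l 15506872) (l 15324744))) (b (l 15452304) (l 15203192)))) (a (b (b (a (l 3) (l 3)) (l 3)) (l 3)) (a (b (b (l 281485348695) (l 553141746039)) (l 3)) (b (c (b (l 15208080) (a (l 15125032) (c (l 15207976) (l 15076280)))) (b (l 15003672) (l 14860280))) (b (c (a (l 571932245671) (c (l 548846973335) (l 14963008))) (l 517707175863)) (l 3)))))), by decide +kernel⟩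

def k6_pp_113 : ∃ t, chk3 f_pp_113 t 31 14 1 = true :=
  ⟨(a (c (a (b (c (a (l 15532264) (l 15524480)) (l 15482528)) (c (a (l 15354808) (l 15314400)) (l 15301056))) (c (b (l 15486400) (l 15358568)) (b (a (l 15477064) (l 15459376)) (a (l 15314528) (l 15314952))))) (b (l 15422848) (l 15222664))) (a (c (b (l 15424200) (l 15321272)) (c (b (a (l 15407984) (l 15376248)) (a (l 15265232) (c (l 15274656) (l 15255768)))) (l 15241688))) (c (l 15285080) (c (b (l 15327440) (l 15253344)) (b (a (l 15317184) (l 15284136)) (a (l 15136440) (c (l 15227400) (l 15168136)))))))), by decide +kernel⟩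

def k7_pp_113 : ∃ t, chk3 f_pp_113 t 31 15 1 = true :=
  ⟨(a (c (b (a (c (a (c (a (l 15272824) (l 15288816)) (l 15207576)) (c (l 15289048) (a (l 15217728) (l 15230600)))) (l 15128176)) (c (a (l 15343888) (l 15226008)) (a (c (l 15172312) (l 15109280)) (c (l 15171704) (l 15121672))))) (a (c (b (a (c (a (l 15214008) (l 15239296)) (l 15122392)) (c (l 15250928) (a (l 15145984) (l 15167352)))) (a (c (b (a (l 564416220455) (l 15223576)) (a (l 3) (c (l 540794073735) (l 544551987639)))) (b (l 15083208) (l 545625623159))) (c (b (l 15241152) (a (b (l 15246760) (l 530593532087)) (l 15258696))) (a (b (l 15111096) (b (l 15104232) (l 537035697287))) (c (l 15167560) (l 15092824)))))) (b (l 15005936) (b (l 14935904) (a (l 554215201943) (l 283095490631))))) (c (b (a (c (l 15235976) (l 15172656)) (l 15187216)) (a (c (l 15240064) (a (l 15145752) (l 15147944))) (l 15184480))) (a (b (c (a (l 15078816) (l 15095680)) (l 14996408)) (c (a (l 15015344) (l 15037864)) (l 14904184))) (c (b (l 15095824) (l 15047632)) (b (l 15019384)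 (a (l 14934512) (l 14948704)))))))) (b (a (l 14968616) (l 14992080)) (a (b (l 14754632) (b (l 14613704) (l 329265670311))) (b (l 14814264) (l 14650992))))) (c (b (a (c (l 15205832) (l 15131440)) (l 15154256)) (a (b (c (l 15164952) (l 15043888)) (a (c (l 15176056) (l 14995920)) (l 15083840))) (l 15071120))) (a (c (b (a (l 15052064) (c (l 15072248) (l 15033376))) (a (b (l 14916416) (c (a (l 14853320) (l 14866384)) (l 14752680))) (c (l 14799032) (b (l 14887232) (a (l 14778776) (l 14789512)))))) (b (l 14965080) (l 14695840))) (c (b (l 15050536) (b (l 14916024) (l 14961488))) (c (a (b (l 14994464) (a (l 14766256) (c (l 14789184) (l 14754992)))) (b (l 14999672) (l 14777216))) (a (l 14698504) (b (l 14964504) (a (l 14706232) (l 14715008))))))))), by decide +kernel⟩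

theorem s8_pp_113 : ∃ t, chk3 f_pp_113 t 31 7 1 = true := ex3_b k6_pp_113 k7_pp_113

theorem s9_pp_113 : ∃ t, chk3 f_pp_113 t 15 7 1 = true := ex3_a k5_pp_113 s8_pp_113

theorem s10_pp_113 : ∃ t, chk3 f_pp_113 t 15 3 1 = true := ex3_b k4_pp_113 s9_pp_113

theorem s11_pp_113 : ∃ t, chk3 f_pp_113 t 7 3 1 = true := ex3_a k3_pp_113 s10_pp_113

theorem s12_pp_113 : ∃ t, chk3 f_pp_113 t 3 3 1 = true := ex3_a k2_pp_113 s11_pp_113

theorem s13_pp_113 : ∃ t, chk3 f_pp_113 t 3 1 1 = true := ex3_b k1_pp_113 s12_pp_113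

theorem s14_pp_113 : ∃ t, chk3 f_pp_113 t 1 1 1 = true := ex3_a k0_pp_113 s13_pp_113

theorem c_pp_113 : CertNX 536870912 536870912 1610612736 469762048 1046898278 26843546 3 false true true .nn 1 1 3
    ndN0q1 ndN1q3 pcN1 Cut.none Ext.none :=
  certNX2 (fam := false) (s1 := true) (s2 := true) (a := 1) (b := 1) (c := 3) (cn := .nn) (n1 := ndN0q1) (n2 := ndN1q3) (pc := pcN1) (cut := Cut.none) (xt := Ext.none) (P1 := 536870912) (W1 := 536870912) (P2 := 1610612736) (W2 := 469762048) (P3 := 1046898278) (W3 := 26843546) (N0 := 3)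
    rfl (fun _ => rfl) s14_pp_113

noncomputable def f_pp_123 : ℕ → ℕ → ℕ → ℕ → Bool := onCell 1073741824 536870912 1610612736 469762048 1046898278 26843546
    (rowNX 3 2 false true true .npn 1 2 3 (qsf 536870912 536870912 1610612736 469762048 2) ndN0q1 ndN1q3 pcN2 Cut.none Ext.none)

def k0_pp_123 : ∃ t, chk3 f_pp_123 t 1 2 1 = true :=
  ⟨(a (b (a (a (c (a (l 15337360) (l 15124112)) (a (l 15286824) (l 15066088))) (a (c (l 14960296) (l 14896520)) (l 100960649447))) (l 1)) (a (a (b (a (l 15396752) (l 15132688)) (a (l 15464192) (l 15162704))) (a (c (l 14963688) (l 14900032)) (c (l 14695152) (l 14622072)))) (a (a (a (l 14464248) (l 14688064)) (b (l 15429856) (l 15425080))) (a (a (l 16113024) (l 16540312)) (l 16776592))))) (l 1)), by decide +kernel⟩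

def k1_pp_123 : ∃ t, chk3 f_pp_123 t 1 3 1 = true :=
  ⟨(b (a (a (a (a (b (l 15540520) (l 15627064)) (b (l 15196680) (l 15235128))) (a (l 14936376) (l 14645672))) (a (a (a (l 14445496) (l 14670392)) (b (l 15419600) (l 15413368))) (a (c (l 16333968) (l 16318408)) (l 16776584)))) (a (c (l 16777216) (l 16777216)) (l 1))) (a (a (b (a (a (a (c (a (b (l 15886912) (l 15819800)) (b (l 15775280) (a (l 15792392) (l 15757992)))) (a (b (c (l 15864016) (l 15847824)) (c (l 15787824) (l 15764368))) (b (l 15739840) (c (l 15742304) (l 15720792))))) (b (l 15578952) (c (a (l 15687408) (l 15582776)) (a (l 15646560) (l 15539784))))) (a (a (c (l 15457136) (l 15410008)) (l 15327352)) (l 15184976))) (l 14549672)) (a (a (a (c (a (b (l 15600728) (c (l 15519976) (l 15416760))) (b (c (l 15672488) (l 15629800)) (c (l 15597408) (l 15511088)))) (a (b (c (l 15544248) (l 15425192)) (c (a (l 15270344) (l 15345568)) (a (l 15154168) (l 15236840)))) (b (l 15561112) (c (l 15418000) (l 15323584))))) (c (b (a (l 15634144) (l 15579168))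 (a (l 15583392) (l 15569232))) (b (a (l 15559216) (l 15518504)) (a (l 15431136) (l 15447184))))) (a (c (b (a (l 15493736) (l 15396320)) (c (l 15510088) (l 15464448))) (b (a (l 15441976) (l 15346512)) (l 15402256))) (c (b (a (l 15294344) (l 15191320)) (a (l 15344648) (b (l 15216248) (l 15255768)))) (b (l 15192568) (a (l 15281200) (l 15178808)))))) (a (a (a (b (l 15071864) (c (l 15133408) (l 15077352))) (l 14995560)) (l 14870552)) (l 14632944)))) (a (a (a (l 14430032) (l 14656352)) (b (l 15406336) (l 15407144))) (a (a (l 16109880) (l 16544904)) (l 16704000)))) (a (a (l 16767352) (l 16767352)) (a (l 16767352) (l 16767352))))), by decide +kernel⟩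

theorem s2_pp_123 : ∃ t, chk3 f_pp_123 t 1 1 1 = true := ex3_b k0_pp_123 k1_pp_123

theorem c_pp_123 : CertNX 536870912 536870912 1610612736 469762048 1046898278 26843546 3 false true true .npn 1 2 3
    ndN0q1 ndN1q3 pcN2 Cut.none Ext.none :=
  certNX2 (fam := false) (s1 := true) (s2 := true) (a := 1) (b := 2) (c := 3) (cn := .npn) (n1 := ndN0q1) (n2 := ndN1q3) (pc := pcN2) (cut := Cut.none) (xt := Ext.none) (P1 := 536870912) (W1 := 536870912) (P2 := 1610612736) (W2 := 469762048) (P3 := 1046898278) (W3 := 26843546) (N0 := 3)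
    rfl (fun _ => rfl) s2_pp_123

noncomputable def f_pp_133 : ℕ → ℕ → ℕ → ℕ → Bool := onCell 536870912 536870912 1610612736 469762048 1046898278 26843546
    (rowNX 3 0 false true true .dn 1 3 3 (qsf 536870912 536870912 1610612736 469762048 3) ndN0q1 ndN1q3 pcN3 Cut.none Ext.none)

def k0_pp_133 : ∃ t, chk3 f_pp_133 t 1 1 1 = true :=
  ⟨(l 1), by decide +kernel⟩

theorem c_pp_133 : CertNX 536870912 536870912 1610612736 469762048 1046898278 26843546 3 false true true .dn 1 3 3
    ndN0q1 ndN1q3 pcN3 Cut.none Ext.none :=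
  certNX0 (fam := false) (s1 := true) (s2 := true) (a := 1) (b := 3) (c := 3) (cn := .dn) (n1 := ndN0q1) (n2 := ndN1q3) (pc := pcN3) (cut := Cut.none) (xt := Ext.none) (P1 := 536870912) (W1 := 536870912) (P2 := 1610612736) (W2 := 469762048) (P3 := 1046898278) (W3 := 26843546) (N0 := 3)
    rfl k0_pp_133

noncomputable def f_pp_202_a : ℕ → ℕ → ℕ → ℕ → Bool := onCell 0 536870912 0 420477299 1046898278 26843546
    (rowNX 3 0 false true true .pp 2 0 2 (qsf 0 536870912 0 420477299 0) ndN0q2 ndN1q2a pcN0 Cut.none Ext.none)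

def k0_pp_202_a : ∃ t, chk3 f_pp_202_a t 1 1 1 = true :=
  ⟨(l 3), by decide +kernel⟩

theorem c_pp_202_a : CertNX 0 536870912 0 420477299 1046898278 26843546 3 false true true .pp 2 0 2
    ndN0q2 ndN1q2a pcN0 Cut.none Ext.none :=
  certNX0 (fam := false) (s1 := true) (s2 := true) (a := 2) (b := 0) (c := 2) (cn := .pp) (n1 := ndN0q2) (n2 := ndN1q2a) (pc := pcN0) (cut := Cut.none) (xt := Ext.none) (P1 := 0) (W1 := 536870912) (P2 := 0) (W2 := 420477299) (P3 := 1046898278) (W3 := 26843546) (N0 := 3)
    rfl k0_pp_202_a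

noncomputable def f_pp_202_b : ℕ → ℕ → ℕ → ℕ → Bool := onCell 0 536870912 1239849684 370763052 1046898278 26843546
    (rowNX 3 0 false true true .pp 2 0 2 (qsf 0 536870912 1239849684 370763052 0) ndN0q2 ndN1q2b pcN0 Cut.none Ext.none)

def k0_pp_202_b : ∃ t, chk3 f_pp_202_b t 1 1 1 = true :=
  ⟨(l 3), by decide +kernel⟩

theorem c_pp_202_b : CertNX 0 536870912 1239849684 370763052 1046898278 26843546 3 false true true .pp 2 0 2
    ndN0q2 ndN1q2b pcN0 Cut.none Ext.none :=
  certNX0 (fam := false) (s1 := true) (s2 := true) (a := 2) (b := 0) (c := 2) (cn := .pp) (n1 := ndN0q2) (n2 := ndN1q2b) (pc := pcN0) (cut := Cut.none) (xt := Ext.none) (P1 := 0) (W1 := 536870912) (P2 := 1239849684) (W2 := 370763052) (P3 := 1046898278) (W3 := 26843546) (N0 := 3)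
    rfl k0_pp_202_b

noncomputable def f_pp_203 : ℕ → ℕ → ℕ → ℕ → Bool := onCell 0 536870912 1610612736 469762048 1046898278 26843546
    (rowNX 3 0 false true true .up 2 0 3 (qsf 0 536870912 1610612736 469762048 0) ndN0q2 ndN1q3 pcN0 Cut.none Ext.none)

def k0_pp_203 : ∃ t, chk3 f_pp_203 t 1 1 1 = true :=
  ⟨(l 3), by decide +kernel⟩

theorem c_pp_203 : CertNX 0 536870912 1610612736 469762048 1046898278 26843546 3 false true true .up 2 0 3
    ndN0q2 ndN1q3 pcN0 Cut.none Ext.none :=
  certNX0 (fam := false) (s1 := true) (s2 := true) (a := 2) (b := 0) (c := 3) (cn := .up) (n1 := ndN0q2) (n2 := ndN1q3) (pc := pcN0) (cut := Cut.none) (xt := Ext.none) (P1 := 0) (W1 := 536870912) (P2 := 1610612736) (W2 := 469762048) (P3 := 1046898278) (W3 := 26843546) (N0 := 3)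
    rfl k0_pp_203

noncomputable def f_pp_213 : ℕ → ℕ → ℕ → ℕ → Bool := onCell 0 536870912 1610612736 469762048 1046898278 26843546
    (rowNX 3 0 false true true .pnn 2 1 3 (qsf 0 536870912 1610612736 469762048 1) ndN0q2 ndN1q3 pcN1 Cut.none Ext.none)

def k0_pp_213 : ∃ t, chk3 f_pp_213 t 1 1 1 = true :=
  ⟨(l 3), by decide +kernel⟩

theorem c_pp_213 : CertNX 0 536870912 1610612736 469762048 1046898278 26843546 3 false true true .pnn 2 1 3
    ndN0q2 ndN1q3 pcN1 Cut.none Ext.none :=
  certNX0 (fam := false) (s1 := true) (s2 := true) (a := 2) (b := 1) (c := 3) (cn := .pnn) (n1 := ndN0q2) (n2 := ndN1q3) (pc := pcN1) (cut := Cut.none) (xt := Ext.none) (P1 := 0) (W1 := 536870912) (P2 := 1610612736) (W2 := 469762048) (P3 := 1046898278) (W3 := 26843546) (N0 := 3)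
    rfl k0_pp_213

noncomputable def f_pm_001 : ℕ → ℕ → ℕ → ℕ → Bool := onCell 0 536870912 0 536870912 1046898278 26843546
    (rowNX 3 1 false true false .up 0 0 1 (qsf 0 536870912 536870912 536870912 0) ndN0q0 ndN1q1 pcN0 Cut.none Ext.none)

def k0_pm_001 : ∃ t, chk3 f_pm_001 t 1 1 1 = true :=
  ⟨(a (l 4) (b (l 4) (a (l 4) (a (l 4) (b (l 4) (b (a (l 4) (b (l 4) (c (l 16180392) (l 16159440)))) (c (a (b (l 16180392) (l 15876392)) (b (l 15876392) (l 15582184))) (a (b (l 16159440) (l 15844768)) (l 15545864))))))))), by decide +kernel⟩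

theorem c_pm_001 : CertNX 0 536870912 536870912 536870912 1046898278 26843546 3 false true false .up 0 0 1
    ndN0q0 ndN1q1 pcN0 Cut.none Ext.none :=
  certNX1 (fam := false) (s1 := true) (s2 := false) (a := 0) (b := 0) (c := 1) (cn := .up) (n1 := ndN0q0) (n2 := ndN1q1) (pc := pcN0) (cut := Cut.none) (xt := Ext.none) (P1 := 0) (W1 := 536870912) (P2 := 536870912) (W2 := 536870912) (P3 := 1046898278) (W3 := 26843546) (N0 := 3)
    rfl (fun _ => rfl) k0_pm_001

noncomputable def f_pm_011 : ℕ → ℕ → ℕ → ℕ → Bool := onCell 536870912 536870912 536870912 536870912 1046898278 26843546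
    (rowNX 3 2 false true false .pnn 0 1 1 (qsf 0 536870912 536870912 536870912 1) ndN0q0 ndN1q1 pcN1 Cut.none Ext.none)

def k0_pm_011 : ∃ t, chk3 f_pm_011 t 1 1 1 = true :=
  ⟨(a (b (l 4) (b (l 4) (b (l 4) (a (a (c (c (b (l 15735656) (l 15451088)) (b (l 15717488) (l 15427960))) (c (l 39423501607) (l 34054749911))) (b (l 4) (c (c (l 15451088) (l 15427960)) (l 15392584)))) (a (a (b (l 4) (l 4)) (l 4)) (l 4)))))) (l 4)), by decide +kernel⟩

theorem c_pm_011 : CertNX 0 536870912 536870912 536870912 1046898278 26843546 3 false true false .pnn 0 1 1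
    ndN0q0 ndN1q1 pcN1 Cut.none Ext.none :=
  certNX2 (fam := false) (s1 := true) (s2 := false) (a := 0) (b := 1) (c := 1) (cn := .pnn) (n1 := ndN0q0) (n2 := ndN1q1) (pc := pcN1) (cut := Cut.none) (xt := Ext.none) (P1 := 0) (W1 := 536870912) (P2 := 536870912) (W2 := 536870912) (P3 := 1046898278) (W3 := 26843546) (N0 := 3)
    rfl (fun _ => rfl) k0_pm_011

noncomputable def f_pm_012_a : ℕ → ℕ → ℕ → ℕ → Bool := onCell 536870912 536870912 0 420477299 1046898278 26843546
    (rowNX 3 2 false true false .pnp 0 1 2 (qsf 0 536870912 0 420477299 1) ndN0q0 ndN1q2a pcN1 Cut.none Ext.none)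

def k0_pm_012_a : ∃ t, chk3 f_pm_012_a t 2 1 1 = true :=
  ⟨(b (a (l 2) (b (c (a (c (l 16777120) (l 16777120)) (l 16777120)) (a (l 16777112) (l 16777112))) (a (c (c (l 16776072) (l 16776056)) (l 16776024)) (c (a (l 16776064) (l 16776064)) (l 16776024))))) (b (a (a (l 2) (a (l 2) (c (a (l 16772680) (l 16772680)) (l 16772528)))) (a (b (c (a (l 16773896) (l 16773896)) (l 16773776)) (c (a (l 16771384) (l 16771384)) (l 16771176))) (a (c (l 16772680) (l 16772528)) (c (l 16772680) (l 16772528))))) (a (a (a (l 2) (b (l 2) (c (l 16399736) (l 16386440)))) (b (c (b (l 16766240) (l 16649936)) (b (l 16765848) (l 16645456))) (c (b (l 16494840) (l 16306984)) (b (l 16484896) (l 16290416))))) (b (c (a (b (l 16766240) (l 16649936)) (b (l 16766240) (l 16649936))) (a (b (l 16765848) (l 16645456)) (b (l 16765848) (l 16645456)))) (c (a (b (l 16494840) (l 16306984)) (b (l 16494840) (l 16306984))) (a (b (l 16484896) (l 16290416)) (b (l 16484896) (l 16290416)))))))), by decide +kernel⟩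

def k1_pm_012_a : ∃ t, chk3 f_pm_012_a t 6 2 1 = true :=
  ⟨(a (a (c (b (l 16777088) (l 16776152)) (b (l 16777088) (l 16776128))) (b (c (l 16717456) (l 16715352)) (c (b (l 16708480) (l 16636528)) (l 16595256)))) (a (b (c (l 16593600) (l 16587160)) (c (b (l 16565144) (l 16512848)) (b (l 16557696) (l 16525264)))) (b (a (l 16484432) (c (l 16366928) (l 16352520))) (a (b (c (l 16424968) (l 16434312)) (c (l 16383088) (l 16369248))) (b (c (b (l 16326136) (l 16286272)) (l 16291992)) (c (l 16208088) (l 16188104))))))), by decide +kernel⟩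

def k2_pm_012_a : ∃ t, chk3 f_pm_012_a t 6 3 1 = true :=
  ⟨(a (b (a (c (l 16772808) (l 16772664)) (c (l 16569224) (l 16586560))) (b (a (c (b (l 16766360) (l 16650072)) (l 16580624)) (c (b (l 16557392) (l 16612264)) (b (l 16595336) (l 16632144)))) (b (a (c (l 16494992) (l 16485056)) (c (l 16477296) (l 16493280))) (a (c (l 16307144) (l 16290592)) (c (l 16279184) (l 16288904)))))) (b (a (c (b (l 16486952) (l 16397712)) (l 16263584)) (a (c (a (l 16252072) (l 16188168)) (a (l 16298744) (l 16210888))) (c (b (l 16102272) (a (l 16066176) (l 15922872))) (b (l 16078568) (l 15946856))))) (a (b (c (b (a (l 16479912) (l 16348656)) (l 16379840)) (b (l 16381632) (l 16411328))) (b (c (l 16389904) (l 16404000)) (c (a (l 16542104) (b (l 16501576) (l 16578064))) (a (l 16538888) (b (l 16537760) (l 16576040)))))) (b (a (c (b (a (l 16244120) (l 16138920)) (a (l 16288192) (l 16184840))) (b (a (l 16225440) (l 16116552)) (a (l 16271504) (l 16164512)))) (c (b (b (a (l 16002912) (l 15866696)) (a (l 16007776) (l 15895840)))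 (a (l 16039752) (l 15992616))) (b (a (l 15979344) (l 15852808)) (a (l 16057816) (l 15965736))))) (a (b (c (a (b (l 16341784) (l 16404536)) (l 16309488)) (a (l 16321952) (l 16294400))) (a (c (l 16445456) (l 16461376)) (c (l 16421504) (l 16435824)))) (c (b (l 16045776) (l 16175840)) (b (l 16110624) (c (l 16293496) (l 16308880))))))))), by decide +kernel⟩

def k3_pm_012_a : ∃ t, chk3 f_pm_012_a t 7 2 1 = true :=
  ⟨(a (b (a (c (a (l 16183576) (l 15985832)) (a (l 16162736) (l 15958048))) (b (a (l 15802968) (c (l 15686040) (l 15647992))) (a (c (b (l 15792704) (l 15763040)) (l 15674424)) (c (b (l 15664992) (l 15637480)) (l 15612248))))) (a (b (c (a (l 15913480) (l 15872776)) (a (l 16078528) (l 15841032))) (c (a (l 15967912) (l 15572136)) (a (l 15939496) (l 15681800)))) (c (a (b (l 15669136) (l 15562704)) (l 15441736)) (a (b (l 15630312) (l 15520296)) (l 15482312))))) (a (b (b (a (l 15617440) (c (l 15581880) (l 15542008))) (a (c (b (l 15608008) (l 15554504)) (l 15546104)) (c (l 15501840) (l 15463552))))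 (c (a (b (l 15477416) (l 15397744)) (b (l 15375040) (l 15280952))) (a (l 15397520) (l 15299008)))) (b (b (a (c (b (l 15553600) (l 15517664)) (l 15487832)) (b (c (l 15500720) (l 15459992)) (c (l 15442176) (l 15402168)))) (a (c (l 15402080) (l 15369440)) (c (l 15311288) (l 15274424)))) (a (c (b (l 15260472) (a (l 15181712) (l 15113904))) (b (l 15239112) (l 15140320))) (c (b (l 15164728) (a (l 15057664) (l 15035328))) (a (c (l 15108048) (l 15101104)) (c (l 15058632) (l 15044392)))))))), by decide +kernel⟩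

def k4_pm_012_a : ∃ t, chk3 f_pm_012_a t 14 3 1 = true :=
  ⟨(b (a (b (a (c (l 15750680) (l 15801464)) (c (a (l 15580576) (l 15558624)) (a (l 15603744) (l 15516024)))) (a (c (b (a (l 15806904) (l 15685016)) (a (l 15770400) (l 15678520))) (b (l 15714520) (l 15690072))) (c (a (l 15596352) (l 15509728)) (a (l 15555176) (l 15487408))))) (c (b (a (l 15505352) (l 15440048)) (a (c (l 15475216) (l 15474216)) (c (l 15417472) (l 15415688)))) (b (a (l 15461184) (l 15394088)) (a (l 15440608) (l 15380888))))) (b (a (c (a (b (b (l 15730304) (l 15768288)) (l 15715472)) (b (a (b (l 15600584) (l 15635536)) (c (l 15558688) (l 15537808))) (a (l 15726168) (l 15655560)))) (a (b (l 15713560) (l 15831040)) (b (a (l 15577968) (l 15505856)) (a (l 15690408) (l 15617496))))) (a (c (b (b (l 15489336) (l 15526080)) (c (l 15631072) (l 15611856))) (b (l 15464208) (l 15582464))) (c (b (b (l 15436296) (l 15476560)) (c (l 15588752) (l 15568976))) (b (l 15411544) (l 15538728))))) (a (a (c (b (l 15868312) (l 16057888)) (b (l 15948120)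 (l 16040568))) (c (b (a (l 15875392) (l 15804840)) (a (l 16062456) (l 15992672))) (b (a (l 15845624) (l 15772728)) (a (l 16040184) (l 15968016))))) (c (b (a (c (l 15786448) (l 15770288)) (c (l 15754344) (l 15737768))) (a (c (l 15981072) (l 15968704)) (c (b (l 15903480) (l 16017120)) (l 15947952)))) (b (a (l 15745560) (l 15691440)) (a (c (l 15956136) (l 15943344)) (c (l 15935120) (l 15922080)))))))), by decide +kernel⟩

def k5_pm_012_a : ∃ t, chk3 f_pm_012_a t 15 6 1 = true :=
  ⟨(a (c (a (b (a (l 15379960) (l 15320912)) (c (a (c (l 15381952) (l 15377104)) (b (l 15308800) (l 15309112))) (l 15331744))) (b (c (l 15216544) (l 15225024)) (a (c (l 15229080) (l 15242272)) (c (l 15141816) (l 15169600))))) (b (a (l 15307680) (l 15197856)) (a (l 15295152) (l 15179480)))) (c (a (b (a (l 15106936) (c (l 15024176) (l 15035696))) (b (a (l 15072872) (c (l 14938720) (l 14999416))) (a (c (l 15045960) (l 15081568)) (c (c (l 14939336) (l 14926216)) (l 14988968))))) (b (a (c (l 14972432) (l 14966200)) (l 14936352))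 (a (c (b (a (l 14932888) (l 14919480)) (a (l 14916368) (b (l 14906632) (a (l 14901016) (l 14909800))))) (a (b (l 14939136) (l 14926264)) (l 14884096))) (b (b (l 14925592) (l 14900576)) (c (l 14955160) (l 14926960)))))) (a (b (c (l 15085512) (l 15070352)) (c (a (l 15098744) (l 15022384)) (l 15045984))) (b (a (c (l 14974424) (l 14977544)) (c (l 14922640) (l 14913928))) (a (c (b (l 14940616) (l 14935528)) (l 14949880)) (c (b (l 14890848) (a (l 14894584) (l 14915408))) (a (l 14899088) (b (l 14870400) (l 14900432))))))))), by decide +kernel⟩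

def k6_pm_012_a : ∃ t, chk3 f_pm_012_a t 30 7 1 = true :=
  ⟨(b (c (a (c (b (a (b (l 15346656) (c (l 15432840) (l 15429944))) (b (l 15316064) (l 15356784))) (a (c (a (l 15556448) (l 15520280)) (l 15535680)) (c (l 15454752) (l 15471248)))) (b (b (l 15342112) (l 15384672)) (l 15492480))) (b (c (b (l 15142960) (l 15160784)) (b (a (l 15249768) (l 15173568)) (a (l 15292272) (l 15215408)))) (c (a (l 15248336) (b (l 15241560) (l 15316208))) (a (c (l 15403728) (l 15401952)) (c (l 15317400) (l 15334344)))))) (b (a (c (l 15339824) (l 15315832)) (c (l 15222120) (l 15196384))) (a (c (l 15471312) (l 15449832)) (c (l 15355904) (l 15332688))))) (c (a (b (c (a (c (a (l 15726520) (l 15690496)) (l 15708136)) (c (l 15624248) (b (l 15596688) (l 15693544)))) (a (l 15695216) (l 15641240))) (c (a (c (a (b (l 15879448) (l 15995848)) (l 15818520)) (l 15922472)) (b (c (l 15777296) (l 15801144)) (c (l 15903216) (a (l 15941808) (l 15916808))))) (b (l 15826536) (a (l 15972088) (l 15930880))))) (b (c (a (b (l 15497336) (l 15594232))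 (b (a (l 15425336) (l 15384360)) (a (l 15534328) (l 15508328)))) (a (c (b (l 15531744) (l 15632056)) (l 15582616)) (c (b (l 15450688) (l 15570448)) (b (l 15470736) (l 15592840))))) (c (b (a (a (l 15729160) (l 15697808)) (l 15663944)) (a (l 15865360) (l 15822152))) (a (a (b (l 15764592) (l 15916096)) (b (l 15664512) (l 15910680))) (c (l 15735544) (b (l 15741656) (l 15907192))))))) (a (a (b (l 15668936) (l 15787552)) (b (l 15613704) (b (l 15777280) (l 15911408)))) (b (a (c (l 15568264) (l 15548880)) (c (l 15529992) (l 15510080))) (b (a (l 15739904) (l 15732784)) (c (l 15907544) (l 15894416))))))), by decide +kernel⟩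

def k7_pm_012_a : ∃ t, chk3 f_pm_012_a t 31 14 1 = true :=
  ⟨(c (a (a (a (b (b (l 15087376) (l 15126360)) (c (b (l 15168752) (l 15246984)) (l 15260040))) (b (c (b (l 15019704) (l 15056024)) (l 15080200)) (c (a (b (l 15131904) (l 15219104)) (c (b (l 15098728) (l 15194024)) (l 15171256))) (l 15073936)))) (b (c (b (c (c (l 14953208) (l 14935424)) (a (l 14961400) (l 14944592))) (a (c (l 14985264) (l 15019640)) (b (l 14946096) (l 14985888)))) (b (c (l 14978568) (l 14997320)) (a (l 15051464) (c (l 15003592) (l 15023072))))) (c (a (c (b (a (l 15084912) (l 15078560)) (l 15186360)) (b (a (l 15102944) (l 15090600)) (l 15203920))) (c (l 15128840) (l 15138448))) (a (l 15188560) (c (b (l 15098344) (l 15209456)) (l 15176776)))))) (a (b (c (b (c (a (b (l 14911248) (l 14919576)) (l 14931376)) (a (l 14921232) (l 14922248))) (a (l 14979664) (l 14996488))) (a (b (c (l 14926800) (l 14936000)) (l 14995664)) (b (l 14921392) (l 14991920)))) (c (a (b (l 15076808) (l 15185584)) (c (l 15151824) (l 15145392))) (a (c (l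 15145088) (l 15159064)) (l 15150088)))) (b (b (c (l 14995136) (l 14967760)) (c (l 15067216) (l 15041248))) (c (b (l 15170232) (l 15285104)) (b (l 15146216) (l 15263248)))))) (a (b (c (b (l 15060720) (a (l 15147048) (l 15073904))) (l 15076936)) (c (a (b (l 15220712) (l 15315904)) (c (l 15217280) (l 15235080))) (l 15243448))) (a (c (b (b (a (l 14963152) (l 14938872)) (l 15023024)) (a (l 15194944) (c (l 15165656) (l 15186392)))) (b (l 15007384) (l 15213040))) (c (b (b (l 14951880) (l 15027304)) (a (c (l 15168912) (l 15175152)) (l 15207744))) (b (a (l 14963400) (c (l 14987056) (l 14988160))) (a (l 15194064) (c (l 15196960) (l 15201280)))))))), by decide +kernel⟩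

def k8_pm_012_a : ∃ t, chk3 f_pm_012_a t 62 15 1 = true :=
  ⟨(c (b (a (c (a (b (l 15354192) (l 15485616)) (c (b (l 15317336) (l 15447648)) (l 15411928))) (b (l 15402296) (l 15539528))) (c (b (a (c (l 15304616) (l 15324496)) (l 15307952)) (a (c (l 15435480) (l 15457784)) (l 15440816))) (c (a (l 15420144) (b (l 15332848) (l 15469160))) (l 15440736)))) (a (a (b (l 15602568) (l 15743344)) (c (c (b (l 15591136) (l 15727704)) (l 15684776)) (l 15657032))) (c (a (c (b (l 15579616) (l 15716944)) (a (l 15625816) (b (l 15599568) (l 15760632)))) (b (l 15587120) (l 15747744))) (a (l 15592480) (c (b (l 15556152) (a (l 15785664) (l 15779416))) (l 15735624)))))) (b (c (a (c (l 15466656) (l 15509368)) (c (l 15473648) (l 15496280))) (l 15493360)) (b (c (a (l 15734048) (l 15669832)) (l 15726264)) (c (a (l 15820336) (c (l 15870808) (l 15900096))) (l 15900912))))), by decide +kernel⟩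

def k9_pm_012_a : ∃ t, chk3 f_pm_012_a t 63 15 1 = true :=
  ⟨(c (b (c (b (a (a (l 15306584) (l 15328480)) (l 15412440)) (a (a (l 15440456) (l 15464224)) (l 15552880))) (c (a (b (l 15326488) (l 15464112)) (l 15467400)) (a (a (b (l 15342440) (l 15481824)) (l 15407000)) (l 15312640)))) (a (c (a (b (l 15587856) (l 15749688)) (b (l 15571664) (a (l 15762776) (l 15785488)))) (a (c (l 15696048) (b (l 15635008) (l 15698056))) (b (l 15625448) (a (l 15789744) (l 15708104))))) (b (a (c (l 15673512) (l 15659800)) (b (l 15691344) (l 15760488))) (b (a (c (l 15789480) (l 15777864)) (l 15816816)) (c (l 15863512) (l 15851576)))))) (a (c (b (a (l 15455664) (c (l 15424272) (l 15450024))) (a (b (l 15685176) (l 15857544)) (b (c (l 15652320) (l 15682104)) (c (a (l 15824176) (l 15818888)) (l 15833008))))) (b (l 15482960) (b (l 15720024) (c (l 15874176) (l 15901104))))) (c (b (a (c (l 15429736) (l 15439824)) (l 15475240)) (a (b (c (l 15659688) (l 15672928)) (a (c (l 15810776) (l 15833240)) (l 15815792))) (b (l 15700496)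 (l 15822280)))) (b (a (c (l 15462424) (l 15480384)) (c (l 15468632) (a (l 15471528) (l 15476272)))) (a (c (b (l 15699392) (a (l 15867760) (l 15843248))) (b (l 15720968) (l 15877816))) (c (b (l 15697296) (l 15820912)) (b (a (l 15709784) (l 15684672)) (a (l 15840984) (l 15820200))))))))), by decide +kernel⟩

theorem s10_pm_012_a : ∃ t, chk3 f_pm_012_a t 31 15 1 = true := ex3_a k8_pm_012_a k9_pm_012_a

theorem s11_pm_012_a : ∃ t, chk3 f_pm_012_a t 31 7 1 = true := ex3_b k7_pm_012_a s10_pm_012_a

theorem s12_pm_012_a : ∃ t, chk3 f_pm_012_a t 15 7 1 = true := ex3_a k6_pm_012_a s11_pm_012_a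

theorem s13_pm_012_a : ∃ t, chk3 f_pm_012_a t 15 3 1 = true := ex3_b k5_pm_012_a s12_pm_012_a

theorem s14_pm_012_a : ∃ t, chk3 f_pm_012_a t 7 3 1 = true := ex3_a k4_pm_012_a s13_pm_012_a

theorem s15_pm_012_a : ∃ t, chk3 f_pm_012_a t 7 1 1 = true := ex3_b k3_pm_012_a s14_pm_012_a

theorem s16_pm_012_a : ∃ t, chk3 f_pm_012_a t 6 1 1 = true := ex3_b k1_pm_012_a k2_pm_012_a

theorem s17_pm_012_a : ∃ t, chk3 f_pm_012_a t 3 1 1 = true := ex3_a s16_pm_012_a s15_pm_012_a

theorem s18_pm_012_a : ∃ t, chk3 f_pm_012_a t 1 1 1 = true := ex3_a k0_pm_012_a s17_pm_012_a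

theorem c_pm_012_a : CertNX 0 536870912 0 420477299 1046898278 26843546 3 false true false .pnp 0 1 2
    ndN0q0 ndN1q2a pcN1 Cut.none Ext.none :=
  certNX2 (fam := false) (s1 := true) (s2 := false) (a := 0) (b := 1) (c := 2) (cn := .pnp) (n1 := ndN0q0) (n2 := ndN1q2a) (pc := pcN1) (cut := Cut.none) (xt := Ext.none) (P1 := 0) (W1 := 536870912) (P2 := 0) (W2 := 420477299) (P3 := 1046898278) (W3 := 26843546) (N0 := 3)
    rfl (fun _ => rfl) s18_pm_012_a

noncomputable def f_pm_012_b : ℕ → ℕ → ℕ → ℕ → Bool := onCell 536870912 536870912 1239849684 370763052 1046898278 26843546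
    (rowNX 3 2 false true false .pnp 0 1 2 (qsf 0 536870912 1239849684 370763052 1) ndN0q0 ndN1q2b pcN1 Cut.none Ext.none)

def k0_pm_012_b : ∃ t, chk3 f_pm_012_b t 1 2 1 = true :=
  ⟨(a (a (l 2) (a (b (b (c (c (l 16777216) (l 16777216)) (c (l 16777216) (l 16777216))) (l 2)) (l 2)) (b (c (c (l 16777216) (l 16777216)) (b (l 16777216) (l 16777216))) (a (l 2) (b (l 16777216) (l 2)))))) (a (a (b (a (c (b (l 16777144) (l 16777144)) (b (l 16777144) (l 16777144))) (c (b (l 16724200) (l 16726360)) (l 16713016))) (c (a (l 16777152) (l 16730240)) (a (l 16777152) (l 16728592)))) (b (a (c (b (l 16612536) (l 16618224)) (l 16609816)) (a (c (l 16521384) (l 16512408)) (c (b (l 16399008) (l 16407816)) (l 16390432)))) (a (c (l 16628528) (l 16623312)) (a (l 16535480) (a (l 16462520) (l 16372480)))))) (a (b (a (c (b (l 16042304) (l 16135536)) (b (l 16103336) (l 16113016))) (a (c (b (l 15842400) (l 15852336)) (l 15731024)) (b (b (c (l 15668944) (l 15630144)) (l 15629928)) (l 15638112)))) (a (c (l 16152848) (l 16130928))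 (c (l 15774808) (l 15739624)))) (b (a (b (b (a (c (l 15556896) (l 15514576)) (l 15541232)) (a (c (l 15457720) (l 15411448)) (c (l 15316136) (l 15265256)))) (c (l 15357424) (l 15307592))) (b (c (a (l 15342640) (l 15271104)) (a (l 15294008) (l 15242720))) (a (b (c (l 15081280) (l 15022016)) (l 15018608)) (b (c (l 14970904) (l 14908528)) (c (l 14852264) (l 14784832)))))) (a (c (b (l 15370272) (l 15385496)) (l 15287144)) (c (b (l 14954064) (l 14970792)) (b (l 14890072) (l 14907384)))))))), by decide +kernel⟩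

def k1_pm_012_b : ∃ t, chk3 f_pm_012_b t 1 3 1 = true :=
  ⟨(a (l 2) (a (a (l 2) (b (a (c (l 16645032) (l 16640392)) (a (l 16559184) (l 16444280))) (l 2))) (a (b (a (c (l 16181056) (l 16160128)) (c (l 15806232) (l 15772152))) (a (l 2) (l 15682760))) (b (a (c (l 15413208) (l 15365328)) (c (l 15001624) (l 14939296))) (a (c (l 15457824) (l 15411512)) (c (l 15051704) (l 14991136))))))), by decide +kernel⟩

theorem s2_pm_012_b : ∃ t, chk3 f_pm_012_b t 1 1 1 = true := ex3_b k0_pm_012_b k1_pm_012_b

theorem c_pm_012_b : CertNX 0 536870912 1239849684 370763052 1046898278 26843546 3 false true false .pnp 0 1 2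
    ndN0q0 ndN1q2b pcN1 Cut.none Ext.none :=
  certNX2 (fam := false) (s1 := true) (s2 := false) (a := 0) (b := 1) (c := 2) (cn := .pnp) (n1 := ndN0q0) (n2 := ndN1q2b) (pc := pcN1) (cut := Cut.none) (xt := Ext.none) (P1 := 0) (W1 := 536870912) (P2 := 1239849684) (W2 := 370763052) (P3 := 1046898278) (W3 := 26843546) (N0 := 3)
    rfl (fun _ => rfl) s2_pm_012_b

noncomputable def f_pm_022_a : ℕ → ℕ → ℕ → ℕ → Bool := onCell 0 536870912 0 420477299 1046898278 26843546
    (rowNX 3 0 false true false .pp 0 2 2 (qsf 0 536870912 0 420477299 2) ndN0q0 ndN1q2a pcN2 Cut.none Ext.none)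

def k0_pm_022_a : ∃ t, chk3 f_pm_022_a t 16 2 1 = true :=
  ⟨(b (c (a (a (l 15924016) (b (a (l 16154600) (l 16260128)) (a (l 16234344) (l 16295704)))) (b (c (l 16305760) (a (l 16306744) (l 16330936))) (c (l 16342208) (l 16171368)))) (a (c (a (l 15974704) (b (a (l 16152352) (l 16208056)) (a (l 16234352) (l 16223584)))) (a (c (l 15888080) (a (b (l 15844592) (l 15884208)) (b (l 16011656) (l 16047272)))) (b (a (c (c (l 16158680) (l 16158648)) (l 16150256)) (l 16229288)) (a (c (c (l 16241632) (l 16158096)) (l 16234168)) (l 16203488))))) (b (c (a (c (l 16320256) (l 16321672)) (l 16294968)) (l 16313328)) (c (a (c (l 16347960) (l 16349600)) (l 16358552)) (l 16351712))))) (c (a (b (a (b (l 16181528) (l 16170944)) (l 16326128)) (b (l 16160968) (l 16392776))) (b (c (l 16360248) (a (l 16369552) (l 16322928))) (a (l 16318488) (c (l 16273216) (b (l 16270592) (l 16165072)))))) (a (b (c (a (b (l 16173600) (l 16185968)) (a (l 16315096) (l 16352488))) (a (c (a (l 16164088) (b (l 16231984) (l 16294152))) (a (a (l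 16070648) (c (l 16193616) (l 16167888))) (b (l 16180936) (l 16201696)))) (a (c (b (l 16261168) (l 16332008)) (l 16316632)) (l 16354032)))) (c (a (b (l 16311960) (l 16364952)) (l 16326648)) (a (c (b (l 16271256) (l 16366816)) (a (b (a (l 16214400) (l 16302032)) (l 16279504)) (l 16352152))) (c (a (l 16236000) (l 16342824)) (l 16363664))))) (c (a (c (b (l 16356568) (l 16299824)) (b (l 16353440) (a (l 16306344) (l 16278104)))) (b (l 16187712) (c (b (l 16257352) (l 16129984)) (l 16252576)))) (b (l 16341272) (l 16276128)))))), by decide +kernel⟩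

def k1_pm_022_a : ∃ t, chk3 f_pm_022_a t 17 2 1 = true :=
  ⟨(b (c (a (a (c (l 16333048) (c (l 16296032) (b (l 16357256) (l 16338560)))) (c (c (l 16365904) (b (l 16386848) (l 16311664))) (c (b (l 16325048) (l 16328944)) (l 16369264)))) (c (b (a (c (l 16400192) (l 16262184)) (c (l 16189040) (l 16311008))) (c (a (l 16314264) (l 16214344)) (l 16124184))) (l 16299312))) (a (l 16173696) (l 16295680))) (c (a (c (b (a (l 16291472) (c (l 16257240) (l 16242784))) (a (l 16224040) (c (l 16199288) (l 16178392)))) (b (a (c (l 16264744) (l 16275104)) (c (l 16196704) (l 16285008))) (a (c (l 16174576) (a (l 16138368) (l 16214248))) (c (l 16090072) (l 16220208))))) (c (b (a (c (l 16243296) (l 16243192)) (c (a (l 16210504) (l 16286624)) (l 16308504))) (a (c (b (l 16156400) (a (l 16160344) (c (l 16172320) (l 16171920)))) (a (l 16163960) (l 16089976))) (c (b (a (c (l 16234232) (l 16245976)) (l 16205168)) (a (c (l 16195664) (l 16194120)) (l 16203560))) (b (l 16242568) (l 16052984))))) (b (l 16299152) (a (l 16219312)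 (l 16177592))))) (b (a (l 16287800) (l 16293544)) (a (l 16196576) (b (l 16227424) (l 16170872)))))), by decide +kernel⟩

def k2_pm_022_a : ∃ t, chk3 f_pm_022_a t 9 2 1 = true :=
  ⟨(b (a (a (c (c (b (a (l 16292000) (l 16163728)) (a (l 16388992) (l 16258064))) (b (l 16281600) (l 16356840))) (b (l 16254672) (l 16312104))) (c (b (c (l 16265840) (l 16301984)) (c (a (l 16271560) (l 16118504)) (a (l 16252656) (l 16112808)))) (l 16146352))) (c (a (c (l 15724512) (b (l 15964248) (c (l 15886664) (l 15882632)))) (b (l 15769976) (l 15595520))) (a (b (l 16033600) (l 15844784)) (c (b (l 15747512) (a (l 15635280) (l 15504408))) (l 15641488))))) (a (c (a (b (a (c (b (l 16358144) (l 16257680)) (l 16299992)) (c (c (l 16266784) (l 16172880)) (l 16232968))) (c (a (b (l 16124376) (c (l 16157816) (l 16147976))) (b (l 16098032) (l 15978672))) (a (l 16092200) (c (b (l 16126512) (l 16024920)) (l 16061152))))) (c (b (a (l 15910936) (l 15953792)) (b (l 15898984) (l 15804200))) (b (b (l 16001248) (l 15791312)) (c (a (b (l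 15981920) (l 15894144)) (l 15768384)) (b (l 15845208) (a (l 15879848) (l 15722440))))))) (a (b (a (l 16294272) (l 16223184)) (l 16052800)) (b (l 15995080) (c (c (l 15724464) (l 15815424)) (l 15805464))))) (c (b (a (c (l 15717232) (c (l 15711416) (a (l 15789312) (l 15624392)))) (l 15410808)) (a (c (l 15523984) (b (l 15479688) (l 15465864))) (l 14999096))) (c (b (a (l 15565424) (c (l 15155368) (a (l 15444064) (l 15309456)))) (a (c (a (l 15402504) (b (l 15469608) (l 15369512))) (b (l 15542296) (l 15441560))) (c (l 15182840) (a (b (l 15290024) (l 15185968)) (l 15101752))))) (a (l 15530248) (b (l 15360840) (c (a (l 15227648) (b (l 15141144) (l 15032592))) (l 15139056)))))))), by decide +kernel⟩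

def k3_pm_022_a : ∃ t, chk3 f_pm_022_a t 5 2 1 = true :=
  ⟨(a (a (b (c (b (b (a (l 15597904) (l 15375616)) (l 15397616)) (l 15257888)) (b (b (a (l 15435136) (l 15267768)) (c (l 15365528) (l 15258704))) (c (a (l 15337088) (l 15106032)) (a (l 15312704) (l 15058088))))) (c (b (l 15061736) (l 14851888)) (b (c (l 14917040) (a (c (l 14993184) (l 15103584)) (l 14744880))) (c (l 14806336) (a (c (a (l 14965448) (l 14843112)) (b (l 14943504) (l 14705200))) (l 14647952)))))) (b (l 1) (l 1))) (l 1)), by decide +kernel⟩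

def k4_pm_022_a : ∃ t, chk3 f_pm_022_a t 16 6 2 = true :=
  ⟨(b (a (b (l 16353216) (l 16213184)) (a (b (l 16246904) (l 16199576)) (b (c (l 16211728) (l 16125984)) (c (l 16182184) (l 16093520))))) (a (b (a (l 16264048) (l 16201128)) (a (l 16195944) (c (b (l 16171968) (l 16155584)) (l 16154904)))) (c (b (c (a (l 16180104) (c (b (l 16179008) (l 16147040)) (l 16156480))) (l 16155088)) (c (b (a (l 16121080) (c (a (l 16186312) (l 16186224)) (a (l 16139984) (l 16140776)))) (a (c (a (l 16161176) (l 16182160)) (l 16139552)) (a (c (b (l 16191184) (l 16187272)) (l 16119008)) (c (l 16161704) (l 16134472))))) (a (l 16133888) (b (a (l 16118560) (l 16058264)) (a (c (l 16039384) (l 16088896)) (c (l 16088656) (l 16057864))))))) (a (l 16138416) (b (c (l 16121400) (l 16088120)) (a (l 16055488) (c (l 16051992) (b (l 16046912) (l 16008240))))))))), by decide +kernel⟩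

def k5_pm_022_a : ∃ t, chk3 f_pm_022_a t 16 6 3 = true :=
  ⟨(a (c (b (a (l 16359960) (c (l 16261120) (l 16125112))) (a (b (l 16256392) (l 16185904)) (a (l 16071400) (a (l 16151320) (l 16124240))))) (b (a (c (l 16292280) (a (c (l 16375464) (l 16208080)) (c (l 16228400) (l 16331104)))) (c (a (c (l 16287944) (l 16243896)) (b (l 16275080) (l 16209624))) (l 16269136))) (a (c (b (l 16228816) (l 16136088)) (c (a (l 16128568) (b (l 16181904) (l 16074560))) (a (b (a (l 16262736) (l 16260480)) (a (l 16151992) (l 16178024))) (l 16193464)))) (c (a (c (l 16059288) (b (l 16181400) (l 16134376))) (b (l 16154872) (l 16116016))) (l 16154056))))) (b (c (a (c (b (l 16225816) (l 16176816)) (c (a (l 16203552) (l 16140120)) (a (l 16145744) (l 16194944)))) (c (a (b (l 16172672) (l 16139840)) (l 16130968)) (l 16172864))) (l 16106904)) (c (a (c (b (l 16138784) (l 16098264)) (a (c (l 16113608) (l 16118424)) (c (l 16102472) (l 16115424)))) (b (c (c (l 16097616) (l 16105024)) (l 16116192)) (c (a (c (l 16028536) (b (l 16075600)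 (l 16047416))) (c (b (l 16057936) (l 16019112)) (l 16054888))) (l 16061768)))) (b (l 16123200) (a (l 16095408) (l 16054984)))))), by decide +kernel⟩

def k6_pm_022_a : ∃ t, chk3 f_pm_022_a t 17 12 2 = true :=
  ⟨(a (c (c (b (a (l 16193400) (b (l 16167064) (l 16106872))) (a (c (l 16115224) (l 16159624)) (b (a (l 16170264) (l 16119576)) (a (l 16030744) (l 16112680))))) (a (l 16149152) (b (l 16125144) (a (b (l 16092840) (l 16071224)) (c (b (l 16072840) (l 16050264)) (l 16065008)))))) (a (c (l 16128816) (a (l 16072432) (l 16148808))) (c (b (l 16036328) (a (c (l 16083968) (l 16115528)) (l 16100920))) (l 16055192)))) (c (a (b (c (a (b (l 16109536) (l 16026920)) (c (l 16125168) (l 16136736))) (a (c (l 16116816) (l 16145232)) (c (l 16147048) (l 16140104)))) (c (c (l 15997576) (a (l 16071992) (l 16065528))) (c (a (l 16075080) (l 16091272)) (a (l 16081504) (l 16084672))))) (c (c (a (l 16062824) (l 16055192)) (b (l 16117032) (l 16041912))) (b (l 16043496) (b (l 16070624) (l 16027848))))) (b (a (l 16141432)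 (l 16088624)) (c (a (l 16068168) (c (l 16010216) (l 16006840))) (l 16027176))))), by decide +kernel⟩

def k7_pm_022_a : ∃ t, chk3 f_pm_022_a t 34 13 2 = true :=
  ⟨(c (b (b (a (c (a (l 16138024) (c (l 16190120) (l 16141056))) (l 16037688)) (c (l 16013448) (a (l 15982424) (c (l 16031784) (l 16014200))))) (a (c (a (c (l 16187984) (l 16143592)) (l 16079208)) (a (l 16096536) (l 16059448))) (c (l 16055376) (c (a (l 16042944) (l 16003488)) (a (l 15989560) (l 15996664)))))) (c (a (b (a (l 16081472) (l 16105376)) (c (l 16082280) (l 16015736))) (l 15818048)) (c (a (b (a (l 16088392) (l 16061920)) (a (l 16075440) (l 16034912))) (a (l 15925816) (b (l 15961184) (l 15898872)))) (a (b (l 16009216) (a (l 16021000) (l 15988208))) (a (b (c (l 15979656) (l 15951120)) (l 15901736)) (b (l 15966760) (l 15928144))))))) (c (c (a (b (l 15949472) (b (l 15999984) (l 15918800))) (b (a (l 16011816) (l 16017688)) (a (b (l 15950672) (c (l 15925408) (l 15919072))) (b (c (l 15976920) (l 15966336)) (c (l 15952896) (l 15949720))))))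 (a (b (a (l 16059728) (l 16041200)) (l 15870408)) (b (l 16031432) (a (l 15933432) (l 15944736))))) (a (b (a (c (l 16064056) (l 16088872)) (l 15989456)) (a (c (l 15990672) (l 16015648)) (l 15987184))) (l 15802424)))), by decide +kernel⟩

def k8_pm_022_a : ∃ t, chk3 f_pm_022_a t 35 13 2 = true :=
  ⟨(c (c (a (b (a (l 15939400) (l 15916008)) (a (c (l 15851120) (l 15854720)) (c (l 15748312) (l 15828392)))) (c (a (l 15773640) (b (l 15887160) (l 15779912))) (a (b (l 15942992) (l 15822976)) (l 15853824)))) (b (a (c (a (l 15985248) (l 16007600)) (a (b (l 16044008) (l 16014040)) (l 16014560))) (l 15878512)) (a (c (a (l 15895832) (l 15881056)) (a (b (l 15976368) (l 15918352)) (l 15910496))) (l 15829112)))) (b (c (a (c (a (l 16011344) (l 15975752)) (l 15982368)) (c (l 15887032) (b (l 15958536) (l 15920160)))) (a (l 15969264) (c (l 15819032) (l 15900368)))) (c (a (c (b (l 15953920) (l 15909824)) (b (l 15872632) (a (l 15913712) (l 15887392)))) (b (l 15872176) (l 15810904))) (a (c (b (l 15906080) (a (l 15878488)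 (l 15866744))) (l 15874744)) (b (c (l 15841904) (l 15846600)) (c (l 15818008) (a (l 15820552) (l 15792152)))))))), by decide +kernel⟩

def k9_pm_022_a : ∃ t, chk3 f_pm_022_a t 17 6 3 = true :=
  ⟨(b (a (a (l 16152664) (b (l 16158176) (l 16104376))) (b (l 16100672) (l 16015256))) (a (b (a (a (l 16093144) (l 16071816)) (l 16025360)) (l 15902360)) (c (b (l 15926384) (c (l 15835760) (l 15825080))) (l 15865272)))), by decide +kernel⟩

def k10_pm_022_a : ∃ t, chk3 f_pm_022_a t 32 14 2 = true :=
  ⟨(b (c (c (b (a (l 16164552) (c (a (l 16151248) (l 16157120)) (l 16135912))) (a (c (a (l 16190200) (l 16163488)) (l 16179120)) (c (a (l 16170496) (b (l 16188800) (l 16228864))) (a (l 16159888) (b (l 16143120) (l 16174736)))))) (b (l 16145336) (l 16097456))) (b (l 16139040) (l 16153528))) (b (c (c (a (c (a (b (l 16225992) (l 16259392)) (l 16191496)) (a (l 16227456) (l 16197088))) (a (c (b (l 16251664) (a (l 16292208) (l 16276000))) (b (l 16200080) (a (l 16231608) (l 16238920)))) (b (c (a (l 16265328) (l 16262400))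 (l 16189912)) (c (l 16259760) (l 16248080))))) (a (l 16215816) (b (a (l 16179472) (a (l 16168064) (l 16118784))) (c (a (l 16182144) (l 16195960)) (l 16121488))))) (a (l 16210776) (a (l 16183296) (l 16158712)))) (c (a (c (c (a (b (l 16300600) (l 16352240)) (b (l 16321432) (a (l 16344560) (b (l 16359952) (l 16374192))))) (a (b (l 16264664) (l 16278272)) (b (l 16203176) (a (l 16282480) (l 16311664))))) (a (l 16268856) (b (l 16239112) (c (a (l 16268576) (l 16189872)) (l 16258096))))) (c (a (b (c (a (b (l 16324864) (l 16340448)) (l 16321704)) (a (l 16273984) (l 16282496))) (c (l 16340720) (l 16316264))) (c (l 16291048) (b (l 16277952) (l 16299728)))) (a (c (b (a (l 16209112) (l 16226160)) (l 16262432)) (b (l 16214400) (l 16231784))) (c (b (l 16228432) (l 16266904)) (b (l 16190208) (l 16216328)))))) (a (l 16232632) (a (l 16217400) (l 16185120)))))), by decide +kernel⟩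

def k11_pm_022_a : ∃ t, chk3 f_pm_022_a t 33 14 4 = true :=
  ⟨(b (a (b (c (a (c (l 16156168) (l 16130224)) (c (b (l 16187440) (a (l 16190328) (l 16183008))) (b (l 16135600) (l 16143056)))) (a (l 16109064) (b (l 16098464) (a (l 16092128) (l 16081464))))) (c (a (b (c (a (l 16206760) (l 16208288)) (l 16152848)) (c (a (l 16234632) (l 16223640)) (l 16188224))) (c (l 16186960) (l 16168008))) (a (c (b (l 16116720) (l 16096728)) (l 16113936)) (c (c (l 16138856) (l 16109096)) (l 16088200))))) (c (b (c (a (l 16117200) (l 16108336)) (a (l 16134256) (l 16107152))) (c (l 16106752) (l 16049560))) (b (c (a (l 16087824) (l 16077128)) (a (l 16054680) (l 16030176))) (c (a (l 16091936) (l 16086344)) (a (l 16066768) (c (l 16066024) (l 16043792))))))) (c (a (b (c (l 16210264) (a (b (l 16216384) (l 16238368)) (l 16197048))) (a (l 16201856) (l 16191360))) (b (l 16105056) (l 16102016))) (a (b (c (a (b (l 16164824) (l 16201016)) (l 16090608)) (a (l 16145048) (l 16089072))) (c (a (b (l 16230216) (l 16256128)) (b (l 16209464)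 (l 16219216))) (a (c (l 16192856) (l 16184496)) (b (l 16177072) (l 16205088))))) (b (c (a (l 16125376) (l 16096936)) (a (b (l 16107544) (l 16131864)) (b (l 16086296) (l 16100792)))) (c (l 16123872) (a (b (l 16154016) (l 16167912)) (l 16106160))))))), by decide +kernel⟩

def k12_pm_022_a : ∃ t, chk3 f_pm_022_a t 33 14 5 = true :=
  ⟨(b (a (b (a (l 16096928) (l 16068200)) (a (l 16103128) (l 16064672))) (c (b (l 16012992) (c (a (l 16037728) (l 16003320)) (l 15997904))) (a (l 16006584) (c (l 15953792) (l 15952952))))) (c (a (b (l 16112296) (c (a (l 16142424) (b (l 16125808) (l 16156792))) (l 16133160))) (b (c (a (l 16072536) (c (l 16065176) (b (l 16016648) (l 16050648)))) (a (l 16044400) (l 15996968))) (c (a (b (l 16054848) (l 16143384)) (b (l 16087696) (l 16105688))) (a (b (l 16066912) (l 16092680)) (c (b (l 16049200) (l 16080456)) (b (l 16010984) (l 16048296))))))) (a (l 16104768) (a (l 16029216) (b (l 15967608) (c (l 15951808) (l 15984664))))))), by decide +kernel⟩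

def k13_pm_022_a : ∃ t, chk3 f_pm_022_a t 32 30 4 = true :=
  ⟨(c (a (b (a (b (c (a (l 16398816) (c (l 16377080) (l 16395064))) (a (l 16336528) (l 16301248))) (c (a (b (l 16416392) (l 16414496)) (l 16415040)) (a (l 16343760) (l 16394776)))) (b (c (c (l 16396072) (l 16327152)) (l 16332456)) (c (l 16405144) (l 16328152)))) (c (a (b (l 16439384) (l 16472936)) (l 16412760)) (a (b (l 16393920) (c (l 16460640) (l 16449576))) (b (l 16356088) (l 16436376))))) (b (c (l 16321432) (a (b (l 16303848) (l 16366104)) (l 16313472))) (l 16314176))) (c (a (b (a (b (a (l 16310568) (l 16282560)) (a (c (l 16301784) (l 16333808)) (l 16315880))) (b (a (l 16225400) (l 16296600)) (l 16339728))) (a (b (l 16317608) (c (l 16445696) (l 16410816))) (b (l 16364864) (c (l 16417304) (l 16420936))))) (b (a (b (l 16264656) (l 16342408)) (b (l 16299640) (l 16303456))) (a (b (c (l 16384832) (l 16373968)) (l 16397144)) (l 16340952)))) (b (a (a (l 16313616) (b (l 16276984) (l 16300600))) (a (b (l 16256568) (l 16269624)) (b (l 16251424)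 (l 16251616)))) (a (a (b (l 16348352) (c (l 16384640) (l 16369728))) (b (c (l 16339992) (l 16320632)) (c (l 16391680) (l 16359528)))) (a (b (c (l 16349392) (l 16316448)) (l 16313128)) (b (l 16265256) (l 16313256))))))), by decide +kernel⟩

def k14_pm_022_a : ∃ t, chk3 f_pm_022_a t 32 31 4 = true :=
  ⟨(c (a (b (a (b (l 16412496) (l 16496528)) (l 16433688)) (l 16417120)) (b (l 16328704) (l 16312848))) (b (a (c (a (b (c (l 16449120) (l 16467408)) (a (l 16460800) (l 16488800))) (b (c (l 16459720) (l 16436616)) (l 16472856))) (a (b (c (l 16433040) (l 16385816)) (c (l 16470264) (l 16457688))) (b (c (l 16441504) (l 16413616)) (c (l 16436568) (l 16443048))))) (c (l 16380304) (a (b (c (l 16419504) (l 16390024)) (l 16433888)) (l 16373624)))) (a (a (c (a (l 16495080) (l 16530880)) (b (c (l 16474504) (l 16475192)) (c (l 16545880) (c (l 16505672) (l 16500448))))) (c (l 16484688) (b (c (l 16499312) (l 16459056)) (l 16514376)))) (l 16366456)))), by decide +kernel⟩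

def k15_pm_022_a : ∃ t, chk3 f_pm_022_a t 32 15 5 = true :=
  ⟨(b (a (b (a (l 16289352) (l 16281720)) (c (c (a (l 16354896) (l 16284912)) (l 16337392)) (l 16335512))) (c (b (c (a (l 16253080) (b (l 16215608) (l 16244264))) (l 16234088)) (c (a (b (l 16289480) (c (l 16335544) (l 16312168))) (b (c (l 16297256) (l 16266280)) (c (l 16341472) (l 16316040)))) (a (l 16288896) (b (l 16248296) (l 16217248))))) (l 16248968))) (c (a (b (b (c (a (l 16390920) (c (l 16381296) (l 16362168))) (l 16370840)) (c (a (c (l 16389208) (l 16416152)) (c (l 16437608) (l 16405360))) (l 16315752))) (c (a (b (c (l 16463872) (l 16415880)) (a (c (l 16547200) (l 16488984)) (l 16467576))) (b (c (l 16446488) (l 16442672)) (c (l 16483080) (l 16441328)))) (b (a (l 16441448) (c (l 16410824) (l 16412096))) (a (c (a (l 16464496) (l 16462256)) (l 16471000)) (c (l 16449800) (l 16418800)))))) (b (c (a (b (c (l 16388464) (l 16356944)) (c (l 16411200) (l 16411136))) (b (c (l 16375904) (l 16360936)) (l 16350184))) (a (b (l 16288392) (c (l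 16380704) (l 16357088))) (b (c (l 16336824) (l 16306048)) (c (l 16382312) (l 16338632))))) (a (c (b (c (l 16459928) (l 16413128)) (l 16476160)) (b (c (l 16435864) (l 16406912)) (c (l 16416744) (l 16441664)))) (c (l 16411656) (b (c (l 16417072) (l 16384600)) (l 16414096)))))) (a (b (l 16381360) (a (l 16451872) (c (b (l 16403856) (l 16354480)) (l 16417040)))) (b (c (a (l 16332120) (b (l 16288032) (c (l 16329104) (l 16312328)))) (l 16311640)) (c (a (b (c (l 16361904) (l 16370592)) (c (a (l 16431768) (l 16437880)) (l 16369088))) (b (c (b (l 16366368) (l 16396288)) (l 16312200)) (c (a (l 16438640) (l 16430000)) (a (l 16407200) (l 16409808))))) (a (l 16383424) (b (l 16334640) (c (a (l 16381112) (l 16376720)) (l 16362976))))))))), by decide +kernel⟩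

def k16_pm_022_a : ∃ t, chk3 f_pm_022_a t 33 15 4 = true :=
  ⟨(b (a (c (b (l 16219240) (l 16208024)) (b (c (a (l 16274808) (l 16220400)) (a (b (l 16250656) (l 16237984)) (b (l 16226600) (l 16238616)))) (a (c (l 16283392) (l 16259760)) (l 16232136)))) (c (b (l 16108888) (l 16127176)) (b (l 16130296) (l 16118736)))) (a (b (c (l 16230016) (l 16212464)) (c (l 16287120) (a (l 16325272) (l 16273616)))) (b (c (l 16158232) (l 16119016)) (c (l 16200184) (l 16196896))))), by decide +kernel⟩

def k17_pm_022_a : ∃ t, chk3 f_pm_022_a t 33 30 5 = true :=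
  ⟨(b (c (a (c (b (a (l 16180648) (c (l 16208728) (l 16177840))) (a (c (l 16254536) (l 16223184)) (l 16203456))) (a (l 16166768) (b (l 16144744) (c (l 16193592) (l 16162120))))) (c (a (b (l 16168864) (l 16185368)) (l 16114456)) (a (b (c (l 16142496) (l 16108944)) (c (l 16176480) (l 16150696))) (b (l 16088768) (l 16109640))))) (a (l 16063368) (c (a (c (l 16018616) (l 16079632)) (c (b (l 16049064) (l 16081312)) (b (l 16011392) (l 16051720)))) (a (l 16058472) (c (a (l 16015336) (l 15938376)) (l 16013752)))))) (c (a (c (a (b (c (l 16293352) (l 16269440)) (c (l 16318616) (l 16309096))) (b (l 16248552) (l 16262040))) (a (b (c (l 16238216) (l 16216080)) (c (l 16286072) (l 16255088))) (b (c (l 16231976) (l 16207368)) (l 16166512)))) (c (l 16153600) (a (b (c (l 16198760) (l 16185448)) (l 16205432)) (l 16121032)))) (a (c (a (l 16197304) (c (b (l 16176088) (l 16223040)) (l 16073632))) (l 16182824)) (c (a (b (c (l 16158776) (l 16122272)) (c (l 16194120) (l 16166664))) (b (c (l 16109512) (l 16084432)) (l 16073584)))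 (a (b (l 16087744) (l 16077072)) (c (a (b (l 16056704) (l 16102808)) (b (l 16055952) (l 16094304))) (a (b (l 16039200) (l 16073400)) (b (l 16048312) (l 16093488))))))))), by decide +kernel⟩

def k18_pm_022_a : ∃ t, chk3 f_pm_022_a t 33 31 5 = true :=
  ⟨(c (a (b (c (a (l 16270264) (l 16268032)) (a (b (c (l 16305304) (l 16304296)) (c (l 16352080) (l 16323872))) (b (l 16276296) (l 16290288)))) (b (a (l 16333112) (l 16286600)) (l 16289632))) (b (a (l 16207040) (l 16130416)) (a (l 16207608) (l 16158088)))) (a (b (c (a (b (c (l 16273856) (l 16251488)) (c (l 16324104) (l 16294736))) (b (c (l 16262680) (a (l 16235664) (l 16234416))) (c (l 16295240) (l 16280272)))) (a (l 16171992) (b (c (l 16207176) (l 16187656)) (c (a (l 16256024) (l 16249952)) (l 16201960))))) (c (a (b (c (l 16343792) (l 16324648)) (c (l 16389648) (l 16344216))) (b (l 16267528) (l 16322832))) (a (b (c (a (l 16317664) (l 16317608)) (l 16295048)) (c (a (l 16375864) (l 16367648)) (a (l 16343264) (l 16342504)))) (b (c (l 16213856) (a (l 16276624)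 (l 16264152))) (c (l 16308880) (a (l 16331520) (l 16306792))))))) (c (b (a (b (c (l 16217536) (l 16202448)) (l 16224432)) (l 16125616)) (a (l 16235680) (l 16144368))) (b (a (b (c (l 16153896) (l 16138728)) (c (l 16210912) (a (l 16196736) (l 16175232)))) (c (a (l 16145456) (l 16118480)) (a (b (l 16120768) (l 16115856)) (l 16139176)))) (a (b (c (l 16234040) (l 16199832)) (l 16242304)) (a (l 16172232) (l 16147984))))))), by decide +kernel⟩

def k19_pm_022_a : ∃ t, chk3 f_pm_022_a t 16 14 3 = true :=
  ⟨(a (c (b (a (l 16155816) (c (l 16120680) (b (l 16100944) (l 16030336)))) (a (b (l 16203752) (l 16247200)) (a (b (l 16170560) (l 16205072)) (c (l 16096568) (b (a (l 16139816) (l 16123152)) (l 16159808)))))) (a (a (c (b (l 16158848) (l 16231024)) (c (b (l 16154584) (l 16227096)) (b (a (c (l 16158352) (l 16157952)) (l 16150360)) (a (c (l 16231656) (l 16231392)) (l 16222592))))) (c (b (l 16137264) (b (l 16184736) (a (l 16235832) (l 16219416)))) (b (c (b (l 16126504) (l 16120896)) (l 16131168)) (c (a (c (l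 16207320) (l 16205880)) (b (l 16171672) (l 16213808))) (l 16200368))))) (b (c (a (c (l 16112808) (b (l 16102160) (l 16116208))) (b (l 16082048) (l 16052704))) (l 16101296)) (c (a (c (b (l 16157576) (l 16192280)) (b (a (l 16158224) (l 16147000)) (a (l 16174768) (l 16179072)))) (b (c (a (l 16129648) (l 16116112)) (l 16131448)) (l 16152120))) (b (l 16141480) (l 16173392)))))) (c (a (c (b (b (a (l 16073632) (c (l 16039176) (l 16029768))) (a (l 16079616) (l 16044536))) (c (l 16091168) (a (l 16106816) (l 16054056)))) (b (a (b (c (l 16056608) (l 16061264)) (c (l 16062424) (a (l 16071448) (l 16068264)))) (b (c (a (l 16041520) (l 16042800)) (l 16051016)) (l 16034552))) (c (a (l 16095320) (l 16062680)) (a (l 16100272) (l 16076128))))) (b (c (c (a (l 15907304) (b (l 15972800) (l 15962760))) (b (l 15951192) (l 15983432))) (l 15999104)) (c (c (a (l 16013528) (l 15926160)) (a (l 16004648) (l 16006944))) (l 16021624)))) (b (a (b (l 16055512) (l 16056752)) (l 15991280)) (l 16051264)))), by decide +kernel⟩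

def k20_pm_022_a : ∃ t, chk3 f_pm_022_a t 32 15 3 = true :=
  ⟨(c (a (b (b (a (l 16304984) (l 16275576)) (l 16331512)) (l 16384232)) (b (c (l 16241944) (a (l 16253120) (l 16125304))) (c (l 16311432) (a (l 16344856) (c (l 16299976) (a (l 16300848) (l 16273496))))))) (a (c (b (b (a (l 16300808) (l 16266608)) (l 16303624)) (a (l 16419672) (c (l 16382904) (l 16335176)))) (b (a (c (b (l 16255288) (l 16341296)) (b (a (c (l 16304352) (b (l 16292120) (l 16295920))) (c (l 16205408) (l 16287848))) (a (c (l 16349712) (l 16349680)) (l 16333680)))) (c (a (c (l 16290328) (l 16247072)) (l 16269560)) (l 16281112))) (a (c (l 16395696) (a (c (l 16425568) (a (l 16388448) (l 16421800))) (c (l 16301640) (l 16405232)))) (c (a (c (l 16384984) (l 16362856)) (l 16321448)) (l 16375856))))) (c (a (c (b (l 16243792) (l 16272912)) (b (c (l 16217528) (l 16241208)) (c (a (l 16338504) (l 16320952)) (l 16291696)))) (b (c (c (l 16197600) (l 16201848)) (l 16208208)) (c (c (a (l 16293528) (l 16280344)) (l 16229456)) (l 16299176))))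 (b (l 16224632) (l 16316840))))), by decide +kernel⟩

def k21_pm_022_a : ∃ t, chk3 f_pm_022_a t 33 15 3 = true :=
  ⟨(c (c (a (b (c (l 16150392) (a (l 16166944) (l 16112352))) (c (b (l 16170584) (a (b (l 16280400) (c (l 16298808) (l 16305960))) (b (c (l 16217848) (l 16215224)) (c (a (l 16296464) (l 16279016)) (l 16234336))))) (a (l 16254848) (b (l 16172944) (a (l 16229624) (c (l 16182432) (l 16212200))))))) (b (c (a (l 16070056) (c (b (l 16025160) (a (l 16065104) (b (l 16057824) (l 16087648)))) (l 16060120))) (a (c (l 16079608) (l 16095944)) (l 16063064))) (c (b (a (c (a (l 16143176) (b (l 16102520) (l 16145424))) (a (l 16129864) (l 16127472))) (c (a (b (l 16111320) (l 16159744)) (b (l 16113400) (l 16152192))) (a (b (l 16117184) (l 16155424)) (b (l 16114208) (l 16162160))))) (a (c (a (b (l 16209624) (l 16253496)) (b (c (l 16198760) (l 16190976)) (l 16225752))) (a (b (l 16134776) (b (l 16213136) (l 16243040))) (b (l 16127536) (l 16234144)))) (c (a (l 16181000) (l 16197512)) (a (b (c (l 16210072)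 (l 16205144)) (l 16219504)) (l 16207664))))) (b (a (c (l 16139128) (l 16155912)) (l 16085760)) (a (c (a (b (l 16178984) (l 16217080)) (b (l 16186608) (c (l 16240064) (l 16230952)))) (a (l 16213312) (l 16205360))) (b (c (a (l 16186856) (l 16184176)) (l 16166512)) (c (l 16204488) (a (l 16197848) (l 16208064))))))))) (a (b (c (a (l 16155416) (c (l 16118160) (l 16132072))) (a (a (l 16166448) (l 16159216)) (l 16135488))) (c (a (a (l 16252608) (l 16228776)) (c (a (l 16208096) (l 16207424)) (l 16219024))) (a (a (c (l 16250056) (l 16264392)) (l 16247528)) (l 16222808)))) (b (l 16078736) (b (l 16138520) (c (a (l 16209232) (b (l 16155792) (l 16189544))) (l 16187048)))))) (b (l 16110392) (l 16050936))), by decide +kernel⟩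

def k22_pm_022_a : ∃ t, chk3 f_pm_022_a t 17 14 4 = true :=
  ⟨(a (b (a (c (b (l 16018904) (l 15986632)) (b (c (a (l 16007064) (l 15990688)) (a (c (l 16020368) (l 15986720)) (l 15959720))) (c (l 15997488) (a (l 15995760) (l 15953848))))) (c (b (l 15871832) (l 15844424)) (c (b (l 15869344) (l 15771904)) (b (a (c (l 15906512) (l 15882208)) (l 15867280)) (a (l 15875456) (l 15830200)))))) (b (c (a (l 15981384) (l 15845440)) (a (a (l 16029336) (l 15947368)) (a (l 15843424) (c (l 15790744) (l 15820888))))) (c (a (l 15985400) (l 15856256)) (a (l 15984432) (a (c (l 15866248) (l 15858880)) (c (l 15800336) (l 15824336))))))) (b (a (a (c (c (l 15751088) (b (l 15735536) (l 15733584))) (c (b (l 15792304) (l 15763608)) (b (l 15847680) (l 15813432)))) (c (c (b (l 15705736) (l 15686344)) (b (l 15737000) (l 15717824))) (c (b (l 15782976) (l 15760424)) (l 15794376)))) (c (c (a (b (l 15695968) (l 15676240)) (b (l 15656600) (a (l 15684736) (l 15659408)))) (a (b (l 15738632) (l 15719320)) (l 15703448))) (b (l 15735536)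 (l 15713816)))) (c (a (a (c (l 15753088) (a (l 15752712) (c (l 15723240) (l 15732728)))) (c (b (a (l 15675984) (l 15679216)) (a (l 15688592) (l 15693472))) (l 15708472))) (c (a (l 15692008) (c (l 15695696) (l 15708480))) (a (b (c (l 15699728) (l 15734832)) (a (l 15744728) (l 15741424))) (l 15711088)))) (a (a (c (l 15772088) (b (l 15810648) (l 15820616))) (c (a (l 15777280) (l 15771392)) (l 15787144))) (l 15728120))))), by decide +kernel⟩

def k23_pm_022_a : ∃ t, chk3 f_pm_022_a t 34 14 5 = true :=
  ⟨(c (a (b (c (b (a (l 15948824) (c (l 15923424) (l 15890816))) (a (c (l 15982480) (l 15946912)) (c (l 15935912) (l 15913096)))) (b (a (l 15916936) (c (l 15880080) (l 15888984))) (a (l 15913296) (c (a (l 15887736) (l 15897672)) (l 15891272))))) (c (b (a (l 15961672) (c (l 15947064) (l 15920952))) (a (l 16026592) (l 15940952))) (a (b (c (l 15948616) (l 15935120)) (c (l 16011680) (b (l 15978608) (l 16006320)))) (b (a (b (l 15884440) (l 15949504)) (l 15918616)) (c (l 15956120) (l 15931824)))))) (b (c (a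 (b (c (a (l 15900896) (l 15904432)) (l 15903896)) (c (l 15891960) (l 15909768))) (b (c (l 15910664) (l 15920880)) (l 15887160))) (b (a (c (l 15903536) (l 15899472)) (b (l 15911528) (l 15897576))) (a (c (l 15900576) (a (l 15915792) (l 15921104))) (l 15902808)))) (c (a (a (l 15896072) (l 15885760)) (a (l 15881696) (l 15827320))) (a (b (c (l 15940736) (a (l 15961480) (l 15951640))) (l 15944384)) (l 15901120))))) (b (a (c (a (l 15915408) (b (l 15913224) (l 15904368))) (a (l 15940592) (l 15919064))) (b (l 15879592) (c (a (l 15896072) (c (l 15889536) (l 15874920))) (l 15864984)))) (a (c (a (b (c (l 15879304) (l 15927608)) (c (a (l 15966760) (b (l 15948224) (l 15986640))) (a (l 15952680) (l 15968152)))) (b (c (a (l 15929040) (l 15951952)) (l 15914232)) (c (a (l 15986600) (l 15997072)) (a (b (l 15966912) (l 16004112)) (l 15988992))))) (c (b (l 15915528) (a (l 15970680) (b (l 15953888) (l 15988528)))) (a (l 15969648) (l 15942128)))) (b (c (a (b (l 15929376) (l 15946808)) (l 15906032)) (a (l 15902912) (c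 (l 15893568) (l 15880288)))) (c (a (l 15964824) (l 15916728)) (a (b (c (l 15945984) (l 15920792)) (l 15959496)) (b (l 15912352) (l 15926360)))))))), by decide +kernel⟩

def k24_pm_022_a : ∃ t, chk3 f_pm_022_a t 35 14 5 = true :=
  ⟨(b (c (b (a (c (l 15847664) (l 15852208)) (l 15749888)) (a (l 15820704) (l 15720808))) (a (b (c (a (b (l 15863528) (l 15848064)) (l 15828064)) (a (l 15821880) (b (l 15805384) (l 15799040)))) (c (l 15787424) (a (b (l 15818128) (l 15840576)) (l 15805312)))) (b (c (l 15755400) (a (l 15780056) (l 15745392))) (c (l 15732856) (l 15731648))))) (a (c (l 15820744) (b (c (l 15829192) (a (b (l 15854152) (l 15866640)) (l 15817824))) (l 15792336))) (c (l 15728368) (l 15741424)))), by decide +kernel⟩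

def k25_pm_022_a : ∃ t, chk3 f_pm_022_a t 17 30 2 = true :=
  ⟨(a (c (c (a (b (l 16000088) (l 16025456)) (b (l 15875056) (l 15902824))) (a (b (l 15927200) (l 15944336)) (a (c (l 15894952) (a (l 15895224) (l 15864296))) (b (c (l 15817400) (l 15840880)) (c (a (l 15852520) (l 15827176)) (l 15864872)))))) (c (a (a (b (a (l 16046784) (l 16001272)) (l 16031000)) (c (b (l 15937976) (l 15949976)) (b (l 15967872) (a (l 15974216) (l 15962264))))) (a (c (b (a (l 15892336) (l 15886824)) (l 15912448)) (b (c (l 15932048) (l 15954528)) (c (l 15946832) (l 15964976)))) (c (b (l 15882424) (l 15843280)) (l 15913752)))) (a (c (a (b (c (a (l 16029152) (l 16016000)) (a (b (l 15996152) (l 16036864)) (l 16030864))) (c (l 16040944) (a (l 16043576) (l 16060712)))) (b (b (c (l 16012240) (l 16004480)) (l 15979416)) (a (l 16032584) (l 16016288)))) (b (a (c (a (l 16015664) (b (l 16012584) (l 16053616))) (a (l 16020416) (l 16018688))) (b (c (l 16015680) (l 15998448)) (l 16029520))) (a (c (a (l 16081928) (b (l 16083520) (l 16095272)))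 (a (b (l 16067680) (l 16110344)) (l 16084944))) (l 16050928)))) (b (c (l 15945384) (a (l 15959168) (l 15927856))) (l 15962848))))) (c (c (a (a (c (l 15795784) (a (l 15791368) (c (l 15764224) (l 15772368)))) (c (a (l 15748536) (c (l 15724512) (l 15737184))) (l 15752384))) (c (a (l 15740368) (a (c (l 15744232) (l 15764880)) (c (l 15748816) (l 15754456)))) (a (a (c (l 15776320) (l 15797032)) (l 15740600)) (l 15760640)))) (a (a (c (b (l 15795744) (l 15824128)) (b (a (l 15843608) (l 15837240)) (a (l 15869264) (l 15864896)))) (c (b (a (l 15802880) (l 15799008)) (c (l 15826240) (l 15839640))) (l 15827456))) (l 15773336))) (b (c (l 15794632) (l 15697432)) (c (l 15822360) (l 15821904))))), by decide +kernel⟩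

def k26_pm_022_a : ∃ t, chk3 f_pm_022_a t 17 31 2 = true :=
  ⟨(a (c (c (a (b (a (l 16086384) (l 16034688)) (a (l 16131000) (l 16081792))) (b (l 15940520) (l 15988712))) (a (b (l 16016720) (a (l 16113792) (l 16046952))) (c (a (l 15965512) (a (l 15913320) (b (l 15865312) (l 15913048)))) (a (a (l 15961304) (b (l 15908352) (l 15954272))) (b (a (l 15895776) (l 15900632)) (l 15926616)))))) (a (c (a (b (l 16027608) (l 16082336)) (c (b (l 15978512) (l 15996992)) (a (b (l 15993936) (l 16031336)) (l 15985680)))) (a (c (b (a (l 16067616) (l 16049264)) (c (l 16031408) (l 16091488))) (b (c (l 16102056) (a (l 16097920) (l 16117600))) (a (l 16115864) (l 16102352)))) (c (b (c (l 16027280) (l 16047864)) (c (l 16062856) (l 16079728))) (l 16080304)))) (c (a (a (c (b (l 15941464) (c (l 15972448) (l 15987872))) (b (l 15988952) (l 16028608))) (c (l 15941808) (b (l 15981880) (l 16023480)))) (c (b (a (l 15944288) (l 15939496)) (c (l 15981824) (l 15995928))) (l 15978360))) (b (l 15986224) (l 16020456))))) (a (c (c (a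 (c (l 15875008) (a (l 15869552) (c (l 15843024) (l 15851096)))) (c (a (b (l 15803408) (l 15849568)) (b (l 15766760) (c (l 15824384) (l 15837736)))) (b (l 15828784) (l 15875472)))) (c (a (b (l 15863584) (l 15911160)) (b (c (l 15865992) (l 15879664)) (c (l 15913344) (l 15927312)))) (a (b (c (l 15899352) (l 15913088)) (c (l 15947568) (l 15961608))) (l 15906632)))) (b (l 15896192) (l 15941848))) (c (c (c (a (l 15817960) (b (c (l 15799352) (l 15812896)) (a (l 15853512) (l 15850264)))) (a (b (c (l 15832656) (l 15846264)) (c (l 15879144) (l 15893048))) (l 15838784))) (l 15852400)) (l 15842208)))), by decide +kernel⟩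

def k27_pm_022_a : ∃ t, chk3 f_pm_022_a t 17 14 3 = true :=
  ⟨(c (a (b (l 15893264) (c (a (l 15952512) (b (l 15870648) (c (a (l 15916752) (c (b (l 15893448) (l 15915944)) (l 15808328))) (l 15887984)))) (l 15908712))) (b (c (b (a (l 15793824) (c (a (l 15741792) (l 15731720)) (l 15721704))) (a (c (a (l 15802632) (c (l 15789272) (l 15768208))) (l 15777872)) (c (a (l 15693608) (l 15719840)) (a (l 15729720) (l 15707672))))) (l 15637960)) (c (a (b (c (a (b (l 15820944) (l 15846384)) (b (l 15803968) (l 15816096))) (a (l 15810264) (c (l 15793216) (l 15773680)))) (c (a (b (l 15862056) (l 15875904)) (l 15824904)) (a (c (l 15790312) (l 15834232)) (b (l 15811528) (l 15825888))))) (b (c (a (l 15769616) (l 15719000)) (a (b (l 15754104) (l 15766032)) (l 15721224))) (c (l 15745096) (a (l 15775776) (l 15725784))))) (b (a (l 15784688) (c (a (l 15734240) (l 15667872)) (l 15706408))) (b (a (l 15799120) (c (a (l 15761544) (l 15726376)) (l 15728432))) (a (c (l 15761960) (l 15806408)) (c (a (l 15775384) (l 15724888))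 (a (l 15751432) (l 15724752))))))))) (b (l 15806208) (a (l 15899464) (l 15743840)))), by decide +kernel⟩

def k28_pm_022_a : ∃ t, chk3 f_pm_022_a t 34 30 6 = true :=
  ⟨(c (a (b (c (a (l 16012408) (c (b (l 15973096) (l 16010168)) (l 15976568))) (l 15988576)) (c (a (b (l 16047256) (c (l 16092184) (l 16068192))) (b (c (l 16039064) (l 16023704)) (c (l 16065024) (l 16053408)))) (a (l 16043008) (b (l 15997872) (c (l 16018080) (l 16016320)))))) (b (c (a (b (c (l 15962240) (l 15938440)) (c (l 15987528) (l 15973032))) (b (l 15926904) (l 15942376))) (a (l 15937760) (c (b (l 15909784) (l 15933976)) (b (l 15887760) (l 15920568))))) (b (c (l 15927856) (a (c (l 15985600) (l 15963976)) (c (l 15955616) (l 15945576)))) (c (l 15977064) (a (c (l 16011752) (l 15999960)) (l 15964136)))))) (a (l 16000856) (b (l 15907616) (c (a (l 15966192) (b (c (l 15933104) (l 15913336)) (c (l 15958896) (l 15947408)))) (l 15938136))))), by decide +kernel⟩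

def k29_pm_022_a : ∃ t, chk3 f_pm_022_a t 34 31 6 = true :=
  ⟨(c (b (a (c (a (b (c (l 16123544) (l 16046520)) (l 16139064)) (b (l 16075960) (l 16085456))) (a (b (l 16082808) (c (a (l 16134344) (l 16124248)) (a (l 16109016) (l 16107120)))) (b (c (l 16069512) (l 15993304)) (c (l 16095816) (l 16087352))))) (c (l 15995392) (a (b (l 16024928) (l 16035936)) (l 15977024)))) (a (c (b (l 16121840) (l 16136792)) (a (b (c (l 16160240) (a (l 16156376) (l 16144688))) (l 16177584)) (b (l 16108768) (l 16120744)))) (l 16011144))) (a (b (c (a (l 16081064) (b (l 16032808) (c (a (l 16073208) (l 16068792)) (l 16055120)))) (l 16057152)) (c (a (b (c (a (l 16132128) (l 16129088)) (l 16116528)) (c (a (l 16180304) (l 16166832)) (a (l 16157536) (l 16152952)))) (b (c (l 16043984) (a (l 16095984) (l 16089504))) (c (l 16132568) (a (l 16139456) (l 16122296))))) (a (l 16127248) (b (l 16075832) (c (a (l 16126248) (l 16112032)) (l 16102488)))))) (b (c (a (b (c (l 15995128) (l 15997640)) (c (l 16042992) (a (l 16041536) (l 16028160))))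 (b (c (l 15981048) (l 15973936)) (l 15984880))) (a (c (b (l 15986816) (l 16023656)) (l 15995920)) (b (c (l 15963464) (l 15946568)) (c (l 15969696) (l 15981304))))) (c (a (b (l 16058200) (l 16073912)) (l 16012240)) (a (b (c (a (l 16062248) (l 16047376)) (l 16044216)) (c (l 16080624) (a (l 16084800) (l 16068264)))) (b (c (l 16004528) (a (l 16020208) (l 16001392))) (l 16024080))))))), by decide +kernel⟩

def k30_pm_022_a : ∃ t, chk3 f_pm_022_a t 35 15 6 = true :=
  ⟨(a (b (c (b (c (l 15853088) (a (b (l 15834288) (l 15891688)) (l 15808376))) (b (l 15866416) (l 15877584))) (b (c (a (b (l 15848160) (c (l 15881000) (l 15862096))) (b (l 15825432) (l 15778864))) (a (l 15845304) (l 15817368))) (c (a (b (c (l 15902808) (l 15892592)) (l 15913928)) (l 15829832)) (a (b (l 15872816) (c (l 15905920) (l 15890216))) (b (l 15751464) (c (l 15867912) (l 15862664))))))) (c (b (l 15898584) (l 15935784)) (b (c (l 15885152) (a (b (c (l 15928888) (l 15920992)) (c (l 15941408) (l 15944320))) (l 15878896))) (b (l 15909184)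 (l 15949232))))) (b (c (b (l 15760616) (l 15776304)) (b (c (a (b (l 15787320) (l 15791248)) (l 15738592)) (a (b (l 15775296) (c (l 15795856) (l 15787184))) (b (l 15737464) (l 15740600)))) (c (l 15782472) (a (b (c (l 15802712) (l 15805536)) (l 15812800)) (l 15761200))))) (b (l 15813912) (l 15853040)))), by decide +kernel⟩

def k31_pm_022_a : ∃ t, chk3 f_pm_022_a t 17 30 7 = true :=
  ⟨(a (l 15952840) (c (a (b (l 15820088) (c (a (l 15873032) (l 15840720)) (l 15849248))) (b (c (a (l 15763840) (c (l 15734056) (l 15728072))) (l 15737368)) (b (c (a (l 15795480) (c (l 15750528) (l 15753424))) (l 15763112)) (c (a (c (l 15816808) (l 15810152)) (l 15763008)) (a (l 15798056) (l 15698992)))))) (l 15787288))), by decide +kernel⟩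

def k32_pm_022_a : ∃ t, chk3 f_pm_022_a t 17 31 7 = true :=
  ⟨(a (a (l 16075488) (c (b (l 15972520) (c (a (b (l 16028160) (c (l 16045664) (l 16053072))) (b (c (l 16000928) (l 15987816)) (c (a (l 16041312) (l 16020352)) (l 15959472)))) (l 16018256))) (l 15989712))) (c (a (b (c (a (c (b (l 15912872) (l 15937800)) (l 15919024)) (b (c (l 15876664) (l 15868944)) (c (l 15889168) (l 15871360)))) (a (l 15907880) (l 15849696))) (c (a (b (c (a (l 15975120) (l 15946760)) (a (l 15966424) (l 15948488))) (c (l 15978192) (a (l 15994496) (l 15966792)))) (b (l 15906304) (l 15927680))) (a (b (l 15951008) (c (a (l 15987640) (l 15968176)) (l 15970968))) (b (c (a (l 15921752) (l 15894144)) (l 15904112)) (c (l 15927336) (a (l 15941632) (l 15915304))))))) (b (c (a (b (c (l 15827888) (a (l 15842544) (l 15814496))) (l 15841312)) (l 15787368)) (a (b (l 15822216) (c (a (l 15857672) (l 15830408)) (l 15839904))) (b (c (l 15777152) (a (l 15789408) (l 15763336))) (l 15793088)))) (c (l 15849096) (a (b (c (l 15861872) (a (l 15868624)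 (l 15847816))) (l 15880528)) (l 15825144))))) (a (b (l 15882184) (a (l 15949216) (c (b (l 15896080) (l 15860760)) (l 15904704)))) (b (c (a (l 15822712) (b (l 15773024) (c (a (l 15804776) (l 15779976)) (l 15788352)))) (l 15795792)) (c (a (b (c (a (l 15869000) (l 15843304)) (l 15853728)) (c (a (l 15890008) (l 15868120)) (a (l 15888944) (l 15843792)))) (b (c (l 15811264) (a (l 15818312) (l 15797904))) (l 15811880))) (a (l 15858880) (b (l 15804056) (c (a (b (l 15834296) (l 15846960)) (l 15819328)) (a (l 15838576) (l 15815960)))))))))), by decide +kernel⟩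

def k33_pm_022_a : ∃ t, chk3 f_pm_022_a t 18 6 2 = true :=
  ⟨(b (a (c (a (b (c (l 16058896) (l 16065232)) (l 15957304)) (b (l 15953832) (l 15849040))) (b (a (c (l 16007320) (l 16018328)) (c (l 15835112) (l 15881536))) (c (a (c (l 15972000) (l 15961696)) (l 15792856)) (a (l 15821792) (c (l 15756360) (l 15807488)))))) (a (c (l 15673856) (c (l 15591240) (b (l 15706160) (c (l 15689552) (l 15690928))))) (b (c (l 15616568) (l 15612184)) (l 15495656)))) (a (c (a (b (l 15851504) (l 15721056)) (b (l 15743760) (l 15633256))) (b (c (a (b (l 15896240) (l 15837336)) (l 15750032)) (a (c (b (l 15887472) (l 15843488)) (l 15766576)) (b (a (l 15827216) (l 15746504)) (l 15701320)))) (a (c (l 15749496) (b (c (l 15792160) (l 15785376)) (l 15679216))) (c (l 15632168) (l 15638088))))) (c (b (l 15492272) (l 15385592)) (b (a (l 15539768) (l 15395624)) (l 15308328))))), by decide +kernel⟩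

def k34_pm_022_a : ∃ t, chk3 f_pm_022_a t 18 6 3 = true :=
  ⟨(b (a (a (l 15959032) (c (l 15808176) (l 15856328))) (c (b (c (a (l 15775768) (l 15611128)) (l 15671200)) (c (a (c (l 15682576) (l 15671504)) (c (l 15505776) (l 15284760))) (l 15342576))) (l 15607072))) (c (a (b (a (l 15823200) (c (c (b (l 15770816) (l 15704320)) (l 15714584)) (l 15717008))) (c (a (c (b (l 15771088) (a (l 15744520) (l 15711264))) (l 15577520)) (b (c (l 15673496) (l 15538536)) (c (l 15611192) (a (l 15657216) (l 15565624))))) (a (l 15715320) (b (l 15653080) (a (l 15640008) (l 15557944)))))) (b (c (a (b (l 15393856) (a (l 15595800) (l 15497416))) (l 15392232)) (a (l 15475968) (c (b (l 15409184) (l 15356952)) (b (l 15409048) (l 15345080))))) (c (a (l 15434728) (l 15269256)) (a (c (b (a (l 15532016) (l 15434784)) (l 15420912)) (b (l 15474264) (a (l 15467064) (l 15369512)))) (b (l 15167112) (l 15233608)))))) (a (l 15704048) (c (b (l 15453584) (a (l 15437008) (c (b (l 15279840) (l 15077672)) (b (l 15279272) (l 15213336)))))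 (l 15385288))))), by decide +kernel⟩

def k35_pm_022_a : ∃ t, chk3 f_pm_022_a t 19 6 1 = true :=
  ⟨(c (b (a (c (l 15319480) (l 15159624)) (a (l 15059272) (l 14926128))) (a (c (l 14977936) (l 14931312)) (a (l 325373039287) (l 325909674887)))) (b (c (a (c (b (a (l 15414032) (l 15263736)) (l 15237944)) (b (a (l 15427560) (l 15165360)) (a (c (l 15318648) (l 15307016)) (l 15137272)))) (b (l 15010912) (l 14895256))) (a (c (b (l 15322368) (a (l 15306488) (c (l 15126264) (l 15115760)))) (l 15255472)) (b (c (a (l 14974248) (l 14919616)) (a (l 15051264) (l 14902632))) (c (a (c (l 14949120) (l 14940856)) (l 14801760)) (a (l 14926984) (c (l 14789208) (l 14779808))))))) (c (a (b (c (l 15119720) (a (b (l 15229864) (l 15171504)) (l 15017992))) (l 14996400)) (l 14714040)) (c (a (b (a (c (b (l 15216832) (l 15161912)) (l 15178152)) (b (l 14909312) (l 14974968))) (a (c (l 15070960) (b (l 15071408) (l 15033184))) (l 14883608))) (l 14691424)) (a (b (a (l 15174360) (c (l 14906848) (l 14983464))) (a (c (b (l 15083192)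 (a (l 15070904) (l 14978952))) (l 15044464)) (c (b (l 14901968) (l 14839760)) (b (l 14892400) (l 14746448))))) (b (a (c (l 14811544) (b (l 14832872) (l 14771520))) (l 14661824)) (l 389796995655))))))), by decide +kernel⟩

def k36_pm_022_a : ∃ t, chk3 f_pm_022_a t 18 14 2 = true :=
  ⟨(a (b (a (c (b (l 15655224) (l 15638248)) (b (l 15661960) (l 15641160))) (b (c (l 15553408) (l 15545936)) (c (l 15537712) (l 15523200)))) (a (c (l 15656560) (l 15646968)) (c (l 15556264) (l 15538872)))) (b (c (b (l 15305152) (l 15287360)) (b (l 15283512) (l 15264144))) (c (a (l 15387640) (l 15213464)) (l 15277744)))), by decide +kernel⟩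

def k37_pm_022_a : ∃ t, chk3 f_pm_022_a t 18 28 3 = true :=
  ⟨(a (c (c (a (b (c (a (l 15697128) (l 15649104)) (a (l 15683552) (l 15649432))) (c (l 15645344) (a (l 15672168) (l 15623144)))) (b (l 15546696) (l 15524280))) (a (b (c (l 15650712) (l 15633512)) (c (a (l 15659280) (l 15623448)) (l 15626960))) (b (c (a (l 15594104) (l 15500984)) (a (l 15582984) (l 15500816))) (c (l 15521176) (a (l 15567264) (l 15474224)))))) (a (l 15614656) (b (l 15516736) (a (l 15551712) (c (l 15467104) (l 15449896)))))) (a (c (b (c (l 15360584) (c (l 15364736) (a (l 15402736) (l 15312064)))) (l 15339032)) (c (b (c (a (l 15401264) (l 15282464)) (l 15343376)) (c (a (b (l 15382264) (l 15377424)) (l 15282752)) (a (l 15372376) (l 15232208)))) (l 15285840))) (c (l 15166416) (c (b (c (l 15164520) (a (l 15203272) (l 15111544))) (c (l 15139344) (l 15134080))) (b (l 14955304) (c (a (l 15172784) (l 15080056)) (l 15116184))))))), by decide +kernel⟩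

def k38_pm_022_a : ∃ t, chk3 f_pm_022_a t 18 29 3 = true :=
  ⟨(a (c (c (a (b (l 15643856) (l 15650736)) (l 15529624)) (a (b (c (a (b (l 15671320) (l 15677488)) (l 15622912)) (a (l 15661344) (b (l 15621144) (l 15628280)))) (c (l 15652552) (a (b (l 15676040) (l 15675032)) (l 15628512)))) (b (a (c (l 15569192) (l 15567312)) (l 15479816)) (l 15532712)))) (c (a (c (b (l 15629464) (a (l 15669312) (b (l 15625568) (c (l 15630840) (l 15633288))))) (l 15629064)) (b (c (a (a (l 15584200) (l 15550632)) (c (l 15476744) (l 15471632))) (a (l 15552576) (l 15471128))) (c (a (b (l 15570920) (l 15578368)) (l 15485080)) (a (b (l 15568664) (c (l 15573640) (l 15574464))) (c (l 15481504) (l 15456168)))))) (a (l 15619232) (b (l 15500880) (c (a (l 15561416) (l 15470496)) (l 15512280)))))) (c (l 15152128) (c (a (b (c (l 15332072) (a (c (l 15375880) (l 15370344)) (l 15279088))) (l 15338872)) (l 15146424)) (a (b (c (a (l 15369864) (c (l 15273208) (l 15268576))) (l 15311896)) (c (a (b (l 15373936) (l 15381864)) (l 15283168))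 (a (l 15371328) (b (l 15272040) (c (l 15282200) (l 15278080)))))) (b (c (a (l 15177896) (l 15084240)) (a (l 15106952) (b (l 15074320) (l 15078072)))) (c (l 15141872) (a (b (l 15177912) (l 15185752)) (l 15088104)))))))), by decide +kernel⟩

def k39_pm_022_a : ∃ t, chk3 f_pm_022_a t 18 30 1 = true :=
  ⟨(a (c (a (c (l 15704448) (l 15688800)) (c (a (l 15642408) (l 15560664)) (l 15583808))) (c (a (c (l 15679216) (b (l 15603944) (l 15689256))) (l 15566728)) (c (a (b (c (a (b (l 15686776) (c (l 15696360) (l 15697912))) (l 15642144)) (a (l 15680096) (b (l 15636072) (c (l 15645888) (l 15638976))))) (c (l 15687984) (a (b (c (l 15700224) (l 15701368)) (c (l 15716568) (l 15713016))) (b (l 15655992) (l 15670376))))) (b (a (c (l 15590072) (b (c (l 15584600) (l 15580480)) (l 15592624))) (l 15498904)) (l 15570304))) (a (b (l 15655640) (c (a (l 15700056) (b (c (l 15650408) (l 15650680)) (c (l 15667384) (l 15663128)))) (l 15671960))) (b (c (a (b (l 15578984) (c (l 15588728) (l 15583144))) (b (c (l 15488424) (l 15483848))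 (l 15497432))) (a (l 15576968) (b (l 15483680) (l 15490456)))) (c (a (b (c (l 15602312) (l 15535528)) (l 15615336)) (l 15519056)) (a (b (l 15593944) (c (a (l 15628888) (l 15594024)) (l 15607656))) (b (c (l 15506592) (l 15502920)) (l 15457608))))))))) (a (c (c (l 15428232) (l 15407336)) (c (l 15386120) (c (l 15370200) (b (c (l 15349536) (a (b (c (l 15386216) (l 15381960)) (c (l 15397960) (l 15394296))) (l 15253192))) (l 15373240))))) (l 1))), by decide +kernel⟩

def k40_pm_022_a : ∃ t, chk3 f_pm_022_a t 18 31 1 = true :=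
  ⟨(a (a (c (c (b (l 15757840) (l 15803056)) (l 15765888)) (c (l 15751088) (c (b (b (l 15709336) (l 15728632)) (l 15762872)) (b (c (a (b (c (l 15727176) (l 15722088)) (c (l 15746472) (a (l 15754760) (l 15733640)))) (b (c (l 15684584) (l 15681824)) (l 15702464))) (a (b (l 15726272) (c (l 15675792) (l 15739040))) (b (c (a (l 15688408) (l 15668360)) (l 15674416)) (c (l 15698832) (a (l 15705920) (l 15685560)))))) (c (l 15758600) (a (b (c (a (l 15773536) (l 15752584)) (a (l 15769672) (l 15728640))) (c (l 15788072) (a (b (l 15789216) (l 15802168)) (l 15775104)))) (b (l 15656936) (l 1)))))))) (a (b (c (l 15686096) (c (l 15661512) (c (l 15648992) (c (l 15642904) (b (c (l 15629752) (a (l 15644368) (l 15609048))) (l 15648912)))))) (l 1)) (l 1))) (l 1)), by decide +kernel⟩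

def k41_pm_022_a : ∃ t, chk3 f_pm_022_a t 19 7 1 = true :=
  ⟨(a (b (a (c (b (b (l 15035264) (l 15014040)) (l 107404271351)) (b (c (l 14982312) (c (l 14964016) (b (c (a (l 15010152) (l 14916744)) (a (l 15001248) (l 14908176))) (c (l 14940184) (a (l 14977960) (l 14884560)))))) (c (l 14980264) (l 14846304)))) (b (b (c (l 14859560) (c (l 14812728) (l 14654184))) (l 1)) (l 1))) (l 1)) (l 1)), by decide +kernel⟩

def k42_pm_022_a : ∃ t, chk3 f_pm_022_a t 5 3 1 = true :=
  ⟨(b (a (a (a (b (c (l 14747272) (b (c (l 14756416) (b (l 14584632) (l 14693448))) (l 379059601319))) (l 1)) (l 1)) (l 1)) (l 1)) (l 1)), by decide +kernel⟩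

def k43_pm_022_a : ∃ t, chk3 f_pm_022_a t 3 1 1 = true :=
  ⟨(l 1), by decide +kernel⟩

theorem s44_pm_022_a : ∃ t, chk3 f_pm_022_a t 18 15 1 = true := ex3_b k39_pm_022_a k40_pm_022_a

theorem s45_pm_022_a : ∃ t, chk3 f_pm_022_a t 18 14 3 = true := ex3_b k37_pm_022_a k38_pm_022_a

theorem s46_pm_022_a : ∃ t, chk3 f_pm_022_a t 18 14 1 = true := ex3_c k36_pm_022_a s45_pm_022_a

theorem s47_pm_022_a : ∃ t, chk3 f_pm_022_a t 18 7 1 = true := ex3_b s46_pm_022_a s44_pm_022_a

theorem s48_pm_022_a : ∃ t, chk3 f_pm_022_a t 9 7 1 = true := ex3_a s47_pm_022_a k41_pm_022_a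

theorem s49_pm_022_a : ∃ t, chk3 f_pm_022_a t 18 6 1 = true := ex3_c k33_pm_022_a k34_pm_022_a

theorem s50_pm_022_a : ∃ t, chk3 f_pm_022_a t 9 6 1 = true := ex3_a s49_pm_022_a k35_pm_022_a

theorem s51_pm_022_a : ∃ t, chk3 f_pm_022_a t 9 3 1 = true := ex3_b s50_pm_022_a s48_pm_022_a

theorem s52_pm_022_a : ∃ t, chk3 f_pm_022_a t 17 15 7 = true := ex3_b k31_pm_022_a k32_pm_022_a

theorem s53_pm_022_a : ∃ t, chk3 f_pm_022_a t 34 15 6 = true := ex3_b k28_pm_022_a k29_pm_022_a

theorem s54_pm_022_a : ∃ t, chk3 f_pm_022_a t 17 15 6 = true := ex3_a s53_pm_022_a k30_pm_022_a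

theorem s55_pm_022_a : ∃ t, chk3 f_pm_022_a t 17 15 3 = true := ex3_c s54_pm_022_a s52_pm_022_a

theorem s56_pm_022_a : ∃ t, chk3 f_pm_022_a t 17 7 3 = true := ex3_b k27_pm_022_a s55_pm_022_a

theorem s57_pm_022_a : ∃ t, chk3 f_pm_022_a t 17 15 2 = true := ex3_b k25_pm_022_a k26_pm_022_a

theorem s58_pm_022_a : ∃ t, chk3 f_pm_022_a t 17 14 5 = true := ex3_a k23_pm_022_a k24_pm_022_a

theorem s59_pm_022_a : ∃ t, chk3 f_pm_022_a t 17 14 2 = true := ex3_c k22_pm_022_a s58_pm_022_a

theorem s60_pm_022_a : ∃ t, chk3 f_pm_022_a t 17 7 2 = true := ex3_b s59_pm_022_a s57_pm_022_a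

theorem s61_pm_022_a : ∃ t, chk3 f_pm_022_a t 17 7 1 = true := ex3_c s60_pm_022_a s56_pm_022_a

theorem s62_pm_022_a : ∃ t, chk3 f_pm_022_a t 16 15 3 = true := ex3_a k20_pm_022_a k21_pm_022_a

theorem s63_pm_022_a : ∃ t, chk3 f_pm_022_a t 16 7 3 = true := ex3_b k19_pm_022_a s62_pm_022_a

theorem s64_pm_022_a : ∃ t, chk3 f_pm_022_a t 33 15 5 = true := ex3_b k17_pm_022_a k18_pm_022_a

theorem s65_pm_022_a : ∃ t, chk3 f_pm_022_a t 33 15 2 = true := ex3_c k16_pm_022_a s64_pm_022_a

theorem s66_pm_022_a : ∃ t, chk3 f_pm_022_a t 32 15 4 = true := ex3_b k13_pm_022_a k14_pm_022_a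

theorem s67_pm_022_a : ∃ t, chk3 f_pm_022_a t 32 15 2 = true := ex3_c s66_pm_022_a k15_pm_022_a

theorem s68_pm_022_a : ∃ t, chk3 f_pm_022_a t 16 15 2 = true := ex3_a s67_pm_022_a s65_pm_022_a

theorem s69_pm_022_a : ∃ t, chk3 f_pm_022_a t 33 14 2 = true := ex3_c k11_pm_022_a k12_pm_022_a

theorem s70_pm_022_a : ∃ t, chk3 f_pm_022_a t 16 14 2 = true := ex3_a k10_pm_022_a s69_pm_022_a

theorem s71_pm_022_a : ∃ t, chk3 f_pm_022_a t 16 7 2 = true := ex3_b s70_pm_022_a s68_pm_022_a

theorem s72_pm_022_a : ∃ t, chk3 f_pm_022_a t 16 7 1 = true := ex3_c s71_pm_022_a s63_pm_022_a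

theorem s73_pm_022_a : ∃ t, chk3 f_pm_022_a t 8 7 1 = true := ex3_a s72_pm_022_a s61_pm_022_a

theorem s74_pm_022_a : ∃ t, chk3 f_pm_022_a t 17 13 2 = true := ex3_a k7_pm_022_a k8_pm_022_a

theorem s75_pm_022_a : ∃ t, chk3 f_pm_022_a t 17 6 2 = true := ex3_b k6_pm_022_a s74_pm_022_a

theorem s76_pm_022_a : ∃ t, chk3 f_pm_022_a t 17 6 1 = true := ex3_c s75_pm_022_a k9_pm_022_a

theorem s77_pm_022_a : ∃ t, chk3 f_pm_022_a t 16 6 1 = true := ex3_c k4_pm_022_a k5_pm_022_a

theorem s78_pm_022_a : ∃ t, chk3 f_pm_022_a t 8 6 1 = true := ex3_a s77_pm_022_a s76_pm_022_a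

theorem s79_pm_022_a : ∃ t, chk3 f_pm_022_a t 8 3 1 = true := ex3_b s78_pm_022_a s73_pm_022_a

theorem s80_pm_022_a : ∃ t, chk3 f_pm_022_a t 4 3 1 = true := ex3_a s79_pm_022_a s51_pm_022_a

theorem s81_pm_022_a : ∃ t, chk3 f_pm_022_a t 2 3 1 = true := ex3_a s80_pm_022_a k42_pm_022_a

theorem s82_pm_022_a : ∃ t, chk3 f_pm_022_a t 8 2 1 = true := ex3_a k0_pm_022_a k1_pm_022_a

theorem s83_pm_022_a : ∃ t, chk3 f_pm_022_a t 4 2 1 = true := ex3_a s82_pm_022_a k2_pm_022_a

theorem s84_pm_022_a : ∃ t, chk3 f_pm_022_a t 2 2 1 = true := ex3_a s83_pm_022_a k3_pm_022_a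

theorem s85_pm_022_a : ∃ t, chk3 f_pm_022_a t 2 1 1 = true := ex3_b s84_pm_022_a s81_pm_022_a

theorem s86_pm_022_a : ∃ t, chk3 f_pm_022_a t 1 1 1 = true := ex3_a s85_pm_022_a k43_pm_022_a

theorem c_pm_022_a : CertNX 0 536870912 0 420477299 1046898278 26843546 3 false true false .pp 0 2 2
    ndN0q0 ndN1q2a pcN2 Cut.none Ext.none :=
  certNX0 (fam := false) (s1 := true) (s2 := false) (a := 0) (b := 2) (c := 2) (cn := .pp) (n1 := ndN0q0) (n2 := ndN1q2a) (pc := pcN2) (cut := Cut.none) (xt := Ext.none) (P1 := 0) (W1 := 536870912) (P2 := 0) (W2 := 420477299) (P3 := 1046898278) (W3 := 26843546) (N0 := 3)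
    rfl s86_pm_022_a

noncomputable def f_pm_022_b : ℕ → ℕ → ℕ → ℕ → Bool := onCell 0 536870912 1073741824 536870912 1046898278 26843546
    (rowNX 3 1 false true false .pp 0 2 2 (qsf 0 536870912 1239849684 370763052 2) ndN0q0 ndN1q2b pcN2 Cut.none Ext.none)

def k0_pm_022_b : ∃ t, chk3 f_pm_022_b t 2 4 1 = true :=
  ⟨(a (a (b (l 1) (b (a (l 1) (a (l 1) (a (l 1) (a (l 1) (b (l 1) (c (l 323228349639) (l 16190616))))))) (a (a (l 1) (a (l 1) (a (l 1) (b (l 1) (c (l 490195480343) (l 397316805495)))))) (c (a (c (c (l 16146144) (a (l 16216064) (l 16193184))) (c (a (l 16129992) (l 274910073303)) (a (l 299606066567) (l 16276800)))) (c (c (a (l 16252936) (b (l 16253496) (l 16284288))) (a (l 252361516359) (l 16329136))) (l 16315096))) (l 16076152))))) (b (a (a (l 1) (b (l 1) (c (l 291016471543) (l 16312704)))) (b (b (l 1) (c (l 428991262119) (l 307121518023))) (c (a (l 16061216) (l 15874520)) (l 179346336023)))) (a (b (a (c (b (l 318933480631) (a (l 16219512) (l 16275432))) (b (l 16243408) (l 16240568)))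 (b (l 16272976) (l 16142840))) (a (c (l 16168832) (l 16262640)) (b (l 16143584) (l 16004040)))) (b (b (c (l 15914912) (l 16019984)) (c (l 15756648) (l 15922208))) (a (l 15837104) (l 15617768)))))) (b (c (a (b (a (l 197599045383) (l 15196024)) (a (l 15479232) (l 15320496))) (a (b (l 14891880) (l 15038616)) (b (l 14667704) (l 14826136)))) (a (b (a (l 15424384) (l 15144144)) (a (l 15590648) (l 15273168))) (a (b (l 14827672) (l 14979608)) (b (l 14593848) (l 14757848))))) (a (b (c (b (l 15459952) (a (l 15647232) (l 15376568))) (b (l 15504184) (l 15467432))) (a (l 15396928) (l 15134368))) (b (a (b (l 15123176) (l 15106024)) (b (l 14921464) (l 14923352))) (a (l 14899096) (l 14736408)))))), by decide +kernel⟩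

def k1_pm_022_b : ∃ t, chk3 f_pm_022_b t 3 4 1 = true :=
  ⟨(b (a (a (c (b (l 14676024) (l 14821352)) (l 14549992)) (c (l 14782832) (l 14712824))) (a (c (l 14826400) (l 14757928)) (l 14845016))) (a (a (b (c (l 14939984) (l 14875496)) (l 14725792)) (b (l 14909560) (l 14725344))) (a (b (l 14911688) (l 14718384)) (b (l 14914224) (l 2))))), by decide +kernel⟩

def k2_pm_022_b : ∃ t, chk3 f_pm_022_b t 8 10 1 = true :=
  ⟨(a (c (b (b (a (l 16249552) (c (l 16294800) (a (l 16288608) (l 16327640)))) (a (l 16028728) (a (l 15987528) (c (l 16098792) (l 15946528))))) (a (l 15316904) (c (l 15462728) (b (l 15469704) (l 15277112))))) (b (a (c (b (l 323228474311) (a (l 16005120) (b (l 16151080) (l 15926000)))) (b (a (l 1) (a (l 1) (l 16272992))) (a (c (l 16002200) (a (l 294773603415) (l 15872600))) (c (b (a (c (l 16147760) (l 16147680)) (l 16165224)) (l 15771032)) (l 16030664))))) (b (c (a (c (l 16301784) (l 266857124151)) (l 221223126823)) (l 16301936)) (c (a (c (l 15998008) (b (l 16151144) (l 15949944))) (c (l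 15955192) (l 16098640))) (l 16079120)))) (a (c (a (l 15353496) (l 15187848)) (a (c (l 15341392) (a (c (l 15322976) (l 15211440)) (l 15187576))) (c (b (l 15357336) (l 15182648)) (l 15375256)))) (c (a (c (l 15414136) (b (l 15628984) (l 15255624))) (b (l 15611304) (l 15309912))) (l 15443872))))) (c (b (a (c (b (b (l 16237784) (l 16171696)) (a (l 16152984) (l 15934376))) (c (b (a (l 16293160) (l 16248200)) (a (l 16159584) (l 16093144))) (b (l 16178160) (l 15957856)))) (b (c (c (a (l 16154024) (l 16145144)) (a (l 16195464) (l 16174016))) (l 16195848)) (c (a (c (l 16265080) (l 16147536)) (l 16008808)) (l 16201056)))) (a (c (b (l 15546544) (l 15375416)) (a (c (l 15505128) (l 15312816)) (b (l 15648072) (l 15431224)))) (c (a (c (l 15581568) (b (l 15846728) (l 15495584))) (b (l 15696576) (l 15542968))) (l 15634512)))) (b (b (l 16240976) (l 16085312)) (l 15343152)))), by decide +kernel⟩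

def k3_pm_022_b : ∃ t, chk3 f_pm_022_b t 8 11 1 = true :=
  ⟨(c (a (b (a (l 14679336) (c (l 14795840) (a (l 14746176) (l 14813496)))) (a (l 14318112) (c (l 14452224) (l 14432784)))) (b (a (c (a (l 14902080) (l 14749712)) (a (c (l 14910696) (l 14879224)) (l 14815472))) (c (a (c (l 15069072) (l 15022912)) (l 14914672)) (l 14985888))) (a (c (l 14602896) (c (l 14529832) (l 14558704))) (c (c (l 14761976) (l 14722800)) (l 14663312))))) (a (b (a (c (l 14571536) (a (c (l 14580560) (a (l 14546432) (l 14569576))) (c (a (l 14621328) (l 14660680)) (l 14620776)))) (c (a (c (l 14736960) (l 14723088)) (l 14727056)) (l 14713560))) (a (c (l 14262048) (a (c (l 14198848) (l 14174392)) (c (l 14260240) (l 14242504)))) (c (a (c (l 14377136) (l 14359568)) (l 14435464)) (l 14348072)))) (b (l 14891192) (l 14551024)))), by decide +kernel⟩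

def k4_pm_022_b : ∃ t, chk3 f_pm_022_b t 9 5 1 = true :=
  ⟨(b (a (b (b (a (c (l 16073168) (l 16076552)) (l 15868480)) (a (c (l 16179136) (l 16231608)) (l 15944824))) (a (c (l 15511064) (l 15638432)) (l 15700056))) (b (b (l 15509776) (l 15579576)) (b (l 15956128) (l 16082360)))) (a (b (a (c (l 15105240) (l 15059048)) (l 15349584)) (a (l 14766792) (l 15052096))) (b (l 15524384) (l 15500176)))), by decide +kernel⟩

def k5_pm_022_b : ∃ t, chk3 f_pm_022_b t 5 5 1 = true :=
  ⟨(b (b (a (b (a (l 15216024) (l 14963744)) (l 15070640)) (b (a (l 14737144) (l 14572568)) (a (l 14946920) (l 14790368)))) (a (b (l 15576544) (l 15984648)) (a (l 15601144) (l 15465080)))) (b (a (a (l 16162904) (l 16450984)) (a (l 16364368) (l 16216544))) (a (l 16088408) (l 16683392)))), by decide +kernel⟩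

def k6_pm_022_b : ∃ t, chk3 f_pm_022_b t 3 5 1 = true :=
  ⟨(a (b (b (b (a (l 14565472) (l 14561792)) (a (l 14782368) (l 14780960))) (a (l 15468184) (l 15482232))) (b (a (l 16238312) (l 16328808)) (l 16700632))) (b (b (b (a (l 14550848) (l 2)) (l 2)) (l 2)) (l 2))), by decide +kernel⟩

def k7_pm_022_b : ∃ t, chk3 f_pm_022_b t 1 3 1 = true :=
  ⟨(a (a (b (a (a (c (b (a (l 14226936) (c (l 14366272) (l 14345088))) (c (l 14189984) (l 14155064))) (b (a (c (l 14168120) (a (c (l 14102424) (l 14077008)) (l 14141912))) (c (a (c (l 14286976) (l 14268504)) (l 14347136)) (l 14256824))) (a (c (l 14040120) (a (l 13954136) (l 14012696))) (c (c (l 14191040) (l 14171776)) (l 14132792))))) (c (b (a (c (l 14521472) (c (l 14510072) (l 14475192))) (c (b (l 14691704) (l 14628608)) (l 14584992))) (c (a (l 14412296) (l 14559672)) (a (l 14376112) (l 14480112)))) (b (l 14467864) (l 14355760)))) (a (b (a (c (l 14727456) (l 14664840)) (l 14982976)) (c (l 14732584) (l 14711968))) (b (l 15438816) (l 15357408)))) (a (c (a (b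 (l 14169840) (l 14169840)) (c (a (l 14407656) (l 14555336)) (b (l 14422488) (l 14422488)))) (a (a (c (l 14034608) (b (l 13981696) (l 13981696))) (b (l 14012664) (l 14117520))) (l 14350976))) (c (a (b (l 14728656) (l 14728656)) (l 15378688)) (b (l 15013328) (l 15013328))))) (b (a (b (l 15958728) (l 15982136)) (b (l 16580224) (l 16629320))) (a (b (l 15979656) (l 2)) (l 2)))) (b (a (b (l 16717616) (l 2)) (l 2)) (l 2))), by decide +kernel⟩

theorem s8_pm_022_b : ∃ t, chk3 f_pm_022_b t 8 5 1 = true := ex3_b k2_pm_022_b k3_pm_022_b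

theorem s9_pm_022_b : ∃ t, chk3 f_pm_022_b t 4 5 1 = true := ex3_a s8_pm_022_b k4_pm_022_b

theorem s10_pm_022_b : ∃ t, chk3 f_pm_022_b t 2 5 1 = true := ex3_a s9_pm_022_b k5_pm_022_b

theorem s11_pm_022_b : ∃ t, chk3 f_pm_022_b t 1 5 1 = true := ex3_a s10_pm_022_b k6_pm_022_b

theorem s12_pm_022_b : ∃ t, chk3 f_pm_022_b t 1 4 1 = true := ex3_a k0_pm_022_b k1_pm_022_b

theorem s13_pm_022_b : ∃ t, chk3 f_pm_022_b t 1 2 1 = true := ex3_b s12_pm_022_b s11_pm_022_b

theorem s14_pm_022_b : ∃ t, chk3 f_pm_022_b t 1 1 1 = true := ex3_b s13_pm_022_b k7_pm_022_b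

theorem c_pm_022_b : CertNX 0 536870912 1239849684 370763052 1046898278 26843546 3 false true false .pp 0 2 2
    ndN0q0 ndN1q2b pcN2 Cut.none Ext.none :=
  certNX1 (fam := false) (s1 := true) (s2 := false) (a := 0) (b := 2) (c := 2) (cn := .pp) (n1 := ndN0q0) (n2 := ndN1q2b) (pc := pcN2) (cut := Cut.none) (xt := Ext.none) (P1 := 0) (W1 := 536870912) (P2 := 1239849684) (W2 := 370763052) (P3 := 1046898278) (W3 := 26843546) (N0 := 3)
    rfl (fun _ => rfl) s14_pm_022_b

noncomputable def f_pm_023 : ℕ → ℕ → ℕ → ℕ → Bool := onCell 0 536870912 1073741824 536870912 1046898278 26843546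
    (rowNX 3 1 false true false .up 0 2 3 (qsf 0 536870912 1610612736 469762048 2) ndN0q0 ndN1q3 pcN2 Cut.none Ext.none)

def k0_pm_023 : ∃ t, chk3 f_pm_023 t 1 1 1 = true :=
  ⟨(b (b (a (l 1) (b (a (l 1) (a (l 269538441495) (l 14845016))) (a (a (l 1) (b (l 1) (l 14725344))) (a (b (l 14911688) (l 14718384)) (b (l 14914224) (l 14710120)))))) (a (a (l 1) (b (l 1) (b (l 1) (a (l 1) (l 16683392))))) (a (b (a (b (l 1) (l 15468184)) (b (b (l 14561792) (l 14780960)) (l 15482232))) (b (a (l 16238312) (l 16328808)) (l 16700632))) (b (b (b (a (l 14550848) (l 14537872)) (a (l 14770088) (l 14757128))) (a (l 15478832) (l 15470008))) (b (a (l 16345096) (l 16342792)) (l 16767872)))))) (a (a (b (a (l 1) (a (l 1) (b (l 1) (l 15357408)))) (a (c (a (l 356510121943) (c (a (l 14407656) (l 14555336)) (l 282422441383))) (a (b (l 1) (a (l 293695785287) (l 14117520))) (l 14350976))) (c (a (l 355437497751) (l 15378688)) (b (l 15013328) (l 15013328))))) (b (a (b (l 15958728) (l 15982136)) (b (l 16580224) (l 16629320))) (a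 (b (l 15979656) (l 15979656)) (b (l 16627952) (l 16627952))))) (b (a (b (l 16717616) (l 16774192)) (b (l 16765288) (l 16776344))) (a (c (l 16777208) (l 16777208)) (b (l 16767744) (l 16760248)))))), by decide +kernel⟩

theorem c_pm_023 : CertNX 0 536870912 1610612736 469762048 1046898278 26843546 3 false true false .up 0 2 3
    ndN0q0 ndN1q3 pcN2 Cut.none Ext.none :=
  certNX1 (fam := false) (s1 := true) (s2 := false) (a := 0) (b := 2) (c := 3) (cn := .up) (n1 := ndN0q0) (n2 := ndN1q3) (pc := pcN2) (cut := Cut.none) (xt := Ext.none) (P1 := 0) (W1 := 536870912) (P2 := 1610612736) (W2 := 469762048) (P3 := 1046898278) (W3 := 26843546) (N0 := 3)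
    rfl (fun _ => rfl) k0_pm_023

noncomputable def f_pm_033 : ℕ → ℕ → ℕ → ℕ → Bool := onCell 0 536870912 1610612736 536870912 1046898278 26843546
    (rowNX 3 1 false true false .pnn 0 3 3 (qsf 0 536870912 1610612736 469762048 3) ndN0q0 ndN1q3 pcN3 Cut.none Ext.none)

def k0_pm_033 : ∃ t, chk3 f_pm_033 t 1 1 1 = true :=
  ⟨(a (b (a (b (b (a (a (c (l 14169840) (c (l 209407246135) (l 14040936))) (c (c (l 14457184) (l 14422488)) (l 14350976))) (a (l 14693480) (l 15354008))) (b (a (a (c (l 14169840) (a (l 14002296) (l 14117520))) (c (l 14189128) (l 14350976))) (a (l 14693480) (l 15354008))) (l 4))) (l 4)) (b (b (a (l 15979656) (l 16627952)) (a (l 15979656) (l 16627944))) (b (a (l 4) (l 607971968263)) (l 4)))) (a (l 4) (b (l 4) (l 2)))) (b (a (b (b (l 16767744) (l 16760248)) (b (c (l 16746848) (l 16746248)) (a (l 4) (l 2)))) (b (b (l 16746272) (a (l 16716472) (l 2))) (l 2))) (l 2))), by decide +kernel⟩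

theorem c_pm_033 : CertNX 0 536870912 1610612736 469762048 1046898278 26843546 3 false true false .pnn 0 3 3
    ndN0q0 ndN1q3 pcN3 Cut.none Ext.none :=
  certNX1 (fam := false) (s1 := true) (s2 := false) (a := 0) (b := 3) (c := 3) (cn := .pnn) (n1 := ndN0q0) (n2 := ndN1q3) (pc := pcN3) (cut := Cut.none) (xt := Ext.none) (P1 := 0) (W1 := 536870912) (P2 := 1610612736) (W2 := 469762048) (P3 := 1046898278) (W3 := 26843546) (N0 := 3)
    rfl (fun _ => rfl) k0_pm_033

noncomputable def f_pm_101 : ℕ → ℕ → ℕ → ℕ → Bool := onCell 0 536870912 536870912 536870912 1046898278 26843546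
    (rowNX 3 2 false true false .npn 1 0 1 (qsf 536870912 536870912 536870912 536870912 0) ndN0q1 ndN1q1 pcN0 Cut.none Ext.none)

def k0_pm_101 : ∃ t, chk3 f_pm_101 t 4 2 1 = true :=
  ⟨(b (l 4) (b (l 4) (a (a (a (c (a (c (l 16669736) (l 22246099255)) (a (c (a (l 16684472) (l 16563256)) (l 16684120)) (c (l 16694016) (l 16670408)))) (a (c (a (l 16663488) (c (l 16674152) (l 16673016))) (a (c (l 16641576) (a (l 16512912) (l 16664712))) (c (l 16672144) (l 16671784)))) (c (b (l 16750528) (l 16624376)) (l 16684856)))) (c (a (b (c (c (l 16761264) (l 16761096)) (l 16761056)) (c (l 16648784) (l 16647584))) (c (l 16653728) (l 16717272))) (c (l 16539552) (l 16706592)))) (c (c (a (l 16733408) (b (l 4) (l 16736072))) (a (b (l 16774224) (l 16702864)) (l 16752672))) (a (l 16669984) (l 16752032)))) (b (l 4) (a (c (a (l 16757464) (l 16770480)) (l 16717824)) (a (l 15267323271) (l 4))))))), by decide +kernel⟩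

def k1_pm_101 : ∃ t, chk3 f_pm_101 t 8 6 1 = true :=
  ⟨(a (a (c (b (a (c (l 16358208) (l 16354288)) (c (a (b (l 16480016) (l 16298760)) (l 16400024)) (a (l 16378728) (l 16387552)))) (a (b (l 16040424) (l 15775984)) (c (a (b (l 16086248) (l 15843592)) (l 15976352)) (a (l 15934968) (l 15943448))))) (b (a (c (a (l 16340424) (c (l 16359656) (l 16354744))) (a (c (l 16336232) (a (l 16329392) (l 16336904))) (l 16349400))) (c (l 16313720) (l 16373368))) (a (c (b (l 16019256) (a (l 15723008) (l 15755376))) (a (b (l 15994904) (c (l 15702232) (l 15687800))) (b (l 16012960) (l 15724432)))) (c (b (l 16053856) (l 15785456)) (l 15902264))))) (c (b (a (c (b (l 16503552) (l 16322440)) (l 16407616)) (c (l 16437536) (l 16440072))) (a (c (b (l 16109832) (l 15867136)) (l 15885040)) (b (l 16139488) (l 15896224)))) (b (c (l 16423248) (l 16418832)) (c (l 15982248) (l 15964768))))) (c (b (a (c (l 16484936) (l 16485680)) (c (b (l 16621168) (l 16466704)) (l 16539904))) (a (b (l 16201672) (l 15969008)) (c (b (l 16281912)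 (l 16066880)) (l 16158184)))) (b (a (l 16479544) (l 16532800)) (a (l 16055216) (l 16130888))))), by decide +kernel⟩

def k2_pm_101 : ∃ t, chk3 f_pm_101 t 16 14 1 = true :=
  ⟨(a (c (a (b (b (l 15407928) (c (l 15187576) (l 15078080))) (b (l 14887216) (l 14719656))) (b (b (c (l 15541920) (l 15474376)) (c (a (a (l 15268408) (l 15293936)) (l 15315816)) (a (l 15167608) (l 15201864)))) (c (a (a (l 14971880) (l 14995824)) (l 15014328)) (a (l 14782008) (l 14819168))))) (a (c (b (a (l 15088448) (b (l 15339768) (c (l 15029608) (l 14968352)))) (a (l 14422296) (c (l 14566840) (l 14456144)))) (a (b (b (l 15203512) (c (l 14834552) (a (l 14751256) (l 14793712)))) (c (l 14250312) (a (l 14020024) (l 14161648)))) (b (c (l 15085680) (l 15044304)) (l 14169792)))) (c (b (b (l 15412024) (a (l 15053552) (l 15110752))) (a (l 14578968) (l 14649048))) (b (l 15161664) (l 14440552))))) (c (b (b (a (l 15518720) (l 15610176)) (a (c (a (l 15334640) (l 15252816)) (l 15182056)) (c (l 15407968) (l 15355552)))) (a (c (a (l 15029296)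 (c (l 15086032) (l 15010928))) (a (l 14862888) (l 14915480))) (c (l 15102296) (l 14992752)))) (b (b (l 15500936) (c (l 15245240) (l 15166680))) (c (l 14814264) (l 14671648))))), by decide +kernel⟩

def k3_pm_101 : ∃ t, chk3 f_pm_101 t 32 15 1 = true :=
  ⟨(a (b (c (a (b (l 14652944) (l 14945896)) (b (l 14694184) (l 14871144))) (c (a (l 13934768) (a (b (l 14109904) (l 13980312)) (c (l 14171672) (l 13933360)))) (a (c (a (l 13475288) (l 13559320)) (a (b (l 13428888) (l 12960080)) (l 13290408))) (c (l 13672792) (l 13440968))))) (c (b (c (b (l 15964248) (c (l 16042608) (l 16018872))) (a (l 15556992) (c (l 15422744) (l 14964560)))) (c (l 15988208) (b (a (l 15984592) (c (l 15957408) (l 15705272))) (l 15941288)))) (c (b (a (l 14355256) (a (l 14279744) (l 14257824))) (a (b (c (l 15953864) (l 15237640)) (c (l 15933752) (l 15894360))) (b (c (l 15427712) (l 14723248)) (c (a (l 15905992) (l 15904600)) (a (l 15898288) (l 15599776)))))) (a (b (c (l 13442984) (a (l 12734400) (l 12886320))) (c (b (l 14124440) (a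 (l 15905280) (b (l 14993968) (l 15890640)))) (a (b (l 12880272) (c (l 15106888) (l 13845824))) (l 13845712)))) (b (l 13331000) (c (b (l 14018040) (l 14771288)) (l 13723760))))))) (c (b (a (b (c (l 14897600) (l 14558136)) (c (l 15076592) (l 14580616))) (c (l 14925496) (c (l 14643664) (l 14459984)))) (b (c (a (b (l 15483936) (c (l 16003040) (l 15785736))) (b (l 15295968) (l 15638720))) (a (l 14984280) (l 14851832))) (c (b (a (c (l 15960624) (a (l 15950824) (l 15940480))) (c (l 15952616) (l 15950344))) (a (l 15918064) (l 15927472))) (b (a (c (l 15951568) (l 15525832)) (l 15401664)) (a (c (l 15915440) (l 15916480)) (c (l 15939520) (l 15737928))))))) (b (c (a (c (l 14218488) (l 14017680)) (l 14205264)) (l 13794488)) (c (b (a (l 14243704) (l 14264904)) (b (l 14717008) (a (c (l 15754560) (l 15206784)) (l 15171064)))) (b (l 13610200) (l 13881312)))))), by decide +kernel⟩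

def k4_pm_101 : ∃ t, chk3 f_pm_101 t 33 15 1 = true :=
  ⟨(c (b (a (c (a (l 14901048) (c (l 14959992) (l 14818384))) (b (l 14643992) (l 14606480))) (c (l 14905256) (l 14686056))) (b (a (c (a (l 15288040) (l 15172648)) (l 14770208)) (l 14914688)) (a (c (b (a (l 15774344) (c (l 15667976) (l 15420384))) (a (l 15934344) (c (l 15978624) (l 15751768)))) (a (c (b (l 15333984) (l 15745784)) (l 15232216)) (l 15218224))) (c (b (l 15327096) (c (l 15664080) (l 15476296))) (l 15082672))))) (b (c (b (l 14476376) (l 14346336)) (l 14127480)) (b (c (l 14380976) (l 13997440)) (a (l 14504952) (l 14567568))))), by decide +kernel⟩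

def k5_pm_101 : ∃ t, chk3 f_pm_101 t 17 7 1 = true :=
  ⟨(b (c (b (a (b (l 15688328) (c (l 15501912) (l 15326984))) (a (c (l 15679104) (l 15634120)) (l 15702776))) (a (c (l 15212960) (a (l 15083448) (l 15157704))) (c (a (l 15309304) (a (l 15348392) (l 15370688))) (l 15247584)))) (b (a (l 15471992) (l 15575224)) (a (l 14954352) (l 15105184)))) (c (b (a (c (l 14963544) (l 14560912)) (c (a (l 15023664) (l 15056296)) (l 14895912))) (a (b (c (l 15008320) (l 14772272)) (a (c (l 15272272) (l 15000792)) (l 15061552))) (c (b (l 14983384) (a (l 15107664) (l 15057856))) (l 14658704)))) (b (a (l 14508728) (l 14668912)) (a (b (l 14402840) (l 14607264)) (l 14538256))))), by decide +kernel⟩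

def k6_pm_101 : ∃ t, chk3 f_pm_101 t 9 3 1 = true :=
  ⟨(b (a (b (c (a (l 16585520) (l 16621792)) (a (l 16577592) (l 16615264))) (c (a (b (l 16333288) (l 16121704)) (l 16270680)) (b (l 16331024) (l 16102576)))) (b (c (b (l 16735688) (l 16609720)) (b (l 16734224) (l 16601768))) (b (l 16436432) (c (l 16248400) (l 16213984))))) (a (b (b (c (l 15768048) (l 15678160)) (a (c (a (l 15353872) (l 15380360)) (l 15205928)) (l 15344024))) (a (b (c (a (l 15024208) (l 15061200)) (l 14797328)) (c (a (l 14918448) (l 14938000)) (l 14629784))) (b (b (l 15080744) (l 14944376)) (l 14855704)))) (b (b (l 15838912) (a (a (l 15379248) (l 15409912)) (l 15462960))) (b (a (a (l 15069032) (l 15101400)) (l 15149256)) (a (a (l 14904768) (l 14909152)) (b (l 14947824) (l 14880168))))))), by decide +kernel⟩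

def k7_pm_101 : ∃ t, chk3 f_pm_101 t 5 1 1 = true :=
  ⟨(b (l 4) (b (a (b (c (a (b (l 16767856) (l 16682048)) (b (l 16777112) (l 16729672))) (a (b (l 16767528) (l 16677104)) (b (l 16777104) (l 16727176)))) (a (b (l 16469904) (l 16225096)) (c (l 16468368) (l 16539216)))) (a (b (b (l 4) (c (l 16746336) (l 16745160))) (b (l 16676512) (l 16526816))) (b (l 4) (c (l 16649968) (l 16645504))))) (a (b (a (b (l 15977824) (c (l 15614080) (l 15525360))) (b (l 16132104) (l 15626320))) (a (b (l 15247360) (a (l 14945072) (l 15007648))) (b (l 15421200) (l 15137416)))) (b (a (b (l 16268208) (l 15932240)) (c (l 16180304) (l 16159344))) (a (b (l 15568328) (l 15318536)) (b (l 15708040) (l 15415960))))))), by decide +kernel⟩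

def k8_pm_101 : ∃ t, chk3 f_pm_101 t 3 1 1 = true :=
  ⟨(b (l 4) (b (a (b (l 4) (b (a (c (l 113514413847) (l 16689416)) (l 4)) (a (c (l 16607168) (l 16601200)) (c (l 123177712407) (l 124788313207))))) (l 4)) (a (b (a (c (l 16096504) (l 16096528)) (c (b (l 16333712) (l 16027032)) (b (l 16318144) (l 16000704)))) (a (c (b (l 15726584) (l 15439536)) (l 15540240)) (c (b (l 15726584) (l 15439536)) (l 15372472)))) (b (c (a (b (l 105460367719) (l 16027032)) (b (l 1) (l 176662269543))) (a (b (l 122103334855) (l 16000704)) (l 656088070039))) (c (a (b (l 15726584) (l 15439536)) (b (l 15726584) (l 15439536))) (a (b (l 15689704) (l 15392584)) (b (l 15689704) (l 15392584)))))))), by decide +kernel⟩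

theorem s9_pm_101 : ∃ t, chk3 f_pm_101 t 16 15 1 = true := ex3_a k3_pm_101 k4_pm_101

theorem s10_pm_101 : ∃ t, chk3 f_pm_101 t 16 7 1 = true := ex3_b k2_pm_101 s9_pm_101

theorem s11_pm_101 : ∃ t, chk3 f_pm_101 t 8 7 1 = true := ex3_a s10_pm_101 k5_pm_101

theorem s12_pm_101 : ∃ t, chk3 f_pm_101 t 8 3 1 = true := ex3_b k1_pm_101 s11_pm_101

theorem s13_pm_101 : ∃ t, chk3 f_pm_101 t 4 3 1 = true := ex3_a s12_pm_101 k6_pm_101

theorem s14_pm_101 : ∃ t, chk3 f_pm_101 t 4 1 1 = true := ex3_b k0_pm_101 s13_pm_101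

theorem s15_pm_101 : ∃ t, chk3 f_pm_101 t 2 1 1 = true := ex3_a s14_pm_101 k7_pm_101

theorem s16_pm_101 : ∃ t, chk3 f_pm_101 t 1 1 1 = true := ex3_a s15_pm_101 k8_pm_101

theorem c_pm_101 : CertNX 536870912 536870912 536870912 536870912 1046898278 26843546 3 false true false .npn 1 0 1
    ndN0q1 ndN1q1 pcN0 Cut.none Ext.none :=
  certNX2 (fam := false) (s1 := true) (s2 := false) (a := 1) (b := 0) (c := 1) (cn := .npn) (n1 := ndN0q1) (n2 := ndN1q1) (pc := pcN0) (cut := Cut.none) (xt := Ext.none) (P1 := 536870912) (W1 := 536870912) (P2 := 536870912) (W2 := 536870912) (P3 := 1046898278) (W3 := 26843546) (N0 := 3)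
    rfl (fun _ => rfl) s16_pm_101

end Pool.Agent.Strip051.G.IE1.Tab.C.NB01

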