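import Pool.Agent.Strip051.G.IE1.Tab

/-! # Certificates N7 (generated) -/

set_option linter.all false
set_option maxRecDepth 100000

namespace Pool.Agent.Strip051.G.IE1.Tab.C.NA00

open Pool.Agent.Strip051.PB Pool.Agent.Strip051.PB.T
open Pool.Agent.Strip051.G.IE1.Tab

noncomputable def f_pm_112 : ℕ → ℕ → ℕ → ℕ → Bool := onCell 1073741824 536870912 536870912 536870912 1046898278 26843546
    (rowNX 3 2 true true false .dn 1 1 2 (qsf 536870912 536870912 536870912 536870912 2) ndN0q1 ndN0q1 pcN2 Cut.none Ext.none)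

def k0_pm_112 : ∃ t, chk3 f_pm_112 t 4 1 1 = true :=
  ⟨(b (a (l 3) (l 3)) (l 1)), by decide +kernel⟩

def k1_pm_112 : ∃ t, chk3 f_pm_112 t 40 4 1 = true :=
  ⟨(l 3), by decide +kernel⟩

def k2_pm_112 : ∃ t, chk3 f_pm_112 t 82 4 1 = true :=
  ⟨(l 3), by decide +kernel⟩

def k3_pm_112 : ∃ t, chk3 f_pm_112 t 83 8 1 = true :=
  ⟨(b (a (a (l 3) (a (l 3) (c (b (c (l 16777208) (l 16777208)) (l 3)) (c (l 1389589692327) (l 16777216))))) (a (c (a (c (b (l 16777208) (l 1479784005591)) (c (l 16777208) (l 16777208))) (a (c (l 16777208) (l 16777208)) (c (l 16777216) (l 16777216)))) (a (c (l 16777208) (l 16777208)) (c (b (l 16777208) (l 16777216)) (l 16777216)))) (a (a (a (c (c (l 16777216) (l 16777216)) (c (l 16777216) (l 16777216))) (a (c (c (l 16777216) (l 16777216)) (c (l 16777216) (l 16777216))) (a (a (c (c (l 16777216) (l 16777216)) (c (l 16777216) (l 16777216))) (c (c (c (l 16777216) (l 16777216)) (l 16777216)) (c (l 16777216) (l 16777216)))) (c (l 16777216) (l 16777216))))) (c (c (l 16777216) (l 16777216))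 (l 16777216))) (c (l 16777216) (l 16777216))))) (a (l 3) (a (a (l 3) (c (c (b (a (l 16777216) (l 16777216)) (l 5164329074695)) (b (a (l 16777216) (l 16777216)) (l 5019910799367))) (c (b (l 16777216) (l 4849185849351)) (b (l 16777216) (l 16777216))))) (a (c (a (a (c (b (l 16777216) (l 16777216)) (l 16777216)) (a (c (l 16777216) (l 16777216)) (a (a (c (l 16777216) (l 16777216)) (c (l 16777216) (l 16777216))) (l 16777216)))) (c (l 16777216) (l 16777216))) (a (a (c (l 16777216) (l 16777216)) (a (c (l 16777216) (l 16777216)) (c (c (l 16777216) (l 16777216)) (c (l 16777216) (l 16777216))))) (l 16777216))) (c (l 16777216) (l 16777216)))))), by decide +kernel⟩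

def k4_pm_112 : ∃ t, chk3 f_pm_112 t 83 9 1 = true :=
  ⟨(a (l 3) (a (b (l 3) (a (l 3) (c (c (b (l 4406804217863) (a (l 16777216) (l 16777216))) (b (l 4277418328071) (a (l 16777216) (l 16777216)))) (c (b (l 4127631343623) (l 16777216)) (b (l 16777216) (l 16777216)))))) (a (a (b (b (a (l 3) (a (b (c (l 6015806341127) (l 16777216)) (l 3)) (c (c (b (l 16777216) (b (l 16777216) (l 16777216))) (b (l 16777216) (l 16777216))) (c (b (l 16777216) (l 16777216)) (l 16777216))))) (a (l 3) (a (c (c (l 16777216) (l 16777216)) (l 16777216)) (c (c (b (l 16777216) (l 16777216)) (b (l 16777216) (l 16777216))) (c (l 16777216) (l 16777216)))))) (c (a (c (l 16777216) (l 16777216)) (a (c (l 16777216) (l 16777216)) (a (a (c (l 16777216) (l 16777216)) (c (l 16777216) (l 16777216))) (l 16777216)))) (a (c (l 16777216) (l 16777216)) (a (c (l 16777216) (l 16777216)) (c (c (l 16777216) (l 16777216)) (c (l 16777216) (l 16777216))))))) (c (b (b (l 16777216) (l 16777216)) (c (l 16777216) (l 16777216))) (b (b (l 16777216) (l 16777216))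 (l 16777216)))) (c (b (b (l 16777216) (l 16777216)) (c (l 16777216) (l 16777216))) (b (b (l 16777216) (l 16777216)) (l 16777216)))))), by decide +kernel⟩

def k5_pm_112 : ∃ t, chk3 f_pm_112 t 21 4 1 = true :=
  ⟨(b (c (c (b (l 16776928) (l 16777216)) (b (l 16776920) (l 16777216))) (c (b (l 16776912) (l 16777216)) (b (l 16776912) (l 16777216)))) (c (b (b (c (l 16777216) (l 16777216)) (c (l 16777216) (l 16777216))) (c (l 16777216) (l 16777216))) (b (c (l 16777216) (l 16777216)) (c (l 16777216) (l 16777216))))), by decide +kernel⟩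

def k6_pm_112 : ∃ t, chk3 f_pm_112 t 11 4 1 = true :=
  ⟨(b (c (b (a (c (b (l 16775848) (l 16776824)) (l 16775024)) (c (l 16777208) (l 16777208))) (a (c (l 16777216) (l 16777216)) (c (l 16777216) (l 16777216)))) (b (a (c (l 16774984) (l 16774944)) (l 16777208)) (a (l 16777216) (l 16777216)))) (b (c (c (a (l 16777216) (l 16777216)) (l 16777216)) (c (l 16777216) (l 16777216))) (c (a (c (l 16777216) (l 16777216)) (l 16777216)) (a (c (l 16777216) (l 16777216)) (l 16777216))))), by decide +kernel⟩

def k7_pm_112 : ∃ t, chk3 f_pm_112 t 5 5 1 = true :=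
  ⟨(a (a (b (a (l 3) (b (a (l 3) (a (a (l 3) (c (c (b (l 2256636215255) (a (l 16777216) (l 16777208))) (b (l 2179863674839) (l 1019148763047))) (c (b (l 2092353716183) (l 16777208)) (l 1208127323991)))) (a (c (a (c (c (l 16777208) (l 16777208)) (c (l 16777208) (l 16777208))) (a (c (l 16777208) (l 16777208)) (c (l 16777216) (l 16777216)))) (a (c (l 16777208) (l 16777208)) (c (b (l 16777216) (l 16777208)) (l 16777216)))) (a (a (a (c (c (l 16777216) (l 16777216)) (c (l 16777216) (l 16777216))) (a (c (c (l 16777216) (l 16777216)) (c (l 16777216) (l 16777216))) (a (a (c (c (l 16777216) (l 16777216)) (c (l 16777216) (l 16777216))) (c (c (c (l 16777216) (l 16777216)) (l 16777216)) (c (l 16777216) (l 16777216)))) (c (l 16777216) (l 16777216))))) (c (c (l 16777216) (l 16777216)) (l 16777216))) (c (c (l 16777216) (l 16777216)) (l 16777216)))))) (b (a (l 1) (a (l 1) (a (l 1) (a (l 1) (c (l 16777216) (l 16777216)))))) (l 1)))) (l 1)) (b (c (b (c (l 16777216) (l 16777216)) (b (c (l 16777216) (l 16777216)) (c (l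 190622680567) (l 16773488)))) (b (c (l 16777216) (l 16777216)) (b (l 16777216) (c (l 16773424) (l 16773352))))) (a (l 1) (b (c (l 230351075623) (l 16755952)) (l 1))))) (a (b (c (c (b (l 16777216) (l 16777080)) (b (l 16777216) (l 16777080))) (c (l 16776984) (l 16776984))) (c (b (c (b (l 16775208) (l 16769096)) (l 143378023095)) (c (l 16758528) (l 16758200))) (b (c (l 16751264) (l 16772144)) (l 216929285063)))) (b (c (c (l 16777216) (l 16777216)) (c (l 16777216) (l 16777216))) (c (b (c (l 16777216) (l 16777216)) (c (l 16777200) (l 16777192))) (c (l 128882576007) (l 126198221447)))))), by decide +kernel⟩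

def k8_pm_112 : ∃ t, chk3 f_pm_112 t 5 3 1 = true :=
  ⟨(b (b (b (a (l 1) (a (l 1) (c (l 187938366679) (l 16777176)))) (l 1)) (l 1)) (l 1)), by decide +kernel⟩

def k9_pm_112 : ∃ t, chk3 f_pm_112 t 6 1 1 = true :=
  ⟨(b (b (b (b (a (c (c (l 16777216) (l 16777216)) (l 16777216)) (c (a (l 16777216) (b (l 16765544) (l 16777216))) (a (l 16777216) (l 16768064)))) (a (c (c (l 16777216) (l 16777216)) (l 16777216)) (c (l 16777216) (l 16777216)))) (c (b (a (c (l 16777216) (l 16777216)) (a (l 16777216) (l 16777216))) (a (l 16777216) (l 16777216))) (a (b (l 16777216) (l 16777216)) (b (a (l 16777216) (l 16777216)) (l 16777216))))) (b (c (a (b (a (l 16777216) (l 16777216)) (c (l 16777216) (l 16777216))) (b (l 16777216) (l 16777216))) (a (b (l 16777216) (l 16777216)) (b (l 16777216) (l 16777216)))) (c (a (a (b (l 16777216) (l 16777216)) (b (l 16777216) (l 16777216))) (b (l 16777216) (a (l 16777216) (l 16777216)))) (a (b (c (l 16777216) (l 16777216)) (c (l 16777216) (l 16777216))) (b (l 16777216) (l 16777216))))))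 (b (b (c (a (c (b (l 16777216) (l 16777216)) (l 16777216)) (b (c (l 16777216) (l 16777216)) (c (l 16777216) (l 16777216)))) (a (c (l 16777216) (l 16777216)) (b (l 16777216) (l 16777216)))) (a (b (c (l 182569664519) (l 188475244551)) (l 1)) (c (b (l 16777216) (b (l 16777216) (l 16742824))) (b (l 16777216) (l 173442703815))))) (a (l 1) (b (b (c (l 106870034311) (l 182568809815)) (l 1)) (l 1))))), by decide +kernel⟩

def k10_pm_112 : ∃ t, chk3 f_pm_112 t 14 1 1 = true :=
  ⟨(b (b (b (b (a (c (b (l 16596032) (l 16685152)) (b (l 16589648) (l 16703616))) (c (l 16196120) (l 16244472))) (a (c (l 16768376) (l 16768064)) (c (b (l 16596032) (l 16706120)) (b (l 16589648) (l 16703616))))) (b (c (a (l 16777216) (l 16768376)) (l 16770984)) (c (l 16777216) (l 16777216)))) (b (b (c (l 16777216) (l 16777216)) (a (l 16777216) (l 16777216))) (c (b (l 16777216) (l 16777216)) (b (l 16777216) (l 16777216))))) (b (b (c (b (l 16777216) (l 16777216)) (b (l 16777216) (l 16777216))) (c (b (l 16777216) (c (l 16760016) (l 16759712)))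 (b (l 16777216) (l 16759256)))) (b (c (b (l 16440056) (l 16207000)) (b (l 16515016) (l 16186912))) (a (l 1) (b (b (l 15888384) (l 1)) (l 1)))))), by decide +kernel⟩

def k11_pm_112 : ∃ t, chk3 f_pm_112 t 15 1 1 = true :=
  ⟨(b (b (b (b (a (b (c (a (l 16013944) (c (l 15792688) (l 15763984))) (l 15635800)) (c (l 16104336) (l 16080640))) (b (a (c (b (a (l 15586064) (c (l 15544984) (l 15525632))) (a (l 15627536) (l 15586064))) (l 15537536)) (c (b (a (c (l 15503656) (l 15350360)) (l 15446728)) (c (a (l 15544984) (l 15503656)) (a (l 15525632) (l 15371328)))) (b (a (l 15338552) (c (b (l 15402488) (l 15421088)) (l 15255872))) (c (l 15440960) (l 15453968))))) (a (c (c (l 15813656) (l 15763984)) (l 15737344)) (c (b (a (l 15586064) (c (l 15544984) (l 15525632))) (a (l 15627536) (l 15586064))) (l 15537536))))) (a (c (l 16217088) (l 16265448)) (b (c (a (l 16013944) (c (l 15813656) (l 15763984))) (l 15677736)) (c (l 16104336) (l 16080640))))) (b (a (b (a (l 16669704) (l 16519464)) (l 16704864)) (c (l 16259032)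 (l 16265448))) (a (c (l 16768376) (l 16768064)) (c (l 16619000) (l 16614168))))) (b (b (a (l 16777216) (l 16747248)) (c (l 16777216) (l 16777216))) (c (b (l 16777216) (l 16777216)) (l 16777216)))) (b (b (c (b (l 16777216) (l 16777216)) (b (l 16777216) (l 16777216))) (b (l 16777216) (c (l 16759864) (l 16759256)))) (b (c (b (l 16481992) (l 16207000)) (b (l 16515016) (l 16186912))) (b (c (b (l 15903792) (l 62844805751)) (b (l 15873040) (l 15603512))) (b (c (c (b (l 15584616) (l 15531080)) (b (l 15540440) (l 15512144))) (l 15487024)) (a (l 1) (c (l 15447504) (b (c (l 15432072) (l 15411984)) (c (l 15392376) (l 15302720)))))))))), by decide +kernel⟩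

theorem s12_pm_112 : ∃ t, chk3 f_pm_112 t 7 1 1 = true := ex3_a k10_pm_112 k11_pm_112

theorem s13_pm_112 : ∃ t, chk3 f_pm_112 t 3 1 1 = true := ex3_a k9_pm_112 s12_pm_112

theorem s14_pm_112 : ∃ t, chk3 f_pm_112 t 83 4 1 = true := ex3_b k3_pm_112 k4_pm_112

theorem s15_pm_112 : ∃ t, chk3 f_pm_112 t 41 4 1 = true := ex3_a k2_pm_112 s14_pm_112

theorem s16_pm_112 : ∃ t, chk3 f_pm_112 t 20 4 1 = true := ex3_a k1_pm_112 s15_pm_112

theorem s17_pm_112 : ∃ t, chk3 f_pm_112 t 10 4 1 = true := ex3_a s16_pm_112 k5_pm_112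

theorem s18_pm_112 : ∃ t, chk3 f_pm_112 t 5 4 1 = true := ex3_a s17_pm_112 k6_pm_112

theorem s19_pm_112 : ∃ t, chk3 f_pm_112 t 5 2 1 = true := ex3_b s18_pm_112 k7_pm_112

theorem s20_pm_112 : ∃ t, chk3 f_pm_112 t 5 1 1 = true := ex3_b s19_pm_112 k8_pm_112

theorem s21_pm_112 : ∃ t, chk3 f_pm_112 t 2 1 1 = true := ex3_a k0_pm_112 s20_pm_112

theorem s22_pm_112 : ∃ t, chk3 f_pm_112 t 1 1 1 = true := ex3_a s21_pm_112 s13_pm_112

theorem c_pm_112 : CertNX 536870912 536870912 536870912 536870912 1046898278 26843546 3 true true false .dn 1 1 2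
    ndN0q1 ndN0q1 pcN2 Cut.none Ext.none :=
  certNX2 (fam := true) (s1 := true) (s2 := false) (a := 1) (b := 1) (c := 2) (cn := .dn) (n1 := ndN0q1) (n2 := ndN0q1) (pc := pcN2) (cut := Cut.none) (xt := Ext.none) (P1 := 536870912) (W1 := 536870912) (P2 := 536870912) (W2 := 536870912) (P3 := 1046898278) (W3 := 26843546) (N0 := 3)
    rfl (fun _ => rfl) s22_pm_112

noncomputable def cut_pm_113 : Cut := Cut.of [[⟨0, 1, 0, 67108864⟩, ⟨1, 1, 0, 67108864⟩, ⟨2, 2, 0, 67108864⟩]]

noncomputable def f_pm_113 : ℕ → ℕ → ℕ → ℕ → Bool := onCell 536870912 536870912 536870912 536870912 1046898278 26843546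
    (rowNX 3 0 true true false .nn 1 1 3 (qsf 536870912 536870912 536870912 536870912 3) ndN0q1 ndN0q1 pcN3 cut_pm_113 Ext.none)

def k0_pm_113 : ∃ t, chk3 f_pm_113 t 2 1 1 = true :=
  ⟨(b (a (l 1) (a (l 1) (b (l 1) (b (l 1) (l 16777216))))) (b (a (a (l 1) (b (l 1) (c (l 122976851095) (l 16768064)))) (b (a (c (l 16777216) (l 16777216)) (b (l 16777216) (l 16777216))) (a (c (l 16768376) (l 16768064)) (b (l 16777216) (l 16759560))))) (b (a (a (a (l 1) (b (l 1) (l 16196936))) (c (b (l 16523936) (l 16207000)) (b (l 16515016) (l 16186912)))) (b (a (l 16519464) (l 16519464)) (a (l 16196936) (l 16196936)))) (c (b (a (b (a (l 15903792) (l 15903792)) (a (l 15627536) (l 15606568))) (b (l 15882816) (b (l 15695040) (l 15592112)))) (c (b (a (b (a (l 15584616) (l 15584616)) (l 15531080)) (b (a (l 15584616) (l 15584616)) (l 15531080))) (a (a (l 15454616) (l 15454616)) (l 15433640))) (b (a (a (l 15462720) (b (l 15540440) (l 15512144))) (b (l 15540440) (a (l 15512144) (l 15512144)))) (a (a (l 15437296) (l 15437296))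 (a (l 15437296) (l 15437296)))))) (b (a (a (l 15527624) (l 15569568)) (a (l 15716368) (l 15737344))) (a (b (a (l 15487024) (l 15487024)) (c (b (a (l 15432072) (l 15369152)) (a (l 15392376) (l 15392376))) (b (l 15411984) (a (c (l 15373808) (l 15358656)) (c (l 15373808) (l 15358656)))))) (b (l 15487024) (c (b (a (l 15432072) (l 15369152)) (l 15392376)) (b (l 15411984) (a (b (l 15371568) (l 15355864)) (b (l 15371568) (l 15355864)))))))))))), by decide +kernel⟩

def k1_pm_113 : ∃ t, chk3 f_pm_113 t 3 2 1 = true :=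
  ⟨(a (b (b (l 1) (a (l 1) (c (l 122976851095) (l 16768064)))) (a (b (c (l 16777216) (l 16777216)) (a (l 16777216) (l 16777216))) (b (c (l 16768376) (l 16768064)) (a (l 16777216) (l 16759560))))) (a (b (b (a (l 1) (a (l 1) (l 146597833239))) (c (a (l 16523936) (l 16207000)) (a (l 16515016) (l 16186912)))) (a (b (l 16519464) (l 16519464)) (b (l 16196936) (l 16196936)))) (c (a (b (a (b (l 15903792) (l 15903792)) (b (l 15627536) (l 15606568))) (a (l 15882816) (a (l 15695040) (l 15592112)))) (c (a (b (a (b (l 15584616) (l 15584616)) (l 15531080)) (a (b (l 15584616) (l 15584616)) (l 15531080))) (b (b (l 15454616) (l 15454616)) (l 15433640))) (a (b (b (l 15462720) (a (l 15540440) (l 15512144))) (a (l 15540440) (b (l 15512144) (l 15512144)))) (b (b (l 15437296) (l 15437296)) (b (l 15437296) (l 15437296)))))) (a (b (b (l 15527624) (l 15569568)) (b (l 15716368) (l 15737344))) (b (a (b (l 15487024) (l 15487024)) (c (a (b (l 15432072) (l 15369152)) (b (l 15392376) (l 15392376))) (a (l 15411984) (b (c (l 15373808)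 (l 15358656)) (c (l 15373808) (l 15358656)))))) (a (l 15487024) (c (a (b (l 15432072) (l 15369152)) (l 15392376)) (a (l 15411984) (b (a (l 15371568) (l 15355864)) (a (l 15371568) (l 15355864))))))))))), by decide +kernel⟩

def k2_pm_113 : ∃ t, chk3 f_pm_113 t 6 3 1 = true :=
  ⟨(b (b (a (l 16777216) (a (l 16777216) (l 16759560))) (a (b (l 16777216) (l 16759560)) (b (l 16726280) (a (l 16759560) (l 16742872))))) (b (a (b (l 16519464) (l 16196936)) (b (a (l 16519464) (l 16503808)) (a (l 16196936) (l 16139576)))) (b (a (b (l 15888384) (c (b (l 15695040) (l 15592112)) (l 15603512))) (a (b (l 15888384) (b (l 15675952) (l 15571152))) (b (l 15873112) (b (l 15660736) (c (l 15578464) (l 15533488)))))) (c (b (a (c (b (l 15521696) (l 15531080)) (b (l 15540440) (c (l 15524160) (l 15505120)))) (b (a (c (l 15584576) (l 15540400)) (c (a (l 15584536) (c (l 15574232) (l 15549872))) (l 15526064))) (c (a (l 15531048) (l 15413536)) (a (l 15470168) (c (b (l 15521688) (l 15503904)) (l 15406536)))))) (a (b (l 15466944) (l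 15424296)) (a (b (l 15466928) (l 15424312)) (b (c (l 15459768) (a (l 15460528) (l 15432904))) (l 15411032))))) (b (a (l 15487024) (a (l 15486976) (l 15470264))) (a (b (c (c (l 15442488) (l 15432272)) (l 15411984)) (c (l 15392384) (b (l 15371576) (c (l 15364144) (l 15350600))))) (b (c (a (b (l 15454072) (l 15422256)) (b (l 15291432) (c (l 15420096) (l 15409056)))) (l 15403016)) (c (a (l 15392408) (l 15292752)) (a (c (l 15289960) (l 15358696)) (a (c (l 15268984) (l 15358696)) (b (l 15316112) (c (l 15330592) (l 15315272))))))))))))), by decide +kernel⟩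

def k3_pm_113 : ∃ t, chk3 f_pm_113 t 7 6 1 = true :=
  ⟨(a (b (a (l 16519464) (l 16196936)) (a (b (l 16519464) (l 16503808)) (b (l 16196936) (l 16139576)))) (a (b (a (l 15888384) (c (a (l 15695040) (l 15592112)) (l 15603512))) (b (a (l 15888384) (a (l 15675952) (l 15571152))) (a (l 15873112) (a (l 15660736) (c (l 15578464) (l 15533488)))))) (c (a (b (c (a (l 15521696) (l 15531080)) (a (l 15540440) (c (l 15524160) (l 15505120)))) (a (b (c (l 15584576) (l 15540400)) (c (b (l 15584536) (c (l 15574232) (l 15549872))) (l 15526064))) (c (b (l 15531048) (l 15413536)) (b (l 15470168) (c (a (l 15521688) (l 15503904)) (l 15406536)))))) (b (a (l 15466944) (l 15424296)) (b (a (l 15466928) (l 15424312)) (a (c (l 15459768) (b (l 15460528) (l 15432904))) (l 15411032))))) (a (b (l 15487024) (b (l 15486976) (l 15470264))) (b (a (c (c (l 15442488) (l 15432272)) (l 15411984)) (c (l 15392384) (a (l 15371576) (c (l 15364144) (l 15350600))))) (a (c (b (a (l 15454072) (l 15422256)) (a (l 15291432) (c (l 15420096) (l 15409056))))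 (l 15403016)) (c (b (l 15392408) (l 15292752)) (b (c (l 15289960) (l 15358696)) (a (b (l 15371584) (l 15316112)) (c (l 15347168) (b (l 15350648) (l 15315272)))))))))))), by decide +kernel⟩

def k4_pm_113 : ∃ t, chk3 f_pm_113 t 14 14 1 = true :=
  ⟨(a (b (l 16282424) (l 15972896)) (b (l 15972896) (a (l 15763496) (l 15617656)))), by decide +kernel⟩

def k5_pm_113 : ∃ t, chk3 f_pm_113 t 30 14 1 = true :=
  ⟨(a (b (l 15671712) (c (l 15491528) (l 15335856))) (b (a (l 15462528) (c (l 15407760) (l 15311184))) (a (l 15218352) (c (b (l 15262584) (a (l 15188984) (l 15176896))) (l 15026728))))), by decide +kernel⟩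

def k6_pm_113 : ∃ t, chk3 f_pm_113 t 31 28 1 = true :=
  ⟨(a (c (a (c (c (a (l 15444104) (l 15436424)) (l 15358448)) (l 15344528)) (c (l 15365968) (c (a (l 15348352) (l 15331688)) (l 15304032)))) (l 15249120)) (c (a (c (l 15310224) (l 15268856)) (a (l 15257672) (b (l 15291296) (a (l 15203624) (l 15198504))))) (a (c (a (l 15232200) (c (l 15221808) (l 15196496))) (l 15160272)) (c (b (l 15237248) (a (l 15119760) (b (l 15129912) (l 15073760)))) (a (c (a (l 15151760) (l 15115056)) (l 15115096)) (a (c (l 15127016) (l 15032912)) (b (l 15175760) (b (l 15063416) (a (l 14996936) (l 14995776)))))))))), by decide +kernel⟩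

def k7_pm_113 : ∃ t, chk3 f_pm_113 t 31 29 1 = true :=
  ⟨(a (a (c (b (c (c (a (l 15329608) (l 15325960)) (l 15270392)) (l 15187936)) (c (a (c (a (l 15268680) (l 15284240)) (l 15195976)) (c (l 15283536) (a (l 15200016) (l 15213424)))) (l 15102528))) (b (l 15058400) (l 14923768))) (c (c (b (a (a (l 15283840) (l 15266040)) (l 15241264)) (a (a (l 15239336) (l 15226008)) (l 15207824))) (b (a (c (l 15205352) (l 15141200)) (c (l 15193024) (b (l 15164544) (l 15118408)))) (a (c (a (l 15129888) (l 15140864)) (l 15057016)) (c (l 15133576) (b (l 15081320) (l 15049152)))))) (b (l 15021224) (a (l 14902488) (l 14891920))))) (c (a (b (a (c (l 15216520) (b (l 15156776) (l 15119928))) (b (l 15174976) (l 15151680))) (a (c (l 15192120) (a (l 15166632) (l 15078040))) (l 15276224))) (a (b (l 15153728) (l 15128440)) (b (a (l 15153136) (l 15153976)) (b (l 15136896) (a (l 15134600) (l 15140320)))))) (a (b (c (a (b (l 15076256) (l 15024216)) (c (l 15058112) (a (l 15017384) (l 15013064)))) (l 14943760)) (c (a (c (a (l 14992064)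 (l 14992952)) (l 14915672)) (c (l 14980080) (a (l 14919960) (l 14919352)))) (l 14816432))) (c (b (a (l 15020352) (l 15016040)) (a (a (l 14942688) (l 14939928)) (b (l 14961352) (l 14925928)))) (a (a (b (l 14931840) (l 14814336)) (c (b (l 14949064) (c (l 14863888) (l 14831976))) (l 14843016))) (b (c (l 14948472) (a (l 14898112) (c (l 14913840) (l 14889888)))) (c (b (l 14874424) (l 14821160)) (a (l 14777456) (c (l 14799776) (b (l 14800904) (l 14733728))))))))))), by decide +kernel⟩

def k8_pm_113 : ∃ t, chk3 f_pm_113 t 14 30 1 = true :=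
  ⟨(b (a (l 15671712) (c (l 15491528) (l 15335856))) (a (b (l 15462528) (c (l 15407760) (l 15311184))) (b (l 15218352) (c (a (l 15262584) (b (l 15188984) (l 15176896))) (l 15026728))))), by decide +kernel⟩

def k9_pm_113 : ∃ t, chk3 f_pm_113 t 28 31 1 = true :=
  ⟨(b (c (b (c (c (b (l 15444104) (l 15436424)) (l 15358448)) (l 15344528)) (c (l 15365968) (c (b (l 15348352) (l 15331688)) (l 15304032)))) (l 15249120)) (c (b (c (l 15310224) (l 15268856)) (a (l 15299120) (b (l 15213248) (b (l 15203624) (l 15198504))))) (b (c (b (l 15232200) (c (l 15221808) (l 15196496))) (l 15160272)) (c (a (l 15237248) (b (l 15119760) (a (l 15129912) (l 15073760)))) (b (c (b (l 15151760) (l 15115056)) (l 15115096)) (b (c (l 15127016) (l 15032912)) (a (l 15175760) (a (l 15063416) (b (l 14996936) (l 14995776)))))))))), by decide +kernel⟩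

def k10_pm_113 : ∃ t, chk3 f_pm_113 t 29 31 1 = true :=
  ⟨(b (b (c (a (c (c (b (l 15329608) (l 15325960)) (l 15270392)) (l 15187936)) (c (b (c (b (l 15268680) (l 15284240)) (l 15195976)) (c (l 15283536) (b (l 15200016) (l 15213424)))) (l 15102528))) (a (l 15058400) (l 14923768))) (c (c (a (b (b (l 15283840) (l 15266040)) (l 15241264)) (b (b (l 15239336) (l 15226008)) (l 15207824))) (a (b (c (l 15205352) (l 15141200)) (c (l 15193024) (a (l 15164544) (l 15118408)))) (b (c (b (l 15129888) (l 15140864)) (l 15057016)) (c (l 15133576) (a (l 15081320) (l 15049152)))))) (a (l 15021224) (b (l 14902488) (l 14891920))))) (c (b (a (b (c (l 15216520) (a (l 15156776) (l 15119928))) (a (l 15174976) (l 15151680))) (b (c (l 15192120) (b (l 15166632) (l 15078040))) (l 15276224))) (b (a (l 15153728) (l 15128440)) (a (b (l 15153136) (l 15153976)) (a (l 15136896) (b (l 15134600) (l 15140320)))))) (b (a (c (b (a (l 15076256) (l 15024216)) (c (l 15058112) (b (l 15017384) (l 15013064)))) (l 14943760)) (c (b (c (b (l 14992064)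 (l 14992952)) (l 14915672)) (c (l 14980080) (b (l 14919960) (l 14919352)))) (l 14816432))) (c (a (b (l 15020352) (l 15016040)) (b (b (l 14942688) (l 14939928)) (a (l 14961352) (l 14925928)))) (b (b (a (l 14931840) (l 14814336)) (c (a (l 14949064) (c (l 14863888) (l 14831976))) (l 14843016))) (a (c (l 14948472) (b (l 14898112) (c (l 14913840) (l 14889888)))) (c (a (l 14874424) (l 14821160)) (b (l 14777456) (c (l 14799776) (a (l 14800904) (l 14733728))))))))))), by decide +kernel⟩

def k11_pm_113 : ∃ t, chk3 f_pm_113 t 15 60 1 = true :=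
  ⟨(a (a (c (l 15291432) (l 15056664)) (a (b (l 15055304) (l 14957632)) (c (a (l 15088416) (b (l 15115328) (l 15059576))) (l 14770824)))) (a (a (c (c (a (c (a (l 15221024) (l 15242016)) (l 15211216)) (c (a (l 15253936) (l 15254152)) (a (l 15140552) (l 15180272)))) (b (l 15034120) (l 14972776))) (l 14743664)) (c (c (a (c (l 15239704) (a (l 15168424) (l 15166128))) (b (l 15196800) (l 15195488))) (a (c (a (l 15055784) (c (l 15102672) (l 15038936))) (l 14958000)) (c (b (l 15092032) (l 15059616)) (b (l 15002984) (a (l 14947960) (l 14956520)))))) (b (l 14783152) (l 14677464)))) (a (c (a (c (b (l 15191008) (b (l 15196984) (a (l 15205544) (l 15214880)))) (b (a (l 15037528) (l 15036176)) (a (c (l 15052904) (l 14961448)) (l 15005056)))) (b (l 15116080) (a (b (l 15109776) (c (l 15226400) (l 15001048))) (b (l 15115000) (l 6))))) (c (a (b (c (a (l 14915224) (l 14918384)) (l 14817848)) (c (a (l 14846640) (c (l 14884888) (l 14822520))) (l 14728824))) (c (b (l 14910128) (b (l 14863592) (l 14835568))) (b (a (l 14826120)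 (l 14828016)) (a (c (l 14768672) (l 14703424)) (c (l 14773576) (l 14713128)))))) (b (l 14686496) (a (l 14565968) (l 14563200))))) (a (a (c (b (l 15120656) (c (c (l 15297680) (l 15185112)) (l 15015480))) (c (b (l 14865688) (l 14794552)) (b (l 14689792) (l 14565240)))) (b (c (b (l 15129424) (l 15128192)) (c (l 14865400) (c (c (l 14758856) (l 14714688)) (l 14643976)))) (l 6))) (b (a (c (b (l 15136592) (c (l 15231216) (l 15041832))) (c (l 14868232) (c (l 14735712) (l 14620576)))) (b (c (a (l 15142232) (l 15250648)) (c (l 14893408) (c (l 14767072) (c (l 14704456) (l 14661272))))) (l 6))) (l 6)))))), by decide +kernel⟩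

def k12_pm_113 : ∃ t, chk3 f_pm_113 t 15 61 1 = true :=
  ⟨(b (a (a (a (l 15055304) (l 14957632)) (a (l 14861584) (c (a (l 15002680) (l 15012848)) (l 14597360)))) (a (c (a (c (a (c (a (l 15195784) (l 15223944)) (l 15082000)) (c (a (l 15244800) (l 15256040)) (a (l 15106144) (l 15132512)))) (a (l 14916656) (l 14928608))) (c (a (c (l 15260872) (a (l 15150712) (l 15159168))) (b (l 15212560) (l 15360672))) (a (c (a (l 15008640) (c (l 15070712) (l 14991744))) (l 14882976)) (c (a (l 15047096) (l 15052072)) (a (c (l 14941144) (l 14863064)) (c (l 14961160) (l 14884704))))))) (a (l 14580600) (a (l 14575208) (l 14575056)))) (a (a (a (a (c (c (l 15236136) (c (l 15051288) (l 14932864))) (l 14576888)) (l 6)) (l 6)) (l 6)) (l 6)))) (a (a (c (b (l 15088416) (a (l 15115328) (l 15059576))) (l 14770824)) (c (a (b (l 15002680) (l 15012848)) (a (b (l 14977336) (c (l 15112968) (l 14877480))) (c (c (b (l 15171768) (c (c (a (l 15242920) (l 15267040)) (l 15220080)) (l 15173240))) (l 15066128)) (l 14884472)))) (a (l 14597360)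 (a (l 14525728) (l 14517184))))) (a (a (c (c (b (a (c (c (l 15302408) (l 15183544)) (l 15081376)) (c (a (c (l 15302072) (l 15233936)) (l 15284984)) (a (l 15113600) (c (l 15186456) (l 15101568))))) (a (c (c (a (l 15283912) (c (l 15365976) (l 15303440))) (l 15222240)) (l 15114192)) (a (b (c (l 15299480) (l 15141080)) (l 6)) (l 6)))) (a (l 14902640) (b (l 14914624) (l 14940112)))) (b (l 14514288) (l 14507696))) (b (a (a (c (a (c (c (l 15293936) (l 15166256)) (l 14932000)) (l 6)) (l 14512728)) (l 6)) (l 6)) (l 6))) (l 6)))), by decide +kernel⟩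

def k13_pm_113 : ∃ t, chk3 f_pm_113 t 60 31 1 = true :=
  ⟨(b (b (c (c (b (c (b (l 15221024) (l 15242016)) (l 15211216)) (c (b (l 15253936) (l 15254152)) (b (l 15140552) (l 15180272)))) (a (l 15034120) (l 14972776))) (l 14743664)) (c (c (b (c (l 15239704) (b (l 15168424) (l 15166128))) (a (l 15196800) (l 15195488))) (b (c (b (l 15055784) (c (l 15102672) (l 15038936))) (l 14958000)) (c (a (l 15092032) (l 15059616)) (a (l 15002984) (b (l 14947960) (l 14956520)))))) (a (l 14783152) (l 14677464)))) (b (c (b (c (a (l 15191008) (a (l 15196984) (b (l 15205544) (l 15214880)))) (a (b (l 15037528) (l 15036176)) (b (c (l 15052904) (l 14961448)) (l 15005056)))) (a (l 15116080) (a (c (l 15212264) (l 15011600)) (a (b (l 15113304) (l 6)) (l 6))))) (c (b (a (c (b (l 14915224) (l 14918384)) (l 14817848)) (c (b (l 14846640) (c (l 14884888) (l 14822520))) (l 14728824))) (c (a (l 14910128) (a (l 14863592) (l 14835568))) (a (b (l 14826120) (l 14828016)) (b (c (l 14768672) (l 14703424)) (c (l 14773576) (l 14713128))))))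 (a (l 14686496) (b (l 14565968) (l 14563200))))) (b (b (c (a (l 15120656) (c (c (l 15297680) (l 15185112)) (l 15015480))) (c (a (l 14865688) (l 14794552)) (a (l 14689792) (l 14565240)))) (a (c (a (l 15129424) (l 15128192)) (c (l 14865400) (c (c (l 14758856) (l 14714688)) (l 14643976)))) (l 6))) (a (b (c (a (l 15136592) (c (l 15231216) (l 15041832))) (c (l 14868232) (c (l 14735712) (l 14620576)))) (a (c (a (l 15144872) (l 15143616)) (c (l 14893408) (c (l 14767072) (c (l 14704456) (l 14661272))))) (l 6))) (l 6))))), by decide +kernel⟩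

def k14_pm_113 : ∃ t, chk3 f_pm_113 t 61 31 1 = true :=
  ⟨(a (b (c (b (c (b (c (b (l 15195784) (l 15223944)) (l 15082000)) (c (b (l 15244800) (l 15256040)) (b (l 15106144) (l 15132512)))) (b (l 14916656) (l 14928608))) (c (b (c (l 15260872) (b (l 15150712) (l 15159168))) (a (l 15212560) (l 15360672))) (b (c (b (l 15008640) (c (l 15070712) (l 14991744))) (l 14882976)) (c (b (l 15047096) (l 15052072)) (b (c (l 14941144) (l 14863064)) (c (l 14961160) (l 14884704))))))) (b (l 14580600) (b (l 14575208) (l 14575056)))) (a (b (b (b (b (c (c (l 15222696) (l 14987488)) (l 14601296)) (l 6)) (l 6)) (l 6)) (l 6)) (l 6))) (b (b (c (c (a (b (c (c (l 15302408) (l 15183544)) (l 15081376)) (c (b (c (l 15302072) (l 15233936)) (l 15284984)) (b (l 15113600) (c (l 15186456) (l 15101568))))) (b (c (c (b (l 15283912) (c (l 15365976) (l 15303440))) (l 15222240)) (l 15114192)) (a (b (c (l 15299480) (l 15141080)) (l 6)) (l 6)))) (b (l 14902640) (a (l 14914624) (l 14940112)))) (a (l 14514288) (l 14507696))) (a (b (b (c (c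 (c (l 15296976) (l 15169768)) (c (l 15010840) (l 14863336))) (l 14512728)) (l 6)) (l 6)) (l 6))) (l 6))), by decide +kernel⟩

def k15_pm_113 : ∃ t, chk3 f_pm_113 t 31 31 1 = true :=
  ⟨(a (a (a (a (b (b (b (b (c (c (c (c (l 15332312) (l 15239960)) (l 15132896)) (l 14926096)) (l 14508024)) (l 6)) (l 6)) (l 6)) (l 6)) (l 6)) (l 6)) (l 6)) (l 6)), by decide +kernel⟩

theorem s16_pm_113 : ∃ t, chk3 f_pm_113 t 30 31 1 = true := ex3_a k13_pm_113 k14_pm_113

theorem s17_pm_113 : ∃ t, chk3 f_pm_113 t 15 31 1 = true := ex3_a s16_pm_113 k15_pm_113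

theorem s18_pm_113 : ∃ t, chk3 f_pm_113 t 15 30 1 = true := ex3_b k11_pm_113 k12_pm_113

theorem s19_pm_113 : ∃ t, chk3 f_pm_113 t 15 15 1 = true := ex3_b s18_pm_113 s17_pm_113

theorem s20_pm_113 : ∃ t, chk3 f_pm_113 t 14 31 1 = true := ex3_a k9_pm_113 k10_pm_113

theorem s21_pm_113 : ∃ t, chk3 f_pm_113 t 14 15 1 = true := ex3_b k8_pm_113 s20_pm_113

theorem s22_pm_113 : ∃ t, chk3 f_pm_113 t 7 15 1 = true := ex3_a s21_pm_113 s19_pm_113

theorem s23_pm_113 : ∃ t, chk3 f_pm_113 t 31 14 1 = true := ex3_b k6_pm_113 k7_pm_113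

theorem s24_pm_113 : ∃ t, chk3 f_pm_113 t 15 14 1 = true := ex3_a k5_pm_113 s23_pm_113

theorem s25_pm_113 : ∃ t, chk3 f_pm_113 t 7 14 1 = true := ex3_a k4_pm_113 s24_pm_113

theorem s26_pm_113 : ∃ t, chk3 f_pm_113 t 7 7 1 = true := ex3_b s25_pm_113 s22_pm_113

theorem s27_pm_113 : ∃ t, chk3 f_pm_113 t 7 3 1 = true := ex3_b k3_pm_113 s26_pm_113

theorem s28_pm_113 : ∃ t, chk3 f_pm_113 t 3 3 1 = true := ex3_a k2_pm_113 s27_pm_113

theorem s29_pm_113 : ∃ t, chk3 f_pm_113 t 3 1 1 = true := ex3_b k1_pm_113 s28_pm_113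

theorem s30_pm_113 : ∃ t, chk3 f_pm_113 t 1 1 1 = true := ex3_a k0_pm_113 s29_pm_113

theorem c_pm_113 : CertNX 536870912 536870912 536870912 536870912 1046898278 26843546 3 true true false .nn 1 1 3
    ndN0q1 ndN0q1 pcN3 cut_pm_113 Ext.none :=
  certNX0 (fam := true) (s1 := true) (s2 := false) (a := 1) (b := 1) (c := 3) (cn := .nn) (n1 := ndN0q1) (n2 := ndN0q1) (pc := pcN3) (cut := cut_pm_113) (xt := Ext.none) (P1 := 536870912) (W1 := 536870912) (P2 := 536870912) (W2 := 536870912) (P3 := 1046898278) (W3 := 26843546) (N0 := 3)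
    rfl s30_pm_113

noncomputable def cut_pm_123 : Cut := Cut.of [[⟨0, 1, 0, 67108864⟩, ⟨1, 1, 0, 67108864⟩, ⟨2, 2, 0, 67108864⟩]]

noncomputable def f_pm_123 : ℕ → ℕ → ℕ → ℕ → Bool := onCell 1610612736 536870912 0 536870912 1046898278 26843546
    (rowNX 3 2 true true false .npn 1 2 3 (qsf 536870912 536870912 0 536870912 3) ndN0q1 ndN0q2 pcN3 cut_pm_123 Ext.none)

def k0_pm_123 : ∃ t, chk3 f_pm_123 t 2 2 1 = true :=
  ⟨(a (a (l 1) (b (l 1) (a (l 1) (a (l 1) (b (l 1) (c (l 16777216) (l 16777216))))))) (c (c (b (a (b (c (a (l 16777216) (l 16777216)) (l 16777216)) (c (l 16777216) (l 16777216))) (a (b (c (l 16777216) (l 16777216)) (l 16777216)) (b (b (a (l 16777216) (b (l 163980509191) (l 16777216))) (c (l 16777216) (l 16777216))) (c (l 16777216) (l 16777216))))) (a (b (a (l 16777216) (l 16777216)) (b (l 16777216) (l 16777216))) (b (a (l 16777216) (l 16777216)) (b (l 16777216) (l 16777216))))) (c (b (a (b (l 16777216) (l 16777216)) (b (a (l 16777216) (a (l 16777216) (l 16777216))) (l 16777216))) (a (b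 (l 16777216) (l 16777216)) (b (l 16777216) (l 16777216)))) (b (a (b (l 16777216) (l 16777216)) (b (a (l 16777216) (b (l 25467813895) (l 16777216))) (l 16777216))) (a (b (l 16777216) (l 16777216)) (b (l 16777216) (l 16777216)))))) (b (a (c (b (a (l 16777216) (l 16777216)) (c (l 16777216) (l 16777216))) (b (a (l 16777216) (l 16777216)) (c (l 16777216) (l 16777216)))) (c (b (a (c (l 16777216) (l 16777216)) (b (a (l 16777216) (l 16777216)) (l 16777216))) (a (l 16777216) (l 16777216))) (a (b (l 16777216) (l 16777216)) (b (c (l 36205232135) (l 16777216)) (l 16777216))))) (a (b (c (a (l 16777216) (l 16777216)) (l 16777216)) (c (l 16777216) (l 16777216))) (b (c (a (l 16777216) (l 16777216)) (a (l 16777216) (l 16777216))) (c (a (l 16777216) (l 16777216)) (a (l 16777216) (l 16777216)))))))), by decide +kernel⟩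

def k1_pm_123 : ∃ t, chk3 f_pm_123 t 2 6 1 = true :=
  ⟨(a (a (l 1) (b (c (c (l 16777216) (l 16777216)) (c (l 16777216) (l 16777216))) (c (b (c (l 16711344) (l 16710184)) (l 11307123527)) (b (c (l 16709016) (l 16707832)) (l 16491400))))) (b (c (a (c (l 16777216) (l 16777216)) (c (l 16777216) (l 16777216))) (a (c (l 16777216) (l 16777216)) (c (l 16777216) (l 16777216)))) (c (a (b (c (l 16711344) (l 16710184)) (c (l 16523608) (l 16519160))) (b (c (l 16711344) (l 16710184)) (l 16521384))) (a (b (c (l 16709016) (l 16707832)) (l 16470432)) (b (c (l 16709016) (l 16707832)) (l 16512376)))))), by decide +kernel⟩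

def k2_pm_123 : ∃ t, chk3 f_pm_123 t 2 7 1 = true :=
  ⟨(b (a (a (a (l 1) (b (c (l 16307688) (l 16291144)) (c (l 15998744) (l 15993040)))) (c (b (c (l 16311768) (l 16303608)) (a (l 15935832) (l 16019712))) (b (l 16249200) (a (l 15993040) (l 15993040))))) (c (b (a (c (l 16311768) (l 16303608)) (l 16307688)) (a (b (l 16114816) (l 15922720)) (b (l 16114816) (l 15922720)))) (a (b (l 16228232) (a (l 15993040) (l 15993040))) (b (l 16291144) (b (l 16091488) (l 15892640)))))) (a (b (c (a (b (l 30096020743) (c (c (l 15676816) (l 15659168)) (l 15636680))) (b (a (l 15727072) (l 15727072)) (c (c (l 15676816) (l 15659168)) (l 15636680)))) (a (c (l 15657304) (l 15637840)) (a (l 15647568) (l 15647568)))) (c (c (a (l 15516256) (l 15516256)) (b (a (b (l 15576816) (l 15518816)) (b (l 15576816) (l 15518816))) (a (l 15440800) (l 15440800)))) (c (b (a (l 15517432) (l 15517432)) (c (l 15428544) (a (l 15415184) (l 15415184)))) (b (l 15494456) (c (b (l 15428928) (a (l 15378584) (l 15378584))) (a (l 15386064) (l 15386064)))))))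 (b (c (b (a (l 15727072) (l 15727072)) (c (a (b (l 15689752) (l 15650936)) (b (l 15689752) (l 15650936))) (a (l 15636680) (l 15636680)))) (a (l 15647568) (l 15647568))) (c (c (a (l 15516256) (l 15516256)) (b (b (a (l 15576816) (l 15576816)) (l 15518816)) (l 15440800))) (b (c (a (l 15517432) (l 15517432)) (l 15494456)) (c (b (a (l 15445872) (l 15445872)) (l 15394848)) (b (l 15424240) (a (l 15371256) (c (l 15378584) (l 15364344)))))))))), by decide +kernel⟩

def k3_pm_123 : ∃ t, chk3 f_pm_123 t 12 2 1 = true :=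
  ⟨(b (b (b (a (a (c (b (l 4) (c (l 166127992839) (l 16777216))) (c (l 180623507463) (l 179012894727))) (l 4)) (l 4)) (a (c (c (a (l 16777216) (b (l 170959831047) (l 16777216))) (a (l 16777216) (c (l 16777216) (l 16777216)))) (c (a (l 16777216) (l 19562233863)) (a (l 16777216) (l 16777216)))) (a (c (b (l 4) (c (l 176328540167) (l 177402281991))) (c (l 188139700215) (l 186529087479))) (l 4)))) (c (a (c (c (l 16777216) (l 16777216)) (c (l 16777216) (l 16777216))) (c (a (b (l 16777216) (l 16777216)) (b (b (l 183844732919) (l 16777216)) (l 16777208))) (b (a (l 16777216) (c (l 160222412759) (l 16777216))) (l 16777208)))) (a (c (c (l 16777216) (l 16777216)) (c (l 16777216) (l 16777216))) (c (b (a (l 16777216) (c (l 16777216) (l 16777216))) (l 16777208)) (b (a (l 16777216) (l 161296154551)) (l 16777208)))))) (c (b (c (a (l 16777216) (c (l 16777208) (l 16777208))) (a (l 16777216) (l 16777208))) (a (c (l 16777216) (l 16777216)) (c (l 16777200) (l 16777192)))) (b (c (a (l 16777216) (l 16777208)) (a (l 16777216)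 (l 16777208))) (a (c (l 16777216) (l 16777216)) (c (l 16777192) (l 16777192)))))), by decide +kernel⟩

def k4_pm_123 : ∃ t, chk3 f_pm_123 t 12 3 1 = true :=
  ⟨(b (b (c (c (b (a (l 16777216) (l 16777192)) (l 16777200)) (b (l 16777200) (l 16777200))) (c (b (l 16777200) (l 16777200)) (b (l 16777200) (l 16777200)))) (c (b (c (l 16669408) (l 16689224)) (a (l 16521384) (l 16521408))) (b (c (l 16688056) (l 16707840)) (a (l 16512376) (l 16512400))))) (b (b (c (a (l 16307688) (l 16307704)) (a (l 16291144) (l 16291168))) (c (b (l 16114832) (l 15922728)) (b (l 16091504) (l 15892656)))) (b (c (b (b (l 15769208) (l 15699440)) (c (b (l 15626848) (l 15567064)) (l 15636688))) (b (l 15697832) (l 15596328))) (c (b (c (l 15564792) (b (l 15492944) (l 15518824))) (l 15451976)) (b (c (b (l 15539472) (l 15500256)) (l 15494472)) (c (b (c (l 15454368) (l 15440888)) (l 15394864)) (b (l 15424256) (c (l 15378600) (l 15364360))))))))), by decide +kernel⟩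

def k5_pm_123 : ∃ t, chk3 f_pm_123 t 13 2 1 = true :=
  ⟨(b (b (l 4) (b (a (a (c (b (l 4) (c (l 194582151159) (l 194045280215))) (c (l 199950860247) (l 197803376599))) (l 4)) (l 4)) (a (c (c (a (c (l 16777208) (l 16777208)) (b (l 207467053047) (a (l 16777216) (l 16777216)))) (a (l 32447135735) (c (l 177402281911) (l 176865410999)))) (c (a (l 16777208) (c (l 176865410999) (l 176328540087))) (a (l 16777208) (l 175254798263)))) (l 4)))) (c (a (b (c (b (a (l 16777200) (l 16777208)) (l 16777192)) (c (l 16777200) (l 16777200))) (c (b (l 16777176) (l 16777168)) (c (l 16777168) (l 16777168)))) (b (b (a (c (b (l 175254798295) (l 16777208)) (b (l 174181056439) (l 16777208))) (b (l 4) (c (l 194582151127) (l 191897796567)))) (a (c (l 16777200) (l 16777200)) (c (l 29762781143) (l 16777208)))) (c (b (l 16777192) (l 16777176)) (b (l 16777192) (l 16777176))))) (a (b (c (a (l 16777200) (l 16777200)) (a (l 16777192) (l 16777200))) (c (l 16777168) (l 16777168))) (a (b (b (c (l 21172846503) (l 16777208)) (l 16777192))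 (c (l 16777168) (l 16777168))) (b (c (b (l 198340247511) (l 16777208)) (b (l 194045280183) (l 16777208))) (c (l 16777192) (l 16777192))))))), by decide +kernel⟩

def k6_pm_123 : ∃ t, chk3 f_pm_123 t 13 3 1 = true :=
  ⟨(b (b (c (a (b (c (l 16777152) (l 16777152)) (l 16777144)) (b (c (l 16777160) (l 16777160)) (c (l 16777144) (l 16777144)))) (a (b (l 16777152) (l 16777144)) (b (c (l 16777160) (l 16777160)) (c (l 16777144) (l 16777144))))) (c (b (a (l 16668880) (b (l 16753912) (l 16666856))) (a (l 16521448) (l 16521440))) (b (a (l 16687520) (b (l 16753104) (l 16662976))) (a (l 16512440) (l 16512440))))) (b (b (c (a (l 16307744) (l 16223848)) (a (l 16291216) (l 16291208))) (c (b (a (l 16114872) (l 16114864)) (a (l 15922776) (l 15922768))) (a (l 15993112) (b (l 16091552) (l 15892696))))) (b (c (b (b (l 15769248) (a (l 15699488) (l 15699472))) (c (b (c (a (l 15698616) (l 15698608)) (l 15665104)) (c (l 15661392) (l 15562304))) (a (l 15636736) (l 15636728)))) (a (l 15647632) (l 15605680))) (c (b (c (a (l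 15564840) (l 15564808)) (b (c (l 15587072) (l 15568304)) (l 15518856))) (a (l 15452016) (a (l 15452024) (l 15437736)))) (b (b (l 15528928) (c (a (l 15500304) (l 15437352)) (l 15470896))) (c (b (c (l 15452632) (b (l 15459960) (l 15427856))) (a (l 15394912) (l 15381880))) (b (a (l 15424312) (l 15420704)) (a (c (l 15378656) (l 15364416)) (c (a (l 15378664) (l 15354328)) (b (l 15371512) (a (l 15353536) (l 15323736)))))))))))), by decide +kernel⟩

def k7_pm_123 : ∃ t, chk3 f_pm_123 t 14 2 1 = true :=
  ⟨(b (l 4) (b (b (l 4) (a (a (c (c (a (b (l 211762020343) (l 16777216)) (l 209077665799)) (a (l 170959830999) (l 204782698487))) (c (a (l 16777216) (l 199413989335)) (l 174181056439))) (l 4)) (l 4))) (a (c (a (c (b (l 16777208) (l 16777208)) (b (l 16777208) (l 16777208))) (b (a (c (b (l 16777216) (l 16777216)) (l 16777216)) (c (b (l 261154150151) (l 16777080)) (b (l 259006666503) (l 16777080)))) (c (a (l 16777216) (l 16776504)) (a (l 16777216) (l 16776488))))) (a (c (b (l 16777208) (l 16777208)) (l 16777208))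 (b (c (a (l 16777216) (b (l 255785441127) (l 16777072))) (a (l 16777216) (l 172033561863))) (c (l 16776760) (l 16776752))))) (b (a (a (c (c (l 226257534919) (l 220351954887)) (c (l 213909497719) (l 248269235751))) (l 4)) (l 4)) (a (c (c (a (l 37278969607) (b (l 203708950727) (l 16775448))) (a (l 16775584) (b (l 199413983095) (l 16775416)))) (c (a (l 16775552) (b (l 193508403063) (l 16775384))) (a (l 16775528) (l 150021851207)))) (a (b (l 4) (c (c (a (l 16776704) (l 219815081159)) (l 186529080023)) (c (l 181697241143) (l 16776736)))) (l 4))))))), by decide +kernel⟩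

def k8_pm_123 : ∃ t, chk3 f_pm_123 t 14 6 2 = true :=
  ⟨(a (b (c (a (b (l 16777200) (l 16777192)) (b (l 16776336) (l 16775888))) (a (l 16777192) (b (l 16776320) (l 16775864)))) (b (a (b (l 16753880) (l 16666816)) (a (l 16626880) (b (l 16755056) (l 16669392)))) (a (l 16521400) (a (l 16521384) (l 16524528))))) (b (a (c (b (a (l 16772152) (l 16770856)) (l 16766152)) (b (a (l 16772064) (l 16770744)) (l 16765960))) (b (a (c (b (l 16774192) (l 16769752)) (l 16771856)) (c (b (a (l 16776288) (l 209077661287)) (l 16772816)) (b (a (l 16776272) (l 207467048215)) (l 16772744)))) (c (a (l 16762744) (b (l 16766904) (l 16760784))) (a (l 16762496) (l 16763600))))) (a (b (b (b (l 16759032) (l 16726936)) (a (l 16671816) (l 16663624))) (b (a (l 16581424) (l 16577912)) (l 16485176))) (b (c (b (b (l 16731360) (l 16717952)) (l 16655552)) (b (l 16687344) (l 16653736))) (a (b (l 16568952) (l 16475840)) (b (l 16562616) (a (l 16468832) (b (l 16489352) (l 16444240))))))))), by decide +kernel⟩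

def k9_pm_123 : ∃ t, chk3 f_pm_123 t 14 14 2 = true :=
  ⟨(a (b (a (l 16307696) (a (l 16307672) (l 16311576))) (b (a (l 16114816) (l 16117152)) (a (l 15922720) (a (l 15922696) (l 15926976))))) (b (a (b (l 16380344) (l 16269424)) (b (a (l 16377144) (a (l 16381736) (l 16399392))) (a (l 16282104) (l 16300544)))) (a (b (a (l 16130744) (l 16140400)) (a (l 15936536) (l 15945400))) (b (a (l 16153904) (l 16132504)) (a (l 15959304) (l 15980592)))))), by decide +kernel⟩

def k10_pm_123 : ∃ t, chk3 f_pm_123 t 28 15 2 = true :=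
  ⟨(b (b (a (b (l 15769192) (l 15699424)) (b (a (l 15769168) (l 15769136)) (a (l 15696872) (l 15689608)))) (a (c (b (c (l 15677392) (l 15664832)) (c (l 15657896) (b (l 15653576) (l 15637504)))) (b (l 15647792) (c (l 15619584) (l 15595112)))) (a (c (b (c (b (l 15687912) (l 15683880)) (l 15654528)) (c (l 15638024) (l 15619224))) (b (l 15635176) (l 15588976))) (c (b (c (l 15596056) (l 15641904)) (c (l 15625768) (b (l 15618032) (l 15593720)))) (b (l 15618056) (c (b (l 15577328) (l 15560592)) (l 15543048))))))) (b (a (c (b (l 15578848) (l 15499568)) (b (c (b (l 15592112) (l 15560752)) (l 15468208)) (l 15483336))) (c (a (l 15504912) (b (l 15528800) (l 15436112))) (b (a (c (l 15531136) (l 15506224)) (c (l 15509328) (l 15480576))) (a (l 15426544) (l 15399280))))) (a (l 15370896) (a (l 15308392) (a (l 15282976) (l 15275960)))))), by decide +kernel⟩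

def k11_pm_123 : ∃ t, chk3 f_pm_123 t 29 15 2 = true :=
  ⟨(b (b (a (b (l 15776352) (l 15694168)) (b (l 15803960) (l 15762624))) (a (c (b (c (b (l 15687752) (l 15681152)) (l 15646624)) (c (a (l 15628984) (l 15638008)) (b (b (l 15618176) (l 15615888)) (l 15595432)))) (b (l 15616888) (c (a (l 15571808) (l 15574232)) (l 15536712)))) (c (b (c (b (l 15722944) (c (l 15732248) (l 15701360))) (l 15674616)) (b (c (l 15690968) (c (l 15659736) (l 15624752))) (a (l 15619184) (c (l 15657288) (l 15632152))))) (b (l 15634344) (c (a (l 15708624) (a (l 15594496) (l 15605512))) (l 15546264)))))) (b (a (c (b (l 15530904) (l 15434824)) (b (c (b (l 15527584) (l 15485736)) (b (l 15480816) (l 15453616))) (c (l 15399248) (l 15375096)))) (c (a (l 15503088) (b (l 15570152) (l 15469272))) (b (b (c (a (l 15535152) (l 15550200)) (l 15485328)) (c (l 15496280) (a (l 15452112) (l 15459920)))) (a (l 15383944) (c (l 15411816) (l 15373024)))))) (a (a (l 15267864) (c (l 15300336) (l 15219848))) (a (b (l 15312696) (l 15201512)) (b (c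 (l 15373800) (l 15271040)) (l 15207040)))))), by decide +kernel⟩

def k12_pm_123 : ∃ t, chk3 f_pm_123 t 14 6 3 = true :=
  ⟨(a (b (c (a (l 16777192) (b (l 16776304) (l 16775840))) (a (l 16777192) (b (l 16776288) (l 16775816)))) (b (a (b (l 16753056) (l 16662936)) (a (l 16645512) (b (l 16754704) (l 16666384)))) (a (l 16512392) (a (l 16512368) (l 16516592))))) (b (a (c (b (l 16771024) (l 16765760)) (b (l 16770912) (l 16765568))) (b (a (c (l 16771760) (l 16771664)) (c (b (l 172570432311) (l 16772664)) (b (l 169349203527) (l 16772584)))) (c (a (l 16762240) (l 16763360)) (a (l 16761976) (l 16763120))))) (a (b (b (l 16700024) (l 16623096)) (b (l 16580464) (l 16481096))) (b (c (b (l 16691832) (l 16651896)) (b (l 16712040) (l 16650032))) (a (b (l 16564048) (l 16470168)) (b (l 16556936) (b (l 16484144) (l 16437728)))))))), by decide +kernel⟩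

def k13_pm_123 : ∃ t, chk3 f_pm_123 t 14 7 3 = true :=
  ⟨(b (a (b (a (l 16291152) (a (l 16291128) (l 16296416))) (a (l 15909160) (b (l 16073656) (l 15853240)))) (b (a (b (l 16373400) (l 16259256)) (b (a (l 16371056) (a (l 16375376) (l 16395600))) (a (l 16273856) (l 16284392)))) (a (b (a (l 16113848) (l 16123312)) (l 15823272)) (b (a (l 16129584) (l 16140176)) (l 15916736))))) (a (b (a (b (l 15697808) (l 15591808)) (a (b (l 15694920) (l 15565864)) (b (l 15686568) (l 15537744)))) (b (a (b (l 15509264) (c (b (l 15481344) (l 15399944)) (l 15423352))) (c (b (l 15451888) (c (a (l 15402984) (l 15264408)) (l 15354912))) (l 15367640))) (c (a (b (c (l 15378888) (l 15359976)) (l 15267992)) (b (c (l 15282272) (b (l 15287784) (l 15228192))) (a (l 15178232) (l 15129952)))) (b (a (l 15335152) (a (l 15240880) (l 15189624))) (a (c (l 15238960) (l 15216152)) (c (a (l 15137304) (l 14975712)) (b (l 15110784) (a (l 15076584) (l 15011632))))))))) (b (a (b (l 15680384) (a (l 15527112) (l 15519592))) (b (l 15620752) (a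 (l 15516016) (l 15518112)))) (b (a (c (b (l 15418600) (c (b (l 15373888) (l 15325832)) (l 15308744))) (l 15314968)) (c (b (l 15407024) (c (b (a (l 15361736) (l 15360784)) (c (l 15319448) (l 15294688))) (l 15280456))) (l 15277200))) (c (b (a (c (l 15233480) (b (l 15232864) (l 15166416))) (c (l 15202536) (b (c (l 15207328) (l 15179240)) (l 15117144)))) (a (l 15085720) (a (l 15042776) (l 15016872)))) (b (a (l 15142432) (a (l 15094560) (l 15063224))) (a (c (b (l 15059800) (l 14986496)) (b (l 15019680) (c (l 14954056) (l 14930632)))) (c (b (c (l 14999544) (l 14970168)) (l 14896616)) (b (l 14927928) (c (l 14850864) (b (l 14844184) (l 14794752)))))))))))), by decide +kernel⟩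

def k14_pm_123 : ∃ t, chk3 f_pm_123 t 30 2 1 = true :=
  ⟨(l 4), by decide +kernel⟩

def k15_pm_123 : ∃ t, chk3 f_pm_123 t 30 12 1 = true :=
  ⟨(b (b (l 4) (a (a (c (c (a (c (l 157538040055) (l 16775952)) (b (l 4) (l 189213429175))) (a (l 16775936) (l 202635210599))) (c (a (l 16775912) (l 201024597863)) (l 165591104759))) (l 4)) (l 4))) (a (c (a (c (c (a (l 16767400) (l 16771072)) (l 16768864)) (b (l 16772104) (l 16765480))) (c (b (a (c (l 153779953319) (l 153243076839)) (b (l 4) (l 187065946999))) (a (l 16771576) (c (l 16775048) (l 16774456)))) (b (a (l 147874375511) (l 198877114295)) (a (l 16770928) (l 16774208))))) (a (c (b (l 16772016) (l 16765272)) (l 16768464)) (c (b (a (l 16776008) (l 199950856119)) (l 16772464)) (b (l 166664849351) (l 16772376))))) (b (l 4) (a (a (c (c (c (l 157001179703) (l 156464307399)) (c (l 155927431271) (l 16776296))) (c (l 151632471767) (l 16776272))) (a (c (c (l 194045275383) (l 197803387239)) (c (l 201024600071) (l 16777176))) (l 4))) (l 4))))), by decide +kernel⟩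

def k16_pm_123 : ∃ t, chk3 f_pm_123 t 30 52 1 = true :=
  ⟨(a (c (c (b (a (c (l 16757456) (l 16756552)) (c (l 16765936) (l 16743480))) (a (l 16721248) (l 16687224))) (a (l 16696160) (b (l 16763808) (l 16726760)))) (a (c (l 16716448) (l 16736720)) (c (b (l 16763576) (l 16725936)) (l 16702368)))) (b (a (c (a (c (l 16749384) (l 16748200)) (b (a (c (l 16776792) (l 16776520)) (a (c (l 16776912) (l 16776888)) (l 4))) (c (a (l 16768360) (c (l 16754296) (l 16754320))) (a (l 16767576) (c (l 16754352) (l 16775328)))))) (a (c (l 16768984) (l 16768840)) (c (a (l 16772080) (b (l 16776480) (l 16775288))) (a (l 16772000) (l 153779918775))))) (b (l 4) (a (a (c (c (l 239142401175) (l 255248520423)) (l 280481461911)) (l 4)) (l 4)))) (a (c (a (c (a (l 16733272) (l 16716736)) (l 16692248)) (c (a (l 16723760) (l 16754712)) (a (l 16723448) (l 16733136)))) (a (c (l 16733504) (l 16732880)) (c (a (l 16743736) (l 16752920)) (l 16726424)))) (a (c (c (a (l 16759992) (l 162906724407)) (c (l 141968731751) (l 143042467223))) (c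 (l 143042473127) (l 16755728))) (l 4))))), by decide +kernel⟩

def k17_pm_123 : ∃ t, chk3 f_pm_123 t 30 53 1 = true :=
  ⟨(a (c (a (c (l 16635400) (l 16653848)) (c (a (l 16640776) (b (l 16688248) (l 16632928))) (a (l 16658568) (b (l 16684992) (l 16650832))))) (a (l 16630064) (c (a (l 16656872) (l 16647832)) (l 16600512)))) (a (c (a (c (b (a (l 16697352) (l 16706624)) (l 16673152)) (b (l 16681624) (l 16671616))) (c (a (l 16702016) (b (l 16726608) (l 16697144))) (c (a (l 16700904) (l 16710832)) (l 16704416)))) (a (c (l 16665232) (l 16684520)) (c (a (l 16696696) (l 16706408)) (l 16697664)))) (c (a (c (c (a (l 16728088) (l 16744904)) (l 16735800)) (c (l 16735248) (l 16734472))) (b (c (a (c (l 16755976) (l 16756112)) (c (l 167738554567) (l 170959779719))) (c (l 148948063655) (a (l 16756080) (l 177939098151)))) (c (a (l 16726624) (b (l 119420181191) (l 16759024))) (c (l 16756552) (l 16745768))))) (a (c (l 16732536) (l 16729832)) (c (a (l 64122391863) (b (l 182770940375) (l 16765816))) (b (l 156464253031)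 (l 16753912))))))), by decide +kernel⟩

def k18_pm_123 : ∃ t, chk3 f_pm_123 t 30 27 1 = true :=
  ⟨(a (a (c (b (c (a (l 16563096) (l 16549984)) (l 16564824)) (a (b (l 16494488) (a (l 16455400) (l 16471696))) (l 16462824))) (b (a (l 16555552) (l 16542480)) (b (l 16502840) (l 16476408)))) (c (b (c (a (l 16548072) (l 16607928)) (a (l 16587136) (l 16605808))) (c (l 16530504) (l 16524864))) (b (a (l 16542624) (l 16600944)) (l 16513792)))) (a (c (c (b (a (l 16626544) (a (l 16639896) (l 16650200))) (a (l 16557096) (l 16597168))) (a (b (l 16622552) (l 16549144)) (b (a (l 16635296) (l 16645584)) (a (l 16562528) (l 16573400))))) (c (a (l 16536456) (b (l 16632800) (l 16555304))) (a (l 16569408) (b (l 16624664) (l 16541928))))) (c (c (a (b (b (l 16690152) (l 16657648)) (l 16626696)) (b (c (b (l 16705528) (l 16694376)) (b (l 16725520) (l 16692632))) (b (l 16659384) (l 16623560)))) (a (b (c (l 16671512) (l 16669312)) (c (l 16600520) (l 16596360))) (b (c (l 16666136) (l 16643928)) (c (l 16637184) (l 16634232)))))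 (c (a (b (l 16664168) (l 16587224)) (b (l 16682616) (l 16627128))) (a (b (l 16657008) (l 16574560)) (b (l 16698552) (l 16616312))))))), by decide +kernel⟩

def k19_pm_123 : ∃ t, chk3 f_pm_123 t 60 14 1 = true :=
  ⟨(b (c (a (c (b (a (l 16414288) (c (l 16429920) (l 16426568))) (c (l 16334200) (l 16328072))) (b (l 16414544) (l 16317336))) (c (b (c (l 16454368) (a (l 16441904) (l 16416720))) (c (l 16365832) (l 16358240))) (b (l 16419648) (l 16343416)))) (b (a (l 16404200) (c (l 16426776) (l 16412800))) (a (l 16295584) (l 16310928)))) (c (c (a (a (b (l 16182576) (l 16016752)) (b (l 16133448) (l 16031632))) (b (b (l 16261936) (l 16200952)) (c (l 16069648) (l 16050656)))) (b (a (l 16187256) (l 16214632)) (a (l 15988360) (l 16017880)))) (b (a (l 16151352) (l 16166904)) (a (l 15933232) (l 15948384))))), by decide +kernel⟩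

def k20_pm_123 : ∃ t, chk3 f_pm_123 t 60 30 1 = true :=
  ⟨(c (c (b (b (a (l 15865784) (l 15905128)) (a (l 15786944) (c (l 15843936) (l 15813040)))) (b (c (b (a (c (l 15783288) (l 15754768)) (c (l 15828576) (l 15798088))) (c (a (l 15781800) (l 15827576)) (a (l 15748208) (l 15791912)))) (a (l 15716808) (c (l 15767104) (l 15745624)))) (c (c (l 15743528) (a (l 15709640) (l 15754632))) (c (b (a (l 15703288) (l 15745168)) (l 15757120)) (b (a (l 15664240) (l 15704024)) (l 15730376)))))) (b (b (l 15832688) (l 15745240)) (c (b (l 15696816) (b (l 15642856) (c (b (l 15630424) (l 15625992)) (l 15593720)))) (l 15621488)))) (b (b (l 15751312) (l 15649784)) (a (l 15519392) (l 15525992)))), by decide +kernel⟩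

def k21_pm_123 : ∃ t, chk3 f_pm_123 t 60 31 1 = true :=
  ⟨(b (c (c (a (c (a (b (a (l 15602448) (l 15610928)) (l 15515056)) (b (c (l 15633320) (l 15616856)) (l 15535408))) (b (l 15585352) (l 15476048))) (b (c (l 15665488) (a (c (l 15623208) (l 15606368)) (c (l 15650888) (l 15632688)))) (c (a (l 15562280) (l 15597480)) (a (l 15506624) (c (l 15549600) (l 15518440)))))) (b (a (c (b (c (l 15589560) (l 15556848)) (l 15524672)) (b (l 15505712) (c (l 15488472) (l 15450304)))) (c (b (c (l 15625472) (l 15588080)) (l 15557824)) (b (l 15529880) (c (l 15513592) (l 15470208))))) (a (c (l 15429720) (b (l 15419992) (l 15351056))) (b (c (l 15491760) (l 15440160)) (l 15398480))))) (b (a (l 15363848) (l 15361776)) (c (c (a (b (l 15361512) (l 15323296)) (b (c (l 15387512) (l 15342944)) (c (l 15324952) (b (l 15303752) (l 15271688))))) (a (l 15266896) (l 15258216))) (a (l 15182640) (l 15153824))))) (a (b (c (c (c (a (a (l 15421776) (l 15431024)) (c (l 15463520) (b (l 15454392) (l 15407464)))) (l 15372760)) (a (l 15277264)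 (l 15280944))) (c (c (l 15188840) (b (c (l 15186656) (l 15150960)) (l 15082200))) (b (l 15065816) (c (l 15014856) (l 14941768))))) (c (b (c (c (a (l 15353760) (l 15375088)) (l 15288952)) (l 15176008)) (c (a (c (l 15300208) (l 15222600)) (l 6)) (l 15099624))) (c (l 14977984) (c (b (c (l 14934224) (l 14894712)) (l 14801144)) (b (l 14837216) (c (l 14737184) (l 14692656))))))) (b (b (c (c (c (l 15515256) (a (l 15428032) (l 6))) (l 15328128)) (c (c (l 15220576) (c (l 15166664) (l 15122464))) (l 15015912))) (l 6)) (l 6)))), by decide +kernel⟩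

def k22_pm_123 : ∃ t, chk3 f_pm_123 t 122 7 1 = true :=
  ⟨(b (b (c (c (b (a (l 16479040) (l 16499296)) (a (l 16390240) (b (l 16435384) (l 16389256)))) (b (a (b (l 16487624) (l 16443320)) (l 16485848)) (a (l 16433008) (c (b (l 16422696) (l 16373536)) (l 16386184))))) (b (a (l 16439320) (l 16436104)) (b (a (l 16359784) (l 16379304)) (l 16311472)))) (c (c (b (b (l 16325152) (l 16246536)) (b (l 16157656) (l 16063328))) (c (b (b (a (l 16294736) (l 16318216)) (l 16222000)) (a (l 16063848) (l 16091912))) (b (l 16267952) (l 16051240)))) (b (b (l 16246144) (l 16149912)) (l 15981944)))) (b (c (b (b (c (l 15963016) (c (l 15916688) (l 15882920))) (c (c (l 15908616) (l 15871288)) (l 15814072))) (c (b (c (b (c (b (l 15896056) (l 15897600)) (l 15863432)) (c (b (l 15902608) (l 15897632)) (b (l 15854080) (l 15857272)))) (b (l 15830232) (c (l 15837344) (l 15789504)))) (c (b (c (l 15869168) (b (l 15855296) (l 15840896))) (l 15813744)) (b (c (b (l 15808968) (l 15809256)) (b (l 15767408) (l 15760192))) (c (a (l 15765712)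 (l 15807016)) (a (l 15734832) (b (l 15779248) (l 15770536))))))) (c (b (l 15771992) (b (l 15719400) (c (b (a (l 15693632) (l 15729848)) (l 15727064)) (a (l 15652200) (l 15687664))))) (l 15686760)))) (b (b (l 15793160) (l 15689672)) (b (l 15603560) (l 15501512)))) (b (b (b (c (c (a (l 15723232) (l 15769264)) (c (c (a (l 15668656) (l 15705432)) (b (a (l 15630336) (l 15665744)) (l 15638584))) (a (l 15564128) (l 15595536)))) (l 15410832)) (a (c (c (l 15674248) (c (c (l 15612320) (l 15587624)) (c (l 15548368) (l 15500256)))) (l 15337624)) (l 6))) (l 6)) (l 6)))), by decide +kernel⟩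

def k23_pm_123 : ∃ t, chk3 f_pm_123 t 123 14 1 = true :=
  ⟨(b (c (b (c (a (l 16529640) (l 16629168)) (a (l 16517104) (l 16652016))) (c (a (b (l 16466624) (l 16421320)) (b (l 16504064) (l 16459480))) (c (a (l 16430152) (l 16468088)) (a (b (l 16444432) (l 16393688)) (b (l 16483592) (l 16433608)))))) (b (c (a (l 16499688) (l 16540296)) (a (l 16480080) (l 16522192))) (c (a (l 16398936) (l 16440464)) (a (l 16370424) (l 16412936))))) (c (b (c (b (a (l 16370752) (b (l 16424576) (l 16395568))) (l 16315560)) (a (c (l 16310792) (b (l 16336568) (l 16251376))) (b (c (l 16390064) (b (l 16393592) (l 16360472))) (l 16301664)))) (c (b (l 16252704) (a (l 16120016) (l 16167584))) (c (b (l 16197960) (l 16100456)) (a (l 16103312) (l 16147744))))) (b (b (a (l 16290920) (c (l 16351840) (l 16315088))) (l 16216504)) (c (l 16080680) (l 16019304))))), by decide +kernel⟩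

def k24_pm_123 : ∃ t, chk3 f_pm_123 t 123 15 1 = true :=
  ⟨(b (c (b (b (c (a (l 16024416) (l 16075792)) (c (l 15996120) (l 15981920))) (c (b (l 15992576) (a (l 15943760) (a (l 15984720) (b (l 16020160) (a (l 16002072) (l 16018824)))))) (a (l 15872288) (c (l 15943848) (l 15901200))))) (b (a (c (c (b (c (b (l 15968432) (l 15970704)) (l 15954520)) (c (b (l 15976544) (c (l 15982264) (l 15966608))) (b (l 15925856) (l 15930080)))) (b (l 15895592) (c (b (l 15888328) (c (l 15890152) (l 15869512))) (l 15855504)))) (c (l 15833664) (l 15784376))) (b (c (c (c (b (c (l 16038712) (b (l 16018784) (l 16016720))) (l 16033224)) (b (l 15997000) (c (l 15997360) (l 15980440)))) (l 15952920)) (l 15877384)) (l 6))) (b (a (c (c (c (l 15948936) (b (l 15929552) (l 15917368))) (c (b (l 15880288) (l 15881688)) (b (l 15835360) (l 15829280)))) (l 15775520)) (l 6)) (l 6)))) (b (b (l 15862056) (a (l 15736592) (l 15781472))) (b (a (l 15648728) (l 15692576)) (l 15560392)))) (l 6)), by decide +kernel⟩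

def k25_pm_123 : ∃ t, chk3 f_pm_123 t 31 2 1 = true :=
  ⟨(l 4), by decide +kernel⟩

def k26_pm_123 : ∃ t, chk3 f_pm_123 t 62 12 1 = true :=
  ⟨(l 4), by decide +kernel⟩

def k27_pm_123 : ∃ t, chk3 f_pm_123 t 124 13 1 = true :=
  ⟨(a (b (a (b (l 4) (b (l 4) (c (c (c (l 146800597447) (l 149484952039)) (l 153779917415)) (c (l 157538012775) (l 16750960))))) (l 4)) (c (b (c (b (a (l 16755824) (c (l 124252007431) (l 126399489591))) (a (l 16723304) (l 16723880))) (b (a (l 16755040) (c (l 16755720) (l 16755872))) (a (l 16721112) (l 16743488)))) (c (b (a (l 16689264) (l 16710832)) (l 16706248)) (c (b (l 16697264) (l 16660024)) (l 16634888)))) (c (b (a (l 16736336) (c (l 70027949431) (l 16759536))) (c (l 16632248) (l 16670328))) (b (a (l 16733400) (l 16758560)) (l 16664224))))) (b (l 4) (b (a (c (a (c (b (l 162369852631) (l 16761864)) (b (l 168812302983) (l 16761240))) (b (l 4) (c (c (l 16752328) (l 16752344)) (l 16762864)))) (c (c (c (l 137673750279) (l 138747487607)) (l 16731200)) (l 141968703767))) (b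 (l 4) (b (l 4) (c (c (c (a (l 16755504) (l 208003889047)) (l 137673802391)) (l 140895025991)) (c (c (l 16752728) (l 16773696)) (l 16773656)))))) (c (b (c (a (c (l 16734376) (l 16733288)) (c (a (l 16752408) (c (l 16764880) (l 16764672))) (l 16758032))) (a (l 16731768) (c (l 16757600) (l 16757200)))) (c (a (l 16698304) (a (l 16737576) (c (l 16688184) (l 16728664)))) (a (l 16694200) (l 16699072)))) (c (c (a (l 16690136) (l 16737736)) (l 16722440)) (a (l 16704600) (l 16733904))))))), by decide +kernel⟩

def k28_pm_123 : ∃ t, chk3 f_pm_123 t 125 13 1 = true :=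
  ⟨(b (l 4) (b (l 4) (a (b (a (c (c (c (a (b (l 148948092327) (l 6677317831)) (b (l 4) (l 134989455095))) (a (l 121030791671) (l 150021821991))) (c (a (l 16755152) (l 152169307543)) (l 134989427447))) (c (c (l 135526297527) (l 16752232)) (l 16752184))) (l 4)) (c (c (a (c (a (c (l 16743640) (l 16742808)) (l 16756720)) (l 16748888)) (a (c (l 36205212471) (b (c (l 123715160247) (l 16754760)) (l 16761032))) (b (l 4) (c (l 16754368) (c (l 16754280) (l 16754256)))))) (a (c (l 16748128) (l 16747416)) (c (a (l 16748552) (l 131231346695)) (b (l 140358152119) (l 16767600))))) (c (a (c (l 16746752) (l 16745832)) (c (l 119420152871) (l 119420146967))) (a (l 16743808) (l 16755344))))) (b (l 4) (b (l 4) (a (a (a (c (c (c (l 16751616) (l 150021839095)) (l 152706195847)) (c (l 155927415271) (l 16772344))) (l 4)) (l 4)) (l 4))))))), by decide +kernel⟩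

def k29_pm_123 : ∃ t, chk3 f_pm_123 t 62 56 2 = true :=
  ⟨(a (a (c (b (l 16647896) (l 16587648)) (b (l 16618736) (l 16576328))) (c (c (a (l 16665064) (b (l 16708488) (l 16649704))) (b (l 16713792) (l 16632248))) (b (a (l 16654512) (l 16680552)) (a (l 16612488) (l 16638808))))) (a (c (a (b (c (a (l 16707176) (l 16720944)) (l 16669440)) (c (l 16718704) (l 16672136))) (c (b (l 16742320) (l 16705712)) (b (c (a (l 16733248) (l 16748224)) (l 16739936)) (a (l 16693832) (l 16730088))))) (a (c (b (l 16709432) (l 16668696)) (l 16623912)) (b (c (l 16739088) (l 16738032)) (c (l 16698616) (l 16696208))))) (a (c (a (b (c (b (l 16751648) (l 16755360)) (b (a (l 16768776) (l 16755096)) (l 16732968))) (c (l 16728248) (c (l 16725760) (l 16724152)))) (b (c (b (l 320746804983) (l 16770144)) (b (l 144653128055) (l 16769672))) (c (l 16701680) (l 16720328)))) (b (c (a (c (l 16762632) (l 16762440)) (c (b (l 145726865559) (l 16769344)) (l 116198951015))) (a (l 16762168) (l 116735798535))) (c (a (l 16722528) (c (l 16718696)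 (l 16738968))) (l 16708440)))) (b (a (b (l 4) (c (b (l 4) (c (l 125325786215) (l 16753952))) (c (c (l 139284418615) (l 139821288183)) (l 16751824)))) (l 4)) (c (a (c (b (l 16767992) (l 16750304)) (l 16764432)) (c (b (a (l 115662109863) (l 397519345415)) (l 16766216)) (b (l 129083874615) (l 16765408)))) (c (a (c (l 16756912) (l 16756416)) (b (c (l 16763056) (l 129083870583)) (c (l 16764800) (l 16764416)))) (a (l 16755944) (b (l 129083873207) (l 16764056))))))))), by decide +kernel⟩

def k30_pm_123 : ∃ t, chk3 f_pm_123 t 62 57 2 = true :=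
  ⟨(a (a (c (b (l 16546296) (l 16502704)) (b (l 16531176) (l 16482952))) (c (c (a (l 16564424) (b (l 16610296) (l 16569192))) (b (l 16590624) (l 16546784))) (b (l 16643952) (l 16533704)))) (a (c (c (a (b (l 16658920) (l 16597576)) (b (l 16667728) (l 16628328))) (a (b (l 16631040) (l 16587944)) (b (c (l 16662256) (l 16659360)) (c (l 16620448) (l 16616184))))) (b (a (l 16623184) (c (l 16656048) (l 16651904))) (a (l 16576632) (l 16649904)))) (c (a (b (c (l 16719872) (c (l 16694664) (l 16733832))) (c (l 16660576) (a (l 16643040) (l 16660400)))) (b (c (b (a (l 16732152) (l 16748424)) (l 16742944)) (b (a (l 16728832) (l 16746248)) (l 16738704))) (c (b (l 16724344) (l 16684496)) (b (l 16697536) (l 16676936))))) (c (a (b (a (l 16680240) (c (l 16698080) (l 16696456))) (c (l 16666808) (l 16642976))) (b (c (a (l 16715864) (l 16734280)) (a (l 16714240) (b (l 16743568) (l 16722096)))) (c (l 16724200) (a (l 16669784) (l 16688872))))) (a (b (l 16685576) (l 16639112)) (b (a (l 16712576) (l 16710560)) (l 16718104))))))),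 by decide +kernel⟩

def k31_pm_123 : ∃ t, chk3 f_pm_123 t 124 29 2 = true :=
  ⟨(b (a (b (c (b (l 16468504) (l 16440528)) (b (l 16444712) (l 16413056))) (c (a (l 16371624) (l 16396752)) (l 16349080))) (b (c (b (l 16518176) (a (l 16477752) (l 16504840))) (b (l 16496112) (l 16465376))) (c (a (b (l 16441600) (l 16404520)) (b (l 16469640) (c (c (a (l 16440408) (c (l 16458272) (l 16452544))) (l 16437872)) (l 16423864)))) (a (l 16389096) (b (l 16439056) (l 16397032)))))) (c (a (b (l 16304968) (l 16221968)) (a (b (l 16347056) (l 16267544)) (c (b (c (a (l 16387864) (c (l 16407480) (l 16400456))) (l 16383312)) (c (a (l 16316136) (b (l 16351496) (c (l 16320960) (l 16311368)))) (l 16308464))) (b (l 16365560) (l 16284872))))) (b (a (l 16258560) (l 16315888)) (a (l 16162008) (a (l 16206696) (l 16239600)))))), by decide +kernel⟩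

def k32_pm_123 : ∃ t, chk3 f_pm_123 t 125 58 2 = true :=
  ⟨(a (c (b (b (c (a (l 16566264) (l 16597848)) (a (l 16554216) (l 16585320))) (c (a (l 16541256) (l 16573600)) (a (l 16527088) (l 16558808)))) (a (c (a (a (c (l 16484264) (l 16473976)) (l 16487360)) (l 16499856)) (a (l 16465184) (l 16480976))) (c (l 16525784) (c (l 16510560) (l 16501728))))) (b (b (l 16597432) (a (l 16509768) (l 16542144))) (a (b (l 16469976) (l 16428640)) (l 16483152)))) (c (b (b (a (c (l 16631008) (l 16619384)) (c (l 16665344) (l 16655920))) (a (c (l 16607592) (l 16593608)) (c (l 16663768) (l 16631008)))) (a (c (l 16561584) (l 16542792)) (b (l 16648024) (c (l 16583744) (l 16565352))))) (b (a (b (c (l 16609664) (l 16602352)) (c (l 16581712) (l 16572512))) (c (b (c (l 16648816) (l 16644672)) (c (l 16622120) (l 16616864))) (b (l 16639992) (l 16610752)))) (c (a (l 16526256) (b (l 16604984) (a (l 16536752) (l 16557792)))) (a (l 16512768) (l 16552416)))))), by decide +kernel⟩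

def k33_pm_123 : ∃ t, chk3 f_pm_123 t 125 59 2 = true :=
  ⟨(b (a (c (c (a (c (l 16430608) (a (c (a (l 16406304) (l 16415056)) (l 16404424)) (b (c (l 16445832) (l 16439232)) (l 16407328)))) (b (l 16476440) (b (l 16451808) (l 16435296)))) (a (b (a (l 16409048) (l 16425352)) (l 16378744)) (a (c (a (b (l 16443352) (l 16406864)) (b (l 16452488) (l 16416384))) (l 16418136)) (b (l 16461024) (c (b (l 16439896) (l 16422216)) (c (a (l 16415616) (l 16425240)) (l 16414320))))))) (a (b (l 16386440) (l 16342696)) (b (l 16421224) (a (l 16369688) (l 16388480))))) (a (a (c (b (l 16492608) (b (l 16467192) (c (l 16465752) (c (l 16443528) (c (l 16432352) (a (l 16419640) (l 16430616))))))) (b (l 16449456) (b (l 16418400) (c (l 16409960) (l 16387032))))) (b (c (l 16512336) (l 16469248)) (b (c (l 16488352) (l 16439656)) (l 6)))) (b (c (b (a (l 16540568) (l 16561696)) (a (l 16525240) (l 6))) (c (a (b (l 16508544) (l 16490440)) (l 16522720)) (l 16493128))) (l 6)))) (a (b (c (c (a (c (l 16379504) (a (l 16353016) (a (l 16366776)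 (l 16376608)))) (b (l 16419144) (l 16403800))) (a (a (l 16330808) (l 16348720)) (c (a (c (l 16379392) (l 16371448)) (l 16397000)) (a (l 16360704) (c (l 16384832) (l 16377616)))))) (a (l 16297888) (l 16378984))) (a (c (c (c (l 16347016) (a (c (l 16321624) (l 16312648)) (l 16338040))) (a (l 16291736) (l 16311680))) (l 16253544)) (l 6))) (l 6))), by decide +kernel⟩

def k34_pm_123 : ∃ t, chk3 f_pm_123 t 62 28 3 = true :=
  ⟨(a (b (c (a (c (l 16590208) (l 16582704)) (c (a (l 16628040) (l 16655288)) (l 16636336))) (a (l 16570912) (l 16606192))) (c (a (b (l 16513888) (l 16460824)) (c (b (l 16571848) (l 16521184)) (l 16537368))) (a (l 16462568) (l 16520568)))) (a (c (b (c (a (l 16684448) (l 16736792)) (a (l 16681352) (l 16734952))) (b (c (l 16631704) (l 16626448)) (a (l 16561768) (l 16658304)))) (b (a (l 16674840) (l 16709656)) (b (l 16615616) (l 16559376)))) (c (b (a (b (c (a (l 16761832) (l 16754440)) (a (l 16761464) (l 16754576))) (c (l 16728032) (l 16705640))) (b (a (c (l 147337463543) (l 147874331399))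 (l 4)) (c (a (l 16755344) (l 44795137975)) (a (l 16754768) (l 16752784))))) (a (c (b (l 16682632) (l 16634152)) (b (l 16679608) (l 16629088))) (c (b (l 16699232) (l 16672480)) (b (l 16697488) (l 16668888))))) (b (a (b (l 106535216919) (l 16723136)) (b (l 226794341223) (a (l 16753272) (l 16752672)))) (a (b (l 16672568) (l 16617848)) (b (l 16714360) (l 16660872))))))), by decide +kernel⟩

def k35_pm_123 : ∃ t, chk3 f_pm_123 t 62 29 3 = true :=
  ⟨(a (b (c (a (a (b (l 16387976) (l 16298720)) (b (b (l 16431448) (l 16396456)) (l 16325712))) (b (b (l 16473720) (l 16439320)) (c (a (l 16364816) (l 16394888)) (l 16360352)))) (b (a (l 16365800) (l 16425384)) (a (l 16267400) (l 16328232)))) (c (a (c (l 16255904) (l 16141440)) (c (b (l 16283272) (a (l 16163656) (l 16196896))) (l 16224944))) (b (l 16184480) (l 16062248)))) (a (b (b (c (b (l 16600496) (a (l 16487152) (l 16521944))) (l 16495312)) (c (a (c (l 16427232) (l 16410832)) (l 16454832)) (l 16399984))) (c (b (c (a (l 16333512) (l 16369848)) (a (l 16310968)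 (c (l 16376088) (l 16343480)))) (c (a (l 16233784) (l 16275160)) (a (l 16203952) (c (l 16254968) (l 16239504))))) (b (a (l 16271288) (l 16311496)) (a (l 16152696) (l 16197576))))) (b (c (b (a (b (l 16591968) (l 16559424)) (b (l 16652784) (c (l 16603496) (l 16596432)))) (a (c (l 16500008) (l 16487248)) (c (l 16540992) (l 16529904)))) (b (b (l 16595352) (l 16559088)) (a (l 16462496) (l 16508680)))) (b (a (c (b (l 16423984) (c (l 16387704) (c (l 16372624) (l 16361752)))) (b (l 16383232) (l 16329392))) (b (c (c (l 16477072) (l 16461488)) (l 16432920)) (l 6))) (l 6))))), by decide +kernel⟩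

def k36_pm_123 : ∃ t, chk3 f_pm_123 t 62 15 1 = true :=
  ⟨(b (a (b (b (c (b (a (a (l 16105448) (l 16135680)) (c (a (l 16206056) (c (c (a (l 16262632) (l 16283048)) (l 16252792)) (l 16224040))) (a (l 16132368) (l 16168776)))) (a (c (a (l 16096664) (l 16150488)) (l 16032040)) (c (a (l 16187160) (l 6)) (l 16101928)))) (c (a (c (l 16003296) (l 15961408)) (c (a (l 16073392) (l 16089768)) (l 16029936))) (a (l 15897128) (l 15964256)))) (a (c (c (b (a (l 16067392) (l 16103104)) (b (l 16072448) (l 6))) (l 16066936)) (c (l 16014928) (l 15786016))) (l 6))) (l 6)) (l 6)) (l 6)), by decide +kernel⟩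

def k37_pm_123 : ∃ t, chk3 f_pm_123 t 126 6 1 = true :=
  ⟨(l 4), by decide +kernel⟩

def k38_pm_123 : ∃ t, chk3 f_pm_123 t 504 28 2 = true :=
  ⟨(a (b (b (l 4) (b (l 4) (c (a (c (l 107072163607) (l 107609043959)) (c (l 341147900711) (l 343295384263))) (c (l 119957069735) (a (l 111367131799) (l 140358160039)))))) (c (b (c (b (b (l 16769304) (l 16739536)) (l 16768024)) (b (l 16763936) (l 16744656))) (c (b (l 16728888) (l 16710472)) (l 16735888))) (c (b (b (l 16762976) (l 16742232)) (l 16731048)) (b (c (b (l 16762328) (l 16740584)) (l 16751040)) (b (l 16717592) (l 16694320)))))) (b (l 4) (c (b (a (b (c (b (l 131231369543) (l 16773008)) (b (l 16769536) (l 16772672))) (c (b (l 16764280) (l 16755368)) (l 16758424))) (b (b (l 4) (c (l 130694498535) (l 131768240311))) (c (b (l 16772736) (l 16764008)) (l 16767632)))) (c (b (c (l 16767880) (l 16745608)) (l 16749128)) (b (l 16764624) (l 16723888)))) (b (c (b (a (l 102777201799) (l 135526327399)) (l 16761920)) (c (b (a (l 16755320) (l 16751688)) (l 16761112))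 (b (l 114588353959) (l 16760720)))) (c (b (l 16741024) (l 16719576)) (c (b (l 16739056) (l 16716352)) (l 16705496))))))), by decide +kernel⟩

def k39_pm_123 : ∃ t, chk3 f_pm_123 t 505 28 2 = true :=
  ⟨(b (l 4) (a (b (b (l 4) (c (a (c (b (a (l 119420213863) (l 181697235671)) (c (l 16772696) (l 16772504))) (b (l 131231369175) (l 16772216))) (b (l 4) (c (a (l 119957084775) (l 421678540471)) (l 131231369143)))) (c (a (b (l 16753944) (l 16771824)) (l 135526326775)) (c (l 112977744759) (a (l 102240323031) (l 134989453143)))))) (c (c (b (a (c (l 16738856) (l 16759072)) (c (b (l 16772712) (l 16764208)) (l 16770680))) (c (l 16767768) (l 16766384))) (b (a (l 16736952) (b (l 16772216) (l 16762752))) (l 16764296))) (c (b (c (l 16761800) (l 16761216)) (a (l 16735224) (l 16745808))) (c (l 16749560) (a (l 16743008) (l 16754312)))))) (b (l 4) (a (c (c (a (b (b (c (l 121567697399) (l 16770696)) (l 16770648)) (l 16767928)) (b (b (l 4) (c (b (l 97945381159) (l 16773064)) (l 16774928))) (b (a (l 16765264) (l 16772776))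 (l 16757600)))) (b (b (l 132841981703) (l 1308617447)) (c (l 16737552) (l 16757720)))) (b (c (b (l 131768239831) (l 16771984)) (c (l 16755320) (l 16755304))) (c (l 16756512) (l 16754880)))) (b (a (c (b (l 4) (c (c (c (l 125325793527) (l 125325793191)) (l 125325793495)) (l 124252051655))) (c (l 135526331159) (l 16765696))) (l 4)) (c (c (c (a (c (l 16766936) (l 16766704)) (b (b (l 112440894167) (l 16773440)) (l 16767048))) (b (l 8824809895) (l 16764216))) (b (c (l 16772808) (l 16772624)) (l 16763320))) (c (b (l 16772336) (l 16762120)) (l 16766416)))))))), by decide +kernel⟩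

def k40_pm_123 : ∃ t, chk3 f_pm_123 t 253 28 2 = true :=
  ⟨(b (l 4) (a (a (b (l 4) (b (l 4) (b (a (a (c (c (c (l 130694502215) (b (l 4) (l 114051507335))) (l 129620760343)) (c (l 16765080) (l 16754576))) (l 4)) (l 4)) (c (a (c (c (a (l 16771560) (b (l 16773904) (l 16773976))) (a (l 16771304) (c (l 49090127255) (l 16773152)))) (c (l 16773976) (l 16773144))) (a (c (b (l 4) (c (l 123178313607) (l 123715183191))) (l 136063210359)) (l 4))) (c (a (l 16772888) (l 137136946775)) (a (l 16772536) (l 182234103319))))))) (l 4)) (l 4))), by decide +kernel⟩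

def k41_pm_123 : ∃ t, chk3 f_pm_123 t 504 58 2 = true :=
  ⟨(b (c (b (c (a (l 16691824) (l 16709840)) (a (l 16684336) (l 16703768))) (c (a (l 16669944) (b (l 16695128) (l 16681672))) (a (l 16660112) (l 16700984)))) (c (b (l 16708152) (a (l 16650176) (l 16671528))) (b (c (a (l 16671544) (l 16693048)) (l 16679840)) (c (a (l 16643248) (l 16665176)) (l 16671760))))) (c (a (b (l 16635160) (b (l 16612328) (c (l 16606344) (l 16589048)))) (b (c (l 16660776) (l 16649176)) (b (c (a (l 16635032) (l 16645480)) (l 16626248)) (l 16620136)))) (c (b (l 16626424) (a (l 16580304) (l 16604304))) (b (a (l 16603808) (l 16626288)) (a (l 16586336) (c (l 16593016) (l 16586592))))))), by decide +kernel⟩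

def k42_pm_123 : ∃ t, chk3 f_pm_123 t 505 58 2 = true :=
  ⟨(a (b (c (b (c (c (l 16729264) (l 16726992)) (l 16744544)) (c (b (b (l 16716744) (l 16710672)) (l 16700568)) (b (l 16707616) (l 16692944)))) (b (c (l 16718968) (c (l 16715488) (l 16713336))) (c (b (l 16701448) (l 16685240)) (c (l 16688128) (l 16705824))))) (c (b (b (c (l 16686976) (l 16677744)) (c (a (l 16668592) (l 16678952)) (a (l 16657336) (l 16668568)))) (c (l 16655992) (l 16642896))) (b (c (b (l 16668416) (l 16652104)) (c (l 16652736) (b (l 16656888) (l 16638576)))) (c (l 16629656) (l 16616488))))) (b (c (b (c (c (a (l 16742824) (c (l 16752216) (l 16762112))) (l 16766912)) (c (l 16765448) (l 16763984))) (c (b (c (b (a (l 16731904) (l 16741096)) (l 16741224)) (b (l 16734488) (l 16728392))) (c (a (l 16716472) (l 16725840)) (l 16718224))) (b (b (l 16731416) (l 16724800)) (l 16713752)))) (b (c (a (l 16735280) (l 16746320)) (a (l 16731880) (l 16743776))) (c (b (l 16744600) (l 16707736)) (b (l 16719112) (l 16701656))))) (b (a (b (c (c (b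 (l 16704872) (c (l 16700496) (l 16696352))) (l 16693736)) (c (l 16685688) (l 16677560))) (c (c (l 16689680) (l 16680264)) (l 16665928))) (b (c (c (c (b (a (l 16713928) (l 16718888)) (l 16710760)) (l 16710216)) (b (l 16708168) (l 16701608))) (c (l 16697848) (l 16690680))) (l 6))) (l 6)))), by decide +kernel⟩

def k43_pm_123 : ∃ t, chk3 f_pm_123 t 252 59 2 = true :=
  ⟨(a (a (b (c (c (l 16575064) (l 16553416)) (c (l 16531528) (l 16511600))) (l 6)) (l 6)) (l 6)), by decide +kernel⟩

def k44_pm_123 : ∃ t, chk3 f_pm_123 t 1012 58 2 = true :=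
  ⟨(b (c (c (b (a (c (l 16771552) (c (l 16760504) (l 16760112))) (c (a (l 16773208) (b (b (l 129620763863) (l 16774680)) (l 16768384))) (b (a (l 16771968) (b (l 16773568) (l 16774560))) (l 16765536)))) (b (c (b (a (l 16750336) (l 16759640)) (l 16749352)) (a (b (l 16749024) (l 16743032)) (b (l 16769280) (l 16752856)))) (a (c (b (l 16738392) (l 16732256)) (b (l 16736376) (a (l 16727240) (l 16732432)))) (b (c (a (l 16745480) (l 16750392)) (a (l 16743824) (l 16748976))) (c (l 16742384) (l 16740536)))))) (b (b (a (l 16753416) (a (l 16771600) (c (b (l 129620762871) (l 16774440)) (l 16765888)))) (a (l 16754288) (c (l 16764984) (l 16764408)))) (b (b (a (l 16746968) (l 16767936)) (a (l 16740456) (l 16751008))) (a (b (l 16733216) (l 16726160)) (b (a (l 16741216) (l 16752016)) (l 16737640)))))) (b (c (a (l 16736504) (b (a (l 16771088) (l 16765848)) (l 16763544))) (a (l 16755824) (l 16772408))) (b (c (b (l 16770856) (l 16742720)) (b (l 16747536) (l 16739672))) (c (a (l 16725088) (b (l 16740752) (l 16733680)))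 (a (l 16720400) (l 16733632)))))) (a (b (c (c (c (l 16718600) (l 16731144)) (l 16710440)) (c (l 16703728) (l 16696936))) (l 6)) (l 6))), by decide +kernel⟩

def k45_pm_123 : ∃ t, chk3 f_pm_123 t 1013 58 2 = true :=
  ⟨(b (b (b (b (l 4) (a (a (c (a (c (l 125325798327) (a (l 116735863655) (l 138747570647))) (l 4)) (c (l 16754992) (l 16775952))) (l 4)) (l 4))) (a (c (c (a (c (l 16773008) (l 16772808)) (b (c (l 139821310007) (l 139821309991)) (c (l 16775536) (l 16775456)))) (c (a (c (l 16772656) (l 16772552)) (c (l 114051503223) (l 113514631639))) (a (l 16772384) (l 16771304)))) (c (c (l 92039774311) (l 16753568)) (l 16758648))) (a (a (c (c (b (l 4) (l 140358182935)) (c (l 141431919895) (l 16764504))) (c (l 16769728) (l 16753984))) (l 4)) (l 4)))) (a (c (b (c (b (c (l 16771656) (l 16768640)) (a (l 16765960) (b (l 16767152) (l 16764264)))) (b (c (c (l 16768336) (l 16768128)) (l 16767800)) (c (a (l 16759448) (c (l 16765000) (l 16764704))) (l 16766688)))) (c (c (l 16765952) (l 16754304)) (c (a (l 16750232)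 (l 16756024)) (l 16751912)))) (b (c (b (l 16767144) (a (l 16757208) (l 16763280))) (b (l 16766256) (l 16758744))) (c (l 16750040) (l 16747520)))) (b (b (a (c (c (b (c (l 114588378903) (l 16771728)) (b (l 16775592) (c (l 16774440) (l 16774304)))) (c (b (l 16766480) (b (l 16775480) (l 16774160))) (b (l 16755992) (l 16774704)))) (c (b (l 16755984) (l 16774528)) (l 16754624))) (b (l 4) (b (l 4) (c (c (l 160222405127) (c (l 16754688) (l 16765160))) (c (l 16754664) (l 16775624)))))) (c (c (a (c (l 16771096) (l 16770776)) (a (l 16775096) (l 6))) (a (c (l 16770448) (l 16770120)) (c (l 16765888) (l 85060476823)))) (c (a (l 16769592) (l 16755312)) (a (l 16768896) (l 16776208))))) (l 6)))) (l 6)), by decide +kernel⟩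

def k46_pm_123 : ∃ t, chk3 f_pm_123 t 507 58 2 = true :=
  ⟨(b (b (l 4) (b (b (l 4) (l 6)) (l 6))) (l 6)), by decide +kernel⟩

def k47_pm_123 : ∃ t, chk3 f_pm_123 t 253 59 2 = true :=
  ⟨(l 6), by decide +kernel⟩

def k48_pm_123 : ∃ t, chk3 f_pm_123 t 126 28 3 = true :=
  ⟨(a (a (b (a (b (l 4) (c (c (l 136600046903) (l 135526305047)) (l 133378820695))) (l 4)) (c (b (a (c (l 16750416) (l 16749624)) (c (b (l 113514612871) (l 16760312)) (b (l 16753456) (l 16759800)))) (c (a (l 16703344) (l 16725080)) (l 16670048))) (b (c (a (l 16748536) (l 92576584055)) (l 16758392)) (c (l 16688288) (l 16705544))))) (b (l 4) (b (a (b (l 4) (c (c (a (l 16755264) (l 16751672)) (l 16753504)) (c (l 16753552) (l 16774504)))) (l 4)) (c (a (c (b (l 16759576) (l 16735792)) (l 16746776)) (c (c (b (a (l 16755328) (l 134452580807)) (l 16765048)) (b (l 16761080) (l 16759480))) (b (l 108145900855) (l 16759032)))) (c (a (l 16745624) (b (l 105998409447) (l 16758368))) (a (l 16743888) (l 16748912))))))) (a (a (b (l 4) (b (l 4) (c (b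 (l 4) (c (c (a (c (l 16754944) (l 16754944)) (l 189750284951)) (a (l 16754976) (l 16750728))) (a (l 16755056) (l 16750704)))) (c (c (l 122641400135) (l 119957044887)) (l 116198950695))))) (l 4)) (l 4))), by decide +kernel⟩

def k49_pm_123 : ∃ t, chk3 f_pm_123 t 126 58 3 = true :=
  ⟨(b (b (a (c (a (c (l 16676912) (l 16673168)) (c (a (l 16711176) (c (l 16735840) (l 16734992))) (l 16700200))) (a (l 16665424) (c (l 16697912) (l 16715576)))) (a (c (a (c (c (a (l 16754616) (l 16767272)) (l 16760464)) (l 16760024)) (c (a (c (l 16754248) (l 105998410663)) (c (l 189750284279) (l 192971505767))) (a (l 16754296) (l 198877088007)))) (c (a (l 16759408) (a (l 96871610647) (l 206393277239))) (a (l 16758424) (l 16751936)))) (l 4))) (a (c (a (c (l 16646568) (l 16641160)) (c (a (l 16681376) (c (b (l 16716072) (l 16697504)) (l 16705160))) (a (l 16677304) (l 16702848)))) (a (l 16630472) (c (c (l 16687280) (l 16684840)) (l 16680608)))) (a (c (a (c (c (b (a (l 16735080) (l 16748152)) (a (l 16716928) (l 16730880))) (b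 (l 16740624) (l 16722416))) (b (l 16739504) (l 16720488))) (c (b (a (c (l 16761640) (l 16761104)) (c (b (l 109219659271) (l 16772224)) (b (a (l 16775440) (l 16754072)) (l 16761544)))) (c (l 16753384) (a (l 16744480) (l 6)))) (b (a (l 16760568) (b (l 16755024) (l 16771856))) (l 16751544)))) (a (c (b (l 16737952) (l 16717840)) (l 16725160)) (c (b (a (l 16759880) (c (l 16754456) (l 16754456))) (l 16750352)) (b (l 16746216) (l 16748736))))) (b (b (l 4) (l 6)) (l 6))))) (b (a (c (a (c (l 16606264) (l 16598232)) (a (c (l 16642368) (l 16635768)) (c (b (c (l 16678960) (l 16676352)) (l 16660224)) (l 16663616)))) (a (l 16583272) (c (a (l 16628632) (l 16657936)) (l 16635144)))) (a (a (a (c (c (l 16711632) (l 16686080)) (l 16678576)) (l 6)) (l 6)) (l 6))) (a (a (a (c (l 16547800) (l 16521672)) (c (l 16615376) (l 16550104))) (a (c (l 16601240) (l 16581016)) (l 6))) (l 6)))), by decide +kernel⟩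

def k50_pm_123 : ∃ t, chk3 f_pm_123 t 126 59 3 = true :=
  ⟨(b (a (a (a (c (l 16487456) (l 16452112)) (l 6)) (l 6)) (l 6)) (l 6)), by decide +kernel⟩

def k51_pm_123 : ∃ t, chk3 f_pm_123 t 126 15 1 = true :=
  ⟨(l 6), by decide +kernel⟩

def k52_pm_123 : ∃ t, chk3 f_pm_123 t 127 3 1 = true :=
  ⟨(b (l 4) (b (b (l 4) (b (b (l 4) (l 6)) (l 6))) (l 6))), by decide +kernel⟩

theorem s53_pm_123 : ∃ t, chk3 f_pm_123 t 126 29 3 = true := ex3_b k49_pm_123 k50_pm_123

theorem s54_pm_123 : ∃ t, chk3 f_pm_123 t 126 14 3 = true := ex3_b k48_pm_123 s53_pm_123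

theorem s55_pm_123 : ∃ t, chk3 f_pm_123 t 506 58 2 = true := ex3_a k44_pm_123 k45_pm_123

theorem s56_pm_123 : ∃ t, chk3 f_pm_123 t 253 58 2 = true := ex3_a s55_pm_123 k46_pm_123

theorem s57_pm_123 : ∃ t, chk3 f_pm_123 t 253 29 2 = true := ex3_b s56_pm_123 k47_pm_123

theorem s58_pm_123 : ∃ t, chk3 f_pm_123 t 252 58 2 = true := ex3_a k41_pm_123 k42_pm_123

theorem s59_pm_123 : ∃ t, chk3 f_pm_123 t 252 29 2 = true := ex3_b s58_pm_123 k43_pm_123

theorem s60_pm_123 : ∃ t, chk3 f_pm_123 t 126 29 2 = true := ex3_a s59_pm_123 s57_pm_123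

theorem s61_pm_123 : ∃ t, chk3 f_pm_123 t 252 28 2 = true := ex3_a k38_pm_123 k39_pm_123

theorem s62_pm_123 : ∃ t, chk3 f_pm_123 t 126 28 2 = true := ex3_a s61_pm_123 k40_pm_123

theorem s63_pm_123 : ∃ t, chk3 f_pm_123 t 126 14 2 = true := ex3_b s62_pm_123 s60_pm_123

theorem s64_pm_123 : ∃ t, chk3 f_pm_123 t 126 14 1 = true := ex3_c s63_pm_123 s54_pm_123

theorem s65_pm_123 : ∃ t, chk3 f_pm_123 t 126 7 1 = true := ex3_b s64_pm_123 k51_pm_123

theorem s66_pm_123 : ∃ t, chk3 f_pm_123 t 126 3 1 = true := ex3_b k37_pm_123 s65_pm_123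

theorem s67_pm_123 : ∃ t, chk3 f_pm_123 t 63 3 1 = true := ex3_a s66_pm_123 k52_pm_123

theorem s68_pm_123 : ∃ t, chk3 f_pm_123 t 62 14 3 = true := ex3_b k34_pm_123 k35_pm_123

theorem s69_pm_123 : ∃ t, chk3 f_pm_123 t 125 29 2 = true := ex3_b k32_pm_123 k33_pm_123

theorem s70_pm_123 : ∃ t, chk3 f_pm_123 t 62 29 2 = true := ex3_a k31_pm_123 s69_pm_123

theorem s71_pm_123 : ∃ t, chk3 f_pm_123 t 62 28 2 = true := ex3_b k29_pm_123 k30_pm_123

theorem s72_pm_123 : ∃ t, chk3 f_pm_123 t 62 14 2 = true := ex3_b s71_pm_123 s70_pm_123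

theorem s73_pm_123 : ∃ t, chk3 f_pm_123 t 62 14 1 = true := ex3_c s72_pm_123 s68_pm_123

theorem s74_pm_123 : ∃ t, chk3 f_pm_123 t 62 7 1 = true := ex3_b s73_pm_123 k36_pm_123

theorem s75_pm_123 : ∃ t, chk3 f_pm_123 t 62 13 1 = true := ex3_a k27_pm_123 k28_pm_123

theorem s76_pm_123 : ∃ t, chk3 f_pm_123 t 62 6 1 = true := ex3_b k26_pm_123 s75_pm_123

theorem s77_pm_123 : ∃ t, chk3 f_pm_123 t 62 3 1 = true := ex3_b s76_pm_123 s74_pm_123

theorem s78_pm_123 : ∃ t, chk3 f_pm_123 t 31 3 1 = true := ex3_a s77_pm_123 s67_pm_123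

theorem s79_pm_123 : ∃ t, chk3 f_pm_123 t 31 1 1 = true := ex3_b k25_pm_123 s78_pm_123

theorem s80_pm_123 : ∃ t, chk3 f_pm_123 t 123 7 1 = true := ex3_b k23_pm_123 k24_pm_123

theorem s81_pm_123 : ∃ t, chk3 f_pm_123 t 61 7 1 = true := ex3_a k22_pm_123 s80_pm_123

theorem s82_pm_123 : ∃ t, chk3 f_pm_123 t 60 15 1 = true := ex3_b k20_pm_123 k21_pm_123

theorem s83_pm_123 : ∃ t, chk3 f_pm_123 t 60 7 1 = true := ex3_b k19_pm_123 s82_pm_123

theorem s84_pm_123 : ∃ t, chk3 f_pm_123 t 30 7 1 = true := ex3_a s83_pm_123 s81_pm_123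

theorem s85_pm_123 : ∃ t, chk3 f_pm_123 t 30 26 1 = true := ex3_b k16_pm_123 k17_pm_123

theorem s86_pm_123 : ∃ t, chk3 f_pm_123 t 30 13 1 = true := ex3_b s85_pm_123 k18_pm_123

theorem s87_pm_123 : ∃ t, chk3 f_pm_123 t 30 6 1 = true := ex3_b k15_pm_123 s86_pm_123

theorem s88_pm_123 : ∃ t, chk3 f_pm_123 t 30 3 1 = true := ex3_b s87_pm_123 s84_pm_123

theorem s89_pm_123 : ∃ t, chk3 f_pm_123 t 30 1 1 = true := ex3_b k14_pm_123 s88_pm_123

theorem s90_pm_123 : ∃ t, chk3 f_pm_123 t 15 1 1 = true := ex3_a s89_pm_123 s79_pm_123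

theorem s91_pm_123 : ∃ t, chk3 f_pm_123 t 14 3 3 = true := ex3_b k12_pm_123 k13_pm_123

theorem s92_pm_123 : ∃ t, chk3 f_pm_123 t 14 15 2 = true := ex3_a k10_pm_123 k11_pm_123

theorem s93_pm_123 : ∃ t, chk3 f_pm_123 t 14 7 2 = true := ex3_b k9_pm_123 s92_pm_123

theorem s94_pm_123 : ∃ t, chk3 f_pm_123 t 14 3 2 = true := ex3_b k8_pm_123 s93_pm_123

theorem s95_pm_123 : ∃ t, chk3 f_pm_123 t 14 3 1 = true := ex3_c s94_pm_123 s91_pm_123

theorem s96_pm_123 : ∃ t, chk3 f_pm_123 t 14 1 1 = true := ex3_b k7_pm_123 s95_pm_123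

theorem s97_pm_123 : ∃ t, chk3 f_pm_123 t 7 1 1 = true := ex3_a s96_pm_123 s90_pm_123

theorem s98_pm_123 : ∃ t, chk3 f_pm_123 t 13 1 1 = true := ex3_b k5_pm_123 k6_pm_123

theorem s99_pm_123 : ∃ t, chk3 f_pm_123 t 12 1 1 = true := ex3_b k3_pm_123 k4_pm_123

theorem s100_pm_123 : ∃ t, chk3 f_pm_123 t 6 1 1 = true := ex3_a s99_pm_123 s98_pm_123

theorem s101_pm_123 : ∃ t, chk3 f_pm_123 t 3 1 1 = true := ex3_a s100_pm_123 s97_pm_123

theorem s102_pm_123 : ∃ t, chk3 f_pm_123 t 2 3 1 = true := ex3_b k1_pm_123 k2_pm_123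

theorem s103_pm_123 : ∃ t, chk3 f_pm_123 t 2 1 1 = true := ex3_b k0_pm_123 s102_pm_123

theorem s104_pm_123 : ∃ t, chk3 f_pm_123 t 1 1 1 = true := ex3_a s103_pm_123 s101_pm_123

theorem c_pm_123 : CertNX 536870912 536870912 0 536870912 1046898278 26843546 3 true true false .npn 1 2 3
    ndN0q1 ndN0q2 pcN3 cut_pm_123 Ext.none :=
  certNX2 (fam := true) (s1 := true) (s2 := false) (a := 1) (b := 2) (c := 3) (cn := .npn) (n1 := ndN0q1) (n2 := ndN0q2) (pc := pcN3) (cut := cut_pm_123) (xt := Ext.none) (P1 := 536870912) (W1 := 536870912) (P2 := 0) (W2 := 536870912) (P3 := 1046898278) (W3 := 26843546) (N0 := 3)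
    rfl (fun _ => rfl) s104_pm_123

end Pool.Agent.Strip051.G.IE1.Tab.C.NA00

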